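import Pool.Statements.S04405

set_option autoImplicit false
open Pool Pool.MP_f47e6d_an

namespace Pool.Agent.S04405


/-- Discrete comparison of two sequences with the same two step recursion. -/
lemma gronwall (y w : ℕ → ℂ) (h L B τ : ℝ) (n : ℕ) (hh : 0 ≤ h) (hB : 0 ≤ B) (hL : L = 2 * B + 1)
    (hτ : 0 ≤ τ)
    (hy : ∀ k, y (k + 2) = y k + h * y (k + 1) ^ 2)
    (hw : ∀ k, k + 2 ≤ n → ‖w (k + 2) - (w k + h * w (k + 1) ^ 2)‖ ≤ τ)
    (hwB : ∀ k, k ≤ n → ‖w k‖ ≤ B)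
    (h0 : y 0 = w 0) (h1 : y 1 = w 1)
    (hn : n * τ * (1 + h * L) ^ n ≤ 1) :
    ∀ k, k ≤ n → ‖y k - w k‖ ≤ k * τ * (1 + h * L) ^ k := by
  have hLpos : 0 ≤ L := by rw [hL]; linarith
  have h1L : 1 ≤ 1 + h * L := by nlinarith [mul_nonneg hh hLpos]
  have key : ∀ k, (k ≤ n → ‖y k - w k‖ ≤ k * τ * (1 + h * L) ^ k) ∧
      (k + 1 ≤ n → ‖y (k + 1) - w (k + 1)‖ ≤ (k + 1 : ℕ) * τ * (1 + h * L) ^ (k + 1)) := by
    intro k
    induction k with
    | zero =>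
      constructor
      · intro _; simp [h0]
      · intro _
        rw [h1]
        simp
        positivity
    | succ k ih =>
      refine ⟨ih.2, ?_⟩
      intro hk
      have hk1 := ih.1 (by omega)
      have hk2 := ih.2 (by omega)
      -- bound of the middle error by one
      have hmid : ‖y (k + 1) - w (k + 1)‖ ≤ 1 := by
        refine hk2.trans (le_trans ?_ hn)
        have : ((k + 1 : ℕ) : ℝ) ≤ n := by exact_mod_cast (by omega : k + 1 ≤ n)
        have h2 : (1 + h * L) ^ (k + 1) ≤ (1 + h * L) ^ n :=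
          pow_le_pow_right₀ h1L (by omega)
        gcongr
      have hwk := hwB (k + 1) (by omega)
      have hsq : ‖y (k + 1) ^ 2 - w (k + 1) ^ 2‖ ≤ L * ‖y (k + 1) - w (k + 1)‖ := by
        have e : y (k + 1) ^ 2 - w (k + 1) ^ 2
            = (y (k + 1) - w (k + 1) + 2 * w (k + 1)) * (y (k + 1) - w (k + 1)) := by ring
        rw [e, norm_mul]
        apply mul_le_mul_of_nonneg_right _ (norm_nonneg _)
        calc ‖y (k + 1) - w (k + 1) + 2 * w (k + 1)‖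
            ≤ ‖y (k + 1) - w (k + 1)‖ + ‖2 * w (k + 1)‖ := norm_add_le _ _
          _ ≤ 1 + 2 * B := by
              have : ‖2 * w (k + 1)‖ = 2 * ‖w (k + 1)‖ := by simp
              rw [this]; linarith
          _ = L := by rw [hL]; ring
      have e : y (k + 2) - w (k + 2) = (y k - w k) + h * (y (k + 1) ^ 2 - w (k + 1) ^ 2)
          - (w (k + 2) - (w k + h * w (k + 1) ^ 2)) := by
        rw [hy]; ring
      have hwk2 := hw k hk
      have step : ‖y (k + 2) - w (k + 2)‖ ≤ ‖y k - w k‖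
          + h * (L * ‖y (k + 1) - w (k + 1)‖) + τ := by
        rw [e]
        calc _ ≤ ‖(y k - w k) + h * (y (k + 1) ^ 2 - w (k + 1) ^ 2)‖
              + ‖w (k + 2) - (w k + h * w (k + 1) ^ 2)‖ := norm_sub_le _ _
          _ ≤ (‖y k - w k‖ + ‖(h : ℂ) * (y (k + 1) ^ 2 - w (k + 1) ^ 2)‖) + τ := by
              gcongr; exact norm_add_le _ _
          _ ≤ _ := by
              rw [norm_mul, Complex.norm_real, Real.norm_of_nonneg hh]
              gcongr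
      refine step.trans ?_
      set q := 1 + h * L with hq
      have hq0 : 0 ≤ q := by linarith
      have a1 : ‖y k - w k‖ ≤ k * τ * q ^ (k + 1) := by
        refine hk1.trans ?_
        have : q ^ k ≤ q ^ (k + 1) := pow_le_pow_right₀ h1L (by omega)
        gcongr
      have a2 : h * (L * ‖y (k + 1) - w (k + 1)‖) ≤ (h * L) * ((k + 1 : ℕ) * τ * q ^ (k + 1)) := by
        rw [mul_assoc]
        gcongr
      have a3 : τ ≤ τ * q ^ (k + 1) := by
        have : 1 ≤ q ^ (k + 1) := one_le_pow₀ h1L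
        nlinarith
      have e2 : ((k + 1 + 1 : ℕ) : ℝ) * τ * q ^ (k + 1 + 1)
          = (k + 2) * τ * q ^ (k + 1) * q := by push_cast; ring
      rw [e2]
      have a4 : 0 ≤ τ * q ^ (k + 1) := by positivity
      have : (k : ℝ) * τ * q ^ (k + 1) + (h * L) * ((k + 1 : ℕ) * τ * q ^ (k + 1)) + τ * q ^ (k + 1)
          ≤ (k + 2) * τ * q ^ (k + 1) * q := by
        rw [hq]; push_cast
        nlinarith [mul_nonneg a4 (mul_nonneg hh hLpos)]
      linarith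
  intro k hk
  exact (key k).1 hk

/-- zero of an entire function from a lower bound on a circle -/
lemma exists_zero (f : ℂ → ℂ) (hf : Differentiable ℂ f) (δ m : ℝ) (hδ : 0 < δ)
    (h0 : ‖f 0‖ < m) (hs : ∀ z, ‖z‖ = δ → m ≤ ‖f z‖) : ∃ z, ‖z‖ < δ ∧ f z = 0 := by
  by_contra hcon
  push Not at hcon
  have hm : 0 < m := lt_of_le_of_lt (norm_nonneg _) h0
  have hne : ∀ z, ‖z‖ ≤ δ → f z ≠ 0 := by
    intro z hz
    rcases lt_or_eq_of_le hz with h | h
    · exact hcon z h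
    · intro h'
      have := hs z h
      rw [h', norm_zero] at this
      linarith
  have hd : DiffContOnCl ℂ (fun z => (f z)⁻¹) (Metric.ball 0 δ) := by
    apply DifferentiableOn.diffContOnCl
    rw [closure_ball _ hδ.ne']
    intro z hz
    exact ((hf z).inv (hne z (by simpa using hz))).differentiableWithinAt
  have := Complex.norm_le_of_forall_mem_frontier_norm_le (U := Metric.ball (0 : ℂ) δ)
    Metric.isBounded_ball hd (C := m⁻¹) (by
      intro z hz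
      rw [frontier_ball _ hδ.ne'] at hz
      have hz' : ‖z‖ = δ := by simpa using hz
      rw [norm_inv]
      exact inv_anti₀ hm (hs z hz')) (z := 0) (subset_closure (Metric.mem_ball_self hδ))
  rw [norm_inv] at this
  have h00 : 0 < ‖f 0‖ := norm_pos_iff.mpr (hne 0 (by simpa using hδ.le))
  have := (inv_le_inv₀ h00 hm).mp this
  linarith



/-- The orbit of (-b, b). -/
lemma iter_orbit (x : ℕ → ℂ) (hx : ∀ k, x (k + 2) = x k + x (k + 1) ^ 2) (k : ℕ) :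
    (fun q : ℂ × ℂ => (q.2, q.1 + q.2 ^ 2))^[k] (x 0, x 1) = (x k, x (k + 1)) := by
  induction k with
  | zero => simp
  | succ k ih =>
    rw [Function.iterate_succ_apply', ih]
    simp [hx k]

lemma reflect (x : ℕ → ℂ) (hx : ∀ k, x (k + 2) = x k + x (k + 1) ^ 2) (N : ℕ)
    (hN : x N + x (N + 1) = 0) :
    ∀ j, j ≤ N → x (N + 1 + j) = - x (N - j) := by
  have key : ∀ j, (j ≤ N → x (N + 1 + j) = - x (N - j)) ∧
      (j + 1 ≤ N → x (N + 1 + (j + 1)) = - x (N - (j + 1))) := by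
    intro j
    induction j with
    | zero =>
      refine ⟨fun _ => ?_, fun h => ?_⟩
      · simp; linear_combination hN
      · obtain ⟨M, rfl⟩ : ∃ M, N = M + 1 := ⟨N - 1, by omega⟩
        have h1 := hx M
        have h2 := hx (M + 1)
        have e1 : M + 1 + 1 + (0 + 1) = M + 1 + 2 := by ring
        have e2 : M + 1 - (0 + 1) = M := by omega
        rw [e1, e2, h2]
        have e3 : M + 1 + 1 = M + 2 := by ring
        rw [e3] at hN ⊢
        have h4 : x (M + 2) = - x (M + 1) := by linear_combination hN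
        rw [h4] at h1 ⊢
        linear_combination -h1
    | succ j ih =>
      refine ⟨ih.2, ?_⟩
      intro h
      have h1 := ih.1 (by omega)
      have h2 := ih.2 (by omega)
      have e1 : N + 1 + (j + 1 + 1) = (N + 1 + j) + 2 := by ring
      have e2 : N + 1 + (j + 1) = (N + 1 + j) + 1 := by ring
      rw [e1, hx, ← e2, h1, h2]
      have h3 := hx (N - (j + 1 + 1))
      have e3 : N - (j + 1 + 1) + 2 = N - j := by omega
      have e4 : N - (j + 1 + 1) + 1 = N - (j + 1) := by omega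
      rw [e3, e4] at h3
      rw [h3]; ring
  intro j hj
  exact (key j).1 hj

/-- A symmetric orbit closes up. -/
lemma cycle_of_symm (x : ℕ → ℂ) (hx : ∀ k, x (k + 2) = x k + x (k + 1) ^ 2) (N : ℕ) (hN1 : 1 ≤ N)
    (h01 : x 0 = - x 1) (hb : x 1 ≠ 0)
    (hN : x N + x (N + 1) = 0) (r : ℝ) (hr : ∀ k, k ≤ N + 1 → ‖x k‖ < r) :
    Function.IsPeriodicPt (fun q : ℂ × ℂ => (q.2, q.1 + q.2 ^ 2)) (2 * N) (x 0, x 1) ∧
      ∀ k : ℕ, ‖(fun q : ℂ × ℂ => (q.2, q.1 + q.2 ^ 2))^[k] (x 0, x 1)‖ < r ∧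
        (fun q : ℂ × ℂ => (q.2, q.1 + q.2 ^ 2))^[k] (x 0, x 1) ≠ 0 := by
  have hrefl := reflect x hx N hN
  have hper : Function.IsPeriodicPt (fun q : ℂ × ℂ => (q.2, q.1 + q.2 ^ 2)) (2 * N) (x 0, x 1) := by
    unfold Function.IsPeriodicPt Function.IsFixedPt
    rw [iter_orbit x hx]
    have h1 := hrefl N le_rfl
    have h2 := hrefl (N - 1) (by omega)
    have e1 : N + 1 + N = 2 * N + 1 := by ring
    have e2 : N + 1 + (N - 1) = 2 * N := by omega
    have e3 : N - (N - 1) = 1 := by omega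
    rw [e1] at h1
    rw [e2, e3] at h2
    rw [h1, h2, h01]
    simp [h01]
  have hbound : ∀ k, k ≤ 2 * N → ‖x k‖ < r := by
    intro k hk
    rcases le_or_gt k (N + 1) with h | h
    · exact hr k h
    · obtain ⟨j, rfl⟩ : ∃ j, k = N + 1 + j := ⟨k - (N + 1), by omega⟩
      rw [hrefl j (by omega), norm_neg]
      exact hr _ (by omega)
  refine ⟨hper, fun k => ?_⟩
  constructor
  · rw [← hper.iterate_mod_apply k, iter_orbit x hx]
    have hlt : k % (2 * N) < 2 * N := Nat.mod_lt _ (by omega)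
    rw [Prod.norm_mk]
    exact max_lt (hbound _ hlt.le) (hbound _ hlt)
  · intro h0
    have hfix : ∀ j, (fun q : ℂ × ℂ => (q.2, q.1 + q.2 ^ 2))^[j] (0 : ℂ × ℂ) = 0 := by
      intro j
      induction j with
      | zero => rfl
      | succ j ih => rw [Function.iterate_succ_apply', ih]; simp
    have h1 : (fun q : ℂ × ℂ => (q.2, q.1 + q.2 ^ 2))^[2 * N * k] (x 0, x 1) = (x 0, x 1) :=
      (hper.mul_const k)
    have h2 : 2 * N * k = (2 * N * k - k) + k := by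
      have : k ≤ 2 * N * k := Nat.le_mul_of_pos_left k (by omega)
      omega
    rw [h2, Function.iterate_add_apply, h0, hfix] at h1
    have h3 : (0 : ℂ) = x 1 := congrArg Prod.snd h1
    exact hb h3.symm

/-- The amplitude function. -/
lemma exists_am (m : ℝ) (hm0 : 0 ≤ m) (hm1 : m < 1) :
    ∃ φ : ℝ → ℝ, (∀ t, HasDerivAt φ (Real.sqrt (1 - m * Real.sin (φ t) ^ 2)) t) ∧
      ∃ T : ℝ, 0 < T ∧ φ 0 = -(Real.pi / 2) ∧ φ T = Real.pi / 2 := by
  set D : ℝ → ℝ := fun s => Real.sqrt (1 - m * Real.sin s ^ 2) with hD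
  have hpos : ∀ s, 0 < 1 - m * Real.sin s ^ 2 := by
    intro s
    have := Real.sin_sq_le_one s
    nlinarith [sq_nonneg (Real.sin s)]
  have hDpos : ∀ s, 0 < D s := fun s => Real.sqrt_pos.mpr (hpos s)
  have hDle : ∀ s, D s ≤ 1 := by
    intro s
    rw [hD]; simp only
    apply Real.sqrt_le_iff.mpr; refine ⟨zero_le_one, ?_⟩
    nlinarith [mul_nonneg hm0 (sq_nonneg (Real.sin s))]
  have hDc : Continuous D := by
    rw [hD]; fun_prop
  set g : ℝ → ℝ := fun s => (D s)⁻¹ with hg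
  have hgc : Continuous g := hDc.inv₀ (fun s => (hDpos s).ne')
  have hg1 : ∀ s, 1 ≤ g s := fun s => (one_le_inv₀ (hDpos s)).mpr (hDle s)
  set G : ℝ → ℝ := fun x => ∫ s in (-(Real.pi / 2))..x, g s with hG
  have hGd : ∀ x, HasDerivAt G (g x) x := fun x =>
    intervalIntegral.integral_hasDerivAt_right (hgc.intervalIntegrable _ _)
      (hgc.stronglyMeasurableAtFilter _ _) hgc.continuousAt
  have hGc : Continuous G := continuous_iff_continuousAt.mpr fun x => (hGd x).continuousAt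
  have hGmono : StrictMono G := strictMono_of_deriv_pos (fun x => by
    rw [(hGd x).deriv]; linarith [hg1 x])
  have hGsub : Monotone (fun x => G x - x) := by
    apply monotone_of_deriv_nonneg
    · exact fun x => ((hGd x).sub (hasDerivAt_id x)).differentiableAt
    · intro x
      have := ((hGd x).sub (hasDerivAt_id x)).deriv
      have h2 : deriv (fun x => G x - x) x = g x - 1 := this
      rw [h2]; linarith [hg1 x]
  have htop : Filter.Tendsto G Filter.atTop Filter.atTop := by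
    apply Filter.tendsto_atTop_mono' _ _ (Filter.tendsto_atTop_add_const_right Filter.atTop (G 0) Filter.tendsto_id)
    filter_upwards [Filter.eventually_ge_atTop 0] with x hx
    have := hGsub hx
    simp at this
    simp; linarith
  have hbot : Filter.Tendsto G Filter.atBot Filter.atBot := by
    apply Filter.tendsto_atBot_mono' _ _ (Filter.tendsto_atBot_add_const_right Filter.atBot (G 0) Filter.tendsto_id)
    filter_upwards [Filter.eventually_le_atBot 0] with x hx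
    have := hGsub hx
    simp at this
    simp; linarith
  have hsurj : Function.Surjective G := hGc.surjective htop hbot
  let e : ℝ ≃o ℝ := StrictMono.orderIsoOfSurjective G hGmono hsurj
  have heG : ∀ x, e x = G x := fun x => rfl
  have hesymm : Continuous e.symm := e.symm.continuous
  refine ⟨fun t => e.symm t, ?_, G (Real.pi / 2), ?_, ?_, ?_⟩
  · intro t
    have h1 : HasDerivAt G (g (e.symm t)) (e.symm t) := hGd _
    have h2 : HasDerivAt (fun t => e.symm t) (g (e.symm t))⁻¹ t := by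
      apply HasDerivAt.of_local_left_inverse (f := G) hesymm.continuousAt h1
      · linarith [hg1 (e.symm t)]
      · exact Filter.Eventually.of_forall (fun y => e.apply_symm_apply y)
    have h3 : (g (e.symm t))⁻¹ = Real.sqrt (1 - m * Real.sin (e.symm t) ^ 2) := by
      rw [hg]; simp [hD]
    rw [← h3]; exact h2
  · have h0 : G (-(Real.pi / 2)) = 0 := by rw [hG]; simp
    rw [← h0]
    exact hGmono (by linarith [Real.pi_pos])
  · have h0 : G (-(Real.pi / 2)) = 0 := by rw [hG]; simp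
    show e.symm 0 = _
    rw [OrderIso.symm_apply_eq, heG, h0]
  · show e.symm _ = _
    rw [OrderIso.symm_apply_eq, heG]

/-- The closed orbit of the limiting vector field (half of it). -/
lemma exists_ode : ∃ (ξ η : ℝ → ℂ) (T : ℝ), 0 < T ∧ (∀ t, HasDerivAt ξ (η t ^ 2) t) ∧
    (∀ t, HasDerivAt η (ξ t ^ 2) t) ∧ ξ 0 + η 0 = 0 ∧ ξ T + η T = 0 ∧ η 0 ≠ 0 ∧ ξ T ≠ 0 := by
  set r3 : ℝ := Real.sqrt 3 with hr3
  have hr3sq : r3 ^ 2 = 3 := Real.sq_sqrt (by norm_num)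
  have hr3pos : 0 < r3 := Real.sqrt_pos.mpr (by norm_num)
  have hr3lt : r3 < 2 := by nlinarith
  have hr3gt : 1 < r3 := by nlinarith
  set m : ℝ := (2 - r3) / 4 with hm
  have hm0 : 0 ≤ m := by rw [hm]; linarith
  have hm1 : m < 1 := by rw [hm]; linarith
  obtain ⟨φ, hφ, T, hT, hφ0, hφT⟩ := exists_am m hm0 hm1
  set k : ℝ := Real.sqrt m with hk
  have hk2 : k ^ 2 = m := Real.sq_sqrt hm0
  set c : ℝ → ℝ := fun t => Real.sqrt (1 - m * Real.sin (φ t) ^ 2) with hc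
  set s : ℝ → ℝ := fun t => k * Real.sin (φ t) with hs
  set p : ℝ → ℝ := fun t => k * Real.cos (φ t) with hp
  have hpos : ∀ x, 0 < 1 - m * Real.sin x ^ 2 := by
    intro x
    have := Real.sin_sq_le_one x
    nlinarith [sq_nonneg (Real.sin x)]
  have hcpos : ∀ t, 0 < c t := fun t => Real.sqrt_pos.mpr (hpos _)
  have hc2 : ∀ t, c t ^ 2 = 1 - s t ^ 2 := by
    intro t
    have h1 : c t ^ 2 = 1 - m * Real.sin (φ t) ^ 2 := Real.sq_sqrt (hpos _).le
    rw [h1]; simp only [hs]; rw [mul_pow, hk2]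
  have hp2 : ∀ t, p t ^ 2 = m - s t ^ 2 := by
    intro t
    simp only [hs, hp]
    rw [mul_pow, mul_pow, hk2, Real.cos_sq']; ring
  have hφ' : ∀ t, HasDerivAt φ (c t) t := hφ
  have hsd : ∀ t, HasDerivAt s (p t * c t) t := by
    intro t
    have := ((hφ' t).sin).const_mul k
    refine this.congr_deriv ?_
    simp only [hp]; ring
  have hpd : ∀ t, HasDerivAt p (-(s t * c t)) t := by
    intro t
    have := ((hφ' t).cos).const_mul k
    refine this.congr_deriv ?_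
    simp only [hs]; ring
  have hcd : ∀ t, HasDerivAt c (-(s t * p t)) t := by
    intro t
    have h1 : HasDerivAt (fun t => 1 - m * Real.sin (φ t) ^ 2)
        (-(m * (2 * Real.sin (φ t) * (Real.cos (φ t) * c t)))) t := by
      have h2 := (((hφ' t).sin).pow 2).const_mul m
      have h3 := h2.const_sub 1
      refine h3.congr_deriv ?_
      simp
    have h4 := h1.sqrt (hpos _).ne'
    refine h4.congr_deriv ?_
    have h5 : Real.sqrt (1 - m * Real.sin (φ t) ^ 2) = c t := rfl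
    rw [h5]
    have h6 := (hcpos t).ne'
    have h7 : s t * p t = m * (Real.sin (φ t) * Real.cos (φ t)) := by
      rw [← hk2]; simp only [hs, hp]; ring
    rw [h7]
    field_simp
  set E : ℝ → ℂ := fun t => ((c t : ℂ) + (s t : ℂ) * Complex.I) ^ 2 with hE
  set Ei : ℝ → ℂ := fun t => ((c t : ℂ) - (s t : ℂ) * Complex.I) ^ 2 with hEi
  have hII : (Complex.I) ^ 2 = -1 := Complex.I_sq
  have hEEi : ∀ t, E t * Ei t = 1 := by
    intro t
    have h1 : ((c t : ℂ)) ^ 2 = 1 - (s t : ℂ) ^ 2 := by exact_mod_cast hc2 t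
    simp only [hE, hEi]
    have h2 : ((c t : ℂ) + (s t : ℂ) * Complex.I) * ((c t : ℂ) - (s t : ℂ) * Complex.I) = 1 := by
      linear_combination h1 - (s t : ℂ) ^ 2 * hII
    rw [← mul_pow, h2, one_pow]
  have hEd : ∀ t, HasDerivAt E (2 * Complex.I * p t * E t) t := by
    intro t
    have h1 : HasDerivAt (fun t => (c t : ℂ)) ((-(s t * p t) : ℝ) : ℂ) t := (hcd t).ofReal_comp
    have h2 : HasDerivAt (fun t => (s t : ℂ)) ((p t * c t : ℝ) : ℂ) t := (hsd t).ofReal_comp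
    have h3 := (h1.add (h2.mul_const Complex.I)).pow 2
    refine h3.congr_deriv ?_
    simp only [hE, Pi.add_apply]
    push_cast
    linear_combination (-2 * (s t : ℂ) * p t * (c t + s t * Complex.I)) * hII
  have hEnorm : ∀ t, ‖E t‖ = 1 := by
    intro t
    have h1 : ‖((c t : ℂ) + (s t : ℂ) * Complex.I)‖ ^ 2 = 1 := by
      rw [← Complex.normSq_eq_norm_sq, Complex.normSq_add_mul_I]
      linarith [hc2 t]
    simp only [hE, norm_pow]; exact h1
  set D : ℝ → ℂ := fun t => (r3 : ℂ) * E t - 1 with hD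
  have hDne : ∀ t, D t ≠ 0 := by
    intro t h0
    simp only [hD] at h0
    have h1 : (r3 : ℂ) * E t = 1 := by linear_combination h0
    have h2 := congrArg norm h1
    rw [norm_mul, hEnorm, Complex.norm_real, Real.norm_of_nonneg hr3pos.le] at h2
    simp at h2
    linarith
  have hDd : ∀ t, HasDerivAt D ((r3 : ℂ) * (2 * Complex.I * p t * E t)) t := by
    intro t
    exact ((hEd t).const_mul (r3 : ℂ)).sub_const 1
  set μ : ℝ := Real.sqrt r3 with hμ
  have hμ2 : μ ^ 2 = r3 := Real.sq_sqrt hr3pos.le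
  have hμpos : 0 < μ := Real.sqrt_pos.mpr hr3pos
  set u : ℝ → ℂ := fun t => (2 * (r3 : ℂ) * Complex.I * p t * E t) / D t with hu
  set v : ℝ → ℂ := fun t => (μ : ℂ) / D t with hv
  have hvd : ∀ t, HasDerivAt v (-(u t * v t)) t := by
    intro t
    have h1 := (hasDerivAt_const t (μ : ℂ)).div (hDd t) (hDne t)
    refine h1.congr_deriv ?_
    have := hDne t
    simp only [hu, hv]
    field_simp
    ring
  have hud : ∀ t, HasDerivAt u ((u t ^ 2 + v t ^ 2) / 2) t := by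
    intro t
    have h0 : HasDerivAt (fun t => (p t : ℂ)) ((-(s t * c t) : ℝ) : ℂ) t := (hpd t).ofReal_comp
    have h1 := (((h0.const_mul (2 * (r3 : ℂ) * Complex.I)).mul (hEd t))).div (hDd t) (hDne t)
    refine h1.congr_deriv ?_
    have hDt := hDne t
    simp only [hu, hv, Pi.mul_apply]
    have hI : Complex.I ^ 2 = -1 := hII
    have hr : (r3 : ℂ) ^ 2 = 3 := by exact_mod_cast hr3sq
    have hm' : (μ : ℂ) ^ 2 = r3 := by exact_mod_cast hμ2
    have hEE := hEEi t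
    have hc2' : ((c t : ℂ)) ^ 2 = 1 - (s t : ℂ) ^ 2 := by exact_mod_cast hc2 t
    have hp2' : ((p t : ℂ)) ^ 2 = (2 - r3) / 4 - (s t : ℂ) ^ 2 := by
      have := hp2 t
      rw [hm] at this
      exact_mod_cast this
    have hA : (((-(s t * c t) : ℝ)) : ℂ) = Complex.I * (E t - Ei t) / 4 := by
      simp only [hE, hEi]
      push_cast
      linear_combination (- (c t : ℂ) * s t) * hI
    have hP : ((p t : ℂ)) ^ 2 = (E t + Ei t - r3) / 4 := by
      simp only [hE, hEi]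
      linear_combination hp2' - (1 / 2 : ℂ) * hc2' - (1 / 2 : ℂ) * (s t : ℂ) ^ 2 * hI
    rw [hA]
    have key : (2 * (r3 : ℂ) * Complex.I * (Complex.I * (E t - Ei t) / 4) * E t +
        2 * (r3 : ℂ) * Complex.I * p t * (2 * Complex.I * p t * E t)) * D t -
        2 * (r3 : ℂ) * Complex.I * p t * E t * ((r3 : ℂ) * (2 * Complex.I * p t * E t))
        = ((2 * (r3 : ℂ) * Complex.I * p t * E t) ^ 2 + (μ : ℂ) ^ 2) / 2 := by
      simp only [hD]
      linear_combination (-4 * (r3 : ℂ) * (p t : ℂ) ^ 2 * E t - 2 * (r3 : ℂ) ^ 2 * (p t : ℂ) ^ 2 * E t ^ 2) * hI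
        + (2 * Complex.I * (Complex.I * (E t - Ei t) / 4) * E t ^ 2 + 2 * (p t : ℂ) ^ 2 * E t ^ 2) * hr
        + ((6 * E t ^ 2 - 2 * (r3 : ℂ) * E t) * (E t - Ei t) / 4) * hI
        + (6 * E t ^ 2 + 4 * (r3 : ℂ) * E t) * hP
        + (3 * E t + (r3 : ℂ) / 2) * hEE - E t * hr - (1 / 2 : ℂ) * hm'
    have e1 : ((2 * (r3 : ℂ) * Complex.I * p t * E t / D t) ^ 2 + ((μ : ℂ) / D t) ^ 2) / 2
        = (((2 * (r3 : ℂ) * Complex.I * p t * E t) ^ 2 + (μ : ℂ) ^ 2) / 2) / D t ^ 2 := by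
      field_simp
    rw [e1, ← key]
  have hpz0 : p 0 = 0 := by
    simp only [hp, hφ0, Real.cos_neg, Real.cos_pi_div_two, mul_zero]
  have hpzT : p T = 0 := by
    simp only [hp, hφT, Real.cos_pi_div_two, mul_zero]
  have hu0 : u 0 = 0 := by simp [hu, hpz0]
  have huT : u T = 0 := by simp [hu, hpzT]
  have hvne : ∀ t, v t ≠ 0 := by
    intro t
    simp only [hv]
    exact div_ne_zero (by exact_mod_cast hμpos.ne') (hDne t)
  refine ⟨fun t => (u t + v t) / 2, fun t => (u t - v t) / 2, T, hT, ?_, ?_, ?_, ?_, ?_, ?_⟩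
  · intro t
    have := ((hud t).add (hvd t)).div_const 2
    refine this.congr_deriv ?_
    ring
  · intro t
    have := ((hud t).sub (hvd t)).div_const 2
    refine this.congr_deriv ?_
    ring
  · simp only [hu0]; ring
  · simp only [huT]; ring
  · simp only [hu0]
    simpa using hvne 0
  · simp only [huT]
    simpa using hvne T


/-- The two step recursion. -/
noncomputable def yseq (h a b : ℂ) : ℕ → ℂ
  | 0 => a
  | 1 => b
  | (k + 2) => yseq h a b k + h * (yseq h a b (k + 1)) ^ 2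

lemma yseq_diff (h : ℂ) (a b : ℂ → ℂ) (ha : Differentiable ℂ a) (hb : Differentiable ℂ b) (k : ℕ) :
    Differentiable ℂ (fun z => yseq h (a z) (b z) k) := by
  have key : ∀ k, Differentiable ℂ (fun z => yseq h (a z) (b z) k) ∧
      Differentiable ℂ (fun z => yseq h (a z) (b z) (k + 1)) := by
    intro k
    induction k with
    | zero => exact ⟨by simpa [yseq] using ha, by simpa [yseq] using hb⟩
    | succ k ih =>
      refine ⟨ih.2, ?_⟩
      have : (fun z => yseq h (a z) (b z) (k + 1 + 1)) =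
          fun z => yseq h (a z) (b z) k + h * (yseq h (a z) (b z) (k + 1)) ^ 2 := by
        funext z; rw [yseq]
      rw [this]
      exact ih.1.add ((ih.2.pow 2).const_mul h)
  exact (key k).1

/-- increment estimate -/
lemma incr (F F' : ℝ → ℂ) (A : ℂ) (t h M : ℝ) (hh : 0 ≤ h)
    (hF : ∀ s, HasDerivAt F (F' s) s) (hM : ∀ s, t ≤ s → s ≤ t + h → ‖F' s - A‖ ≤ M) :
    ‖F (t + h) - (F t + h * A)‖ ≤ h * M := by
  have h1 : ∀ s ∈ Set.Icc t (t + h), HasDerivWithinAt (fun s => F s - (s : ℂ) * A) (F' s - A)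
      (Set.Icc t (t + h)) s := by
    intro s _
    have h2 : HasDerivAt (fun s : ℝ => ((s : ℝ) : ℂ) * A) (1 * A) s :=
      (Complex.ofRealCLM.hasDerivAt (x := s)).mul_const A
    have h3 := (hF s).sub h2
    rw [one_mul] at h3
    exact h3.hasDerivWithinAt
  have h4 := (convex_Icc t (t + h)).norm_image_sub_le_of_norm_hasDerivWithin_le h1
    (fun s hs => hM s hs.1 hs.2) (Set.left_mem_Icc.mpr (by linarith))
    (Set.right_mem_Icc.mpr (by linarith))
  have e : F (t + h) - (F t + h * A) = (F (t + h) - ((t + h : ℝ) : ℂ) * A) - (F t - (t : ℂ) * A) := by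
    push_cast; ring
  rw [e]
  refine h4.trans ?_
  rw [Real.norm_of_nonneg (by linarith)]
  apply le_of_eq; ring

/-- First order variation of a solution. -/
noncomputable def PP (ξ η : ℝ → ℂ) (ε : ℂ) (t : ℝ) : ℂ := ξ t + ε * (ξ t + t * η t ^ 2)

lemma PP_deriv (ξ η : ℝ → ℂ) (hξ : ∀ t, HasDerivAt ξ (η t ^ 2) t)
    (hη : ∀ t, HasDerivAt η (ξ t ^ 2) t) (ε : ℂ) (t : ℝ) :
    HasDerivAt (PP ξ η ε) (PP η ξ ε t ^ 2 - ε ^ 2 * (η t + t * ξ t ^ 2) ^ 2) t := by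
  have h1 : HasDerivAt (fun t : ℝ => (t : ℂ) * η t ^ 2)
      (1 * η t ^ 2 + (t : ℂ) * (2 * η t * ξ t ^ 2)) t := by
    have h2 : HasDerivAt (fun t : ℝ => (t : ℂ)) 1 t := Complex.ofRealCLM.hasDerivAt (x := t)
    have h3 := h2.mul ((hη t).pow 2)
    refine h3.congr_deriv ?_
    simp
  have h4 := (hξ t).add (((hξ t).add h1).const_mul ε)
  refine h4.congr_deriv ?_
  simp only [PP]; ring

lemma aux_bound (ξ η : ℝ → ℂ) (T B0 : ℝ) (hB00 : 0 ≤ B0)
    (hξB : ∀ t, 0 ≤ t → t ≤ T → ‖ξ t‖ ≤ B0) (hηB : ∀ t, 0 ≤ t → t ≤ T → ‖η t‖ ≤ B0) :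
    ∀ t, 0 ≤ t → t ≤ T → ‖ξ t + t * η t ^ 2‖ ≤ B0 + T * B0 ^ 2 := by
  intro t h1 h2
  calc ‖ξ t + t * η t ^ 2‖ ≤ ‖ξ t‖ + ‖(t : ℂ) * η t ^ 2‖ := norm_add_le _ _
    _ = ‖ξ t‖ + t * ‖η t‖ ^ 2 := by
        rw [norm_mul, Complex.norm_real, Real.norm_of_nonneg h1, norm_pow]
    _ ≤ B0 + T * B0 ^ 2 := by
        have := hξB t h1 h2
        have := hηB t h1 h2
        have : 0 ≤ T := h1.trans h2
        gcongr

lemma PP_bound (ξ η : ℝ → ℂ) (T B0 C1 : ℝ) (hC : C1 = B0 + T * B0 ^ 2) (hB00 : 0 ≤ B0) (hC1 : 0 ≤ C1)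
    (hξB : ∀ t, 0 ≤ t → t ≤ T → ‖ξ t‖ ≤ B0) (hηB : ∀ t, 0 ≤ t → t ≤ T → ‖η t‖ ≤ B0)
    (ε : ℂ) (t : ℝ) (hε : ‖ε‖ ≤ 1) (h1 : 0 ≤ t) (h2 : t ≤ T) : ‖PP ξ η ε t‖ ≤ B0 + C1 := by
  have h3 := aux_bound ξ η T B0 hB00 hξB hηB t h1 h2
  rw [← hC] at h3
  calc ‖PP ξ η ε t‖ ≤ ‖ξ t‖ + ‖ε * (ξ t + t * η t ^ 2)‖ := norm_add_le _ _
    _ = ‖ξ t‖ + ‖ε‖ * ‖ξ t + t * η t ^ 2‖ := by rw [norm_mul]
    _ ≤ B0 + 1 * C1 := by
        have := hξB t h1 h2
        gcongr
    _ = B0 + C1 := by ring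

lemma PP_trunc (ξ η : ℝ → ℂ) (hξ : ∀ t, HasDerivAt ξ (η t ^ 2) t)
    (hη : ∀ t, HasDerivAt η (ξ t ^ 2) t) (T B0 C1 B B' : ℝ) (hT : 0 ≤ T) (hC : C1 = B0 + T * B0 ^ 2)
    (hB : B = B0 + C1) (hB' : B' = B ^ 2 + C1 ^ 2) (hB00 : 0 ≤ B0)
    (hξB : ∀ t, 0 ≤ t → t ≤ T → ‖ξ t‖ ≤ B0) (hηB : ∀ t, 0 ≤ t → t ≤ T → ‖η t‖ ≤ B0)
    (ε : ℂ) (t h : ℝ) (hε : ‖ε‖ ≤ 1) (ht : 0 ≤ t) (hh : 0 ≤ h) (hth : t + h ≤ T) (t' : ℝ)
    (ht' : t ≤ t') (ht'' : t' ≤ t + h) :
    ‖PP ξ η ε (t + h) - (PP ξ η ε t + h * PP η ξ ε t' ^ 2)‖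
      ≤ h * (2 * B * B' * h + C1 ^ 2 * ‖ε‖ ^ 2) := by
  have hC10 : 0 ≤ C1 := by rw [hC]; positivity
  have hBn : 0 ≤ B := by rw [hB]; positivity
  have hB'n : 0 ≤ B' := by rw [hB']; positivity
  have hPB : ∀ t, 0 ≤ t → t ≤ T → ‖PP ξ η ε t‖ ≤ B := fun t h1 h2 => by
    rw [hB]; exact PP_bound ξ η T B0 C1 hC hB00 hC10 hξB hηB ε t hε h1 h2
  have hQB : ∀ t, 0 ≤ t → t ≤ T → ‖PP η ξ ε t‖ ≤ B := fun t h1 h2 => by
    rw [hB]; exact PP_bound η ξ T B0 C1 hC hB00 hC10 hηB hξB ε t hε h1 h2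
  have hc1 : ∀ t, 0 ≤ t → t ≤ T → ‖ξ t + t * η t ^ 2‖ ≤ C1 := fun t h1 h2 => by
    rw [hC]; exact aux_bound ξ η T B0 hB00 hξB hηB t h1 h2
  have hc2 : ∀ t, 0 ≤ t → t ≤ T → ‖η t + t * ξ t ^ 2‖ ≤ C1 := fun t h1 h2 => by
    rw [hC]; exact aux_bound η ξ T B0 hB00 hηB hξB t h1 h2
  have hdQ : ∀ t, 0 ≤ t → t ≤ T →
      ‖PP ξ η ε t ^ 2 - ε ^ 2 * (ξ t + t * η t ^ 2) ^ 2‖ ≤ B' := by
    intro t h1 h2
    calc _ ≤ ‖PP ξ η ε t ^ 2‖ + ‖ε ^ 2 * (ξ t + t * η t ^ 2) ^ 2‖ := norm_sub_le _ _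
      _ = ‖PP ξ η ε t‖ ^ 2 + ‖ε‖ ^ 2 * ‖ξ t + t * η t ^ 2‖ ^ 2 := by
          rw [norm_mul, norm_pow, norm_pow, norm_pow]
      _ ≤ B ^ 2 + 1 ^ 2 * C1 ^ 2 := by
          have := hPB t h1 h2
          have := hc1 t h1 h2
          gcongr
      _ = B' := by rw [hB']; ring
  have hQl : ∀ s t, 0 ≤ s → s ≤ T → 0 ≤ t → t ≤ T →
      ‖PP η ξ ε s - PP η ξ ε t‖ ≤ B' * |s - t| := by
    intro s t hs hs' ht ht'
    have := (convex_Icc 0 T).norm_image_sub_le_of_norm_hasDerivWithin_le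
      (fun x _ => (PP_deriv η ξ hη hξ ε x).hasDerivWithinAt) (fun x hx => hdQ x hx.1 hx.2)
      (show t ∈ Set.Icc 0 T from ⟨ht, ht'⟩) (show s ∈ Set.Icc 0 T from ⟨hs, hs'⟩)
    simpa using this
  apply incr (PP ξ η ε) _ _ t h _ hh (PP_deriv ξ η hξ hη ε)
  intro s hs hs'
  have hQs := hQB s (by linarith) (by linarith)
  have hQt := hQB t' (by linarith) (by linarith)
  have hl := hQl s t' (by linarith) (by linarith) (by linarith) (by linarith)
  have hcs := hc2 s (by linarith) (by linarith)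
  have hst : |s - t'| ≤ h := by rw [abs_le]; constructor <;> linarith
  have e : PP η ξ ε s ^ 2 - ε ^ 2 * (η s + s * ξ s ^ 2) ^ 2 - PP η ξ ε t' ^ 2
      = (PP η ξ ε s + PP η ξ ε t') * (PP η ξ ε s - PP η ξ ε t') - ε ^ 2 * (η s + s * ξ s ^ 2) ^ 2 := by
    ring
  rw [e]
  calc _ ≤ ‖(PP η ξ ε s + PP η ξ ε t') * (PP η ξ ε s - PP η ξ ε t')‖
          + ‖ε ^ 2 * (η s + s * ξ s ^ 2) ^ 2‖ := norm_sub_le _ _
    _ = ‖PP η ξ ε s + PP η ξ ε t'‖ * ‖PP η ξ ε s - PP η ξ ε t'‖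
          + ‖ε‖ ^ 2 * ‖η s + s * ξ s ^ 2‖ ^ 2 := by
        rw [norm_mul, norm_mul, norm_pow, norm_pow]
    _ ≤ (B + B) * (B' * h) + ‖ε‖ ^ 2 * C1 ^ 2 := by
        have h1 : ‖PP η ξ ε s + PP η ξ ε t'‖ ≤ B + B := (norm_add_le _ _).trans (add_le_add hQs hQt)
        have h2 : ‖PP η ξ ε s - PP η ξ ε t'‖ ≤ B' * h := hl.trans (by gcongr)
        gcongr
    _ = _ := by ring

lemma arith_bound (m : ℕ) (hm : 1 ≤ m) (T h L X Y E C : ℝ) (hh : 0 < h) (hT : 0 < T)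
    (hmh : m * h = T) (hL : 0 ≤ L) (hX : 0 ≤ X) (hY : 0 ≤ Y) (hE : 0 ≤ E)
    (hC : C = 3 * T * (X + Y + 1) * Real.exp (3 * T * L) + 1) :
    ((2 * m + 1 : ℕ) : ℝ) * (h * (X * h + Y * E)) * (1 + h * L) ^ (2 * m + 1) ≤ C * (h + E) := by
  have hmr : (1 : ℝ) ≤ m := by exact_mod_cast hm
  have a1 : ((2 * m + 1 : ℕ) : ℝ) * h ≤ 3 * T := by
    push_cast
    have : h ≤ T := by rw [← hmh]; nlinarith
    nlinarith
  have a2 : (1 + h * L) ^ (2 * m + 1) ≤ Real.exp (3 * T * L) := by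
    calc (1 + h * L) ^ (2 * m + 1) ≤ (Real.exp (h * L)) ^ (2 * m + 1) := by
          have := Real.add_one_le_exp (h * L)
          gcongr; linarith
      _ = Real.exp (((2 * m + 1 : ℕ) : ℝ) * (h * L)) := by rw [← Real.exp_nat_mul]
      _ ≤ Real.exp (3 * T * L) := by
          apply Real.exp_le_exp.mpr
          rw [← mul_assoc]
          gcongr
  calc ((2 * m + 1 : ℕ) : ℝ) * (h * (X * h + Y * E)) * (1 + h * L) ^ (2 * m + 1)
      = (((2 * m + 1 : ℕ) : ℝ) * h) * (X * h + Y * E) * (1 + h * L) ^ (2 * m + 1) := by ring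
    _ ≤ (3 * T) * (X * h + Y * E) * Real.exp (3 * T * L) := by gcongr
    _ ≤ (3 * T) * ((X + Y + 1) * (h + E)) * Real.exp (3 * T * L) := by
        gcongr
        nlinarith [mul_nonneg hX hE, mul_nonneg hY hh.le]
    _ ≤ C * (h + E) := by
        rw [hC]
        have b3 : 0 ≤ h + E := by positivity
        nlinarith

lemma comparison (ξ η : ℝ → ℂ) (T : ℝ) (hT : 0 < T) (hξ : ∀ t, HasDerivAt ξ (η t ^ 2) t)
    (hη : ∀ t, HasDerivAt η (ξ t ^ 2) t) :
    ∃ B K : ℝ, 0 ≤ B ∧ 1 ≤ K ∧ ∀ (m : ℕ) (ε : ℂ) (h : ℝ), 1 ≤ m → 0 < h → m * h = T → ‖ε‖ ≤ 1 →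
      K * (h + ‖ε‖ ^ 2) ≤ 1 → ∀ j, j ≤ m →
      (‖yseq h (PP ξ η ε 0) (PP η ξ ε 0) (2 * j) - PP ξ η ε (j * h)‖ ≤ K * (h + ‖ε‖ ^ 2) ∧
      ‖yseq h (PP ξ η ε 0) (PP η ξ ε 0) (2 * j + 1) - PP η ξ ε (j * h)‖ ≤ K * (h + ‖ε‖ ^ 2)) ∧
      (‖PP ξ η ε (j * h)‖ ≤ B ∧ ‖PP η ξ ε (j * h)‖ ≤ B) := by
  have hξc : Continuous ξ := continuous_iff_continuousAt.mpr fun x => (hξ x).continuousAt
  have hηc : Continuous η := continuous_iff_continuousAt.mpr fun x => (hη x).continuousAt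
  obtain ⟨B1, hB1⟩ := (isCompact_Icc (a := (0 : ℝ)) (b := T)).exists_bound_of_continuousOn hξc.continuousOn
  obtain ⟨B2, hB2⟩ := (isCompact_Icc (a := (0 : ℝ)) (b := T)).exists_bound_of_continuousOn hηc.continuousOn
  obtain ⟨B0, hB0⟩ : ∃ B0 : ℝ, B0 = max (max B1 B2) 0 := ⟨_, rfl⟩
  have hB00 : 0 ≤ B0 := by rw [hB0]; exact le_max_right _ _
  have hξB : ∀ t, 0 ≤ t → t ≤ T → ‖ξ t‖ ≤ B0 := fun t h1 h2 => by
    rw [hB0]
    exact (hB1 t ⟨h1, h2⟩).trans ((le_max_left _ _).trans (le_max_left _ _))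
  have hηB : ∀ t, 0 ≤ t → t ≤ T → ‖η t‖ ≤ B0 := fun t h1 h2 => by
    rw [hB0]
    exact (hB2 t ⟨h1, h2⟩).trans ((le_max_right _ _).trans (le_max_left _ _))
  obtain ⟨C1, hC1⟩ : ∃ C1 : ℝ, C1 = B0 + T * B0 ^ 2 := ⟨_, rfl⟩
  have hC10 : 0 ≤ C1 := by rw [hC1]; positivity
  obtain ⟨B, hB⟩ : ∃ B : ℝ, B = B0 + C1 := ⟨_, rfl⟩
  have hBn : 0 ≤ B := by rw [hB]; positivity
  obtain ⟨B', hB'⟩ : ∃ B' : ℝ, B' = B ^ 2 + C1 ^ 2 := ⟨_, rfl⟩
  have hB'n : 0 ≤ B' := by rw [hB']; positivity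
  obtain ⟨L, hL⟩ : ∃ L : ℝ, L = 2 * B + 1 := ⟨_, rfl⟩
  have hLn : 0 ≤ L := by rw [hL]; positivity
  obtain ⟨K, hK⟩ : ∃ K : ℝ, K = 3 * T * (2 * B * B' + C1 ^ 2 + 1) * Real.exp (3 * T * L) + 1 := ⟨_, rfl⟩
  have hK1 : 1 ≤ K := by
    have : 0 ≤ 3 * T * (2 * B * B' + C1 ^ 2 + 1) * Real.exp (3 * T * L) := by positivity
    linarith
  refine ⟨B, K, hBn, hK1, ?_⟩
  intro m ε h hm hhpos hmh hε hKh
  have hPB : ∀ t, 0 ≤ t → t ≤ T → ‖PP ξ η ε t‖ ≤ B := fun t h1 h2 => by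
    rw [hB]; exact PP_bound ξ η T B0 C1 hC1 hB00 hC10 hξB hηB ε t hε h1 h2
  have hQB : ∀ t, 0 ≤ t → t ≤ T → ‖PP η ξ ε t‖ ≤ B := fun t h1 h2 => by
    rw [hB]; exact PP_bound η ξ T B0 C1 hC1 hB00 hC10 hηB hξB ε t hε h1 h2
  obtain ⟨w, hw⟩ : ∃ w : ℕ → ℂ, w = fun k => if k % 2 = 0 then PP ξ η ε ((k / 2 : ℕ) * h)
    else PP η ξ ε ((k / 2 : ℕ) * h) := ⟨_, rfl⟩
  have hwe : ∀ j, w (2 * j) = PP ξ η ε (j * h) := by
    intro j; simp [hw]
  have hwo : ∀ j, w (2 * j + 1) = PP η ξ ε (j * h) := by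
    intro j
    have e1 : (2 * j + 1) % 2 = 1 := by omega
    have e2 : (2 * j + 1) / 2 = j := by omega
    simp only [hw, e1, e2]; simp
  have hjT : ∀ j : ℕ, j ≤ m → 0 ≤ (j : ℝ) * h ∧ (j : ℝ) * h ≤ T := by
    intro j hj
    have : (j : ℝ) ≤ m := by exact_mod_cast hj
    exact ⟨by positivity, by rw [← hmh]; gcongr⟩
  obtain ⟨τ, hτ⟩ : ∃ τ : ℝ, τ = h * (2 * B * B' * h + C1 ^ 2 * ‖ε‖ ^ 2) := ⟨_, rfl⟩
  have hτ0 : 0 ≤ τ := by rw [hτ]; positivity
  have hfinal : ((2 * m + 1 : ℕ) : ℝ) * τ * (1 + h * L) ^ (2 * m + 1) ≤ K * (h + ‖ε‖ ^ 2) := by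
    rw [hτ]
    exact arith_bound m hm T h L (2 * B * B') (C1 ^ 2) (‖ε‖ ^ 2) K hhpos hT hmh hLn
      (by positivity) (by positivity) (by positivity) hK
  have hg := gronwall (yseq h (PP ξ η ε 0) (PP η ξ ε 0)) w h L B τ (2 * m + 1) hhpos.le hBn hL hτ0
    (fun k => by rw [yseq]) (by
      intro k hk
      obtain ⟨i, hi | hi⟩ : ∃ i, k = 2 * i ∨ k = 2 * i + 1 := ⟨k / 2, by omega⟩
      · subst hi
        have e1 : 2 * i + 2 = 2 * (i + 1) := by ring
        rw [e1, hwe, hwe, hwo]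
        have e2 : ((i + 1 : ℕ) : ℝ) * h = i * h + h := by push_cast; ring
        have h1 := hjT (i + 1) (by omega)
        have h0 := hjT i (by omega)
        rw [e2] at h1 ⊢
        rw [hτ]
        exact PP_trunc ξ η hξ hη T B0 C1 B B' hT.le hC1 hB hB' hB00 hξB hηB ε (i * h) h hε h0.1
          hhpos.le h1.2 _ le_rfl (by linarith)
      · subst hi
        have e1 : 2 * i + 1 + 2 = 2 * (i + 1) + 1 := by ring
        have e3 : 2 * i + 1 + 1 = 2 * (i + 1) := by ring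
        rw [e1, e3, hwe, hwo, hwo]
        have e2 : ((i + 1 : ℕ) : ℝ) * h = i * h + h := by push_cast; ring
        have h1 := hjT (i + 1) (by omega)
        have h0 := hjT i (by omega)
        rw [e2] at h1 ⊢
        rw [hτ]
        exact PP_trunc η ξ hη hξ T B0 C1 B B' hT.le hC1 hB hB' hB00 hηB hξB ε (i * h) h hε h0.1
          hhpos.le h1.2 _ (by linarith) le_rfl)
    (by
      intro k hk
      obtain ⟨i, hi | hi⟩ : ∃ i, k = 2 * i ∨ k = 2 * i + 1 := ⟨k / 2, by omega⟩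
      · subst hi
        rw [hwe]
        have h0 := hjT i (by omega)
        exact hPB _ h0.1 h0.2
      · subst hi
        rw [hwo]
        have h0 := hjT i (by omega)
        exact hQB _ h0.1 h0.2)
    (by
      have := hwe 0
      simp only [mul_zero, Nat.cast_zero, zero_mul] at this
      rw [this, yseq])
    (by
      have := hwo 0
      simp only [mul_zero, Nat.cast_zero, zero_mul, zero_add] at this
      rw [this, yseq])
    (hfinal.trans hKh)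
  have hmono : ∀ k, k ≤ 2 * m + 1 → (k : ℝ) * τ * (1 + h * L) ^ k ≤ K * (h + ‖ε‖ ^ 2) := by
    intro k hk
    refine le_trans ?_ hfinal
    have h1 : (1 : ℝ) ≤ 1 + h * L := by nlinarith [mul_nonneg hhpos.le hLn]
    have h2 : (k : ℝ) ≤ ((2 * m + 1 : ℕ) : ℝ) := by exact_mod_cast hk
    have h3 : (1 + h * L) ^ k ≤ (1 + h * L) ^ (2 * m + 1) := pow_le_pow_right₀ h1 hk
    gcongr
  intro j hj
  refine ⟨⟨?_, ?_⟩, hPB _ (hjT j hj).1 (hjT j hj).2, hQB _ (hjT j hj).1 (hjT j hj).2⟩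
  · have := hg (2 * j) (by omega)
    rw [hwe] at this
    exact this.trans (hmono _ (by omega))
  · have := hg (2 * j + 1) (by omega)
    rw [hwo] at this
    exact this.trans (hmono _ (by omega))

lemma small_cycles (r : ℝ) (hr : 0 < r) : ∃ (x : ℕ → ℂ) (N : ℕ),
    (∀ k, x (k + 2) = x k + x (k + 1) ^ 2) ∧ 1 ≤ N ∧ x 0 = - x 1 ∧ x 1 ≠ 0 ∧ x N + x (N + 1) = 0 ∧
    ∀ k, k ≤ N + 1 → ‖x k‖ < r := by
  obtain ⟨ξ, η, T, hT, hξ, hη, h00, hTT, hη0, hξT⟩ := exists_ode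
  obtain ⟨B, K, hBn, hK1, hcmp⟩ := comparison ξ η T hT hξ hη
  have hKpos : 0 < K := by linarith
  -- the derivative constant
  obtain ⟨A, hA⟩ : ∃ A : ℂ, A = 2 * T * ξ T ^ 2 := ⟨_, rfl⟩
  have hAne : 0 < ‖A‖ := by
    rw [norm_pos_iff, hA]
    have : (T : ℂ) ≠ 0 := by exact_mod_cast hT.ne'
    exact mul_ne_zero (mul_ne_zero two_ne_zero this) (pow_ne_zero 2 hξT)
  have hPQT : ∀ ε, PP ξ η ε T + PP η ξ ε T = ε * A := by
    intro ε
    simp only [PP, hA]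
    have : η T = - ξ T := by linear_combination hTT
    rw [this]; ring
  obtain ⟨a, ha⟩ : ∃ a : ℝ, a = ‖A‖ := ⟨_, rfl⟩
  rw [← ha] at hAne
  obtain ⟨δ, hδ⟩ : ∃ δ : ℝ, δ = min (1 / (2 * K)) (a / (8 * K)) := ⟨_, rfl⟩
  have hδpos : 0 < δ := by rw [hδ]; positivity
  have hδ1 : δ ≤ 1 / (2 * K) := by rw [hδ]; exact min_le_left _ _
  have hδ2 : δ ≤ a / (8 * K) := by rw [hδ]; exact min_le_right _ _
  have hδK : K * δ ≤ 1 / 2 := by
    calc K * δ ≤ K * (1 / (2 * K)) := by gcongr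
      _ = 1 / 2 := by field_simp
  have hδK2 : K * δ ≤ a / 8 := by
    calc K * δ ≤ K * (a / (8 * K)) := by gcongr
      _ = a / 8 := by field_simp
  have hδle : δ ≤ 1 / 2 := by nlinarith
  -- choose m
  obtain ⟨h0, hh0⟩ : ∃ h0 : ℝ, h0 = min (a * δ / (16 * K)) (min (1 / (4 * K)) (r / (2 * (B + 1)))) :=
    ⟨_, rfl⟩
  have hh0pos : 0 < h0 := by rw [hh0]; positivity
  have hh0a : h0 ≤ a * δ / (16 * K) := by rw [hh0]; exact min_le_left _ _
  have hh0b : h0 ≤ 1 / (4 * K) := by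
    rw [hh0]; exact (min_le_right _ _).trans (min_le_left _ _)
  have hh0c : h0 ≤ r / (2 * (B + 1)) := by
    rw [hh0]; exact (min_le_right _ _).trans (min_le_right _ _)
  obtain ⟨m, hm⟩ := exists_nat_gt (T / h0)
  have hmpos : (0 : ℝ) < m := lt_of_le_of_lt (by positivity) hm
  have hm1 : 1 ≤ m := by exact_mod_cast hmpos
  obtain ⟨h, hh⟩ : ∃ h : ℝ, h = T / m := ⟨_, rfl⟩
  have hhpos : 0 < h := by rw [hh]; positivity
  have hhh0 : h < h0 := by
    rw [hh, div_lt_iff₀ hmpos]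
    rw [div_lt_iff₀ hh0pos] at hm
    linarith
  have hmh : m * h = T := by rw [hh]; field_simp
  have hh1 : K * h ≤ a * δ / 16 := by
    calc K * h ≤ K * (a * δ / (16 * K)) := by gcongr; linarith
      _ = a * δ / 16 := by field_simp
  have hh2 : K * h ≤ 1 / 4 := by
    calc K * h ≤ K * (1 / (4 * K)) := by gcongr; linarith
      _ = 1 / 4 := by field_simp
  have hh3 : h * (B + 1) < r := by
    calc h * (B + 1) ≤ r / (2 * (B + 1)) * (B + 1) := by gcongr; linarith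
      _ = r / 2 := by field_simp
      _ < r := by linarith
  have hcond : ∀ ε : ℂ, ‖ε‖ ≤ δ → K * (h + ‖ε‖ ^ 2) ≤ 1 := by
    intro ε hε
    have h1 : ‖ε‖ ^ 2 ≤ δ * δ := by nlinarith [norm_nonneg ε]
    have h2 : K * ‖ε‖ ^ 2 ≤ K * (δ * δ) := by gcongr
    nlinarith
  obtain ⟨f, hf⟩ : ∃ f : ℂ → ℂ, f = fun ε => yseq h (PP ξ η ε 0) (PP η ξ ε 0) (2 * m)
    + yseq h (PP ξ η ε 0) (PP η ξ ε 0) (2 * m + 1) := ⟨_, rfl⟩
  have hfd : Differentiable ℂ f := by
    have hPdiff : Differentiable ℂ (fun ε => PP ξ η ε 0) := by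
      simp only [PP]; fun_prop
    have hQdiff : Differentiable ℂ (fun ε => PP η ξ ε 0) := by
      simp only [PP]; fun_prop
    rw [hf]
    exact (yseq_diff _ _ _ hPdiff hQdiff _).add (yseq_diff _ _ _ hPdiff hQdiff _)
  have hfε : ∀ ε, ‖ε‖ ≤ δ → ‖f ε - ε * A‖ ≤ 2 * (K * (h + ‖ε‖ ^ 2)) := by
    intro ε hε
    have h1 := (hcmp m ε h hm1 hhpos hmh (by linarith) (hcond ε hε) m le_rfl).1
    rw [hmh] at h1
    rw [← hPQT]
    have e : f ε - (PP ξ η ε T + PP η ξ ε T)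
        = (yseq h (PP ξ η ε 0) (PP η ξ ε 0) (2 * m) - PP ξ η ε T)
        + (yseq h (PP ξ η ε 0) (PP η ξ ε 0) (2 * m + 1) - PP η ξ ε T) := by rw [hf]; ring
    rw [e]
    refine (norm_add_le _ _).trans ?_
    linarith [h1.1, h1.2]
  have haδ : 0 < a * δ := by positivity
  obtain ⟨ε, hε, hfε0⟩ := exists_zero f hfd δ (a * δ / 2) hδpos (by
      have h1 := hfε 0 (by simpa using hδpos.le)
      simp only [zero_mul, sub_zero, norm_zero] at h1
      have : 2 * (K * (h + 0 ^ 2)) ≤ a * δ / 8 := by nlinarith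
      linarith) (by
      intro z hz
      have h1 := hfε z hz.le
      have h2 : ‖z * A‖ ≤ ‖f z‖ + ‖f z - z * A‖ := by
        have : z * A = f z - (f z - z * A) := by ring
        calc ‖z * A‖ = ‖f z - (f z - z * A)‖ := by rw [← this]
          _ ≤ _ := norm_sub_le _ _
      rw [norm_mul, hz, ← ha] at h2
      rw [hz] at h1
      have h3 : K * δ ^ 2 ≤ a * δ / 8 := by
        have : K * δ ^ 2 = K * δ * δ := by ring
        rw [this]
        calc K * δ * δ ≤ a / 8 * δ := by gcongr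
          _ = _ := by ring
      nlinarith)
  have hε1 : ‖ε‖ ≤ 1 := by linarith
  have h1ε : (1 + ε) ≠ 0 := by
    intro h0
    have : ε = -1 := by linear_combination h0
    rw [this] at hε
    simp at hε
    linarith
  refine ⟨fun k => h * yseq h (PP ξ η ε 0) (PP η ξ ε 0) k, 2 * m, ?_, by omega, ?_, ?_, ?_, ?_⟩
  · intro k
    simp only [yseq]; ring
  · simp only [yseq, PP]
    have : ξ 0 = - η 0 := by linear_combination h00
    rw [this]; simp; ring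
  · simp only [yseq, PP]
    have h2 : (h : ℂ) ≠ 0 := by exact_mod_cast hhpos.ne'
    have h3 : η 0 + ε * (η 0 + ((0 : ℝ) : ℂ) * ξ 0 ^ 2) = (1 + ε) * η 0 := by push_cast; ring
    rw [h3]
    exact mul_ne_zero h2 (mul_ne_zero h1ε hη0)
  · have h2 : (h : ℂ) * yseq h (PP ξ η ε 0) (PP η ξ ε 0) (2 * m)
        + h * yseq h (PP ξ η ε 0) (PP η ξ ε 0) (2 * m + 1) = h * f ε := by
      rw [hf]; ring
    simp only
    rw [h2, hfε0, mul_zero]
  · intro k hk
    have hcc := hcmp m ε h hm1 hhpos hmh hε1 (hcond ε hε.le)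
    have h5 := hcond ε hε.le
    have hbd : ‖yseq h (PP ξ η ε 0) (PP η ξ ε 0) k‖ ≤ B + 1 := by
      obtain ⟨i, hi | hi⟩ : ∃ i, k = 2 * i ∨ k = 2 * i + 1 := ⟨k / 2, by omega⟩
      · obtain ⟨⟨h1, _⟩, h4, _⟩ := hcc i (by omega)
        subst hi
        calc _ = ‖(yseq h (PP ξ η ε 0) (PP η ξ ε 0) (2 * i) - PP ξ η ε (i * h)) + PP ξ η ε (i * h)‖ := by
              congr 1; ring
          _ ≤ _ := norm_add_le _ _
          _ ≤ B + 1 := by linarith
      · obtain ⟨⟨_, h1⟩, _, h4⟩ := hcc i (by omega)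
        subst hi
        calc _ = ‖(yseq h (PP ξ η ε 0) (PP η ξ ε 0) (2 * i + 1) - PP η ξ ε (i * h)) + PP η ξ ε (i * h)‖ := by
              congr 1; ring
          _ ≤ _ := norm_add_le _ _
          _ ≤ B + 1 := by linarith
    simp only
    rw [norm_mul, Complex.norm_real, Real.norm_of_nonneg hhpos.le]
    calc h * ‖yseq h (PP ξ η ε 0) (PP η ξ ε 0) k‖ ≤ h * (B + 1) := by gcongr
      _ < r := hh3

/-- For the map H(x,y)=(y,x+y^2) on C^2, every neighborhood U of the origin contains a periodic orbit of H (a point of some positive period) all of whose iterates lie in U and differ from the origin. -/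
theorem result :
    ∀ U ∈ nhds ((0 : ℂ × ℂ)), ∃ p : ℂ × ℂ, ∃ n : ℕ, 0 < n ∧
      Function.IsPeriodicPt (fun q : ℂ × ℂ => (q.2, q.1 + q.2 ^ 2)) n p ∧
      ∀ k : ℕ, (fun q : ℂ × ℂ => (q.2, q.1 + q.2 ^ 2))^[k] p ∈ U ∧
        (fun q : ℂ × ℂ => (q.2, q.1 + q.2 ^ 2))^[k] p ≠ 0 := by
  intro U hU
  obtain ⟨r, hr, hrU⟩ := Metric.mem_nhds_iff.mp hU
  obtain ⟨x, N, hx, hN1, h01, hb, hN, hxr⟩ := small_cycles r hr
  obtain ⟨h1, h2⟩ := cycle_of_symm x hx N hN1 h01 hb hN r hxr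
  refine ⟨(x 0, x 1), 2 * N, by omega, h1, fun k => ⟨hrU ?_, (h2 k).2⟩⟩
  rw [mem_ball_zero_iff]
  exact (h2 k).1


end Pool.Agent.S04405
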