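import Pool.Statements.S04407

set_option autoImplicit false
open Pool Pool.MP_f490a9_an

namespace Pool.Agent.S04407

section Aux

open TopologicalSpace Set Pointwise

section Large

variable {E : Type*} [NormedAddCommGroup E] [NormedSpace ℝ E]

/-- `A` is not within distance 1/2 of a separable subspace. -/
def Large (A : Set E) : Prop :=
  ∀ Z : Submodule ℝ E, IsSeparable (Z : Set E) → ∃ f ∈ A, ∀ g ∈ Z, 1/2 < ‖f - g‖

lemma Large.mono {A B : Set E} (h : Large A) (hAB : A ⊆ B) : Large B := by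
  intro Z hZ
  obtain ⟨f, hf, h'⟩ := h Z hZ
  exact ⟨f, hAB hf, h'⟩

lemma not_large_iff {A : Set E} :
    ¬ Large A ↔ ∃ Z : Submodule ℝ E, IsSeparable (Z : Set E) ∧ ∀ f ∈ A, ∃ g ∈ Z, ‖f - g‖ ≤ 1/2 := by
  unfold Large
  push Not
  rfl

lemma not_large_iUnion {ι : Type*} [Countable ι] {A : ι → Set E} (h : ∀ n, ¬ Large (A n)) :
    ¬ Large (⋃ n, A n) := by
  simp only [not_large_iff] at h
  choose Z hZ hA using h
  rw [not_large_iff]
  refine ⟨Submodule.span ℝ (⋃ n, (Z n : Set E)), ?_, ?_⟩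
  · exact (IsSeparable.iUnion hZ).span
  · intro f hf
    obtain ⟨n, hn⟩ := mem_iUnion.1 hf
    obtain ⟨g, hg, hfg⟩ := hA n f hn
    exact ⟨g, Submodule.subset_span (mem_iUnion.2 ⟨n, hg⟩), hfg⟩

lemma not_large_union {A B : Set E} (hA : ¬ Large A) (hB : ¬ Large B) : ¬ Large (A ∪ B) := by
  rw [union_eq_iUnion]
  apply not_large_iUnion
  rintro (_ | _) <;> simpa

lemma large_ball (h : ¬ SeparableSpace E) : Large (Metric.closedBall (0 : E) 1) := by
  intro Z hZ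
  have hcl : IsClosed (Z.topologicalClosure : Set E) := Z.isClosed_topologicalClosure
  have hsep : IsSeparable (Z.topologicalClosure : Set E) := hZ.closure
  have hne : ∃ x, x ∉ Z.topologicalClosure := by
    by_contra hcon
    push Not at hcon
    apply h
    have : (Z.topologicalClosure : Set E) = univ := eq_univ_of_forall hcon
    rw [this] at hsep
    exact isSeparable_univ_iff.1 hsep
  obtain ⟨x, hx, hxy⟩ := riesz_lemma hcl hne (r := 3/4) (by norm_num)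
  have hx0 : x ≠ 0 := by
    rintro rfl
    exact hx (Submodule.zero_mem _)
  have hxn : 0 < ‖x‖ := norm_pos_iff.2 hx0
  refine ⟨‖x‖⁻¹ • x, ?_, ?_⟩
  · simp [norm_smul, hxn.ne']
  · intro g hg
    have h1 := hxy (‖x‖ • g) (Z.topologicalClosure.smul_mem _ (Z.le_topologicalClosure hg))
    have h2 : ‖x‖⁻¹ • x - g = ‖x‖⁻¹ • (x - ‖x‖ • g) := by
      rw [smul_sub, smul_smul, inv_mul_cancel₀ hxn.ne', one_smul]
    rw [h2, norm_smul, norm_inv, norm_norm]
    have : (3/4 : ℝ) ≤ ‖x‖⁻¹ * ‖x - ‖x‖ • g‖ := by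
      rw [inv_mul_eq_div, le_div_iff₀ hxn]
      exact h1
    linarith

end Large

section Dual

variable {Y : Type*} [NormedAddCommGroup Y] [NormedSpace ℝ Y]

/-- finite-dimensional separation with norm control -/
lemma exists_vector {ι : Type*} [Finite ι] (f : Y →L[ℝ] ℝ) (g : ι → (Y →L[ℝ] ℝ))
    (h : ∀ z ∈ Submodule.span ℝ (range g), 1/2 < ‖f - z‖) :
    ∃ y : Y, ‖y‖ ≤ 1 ∧ (∀ i, g i y = 0) ∧ 1/2 < f y := by
  by_contra hcon
  push Not at hcon
  let p : Submodule ℝ Y := ⨅ i, LinearMap.ker (g i).toLinearMap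
  have hp : ∀ y, y ∈ p ↔ ∀ i, g i y = 0 := by
    intro y
    simp [p]
  have hb : ∀ y ∈ p, |f y| ≤ 1/2 * ‖y‖ := by
    intro y hy
    by_cases hy0 : y = 0
    · simp [hy0]
    have hyn : 0 < ‖y‖ := norm_pos_iff.2 hy0
    have key : ∀ z ∈ p, z ≠ 0 → f z ≤ 1/2 * ‖z‖ := by
      intro z hz hz0
      have hzn : 0 < ‖z‖ := norm_pos_iff.2 hz0
      have := hcon (‖z‖⁻¹ • z) (by simp [norm_smul, hzn.ne'])
        (by intro i; simp [(hp z).1 hz i])
      rw [map_smul, smul_eq_mul, inv_mul_eq_div, div_le_iff₀ hzn] at this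
      exact this
    rw [abs_le]
    constructor
    · have := key (-y) (p.neg_mem hy) (neg_ne_zero.2 hy0)
      rw [map_neg, norm_neg] at this
      linarith
    · exact key y hy hy0
  let f' : p →L[ℝ] ℝ := f.comp p.subtypeL
  have hf' : ‖f'‖ ≤ 1/2 := by
    apply ContinuousLinearMap.opNorm_le_bound _ (by norm_num)
    rintro ⟨y, hy⟩
    exact hb y hy
  obtain ⟨G, hG1, hG2⟩ := exists_extension_norm_eq p f'
  have hker : ⨅ i, LinearMap.ker (g i).toLinearMap ≤ LinearMap.ker (f - G).toLinearMap := by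
    intro y hy
    have := hG1 ⟨y, hy⟩
    simp only [LinearMap.mem_ker]
    change f y - G y = 0
    rw [this]
    change f y - f y = 0
    ring
  have hspan := mem_span_of_iInf_ker_le_ker hker
  cases nonempty_fintype ι
  rw [Submodule.mem_span_range_iff_exists_fun] at hspan
  obtain ⟨c, hc⟩ := hspan
  have hmem : f - G ∈ Submodule.span ℝ (range g) := by
    rw [Submodule.mem_span_range_iff_exists_fun]
    refine ⟨c, ?_⟩
    ext y
    have := congrArg (fun (T : Y →ₗ[ℝ] ℝ) => T y) hc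
    simpa using this
  have := h _ hmem
  rw [sub_sub_cancel, hG2] at this
  linarith

/-- condensation functionals -/
lemma exists_condensation [SeparableSpace Y] {A : Set (Y →L[ℝ] ℝ)} (hA : Large A)
    (hb : A ⊆ Metric.closedBall 0 1) (Z : Submodule ℝ (Y →L[ℝ] ℝ))
    (hZ : IsSeparable (Z : Set (Y →L[ℝ] ℝ))) :
    ∃ f ∈ A, (∀ g ∈ Z, 1/2 < ‖f - g‖) ∧
      ∀ (y : Y) (ε : ℝ), 0 < ε → Large {g ∈ A | |g y - f y| < ε} := by
  classical
  let d : ℕ → Y := denseSeq Y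
  let Φ : (Y →L[ℝ] ℝ) → (ℕ → ℝ) := fun g i => g (d i)
  let 𝓑 := countableBasis (ℕ → ℝ)
  let A1 : Set (Y →L[ℝ] ℝ) := {f ∈ A | ∃ g ∈ Z, ‖f - g‖ ≤ 1/2}
  have hA1 : ¬ Large A1 := by
    rw [not_large_iff]
    exact ⟨Z, hZ, fun f hf => hf.2⟩
  let J := {V : Set (ℕ → ℝ) // V ∈ 𝓑 ∧ ¬ Large (A ∩ Φ ⁻¹' V)}
  have hJ : Countable J := by
    have : Countable 𝓑 := (countable_countableBasis (ℕ → ℝ)).to_subtype
    exact Function.Injective.countable (f := fun V : J => (⟨V.1, V.2.1⟩ : 𝓑)) (by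
      intro a b hab
      exact Subtype.ext (congrArg (fun V : 𝓑 => V.1) hab))
  let A2 : Set (Y →L[ℝ] ℝ) := ⋃ V : J, A ∩ Φ ⁻¹' V.1
  have hA2 : ¬ Large A2 := not_large_iUnion (fun V => V.2.2)
  have hne : ∃ f ∈ A, f ∉ A1 ∪ A2 := by
    by_contra hcon
    push Not at hcon
    exact not_large_union hA1 hA2 (hA.mono hcon)
  obtain ⟨f, hfA, hf⟩ := hne
  rw [mem_union, not_or] at hf
  refine ⟨f, hfA, ?_, ?_⟩
  · intro g hg
    by_contra hcon
    exact hf.1 ⟨hfA, g, hg, not_lt.1 hcon⟩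
  · intro y ε hε
    obtain ⟨i, hi⟩ : ∃ i, ‖y - d i‖ < ε/4 := by
      obtain ⟨i, hi⟩ := (denseRange_denseSeq Y).exists_dist_lt y (show 0 < ε/4 by linarith)
      exact ⟨i, by rwa [dist_eq_norm] at hi⟩
    let O : Set (ℕ → ℝ) := {a | |a i - f (d i)| < ε/4}
    have hO : IsOpen O := by
      apply isOpen_lt _ continuous_const
      exact ((continuous_apply i).sub continuous_const).abs
    have hfO : Φ f ∈ O := by
      change |f (d i) - f (d i)| < ε/4
      rw [sub_self, abs_zero]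
      linarith
    obtain ⟨V, hV, hfV, hVO⟩ := (isBasis_countableBasis (ℕ → ℝ)).exists_subset_of_mem_open hfO hO
    have hL : Large (A ∩ Φ ⁻¹' V) := by
      by_contra hcon
      exact hf.2 (mem_iUnion.2 ⟨⟨V, hV, hcon⟩, hfA, hfV⟩)
    apply hL.mono
    rintro g ⟨hgA, hgV⟩
    refine ⟨hgA, ?_⟩
    have h1 : |g (d i) - f (d i)| < ε/4 := hVO hgV
    have h2 : |g (y - d i)| ≤ ε/4 := by
      have := g.le_opNorm (y - d i)
      have h3 : ‖g‖ ≤ 1 := by simpa using hb hgA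
      rw [Real.norm_eq_abs] at this
      nlinarith [norm_nonneg (y - d i), norm_nonneg g]
    have h3 : |f (y - d i)| ≤ ε/4 := by
      have := f.le_opNorm (y - d i)
      have h3 : ‖f‖ ≤ 1 := by simpa using hb hfA
      rw [Real.norm_eq_abs] at this
      nlinarith [norm_nonneg (y - d i), norm_nonneg f]
    rw [map_sub] at h2 h3
    rw [abs_le] at h2 h3
    rw [abs_lt] at h1 ⊢
    constructor <;> linarith [h1.1, h1.2, h2.1, h2.2, h3.1, h3.2]

/-- one splitting step -/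
lemma step1 [SeparableSpace Y] {ι : Type*} [Finite ι] (A : ι → Set (Y →L[ℝ] ℝ))
    (hA : ∀ j, Large (A j)) (hb : ∀ j, A j ⊆ Metric.closedBall 0 1) (i : ι) :
    ∃ (y : Y) (A' : ι → Set (Y →L[ℝ] ℝ)), ‖y‖ ≤ 1 ∧ (∀ j, A' j ⊆ A j ∧ Large (A' j)) ∧
      (∀ f ∈ A' i, 3/8 ≤ f y) ∧ ∀ j, j ≠ i → ∀ f ∈ A' j, |f y| ≤ 1/8 := by
  classical
  have h1 : ∀ j, ∃ f ∈ A j, ∀ (y : Y) (ε : ℝ), 0 < ε → Large {g ∈ A j | |g y - f y| < ε} := by
    intro j
    obtain ⟨f, hf, -, hf'⟩ := exists_condensation (hA j) (hb j) ⊥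
      (by rw [Submodule.bot_coe]; exact (countable_singleton _).isSeparable)
    exact ⟨f, hf, hf'⟩
  choose F hFA hF using h1
  obtain ⟨f, hfA, hfd, hf⟩ := exists_condensation (hA i) (hb i)
    (Submodule.span ℝ (range (fun j : {j // j ≠ i} => F j)))
    ((Set.finite_range _).countable.isSeparable.span)
  obtain ⟨y, hy1, hy2, hy3⟩ := exists_vector f (fun j : {j // j ≠ i} => F j) hfd
  refine ⟨y, fun j => if j = i then {g ∈ A j | |g y - f y| < 1/8} else
    {g ∈ A j | |g y - F j y| < 1/8}, hy1, ?_, ?_, ?_⟩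
  · intro j
    by_cases hj : j = i
    · subst hj
      simp only [if_true]
      exact ⟨sep_subset _ _, hf y _ (by norm_num)⟩
    · simp only [hj, if_false]
      exact ⟨sep_subset _ _, hF j y _ (by norm_num)⟩
  · intro g hg
    simp only [if_true] at hg
    have := hg.2
    rw [abs_lt] at this
    linarith [this.1]
  · intro j hj g hg
    simp only [hj, if_false] at hg
    have h := hg.2
    rw [hy2 ⟨j, hj⟩, sub_zero] at h
    exact h.le

/-- a whole level -/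
lemma step2 [SeparableSpace Y] {ι : Type*} [Finite ι] (S : Finset ι) (A : ι → Set (Y →L[ℝ] ℝ))
    (hA : ∀ j, Large (A j)) (hb : ∀ j, A j ⊆ Metric.closedBall 0 1) :
    ∃ (y : ι → Y) (A' : ι → Set (Y →L[ℝ] ℝ)), (∀ j, A' j ⊆ A j ∧ Large (A' j)) ∧
      ∀ i ∈ S, ‖y i‖ ≤ 1 ∧ (∀ f ∈ A' i, 3/8 ≤ f (y i)) ∧
        ∀ j, j ≠ i → ∀ f ∈ A' j, |f (y i)| ≤ 1/8 := by
  classical
  induction S using Finset.induction_on with
  | empty => exact ⟨fun _ => 0, A, fun j => ⟨Subset.rfl, hA j⟩, by simp⟩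
  | insert i S hi ih =>
    obtain ⟨y, A', hA', hy⟩ := ih
    obtain ⟨z, A'', hz1, hA'', hz2, hz3⟩ := step1 A' (fun j => (hA' j).2)
      (fun j => (hA' j).1.trans (hb j)) i
    refine ⟨Function.update y i z, A'', fun j => ⟨(hA'' j).1.trans (hA' j).1, (hA'' j).2⟩, ?_⟩
    intro k hk
    by_cases hki : k = i
    · subst hki
      simp only [Function.update_self]
      exact ⟨hz1, hz2, hz3⟩
    · have hkS : k ∈ S := by
        rcases Finset.mem_insert.1 hk with h | h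
        · exact absurd h hki
        · exact h
      simp only [Function.update_of_ne hki]
      obtain ⟨h1, h2, h3⟩ := hy k hkS
      exact ⟨h1, fun f hf => h2 f ((hA'' k).1 hf), fun j hj f hf => h3 j hj f ((hA'' j).1 hf)⟩


lemma level [SeparableSpace Y] (m : ℕ) (A : ℕ → Set (Y →L[ℝ] ℝ))
    (hA : ∀ k, Large (A k) ∧ A k ⊆ Metric.closedBall 0 1) :
    ∃ (y : ℕ → Y) (A' : ℕ → Set (Y →L[ℝ] ℝ)), (∀ k, A' k ⊆ A k ∧ Large (A' k)) ∧
      ∀ k, k < m → ‖y k‖ ≤ 1 ∧ (∀ f ∈ A' k, 3/8 ≤ f (y k)) ∧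
        ∀ l, l < m → l ≠ k → ∀ f ∈ A' l, |f (y k)| ≤ 1/8 := by
  classical
  obtain ⟨y, A', hA', hy⟩ := step2 (Finset.univ : Finset (Fin m)) (fun k => A k.1)
    (fun k => (hA k.1).1) (fun k => (hA k.1).2)
  refine ⟨fun k => if h : k < m then y ⟨k, h⟩ else 0,
    fun k => if h : k < m then A' ⟨k, h⟩ else A k, ?_, ?_⟩
  · intro k
    by_cases h : k < m
    · simp only [h, dif_pos]
      exact hA' ⟨k, h⟩
    · simp only [h, dif_neg, not_false_eq_true]
      exact ⟨Subset.rfl, (hA k).1⟩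
  · intro k hk
    simp only [hk, dif_pos]
    obtain ⟨h1, h2, h3⟩ := hy ⟨k, hk⟩ (Finset.mem_univ _)
    refine ⟨h1, h2, ?_⟩
    intro l hl hlk
    simp only [hl, dif_pos]
    exact h3 ⟨l, hl⟩ (by simpa [Fin.ext_iff] using hlk)

lemma exists_tree [SeparableSpace Y] (h : ¬ SeparableSpace (Y →L[ℝ] ℝ)) :
    ∃ (A : ℕ → ℕ → Set (Y →L[ℝ] ℝ)) (y : ℕ → ℕ → Y),
      (∀ n k, (A n k).Nonempty ∧ A n k ⊆ Metric.closedBall 0 1) ∧
      (∀ n k, A (n+1) k ⊆ A n (k/2)) ∧
      (∀ n k, k < 2^n → ‖y n k‖ ≤ 1 ∧ (∀ f ∈ A n k, 3/8 ≤ f (y n k)) ∧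
        ∀ l, l < 2^n → l ≠ k → ∀ f ∈ A n l, |f (y n k)| ≤ 1/8) := by
  classical
  choose Y' A' hA' hY' using fun (m : ℕ) (A : {A : ℕ → Set (Y →L[ℝ] ℝ) //
    ∀ k, Large (A k) ∧ A k ⊆ Metric.closedBall 0 1}) => level m A.1 A.2
  let next : ℕ → {A : ℕ → Set (Y →L[ℝ] ℝ) // ∀ k, Large (A k) ∧ A k ⊆ Metric.closedBall 0 1} →
      {A : ℕ → Set (Y →L[ℝ] ℝ) // ∀ k, Large (A k) ∧ A k ⊆ Metric.closedBall 0 1} :=
    fun m A => ⟨A' m A, fun k => ⟨(hA' m A k).2, (hA' m A k).1.trans (A.2 k).2⟩⟩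
  let half : {A : ℕ → Set (Y →L[ℝ] ℝ) // ∀ k, Large (A k) ∧ A k ⊆ Metric.closedBall 0 1} →
      {A : ℕ → Set (Y →L[ℝ] ℝ) // ∀ k, Large (A k) ∧ A k ⊆ Metric.closedBall 0 1} :=
    fun A => ⟨fun k => A.1 (k/2), fun k => A.2 (k/2)⟩
  let init : {A : ℕ → Set (Y →L[ℝ] ℝ) // ∀ k, Large (A k) ∧ A k ⊆ Metric.closedBall 0 1} :=
    ⟨fun _ => Metric.closedBall 0 1, fun _ => ⟨large_ball h, Subset.rfl⟩⟩
  let pre : ℕ → {A : ℕ → Set (Y →L[ℝ] ℝ) // ∀ k, Large (A k) ∧ A k ⊆ Metric.closedBall 0 1} :=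
    fun n => Nat.rec init (fun n B => half (next (2^n) B)) n
  refine ⟨fun n => (next (2^n) (pre n)).1, fun n => Y' (2^n) (pre n), ?_, ?_, ?_⟩
  · intro n k
    have := (next (2^n) (pre n)).2 k
    refine ⟨?_, this.2⟩
    obtain ⟨f, hf, -⟩ := this.1 ⊥
      (by rw [Submodule.bot_coe]; exact (countable_singleton _).isSeparable)
    exact ⟨f, hf⟩
  · intro n k
    exact (hA' (2^(n+1)) (pre (n+1)) k).1
  · intro n k hk
    exact hY' (2^n) (pre n) k hk

end Dual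

section SchemeSection

variable {X : Type*} [NormedAddCommGroup X] [NormedSpace ℝ X]

/-- a dyadic scheme of weak-star closed sets in the dual ball -/
structure Scheme (X : Type*) [NormedAddCommGroup X] [NormedSpace ℝ X] where
  C : ℕ → ℕ → Set (WeakDual ℝ X)
  u : ℕ → ℕ → X
  closed : ∀ n k, IsClosed (C n k)
  ball : ∀ n k, ∀ F ∈ C n k, ∀ x : X, |F x| ≤ ‖x‖
  nonempty : ∀ n k, k < 2^n → (C n k).Nonempty
  sub : ∀ n k, C (n+1) k ⊆ C n (k/2)
  u_norm : ∀ n k, k < 2^n → ‖u n k‖ ≤ 1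
  big : ∀ n k, k < 2^n → ∀ F ∈ C n k, 3/8 ≤ F (u n k)
  small : ∀ n k l, k < 2^n → l < 2^n → l ≠ k → ∀ F ∈ C n l, |F (u n k)| ≤ 1/8

namespace Scheme

variable (S : Scheme X)

lemma compact (n k : ℕ) : IsCompact (S.C n k) := by
  apply (WeakDual.isCompact_closedBall (0 : StrongDual ℝ X) 1).of_isClosed_subset (S.closed n k)
  intro F hF
  simp only [mem_preimage, mem_closedBall_zero_iff]
  apply ContinuousLinearMap.opNorm_le_bound _ zero_le_one
  intro x
  rw [one_mul]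
  exact S.ball n k F hF x

lemma anc (n j k : ℕ) : S.C (n+j) k ⊆ S.C n (k / 2^j) := by
  induction j generalizing k with
  | zero => simp
  | succ j ih =>
    have h1 := S.sub (n+j) k
    have h2 := ih (k/2)
    rw [Nat.div_div_eq_div_mul, ← pow_succ'] at h2
    exact h1.trans h2

/-- level set -/
def Lv : Set (WeakDual ℝ X) := ⋂ n, ⋃ k ∈ Finset.range (2^n), S.C n k

lemma isClosed_Lv : IsClosed S.Lv := by
  apply isClosed_iInter
  intro n
  apply isClosed_biUnion_finset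
  intro k _
  exact S.closed n k

lemma mem_Lv {F : WeakDual ℝ X} : F ∈ S.Lv ↔ ∀ n, ∃ k, k < 2^n ∧ F ∈ S.C n k := by
  simp [Lv]

lemma Lv_nonempty (n k : ℕ) (hk : k < 2^n) : (S.Lv ∩ S.C n k).Nonempty := by
  have hlt : ∀ m, k * 2^m < 2^(n+m) := by
    intro m
    rw [pow_add]
    exact Nat.mul_lt_mul_of_pos_right hk (by positivity)
  have h := IsCompact.nonempty_iInter_of_sequence_nonempty_isCompact_isClosed
    (fun m => S.C (n+m) (k * 2^m)) (by
      intro m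
      have := S.sub (n+m) (k*2^(m+1))
      have h2 : k*2^(m+1)/2 = k*2^m := by
        rw [pow_succ, ← mul_assoc]
        simp
      rw [h2] at this
      exact this) (fun m => S.nonempty _ _ (hlt m)) (S.compact _ _) (fun m => S.closed _ _)
  obtain ⟨F, hF⟩ := h
  rw [mem_iInter] at hF
  refine ⟨F, ?_, ?_⟩
  · rw [mem_Lv]
    intro N
    rcases le_total n N with h | h
    · obtain ⟨m, rfl⟩ := Nat.exists_eq_add_of_le h
      exact ⟨_, hlt m, hF m⟩
    · obtain ⟨m, rfl⟩ := Nat.exists_eq_add_of_le h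
      refine ⟨k / 2^m, ?_, ?_⟩
      · rw [Nat.div_lt_iff_lt_mul (by positivity), ← pow_add]
        exact hk
      · apply S.anc N m k
        simpa using hF 0
  · simpa using hF 0

lemma exists_K : ∃ K : Set (WeakDual ℝ X), IsClosed K ∧ K ⊆ S.Lv ∧
    (∀ n k, k < 2^n → (K ∩ S.C n k).Nonempty) ∧
    ∀ T : Set (WeakDual ℝ X), IsClosed T → (K \ T).Nonempty →
      ∃ n k, k < 2^n ∧ K ∩ S.C n k ⊆ Tᶜ := by
  let 𝓢 : Set (Set (WeakDual ℝ X)) := {K | IsClosed K ∧ K ⊆ S.Lv ∧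
    ∀ n k, k < 2^n → (K ∩ S.C n k).Nonempty}
  have hL : S.Lv ∈ 𝓢 := ⟨S.isClosed_Lv, Subset.rfl, S.Lv_nonempty⟩
  obtain ⟨K, hKL, hK⟩ := zorn_superset_nonempty 𝓢 (by
    intro c hc hchain hne
    refine ⟨⋂₀ c, ⟨isClosed_sInter (fun s hs => (hc hs).1), ?_, ?_⟩, fun s hs => sInter_subset_of_mem hs⟩
    · obtain ⟨s, hs⟩ := hne
      exact (sInter_subset_of_mem hs).trans (hc hs).2.1
    · intro n k hk
      have : Nonempty c := hne.to_subtype
      have h := IsCompact.nonempty_iInter_of_directed_nonempty_isCompact_isClosed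
        (fun s : c => s.1 ∩ S.C n k) (by
          intro s t
          rcases hchain.total s.2 t.2 with h | h
          · exact ⟨s, Subset.rfl, inter_subset_inter_left _ h⟩
          · exact ⟨t, inter_subset_inter_left _ h, Subset.rfl⟩)
        (fun s => (hc s.2).2.2 n k hk)
        (fun s => (S.compact n k).inter_left (hc s.2).1)
        (fun s => (hc s.2).1.inter (S.closed n k))
      obtain ⟨F, hF⟩ := h
      rw [mem_iInter] at hF
      refine ⟨F, ?_, ?_⟩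
      · rw [mem_sInter]
        exact fun s hs => (hF ⟨s, hs⟩).1
      · obtain ⟨s, hs⟩ := hne
        exact (hF ⟨s, hs⟩).2) S.Lv hL
  refine ⟨K, hK.prop.1, hKL, hK.prop.2.2, ?_⟩
  intro T hT hKT
  by_contra hcon
  push Not at hcon
  have hmem : K ∩ T ∈ 𝓢 := by
    refine ⟨hK.prop.1.inter hT, inter_subset_left.trans hKL, ?_⟩
    intro n k hk
    obtain ⟨F, hF, hFT⟩ := not_subset.1 (hcon n k hk)
    rw [mem_compl_iff, not_not] at hFT
    exact ⟨F, ⟨hF.1, hFT⟩, hF.2⟩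
  obtain ⟨F, hF, hFT⟩ := hKT
  exact hFT (hK.le_of_le hmem inter_subset_left hF).2

/-- parity bit of a functional at level `n` -/
def bit (n : ℕ) (F : WeakDual ℝ X) : Prop := ∃ k, k < 2^n ∧ Odd k ∧ F ∈ S.C n k

open Classical in
/-- indicator of the parity bit -/
noncomputable def ind (n : ℕ) (F : WeakDual ℝ X) : ℝ := if S.bit n F then 1 else 0

lemma ind_nonneg (n : ℕ) (F : WeakDual ℝ X) : 0 ≤ S.ind n F := by
  unfold ind; split_ifs <;> norm_num

lemma ind_le (n : ℕ) (F : WeakDual ℝ X) : S.ind n F ≤ 1 := by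
  unfold ind; split_ifs <;> norm_num

/-- the nowhere locally constant function -/
noncomputable def c (F : WeakDual ℝ X) : ℝ := ∑' n, 1/64 * (1/3 : ℝ)^n * S.ind n F

lemma summable_geo : Summable (fun n : ℕ => 1/64 * (1/3 : ℝ)^n) :=
  (summable_geometric_of_lt_one (by norm_num) (by norm_num)).mul_left _

lemma tsum_geo : ∑' n : ℕ, 1/64 * (1/3 : ℝ)^n = 3/128 := by
  rw [tsum_mul_left, tsum_geometric_of_lt_one (by norm_num) (by norm_num)]
  norm_num

lemma term_nonneg (n : ℕ) (F : WeakDual ℝ X) : 0 ≤ 1/64 * (1/3 : ℝ)^n * S.ind n F :=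
  mul_nonneg (by positivity) (S.ind_nonneg n F)

lemma term_le (n : ℕ) (F : WeakDual ℝ X) : 1/64 * (1/3 : ℝ)^n * S.ind n F ≤ 1/64 * (1/3 : ℝ)^n :=
  mul_le_of_le_one_right (by positivity) (S.ind_le n F)

lemma summable_c (F : WeakDual ℝ X) : Summable (fun n => 1/64 * (1/3 : ℝ)^n * S.ind n F) :=
  Summable.of_nonneg_of_le (fun n => S.term_nonneg n F) (fun n => S.term_le n F) summable_geo

lemma c_nonneg (F : WeakDual ℝ X) : 0 ≤ S.c F := tsum_nonneg (fun n => S.term_nonneg n F)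

lemma c_le (F : WeakDual ℝ X) : S.c F ≤ 1/32 := by
  have := (S.summable_c F).tsum_le_tsum (fun n => S.term_le n F) summable_geo
  rw [tsum_geo] at this
  unfold c
  linarith

lemma disj {n k l : ℕ} (hk : k < 2^n) (hl : l < 2^n) (hkl : l ≠ k) {F : WeakDual ℝ X}
    (h1 : F ∈ S.C n k) (h2 : F ∈ S.C n l) : False := by
  have h3 := S.big n k hk F h1
  have h4 := S.small n k l hk hl hkl F h2
  rw [abs_le] at h4
  linarith [h4.2]

lemma isClosed_union (n : ℕ) (s : Finset ℕ) : IsClosed (⋃ k ∈ s, S.C n k) :=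
  isClosed_biUnion_finset (fun k _ => S.closed n k)

lemma continuousOn_ind (n : ℕ) : ContinuousOn (S.ind n) S.Lv := by
  classical
  intro F hF
  by_cases hb : S.bit n F
  · let T := ⋃ k ∈ (Finset.range (2^n)).filter (fun k => ¬ Odd k), S.C n k
    have hT : IsClosed T := S.isClosed_union n _
    have hFT : F ∉ T := by
      intro h
      simp only [T, mem_iUnion, Finset.mem_filter, Finset.mem_range] at h
      obtain ⟨k, ⟨hk, hodd⟩, hFk⟩ := h
      obtain ⟨l, hl, hlo, hFl⟩ := hb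
      refine S.disj hk hl ?_ hFk hFl
      rintro rfl
      exact hodd hlo
    apply (continuousWithinAt_const (b := (1:ℝ))).congr_of_eventuallyEq
    · filter_upwards [inter_mem_nhdsWithin S.Lv (hT.isOpen_compl.mem_nhds hFT)] with G hG
      obtain ⟨k, hk, hGk⟩ := S.mem_Lv.1 hG.1 n
      have : S.bit n G := by
        refine ⟨k, hk, ?_, hGk⟩
        by_contra hodd
        apply hG.2
        simp only [T, mem_iUnion, Finset.mem_filter, Finset.mem_range]
        exact ⟨k, ⟨hk, hodd⟩, hGk⟩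
      simp [ind, this]
    · simp [ind, hb]
  · let T := ⋃ k ∈ (Finset.range (2^n)).filter (fun k => Odd k), S.C n k
    have hT : IsClosed T := S.isClosed_union n _
    have hiff : ∀ G, G ∈ T ↔ S.bit n G := by
      intro G
      simp only [T, mem_iUnion, Finset.mem_filter, Finset.mem_range, bit]
      constructor
      · rintro ⟨k, ⟨hk, hodd⟩, hGk⟩
        exact ⟨k, hk, hodd, hGk⟩
      · rintro ⟨k, hk, hodd, hGk⟩
        exact ⟨k, ⟨hk, hodd⟩, hGk⟩
    have hFT : F ∉ T := fun h => hb ((hiff F).1 h)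
    apply (continuousWithinAt_const (b := (0:ℝ))).congr_of_eventuallyEq
    · filter_upwards [inter_mem_nhdsWithin S.Lv (hT.isOpen_compl.mem_nhds hFT)] with G hG
      have : ¬ S.bit n G := fun h => hG.2 ((hiff G).2 h)
      simp [ind, this]
    · simp [ind, hb]

lemma continuousOn_c : ContinuousOn S.c S.Lv := by
  unfold c
  apply continuousOn_tsum (u := fun n : ℕ => 1/64 * (1/3 : ℝ)^n)
  · intro n
    exact continuousOn_const.mul (S.continuousOn_ind n)
  · exact summable_geo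
  · intro n F _
    rw [Real.norm_eq_abs, abs_of_nonneg (S.term_nonneg n F)]
    exact S.term_le n F

lemma ind_eq {n k m : ℕ} (hk : k < 2^n) (hm : m ≤ n) {F G : WeakDual ℝ X}
    (hF : F ∈ S.C n k) (hG : G ∈ S.C n k) : S.ind m F = S.ind m G := by
  obtain ⟨j, rfl⟩ := Nat.exists_eq_add_of_le hm
  have hF' := S.anc m j k hF
  have hG' := S.anc m j k hG
  have hlt : k / 2^j < 2^m := by
    rw [Nat.div_lt_iff_lt_mul (by positivity), ← pow_add]
    exact hk
  have key : ∀ {F G : WeakDual ℝ X}, F ∈ S.C m (k/2^j) → G ∈ S.C m (k/2^j) →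
      S.bit m F → S.bit m G := by
    rintro F G hF hG ⟨l, hl, hlo, hFl⟩
    refine ⟨k/2^j, hlt, ?_, hG⟩
    by_contra hodd
    refine S.disj hlt hl ?_ hF hFl
    rintro rfl
    exact hodd hlo
  by_cases hb : S.bit m F
  · have hb' := key hF' hG' hb
    simp [ind, hb, hb']
  · have hb' : ¬ S.bit m G := fun h => hb (key hG' hF' h)
    simp [ind, hb, hb']

lemma c_lt {n k : ℕ} (hk : k < 2^n) {F G : WeakDual ℝ X}
    (hF : F ∈ S.C (n+1) (2*k)) (hG : G ∈ S.C (n+1) (2*k+1)) : S.c F < S.c G := by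
  have hk1 : 2*k < 2^(n+1) := by rw [pow_succ]; omega
  have hk2 : 2*k+1 < 2^(n+1) := by rw [pow_succ]; omega
  have hF0 : F ∈ S.C n k := by
    have := S.sub n (2*k) hF
    simpa using this
  have hG0 : G ∈ S.C n k := by
    have := S.sub n (2*k+1) hG
    have h2 : (2*k+1)/2 = k := by omega
    rwa [h2] at this
  have hFi : S.ind (n+1) F = 0 := by
    unfold ind
    rw [if_neg]
    rintro ⟨l, hl, hlo, hFl⟩
    refine S.disj hk1 hl ?_ hF hFl
    rintro rfl
    exact (Nat.not_odd_iff_even.2 (even_two_mul k)) hlo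
  have hGi : S.ind (n+1) G = 1 := by
    unfold ind
    rw [if_pos]
    exact ⟨2*k+1, hk2, odd_two_mul_add_one k, hG⟩
  have hsF := S.summable_c F
  have hsG := S.summable_c G
  have hs := hsG.sub hsF
  have h1 : S.c G - S.c F = ∑' m, (1/64 * (1/3 : ℝ)^m * S.ind m G - 1/64 * (1/3 : ℝ)^m * S.ind m F) :=
    (hsG.tsum_sub hsF).symm
  have h2 := hs.sum_add_tsum_nat_add (n+2)
  rw [← h1, Finset.sum_range_succ, Finset.sum_range_succ] at h2
  have h3 : ∑ m ∈ Finset.range n, (1/64 * (1/3 : ℝ)^m * S.ind m G - 1/64 * (1/3 : ℝ)^m * S.ind m F) = 0 := by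
    apply Finset.sum_eq_zero
    intro m hm
    rw [S.ind_eq hk (Finset.mem_range.1 hm).le hF0 hG0]
    ring
  rw [h3, S.ind_eq hk le_rfl hF0 hG0, hFi, hGi] at h2
  have h4 : -(∑' m : ℕ, 1/64 * (1/3 : ℝ)^(m+(n+2))) ≤ ∑' m : ℕ, (1/64 * (1/3 : ℝ)^(m+(n+2)) *
      S.ind (m+(n+2)) G - 1/64 * (1/3 : ℝ)^(m+(n+2)) * S.ind (m+(n+2)) F) := by
    rw [← tsum_neg]
    apply Summable.tsum_le_tsum _ ((summable_nat_add_iff (n+2)).2 summable_geo).neg
      ((summable_nat_add_iff (n+2)).2 hs)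
    intro m
    have h5 := S.term_nonneg (m+(n+2)) G
    have h6 := S.term_le (m+(n+2)) F
    linarith
  have h7 : ∑' m : ℕ, 1/64 * (1/3 : ℝ)^(m+(n+2)) = 1/64 * ((1/3:ℝ)^(n+1) * (1/2)) := by
    have : ∀ m : ℕ, 1/64 * (1/3 : ℝ)^(m+(n+2)) = (1/64 * (1/3:ℝ)^(n+2)) * (1/3)^m := by
      intro m; rw [pow_add]; ring
    simp_rw [this]
    rw [tsum_mul_left, tsum_geometric_of_lt_one (by norm_num) (by norm_num)]
    rw [pow_succ (1/3:ℝ) (n+1)]
    norm_num
    ring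
  rw [h7] at h4
  have h8 : (0:ℝ) < (1/3)^(n+1) := by positivity
  nlinarith

/-- strong failure of subdifferentiability -/
def Bad (p : X → ℝ) (x : X) : Prop :=
  ∃ ε : ℝ, 0 < ε ∧ ∀ δ : ℝ, 0 < δ → ∃ h : X, ‖h‖ ≤ 1 ∧ ∃ s t : ℝ, 0 < s ∧ s ≤ t ∧ t < δ ∧
    ε ≤ (p (x + t • h) - p x) / t - (p (x + s • h) - p x) / s

lemma Bad.not_ssd {p : X → ℝ} {x : X} (hb : Bad p x) :
    ¬ ∃ D : X → ℝ, ∀ ε : ℝ, 0 < ε → ∃ δ : ℝ, 0 < δ ∧
      ∀ h : X, ‖h‖ ≤ 1 → ∀ t : ℝ, 0 < t → t < δ →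
        |(p (x + t • h) - p x) / t - D h| < ε := by
  rintro ⟨D, hD⟩
  obtain ⟨ε, hε, hb⟩ := hb
  obtain ⟨δ, hδ, hD⟩ := hD (ε/2) (by linarith)
  obtain ⟨h, hh, s, t, hs, hst, ht, hle⟩ := hb δ hδ
  have h1 := hD h hh t (by linarith) ht
  have h2 := hD h hh s hs (by linarith)
  rw [abs_lt] at h1 h2
  linarith [h1.2, h2.1]

lemma slope_mono (p : Seminorm ℝ X) (x h : X) {s t : ℝ} (hs : 0 < s) (hst : s ≤ t) :
    (p (x + s • h) - p x) / s ≤ (p (x + t • h) - p x) / t := by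
  have ht : 0 < t := lt_of_lt_of_le hs hst
  have h1 : x + s • h = (1 - s/t) • x + (s/t) • (x + t • h) := by
    rw [smul_add, smul_smul, div_mul_cancel₀ _ ht.ne', sub_smul, one_smul]
    abel
  have h2 : s/t ≤ 1 := (div_le_one ht).2 hst
  have h3 : 0 < s/t := div_pos hs ht
  have h4 : p (x + s • h) ≤ (1 - s/t) * p x + (s/t) * p (x + t • h) := by
    rw [h1]
    refine (map_add_le_add p _ _).trans ?_
    rw [map_smul_eq_mul, map_smul_eq_mul, Real.norm_eq_abs, Real.norm_eq_abs,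
      abs_of_nonneg (by linarith : 0 ≤ 1 - s/t), abs_of_pos h3]
  rw [div_le_div_iff₀ hs ht]
  have h5 : (s/t) * t = s := div_mul_cancel₀ _ ht.ne'
  have h6 : p (x + s • h) * t ≤ ((1 - s/t) * p x + (s/t) * p (x + t • h)) * t :=
    mul_le_mul_of_nonneg_right h4 ht.le
  have h7 : ((1 - s/t) * p x + (s/t) * p (x + t • h)) * t = (t - s) * p x + s * p (x + t • h) := by
    have : ((1 - s/t) * p x + (s/t) * p (x + t • h)) * t
        = (t - (s/t)*t) * p x + ((s/t) * t) * p (x + t • h) := by ring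
    rw [this, h5]
  rw [h7] at h6
  nlinarith

lemma exists_sum {ι : Type*} (w : ι → ℝ) (hw : ∀ i, 0 ≤ w i) (hws : Summable w)
    (Q : ι → Seminorm ℝ X) (M : ℝ) (hQ : ∀ i x, Q i x ≤ M * ‖x‖) :
    ∃ N : Seminorm ℝ X, ∀ x, N x = ‖x‖ + ∑' i, w i * Q i x := by
  have hsum : ∀ x, Summable (fun i => w i * Q i x) := by
    intro x
    apply Summable.of_nonneg_of_le (fun i => mul_nonneg (hw i) (apply_nonneg _ _))
      (fun i => mul_le_mul_of_nonneg_left (hQ i x) (hw i))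
    exact hws.mul_right _
  refine ⟨Seminorm.of (fun x => ‖x‖ + ∑' i, w i * Q i x) ?_ ?_, fun x => rfl⟩
  · intro x y
    have h1 : ∑' i, w i * Q i (x + y) ≤ ∑' i, w i * Q i x + ∑' i, w i * Q i y := by
      rw [← (hsum x).tsum_add (hsum y)]
      apply (hsum (x+y)).tsum_le_tsum _ ((hsum x).add (hsum y))
      intro i
      rw [← mul_add]
      exact mul_le_mul_of_nonneg_left (map_add_le_add _ _ _) (hw i)
    have h2 := norm_add_le x y
    linarith
  · intro a x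
    rw [norm_smul, mul_add, ← tsum_mul_left]
    congr 1
    apply tsum_congr
    intro i
    rw [map_smul_eq_mul]
    ring

lemma combine {ι : Type*} [Countable ι] (Q : ι → Seminorm ℝ X) (M : ℝ) (hM : 0 ≤ M)
    (hQ : ∀ i x, Q i x ≤ M * ‖x‖) :
    ∃ N : Seminorm ℝ X, (∃ a b : ℝ, 0 < a ∧ 0 < b ∧ ∀ x : X, a * ‖x‖ ≤ N x ∧ N x ≤ b * ‖x‖) ∧
      ∀ x, (∃ i, Bad (Q i) x) → Bad N x := by
  classical
  cases nonempty_encodable ι
  obtain ⟨w, hw, c, hc, hc1⟩ := posSumOfEncodable (ε := 1) one_pos ι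
  have hws : Summable w := hc.summable
  obtain ⟨N, hN⟩ := exists_sum w (fun i => (hw i).le) hws Q M hQ
  have hsum : ∀ x, Summable (fun i => w i * Q i x) := by
    intro x
    apply Summable.of_nonneg_of_le (fun i => mul_nonneg (hw i).le (apply_nonneg _ _))
      (fun i => mul_le_mul_of_nonneg_left (hQ i x) (hw i).le)
    exact hws.mul_right _
  refine ⟨N, ⟨1, 1 + M, one_pos, by linarith, ?_⟩, ?_⟩
  · intro x
    rw [hN]
    constructor
    · have : 0 ≤ ∑' i, w i * Q i x := tsum_nonneg (fun i => mul_nonneg (hw i).le (apply_nonneg _ _))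
      linarith
    · have h1 : ∑' i, w i * Q i x ≤ ∑' i, w i * (M * ‖x‖) :=
        (hsum x).tsum_le_tsum (fun i => mul_le_mul_of_nonneg_left (hQ i x) (hw i).le)
          (hws.mul_right _)
      rw [tsum_mul_right, hc.tsum_eq] at h1
      have h2 : c * (M * ‖x‖) ≤ 1 * (M * ‖x‖) :=
        mul_le_mul_of_nonneg_right hc1 (mul_nonneg hM (norm_nonneg _))
      linarith
  · rintro x ⟨i, ε, hε, hb⟩
    -- remainder seminorm
    have hw' : ∀ j, 0 ≤ Function.update w i 0 j := by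
      intro j
      by_cases hj : j = i
      · subst hj; simp
      · rw [Function.update_of_ne hj]; exact (hw j).le
    have hws' : Summable (Function.update w i 0) := hws.update i 0
    obtain ⟨R, hR⟩ := exists_sum (Function.update w i 0) hw' hws' Q M hQ
    have hNR : ∀ z, N z = R z + w i * Q i z := by
      intro z
      rw [hN, hR, (hsum z).tsum_eq_add_tsum_ite i]
      have : ∀ j, (if j = i then 0 else w j * Q j z) = Function.update w i 0 j * Q j z := by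
        intro j
        by_cases hj : j = i
        · subst hj; simp
        · rw [if_neg hj, Function.update_of_ne hj]
      simp_rw [this]
      ring
    refine ⟨w i * ε, mul_pos (hw i) hε, ?_⟩
    intro δ hδ
    obtain ⟨h, hh, s, t, hs, hst, ht, hle⟩ := hb δ hδ
    refine ⟨h, hh, s, t, hs, hst, ht, ?_⟩
    have h1 := slope_mono R x h hs hst
    rw [hNR, hNR, hNR]
    have h2 : ∀ r : ℝ, r ≠ 0 → (R (x + r • h) + w i * Q i (x + r • h) - (R x + w i * Q i x)) / r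
        = (R (x + r • h) - R x)/r + w i * ((Q i (x + r • h) - Q i x) / r) := by
      intro r hr
      field_simp
      ring
    rw [h2 t (by linarith), h2 s hs.ne']
    have h3 := mul_le_mul_of_nonneg_left hle (hw i).le
    linarith

section Main

variable {K : Set (WeakDual ℝ X)} (hKcl : IsClosed K) (hKL : K ⊆ S.Lv)
  (hKne : ∀ n k, k < 2^n → (K ∩ S.C n k).Nonempty)
  (hKmin : ∀ T : Set (WeakDual ℝ X), IsClosed T → (K \ T).Nonempty →
      ∃ n k, k < 2^n ∧ K ∩ S.C n k ⊆ Tᶜ)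

/-- the basic functional seminorms -/
noncomputable def vv (j : ℝ) (F : WeakDual ℝ X) (x : X) : ℝ := |F x| + j * S.c F * ‖x‖

lemma vv_continuousOn (hKL : K ⊆ S.Lv) (j : ℝ) (x : X) :
    ContinuousOn (fun F => S.vv j F x) K := by
  unfold vv
  apply ContinuousOn.add
  · exact (WeakDual.eval_continuous x).abs.continuousOn
  · exact (continuousOn_const.mul (S.continuousOn_c.mono hKL)).mul continuousOn_const

lemma mem_ball {F : WeakDual ℝ X} (hF : F ∈ S.Lv) (x : X) : |F x| ≤ ‖x‖ := by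
  obtain ⟨k, -, hk⟩ := S.mem_Lv.1 hF 0
  exact S.ball 0 k F hk x

lemma vv_le (hKL : K ⊆ S.Lv) {j : ℝ} (hj0 : 0 ≤ j) (hj1 : j ≤ 1) {F : WeakDual ℝ X} (hF : F ∈ K)
    (x : X) : S.vv j F x ≤ 2 * ‖x‖ := by
  unfold vv
  have h1 := S.mem_ball (hKL hF) x
  have h2 := S.c_nonneg F
  have h3 := S.c_le F
  have h4 : j * S.c F ≤ 1 := by nlinarith
  have h5 : j * S.c F * ‖x‖ ≤ 1 * ‖x‖ := mul_le_mul_of_nonneg_right h4 (norm_nonneg _)
  linarith

lemma vv_diff {j : ℝ} (hj0 : 0 ≤ j) (hj1 : j ≤ 1) (F : WeakDual ℝ X) (x h : X) (hh : ‖h‖ ≤ 1)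
    {s : ℝ} (hs : 0 ≤ s) : |j * S.c F * ‖x + s • h‖ - j * S.c F * ‖x‖| ≤ s * (1/32) := by
  rw [← mul_sub, abs_mul]
  have h1 : |‖x + s • h‖ - ‖x‖| ≤ s := by
    refine (abs_norm_sub_norm_le _ _).trans ?_
    rw [add_sub_cancel_left, norm_smul, Real.norm_eq_abs, abs_of_nonneg hs]
    nlinarith
  have h2 : |j * S.c F| ≤ 1/32 := by
    have h3 := S.c_nonneg F
    have h4 := S.c_le F
    rw [abs_of_nonneg (by positivity)]
    nlinarith
  calc |j * S.c F| * |‖x + s • h‖ - ‖x‖| ≤ (1/32) * s := by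
        apply mul_le_mul h2 h1 (abs_nonneg _) (by norm_num)
    _ = s * (1/32) := by ring

lemma exists_q (hKL : K ⊆ S.Lv) (hKne : ∀ n k, k < 2^n → (K ∩ S.C n k).Nonempty)
    (n k : ℕ) (hk : k < 2^n) {j : ℝ} (hj0 : 0 ≤ j) (hj1 : j ≤ 1) :
    ∃ q : Seminorm ℝ X, (∀ x, q x ≤ 2 * ‖x‖) ∧
      ∀ x, IsLUB ((fun F => S.vv j F x) '' (K ∩ S.C n k)) (q x) := by
  have hne := hKne n k hk
  have hbdd : ∀ x, BddAbove ((fun F => S.vv j F x) '' (K ∩ S.C n k)) := by
    intro x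
    refine ⟨2 * ‖x‖, ?_⟩
    rintro _ ⟨F, hF, rfl⟩
    exact S.vv_le hKL hj0 hj1 hF.1 x
  have hlub : ∀ x, IsLUB ((fun F => S.vv j F x) '' (K ∩ S.C n k))
      (sSup ((fun F => S.vv j F x) '' (K ∩ S.C n k))) := fun x =>
    isLUB_csSup (hne.image _) (hbdd x)
  refine ⟨Seminorm.of (fun x => sSup ((fun F => S.vv j F x) '' (K ∩ S.C n k))) ?_ ?_, ?_, hlub⟩
  · intro x y
    apply csSup_le (hne.image _)
    rintro _ ⟨F, hF, rfl⟩
    have h1 := (hlub x).1 ⟨F, hF, rfl⟩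
    have h2 := (hlub y).1 ⟨F, hF, rfl⟩
    refine le_trans ?_ (add_le_add h1 h2)
    change S.vv j F (x + y) ≤ S.vv j F x + S.vv j F y
    unfold vv
    have h3 : |F (x + y)| ≤ |F x| + |F y| := by
      rw [map_add]; exact abs_add_le _ _
    have h4 : j * S.c F * ‖x + y‖ ≤ j * S.c F * (‖x‖ + ‖y‖) :=
      mul_le_mul_of_nonneg_left (norm_add_le _ _) (mul_nonneg hj0 (S.c_nonneg F))
    linarith
  · intro a x
    have h1 : (fun F => S.vv j F (a • x)) = fun F => ‖a‖ * S.vv j F x := by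
      funext F
      unfold vv
      rw [map_smul, smul_eq_mul, abs_mul, norm_smul, Real.norm_eq_abs]
      ring
    rw [h1]
    have h2 : (fun F => ‖a‖ * S.vv j F x) '' (K ∩ S.C n k)
        = ‖a‖ • ((fun F => S.vv j F x) '' (K ∩ S.C n k)) := by
      ext r
      simp only [mem_image, mem_smul_set, smul_eq_mul]
      constructor
      · rintro ⟨F, hF, rfl⟩
        exact ⟨_, ⟨F, hF, rfl⟩, rfl⟩
      · rintro ⟨_, ⟨F, hF, rfl⟩, rfl⟩
        exact ⟨F, hF, rfl⟩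
    rw [h2, Real.sSup_smul_of_nonneg (norm_nonneg _), smul_eq_mul]
  · intro x
    apply csSup_le (hne.image _)
    rintro _ ⟨F, hF, rfl⟩
    exact S.vv_le hKL hj0 hj1 hF.1 x

include hKcl hKL hKne hKmin in
lemma key (n k : ℕ) (hk : k < 2^n) {j : ℝ} (hj0 : 0 ≤ j) (hj1 : j ≤ 1) (q : Seminorm ℝ X)
    (hq : ∀ x, IsLUB ((fun F => S.vv j F x) '' (K ∩ S.C n k)) (q x)) (x : X) :
    (∃ n' k', k' < 2^n' ∧ K ∩ S.C n' k' ⊆ K ∩ S.C n k ∧ ∀ F ∈ K ∩ S.C n' k', S.vv j F x = q x) ∨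
      Bad q x := by
  by_cases hcase : ∃ n' k', k' < 2^n' ∧ K ∩ S.C n' k' ⊆ K ∩ S.C n k ∧
      ∀ F ∈ K ∩ S.C n' k', S.vv j F x = q x
  · exact Or.inl hcase
  right
  push Not at hcase
  refine ⟨1/8, by norm_num, ?_⟩
  intro δ hδ
  -- choose t
  set t := δ/2 with ht
  have htpos : 0 < t := by positivity
  -- first refinement
  let E : Set (WeakDual ℝ X) := ⋃ l ∈ (Finset.range (2^n)).filter (fun l => l ≠ k), S.C n l
  have hE : IsClosed E := S.isClosed_union n _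
  let T1 : Set (WeakDual ℝ X) := (K ∩ (fun F => S.vv j F x) ⁻¹' (Iic (q x - t/16))) ∪ E
  have hT1 : IsClosed T1 :=
    ((S.vv_continuousOn hKL j x).preimage_isClosed_of_isClosed hKcl isClosed_Iic).union hE
  have hne1 : (K \ T1).Nonempty := by
    obtain ⟨_, ⟨F, hF, rfl⟩, hFq⟩ := (lt_isLUB_iff (hq x)).1 (show q x - t/16 < q x by linarith)
    refine ⟨F, hF.1, ?_⟩
    rintro (⟨-, h⟩ | h)
    · exact absurd hFq (not_lt.2 h)
    · simp only [E, mem_iUnion, Finset.mem_filter, Finset.mem_range] at h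
      obtain ⟨l, ⟨hl, hlk⟩, hFl⟩ := h
      exact S.disj hk hl hlk hF.2 hFl
  obtain ⟨n1, k1, hk1, hsub1⟩ := hKmin T1 hT1 hne1
  have hin1 : ∀ F ∈ K ∩ S.C n1 k1, F ∈ S.C n k ∧ q x - t/16 < S.vv j F x := by
    intro F hF
    have hF1 := hsub1 hF
    constructor
    · obtain ⟨l, hl, hFl⟩ := S.mem_Lv.1 (hKL hF.1) n
      by_cases hlk : l = k
      · rwa [hlk] at hFl
      · exfalso
        apply hF1
        right
        simp only [E, mem_iUnion, Finset.mem_filter, Finset.mem_range]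
        exact ⟨l, ⟨hl, hlk⟩, hFl⟩
    · by_contra hcon
      exact hF1 (Or.inl ⟨hF.1, not_lt.1 hcon⟩)
  obtain ⟨F0, hF0, hF0q⟩ := hcase n1 k1 hk1 (fun F hF => ⟨hF.1, (hin1 F hF).1⟩)
  have hF0lt : S.vv j F0 x < q x :=
    lt_of_le_of_ne ((hq x).1 ⟨F0, ⟨hF0.1, (hin1 F0 hF0).1⟩, rfl⟩) hF0q
  -- second refinement
  set q' := (S.vv j F0 x + q x)/2 with hq'
  have hq'1 : S.vv j F0 x < q' := by rw [hq']; linarith
  have hq'2 : q' < q x := by rw [hq']; linarith
  let E1 : Set (WeakDual ℝ X) := ⋃ l ∈ (Finset.range (2^n1)).filter (fun l => l ≠ k1), S.C n1 l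
  have hE1 : IsClosed E1 := S.isClosed_union n1 _
  let T2 : Set (WeakDual ℝ X) := (K ∩ (fun F => S.vv j F x) ⁻¹' (Ici q')) ∪ E1
  have hT2 : IsClosed T2 :=
    ((S.vv_continuousOn hKL j x).preimage_isClosed_of_isClosed hKcl isClosed_Ici).union hE1
  have hne2 : (K \ T2).Nonempty := by
    refine ⟨F0, hF0.1, ?_⟩
    rintro (⟨-, h⟩ | h)
    · exact absurd hq'1 (not_lt.2 h)
    · simp only [E1, mem_iUnion, Finset.mem_filter, Finset.mem_range] at h
      obtain ⟨l, ⟨hl, hlk⟩, hFl⟩ := h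
      exact S.disj hk1 hl hlk hF0.2 hFl
  obtain ⟨n2, k2, hk2, hsub2⟩ := hKmin T2 hT2 hne2
  have hin2 : ∀ F ∈ K ∩ S.C n2 k2, F ∈ S.C n1 k1 ∧ S.vv j F x < q' := by
    intro F hF
    have hF1 := hsub2 hF
    constructor
    · obtain ⟨l, hl, hFl⟩ := S.mem_Lv.1 (hKL hF.1) n1
      by_cases hlk : l = k1
      · rwa [hlk] at hFl
      · exfalso
        apply hF1
        right
        simp only [E1, mem_iUnion, Finset.mem_filter, Finset.mem_range]
        exact ⟨l, ⟨hl, hlk⟩, hFl⟩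
    · by_contra hcon
      exact hF1 (Or.inl ⟨hF.1, not_lt.1 hcon⟩)
  obtain ⟨F1, hF1⟩ := hKne n2 k2 hk2
  have hF1n1 := (hin2 F1 hF1).1
  have hF1n := hin1 F1 ⟨hF1.1, hF1n1⟩
  -- direction
  obtain ⟨σ, hσ, hσF⟩ : ∃ σ : ℝ, |σ| = 1 ∧ σ * F1 x = |F1 x| := by
    rcases le_total 0 (F1 x) with h | h
    · exact ⟨1, by simp, by rw [abs_of_nonneg h, one_mul]⟩
    · exact ⟨-1, by simp, by rw [abs_of_nonpos h]; ring⟩
  have hσσ : σ * σ = 1 := by
    rw [← abs_mul_abs_self σ, hσ]; norm_num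
  set h := σ • S.u n2 k2 with hh
  have hnorm : ‖h‖ ≤ 1 := by
    rw [hh, norm_smul, Real.norm_eq_abs, hσ, one_mul]
    exact S.u_norm n2 k2 hk2
  set s := min t ((q x - q')/2) with hs
  have hspos : 0 < s := lt_min htpos (by linarith)
  have hst : s ≤ t := min_le_left _ _
  have hsq : s ≤ (q x - q')/2 := min_le_right _ _
  refine ⟨h, hnorm, s, t, hspos, hst, by rw [ht]; linarith, ?_⟩
  -- upper bound at s
  have hup : q (x + s • h) ≤ q x + s * (5/32) := by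
    apply (hq (x + s • h)).2
    rintro _ ⟨F, hF, rfl⟩
    change S.vv j F (x + s • h) ≤ _
    have hvx : S.vv j F x ≤ q x := (hq x).1 ⟨F, hF, rfl⟩
    have hd := S.vv_diff hj0 hj1 F x h hnorm hspos.le
    rw [abs_le] at hd
    have hFabs : |F (x + s • h)| ≤ |F x| + s * |F h| := by
      rw [map_add, map_smul, smul_eq_mul]
      refine (abs_add_le _ _).trans ?_
      rw [abs_mul, abs_of_pos hspos]
    obtain ⟨l, hl, hFl⟩ := S.mem_Lv.1 (hKL hF.1) n2
    by_cases hlk : l = k2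
    · rw [hlk] at hFl
      have h1 := (hin2 F ⟨hF.1, hFl⟩).2
      have h2 : |F h| ≤ 1 := (S.mem_ball (hKL hF.1) h).trans hnorm
      have h3 : s * |F h| ≤ s := by nlinarith
      unfold vv at *
      nlinarith [hd.2]
    · have h2 : |F h| ≤ 1/8 := by
        rw [hh, map_smul, smul_eq_mul, abs_mul, hσ, one_mul]
        exact S.small n2 k2 l hk2 hl hlk F hFl
      have h3 : s * |F h| ≤ s * (1/8) := mul_le_mul_of_nonneg_left h2 hspos.le
      unfold vv at *
      linarith [hd.2]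
  -- lower bound at t
  have hlow : q x + t * (9/32) ≤ q (x + t • h) := by
    have h1 : S.vv j F1 (x + t • h) ≤ q (x + t • h) :=
      (hq (x + t • h)).1 ⟨F1, ⟨hF1.1, hF1n.1⟩, rfl⟩
    have hd := S.vv_diff hj0 hj1 F1 x h hnorm htpos.le
    rw [abs_le] at hd
    have h2 := S.big n2 k2 hk2 F1 hF1.2
    have h3 : |F1 x| + t * (3/8) ≤ |F1 (x + t • h)| := by
      have h4 : σ * F1 (x + t • h) = |F1 x| + t * F1 (S.u n2 k2) := by
        rw [map_add, map_smul, hh, map_smul, smul_eq_mul, smul_eq_mul, mul_add, hσF]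
        have : σ * (t * (σ * F1 (S.u n2 k2))) = (σ * σ) * (t * F1 (S.u n2 k2)) := by ring
        rw [this, hσσ, one_mul]
      have h5 : σ * F1 (x + t • h) ≤ |F1 (x + t • h)| := by
        refine (le_abs_self _).trans ?_
        rw [abs_mul, hσ, one_mul]
      have h6 : t * (3/8) ≤ t * F1 (S.u n2 k2) := mul_le_mul_of_nonneg_left h2 htpos.le
      linarith
    have h7 := hF1n.2
    unfold vv at *
    linarith [hd.1]
  have e1 : (q (x + s • h) - q x)/s ≤ 5/32 := by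
    rw [div_le_iff₀ hspos]; linarith
  have e2 : 9/32 ≤ (q (x + t • h) - q x)/t := by
    rw [le_div_iff₀ htpos]; linarith
  linarith

end Main

include S in
/-- the abstract renorming theorem for a scheme -/
theorem renorm : ∃ N : Seminorm ℝ X,
    (∃ a b : ℝ, 0 < a ∧ 0 < b ∧ ∀ x : X, a * ‖x‖ ≤ N x ∧ N x ≤ b * ‖x‖) ∧
    ∀ x : X, x ≠ 0 → Bad N x := by
  classical
  obtain ⟨K, hKcl, hKL, hKne, hKmin⟩ := S.exists_K
  let ι := {p : ℕ × ℕ × Bool // p.2.1 < 2^p.1}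
  have hj0 : ∀ b : Bool, (0:ℝ) ≤ (if b then 1 else 0) := by intro b; cases b <;> norm_num
  have hj1 : ∀ b : Bool, (if b then (1:ℝ) else 0) ≤ 1 := by intro b; cases b <;> norm_num
  choose Q hQ1 hQ2 using fun p : ι => S.exists_q hKL hKne p.1.1 p.1.2.1 p.2
    (hj0 p.1.2.2) (hj1 p.1.2.2)
  obtain ⟨N, hN1, hN2⟩ := combine Q 2 (by norm_num) hQ1
  refine ⟨N, hN1, fun x hx => hN2 x ?_⟩
  by_contra hcon
  push Not at hcon
  have hxn : 0 < ‖x‖ := norm_pos_iff.2 hx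
  -- step one
  let p0 : ι := ⟨(0, 0, false), by norm_num⟩
  rcases S.key hKcl hKL hKne hKmin 0 0 (by norm_num) (hj0 false) (hj1 false) (Q p0) (hQ2 p0) x with
    ⟨n', k', hk', -, hconst⟩ | hbad
  swap
  · exact hcon p0 hbad
  let p1 : ι := ⟨(n', k', true), hk'⟩
  rcases S.key hKcl hKL hKne hKmin n' k' hk' (hj0 true) (hj1 true) (Q p1) (hQ2 p1) x with
    ⟨n2, k2, hk2, hsub, hconst2⟩ | hbad
  swap
  · exact hcon p1 hbad
  have hk1 : 2*k2 < 2^(n2+1) := by rw [pow_succ]; omega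
  have hk3 : 2*k2+1 < 2^(n2+1) := by rw [pow_succ]; omega
  obtain ⟨F, hFK, hF⟩ := hKne (n2+1) (2*k2) hk1
  obtain ⟨G, hGK, hG⟩ := hKne (n2+1) (2*k2+1) hk3
  have hF0 : F ∈ S.C n2 k2 := by
    have := S.sub n2 (2*k2) hF
    simpa using this
  have hG0 : G ∈ S.C n2 k2 := by
    have := S.sub n2 (2*k2+1) hG
    have h2 : (2*k2+1)/2 = k2 := by omega
    rwa [h2] at this
  have hlt := S.c_lt hk2 hF hG
  have h1 := hconst2 F ⟨hFK, hF0⟩
  have h2 := hconst2 G ⟨hGK, hG0⟩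
  have h3 := hconst F (hsub ⟨hFK, hF0⟩)
  have h4 := hconst G (hsub ⟨hGK, hG0⟩)
  simp only [vv, if_true, Bool.false_eq_true, if_false, zero_mul, add_zero, one_mul] at h1 h2 h3 h4
  have h5 : S.c F * ‖x‖ = S.c G * ‖x‖ := by linarith
  have h6 : S.c F = S.c G := mul_right_cancel₀ hxn.ne' h5
  linarith

end Scheme

end SchemeSection

section Build

variable {X : Type*} [NormedAddCommGroup X] [NormedSpace ℝ X]

/-- conditions at one node -/
def DD (u : ℕ → ℕ → X) (n k : ℕ) : Set (WeakDual ℝ X) :=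
  {F | (∀ x : X, |F x| ≤ ‖x‖) ∧ (k < 2^n → 3/8 ≤ F (u n k)) ∧
    ∀ l, l < 2^n → l ≠ k → |F (u n l)| ≤ 1/8}

lemma isClosed_DD (u : ℕ → ℕ → X) (n k : ℕ) : IsClosed (DD u n k) := by
  have h1 : DD u n k = (⋂ x : X, {F : WeakDual ℝ X | |F x| ≤ ‖x‖}) ∩
      ((⋂ _ : k < 2^n, {F : WeakDual ℝ X | 3/8 ≤ F (u n k)}) ∩
      ⋂ l, ⋂ _ : l < 2^n, ⋂ _ : l ≠ k, {F : WeakDual ℝ X | |F (u n l)| ≤ 1/8}) := by
    ext F
    simp [DD]
  rw [h1]
  refine (isClosed_iInter fun x => ?_).inter ((isClosed_iInter fun _ => ?_).inter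
    (isClosed_iInter fun l => isClosed_iInter fun _ => isClosed_iInter fun _ => ?_))
  · exact isClosed_le (WeakDual.eval_continuous x).abs continuous_const
  · exact isClosed_le continuous_const (WeakDual.eval_continuous _)
  · exact isClosed_le (WeakDual.eval_continuous _).abs continuous_const

/-- nodes of the scheme -/
def CC (u : ℕ → ℕ → X) : ℕ → ℕ → Set (WeakDual ℝ X)
  | 0, k => DD u 0 k
  | n+1, k => CC u n (k/2) ∩ DD u (n+1) k

lemma CC_sub_DD (u : ℕ → ℕ → X) (n k : ℕ) : CC u n k ⊆ DD u n k := by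
  cases n with
  | zero => exact Subset.rfl
  | succ n => exact inter_subset_right

lemma isClosed_CC (u : ℕ → ℕ → X) (n k : ℕ) : IsClosed (CC u n k) := by
  induction n generalizing k with
  | zero => exact isClosed_DD u 0 k
  | succ n ih => exact (ih (k/2)).inter (isClosed_DD u (n+1) k)

theorem exists_scheme (Y : Submodule ℝ X) [SeparableSpace Y]
    (h : ¬ SeparableSpace (Y →L[ℝ] ℝ)) : Nonempty (Scheme X) := by
  obtain ⟨A, y, hA, hsub, hy⟩ := exists_tree h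
  let u : ℕ → ℕ → X := fun n k => (y n k : X)
  have hmem : ∀ (n k : ℕ), k < 2^n → ∀ f ∈ A n k, ∀ F : WeakDual ℝ X,
      (∀ x : X, |F x| ≤ ‖x‖) → (∀ z : Y, F (z : X) = f z) → F ∈ CC u n k := by
    have hD : ∀ (n k : ℕ), k < 2^n → ∀ f ∈ A n k, ∀ F : WeakDual ℝ X,
      (∀ x : X, |F x| ≤ ‖x‖) → (∀ z : Y, F (z : X) = f z) → F ∈ DD u n k := by
      intro n k hk f hf F hF1 hF2
      refine ⟨hF1, fun _ => ?_, fun l hl hlk => ?_⟩
      · have := (hy n k hk).2.1 f hf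
        rwa [← hF2] at this
      · have := (hy n l hl).2.2 k hk (Ne.symm hlk) f hf
        rwa [← hF2] at this
    intro n
    induction n with
    | zero => exact hD 0
    | succ n ih =>
      intro k hk f hf F hF1 hF2
      refine ⟨ih (k/2) ?_ f (hsub n k hf) F hF1 hF2, hD (n+1) k hk f hf F hF1 hF2⟩
      rw [pow_succ] at hk
      omega
  refine ⟨{ C := CC u, u := u, closed := isClosed_CC u, ball := ?_, nonempty := ?_, sub := ?_,
            u_norm := ?_, big := ?_, small := ?_ }⟩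
  · intro n k F hF
    exact (CC_sub_DD u n k hF).1
  · intro n k hk
    obtain ⟨f, hf⟩ := (hA n k).1
    obtain ⟨F, hF1, hF2⟩ := exists_extension_norm_eq Y f
    have hfn : ‖f‖ ≤ 1 := by simpa using (hA n k).2 hf
    refine ⟨StrongDual.toWeakDual F, hmem n k hk f hf _ ?_ ?_⟩
    · intro x
      change |F x| ≤ ‖x‖
      have := F.le_opNorm x
      rw [hF2, Real.norm_eq_abs] at this
      nlinarith [norm_nonneg x]
    · intro z
      exact hF1 z
  · intro n k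
    exact inter_subset_left
  · intro n k hk
    exact (hy n k hk).1
  · intro n k hk F hF
    exact (CC_sub_DD u n k hF).2.1 hk
  · intro n k l hk hl hlk F hF
    exact (CC_sub_DD u n l hF).2.2 k hk (Ne.symm hlk)

end Build

end Aux

/-- Every nonseparable real Banach space with a separable subspace whose dual is nonseparable (i.e. non-Asplund) has an equivalent norm that is strongly subdifferentiable at no nonzero point. -/
theorem result :
    ∀ (X : Type) [NormedAddCommGroup X] [NormedSpace ℝ X] [CompleteSpace X],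
      ¬ TopologicalSpace.SeparableSpace X →
      (∃ Y : Submodule ℝ X, TopologicalSpace.SeparableSpace Y ∧
          ¬ TopologicalSpace.SeparableSpace (Y →L[ℝ] ℝ)) →
      ∃ N : Seminorm ℝ X,
        (∃ a b : ℝ, 0 < a ∧ 0 < b ∧ ∀ x : X, a * ‖x‖ ≤ N x ∧ N x ≤ b * ‖x‖) ∧
        ∀ x : X, x ≠ 0 →
          ¬ ∃ D : X → ℝ, ∀ ε : ℝ, 0 < ε → ∃ δ : ℝ, 0 < δ ∧
              ∀ h : X, ‖h‖ ≤ 1 → ∀ t : ℝ, 0 < t → t < δ →
                |(N (x + t • h) - N x) / t - D h| < ε := by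
  intro X _ _ _ _ hY
  obtain ⟨Y, hY1, hY2⟩ := hY
  obtain ⟨S⟩ := exists_scheme Y hY2
  obtain ⟨N, hN1, hN2⟩ := S.renorm
  exact ⟨N, hN1, fun x hx => (hN2 x hx).not_ssd⟩

end Pool.Agent.S04407
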