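import Pool.Statements.S04412

/-!
Bijective local isometries between Banach spaces (Mazur-Sternbach, Problem 155 of the Scottish Book).

We construct real Banach spaces `X`, `Y` and a bijection `U : X → Y` which preserves the distance of
any two points at distance at most one, but which is not an isometry.

`X` is `ℓ₁(J)` for an index set `J`, and `Y` is the space of all evaluations `h ↦ h x` (`x ∈ X`),
with the supremum norm, on a set `B` of `1`-Lipschitz functions `h` on `ℓ₁(I)` with `h 0 = 0`.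
The set `B` is cut out by constraints `h (R_γ e_γ) = lim (h (a n) + c h (b n))`,
one for each `γ ∈ J` other than the first index, chosen by transfinite recursion along a
well-order of type continuum so that the evaluations form a closed linear space.
-/

set_option autoImplicit false
set_option linter.unusedSectionVars false
open Pool Pool.MP_f4a1d1_an

namespace Pool.Agent.S04412

open Filter Topology Set

noncomputable section

/-- The space `ℓ₁(I)`. -/
abbrev E (I : Type) := lp (fun _ : I => ℝ) 1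

section basics

variable {I : Type}

lemma memlp_iff {f : I → ℝ} : Memℓp f 1 ↔ Summable fun i => |f i| := by
  rw [memℓp_gen_iff (by norm_num)]
  simp

lemma summ (x : E I) : Summable fun i => |x i| := memlp_iff.1 x.2

lemma norm_eq (x : E I) : ‖x‖ = ∑' i, |x i| := by
  rw [lp.norm_eq_tsum_rpow (by norm_num)]
  simp

lemma sub_app (x y : E I) (i : I) : (x - y) i = x i - y i := rfl

lemma dist_eq' (x y : E I) : ‖x - y‖ = ∑' i, |x i - y i| := by
  rw [norm_eq]
  rfl

lemma summ_sub (x y : E I) : Summable fun i => |x i - y i| := summ (x - y)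

/-- Restriction of a vector to a set of coordinates. -/
def pr (M : Set I) (x : E I) : E I :=
  ⟨M.indicator (fun i => x i), by
    have h : Summable fun i => |M.indicator (fun i => x i) i| := by
      refine (summ x).of_nonneg_of_le (fun i => abs_nonneg _) (fun i => ?_)
      by_cases hi : i ∈ M
      · rw [indicator_of_mem hi]
      · rw [indicator_of_notMem hi]; simp
    exact memlp_iff.2 h⟩

lemma pr_mem {M : Set I} {x : E I} {i : I} (h : i ∈ M) : pr M x i = x i := by
  exact indicator_of_mem h _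

lemma pr_not {M : Set I} {x : E I} {i : I} (h : i ∉ M) : pr M x i = 0 := by
  exact indicator_of_notMem h _

/-- Vectors supported in `M`. -/
def Sup (M : Set I) (x : E I) : Prop := ∀ i, i ∉ M → x i = 0

lemma pr_eq_self {M : Set I} {x : E I} (h : Sup M x) : pr M x = x := by
  ext i
  by_cases hi : i ∈ M
  · exact pr_mem hi
  · rw [pr_not hi, h i hi]

lemma Sup.mono {M N : Set I} (hMN : M ⊆ N) {x : E I} (h : Sup M x) : Sup N x :=
  fun i hi => h i (fun h' => hi (hMN h'))

lemma Sup.zero (M : Set I) : Sup M (0 : E I) := fun _ _ => rfl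

lemma Sup.add {M : Set I} {x y : E I} (hx : Sup M x) (hy : Sup M y) : Sup M (x + y) := by
  intro i hi
  show x i + y i = 0
  rw [hx i hi, hy i hi, add_zero]

lemma Sup.smul {M : Set I} (c : ℝ) {x : E I} (hx : Sup M x) : Sup M (c • x) := by
  intro i hi
  show c * x i = 0
  rw [hx i hi, mul_zero]

lemma pr_zero (M : Set I) : pr M (0 : E I) = 0 := pr_eq_self (Sup.zero M)

lemma pr_sup (M : Set I) (x : E I) : Sup M (pr M x) := fun _ hi => pr_not hi

/-- The multiple `r e_i` of a unit vector. -/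
def ev (i : I) (r : ℝ) : E I := by
  classical exact lp.single (E := fun _ : I => ℝ) 1 i r

lemma ev_self (i : I) (r : ℝ) : ev i r i = r := by
  classical exact lp.single_apply_self (E := fun _ : I => ℝ) 1 i r

lemma ev_ne {i j : I} (h : j ≠ i) (r : ℝ) : ev i r j = 0 := by
  classical exact lp.single_apply_ne (E := fun _ : I => ℝ) 1 i r h

lemma ev_sup {i : I} {M : Set I} (h : i ∈ M) (r : ℝ) : Sup M (ev i r) := by
  intro j hj
  refine ev_ne (fun h' => hj ?_) r
  rw [h']; exact h

lemma pr_ev_not {i : I} {M : Set I} (h : i ∉ M) (r : ℝ) : pr M (ev i r) = 0 := by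
  ext j
  by_cases hj : j ∈ M
  · rw [pr_mem hj, ev_ne (fun h' => h (by rw [← h']; exact hj))]
    rfl
  · rw [pr_not hj]
    rfl

lemma app_le_norm (x : E I) (i : I) : |x i| ≤ ‖x‖ := by
  have := lp.norm_apply_le_norm (p := 1) (by norm_num) x i
  simpa using this

lemma countable_support (x : E I) : {i | x i ≠ 0}.Countable := by
  have := (summ x).countable_support
  refine this.mono ?_
  intro i hi
  rw [Function.mem_support]
  exact abs_ne_zero.2 hi

lemma finite_big (x : E I) : {i | 1 < |x i|}.Finite := by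
  have h := (summ x).tendsto_cofinite_zero
  have h2 : ∀ᶠ i in cofinite, |x i| < 1 := h.eventually (gt_mem_nhds one_pos)
  rw [eventually_cofinite] at h2
  refine h2.subset ?_
  intro i hi
  simp only [mem_ofPred_eq] at hi ⊢
  linarith

/-- Functions of the separable type built from one-dimensional pieces. -/
def sepf (h0 : E I → ℝ) (M : Set I) (A : Set I) (k : I → ℝ → ℝ) (x : E I) : ℝ :=
  h0 (pr M x) + ∑' i, (A \ M).indicator (fun i => k i (x i)) i

variable {h0 : E I → ℝ} {M A : Set I} {k : I → ℝ → ℝ}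

lemma abs_k_le (hk : ∀ i, LipschitzWith 1 (k i)) (hk0 : ∀ i, k i 0 = 0) (i : I) (s : ℝ) :
    |k i s| ≤ |s| := by
  have := (hk i).dist_le_mul s 0
  rw [hk0, Real.dist_eq, Real.dist_eq] at this
  simpa using this

lemma abs_k_sub_le (hk : ∀ i, LipschitzWith 1 (k i)) (i : I) (s t : ℝ) :
    |k i s - k i t| ≤ |s - t| := by
  have := (hk i).dist_le_mul s t
  rw [Real.dist_eq, Real.dist_eq] at this
  simpa using this

lemma summ_sep (hk : ∀ i, LipschitzWith 1 (k i)) (hk0 : ∀ i, k i 0 = 0) (B : Set I) (x : E I) :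
    Summable (B.indicator fun i => k i (x i)) := by
  refine Summable.indicator ?_ B
  refine Summable.of_norm_bounded (summ x) (fun i => ?_)
  exact abs_k_le hk hk0 i _

lemma sepf_lip (hh : LipschitzWith 1 h0) (hk : ∀ i, LipschitzWith 1 (k i))
    (hk0 : ∀ i, k i 0 = 0) : LipschitzWith 1 (sepf h0 M A k) := by
  refine LipschitzWith.of_dist_le_mul (fun x y => ?_)
  rw [NNReal.coe_one, one_mul, Real.dist_eq, dist_eq_norm, dist_eq']
  have s1 : Summable (M.indicator fun i => |x i - y i|) := (summ_sub x y).indicator M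
  have s2 : Summable (Mᶜ.indicator fun i => |x i - y i|) := (summ_sub x y).indicator Mᶜ
  have h1 : |h0 (pr M x) - h0 (pr M y)| ≤ ∑' i, M.indicator (fun i => |x i - y i|) i := by
    have := hh.dist_le_mul (pr M x) (pr M y)
    rw [NNReal.coe_one, one_mul, Real.dist_eq, dist_eq_norm, dist_eq'] at this
    refine this.trans (le_of_eq ?_)
    congr 1
    ext i
    by_cases hi : i ∈ M
    · rw [pr_mem hi, pr_mem hi, indicator_of_mem hi]
    · rw [pr_not hi, pr_not hi, indicator_of_notMem hi]; simp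
  have bd : ∀ i, ‖(A \ M).indicator (fun i => k i (x i)) i - (A \ M).indicator (fun i => k i (y i)) i‖
      ≤ Mᶜ.indicator (fun i => |x i - y i|) i := by
    intro i
    by_cases hi : i ∈ A \ M
    · rw [indicator_of_mem hi, indicator_of_mem hi, indicator_of_mem (show i ∈ Mᶜ from hi.2)]
      exact abs_k_sub_le hk i _ _
    · rw [indicator_of_notMem hi, indicator_of_notMem hi]
      simp only [sub_self, norm_zero]
      exact indicator_nonneg (fun i _ => abs_nonneg _) i
  have h2 : |(∑' i, (A \ M).indicator (fun i => k i (x i)) i) -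
      ∑' i, (A \ M).indicator (fun i => k i (y i)) i| ≤
      ∑' i, Mᶜ.indicator (fun i => |x i - y i|) i := by
    rw [← (summ_sep hk hk0 _ x).tsum_sub (summ_sep hk hk0 _ y)]
    exact tsum_of_norm_bounded s2.hasSum bd
  have h3 : ∑' i, |x i - y i| = (∑' i, M.indicator (fun i => |x i - y i|) i) +
      ∑' i, Mᶜ.indicator (fun i => |x i - y i|) i := by
    rw [← s1.tsum_add s2]
    congr 1
    ext i
    by_cases hi : i ∈ M
    · rw [indicator_of_mem hi, indicator_of_notMem (by simpa using hi), add_zero]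
    · rw [indicator_of_notMem hi, indicator_of_mem (show i ∈ Mᶜ from hi), zero_add]
  rw [h3]
  have e : sepf h0 M A k x - sepf h0 M A k y = (h0 (pr M x) - h0 (pr M y)) +
      ((∑' i, (A \ M).indicator (fun i => k i (x i)) i) -
      ∑' i, (A \ M).indicator (fun i => k i (y i)) i) := by
    unfold sepf
    ring
  rw [e]
  exact (abs_add_le _ _).trans (add_le_add h1 h2)

lemma sepf_zero (hh0 : h0 0 = 0) (hk0 : ∀ i, k i 0 = 0) : sepf h0 M A k 0 = 0 := by
  unfold sepf
  rw [pr_zero, hh0, zero_add]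
  have : ∀ i, (A \ M).indicator (fun i => k i ((0 : E I) i)) i = 0 := by
    intro i
    by_cases hi : i ∈ A \ M
    · rw [indicator_of_mem hi]; exact hk0 i
    · rw [indicator_of_notMem hi]
  simp only [this, tsum_zero]

/-- Value on vectors whose coordinates outside `M` are annihilated by the `k i`. -/
lemma sepf_of_small {x : E I} (hx : ∀ i, i ∉ M → k i (x i) = 0) :
    sepf h0 M A k x = h0 (pr M x) := by
  unfold sepf
  have : ∀ i, (A \ M).indicator (fun i => k i (x i)) i = 0 := by
    intro i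
    by_cases hi : i ∈ A \ M
    · rw [indicator_of_mem hi]; exact hx i hi.2
    · rw [indicator_of_notMem hi]
  simp only [this, tsum_zero, add_zero]

/-- Value on vectors supported in `M`. -/
lemma sepf_of_sup (hk0 : ∀ i, k i 0 = 0) {x : E I} (hx : Sup M x) : sepf h0 M A k x = h0 x := by
  rw [sepf_of_small (fun i hi => by rw [hx i hi, hk0]), pr_eq_self hx]

/-- Two ranges of summation agree on vectors supported in the smaller one. -/
lemma sepf_congr_set (hk0 : ∀ i, k i 0 = 0) {B : Set I} {x : E I}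
    (hx : ∀ i, i ∉ M → x i ≠ 0 → (i ∈ A ↔ i ∈ B)) : sepf h0 M A k x = sepf h0 M B k x := by
  classical
  unfold sepf
  congr 2
  ext i
  simp only [indicator_apply]
  by_cases hi : x i = 0
  · rw [hi, hk0]; simp
  · by_cases hM : i ∈ M
    · simp [hM]
    · simp [hM, hx i hM hi]

lemma sepf_ev (hh0 : h0 0 = 0) (hk0 : ∀ i, k i 0 = 0) {i : I} (hi : i ∉ M)
    (hA : i ∈ A) (r : ℝ) : sepf h0 M A k (ev i r) = k i r := by
  unfold sepf
  rw [pr_ev_not hi, hh0, zero_add, tsum_eq_single i]
  · rw [indicator_of_mem (show i ∈ A \ M from ⟨hA, hi⟩), ev_self]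
  · intro j hj
    by_cases h : j ∈ A \ M
    · rw [indicator_of_mem h, ev_ne hj, hk0]
    · rw [indicator_of_notMem h]

lemma sepf_congr_k {k' : I → ℝ → ℝ} (h : ∀ i ∈ A, k i = k' i) :
    sepf h0 M A k = sepf h0 M A k' := by
  classical
  funext x
  unfold sepf
  congr 2
  ext i
  simp only [indicator_apply]
  by_cases hi : i ∈ A
  · rw [h i hi]
  · simp [hi]

end basics

/-- A code: two sequences of vectors, a scalar and a bound. -/
abbrev Code (I : Type) := (ℕ → E I) × (ℕ → E I) × ℝ × ℝ

/-- The sequence of values of a code on a function. -/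
def val {I : Type} (v : Code I) (h : E I → ℝ) (n : ℕ) : ℝ := h (v.1 n) + v.2.2.1 * h (v.2.1 n)

/-- The bound of a code. -/
def rr {I : Type} (v : Code I) : ℝ := |v.2.2.2|

lemma rr_nonneg {I : Type} (v : Code I) : 0 ≤ rr v := abs_nonneg _

section construction

variable {I : Type} [LinearOrder I] [WellFoundedLT I] (i0 : I) (code : I → Code I)

/-- The admissible functions for the constraints in `L`. -/
def BB (L : Set I) : Set (E I → ℝ) :=
  {h | LipschitzWith 1 h ∧ h 0 = 0 ∧
    ∀ δ ∈ L, Tendsto (val (code δ) h) atTop (𝓝 (h (ev δ (rr (code δ) + 2))))}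

lemma BB_mono {L L' : Set I} (h : L ⊆ L') : BB code L' ⊆ BB code L :=
  fun _ hf => ⟨hf.1, hf.2.1, fun δ hδ => hf.2.2 δ (h hδ)⟩

/-- The condition under which the index `γ` is kept. -/
def QQ (γ : I) (L : Set I) : Prop :=
  i0 < γ ∧ (∀ n, Sup (insert i0 L) ((code γ).1 n) ∧ Sup (insert i0 L) ((code γ).2.1 n)) ∧
  (∀ ε : ℝ, 0 < ε → ∃ N, ∀ m, N ≤ m → ∀ n, N ≤ n → ∀ h ∈ BB code L,
    |val (code γ) h m - val (code γ) h n| ≤ ε) ∧
  (∀ n, ∀ h ∈ BB code L, |val (code γ) h n| ≤ rr (code γ)) ∧
  (∀ z, Sup (insert i0 L) z → ∃ h ∈ BB code L, ¬ Tendsto (val (code γ) h) atTop (𝓝 (h z)))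

/-- The kept indices, by well-founded recursion. -/
def PP : I → Prop :=
  WellFounded.fix (wellFounded_lt (α := I)) (fun γ F => QQ i0 code γ {δ | ∃ h : δ < γ, F δ h})

/-- The kept indices below `γ`. -/
def SS (γ : I) : Set I := {δ | δ < γ ∧ PP i0 code δ}

lemma PP_iff (γ : I) : PP i0 code γ ↔ QQ i0 code γ (SS i0 code γ) := by
  unfold PP
  rw [WellFounded.fix_eq]
  have e : {δ | ∃ _ : δ < γ, WellFounded.fix (wellFounded_lt (α := I))
      (fun γ F => QQ i0 code γ {δ | ∃ h : δ < γ, F δ h}) δ} = SS i0 code γ := by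
    ext δ
    simp only [SS, PP, mem_ofPred_eq, exists_prop]
  rw [e]

/-- All kept indices. -/
def KK : Set I := {δ | PP i0 code δ}

lemma SS_eq (γ : I) : SS i0 code γ = KK i0 code ∩ Iio γ := by
  ext δ
  simp only [SS, KK, mem_ofPred_eq, mem_inter_iff, mem_Iio]
  tauto

/-- Clamping a value to the allowed range of the index `δ`. -/
def clampv (δ : I) (t : ℝ) : ℝ := max (-(rr (code δ))) (min t (rr (code δ)))

lemma clampv_abs (δ : I) (t : ℝ) : |clampv code δ t| ≤ rr (code δ) := by
  have := rr_nonneg (code δ)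
  unfold clampv
  rw [abs_le]
  constructor
  · exact le_max_left _ _
  · exact max_le (by linarith) (min_le_right _ _)

lemma clampv_eq (δ : I) {t : ℝ} (h : |t| ≤ rr (code δ)) : clampv code δ t = t := by
  rw [abs_le] at h
  unfold clampv
  rw [min_eq_left h.2, max_eq_right h.1]

/-- The values prescribed by the constraints, by well-founded recursion. -/
def aval (h0 : E I → ℝ) (M : Set I) (κ : I → ℝ → ℝ → ℝ) : I → ℝ :=
  WellFounded.fix (wellFounded_lt (α := I)) (fun δ F =>
    limUnder atTop (val (code δ) (sepf h0 M (Iio δ)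
      (fun η => by classical exact if h : η < δ then κ η (clampv code η (F η h)) else 0))))

/-- The one-dimensional pieces. -/
def kk (h0 : E I → ℝ) (M : Set I) (κ : I → ℝ → ℝ → ℝ) (η : I) : ℝ → ℝ :=
  κ η (clampv code η (aval code h0 M κ η))

lemma aval_eq (h0 : E I → ℝ) (M : Set I) (κ : I → ℝ → ℝ → ℝ) (δ : I) :
    aval code h0 M κ δ =
      limUnder atTop (val (code δ) (sepf h0 M (Iio δ) (kk code h0 M κ))) := by
  classical
  conv_lhs => unfold aval
  rw [WellFounded.fix_eq]
  congr 2
  apply sepf_congr_k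
  intro i hi
  have hi' : i < δ := hi
  rw [dif_pos hi']
  rfl

/-- Admissible choices of one-dimensional pieces. -/
def Adm (κ : I → ℝ → ℝ → ℝ) : Prop :=
  ∀ δ c, |c| ≤ rr (code δ) → LipschitzWith 1 (κ δ c) ∧ κ δ c 0 = 0 ∧
    (PP i0 code δ → κ δ c (rr (code δ) + 2) = c)

variable {i0 code}

/-- The set `M` is an initial part of the coordinate set. -/
def Init (i0 : I) (code : I → Code I) (M : Set I) : Prop :=
  ∀ δ ∈ M, ∀ η ∈ insert i0 (KK i0 code), η < δ → η ∈ M

variable {h0 : E I → ℝ} {M : Set I} {κ : I → ℝ → ℝ → ℝ}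

lemma step (hκ : Adm i0 code κ) (hM : Init i0 code M) (hh : h0 ∈ BB code (KK i0 code ∩ M))
    {A : Set I} (hA : ∀ δ ∈ A, ∀ η, η < δ → η ∈ A)
    (ih : ∀ δ ∈ A, sepf h0 M (Iio δ) (kk code h0 M κ) ∈ BB code (SS i0 code δ)) :
    sepf h0 M A (kk code h0 M κ) ∈ BB code (KK i0 code ∩ A) := by
  have k1 : ∀ i, LipschitzWith 1 (kk code h0 M κ i) := fun i => (hκ i _ (clampv_abs code i _)).1
  have k0 : ∀ i, kk code h0 M κ i 0 = 0 := fun i => (hκ i _ (clampv_abs code i _)).2.1
  refine ⟨sepf_lip hh.1 k1 k0, sepf_zero hh.2.1 k0, ?_⟩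
  rintro δ ⟨hδ, hδA⟩
  have hQ := (PP_iff i0 code δ).1 hδ
  obtain ⟨q1, q2, q3, q4, -⟩ := hQ
  by_cases hδM : δ ∈ M
  · have hsub : insert i0 (SS i0 code δ) ⊆ M := by
      intro η hη
      rcases hη with rfl | hη
      · exact hM δ hδM _ (mem_insert _ _) q1
      · exact hM δ hδM η (mem_insert_of_mem _ hη.2) hη.1
    have e1 : val (code δ) (sepf h0 M A (kk code h0 M κ)) = val (code δ) h0 := by
      funext n
      unfold val
      rw [sepf_of_sup k0 ((q2 n).1.mono hsub), sepf_of_sup k0 ((q2 n).2.mono hsub)]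
    rw [e1, sepf_of_sup k0 (ev_sup hδM _)]
    exact hh.2.2 δ ⟨hδ, hδM⟩
  · have hB := ih δ hδA
    set G := sepf h0 M (Iio δ) (kk code h0 M κ) with hG
    have e1 : val (code δ) (sepf h0 M A (kk code h0 M κ)) = val (code δ) G := by
      have hsup : ∀ x : E I, Sup (insert i0 (SS i0 code δ)) x →
          sepf h0 M A (kk code h0 M κ) x = G x := by
        intro x hx
        apply sepf_congr_set k0
        intro i _ hi0
        have hi : i ∈ insert i0 (SS i0 code δ) := by
          by_contra hcon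
          exact hi0 (hx i hcon)
        have hlt : i < δ := by
          rcases hi with rfl | hi
          · exact q1
          · exact hi.1
        exact ⟨fun _ => hlt, fun _ => hA δ hδA i hlt⟩
      funext n
      unfold val
      rw [hsup _ (q2 n).1, hsup _ (q2 n).2]
    have hC : CauchySeq (val (code δ) G) := by
      rw [Metric.cauchySeq_iff]
      intro ε hε
      obtain ⟨N, hN⟩ := q3 (ε / 2) (by linarith)
      refine ⟨N, fun m hm n hn => ?_⟩
      rw [Real.dist_eq]
      have := hN m hm n hn G hB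
      linarith
    obtain ⟨l, hl⟩ := cauchySeq_tendsto_of_complete hC
    have hav : aval code h0 M κ δ = l := by
      rw [aval_eq]
      exact hl.limUnder_eq
    have hlr : |l| ≤ rr (code δ) := by
      refine le_of_tendsto hl.abs (Eventually.of_forall fun n => q4 n G hB)
    rw [e1, sepf_ev hh.2.1 k0 hδM hδA]
    have e2 : kk code h0 M κ δ (rr (code δ) + 2) = l := by
      unfold kk
      rw [hav, clampv_eq code δ hlr]
      exact (hκ δ l hlr).2.2 hδ
    rw [e2]
    exact hl

/-- The extension theorem. -/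
lemma ext_mem (hκ : Adm i0 code κ) (hM : Init i0 code M)
    (hh : h0 ∈ BB code (KK i0 code ∩ M)) :
    sepf h0 M univ (kk code h0 M κ) ∈ BB code (KK i0 code) := by
  have key : ∀ γ : I, sepf h0 M (Iio γ) (kk code h0 M κ) ∈ BB code (SS i0 code γ) := by
    intro γ
    induction γ using WellFoundedLT.induction with
    | ind γ ih =>
      rw [SS_eq]
      exact step hκ hM hh (fun δ hδ η hη => lt_trans hη hδ) (fun δ hδ => ih δ hδ)
  have := step hκ hM hh (A := univ) (fun _ _ _ _ => mem_univ _) (fun δ _ => key δ)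
  rwa [inter_univ] at this

/-- The separable function with base part `h0` on `M`. -/
lemma ext_exists (hκ : Adm i0 code κ) (hM : Init i0 code M)
    (hh : h0 ∈ BB code (KK i0 code ∩ M)) :
    ∃ (H : E I → ℝ) (k : I → ℝ → ℝ), H ∈ BB code (KK i0 code) ∧
      (∀ i, ∃ c, |c| ≤ rr (code i) ∧ k i = κ i c) ∧ H = sepf h0 M univ k :=
  ⟨_, _, ext_mem hκ hM hh, fun i => ⟨_, clampv_abs code i _, rfl⟩, rfl⟩

end construction

/-- One-dimensional piece vanishing on `(-∞, 1]`. -/
def kv (R c : ℝ) (s : ℝ) : ℝ := c / (R - 1) * (max 1 (min s R) - 1)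

lemma kv_lip {R c : ℝ} (hc : |c| ≤ R - 2) (hR : 2 ≤ R) : LipschitzWith 1 (kv R c) := by
  refine LipschitzWith.of_dist_le_mul (fun s t => ?_)
  rw [NNReal.coe_one, one_mul, Real.dist_eq, Real.dist_eq]
  have h1 : |c / (R - 1)| ≤ 1 := by
    rw [abs_div, abs_of_pos (show (0 : ℝ) < R - 1 by linarith), div_le_one (by linarith)]
    linarith
  have h2 : |(max 1 (min s R) - 1) - (max 1 (min t R) - 1)| ≤ |s - t| := by
    have e1 : (max 1 (min s R) - 1) - (max 1 (min t R) - 1) = max 1 (min s R) - max 1 (min t R) := by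
      ring
    rw [e1]
    rw [max_comm 1, max_comm 1]
    refine (abs_max_sub_max_le_abs (min s R) (min t R) 1).trans ?_
    have e2 : min s R - min t R = -(max (-s) (-R) - max (-t) (-R)) := by
      rw [max_neg_neg, max_neg_neg]; ring
    rw [e2, abs_neg]
    refine (abs_max_sub_max_le_abs (-s) (-t) (-R)).trans ?_
    rw [show -s - -t = -(s - t) by ring, abs_neg]
  unfold kv
  rw [← mul_sub, abs_mul]
  calc |c / (R - 1)| * |(max 1 (min s R) - 1) - (max 1 (min t R) - 1)| ≤ 1 * |s - t| :=
        mul_le_mul h1 h2 (abs_nonneg _) zero_le_one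
    _ = |s - t| := one_mul _

lemma kv_small {R c s : ℝ} (hs : s ≤ 1) : kv R c s = 0 := by
  unfold kv
  rw [max_eq_left ((min_le_left _ _).trans hs)]
  ring

lemma kv_top {R c : ℝ} (hR : 2 ≤ R) : kv R c R = c := by
  unfold kv
  rw [min_self, max_eq_right (by linarith)]
  have : R - 1 ≠ 0 := by linarith
  field_simp

/-- Clamping to an interval. -/
def cl (lo hi s : ℝ) : ℝ := max lo (min s hi)

lemma cl_mono (lo hi : ℝ) {s t : ℝ} (h : t ≤ s) : cl lo hi t ≤ cl lo hi s :=
  max_le_max le_rfl (min_le_min h le_rfl)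

lemma cl_sub_le (lo hi : ℝ) {s t : ℝ} (h : t ≤ s) : cl lo hi s - cl lo hi t ≤ s - t := by
  unfold cl
  simp only [max_def, min_def]
  split_ifs <;> linarith

lemma cl_mem {lo hi s : ℝ} (h1 : lo ≤ s) (h2 : s ≤ hi) : cl lo hi s = s := by
  unfold cl
  rw [min_eq_left h2, max_eq_right h1]

lemma cl_ge (lo hi s : ℝ) : lo ≤ cl lo hi s := le_max_left _ _

lemma cl_le {lo hi : ℝ} (h : lo ≤ hi) (s : ℝ) : cl lo hi s ≤ hi := max_le h (min_le_right _ _)

/-- One-dimensional pieces with prescribed unit slope on a short interval. -/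
lemma exists_slope {R c p q : ℝ} (hc : |c| ≤ R - 2) (hpq : |p - q| ≤ 1) :
    ∃ k : ℝ → ℝ, LipschitzWith 1 k ∧ k 0 = 0 ∧ k R = c ∧ k p - k q = |p - q| := by
  set lo := min p q with hlo
  set hi := max p q with hhi
  have hlh : lo ≤ hi := (min_le_left _ _).trans (le_max_left _ _)
  have hlen : hi - lo ≤ 1 := by
    rw [hhi, hlo, max_sub_min_eq_abs]
    rw [abs_sub_comm]; exact hpq
  obtain ⟨ε, hε, hεpq⟩ : ∃ ε : ℝ, |ε| = 1 ∧ ε * (p - q) = |p - q| := by
    rcases le_total q p with h | h
    · exact ⟨1, abs_one, by rw [one_mul, abs_of_nonneg (by linarith)]⟩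
    · exact ⟨-1, by simp, by rw [abs_of_nonpos (by linarith)]; ring⟩
  set g : ℝ → ℝ := fun s => cl lo hi s - cl lo hi 0 with hg
  have hR : 2 ≤ R := by
    have := abs_nonneg c
    linarith
  have g1 : 0 ≤ g R := by
    have := cl_mono lo hi (show (0 : ℝ) ≤ R by linarith)
    simp only [hg]; linarith
  have g2 : g R ≤ 1 := by
    have h1 := cl_le hlh R
    have h2 := cl_ge lo hi 0
    simp only [hg]; linarith
  set m : ℝ := (c - ε * g R) / (R - g R) with hm
  have hpos : 0 < R - g R := by linarith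
  have hm1 : |m| ≤ 1 := by
    rw [hm, abs_div, abs_of_pos hpos, div_le_one hpos]
    calc |c - ε * g R| ≤ |c| + |ε * g R| := abs_sub _ _
      _ = |c| + g R := by rw [abs_mul, hε, one_mul, abs_of_nonneg g1]
      _ ≤ R - g R := by linarith
  refine ⟨fun s => m * (s - g s) + ε * g s, ?_, ?_, ?_, ?_⟩
  · refine LipschitzWith.of_dist_le_mul (fun s t => ?_)
    rw [NNReal.coe_one, one_mul, Real.dist_eq, Real.dist_eq]
    have key : ∀ s t : ℝ, t ≤ s →
        |(m * (s - g s) + ε * g s) - (m * (t - g t) + ε * g t)| ≤ |s - t| := by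
      intro s t hst
      have d1 : 0 ≤ g s - g t := by
        have := cl_mono lo hi hst
        simp only [hg]; linarith
      have d2 : g s - g t ≤ s - t := by
        have := cl_sub_le lo hi hst
        simp only [hg]; linarith
      have e : (m * (s - g s) + ε * g s) - (m * (t - g t) + ε * g t) =
          m * ((s - t) - (g s - g t)) + ε * (g s - g t) := by ring
      rw [e, abs_of_nonneg (show 0 ≤ s - t by linarith)]
      calc |m * ((s - t) - (g s - g t)) + ε * (g s - g t)|
          ≤ |m * ((s - t) - (g s - g t))| + |ε * (g s - g t)| := abs_add_le _ _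
        _ = |m| * ((s - t) - (g s - g t)) + (g s - g t) := by
            rw [abs_mul, abs_mul, hε, one_mul, abs_of_nonneg d1,
              abs_of_nonneg (show 0 ≤ (s - t) - (g s - g t) by linarith)]
        _ ≤ 1 * ((s - t) - (g s - g t)) + (g s - g t) := by
            gcongr
        _ = s - t := by ring
    rcases le_total t s with h | h
    · exact key s t h
    · have := key t s h
      rw [abs_sub_comm, abs_sub_comm s t]
      exact this
  · simp [hg]
  · show m * (R - g R) + ε * g R = c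
    rw [hm, div_mul_cancel₀ _ hpos.ne']
    ring
  · have gp : g p = p - cl lo hi 0 := by
      simp only [hg]
      rw [cl_mem (min_le_left _ _) (le_max_left _ _)]
    have gq : g q = q - cl lo hi 0 := by
      simp only [hg]
      rw [cl_mem (min_le_right _ _) (le_max_right _ _)]
    show (m * (p - g p) + ε * g p) - (m * (q - g q) + ε * g q) = |p - q|
    rw [gp, gq, ← hεpq]
    ring

lemma pr_sub_norm {I : Type} (M : Set I) (x y : E I) : ‖pr M x - pr M y‖ ≤ ‖x - y‖ := by
  rw [dist_eq', dist_eq']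
  refine Summable.tsum_le_tsum (fun i => ?_) (summ_sub _ _) (summ_sub _ _)
  by_cases hi : i ∈ M
  · rw [pr_mem hi, pr_mem hi]
  · rw [pr_not hi, pr_not hi]
    simp

lemma coord_sub_le {I : Type} (x y : E I) (i : I) : |x i - y i| ≤ ‖x - y‖ := app_le_norm (x - y) i

/-- Surjective isometries fixing the origin are homogeneous (Mazur-Ulam). -/
lemma isometry_smul {X Y : Type} [NormedAddCommGroup X] [NormedSpace ℝ X]
    [NormedAddCommGroup Y] [NormedSpace ℝ Y] {U : X → Y} (hU : Isometry U)
    (hs : Function.Surjective U) (h0 : U 0 = 0) (c : ℝ) (x : X) : U (c • x) = c • U x := by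
  let V : X ≃ᵢ Y := IsometryEquiv.mk (Equiv.ofBijective U ⟨hU.injective, hs⟩) hU
  have hV : V 0 = 0 := h0
  exact map_smul (V.toRealLinearIsometryEquivOfMapZero hV) c x

section properties

variable {I : Type} [LinearOrder I] [WellFoundedLT I] {i0 : I} {code : I → Code I}

lemma KK_gt {δ : I} (h : δ ∈ KK i0 code) : i0 < δ := ((PP_iff i0 code δ).1 h).1

lemma zero_mem_BB (L : Set I) (hL : L = ∅) : (fun _ : E I => (0 : ℝ)) ∈ BB code L := by
  subst hL
  refine ⟨LipschitzWith.const' _, rfl, ?_⟩
  intro δ hδ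
  exact absurd hδ (notMem_empty δ)

lemma local_iso {x y : E I} (h : ‖x - y‖ ≤ 1) :
    ∃ H ∈ BB code (KK i0 code), H x - H y = ‖x - y‖ := by
  classical
  have hex : ∀ (δ : I) (c : ℝ), |c| ≤ rr (code δ) → ∃ k : ℝ → ℝ, LipschitzWith 1 k ∧ k 0 = 0 ∧
      k (rr (code δ) + 2) = c ∧ k (x δ) - k (y δ) = |x δ - y δ| := by
    intro δ c hc
    exact exists_slope (by linarith) ((coord_sub_le x y δ).trans h)
  let κ : I → ℝ → ℝ → ℝ := fun δ c => if hc : |c| ≤ rr (code δ) then (hex δ c hc).choose else 0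
  have hκ1 : ∀ δ c (hc : |c| ≤ rr (code δ)), κ δ c = (hex δ c hc).choose := by
    intro δ c hc
    simp only [κ, dif_pos hc]
  have hκ : Adm i0 code κ := by
    intro δ c hc
    rw [hκ1 δ c hc]
    have := (hex δ c hc).choose_spec
    exact ⟨this.1, this.2.1, fun _ => this.2.2.1⟩
  obtain ⟨H, k, hH, hk, rfl⟩ := ext_exists (M := ∅) hκ (by intro δ hδ; exact absurd hδ (notMem_empty δ))
    (zero_mem_BB _ (inter_empty _))
  refine ⟨_, hH, ?_⟩
  have k1 : ∀ i, LipschitzWith 1 (k i) := by
    intro i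
    obtain ⟨c, hc, e⟩ := hk i
    rw [e]; exact (hκ i c hc).1
  have k0 : ∀ i, k i 0 = 0 := by
    intro i
    obtain ⟨c, hc, e⟩ := hk i
    rw [e]; exact (hκ i c hc).2.1
  have k2 : ∀ i, k i (x i) - k i (y i) = |x i - y i| := by
    intro i
    obtain ⟨c, hc, e⟩ := hk i
    rw [e, hκ1 i c hc]
    exact (hex i c hc).choose_spec.2.2.2
  unfold sepf
  rw [zero_add, zero_add, ← (summ_sep k1 k0 _ x).tsum_sub (summ_sep k1 k0 _ y), dist_eq']
  congr 1
  ext i
  rw [indicator_of_mem (by simp), indicator_of_mem (by simp)]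
  exact k2 i

/-- Pieces vanishing on small arguments. -/
lemma adm_kv : Adm i0 code (fun δ c => kv (rr (code δ) + 2) c) := by
  intro δ c hc
  have := rr_nonneg (code δ)
  exact ⟨kv_lip (by linarith) (by linarith), kv_small zero_le_one, fun _ => kv_top (by linarith)⟩

lemma ext_small {M : Set I} {h0 : E I → ℝ} (hM : Init i0 code M)
    (hh : h0 ∈ BB code (KK i0 code ∩ M)) :
    ∃ H ∈ BB code (KK i0 code), ∀ x : E I, (∀ i, i ∉ M → x i ≤ 1) → H x = h0 (pr M x) := by
  obtain ⟨H, k, hH, hk, rfl⟩ := ext_exists adm_kv hM hh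
  refine ⟨_, hH, fun x hx => ?_⟩
  apply sepf_of_small
  intro i hi
  obtain ⟨c, -, e⟩ := hk i
  rw [e]
  exact kv_small (hx i hi)

lemma init_insert (γ : I) : Init i0 code (insert i0 (SS i0 code γ)) := by
  intro δ hδ η hη hlt
  rcases hη with rfl | hη
  · exact mem_insert _ _
  · rcases hδ with rfl | hδ
    · exact absurd hlt (not_lt.2 (KK_gt hη).le)
    · exact mem_insert_of_mem _ ⟨hlt.trans hδ.1, hη⟩

lemma KK_inter_insert (γ : I) : KK i0 code ∩ insert i0 (SS i0 code γ) = SS i0 code γ := by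
  ext δ
  constructor
  · rintro ⟨h1, h2⟩
    rcases h2 with rfl | h2
    · exact absurd (KK_gt h1) (lt_irrefl _)
    · exact h2
  · intro h
    exact ⟨h.2, mem_insert_of_mem _ h⟩

lemma ext_base (γ : I) {h0 : E I → ℝ} (hh : h0 ∈ BB code (SS i0 code γ)) :
    ∃ H ∈ BB code (KK i0 code), ∀ x : E I, Sup (insert i0 (SS i0 code γ)) x → H x = h0 x := by
  obtain ⟨H, hH, h1⟩ := ext_small (init_insert γ) (by rwa [KK_inter_insert])
  refine ⟨H, hH, fun x hx => ?_⟩
  rw [h1 x (fun i hi => by rw [hx i hi]; exact zero_le_one), pr_eq_self hx]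

lemma init_Iic (γ : I) : Init i0 code (Iic γ) := by
  intro δ hδ η _ hlt
  exact hlt.le.trans hδ

lemma sep_gen {γ : I} (hγ : γ ∈ KK i0 code) {x y : E I} (hxγ : x γ ≠ 0)
    (hx1 : pr (Iic γ) x ≠ ev γ (rr (code γ) + 2)) (hxy : pr (Iic γ) x ≠ pr (Iic γ) y)
    (hsx : ∀ i, γ < i → x i ≤ 1) (hsy : ∀ i, γ < i → y i ≤ 1) :
    ∃ H ∈ BB code (KK i0 code), H x ≠ H y := by
  set z := pr (Iic γ) x with hz
  set z' := pr (Iic γ) y with hz'
  have hzγ : z γ = x γ := pr_mem (mem_Iic.2 le_rfl)
  set r := min |x γ| (min ‖z - ev γ (rr (code γ) + 2)‖ ‖z - z'‖) with hr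
  have hr0 : 0 < r := by
    refine lt_min (abs_pos.2 hxγ) (lt_min ?_ ?_)
    · exact norm_pos_iff.2 (sub_ne_zero.2 hx1)
    · exact norm_pos_iff.2 (sub_ne_zero.2 hxy)
  have hr1 : r ≤ |x γ| := min_le_left _ _
  have hr2 : r ≤ ‖z - ev γ (rr (code γ) + 2)‖ := (min_le_right _ _).trans (min_le_left _ _)
  have hr3 : r ≤ ‖z - z'‖ := (min_le_right _ _).trans (min_le_right _ _)
  let h0 : E I → ℝ := fun w => max 0 (r - ‖pr (Iic γ) w - z‖)
  have hlip : LipschitzWith 1 h0 := by
    refine LipschitzWith.of_dist_le_mul (fun w w' => ?_)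
    rw [NNReal.coe_one, one_mul, Real.dist_eq, dist_eq_norm]
    simp only [h0]
    rw [max_comm 0, max_comm 0]
    refine (abs_max_sub_max_le_abs _ _ 0).trans ?_
    rw [show r - ‖pr (Iic γ) w - z‖ - (r - ‖pr (Iic γ) w' - z‖) =
      ‖pr (Iic γ) w' - z‖ - ‖pr (Iic γ) w - z‖ by ring]
    refine (abs_norm_sub_norm_le _ _).trans ?_
    rw [sub_sub_sub_cancel_right, norm_sub_rev]
    exact pr_sub_norm _ _ _
  have hvan : ∀ w : E I, w γ = 0 → h0 w = 0 := by
    intro w hw
    simp only [h0]
    apply max_eq_left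
    have h1 := coord_sub_le (pr (Iic γ) w) z γ
    rw [pr_mem (mem_Iic.2 le_rfl), hw, hzγ, zero_sub, abs_neg] at h1
    linarith
  have hmem : h0 ∈ BB code (KK i0 code ∩ Iic γ) := by
    refine ⟨hlip, hvan 0 rfl, ?_⟩
    rintro δ ⟨hδ, hδγ⟩
    have hδγ' : δ ≤ γ := hδγ
    obtain ⟨q1, q2, -⟩ := (PP_iff i0 code δ).1 hδ
    have hv : ∀ w : E I, Sup (insert i0 (SS i0 code δ)) w → w γ = 0 := by
      intro w hw
      apply hw
      rintro (h | h)
      · rw [h] at hδγ'
        exact absurd q1 (not_lt.2 hδγ')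
      · exact absurd h.1 (not_lt.2 hδγ')
    have e1 : val (code δ) h0 = fun _ => 0 := by
      funext n
      unfold val
      rw [hvan _ (hv _ (q2 n).1), hvan _ (hv _ (q2 n).2)]
      ring
    have e2 : h0 (ev δ (rr (code δ) + 2)) = 0 := by
      rcases hδγ'.eq_or_lt with h | h
      · subst h
        simp only [h0]
        apply max_eq_left
        rw [pr_eq_self (ev_sup (mem_Iic.2 le_rfl) _), norm_sub_rev]
        linarith
      · exact hvan _ (ev_ne h.ne' _)
    rw [e1, e2]
    exact tendsto_const_nhds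
  obtain ⟨H, hH, h1⟩ := ext_small (init_Iic γ) hmem
  refine ⟨H, hH, ?_⟩
  rw [h1 x (fun i hi => hsx i (not_le.1 hi)), h1 y (fun i hi => hsy i (not_le.1 hi))]
  have e1 : h0 z = r := by
    simp only [h0]
    rw [pr_eq_self (pr_sup _ _), sub_self, norm_zero, sub_zero]
    exact max_eq_right hr0.le
  have e2 : h0 z' = 0 := by
    simp only [h0]
    rw [pr_eq_self (pr_sup _ _), norm_sub_rev]
    exact max_eq_left (by linarith)
  rw [e1, e2]
  exact hr0.ne'

lemma sep_zero {x y : E I} (hxy : x i0 ≠ y i0) (hsx : ∀ i, i0 < i → x i ≤ 1)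
    (hsy : ∀ i, i0 < i → y i ≤ 1) : ∃ H ∈ BB code (KK i0 code), H x ≠ H y := by
  have hmem : (fun w : E I => w i0) ∈ BB code (KK i0 code ∩ Iic i0) := by
    refine ⟨?_, rfl, ?_⟩
    · refine LipschitzWith.of_dist_le_mul (fun w w' => ?_)
      rw [NNReal.coe_one, one_mul, Real.dist_eq, dist_eq_norm]
      exact coord_sub_le _ _ _
    · rintro δ ⟨hδ, hδ'⟩
      exact absurd (KK_gt hδ) (not_lt.2 hδ')
  obtain ⟨H, hH, h1⟩ := ext_small (init_Iic i0) hmem
  refine ⟨H, hH, ?_⟩
  rw [h1 x (fun i hi => hsx i (not_le.1 hi)), h1 y (fun i hi => hsy i (not_le.1 hi)),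
    pr_mem (mem_Iic.2 le_rfl), pr_mem (mem_Iic.2 le_rfl)]
  exact hxy

lemma sep_new {γ : I} (hγ : γ ∈ KK i0 code) {y : E I} (hy : Sup (insert i0 (SS i0 code γ)) y) :
    ∃ H ∈ BB code (KK i0 code), H (ev γ (rr (code γ) + 2)) ≠ H y := by
  obtain ⟨-, q2, -, -, q5⟩ := (PP_iff i0 code γ).1 hγ
  obtain ⟨h, hh, hnt⟩ := q5 y hy
  obtain ⟨H, hH, h1⟩ := ext_base γ hh
  refine ⟨H, hH, fun heq => hnt ?_⟩
  have e1 : val (code γ) H = val (code γ) h := by
    funext n
    unfold val
    rw [h1 _ (q2 n).1, h1 _ (q2 n).2]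
  rw [← e1, ← h1 y hy, ← heq]
  exact hH.2.2 γ hγ

/-- The coordinate set. -/
def JJ (i0 : I) (code : I → Code I) : Set I := insert i0 (KK i0 code)

lemma separation {x y : E I} (hx : Sup (JJ i0 code) x) (hy : Sup (JJ i0 code) y) (hxy : x ≠ y) :
    ∃ H ∈ BB code (KK i0 code), H x ≠ H y := by
  -- the last big coordinate
  have hfin : ({i | 1 < |x i|} ∪ {i | 1 < |y i|} ∪ {i0} : Set I).Finite :=
    ((finite_big x).union (finite_big y)).union (finite_singleton i0)
  obtain ⟨g, hgT, hgmax⟩ := exists_max_image _ id hfin ⟨i0, Or.inr rfl⟩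
  simp only [id] at hgmax
  have hg0 : i0 ≤ g := hgmax i0 (Or.inr rfl)
  have bx : ∀ i, g < i → |x i| ≤ 1 := by
    intro i hi
    by_contra hcon
    push Not at hcon
    exact absurd hi (not_lt.2 (hgmax i (Or.inl (Or.inl hcon))))
  have bY : ∀ i, g < i → |y i| ≤ 1 := by
    intro i hi
    by_contra hcon
    push Not at hcon
    exact absurd hi (not_lt.2 (hgmax i (Or.inl (Or.inr hcon))))
  have hJ : ∀ i, g < i → (x i ≠ 0 ∨ y i ≠ 0) → i ∈ KK i0 code := by
    intro i hi h
    have : i ∈ JJ i0 code := by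
      by_contra hcon
      rcases h with h | h
      · exact h (hx i hcon)
      · exact h (hy i hcon)
    rcases this with h' | h'
    · rw [h'] at hi
      exact absurd hi (not_lt.2 hg0)
    · exact h'
  -- a coordinate where they differ
  obtain ⟨d, hd⟩ : ∃ d, x d ≠ y d := by
    by_contra hcon
    push Not at hcon
    exact hxy (by ext i; exact hcon i)
  by_cases hc1 : ∃ δ, g < δ ∧ (x δ ≠ 0 ∨ y δ ≠ 0) ∧ pr (Iic δ) x ≠ pr (Iic δ) y
  · obtain ⟨δ, hδ, hne, hpr⟩ := hc1
    have hδK := hJ δ hδ hne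
    have hrr := rr_nonneg (code δ)
    rcases hne with hne | hne
    · refine sep_gen hδK hne ?_ hpr (fun i hi => (le_abs_self _).trans (bx i (hδ.trans hi)))
        (fun i hi => (le_abs_self _).trans (bY i (hδ.trans hi)))
      intro heq
      have h1 : pr (Iic δ) x δ = rr (code δ) + 2 := by rw [heq, ev_self]
      rw [pr_mem (mem_Iic.2 le_rfl)] at h1
      have := bx δ hδ
      rw [h1, abs_of_nonneg (by linarith)] at this
      linarith
    · obtain ⟨H, hH, hn⟩ := sep_gen hδK hne (by
        intro heq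
        have h1 : pr (Iic δ) y δ = rr (code δ) + 2 := by rw [heq, ev_self]
        rw [pr_mem (mem_Iic.2 le_rfl)] at h1
        have := bY δ hδ
        rw [h1, abs_of_nonneg (by linarith)] at this
        linarith) hpr.symm (fun i hi => (le_abs_self _).trans (bY i (hδ.trans hi)))
        (fun i hi => (le_abs_self _).trans (bx i (hδ.trans hi)))
      exact ⟨H, hH, hn.symm⟩
  · push Not at hc1
    have hprne : ∀ δ, d ≤ δ → pr (Iic δ) x ≠ pr (Iic δ) y := by
      intro δ hdδ heq
      apply hd
      have h1 : pr (Iic δ) x d = pr (Iic δ) y d := by rw [heq]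
      rwa [pr_mem (mem_Iic.2 hdδ), pr_mem (mem_Iic.2 hdδ)] at h1
    have hdg : d ≤ g := by
      by_contra hcon
      push Not at hcon
      have h1 : x d ≠ 0 ∨ y d ≠ 0 := by
        by_contra h2
        push Not at h2
        exact hd (by rw [h2.1, h2.2])
      exact hprne d le_rfl (hc1 d hcon h1)
    have hz : ∀ i, g < i → x i = 0 ∧ y i = 0 := by
      intro i hi
      by_contra hcon
      have h1 : x i ≠ 0 ∨ y i ≠ 0 := by
        by_contra h2
        push Not at h2
        exact hcon h2
      exact hprne i (hdg.trans hi.le) (hc1 i hi h1)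
    have hsx : ∀ i, g < i → x i ≤ 1 := fun i hi => by rw [(hz i hi).1]; exact zero_le_one
    have hsy : ∀ i, g < i → y i ≤ 1 := fun i hi => by rw [(hz i hi).2]; exact zero_le_one
    have hprx : pr (Iic g) x = x := pr_eq_self (fun i hi => (hz i (not_le.1 hi)).1)
    have hpry : pr (Iic g) y = y := pr_eq_self (fun i hi => (hz i (not_le.1 hi)).2)
    rcases hg0.eq_or_lt with hg | hg
    · subst hg
      apply sep_zero _ hsx hsy
      intro heq
      apply hxy
      ext i
      rcases lt_trichotomy i i0 with h | h | h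
      · have hi : i ∉ JJ i0 code := by
          rintro (h' | h')
          · rw [h'] at h; exact lt_irrefl _ h
          · exact absurd (KK_gt h') (not_lt.2 h.le)
        rw [hx i hi, hy i hi]
      · rw [h]; exact heq
      · rw [(hz i h).1, (hz i h).2]
    · have hgK : g ∈ KK i0 code := by
        have hne : x g ≠ 0 ∨ y g ≠ 0 := by
          rcases hgT with (h | h) | h
          · left
            intro h0
            simp only [mem_ofPred_eq, h0, abs_zero] at h
            linarith
          · right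
            intro h0
            simp only [mem_ofPred_eq, h0, abs_zero] at h
            linarith
          · rw [mem_singleton_iff.1 h] at hg
            exact absurd hg (lt_irrefl _)
        have : g ∈ JJ i0 code := by
          by_contra hcon
          rcases hne with h | h
          · exact h (hx g hcon)
          · exact h (hy g hcon)
        rcases this with h' | h'
        · rw [h'] at hg
          exact absurd hg (lt_irrefl _)
        · exact h'
      have hsup : ∀ w : E I, Sup (JJ i0 code) w → (∀ i, g < i → w i = 0) → w g = 0 →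
          Sup (insert i0 (SS i0 code g)) w := by
        intro w hw hw1 hw2 i hi
        by_contra hcon
        have hiJ : i ∈ JJ i0 code := by
          by_contra h'
          exact hcon (hw i h')
        rcases hiJ with h' | h'
        · exact hi (h' ▸ mem_insert _ _)
        · rcases lt_trichotomy i g with h | h | h
          · exact hi (mem_insert_of_mem _ ⟨h, h'⟩)
          · rw [h] at hcon; exact hcon hw2
          · exact hcon (hw1 i h)
      by_cases hxg : x g = 0
      · have hyg : y g ≠ 0 := by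
          rcases hgT with (h | h) | h
          · simp only [mem_ofPred_eq, hxg, abs_zero] at h
            linarith
          · intro h0
            simp only [mem_ofPred_eq, h0, abs_zero] at h
            linarith
          · rw [mem_singleton_iff.1 h] at hg
            exact absurd hg (lt_irrefl _)
        by_cases hy1 : y = ev g (rr (code g) + 2)
        · obtain ⟨H, hH, hn⟩ := sep_new hgK (hsup x hx (fun i hi => (hz i hi).1) hxg)
          refine ⟨H, hH, ?_⟩
          rw [hy1]
          exact hn.symm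
        · obtain ⟨H, hH, hn⟩ := sep_gen hgK hyg (by rwa [hpry]) (by
            rw [hprx, hpry]; exact hxy.symm) hsy hsx
          exact ⟨H, hH, hn.symm⟩
      · by_cases hx1 : x = ev g (rr (code g) + 2)
        · by_cases hyg : y g = 0
          · obtain ⟨H, hH, hn⟩ := sep_new hgK (hsup y hy (fun i hi => (hz i hi).2) hyg)
            refine ⟨H, hH, ?_⟩
            rw [hx1]
            exact hn
          · obtain ⟨H, hH, hn⟩ := sep_gen hgK hyg (by
              rw [hpry, ← hx1]; exact hxy.symm) (by rw [hprx, hpry]; exact hxy.symm) hsy hsx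
            exact ⟨H, hH, hn.symm⟩
        · exact sep_gen hgK hxg (by rwa [hprx]) (by rwa [hprx, hpry]) hsx hsy

lemma closed_aux (hA : ∀ s : Set I, s.Countable → ∃ b, ∀ i ∈ s, i < b)
    (hB : ∀ (v : Code I) (b : I), ∃ γ, b < γ ∧ code γ = v)
    (v : Code I) (hv : ∀ n, Sup (JJ i0 code) (v.1 n) ∧ Sup (JJ i0 code) (v.2.1 n))
    (hC : ∀ ε : ℝ, 0 < ε → ∃ N, ∀ m, N ≤ m → ∀ n, N ≤ n → ∀ h ∈ BB code (KK i0 code),
      |val v h m - val v h n| ≤ ε)
    (hR : ∀ n, ∀ h ∈ BB code (KK i0 code), |val v h n| ≤ rr v) :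
    ∃ z, Sup (JJ i0 code) z ∧ ∀ h ∈ BB code (KK i0 code),
      Tendsto (val v h) atTop (𝓝 (h z)) := by
  set T : Set I := {i0} ∪ ⋃ n, ({i | v.1 n i ≠ 0} ∪ {i | v.2.1 n i ≠ 0}) with hT
  have hTc : T.Countable := by
    refine (countable_singleton _).union (countable_iUnion fun n => ?_)
    exact (countable_support _).union (countable_support _)
  obtain ⟨b, hb⟩ := hA T hTc
  obtain ⟨γ, hγ, hcode⟩ := hB v b
  have hi0 : i0 < γ := (hb i0 (Or.inl rfl)).trans hγ
  have hlift : ∀ x : E I, Sup (JJ i0 code) x → (∀ i, x i ≠ 0 → i ∈ T) →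
      Sup (insert i0 (SS i0 code γ)) x := by
    intro x hx hxT i hi
    by_contra hcon
    have h1 : i < γ := (hb i (hxT i hcon)).trans hγ
    have h2 : i ∈ JJ i0 code := by
      by_contra h'
      exact hcon (hx i h')
    rcases h2 with h2 | h2
    · exact hi (h2 ▸ mem_insert _ _)
    · exact hi (mem_insert_of_mem _ ⟨h1, h2⟩)
  have hs : ∀ n, Sup (insert i0 (SS i0 code γ)) (v.1 n) ∧
      Sup (insert i0 (SS i0 code γ)) (v.2.1 n) := by
    intro n
    refine ⟨hlift _ (hv n).1 (fun i hi => Or.inr (mem_iUnion.2 ⟨n, Or.inl hi⟩)),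
      hlift _ (hv n).2 (fun i hi => Or.inr (mem_iUnion.2 ⟨n, Or.inr hi⟩))⟩
  have htr : ∀ h ∈ BB code (SS i0 code γ), ∃ H ∈ BB code (KK i0 code), val v H = val v h := by
    intro h hh
    obtain ⟨H, hH, h1⟩ := ext_base γ hh
    refine ⟨H, hH, ?_⟩
    funext n
    unfold val
    rw [h1 _ (hs n).1, h1 _ (hs n).2]
  have hsub : SS i0 code γ ⊆ KK i0 code := fun δ hδ => hδ.2
  by_cases hP : PP i0 code γ
  · refine ⟨ev γ (rr (code γ) + 2), ev_sup (mem_insert_of_mem _ hP) _, fun h hh => ?_⟩
    have := hh.2.2 γ hP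
    rwa [hcode] at this ⊢
  · have hQ : ¬ QQ i0 code γ (SS i0 code γ) := fun h => hP ((PP_iff i0 code γ).2 h)
    by_contra hcon
    push Not at hcon
    apply hQ
    refine ⟨hi0, by rw [hcode]; exact hs, ?_, ?_, ?_⟩
    · intro ε hε
      obtain ⟨N, hN⟩ := hC ε hε
      refine ⟨N, fun m hm n hn h hh => ?_⟩
      obtain ⟨H, hH, e⟩ := htr h hh
      rw [hcode, ← e]
      exact hN m hm n hn H hH
    · intro n h hh
      obtain ⟨H, hH, e⟩ := htr h hh
      rw [hcode, ← e]
      exact hR n H hH
    · intro z hz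
      have hzJ : Sup (JJ i0 code) z := hz.mono (insert_subset_insert hsub)
      obtain ⟨h, hh, hn⟩ := hcon z hzJ
      refine ⟨h, BB_mono code hsub hh, ?_⟩
      rw [hcode]
      exact hn

lemma witness : ∃ H ∈ BB code (KK i0 code), H (ev i0 2) ≠ 2 * H (ev i0 1) := by
  classical
  let κ : I → ℝ → ℝ → ℝ := fun δ c => if δ = i0 then (fun s => |s - 1| - 1) else
    kv (rr (code δ) + 2) c
  have hκ : Adm i0 code κ := by
    intro δ c hc
    by_cases hδ : δ = i0
    · simp only [κ, if_pos hδ]
      refine ⟨?_, by norm_num, ?_⟩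
      · refine LipschitzWith.of_dist_le_mul (fun s t => ?_)
        rw [NNReal.coe_one, one_mul, Real.dist_eq, Real.dist_eq]
        rw [sub_sub_sub_cancel_right]
        refine (abs_abs_sub_abs_le_abs_sub _ _).trans ?_
        rw [sub_sub_sub_cancel_right]
      · intro hP
        rw [hδ] at hP
        exact absurd (KK_gt (show i0 ∈ KK i0 code from hP)) (lt_irrefl _)
    · simp only [κ, if_neg hδ]
      have := rr_nonneg (code δ)
      exact ⟨kv_lip (by linarith) (by linarith), kv_small zero_le_one,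
        fun _ => kv_top (by linarith)⟩
  obtain ⟨H, k, hH, hk, rfl⟩ := ext_exists (M := ∅) hκ
    (by intro δ hδ; exact absurd hδ (notMem_empty δ)) (zero_mem_BB _ (inter_empty _))
  refine ⟨_, hH, ?_⟩
  have k0 : ∀ i, k i 0 = 0 := by
    intro i
    obtain ⟨c, hc, e⟩ := hk i
    rw [e]; exact (hκ i c hc).2.1
  obtain ⟨c, hc, e⟩ := hk i0
  have hval : ∀ r, sepf (fun _ : E I => (0 : ℝ)) ∅ univ k (ev i0 r) = |r - 1| - 1 := by
    intro r
    rw [sepf_ev rfl k0 (notMem_empty _) (mem_univ _), e]
    simp [κ]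
  rw [hval, hval]
  norm_num

/-- The vectors supported in the coordinate set. -/
def XX (i0 : I) (code : I → Code I) : Submodule ℝ (E I) where
  carrier := {x | Sup (JJ i0 code) x}
  add_mem' := fun hx hy => Sup.add hx hy
  zero_mem' := Sup.zero _
  smul_mem' := fun c _ hx => Sup.smul c hx

lemma XX_closed : IsClosed ((XX i0 code : Submodule ℝ (E I)) : Set (E I)) := by
  have e : ((XX i0 code : Submodule ℝ (E I)) : Set (E I)) =
      ⋂ i, ⋂ _ : i ∉ JJ i0 code, {x : E I | x i = 0} := by
    ext x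
    simp only [mem_iInter, mem_ofPred_eq]
    rfl
  rw [e]
  refine isClosed_iInter fun i => isClosed_iInter fun _ => ?_
  have hc : Continuous fun x : E I => x i := by
    refine LipschitzWith.continuous (K := 1) (LipschitzWith.of_dist_le_mul (fun w w' => ?_))
    rw [NNReal.coe_one, one_mul, Real.dist_eq, dist_eq_norm]
    exact coord_sub_le _ _ _
  exact isClosed_eq hc continuous_const

/-- The admissible functions as a type. -/
abbrev BT (i0 : I) (code : I → Code I) : Type := {h : E I → ℝ // h ∈ BB code (KK i0 code)}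

lemma BT_bound (h : BT i0 code) (x : E I) : |h.1 x| ≤ ‖x‖ := by
  have := h.2.1.dist_le_mul x 0
  rw [h.2.2.1, Real.dist_eq, dist_eq_norm] at this
  simpa using this

/-- The evaluation map. -/
def Phi (i0 : I) (code : I → Code I) (x : E I) : BoundedContinuousFunction (BT i0 code) ℝ :=
  BoundedContinuousFunction.ofNormedAddCommGroup (fun h => h.1 x)
    ((continuous_apply x).comp continuous_subtype_val) ‖x‖ (fun h => BT_bound h x)

lemma Phi_apply (x : E I) (h : BT i0 code) : Phi i0 code x h = h.1 x := rfl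

/-- The evaluations form a linear space. -/
def YY (i0 : I) (code : I → Code I) (hA : ∀ s : Set I, s.Countable → ∃ b, ∀ i ∈ s, i < b)
    (hB : ∀ (v : Code I) (b : I), ∃ γ, b < γ ∧ code γ = v) :
    Submodule ℝ (BoundedContinuousFunction (BT i0 code) ℝ) where
  carrier := {f | ∃ x, Sup (JJ i0 code) x ∧ Phi i0 code x = f}
  add_mem' := by
    rintro _ _ ⟨x, hx, rfl⟩ ⟨y, hy, rfl⟩
    obtain ⟨z, hz, h⟩ := closed_aux (i0 := i0) hA hB (fun _ => x, fun _ => y, 1, ‖x‖ + ‖y‖)
      (fun _ => ⟨hx, hy⟩) (fun ε hε => ⟨0, fun m _ n _ h _ => by simp [val, hε.le]⟩)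
      (fun n h hh => by
        have e : rr ((fun _ => x, fun _ => y, 1, ‖x‖ + ‖y‖) : Code I) = ‖x‖ + ‖y‖ := by
          simp only [rr]
          exact abs_of_nonneg (by positivity)
        rw [e]
        simp only [val, one_mul]
        exact (abs_add_le _ _).trans (add_le_add (BT_bound ⟨h, hh⟩ x) (BT_bound ⟨h, hh⟩ y)))
    refine ⟨z, hz, ?_⟩
    ext g
    have h1 := h g.1 g.2
    have h2 : val ((fun _ => x, fun _ => y, 1, ‖x‖ + ‖y‖) : Code I) g.1 =
        fun _ => g.1 x + g.1 y := by
      funext n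
      simp [val]
    rw [h2] at h1
    exact tendsto_nhds_unique h1 tendsto_const_nhds
  zero_mem' := by
    refine ⟨0, Sup.zero _, ?_⟩
    ext g
    exact g.2.2.1
  smul_mem' := by
    rintro c _ ⟨x, hx, rfl⟩
    obtain ⟨z, hz, h⟩ := closed_aux (i0 := i0) hA hB (fun _ => 0, fun _ => x, c, |c| * ‖x‖)
      (fun _ => ⟨Sup.zero _, hx⟩) (fun ε hε => ⟨0, fun m _ n _ h _ => by simp [val, hε.le]⟩)
      (fun n h hh => by
        have e : rr ((fun _ => 0, fun _ => x, c, |c| * ‖x‖) : Code I) = |c| * ‖x‖ := by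
          simp only [rr]
          exact abs_of_nonneg (by positivity)
        rw [e]
        simp only [val]
        rw [hh.2.1, zero_add, abs_mul]
        exact mul_le_mul_of_nonneg_left (BT_bound ⟨h, hh⟩ x) (abs_nonneg _))
    refine ⟨z, hz, ?_⟩
    ext g
    have h1 := h g.1 g.2
    have h2 : val ((fun _ => 0, fun _ => x, c, |c| * ‖x‖) : Code I) g.1 =
        fun _ => c * g.1 x := by
      funext n
      simp [val, g.2.2.1]
    rw [h2] at h1
    exact tendsto_nhds_unique h1 tendsto_const_nhds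

lemma YY_closed (hA : ∀ s : Set I, s.Countable → ∃ b, ∀ i ∈ s, i < b)
    (hB : ∀ (v : Code I) (b : I), ∃ γ, b < γ ∧ code γ = v) :
    IsClosed ((YY i0 code hA hB : Submodule ℝ (BoundedContinuousFunction (BT i0 code) ℝ)) :
      Set (BoundedContinuousFunction (BT i0 code) ℝ)) := by
  apply IsSeqClosed.isClosed
  intro f g hf hfg
  have hf' : ∀ n, ∃ x, Sup (JJ i0 code) x ∧ Phi i0 code x = f n := hf
  choose x hx hxf using hf'
  obtain ⟨C, hC⟩ : ∃ C, ∀ n, ‖f n‖ ≤ C := by
    have := hfg.norm.bddAbove_range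
    obtain ⟨C, hC⟩ := this
    exact ⟨C, fun n => hC ⟨n, rfl⟩⟩
  have hC0 : 0 ≤ C := (norm_nonneg _).trans (hC 0)
  have hval : ∀ h (hh : h ∈ BB code (KK i0 code)) n,
      val ((x, fun _ => 0, 0, C) : Code I) h n = f n ⟨h, hh⟩ := by
    intro h hh n
    simp only [val, zero_mul, add_zero]
    rw [← hxf n]
    rfl
  obtain ⟨z, hz, h⟩ := closed_aux (i0 := i0) hA hB (x, fun _ => 0, 0, C)
    (fun n => ⟨hx n, Sup.zero _⟩)
    (fun ε hε => by
      have hcs := hfg.cauchySeq
      rw [Metric.cauchySeq_iff] at hcs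
      obtain ⟨N, hN⟩ := hcs ε hε
      refine ⟨N, fun m hm n hn h hh => ?_⟩
      rw [hval h hh, hval h hh, ← Real.dist_eq]
      exact (BoundedContinuousFunction.dist_coe_le_dist _).trans (hN m hm n hn).le)
    (fun n h hh => by
      rw [hval h hh]
      have e : rr ((x, fun _ => 0, 0, C) : Code I) = C := by
        simp only [rr]
        exact abs_of_nonneg hC0
      rw [e]
      exact ((f n).norm_coe_le_norm _).trans (hC n))
  refine ⟨z, hz, ?_⟩
  ext u
  have h1 := h u.1 u.2
  have h2 : Tendsto (fun n => f n u) atTop (𝓝 (g u)) := by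
    have hcu : Continuous fun F : BoundedContinuousFunction (BT i0 code) ℝ => F u :=
      continuous_eval_const u
    exact (hcu.tendsto g).comp hfg
  have h3 : val ((x, fun _ => 0, 0, C) : Code I) u.1 = fun n => f n u := by
    funext n
    exact hval u.1 u.2 n
  rw [h3] at h1
  exact tendsto_nhds_unique h1 h2

/-- The main construction, given the combinatorial properties of the index set. -/
theorem main (hA : ∀ s : Set I, s.Countable → ∃ b, ∀ i ∈ s, i < b)
    (hB : ∀ (v : Code I) (b : I), ∃ γ, b < γ ∧ code γ = v) (i0 : I)  :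
    ¬ (∀ (X Y : Type) [NormedAddCommGroup X] [NormedSpace ℝ X] [CompleteSpace X]
      [NormedAddCommGroup Y] [NormedSpace ℝ Y] [CompleteSpace Y] (U : X → Y),
      Function.Bijective U →
      (∀ x₀ : X, ∃ r : ℝ, 0 < r ∧ ∀ x ∈ Metric.ball x₀ r, ∀ y ∈ Metric.ball x₀ r,
        dist (U x) (U y) = dist x y) →
      Isometry U) := by
  intro hall
  have : CompleteSpace (XX i0 code) := (XX_closed (i0 := i0) (code := code)).completeSpace_coe
  have : CompleteSpace (YY i0 code hA hB) := (YY_closed (i0 := i0) hA hB).completeSpace_coe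
  let U : XX i0 code → YY i0 code hA hB := fun x => ⟨Phi i0 code x.1, ⟨x.1, x.2, rfl⟩⟩
  have hlip : ∀ x y : E I, ∀ g : BT i0 code, |g.1 x - g.1 y| ≤ ‖x - y‖ := by
    intro x y g
    have := g.2.1.dist_le_mul x y
    rw [Real.dist_eq, dist_eq_norm] at this
    simpa using this
  have hU : Isometry U := by
    apply hall (XX i0 code) (YY i0 code hA hB) U
    · constructor
      · intro x y hxy
        by_contra hne
        have hne' : x.1 ≠ y.1 := fun h => hne (Subtype.ext h)
        obtain ⟨H, hH, h1⟩ := separation (i0 := i0) (code := code) x.2 y.2 hne'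
        apply h1
        have h2 : Phi i0 code x.1 = Phi i0 code y.1 := congrArg Subtype.val hxy
        have h3 := congrArg (fun F : BoundedContinuousFunction (BT i0 code) ℝ => F ⟨H, hH⟩) h2
        exact h3
      · rintro ⟨f, x, hx, rfl⟩
        exact ⟨⟨x, hx⟩, rfl⟩
    · intro x₀
      refine ⟨1 / 2, by norm_num, fun x hx y hy => ?_⟩
      have hd : ‖x.1 - y.1‖ ≤ 1 := by
        rw [Metric.mem_ball] at hx hy
        have : dist x y ≤ dist x x₀ + dist y x₀ := dist_triangle_right _ _ _
        have e : dist x y = ‖x.1 - y.1‖ := by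
          rw [Subtype.dist_eq, dist_eq_norm]
        linarith
      have e1 : dist (U x) (U y) = dist (Phi i0 code x.1) (Phi i0 code y.1) := rfl
      have e2 : dist x y = ‖x.1 - y.1‖ := by
        rw [Subtype.dist_eq, dist_eq_norm]
      rw [e1, e2]
      apply le_antisymm
      · rw [BoundedContinuousFunction.dist_le (norm_nonneg _)]
        intro g
        rw [Real.dist_eq]
        exact hlip x.1 y.1 g
      · obtain ⟨H, hH, h1⟩ := local_iso (i0 := i0) (code := code) hd
        rw [← h1]
        have h2 : dist (Phi i0 code x.1 ⟨H, hH⟩) (Phi i0 code y.1 ⟨H, hH⟩) ≤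
            dist (Phi i0 code x.1) (Phi i0 code y.1) :=
          BoundedContinuousFunction.dist_coe_le_dist _
        rw [Real.dist_eq] at h2
        exact (le_abs_self _).trans h2
  have hUs : Function.Surjective U := by
    rintro ⟨f, x, hx, rfl⟩
    exact ⟨⟨x, hx⟩, rfl⟩
  have hU0 : U 0 = 0 := by
    apply Subtype.ext
    ext g
    exact g.2.2.1
  have hmem : ∀ r, Sup (JJ i0 code) (ev i0 r) := fun r => ev_sup (mem_insert _ _) r
  obtain ⟨H, hH, h1⟩ := witness (i0 := i0) (code := code)
  apply h1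
  have e2 : (⟨ev i0 2, hmem 2⟩ : XX i0 code) = (2 : ℝ) • ⟨ev i0 1, hmem 1⟩ := by
    apply Subtype.ext
    ext j
    show ev i0 2 j = (2 : ℝ) * ev i0 1 j
    by_cases hj : j = i0
    · rw [hj, ev_self, ev_self]; norm_num
    · rw [ev_ne hj, ev_ne hj]; norm_num
  have e3 : U (⟨ev i0 2, hmem 2⟩ : XX i0 code) = (2 : ℝ) • U ⟨ev i0 1, hmem 1⟩ := by
    rw [e2]
    exact isometry_smul (U := U) hU hUs hU0 2 ⟨ev i0 1, hmem 1⟩
  have e4 : Phi i0 code (ev i0 2) = (2 : ℝ) • Phi i0 code (ev i0 1) := congrArg Subtype.val e3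
  have e5 := congrArg (fun F : BoundedContinuousFunction (BT i0 code) ℝ => F ⟨H, hH⟩) e4
  exact e5

end properties

section card

open Cardinal

/-- The index set: the initial ordinal of the cardinality of the continuum. -/
abbrev II : Type := (Cardinal.continuum.{0}).ord.ToType

lemma mk_II : #II = 𝔠 := mk_ord_toType _

lemma II_countable (s : Set II) (hs : s.Countable) : ∃ b, ∀ i ∈ s, i < b := by
  by_contra hcon
  push Not at hcon
  have hc : IsCofinal s := hcon
  have h1 : Order.cof II ≤ #s := Order.cof_le hc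
  have h2 : #s ≤ ℵ₀ := hs.le_aleph0
  have h3 : ℵ₀ < Order.cof II := by
    show ℵ₀ < Order.cof (Cardinal.continuum.{0}).ord.ToType
    rw [Ordinal.cof_toType, ← two_power_aleph0]
    exact lt_cof_ord_power le_rfl (by norm_num)
  exact absurd (h1.trans h2) (not_le.2 h3)

lemma mk_E_le {I : Type} (hI : #I = 𝔠) : #(E I) ≤ 𝔠 := by
  have hne : Nonempty I := by
    rw [← mk_ne_zero_iff, hI]
    exact continuum_ne_zero
  obtain ⟨i0⟩ := hne
  let A : E I → Set (I × ℝ) := fun x => insert (i0, 0) {p | x p.1 = p.2 ∧ p.2 ≠ 0}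
  have hAc : ∀ x, (A x).Countable := by
    intro x
    refine Set.Countable.insert _ ?_
    have := (countable_support x).image (fun i => (i, x i))
    refine this.mono ?_
    rintro ⟨i, r⟩ ⟨h1, h2⟩
    simp only at h1 h2
    exact ⟨i, by rw [mem_ofPred_eq, h1]; exact h2, Prod.ext rfl h1⟩
  have hAr : ∀ x, ∃ f : ℕ → I × ℝ, A x = range f := fun x =>
    (hAc x).exists_eq_range ⟨_, mem_insert _ _⟩
  choose f hf using hAr
  have hinj : Function.Injective f := by
    intro x y hxy
    have hA : A x = A y := by rw [hf x, hf y, hxy]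
    have key : ∀ x y : E I, A x = A y → ∀ i, x i ≠ 0 → y i = x i := by
      intro x y hA i hi
      have h1 : (i, x i) ∈ A y := by
        rw [← hA]
        exact Or.inr ⟨rfl, hi⟩
      rcases h1 with h1 | h1
      · exact absurd (Prod.ext_iff.1 h1).2 hi
      · exact h1.1
    ext i
    by_cases hi : x i = 0
    · by_cases hi' : y i = 0
      · rw [hi, hi']
      · exact key y x hA.symm i hi'
    · exact (key x y hA i hi).symm
  have h1 : #(E I) ≤ #(ℕ → I × ℝ) := mk_le_of_injective hinj
  refine h1.trans (le_of_eq ?_)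
  rw [← power_def, mk_prod]
  simp only [lift_id, mk_nat, mk_real, hI]
  rw [continuum_mul_self, continuum_power_aleph0]

lemma mk_Code_le {I : Type} (hI : #I = 𝔠) : #(Code I) ≤ 𝔠 := by
  have h1 : #(ℕ → E I) ≤ 𝔠 := by
    rw [← power_def, mk_nat, ← continuum_power_aleph0]
    exact power_le_power_right (mk_E_le hI)
  simp only [Code, mk_prod, lift_id, mk_real]
  calc #(ℕ → E I) * (#(ℕ → E I) * (𝔠 * 𝔠)) ≤ 𝔠 * (𝔠 * (𝔠 * 𝔠)) := by gcongr
    _ = 𝔠 := by rw [continuum_mul_self, continuum_mul_self, continuum_mul_self]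

lemma II_code : ∃ code : II → Code II, ∀ (v : Code II) (b : II), ∃ γ, b < γ ∧ code γ = v := by
  have h1 : #(Code II × II) ≤ #II := by
    rw [mk_prod, lift_id, lift_id, mk_II]
    calc #(Code II) * 𝔠 ≤ 𝔠 * 𝔠 := by
          gcongr
          exact mk_Code_le mk_II
      _ = 𝔠 := continuum_mul_self
  obtain ⟨g⟩ := h1
  have hne : Nonempty II := by
    rw [← mk_ne_zero_iff, mk_II]
    exact continuum_ne_zero
  have hne' : Nonempty (Code II × II) := ⟨((fun _ => 0), (fun _ => 0), 0, 0), hne.some⟩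
  let e : II → Code II × II := Function.invFun g
  have he : ∀ p, e (g p) = p := Function.leftInverse_invFun g.injective
  refine ⟨fun i => (e i).1, fun v b => ?_⟩
  by_contra hcon
  push Not at hcon
  obtain ⟨b', hb'⟩ := II_countable {b} (countable_singleton b)
  have hbb : b < b' := hb' b rfl
  have hinj : Function.Injective (fun i : II => (⟨g (v, i), by
      have : ¬ b < g (v, i) := fun h => hcon _ h (by rw [he])
      exact (not_lt.1 this).trans_lt hbb⟩ : Iio b')) := by
    intro i j hij
    have h1 : g (v, i) = g (v, j) := congrArg Subtype.val hij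
    exact (Prod.ext_iff.1 (g.injective h1)).2
  have h2 : #II ≤ #(Iio b') := mk_le_of_injective hinj
  have h3 : #(Iio b') < #II := mk_Iio_lt b' (by
    rw [mk_II]
    exact (Ordinal.type_toType _).symm)
  exact absurd h2 (not_le.2 h3)

end card

end

/-- The negation of the preceding statement: For all real Banach spaces X, Y and every bijection U from X to Y that preserves distances on some ball around each point, U preserves all distances (is an isometry). -/
theorem result :
    ¬ (∀ (X Y : Type) [NormedAddCommGroup X] [NormedSpace ℝ X] [CompleteSpace X]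
      [NormedAddCommGroup Y] [NormedSpace ℝ Y] [CompleteSpace Y] (U : X → Y),
      Function.Bijective U →
      (∀ x₀ : X, ∃ r : ℝ, 0 < r ∧ ∀ x ∈ Metric.ball x₀ r, ∀ y ∈ Metric.ball x₀ r,
        dist (U x) (U y) = dist x y) →
      Isometry U) := by
  obtain ⟨code, hcode⟩ := II_code
  have hne : Nonempty II := by
    rw [← Cardinal.mk_ne_zero_iff, mk_II]
    exact Cardinal.continuum_ne_zero
  exact main (code := code) II_countable hcode hne.some

end Pool.Agent.S04412
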