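import Pool.Statements.S04418
import Pool.Agent.Helper615.LogA.Core
import Pool.Agent.Helper615.LogA.B1
import Pool.Agent.Helper615.LogA.C1
import Pool.Agent.Helper615.LogA.C2
import Pool.Agent.Helper615.LogA.C3
import Pool.Agent.Helper615.LogA.D1

set_option autoImplicit false
open Filter Asymptotics
open Pool Pool.MP_f52611_an

namespace Pool.Agent.S04418

open Pool.Agent.Helper615.LogA

/-- The negation of the preceding statement: For α>1, the recurrence coefficients a_n of orthonormal polynomials for exp(-∣x∣^α) satisfy a_n/(n/C(α))^{1/α} ~ Σ A_k n^{-i_k} + (-1)^n Σ B_k n^{-j_k}, exponents increasing to infinity, i_0=0, A_0=1, j_0=α. -/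
theorem result :
    ¬ (∀ α : ℝ, 1 < α →
    ∀ μ : ℕ → ℝ, (∀ k : ℕ, μ k = ∫ x : ℝ, x ^ k * Real.exp (-(|x| ^ α))) →
    ∀ D : ℕ → ℝ, (∀ m : ℕ, D m = (Matrix.of fun i j : Fin m => μ (i.val + j.val)).det) →
    ∀ a : ℕ → ℝ, (∀ n : ℕ, 1 ≤ n → a n = Real.sqrt (D (n + 1) * D (n - 1) / D n ^ 2)) →
    ∃ i j A B : ℕ → ℝ,
      StrictMono i ∧ i 0 = 0 ∧ A 0 = 1 ∧
      StrictMono j ∧ j 0 = α ∧
      Tendsto i atTop atTop ∧ Tendsto j atTop atTop ∧
      ∀ N : ℕ,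
        (fun n : ℕ =>
          a n / ((n : ℝ) / (Real.Gamma (α + 1) / (Real.Gamma (α / 2) * Real.Gamma (α / 2 + 1)))) ^ (1 / α)
            - ∑ k ∈ Finset.range N, A k * (n : ℝ) ^ (-(i k))
            - (-1 : ℝ) ^ n * ∑ k ∈ Finset.range N, B k * (n : ℝ) ^ (-(j k)))
        =O[atTop] (fun n : ℕ => (n : ℝ) ^ (-(min (i N) (j N))))) := by
  intro H
  obtain ⟨P, b, hP0, hP1, hPr, hPb, hPm, hPo, hPpos⟩ := exists_op
  set μ : ℕ → ℝ := fun k => ∫ x : ℝ, x ^ k * Real.exp (-(|x| ^ (3 : ℝ))) with hμdef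
  set D : ℕ → ℝ := fun m => (Matrix.of fun i j : Fin m => μ (i.val + j.val)).det with hDdef
  have hD : ∀ m, D m = ∏ k ∈ Finset.range m, ip (P k) (P k) := fun m =>
    hankel_prod μ D (fun k => rfl) (fun m => rfl) P hPm hPo m
  set a : ℕ → ℝ := fun n => Real.sqrt (D (n + 1) * D (n - 1) / D n ^ 2) with hadef
  obtain ⟨i, j, A, B, hi, hi0, hA0, hj, hj0, hit, hjt, hexp⟩ := H 3 (by norm_num) μ (fun k => rfl) D
    (fun m => rfl) a (fun n _ => rfl)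
  have hDb : ∀ n, 1 ≤ n → D (n + 1) * D (n - 1) / D n ^ 2 = b n := by
    intro n hn
    obtain ⟨m, rfl⟩ : ∃ m, n = m + 1 := ⟨n - 1, by omega⟩
    have h1 : m + 1 - 1 = m := by omega
    rw [h1, hD, hD, hD, Finset.prod_range_succ _ (m + 1), Finset.prod_range_succ _ m]
    have h2 := (hPb (m + 1) hn).2
    rw [h1] at h2
    have h3 : 0 < ∏ k ∈ Finset.range m, ip (P k) (P k) := Finset.prod_pos fun k _ => hPpos k
    have h4 := hPpos m
    rw [h2]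
    field_simp
  have hab : ∀ n, 1 ≤ n → a n ^ 2 = b n := by
    intro n hn
    show Real.sqrt (D (n + 1) * D (n - 1) / D n ^ 2) ^ 2 = b n
    rw [hDb n hn, Real.sq_sqrt (hPb n hn).1.le]
  obtain ⟨Q, hQ⟩ := exists_second_kind P b hP0 hP1 hPr (fun n hn => (hPb n hn).1) hPm hPo
  obtain ⟨v, Cm, hv0, hm⟩ := m_expansion
  set Cc : ℝ := Real.Gamma (3 + 1) / (Real.Gamma (3 / 2) * Real.Gamma (3 / 2 + 1)) with hCc
  have hCpos : 0 < Cc := by
    apply div_pos (Real.Gamma_pos_of_pos (by norm_num))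
    exact mul_pos (Real.Gamma_pos_of_pos (by norm_num)) (Real.Gamma_pos_of_pos (by norm_num))
  obtain ⟨δ, β₀, α, β, e, hδ, hδ', hα, hβ, he, hae⟩ := partB1 a Cc hCpos i j A B hi hi0 hA0 hj hj0
    hit hjt hexp
  have hmu : (∫ x : ℝ, Real.exp (-(|x| ^ (3 : ℝ)))) = ip (P 0) (P 0) := by
    rw [hP0]
    unfold ip w
    simp
  refine core b (Cc ^ (-(2 / 3) : ℝ)) δ β₀ (Real.rpow_pos_of_pos hCpos _) hδ hδ' α β e hα hβ he
    (fun n hn => ⟨(hPb n hn).1, ?_⟩) (∫ x : ℝ, Real.exp (-(|x| ^ (3 : ℝ)))) ?_ Q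
    (fun t ht => ?_) v Cm hv0 (fun t ht ht1 => ?_)
  · rw [← hab n hn]
    exact hae n hn
  · rw [hmu]; exact hPpos 0
  · obtain ⟨h1, -, h2, h3⟩ := hQ t ht
    exact ⟨h1, h2, h3⟩
  · obtain ⟨-, h1, -, -⟩ := hQ t ht
    rw [h1]
    exact hm t ht ht1

end Pool.Agent.S04418
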