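import Pool.Statements.S04423
import Pool.Agent.Helper655.VanDerCorputProduct

set_option autoImplicit false
open Pool Pool.MP_f69e58_an

namespace Pool.Agent.S04423

open Pool.Agent.Helper655.VdC Filter Topology

theorem exists_angle (u : ℂ) (hu : ‖u‖ = 1) :
    ∃ θ : ℝ, θ ∈ Set.Ico 0 (2 * Real.pi) ∧ Complex.exp ((θ : ℂ) * Complex.I) = u := by
  have harg : Complex.exp ((Complex.arg u : ℂ) * Complex.I) = u := by
    have := Complex.norm_mul_exp_arg_mul_I u
    rwa [hu, Complex.ofReal_one, one_mul] at this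
  have h1 := Complex.neg_pi_lt_arg u
  have h2 := Complex.arg_le_pi u
  have hpi := Real.pi_pos
  rcases le_or_gt 0 (Complex.arg u) with h | h
  · exact ⟨Complex.arg u, ⟨h, by linarith⟩, harg⟩
  · refine ⟨Complex.arg u + 2 * Real.pi, ⟨by linarith, by linarith⟩, ?_⟩
    have : ((Complex.arg u + 2 * Real.pi : ℝ) : ℂ) * Complex.I
        = (Complex.arg u : ℂ) * Complex.I + 2 * Real.pi * Complex.I := by push_cast; ring
    rw [this, Complex.exp_add, Complex.exp_two_pi_mul_I, mul_one, harg]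

/-- For p>0, α>-1 and any disc sequence with nondecreasing moduli satisfying ∫₀¹(1-r)^α e^{pN(r)}dr<∞, one can rotate each point so some nonzero analytic f with ∫(1-∣z∣²)^α∣f∣^p dA<∞ vanishes at all rotated points. -/
theorem result :
    ∀ (p α : ℝ), 0 < p → -1 < α →
    ∀ d : ℕ → ℂ, (∀ j, 0 < ‖d j‖) → (∀ j, ‖d j‖ ≤ ‖d (j + 1)‖) → (∀ j, ‖d j‖ < 1) →
    (∀ t : ℝ, t < 1 → {j : ℕ | ‖d j‖ ≤ t}.Finite) →
    MeasureTheory.IntegrableOn
      (fun r : ℝ => (1 - r) ^ α *
        Real.exp (p * ∫ t in (0 : ℝ)..r, (Nat.card {j : ℕ // ‖d j‖ ≤ t} : ℝ) / t))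
      (Set.Ioo 0 1) →
    ∃ θ : ℕ → ℝ, (∀ j, θ j ∈ Set.Ico 0 (2 * Real.pi)) ∧
      ∃ f : ℂ → ℂ, DifferentiableOn ℂ f (Metric.ball 0 1) ∧
        MeasureTheory.IntegrableOn (fun z : ℂ => (1 - ‖z‖ ^ 2) ^ α * ‖f z‖ ^ p)
          (Metric.ball 0 1) ∧
        (∃ z ∈ Metric.ball (0 : ℂ) 1, f z ≠ 0) ∧
        ∀ j, f (d j * Complex.exp ((θ j : ℂ) * Complex.I)) = 0 := by
  intro p α hp _ d hd0 hmono hd1 hfin hint
  set ρ : ℕ → ℝ := fun j => ‖d j‖ with hρdef
  have hρ : Monotone ρ := monotone_nat_of_le_succ hmono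
  have hlim : Tendsto ρ atTop (𝓝 1) := by
    rw [tendsto_order]
    constructor
    · intro t ht
      obtain ⟨B, hB⟩ := (hfin t ht).bddAbove
      filter_upwards [eventually_gt_atTop B] with j hj
      by_contra hcon
      push Not at hcon
      have h1 : j ≤ B := hB hcon
      omega
    · intro t ht
      exact Eventually.of_forall (fun j => lt_trans (hd1 j) ht)
  obtain ⟨f, hf, hft⟩ := exists_limit ρ hρ hd0 hd1 hlim
  -- rotated points
  have hang : ∀ j, ∃ θ : ℝ, θ ∈ Set.Ico 0 (2 * Real.pi) ∧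
      Complex.exp ((θ : ℂ) * Complex.I) = (ρ j : ℂ) * (eta j)⁻¹ / d j := by
    intro j
    apply exists_angle
    rw [norm_div, norm_mul, norm_inv, norm_eta, Complex.norm_real, Real.norm_eq_abs,
      abs_of_pos (hd0 j), inv_one, mul_one]
    exact div_self (hd0 j).ne'
  choose θ hθ1 hθ2 using hang
  refine ⟨θ, hθ1, f, hf, ?_, ?_, ?_⟩
  · apply final_integrable p α hp _ hint f hf 55
    intro z hz
    have hz' := hz
    rw [Metric.mem_ball, dist_zero_right] at hz'
    have h0 := norm_nonneg z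
    have hlimn := (hft z hz).norm
    apply le_of_tendsto' hlimn
    intro n
    refine (main_bound ρ hρ hd0 hd1 n z hz').trans ?_
    apply mul_le_mul_of_nonneg_left _ (Real.exp_pos _).le
    exact prod_le_exp_count ρ hd0 hfin (1 - (1 - ‖z‖) / 80) (by linarith) (by linarith) n
  · refine ⟨0, by simp, ?_⟩
    have h1 : Tendsto (fun n => F ρ n 0) atTop (𝓝 1) := by
      have : ∀ n, F ρ n 0 = 1 := by
        intro n
        unfold F fac
        simp
      simp only [this]
      exact tendsto_const_nhds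
    have h2 := tendsto_nhds_unique (hft 0 (by simp)) h1
    rw [h2]
    exact one_ne_zero
  · intro j
    have hdj : d j ≠ 0 := norm_pos_iff.mp (hd0 j)
    have hpt : d j * Complex.exp ((θ j : ℂ) * Complex.I) = (ρ j : ℂ) * (eta j)⁻¹ := by
      rw [hθ2]
      field_simp
    rw [hpt]
    have hmem : (ρ j : ℂ) * (eta j)⁻¹ ∈ Metric.ball (0 : ℂ) 1 := by
      rw [Metric.mem_ball, dist_zero_right, norm_mul, norm_inv, norm_eta, Complex.norm_real,
        Real.norm_eq_abs, abs_of_pos (hd0 j), inv_one, mul_one]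
      exact hd1 j
    have h1 : Tendsto (fun n => F ρ n ((ρ j : ℂ) * (eta j)⁻¹)) atTop (𝓝 0) := by
      apply tendsto_const_nhds.congr'
      filter_upwards [eventually_gt_atTop j] with n hn
      symm
      unfold F
      apply Finset.prod_eq_zero (Finset.mem_range.mpr hn)
      have he : eta j * ((ρ j : ℂ) * (eta j)⁻¹) = ρ j := by
        have := eta_ne_zero j
        field_simp
      rw [he]
      unfold fac
      have hρj : (ρ j : ℂ) ≠ 0 := by exact_mod_cast (hd0 j).ne'
      rw [div_self hρj, sub_self, zero_div]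
    exact tendsto_nhds_unique (hft _ hmem) h1

end Pool.Agent.S04423
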