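import Pool.Statements.S04426
import Pool.Agent.Helper224.Sw9
-- import your own Pool.Agent.* helpers here

set_option autoImplicit false
open MeasureTheory
open scoped Pointwise
open Pool Pool.MP_f6c0ac_an

namespace Pool.Agent.S04426

/-- The negation of the preceding statement: For any probability measure μ and real Banach space X: if some weakly compact K absorbs every weakly compact set up to ε (L ⊆ nK + εBall), then the Bochner space L¹(μ,X) has such a set too. -/
theorem result :
    ¬ (∀ (Ω : Type) [MeasurableSpace Ω] (μ : Measure Ω) [IsProbabilityMeasure μ]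
      (X : Type) [NormedAddCommGroup X] [NormedSpace ℝ X] [CompleteSpace X],
      (∃ K : Set X, IsCompact (toWeakSpace ℝ X '' K) ∧
        ∀ L : Set X, IsCompact (toWeakSpace ℝ X '' L) → ∀ ε : ℝ, 0 < ε →
          ∃ n : ℕ, L ⊆ (n : ℝ) • K + Metric.closedBall (0 : X) ε) →
      (∃ K : Set (Lp X 1 μ), IsCompact (toWeakSpace ℝ (Lp X 1 μ) '' K) ∧
        ∀ L : Set (Lp X 1 μ), IsCompact (toWeakSpace ℝ (Lp X 1 μ) '' L) →
          ∀ ε : ℝ, 0 < ε →
            ∃ n : ℕ, L ⊆ (n : ℝ) • K + Metric.closedBall (0 : Lp X 1 μ) ε)) := by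
  intro h
  exact Pool.Agent.Helper224.Sw.not_swcg
    (h (ℕ → ℕ → Bool) Pool.Agent.Helper224.Sw.Pm Pool.Agent.Helper224.Sw.X Pool.Agent.Helper224.Sw.swcg')

end Pool.Agent.S04426
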