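import Pool.Statements.S04435
import Pool.Agent.Helper234.Sub.Main

set_option autoImplicit false
open Pool Pool.MP_f85ab1_an

namespace Pool.Agent.S04435

/-- If a unital C*-algebra has a dense, *-closed, multiplicative filtration by finite-dimensional subspaces starting at C1 with dimensions growing subexponentially, then it has the completely positive approximation property through matrix algebras, i.e. it is nuclear. -/
theorem result :
  ∀ (A : Type) [CStarAlgebra A] (F : ℕ → Submodule ℂ A),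
    Monotone F →
    F 0 = Submodule.span ℂ {(1 : A)} →
    (∀ m n : ℕ, ∀ x ∈ F m, ∀ y ∈ F n, x * y ∈ F (m + n)) →
    (∀ n : ℕ, ∀ x ∈ F n, star x ∈ F n) →
    Dense (⋃ n : ℕ, (F n : Set A)) →
    (∀ n : ℕ, FiniteDimensional ℂ (F n)) →
    Filter.Tendsto (fun n : ℕ => ((Module.finrank ℂ (F n) : ℕ) : ℝ) ^ (1 / (n : ℝ)))
      Filter.atTop (nhds 1) →
    ∀ (S : Finset A) (ε : ℝ), 0 < ε →
      ∃ (k : ℕ)
        (φ : A →ₗ[ℂ] (EuclideanSpace ℂ (Fin k) →L[ℂ] EuclideanSpace ℂ (Fin k)))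
        (ψ : (EuclideanSpace ℂ (Fin k) →L[ℂ] EuclideanSpace ℂ (Fin k)) →ₗ[ℂ] A),
        (∀ (n : ℕ) (y : Matrix (Fin n) (Fin n) A),
          ∃ z : Matrix (Fin n) (Fin n)
              (EuclideanSpace ℂ (Fin k) →L[ℂ] EuclideanSpace ℂ (Fin k)),
            (y.conjTranspose * y).map (⇑φ) = z.conjTranspose * z) ∧
        (∀ (n : ℕ) (y : Matrix (Fin n) (Fin n)
              (EuclideanSpace ℂ (Fin k) →L[ℂ] EuclideanSpace ℂ (Fin k))),
          ∃ z : Matrix (Fin n) (Fin n) A,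
            (y.conjTranspose * y).map (⇑ψ) = z.conjTranspose * z) ∧
        (∀ a : A, ‖φ a‖ ≤ ‖a‖) ∧
        (∀ b : EuclideanSpace ℂ (Fin k) →L[ℂ] EuclideanSpace ℂ (Fin k), ‖ψ b‖ ≤ ‖b‖) ∧
        ∀ a ∈ S, ‖ψ (φ a) - a‖ < ε :=
  Pool.Agent.Helper234.Sub.main

end Pool.Agent.S04435
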