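import Pool.Statements.S04439
import Mathlib
import Pool.Agent.Helper523.UF.Final

set_option autoImplicit false
open Pool Pool.MP_f8d220_an

namespace Pool.Agent.S04439

open Pool.Agent.Helper523.UF Filter in
lemma exists_t (ε : ℝ) (hε : 0 < ε) (N : ℕ) : ∃ t : ℕ, 32 ≤ t ∧ N ≤ t ∧ 381 ≤ ε * t ∧ 381 ≤ (1 : ℝ) * t ∧
    4 * ((((t ^ 4) ^ 80 : ℕ) : ℝ) + 1) ^ 2 ≤ Real.exp ((t : ℝ) ^ 2) := by
  have h1 : ∀ᶠ x : ℝ in atTop, x ^ 640 * Real.exp (-x) < 1 / 16 :=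
    (Real.tendsto_pow_mul_exp_neg_atTop_nhds_zero 640).eventually (gt_mem_nhds (by norm_num))
  have h2 : ∀ᶠ t : ℕ in atTop, ((t : ℝ)) ^ 640 * Real.exp (-(t : ℝ)) < 1 / 16 :=
    tendsto_natCast_atTop_atTop.eventually h1
  have h3 : ∀ᶠ t : ℕ in atTop, (381 / ε : ℝ) ≤ t :=
    tendsto_natCast_atTop_atTop.eventually (eventually_ge_atTop _)
  obtain ⟨t, ht⟩ := (h2.and (h3.and ((eventually_ge_atTop 381).and (eventually_ge_atTop N)))).exists
  obtain ⟨ht1, ht2, ht3, ht4⟩ := ht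
  have ht3' : (381 : ℝ) ≤ t := by exact_mod_cast ht3
  refine ⟨t, by omega, ht4, ?_, by linarith, ?_⟩
  · rw [div_le_iff₀ hε] at ht2
    linarith
  · have e1 : (((t ^ 4) ^ 80 : ℕ) : ℝ) = (t : ℝ) ^ 320 := by push_cast; ring
    rw [e1]
    have h5 : (1 : ℝ) ≤ (t : ℝ) ^ 320 := one_le_pow₀ (by linarith)
    have h6 : 4 * ((t : ℝ) ^ 320 + 1) ^ 2 ≤ 16 * (t : ℝ) ^ 640 := by
      have e2 : (t : ℝ) ^ 640 = ((t : ℝ) ^ 320) ^ 2 := by ring
      rw [e2]
      have : ((t : ℝ) ^ 320 + 1) ^ 2 ≤ (2 * (t : ℝ) ^ 320) ^ 2 := by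
        apply pow_le_pow_left₀ (by positivity); linarith
      nlinarith
    have h7 : (t : ℝ) ^ 640 < 1 / 16 * Real.exp t := by
      have h8 : Real.exp (-(t : ℝ)) * Real.exp t = 1 := by rw [← Real.exp_add]; simp
      have h9 : 0 < Real.exp (t : ℝ) := Real.exp_pos _
      calc (t : ℝ) ^ 640 = (t : ℝ) ^ 640 * Real.exp (-(t : ℝ)) * Real.exp t := by
            rw [mul_assoc, h8, mul_one]
        _ < 1 / 16 * Real.exp t := by gcongr
    have h8 : Real.exp (t : ℝ) ≤ Real.exp ((t : ℝ) ^ 2) := by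
      apply Real.exp_le_exp.mpr
      nlinarith
    linarith

/-- For every ε>0 there are arbitrarily large n and a degree-n polynomial with all coefficients of modulus 1 whose derivative's max modulus on the unit circle is at most (1+ε) times its min modulus there. -/
theorem result :
    ∀ ε : ℝ, 0 < ε → ∀ N : ℕ, ∃ n : ℕ, N ≤ n ∧ ∃ a : ℕ → ℂ, (∀ k ≤ n, ‖a k‖ = 1) ∧
      ∀ z w : ℂ, ‖z‖ = 1 → ‖w‖ = 1 →
        ‖∑ k ∈ Finset.range (n + 1), (k : ℂ) * a k * z ^ (k - 1)‖ ≤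
          (1 + ε) * ‖∑ k ∈ Finset.range (n + 1), (k : ℂ) * a k * w ^ (k - 1)‖ := by
  intro ε hε N
  obtain ⟨t, ht32, htN, htε, ht1, htexp⟩ := exists_t ε hε N
  have ht0 : (0 : ℝ) < t := by
    have : (32 : ℝ) ≤ t := by exact_mod_cast ht32
    linarith
  have hm : (1000000 : ℝ) ≤ ((t ^ 4 : ℕ) : ℝ) := by
    push_cast
    have : (32 : ℝ) ≤ t := by exact_mod_cast ht32
    calc (1000000 : ℝ) ≤ 32 ^ 4 := by norm_num
      _ ≤ (t : ℝ) ^ 4 := by gcongr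
  obtain ⟨a, ha1, ha2⟩ := Helper523.UF.explicit hm ((t : ℝ) ^ 2) (by positivity) htexp
  set H := Helper523.UF.Hm (t ^ 4) with hH
  have hHpos : 0 < H := Helper523.UF.Hm_pos hm
  have hHlow : ((t ^ 4 : ℕ) : ℝ) ^ 120 / 2 ≤ H := Helper523.UF.Hm_lower hm
  have e1 : Real.sqrt ((t : ℝ) ^ 2) = t := Real.sqrt_sq ht0.le
  have e2 : Real.sqrt (49 * ((t ^ 4 : ℕ) : ℝ) ^ 239) = 7 * (t : ℝ) ^ 478 := by
    have : 49 * ((t ^ 4 : ℕ) : ℝ) ^ 239 = (7 * (t : ℝ) ^ 478) ^ 2 := by push_cast; ring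
    rw [this, Real.sqrt_sq (by positivity)]
  rw [e1, e2] at ha2
  have hρ : 1 / ((t ^ 4 : ℕ) : ℝ) * H + (2 * t + 7) * (7 * (t : ℝ) ^ 478) ≤ 127 / t * H := by
    have h1 : (t : ℝ) ^ 478 ≤ 2 * H / t ^ 2 := by
      rw [le_div_iff₀ (by positivity)]
      have : ((t ^ 4 : ℕ) : ℝ) ^ 120 = (t : ℝ) ^ 478 * (t : ℝ) ^ 2 := by push_cast; ring
      linarith
    have ht1' : (1 : ℝ) ≤ t := by linarith
    have h2 : (2 * (t : ℝ) + 7) * (7 * (t : ℝ) ^ 478) ≤ 126 / t * H := by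
      calc (2 * (t : ℝ) + 7) * (7 * (t : ℝ) ^ 478) ≤ (2 * (t : ℝ) + 7 * t) * (7 * (2 * H / t ^ 2)) := by
            gcongr; linarith
        _ = 126 / t * H := by field_simp; ring
    have h3 : 1 / ((t ^ 4 : ℕ) : ℝ) * H ≤ 1 / t * H := by
      apply mul_le_mul_of_nonneg_right _ hHpos.le
      apply one_div_le_one_div_of_le ht0
      push_cast
      calc (t : ℝ) = t ^ 1 := by ring
        _ ≤ (t : ℝ) ^ 4 := pow_le_pow_right₀ ht1' (by norm_num)
    have h4 : 127 / (t : ℝ) * H = 1 / t * H + 126 / t * H := by ring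
    linarith
  -- norms on the circle
  have hcirc : ∀ z : ℂ, ‖z‖ = 1 → |‖∑ k ∈ Finset.range ((t ^ 4) ^ 80 + 1), (k : ℂ) * a k * z ^ (k - 1)‖ - H| ≤
      127 / t * H := by
    intro z hz
    have hz0 : z ≠ 0 := by intro h; rw [h, norm_zero] at hz; exact zero_ne_one hz
    set θ : ℝ := z.arg / (2 * Real.pi) with hθ
    have hez : Helper523.UF.e θ = z := by
      unfold Helper523.UF.e
      have h1 : 2 * Real.pi * θ = z.arg := by
        rw [hθ]; field_simp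
      rw [h1]
      have h2 := Complex.norm_mul_exp_arg_mul_I z
      rw [hz, Complex.ofReal_one, one_mul] at h2
      exact h2
    have h3 : ‖∑ k ∈ Finset.range ((t ^ 4) ^ 80 + 1), (k : ℂ) * a k * z ^ (k - 1)‖ =
        ‖∑ k ∈ Finset.range ((t ^ 4) ^ 80 + 1), (k : ℂ) * a k * Helper523.UF.e (k * θ)‖ := by
      have h4 : ∑ k ∈ Finset.range ((t ^ 4) ^ 80 + 1), (k : ℂ) * a k * Helper523.UF.e (k * θ) =
          z * ∑ k ∈ Finset.range ((t ^ 4) ^ 80 + 1), (k : ℂ) * a k * z ^ (k - 1) := by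
        rw [Finset.mul_sum]
        apply Finset.sum_congr rfl
        intro k _
        rw [Helper523.UF.e_nat_mul, hez]
        rcases k with _ | k
        · simp
        · rw [Nat.add_sub_cancel, pow_succ]; ring
      rw [h4, norm_mul, hz, one_mul]
    rw [h3]
    exact (ha2 θ).trans hρ
  refine ⟨(t ^ 4) ^ 80, ?_, a, fun k _ => ha1 k, ?_⟩
  · have ht1n : 1 ≤ t := by omega
    calc N ≤ t := htN
      _ = t ^ 1 := (pow_one t).symm
      _ ≤ t ^ 320 := Nat.pow_le_pow_right ht1n (by norm_num)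
      _ = (t ^ 4) ^ 80 := by rw [← pow_mul]
  · intro z w hz hw
    have h1 := (abs_le.mp (hcirc z hz)).2
    have h2 := (abs_le.mp (hcirc w hw)).1
    set A := ‖∑ k ∈ Finset.range ((t ^ 4) ^ 80 + 1), (k : ℂ) * a k * z ^ (k - 1)‖
    set B := ‖∑ k ∈ Finset.range ((t ^ 4) ^ 80 + 1), (k : ℂ) * a k * w ^ (k - 1)‖
    -- ρ = 127 / t ≤ min(ε,1)/3
    set ρ : ℝ := 127 / t with hρdef
    have hρ1 : ρ ≤ 1 / 3 := by
      rw [hρdef, div_le_div_iff₀ ht0 (by norm_num)]; linarith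
    have hρ2 : ρ ≤ ε / 3 := by
      rw [hρdef, div_le_div_iff₀ ht0 (by norm_num)]; linarith
    have hρ0 : 0 < ρ := by positivity
    have h3 : (1 + ρ) ≤ (1 + ε) * (1 - ρ) := by
      nlinarith
    calc A ≤ (1 + ρ) * H := by linarith
      _ ≤ ((1 + ε) * (1 - ρ)) * H := by gcongr
      _ = (1 + ε) * ((1 - ρ) * H) := by ring
      _ ≤ (1 + ε) * B := by
          apply mul_le_mul_of_nonneg_left _ (by linarith)
          linarith

end Pool.Agent.S04439
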