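import Pool.Statements.S04442
import Pool.Agent.Helper224.Usm10

set_option autoImplicit false
open Pool Pool.MP_f9147b_an

namespace Pool.Agent.S04442

/-- The negation of the preceding statement: Every infinite-dimensional real Banach space has a spreading model, generated by some sequence in it, whose space is reflexive or isomorphic to ℓ_1 or to c_0. -/
theorem result :
    ¬ (∀ (X : Type) [NormedAddCommGroup X] [NormedSpace ℝ X] [CompleteSpace X],
      ¬ FiniteDimensional ℝ X →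
      ∃ (x : ℕ → X) (E : Type) (_ : NormedAddCommGroup E) (_ : NormedSpace ℝ E)
        (_ : CompleteSpace E) (e : ℕ → E),
        LinearIndependent ℝ e ∧
        Dense ((Submodule.span ℝ (Set.range e) : Submodule ℝ E) : Set E) ∧
        (∀ (k : ℕ) (a : Fin k → ℝ) (ε : ℝ), 0 < ε →
          ∃ N : ℕ, ∀ n : Fin k → ℕ, StrictMono n → (∀ i, N ≤ n i) →
            |‖∑ i : Fin k, a i • x (n i)‖ - ‖∑ i : Fin k, a i • e (i : ℕ)‖| < ε) ∧
        (Function.Surjective (NormedSpace.inclusionInDoubleDual ℝ E) ∨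
          Nonempty (E ≃L[ℝ] lp (fun _ : ℕ => ℝ) 1) ∨
          Nonempty (E ≃L[ℝ] ZeroAtInftyContinuousMap ℕ ℝ))) := by
  intro H
  obtain ⟨x, E, _, _, _, f, hf, -, hgen, hcases⟩ := H Helper224.Usm.T Helper224.Usm.T_infinite
  obtain ⟨d, C, c, hc, hU, hL⟩ := Helper224.Usm.main_gen (x := x) (f := f) hgen hf
  rcases hcases with hr | ⟨⟨Φ⟩⟩ | ⟨⟨Φ⟩⟩
  · exact Helper224.Usm.not_reflexive hU hL hc hr
  · exact Helper224.Usm.not_iso_l1 hU hL hc Φ
  · exact Helper224.Usm.not_iso_c0 hU hL hc Φ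

end Pool.Agent.S04442
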