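import Pool.Statements.S04446

set_option autoImplicit false
open Pool Pool.MP_f96253_an

namespace Pool.Agent.S04446


section
open Complex MeasureTheory Set Filter Topology

namespace MellinKernel

lemma lower_bound (w : ℂ) (hw : w ∈ slitPlane) :
    ∃ c : ℝ, 0 < c ∧ c ≤ 1 / 2 ∧ ∀ t : ℝ, 0 ≤ t → c * (1 + t) ≤ ‖(t : ℂ) + w‖ := by
  have hne : ∀ t : ℝ, 0 ≤ t → (t : ℂ) + w ≠ 0 := by
    intro t ht h
    have hw' : w = -(t : ℂ) := by linear_combination h
    rw [hw', mem_slitPlane_iff] at hw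
    rcases hw with h1 | h1
    · simp at h1; linarith
    · simp at h1
  have hK : IsCompact (Icc (0:ℝ) (2 * ‖w‖ + 1)) := isCompact_Icc
  have hKne : (Icc (0:ℝ) (2 * ‖w‖ + 1)).Nonempty := ⟨0, by constructor <;> positivity⟩
  have hcont : ContinuousOn (fun t : ℝ => ‖(t : ℂ) + w‖) (Icc (0:ℝ) (2 * ‖w‖ + 1)) := by fun_prop
  obtain ⟨t0, ht0, hmin⟩ := hK.exists_isMinOn hKne hcont
  set m := ‖(t0 : ℂ) + w‖ with hm
  have hmpos : 0 < m := norm_pos_iff.2 (hne t0 ht0.1)
  have hR : 0 ≤ ‖w‖ := norm_nonneg w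
  have hpos : 0 < 2 * ‖w‖ + 2 := by positivity
  refine ⟨min (1 / 2) (m / (2 * ‖w‖ + 2)), lt_min (by norm_num) (by positivity), min_le_left _ _, ?_⟩
  intro t ht
  rcases le_total t (2 * ‖w‖ + 1) with h | h
  · have h1 : m ≤ ‖(t : ℂ) + w‖ := hmin ⟨ht, h⟩
    calc min (1 / 2) (m / (2 * ‖w‖ + 2)) * (1 + t) ≤ (m / (2 * ‖w‖ + 2)) * (2 * ‖w‖ + 2) := by
          apply mul_le_mul (min_le_right _ _) (by linarith) (by linarith) (by positivity)
      _ = m := div_mul_cancel₀ _ hpos.ne'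
      _ ≤ _ := h1
  · have h1 : t - ‖w‖ ≤ ‖(t : ℂ) + w‖ := by
      have := norm_sub_norm_le (t : ℂ) (-w)
      rw [norm_neg, sub_neg_eq_add, Complex.norm_real, Real.norm_of_nonneg ht] at this
      exact this
    calc min (1 / 2) (m / (2 * ‖w‖ + 2)) * (1 + t) ≤ (1 / 2) * (1 + t) := by
          apply mul_le_mul_of_nonneg_right (min_le_left _ _) (by linarith)
      _ ≤ t - ‖w‖ := by linarith
      _ ≤ _ := h1

lemma integrable_dom (a : ℝ) (h0 : 0 < a) (h1 : a < 1) :
    IntegrableOn (fun t : ℝ => t ^ (a - 1) / (1 + t)) (Ioi 0) := by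
  rw [← Ioc_union_Ioi_eq_Ioi (zero_le_one : (0:ℝ) ≤ 1)]
  have hmeas : Measurable (fun t : ℝ => t ^ (a - 1) / (1 + t)) := by fun_prop
  refine IntegrableOn.union ?_ ?_
  · have h2 : IntervalIntegrable (fun t : ℝ => t ^ (a - 1)) volume 0 1 :=
      intervalIntegral.intervalIntegrable_rpow' (by linarith)
    rw [intervalIntegrable_iff_integrableOn_Ioc_of_le zero_le_one] at h2
    refine Integrable.mono' h2 hmeas.aestronglyMeasurable ?_
    filter_upwards [ae_restrict_mem measurableSet_Ioc] with t ht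
    have htp : 0 < t := ht.1
    rw [Real.norm_of_nonneg (by positivity)]
    exact div_le_self (by positivity) (by linarith)
  · have h2 : IntegrableOn (fun t : ℝ => t ^ (a - 2)) (Ioi 1) :=
      integrableOn_Ioi_rpow_of_lt (by linarith) one_pos
    refine Integrable.mono' h2 hmeas.aestronglyMeasurable ?_
    filter_upwards [ae_restrict_mem measurableSet_Ioi] with t ht
    have htp : 0 < t := lt_trans one_pos ht
    rw [Real.norm_of_nonneg (by positivity)]
    have : t ^ (a - 2) = t ^ (a - 1) / t := by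
      rw [show a - 2 = (a - 1) - 1 by ring, Real.rpow_sub_one htp.ne']
    rw [this]
    gcongr
    linarith

lemma norm_cpow_pos' {t : ℝ} (ht : 0 < t) (s : ℂ) : ‖(t : ℂ) ^ (s - 1)‖ = t ^ (s.re - 1) := by
  rw [Complex.norm_cpow_eq_rpow_re_of_pos ht]
  simp

lemma meas_F (s w : ℂ) : Measurable (fun t : ℝ => (t : ℂ) ^ (s - 1) / ((t : ℂ) + w)) := by
  fun_prop

lemma integrable_F (s : ℂ) (h0 : 0 < s.re) (h1 : s.re < 1) (w : ℂ) (hw : w ∈ slitPlane) :
    IntegrableOn (fun t : ℝ => (t : ℂ) ^ (s - 1) / ((t : ℂ) + w)) (Ioi 0) := by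
  obtain ⟨c, hc0, hc1, hc⟩ := lower_bound w hw
  refine Integrable.mono' ((integrable_dom s.re h0 h1).const_mul c⁻¹) (meas_F s w).aestronglyMeasurable ?_
  filter_upwards [ae_restrict_mem measurableSet_Ioi] with t ht
  have htp : 0 < t := ht
  rw [norm_div, norm_cpow_pos' htp]
  have h2 := hc t htp.le
  have h3 : 0 < c * (1 + t) := by positivity
  calc t ^ (s.re - 1) / ‖(t : ℂ) + w‖ ≤ t ^ (s.re - 1) / (c * (1 + t)) := by gcongr
    _ = c⁻¹ * (t ^ (s.re - 1) / (1 + t)) := by field_simp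

/-- the function -/
noncomputable def J (s w : ℂ) : ℂ := ∫ t in Ioi (0:ℝ), (t : ℂ) ^ (s - 1) / ((t : ℂ) + w)

lemma J_diff (s : ℂ) (h0 : 0 < s.re) (h1 : s.re < 1) : DifferentiableOn ℂ (J s) slitPlane := by
  intro w hw
  obtain ⟨c, hc0, hc1, hc⟩ := lower_bound w hw
  have hball : ∀ w' ∈ Metric.ball w (c / 2), ∀ t : ℝ, 0 ≤ t → c / 2 * (1 + t) ≤ ‖(t : ℂ) + w'‖ := by
    intro w' hw' t ht
    have h2 := hc t ht
    have h3 : ‖w' - w‖ < c / 2 := by simpa [dist_eq_norm] using hw'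
    have h4 : ‖(t : ℂ) + w‖ ≤ ‖(t : ℂ) + w'‖ + ‖w' - w‖ := by
      have : (t : ℂ) + w = ((t : ℂ) + w') - (w' - w) := by ring
      rw [this]; exact norm_sub_le _ _
    nlinarith
  have hpos : ∀ w' ∈ Metric.ball w (c / 2), ∀ t : ℝ, 0 ≤ t → (t : ℂ) + w' ≠ 0 := by
    intro w' hw' t ht h
    have := hball w' hw' t ht
    rw [h, norm_zero] at this
    have : 0 < c / 2 * (1 + t) := by positivity
    linarith
  have key := hasDerivAt_integral_of_dominated_loc_of_deriv_le (μ := volume.restrict (Ioi (0:ℝ)))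
    (F := fun w' (t : ℝ) => (t : ℂ) ^ (s - 1) / ((t : ℂ) + w'))
    (F' := fun w' (t : ℝ) => -((t : ℂ) ^ (s - 1)) / ((t : ℂ) + w') ^ 2)
    (x₀ := w) (s := Metric.ball w (c / 2))
    (bound := fun t => (4 / c ^ 2) * (t ^ (s.re - 1) / (1 + t)))
    (Metric.ball_mem_nhds w (by positivity))
    (Eventually.of_forall fun w' => (meas_F s w').aestronglyMeasurable)
    (integrable_F s h0 h1 w hw)
    (by
      have : Measurable (fun t : ℝ => -((t : ℂ) ^ (s - 1)) / ((t : ℂ) + w) ^ 2) := by fun_prop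
      exact this.aestronglyMeasurable)
    (by
      filter_upwards [ae_restrict_mem measurableSet_Ioi] with t ht w' hw'
      have htp : 0 < t := ht
      rw [norm_div, norm_neg, norm_cpow_pos' htp, norm_pow]
      have h2 := hball w' hw' t htp.le
      have h3 : 0 < c / 2 * (1 + t) := by positivity
      calc t ^ (s.re - 1) / ‖(t : ℂ) + w'‖ ^ 2 ≤ t ^ (s.re - 1) / (c / 2 * (1 + t)) ^ 2 := by gcongr
        _ = (4 / c ^ 2) * (t ^ (s.re - 1) / (1 + t) ^ 2) := by field_simp; ring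
        _ ≤ (4 / c ^ 2) * (t ^ (s.re - 1) / (1 + t)) := by
            gcongr
            nlinarith)
    ((integrable_dom s.re h0 h1).const_mul _)
    (by
      filter_upwards [ae_restrict_mem measurableSet_Ioi] with t ht w' hw'
      have htp : 0 < t := ht
      have hne := hpos w' hw' t htp.le
      have h2 : HasDerivAt (fun w' : ℂ => (t : ℂ) + w') 1 w' := (hasDerivAt_id w').const_add _
      have h3 := (h2.inv hne).const_mul ((t : ℂ) ^ (s - 1))
      simp only [div_eq_mul_inv]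
      refine h3.congr_deriv ?_
      ring)
  exact key.2.differentiableAt.differentiableWithinAt

lemma J_real (s : ℂ) (x : ℝ) (hx : 0 < x) : J s x = J s 1 * (x : ℂ) ^ (s - 1) := by
  have hxc : (x : ℂ) ≠ 0 := by exact_mod_cast hx.ne'
  have h := integral_comp_mul_left_Ioi (fun t : ℝ => (t : ℂ) ^ (s - 1) / ((t : ℂ) + x)) 0 hx
  rw [mul_zero] at h
  have h2 : ∫ t in Ioi (0:ℝ), ((x * t : ℝ) : ℂ) ^ (s - 1) / (((x * t : ℝ) : ℂ) + x) =
      ∫ t in Ioi (0:ℝ), ((x : ℂ) ^ (s - 1) * (x : ℂ)⁻¹) * ((t : ℂ) ^ (s - 1) / ((t : ℂ) + 1)) := by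
    refine setIntegral_congr_fun measurableSet_Ioi fun t ht => ?_
    have htp : 0 < t := ht
    have hne : (t : ℂ) + 1 ≠ 0 := by
      have : (0:ℝ) < t + 1 := by positivity
      exact_mod_cast this.ne'
    rw [ofReal_mul, mul_cpow_ofReal_nonneg hx.le htp.le]
    have : (x : ℂ) * t + x = x * (t + 1) := by ring
    rw [this]
    field_simp
  rw [h2, integral_const_mul] at h
  have h3 : J s x = x • (((x : ℂ) ^ (s - 1) * (x : ℂ)⁻¹) * J s 1) := by
    unfold J
    rw [h, smul_smul, mul_inv_cancel₀ hx.ne', one_smul]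
  rw [h3, Complex.real_smul]
  field_simp

lemma J_one (s : ℂ) (h0 : 0 < s.re) (h1 : s.re < 1) :
    J s 1 = (Real.pi : ℂ) / Complex.sin (Real.pi * s) := by
  have hb : Gamma s * Gamma (1 - s) = betaIntegral s (1 - s) := by
    rw [Gamma_mul_Gamma_eq_betaIntegral h0 (by simp; linarith)]
    simp
  rw [← Complex.Gamma_mul_Gamma_one_sub, hb]
  unfold betaIntegral J
  rw [intervalIntegral.integral_of_le zero_le_one, integral_Ioc_eq_integral_Ioo]
  have himg : (fun t : ℝ => t / (1 + t)) '' (Ioi 0) = Ioo 0 1 := by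
    ext x
    constructor
    · rintro ⟨t, ht, rfl⟩
      have htp : 0 < t := ht
      refine ⟨by positivity, ?_⟩
      rw [div_lt_one (by positivity)]; linarith
    · rintro ⟨hx0, hx1⟩
      have : 0 < 1 - x := by linarith
      refine ⟨x / (1 - x), div_pos hx0 this, ?_⟩
      simp only
      field_simp
      ring
  have hder : ∀ t ∈ Ioi (0:ℝ), HasDerivWithinAt (fun t : ℝ => t / (1 + t)) (1 / (1 + t) ^ 2) (Ioi 0) t := by
    intro t ht
    have htp : 0 < t := ht
    have h2 : HasDerivAt (fun t : ℝ => 1 + t) 1 t := (hasDerivAt_id t).const_add 1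
    have h3 := (hasDerivAt_id t).div h2 (by positivity)
    refine (h3.congr_deriv ?_).hasDerivWithinAt
    simp only [id]
    field_simp
    ring
  have hinj : InjOn (fun t : ℝ => t / (1 + t)) (Ioi 0) := by
    intro a ha b hb hab
    have ha' : 0 < a := ha
    have hb' : 0 < b := hb
    simp only at hab
    rw [div_eq_div_iff (by positivity) (by positivity)] at hab
    linarith
  have := integral_image_eq_integral_abs_deriv_smul measurableSet_Ioi hder hinj
    (fun x : ℝ => (x : ℂ) ^ (s - 1) * (1 - (x : ℂ)) ^ (1 - s - 1))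
  rw [himg] at this
  rw [this]
  refine setIntegral_congr_fun measurableSet_Ioi fun t ht => ?_
  have htp : 0 < t := ht
  have h1t : 0 < 1 + t := by positivity
  have hx : (1 : ℂ) - ((t / (1 + t) : ℝ) : ℂ) = (((1 + t)⁻¹ : ℝ) : ℂ) := by
    rw [← ofReal_one, ← ofReal_sub]
    congr 1
    field_simp
    ring
  have hexp : ∀ (a : ℝ) (z : ℂ), 0 < a → (a : ℂ) ^ z = exp ((Real.log a : ℂ) * z) := by
    intro a z ha
    rw [cpow_def_of_ne_zero (by exact_mod_cast ha.ne'), ofReal_log ha.le]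
  rw [hx, hexp _ _ htp, hexp _ _ (div_pos htp h1t), hexp _ _ (inv_pos.2 h1t), ← exp_add,
    Real.log_div htp.ne' h1t.ne', Real.log_inv, abs_of_pos (by positivity), Complex.real_smul]
  have e1 : ((1 / (1 + t) ^ 2 : ℝ) : ℂ) = exp (-(2 * (Real.log (1 + t) : ℂ))) := by
    rw [show -(2 * (Real.log (1 + t) : ℂ)) = ((-(2 * Real.log (1 + t)) : ℝ) : ℂ) by push_cast; ring,
      ← ofReal_exp]
    congr 1
    rw [Real.exp_neg, two_mul, Real.exp_add, Real.exp_log h1t]
    field_simp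
  have e2 : ((t : ℂ) + 1) = exp ((Real.log (1 + t) : ℂ)) := by
    rw [← ofReal_exp, Real.exp_log h1t]
    push_cast; ring
  rw [e1, e2, ← exp_add, ← exp_sub]
  congr 1
  push_cast
  ring

/-- Stieltjes/Mellin kernel: for `0 < Re s < 1` and `w` in the slit plane,
`∫_0^∞ t^(s-1)/(t+w) dt = π/sin(π s) · w^(s-1)`. -/
theorem mellin_kernel (s : ℂ) (h0 : 0 < s.re) (h1 : s.re < 1) (w : ℂ) (hw : w ∈ slitPlane) :
    IntegrableOn (fun t : ℝ => (t : ℂ) ^ (s - 1) / ((t : ℂ) + w)) (Ioi 0) ∧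
    ∫ t in Ioi (0:ℝ), (t : ℂ) ^ (s - 1) / ((t : ℂ) + w)
      = ((Real.pi : ℂ) / Complex.sin (Real.pi * s)) * w ^ (s - 1) := by
  refine ⟨integrable_F s h0 h1 w hw, ?_⟩
  rw [← J_one s h0 h1]
  have hA : AnalyticOnNhd ℂ (J s) slitPlane := (J_diff s h0 h1).analyticOnNhd isOpen_slitPlane
  have hB : AnalyticOnNhd ℂ (fun w => J s 1 * w ^ (s - 1)) slitPlane := by
    refine DifferentiableOn.analyticOnNhd ?_ isOpen_slitPlane
    intro w hw
    exact ((differentiableAt_id.cpow_const hw).const_mul _).differentiableWithinAt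
  have hpre : IsPreconnected slitPlane :=
    ((Complex.starConvex_one_slitPlane).isPathConnected one_mem_slitPlane).isConnected.isPreconnected
  have hfr : ∃ᶠ z in 𝓝[≠] (1:ℂ), J s z = J s 1 * z ^ (s - 1) := by
    have hseq : Tendsto (fun n : ℕ => ((1 + 1 / ((n : ℝ) + 1) : ℝ) : ℂ)) atTop (𝓝[≠] (1:ℂ)) := by
      rw [tendsto_nhdsWithin_iff]
      refine ⟨?_, Eventually.of_forall fun n => ?_⟩
      · have h2 : Tendsto (fun n : ℕ => (1 + 1 / ((n : ℝ) + 1) : ℝ)) atTop (𝓝 (1 + 0)) :=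
          tendsto_one_div_add_atTop_nhds_zero_nat.const_add 1
        rw [add_zero] at h2
        exact (continuous_ofReal.tendsto 1).comp h2
      · have : (0:ℝ) < 1 / ((n : ℝ) + 1) := by positivity
        simp only [mem_compl_iff, mem_singleton_iff]
        intro h
        rw [← ofReal_one] at h
        have := ofReal_injective h
        linarith
    refine hseq.frequently (Frequently.of_forall fun n => ?_)
    exact J_real s _ (by positivity)
  exact hA.eqOn_of_preconnected_of_frequently_eq hB hpre one_mem_slitPlane hfr hw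

end MellinKernel

end

section
open Complex MeasureTheory Set Filter Topology

namespace RayMain

noncomputable section

/-- small parameter -/
def ep : ℝ := 1 / 100000

/-- frequency -/
def om : ℝ := 100000

/-- order -/
def rho : ℝ := Real.pi / (2 * (Real.pi - ep))

theorem ep_pos : 0 < ep := by unfold ep; norm_num

theorem om_ep : om * ep = 1 := by unfold om ep; norm_num

theorem rho_mul : rho * (Real.pi - ep) = Real.pi / 2 := by
  have : Real.pi - ep ≠ 0 := by
    have := Real.pi_gt_three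
    have : ep < 1 := by unfold ep; norm_num
    linarith
  unfold rho
  field_simp

theorem rho_gt : 1 / 2 < rho := by
  have h := rho_mul
  have h3 := Real.pi_gt_three
  have he := ep_pos
  by_contra hc
  push Not at hc
  have h1 : Real.pi - ep > 0 := by unfold ep; linarith
  nlinarith

theorem rho_lt : rho < 5001 / 10000 := by
  have h := rho_mul
  have h3 := Real.pi_gt_three
  have he := ep_pos
  by_contra hc
  push Not at hc
  have h1 : Real.pi - ep > 0 := by unfold ep; linarith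
  have : (5001 / 10000 : ℝ) * (Real.pi - ep) ≤ Real.pi / 2 := by
    rw [← h]; exact mul_le_mul_of_nonneg_right hc h1.le
  unfold ep at this
  linarith

def s1 : ℂ := (rho : ℂ) + (om : ℂ) * I

def s2 : ℂ := (rho : ℂ) + (2 * om : ℂ) * I

/-- coefficient, `16 i ε² e^{1 - ω π}` -/
def C1 : ℂ := ((16 * ep ^ 2 * Real.exp (1 - om * Real.pi) : ℝ) : ℂ) * I

def C2 : ℂ := ((4 * ep ^ 2 * Real.exp (2 - 2 * om * Real.pi) : ℝ) : ℂ)

def g1 : ℂ := (2 / (Real.pi : ℂ)) * (C1 * Complex.sin (Real.pi * s1))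

def g2 : ℂ := (2 / (Real.pi : ℂ)) * (C2 * Complex.sin (Real.pi * s2))

/-- periodic factor -/
def pp (x : ℝ) : ℝ := 1 + (g1 * Complex.exp ((om * x : ℝ) * I) + g2 * Complex.exp ((2 * om * x : ℝ) * I)).re

/-- smooth counting function of the zeros -/
def NN (t : ℝ) : ℝ := t ^ rho * pp (Real.log t)

theorem norm_sin_le (z : ℂ) : ‖Complex.sin z‖ ≤ Real.exp |z.im| := by
  rw [Complex.sin]
  have h1 : ‖Complex.exp (-z * I)‖ ≤ Real.exp |z.im| := by
    rw [Complex.norm_exp]
    apply Real.exp_le_exp.2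
    simp
    exact le_abs_self _
  have h2 : ‖Complex.exp (z * I)‖ ≤ Real.exp |z.im| := by
    rw [Complex.norm_exp]
    apply Real.exp_le_exp.2
    simp
    exact neg_le_abs _
  rw [norm_div, norm_mul, Complex.norm_I, mul_one]
  have h3 := norm_sub_le (Complex.exp (-z * I)) (Complex.exp (z * I))
  have : ‖(2 : ℂ)‖ = 2 := by simp
  rw [this]
  linarith

theorem norm_g1 : ‖g1‖ ≤ 28 * ep ^ 2 := by
  have h := norm_sin_le (Real.pi * s1)
  have him : (Real.pi * s1 : ℂ).im = Real.pi * om := by simp [s1]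
  have hom : 0 < om := by unfold om; norm_num
  rw [him, abs_of_pos (mul_pos Real.pi_pos hom)] at h
  have hC : ‖C1‖ = 16 * ep ^ 2 * Real.exp (1 - om * Real.pi) := by
    unfold C1
    rw [norm_mul, Complex.norm_I, mul_one, Complex.norm_real, Real.norm_of_nonneg]
    positivity
  have h2 : ‖g1‖ = 2 / Real.pi * (‖C1‖ * ‖Complex.sin (Real.pi * s1)‖) := by
    unfold g1
    rw [norm_mul, norm_mul, norm_div, Complex.norm_real, Real.norm_of_nonneg Real.pi_pos.le]
    simp
  have h3 : ‖C1‖ * ‖Complex.sin (Real.pi * s1)‖ ≤ 16 * ep ^ 2 * Real.exp 1 := by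
    calc ‖C1‖ * ‖Complex.sin (Real.pi * s1)‖
        ≤ (16 * ep ^ 2 * Real.exp (1 - om * Real.pi)) * Real.exp (Real.pi * om) := by
          rw [hC]; gcongr
      _ = 16 * ep ^ 2 * Real.exp 1 := by
          rw [mul_assoc, ← Real.exp_add]; congr 2; ring
  rw [h2]
  have he : Real.exp 1 < 2.7182818286 := Real.exp_one_lt_d9
  have hp := Real.pi_gt_three
  have h4 : 2 / Real.pi ≤ 2 / 3 := by
    apply div_le_div_of_nonneg_left <;> linarith
  have h5 : 0 ≤ ‖C1‖ * ‖Complex.sin (Real.pi * s1)‖ := by positivity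
  have hee : 0 < ep ^ 2 := by have := ep_pos; positivity
  calc 2 / Real.pi * (‖C1‖ * ‖Complex.sin (Real.pi * s1)‖)
      ≤ 2 / Real.pi * (16 * ep ^ 2 * Real.exp 1) := by gcongr
    _ ≤ 28 * ep ^ 2 := by
      have h6 : 2 / Real.pi < 0.6367 := by
        rw [div_lt_iff₀ Real.pi_pos]
        have := Real.pi_gt_d4
        linarith
      have h7 : 2 / Real.pi * (16 * Real.exp 1) ≤ 28 := by
        have : 0 < Real.exp 1 := Real.exp_pos 1
        nlinarith
      nlinarith

theorem norm_g2 : ‖g2‖ ≤ 20 * ep ^ 2 := by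
  have h := norm_sin_le (Real.pi * s2)
  have him : (Real.pi * s2 : ℂ).im = Real.pi * (2 * om) := by simp [s2]
  have hom : 0 < om := by unfold om; norm_num
  rw [him, abs_of_pos (by positivity)] at h
  have hC : ‖C2‖ = 4 * ep ^ 2 * Real.exp (2 - 2 * om * Real.pi) := by
    unfold C2
    rw [Complex.norm_real, Real.norm_of_nonneg]
    positivity
  have h2 : ‖g2‖ = 2 / Real.pi * (‖C2‖ * ‖Complex.sin (Real.pi * s2)‖) := by
    unfold g2
    rw [norm_mul, norm_mul, norm_div, Complex.norm_real, Real.norm_of_nonneg Real.pi_pos.le]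
    simp
  have h3 : ‖C2‖ * ‖Complex.sin (Real.pi * s2)‖ ≤ 4 * ep ^ 2 * Real.exp 2 := by
    calc ‖C2‖ * ‖Complex.sin (Real.pi * s2)‖
        ≤ (4 * ep ^ 2 * Real.exp (2 - 2 * om * Real.pi)) * Real.exp (Real.pi * (2 * om)) := by
          rw [hC]; gcongr
      _ = 4 * ep ^ 2 * Real.exp 2 := by
          rw [mul_assoc, ← Real.exp_add]; congr 2; ring
  rw [h2]
  have he : Real.exp 2 < 7.4 := by
    have h1 : Real.exp 2 = Real.exp 1 * Real.exp 1 := by rw [← Real.exp_add]; norm_num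
    have he : Real.exp 1 < 2.7182818286 := Real.exp_one_lt_d9
    have h0 : 0 < Real.exp 1 := Real.exp_pos 1
    rw [h1]; nlinarith
  have h5 : 0 ≤ ‖C2‖ * ‖Complex.sin (Real.pi * s2)‖ := by positivity
  have hee : 0 < ep ^ 2 := by have := ep_pos; positivity
  calc 2 / Real.pi * (‖C2‖ * ‖Complex.sin (Real.pi * s2)‖)
      ≤ 2 / Real.pi * (4 * ep ^ 2 * Real.exp 2) := by gcongr
    _ ≤ 20 * ep ^ 2 := by
      have h6 : 2 / Real.pi < 0.6367 := by
        rw [div_lt_iff₀ Real.pi_pos]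
        have := Real.pi_gt_d4
        linarith
      have h7 : 2 / Real.pi * (4 * Real.exp 2) ≤ 20 := by
        have : 0 < Real.exp 2 := Real.exp_pos 2
        nlinarith
      nlinarith

theorem pp_bounds (x : ℝ) : |pp x - 1| ≤ 48 * ep ^ 2 := by
  unfold pp
  rw [add_sub_cancel_left]
  have h1 : ‖Complex.exp ((om * x : ℝ) * I)‖ = 1 := Complex.norm_exp_ofReal_mul_I _
  have h2 : ‖Complex.exp ((2 * om * x : ℝ) * I)‖ = 1 := Complex.norm_exp_ofReal_mul_I _
  calc |(g1 * Complex.exp ((om * x : ℝ) * I) + g2 * Complex.exp ((2 * om * x : ℝ) * I)).re|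
      ≤ ‖g1 * Complex.exp ((om * x : ℝ) * I) + g2 * Complex.exp ((2 * om * x : ℝ) * I)‖ :=
        Complex.abs_re_le_norm _
    _ ≤ ‖g1 * Complex.exp ((om * x : ℝ) * I)‖ + ‖g2 * Complex.exp ((2 * om * x : ℝ) * I)‖ :=
        norm_add_le _ _
    _ ≤ 48 * ep ^ 2 := by
        rw [norm_mul, norm_mul, h1, h2]
        have := norm_g1; have := norm_g2
        linarith

theorem pp_lo (x : ℝ) : 1 / 2 ≤ pp x := by
  have h := pp_bounds x
  rw [abs_le] at h
  unfold ep at h
  linarith [h.1]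

theorem pp_hi (x : ℝ) : pp x ≤ 2 := by
  have h := pp_bounds x
  rw [abs_le] at h
  unfold ep at h
  linarith [h.2]

theorem rho_pos : 0 < rho := by linarith [rho_gt]

theorem NN_zero : NN 0 = 0 := by
  unfold NN
  rw [Real.zero_rpow rho_pos.ne', zero_mul]

theorem NN_lo (x : ℝ) (hx : 0 ≤ x) : x ^ rho / 2 ≤ NN x := by
  unfold NN
  have := pp_lo (Real.log x)
  have h := Real.rpow_nonneg hx rho
  nlinarith

theorem NN_hi (x : ℝ) (hx : 0 ≤ x) : NN x ≤ 2 * x ^ rho := by
  unfold NN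
  have := pp_hi (Real.log x)
  have h := Real.rpow_nonneg hx rho
  nlinarith

theorem continuous_pp : Continuous pp := by
  unfold pp
  fun_prop

theorem continuousOn_NN : ContinuousOn NN (Ici 0) := by
  intro x hx
  rcases eq_or_lt_of_le (show (0:ℝ) ≤ x from hx) with h0 | h0
  · subst h0
    have h1 : Tendsto (fun x : ℝ => 2 * x ^ rho) (𝓝 0) (𝓝 0) := by
      have : Continuous (fun x : ℝ => 2 * x ^ rho) :=
        continuous_const.mul (Real.continuous_rpow_const rho_pos.le)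
      have h := this.tendsto 0
      rw [Real.zero_rpow rho_pos.ne', mul_zero] at h
      exact h
    rw [ContinuousWithinAt, NN_zero]
    refine squeeze_zero' ?_ ?_ (h1.mono_left nhdsWithin_le_nhds)
    · filter_upwards [self_mem_nhdsWithin] with t ht
      have := NN_lo t ht
      have h := Real.rpow_nonneg (show (0:ℝ) ≤ t from ht) rho
      linarith
    · filter_upwards [self_mem_nhdsWithin] with t ht
      exact NN_hi t ht
  · apply ContinuousAt.continuousWithinAt
    unfold NN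
    apply ContinuousAt.mul
    · exact Real.continuousAt_rpow_const _ _ (Or.inl h0.ne')
    · exact continuous_pp.continuousAt.comp (Real.continuousAt_log h0.ne')

/-- derivative of the logarithmic form -/
theorem hasDerivAt_pp (x : ℝ) : HasDerivAt pp
    ((g1 * (Complex.exp ((om * x : ℝ) * I) * ((om : ℂ) * I))
      + g2 * (Complex.exp ((2 * om * x : ℝ) * I) * ((2 * om : ℂ) * I))).re) x := by
  unfold pp
  have h1 : HasDerivAt (fun x : ℝ => g1 * Complex.exp ((om * x : ℝ) * I))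
      (g1 * (Complex.exp ((om * x : ℝ) * I) * ((om : ℂ) * I))) x := by
    apply HasDerivAt.const_mul
    apply HasDerivAt.cexp
    have : HasDerivAt (fun x : ℝ => ((om * x : ℝ) : ℂ)) (om : ℂ) x := by
      have := (((hasDerivAt_id x).const_mul om).ofReal_comp)
      simpa using this
    exact this.mul_const I
  have h2 : HasDerivAt (fun x : ℝ => g2 * Complex.exp ((2 * om * x : ℝ) * I))
      (g2 * (Complex.exp ((2 * om * x : ℝ) * I) * ((2 * om : ℂ) * I))) x := by
    apply HasDerivAt.const_mul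
    apply HasDerivAt.cexp
    have : HasDerivAt (fun x : ℝ => ((2 * om * x : ℝ) : ℂ)) (2 * om : ℂ) x := by
      have := (((hasDerivAt_id x).const_mul (2 * om)).ofReal_comp)
      simpa using this
    exact this.mul_const I
  have h3 := (h1.add h2)
  have h4 := Complex.reCLM.hasFDerivAt.comp_hasDerivAt x h3
  have h5 := h4.const_add 1
  simpa using h5

theorem deriv_bound (x : ℝ) : |(g1 * (Complex.exp ((om * x : ℝ) * I) * ((om : ℂ) * I))
      + g2 * (Complex.exp ((2 * om * x : ℝ) * I) * ((2 * om : ℂ) * I))).re| ≤ 68 * ep := by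
  have h1 : ‖Complex.exp ((om * x : ℝ) * I)‖ = 1 := Complex.norm_exp_ofReal_mul_I _
  have h2 : ‖Complex.exp ((2 * om * x : ℝ) * I)‖ = 1 := Complex.norm_exp_ofReal_mul_I _
  have hom : 0 < om := by unfold om; norm_num
  have h3 : ‖(om : ℂ)‖ = om := by rw [Complex.norm_real, Real.norm_of_nonneg hom.le]
  calc |(g1 * (Complex.exp ((om * x : ℝ) * I) * ((om : ℂ) * I))
      + g2 * (Complex.exp ((2 * om * x : ℝ) * I) * ((2 * om : ℂ) * I))).re|
      ≤ ‖g1 * (Complex.exp ((om * x : ℝ) * I) * ((om : ℂ) * I))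
      + g2 * (Complex.exp ((2 * om * x : ℝ) * I) * ((2 * om : ℂ) * I))‖ :=
        Complex.abs_re_le_norm _
    _ ≤ ‖g1 * (Complex.exp ((om * x : ℝ) * I) * ((om : ℂ) * I))‖
      + ‖g2 * (Complex.exp ((2 * om * x : ℝ) * I) * ((2 * om : ℂ) * I))‖ := norm_add_le _ _
    _ = ‖g1‖ * om + ‖g2‖ * (2 * om) := by
        simp only [norm_mul, h1, h2, Complex.norm_I, h3]
        simp
    _ ≤ (28 * ep ^ 2) * om + (20 * ep ^ 2) * (2 * om) := by
        have := norm_g1; have := norm_g2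
        gcongr
    _ = 68 * ep * (om * ep) := by ring
    _ = 68 * ep := by rw [om_ep, mul_one]

theorem strictMono_expForm : StrictMono (fun x : ℝ => Real.exp (rho * x) * pp x) := by
  apply strictMono_of_hasDerivAt_pos (f' := fun x => Real.exp (rho * x) * rho * pp x
    + Real.exp (rho * x) * ((g1 * (Complex.exp ((om * x : ℝ) * I) * ((om : ℂ) * I))
      + g2 * (Complex.exp ((2 * om * x : ℝ) * I) * ((2 * om : ℂ) * I))).re))
  · intro x
    have h1 : HasDerivAt (fun x : ℝ => Real.exp (rho * x)) (Real.exp (rho * x) * rho) x := by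
      have := ((hasDerivAt_id x).const_mul rho).exp
      simpa using this
    exact h1.mul (hasDerivAt_pp x)
  · intro x
    have h1 := pp_lo x
    have h2 := deriv_bound x
    rw [abs_le] at h2
    have h3 := rho_gt
    have h4 := Real.exp_pos (rho * x)
    have h5 : 0 < rho * pp x - 68 * ep := by
      unfold ep; nlinarith
    nlinarith [mul_pos h4 h5, h2.1]

theorem strictMonoOn_NN : StrictMonoOn NN (Ici 0) := by
  intro x hx y hy hxy
  rcases eq_or_lt_of_le (show (0:ℝ) ≤ x from hx) with h0 | h0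
  · subst h0
    rw [NN_zero]
    have := NN_lo y hy
    have h := Real.rpow_pos_of_pos hxy rho
    linarith
  · have hy0 : 0 < y := h0.trans hxy
    have h1 : ∀ t : ℝ, 0 < t → NN t = Real.exp (rho * Real.log t) * pp (Real.log t) := by
      intro t ht
      unfold NN
      rw [Real.rpow_def_of_pos ht, mul_comm rho]
    rw [h1 x h0, h1 y hy0]
    exact strictMono_expForm (Real.log_lt_log h0 hxy)

end

end RayMain

end

section
open Complex MeasureTheory Set Filter Topology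

namespace RayMain

noncomputable section

/-- `π / sin (π ρ)` -/
def AA : ℝ := Real.pi / Real.sin (Real.pi * rho)

/-- main profile -/
def HH (x y : ℝ) : ℂ :=
  (AA : ℂ) * (-I) * Complex.exp (((rho * ep * y : ℝ) : ℂ) * I)
  + ((16 * ep ^ 2 * Real.exp (-y) : ℝ) : ℂ) * Complex.exp (((om * x + rho * ep * y : ℝ) : ℂ) * I)
  + ((4 * ep ^ 2 * Real.exp (-2 * y) : ℝ) : ℂ) * (-I)
      * Complex.exp (((2 * om * x + rho * ep * y : ℝ) : ℂ) * I)

theorem sin_ne_zero_of_re {s : ℂ} (h0 : 0 < s.re) (h1 : s.re < 1) :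
    Complex.sin (Real.pi * s) ≠ 0 := by
  intro h
  rw [Complex.sin_eq_zero_iff] at h
  obtain ⟨k, hk⟩ := h
  have hpi : (Real.pi : ℂ) ≠ 0 := by exact_mod_cast Real.pi_ne_zero
  have : s = k := by
    have : (Real.pi : ℂ) * s = Real.pi * k := by rw [hk]; ring
    exact mul_left_cancel₀ hpi this
  rw [this] at h0 h1
  simp at h0 h1
  norm_cast at h0 h1
  omega

/-- the conjugate exponent -/
theorem half_re (a : ℂ) : ((a.re : ℝ) : ℂ) = (a + (starRingEnd ℂ) a) / 2 := by
  rw [Complex.re_eq_add_conj]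

theorem NN_div (x : ℝ) (hx : 0 < x) (w : ℂ) :
    (NN x : ℂ) / ((x : ℂ) * ((x : ℂ) + w)) =
      (x : ℂ) ^ ((rho : ℂ) - 1) / ((x : ℂ) + w)
      + (g1 / 2) * ((x : ℂ) ^ (s1 - 1) / ((x : ℂ) + w))
      + ((starRingEnd ℂ) g1 / 2) * ((x : ℂ) ^ ((starRingEnd ℂ) s1 - 1) / ((x : ℂ) + w))
      + (g2 / 2) * ((x : ℂ) ^ (s2 - 1) / ((x : ℂ) + w))
      + ((starRingEnd ℂ) g2 / 2) * ((x : ℂ) ^ ((starRingEnd ℂ) s2 - 1) / ((x : ℂ) + w)) := by
  have hx0 : (x : ℂ) ≠ 0 := by exact_mod_cast hx.ne'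
  have hpow : ∀ s : ℂ, (x : ℂ) ^ (s - 1) = (x : ℂ) ^ s / x := by
    intro s
    rw [Complex.cpow_sub _ _ hx0, Complex.cpow_one]
  have hcs : ∀ s : ℂ, (x : ℂ) ^ s = Complex.exp ((Real.log x : ℂ) * s) := by
    intro s
    rw [Complex.cpow_def_of_ne_zero hx0, Complex.ofReal_log hx.le]
  have hN : (NN x : ℂ) = (x : ℂ) ^ (rho : ℂ) + (g1 / 2) * (x : ℂ) ^ s1
      + ((starRingEnd ℂ) g1 / 2) * (x : ℂ) ^ ((starRingEnd ℂ) s1)
      + (g2 / 2) * (x : ℂ) ^ s2
      + ((starRingEnd ℂ) g2 / 2) * (x : ℂ) ^ ((starRingEnd ℂ) s2) := by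
    have h1 : (x : ℂ) ^ s1 = (x : ℂ) ^ (rho : ℂ) * Complex.exp ((om * Real.log x : ℝ) * I) := by
      rw [hcs, hcs, ← Complex.exp_add]
      congr 1
      unfold s1
      push_cast
      ring
    have h2 : (x : ℂ) ^ s2 = (x : ℂ) ^ (rho : ℂ)
        * Complex.exp ((2 * om * Real.log x : ℝ) * I) := by
      rw [hcs, hcs, ← Complex.exp_add]
      congr 1
      unfold s2
      push_cast
      ring
    have h3 : (x : ℂ) ^ ((starRingEnd ℂ) s1) = (x : ℂ) ^ (rho : ℂ)
        * (starRingEnd ℂ) (Complex.exp ((om * Real.log x : ℝ) * I)) := by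
      rw [← Complex.exp_conj, hcs, hcs, ← Complex.exp_add]
      congr 1
      unfold s1
      simp only [map_add, map_mul, Complex.conj_ofReal, Complex.conj_I]
      push_cast
      ring
    have h4 : (x : ℂ) ^ ((starRingEnd ℂ) s2) = (x : ℂ) ^ (rho : ℂ)
        * (starRingEnd ℂ) (Complex.exp ((2 * om * Real.log x : ℝ) * I)) := by
      rw [← Complex.exp_conj, hcs, hcs, ← Complex.exp_add]
      congr 1
      unfold s2
      simp only [map_add, map_mul, Complex.conj_ofReal, Complex.conj_I, map_ofNat]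
      push_cast
      ring
    rw [h1, h2, h3, h4]
    unfold NN pp
    rw [Complex.ofReal_mul, Complex.ofReal_add, half_re, Complex.ofReal_cpow hx.le]
    simp only [map_add, map_mul]
    push_cast
    ring
  rw [hN]
  simp only [hpow]
  by_cases hw : (x : ℂ) + w = 0
  · rw [hw]; simp
  · field_simp

theorem integral_five {f0 f1 f2 f3 f4 : ℝ → ℂ} {μ : Measure ℝ} (h0 : Integrable f0 μ)
    (h1 : Integrable f1 μ) (h2 : Integrable f2 μ) (h3 : Integrable f3 μ) (h4 : Integrable f4 μ) :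
    ∫ x, (f0 x + f1 x + f2 x + f3 x + f4 x) ∂μ
      = ∫ x, f0 x ∂μ + ∫ x, f1 x ∂μ + ∫ x, f2 x ∂μ + ∫ x, f3 x ∂μ + ∫ x, f4 x ∂μ := by
  have a1 : ∫ x, (f0 x + f1 x) ∂μ = ∫ x, f0 x ∂μ + ∫ x, f1 x ∂μ := integral_add h0 h1
  have b1 : Integrable (fun x => f0 x + f1 x) μ := h0.add h1
  have a2 : ∫ x, (f0 x + f1 x + f2 x) ∂μ = ∫ x, (f0 x + f1 x) ∂μ + ∫ x, f2 x ∂μ :=
    integral_add b1 h2
  have b2 : Integrable (fun x => f0 x + f1 x + f2 x) μ := b1.add h2
  have a3 : ∫ x, (f0 x + f1 x + f2 x + f3 x) ∂μ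
      = ∫ x, (f0 x + f1 x + f2 x) ∂μ + ∫ x, f3 x ∂μ := integral_add b2 h3
  have b3 : Integrable (fun x => f0 x + f1 x + f2 x + f3 x) μ := b2.add h3
  have a4 : ∫ x, (f0 x + f1 x + f2 x + f3 x + f4 x) ∂μ
      = ∫ x, (f0 x + f1 x + f2 x + f3 x) ∂μ + ∫ x, f4 x ∂μ := integral_add b3 h4
  rw [a4, a3, a2, a1]

/-- the explicit formula in terms of powers of `w = -z` -/
theorem integral_formula (w : ℂ) (hw : w ∈ slitPlane) :
    w * ∫ x in Ioi (0:ℝ), (NN x : ℂ) / ((x : ℂ) * ((x : ℂ) + w)) =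
      (AA : ℂ) * w ^ (rho : ℂ) + C1 * w ^ s1 + (starRingEnd ℂ) C1 * w ^ ((starRingEnd ℂ) s1)
      + C2 * w ^ s2 + (starRingEnd ℂ) C2 * w ^ ((starRingEnd ℂ) s2) := by
  have hr0 := rho_pos
  have hr1 : rho < 1 := by linarith [rho_lt]
  have hs1 : s1.re = rho := by simp [s1]
  have hs2 : s2.re = rho := by simp [s2]
  have hs1c : ((starRingEnd ℂ) s1).re = rho := by rw [Complex.conj_re]; exact hs1
  have hs2c : ((starRingEnd ℂ) s2).re = rho := by rw [Complex.conj_re]; exact hs2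
  have k0 := MellinKernel.mellin_kernel (rho : ℂ) (by simpa using hr0) (by simpa using hr1) w hw
  have k1 := MellinKernel.mellin_kernel s1 (by rw [hs1]; exact hr0) (by rw [hs1]; exact hr1) w hw
  have k2 := MellinKernel.mellin_kernel s2 (by rw [hs2]; exact hr0) (by rw [hs2]; exact hr1) w hw
  have k3 := MellinKernel.mellin_kernel ((starRingEnd ℂ) s1) (by rw [hs1c]; exact hr0)
    (by rw [hs1c]; exact hr1) w hw
  have k4 := MellinKernel.mellin_kernel ((starRingEnd ℂ) s2) (by rw [hs2c]; exact hr0)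
    (by rw [hs2c]; exact hr1) w hw
  have hw0 : w ≠ 0 := by
    intro h; rw [h] at hw; simp [slitPlane] at hw
  have hpi : (Real.pi : ℂ) ≠ 0 := by exact_mod_cast Real.pi_ne_zero
  have hsn1 : Complex.sin (Real.pi * s1) ≠ 0 :=
    sin_ne_zero_of_re (by rw [hs1]; exact hr0) (by rw [hs1]; exact hr1)
  have hsn2 : Complex.sin (Real.pi * s2) ≠ 0 :=
    sin_ne_zero_of_re (by rw [hs2]; exact hr0) (by rw [hs2]; exact hr1)
  have hcong : ∫ x in Ioi (0:ℝ), (NN x : ℂ) / ((x : ℂ) * ((x : ℂ) + w)) =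
      ∫ x in Ioi (0:ℝ), ((x : ℂ) ^ ((rho : ℂ) - 1) / ((x : ℂ) + w)
      + (g1 / 2) * ((x : ℂ) ^ (s1 - 1) / ((x : ℂ) + w))
      + ((starRingEnd ℂ) g1 / 2) * ((x : ℂ) ^ ((starRingEnd ℂ) s1 - 1) / ((x : ℂ) + w))
      + (g2 / 2) * ((x : ℂ) ^ (s2 - 1) / ((x : ℂ) + w))
      + ((starRingEnd ℂ) g2 / 2) * ((x : ℂ) ^ ((starRingEnd ℂ) s2 - 1) / ((x : ℂ) + w))) := by
    apply setIntegral_congr_fun measurableSet_Ioi
    intro x hx
    exact NN_div x hx w
  have i0 : Integrable (fun x : ℝ => (x : ℂ) ^ ((rho : ℂ) - 1) / ((x : ℂ) + w))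
    (volume.restrict (Ioi 0)) := k0.1
  have i1 : Integrable (fun x : ℝ => (g1 / 2) * ((x : ℂ) ^ (s1 - 1) / ((x : ℂ) + w)))
    (volume.restrict (Ioi 0)) := k1.1.const_mul _
  have i3 : Integrable (fun x : ℝ => ((starRingEnd ℂ) g1 / 2)
      * ((x : ℂ) ^ ((starRingEnd ℂ) s1 - 1) / ((x : ℂ) + w)))
    (volume.restrict (Ioi 0)) := k3.1.const_mul _
  have i2 : Integrable (fun x : ℝ => (g2 / 2) * ((x : ℂ) ^ (s2 - 1) / ((x : ℂ) + w)))
    (volume.restrict (Ioi 0)) := k2.1.const_mul _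
  have i4 : Integrable (fun x : ℝ => ((starRingEnd ℂ) g2 / 2)
      * ((x : ℂ) ^ ((starRingEnd ℂ) s2 - 1) / ((x : ℂ) + w)))
    (volume.restrict (Ioi 0)) := k4.1.const_mul _
  rw [hcong, integral_five i0 i1 i3 i2 i4, integral_const_mul, integral_const_mul,
    integral_const_mul, integral_const_mul, k0.2, k1.2, k2.2, k3.2, k4.2]
  have hA : (AA : ℂ) = (Real.pi : ℂ) / Complex.sin (Real.pi * rho) := by
    unfold AA
    push_cast
    rfl
  have hpow : ∀ s : ℂ, w ^ (s - 1) = w ^ s / w := by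
    intro s
    rw [Complex.cpow_sub _ _ hw0, Complex.cpow_one]
  have hG1 : g1 / 2 * ((Real.pi : ℂ) / Complex.sin (Real.pi * s1)) = C1 := by
    unfold g1
    field_simp
  have hG2 : g2 / 2 * ((Real.pi : ℂ) / Complex.sin (Real.pi * s2)) = C2 := by
    unfold g2
    field_simp
  have hG1c : (starRingEnd ℂ) g1 / 2
      * ((Real.pi : ℂ) / Complex.sin (Real.pi * (starRingEnd ℂ) s1)) = (starRingEnd ℂ) C1 := by
    rw [← hG1]
    simp only [map_mul, map_div₀, Complex.conj_ofReal, map_ofNat, ← Complex.sin_conj]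
  have hG2c : (starRingEnd ℂ) g2 / 2
      * ((Real.pi : ℂ) / Complex.sin (Real.pi * (starRingEnd ℂ) s2)) = (starRingEnd ℂ) C2 := by
    rw [← hG2]
    simp only [map_mul, map_div₀, Complex.conj_ofReal, map_ofNat, ← Complex.sin_conj]
  rw [← hA]
  simp only [hpow]
  rw [← hG1, ← hG2]
  rw [show (starRingEnd ℂ) (g1 / 2 * ((Real.pi : ℂ) / Complex.sin (Real.pi * s1)))
    = (starRingEnd ℂ) C1 from by rw [hG1], show (starRingEnd ℂ) (g2 / 2 * ((Real.pi : ℂ) / Complex.sin (Real.pi * s2)))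
    = (starRingEnd ℂ) C2 from by rw [hG2], ← hG1c, ← hG2c]
  field_simp

end

end RayMain

end

section
open Complex MeasureTheory Set Filter Topology

namespace RayMain

noncomputable section

/-- argument used -/
def th (y : ℝ) : ℝ := ep * (1 + y)

theorem th_pos {y : ℝ} (h : -1 / 2 ≤ y) : 0 < th y := by
  unfold th ep; nlinarith

theorem th_lt {y : ℝ} (h : y ≤ 1 / 2) : th y < Real.pi := by
  have := Real.pi_gt_three
  unfold th ep; nlinarith

theorem neg_polar (r y : ℝ) (hr : 0 < r) :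
    -((r : ℂ) * Complex.exp ((th y : ℝ) * I))
      = Complex.exp (((Real.log r : ℝ) : ℂ) + ((th y - Real.pi : ℝ) : ℂ) * I) := by
  rw [Complex.exp_add, ← Complex.ofReal_exp, Real.exp_log hr]
  have : Complex.exp (((th y - Real.pi : ℝ) : ℂ) * I) = - Complex.exp ((th y : ℝ) * I) := by
    rw [show (((th y - Real.pi : ℝ) : ℂ) * I) = (th y : ℝ) * I - Real.pi * I by push_cast; ring]
    rw [Complex.exp_sub, Complex.exp_pi_mul_I, div_neg, div_one]
  rw [this]; ring

theorem slit (r y : ℝ) (hr : 0 < r) (h1 : -1 / 2 ≤ y) (h2 : y ≤ 1 / 2) :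
    -((r : ℂ) * Complex.exp ((th y : ℝ) * I)) ∈ slitPlane := by
  rw [mem_slitPlane_iff]
  right
  rw [Complex.neg_im, Complex.im_ofReal_mul, Complex.exp_ofReal_mul_I_im]
  have : 0 < Real.sin (th y) := Real.sin_pos_of_pos_of_lt_pi (th_pos h1) (th_lt h2)
  have := mul_pos hr this
  linarith

theorem exp_small : Real.exp (1 - om * Real.pi) ≤ ep := by
  have h : Real.exp (1 - om * Real.pi) ≤ Real.exp (-100000) := by
    apply Real.exp_le_exp.2
    have := Real.pi_gt_three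
    unfold om
    linarith
  have h2 : Real.exp (-100000) ≤ ep := by
    rw [Real.exp_neg]
    have : (100000 : ℝ) ≤ Real.exp 100000 := by
      have := Real.add_one_le_exp (100000 : ℝ)
      linarith
    unfold ep
    rw [inv_eq_one_div]
    apply one_div_le_one_div_of_le (by norm_num) this
  linarith

theorem exp_small2 : Real.exp (2 - 2 * om * Real.pi) ≤ ep := by
  have h : Real.exp (2 - 2 * om * Real.pi) ≤ Real.exp (1 - om * Real.pi) := by
    apply Real.exp_le_exp.2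
    have := Real.pi_gt_three
    unfold om
    linarith
  exact h.trans exp_small

/-- powers of `w` in polar form -/
theorem wpow (r y : ℝ) (hr : 0 < r) (h1 : -1 / 2 ≤ y) (h2 : y ≤ 1 / 2) (s : ℂ) :
    (-((r : ℂ) * Complex.exp ((th y : ℝ) * I))) ^ s
      = Complex.exp ((((Real.log r : ℝ) : ℂ) + ((th y - Real.pi : ℝ) : ℂ) * I) * s) := by
  have hs := slit r y hr h1 h2
  have hne : -((r : ℂ) * Complex.exp ((th y : ℝ) * I)) ≠ 0 := by
    intro h; rw [h] at hs; simp [slitPlane] at hs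
  rw [Complex.cpow_def_of_ne_zero hne]
  congr 1
  rw [neg_polar r y hr, Complex.log_exp]
  · simp
    have := th_pos h1
    linarith
  · simp
    have := th_lt h2
    have := Real.pi_pos
    linarith

theorem rho_th (y : ℝ) : rho * (th y - Real.pi) = rho * ep * y - Real.pi / 2 := by
  have := rho_mul
  unfold th
  linear_combination (-1 : ℝ) * this

theorem exp_half (a : ℝ) : Complex.exp (((a - Real.pi / 2 : ℝ) : ℂ) * I)
    = -I * Complex.exp ((a : ℂ) * I) := by
  rw [show (((a - Real.pi / 2 : ℝ) : ℂ) * I) = (a : ℂ) * I - Real.pi / 2 * I by push_cast; ring]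
  rw [Complex.exp_sub, Complex.exp_pi_div_two_mul_I]
  rw [div_eq_iff Complex.I_ne_zero]
  have := Complex.I_mul_I
  linear_combination (Complex.exp ((a : ℂ) * I)) * this

theorem term0 (r y : ℝ) (hr : 0 < r) (h1 : -1 / 2 ≤ y) (h2 : y ≤ 1 / 2) :
    (-((r : ℂ) * Complex.exp ((th y : ℝ) * I))) ^ (rho : ℂ)
      = ((r ^ rho : ℝ) : ℂ) * (-I * Complex.exp (((rho * ep * y : ℝ) : ℂ) * I)) := by
  rw [wpow r y hr h1 h2, ← exp_half, ← rho_th y, Real.rpow_def_of_pos hr, Complex.ofReal_exp,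
    ← Complex.exp_add]
  congr 1
  push_cast
  ring

theorem om_th (y : ℝ) : om * th y = 1 + y := by
  unfold th
  have := om_ep
  linear_combination (1 + y) * this

theorem term1 (r y : ℝ) (hr : 0 < r) (h1 : -1 / 2 ≤ y) (h2 : y ≤ 1 / 2) :
    C1 * (-((r : ℂ) * Complex.exp ((th y : ℝ) * I))) ^ s1
      = ((r ^ rho : ℝ) : ℂ) * (((16 * ep ^ 2 * Real.exp (-y) : ℝ) : ℂ)
        * Complex.exp (((om * Real.log r + rho * ep * y : ℝ) : ℂ) * I)) := by
  have hw := wpow r y hr h1 h2 s1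
  have e1 : (((Real.log r : ℝ) : ℂ) + ((th y - Real.pi : ℝ) : ℂ) * I) * s1
      = ((Real.log r * rho : ℝ) : ℂ) + ((-(1 - om * Real.pi) + (-y) : ℝ) : ℂ)
        + ((om * Real.log r + rho * ep * y - Real.pi / 2 : ℝ) : ℂ) * I := by
    have a1 : om * (th y - Real.pi) = (1 - om * Real.pi) + y := by
      have := om_th y
      linear_combination this
    have a2 := rho_th y
    unfold s1
    apply Complex.ext
    · simp
      linarith
    · simp
      linarith
  rw [hw, e1, Complex.exp_add, Complex.exp_add, exp_half, ← Complex.ofReal_exp,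
    ← Complex.ofReal_exp, Real.rpow_def_of_pos hr, Real.exp_add, Real.exp_neg (1 - om * Real.pi)]
  unfold C1
  have h3 : Real.exp (1 - om * Real.pi) ≠ 0 := (Real.exp_pos _).ne'
  have h4 : (Real.exp (1 - om * Real.pi) : ℂ) ≠ 0 := by exact_mod_cast h3
  push_cast at h4 ⊢
  field_simp
  linear_combination (-(ep : ℂ) ^ 2) * (Complex.I_sq)

theorem term2 (r y : ℝ) (hr : 0 < r) (h1 : -1 / 2 ≤ y) (h2 : y ≤ 1 / 2) :
    C2 * (-((r : ℂ) * Complex.exp ((th y : ℝ) * I))) ^ s2
      = ((r ^ rho : ℝ) : ℂ) * (((4 * ep ^ 2 * Real.exp (-2 * y) : ℝ) : ℂ) * (-I)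
        * Complex.exp (((2 * om * Real.log r + rho * ep * y : ℝ) : ℂ) * I)) := by
  have hw := wpow r y hr h1 h2 s2
  have e1 : (((Real.log r : ℝ) : ℂ) + ((th y - Real.pi : ℝ) : ℂ) * I) * s2
      = ((Real.log r * rho : ℝ) : ℂ) + ((-(2 - 2 * om * Real.pi) + (-2 * y) : ℝ) : ℂ)
        + ((2 * om * Real.log r + rho * ep * y - Real.pi / 2 : ℝ) : ℂ) * I := by
    have a1 : om * (th y - Real.pi) = (1 - om * Real.pi) + y := by
      have := om_th y
      linear_combination this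
    have a2 := rho_th y
    unfold s2
    apply Complex.ext
    · simp
      linarith
    · simp
      linarith
  rw [hw, e1, Complex.exp_add, Complex.exp_add, exp_half, ← Complex.ofReal_exp,
    ← Complex.ofReal_exp, Real.rpow_def_of_pos hr, Real.exp_add,
    Real.exp_neg (2 - 2 * om * Real.pi)]
  unfold C2
  have h3 : Real.exp (2 - 2 * om * Real.pi) ≠ 0 := (Real.exp_pos _).ne'
  have h4 : (Real.exp (2 - 2 * om * Real.pi) : ℂ) ≠ 0 := by exact_mod_cast h3
  push_cast at h4 ⊢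
  field_simp

theorem term3 (r y : ℝ) (hr : 0 < r) (h1 : -1 / 2 ≤ y) (h2 : y ≤ 1 / 2) :
    ‖(starRingEnd ℂ) C1 * (-((r : ℂ) * Complex.exp ((th y : ℝ) * I))) ^ ((starRingEnd ℂ) s1)‖
      ≤ 16 * ep ^ 3 * r ^ rho := by
  rw [norm_mul, wpow r y hr h1 h2, Complex.norm_exp, RCLike.norm_conj]
  have hC : ‖C1‖ = 16 * ep ^ 2 * Real.exp (1 - om * Real.pi) := by
    unfold C1
    rw [norm_mul, Complex.norm_I, mul_one, Complex.norm_real, Real.norm_of_nonneg]
    positivity
  have hre : ((((Real.log r : ℝ) : ℂ) + ((th y - Real.pi : ℝ) : ℂ) * I)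
      * (starRingEnd ℂ) s1).re = Real.log r * rho + om * (th y - Real.pi) := by
    unfold s1
    simp
    ring
  rw [hC, hre, Real.exp_add, Real.rpow_def_of_pos hr]
  have h3 : Real.exp (om * (th y - Real.pi)) ≤ 1 := by
    apply Real.exp_le_one_iff.2
    have := th_lt h2
    have hom : 0 < om := by unfold om; norm_num
    nlinarith
  have h4 := exp_small
  have h5 := ep_pos
  have h6 := Real.exp_pos (Real.log r * rho)
  have h7 := Real.exp_pos (1 - om * Real.pi)
  have h8 := Real.exp_pos (om * (th y - Real.pi))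
  calc 16 * ep ^ 2 * Real.exp (1 - om * Real.pi)
        * (Real.exp (Real.log r * rho) * Real.exp (om * (th y - Real.pi)))
      ≤ 16 * ep ^ 2 * ep * (Real.exp (Real.log r * rho) * 1) := by gcongr
    _ = _ := by ring

theorem term4 (r y : ℝ) (hr : 0 < r) (h1 : -1 / 2 ≤ y) (h2 : y ≤ 1 / 2) :
    ‖(starRingEnd ℂ) C2 * (-((r : ℂ) * Complex.exp ((th y : ℝ) * I))) ^ ((starRingEnd ℂ) s2)‖
      ≤ 4 * ep ^ 3 * r ^ rho := by
  rw [norm_mul, wpow r y hr h1 h2, Complex.norm_exp, RCLike.norm_conj]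
  have hC : ‖C2‖ = 4 * ep ^ 2 * Real.exp (2 - 2 * om * Real.pi) := by
    unfold C2
    rw [Complex.norm_real, Real.norm_of_nonneg]
    positivity
  have hre : ((((Real.log r : ℝ) : ℂ) + ((th y - Real.pi : ℝ) : ℂ) * I)
      * (starRingEnd ℂ) s2).re = Real.log r * rho + 2 * om * (th y - Real.pi) := by
    unfold s2
    simp
    ring
  rw [hC, hre, Real.exp_add, Real.rpow_def_of_pos hr]
  have h3 : Real.exp (2 * om * (th y - Real.pi)) ≤ 1 := by
    apply Real.exp_le_one_iff.2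
    have := th_lt h2
    have hom : 0 < om := by unfold om; norm_num
    nlinarith
  have h4 := exp_small2
  have h5 := ep_pos
  have h6 := Real.exp_pos (Real.log r * rho)
  have h7 := Real.exp_pos (2 - 2 * om * Real.pi)
  have h8 := Real.exp_pos (2 * om * (th y - Real.pi))
  calc 4 * ep ^ 2 * Real.exp (2 - 2 * om * Real.pi)
        * (Real.exp (Real.log r * rho) * Real.exp (2 * om * (th y - Real.pi)))
      ≤ 4 * ep ^ 2 * ep * (Real.exp (Real.log r * rho) * 1) := by gcongr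
    _ = _ := by ring

theorem formula (r y : ℝ) (hr : 0 < r) (h1 : -1 / 2 ≤ y) (h2 : y ≤ 1 / 2) (z : ℂ)
    (hz : z = r * Complex.exp ((th y : ℝ) * I)) :
    ‖(-z * ∫ x in Ioi (0:ℝ), (NN x : ℂ) / ((x : ℂ) * ((x : ℂ) - z)))
      - ((r ^ rho : ℝ) : ℂ) * HH (Real.log r) y‖ ≤ 20 * ep ^ 3 * r ^ rho := by
  have hs := slit r y hr h1 h2
  rw [← hz] at hs
  have h3 := integral_formula (-z) hs
  have h4 : ∫ x in Ioi (0:ℝ), (NN x : ℂ) / ((x : ℂ) * ((x : ℂ) - z))
      = ∫ x in Ioi (0:ℝ), (NN x : ℂ) / ((x : ℂ) * ((x : ℂ) + -z)) := by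
    simp only [sub_eq_add_neg]
  rw [h4, h3, hz, term0 r y hr h1 h2, term1 r y hr h1 h2, term2 r y hr h1 h2]
  have h5 := term3 r y hr h1 h2
  have h6 := term4 r y hr h1 h2
  set a := (starRingEnd ℂ) C1 * (-((r : ℂ) * Complex.exp ((th y : ℝ) * I))) ^ ((starRingEnd ℂ) s1)
  set b := (starRingEnd ℂ) C2 * (-((r : ℂ) * Complex.exp ((th y : ℝ) * I))) ^ ((starRingEnd ℂ) s2)
  have h7 : (AA : ℂ) * (((r ^ rho : ℝ) : ℂ) * (-I * Complex.exp (((rho * ep * y : ℝ) : ℂ) * I)))
      + ((r ^ rho : ℝ) : ℂ) * (((16 * ep ^ 2 * Real.exp (-y) : ℝ) : ℂ)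
        * Complex.exp (((om * Real.log r + rho * ep * y : ℝ) : ℂ) * I)) + a
      + ((r ^ rho : ℝ) : ℂ) * (((4 * ep ^ 2 * Real.exp (-2 * y) : ℝ) : ℂ) * (-I)
        * Complex.exp (((2 * om * Real.log r + rho * ep * y : ℝ) : ℂ) * I)) + b
      - ((r ^ rho : ℝ) : ℂ) * HH (Real.log r) y = a + b := by
    unfold HH
    ring
  rw [h7]
  calc ‖a + b‖ ≤ ‖a‖ + ‖b‖ := norm_add_le _ _
    _ ≤ 20 * ep ^ 3 * r ^ rho := by linarith

end

end RayMain

end

section
open Complex MeasureTheory Set Filter Topology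

namespace RayMain

noncomputable section

theorem AA_lo : 3.14 ≤ AA := by
  unfold AA
  have h1 := Real.pi_gt_d2
  have h2 : 0 < Real.sin (Real.pi * rho) := by
    apply Real.sin_pos_of_pos_of_lt_pi
    · exact mul_pos Real.pi_pos rho_pos
    · have := rho_lt
      have := Real.pi_pos
      nlinarith
  rw [le_div_iff₀ h2]
  have := Real.sin_le_one (Real.pi * rho)
  nlinarith

theorem AA_hi : AA ≤ 3.15 := by
  unfold AA
  have h1 := Real.pi_lt_d4
  have h0 := Real.pi_gt_d2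
  have h3 := rho_lt
  have h4 := rho_gt
  have h5 : Real.sin (Real.pi * rho) = Real.cos (Real.pi * rho - Real.pi / 2) := by
    rw [Real.cos_sub_pi_div_two]
  have h6 : 0.999 ≤ Real.sin (Real.pi * rho) := by
    rw [h5]
    have h7 := Real.one_sub_sq_div_two_le_cos (x := Real.pi * rho - Real.pi / 2)
    have h8 : 0 ≤ Real.pi * rho - Real.pi / 2 := by nlinarith
    have h9 : Real.pi * rho - Real.pi / 2 ≤ 0.001 := by nlinarith
    nlinarith
  rw [div_le_iff₀ (by linarith)]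
  nlinarith

theorem HH_re (x y : ℝ) : (HH x y).re = AA * Real.sin (rho * ep * y)
    + 16 * ep ^ 2 * Real.exp (-y) * Real.cos (om * x + rho * ep * y)
    + 4 * ep ^ 2 * Real.exp (-2 * y) * Real.sin (2 * om * x + rho * ep * y) := by
  unfold HH
  rw [Complex.add_re, Complex.add_re, mul_assoc (AA : ℂ) (-I) _, Complex.re_ofReal_mul,
    mul_assoc (((4 * ep ^ 2 * Real.exp (-2 * y) : ℝ) : ℂ)) (-I) _,
    Complex.re_ofReal_mul, Complex.re_ofReal_mul]
  simp only [neg_mul (I : ℂ), Complex.neg_re, Complex.I_mul_re, Complex.exp_ofReal_mul_I_re,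
    Complex.exp_ofReal_mul_I_im]
  ring_nf

theorem HH_im (x y : ℝ) : (HH x y).im = -(AA * Real.cos (rho * ep * y)
    - 16 * ep ^ 2 * Real.exp (-y) * Real.sin (om * x + rho * ep * y)
    + 4 * ep ^ 2 * Real.exp (-2 * y) * Real.cos (2 * om * x + rho * ep * y)) := by
  unfold HH
  rw [Complex.add_im, Complex.add_im, mul_assoc (AA : ℂ) (-I) _, Complex.im_ofReal_mul,
    mul_assoc (((4 * ep ^ 2 * Real.exp (-2 * y) : ℝ) : ℂ)) (-I) _,
    Complex.im_ofReal_mul, Complex.im_ofReal_mul]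
  simp only [neg_mul (I : ℂ), Complex.neg_im, Complex.I_mul_im, Complex.exp_ofReal_mul_I_im,
    Complex.exp_ofReal_mul_I_re]
  ring_nf

theorem exp_half_le : Real.exp (1 / 2) ≤ 1.65 := by
  have h : Real.exp (1 / 2) * Real.exp (1 / 2) = Real.exp 1 := by
    rw [← Real.exp_add]; norm_num
  have h1 := Real.exp_one_lt_d9
  have h2 := Real.exp_pos (1 / 2)
  by_contra hc
  push Not at hc
  nlinarith

theorem sin_u0 : 9.99 * ep ^ 2 ≤ Real.sin (rho * ep * (20 * ep)) := by
  have h1 := rho_gt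
  have h2 := rho_lt
  have h3 : 0 < ep ^ 2 := by have := ep_pos; positivity
  set u := rho * ep * (20 * ep) with hu
  have hu1 : u = 20 * rho * ep ^ 2 := by rw [hu]; ring
  have hu2 : 10 * ep ^ 2 ≤ u := by rw [hu1]; nlinarith
  have hu3 : u ≤ 0.01 := by rw [hu1]; unfold ep; nlinarith
  have hu4 : 0 < u := by linarith [h3]
  have := Real.sin_gt_sub_cube hu4
  have h5 : u ^ 3 / 6 ≤ 0.001 * u := by
    have : u ^ 2 ≤ 0.0001 := by nlinarith
    nlinarith
  nlinarith

/-- upper barrier -/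
theorem re_hi (x : ℝ) : 10 * ep ^ 2 ≤ (HH x (20 * ep)).re := by
  rw [HH_re]
  have h0 := sin_u0
  have h1 := AA_lo
  have h3 : 0 < ep ^ 2 := by have := ep_pos; positivity
  have h4 : Real.exp (-(20 * ep)) ≤ 1 := by
    apply Real.exp_le_one_iff.2; have := ep_pos; linarith
  have h5 : Real.exp (-2 * (20 * ep)) ≤ 1 := by
    apply Real.exp_le_one_iff.2; have := ep_pos; linarith
  have h6 := Real.exp_pos (-(20 * ep))
  have h7 := Real.exp_pos (-2 * (20 * ep))
  have h8 := Real.neg_one_le_cos (om * x + rho * ep * (20 * ep))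
  have h9 := Real.neg_one_le_sin (2 * om * x + rho * ep * (20 * ep))
  have a1 : 3.14 * (9.99 * ep ^ 2) ≤ AA * Real.sin (rho * ep * (20 * ep)) := by
    apply mul_le_mul h1 h0 (by positivity) (by linarith)
  have a2 : -1 ≤ Real.exp (-(20 * ep)) * Real.cos (om * x + rho * ep * (20 * ep)) := by
    nlinarith
  have a3 : -1 ≤ Real.exp (-2 * (20 * ep)) * Real.sin (2 * om * x + rho * ep * (20 * ep)) := by
    nlinarith
  nlinarith

theorem re_lo (x : ℝ) : (HH x (-(20 * ep))).re ≤ -(10 * ep ^ 2) := by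
  rw [HH_re]
  have h0 := sin_u0
  have h1 := AA_lo
  have h3 : 0 < ep ^ 2 := by have := ep_pos; positivity
  have h4 : Real.exp (-(-(20 * ep))) ≤ 1.001 := by
    have a := Real.add_one_le_exp (-(20 * ep))
    have b : Real.exp (-(-(20 * ep))) * Real.exp (-(20 * ep)) = 1 := by
      rw [← Real.exp_add]; simp
    have c := Real.exp_pos (-(-(20 * ep)))
    have d : (0.9995 : ℝ) ≤ Real.exp (-(20 * ep)) := by
      refine le_trans ?_ a
      unfold ep; norm_num
    nlinarith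
  have h5 : Real.exp (-2 * (-(20 * ep))) ≤ 1.001 := by
    have a := Real.add_one_le_exp (2 * (-(20 * ep)))
    have b : Real.exp (-2 * (-(20 * ep))) * Real.exp (2 * (-(20 * ep))) = 1 := by
      rw [← Real.exp_add]; ring_nf; simp
    have c := Real.exp_pos (-2 * (-(20 * ep)))
    have d : (0.9995 : ℝ) ≤ Real.exp (2 * (-(20 * ep))) := by
      refine le_trans ?_ a
      unfold ep; norm_num
    nlinarith
  have h6 := Real.exp_pos (-(-(20 * ep)))
  have h7 := Real.exp_pos (-2 * (-(20 * ep)))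
  have h8 := Real.cos_le_one (om * x + rho * ep * (-(20 * ep)))
  have h9 := Real.sin_le_one (2 * om * x + rho * ep * (-(20 * ep)))
  have a0 : Real.sin (rho * ep * (-(20 * ep))) = - Real.sin (rho * ep * (20 * ep)) := by
    rw [← Real.sin_neg]; congr 1; ring
  have a1 : 3.14 * (9.99 * ep ^ 2) ≤ AA * Real.sin (rho * ep * (20 * ep)) := by
    apply mul_le_mul h1 h0 (by positivity) (by linarith)
  have a2 : Real.exp (-(-(20 * ep))) * Real.cos (om * x + rho * ep * (-(20 * ep))) ≤ 1.001 := by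
    nlinarith
  have a3 : Real.exp (-2 * (-(20 * ep)))
      * Real.sin (2 * om * x + rho * ep * (-(20 * ep))) ≤ 1.001 := by
    nlinarith
  rw [a0]
  nlinarith

/-- general perturbation estimate -/
theorem pert (E E0 s s0 : ℝ) (hE : 0 ≤ E0) (hs : |s| ≤ 1) :
    |E * s - E0 * s0| ≤ |E - E0| + E0 * |s - s0| := by
  have : E * s - E0 * s0 = (E - E0) * s + E0 * (s - s0) := by ring
  rw [this]
  calc |(E - E0) * s + E0 * (s - s0)| ≤ |(E - E0) * s| + |E0 * (s - s0)| := abs_add_le _ _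
    _ = |E - E0| * |s| + E0 * |s - s0| := by rw [abs_mul, abs_mul, abs_of_nonneg hE]
    _ ≤ |E - E0| * 1 + E0 * |s - s0| := by gcongr
    _ = _ := by ring

/-- upper bound for `-Im` near the boundary of the tract -/
theorem im_upper (x y : ℝ) (hy : |y| ≤ 20 * ep) :
    -(HH x y).im ≤ AA - 16 * ep ^ 2 * Real.sin (om * x)
      + 4 * ep ^ 2 * Real.cos (2 * om * x) + 520 * ep ^ 3 := by
  rw [HH_im, neg_neg]
  have hy' := abs_le.1 hy
  have he := ep_pos
  have h3 : 0 < ep ^ 2 := by positivity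
  have h1 := AA_lo
  have hr := rho_lt
  have hr0 := rho_pos
  have hu : |rho * ep * y| ≤ 11 * ep ^ 2 := by
    rw [abs_mul, abs_mul, abs_of_pos hr0, abs_of_pos he]
    calc rho * ep * |y| ≤ rho * ep * (20 * ep) := by gcongr
      _ = 20 * rho * ep ^ 2 := by ring
      _ ≤ 11 * ep ^ 2 := by nlinarith
  have hexp : ∀ v : ℝ, |v| ≤ 40 * ep → |Real.exp v - 1| ≤ 1.001 * |v| := by
    intro v hv
    have hv1 : |v| ≤ 0.0005 := by refine hv.trans ?_; unfold ep; norm_num
    have := Real.abs_exp_sub_one_sub_id_le (x := v) (by linarith)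
    have h5 : |Real.exp v - 1| ≤ |Real.exp v - 1 - v| + |v| := by
      have := abs_add_le (Real.exp v - 1 - v) v
      simpa using this
    have h6 : v ^ 2 = |v| * |v| := by rw [← sq, sq_abs]
    have h7 := abs_nonneg v
    nlinarith
  have hE1 : |Real.exp (-y) - 1| ≤ 20.02 * ep := by
    have := hexp (-y) (by rw [abs_neg]; linarith)
    rw [abs_neg] at this
    nlinarith
  have hE2 : |Real.exp (-2 * y) - 1| ≤ 40.04 * ep := by
    have h8 : |-2 * y| = 2 * |y| := by rw [abs_mul]; norm_num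
    have := hexp (-2 * y) (by rw [h8]; linarith)
    rw [h8] at this
    nlinarith
  have b1 := pert (Real.exp (-y)) 1 (Real.sin (om * x + rho * ep * y)) (Real.sin (om * x))
    (by norm_num) (Real.abs_sin_le_one _)
  have b2 := pert (Real.exp (-2 * y)) 1 (Real.cos (2 * om * x + rho * ep * y))
    (Real.cos (2 * om * x)) (by norm_num) (Real.abs_cos_le_one _)
  have b3 := Real.abs_sin_sub_sin_le (om * x + rho * ep * y) (om * x)
  have b4 := Real.abs_cos_sub_cos_le (2 * om * x + rho * ep * y) (2 * om * x)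
  rw [add_sub_cancel_left] at b3 b4
  rw [one_mul, one_mul] at b1 b2
  have c1 : |Real.exp (-y) * Real.sin (om * x + rho * ep * y) - Real.sin (om * x)|
      ≤ 20.1 * ep := by
    have : 11 * ep ^ 2 ≤ 0.08 * ep := by unfold ep; norm_num
    linarith
  have c2 : |Real.exp (-2 * y) * Real.cos (2 * om * x + rho * ep * y) - Real.cos (2 * om * x)|
      ≤ 40.2 * ep := by
    have : 11 * ep ^ 2 ≤ 0.08 * ep := by unfold ep; norm_num
    linarith
  have c1' := (abs_le.1 c1).1
  have c2' := (abs_le.1 c2).2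
  have c3 : AA * Real.cos (rho * ep * y) ≤ AA := by
    have := Real.cos_le_one (rho * ep * y)
    nlinarith
  have d1 : 16 * ep ^ 2 * (Real.sin (om * x) - 20.1 * ep)
      ≤ 16 * ep ^ 2 * (Real.exp (-y) * Real.sin (om * x + rho * ep * y)) := by
    apply mul_le_mul_of_nonneg_left _ (by positivity)
    linarith
  have d2 : 4 * ep ^ 2 * (Real.exp (-2 * y) * Real.cos (2 * om * x + rho * ep * y))
      ≤ 4 * ep ^ 2 * (Real.cos (2 * om * x) + 40.2 * ep) := by
    apply mul_le_mul_of_nonneg_left _ (by positivity)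
    linarith
  have d3 : 0 < ep ^ 3 := by positivity
  nlinarith

/-- lower bound for `-Im` at `y` with `exp (-y) = E` -/
theorem im_lower (x y E : ℝ) (hE : Real.exp (-y) = E) (hE0 : 0 ≤ E) (hE1 : E ≤ 5 / 4)
    (hy : |y| ≤ 0.29) :
    AA - 0.036 * ep ^ 2 - 16 * ep ^ 2 * (E * Real.sin (om * x))
      + 4 * ep ^ 2 * (E ^ 2 * Real.cos (2 * om * x)) - 24 * ep ^ 3 ≤ -(HH x y).im := by
  rw [HH_im, neg_neg]
  have he := ep_pos
  have h3 : 0 < ep ^ 2 := by positivity
  have h1 := AA_lo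
  have h1' := AA_hi
  have hr := rho_lt
  have hr0 := rho_pos
  have hE2 : Real.exp (-2 * y) = E ^ 2 := by
    rw [← hE, ← Real.exp_nat_mul]; congr 1; push_cast; ring
  rw [hE, hE2]
  have hu : |rho * ep * y| ≤ 0.1451 * ep := by
    rw [abs_mul, abs_mul, abs_of_pos hr0, abs_of_pos he]
    calc rho * ep * |y| ≤ rho * ep * 0.29 := by gcongr
      _ ≤ 0.1451 * ep := by nlinarith
  have hu2 : (rho * ep * y) ^ 2 ≤ (0.1451 * ep) ^ 2 := by
    rw [← sq_abs (rho * ep * y)]
    gcongr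
  have c0 := Real.one_sub_sq_div_two_le_cos (x := rho * ep * y)
  have c1 : AA - 0.036 * ep ^ 2 ≤ AA * Real.cos (rho * ep * y) := by
    have : 1 - (0.1451 * ep) ^ 2 / 2 ≤ Real.cos (rho * ep * y) := by linarith
    have h5 : AA * (1 - (0.1451 * ep) ^ 2 / 2) ≤ AA * Real.cos (rho * ep * y) :=
      mul_le_mul_of_nonneg_left this (by linarith)
    nlinarith
  have b1 := pert E E (Real.sin (om * x + rho * ep * y)) (Real.sin (om * x))
    hE0 (Real.abs_sin_le_one _)
  have b2 := pert (E ^ 2) (E ^ 2) (Real.cos (2 * om * x + rho * ep * y))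
    (Real.cos (2 * om * x)) (by positivity) (Real.abs_cos_le_one _)
  have b3 := Real.abs_sin_sub_sin_le (om * x + rho * ep * y) (om * x)
  have b4 := Real.abs_cos_sub_cos_le (2 * om * x + rho * ep * y) (2 * om * x)
  rw [add_sub_cancel_left] at b3 b4
  rw [sub_self, abs_zero, zero_add] at b1 b2
  have e1 : |E * Real.sin (om * x + rho * ep * y) - E * Real.sin (om * x)| ≤ 0.2 * ep := by
    refine b1.trans ?_
    calc E * |Real.sin (om * x + rho * ep * y) - Real.sin (om * x)|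
        ≤ (5 / 4) * (0.1451 * ep) := by
          apply mul_le_mul hE1 (b3.trans hu) (abs_nonneg _) (by norm_num)
      _ ≤ _ := by nlinarith
  have hEE : E ^ 2 ≤ 25 / 16 := by nlinarith
  have e2 : |E ^ 2 * Real.cos (2 * om * x + rho * ep * y) - E ^ 2 * Real.cos (2 * om * x)|
      ≤ 0.3 * ep := by
    refine b2.trans ?_
    calc E ^ 2 * |Real.cos (2 * om * x + rho * ep * y) - Real.cos (2 * om * x)|
        ≤ (25 / 16) * (0.1451 * ep) := by
          apply mul_le_mul hEE (b4.trans hu) (abs_nonneg _) (by norm_num)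
      _ ≤ _ := by nlinarith
  have e1' := (abs_le.1 e1).2
  have e2' := (abs_le.1 e2).1
  have d1 : 16 * ep ^ 2 * (E * Real.sin (om * x + rho * ep * y))
      ≤ 16 * ep ^ 2 * (E * Real.sin (om * x) + 0.2 * ep) := by
    apply mul_le_mul_of_nonneg_left _ (by positivity)
    linarith
  have d2 : 4 * ep ^ 2 * (E ^ 2 * Real.cos (2 * om * x) - 0.3 * ep)
      ≤ 4 * ep ^ 2 * (E ^ 2 * Real.cos (2 * om * x + rho * ep * y)) := by
    apply mul_le_mul_of_nonneg_left _ (by positivity)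
    linarith
  have d3 : 0 < ep ^ 3 := by positivity
  nlinarith

/-- the choice of the exponent: a real inequality -/
theorem choose_ineq (S : ℝ) (h1 : -1 ≤ S) :
    0.175 ≤ |4 * S ^ 2 + 4 * S - 2| + (1 - 2 * S ^ 2) / 4 := by
  rcases le_total 0 (4 * S ^ 2 + 4 * S - 2) with h | h
  · rw [abs_of_nonneg h]
    have hS : 0.366 ≤ S := by
      by_contra hc
      push Not at hc
      nlinarith
    nlinarith
  · rw [abs_of_nonpos h]
    have hS : S ≤ 0.367 := by
      by_contra hc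
      push Not at hc
      nlinarith
    nlinarith

/-- For every phase some `y` does better than all `y` close to `0`. -/
theorem im_gain (x : ℝ) : ∃ y₀ : ℝ, |y₀| ≤ 0.29 ∧ ∀ y : ℝ, |y| ≤ 20 * ep →
    -(HH x y).im + 0.13 * ep ^ 2 ≤ -(HH x y₀).im := by
  have hS1 := Real.neg_one_le_sin (om * x)
  have hS2 := Real.sin_le_one (om * x)
  have hcos : Real.cos (2 * om * x) = 1 - 2 * Real.sin (om * x) ^ 2 := by
    rw [mul_assoc, Real.cos_two_mul, Real.cos_sq']
    ring
  have hch := choose_ineq _ hS1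
  have he := ep_pos
  have h3 : 0 < ep ^ 2 := by positivity
  have he3 : ep ^ 3 = ep ^ 2 / 100000 := by unfold ep; norm_num
  set S := Real.sin (om * x) with hS
  rcases le_total 0 (4 * S ^ 2 + 4 * S - 2) with h | h
  · rw [abs_of_nonneg h] at hch
    have hlog : |-Real.log (3 / 4)| ≤ 0.29 := by
      rw [← Real.log_inv, abs_of_nonneg (Real.log_nonneg (by norm_num))]
      rw [Real.log_le_iff_le_exp (by norm_num)]
      have := Real.quadratic_le_exp_of_nonneg (x := 0.145) (by norm_num)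
      rw [show (0.29 : ℝ) = 0.145 + 0.145 by norm_num, Real.exp_add]
      nlinarith
    refine ⟨-Real.log (3 / 4), hlog, ?_⟩
    intro y hy
    have a1 := im_upper x y hy
    have a2 := im_lower x (-Real.log (3 / 4)) (3 / 4)
      (by rw [neg_neg, Real.exp_log (by norm_num)]) (by norm_num) (by norm_num) hlog
    rw [hcos] at a1 a2
    rw [← hS] at a1 a2
    rw [he3] at a1 a2
    nlinarith
  · rw [abs_of_nonpos h] at hch
    have hlog : |-Real.log (5 / 4)| ≤ 0.29 := by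
      rw [abs_neg, abs_of_nonneg (Real.log_nonneg (by norm_num))]
      rw [Real.log_le_iff_le_exp (by norm_num)]
      have := Real.quadratic_le_exp_of_nonneg (x := 0.29) (by norm_num)
      refine le_trans ?_ this
      norm_num
    refine ⟨-Real.log (5 / 4), hlog, ?_⟩
    intro y hy
    have a1 := im_upper x y hy
    have a2 := im_lower x (-Real.log (5 / 4)) (5 / 4)
      (by rw [neg_neg, Real.exp_log (by norm_num)]) (by norm_num) (by norm_num) hlog
    rw [hcos] at a1 a2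
    rw [← hS] at a1 a2
    rw [he3] at a1 a2
    nlinarith

end

end RayMain

end

section
set_option maxHeartbeats 4000000

open Complex MeasureTheory Set Filter Topology

namespace RayCount

/-- number of `a`-points of `f` in the closed disc of radius `r`, with multiplicity -/
noncomputable def nn (f : ℂ → ℂ) (r : ℝ) (a : ℂ) : ℕ :=
  ∑ᶠ z ∈ Metric.closedBall (0 : ℂ) r, analyticOrderNatAt (fun w => f w - a) z

/-- circle mean of the logarithm of `|f|` truncated from below at `τ` -/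
noncomputable def Psi (f : ℂ → ℂ) (τ r : ℝ) : ℝ :=
  Real.circleAverage (fun z => Real.log (max ‖f z‖ τ)) 0 r

/-- structure: finite zero set and the two formulas -/
theorem jensen_struct {f : ℂ → ℂ} (hf : Differentiable ℂ f)
    (_hnc : ¬ ∃ c : ℂ, ∀ z : ℂ, f z = c) {R : ℝ} (hR : 0 < R)
    {a : ℂ} (ha : a ≠ f 0) :
    ∃ S : Finset ℂ, (∀ u ∈ S, 0 < ‖u‖ ∧ ‖u‖ ≤ R) ∧
      (∀ r : ℝ, 0 < r → r ≤ R →
        Real.circleAverage (fun z => Real.log ‖f z - a‖) 0 r =
          ∑ u ∈ S, (analyticOrderNatAt (fun w => f w - a) u : ℝ) *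
            (if ‖u‖ ≤ r then Real.log r - Real.log ‖u‖ else 0) + Real.log ‖f 0 - a‖) ∧
      (∀ r : ℝ, 0 < r → r ≤ R →
        (nn f r a : ℝ) = ∑ u ∈ S, (analyticOrderNatAt (fun w => f w - a) u : ℝ) *
            (if ‖u‖ ≤ r then 1 else 0)) := by
  classical
  set g : ℂ → ℂ := fun w => f w - a with hg
  have hgd : Differentiable ℂ g := hf.sub_const a
  have hga : ∀ U : Set ℂ, AnalyticOnNhd ℂ g U := fun U z _ => hgd.analyticAt z
  have hg0 : g 0 ≠ 0 := by
    simp only [hg]; rw [sub_ne_zero]; exact ha.symm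
  set D := MeromorphicOn.divisor g (Metric.closedBall 0 R) with hD
  have hfin : (Function.support D).Finite := D.finiteSupport (isCompact_closedBall 0 R)
  have hord : ∀ (r : ℝ) (u : ℂ), u ∈ Metric.closedBall (0 : ℂ) r →
      (MeromorphicOn.divisor g (Metric.closedBall 0 r)) u = (analyticOrderNatAt g u : ℤ) := by
    intro r u hu
    rw [MeromorphicOn.AnalyticOnNhd.divisor_apply (hga (Metric.closedBall 0 r)) hu, analyticOrderNatAt]
    cases h : analyticOrderAt g u with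
    | top => simp
    | coe n => simp
  refine ⟨hfin.toFinset, ?_, ?_, ?_⟩
  · intro u hu
    rw [Set.Finite.mem_toFinset] at hu
    have huR : u ∈ Metric.closedBall (0 : ℂ) R := D.supportWithinDomain hu
    refine ⟨?_, by simpa using huR⟩
    rw [norm_pos_iff]
    rintro rfl
    apply hu
    rw [hD, hord R 0 huR]
    have : analyticOrderAt g 0 = 0 := (hgd.analyticAt 0).analyticOrderAt_eq_zero.2 hg0
    rw [analyticOrderNatAt, this]; simp
  · intro r hr hrR
    have h1 := AnalyticOnNhd.circleAverage_log_norm (c := 0) (R := r) (f := g) hr.ne'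
      (hga _) hg0
    rw [abs_of_pos hr] at h1
    change Real.circleAverage (fun z => Real.log ‖g z‖) 0 r = _ + Real.log ‖g 0‖
    rw [h1]
    congr 1
    have hsub : Function.support (fun u => ((MeromorphicOn.divisor g (Metric.closedBall 0 r)) u : ℝ)
        * Real.log (r * ‖(0 : ℂ) - u‖⁻¹)) ⊆ hfin.toFinset := by
      intro u hu
      rw [Function.mem_support] at hu
      have h2 : (MeromorphicOn.divisor g (Metric.closedBall 0 r)) u ≠ 0 := by
        intro h; apply hu; rw [h]; simp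
      have h3 : u ∈ Metric.closedBall (0 : ℂ) r :=
        (MeromorphicOn.divisor g (Metric.closedBall 0 r)).supportWithinDomain h2
      have h4 : u ∈ Metric.closedBall (0 : ℂ) R := Metric.closedBall_subset_closedBall hrR h3
      simp only [Set.Finite.coe_toFinset, Function.mem_support]
      rw [hD, hord R u h4, ← hord r u h3]
      exact h2
    rw [finsum_eq_sum_of_support_subset _ hsub]
    refine Finset.sum_congr rfl fun u hu => ?_
    by_cases h : ‖u‖ ≤ r
    · have h3 : u ∈ Metric.closedBall (0 : ℂ) r := by simpa using h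
      have h5 : 0 < ‖u‖ := by
        rw [norm_pos_iff]
        rintro rfl
        rw [Set.Finite.mem_toFinset] at hu
        apply hu
        rw [hD, hord R 0 (by simp [hR.le])]
        have : analyticOrderAt g 0 = 0 := (hgd.analyticAt 0).analyticOrderAt_eq_zero.2 hg0
        rw [analyticOrderNatAt, this]; simp
      rw [hord r u h3, if_pos h, zero_sub, norm_neg, ← div_eq_mul_inv,
        Real.log_div hr.ne' h5.ne']
      simp
    · have h3 : u ∉ Metric.closedBall (0 : ℂ) r := by simpa using h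
      rw [if_neg h, Function.locallyFinsuppWithin.apply_eq_zero_of_notMem _ h3]
      simp
  · intro r hr hrR
    have h1 : nn f r a = ∑ u ∈ hfin.toFinset, analyticOrderNatAt g u * (if ‖u‖ ≤ r then 1 else 0) := by
      rw [nn]
      rw [finsum_mem_eq_sum_of_inter_support_eq (t := hfin.toFinset.filter (fun u => ‖u‖ ≤ r))]
      · rw [Finset.sum_filter]
        refine Finset.sum_congr rfl fun u _ => ?_
        split_ifs <;> simp [hg]
      · ext u
        simp only [Set.mem_inter_iff, Finset.coe_filter, Set.Finite.mem_toFinset,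
          Set.mem_ofPred_eq, Metric.mem_closedBall, dist_zero_right, Function.mem_support]
        constructor
        · rintro ⟨h2, h3⟩
          refine ⟨⟨?_, h2⟩, h3⟩
          rw [hD, hord R u (by simpa using h2.trans hrR)]
          simpa using h3
        · rintro ⟨⟨_, h2⟩, h3⟩
          exact ⟨h2, h3⟩
    rw [h1]
    push_cast
    rfl

/-- Jensen, two radii. -/
theorem jensen_upper {f : ℂ → ℂ} (hf : Differentiable ℂ f)
    (hnc : ¬ ∃ c : ℂ, ∀ z : ℂ, f z = c) {r₁ r₂ : ℝ} (hr1 : 0 < r₁) (h12 : r₁ < r₂)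
    {a : ℂ} (ha : a ≠ f 0) :
    Real.circleAverage (fun z => Real.log ‖f z - a‖) 0 r₂
      - Real.circleAverage (fun z => Real.log ‖f z - a‖) 0 r₁
      ≤ (nn f r₂ a : ℝ) * (Real.log r₂ - Real.log r₁) := by
  obtain ⟨S, hS, hI, hN⟩ := jensen_struct hf hnc (hr1.trans h12) ha
  rw [hI r₂ (hr1.trans h12) le_rfl, hI r₁ hr1 h12.le, hN r₂ (hr1.trans h12) le_rfl,
    add_sub_add_right_eq_sub, ← Finset.sum_sub_distrib, Finset.sum_mul]
  refine Finset.sum_le_sum fun u hu => ?_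
  obtain ⟨h0, h2⟩ := hS u hu
  rw [if_pos h2, if_pos h2, ← mul_sub, mul_assoc]
  refine mul_le_mul_of_nonneg_left ?_ (Nat.cast_nonneg _)
  have hlog : Real.log r₁ ≤ Real.log r₂ := Real.log_le_log hr1 h12.le
  split_ifs with h
  · linarith
  · have := Real.log_le_log hr1 (not_le.1 h).le
    linarith

theorem jensen_lower {f : ℂ → ℂ} (hf : Differentiable ℂ f)
    (hnc : ¬ ∃ c : ℂ, ∀ z : ℂ, f z = c) {r₁ r₂ : ℝ} (hr1 : 0 < r₁) (h12 : r₁ < r₂)
    {a : ℂ} (ha : a ≠ f 0) :
    (nn f r₁ a : ℝ) * (Real.log r₂ - Real.log r₁) ≤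
    Real.circleAverage (fun z => Real.log ‖f z - a‖) 0 r₂
      - Real.circleAverage (fun z => Real.log ‖f z - a‖) 0 r₁ := by
  obtain ⟨S, hS, hI, hN⟩ := jensen_struct hf hnc (hr1.trans h12) ha
  rw [hI r₂ (hr1.trans h12) le_rfl, hI r₁ hr1 h12.le, hN r₁ hr1 h12.le,
    add_sub_add_right_eq_sub, ← Finset.sum_sub_distrib, Finset.sum_mul]
  refine Finset.sum_le_sum fun u hu => ?_
  obtain ⟨h0, h2⟩ := hS u hu
  rw [if_pos h2, ← mul_sub, mul_assoc]
  refine mul_le_mul_of_nonneg_left ?_ (Nat.cast_nonneg _)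
  split_ifs with h
  · linarith
  · have := Real.log_le_log h0 h2
    linarith

theorem jensen_zero {f : ℂ → ℂ} (hf : Differentiable ℂ f)
    (hnc : ¬ ∃ c : ℂ, ∀ z : ℂ, f z = c) {r₁ r₂ : ℝ} (hr1 : 0 < r₁) (h12 : r₁ < r₂)
    {a : ℂ} (ha : a ≠ f 0) :
    (nn f r₁ a : ℝ) * (Real.log r₂ - Real.log r₁) ≤
    Real.circleAverage (fun z => Real.log ‖f z - a‖) 0 r₂ - Real.log ‖f 0 - a‖ := by
  obtain ⟨S, hS, hI, hN⟩ := jensen_struct hf hnc (hr1.trans h12) ha
  rw [hI r₂ (hr1.trans h12) le_rfl, hN r₁ hr1 h12.le, add_sub_cancel_right, Finset.sum_mul]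
  refine Finset.sum_le_sum fun u hu => ?_
  obtain ⟨h0, h2⟩ := hS u hu
  rw [if_pos h2, mul_assoc]
  refine mul_le_mul_of_nonneg_left ?_ (Nat.cast_nonneg _)
  split_ifs with h
  · have := Real.log_le_log h0 h
    linarith
  · have := Real.log_le_log h0 h2
    linarith

theorem log_max_posLog {x τ : ℝ} (hx : 0 ≤ x) (hτ : 0 < τ) :
    Real.log (max x τ) = Real.log τ + Real.posLog (x / τ) := by
  rcases le_total x τ with h | h
  · rw [max_eq_right h]
    have : Real.posLog (x / τ) = 0 := by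
      rw [Real.posLog_eq_zero_iff, abs_of_nonneg (by positivity)]
      exact (div_le_one hτ).2 h
    rw [this, add_zero]
  · rw [max_eq_left h]
    have hx0 : 0 < x := lt_of_lt_of_le hτ h
    have : Real.posLog (x / τ) = Real.log (x / τ) := by
      apply Real.posLog_eq_log
      rw [abs_of_nonneg (by positivity)]
      exact (one_le_div hτ).2 h
    rw [this, Real.log_div hx0.ne' hτ.ne']; ring

/-- averaging over the values `a` of modulus `τ` -/
theorem average_value {f : ℂ → ℂ} (hf : Differentiable ℂ f) {r τ : ℝ} (hr : 0 < r) (hτ : 0 < τ) :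
    CircleIntegrable (fun a => Real.circleAverage (fun z => Real.log ‖f z - a‖) 0 r) 0 τ ∧
    Real.circleAverage (fun a => Real.circleAverage (fun z => Real.log ‖f z - a‖) 0 r) 0 τ
      = Psi f τ r := by
  have hscale : ∀ θ : ℝ, circleMap 0 τ θ = (τ : ℂ) * circleMap 0 1 θ := by
    intro θ; simp [circleMap]
  by_cases hc : ∃ c : ℂ, ∀ z : ℂ, f z = c
  · obtain ⟨c, hc⟩ := hc
    have h1 : (fun a => Real.circleAverage (fun z => Real.log ‖f z - a‖) 0 r) =
        fun a => Real.log ‖a - c‖ := by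
      funext a
      have : (fun z => Real.log ‖f z - a‖) = fun _ => Real.log ‖a - c‖ := by
        funext z; rw [hc, norm_sub_rev]
      rw [this, Real.circleAverage_const]
    rw [h1]
    refine ⟨circleIntegrable_log_norm_sub_const τ, ?_⟩
    rw [circleAverage_log_norm_sub_const_eq_log_radius_add_posLog hτ.ne', Psi]
    have h2 : (fun z => Real.log (max ‖f z‖ τ)) = fun _ => Real.log (max ‖c‖ τ) := by
      funext z; rw [hc]
    rw [h2, Real.circleAverage_const, log_max_posLog (norm_nonneg _) hτ]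
    congr 2
    rw [zero_sub, norm_neg]; field_simp
  · set F : ℂ → ℂ := fun z => f z / τ with hF
    have hFd : Differentiable ℂ F := hf.div_const _
    have hFm : Meromorphic F := fun z => (hFd.analyticAt z).meromorphicAt
    have hτc : (τ : ℂ) ≠ 0 := by exact_mod_cast hτ.ne'
    have key : ∀ b : ℂ, Real.circleAverage (fun z => Real.log ‖f z - τ * b‖) 0 r =
        Real.log τ + Real.circleAverage (fun z => Real.log ‖F z - b‖) 0 r := by
      intro b
      have hG : AnalyticOnNhd ℂ (fun z => F z - b) Set.univ :=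
        fun z _ => (hFd.sub_const b).analyticAt z
      obtain ⟨x, hx⟩ : ∃ x, F x - b ≠ 0 := by
        by_contra hcon
        push Not at hcon
        apply hc
        refine ⟨τ * b, fun z => ?_⟩
        have := hcon z
        rw [sub_eq_zero] at this
        rw [← this, hF]; field_simp
      have hcod := hG.preimage_zero_mem_codiscrete hx
      have h1 : (fun z => Real.log ‖f z - τ * b‖) =ᶠ[codiscreteWithin (Metric.sphere 0 |r|)]
          fun z => Real.log τ + Real.log ‖F z - b‖ := by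
        have hcod' := Filter.codiscreteWithin_mono (Set.subset_univ (Metric.sphere (0:ℂ) |r|)) hcod
        filter_upwards [hcod'] with z hz
        have hz' : F z - b ≠ 0 := hz
        have h2 : f z - τ * b = τ * (F z - b) := by rw [hF]; field_simp
        rw [h2, norm_mul, Real.log_mul (by simpa using hτ.ne') (norm_ne_zero_iff.2 hz')]
        simp [abs_of_pos hτ]
      rw [Real.circleAverage_congr_codiscreteWithin h1 hr.ne',
        Real.circleAverage_fun_add (circleIntegrable_const _ _ _)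
          (MeromorphicOn.circleIntegrable_log_norm (f := fun z => F z - b)
            (fun z _ => ((hFd.sub_const b).analyticAt z).meromorphicAt)),
        Real.circleAverage_const]
    have hint : CircleIntegrable (fun b => Real.log τ +
        Real.circleAverage (fun z => Real.log ‖F z - b‖) 0 r) 0 1 :=
      (circleIntegrable_const _ _ _).add
        (ValueDistribution.circleIntegrable_circleAverage_log_norm_sub hFm)
    constructor
    · rw [CircleIntegrable] at hint ⊢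
      have h4 : (fun θ => (fun a => Real.circleAverage (fun z => Real.log ‖f z - a‖) 0 r)
          (circleMap 0 τ θ)) = fun θ => (fun b => Real.log τ +
            Real.circleAverage (fun z => Real.log ‖F z - b‖) 0 r) (circleMap 0 1 θ) := by
        funext θ
        simp only
        rw [hscale, key]
      rw [h4]
      exact hint
    · have h1 : Real.circleAverage
          (fun a => Real.circleAverage (fun z => Real.log ‖f z - a‖) 0 r) 0 τ =
          Real.circleAverage (fun b => Real.log τ +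
            Real.circleAverage (fun z => Real.log ‖F z - b‖) 0 r) 0 1 := by
        rw [Real.circleAverage_eq_circleAverage_zero_one]
        congr 1
        funext b
        rw [add_zero, key]
      have h2 := congrFun (ValueDistribution.circleAverage_circleAverage_eq_proximity_top hFm) r
      rw [h1, Real.circleAverage_fun_add (circleIntegrable_const _ _ _)
        (ValueDistribution.circleIntegrable_circleAverage_log_norm_sub hFm),
        Real.circleAverage_const, h2, ValueDistribution.proximity_top, Psi]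
      have h3 : CircleIntegrable (fun z => Real.posLog ‖F z‖) 0 r :=
        MeromorphicOn.circleIntegrable_posLog_norm (f := F) (fun z _ => hFm z)
      rw [← Real.circleAverage_const (Real.log τ) 0 r, ← Real.circleAverage_fun_add
        (circleIntegrable_const _ _ _) h3]
      congr 1
      funext z
      rw [log_max_posLog (norm_nonneg _) hτ, hF]
      simp [abs_of_pos hτ]

/-- If the truncated mean grows fast, then some value of modulus `τ` is taken often. -/
theorem exists_many {f : ℂ → ℂ} (hf : Differentiable ℂ f)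
    (hnc : ¬ ∃ c : ℂ, ∀ z : ℂ, f z = c) {r₁ r₂ τ v : ℝ}
    (hr1 : 0 < r₁) (h12 : r₁ < r₂) (hτ : 0 < τ)
    (hv : v * (Real.log r₂ - Real.log r₁) < Psi f τ r₂ - Psi f τ r₁) :
    ∃ a : ℂ, v < (nn f r₂ a : ℝ) := by
  classical
  by_contra hcon
  push Not at hcon
  have hr2 := hr1.trans h12
  obtain ⟨hi1, he1⟩ := average_value hf hr1 hτ
  obtain ⟨hi2, he2⟩ := average_value hf hr2 hτ
  have hlog : 0 ≤ Real.log r₂ - Real.log r₁ := by
    have := Real.log_le_log hr1 h12.le
    linarith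
  set K := v * (Real.log r₂ - Real.log r₁) with hK
  set D : ℂ → ℝ := fun a => Real.circleAverage (fun z => Real.log ‖f z - a‖) 0 r₂ -
    Real.circleAverage (fun z => Real.log ‖f z - a‖) 0 r₁ with hD
  have hDi : CircleIntegrable D 0 τ := hi2.sub hi1
  have hDe : Real.circleAverage D 0 τ = Psi f τ r₂ - Psi f τ r₁ := by
    rw [hD, Real.circleAverage_fun_sub hi2 hi1, he1, he2]
  set D' : ℂ → ℝ := fun a => if a = f 0 then K else D a with hD'
  have hcong : D =ᶠ[codiscreteWithin (Metric.sphere 0 |τ|)] D' := by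
    filter_upwards [compl_singleton_mem_codiscreteWithin (f 0)] with a ha
    have ha' : a ≠ f 0 := ha
    simp only [hD', if_neg ha']
  have hD'i : CircleIntegrable D' 0 τ := hDi.congr_codiscreteWithin hcong
  have hle : Real.circleAverage D' 0 τ ≤ K := by
    refine Real.circleAverage_mono_on_of_le_circle hD'i fun a _ => ?_
    simp only [hD']
    split_ifs with h
    · exact le_rfl
    · exact (jensen_upper hf hnc hr1 h12 h).trans (mul_le_mul_of_nonneg_right (hcon a) hlog)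
  rw [← Real.circleAverage_congr_codiscreteWithin hcong hτ.ne', hDe] at hle
  linarith

end RayCount

end

section
open Complex MeasureTheory Set Filter Topology

namespace RayMain

noncomputable section

theorem im_lip (x x' y : ℝ) (hy : |y| ≤ 1 / 2) :
    |(HH x' y).im - (HH x y).im| ≤ 50 * ep * |x' - x| := by
  rw [HH_im, HH_im]
  have he := ep_pos
  have h3 : 0 < ep ^ 2 := by positivity
  have hy' := abs_le.1 hy
  have hE1 : Real.exp (-y) ≤ 1.65 :=
    (Real.exp_le_exp.2 (by linarith)).trans exp_half_le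
  have hE2 : Real.exp (-2 * y) ≤ 2.72 := by
    have : Real.exp (-2 * y) ≤ Real.exp 1 := Real.exp_le_exp.2 (by linarith)
    have := Real.exp_one_lt_d9
    linarith
  have hp1 := Real.exp_pos (-y)
  have hp2 := Real.exp_pos (-2 * y)
  have b3 := Real.abs_sin_sub_sin_le (om * x' + rho * ep * y) (om * x + rho * ep * y)
  have b4 := Real.abs_cos_sub_cos_le (2 * om * x' + rho * ep * y) (2 * om * x + rho * ep * y)
  have hom : 0 < om := by unfold om; norm_num
  rw [show om * x' + rho * ep * y - (om * x + rho * ep * y) = om * (x' - x) by ring, abs_mul,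
    abs_of_pos hom] at b3
  rw [show 2 * om * x' + rho * ep * y - (2 * om * x + rho * ep * y) = (2 * om) * (x' - x) by ring,
    abs_mul, abs_of_pos (show 0 < 2 * om by positivity)] at b4
  set s' := Real.sin (om * x' + rho * ep * y)
  set s := Real.sin (om * x + rho * ep * y)
  set c' := Real.cos (2 * om * x' + rho * ep * y)
  set c := Real.cos (2 * om * x + rho * ep * y)
  set E := Real.exp (-y)
  set G := Real.exp (-2 * y)
  have key : -(AA * Real.cos (rho * ep * y) - 16 * ep ^ 2 * E * s' + 4 * ep ^ 2 * G * c')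
      - -(AA * Real.cos (rho * ep * y) - 16 * ep ^ 2 * E * s + 4 * ep ^ 2 * G * c)
      = 16 * ep ^ 2 * E * (s' - s) - 4 * ep ^ 2 * G * (c' - c) := by ring
  rw [key]
  have hX := abs_nonneg (x' - x)
  calc |16 * ep ^ 2 * E * (s' - s) - 4 * ep ^ 2 * G * (c' - c)|
      ≤ |16 * ep ^ 2 * E * (s' - s)| + |4 * ep ^ 2 * G * (c' - c)| := abs_sub _ _
    _ = 16 * ep ^ 2 * E * |s' - s| + 4 * ep ^ 2 * G * |c' - c| := by
        rw [abs_mul _ (s' - s), abs_mul _ (c' - c),
          abs_of_pos (show 0 < 16 * ep ^ 2 * E by positivity),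
          abs_of_pos (show 0 < 4 * ep ^ 2 * G by positivity)]
    _ ≤ 16 * ep ^ 2 * 1.65 * (om * |x' - x|) + 4 * ep ^ 2 * 2.72 * (2 * om * |x' - x|) := by
        gcongr
    _ = (16 * 1.65 + 4 * 2.72 * 2) * ep * (om * ep) * |x' - x| := by ring
    _ ≤ 50 * ep * |x' - x| := by
        rw [om_ep]
        have : 0 ≤ ep * |x' - x| := by positivity
        nlinarith

theorem im_size (x y : ℝ) (hy : |y| ≤ 1 / 2) : |(HH x y).im| ≤ 3.2 := by
  rw [HH_im, abs_neg]
  have he := ep_pos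
  have h3 : 0 < ep ^ 2 := by positivity
  have hy' := abs_le.1 hy
  have hE1 : Real.exp (-y) ≤ 1.65 :=
    (Real.exp_le_exp.2 (by linarith)).trans exp_half_le
  have hE2 : Real.exp (-2 * y) ≤ 2.72 := by
    have : Real.exp (-2 * y) ≤ Real.exp 1 := Real.exp_le_exp.2 (by linarith)
    have := Real.exp_one_lt_d9
    linarith
  have hp1 := Real.exp_pos (-y)
  have hp2 := Real.exp_pos (-2 * y)
  have h1 := Real.abs_cos_le_one (rho * ep * y)
  have h2 := Real.abs_sin_le_one (om * x + rho * ep * y)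
  have h4 := Real.abs_cos_le_one (2 * om * x + rho * ep * y)
  have hA := AA_hi
  have hA' := AA_lo
  set s := Real.sin (om * x + rho * ep * y)
  set c := Real.cos (2 * om * x + rho * ep * y)
  set d := Real.cos (rho * ep * y)
  set E := Real.exp (-y)
  set G := Real.exp (-2 * y)
  calc |AA * d - 16 * ep ^ 2 * E * s + 4 * ep ^ 2 * G * c|
      ≤ |AA * d - 16 * ep ^ 2 * E * s| + |4 * ep ^ 2 * G * c| := abs_add_le _ _
    _ ≤ |AA * d| + |16 * ep ^ 2 * E * s| + |4 * ep ^ 2 * G * c| := by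
        gcongr; exact abs_sub _ _
    _ = AA * |d| + 16 * ep ^ 2 * E * |s| + 4 * ep ^ 2 * G * |c| := by
        rw [abs_mul _ d, abs_mul _ s, abs_mul _ c,
          abs_of_pos (show 0 < 16 * ep ^ 2 * E by positivity),
          abs_of_pos (show 0 < 4 * ep ^ 2 * G by positivity), abs_of_pos (by linarith : 0 < AA)]
    _ ≤ 3.15 * 1 + 16 * ep ^ 2 * 1.65 * 1 + 4 * ep ^ 2 * 2.72 * 1 := by gcongr
    _ ≤ 3.2 := by unfold ep; norm_num

/-- `r^ρ` changes little -/
theorem rpow_shift_lo (r : ℝ) (hr : 0 < r) :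
    (1 - ep ^ 3) * r ^ rho ≤ (r * Real.exp (-(ep ^ 3))) ^ rho := by
  rw [Real.mul_rpow hr.le (Real.exp_pos _).le, mul_comm]
  apply mul_le_mul_of_nonneg_left _ (Real.rpow_nonneg hr.le _)
  rw [← Real.exp_mul]
  have h1 := Real.add_one_le_exp (-(ep ^ 3) * rho)
  have he : 0 < ep ^ 3 := by have := ep_pos; positivity
  have := rho_lt
  nlinarith

theorem rpow_shift_hi (r : ℝ) (hr : 0 < r) :
    (r * Real.exp (ep ^ 3)) ^ rho ≤ (1 + ep ^ 3) * r ^ rho := by
  rw [Real.mul_rpow hr.le (Real.exp_pos _).le, mul_comm]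
  apply mul_le_mul_of_nonneg_right _ (Real.rpow_nonneg hr.le _)
  rw [← Real.exp_mul]
  have he : 0 < ep ^ 3 := by have := ep_pos; positivity
  have hr1 := rho_lt
  have hr0 := rho_pos
  have h1 := Real.add_one_le_exp (-(ep ^ 3 * rho))
  have h2 : Real.exp (ep ^ 3 * rho) * Real.exp (-(ep ^ 3 * rho)) = 1 := by
    rw [← Real.exp_add]; simp
  have h3 := Real.exp_pos (ep ^ 3 * rho)
  have h4 : ep ^ 3 * rho ≤ 0.51 * ep ^ 3 := by nlinarith
  have h5 : ep ^ 3 ≤ 0.01 := by unfold ep; norm_num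
  have h6 : Real.exp (ep ^ 3 * rho) * (1 - 0.51 * ep ^ 3) ≤ 1 := by
    rw [← h2]
    apply mul_le_mul_of_nonneg_left _ h3.le
    linarith
  by_contra hc
  push Not at hc
  have h7 : (1 + ep ^ 3) * (1 - 0.51 * ep ^ 3) ≤ 1 := by
    refine le_trans ?_ h6
    apply mul_le_mul_of_nonneg_right hc.le
    linarith
  nlinarith

end

end RayMain

end

section
open Complex MeasureTheory Set Filter Topology

namespace RayMain

noncomputable section

theorem ep3_pos : 0 < ep ^ 3 := by have := ep_pos; positivity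

theorem ep3_eq : ep ^ 3 = ep ^ 2 / 100000 := by unfold ep; norm_num

theorem continuous_th : Continuous th := by unfold th; fun_prop

/-- lower bound for the size of `-Im` at `y = 0` -/
theorem im_zero_lo (x : ℝ) : 3 ≤ -(HH x 0).im := by
  rw [HH_im, neg_neg]
  have h1 := AA_lo
  have h2 := Real.sin_le_one (om * x + rho * ep * 0)
  have h3 := Real.neg_one_le_cos (2 * om * x + rho * ep * 0)
  have h4 : Real.exp (-0) = 1 := by simp
  have h5 : Real.exp (-2 * 0) = 1 := by simp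
  have h6 : Real.cos (rho * ep * 0) = 1 := by simp
  rw [h4, h5, h6]
  have he : ep ^ 2 ≤ 0.001 := by unfold ep; norm_num
  have he0 : 0 < ep ^ 2 := by have := ep_pos; positivity
  nlinarith

/-- real numbers: lower estimate of the numerator -/
theorem arith_lo (P P0 L ν ν0 : ℝ) (hν : 0 < ν) (h0 : (1 - ep ^ 3) * ν ≤ ν0) (h1 : ν0 ≤ ν)
    (hP : |P| ≤ 3.2) (hPP : |P0 - P| ≤ 50 * ep * ep ^ 3) (hL : |L - ν0 * P0| ≤ 21 * ep ^ 3 * ν0) :
    ν * (P - 25.5 * ep ^ 3) ≤ L := by
  have he := ep3_pos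
  have hee : 50 * ep * ep ^ 3 ≤ 0.1 * ep ^ 3 := by
    have : 50 * ep ≤ 0.1 := by unfold ep; norm_num
    nlinarith
  have hν0 : 0 < ν0 := by
    have : ep ^ 3 ≤ 0.5 := by unfold ep; norm_num
    nlinarith
  have a1 := (abs_le.1 hP)
  have a2 := (abs_le.1 hPP)
  have a3 := (abs_le.1 hL)
  have b1 : ν0 * (P - 0.1 * ep ^ 3) ≤ ν0 * P0 := by
    apply mul_le_mul_of_nonneg_left _ hν0.le; linarith
  have b2 : ν * P - 3.2 * (ν - ν0) ≤ ν0 * P := by nlinarith
  nlinarith

theorem arith_hi (P P0 L ν ν2 : ℝ) (hν : 0 < ν) (h0 : ν2 ≤ (1 + ep ^ 3) * ν) (h1 : ν ≤ ν2)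
    (hP : |P| ≤ 3.2) (hPP : |P0 - P| ≤ 50 * ep * ep ^ 3) (hL : |L - ν2 * P0| ≤ 21 * ep ^ 3 * ν2) :
    L ≤ ν * (P + 25.5 * ep ^ 3) := by
  have he := ep3_pos
  have hee : 50 * ep * ep ^ 3 ≤ 0.1 * ep ^ 3 := by
    have : 50 * ep ≤ 0.1 := by unfold ep; norm_num
    nlinarith
  have he1 : ep ^ 3 ≤ 0.001 := by unfold ep; norm_num
  have a1 := (abs_le.1 hP)
  have a2 := (abs_le.1 hPP)
  have a3 := (abs_le.1 hL)
  have hν2 : 0 < ν2 := by linarith
  have b1 : ν2 * P0 ≤ ν2 * (P + 0.1 * ep ^ 3) := by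
    apply mul_le_mul_of_nonneg_left _ hν2.le; linarith
  have b2 : ν2 * P ≤ ν * P + 3.2 * (ν2 - ν) := by nlinarith
  have b3 : ν2 * ep ^ 3 ≤ 1.001 * ν * ep ^ 3 := by
    apply mul_le_mul_of_nonneg_right _ he.le
    nlinarith
  nlinarith

theorem core {f Λ : ℂ → ℂ} (hfc : Continuous f)
    (hexp : ∀ r y : ℝ, 0 < r → |y| ≤ 1 / 2 →
      Complex.exp (Λ (r * Complex.exp ((th y : ℝ) * I))) = f (r * Complex.exp ((th y : ℝ) * I)))
    (hpl : ∀ r₁ r₂ θ : ℝ, 0 < r₁ → r₁ < r₂ → 0 < θ → θ < Real.pi →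
      (-(Λ (r₁ * Complex.exp (θ * I))).im / Real.pi) * (Real.log r₂ - Real.log r₁) ≤
        RayCount.Psi f ‖f (r₁ * Complex.exp (θ * I))‖ r₂
          - RayCount.Psi f ‖f (r₁ * Complex.exp (θ * I))‖ r₁)
    (hpu : ∀ r₁ r₂ θ : ℝ, 0 < r₁ → r₁ < r₂ → 0 < θ → θ < Real.pi →
      RayCount.Psi f ‖f (r₂ * Complex.exp (θ * I))‖ r₂
        - RayCount.Psi f ‖f (r₂ * Complex.exp (θ * I))‖ r₁ ≤
        (-(Λ (r₂ * Complex.exp (θ * I))).im / Real.pi) * (Real.log r₂ - Real.log r₁))
    (hmany : ∀ r₁ r₂ τ v : ℝ, 0 < r₁ → r₁ < r₂ → 0 < τ →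
      v * (Real.log r₂ - Real.log r₁) < RayCount.Psi f τ r₂ - RayCount.Psi f τ r₁ →
      ∃ a : ℂ, v < (RayCount.nn f r₂ a : ℝ))
    (harea : ∀ r₁ r₂ T B M : ℝ, 0 < r₁ → r₁ < r₂ → 2 ≤ T → 0 ≤ B → 0 ≤ M →
      (∀ τ ∈ Icc T⁻¹ T, RayCount.Psi f τ r₂ - RayCount.Psi f τ r₁
        ≤ B * (Real.log r₂ - Real.log r₁)) →
      (∀ z : ℂ, ‖z‖ ≤ 3 * r₁ → ‖f z‖ ≤ Real.exp M) →
      (∫⁻ b : ℂ, ((RayCount.nn f r₁ b : ℕ) : ENNReal) / ENNReal.ofReal ((1 + ‖b‖ ^ 2) ^ 2)) ≤
        ENNReal.ofReal (Real.pi * (B + 4 * (M + 3) / T ^ 2)))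
    {M R₀ : ℝ} (hM : 0 ≤ M) (hbd : ∀ z : ℂ, ‖f z‖ ≤ Real.exp (M * ‖z‖))
    (hasy : ∀ r : ℝ, R₀ ≤ r → 0 < r → ∀ y : ℝ, |y| ≤ 1 / 2 →
      ‖Λ (r * Complex.exp ((th y : ℝ) * I)) - ((r ^ rho : ℝ) : ℂ) * HH (Real.log r) y‖
        ≤ 21 * ep ^ 3 * r ^ rho)
    (r : ℝ) (h1 : 2 * R₀ ≤ r) (h2 : 2 ≤ r) (h3 : Real.log r ≤ 9 * ep ^ 2 * r ^ rho)
    (h4 : 4 * (3 * M * r + 3) / r ^ 2 ≤ 1) (h5 : 4 * Real.pi ≤ 0.12 * ep ^ 2 * r ^ rho) :
    ∃ a : ℂ, ENNReal.ofReal ((1 + ep ^ 3) / Real.pi) *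
      (∫⁻ b : ℂ, ((RayCount.nn f r b : ℕ) : ENNReal) / ENNReal.ofReal ((1 + ‖b‖ ^ 2) ^ 2))
      < ((RayCount.nn f r a : ℕ) : ENNReal) := by
  have he := ep_pos
  have he3 := ep3_pos
  have he2 : 0 < ep ^ 2 := by positivity
  have hr : 0 < r := by linarith
  have hpi := Real.pi_pos
  set ν := r ^ rho with hν
  have hν0 : 0 < ν := Real.rpow_pos_of_pos hr _
  set r0 := r * Real.exp (-(ep ^ 3)) with hr0
  set r2 := r * Real.exp (ep ^ 3) with hr2
  have hr0pos : 0 < r0 := mul_pos hr (Real.exp_pos _)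
  have hr2pos : 0 < r2 := mul_pos hr (Real.exp_pos _)
  have hr0lt : r0 < r := by
    have : Real.exp (-(ep ^ 3)) < 1 := by
      rw [Real.exp_lt_one_iff]; linarith
    rw [hr0]; nlinarith
  have hr2gt : r < r2 := by
    have : 1 < Real.exp (ep ^ 3) := by
      rw [Real.one_lt_exp_iff]; exact he3
    rw [hr2]; nlinarith
  have hlog0 : Real.log r0 = Real.log r - ep ^ 3 := by
    rw [hr0, Real.log_mul hr.ne' (Real.exp_pos _).ne', Real.log_exp]; ring
  have hlog2 : Real.log r2 = Real.log r + ep ^ 3 := by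
    rw [hr2, Real.log_mul hr.ne' (Real.exp_pos _).ne', Real.log_exp]
  have hR0 : R₀ ≤ r0 := by
    have h := Real.add_one_le_exp (-(ep ^ 3))
    have : ep ^ 3 ≤ 0.5 := by unfold ep; norm_num
    have : r / 2 ≤ r0 := by rw [hr0]; nlinarith
    linarith
  have hR2 : R₀ ≤ r2 := by linarith
  have hν0' := rpow_shift_lo r hr
  have hν2' := rpow_shift_hi r hr
  rw [← hr0, ← hν] at hν0'
  rw [← hr2, ← hν] at hν2'
  set ν0 := r0 ^ rho with hν0def
  set ν2 := r2 ^ rho with hν2def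
  have hνle : ν0 ≤ ν := Real.rpow_le_rpow hr0pos.le hr0lt.le rho_pos.le
  have hνge : ν ≤ ν2 := Real.rpow_le_rpow hr.le hr2gt.le rho_pos.le
  have hν2pos : 0 < ν2 := by linarith
  set x := Real.log r with hx
  obtain ⟨y0, hy0, hgain⟩ := im_gain x
  have hy0' : |y0| ≤ 1 / 2 := by linarith
  have hy0'' := abs_le.1 hy0'
  set P := -(HH x y0).im with hP
  have hPs : |P| ≤ 3.2 := by rw [hP, abs_neg]; exact im_size x y0 hy0'
  have hPlo : 3 ≤ P := by
    have := hgain 0 (by rw [abs_zero]; positivity)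
    have := im_zero_lo x
    linarith
  -- lower bound for the numerator
  set L := -(Λ (r0 * Complex.exp ((th y0 : ℝ) * I))).im with hL
  have hLlo : ν * (P - 25.5 * ep ^ 3) ≤ L := by
    apply arith_lo P (-(HH (x - ep ^ 3) y0).im) L ν ν0 hν0 hν0' hνle hPs
    · have := im_lip x (x - ep ^ 3) y0 hy0'
      rw [hP, neg_sub_neg, abs_sub_comm]
      refine this.trans (le_of_eq ?_)
      rw [sub_sub_cancel_left, abs_neg, abs_of_pos he3]
    · have h := hasy r0 hR0 hr0pos y0 hy0'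
      rw [hlog0] at h
      have h' := (Complex.abs_im_le_norm _).trans h
      rw [Complex.sub_im, Complex.im_ofReal_mul] at h'
      rw [hL]
      rw [show -(Λ (r0 * Complex.exp ((th y0 : ℝ) * I))).im - ν0 * -(HH (x - ep ^ 3) y0).im
        = -((Λ (r0 * Complex.exp ((th y0 : ℝ) * I))).im - ν0 * (HH (x - ep ^ 3) y0).im) by ring,
        abs_neg]
      exact h'
  -- a value taken often
  have hθ0 := th_pos (y := y0) (by linarith)
  have hθ1 := th_lt (y := y0) (by linarith)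
  have hτ0 : 0 < ‖f (r0 * Complex.exp ((th y0 : ℝ) * I))‖ := by
    rw [← hexp r0 y0 hr0pos hy0']
    exact norm_pos_iff.2 (Complex.exp_ne_zero _)
  obtain ⟨a, ha⟩ := hmany r0 r _ (L / Real.pi - 1) hr0pos hr0lt hτ0 (by
    have h := hpl r0 r (th y0) hr0pos hr0lt hθ0 hθ1
    refine lt_of_lt_of_le ?_ h
    have : 0 < Real.log r - Real.log r0 := by rw [hlog0]; linarith
    apply mul_lt_mul_of_pos_right _ this
    rw [← hL]
    linarith)
  refine ⟨a, ?_⟩
  -- upper bound for the area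
  set B := ν * (P - 0.13 * ep ^ 2 + 25.5 * ep ^ 3) / Real.pi with hB
  have hB0 : 0 ≤ B := by
    apply div_nonneg _ hpi.le
    apply mul_nonneg hν0.le
    have : ep ^ 2 ≤ 0.01 := by unfold ep; norm_num
    nlinarith
  have hup : ∀ y : ℝ, |y| ≤ 20 * ep →
      -(Λ (r2 * Complex.exp ((th y : ℝ) * I))).im ≤ B * Real.pi := by
    intro y hy
    have hyy : |y| ≤ 1 / 2 := by refine hy.trans ?_; unfold ep; norm_num
    have hBpi : B * Real.pi = ν * (P - 0.13 * ep ^ 2 + 25.5 * ep ^ 3) := by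
      rw [hB]; field_simp
    rw [hBpi]
    have hg := hgain y hy
    have k := arith_hi (-(HH x y).im) (-(HH (x + ep ^ 3) y).im)
      (-(Λ (r2 * Complex.exp ((th y : ℝ) * I))).im) ν ν2 hν0 hν2' hνge
      (by rw [abs_neg]; exact im_size x y hyy)
      (by
        have := im_lip x (x + ep ^ 3) y hyy
        rw [neg_sub_neg, abs_sub_comm]
        refine this.trans (le_of_eq ?_)
        rw [add_sub_cancel_left, abs_of_pos he3])
      (by
        have h := hasy r2 hR2 hr2pos y hyy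
        rw [hlog2] at h
        have h' := (Complex.abs_im_le_norm _).trans h
        rw [Complex.sub_im, Complex.im_ofReal_mul] at h'
        rw [show -(Λ (r2 * Complex.exp ((th y : ℝ) * I))).im - ν2 * -(HH (x + ep ^ 3) y).im
          = -((Λ (r2 * Complex.exp ((th y : ℝ) * I))).im - ν2 * (HH (x + ep ^ 3) y).im) by ring,
          abs_neg]
        exact h')
    refine k.trans ?_
    apply mul_le_mul_of_nonneg_left _ hν0.le
    linarith
  have hmod : ∀ y : ℝ, |y| ≤ 1 / 2 → ‖f (r2 * Complex.exp ((th y : ℝ) * I))‖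
      = Real.exp ((Λ (r2 * Complex.exp ((th y : ℝ) * I))).re) := by
    intro y hy
    rw [← hexp r2 y hr2pos hy, Complex.norm_exp]
  have hreb : ∀ y : ℝ, |y| ≤ 1 / 2 → |(Λ (r2 * Complex.exp ((th y : ℝ) * I))).re
      - ν2 * (HH (x + ep ^ 3) y).re| ≤ 21 * ep ^ 3 * ν2 := by
    intro y hy
    have h := hasy r2 hR2 hr2pos y hy
    rw [hlog2] at h
    have h' := (Complex.abs_re_le_norm _).trans h
    rw [Complex.sub_re, Complex.re_ofReal_mul] at h'
    exact h'
  have h20 : |20 * ep| ≤ 1 / 2 := by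
    rw [abs_of_pos (by positivity)]; unfold ep; norm_num
  have h20' : |-(20 * ep)| ≤ 1 / 2 := by rw [abs_neg]; exact h20
  have hlogr : x ≤ 9 * ep ^ 2 * ν2 := by
    refine h3.trans ?_
    apply mul_le_mul_of_nonneg_left hνge (by positivity)
  have hgr : r ≤ ‖f (r2 * Complex.exp ((th (20 * ep) : ℝ) * I))‖ := by
    rw [hmod _ h20]
    have k1 := (abs_le.1 (hreb _ h20)).1
    have k2 := re_hi (x + ep ^ 3)
    have k3 : ν2 * (10 * ep ^ 2) ≤ ν2 * (HH (x + ep ^ 3) (20 * ep)).re :=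
      mul_le_mul_of_nonneg_left k2 hν2pos.le
    have k4 : x ≤ (Λ (r2 * Complex.exp ((th (20 * ep) : ℝ) * I))).re := by
      have k5 : 21 * ep ^ 3 * ν2 ≤ ep ^ 2 * ν2 := by
        apply mul_le_mul_of_nonneg_right _ hν2pos.le
        rw [ep3_eq]; linarith
      nlinarith
    calc r = Real.exp x := by rw [hx, Real.exp_log hr]
      _ ≤ _ := Real.exp_le_exp.2 k4
  have hls : ‖f (r2 * Complex.exp ((th (-(20 * ep)) : ℝ) * I))‖ ≤ r⁻¹ := by
    rw [hmod _ h20']
    have k1 := (abs_le.1 (hreb _ h20')).2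
    have k2 := re_lo (x + ep ^ 3)
    have k3 : ν2 * (HH (x + ep ^ 3) (-(20 * ep))).re ≤ ν2 * (-(10 * ep ^ 2)) :=
      mul_le_mul_of_nonneg_left k2 hν2pos.le
    have k4 : (Λ (r2 * Complex.exp ((th (-(20 * ep)) : ℝ) * I))).re ≤ -x := by
      have k5 : 21 * ep ^ 3 * ν2 ≤ ep ^ 2 * ν2 := by
        apply mul_le_mul_of_nonneg_right _ hν2pos.le
        rw [ep3_eq]; linarith
      nlinarith
    calc _ ≤ Real.exp (-x) := Real.exp_le_exp.2 k4
      _ = r⁻¹ := by rw [Real.exp_neg, hx, Real.exp_log hr]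
  have hBτ : ∀ τ ∈ Icc r⁻¹ r, RayCount.Psi f τ r2 - RayCount.Psi f τ r
      ≤ B * (Real.log r2 - Real.log r) := by
    intro τ hτ
    have hcont : Continuous (fun y : ℝ => ‖f (r2 * Complex.exp ((th y : ℝ) * I))‖) := by
      have := continuous_th
      fun_prop
    have hle : -(20 * ep) ≤ 20 * ep := by linarith
    obtain ⟨y, hy, hyτ⟩ := intermediate_value_Icc hle hcont.continuousOn
      (show τ ∈ Icc _ _ from ⟨hls.trans hτ.1, hτ.2.trans hgr⟩)
    have hya : |y| ≤ 20 * ep := abs_le.2 hy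
    have hyy : |y| ≤ 1 / 2 := by refine hya.trans ?_; unfold ep; norm_num
    have hyy' := abs_le.1 hyy
    have hyτ' : ‖f (r2 * Complex.exp ((th y : ℝ) * I))‖ = τ := hyτ
    have k := hpu r r2 (th y) hr hr2gt (th_pos (by linarith)) (th_lt (by linarith))
    rw [hyτ'] at k
    refine k.trans ?_
    have : 0 < Real.log r2 - Real.log r := by rw [hlog2]; linarith
    apply mul_le_mul_of_nonneg_right _ this.le
    rw [div_le_iff₀ hpi]
    exact hup y hya
  have hA := harea r r2 r B (3 * M * r) hr hr2gt h2 hB0 (by positivity) hBτ (by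
    intro z hz
    refine (hbd z).trans (Real.exp_le_exp.2 ?_)
    calc M * ‖z‖ ≤ M * (3 * r) := by gcongr
      _ = 3 * M * r := by ring)
  have hreal : (1 + ep ^ 3) * (B + 4 * (3 * M * r + 3) / r ^ 2) ≤ L / Real.pi - 1 := by
    have k1 : (1 + ep ^ 3) * (B + 4 * (3 * M * r + 3) / r ^ 2) ≤ (1 + ep ^ 3) * (B + 1) := by
      gcongr
    refine k1.trans ?_
    have k2 : ν * (P - 25.5 * ep ^ 3) / Real.pi ≤ L / Real.pi := by gcongr
    have k3 : (1 + ep ^ 3) * (B + 1) ≤ ν * (P - 25.5 * ep ^ 3) / Real.pi - 1 := by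
      rw [hB]
      rw [← sub_nonneg]
      have : ν * (P - 25.5 * ep ^ 3) / Real.pi - 1
          - (1 + ep ^ 3) * (ν * (P - 0.13 * ep ^ 2 + 25.5 * ep ^ 3) / Real.pi + 1)
          = (ν * (P - 25.5 * ep ^ 3) - Real.pi
          - (1 + ep ^ 3) * (ν * (P - 0.13 * ep ^ 2 + 25.5 * ep ^ 3) + Real.pi)) / Real.pi := by
        field_simp
      rw [this]
      apply div_nonneg _ hpi.le
      have hPs' := abs_le.1 hPs
      have k5 : (1 + ep ^ 3) * (P - 0.13 * ep ^ 2 + 25.5 * ep ^ 3)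
          ≤ P - 0.13 * ep ^ 2 + 30 * ep ^ 3 := by
        have : P - 0.13 * ep ^ 2 + 25.5 * ep ^ 3 ≤ 3.3 := by
          have : ep ^ 3 ≤ 0.001 := by unfold ep; norm_num
          nlinarith
        nlinarith
      have k6 : ν * ((1 + ep ^ 3) * (P - 0.13 * ep ^ 2 + 25.5 * ep ^ 3))
          ≤ ν * (P - 0.13 * ep ^ 2 + 30 * ep ^ 3) := mul_le_mul_of_nonneg_left k5 hν0.le
      have k7 : 55.5 * ep ^ 3 ≤ 0.01 * ep ^ 2 := by rw [ep3_eq]; linarith
      have k8 : ν * (55.5 * ep ^ 3) ≤ ν * (0.01 * ep ^ 2) := mul_le_mul_of_nonneg_left k7 hν0.le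
      have k9 : ep ^ 3 * Real.pi ≤ Real.pi := by
        have : ep ^ 3 ≤ 1 := by unfold ep; norm_num
        nlinarith
      nlinarith
    linarith
  have hpos : 0 ≤ B + 4 * (3 * M * r + 3) / r ^ 2 := by positivity
  calc ENNReal.ofReal ((1 + ep ^ 3) / Real.pi) *
      (∫⁻ b : ℂ, ((RayCount.nn f r b : ℕ) : ENNReal) / ENNReal.ofReal ((1 + ‖b‖ ^ 2) ^ 2))
      ≤ ENNReal.ofReal ((1 + ep ^ 3) / Real.pi) *
        ENNReal.ofReal (Real.pi * (B + 4 * (3 * M * r + 3) / r ^ 2)) := by gcongr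
    _ = ENNReal.ofReal ((1 + ep ^ 3) * (B + 4 * (3 * M * r + 3) / r ^ 2)) := by
        rw [← ENNReal.ofReal_mul (by positivity)]
        congr 1
        field_simp
    _ ≤ ENNReal.ofReal (L / Real.pi - 1) := ENNReal.ofReal_le_ofReal hreal
    _ < ((RayCount.nn f r a : ℕ) : ENNReal) := by
        have hpp : 0 ≤ L / Real.pi - 1 := le_trans (by positivity) hreal
        have hnn : (0 : ℝ) < (RayCount.nn f r a : ℝ) := lt_of_le_of_lt hpp ha
        rw [← ENNReal.ofReal_natCast, ENNReal.ofReal_lt_ofReal_iff hnn]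
        exact ha

end

end RayMain

end

section
open Complex MeasureTheory Set Filter Topology

namespace RayProduct

/-- entire function with positive zeros `t k` -/
noncomputable def f (t : ℕ → ℝ) (z : ℂ) : ℂ := ∏' k, (1 - z / (t k : ℂ))

/-- its logarithm off the positive real axis -/
noncomputable def Lam (t : ℕ → ℝ) (z : ℂ) : ℂ := ∑' k, Complex.log (1 - z / (t k : ℂ))

theorem norm_neg_div_le {t : ℕ → ℝ} (ht : ∀ k, 0 < t k) {R : ℝ} {x : ℂ} (hx : ‖x‖ ≤ R) (k : ℕ) :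
    ‖-(x / (t k : ℂ))‖ ≤ R * (t k)⁻¹ := by
  rw [norm_neg, norm_div, Complex.norm_real, Real.norm_of_nonneg (ht k).le, div_eq_mul_inv]
  exact mul_le_mul_of_nonneg_right hx (inv_nonneg.mpr (ht k).le)

theorem one_sub_mem_slitPlane {a : ℝ} (ha : 0 < a) {z : ℂ} (hz : -z ∈ slitPlane) :
    1 - z / (a : ℂ) ∈ slitPlane := by
  rw [mem_slitPlane_iff] at hz ⊢
  simp only [neg_re, neg_im, sub_re, sub_im, one_re, one_im, div_ofReal_re, div_ofReal_im] at hz ⊢
  rcases hz with h | h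
  · left
    have : z.re / a < 0 := div_neg_of_neg_of_pos (by linarith) ha
    linarith
  · right
    intro h2
    apply h
    have h3 : z.im / a = 0 := by linarith
    rcases div_eq_zero_iff.mp h3 with h4 | h4
    · rw [h4, neg_zero]
    · exact absurd h4 ha.ne'

theorem differentiable_f {t : ℕ → ℝ} (ht : ∀ k, 0 < t k) (hs : Summable fun k => (t k)⁻¹) :
    Differentiable ℂ (f t) := by
  intro z
  have hK : IsOpen (Metric.ball (0 : ℂ) (‖z‖ + 1)) := Metric.isOpen_ball
  have h1 : HasProdLocallyUniformlyOn (fun k (x : ℂ) => 1 + -(x / (t k : ℂ)))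
      (fun x => ∏' k, (1 + -(x / (t k : ℂ)))) (Metric.ball (0 : ℂ) (‖z‖ + 1)) := by
    refine Summable.hasProdLocallyUniformlyOn_nat_one_add hK
      (hs.mul_left (‖z‖ + 1)) (Eventually.of_forall fun k x hx => ?_) (fun k => ?_)
    · exact norm_neg_div_le ht (by simpa using (mem_ball_zero_iff.mp hx).le) k
    · exact ((continuous_id.div_const _).neg).continuousOn
  rw [hasProdLocallyUniformlyOn_iff_tendstoLocallyUniformlyOn] at h1
  have h2 : DifferentiableOn ℂ (fun x => ∏' k, (1 + -(x / (t k : ℂ))))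
      (Metric.ball (0 : ℂ) (‖z‖ + 1)) := by
    refine h1.differentiableOn (Eventually.of_forall fun s => ?_) hK
    refine DifferentiableOn.fun_finsetProd fun k _ => ?_
    exact (((differentiable_id.div_const _).neg).const_add _).differentiableOn
  have h3 : f t = fun x => ∏' k, (1 + -(x / (t k : ℂ))) := by
    funext x
    simp only [f, sub_eq_add_neg]
  rw [h3]
  exact h2.differentiableAt (hK.mem_nhds (by simp))

theorem f_zero (t : ℕ → ℝ) : f t 0 = 1 := by
  simp [f]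

/-- `f` vanishes at its zeros (so it is not constant) -/
theorem f_zeros {t : ℕ → ℝ} (ht : ∀ k, 0 < t k) (hs : Summable fun k => (t k)⁻¹) (k : ℕ) :
    f t (t k) = 0 := by
  refine tprod_of_exists_eq_zero ⟨k, ?_⟩
  have : (t k : ℂ) ≠ 0 := Complex.ofReal_ne_zero.mpr (ht k).ne'
  rw [div_self this, sub_self]

theorem summable_log {t : ℕ → ℝ} (ht : ∀ k, 0 < t k) (hs : Summable fun k => (t k)⁻¹) (z : ℂ) :
    Summable fun k => Complex.log (1 - z / (t k : ℂ)) := by
  have h1 : Summable fun k => -(z / (t k : ℂ)) :=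
    Summable.of_norm_bounded (hs.mul_left ‖z‖) fun k => norm_neg_div_le ht le_rfl k
  have h2 := Complex.summable_log_one_add_of_summable h1
  simpa only [sub_eq_add_neg] using h2

theorem exp_Lam {t : ℕ → ℝ} (ht : ∀ k, 0 < t k) (hs : Summable fun k => (t k)⁻¹) {z : ℂ}
    (hz : -z ∈ slitPlane) : Complex.exp (Lam t z) = f t z :=
  Complex.cexp_tsum_eq_tprod (fun k => slitPlane_ne_zero (one_sub_mem_slitPlane (ht k) hz))
    (summable_log ht hs z)

theorem differentiableOn_Lam {t : ℕ → ℝ} (ht : ∀ k, 0 < t k) (hs : Summable fun k => (t k)⁻¹) :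
    DifferentiableOn ℂ (Lam t) {z : ℂ | -z ∈ slitPlane} := by
  intro z hz
  have hU : IsOpen {z : ℂ | -z ∈ slitPlane} := Complex.isOpen_slitPlane.preimage continuous_neg
  obtain ⟨r, hr, hball⟩ := Metric.isOpen_iff.mp hU z hz
  have h1 : TendstoUniformlyOn (fun n (x : ℂ) => ∑ m ∈ Finset.range n,
      Complex.log (1 + -(x / (t m : ℂ)))) (fun x => ∑' n, Complex.log (1 + -(x / (t n : ℂ))))
      atTop (Metric.ball z r) := by
    refine Summable.tendstoUniformlyOn_tsum_nat_log_one_add (hs.mul_left (‖z‖ + r))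
      (Eventually.of_forall fun k x hx => ?_)
    refine norm_neg_div_le ht ?_ k
    have h2 : ‖x - z‖ < r := mem_ball_iff_norm.mp hx
    calc ‖x‖ = ‖z + (x - z)‖ := by congr 1; ring
      _ ≤ ‖z‖ + ‖x - z‖ := norm_add_le _ _
      _ ≤ _ := by linarith
  have h2 : DifferentiableOn ℂ (fun x => ∑' n, Complex.log (1 + -(x / (t n : ℂ))))
      (Metric.ball z r) := by
    refine h1.tendstoLocallyUniformlyOn.differentiableOn (Eventually.of_forall fun n => ?_)
      Metric.isOpen_ball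
    refine DifferentiableOn.fun_sum fun k _ => ?_
    intro x hx
    have h3 : 1 - x / (t k : ℂ) ∈ slitPlane := one_sub_mem_slitPlane (ht k) (hball hx)
    rw [sub_eq_add_neg] at h3
    have h4 : Differentiable ℂ (fun x : ℂ => 1 + -(x / (t k : ℂ))) :=
      ((differentiable_id.div_const _).neg).const_add _
    exact ((h4 x).clog h3).differentiableWithinAt
  have h3 : Lam t = fun x => ∑' n, Complex.log (1 + -(x / (t n : ℂ))) := by
    funext x
    simp only [Lam, sub_eq_add_neg]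
  rw [h3]
  exact (h2.differentiableAt (Metric.ball_mem_nhds z hr)).differentiableWithinAt

end RayProduct

end

section
open Complex MeasureTheory Set Filter Topology

namespace RayProductB

/-- entire function with positive zeros `t k` -/
noncomputable def f (t : ℕ → ℝ) (z : ℂ) : ℂ := ∏' k, (1 - z / (t k : ℂ))

/-- its logarithm off the positive real axis -/
noncomputable def Lam (t : ℕ → ℝ) (z : ℂ) : ℂ := ∑' k, Complex.log (1 - z / (t k : ℂ))

lemma summable_aux {t : ℕ → ℝ} (hs : Summable fun k => (t k)⁻¹) (z : ℂ) :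
    Summable fun k => -(z / (t k : ℂ)) := by
  have h1 : Summable fun k => (((t k)⁻¹ : ℝ) : ℂ) := Complex.summable_ofReal.mpr hs
  refine ((h1.mul_left z).neg).congr fun k => ?_
  push_cast
  rw [div_eq_mul_inv]

lemma multipliable_aux {t : ℕ → ℝ} (hs : Summable fun k => (t k)⁻¹) (z : ℂ) :
    Multipliable fun k => (1 - z / (t k : ℂ)) := by
  have h := Complex.multipliable_one_add_of_summable (summable_aux hs z)
  simpa [sub_eq_add_neg] using h

lemma summable_log_aux {t : ℕ → ℝ} (hs : Summable fun k => (t k)⁻¹) (z : ℂ) :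
    Summable fun k => Complex.log (1 - z / (t k : ℂ)) := by
  have h := Complex.summable_log_one_add_of_summable (summable_aux hs z)
  simpa [sub_eq_add_neg] using h

lemma norm_le_of_factor {t : ℕ → ℝ} (hs : Summable fun k => (t k)⁻¹) {z w : ℂ}
    (h : ∀ k, ‖1 - z / (t k : ℂ)‖ ≤ ‖1 - w / (t k : ℂ)‖) : ‖f t z‖ ≤ ‖f t w‖ := by
  have hz : HasProd (fun k => ‖1 - z / (t k : ℂ)‖) ‖f t z‖ :=
    (multipliable_aux hs z).hasProd.norm
  have hw : HasProd (fun k => ‖1 - w / (t k : ℂ)‖) ‖f t w‖ :=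
    (multipliable_aux hs w).hasProd.norm
  refine le_of_tendsto_of_tendsto' hz hw fun s => ?_
  exact Finset.prod_le_prod (fun k _ => norm_nonneg _) fun k _ => h k

lemma factor_re (r θ T : ℝ) :
    (1 - (r * Complex.exp (θ * I)) / (T : ℂ)).re = 1 - r * Real.cos θ / T := by
  rw [Complex.sub_re, Complex.one_re, Complex.div_ofReal_re, Complex.re_ofReal_mul,
    Complex.exp_ofReal_mul_I_re]

lemma factor_im (r θ T : ℝ) :
    (1 - (r * Complex.exp (θ * I)) / (T : ℂ)).im = - (r * Real.sin θ / T) := by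
  rw [Complex.sub_im, Complex.one_im, Complex.div_ofReal_im, Complex.im_ofReal_mul,
    Complex.exp_ofReal_mul_I_im]
  ring

/-- on each circle `|f|` increases as the argument goes from `0` to `π` -/
theorem norm_mono {t : ℕ → ℝ} (ht : ∀ k, 0 < t k) (hs : Summable fun k => (t k)⁻¹)
    {r θ₁ θ₂ : ℝ} (hr : 0 ≤ r) (h1 : 0 ≤ θ₁) (h12 : θ₁ ≤ θ₂) (h2 : θ₂ ≤ Real.pi) :
    ‖f t (r * Complex.exp (θ₁ * I))‖ ≤ ‖f t (r * Complex.exp (θ₂ * I))‖ := by
  refine norm_le_of_factor hs fun k => ?_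
  have hcos : Real.cos θ₂ ≤ Real.cos θ₁ := Real.cos_le_cos_of_nonneg_of_le_pi h1 h2 h12
  have hq : 0 ≤ r / t k := div_nonneg hr (ht k).le
  have key : ∀ θ : ℝ, ‖1 - (r * Complex.exp (θ * I)) / (t k : ℂ)‖ ^ 2 =
      1 - 2 * (r / t k) * Real.cos θ + (r / t k) ^ 2 := by
    intro θ
    rw [← Complex.normSq_eq_norm_sq, Complex.normSq_apply, factor_re, factor_im]
    have := Real.sin_sq_add_cos_sq θ
    have h3 : r * Real.cos θ / t k = (r / t k) * Real.cos θ := by ring
    have h4 : r * Real.sin θ / t k = (r / t k) * Real.sin θ := by ring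
    rw [h3, h4]
    linear_combination (r / t k) ^ 2 * this
  have h5 : ‖1 - (r * Complex.exp (θ₁ * I)) / (t k : ℂ)‖ ^ 2 ≤
      ‖1 - (r * Complex.exp (θ₂ * I)) / (t k : ℂ)‖ ^ 2 := by
    rw [key, key]
    nlinarith [mul_le_mul_of_nonneg_left hcos hq]
  exact (pow_le_pow_iff_left₀ (norm_nonneg _) (norm_nonneg _) two_ne_zero).mp h5

theorem norm_conj {t : ℕ → ℝ} (ht : ∀ k, 0 < t k) (hs : Summable fun k => (t k)⁻¹) (z : ℂ) :
    ‖f t (starRingEnd ℂ z)‖ = ‖f t z‖ := by
  have key : ∀ k, ‖1 - (starRingEnd ℂ z) / (t k : ℂ)‖ = ‖1 - z / (t k : ℂ)‖ := by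
    intro k
    have : 1 - (starRingEnd ℂ z) / (t k : ℂ) = starRingEnd ℂ (1 - z / (t k : ℂ)) := by
      rw [map_sub, map_div₀, map_one, Complex.conj_ofReal]
    rw [this, Complex.norm_conj]
  exact le_antisymm (norm_le_of_factor hs fun k => (key k).le)
    (norm_le_of_factor hs fun k => (key k).ge)

lemma arg_le_arg {w₁ w₂ : ℂ} (h1 : w₁.im < 0) (h2 : w₂.im < 0)
    (h : w₂.im * w₁.re - w₂.re * w₁.im ≤ 0) : w₂.arg ≤ w₁.arg := by
  by_contra hcon
  push Not at hcon
  have ha1 : w₁.arg < 0 := Complex.arg_neg_iff.mpr h1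
  have ha2 : w₂.arg < 0 := Complex.arg_neg_iff.mpr h2
  have hb1 : -Real.pi < w₁.arg := Complex.neg_pi_lt_arg w₁
  have hs : 0 < Real.sin (w₂.arg - w₁.arg) :=
    Real.sin_pos_of_pos_of_lt_pi (by linarith) (by linarith)
  have hn1 : 0 < ‖w₁‖ := norm_pos_iff.mpr (by rintro rfl; simp at h1)
  have hn2 : 0 < ‖w₂‖ := norm_pos_iff.mpr (by rintro rfl; simp at h2)
  have h3 : w₂.im * w₁.re - w₂.re * w₁.im =
      ‖w₁‖ * ‖w₂‖ * Real.sin (w₂.arg - w₁.arg) := by
    rw [Real.sin_sub]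
    rw [← Complex.norm_mul_cos_arg w₁, ← Complex.norm_mul_sin_arg w₁,
      ← Complex.norm_mul_cos_arg w₂, ← Complex.norm_mul_sin_arg w₂]
    simp only [Complex.norm_mul_cos_arg, Complex.norm_mul_sin_arg]
    rw [← Complex.norm_mul_cos_arg w₁, ← Complex.norm_mul_sin_arg w₁,
      ← Complex.norm_mul_cos_arg w₂, ← Complex.norm_mul_sin_arg w₂]
    ring
  have : 0 < ‖w₁‖ * ‖w₂‖ * Real.sin (w₂.arg - w₁.arg) := by positivity
  linarith

/-- `-Im Λ` is increasing along each ray in the upper half plane -/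
theorem im_mono {t : ℕ → ℝ} (ht : ∀ k, 0 < t k) (hs : Summable fun k => (t k)⁻¹)
    {r₁ r₂ θ : ℝ} (hr1 : 0 < r₁) (h12 : r₁ ≤ r₂) (h1 : 0 < θ) (h2 : θ < Real.pi) :
    -(Lam t (r₁ * Complex.exp (θ * I))).im ≤ -(Lam t (r₂ * Complex.exp (θ * I))).im := by
  apply neg_le_neg
  have e1 := Complex.hasSum_im (summable_log_aux hs (r₁ * Complex.exp (θ * I))).hasSum
  have e2 := Complex.hasSum_im (summable_log_aux hs (r₂ * Complex.exp (θ * I))).hasSum
  refine hasSum_le (fun k => ?_) e2 e1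
  rw [Complex.log_im, Complex.log_im]
  have hsin : 0 < Real.sin θ := Real.sin_pos_of_pos_of_lt_pi h1 h2
  have htk := ht k
  have hr2 : 0 < r₂ := lt_of_lt_of_le hr1 h12
  refine arg_le_arg ?_ ?_ ?_
  · rw [factor_im]
    have : 0 < r₁ * Real.sin θ / t k := by positivity
    linarith
  · rw [factor_im]
    have : 0 < r₂ * Real.sin θ / t k := by positivity
    linarith
  · rw [factor_im, factor_im, factor_re, factor_re]
    have : -(r₂ * Real.sin θ / t k) * (1 - r₁ * Real.cos θ / t k) -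
        (1 - r₂ * Real.cos θ / t k) * -(r₁ * Real.sin θ / t k) =
        -((r₂ - r₁) * Real.sin θ / t k) := by
      field_simp
      ring
    rw [this]
    have : 0 ≤ (r₂ - r₁) * Real.sin θ / t k :=
      div_nonneg (mul_nonneg (by linarith) hsin.le) htk.le
    linarith

theorem im_neg {t : ℕ → ℝ} (ht : ∀ k, 0 < t k) {r : ℝ} (hr : 0 < r) :
    (Lam t (-(r : ℂ))).im = 0 := by
  have key : ∀ k, (Complex.log (1 - (-(r : ℂ)) / (t k : ℂ))).im = 0 := by
    intro k
    have h1 : 1 - (-(r : ℂ)) / (t k : ℂ) = ((1 + r / t k : ℝ) : ℂ) := by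
      push_cast
      ring
    have h2 : 0 ≤ 1 + r / t k := by
      have := ht k
      positivity
    rw [h1, Complex.log_im, Complex.arg_ofReal_of_nonneg h2]
  unfold Lam
  by_cases hsum : Summable fun k => Complex.log (1 - (-(r : ℂ)) / (t k : ℂ))
  · have := Complex.hasSum_im hsum.hasSum
    have h0 : HasSum (fun k => (Complex.log (1 - (-(r : ℂ)) / (t k : ℂ))).im) 0 := by
      simp only [key]
      exact hasSum_zero
    exact this.unique h0
  · rw [tsum_eq_zero_of_not_summable hsum, Complex.zero_im]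

end RayProductB

end

section
open Complex MeasureTheory Set Filter Topology

namespace RayPsi

/-- circle mean of the logarithm of `|f|` truncated from below at `τ` -/
noncomputable def Psi (f : ℂ → ℂ) (τ r : ℝ) : ℝ :=
  Real.circleAverage (fun z => Real.log (max ‖f z‖ τ)) 0 r

namespace RectAux

theorem mem_slit {r φ : ℝ} (hr : 0 < r) (h1 : 0 < φ) (h2 : φ ≤ Real.pi) :
    -((r : ℂ) * Complex.exp (φ * I)) ∈ slitPlane := by
  rw [Complex.mem_slitPlane_iff]
  rcases lt_or_eq_of_le h2 with h | h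
  · right
    have h3 : (-((r : ℂ) * Complex.exp (φ * I))).im = -(r * Real.sin φ) := by
      rw [Complex.neg_im, Complex.mul_im, Complex.ofReal_re, Complex.ofReal_im,
        Complex.exp_ofReal_mul_I_im, zero_mul, add_zero]
    rw [h3]
    have h4 := mul_pos hr (Real.sin_pos_of_pos_of_lt_pi h1 h)
    linarith
  · left
    rw [h, Complex.exp_pi_mul_I]
    simpa using hr

theorem norm_f {f Λ : ℂ → ℂ} (hexp : ∀ z : ℂ, -z ∈ slitPlane → Complex.exp (Λ z) = f z)
    {r φ : ℝ} (hr : 0 < r) (h1 : 0 < φ) (h2 : φ ≤ Real.pi) :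
    ‖f (r * Complex.exp (φ * I))‖ = Real.exp (Λ (r * Complex.exp (φ * I))).re := by
  rw [← hexp _ (mem_slit hr h1 h2), Complex.norm_exp]

theorem contΛ {Λ : ℂ → ℂ} (hd : DifferentiableOn ℂ Λ {z : ℂ | -z ∈ slitPlane}) {r θ : ℝ}
    (hr : 0 < r) (h1 : 0 < θ) :
    ContinuousOn (fun y : ℝ => Λ (r * Complex.exp (y * I))) (Icc θ Real.pi) := by
  refine hd.continuousOn.comp (by fun_prop) ?_
  intro y hy
  exact mem_slit hr (h1.trans_le hy.1) hy.2

theorem intΛ {Λ : ℂ → ℂ} (hd : DifferentiableOn ℂ Λ {z : ℂ | -z ∈ slitPlane}) {r θ : ℝ}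
    (hr : 0 < r) (h1 : 0 < θ) (h2 : θ < Real.pi) :
    IntervalIntegrable (fun y : ℝ => Λ (r * Complex.exp (y * I))) volume θ Real.pi := by
  refine ContinuousOn.intervalIntegrable ?_
  rw [uIcc_of_le h2.le]
  exact contΛ hd hr h1

theorem rect {Λ : ℂ → ℂ} (hd : DifferentiableOn ℂ Λ {z : ℂ | -z ∈ slitPlane})
    (hneg : ∀ r : ℝ, 0 < r → (Λ (-(r : ℂ))).im = 0)
    {r₁ r₂ θ : ℝ} (hr1 : 0 < r₁) (h12 : r₁ < r₂) (h1 : 0 < θ) (h2 : θ < Real.pi) :
    (∫ y in θ..Real.pi, (Λ (r₂ * Complex.exp (y * I))).re) -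
      (∫ y in θ..Real.pi, (Λ (r₁ * Complex.exp (y * I))).re) =
    ∫ x in Real.log r₁..Real.log r₂, -(Λ ((Real.exp x : ℝ) * Complex.exp (θ * I))).im := by
  have hr2 := hr1.trans h12
  have hlog : Real.log r₁ < Real.log r₂ := Real.log_lt_log hr1 h12
  have hexpmul : ∀ x y : ℝ, Complex.exp ((x : ℂ) + y * I) =
      ((Real.exp x : ℝ) : ℂ) * Complex.exp (y * I) := by
    intro x y
    rw [Complex.exp_add, Complex.ofReal_exp]
  have hF : DifferentiableOn ℂ (fun w => Λ (Complex.exp w))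
      (Set.uIcc (Real.log r₁) (Real.log r₂) ×ℂ Set.uIcc θ Real.pi) := by
    refine hd.comp (Complex.differentiable_exp.differentiableOn) ?_
    intro w hw
    rw [Complex.mem_reProdIm, uIcc_of_le h2.le] at hw
    have := hexpmul w.re w.im
    rw [Complex.re_add_im] at this
    show - Complex.exp w ∈ slitPlane
    rw [this]
    exact mem_slit (Real.exp_pos _) (h1.trans_le hw.2.1) hw.2.2
  have hc := integral_boundary_rect_eq_zero_of_differentiableOn (fun w => Λ (Complex.exp w))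
    ⟨Real.log r₁, θ⟩ ⟨Real.log r₂, Real.pi⟩ hF
  simp only [hexpmul] at hc
  rw [Real.exp_log hr2, Real.exp_log hr1] at hc
  have hi1 : IntervalIntegrable (fun x : ℝ => Λ (((Real.exp x : ℝ) : ℂ) *
      Complex.exp (θ * I))) volume (Real.log r₁) (Real.log r₂) := by
    refine ContinuousOn.intervalIntegrable ?_
    refine hd.continuousOn.comp (by fun_prop) ?_
    intro y hy
    exact mem_slit (Real.exp_pos _) h1 h2.le
  have hi2 : IntervalIntegrable (fun x : ℝ => Λ (((Real.exp x : ℝ) : ℂ) *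
      Complex.exp (Real.pi * I))) volume (Real.log r₁) (Real.log r₂) := by
    refine ContinuousOn.intervalIntegrable ?_
    refine hd.continuousOn.comp (by fun_prop) ?_
    intro y hy
    exact mem_slit (Real.exp_pos _) Real.pi_pos le_rfl
  have him := congrArg Complex.im hc
  have e1 := Complex.imCLM.intervalIntegral_comp_comm hi1
  have e2 := Complex.imCLM.intervalIntegral_comp_comm hi2
  have e3 := Complex.reCLM.intervalIntegral_comp_comm (intΛ hd hr2 h1 h2)
  have e4 := Complex.reCLM.intervalIntegral_comp_comm (intΛ hd hr1 h1 h2)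
  simp only [Complex.imCLM_apply, Complex.reCLM_apply] at e1 e2 e3 e4
  have e5 : ∫ x in Real.log r₁..Real.log r₂, (Λ (((Real.exp x : ℝ) : ℂ) *
      Complex.exp (Real.pi * I))).im = 0 := by
    have : ∀ x : ℝ, (Λ (((Real.exp x : ℝ) : ℂ) * Complex.exp (Real.pi * I))).im = 0 := by
      intro x
      rw [Complex.exp_pi_mul_I, mul_neg_one]
      exact hneg _ (Real.exp_pos x)
    simp only [this, intervalIntegral.integral_zero]
  rw [intervalIntegral.integral_neg, e1, e3, e4]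
  rw [e2] at e5
  simp only [Complex.add_im, Complex.sub_im, smul_eq_mul, Complex.mul_im, Complex.I_re,
    Complex.I_im, zero_mul, one_mul, zero_add, Complex.zero_im] at him
  linarith

theorem rect_bounds {Λ : ℂ → ℂ} (hd : DifferentiableOn ℂ Λ {z : ℂ | -z ∈ slitPlane})
    (him : ∀ r₁ r₂ θ : ℝ, 0 < r₁ → r₁ ≤ r₂ → 0 < θ → θ < Real.pi →
      -(Λ (r₁ * Complex.exp (θ * I))).im ≤ -(Λ (r₂ * Complex.exp (θ * I))).im)
    {r₁ r₂ θ : ℝ} (hr1 : 0 < r₁) (h12 : r₁ < r₂) (h1 : 0 < θ) (h2 : θ < Real.pi) :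
    (Real.log r₂ - Real.log r₁) * (-(Λ (r₁ * Complex.exp (θ * I))).im) ≤
      ∫ x in Real.log r₁..Real.log r₂, -(Λ ((Real.exp x : ℝ) * Complex.exp (θ * I))).im ∧
    ∫ x in Real.log r₁..Real.log r₂, -(Λ ((Real.exp x : ℝ) * Complex.exp (θ * I))).im ≤
      (Real.log r₂ - Real.log r₁) * (-(Λ (r₂ * Complex.exp (θ * I))).im) := by
  have hr2 := hr1.trans h12
  have hlog : Real.log r₁ < Real.log r₂ := Real.log_lt_log hr1 h12
  have hi : IntervalIntegrable (fun x : ℝ => -(Λ (((Real.exp x : ℝ) : ℂ) *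
      Complex.exp (θ * I))).im) volume (Real.log r₁) (Real.log r₂) := by
    refine ContinuousOn.intervalIntegrable ?_
    refine ContinuousOn.neg (Complex.continuous_im.comp_continuousOn ?_)
    refine hd.continuousOn.comp (by fun_prop) ?_
    intro y hy
    exact mem_slit (Real.exp_pos _) h1 h2.le
  have e : ∀ c : ℝ, (Real.log r₂ - Real.log r₁) * c =
      ∫ _ in Real.log r₁..Real.log r₂, c := by
    intro c; rw [intervalIntegral.integral_const, smul_eq_mul]
  constructor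
  · rw [e]
    refine intervalIntegral.integral_mono_on hlog.le (by simp) hi ?_
    intro x hx
    refine him _ _ _ hr1 ?_ h1 h2
    rw [← Real.exp_log hr1]
    exact Real.exp_le_exp.2 hx.1
  · rw [e]
    refine intervalIntegral.integral_mono_on hlog.le hi (by simp) ?_
    intro x hx
    refine him _ _ _ (Real.exp_pos _) ?_ h1 h2
    rw [← Real.exp_log hr2]
    exact Real.exp_le_exp.2 hx.2

theorem psi_half {f : ℂ → ℂ} (hf : Continuous f)
    (hconj : ∀ z : ℂ, ‖f (starRingEnd ℂ z)‖ = ‖f z‖) {τ : ℝ} (hτ : 0 < τ) (r : ℝ) :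
    Psi f τ r = Real.pi⁻¹ * ∫ θ in (0 : ℝ)..Real.pi,
      Real.log (max ‖f (r * Complex.exp (θ * I))‖ τ) := by
  have hcont : Continuous (fun θ : ℝ => Real.log (max ‖f (r * Complex.exp (θ * I))‖ τ)) := by
    refine Continuous.log (by fun_prop) (fun x => ?_)
    exact (lt_max_of_lt_right hτ).ne'
  have hsym : ∀ θ : ℝ, ‖f (r * Complex.exp ((2 * Real.pi - θ : ℝ) * I))‖ =
      ‖f (r * Complex.exp (θ * I))‖ := by
    intro θ
    rw [← hconj]
    congr 2
    rw [map_mul, Complex.conj_ofReal, ← Complex.exp_conj]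
    congr 1
    have : (starRingEnd ℂ) (((2 * Real.pi - θ : ℝ) : ℂ) * I) = θ * I - 2 * Real.pi * I := by
      rw [map_mul, Complex.conj_ofReal, Complex.conj_I]; push_cast; ring
    rw [this, Complex.exp_sub, Complex.exp_two_pi_mul_I, div_one]
  unfold Psi Real.circleAverage
  simp only [circleMap, zero_add]
  have h2 : ∫ θ in Real.pi..2 * Real.pi, Real.log (max ‖f (r * Complex.exp (θ * I))‖ τ) =
      ∫ θ in (0 : ℝ)..Real.pi, Real.log (max ‖f (r * Complex.exp (θ * I))‖ τ) := by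
    have h3 := intervalIntegral.integral_comp_sub_left
      (fun θ : ℝ => Real.log (max ‖f (r * Complex.exp (θ * I))‖ τ)) (2 * Real.pi)
      (a := 0) (b := Real.pi)
    simp only [hsym] at h3
    rw [h3]
    congr 1 <;> ring
  rw [← intervalIntegral.integral_add_adjacent_intervals (b := Real.pi)
    (hcont.intervalIntegrable _ _) (hcont.intervalIntegrable _ _), h2, smul_eq_mul, mul_inv]
  ring

theorem psi_diff {f : ℂ → ℂ} (hf : Continuous f)
    (hconj : ∀ z : ℂ, ‖f (starRingEnd ℂ z)‖ = ‖f z‖) {τ : ℝ} (hτ : 0 < τ) (r₁ r₂ θ : ℝ) :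
    Psi f τ r₂ - Psi f τ r₁ = Real.pi⁻¹ *
      ((∫ y in (0 : ℝ)..θ, (Real.log (max ‖f (r₂ * Complex.exp (y * I))‖ τ) -
        Real.log (max ‖f (r₁ * Complex.exp (y * I))‖ τ))) +
      ∫ y in θ..Real.pi, (Real.log (max ‖f (r₂ * Complex.exp (y * I))‖ τ) -
        Real.log (max ‖f (r₁ * Complex.exp (y * I))‖ τ))) := by
  have hcont : ∀ r : ℝ,
      Continuous (fun θ : ℝ => Real.log (max ‖f (r * Complex.exp (θ * I))‖ τ)) := by
    intro r
    refine Continuous.log (by fun_prop) (fun x => ?_)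
    exact (lt_max_of_lt_right hτ).ne'
  rw [psi_half hf hconj hτ, psi_half hf hconj hτ, ← mul_sub]
  congr 1
  have hcd : Continuous (fun θ : ℝ => Real.log (max ‖f (r₂ * Complex.exp (θ * I))‖ τ) -
      Real.log (max ‖f (r₁ * Complex.exp (θ * I))‖ τ)) := (hcont r₂).sub (hcont r₁)
  rw [intervalIntegral.integral_add_adjacent_intervals
    (hcd.intervalIntegrable _ _) (hcd.intervalIntegrable _ _)]
  rw [intervalIntegral.integral_sub ((hcont r₂).intervalIntegrable _ _)
    ((hcont r₁).intervalIntegrable _ _)]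

end RectAux

open RectAux

/-- lower bound for the growth of the truncated mean -/
theorem psi_lower {f Λ : ℂ → ℂ} (hf : Continuous f)
    (hd : DifferentiableOn ℂ Λ {z : ℂ | -z ∈ slitPlane})
    (hexp : ∀ z : ℂ, -z ∈ slitPlane → Complex.exp (Λ z) = f z)
    (hconj : ∀ z : ℂ, ‖f (starRingEnd ℂ z)‖ = ‖f z‖)
    (hmono : ∀ r θ₁ θ₂ : ℝ, 0 ≤ r → 0 ≤ θ₁ → θ₁ ≤ θ₂ → θ₂ ≤ Real.pi →
      ‖f (r * Complex.exp (θ₁ * I))‖ ≤ ‖f (r * Complex.exp (θ₂ * I))‖)
    (him : ∀ r₁ r₂ θ : ℝ, 0 < r₁ → r₁ ≤ r₂ → 0 < θ → θ < Real.pi →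
      -(Λ (r₁ * Complex.exp (θ * I))).im ≤ -(Λ (r₂ * Complex.exp (θ * I))).im)
    (hneg : ∀ r : ℝ, 0 < r → (Λ (-(r : ℂ))).im = 0)
    {r₁ r₂ θ : ℝ} (hr1 : 0 < r₁) (h12 : r₁ < r₂) (h1 : 0 < θ) (h2 : θ < Real.pi) :
    (-(Λ (r₁ * Complex.exp (θ * I))).im / Real.pi) * (Real.log r₂ - Real.log r₁) ≤
      Psi f ‖f (r₁ * Complex.exp (θ * I))‖ r₂ - Psi f ‖f (r₁ * Complex.exp (θ * I))‖ r₁ := by
  have hr2 := hr1.trans h12
  have hτ : 0 < ‖f (r₁ * Complex.exp (θ * I))‖ := by
    rw [norm_f hexp hr1 h1 h2.le]; exact Real.exp_pos _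
  rw [psi_diff hf hconj hτ r₁ r₂ θ]
  set τ := ‖f (r₁ * Complex.exp (θ * I))‖ with hτdef
  have hcont : ∀ r : ℝ,
      Continuous (fun θ : ℝ => Real.log (max ‖f (r * Complex.exp (θ * I))‖ τ)) := by
    intro r
    refine Continuous.log (by fun_prop) (fun x => ?_)
    exact (lt_max_of_lt_right hτ).ne'
  have hcd : Continuous (fun θ : ℝ => Real.log (max ‖f (r₂ * Complex.exp (θ * I))‖ τ) -
      Real.log (max ‖f (r₁ * Complex.exp (θ * I))‖ τ)) := (hcont r₂).sub (hcont r₁)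
  have hA : 0 ≤ ∫ y in (0 : ℝ)..θ, (Real.log (max ‖f (r₂ * Complex.exp (y * I))‖ τ) -
        Real.log (max ‖f (r₁ * Complex.exp (y * I))‖ τ)) := by
    refine intervalIntegral.integral_nonneg h1.le fun y hy => ?_
    have h3 : ‖f (r₁ * Complex.exp (y * I))‖ ≤ τ := hmono _ _ _ hr1.le hy.1 hy.2 h2.le
    rw [max_eq_right h3]
    exact sub_nonneg.2 (Real.log_le_log hτ (le_max_right _ _))
  have hre : ∀ r : ℝ, 0 < r → IntervalIntegrable
      (fun y : ℝ => (Λ (r * Complex.exp (y * I))).re) volume θ Real.pi := by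
    intro r hr
    refine ContinuousOn.intervalIntegrable ?_
    rw [uIcc_of_le h2.le]
    exact Complex.continuous_re.comp_continuousOn (contΛ hd hr h1)
  have hB : (∫ y in θ..Real.pi, (Λ (r₂ * Complex.exp (y * I))).re) -
      (∫ y in θ..Real.pi, (Λ (r₁ * Complex.exp (y * I))).re) ≤
      ∫ y in θ..Real.pi, (Real.log (max ‖f (r₂ * Complex.exp (y * I))‖ τ) -
        Real.log (max ‖f (r₁ * Complex.exp (y * I))‖ τ)) := by
    rw [← intervalIntegral.integral_sub (hre r₂ hr2) (hre r₁ hr1)]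
    refine intervalIntegral.integral_mono_on h2.le ((hre r₂ hr2).sub (hre r₁ hr1))
      (hcd.intervalIntegrable _ _) fun y hy => ?_
    have h3 : τ ≤ ‖f (r₁ * Complex.exp (y * I))‖ := hmono _ _ _ hr1.le h1.le hy.1 hy.2
    rw [max_eq_left h3, norm_f hexp hr1 (h1.trans_le hy.1) hy.2, Real.log_exp]
    have h4 : Real.log ‖f (r₂ * Complex.exp (y * I))‖ ≤
        Real.log (max ‖f (r₂ * Complex.exp (y * I))‖ τ) := by
      refine Real.log_le_log ?_ (le_max_left _ _)
      rw [norm_f hexp hr2 (h1.trans_le hy.1) hy.2]; exact Real.exp_pos _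
    rw [norm_f hexp hr2 (h1.trans_le hy.1) hy.2, Real.log_exp] at h4
    rw [norm_f hexp hr2 (h1.trans_le hy.1) hy.2]
    linarith
  rw [rect hd hneg hr1 h12 h1 h2] at hB
  have hC := (rect_bounds hd him hr1 h12 h1 h2).1
  rw [div_mul_eq_mul_div, div_eq_inv_mul]
  refine mul_le_mul_of_nonneg_left ?_ (inv_nonneg.2 Real.pi_pos.le)
  linarith

/-- upper bound for the growth of the truncated mean -/
theorem psi_upper {f Λ : ℂ → ℂ} (hf : Continuous f)
    (hd : DifferentiableOn ℂ Λ {z : ℂ | -z ∈ slitPlane})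
    (hexp : ∀ z : ℂ, -z ∈ slitPlane → Complex.exp (Λ z) = f z)
    (hconj : ∀ z : ℂ, ‖f (starRingEnd ℂ z)‖ = ‖f z‖)
    (hmono : ∀ r θ₁ θ₂ : ℝ, 0 ≤ r → 0 ≤ θ₁ → θ₁ ≤ θ₂ → θ₂ ≤ Real.pi →
      ‖f (r * Complex.exp (θ₁ * I))‖ ≤ ‖f (r * Complex.exp (θ₂ * I))‖)
    (him : ∀ r₁ r₂ θ : ℝ, 0 < r₁ → r₁ ≤ r₂ → 0 < θ → θ < Real.pi →
      -(Λ (r₁ * Complex.exp (θ * I))).im ≤ -(Λ (r₂ * Complex.exp (θ * I))).im)
    (hneg : ∀ r : ℝ, 0 < r → (Λ (-(r : ℂ))).im = 0)
    {r₁ r₂ θ : ℝ} (hr1 : 0 < r₁) (h12 : r₁ < r₂) (h1 : 0 < θ) (h2 : θ < Real.pi) :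
    Psi f ‖f (r₂ * Complex.exp (θ * I))‖ r₂ - Psi f ‖f (r₂ * Complex.exp (θ * I))‖ r₁ ≤
      (-(Λ (r₂ * Complex.exp (θ * I))).im / Real.pi) * (Real.log r₂ - Real.log r₁) := by
  have hr2 := hr1.trans h12
  have hτ : 0 < ‖f (r₂ * Complex.exp (θ * I))‖ := by
    rw [norm_f hexp hr2 h1 h2.le]; exact Real.exp_pos _
  rw [psi_diff hf hconj hτ r₁ r₂ θ]
  set τ := ‖f (r₂ * Complex.exp (θ * I))‖ with hτdef
  have hcont : ∀ r : ℝ,
      Continuous (fun θ : ℝ => Real.log (max ‖f (r * Complex.exp (θ * I))‖ τ)) := by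
    intro r
    refine Continuous.log (by fun_prop) (fun x => ?_)
    exact (lt_max_of_lt_right hτ).ne'
  have hcd : Continuous (fun θ : ℝ => Real.log (max ‖f (r₂ * Complex.exp (θ * I))‖ τ) -
      Real.log (max ‖f (r₁ * Complex.exp (θ * I))‖ τ)) := (hcont r₂).sub (hcont r₁)
  have hA : ∫ y in (0 : ℝ)..θ, (Real.log (max ‖f (r₂ * Complex.exp (y * I))‖ τ) -
        Real.log (max ‖f (r₁ * Complex.exp (y * I))‖ τ)) ≤ 0 := by
    refine (intervalIntegral.integral_mono_on (g := fun _ => (0 : ℝ)) h1.le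
      (hcd.intervalIntegrable _ _) (by simp) fun y hy => ?_).trans (by simp)
    have h3 : ‖f (r₂ * Complex.exp (y * I))‖ ≤ τ := hmono _ _ _ hr2.le hy.1 hy.2 h2.le
    rw [max_eq_right h3]
    exact sub_nonpos.2 (Real.log_le_log hτ (le_max_right _ _))
  have hre : ∀ r : ℝ, 0 < r → IntervalIntegrable
      (fun y : ℝ => (Λ (r * Complex.exp (y * I))).re) volume θ Real.pi := by
    intro r hr
    refine ContinuousOn.intervalIntegrable ?_
    rw [uIcc_of_le h2.le]
    exact Complex.continuous_re.comp_continuousOn (contΛ hd hr h1)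
  have hB : ∫ y in θ..Real.pi, (Real.log (max ‖f (r₂ * Complex.exp (y * I))‖ τ) -
        Real.log (max ‖f (r₁ * Complex.exp (y * I))‖ τ)) ≤
      (∫ y in θ..Real.pi, (Λ (r₂ * Complex.exp (y * I))).re) -
      (∫ y in θ..Real.pi, (Λ (r₁ * Complex.exp (y * I))).re) := by
    rw [← intervalIntegral.integral_sub (hre r₂ hr2) (hre r₁ hr1)]
    refine intervalIntegral.integral_mono_on h2.le (hcd.intervalIntegrable _ _)
      ((hre r₂ hr2).sub (hre r₁ hr1)) fun y hy => ?_
    have h3 : τ ≤ ‖f (r₂ * Complex.exp (y * I))‖ := hmono _ _ _ hr2.le h1.le hy.1 hy.2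
    rw [max_eq_left h3, norm_f hexp hr2 (h1.trans_le hy.1) hy.2, Real.log_exp]
    have h4 : Real.log ‖f (r₁ * Complex.exp (y * I))‖ ≤
        Real.log (max ‖f (r₁ * Complex.exp (y * I))‖ τ) := by
      refine Real.log_le_log ?_ (le_max_left _ _)
      rw [norm_f hexp hr1 (h1.trans_le hy.1) hy.2]; exact Real.exp_pos _
    rw [norm_f hexp hr1 (h1.trans_le hy.1) hy.2, Real.log_exp] at h4
    rw [norm_f hexp hr1 (h1.trans_le hy.1) hy.2]
    linarith
  rw [rect hd hneg hr1 h12 h1 h2] at hB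
  have hC := (rect_bounds hd him hr1 h12 h1 h2).2
  rw [div_mul_eq_mul_div, div_eq_inv_mul]
  refine mul_le_mul_of_nonneg_left ?_ (inv_nonneg.2 Real.pi_pos.le)
  linarith

end RayPsi

end

section
open Complex MeasureTheory Set Filter Topology

namespace RayArea

/-- number of `a`-points of `f` in the closed disc of radius `r`, with multiplicity -/
noncomputable def nn (f : ℂ → ℂ) (r : ℝ) (a : ℂ) : ℕ :=
  ∑ᶠ z ∈ Metric.closedBall (0 : ℂ) r, analyticOrderNatAt (fun w => f w - a) z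

/-- circle mean of the logarithm of `|f|` truncated from below at `τ` -/
noncomputable def Psi (f : ℂ → ℂ) (τ r : ℝ) : ℝ :=
  Real.circleAverage (fun z => Real.log (max ‖f z‖ τ)) 0 r

theorem rad_int (a : ℝ) (ha : 0 ≤ a) :
    ∫⁻ r in Ioi a, ENNReal.ofReal (r / (1 + r ^ 2) ^ 2) = ENNReal.ofReal (1 / (2 * (1 + a ^ 2))) := by
  have hd : ∀ x ∈ Ici a, HasDerivAt (fun r : ℝ => - (1 / (2 * (1 + r ^ 2)))) (x / (1 + x ^ 2) ^ 2) x := by
    intro x _
    have h1 : HasDerivAt (fun r : ℝ => 2 * (1 + r ^ 2)) (2 * (2 * x)) x := by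
      have := ((hasDerivAt_pow 2 x).const_add 1).const_mul 2
      simpa using this
    have h2 := (h1.inv (by positivity)).neg
    have h3 : (fun r : ℝ => - (1 / (2 * (1 + r ^ 2)))) = fun r => - (2 * (1 + r ^ 2))⁻¹ := by
      funext r; rw [one_div]
    rw [h3]
    have h4 : x / (1 + x ^ 2) ^ 2 = -(-(2 * (2 * x)) / (2 * (1 + x ^ 2)) ^ 2) := by
      have : (1 + x^2) ≠ 0 := by positivity
      field_simp
      try ring
    rw [h4]
    exact h2
  have hpos : ∀ x ∈ Ioi a, 0 ≤ x / (1 + x ^ 2) ^ 2 := by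
    intro x hx
    have : 0 < x := lt_of_le_of_lt ha hx
    positivity
  have hlim : Tendsto (fun r : ℝ => - (1 / (2 * (1 + r ^ 2)))) atTop (𝓝 0) := by
    rw [← neg_zero]
    apply Tendsto.neg
    apply Tendsto.const_div_atTop
    apply Tendsto.const_mul_atTop (by norm_num)
    apply tendsto_atTop_add_const_left
    exact tendsto_pow_atTop (by norm_num)
  have hint := integrableOn_Ioi_deriv_of_nonneg' hd hpos hlim
  have hval := integral_Ioi_of_hasDerivAt_of_nonneg' hd hpos hlim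
  rw [← ofReal_integral_eq_lintegral_ofReal hint, hval]
  · congr 1; ring
  · exact (ae_restrict_iff' measurableSet_Ioi).mpr (Eventually.of_forall hpos)

theorem rad_int0 (s : ℝ) (hs : 0 ≤ s) :
    ∫⁻ r in Ioo 0 s, ENNReal.ofReal (r / (1 + r ^ 2) ^ 2) ≤ ENNReal.ofReal (s ^ 2) := by
  calc ∫⁻ r in Ioo 0 s, ENNReal.ofReal (r / (1 + r ^ 2) ^ 2)
      ≤ ∫⁻ r in Ioo 0 s, ENNReal.ofReal s := by
        apply setLIntegral_mono measurable_const
        intro r hr
        apply ENNReal.ofReal_le_ofReal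
        rw [div_le_iff₀ (by positivity)]
        have h1 : 1 ≤ (1 + r^2)^2 := by nlinarith [sq_nonneg r, sq_nonneg (r^2)]
        nlinarith [hr.1, hr.2]
    _ = ENNReal.ofReal (s ^ 2) := by
        rw [setLIntegral_const, Real.volume_Ioo, ← ENNReal.ofReal_mul hs, sub_zero]
        congr 1; ring

theorem pointwise {f : ℂ → ℂ} (hf : Differentiable ℂ f)
    (jensen_zero : ∀ r₁ r₂ : ℝ, 0 < r₁ → r₁ < r₂ → ∀ a : ℂ, a ≠ 1 →
      (nn f r₁ a : ℝ) * (Real.log r₂ - Real.log r₁) ≤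
      Real.circleAverage (fun z => Real.log ‖f z - a‖) 0 r₂ - Real.log ‖1 - a‖)
    {r₁ M : ℝ} (hr1 : 0 < r₁) (hM0 : 0 ≤ M)
    (hM : ∀ z : ℂ, ‖z‖ ≤ 3 * r₁ → ‖f z‖ ≤ Real.exp M) (b : ℂ) (hb : ‖b‖ ≤ 1/2 ∨ 2 ≤ ‖b‖) :
    (nn f r₁ b : ℝ) ≤ M + 1 := by
  have hb1 : b ≠ 1 := by
    rintro rfl
    rw [norm_one] at hb
    rcases hb with h | h <;> norm_num at h
  have h1 := jensen_zero r₁ (3 * r₁) hr1 (by linarith) b hb1
  have hlog : Real.log (3 * r₁) - Real.log r₁ = Real.log 3 := by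
    rw [Real.log_mul (by norm_num) hr1.ne']; ring
  rw [hlog] at h1
  have hexp : 1 ≤ Real.exp M := Real.one_le_exp hM0
  have h2 : Real.circleAverage (fun z => Real.log ‖f z - b‖) 0 (3 * r₁) ≤
      Real.log (Real.exp M + ‖b‖) := by
    apply Real.circleAverage_mono_on_of_le_circle
    · apply MeromorphicOn.circleIntegrable_log_norm
      intro z _
      exact ((hf.analyticAt z).meromorphicAt).sub (by fun_prop)
    · intro x hx
      have hx' : ‖x‖ ≤ 3 * r₁ := by
        rw [abs_of_pos (by linarith)] at hx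
        simpa using hx.le
      have h3 : ‖f x - b‖ ≤ Real.exp M + ‖b‖ :=
        (norm_sub_le _ _).trans (by linarith [hM x hx'])
      rcases eq_or_lt_of_le (norm_nonneg (f x - b)) with h0 | h0
      · rw [← h0, Real.log_zero]
        apply Real.log_nonneg
        linarith [norm_nonneg b]
      · exact Real.log_le_log h0 h3
  have hkey : Real.exp M + ‖b‖ ≤ 3 * Real.exp M * ‖1 - b‖ := by
    rcases hb with h | h
    · have : 1 - ‖b‖ ≤ ‖1 - b‖ := by
        have := norm_sub_norm_le (1:ℂ) b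
        rwa [norm_one] at this
      have h4 : 1/2 ≤ ‖1 - b‖ := by linarith
      nlinarith
    · have : ‖b‖ - 1 ≤ ‖1 - b‖ := by
        have := norm_sub_norm_le b (1:ℂ)
        rw [norm_one] at this
        rwa [norm_sub_rev] at this
      nlinarith
  have hpos : 0 < ‖1 - b‖ := norm_pos_iff.mpr (sub_ne_zero.mpr (Ne.symm hb1))
  have h5 : Real.log (Real.exp M + ‖b‖) ≤ Real.log 3 + M + Real.log ‖1 - b‖ := by
    calc Real.log (Real.exp M + ‖b‖) ≤ Real.log (3 * Real.exp M * ‖1 - b‖) :=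
          Real.log_le_log (by positivity) hkey
      _ = _ := by
        rw [Real.log_mul (by positivity) hpos.ne', Real.log_mul (by norm_num) (Real.exp_ne_zero _),
          Real.log_exp]
  have hl3 : 1 ≤ Real.log 3 := by
    rw [Real.le_log_iff_exp_le (by norm_num)]
    linarith [Real.exp_one_lt_d9]
  have h6 : (nn f r₁ b : ℝ) * Real.log 3 ≤ Real.log 3 + M := by linarith
  by_contra hcon
  push Not at hcon
  nlinarith

theorem inner_bound {f : ℂ → ℂ}
    (jensen_lower : ∀ r₁ r₂ : ℝ, 0 < r₁ → r₁ < r₂ → ∀ a : ℂ, a ≠ 1 →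
      (nn f r₁ a : ℝ) * (Real.log r₂ - Real.log r₁) ≤
      Real.circleAverage (fun z => Real.log ‖f z - a‖) 0 r₂
        - Real.circleAverage (fun z => Real.log ‖f z - a‖) 0 r₁)
    (average_value : ∀ r τ : ℝ, 0 < r → 0 < τ →
      CircleIntegrable (fun a => Real.circleAverage (fun z => Real.log ‖f z - a‖) 0 r) 0 τ ∧
      Real.circleAverage (fun a => Real.circleAverage (fun z => Real.log ‖f z - a‖) 0 r) 0 τ
        = Psi f τ r)
    {r₁ r₂ B : ℝ}
    (hr1 : 0 < r₁) (h12 : r₁ < r₂) {τ : ℝ} (hτ : 0 < τ)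
    (hB : Psi f τ r₂ - Psi f τ r₁ ≤ B * (Real.log r₂ - Real.log r₁)) :
    (∫⁻ θ in Ioo (-Real.pi) Real.pi, ((nn f r₁ (circleMap 0 τ θ) : ℕ) : ENNReal)) ≤
      ENNReal.ofReal (2 * Real.pi * B) := by
  set L := Real.log r₂ - Real.log r₁ with hL
  have hLpos : 0 < L := sub_pos.mpr (Real.log_lt_log hr1 h12)
  obtain ⟨hi1, ha1⟩ := average_value r₁ τ hr1 hτ
  obtain ⟨hi2, ha2⟩ := average_value r₂ τ (hr1.trans h12) hτ
  set I1 : ℂ → ℝ := fun a => Real.circleAverage (fun z => Real.log ‖f z - a‖) 0 r₁ with hI1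
  set I2 : ℂ → ℝ := fun a => Real.circleAverage (fun z => Real.log ‖f z - a‖) 0 r₂ with hI2
  set G : ℂ → ℝ := fun a => (I2 a - I1 a) * L⁻¹ with hG
  have hGint : CircleIntegrable G 0 τ := by
    have := (hi2.sub hi1)
    exact IntervalIntegrable.mul_const this L⁻¹
  have hper : Function.Periodic (fun θ : ℝ => G (circleMap 0 τ θ)) (2 * Real.pi) := by
    intro x
    simp [periodic_circleMap 0 τ x]
  have hGii : IntervalIntegrable (fun θ : ℝ => G (circleMap 0 τ θ)) volume (-Real.pi) Real.pi := by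
    apply hper.intervalIntegrable Real.two_pi_pos.ne' (t := 0)
    rw [zero_add]
    exact hGint
  have hGon : IntegrableOn (fun θ : ℝ => G (circleMap 0 τ θ)) (Ioo (-Real.pi) Real.pi) := by
    have := (intervalIntegrable_iff_integrableOn_Ioo_of_le
      (by linarith [Real.pi_pos] : -Real.pi ≤ Real.pi)).mp hGii
    exact this
  have hval : ∫ θ in Ioo (-Real.pi) Real.pi, G (circleMap 0 τ θ) = 2 * Real.pi *
      ((Psi f τ r₂ - Psi f τ r₁) * L⁻¹) := by
    rw [← integral_Ioc_eq_integral_Ioo, ← intervalIntegral.integral_of_le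
      (by linarith [Real.pi_pos] : -Real.pi ≤ Real.pi)]
    have h1 := hper.intervalIntegral_add_eq (-Real.pi) 0
    rw [show -Real.pi + 2 * Real.pi = Real.pi by ring, zero_add] at h1
    rw [h1]
    have h2 : Real.circleAverage G 0 τ = (Psi f τ r₂ - Psi f τ r₁) * L⁻¹ := by
      have h3 : Real.circleAverage (fun a => I2 a - I1 a) 0 τ = Psi f τ r₂ - Psi f τ r₁ := by
        rw [Real.circleAverage_fun_sub hi2 hi1, ha1, ha2]
      rw [← h3]
      simp only [Real.circleAverage_def, hG, smul_eq_mul, intervalIntegral.integral_mul_const]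
      ring
    rw [← h2, Real.circleAverage_def, smul_eq_mul]
    field_simp
  have hle : ∀ᵐ θ ∂(volume.restrict (Ioo (-Real.pi) Real.pi)),
      (nn f r₁ (circleMap 0 τ θ) : ℝ) ≤ G (circleMap 0 τ θ) := by
    rw [ae_restrict_iff' measurableSet_Ioo]
    have h0 : ∀ᵐ θ : ℝ, θ ≠ 0 := Measure.ae_ne volume 0
    filter_upwards [h0] with θ hθ hmem
    have hne : circleMap 0 τ θ ≠ 1 := by
      intro h
      have him := congrArg Complex.im h
      rw [circleMap, zero_add] at him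
      have h1 : τ * Real.sin θ = 0 := by
        have : ((τ : ℂ) * Complex.exp (θ * I)).im = τ * Real.sin θ := by
          rw [Complex.im_ofReal_mul, Complex.exp_ofReal_mul_I_im]
        rw [← this, him, Complex.one_im]
      have h2 : Real.sin θ = 0 := by
        rcases mul_eq_zero.mp h1 with h | h
        · exact absurd h hτ.ne'
        · exact h
      exact hθ ((Real.sin_eq_zero_iff_of_lt_of_lt hmem.1 hmem.2).mp h2)
    have h1 := jensen_lower r₁ r₂ hr1 h12 _ hne
    simp only [hG]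
    rw [← div_eq_mul_inv, le_div_iff₀ hLpos]
    exact h1
  calc (∫⁻ θ in Ioo (-Real.pi) Real.pi, ((nn f r₁ (circleMap 0 τ θ) : ℕ) : ENNReal))
      ≤ ∫⁻ θ in Ioo (-Real.pi) Real.pi, ENNReal.ofReal (G (circleMap 0 τ θ)) := by
        apply lintegral_mono_ae
        filter_upwards [hle] with θ hθ
        rw [← ENNReal.ofReal_natCast]
        exact ENNReal.ofReal_le_ofReal hθ
    _ = ENNReal.ofReal (∫ θ in Ioo (-Real.pi) Real.pi, G (circleMap 0 τ θ)) := by
        rw [ofReal_integral_eq_lintegral_ofReal hGon]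
        filter_upwards [hle] with θ hθ
        exact (Nat.cast_nonneg _).trans hθ
    _ ≤ ENNReal.ofReal (2 * Real.pi * B) := by
        apply ENNReal.ofReal_le_ofReal
        rw [hval]
        have : (Psi f τ r₂ - Psi f τ r₁) * L⁻¹ ≤ B := by
          rw [← div_eq_mul_inv, div_le_iff₀ hLpos]
          exact hB
        have hp := Real.two_pi_pos
        nlinarith

/-- Upper bound for the spherical mean of the counting function (Ahlfors-Shimizu), from the
two-radii Jensen inequalities, which are hypotheses here. -/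
theorem area_le {f : ℂ → ℂ} (hf : Differentiable ℂ f) (h0 : f 0 = 1)
    (jensen_lower : ∀ r₁ r₂ : ℝ, 0 < r₁ → r₁ < r₂ → ∀ a : ℂ, a ≠ 1 →
      (nn f r₁ a : ℝ) * (Real.log r₂ - Real.log r₁) ≤
      Real.circleAverage (fun z => Real.log ‖f z - a‖) 0 r₂
        - Real.circleAverage (fun z => Real.log ‖f z - a‖) 0 r₁)
    (jensen_zero : ∀ r₁ r₂ : ℝ, 0 < r₁ → r₁ < r₂ → ∀ a : ℂ, a ≠ 1 →
      (nn f r₁ a : ℝ) * (Real.log r₂ - Real.log r₁) ≤
      Real.circleAverage (fun z => Real.log ‖f z - a‖) 0 r₂ - Real.log ‖1 - a‖)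
    (average_value : ∀ r τ : ℝ, 0 < r → 0 < τ →
      CircleIntegrable (fun a => Real.circleAverage (fun z => Real.log ‖f z - a‖) 0 r) 0 τ ∧
      Real.circleAverage (fun a => Real.circleAverage (fun z => Real.log ‖f z - a‖) 0 r) 0 τ
        = Psi f τ r)
    {r₁ r₂ T B M : ℝ}
    (hr1 : 0 < r₁) (h12 : r₁ < r₂) (hT : 2 ≤ T) (hB0 : 0 ≤ B) (hM0 : 0 ≤ M)
    (hB : ∀ τ ∈ Icc T⁻¹ T, Psi f τ r₂ - Psi f τ r₁ ≤ B * (Real.log r₂ - Real.log r₁))
    (hM : ∀ z : ℂ, ‖z‖ ≤ 3 * r₁ → ‖f z‖ ≤ Real.exp M) :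
    (∫⁻ b : ℂ, ((nn f r₁ b : ℕ) : ENNReal) / ENNReal.ofReal ((1 + ‖b‖ ^ 2) ^ 2)) ≤
      ENNReal.ofReal (Real.pi * (B + 4 * (M + 3) / T ^ 2)) := by
  have hTpos : 0 < T := by linarith
  have hTinv : T⁻¹ ≤ 1/2 := by
    rw [one_div]
    exact inv_anti₀ (by norm_num) hT
  -- angular bound
  have hang : ∀ r ∈ Ioi (0:ℝ), (∫⁻ θ in Ioo (-Real.pi) Real.pi,
      ((nn f r₁ (circleMap 0 r θ) : ℕ) : ENNReal)) ≤
      ENNReal.ofReal (2 * Real.pi * B) +
        (Ioo 0 T⁻¹ ∪ Ioi T).indicator (fun _ => ENNReal.ofReal (2 * Real.pi * (M + 1))) r := by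
    intro r hr
    have hr0 : 0 < r := hr
    by_cases hmem : r ∈ Icc T⁻¹ T
    · exact (inner_bound jensen_lower average_value hr1 h12 hr0 (hB r hmem)).trans le_self_add
    · have hmem' : r ∈ Ioo 0 T⁻¹ ∪ Ioi T := by
        by_contra hcon
        apply hmem
        simp only [mem_union, mem_Ioo, mem_Ioi, not_or, not_and, not_lt] at hcon
        exact ⟨hcon.1 hr0, hcon.2⟩
      rw [indicator_of_mem hmem']
      refine le_trans ?_ le_add_self
      have hb : ∀ θ : ℝ, (nn f r₁ (circleMap 0 r θ) : ℝ) ≤ M + 1 := by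
        intro θ
        apply pointwise hf jensen_zero hr1 hM0 hM
        have hn : ‖circleMap 0 r θ‖ = r := by
          rw [norm_circleMap_zero, abs_of_pos hr0]
        rw [hn]
        rcases hmem' with h | h
        · left; exact h.2.le.trans hTinv
        · right; exact hT.trans (le_of_lt h)
      calc (∫⁻ θ in Ioo (-Real.pi) Real.pi, ((nn f r₁ (circleMap 0 r θ) : ℕ) : ENNReal))
          ≤ ∫⁻ θ in Ioo (-Real.pi) Real.pi, ENNReal.ofReal (M + 1) := by
            apply lintegral_mono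
            intro θ
            simp only
            rw [← ENNReal.ofReal_natCast]
            exact ENNReal.ofReal_le_ofReal (hb θ)
        _ = ENNReal.ofReal (2 * Real.pi * (M + 1)) := by
            rw [setLIntegral_const, Real.volume_Ioo, ← ENNReal.ofReal_mul (by linarith)]
            congr 1; ring
  have hmeas : Measurable (fun r : ℝ => ENNReal.ofReal (r / (1 + r ^ 2) ^ 2)) := by fun_prop
  rw [← Complex.lintegral_comp_polarCoord_symm]
  have htar : polarCoord.target = Ioi (0:ℝ) ×ˢ Ioo (-Real.pi) Real.pi := rfl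
  rw [htar, Measure.volume_eq_prod, ← Measure.prod_restrict]
  refine (lintegral_prod_le _).trans ?_
  calc ∫⁻ r in Ioi (0:ℝ), ∫⁻ θ in Ioo (-Real.pi) Real.pi,
        ENNReal.ofReal r • (((nn f r₁ (Complex.polarCoord.symm (r, θ)) : ℕ) : ENNReal) /
          ENNReal.ofReal ((1 + ‖Complex.polarCoord.symm (r, θ)‖ ^ 2) ^ 2))
      ≤ ∫⁻ r in Ioi (0:ℝ), ENNReal.ofReal (r / (1 + r ^ 2) ^ 2) *
          (ENNReal.ofReal (2 * Real.pi * B) +
        (Ioo 0 T⁻¹ ∪ Ioi T).indicator (fun _ => ENNReal.ofReal (2 * Real.pi * (M + 1))) r) := by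
        apply setLIntegral_mono
        · apply hmeas.mul
          exact Measurable.add measurable_const
            ((measurable_const (a := ENNReal.ofReal (2 * Real.pi * (M + 1)))).indicator
              ((measurableSet_Ioo (a := (0:ℝ)) (b := T⁻¹)).union (measurableSet_Ioi (a := T))))
        · intro r hr
          have hr0 : 0 < r := hr
          have heq : ∀ θ : ℝ, ENNReal.ofReal r •
              (((nn f r₁ (Complex.polarCoord.symm (r, θ)) : ℕ) : ENNReal) /
              ENNReal.ofReal ((1 + ‖Complex.polarCoord.symm (r, θ)‖ ^ 2) ^ 2)) =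
              ENNReal.ofReal (r / (1 + r ^ 2) ^ 2) *
                ((nn f r₁ (circleMap 0 r θ) : ℕ) : ENNReal) := by
            intro θ
            have h1 : Complex.polarCoord.symm (r, θ) = circleMap 0 r θ := by
              rw [Complex.polarCoord_symm_apply, circleMap, zero_add, Complex.exp_mul_I]
              simp
            rw [h1, norm_circleMap_zero, sq_abs, smul_eq_mul,
              ENNReal.ofReal_div_of_pos (by positivity), ENNReal.div_eq_inv_mul,
              ENNReal.div_eq_inv_mul]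
            ring
          simp_rw [heq]
          rw [lintegral_const_mul' _ _ ENNReal.ofReal_ne_top]
          gcongr
          exact hang r hr
    _ = (∫⁻ r in Ioi (0:ℝ), ENNReal.ofReal (r / (1 + r ^ 2) ^ 2)) * ENNReal.ofReal (2 * Real.pi * B)
        + (∫⁻ r in (Ioo 0 T⁻¹ ∪ Ioi T), ENNReal.ofReal (r / (1 + r ^ 2) ^ 2)) *
          ENNReal.ofReal (2 * Real.pi * (M + 1)) := by
        have h0' : ∀ r : ℝ, ENNReal.ofReal (r / (1 + r ^ 2) ^ 2) *
          (ENNReal.ofReal (2 * Real.pi * B) +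
            (Ioo 0 T⁻¹ ∪ Ioi T).indicator (fun _ => ENNReal.ofReal (2 * Real.pi * (M + 1))) r) =
            ENNReal.ofReal (r / (1 + r ^ 2) ^ 2) * ENNReal.ofReal (2 * Real.pi * B) +
            ENNReal.ofReal (r / (1 + r ^ 2) ^ 2) *
            (Ioo 0 T⁻¹ ∪ Ioi T).indicator (fun _ => ENNReal.ofReal (2 * Real.pi * (M + 1))) r :=
          fun r => mul_add _ _ _
        rw [lintegral_congr h0', lintegral_add_left (hmeas.mul_const _),
          lintegral_mul_const _ hmeas]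
        congr 1
        have h1 : ∀ r : ℝ, ENNReal.ofReal (r / (1 + r ^ 2) ^ 2) *
            (Ioo 0 T⁻¹ ∪ Ioi T).indicator (fun _ => ENNReal.ofReal (2 * Real.pi * (M + 1))) r =
            (Ioo 0 T⁻¹ ∪ Ioi T).indicator (fun r => ENNReal.ofReal (r / (1 + r ^ 2) ^ 2) *
              ENNReal.ofReal (2 * Real.pi * (M + 1))) r := by
          intro r
          by_cases h : r ∈ Ioo 0 T⁻¹ ∪ Ioi T
          · rw [indicator_of_mem h, indicator_of_mem h]
          · rw [indicator_of_notMem h, indicator_of_notMem h, mul_zero]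
        rw [lintegral_congr h1, lintegral_indicator (measurableSet_Ioo.union measurableSet_Ioi),
          Measure.restrict_restrict (measurableSet_Ioo.union measurableSet_Ioi),
          lintegral_mul_const _ hmeas]
        congr 3
        apply inter_eq_left.mpr
        rintro x (hx | hx)
        · exact hx.1
        · exact hTpos.trans hx
    _ ≤ ENNReal.ofReal (1/2) * ENNReal.ofReal (2 * Real.pi * B) +
        (ENNReal.ofReal (T⁻¹ ^ 2) + ENNReal.ofReal (1 / (2 * (1 + T ^ 2)))) *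
          ENNReal.ofReal (2 * Real.pi * (M + 1)) := by
        gcongr
        · rw [rad_int 0 le_rfl]
          apply le_of_eq
          congr 1; norm_num
        · refine (lintegral_union_le _ _ _).trans ?_
          gcongr
          · exact rad_int0 _ (by positivity)
          · exact (rad_int T hTpos.le).le
    _ ≤ ENNReal.ofReal (Real.pi * (B + 4 * (M + 3) / T ^ 2)) := by
        have hpi := Real.pi_pos
        rw [← ENNReal.ofReal_add (by positivity) (by positivity),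
          ← ENNReal.ofReal_mul (by positivity), ← ENNReal.ofReal_mul (by positivity),
          ← ENNReal.ofReal_add (by positivity) (by positivity)]
        apply ENNReal.ofReal_le_ofReal
        have h1 : 1 / (2 * (1 + T ^ 2)) ≤ 1 / (2 * T ^ 2) := by
          apply one_div_le_one_div_of_le (by positivity)
          nlinarith
        have h2 : T⁻¹ ^ 2 = 1 / T ^ 2 := by rw [inv_pow, one_div]
        have h3 : T⁻¹ ^ 2 + 1 / (2 * (1 + T ^ 2)) ≤ (3/2) / T ^ 2 := by
          rw [h2]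
          calc 1 / T^2 + 1 / (2 * (1 + T^2)) ≤ 1 / T^2 + 1 / (2 * T^2) := by linarith
            _ = (3/2) / T^2 := by field_simp; norm_num
        calc 1 / 2 * (2 * Real.pi * B) + (T⁻¹ ^ 2 + 1 / (2 * (1 + T ^ 2))) * (2 * Real.pi * (M + 1))
            ≤ Real.pi * B + (3/2) / T ^ 2 * (2 * Real.pi * (M + 1)) := by
              have : 0 ≤ 2 * Real.pi * (M + 1) := by positivity
              have := mul_le_mul_of_nonneg_right h3 this
              linarith
          _ = Real.pi * (B + 3 * (M + 1) / T ^ 2) := by field_simp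
          _ ≤ Real.pi * (B + 4 * (M + 3) / T ^ 2) := by
              gcongr
              · norm_num
              · norm_num

end RayArea

end

section
open Complex MeasureTheory Set Filter Topology

namespace RayAsymp

/-- logarithm of the product with positive zeros `t k` -/
noncomputable def Lam (t : ℕ → ℝ) (z : ℂ) : ℂ := ∑' k, Complex.log (1 - z / (t k : ℂ))

/-- zeros with prescribed counting function -/
theorem exists_zeros {N : ℝ → ℝ} {ρ : ℝ} (hρ1 : 1 / 2 ≤ ρ) (hρ2 : ρ < 1)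
    (hc : ContinuousOn N (Ici 0)) (hm : StrictMonoOn N (Ici 0)) (hN0 : N 0 = 0)
    (hlo : ∀ x, 0 ≤ x → x ^ ρ / 2 ≤ N x) (hhi : ∀ x, 0 ≤ x → N x ≤ 2 * x ^ ρ) :
    ∃ t : ℕ → ℝ, (∀ k, 0 < t k) ∧ (∀ k, N (t k) = k + 1) ∧ Summable fun k => (t k)⁻¹ := by
  have hρ0 : 0 < ρ := by linarith
  have hex : ∀ k : ℕ, ∃ x : ℝ, 0 < x ∧ N x = k + 1 := by
    intro k
    set b : ℝ := (2 * ((k:ℝ) + 1)) ^ (1 / ρ) with hb
    have hb0 : 0 ≤ b := by positivity
    have h1 : b ^ ρ = 2 * ((k:ℝ) + 1) := by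
      rw [hb, ← Real.rpow_mul (by positivity)]
      rw [one_div_mul_cancel hρ0.ne', Real.rpow_one]
    have h2 := hlo b hb0
    rw [h1] at h2
    have h3 : ((k:ℝ) + 1) ∈ Icc (N 0) (N b) := by
      rw [hN0]
      constructor
      · positivity
      · linarith
    have h4 := intermediate_value_Icc hb0 (hc.mono (fun x hx => hx.1)) h3
    obtain ⟨x, hx, hNx⟩ := h4
    refine ⟨x, lt_of_le_of_ne hx.1 ?_, hNx⟩
    rintro rfl
    rw [hN0] at hNx
    have : (0:ℝ) < k + 1 := by positivity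
    linarith
  choose t ht hNt using hex
  refine ⟨t, ht, hNt, ?_⟩
  have hle : ∀ k : ℕ, (t k)⁻¹ ≤ ((2:ℝ) ^ (1 / ρ)) * (1 / ((k + 1 : ℕ) : ℝ) ^ (1 / ρ)) := by
    intro k
    have h1 := hhi (t k) (ht k).le
    rw [hNt k] at h1
    have h2 : (((k:ℝ) + 1) / 2) ^ (1 / ρ) ≤ t k := by
      have h3 : ((k:ℝ) + 1) / 2 ≤ (t k) ^ ρ := by linarith
      have h4 := Real.rpow_le_rpow (by positivity) h3 (by positivity : (0:ℝ) ≤ 1 / ρ)
      rw [← Real.rpow_mul (ht k).le, mul_one_div_cancel hρ0.ne', Real.rpow_one] at h4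
      exact h4
    have h5 : (0:ℝ) < (((k:ℝ) + 1) / 2) ^ (1 / ρ) := by positivity
    calc (t k)⁻¹ ≤ ((((k:ℝ) + 1) / 2) ^ (1 / ρ))⁻¹ := inv_anti₀ h5 h2
      _ = ((2:ℝ) ^ (1 / ρ)) * (1 / ((k + 1 : ℕ) : ℝ) ^ (1 / ρ)) := by
        rw [Real.div_rpow (by positivity) (by norm_num)]
        push_cast
        rw [inv_div]
        ring
  refine Summable.of_nonneg_of_le (fun k => (inv_pos.2 (ht k)).le) hle ?_
  refine Summable.mul_left _ ?_
  have : Summable fun n : ℕ => 1 / (n:ℝ) ^ (1 / ρ) := by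
    rw [Real.summable_one_div_nat_rpow]
    rw [lt_div_iff₀ hρ0]
    linarith
  exact (summable_nat_add_iff 1).2 this

/-- geometry -/
theorem geo {θ₀ : ℝ} (h0 : 0 < θ₀) (h1 : θ₀ ≤ Real.pi) : ∃ c : ℝ, 0 < c ∧
    ∀ θ ∈ Icc θ₀ Real.pi, ∀ r : ℝ, 0 < r → ∀ z : ℂ, z = r * Complex.exp (θ * I) → ∀ x : ℝ, 0 ≤ x →
      c * (x + r) ≤ ‖(x:ℂ) - z‖ := by
  have hcos : Real.cos θ₀ < 1 := by
    have := Real.cos_lt_cos_of_nonneg_of_le_pi (le_refl (0:ℝ)) h1 h0
    simpa using this
  refine ⟨Real.sqrt ((1 - Real.cos θ₀) / 2), Real.sqrt_pos.2 (by linarith), ?_⟩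
  intro θ hθ r hr z hz x hx
  have h2 : Real.cos θ ≤ Real.cos θ₀ := Real.cos_le_cos_of_nonneg_of_le_pi h0.le hθ.2 hθ.1
  have h3 : ‖(x:ℂ) - z‖ ^ 2 = x ^ 2 - 2 * x * r * Real.cos θ + r ^ 2 := by
    have e1 : z = ((r * Real.cos θ : ℝ) : ℂ) + ((r * Real.sin θ : ℝ) : ℂ) * I := by
      rw [hz, Complex.exp_mul_I]
      push_cast
      ring
    rw [← Complex.normSq_eq_norm_sq, e1, Complex.normSq_apply]
    simp only [Complex.sub_re, Complex.add_re, Complex.ofReal_re, Complex.mul_re, Complex.I_re,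
      Complex.ofReal_im, Complex.I_im, Complex.sub_im, Complex.add_im, Complex.mul_im]
    have := Real.sin_sq_add_cos_sq θ
    nlinarith [this]
  have h4 : (Real.sqrt ((1 - Real.cos θ₀) / 2) * (x + r)) ^ 2 ≤ ‖(x:ℂ) - z‖ ^ 2 := by
    rw [h3, mul_pow, Real.sq_sqrt (by linarith)]
    have e2 : x * r * Real.cos θ ≤ x * r * Real.cos θ₀ := mul_le_mul_of_nonneg_left h2 (by positivity)
    have e3 : 0 ≤ (1 + Real.cos θ₀) / 2 * (x - r) ^ 2 := by
      have := Real.neg_one_le_cos θ₀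
      have : 0 ≤ 1 + Real.cos θ₀ := by linarith
      positivity
    nlinarith
  exact (pow_le_pow_iff_left₀ (by positivity) (norm_nonneg _) (two_ne_zero)).1 h4

section
variable {z : ℂ} {c r : ℝ}

theorem ne_of (hc : 0 < c) (hr : 0 < r) (hz : ∀ x : ℝ, 0 ≤ x → c * (x + r) ≤ ‖(x:ℂ) - z‖) (x : ℝ) (hx : 0 ≤ x) :
    (x:ℂ) - z ≠ 0 := by
  intro h
  have := hz x hx
  rw [h, norm_zero] at this
  have h2 : 0 < c * (x + r) := by positivity
  linarith

theorem slit_of (hc : 0 < c) (hr : 0 < r) (hz : ∀ x : ℝ, 0 ≤ x → c * (x + r) ≤ ‖(x:ℂ) - z‖) (x : ℝ) (hx : 0 < x) :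
    1 - z / (x:ℂ) ∈ slitPlane := by
  by_contra h
  rw [Complex.mem_slitPlane_iff] at h
  push Not at h
  obtain ⟨h1, h2⟩ := h
  have hx' : (x:ℂ) ≠ 0 := by exact_mod_cast hx.ne'
  have h3 : 1 - z / (x:ℂ) = (((1 - z / (x:ℂ)).re : ℝ) : ℂ) := by
    apply Complex.ext
    · simp
    · rw [h2]; simp
  set s := (1 - z / (x:ℂ)).re with hs
  have h4 : ((x * (1 - s) : ℝ) : ℂ) - z = 0 := by
    push_cast
    rw [← h3]
    field_simp
    ring
  exact ne_of hc hr hz (x * (1 - s)) (mul_nonneg hx.le (by linarith)) h4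

theorem kernel_bound (hc : 0 < c) (hr : 0 < r) (hz : ∀ x : ℝ, 0 ≤ x → c * (x + r) ≤ ‖(x:ℂ) - z‖) (x : ℝ) (hx : 0 < x) :
    ‖1 / ((x:ℂ) * ((x:ℂ) - z))‖ ≤ 1 / (x * (c * (x + r))) := by
  rw [norm_div, norm_one, norm_mul, Complex.norm_real, Real.norm_eq_abs, abs_of_pos hx]
  apply one_div_le_one_div_of_le
  · positivity
  · exact mul_le_mul_of_nonneg_left (hz x hx.le) hx.le

theorem kernel_bound2 (hc : 0 < c) (hr : 0 < r) (hz : ∀ x : ℝ, 0 ≤ x → c * (x + r) ≤ ‖(x:ℂ) - z‖) (x : ℝ) (hx : 0 < x) :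
    ‖1 / ((x:ℂ) * ((x:ℂ) - z))‖ ≤ (1 / c) * x ^ (-2 : ℝ) := by
  refine (kernel_bound hc hr hz x hx).trans ?_
  have h1 : x ^ (-2:ℝ) = 1 / (x * x) := by
    rw [Real.rpow_neg hx.le, show (2:ℝ) = ((2:ℕ):ℝ) by norm_num, Real.rpow_natCast]
    field_simp
  rw [h1, one_div_mul_one_div]
  apply one_div_le_one_div_of_le (by positivity)
  nlinarith [mul_pos hx hr, mul_pos hc (mul_pos hx hr)]

theorem kernel_cont (hc : 0 < c) (hr : 0 < r) (hz : ∀ x : ℝ, 0 ≤ x → c * (x + r) ≤ ‖(x:ℂ) - z‖) :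
    ContinuousOn (fun x : ℝ => 1 / ((x:ℂ) * ((x:ℂ) - z))) (Ioi 0) := by
  apply ContinuousOn.div continuousOn_const
  · fun_prop
  · intro x hx
    have h1 := ne_of hc hr hz x (le_of_lt hx)
    have h2 : (x:ℂ) ≠ 0 := by exact_mod_cast (ne_of_gt hx)
    exact mul_ne_zero h2 h1

theorem kernel_int (hc : 0 < c) (hr : 0 < r) (hz : ∀ x : ℝ, 0 ≤ x → c * (x + r) ≤ ‖(x:ℂ) - z‖) (a : ℝ) (ha : 0 < a) :
    IntegrableOn (fun x : ℝ => 1 / ((x:ℂ) * ((x:ℂ) - z))) (Ioi a) := by
  have h1 : IntegrableOn (fun x : ℝ => (1 / c) * x ^ (-2:ℝ)) (Ioi a) :=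
    (integrableOn_Ioi_rpow_of_lt (by norm_num) ha).const_mul _
  refine Integrable.mono' h1 ?_ ?_
  · exact ((kernel_cont hc hr hz).mono (Ioi_subset_Ioi ha.le)).aestronglyMeasurable measurableSet_Ioi
  · refine (ae_restrict_mem measurableSet_Ioi).mono fun x hx => ?_
    exact kernel_bound2 hc hr hz x (ha.trans hx)

theorem log_eq (hc : 0 < c) (hr : 0 < r) (hz : ∀ x : ℝ, 0 ≤ x → c * (x + r) ≤ ‖(x:ℂ) - z‖) (a : ℝ) (ha : 0 < a) :
    Complex.log (1 - z / (a:ℂ)) = -z * ∫ x in Ioi a, 1 / ((x:ℂ) * ((x:ℂ) - z)) := by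
  have hder : ∀ x ∈ Ioi (0:ℝ), HasDerivAt (fun x : ℝ => Complex.log (1 - z / (x:ℂ))) (z * (1 / ((x:ℂ) * ((x:ℂ) - z)))) x := by
    intro x hx
    have hx0 : (0:ℝ) < x := hx
    have hx' : (x:ℂ) ≠ 0 := by exact_mod_cast hx0.ne'
    have h0 : HasDerivAt (fun x : ℝ => (x:ℂ)) 1 x := Complex.ofRealCLM.hasDerivAt
    have h1 : HasDerivAt (fun x : ℝ => 1 - z / (x:ℂ)) (z / (x:ℂ) ^ 2) x := by
      have h5 := ((h0.inv hx').const_mul z).const_sub 1
      have h6 : -(z * (-1 / (x:ℂ) ^ 2)) = z / (x:ℂ) ^ 2 := by ring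
      rw [h6] at h5
      exact h5
    have h2 := h1.clog_real (slit_of hc hr hz x hx0)
    convert h2 using 1
    have h3 := ne_of hc hr hz x hx0.le
    have h4 : (1 - z / (x:ℂ)) = ((x:ℂ) - z) / (x:ℂ) := by field_simp
    rw [h4]
    field_simp
  have hint := (kernel_int hc hr hz a ha).const_mul z
  have hlim : Tendsto (fun x : ℝ => Complex.log (1 - z / (x:ℂ))) atTop (𝓝 0) := by
    have h1 : Tendsto (fun x : ℝ => 1 - z / (x:ℂ)) atTop (𝓝 1) := by
      have h2 : Tendsto (fun x : ℝ => z * ((x⁻¹ : ℝ) : ℂ)) atTop (𝓝 (z * ((0:ℝ):ℂ))) := by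
        apply Tendsto.const_mul
        exact (Complex.continuous_ofReal.tendsto 0).comp tendsto_inv_atTop_zero
      have h3 := h2.const_sub 1
      simp only [Complex.ofReal_zero, mul_zero, sub_zero] at h3
      refine h3.congr fun x => ?_
      push_cast
      rw [div_eq_mul_inv]
    have h4 := (continuousAt_clog (x := 1) (by simp)).tendsto.comp h1
    rw [Complex.log_one] at h4
    exact h4
  have h5 := integral_Ioi_of_hasDerivAt_of_tendsto (a := a)
    (hder a ha).continuousAt.continuousWithinAt (fun x hx => hder x (ha.trans hx)) hint hlim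
  rw [MeasureTheory.integral_const_mul] at h5
  have h6 : z * ∫ x in Ioi a, 1 / ((x:ℂ) * ((x:ℂ) - z)) = - Complex.log (1 - z / (a:ℂ)) := by
    rw [h5]; ring
  rw [neg_mul, h6, neg_neg]

theorem diff_bound (hc : 0 < c) (hr : 0 < r) (hz : ∀ x : ℝ, 0 ≤ x → c * (x + r) ≤ ‖(x:ℂ) - z‖)
    (d : ℝ → ℝ) (hd : ∀ x, 0 < x → |d x| ≤ 2 * x ^ (1/4:ℝ))
    (hdm : AEStronglyMeasurable d (volume.restrict (Ioi (0:ℝ)))) :
    IntegrableOn (fun x : ℝ => (d x : ℂ) * (1 / ((x:ℂ) * ((x:ℂ) - z)))) (Ioi 0) ∧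
    ‖∫ x in Ioi (0:ℝ), (d x : ℂ) * (1 / ((x:ℂ) * ((x:ℂ) - z)))‖ ≤ (32 / (3 * c)) * r ^ (-3/4:ℝ) := by
  have hmeas : AEStronglyMeasurable (fun x : ℝ => (d x : ℂ) * (1 / ((x:ℂ) * ((x:ℂ) - z)))) (volume.restrict (Ioi (0:ℝ))) := by
    apply AEStronglyMeasurable.mul
    · exact Complex.continuous_ofReal.comp_aestronglyMeasurable hdm
    · exact (kernel_cont hc hr hz).aestronglyMeasurable measurableSet_Ioi
  have hb1 : ∀ x, 0 < x → x ≤ r → ‖(d x : ℂ) * (1 / ((x:ℂ) * ((x:ℂ) - z)))‖ ≤ (2 / (c * r)) * x ^ (-3/4:ℝ) := by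
    intro x hx hxr
    rw [norm_mul, Complex.norm_real, Real.norm_eq_abs]
    have e1 := kernel_bound hc hr hz x hx
    have e2 : 1 / (x * (c * (x + r))) ≤ 1 / (x * (c * r)) := by
      apply one_div_le_one_div_of_le (by positivity)
      apply mul_le_mul_of_nonneg_left _ hx.le
      apply mul_le_mul_of_nonneg_left _ hc.le
      linarith
    have e3 : x ^ (-3/4:ℝ) = x ^ (1/4:ℝ) * x⁻¹ := by
      rw [← Real.rpow_neg_one, ← Real.rpow_add hx]; norm_num
    calc |d x| * ‖1 / ((x:ℂ) * ((x:ℂ) - z))‖ ≤ (2 * x ^ (1/4:ℝ)) * (1 / (x * (c * r))) :=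
          mul_le_mul (hd x hx) (e1.trans e2) (norm_nonneg _) (by positivity)
      _ = _ := by rw [e3]; field_simp
  have hb2 : ∀ x, 0 < x → r ≤ x → ‖(d x : ℂ) * (1 / ((x:ℂ) * ((x:ℂ) - z)))‖ ≤ (2 / c) * x ^ (-7/4:ℝ) := by
    intro x hx hxr
    rw [norm_mul, Complex.norm_real, Real.norm_eq_abs]
    have e1 := kernel_bound hc hr hz x hx
    have e2 : 1 / (x * (c * (x + r))) ≤ 1 / (x * (c * x)) := by
      apply one_div_le_one_div_of_le (by positivity)
      apply mul_le_mul_of_nonneg_left _ hx.le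
      apply mul_le_mul_of_nonneg_left _ hc.le
      linarith
    have e3 : x ^ (-7/4:ℝ) = x ^ (1/4:ℝ) * x⁻¹ * x⁻¹ := by
      rw [← Real.rpow_neg_one, ← Real.rpow_add hx, ← Real.rpow_add hx]; norm_num
    calc |d x| * ‖1 / ((x:ℂ) * ((x:ℂ) - z))‖ ≤ (2 * x ^ (1/4:ℝ)) * (1 / (x * (c * x))) :=
          mul_le_mul (hd x hx) (e1.trans e2) (norm_nonneg _) (by positivity)
      _ = _ := by rw [e3]; field_simp
  -- first piece
  have hi1 : IntegrableOn (fun x : ℝ => (2 / (c * r)) * x ^ (-3/4:ℝ)) (Ioc 0 r) := by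
    have := (intervalIntegral.intervalIntegrable_rpow' (a := 0) (b := r) (r := (-3/4:ℝ)) (by norm_num))
    rw [intervalIntegrable_iff_integrableOn_Ioc_of_le hr.le] at this
    exact this.const_mul _
  have hi2 : IntegrableOn (fun x : ℝ => (2 / c) * x ^ (-7/4:ℝ)) (Ioi r) :=
    (integrableOn_Ioi_rpow_of_lt (by norm_num) hr).const_mul _
  have hI1 : IntegrableOn (fun x : ℝ => (d x : ℂ) * (1 / ((x:ℂ) * ((x:ℂ) - z)))) (Ioc 0 r) := by
    refine Integrable.mono' hi1 (hmeas.mono_measure (Measure.restrict_mono_set _ Ioc_subset_Ioi_self)) ?_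
    exact (ae_restrict_mem measurableSet_Ioc).mono fun x hx => hb1 x hx.1 hx.2
  have hI2 : IntegrableOn (fun x : ℝ => (d x : ℂ) * (1 / ((x:ℂ) * ((x:ℂ) - z)))) (Ioi r) := by
    refine Integrable.mono' hi2 (hmeas.mono_measure (Measure.restrict_mono_set _ (Ioi_subset_Ioi hr.le))) ?_
    exact (ae_restrict_mem measurableSet_Ioi).mono fun x hx => hb2 x (hr.trans hx) (le_of_lt hx)
  have hU : Ioc (0:ℝ) r ∪ Ioi r = Ioi 0 := Ioc_union_Ioi_eq_Ioi hr.le
  have hD : Disjoint (Ioc (0:ℝ) r) (Ioi r) := Ioc_disjoint_Ioi le_rfl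
  refine ⟨hU ▸ (hI1.union hI2), ?_⟩
  rw [← hU, MeasureTheory.setIntegral_union hD measurableSet_Ioi hI1 hI2]
  have n1 : ‖∫ x in Ioc 0 r, (d x : ℂ) * (1 / ((x:ℂ) * ((x:ℂ) - z)))‖ ≤ 8 / c * r ^ (-3/4:ℝ) := by
    calc ‖∫ x in Ioc 0 r, (d x : ℂ) * (1 / ((x:ℂ) * ((x:ℂ) - z)))‖ ≤ ∫ x in Ioc 0 r, (2 / (c * r)) * x ^ (-3/4:ℝ) :=
          norm_integral_le_of_norm_le hi1 ((ae_restrict_mem measurableSet_Ioc).mono fun x hx => hb1 x hx.1 hx.2)
      _ = 8 / c * r ^ (-3/4:ℝ) := by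
        rw [← intervalIntegral.integral_of_le hr.le, intervalIntegral.integral_const_mul,
          integral_rpow (Or.inl (by norm_num))]
        have e1 : r ^ (-3/4 + 1 : ℝ) = r * r ^ (-3/4:ℝ) := by
          rw [Real.rpow_add hr, Real.rpow_one]; ring
        rw [e1, Real.zero_rpow (by norm_num)]
        field_simp
        norm_num
        ring
  have n2 : ‖∫ x in Ioi r, (d x : ℂ) * (1 / ((x:ℂ) * ((x:ℂ) - z)))‖ ≤ 8 / (3 * c) * r ^ (-3/4:ℝ) := by
    calc ‖∫ x in Ioi r, (d x : ℂ) * (1 / ((x:ℂ) * ((x:ℂ) - z)))‖ ≤ ∫ x in Ioi r, (2 / c) * x ^ (-7/4:ℝ) :=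
          norm_integral_le_of_norm_le hi2 ((ae_restrict_mem measurableSet_Ioi).mono fun x hx => hb2 x (hr.trans hx) (le_of_lt hx))
      _ = 8 / (3 * c) * r ^ (-3/4:ℝ) := by
        rw [MeasureTheory.integral_const_mul, integral_Ioi_rpow_of_lt (by norm_num) hr]
        have e1 : (-7/4 + 1 : ℝ) = -3/4 := by norm_num
        rw [e1]
        field_simp
        norm_num
  calc _ ≤ _ := norm_add_le _ _
    _ ≤ 8 / c * r ^ (-3/4:ℝ) + 8 / (3 * c) * r ^ (-3/4:ℝ) := add_le_add n1 n2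
    _ = _ := by field_simp; ring

end

/-- comparison of the logarithm of the product with the smooth integral -/
theorem asymp {N : ℝ → ℝ} {ρ : ℝ} (hρ1 : 1 / 2 ≤ ρ) (hρ2 : ρ < 1)
    (hc : ContinuousOn N (Ici 0)) (hm : StrictMonoOn N (Ici 0)) (hN0 : N 0 = 0)
    (hlo : ∀ x, 0 ≤ x → x ^ ρ / 2 ≤ N x) (hhi : ∀ x, 0 ≤ x → N x ≤ 2 * x ^ ρ)
    {t : ℕ → ℝ} (ht : ∀ k, 0 < t k) (hNt : ∀ k, N (t k) = k + 1)
    (hs : Summable fun k => (t k)⁻¹) {θ₀ : ℝ} (hθ₀ : 0 < θ₀) :
    ∃ C : ℝ, 0 < C ∧ ∀ θ ∈ Icc θ₀ Real.pi, ∀ r : ℝ, 0 < r → ∀ z : ℂ, z = r * Complex.exp (θ * I) →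
      ‖Lam t z - (-z * ∫ x in Ioi (0:ℝ), (N x : ℂ) / ((x : ℂ) * ((x : ℂ) - z)))‖
        ≤ C * r ^ (1 / 4 : ℝ) := by
  rcases lt_or_ge Real.pi θ₀ with hpi | hpi
  · refine ⟨1, one_pos, fun θ hθ => ?_⟩
    exact absurd (hθ.1.trans hθ.2) (not_le.2 hpi)
  obtain ⟨c, hc0, hgeo⟩ := geo hθ₀ hpi
  refine ⟨32 / (3 * c), by positivity, ?_⟩
  intro θ hθ r hr z hzr
  have hz := hgeo θ hθ r hr z hzr
  have hzn : ‖z‖ = r := by
    rw [hzr, norm_mul, Complex.norm_real, Real.norm_eq_abs, abs_of_pos hr, Complex.norm_exp_ofReal_mul_I, mul_one]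
  have hN_nonneg : ∀ x, 0 ≤ x → 0 ≤ N x := fun x hx => le_trans (by positivity) (hlo x hx)
  -- the counting function
  set κ : ℝ → ℂ := fun x => 1 / ((x:ℂ) * ((x:ℂ) - z)) with hκ
  set F : ℕ → ℝ → ℂ := fun k => (Ici (t k)).indicator κ with hF
  have hcount : ∀ x : ℝ, 0 < x → HasSum (fun k => F k x) ((⌊N x⌋₊ : ℂ) * κ x) := by
    intro x hx
    have hmem : ∀ k : ℕ, x ∈ Ici (t k) ↔ k ∈ Finset.range ⌊N x⌋₊ := by
      intro k
      rw [mem_Ici, Finset.mem_range, ← Nat.succ_le_iff, Nat.le_floor_iff (hN_nonneg x hx.le)]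
      push_cast
      rw [← hNt k]
      exact (hm.le_iff_le (ht k).le hx.le).symm
    have h1 : ∀ k ∉ Finset.range ⌊N x⌋₊, F k x = 0 := by
      intro k hk
      simp only [hF]
      exact indicator_of_notMem (fun h => hk ((hmem k).1 h)) _
    have h2 : HasSum (fun k => F k x) (∑ k ∈ Finset.range ⌊N x⌋₊, F k x) := hasSum_sum_of_ne_finset_zero h1
    have h3 : ∑ k ∈ Finset.range ⌊N x⌋₊, F k x = (⌊N x⌋₊ : ℂ) * κ x := by
      rw [Finset.sum_congr rfl (g := fun _ => κ x)]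
      · simp
      · intro k hk
        simp only [hF]
        exact indicator_of_mem ((hmem k).2 hk) _
    rwa [h3] at h2
  have hFint : ∀ k, Integrable (F k) (volume.restrict (Ioi (0:ℝ))) := by
    intro k
    simp only [hF]
    rw [integrable_indicator_iff measurableSet_Ici]
    have h1 : IntegrableOn κ (Ici (t k)) := by
      rw [integrableOn_Ici_iff_integrableOn_Ioi]
      exact kernel_int hc0 hr hz (t k) (ht k)
    rw [IntegrableOn, Measure.restrict_restrict measurableSet_Ici,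
      inter_eq_left.2 (Ici_subset_Ioi.2 (ht k))]
    exact h1
  have hset : ∀ (k : ℕ) (g : ℝ → ℂ), ∫ x in Ioi (0:ℝ), (Ici (t k)).indicator g x = ∫ x in Ioi (t k), g x := by
    intro k g
    rw [MeasureTheory.integral_indicator measurableSet_Ici, Measure.restrict_restrict measurableSet_Ici,
      inter_eq_left.2 (Ici_subset_Ioi.2 (ht k)), integral_Ici_eq_integral_Ioi]
  have hset' : ∀ (k : ℕ) (g : ℝ → ℝ), ∫ x in Ioi (0:ℝ), (Ici (t k)).indicator g x = ∫ x in Ioi (t k), g x := by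
    intro k g
    rw [MeasureTheory.integral_indicator measurableSet_Ici, Measure.restrict_restrict measurableSet_Ici,
      inter_eq_left.2 (Ici_subset_Ioi.2 (ht k)), integral_Ici_eq_integral_Ioi]
  have hFsum : Summable fun k => ∫ x in Ioi (0:ℝ), ‖F k x‖ := by
    refine Summable.of_nonneg_of_le (fun k => integral_nonneg fun _ => norm_nonneg _) (fun k => ?_)
      (hs.mul_left (1 / c))
    have e1 : (fun x => ‖F k x‖) = (Ici (t k)).indicator (fun x => ‖κ x‖) := by
      funext x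
      simp only [hF]
      exact norm_indicator_eq_indicator_norm _ _
    rw [e1, hset' k]
    have e2 : ∫ x in Ioi (t k), ‖κ x‖ ≤ ∫ x in Ioi (t k), (1 / c) * x ^ (-2:ℝ) := by
      apply MeasureTheory.setIntegral_mono_on (kernel_int hc0 hr hz (t k) (ht k)).norm
        ((integrableOn_Ioi_rpow_of_lt (by norm_num) (ht k)).const_mul _) measurableSet_Ioi
      intro x hx
      exact kernel_bound2 hc0 hr hz x ((ht k).trans hx)
    refine e2.trans (le_of_eq ?_)
    rw [MeasureTheory.integral_const_mul, integral_Ioi_rpow_of_lt (by norm_num) (ht k)]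
    have : (-2 + 1 : ℝ) = -1 := by norm_num
    rw [this, Real.rpow_neg_one]
    norm_num
  have hHS := hasSum_integral_of_summable_integral_norm hFint hFsum
  have hint_eq : ∫ x in Ioi (0:ℝ), ∑' k, F k x = ∫ x in Ioi (0:ℝ), (⌊N x⌋₊ : ℂ) * κ x := by
    apply MeasureTheory.setIntegral_congr_fun measurableSet_Ioi
    intro x hx
    exact (hcount x hx).tsum_eq
  rw [hint_eq] at hHS
  have hLam : Lam t z = -z * ∫ x in Ioi (0:ℝ), (⌊N x⌋₊ : ℂ) * κ x := by
    have h1 := hHS.mul_left (-z)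
    rw [← h1.tsum_eq]
    unfold Lam
    congr 1
    funext k
    rw [log_eq hc0 hr hz (t k) (ht k)]
    simp only [hF]
    rw [hset k]
  -- the difference
  have hNcont : ContinuousOn N (Ioi 0) := hc.mono Ioi_subset_Ici_self
  have hNm : AEMeasurable N (volume.restrict (Ioi (0:ℝ))) := hNcont.aemeasurable measurableSet_Ioi
  have hfl : AEMeasurable (fun x => ((⌊N x⌋₊ : ℕ) : ℝ)) (volume.restrict (Ioi (0:ℝ))) := by
    have h1 : AEMeasurable (fun x => ⌊N x⌋₊) (volume.restrict (Ioi (0:ℝ))) := Nat.measurable_floor.comp_aemeasurable hNm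
    exact (measurable_from_top (f := fun n : ℕ => (n : ℝ))).comp_aemeasurable h1
  set d : ℝ → ℝ := fun x => ((⌊N x⌋₊ : ℕ) : ℝ) - N x with hd
  have hdm : AEStronglyMeasurable d (volume.restrict (Ioi (0:ℝ))) := (hfl.sub hNm).aestronglyMeasurable
  have hdb : ∀ x, 0 < x → |d x| ≤ 2 * x ^ (1/4:ℝ) := by
    intro x hx
    have h0 := hN_nonneg x hx.le
    have h1 := Nat.floor_le h0
    have h2 := Nat.lt_floor_add_one (N x)
    have h3 : |d x| = N x - ⌊N x⌋₊ := by
      simp only [hd]; rw [abs_of_nonpos (by linarith)]; ring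
    rw [h3]
    rcases le_total x 1 with hx1 | hx1
    · have h4 := hhi x hx.le
      have h5 : x ^ ρ ≤ x ^ (1/4:ℝ) := Real.rpow_le_rpow_of_exponent_ge hx hx1 (by linarith)
      have h6 : (0:ℝ) ≤ ⌊N x⌋₊ := Nat.cast_nonneg _
      linarith
    · have h4 : 1 ≤ x ^ (1/4:ℝ) := Real.one_le_rpow hx1 (by norm_num)
      linarith
  obtain ⟨hdi, hdn⟩ := diff_bound hc0 hr hz d hdb hdm
  have hNi : IntegrableOn (fun x : ℝ => (N x : ℂ) * κ x) (Ioi 0) := by
    have hmeas : AEStronglyMeasurable (fun x : ℝ => (N x : ℂ) * κ x) (volume.restrict (Ioi (0:ℝ))) := by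
      apply AEStronglyMeasurable.mul
      · exact Complex.continuous_ofReal.comp_aestronglyMeasurable hNm.aestronglyMeasurable
      · exact (kernel_cont hc0 hr hz).aestronglyMeasurable measurableSet_Ioi
    have hi1 : IntegrableOn (fun x : ℝ => (2 / (c * r)) * x ^ (ρ - 1)) (Ioc 0 1) := by
      have := (intervalIntegral.intervalIntegrable_rpow' (a := 0) (b := 1) (r := ρ - 1) (by linarith))
      rw [intervalIntegrable_iff_integrableOn_Ioc_of_le zero_le_one] at this
      exact this.const_mul _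
    have hi2 : IntegrableOn (fun x : ℝ => (2 / c) * x ^ (ρ - 2)) (Ioi 1) :=
      (integrableOn_Ioi_rpow_of_lt (by linarith) one_pos).const_mul _
    have hU : Ioc (0:ℝ) 1 ∪ Ioi 1 = Ioi 0 := Ioc_union_Ioi_eq_Ioi zero_le_one
    rw [← hU]
    apply IntegrableOn.union
    · refine Integrable.mono' hi1 (hmeas.mono_measure (Measure.restrict_mono_set _ Ioc_subset_Ioi_self)) ?_
      refine (ae_restrict_mem measurableSet_Ioc).mono fun x hx => ?_
      have hx0 : 0 < x := hx.1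
      rw [norm_mul, Complex.norm_real, Real.norm_eq_abs, abs_of_nonneg (hN_nonneg x hx0.le)]
      have e1 := kernel_bound hc0 hr hz x hx0
      have e2 : 1 / (x * (c * (x + r))) ≤ 1 / (x * (c * r)) := by
        apply one_div_le_one_div_of_le (by positivity)
        apply mul_le_mul_of_nonneg_left _ hx0.le
        apply mul_le_mul_of_nonneg_left _ hc0.le
        linarith
      have e3 : x ^ (ρ - 1) = x ^ ρ * x⁻¹ := by
        rw [← Real.rpow_neg_one, ← Real.rpow_add hx0]; congr 1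
      calc N x * ‖κ x‖ ≤ (2 * x ^ ρ) * (1 / (x * (c * r))) :=
            mul_le_mul (hhi x hx0.le) (e1.trans e2) (norm_nonneg _) (by positivity)
        _ = _ := by rw [e3]; field_simp
    · refine Integrable.mono' hi2 (hmeas.mono_measure (Measure.restrict_mono_set _ (Ioi_subset_Ioi zero_le_one))) ?_
      refine (ae_restrict_mem measurableSet_Ioi).mono fun x hx => ?_
      have hx0 : 0 < x := zero_lt_one.trans hx
      rw [norm_mul, Complex.norm_real, Real.norm_eq_abs, abs_of_nonneg (hN_nonneg x hx0.le)]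
      have e1 := kernel_bound hc0 hr hz x hx0
      have e2 : 1 / (x * (c * (x + r))) ≤ 1 / (x * (c * x)) := by
        apply one_div_le_one_div_of_le (by positivity)
        apply mul_le_mul_of_nonneg_left _ hx0.le
        apply mul_le_mul_of_nonneg_left _ hc0.le
        linarith
      have e3 : x ^ (ρ - 2) = x ^ ρ * x⁻¹ * x⁻¹ := by
        rw [← Real.rpow_neg_one, ← Real.rpow_add hx0, ← Real.rpow_add hx0]; congr 1; ring
      calc N x * ‖κ x‖ ≤ (2 * x ^ ρ) * (1 / (x * (c * x))) :=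
            mul_le_mul (hhi x hx0.le) (e1.trans e2) (norm_nonneg _) (by positivity)
        _ = _ := by rw [e3]; field_simp
  have hfloor : ∫ x in Ioi (0:ℝ), (⌊N x⌋₊ : ℂ) * κ x =
      (∫ x in Ioi (0:ℝ), (d x : ℂ) * κ x) + ∫ x in Ioi (0:ℝ), (N x : ℂ) * κ x := by
    rw [← MeasureTheory.integral_add hdi hNi]
    congr 1
    funext x
    simp only [hd]
    push_cast
    ring
  have hN2 : ∫ x in Ioi (0:ℝ), (N x : ℂ) / ((x : ℂ) * ((x : ℂ) - z)) = ∫ x in Ioi (0:ℝ), (N x : ℂ) * κ x := by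
    congr 1
    funext x
    simp only [hκ]
    ring
  rw [hLam, hfloor, hN2]
  have hfin : -z * ((∫ x in Ioi (0:ℝ), (d x : ℂ) * κ x) + ∫ x in Ioi (0:ℝ), (N x : ℂ) * κ x) -
      (-z * ∫ x in Ioi (0:ℝ), (N x : ℂ) * κ x) = -z * ∫ x in Ioi (0:ℝ), (d x : ℂ) * κ x := by ring
  rw [hfin, norm_mul, norm_neg, hzn]
  calc r * ‖∫ x in Ioi (0:ℝ), (d x : ℂ) * κ x‖ ≤ r * ((32 / (3 * c)) * r ^ (-3/4:ℝ)) :=
        mul_le_mul_of_nonneg_left hdn hr.le
    _ = (32 / (3 * c)) * (r ^ (1:ℝ) * r ^ (-3/4:ℝ)) := by rw [Real.rpow_one]; ring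
    _ = _ := by rw [← Real.rpow_add hr]; norm_num

end RayAsymp

end

section
open Complex MeasureTheory Set Filter Topology

namespace RayMain

noncomputable section

theorem norm_f_le {t : ℕ → ℝ} (ht : ∀ k, 0 < t k) (hs : Summable fun k => (t k)⁻¹) (z : ℂ) :
    ‖RayProduct.f t z‖ ≤ Real.exp ((∑' k, (t k)⁻¹) * ‖z‖) := by
  have hm : Multipliable (fun k => 1 - z / (t k : ℂ)) := RayProductB.multipliable_aux hs z
  have hp := hm.hasProd.tendsto_prod_nat
  have hn : Tendsto (fun n => ‖∏ i ∈ Finset.range n, (1 - z / (t i : ℂ))‖) atTop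
      (𝓝 ‖RayProduct.f t z‖) := hp.norm
  refine le_of_tendsto hn (Eventually.of_forall fun n => ?_)
  rw [norm_prod]
  have h1 : ∀ i ∈ Finset.range n, ‖1 - z / (t i : ℂ)‖ ≤ Real.exp ((t i)⁻¹ * ‖z‖) := by
    intro i _
    have h2 : ‖z / (t i : ℂ)‖ = (t i)⁻¹ * ‖z‖ := by
      rw [norm_div, Complex.norm_real, Real.norm_of_nonneg (ht i).le, div_eq_mul_inv, mul_comm]
    calc ‖1 - z / (t i : ℂ)‖ ≤ ‖(1:ℂ)‖ + ‖z / (t i : ℂ)‖ := norm_sub_le _ _
      _ = (t i)⁻¹ * ‖z‖ + 1 := by rw [norm_one, h2]; ring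
      _ ≤ _ := Real.add_one_le_exp _
  calc ∏ i ∈ Finset.range n, ‖1 - z / (t i : ℂ)‖
      ≤ ∏ i ∈ Finset.range n, Real.exp ((t i)⁻¹ * ‖z‖) :=
        Finset.prod_le_prod (fun i _ => norm_nonneg _) h1
    _ = Real.exp ((∑ i ∈ Finset.range n, (t i)⁻¹) * ‖z‖) := by
        rw [← Real.exp_sum, Finset.sum_mul]
    _ ≤ _ := by
        apply Real.exp_le_exp.2
        apply mul_le_mul_of_nonneg_right _ (norm_nonneg _)
        exact hs.sum_le_tsum _ (fun i _ => inv_nonneg.2 (ht i).le)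

theorem rho_half : 1 / 2 ≤ rho := rho_gt.le

theorem rho_lt_one : rho < 1 := by linarith [rho_lt]

/-- the entire function -/
theorem main : ∃ f : ℂ → ℂ, Differentiable ℂ f ∧ (¬ ∃ c : ℂ, ∀ z : ℂ, f z = c) ∧
    ∃ R : ℝ, ∀ r : ℝ, R ≤ r → ∃ a : ℂ, ENNReal.ofReal ((1 + ep ^ 3) / Real.pi) *
      (∫⁻ b : ℂ, ((RayCount.nn f r b : ℕ) : ENNReal) / ENNReal.ofReal ((1 + ‖b‖ ^ 2) ^ 2))
      < ((RayCount.nn f r a : ℕ) : ENNReal) := by
  obtain ⟨t, ht, hNt, hs⟩ := RayAsymp.exists_zeros rho_half rho_lt_one continuousOn_NN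
    strictMonoOn_NN NN_zero NN_lo NN_hi
  set f := RayProduct.f t with hf
  set Λ := RayProduct.Lam t with hΛ
  have hd : Differentiable ℂ f := RayProduct.differentiable_f ht hs
  have hf0 : f 0 = 1 := RayProduct.f_zero t
  have hfz : f (t 0) = 0 := RayProduct.f_zeros ht hs 0
  have hnc : ¬ ∃ c : ℂ, ∀ z : ℂ, f z = c := by
    rintro ⟨c, hc⟩
    have h1 := hc 0
    have h2 := hc (t 0)
    rw [hf0] at h1
    rw [hfz] at h2
    rw [← h2] at h1
    exact one_ne_zero h1
  refine ⟨f, hd, hnc, ?_⟩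
  have hexp : ∀ z : ℂ, -z ∈ slitPlane → Complex.exp (Λ z) = f z :=
    fun z hz => RayProduct.exp_Lam ht hs hz
  have hdΛ : DifferentiableOn ℂ Λ {z : ℂ | -z ∈ slitPlane} := RayProduct.differentiableOn_Lam ht hs
  have hconj : ∀ z : ℂ, ‖f (starRingEnd ℂ z)‖ = ‖f z‖ := fun z => RayProductB.norm_conj ht hs z
  have hmono : ∀ r θ₁ θ₂ : ℝ, 0 ≤ r → 0 ≤ θ₁ → θ₁ ≤ θ₂ → θ₂ ≤ Real.pi →
      ‖f (r * Complex.exp (θ₁ * I))‖ ≤ ‖f (r * Complex.exp (θ₂ * I))‖ :=
    fun r θ₁ θ₂ hr h1 h12 h2 => RayProductB.norm_mono ht hs hr h1 h12 h2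
  have him : ∀ r₁ r₂ θ : ℝ, 0 < r₁ → r₁ ≤ r₂ → 0 < θ → θ < Real.pi →
      -(Λ (r₁ * Complex.exp (θ * I))).im ≤ -(Λ (r₂ * Complex.exp (θ * I))).im :=
    fun r₁ r₂ θ h1 h2 h3 h4 => RayProductB.im_mono ht hs h1 h2 h3 h4
  have hneg : ∀ r : ℝ, 0 < r → (Λ (-(r : ℂ))).im = 0 := fun r hr => RayProductB.im_neg ht hr
  obtain ⟨C, hC0, hC⟩ := RayAsymp.asymp rho_half rho_lt_one continuousOn_NN
    strictMonoOn_NN NN_zero NN_lo NN_hi ht hNt hs (θ₀ := ep / 2) (by have := ep_pos; positivity)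
  set M := ∑' k, (t k)⁻¹ with hMdef
  have hM : 0 ≤ M := tsum_nonneg fun k => inv_nonneg.2 (ht k).le
  set R₀ : ℝ := max 1 ((C / ep ^ 3) ^ (4 : ℝ)) with hR₀
  have hasy : ∀ r : ℝ, R₀ ≤ r → 0 < r → ∀ y : ℝ, |y| ≤ 1 / 2 →
      ‖Λ (r * Complex.exp ((th y : ℝ) * I)) - ((r ^ rho : ℝ) : ℂ) * HH (Real.log r) y‖
        ≤ 21 * ep ^ 3 * r ^ rho := by
    intro r hr hr0 y hy
    have hy' := abs_le.1 hy
    have hy1 : -1 / 2 ≤ y := by linarith
    have hr1 : 1 ≤ r := (le_max_left _ _).trans hr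
    have hr2 : (C / ep ^ 3) ^ (4 : ℝ) ≤ r := (le_max_right _ _).trans hr
    have a1 := hC (th y) ⟨by unfold th; have := ep_pos; nlinarith, (th_lt hy'.2).le⟩ r hr0 _ rfl
    have a2 := formula r y hr0 hy1 hy'.2 _ rfl
    set F := -((r : ℂ) * Complex.exp ((th y : ℝ) * I)) * ∫ x in Ioi (0:ℝ),
      (NN x : ℂ) / ((x : ℂ) * ((x : ℂ) - (r : ℂ) * Complex.exp ((th y : ℝ) * I)))
    have a3 : C * r ^ (1 / 4 : ℝ) ≤ ep ^ 3 * r ^ rho := by
      have he3 := ep3_pos
      have hCe : 0 ≤ C / ep ^ 3 := by positivity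
      have b1 : C / ep ^ 3 ≤ r ^ (1 / 4 : ℝ) := by
        have := Real.rpow_le_rpow (by positivity) hr2 (show (0:ℝ) ≤ 1 / 4 by norm_num)
        rw [← Real.rpow_mul hCe] at this
        norm_num at this
        norm_num
        exact this
      have b2 : C ≤ ep ^ 3 * r ^ (1 / 4 : ℝ) := by
        rw [div_le_iff₀ he3] at b1
        linarith
      have b3 : 0 ≤ r ^ (1 / 4 : ℝ) := by positivity
      calc C * r ^ (1 / 4 : ℝ) ≤ (ep ^ 3 * r ^ (1 / 4 : ℝ)) * r ^ (1 / 4 : ℝ) := by gcongr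
        _ = ep ^ 3 * r ^ (1 / 2 : ℝ) := by
            rw [mul_assoc, ← Real.rpow_add hr0]; norm_num
        _ ≤ ep ^ 3 * r ^ rho := by
            apply mul_le_mul_of_nonneg_left _ he3.le
            exact Real.rpow_le_rpow_of_exponent_le hr1 rho_half
    have a4 : ‖Λ (r * Complex.exp ((th y : ℝ) * I)) - F‖ ≤ C * r ^ (1 / 4 : ℝ) := a1
    calc ‖Λ (r * Complex.exp ((th y : ℝ) * I)) - ((r ^ rho : ℝ) : ℂ) * HH (Real.log r) y‖
        = ‖(Λ (r * Complex.exp ((th y : ℝ) * I)) - F)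
            + (F - ((r ^ rho : ℝ) : ℂ) * HH (Real.log r) y)‖ := by congr 1; ring
      _ ≤ ‖Λ (r * Complex.exp ((th y : ℝ) * I)) - F‖
            + ‖F - ((r ^ rho : ℝ) : ℂ) * HH (Real.log r) y‖ := norm_add_le _ _
      _ ≤ ep ^ 3 * r ^ rho + 20 * ep ^ 3 * r ^ rho := add_le_add (a4.trans a3) a2
      _ = _ := by ring
  -- eventual conditions
  have e1 : ∀ᶠ r : ℝ in atTop, 2 * R₀ ≤ r := eventually_ge_atTop _
  have e2 : ∀ᶠ r : ℝ in atTop, 2 ≤ r := eventually_ge_atTop _
  have e3 : ∀ᶠ r : ℝ in atTop, Real.log r ≤ 9 * ep ^ 2 * r ^ rho := by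
    have h := (isLittleO_log_rpow_atTop rho_pos).bound
      (show 0 < 9 * ep ^ 2 by have := ep_pos; positivity)
    filter_upwards [h, eventually_ge_atTop 1] with r hr hr1
    have h1 : ‖r ^ rho‖ = r ^ rho := Real.norm_of_nonneg (Real.rpow_nonneg (by linarith) _)
    rw [h1] at hr
    exact (le_abs_self _).trans hr
  have e4 : ∀ᶠ r : ℝ in atTop, 4 * (3 * M * r + 3) / r ^ 2 ≤ 1 := by
    filter_upwards [eventually_ge_atTop (12 * M + 12)] with r hr
    have hr1 : 1 ≤ r := by linarith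
    rw [div_le_one (by positivity)]
    nlinarith
  have e5 : ∀ᶠ r : ℝ in atTop, 4 * Real.pi ≤ 0.12 * ep ^ 2 * r ^ rho := by
    have h := tendsto_rpow_atTop rho_pos
    have h2 : Tendsto (fun r : ℝ => 0.12 * ep ^ 2 * r ^ rho) atTop atTop :=
      h.const_mul_atTop (by have := ep_pos; positivity)
    exact h2.eventually_ge_atTop _
  obtain ⟨R, hR⟩ := (((e1.and e2).and (e3.and e4)).and e5).exists_forall_of_atTop
  refine ⟨R, fun r hr => ?_⟩
  obtain ⟨⟨⟨c1, c2⟩, c3, c4⟩, c5⟩ := hR r hr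
  refine core (f := f) (Λ := Λ) hd.continuous ?_ ?_ ?_ ?_ ?_ hM (norm_f_le ht hs) hasy r c1 c2 c3
    c4 c5
  · intro r y hr hy
    have hy' := abs_le.1 hy
    exact hexp _ (slit r y hr (by linarith) hy'.2)
  · intro r₁ r₂ θ h1 h2 h3 h4
    exact RayPsi.psi_lower hd.continuous hdΛ hexp hconj hmono him hneg h1 h2 h3 h4
  · intro r₁ r₂ θ h1 h2 h3 h4
    exact RayPsi.psi_upper hd.continuous hdΛ hexp hconj hmono him hneg h1 h2 h3 h4
  · intro r₁ r₂ τ v h1 h2 h3 h4
    exact RayCount.exists_many hd hnc h1 h2 h3 h4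
  · intro r₁ r₂ T B M' h1 h2 hT hB0 hM0 hB hM'
    refine RayArea.area_le hd hf0 ?_ ?_ ?_ h1 h2 hT hB0 hM0 hB hM'
    · intro s₁ s₂ hs1 hs12 a ha
      exact RayCount.jensen_lower hd hnc hs1 hs12 (by rw [hf0]; exact ha)
    · intro s₁ s₂ hs1 hs12 a ha
      have := RayCount.jensen_zero hd hnc hs1 hs12 (a := a) (by rw [hf0]; exact ha)
      rw [hf0] at this
      exact this
    · intro s τ hs' hτ
      exact RayCount.average_value hd hs' hτ

end

end RayMain

end

/-- The negation of the preceding statement: For every nonconstant entire f and every ε>0, there are arbitrarily large r with sup over a of n(r,a) at most (1+ε) times the spherical average of n(r,a); that is, liminf n(r)/A(r) ≤ 1. -/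
theorem result :
    ¬ (∀ f : ℂ → ℂ, Differentiable ℂ f → (¬ ∃ c : ℂ, ∀ z : ℂ, f z = c) →
    ∀ ε : ℝ, 0 < ε → ∀ R : ℝ, ∃ r : ℝ, R ≤ r ∧ ∀ a : ℂ,
      ((∑ᶠ z ∈ Metric.closedBall (0 : ℂ) r, analyticOrderNatAt (fun w => f w - a) z : ℕ) : ENNReal) ≤
        ENNReal.ofReal ((1 + ε) / Real.pi) *
          ∫⁻ b : ℂ,
            ((∑ᶠ z ∈ Metric.closedBall (0 : ℂ) r, analyticOrderNatAt (fun w => f w - b) z : ℕ) : ENNReal) /
              ENNReal.ofReal ((1 + ‖b‖ ^ 2) ^ 2)) := by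
  intro h
  obtain ⟨f, hd, hnc, R, hR⟩ := RayMain.main
  obtain ⟨r, hr, hall⟩ := h f hd hnc (RayMain.ep ^ 3) RayMain.ep3_pos R
  obtain ⟨a, ha⟩ := hR r hr
  exact absurd (hall a) (not_le.2 ha)

end Pool.Agent.S04446
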