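import Pool.Statements.S04459
import Pool.Agent.HpBall.Final4
import Pool.Agent.HpBall.Analysis

set_option autoImplicit false
open Pool Pool.MP_fb5a60_an

namespace Pool.Agent.S04459

/-- For all n ≥ 2 and 0<p<1 there are bounded linear maps T from H^p(disc) to H^p(unit ball of C^n) and P back with P∘T = identity, i.e. H^p(disc) is isomorphic to a complemented subspace of H^p(ball). -/
theorem result :
    ∀ n : ℕ, 2 ≤ n → ∀ p : ℝ, 0 < p → p < 1 →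
    ∃ (T : (ℂ → ℂ) → (Fin n → ℂ) → ℂ) (P : ((Fin n → ℂ) → ℂ) → ℂ → ℂ) (C : ℝ),
      (∀ (f g : ℂ → ℂ) (a b : ℂ) (M N : ℝ),
        DifferentiableOn ℂ f (Metric.ball 0 1) → DifferentiableOn ℂ g (Metric.ball 0 1) →
        (∀ r : ℝ, 0 ≤ r → r < 1 →
          ∫ θ in (0:ℝ)..2 * Real.pi, ‖f ((r : ℂ) * Complex.exp ((θ : ℂ) * Complex.I))‖ ^ p ≤ M) →
        (∀ r : ℝ, 0 ≤ r → r < 1 →
          ∫ θ in (0:ℝ)..2 * Real.pi, ‖g ((r : ℂ) * Complex.exp ((θ : ℂ) * Complex.I))‖ ^ p ≤ N) →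
        ∀ z : Fin n → ℂ, ∑ i, ‖z i‖ ^ 2 < 1 → T (a • f + b • g) z = a * T f z + b * T g z) ∧
      (∀ (f g : (Fin n → ℂ) → ℂ) (a b : ℂ) (M N : ℝ),
        DifferentiableOn ℂ f {z : Fin n → ℂ | ∑ i, ‖z i‖ ^ 2 < 1} →
        DifferentiableOn ℂ g {z : Fin n → ℂ | ∑ i, ‖z i‖ ^ 2 < 1} →
        (∀ r : ℝ, 0 ≤ r → r < 1 →
          ∫ z : Fin n → ℂ, ‖f (((r / Real.sqrt (∑ i, ‖z i‖ ^ 2) : ℝ) : ℂ) • z)‖ ^ p
            * Real.exp (-(∑ i, ‖z i‖ ^ 2)) ≤ M) →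
        (∀ r : ℝ, 0 ≤ r → r < 1 →
          ∫ z : Fin n → ℂ, ‖g (((r / Real.sqrt (∑ i, ‖z i‖ ^ 2) : ℝ) : ℂ) • z)‖ ^ p
            * Real.exp (-(∑ i, ‖z i‖ ^ 2)) ≤ N) →
        ∀ w : ℂ, ‖w‖ < 1 → P (a • f + b • g) w = a * P f w + b * P g w) ∧
      (∀ (f : ℂ → ℂ) (M : ℝ),
        DifferentiableOn ℂ f (Metric.ball 0 1) →
        (∀ r : ℝ, 0 ≤ r → r < 1 →
          ∫ θ in (0:ℝ)..2 * Real.pi, ‖f ((r : ℂ) * Complex.exp ((θ : ℂ) * Complex.I))‖ ^ p ≤ M) →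
        DifferentiableOn ℂ (T f) {z : Fin n → ℂ | ∑ i, ‖z i‖ ^ 2 < 1} ∧
        ∀ r : ℝ, 0 ≤ r → r < 1 →
          ∫ z : Fin n → ℂ, ‖T f (((r / Real.sqrt (∑ i, ‖z i‖ ^ 2) : ℝ) : ℂ) • z)‖ ^ p
            * Real.exp (-(∑ i, ‖z i‖ ^ 2)) ≤ C * M) ∧
      (∀ (f : (Fin n → ℂ) → ℂ) (M : ℝ),
        DifferentiableOn ℂ f {z : Fin n → ℂ | ∑ i, ‖z i‖ ^ 2 < 1} →
        (∀ r : ℝ, 0 ≤ r → r < 1 →
          ∫ z : Fin n → ℂ, ‖f (((r / Real.sqrt (∑ i, ‖z i‖ ^ 2) : ℝ) : ℂ) • z)‖ ^ p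
            * Real.exp (-(∑ i, ‖z i‖ ^ 2)) ≤ M) →
        DifferentiableOn ℂ (P f) (Metric.ball 0 1) ∧
        ∀ r : ℝ, 0 ≤ r → r < 1 →
          ∫ θ in (0:ℝ)..2 * Real.pi, ‖P f ((r : ℂ) * Complex.exp ((θ : ℂ) * Complex.I))‖ ^ p
            ≤ C * M) ∧
      (∀ (f : ℂ → ℂ) (M : ℝ),
        DifferentiableOn ℂ f (Metric.ball 0 1) →
        (∀ r : ℝ, 0 ≤ r → r < 1 →
          ∫ θ in (0:ℝ)..2 * Real.pi, ‖f ((r : ℂ) * Complex.exp ((θ : ℂ) * Complex.I))‖ ^ p ≤ M) →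
        ∀ w : ℂ, ‖w‖ < 1 → P (T f) w = f w) := by
  intro n hn2 p hp hp1
  have hn : 1 ≤ n := by omega
  obtain ⟨T, P, C, hC, hTlin, hPlin, hTb, hPb, hPT⟩ := Pool.Agent.HpBall.main_E n hn p hp hp1
    (fun pt c C hT A hA β a b hβ =>
      Pool.Agent.HpBall.analysis_bound n hn p hp hp1 pt c C hT A hA β a b hβ)
  -- integral over the complex space is nonnegative
  have hint : ∀ (f : (Fin n → ℂ) → ℂ) (r : ℝ), 0 ≤ ∫ z : Fin n → ℂ,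
      ‖f (((r / Real.sqrt (∑ i, ‖z i‖ ^ 2) : ℝ) : ℂ) • z)‖ ^ p
            * Real.exp (-(∑ i, ‖z i‖ ^ 2)) := by
    intro f r
    apply MeasureTheory.integral_nonneg
    intro z
    positivity
  have hM0 : ∀ (f : (Fin n → ℂ) → ℂ) (M : ℝ), (∀ r : ℝ, 0 ≤ r → r < 1 →
          ∫ z : Fin n → ℂ, ‖f (((r / Real.sqrt (∑ i, ‖z i‖ ^ 2) : ℝ) : ℂ) • z)‖ ^ p
            * Real.exp (-(∑ i, ‖z i‖ ^ 2)) ≤ M) → 0 ≤ M :=
    fun f M h => (hint f 0).trans (h 0 le_rfl one_pos)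
  have hconv : ∀ (f : (Fin n → ℂ) → ℂ) (M : ℝ),
      DifferentiableOn ℂ f {z : Fin n → ℂ | ∑ i, ‖z i‖ ^ 2 < 1} →
      (∀ r : ℝ, 0 ≤ r → r < 1 →
          ∫ z : Fin n → ℂ, ‖f (((r / Real.sqrt (∑ i, ‖z i‖ ^ 2) : ℝ) : ℂ) • z)‖ ^ p
            * Real.exp (-(∑ i, ‖z i‖ ^ 2)) ≤ M) →
      ∀ r : ℝ, 0 ≤ r → r < 1 →
        ∫⁻ ξ, ENNReal.ofReal (‖(fun z : Pool.Agent.HpBall.E n => f (WithLp.ofLp z)) ((r : ℂ) • ξ)‖ ^ p)
          ∂(Pool.Agent.HpBall.sig n) ≤ ENNReal.ofReal M := by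
    intro f M hf h r hr0 hr1
    have h1 := Pool.Agent.HpBall.transfer n hn p hp f hf r hr0 hr1
    rw [← h1]
    exact ENNReal.ofReal_le_ofReal (h r hr0 hr1)
  have hnorm : ∀ z : Fin n → ℂ, ∑ i, ‖z i‖ ^ 2 < 1 →
      ‖(WithLp.toLp 2 z : Pool.Agent.HpBall.E n)‖ < 1 := by
    intro z hz
    have h1 : ‖(WithLp.toLp 2 z : Pool.Agent.HpBall.E n)‖ ^ 2 < 1 := by
      rw [EuclideanSpace.norm_sq_eq]
      exact hz
    have h2 := norm_nonneg (WithLp.toLp 2 z : Pool.Agent.HpBall.E n)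
    nlinarith
  refine ⟨fun f z => T f (WithLp.toLp 2 z), fun g w => P (fun z => g (WithLp.ofLp z)) w, C,
    ?_, ?_, ?_, ?_, ?_⟩
  · intro f g a b M N hf hg hM hN z hz
    exact hTlin f g a b M N hf hg hM hN _ (hnorm z hz)
  · intro f g a b M N hf hg hM hN w hw
    exact hPlin (fun z => f (WithLp.ofLp z)) (fun z => g (WithLp.ofLp z)) a b M N (hM0 f M hM)
      (hM0 g N hN) ((Pool.Agent.HpBall.transfer_diff n f).1 hf)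
      ((Pool.Agent.HpBall.transfer_diff n g).1 hg) (hconv f M hf hM) (hconv g N hg hN) w hw
  · intro f M hf hM
    obtain ⟨h1, h2⟩ := hTb f M hf hM
    have hd : DifferentiableOn ℂ (fun z : Fin n → ℂ => T f (WithLp.toLp 2 z))
        {z : Fin n → ℂ | ∑ i, ‖z i‖ ^ 2 < 1} := (Pool.Agent.HpBall.transfer_diff n _).2 h1
    refine ⟨hd, ?_⟩
    intro r hr0 hr1
    have hM0' : 0 ≤ M := (Pool.Agent.HpBall.origin_bound_disc hM).2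
    have h3 := Pool.Agent.HpBall.transfer n hn p hp _ hd r hr0 hr1
    have h4 := h2 r hr0 hr1
    have h5 : ENNReal.ofReal (∫ z : Fin n → ℂ,
        ‖T f (WithLp.toLp 2 (((r / Real.sqrt (∑ i, ‖z i‖ ^ 2) : ℝ) : ℂ) • z))‖ ^ p
            * Real.exp (-(∑ i, ‖z i‖ ^ 2))) ≤ ENNReal.ofReal (C * M) := by
      rw [h3]
      exact h4
    exact (ENNReal.ofReal_le_ofReal_iff (mul_nonneg hC hM0')).1 h5
  · intro f M hf hM
    exact hPb (fun z => f (WithLp.ofLp z)) M (hM0 f M hM)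
      ((Pool.Agent.HpBall.transfer_diff n f).1 hf) (hconv f M hf hM)
  · intro f M hf hM w hw
    exact hPT f M hf hM w hw

end Pool.Agent.S04459
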