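import Pool.Statements.S04461
import Pool.Agent.Helper957.CZero

set_option autoImplicit false
open Pool Pool.MP_fb9e71_an

namespace Pool.Agent.S04461

open Pool.Agent.Helper957 Set Filter Topology

theorem summable_u (x : C0) : Summable (fun i : ℕ => (1/2 : ℝ) ^ (i + 1) * x i) := by
  have h1 : Summable (fun i : ℕ => (1/2 : ℝ) ^ (i + 1) * ‖x‖) := by
    have h2 : Summable (fun i : ℕ => (1/2 : ℝ) ^ i) := summable_geometric_two
    exact ((summable_nat_add_iff 1).2 h2).mul_right _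
  refine h1.of_norm_bounded (fun i => ?_)
  rw [norm_mul, Real.norm_eq_abs, Real.norm_eq_abs, abs_of_nonneg (by positivity)]
  exact mul_le_mul_of_nonneg_left (abs_apply_le x i) (by positivity)

theorem tsum_half : ∑' i : ℕ, (1/2 : ℝ) ^ (i + 1) = 1 := by
  have h := tsum_geometric_two
  have h2 : ∑' i : ℕ, (1/2 : ℝ) ^ (i + 1) = (∑' i : ℕ, (1/2 : ℝ) ^ i) * (1/2) := by
    rw [← tsum_mul_right]
    congr 1
  rw [h2, h]; norm_num

theorem summable_half : Summable (fun i : ℕ => (1/2 : ℝ) ^ (i + 1)) :=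
  (summable_nat_add_iff 1).2 summable_geometric_two

/-- The functional `u = sum 2^{-(i+1)} e_i^*`, which does not attain its supremum on the
unit ball of the sup norm. -/
noncomputable def u : C0 →L[ℝ] ℝ :=
  LinearMap.mkContinuous
    { toFun := fun x => ∑' i : ℕ, (1/2 : ℝ) ^ (i + 1) * x i
      map_add' := fun x y => by
        rw [← (summable_u x).tsum_add (summable_u y)]
        congr 1
        ext i
        simp [mul_add]
      map_smul' := fun c x => by
        simp only [RingHom.id_apply, smul_eq_mul]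
        rw [← tsum_mul_left]
        congr 1
        ext i
        simp
        ring } 1 (fun x => by
      show ‖∑' i : ℕ, (1/2 : ℝ) ^ (i + 1) * x i‖ ≤ 1 * ‖x‖
      have h1 : ∀ i : ℕ, ‖(1/2 : ℝ) ^ (i + 1) * x i‖ ≤ (1/2 : ℝ) ^ (i + 1) * ‖x‖ := by
        intro i
        rw [norm_mul, Real.norm_eq_abs, Real.norm_eq_abs, abs_of_nonneg (by positivity)]
        exact mul_le_mul_of_nonneg_left (abs_apply_le x i) (by positivity)
      have h2 := tsum_of_norm_bounded (summable_half.mul_right ‖x‖).hasSum h1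
      rwa [tsum_mul_right, tsum_half] at h2)

theorem u_apply (x : C0) : u x = ∑' i : ℕ, (1/2 : ℝ) ^ (i + 1) * x i := rfl

theorem u_lt_one {x : C0} (h : ∀ i, |x i| ≤ 1) : u x < 1 := by
  have h1 : ∀ᶠ i in atTop, x i < 1 := (tendsto_zero x).eventually (gt_mem_nhds one_pos)
  obtain ⟨i, hi⟩ := h1.exists
  have key : ∑' i : ℕ, (1/2 : ℝ) ^ (i + 1) * x i < ∑' i : ℕ, (1/2 : ℝ) ^ (i + 1) := by
    refine Summable.tsum_lt_tsum (i := i) (fun j => ?_) ?_ (summable_u x) summable_half
    · have := (abs_le.1 (h j)).2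
      have h2 : (0:ℝ) < (1/2 : ℝ) ^ (j + 1) := by positivity
      nlinarith
    · have h2 : (0:ℝ) < (1/2 : ℝ) ^ (i + 1) := by positivity
      nlinarith
  rw [tsum_half] at key
  exact key

theorem u_gt_neg_one {x : C0} (h : ∀ i, |x i| ≤ 1) : -1 < u x := by
  have h1 : u (-x) < 1 := u_lt_one (fun i => by simpa using h i)
  rw [map_neg] at h1
  linarith

/-- The functional `v = e_0^* - e_1^*`. -/
noncomputable def v : C0 →L[ℝ] ℝ := ev 0 - ev 1

theorem v_apply (x : C0) : v x = x 0 - x 1 := rfl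

/-- The pair `(u, v)` as a complex number. -/
noncomputable def T : C0 →L[ℝ] ℂ :=
  Complex.equivRealProdCLM.symm.toContinuousLinearMap.comp (u.prod v)

theorem T_re (x : C0) : (T x).re = u x := rfl
theorem T_im (x : C0) : (T x).im = v x := rfl

/-- The planar function with sublevel set having corners at `1` and `-1`. -/
noncomputable def H (z : ℂ) : ℝ := z.re ^ 2 + 5 * (‖z - 1‖ + ‖z + 1‖ - 2)

theorem H_neg (z : ℂ) : H (-z) = H z := by
  unfold H
  have h1 : ‖-z - 1‖ = ‖z + 1‖ := by rw [← norm_neg]; congr 1; ring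
  have h2 : ‖-z + 1‖ = ‖z - 1‖ := by rw [← norm_neg]; congr 1; ring
  rw [h1, h2]
  simp
  ring

theorem H_nonneg (z : ℂ) : 0 ≤ H z := by
  unfold H
  have h1 : (2:ℝ) ≤ ‖z - 1‖ + ‖z + 1‖ := by
    have := norm_sub_le (z + 1) (z - 1)
    have h2 : z + 1 - (z - 1) = 2 := by ring
    rw [h2] at this
    simp at this
    linarith
  have h3 : 0 ≤ z.re ^ 2 := sq_nonneg _
  linarith

theorem norm_sub_one (z : ℂ) : ‖z - 1‖ = Real.sqrt ((z.re - 1) ^ 2 + z.im ^ 2) := by
  rw [Complex.norm_eq_sqrt_sq_add_sq]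
  simp

theorem norm_add_one (z : ℂ) : ‖z + 1‖ = Real.sqrt ((z.re + 1) ^ 2 + z.im ^ 2) := by
  rw [Complex.norm_eq_sqrt_sq_add_sq]
  simp

/-- Key planar estimate in the first half plane. -/
theorem H_key {z : ℂ} (hz : H z ≤ 1) : z.re + |z.im| ≤ 1 := by
  by_contra hc
  push Not at hc
  unfold H at hz
  rw [norm_sub_one, norm_add_one] at hz
  set s := z.re with hs
  set t := z.im with ht
  have h1 : |s + 1| ≤ Real.sqrt ((s + 1) ^ 2 + t ^ 2) := by
    apply Real.abs_le_sqrt
    nlinarith [sq_nonneg t]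
  have h1' : s + 1 ≤ Real.sqrt ((s + 1) ^ 2 + t ^ 2) := (le_abs_self _).trans h1
  have h2 : |s - 1| ≤ Real.sqrt ((s - 1) ^ 2 + t ^ 2) := by
    apply Real.abs_le_sqrt
    nlinarith [sq_nonneg t]
  have h2' : 1 - s ≤ Real.sqrt ((s - 1) ^ 2 + t ^ 2) := by
    have := neg_abs_le (s - 1); linarith
  have hs1 : s ^ 2 ≤ 1 := by linarith
  have hs2 : s ≤ 1 := by nlinarith
  have ht2 : (1 - s) ^ 2 < t ^ 2 := by
    rw [← sq_abs t]
    apply pow_lt_pow_left₀ (by linarith) (by linarith) (by norm_num)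
  have h3 : (7/5 : ℝ) * (1 - s) < Real.sqrt ((s - 1) ^ 2 + t ^ 2) := by
    apply Real.lt_sqrt_of_sq_lt
    nlinarith [sq_nonneg (1 - s)]
  nlinarith [sq_nonneg (1 - s)]

theorem H_key' {z : ℂ} (hz : H z ≤ 1) : z.re + z.im ≤ 1 ∧ z.re - z.im ≤ 1 := by
  have h := H_key hz
  constructor
  · linarith [le_abs_self z.im]
  · linarith [neg_abs_le z.im]

theorem H_one : H 1 = 1 := by
  unfold H
  norm_num

theorem H_neg_one : H (-1) = 1 := by rw [H_neg, H_one]

/-- The defining convex function. -/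
noncomputable def F (x : C0) : ℝ := Phi x + H (T x)

theorem F_neg (x : C0) : F (-x) = F x := by
  unfold F
  rw [Phi_neg, map_neg, H_neg]

theorem F_zero : F 0 < 1 := by
  have h1 : Phi 0 = 0 := Phi_eq_zero (fun i => by simp)
  unfold F H
  rw [h1, map_zero]
  norm_num

theorem convexOn_H_T : ConvexOn ℝ univ (fun x => H (T x)) := by
  have h1 : ConvexOn ℝ univ (fun x : C0 => ‖T x - 1‖) := by
    refine ⟨convex_univ, fun x _ y _ a b ha hb hab => ?_⟩
    have e : T (a • x + b • y) - 1 = a • (T x - 1) + b • (T y - 1) := by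
      rw [map_add, map_smul, map_smul, smul_sub, smul_sub]
      have : (1 : ℂ) = a • (1:ℂ) + b • (1:ℂ) := by rw [← add_smul, hab, one_smul]
      nth_rewrite 1 [this]
      abel
    show ‖T (a • x + b • y) - 1‖ ≤ a • ‖T x - 1‖ + b • ‖T y - 1‖
    rw [e]
    refine (norm_add_le _ _).trans ?_
    rw [norm_smul, norm_smul, Real.norm_of_nonneg ha, Real.norm_of_nonneg hb]
    simp
  have h2 : ConvexOn ℝ univ (fun x : C0 => ‖T x + 1‖) := by
    refine ⟨convex_univ, fun x _ y _ a b ha hb hab => ?_⟩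
    have e : T (a • x + b • y) + 1 = a • (T x + 1) + b • (T y + 1) := by
      rw [map_add, map_smul, map_smul, smul_add, smul_add]
      have : (1 : ℂ) = a • (1:ℂ) + b • (1:ℂ) := by rw [← add_smul, hab, one_smul]
      nth_rewrite 1 [this]
      abel
    show ‖T (a • x + b • y) + 1‖ ≤ a • ‖T x + 1‖ + b • ‖T y + 1‖
    rw [e]
    refine (norm_add_le _ _).trans ?_
    rw [norm_smul, norm_smul, Real.norm_of_nonneg ha, Real.norm_of_nonneg hb]
    simp
  have h3 : ConvexOn ℝ univ (fun x : C0 => (u x) ^ 2) := by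
    have h1 : ConvexOn ℝ univ (fun t : ℝ => t ^ 2) := (even_two).convexOn_pow
    exact h1.comp_linearMap u.toLinearMap
  have h4 := h3.add (((h1.add h2).add_const (-2)).smul (show (0:ℝ) ≤ 5 by norm_num))
  refine h4.congr ?_
  intro x _
  simp only [Pi.add_apply, smul_eq_mul, H, T_re]
  ring

theorem convexOn_F : ConvexOn ℝ univ F := convexOn_Phi.add convexOn_H_T

theorem continuous_F : Continuous F := by
  unfold F H
  have h1 : Continuous Phi := contDiff_Phi.continuous
  have h2 : Continuous (fun x : C0 => (T x)) := T.continuous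
  have h3 : Continuous (fun x : C0 => (T x).re) := Complex.continuous_re.comp h2
  fun_prop

theorem contDiffAt_F {x : C0} (hx1 : T x ≠ 1) (hx2 : T x ≠ -1) : ContDiffAt ℝ 2 F x := by
  have h0 : ContDiffAt ℝ 2 (fun x : C0 => T x) x := T.contDiff.contDiffAt
  have h1 : ContDiffAt ℝ 2 (fun x : C0 => ‖T x - 1‖) x :=
    ContDiffAt.norm ℝ (h0.sub contDiffAt_const) (sub_ne_zero.2 hx1)
  have h2 : ContDiffAt ℝ 2 (fun x : C0 => ‖T x + 1‖) x :=
    ContDiffAt.norm ℝ (h0.add contDiffAt_const) (by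
      intro h; exact hx2 (eq_neg_of_add_eq_zero_left h))
  have h3 : ContDiffAt ℝ 2 (fun x : C0 => (u x) ^ 2) x := u.contDiff.contDiffAt.pow 2
  have h4 : ContDiffAt ℝ 2 (fun x : C0 => Phi x + ((u x) ^ 2 + 5 * (‖T x - 1‖ + ‖T x + 1‖ - 2))) x :=
    contDiff_Phi.contDiffAt.add (h3.add (contDiffAt_const.mul ((h1.add h2).sub contDiffAt_const)))
  exact h4

theorem F_smooth (x : C0) (hx : F x = 1) : ContDiffAt ℝ 2 F x := by
  apply contDiffAt_F
  · intro h
    have h1 : Phi x = 0 := by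
      unfold F at hx
      rw [h, H_one] at hx
      linarith
    have h2 := u_lt_one (fun i => abs_le_one_of_Phi h1.le i)
    have h3 : u x = 1 := by rw [← T_re, h]; simp
    linarith
  · intro h
    have h1 : Phi x = 0 := by
      unfold F at hx
      rw [h, H_neg_one] at hx
      linarith
    have h2 := u_gt_neg_one (fun i => abs_le_one_of_Phi h1.le i)
    have h3 : u x = -1 := by rw [← T_re, h]; simp
    linarith

theorem F_coercive (x : C0) (hx : F x ≤ 1) : ‖x‖ ≤ 2 := by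
  apply norm_le_of_Phi
  have := H_nonneg (T x)
  unfold F at hx
  linarith

/-- Indicator sequence of the first `n` integers. -/
noncomputable def xs (n : ℕ) : C0 := fin (Finset.range n) (fun _ => 1)

theorem abs_xs (n i : ℕ) : |xs n i| ≤ 1 := by
  unfold xs
  rw [fin_apply]
  split_ifs <;> simp

theorem u_xs (n : ℕ) : u (xs n) = ∑ i ∈ Finset.range n, (1/2 : ℝ) ^ (i + 1) := by
  rw [u_apply, tsum_eq_sum (s := Finset.range n)]
  · apply Finset.sum_congr rfl
    intro i hi
    unfold xs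
    rw [fin_apply, if_pos hi, mul_one]
  · intro i hi
    unfold xs
    rw [fin_apply, if_neg hi, mul_zero]

theorem v_xs (n : ℕ) (hn : 2 ≤ n) : v (xs n) = 0 := by
  rw [v_apply]
  unfold xs
  rw [fin_apply, fin_apply, if_pos (by simp; omega), if_pos (by simp; omega)]
  ring

theorem tendsto_u_xs : Tendsto (fun n => u (xs n)) atTop (𝓝 1) := by
  have h := summable_half.hasSum.tendsto_sum_nat
  rw [tsum_half] at h
  refine h.congr (fun n => (u_xs n).symm)

theorem u_xs_nonneg (n : ℕ) : 0 ≤ u (xs n) := by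
  rw [u_xs]; positivity

theorem F_xs (n : ℕ) (hn : 2 ≤ n) : F (xs n) ≤ 1 := by
  unfold F
  have h1 : Phi (xs n) = 0 := Phi_eq_zero (abs_xs n)
  have h2 : u (xs n) < 1 := u_lt_one (abs_xs n)
  have h3 : T (xs n) = ((u (xs n) : ℝ) : ℂ) := by
    apply Complex.ext
    · simp [T_re]
    · simp [T_im, v_xs n hn]
  rw [h1, h3]
  unfold H
  have h0 := u_xs_nonneg n
  set s := u (xs n) with hs
  have h4 : ‖(s : ℂ) - 1‖ = 1 - s := by
    rw [show ((s : ℂ) - 1) = (((s - 1 : ℝ)) : ℂ) by push_cast; ring, Complex.norm_real,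
      Real.norm_eq_abs, abs_of_nonpos (by linarith)]
    ring
  have h5 : ‖(s : ℂ) + 1‖ = 1 + s := by
    rw [show ((s : ℂ) + 1) = (((s + 1 : ℝ)) : ℂ) by push_cast; ring, Complex.norm_real,
      Real.norm_eq_abs, abs_of_nonneg (by linarith)]
    ring
  rw [h4, h5, Complex.ofReal_re]
  nlinarith

/-- There exists an equivalent norm N on c_0 = C_0(ℕ,ℝ), C^2 on x ≠ 0, and distinct functionals f ≠ g in the dual unit ball whose midpoint has dual norm 1 (dual norm not strictly convex). -/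
theorem result :
    ∃ N : ZeroAtInftyContinuousMap ℕ ℝ → ℝ,
      (∃ a b : ℝ, 0 < a ∧ 0 < b ∧
        ∀ x : ZeroAtInftyContinuousMap ℕ ℝ, a * ‖x‖ ≤ N x ∧ N x ≤ b * ‖x‖) ∧
      (∀ x y : ZeroAtInftyContinuousMap ℕ ℝ, N (x + y) ≤ N x + N y) ∧
      (∀ (c : ℝ) (x : ZeroAtInftyContinuousMap ℕ ℝ), N (c • x) = |c| * N x) ∧
      ContDiffOn ℝ 2 N {x : ZeroAtInftyContinuousMap ℕ ℝ | x ≠ 0} ∧
      ∃ f g : ZeroAtInftyContinuousMap ℕ ℝ →L[ℝ] ℝ,
        f ≠ g ∧
        (∀ x : ZeroAtInftyContinuousMap ℕ ℝ, N x ≤ 1 → f x ≤ 1) ∧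
        (∀ x : ZeroAtInftyContinuousMap ℕ ℝ, N x ≤ 1 → g x ≤ 1) ∧
        ∀ ε : ℝ, 0 < ε →
          ∃ x : ZeroAtInftyContinuousMap ℕ ℝ, N x ≤ 1 ∧ 1 - ε < (f x + g x) / 2 := by
  obtain ⟨N, a, b, ha, hb, hab, hC, hN⟩ :=
    exists_smooth_norm F convexOn_F F_neg F_zero continuous_F F_smooth 2 F_coercive
  refine ⟨fun x => N x, ⟨a, b, ha, hb, hab⟩, fun x y => map_add_le_add N x y, fun c x => ?_, ?_,
    u + v, u - v, ?_, ?_, ?_, ?_⟩
  · show N (c • x) = |c| * N x
    rw [map_smul_eq_mul, Real.norm_eq_abs]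
  · exact hC
  · intro h
    have h1 : (u + v) (fin {0} (fun _ => 1)) = (u - v) (fin {0} (fun _ => 1)) := by rw [h]
    have h2 : v (fin {0} (fun _ => 1)) = 1 := by
      rw [v_apply]; simp
    simp only [add_apply, sub_apply, h2] at h1
    linarith
  · intro x hx
    have h1 := (hN x).1 hx
    have h2 : H (T x) ≤ 1 := by
      have := Phi_nonneg x
      unfold F at h1
      linarith
    have h3 := (H_key' h2).1
    simpa [T_re, T_im] using h3
  · intro x hx
    have h1 := (hN x).1 hx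
    have h2 : H (T x) ≤ 1 := by
      have := Phi_nonneg x
      unfold F at h1
      linarith
    have h3 := (H_key' h2).2
    simpa [T_re, T_im] using h3
  · intro ε hε
    have h1 : ∀ᶠ n in atTop, 1 - ε < u (xs n) :=
      tendsto_u_xs.eventually (lt_mem_nhds (by linarith))
    obtain ⟨n, hn1, hn2⟩ := (h1.and (eventually_ge_atTop 2)).exists
    refine ⟨xs n, (hN _).2 (F_xs n hn2), ?_⟩
    simp only [add_apply, sub_apply]
    linarith

end Pool.Agent.S04461
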