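import Pool.Statements.S04463
import Pool.Agent.Helper930.FbcG

set_option autoImplicit false
open Pool Pool.MP_fbc045_an

namespace Pool.Agent.S04463

/-- There is a plane homeomorphism in W^{1,1}_loc with locally integrable Jacobian and distortion K, exp(λK) locally integrable for some λ>0, mapping [0,1] onto itself and some E in [0,1] of positive length onto a scaled, shifted ternary Cantor set. -/
theorem result :
    ∃ (f : ℂ ≃ₜ ℂ) (Df : ℂ → ℂ →L[ℝ] ℂ) (K : ℂ → ℝ) (lam : ℝ) (E : Set ℂ) (a r : ℝ),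
      MeasureTheory.LocallyIntegrable Df MeasureTheory.volume ∧
      (∀ φ : ℂ → ℝ, ContDiff ℝ 1 φ → HasCompactSupport φ → ∀ v : ℂ,
        ∫ x, (fderiv ℝ φ x v) • f x ∂MeasureTheory.volume
          = - ∫ x, φ x • Df x v ∂MeasureTheory.volume) ∧
      MeasureTheory.LocallyIntegrable
        (fun x => LinearMap.det ((Df x : ℂ →L[ℝ] ℂ) : ℂ →ₗ[ℝ] ℂ)) MeasureTheory.volume ∧
      (∀ x, 1 ≤ K x) ∧
      (∀ᵐ x ∂MeasureTheory.volume,
        ‖Df x‖ ^ 2 ≤ K x * LinearMap.det ((Df x : ℂ →L[ℝ] ℂ) : ℂ →ₗ[ℝ] ℂ)) ∧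
      0 < lam ∧
      MeasureTheory.LocallyIntegrable (fun x => Real.exp (lam * K x)) MeasureTheory.volume ∧
      f '' ((fun t : ℝ => (t : ℂ)) '' Set.Icc 0 1) = (fun t : ℝ => (t : ℂ)) '' Set.Icc 0 1 ∧
      E ⊆ (fun t : ℝ => (t : ℂ)) '' Set.Icc 0 1 ∧
      0 < MeasureTheory.Measure.hausdorffMeasure 1 E ∧
      0 < r ∧
      f '' E = (fun c : ℝ => ((a + r * c : ℝ) : ℂ)) '' cantorSet := by
  obtain ⟨B, g, hB, hg, hTh, hsum⟩ := Pool.Agent.Helper930.Fbc.exists_gaps
  let D : Pool.Agent.Helper930.Fbc.GapData := ⟨B, g, hB, hg, hTh, hsum⟩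
  have hCK := Pool.Agent.Helper930.Fbc.CK_ge D
  refine ⟨Pool.Agent.Helper930.Fbc.fh D, fderiv ℝ (Pool.Agent.Helper930.Fbc.ff D),
    Pool.Agent.Helper930.Fbc.KK D, 1/(2*Pool.Agent.Helper930.Fbc.CK D),
    (fun t : ℝ => (t : ℂ)) '' Pool.Agent.Helper930.Fbc.EE D 0, 0, 1,
    Pool.Agent.Helper930.Fbc.Df_locallyIntegrable D, ?_,
    Pool.Agent.Helper930.Fbc.det_locallyIntegrable D, Pool.Agent.Helper930.Fbc.KK_ge D, ?_,
    by positivity, Pool.Agent.Helper930.Fbc.exp_locallyIntegrable D, ?_, ?_,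
    Pool.Agent.Helper930.Fbc.hausdorff_pos D, one_pos, ?_⟩
  · intro φ hφ hc v
    exact Pool.Agent.Helper930.Fbc.weak_derivative D φ hφ hc v
  · filter_upwards [Pool.Agent.Helper930.Fbc.real_line_null,
      (Pool.Agent.Helper930.Fbc.ff_lip D).ae_differentiableAt] with z hz hd
    exact Pool.Agent.Helper930.Fbc.distortion D hz hd
  · -- the segment is mapped onto itself
    have h1 : Pool.Agent.Helper930.Fbc.hh D '' Set.Icc 0 1 = Set.Icc 0 1 := by
      apply Set.Subset.antisymm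
      · rintro _ ⟨x, hx, rfl⟩
        constructor
        · rw [← Pool.Agent.Helper930.Fbc.hh_zero D]
          exact Pool.Agent.Helper930.Fbc.hh_mono D hx.1
        · rw [← Pool.Agent.Helper930.Fbc.hh_one D]
          exact Pool.Agent.Helper930.Fbc.hh_mono D hx.2
      · have h := intermediate_value_Icc (zero_le_one (α := ℝ))
          (Pool.Agent.Helper930.Fbc.hh_continuous D).continuousOn
        rwa [Pool.Agent.Helper930.Fbc.hh_zero, Pool.Agent.Helper930.Fbc.hh_one] at h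
    rw [Set.image_image]
    have h2 : (fun x : ℝ => Pool.Agent.Helper930.Fbc.fh D (x : ℂ)) =
        fun x : ℝ => ((Pool.Agent.Helper930.Fbc.hh D x : ℝ) : ℂ) := by
      funext x
      rw [Pool.Agent.Helper930.Fbc.fh_apply, Pool.Agent.Helper930.Fbc.ff_real]
    rw [h2]
    conv_rhs => rw [← h1]
    rw [Set.image_image]
  · apply Set.image_mono
    have := Pool.Agent.Helper930.Fbc.EE_subset D 0
    simpa [Pool.Agent.Helper930.Fbc.LL] using this
  · rw [Set.image_image]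
    have h2 : (fun x : ℝ => Pool.Agent.Helper930.Fbc.fh D (x : ℂ)) =
        fun x : ℝ => ((Pool.Agent.Helper930.Fbc.hh D x : ℝ) : ℂ) := by
      funext x
      rw [Pool.Agent.Helper930.Fbc.fh_apply, Pool.Agent.Helper930.Fbc.ff_real]
    rw [h2, ← Pool.Agent.Helper930.Fbc.hh_image D, Set.image_image]
    simp

end Pool.Agent.S04463
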