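import Pool.Statements.S04468

set_option autoImplicit false
open Pool Pool.MP_fc0bf6_an

namespace Pool.Agent.S04468

open Filter Topology Finset

/-- Upper bound for an infinite product. -/
lemma norm_le_exp {a : ℕ → ℂ} {P : ℂ} (h : HasProd a P) (K : ℕ) (c d : ℕ → ℝ)
    (hd : Summable d) (h1 : ∀ j < K, ‖a j‖ ≤ Real.exp (c j))
    (h2 : ∀ i, ‖a (i + K)‖ ≤ Real.exp (d i)) :
    ‖P‖ ≤ Real.exp (∑ j ∈ range K, c j + ∑' i, d i) := by
  have ht : Tendsto (fun n => ∏ i ∈ range (n + K), a i) atTop (𝓝 P) :=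
    (tendsto_add_atTop_iff_nat K).2 h.tendsto_prod_nat
  have ht2 : Tendsto (fun n => ‖∏ i ∈ range (n + K), a i‖) atTop (𝓝 ‖P‖) := ht.norm
  have ht3 : Tendsto (fun n => Real.exp (∑ j ∈ range K, c j + ∑ i ∈ range n, d i)) atTop
      (𝓝 (Real.exp (∑ j ∈ range K, c j + ∑' i, d i))) :=
    (Real.continuous_exp.tendsto _).comp (tendsto_const_nhds.add hd.hasSum.tendsto_sum_nat)
  refine le_of_tendsto_of_tendsto' ht2 ht3 ?_
  intro n
  rw [add_comm n K, prod_range_add, norm_mul, norm_prod, norm_prod, Real.exp_add, Real.exp_sum,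
    Real.exp_sum]
  gcongr with i hi i hi
  · exact h1 i (by simpa using hi)
  · rw [add_comm K i]; exact h2 i

/-- Lower bound for an infinite product. -/
lemma exp_le_norm {a : ℕ → ℂ} {P : ℂ} (h : HasProd a P) (K : ℕ) (c d : ℕ → ℝ)
    (hd : Summable d) (h1 : ∀ j < K, Real.exp (c j) ≤ ‖a j‖)
    (h2 : ∀ i, Real.exp (d i) ≤ ‖a (i + K)‖) :
    Real.exp (∑ j ∈ range K, c j + ∑' i, d i) ≤ ‖P‖ := by
  have ht : Tendsto (fun n => ∏ i ∈ range (n + K), a i) atTop (𝓝 P) :=
    (tendsto_add_atTop_iff_nat K).2 h.tendsto_prod_nat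
  have ht2 : Tendsto (fun n => ‖∏ i ∈ range (n + K), a i‖) atTop (𝓝 ‖P‖) := ht.norm
  have ht3 : Tendsto (fun n => Real.exp (∑ j ∈ range K, c j + ∑ i ∈ range n, d i)) atTop
      (𝓝 (Real.exp (∑ j ∈ range K, c j + ∑' i, d i))) :=
    (Real.continuous_exp.tendsto _).comp (tendsto_const_nhds.add hd.hasSum.tendsto_sum_nat)
  refine le_of_tendsto_of_tendsto' ht3 ht2 ?_
  intro n
  rw [add_comm n K, prod_range_add, norm_mul, norm_prod, norm_prod, Real.exp_add, Real.exp_sum,
    Real.exp_sum]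
  gcongr with i hi i hi
  · exact h1 i (by simpa using hi)
  · rw [add_comm K i]; exact h2 i

/-- An infinite product of entire functions close to one is entire, with convergence. -/
lemma entire_tprod (f : ℕ → ℂ → ℂ) (hf : ∀ j, Differentiable ℂ (f j))
    (hb : ∀ R : ℝ, 0 < R → ∃ u : ℕ → ℝ, Summable u ∧
      ∀ᶠ j in atTop, ∀ z ∈ Metric.ball (0 : ℂ) R, ‖f j z‖ ≤ u j) :
    Differentiable ℂ (fun z => ∏' j, (1 + f j z)) ∧
      ∀ z, HasProd (fun j => 1 + f j z) (∏' j, (1 + f j z)) := by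
  have key : ∀ R : ℝ, 0 < R → HasProdLocallyUniformlyOn (fun j z => 1 + f j z)
      (fun z => ∏' j, (1 + f j z)) (Metric.ball (0 : ℂ) R) := by
    intro R hR
    obtain ⟨u, hu, hu2⟩ := hb R hR
    exact hu.hasProdLocallyUniformlyOn_nat_one_add Metric.isOpen_ball hu2
      (fun j => (hf j).continuous.continuousOn)
  constructor
  · intro z
    have hk := key (‖z‖ + 1) (by positivity)
    have hz : z ∈ Metric.ball (0 : ℂ) (‖z‖ + 1) := by simp
    have hd : DifferentiableOn ℂ (fun z => ∏' j, (1 + f j z)) (Metric.ball (0 : ℂ) (‖z‖ + 1)) := by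
      refine hk.tendstoLocallyUniformlyOn_finsetRange.differentiableOn ?_ Metric.isOpen_ball
      filter_upwards with n
      refine DifferentiableOn.fun_finsetProd ?_
      intro i _
      exact ((differentiable_const 1).add (hf i)).differentiableOn
    exact (hd z hz).differentiableAt (Metric.isOpen_ball.mem_nhds hz)
  · intro z
    have hk := key (‖z‖ + 1) (by positivity)
    have hz : z ∈ Metric.ball (0 : ℂ) (‖z‖ + 1) := by simp
    exact hk.hasProd hz

/-- The ratio of the radii. -/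
noncomputable def q : ℝ := 201 / 100

lemma q_pos : 0 < q := by norm_num [q]
lemma two_lt_q : 2 < q := by norm_num [q]
lemma q_ne : (q : ℂ) ≠ 0 := by exact_mod_cast q_pos.ne'

/-- The factors of the numerator. -/
noncomputable def fF (e : ℕ → ℕ) (j : ℕ) (z : ℂ) : ℂ := (1 - z / (q : ℂ) ^ j) ^ (e j) - 1

/-- The numerator: zeros of multiplicity `e j` at `q ^ j`. -/
noncomputable def F (e : ℕ → ℕ) (z : ℂ) : ℂ := ∏' j, (1 + fF e j z)

/-- The factors of the denominator. -/
noncomputable def fG (j : ℕ) (z : ℂ) : ℂ := (z / (q : ℂ) ^ j) ^ (100 * 2 ^ j)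

/-- The denominator: simple zeros equally spaced on the circles of radius `q ^ j`. -/
noncomputable def G (z : ℂ) : ℂ := ∏' j, (1 + fG j z)

lemma norm_div_q (z : ℂ) (j : ℕ) : ‖z / (q : ℂ) ^ j‖ = ‖z‖ / q ^ j := by
  rw [norm_div, norm_pow, Complex.norm_real, Real.norm_of_nonneg q_pos.le]

lemma norm_one_sub_pow_sub_one (w : ℂ) (n : ℕ) :
    ‖(1 - w) ^ n - 1‖ ≤ Real.exp (n * ‖w‖) - 1 := by
  have h := Finset.norm_prod_one_add_sub_one_le (range n) (fun _ => -w)
  simpa [sub_eq_add_neg] using h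

lemma F_entire (e : ℕ → ℕ) (he : ∀ j, e j ≤ 2 ^ j) :
    Differentiable ℂ (F e) ∧ ∀ z, HasProd (fun j => 1 + fF e j z) (F e z) := by
  refine entire_tprod (fF e) ?_ ?_
  · intro j
    unfold fF
    fun_prop
  · intro R hR
    refine ⟨fun j => R * Real.exp R * (2 / q) ^ j, ?_, ?_⟩
    · refine Summable.mul_left _ (summable_geometric_of_lt_one (by have := q_pos; positivity) ?_)
      rw [div_lt_one q_pos]; exact two_lt_q
    · filter_upwards with j z hz
      have hz' : ‖z‖ < R := by simpa using hz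
      have hq := q_pos
      have h2 : (2 / q) ^ j ≤ 1 := pow_le_one₀ (by positivity)
        (by rw [div_le_one q_pos]; exact two_lt_q.le)
      set y : ℝ := (e j : ℝ) * ‖z / (q : ℂ) ^ j‖ with hy
      have hy0 : 0 ≤ y := by positivity
      have hy1 : y ≤ R * (2 / q) ^ j := by
        rw [hy, norm_div_q, div_pow]
        have h3 : (e j : ℝ) ≤ 2 ^ j := by exact_mod_cast he j
        calc (e j : ℝ) * (‖z‖ / q ^ j) ≤ 2 ^ j * (R / q ^ j) := by gcongr
          _ = R * (2 ^ j / q ^ j) := by ring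
      have hy2 : y ≤ R := hy1.trans (by nlinarith)
      have h4 : ‖fF e j z‖ ≤ Real.exp y - 1 := norm_one_sub_pow_sub_one _ _
      have h5 : Real.exp y - 1 ≤ y * Real.exp y := by
        have := Real.add_one_le_exp (-y)
        have h6 : Real.exp y * Real.exp (-y) = 1 := by rw [← Real.exp_add]; simp
        nlinarith [Real.exp_pos y]
      have h7 : Real.exp y ≤ Real.exp R := Real.exp_le_exp.2 hy2
      calc ‖fF e j z‖ ≤ y * Real.exp y := h4.trans h5
        _ ≤ (R * (2 / q) ^ j) * Real.exp R := by gcongr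
        _ = R * Real.exp R * (2 / q) ^ j := by ring

lemma G_entire : Differentiable ℂ G ∧ ∀ z, HasProd (fun j => 1 + fG j z) (G z) := by
  refine entire_tprod fG ?_ ?_
  · intro j
    unfold fG
    fun_prop
  · intro R hR
    refine ⟨fun j => (1 / 2) ^ j, summable_geometric_two, ?_⟩
    have hq : Tendsto (fun j : ℕ => q ^ j) atTop atTop :=
      tendsto_pow_atTop_atTop_of_one_lt (by linarith [two_lt_q])
    filter_upwards [hq.eventually_ge_atTop (2 * R)] with j hj z hz
    have hz' : ‖z‖ < R := by simpa using hz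
    have hqj : 0 < q ^ j := pow_pos q_pos j
    unfold fG
    rw [norm_pow, norm_div_q]
    have h1 : ‖z‖ / q ^ j ≤ 1 / 2 := by
      rw [div_le_iff₀ hqj]; linarith
    have h2 : j ≤ 100 * 2 ^ j := by
      have := Nat.lt_two_pow_self (n := j)
      omega
    calc (‖z‖ / q ^ j) ^ (100 * 2 ^ j) ≤ (1 / 2) ^ (100 * 2 ^ j) := by gcongr
      _ ≤ (1 / 2) ^ j := pow_le_pow_of_le_one (by norm_num) (by norm_num) h2

/-- standing geometric situation -/
structure Sit (r : ℝ) (J : ℕ) (t : ℝ) (E : ℝ) (A : ℝ) : Prop where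
  rpos : 0 < r
  hlo : q ^ J ≤ r
  hhi : r ≤ q ^ (J + 1)
  ht : t = r / q ^ (J + 1)
  hE : E = 2 ^ (J + 1)
  hA : A = ∑ j ∈ range (J + 1), 2 ^ j * Real.log (r / q ^ j)

namespace Sit

variable {r : ℝ} {J : ℕ} {t E A : ℝ}

lemma tpos (h : Sit r J t E A) : 0 < t := by
  rw [h.ht]; exact div_pos h.rpos (pow_pos q_pos _)

lemma tle (h : Sit r J t E A) : t ≤ 1 := by
  rw [h.ht, div_le_one (pow_pos q_pos _)]; exact h.hhi

lemma tge (h : Sit r J t E A) : 1 / q ≤ t := by
  rw [h.ht, div_le_div_iff₀ q_pos (pow_pos q_pos _), pow_succ]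
  nlinarith [h.hlo, q_pos]

lemma Epos (h : Sit r J t E A) : 0 < E := by rw [h.hE]; positivity

lemma Ege (h : Sit r J t E A) : 2 ≤ E := by
  rw [h.hE, pow_succ]
  have : (1 : ℝ) ≤ 2 ^ J := one_le_pow₀ (by norm_num)
  linarith

lemma rdiv (h : Sit r J t E A) (i : ℕ) : r / q ^ (i + (J + 1)) = t / q ^ i := by
  rw [h.ht, pow_add, div_div, mul_comm]

lemma rdiv_ge (h : Sit r J t E A) {j : ℕ} (hj : j ≤ J) : 1 ≤ r / q ^ j := by
  rw [one_le_div (pow_pos q_pos _)]
  exact (pow_le_pow_right₀ (by linarith [two_lt_q]) hj).trans h.hlo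

lemma rdiv_ge2 (h : Sit r J t E A) {j : ℕ} (hj : j < J) : 2 ≤ r / q ^ j := by
  rw [le_div_iff₀ (pow_pos q_pos _)]
  have h1 : q ^ (j + 1) ≤ q ^ J := pow_le_pow_right₀ (by linarith [two_lt_q]) hj
  have h2 := h.hlo
  rw [pow_succ] at h1
  have h3 := pow_pos q_pos j
  nlinarith [two_lt_q]

lemma two_pow (h : Sit r J t E A) (i : ℕ) : (2 : ℝ) ^ (i + (J + 1)) = E * 2 ^ i := by
  rw [h.hE, pow_add, mul_comm]

lemma hasSum_geo (c : ℝ) : HasSum (fun i : ℕ => c * (2 / q) ^ i) (201 * c) := by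
  have h := (hasSum_geometric_of_lt_one (r := 2 / q) (by have := q_pos; positivity)
    (by rw [div_lt_one q_pos]; exact two_lt_q)).mul_left c
  have e : c * (1 - 2 / q)⁻¹ = 201 * c := by norm_num [q]; ring
  rwa [e] at h

lemma hasSum_X (E t : ℝ) : HasSum (fun i : ℕ => E * 2 ^ i * (t / q ^ i)) (201 * (E * t)) := by
  have h := hasSum_geo (E * t)
  have e : (fun i : ℕ => E * t * (2 / q) ^ i) = (fun i : ℕ => E * 2 ^ i * (t / q ^ i)) := by
    funext i
    rw [div_pow]; ring
  rwa [e] at h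

lemma hasSum_X2 (E t : ℝ) :
    HasSum (fun i : ℕ => E * 2 ^ (i + 1) * (t / q ^ (i + 1))) (200 * (E * t)) := by
  have h := hasSum_geo (E * t * (2 / q))
  have e : (fun i : ℕ => E * t * (2 / q) * (2 / q) ^ i) =
      (fun i : ℕ => E * 2 ^ (i + 1) * (t / q ^ (i + 1))) := by
    funext i
    have := q_pos.ne'
    rw [div_pow, pow_succ, pow_succ]
    field_simp
  have e2 : 201 * (E * t * (2 / q)) = 200 * (E * t) := by norm_num [q]; ring
  rwa [e, e2] at h

lemma hasSum_Y (E t : ℝ) :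
    HasSum (fun i : ℕ => E * 2 ^ i * (t / q ^ i) ^ 2) (40401 / 20401 * (E * t ^ 2)) := by
  have h := (hasSum_geometric_of_lt_one (r := 2 / q ^ 2) (by have := q_pos; positivity)
    (by norm_num [q])).mul_left (E * t ^ 2)
  have e : (fun i : ℕ => E * t ^ 2 * (2 / q ^ 2) ^ i) =
      (fun i : ℕ => E * 2 ^ i * (t / q ^ i) ^ 2) := by
    funext i
    rw [div_pow, div_pow, ← pow_mul, ← pow_mul, mul_comm 2 i]; ring
  have e2 : E * t ^ 2 * (1 - 2 / q ^ 2)⁻¹ = 40401 / 20401 * (E * t ^ 2) := by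
    norm_num [q]; ring
  rwa [e, e2] at h

lemma hasSum_T (t : ℝ) : HasSum (fun i : ℕ => t / q ^ i) (201 / 101 * t) := by
  have h := (hasSum_geometric_of_lt_one (r := 1 / q) (by have := q_pos; positivity)
    (by norm_num [q])).mul_left t
  have e : (fun i : ℕ => t * (1 / q) ^ i) = (fun i : ℕ => t / q ^ i) := by
    funext i
    rw [div_pow, one_pow]; ring
  have e2 : t * (1 - 1 / q)⁻¹ = 201 / 101 * t := by norm_num [q]; ring
  rwa [e, e2] at h

/-- finite reciprocal sum -/
lemma sum_inv (J : ℕ) : ∑ j ∈ range J, q ^ j ≤ q ^ J / (101 / 100) := by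
  rw [geom_sum_eq (by norm_num [q])]
  have : q - 1 = 101 / 100 := by norm_num [q]
  rw [this]
  gcongr
  linarith

lemma sum_two (J : ℕ) : ∑ j ∈ range J, (2 : ℝ) ^ j = 2 ^ J - 1 := by
  rw [geom_sum_eq (by norm_num)]; norm_num

lemma log_two_lt : Real.log 2 < 7 / 10 := by linarith [Real.log_two_lt_d9]

/-- upper bound for the numerator -/
lemma F_upper (h : Sit r J t E A) (e : ℕ → ℕ) (he : ∀ j, e j = 2 ^ j) {z : ℂ} (hz : ‖z‖ = r) :
    ‖F e z‖ ≤ Real.exp (A + 7 / 10 * E + 201 * (E * t)) := by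
  have hp := (F_entire e (fun j => (he j).le)).2 z
  have hb := norm_le_exp hp (J + 1) (fun j => 2 ^ j * (Real.log 2 + Real.log (r / q ^ j)))
    (fun i => E * 2 ^ i * (t / q ^ i)) (hasSum_X E t).summable ?_ ?_
  · refine hb.trans (Real.exp_le_exp.2 ?_)
    rw [(hasSum_X E t).tsum_eq]
    simp only [mul_add, sum_add_distrib, ← h.hA]
    rw [← sum_mul, sum_two, ← h.hE]
    have := log_two_lt
    have h2 : 0 < Real.log 2 := Real.log_pos (by norm_num)
    nlinarith [h.Ege]
  · intro j hj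
    have h1 : 1 ≤ r / q ^ j := h.rdiv_ge (by omega)
    have h2 : ‖1 - z / (q : ℂ) ^ j‖ ≤ 2 * (r / q ^ j) := by
      have := norm_sub_le (1 : ℂ) (z / (q : ℂ) ^ j)
      rw [norm_div_q, hz, norm_one] at this
      linarith
    have h3 : Real.exp (Real.log 2 + Real.log (r / q ^ j)) = 2 * (r / q ^ j) := by
      rw [Real.exp_add, Real.exp_log (by norm_num), Real.exp_log (by linarith)]
    have h4 : Real.exp (2 ^ j * (Real.log 2 + Real.log (r / q ^ j))) =
        (2 * (r / q ^ j)) ^ (2 ^ j) := by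
      rw [← h3, ← Real.exp_nat_mul]; push_cast; rfl
    simp only [fF, add_sub_cancel, norm_pow, he]
    rw [h4]
    gcongr
  · intro i
    simp only [fF, add_sub_cancel, norm_pow, he]
    have h1 : ‖1 - z / (q : ℂ) ^ (i + (J + 1))‖ ≤ Real.exp (t / q ^ i) := by
      have := norm_sub_le (1 : ℂ) (z / (q : ℂ) ^ (i + (J + 1)))
      rw [norm_div_q, hz, norm_one, h.rdiv] at this
      have h3 := Real.add_one_le_exp (t / q ^ i)
      linarith
    have h4 : Real.exp (E * 2 ^ i * (t / q ^ i)) = (Real.exp (t / q ^ i)) ^ (2 ^ (i + (J + 1))) := by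
      rw [← Real.exp_nat_mul, ← h.two_pow]; push_cast; rfl
    rw [h4]
    gcongr

lemma exp_sub_sq_le {x : ℝ} (hx : 0 ≤ x) : Real.exp (x - x ^ 2 / 2) ≤ 1 + x := by
  have h1 := Real.le_log_one_add_of_nonneg hx
  have h2 : x - x ^ 2 / 2 ≤ 2 * x / (x + 2) := by
    rw [le_div_iff₀ (by positivity)]
    nlinarith [pow_nonneg hx 3]
  calc Real.exp (x - x ^ 2 / 2) ≤ Real.exp (Real.log (1 + x)) := Real.exp_le_exp.2 (h2.trans h1)
    _ = 1 + x := Real.exp_log (by positivity)

/-- lower bound for the numerator on the negative axis -/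
lemma F_lower (h : Sit r J t E A) (e : ℕ → ℕ) (he : ∀ j, e j = 2 ^ j) :
    Real.exp (A + 200 * (E * t)) ≤ ‖F e (-(r : ℂ))‖ := by
  have hp := (F_entire e (fun j => (he j).le)).2 (-(r : ℂ))
  have hn : ∀ j : ℕ, ‖1 - (-(r : ℂ)) / (q : ℂ) ^ j‖ = 1 + r / q ^ j := by
    intro j
    have h1 : (1 : ℂ) - (-(r : ℂ)) / (q : ℂ) ^ j = ((1 + r / q ^ j : ℝ) : ℂ) := by
      push_cast; ring
    rw [h1, Complex.norm_real, Real.norm_of_nonneg]
    have := h.rpos
    have := q_pos
    positivity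
  have hs : HasSum (fun i : ℕ => E * 2 ^ i * (t / q ^ i) - E * 2 ^ i * (t / q ^ i) ^ 2 / 2)
      (201 * (E * t) - 40401 / 20401 * (E * t ^ 2) / 2) :=
    (hasSum_X E t).sub ((hasSum_Y E t).div_const 2)
  have hb := exp_le_norm hp (J + 1) (fun j => 2 ^ j * Real.log (r / q ^ j))
    (fun i => E * 2 ^ i * (t / q ^ i) - E * 2 ^ i * (t / q ^ i) ^ 2 / 2) hs.summable ?_ ?_
  · refine le_trans (Real.exp_le_exp.2 ?_) hb
    rw [hs.tsum_eq, ← h.hA]
    have h1 : E * t ^ 2 ≤ E * t := by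
      have := h.tpos
      have := h.tle
      have := h.Epos
      have : t ^ 2 ≤ t := by nlinarith
      nlinarith
    have h2 : 0 < E * t := mul_pos h.Epos h.tpos
    linarith
  · intro j hj
    have h1 : 1 ≤ r / q ^ j := h.rdiv_ge (by omega)
    have h4 : Real.exp (2 ^ j * (Real.log (r / q ^ j))) = (r / q ^ j) ^ (2 ^ j) := by
      have h5 : r / q ^ j = Real.exp (Real.log (r / q ^ j)) := (Real.exp_log (by linarith)).symm
      conv_rhs => rw [h5]
      rw [← Real.exp_nat_mul]; push_cast; rfl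
    simp only [fF, add_sub_cancel, norm_pow, he]
    rw [h4, hn]
    gcongr
    linarith
  · intro i
    simp only [fF, add_sub_cancel, norm_pow, he]
    rw [hn, h.rdiv]
    have h0 : 0 ≤ t / q ^ i := div_nonneg h.tpos.le (pow_pos q_pos _).le
    have h1 := exp_sub_sq_le h0
    have h4 : Real.exp (E * 2 ^ i * (t / q ^ i) - E * 2 ^ i * (t / q ^ i) ^ 2 / 2) =
        (Real.exp (t / q ^ i - (t / q ^ i) ^ 2 / 2)) ^ (2 ^ (i + (J + 1))) := by
      rw [← Real.exp_nat_mul]
      push_cast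
      rw [h.two_pow]; ring_nf
    rw [h4]
    gcongr

end Sit

namespace Sit

variable {r : ℝ} {J : ℕ} {t E A : ℝ}

/-- upper bound for the numerator on the positive axis -/
lemma F_pos (h : Sit r J t E A) (h1 : q ^ J < r) (h2 : r < q ^ (J + 1))
    (e : ℕ → ℕ) (he : ∀ j, e j = 2 ^ j) :
    ‖F e (r : ℂ)‖ ≤ Real.exp (A + E / 2 * Real.log (1 - q ^ J / r) + E * Real.log (1 - t)
      - 200 * (E * t)) := by
  have hp := (F_entire e (fun j => (he j).le)).2 (r : ℂ)
  have hn : ∀ j : ℕ, ‖1 - (r : ℂ) / (q : ℂ) ^ j‖ = |1 - r / q ^ j| := by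
    intro j
    have h3 : (1 : ℂ) - (r : ℂ) / (q : ℂ) ^ j = ((1 - r / q ^ j : ℝ) : ℂ) := by
      push_cast; ring
    rw [h3, Complex.norm_real, Real.norm_eq_abs]
  have hqJ : 0 < q ^ J := pow_pos q_pos J
  have hr := h.rpos
  have ht1 : t < 1 := by rw [h.ht, div_lt_one (pow_pos q_pos _)]; exact h2
  have hs1 : q ^ J / r < 1 := by rw [div_lt_one h.rpos]; exact h1
  have hb := norm_le_exp hp (J + 2)
    (fun j => if j = J + 1 then E * Real.log (1 - t) else
      2 ^ j * Real.log (r / q ^ j) + (if j = J then 2 ^ J * Real.log (1 - q ^ J / r) else 0))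
    (fun i => -(E * 2 ^ (i + 1) * (t / q ^ (i + 1)))) (hasSum_X2 E t).neg.summable ?_ ?_
  · refine hb.trans (Real.exp_le_exp.2 (le_of_eq ?_))
    rw [(hasSum_X2 E t).neg.tsum_eq, sum_range_succ]
    have h3 : ∑ x ∈ range (J + 1), (if x = J + 1 then E * Real.log (1 - t) else
      2 ^ x * Real.log (r / q ^ x) + (if x = J then 2 ^ J * Real.log (1 - q ^ J / r) else 0))
      = ∑ x ∈ range (J + 1),
      (2 ^ x * Real.log (r / q ^ x) + (if x = J then 2 ^ J * Real.log (1 - q ^ J / r) else 0)) := by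
      refine sum_congr rfl ?_
      intro x hx
      rw [if_neg]
      have := mem_range.1 hx
      omega
    rw [h3, sum_add_distrib, ← h.hA, sum_ite_eq' (range (J + 1)) J, if_pos (by simp), if_pos rfl]
    have h4 : (2 : ℝ) ^ J = E / 2 := by rw [h.hE, pow_succ]; ring
    rw [h4]; ring
  · intro j hj
    simp only [fF, add_sub_cancel, norm_pow, he]
    rw [hn]
    by_cases hj1 : j = J + 1
    · rw [if_pos hj1, hj1, ← h.ht, abs_of_pos (by linarith), h.hE]
      have h5 : 1 - t = Real.exp (Real.log (1 - t)) := (Real.exp_log (by linarith)).symm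
      conv_lhs => rw [h5]
      rw [← Real.exp_nat_mul]; push_cast; exact le_rfl
    · rw [if_neg hj1]
      by_cases hj2 : j = J
      · rw [if_pos hj2, hj2]
        have h6 : 1 < r / q ^ J := by rw [one_lt_div hqJ]; exact h1
        have h7 : |1 - r / q ^ J| = (r / q ^ J) * (1 - q ^ J / r) := by
          rw [abs_of_neg (by linarith)]
          field_simp
          ring
        have h8 : (r / q ^ J) * (1 - q ^ J / r) =
            Real.exp (Real.log (r / q ^ J) + Real.log (1 - q ^ J / r)) := by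
          rw [Real.exp_add, Real.exp_log (by linarith), Real.exp_log (by linarith)]
        rw [h7, h8, ← Real.exp_nat_mul]
        push_cast
        rw [mul_add]
      · rw [if_neg hj2, add_zero]
        have h9 : 2 ≤ r / q ^ j := h.rdiv_ge2 (by omega)
        have h10 : Real.exp (2 ^ j * (Real.log (r / q ^ j))) = (r / q ^ j) ^ (2 ^ j) := by
          have h5 : r / q ^ j = Real.exp (Real.log (r / q ^ j)) := (Real.exp_log (by linarith)).symm
          conv_rhs => rw [h5]
          rw [← Real.exp_nat_mul]; push_cast; rfl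
        rw [h10]
        gcongr
        rw [abs_of_neg (by linarith)]
        linarith
  · intro i
    simp only [fF, add_sub_cancel, norm_pow, he]
    have h11 : r / q ^ (i + (J + 2)) = t / q ^ (i + 1) := by
      have := h.rdiv (i + 1)
      rw [← this]; congr 2; ring
    rw [hn, h11]
    have h12 : t / q ^ (i + 1) < 1 := by
      rw [div_lt_one (pow_pos q_pos _)]
      have : 1 ≤ q ^ (i + 1) := one_le_pow₀ (by linarith [two_lt_q])
      linarith
    rw [abs_of_pos (by linarith)]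
    have h13 : 1 - t / q ^ (i + 1) ≤ Real.exp (-(t / q ^ (i + 1))) := by
      have := Real.add_one_le_exp (-(t / q ^ (i + 1)))
      linarith
    have h14 : Real.exp (-(E * 2 ^ (i + 1) * (t / q ^ (i + 1)))) =
        (Real.exp (-(t / q ^ (i + 1)))) ^ (2 ^ (i + (J + 2))) := by
      rw [← Real.exp_nat_mul]
      push_cast
      have := h.two_pow (i + 1)
      have h15 : (2 : ℝ) ^ (i + (J + 2)) = E * 2 ^ (i + 1) := by
        rw [← this]; congr 1; ring
      rw [h15]; ring_nf
    rw [h14]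
    have : 0 ≤ 1 - t / q ^ (i + 1) := by linarith
    gcongr

lemma Npos (j : ℕ) : 1 ≤ 100 * 2 ^ j := by
  have := Nat.one_le_two_pow (n := j)
  omega

lemma exp_N (ρ : ℝ) (hρ : 0 < ρ) (j : ℕ) :
    Real.exp (100 * (2 ^ j * Real.log ρ)) = ρ ^ (100 * 2 ^ j) := by
  have h5 : ρ = Real.exp (Real.log ρ) := (Real.exp_log hρ).symm
  conv_rhs => rw [h5]
  rw [← Real.exp_nat_mul]; push_cast; ring_nf

lemma sum_qinv (h : Sit r J t E A) : ∑ j ∈ range (J + 1), q ^ j / r ≤ 2 := by
  rw [← sum_div, div_le_iff₀ h.rpos]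
  refine (sum_inv (J + 1)).trans ?_
  rw [div_le_iff₀ (by norm_num), pow_succ]
  have := h.hlo
  have h2 : q = 201 / 100 := rfl
  have h3 := h.rpos
  rw [h2] at this ⊢
  nlinarith

lemma sum_qinv' (h : Sit r J t E A) : ∑ j ∈ range J, q ^ j / r ≤ 1 := by
  rw [← sum_div, div_le_iff₀ h.rpos]
  refine (sum_inv J).trans ?_
  rw [div_le_iff₀ (by norm_num)]
  have := h.hlo
  have h3 := h.rpos
  nlinarith

/-- upper bound for the denominator -/
lemma G_upper (h : Sit r J t E A) {z : ℂ} (hz : ‖z‖ = r) :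
    ‖G z‖ ≤ Real.exp (100 * A + 4) := by
  have hp := G_entire.2 z
  have hb := norm_le_exp hp (J + 1)
    (fun j => 100 * (2 ^ j * Real.log (r / q ^ j)) + q ^ j / r)
    (fun i => t / q ^ i) (hasSum_T t).summable ?_ ?_
  · refine hb.trans (Real.exp_le_exp.2 ?_)
    rw [(hasSum_T t).tsum_eq, sum_add_distrib, ← mul_sum, ← h.hA]
    have h1 := h.sum_qinv
    have h2 := h.tle
    linarith
  · intro j hj
    have h1 : 1 ≤ r / q ^ j := h.rdiv_ge (by omega)
    set ρ := r / q ^ j with hρ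
    have hρ0 : 0 < ρ := by linarith
    have h2 : ‖1 + fG j z‖ ≤ 1 + ρ ^ (100 * 2 ^ j) := by
      refine (norm_add_le _ _).trans ?_
      rw [norm_one, fG, norm_pow, norm_div_q, hz]
    have h3 : q ^ j / r = 1 / ρ := by rw [hρ]; simp
    rw [h3, Real.exp_add, exp_N ρ hρ0]
    refine h2.trans ?_
    have h4 : ρ ≤ ρ ^ (100 * 2 ^ j) := by
      calc ρ = ρ ^ 1 := (pow_one ρ).symm
        _ ≤ ρ ^ (100 * 2 ^ j) := pow_le_pow_right₀ h1 (Npos j)
    have h5 : 1 / ρ + 1 ≤ Real.exp (1 / ρ) := Real.add_one_le_exp _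
    have h6 : 1 ≤ ρ ^ (100 * 2 ^ j) * (1 / ρ) := by
      rw [mul_one_div, one_le_div hρ0]; exact h4
    nlinarith [pow_pos hρ0 (100 * 2 ^ j)]
  · intro i
    have h2 : ‖1 + fG (i + (J + 1)) z‖ ≤ 1 + (t / q ^ i) ^ (100 * 2 ^ (i + (J + 1))) := by
      refine (norm_add_le _ _).trans ?_
      rw [norm_one, fG, norm_pow, norm_div_q, hz, h.rdiv]
    have h3 : 0 ≤ t / q ^ i := div_nonneg h.tpos.le (pow_pos q_pos _).le
    have h4 : t / q ^ i ≤ 1 := by
      rw [div_le_one (pow_pos q_pos _)]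
      have : 1 ≤ q ^ i := one_le_pow₀ (by linarith [two_lt_q])
      linarith [h.tle]
    have h5 : (t / q ^ i) ^ (100 * 2 ^ (i + (J + 1))) ≤ (t / q ^ i) ^ 1 :=
      pow_le_pow_of_le_one h3 h4 (Npos _)
    rw [pow_one] at h5
    have := Real.add_one_le_exp (t / q ^ i)
    linarith

/-- lower bound for the denominator on the real axis -/
lemma G_lower (h : Sit r J t E A) (z : ℂ) (hz : z = r ∨ z = -(r : ℂ)) :
    Real.exp (100 * A) ≤ ‖G z‖ := by
  have hp := G_entire.2 z
  have hr := h.rpos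
  have hqp := q_pos
  have hn : ∀ j : ℕ, ‖1 + fG j z‖ = 1 + (r / q ^ j) ^ (100 * 2 ^ j) := by
    intro j
    have h1 : fG j z = (((r / q ^ j) ^ (100 * 2 ^ j) : ℝ) : ℂ) := by
      unfold fG
      rcases hz with rfl | rfl
      · push_cast; rfl
      · rw [neg_div, Even.neg_pow]
        · push_cast; rfl
        · exact (show Even 100 by decide).mul_right _
    rw [h1]
    have h2 : (1 : ℂ) + (((r / q ^ j) ^ (100 * 2 ^ j) : ℝ) : ℂ) =
      ((1 + (r / q ^ j) ^ (100 * 2 ^ j) : ℝ) : ℂ) := by push_cast; ring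
    rw [h2, Complex.norm_real, Real.norm_of_nonneg]
    positivity
  have hb := exp_le_norm hp (J + 1)
    (fun j => 100 * (2 ^ j * Real.log (r / q ^ j)))
    (fun i => 0) summable_zero ?_ ?_
  · refine le_trans (Real.exp_le_exp.2 ?_) hb
    rw [tsum_zero, add_zero, ← mul_sum, ← h.hA]
  · intro j hj
    rw [hn, exp_N _ (by positivity)]
    linarith
  · intro i
    rw [hn, Real.exp_zero]
    have : 0 ≤ (r / q ^ (i + (J + 1))) ^ (100 * 2 ^ (i + (J + 1))) := by positivity
    linarith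

lemma exp_neg_two_le {x : ℝ} (h0 : 0 ≤ x) (h1 : x ≤ 1 / 2) : Real.exp (-(2 * x)) ≤ 1 - x := by
  have h2 : 2 * x + 1 ≤ Real.exp (2 * x) := Real.add_one_le_exp _
  rw [Real.exp_neg, inv_le_comm₀ (Real.exp_pos _) (by linarith)]
  refine le_trans ?_ h2
  rw [inv_le_iff_one_le_mul₀ (by linarith)]
  nlinarith

/-- general lower bound for the denominator -/
lemma G_min (h : Sit r J t E A) (h1 : q ^ J < r) (h2 : r < q ^ (J + 1)) {z : ℂ} (hz : ‖z‖ = r) :
    Real.exp (100 * A + Real.log (1 - q ^ J / r) + Real.log (1 - t) - 4) ≤ ‖G z‖ := by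
  have hp := G_entire.2 z
  have hqJ : 0 < q ^ J := pow_pos q_pos J
  have hr := h.rpos
  have ht1 : t < 1 := by rw [h.ht, div_lt_one (pow_pos q_pos _)]; exact h2
  have hs1 : q ^ J / r < 1 := by rw [div_lt_one h.rpos]; exact h1
  have hup : ∀ j : ℕ, 1 ≤ r / q ^ j →
      (r / q ^ j) ^ (100 * 2 ^ j) * (1 - q ^ j / r) ≤ ‖1 + fG j z‖ := by
    intro j hj
    set ρ := r / q ^ j with hρ
    have hρ0 : 0 < ρ := by linarith
    have h3 : ρ ^ (100 * 2 ^ j) - 1 ≤ ‖1 + fG j z‖ := by
      have h4 : ‖fG j z‖ = ρ ^ (100 * 2 ^ j) := by rw [fG, norm_pow, norm_div_q, hz]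
      have h5 := norm_sub_norm_le (fG j z) (-1)
      rw [norm_neg, norm_one, h4, sub_neg_eq_add, add_comm (fG j z)] at h5
      exact h5
    refine le_trans ?_ h3
    have h3 : q ^ j / r = 1 / ρ := by rw [hρ]; simp
    rw [h3]
    have h4 : ρ ≤ ρ ^ (100 * 2 ^ j) := by
      calc ρ = ρ ^ 1 := (pow_one ρ).symm
        _ ≤ ρ ^ (100 * 2 ^ j) := pow_le_pow_right₀ hj (Npos j)
    have h6 : 1 ≤ ρ ^ (100 * 2 ^ j) * (1 / ρ) := by
      rw [mul_one_div, one_le_div hρ0]; exact h4
    linarith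
  have hdown : ∀ j : ℕ, r / q ^ j ≤ 1 → 1 - r / q ^ j ≤ ‖1 + fG j z‖ := by
    intro j hj
    have h3 : 0 ≤ r / q ^ j := by have := q_pos; positivity
    have h4 : ‖fG j z‖ = (r / q ^ j) ^ (100 * 2 ^ j) := by rw [fG, norm_pow, norm_div_q, hz]
    have h5 := norm_sub_norm_le (1 : ℂ) (-(fG j z))
    rw [norm_neg, norm_one, h4, sub_neg_eq_add] at h5
    have h6 : (r / q ^ j) ^ (100 * 2 ^ j) ≤ (r / q ^ j) ^ 1 :=
      pow_le_pow_of_le_one h3 hj (Npos _)
    rw [pow_one] at h6
    linarith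
  have hT2 : HasSum (fun i : ℕ => -(2 * (t / q ^ (i + 1)))) (-(2 * (100 / 101 * t))) := by
    have h3 := (hasSum_T (t / q))
    have e1 : (fun i : ℕ => t / q / q ^ i) = (fun i : ℕ => t / q ^ (i + 1)) := by
      funext i
      rw [pow_succ', div_div]
    have e2 : 201 / 101 * (t / q) = 100 / 101 * t := by norm_num [q]; ring
    rw [e1, e2] at h3
    exact (h3.mul_left 2).neg
  have hb := exp_le_norm hp (J + 2)
    (fun j => if j = J + 1 then Real.log (1 - t) else
      (100 * (2 ^ j * Real.log (r / q ^ j)) +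
        (if j = J then Real.log (1 - q ^ J / r) else -(2 * (q ^ j / r)))))
    (fun i => -(2 * (t / q ^ (i + 1)))) hT2.summable ?_ ?_
  · refine le_trans (Real.exp_le_exp.2 ?_) hb
    rw [hT2.tsum_eq, sum_range_succ]
    have h3 : ∑ x ∈ range (J + 1), (if x = J + 1 then Real.log (1 - t) else
      (100 * (2 ^ x * Real.log (r / q ^ x)) +
        (if x = J then Real.log (1 - q ^ J / r) else -(2 * (q ^ x / r)))))
      = ∑ x ∈ range (J + 1), (100 * (2 ^ x * Real.log (r / q ^ x)) +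
        (if x = J then Real.log (1 - q ^ J / r) else -(2 * (q ^ x / r)))) := by
      refine sum_congr rfl ?_
      intro x hx
      rw [if_neg]
      have := mem_range.1 hx
      omega
    rw [h3, sum_add_distrib, ← mul_sum, ← h.hA, sum_range_succ, if_pos rfl, if_pos rfl]
    have h4 : ∑ x ∈ range J, (if x = J then Real.log (1 - q ^ J / r) else -(2 * (q ^ x / r)))
      = -(2 * ∑ x ∈ range J, q ^ x / r) := by
      rw [mul_sum, ← sum_neg_distrib]
      refine sum_congr rfl ?_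
      intro x hx
      rw [if_neg]
      have := mem_range.1 hx
      omega
    rw [h4]
    have h5 := h.sum_qinv'
    have h6 := h.tle
    linarith
  · intro j hj
    by_cases hj1 : j = J + 1
    · rw [if_pos hj1, Real.exp_log (by linarith), hj1]
      have := hdown (J + 1) (by rw [← h.ht]; exact h.tle)
      rwa [← h.ht] at this
    · rw [if_neg hj1]
      have h3 : 1 ≤ r / q ^ j := h.rdiv_ge (by omega)
      have h4 := hup j h3
      by_cases hj2 : j = J
      · rw [if_pos hj2, Real.exp_add, exp_N _ (by linarith), Real.exp_log (by linarith)]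
        rw [hj2] at h4 ⊢
        exact h4
      · rw [if_neg hj2, Real.exp_add, exp_N _ (by linarith)]
        refine le_trans ?_ h4
        have h9 : 2 ≤ r / q ^ j := h.rdiv_ge2 (by omega)
        have h10 : q ^ j / r = (r / q ^ j)⁻¹ := by simp
        have h11 : q ^ j / r ≤ 1 / 2 := by
          rw [h10, inv_le_comm₀ (by linarith) (by norm_num)]; simpa using h9
        have h12 : 0 ≤ q ^ j / r := by have := q_pos; positivity
        have h13 := exp_neg_two_le h12 h11
        gcongr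
  · intro i
    have h11 : r / q ^ (i + (J + 2)) = t / q ^ (i + 1) := by
      have := h.rdiv (i + 1)
      rw [← this]; congr 2; ring
    have h12 : t / q ^ (i + 1) ≤ 1 / 2 := by
      rw [div_le_iff₀ (pow_pos q_pos _)]
      have h13 : q ^ 1 ≤ q ^ (i + 1) := pow_le_pow_right₀ (by linarith [two_lt_q]) (by omega)
      rw [pow_one] at h13
      linarith [two_lt_q]
    have h13 : 0 ≤ t / q ^ (i + 1) := div_nonneg h.tpos.le (pow_pos q_pos _).le
    have h14 := hdown (i + (J + 2)) (by rw [h11]; linarith)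
    rw [h11] at h14
    exact (exp_neg_two_le h13 h12).trans h14

end Sit

lemma log_q_gt : 69 / 100 < Real.log q := by
  have h1 : Real.log 2 ≤ Real.log q := Real.log_le_log (by norm_num) two_lt_q.le
  linarith [Real.log_two_gt_d9]

lemma log_q_eq : Real.log q = Real.log 2 + Real.log (201 / 200) := by
  rw [← Real.log_mul (by norm_num) (by norm_num)]; norm_num [q]

lemma log_small : Real.log (201 / 200) ≤ 1 / 200 := by
  have := Real.log_le_sub_one_of_pos (show (0 : ℝ) < 201 / 200 by norm_num)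
  linarith

lemma log_q_lt : Real.log q < 7 / 10 := by
  rw [log_q_eq]
  linarith [Real.log_two_lt_d9, log_small]

namespace Sit

variable {r : ℝ} {J : ℕ} {t E A : ℝ}

lemma A_sum (L l : ℝ) (J : ℕ) : ∑ j ∈ range (J + 1), (2 : ℝ) ^ j * (L - j * l) =
    (2 ^ (J + 1) - 1) * L - l * ((J - 1) * 2 ^ (J + 1) + 2) := by
  induction J with
  | zero => norm_num
  | succ n ih =>
    rw [sum_range_succ, ih]
    push_cast
    ring

lemma A_eq (h : Sit r J t E A) :
    A = (E - 1) * Real.log t + Real.log q * (2 * E - J - 3) := by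
  have hq := q_pos
  have h1 : A = ∑ j ∈ range (J + 1), (2 : ℝ) ^ j * (Real.log r - j * Real.log q) := by
    rw [h.hA]
    refine sum_congr rfl ?_
    intro j _
    rw [Real.log_div h.rpos.ne' (pow_pos hq _).ne', Real.log_pow]
  have h2 : Real.log t = Real.log r - (J + 1) * Real.log q := by
    rw [h.ht, Real.log_div h.rpos.ne' (pow_pos hq _).ne', Real.log_pow]
    push_cast; ring
  rw [h1, A_sum, h2, h.hE]
  ring

lemma logt_nonpos (h : Sit r J t E A) : Real.log t ≤ 0 :=
  Real.log_nonpos h.tpos.le h.tle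

lemma logt_ge (h : Sit r J t E A) : -Real.log q ≤ Real.log t := by
  have := Real.log_le_log (by have := q_pos; positivity) h.tge
  rwa [one_div, Real.log_inv] at this

lemma A_le (h : Sit r J t E A) : A ≤ E * (3 / 2 * t) := by
  have h1 : A ≤ E * (Real.log t + 2 * Real.log q) := by
    rw [h.A_eq]
    have h2 := h.logt_ge
    have h3 : 0 ≤ Real.log q * J := mul_nonneg (by linarith [log_q_gt]) (Nat.cast_nonneg J)
    have h4 := log_q_gt
    nlinarith
  have h2 : Real.log t + 2 * Real.log q ≤ 3 / 2 * t := by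
    have hq := q_pos
    have ht := h.tpos
    have h3 : Real.log t + 2 * Real.log q = Real.log (q ^ 2 * t / Real.exp 1) + 1 := by
      rw [Real.log_div (by positivity) (Real.exp_pos 1).ne', Real.log_mul (by positivity) ht.ne',
        Real.log_pow, Real.log_exp]
      push_cast; ring
    have h4 := Real.log_le_sub_one_of_pos (show 0 < q ^ 2 * t / Real.exp 1 by positivity)
    have h5 : q ^ 2 * t / Real.exp 1 ≤ 3 / 2 * t := by
      rw [div_le_iff₀ (Real.exp_pos 1)]
      have := Real.exp_one_gt_d9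
      have h6 : q ^ 2 = 40401 / 10000 := by norm_num [q]
      rw [h6]
      nlinarith
    linarith
  have := h.Epos
  calc A ≤ E * (Real.log t + 2 * Real.log q) := h1
    _ ≤ E * (3 / 2 * t) := by gcongr

lemma A_nonneg (h : Sit r J t E A) : 0 ≤ A := by
  rw [h.hA]
  refine sum_nonneg ?_
  intro j hj
  have h1 := h.rdiv_ge (j := j) (by have := mem_range.1 hj; omega)
  exact mul_nonneg (by positivity) (Real.log_nonneg h1)

lemma E_big {J : ℕ} (hJ : 3 ≤ J) : 208 * ((J : ℝ) + 3) + 10 ≤ 100 * 2 ^ (J + 1) := by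
  induction J, hJ using Nat.le_induction with
  | base => norm_num
  | succ n hn ih =>
    rw [pow_succ]
    push_cast at ih ⊢
    have : (3 : ℝ) ≤ n := by exact_mod_cast hn
    linarith

lemma main_num (h : Sit r J t E A) (hJ : 3 ≤ J) :
    14 / 10 * E + 201 * (E * t) + 2 * t + 8 ≤ 297 * A := by
  have hq := q_pos
  have ht := h.tpos
  have hl := log_q_gt
  have hl2 := log_q_lt
  -- log (q t) ≥ 1 - 1/(q t)
  have h1 : 1 - 1 / (q * t) ≤ Real.log q + Real.log t := by
    rw [← Real.log_mul hq.ne' ht.ne']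
    have h2 := Real.log_le_sub_one_of_pos (show 0 < 1 / (q * t) by positivity)
    rw [one_div, Real.log_inv] at h2
    rw [one_div]; linarith
  have hx1 : 1 ≤ q * t := by
    have := h.tge
    rw [div_le_iff₀ hq] at this
    linarith
  have hx2 : q * t ≤ 201 / 100 := by
    have := h.tle
    have h3 : q = 201 / 100 := rfl
    rw [h3] at hq ⊢
    linarith
  set x := q * t with hx
  have h3 : 201 * t = 100 * x := by rw [hx]; norm_num [q]; ring
  have h4 : 14 / 10 + 100 * x + 100 ≤ 297 * (69 / 100 + 1 - 1 / x) := by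
    have h5 : 0 < x := by linarith
    have h6 : 1 / x * x = 1 := by field_simp
    have h7 : 0 ≤ (x - 1) * (201 / 100 - x) := mul_nonneg (by linarith) (by linarith)
    have h8 : (14 / 10 + 100 * x + 100) * x ≤ (297 * (69 / 100 + 1 - 1 / x)) * x := by
      have : (297 * (69 / 100 + 1 - 1 / x)) * x = 297 * (69 / 100 + 1) * x - 297 := by
        linear_combination (-297) * h6
      rw [this]
      nlinarith
    exact le_of_mul_le_mul_right h8 h5
  have hE := h.Epos
  have h5 : E * (14 / 10 + 100 * x + 100) ≤ 297 * (E * (Real.log t + 2 * Real.log q)) := by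
    have h6 : 14 / 10 + 100 * x + 100 ≤ 297 * (Real.log t + 2 * Real.log q) := by linarith
    calc E * (14 / 10 + 100 * x + 100) ≤ E * (297 * (Real.log t + 2 * Real.log q)) := by gcongr
      _ = _ := by ring
  have h6 : E * (Real.log t + 2 * Real.log q) - Real.log q * (J + 3) ≤ A := by
    rw [h.A_eq]
    have := h.logt_nonpos
    nlinarith
  have h7 : Real.log q * (J + 3) ≤ 7 / 10 * (J + 3) := by
    have : (0 : ℝ) ≤ J := Nat.cast_nonneg J
    gcongr
  have h8 := E_big hJ
  rw [← h.hE] at h8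
  have h9 : E * (100 * x) = 201 * (E * t) := by rw [← h3]; ring
  have h10 := h.tle
  have h11 : E * (14 / 10 + 100 * x + 100) = 14 / 10 * E + E * (100 * x) + 100 * E := by ring
  rw [h11, h9] at h5
  have : (0 : ℝ) ≤ J := Nat.cast_nonneg J
  linarith

lemma Et_ge (h : Sit r J t E A) : 49 / 100 * E ≤ E * t := by
  have h1 := h.tge
  have h2 : 49 / 100 ≤ 1 / q := by norm_num [q]
  have := h.Epos
  nlinarith

end Sit

/-- the exponents -/
def ee (j : ℕ) : ℕ := 2 ^ j

lemma ee_eq (j : ℕ) : ee j = 2 ^ j := rfl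

/-- the counterexample -/
noncomputable def f (z : ℂ) : ℂ := F ee z / G z

lemma exists_sit {r : ℝ} (hr : q ^ 3 ≤ r) : ∃ J : ℕ, 3 ≤ J ∧ q ^ J ≤ r ∧ r < q ^ (J + 1) := by
  have h1 : 1 ≤ r := le_trans (one_le_pow₀ (by linarith [two_lt_q])) hr
  obtain ⟨n, hn1, hn2⟩ := exists_nat_pow_near h1 (show (1 : ℝ) < q by linarith [two_lt_q])
  refine ⟨n, ?_, hn1, hn2⟩
  by_contra hlt
  push Not at hlt
  have h2 : q ^ (n + 1) ≤ q ^ 3 := pow_le_pow_right₀ (by linarith [two_lt_q]) (by omega)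
  linarith

lemma mk_sit {r : ℝ} {J : ℕ} (h1 : q ^ J ≤ r) (h2 : r ≤ q ^ (J + 1)) :
    Sit r J (r / q ^ (J + 1)) (2 ^ (J + 1)) (∑ j ∈ range (J + 1), 2 ^ j * Real.log (r / q ^ j)) where
  rpos := lt_of_lt_of_le (pow_pos q_pos J) h1
  hlo := h1
  hhi := h2
  ht := rfl
  hE := rfl
  hA := rfl

/-- `F` vanishes at `q ^ j`. -/
lemma F_zero (e : ℕ → ℕ) (he : ∀ j, e j ≤ 2 ^ j) (j : ℕ) (hj : e j ≠ 0) :
    F e ((q : ℂ) ^ j) = 0 := by
  have hp := (F_entire e he).2 ((q : ℂ) ^ j)
  have h0 : 1 + fF e j ((q : ℂ) ^ j) = 0 := by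
    have h1 : (q : ℂ) ^ j ≠ 0 := pow_ne_zero _ q_ne
    simp [fF, h1, hj]
  have ht := hp.tendsto_prod_nat
  have h2 : ∀ᶠ n : ℕ in atTop, ∏ i ∈ range n, (1 + fF e i ((q : ℂ) ^ j)) = 0 := by
    filter_upwards [eventually_gt_atTop j] with n hn
    exact prod_eq_zero (mem_range.2 hn) h0
  exact tendsto_nhds_unique (tendsto_const_nhds.congr' (h2.mono fun n hn => hn.symm)) ht |>.symm

lemma f_zero (j : ℕ) : f ((q : ℂ) ^ j) = 0 := by
  rw [f, F_zero ee (fun j => le_rfl) j (by simp [ee]), zero_div]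

lemma hee (j : ℕ) : ee j ≤ 2 ^ j := le_rfl

lemma F_diff : Differentiable ℂ (F ee) := (F_entire ee hee).1

lemma F_mero : Meromorphic (F ee) := fun z => (F_diff.analyticAt z).meromorphicAt

lemma G_mero : Meromorphic G := fun z => (G_entire.1.analyticAt z).meromorphicAt

lemma F_at_zero (e : ℕ → ℕ) : F e 0 = 1 := by
  unfold F fF
  simp

lemma G_at_zero : G 0 = 1 := by
  unfold G fG
  simp

lemma order_ne_top_of_ne {g : ℂ → ℂ} (hg : Differentiable ℂ g) (h0 : g 0 ≠ 0) (z : ℂ) :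
    meromorphicOrderAt g z ≠ ⊤ := by
  have hm : MeromorphicOn g Set.univ := fun z _ => (hg.analyticAt z).meromorphicAt
  refine hm.meromorphicOrderAt_ne_top_of_isPreconnected (x := 0) isPreconnected_univ trivial
    trivial ?_
  rw [meromorphicOrderAt_ne_top_iff_eventually_ne_zero (hm 0 trivial)]
  exact ((hg 0).continuousAt.eventually_ne h0).filter_mono nhdsWithin_le_nhds

lemma F_order (z : ℂ) : meromorphicOrderAt (F ee) z ≠ ⊤ :=
  order_ne_top_of_ne F_diff (by rw [F_at_zero]; exact one_ne_zero) z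

lemma G_order (z : ℂ) : meromorphicOrderAt G z ≠ ⊤ :=
  order_ne_top_of_ne G_entire.1 (by rw [G_at_zero]; exact one_ne_zero) z

lemma Ginv_order (z : ℂ) : meromorphicOrderAt G⁻¹ z ≠ ⊤ := by
  rw [meromorphicOrderAt_inv]
  have := G_order z
  simpa using this

lemma f_eq : f = F ee * G⁻¹ := by
  funext z
  simp [f, div_eq_mul_inv]

lemma f_mero : Meromorphic f := by
  rw [f_eq]; exact F_mero.mul G_mero.inv

lemma logCounting_top_entire {g : ℂ → ℂ} (hg : Differentiable ℂ g) :
    ValueDistribution.logCounting g ⊤ = 0 := by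
  rw [ValueDistribution.logCounting_top]
  have h1 : 0 ≤ MeromorphicOn.divisor g Set.univ :=
    MeromorphicOn.AnalyticOnNhd.divisor_nonneg (fun z _ => hg.analyticAt z)
  rw [negPart_eq_zero.2 h1, map_zero]

lemma G_count {r : ℝ} (hr : 0 < r) {B : ℝ} (hB : 0 ≤ B)
    (hb : ∀ z : ℂ, ‖z‖ = r → ‖G z‖ ≤ Real.exp B) :
    ValueDistribution.logCounting G 0 r ≤ B := by
  have h1 := ValueDistribution.logCounting_zero_sub_logCounting_top_eq_circleAverage_sub_const
    G_mero hr.ne'
  rw [Pi.sub_apply, logCounting_top_entire G_entire.1,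
    (G_entire.1.analyticAt 0).meromorphicTrailingCoeffAt_of_ne_zero
      (by rw [G_at_zero]; exact one_ne_zero), G_at_zero] at h1
  simp only [Pi.zero_apply, sub_zero, norm_one, Real.log_one] at h1
  rw [h1]
  refine Real.circleAverage_mono_on_of_le_circle ?_ ?_
  · exact MeromorphicOn.circleIntegrable_log_norm (fun z _ => G_mero z)
  · intro z hz
    have hz' : ‖z‖ = r := by simpa [abs_of_pos hr] using hz
    by_cases h0 : ‖G z‖ = 0
    · simpa [h0] using hB
    · have h2 : 0 < ‖G z‖ := lt_of_le_of_ne (norm_nonneg _) (Ne.symm h0)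
      rw [Real.log_le_iff_le_exp h2]
      exact hb z hz'

lemma f_count {r : ℝ} (hr : 1 ≤ r) :
    ValueDistribution.logCounting f ⊤ r ≤ ValueDistribution.logCounting G 0 r := by
  have h1 := ValueDistribution.logCounting_mul_top_le hr F_mero F_order G_mero.inv Ginv_order
  rw [← f_eq, Pi.add_apply, logCounting_top_entire F_diff, ValueDistribution.logCounting_inv] at h1
  simpa using h1

lemma prox_le {g : ℂ → ℂ} (hg : Meromorphic g) {r : ℝ} (hr : 0 < r) {B : ℝ} (hB : 0 ≤ B)
    (hb : ∀ z : ℂ, ‖z‖ = r → ‖g z‖ ≤ Real.exp B) :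
    ValueDistribution.proximity g ⊤ r ≤ B := by
  rw [ValueDistribution.proximity_top]
  refine Real.circleAverage_mono_on_of_le_circle ?_ ?_
  · exact MeromorphicOn.circleIntegrable_posLog_norm (fun z _ => hg z)
  · intro z hz
    have hz' : ‖z‖ = r := by simpa [abs_of_pos hr] using hz
    rw [Real.posLog_def]
    refine max_le hB ?_
    by_cases h0 : ‖g z‖ = 0
    · simpa [h0] using hB
    · have h2 : 0 < ‖g z‖ := lt_of_le_of_ne (norm_nonneg _) (Ne.symm h0)
      rw [Real.log_le_iff_le_exp h2]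
      exact hb z hz'

lemma char_inv_bound {g : ℂ → ℂ} (hg : Meromorphic g) :
    ∃ C : ℝ, 0 ≤ C ∧ ∀ r : ℝ, |ValueDistribution.characteristic g ⊤ r -
      ValueDistribution.characteristic g⁻¹ ⊤ r| ≤ C :=
  ⟨max |Real.log ‖g 0‖| |Real.log ‖meromorphicTrailingCoeffAt g 0‖|,
    le_max_of_le_left (abs_nonneg _),
    fun _ => ValueDistribution.characteristic_sub_characteristic_inv_le hg⟩

/-- upper bound for the characteristic -/
lemma char_upper : ∃ C : ℝ, 0 ≤ C ∧ ∀ r : ℝ, ∀ J : ℕ, q ^ J ≤ r → r ≤ q ^ (J + 1) →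
    ValueDistribution.characteristic f ⊤ r ≤ 400 * 2 ^ (J + 1) + C := by
  obtain ⟨C, hC0, hC⟩ := char_inv_bound G_mero
  refine ⟨C + 4, by linarith, ?_⟩
  intro r J h1 h2
  have h := mk_sit h1 h2
  set E : ℝ := 2 ^ (J + 1) with hE
  set t := r / q ^ (J + 1) with ht
  set A := ∑ j ∈ range (J + 1), 2 ^ j * Real.log (r / q ^ j) with hA
  have hr1 : 1 ≤ r := le_trans (one_le_pow₀ (by linarith [two_lt_q])) h1
  have h3 := ValueDistribution.characteristic_mul_top_le hr1 F_mero F_order G_mero.inv Ginv_order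
  rw [← f_eq, Pi.add_apply] at h3
  have hA0 := h.A_nonneg
  have hE0 := h.Epos
  have ht0 := h.tpos
  have ht1 := h.tle
  have h4 : ValueDistribution.characteristic (F ee) ⊤ r ≤ A + 7 / 10 * E + 201 * (E * t) := by
    rw [ValueDistribution.characteristic, Pi.add_apply, logCounting_top_entire F_diff]
    simp only [Pi.zero_apply, add_zero]
    exact prox_le F_mero h.rpos (by positivity) (fun z hz => h.F_upper ee ee_eq hz)
  have h5 : ValueDistribution.characteristic G ⊤ r ≤ 100 * A + 4 := by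
    rw [ValueDistribution.characteristic, Pi.add_apply, logCounting_top_entire G_entire.1]
    simp only [Pi.zero_apply, add_zero]
    exact prox_le G_mero h.rpos (by positivity) (fun z hz => h.G_upper hz)
  have h6 := hC r
  rw [abs_sub_le_iff] at h6
  have h7 := h.A_le
  have h8 : E * t ≤ E := by nlinarith
  have h9 : E * (3 / 2 * t) = 3 / 2 * (E * t) := by ring
  linarith [h6.1, h6.2]

/-- exponents with one removed -/
def er (J : ℕ) (j : ℕ) : ℕ := if j = J then 0 else 2 ^ j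

lemma er_le (J j : ℕ) : er J j ≤ 2 ^ j := by
  unfold er; split_ifs
  · exact Nat.zero_le _
  · exact le_rfl

lemma fac_split (J j : ℕ) (z : ℂ) : (if j = J then (1 + fF ee j z) else 1) *
      (1 + fF (er J) j z) = 1 + fF ee j z := by
  by_cases hj : j = J
  · rw [if_pos hj]
    have : fF (er J) j z = 0 := by rw [fF, er, if_pos hj, pow_zero, sub_self]
    rw [this, add_zero, mul_one]
  · rw [if_neg hj, one_mul]
    have : fF (er J) j z = fF ee j z := by rw [fF, fF, er, if_neg hj, ee]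
    rw [this]

lemma F_split_at (J : ℕ) (z : ℂ) : F ee z = (1 + fF ee J z) * F (er J) z := by
  have hp := (F_entire ee hee).2 z
  have hp' := (F_entire _ (er_le J)).2 z
  have hs : HasProd (fun j => if j = J then (1 + fF ee j z) else 1) (1 + fF ee J z) := by
    have h0 := hasProd_single (f := fun j => if j = J then (1 + fF ee j z) else 1) J
      (fun j hj => if_neg hj)
    simpa using h0
  have hm := hs.mul hp'
  have heq : (fun j => (if j = J then (1 + fF ee j z) else 1) *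
      (1 + fF (er J) j z)) = fun j => 1 + fF ee j z := by
    funext j
    exact fac_split J j z
  rw [heq] at hm
  exact hp.unique hm

/-- product with one factor removed -/
lemma F_split (J : ℕ) : F ee = (fun z => (z - (q : ℂ) ^ J) ^ (2 ^ J)) *
    (fun z => (-1 / (q : ℂ) ^ J) ^ (2 ^ J) * F (er J) z) := by
  funext z
  rw [F_split_at J z, Pi.mul_apply]
  have hq : (q : ℂ) ^ J ≠ 0 := pow_ne_zero _ q_ne
  have h2 : 1 + fF ee J z = ((z - (q : ℂ) ^ J) * (-1 / (q : ℂ) ^ J)) ^ (2 ^ J) := by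
    rw [fF, add_sub_cancel, ee]
    congr 1
    generalize (q : ℂ) ^ J = c at hq
    field_simp
    ring
  rw [h2, mul_pow]
  ring

lemma q_pow_cast (J : ℕ) : ((q ^ J : ℝ) : ℂ) = (q : ℂ) ^ J := by push_cast; rfl

lemma order_zero_of_ne {g : ℂ → ℂ} {x : ℂ} (hg : AnalyticAt ℂ g x) (h0 : g x ≠ 0) :
    meromorphicOrderAt g x = 0 := by
  rw [hg.meromorphicOrderAt_eq, hg.analyticOrderAt_eq_zero.2 h0]
  rfl

lemma order_nonneg {g : ℂ → ℂ} {x : ℂ} (hg : AnalyticAt ℂ g x) :
    0 ≤ meromorphicOrderAt g x := hg.meromorphicOrderAt_nonneg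

lemma f_order_ge (J : ℕ) : ((2 ^ J : ℕ) : ℤ) ≤ MeromorphicOn.divisor f Set.univ ((q : ℂ) ^ J) := by
  have hd' := (F_entire _ (er_le J)).1
  set x : ℂ := (q : ℂ) ^ J with hx
  rw [MeromorphicOn.divisor_apply (fun z _ => f_mero z) (Set.mem_univ x)]
  set g : ℂ → ℂ := fun z => (-1 / (q : ℂ) ^ J) ^ (2 ^ J) * F (er J) z with hg
  have hgd : Differentiable ℂ g := (differentiable_const _).mul hd'
  have hG : G x ≠ 0 := by
    have h := (mk_sit (r := q ^ J) (J := J) le_rfl
      (pow_le_pow_right₀ (by linarith [two_lt_q]) (by omega))).G_lower x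
      (Or.inl (by rw [q_pow_cast]))
    intro h0
    rw [h0, norm_zero] at h
    exact absurd h (not_le.2 (Real.exp_pos _))
  have hGord : meromorphicOrderAt G x = 0 := order_zero_of_ne (G_entire.1.analyticAt x) hG
  have hford : meromorphicOrderAt f x = ((2 ^ J : ℕ) : ℤ) + meromorphicOrderAt g x := by
    rw [f_eq, meromorphicOrderAt_mul (F_mero x) (G_mero x).inv, meromorphicOrderAt_inv, hGord,
      F_split J, meromorphicOrderAt_mul (by fun_prop) (hgd.analyticAt x).meromorphicAt,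
      fun_meromorphicOrderAt_pow_id_sub_const, neg_zero, add_zero]
    rfl
  have hg0 := order_nonneg (hgd.analyticAt x)
  have hne : meromorphicOrderAt f x ≠ ⊤ := by
    rw [f_eq, meromorphicOrderAt_mul (F_mero x) (G_mero x).inv]
    exact WithTop.add_ne_top.2 ⟨F_order x, Ginv_order x⟩
  have hge : ((((2 ^ J : ℕ) : ℤ)) : WithTop ℤ) ≤ meromorphicOrderAt f x := by
    rw [hford]
    exact le_add_of_nonneg_right hg0
  rw [← WithTop.coe_untop₀_of_ne_top hne] at hge
  exact WithTop.coe_le_coe.1 hge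

/-- lower bound for the characteristic -/
lemma char_lower : ∃ C : ℝ, 0 ≤ C ∧ ∀ r : ℝ, ∀ J : ℕ, q ^ (J + 1) ≤ r →
    2 ^ J * (69 / 100) - C ≤ ValueDistribution.characteristic f ⊤ r := by
  classical
  obtain ⟨C, hC0, hC⟩ := char_inv_bound f_mero
  refine ⟨C, hC0, ?_⟩
  intro r J h1
  have hq1 : (1 : ℝ) < q := by linarith [two_lt_q]
  have hr1 : 1 ≤ r := le_trans (one_le_pow₀ hq1.le) h1
  have hqJ : 0 < q ^ J := pow_pos q_pos J
  have h2 : ValueDistribution.logCounting f 0 r ≤ ValueDistribution.characteristic f⁻¹ ⊤ r := by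
    rw [ValueDistribution.characteristic, Pi.add_apply, ValueDistribution.logCounting_inv]
    have := ValueDistribution.proximity_nonneg (f := f⁻¹) (a := ⊤) r
    simp only [Pi.zero_apply] at this
    linarith
  have h3 : (2 : ℝ) ^ J * (69 / 100) ≤ ValueDistribution.logCounting f 0 r := by
    rw [ValueDistribution.logCounting_zero]
    have h4 : Function.locallyFinsuppWithin.single ((q : ℂ) ^ J) (((2 ^ J : ℕ) : ℤ)) ≤
        (MeromorphicOn.divisor f Set.univ)⁺ := by
      intro z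
      rw [Function.locallyFinsuppWithin.single_apply]
      split_ifs with hz
      · rw [hz]
        refine le_trans (f_order_ge J) ?_
        exact le_posPart (MeromorphicOn.divisor f Set.univ) _
      · exact posPart_nonneg (MeromorphicOn.divisor f Set.univ) z
    have h5 := Function.locallyFinsuppWithin.logCounting_le h4 hr1
    have hnorm : ‖(q : ℂ) ^ J‖ = q ^ J := by
      rw [norm_pow, Complex.norm_real, Real.norm_of_nonneg q_pos.le]
    have hle : q ^ J ≤ r := (pow_le_pow_right₀ hq1.le (by omega)).trans h1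
    rw [Function.locallyFinsuppWithin.logCounting_single_eq_log_sub_const (by rw [hnorm]; exact hle),
      hnorm] at h5
    refine le_trans ?_ h5
    have h6 : Real.log q ≤ Real.log r - Real.log (q ^ J) := by
      rw [← Real.log_div (by linarith) hqJ.ne']
      apply Real.log_le_log q_pos
      rw [le_div_iff₀ hqJ]
      calc q * q ^ J = q ^ (J + 1) := by ring
        _ ≤ r := h1
    push_cast
    have := log_q_gt
    gcongr
    linarith
  have h7 := hC r
  rw [abs_sub_le_iff] at h7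
  linarith [h7.1, h7.2]

/-- circles free of zeros and poles -/
def Good (r : ℝ) : Prop := ∀ z : ℂ, ‖z‖ = r → AnalyticAt ℂ f z ∧ f z ≠ 0

noncomputable def SS (r : ℝ) : ℝ := sSup ((fun z => ‖f z‖) '' Metric.sphere (0 : ℂ) r)
noncomputable def II (r : ℝ) : ℝ := sInf ((fun z => ‖f z‖) '' Metric.sphere (0 : ℂ) r)

lemma cont_on {r : ℝ} (hg : Good r) :
    ContinuousOn (fun z => ‖f z‖) (Metric.sphere (0 : ℂ) r) := by
  intro z hz
  have hz' : ‖z‖ = r := by simpa using hz
  exact (hg z hz').1.continuousAt.norm.continuousWithinAt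

lemma II_pos {r : ℝ} (hr : 0 < r) (hg : Good r) : 0 < II r := by
  have hc : IsCompact (Metric.sphere (0 : ℂ) r) := isCompact_sphere _ _
  have hne : (Metric.sphere (0 : ℂ) r).Nonempty := ⟨(r : ℂ), by simp [abs_of_pos hr]⟩
  obtain ⟨z, hz, hzm⟩ := hc.exists_sInf_image_eq hne (cont_on hg)
  have hz' : ‖z‖ = r := by simpa using hz
  rw [II, hzm]
  exact norm_pos_iff.2 (hg z hz').2

lemma II_le {r : ℝ} (z : ℂ) (hz : ‖z‖ = r) : II r ≤ ‖f z‖ := by
  refine csInf_le ⟨0, ?_⟩ ⟨z, by simpa using hz, rfl⟩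
  rintro _ ⟨w, _, rfl⟩
  exact norm_nonneg _

lemma le_SS {r : ℝ} (hg : Good r) (z : ℂ) (hz : ‖z‖ = r) : ‖f z‖ ≤ SS r := by
  have hc : IsCompact (Metric.sphere (0 : ℂ) r) := isCompact_sphere _ _
  exact le_csSup (hc.bddAbove_image (cont_on hg)) ⟨z, by simpa using hz, rfl⟩

lemma SS_le {r : ℝ} (hr : 0 < r) {B : ℝ} (h : ∀ z : ℂ, ‖z‖ = r → ‖f z‖ ≤ B) : SS r ≤ B := by
  refine csSup_le ⟨_, (r : ℂ), by simp [abs_of_pos hr], rfl⟩ ?_
  rintro _ ⟨w, hw, rfl⟩
  exact h w (by simpa using hw)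

lemma norm_f (z : ℂ) : ‖f z‖ = ‖F ee z‖ / ‖G z‖ := norm_div _ _

/-- the main estimates on a good circle -/
lemma main_est {r : ℝ} {J : ℕ} (hJ : 3 ≤ J) (h1 : q ^ J ≤ r) (h2 : r < q ^ (J + 1))
    (hg : Good r) :
    (2 : ℝ) ^ (J + 1) ≤ Real.log (SS r) ∧
    Real.log (II r) ≤ -2 * Real.log (SS r) ∧
    ValueDistribution.logCounting f ⊤ r ≤ 5 * Real.log (SS r) := by
  have h := mk_sit h1 h2.le
  set E : ℝ := 2 ^ (J + 1) with hE
  set t := r / q ^ (J + 1) with ht
  set A := ∑ j ∈ range (J + 1), 2 ^ j * Real.log (r / q ^ j) with hA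
  have hr := h.rpos
  have hr1 : 1 ≤ r := le_trans (one_le_pow₀ (by linarith [two_lt_q])) h1
  have hE0 := h.Epos
  have ht0 := h.tpos
  have ht1 := h.tle
  have hA0 := h.A_nonneg
  have hAle := h.A_le
  have hEt := h.Et_ge
  have hE16 : 16 ≤ E := by
    have : (2 : ℝ) ^ 4 ≤ 2 ^ (J + 1) := pow_le_pow_right₀ (by norm_num) (by omega)
    rw [hE]; linarith
  -- the circle is not one of the exceptional circles
  have h1' : q ^ J < r := by
    rcases h1.lt_or_eq with h3 | h3
    · exact h3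
    · exfalso
      have h4 := (hg ((q : ℂ) ^ J) (by
        rw [norm_pow, Complex.norm_real, Real.norm_of_nonneg q_pos.le]; exact h3)).2
      exact h4 (f_zero J)
  have ht1' : t < 1 := by rw [ht, div_lt_one (pow_pos q_pos _)]; exact h2
  have hs1 : q ^ J / r < 1 := by rw [div_lt_one hr]; exact h1'
  have hs0 : 0 < q ^ J / r := div_pos (pow_pos q_pos _) hr
  set σ := Real.log (1 - q ^ J / r) with hσ
  set τ := Real.log (1 - t) with hτ
  have hσ0 : σ ≤ 0 := Real.log_nonpos (by linarith) (by linarith)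
  have hτ0 : τ ≤ -t := by
    have := Real.log_le_sub_one_of_pos (show 0 < 1 - t by linarith)
    linarith
  -- lower bound for the maximum
  have hlow : 200 * (E * t) - 99 * A - 4 ≤ Real.log (SS r) := by
    have h3 : ‖(-(r : ℂ))‖ = r := by rw [norm_neg, Complex.norm_real, Real.norm_of_nonneg hr.le]
    have h4 := h.F_lower ee ee_eq
    have h5 := h.G_upper h3
    have h6 := le_SS hg (-(r : ℂ)) h3
    rw [norm_f] at h6
    have h7 : 0 < ‖G (-(r : ℂ))‖ := by
      have := h.G_lower (-(r : ℂ)) (Or.inr rfl)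
      exact lt_of_lt_of_le (Real.exp_pos _) this
    have h8 : Real.exp (200 * (E * t) - 99 * A - 4) ≤ SS r := by
      refine le_trans ?_ h6
      rw [le_div_iff₀ h7]
      calc Real.exp (200 * (E * t) - 99 * A - 4) * ‖G (-(r : ℂ))‖
          ≤ Real.exp (200 * (E * t) - 99 * A - 4) * Real.exp (100 * A + 4) := by gcongr
        _ = Real.exp (A + 200 * (E * t)) := by rw [← Real.exp_add]; ring_nf
        _ ≤ _ := h4
    rwa [Real.le_log_iff_exp_le (lt_of_lt_of_le (Real.exp_pos _) h8)]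
  -- upper bound for the maximum
  have hup : Real.log (SS r) ≤ -99 * A + 7 / 10 * E + 201 * (E * t) - σ - τ + 4 := by
    have h3 : SS r ≤ Real.exp (-99 * A + 7 / 10 * E + 201 * (E * t) - σ - τ + 4) := by
      refine SS_le hr ?_
      intro z hz
      have h4 := h.F_upper ee ee_eq hz
      have h5 := h.G_min h1' h2 hz
      have h6 : 0 < ‖G z‖ := lt_of_lt_of_le (Real.exp_pos _) h5
      rw [norm_f, div_le_iff₀ h6]
      calc ‖F ee z‖ ≤ Real.exp (A + 7 / 10 * E + 201 * (E * t)) := h4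
        _ = Real.exp (-99 * A + 7 / 10 * E + 201 * (E * t) - σ - τ + 4) *
            Real.exp (100 * A + σ + τ - 4) := by rw [← Real.exp_add]; ring_nf
        _ ≤ _ := by gcongr
    have h4 : 0 < SS r := by
      have h3 : ‖(r : ℂ)‖ = r := by rw [Complex.norm_real, Real.norm_of_nonneg hr.le]
      exact lt_of_lt_of_le (norm_pos_iff.2 (hg (r : ℂ) h3).2) (le_SS hg (r : ℂ) h3)
    rwa [Real.log_le_iff_le_exp h4]
  -- upper bound for the minimum
  have hmin : Real.log (II r) ≤ -99 * A + E / 2 * σ + E * τ - 200 * (E * t) := by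
    have h3 : ‖(r : ℂ)‖ = r := by rw [Complex.norm_real, Real.norm_of_nonneg hr.le]
    have h4 := h.F_pos h1' h2 ee ee_eq
    have h5 := h.G_lower (r : ℂ) (Or.inl rfl)
    have h6 : 0 < ‖G (r : ℂ)‖ := lt_of_lt_of_le (Real.exp_pos _) h5
    rw [Real.log_le_iff_le_exp (II_pos hr hg)]
    refine (II_le (r : ℂ) h3).trans ?_
    rw [norm_f, div_le_iff₀ h6]
    calc ‖F ee (r : ℂ)‖ ≤ Real.exp (A + E / 2 * σ + E * τ - 200 * (E * t)) := h4
      _ = Real.exp (-99 * A + E / 2 * σ + E * τ - 200 * (E * t)) * Real.exp (100 * A) := by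
          rw [← Real.exp_add]; ring_nf
      _ ≤ _ := by gcongr
  have hEt2 : E * (3 / 2 * t) = 3 / 2 * (E * t) := by ring
  rw [hEt2] at hAle
  refine ⟨?_, ?_, ?_⟩
  · linarith
  · have h3 := h.main_num hJ
    have h4 : (E / 2 - 2) * σ ≤ 0 := mul_nonpos_of_nonneg_of_nonpos (by linarith) hσ0
    have h5 : (E - 2) * τ ≤ (E - 2) * (-t) := by
      have : 0 ≤ E - 2 := by linarith
      gcongr
    linarith
  · have h3 : ValueDistribution.logCounting f ⊤ r ≤ 100 * A + 4 :=
      (f_count hr1).trans (G_count hr (by positivity) (fun z hz => h.G_upper hz))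
    linarith

/-- the order -/
noncomputable def lm : ℝ := Real.log 2 / Real.log q

lemma lm_pos : 0 < lm := div_pos (Real.log_pos (by norm_num)) (by linarith [log_q_gt])

lemma one_sub_lm : 1 - lm ≤ 73 / 10000 := by
  have h1 := log_q_gt
  have h2 := log_small
  have h3 := log_q_eq
  rw [lm, sub_le_iff_le_add, ← sub_le_iff_le_add', le_div_iff₀ (by linarith)]
  nlinarith

lemma lm_lt : lm < 1 := by
  rw [lm, div_lt_one (by linarith [log_q_gt])]
  exact Real.log_lt_log (by norm_num) two_lt_q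

lemma q_rpow (n : ℕ) : (q ^ n : ℝ) ^ lm = 2 ^ n := by
  have h1 : q ^ lm = 2 := by
    rw [Real.rpow_def_of_pos q_pos, lm, mul_div_cancel₀ _ (by linarith [log_q_gt]),
      Real.exp_log (by norm_num)]
  rw [← Real.rpow_natCast, ← Real.rpow_mul q_pos.le, mul_comm, Real.rpow_mul q_pos.le, h1,
    Real.rpow_natCast]

lemma rpow_le {r : ℝ} (hr : 0 < r) {J : ℕ} (h : r ≤ q ^ (J + 1)) : r ^ lm ≤ 2 ^ (J + 1) := by
  rw [← q_rpow]
  exact Real.rpow_le_rpow hr.le h lm_pos.le

lemma le_rpow {r : ℝ} {J : ℕ} (h : q ^ J ≤ r) : 2 ^ J ≤ r ^ lm := by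
  rw [← q_rpow]
  exact Real.rpow_le_rpow (pow_pos q_pos _).le h lm_pos.le

lemma sin_cos_num : -2 + Real.pi * lm * Real.sin (Real.pi * lm) * 5 < Real.cos (Real.pi * lm) := by
  have hp := Real.pi_pos
  have hp2 := Real.pi_lt_d2
  have h1 := one_sub_lm
  have h2 := lm_pos
  have h3 := lm_lt
  have h4 : Real.sin (Real.pi * lm) ≤ Real.pi * (1 - lm) := by
    have h5 : Real.sin (Real.pi * lm) = Real.sin (Real.pi * (1 - lm)) := by
      rw [← Real.sin_pi_sub]; ring_nf
    rw [h5]
    exact Real.sin_le (mul_nonneg hp.le (by linarith))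
  have h5 := Real.neg_one_le_cos (Real.pi * lm)
  have h6 : Real.pi * lm * Real.sin (Real.pi * lm) ≤ 3.15 * 1 * (3.15 * (73 / 10000)) := by
    calc Real.pi * lm * Real.sin (Real.pi * lm) ≤ Real.pi * lm * (Real.pi * (1 - lm)) := by gcongr
      _ ≤ 3.15 * 1 * (3.15 * (73 / 10000)) := by
        have : 0 ≤ 1 - lm := by linarith
        gcongr
  nlinarith

lemma eventually_sit : ∀ᶠ r : ℝ in atTop, ∃ J : ℕ, 3 ≤ J ∧ q ^ J ≤ r ∧ r < q ^ (J + 1) := by
  filter_upwards [eventually_ge_atTop (q ^ 3)] with r hr using exists_sit hr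

lemma tendsto_rpow_lm : Tendsto (fun r : ℝ => r ^ lm) atTop atTop := tendsto_rpow_atTop lm_pos

lemma char_two_sided : ∃ c C : ℝ, 0 < c ∧ 0 < C ∧ ∀ᶠ r : ℝ in atTop,
    c * r ^ lm ≤ ValueDistribution.characteristic f ⊤ r ∧
    ValueDistribution.characteristic f ⊤ r ≤ C * r ^ lm := by
  obtain ⟨C1, hC1, h1⟩ := char_upper
  obtain ⟨C2, hC2, h2⟩ := char_lower
  refine ⟨1 / 8, 801, by norm_num, by norm_num, ?_⟩
  filter_upwards [eventually_sit, tendsto_rpow_lm.eventually_ge_atTop C1,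
    tendsto_rpow_lm.eventually_ge_atTop (100 * C2)] with r ⟨J, hJ, hJ1, hJ2⟩ hr1 hr2
  have hr0 : 0 < r := lt_of_lt_of_le (pow_pos q_pos J) hJ1
  have h3 := h1 r J hJ1 hJ2.le
  have h4 := le_rpow hJ1
  have h5 := rpow_le hr0 hJ2.le
  obtain ⟨K, rfl⟩ : ∃ K, J = K + 1 := ⟨J - 1, by omega⟩
  have h6 := h2 r K hJ1
  rw [pow_succ] at h3 h5
  rw [pow_succ] at h3 h4 h5
  constructor
  · linarith
  · linarith

lemma order_cond : ∀ ε : ℝ, 0 < ε →
        (∀ᶠ r in Filter.atTop,
            (lm - ε) * Real.log r ≤ Real.log (ValueDistribution.characteristic f ⊤ r)) ∧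
        (∃ᶠ r in Filter.atTop,
            Real.log (ValueDistribution.characteristic f ⊤ r) ≤ (lm + ε) * Real.log r) := by
  intro ε hε
  obtain ⟨c, C, hc, hC, h⟩ := char_two_sided
  constructor
  · filter_upwards [h, Real.tendsto_log_atTop.eventually_ge_atTop (-Real.log c / ε),
      eventually_gt_atTop 0] with r ⟨h1, h2⟩ h3 h4
    have h5 : 0 < c * r ^ lm := by positivity
    have h6 := Real.log_le_log h5 h1
    rw [Real.log_mul hc.ne' (by positivity), Real.log_rpow h4] at h6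
    rw [div_le_iff₀ hε] at h3
    linarith
  · refine Eventually.frequently ?_
    filter_upwards [h, Real.tendsto_log_atTop.eventually_ge_atTop (Real.log C / ε),
      eventually_gt_atTop 0] with r ⟨h1, h2⟩ h3 h4
    have h5 : 0 < c * r ^ lm := by positivity
    have h6 := Real.log_le_log (lt_of_lt_of_le h5 h1) h2
    rw [Real.log_mul hC.ne' (by positivity), Real.log_rpow h4] at h6
    rw [div_le_iff₀ hε] at h3
    linarith

lemma growth_cond : ∀ ε : ℝ, 0 < ε → ∀ᶠ r in Filter.atTop,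
        (∀ z : ℂ, ‖z‖ = r → AnalyticAt ℂ f z ∧ f z ≠ 0) →
          Real.log r ≤ ε * Real.log (sSup ((fun z => ‖f z‖) '' Metric.sphere (0 : ℂ) r)) := by
  intro ε hε
  have h1 := (isLittleO_log_rpow_atTop lm_pos).def hε
  filter_upwards [h1, eventually_sit, eventually_gt_atTop 0] with r h2 ⟨J, hJ, hJ1, hJ2⟩ h4 hg
  have h5 := (main_est hJ hJ1 hJ2 hg).1
  have h6 := rpow_le h4 hJ2.le
  rw [Real.norm_of_nonneg (show 0 ≤ r ^ lm by positivity)] at h2
  have h7 := le_trans (le_abs_self _) h2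
  refine h7.trans ?_
  have h8 : r ^ lm ≤ Real.log (SS r) := h6.trans h5
  change ε * r ^ lm ≤ ε * Real.log (SS r)
  gcongr

/-- The negation of the preceding statement: Every meromorphic f on ℂ of lower order λ in [1/2,1) with log r = o(log M(r,f)) satisfies limsup log m0/log M + πλ sin(πλ) limsup N(r,f)/log M ≥ cos(πλ), with r over circles free of zeros and poles. -/
theorem result :
    ¬ (∀ (f : ℂ → ℂ) (lam : ℝ), MeromorphicOn f Set.univ → 1 / 2 ≤ lam → lam < 1 →
      (∀ ε : ℝ, 0 < ε →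
        (∀ᶠ r in Filter.atTop,
            (lam - ε) * Real.log r ≤ Real.log (ValueDistribution.characteristic f ⊤ r)) ∧
        (∃ᶠ r in Filter.atTop,
            Real.log (ValueDistribution.characteristic f ⊤ r) ≤ (lam + ε) * Real.log r)) →
      (∀ ε : ℝ, 0 < ε → ∀ᶠ r in Filter.atTop,
        (∀ z : ℂ, ‖z‖ = r → AnalyticAt ℂ f z ∧ f z ≠ 0) →
          Real.log r ≤ ε * Real.log (sSup ((fun z => ‖f z‖) '' Metric.sphere (0 : ℂ) r))) →
      ∀ a b : ℝ,
        a + Real.pi * lam * Real.sin (Real.pi * lam) * b < Real.cos (Real.pi * lam) →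
        ∃ᶠ r in Filter.atTop,
          (∀ z : ℂ, ‖z‖ = r → AnalyticAt ℂ f z ∧ f z ≠ 0) ∧
          (a < Real.log (sInf ((fun z => ‖f z‖) '' Metric.sphere (0 : ℂ) r)) /
                Real.log (sSup ((fun z => ‖f z‖) '' Metric.sphere (0 : ℂ) r)) ∨
           b < ValueDistribution.logCounting f ⊤ r /
                Real.log (sSup ((fun z => ‖f z‖) '' Metric.sphere (0 : ℂ) r)))) := by
  intro H
  have h1 := H f lm (fun z _ => f_mero z) (by linarith [one_sub_lm]) lm_lt order_cond growth_cond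
    (-2) 5 (by
      have := sin_cos_num
      linarith)
  have h2 : ∀ᶠ r : ℝ in Filter.atTop, ¬ ((∀ z : ℂ, ‖z‖ = r → AnalyticAt ℂ f z ∧ f z ≠ 0) ∧
          ((-2 : ℝ) < Real.log (sInf ((fun z => ‖f z‖) '' Metric.sphere (0 : ℂ) r)) /
                Real.log (sSup ((fun z => ‖f z‖) '' Metric.sphere (0 : ℂ) r)) ∨
           (5 : ℝ) < ValueDistribution.logCounting f ⊤ r /
                Real.log (sSup ((fun z => ‖f z‖) '' Metric.sphere (0 : ℂ) r)))) := by
    filter_upwards [eventually_sit] with r hJex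
    obtain ⟨J, hJ, hJ1, hJ2⟩ := hJex
    rintro ⟨hg, hor⟩
    obtain ⟨h3, h4, h5⟩ := main_est hJ hJ1 hJ2 hg
    have h6 : 0 < Real.log (SS r) := lt_of_lt_of_le (by positivity) h3
    rcases hor with h7 | h7
    · have h8 : Real.log (II r) / Real.log (SS r) ≤ -2 := by
        rw [div_le_iff₀ h6]; exact h4
      exact absurd h7 (not_lt.2 h8)
    · have h8 : ValueDistribution.logCounting f ⊤ r / Real.log (SS r) ≤ 5 := by
        rw [div_le_iff₀ h6]; exact h5
      exact absurd h7 (not_lt.2 h8)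
  exact h1 h2

end Pool.Agent.S04468
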