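import Pool.Statements.S04475
import Pool.Agent.H632.MC.Final

set_option autoImplicit false
open Pool Pool.MP_fca848_an

namespace Pool.Agent.S04475

/-- For complex n×m matrices X, Y, any f concave on [0,∞) with f(0)=0 and f≥0, and k≤min(n,m): sum over the top k singular values of ∣f(σ_i(X))−f(σ_i(Y))∣ is at most the sum of f(σ_i(X−Y)). -/
theorem result :
    ∀ (n m : ℕ) (X Y : Matrix (Fin n) (Fin m) ℂ) (f : ℝ → ℝ),
      ConcaveOn ℝ (Set.Ici 0) f → f 0 = 0 → (∀ x : ℝ, 0 ≤ x → 0 ≤ f x) →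
      ∀ k : ℕ, k ≤ n → k ≤ m →
        ∑ i ∈ Finset.univ.filter (fun i : Fin (Fintype.card (Fin m)) => i.val < k),
            |f (Real.sqrt ((Matrix.isHermitian_conjTranspose_mul_self X).eigenvalues₀ i))
              - f (Real.sqrt ((Matrix.isHermitian_conjTranspose_mul_self Y).eigenvalues₀ i))|
          ≤ ∑ i ∈ Finset.univ.filter (fun i : Fin (Fintype.card (Fin m)) => i.val < k),
              f (Real.sqrt ((Matrix.isHermitian_conjTranspose_mul_self (X - Y)).eigenvalues₀ i)) := by
  intro n m X Y f hf h0 hn k hkn hkm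
  exact Pool.Agent.H632.MC.miao_matrix n m X Y f hf h0 hn k hkn hkm

end Pool.Agent.S04475
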