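import Pool.Statements.S04485
-- import your own Pool.Agent.* helpers here

set_option autoImplicit false
open Pool Pool.MP_fd6048_an

namespace Pool.Agent.S04485

open Polynomial Set Filter Topology

/-- no dense orbit on a nontrivial finite dimensional space -/
theorem finite_no_hc {𝕂 V : Type*} [RCLike 𝕂] [AddCommGroup V] [Module 𝕂 V] [TopologicalSpace V]
    [IsTopologicalAddGroup V] [ContinuousSMul 𝕂 V] [T2Space V] [FiniteDimensional 𝕂 V]
    [Nontrivial V] (S : Module.End 𝕂 V) (x : V)
    (hx : Dense (Set.range fun n : ℕ => (S ^ n) x)) : False := by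
  classical
  set N := Module.finrank 𝕂 V with hN
  have hNpos : 0 < N := Module.finrank_pos
  let v : Fin N → V := fun j => (S ^ (j : ℕ)) x
  have hspan_orbit : ∀ n : ℕ, (S ^ n) x ∈ Submodule.span 𝕂 (Set.range v) := by
    intro n
    have h1 : (X : 𝕂[X]) ^ n = LinearMap.charpoly S * (X ^ n / LinearMap.charpoly S)
        + X ^ n % LinearMap.charpoly S := (EuclideanDomain.div_add_mod _ _).symm
    have hmonic := LinearMap.charpoly_monic S
    have h2 : (S ^ n) = aeval S (X ^ n % LinearMap.charpoly S) := by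
      have := congrArg (aeval S) h1
      rw [map_pow, aeval_X, map_add, map_mul, LinearMap.aeval_self_charpoly, zero_mul,
        zero_add] at this
      exact this
    have hdeg : (X ^ n % LinearMap.charpoly S).natDegree < N := by
      have h3 : (X ^ n % LinearMap.charpoly S).degree < (LinearMap.charpoly S).degree :=
        EuclideanDomain.mod_lt _ hmonic.ne_zero
      have h4 : (LinearMap.charpoly S).natDegree = N := LinearMap.charpoly_natDegree S
      rw [← h4]
      by_cases h0 : X ^ n % LinearMap.charpoly S = 0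
      · rw [h0, natDegree_zero, h4]
        exact hNpos
      · exact natDegree_lt_natDegree h0 h3
    rw [h2, aeval_eq_sum_range' hdeg, LinearMap.sum_apply]
    apply Submodule.sum_mem
    intro i hi
    rw [LinearMap.smul_apply]
    apply Submodule.smul_mem
    apply Submodule.subset_span
    exact ⟨⟨i, Finset.mem_range.mp hi⟩, rfl⟩
  have htop : ⊤ ≤ Submodule.span 𝕂 (Set.range v) := by
    have hcl : IsClosed ((Submodule.span 𝕂 (Set.range v) : Submodule 𝕂 V) : Set V) :=
      Submodule.closed_of_finiteDimensional _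
    have hd : Dense ((Submodule.span 𝕂 (Set.range v) : Submodule 𝕂 V) : Set V) := by
      apply hx.mono
      rintro _ ⟨n, rfl⟩
      exact hspan_orbit n
    intro y _
    have := hd y
    rwa [hcl.closure_eq] at this
  let b := basisOfTopLeSpanOfCardEqFinrank v htop (by simp [hN])
  have hb : ⇑b = v := coe_basisOfTopLeSpanOfCardEqFinrank _ _ _
  let F : V → 𝕂 := fun y => b.det (fun j => (S ^ (j : ℕ)) y)
  have hFx : F x = 1 := by
    have : (fun j : Fin N => (S ^ (j : ℕ)) x) = ⇑b := hb.symm
    simp only [F]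
    rw [this, Module.Basis.det_self]
  have hFS : ∀ n : ℕ, F ((S ^ n) x) = (LinearMap.det S) ^ n := by
    intro n
    have h1 : (fun j : Fin N => (S ^ (j : ℕ)) ((S ^ n) x))
        = ⇑(S ^ n) ∘ (fun j : Fin N => (S ^ (j : ℕ)) x) := by
      funext j
      simp only [Function.comp]
      rw [← Module.End.mul_apply, ← Module.End.mul_apply, ← pow_add, ← pow_add, add_comm]
    simp only [F]
    rw [h1, Module.Basis.det_comp]
    have h2 := hFx
    simp only [F] at h2
    rw [h2, mul_one, map_pow]
  have hFc : ∀ c : 𝕂, F (c • x) = c ^ N := by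
    intro c
    have h1 : (fun j : Fin N => (S ^ (j : ℕ)) (c • x))
        = fun j : Fin N => (fun _ : Fin N => c) j • (fun j : Fin N => (S ^ (j : ℕ)) x) j := by
      funext j
      simp
    simp only [F]
    rw [h1, AlternatingMap.map_smul_univ]
    have h2 := hFx
    simp only [F] at h2
    rw [h2]
    simp
  have hcont : Continuous F := by
    simp only [F, Module.Basis.det_apply]
    apply Continuous.matrix_det
    apply continuous_matrix
    intro i j
    simp only [Module.Basis.toMatrix_apply]
    have : (fun y : V => (b.repr ((S ^ (j : ℕ)) y)) i)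
      = fun y : V => ((b.coord i) ∘ₗ (S ^ (j : ℕ))) y := rfl
    rw [this]
    exact LinearMap.continuous_of_finiteDimensional _
  -- the values of F lie in the closure of the powers of the determinant
  have hclo : ∀ y, F y ∈ closure (Set.range fun n : ℕ => (LinearMap.det S) ^ n) := by
    intro y
    have h1 : y ∈ closure (Set.range fun n : ℕ => (S ^ n) x) := hx y
    have h2 := image_closure_subset_closure_image hcont (Set.mem_image_of_mem F h1)
    rw [← Set.range_comp] at h2
    have h3 : (F ∘ fun n : ℕ => (S ^ n) x) = fun n : ℕ => (LinearMap.det S) ^ n := by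
      funext n
      exact hFS n
    rwa [h3] at h2
  rcases le_total ‖LinearMap.det S‖ 1 with h | h
  · have h1 := hclo ((2 : 𝕂) • x)
    rw [hFc] at h1
    have h2 : (Set.range fun n : ℕ => (LinearMap.det S) ^ n) ⊆ {z : 𝕂 | ‖z‖ ≤ 1} := by
      rintro _ ⟨n, rfl⟩
      simp only [Set.mem_ofPred_eq, norm_pow]
      exact pow_le_one₀ (norm_nonneg _) h
    have h3 := closure_minimal h2 (isClosed_le continuous_norm continuous_const) h1
    simp only [Set.mem_ofPred_eq, norm_pow, RCLike.norm_ofNat] at h3
    have : (1 : ℝ) < 2 ^ N := one_lt_pow₀ (by norm_num) hNpos.ne'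
    linarith
  · have h1 := hclo ((0 : 𝕂) • x)
    rw [hFc] at h1
    have h2 : (Set.range fun n : ℕ => (LinearMap.det S) ^ n) ⊆ {z : 𝕂 | 1 ≤ ‖z‖} := by
      rintro _ ⟨n, rfl⟩
      simp only [Set.mem_ofPred_eq, norm_pow]
      exact one_le_pow₀ h
    have h3 := closure_minimal h2 (isClosed_le continuous_const continuous_norm) h1
    rw [zero_pow hNpos.ne'] at h3
    simp at h3
    linarith

section denseRange

variable {𝕂 X : Type*} [RCLike 𝕂] [AddCommGroup X] [Module 𝕂 X] [TopologicalSpace X]
    [IsTopologicalAddGroup X] [ContinuousSMul 𝕂 X] 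

theorem denseRange_aeval (T : X →L[𝕂] X) (x : X)
    (hx : Dense (Set.range fun n : ℕ => (T ^ n) x)) (P : 𝕂[X]) (hP : P ≠ 0) :
    DenseRange (aeval T P : X →L[𝕂] X) := by
  classical
  set A : X →L[𝕂] X := aeval T P with hA
  set L : Submodule 𝕂 X := (LinearMap.range (A : X →ₗ[𝕂] X)).topologicalClosure with hL
  have hLc : IsClosed (L : Set X) := Submodule.isClosed_topologicalClosure _
  have hcomm : ∀ y, T (A y) = A (T y) := by
    intro y
    have h1 : T * A = A * T := by
      have h2 : aeval T (Polynomial.X * P) = aeval T (P * Polynomial.X) := by rw [mul_comm]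
      simpa [map_mul] using h2
    exact congrArg (fun f : X →L[𝕂] X => f y) h1
  have hTL : L ≤ L.comap (T : X →ₗ[𝕂] X) := by
    intro y hy
    have h1 : y ∈ closure ((LinearMap.range (A : X →ₗ[𝕂] X) : Submodule 𝕂 X) : Set X) := hy
    have h2 := image_closure_subset_closure_image T.continuous (Set.mem_image_of_mem T h1)
    have h3 : T y ∈ closure ((LinearMap.range (A : X →ₗ[𝕂] X) : Submodule 𝕂 X) : Set X) := by
      refine closure_mono ?_ h2
      rintro _ ⟨_, ⟨w, rfl⟩, rfl⟩
      exact ⟨T w, (hcomm w).symm⟩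
    exact h3
  set S : Module.End 𝕂 (X ⧸ L) := L.mapQ L (T : X →ₗ[𝕂] X) hTL with hS
  have hSn : ∀ (n : ℕ) (y : X), (S ^ n) (L.mkQ y) = L.mkQ ((T ^ n) y) := by
    intro n
    induction n with
    | zero => intro y; simp
    | succ n ih =>
      intro y
      rw [pow_succ, pow_succ, Module.End.mul_apply, mul_apply_eq_comp]
      have h1 : S (L.mkQ y) = L.mkQ (T y) := by
        simp [hS, Submodule.mkQ_apply]
      rw [h1, ih]
  have hAL : ∀ y, L.mkQ (A y) = 0 := by
    intro y
    rw [Submodule.mkQ_apply, Submodule.Quotient.mk_eq_zero]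
    exact Submodule.le_topologicalClosure _ ⟨y, rfl⟩
  have : IsClosed (L : Set X) := hLc
  have hd : Dense (Set.range fun n : ℕ => (S ^ n) (L.mkQ x)) := by
    have h1 : DenseRange (L.mkQ : X → X ⧸ L) := (Submodule.mkQ_surjective L).denseRange
    have h2 : Continuous (L.mkQ : X → X ⧸ L) := continuous_quot_mk
    have h3 := h1.dense_image h2 hx
    rw [← Set.range_comp] at h3
    have h4 : (⇑L.mkQ ∘ fun n : ℕ => (T ^ n) x) = fun n : ℕ => (S ^ n) (L.mkQ x) := by
      funext n
      exact (hSn n x).symm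
    rwa [h4] at h3
  -- finite dimension of the quotient
  set d := P.natDegree + 1 with hdd
  let v : Fin d → X ⧸ L := fun j => L.mkQ ((T ^ (j : ℕ)) x)
  have hspan : ∀ n : ℕ, L.mkQ ((T ^ n) x) ∈ Submodule.span 𝕂 (Set.range v) := by
    intro n
    have h1 : (Polynomial.X : 𝕂[X]) ^ n = P * (Polynomial.X ^ n / P)
        + Polynomial.X ^ n % P := (EuclideanDomain.div_add_mod _ _).symm
    have h2 : (T ^ n) x = A (aeval T (Polynomial.X ^ n / P) x)
        + aeval T (Polynomial.X ^ n % P) x := by
      have := congrArg (aeval T) h1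
      rw [map_pow, aeval_X, map_add, map_mul] at this
      exact congrArg (fun f : X →L[𝕂] X => f x) this
    have hdeg : (Polynomial.X ^ n % P).natDegree < d := by
      have h3 : (Polynomial.X ^ n % P).degree < P.degree := EuclideanDomain.mod_lt _ hP
      by_cases h0 : Polynomial.X ^ n % P = 0
      · rw [h0, natDegree_zero]
        omega
      · have := natDegree_lt_natDegree h0 h3
        omega
    rw [h2, map_add, hAL, zero_add, aeval_eq_sum_range' hdeg, sum_apply,
      map_sum]
    apply Submodule.sum_mem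
    intro i hi
    rw [smul_apply, map_smul]
    apply Submodule.smul_mem
    apply Submodule.subset_span
    exact ⟨⟨i, Finset.mem_range.mp hi⟩, rfl⟩
  have htop : Submodule.span 𝕂 (Set.range v) = ⊤ := by
    have hfd : FiniteDimensional 𝕂 (Submodule.span 𝕂 (Set.range v)) :=
      FiniteDimensional.span_of_finite 𝕂 (Set.finite_range v)
    have hcl : IsClosed ((Submodule.span 𝕂 (Set.range v) : Submodule 𝕂 (X ⧸ L)) : Set (X ⧸ L)) :=
      Submodule.closed_of_finiteDimensional _
    have hd' : Dense ((Submodule.span 𝕂 (Set.range v) : Submodule 𝕂 (X ⧸ L)) : Set (X ⧸ L)) := by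
      apply hd.mono
      rintro _ ⟨n, rfl⟩
      simp only
      rw [hSn]
      exact hspan n
    rw [eq_top_iff]
    intro y _
    have := hd' y
    rwa [hcl.closure_eq] at this
  have : FiniteDimensional 𝕂 (X ⧸ L) := by
    apply Module.finite_def.mpr
    rw [← htop]
    exact Submodule.fg_span (Set.finite_range v)
  by_contra hcon
  have hne : L ≠ ⊤ := by
    intro h
    apply hcon
    intro y
    have : y ∈ L := h ▸ Submodule.mem_top
    exact this
  have : Nontrivial (X ⧸ L) := Submodule.Quotient.nontrivial_iff.mpr hne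
  exact finite_no_hc S (L.mkQ x) hd

end denseRange


section main

variable {𝕂 : Type} [RCLike 𝕂] {X : Type} [AddCommGroup X] [Module 𝕂 X] [UniformSpace X]
      [IsUniformAddGroup X] [ContinuousSMul 𝕂 X]

/-- the set of hypercyclic vectors -/
def HC (T : X →L[𝕂] X) : Set X := {x | Dense (Set.range fun n : ℕ => (T ^ n) x)}

theorem hc_aeval (T : X →L[𝕂] X) {x : X} (hx : x ∈ HC T) (P : 𝕂[X]) (hP : P ≠ 0) :
    (aeval T P : X →L[𝕂] X) x ∈ HC T := by
  have h1 := (denseRange_aeval T x hx P hP).dense_image (aeval T P : X →L[𝕂] X).continuous hx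
  rw [← Set.range_comp] at h1
  have h2 : (⇑(aeval T P : X →L[𝕂] X) ∘ fun n : ℕ => (T ^ n) x)
      = fun n : ℕ => (T ^ n) ((aeval T P : X →L[𝕂] X) x) := by
    funext n
    have h3 : (aeval T P : X →L[𝕂] X) * T ^ n = T ^ n * (aeval T P : X →L[𝕂] X) := by
      have h4 : aeval T (P * Polynomial.X ^ n) = aeval T (Polynomial.X ^ n * P) := by rw [mul_comm]
      simpa [map_mul] using h4
    exact congrArg (fun f : X →L[𝕂] X => f x) h3
  rwa [h2] at h1

abbrev K := ℕ → Bool

def tr (k : ℕ) (t : K) : Fin k → Bool := fun i => t i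

def ext (k : ℕ) (c : Fin k → Bool) : K := fun i => if h : i < k then c ⟨i, h⟩ else false

theorem tr_ext (k : ℕ) (c : Fin k → Bool) : tr k (ext k c) = c := by
  funext i
  simp [tr, ext]

theorem continuous_tr (k : ℕ) : Continuous (tr k) :=
  continuous_pi fun i => continuous_apply (i : ℕ)

theorem continuous_ext (k : ℕ) : Continuous (ext k) := continuous_of_discreteTopology

def Z (𝕂 : Type) [RCLike 𝕂] (k : ℕ) : Set (((Fin k → Bool) → K) × ((Fin k → Bool) → 𝕂)) :=
  {t | ∀ c, tr k (t c) = c} ×ˢ Metric.sphere 0 1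

theorem isCompact_Z (k : ℕ) : IsCompact (Z 𝕂 k) := by
  apply IsCompact.prod
  · apply IsClosed.isCompact
    simp only [Set.ofPred_forall]
    apply isClosed_iInter
    intro c
    exact isClosed_eq ((continuous_tr k).comp (continuous_apply c)) continuous_const
  · exact isCompact_sphere 0 1

def OO (T : X →L[𝕂] X) (k : ℕ) (U : Set X) : Set C(K, X) :=
  {f | ∀ p ∈ Z 𝕂 k, ∃ n : ℕ, (T ^ n) (∑ c, p.2 c • f (p.1 c)) ∈ U}

theorem isOpen_OO (T : X →L[𝕂] X) (k : ℕ) {U : Set X} (hU : IsOpen U) : IsOpen (OO T k U) := by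
  rw [isOpen_iff_eventually]
  intro f hf
  apply (isCompact_Z (𝕂 := 𝕂) k).eventually_forall_of_forall_eventually
  intro p hp
  have h1 : IsOpen {z : C(K, X) × (((Fin k → Bool) → K) × ((Fin k → Bool) → 𝕂)) |
      ∃ n : ℕ, (T ^ n) (∑ c, z.2.2 c • z.1 (z.2.1 c)) ∈ U} := by
    simp only [Set.ofPred_exists]
    apply isOpen_iUnion
    intro n
    apply hU.preimage
    fun_prop
  exact h1.mem_nhds (hf p hp)

/-- locally constant functions -/
def Ψ (k : ℕ) (v : (Fin k → Bool) → X) : C(K, X) :=
  ⟨fun t => v (tr k t), (continuous_of_discreteTopology (f := v)).comp (continuous_tr k)⟩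

theorem continuous_Ψ (k : ℕ) : Continuous (Ψ k : ((Fin k → Bool) → X) → C(K, X)) := by
  apply ContinuousMap.continuous_of_continuous_uncurry
  have h1 : Continuous (fun p : ((Fin k → Bool) → X) × (Fin k → Bool) => p.1 p.2) := by
    rw [continuous_prod_of_discrete_right]
    intro c
    exact continuous_apply c
  exact h1.comp (continuous_fst.prodMk ((continuous_tr k).comp continuous_snd))

def rr (k : ℕ) : C(K, K) := ⟨fun t => ext k (tr k t), (continuous_ext k).comp (continuous_tr k)⟩

theorem tendsto_rr : Tendsto rr atTop (𝓝 (ContinuousMap.id K)) := by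
  rw [ContinuousMap.tendsto_iff_tendstoUniformly]
  rw [tendstoUniformly_iff_tendsto]
  rw [Pi.uniformity, tendsto_iInf]
  intro i
  rw [tendsto_comap_iff]
  have h1 : ∀ᶠ q : ℕ × K in atTop ×ˢ ⊤, i < q.1 := by
    have : ∀ᶠ n : ℕ in atTop, i < n := eventually_gt_atTop i
    exact this.prod_inl ⊤
  intro s hs
  rw [Filter.mem_map]
  filter_upwards [h1] with q hq
  have : (rr q.1) q.2 i = q.2 i := by
    simp [rr, ext, tr, hq]
  simp only [Set.mem_preimage, Function.comp, ContinuousMap.id_apply]
  rw [this]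
  exact refl_mem_uniformity hs

theorem dense_loc (k0 : ℕ) (f : C(K, X)) :
    ∃ g : ℕ → C(K, X), Tendsto g atTop (𝓝 f) ∧ ∀ k, ∃ v : (Fin (k0 + k) → Bool) → X, g k = Ψ (k0 + k) v := by
  refine ⟨fun k => f.comp (rr (k0 + k)), ?_, ?_⟩
  · have h1 : Tendsto (fun r : C(K, K) => f.comp r) (𝓝 (ContinuousMap.id K))
        (𝓝 (f.comp (ContinuousMap.id K))) := (ContinuousMap.continuous_postcomp f).tendsto _
    rw [ContinuousMap.comp_id] at h1
    refine h1.comp (tendsto_rr.comp ?_)
    exact tendsto_atTop_mono (fun k => Nat.le_add_left k k0) tendsto_id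
  · intro k
    exact ⟨fun c => f (ext (k0 + k) c), rfl⟩

theorem dense_comb (T : X →L[𝕂] X) {x : X} (hx : x ∈ HC T) (C : Type) [Fintype C] [DecidableEq C] :
    Dense {v : C → X | ∀ a : C → 𝕂, a ≠ 0 → ∑ c, a c • v c ∈ HC T} := by
  have h1 : Dense (Set.pi Set.univ (fun _ : C => Set.range fun n : ℕ => (T ^ n) x)) :=
    dense_pi _ (fun _ _ => hx)
  apply dense_closure.mp
  apply h1.mono
  intro w hw
  choose nn hnn using fun c => hw c (Set.mem_univ c)
  let M : ℕ := ∑ c, nn c + 1
  have hM : ∀ c, nn c < M := fun c =>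
    Nat.lt_succ_of_le (Finset.single_le_sum (f := nn) (fun _ _ => Nat.zero_le _) (Finset.mem_univ c))
  let ι : C → ℕ := fun c => (Fintype.equivFin C c : ℕ)
  have hι : Function.Injective ι := fun a b h => (Fintype.equivFin C).injective (Fin.ext h)
  let u : C → X := fun c => (T ^ (M + ι c)) x
  let δ : ℕ → 𝕂 := fun j => ((1 / ((j : ℝ) + 1) : ℝ) : 𝕂)
  have hδ0 : ∀ j, δ j ≠ 0 := by
    intro j
    simp only [δ]
    rw [RCLike.ofReal_ne_zero]
    positivity
  have hδ : Tendsto δ atTop (𝓝 0) := by
    have := (RCLike.continuous_ofReal (K := 𝕂)).tendsto 0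
    rw [RCLike.ofReal_zero] at this
    exact this.comp tendsto_one_div_add_atTop_nhds_zero_nat
  have hlim : Tendsto (fun j => w + δ j • u) atTop (𝓝 w) := by
    have := tendsto_const_nhds (x := w) (f := (atTop : Filter ℕ)) |>.add (hδ.smul_const u)
    simpa using this
  apply mem_closure_of_tendsto hlim
  apply Eventually.of_forall
  intro j a ha
  obtain ⟨c0, hc0⟩ : ∃ c0, a c0 ≠ 0 := by
    by_contra h
    push Not at h
    exact ha (funext h)
  let Q : 𝕂[X] := ∑ c, (Polynomial.C (a c) * (Polynomial.X ^ (nn c) + Polynomial.C (δ j) * Polynomial.X ^ (M + ι c)))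
  have hQ : Q ≠ 0 := by
    intro h0
    have h2 : Q.coeff (M + ι c0) = a c0 * δ j := by
      simp only [Q, finsetSum_coeff, coeff_C_mul, coeff_add, coeff_X_pow]
      rw [Finset.sum_eq_single c0]
      · have : ¬ (M + ι c0 = nn c0) := by
          have := hM c0
          omega
        simp [this]
      · intro c _ hc
        have h3 : ¬ (M + ι c0 = nn c) := by
          have := hM c
          omega
        have h4 : ¬ (ι c0 = ι c) := fun h => hc (hι h.symm)
        simp [h3, h4]
      · intro h
        exact absurd (Finset.mem_univ _) h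
    rw [h0, coeff_zero] at h2
    exact mul_ne_zero hc0 (hδ0 j) h2.symm
  have hval : ∑ c, a c • (w + δ j • u) c = (aeval T Q : X →L[𝕂] X) x := by
    simp only [Q, map_sum, map_mul, map_add, map_pow, aeval_X, aeval_C, sum_apply]
    apply Finset.sum_congr rfl
    intro c _
    rw [Pi.add_apply, Pi.smul_apply, ← hnn c]
    simp [u, Algebra.algebraMap_eq_smul_one]
  rw [hval]
  exact hc_aeval T hx Q hQ


theorem dense_OO (T : X →L[𝕂] X) {x : X} (hx : x ∈ HC T) (k : ℕ) {U : Set X} (hU : IsOpen U)
    (hne : U.Nonempty) : Dense (OO T k U) := by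
  classical
  intro f
  obtain ⟨g, hg, hgv⟩ := dense_loc k f
  rw [← closure_closure]
  apply mem_closure_of_tendsto hg
  apply Eventually.of_forall
  intro j
  obtain ⟨v, hv⟩ := hgv j
  rw [hv]
  have h1 := dense_comb T hx (Fin (k + j) → Bool) v
  have h2 := image_closure_subset_closure_image (continuous_Ψ (X := X) (k + j))
    (Set.mem_image_of_mem _ h1)
  refine closure_mono ?_ h2
  rintro _ ⟨w, hw, rfl⟩ p hp
  let φ : (Fin k → Bool) → (Fin (k + j) → Bool) := fun c => tr (k + j) (p.1 c)
  have hφ : Function.Injective φ := by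
    intro c c' h
    have h3 := hp.1 c
    have h4 := hp.1 c'
    rw [← h3, ← h4]
    funext i
    have := congrFun h (Fin.castLE (Nat.le_add_right k j) i)
    exact this
  let a' : (Fin (k + j) → Bool) → 𝕂 := Function.extend φ p.2 0
  have ha' : a' ≠ 0 := by
    intro h0
    have h5 : p.2 = 0 := by
      funext c
      have := congrFun h0 (φ c)
      simpa [a', hφ.extend_apply] using this
    have h6 := hp.2
    rw [h5] at h6
    simp at h6
  have hsum : ∑ c, p.2 c • (Ψ (k + j) w : C(K, X)) (p.1 c) = ∑ c', a' c' • w c' := by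
    have h7 : ∑ c' ∈ Finset.univ.image φ, a' c' • w c' = ∑ c', a' c' • w c' := by
      apply Finset.sum_subset (Finset.subset_univ _)
      intro c' _ hc'
      have : a' c' = 0 := by
        simp only [a']
        rw [Function.extend_apply']
        · rfl
        · rintro ⟨c, rfl⟩
          exact hc' (Finset.mem_image_of_mem _ (Finset.mem_univ _))
      rw [this, zero_smul]
    rw [← h7, Finset.sum_image (fun c _ c' _ h => hφ h)]
    apply Finset.sum_congr rfl
    intro c _
    simp only [a', hφ.extend_apply]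
    rfl
  have hy := hw a' ha'
  rw [← hsum] at hy
  obtain ⟨y, ⟨n, rfl⟩, hyU⟩ := hy.exists_mem_open hU hne
  exact ⟨n, hyU⟩

def OP (𝕂 : Type) [RCLike 𝕂] {X : Type} [AddCommGroup X] [Module 𝕂 X] [UniformSpace X]
    (U : Set X) : Set C(K, X) :=
  {f | ∃ (s t : K) (b : 𝕂), b • (f s - f t) ∈ U}

theorem isOpen_OP {U : Set X} (hU : IsOpen U) : IsOpen (OP 𝕂 U) := by
  simp only [OP, Set.ofPred_exists]
  apply isOpen_iUnion
  intro s
  apply isOpen_iUnion
  intro t
  apply isOpen_iUnion
  intro b
  apply hU.preimage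
  fun_prop

theorem dense_OP {U : Set X} (hne : U.Nonempty) : Dense (OP 𝕂 U) := by
  classical
  obtain ⟨y, hy⟩ := hne
  intro f
  obtain ⟨g, hg, hgv⟩ := dense_loc 0 f
  rw [← closure_closure]
  apply mem_closure_of_tendsto hg
  apply Eventually.of_forall
  intro j
  obtain ⟨v, hv⟩ := hgv j
  rw [hv]
  let h : C(K, X) := Ψ (0 + j + 1) (fun c => if c (Fin.last _) = true then y else 0)
  let δ : ℕ → 𝕂 := fun j => ((1 / ((j : ℝ) + 1) : ℝ) : 𝕂)
  have hδ0 : ∀ j, δ j ≠ 0 := by
    intro j
    simp only [δ]
    rw [RCLike.ofReal_ne_zero]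
    positivity
  have hδ : Tendsto δ atTop (𝓝 0) := by
    have := (RCLike.continuous_ofReal (K := 𝕂)).tendsto 0
    rw [RCLike.ofReal_zero] at this
    exact this.comp tendsto_one_div_add_atTop_nhds_zero_nat
  have hlim : Tendsto (fun i => Ψ (0 + j) v + δ i • h) atTop (𝓝 (Ψ (0 + j) v)) := by
    have := tendsto_const_nhds (x := (Ψ (0 + j) v : C(K, X))) (f := (atTop : Filter ℕ)) |>.add
      (hδ.smul_const h)
    simpa using this
  apply mem_closure_of_tendsto hlim
  apply Eventually.of_forall
  intro i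
  refine ⟨fun n => decide (n = 0 + j), fun _ => false, (δ i)⁻¹, ?_⟩
  have h1 : (Ψ (0 + j) v : C(K, X)) (fun n => decide (n = 0 + j))
      = (Ψ (0 + j) v : C(K, X)) (fun _ => false) := by
    have : tr (0 + j) (fun n => decide (n = 0 + j)) = tr (0 + j) (fun _ => false) := by
      funext n
      simp only [tr, decide_eq_false_iff_not]
      have := n.2
      omega
    simp only [Ψ, ContinuousMap.coe_mk]
    rw [this]
  have h2 : h (fun n => decide (n = 0 + j)) = y := by
    simp [h, Ψ, tr]
  have h3 : h (fun _ => false) = 0 := by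
    simp [h, Ψ, tr]
  rw [ContinuousMap.add_apply, ContinuousMap.add_apply, ContinuousMap.smul_apply,
    ContinuousMap.smul_apply, h1, h2, h3, smul_zero, add_zero, add_sub_cancel_left,
    smul_smul, inv_mul_cancel₀ (hδ0 i), one_smul]
  exact hy

theorem exists_tr_injOn (s : Finset K) : ∃ k, Set.InjOn (tr k) s := by
  classical
  have h : ∀ p : K × K, ∃ i : ℕ, p.1 ≠ p.2 → p.1 i ≠ p.2 i := by
    intro p
    by_cases h : p.1 = p.2
    · exact ⟨0, fun h' => absurd h h'⟩
    · obtain ⟨i, hi⟩ := Function.ne_iff.mp h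
      exact ⟨i, fun _ => hi⟩
  choose ii hii using h
  refine ⟨∑ p ∈ s ×ˢ s, ii p + 1, ?_⟩
  intro t ht t' ht' heq
  by_contra hne
  have h1 := hii (t, t') hne
  have h2 : ii (t, t') < ∑ p ∈ s ×ˢ s, ii p + 1 := by
    apply Nat.lt_succ_of_le
    exact Finset.single_le_sum (f := ii) (fun _ _ => Nat.zero_le _)
      (Finset.mem_product.mpr ⟨ht, ht'⟩)
  have h3 := congrFun heq ⟨ii (t, t'), h2⟩
  exact h1 h3

theorem comb_mem_HC (T : X →L[𝕂] X) (B : Set (Set X)) (hB : TopologicalSpace.IsTopologicalBasis B)
    (f : C(K, X)) (hf : ∀ k, ∀ U ∈ B, U.Nonempty → f ∈ OO T k U) (l : K →₀ 𝕂) (hl : l ≠ 0) :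
    Finsupp.linearCombination 𝕂 f l ∈ HC T := by
  classical
  obtain ⟨k, hk⟩ := exists_tr_injOn l.support
  let t' : (Fin k → Bool) → K := fun c =>
    if h : ∃ t ∈ l.support, tr k t = c then h.choose else ext k c
  have ht' : ∀ c, tr k (t' c) = c := by
    intro c
    simp only [t']
    split_ifs with h
    · exact h.choose_spec.2
    · exact tr_ext k c
  have ht'inj : Function.Injective t' := by
    intro c c' h
    rw [← ht' c, ← ht' c', h]
  have hsup : l.support ⊆ Finset.univ.image t' := by
    intro t ht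
    rw [Finset.mem_image]
    refine ⟨tr k t, Finset.mem_univ _, ?_⟩
    have h : ∃ t1 ∈ l.support, tr k t1 = tr k t := ⟨t, ht, rfl⟩
    have h1 : t' (tr k t) = h.choose := by
      simp only [t']
      rw [dif_pos h]
    rw [h1]
    exact hk h.choose_spec.1 ht h.choose_spec.2
  let a' : (Fin k → Bool) → 𝕂 := fun c => l (t' c)
  have hsum : ∑ c, a' c • f (t' c) = Finsupp.linearCombination 𝕂 f l := by
    rw [Finsupp.linearCombination_apply, Finsupp.sum]
    rw [Finset.sum_subset hsup (by
      intro t _ ht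
      rw [Finsupp.notMem_support_iff.mp ht, zero_smul])]
    rw [Finset.sum_image (fun c _ c' _ h => ht'inj h)]
  have ha' : a' ≠ 0 := by
    obtain ⟨t, ht⟩ := Finsupp.support_nonempty_iff.mpr hl
    obtain ⟨c, _, hc⟩ := Finset.mem_image.mp (hsup ht)
    intro h0
    have := congrFun h0 c
    simp only [a'] at this
    rw [hc] at this
    exact (Finsupp.mem_support_iff.mp ht) this
  have hnorm : (0 : ℝ) < ‖a'‖ := norm_pos_iff.mpr ha'
  let r : 𝕂 := ((‖a'‖ : ℝ) : 𝕂)
  have hr : r ≠ 0 := by
    simp only [r]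
    rw [RCLike.ofReal_ne_zero]
    exact hnorm.ne'
  have hmem : r⁻¹ • Finsupp.linearCombination 𝕂 f l ∈ HC T := by
    rw [HC, Set.mem_ofPred_eq, hB.dense_iff]
    intro U hU hUne
    have hp : ((t', r⁻¹ • a') : ((Fin k → Bool) → K) × ((Fin k → Bool) → 𝕂)) ∈ Z 𝕂 k := by
      refine ⟨ht', ?_⟩
      simp only [mem_sphere_zero_iff_norm]
      rw [norm_smul, norm_inv]
      simp only [r, RCLike.norm_ofReal, abs_norm]
      exact inv_mul_cancel₀ hnorm.ne'
    obtain ⟨n, hn⟩ := hf k U hU hUne _ hp
    refine ⟨_, hn, n, ?_⟩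
    simp only
    congr 1
    rw [← hsum, Finset.smul_sum]
    apply Finset.sum_congr rfl
    intro c _
    rw [Pi.smul_apply, smul_eq_mul, mul_smul]
  have h2 := hc_aeval T hmem (Polynomial.C r) (by
    rw [Ne, Polynomial.C_eq_zero]
    exact hr)
  have h3 : (aeval T (Polynomial.C r) : X →L[𝕂] X) (r⁻¹ • Finsupp.linearCombination 𝕂 f l)
      = Finsupp.linearCombination 𝕂 f l := by
    rw [aeval_C, Algebra.algebraMap_eq_smul_one]
    simp [smul_smul, inv_mul_cancel₀ hr]
  rwa [h3] at h2

theorem card_le_continuum [SecondCountableTopology X] [T0Space X] : Cardinal.mk X ≤ Cardinal.continuum := by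
  let B := TopologicalSpace.countableBasis X
  have hB := TopologicalSpace.isBasis_countableBasis X
  have hinj : Function.Injective (fun x : X => {b : B | x ∈ (b : Set X)}) := by
    intro x y h
    have : Inseparable x y := by
      rw [hB.inseparable_iff]
      intro s hs
      have := Set.ext_iff.mp h ⟨s, hs⟩
      exact this
    exact this.eq
  have h1 := Cardinal.mk_le_of_injective hinj
  rw [Cardinal.mk_set] at h1
  refine h1.trans ?_
  rw [← Cardinal.two_power_aleph0]
  apply Cardinal.power_le_power_left two_ne_zero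
  exact Cardinal.mk_le_aleph0_iff.mpr (TopologicalSpace.countable_countableBasis X).to_subtype

theorem main_nontrivial [CompleteSpace X] [TopologicalSpace.MetrizableSpace X] [Nontrivial X]
    (T : X →L[𝕂] X) {x : X} (hx : x ∈ HC T) :
    ∃ M : Submodule 𝕂 X, Dense (M : Set X) ∧
        (∀ x ∈ M, x ≠ 0 → x ∈ HC T) ∧ Module.rank 𝕂 M = Module.rank 𝕂 X := by
  classical
  have hcg : (uniformity X).IsCountablyGenerated :=
    IsUniformAddGroup.uniformity_countably_generated
  letI : MetricSpace X := UniformSpace.metricSpace X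
  have hsep : TopologicalSpace.SeparableSpace X :=
    ⟨_, Set.countable_range _, hx⟩
  have hsc : SecondCountableTopology X := UniformSpace.secondCountable_of_separable X
  let B := TopologicalSpace.countableBasis X
  have hB := TopologicalSpace.isBasis_countableBasis X
  have hBc : B.Countable := TopologicalSpace.countable_countableBasis X
  have hres : ∀ᶠ f in residual C(K, X), ∀ U ∈ B, U.Nonempty → ((∀ k, f ∈ OO T k U) ∧ f ∈ OP 𝕂 U) := by
    rw [eventually_countable_ball hBc]
    intro U hU
    by_cases hne : U.Nonempty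
    · have hUo : IsOpen U := hB.isOpen hU
      have h1 : ∀ᶠ f in residual C(K, X), ∀ k, f ∈ OO T k U := by
        rw [eventually_countable_forall]
        intro k
        exact residual_of_dense_open (isOpen_OO T k hUo) (dense_OO T hx k hUo hne)
      have h2 : ∀ᶠ f in residual C(K, X), f ∈ OP 𝕂 U :=
        residual_of_dense_open (isOpen_OP hUo) (dense_OP hne)
      filter_upwards [h1, h2] with f hf1 hf2 _
      exact ⟨hf1, hf2⟩
    · exact Eventually.of_forall (fun f h => absurd h hne)
  obtain ⟨f, hf⟩ := (dense_of_mem_residual hres).nonempty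
  have hcomb := comb_mem_HC T B hB f (fun k U hU hne => (hf U hU hne).1 k)
  have h0 : (0 : X) ∉ HC T := by
    intro h
    have h1 : (Set.range fun n : ℕ => (T ^ n) (0 : X)) = {0} := by
      ext y
      simp
    rw [HC, Set.mem_ofPred_eq, h1] at h
    obtain ⟨y, hy⟩ := exists_ne (0 : X)
    have := h y
    rw [closure_singleton] at this
    exact hy this
  have hli : LinearIndependent 𝕂 f := by
    rw [linearIndependent_iff]
    intro l hl
    by_contra hne
    have := hcomb l hne
    rw [hl] at this
    exact h0 this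
  refine ⟨Submodule.span 𝕂 (Set.range f), ?_, ?_, ?_⟩
  · rw [hB.dense_iff]
    intro U hU hne
    obtain ⟨s, t, b, hb⟩ := (hf U hU hne).2
    refine ⟨_, hb, ?_⟩
    apply Submodule.smul_mem
    apply Submodule.sub_mem
    · exact Submodule.subset_span ⟨s, rfl⟩
    · exact Submodule.subset_span ⟨t, rfl⟩
  · intro y hy hy0
    rw [Finsupp.mem_span_range_iff_exists_finsupp] at hy
    obtain ⟨l, rfl⟩ := hy
    apply hcomb l
    rintro rfl
    simp at hy0
  · apply le_antisymm
    · exact Submodule.rank_le _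
    · have h1 : Module.rank 𝕂 X ≤ Cardinal.continuum := (rank_le_card 𝕂 X).trans card_le_continuum
      have h2 : Module.rank 𝕂 (Submodule.span 𝕂 (Set.range f)) = Cardinal.continuum := by
        rw [rank_span hli, Cardinal.mk_range_eq _ hli.injective]
        simp [K]
      rw [h2]
      exact h1

end main

/-- For every real or complex F-space X and every hypercyclic operator T on X, some dense subspace of X, with the same Hamel dimension as X, has all its nonzero vectors hypercyclic for T. -/
theorem result :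
    ∀ (𝕂 : Type) [RCLike 𝕂] (X : Type) [AddCommGroup X] [Module 𝕂 X] [UniformSpace X]
      [IsUniformAddGroup X] [CompleteSpace X] [ContinuousSMul 𝕂 X]
      [TopologicalSpace.MetrizableSpace X] (T : X →L[𝕂] X),
      (∃ x : X, Dense (Set.range fun n : ℕ => (⇑T)^[n] x)) →
      ∃ M : Submodule 𝕂 X, Dense (M : Set X) ∧
        (∀ x ∈ M, x ≠ 0 → Dense (Set.range fun n : ℕ => (⇑T)^[n] x)) ∧
        Module.rank 𝕂 M = Module.rank 𝕂 X := by
  intro 𝕂 _ X _ _ _ _ _ _ _ T hT
  obtain ⟨x, hx⟩ := hT
  rcases subsingleton_or_nontrivial X with hX | hX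
  · refine ⟨⊤, ?_, ?_, ?_⟩
    · rw [Submodule.top_coe]
      exact dense_univ
    · intro y _ hy
      exact absurd (Subsingleton.elim _ _) hy
    · exact rank_top 𝕂 X
  · have h : ∀ y : X, (Set.range fun n : ℕ => (⇑T)^[n] y) = Set.range fun n : ℕ => (T ^ n) y := by
      intro y
      congr 1
      funext n
      induction n with
      | zero => simp
      | succ n ih => rw [Function.iterate_succ_apply', ih, pow_succ', mul_apply_eq_comp]
    rw [h] at hx
    obtain ⟨M, h1, h2, h3⟩ := main_nontrivial T (x := x) hx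
    refine ⟨M, h1, ?_, h3⟩
    intro y hy hy0
    rw [h]
    exact h2 y hy hy0

end Pool.Agent.S04485
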