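import Pool.Statements.S04490
import Pool.Agent.Helper523.Valence

set_option autoImplicit false
open Pool Pool.MP_fda7e3_an

namespace Pool.Agent.S04490

/-- The negation of the preceding statement: For every complex polynomial T and every connected component D of the set where ∣T'∣ < 1, each value w is taken by conj(z) + T(z) at most r+1 times in D, where r is the number of zeros of T'' in D counted with multiplicity. -/
theorem result :
    ¬ (∀ (T : Polynomial ℂ) (x : ℂ), ‖(Polynomial.derivative T).eval x‖ < 1 →
      ∀ w : ℂ,
        {z : ℂ | z ∈ connectedComponentIn {u : ℂ | ‖(Polynomial.derivative T).eval u‖ < 1} x ∧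
            starRingEnd ℂ z + T.eval z = w}.encard
          ≤ (((∑ᶠ z ∈ connectedComponentIn {u : ℂ | ‖(Polynomial.derivative T).eval u‖ < 1} x,
                (Polynomial.derivative (Polynomial.derivative T)).rootMultiplicity z) + 1 : ℕ) : ℕ∞)) := by
  intro h
  have hx : ‖(Polynomial.derivative Helper523.Valence.T).eval 0‖ < 1 := by
    rw [Helper523.Valence.T1_eval]; norm_num
  have h1 := h Helper523.Valence.T 0 hx ((139 - 60 * Complex.I) +
    Helper523.Valence.T.eval (139 + 60 * Complex.I))
  have hsum : (∑ᶠ z ∈ connectedComponentIn {u : ℂ | ‖(Polynomial.derivative Helper523.Valence.T).eval u‖ < 1} 0,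
      (Polynomial.derivative (Polynomial.derivative Helper523.Valence.T)).rootMultiplicity z) = 0 := by
    apply finsum_mem_eq_zero_of_forall_eq_zero
    intro z hz
    have hz0 := connectedComponentIn_subset _ _ hz
    have hz1 : ‖(Polynomial.derivative Helper523.Valence.T).eval z‖ < 1 := hz0
    apply Polynomial.rootMultiplicity_eq_zero
    intro hroot
    have := Helper523.Valence.crit_values z hroot
    linarith
  rw [hsum] at h1
  have h2 : {z : ℂ | z ∈ connectedComponentIn {u : ℂ | ‖(Polynomial.derivative Helper523.Valence.T).eval u‖ < 1} 0 ∧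
      starRingEnd ℂ z + Helper523.Valence.T.eval z = (139 - 60 * Complex.I) +
        Helper523.Valence.T.eval (139 + 60 * Complex.I)}.encard ≤ 1 := by
    simpa using h1
  rw [Set.encard_le_one_iff] at h2
  have hc : starRingEnd ℂ (139 + 60 * Complex.I) = 139 - 60 * Complex.I := by
    simp [map_ofNat]; ring
  have e1 := h2 (139 + 60 * Complex.I) (139 - 60 * Complex.I)
    ⟨Helper523.Valence.conn _ Helper523.Valence.seg_mem, by rw [hc]⟩
    ⟨Helper523.Valence.conn _ Helper523.Valence.seg_mem', by
      rw [← hc, Complex.conj_conj, Helper523.Valence.T_conj, Helper523.Valence.T_z1, hc]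
      simp [map_ofNat]
      ring⟩
  have e2 := congrArg Complex.im e1
  simp at e2
  norm_num at e2

end Pool.Agent.S04490
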