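import Pool.Statements.S04497
-- import your own Pool.Agent.* helpers here

set_option autoImplicit false
open Pool Pool.MP_fe3998_an

namespace Pool.Agent.S04497.Aux

open Finset

/-- signed sum -/
noncomputable def X {ι : Type} [DecidableEq ι] (s : Finset ι) (u : ι → ℂ) (A : Finset ι) : ℂ :=
  ∑ t ∈ s, (if t ∈ A then u t else - u t)

lemma X_insert_not {ι : Type} [DecidableEq ι] (s A : Finset ι) (a : ι) (u : ι → ℂ)
    (ha : a ∉ s) (hA : A ⊆ s) : X (insert a s) u A = X s u A - u a := by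
  have h1 : a ∉ A := fun h => ha (hA h)
  rw [X, sum_insert ha, if_neg h1, X]; ring

lemma X_insert_mem {ι : Type} [DecidableEq ι] (s A : Finset ι) (a : ι) (u : ι → ℂ)
    (ha : a ∉ s) (hA : A ⊆ s) : X (insert a s) u (insert a A) = X s u A + u a := by
  rw [X, sum_insert ha, if_pos (mem_insert_self a A), X, add_comm]
  congr 1
  apply sum_congr rfl
  intro t ht
  have : t ≠ a := fun h => ha (h ▸ ht)
  simp [mem_insert, this]

lemma rad2 {ι : Type} [DecidableEq ι] (s : Finset ι) (u v : ι → ℂ) :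
    ∑ A ∈ s.powerset, (starRingEnd ℂ) (X s u A) * X s v A
      = 2 ^ s.card * ∑ t ∈ s, (starRingEnd ℂ) (u t) * v t := by
  induction s using Finset.induction_on with
  | empty => simp [X]
  | insert a s ha ih =>
    rw [sum_powerset_insert ha, card_insert_of_notMem ha, sum_insert ha, pow_succ]
    rw [← sum_add_distrib]
    have : ∀ A ∈ s.powerset, (starRingEnd ℂ) (X (insert a s) u A) * X (insert a s) v A
        + (starRingEnd ℂ) (X (insert a s) u (insert a A)) * X (insert a s) v (insert a A)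
        = 2 * ((starRingEnd ℂ) (X s u A) * X s v A) + 2 * ((starRingEnd ℂ) (u a) * v a) := by
      intro A hA
      have hA' := mem_powerset.1 hA
      rw [X_insert_not s A a u ha hA', X_insert_not s A a v ha hA', X_insert_mem s A a u ha hA',
        X_insert_mem s A a v ha hA', map_sub, map_add]
      ring
    rw [sum_congr rfl this, sum_add_distrib, ← mul_sum, ih, sum_const, card_powerset, nsmul_eq_mul]
    push_cast
    ring

lemma four_avg (a b : ℂ) : ‖a - b‖ ^ 4 + ‖a + b‖ ^ 4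
    ≤ 2 * ‖a‖ ^ 4 + 12 * (‖a‖ ^ 2 * ‖b‖ ^ 2) + 2 * ‖b‖ ^ 4 := by
  have e : ∀ z : ℂ, ‖z‖ ^ 2 = z.re ^ 2 + z.im ^ 2 := by
    intro z; rw [← Complex.normSq_eq_norm_sq, Complex.normSq_apply]; ring
  have e4 : ∀ z : ℂ, ‖z‖ ^ 4 = (z.re ^ 2 + z.im ^ 2) ^ 2 := by
    intro z; rw [← e]; ring
  rw [e4, e4, e4, e4, e a, e b]
  simp only [Complex.sub_re, Complex.sub_im, Complex.add_re, Complex.add_im]
  nlinarith [sq_nonneg (a.re * b.im - a.im * b.re)]

lemma rad2' {ι : Type} [DecidableEq ι] (s : Finset ι) (u : ι → ℂ) :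
    ∑ A ∈ s.powerset, ‖X s u A‖ ^ 2 = 2 ^ s.card * ∑ t ∈ s, ‖u t‖ ^ 2 := by
  have h := rad2 s u u
  have e : ∀ z : ℂ, (starRingEnd ℂ) z * z = ((‖z‖ ^ 2 : ℝ) : ℂ) := by
    intro z; rw [mul_comm, Complex.mul_conj, Complex.normSq_eq_norm_sq]
  simp only [e] at h
  exact_mod_cast h

lemma rad4 {ι : Type} [DecidableEq ι] (s : Finset ι) (u : ι → ℂ) :
    ∑ A ∈ s.powerset, ‖X s u A‖ ^ 4 ≤ 3 * 2 ^ s.card * (∑ t ∈ s, ‖u t‖ ^ 2) ^ 2 := by
  induction s using Finset.induction_on with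
  | empty => simp [X]
  | insert a s ha ih =>
    rw [sum_powerset_insert ha, card_insert_of_notMem ha, sum_insert ha, pow_succ]
    rw [← sum_add_distrib]
    have : ∀ A ∈ s.powerset, ‖X (insert a s) u A‖ ^ 4 + ‖X (insert a s) u (insert a A)‖ ^ 4
        ≤ 2 * ‖X s u A‖ ^ 4 + 12 * (‖X s u A‖ ^ 2 * ‖u a‖ ^ 2) + 2 * ‖u a‖ ^ 4 := by
      intro A hA
      have hA' := mem_powerset.1 hA
      rw [X_insert_not s A a u ha hA', X_insert_mem s A a u ha hA']
      exact four_avg _ _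
    refine (sum_le_sum this).trans ?_
    rw [sum_add_distrib, sum_add_distrib, ← mul_sum, ← mul_sum, ← sum_mul, rad2' s u, sum_const,
      card_powerset, nsmul_eq_mul]
    push_cast
    set S := ∑ t ∈ s, ‖u t‖ ^ 2
    have hp : (0:ℝ) < 2 ^ s.card := by positivity
    nlinarith [mul_nonneg hp.le (sq_nonneg (‖u a‖^2))]


def HB (N : ℕ) (g : Fin N → Fin N → ℂ) (B : ℝ) : Prop :=
  ∀ (ι : Type) [Fintype ι] (u v : Fin N → ι → ℂ),
    (∀ i, ∑ t, ‖u i t‖ ^ 2 ≤ 1) → (∀ j, ∑ t, ‖v j t‖ ^ 2 ≤ 1) →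
    ‖∑ i, ∑ j, g i j * ∑ t, (starRingEnd ℂ) (u i t) * v j t‖ ≤ B

lemma HB.scale {N : ℕ} {g : Fin N → Fin N → ℂ} {B : ℝ} (h : HB N g B) {ι : Type} [Fintype ι]
    (u v : Fin N → ι → ℂ) {P Q : ℝ} (hP : 0 < P) (hQ : 0 < Q)
    (hu : ∀ i, ∑ t, ‖u i t‖ ^ 2 ≤ P) (hv : ∀ j, ∑ t, ‖v j t‖ ^ 2 ≤ Q) :
    ‖∑ i, ∑ j, g i j * ∑ t, (starRingEnd ℂ) (u i t) * v j t‖ ≤ √P * √Q * B := by
  have hP' : 0 < √P := Real.sqrt_pos.2 hP
  have hQ' : 0 < √Q := Real.sqrt_pos.2 hQ
  have key := h ι (fun i t => (((√P)⁻¹ : ℝ) : ℂ) * u i t) (fun j t => (((√Q)⁻¹ : ℝ) : ℂ) * v j t)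
    (by
      intro i
      simp only [norm_mul, mul_pow, Complex.norm_real, norm_inv, Real.norm_eq_abs, abs_of_pos hP']
      rw [← mul_sum, inv_pow, Real.sq_sqrt hP.le]
      rw [inv_mul_le_iff₀ hP]; simpa using hu i)
    (by
      intro i
      simp only [norm_mul, mul_pow, Complex.norm_real, norm_inv, Real.norm_eq_abs, abs_of_pos hQ']
      rw [← mul_sum, inv_pow, Real.sq_sqrt hQ.le]
      rw [inv_mul_le_iff₀ hQ]; simpa using hv i)
  have e : ∑ i, ∑ j, g i j * ∑ t, (starRingEnd ℂ) (u i t) * v j t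
      = ((√P * √Q : ℝ) : ℂ) * ∑ i, ∑ j, g i j * ∑ t,
        (starRingEnd ℂ) ((((√P)⁻¹ : ℝ) : ℂ) * u i t) * ((((√Q)⁻¹ : ℝ) : ℂ) * v j t) := by
    rw [mul_sum]
    refine sum_congr rfl fun i _ => ?_
    rw [mul_sum]
    refine sum_congr rfl fun j _ => ?_
    rw [mul_left_comm]
    congr 1
    rw [mul_sum]
    refine sum_congr rfl fun t _ => ?_
    rw [map_mul, Complex.conj_ofReal]
    have : ((√P * √Q : ℝ) : ℂ) * (((√P)⁻¹ : ℝ) : ℂ) * (((√Q)⁻¹ : ℝ) : ℂ) = 1 := by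
      rw [← Complex.ofReal_mul, ← Complex.ofReal_mul]
      norm_cast
      field_simp
    calc (starRingEnd ℂ) (u i t) * v j t = (((√P * √Q : ℝ) : ℂ) * (((√P)⁻¹ : ℝ) : ℂ) *
            (((√Q)⁻¹ : ℝ) : ℂ)) * ((starRingEnd ℂ) (u i t) * v j t) := by rw [this, one_mul]
      _ = _ := by ring
  rw [e, norm_mul, Complex.norm_real, Real.norm_eq_abs, abs_of_pos (mul_pos hP' hQ')]
  exact mul_le_mul_of_nonneg_left key (mul_pos hP' hQ').le

/-- classical bound on all pairs of vectors with entries of modulus at most one -/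
def CB (N : ℕ) (g : Fin N → Fin N → ℂ) (M : ℝ) : Prop :=
  ∀ x y : Fin N → ℂ, (∀ i, ‖x i‖ ≤ 1) → (∀ j, ‖y j‖ ≤ 1) → ‖∑ i, ∑ j, g i j * x i * y j‖ ≤ M

lemma CB.scale {N : ℕ} {g : Fin N → Fin N → ℂ} {M : ℝ} (h : CB N g M) (x y : Fin N → ℂ) {R : ℝ}
    (hR : 0 < R) (hx : ∀ i, ‖x i‖ ^ 2 ≤ R) (hy : ∀ j, ‖y j‖ ^ 2 ≤ R) :
    ‖∑ i, ∑ j, g i j * x i * y j‖ ≤ R * M := by
  have hR' : 0 < √R := Real.sqrt_pos.2 hR
  have key := h (fun i => (((√R)⁻¹ : ℝ) : ℂ) * x i) (fun i => (((√R)⁻¹ : ℝ) : ℂ) * y i)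
    (by
      intro i
      rw [norm_mul, Complex.norm_real, norm_inv, Real.norm_eq_abs, abs_of_pos hR',
        inv_mul_le_iff₀ hR', mul_one]
      exact Real.le_sqrt_of_sq_le (hx i))
    (by
      intro i
      rw [norm_mul, Complex.norm_real, norm_inv, Real.norm_eq_abs, abs_of_pos hR',
        inv_mul_le_iff₀ hR', mul_one]
      exact Real.le_sqrt_of_sq_le (hy i))
  have hRR : R = √R * √R := (Real.mul_self_sqrt hR.le).symm
  have e : ∑ i, ∑ j, g i j * x i * y j = ((R : ℝ) : ℂ) *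
      ∑ i, ∑ j, g i j * ((((√R)⁻¹ : ℝ) : ℂ) * x i) * ((((√R)⁻¹ : ℝ) : ℂ) * y j) := by
    rw [mul_sum]
    refine sum_congr rfl fun i _ => ?_
    rw [mul_sum]
    refine sum_congr rfl fun j _ => ?_
    have : ((R : ℝ) : ℂ) * (((√R)⁻¹ : ℝ) : ℂ) * (((√R)⁻¹ : ℝ) : ℂ) = 1 := by
      rw [← Complex.ofReal_mul, ← Complex.ofReal_mul]
      norm_cast
      rw [mul_assoc, ← mul_inv, Real.mul_self_sqrt hR.le, mul_inv_cancel₀ hR.ne']
    calc g i j * x i * y j = (((R : ℝ) : ℂ) * (((√R)⁻¹ : ℝ) : ℂ) * (((√R)⁻¹ : ℝ) : ℂ)) *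
          (g i j * x i * y j) := by rw [this, one_mul]
      _ = _ := by ring
  rw [e, norm_mul, Complex.norm_real, Real.norm_eq_abs, abs_of_pos hR]
  exact mul_le_mul_of_nonneg_left key hR.le

/-- truncation -/
noncomputable def tr (z : ℂ) : ℂ := if ‖z‖ ^ 2 ≤ 48 then z else 0

lemma tr_le (z : ℂ) : ‖tr z‖ ^ 2 ≤ ‖z‖ ^ 2 := by
  unfold tr; split_ifs with h
  · exact le_rfl
  · simp

lemma tr_le' (z : ℂ) : ‖tr z‖ ^ 2 ≤ 48 := by
  unfold tr; split_ifs with h
  · exact h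
  · simp

lemma sub_tr_le (z : ℂ) : ‖z - tr z‖ ^ 2 ≤ ‖z‖ ^ 4 / 48 := by
  unfold tr; split_ifs with h
  · simp; positivity
  · push Not at h
    rw [sub_zero, le_div_iff₀ (by norm_num)]
    nlinarith [sq_nonneg ‖z‖]

lemma HB.improve {N : ℕ} {g : Fin N → Fin N → ℂ} {M B : ℝ} (hM : CB N g M) (hB : HB N g B) :
    HB N g (48 * M + B / 2) := by
  classical
  intro ι _ u v hu hv
  set n := Fintype.card ι with hn
  have hpow : (univ : Finset ι).powerset = (univ : Finset (Finset ι)) := powerset_univ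
  let U : Fin N → Finset ι → ℂ := fun i A => X univ (u i) A
  let V : Fin N → Finset ι → ℂ := fun i A => X univ (v i) A
  have h2n : (0:ℝ) < 2 ^ n := by positivity
  have h2 : ∀ i j, (2:ℂ) ^ n * ∑ t, (starRingEnd ℂ) (u i t) * v j t
      = ∑ A, (starRingEnd ℂ) (U i A) * V j A := by
    intro i j
    have := rad2 univ (u i) (v j)
    rw [hpow, card_univ] at this
    exact this.symm
  have hU2 : ∀ i, ∑ A, ‖U i A‖ ^ 2 ≤ 2 ^ n := by
    intro i
    have := rad2' univ (u i)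
    rw [hpow, card_univ] at this
    rw [this]
    have := hu i
    nlinarith
  have hV2 : ∀ i, ∑ A, ‖V i A‖ ^ 2 ≤ 2 ^ n := by
    intro i
    have := rad2' univ (v i)
    rw [hpow, card_univ] at this
    rw [this]
    have := hv i
    nlinarith
  have hU4 : ∀ i, ∑ A, ‖U i A - tr (U i A)‖ ^ 2 ≤ 2 ^ n / 16 := by
    intro i
    have := rad4 univ (u i)
    rw [hpow, card_univ] at this
    have h1 := hu i
    have h0 : 0 ≤ ∑ t, ‖u i t‖ ^ 2 := sum_nonneg fun t _ => by positivity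
    calc ∑ A, ‖U i A - tr (U i A)‖ ^ 2 ≤ ∑ A, ‖U i A‖ ^ 4 / 48 := sum_le_sum fun A _ => sub_tr_le _
      _ = (∑ A, ‖U i A‖ ^ 4) / 48 := by rw [sum_div]
      _ ≤ (3 * 2 ^ n * (∑ t, ‖u i t‖ ^ 2) ^ 2) / 48 := by
          apply div_le_div_of_nonneg_right this (by norm_num)
      _ ≤ (3 * 2 ^ n * 1) / 48 := by
          apply div_le_div_of_nonneg_right _ (by norm_num)
          apply mul_le_mul_of_nonneg_left _ (by positivity)
          nlinarith
      _ = 2 ^ n / 16 := by ring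
  have hV4 : ∀ i, ∑ A, ‖V i A - tr (V i A)‖ ^ 2 ≤ 2 ^ n / 16 := by
    intro i
    have := rad4 univ (v i)
    rw [hpow, card_univ] at this
    have h1 := hv i
    have h0 : 0 ≤ ∑ t, ‖v i t‖ ^ 2 := sum_nonneg fun t _ => by positivity
    calc ∑ A, ‖V i A - tr (V i A)‖ ^ 2 ≤ ∑ A, ‖V i A‖ ^ 4 / 48 := sum_le_sum fun A _ => sub_tr_le _
      _ = (∑ A, ‖V i A‖ ^ 4) / 48 := by rw [sum_div]
      _ ≤ (3 * 2 ^ n * (∑ t, ‖v i t‖ ^ 2) ^ 2) / 48 := by
          apply div_le_div_of_nonneg_right this (by norm_num)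
      _ ≤ (3 * 2 ^ n * 1) / 48 := by
          apply div_le_div_of_nonneg_right _ (by norm_num)
          apply mul_le_mul_of_nonneg_left _ (by positivity)
          nlinarith
      _ = 2 ^ n / 16 := by ring
  have hsq : √((2:ℝ) ^ n) * √((2:ℝ) ^ n / 16) = 2 ^ n / 4 := by
    rw [← Real.sqrt_mul h2n.le]
    rw [show (2:ℝ) ^ n * (2 ^ n / 16) = (2 ^ n / 4) ^ 2 by ring]
    exact Real.sqrt_sq (by positivity)
  -- three terms
  have t1 : ‖∑ i, ∑ j, g i j * ∑ A, (starRingEnd ℂ) (tr (U i A)) * tr (V j A)‖ ≤ 2 ^ n * (48 * M) := by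
    have e : ∑ i, ∑ j, g i j * ∑ A, (starRingEnd ℂ) (tr (U i A)) * tr (V j A)
        = ∑ A : Finset ι, ∑ i, ∑ j, g i j * (starRingEnd ℂ) (tr (U i A)) * tr (V j A) := by
      rw [sum_comm]
      have : ∀ i ∈ (univ : Finset (Fin N)), ∑ j, g i j * ∑ A, (starRingEnd ℂ) (tr (U i A)) * tr (V j A)
          = ∑ A : Finset ι, ∑ j, g i j * (starRingEnd ℂ) (tr (U i A)) * tr (V j A) := by
        intro i _
        rw [sum_comm]
        refine sum_congr rfl fun j _ => ?_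
        rw [mul_sum]
        exact sum_congr rfl fun A _ => by ring
      rw [sum_comm, sum_congr rfl this, sum_comm]
    rw [e]
    refine (norm_sum_le _ _).trans ?_
    have : ∀ A ∈ (univ : Finset (Finset ι)),
        ‖∑ i, ∑ j, g i j * (starRingEnd ℂ) (tr (U i A)) * tr (V j A)‖ ≤ 48 * M := by
      intro A _
      exact hM.scale (fun i => (starRingEnd ℂ) (tr (U i A))) (fun j => tr (V j A)) (by norm_num)
        (fun i => by rw [RCLike.norm_conj]; exact tr_le' _) (fun j => tr_le' _)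
    refine (sum_le_sum this).trans ?_
    rw [sum_const, card_univ, Fintype.card_finset, nsmul_eq_mul]
    push_cast
    exact le_rfl
  have t2 := hB.scale (fun i A => tr (U i A)) (fun j A => V j A - tr (V j A)) (P := 2 ^ n)
    (Q := 2 ^ n / 16) h2n (by positivity)
    (fun i => (sum_le_sum fun A _ => tr_le _).trans (hU2 i)) hV4
  have t3 := hB.scale (fun i A => U i A - tr (U i A)) (fun j A => V j A) (P := 2 ^ n / 16)
    (Q := 2 ^ n) (by positivity) h2n hU4 hV2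
  rw [hsq] at t2
  rw [mul_comm √((2:ℝ) ^ n / 16), hsq] at t3
  have e : (2:ℂ) ^ n * ∑ i, ∑ j, g i j * ∑ t, (starRingEnd ℂ) (u i t) * v j t
      = (∑ i, ∑ j, g i j * ∑ A, (starRingEnd ℂ) (tr (U i A)) * tr (V j A))
        + (∑ i, ∑ j, g i j * ∑ A, (starRingEnd ℂ) (tr (U i A)) * (V j A - tr (V j A)))
        + (∑ i, ∑ j, g i j * ∑ A, (starRingEnd ℂ) (U i A - tr (U i A)) * V j A) := by
    rw [mul_sum, ← sum_add_distrib, ← sum_add_distrib]
    refine sum_congr rfl fun i _ => ?_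
    rw [mul_sum, ← sum_add_distrib, ← sum_add_distrib]
    refine sum_congr rfl fun j _ => ?_
    rw [mul_left_comm, h2, ← mul_add, ← mul_add, ← sum_add_distrib, ← sum_add_distrib]
    congr 1
    refine sum_congr rfl fun A _ => ?_
    rw [map_sub]; ring
  have e2 : (2:ℝ) ^ n * ‖∑ i, ∑ j, g i j * ∑ t, (starRingEnd ℂ) (u i t) * v j t‖
      ≤ 2 ^ n * (48 * M + B / 2) := by
    calc (2:ℝ) ^ n * ‖∑ i, ∑ j, g i j * ∑ t, (starRingEnd ℂ) (u i t) * v j t‖
        = ‖(2:ℂ) ^ n * ∑ i, ∑ j, g i j * ∑ t, (starRingEnd ℂ) (u i t) * v j t‖ := by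
          rw [norm_mul, norm_pow]; simp
      _ ≤ 2 ^ n * (48 * M) + 2 ^ n / 4 * B + 2 ^ n / 4 * B := by
          rw [e]
          refine (norm_add_le _ _).trans (add_le_add ((norm_add_le _ _).trans (add_le_add t1 t2)) t3)
      _ = 2 ^ n * (48 * M + B / 2) := by ring
  exact le_of_mul_le_mul_left e2 h2n

lemma cs {ι : Type} [Fintype ι] (u v : ι → ℂ) (hu : ∑ t, ‖u t‖ ^ 2 ≤ 1) (hv : ∑ t, ‖v t‖ ^ 2 ≤ 1) :
    ‖∑ t, (starRingEnd ℂ) (u t) * v t‖ ≤ 1 := by
  calc ‖∑ t, (starRingEnd ℂ) (u t) * v t‖ ≤ ∑ t, ‖(starRingEnd ℂ) (u t) * v t‖ := norm_sum_le _ _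
    _ = ∑ t, ‖u t‖ * ‖v t‖ := by simp
    _ ≤ ∑ t, (‖u t‖ ^ 2 + ‖v t‖ ^ 2) / 2 := sum_le_sum fun t _ => by nlinarith [sq_nonneg (‖u t‖ - ‖v t‖)]
    _ = (∑ t, ‖u t‖ ^ 2 + ∑ t, ‖v t‖ ^ 2) / 2 := by rw [← sum_add_distrib, sum_div]
    _ ≤ 1 := by linarith

/-- Grothendieck's inequality (with constant 96) -/
lemma groth {N : ℕ} {g : Fin N → Fin N → ℂ} {M : ℝ} (hM : CB N g M) : HB N g (96 * M) := by
  set B0 := ∑ i, ∑ j, ‖g i j‖ with hB0
  have hB00 : 0 ≤ B0 := sum_nonneg fun i _ => sum_nonneg fun j _ => norm_nonneg _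
  have hM0 : 0 ≤ M := by
    have := hM 0 0 (by simp) (by simp)
    exact (norm_nonneg _).trans this
  have h : ∀ k : ℕ, HB N g (96 * M + B0 / 2 ^ k) := by
    intro k
    induction k with
    | zero =>
      intro ι _ u v hu hv
      have : ‖∑ i, ∑ j, g i j * ∑ t, (starRingEnd ℂ) (u i t) * v j t‖ ≤ B0 := by
        refine (norm_sum_le _ _).trans (sum_le_sum fun i _ => (norm_sum_le _ _).trans
          (sum_le_sum fun j _ => ?_))
        rw [norm_mul]
        have := cs (u i) (v j) (hu i) (hv j)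
        nlinarith [norm_nonneg (g i j)]
      simp only [pow_zero, div_one]
      linarith
    | succ k ih =>
      have := HB.improve hM ih
      have e : 48 * M + (96 * M + B0 / 2 ^ k) / 2 = 96 * M + B0 / 2 ^ (k + 1) := by
        rw [pow_succ]; field_simp; ring
      rwa [e] at this
  intro ι _ u v hu hv
  have hlim : Filter.Tendsto (fun k : ℕ => 96 * M + B0 / 2 ^ k) Filter.atTop (nhds (96 * M + 0)) := by
    apply Filter.Tendsto.const_add
    apply Filter.Tendsto.div_atTop tendsto_const_nhds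
    exact tendsto_pow_atTop_atTop_of_one_lt (by norm_num)
  rw [add_zero] at hlim
  exact ge_of_tendsto' hlim fun k => h k ι u v hu hv

abbrev EE (N : ℕ) := EuclideanSpace ℂ (Fin (2 * N + 1))

lemma exists_orth (N : ℕ) (u v : Fin N → EE N) :
    ∃ e : EE N, ‖e‖ = 1 ∧ (∀ i, inner ℂ (u i) e = 0) ∧
      (∀ j, inner ℂ (v j) e = 0) := by
  let w : Fin N ⊕ Fin N → EE N := Sum.elim u v
  let S := Submodule.span ℂ (Set.range w)
  have h1 : Module.finrank ℂ S ≤ 2 * N := by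
    have := finrank_range_le_card (R := ℂ) w
    simp only [Fintype.card_sum, Fintype.card_fin] at this
    have h : Module.finrank ℂ S = (Set.range w).finrank ℂ := rfl
    omega
  have h2 : Sᗮ ≠ ⊥ := by
    intro h
    rw [Submodule.orthogonal_eq_bot_iff] at h
    rw [h, finrank_top, finrank_euclideanSpace, Fintype.card_fin] at h1
    omega
  obtain ⟨x, hx, hx0⟩ := Submodule.exists_mem_ne_zero_of_ne_bot h2
  have hxn : ‖x‖ ≠ 0 := norm_ne_zero_iff.2 hx0
  have hxo : ∀ t, inner ℂ (w t) x = 0 := fun t =>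
    Submodule.inner_right_of_mem_orthogonal (Submodule.subset_span (Set.mem_range_self t)) hx
  refine ⟨((‖x‖⁻¹ : ℝ) : ℂ) • x, ?_, ?_, ?_⟩
  · rw [norm_smul, Complex.norm_real, norm_inv, norm_norm, inv_mul_cancel₀ hxn]
  · intro i
    have h := hxo (Sum.inl i)
    simp only [w, Sum.elim_inl] at h
    rw [inner_smul_right, h, mul_zero]
  · intro i
    have h := hxo (Sum.inr i)
    simp only [w, Sum.elim_inr] at h
    rw [inner_smul_right, h, mul_zero]

lemma deriv_aux (N : ℕ) (R : Fin N → Fin N → ℝ) (α β : Fin N → ℝ) (T : ℝ) :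
    HasDerivAt (fun s : ℝ => ∑ i, ∑ j, √(1 - s * α i) * √(1 - s * β j) * R i j + s * T)
      (∑ i, ∑ j, (-(α i + β j) / 2) * R i j + T) 0 := by
  have h1 : ∀ a : ℝ, HasDerivAt (fun s : ℝ => √(1 - s * a)) (-a / 2) 0 := by
    intro a
    have h : HasDerivAt (fun s : ℝ => 1 - s * a) (-a) 0 := by
      have := ((hasDerivAt_id (0:ℝ)).mul_const a).const_sub 1
      simpa using this
    have := h.sqrt (by norm_num)
    simpa using this
  apply HasDerivAt.add
  · apply HasDerivAt.fun_sum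
    intro i _
    apply HasDerivAt.fun_sum
    intro j _
    have := ((h1 (α i)).mul (h1 (β j))).mul_const (R i j)
    refine this.congr_deriv ?_
    simp only [zero_mul, sub_zero, Real.sqrt_one, mul_one, one_mul]
    ring
  · have := (hasDerivAt_id (0:ℝ)).mul_const T
    simpa using this

lemma factor {N : ℕ} {d : Fin N → Fin N → ℂ} {B : ℝ} (hB : HB N d B) :
    ∃ μ ν : Fin N → ℝ, ∑ i, μ i ≤ B ∧ ∑ j, ν j ≤ B ∧ ∀ a b : Fin N → ℂ,
      (∑ i, ∑ j, d i j * (starRingEnd ℂ) (a i) * b j).re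
        ≤ (∑ i, μ i * ‖a i‖ ^ 2 + ∑ j, ν j * ‖b j‖ ^ 2) / 2 := by
  let f : (Fin N → EE N) × (Fin N → EE N) → ℝ := fun p => (∑ i, ∑ j, d i j * inner ℂ (p.1 i) (p.2 j)).re
  have hf : Continuous f := by
    apply Complex.continuous_re.comp
    refine continuous_finsetSum _ fun i _ => continuous_finsetSum _ fun j _ => ?_
    apply continuous_const.mul
    exact Continuous.inner (by fun_prop) (by fun_prop)
  obtain ⟨⟨u, v⟩, hmem, hmax⟩ := (isCompact_closedBall (0 : (Fin N → EE N) × (Fin N → EE N)) 1).exists_isMaxOn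
    ⟨0, Metric.mem_closedBall_self zero_le_one⟩ hf.continuousOn
  have memiff : ∀ u v : Fin N → EE N, (u, v) ∈ Metric.closedBall (0 : (Fin N → EE N) × (Fin N → EE N)) 1 ↔
      (∀ i, ‖u i‖ ≤ 1) ∧ (∀ j, ‖v j‖ ≤ 1) := by
    intro u v
    rw [mem_closedBall_zero_iff, Prod.norm_def, max_le_iff]
    rw [pi_norm_le_iff_of_nonneg zero_le_one, pi_norm_le_iff_of_nonneg zero_le_one]
  obtain ⟨hu, hv⟩ := (memiff u v).1 hmem
  obtain ⟨e, he1, heu, hev⟩ := exists_orth N u v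
  let R : Fin N → Fin N → ℝ := fun i j => (d i j * inner ℂ (u i) (v j)).re
  have hfuv : f (u, v) = ∑ i, ∑ j, R i j := by
    simp only [f, R, Complex.re_sum]
  have hfB : f (u, v) ≤ B := by
    have := hB (Fin (2 * N + 1)) (fun i t => u i t) (fun j t => v j t)
      (by
        intro i
        have := hu i
        rw [EuclideanSpace.norm_eq] at this
        simpa using (Real.sqrt_le_left zero_le_one).1 this)
      (by
        intro i
        have := hv i
        rw [EuclideanSpace.norm_eq] at this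
        simpa using (Real.sqrt_le_left zero_le_one).1 this)
    refine le_trans ?_ this
    have e1 : ∑ i, ∑ j, d i j * ∑ t, (starRingEnd ℂ) (u i t) * v j t
        = ∑ i, ∑ j, d i j * inner ℂ (u i) (v j) := by
      refine sum_congr rfl fun i _ => sum_congr rfl fun j _ => ?_
      rw [PiLp.inner_apply]
      congr 1
      refine sum_congr rfl fun t _ => ?_
      simp [mul_comm]
    rw [e1]
    exact Complex.re_le_norm _
  refine ⟨fun i => ∑ j, R i j, fun j => ∑ i, R i j, ?_, ?_, ?_⟩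
  · rw [← hfuv]; exact hfB
  · rw [sum_comm, ← hfuv]; exact hfB
  intro a b
  set T := (∑ i, ∑ j, d i j * (starRingEnd ℂ) (a i) * b j).re with hT
  set α : Fin N → ℝ := fun i => ‖a i‖ ^ 2 with hα
  set β : Fin N → ℝ := fun j => ‖b j‖ ^ 2 with hβ
  have hder := deriv_aux N R α β T
  set φ : ℝ → ℝ := fun s : ℝ => ∑ i, ∑ j, √(1 - s * α i) * √(1 - s * β j) * R i j + s * T with hφ
  have hφ0 : φ 0 = f (u, v) := by
    rw [hfuv, hφ]; simp
  set Z := 1 + ∑ i, α i + ∑ j, β j with hZ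
  have hα0 : ∀ i, 0 ≤ α i := fun i => by positivity
  have hβ0 : ∀ i, 0 ≤ β i := fun i => by positivity
  have hαZ : ∀ i, α i ≤ Z := fun i => by
    have := single_le_sum (fun i _ => hα0 i) (mem_univ i)
    have h2 : 0 ≤ ∑ j, β j := sum_nonneg fun j _ => hβ0 j
    linarith
  have hβZ : ∀ i, β i ≤ Z := fun i => by
    have := single_le_sum (fun i _ => hβ0 i) (mem_univ i)
    have h2 : 0 ≤ ∑ j, α j := sum_nonneg fun j _ => hα0 j
    linarith
  have hZ0 : 0 < Z := by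
    have h2 : 0 ≤ ∑ j, α j := sum_nonneg fun j _ => hα0 j
    have h3 : 0 ≤ ∑ j, β j := sum_nonneg fun j _ => hβ0 j
    linarith
  have hle : ∀ s : ℝ, 0 < s → s ≤ 1 / Z → φ s ≤ φ 0 := by
    intro s hs hsZ
    rw [le_div_iff₀ hZ0] at hsZ
    have h1α : ∀ i, 0 ≤ 1 - s * α i := fun i => by nlinarith [hαZ i]
    have h1β : ∀ i, 0 ≤ 1 - s * β i := fun i => by nlinarith [hβZ i]
    let u' : Fin N → EE N := fun i => ((√(1 - s * α i) : ℝ) : ℂ) • u i + (((√s : ℝ) : ℂ) * a i) • e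
    let v' : Fin N → EE N := fun j => ((√(1 - s * β j) : ℝ) : ℂ) • v j + (((√s : ℝ) : ℂ) * b j) • e
    have hpy : ∀ (x : EE N) (c : ℝ) (z : ℂ), inner ℂ x e = 0 → ‖x‖ ≤ 1 → 0 ≤ 1 - s * ‖z‖ ^ 2 →
        ‖((√(1 - s * ‖z‖ ^ 2) : ℝ) : ℂ) • x + (((√s : ℝ) : ℂ) * z) • e‖ ≤ 1 := by
      intro x c z hxe hx h1
      have h2 := @norm_add_sq ℂ (EE N) _ _ _ (((√(1 - s * ‖z‖ ^ 2) : ℝ) : ℂ) • x) ((((√s : ℝ) : ℂ) * z) • e)
      rw [inner_smul_left, inner_smul_right, hxe] at h2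
      simp only [mul_zero, map_zero, add_zero, norm_smul, norm_mul, Complex.norm_real,
        Real.norm_eq_abs, he1, mul_one, mul_pow, sq_abs] at h2
      rw [Real.sq_sqrt h1, Real.sq_sqrt hs.le] at h2
      have h3 : ‖x‖ ^ 2 ≤ 1 := by nlinarith [norm_nonneg x]
      have h4 : ‖((√(1 - s * ‖z‖ ^ 2) : ℝ) : ℂ) • x + (((√s : ℝ) : ℂ) * z) • e‖ ^ 2 ≤ 1 := by
        rw [h2]; nlinarith
      nlinarith [norm_nonneg (((√(1 - s * ‖z‖ ^ 2) : ℝ) : ℂ) • x + (((√s : ℝ) : ℂ) * z) • e)]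
    have hm : f (u', v') ≤ f (u, v) := hmax ((memiff u' v').2
      ⟨fun i => hpy (u i) 0 (a i) (heu i) (hu i) (h1α i), fun j => hpy (v j) 0 (b j) (hev j) (hv j) (h1β j)⟩)
    have hval : f (u', v') = φ s := by
      have hev' : ∀ j, inner ℂ e (v j) = 0 := fun j => by
        rw [← inner_conj_symm, hev j, map_zero]
      have hee : inner ℂ e e = (1:ℂ) := by
        rw [inner_self_eq_norm_sq_to_K, he1]; simp
      have : ∀ i j, inner ℂ (u' i) (v' j) = ((√(1 - s * α i) * √(1 - s * β j) : ℝ) : ℂ) * inner ℂ (u i) (v j)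
          + (s : ℂ) * ((starRingEnd ℂ) (a i) * b j) := by
        intro i j
        simp only [u', v', inner_add_left, inner_add_right, inner_smul_left, inner_smul_right, heu, hev',
          hee, map_mul, Complex.conj_ofReal]
        have hss : ((√s : ℝ) : ℂ) * ((√s : ℝ) : ℂ) = (s : ℂ) := by
          rw [← Complex.ofReal_mul, Real.mul_self_sqrt hs.le]
        rw [← hss]
        push_cast
        ring
      simp only [f, this, hφ, hT]
      rw [Complex.re_sum]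
      simp only [Complex.re_sum]
      rw [mul_sum, ← sum_add_distrib]
      refine sum_congr rfl fun i _ => ?_
      rw [mul_sum, ← sum_add_distrib]
      refine sum_congr rfl fun j _ => ?_
      simp only [R]
      have e1 : d i j * (((√(1 - s * α i) * √(1 - s * β j) : ℝ) : ℂ) * inner ℂ (u i) (v j)
          + (s : ℂ) * ((starRingEnd ℂ) (a i) * b j))
          = ((√(1 - s * α i) * √(1 - s * β j) : ℝ) : ℂ) * (d i j * inner ℂ (u i) (v j))
            + (s : ℂ) * (d i j * (starRingEnd ℂ) (a i) * b j) := by ring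
      rw [e1, Complex.add_re, Complex.re_ofReal_mul, Complex.re_ofReal_mul]
    rw [← hval, hφ0]
    exact hm
  have hlim := hder.tendsto_slope_zero_right
  have hnonpos : ∑ i, ∑ j, (-(α i + β j) / 2) * R i j + T ≤ 0 := by
    apply le_of_tendsto hlim
    have : Set.Ioc (0:ℝ) (1 / Z) ∈ nhdsWithin (0:ℝ) (Set.Ioi 0) :=
      Ioc_mem_nhdsGT (by positivity)
    filter_upwards [this] with s hs
    have h1 := hle s hs.1 hs.2
    rw [zero_add, smul_eq_mul]
    have h2 : 0 < s⁻¹ := inv_pos.2 hs.1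
    have h3 : φ s - φ 0 ≤ 0 := by linarith
    exact mul_nonpos_of_nonneg_of_nonpos h2.le h3
  have e2 : ∑ i, ∑ j, (-(α i + β j) / 2) * R i j
      = -((∑ i, (∑ j, R i j) * α i + ∑ j, (∑ i, R i j) * β j) / 2) := by
    have e3 : ∑ j, (∑ i, R i j) * β j = ∑ i, ∑ j, R i j * β j := by
      rw [sum_comm]
      exact sum_congr rfl fun j _ => by rw [sum_mul]
    rw [e3, ← sum_add_distrib, sum_div, ← sum_neg_distrib]
    refine sum_congr rfl fun i _ => ?_
    rw [sum_mul, ← sum_add_distrib, sum_div, ← sum_neg_distrib]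
    exact sum_congr rfl fun j _ => by ring
  rw [e2] at hnonpos
  linarith

/-- Tensor product of two bounded bilinear forms. -/
lemma tensor {N : ℕ} {g d : Fin N → Fin N → ℂ} {M₁ M₂ : ℝ} (h1 : CB N g M₁) (h2 : CB N d M₂)
    (P Q : Fin N → Fin N → ℂ) (hP : ∀ i k, ‖P i k‖ ≤ 1) (hQ : ∀ j l, ‖Q j l‖ ≤ 1) :
    ‖∑ i, ∑ j, g i j * ∑ k, ∑ l, d k l * P i k * Q j l‖ ≤ 9216 * M₁ * M₂ := by
  have hM1 : 0 ≤ M₁ := (norm_nonneg _).trans (h1 0 0 (by simp) (by simp))
  have hM2 : 0 ≤ M₂ := (norm_nonneg _).trans (h2 0 0 (by simp) (by simp))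
  obtain ⟨μ, ν, hμ, hν, hab⟩ := factor (groth h2)
  have hμ0 : ∀ i, 0 ≤ μ i := by
    intro i
    have := hab (Pi.single i 1) 0
    simp [Pi.single_apply, apply_ite] at this
    linarith
  have hν0 : ∀ i, 0 ≤ ν i := by
    intro i
    have := hab 0 (Pi.single i 1)
    simp [Pi.single_apply, apply_ite] at this
    linarith
  -- zero columns
  have hz : ∀ l, ν l = 0 → ∀ k, d k l = 0 := by
    intro l hl k
    by_contra hne
    have hd : 0 < ‖d k l‖ := norm_pos_iff.2 hne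
    set c : ℝ := μ k / ‖d k l‖ ^ 2 + 1 with hc
    have := hab (Pi.single k 1) (Pi.single l ((c : ℂ) * (starRingEnd ℂ) (d k l)))
    have e1 : ∑ i, ∑ j, d i j * (starRingEnd ℂ) ((Pi.single k 1 : Fin N → ℂ) i) *
        (Pi.single l ((c : ℂ) * (starRingEnd ℂ) (d k l)) : Fin N → ℂ) j
        = ((c * ‖d k l‖ ^ 2 : ℝ) : ℂ) := by
      rw [sum_eq_single k, sum_eq_single l]
      · simp only [Pi.single_eq_same, map_one, mul_one]
        rw [mul_left_comm, Complex.mul_conj, Complex.normSq_eq_norm_sq]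
        push_cast; ring
      · intro b _ hb; simp [Pi.single_eq_of_ne hb]
      · intro h; exact absurd (mem_univ _) h
      · intro b _ hb
        apply sum_eq_zero
        intro j _
        simp [Pi.single_eq_of_ne hb]
      · intro h; exact absurd (mem_univ _) h
    have e2 : ∑ i, μ i * ‖(Pi.single k 1 : Fin N → ℂ) i‖ ^ 2 = μ k := by
      rw [sum_eq_single k]
      · simp
      · intro b _ hb; simp [Pi.single_eq_of_ne hb]
      · intro h; exact absurd (mem_univ _) h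
    have e3 : ∑ j, ν j * ‖(Pi.single l ((c : ℂ) * (starRingEnd ℂ) (d k l)) : Fin N → ℂ) j‖ ^ 2 = 0 := by
      apply sum_eq_zero
      intro j _
      by_cases hj : j = l
      · rw [hj, hl, zero_mul]
      · simp [Pi.single_eq_of_ne hj]
    rw [e1, e2, e3, Complex.ofReal_re, hc, add_mul, div_mul_cancel₀ _ (by positivity)] at this
    have := hμ0 k
    nlinarith [sq_nonneg ‖d k l‖, pow_pos hd 2]
  -- vectors
  let S : Fin N → Fin N → ℂ := fun i l => ∑ k, d k l * P i k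
  let u : Fin N → Fin N → ℂ := fun i l => (starRingEnd ℂ) (S i l) * (((√(ν l))⁻¹ : ℝ) : ℂ)
  let v : Fin N → Fin N → ℂ := fun j l => ((√(ν l) : ℝ) : ℂ) * Q j l
  have hin : ∀ i j, ∑ k, ∑ l, d k l * P i k * Q j l = ∑ l, (starRingEnd ℂ) (u i l) * v j l := by
    intro i j
    rw [sum_comm]
    refine sum_congr rfl fun l _ => ?_
    rw [← sum_mul]
    simp only [u, v, S, map_mul, Complex.conj_conj, Complex.conj_ofReal]
    by_cases hl : ν l = 0
    · have : ∑ k, d k l * P i k = 0 := sum_eq_zero fun k _ => by rw [hz l hl k, zero_mul]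
      rw [this]; simp
    · have hpos : 0 < ν l := lt_of_le_of_ne (hν0 l) (Ne.symm hl)
      have h3 : (((√(ν l))⁻¹ : ℝ) : ℂ) * ((√(ν l) : ℝ) : ℂ) = 1 := by
        rw [← Complex.ofReal_mul, inv_mul_cancel₀ (Real.sqrt_pos.2 hpos).ne']; simp
      calc (∑ k, d k l * P i k) * Q j l
          = (∑ k, d k l * P i k) * ((((√(ν l))⁻¹ : ℝ) : ℂ) * ((√(ν l) : ℝ) : ℂ)) * Q j l := by rw [h3, mul_one]
        _ = _ := by ring
  have hv2 : ∀ j, ∑ l, ‖v j l‖ ^ 2 ≤ 96 * M₂ := by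
    intro j
    refine le_trans (sum_le_sum fun l _ => ?_) hν
    simp only [v, norm_mul, mul_pow, Complex.norm_real, Real.norm_eq_abs, sq_abs]
    rw [Real.sq_sqrt (hν0 l)]
    have : ‖Q j l‖ ^ 2 ≤ 1 := by nlinarith [norm_nonneg (Q j l), hQ j l]
    nlinarith [hν0 l]
  have hu2 : ∀ i, ∑ l, ‖u i l‖ ^ 2 ≤ 96 * M₂ := by
    intro i
    have hl := hab (fun k => (starRingEnd ℂ) (P i k)) (fun l => (starRingEnd ℂ) (S i l) * (((ν l)⁻¹ : ℝ) : ℂ))
    have e1 : ∑ k, ∑ l, d k l * (starRingEnd ℂ) ((starRingEnd ℂ) (P i k)) *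
        ((starRingEnd ℂ) (S i l) * (((ν l)⁻¹ : ℝ) : ℂ)) = ((∑ l, ‖u i l‖ ^ 2 : ℝ) : ℂ) := by
      rw [sum_comm]
      push_cast
      refine sum_congr rfl fun l _ => ?_
      rw [← sum_mul]
      simp only [Complex.conj_conj]
      have : (∑ k, d k l * P i k) = S i l := rfl
      rw [this]
      have e5 : ‖u i l‖ ^ 2 = ‖S i l‖ ^ 2 * (ν l)⁻¹ := by
        simp only [u, norm_mul, mul_pow, Complex.norm_real, Real.norm_eq_abs, sq_abs, RCLike.norm_conj]
        rw [inv_pow, Real.sq_sqrt (hν0 l)]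
      have e6 : ((‖u i l‖ : ℝ) : ℂ) ^ 2 = ((‖S i l‖ ^ 2 * (ν l)⁻¹ : ℝ) : ℂ) := by
        rw [← e5]; push_cast; rfl
      rw [e6, ← mul_assoc, Complex.mul_conj, Complex.normSq_eq_norm_sq]
      push_cast; ring
    have e2 : ∑ l, ν l * ‖(starRingEnd ℂ) (S i l) * (((ν l)⁻¹ : ℝ) : ℂ)‖ ^ 2 = ∑ l, ‖u i l‖ ^ 2 := by
      refine sum_congr rfl fun l _ => ?_
      simp only [u, norm_mul, mul_pow, Complex.norm_real, Real.norm_eq_abs, sq_abs, RCLike.norm_conj]
      have hsq : ((√(ν l))⁻¹) ^ 2 = (ν l)⁻¹ := by rw [inv_pow, Real.sq_sqrt (hν0 l)]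
      rw [hsq]
      by_cases hl : ν l = 0
      · rw [hl]; simp
      · field_simp
    rw [e1, e2, Complex.ofReal_re] at hl
    have e3 : ∑ k, μ k * ‖(starRingEnd ℂ) (P i k)‖ ^ 2 ≤ 96 * M₂ := by
      refine le_trans (sum_le_sum fun k _ => ?_) hμ
      rw [RCLike.norm_conj]
      have : ‖P i k‖ ^ 2 ≤ 1 := by nlinarith [norm_nonneg (P i k), hP i k]
      nlinarith [hμ0 k]
    linarith
  simp only [hin]
  have hfin : ∀ δ : ℝ, 0 < δ → ‖∑ i, ∑ j, g i j * ∑ l, (starRingEnd ℂ) (u i l) * v j l‖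
      ≤ 9216 * M₁ * M₂ + δ * (96 * M₁) := by
    intro δ hδ
    have hpos : 0 < 96 * M₂ + δ := by positivity
    have := (groth h1).scale u v hpos hpos (fun i => (hu2 i).trans (by linarith))
      (fun i => (hv2 i).trans (by linarith))
    rw [Real.mul_self_sqrt hpos.le] at this
    linarith
  refine le_of_forall_pos_le_add fun ε hε => ?_
  have hK : 0 < 96 * M₁ + 1 := by positivity
  have := hfin (ε / (96 * M₁ + 1)) (by positivity)
  have h5 : ε / (96 * M₁ + 1) * (96 * M₁) ≤ ε := by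
    rw [div_mul_eq_mul_div, div_le_iff₀ hK]
    nlinarith
  linarith

lemma shift (N : ℕ) (F : ℕ → ℕ → ℂ) :
    ∑ m ∈ range N, ∑ i ∈ range (m + 1), F i (m - i)
      = ∑ i ∈ range N, ∑ k ∈ range N, if i + k < N then F i k else 0 := by
  rw [sum_sigma', ← sum_product', ← sum_filter]
  refine sum_bij' (fun p _ => (p.2, p.1 - p.2)) (fun q _ => ⟨q.1 + q.2, q.1⟩) ?_ ?_ ?_ ?_ ?_
  · rintro ⟨m, i⟩ h
    simp only [mem_sigma, mem_range] at h
    simp only [mem_filter, mem_product, mem_range]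
    omega
  · rintro ⟨i, k⟩ h
    simp only [mem_filter, mem_product, mem_range] at h
    simp only [mem_sigma, mem_range]
    omega
  · rintro ⟨m, i⟩ h
    simp only [mem_sigma, mem_range] at h
    simp only [Sigma.mk.injEq, heq_eq_eq, and_true]
    omega
  · rintro ⟨i, k⟩ h
    simp only [Prod.mk.injEq, true_and]
    omega
  · rintro ⟨m, i⟩ h
    rfl

lemma antidiag (n : ℕ) (g d : ℕ → ℕ → ℂ) :
    ∑ m ∈ range (n + 1), ∑ i ∈ range (m + 1), ∑ j ∈ range (n - m + 1), g i j * d (m - i) (n - m - j)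
      = ∑ p ∈ range (n + 1), (∑ i ∈ range (p + 1), g i (p - i)) *
        (∑ k ∈ range (n - p + 1), d k (n - p - k)) := by
  have e : ∀ p ∈ range (n + 1), (∑ i ∈ range (p + 1), g i (p - i)) *
        (∑ k ∈ range (n - p + 1), d k (n - p - k))
      = ∑ i ∈ range (p + 1), ∑ k ∈ range (n - p + 1), g i (p - i) * d k (n - p - k) := by
    intro p _
    rw [sum_mul_sum]
  rw [sum_congr rfl e, sum_sigma', sum_sigma', sum_sigma', sum_sigma']
  refine sum_bij' (fun q _ => ⟨⟨q.1.2 + q.2, q.1.2⟩, q.1.1 - q.1.2⟩)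
    (fun q _ => ⟨⟨q.2 + q.1.2, q.1.2⟩, q.1.1 - q.1.2⟩) ?_ ?_ ?_ ?_ ?_
  · rintro ⟨⟨m, i⟩, j⟩ h
    simp only [mem_sigma, mem_range] at h ⊢
    omega
  · rintro ⟨⟨m, i⟩, j⟩ h
    simp only [mem_sigma, mem_range] at h ⊢
    omega
  · rintro ⟨⟨m, i⟩, j⟩ h
    simp only [mem_sigma, mem_range] at h
    simp only [Sigma.mk.injEq, heq_eq_eq, and_true]
    omega
  · rintro ⟨⟨m, i⟩, j⟩ h
    simp only [mem_sigma, mem_range] at h
    simp only [Sigma.mk.injEq, heq_eq_eq, and_true]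
    omega
  · rintro ⟨⟨m, i⟩, j⟩ h
    simp only [mem_sigma, mem_range] at h
    simp only
    congr 2
    · omega
    · omega

lemma toCB {N : ℕ} {g : ℕ → ℕ → ℂ} {M : ℝ}
    (h : ∀ (N : ℕ) (x y : ℕ → ℂ), (∀ i : ℕ, ‖x i‖ ≤ 1) → (∀ j : ℕ, ‖y j‖ ≤ 1) →
          ‖∑ m ∈ Finset.range N, ∑ k ∈ Finset.range N, g m k * x m * y k‖ ≤ M) :
    CB N (fun i j => g i j) M := by
  intro x y hx hy
  have := h N (fun m => if h : m < N then x ⟨m, h⟩ else 0) (fun m => if h : m < N then y ⟨m, h⟩ else 0)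
    (fun i => by
      by_cases hi : i < N
      · simp only [dif_pos hi]; exact hx _
      · simp only [dif_neg hi]; simp)
    (fun i => by
      by_cases hi : i < N
      · simp only [dif_pos hi]; exact hy _
      · simp only [dif_neg hi]; simp)
  rw [sum_range] at this
  simp only [sum_range] at this
  simpa using this

theorem main :
    ∃ C : ℝ, ∀ (a b : ℕ → ℂ) (M₁ M₂ : ℝ),
      (∃ γ : ℕ → ℕ → ℂ,
        (∀ n : ℕ, ∑ m ∈ Finset.range (n + 1), γ m (n - m) = a n) ∧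
        ∀ (N : ℕ) (x y : ℕ → ℂ), (∀ i : ℕ, ‖x i‖ ≤ 1) → (∀ j : ℕ, ‖y j‖ ≤ 1) →
          ‖∑ m ∈ Finset.range N, ∑ k ∈ Finset.range N, γ m k * x m * y k‖ ≤ M₁) →
      (∃ γ : ℕ → ℕ → ℂ,
        (∀ n : ℕ, ∑ m ∈ Finset.range (n + 1), γ m (n - m) = b n) ∧
        ∀ (N : ℕ) (x y : ℕ → ℂ), (∀ i : ℕ, ‖x i‖ ≤ 1) → (∀ j : ℕ, ‖y j‖ ≤ 1) →
          ‖∑ m ∈ Finset.range N, ∑ k ∈ Finset.range N, γ m k * x m * y k‖ ≤ M₂) →
      ∀ ε : ℝ, ε > 0 →
      ∃ γ : ℕ → ℕ → ℂ,
        (∀ n : ℕ, ∑ m ∈ Finset.range (n + 1), γ m (n - m) =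
            ∑ m ∈ Finset.range (n + 1), a m * b (n - m)) ∧
        ∀ (N : ℕ) (x y : ℕ → ℂ), (∀ i : ℕ, ‖x i‖ ≤ 1) → (∀ j : ℕ, ‖y j‖ ≤ 1) →
          ‖∑ m ∈ Finset.range N, ∑ k ∈ Finset.range N, γ m k * x m * y k‖ ≤ C * M₁ * M₂ + ε := by
  refine ⟨9216, ?_⟩
  rintro a b M₁ M₂ ⟨g, hga, hg⟩ ⟨d, hdb, hd⟩ ε hε
  refine ⟨fun m k => ∑ i ∈ range (m + 1), ∑ j ∈ range (k + 1), g i j * d (m - i) (k - j), ?_, ?_⟩
  · intro n
    rw [antidiag]
    exact sum_congr rfl fun p _ => by rw [hga, hdb]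
  · intro N x y hx hy
    have key := tensor (toCB (N := N) hg) (toCB (N := N) hd)
      (fun i k => if (i:ℕ) + (k:ℕ) < N then x (i + k) else 0)
      (fun j l => if (j:ℕ) + (l:ℕ) < N then y (j + l) else 0)
      (fun i k => by
        by_cases h : (i:ℕ) + (k:ℕ) < N
        · rw [if_pos h]; exact hx _
        · rw [if_neg h]; simp)
      (fun i k => by
        by_cases h : (i:ℕ) + (k:ℕ) < N
        · rw [if_pos h]; exact hy _
        · rw [if_neg h]; simp)
    have e : ∑ m ∈ range N, ∑ k ∈ range N,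
        (∑ i ∈ range (m + 1), ∑ j ∈ range (k + 1), g i j * d (m - i) (k - j)) * x m * y k
        = ∑ i : Fin N, ∑ j : Fin N, g i j * ∑ k : Fin N, ∑ l : Fin N, d k l *
          (if (i:ℕ) + (k:ℕ) < N then x (i + k) else 0) * (if (j:ℕ) + (l:ℕ) < N then y (j + l) else 0) := by
      have s1 : ∀ m ∈ range N, ∑ k ∈ range N,
          (∑ i ∈ range (m + 1), ∑ j ∈ range (k + 1), g i j * d (m - i) (k - j)) * x m * y k
          = ∑ i ∈ range (m + 1), ∑ j ∈ range N, ∑ l ∈ range N, if j + l < N then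
              g i j * d (m - i) l * x (i + (m - i)) * y (j + l) else 0 := by
        intro m _
        have : ∀ k ∈ range N, (∑ i ∈ range (m + 1), ∑ j ∈ range (k + 1), g i j * d (m - i) (k - j)) * x m * y k
            = ∑ i ∈ range (m + 1), ∑ j ∈ range (k + 1),
              g i j * d (m - i) (k - j) * x (i + (m - i)) * y (j + (k - j)) := by
          intro k _
          rw [sum_mul, sum_mul]
          refine sum_congr rfl fun i hi => ?_
          rw [sum_mul, sum_mul]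
          refine sum_congr rfl fun j hj => ?_
          rw [mem_range] at hi hj
          rw [show i + (m - i) = m by omega, show j + (k - j) = k by omega]
        rw [sum_congr rfl this, sum_comm]
        refine sum_congr rfl fun i _ => ?_
        exact shift N (fun j l => g i j * d (m - i) l * x (i + (m - i)) * y (j + l))
      rw [sum_congr rfl s1]
      have s2 := shift N (fun i k => ∑ j ∈ range N, ∑ l ∈ range N, if j + l < N then
              g i j * d k l * x (i + k) * y (j + l) else 0)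
      rw [s2, sum_range]
      refine sum_congr rfl fun i _ => ?_
      have s3 : ∀ j : Fin N, g i j * ∑ k : Fin N, ∑ l : Fin N, d k l *
          (if (i:ℕ) + (k:ℕ) < N then x (i + k) else 0) * (if (j:ℕ) + (l:ℕ) < N then y (j + l) else 0)
          = ∑ k : Fin N, ∑ l : Fin N, if (i:ℕ) + (k:ℕ) < N then (if (j:ℕ) + (l:ℕ) < N then
            g i j * d k l * x (i + k) * y (j + l) else 0) else 0 := by
        intro j
        rw [mul_sum]
        refine sum_congr rfl fun k _ => ?_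
        rw [mul_sum]
        refine sum_congr rfl fun l _ => ?_
        split_ifs <;> ring
      rw [sum_congr rfl fun j _ => s3 j, sum_comm, sum_range]
      refine sum_congr rfl fun k _ => ?_
      by_cases h : (i:ℕ) + (k:ℕ) < N
      · simp only [if_pos h]
        rw [sum_range]
        refine sum_congr rfl fun j _ => ?_
        rw [sum_range]
      · simp only [if_neg h, sum_const_zero]
    rw [e]
    refine key.trans ?_
    linarith

end Pool.Agent.S04497.Aux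

namespace Pool.Agent.S04497

/-- There is a constant C such that whenever a and b are antidiagonal sums of matrices with injective tensor norm at most M1 and M2, their convolution product is such a sum of a matrix with norm at most C·M1·M2+ε, for every ε>0. -/
theorem result :
    ∃ C : ℝ, ∀ (a b : ℕ → ℂ) (M₁ M₂ : ℝ),
      (∃ γ : ℕ → ℕ → ℂ,
        (∀ n : ℕ, ∑ m ∈ Finset.range (n + 1), γ m (n - m) = a n) ∧
        ∀ (N : ℕ) (x y : ℕ → ℂ), (∀ i : ℕ, ‖x i‖ ≤ 1) → (∀ j : ℕ, ‖y j‖ ≤ 1) →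
          ‖∑ m ∈ Finset.range N, ∑ k ∈ Finset.range N, γ m k * x m * y k‖ ≤ M₁) →
      (∃ γ : ℕ → ℕ → ℂ,
        (∀ n : ℕ, ∑ m ∈ Finset.range (n + 1), γ m (n - m) = b n) ∧
        ∀ (N : ℕ) (x y : ℕ → ℂ), (∀ i : ℕ, ‖x i‖ ≤ 1) → (∀ j : ℕ, ‖y j‖ ≤ 1) →
          ‖∑ m ∈ Finset.range N, ∑ k ∈ Finset.range N, γ m k * x m * y k‖ ≤ M₂) →
      ∀ ε : ℝ, ε > 0 →
      ∃ γ : ℕ → ℕ → ℂ,
        (∀ n : ℕ, ∑ m ∈ Finset.range (n + 1), γ m (n - m) =
            ∑ m ∈ Finset.range (n + 1), a m * b (n - m)) ∧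
        ∀ (N : ℕ) (x y : ℕ → ℂ), (∀ i : ℕ, ‖x i‖ ≤ 1) → (∀ j : ℕ, ‖y j‖ ≤ 1) →
          ‖∑ m ∈ Finset.range N, ∑ k ∈ Finset.range N, γ m k * x m * y k‖ ≤ C * M₁ * M₂ + ε := Aux.main

end Pool.Agent.S04497
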