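import Pool.Statements.S04500

set_option autoImplicit false
open Pool Pool.MP_feb088_an

namespace Pool.Agent.S04500

/-- `g` is the first row of the inverse of the circulant `a I + P` (odd size `2 m + 1`, `r = 1 / a`). -/
noncomputable def g (m : ℕ) (r : ℝ) (k : Fin (2 * m + 1)) : ℝ :=
  -(-r) ^ (k.val + 1) / (1 + r ^ (2 * m + 1))

/-- First row of the circulant `H = (C - I) (C + I)⁻¹`, where `C = t I + P` and `a = 1 + t = 1 / r`. -/
noncomputable def hrow (m : ℕ) (r : ℝ) (k : Fin (2 * m + 1)) : ℝ :=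
  (if k = 0 then 1 else 0) - 2 * g m r k

lemma g_rec (m : ℕ) (r : ℝ) (hr : 0 < r) (k : Fin (2 * m + 1)) :
    r⁻¹ * g m r k + g m r (k - 1) = if k = 0 then 1 else 0 := by
  have hden : (1 + r ^ (2 * m + 1)) ≠ 0 := by positivity
  by_cases hk : k = 0
  · subst hk
    rw [if_pos rfl]
    have h1 : ((0 : Fin (2 * m + 1)) - 1).val = 2 * m := by
      rw [zero_sub]
      rw [Fin.coe_neg_one]
    unfold g
    rw [h1]
    have h2 : (-r) ^ (2 * m + 1) = - r ^ (2 * m + 1) := by
      rw [Odd.neg_pow]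
      exact ⟨m, rfl⟩
    rw [h2]
    simp only [Fin.val_zero, zero_add, pow_one]
    field_simp
  · rw [if_neg hk]
    have h1 : (k - 1).val = k.val - 1 := by
      rw [Fin.val_sub_one_of_ne_zero hk]
    have h3 : 0 < k.val := by
      rcases Nat.eq_zero_or_pos k.val with h | h
      · exact absurd (Fin.ext h) hk
      · exact h
    unfold g
    rw [h1]
    have h4 : k.val - 1 + 1 = k.val := by omega
    rw [h4, pow_succ (-r) k.val]
    field_simp
    ring

lemma h_rec (m : ℕ) (r : ℝ) (hr : 0 < r) (k : Fin (2 * m + 1)) :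
    r⁻¹ * hrow m r k + hrow m r (k - 1) =
      (r⁻¹ - 2) * (if k = 0 then 1 else 0) + (if k = 1 then 1 else 0) := by
  have h := g_rec m r hr k
  unfold hrow
  have h1 : (k - 1 = 0) ↔ (k = 1) := sub_eq_zero
  simp only [h1]
  have : r⁻¹ * ((if k = 0 then 1 else 0) - 2 * g m r k) +
      ((if k = 1 then 1 else 0) - 2 * g m r (k - 1)) =
      r⁻¹ * (if k = 0 then 1 else 0) + (if k = 1 then 1 else 0)
        - 2 * (r⁻¹ * g m r k + g m r (k - 1)) := by ring
  rw [this, h]
  ring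

/-- The relation `(a I + P) H x = ((a - 2) I + P) x`. -/
lemma H_rel (m : ℕ) (r : ℝ) (hr : 0 < r) (x : Fin (2 * m + 1) → ℝ) (i : Fin (2 * m + 1)) :
    r⁻¹ * (∑ j, hrow m r (j - i) * x j) + (∑ j, hrow m r (j - (i + 1)) * x j) =
      (r⁻¹ - 2) * x i + x (i + 1) := by
  rw [Finset.mul_sum, ← Finset.sum_add_distrib]
  have h1 : ∀ j : Fin (2 * m + 1),
      r⁻¹ * (hrow m r (j - i) * x j) + hrow m r (j - (i + 1)) * x j =
      (r⁻¹ - 2) * (if j = i then x j else 0) + (if j = i + 1 then x j else 0) := by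
    intro j
    have h2 := h_rec m r hr (j - i)
    have h3 : j - i - 1 = j - (i + 1) := by abel
    rw [h3] at h2
    have h4 : (j - i = 0) ↔ (j = i) := sub_eq_zero
    have h5 : (j - i = 1) ↔ (j = i + 1) := by
      constructor
      · intro h
        rw [sub_eq_iff_eq_add] at h
        exact h.trans (add_comm _ _)
      · intro h
        rw [h]
        abel
    simp only [h4, h5] at h2
    calc r⁻¹ * (hrow m r (j - i) * x j) + hrow m r (j - (i + 1)) * x j
        = (r⁻¹ * hrow m r (j - i) + hrow m r (j - (i + 1))) * x j := by ring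
      _ = ((r⁻¹ - 2) * (if j = i then 1 else 0) + (if j = i + 1 then 1 else 0)) * x j := by rw [h2]
      _ = _ := by
        split_ifs <;> ring
  rw [Finset.sum_congr rfl (fun j _ => h1 j), Finset.sum_add_distrib, ← Finset.mul_sum]
  simp

/-- The other order: `H (a I + P) z = ((a - 2) I + P) z`. -/
lemma H_rel' (m : ℕ) (r : ℝ) (hr : 0 < r) (z : Fin (2 * m + 1) → ℝ) (i : Fin (2 * m + 1)) :
    (∑ j, hrow m r (j - i) * (r⁻¹ * z j + z (j + 1))) = (r⁻¹ - 2) * z i + z (i + 1) := by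
  have h0 : (∑ j, hrow m r (j - i) * (r⁻¹ * z j + z (j + 1))) =
      (∑ j, hrow m r (j - i) * (r⁻¹ * z j)) + ∑ j, hrow m r (j - i) * z (j + 1) := by
    rw [← Finset.sum_add_distrib]
    apply Finset.sum_congr rfl
    intro j _
    ring
  have h1 : (∑ j, hrow m r (j - i) * z (j + 1)) = ∑ j, hrow m r (j - (i + 1)) * z j := by
    rw [← Equiv.sum_comp (Equiv.addRight (1 : Fin (2 * m + 1)))
      (fun j => hrow m r (j - (i + 1)) * z j)]
    apply Finset.sum_congr rfl
    intro j _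
    simp only [Equiv.coe_addRight]
    congr 2
    abel
  rw [h0, h1]
  rw [← H_rel m r hr z i, Finset.mul_sum]
  congr 1
  apply Finset.sum_congr rfl
  intro j _
  ring

/-- No nonzero vector is expanded in every coordinate. -/
lemma no_expand (m : ℕ) (r : ℝ) (hr : 0 < r) (hr1 : r < 1) (x : Fin (2 * m + 1) → ℝ)
    (hx : ∀ i, |x i| ≤ |∑ j, hrow m r (j - i) * x j|) : x = 0 := by
  set y : Fin (2 * m + 1) → ℝ := fun i => ∑ j, hrow m r (j - i) * x j with hy
  have hrel : ∀ i, r⁻¹ * y i + y (i + 1) = (r⁻¹ - 2) * x i + x (i + 1) := H_rel m r hr x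
  have ha : 1 < r⁻¹ := (one_lt_inv₀ hr).2 hr1
  set t : ℝ := r⁻¹ - 1 with ht
  have htpos : 0 < t := by rw [ht]; linarith
  set w : Fin (2 * m + 1) → ℝ := fun i => y i - x i with hw
  have hsq : ∀ i, 0 ≤ (y i + x i) * w i := by
    intro i
    have h1 : |x i| ≤ |y i| := hx i
    have h2 : x i ^ 2 ≤ y i ^ 2 := sq_le_sq.2 h1
    have h3 : (y i + x i) * w i = y i ^ 2 - x i ^ 2 := by
      simp only [hw]; ring
    rw [h3]; linarith
  have hwrec : ∀ i, w (i + 1) = - t * w i - (y i + x i) := by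
    intro i
    have h1 := hrel i
    simp only [hw, ht]
    linarith
  have hww : ∀ i, w i * w (i + 1) ≤ - t * w i ^ 2 := by
    intro i
    rw [hwrec i]
    have h1 := hsq i
    nlinarith
  -- `w` vanishes
  have hw0 : ∀ i, w i = 0 := by
    intro i
    by_contra hi
    have key : ∀ k : ℕ, 0 < (-1 : ℝ) ^ k * (w (i + k • (1 : Fin (2 * m + 1))) * w i) := by
      intro k
      induction k with
      | zero =>
        rw [zero_nsmul, add_zero, pow_zero, one_mul]
        exact mul_self_pos.2 hi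
      | succ k ih =>
        have e1 : i + (k + 1) • (1 : Fin (2 * m + 1)) = (i + k • (1 : Fin (2 * m + 1))) + 1 := by
          rw [succ_nsmul, add_assoc]
        rw [e1]
        set p := w (i + k • (1 : Fin (2 * m + 1))) with hp
        set q := w (i + k • (1 : Fin (2 * m + 1)) + 1) with hq
        have h1 : p * q ≤ - t * p ^ 2 := hww _
        have hp0 : p ≠ 0 := by
          intro h
          rw [h] at ih
          simp at ih
        have hp2 : 0 < p ^ 2 := by positivity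
        have h2 : p * q < 0 := by nlinarith
        -- multiply: ((-1)^(k+1) q w_i) * p^2 = ((-1)^k p w_i) * (-(p q)) > 0
        have h3 : 0 < ((-1 : ℝ) ^ k * (p * w i)) * (-(p * q)) := mul_pos ih (by linarith)
        have h4 : ((-1 : ℝ) ^ k * (p * w i)) * (-(p * q)) =
            ((-1 : ℝ) ^ (k + 1) * (q * w i)) * p ^ 2 := by
          rw [pow_succ]; ring
        rw [h4] at h3
        exact (pos_iff_pos_of_mul_pos h3).2 hp2
    have h1 := key (2 * m + 1)
    have h2 : (2 * m + 1) • (1 : Fin (2 * m + 1)) = 0 := by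
      have := card_nsmul_eq_zero (x := (1 : Fin (2 * m + 1)))
      rwa [Fintype.card_fin] at this
    rw [h2, add_zero] at h1
    have h3 : (-1 : ℝ) ^ (2 * m + 1) = -1 := by
      rw [pow_succ, pow_mul]; simp
    rw [h3] at h1
    nlinarith [mul_self_nonneg (w i)]
  funext i
  have h1 := hwrec i
  rw [hw0 i, hw0 (i + 1)] at h1
  have h2 := hw0 i
  simp only [hw] at h2
  simp only [Pi.zero_apply]
  linarith

/-- The negation of the preceding statement: There is a positive γ such that for every real circulant matrix H (entries h at index j−i mod size) with largest singular value at least γ, some nonzero real x has ∣(Hx)_i∣ ≥ ∣x_i∣ for every coordinate i. -/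
theorem result :
    ¬ (∃ γ : ℝ, 0 < γ ∧
      ∀ n : ℕ, ∀ h : Fin (n + 1) → ℝ,
        (∃ v : Fin (n + 1) → ℝ, v ≠ 0 ∧
            γ ^ 2 * ∑ i, v i ^ 2 ≤ ∑ i, (∑ j, h (j - i) * v j) ^ 2) →
        ∃ x : Fin (n + 1) → ℝ, x ≠ 0 ∧
          ∀ i : Fin (n + 1), |x i| ≤ |∑ j, h (j - i) * x j|) := by
  rintro ⟨γ, hγ, H⟩
  obtain ⟨m, hm⟩ := exists_nat_gt (5 * γ ^ 2 + 1)
  have hm1 : (1 : ℝ) < m := by nlinarith [sq_nonneg γ]
  set t : ℝ := 1 / (m : ℝ) with ht
  have hmpos : (0 : ℝ) < m := by linarith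
  have htpos : 0 < t := by positivity
  have ht1 : t < 1 := by
    rw [ht, div_lt_one hmpos]; exact hm1
  have htm : t * m = 1 := by
    rw [ht]; field_simp
  set r : ℝ := (1 + t)⁻¹ with hr
  have hrpos : 0 < r := by positivity
  have hr1 : r < 1 := by
    rw [hr]
    exact inv_lt_one_of_one_lt₀ (by linarith)
  have hrinv : r⁻¹ = 1 + t := by rw [hr, inv_inv]
  -- the test vector
  let z : Fin (2 * m + 1) → ℝ := fun i => (-1 : ℝ) ^ (i.val)
  let v : Fin (2 * m + 1) → ℝ := fun j => r⁻¹ * z j + z (j + 1)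
  have hHv : ∀ i, (∑ j, hrow m r (j - i) * v j) = (r⁻¹ - 2) * z i + z (i + 1) :=
    H_rel' m r hrpos z
  have hzc : ∀ i : Fin (2 * m), z (Fin.castSucc i + 1) = - z (Fin.castSucc i) := by
    intro i
    have h1 : (Fin.castSucc i + 1 : Fin (2 * m + 1)).val = i.val + 1 := by
      rw [Fin.coeSucc_eq_succ]; rfl
    show (-1 : ℝ) ^ _ = - (-1 : ℝ) ^ _
    rw [h1]
    show (-1 : ℝ) ^ (i.val + 1) = - (-1 : ℝ) ^ (i.val)
    rw [pow_succ]; ring
  have hzsq : ∀ i : Fin (2 * m + 1), z i ^ 2 = 1 := by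
    intro i
    show ((-1 : ℝ) ^ (i.val)) ^ 2 = 1
    rw [← pow_mul, mul_comm, pow_mul]; simp
  have hzl : z (Fin.last (2 * m)) = 1 := by
    show (-1 : ℝ) ^ (2 * m) = 1
    rw [pow_mul]; simp
  have hzl1 : z (Fin.last (2 * m) + 1) = 1 := by
    rw [Fin.last_add_one]
    show (-1 : ℝ) ^ 0 = 1
    simp
  have hvlast : v (Fin.last (2 * m)) = 2 + t := by
    show r⁻¹ * z (Fin.last (2 * m)) + z (Fin.last (2 * m) + 1) = 2 + t
    rw [hzl, hzl1, hrinv]; ring
  have hv0 : v ≠ 0 := by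
    intro h
    have h1 := congrFun h (Fin.last (2 * m))
    rw [hvlast] at h1
    simp only [Pi.zero_apply] at h1
    linarith
  have hvsum : ∑ i, v i ^ 2 = 2 * m * t ^ 2 + (2 + t) ^ 2 := by
    rw [Fin.sum_univ_castSucc, hvlast]
    congr 1
    have : ∀ i : Fin (2 * m), v (Fin.castSucc i) ^ 2 = t ^ 2 := by
      intro i
      show (r⁻¹ * z (Fin.castSucc i) + z (Fin.castSucc i + 1)) ^ 2 = t ^ 2
      rw [hzc i, hrinv]
      have := hzsq (Fin.castSucc i)
      calc ((1 + t) * z (Fin.castSucc i) + -z (Fin.castSucc i)) ^ 2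
          = t ^ 2 * z (Fin.castSucc i) ^ 2 := by ring
        _ = t ^ 2 := by rw [this]; ring
    rw [Finset.sum_congr rfl (fun i _ => this i)]
    simp
  have hysum : 2 * (m : ℝ) * (2 - t) ^ 2 ≤ ∑ i, (∑ j, hrow m r (j - i) * v j) ^ 2 := by
    rw [Fin.sum_univ_castSucc]
    have h1 : ∀ i : Fin (2 * m),
        (∑ j, hrow m r (j - Fin.castSucc i) * v j) ^ 2 = (2 - t) ^ 2 := by
      intro i
      rw [hHv, hzc i, hrinv]
      have := hzsq (Fin.castSucc i)
      calc ((1 + t - 2) * z (Fin.castSucc i) + -z (Fin.castSucc i)) ^ 2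
          = (2 - t) ^ 2 * z (Fin.castSucc i) ^ 2 := by ring
        _ = (2 - t) ^ 2 := by rw [this]; ring
    rw [Finset.sum_congr rfl (fun i _ => h1 i)]
    have h2 : (∑ _i : Fin (2 * m), (2 - t) ^ 2) = 2 * (m : ℝ) * (2 - t) ^ 2 := by
      simp
    rw [h2]
    have h3 : 0 ≤ (∑ j, hrow m r (j - Fin.last (2 * m)) * v j) ^ 2 := sq_nonneg _
    linarith
  obtain ⟨x, hx0, hx⟩ := H (2 * m) (hrow m r) ⟨v, hv0, by
    refine le_trans ?_ hysum
    rw [hvsum]
    have e1 : 2 * (m : ℝ) * t ^ 2 = 2 * t := by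
      calc 2 * (m : ℝ) * t ^ 2 = 2 * (t * m) * t := by ring
        _ = 2 * t := by rw [htm]; ring
    rw [e1]
    have e2 : 2 * t + (2 + t) ^ 2 ≤ 11 := by nlinarith
    have e2' : 0 ≤ 2 * t + (2 + t) ^ 2 := by positivity
    have e3 : 2 * (m : ℝ) * 1 ≤ 2 * (m : ℝ) * (2 - t) ^ 2 := by
      apply mul_le_mul_of_nonneg_left _ (by positivity)
      nlinarith
    have e4 : γ ^ 2 * (2 * t + (2 + t) ^ 2) ≤ γ ^ 2 * 11 :=
      mul_le_mul_of_nonneg_left e2 (sq_nonneg γ)
    nlinarith [sq_nonneg γ]⟩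
  exact hx0 (no_expand m r hrpos hr1 x hx)

end Pool.Agent.S04500
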