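import Pool.Statements.S04514
import Pool.Agent.Helper893.Tree
import Pool.Agent.Helper893.Plichko

set_option autoImplicit false
open Pool Pool.MP_ff7d48_an

namespace Pool.Agent.S04514

open Pool.Agent.Helper893

/-- The negation of the preceding statement: For every set Γ, every closed subspace S of real ℓ1(Γ) has a linearly dense set M and a norming subspace N of its dual such that each functional in N is nonzero on only countably many elements of M, i.e. S is Plichko. -/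
theorem result :
    ¬ (∀ (Γ : Type) (S : Submodule ℝ (lp (fun _ : Γ => ℝ) 1)),
      IsClosed (S : Set (lp (fun _ : Γ => ℝ) 1)) →
        ∃ (M : Set ↥S) (N : Submodule ℝ (↥S →L[ℝ] ℝ)),
          Dense (Submodule.span ℝ M : Set ↥S) ∧
          (∃ r : ℝ, 0 < r ∧ ∀ x : ↥S, x ≠ 0 →
              ∃ f ∈ N, ‖f‖ ≤ 1 ∧ r * ‖x‖ < |f x|) ∧
          ∀ f ∈ N, Set.Countable {m : ↥S | m ∈ M ∧ f m ≠ 0}) := by
  intro H
  have hclosed := L1Sub.isClosed_Z ℝ (id : Set ℕ → Set ℕ)
  obtain ⟨M, N, hM, ⟨r, hr, hN⟩, hc⟩ := H (L1Sub.Gam (Set ℕ)) (L1Sub.Z ℝ id) hclosed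
  have hcs : CompleteSpace (L1Sub.Z ℝ (id : Set ℕ → Set ℕ)) := hclosed.completeSpace_coe
  obtain ⟨R, C, A, hA, hR, hRA, hRA', hS⟩ := Plichko.exists_proj (𝕜 := ℝ) M hM
    (N : Set ((L1Sub.Z ℝ (id : Set ℕ → Set ℕ)) →L[ℝ] ℝ)) r hr
    (fun x hx => by
      obtain ⟨f, hf1, hf2, hf3⟩ := hN x hx
      exact ⟨f, hf1, hf2, by rw [Real.norm_eq_abs]; exact hf3.le⟩)
    (fun f hf => hc f hf) (L1Sub.SS ℝ id) (L1Sub.SS_countable ℝ id)
  have hunc : ¬ Countable (Set ℕ) := by
    intro h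
    exact (Cardinal.cantor Cardinal.aleph0).not_ge (by
      have h1 := Cardinal.mk_le_aleph0_iff.mpr h
      rwa [Cardinal.mk_set, Cardinal.mk_nat] at h1)
  exact L1Sub.main_theorem id Function.injective_id hunc R C hR A hA hRA
    (fun z hz => hRA' z (hS hz))

end Pool.Agent.S04514
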