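import Pool.Statements.S04528
import Pool.Agent.LR.Final

set_option autoImplicit false
open Pool Pool.MP_00ec07_co

namespace Pool.Agent.S04528

/-- The negation of the preceding statement: For all large n there is a graph on n vertices such that every set of floor((ln n)^3) vertices contains a clique and an independent set, each of size at least ln n. -/
theorem result :
    ¬ (∃ N : ℕ, ∀ n : ℕ, N ≤ n →
      ∃ G : SimpleGraph (Fin n),
        ∀ S : Finset (Fin n), S.card = ⌊(Real.log (n : ℝ)) ^ 3⌋₊ →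
          (∃ T : Finset (Fin n), T ⊆ S ∧ G.IsClique (T : Set (Fin n)) ∧
              Real.log (n : ℝ) ≤ (T.card : ℝ)) ∧
          (∃ T : Finset (Fin n), T ⊆ S ∧ Gᶜ.IsClique (T : Set (Fin n)) ∧
              Real.log (n : ℝ) ≤ (T.card : ℝ))) := by
  rintro ⟨N, hN⟩
  obtain ⟨t, ht, htN⟩ := (LR.no_graph.and (Filter.eventually_ge_atTop (N + 10))).exists
  have ht10 : (10 : ℝ) ≤ t := by
    have : 10 ≤ t := by omega
    exact_mod_cast this
  -- choose n = ⌊exp t⌋
  set n : ℕ := ⌊Real.exp (t : ℝ)⌋₊ with hn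
  have hexp : (t : ℝ) + 1 ≤ Real.exp (t : ℝ) := Real.add_one_le_exp _
  have hn1 : (n : ℝ) ≤ Real.exp (t : ℝ) := Nat.floor_le (Real.exp_pos _).le
  have hn2 : Real.exp (t : ℝ) < n + 1 := Nat.lt_floor_add_one _
  have hnt : (t : ℝ) < n + 0 := by
    have : (t : ℝ) < n := by linarith [hexp, hn2, Real.add_one_lt_exp (x := (t : ℝ)) (by linarith)]
    linarith
  have hNn : N ≤ n := by
    have h1 : t < n := by exact_mod_cast (by simpa using hnt : (t : ℝ) < n)
    omega
  have hnpos : (0 : ℝ) < n := by linarith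
  obtain ⟨G, hG⟩ := hN n hNn
  have hlog1 : Real.log (n : ℝ) ≤ t := by
    rw [← Real.log_exp (t : ℝ)]
    exact Real.log_le_log hnpos hn1
  have he1 : Real.exp ((t : ℝ) - 1) < n := by
    have h2 : (2 : ℝ) ≤ Real.exp 1 := by
      have := Real.add_one_le_exp (1 : ℝ); linarith
    have h3 : Real.exp (t : ℝ) = Real.exp ((t : ℝ) - 1) * Real.exp 1 := by
      rw [← Real.exp_add]; congr 1; ring
    have h4 : (t : ℝ) ≤ Real.exp ((t : ℝ) - 1) := by
      have := Real.add_one_le_exp ((t : ℝ) - 1); linarith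
    nlinarith [Real.exp_pos ((t : ℝ) - 1)]
  have hlog2 : (t : ℝ) - 1 < Real.log (n : ℝ) := (Real.lt_log_iff_exp_lt hnpos).2 he1
  have hlog0 : 0 ≤ Real.log (n : ℝ) := by linarith
  have hcube : ⌊(Real.log (n : ℝ)) ^ 3⌋₊ ≤ t ^ 3 := by
    apply Nat.floor_le_of_le
    push_cast
    exact pow_le_pow_left₀ hlog0 hlog1 3
  have hcardT : ∀ T : Finset (Fin n), Real.log (n : ℝ) ≤ (T.card : ℝ) → t ≤ T.card := by
    intro T hT
    have h5 : (t : ℝ) - 1 < T.card := lt_of_lt_of_le hlog2 hT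
    have h6 : (t : ℝ) < (T.card : ℝ) + 1 := by linarith
    have h7 : t < T.card + 1 := by exact_mod_cast h6
    omega
  refine ht (Fin n) ?_ G ?_ ?_
  · rw [Fintype.card_fin]
    refine le_trans ?_ he1.le
    apply Real.exp_le_exp.2
    linarith
  · intro S hS
    obtain ⟨S', hS', hS'c⟩ := Finset.exists_subset_card_eq (hcube.trans hS)
    obtain ⟨⟨T, hTS, hTc, hTl⟩, _⟩ := hG S' hS'c
    exact (hcardT T hTl).trans (LR.le_om (hTS.trans hS') hTc)
  · intro S hS
    obtain ⟨S', hS', hS'c⟩ := Finset.exists_subset_card_eq (hcube.trans hS)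
    obtain ⟨_, ⟨T, hTS, hTc, hTl⟩⟩ := hG S' hS'c
    exact (hcardT T hTl).trans (LR.le_om (hTS.trans hS') hTc)

end Pool.Agent.S04528
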