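import Pool.Statements.S04531
-- import your own Pool.Agent.* helpers here

set_option autoImplicit false
open Pool Pool.MP_012ca0_co

namespace Pool.Agent.S04531

section Helpers
open Equiv Finset

section Cyc
variable {V : Type} [Fintype V] [DecidableEq V]

/-- `σ` is a Hamiltonian cycle of the complete digraph on `V`. -/
def Full (σ : Perm V) : Prop := σ.IsCycle ∧ σ.support = univ

theorem Full.ne {σ : Perm V} (h : Full σ) (v : V) : σ v ≠ v := by
  have : v ∈ σ.support := by rw [h.2]; exact mem_univ v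
  exact Perm.mem_support.mp this

theorem Full.ne2 {σ : Perm V} (h : Full σ) (hn : 3 ≤ Fintype.card V) (v : V) :
    σ (σ v) ≠ v := by
  intro hv
  have h1 : σ ^ 2 = 1 := by
    rw [h.1.pow_eq_one_iff]
    exact ⟨v, h.ne v, by rw [pow_two, Perm.mul_apply]; exact hv⟩
  have h2 : orderOf σ ∣ 2 := orderOf_dvd_of_pow_eq_one h1
  have h3 : orderOf σ = Fintype.card V := by rw [h.1.orderOf, h.2]; rfl
  have := Nat.le_of_dvd (by norm_num) h2
  omega

theorem Full.closed {σ : Perm V} (h : Full σ) (S : Finset V) {v : V} (hv : v ∈ S)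
    (hS : ∀ x ∈ S, σ x ∈ S) (w : V) : w ∈ S := by
  obtain ⟨i, hi⟩ := h.1.exists_pow_eq (h.ne v) (h.ne w)
  rw [← hi]
  clear hi
  induction i with
  | zero => simpa using hv
  | succ i ih => rw [pow_succ', Perm.mul_apply]; exact hS _ ih

theorem Full.conj {σ τ : Perm V} (h : Full σ) : Full (τ⁻¹ * σ * τ) := by
  have h1 := h.1.conj (g := τ⁻¹)
  rw [inv_inv] at h1
  refine ⟨h1, ?_⟩
  ext v
  simp only [mem_univ, iff_true, Perm.mem_support, Perm.mul_apply]
  intro h2
  apply h.ne (τ v)
  have := congrArg τ h2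
  simpa using this

theorem card_full (hn : 2 ≤ Fintype.card V) [DecidablePred (Full (V := V))] :
    (Fintype.card V - 1).factorial ≤ (univ.filter (Full (V := V))).card := by
  have h := Perm.card_of_cycleType_singleton (α := V) hn le_rfl
  rw [Nat.choose_self, mul_one] at h
  rw [← h]
  apply card_le_card
  intro σ hσ
  simp only [mem_filter, mem_univ, true_and] at hσ ⊢
  refine ⟨?_, ?_⟩
  · rw [← Perm.card_cycleType_eq_one, hσ]; simp
  · have h1 := Perm.sum_cycleType σ
    rw [hσ, Multiset.sum_singleton] at h1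
    exact (card_eq_iff_eq_univ _).mp h1.symm

end Cyc

section Rev
variable {V : Type} [Fintype V] [DecidableEq V]
set_option linter.unusedSectionVars false

def Pos (g : Perm V) (S : Finset V) (x : V) (d e : ℤ) : Prop :=
  0 ≤ d ∧ 0 ≤ e ∧ (∀ j : ℤ, -e ≤ j → j < d → (g ^ j) x ∈ S) ∧ (g ^ d) x ∉ S ∧
    (g ^ (-e - 1)) x ∉ S

theorem Pos.unique {g : Perm V} {S : Finset V} {x : V} {d e d' e' : ℤ}
    (h : Pos g S x d e) (h' : Pos g S x d' e') : d = d' ∧ e = e' := by
  obtain ⟨hd, he, hj, h1, h2⟩ := h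
  obtain ⟨hd', he', hj', h1', h2'⟩ := h'
  constructor
  · rcases lt_trichotomy d d' with h | h | h
    · exact absurd (hj' d (by omega) h) h1
    · exact h
    · exact absurd (hj d' (by omega) h) h1'
  · rcases lt_trichotomy e e' with h | h | h
    · exact absurd (hj' (-e - 1) (by omega) (by omega)) h2
    · exact h
    · exact absurd (hj (-e' - 1) (by omega) (by omega)) h2'

theorem Pos.shift {g : Perm V} {S : Finset V} {x : V} {d e : ℤ}
    (h : Pos g S x d e) (j : ℤ) (hj1 : -e ≤ j) (hj2 : j ≤ d) :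
    Pos g S ((g ^ j) x) (d - j) (e + j) := by
  obtain ⟨hd, he, hj, h1, h2⟩ := h
  have key : ∀ i : ℤ, (g ^ i) ((g ^ j) x) = (g ^ (i + j)) x := by
    intro i; rw [zpow_add, Perm.mul_apply]
  refine ⟨by omega, by omega, ?_, ?_, ?_⟩
  · intro i hi1 hi2
    rw [key]; exact hj _ (by omega) (by omega)
  · rw [key, sub_add_cancel]; exact h1
  · rw [key]
    have : -(e + j) - 1 + j = -e - 1 := by ring
    rw [this]; exact h2

theorem exists_pos (g : Perm V) (S : Finset V) (hS : ∀ x, ∃ k : ℕ, (g ^ k) x ∉ S) (x : V) :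
    ∃ d e, Pos g S x d e := by
  classical
  have hb : ∃ k : ℕ, (g ^ (-(k : ℤ) - 1)) x ∉ S := by
    obtain ⟨k, hk⟩ := hS x
    have hN : 0 < orderOf g := orderOf_pos g
    refine ⟨orderOf g * (k + 1) - k - 1, ?_⟩
    have h1 : k + 1 ≤ orderOf g * (k + 1) := Nat.le_mul_of_pos_left _ hN
    have h2 : (-((orderOf g * (k + 1) - k - 1 : ℕ) : ℤ) - 1) =
        (k : ℤ) - (orderOf g : ℤ) * ((k + 1 : ℕ) : ℤ) := by
      have : ((orderOf g * (k + 1) - k - 1 : ℕ) : ℤ) =
          (orderOf g : ℤ) * ((k + 1 : ℕ) : ℤ) - k - 1 := by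
        rw [Nat.sub_sub, Nat.cast_sub h1]; push_cast; ring
      rw [this]; ring
    rw [h2, zpow_sub, zpow_mul, zpow_natCast, zpow_natCast, zpow_natCast, pow_orderOf_eq_one]
    simpa using hk
  refine ⟨(Nat.find (hS x) : ℕ), (Nat.find hb : ℕ), by positivity, by positivity, ?_, ?_, ?_⟩
  · intro j hj1 hj2
    rcases le_or_gt 0 j with h | h
    · obtain ⟨i, rfl⟩ := Int.eq_ofNat_of_zero_le h
      have h3 : i < Nat.find (hS x) := by exact_mod_cast hj2
      have := Nat.find_min (hS x) h3
      rw [not_not] at this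
      simpa using this
    · obtain ⟨i, hi⟩ : ∃ i : ℕ, j = -(i : ℤ) - 1 := ⟨(-j - 1).toNat, by omega⟩
      subst hi
      have h3 : i < Nat.find hb := by omega
      have := Nat.find_min hb h3
      rw [not_not] at this
      exact this
  · have := Nat.find_spec (hS x)
    simpa using this
  · exact Nat.find_spec hb

/-- Reversal of every maximal run of `g` inside `S`. -/
theorem exists_rev (g : Perm V) (S : Finset V) (hS : ∀ x, ∃ k : ℕ, (g ^ k) x ∉ S) :
    ∃ τ : Perm V, (∀ v ∈ S, τ (g v) ∈ S ∧ τ v = g (τ (g v))) ∧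
      (∀ v, v ∉ S → g⁻¹ v ∉ S → τ v = v) := by
  classical
  choose d e hp using exists_pos g S hS
  let f : V → V := fun x => (g ^ (d x - e x)) x
  have hf : Function.Involutive f := by
    intro x
    obtain ⟨hd, he, hj, h1, h2⟩ := hp x
    have h3 := (hp x).shift (d x - e x) (by omega) (by omega)
    obtain ⟨h4, h5⟩ := (hp (f x)).unique h3
    change (g ^ (d (f x) - e (f x))) ((g ^ (d x - e x)) x) = x
    rw [h4, h5, ← Perm.mul_apply, ← zpow_add]
    have : d x - (d x - e x) - (e x + (d x - e x)) + (d x - e x) = 0 := by ring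
    rw [this]; simp
  refine ⟨hf.toPerm, ?_, ?_⟩
  · intro v hv
    obtain ⟨hd, he, hj, h1, h2⟩ := hp v
    have hd1 : 1 ≤ d v := by
      rcases lt_or_ge (0 : ℤ) (d v) with h | h
      · omega
      · have : d v = 0 := by omega
        rw [this] at h1
        simp at h1
        exact absurd hv h1
    have h3 := (hp v).shift 1 (by omega) hd1
    rw [zpow_one] at h3
    obtain ⟨h4, h5⟩ := (hp (g v)).unique h3
    have h6 : f (g v) = (g ^ (d v - e v - 1)) v := by
      change (g ^ (d (g v) - e (g v))) (g v) = _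
      rw [h4, h5]
      have : g v = (g ^ (1 : ℤ)) v := by simp
      rw [this, ← Perm.mul_apply, ← zpow_add]
      congr 2; ring
    refine ⟨?_, ?_⟩
    · change f (g v) ∈ S
      rw [h6]; exact hj _ (by omega) (by omega)
    · change f v = g (f (g v))
      rw [h6]
      change (g ^ (d v - e v)) v = _
      have : g ((g ^ (d v - e v - 1)) v) = (g ^ ((1 : ℤ) + (d v - e v - 1))) v := by
        rw [zpow_add, zpow_one, Perm.mul_apply]
      rw [this]
      congr 2; ring
  · intro v hv hgv
    obtain ⟨hd, he, hj, h1, h2⟩ := hp v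
    have h0 : Pos g S v 0 0 := by
      refine ⟨le_refl _, le_refl _, ?_, ?_, ?_⟩
      · intro j h3 h4; omega
      · simpa using hv
      · simpa using hgv
    obtain ⟨h3, h4⟩ := (hp v).unique h0
    change (g ^ (d v - e v)) v = v
    rw [h3, h4]; simp

end Rev


section Weight
variable {V : Type} [Fintype V] [DecidableEq V]
set_option linter.unusedSectionVars false

def Bk (g σ : Perm V) : Finset V := univ.filter fun v => σ (g v) = v
def Fw (g σ : Perm V) : Finset V := univ.filter fun v => σ v = g v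

theorem mem_Bk {g σ : Perm V} {v : V} : v ∈ Bk g σ ↔ σ (g v) = v := by simp [Bk]
theorem mem_Fw {g σ : Perm V} {v : V} : v ∈ Fw g σ ↔ σ v = g v := by simp [Fw]

theorem Bk_escape {g σ : Perm V} (hσ : Full σ) (o : V) (ho : g o = o) (x : V) :
    ∃ k : ℕ, (g ^ k) x ∉ Bk g σ := by
  classical
  by_contra hcon
  push Not at hcon
  have hoA : o ∈ univ.filter (fun z => ∃ k : ℕ, (g ^ k) x = z) := by
    refine hσ.closed _ (v := x) ?_ ?_ o
    · simp only [mem_filter, mem_univ, true_and]; exact ⟨0, by simp⟩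
    · intro z hz
      simp only [mem_filter, mem_univ, true_and] at hz ⊢
      obtain ⟨k, rfl⟩ := hz
      obtain ⟨m, hm⟩ : ∃ m : ℕ, (g ^ (m + 1)) x = (g ^ k) x := by
        cases k with
        | zero =>
          refine ⟨orderOf g - 1, ?_⟩
          rw [Nat.sub_add_cancel (orderOf_pos g), pow_orderOf_eq_one]; simp
        | succ k => exact ⟨k, rfl⟩
      refine ⟨m, ?_⟩
      rw [← hm, pow_succ', Perm.mul_apply]
      exact (mem_Bk.mp (hcon m)).symm
  simp only [mem_filter, mem_univ, true_and] at hoA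
  obtain ⟨k, hk⟩ := hoA
  have h1 := mem_Bk.mp (hcon k)
  rw [hk, ho] at h1
  exact hσ.ne o h1

theorem weight_ineq (g : Perm V) (h2 : ∀ u, g (g u) = u → g u = u) (o : V) (ho : g o = o)
    (hn : 3 ≤ Fintype.card V) [DecidablePred (Full (V := V))] :
    (univ.filter (Full (V := V))).card ≤
      ∑ σ ∈ univ.filter (fun σ : Perm V => Full σ ∧ Bk g σ = ∅), 2 ^ (Fw g σ).card := by
  classical
  have hT : ∀ S : Finset V, ∃ τ : Perm V, (∀ x, ∃ k : ℕ, (g ^ k) x ∉ S) →
      ((∀ v ∈ S, τ (g v) ∈ S ∧ τ v = g (τ (g v))) ∧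
      (∀ v, v ∉ S → g⁻¹ v ∉ S → τ v = v)) := by
    intro S
    by_cases hS : ∀ x, ∃ k : ℕ, (g ^ k) x ∉ S
    · obtain ⟨τ, h⟩ := exists_rev g S hS
      exact ⟨τ, fun _ => h⟩
    · exact ⟨1, fun h => absurd h hS⟩
  choose T hT using hT
  have hcard : ∑ σ ∈ univ.filter (fun σ : Perm V => Full σ ∧ Bk g σ = ∅), 2 ^ (Fw g σ).card =
      ((univ.filter (fun σ : Perm V => Full σ ∧ Bk g σ = ∅)).sigma
        (fun σ => (Fw g σ).powerset)).card := by
    rw [card_sigma]
    exact sum_congr rfl (fun σ _ => (card_powerset _).symm)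
  rw [hcard]
  refine card_le_card_of_injOn
    (fun σ => (⟨(T (Bk g σ))⁻¹ * σ * T (Bk g σ), Bk g σ⟩ : Σ _ : Perm V, Finset V)) ?_ ?_
  · intro σ hσ
    simp only [coe_filter, mem_univ, true_and, Set.mem_ofPred_eq] at hσ
    obtain ⟨hP1, hP2⟩ := hT (Bk g σ) (Bk_escape hσ o ho)
    set S := Bk g σ with hS
    set τ := T S with hτ
    have hfull : Full (τ⁻¹ * σ * τ) := hσ.conj
    have hi : ∀ v ∈ S, (τ⁻¹ * σ * τ) v = g v := by
      intro v hv
      obtain ⟨h3, h4⟩ := hP1 v hv
      have h5 : σ (g (τ (g v))) = τ (g v) := mem_Bk.mp (hS ▸ h3)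
      rw [Perm.mul_apply, Perm.mul_apply, h4, h5]
      simp
    simp only [coe_sigma, Set.mem_sigma_iff, mem_coe, mem_filter, mem_univ, true_and,
      mem_powerset]
    refine ⟨⟨hfull, ?_⟩, ?_⟩
    · rw [eq_empty_iff_forall_notMem]
      intro v hv
      have hv1 : (τ⁻¹ * σ * τ) (g v) = v := mem_Bk.mp hv
      have hvS : v ∉ S := by
        intro h
        have h6 := hi v h
        have h7 := hfull.ne2 hn v
        rw [h6, hv1] at h7
        exact h7 rfl
      have hgvS : g v ∉ S := by
        intro h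
        have h6 := hi (g v) h
        rw [hv1] at h6
        have h7 := h2 v h6.symm
        rw [h7] at h
        exact hvS h
      have hgiS : g⁻¹ v ∉ S := by
        intro h
        have h6 := hi (g⁻¹ v) h
        have h8 : g (g⁻¹ v) = v := by simp
        rw [h8] at h6
        have h7 : g⁻¹ v = g v := by
          apply (τ⁻¹ * σ * τ).injective
          rw [h6, hv1]
        have h9 : g (g v) = v := by rw [← h7, h8]
        have h10 := h2 v h9
        rw [h7, h10] at h
        exact hvS h
      have h11 : τ v = v := hP2 v hvS hgiS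
      have h12 : τ (g v) = g v := hP2 (g v) hgvS (by simpa using hvS)
      rw [Perm.mul_apply, Perm.mul_apply, h12] at hv1
      have h13 : σ (g v) = v := by
        have := congrArg τ hv1
        rw [h11] at this
        simpa using this
      exact hvS (hS ▸ mem_Bk.mpr h13)
    · intro v hv
      exact mem_Fw.mpr (hi v hv)
  · intro σ hσ σ' hσ' h
    simp only [Sigma.mk.injEq, heq_eq_eq] at h
    obtain ⟨h3, h4⟩ := h
    rw [← h4] at h3
    have h5 : T (Bk g σ) * ((T (Bk g σ))⁻¹ * σ * T (Bk g σ)) * (T (Bk g σ))⁻¹ =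
        T (Bk g σ) * ((T (Bk g σ))⁻¹ * σ' * T (Bk g σ)) * (T (Bk g σ))⁻¹ := by rw [h3]
    simpa [mul_assoc] using h5

end Weight


section Count

theorem count_fun {V B : Type} [DecidableEq V] [Fintype B] [DecidableEq B] (C : Finset V)
    (blk : V → B) (s : V → Bool) (hs : ∀ v ∈ C, ∀ w ∈ C, blk v = blk w → s v = s w) :
    2 ^ Fintype.card B ≤ 2 ^ C.card *
      (univ.filter (fun ω : B → Bool => ∀ v ∈ C, ω (blk v) = s v)).card := by
  classical
  have h1 : 2 ^ Fintype.card B = (univ : Finset (B → Bool)).card := by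
    rw [card_univ, Fintype.card_fun, Fintype.card_bool]
  rw [h1, ← card_powerset, ← card_product]
  refine card_le_card_of_injOn
    (fun ω => (C.filter (fun v => ω (blk v) = true),
      fun b => if h : ∃ v ∈ C, blk v = b then s h.choose else ω b)) ?_ ?_
  · intro ω _
    simp only [coe_product, Set.mem_prod, mem_coe, mem_powerset, mem_filter, mem_univ, true_and]
    refine ⟨filter_subset _ _, ?_⟩
    intro v hv
    have h : ∃ w ∈ C, blk w = blk v := ⟨v, hv, rfl⟩
    rw [dif_pos h]
    exact hs _ h.choose_spec.1 _ hv h.choose_spec.2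
  · intro ω _ ω' _ h
    simp only [Prod.mk.injEq] at h
    obtain ⟨h2, h3⟩ := h
    funext b
    by_cases hb : ∃ v ∈ C, blk v = b
    · obtain ⟨v, hv, rfl⟩ := hb
      have h4 : v ∈ C.filter (fun v => ω (blk v) = true) ↔
          v ∈ C.filter (fun v => ω' (blk v) = true) := by rw [h2]
      simp only [mem_filter, hv, true_and] at h4
      cases h5 : ω (blk v) <;> cases h6 : ω' (blk v) <;> simp_all
    · have h4 := congrFun h3 b
      simpa [dif_neg hb] using h4

end Count

section Tournament
variable {V : Type} [Fintype V] [LinearOrder V]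
set_option linter.unusedSectionVars false

/-- cyclic orientation of a triple -/
def s3 (u v w : V) : Bool :=
  decide ((u < v ∧ v < w) ∨ (v < w ∧ w < u) ∨ (w < u ∧ u < v))

theorem s3_rot (u v w : V) : s3 v w u = s3 u v w := by
  unfold s3
  congr 1
  apply propext
  tauto

theorem s3_swap {u v w : V} (h1 : u ≠ v) (h2 : v ≠ w) (h3 : u ≠ w) :
    s3 v u w = !s3 u v w := by
  unfold s3
  rcases lt_or_gt_of_ne h1 with h1 | h1 <;> rcases lt_or_gt_of_ne h2 with h2 | h2 <;>
    rcases lt_or_gt_of_ne h3 with h3 | h3 <;>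
    simp [h1, h2, h3, h1.not_gt, h2.not_gt, h3.not_gt]

/-- The arcs: `u → g u`, and in every other triple `{u, v, t u v}` a cyclic orientation
chosen by `ω`. -/
def arc (t : V → V → V) (ω : Finset V → Bool) (u v : V) : Prop :=
  u ≠ v ∧ (v = t u u ∨ (u ≠ t v v ∧ ω {u, v, t u v} = s3 u v (t u v)))

variable (t : V → V → V) (ht1 : ∀ u v, t u v = t v u) (ht2 : ∀ u v, t u (t u v) = v)
include ht1 ht2

theorem t_eq_left {u v : V} : t u v = u ↔ v = t u u := by
  constructor
  · intro h
    have := ht2 u v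
    rw [h] at this
    exact this.symm
  · rintro rfl
    exact ht2 u u

theorem t_eq_right {u v : V} : t u v = v ↔ u = t v v := by
  rw [ht1 u v]
  exact t_eq_left t ht1 ht2

theorem not_both {u v : V} (h : u ≠ v) (h1 : v = t u u) : u ≠ t v v := by
  intro h2
  have h3 := (t_eq_left t ht1 ht2).mpr h1
  have h4 := (t_eq_right t ht1 ht2).mpr h2
  exact h (h3.symm.trans h4)

theorem arc_iff (ω : Finset V → Bool) {u v : V} (h : u ≠ v) :
    arc t ω u v ↔ ¬ arc t ω v u := by
  by_cases h1 : v = t u u
  · have h2 := not_both t ht1 ht2 h h1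
    refine iff_of_true ⟨h, Or.inl h1⟩ ?_
    rintro ⟨_, h3 | ⟨h3, _⟩⟩
    · exact h2 h3
    · exact h3 h1
  · by_cases h2 : u = t v v
    · refine iff_of_false ?_ ?_
      · rintro ⟨_, h3 | ⟨h3, _⟩⟩
        · exact h1 h3
        · exact h3 h2
      · exact not_not.mpr ⟨Ne.symm h, Or.inl h2⟩
    · have hu : t u v ≠ u := fun h3 => h1 ((t_eq_left t ht1 ht2).mp h3)
      have hv : t u v ≠ v := fun h3 => h2 ((t_eq_right t ht1 ht2).mp h3)
      have h4 := s3_swap h (Ne.symm hv) (Ne.symm hu)
      have hset : ({v, u, t v u} : Finset V) = {u, v, t u v} := by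
        rw [ht1 v u, insert_comm]
      unfold arc
      rw [hset, ht1 v u, h4]
      simp only [h, h.symm, h1, h2, ne_eq, not_false_eq_true, true_and, false_or]
      cases ω {u, v, t u v} <;> cases s3 u v (t u v) <;> simp

/-- the partner of `v` at `u`, when `u → v` -/
theorem arc_partner (ω : Finset V → Bool) {u v : V} (h : arc t ω u v) (hv : v ≠ t u u) :
    arc t ω (t u v) u := by
  obtain ⟨h0, h1 | ⟨h1, h2⟩⟩ := h
  · exact absurd h1 hv
  · have hu' : t u v ≠ u := fun h3 => hv ((t_eq_left t ht1 ht2).mp h3)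
    have hv' : t u v ≠ v := fun h3 => h1 ((t_eq_right t ht1 ht2).mp h3)
    have h5 : t (t u v) u = v := by rw [ht1 (t u v) u]; exact ht2 u v
    refine ⟨hu', Or.inr ⟨?_, ?_⟩⟩
    · intro h3
      have := (t_eq_right t ht1 ht2).mpr h3
      rw [h5] at this
      exact h0 this.symm
    · rw [h5, ← s3_rot (t u v) u v, ← h2]
      congr 1
      ext x; simp only [mem_insert, mem_singleton]; tauto

theorem arc_partner' (ω : Finset V → Bool) {u v : V} (h : arc t ω v u) (hv : u ≠ t v v) :
    arc t ω u (t u v) := by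
  obtain ⟨h0, h1 | ⟨h1, h2⟩⟩ := h
  · exact absurd h1 hv
  · have hu' : t u v ≠ u := fun h3 => h1 ((t_eq_left t ht1 ht2).mp h3)
    have hv' : t u v ≠ v := fun h3 => hv ((t_eq_right t ht1 ht2).mp h3)
    have h5 : t u (t u v) = v := ht2 u v
    have h6 : t v u = t u v := ht1 v u
    refine ⟨Ne.symm hu', Or.inr ⟨?_, ?_⟩⟩
    · intro h3
      have := (t_eq_right t ht1 ht2).mpr h3
      rw [h5] at this
      exact hv' this.symm
    · rw [h5]
      rw [h6] at h2
      rw [s3_rot v u (t u v), ← h2]
      congr 1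
      ext x; simp only [mem_insert, mem_singleton]; tauto

theorem out_eq_in (g : Perm V) (hg : ∀ u, g u = t u u) (ω : Finset V → Bool) (u : V) :
    {v | arc t ω u v}.ncard = {v | arc t ω v u}.ncard := by
  classical
  apply le_antisymm
  · refine Set.ncard_le_ncard_of_injOn (fun v => if v = t u u then g⁻¹ u else t u v) ?_ ?_
      (Set.toFinite _)
    · intro v hv
      simp only [Set.mem_ofPred_eq] at hv ⊢
      split_ifs with h
      · have h1 : g (g⁻¹ u) = u := by simp
        refine ⟨?_, Or.inl (by rw [← hg, h1])⟩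
        intro h2
        rw [h2] at h1
        have : v = u := by rw [h, ← hg, h1]
        exact hv.1 this.symm
      · exact arc_partner t ht1 ht2 ω hv h
    · intro v hv w hw hvw
      simp only [Set.mem_ofPred_eq] at hv hw hvw
      have key : ∀ x, arc t ω u x → x ≠ t u u → t u x ≠ g⁻¹ u := by
        intro x hx hx' h1
        have h2 : g (t u x) = u := by rw [h1]; simp
        rw [hg] at h2
        have h3 := (t_eq_right t ht1 ht2).mpr h2.symm
        rw [ht2] at h3
        obtain ⟨h0, h4 | ⟨h4, _⟩⟩ := hx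
        · exact hx' h4
        · exact h4 ((t_eq_right t ht1 ht2).mp h3.symm)
      split_ifs at hvw with h1 h2 h2
      · exact h1.trans h2.symm
      · exact absurd hvw.symm (key w hw h2)
      · exact absurd hvw (key v hv h1)
      · have := congrArg (t u) hvw
        rwa [ht2, ht2] at this
  · refine Set.ncard_le_ncard_of_injOn (fun v => if u = t v v then t u u else t u v) ?_ ?_
      (Set.toFinite _)
    · intro v hv
      simp only [Set.mem_ofPred_eq] at hv ⊢
      split_ifs with h
      · refine ⟨?_, Or.inl rfl⟩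
        intro h2
        have h3 : g u = g v := by rw [hg, hg, ← h2, ← h]
        exact hv.1 (g.injective h3).symm
      · exact arc_partner' t ht1 ht2 ω hv h
    · intro v hv w hw hvw
      simp only [Set.mem_ofPred_eq] at hv hw hvw
      have key : ∀ x, arc t ω x u → u ≠ t x x → t u x ≠ t u u := by
        intro x hx hx' h1
        have := congrArg (t u) h1
        rw [ht2, ht2] at this
        exact hx.1 this
      split_ifs at hvw with h1 h2 h2
      · apply g.injective
        rw [hg, hg, ← h1, ← h2]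
      · exact absurd hvw.symm (key w hw h2)
      · exact absurd hvw (key v hv h1)
      · have := congrArg (t u) hvw
        rwa [ht2, ht2] at this

theorem out_card (g : Perm V) (hg : ∀ u, g u = t u u) (ω : Finset V → Bool) (u : V) :
    {v | arc t ω u v}.ncard = (Fintype.card V - 1) / 2 := by
  have h1 := out_eq_in t ht1 ht2 g hg ω u
  have h2 : ({v | arc t ω u v} ∪ {v | arc t ω v u} : Set V) = {u}ᶜ := by
    ext v
    simp only [Set.mem_union, Set.mem_ofPred_eq, Set.mem_compl_iff, Set.mem_singleton_iff]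
    constructor
    · rintro (h | h)
      · exact Ne.symm h.1
      · exact h.1
    · intro h
      by_cases h3 : arc t ω v u
      · exact Or.inr h3
      · exact Or.inl ((arc_iff t ht1 ht2 ω (Ne.symm h)).mpr h3)
  have h3 : Disjoint {v | arc t ω u v} {v | arc t ω v u} := by
    rw [Set.disjoint_left]
    intro v hv hv'
    exact (arc_iff t ht1 ht2 ω hv.1).mp hv hv'
  have h4 := Set.ncard_union_eq h3 (Set.toFinite _) (Set.toFinite _)
  rw [h2, Set.ncard_compl, Set.ncard_singleton, Nat.card_eq_fintype_card] at h4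
  omega

end Tournament


section Main
variable {V : Type} [Fintype V] [LinearOrder V]
set_option linter.unusedSectionVars false

variable (t : V → V → V) (ht1 : ∀ u v, t u v = t v u) (ht2 : ∀ u v, t u (t u v) = v)
include ht1 ht2

theorem count_omega (hn : 3 ≤ Fintype.card V) (g : Perm V) (hg : ∀ u, g u = t u u)
    (σ : Perm V) (hσ : Full σ) (hbk : Bk g σ = ∅)
    [DecidablePred (fun ω : Finset V → Bool => ∀ v, arc t ω v (σ v))] :
    2 ^ Fintype.card (Finset V) * 2 ^ (Fw g σ).card ≤ 2 ^ Fintype.card V *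
      (univ.filter (fun ω : Finset V → Bool => ∀ v, arc t ω v (σ v))).card := by
  classical
  have hb : ∀ v, v ≠ t (σ v) (σ v) := by
    intro v h
    have h1 : σ v ∈ Bk g σ := mem_Bk.mpr (by rw [hg, ← h])
    rw [hbk] at h1
    simp at h1
  have hC : ∀ v ∈ (Fw g σ)ᶜ, σ v ≠ t v v := by
    intro v hv h
    rw [mem_compl, mem_Fw] at hv
    exact hv (by rw [hg]; exact h)
  have h1 : ∀ v ∈ (Fw g σ)ᶜ, t v (σ v) ≠ v := fun v hv h =>
    hC v hv ((t_eq_left t ht1 ht2).mp h)
  have h2 : ∀ v, t v (σ v) ≠ σ v := fun v h => hb v ((t_eq_right t ht1 ht2).mp h)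
  have hs : ∀ v ∈ (Fw g σ)ᶜ, ∀ w ∈ (Fw g σ)ᶜ,
      ({v, σ v, t v (σ v)} : Finset V) = {w, σ w, t w (σ w)} →
      s3 v (σ v) (t v (σ v)) = s3 w (σ w) (t w (σ w)) := by
    intro v hv w hw hvw
    have hw1 : w ∈ ({v, σ v, t v (σ v)} : Finset V) := by rw [hvw]; simp
    have hw2 : σ w ∈ ({v, σ v, t v (σ v)} : Finset V) := by rw [hvw]; simp
    simp only [mem_insert, mem_singleton] at hw1 hw2
    rcases hw1 with h | h | h
    · rw [h]
    · have h3 : σ w = t v (σ v) := by
        rcases hw2 with h4 | h4 | h4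
        · exfalso; rw [h] at h4; exact hσ.ne2 hn v h4
        · exfalso; rw [h] at h4; exact hσ.ne (σ v) h4
        · exact h4
      have h5 : t w (σ w) = v := by
        rw [h3, h, ht1 v (σ v)]; exact ht2 _ _
      rw [h5, h3, h]
      exact (s3_rot v (σ v) (t v (σ v))).symm
    · have h3 : σ w = v := by
        rcases hw2 with h4 | h4 | h4
        · exact h4
        · exfalso
          have := σ.injective h4
          rw [h] at this
          exact h1 v hv this
        · exfalso; rw [← h] at h4; exact hσ.ne w h4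
      have h5 : t w (σ w) = σ v := by
        rw [h3, h, ht1 _ v]; exact ht2 _ _
      rw [h5, h3, h]
      exact s3_rot (t v (σ v)) v (σ v)
  have h3 := count_fun (B := Finset V) (Fw g σ)ᶜ
    (fun v => ({v, σ v, t v (σ v)} : Finset V)) (fun v => s3 v (σ v) (t v (σ v))) hs
  have h4 : (univ.filter (fun ω : Finset V → Bool => ∀ v ∈ (Fw g σ)ᶜ,
      ω {v, σ v, t v (σ v)} = s3 v (σ v) (t v (σ v)))).card ≤
      (univ.filter (fun ω : Finset V → Bool => ∀ v, arc t ω v (σ v))).card := by
    apply card_le_card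
    intro ω hω
    simp only [mem_filter, mem_univ, true_and] at hω ⊢
    intro v
    refine ⟨Ne.symm (hσ.ne v), ?_⟩
    by_cases hv : v ∈ Fw g σ
    · left
      rw [mem_Fw, hg] at hv
      exact hv
    · right
      exact ⟨hb v, hω v (mem_compl.mpr hv)⟩
  have h5 : (Fw g σ)ᶜ.card + (Fw g σ).card = Fintype.card V := by
    rw [add_comm]; exact card_add_card_compl _
  calc 2 ^ Fintype.card (Finset V) * 2 ^ (Fw g σ).card
      ≤ (2 ^ (Fw g σ)ᶜ.card * (univ.filter (fun ω : Finset V → Bool => ∀ v ∈ (Fw g σ)ᶜ,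
      ω {v, σ v, t v (σ v)} = s3 v (σ v) (t v (σ v)))).card) * 2 ^ (Fw g σ).card :=
        Nat.mul_le_mul_right _ (by convert h3)
    _ ≤ (2 ^ (Fw g σ)ᶜ.card *
      (univ.filter (fun ω : Finset V → Bool => ∀ v, arc t ω v (σ v))).card) *
        2 ^ (Fw g σ).card := Nat.mul_le_mul_right _ (Nat.mul_le_mul_left _ h4)
    _ = _ := by rw [← h5, pow_add]; ring

theorem main_count (hn : 3 ≤ Fintype.card V) (g : Perm V) (hg : ∀ u, g u = t u u)
    (h2 : ∀ u, g (g u) = u → g u = u) (o : V) (ho : g o = o) :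
    ∃ ω : Finset V → Bool, (Fintype.card V - 1).factorial ≤ 2 ^ Fintype.card V *
      {c : Perm V | c.IsCycle ∧ c.support = univ ∧ ∀ v, arc t ω v (c v)}.ncard := by
  classical
  have key : ∑ _ω : Finset V → Bool, (Fintype.card V - 1).factorial ≤
      ∑ ω : Finset V → Bool, 2 ^ Fintype.card V *
        (univ.filter (fun c : Perm V => Full c ∧ ∀ v, arc t ω v (c v))).card := by
    rw [sum_const, smul_eq_mul, card_univ, Fintype.card_fun, Fintype.card_bool, ← mul_sum]
    have h3 : ∑ ω : Finset V → Bool,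
        (univ.filter (fun c : Perm V => Full c ∧ ∀ v, arc t ω v (c v))).card =
        ∑ c ∈ univ.filter (Full (V := V)),
          (univ.filter (fun ω : Finset V → Bool => ∀ v, arc t ω v (c v))).card := by
      have := sum_card_bipartiteAbove_eq_sum_card_bipartiteBelow
        (s := (univ : Finset (Finset V → Bool))) (t := univ.filter (Full (V := V)))
        (fun (ω : Finset V → Bool) (c : Perm V) => ∀ v, arc t ω v (c v))
      simp only [bipartiteAbove, bipartiteBelow, filter_filter] at this
      exact this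
    rw [h3]
    calc 2 ^ Fintype.card (Finset V) * (Fintype.card V - 1).factorial
        ≤ 2 ^ Fintype.card (Finset V) *
          ∑ σ ∈ univ.filter (fun σ : Perm V => Full σ ∧ Bk g σ = ∅), 2 ^ (Fw g σ).card := by
          apply Nat.mul_le_mul_left
          exact (card_full (by omega)).trans (weight_ineq g h2 o ho hn)
      _ = ∑ σ ∈ univ.filter (fun σ : Perm V => Full σ ∧ Bk g σ = ∅),
          2 ^ Fintype.card (Finset V) * 2 ^ (Fw g σ).card := by rw [mul_sum]
      _ ≤ ∑ σ ∈ univ.filter (fun σ : Perm V => Full σ ∧ Bk g σ = ∅),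
          2 ^ Fintype.card V *
            (univ.filter (fun ω : Finset V → Bool => ∀ v, arc t ω v (σ v))).card := by
          apply sum_le_sum
          intro σ hσ
          simp only [mem_filter, mem_univ, true_and] at hσ
          exact count_omega t ht1 ht2 hn g hg σ hσ.1 hσ.2
      _ = 2 ^ Fintype.card V * ∑ σ ∈ univ.filter (fun σ : Perm V => Full σ ∧ Bk g σ = ∅),
            (univ.filter (fun ω : Finset V → Bool => ∀ v, arc t ω v (σ v))).card := by
          rw [mul_sum]
      _ ≤ _ := by
          apply Nat.mul_le_mul_left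
          apply sum_le_sum_of_subset
          intro σ hσ
          simp only [mem_filter, mem_univ, true_and] at hσ ⊢
          exact hσ.1
  obtain ⟨ω, -, hω⟩ := exists_le_of_sum_le univ_nonempty key
  refine ⟨ω, ?_⟩
  have h4 : {c : Perm V | c.IsCycle ∧ c.support = univ ∧ ∀ v, arc t ω v (c v)} =
      ((univ.filter (fun c : Perm V => Full c ∧ ∀ v, arc t ω v (c v)) : Finset (Perm V)) :
        Set (Perm V)) := by
    ext c
    simp [Full, and_assoc]
  rw [h4, Set.ncard_coe_finset]
  exact hω

end Main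

theorem fin_result (n : ℕ) (hodd : Odd n) (hn : 3 ≤ n) :
      ∃ adj : Fin n → Fin n → Prop,
        (∀ v, ¬ adj v v) ∧
        (∀ v w, v ≠ w → (adj v w ↔ ¬ adj w v)) ∧
        (∀ v, {w : Fin n | adj v w}.ncard = (n - 1) / 2) ∧
        ((Nat.factorial (n - 1) : ℝ) / (2 : ℝ) ^ n ≤
          (({c : Equiv.Perm (Fin n) |
              c.IsCycle ∧ c.support = Finset.univ ∧ ∀ v, adj v (c v)}.ncard : ℕ) : ℝ)) := by
  have : NeZero n := ⟨by omega⟩
  let t : Fin n → Fin n → Fin n := fun u v => -(u + v)
  have ht1 : ∀ u v, t u v = t v u := fun u v => by simp only [t]; rw [add_comm]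
  have ht2 : ∀ u v, t u (t u v) = v := fun u v => by simp only [t]; abel
  have hinj : Function.Injective (fun u => t u u) := by
    intro u v huv
    simp only [t] at huv
    obtain ⟨m, hm⟩ := hodd
    have h1 : 2 • (u - v) = 0 := by
      have : 2 • (u - v) = -(v + v) - -(u + u) := by abel
      rw [this, huv, sub_self]
    have h2 : (2 * m + 1) • (u - v) = 0 := by
      have := card_nsmul_eq_zero' (G := Fin n) (x := u - v)
      rw [Nat.card_eq_fintype_card, Fintype.card_fin] at this
      rw [← hm]; exact this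
    have h3 : u - v = 0 := by
      rw [add_smul, mul_comm 2 m, mul_smul, h1, smul_zero, zero_add, one_smul] at h2
      exact h2
    exact sub_eq_zero.mp h3
  let g : Perm (Fin n) := Equiv.ofBijective _ (Finite.injective_iff_bijective.mp hinj)
  have hg : ∀ u, g u = t u u := fun u => rfl
  have h2 : ∀ u, g (g u) = u → g u = u := by
    intro u h
    simp only [hg, t] at h ⊢
    have h3 : u + u + u = 0 := by
      have : u + u + u = -(-(u + u) + -(u + u)) - u := by abel
      rw [this, h, sub_self]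
    have h4 : -(u + u) = u - (u + u + u) := by abel
    rw [h4, h3, sub_zero]
  have hcard : Fintype.card (Fin n) = n := Fintype.card_fin n
  have ho : g 0 = 0 := by simp [hg, t]
  obtain ⟨ω, hω⟩ := main_count t ht1 ht2 (by rw [hcard]; exact hn) g hg h2 0 ho
  rw [hcard] at hω
  refine ⟨arc t ω, ?_, ?_, ?_, ?_⟩
  · intro v h; exact h.1 rfl
  · intro v w hvw; exact arc_iff t ht1 ht2 ω hvw
  · intro v
    have := out_card t ht1 ht2 g hg ω v
    rw [hcard] at this
    exact this
  · rw [div_le_iff₀ (by positivity)]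
    rw [mul_comm]
    exact_mod_cast hω


end Helpers

/-- For every odd n ≥ 3 there is a tournament on n vertices in which every vertex has out-degree (n−1)/2 and which has at least (n−1)!/2^n directed Hamilton cycles. -/
theorem result :
    ∀ n : ℕ, Odd n → 3 ≤ n →
      ∃ adj : Fin n → Fin n → Prop,
        (∀ v, ¬ adj v v) ∧
        (∀ v w, v ≠ w → (adj v w ↔ ¬ adj w v)) ∧
        (∀ v, {w : Fin n | adj v w}.ncard = (n - 1) / 2) ∧
        ((Nat.factorial (n - 1) : ℝ) / (2 : ℝ) ^ n ≤
          (({c : Equiv.Perm (Fin n) |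
              c.IsCycle ∧ c.support = Finset.univ ∧ ∀ v, adj v (c v)}.ncard : ℕ) : ℝ)) := by
  intro n hodd hn
  exact fin_result n hodd hn

end Pool.Agent.S04531
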