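import Pool.Statements.S04538

set_option autoImplicit false
open Pool Pool.MP_016f39_co

namespace Pool.Agent.S04538

/-- Neighbourhoods as bit masks. The vertex 0 is the hub; the three hexagons are
`6 i + 1, ..., 6 i + 6` for `i = 0, 1, 2`. -/
def nbm : List ℕ := [449388, 65572, 11, 21, 200, 67, 49, 2320, 641, 1281, 12800, 4225, 3073, 148480, 40961, 81921, 294914, 270337, 196609]

/-- Adjacency of the graph. -/
def adjB (x y : Fin 19) : Bool := Nat.testBit (nbm.getD x.1 0) y.1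

/-- The graph: three hexagons in a ring and a hub. -/
def G0 : SimpleGraph (Fin 19) where
  Adj x y := adjB x y = true
  symm := by
    have h : ∀ x y : Fin 19, adjB x y = true → adjB y x = true := by decide +kernel
    exact ⟨h⟩
  loopless := by
    have h : ∀ x : Fin 19, ¬ adjB x x = true := by decide +kernel
    exact ⟨h⟩

instance : DecidableRel G0.Adj := fun x y => inferInstanceAs (Decidable (adjB x y = true))

lemma adj_iff (x y : Fin 19) : G0.Adj x y ↔ adjB x y = true := Iff.rfl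

lemma deg3 : ∀ x : Fin 19, 3 ≤ G0.degree x := by decide +kernel

/-- Lower bound for the number of components by a labelling. -/
lemma le_card_comp {W : Type} [Finite W] (H : SimpleGraph W) (l : W → ℕ) (k : ℕ)
    (h1 : ∀ a b, H.Adj a b → l a = l b) (h2 : ∀ t, t < k → ∃ a, l a = t) :
    k ≤ Nat.card H.ConnectedComponent := by
  classical
  have hr : ∀ a b, H.Reachable a b → l a = l b := by
    intro a b hab
    obtain ⟨p⟩ := hab
    induction p with
    | nil => rfl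
    | cons h _ ih => exact (h1 _ _ h).trans ih
  choose f hf using h2
  have hinj : Function.Injective (fun t : Fin k => H.connectedComponentMk (f t.1 t.2)) := by
    intro s t hst
    have h3 : H.Reachable (f s.1 s.2) (f t.1 t.2) := SimpleGraph.ConnectedComponent.exact hst
    have h4 := hr _ _ h3
    rw [hf _ s.2, hf _ t.2] at h4
    exact Fin.ext h4
  have := Nat.card_le_card_of_injective _ hinj
  simpa using this

/-- Upper bound for the number of components. -/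
lemma card_comp_le (S : Finset (Fin 19)) (f : Fin 19 → Fin 19)
    (h : ∀ x, x ∉ S → ∃ s ∈ S, ∃ hs : f s ∉ S, ∃ hx : x ∉ S,
      (G0.induce ((S : Set (Fin 19))ᶜ)).Reachable ⟨f s, by simpa using hs⟩ ⟨x, by simpa using hx⟩) :
    Nat.card (G0.induce ((S : Set (Fin 19))ᶜ)).ConnectedComponent ≤ S.card := by
  classical
  set H := G0.induce ((S : Set (Fin 19))ᶜ) with hH
  by_cases hne : Nonempty H.ConnectedComponent
  · have hsurj : Function.Surjective (fun s : S => if hs : f s.1 ∉ S then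
        H.connectedComponentMk ⟨f s.1, by simpa using hs⟩ else Classical.choice hne) := by
      intro c
      induction c using SimpleGraph.ConnectedComponent.ind with
      | h v =>
        obtain ⟨s, hsS, hs, hx, hr⟩ := h v.1 (fun hv => v.2 (Finset.mem_coe.mpr hv))
        refine ⟨⟨s, hsS⟩, ?_⟩
        simp only [hs, not_false_eq_true, dif_pos]
        exact SimpleGraph.ConnectedComponent.sound hr
    have := Nat.card_le_card_of_surjective _ hsurj
    simpa using this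
  · rw [not_nonempty_iff] at hne
    simp

/-- Reachability outside `S`. -/
def Rc (S : Finset (Fin 19)) (x y : Fin 19) : Prop :=
  ∃ hs : x ∉ S, ∃ hx : y ∉ S,
      (G0.induce ((S : Set (Fin 19))ᶜ)).Reachable ⟨x, by simpa using hs⟩ ⟨y, by simpa using hx⟩

lemma Rc.refl {S : Finset (Fin 19)} {x : Fin 19} (hx : x ∉ S) : Rc S x x :=
  ⟨hx, hx, SimpleGraph.Reachable.refl _⟩

lemma Rc.symm {S : Finset (Fin 19)} {x y : Fin 19} (h : Rc S x y) : Rc S y x := by
  obtain ⟨h1, h2, h3⟩ := h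
  exact ⟨h2, h1, h3.symm⟩

lemma Rc.trans {S : Finset (Fin 19)} {x y z : Fin 19} (h : Rc S x y) (h' : Rc S y z) :
    Rc S x z := by
  obtain ⟨h1, h2, h3⟩ := h
  obtain ⟨_, h2', h3'⟩ := h'
  exact ⟨h1, h2', h3.trans h3'⟩

lemma Rc.adj {S : Finset (Fin 19)} {x y : Fin 19} (hx : x ∉ S) (hy : y ∉ S)
    (h : adjB x y = true) : Rc S x y :=
  ⟨hx, hy, SimpleGraph.Adj.reachable (G := G0.induce ((S : Set (Fin 19))ᶜ)) (show G0.Adj x y from h)⟩

/-- `S` without the hub: send each vertex of `S` to a vertex outside `S`. -/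
def f1 : Fin 19 → Fin 19 :=
  ![0, 0, 1, 4, 0, 0, 0, 0, 7, 10, 0, 0, 0, 0, 13, 16, 0, 0, 0]

lemma f1_a : ∀ s : Fin 19, f1 s ≠ 0 →
    ∃ b : Fin 19, f1 b = 0 ∧ adjB 0 b = true ∧ adjB b (f1 s) = true ∧ adjB s (f1 s) = true := by
  decide +kernel

lemma f1_b : ∀ x : Fin 19, x = 0 ∨ adjB 0 x = true ∨
    ∃ t : Fin 19, f1 t = x ∧ adjB t x = true ∧ adjB 0 t = true := by
  decide +kernel

lemma tough1 (S : Finset (Fin 19)) (hne : S.Nonempty)
    (hind : ∀ x ∈ S, ∀ y ∈ S, adjB x y = false) (h0 : (0 : Fin 19) ∉ S) :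
    ∀ x, x ∉ S → ∃ s ∈ S, Rc S (f1 s) x := by
  have hub : ∀ x : Fin 19, adjB 0 x = true → x ∉ S → Rc S 0 x := fun x hx hS => Rc.adj h0 hS hx
  have key : ∀ x : Fin 19, x ∉ S → Rc S 0 x ∨ ∃ s ∈ S, f1 s = x := by
    intro x hx
    rcases f1_b x with h | h | ⟨t, h1, h2, h3⟩
    · left
      rw [h]
      exact Rc.refl h0
    · left
      exact hub x h hx
    · by_cases ht : t ∈ S
      · right
        exact ⟨t, ht, h1⟩
      · left
        exact (hub t h3 ht).trans (Rc.adj ht hx h2)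
  have key2 : ∃ s ∈ S, Rc S (f1 s) 0 := by
    by_cases h : ∃ s ∈ S, f1 s = 0
    · obtain ⟨s, hs, h1⟩ := h
      refine ⟨s, hs, ?_⟩
      rw [h1]
      exact Rc.refl h0
    · push Not at h
      obtain ⟨s, hs⟩ := hne
      obtain ⟨b, hb1, hb2, hb3, hb4⟩ := f1_a s (h s hs)
      have hb : b ∉ S := fun hb => h b hb hb1
      have hf : f1 s ∉ S := fun hf => by
        have := hind s hs _ hf
        rw [hb4] at this
        exact Bool.noConfusion this
      exact ⟨s, hs, ((hub b hb2 hb).trans (Rc.adj hb hf hb3)).symm⟩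
  obtain ⟨s0, hs0, hr0⟩ := key2
  intro x hx
  rcases key x hx with h | ⟨s, hs, h⟩
  · exact ⟨s0, hs0, hr0.trans h⟩
  · refine ⟨s, hs, ?_⟩
    rw [h]
    exact Rc.refl hx

/-- `S` with the hub: the images of the connectors. -/
def g2 : Fin 19 → Fin 19 :=
  ![0, 5, 0, 0, 2, 0, 0, 11, 0, 0, 8, 0, 0, 17, 0, 0, 14, 0, 0]

lemma hex (S : Finset (Fin 19)) (a b c d b' c' : Fin 19)
    (hab : adjB a b = true) (hbc : adjB b c = true) (hcd : adjB c d = true)
    (hab' : adjB a b' = true) (hbc' : adjB b' c' = true) (hcd' : adjB c' d = true)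
    (ga : g2 a = b') (gd : g2 d = b)
    (hb : b ∉ S) (hc : c ∉ S) (hb' : b' ∉ S) (hc' : c' ∉ S) (x : Fin 19)
    (hx : x = a ∨ x = b ∨ x = c ∨ x = d ∨ x = b' ∨ x = c') (hxS : x ∉ S) :
    (∃ s ∈ S, (s = a ∨ s = d) ∧ Rc S (g2 s) x) ∨ (a ∉ S ∧ d ∉ S ∧ Rc S b x) := by
  have r1 : Rc S b c := Rc.adj hb hc hbc
  have r2 : Rc S b' c' := Rc.adj hb' hc' hbc'
  by_cases ha : a ∈ S
  · by_cases hd : d ∈ S
    · left
      rcases hx with rfl | rfl | rfl | rfl | rfl | rfl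
      · exact absurd ha hxS
      · exact ⟨d, hd, Or.inr rfl, by rw [gd]; exact Rc.refl hb⟩
      · exact ⟨d, hd, Or.inr rfl, by rw [gd]; exact r1⟩
      · exact absurd hd hxS
      · exact ⟨a, ha, Or.inl rfl, by rw [ga]; exact Rc.refl hb'⟩
      · exact ⟨a, ha, Or.inl rfl, by rw [ga]; exact r2⟩
    · left
      have r3 : Rc S c d := Rc.adj hc hd hcd
      have r4 : Rc S c' d := Rc.adj hc' hd hcd'
      have r5 : Rc S b' d := r2.trans r4
      have r6 : Rc S b' c := r5.trans r3.symm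
      refine ⟨a, ha, Or.inl rfl, ?_⟩
      rw [ga]
      rcases hx with rfl | rfl | rfl | rfl | rfl | rfl
      · exact absurd ha hxS
      · exact r6.trans r1.symm
      · exact r6
      · exact r5
      · exact Rc.refl hb'
      · exact r2
  · have s1 : Rc S b a := (Rc.adj ha hb hab).symm
    have s2 : Rc S b b' := s1.trans (Rc.adj ha hb' hab')
    have s3 : Rc S b c' := s2.trans r2
    have all : x ≠ d ∨ d ∉ S → Rc S b x := by
      intro hxd
      rcases hx with rfl | rfl | rfl | rfl | rfl | rfl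
      · exact s1
      · exact Rc.refl hb
      · exact r1
      · exact r1.trans (Rc.adj hc hxS hcd)
      · exact s2
      · exact s3
    by_cases hd : d ∈ S
    · left
      refine ⟨d, hd, Or.inr rfl, ?_⟩
      rw [gd]
      exact all (Or.inl fun h => hxS (h ▸ hd))
    · right
      exact ⟨ha, hd, all (Or.inr hd)⟩

lemma rim_not (S : Finset (Fin 19)) (hind : ∀ x ∈ S, ∀ y ∈ S, adjB x y = false)
    (h0 : (0 : Fin 19) ∈ S) (x : Fin 19) (hx : adjB 0 x = true) : x ∉ S := fun h => by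
  have := hind 0 h0 x h
  rw [hx] at this
  exact Bool.noConfusion this

lemma tough2 (S : Finset (Fin 19))
    (hind : ∀ x ∈ S, ∀ y ∈ S, adjB x y = false) (h0 : (0 : Fin 19) ∈ S) :
    ∃ f : Fin 19 → Fin 19, ∀ x, x ∉ S → ∃ s ∈ S, Rc S (f s) x := by
  have rim := rim_not S hind h0
  have n2 := rim 2 (by decide)
  have n3 := rim 3 (by decide)
  have n5 := rim 5 (by decide)
  have n6 := rim 6 (by decide)
  have n8 := rim 8 (by decide)
  have n9 := rim 9 (by decide)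
  have n11 := rim 11 (by decide)
  have n12 := rim 12 (by decide)
  have n14 := rim 14 (by decide)
  have n15 := rim 15 (by decide)
  have n17 := rim 17 (by decide)
  have n18 := rim 18 (by decide)
  have H0 := hex S 1 2 3 4 5 6 (by decide) (by decide) (by decide) (by decide) (by decide)
    (by decide) (by decide) (by decide) n2 n3 n5 n6
  have H1 := hex S 7 8 9 10 11 12 (by decide) (by decide) (by decide) (by decide) (by decide)
    (by decide) (by decide) (by decide) n8 n9 n11 n12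
  have H2 := hex S 13 14 15 16 17 18 (by decide) (by decide) (by decide) (by decide) (by decide)
    (by decide) (by decide) (by decide) n14 n15 n17 n18
  -- links between two intact hexagons
  have L01 : 4 ∉ S → 7 ∉ S → Rc S 2 8 := fun h4 h7 =>
    (((Rc.adj n2 n3 (by decide)).trans (Rc.adj n3 h4 (by decide))).trans
      (Rc.adj h4 h7 (by decide))).trans (Rc.adj h7 n8 (by decide))
  have L12 : 10 ∉ S → 13 ∉ S → Rc S 8 14 := fun h4 h7 =>
    (((Rc.adj n8 n9 (by decide)).trans (Rc.adj n9 h4 (by decide))).trans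
      (Rc.adj h4 h7 (by decide))).trans (Rc.adj h7 n14 (by decide))
  have L20 : 16 ∉ S → 1 ∉ S → Rc S 14 2 := fun h4 h7 =>
    (((Rc.adj n14 n15 (by decide)).trans (Rc.adj n15 h4 (by decide))).trans
      (Rc.adj h4 h7 (by decide))).trans (Rc.adj h7 n2 (by decide))
  -- the image of the hub
  have hk : ∃ k : Fin 19, (1 ∉ S → 4 ∉ S → Rc S k 2) ∧ (7 ∉ S → 10 ∉ S → Rc S k 8) ∧
      (13 ∉ S → 16 ∉ S → Rc S k 14) := by
    by_cases A : 1 ∉ S ∧ 4 ∉ S
    · refine ⟨2, fun _ _ => Rc.refl n2, fun h _ => L01 A.2 h, fun _ h => (L20 h A.1).symm⟩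
    · by_cases B : 7 ∉ S ∧ 10 ∉ S
      · exact ⟨8, fun h h' => absurd ⟨h, h'⟩ A, fun _ _ => Rc.refl n8, fun h _ => L12 B.2 h⟩
      · exact ⟨14, fun h h' => absurd ⟨h, h'⟩ A, fun h h' => absurd ⟨h, h'⟩ B,
          fun _ _ => Rc.refl n14⟩
  obtain ⟨k, hk0, hk1, hk2⟩ := hk
  refine ⟨fun s => if s = 0 then k else g2 s, ?_⟩
  have fin : ∀ a b d x : Fin 19, a ≠ 0 → d ≠ 0 → (a ∉ S → d ∉ S → Rc S k b) →
      ((∃ s ∈ S, (s = a ∨ s = d) ∧ Rc S (g2 s) x) ∨ (a ∉ S ∧ d ∉ S ∧ Rc S b x)) →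
      ∃ s ∈ S, Rc S (if s = 0 then k else g2 s) x := by
    intro a b d x ha hd hk h
    rcases h with ⟨s, hs, h1, h2⟩ | ⟨h1, h2, h3⟩
    · refine ⟨s, hs, ?_⟩
      have : s ≠ 0 := by
        rcases h1 with rfl | rfl
        · exact ha
        · exact hd
      rw [if_neg this]
      exact h2
    · refine ⟨0, h0, ?_⟩
      rw [if_pos rfl]
      exact (hk h1 h2).trans h3
  have cover : ∀ x : Fin 19, x = 0 ∨ (x = 1 ∨ x = 2 ∨ x = 3 ∨ x = 4 ∨ x = 5 ∨ x = 6) ∨
      (x = 7 ∨ x = 8 ∨ x = 9 ∨ x = 10 ∨ x = 11 ∨ x = 12) ∨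
      (x = 13 ∨ x = 14 ∨ x = 15 ∨ x = 16 ∨ x = 17 ∨ x = 18) := by decide
  intro x hx
  rcases cover x with h | h | h | h
  · exact absurd (h ▸ h0) hx
  · exact fin 1 2 4 x (by decide) (by decide) hk0 (H0 x h hx)
  · exact fin 7 8 10 x (by decide) (by decide) hk1 (H1 x h hx)
  · exact fin 13 14 16 x (by decide) (by decide) hk2 (H2 x h hx)

lemma tough (S : Finset (Fin 19)) (hne : S.Nonempty) (hS : G0.IsIndepSet (S : Set (Fin 19))) :
    Nat.card (G0.induce ((S : Set (Fin 19))ᶜ)).ConnectedComponent ≤ S.card := by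
  have hind : ∀ x ∈ S, ∀ y ∈ S, adjB x y = false := by
    intro x hx y hy
    by_contra h
    rw [Bool.not_eq_false] at h
    have hxy : G0.Adj x y := h
    exact hS (Finset.mem_coe.2 hx) (Finset.mem_coe.2 hy) hxy.ne hxy
  by_cases h0 : (0 : Fin 19) ∈ S
  · obtain ⟨f, hf⟩ := tough2 S hind h0
    exact card_comp_le S f hf
  · exact card_comp_le S f1 (tough1 S hne hind h0)

/-- Certificates: for each edge the type (`true` for deletion, `false` for contraction), the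
set `S` as a bit mask and a labelling of the vertices. -/
def table : List (ℕ × ℕ × Bool × ℕ × List ℕ) := [
  (1, 2, true, 73745, [0, 0, 1, 1, 0, 0, 0, 2, 2, 2, 2, 2, 2, 0, 3, 3, 0, 4, 4]),
  (2, 3, true, 73745, [0, 0, 0, 1, 0, 0, 0, 2, 2, 2, 2, 2, 2, 0, 3, 3, 0, 4, 4]),
  (3, 4, true, 1155, [0, 0, 0, 0, 1, 1, 1, 0, 2, 2, 0, 3, 3, 4, 4, 4, 4, 4, 4]),
  (1, 5, true, 73745, [0, 0, 0, 0, 0, 1, 1, 2, 2, 2, 2, 2, 2, 0, 3, 3, 0, 4, 4]),
  (5, 6, true, 73745, [0, 0, 0, 0, 0, 0, 1, 2, 2, 2, 2, 2, 2, 0, 3, 3, 0, 4, 4]),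
  (6, 4, true, 1155, [0, 0, 0, 0, 0, 1, 1, 0, 2, 2, 0, 3, 3, 4, 4, 4, 4, 4, 4]),
  (4, 7, true, 73729, [0, 0, 0, 0, 0, 0, 0, 1, 1, 1, 1, 1, 1, 0, 2, 2, 0, 3, 3]),
  (0, 2, false, 73749, [0, 0, 0, 1, 0, 0, 0, 2, 2, 2, 2, 2, 2, 0, 3, 3, 0, 4, 4]),
  (0, 3, false, 1163, [0, 0, 0, 0, 1, 1, 1, 0, 2, 2, 0, 3, 3, 4, 4, 4, 4, 4, 4]),
  (0, 5, false, 73777, [0, 0, 0, 0, 0, 0, 1, 2, 2, 2, 2, 2, 2, 0, 3, 3, 0, 4, 4]),
  (0, 6, false, 1219, [0, 0, 0, 0, 0, 1, 0, 0, 2, 2, 0, 3, 3, 4, 4, 4, 4, 4, 4]),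
  (7, 8, true, 1043, [0, 0, 0, 0, 0, 1, 1, 2, 3, 3, 0, 2, 2, 4, 4, 4, 4, 4, 4]),
  (8, 9, true, 73857, [0, 0, 0, 0, 0, 0, 0, 0, 1, 2, 2, 2, 2, 0, 3, 3, 0, 4, 4]),
  (9, 10, true, 73857, [0, 0, 0, 0, 0, 0, 0, 0, 1, 1, 2, 2, 2, 0, 3, 3, 0, 4, 4]),
  (7, 11, true, 1043, [0, 0, 0, 0, 0, 1, 1, 2, 2, 2, 0, 3, 3, 4, 4, 4, 4, 4, 4]),
  (11, 12, true, 73857, [0, 0, 0, 0, 0, 0, 0, 0, 1, 1, 1, 2, 1, 0, 3, 3, 0, 4, 4]),
  (12, 10, true, 73857, [0, 0, 0, 0, 0, 0, 0, 0, 1, 1, 1, 2, 2, 0, 3, 3, 0, 4, 4]),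
  (10, 13, true, 19, [0, 0, 0, 0, 0, 1, 1, 2, 2, 2, 2, 2, 2, 3, 3, 3, 3, 3, 3]),
  (0, 8, false, 1299, [0, 0, 0, 0, 0, 1, 1, 2, 0, 3, 0, 2, 2, 4, 4, 4, 4, 4, 4]),
  (0, 9, false, 74369, [0, 0, 0, 0, 0, 0, 0, 0, 1, 0, 2, 2, 2, 0, 3, 3, 0, 4, 4]),
  (0, 11, false, 3091, [0, 0, 0, 0, 0, 1, 1, 2, 2, 2, 0, 0, 3, 4, 4, 4, 4, 4, 4]),
  (0, 12, false, 77953, [0, 0, 0, 0, 0, 0, 0, 0, 1, 1, 1, 2, 0, 0, 3, 3, 0, 4, 4]),
  (13, 14, true, 66689, [0, 0, 0, 0, 0, 0, 0, 0, 1, 1, 0, 2, 2, 3, 4, 4, 0, 3, 3]),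
  (14, 15, true, 73729, [0, 0, 0, 0, 0, 0, 0, 0, 0, 0, 0, 0, 0, 0, 1, 2, 0, 3, 3]),
  (15, 16, true, 8211, [0, 0, 0, 0, 0, 1, 1, 2, 2, 2, 2, 2, 2, 0, 3, 3, 4, 4, 4]),
  (13, 17, true, 66689, [0, 0, 0, 0, 0, 0, 0, 0, 1, 1, 0, 2, 2, 3, 3, 3, 0, 4, 4]),
  (17, 18, true, 73729, [0, 0, 0, 0, 0, 0, 0, 0, 0, 0, 0, 0, 0, 0, 1, 1, 0, 2, 3]),
  (18, 16, true, 8211, [0, 0, 0, 0, 0, 1, 1, 2, 2, 2, 2, 2, 2, 0, 3, 3, 3, 4, 4]),
  (16, 1, true, 1153, [0, 0, 0, 0, 0, 0, 0, 0, 1, 1, 0, 2, 2, 3, 3, 3, 3, 3, 3]),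
  (0, 14, false, 83073, [0, 0, 0, 0, 0, 0, 0, 0, 1, 1, 0, 2, 2, 3, 0, 4, 0, 3, 3]),
  (0, 15, false, 40979, [0, 0, 0, 0, 0, 1, 1, 2, 2, 2, 2, 2, 2, 0, 3, 0, 4, 4, 4]),
  (0, 17, false, 197761, [0, 0, 0, 0, 0, 0, 0, 0, 1, 1, 0, 2, 2, 3, 3, 3, 0, 0, 4]),
  (0, 18, false, 270355, [0, 0, 0, 0, 0, 1, 1, 2, 2, 2, 2, 2, 2, 0, 3, 3, 3, 4, 0])]

/-- Membership in the set given by a mask. -/
def inS (m : ℕ) (x : Fin 19) : Bool := Nat.testBit m x.1

/-- The set given by a mask. -/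
def Sm (m : ℕ) : Finset (Fin 19) := Finset.univ.filter (fun x => inS m x = true)

/-- Size of the set given by a mask. -/
def sz (m : ℕ) : ℕ := ((List.finRange 19).filter (fun x => inS m x)).length

/-- The checker for a deletion certificate. -/
def chkD (u v : Fin 19) (m : ℕ) (L : List ℕ) : Bool :=
  decide (∃ x : Fin 19, inS m x = true) &&
  decide (∀ x y : Fin 19, inS m x = true → inS m y = true → adjB x y = true →
    ((x = u ∧ y = v) ∨ (x = v ∧ y = u))) &&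
  decide (∀ x y : Fin 19, inS m x = false → inS m y = false → adjB x y = true →
    ¬ (((x = u ∧ y = v) ∨ (x = v ∧ y = u))) → L.getD x.1 0 = L.getD y.1 0) &&
  decide (∀ t : Fin (sz m + 1), ∃ x : Fin 19, inS m x = false ∧ L.getD x.1 0 = t.1)

/-- The checker for a contraction certificate. -/
def chkC (u v : Fin 19) (m : ℕ) (L : List ℕ) : Bool :=
  decide (inS m u = true ∧ inS m v = true) &&
  decide (∀ x y : Fin 19, inS m x = true → inS m y = true → adjB x y = true →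
    ((x = u ∧ y = v) ∨ (x = v ∧ y = u))) &&
  decide (∀ x y : Fin 19, inS m x = false → inS m y = false → adjB x y = true →
    L.getD x.1 0 = L.getD y.1 0) &&
  decide (∀ t : Fin (sz m), ∃ x : Fin 19, inS m x = false ∧ L.getD x.1 0 = t.1)

/-- One line of the table certifies the edge `u v`. -/
def chk (u v : Fin 19) (c : ℕ × ℕ × Bool × ℕ × List ℕ) : Bool :=
  ((c.1 == u.1 && c.2.1 == v.1) || (c.1 == v.1 && c.2.1 == u.1)) &&
  (if c.2.2.1 then chkD u v c.2.2.2.1 c.2.2.2.2 else chkC u v c.2.2.2.1 c.2.2.2.2)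

lemma all_chk : ∀ u v : Fin 19, adjB u v = true → ∃ m L, chkD u v m L = true ∨ chkC u v m L = true := by
  have h : ∀ u v : Fin 19, adjB u v = true → table.any (fun c => chk u v c) = true := by
    decide +kernel
  intro u v huv
  have h1 := h u v huv
  rw [List.any_eq_true] at h1
  obtain ⟨c, _, hc⟩ := h1
  unfold chk at hc
  rw [Bool.and_eq_true] at hc
  refine ⟨c.2.2.2.1, c.2.2.2.2, ?_⟩
  have h2 := hc.2
  split at h2
  · exact Or.inl h2
  · exact Or.inr h2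

lemma mem_Sm (m : ℕ) (x : Fin 19) : x ∈ Sm m ↔ inS m x = true := by
  simp [Sm]

lemma not_mem_Sm (m : ℕ) (x : Fin 19) : x ∉ Sm m ↔ inS m x = false := by
  simp [Sm]

lemma card_Sm (m : ℕ) : (Sm m).card = sz m := by
  have h : Sm m = ((List.finRange 19).filter (fun x => inS m x)).toFinset := by
    ext x
    simp [Sm]
  rw [h, List.toFinset_card_of_nodup]
  · rfl
  · exact (List.nodup_finRange 19).filter _

/-- A deletion certificate refutes the deletion property. -/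
lemma useD (u v : Fin 19) (m : ℕ) (L : List ℕ) (h : chkD u v m L = true)
    (hdel : ∀ S : Finset (Fin 19), S.Nonempty →
          (G0.deleteEdges {s(u, v)}).IsIndepSet (S : Set (Fin 19)) →
          Nat.card ((G0.deleteEdges {s(u, v)}).induce ((S : Set (Fin 19))ᶜ)).ConnectedComponent
            ≤ S.card) : False := by
  unfold chkD at h
  rw [Bool.and_eq_true, Bool.and_eq_true, Bool.and_eq_true, decide_eq_true_iff,
    decide_eq_true_iff, decide_eq_true_iff, decide_eq_true_iff] at h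
  obtain ⟨⟨⟨h1, h2⟩, h3⟩, h4⟩ := h
  have hA := hdel (Sm m) ?_ ?_
  · have hB := le_card_comp ((G0.deleteEdges {s(u, v)}).induce (((Sm m : Finset (Fin 19)) : Set (Fin 19))ᶜ))
      (fun x => L.getD x.1.1 0) (sz m + 1) ?_ ?_
    · rw [card_Sm] at hA
      omega
    · intro a b hab
      have hab' : (G0.deleteEdges {s(u, v)}).Adj a.1 b.1 := hab
      rw [SimpleGraph.deleteEdges_adj] at hab'
      refine h3 a.1 b.1 ?_ ?_ hab'.1 ?_
      · exact (not_mem_Sm m a.1).1 (fun hx => a.2 (Finset.mem_coe.2 hx))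
      · exact (not_mem_Sm m b.1).1 (fun hx => b.2 (Finset.mem_coe.2 hx))
      · intro hcon
        apply hab'.2
        rw [Set.mem_singleton_iff, Sym2.eq_iff]
        exact hcon
    · intro t ht
      obtain ⟨x, hx1, hx2⟩ := h4 ⟨t, ht⟩
      exact ⟨⟨x, fun hx => ((not_mem_Sm m x).2 hx1) (Finset.mem_coe.1 hx)⟩, hx2⟩
  · obtain ⟨x, hx⟩ := h1
    exact ⟨x, (mem_Sm m x).2 hx⟩
  · intro x hx y hy _ hxy
    rw [SimpleGraph.deleteEdges_adj] at hxy
    apply hxy.2
    rw [Set.mem_singleton_iff, Sym2.eq_iff]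
    exact h2 x y ((mem_Sm m x).1 (Finset.mem_coe.1 hx)) ((mem_Sm m y).1 (Finset.mem_coe.1 hy)) hxy.1

/-- A contraction certificate refutes the contraction property. -/
lemma useC (u v : Fin 19) (huv : u ≠ v) (m : ℕ) (L : List ℕ) (h : chkC u v m L = true)
    (hcon : ∀ S : Finset {w : Fin 19 // w ≠ v}, S.Nonempty →
          (SimpleGraph.fromRel (fun a b : {w : Fin 19 // w ≠ v} =>
              G0.Adj a.1 b.1 ∨ (a.1 = u ∧ G0.Adj v b.1))).IsIndepSet
            (S : Set {w : Fin 19 // w ≠ v}) →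
          Nat.card ((SimpleGraph.fromRel (fun a b : {w : Fin 19 // w ≠ v} =>
              G0.Adj a.1 b.1 ∨ (a.1 = u ∧ G0.Adj v b.1))).induce
              ((S : Set {w : Fin 19 // w ≠ v})ᶜ)).ConnectedComponent ≤ S.card) : False := by
  unfold chkC at h
  rw [Bool.and_eq_true, Bool.and_eq_true, Bool.and_eq_true, decide_eq_true_iff,
    decide_eq_true_iff, decide_eq_true_iff, decide_eq_true_iff] at h
  obtain ⟨⟨⟨⟨hu, hv⟩, h2⟩, h3⟩, h4⟩ := h
  let S' : Finset {w : Fin 19 // w ≠ v} := Finset.univ.filter (fun w => inS m w.1 = true)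
  have hS' : ∀ w : {w : Fin 19 // w ≠ v}, w ∈ S' ↔ inS m w.1 = true := by
    intro w
    simp [S']
  have hcard : S'.card < sz m := by
    have hmap : S'.map (Function.Embedding.subtype _) ⊆ (Sm m).erase v := by
      intro x hx
      rw [Finset.mem_map] at hx
      obtain ⟨w, hw, rfl⟩ := hx
      rw [Finset.mem_erase]
      exact ⟨w.2, (mem_Sm m _).2 ((hS' w).1 hw)⟩
    have h5 := Finset.card_le_card hmap
    rw [Finset.card_map] at h5
    have h6 := Finset.card_erase_lt_of_mem ((mem_Sm m v).2 hv)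
    rw [card_Sm] at h6
    omega
  have hA := hcon S' ⟨⟨u, huv⟩, (hS' _).2 hu⟩ ?_
  · have hB := le_card_comp ((SimpleGraph.fromRel (fun a b : {w : Fin 19 // w ≠ v} =>
              G0.Adj a.1 b.1 ∨ (a.1 = u ∧ G0.Adj v b.1))).induce
              ((S' : Set {w : Fin 19 // w ≠ v})ᶜ))
      (fun x => L.getD x.1.1.1 0) (sz m) ?_ ?_
    · omega
    · have key : ∀ a b : {w : Fin 19 // w ≠ v}, a ∉ S' → b ∉ S' →
          (G0.Adj a.1 b.1 ∨ (a.1 = u ∧ G0.Adj v b.1)) → L.getD a.1.1 0 = L.getD b.1.1 0 := by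
        intro a b ha hb hab
        rw [hS', Bool.not_eq_true] at ha hb
        rcases hab with hab | ⟨hab, _⟩
        · exact h3 a.1 b.1 ha hb hab
        · rw [hab, hu] at ha
          exact Bool.noConfusion ha
      intro a b hab
      have hab' : (SimpleGraph.fromRel (fun a b : {w : Fin 19 // w ≠ v} =>
              G0.Adj a.1 b.1 ∨ (a.1 = u ∧ G0.Adj v b.1))).Adj a.1 b.1 := hab
      rw [SimpleGraph.fromRel_adj] at hab'
      have ha : a.1 ∉ S' := fun hx => a.2 (Finset.mem_coe.2 hx)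
      have hb : b.1 ∉ S' := fun hx => b.2 (Finset.mem_coe.2 hx)
      rcases hab'.2 with h6 | h6
      · exact key a.1 b.1 ha hb h6
      · exact (key b.1 a.1 hb ha h6).symm
    · intro t ht
      obtain ⟨x, hx1, hx2⟩ := h4 ⟨t, ht⟩
      have hxv : x ≠ v := by
        intro hxv
        rw [hxv, hv] at hx1
        exact Bool.noConfusion hx1
      refine ⟨⟨⟨x, hxv⟩, fun hx => ?_⟩, hx2⟩
      have := (hS' ⟨x, hxv⟩).1 (Finset.mem_coe.1 hx)
      rw [hx1] at this
      exact Bool.noConfusion this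
  · have key : ∀ a b : {w : Fin 19 // w ≠ v}, a ∈ S' → b ∈ S' → a ≠ b →
          ¬ (G0.Adj a.1 b.1 ∨ (a.1 = u ∧ G0.Adj v b.1)) := by
      intro a b ha hb hne hab
      rw [hS'] at ha hb
      rcases hab with hab | ⟨h7, hab⟩
      · rcases h2 a.1 b.1 ha hb hab with h8 | h8
        · exact b.2 h8.2
        · exact a.2 h8.1
      · rcases h2 v b.1 hv hb hab with h8 | h8
        · exact huv h8.1.symm
        · exact hne (Subtype.ext (h7.trans h8.2.symm))
    intro a ha b hb hne hab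
    rw [SimpleGraph.fromRel_adj] at hab
    rcases hab.2 with h6 | h6
    · exact key a b (Finset.mem_coe.1 ha) (Finset.mem_coe.1 hb) hne h6
    · exact key b a (Finset.mem_coe.1 hb) (Finset.mem_coe.1 ha) hne.symm h6

/-- The negation of the preceding statement: Every finite graph of minimum degree at least 3 in which no nonempty independent set S leaves more than ∣S∣ components has an edge uv such that deleting it, and also contracting it, keep that property. -/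
theorem result :
    ¬ (∀ (V : Type) [Fintype V] [Nonempty V] (G : SimpleGraph V) [DecidableRel G.Adj],
      (∀ x : V, 3 ≤ G.degree x) →
      (∀ S : Finset V, S.Nonempty → G.IsIndepSet (S : Set V) →
        Nat.card (G.induce ((S : Set V)ᶜ)).ConnectedComponent ≤ S.card) →
      ∃ u v : V, G.Adj u v ∧
        (∀ S : Finset V, S.Nonempty →
          (G.deleteEdges {s(u, v)}).IsIndepSet (S : Set V) →
          Nat.card ((G.deleteEdges {s(u, v)}).induce ((S : Set V)ᶜ)).ConnectedComponent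
            ≤ S.card) ∧
        (∀ S : Finset {w : V // w ≠ v}, S.Nonempty →
          (SimpleGraph.fromRel (fun a b : {w : V // w ≠ v} =>
              G.Adj a.1 b.1 ∨ (a.1 = u ∧ G.Adj v b.1))).IsIndepSet
            (S : Set {w : V // w ≠ v}) →
          Nat.card ((SimpleGraph.fromRel (fun a b : {w : V // w ≠ v} =>
              G.Adj a.1 b.1 ∨ (a.1 = u ∧ G.Adj v b.1))).induce
              ((S : Set {w : V // w ≠ v})ᶜ)).ConnectedComponent ≤ S.card)) := by
  intro H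
  obtain ⟨u, v, huv, hdel, hcon⟩ := H (Fin 19) G0 deg3 tough
  obtain ⟨m, L, h | h⟩ := all_chk u v huv
  · exact useD u v m L h hdel
  · exact useC u v huv.ne m L h hcon

end Pool.Agent.S04538
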