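import Pool.Statements.S04544

set_option autoImplicit false
open Classical
open Pool Pool.MP_019aa5_co

namespace Pool.Agent.S04544

/-- The plane. -/
abbrev E2 := EuclideanSpace ℝ (Fin 2)

/-- First coordinates of the six vertices `A1, A2, A3, B1, B2, B3`. -/
def vx : Fin 6 → ℤ := ![1, -4, 3, -1, 1, 0]
/-- Second coordinates of the six vertices. -/
def vy : Fin 6 → ℤ := ![4, -3, -1, -1, 0, 1]

/-- The six vertices. -/
noncomputable def V (a : Fin 6) : E2 := !₂[(vx a : ℝ), (vy a : ℝ)]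

/-- The seven triangles. -/
def tri : Fin 7 → Finset (Fin 6) :=
  ![{3, 4, 5}, {0, 1, 3}, {1, 2, 4}, {2, 0, 5}, {1, 4, 3}, {2, 5, 4}, {0, 3, 5}]

/-- Separating affine functions. -/
def sep : Fin 7 → Fin 7 → ℤ × ℤ × ℤ :=
  ![![(0, 0, 0), (7, -3, 4), (-4, 7, 4), (-3, -4, 4), (-1, 2, 1), (-1, -1, 1), (2, -1, 1)],
    ![(-7, 3, -4), (0, 0, 0), (-5, 8, 4), (-8, 3, -4), (-2, 3, 1), (-10, 4, -5), (-5, 2, -3)],
    ![(4, -7, -4), (5, -8, -4), (0, 0, 0), (-3, -5, 4), (3, -5, -3), (-1, -2, 1), (6, -10, -5)],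
    ![(3, 4, -4), (8, -3, 4), (3, 5, -4), (0, 0, 0), (4, 6, -5), (2, 3, -3), (3, -1, 1)],
    ![(1, -2, -1), (2, -3, -1), (-3, 5, 3), (-4, -6, 5), (0, 0, 0), (-2, -3, 2), (3, -5, -2)],
    ![(1, 1, -1), (10, -4, 5), (1, 2, -1), (-2, -3, 3), (2, 3, -2), (0, 0, 0), (5, -2, 2)],
    ![(-2, 1, -1), (5, -2, 3), (-6, 10, 5), (-3, 1, -1), (-3, 5, 2), (-5, 2, -2), (0, 0, 0)]]

/-- Value of the separating function of triangles `i`, `j` at vertex `a`. -/
def hv (i j : Fin 7) (a : Fin 6) : ℤ :=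
  (sep i j).1 * vx a + (sep i j).2.1 * vy a + (sep i j).2.2

lemma hv_pos : ∀ i j : Fin 7, ∀ a ∈ tri i, 0 ≤ hv i j a ∧ (hv i j a = 0 → a ∈ tri j) := by
  decide

lemma hv_neg : ∀ i j : Fin 7, ∀ a ∈ tri j, hv i j a ≤ 0 ∧ (hv i j a = 0 → a ∈ tri i) := by
  decide

lemma V_zero (a : Fin 6) : (V a) 0 = (vx a : ℝ) := by simp [V]
lemma V_one (a : Fin 6) : (V a) 1 = (vy a : ℝ) := by simp [V]

lemma vxy_inj : ∀ a b : Fin 6, vx a = vx b → vy a = vy b → a = b := by decide

lemma V_inj : Function.Injective V := by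
  intro a b h
  apply vxy_inj
  · have : (V a) 0 = (V b) 0 := by rw [h]
    rw [V_zero, V_zero] at this
    exact Int.cast_injective (α := ℝ) this
  · have : (V a) 1 = (V b) 1 := by rw [h]
    rw [V_one, V_one] at this
    exact Int.cast_injective (α := ℝ) this

lemma mem_conv (t : Finset (Fin 6)) (p : E2) :
    p ∈ convexHull ℝ ((t.image V : Finset E2) : Set E2) ↔
      ∃ w : Fin 6 → ℝ, (∀ a, 0 ≤ w a) ∧ (∀ a, a ∉ t → w a = 0) ∧ ∑ a, w a = 1 ∧
        ∑ a, w a • V a = p := by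
  constructor
  · intro hp
    rw [Finset.mem_convexHull'] at hp
    obtain ⟨w, hw0, hw1, hwp⟩ := hp
    rw [Finset.sum_image (fun a _ b _ h => V_inj h)] at hw1 hwp
    refine ⟨fun a => if a ∈ t then w (V a) else 0, ?_, ?_, ?_, ?_⟩
    · intro a
      by_cases h : a ∈ t
      · simp only [h, if_true]; exact hw0 _ (Finset.mem_image_of_mem V h)
      · simp [h]
    · intro a h; simp [h]
    · rw [← hw1, Finset.sum_ite_mem, Finset.univ_inter]
    · rw [← hwp]
      simp only [ite_smul, zero_smul]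
      rw [Finset.sum_ite_mem, Finset.univ_inter]
  · rintro ⟨w, hw0, hwt, hw1, hwp⟩
    rw [← hwp]
    have h1 : ∑ a, w a • V a = ∑ a ∈ t, w a • V a := by
      symm
      apply Finset.sum_subset (Finset.subset_univ t)
      intro a _ ha; rw [hwt a ha, zero_smul]
    have h2 : ∑ a ∈ t, w a = 1 := by
      rw [← hw1]
      apply Finset.sum_subset (Finset.subset_univ t)
      intro a _ ha; exact hwt a ha
    rw [h1]
    apply (convex_convexHull ℝ _).sum_mem (fun a _ => hw0 a) h2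
    intro a ha
    apply subset_convexHull
    exact_mod_cast Finset.mem_image_of_mem V ha

lemma sum_coord (w : Fin 6 → ℝ) (p : E2) (h : ∑ a, w a • V a = p) :
    ∑ a, w a * (vx a : ℝ) = p 0 ∧ ∑ a, w a * (vy a : ℝ) = p 1 := by
  subst h
  constructor
  · simp [V_zero]
  · simp [V_one]

/-- A relation supported on one triangle is trivial. -/
lemma indep_tri (j : Fin 7) (u : Fin 6 → ℝ) (hs : ∀ a, a ∉ tri j → u a = 0)
    (h1 : ∑ a, u a = 0) (hx : ∑ a, u a * (vx a : ℝ) = 0) (hy : ∑ a, u a * (vy a : ℝ) = 0) :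
    u = 0 := by
  have key : ∀ a, u a = 0 := by
    simp only [Fin.sum_univ_six] at h1 hx hy
    simp only [vx, vy] at hx hy
    have n0 := hs 0
    have n1 := hs 1
    have n2 := hs 2
    have n3 := hs 3
    have n4 := hs 4
    have n5 := hs 5
    fin_cases j <;> simp [tri] at n0 n1 n2 n3 n4 n5 h1 hx hy <;> intro a <;> fin_cases a <;>
      simp <;> linarith
  funext a; exact key a

lemma inter_conv (i j : Fin 7) (t1 t2 : Finset (Fin 6)) (h1 : t1 ⊆ tri i) (h2 : t2 ⊆ tri j)
    (p : E2) (hp1 : p ∈ convexHull ℝ ((t1.image V : Finset E2) : Set E2))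
    (hp2 : p ∈ convexHull ℝ ((t2.image V : Finset E2) : Set E2)) :
    p ∈ convexHull ℝ (((t1 ∩ t2).image V : Finset E2) : Set E2) := by
  rw [mem_conv] at hp1 hp2 ⊢
  obtain ⟨w, hw0, hwt, hw1, hwp⟩ := hp1
  obtain ⟨z, hz0, hzt, hz1, hzp⟩ := hp2
  obtain ⟨wx, wy⟩ := sum_coord w p hwp
  obtain ⟨zx, zy⟩ := sum_coord z p hzp
  have expand : ∀ u : Fin 6 → ℝ, ∑ a, u a * (hv i j a : ℝ) =
      ((sep i j).1 : ℝ) * (∑ a, u a * (vx a : ℝ)) + ((sep i j).2.1 : ℝ) * (∑ a, u a * (vy a : ℝ))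
        + ((sep i j).2.2 : ℝ) * ∑ a, u a := by
    intro u
    rw [Finset.mul_sum, Finset.mul_sum, Finset.mul_sum, ← Finset.sum_add_distrib,
      ← Finset.sum_add_distrib]
    apply Finset.sum_congr rfl
    intro a _
    simp only [hv]
    push_cast
    ring
  have heq : ∑ a, w a * (hv i j a : ℝ) = ∑ a, z a * (hv i j a : ℝ) := by
    rw [expand, expand, wx, wy, zx, zy, hw1, hz1]
  have hwn : ∀ a ∈ (Finset.univ : Finset (Fin 6)), 0 ≤ w a * (hv i j a : ℝ) := by
    intro a _
    by_cases ha : a ∈ t1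
    · have := (hv_pos i j a (h1 ha)).1
      exact mul_nonneg (hw0 a) (by exact_mod_cast this)
    · rw [hwt a ha]; simp
  have hzn : ∀ a ∈ (Finset.univ : Finset (Fin 6)), 0 ≤ -(z a * (hv i j a : ℝ)) := by
    intro a _
    by_cases ha : a ∈ t2
    · have h3 := (hv_neg i j a (h2 ha)).1
      have h4 : (hv i j a : ℝ) ≤ 0 := by exact_mod_cast h3
      have := mul_nonneg (hz0 a) (neg_nonneg.mpr h4)
      linarith
    · rw [hzt a ha]; simp
  have hws : ∑ a, w a * (hv i j a : ℝ) = 0 := by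
    apply le_antisymm
    · rw [heq]
      have := Finset.sum_nonneg hzn
      rw [Finset.sum_neg_distrib] at this
      linarith
    · exact Finset.sum_nonneg hwn
  have hzs : ∑ a, -(z a * (hv i j a : ℝ)) = 0 := by
    rw [Finset.sum_neg_distrib, ← heq, hws, neg_zero]
  have hwz := (Finset.sum_eq_zero_iff_of_nonneg hwn).mp hws
  have hzz := (Finset.sum_eq_zero_iff_of_nonneg hzn).mp hzs
  have hsw : ∀ a, a ∉ tri i → w a = 0 := fun a ha => hwt a (fun h => ha (h1 h))
  have hsz : ∀ a, a ∉ tri i → z a = 0 := by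
    intro a ha
    by_cases h3 : a ∈ t2
    · have h4 := hzz a (Finset.mem_univ a)
      by_contra hne
      have h5 : (hv i j a : ℝ) = 0 := by
        rcases mul_eq_zero.mp (neg_eq_zero.mp h4) with h | h
        · exact absurd h hne
        · exact h
      exact ha ((hv_neg i j a (h2 h3)).2 (by exact_mod_cast h5))
    · exact hzt a h3
  have hu : (fun a => w a - z a) = 0 := by
    apply indep_tri i
    · intro a ha
      simp only [hsw a ha, hsz a ha, sub_zero]
    · simp only [Finset.sum_sub_distrib, hw1, hz1, sub_self]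
    · simp only [sub_mul, Finset.sum_sub_distrib, wx, zx, sub_self]
    · simp only [sub_mul, Finset.sum_sub_distrib, wy, zy, sub_self]
  refine ⟨w, hw0, ?_, hw1, hwp⟩
  intro a ha
  rw [Finset.mem_inter, not_and_or] at ha
  rcases ha with ha | ha
  · exact hwt a ha
  · have : w a - z a = 0 := congrFun hu a
    rw [hzt a ha] at this
    linarith

lemma indep_face (j : Fin 7) (t : Finset (Fin 6)) (ht : t ⊆ tri j) :
    AffineIndependent ℝ ((↑) : {x // x ∈ t.image V} → E2) := by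
  have base : AffineIndependent ℝ (fun a : {x // x ∈ t} => V a.1) := by
    rw [affineIndependent_iff_of_fintype]
    intro w hw0 hwv a
    rw [Finset.univ.weightedVSub_eq_linear_combination hw0] at hwv
    let u : Fin 6 → ℝ := fun b => if h : b ∈ t then w ⟨b, h⟩ else 0
    have hsum : ∀ (f : Fin 6 → ℝ), ∑ b, u b * f b = ∑ b : {x // x ∈ t}, w b * f b.1 := by
      intro f
      rw [← Finset.sum_subset (Finset.subset_univ t) (by
        intro b _ hb; simp [u, hb])]
      rw [← Finset.sum_coe_sort t]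
      apply Finset.sum_congr rfl
      intro b _
      simp [u, b.2]
    have hu : u = 0 := by
      apply indep_tri j
      · intro b hb
        have : b ∉ t := fun h => hb (ht h)
        simp [u, this]
      · have := hsum (fun _ => 1)
        simp only [mul_one] at this
        rw [this, hw0]
      · rw [hsum]
        have := congrArg (fun q : E2 => q 0) hwv
        simpa [V_zero] using this
      · rw [hsum]
        have := congrArg (fun q : E2 => q 1) hwv
        simpa [V_one] using this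
    have := congrFun hu a.1
    simpa [u, a.2] using this
  have hex : ∀ x : {x // x ∈ t.image V}, ∃ a : {x // x ∈ t}, V a.1 = x.1 := by
    rintro ⟨x, hx⟩
    obtain ⟨a, ha, rfl⟩ := Finset.mem_image.mp hx
    exact ⟨⟨a, ha⟩, rfl⟩
  choose g hg using hex
  have hgi : Function.Injective g := by
    intro x y h
    apply Subtype.ext
    rw [← hg x, ← hg y, h]
  have := base.comp_embedding ⟨g, hgi⟩
  convert this using 1
  funext x
  simp [hg x]

/-- The triangulation. -/
noncomputable def K : Geometry.SimplicialComplex ℝ E2 where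
  faces := {s | ∃ j : Fin 7, ∃ t : Finset (Fin 6), t ⊆ tri j ∧ t.Nonempty ∧ s = t.image V}
  isRelLowerSet_faces := by
    rintro s ⟨j, t, ht, hn, rfl⟩
    refine ⟨by simpa using hn, ?_⟩
    intro s' hs' hn'
    refine ⟨j, t.filter (fun a => V a ∈ s'), (Finset.filter_subset _ _).trans ht, ?_, ?_⟩
    · obtain ⟨x, hx⟩ := hn'
      obtain ⟨a, ha, rfl⟩ := Finset.mem_image.mp (hs' hx)
      exact ⟨a, by simp [ha, hx]⟩
    · ext x
      simp only [Finset.mem_image, Finset.mem_filter]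
      constructor
      · intro hx
        obtain ⟨a, ha, rfl⟩ := Finset.mem_image.mp (hs' hx)
        exact ⟨a, ⟨ha, hx⟩, rfl⟩
      · rintro ⟨a, ⟨_, h⟩, rfl⟩
        exact h
  indep := by
    rintro s ⟨j, t, ht, hn, rfl⟩
    exact indep_face j t ht
  inter_subset_convexHull := by
    rintro s1 s2 ⟨i, t1, ht1, hn1, rfl⟩ ⟨j, t2, ht2, hn2, rfl⟩ p ⟨hp1, hp2⟩
    have := inter_conv i j t1 t2 ht1 ht2 p hp1 hp2
    have h3 : (((t1.image V : Finset E2) : Set E2) ∩ ((t2.image V : Finset E2) : Set E2)) =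
        (((t1 ∩ t2).image V : Finset E2) : Set E2) := by
      rw [Finset.image_inter _ _ V_inj, Finset.coe_inter]
    rw [h3]
    exact this

lemma mem_faces (s : Finset E2) :
    s ∈ K.faces ↔ ∃ j : Fin 7, ∃ t : Finset (Fin 6), t ⊆ tri j ∧ t.Nonempty ∧ s = t.image V :=
  Iff.rfl

lemma image_mem_faces (t : Finset (Fin 6)) :
    t.image V ∈ K.faces ↔ ∃ j : Fin 7, t ⊆ tri j ∧ t.Nonempty := by
  rw [mem_faces]
  constructor
  · rintro ⟨j, t', ht', hn, h⟩
    have : t = t' := Finset.image_injective V_inj h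
    subst this
    exact ⟨j, ht', hn⟩
  · rintro ⟨j, h1, h2⟩
    exact ⟨j, t, h1, h2, rfl⟩

lemma K_finite : K.faces.Finite := by
  apply Set.Finite.subset (Set.finite_range (fun t : Finset (Fin 6) => t.image V))
  rintro s ⟨j, t, _, _, rfl⟩
  exact ⟨t, rfl⟩

lemma card_tri : ∀ j : Fin 7, (tri j).card = 3 := by decide

lemma tri_nonempty (j : Fin 7) : (tri j).Nonempty := by
  rw [← Finset.card_pos, card_tri]; norm_num

lemma K_facets_card : ∀ F ∈ K.facets, F.card = 2 + 1 := by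
  intro F hF
  rw [Geometry.SimplicialComplex.mem_facets] at hF
  obtain ⟨⟨j, t, ht, hn, rfl⟩, hmax⟩ := hF
  have h1 := hmax ((tri j).image V) ((image_mem_faces _).mpr ⟨j, le_refl _, tri_nonempty j⟩)
    (Finset.image_subset_image ht)
  rw [h1, Finset.card_image_of_injective _ V_inj, card_tri]

lemma tri_max : ∀ i j : Fin 7, tri i ⊆ tri j → i = j := by decide

lemma tri_facet (j : Fin 7) : (tri j).image V ∈ K.facets := by
  rw [Geometry.SimplicialComplex.mem_facets]
  refine ⟨(image_mem_faces _).mpr ⟨j, le_refl _, tri_nonempty j⟩, ?_⟩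
  rintro s ⟨i, t, ht, hn, rfl⟩ hsub
  have h1 : tri j ⊆ t := (Finset.image_subset_image_iff V_inj).mp hsub
  have h2 := tri_max j i (h1.trans ht)
  subst h2
  rw [Finset.Subset.antisymm h1 ht]

/-- The three linear forms cutting out the big triangle. -/
def inBig (p : E2) : Prop :=
  0 ≤ 7 * p 0 - 5 * p 1 + 13 ∧ 0 ≤ -2 * p 0 + 7 * p 1 + 13 ∧ 0 ≤ -5 * p 0 - 2 * p 1 + 13

lemma inBig_vertex : ∀ a : Fin 6, 0 ≤ 7 * vx a - 5 * vy a + 13 ∧ 0 ≤ -2 * vx a + 7 * vy a + 13 ∧
    0 ≤ -5 * vx a - 2 * vy a + 13 := by decide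

lemma space_sub (p : E2) (hp : p ∈ K.space) : inBig p := by
  rw [Geometry.SimplicialComplex.mem_space_iff] at hp
  obtain ⟨s, ⟨j, t, ht, hn, rfl⟩, hp⟩ := hp
  rw [mem_conv] at hp
  obtain ⟨w, hw0, hwt, hw1, hwp⟩ := hp
  obtain ⟨wx, wy⟩ := sum_coord w p hwp
  have expand : ∀ (α β γ : ℝ), (∀ a, 0 ≤ α * (vx a : ℝ) + β * (vy a : ℝ) + γ) →
      0 ≤ α * p 0 + β * p 1 + γ := by
    intro α β γ h
    have h1 : α * p 0 + β * p 1 + γ = ∑ a, w a * (α * (vx a : ℝ) + β * (vy a : ℝ) + γ) := by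
      rw [← wx, ← wy]
      conv_lhs => rw [← mul_one γ, ← hw1]
      rw [Finset.mul_sum, Finset.mul_sum, Finset.mul_sum, ← Finset.sum_add_distrib,
        ← Finset.sum_add_distrib]
      apply Finset.sum_congr rfl
      intro a _; ring
    rw [h1]
    exact Finset.sum_nonneg (fun a _ => mul_nonneg (hw0 a) (h a))
  refine ⟨?_, ?_, ?_⟩
  · have := expand 7 (-5) 13 (fun a => by
      have := (inBig_vertex a).1
      have h2 : (0 : ℝ) ≤ ((7 * vx a - 5 * vy a + 13 : ℤ) : ℝ) := by exact_mod_cast this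
      push_cast at h2; linarith)
    linarith
  · have := expand (-2) 7 13 (fun a => by
      have := (inBig_vertex a).2.1
      have h2 : (0 : ℝ) ≤ ((-2 * vx a + 7 * vy a + 13 : ℤ) : ℝ) := by exact_mod_cast this
      push_cast at h2; linarith)
    linarith
  · have := expand (-5) (-2) 13 (fun a => by
      have := (inBig_vertex a).2.2
      have h2 : (0 : ℝ) ≤ ((-5 * vx a - 2 * vy a + 13 : ℤ) : ℝ) := by exact_mod_cast this
      push_cast at h2; linarith)
    linarith

/-- Membership in the space from explicit barycentric coordinates. -/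
lemma mem_space_of_weights (p : E2) (j : Fin 7) (w : Fin 6 → ℝ) (h0 : ∀ a, 0 ≤ w a)
    (hs : ∀ a, a ∉ tri j → w a = 0) (h1 : ∑ a, w a = 1)
    (hx : ∑ a, w a * (vx a : ℝ) = p 0) (hy : ∑ a, w a * (vy a : ℝ) = p 1) : p ∈ K.space := by
  rw [Geometry.SimplicialComplex.mem_space_iff]
  refine ⟨(tri j).image V, (image_mem_faces _).mpr ⟨j, le_refl _, tri_nonempty j⟩, ?_⟩
  rw [mem_conv]
  refine ⟨w, h0, hs, h1, ?_⟩
  ext i
  fin_cases i
  · simpa [V_zero] using hx
  · simpa [V_one] using hy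

lemma in_tri0 (p : E2) (h1 : 0 ≤ (-1) * p 0 + 2 * p 1 + 1) (h2 : 0 ≤ (-1) * p 0 + (-1) * p 1 + 1)
    (h3 : 0 ≤ 2 * p 0 + (-1) * p 1 + 1) : p ∈ K.space := by
  apply mem_space_of_weights p 0 ![0,
    0,
    0,
    ((-1) * p 0 + (-1) * p 1 + 1) / 3,
    (2 * p 0 + (-1) * p 1 + 1) / 3,
    ((-1) * p 0 + 2 * p 1 + 1) / 3]
  · intro a
    fin_cases a <;> simp <;> linarith
  · intro a
    fin_cases a <;> simp [tri]
  · simp [Fin.sum_univ_six]; ring
  · simp [Fin.sum_univ_six, vx]; ring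
  · simp [Fin.sum_univ_six, vy]; ring

lemma in_tri1 (p : E2) (h1 : 0 ≤ 7 * p 0 + (-5) * p 1 + 13) (h2 : 0 ≤ (-2) * p 0 + 3 * p 1 + 1)
    (h3 : 0 ≤ (-5) * p 0 + 2 * p 1 + (-3)) : p ∈ K.space := by
  apply mem_space_of_weights p 1 ![((-2) * p 0 + 3 * p 1 + 1) / 11,
    ((-5) * p 0 + 2 * p 1 + (-3)) / 11,
    0,
    (7 * p 0 + (-5) * p 1 + 13) / 11,
    0,
    0]
  · intro a
    fin_cases a <;> simp <;> linarith
  · intro a
    fin_cases a <;> simp [tri]
  · simp [Fin.sum_univ_six]; ring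
  · simp [Fin.sum_univ_six, vx]; ring
  · simp [Fin.sum_univ_six, vy]; ring

lemma in_tri2 (p : E2) (h1 : 0 ≤ (-2) * p 0 + 7 * p 1 + 13) (h2 : 0 ≤ (-1) * p 0 + (-2) * p 1 + 1)
    (h3 : 0 ≤ 3 * p 0 + (-5) * p 1 + (-3)) : p ∈ K.space := by
  apply mem_space_of_weights p 2 ![0,
    ((-1) * p 0 + (-2) * p 1 + 1) / 11,
    (3 * p 0 + (-5) * p 1 + (-3)) / 11,
    0,
    ((-2) * p 0 + 7 * p 1 + 13) / 11,
    0]
  · intro a
    fin_cases a <;> simp <;> linarith
  · intro a
    fin_cases a <;> simp [tri]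
  · simp [Fin.sum_univ_six]; ring
  · simp [Fin.sum_univ_six, vx]; ring
  · simp [Fin.sum_univ_six, vy]; ring

lemma in_tri3 (p : E2) (h1 : 0 ≤ (-5) * p 0 + (-2) * p 1 + 13) (h2 : 0 ≤ 3 * p 0 + (-1) * p 1 + 1)
    (h3 : 0 ≤ 2 * p 0 + 3 * p 1 + (-3)) : p ∈ K.space := by
  apply mem_space_of_weights p 3 ![(2 * p 0 + 3 * p 1 + (-3)) / 11,
    0,
    (3 * p 0 + (-1) * p 1 + 1) / 11,
    0,
    0,
    ((-5) * p 0 + (-2) * p 1 + 13) / 11]
  · intro a
    fin_cases a <;> simp <;> linarith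
  · intro a
    fin_cases a <;> simp [tri]
  · simp [Fin.sum_univ_six]; ring
  · simp [Fin.sum_univ_six, vx]; ring
  · simp [Fin.sum_univ_six, vy]; ring

lemma in_tri4 (p : E2) (h1 : 0 ≤ (-3) * p 0 + 5 * p 1 + 3) (h2 : 0 ≤ 1 * p 0 + (-2) * p 1 + (-1))
    (h3 : 0 ≤ 2 * p 0 + (-3) * p 1 + (-1)) : p ∈ K.space := by
  apply mem_space_of_weights p 4 ![0,
    (1 * p 0 + (-2) * p 1 + (-1)) / 1,
    0,
    ((-3) * p 0 + 5 * p 1 + 3) / 1,
    (2 * p 0 + (-3) * p 1 + (-1)) / 1,
    0]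
  · intro a
    fin_cases a <;> simp <;> linarith
  · intro a
    fin_cases a <;> simp [tri]
  · simp [Fin.sum_univ_six]; ring
  · simp [Fin.sum_univ_six, vx]; ring
  · simp [Fin.sum_univ_six, vy]; ring

lemma in_tri5 (p : E2) (h1 : 0 ≤ (-2) * p 0 + (-3) * p 1 + 3) (h2 : 0 ≤ 1 * p 0 + 1 * p 1 + (-1))
    (h3 : 0 ≤ 1 * p 0 + 2 * p 1 + (-1)) : p ∈ K.space := by
  apply mem_space_of_weights p 5 ![0,
    0,
    (1 * p 0 + 1 * p 1 + (-1)) / 1,
    0,
    ((-2) * p 0 + (-3) * p 1 + 3) / 1,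
    (1 * p 0 + 2 * p 1 + (-1)) / 1]
  · intro a
    fin_cases a <;> simp <;> linarith
  · intro a
    fin_cases a <;> simp [tri]
  · simp [Fin.sum_univ_six]; ring
  · simp [Fin.sum_univ_six, vx]; ring
  · simp [Fin.sum_univ_six, vy]; ring

lemma in_tri6 (p : E2) (h1 : 0 ≤ 5 * p 0 + (-2) * p 1 + 3) (h2 : 0 ≤ (-2) * p 0 + 1 * p 1 + (-1))
    (h3 : 0 ≤ (-3) * p 0 + 1 * p 1 + (-1)) : p ∈ K.space := by
  apply mem_space_of_weights p 6 ![((-2) * p 0 + 1 * p 1 + (-1)) / 1,
    0,
    0,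
    ((-3) * p 0 + 1 * p 1 + (-1)) / 1,
    0,
    (5 * p 0 + (-2) * p 1 + 3) / 1]
  · intro a
    fin_cases a <;> simp <;> linarith
  · intro a
    fin_cases a <;> simp [tri]
  · simp [Fin.sum_univ_six]; ring
  · simp [Fin.sum_univ_six, vx]; ring
  · simp [Fin.sum_univ_six, vy]; ring

lemma space_sup (p : E2) (hp : inBig p) : p ∈ K.space := by
  obtain ⟨g1, g2, g3⟩ := hp
  rcases le_total 0 (5 * p 0 + (-2) * p 1 + 3) with h | h
  · rcases le_total 0 ((-1) * p 0 + (-1) * p 1 + 1) with h | h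
    · rcases le_total 0 ((-1) * p 0 + 2 * p 1 + 1) with h | h
      · rcases le_total 0 (2 * p 0 + (-1) * p 1 + 1) with h | h
        · exact in_tri0 p (by linarith) (by linarith) (by linarith)
        · exact in_tri6 p (by linarith) (by linarith) (by linarith)
      · rcases le_total 0 ((-3) * p 0 + 5 * p 1 + 3) with h | h
        · exact in_tri4 p (by linarith) (by linarith) (by linarith)
        · exact in_tri2 p (by linarith) (by linarith) (by linarith)
    · rcases le_total 0 ((-2) * p 0 + (-3) * p 1 + 3) with h | h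
      · rcases le_total 0 (1 * p 0 + 2 * p 1 + (-1)) with h | h
        · exact in_tri5 p (by linarith) (by linarith) (by linarith)
        · exact in_tri2 p (by linarith) (by linarith) (by linarith)
      · rcases le_total 0 ((-3) * p 0 + 1 * p 1 + (-1)) with h | h
        · exact in_tri6 p (by linarith) (by linarith) (by linarith)
        · exact in_tri3 p (by linarith) (by linarith) (by linarith)
  · rcases le_total 0 (2 * p 0 + (-3) * p 1 + (-1)) with h | h
    · rcases le_total 0 ((-3) * p 0 + 5 * p 1 + 3) with h | h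
      · exact in_tri4 p (by linarith) (by linarith) (by linarith)
      · exact in_tri2 p (by linarith) (by linarith) (by linarith)
    · exact in_tri1 p (by linarith) (by linarith) (by linarith)


lemma K_space : K.space = {p | inBig p} :=
  Set.Subset.antisymm (fun p hp => space_sub p hp) (fun p hp => space_sup p hp)

lemma K_convex : Convex ℝ K.space := by
  rw [K_space]
  intro p hp q hq a b ha hb hab
  obtain ⟨p1, p2, p3⟩ := hp
  obtain ⟨q1, q2, q3⟩ := hq
  have e0 : (a • p + b • q) 0 = a * p 0 + b * q 0 := by simp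
  have e1 : (a • p + b • q) 1 = a * p 1 + b * q 1 := by simp
  have hb' : b = 1 - a := by linarith
  refine ⟨?_, ?_, ?_⟩
  · rw [e0, e1]
    have h1 := mul_nonneg ha p1
    have h2 := mul_nonneg hb q1
    have h3 : 7 * (a * p 0 + b * q 0) - 5 * (a * p 1 + b * q 1) + 13 =
      a * (7 * p 0 - 5 * p 1 + 13) + b * (7 * q 0 - 5 * q 1 + 13) := by rw [hb']; ring
    rw [h3]; linarith
  · rw [e0, e1]
    have h1 := mul_nonneg ha p2
    have h2 := mul_nonneg hb q2
    have h3 : -2 * (a * p 0 + b * q 0) + 7 * (a * p 1 + b * q 1) + 13 =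
      a * (-2 * p 0 + 7 * p 1 + 13) + b * (-2 * q 0 + 7 * q 1 + 13) := by rw [hb']; ring
    rw [h3]; linarith
  · rw [e0, e1]
    have h1 := mul_nonneg ha p3
    have h2 := mul_nonneg hb q3
    have h3 : -5 * (a * p 0 + b * q 0) - 2 * (a * p 1 + b * q 1) + 13 =
      a * (-5 * p 0 - 2 * p 1 + 13) + b * (-5 * q 0 - 2 * q 1 + 13) := by rw [hb']; ring
    rw [h3]; linarith

lemma zero_mem : (0 : E2) ∈ K.space := by
  rw [K_space]
  refine ⟨?_, ?_, ?_⟩ <;> simp

/-- For each face with at most two vertices, an affine function vanishing on it but not at `0`. -/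
def cert : Finset (Fin 6) → ℤ × ℤ × ℤ := fun t =>
  if t ⊆ {0, 3} then (5, -2, 3) else
  if t ⊆ {3, 1} then (2, -3, -1) else
  if t ⊆ {1, 4} then (-3, 5, 3) else
  if t ⊆ {4, 2} then (1, 2, -1) else
  if t ⊆ {2, 5} then (-2, -3, 3) else
  if t ⊆ {5, 0} then (-3, 1, -1) else
  if t ⊆ {3, 4} then (-1, 2, 1) else
  if t ⊆ {4, 5} then (-1, -1, 1) else
  if t ⊆ {5, 3} then (2, -1, 1) else
  if t ⊆ {0, 1} then (7, -5, 13) else
  if t ⊆ {1, 2} then (-2, 7, 13) else (-5, -2, 13)

lemma cert_spec : ∀ j : Fin 7, ∀ t ∈ (tri j).powerset, t.card ≤ 2 →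
    (cert t).2.2 ≠ 0 ∧ ∀ a ∈ t, (cert t).1 * vx a + (cert t).2.1 * vy a + (cert t).2.2 = 0 := by
  decide

lemma generic : ∀ S ∈ K.faces, S.card ≤ 2 → (0 : E2) ∉ affineSpan ℝ (S : Set E2) := by
  rintro S ⟨j, t, ht, hn, rfl⟩ hc h0
  rw [Finset.card_image_of_injective _ V_inj] at hc
  obtain ⟨h1, h2⟩ := cert_spec j t (Finset.mem_powerset.mpr ht) hc
  have key : ∀ p ∈ affineSpan ℝ ((t.image V : Finset E2) : Set E2),
      ((cert t).1 : ℝ) * p 0 + ((cert t).2.1 : ℝ) * p 1 + ((cert t).2.2 : ℝ) = 0 := by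
    intro p hp
    refine affineSpan_induction (k := ℝ) (p := fun q : E2 =>
      ((cert t).1 : ℝ) * q 0 + ((cert t).2.1 : ℝ) * q 1 + ((cert t).2.2 : ℝ) = 0) hp ?_ ?_
    · intro q hq
      obtain ⟨a, ha, rfl⟩ := Finset.mem_image.mp (by exact_mod_cast hq)
      have := h2 a ha
      rw [V_zero, V_one]
      exact_mod_cast this
    · intro c u v w hu hv hw
      simp only [vsub_eq_sub, vadd_eq_add, PiLp.add_apply, PiLp.smul_apply, PiLp.sub_apply,
        smul_eq_mul]
      linear_combination c * hu - c * hv + hw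
  have := key 0 h0
  simp at this
  exact h1 this

/-- Barycentric coordinates of `0` in three of the triangles. -/
def bc : Fin 7 → Fin 6 → ℤ :=
  ![![0, 0, 0, 1, 1, 1], ![0, 0, 0, 0, 0, 0], ![0, 0, 0, 0, 0, 0], ![0, 0, 0, 0, 0, 0],
    ![0, -1, 0, 3, -1, 0], ![0, 0, -1, 0, 3, -1], ![-1, 0, 0, -1, 0, 3]]

lemma bc_spec : ∀ j : Fin 7, 4 ≤ j → (∀ a, a ∉ tri j → bc j a = 0) ∧ ∑ a, bc j a = 1 ∧
    ∑ a, bc j a * vx a = 0 ∧ ∑ a, bc j a * vy a = 0 := by
  decide

lemma visible_iff (j : Fin 7) (hj : 4 ≤ j) (b : Fin 6) (hb : b ∈ tri j) :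
    (∃ μ : E2 → ℝ, ∑ w ∈ (tri j).image V, μ w = 1 ∧ ∑ w ∈ (tri j).image V, μ w • w = 0 ∧
      μ (V b) < 0) ↔ bc j b < 0 := by
  obtain ⟨s0, s1, sx, sy⟩ := bc_spec j hj
  have s1' : ∑ a, (bc j a : ℝ) = 1 := by exact_mod_cast s1
  have sx' : ∑ a, (bc j a : ℝ) * (vx a : ℝ) = 0 := by exact_mod_cast sx
  have sy' : ∑ a, (bc j a : ℝ) * (vy a : ℝ) = 0 := by exact_mod_cast sy
  constructor
  · rintro ⟨μ, m1, m2, m3⟩
    rw [Finset.sum_image (fun a _ b _ h => V_inj h)] at m1 m2
    let u : Fin 6 → ℝ := fun a => if a ∈ tri j then μ (V a) - bc j a else 0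
    have hsum : ∀ (f : Fin 6 → ℝ), ∑ a, u a * f a =
        ∑ a ∈ tri j, μ (V a) * f a - ∑ a, (bc j a : ℝ) * f a := by
      intro f
      have h1 : ∑ a, (bc j a : ℝ) * f a = ∑ a ∈ tri j, (bc j a : ℝ) * f a := by
        symm
        apply Finset.sum_subset (Finset.subset_univ _)
        intro a _ ha
        rw [s0 a ha]; simp
      rw [h1, ← Finset.sum_sub_distrib]
      rw [← Finset.sum_subset (Finset.subset_univ (tri j)) (by
        intro a _ ha; simp [u, ha])]
      apply Finset.sum_congr rfl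
      intro a ha
      simp only [u, ha, if_true]
      ring
    have hu : u = 0 := by
      apply indep_tri j
      · intro a ha; simp [u, ha]
      · have := hsum (fun _ => 1)
        simp only [mul_one] at this
        rw [this, m1, s1', sub_self]
      · rw [hsum, sx', sub_zero]
        have := congrArg (fun q : E2 => q 0) m2
        simpa [V_zero] using this
      · rw [hsum, sy', sub_zero]
        have := congrArg (fun q : E2 => q 1) m2
        simpa [V_one] using this
    have h2 := congrFun hu b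
    simp only [u, hb, if_true, Pi.zero_apply] at h2
    have h3 : (bc j b : ℝ) < 0 := by linarith
    exact_mod_cast h3
  · intro hneg
    refine ⟨fun w => (bc j (Function.invFun V w) : ℝ), ?_, ?_, ?_⟩
    · rw [Finset.sum_image (fun a _ b _ h => V_inj h)]
      simp only [Function.leftInverse_invFun V_inj _]
      rw [← s1']
      apply Finset.sum_subset (Finset.subset_univ _)
      intro a _ ha
      rw [s0 a ha]; simp
    · rw [Finset.sum_image (fun a _ b _ h => V_inj h)]
      simp only [Function.leftInverse_invFun V_inj _]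
      have h1 : ∑ a ∈ tri j, (bc j a : ℝ) • V a = ∑ a, (bc j a : ℝ) • V a := by
        apply Finset.sum_subset (Finset.subset_univ _)
        intro a _ ha
        rw [s0 a ha]; simp
      rw [h1]
      ext i
      fin_cases i
      · simpa [V_zero] using sx'
      · simpa [V_one] using sy'
    · simp only [Function.leftInverse_invFun V_inj _]
      exact_mod_cast hneg

/-- The polynomial ring. -/
abbrev P := MvPolynomial E2 ℚ

/-- The variable of a vertex. -/
noncomputable def Y (a : Fin 6) : P := MvPolynomial.X (V a)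

/-- The linear system of parameters. -/
noncomputable def θ : Fin (2 + 1) → P :=
  ![Y 3 + Y 0 + Y 2, Y 4 + Y 1 + Y 0, Y 5 + Y 2 + Y 1]

lemma θ_hom : ∀ i, (θ i).IsHomogeneous 1 := by
  have h : ∀ a, (Y a).IsHomogeneous 1 := fun a => MvPolynomial.isHomogeneous_X _ _
  intro i
  fin_cases i
  · exact ((h 3).add (h 0)).add (h 2)
  · exact ((h 4).add (h 1)).add (h 0)
  · exact ((h 5).add (h 2)).add (h 1)

/-- The defining ideal. -/
noncomputable def J : Ideal P :=
  Ideal.span {p | ∃ S : Finset E2, S.Nonempty ∧ S ∉ K.faces ∧ p = ∏ v ∈ S, MvPolynomial.X v}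
    ⊔ Ideal.span (Set.range θ)

/-- Image of a vertex variable in the quotient. -/
noncomputable def y (a : Fin 6) : P ⧸ J := Ideal.Quotient.mk J (Y a)

lemma theta_zero (i : Fin (2 + 1)) : Ideal.Quotient.mk J (θ i) = 0 := by
  rw [Ideal.Quotient.eq_zero_iff_mem]
  exact Ideal.mem_sup_right (Ideal.subset_span ⟨i, rfl⟩)

lemma nonface_zero (S : Finset E2) (hn : S.Nonempty) (hS : S ∉ K.faces) :
    Ideal.Quotient.mk J (∏ v ∈ S, MvPolynomial.X v) = 0 := by
  rw [Ideal.Quotient.eq_zero_iff_mem]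
  exact Ideal.mem_sup_left (Ideal.subset_span ⟨S, hn, hS, rfl⟩)

lemma nonface_zero' (t : Finset (Fin 6)) (hn : t.Nonempty) (ht : ∀ j, ¬ t ⊆ tri j) :
    ∏ a ∈ t, y a = 0 := by
  have h := nonface_zero (t.image V) (by simpa using hn) (by
    rw [image_mem_faces]
    rintro ⟨j, hj, _⟩
    exact ht j hj)
  rw [Finset.prod_image (fun a _ b _ h => V_inj h), map_prod] at h
  exact h

lemma r1 : y 3 + y 0 + y 2 = 0 := by
  have := theta_zero 0
  simpa [θ, y] using this
lemma r2 : y 4 + y 1 + y 0 = 0 := by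
  have := theta_zero 1
  simpa [θ, y] using this
lemma r3 : y 5 + y 2 + y 1 = 0 := by
  have := theta_zero 2
  simpa [θ, y] using this
lemma n1 : y 0 * y 4 = 0 := by
  have := nonface_zero' {0, 4} (by decide) (by decide)
  rwa [Finset.prod_pair (by decide)] at this
lemma n2 : y 1 * y 5 = 0 := by
  have := nonface_zero' {1, 5} (by decide) (by decide)
  rwa [Finset.prod_pair (by decide)] at this
lemma n3 : y 2 * y 3 = 0 := by
  have := nonface_zero' {2, 3} (by decide) (by decide)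
  rwa [Finset.prod_pair (by decide)] at this
lemma n4 : y 0 * (y 1 * y 2) = 0 := by
  have := nonface_zero' {0, 1, 2} (by decide) (by decide)
  rwa [Finset.prod_insert (by decide), Finset.prod_pair (by decide)] at this

lemma dep : y 1 * y 4 + y 2 * y 5 + y 0 * y 3 = 0 := by
  linear_combination y 0 * r1 + y 1 * r2 + y 2 * r3 - (y 0 * r2 - n1) - (y 1 * r3 - n2) -
    (y 2 * r1 - n3)

lemma c0 : y 0 ^ 3 = 0 := by
  have h0 : y 0 * y 0 + y 0 * y 1 = 0 := by linear_combination y 0 * r2 - n1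
  have h1 : y 1 * y 1 + y 1 * y 2 = 0 := by linear_combination y 1 * r3 - n2
  linear_combination (y 0 - y 1) * h0 + y 0 * h1 - n4

lemma c1 : y 1 ^ 3 = 0 := by
  have h1 : y 1 * y 1 + y 1 * y 2 = 0 := by linear_combination y 1 * r3 - n2
  have h2 : y 2 * y 2 + y 2 * y 0 = 0 := by linear_combination y 2 * r1 - n3
  linear_combination (y 1 - y 2) * h1 + y 1 * h2 - n4

lemma c2 : y 2 ^ 3 = 0 := by
  have h2 : y 2 * y 2 + y 2 * y 0 = 0 := by linear_combination y 2 * r1 - n3
  have h0 : y 0 * y 0 + y 0 * y 1 = 0 := by linear_combination y 0 * r2 - n1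
  linear_combination (y 2 - y 0) * h2 + y 2 * h0 - n4

lemma int_of_cube (z : P ⧸ J) (h : z ^ 3 = 0) : IsIntegral ℚ z := by
  refine ⟨Polynomial.X ^ 3, Polynomial.monic_X_pow 3, ?_⟩
  simp [h]

lemma int_y (a : Fin 6) : IsIntegral ℚ (y a) := by
  have i0 := int_of_cube _ c0
  have i1 := int_of_cube _ c1
  have i2 := int_of_cube _ c2
  fin_cases a
  · exact i0
  · exact i1
  · exact i2
  · have : y 3 = -(y 0 + y 2) := by linear_combination r1
    show IsIntegral ℚ (y 3)
    rw [this]; exact (i0.add i2).neg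
  · have : y 4 = -(y 1 + y 0) := by linear_combination r2
    show IsIntegral ℚ (y 4)
    rw [this]; exact (i1.add i0).neg
  · have : y 5 = -(y 2 + y 1) := by linear_combination r3
    show IsIntegral ℚ (y 5)
    rw [this]; exact (i2.add i1).neg

lemma X_cases (v : E2) : (∃ a, Ideal.Quotient.mk J (MvPolynomial.X v) = y a) ∨
    Ideal.Quotient.mk J (MvPolynomial.X v : P) = 0 := by
  by_cases h : ∃ a, V a = v
  · obtain ⟨a, rfl⟩ := h
    exact Or.inl ⟨a, rfl⟩
  · right
    have := nonface_zero {v} (by simp) (by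
      rintro ⟨j, t, ht, hn, he⟩
      obtain ⟨a, ha⟩ := hn
      have : V a ∈ ({v} : Finset E2) := by rw [he]; exact Finset.mem_image_of_mem V ha
      exact h ⟨a, by simpa using this⟩)
    simpa using this

lemma fin_quot : Module.Finite ℚ (P ⧸ J) := by
  have hadj : Algebra.adjoin ℚ (Set.range (fun v : E2 =>
      (Ideal.Quotient.mkₐ ℚ J) (MvPolynomial.X v))) = ⊤ := by
    rw [Set.range_comp' (Ideal.Quotient.mkₐ ℚ J) MvPolynomial.X, ← AlgHom.map_adjoin,
      MvPolynomial.adjoin_range_X, Algebra.map_top, AlgHom.range_eq_top]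
    exact Ideal.Quotient.mkₐ_surjective ℚ J
  have hfin : (Set.range (fun v : E2 =>
      (Ideal.Quotient.mkₐ ℚ J) (MvPolynomial.X v))).Finite := by
    apply Set.Finite.subset ((Set.finite_range y).union (Set.finite_singleton 0))
    rintro _ ⟨v, rfl⟩
    rcases X_cases v with ⟨a, ha⟩ | h
    · left; exact ⟨a, ha.symm⟩
    · right; exact h
  have hint : ∀ x ∈ (Set.range (fun v : E2 =>
      (Ideal.Quotient.mkₐ ℚ J) (MvPolynomial.X v))), IsIntegral ℚ x := by
    rintro _ ⟨v, rfl⟩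
    rcases X_cases v with ⟨a, ha⟩ | h
    · have := int_y a
      rw [← ha] at this
      exact this
    · have : IsIntegral ℚ (0 : P ⧸ J) := isIntegral_zero
      rw [← h] at this
      exact this
  have := fg_adjoin_of_finite hfin hint
  rw [hadj, Algebra.top_toSubmodule] at this
  exact ⟨this⟩

lemma filter_eq (j : Fin 7) (hj : 4 ≤ j) (a b : Fin 6) (hab : a ≠ b)
    (h : (tri j).filter (fun c => bc j c < 0) = {a, b}) :
    Ideal.Quotient.mk J (∏ v ∈ ((tri j).image V).filter (fun v => ∃ μ : E2 → ℝ,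
      ∑ w ∈ (tri j).image V, μ w = 1 ∧ ∑ w ∈ (tri j).image V, μ w • w = 0 ∧ μ v < 0),
      MvPolynomial.X v) = y a * y b := by
  have h1 : ((tri j).image V).filter (fun v => ∃ μ : E2 → ℝ,
      ∑ w ∈ (tri j).image V, μ w = 1 ∧ ∑ w ∈ (tri j).image V, μ w • w = 0 ∧ μ v < 0) =
      ({a, b} : Finset (Fin 6)).image V := by
    rw [← h]
    ext v
    simp only [Finset.mem_filter, Finset.mem_image]
    constructor
    · rintro ⟨⟨c, hc, rfl⟩, hv⟩
      exact ⟨c, ⟨hc, (visible_iff j hj c hc).mp hv⟩, rfl⟩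
    · rintro ⟨c, ⟨hc, hv⟩, rfl⟩
      exact ⟨⟨c, hc, rfl⟩, (visible_iff j hj c hc).mpr hv⟩
  rw [h1, Finset.prod_image (fun a _ b _ h => V_inj h), Finset.prod_pair hab, map_mul]
  rfl

/-- The negation of the preceding statement: For a finite triangulation of a full-dimensional convex body in ℝⁿ, generic point x in it, any field k and l.s.o.p. θ of its face ring, the monomials of the vertex sets G_F (vertices whose opposite wall of F is visible from x) form a k-basis of the face ring mod θ. -/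
theorem result :
    ¬ (∀ (n : ℕ) (K : Geometry.SimplicialComplex ℝ (EuclideanSpace ℝ (Fin n))),
    K.faces.Finite → Convex ℝ K.space → (∀ F ∈ K.facets, F.card = n + 1) →
    ∀ x ∈ K.space,
      (∀ S ∈ K.faces, S.card ≤ n →
        x ∉ affineSpan ℝ (S : Set (EuclideanSpace ℝ (Fin n)))) →
    ∀ (k : Type) [Field k]
      (θ : Fin (n + 1) → MvPolynomial (EuclideanSpace ℝ (Fin n)) k)
      (J : Ideal (MvPolynomial (EuclideanSpace ℝ (Fin n)) k)),
      (∀ i, (θ i).IsHomogeneous 1) →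
      J = Ideal.span {p | ∃ S : Finset (EuclideanSpace ℝ (Fin n)),
              S.Nonempty ∧ S ∉ K.faces ∧ p = ∏ v ∈ S, MvPolynomial.X v}
          ⊔ Ideal.span (Set.range θ) →
      Module.Finite k (MvPolynomial (EuclideanSpace ℝ (Fin n)) k ⧸ J) →
      ∃ f : K.facets → (MvPolynomial (EuclideanSpace ℝ (Fin n)) k ⧸ J),
        (∀ F : K.facets, f F = Ideal.Quotient.mk J
          (∏ v ∈ F.1.filter (fun v => ∃ μ : EuclideanSpace ℝ (Fin n) → ℝ,
              ∑ w ∈ F.1, μ w = 1 ∧ ∑ w ∈ F.1, μ w • w = x ∧ μ v < 0),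
            MvPolynomial.X v)) ∧
        LinearIndependent k f ∧ Submodule.span k (Set.range f) = ⊤) := by
  intro H
  obtain ⟨f, hf, hli, _⟩ := H 2 K K_finite K_convex K_facets_card 0 zero_mem generic ℚ θ J
    θ_hom rfl fin_quot
  let F : Fin 7 → K.facets := fun j => ⟨(tri j).image V, tri_facet j⟩
  have hne : ∀ i j : Fin 7, i ≠ j → F i ≠ F j := by
    intro i j hij h
    have h1 : (tri i).image V = (tri j).image V := congrArg Subtype.val h
    have h2 := Finset.image_injective V_inj h1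
    exact hij (tri_max i j (h2 ▸ Finset.Subset.refl _))
  have f4 : f (F 4) = y 1 * y 4 := by
    rw [hf]; exact filter_eq 4 (by decide) 1 4 (by decide) (by decide)
  have f5 : f (F 5) = y 2 * y 5 := by
    rw [hf]; exact filter_eq 5 (by decide) 2 5 (by decide) (by decide)
  have f6 : f (F 6) = y 0 * y 3 := by
    rw [hf]; exact filter_eq 6 (by decide) 0 3 (by decide) (by decide)
  rw [linearIndependent_iff'] at hli
  have h := hli {F 4, F 5, F 6} (fun _ => 1) (by
    rw [Finset.sum_insert (by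
      simp only [Finset.mem_insert, Finset.mem_singleton, not_or]
      exact ⟨hne _ _ (by decide), hne _ _ (by decide)⟩), Finset.sum_pair (hne _ _ (by decide))]
    rw [f4, f5, f6]
    simp only [one_smul]
    linear_combination dep) (F 4) (by simp)
  exact one_ne_zero h

end Pool.Agent.S04544
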