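import Pool.Statements.S04578

set_option autoImplicit false
open Pool Pool.MP_044cb4_co

namespace Pool.Agent.S04578

/-- integer coordinates (scaled by 360) of the vertices -/
def V : Fin 9 → Fin 4 → Fin 3 → ℤ :=
  ![![![60, 270, 120], ![240, 0, 480], ![-120, 0, -240], ![-480, 540, 120]],
    ![![180, 360, -180], ![1080, 360, -180], ![680, 160, -280], ![630, 135, -180]],
    ![![-1320, 960, 120], ![-720, 720, 0], ![-1080, 720, 0], ![-1080, 840, 120]],
    ![![-1440, -2160, -2880], ![1080, 360, 2160], ![-600, -480, -1200], ![1080, 360, -360]],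
    ![![900, 180, -540], ![1080, 360, -1080], ![1080, 360, -360], ![792, 216, -504]],
    ![![-720, 720, 0], ![680, 160, -280], ![1800, 720, 0], ![792, 216, -504]],
    ![![-1080, -1440, -2160], ![-360, -360, -720], ![-600, -480, -1200], ![-1080, -720, -1440]],
    ![![60, 270, 120], ![270, -45, 540], ![-360, -360, -720], ![480, 60, 120]],
    ![![-1080, 840, 120], ![480, 60, 120], ![792, 216, -504], ![-1080, -720, -1440]]]
/-- normals of the planes -/
def A : Fin 9 → Fin 3 → ℤ :=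
  ![![-1, 2, 0], ![0, 1, -1], ![2, 2, -1], ![1, 2, -2], ![1, 2, 1], ![0, 0, 2], ![1, -1, 0], ![2, 0, -1], ![0, -1, 2]]
/-- right hand sides -/
def C : Fin 9 → ℤ := ![-360, 720, 0, 360, 720, -360, 720, 0, -720]

/-- value of the plane form -/
def val (h : Fin 9) (x : Fin 3 → ℤ) : ℤ := A h 0 * x 0 + A h 1 * x 1 + A h 2 * x 2

/-- integer determinant of the edge vectors at the first vertex -/
def dd (p : Fin 4 → Fin 3 → ℤ) : ℤ :=
  (p 1 0 - p 0 0) * ((p 2 1 - p 0 1) * (p 3 2 - p 0 2) - (p 2 2 - p 0 2) * (p 3 1 - p 0 1)) -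
  (p 1 1 - p 0 1) * ((p 2 0 - p 0 0) * (p 3 2 - p 0 2) - (p 2 2 - p 0 2) * (p 3 0 - p 0 0)) +
  (p 1 2 - p 0 2) * ((p 2 0 - p 0 0) * (p 3 1 - p 0 1) - (p 2 1 - p 0 1) * (p 3 0 - p 0 0))

lemma dd_ne : ∀ i, dd (V i) ≠ 0 := by
  decide +kernel

lemma A_ne : ∀ h, ∃ l, A h l ≠ 0 := by
  decide +kernel

lemma sep : ∀ i j : Fin 9, i ≠ j → ∃ (h : Fin 9) (s : Bool),
    (∀ k, (if s then 1 else -1) * val h (V i k) ≤ (if s then 1 else -1) * C h) ∧
    (∀ k, (if s then 1 else -1) * C h ≤ (if s then 1 else -1) * val h (V j k)) ∧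
    (∃ m : Fin 4, ∀ k, k ≠ m → val h (V i k) = C h) ∧
    (∃ m : Fin 4, ∀ k, k ≠ m → val h (V j k) = C h) := by
  decide +kernel

lemma affInd (p : Fin 4 → Fin 3 → ℤ) (hd : dd p ≠ 0) :
    AffineIndependent ℝ (fun (k : Fin 4) (l : Fin 3) => ((p k l : ℤ) : ℝ)) := by
  rw [affineIndependent_iff_of_fintype]
  intro w hw hsum
  rw [Finset.weightedVSub_eq_linear_combination _ hw] at hsum
  have e0 := congrFun hsum 0
  have e1 := congrFun hsum 1
  have e2 := congrFun hsum 2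
  simp only [Finset.sum_apply, Pi.smul_apply, smul_eq_mul, Pi.zero_apply, Fin.sum_univ_four]
    at e0 e1 e2 hw
  have hd' : ((dd p : ℤ) : ℝ) ≠ 0 := by exact_mod_cast hd
  unfold dd at hd'
  push_cast at hd'
  have w1 : w 1 = 0 := by
    apply (mul_eq_zero.mp ?_).resolve_left hd'
    linear_combination
      (((p 2 1 : ℝ) - p 0 1) * ((p 3 2 : ℝ) - p 0 2) - ((p 2 2 : ℝ) - p 0 2) * ((p 3 1 : ℝ) - p 0 1)) * (e0 - p 0 0 * hw)
      - (((p 2 0 : ℝ) - p 0 0) * ((p 3 2 : ℝ) - p 0 2) - ((p 2 2 : ℝ) - p 0 2) * ((p 3 0 : ℝ) - p 0 0)) * (e1 - p 0 1 * hw)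
      + (((p 2 0 : ℝ) - p 0 0) * ((p 3 1 : ℝ) - p 0 1) - ((p 2 1 : ℝ) - p 0 1) * ((p 3 0 : ℝ) - p 0 0)) * (e2 - p 0 2 * hw)
  have w2 : w 2 = 0 := by
    apply (mul_eq_zero.mp ?_).resolve_left hd'
    linear_combination
      (((p 3 1 : ℝ) - p 0 1) * ((p 1 2 : ℝ) - p 0 2) - ((p 3 2 : ℝ) - p 0 2) * ((p 1 1 : ℝ) - p 0 1)) * (e0 - p 0 0 * hw)
      - (((p 3 0 : ℝ) - p 0 0) * ((p 1 2 : ℝ) - p 0 2) - ((p 3 2 : ℝ) - p 0 2) * ((p 1 0 : ℝ) - p 0 0)) * (e1 - p 0 1 * hw)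
      + (((p 3 0 : ℝ) - p 0 0) * ((p 1 1 : ℝ) - p 0 1) - ((p 3 1 : ℝ) - p 0 1) * ((p 1 0 : ℝ) - p 0 0)) * (e2 - p 0 2 * hw)
  have w3 : w 3 = 0 := by
    apply (mul_eq_zero.mp ?_).resolve_left hd'
    linear_combination
      (((p 1 1 : ℝ) - p 0 1) * ((p 2 2 : ℝ) - p 0 2) - ((p 1 2 : ℝ) - p 0 2) * ((p 2 1 : ℝ) - p 0 1)) * (e0 - p 0 0 * hw)
      - (((p 1 0 : ℝ) - p 0 0) * ((p 2 2 : ℝ) - p 0 2) - ((p 1 2 : ℝ) - p 0 2) * ((p 2 0 : ℝ) - p 0 0)) * (e1 - p 0 1 * hw)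
      + (((p 1 0 : ℝ) - p 0 0) * ((p 2 1 : ℝ) - p 0 1) - ((p 1 1 : ℝ) - p 0 1) * ((p 2 0 : ℝ) - p 0 0)) * (e2 - p 0 2 * hw)
  have w0 : w 0 = 0 := by
    rw [w1, w2, w3] at hw
    linarith
  intro i
  fin_cases i
  · exact w0
  · exact w1
  · exact w2
  · exact w3

/-- The negation of the preceding statement: The largest n for which there are n tetrahedra in 3-space is 8, where the condition is that any two are separated by a plane that has one on each closed side and contains a face of each. -/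
theorem result :
    ¬ (IsGreatest {n : ℕ | ∃ v : Fin n → Fin 4 → (Fin 3 → ℝ),
      (∀ i, AffineIndependent ℝ (v i)) ∧
      ∀ i j, i ≠ j → ∃ a : Fin 3 → ℝ, a ≠ 0 ∧ ∃ c : ℝ,
        (∀ k, ∑ l, a l * v i k l ≤ c) ∧
        (∀ k, c ≤ ∑ l, a l * v j k l) ∧
        (∃ m : Fin 4, ∀ k, k ≠ m → ∑ l, a l * v i k l = c) ∧
        (∃ m : Fin 4, ∀ k, k ≠ m → ∑ l, a l * v j k l = c)} 8) := by
  intro h
  have h9 : (9 : ℕ) ≤ 8 := by
    apply h.2
    refine ⟨fun i k l => ((V i k l : ℤ) : ℝ), fun i => affInd (V i) (dd_ne i), ?_⟩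
    intro i j hij
    obtain ⟨g, s, h1, h2, ⟨m1, h3⟩, ⟨m2, h4⟩⟩ := sep i j hij
    have key : ∀ x : Fin 3 → ℤ, ∑ l, ((A g l : ℤ) : ℝ) * ((x l : ℤ) : ℝ) = ((val g x : ℤ) : ℝ) := by
      intro x
      rw [Fin.sum_univ_three]
      simp only [val]
      push_cast
      ring
    have key2 : ∀ x : Fin 3 → ℤ, ∑ l, (-((A g l : ℤ) : ℝ)) * ((x l : ℤ) : ℝ) =
        -((val g x : ℤ) : ℝ) := by
      intro x
      rw [← key x, ← Finset.sum_neg_distrib]
      apply Finset.sum_congr rfl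
      intro l _
      ring
    obtain ⟨l0, hl0⟩ := A_ne g
    cases s
    · refine ⟨fun l => -((A g l : ℤ) : ℝ), ?_, -((C g : ℤ) : ℝ), ?_, ?_, ⟨m1, ?_⟩, ⟨m2, ?_⟩⟩
      · intro h0
        have := congrFun h0 l0
        simp at this
        exact hl0 this
      · intro k
        have := h1 k
        simp at this
        rw [key2, neg_le_neg_iff]
        exact_mod_cast this
      · intro k
        have := h2 k
        simp at this
        rw [key2, neg_le_neg_iff]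
        exact_mod_cast this
      · intro k hk
        rw [key2, h3 k hk]
      · intro k hk
        rw [key2, h4 k hk]
    · refine ⟨fun l => ((A g l : ℤ) : ℝ), ?_, ((C g : ℤ) : ℝ), ?_, ?_, ⟨m1, ?_⟩, ⟨m2, ?_⟩⟩
      · intro h0
        have := congrFun h0 l0
        simp at this
        exact hl0 this
      · intro k
        have := h1 k
        simp at this
        rw [key]
        exact_mod_cast this
      · intro k
        have := h2 k
        simp at this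
        rw [key]
        exact_mod_cast this
      · intro k hk
        rw [key, h3 k hk]
      · intro k hk
        rw [key, h4 k hk]
  omega

end Pool.Agent.S04578
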