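import Pool.Statements.S04583
import Pool.Agent.Helper691.RM.Final

set_option autoImplicit false
open Pool Pool.MP_047b26_co

namespace Pool.Agent.S04583

/-- For every ε>0 there is m₀ such that any graph H with at least m₀ edges has two-colour Ramsey multiplicity constant (limiting minimum fraction of monochromatic copies of H in 2-colourings of K_n) at least 2^(-e(H)^(1+ε)). -/
theorem result :
    ∀ ε : ℝ, 0 < ε → ∃ m₀ : ℕ, ∀ k : ℕ, ∀ H : SimpleGraph (Fin k),
      m₀ ≤ H.edgeSet.ncard →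
      ∀ δ : ℝ, δ < (2 : ℝ) ^ (-((H.edgeSet.ncard : ℝ) ^ (1 + ε))) →
        ∃ N : ℕ, ∀ n : ℕ, N ≤ n → ∀ G : SimpleGraph (Fin n),
          δ * (n.descFactorial k : ℝ) ≤
            (Nat.card {f : Fin k ↪ Fin n //
              (∀ i j, H.Adj i j → G.Adj (f i) (f j)) ∨
              (∀ i j, H.Adj i j → Gᶜ.Adj (f i) (f j))} : ℝ) :=
  Pool.Agent.Helper691.RM.frozen_of_main Pool.Agent.Helper691.RM.hmain

end Pool.Agent.S04583
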