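import Pool.Statements.S04595
-- import your own Pool.Agent.* helpers here

set_option autoImplicit false
open Pool Pool.MP_057dff_co

namespace Pool.Agent.S04595

section helpers
open Finset




section badsec
variable {G : Type} [AddCommGroup G] {ι : Type} [Fintype ι] [DecidableEq ι]

/-- local consequence of full covering -/
theorem lc (u : ι → G)
    (hmin : ∀ J : Finset ι, J.Nonempty → ∑ i ∈ J, u i = 0 → J = univ)
    (hbad : ∀ J : Finset ι, J.Nonempty → J ≠ univ → ∀ x : G,
      (∃ K ⊆ J, ∑ i ∈ K, u i = x) ∨ (∃ K ⊆ Jᶜ, ∑ i ∈ K, u i = -x))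
    (g : ι) (B T1 T2 : Finset ι) (hgB : g ∉ B) 
    (hT1 : T1 ⊆ B) (hT1' : ∃ b ∈ B, b ∉ T1) (hT2 : T2 ⊆ B) (hT2' : T2.Nonempty)
    (hs : ∑ i ∈ T2, u i = ∑ i ∈ T1, u i + 2 • u g) :
    ∃ T3 ⊆ B, ∑ i ∈ T3, u i = ∑ i ∈ T1, u i + u g := by
  have hBne : B.Nonempty := hT2'.mono hT2
  have hBu : B ≠ univ := fun h => hgB (h ▸ mem_univ g)
  rcases hbad B hBne hBu (∑ i ∈ T1, u i + u g) with h | ⟨K, hK, hKs⟩
  · exact h
  · exfalso
    by_cases hgK : g ∈ K
    · have h1 : ∑ i ∈ K.erase g, u i = -(∑ i ∈ T2, u i) := by
        have := Finset.add_sum_erase K u hgK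
        rw [hs]
        have h2 : ∑ i ∈ K.erase g, u i = ∑ i ∈ K, u i - u g := by
          rw [← this]; abel
        rw [h2, hKs]; abel
      have hd : Disjoint (K.erase g) T2 := by
        rw [Finset.disjoint_left]
        intro a ha ha2
        have := hK (Finset.mem_of_mem_erase ha)
        exact (Finset.mem_compl.mp this) (hT2 ha2)
      have h3 : ∑ i ∈ (K.erase g) ∪ T2, u i = 0 := by
        rw [Finset.sum_union hd, h1]; abel
      have h4 := hmin _ (hT2'.mono subset_union_right) h3
      have h5 : g ∈ (K.erase g) ∪ T2 := h4 ▸ mem_univ g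
      rcases Finset.mem_union.mp h5 with h | h
      · exact (Finset.notMem_erase g K) h
      · exact hgB (hT2 h)
    · have hd : Disjoint K (insert g T1) := by
        rw [Finset.disjoint_left]
        intro a ha ha2
        rcases Finset.mem_insert.mp ha2 with h | h
        · exact hgK (h ▸ ha)
        · exact (Finset.mem_compl.mp (hK ha)) (hT1 h)
      have hg1 : g ∉ T1 := fun h => hgB (hT1 h)
      have h3 : ∑ i ∈ K ∪ insert g T1, u i = 0 := by
        rw [Finset.sum_union hd, hKs, Finset.sum_insert hg1]; abel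
      have h4 := hmin _ ⟨g, by simp⟩ h3
      obtain ⟨b, hb, hb1⟩ := hT1'
      have h5 : b ∈ K ∪ insert g T1 := h4 ▸ mem_univ b
      rcases Finset.mem_union.mp h5 with h | h
      · exact (Finset.mem_compl.mp (hK h)) hb
      · rcases Finset.mem_insert.mp h with h | h
        · exact hgB (h ▸ hb)
        · exact hb1 h


theorem f2 (u : ι → G)
    (hmin : ∀ J : Finset ι, J.Nonempty → ∑ i ∈ J, u i = 0 → J = univ)
    (hbad : ∀ J : Finset ι, J.Nonempty → J ≠ univ → ∀ x : G,
      (∃ K ⊆ J, ∑ i ∈ K, u i = x) ∨ (∃ K ⊆ Jᶜ, ∑ i ∈ K, u i = -x))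
    (hcard : 4 ≤ Fintype.card ι) (g : ι) (h2 : 2 • u g = 0) : False := by
  have hsmall : ∀ J : Finset ι, J.card ≤ 3 → J.Nonempty → ∑ i ∈ J, u i ≠ 0 := by
    intro J hJ hne h
    have := hmin J hne h
    rw [this, Finset.card_univ] at hJ
    omega
  have key : ∀ e e' : ι, e ≠ g → e' ≠ g → e ≠ e' → u e' = u e + u g := by
    intro e e' he he' hee
    have hB : g ∉ ({e, e'} : Finset ι) := by simp [he.symm, he'.symm]
    obtain ⟨T3, hT3, hs3⟩ := lc u hmin hbad g {e, e'} {e} {e} hB (by simp) 
      ⟨e', by simp, by simp [hee.symm]⟩ (by simp) (by simp) (by simp [h2])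
    rw [Finset.sum_singleton] at hs3
    by_cases h1 : e ∈ T3
    · by_cases h3 : e' ∈ T3
      · have : T3 = {e, e'} := by
          apply Finset.Subset.antisymm hT3
          intro a ha
          rcases Finset.mem_insert.mp ha with h | h
          · exact h ▸ h1
          · exact (Finset.mem_singleton.mp h) ▸ h3
        rw [this, Finset.sum_pair hee] at hs3
        have h4 : u e' = u g := by
          exact add_left_cancel hs3
        exfalso
        apply hsmall {e', g} (by rw [Finset.card_pair he']; omega) (by simp)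
        rw [Finset.sum_pair he', h4, ← two_nsmul]; exact h2
      · have : T3 = {e} := by
          apply Finset.Subset.antisymm
          · intro a ha
            rcases Finset.mem_insert.mp (hT3 ha) with h | h
            · simp [h]
            · exact absurd ((Finset.mem_singleton.mp h) ▸ ha) h3
          · simpa using h1
        rw [this, Finset.sum_singleton] at hs3
        have h4 : u g = 0 := by
          have := hs3
          rw [left_eq_add] at this
          exact this
        exfalso
        exact hsmall {g} (by simp) (by simp) (by simpa using h4)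
    · by_cases h3 : e' ∈ T3
      · have : T3 = {e'} := by
          apply Finset.Subset.antisymm
          · intro a ha
            rcases Finset.mem_insert.mp (hT3 ha) with h | h
            · exact absurd (h ▸ ha) h1
            · exact h
          · simpa using h3
        rw [this, Finset.sum_singleton] at hs3
        exact hs3
      · have : T3 = ∅ := by
          rw [Finset.eq_empty_iff_forall_notMem]
          intro a ha
          rcases Finset.mem_insert.mp (hT3 ha) with h | h
          · exact h1 (h ▸ ha)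
          · exact h3 ((Finset.mem_singleton.mp h) ▸ ha)
        rw [this, Finset.sum_empty] at hs3
        exfalso
        apply hsmall {e, g} (by rw [Finset.card_pair he]; omega) (by simp)
        rw [Finset.sum_pair he]; exact hs3.symm
  -- three distinct other indices
  have h3 : 3 ≤ (univ.erase g : Finset ι).card := by
    rw [Finset.card_erase_of_mem (mem_univ g), Finset.card_univ]; omega
  obtain ⟨a, ha, b, hb, c, hc, hab, hac, hbc⟩ := Finset.two_lt_card.mp (lt_of_lt_of_le (by norm_num) h3)
  have ha' := Finset.ne_of_mem_erase ha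
  have hb' := Finset.ne_of_mem_erase hb
  have hc' := Finset.ne_of_mem_erase hc
  have e1 := key a b ha' hb' hab
  have e2 := key a c ha' hc' hac
  have e3 := key b c hb' hc' hbc
  have h4 : u g = 0 := by
    rw [e1] at e3
    rw [e2] at e3
    have := left_eq_add.mp e3
    exact this
  exact hsmall {g} (by simp) (by simp) (by simpa using h4)

theorem f3 (u : ι → G)
    (hmin : ∀ J : Finset ι, J.Nonempty → ∑ i ∈ J, u i = 0 → J = univ)
    (hzero : ∑ i, u i = 0)
    (hbad : ∀ J : Finset ι, J.Nonempty → J ≠ univ → ∀ x : G,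
      (∃ K ⊆ J, ∑ i ∈ K, u i = x) ∨ (∃ K ⊆ Jᶜ, ∑ i ∈ K, u i = -x))
    (g : ι) (W : Finset ι) (hgW : g ∉ W) (hW : ∑ i ∈ W, u i = u g) 
    (e e' : ι) (he : e ∈ W) (he' : e' ∈ W) (hee : e ≠ e') : u e ≠ u e' := by
  intro heq
  have heg : e ≠ g := fun h => hgW (h ▸ he)
  have he'g : e' ≠ g := fun h => hgW (h ▸ he')
  set X : Finset ι := (insert g W)ᶜ with hX
  have hXs : ∑ i ∈ X, u i = -(2 • u g) := by
    have h1 := Finset.sum_add_sum_compl (insert g W) u
    rw [hzero, Finset.sum_insert hgW, hW] at h1
    rw [hX]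
    have : ∑ i ∈ (insert g W)ᶜ, u i = -(u g + u g) := by
      exact (neg_eq_of_add_eq_zero_right h1).symm
    rw [this, two_nsmul]
  have heX : e ∉ X := by simp [hX, he]
  have he'X : e' ∉ X := by simp [hX, he']
  have hgX : g ∉ X := by simp [hX]
  obtain ⟨T3, hT3, hs3⟩ := lc u hmin hbad g (insert e' (insert e X)) (insert e X) {e} 
    (by simp [hgX, he'g.symm, heg.symm]) (Finset.subset_insert _ _) 
    ⟨e', by simp, by simp [he'X, hee.symm]⟩ (by simp) (by simp) (by
      rw [Finset.sum_singleton, Finset.sum_insert heX, hXs]; abel)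
  rw [Finset.sum_insert heX, hXs] at hs3
  have hgT : g ∉ T3 := by
    intro h
    have := hT3 h
    simp [hgX, he'g.symm, heg.symm] at this
  by_cases h1 : e ∈ T3
  · have h2 : ∑ i ∈ insert g (T3.erase e), u i = 0 := by
      rw [Finset.sum_insert (by simp [hgT])]
      have := Finset.add_sum_erase T3 u h1
      have h4 : ∑ i ∈ T3.erase e, u i = ∑ i ∈ T3, u i - u e := by rw [← this]; abel
      rw [h4, hs3, two_nsmul]; abel
    have h5 := hmin _ (by simp) h2
    have h6 : e ∈ insert g (T3.erase e) := h5 ▸ mem_univ e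
    simp [heg] at h6
  · by_cases h1' : e' ∈ T3
    · have h2 : ∑ i ∈ insert g (T3.erase e'), u i = 0 := by
        rw [Finset.sum_insert (by simp [hgT])]
        have := Finset.add_sum_erase T3 u h1'
        have h4 : ∑ i ∈ T3.erase e', u i = ∑ i ∈ T3, u i - u e' := by rw [← this]; abel
        rw [h4, hs3, two_nsmul, heq]; abel
      have h5 := hmin _ (by simp) h2
      have h6 : e' ∈ insert g (T3.erase e') := h5 ▸ mem_univ e'
      simp [he'g] at h6
    · have hT3X : T3 ⊆ X := by
        intro a ha
        have := hT3 ha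
        rcases Finset.mem_insert.mp this with h | h
        · exact absurd (h ▸ ha) h1'
        · rcases Finset.mem_insert.mp h with h | h
          · exact absurd (h ▸ ha) h1
          · exact h
      have h2 : ∑ i ∈ insert g (insert e (X \ T3)), u i = 0 := by
        rw [Finset.sum_insert (by simp [hgX, heg.symm]), Finset.sum_insert (by simp [heX]),
          Finset.sum_sdiff_eq_sub hT3X, hs3, hXs, two_nsmul]
        abel
      have h5 := hmin _ (by simp) h2
      have h6 : e' ∈ insert g (insert e (X \ T3)) := h5 ▸ mem_univ e'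
      simp [he'g, hee.symm, he'X] at h6


theorem compl_sum (u : ι → G) (hzero : ∑ i, u i = 0) (K : Finset ι) :
    ∑ i ∈ Kᶜ, u i = -(∑ i ∈ K, u i) := by
  have h1 := Finset.sum_add_sum_compl K u
  rw [hzero] at h1
  exact (neg_eq_of_add_eq_zero_right h1).symm

theorem f5 (u : ι → G)
    (hmin : ∀ J : Finset ι, J.Nonempty → ∑ i ∈ J, u i = 0 → J = univ)
    (hzero : ∑ i, u i = 0)
    (hbad : ∀ J : Finset ι, J.Nonempty → J ≠ univ → ∀ x : G,
      (∃ K ⊆ J, ∑ i ∈ K, u i = x) ∨ (∃ K ⊆ Jᶜ, ∑ i ∈ K, u i = -x))
    (hcard : 4 ≤ Fintype.card ι) (i0 j0 : ι) (hne : u i0 ≠ u j0) :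
    Function.Injective u := by
  classical
  intro h h' hh
  by_contra hne'
  have hsmall : ∀ J : Finset ι, J.card ≤ 3 → J.Nonempty → ∑ i ∈ J, u i ≠ 0 := by
    intro J hJ hne h
    have := hmin J hne h
    rw [this, Finset.card_univ] at hJ
    omega
  have hnz : ∀ i, u i ≠ 0 := by
    intro i hi
    exact hsmall {i} (by simp) (by simp) (by simpa using hi)
  obtain ⟨g, hg⟩ : ∃ g, u g ≠ u h := by
    by_contra hcon
    push Not at hcon
    exact hne ((hcon i0).trans (hcon j0).symm)
  have hgh : g ≠ h := fun e => hg (by rw [e])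
  have hgh' : g ≠ h' := fun e => hg (by rw [e, hh])
  set H : Finset ι := univ.filter (fun i => u i = u h) with hH
  have hhH : h ∈ H := by simp [hH]
  have hh'H : h' ∈ H := by simp [hH, hh]
  have hgH : g ∉ H := by simp [hH, hg]
  rcases hbad H ⟨h, hhH⟩ (fun e => hgH (e ▸ mem_univ g)) (u g) with ⟨K, hK, hKs⟩ | ⟨K, hK, hKs⟩
  · -- u g is a multiple of u h
    have hgK : g ∉ K := fun hm => hgH (hK hm)
    have hKv : ∀ i ∈ K, u i = u h := fun i hi => by
      have := hK hi
      rw [hH, Finset.mem_filter] at this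
      exact this.2
    have hK1 : ¬ (1 < K.card) := by
      intro hc
      obtain ⟨a, ha, b, hb, hab⟩ := Finset.one_lt_card.mp hc
      exact f3 u hmin hzero hbad g K hgK hKs a b ha hb hab ((hKv a ha).trans (hKv b hb).symm)
    have hK2 : K.card ≤ 1 := by omega
    rcases Nat.le_one_iff_eq_zero_or_eq_one.mp hK2 with e | e
    · rw [Finset.card_eq_zero] at e
      rw [e, Finset.sum_empty] at hKs
      exact hnz g hKs.symm
    · obtain ⟨a, ha⟩ := Finset.card_eq_one.mp e
      rw [ha, Finset.sum_singleton] at hKs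
      exact hg (hKs.symm.trans (hKv a (by simp [ha])))
  · have hPs : ∑ i ∈ Kᶜ, u i = u g := by
      rw [compl_sum u hzero, hKs, neg_neg]
    have hhP : h ∈ Kᶜ := by
      rw [Finset.mem_compl]; intro hm
      exact (Finset.mem_compl.mp (hK hm)) hhH
    have hh'P : h' ∈ Kᶜ := by
      rw [Finset.mem_compl]; intro hm
      exact (Finset.mem_compl.mp (hK hm)) hh'H
    have hgP : g ∉ Kᶜ := by
      intro hm
      have h1 := Finset.add_sum_erase _ u hm
      rw [hPs] at h1
      have h2 : ∑ i ∈ Kᶜ.erase g, u i = 0 := add_eq_left.mp h1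
      have h3 := hmin _ ⟨h, by
        rw [Finset.mem_erase]; exact ⟨hgh.symm, hhP⟩⟩ h2
      have h4 : g ∈ Kᶜ.erase g := h3 ▸ mem_univ g
      simp at h4
    exact f3 u hmin hzero hbad g Kᶜ hgP hPs h h' hhP hh'P hne' hh

theorem f4 (u : ι → G)
    (hmin : ∀ J : Finset ι, J.Nonempty → ∑ i ∈ J, u i = 0 → J = univ)
    (hbad : ∀ J : Finset ι, J.Nonempty → J ≠ univ → ∀ x : G,
      (∃ K ⊆ J, ∑ i ∈ K, u i = x) ∨ (∃ K ⊆ Jᶜ, ∑ i ∈ K, u i = -x))
    (g e : ι) (W V : Finset ι) (hgW : g ∉ W) (heW : e ∈ W) (hW : ∑ i ∈ W, u i = u g)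
    (heV : e ∉ V) (hgV : g ∉ V) (hV : ∑ i ∈ V, u i = u e) : Disjoint V W := by
  by_contra hnd
  have hne : (V ∩ W).Nonempty := Finset.not_disjoint_iff_nonempty_inter.mp hnd
  have heg : e ≠ g := fun h => hgW (h ▸ heW)
  set X : Finset ι := (W.erase e) \ V with hX
  set Y : Finset ι := insert g (V \ W) with hY
  have hXs : ∑ i ∈ X, u i = u g - u e - ∑ i ∈ V ∩ W, u i := by
    have h1 : W.erase e = X ∪ (V ∩ W) := by
      ext a; simp only [hX, Finset.mem_erase, Finset.mem_union, Finset.mem_sdiff, Finset.mem_inter]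
      constructor
      · rintro ⟨h1, h2⟩
        by_cases h3 : a ∈ V
        · exact Or.inr ⟨h3, h2⟩
        · exact Or.inl ⟨⟨h1, h2⟩, h3⟩
      · rintro (⟨h1, _⟩ | ⟨h1, h2⟩)
        · exact h1
        · exact ⟨fun h => heV (h ▸ h1), h2⟩
    have hd : Disjoint X (V ∩ W) := by
      rw [Finset.disjoint_left]; intro a ha hb
      simp only [hX, Finset.mem_sdiff] at ha
      exact ha.2 (Finset.mem_inter.mp hb).1
    have h2 := Finset.add_sum_erase W u heW
    rw [h1, Finset.sum_union hd, hW] at h2
    rw [← h2]; abel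
  have hYs : ∑ i ∈ Y, u i = u g + u e - ∑ i ∈ V ∩ W, u i := by
    have hd : Disjoint (V \ W) (V ∩ W) := Finset.disjoint_sdiff_inter V W
    have h1 : ∑ i ∈ V \ W, u i + ∑ i ∈ V ∩ W, u i = u e := by
      rw [← Finset.sum_union hd, Finset.sdiff_union_inter, hV]
    rw [hY, Finset.sum_insert (by simp [hgV]), ← h1]; abel
  have hdXY : Disjoint X Y := by
    rw [Finset.disjoint_left]; intro a ha hb
    simp only [hX, Finset.mem_sdiff, Finset.mem_erase] at ha
    simp only [hY, Finset.mem_insert, Finset.mem_sdiff] at hb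
    rcases hb with h | ⟨h, _⟩
    · exact hgW (h ▸ ha.1.2)
    · exact ha.2 h
  have heX : e ∉ X := by simp [hX]
  have heY : e ∉ Y := by simp [hY, heg, heV]
  have hgX : g ∉ X := by simp [hX, hgW]
  have hgY : g ∈ Y := by simp [hY]
  obtain ⟨T3, hT3, hs3⟩ := lc u hmin hbad e (X ∪ Y) X Y (by simp [heX, heY])
    Finset.subset_union_left ⟨g, by simp [hgY], hgX⟩ Finset.subset_union_right ⟨g, hgY⟩ (by
      rw [hXs, hYs, two_nsmul]; abel)
  have hs3' : ∑ i ∈ T3, u i = u g - ∑ i ∈ V ∩ W, u i := by
    rw [hs3, hXs]; abel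
  -- main contradiction
  have main : ∀ T : Finset ι, T ⊆ X ∪ Y → g ∈ T → ∑ i ∈ T, u i = u g - ∑ i ∈ V ∩ W, u i → False := by
    intro T hT hgT hTs
    have h1 := Finset.add_sum_erase T u hgT
    have hd : Disjoint (T.erase g) (V ∩ W) := by
      rw [Finset.disjoint_left]; intro a ha hb
      have ha1 := Finset.mem_erase.mp ha
      have ha2 := hT ha1.2
      have hb1 := Finset.mem_inter.mp hb
      rcases Finset.mem_union.mp ha2 with h | h
      · simp only [hX, Finset.mem_sdiff] at h
        exact h.2 hb1.1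
      · simp only [hY, Finset.mem_insert, Finset.mem_sdiff] at h
        rcases h with h | h
        · exact ha1.1 h
        · exact h.2 hb1.2
    have h2 : ∑ i ∈ (T.erase g) ∪ (V ∩ W), u i = 0 := by
      rw [Finset.sum_union hd]
      have : ∑ i ∈ T.erase g, u i = ∑ i ∈ T, u i - u g := by rw [← h1]; abel
      rw [this, hTs]; abel
    have h3 := hmin _ (hne.mono Finset.subset_union_right) h2
    have h4 : g ∈ (T.erase g) ∪ (V ∩ W) := h3 ▸ mem_univ g
    simp [hgV] at h4
  by_cases hgT : g ∈ T3
  · exact main T3 hT3 hgT hs3'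
  · refine main ((X ∪ Y) \ T3) Finset.sdiff_subset (by simp [hgY, hgT]) ?_
    rw [Finset.sum_sdiff_eq_sub hT3, Finset.sum_union hdXY, hXs, hYs, hs3']
    abel

theorem bad_main (u : ι → G)
    (hmin : ∀ J : Finset ι, J.Nonempty → ∑ i ∈ J, u i = 0 → J = univ)
    (hzero : ∑ i, u i = 0)
    (hbad : ∀ J : Finset ι, J.Nonempty → J ≠ univ → ∀ x : G,
      (∃ K ⊆ J, ∑ i ∈ K, u i = x) ∨ (∃ K ⊆ Jᶜ, ∑ i ∈ K, u i = -x))
    (hcard : 4 ≤ Fintype.card ι) : ∀ i j, u i = u j := by
  classical
  by_contra hcon
  push Not at hcon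
  obtain ⟨i0, j0, hij⟩ := hcon
  have hinj := f5 u hmin hzero hbad hcard i0 j0 hij
  have hsmall : ∀ J : Finset ι, J.card ≤ 3 → J.Nonempty → ∑ i ∈ J, u i ≠ 0 := by
    intro J hJ hne h
    have := hmin J hne h
    rw [this, Finset.card_univ] at hJ
    omega
  have hnz : ∀ i, u i ≠ 0 := by
    intro i hi
    exact hsmall {i} (by simp) (by simp) (by simpa using hi)
  have hij' : i0 ≠ j0 := fun h => hij (by rw [h])
  set g := i0
  -- the family of W
  set F : Finset (Finset ι) := univ.filter (fun W => g ∉ W ∧ ∑ i ∈ W, u i = u g) with hF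
  have hFne : F.Nonempty := by
    rcases hbad {j0} (by simp) (by
      intro e
      have := congrArg Finset.card e
      rw [Finset.card_singleton, Finset.card_univ] at this; omega) (u g) with ⟨K, hK, hKs⟩ | ⟨K, hK, hKs⟩
    · rcases Finset.subset_singleton_iff.mp hK with e | e
      · rw [e, Finset.sum_empty] at hKs; exact absurd hKs.symm (hnz g)
      · rw [e, Finset.sum_singleton] at hKs; exact absurd hKs.symm hij
    · have hjK : j0 ∉ K := fun hm => by simpa using hK hm
      have hQs : ∑ i ∈ Kᶜ, u i = u g := by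
        rw [compl_sum u hzero, hKs, neg_neg]
      refine ⟨Kᶜ, ?_⟩
      rw [hF, Finset.mem_filter]
      refine ⟨mem_univ _, ?_, hQs⟩
      intro hm
      have h1 := Finset.add_sum_erase _ u hm
      rw [hQs] at h1
      have h2 : ∑ i ∈ Kᶜ.erase g, u i = 0 := add_eq_left.mp h1
      have h3 := hmin _ ⟨j0, by simp [hjK, hij'.symm]⟩ h2
      have h4 : g ∈ Kᶜ.erase g := h3 ▸ mem_univ g
      simp at h4
  obtain ⟨W, hWF, hWmax⟩ := Finset.exists_max_image F Finset.card hFne
  rw [hF, Finset.mem_filter] at hWF
  obtain ⟨-, hgW, hWs⟩ := hWF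
  have hWne : W.Nonempty := by
    rw [Finset.nonempty_iff_ne_empty]
    intro e
    rw [e, Finset.sum_empty] at hWs
    exact hnz g hWs.symm
  obtain ⟨e, heW⟩ := hWne
  have heg : e ≠ g := fun h => hgW (h ▸ heW)
  obtain ⟨V, heV, hgV, hVs⟩ : ∃ V : Finset ι, e ∉ V ∧ g ∉ V ∧ ∑ i ∈ V, u i = u e := by
    have hJne : ({e, g} : Finset ι)ᶜ.Nonempty := by
      rw [← Finset.card_pos, Finset.card_compl, Finset.card_pair heg]; omega
    have hJu : ({e, g} : Finset ι)ᶜ ≠ univ := by
      intro h
      have : e ∈ ({e, g} : Finset ι)ᶜ := h ▸ mem_univ e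
      simp at this
    rcases hbad _ hJne hJu (u e) with ⟨K, hK, hKs⟩ | ⟨K, hK, hKs⟩
    · refine ⟨K, ?_, ?_, hKs⟩
      · intro h; simpa using hK h
      · intro h; simpa using hK h
    · rw [compl_compl] at hK
      by_cases h1 : e ∈ K
      · by_cases h2 : g ∈ K
        · have hKe : K = {e, g} := by
            apply Finset.Subset.antisymm hK
            intro a ha
            rcases Finset.mem_insert.mp ha with h | h
            · exact h ▸ h1
            · exact (Finset.mem_singleton.mp h) ▸ h2
          refine ⟨({e, g} : Finset ι)ᶜ, by simp, by simp, ?_⟩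
          rw [compl_sum u hzero, ← hKe, hKs, neg_neg]
        · have hKe : K = {e} := by
            apply Finset.Subset.antisymm
            · intro a ha
              rcases Finset.mem_insert.mp (hK ha) with h | h
              · simp [h]
              · exact absurd ((Finset.mem_singleton.mp h) ▸ ha) h2
            · simpa using h1
          rw [hKe, Finset.sum_singleton] at hKs
          exfalso
          refine f2 u hmin hbad hcard e ?_
          rw [two_nsmul]; nth_rewrite 1 [hKs]; abel
      · by_cases h2 : g ∈ K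
        · have hKe : K = {g} := by
            apply Finset.Subset.antisymm
            · intro a ha
              rcases Finset.mem_insert.mp (hK ha) with h | h
              · exact absurd (h ▸ ha) h1
              · exact h
            · simpa using h2
          rw [hKe, Finset.sum_singleton] at hKs
          exfalso
          refine hsmall {e, g} (by rw [Finset.card_pair heg]; omega) (by simp) ?_
          rw [Finset.sum_pair heg, hKs]; abel
        · have hKe : K = ∅ := by
            rw [Finset.eq_empty_iff_forall_notMem]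
            intro a ha
            rcases Finset.mem_insert.mp (hK ha) with h | h
            · exact h1 (h ▸ ha)
            · exact h2 ((Finset.mem_singleton.mp h) ▸ ha)
          rw [hKe, Finset.sum_empty] at hKs
          exfalso
          exact hnz e (neg_eq_zero.mp hKs.symm)
  have hdisj := f4 u hmin hbad g e W V hgW heW hWs heV hgV hVs
  have hVcard : 2 ≤ V.card := by
    by_contra hlt
    have : V.card ≤ 1 := by omega
    rcases Nat.le_one_iff_eq_zero_or_eq_one.mp this with h | h
    · rw [Finset.card_eq_zero] at h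
      rw [h, Finset.sum_empty] at hVs
      exact hnz e hVs.symm
    · obtain ⟨a, ha⟩ := Finset.card_eq_one.mp h
      rw [ha, Finset.sum_singleton] at hVs
      have := hinj hVs
      rw [ha] at heV
      simp [this] at heV
  have hd2 : Disjoint (W.erase e) V := by
    rw [Finset.disjoint_left]; intro a ha hb
    exact (Finset.disjoint_left.mp hdisj) hb (Finset.mem_of_mem_erase ha)
  have hnew : (W.erase e) ∪ V ∈ F := by
    rw [hF, Finset.mem_filter]
    refine ⟨mem_univ _, by simp [hgW, hgV], ?_⟩
    rw [Finset.sum_union hd2, hVs]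
    have := Finset.add_sum_erase W u heW
    rw [hWs] at this
    rw [← this]; abel
  have h1 := hWmax _ hnew
  rw [Finset.card_union_of_disjoint hd2, Finset.card_erase_of_mem heW] at h1
  have h2 : 0 < W.card := Finset.card_pos.mpr ⟨e, heW⟩
  omega

end badsec



section multisets
variable {G : Type} [AddCommGroup G]

/-- minimal zero-sum sequence -/
def MZ (S : Multiset G) : Prop :=
  S ≠ 0 ∧ S.sum = 0 ∧ ∀ T : Multiset G, T ≤ S → T ≠ 0 → T.sum = 0 → T = S

theorem map_neg_sum (A : Multiset G) : (A.map (fun a => -a)).sum = -A.sum := by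
  induction A using Multiset.induction with
  | empty => simp
  | cons a A ih => rw [Multiset.map_cons, Multiset.sum_cons, Multiset.sum_cons, ih]; abel

theorem split_le {α : Type} (T P Q : Multiset α) (h : T ≤ P + Q) :
    ∃ P' ≤ P, ∃ Q' ≤ Q, T = P' + Q' := by
  classical
  refine ⟨T ∩ P, Multiset.inter_le_right, T - P, ?_, ?_⟩
  · rw [Multiset.sub_le_iff_le_add]; rwa [add_comm]
  · rw [add_comm]
    exact (Multiset.sub_add_inter T P).symm

theorem mz_pair (a : G) (ha : a ≠ 0) : MZ ({a, -a} : Multiset G) := by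
  refine ⟨by simp, by simp, ?_⟩
  intro T hT hT0 hTs
  have h1 : ({a, -a} : Multiset G) = {a} + {-a} := by rfl
  rw [h1] at hT
  obtain ⟨P, hP, Q, hQ, rfl⟩ := split_le T _ _ hT
  rcases Multiset.le_singleton.mp hP with rfl | rfl
  · rcases Multiset.le_singleton.mp hQ with rfl | rfl
    · simp at hT0
    · simp at hTs; exact absurd hTs ha
  · rcases Multiset.le_singleton.mp hQ with rfl | rfl
    · simp at hTs; exact absurd hTs ha
    · rfl

theorem mz_ext (A : Multiset G) (hA : ∀ T ≤ A, T.sum = 0 → T = 0) (x : G)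
    (hx : ∀ T ≤ A, T.sum ≠ x) : MZ (A.map (fun a => -a) + {x, A.sum - x}) := by
  classical
  have h1 : ({x, A.sum - x} : Multiset G) = {x} + {A.sum - x} := by rfl
  refine ⟨by simp, by rw [h1, Multiset.sum_add, map_neg_sum, Multiset.sum_add, Multiset.sum_singleton, Multiset.sum_singleton]; abel, ?_⟩
  intro T hT hT0 hTs
  obtain ⟨P, hP, Q, hQ, rfl⟩ := split_le T _ _ hT
  rw [h1] at hQ
  obtain ⟨Q1, hQ1, Q2, hQ2, rfl⟩ := split_le Q _ _ hQ
  obtain ⟨A', hA', rfl⟩ : ∃ A' ≤ A, P = A'.map (fun a => -a) := by
    refine ⟨P.map (fun a => -a), ?_, ?_⟩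
    · have := Multiset.map_le_map (f := fun a : G => -a) hP
      simpa using this
    · simp
  have hsum : (A'.map (fun a => -a)).sum = -A'.sum := map_neg_sum A'
  have hsub : (A - A').sum = A.sum - A'.sum := by
    have h2 : (A - A') + A' = A := tsub_add_cancel_of_le hA'
    have h3 := congrArg Multiset.sum h2
    rw [Multiset.sum_add] at h3
    rw [← h3]; abel
  rcases Multiset.le_singleton.mp hQ1 with rfl | rfl
  · rcases Multiset.le_singleton.mp hQ2 with rfl | rfl
    · simp only [Multiset.sum_add, hsum, add_zero] at hTs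
      have := hA A' hA' (neg_eq_zero.mp hTs)
      rw [this] at hT0
      simp at hT0
    · simp only [Multiset.sum_add, hsum, Multiset.sum_singleton, zero_add] at hTs
      exfalso
      apply hx (A - A') tsub_le_self
      rw [hsub]
      have : A.sum - A'.sum = (-A'.sum + (A.sum - x)) + x := by abel
      rw [this, hTs, zero_add]
  · rcases Multiset.le_singleton.mp hQ2 with rfl | rfl
    · simp only [Multiset.sum_add, hsum, Multiset.sum_singleton, add_zero] at hTs
      exfalso
      apply hx A' hA'
      have : A'.sum = x - (-A'.sum + x) := by abel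
      rw [this, hTs, sub_zero]
    · simp only [Multiset.sum_add, hsum, Multiset.sum_singleton] at hTs
      have h4 : (A - A').sum = 0 := by
        rw [hsub, ← hTs]; abel
      have h5 := hA _ tsub_le_self h4
      have h6 : A ≤ A' := by
        exact tsub_eq_zero_iff_le.mp h5
      have h7 : A' = A := le_antisymm hA' h6
      rw [h7, h1]

theorem pairs_sum (U : Multiset G) :
    ∃ l : List (Multiset G), l.length = Multiset.card U ∧ (∀ S ∈ l, ∃ a ∈ U, S = {a, -a}) ∧
      l.sum = U + U.map (fun a => -a) := by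
  induction U using Multiset.induction with
  | empty => exact ⟨[], by simp, by simp, by simp⟩
  | cons a U ih =>
    obtain ⟨l, hl, hl2, hl3⟩ := ih
    refine ⟨{a, -a} :: l, by simp [hl], ?_, ?_⟩
    · intro S hS
      rcases List.mem_cons.mp hS with h | h
      · exact ⟨a, by simp, h⟩
      · obtain ⟨b, hb, hb2⟩ := hl2 S h
        exact ⟨b, Multiset.mem_cons_of_mem hb, hb2⟩
    · rw [List.sum_cons, hl3, Multiset.map_cons]
      have : ({a, -a} : Multiset G) = {a} + {-a} := rfl
      rw [this, ← Multiset.singleton_add, ← Multiset.singleton_add (-a)]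
      abel

/-- from an uncovered element one gets a product of three atoms with a long factorization -/
theorem three_atoms (A B : Multiset G) (hAB : MZ (A + B)) (hA0 : A ≠ 0) (hB0 : B ≠ 0) (x : G)
    (hxA : ∀ T ≤ A, T.sum ≠ x) (hxB : ∀ T ≤ B, T.sum ≠ -x) :
    ∃ C : Multiset G, (∃ l : List (Multiset G), l.length = 3 ∧ (∀ S ∈ l, MZ S) ∧ l.sum = C) ∧
      (∃ l : List (Multiset G), l.length = Multiset.card (A + B) + 2 ∧ (∀ S ∈ l, MZ S) ∧ l.sum = C) := by
  classical
  obtain ⟨h0, hs, hmin⟩ := hAB
  have hAz : ∀ T ≤ A, T.sum = 0 → T = 0 := by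
    intro T hT hTs
    by_contra hne
    have h1 := hmin T (hT.trans (Multiset.le_add_right A B)) hne hTs
    rw [h1] at hT
    have h2 := Multiset.card_le_card hT
    rw [Multiset.card_add] at h2
    have h3 := Multiset.card_pos.mpr hB0
    omega
  have hBz : ∀ T ≤ B, T.sum = 0 → T = 0 := by
    intro T hT hTs
    by_contra hne
    have h1 := hmin T (hT.trans (Multiset.le_add_left B A)) hne hTs
    rw [h1] at hT
    have h2 := Multiset.card_le_card hT
    rw [Multiset.card_add] at h2
    have h3 := Multiset.card_pos.mpr hA0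
    omega
  have hx0 : x ≠ 0 := fun h => hxA 0 (Multiset.zero_le A) (by simp [h])
  have hsAB : A.sum + B.sum = 0 := by rw [← Multiset.sum_add]; exact hs
  have hxs : A.sum - x ≠ 0 := fun h => hxA A le_rfl (sub_eq_zero.mp h)
  have hnz : ∀ a ∈ A + B, a ≠ 0 := by
    intro a ha h
    rw [Multiset.mem_add] at ha
    rcases ha with ha | ha
    · have := hAz {a} (Multiset.singleton_le.mpr ha) (by simp [h])
      simp at this
    · have := hBz {a} (Multiset.singleton_le.mpr ha) (by simp [h])
      simp at this
  obtain ⟨l, hl, hl2, hl3⟩ := pairs_sum (A + B)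
  refine ⟨(A + B) + (A.map (fun a => -a) + {x, A.sum - x}) + (B.map (fun a => -a) + {-x, B.sum - (-x)}), 
    ⟨[A + B, A.map (fun a => -a) + {x, A.sum - x}, B.map (fun a => -a) + {-x, B.sum - (-x)}], rfl, ?_, ?_⟩,
    ⟨{x, -x} :: {A.sum - x, -(A.sum - x)} :: l, by simp [hl], ?_, ?_⟩⟩
  · intro S hS
    simp only [List.mem_cons, List.not_mem_nil, or_false] at hS
    rcases hS with rfl | rfl | rfl
    · exact ⟨h0, hs, hmin⟩
    · exact mz_ext A hAz x hxA
    · exact mz_ext B hBz (-x) hxB
  · simp only [List.sum_cons, List.sum_nil, add_zero, add_assoc]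
  · intro S hS
    rcases List.mem_cons.mp hS with rfl | hS
    · exact mz_pair x hx0
    · rcases List.mem_cons.mp hS with rfl | hS
      · exact mz_pair _ hxs
      · obtain ⟨a, ha, rfl⟩ := hl2 S hS
        exact mz_pair a (hnz a ha)
  · rw [List.sum_cons, List.sum_cons, hl3, Multiset.map_add]
    have h1 : ({x, -x} : Multiset G) = {x} + {-x} := rfl
    have h2 : ({A.sum - x, -(A.sum - x)} : Multiset G) = {A.sum - x} + {-(A.sum - x)} := rfl
    have h3 : ({x, A.sum - x} : Multiset G) = {x} + {A.sum - x} := rfl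
    have h4 : ({-x, B.sum - -x} : Multiset G) = {-x} + {B.sum - -x} := rfl
    have h5 : B.sum - -x = -(A.sum - x) := by
      have : B.sum = -A.sum := (neg_eq_of_add_eq_zero_right hsAB).symm
      rw [this]; abel
    rw [h1, h2, h3, h4, h5]
    abel

end multisets


section noncyc
variable {G : Type} [AddCommGroup G]

theorem le_map_exists {α β : Type} (f : α → β) (J : Multiset α) :
    ∀ T ≤ J.map f, ∃ K ≤ J, K.map f = T := by
  induction J using Multiset.induction with
  | empty =>
    intro T hT
    refine ⟨0, le_rfl, ?_⟩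
    rw [Multiset.map_zero] at hT ⊢
    exact (Multiset.le_zero.mp hT).symm
  | cons a J ih =>
    intro T hT
    rw [Multiset.map_cons, ← Multiset.singleton_add] at hT
    obtain ⟨P, hP, Q, hQ, rfl⟩ := split_le T _ _ hT
    obtain ⟨K, hK, hKQ⟩ := ih Q hQ
    rcases Multiset.le_singleton.mp hP with rfl | rfl
    · exact ⟨K, hK.trans (Multiset.le_cons_self J a), by simp [hKQ]⟩
    · refine ⟨a ::ₘ K, (Multiset.cons_le_cons_iff a).mpr hK, by simp [hKQ]⟩

theorem exists_index {α : Type} (S : Multiset α) : ∃ (D : ℕ) (u : Fin D → α),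
    Multiset.card S = D ∧ Multiset.map u (Finset.univ : Finset (Fin D)).val = S := by
  induction S using Quotient.inductionOn with
  | h l =>
    refine ⟨l.length, l.get, rfl, ?_⟩
    rw [Fin.univ_val_map, List.ofFn_get]
    rfl

theorem noncyc [Fintype G] (hG : 3 ≤ Fintype.card G) (S : Multiset G) (hS : MZ S)
    (hmax : ∀ T : Multiset G, MZ T → Multiset.card T ≤ Multiset.card S)
    (hup : ∀ (A : Multiset G) (m : ℕ),
      (∃ l : List (Multiset G), l.length = 3 ∧ (∀ S ∈ l, MZ S) ∧ l.sum = A) →
      (∃ l : List (Multiset G), l.length = m ∧ (∀ S ∈ l, MZ S) ∧ l.sum = A) →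
      m ≤ Multiset.card S + 1) :
    IsAddCyclic G ∨ Nonempty (G ≃+ (ZMod 2 × ZMod 2)) := by
  classical
  obtain ⟨D, u, hD, hu⟩ := exists_index S
  rw [hD] at hmax hup
  have hle : ∀ J : Finset (Fin D), J.val.map u ≤ S := by
    intro J
    conv_rhs => rw [← hu]
    exact Multiset.map_le_map (Finset.val_le_iff.mpr (Finset.subset_univ J))
  have hzero : ∑ i, u i = 0 := by
    have : ∑ i, u i = (Multiset.map u (Finset.univ : Finset (Fin D)).val).sum := rfl
    rw [this, hu]; exact hS.2.1
  have hmin : ∀ J : Finset (Fin D), J.Nonempty → ∑ i ∈ J, u i = 0 → J = Finset.univ := by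
    intro J hJ hJs
    have h1 : J.val.map u = S := by
      apply hS.2.2 _ (hle J)
      · intro h
        have h2 := congrArg Multiset.card h
        rw [Multiset.card_map] at h2
        simp at h2
        exact hJ.ne_empty h2
      · exact hJs
    have h2 := congrArg Multiset.card h1
    rw [Multiset.card_map] at h2
    rw [← Finset.card_eq_iff_eq_univ, Fintype.card_fin]
    exact h2.trans hD
  have hbad : ∀ J : Finset (Fin D), J.Nonempty → J ≠ Finset.univ → ∀ x : G,
      (∃ K ⊆ J, ∑ i ∈ K, u i = x) ∨ (∃ K ⊆ Jᶜ, ∑ i ∈ K, u i = -x) := by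
    intro J hJ hJu x
    by_contra hcon
    push Not at hcon
    obtain ⟨hc1, hc2⟩ := hcon
    have hAB : J.val.map u + Jᶜ.val.map u = S := by
      rw [← Multiset.map_add, ← Finset.disjUnion_val J Jᶜ disjoint_compl_right]
      conv_rhs => rw [← hu]
      congr 2
      rw [Finset.disjUnion_eq_union, Finset.union_compl]
    have hsub : ∀ (J : Finset (Fin D)) (T : Multiset G), T ≤ J.val.map u → 
        ∃ K ⊆ J, ∑ i ∈ K, u i = T.sum := by
      intro J T hT
      obtain ⟨K, hK, hKT⟩ := le_map_exists u J.val T hT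
      refine ⟨⟨K, Multiset.nodup_of_le hK J.nodup⟩, ?_, ?_⟩
      · exact Finset.val_le_iff.mp hK
      · rw [← hKT]; rfl
    obtain ⟨C, h3, hm⟩ := three_atoms (J.val.map u) (Jᶜ.val.map u) (by rw [hAB]; exact hS)
      (by simp; exact hJ.ne_empty) (by simp; exact hJu) x 
      (by
        intro T hT hTs
        obtain ⟨K, hK, hKs⟩ := hsub J T hT
        exact hc1 K hK (hKs.trans hTs))
      (by
        intro T hT hTs
        obtain ⟨K, hK, hKs⟩ := hsub Jᶜ T hT
        exact hc2 K hK (hKs.trans hTs))
    rw [hAB] at hm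
    have := hup C _ h3 hm
    omega
  -- there is an atom with two terms
  obtain ⟨a, ha⟩ : ∃ a : G, a ≠ 0 := by
    have : Nontrivial G := Fintype.one_lt_card_iff_nontrivial.mp (by omega)
    exact exists_ne 0
  have h2 : 2 ≤ D := by
    have := hmax _ (mz_pair a ha)
    simpa using this
  have i0 : Fin D := ⟨0, by omega⟩
  have hJu : ({i0} : Finset (Fin D)) ≠ Finset.univ := by
    intro h
    have := congrArg Finset.card h
    rw [Finset.card_singleton, Finset.card_univ, Fintype.card_fin] at this
    omega
  by_cases h4 : 4 ≤ D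
  · left
    have hall := bad_main u hmin hzero hbad (by simpa using h4)
    have hsumK : ∀ K : Finset (Fin D), ∑ i ∈ K, u i = K.card • u i0 := by
      intro K
      rw [Finset.sum_congr rfl (fun i _ => hall i i0), Finset.sum_const]
    refine ⟨⟨u i0, ?_⟩⟩
    intro x
    rcases hbad {i0} (by simp) hJu x with ⟨K, hK, hKs⟩ | ⟨K, hK, hKs⟩
    · rw [hsumK] at hKs
      exact ⟨(K.card : ℤ), by simpa using hKs⟩
    · rw [hsumK] at hKs
      refine ⟨-(K.card : ℤ), ?_⟩
      simp only [neg_smul, natCast_zsmul]
      rw [hKs, neg_neg]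
  · have hcard4 : Fintype.card G ≤ 4 := by
      have hsurj : Function.Surjective (fun K : {K : Finset (Fin D) // K ∈ (({i0} : Finset (Fin D))ᶜ).powerset} => -(∑ i ∈ K.1, u i)) := by
        intro x
        rcases hbad {i0} (by simp) hJu x with ⟨K, hK, hKs⟩ | ⟨K, hK, hKs⟩
        · rcases Finset.subset_singleton_iff.mp hK with e | e
          · refine ⟨⟨∅, by simp⟩, ?_⟩
            rw [e, Finset.sum_empty] at hKs
            simp [hKs.symm]
          · refine ⟨⟨{i0}ᶜ, by simp⟩, ?_⟩
            simp only
            rw [compl_sum u hzero, neg_neg, ← e, hKs]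
        · exact ⟨⟨K, Finset.mem_powerset.mpr hK⟩, by simp [hKs]⟩
      have h5 := Fintype.card_le_of_surjective _ hsurj
      rw [Fintype.card_coe, Finset.card_powerset, Finset.card_compl, Finset.card_singleton, Fintype.card_fin] at h5
      calc Fintype.card G ≤ 2 ^ (D - 1) := h5
        _ ≤ 2 ^ 2 := Nat.pow_le_pow_right (by norm_num) (by omega)
    rcases (by omega : Fintype.card G = 3 ∨ Fintype.card G = 4) with h3 | h4'
    · left
      have : Fact (Nat.Prime 3) := ⟨by norm_num⟩
      exact isAddCyclic_of_prime_card (p := 3) (by rw [Nat.card_eq_fintype_card]; exact h3)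
    · by_cases hcyc : IsAddCyclic G
      · exact Or.inl hcyc
      · right
        have hexp : ∀ x : G, x + x = 0 := by
          intro x
          have h6 : addOrderOf x ∣ 4 := by
            have := addOrderOf_dvd_card (x := x)
            rwa [h4'] at this
          have h7 : addOrderOf x ≠ 4 := by
            intro h
            exact hcyc (isAddCyclic_of_addOrderOf_eq_card x (by rw [Nat.card_eq_fintype_card, h4', h]))
          have h8 : addOrderOf x ∣ 2 := by
            have h9 : addOrderOf x ≤ 4 := Nat.le_of_dvd (by norm_num) h6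
            interval_cases (addOrderOf x) <;> first | omega | norm_num at *
          have := addOrderOf_dvd_iff_nsmul_eq_zero.mp h8
          rwa [two_nsmul] at this
        have : IsAddKleinFour G := by
          refine ⟨by rw [Nat.card_eq_fintype_card]; exact h4', ?_⟩
          have h6 : AddMonoid.exponent G ∣ 2 := by
            apply AddMonoid.exponent_dvd_of_forall_nsmul_eq_zero
            intro x
            rw [two_nsmul]; exact hexp x
          rcases (Nat.dvd_prime Nat.prime_two).mp h6 with h | h
          · exfalso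
            have h7 : AddMonoid.exponent G • a = 0 := AddMonoid.exponent_nsmul_eq_zero a
            rw [h, one_nsmul] at h7
            exact ha h7
          · exact h
        exact IsAddKleinFour.nonempty_addEquiv

end noncyc

section sumsets
variable {G : Type} [AddCommGroup G] [DecidableEq G]

/-- all subset sums (the empty one included) -/
def sums (A : Multiset G) : Finset G := (A.powerset.map Multiset.sum).toFinset

theorem mem_sums {A : Multiset G} {x : G} : x ∈ sums A ↔ ∃ T ≤ A, T.sum = x := by
  simp [sums]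

theorem sums_zero : sums (0 : Multiset G) = {0} := by
  ext x
  rw [mem_sums]
  constructor
  · rintro ⟨T, hT, rfl⟩
    rw [Multiset.le_zero.mp hT]; simp
  · intro h
    rw [Finset.mem_singleton] at h
    exact ⟨0, le_rfl, by rw [h, Multiset.sum_zero]⟩

theorem sums_cons (a : G) (A : Multiset G) :
    sums (a ::ₘ A) = sums A ∪ (sums A).image (fun y => a + y) := by
  ext x
  rw [mem_sums, Finset.mem_union, Finset.mem_image, mem_sums]
  constructor
  · rintro ⟨T, hT, rfl⟩
    rw [← Multiset.singleton_add] at hT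
    obtain ⟨P, hP, Q, hQ, rfl⟩ := split_le T _ _ hT
    rcases Multiset.le_singleton.mp hP with rfl | rfl
    · left; exact ⟨Q, hQ, by simp⟩
    · right; exact ⟨Q.sum, mem_sums.mpr ⟨Q, hQ, rfl⟩, by simp⟩
  · rintro (⟨T, hT, rfl⟩ | ⟨y, hy, rfl⟩)
    · exact ⟨T, hT.trans (Multiset.le_cons_self A a), rfl⟩
    · obtain ⟨T, hT, rfl⟩ := mem_sums.mp hy
      exact ⟨a ::ₘ T, (Multiset.cons_le_cons_iff a).mpr hT, by simp⟩

/-- zero-sum free -/
def ZF (A : Multiset G) : Prop := ∀ T ≤ A, T.sum = 0 → T = 0

omit [DecidableEq G] in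
theorem ZF.mono {A B : Multiset G} (h : ZF B) (hAB : A ≤ B) : ZF A :=
  fun T hT hs => h T (hT.trans hAB) hs

omit [DecidableEq G] in
theorem ZF.ne_zero {A : Multiset G} (h : ZF A) {a : G} (ha : a ∈ A) : a ≠ 0 := by
  intro h0
  have := h {a} (Multiset.singleton_le.mpr ha) (by simp [h0])
  simp at this

theorem sum_notMem_sums {a : G} {A : Multiset G} (h : ZF (a ::ₘ A)) :
    (a ::ₘ A).sum ∉ sums A := by
  intro hm
  obtain ⟨T, hT, hTs⟩ := mem_sums.mp hm
  have h1 : T ≤ a ::ₘ A := hT.trans (Multiset.le_cons_self A a)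
  have h2 : (a ::ₘ A - T) + T = a ::ₘ A := tsub_add_cancel_of_le h1
  have h3 := congrArg Multiset.sum h2
  rw [Multiset.sum_add, hTs] at h3
  have h4 : (a ::ₘ A - T).sum = 0 := add_eq_right.mp h3
  have h5 := h _ tsub_le_self h4
  rw [h5, zero_add] at h2
  have h6 := Multiset.card_le_card hT
  rw [h2, Multiset.card_cons] at h6
  omega

theorem ZF.card_sums {A : Multiset G} (h : ZF A) : Multiset.card A + 1 ≤ (sums A).card := by
  induction A using Multiset.induction with
  | empty => simp [sums_zero]
  | cons a A ih =>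
    have h1 := ih (h.mono (Multiset.le_cons_self A a))
    have h2 : (a ::ₘ A).sum ∈ sums (a ::ₘ A) := mem_sums.mpr ⟨_, le_rfl, rfl⟩
    have h3 : sums A ⊂ sums (a ::ₘ A) := by
      rw [Finset.ssubset_iff_of_subset (by rw [sums_cons]; exact Finset.subset_union_left)]
      exact ⟨_, h2, sum_notMem_sums h⟩
    have h4 := Finset.card_lt_card h3
    rw [Multiset.card_cons]
    omega

omit [DecidableEq G] in
theorem MZ.zf {a : G} {A : Multiset G} (h : MZ (a ::ₘ A)) : ZF A := by
  intro T hT hTs
  by_contra hne
  have h1 := h.2.2 T (hT.trans (Multiset.le_cons_self A a)) hne hTs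
  have h2 := Multiset.card_le_card hT
  rw [h1, Multiset.card_cons] at h2
  omega

omit [DecidableEq G] in
theorem MZ.card_le [Fintype G] {U : Multiset G} (h : MZ U) : Multiset.card U ≤ Fintype.card G := by
  classical
  obtain ⟨a, ha⟩ := Multiset.exists_mem_of_ne_zero h.1
  obtain ⟨A, rfl⟩ := Multiset.exists_cons_of_mem ha
  have h1 := h.zf.card_sums
  have h2 := Finset.card_le_univ (sums A)
  rw [Multiset.card_cons]; omega

theorem step_lemma [Fintype G] {a g : G} {A : Multiset G} {s x : ℕ} (h : ZF (a ::ₘ A))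
    (hS : sums A = (Finset.range (s + 1)).image (fun k => k • g)) (hs : s < addOrderOf g)
    (ha : a = x • g) (hx : x ≤ s + 1) :
    sums (a ::ₘ A) = (Finset.range (s + x + 1)).image (fun k => k • g) ∧ s + x < addOrderOf g := by
  constructor
  · rw [sums_cons, hS]
    ext y
    simp only [Finset.mem_union, Finset.mem_image, Finset.mem_range]
    constructor
    · rintro (⟨k, hk, rfl⟩ | ⟨z, ⟨k, hk, rfl⟩, rfl⟩)
      · exact ⟨k, by omega, rfl⟩
      · exact ⟨x + k, by omega, by rw [ha, add_smul]⟩
    · rintro ⟨k, hk, rfl⟩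
      by_cases hks : k < s + 1
      · exact Or.inl ⟨k, hks, rfl⟩
      · refine Or.inr ⟨(k - x) • g, ⟨k - x, by omega, rfl⟩, ?_⟩
        rw [ha, ← add_smul]
        congr 1; omega
  · by_contra hcon
    push Not at hcon
    have h1 : (addOrderOf g - x) • g ∈ sums A := by
      rw [hS]
      exact Finset.mem_image.mpr ⟨addOrderOf g - x, Finset.mem_range.mpr (by omega), rfl⟩
    obtain ⟨T, hT, hTs⟩ := mem_sums.mp h1
    have h2 := h (a ::ₘ T) ((Multiset.cons_le_cons_iff a).mpr hT) (by
      rw [Multiset.sum_cons, hTs, ha, ← add_smul]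
      have : x + (addOrderOf g - x) = addOrderOf g := by omega
      rw [this, addOrderOf_nsmul_eq_zero])
    exact Multiset.cons_ne_zero h2

theorem replicate_sums [Fintype G] (g : G) (n : ℕ) (h : ZF (Multiset.replicate n g)) :
    sums (Multiset.replicate n g) = (Finset.range (n + 1)).image (fun k => k • g) ∧
      n < addOrderOf g := by
  induction n with
  | zero =>
    refine ⟨?_, addOrderOf_pos g⟩
    rw [Multiset.replicate_zero, sums_zero]; simp
  | succ n ih =>
    rw [Multiset.replicate_succ] at h ⊢
    obtain ⟨h1, h2⟩ := ih (h.mono (Multiset.le_cons_self _ _))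
    exact step_lemma (x := 1) h h1 h2 (by simp) (by omega)

/-- the structure theorem for long zero-sum free sequences -/
theorem sc_thm [Fintype G] (n : ℕ) : ∀ A : Multiset G, Multiset.card A = n → ZF A →
    (sums A).card + 1 ≤ 2 * n →
    ∃ (g : G) (X : Multiset ℕ), (∀ x ∈ X, 1 ≤ x) ∧ A = X.map (fun x => x • g) ∧
      sums A = (Finset.range (X.sum + 1)).image (fun k => k • g) ∧ X.sum < addOrderOf g := by
  induction n with
  | zero =>
    intro A hA hZ hc
    omega
  | succ n ih =>
    intro A hA hZ hc
    by_cases hall : ∃ g, ∀ a ∈ A, a = g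
    · obtain ⟨g, hg⟩ := hall
      have hAr : A = Multiset.replicate (n + 1) g := by
        rw [Multiset.eq_replicate]; exact ⟨hA, hg⟩
      have h1 := replicate_sums g (n + 1) (hAr ▸ hZ)
      refine ⟨g, Multiset.replicate (n + 1) 1, ?_, ?_, ?_, ?_⟩
      · intro x hx; rw [Multiset.eq_of_mem_replicate hx]
      · rw [hAr, Multiset.map_replicate]; simp
      · rw [hAr, h1.1, Multiset.sum_replicate, smul_eq_mul, mul_one]
      · rw [Multiset.sum_replicate, smul_eq_mul, mul_one]; exact h1.2
    · -- find an element with a big increment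
      have hex : ∃ a ∈ A, (sums (A.erase a)).card + 2 ≤ (sums A).card := by
        by_contra hcon
        push Not at hcon
        apply hall
        obtain ⟨b, hb⟩ := Multiset.exists_mem_of_ne_zero (s := A) (by
          intro h; rw [h] at hA; simp at hA)
        refine ⟨b, ?_⟩
        intro a ha
        by_contra hab
        have hσ0 : A.sum ≠ 0 := fun h => by
          have := hZ A le_rfl h
          rw [this] at hA; simp at hA
        have hσS : A.sum ∈ sums A := mem_sums.mpr ⟨A, le_rfl, rfl⟩
        have h0S : (0 : G) ∈ sums A := mem_sums.mpr ⟨0, Multiset.zero_le _, by simp⟩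
        have key1 : ∀ c ∈ A, sums (A.erase c) = (sums A).erase A.sum := by
          intro c hc'
          have hcA : c ::ₘ A.erase c = A := Multiset.cons_erase hc'
          apply Finset.eq_of_subset_of_card_le
          · intro y hy
            rw [Finset.mem_erase]
            constructor
            · intro hy'
              rw [hy'] at hy
              have := sum_notMem_sums (a := c) (A := A.erase c) (by rw [hcA]; exact hZ)
              rw [hcA] at this
              exact this hy
            · obtain ⟨T, hT, rfl⟩ := mem_sums.mp hy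
              exact mem_sums.mpr ⟨T, hT.trans (Multiset.erase_le c A), rfl⟩
          · rw [Finset.card_erase_of_mem hσS]
            have := hcon c hc'
            omega
        have key2 : ∀ c ∈ A, ((sums A).erase A.sum).image (fun y => c + y) = (sums A).erase 0 := by
          intro c hc'
          have hcA : c ::ₘ A.erase c = A := Multiset.cons_erase hc'
          apply Finset.eq_of_subset_of_card_le
          · intro y hy
            obtain ⟨z, hz, rfl⟩ := Finset.mem_image.mp hy
            rw [← key1 c hc'] at hz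
            obtain ⟨T, hT, rfl⟩ := mem_sums.mp hz
            have hle : c ::ₘ T ≤ A := by
              rw [← hcA]; exact (Multiset.cons_le_cons_iff c).mpr hT
            rw [Finset.mem_erase]
            constructor
            · intro h0
              have := hZ (c ::ₘ T) hle (by rw [Multiset.sum_cons]; exact h0)
              exact Multiset.cons_ne_zero this
            · exact mem_sums.mpr ⟨c ::ₘ T, hle, by rw [Multiset.sum_cons]⟩
          · rw [Finset.card_image_of_injective _ (add_right_injective c),
              Finset.card_erase_of_mem hσS, Finset.card_erase_of_mem h0S]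
        set P := (sums A).erase A.sum with hP
        set Q := (sums A).erase 0 with hQ
        have hPd : ∀ y ∈ P, y + (a - b) ∈ P := by
          intro y hy
          have h1 : a + y ∈ Q := by
            rw [← key2 a ha]; exact Finset.mem_image.mpr ⟨y, hy, rfl⟩
          rw [← key2 b hb] at h1
          obtain ⟨z, hz, hz2⟩ := Finset.mem_image.mp h1
          have : y + (a - b) = z := by
            have h3 : b + z = a + y := hz2
            have h4 : z = a + y - b := by rw [← h3]; abel
            rw [h4]; abel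
          rw [this]; exact hz
        have hQd : ∀ y ∈ Q, y + (a - b) ∈ Q := by
          intro y hy
          rw [← key2 b hb] at hy
          obtain ⟨z, hz, rfl⟩ := Finset.mem_image.mp hy
          rw [← key2 a ha]
          refine Finset.mem_image.mpr ⟨z, hz, ?_⟩
          abel
        have h1 : A.sum + (a - b) ∈ Q := hQd _ (Finset.mem_erase.mpr ⟨hσ0, hσS⟩)
        have h2 : A.sum + (a - b) ∈ P := by
          refine Finset.mem_erase.mpr ⟨?_, (Finset.mem_erase.mp h1).2⟩
          intro h
          exact hab (sub_eq_zero.mp (add_eq_left.mp h))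
        have h3 : ∀ k : ℕ, A.sum + (a - b) + k • (a - b) ∈ P := by
          intro k
          induction k with
          | zero => simpa using h2
          | succ k ihk =>
            have := hPd _ ihk
            rw [add_smul, one_smul, ← add_assoc]; exact this
        have h4 := h3 (addOrderOf (a - b) - 1)
        have h5 : A.sum + (a - b) + (addOrderOf (a - b) - 1) • (a - b) = A.sum := by
          have hpos := addOrderOf_pos (a - b)
          have h6 : (a - b) + (addOrderOf (a - b) - 1) • (a - b) = 0 := by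
            have h7 : (1 + (addOrderOf (a - b) - 1)) • (a - b) = 0 := by
              have : 1 + (addOrderOf (a - b) - 1) = addOrderOf (a - b) := by omega
              rw [this, addOrderOf_nsmul_eq_zero]
            rwa [add_smul, one_smul] at h7
          rw [add_assoc, h6, add_zero]
        rw [h5] at h4
        exact (Finset.mem_erase.mp h4).1 rfl
      obtain ⟨a, ha, hinc⟩ := hex
      have haA : a ::ₘ A.erase a = A := Multiset.cons_erase ha
      have hcard : Multiset.card (A.erase a) = n := by
        rw [Multiset.card_erase_of_mem ha, hA]; rfl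
      obtain ⟨g, X, hX1, hX2, hX3, hX4⟩ := ih (A.erase a) hcard
        (hZ.mono (Multiset.erase_le a A)) (by omega)
      have hXn : n ≤ X.sum := by
        have h1 : Multiset.card X = n := by
          have := congrArg Multiset.card hX2
          rw [Multiset.card_map, hcard] at this
          exact this.symm
        rw [← h1]
        have := Multiset.card_nsmul_le_sum (s := X) (a := 1) hX1
        simpa using this
      have hinj : Set.InjOn (fun k : ℕ => k • g) (Finset.range (X.sum + 1) : Finset ℕ) := by
        intro i hi j hj hij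
        have hi' := Finset.mem_range.mp hi
        have hj' := Finset.mem_range.mp hj
        exact nsmul_injOn_Iio_addOrderOf (by simp; omega) (by simp; omega) hij
      have hcardS : (sums (A.erase a)).card = X.sum + 1 := by
        rw [hX3, Finset.card_image_of_injOn hinj, Finset.card_range]
      by_cases hmem : a ∈ sums (A.erase a)
      · rw [hX3] at hmem
        obtain ⟨x, hx, hxa⟩ := Finset.mem_image.mp hmem
        have hx' := Finset.mem_range.mp hx
        have h0 : x ≠ 0 := by
          intro h
          rw [h, zero_smul] at hxa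
          exact hZ.ne_zero ha hxa.symm
        obtain ⟨h1, h2⟩ := step_lemma (x := x) (g := g) (A := A.erase a) (a := a) (s := X.sum)
          (by rw [haA]; exact hZ) hX3 hX4 hxa.symm (by omega)
        refine ⟨g, x ::ₘ X, ?_, ?_, ?_, ?_⟩
        · intro y hy
          rcases Multiset.mem_cons.mp hy with h | h
          · omega
          · exact hX1 y h
        · rw [Multiset.map_cons, ← hX2, hxa, haA]
        · rw [← haA, h1, Multiset.sum_cons, add_comm x]
        · rw [Multiset.sum_cons]; omega
      · exfalso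
        have hdisj : Disjoint (sums (A.erase a)) ((sums (A.erase a)).image (fun y => a + y)) := by
          rw [Finset.disjoint_left]
          intro y hy hy2
          obtain ⟨z, hz, hzy⟩ := Finset.mem_image.mp hy2
          have hz0 := hz
          rw [hX3] at hy hz
          obtain ⟨j, hj, hjy⟩ := Finset.mem_image.mp hy
          obtain ⟨i, hi, hiz⟩ := Finset.mem_image.mp hz
          have hj' := Finset.mem_range.mp hj
          have hi' := Finset.mem_range.mp hi
          by_cases hij : i ≤ j
          · apply hmem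
            rw [hX3]
            refine Finset.mem_image.mpr ⟨j - i, Finset.mem_range.mpr (by omega), ?_⟩
            have h1 : a + i • g = (j - i) • g + i • g := by
              rw [← add_smul, Nat.sub_add_cancel hij]; exact (congrArg (a + ·) hiz).trans (hzy.trans hjy.symm)
            exact (add_right_cancel h1).symm
          · have h1 : (i - j) • g ∈ sums (A.erase a) := by
              rw [hX3]
              exact Finset.mem_image.mpr ⟨i - j, Finset.mem_range.mpr (by omega), rfl⟩
            obtain ⟨T, hT, hTs⟩ := mem_sums.mp h1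
            have h2 := hZ (a ::ₘ T) (by rw [← haA]; exact (Multiset.cons_le_cons_iff a).mpr hT) (by
              rw [Multiset.sum_cons, hTs]
              have h3 : a + (i - j) • g + j • g = 0 + j • g := by
                rw [add_assoc, ← add_smul, Nat.sub_add_cancel (by omega), zero_add]; exact (congrArg (a + ·) hiz).trans (hzy.trans hjy.symm)
              exact add_right_cancel h3)
            exact Multiset.cons_ne_zero h2
        have h1 : (sums A).card = 2 * (X.sum + 1) := by
          rw [← haA, sums_cons, Finset.card_union_of_disjoint hdisj,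
            Finset.card_image_of_injective _ (add_right_injective a), hcardS]
          omega
        omega

/-- long minimal zero-sum sequences have index one -/
theorem long_atom [Fintype G] (U : Multiset G) (hU : MZ U)
    (hlen : Fintype.card G + 3 ≤ 2 * Multiset.card U) :
    ∃ (g : G) (X : Multiset ℕ), (∀ x ∈ X, 1 ≤ x) ∧ U = X.map (fun x => x • g) ∧
      X.sum = Fintype.card G ∧ addOrderOf g = Fintype.card G := by
  obtain ⟨a, ha⟩ := Multiset.exists_mem_of_ne_zero hU.1
  obtain ⟨A, rfl⟩ := Multiset.exists_cons_of_mem ha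
  rw [Multiset.card_cons] at hlen
  have hZ := hU.zf
  obtain ⟨g, X, hX1, hX2, hX3, hX4⟩ := sc_thm (Multiset.card A) A rfl hZ (by
    have := Finset.card_le_univ (sums A)
    omega)
  have hXn : Multiset.card A ≤ X.sum := by
    have h1 : Multiset.card X = Multiset.card A := by
      have := congrArg Multiset.card hX2
      rw [Multiset.card_map] at this
      exact this.symm
    rw [← h1]
    have := Multiset.card_nsmul_le_sum (s := X) (a := 1) hX1
    simpa using this
  have hsumA : A.sum = X.sum • g := by
    rw [hX2]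
    have : ∀ Y : Multiset ℕ, (Y.map (fun x => x • g)).sum = Y.sum • g := by
      intro Y
      induction Y using Multiset.induction with
      | empty => rw [Multiset.map_zero, Multiset.sum_zero, Multiset.sum_zero, zero_smul]
      | cons y Y ih => rw [Multiset.map_cons, Multiset.sum_cons, Multiset.sum_cons, ih, add_smul]
    rw [this]
  have haval : a = (addOrderOf g - X.sum) • g := by
    have h1 : a + A.sum = 0 := by
      have := hU.2.1
      rwa [Multiset.sum_cons] at this
    have h2 : (addOrderOf g - X.sum) • g + A.sum = 0 := by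
      rw [hsumA, ← add_smul, Nat.sub_add_cancel hX4.le, addOrderOf_nsmul_eq_zero]
    exact add_right_cancel (h1.trans h2.symm)
  have hord : addOrderOf g = Fintype.card G := by
    have h1 : addOrderOf g ∣ Fintype.card G := addOrderOf_dvd_card
    obtain ⟨k, hk⟩ := h1
    have hpos : 0 < Fintype.card G := Fintype.card_pos
    have hk1 : k = 1 := by
      rcases Nat.lt_or_ge k 2 with h | h
      · interval_cases k
        · omega
        · rfl
      · have : 2 * addOrderOf g ≤ Fintype.card G := by
          rw [hk, mul_comm]; exact Nat.mul_le_mul_left _ h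
        omega
    rw [hk, hk1, mul_one]
  refine ⟨g, (addOrderOf g - X.sum) ::ₘ X, ?_, ?_, ?_, hord⟩
  · intro x hx
    rcases Multiset.mem_cons.mp hx with h | h
    · omega
    · exact hX1 x h
  · rw [Multiset.map_cons, ← haval, ← hX2]
  · rw [Multiset.sum_cons, ← hord]; omega

end sumsets

section beta
variable {G : Type} [AddCommGroup G]

theorem split_sum {α ι : Type} [DecidableEq ι] (W : ι → Multiset α) (s : Finset ι) :
    ∀ A B : Multiset α, ∑ i ∈ s, W i = A + B →
      ∃ P Q : ι → Multiset α, (∀ i ∈ s, W i = P i + Q i) ∧ ∑ i ∈ s, P i = A ∧ ∑ i ∈ s, Q i = B := by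
  induction s using Finset.induction_on with
  | empty =>
    intro A B h
    rw [Finset.sum_empty] at h
    have h1 := congrArg Multiset.card h
    rw [Multiset.card_add, Multiset.card_zero] at h1
    have hA : A = 0 := Multiset.card_eq_zero.mp (by omega)
    have hB : B = 0 := Multiset.card_eq_zero.mp (by omega)
    exact ⟨fun _ => 0, fun _ => 0, by simp, by simp [hA], by simp [hB]⟩
  | insert i s hi ih =>
    intro A B h
    rw [Finset.sum_insert hi] at h
    obtain ⟨P', hP', Q', hQ', hW⟩ := split_le (W i) A B (by rw [← h]; exact Multiset.le_add_right _ _)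
    obtain ⟨A', hA'⟩ := Multiset.le_iff_exists_add.mp hP'
    obtain ⟨B', hB'⟩ := Multiset.le_iff_exists_add.mp hQ'
    have h2 : ∑ j ∈ s, W j = A' + B' := by
      rw [hW, hA', hB'] at h
      have h3 : P' + Q' + ∑ j ∈ s, W j = P' + Q' + (A' + B') := by
        rw [h]; abel
      exact add_left_cancel h3
    obtain ⟨P, Q, h3, h4, h5⟩ := ih A' B' h2
    refine ⟨Function.update P i P', Function.update Q i Q', ?_, ?_, ?_⟩
    · intro j hj
      rcases Finset.mem_insert.mp hj with rfl | hj
      · simp [hW]
      · have hne : j ≠ i := fun h => hi (h ▸ hj)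
        simp [Function.update_of_ne hne, h3 j hj]
    · rw [Finset.sum_insert hi, Function.update_self, hA']
      congr 1
      rw [← h4]
      apply Finset.sum_congr rfl
      intro j hj
      have hne : j ≠ i := fun h => hi (h ▸ hj)
      rw [Function.update_of_ne hne]
    · rw [Finset.sum_insert hi, Function.update_self, hB']
      congr 1
      rw [← h5]
      apply Finset.sum_congr rfl
      intro j hj
      have hne : j ≠ i := fun h => hi (h ▸ hj)
      rw [Function.update_of_ne hne]

theorem lift_sum {α β ι : Type} [DecidableEq ι] (f : α → β) (W : ι → Multiset β) (s : Finset ι) :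
    ∀ X : Multiset α, ∑ i ∈ s, W i = X.map f →
      ∃ P : ι → Multiset α, (∀ i ∈ s, W i = (P i).map f) ∧ ∑ i ∈ s, P i = X := by
  induction s using Finset.induction_on with
  | empty =>
    intro X h
    rw [Finset.sum_empty] at h
    have h1 := congrArg Multiset.card h
    rw [Multiset.card_map, Multiset.card_zero] at h1
    have hX : X = 0 := Multiset.card_eq_zero.mp h1.symm
    exact ⟨fun _ => 0, by simp, by simp [hX]⟩
  | insert i s hi ih =>
    intro X h
    rw [Finset.sum_insert hi] at h
    obtain ⟨P', hP', hW⟩ := le_map_exists f X (W i) (by rw [← h]; exact Multiset.le_add_right _ _)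
    obtain ⟨X', hX'⟩ := Multiset.le_iff_exists_add.mp hP'
    have h2 : ∑ j ∈ s, W j = X'.map f := by
      rw [hX', Multiset.map_add, hW] at h
      exact add_left_cancel h
    obtain ⟨P, h3, h4⟩ := ih X' h2
    refine ⟨Function.update P i P', ?_, ?_⟩
    · intro j hj
      rcases Finset.mem_insert.mp hj with rfl | hj
      · simp [hW]
      · have hne : j ≠ i := fun h => hi (h ▸ hj)
        simp [Function.update_of_ne hne, h3 j hj]
    · rw [Finset.sum_insert hi, Function.update_self, hX']
      congr 1
      rw [← h4]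
      apply Finset.sum_congr rfl
      intro j hj
      have hne : j ≠ i := fun h => hi (h ▸ hj)
      rw [Function.update_of_ne hne]

/-- an integer family with zero total and no proper zero subsum is short -/
theorem int_lemma {ι : Type} [DecidableEq ι] (J : Finset ι) (hJ : J.Nonempty) (a : ι → ℤ)
    (h0 : ∑ i ∈ J, a i = 0) (hK : ∀ K ⊆ J, K.Nonempty → ∑ i ∈ K, a i = 0 → K = J) (b : ι → ℕ)
    (hb : ∀ i ∈ J, a i ≤ b i) :
    J.card ≤ ∑ i ∈ J, b i + 1 := by
  set M := ∑ i ∈ J, b i with hM
  have hupper : ∀ K ⊆ J, ∑ i ∈ K, a i ≤ M := by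
    intro K hKJ
    calc ∑ i ∈ K, a i ≤ ∑ i ∈ K, (b i : ℤ) := Finset.sum_le_sum (fun i hi => hb i (hKJ hi))
      _ ≤ ∑ i ∈ J, (b i : ℤ) := Finset.sum_le_sum_of_subset_of_nonneg hKJ (fun i _ _ => Int.natCast_nonneg _)
      _ = M := by rw [hM]; push_cast; rfl
  have hlower : ∀ K ⊆ J, -(M : ℤ) ≤ ∑ i ∈ K, a i := by
    intro K hKJ
    have h1 := Finset.sum_sdiff (f := a) hKJ
    have h2 := hupper (J \ K) Finset.sdiff_subset
    rw [h0] at h1
    omega
  have hmz : MZ (J.val.map (fun i => ((a i : ℤ) : ZMod (M + 1)))) := by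
    refine ⟨?_, ?_, ?_⟩
    · intro h
      have h1 := congrArg Multiset.card h
      rw [Multiset.card_map, Multiset.card_zero] at h1
      exact hJ.ne_empty (Finset.card_eq_zero.mp h1)
    · have h1 : (J.val.map (fun i => ((a i : ℤ) : ZMod (M + 1)))).sum = ∑ i ∈ J, ((a i : ℤ) : ZMod (M + 1)) := rfl
      rw [h1, ← Int.cast_sum, h0, Int.cast_zero]
    · intro T hT hT0 hTs
      obtain ⟨K, hKJ, rfl⟩ := le_map_exists _ _ _ hT
      set K' : Finset ι := ⟨K, Multiset.nodup_of_le hKJ J.nodup⟩ with hK'
      have hKsub : K' ⊆ J := Finset.val_le_iff.mp hKJ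
      have h1 : ∑ i ∈ K', ((a i : ℤ) : ZMod (M + 1)) = 0 := hTs
      rw [← Int.cast_sum, ZMod.intCast_zmod_eq_zero_iff_dvd] at h1
      have h2 := hupper K' hKsub
      have h3 := hlower K' hKsub
      have h4 : ∑ i ∈ K', a i = 0 := by
        obtain ⟨c, hc⟩ := h1
        push_cast at hc
        have hM0 : (0 : ℤ) ≤ M := Int.natCast_nonneg M
        have hc0 : c = 0 := by
          by_contra hne
          rcases lt_or_gt_of_ne hne with h | h
          · have : (M + 1 : ℤ) * c ≤ (M + 1) * (-1) := by
              apply mul_le_mul_of_nonneg_left <;> omega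
            omega
          · have : (M + 1 : ℤ) * 1 ≤ (M + 1) * c := by
              apply mul_le_mul_of_nonneg_left <;> omega
            omega
        rw [hc, hc0, mul_zero]
      have h5 := hK K' hKsub (by
        rw [Finset.nonempty_iff_ne_empty]
        intro h
        apply hT0
        have h6 := congrArg Finset.val h
        rw [Finset.empty_val] at h6
        have h7 : K'.val = K := rfl
        rw [← h7, h6, Multiset.map_zero]) h4
      have h6 : K'.val = K := rfl
      rw [← h6, h5]
  have h1 := hmz.card_le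
  rw [Multiset.card_map, ZMod.card] at h1
  exact h1

theorem sum_map_smul (g : G) (Y : Multiset ℕ) : (Y.map (fun x => x • g)).sum = Y.sum • g := by
  induction Y using Multiset.induction with
  | empty => rw [Multiset.map_zero, Multiset.sum_zero, Multiset.sum_zero, zero_smul]
  | cons y Y ih => rw [Multiset.map_cons, Multiset.sum_cons, Multiset.sum_cons, ih, add_smul]

theorem sum_map_neg_smul (g : G) (Y : Multiset ℕ) :
    (Y.map (fun x => x • (-g))).sum = -(Y.sum • g) := by
  rw [sum_map_smul, smul_neg]

theorem eq_of_le_of_sum {P X : Multiset ℕ} (hP : P ≤ X) (hX : ∀ x ∈ X, 1 ≤ x)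
    (h : P.sum = X.sum) : P = X := by
  obtain ⟨R, rfl⟩ := Multiset.le_iff_exists_add.mp hP
  rw [Multiset.sum_add] at h
  have h1 : R.sum = 0 := by omega
  have h2 : R = 0 := by
    by_contra hne
    obtain ⟨r, hr⟩ := Multiset.exists_mem_of_ne_zero hne
    have h3 := hX r (Multiset.mem_add.mpr (Or.inr hr))
    have h4 := Multiset.single_le_sum (s := R) (fun _ _ => Nat.zero_le _) r hr
    omega
  rw [h2, add_zero]

theorem pos_sum {P X : Multiset ℕ} (hP : P ≤ X) (hX : ∀ x ∈ X, 1 ≤ x) (h : P ≠ 0) : 1 ≤ P.sum := by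
  obtain ⟨r, hr⟩ := Multiset.exists_mem_of_ne_zero h
  have h3 := hX r (Multiset.mem_of_le hP hr)
  have h4 := Multiset.single_le_sum (s := P) (fun _ _ => Nat.zero_le _) r hr
  omega

theorem beta_lemma [Fintype G] (g : G) (hg : addOrderOf g = Fintype.card G) (X Y : Multiset ℕ)
    (hX : ∀ x ∈ X, 1 ≤ x) (hY : ∀ y ∈ Y, 1 ≤ y) (hXs : X.sum = Fintype.card G)
    (hYs : Y.sum = Fintype.card G) (U : Multiset G) (hU : MZ U) {m : ℕ} (W : Fin m → Multiset G)
    (hW : ∀ i, MZ (W i)) (hW1 : ∀ i, W i ≠ X.map (fun x => x • g))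
    (hW2 : ∀ i, W i ≠ Y.map (fun x => x • (-g)))
    (hsum : ∑ i, W i = X.map (fun x => x • g) + Y.map (fun x => x • (-g)) + U) :
    m ≤ Fintype.card G + 1 := by
  classical
  obtain ⟨PQ, T, h1, h2, h3⟩ := split_sum W Finset.univ _ _ hsum
  obtain ⟨P0, N0, h4, h5, h6⟩ := split_sum PQ Finset.univ _ _ h2
  obtain ⟨P, h7, h8⟩ := lift_sum _ P0 Finset.univ X h5
  obtain ⟨N, h9, h10⟩ := lift_sum _ N0 Finset.univ Y h6
  set n := Fintype.card G with hn
  have hWi : ∀ i, W i = (P i).map (fun x => x • g) + (N i).map (fun x => x • (-g)) + T i := by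
    intro i
    rw [h1 i (Finset.mem_univ i), h4 i (Finset.mem_univ i), h7 i (Finset.mem_univ i),
      h9 i (Finset.mem_univ i)]
  have hPle : ∀ i, P i ≤ X := fun i => by
    rw [← h8]; exact Finset.single_le_sum (fun _ _ => Multiset.zero_le _) (Finset.mem_univ i)
  have hNle : ∀ i, N i ≤ Y := fun i => by
    rw [← h10]; exact Finset.single_le_sum (fun _ _ => Multiset.zero_le _) (Finset.mem_univ i)
  have hsle : ∀ {A B : Multiset ℕ}, A ≤ B → A.sum ≤ B.sum := by
    intro A B h
    obtain ⟨R, rfl⟩ := Multiset.le_iff_exists_add.mp h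
    rw [Multiset.sum_add]; omega
  have hPn : ∀ i, (P i).sum ≤ n := fun i => by rw [← hXs]; exact hsle (hPle i)
  have hNn : ∀ i, (N i).sum ≤ n := fun i => by rw [← hYs]; exact hsle (hNle i)
  set a : Fin m → ℤ := fun i => ((P i).sum : ℤ) - ((N i).sum : ℤ) with ha
  have hasum : ∀ i, a i • g + (T i).sum = 0 := by
    intro i
    have h11 := (hW i).2.1
    rw [hWi i, Multiset.sum_add, Multiset.sum_add, sum_map_smul, sum_map_neg_smul] at h11
    rw [ha]
    simp only [sub_smul, natCast_zsmul]
    rw [← h11]; abel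
  set J : Finset (Fin m) := Finset.univ.filter (fun i => T i ≠ 0) with hJdef
  have hnJ : ∀ i, i ∉ J → T i = 0 := by
    intro i hi
    by_contra hne
    exact hi (Finset.mem_filter.mpr ⟨Finset.mem_univ i, hne⟩)
  have hout : ∀ i, i ∉ J → a i = 0 ∧ 1 ≤ (P i).sum := by
    intro i hi
    have hT := hnJ i hi
    have h11 := hasum i
    rw [hT, Multiset.sum_zero, add_zero, ← addOrderOf_dvd_iff_zsmul_eq_zero, hg] at h11
    have hPi := hPn i
    have hNi := hNn i
    have hWne := (hW i).1
    have hWi' := hWi i
    rw [hT, add_zero] at hWi'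
    have hnpos : 0 < n := Fintype.card_pos
    have hP0 : (P i).sum = 0 → P i = 0 := by
      intro h
      by_contra hne
      have := pos_sum (hPle i) hX hne
      omega
    have hN0 : (N i).sum = 0 → N i = 0 := by
      intro h
      by_contra hne
      have := pos_sum (hNle i) hY hne
      omega
    have hai : a i = ((P i).sum : ℤ) - ((N i).sum : ℤ) := rfl
    obtain ⟨c, hc⟩ := h11
    have hc3 : c = 0 ∨ c = 1 ∨ c = -1 := by
      by_contra hne
      push Not at hne
      obtain ⟨hc0, hc1, hc2⟩ := hne
      have hn0 : (0 : ℤ) < n := by exact_mod_cast hnpos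
      rcases lt_or_gt_of_ne hc0 with h | h
      · have : (n : ℤ) * c ≤ n * (-2) := by
          apply mul_le_mul_of_nonneg_left <;> omega
        omega
      · have : (n : ℤ) * 2 ≤ n * c := by
          apply mul_le_mul_of_nonneg_left <;> omega
        omega
    rcases hc3 with h | h | h
    · rw [h, mul_zero] at hc
      refine ⟨hc, ?_⟩
      by_contra hlt
      have hPz : (P i).sum = 0 := by omega
      have hNz : (N i).sum = 0 := by omega
      rw [hP0 hPz, hN0 hNz, Multiset.map_zero, Multiset.map_zero, add_zero] at hWi'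
      exact hWne hWi'
    · exfalso
      rw [h, mul_one] at hc
      have h12 : (P i).sum = n := by omega
      have h13 : (N i).sum = 0 := by omega
      rw [eq_of_le_of_sum (hPle i) hX (h12.trans hXs.symm), hN0 h13, Multiset.map_zero, add_zero] at hWi'
      exact hW1 i hWi'
    · exfalso
      rw [h] at hc
      have h12 : (N i).sum = n := by omega
      have h13 : (P i).sum = 0 := by omega
      rw [eq_of_le_of_sum (hNle i) hY (h12.trans hYs.symm), hP0 h13, Multiset.map_zero, zero_add] at hWi'
      exact hW2 i hWi'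
  have hPsum : ∑ i, (P i).sum = n := by
    rw [← hXs, ← h8]
    exact (map_sum (Multiset.sumAddMonoidHom) P Finset.univ).symm
  have hNsum : ∑ i, (N i).sum = n := by
    rw [← hYs, ← h10]
    exact (map_sum (Multiset.sumAddMonoidHom) N Finset.univ).symm
  have hatot : ∑ i, a i = 0 := by
    rw [ha, Finset.sum_sub_distrib, ← Nat.cast_sum, ← Nat.cast_sum, hPsum, hNsum, sub_self]
  have haJ : ∑ i ∈ J, a i = 0 := by
    rw [← hatot]
    apply Finset.sum_subset (Finset.subset_univ J)
    intro i _ hi
    exact (hout i hi).1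
  have hJne : J.Nonempty := by
    rw [Finset.nonempty_iff_ne_empty]
    intro h
    apply hU.1
    rw [← h3]
    apply Finset.sum_eq_zero
    intro i _
    exact hnJ i (by rw [h]; simp)
  have hK : ∀ K ⊆ J, K.Nonempty → ∑ i ∈ K, a i = 0 → K = J := by
    intro K hKJ hKne hKs
    have hTK : (∑ i ∈ K, T i).sum = 0 := by
      have h11 : (∑ i ∈ K, T i).sum = ∑ i ∈ K, (T i).sum := map_sum (Multiset.sumAddMonoidHom) T K
      have h12 : ∑ i ∈ K, (a i • g + (T i).sum) = 0 := Finset.sum_eq_zero (fun i _ => hasum i)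
      rw [Finset.sum_add_distrib, ← Finset.sum_smul, hKs, zero_smul, zero_add] at h12
      rw [h11, h12]
    have hsplit : ∑ i ∈ K, T i + ∑ i ∈ Kᶜ, T i = U := by
      rw [Finset.sum_add_sum_compl, h3]
    have hle : ∑ i ∈ K, T i ≤ U := by
      rw [← hsplit]; exact Multiset.le_add_right _ _
    obtain ⟨k, hk⟩ := hKne
    have hne : ∑ i ∈ K, T i ≠ 0 := by
      intro h
      have h11 : T k ≤ ∑ i ∈ K, T i := Finset.single_le_sum (fun _ _ => Multiset.zero_le _) hk
      rw [h] at h11
      exact (Finset.mem_filter.mp (hKJ hk)).2 (Multiset.le_zero.mp h11)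
    have heq := hU.2.2 _ hle hne hTK
    rw [heq] at hsplit
    have hz : ∑ i ∈ Kᶜ, T i = 0 := add_eq_left.mp hsplit
    apply Finset.Subset.antisymm hKJ
    intro j hj
    by_contra hjK
    have h11 : T j ≤ ∑ i ∈ Kᶜ, T i := 
      Finset.single_le_sum (fun _ _ => Multiset.zero_le _) (Finset.mem_compl.mpr hjK)
    rw [hz] at h11
    exact (Finset.mem_filter.mp hj).2 (Multiset.le_zero.mp h11)
  have hfin := int_lemma J hJne a haJ hK (fun i => (P i).sum) (fun i _ => by
    simp only [ha]; omega)
  have hsplit2 : ∑ i ∈ J, (P i).sum + ∑ i ∈ Jᶜ, (P i).sum = n := by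
    rw [Finset.sum_add_sum_compl, hPsum]
  have hcompl : Jᶜ.card ≤ ∑ i ∈ Jᶜ, (P i).sum := by
    have := Finset.card_nsmul_le_sum Jᶜ (fun i => (P i).sum) 1 (fun i hi =>
      (hout i (Finset.mem_compl.mp hi)).2)
    simpa using this
  have hcc := Finset.card_add_card_compl J
  rw [Fintype.card_fin] at hcc
  omega
end beta

section final
variable {G : Type} [AddCommGroup G]

theorem two_le_card {S : Multiset G} (hS : MZ S) (h0 : (0 : G) ∉ S) : 2 ≤ Multiset.card S := by
  by_contra hlt
  have h1 : Multiset.card S ≠ 0 := fun h => hS.1 (Multiset.card_eq_zero.mp h)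
  have h2 : Multiset.card S = 1 := by omega
  obtain ⟨a, rfl⟩ := Multiset.card_eq_one.mp h2
  have := hS.2.1
  rw [Multiset.sum_singleton] at this
  exact h0 (by simp [this])

theorem two_mul_length (l : List (Multiset G)) (hl : ∀ S ∈ l, MZ S) (h0 : (0 : G) ∉ l.sum) :
    2 * l.length ≤ Multiset.card l.sum := by
  induction l with
  | nil => simp
  | cons S l ih =>
    rw [List.sum_cons, Multiset.mem_add, not_or] at h0
    have h1 := ih (fun T hT => hl T (List.mem_cons_of_mem S hT)) h0.2
    have h2 := two_le_card (hl S List.mem_cons_self) h0.1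
    rw [List.length_cons, List.sum_cons, Multiset.card_add]
    omega

theorem mem_erase_bound [DecidableEq G] (l : List (Multiset G)) (hl : ∀ S ∈ l, MZ S)
    (h0 : (0 : G) ∉ l.sum) (S : Multiset G) (hS : S ∈ l) :
    2 * l.length + Multiset.card S ≤ Multiset.card l.sum + 2 := by
  have hp := List.perm_cons_erase hS
  have h1 : l.sum = S + (l.erase S).sum := by
    rw [hp.sum_eq, List.sum_cons]
  have h2 : l.length = (l.erase S).length + 1 := by
    rw [hp.length_eq, List.length_cons]
  have h3 := two_mul_length (l.erase S) (fun T hT => hl T (List.mem_of_mem_erase hT)) (by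
    rw [h1, Multiset.mem_add, not_or] at h0
    exact h0.2)
  rw [h1, Multiset.card_add, h2]
  omega

theorem count_atom (K : G → Prop) [DecidablePred K] (hK : ∀ a b, K a → K b → a + b ≠ 0)
    {S : Multiset G} (hS : MZ S) (h0 : (0 : G) ∉ S) :
    3 ≤ Multiset.card S + Multiset.countP (fun a => ¬ K a) S := by
  have h2 := two_le_card hS h0
  by_cases h3 : Multiset.card S = 2
  · obtain ⟨a, b, rfl⟩ := Multiset.card_eq_two.mp h3
    have hs : a + b = 0 := by
      have := hS.2.1
      simpa using this
    have h4 : 0 < Multiset.countP (fun a => ¬ K a) {a, b} := by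
      rw [Multiset.countP_pos]
      by_contra hcon
      push Not at hcon
      exact hK a b (hcon a (by simp)) (hcon b (by simp)) hs
    omega
  · omega

theorem count_list (K : G → Prop) [DecidablePred K] (hK : ∀ a b, K a → K b → a + b ≠ 0)
    (l : List (Multiset G)) (hl : ∀ S ∈ l, MZ S) (h0 : (0 : G) ∉ l.sum) :
    3 * l.length ≤ Multiset.card l.sum + Multiset.countP (fun a => ¬ K a) l.sum := by
  induction l with
  | nil => simp
  | cons S l ih =>
    rw [List.sum_cons, Multiset.mem_add, not_or] at h0
    have h1 := ih (fun T hT => hl T (List.mem_cons_of_mem S hT)) h0.2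
    have h2 := count_atom K hK (hl S List.mem_cons_self) h0.1
    rw [List.length_cons, List.sum_cons, Multiset.card_add, Multiset.countP_add]
    omega

theorem count_idx (K : G → Prop) [DecidablePred K] (g : G) (hg : K g) (X : Multiset ℕ)
    (hX : ∀ x ∈ X, 1 ≤ x) :
    Multiset.card (X.map (fun x => x • g)) + Multiset.countP (fun a => ¬ K a) (X.map (fun x => x • g))
      ≤ X.sum := by
  induction X using Multiset.induction with
  | empty => simp
  | cons x X ih =>
    have h1 := ih (fun y hy => hX y (Multiset.mem_cons_of_mem hy))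
    have h2 := hX x (Multiset.mem_cons_self x X)
    rw [Multiset.map_cons, Multiset.card_cons, Multiset.countP_cons, Multiset.sum_cons]
    by_cases h3 : x = 1
    · subst h3
      have : ¬ ¬ K ((1 : ℕ) • g) := by simpa using hg
      rw [if_neg this]
      omega
    · split_ifs <;> omega

theorem beta_list [Fintype G] (g : G) (hg : addOrderOf g = Fintype.card G) (X Y : Multiset ℕ)
    (hX : ∀ x ∈ X, 1 ≤ x) (hY : ∀ y ∈ Y, 1 ≤ y) (hXs : X.sum = Fintype.card G)
    (hYs : Y.sum = Fintype.card G) (U : Multiset G) (hU : MZ U)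
    (hXM : MZ (X.map (fun x => x • g))) (hYM : MZ (Y.map (fun x => x • (-g))))
    (l : List (Multiset G)) (hl : ∀ S ∈ l, MZ S) (h0 : (0 : G) ∉ l.sum)
    (hsum : l.sum = X.map (fun x => x • g) + Y.map (fun x => x • (-g)) + U) :
    l.length ≤ Fintype.card G + 1 := by
  classical
  have hc1 := hXM.card_le
  have hc2 := hYM.card_le
  have hc3 := hU.card_le
  by_cases hm1 : X.map (fun x => x • g) ∈ l
  · have h1 := mem_erase_bound l hl h0 _ hm1
    rw [hsum, Multiset.card_add, Multiset.card_add] at h1
    omega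
  by_cases hm2 : Y.map (fun x => x • (-g)) ∈ l
  · have h1 := mem_erase_bound l hl h0 _ hm2
    rw [hsum, Multiset.card_add, Multiset.card_add] at h1
    omega
  refine beta_lemma g hg X Y hX hY hXs hYs U hU (fun i : Fin l.length => l.get i)
    (fun i => hl _ (List.get_mem l i)) (fun i h => hm1 (h ▸ List.get_mem l i))
    (fun i h => hm2 (h ▸ List.get_mem l i)) ?_
  rw [← hsum, ← List.sum_ofFn, List.ofFn_get]

theorem cyc_two_big [Fintype G] (hn : 3 ≤ Fintype.card G) (U1 U2 U3 : Multiset G) (hU1 : MZ U1)
    (hU2 : MZ U2) (hU3 : MZ U3) (b1 : Fintype.card G + 3 ≤ 2 * Multiset.card U1)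
    (b2 : Fintype.card G + 3 ≤ 2 * Multiset.card U2)
    (l : List (Multiset G)) (hl : ∀ S ∈ l, MZ S) (h0 : (0 : G) ∉ l.sum)
    (hsum : l.sum = U1 + U2 + U3) : l.length ≤ Fintype.card G + 1 := by
  classical
  obtain ⟨g1, X1, hX1, hU1X, hs1, ho1⟩ := long_atom U1 hU1 b1
  obtain ⟨g2, X2, hX2, hU2X, hs2, ho2⟩ := long_atom U2 hU2 b2
  have hself : ∀ g : G, addOrderOf g = Fintype.card G → g + g ≠ 0 := by
    intro g hg h
    rw [← two_nsmul, ← addOrderOf_dvd_iff_nsmul_eq_zero, hg] at h
    have := Nat.le_of_dvd (by norm_num) h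
    omega
  by_cases h12 : g2 = -g1
  · subst h12
    exact beta_list g1 ho1 X1 X2 hX1 hX2 hs1 hs2 U3 hU3 (hU1X ▸ hU1) (hU2X ▸ hU2) l hl h0
      (by rw [hsum, hU1X, hU2X])
  have h12' : g1 + g2 ≠ 0 := fun h => h12 (eq_neg_of_add_eq_zero_right h)
  have h21' : g2 + g1 ≠ 0 := by rw [add_comm]; exact h12'
  by_cases b3 : Fintype.card G + 3 ≤ 2 * Multiset.card U3
  · obtain ⟨g3, X3, hX3, hU3X, hs3, ho3⟩ := long_atom U3 hU3 b3
    by_cases h13 : g3 = -g1
    · subst h13
      exact beta_list g1 ho1 X1 X3 hX1 hX3 hs1 hs3 U2 hU2 (hU1X ▸ hU1) (hU3X ▸ hU3) l hl h0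
        (by rw [hsum, ← hU1X, ← hU3X]; abel)
    by_cases h23 : g3 = -g2
    · subst h23
      exact beta_list g2 ho2 X2 X3 hX2 hX3 hs2 hs3 U1 hU1 (hU2X ▸ hU2) (hU3X ▸ hU3) l hl h0
        (by rw [hsum, ← hU2X, ← hU3X]; abel)
    have h13' : g1 + g3 ≠ 0 := fun h => h13 (eq_neg_of_add_eq_zero_right h)
    have h23' : g2 + g3 ≠ 0 := fun h => h23 (eq_neg_of_add_eq_zero_right h)
    have h31' : g3 + g1 ≠ 0 := by rw [add_comm]; exact h13'
    have h32' : g3 + g2 ≠ 0 := by rw [add_comm]; exact h23'
    have hc := count_list (fun a => a = g1 ∨ a = g2 ∨ a = g3) (by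
      rintro a b (rfl | rfl | rfl) (rfl | rfl | rfl)
      · exact hself _ ho1
      · exact h12'
      · exact h13'
      · exact h21'
      · exact hself _ ho2
      · exact h23'
      · exact h31'
      · exact h32'
      · exact hself _ ho3) l hl h0
    have e1 := count_idx (fun a => a = g1 ∨ a = g2 ∨ a = g3) g1 (by simp) X1 hX1
    have e2 := count_idx (fun a => a = g1 ∨ a = g2 ∨ a = g3) g2 (by simp) X2 hX2
    have e3 := count_idx (fun a => a = g1 ∨ a = g2 ∨ a = g3) g3 (by simp) X3 hX3
    rw [← hU1X] at e1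
    rw [← hU2X] at e2
    rw [← hU3X] at e3
    rw [hsum, Multiset.card_add, Multiset.card_add, Multiset.countP_add, Multiset.countP_add] at hc
    omega
  · have hc := count_list (fun a => a = g1 ∨ a = g2) (by
      rintro a b (rfl | rfl) (rfl | rfl)
      · exact hself _ ho1
      · exact h12'
      · exact h21'
      · exact hself _ ho2) l hl h0
    have e1 := count_idx (fun a => a = g1 ∨ a = g2) g1 (by simp) X1 hX1
    have e2 := count_idx (fun a => a = g1 ∨ a = g2) g2 (by simp) X2 hX2
    rw [← hU1X] at e1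
    rw [← hU2X] at e2
    have e3 := Multiset.countP_le_card (fun a => ¬ (a = g1 ∨ a = g2)) U3
    rw [hsum, Multiset.card_add, Multiset.card_add, Multiset.countP_add, Multiset.countP_add] at hc
    omega

theorem zero_case (D : ℕ) (hD : 2 ≤ D) (U1 U2 U3 : Multiset G) (hU1 : MZ U1) (hU2 : MZ U2)
    (hU3 : MZ U3) (c1 : Multiset.card U1 ≤ D) (c2 : Multiset.card U2 ≤ D)
    (c3 : Multiset.card U3 ≤ D) (l : List (Multiset G)) (hl : ∀ S ∈ l, MZ S)
    (h0 : (0 : G) ∈ l.sum) (hsum : l.sum = U1 + U2 + U3) : l.length ≤ D + 1 := by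
  classical
  have hz : ∀ S : Multiset G, MZ S → (0 : G) ∈ S → S = {0} := by
    intro S hS h
    exact (hS.2.2 {0} (Multiset.singleton_le.mpr h) (by simp) (by simp)).symm
  have hlow : ∀ S : Multiset G, MZ S → 2 ≤ Multiset.card S + Multiset.count 0 S := by
    intro S hS
    by_cases h : (0 : G) ∈ S
    · rw [hz S hS h]; simp
    · have := two_le_card hS h
      omega
  have hlist : ∀ l : List (Multiset G), (∀ S ∈ l, MZ S) →
      2 * l.length ≤ Multiset.card l.sum + Multiset.count 0 l.sum := by
    intro l hl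
    induction l with
    | nil => simp
    | cons S l ih =>
      have h1 := ih (fun T hT => hl T (List.mem_cons_of_mem S hT))
      have h2 := hlow S (hl S List.mem_cons_self)
      rw [List.length_cons, List.sum_cons, Multiset.card_add, Multiset.count_add]
      omega
  have hup : ∀ S : Multiset G, MZ S → Multiset.card S ≤ D →
      Multiset.card S + Multiset.count 0 S ≤ D ∧ ((0 : G) ∈ S → Multiset.card S + Multiset.count 0 S = 2) := by
    intro S hS hc
    by_cases h : (0 : G) ∈ S
    · rw [hz S hS h]; simp; omega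
    · rw [Multiset.count_eq_zero_of_notMem h]
      exact ⟨by omega, fun h' => absurd h' h⟩
  have hh := hlist l hl
  have u1 := hup U1 hU1 c1
  have u2 := hup U2 hU2 c2
  have u3 := hup U3 hU3 c3
  rw [hsum, Multiset.card_add, Multiset.card_add, Multiset.count_add, Multiset.count_add] at hh
  rw [hsum, Multiset.mem_add, Multiset.mem_add] at h0
  rcases h0 with (h | h) | h
  · have := u1.2 h; omega
  · have := u2.2 h; omega
  · have := u3.2 h; omega

theorem cyc_upper [Fintype G] (hn : 3 ≤ Fintype.card G) (U1 U2 U3 : Multiset G) (hU1 : MZ U1)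
    (hU2 : MZ U2) (hU3 : MZ U3) (l : List (Multiset G)) (hl : ∀ S ∈ l, MZ S)
    (hsum : l.sum = U1 + U2 + U3) (hcyc : IsAddCyclic G) : l.length ≤ Fintype.card G + 1 := by
  by_cases h0 : (0 : G) ∈ l.sum
  · exact zero_case _ (by omega) U1 U2 U3 hU1 hU2 hU3 hU1.card_le hU2.card_le hU3.card_le l hl h0 hsum
  by_contra hcon
  have h2 := two_mul_length l hl h0
  rw [hsum, Multiset.card_add, Multiset.card_add] at h2
  have c1 := hU1.card_le
  have c2 := hU2.card_le
  have c3 := hU3.card_le
  by_cases b1 : Fintype.card G + 3 ≤ 2 * Multiset.card U1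
  · by_cases b2 : Fintype.card G + 3 ≤ 2 * Multiset.card U2
    · exact hcon (cyc_two_big hn U1 U2 U3 hU1 hU2 hU3 b1 b2 l hl h0 hsum)
    · have b3 : Fintype.card G + 3 ≤ 2 * Multiset.card U3 := by omega
      exact hcon (cyc_two_big hn U1 U3 U2 hU1 hU3 hU2 b1 b3 l hl h0 (by rw [hsum]; abel))
  · have b2 : Fintype.card G + 3 ≤ 2 * Multiset.card U2 := by omega
    have b3 : Fintype.card G + 3 ≤ 2 * Multiset.card U3 := by omega
    exact hcon (cyc_two_big hn U2 U3 U1 hU2 hU3 hU1 b2 b3 l hl h0 (by rw [hsum]; abel))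

theorem mz_replicate (g : G) (n : ℕ) (hn : 0 < n) (hg : addOrderOf g = n) :
    MZ (Multiset.replicate n g) := by
  refine ⟨?_, ?_, ?_⟩
  · intro h
    have := congrArg Multiset.card h
    rw [Multiset.card_replicate, Multiset.card_zero] at this
    omega
  · rw [Multiset.sum_replicate, ← hg, addOrderOf_nsmul_eq_zero]
  · intro T hT hT0 hTs
    obtain ⟨k, hk, rfl⟩ := Multiset.le_replicate_iff.mp hT
    rw [Multiset.sum_replicate, ← addOrderOf_dvd_iff_nsmul_eq_zero, hg] at hTs
    have hk0 : k ≠ 0 := by
      intro h; rw [h] at hT0; simp at hT0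
    have := Nat.le_of_dvd (by omega) hTs
    have : k = n := by omega
    rw [this]

theorem cyc_dir [Fintype G] (hn : 3 ≤ Fintype.card G) (hcyc : IsAddCyclic G) :
    ∃ D : ℕ, (∃ S : Multiset G, MZ S ∧ Multiset.card S = D) ∧
      (∀ S : Multiset G, MZ S → Multiset.card S ≤ D) ∧
      (∀ (A : Multiset G) (m : ℕ),
        (∃ l : List (Multiset G), l.length = 3 ∧ (∀ S ∈ l, MZ S) ∧ l.sum = A) →
        (∃ l : List (Multiset G), l.length = m ∧ (∀ S ∈ l, MZ S) ∧ l.sum = A) → m ≤ D + 1) ∧
      (∃ A : Multiset G,
        (∃ l : List (Multiset G), l.length = 3 ∧ (∀ S ∈ l, MZ S) ∧ l.sum = A) ∧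
        (∃ l : List (Multiset G), l.length = D + 1 ∧ (∀ S ∈ l, MZ S) ∧ l.sum = A)) := by
  obtain ⟨g, hg⟩ := hcyc.exists_generator
  have hord : addOrderOf g = Fintype.card G := by
    rw [← Nat.card_eq_fintype_card]
    exact addOrderOf_eq_card_of_forall_mem_zmultiples hg
  have hg0 : g ≠ 0 := by
    intro h
    rw [h, addOrderOf_zero] at hord
    omega
  have hr1 := mz_replicate g (Fintype.card G) (by omega) hord
  have hr2 := mz_replicate (-g) (Fintype.card G) (by omega) (by rw [addOrderOf_neg]; exact hord)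
  refine ⟨Fintype.card G, ⟨_, hr1, by simp⟩, fun S hS => hS.card_le, ?_, ?_⟩
  · rintro A m ⟨l3, hl3, hl3', hl3s⟩ ⟨l, hlm, hl, hls⟩
    obtain ⟨U1, U2, U3, rfl⟩ := List.length_eq_three.mp hl3
    rw [← hlm]
    refine cyc_upper hn U1 U2 U3 (hl3' U1 (by simp)) (hl3' U2 (by simp)) (hl3' U3 (by simp)) l hl ?_ hcyc
    rw [hls, ← hl3s]; simp [add_assoc]
  · refine ⟨(Fintype.card G + 1) • ({g, -g} : Multiset G),
      ⟨[{g, -g}, Multiset.replicate (Fintype.card G) g, Multiset.replicate (Fintype.card G) (-g)], rfl, ?_, ?_⟩,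
      ⟨List.replicate (Fintype.card G + 1) {g, -g}, by simp, ?_, by simp⟩⟩
    · intro S hS
      simp only [List.mem_cons, List.not_mem_nil, or_false] at hS
      rcases hS with rfl | rfl | rfl
      · exact mz_pair g hg0
      · exact hr1
      · exact hr2
    · have h1 : ({g, -g} : Multiset G) = {g} + {-g} := rfl
      rw [List.sum_cons, List.sum_cons, List.sum_cons, List.sum_nil, add_zero,
        ← Multiset.nsmul_singleton, ← Multiset.nsmul_singleton, h1, ← nsmul_add, succ_nsmul, add_comm]
    · intro S hS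
      rw [List.eq_of_mem_replicate hS]
      exact mz_pair g hg0

theorem klein_dir [Fintype G] (hc : Fintype.card G = 4) (h2 : ∀ x : G, x + x = 0) :
    ∃ D : ℕ, (∃ S : Multiset G, MZ S ∧ Multiset.card S = D) ∧
      (∀ S : Multiset G, MZ S → Multiset.card S ≤ D) ∧
      (∀ (A : Multiset G) (m : ℕ),
        (∃ l : List (Multiset G), l.length = 3 ∧ (∀ S ∈ l, MZ S) ∧ l.sum = A) →
        (∃ l : List (Multiset G), l.length = m ∧ (∀ S ∈ l, MZ S) ∧ l.sum = A) → m ≤ D + 1) ∧
      (∃ A : Multiset G,
        (∃ l : List (Multiset G), l.length = 3 ∧ (∀ S ∈ l, MZ S) ∧ l.sum = A) ∧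
        (∃ l : List (Multiset G), l.length = D + 1 ∧ (∀ S ∈ l, MZ S) ∧ l.sum = A)) := by
  classical
  have hneg : ∀ x : G, -x = x := fun x => neg_eq_of_add_eq_zero_left (h2 x)
  have hle : ∀ S : Multiset G, MZ S → Multiset.card S ≤ 3 := by
    intro S hS
    by_contra hlt
    have hnd : S.Nodup := by
      rw [Multiset.nodup_iff_le]
      intro a ha
      have h1 : ({a, a} : Multiset G) = S := hS.2.2 _ ha (by simp) (by simp [h2])
      rw [← h1] at hlt
      simp at hlt
    have h1 : S.toFinset.card = Multiset.card S := Multiset.toFinset_card_of_nodup hnd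
    have h3 : S.toFinset = Finset.univ := by
      rw [← Finset.card_eq_iff_eq_univ]
      have := Finset.card_le_univ S.toFinset
      omega
    have h4 : (0 : G) ∈ S := by
      rw [← Multiset.mem_toFinset, h3]; exact Finset.mem_univ _
    have h5 := hS.2.2 {0} (Multiset.singleton_le.mpr h4) (by simp) (by simp)
    rw [← h5] at hlt
    simp at hlt
  obtain ⟨a, ha⟩ : ∃ a : G, a ≠ 0 := by
    have : Nontrivial G := Fintype.one_lt_card_iff_nontrivial.mp (by omega)
    exact exists_ne 0
  obtain ⟨b, hb⟩ : ∃ b : G, b ∉ ({0, a} : Finset G) := by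
    by_contra hcon
    push Not at hcon
    have h1 : (Finset.univ : Finset G) ⊆ {0, a} := fun x _ => hcon x
    have h3 := Finset.card_le_card h1
    have h4 : ({0, a} : Finset G).card ≤ 2 := Finset.card_le_two
    rw [Finset.card_univ] at h3
    omega
  have hb0 : b ≠ 0 := fun h => hb (by simp [h])
  have hba : b ≠ a := fun h => hb (by simp [h])
  have hab : a + b ≠ 0 := by
    intro h
    have := eq_neg_of_add_eq_zero_right h
    rw [hneg] at this
    exact hba this
  have hmz3 : MZ ({a, b, a + b} : Multiset G) := by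
    have h1 := mz_ext ({a} : Multiset G) (by
      intro T hT hTs
      rcases Multiset.le_singleton.mp hT with rfl | rfl
      · rfl
      · exact absurd (by simpa using hTs) ha) b (by
      intro T hT hTs
      rcases Multiset.le_singleton.mp hT with rfl | rfl
      · exact hb0 (by simpa using hTs.symm)
      · exact hba (by simpa using hTs.symm))
    have h3 : ({a} : Multiset G).map (fun a => -a) + {b, ({a} : Multiset G).sum - b} = {a, b, a + b} := by
      rw [Multiset.map_singleton, hneg, Multiset.sum_singleton, sub_eq_add_neg, hneg]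
      rfl
    rw [h3] at h1
    exact h1
  have hpair : ∀ x : G, x ≠ 0 → MZ ({x, x} : Multiset G) := by
    intro x hx
    have := mz_pair x hx
    rwa [hneg] at this
  refine ⟨3, ⟨_, hmz3, by simp⟩, hle, ?_, ?_⟩
  · rintro A m ⟨l3, hl3, hl3', hl3s⟩ ⟨l, hlm, hl, hls⟩
    obtain ⟨U1, U2, U3, rfl⟩ := List.length_eq_three.mp hl3
    rw [← hlm]
    have hsum : l.sum = U1 + U2 + U3 := by rw [hls, ← hl3s]; simp [add_assoc]
    have hU1 := hl3' U1 (by simp)
    have hU2 := hl3' U2 (by simp)
    have hU3 := hl3' U3 (by simp)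
    by_cases h0 : (0 : G) ∈ l.sum
    · exact zero_case 3 (by omega) U1 U2 U3 hU1 hU2 hU3 (hle _ hU1) (hle _ hU2) (hle _ hU3) l hl h0 hsum
    · have h3 := two_mul_length l hl h0
      rw [hsum, Multiset.card_add, Multiset.card_add] at h3
      have := hle _ hU1
      have := hle _ hU2
      have := hle _ hU3
      omega
  · refine ⟨[{a, b, a + b}, {a, b, a + b}, {a, a}].sum, ⟨_, rfl, ?_, rfl⟩,
      ⟨[{a, a}, {a, a}, {b, b}, {a + b, a + b}], rfl, ?_, ?_⟩⟩
    · intro S hS
      simp only [List.mem_cons, List.not_mem_nil, or_false] at hS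
      rcases hS with rfl | rfl | rfl
      · exact hmz3
      · exact hmz3
      · exact hpair a ha
    · intro S hS
      simp only [List.mem_cons, List.not_mem_nil, or_false] at hS
      rcases hS with rfl | rfl | rfl | rfl
      · exact hpair a ha
      · exact hpair a ha
      · exact hpair b hb0
      · exact hpair _ hab
    · simp only [List.sum_cons, List.sum_nil, add_zero]
      have e1 : ({a, b, a + b} : Multiset G) = {a} + ({b} + {a + b}) := rfl
      have e2 : ∀ x : G, ({x, x} : Multiset G) = {x} + {x} := fun x => rfl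
      rw [e1, e2, e2, e2]
      abel

end final

end helpers

/-- For every finite abelian group G of order at least 3, ρ₃(G) = D(G)+1 if and only if G is cyclic or G ≅ C₂×C₂. Here ρ₃(G) is the largest factorization length of a zero-sum sequence that also factors into 3 minimal zero-sum sequences, and D(G) is the maximal length of a minimal zero-sum sequence. -/
theorem result :
    ∀ (G : Type) [AddCommGroup G] [Fintype G], 3 ≤ Fintype.card G →
      ((∃ D : ℕ,
          (∃ S : Multiset G, S ≠ 0 ∧ S.sum = 0 ∧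
              (∀ T : Multiset G, T ≤ S → T ≠ 0 → T.sum = 0 → T = S) ∧
              Multiset.card S = D) ∧
          (∀ S : Multiset G, S ≠ 0 → S.sum = 0 →
              (∀ T : Multiset G, T ≤ S → T ≠ 0 → T.sum = 0 → T = S) →
              Multiset.card S ≤ D) ∧
          (∀ (A : Multiset G) (m : ℕ),
              (∃ l : List (Multiset G), l.length = 3 ∧
                  (∀ S ∈ l, S ≠ 0 ∧ S.sum = 0 ∧
                    ∀ T : Multiset G, T ≤ S → T ≠ 0 → T.sum = 0 → T = S) ∧
                  l.sum = A) →
              (∃ l : List (Multiset G), l.length = m ∧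
                  (∀ S ∈ l, S ≠ 0 ∧ S.sum = 0 ∧
                    ∀ T : Multiset G, T ≤ S → T ≠ 0 → T.sum = 0 → T = S) ∧
                  l.sum = A) →
              m ≤ D + 1) ∧
          (∃ A : Multiset G,
              (∃ l : List (Multiset G), l.length = 3 ∧
                  (∀ S ∈ l, S ≠ 0 ∧ S.sum = 0 ∧
                    ∀ T : Multiset G, T ≤ S → T ≠ 0 → T.sum = 0 → T = S) ∧
                  l.sum = A) ∧
              (∃ l : List (Multiset G), l.length = D + 1 ∧
                  (∀ S ∈ l, S ≠ 0 ∧ S.sum = 0 ∧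
                    ∀ T : Multiset G, T ≤ S → T ≠ 0 → T.sum = 0 → T = S) ∧
                  l.sum = A))) ↔
        (IsAddCyclic G ∨ Nonempty (G ≃+ (ZMod 2 × ZMod 2)))) := by
  intro G _ _ hG
  constructor
  · rintro ⟨D, ⟨S, hS0, hSs, hSm, hSD⟩, hmax, hup, -⟩
    refine noncyc hG S ⟨hS0, hSs, hSm⟩ ?_ ?_
    · intro T hT
      rw [hSD]
      exact hmax T hT.1 hT.2.1 hT.2.2
    · intro A m h3 hm
      rw [hSD]
      exact hup A m h3 hm
  · intro h
    have key : ∃ D : ℕ, (∃ S : Multiset G, MZ S ∧ Multiset.card S = D) ∧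
      (∀ S : Multiset G, MZ S → Multiset.card S ≤ D) ∧
      (∀ (A : Multiset G) (m : ℕ),
        (∃ l : List (Multiset G), l.length = 3 ∧ (∀ S ∈ l, MZ S) ∧ l.sum = A) →
        (∃ l : List (Multiset G), l.length = m ∧ (∀ S ∈ l, MZ S) ∧ l.sum = A) → m ≤ D + 1) ∧
      (∃ A : Multiset G,
        (∃ l : List (Multiset G), l.length = 3 ∧ (∀ S ∈ l, MZ S) ∧ l.sum = A) ∧
        (∃ l : List (Multiset G), l.length = D + 1 ∧ (∀ S ∈ l, MZ S) ∧ l.sum = A)) := by
      rcases h with h | ⟨⟨e⟩⟩
      · exact cyc_dir hG h
      · refine klein_dir ?_ ?_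
        · rw [Fintype.card_congr e.toEquiv]; simp
        · intro x
          apply e.injective
          rw [map_add, map_zero]
          have h2 : ∀ y : ZMod 2 × ZMod 2, y + y = 0 := by decide
          exact h2 _
    obtain ⟨D, ⟨S, hS, hSD⟩, hmax, hup, hA⟩ := key
    exact ⟨D, ⟨S, hS.1, hS.2.1, hS.2.2, hSD⟩, fun T h1 h2 h3 => hmax T ⟨h1, h2, h3⟩, hup, hA⟩

end Pool.Agent.S04595
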