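import Pool.Statements.S04598
-- import your own Pool.Agent.* helpers here

set_option autoImplicit false
open scoped Classical
open Pool Pool.MP_05d622_co

namespace Pool.Agent.S04598

/-- inversion of a grid point -/
noncomputable def qpt (p : ℕ × ℕ) : EuclideanSpace ℝ (Fin 2) :=
  !₂[((p.1 : ℝ) + 1) / (((p.1 : ℝ) + 1) ^ 2 + ((p.2 : ℝ) + 1) ^ 2),
    ((p.2 : ℝ) + 1) / (((p.1 : ℝ) + 1) ^ 2 + ((p.2 : ℝ) + 1) ^ 2)]

/-- centre of the image circle of a line -/
noncomputable def cpt (p : ℕ × ℕ) : EuclideanSpace ℝ (Fin 2) :=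
  !₂[-(p.1 : ℝ) / (2 * ((p.2 : ℝ) + 1)), 1 / (2 * ((p.2 : ℝ) + 1))]

theorem qpt_inj : Function.Injective qpt := by
  rintro ⟨a, b⟩ ⟨c, d⟩ h
  have h0 : (qpt (a, b)) 0 = (qpt (c, d)) 0 := by rw [h]
  have h1 : (qpt (a, b)) 1 = (qpt (c, d)) 1 := by rw [h]
  simp only [qpt, PiLp.toLp_apply, Matrix.cons_val_zero, Matrix.cons_val_one] at h0 h1
  set N1 : ℝ := ((a : ℝ) + 1) ^ 2 + ((b : ℝ) + 1) ^ 2 with hN1
  set N2 : ℝ := ((c : ℝ) + 1) ^ 2 + ((d : ℝ) + 1) ^ 2 with hN2
  have p1 : 0 < N1 := by positivity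
  have p2 : 0 < N2 := by positivity
  have e1 : (((a : ℝ) + 1) / N1) ^ 2 + (((b : ℝ) + 1) / N1) ^ 2 = 1 / N1 := by
    field_simp; rw [hN1]
  have e2 : (((c : ℝ) + 1) / N2) ^ 2 + (((d : ℝ) + 1) / N2) ^ 2 = 1 / N2 := by
    field_simp; rw [hN2]
  have e3 : 1 / N1 = 1 / N2 := by rw [← e1, ← e2, h0, h1]
  have e4 : N1 = N2 := by
    have := e3
    field_simp at this
    linarith
  rw [e4] at h0 h1
  have h2 : (a : ℝ) + 1 = c + 1 := by
    field_simp at h0
    linarith
  have h3 : (b : ℝ) + 1 = d + 1 := by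
    field_simp at h1
    linarith
  have h4 : (a : ℝ) = c := by linarith
  have h5 : (b : ℝ) = d := by linarith
  rw [Prod.mk.injEq]
  exact ⟨by exact_mod_cast h4, by exact_mod_cast h5⟩

theorem cpt_inj : Function.Injective cpt := by
  rintro ⟨a, b⟩ ⟨c, d⟩ h
  have h0 : (cpt (a, b)) 0 = (cpt (c, d)) 0 := by rw [h]
  have h1 : (cpt (a, b)) 1 = (cpt (c, d)) 1 := by rw [h]
  simp only [cpt, PiLp.toLp_apply, Matrix.cons_val_zero, Matrix.cons_val_one] at h0 h1
  have p1 : (0 : ℝ) < (b : ℝ) + 1 := by positivity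
  have p2 : (0 : ℝ) < (d : ℝ) + 1 := by positivity
  have h5 : (b : ℝ) = d := by
    field_simp at h1
    linarith
  rw [h5] at h0
  have h4 : (a : ℝ) = c := by
    field_simp at h0
    linarith
  rw [Prod.mk.injEq]
  exact ⟨by exact_mod_cast h4, by exact_mod_cast h5⟩

theorem dist_cq (m b i : ℕ) : dist (cpt (m, b)) (qpt (i, m * (i + 1) + b)) =
    Real.sqrt (((m : ℝ) ^ 2 + 1) / (4 * ((b : ℝ) + 1) ^ 2)) := by
  rw [EuclideanSpace.dist_eq]
  congr 1
  rw [Fin.sum_univ_two, Real.dist_eq, Real.dist_eq, sq_abs, sq_abs]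
  simp only [cpt, qpt, PiLp.toLp_apply, Matrix.cons_val_zero, Matrix.cons_val_one]
  push_cast
  have p1 : (0 : ℝ) < (b : ℝ) + 1 := by positivity
  have p2 : (0 : ℝ) < ((i : ℝ) + 1) ^ 2 + ((m : ℝ) * ((i : ℝ) + 1) + b + 1) ^ 2 := by positivity
  field_simp
  ring

/-- the configuration -/
noncomputable def conf (k : ℕ) : Finset (EuclideanSpace ℝ (Fin 2)) :=
  (Finset.range k ×ˢ Finset.range (k ^ 2)).image cpt ∪
    (Finset.range k ×ˢ Finset.range (2 * k ^ 2)).image qpt

theorem conf_card_le (k : ℕ) : (conf k).card ≤ 3 * k ^ 3 := by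
  have h1 := Finset.card_union_le ((Finset.range k ×ˢ Finset.range (k ^ 2)).image cpt)
    ((Finset.range k ×ˢ Finset.range (2 * k ^ 2)).image qpt)
  rw [Finset.card_image_of_injective _ cpt_inj, Finset.card_image_of_injective _ qpt_inj,
    Finset.card_product, Finset.card_product, Finset.card_range, Finset.card_range,
    Finset.card_range] at h1
  calc (conf k).card ≤ k * k ^ 2 + k * (2 * k ^ 2) := h1
    _ = 3 * k ^ 3 := by ring

theorem conf_card_ge (k : ℕ) : k ^ 3 ≤ (conf k).card := by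
  have h1 : ((Finset.range k ×ˢ Finset.range (k ^ 2)).image cpt).card ≤ (conf k).card :=
    Finset.card_le_card Finset.subset_union_left
  rw [Finset.card_image_of_injective _ cpt_inj, Finset.card_product, Finset.card_range,
    Finset.card_range] at h1
  calc k ^ 3 = k * k ^ 2 := by ring
    _ ≤ _ := h1

theorem sup_ge (k m b : ℕ) (hm : m < k) (hb : b < k ^ 2) :
    k ≤ (conf k).sup (fun y => ((conf k).filter
      (fun z => z ≠ cpt (m, b) ∧ dist (cpt (m, b)) z = dist (cpt (m, b)) y)).card) := by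
  have hmem : ∀ i < k, qpt (i, m * (i + 1) + b) ∈ conf k := by
    intro i hi
    apply Finset.mem_union_right
    refine Finset.mem_image.mpr ⟨(i, m * (i + 1) + b), ?_, rfl⟩
    rw [Finset.mem_product, Finset.mem_range, Finset.mem_range]
    refine ⟨hi, ?_⟩
    have h1 : m * (i + 1) ≤ k * k := Nat.mul_le_mul hm.le (by omega)
    simp only
    have h2 : k * k = k ^ 2 := by ring
    omega
  have hk : 0 < k := by omega
  refine le_trans ?_ (Finset.le_sup (hmem 0 hk))
  have h1 : ((Finset.range k).image (fun i => qpt (i, m * (i + 1) + b))).card = k := by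
    rw [Finset.card_image_of_injective, Finset.card_range]
    intro i j hij
    have := qpt_inj hij
    exact (Prod.mk.inj this).1
  conv_lhs => rw [← h1]
  apply Finset.card_le_card
  intro z hz
  obtain ⟨i, hi, rfl⟩ := Finset.mem_image.mp hz
  rw [Finset.mem_filter]
  refine ⟨hmem i (Finset.mem_range.mp hi), ?_, ?_⟩
  · intro h
    have h2 := dist_cq m b i
    rw [h, dist_self] at h2
    have h3 : (0 : ℝ) < ((m : ℝ) ^ 2 + 1) / (4 * ((b : ℝ) + 1) ^ 2) := by positivity
    have h4 := Real.sqrt_pos.mpr h3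
    linarith
  · rw [dist_cq]
    have := dist_cq m b 0
    rw [this]

theorem sum_ge (k : ℕ) :
    k ^ 4 ≤ ∑ x ∈ conf k, (conf k).sup (fun y => ((conf k).filter
      (fun z => z ≠ x ∧ dist x z = dist x y)).card) := by
  have h1 : ∑ x ∈ (Finset.range k ×ˢ Finset.range (k ^ 2)).image cpt,
      (conf k).sup (fun y => ((conf k).filter (fun z => z ≠ x ∧ dist x z = dist x y)).card) ≤
      ∑ x ∈ conf k, (conf k).sup (fun y => ((conf k).filter
        (fun z => z ≠ x ∧ dist x z = dist x y)).card) :=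
    Finset.sum_le_sum_of_subset Finset.subset_union_left
  refine le_trans ?_ h1
  rw [Finset.sum_image (fun a _ b _ h => cpt_inj h)]
  calc k ^ 4 = ∑ p ∈ Finset.range k ×ˢ Finset.range (k ^ 2), k := by
        rw [Finset.sum_const, Finset.card_product, Finset.card_range, Finset.card_range]
        simp only [smul_eq_mul]; ring
    _ ≤ _ := by
        apply Finset.sum_le_sum
        rintro ⟨m, b⟩ hp
        rw [Finset.mem_product, Finset.mem_range, Finset.mem_range] at hp
        exact sup_ge k m b hp.1 hp.2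

/-- The negation of the preceding statement: There is a constant c such that for all large n, any n distinct points in the plane satisfy: the sum over points of the max number of other points at one common distance from it is less than n^(1+c/log log n). -/
theorem result :
    ¬ (∃ c : ℝ, ∃ N : ℕ, ∀ n : ℕ, N ≤ n →
      ∀ S : Finset (EuclideanSpace ℝ (Fin 2)), S.card = n →
        ((∑ x ∈ S, S.sup (fun y => (S.filter (fun z => z ≠ x ∧ dist x z = dist x y)).card) : ℕ) : ℝ)
          < (n : ℝ) ^ (1 + c / Real.log (Real.log (n : ℝ)))) := by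
  rintro ⟨c, N, h⟩
  have ht : Filter.Tendsto (fun n : ℕ => c / Real.log (Real.log (n : ℝ))) Filter.atTop (nhds 0) := by
    apply Filter.Tendsto.div_atTop tendsto_const_nhds
    exact Real.tendsto_log_atTop.comp (Real.tendsto_log_atTop.comp tendsto_natCast_atTop_atTop)
  have hev : ∀ᶠ n : ℕ in Filter.atTop, c / Real.log (Real.log (n : ℝ)) < 1 / 6 :=
    ht.eventually (gt_mem_nhds (by norm_num))
  obtain ⟨N1, hN1⟩ := Filter.eventually_atTop.mp hev
  set k := max 13 (max N N1) with hk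
  have hk13 : 13 ≤ k := le_max_left _ _
  have hkN : N ≤ k := (le_max_left _ _).trans (le_max_right _ _)
  have hkN1 : N1 ≤ k := (le_max_right _ _).trans (le_max_right _ _)
  have hkk : k ≤ k ^ 3 := by
    calc k = k ^ 1 := (pow_one k).symm
      _ ≤ k ^ 3 := Nat.pow_le_pow_right (by omega) (by norm_num)
  have hge := conf_card_ge k
  have hle := conf_card_le k
  set n := (conf k).card with hn
  have h1 := h n (by omega) (conf k) rfl
  have h2 := hN1 n (by omega)
  have h3 := sum_ge k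
  have h4 : ((k ^ 4 : ℕ) : ℝ) < (n : ℝ) ^ (1 + c / Real.log (Real.log (n : ℝ))) :=
    lt_of_le_of_lt (by exact_mod_cast h3) h1
  have hn1 : (1 : ℝ) ≤ (n : ℝ) := by
    have : 1 ≤ n := by omega
    exact_mod_cast this
  have h5 : (n : ℝ) ^ (1 + c / Real.log (Real.log (n : ℝ))) ≤ (n : ℝ) ^ ((7 : ℝ) / 6) :=
    Real.rpow_le_rpow_of_exponent_le hn1 (by linarith)
  have h6 : (n : ℝ) ^ ((7 : ℝ) / 6) ≤ (k : ℝ) ^ 4 := by
    have h7 : n ^ 7 ≤ k ^ 24 := by
      calc n ^ 7 ≤ (3 * k ^ 3) ^ 7 := Nat.pow_le_pow_left hle 7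
        _ = 2187 * k ^ 21 := by ring
        _ ≤ k ^ 3 * k ^ 21 := by
          apply Nat.mul_le_mul_right
          calc 2187 ≤ 13 ^ 3 := by norm_num
            _ ≤ k ^ 3 := Nat.pow_le_pow_left hk13 3
        _ = k ^ 24 := by ring
    have h8 : (n : ℝ) ^ (7 : ℕ) ≤ (k : ℝ) ^ (24 : ℕ) := by exact_mod_cast h7
    calc (n : ℝ) ^ ((7 : ℝ) / 6) = ((n : ℝ) ^ (7 : ℕ)) ^ ((1 : ℝ) / 6) := by
          rw [← Real.rpow_natCast, ← Real.rpow_mul (by linarith)]
          congr 1; norm_num
      _ ≤ ((k : ℝ) ^ (24 : ℕ)) ^ ((1 : ℝ) / 6) :=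
          Real.rpow_le_rpow (by positivity) h8 (by norm_num)
      _ = (k : ℝ) ^ 4 := by
          rw [← Real.rpow_natCast, ← Real.rpow_mul (by positivity), ← Real.rpow_natCast]
          congr 1; norm_num
  have h9 : ((k ^ 4 : ℕ) : ℝ) = (k : ℝ) ^ 4 := by push_cast; ring
  linarith

end Pool.Agent.S04598
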