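import Pool.Statements.S04611

set_option autoImplicit false
open Pool Pool.MP_07add5_co

namespace Pool.Agent.S04611

open Finset

/-- Counting a cylinder set in a finite product of cyclic groups. -/
theorem card_cyl {κ : Type} [Fintype κ] [DecidableEq κ] (a : κ → ℕ) [∀ o, NeZero (a o)]
    (o : κ) (S : Finset (ZMod (a o))) :
    (univ.filter (fun z : (∀ o, ZMod (a o)) => z o ∈ S)).card * a o = S.card * ∏ o, a o := by
  classical
  have h1 : univ.filter (fun z : (∀ o, ZMod (a o)) => z o ∈ S) =
      Fintype.piFinset (fun o' => if h : o' = o then (h ▸ S : Finset (ZMod (a o'))) else univ) := by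
    ext z
    rw [mem_filter, Fintype.mem_piFinset]
    constructor
    · rintro ⟨-, hz⟩ o'
      by_cases h : o' = o
      · subst h
        simpa using hz
      · simp [h]
    · intro hz
      refine ⟨mem_univ _, ?_⟩
      have := hz o
      simpa using this
  rw [h1, Fintype.card_piFinset, ← mul_prod_erase univ _ (mem_univ o),
    ← mul_prod_erase univ (fun o => a o) (mem_univ o)]
  have h2 : ∏ x ∈ univ.erase o,
      (if h : x = o then (h ▸ S : Finset (ZMod (a x))) else univ).card = ∏ x ∈ univ.erase o, a x := by
    apply prod_congr rfl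
    intro x hx
    rw [dif_neg (ne_of_mem_erase hx), card_univ, ZMod.card]
  rw [h2]
  simp
  ring

/-- Distinct large primes indexed by a finite type. -/
theorem exists_primes (κ : Type) [Fintype κ] (B : ℕ) :
    ∃ p : κ → ℕ, Function.Injective p ∧ (∀ i, (p i).Prime) ∧ ∀ i, B < p i := by
  have hinf : {q : ℕ | q.Prime ∧ B < q}.Infinite := by
    apply Set.infinite_of_forall_exists_gt
    intro b
    obtain ⟨q, hq, hp⟩ := Nat.exists_infinite_primes (max b B + 1)
    refine ⟨q, ⟨hp, ?_⟩, ?_⟩
    · have := le_max_right b B
      omega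
    · have := le_max_left b B
      omega
  let f := hinf.natEmbedding
  let g := Fintype.equivFin κ
  refine ⟨fun i => (f (g i)).1, ?_, ?_, ?_⟩
  · intro i j h
    have h1 := f.injective (Subtype.ext h)
    exact g.injective (Fin.ext h1)
  · intro i
    exact (f (g i)).2.1
  · intro i
    exact (f (g i)).2.2

/-- The Haight-Ruzsa construction for a pair of linear forms. -/
theorem haight_ruzsa {m k : ℕ} (hk : 0 < k) (u : Fin m → ℤ) (v : Fin k → ℤ)
    (H : ∀ (I : Finset (Fin k)) (ι : Fin k → Fin m), ∃ β : Fin m → ℤ,
      ∑ i, u i * β i ≠ 0 ∧ ∑ s ∈ I, v s * β (ι s) = 0) (r : ℕ) :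
    ∀ K : ℕ, ∃ N : ℕ, 0 < N ∧ ∃ (a : Fin m → ZMod N → ZMod N) (E : Finset (ZMod N)),
      (∀ x, ∑ i, (u i : ZMod N) * a i x = x) ∧ K * E.card ≤ N ∧
      ∀ (ι : Fin k → Fin m) (x : Fin k → ZMod N), (univ.image x).card ≤ r →
        ∑ s, (v s : ZMod N) * a (ι s) (x s) ∈ E := by
  classical
  choose β hβ1 hβ2 using H
  induction r with
  | zero =>
    intro K
    refine ⟨1, one_pos, fun _ _ => 0, ∅, fun x => Subsingleton.elim _ _, by simp, ?_⟩
    intro ι x hx
    exfalso
    have h1 : (univ.image x).Nonempty := by
      rw [image_nonempty]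
      exact ⟨⟨0, hk⟩, mem_univ _⟩
    have := card_pos.mpr h1
    omega
  | succ r ih =>
    intro K
    obtain ⟨N, hN, a, E, ha, hE, hbad⟩ := ih (2 * K)
    have : NeZero N := ⟨hN.ne'⟩
    let 𝓕 := ZMod N → Finset (Fin k) × (Fin k → Fin m)
    let c : Finset (Fin k) × (Fin k → Fin m) → ℤ := fun w => ∑ i, u i * β w.1 w.2 i
    have hc : ∀ w, c w ≠ 0 := fun w => hβ1 w.1 w.2
    obtain ⟨p, hpinj, hpprime, hpB⟩ := exists_primes 𝓕
      (N + 2 * K * Fintype.card 𝓕 + ∑ w, (c w).natAbs)
    have hpN : ∀ F, N < p F := fun F => by
      have := hpB F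
      omega
    have hpK : ∀ F, 2 * K * Fintype.card 𝓕 ≤ p F := fun F => by
      have := hpB F
      omega
    have hpc : ∀ F w, ((c w : ℤ) : ZMod (p F)) ≠ 0 := by
      intro F w h
      rw [ZMod.intCast_zmod_eq_zero_iff_dvd, Int.natCast_dvd] at h
      have h1 := Nat.le_of_dvd (Int.natAbs_pos.mpr (hc w)) h
      have h2 : (c w).natAbs ≤ ∑ w, (c w).natAbs :=
        single_le_sum (f := fun w => (c w).natAbs) (fun i _ => Nat.zero_le _) (mem_univ w)
      have := hpB F
      omega
    have hinv : ∀ F w, ∃ b : ZMod (p F), (c w : ZMod (p F)) * b = 1 := by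
      intro F w
      have := Fact.mk (hpprime F)
      exact ⟨_, mul_inv_cancel₀ (hpc F w)⟩
    choose ci hci using hinv
    let q : Option 𝓕 → ℕ := fun o => o.elim N p
    have hq0 : ∀ o, NeZero (q o) := by
      intro o
      rcases o with _ | F
      · exact ⟨hN.ne'⟩
      · exact ⟨(hpprime F).ne_zero⟩
    have hcop : Pairwise (Function.onFun Nat.Coprime q) := by
      intro o o' hne
      rcases o with _ | F <;> rcases o' with _ | F'
      · exact absurd rfl hne
      · exact ((Nat.Prime.coprime_iff_not_dvd (hpprime F')).mpr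
          (fun h => absurd (Nat.le_of_dvd hN h) (not_le.mpr (hpN F')))).symm
      · exact (Nat.Prime.coprime_iff_not_dvd (hpprime F)).mpr
          (fun h => absurd (Nat.le_of_dvd hN h) (not_le.mpr (hpN F)))
      · exact (Nat.coprime_primes (hpprime F) (hpprime F')).mpr
          (fun h => hne (congrArg some (hpinj h)))
    let e : ZMod (∏ o, q o) ≃+* (∀ o, ZMod (q o)) := ZMod.prodEquivPi q hcop
    have hM : 0 < ∏ o, q o := prod_pos (fun o _ => Nat.pos_of_ne_zero (hq0 o).out)
    have : NeZero (∏ o, q o) := ⟨hM.ne'⟩
    let pn : (∀ o, ZMod (q o)) → ZMod N := fun z => z none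
    let pr : (∀ o, ZMod (q o)) → (F : 𝓕) → ZMod (p F) := fun z F => z (some F)
    -- the new functions in coordinates
    let b : Fin m → (∀ o, ZMod (q o)) → (∀ o, ZMod (q o)) := fun i z o =>
      match o with
      | none => a i (pn z)
      | some F => ((β (F (pn z)).1 (F (pn z)).2 i : ℤ) : ZMod (p F)) *
          (ci F (F (pn z)) * pr z F)
    let E0 : Finset (ZMod (q none)) := E
    have hE0 : E0.card = E.card := rfl
    let Bad : Finset (∀ o, ZMod (q o)) :=
      (univ.filter (fun z : (∀ o, ZMod (q o)) => z none ∈ E0)) ∪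
      (univ : Finset 𝓕).biUnion (fun F => univ.filter (fun z : (∀ o, ZMod (q o)) =>
        z (some F) ∈ ({0} : Finset (ZMod (q (some F))))))
    refine ⟨∏ o, q o, hM, fun i x => e.symm (b i (e x)), Bad.image e.symm, ?_, ?_, ?_⟩
    · intro x
      apply e.injective
      rw [map_sum]
      simp only [map_mul, map_intCast, RingEquiv.apply_symm_apply]
      funext o
      rw [Finset.sum_apply]
      rcases o with _ | F
      · exact ha (pn (e x))
      · change ∑ i, (u i : ZMod (p F)) * (((β (F (pn (e x))).1 (F (pn (e x))).2 i : ℤ) : ZMod (p F)) *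
          (ci F (F (pn (e x))) * pr (e x) F)) = pr (e x) F
        have h1 : ∀ i, (u i : ZMod (p F)) * (((β (F (pn (e x))).1 (F (pn (e x))).2 i : ℤ) : ZMod (p F)) *
          (ci F (F (pn (e x))) * pr (e x) F)) =
          ((u i * β (F (pn (e x))).1 (F (pn (e x))).2 i : ℤ) : ZMod (p F)) *
          (ci F (F (pn (e x))) * pr (e x) F) := by
          intro i
          push_cast
          ring
        rw [sum_congr rfl (fun i _ => h1 i), ← sum_mul, ← Int.cast_sum, ← mul_assoc]
        have h2 := hci F (F (pn (e x)))
        change (c (F (pn (e x))) : ZMod (p F)) * _ * _ = _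
        rw [h2, one_mul]
    · have h1 : (Bad.image e.symm).card ≤ Bad.card := card_image_le
      have h2 : Bad.card ≤
          (univ.filter (fun z : (∀ o, ZMod (q o)) => z none ∈ E0)).card +
          ∑ F : 𝓕, (univ.filter (fun z : (∀ o, ZMod (q o)) =>
            z (some F) ∈ ({0} : Finset (ZMod (q (some F)))))).card :=
        (card_union_le _ _).trans (Nat.add_le_add_left card_biUnion_le _)
      have h3 : (univ.filter (fun z : (∀ o, ZMod (q o)) =>
          z none ∈ E0)).card * N = E.card * ∏ o, q o := by
        rw [← hE0]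
        exact card_cyl q none E0
      have h4 : ∀ F : 𝓕, (univ.filter (fun z : (∀ o, ZMod (q o)) =>
            z (some F) ∈ ({0} : Finset (ZMod (q (some F)))))).card * p F = ∏ o, q o := by
        intro F
        have := card_cyl q (some F) {0}
        rwa [card_singleton, one_mul] at this
      set c1 := (univ.filter (fun z : (∀ o, ZMod (q o)) =>
          z none ∈ E0)).card with hc1
      set cF : 𝓕 → ℕ := fun F => (univ.filter (fun z : (∀ o, ZMod (q o)) =>
            z (some F) ∈ ({0} : Finset (ZMod (q (some F)))))).card with hcF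
      set M := ∏ o, q o with hMdef
      have h5 : 2 * K * c1 ≤ M := by
        have : 2 * K * c1 * N ≤ M * N := by
          calc 2 * K * c1 * N = 2 * K * (c1 * N) := by ring
            _ = 2 * K * E.card * M := by rw [h3]; ring
            _ ≤ N * M := Nat.mul_le_mul_right _ hE
            _ = M * N := by ring
        exact Nat.le_of_mul_le_mul_right this hN
      have h6 : ∑ F, 2 * K * cF F ≤ M := by
        rcases isEmpty_or_nonempty 𝓕 with h0 | h0
        · rw [univ_eq_empty, sum_empty]
          exact Nat.zero_le _
        · have hpos : 0 < Fintype.card 𝓕 := Fintype.card_pos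
          have : Fintype.card 𝓕 * ∑ F, 2 * K * cF F ≤ Fintype.card 𝓕 * M := by
            rw [mul_sum]
            calc ∑ F : 𝓕, Fintype.card 𝓕 * (2 * K * cF F) ≤ ∑ _F : 𝓕, M := by
                  apply sum_le_sum
                  intro F _
                  calc Fintype.card 𝓕 * (2 * K * cF F) = 2 * K * Fintype.card 𝓕 * cF F := by ring
                    _ ≤ p F * cF F := Nat.mul_le_mul_right _ (hpK F)
                    _ = cF F * p F := by ring
                    _ = M := h4 F
              _ = Fintype.card 𝓕 * M := by rw [sum_const, card_univ, smul_eq_mul]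
          exact Nat.le_of_mul_le_mul_left this hpos
      rw [← mul_sum] at h6
      have h7 : 2 * (K * Bad.card) ≤ 2 * M := by
        calc 2 * (K * Bad.card) = 2 * K * Bad.card := by ring
          _ ≤ 2 * K * (c1 + ∑ F, cF F) := Nat.mul_le_mul_left _ h2
          _ = 2 * K * c1 + 2 * K * ∑ F, cF F := by ring
          _ ≤ M + M := Nat.add_le_add h5 h6
          _ = 2 * M := by ring
      have h8 : K * Bad.card ≤ M := by omega
      exact (Nat.mul_le_mul_left K h1).trans h8
    · intro ι x hx
      have hmem : ∀ z : ZMod (∏ o, q o), e z ∈ Bad → z ∈ Bad.image e.symm := by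
        intro z hz
        rw [mem_image]
        exact ⟨e z, hz, e.symm_apply_apply z⟩
      apply hmem
      rw [map_sum]
      simp only [map_mul, map_intCast, RingEquiv.apply_symm_apply]
      by_cases hy : (univ.image (fun s => pn (e (x s)))).card ≤ r
      · apply mem_union_left
        rw [mem_filter]
        refine ⟨mem_univ _, ?_⟩
        rw [Finset.sum_apply]
        exact hbad ι (fun s => pn (e (x s))) hy
      · apply mem_union_right
        rw [mem_biUnion]
        -- the class function
        let F : 𝓕 := fun w => (univ.filter (fun s => pn (e (x s)) = w), ι)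
        refine ⟨F, mem_univ _, ?_⟩
        rw [mem_filter]
        refine ⟨mem_univ _, ?_⟩
        rw [mem_singleton, Finset.sum_apply]
        -- equality of first coordinates implies equality
        have hinj : ∀ s t, pn (e (x s)) = pn (e (x t)) → x s = x t := by
          have h1 : (univ.image (fun s => pn (e (x s)))) =
              (univ.image x).image (fun z => pn (e z)) := by
            rw [image_image]
            rfl
          have h2 : ((univ.image x).image (fun z => pn (e z))).card ≤ (univ.image x).card :=
            card_image_le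
          rw [h1] at hy
          have h3 : ((univ.image x).image (fun z => pn (e z))).card = (univ.image x).card := by
            omega
          have h4 := card_image_iff.mp h3
          intro s t hst
          exact h4 (by simp) (by simp) hst
        change ∑ s, (v s : ZMod (p F)) * (((β (F (pn (e (x s)))).1 (F (pn (e (x s)))).2 (ι s) : ℤ) : ZMod (p F)) *
          (ci F (F (pn (e (x s)))) * pr (e (x s)) F)) = 0
        rw [← sum_fiberwise univ (fun s => pn (e (x s)))]
        apply sum_eq_zero
        intro w _
        rcases (univ.filter (fun s => pn (e (x s)) = w)).eq_empty_or_nonempty with h0 | ⟨s0, hs0⟩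
        · rw [h0, sum_empty]
        · have hs0' : pn (e (x s0)) = w := (mem_filter.mp hs0).2
          have h1 : ∀ s ∈ univ.filter (fun s => pn (e (x s)) = w),
              (v s : ZMod (p F)) * (((β (F (pn (e (x s)))).1 (F (pn (e (x s)))).2 (ι s) : ℤ) : ZMod (p F)) *
              (ci F (F (pn (e (x s)))) * pr (e (x s)) F)) =
              ((v s * β (F w).1 (F w).2 (ι s) : ℤ) : ZMod (p F)) *
              (ci F (F w) * pr (e (x s0)) F) := by
            intro s hs
            have hs' : pn (e (x s)) = w := (mem_filter.mp hs).2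
            have hxx : x s = x s0 := hinj s s0 (hs'.trans hs0'.symm)
            rw [hxx, hs0']
            push_cast
            ring
          rw [sum_congr rfl h1, ← sum_mul, ← Int.cast_sum]
          have h2 : ∑ s ∈ univ.filter (fun s => pn (e (x s)) = w),
              v s * β (F w).1 (F w).2 (ι s) = 0 := hβ2 _ _
          rw [h2, Int.cast_zero, zero_mul]

/-- From the construction in cyclic groups to finite sets of integers. -/
theorem exists_finset {m k : ℕ} (hk : 0 < k) (u : Fin m → ℤ) (v : Fin k → ℤ)
    (H : ∀ (I : Finset (Fin k)) (ι : Fin k → Fin m), ∃ β : Fin m → ℤ,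
      ∑ i, u i * β i ≠ 0 ∧ ∑ s ∈ I, v s * β (ι s) = 0) :
    ∃ A : Finset ℤ,
      ((Fintype.piFinset fun _ : Fin k => A).image (fun a : Fin k → ℤ => ∑ i, v i * a i)).card <
      ((Fintype.piFinset fun _ : Fin m => A).image (fun a : Fin m → ℤ => ∑ i, u i * a i)).card := by
  classical
  set V : ℕ := ∑ s, (v s).natAbs with hV
  obtain ⟨N, hN, a, E, ha, hE, hbad⟩ := haight_ruzsa hk u v H k (2 * V + 2)
  have : NeZero N := ⟨hN.ne'⟩
  let A : Finset ℤ := univ.image (fun w : Fin m × ZMod N => (((a w.1 w.2).val : ℕ) : ℤ))
  refine ⟨A, ?_⟩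
  have hlow : N ≤ ((Fintype.piFinset fun _ : Fin m => A).image
      (fun a : Fin m → ℤ => ∑ i, u i * a i)).card := by
    have h1 : (univ : Finset (ZMod N)) ⊆ (((Fintype.piFinset fun _ : Fin m => A).image
      (fun a : Fin m → ℤ => ∑ i, u i * a i))).image (fun z : ℤ => (z : ZMod N)) := by
      intro x _
      rw [mem_image]
      refine ⟨∑ i, u i * (((a i x).val : ℕ) : ℤ), ?_, ?_⟩
      · rw [mem_image]
        refine ⟨fun i => (((a i x).val : ℕ) : ℤ), ?_, rfl⟩
        rw [Fintype.mem_piFinset]
        intro i
        exact mem_image.mpr ⟨(i, x), mem_univ _, rfl⟩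
      · push_cast
        simp only [ZMod.natCast_val, ZMod.cast_id', id_eq]
        exact ha x
    calc N = (univ : Finset (ZMod N)).card := by rw [card_univ, ZMod.card]
      _ ≤ _ := card_le_card h1
      _ ≤ _ := card_image_le
  have hup : ((Fintype.piFinset fun _ : Fin k => A).image
      (fun a : Fin k → ℤ => ∑ i, v i * a i)).card ≤ E.card * (2 * V + 1) := by
    have h1 : (E ×ˢ (Finset.Icc (-(V : ℤ)) V)).card = E.card * (2 * V + 1) := by
      rw [card_product, Int.card_Icc]
      congr 1
      omega
    rw [← h1]
    apply card_le_card_of_injOn (fun z : ℤ => ((z : ZMod N), z / (N : ℤ)))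
    · intro z hz
      rw [mem_coe, mem_image] at hz
      obtain ⟨t, ht, rfl⟩ := hz
      rw [Fintype.mem_piFinset] at ht
      have ht' : ∀ s, ∃ w : Fin m × ZMod N, (((a w.1 w.2).val : ℕ) : ℤ) = t s := by
        intro s
        obtain ⟨w, -, hw⟩ := mem_image.mp (ht s)
        exact ⟨w, hw⟩
      choose w hw using ht'
      have ht0 : ∀ s, |t s| ≤ N := by
        intro s
        rw [← hw s, Nat.abs_cast]
        exact_mod_cast (ZMod.val_lt _).le
      rw [mem_coe, mem_product]
      constructor
      · have h2 := hbad (fun s => (w s).1) (fun s => (w s).2)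
          (card_image_le.trans (by rw [card_univ, Fintype.card_fin]))
        have h3 : ((∑ s, v s * t s : ℤ) : ZMod N) =
            ∑ s, (v s : ZMod N) * a (w s).1 (w s).2 := by
          push_cast
          apply sum_congr rfl
          intro s _
          rw [← hw s]
          push_cast
          simp only [ZMod.natCast_val, ZMod.cast_id', id_eq]
        change ((∑ s, v s * t s : ℤ) : ZMod N) ∈ E
        rw [h3]
        exact h2
      · have h2 : |∑ s, v s * t s| ≤ V * N := by
          calc |∑ s, v s * t s| ≤ ∑ s, |v s * t s| := abs_sum_le_sum_abs _ _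
            _ ≤ ∑ s, ((v s).natAbs : ℤ) * N := by
                apply sum_le_sum
                intro s _
                rw [abs_mul, Int.natCast_natAbs]
                exact mul_le_mul_of_nonneg_left (ht0 s) (abs_nonneg _)
            _ = V * N := by rw [← sum_mul, hV]; push_cast; rfl
        rw [abs_le] at h2
        have hN' : (0 : ℤ) < N := by exact_mod_cast hN
        change (∑ s, v s * t s) / (N : ℤ) ∈ Finset.Icc (-(V : ℤ)) V
        rw [Finset.mem_Icc]
        constructor
        · rw [Int.le_ediv_iff_mul_le hN']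
          linarith [h2.1]
        · have h3 : (∑ s, v s * t s) / (N : ℤ) ≤ (V * N : ℤ) / (N : ℤ) :=
            Int.ediv_le_ediv hN' h2.2
          rwa [Int.mul_ediv_cancel _ hN'.ne'] at h3
    · intro z _ z' _ h
      have h1 : (z : ZMod N) = (z' : ZMod N) := congrArg Prod.fst h
      have h2 : z / (N : ℤ) = z' / (N : ℤ) := congrArg Prod.snd h
      rw [ZMod.intCast_eq_intCast_iff] at h1
      have h3 : z % (N : ℤ) = z' % (N : ℤ) := h1
      rw [← Int.emod_add_mul_ediv z N, ← Int.emod_add_mul_ediv z' N, h2, h3]
  rcases Nat.eq_zero_or_pos E.card with h0 | h0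
  · rw [h0, zero_mul] at hup
    omega
  · have : E.card * (2 * V + 1) < (2 * V + 2) * E.card := by
      nlinarith
    omega

/-- The linear algebra needed for an admissible pair. -/
theorem admissible {m : ℕ} (hm : 0 < m) (u v : Fin m → ℤ) (hu : ∀ i, u i ≠ 0)
    (hgu : Finset.univ.gcd u = 1) (hgv : Finset.univ.gcd v = 1)
    (hne : ¬ ∃ σ : Equiv.Perm (Fin m), (∀ i, v i = u (σ i)) ∨ (∀ i, v i = -u (σ i)))
    (I : Finset (Fin m)) (ι : Fin m → Fin m) : ∃ β : Fin m → ℤ,
      ∑ i, u i * β i ≠ 0 ∧ ∑ s ∈ I, v s * β (ι s) = 0 := by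
  classical
  let W : Fin m → ℤ := fun i => ∑ s ∈ I with ι s = i, v s
  have hW : ∀ β : Fin m → ℤ, ∑ s ∈ I, v s * β (ι s) = ∑ i, W i * β i := by
    intro β
    rw [← sum_fiberwise I ι]
    apply sum_congr rfl
    intro i _
    change _ = (∑ s ∈ I with ι s = i, v s) * β i
    rw [sum_mul]
    apply sum_congr rfl
    intro s hs
    rw [(mem_filter.mp hs).2]
  by_cases hW0 : ∀ i, W i = 0
  · refine ⟨u, ?_, ?_⟩
    · have h1 : 0 < ∑ i, u i * u i :=
        sum_pos (fun i _ => mul_self_pos.mpr (hu i)) ⟨⟨0, hm⟩, mem_univ _⟩
      exact h1.ne'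
    · rw [hW]
      simp [hW0]
  · push Not at hW0
    obtain ⟨i0, hi0⟩ := hW0
    set WW := ∑ i, W i * W i with hWW
    set UW := ∑ i, u i * W i with hUW
    have hWWpos : 0 < WW := by
      apply sum_pos' (fun i _ => mul_self_nonneg _)
      exact ⟨i0, mem_univ _, mul_self_pos.mpr hi0⟩
    let β : Fin m → ℤ := fun i => WW * u i - UW * W i
    have hβW : ∑ i, W i * β i = 0 := by
      have h1 : ∑ i, W i * β i = WW * UW - UW * WW := by
        rw [hWW, hUW, mul_sum, mul_sum, ← sum_sub_distrib]
        apply sum_congr rfl
        intro i _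
        change W i * (WW * u i - UW * W i) = _
        rw [← hWW, ← hUW]
        ring
      rw [h1]
      ring
    refine ⟨β, ?_, by rw [hW]; exact hβW⟩
    intro hu0
    have hββ : ∑ i, β i * β i = 0 := by
      have h1 : ∑ i, β i * β i = WW * ∑ i, u i * β i - UW * ∑ i, W i * β i := by
        rw [mul_sum, mul_sum, ← sum_sub_distrib]
        apply sum_congr rfl
        intro i _
        change (WW * u i - UW * W i) * β i = _
        ring
      rw [h1, hu0, hβW]
      ring
    have hβ0 : ∀ i, WW * u i = UW * W i := by
      intro i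
      have h1 := (sum_eq_zero_iff_of_nonneg (fun i _ => mul_self_nonneg (β i))).mp hββ i (mem_univ _)
      have h2 : β i = 0 := mul_self_eq_zero.mp h1
      change WW * u i - UW * W i = 0 at h2
      linarith
    have hWne : ∀ i, W i ≠ 0 := by
      intro i h
      have := hβ0 i
      rw [h, mul_zero] at this
      rcases mul_eq_zero.mp this with h1 | h1
      · exact hWWpos.ne' h1
      · exact hu i h1
    have hsurjI : ∀ i, ∃ s ∈ I, ι s = i := by
      intro i
      by_contra hcon
      push Not at hcon
      apply hWne i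
      change ∑ s ∈ I with ι s = i, v s = 0
      rw [filter_false_of_mem (fun s hs => hcon s hs), sum_empty]
    have hsurj : Function.Surjective ι := fun i => by
      obtain ⟨s, -, hs⟩ := hsurjI i
      exact ⟨s, hs⟩
    have hbij : Function.Bijective ι := Finite.surjective_iff_bijective.mp hsurj
    let σ : Equiv.Perm (Fin m) := Equiv.ofBijective ι hbij
    have hWv : ∀ s, W (ι s) = v s := by
      intro s
      change ∑ s' ∈ I with ι s' = ι s, v s' = v s
      have hsI : s ∈ I := by
        obtain ⟨s', hs', h⟩ := hsurjI (ι s)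
        rwa [hbij.1 h] at hs'
      have : I.filter (fun s' => ι s' = ι s) = {s} := by
        ext s'
        rw [mem_filter, mem_singleton]
        constructor
        · rintro ⟨-, h⟩
          exact hbij.1 h
        · rintro rfl
          exact ⟨hsI, rfl⟩
      rw [this, sum_singleton]
    have hprop : ∀ s, WW * u (σ s) = UW * v s := by
      intro s
      have := hβ0 (ι s)
      rw [hWv] at this
      exact this
    have hg1 : univ.gcd (fun s => WW * u (σ s)) = WW := by
      rw [Finset.gcd_mul_left]
      have h1 : univ.gcd (fun s => u (σ s)) = univ.gcd u := by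
        have h2 : (univ.image σ : Finset (Fin m)) = univ := image_univ_equiv σ
        conv_rhs => rw [← h2]
        rw [gcd_image]
        rfl
      rw [h1, hgu, mul_one, Int.normalize_of_nonneg hWWpos.le]
    have hg2 : univ.gcd (fun s => UW * v s) = normalize UW := by
      rw [Finset.gcd_mul_left, hgv, mul_one]
    have habs : WW = |UW| := by
      rw [← hg1, funext hprop, hg2]
      exact (Int.abs_eq_normalize UW).symm
    apply hne
    rcases abs_choice UW with h | h
    · refine ⟨σ, Or.inl (fun s => ?_)⟩
      have h1 := hprop s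
      rw [habs, h] at h1
      have h2 : UW ≠ 0 := by
        intro h3
        rw [habs, h3, abs_zero] at hWWpos
        exact lt_irrefl _ hWWpos
      exact (mul_left_cancel₀ h2 h1).symm
    · refine ⟨σ, Or.inr (fun s => ?_)⟩
      have h1 := hprop s
      rw [habs, h] at h1
      have h2 : UW ≠ 0 := by
        intro h3
        rw [habs, h3, abs_zero] at hWWpos
        exact lt_irrefl _ hWWpos
      have h3 : UW * (v s + u (σ s)) = 0 := by linarith
      rcases mul_eq_zero.mp h3 with h4 | h4
      · exact absurd h4 h2
      · linarith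

/-- For every m ≥ 3 and all nonzero integer coefficient vectors u, v, each with gcd 1, where v is not ± a permutation of u, some finite integer set A makes the image of A^m under u·x strictly larger than under v·x. -/
theorem result :
    ∀ m : ℕ, 3 ≤ m → ∀ u v : Fin m → ℤ,
      (∀ i, u i ≠ 0) → (∀ i, v i ≠ 0) →
      Finset.univ.gcd u = 1 → Finset.univ.gcd v = 1 →
      (¬ ∃ σ : Equiv.Perm (Fin m),
          (∀ i, v i = u (σ i)) ∨ (∀ i, v i = -u (σ i))) →
      ∃ A : Finset ℤ,
        ((Fintype.piFinset fun _ : Fin m => A).image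
            (fun a : Fin m → ℤ => ∑ i, v i * a i)).card <
        ((Fintype.piFinset fun _ : Fin m => A).image
            (fun a : Fin m → ℤ => ∑ i, u i * a i)).card := by
  intro m hm u v hu _ hgu hgv hne
  exact exists_finset (by omega) u v (admissible (by omega) u v hu hgu hgv hne)

end Pool.Agent.S04611
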