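import Pool.Statements.S04613
import Pool.Agent.Helper734.FT.Sphere
import Pool.Agent.Helper734.FT.Geo
import Pool.Agent.Helper734.FT.Comb

set_option autoImplicit false
open Pool Pool.MP_07b414_co

namespace Pool.Agent.S04613

/-- For every M there is K such that any k ≥ K great circles in 3-space, no three through a common point, cut the sphere into regions where some region's area is at least M times some other region's area. -/
theorem result :
    ∀ M : ℝ, ∃ K : ℕ, ∀ k : ℕ, K ≤ k →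
      ∀ v : Fin k → EuclideanSpace ℝ (Fin 3),
        (∀ i j l : Fin k, i ≠ j → j ≠ l → i ≠ l →
          LinearIndependent ℝ ![v i, v j, v l]) →
        ∃ s t : Fin k → ℤˣ,
          0 < MeasureTheory.volume
                {x : EuclideanSpace ℝ (Fin 3) |
                  ‖x‖ ≤ 1 ∧ ∀ i, 0 < ((s i : ℤ) : ℝ) * inner ℝ (v i) x} ∧
          0 < MeasureTheory.volume
                {x : EuclideanSpace ℝ (Fin 3) |
                  ‖x‖ ≤ 1 ∧ ∀ i, 0 < ((t i : ℤ) : ℝ) * inner ℝ (v i) x} ∧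
          ENNReal.ofReal M * MeasureTheory.volume
                {x : EuclideanSpace ℝ (Fin 3) |
                  ‖x‖ ≤ 1 ∧ ∀ i, 0 < ((t i : ℤ) : ℝ) * inner ℝ (v i) x}
            ≤ MeasureTheory.volume
                {x : EuclideanSpace ℝ (Fin 3) |
                  ‖x‖ ≤ 1 ∧ ∀ i, 0 < ((s i : ℤ) : ℝ) * inner ℝ (v i) x} := by
  intro M0
  set M : ℝ := max M0 1 with hMdef
  have hM : 1 ≤ M := le_max_right _ _
  have h2M : 1 ≤ 2 * M := by linarith
  obtain ⟨T, hT, hgeo⟩ := Pool.Agent.Helper734.FT.geo (2 * M) h2M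
  obtain ⟨R, hR, hcomb⟩ := Pool.Agent.Helper734.FT.comb (2 * M) T h2M hT
  obtain ⟨Z, hZ, hZgeo⟩ := hgeo R hR
  obtain ⟨K, hK⟩ := Pool.Agent.Helper734.FT.to_flat M Z hM hZ
  refine ⟨max K 9, fun k hk v hv => ?_⟩
  have hk1 : K ≤ k := le_trans (le_max_left _ _) hk
  have hk2 : 9 ≤ k := le_trans (le_max_right _ _) hk
  by_contra hneg
  push Not at hneg
  obtain ⟨p, q, r, i0, j0, cs, sn, hNF, hvol⟩ := Pool.Agent.Helper734.FT.normal_form hk2 v hv
  have key : ∀ σ τ : Fin k → ℤˣ, 0 < MeasureTheory.volume (Pool.Agent.Helper734.FT.cell3 p q r σ) → 0 < MeasureTheory.volume (Pool.Agent.Helper734.FT.cell3 p q r τ) →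
        MeasureTheory.volume (Pool.Agent.Helper734.FT.cell3 p q r σ) < ENNReal.ofReal M * MeasureTheory.volume (Pool.Agent.Helper734.FT.cell3 p q r τ) := by
    intro σ τ h1 h2
    obtain ⟨σ', hσ⟩ := hvol σ
    obtain ⟨τ', hτ⟩ := hvol τ
    rw [← hσ] at h1 ⊢
    rw [← hτ] at h2 ⊢
    refine lt_of_lt_of_le (hneg σ' τ' h1 h2) ?_
    exact mul_le_mul_left (ENNReal.ofReal_le_ofReal (le_max_left _ _)) _
  obtain ⟨ι, hι, s, b, hcfg, hsep, hV⟩ := hK k hk1 p q r i0 j0 cs sn hNF key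
  obtain ⟨L, hL⟩ := hZgeo ι s b hcfg hsep hV
  exact hcomb ι L s b hL

end Pool.Agent.S04613
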