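import Pool.Statements.S04621
import Pool.Agent.Helper852.K.Final

set_option autoImplicit false
open Pool Pool.MP_086921_co

namespace Pool.Agent.S04621

/-- For every k there is N such that for all n ≥ N, any k graphs on n vertices each with at most n−k edges can be relabeled by permutations of the vertex set so that no two share an edge. -/
theorem result :
    ∀ k : ℕ, ∃ N : ℕ, ∀ n : ℕ, N ≤ n →
      ∀ G : Fin k → SimpleGraph (Fin n),
        (∀ i, Nat.card (G i).edgeSet ≤ n - k) →
        ∃ σ : Fin k → Equiv.Perm (Fin n),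
          ∀ i j : Fin k, i ≠ j →
            Disjoint ((G i).map (σ i).toEmbedding) ((G j).map (σ j).toEmbedding) := by
  intro k
  obtain ⟨N, hN⟩ := Pool.Agent.Helper852.K.family_pack k
  refine ⟨N, fun n hn G hG => ?_⟩
  classical
  obtain ⟨σ, hσ⟩ := hN n hn G (fun i => by
    have h := hG i
    rw [Nat.card_eq_fintype_card, ← SimpleGraph.edgeFinset_card] at h
    convert h)
  refine ⟨σ, fun i j hij => ?_⟩
  rw [disjoint_iff_inf_le]
  intro x y hxy
  obtain ⟨h1, h2⟩ := hxy
  exfalso
  have key : ∀ i, ((G i).map (σ i).toEmbedding).Adj x y →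
      (G i).Adj ((σ i).symm x) ((σ i).symm y) := by
    intro i h
    rw [SimpleGraph.map_adj] at h
    obtain ⟨u, v, huv, hu, hv⟩ := h
    rw [← hu, ← hv]
    simpa using huv
  exact hσ i j hij x y (key i h1) (key j h2)

end Pool.Agent.S04621
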