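import Pool.Statements.S04632

set_option autoImplicit false
open Pool Pool.MP_0959cd_co

namespace Pool.Agent.S04632

/-- Parent of a leaf (leaves are 3..12; 3..7 below vertex 1, 8..12 below vertex 2; root is 0). -/
def par (x : Fin 13) : Fin 13 := if x.val < 8 then 1 else 2

/-- Scaled arc weights (unit 1/20) of the half digraph on 13 vertices. -/
def q (x y : Fin 13) : ℕ :=
  if x.val = 0 then (if y.val = 1 ∨ y.val = 2 then 10 else 0)
  else if x.val ≤ 2 then (if 3 ≤ y.val ∧ par y = x then 4 else 0)
  else (if y.val = 0 then 5 else if y = par x then 15 else 0)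

lemma q_out : ∀ x : Fin 13, ∑ y, q x y = 20 := by decide

lemma q_le : ∀ x y : Fin 13, q x y ≤ 20 := by decide

lemma q_self : ∀ x : Fin 13, q x x = 0 := by decide

lemma q_pred_leaf : ∀ x y : Fin 13, q x y ≠ 0 → 3 ≤ y.val → x = par y := by decide

lemma q_succ_leaf : ∀ x y : Fin 13, q x y ≠ 0 → 3 ≤ x.val → y = 0 ∨ y = par x := by decide

lemma q_pred_mid : ∀ x y : Fin 13, q x y ≠ 0 → y.val < 3 → y ≠ 0 →
    x = 0 ∨ (3 ≤ x.val ∧ par x = y) := by decide

lemma q_three : ∀ x y : Fin 13, q x y ≠ 0 → x.val < 3 → y.val < 3 → x = 0 ∧ y ≠ 0 := by decide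

lemma par_lt : ∀ y : Fin 13, (par y).val < 3 ∧ par y ≠ 0 := by decide

lemma two_sum : ∀ x y : Fin 13, q x y ≠ 0 → q y x ≠ 0 → q x y + q y x < 20 := by decide

lemma three_sum : ∀ x y : Fin 13, q x y ≠ 0 → ∀ z : Fin 13, q y z ≠ 0 → q z x ≠ 0 →
    q x y + q y z + q z x < 20 := by decide

/-- Every directed cycle of the half digraph has length two or three. -/
lemma len (k : ℕ) (c : Fin (k + 2) → Fin 13) (hinj : Function.Injective c)
    (hadj : ∀ i, q (c i) (c (i + 1)) ≠ 0) : k = 0 ∨ k = 1 := by
  set d : ℕ → Fin 13 := fun n => c (Fin.ofNat (k + 2) n) with hd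
  have hstep : ∀ n, q (d n) (d (n + 1)) ≠ 0 := by
    intro n
    have h := hadj (Fin.ofNat (k + 2) n)
    have e : Fin.ofNat (k + 2) n + 1 = Fin.ofNat (k + 2) (n + 1) := by
      apply Fin.ext
      simp [Fin.ofNat, Fin.val_add]
    rw [e] at h
    exact h
  have hper : ∀ m n, d m = d n → m % (k + 2) = n % (k + 2) := by
    intro m n h
    have h2 := hinj h
    have h3 := congrArg Fin.val h2
    simpa [Fin.ofNat] using h3
  have hdiv : ∀ m t, d m = d (m + t) → (k + 2) ∣ t := by
    intro m t h
    have h1 := hper _ _ h
    exact (Nat.modEq_iff_dvd' (Nat.le_add_right m t)).1 h1 |> (by simpa using ·)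
  -- there is a leaf at a position n + 3
  have hleaf : ∃ n, 3 ≤ (d (n + 3)).val := by
    by_contra hcon
    push Not at hcon
    have a := hstep 3
    have b := hstep 4
    have h3 := hcon 0
    have h4 := hcon 1
    have h5 := hcon 2
    norm_num at h3 h4 h5 a b
    have e1 := q_three _ _ a h3 h4
    have e2 := q_three _ _ b h4 h5
    exact e1.2 e2.1
  obtain ⟨n, hn⟩ := hleaf
  have s2 := hstep (n + 2)
  have s3 := hstep (n + 3)
  have s1 := hstep (n + 1)
  have s0 := hstep n
  have hp2 : d (n + 2) = par (d (n + 3)) := q_pred_leaf _ _ s2 hn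
  rcases q_succ_leaf _ _ s3 hn with h4 | h4
  · -- d (n+4) = 0
    have hm := par_lt (d (n + 3))
    rw [← hp2] at hm
    rcases q_pred_mid _ _ s1 hm.1 hm.2 with h1 | ⟨h1, h1'⟩
    · -- d (n+1) = 0 = d (n+4)
      have : d (n + 1) = d (n + 1 + 3) := by
        rw [h1]; exact h4.symm
      have h3 := hdiv _ _ this
      have := Nat.le_of_dvd (by norm_num) h3
      omega
    · -- d (n+1) is a leaf with parent d (n+2); its predecessor is d (n+2)
      have h0 := q_pred_leaf _ _ s0 h1
      have : d n = d (n + 2) := by rw [h0, h1']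
      have h3 := hdiv _ _ this
      have := Nat.le_of_dvd (by norm_num) h3
      omega
  · have : d (n + 2) = d (n + 2 + 2) := by
      rw [hp2]; exact h4.symm
    have h3 := hdiv _ _ this
    have := Nat.le_of_dvd (by norm_num) h3
    omega

/-- Every directed cycle of the half digraph has scaled weight less than 20. -/
lemma cyc (k : ℕ) (c : Fin (k + 2) → Fin 13) (hinj : Function.Injective c)
    (hadj : ∀ i, q (c i) (c (i + 1)) ≠ 0) : ∑ i, q (c i) (c (i + 1)) < 20 := by
  rcases len k c hinj hadj with rfl | rfl
  · have h0 := hadj 0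
    have h1 := hadj 1
    have e : (1 : Fin 2) + 1 = 0 := rfl
    have e' : (0 : Fin 2) + 1 = 1 := rfl
    rw [Fin.sum_univ_two]
    simp only [Nat.reduceAdd] at *
    rw [e'] at *
    rw [e] at *
    exact two_sum _ _ h0 h1
  · have h0 := hadj 0
    have h1 := hadj 1
    have h2 := hadj 2
    have e0 : (0 : Fin 3) + 1 = 1 := rfl
    have e1 : (1 : Fin 3) + 1 = 2 := rfl
    have e2 : (2 : Fin 3) + 1 = 0 := rfl
    simp only [Nat.reduceAdd] at *
    rw [Fin.sum_univ_three]
    rw [e0] at *
    rw [e1] at *
    rw [e2] at *
    exact three_sum _ _ h0 _ h1 h2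

/-- The same for cycles of the reversed half digraph. -/
lemma cyc_rev (k : ℕ) (c : Fin (k + 2) → Fin 13) (hinj : Function.Injective c)
    (hadj : ∀ i, q (c (i + 1)) (c i) ≠ 0) : ∑ i, q (c (i + 1)) (c i) < 20 := by
  have h := cyc k (fun i => c (-i)) (hinj.comp neg_injective) (by
    intro i
    have h := hadj (-(i + 1))
    have e : -(i + 1) + 1 = -i := by simp
    rw [e] at h
    exact h)
  have e : ∑ i, q (c (i + 1)) (c i) = ∑ i : Fin (k + 2), q (c (-i)) (c (-(i + 1))) := by
    rw [← Equiv.sum_comp ((Equiv.addRight (1 : Fin (k + 2))).trans (Equiv.neg _))]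
    apply Finset.sum_congr rfl
    intro i _
    simp
  rw [e]
  exact h

/-- The weights of the counterexample: a reversed copy (left), a copy (right), and all arcs of
weight one from left to right. -/
noncomputable def p : Fin 13 ⊕ Fin 13 → Fin 13 ⊕ Fin 13 → ℝ
  | .inl x, .inl y => (q y x : ℝ) / 20
  | .inl _, .inr _ => 1
  | .inr x, .inr y => (q x y : ℝ) / 20
  | .inr _, .inl _ => 0

/-- The counterexample digraph: arcs are the pairs of positive weight. -/
noncomputable def G : Digraph (Fin 13 ⊕ Fin 13) where
  Adj u v := p u v ≠ 0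

/-- The negation of the preceding statement: In every finite nonempty loopless digraph with arc weights in [0,1] where each vertex has total out-weight at least 1 and total in-weight at least 1, some directed cycle has total weight at least 1. -/
theorem result :
    ¬ (∀ (V : Type) [Fintype V] [Nonempty V] (G : Digraph V) (p : V → V → ℝ),
      (∀ v, ¬ G.Adj v v) →
      (∀ u v, 0 ≤ p u v ∧ p u v ≤ 1) →
      (∀ u v, ¬ G.Adj u v → p u v = 0) →
      (∀ u, 1 ≤ ∑ v, p u v) →
      (∀ u, 1 ≤ ∑ v, p v u) →
      ∃ (k : ℕ) (c : Fin (k + 2) → V),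
        Function.Injective c ∧
        (∀ i, G.Adj (c i) (c (i + 1))) ∧
        1 ≤ ∑ i, p (c i) (c (i + 1))) := by
  intro H
  have hq : ∀ x y : Fin 13, (q x y : ℝ) / 20 ≤ 1 := by
    intro x y
    have := q_le x y
    have h2 : (q x y : ℝ) ≤ 20 := by exact_mod_cast this
    linarith
  have hout : ∀ x : Fin 13, ∑ y, (q x y : ℝ) / 20 = 1 := by
    intro x
    rw [← Finset.sum_div]
    have := q_out x
    have h2 : ∑ y, (q x y : ℝ) = 20 := by exact_mod_cast this
    rw [h2]; norm_num
  obtain ⟨k, c, hinj, hadj, hsum⟩ := H (Fin 13 ⊕ Fin 13) G p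
    (by
      intro v
      cases v <;> simp [G, p, q_self])
    (by
      intro u v
      cases u <;> cases v <;> simp only [p]
      · exact ⟨by positivity, hq _ _⟩
      · norm_num
      · norm_num
      · exact ⟨by positivity, hq _ _⟩)
    (by
      intro u v h
      by_contra h2
      exact h h2)
    (by
      intro u
      cases u with
      | inl x =>
        rw [Fintype.sum_sum_type]
        simp only [p]
        have : 0 ≤ ∑ y : Fin 13, (q y x : ℝ) / 20 := Finset.sum_nonneg (fun _ _ => by positivity)
        simp
        linarith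
      | inr x =>
        rw [Fintype.sum_sum_type]
        simp only [p]
        rw [hout]
        simp)
    (by
      intro u
      cases u with
      | inl x =>
        rw [Fintype.sum_sum_type]
        simp only [p]
        rw [hout]
        simp
      | inr x =>
        rw [Fintype.sum_sum_type]
        simp only [p]
        have : 0 ≤ ∑ y : Fin 13, (q y x : ℝ) / 20 := Finset.sum_nonneg (fun _ _ => by positivity)
        simp
        linarith)
  -- once on the right, always on the right
  have hstep : ∀ i, (c i).isRight = true → (c (i + 1)).isRight = true := by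
    intro i hi
    have h := hadj i
    cases h1 : c i with
    | inl x => rw [h1] at hi; simp at hi
    | inr x =>
      cases h2 : c (i + 1) with
      | inl y => exact absurd (by rw [h1, h2]; rfl) h
      | inr y => rfl
  have hstepn : ∀ (n : ℕ) (i : Fin (k + 2)), (c i).isRight = true →
      (c (i + Fin.ofNat (k + 2) n)).isRight = true := by
    intro n
    induction n with
    | zero =>
      intro i hi
      have e : i + Fin.ofNat (k + 2) 0 = i := by
        apply Fin.ext
        simp [Fin.ofNat]
      rw [e]; exact hi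
    | succ n ih =>
      intro i hi
      have h := hstep _ (ih i hi)
      have e : i + Fin.ofNat (k + 2) (n + 1) = i + Fin.ofNat (k + 2) n + 1 := by
        rw [add_assoc]
        congr 1
        apply Fin.ext
        simp [Fin.ofNat, Fin.val_add]
      rw [e]; exact h
  have hall : ∀ i j, (c i).isRight = true → (c j).isRight = true := by
    intro i j hi
    have h := hstepn (j - i).val i hi
    have e : i + Fin.ofNat (k + 2) (j - i).val = j := by
      have : Fin.ofNat (k + 2) (j - i).val = j - i := by
        apply Fin.ext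
        simp only [Fin.ofNat]
        exact Nat.mod_eq_of_lt (j - i).isLt
      rw [this]; abel
    rw [e] at h
    exact h
  by_cases hr : (c 0).isRight = true
  · have hc : ∀ i, ∃ x, c i = Sum.inr x := by
      intro i
      have := hall 0 i hr
      exact Sum.isRight_iff.1 this
    choose d hd using hc
    have hdinj : Function.Injective d := by
      intro i j h
      apply hinj
      rw [hd i, hd j, h]
    have hdadj : ∀ i, q (d i) (d (i + 1)) ≠ 0 := by
      intro i h0
      have h := hadj i
      rw [hd i, hd (i + 1)] at h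
      apply h
      simp [p, h0]
    have hlt := cyc k d hdinj hdadj
    have e : ∑ i, p (c i) (c (i + 1)) = (∑ i, (q (d i) (d (i + 1)) : ℝ)) / 20 := by
      rw [Finset.sum_div]
      apply Finset.sum_congr rfl
      intro i _
      rw [hd i, hd (i + 1)]
      rfl
    rw [e] at hsum
    have h2 : (∑ i, (q (d i) (d (i + 1)) : ℝ)) < 20 := by exact_mod_cast hlt
    linarith
  · have hc : ∀ i, ∃ x, c i = Sum.inl x := by
      intro i
      have : ¬ (c i).isRight = true := fun h => hr (hall i 0 h)
      cases h1 : c i with
      | inl x => exact ⟨x, rfl⟩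
      | inr x => rw [h1] at this; exact absurd rfl this
    choose d hd using hc
    have hdinj : Function.Injective d := by
      intro i j h
      apply hinj
      rw [hd i, hd j, h]
    have hdadj : ∀ i, q (d (i + 1)) (d i) ≠ 0 := by
      intro i h0
      have h := hadj i
      rw [hd i, hd (i + 1)] at h
      apply h
      simp [p, h0]
    have hlt := cyc_rev k d hdinj hdadj
    have e : ∑ i, p (c i) (c (i + 1)) = (∑ i, (q (d (i + 1)) (d i) : ℝ)) / 20 := by
      rw [Finset.sum_div]
      apply Finset.sum_congr rfl
      intro i _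
      rw [hd i, hd (i + 1)]
      rfl
    rw [e] at hsum
    have h2 : (∑ i, (q (d (i + 1)) (d i) : ℝ)) < 20 := by exact_mod_cast hlt
    linarith

end Pool.Agent.S04632
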