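import Pool.Statements.S04643

set_option autoImplicit false
open Pool Pool.MP_09fd01_co

namespace Pool.Agent.S04643

/-- Adjacency read off from a list of row bitmasks. -/
def adjM (m : List ℕ) (i j : Fin 15) : Bool := (m.getD i.val 0).testBit j.val

/-- Row bitmasks of the first graph (15 vertices, 31 edges). -/
def mA : List ℕ :=
  [4098, 4157, 58, 54, 46, 16478, 18336, 1856, 11968, 1472, 960, 8448, 16387, 18688, 12384]

/-- Row bitmasks of the second graph (15 vertices, 31 edges). -/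
def mB : List ℕ :=
  [16386, 16421, 226, 30752, 1952, 30, 132, 1876, 1680, 1424, 912, 28680, 26632, 22536, 14347]

/-- The first graph. -/
def gA : SimpleGraph (Fin 15) where
  Adj i j := adjM mA i j = true
  symm := ⟨by decide +kernel⟩
  loopless := ⟨by decide +kernel⟩

/-- The second graph. -/
def gB : SimpleGraph (Fin 15) where
  Adj i j := adjM mB i j = true
  symm := ⟨by decide +kernel⟩
  loopless := ⟨by decide +kernel⟩

instance : DecidableRel gA.Adj := fun i j => inferInstanceAs (Decidable (adjM mA i j = true))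
instance : DecidableRel gB.Adj := fun i j => inferInstanceAs (Decidable (adjM mB i j = true))

/-- The minimum dominating sets of the first graph, indexed by the vertices of the second. -/
def sA : Fin 15 → Finset (Fin 15) :=
  ![{0,5,8}, {1,5,8}, {1,6,8}, {1,8,12}, {1,8,13}, {1,8,14}, {1,6,11}, {1,6,13}, {1,7,13},
    {1,9,13}, {1,10,13}, {2,8,12}, {3,8,12}, {4,8,12}, {5,8,12}]

/-- The minimum dominating sets of the second graph, indexed by the vertices of the first. -/
def sB : Fin 15 → Finset (Fin 15) :=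
  ![{0,3,7}, {1,3,7}, {1,7,11}, {1,7,12}, {1,7,13}, {1,7,14}, {2,7,14}, {2,8,14}, {2,4,14},
    {2,9,14}, {2,10,14}, {4,6,14}, {3,7,14}, {4,7,14}, {5,7,14}]

/-- Dominating sets. -/
def Dom (G : SimpleGraph (Fin 15)) (S : Finset (Fin 15)) : Prop :=
  ∀ v, v ∈ S ∨ ∃ u ∈ S, G.Adj u v

/-- A general criterion identifying the minimum dominating sets. -/
theorem crit (G : SimpleGraph (Fin 15)) (s : Fin 15 → Finset (Fin 15))
    (hcard : ∀ i, (s i).card = 3) (hdom : ∀ i, Dom G (s i))
    (h2 : ∀ x y : Fin 15, ∃ v, ¬ (v = x ∨ v = y ∨ G.Adj x v ∨ G.Adj y v))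
    (h3 : ∀ x y z : Fin 15, (∀ v, v = x ∨ v = y ∨ v = z ∨ G.Adj x v ∨ G.Adj y v ∨ G.Adj z v) →
      ∃ i, s i = {x, y, z}) (S : Finset (Fin 15)) :
    (Dom G S ∧ ∀ T, Dom G T → S.card ≤ T.card) ↔ ∃ i, s i = S := by
  have hlow : ∀ T, Dom G T → 3 ≤ T.card := by
    intro T hT
    by_contra hlt
    have hle : T.card ≤ 2 := by omega
    obtain ⟨x, y, hxy⟩ : ∃ x y : Fin 15, T ⊆ {x, y} := by
      rcases Nat.lt_or_ge T.card 1 with h | h
      · have : T = ∅ := Finset.card_eq_zero.mp (by omega)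
        exact ⟨0, 0, by simp [this]⟩
      · rcases Nat.lt_or_ge T.card 2 with h' | h'
        · obtain ⟨x, hx⟩ := Finset.card_eq_one.mp (show T.card = 1 by omega)
          exact ⟨x, x, by simp [hx]⟩
        · obtain ⟨x, y, _, hx⟩ := Finset.card_eq_two.mp (show T.card = 2 by omega)
          exact ⟨x, y, by simp [hx]⟩
    obtain ⟨v, hv⟩ := h2 x y
    apply hv
    rcases hT v with h | ⟨u, hu, huv⟩
    · have := hxy h
      simp only [Finset.mem_insert, Finset.mem_singleton] at this
      tauto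
    · have := hxy hu
      simp only [Finset.mem_insert, Finset.mem_singleton] at this
      rcases this with rfl | rfl <;> tauto
  constructor
  · rintro ⟨hS, hmin⟩
    have hc : S.card = 3 := le_antisymm (by simpa [hcard 0] using hmin _ (hdom 0)) (hlow S hS)
    obtain ⟨x, y, z, _, _, _, rfl⟩ := Finset.card_eq_three.mp hc
    apply h3
    intro v
    rcases hS v with h | ⟨u, hu, huv⟩
    · simp only [Finset.mem_insert, Finset.mem_singleton] at h
      tauto
    · simp only [Finset.mem_insert, Finset.mem_singleton] at hu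
      rcases hu with rfl | rfl | rfl <;> tauto
  · rintro ⟨i, rfl⟩
    exact ⟨hdom i, fun T hT => by rw [hcard i]; exact hlow T hT⟩

theorem step (G H : SimpleGraph (Fin 15)) (s : Fin 15 → Finset (Fin 15))
    (hinj : Function.Injective s)
    (hs : ∀ S, (Dom G S ∧ ∀ T, Dom G T → S.card ≤ T.card) ↔ ∃ i, s i = S)
    (hadj : ∀ a b, H.Adj a b ↔ ∃ u v, u ∈ s a ∧ v ∉ s a ∧ G.Adj u v ∧
      s b = insert v ((s a).erase u)) :
    ∃ e : Fin 15 ≃ {S : Finset (Fin 15) // (∀ v, v ∈ S ∨ ∃ u ∈ S, G.Adj u v) ∧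
            ∀ T : Finset (Fin 15),
              (∀ v, v ∈ T ∨ ∃ u ∈ T, G.Adj u v) → S.card ≤ T.card},
        ∀ a b, H.Adj a b ↔
          ∃ u v, u ∈ (e a).1 ∧ v ∉ (e a).1 ∧ G.Adj u v ∧
            (e b).1 = insert v ((e a).1.erase u) := by
  refine ⟨Equiv.ofBijective (fun i => ⟨s i, (hs (s i)).mpr ⟨i, rfl⟩⟩) ⟨?_, ?_⟩, hadj⟩
  · intro i j hij
    exact hinj (congrArg Subtype.val hij)
  · rintro ⟨S, hS⟩
    obtain ⟨i, hi⟩ := (hs S).mp hS
    exact ⟨i, Subtype.ext hi⟩

theorem critA (S : Finset (Fin 15)) :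
    (Dom gA S ∧ ∀ T, Dom gA T → S.card ≤ T.card) ↔ ∃ i, sA i = S :=
  crit gA sA (by decide +kernel) (by unfold Dom; decide +kernel) (by decide +kernel)
    (by decide +kernel) S

theorem critB (S : Finset (Fin 15)) :
    (Dom gB S ∧ ∀ T, Dom gB T → S.card ≤ T.card) ↔ ∃ i, sB i = S :=
  crit gB sB (by decide +kernel) (by unfold Dom; decide +kernel) (by decide +kernel)
    (by decide +kernel) S

theorem adjAB : ∀ a b, gB.Adj a b ↔ ∃ u v, u ∈ sA a ∧ v ∉ sA a ∧ gA.Adj u v ∧
      sA b = insert v ((sA a).erase u) := by decide +kernel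

theorem adjBA : ∀ a b, gA.Adj a b ↔ ∃ u v, u ∈ sB a ∧ v ∉ sB a ∧ gB.Adj u v ∧
      sB b = insert v ((sB a).erase u) := by decide +kernel

theorem injA : Function.Injective sA := by
  have : ∀ i j, sA i = sA j → i = j := by decide +kernel
  exact fun i j => this i j

theorem injB : Function.Injective sB := by
  have : ∀ i j, sB i = sB j → i = j := by decide +kernel
  exact fun i j => this i j

theorem stepAll (G H : SimpleGraph (Fin 15)) (h : (G = gA ∧ H = gB) ∨ (G = gB ∧ H = gA)) :
    ∃ e : Fin 15 ≃ {S : Finset (Fin 15) // (∀ v, v ∈ S ∨ ∃ u ∈ S, G.Adj u v) ∧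
            ∀ T : Finset (Fin 15),
              (∀ v, v ∈ T ∨ ∃ u ∈ T, G.Adj u v) → S.card ≤ T.card},
        ∀ a b, H.Adj a b ↔
          ∃ u v, u ∈ (e a).1 ∧ v ∉ (e a).1 ∧ G.Adj u v ∧
            (e b).1 = insert v ((e a).1.erase u) := by
  rcases h with ⟨rfl, rfl⟩ | ⟨rfl, rfl⟩
  · exact step gA gB sA injA critA adjAB
  · exact step gB gA sB injB critB adjBA

theorem notIso : IsEmpty (gB ≃g gA) := by
  refine ⟨fun φ => ?_⟩
  have h5 : ∀ w, (Finset.univ.filter (fun x => gA.Adj w x)).card ≠ 5 := by decide +kernel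
  have hB : (Finset.univ.filter (fun x => gB.Adj 3 x)).card = 5 := by decide +kernel
  apply h5 (φ 3)
  rw [← hB]
  symm
  apply Finset.card_bij (fun x _ => φ x)
  · intro x hx
    simp only [Finset.mem_filter, Finset.mem_univ, true_and] at hx ⊢
    exact φ.map_rel_iff.mpr hx
  · intro x _ y _ h
    exact φ.injective h
  · intro y hy
    simp only [Finset.mem_filter, Finset.mem_univ, true_and] at hy
    refine ⟨φ.symm y, ?_, by simp⟩
    simp only [Finset.mem_filter, Finset.mem_univ, true_and]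
    rw [← φ.map_rel_iff]
    simpa using hy

/-- There is a finite graph whose iterated γ-graph sequence (γ-sets as vertices, adjacent when one slides to the other along an edge) eventually repeats up to isomorphism with some period, yet is not eventually constant. -/
theorem result :
    ∃ (k : ℕ → ℕ) (G : ∀ n, SimpleGraph (Fin (k n))),
      (∀ n, ∃ e : Fin (k (n + 1)) ≃
          {S : Finset (Fin (k n)) //
            (∀ v, v ∈ S ∨ ∃ u ∈ S, (G n).Adj u v) ∧
            ∀ T : Finset (Fin (k n)),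
              (∀ v, v ∈ T ∨ ∃ u ∈ T, (G n).Adj u v) → S.card ≤ T.card},
        ∀ a b, (G (n + 1)).Adj a b ↔
          ∃ u v, u ∈ (e a).1 ∧ v ∉ (e a).1 ∧ (G n).Adj u v ∧
            (e b).1 = insert v ((e a).1.erase u)) ∧
      ∃ m p : ℕ, 0 < p ∧ Nonempty (G (m + p) ≃g G m) ∧ IsEmpty (G (m + 1) ≃g G m) := by
  refine ⟨fun _ => 15, fun n => if n % 2 = 0 then gA else gB, ?_, 0, 2, by norm_num, ?_, ?_⟩
  · intro n
    apply stepAll
    rcases Nat.mod_two_eq_zero_or_one n with h | h
    · have h' : (n + 1) % 2 ≠ 0 := by omega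
      exact Or.inl ⟨if_pos h, if_neg h'⟩
    · have h' : (n + 1) % 2 = 0 := by omega
      have h'' : n % 2 ≠ 0 := by omega
      exact Or.inr ⟨if_neg h'', if_pos h'⟩
  · exact ⟨SimpleGraph.Iso.refl⟩
  · simpa using notIso

end Pool.Agent.S04643
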