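-- Disproof of the equipartition statement, via the modules Pool.Agent.FanRD.*
import Pool.Statements.S04660
import Pool.Agent.FanRD.FIN

set_option autoImplicit false
open scoped MeasureTheory
open Pool Pool.MP_0ba608_co

namespace Pool.Agent.S04660

/-- The negation of the preceding statement: For every n ≥ 1, regular simplex with vertices w, and finite absolutely continuous measure on R^n, some affine bijection A gives all n²+n cones {x : w_i maximizes and w_j minimizes ⟨x,w_m⟩} (i≠j) images under A of equal measure. -/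
theorem result :
    ¬ (∀ n : ℕ, 1 ≤ n →
  ∀ w : Fin (n+1) → EuclideanSpace ℝ (Fin n),
    AffineIndependent ℝ w →
    (∃ d : ℝ, ∀ i j : Fin (n+1), i ≠ j → dist (w i) (w j) = d) →
    ∀ μ : MeasureTheory.Measure (EuclideanSpace ℝ (Fin n)),
      MeasureTheory.IsFiniteMeasure μ →
      MeasureTheory.Measure.AbsolutelyContinuous μ MeasureTheory.volume →
      ∃ A : EuclideanSpace ℝ (Fin n) ≃ᵃ[ℝ] EuclideanSpace ℝ (Fin n),
        ∀ i j k l : Fin (n+1), i ≠ j → k ≠ l →
          μ (A '' {x : EuclideanSpace ℝ (Fin n) |
              ∀ m : Fin (n+1), inner ℝ x (w m) ≤ inner ℝ x (w i) ∧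
                inner ℝ x (w j) ≤ inner ℝ x (w m)})
          = μ (A '' {x : EuclideanSpace ℝ (Fin n) |
              ∀ m : Fin (n+1), inner ℝ x (w m) ≤ inner ℝ x (w k) ∧
                inner ℝ x (w l) ≤ inner ℝ x (w m)})) := by
  exact FanRD.disproof

end Pool.Agent.S04660
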