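import Pool.Statements.S04661

set_option autoImplicit false
open Pool Pool.MP_0bab21_co

namespace Pool.Agent.S04661

/-- The player making a move with remaining distance `r` wins.  The squares ahead of the moving
token (up to the end of the strip) are listed with their occupancy; the squares already passed in
this lap are remembered through a state `q`.  When the end of the strip is reached the function
`wrap` decides. -/
def mv {S : Type} (M : Finset ℕ) (wrap : S → ℕ → Prop) (δ : S → Bool → S) :
    List Bool → S → ℕ → Prop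
  | [], q, r => wrap q r
  | _ :: _, _, 0 => False
  | b :: l, q, 1 => b = false ∧ ¬ ∃ m ∈ M, mv M wrap δ l (δ q true) m
  | b :: l, q, r + 2 => mv M wrap δ l (δ q b) (r + 1)

/-- The list of squares passed, as a state. -/
def app (p : List Bool) (b : Bool) : List Bool := p ++ [b]

/-- Winning moves when at most `k` further wraps are allowed, at the moment of a wrap:
`lap k w r` says that moving to the `r`-th square of the strip `w` is a winning move. -/
def lap (M : Finset ℕ) : ℕ → List Bool → ℕ → Prop
  | 0, _, _ => False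
  | k + 1, w, r => mv M (lap M k) app w [] r

/-- A family of predicates on words is finite state up to the bound `B`. -/
def Reg (B : ℕ) (φ : List Bool → ℕ → Prop) : Prop :=
  ∃ (S : Type) (_ : Finite S) (δ : S → Bool → S) (s0 : S) (f : S → ℕ → Prop),
    ∀ p r, r ≤ B → (φ p r ↔ f (p.foldl δ s0) r)

section finite

variable {S : Type} (M : Finset ℕ) (B : ℕ) (δ : S → Bool → S)

/-- The right-to-left transition on the finite set of restricted win functions. -/
def T (b : Bool) (F : S → Fin (B + 1) → Prop) (q : S) (r : Fin (B + 1)) : Prop :=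
  match (r : ℕ) with
  | 0 => False
  | 1 => b = false ∧ ¬ ∃ m ∈ M, F (δ q true) (Fin.ofNat (B + 1) m)
  | r + 2 => F (δ q b) (Fin.ofNat (B + 1) (r + 1))

lemma mv_eq_foldr (hM : ∀ m ∈ M, m ≤ B) (wrap : S → ℕ → Prop) (l : List Bool) :
    ∀ (q : S) (r : ℕ), r ≤ B → (mv M wrap δ l q r ↔
      (l.foldr (T M B δ) (fun q (r : Fin (B + 1)) => wrap q r)) q (Fin.ofNat (B + 1) r)) := by
  induction l with
  | nil =>
    intro q r hr
    simp only [mv, List.foldr]
    have : ((Fin.ofNat (B + 1) r : Fin (B + 1)) : ℕ) = r := by
      simp only [Fin.ofNat]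
      exact Nat.mod_eq_of_lt (by omega)
    rw [this]
  | cons b l ih =>
    intro q r hr
    have hval : ∀ r ≤ B, ((Fin.ofNat (B + 1) r : Fin (B + 1)) : ℕ) = r := by
      intro r hr
      simp only [Fin.ofNat]
      exact Nat.mod_eq_of_lt (by omega)
    rcases r with _ | _ | r
    · simp only [mv, List.foldr, T, hval 0 (by omega)]
    · simp only [mv, List.foldr, T]
      rw [hval _ hr]
      simp only
      apply and_congr Iff.rfl
      apply not_congr
      constructor
      · rintro ⟨m, hm, h⟩
        exact ⟨m, hm, (ih _ m (hM m hm)).1 h⟩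
      · rintro ⟨m, hm, h⟩
        exact ⟨m, hm, (ih _ m (hM m hm)).2 h⟩
    · simp only [mv, List.foldr, T]
      rw [hval _ hr]
      simp only
      exact ih _ _ (by omega)

end finite

lemma foldl_comp {X : Type} (t : Bool → X → X) (l : List Bool) :
    ∀ (g : X → X) (F : X), (l.foldl (fun g b => g ∘ t b) g) F = g (l.foldr t F) := by
  induction l with
  | nil => intro g F; rfl
  | cons b l ih => intro g F; simp only [List.foldl, List.foldr]; rw [ih]; rfl

lemma foldr_rep {X : Type} (t : Bool → X → X) (b : Bool) (n : ℕ) (F : X) :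
    (List.replicate n b).foldr t F = (t b)^[n] F := by
  induction n with
  | zero => rfl
  | succ n ih => rw [List.replicate_succ, List.foldr_cons, ih, Function.iterate_succ_apply']

/-- Transport of the game along a map of states. -/
lemma mv_map {S S' : Type} (M : Finset ℕ) (B : ℕ) (hM : ∀ m ∈ M, m ≤ B)
    (wrap : S → ℕ → Prop) (δ : S → Bool → S) (wrap' : S' → ℕ → Prop) (δ' : S' → Bool → S')
    (h : S → S') (hδ : ∀ q b, h (δ q b) = δ' (h q) b)
    (hw : ∀ q r, r ≤ B → (wrap q r ↔ wrap' (h q) r)) (l : List Bool) :
    ∀ q r, r ≤ B → (mv M wrap δ l q r ↔ mv M wrap' δ' l (h q) r) := by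
  induction l with
  | nil => intro q r hr; simp only [mv]; exact hw q r hr
  | cons b l ih =>
    intro q r hr
    rcases r with _ | _ | r
    · simp only [mv]
    · simp only [mv]
      rw [← hδ]
      apply and_congr Iff.rfl
      apply not_congr
      constructor
      · rintro ⟨m, hm, h'⟩
        exact ⟨m, hm, (ih _ m (hM m hm)).1 h'⟩
      · rintro ⟨m, hm, h'⟩
        exact ⟨m, hm, (ih _ m (hM m hm)).2 h'⟩
    · simp only [mv]
      rw [← hδ]
      exact ih _ _ (by omega)

lemma lap_reg (M : Finset ℕ) (B : ℕ) (hM : ∀ m ∈ M, m ≤ B) (k : ℕ) : Reg B (lap M k) := by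
  induction k with
  | zero =>
    exact ⟨Unit, inferInstance, fun _ _ => (), (), fun _ _ => False, fun p r _ => Iff.rfl⟩
  | succ k ih =>
    obtain ⟨S, hS, δ, s0, f, hf⟩ := ih
    refine ⟨(S → Fin (B + 1) → Prop) → (S → Fin (B + 1) → Prop), inferInstance,
      fun g b => g ∘ T M B δ b, id,
      fun g r => g (fun q (r : Fin (B + 1)) => f q r) s0 (Fin.ofNat (B + 1) r), ?_⟩
    intro p r hr
    have h1 : lap M (k + 1) p r ↔ mv M f δ p s0 r := by
      show mv M (lap M k) app p [] r ↔ _
      have := mv_map M B hM (lap M k) app f δ (fun p => p.foldl δ s0)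
        (fun q b => by simp [app]) (fun q r hr => hf q r hr) p [] r hr
      simpa using this
    rw [h1, mv_eq_foldr M B δ hM f p s0 r hr]
    beta_reduce
    rw [foldl_comp]
    rfl

/-- Outcome of the game with at most `K` wraps on an empty circle of length `n + 1` with one
coin on the first square: the player to move wins. -/
def out (M : Finset ℕ) (K n : ℕ) : Prop :=
  ∃ m ∈ M, mv M (lap M K) app (List.replicate n false) [true] m

lemma out_periodic (M : Finset ℕ) (B : ℕ) (hM : ∀ m ∈ M, m ≤ B) (K : ℕ) :
    ∃ N p : ℕ, 0 < p ∧ ∀ n, N ≤ n → (out M K n ↔ out M K (n + p)) := by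
  obtain ⟨S, hS, δ, s0, f, hf⟩ := lap_reg M B hM K
  set F0 : S → Fin (B + 1) → Prop := fun q (r : Fin (B + 1)) => f q r with hF0
  have hout : ∀ n, out M K n ↔ ∃ m ∈ M, ((T M B δ false)^[n] F0) ([true].foldl δ s0)
      (Fin.ofNat (B + 1) m) := by
    intro n
    have key : ∀ m ∈ M, (mv M (lap M K) app (List.replicate n false) [true] m ↔
        ((T M B δ false)^[n] F0) ([true].foldl δ s0) (Fin.ofNat (B + 1) m)) := by
      intro m hm
      have h1 := mv_map M B hM (lap M K) app f δ (fun p => p.foldl δ s0)
        (fun q b => by simp [app]) (fun q r hr => hf q r hr) (List.replicate n false) [true] m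
        (hM m hm)
      rw [h1, mv_eq_foldr M B δ hM f _ _ m (hM m hm), foldr_rep]
    unfold out
    constructor
    · rintro ⟨m, hm, h⟩
      exact ⟨m, hm, (key m hm).1 h⟩
    · rintro ⟨m, hm, h⟩
      exact ⟨m, hm, (key m hm).2 h⟩
  obtain ⟨i, j, hne, hij⟩ := Finite.exists_ne_map_eq_of_infinite
    (fun n => (T M B δ false)^[n] F0)
  wlog hlt : i < j generalizing i j with H
  · exact H j i hne.symm hij.symm (by omega)
  refine ⟨i, j - i, by omega, fun n hn => ?_⟩
  rw [hout, hout]
  have : (T M B δ false)^[n] F0 = (T M B δ false)^[n + (j - i)] F0 := by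
    obtain ⟨d, rfl⟩ := Nat.exists_eq_add_of_le hn
    rw [show i + d + (j - i) = d + j by omega, show i + d = d + i by omega,
      Function.iterate_add_apply, Function.iterate_add_apply]
    rw [hij]
  rw [this]

/-! ### Relation with the game on the circle -/

lemma mv_short {S : Type} (M : Finset ℕ) (wrap : S → ℕ → Prop) (δ : S → Bool → S)
    (l1 : List Bool) : ∀ (q : S) (b : Bool) (l2 : List Bool),
    (mv M wrap δ (l1 ++ b :: l2) q (l1.length + 1) ↔
      (b = false ∧ ¬ ∃ m ∈ M, mv M wrap δ l2 (δ (l1.foldl δ q) true) m)) := by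
  induction l1 with
  | nil => intro q b l2; simp only [List.nil_append, List.length_nil, zero_add, mv, List.foldl]
  | cons c l1 ih =>
    intro q b l2
    simp only [List.cons_append, List.length_cons, mv, List.foldl]
    exact ih _ _ _

lemma mv_long {S : Type} (M : Finset ℕ) (wrap : S → ℕ → Prop) (δ : S → Bool → S)
    (l : List Bool) (r : ℕ) : ∀ (q : S),
    (mv M wrap δ l q (l.length + r + 1) ↔ wrap (l.foldl δ q) (r + 1)) := by
  induction l with
  | nil => intro q; simp only [List.length_nil, zero_add, mv, List.foldl]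
  | cons c l ih =>
    intro q
    have : (c :: l).length + r + 1 = (l.length + r) + 2 := by simp; omega
    rw [this]
    simp only [mv, List.foldl]
    exact ih _

lemma foldl_app (l p : List Bool) : l.foldl app p = p ++ l := by
  induction l generalizing p with
  | nil => simp
  | cons b l ih => simp only [List.foldl, ih, app]; simp

/-- The set of occupied squares coded by a list. -/
def occ (n : ℕ) [NeZero n] (w : List Bool) : Finset (ZMod n) :=
  Finset.univ.filter (fun i => w.getD i.val false = true)

lemma getD_mid (l1 l2 : List Bool) (b : Bool) : (l1 ++ b :: l2).getD l1.length false = b := by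
  simp [List.getD]

lemma mem_occ {n : ℕ} [NeZero n] {l1 l2 : List Bool} {b : Bool}
    (hlen : (l1 ++ b :: l2).length = n) :
    ((l1.length : ℕ) : ZMod n) ∈ occ n (l1 ++ b :: l2) ↔ b = true := by
  unfold occ
  rw [Finset.mem_filter]
  have hlt : l1.length < n := by rw [← hlen]; simp
  rw [ZMod.val_cast_of_lt hlt, getD_mid]
  simp

lemma insert_occ {n : ℕ} [NeZero n] {l1 l2 : List Bool} {b : Bool}
    (hlen : (l1 ++ b :: l2).length = n) :
    insert ((l1.length : ℕ) : ZMod n) (occ n (l1 ++ b :: l2)) = occ n (l1 ++ true :: l2) := by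
  have hlt : l1.length < n := by rw [← hlen]; simp
  ext i
  unfold occ
  rw [Finset.mem_insert, Finset.mem_filter, Finset.mem_filter]
  simp only [Finset.mem_univ, true_and]
  by_cases hi : i = ((l1.length : ℕ) : ZMod n)
  · subst hi
    rw [ZMod.val_cast_of_lt hlt, getD_mid]
    simp
  · have hv : i.val ≠ l1.length := by
      intro h
      apply hi
      rw [← h, ZMod.natCast_zmod_val]
    simp only [hi, false_or]
    simp only [List.getD, List.getElem?_append]
    by_cases hlt' : i.val < l1.length
    · simp [hlt']
    · obtain ⟨d, hd⟩ : ∃ d, i.val = l1.length + (d + 1) := ⟨i.val - l1.length - 1, by omega⟩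
      rw [hd]
      simp

lemma take_mid (l1 l2 : List Bool) (b : Bool) (B : ℕ) (h : l1.length < B) :
    (l1 ++ b :: l2).take B = l1 ++ b :: l2.take (B - l1.length - 1) := by
  obtain ⟨d, rfl⟩ : ∃ d, B = l1.length + (d + 1) := ⟨B - l1.length - 1, by omega⟩
  rw [List.take_length_add_append, List.take_succ_cons]
  congr 3
  omega

lemma exists_split (l : List Bool) (r : ℕ) (h : r < l.length) :
    ∃ l1 b l2, l = l1 ++ b :: l2 ∧ l1.length = r := by
  refine ⟨l.take r, l[r], l.drop (r + 1), ?_, ?_⟩
  · rw [← List.drop_eq_getElem_cons h, List.take_append_drop]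
  · rw [List.length_take]; omega

/-- The key comparison. -/
lemma link (M : Finset ℕ) (B : ℕ) (hM : ∀ m ∈ M, m ≤ B) (hpos : ∀ m ∈ M, 0 < m)
    {n : ℕ} [NeZero n] (hn : B < n) (W : Finset (ZMod n) → ZMod n → Prop)
    (hW : ∀ (S : Finset (ZMod n)) (x : ZMod n),
              W S x ↔ ∃ m ∈ M, (x + (m : ZMod n)) ∉ S ∧
                ¬ W (insert (x + (m : ZMod n)) S) (x + (m : ZMod n))) (c : ℕ) :
    ∀ (k : ℕ) (p0 l : List Bool) (b0 : Bool),
      ((p0 ++ [b0] ++ l).count false = c) → (p0 ++ [b0] ++ l).length = n →
      B ≤ k + ((p0 ++ [b0] ++ l).take B).count true →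
      ((∃ m ∈ M, mv M (lap M k) app l (p0 ++ [b0]) m) ↔
        W (occ n (p0 ++ [b0] ++ l)) ((p0.length : ℕ) : ZMod n)) := by
  induction c using Nat.strong_induction_on with
  | _ c ih =>
  intro k p0 l b0 hc hlen hB
  have key : ∀ m ∈ M, (mv M (lap M k) app l (p0 ++ [b0]) m ↔
      ((((p0.length : ℕ) : ZMod n) + (m : ZMod n)) ∉ occ n (p0 ++ [b0] ++ l) ∧
      ¬ W (insert (((p0.length : ℕ) : ZMod n) + (m : ZMod n)) (occ n (p0 ++ [b0] ++ l)))
        (((p0.length : ℕ) : ZMod n) + (m : ZMod n)))) := by
    intro m hm
    have hm0 := hpos m hm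
    have hmB := hM m hm
    by_cases hml : m ≤ l.length
    · obtain ⟨l1, b, l2, rfl, hl1⟩ := exists_split l (m - 1) (by omega)
      have hm1 : m = l1.length + 1 := by omega
      have hx : ((p0.length : ℕ) : ZMod n) + (m : ZMod n) =
          (((p0 ++ [b0] ++ l1).length : ℕ) : ZMod n) := by
        rw [← Nat.cast_add]
        congr 1
        simp only [List.length_append, List.length_cons, List.length_nil]
        omega
      have hw : p0 ++ [b0] ++ (l1 ++ b :: l2) = (p0 ++ [b0] ++ l1) ++ b :: l2 := by simp
      rw [hw] at hlen hc hB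
      rw [hx, hw, mem_occ hlen, insert_occ hlen, hm1, mv_short, foldl_app]
      have happ : app (p0 ++ [b0] ++ l1) true = (p0 ++ [b0] ++ l1) ++ [true] := rfl
      rw [happ]
      rcases b with _ | _
      · have e1 : (p0 ++ [b0] ++ l1) ++ true :: l2 = (p0 ++ [b0] ++ l1) ++ [true] ++ l2 := by simp
        have hlt : ((p0 ++ [b0] ++ l1) ++ [true] ++ l2).count false < c := by
          rw [← hc]
          simp only [List.count_append, List.count_cons, List.count_nil]
          simp
        have := ih _ hlt k (p0 ++ [b0] ++ l1) l2 true rfl (by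
            rw [← hlen]; simp) (by
            refine le_trans hB ?_
            gcongr
            rw [← e1]
            rcases lt_or_ge (p0 ++ [b0] ++ l1).length B with hlt' | hge
            · rw [take_mid _ _ _ _ hlt', take_mid _ _ _ _ hlt']
              simp only [List.count_append, List.count_cons]
              simp
            · rw [List.take_append_of_le_length hge, List.take_append_of_le_length hge])
        rw [this, e1]
        simp
      · simp
    · obtain ⟨r, hr⟩ : ∃ r, m = l.length + r + 1 := ⟨m - l.length - 1, by omega⟩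
      have hrn : r < (p0 ++ [b0] ++ l).length := by omega
      have hx : ((p0.length : ℕ) : ZMod n) + (m : ZMod n) = ((r : ℕ) : ZMod n) := by
        have : p0.length + m = n + r := by
          rw [← hlen, hr]
          simp only [List.length_append, List.length_cons, List.length_nil]
          omega
        rw [← Nat.cast_add, this]
        simp
      have hmv : mv M (lap M k) app l (p0 ++ [b0]) m ↔ lap M k (p0 ++ [b0] ++ l) (r + 1) := by
        rw [hr, mv_long, foldl_app]
      rw [hmv, hx]
      revert hlen hc hB hrn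
      generalize p0 ++ [b0] ++ l = w
      intro hc hlen hB hrn
      obtain ⟨l1, b, l2, rfl, hl1⟩ := exists_split w r hrn
      rw [← hl1, mem_occ hlen, insert_occ hlen]
      have hl1B : l1.length < B := by omega
      rw [take_mid _ _ _ _ hl1B] at hB
      rcases k with _ | k
      · -- all of the first squares are occupied
        have hb : b = true := by
          have h1 : (l1 ++ b :: l2.take (B - l1.length - 1)).length ≤ B := by
            simp only [List.length_append, List.length_cons, List.length_take]
            omega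
          have h2 : (l1 ++ b :: l2.take (B - l1.length - 1)).count true =
              (l1 ++ b :: l2.take (B - l1.length - 1)).length := by
            apply le_antisymm List.count_le_length
            omega
          rw [List.count_eq_length] at h2
          exact (h2 b (by simp)).symm
        subst hb
        simp [lap]
      · have hlap : lap M (k + 1) (l1 ++ b :: l2) (l1.length + 1) ↔
            mv M (lap M k) app (l1 ++ b :: l2) [] (l1.length + 1) := Iff.rfl
        rw [hlap, mv_short, foldl_app]
        have happ : app ([] ++ l1) true = l1 ++ [true] := rfl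
        rw [happ]
        rcases b with _ | _
        · have e1 : l1 ++ true :: l2 = l1 ++ [true] ++ l2 := by simp
          have hlt : (l1 ++ [true] ++ l2).count false < c := by
            rw [← hc]
            simp only [List.count_append, List.count_cons, List.count_nil]
            simp
          have := ih _ hlt k l1 l2 true rfl (by
              rw [← hlen]; simp) (by
              rw [← e1, take_mid _ _ _ _ hl1B]
              simp only [List.count_append, List.count_cons] at hB ⊢
              simp at hB ⊢
              omega)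
          rw [this, e1]
          simp
        · simp
  rw [hW]
  constructor
  · rintro ⟨m, hm, h⟩
    exact ⟨m, hm, (key m hm).1 h⟩
  · rintro ⟨m, hm, h⟩
    exact ⟨m, hm, (key m hm).2 h⟩

/-- Fuel version of the recursion. -/
def fuel {n : ℕ} (M : Finset ℕ) : ℕ → Finset (ZMod n) → ZMod n → Prop
  | 0, _, _ => False
  | c + 1, S, x => ∃ m ∈ M, (x + (m : ZMod n)) ∉ S ∧
      ¬ fuel M c (insert (x + (m : ZMod n)) S) (x + (m : ZMod n))

lemma exists_W (M : Finset ℕ) {n : ℕ} [NeZero n] :
    ∃ W : Finset (ZMod n) → ZMod n → Prop,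
      ∀ (S : Finset (ZMod n)) (x : ZMod n),
        W S x ↔ ∃ m ∈ M, (x + (m : ZMod n)) ∉ S ∧
          ¬ W (insert (x + (m : ZMod n)) S) (x + (m : ZMod n)) := by
  refine ⟨fun S x => fuel M (Sᶜ.card) S x, fun S x => ?_⟩
  have hcard : ∀ y : ZMod n, y ∉ S → Sᶜ.card = ((insert y S)ᶜ).card + 1 := by
    intro y hy
    rw [Finset.compl_insert, Finset.card_erase_of_mem (by simpa using hy)]
    have : 0 < Sᶜ.card := Finset.card_pos.2 ⟨y, by simpa using hy⟩
    omega
  beta_reduce
  rcases hc : Sᶜ.card with _ | c
  · simp only [fuel, false_iff]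
    rintro ⟨m, _, hm, _⟩
    have := hcard _ hm
    omega
  · simp only [fuel]
    constructor
    · rintro ⟨m, hm, h1, h2⟩
      refine ⟨m, hm, h1, ?_⟩
      have := hcard _ h1
      have e : ((insert (x + (m : ZMod n)) S)ᶜ).card = c := by omega
      rw [e]
      exact h2
    · rintro ⟨m, hm, h1, h2⟩
      refine ⟨m, hm, h1, ?_⟩
      have := hcard _ h1
      have e : ((insert (x + (m : ZMod n)) S)ᶜ).card = c := by omega
      rw [e] at h2
      exact h2

lemma real_iff_out (M : Finset ℕ) (B : ℕ) (hM : ∀ m ∈ M, m ≤ B) (hpos : ∀ m ∈ M, 0 < m)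
    {n : ℕ} (hn : B < n + 1) :
    (∃ W : Finset (ZMod (n + 1)) → ZMod (n + 1) → Prop,
            (∀ (S : Finset (ZMod (n + 1))) (x : ZMod (n + 1)),
              W S x ↔ ∃ m ∈ M, (x + (m : ZMod (n + 1))) ∉ S ∧
                ¬ W (insert (x + (m : ZMod (n + 1))) S) (x + (m : ZMod (n + 1)))) ∧
            W {0} 0) ↔ out M B n := by
  have hocc : occ (n + 1) ([] ++ [true] ++ List.replicate n false) = {0} := by
    ext i
    unfold occ
    simp only [Finset.mem_filter, Finset.mem_univ, true_and, Finset.mem_singleton]
    have hlt := ZMod.val_lt i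
    constructor
    · intro h
      rw [← ZMod.val_eq_zero]
      by_contra hne
      obtain ⟨d, hd⟩ : ∃ d, i.val = d + 1 := ⟨i.val - 1, by omega⟩
      rw [hd] at h
      simp [List.getD, List.getElem?_replicate] at h
      split_ifs at h <;> simp at h
    · rintro rfl
      simp
  have hlink : ∀ W : Finset (ZMod (n + 1)) → ZMod (n + 1) → Prop,
      (∀ (S : Finset (ZMod (n + 1))) (x : ZMod (n + 1)),
              W S x ↔ ∃ m ∈ M, (x + (m : ZMod (n + 1))) ∉ S ∧
                ¬ W (insert (x + (m : ZMod (n + 1))) S) (x + (m : ZMod (n + 1)))) →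
      (out M B n ↔ W {0} 0) := by
    intro W hW
    have := link M B hM hpos (n := n + 1) hn W hW _ B [] (List.replicate n false) true rfl
      (by simp) (by omega)
    rw [hocc] at this
    simpa [out] using this
  constructor
  · rintro ⟨W, hW, h0⟩
    exact (hlink W hW).2 h0
  · intro h
    obtain ⟨W, hW⟩ := exists_W M (n := n + 1)
    exact ⟨W, hW, (hlink W hW).1 h⟩

/-- For every finite set M of positive moves, whether the second player wins Kotzig's Nim (normal play, first coin at 0, each next coin m ∈ M squares clockwise onto an empty square) on a circle of length n is eventually periodic in n. -/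
theorem result :
    ∀ M : Finset ℕ, (∀ m ∈ M, 0 < m) →
      ∃ N p : ℕ, 0 < p ∧ ∀ n : ℕ, N ≤ n →
        ((∃ W : Finset (ZMod n) → ZMod n → Prop,
            (∀ (S : Finset (ZMod n)) (x : ZMod n),
              W S x ↔ ∃ m ∈ M, (x + (m : ZMod n)) ∉ S ∧
                ¬ W (insert (x + (m : ZMod n)) S) (x + (m : ZMod n))) ∧
            W {0} 0) ↔
         (∃ W : Finset (ZMod (n + p)) → ZMod (n + p) → Prop,
            (∀ (S : Finset (ZMod (n + p))) (x : ZMod (n + p)),
              W S x ↔ ∃ m ∈ M, (x + (m : ZMod (n + p))) ∉ S ∧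
                ¬ W (insert (x + (m : ZMod (n + p))) S) (x + (m : ZMod (n + p)))) ∧
            W {0} 0)) := by
  intro M hpos
  set B := M.sup id with hB
  have hM : ∀ m ∈ M, m ≤ B := fun m hm => Finset.le_sup (f := id) hm
  obtain ⟨N, p, hp, hper⟩ := out_periodic M B hM B
  refine ⟨N + B + 1, p, hp, fun n hn => ?_⟩
  obtain ⟨n, rfl⟩ : ∃ n', n = n' + 1 := ⟨n - 1, by omega⟩
  have e : n + 1 + p = (n + p) + 1 := by omega
  rw [e, real_iff_out M B hM hpos (by omega), real_iff_out M B hM hpos (by omega)]
  exact hper n (by omega)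

end Pool.Agent.S04661
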