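import Pool.Statements.S04674

set_option autoImplicit false
open Pool Pool.MP_0c316d_co

namespace Pool.Agent.S04674

/-- Terminals: the 4-element subsets of a 7-element set. -/
abbrev Term : Type := {s : Finset (Fin 7) // s.card = 4}

/-- Vertices: 7 points and 35 terminals. -/
abbrev Vx : Type := Fin 7 ⊕ Term

/-- The incidence graph of points and 4-element subsets. -/
def Gr : SimpleGraph Vx where
  Adj u v := match u, v with
    | Sum.inl x, Sum.inr s => x ∈ s.1
    | Sum.inr s, Sum.inl x => x ∈ s.1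
    | _, _ => False
  symm := ⟨by
    rintro (x | s) (y | t) h <;> simpa using h⟩
  loopless := ⟨by
    rintro (x | s) h <;> simpa using h⟩

theorem adj_lr (x : Fin 7) (s : Term) : Gr.Adj (Sum.inl x) (Sum.inr s) ↔ x ∈ s.1 := Iff.rfl
theorem adj_rl (x : Fin 7) (s : Term) : Gr.Adj (Sum.inr s) (Sum.inl x) ↔ x ∈ s.1 := Iff.rfl
theorem adj_rr (s t : Term) : ¬ Gr.Adj (Sum.inr s) (Sum.inr t) := fun h => h

/-- The terminal set. -/
def At : Finset Vx := (Finset.univ : Finset Term).map ⟨Sum.inr, Sum.inr_injective⟩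

theorem mem_At (v : Vx) : v ∈ At ↔ ∃ s : Term, v = Sum.inr s := by
  simp [At, eq_comm]

theorem card_At : At.card = 35 := by
  rw [At, Finset.card_map, Finset.card_univ, Fintype.card_finset_len]
  decide

theorem result :
    ¬ (∀ t k : ℕ, 5 ≤ t → 2 ≤ k →
      (∀ (V : Type) [Fintype V] (G : SimpleGraph V) (A : Finset V),
        A.card = t →
        (∀ a ∈ A, ∀ b ∈ A, ¬ G.Adj a b) →
        (∀ a ∈ A, ∀ b ∈ A, a ≠ b → ∀ S : Finset V, a ∉ S → b ∉ S → S.card < k →
          ∃ p : G.Walk a b, ∀ v ∈ p.support, v ∉ S) →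
        ∃ T : Fin ((t * k + 1) / 2 / (t - 1)) → G.Subgraph,
          (∀ i, (T i).coe.IsTree ∧ (↑A : Set V) ⊆ (T i).verts ∧
            ∀ v ∈ (T i).verts, ((T i).neighborSet v).ncard = 1 → v ∈ A) ∧
          (∀ i j, i ≠ j → (T i).verts ∩ (T j).verts ⊆ (↑A : Set V))) ∧
      (∃ (V : Type) (_ : Fintype V) (G : SimpleGraph V) (A : Finset V),
        A.card = t ∧
        (∀ a ∈ A, ∀ b ∈ A, ¬ G.Adj a b) ∧
        (∀ a ∈ A, ∀ b ∈ A, a ≠ b → ∀ S : Finset V, a ∉ S → b ∉ S → S.card < k →
          ∃ p : G.Walk a b, ∀ v ∈ p.support, v ∉ S) ∧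
        ¬ ∃ T : Fin ((t * k + 1) / 2 / (t - 1) + 1) → G.Subgraph,
          (∀ i, (T i).coe.IsTree ∧ (↑A : Set V) ⊆ (T i).verts ∧
            ∀ v ∈ (T i).verts, ((T i).neighborSet v).ncard = 1 → v ∈ A) ∧
          (∀ i j, i ≠ j → (T i).verts ∩ (T j).verts ⊆ (↑A : Set V)))) := by
  classical
  intro hall
  obtain ⟨h1, -⟩ := hall 35 4 (by norm_num) (by norm_num)
  have hindep : ∀ a ∈ At, ∀ b ∈ At, ¬ Gr.Adj a b := by
    intro a ha b hb
    obtain ⟨s, rfl⟩ := (mem_At a).1 ha
    obtain ⟨t, rfl⟩ := (mem_At b).1 hb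
    exact adj_rr s t
  have hconn : ∀ a ∈ At, ∀ b ∈ At, a ≠ b → ∀ S : Finset Vx, a ∉ S → b ∉ S → S.card < 4 →
      ∃ p : Gr.Walk a b, ∀ v ∈ p.support, v ∉ S := by
    intro a ha b hb _ S haS hbS hS
    obtain ⟨s, rfl⟩ := (mem_At a).1 ha
    obtain ⟨t, rfl⟩ := (mem_At b).1 hb
    -- a point of `s` outside `S`
    have key : ∀ u : Term, ∃ x : Fin 7, x ∈ u.1 ∧ (Sum.inl x : Vx) ∉ S := by
      intro u
      by_contra hcon
      push Not at hcon
      have hsub : u.1.map ⟨(Sum.inl : Fin 7 → Vx), Sum.inl_injective⟩ ⊆ S := by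
        intro v hv
        rw [Finset.mem_map] at hv
        obtain ⟨x, hx, rfl⟩ := hv
        exact hcon x hx
      have hc := Finset.card_le_card hsub
      rw [Finset.card_map, u.2] at hc
      omega
    obtain ⟨x, hxs, hxS⟩ := key s
    obtain ⟨y, hyt, hyS⟩ := key t
    -- a terminal containing `x` and `y` outside `S`
    have key2 : ∃ c : Term, x ∈ c.1 ∧ y ∈ c.1 ∧ (Sum.inr c : Vx) ∉ S := by
      by_contra hcon
      push Not at hcon
      have hsub : ((Finset.univ : Finset Term).filter (fun c => x ∈ c.1 ∧ y ∈ c.1)).map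
          ⟨(Sum.inr : Term → Vx), Sum.inr_injective⟩ ⊆ S := by
        intro v hv
        rw [Finset.mem_map] at hv
        obtain ⟨c, hc, rfl⟩ := hv
        rw [Finset.mem_filter] at hc
        exact hcon c hc.2.1 hc.2.2
      have hc := Finset.card_le_card hsub
      rw [Finset.card_map] at hc
      have : 4 ≤ ((Finset.univ : Finset Term).filter (fun c => x ∈ c.1 ∧ y ∈ c.1)).card := by
        clear hc hsub hcon hxs hxS hyt hyS
        revert x y
        decide +kernel
      omega
    obtain ⟨c, hxc, hyc, hcS⟩ := key2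
    refine ⟨SimpleGraph.Walk.cons ((adj_rl x s).2 hxs)
      (SimpleGraph.Walk.cons ((adj_lr x c).2 hxc)
      (SimpleGraph.Walk.cons ((adj_rl y c).2 hyc)
      (SimpleGraph.Walk.cons ((adj_lr y t).2 hyt) SimpleGraph.Walk.nil))), ?_⟩
    intro v hv
    simp only [SimpleGraph.Walk.support_cons, SimpleGraph.Walk.support_nil, List.mem_cons,
      List.not_mem_nil, or_false] at hv
    rcases hv with rfl | rfl | rfl | rfl | rfl
    · exact haS
    · exact hxS
    · exact hcS
    · exact hyS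
    · exact hbS
  obtain ⟨T, hT, hdisj⟩ := h1 Vx Gr At card_At hindep hconn
  -- two of the trees
  let i0 : Fin ((35 * 4 + 1) / 2 / (35 - 1)) := ⟨0, by norm_num⟩
  let i1 : Fin ((35 * 4 + 1) / 2 / (35 - 1)) := ⟨1, by norm_num⟩
  have hne : i0 ≠ i1 := by
    intro h
    exact absurd (congrArg Fin.val h) (by decide)
  -- points used by a tree
  let P : Fin ((35 * 4 + 1) / 2 / (35 - 1)) → Finset (Fin 7) :=
    fun i => Finset.univ.filter (fun x => (Sum.inl x : Vx) ∈ (T i).verts)
  -- every terminal has a neighbour in each tree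
  have hnb : ∀ i, ∀ s : Term, ∃ x ∈ s.1, x ∈ P i := by
    intro i s
    obtain ⟨htree, hsub, -⟩ := hT i
    -- another terminal
    obtain ⟨s', hs'⟩ : ∃ s' : Term, s' ≠ s := by
      have : Nontrivial Term := by
        rw [← Fintype.one_lt_card_iff_nontrivial, Fintype.card_finset_len]
        decide
      exact exists_ne s
    have hsA : (Sum.inr s : Vx) ∈ (T i).verts := hsub (by
      rw [Finset.mem_coe, mem_At]; exact ⟨s, rfl⟩)
    have hsA' : (Sum.inr s' : Vx) ∈ (T i).verts := hsub (by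
      rw [Finset.mem_coe, mem_At]; exact ⟨s', rfl⟩)
    have hconn' := htree.1
    have hpre := hconn'.preconnected
    obtain ⟨w⟩ := hpre ⟨Sum.inr s, hsA⟩ ⟨Sum.inr s', hsA'⟩
    have hneq : (⟨Sum.inr s, hsA⟩ : (T i).verts) ≠ ⟨Sum.inr s', hsA'⟩ := by
      intro h
      apply hs'
      have := congrArg Subtype.val h
      exact (Sum.inr_injective this).symm
    cases w with
    | nil => exact absurd rfl hneq
    | cons hadj w' =>
      rename_i v
      obtain ⟨v, hv⟩ := v
      have hadj' : (T i).Adj (Sum.inr s) v := hadj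
      have hG : Gr.Adj (Sum.inr s) v := (T i).adj_sub hadj'
      rcases v with x | c
      · refine ⟨x, (adj_rl x s).1 hG, ?_⟩
        simp only [P, Finset.mem_filter, Finset.mem_univ, true_and]
        exact hv
      · exact absurd hG (adj_rr s c)
  have hP : Disjoint (P i0) (P i1) := by
    rw [Finset.disjoint_left]
    intro x hx0 hx1
    simp only [P, Finset.mem_filter, Finset.mem_univ, true_and] at hx0 hx1
    have := hdisj i0 i1 hne ⟨hx0, hx1⟩
    rw [Finset.mem_coe, mem_At] at this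
    obtain ⟨s, hs⟩ := this
    cases hs
  -- a small point set misses a terminal
  have hbig : ∀ i, 4 ≤ (P i).card := by
    intro i
    by_contra hlt
    push Not at hlt
    have hcompl : 4 ≤ ((P i)ᶜ).card := by
      rw [Finset.card_compl, Fintype.card_fin]
      omega
    obtain ⟨s, hs, hcard⟩ := Finset.exists_subset_card_eq hcompl
    obtain ⟨x, hxs, hxP⟩ := hnb i ⟨s, hcard⟩
    exact (Finset.mem_compl.1 (hs hxs)) hxP
  have hu : (P i0 ∪ P i1).card ≤ 7 := by
    have := Finset.card_le_univ (P i0 ∪ P i1)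
    simpa using this
  rw [Finset.card_union_of_disjoint hP] at hu
  have h0 := hbig i0
  have h1' := hbig i1
  omega

end Pool.Agent.S04674
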