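import Pool.Statements.S04677
import Pool.Agent.Helper805.CHS.Main

set_option autoImplicit false
open Pool Pool.MP_0c6f22_co

namespace Pool.Agent.S04677

/-- There is k₀ such that for every k ≥ k₀, every finite planar graph of maximum degree at most 2k+2 splits its vertices into two parts, each inducing a subgraph of maximum degree at most k. -/
theorem result :
    ∃ k₀ : ℕ, ∀ k : ℕ, k₀ ≤ k → ∀ n : ℕ, ∀ G : SimpleGraph (Fin n),
      (∃ p : Fin n → ℝ × ℝ, ∃ γ : Fin n → Fin n → unitInterval → ℝ × ℝ,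
        Function.Injective p ∧
        (∀ u v, G.Adj u v →
          Continuous (γ u v) ∧ Function.Injective (γ u v) ∧
          γ u v 0 = p u ∧ γ u v 1 = p v ∧
          (∀ z t, γ u v t = p z → z = u ∨ z = v)) ∧
        (∀ u v w x, G.Adj u v → G.Adj w x →
          Sym2.mk (u, v) ≠ Sym2.mk (w, x) →
          ∀ t s, γ u v t = γ w x s → (γ u v t = p u ∨ γ u v t = p v))) →
      (∀ v, (G.neighborSet v).ncard ≤ 2 * k + 2) →
      ∃ J : Set (Fin n), ∀ v,
        (v ∈ J → {w | G.Adj v w ∧ w ∈ J}.ncard ≤ k) ∧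
        (v ∉ J → {w | G.Adj v w ∧ w ∉ J}.ncard ≤ k) := by
  obtain ⟨k₀, hk₀⟩ := Pool.Agent.Helper805.CHS.main
  refine ⟨k₀, fun k hk n G hdraw hdeg => ?_⟩
  obtain ⟨h5, h33⟩ := Pool.Agent.Helper805.CHS.drawn_no_models n G hdraw
  classical
  obtain ⟨col, hcol⟩ := hk₀ k hk (Fin n) G h5 h33 (by
    intro v
    have h := hdeg v
    rw [Set.ncard_eq_toFinset_card'] at h
    refine le_trans (le_of_eq ?_) h
    congr 1
    ext x
    simp)
  refine ⟨{v | col v = true}, fun v => ⟨fun hv => ?_, fun hv => ?_⟩⟩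
  · have h := hcol v
    rw [Set.ncard_eq_toFinset_card']
    refine le_trans (le_of_eq ?_) h
    congr 1
    ext x
    have hv' : col v = true := hv
    simp [hv']
  · have h := hcol v
    rw [Set.ncard_eq_toFinset_card']
    refine le_trans (le_of_eq ?_) h
    congr 1
    ext x
    have hv' : col v = false := by
      have : ¬ (col v = true) := hv
      simpa using this
    simp [hv']

end Pool.Agent.S04677
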