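import Pool.Statements.S04701
import Pool.Agent.Helper864.ZSTGraph

set_option autoImplicit false
open Pool Pool.MP_0ed58c_co

namespace Pool.Agent.S04701

/-- For every m, remove a matching of floor((m+1)/2) edges from the complete graph on m+1 vertices. If the edges are coloured by Z_m using at least 3 colours, some spanning tree of the remaining graph has edge colours summing to 0 in Z_m. -/
theorem result :
    ∀ (m : ℕ) (M : SimpleGraph (Fin (m + 1))),
      (∀ v, (M.neighborSet v).Subsingleton) →
      M.edgeSet.ncard = (m + 1) / 2 →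
      ∀ c : Sym2 (Fin (m + 1)) → ZMod m,
        3 ≤ (c '' Mᶜ.edgeSet).ncard →
        ∃ T : SimpleGraph (Fin (m + 1)), T ≤ Mᶜ ∧ T.IsTree ∧
          (∑ᶠ e ∈ T.edgeSet, c e) = 0 := by
  intro m M hM hMc c h3
  rcases Nat.eq_zero_or_pos m with rfl | hm
  · -- a graph on one vertex has no edges
    exfalso
    have : (Mᶜ).edgeSet = ∅ := by
      rw [SimpleGraph.edgeSet_eq_empty]
      ext x y
      have : x = y := by apply Fin.ext; omega
      subst this
      simp
    rw [this] at h3
    simp at h3
  have : NeZero m := ⟨hm.ne'⟩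
  have hmain := Pool.Agent.Helper864.ZST.main m (ZMod m) (Nat.card_zmod m) (Fin (m + 1)) (Mᶜ).Adj
    (fun x y => c s(x, y)) Finset.univ (fun a b h => h.symm)
    (fun a b => by rw [Sym2.eq_swap]) (by simp) (by
      intro x _ y _ z _ hxy hxz h1 h2
      rw [SimpleGraph.compl_adj] at h1 h2
      have hy : M.Adj x y := by
        by_contra h; exact h1 ⟨hxy, h⟩
      have hz : M.Adj x z := by
        by_contra h; exact h2 ⟨hxz, h⟩
      exact hM x hy hz)
  rcases hmain with h | ⟨_, a, b, hab⟩
  · exact h.toTree c (Mᶜ)
  · exfalso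
    have hsub : c '' (Mᶜ).edgeSet ⊆ {a, b} := by
      rintro _ ⟨e, he, rfl⟩
      induction e using Sym2.ind with
      | _ x y =>
        have hxy : (Mᶜ).Adj x y := he
        rcases hab x (Finset.mem_univ _) y (Finset.mem_univ _) hxy.ne hxy with h | h
        · exact Or.inl h
        · exact Or.inr h
    have h4 := Set.ncard_le_ncard hsub (Set.toFinite _)
    have h5 := Set.ncard_insert_le a ({b} : Set (ZMod m))
    rw [Set.ncard_singleton] at h5
    omega

end Pool.Agent.S04701
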