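import Pool.Statements.S04705
import Pool.Agent.Helper101.StackK
-- import your own Pool.Agent.* helpers here

set_option autoImplicit false
open Filter Topology ProbabilityTheory MeasureTheory
open Pool Pool.MP_0f08df_co

namespace Pool.Agent.S04705

/-- For σ uniform in S_{n-1}, Y_n = (des(s(σ)) + 1 − (3−e)n)/√n, with s the stack-sorting map, has CDF converging at every x to the CDF of a normal law with mean 0 and variance 2+2e−e². -/
theorem result :
    ∀ x : ℝ,
      Tendsto
        (fun n : ℕ =>
          ((((List.range (n - 1)).permutations.countP
              (fun σ : List ℕ =>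
                decide
                  (((((fun t : List ℕ => (List.zip t t.tail).countP (fun q : ℕ × ℕ => decide (q.2 < q.1)))
                        ((fun p : List ℕ × List ℕ => p.2 ++ p.1)
                          (σ.foldl
                            (fun (p : List ℕ × List ℕ) (z : ℕ) =>
                              (z :: p.1.dropWhile (fun a : ℕ => decide (a < z)),
                               p.2 ++ p.1.takeWhile (fun a : ℕ => decide (a < z))))
                            ([], []))) : ℕ) : ℝ) + 1 - (3 - Real.exp 1) * (n : ℝ)) / Real.sqrt (n : ℝ) ≤ x))) : ℕ) : ℝ)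
            / ((Nat.factorial (n - 1) : ℕ) : ℝ))
        atTop
        (𝓝 (cdf (gaussianReal 0 (Real.toNNReal (2 + 2 * Real.exp 1 - Real.exp 1 ^ 2))) x)) := by
  intro x
  have h := Pool.Agent.Helper101.Stack.cdf_tendsto x
  refine Tendsto.congr (fun n => ?_) h
  exact Pool.Agent.Helper101.Stack.mu_Iic n x _ (fun σ => by
    rw [decide_eq_true_iff]
    exact Iff.rfl)

end Pool.Agent.S04705
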