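import Pool.Statements.S04707
import Pool.Agent.Helper835.InfGraph
import Pool.Agent.Helper835.InfGroup

set_option autoImplicit false
open Pool Pool.MP_0f290c_co

namespace Pool.Agent.S04707

/-- For every cardinal κ there is a group G such that every graph whose automorphism group is isomorphic to G has more than κ orbits of automorphisms acting on its edges. -/
theorem result :
    ∀ κ : Cardinal.{0}, ∃ (G : Type) (_ : Group G),
      ∀ (V : Type) (X : SimpleGraph V),
        Nonempty (G ≃* SimpleGraph.Iso X X) →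
        ∀ S : Set (Sym2 V), S ⊆ X.edgeSet →
          (∀ e ∈ X.edgeSet, ∃ s ∈ S, ∃ φ : SimpleGraph.Iso X X, Sym2.map (⇑φ) s = e) →
          κ < Cardinal.mk S := by
  classical
  intro κ
  have hθ : Cardinal.aleph0 ≤ max κ Cardinal.aleph0 := le_max_right _ _
  obtain ⟨I, A, _, _, _, emb, hemb, hI, hIic, hA, hA2, _⟩ :=
    Pool.Agent.Helper835.Small.exists_orders hθ
  refine ⟨Pool.Agent.Helper835.InfGroup.Ext (Pool.Agent.Helper835.InfGroup.form emb),
    inferInstance, ?_⟩
  intro V X ⟨iso⟩ S hSsub hS
  by_contra hcon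
  push Not at hcon
  let G := Pool.Agent.Helper835.InfGroup.Ext (Pool.Agent.Helper835.InfGroup.form emb)
  let φ : G →* Equiv.Perm V :=
    { toFun := fun g => (iso g).toEquiv
      map_one' := by
        rw [map_one]; rfl
      map_mul' := by
        intro g h
        rw [map_mul]; rfl }
  have hφ : ∀ g v, φ g v = iso g v := fun _ _ => rfl
  have hinj : Function.Injective φ := by
    intro g h hgh
    apply iso.injective
    ext v
    exact congrFun (congrArg DFunLike.coe hgh) v
  have hE : ∀ (g : G) x y, X.Adj (φ g x) (φ g y) ↔ X.Adj x y :=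
    fun g x y => (iso g).map_rel_iff
  have hfull : ∀ σ : Equiv.Perm V, (∀ x y, X.Adj (σ x) (σ y) ↔ X.Adj x y) →
      ∃ t : G, φ t = σ := by
    intro σ hσ
    refine ⟨iso.symm ⟨σ, fun {a b} => hσ a b⟩, ?_⟩
    ext v
    rw [hφ, MulEquiv.apply_symm_apply]
    rfl
  let out : Sym2 V → V × V := fun e => Quot.out e
  have hout : ∀ e : Sym2 V, s((out e).1, (out e).2) = e := fun e => Quot.out_eq e
  have hcard : Cardinal.mk (out '' S) ≤ max κ Cardinal.aleph0 :=
    Cardinal.mk_image_le.trans (hcon.trans (le_max_left _ _))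
  obtain ⟨J, P, hJ, hP, htop⟩ := Pool.Agent.Helper835.InfGraph.generated (E := X.Adj) (φ := φ)
    (max κ Cardinal.aleph0) hθ Pool.Agent.Helper835.InfGroup.zel_ne
    Pool.Agent.Helper835.InfGroup.zel_sq Pool.Agent.Helper835.InfGroup.zel_central
    Pool.Agent.Helper835.InfGroup.comm_cases hinj hE hfull (out '' S) hcard (by
      intro x y hxy
      obtain ⟨s, hs, f, hf⟩ := hS s(x, y) hxy
      refine ⟨iso.symm f, out s, ⟨s, hs, rfl⟩, ?_⟩
      rw [hφ, hφ, MulEquiv.apply_symm_apply]
      rw [← hout s, Sym2.map_mk, Sym2.eq_iff] at hf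
      exact hf)
  exact Pool.Agent.Helper835.InfGroup.not_generated hθ emb hemb hI hIic hA hA2 hJ P hP htop

end Pool.Agent.S04707
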