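import Pool.Statements.S04714
import Pool.Agent.Helper235.CosetMain

set_option autoImplicit false
open N18cfefb3
open Filter Function Real
open scoped Pointwise
open Pool Pool.MP_0f9876_co

namespace Pool.Agent.S04714

open Pool.Agent.Helper235.CosetMain Pool.Agent.Helper235.CosetExist Pool.Agent.Helper235.CosetSign

lemma lin_le_pow (l : ℕ) (hl : 12 ≤ l) : 36 * l ≤ 2 ^ l := by
  induction l, hl using Nat.le_induction with
  | base => norm_num
  | succ n hn ih => rw [pow_succ]; omega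

lemma params (C : ℕ) : ∃ n, ∃ cls : Vec n → Cls 49, ∀ (k : Cls 49) (S : AffineSubspace (ZMod 2) (Vec n)),
      n ≤ Module.finrank (ZMod 2) S.direction + C →
      ¬ ((S : Set (Vec n)) ⊆ {x | cls x = k} + {x | cls x = k}) := by
  obtain ⟨l, hl⟩ : ∃ l, l = C + 12 := ⟨_, rfl⟩
  obtain ⟨m', hm'⟩ : ∃ m', m' = 2 ^ (4 * l - 1) := ⟨_, rfl⟩
  have hm2 : 2 * m' = 2 ^ (4 * l) := by
    rw [hm', ← pow_succ']
    congr 1
    omega
  have hm1 : 1 ≤ m' := by rw [hm']; exact Nat.one_le_two_pow
  have hlm : 1 ≤ l * m' := Nat.mul_pos (by omega) hm1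
  have h12 : 12 * m' ≤ l * m' := Nat.mul_le_mul_right _ (by omega)
  have hll : l ≤ l * m' := Nat.le_mul_of_pos_right _ hm1
  refine ⟨2 * m' * (36 * l), ?_⟩
  apply construct m' (36 * l) (2 ^ (12 * l)) (2 * m') (27 * l) C (2 ^ (11 * l)) 49 l
  · positivity
  · omega
  · omega
  · rw [hm2, ← pow_mul, ← pow_succ', ← pow_add]
    exact Nat.pow_le_pow_right (by norm_num) (by omega)
  · rw [← pow_add]
    exact Nat.pow_le_pow_right (by norm_num) (by omega)
  · have h1 : 2 * m' * (36 * l) ≤ 2 ^ (5 * l) := by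
      rw [hm2]
      calc 2 ^ (4 * l) * (36 * l) ≤ 2 ^ (4 * l) * 2 ^ l := Nat.mul_le_mul_left _ (lin_le_pow l (by omega))
        _ = 2 ^ (5 * l) := by rw [← pow_add]; congr 1; omega
    have h2 : 4 * (2 ^ (5 * l) * 2 ^ (5 * l)) ≤ 2 ^ (11 * l) := by
      calc 4 * (2 ^ (5 * l) * 2 ^ (5 * l)) = 2 ^ (2 + (5 * l + 5 * l)) := by
            rw [pow_add, pow_add]; norm_num
        _ ≤ 2 ^ (11 * l) := Nat.pow_le_pow_right (by norm_num) (by omega)
    have h3 : 2 ≤ 2 ^ (5 * l) := by
      calc 2 = 2 ^ 1 := by norm_num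
        _ ≤ _ := Nat.pow_le_pow_right (by norm_num) (by omega)
    calc (2 * m' * (36 * l)) * (2 * m' * (36 * l)) + 2 * m' * (36 * l) + 2
        ≤ 2 ^ (5 * l) * 2 ^ (5 * l) + 2 ^ (5 * l) + 2 ^ (5 * l) := by
          have := Nat.mul_le_mul h1 h1
          omega
      _ ≤ 4 * (2 ^ (5 * l) * 2 ^ (5 * l)) := by nlinarith
      _ ≤ _ := h2
  · calc 4 * (2 ^ (12 * l)) ^ (2 * m') * 2 ^ (2 * m') = 2 ^ (2 + 12 * l * (2 * m') + 2 * m') := by
          rw [pow_add 2 (2 + 12 * l * (2 * m')) (2 * m'), pow_add 2 2 (12 * l * (2 * m')),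
            pow_mul 2 (12 * l) (2 * m')]
          norm_num
      _ ≤ 2 ^ (27 * l * m') := by
          apply Nat.pow_le_pow_right (by norm_num)
          have e1 : 12 * l * (2 * m') = 24 * (l * m') := by ring
          have e2 : 27 * l * m' = 27 * (l * m') := by ring
          rw [e1, e2]
          omega
  · calc 4 * (2 ^ (12 * l)) ^ (2 * (2 * m') - 1) ≤ 4 * (2 ^ (12 * l)) ^ (2 * (2 * m')) := by
          apply Nat.mul_le_mul_left
          exact Nat.pow_le_pow_right (by positivity) (by omega)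
      _ = 2 ^ (2 + 12 * l * (2 * (2 * m'))) := by
          rw [pow_add 2 2 (12 * l * (2 * (2 * m'))), pow_mul 2 (12 * l) (2 * (2 * m'))]
          norm_num
      _ ≤ 2 ^ (2 * m' * (36 * l)) := by
          apply Nat.pow_le_pow_right (by norm_num)
          have e1 : 12 * l * (2 * (2 * m')) = 48 * (l * m') := by ring
          have e2 : 2 * m' * (36 * l) = 72 * (l * m') := by ring
          rw [e1, e2]
          omega
  · intro N hN
    have h1 := choose_sq N
    have hN' : 2 ^ (4 * l - 1) ≤ N := by omega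
    have h2 : ((4 * C + 1) * N.choose (N / 2) * 2 ^ l) ^ 2 ≤ (2 ^ N) ^ 2 := by
      have hC : 4 * C + 1 ≤ 2 ^ (l - 1) := by
        have h3 : C + 11 < 2 ^ (C + 11) := Nat.lt_two_pow_self
        have h4 : C + 1 ≤ 2 ^ C := Nat.lt_two_pow_self
        have h5 : l - 1 = C + 11 := by omega
        rw [h5, pow_add]
        omega
      calc ((4 * C + 1) * N.choose (N / 2) * 2 ^ l) ^ 2
          = (4 * C + 1) ^ 2 * (2 ^ l) ^ 2 * (N.choose (N / 2)) ^ 2 := by ring
        _ ≤ (2 ^ (l - 1)) ^ 2 * (2 ^ l) ^ 2 * (N.choose (N / 2)) ^ 2 := by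
            apply Nat.mul_le_mul_right
            apply Nat.mul_le_mul_right
            exact Nat.pow_le_pow_left hC 2
        _ = 2 ^ (4 * l - 2) * (N.choose (N / 2)) ^ 2 := by
            rw [← pow_mul, ← pow_mul, ← pow_add]
            congr 2
            omega
        _ ≤ N * (N.choose (N / 2)) ^ 2 := by
            apply Nat.mul_le_mul_right
            exact le_trans (Nat.pow_le_pow_right (by norm_num) (by omega)) hN'
        _ ≤ 4 ^ N := h1
        _ = (2 ^ N) ^ 2 := by rw [← pow_mul, mul_comm N 2, pow_mul]; norm_num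
    exact (Nat.pow_le_pow_iff_left (by norm_num)).mp h2
  · rw [← pow_mul, ← pow_mul, ← pow_add]
    apply Nat.pow_lt_pow_right (by norm_num)
    have e1 : 2 * m' * (36 * l) = 72 * (l * m') := by ring
    have e2 : 12 * l * (2 * m') = 24 * (l * m') := by ring
    have e3 : l * (49 * (2 * m')) = 98 * (l * m') := by ring
    rw [e1, e2, e3]
    omega
  · have e1 : 2 * m' * (36 * l) = 72 * (l * m') := by ring
    rw [e1]
    omega

/-- The negation of the preceding statement: ∃ c : ℕ → ℕ, ∀ n K, every partition of F_2^n into K (possibly empty) classes has some class i and an affine subspace S ⊆ A_i + A_i with n ≤ dim(dir S) + c K -/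
theorem result :
    ¬ (∃ (c : ℕ → ℕ), ∀ (n K : ℕ) (A : Fin K → Set (𝔽₂ n)), (⋃ i, A i) = Set.univ → Pairwise (Disjoint on A) → ∃ (i : Fin K) (S : AffineSubspace (ZMod 2) (𝔽₂ n)), (S : Set (𝔽₂ n)) ⊆ A i + A i ∧ n ≤ Module.finrank (ZMod 2) S.direction + c K) := by
  rintro ⟨c, hc⟩
  let e : Cls 49 ≃ Fin (Fintype.card (Cls 49)) := Fintype.equivFin _
  obtain ⟨n, cls, hcls⟩ := params (c (Fintype.card (Cls 49)))
  obtain ⟨i, S, hS, hn⟩ := hc n (Fintype.card (Cls 49)) (fun i => {x | cls x = e.symm i}) (by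
    apply Set.eq_univ_of_forall
    intro x
    rw [Set.mem_iUnion]
    exact ⟨e (cls x), by simp⟩) (by
    intro i j hij
    apply Set.disjoint_left.mpr
    intro x hx hy
    simp only [Set.mem_ofPred_eq] at hx hy
    exact hij (e.symm.injective (hx.symm.trans hy)))
  exact hcls (e.symm i) S hn hS

end Pool.Agent.S04714
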