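import Pool.Statements.S04726

set_option autoImplicit false
set_option linter.unusedSectionVars false
set_option linter.unusedVariables false
open Pool Pool.MP_109265_co

namespace Pool.Agent.S04726

section base
open Finset Classical




/-- graph whose edges are the pairs listed in `E` -/
def gr {V : Type} [DecidableEq V] (E : Finset (Finset V)) : SimpleGraph V where
  Adj a b := a ≠ b ∧ ({a, b} : Finset V) ∈ E
  symm := ⟨by
    intro a b h
    refine ⟨h.1.symm, ?_⟩
    rw [Finset.pair_comm]
    exact h.2⟩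
  loopless := ⟨fun a h => h.1 rfl⟩

theorem forest_bound {V ι : Type} [DecidableEq V] [DecidableEq ι] (N : Finset V) (κ : V → ι)
    (E : Finset (Finset V))
    (hκ : ∀ u v, (gr E).Adj u v → κ u = κ v)
    (h : ∀ u ∈ N, ∀ v ∈ N, κ u = κ v → (gr E).Reachable u v) :
    N.card ≤ E.card + (N.image κ).card := by
  classical
  rcases N.eq_empty_or_nonempty with rfl | ⟨v0, hv0⟩
  · simp
  have : Nonempty V := ⟨v0⟩
  have hr : ∀ i ∈ N.image κ, ∃ r ∈ N, κ r = i := by
    intro i hi
    simpa using hi
  choose! r hrN hrκ using hr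
  set reps := (N.image κ).image r with hreps
  have h1 : reps.card ≤ (N.image κ).card := Finset.card_image_le
  have hnext : ∀ v ∈ N \ reps, ∃ w, (gr E).Adj v w ∧
      (gr E).dist w (r (κ v)) < (gr E).dist v (r (κ v)) := by
    intro v hv
    rw [Finset.mem_sdiff] at hv
    have hvi : κ v ∈ N.image κ := Finset.mem_image_of_mem κ hv.1
    have hne : v ≠ r (κ v) := by
      intro h'
      apply hv.2
      rw [hreps, Finset.mem_image]
      exact ⟨κ v, hvi, h'.symm⟩
    have hreach : (gr E).Reachable v (r (κ v)) :=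
      h v hv.1 (r (κ v)) (hrN _ hvi) (hrκ _ hvi).symm
    obtain ⟨p, hp⟩ := hreach.exists_walk_length_eq_dist
    obtain ⟨w, hadj, q, rfl⟩ := SimpleGraph.Walk.exists_eq_cons_of_ne hne p
    refine ⟨w, hadj, ?_⟩
    rw [← hp, SimpleGraph.Walk.length_cons]
    have := SimpleGraph.dist_le q
    omega
  choose! nx hnx1 hnx2 using hnext
  have h2 : (N \ reps).card ≤ E.card := by
    apply Finset.card_le_card_of_injOn (fun v => ({v, nx v} : Finset V))
    · intro v hv
      exact (hnx1 v hv).2
    · intro v hv w hw hvw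
      by_contra hne
      have hvw' : ({v, nx v} : Finset V) = {w, nx w} := hvw
      have e1 : v ∈ ({w, nx w} : Finset V) := by rw [← hvw']; simp
      have e2 : w ∈ ({v, nx v} : Finset V) := by rw [hvw']; simp
      simp only [Finset.mem_insert, Finset.mem_singleton] at e1 e2
      have e1' : v = nx w := by tauto
      have e2' : w = nx v := by
        rcases e2 with e2 | e2
        · exact absurd e2.symm hne
        · exact e2
      have hk : κ v = κ w := hκ v w (by rw [e2']; exact hnx1 v hv)
      have d1 := hnx2 v hv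
      have d2 := hnx2 w hw
      rw [← e2', hk] at d1
      rw [← e1'] at d2
      omega
  have h3 : N.card ≤ (N \ reps).card + reps.card := by
    have := Finset.card_le_card_sdiff_add_card (s := N) (t := reps)
    omega
  omega

theorem collapse {V ι : Type} [DecidableEq V] [DecidableEq ι] (N : Finset V) (κ : V → ι) :
    ∀ (k : ℕ) (F E : Finset (Finset V)), F.card = k →
    (∀ t ∈ F, t.card = 3) → (∀ t ∈ F, ∀ e ⊆ t, e.card = 2 → e ∈ E) →
    (∀ Q ⊆ F, Q.Nonempty → ∃ e ∈ E, (Q.filter (fun t => e ⊆ t)).card = 1) →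
    (∀ e ∈ E, e.card = 2) →
    (∀ u v, (gr E).Adj u v → κ u = κ v) →
    (∀ u ∈ N, ∀ v ∈ N, κ u = κ v → (gr E).Reachable u v) →
    N.card + F.card ≤ E.card + (N.image κ).card := by
  intro k
  induction k with
  | zero =>
    intro F E hF _ _ _ _ hκ hr
    have := forest_bound N κ E hκ hr
    omega
  | succ k ih =>
    intro F E hF h3 hE hQ hc2 hκ hr
    have hne : F.Nonempty := by
      rw [← Finset.card_pos]; omega
    obtain ⟨e, he, h1⟩ := hQ F (Finset.Subset.refl _) hne
    obtain ⟨t, ht⟩ := Finset.card_eq_one.mp h1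
    have htF : t ∈ F ∧ e ⊆ t := by
      have : t ∈ F.filter (fun t => e ⊆ t) := by rw [ht]; simp
      simpa using this
    have huniq : ∀ t' ∈ F, e ⊆ t' → t' = t := by
      intro t' h1 h2
      have : t' ∈ F.filter (fun t => e ⊆ t) := by simp [h1, h2]
      rw [ht] at this
      simpa using this
    have hsub : ∀ u v, (gr (E.erase e)).Adj u v → (gr E).Adj u v := by
      intro u v huv
      exact ⟨huv.1, Finset.mem_of_mem_erase huv.2⟩
    have hadj : ∀ u v, (gr E).Adj u v → (gr (E.erase e)).Reachable u v := by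
      intro u v huv
      by_cases hue : ({u, v} : Finset V) = e
      · have hcard := h3 t htF.1
        have hu : u ∈ t := htF.2 (by rw [← hue]; simp)
        have hv : v ∈ t := htF.2 (by rw [← hue]; simp)
        have hw : ∃ w ∈ t, w ≠ u ∧ w ≠ v := by
          by_contra hcon
          push Not at hcon
          have : t ⊆ {u, v} := by
            intro w hw
            by_cases h : w = u
            · simp [h]
            · simp [hcon w hw h]
          have := Finset.card_le_card this
          have h2 := Finset.card_le_two (a := u) (b := v)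
          omega
        obtain ⟨w, hwt, hwu, hwv⟩ := hw
        have k1 : ({u, w} : Finset V) ∈ E := by
          apply hE t htF.1
          · intro x hx; simp at hx; rcases hx with rfl | rfl <;> assumption
          · rw [Finset.card_pair hwu.symm]
        have k2 : ({w, v} : Finset V) ∈ E := by
          apply hE t htF.1
          · intro x hx; simp at hx; rcases hx with rfl | rfl <;> assumption
          · rw [Finset.card_pair hwv]
        have n1 : ({u, w} : Finset V) ≠ e := by
          intro h
          have : w ∈ ({u, v} : Finset V) := by rw [hue, ← h]; simp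
          simp at this
          tauto
        have n2 : ({w, v} : Finset V) ≠ e := by
          intro h
          have : w ∈ ({u, v} : Finset V) := by rw [hue, ← h]; simp
          simp at this
          tauto
        have a1 : (gr (E.erase e)).Adj u w := ⟨hwu.symm, Finset.mem_erase.mpr ⟨n1, k1⟩⟩
        have a2 : (gr (E.erase e)).Adj w v := ⟨hwv, Finset.mem_erase.mpr ⟨n2, k2⟩⟩
        exact a1.reachable.trans a2.reachable
      · have : (gr (E.erase e)).Adj u v := ⟨huv.1, Finset.mem_erase.mpr ⟨hue, huv.2⟩⟩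
        exact this.reachable
    have hreach : ∀ u v, (gr E).Reachable u v → (gr (E.erase e)).Reachable u v := by
      intro u v ⟨p⟩
      induction p with
      | nil => exact SimpleGraph.Reachable.refl _
      | cons h q ihq => exact (hadj _ _ h).trans ihq
    have := ih (F.erase t) (E.erase e) (by rw [Finset.card_erase_of_mem htF.1]; omega)
      (fun t' ht' => h3 t' (Finset.mem_of_mem_erase ht'))
      (by
        intro t' ht' e' he' hc
        rw [Finset.mem_erase] at ht' ⊢
        refine ⟨?_, hE t' ht'.2 e' he' hc⟩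
        rintro rfl
        exact ht'.1 (huniq t' ht'.2 he'))
      (by
        intro Q hQF hQne
        obtain ⟨e', he', hc⟩ := hQ Q (hQF.trans (Finset.erase_subset _ _)) hQne
        refine ⟨e', ?_, hc⟩
        rw [Finset.mem_erase]
        refine ⟨?_, he'⟩
        rintro rfl
        obtain ⟨t', ht'⟩ := Finset.card_eq_one.mp hc
        have : t' ∈ Q.filter (fun t => e' ⊆ t) := by rw [ht']; simp
        rw [Finset.mem_filter] at this
        have h5 := hQF this.1
        rw [Finset.mem_erase] at h5
        exact h5.1 (huniq t' h5.2 this.2))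
      (fun e' he' => hc2 e' (Finset.mem_of_mem_erase he'))
      (fun u v huv => hκ u v (hsub u v huv))
      (fun u hu v hv huv => hreach u v (hr u hu v hv huv))
    rw [Finset.card_erase_of_mem htF.1, Finset.card_erase_of_mem he] at this
    have p1 : 0 < F.card := Finset.card_pos.mpr hne
    have p2 : 0 < E.card := Finset.card_pos.mpr ⟨e, he⟩
    omega


end base

section partB
open Finset



section tri

variable {V : Type} [Fintype V] [DecidableEq V]

/-- a closed triangulated surface given by its set of facial triangles -/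
structure IsTri (T : Finset (Finset V)) : Prop where
  c3 : ∀ t ∈ T, t.card = 3
  cov : ∀ v : V, ∃ t ∈ T, v ∈ t
  two : ∀ t ∈ T, ∀ e ⊆ t, e.card = 2 → (T.filter (fun s => e ⊆ s)).card = 2
  link : ∀ v a b : V, (∃ t ∈ T, v ∈ t ∧ a ∈ t ∧ v ≠ a) → (∃ t ∈ T, v ∈ t ∧ b ∈ t ∧ v ≠ b) →
        (SimpleGraph.fromRel (fun x y : V => ({v, x, y} : Finset V) ∈ T)).Reachable a b
  conn : ∀ a b : V, (SimpleGraph.fromRel (fun x y : V => ∃ t ∈ T, x ∈ t ∧ y ∈ t)).Reachable a b

/-- the edges of the triangulation -/
def edges (T : Finset (Finset V)) : Finset (Finset V) := T.biUnion (fun t => t.powersetCard 2)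

/-- the two vertices opposite to an edge -/
def opp (T : Finset (Finset V)) (e : Finset V) : Finset V :=
  Finset.univ.filter (fun v => v ∉ e ∧ insert v e ∈ T)

theorem mem_edges {T : Finset (Finset V)} {e : Finset V} :
    e ∈ edges T ↔ ∃ t ∈ T, e ⊆ t ∧ e.card = 2 := by
  simp [edges, Finset.mem_biUnion, Finset.mem_powersetCard]

theorem mem_opp {T : Finset (Finset V)} {e : Finset V} {v : V} :
    v ∈ opp T e ↔ v ∉ e ∧ insert v e ∈ T := by
  simp [opp]

variable {T : Finset (Finset V)}

theorem edges_card {e : Finset V} (he : e ∈ edges T) : e.card = 2 := by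
  obtain ⟨t, _, _, h⟩ := mem_edges.mp he
  exact h

theorem IsTri.ne3 (hT : IsTri T) {a b c : V} (h : ({a, b, c} : Finset V) ∈ T) :
    a ≠ b ∧ a ≠ c ∧ b ≠ c := by
  have := hT.c3 _ h
  refine ⟨?_, ?_, ?_⟩
  · rintro rfl
    simp at this
    have h2 := Finset.card_le_two (a := a) (b := c)
    omega
  · rintro rfl
    have h3 : ({a, b, a} : Finset V) = {a, b} := by ext x; simp; tauto
    rw [h3] at this
    have h2 := Finset.card_le_two (a := a) (b := b)
    omega
  · rintro rfl
    simp at this
    have h2 := Finset.card_le_two (a := a) (b := b)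
    omega

theorem rot {a b c : V} : ({a, b, c} : Finset V) = {b, c, a} := by ext x; simp; tauto

theorem swp {a b c : V} : ({a, b, c} : Finset V) = {b, a, c} := by ext x; simp; tauto

theorem swp2 {a b c : V} : ({a, b, c} : Finset V) = {a, c, b} := by ext x; simp; tauto

theorem card_opp (hT : IsTri T) {e : Finset V} (he : e ∈ edges T) : (opp T e).card = 2 := by
  obtain ⟨t, ht, het, hc⟩ := mem_edges.mp he
  rw [← hT.two t ht e het hc]
  apply Finset.card_bij (fun v _ => insert v e)
  · intro v hv
    rw [mem_opp] at hv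
    simp [hv.2]
  · intro v hv w hw h
    rw [mem_opp] at hv hw
    have : v ∈ insert w e := by rw [← h]; simp
    rw [Finset.mem_insert] at this
    tauto
  · intro s hs
    rw [Finset.mem_filter] at hs
    have h3 := hT.c3 s hs.1
    have : (s \ e).card = 1 := by
      rw [Finset.card_sdiff_of_subset hs.2]; omega
    obtain ⟨v, hv⟩ := Finset.card_eq_one.mp this
    have hvs : v ∈ s \ e := by rw [hv]; simp
    rw [Finset.mem_sdiff] at hvs
    have hse : insert v e = s := by
      apply Finset.eq_of_subset_of_card_le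
      · intro x hx
        rw [Finset.mem_insert] at hx
        rcases hx with rfl | hx
        · exact hvs.1
        · exact hs.2 hx
      · rw [Finset.card_insert_of_notMem hvs.2]; omega
    refine ⟨v, ?_, hse⟩
    rw [mem_opp]
    exact ⟨hvs.2, by rw [hse]; exact hs.1⟩

theorem pair_mem_edges (hT : IsTri T) {a b c : V} (h : ({a, b, c} : Finset V) ∈ T) :
    ({a, b} : Finset V) ∈ edges T := by
  rw [mem_edges]
  refine ⟨_, h, ?_, Finset.card_pair (hT.ne3 h).1⟩
  intro x hx
  simp at hx ⊢
  tauto

theorem mem_opp_pair (hT : IsTri T) {a b x : V} :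
    x ∈ opp T {a, b} ↔ ({x, a, b} : Finset V) ∈ T := by
  rw [mem_opp]
  constructor
  · intro h; exact h.2
  · intro h
    refine ⟨?_, h⟩
    have := hT.ne3 h
    simp
    exact ⟨this.1, this.2.1⟩

theorem edge_of_mem (hT : IsTri T) {t : Finset V} (ht : t ∈ T) {a b : V} (ha : a ∈ t) (hb : b ∈ t)
    (hab : a ≠ b) : ({a, b} : Finset V) ∈ edges T := by
  rw [mem_edges]
  refine ⟨t, ht, ?_, Finset.card_pair hab⟩
  intro x hx
  simp at hx
  rcases hx with rfl | rfl <;> assumption

theorem edges_pair_ne {a b : V} (h : ({a, b} : Finset V) ∈ edges T) : a ≠ b := by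
  rintro rfl
  have := edges_card h
  simp at this

/-- third vertex of a triangle through an edge -/
theorem third (hT : IsTri T) {t : Finset V} (ht : t ∈ T) {a b : V} (ha : a ∈ t) (hb : b ∈ t)
    (hab : a ≠ b) : ∃ c, t = {a, b, c} := by
  have h3 := hT.c3 t ht
  have hs : ({a, b} : Finset V) ⊆ t := by
    intro x hx
    simp at hx
    rcases hx with rfl | rfl <;> assumption
  have : (t \ {a, b}).card = 1 := by
    rw [Finset.card_sdiff_of_subset hs, Finset.card_pair hab]; omega
  obtain ⟨c, hc⟩ := Finset.card_eq_one.mp this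
  refine ⟨c, ?_⟩
  have hct : c ∈ t \ {a, b} := by rw [hc]; simp
  rw [Finset.mem_sdiff] at hct
  symm
  apply Finset.eq_of_subset_of_card_le
  · intro x hx
    simp at hx
    rcases hx with rfl | rfl | rfl
    · exact ha
    · exact hb
    · exact hct.1
  · rw [h3]
    have : c ∉ ({a, b} : Finset V) := hct.2
    simp at this
    rw [Finset.card_eq_three.mpr ⟨a, b, c, hab, fun h => this.1 h.symm, fun h => this.2 h.symm, rfl⟩]

theorem link_closed (hT : IsTri T) (v : V) (K : V → Prop) (a : V)
    (ha : ({v, a} : Finset V) ∈ edges T) (hKa : K a)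
    (hcl : ∀ x y, ({v, x, y} : Finset V) ∈ T → K x → K y) :
    ∀ b, ({v, b} : Finset V) ∈ edges T → K b := by
  intro b hb
  have key : ∀ a : V, ({v, a} : Finset V) ∈ edges T → ∃ t ∈ T, v ∈ t ∧ a ∈ t ∧ v ≠ a := by
    intro a ha
    have hne := edges_pair_ne ha
    obtain ⟨t, ht, hs, _⟩ := mem_edges.mp ha
    exact ⟨t, ht, hs (by simp), hs (by simp), hne⟩
  obtain ⟨p⟩ := hT.link v a b (key a ha) (key b hb)
  clear ha hb
  induction p with
  | nil => exact hKa
  | cons h q ih =>
    apply ih
    rw [SimpleGraph.fromRel_adj] at h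
    rcases h.2 with h2 | h2
    · exact hcl _ _ h2 hKa
    · exact hcl _ _ (by rw [swp2]; exact h2) hKa

theorem conn_closed (hT : IsTri T) (K : V → Prop) (a : V) (hKa : K a)
    (hcl : ∀ x y, ({x, y} : Finset V) ∈ edges T → K x → K y) : ∀ b, K b := by
  intro b
  obtain ⟨p⟩ := hT.conn a b
  induction p with
  | nil => exact hKa
  | cons h q ih =>
    apply ih
    rw [SimpleGraph.fromRel_adj] at h
    rcases h.2 with ⟨t, ht, h1, h2⟩ | ⟨t, ht, h1, h2⟩
    · exact hcl _ _ (edge_of_mem hT ht h1 h2 h.1) hKa
    · exact hcl _ _ (edge_of_mem hT ht h2 h1 h.1) hKa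

theorem strong_conn (hT : IsTri T) (Q : Finset (Finset V)) (hQ : Q ⊆ T) (hne : Q.Nonempty)
    (hcl : ∀ t ∈ Q, ∀ e ⊆ t, e.card = 2 → ∀ t' ∈ T, e ⊆ t' → t' ∈ Q) : ∀ v, ∃ t ∈ Q, v ∈ t := by
  have star : ∀ t ∈ Q, ∀ v ∈ t, ∀ t' ∈ T, v ∈ t' → t' ∈ Q := by
    intro t ht v hv t' ht' hv'
    have hc := hT.c3 t (hQ ht)
    have hc' := hT.c3 t' ht'
    have ex : ∀ s : Finset V, s.card = 3 → v ∈ s → ∃ a ∈ s, v ≠ a := by
      intro s hs hvs
      by_contra hcon
      push Not at hcon
      have : s ⊆ {v} := by
        intro x hx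
        simp [hcon x hx]
      have := Finset.card_le_card this
      simp at this
      omega
    obtain ⟨a, hat, hva⟩ := ex t hc hv
    obtain ⟨b, hbt, hvb⟩ := ex t' hc' hv'
    have hK := link_closed hT v (fun x => ∀ s ∈ T, v ∈ s → x ∈ s → s ∈ Q) a
      (edge_of_mem hT (hQ ht) hv hat hva)
      (by
        intro s hs hvs has
        refine hcl t ht {v, a} ?_ (Finset.card_pair hva) s hs ?_
        · intro x hx; simp at hx; rcases hx with rfl | rfl <;> assumption
        · intro x hx; simp at hx; rcases hx with rfl | rfl <;> assumption)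
      (by
        intro x y hxy hx s hs hvs hys
        have hne := hT.ne3 hxy
        have h1 : ({v, x, y} : Finset V) ∈ Q := hx _ hxy (by simp) (by simp)
        refine hcl _ h1 {v, y} ?_ (Finset.card_pair hne.2.1) s hs ?_
        · intro z hz; simp at hz ⊢; tauto
        · intro z hz; simp at hz; rcases hz with rfl | rfl <;> assumption)
      b (edge_of_mem hT ht' hv' hbt hvb)
    exact hK t' ht' hv' hbt
  obtain ⟨t, ht⟩ := hne
  have hc := hT.c3 t (hQ ht)
  obtain ⟨v, hv⟩ : t.Nonempty := by rw [← Finset.card_pos]; omega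
  apply conn_closed hT (fun v => ∃ t ∈ Q, v ∈ t) v ⟨t, ht, hv⟩
  rintro x y hxy ⟨s, hs, hxs⟩
  obtain ⟨s', hs', hsub, _⟩ := mem_edges.mp hxy
  exact ⟨s', star s hs x hxs s' hs' (hsub (by simp)), hsub (by simp)⟩

end tri


end partB

section partC
open Finset



section sides

variable {V ι : Type} [Fintype V] [DecidableEq V] [DecidableEq ι]

/-- a system of representative edges for nonadjacent opposite pairs inside `S` -/
structure Rep (T : Finset (Finset V)) (S : Finset V) (R : Finset (Finset V)) : Prop where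
  sub : R ⊆ edges T
  inj : ∀ e ∈ R, ∀ e' ∈ R, opp T e = opp T e' → e = e'
  oppS : ∀ r ∈ R, opp T r ⊆ S
  oppN : ∀ r ∈ R, opp T r ∉ edges T

def sides (T : Finset (Finset V)) (S : Finset V) (R : Finset (Finset V)) :
    Finset (V × Finset V) :=
  (Sᶜ ×ˢ S.powersetCard 2).filter
    (fun s => insert s.1 s.2 ∈ T ∨ ∃ e ∈ R, e ⊆ Sᶜ ∧ s.1 ∈ e ∧ opp T e = s.2)

variable {T : Finset (Finset V)} {S : Finset V} {R : Finset (Finset V)} {κ : V → ι}

theorem mem_sides {s : V × Finset V} : s ∈ sides T S R ↔
    (s.1 ∉ S ∧ (s.2 ⊆ S ∧ s.2.card = 2)) ∧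
      (insert s.1 s.2 ∈ T ∨ ∃ e ∈ R, e ⊆ Sᶜ ∧ s.1 ∈ e ∧ opp T e = s.2) := by
  simp [sides, Finset.mem_filter, Finset.mem_product, Finset.mem_powersetCard]

theorem even_opp (hT : IsTri T) (x v : V) : Even (opp T {x, v}).card := by
  by_cases h : ({x, v} : Finset V) ∈ edges T
  · rw [card_opp hT h]; decide
  · have : opp T {x, v} = ∅ := by
      rw [Finset.eq_empty_iff_forall_notMem]
      intro y hy
      rw [mem_opp_pair hT] at hy
      apply h
      rw [rot] at hy
      exact pair_mem_edges hT hy
    rw [this]; simp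

theorem even_of_invol {α : Type} [DecidableEq α] (s : Finset α) (g : α → α)
    (hm : ∀ a ∈ s, g a ∈ s) (hi : ∀ a ∈ s, g (g a) = a) (hn : ∀ a ∈ s, g a ≠ a) :
    Even s.card := by
  have h : ∑ x ∈ s, (1 : ZMod 2) = 0 := by
    apply Finset.sum_involution (fun a _ => g a)
    · intro a ha; decide
    · intro a ha _; exact hn a ha
    · intro a ha; exact hm a ha
    · intro a ha; exact hi a ha
  rw [Finset.sum_const, nsmul_eq_mul, mul_one] at h
  rw [ZMod.natCast_eq_zero_iff_even] at h
  exact h

theorem pair_eq_left {a b c : V} (h : ({a, b} : Finset V) = {a, c}) : b = c := by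
  have h1 : b ∈ ({a, c} : Finset V) := by rw [← h]; simp
  have h2 : c ∈ ({a, b} : Finset V) := by rw [h]; simp
  simp at h1 h2
  rcases h1 with h1 | h1
  · rcases h2 with h2 | h2
    · rw [h1, h2]
    · exact h2.symm
  · exact h1

theorem parity (hT : IsTri T) (hR : Rep T S R)
    (hκ : ∀ v a, v ∉ S → a ∉ S → ({v, a} : Finset V) ∈ edges T → ({v, a} : Finset V) ∉ R → κ v = κ a)
    (i : ι) (x : V) (hx : x ∈ S) :
    Even ((sides T S R).filter (fun s => κ s.1 = i ∧ x ∈ s.2)).card := by
  set A : Finset (Σ _ : V, V) := (Finset.univ.filter (fun v => v ∉ S ∧ κ v = i)).sigma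
    (fun v => opp T {x, v}) with hA
  have hAm : ∀ v a, (⟨v, a⟩ : Σ _ : V, V) ∈ A ↔ (v ∉ S ∧ κ v = i) ∧ ({a, x, v} : Finset V) ∈ T := by
    intro v a
    rw [hA, Finset.mem_sigma, mem_opp_pair hT]
    simp
  have hAe : Even A.card := by
    rw [hA, Finset.card_sigma]
    apply Finset.even_sum
    intro v _
    exact even_opp hT x v
  have hA3 : Even (A.filter (fun p => p.2 ∉ S ∧ ({p.1, p.2} : Finset V) ∉ R)).card := by
    apply even_of_invol _ (fun p => ⟨p.2, p.1⟩)
    · rintro ⟨v, a⟩ h
      rw [Finset.mem_filter, hAm] at h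
      obtain ⟨⟨⟨hv, hvi⟩, ht⟩, ha, hr⟩ := h
      simp only at ha hr
      rw [Finset.mem_filter, hAm]
      have he : ({v, a} : Finset V) ∈ edges T := by
        rw [rot, rot] at ht
        exact pair_mem_edges hT ht
      refine ⟨⟨⟨ha, ?_⟩, ?_⟩, hv, ?_⟩
      · rw [← hκ v a hv ha he hr]; exact hvi
      · have : ({v, x, a} : Finset V) = {a, x, v} := by ext z; simp; tauto
        rw [this]; exact ht
      · simp only
        rw [Finset.pair_comm]; exact hr
    · rintro ⟨v, a⟩ _; rfl
    · rintro ⟨v, a⟩ h heq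
      rw [Finset.mem_filter, hAm] at h
      have hne := hT.ne3 h.1.2
      have : a = v := by
        have := congrArg Sigma.fst heq
        exact this
      exact hne.2.1 this
  have hsplit := Finset.card_filter_add_card_filter_not (s := A)
    (fun p : (Σ _ : V, V) => p.2 ∉ S ∧ ({p.1, p.2} : Finset V) ∉ R)
  have hA12 : Even (A.filter (fun p => ¬ (p.2 ∉ S ∧ ({p.1, p.2} : Finset V) ∉ R))).card := by
    rw [← hsplit] at hAe
    exact (Nat.even_add.mp hAe).mp hA3
  have hbij : (A.filter (fun p => ¬ (p.2 ∉ S ∧ ({p.1, p.2} : Finset V) ∉ R))).card =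
      ((sides T S R).filter (fun s => κ s.1 = i ∧ x ∈ s.2)).card := by
    apply Finset.card_bij (fun p _ => (p.1, if p.2 ∈ S then ({x, p.2} : Finset V) else opp T {p.1, p.2}))
    · rintro ⟨v, a⟩ h
      rw [Finset.mem_filter, hAm] at h
      obtain ⟨⟨⟨hv, hvi⟩, ht⟩, hr⟩ := h
      simp only at hr
      have hne := hT.ne3 ht
      rw [Finset.mem_filter, mem_sides]
      by_cases ha : a ∈ S
      · simp only [ha, if_true]
        refine ⟨⟨⟨hv, ?_, ?_⟩, Or.inl ?_⟩, hvi, by simp⟩
        · intro z hz; simp at hz; rcases hz with rfl | rfl <;> assumption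
        · exact Finset.card_pair hne.1.symm
        · have : insert v ({x, a} : Finset V) = {a, x, v} := by ext z; simp; tauto
          rw [this]; exact ht
      · have hrR : ({v, a} : Finset V) ∈ R := by
          by_contra hcon
          exact hr ⟨ha, hcon⟩
        simp only [ha, if_false]
        have hxo : x ∈ opp T {v, a} := by
          rw [mem_opp_pair hT]
          have : ({x, v, a} : Finset V) = {a, x, v} := by ext z; simp; tauto
          rw [this]; exact ht
        refine ⟨⟨⟨hv, hR.oppS _ hrR, card_opp hT (hR.sub hrR)⟩, Or.inr ⟨_, hrR, ?_, by simp, rfl⟩⟩, hvi, hxo⟩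
        intro z hz; simp at hz ⊢; rcases hz with rfl | rfl <;> assumption
    · rintro ⟨v, a⟩ h ⟨w, b⟩ h' heq
      rw [Finset.mem_filter, hAm] at h h'
      simp only [Prod.mk.injEq] at heq
      obtain ⟨h1, h2⟩ := heq
      subst h1
      obtain ⟨⟨_, ht⟩, hr⟩ := h
      obtain ⟨⟨_, ht'⟩, hr'⟩ := h'
      simp only at hr hr'
      by_cases ha : a ∈ S
      · by_cases hb : b ∈ S
        · simp only [ha, hb, if_true] at h2
          rw [pair_eq_left h2]
        · simp only [ha, hb, if_true, if_false] at h2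
          have hbR : ({v, b} : Finset V) ∈ R := by
            by_contra hcon
            exact hr' ⟨hb, hcon⟩
          exfalso
          apply hR.oppN _ hbR
          rw [← h2, Finset.pair_comm]
          exact pair_mem_edges hT ht
      · have haR : ({v, a} : Finset V) ∈ R := by
          by_contra hcon
          exact hr ⟨ha, hcon⟩
        by_cases hb : b ∈ S
        · simp only [ha, hb, if_true, if_false] at h2
          exfalso
          apply hR.oppN _ haR
          rw [h2, Finset.pair_comm]
          exact pair_mem_edges hT ht'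
        · simp only [ha, hb, if_false] at h2
          have hbR : ({v, b} : Finset V) ∈ R := by
            by_contra hcon
            exact hr' ⟨hb, hcon⟩
          rw [pair_eq_left (hR.inj _ haR _ hbR h2)]
    · rintro ⟨v, p⟩ h
      rw [Finset.mem_filter, mem_sides] at h
      obtain ⟨⟨⟨hv, hpS, hpc⟩, hor⟩, hvi, hxp⟩ := h
      simp only at hv hpS hpc hor hvi hxp
      rcases hor with hreal | ⟨e, heR, heS, hve, heo⟩
      · obtain ⟨y, hy⟩ : ∃ y, p = {x, y} := by
          have : (p.erase x).card = 1 := by rw [Finset.card_erase_of_mem hxp]; omega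
          obtain ⟨y, hy⟩ := Finset.card_eq_one.mp this
          exact ⟨y, by rw [← Finset.insert_erase hxp, hy]⟩
        have hyS : y ∈ S := hpS (by rw [hy]; simp)
        refine ⟨⟨v, y⟩, ?_, ?_⟩
        · rw [Finset.mem_filter, hAm]
          refine ⟨⟨⟨hv, hvi⟩, ?_⟩, ?_⟩
          · have : ({y, x, v} : Finset V) = insert v p := by rw [hy]; ext z; simp; tauto
            rw [this]; exact hreal
          · simp [hyS]
        · simp [hyS, hy]
      · have hec := edges_card (hR.sub heR)
        obtain ⟨a, ha⟩ : ∃ a, e = {v, a} := by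
          have : (e.erase v).card = 1 := by rw [Finset.card_erase_of_mem hve]; omega
          obtain ⟨y, hy⟩ := Finset.card_eq_one.mp this
          exact ⟨y, by rw [← Finset.insert_erase hve, hy]⟩
        have haS : a ∉ S := by
          have := heS (show a ∈ e by rw [ha]; simp)
          simpa using this
        refine ⟨⟨v, a⟩, ?_, ?_⟩
        · rw [Finset.mem_filter, hAm]
          refine ⟨⟨⟨hv, hvi⟩, ?_⟩, ?_⟩
          · rw [← heo, mem_opp, ha] at hxp
            have : ({a, x, v} : Finset V) = insert x {v, a} := by ext z; simp; tauto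
            rw [this]; exact hxp.2
          · simp only
            rw [← ha]
            tauto
        · simp only [haS, if_false]
          rw [← ha, heo]
  rw [← hbij]
  exact hA12

end sides


end partC

section partD
open Finset



section comps

variable {V ι : Type} [Fintype V] [DecidableEq V] [DecidableEq ι]
variable {T : Finset (Finset V)} {S : Finset V} {R : Finset (Finset V)} {κ : V → ι}

/-- sides of the component labelled `i` -/
def sd (T : Finset (Finset V)) (S : Finset V) (R : Finset (Finset V)) (κ : V → ι) (i : ι) :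
    Finset (V × Finset V) := (sides T S R).filter (fun s => κ s.1 = i)

theorem mem_sd {i : ι} {s : V × Finset V} : s ∈ sd T S R κ i ↔
    s ∈ sides T S R ∧ κ s.1 = i := by
  simp [sd]

theorem parity_sd (hT : IsTri T) (hR : Rep T S R)
    (hκ : ∀ v a, v ∉ S → a ∉ S → ({v, a} : Finset V) ∈ edges T → ({v, a} : Finset V) ∉ R → κ v = κ a)
    (i : ι) (x : V) (hx : x ∈ S) :
    Even ((sd T S R κ i).filter (fun s => x ∈ s.2)).card := by
  have := parity hT hR hκ i x hx
  rw [sd, Finset.filter_filter]
  exact this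

/-- real side from a triangle -/
theorem real_side (hT : IsTri T) {v x y : V} (hv : v ∉ S) (hx : x ∈ S) (hy : y ∈ S)
    (h : ({v, x, y} : Finset V) ∈ T) : ((v, {x, y}) : V × Finset V) ∈ sides T S R := by
  rw [mem_sides]
  refine ⟨⟨hv, ?_, Finset.card_pair (hT.ne3 h).2.2⟩, Or.inl h⟩
  intro z hz
  simp at hz
  rcases hz with rfl | rfl <;> assumption

theorem chord_side (hT : IsTri T) (hR : Rep T S R) {v a : V} (hv : v ∉ S) (ha : a ∉ S)
    (h : ({v, a} : Finset V) ∈ R) : ((v, opp T {v, a}) : V × Finset V) ∈ sides T S R := by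
  rw [mem_sides]
  refine ⟨⟨hv, hR.oppS _ h, card_opp hT (hR.sub h)⟩, Or.inr ⟨_, h, ?_, by simp, rfl⟩⟩
  intro z hz
  simp at hz ⊢
  rcases hz with rfl | rfl <;> assumption

/-- two members of an even subset -/
theorem exists_other {α : Type} [DecidableEq α] {s : Finset α} (he : Even s.card) {a : α}
    (ha : a ∈ s) : ∃ b ∈ s, b ≠ a := by
  by_contra hcon
  push Not at hcon
  have : s = {a} := by
    ext x
    simp
    constructor
    · exact hcon x
    · rintro rfl; exact ha
  rw [this] at he
  simp at he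

theorem sides_ge_three (hT : IsTri T) (hR : Rep T S R) (hS : S.Nonempty)
    (hκ : ∀ v a, v ∉ S → a ∉ S → ({v, a} : Finset V) ∈ edges T → ({v, a} : Finset V) ∉ R → κ v = κ a)
    (hdeg : ∀ x ∈ S, ∀ y, ∃ u ∈ S, u ≠ x ∧ u ≠ y ∧
      (({x, u} : Finset V) ∈ edges T ∨ ∃ r ∈ R, opp T r = {x, u}))
    (i : ι) (v0 : V) (hv0 : v0 ∉ S) (hv0i : κ v0 = i) :
    3 ≤ (sd T S R κ i).card := by
  by_contra hlt
  push Not at hlt
  have hpar := fun x hx => parity_sd hT hR hκ i x hx
  -- all sides of the component have the same pair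
  have cl0 : ∀ s ∈ sd T S R κ i, ∀ s' ∈ sd T S R κ i, s.2 = s'.2 := by
    intro s hs s' hs'
    have hs1 := (mem_sides.mp (mem_sd.mp hs).1).1.2
    have hs1' := (mem_sides.mp (mem_sd.mp hs').1).1.2
    have hsub : s.2 ⊆ s'.2 := by
      intro x hx
      have hxS := hs1.1 hx
      have he := hpar x hxS
      have hmem : s ∈ (sd T S R κ i).filter (fun s => x ∈ s.2) := by
        rw [Finset.mem_filter]; exact ⟨hs, hx⟩
      obtain ⟨s2, hs2, hne⟩ := exists_other he hmem
      have h2 : 2 ≤ ((sd T S R κ i).filter (fun s => x ∈ s.2)).card := by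
        have : ({s, s2} : Finset (V × Finset V)) ⊆ (sd T S R κ i).filter (fun s => x ∈ s.2) := by
          intro z hz
          simp only [Finset.mem_insert, Finset.mem_singleton] at hz
          rcases hz with rfl | rfl <;> assumption
        have h3 := Finset.card_le_card this
        rw [Finset.card_pair hne.symm] at h3
        exact h3
      have heq : (sd T S R κ i).filter (fun s => x ∈ s.2) = sd T S R κ i := by
        apply Finset.eq_of_subset_of_card_le (Finset.filter_subset _ _)
        omega
      rw [← heq, Finset.mem_filter] at hs'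
      exact hs'.2
    apply Finset.eq_of_subset_of_card_le hsub
    rw [hs1.2, hs1'.2]
  -- the link claim
  have clA : ∀ u ∈ S, ∀ v, v ∉ S → κ v = i → ({u, v} : Finset V) ∈ edges T →
      ∀ b, ({u, b} : Finset V) ∈ edges T →
        ((b ∉ S ∧ κ b = i) ∨ (b ∈ S ∧ ∃ s ∈ sd T S R κ i, s.2 = {u, b})) := by
    intro u hu v hv hvi huv
    apply link_closed hT u (fun b => (b ∉ S ∧ κ b = i) ∨
      (b ∈ S ∧ ∃ s ∈ sd T S R κ i, s.2 = {u, b})) v huv (Or.inl ⟨hv, hvi⟩)
    intro x y hxy hx
    have hne := hT.ne3 hxy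
    rcases hx with ⟨hxS, hxi⟩ | ⟨hxS, s, hs, hs2⟩
    · by_cases hy : y ∈ S
      · right
        refine ⟨hy, (x, {u, y}), ?_, rfl⟩
        rw [mem_sd]
        refine ⟨?_, hxi⟩
        apply real_side hT hxS hu hy
        rw [swp]
        exact hxy
      · left
        refine ⟨hy, ?_⟩
        have hxye : ({x, y} : Finset V) ∈ edges T := by
          rw [rot] at hxy
          exact pair_mem_edges hT hxy
        by_cases hr : ({x, y} : Finset V) ∈ R
        · have hside : ((x, opp T {x, y}) : V × Finset V) ∈ sd T S R κ i := by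
            rw [mem_sd]
            exact ⟨chord_side hT hR hxS hy hr, hxi⟩
          have huo : u ∈ opp T {x, y} := by
            rw [mem_opp_pair hT]; exact hxy
          obtain ⟨s', hs', hne'⟩ := exists_other (hpar u hu)
            (show ((x, opp T {x, y}) : V × Finset V) ∈ (sd T S R κ i).filter (fun s => u ∈ s.2) by
              rw [Finset.mem_filter]; exact ⟨hside, huo⟩)
          rw [Finset.mem_filter] at hs'
          have h2 : opp T {x, y} = s'.2 := cl0 _ hside _ hs'.1
          have hms := mem_sd.mp hs'.1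
          obtain ⟨⟨hs'S, hs'p, hs'c⟩, hor⟩ := mem_sides.mp hms.1
          rcases hor with hreal | ⟨e, heR, heS, hwe, heo⟩
          · exfalso
            apply hR.oppN _ hr
            rw [h2, mem_edges]
            exact ⟨_, hreal, Finset.subset_insert _ _, hs'c⟩
          · have hee : e = {x, y} := hR.inj _ heR _ hr (by rw [heo, ← h2])
            rw [hee] at hwe
            simp only [Finset.mem_insert, Finset.mem_singleton] at hwe
            rcases hwe with hwe | hwe
            · exfalso
              apply hne'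
              apply Prod.ext
              · exact hwe
              · exact h2.symm
            · rw [← hwe]; exact hms.2
        · rw [← hκ x y hxS hy hxye hr]; exact hxi
    · left
      have hms := mem_sd.mp hs
      have huxe : ({u, x} : Finset V) ∈ edges T := pair_mem_edges hT hxy
      have hreal : ∀ s' ∈ sd T S R κ i, s'.2 = {u, x} →
          s'.1 ∈ opp T {u, x} ∧ s'.1 ∉ S ∧ κ s'.1 = i := by
        intro s' hs' hs'2
        have hms' := mem_sd.mp hs'
        obtain ⟨⟨hs'S, hs'p, hs'c⟩, hor⟩ := mem_sides.mp hms'.1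
        refine ⟨?_, hs'S, hms'.2⟩
        rcases hor with hreal | ⟨e, heR, heS, hwe, heo⟩
        · rw [mem_opp_pair hT]
          rw [hs'2] at hreal
          exact hreal
        · exfalso
          apply hR.oppN _ heR
          rw [heo, hs'2]
          exact huxe
      obtain ⟨s', hs', hne'⟩ := exists_other (hpar u hu)
            (show s ∈ (sd T S R κ i).filter (fun s => u ∈ s.2) by
              rw [Finset.mem_filter]; exact ⟨hs, by rw [hs2]; simp⟩)
      rw [Finset.mem_filter] at hs'
      have hs'2 : s'.2 = {u, x} := by rw [← hs2]; exact (cl0 _ hs _ hs'.1).symm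
      have r1 := hreal s hs hs2
      have r2 := hreal s' hs'.1 hs'2
      have hne1 : s.1 ≠ s'.1 := by
        intro h
        apply hne'
        apply Prod.ext
        · exact h.symm
        · rw [hs2, hs'2]
      have hyo : y ∈ opp T {u, x} := by
        rw [mem_opp_pair hT]
        rw [rot, rot] at hxy
        exact hxy
      have hc := card_opp hT huxe
      have : opp T {u, x} = {s.1, s'.1} := by
        symm
        apply Finset.eq_of_subset_of_card_le
        · intro z hz
          simp only [Finset.mem_insert, Finset.mem_singleton] at hz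
          rcases hz with rfl | rfl
          · exact r1.1
          · exact r2.1
        · rw [hc, Finset.card_pair hne1]
      rw [this] at hyo
      simp only [Finset.mem_insert, Finset.mem_singleton] at hyo
      rcases hyo with rfl | rfl
      · exact r1.2
      · exact r2.2
  -- a vertex of `S` adjacent to the component
  have hex : ∃ u0 ∈ S, ∃ v, v ∉ S ∧ κ v = i ∧ ({u0, v} : Finset V) ∈ edges T := by
    by_contra hcon
    push Not at hcon
    have := conn_closed hT (fun v => v ∉ S ∧ κ v = i) v0 ⟨hv0, hv0i⟩ (by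
      rintro x y hxy ⟨hxS, hxi⟩
      by_cases hy : y ∈ S
      · exfalso
        apply hcon y hy x hxS hxi
        rw [Finset.pair_comm]; exact hxy
      · refine ⟨hy, ?_⟩
        by_cases hr : ({x, y} : Finset V) ∈ R
        · exfalso
          have hc := card_opp hT (hR.sub hr)
          obtain ⟨z, hz⟩ : (opp T {x, y}).Nonempty := by rw [← Finset.card_pos]; omega
          have hzS := hR.oppS _ hr hz
          rw [mem_opp_pair hT] at hz
          exact hcon z hzS x hxS hxi (pair_mem_edges hT hz)
        · rw [← hκ x y hxS hy hxy hr]; exact hxi)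
    obtain ⟨x, hx⟩ := hS
    exact (this x).1 hx
  obtain ⟨u0, hu0, v, hv, hvi, hadj⟩ := hex
  -- the partner
  have hy0 : ∃ y0, ∀ s ∈ sd T S R κ i, u0 ∈ s.2 → s.2 = {u0, y0} := by
    by_cases h : ∃ s ∈ sd T S R κ i, u0 ∈ s.2
    · obtain ⟨s, hs, hus⟩ := h
      have hc := (mem_sides.mp (mem_sd.mp hs).1).1.2.2
      have : (s.2.erase u0).card = 1 := by rw [Finset.card_erase_of_mem hus]; omega
      obtain ⟨y, hy⟩ := Finset.card_eq_one.mp this
      refine ⟨y, fun s' hs' _ => ?_⟩
      rw [cl0 s' hs' s hs, ← Finset.insert_erase hus, hy]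
    · push Not at h
      exact ⟨u0, fun s hs hus => absurd hus (h s hs)⟩
  obtain ⟨y0, hy0⟩ := hy0
  obtain ⟨u, hu, hu1, hu2, hconf⟩ := hdeg u0 hu0 y0
  have hA0 := clA u0 hu0 v hv hvi hadj
  rcases hconf with he | ⟨r, hr, hro⟩
  · rcases hA0 u he with h | ⟨_, s, hs, hs2⟩
    · exact h.1 hu
    · have := hy0 s hs (by rw [hs2]; simp)
      rw [hs2] at this
      exact hu2 (pair_eq_left this)
  · have hrc := edges_card (hR.sub hr)
    obtain ⟨a, b, hab, rfl⟩ := Finset.card_eq_two.mp hrc
    have hu0o : u0 ∈ opp T {a, b} := by rw [hro]; simp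
    have huo : u ∈ opp T {a, b} := by rw [hro]; simp
    rw [mem_opp_pair hT] at hu0o huo
    have e1 : ({u0, a} : Finset V) ∈ edges T := pair_mem_edges hT hu0o
    have e2 : ({u0, b} : Finset V) ∈ edges T := by
      rw [swp2] at hu0o
      exact pair_mem_edges hT hu0o
    have f1 : ({u, a} : Finset V) ∈ edges T := pair_mem_edges hT huo
    have f2 : ({u, b} : Finset V) ∈ edges T := by
      rw [swp2] at huo
      exact pair_mem_edges hT huo
    -- mixed case
    have mixed : ∀ a b : V, ({u, a} : Finset V) ∈ edges T → ({u, b} : Finset V) ∈ edges T →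
        (a ∉ S ∧ κ a = i) → (b ∈ S ∧ ∃ s ∈ sd T S R κ i, s.2 = {u0, b}) → False := by
      rintro a b g1 g2 ⟨haS, hai⟩ ⟨hbS, s, hs, hs2⟩
      rcases clA u hu a haS hai g1 b g2 with h | ⟨_, s', hs', hs'2⟩
      · exact h.1 hbS
      · have := cl0 s hs s' hs'
        rw [hs2, hs'2, Finset.pair_comm, Finset.pair_comm u b] at this
        exact hu1 (pair_eq_left this).symm
    rcases hA0 a e1 with ⟨haS, hai⟩ | ⟨haS, s, hs, hs2⟩
    · rcases hA0 b e2 with ⟨hbS, hbi⟩ | hb
      · have hside : ((a, opp T {a, b}) : V × Finset V) ∈ sd T S R κ i := by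
          rw [mem_sd]
          exact ⟨chord_side hT hR haS hbS hr, hai⟩
        have := hy0 _ hside (by simp only; rw [hro]; simp)
        simp only at this
        rw [hro] at this
        exact hu2 (pair_eq_left this)
      · exact mixed a b f1 f2 ⟨haS, hai⟩ hb
    · rcases hA0 b e2 with hb | ⟨hbS, s', hs', hs'2⟩
      · exact mixed b a f2 f1 hb ⟨haS, s, hs, hs2⟩
      · have := cl0 s hs s' hs'
        rw [hs2, hs'2] at this
        exact hab (pair_eq_left this)

end comps


end partD

section partE
open Finset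



section comps2

variable {V ι : Type} [Fintype V] [DecidableEq V] [DecidableEq ι]
variable {T : Finset (Finset V)} {S : Finset V} {R : Finset (Finset V)} {κ : V → ι}

/-- representatives with exactly one end outside `S`, as pairs -/
def r1 (S : Finset V) (R : Finset (Finset V)) (κ : V → ι) (i : ι) : Finset (V × V) :=
  (Sᶜ ×ˢ S).filter (fun p => ({p.1, p.2} : Finset V) ∈ R ∧ κ p.1 = i)

theorem mem_r1 {i : ι} {p : V × V} : p ∈ r1 S R κ i ↔
    (p.1 ∉ S ∧ p.2 ∈ S) ∧ ({p.1, p.2} : Finset V) ∈ R ∧ κ p.1 = i := by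
  simp [r1]

/-- data of a representative edge `v b` -/
theorem r1_data (hT : IsTri T) (hR : Rep T S R) {i : ι} {v b : V} (h : (v, b) ∈ r1 S R κ i) :
    ∃ x y, x ≠ y ∧ x ∈ S ∧ y ∈ S ∧ opp T {v, b} = {x, y} ∧ ({v, b, x} : Finset V) ∈ T ∧
      ({v, b, y} : Finset V) ∈ T ∧ ((v, {b, x}) : V × Finset V) ∈ sd T S R κ i ∧
      ((v, {b, y}) : V × Finset V) ∈ sd T S R κ i ∧ ({x, y} : Finset V) ∉ edges T := by
  rw [mem_r1] at h
  obtain ⟨⟨hv, hb⟩, hr, hi⟩ := h
  simp only at hv hb hr hi
  obtain ⟨x, y, hxy, ho⟩ := Finset.card_eq_two.mp (card_opp hT (hR.sub hr))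
  have hxo : x ∈ opp T {v, b} := by rw [ho]; simp
  have hyo : y ∈ opp T {v, b} := by rw [ho]; simp
  have hxS := hR.oppS _ hr hxo
  have hyS := hR.oppS _ hr hyo
  rw [mem_opp_pair hT] at hxo hyo
  have hx3 : ({v, b, x} : Finset V) ∈ T := by rw [rot] at hxo; exact hxo
  have hy3 : ({v, b, y} : Finset V) ∈ T := by rw [rot] at hyo; exact hyo
  refine ⟨x, y, hxy, hxS, hyS, ho, hx3, hy3, ?_, ?_, ?_⟩
  · rw [mem_sd]
    exact ⟨real_side hT hv hb hxS hx3, hi⟩
  · rw [mem_sd]
    exact ⟨real_side hT hv hb hyS hy3, hi⟩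
  · rw [← ho]; exact hR.oppN _ hr

theorem card_filter_three {α : Type} [DecidableEq α] {a b c : α} (h1 : a ≠ b) (h2 : a ≠ c) (h3 : b ≠ c)
    (P : α → Prop) [DecidablePred P] :
    (({a, b, c} : Finset α).filter P).card =
      (if P a then 1 else 0) + (if P b then 1 else 0) + (if P c then 1 else 0) := by
  rw [Finset.card_filter, Finset.sum_insert (by simp [h1, h2]), Finset.sum_insert (by simp [h3]),
    Finset.sum_singleton]
  ring

theorem card_filter_four {α : Type} [DecidableEq α] {a b c d : α} (h1 : a ≠ b) (h2 : a ≠ c)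
    (h3 : b ≠ c) (h4 : a ≠ d) (h5 : b ≠ d) (h6 : c ≠ d)
    (P : α → Prop) [DecidablePred P] :
    (({a, b, c, d} : Finset α).filter P).card =
      (if P a then 1 else 0) + (if P b then 1 else 0) + (if P c then 1 else 0)
        + (if P d then 1 else 0) := by
  rw [Finset.card_filter, Finset.sum_insert (by simp [h1, h2, h4]),
    Finset.sum_insert (by simp [h3, h5]), Finset.sum_insert (by simp [h6]),
    Finset.sum_singleton]
  ring

theorem three_none (hT : IsTri T) (hR : Rep T S R)
    (hκ : ∀ v a, v ∉ S → a ∉ S → ({v, a} : Finset V) ∈ edges T → ({v, a} : Finset V) ∉ R → κ v = κ a)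
    (i : ι) (h3 : (sd T S R κ i).card = 3) : r1 S R κ i = ∅ := by
  rw [Finset.eq_empty_iff_forall_notMem]
  rintro ⟨v, b⟩ hvb
  obtain ⟨x, y, hxy, hxS, hyS, ho, hx3, hy3, hs1, hs2, hne⟩ := r1_data hT hR hvb
  have hmem := mem_r1.mp hvb
  obtain ⟨⟨hv, hb⟩, hr, hi⟩ := hmem
  simp only at hv hb hr hi
  have hn1 := hT.ne3 hx3
  have hn2 := hT.ne3 hy3
  have hs12 : ((v, {b, x}) : V × Finset V) ≠ (v, {b, y}) := by
    intro h
    exact hxy (pair_eq_left (Prod.ext_iff.mp h).2)
  -- third side
  have hsub : ({(v, {b, x}), (v, {b, y})} : Finset (V × Finset V)) ⊆ sd T S R κ i := by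
    intro z hz
    simp only [Finset.mem_insert, Finset.mem_singleton] at hz
    rcases hz with rfl | rfl <;> assumption
  have hc1 : (sd T S R κ i \ {(v, {b, x}), (v, {b, y})}).card = 1 := by
    rw [Finset.card_sdiff_of_subset hsub, Finset.card_pair hs12]; omega
  obtain ⟨s3, hs3⟩ := Finset.card_eq_one.mp hc1
  have hs3m : s3 ∈ sd T S R κ i \ {(v, {b, x}), (v, {b, y})} := by rw [hs3]; simp
  rw [Finset.mem_sdiff] at hs3m
  simp only [Finset.mem_insert, Finset.mem_singleton, not_or] at hs3m
  have hall : sd T S R κ i = {(v, {b, x}), (v, {b, y}), s3} := by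
    symm
    apply Finset.eq_of_subset_of_card_le
    · intro z hz
      simp only [Finset.mem_insert, Finset.mem_singleton] at hz
      rcases hz with rfl | rfl | rfl
      · exact hs1
      · exact hs2
      · exact hs3m.1
    · rw [h3]
      rw [Finset.card_eq_three.mpr ⟨_, _, _, hs12, fun h => hs3m.2.1 h.symm,
        fun h => hs3m.2.2 h.symm, rfl⟩]
  have cnt : ∀ z ∈ S, Even ((if z ∈ ({b, x} : Finset V) then 1 else 0) +
      (if z ∈ ({b, y} : Finset V) then 1 else 0) + (if z ∈ s3.2 then 1 else 0) : ℕ) := by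
    intro z hz
    have := parity_sd hT hR hκ i z hz
    rw [hall, card_filter_three hs12 (fun h => hs3m.2.1 h.symm) (fun h => hs3m.2.2 h.symm)] at this
    exact this
  have c1 := cnt x hxS
  have c2 := cnt y hyS
  have hxb : x ≠ b := hn1.2.2.symm
  have hyb : y ≠ b := hn2.2.2.symm
  have hx3' : x ∈ s3.2 := by
    by_contra hcon
    simp [hxb, hxy, hcon] at c1
  have hy3' : y ∈ s3.2 := by
    by_contra hcon
    simp [hyb, hxy.symm, hcon] at c2
  obtain ⟨⟨hwS, hps, hpc⟩, hor⟩ := mem_sides.mp (mem_sd.mp hs3m.1).1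
  have heq : s3.2 = {x, y} := by
    symm
    apply Finset.eq_of_subset_of_card_le
    · intro z hz
      simp only [Finset.mem_insert, Finset.mem_singleton] at hz
      rcases hz with rfl | rfl <;> assumption
    · rw [hpc, Finset.card_pair hxy]
  rcases hor with hreal | ⟨e, heR, heS, hwe, heo⟩
  · apply hne
    rw [← heq, mem_edges]
    exact ⟨_, hreal, Finset.subset_insert _ _, hpc⟩
  · have : e = {v, b} := hR.inj _ heR _ hr (by rw [heo, heq, ho])
    have hbe : b ∈ e := by rw [this]; simp
    have := heS hbe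
    simp at this
    exact this hb

theorem r1_le (hT : IsTri T) (hR : Rep T S R) (i : ι) :
    (r1 S R κ i).card ≤ (sd T S R κ i).card ∧
    ((sd T S R κ i).card ≤ (r1 S R κ i).card → ∀ s ∈ sd T S R κ i, ∀ b ∈ s.2,
      (s.1, b) ∈ r1 S R κ i) := by
  classical
  set rel : V × V → V × Finset V → Prop := fun p s => s.1 = p.1 ∧ p.2 ∈ s.2 with hrel
  have hab : ∀ p ∈ r1 S R κ i, 2 ≤ (Finset.bipartiteAbove rel (sd T S R κ i) p).card := by
    rintro ⟨v, b⟩ hp
    obtain ⟨x, y, hxy, hxS, hyS, ho, hx3, hy3, hs1, hs2, hne⟩ := r1_data hT hR hp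
    have hs12 : ((v, {b, x}) : V × Finset V) ≠ (v, {b, y}) := by
      intro h
      exact hxy (pair_eq_left (Prod.ext_iff.mp h).2)
    rw [← Finset.card_pair hs12]
    apply Finset.card_le_card
    intro z hz
    simp only [Finset.mem_insert, Finset.mem_singleton] at hz
    rw [Finset.bipartiteAbove, Finset.mem_filter]
    rcases hz with rfl | rfl
    · exact ⟨hs1, rfl, by simp⟩
    · exact ⟨hs2, rfl, by simp⟩
  have hbe' : ∀ s ∈ sd T S R κ i, Finset.bipartiteBelow rel (r1 S R κ i) s ⊆
      s.2.image (fun b => (s.1, b)) := by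
    intro s hs p hp
    rw [Finset.bipartiteBelow, Finset.mem_filter] at hp
    rw [Finset.mem_image]
    exact ⟨p.2, hp.2.2, by rw [hp.2.1]⟩
  have hbe : ∀ s ∈ sd T S R κ i, (Finset.bipartiteBelow rel (r1 S R κ i) s).card ≤ 2 := by
    intro s hs
    have h1 := Finset.card_le_card (hbe' s hs)
    have h2 : (s.2.image (fun b => (s.1, b))).card ≤ s.2.card := Finset.card_image_le
    have h3 := (mem_sides.mp (mem_sd.mp hs).1).1.2.2
    omega
  constructor
  · have := Finset.card_mul_le_card_mul rel hab hbe
    omega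
  · intro hle s hs b hb
    have hsum := Finset.sum_card_bipartiteAbove_eq_sum_card_bipartiteBelow (s := r1 S R κ i)
      (t := sd T S R κ i) rel
    have h1 : (r1 S R κ i).card * 2 ≤ ∑ a ∈ r1 S R κ i, (Finset.bipartiteAbove rel (sd T S R κ i) a).card := by
      rw [← smul_eq_mul]
      exact Finset.card_nsmul_le_sum _ _ _ hab
    have h2 : ∑ s ∈ sd T S R κ i, (Finset.bipartiteBelow rel (r1 S R κ i) s).card =
        ∑ s ∈ sd T S R κ i, 2 := by
      apply le_antisymm
      · exact Finset.sum_le_sum hbe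
      · rw [Finset.sum_const, smul_eq_mul, ← hsum]
        omega
    have h3 := (Finset.sum_eq_sum_iff_of_le hbe).mp h2 s hs
    have h4 : Finset.bipartiteBelow rel (r1 S R κ i) s = s.2.image (fun b => (s.1, b)) := by
      apply Finset.eq_of_subset_of_card_le (hbe' s hs)
      rw [h3]
      have h2 : (s.2.image (fun b => (s.1, b))).card ≤ s.2.card := Finset.card_image_le
      have h3 := (mem_sides.mp (mem_sd.mp hs).1).1.2.2
      omega
    have h5 : (s.1, b) ∈ Finset.bipartiteBelow rel (r1 S R κ i) s := by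
      rw [h4, Finset.mem_image]
      exact ⟨b, hb, rfl⟩
    rw [Finset.bipartiteBelow, Finset.mem_filter] at h5
    exact h5.1

theorem four_lt (hT : IsTri T) (hR : Rep T S R)
    (hκ : ∀ v a, v ∉ S → a ∉ S → ({v, a} : Finset V) ∈ edges T → ({v, a} : Finset V) ∉ R → κ v = κ a)
    (i : ι) (h4 : (sd T S R κ i).card = 4) : (r1 S R κ i).card ≤ 3 := by
  by_contra hcon
  push Not at hcon
  have hfull := (r1_le (κ := κ) hT hR i).2 (by omega)
  obtain ⟨⟨v, b⟩, hvb⟩ : (r1 S R κ i).Nonempty := by rw [← Finset.card_pos]; omega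
  obtain ⟨x, y, hxy, hxS, hyS, ho, hx3, hy3, hs1, hs2, hne⟩ := r1_data hT hR hvb
  have hbS : b ∈ S := (mem_r1.mp hvb).1.2
  have hvS : v ∉ S := (mem_r1.mp hvb).1.1
  have hn1 := hT.ne3 hx3
  have hn2 := hT.ne3 hy3
  have hvx : (v, x) ∈ r1 S R κ i := hfull _ hs1 x (by simp)
  have hvy : (v, y) ∈ r1 S R κ i := hfull _ hs2 y (by simp)
  -- the second triangle at `v x`
  have aux : ∀ x, (v, x) ∈ r1 S R κ i → ({v, b, x} : Finset V) ∈ T → ∃ z, z ∈ S ∧ z ≠ b ∧
      opp T {v, x} = {b, z} ∧ ({v, x, z} : Finset V) ∈ T ∧ ((v, {x, z}) : V × Finset V) ∈ sd T S R κ i := by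
    intro x hvx hx3
    have hbo : b ∈ opp T {v, x} := by
      rw [mem_opp_pair hT, swp]; exact hx3
    obtain ⟨⟨_, hxS⟩, hr, hi⟩ := mem_r1.mp hvx
    simp only at hxS hr hi
    have hc := card_opp hT (hR.sub hr)
    have : ((opp T {v, x}).erase b).card = 1 := by rw [Finset.card_erase_of_mem hbo]; omega
    obtain ⟨z, hz⟩ := Finset.card_eq_one.mp this
    have ho : opp T {v, x} = {b, z} := by rw [← Finset.insert_erase hbo, hz]
    have hzo : z ∈ opp T {v, x} := by rw [ho]; simp
    have hzS := hR.oppS _ hr hzo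
    have hzb : z ≠ b := by
      have : z ∈ (opp T {v, x}).erase b := by rw [hz]; simp
      exact (Finset.mem_erase.mp this).1
    rw [mem_opp_pair hT, rot] at hzo
    refine ⟨z, hzS, hzb, ho, hzo, ?_⟩
    rw [mem_sd]
    exact ⟨real_side hT hvS hxS hzS hzo, hi⟩
  obtain ⟨z, hzS, hzb, hzo, hz3, hs3⟩ := aux x hvx hx3
  obtain ⟨z', hzS', hzb', hzo', hz3', hs4⟩ := aux y hvy hy3
  have hxb : x ≠ b := hn1.2.2.symm
  have hyb : y ≠ b := hn2.2.2.symm
  have hzx : z ≠ x := (hT.ne3 hz3).2.2.symm
  have hzy' : z' ≠ y := (hT.ne3 hz3').2.2.symm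
  have hzy : z ≠ y := by
    rintro rfl
    apply hne
    rw [rot] at hz3
    exact pair_mem_edges hT hz3
  have d12 : ((v, {b, x}) : V × Finset V) ≠ (v, {b, y}) := by
    intro h
    exact hxy (pair_eq_left (Prod.ext_iff.mp h).2)
  have d13 : ((v, {b, x}) : V × Finset V) ≠ (v, {x, z}) := by
    intro h
    have h := (Prod.ext_iff.mp h).2
    simp only at h
    have : b ∈ ({x, z} : Finset V) := by rw [← h]; simp
    simp at this
    rcases this with h | h
    · exact hxb h.symm
    · exact hzb h.symm
  have d23 : ((v, {b, y}) : V × Finset V) ≠ (v, {x, z}) := by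
    intro h
    have h := (Prod.ext_iff.mp h).2
    simp only at h
    have : b ∈ ({x, z} : Finset V) := by rw [← h]; simp
    simp at this
    rcases this with h | h
    · exact hxb h.symm
    · exact hzb h.symm
  have d14 : ((v, {b, x}) : V × Finset V) ≠ (v, {y, z'}) := by
    intro h
    have h := (Prod.ext_iff.mp h).2
    simp only at h
    have : b ∈ ({y, z'} : Finset V) := by rw [← h]; simp
    simp at this
    rcases this with h | h
    · exact hyb h.symm
    · exact hzb' h.symm
  have d24 : ((v, {b, y}) : V × Finset V) ≠ (v, {y, z'}) := by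
    intro h
    have h := (Prod.ext_iff.mp h).2
    simp only at h
    have : b ∈ ({y, z'} : Finset V) := by rw [← h]; simp
    simp at this
    rcases this with h | h
    · exact hyb h.symm
    · exact hzb' h.symm
  have d34 : ((v, {x, z}) : V × Finset V) ≠ (v, {y, z'}) := by
    intro h
    have h := (Prod.ext_iff.mp h).2
    simp only at h
    have : y ∈ ({x, z} : Finset V) := by rw [h]; simp
    simp at this
    rcases this with h | h
    · exact hxy h.symm
    · exact hzy h.symm
  have hall : sd T S R κ i = {(v, {b, x}), (v, {b, y}), (v, {x, z}), (v, {y, z'})} := by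
    symm
    apply Finset.eq_of_subset_of_card_le
    · intro w hw
      simp only [Finset.mem_insert, Finset.mem_singleton] at hw
      rcases hw with rfl | rfl | rfl | rfl
      · exact hs1
      · exact hs2
      · exact hs3
      · exact hs4
    · rw [h4]
      rw [Finset.card_insert_of_notMem, Finset.card_insert_of_notMem, Finset.card_pair d34]
      · simp only [Finset.mem_insert, Finset.mem_singleton, not_or]
        exact ⟨d23, d24⟩
      · simp only [Finset.mem_insert, Finset.mem_singleton, not_or]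
        exact ⟨d12, d13, d14⟩
  have hp := parity_sd hT hR hκ i z hzS
  rw [hall, card_filter_four d12 d13 d23 d14 d24 d34] at hp
  have hz4 : z ∈ ({y, z'} : Finset V) := by
    by_contra hcon
    simp only [Finset.mem_insert, Finset.mem_singleton, not_or] at hcon
    simp [hzb, hzx, hzy, hcon.2] at hp
  simp only [Finset.mem_insert, Finset.mem_singleton] at hz4
  rcases hz4 with h | h
  · exact hzy h
  · have e1 : ({v, x} : Finset V) = {v, y} := by
      apply hR.inj _ (mem_r1.mp hvx).2.1 _ (mem_r1.mp hvy).2.1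
      rw [hzo, hzo', h]
    exact hxy (pair_eq_left e1)

theorem comp_bound (hT : IsTri T) (hR : Rep T S R) (hS : S.Nonempty)
    (hκ : ∀ v a, v ∉ S → a ∉ S → ({v, a} : Finset V) ∈ edges T → ({v, a} : Finset V) ∉ R → κ v = κ a)
    (hdeg : ∀ x ∈ S, ∀ y, ∃ u ∈ S, u ≠ x ∧ u ≠ y ∧
      (({x, u} : Finset V) ∈ edges T ∨ ∃ r ∈ R, opp T r = {x, u}))
    (i : ι) (v0 : V) (hv0 : v0 ∉ S) (hv0i : κ v0 = i) :
    13 + 2 * (r1 S R κ i).card ≤ 5 * (sd T S R κ i).card := by
  have h3 := sides_ge_three hT hR hS hκ hdeg i v0 hv0 hv0i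
  have hle := (r1_le (κ := κ) hT hR i).1
  by_cases e3 : (sd T S R κ i).card = 3
  · have := three_none hT hR hκ i e3
    rw [this, e3]; simp
  · by_cases e4 : (sd T S R κ i).card = 4
    · have := four_lt hT hR hκ i e4
      omega
    · omega

end comps2


end partE

section partF
open Finset



section main

variable {V : Type} [Fintype V] [DecidableEq V]
variable {T : Finset (Finset V)} {S : Finset V} {R : Finset (Finset V)}

theorem double_count (hT : IsTri T) (E' : Finset (Finset V)) (hE : E' ⊆ edges T) :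
    ∑ t ∈ T, (E'.filter (fun e => e ⊆ t)).card = 2 * E'.card := by
  have h := Finset.sum_card_bipartiteAbove_eq_sum_card_bipartiteBelow (s := E') (t := T)
    (fun e t => e ⊆ t)
  have h1 : ∑ a ∈ E', (Finset.bipartiteAbove (fun e t => e ⊆ t) T a).card = ∑ a ∈ E', 2 := by
    apply Finset.sum_congr rfl
    intro e he
    obtain ⟨t, ht, hs, hc⟩ := mem_edges.mp (hE he)
    exact hT.two t ht e hs hc
  rw [h1, Finset.sum_const, smul_eq_mul] at h
  rw [mul_comm, h]
  rfl

theorem tri_ineq (hT : IsTri T) (hR : Rep T S R) {t : Finset V} (ht : t ∈ T) :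
    (((edges T).filter (fun e => e ⊆ S)).filter (fun e => e ⊆ t)).card +
    ((R.filter (fun e => e ⊆ S)).filter (fun e => e ⊆ t)).card +
    6 * (((edges T).filter (fun e => e ⊆ Sᶜ)).filter (fun e => e ⊆ t)).card +
    5 * (if (t ∩ Sᶜ).card = 1 then 1 else 0) ≤ 6 + 12 * (if t ⊆ Sᶜ then 1 else 0) := by
  have ha : (((edges T).filter (fun e => e ⊆ S)).filter (fun e => e ⊆ t)).card ≤
      ((t ∩ S).card).choose 2 := by
    rw [← Finset.card_powersetCard]
    apply Finset.card_le_card
    intro e he
    simp only [Finset.mem_filter] at he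
    rw [Finset.mem_powersetCard]
    exact ⟨Finset.subset_inter he.2 he.1.2, edges_card he.1.1⟩
  have hc : (((edges T).filter (fun e => e ⊆ Sᶜ)).filter (fun e => e ⊆ t)).card ≤
      ((t ∩ Sᶜ).card).choose 2 := by
    rw [← Finset.card_powersetCard]
    apply Finset.card_le_card
    intro e he
    simp only [Finset.mem_filter] at he
    rw [Finset.mem_powersetCard]
    exact ⟨Finset.subset_inter he.2 he.1.2, edges_card he.1.1⟩
  have h3 := hT.c3 t ht
  have hsum : (t ∩ S).card + (t ∩ Sᶜ).card = 3 := by
    rw [← h3, ← Finset.card_union_of_disjoint]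
    · congr 1
      rw [← Finset.inter_union_distrib_left, Finset.union_compl, Finset.inter_univ]
    · rw [Finset.disjoint_left]
      intro x hx hx'
      simp at hx hx'
      exact hx'.2 hx.2
  have hb : ((R.filter (fun e => e ⊆ S)).filter (fun e => e ⊆ t)).card ≤
      (if (t ∩ Sᶜ).card = 0 then 3 else 0) := by
    split_ifs with h0
    · have : (R.filter (fun e => e ⊆ S)).filter (fun e => e ⊆ t) ⊆ t.powersetCard 2 := by
        intro e he
        simp only [Finset.mem_filter] at he
        rw [Finset.mem_powersetCard]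
        exact ⟨he.2, edges_card (hR.sub he.1.1)⟩
      have := Finset.card_le_card this
      rw [Finset.card_powersetCard, h3] at this
      exact this
    · rw [Nat.le_zero, Finset.card_eq_zero, Finset.eq_empty_iff_forall_notMem]
      intro e he
      simp only [Finset.mem_filter] at he
      apply h0
      rw [Finset.card_eq_zero, Finset.eq_empty_iff_forall_notMem]
      intro x hx
      rw [Finset.mem_inter, Finset.mem_compl] at hx
      by_cases hxe : x ∈ e
      · exact hx.2 (he.1.2 hxe)
      · apply hx.2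
        apply hR.oppS e he.1.1
        rw [mem_opp]
        refine ⟨hxe, ?_⟩
        have : insert x e = t := by
          apply Finset.eq_of_subset_of_card_le
          · intro z hz
            rw [Finset.mem_insert] at hz
            rcases hz with rfl | hz
            · exact hx.1
            · exact he.2 hz
          · rw [Finset.card_insert_of_notMem hxe, edges_card (hR.sub he.1.1), h3]
        rw [this]; exact ht
  have hF : (if (t ∩ Sᶜ).card = 3 then 1 else 0) ≤ (if t ⊆ Sᶜ then 1 else 0) := by
    split_ifs with h1 h2 h2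
    · exact le_refl _
    · exfalso
      apply h2
      have : t ∩ Sᶜ = t := Finset.eq_of_subset_of_card_le Finset.inter_subset_left (by omega)
      rw [← this]; exact Finset.inter_subset_right
    · omega
    · omega
  have hj : (t ∩ Sᶜ).card ≤ 3 := by omega
  generalize (((edges T).filter (fun e => e ⊆ S)).filter (fun e => e ⊆ t)).card = a at *
  generalize ((R.filter (fun e => e ⊆ S)).filter (fun e => e ⊆ t)).card = b at *
  generalize (((edges T).filter (fun e => e ⊆ Sᶜ)).filter (fun e => e ⊆ t)).card = c at *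
  generalize (if t ⊆ Sᶜ then 1 else 0) = d at *
  generalize (t ∩ S).card = m at *
  generalize (t ∩ Sᶜ).card = j at *
  have q1 : Nat.choose 3 2 = 3 := rfl
  have q2 : Nat.choose 2 2 = 1 := rfl
  have q3 : Nat.choose 1 2 = 0 := rfl
  have q4 : Nat.choose 0 2 = 0 := rfl
  obtain rfl : m = 3 - j := by omega
  interval_cases j
  · norm_num [q1, q4] at ha hc hb ⊢
    omega
  · norm_num [q2, q3] at ha hc hb ⊢
    omega
  · norm_num [q2, q3] at ha hc hb ⊢
    omega
  · norm_num [q1, q4] at ha hc hb hF ⊢
    omega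

theorem sides_card (hT : IsTri T) (hR : Rep T S R) :
    (sides T S R).card ≤ (T.filter (fun t => (t ∩ Sᶜ).card = 1)).card +
      2 * (R.filter (fun e => e ⊆ Sᶜ)).card := by
  classical
  have hsub : sides T S R ⊆ (sides T S R).filter (fun s => insert s.1 s.2 ∈ T) ∪
      (R.filter (fun e => e ⊆ Sᶜ)).biUnion (fun e => e.image (fun v => (v, opp T e))) := by
    intro s hs
    rw [Finset.mem_union, Finset.mem_filter, Finset.mem_biUnion]
    rcases (mem_sides.mp hs).2 with h | ⟨e, heR, heS, hse, heo⟩
    · left; exact ⟨hs, h⟩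
    · right
      refine ⟨e, ?_, ?_⟩
      · rw [Finset.mem_filter]; exact ⟨heR, heS⟩
      · rw [Finset.mem_image]
        exact ⟨s.1, hse, by rw [heo]⟩
  have h1 : ((sides T S R).filter (fun s => insert s.1 s.2 ∈ T)).card ≤
      (T.filter (fun t => (t ∩ Sᶜ).card = 1)).card := by
    have key : ∀ s ∈ sides T S R, insert s.1 s.2 ∩ Sᶜ = {s.1} ∧ insert s.1 s.2 ∩ S = s.2 := by
      intro s hs
      obtain ⟨⟨hv, hp, hc⟩, _⟩ := mem_sides.mp hs
      constructor
      · ext z
        simp only [Finset.mem_inter, Finset.mem_insert, Finset.mem_compl, Finset.mem_singleton]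
        constructor
        · rintro ⟨h | h, hz⟩
          · exact h
          · exact absurd (hp h) hz
        · rintro rfl; exact ⟨Or.inl rfl, hv⟩
      · ext z
        simp only [Finset.mem_inter, Finset.mem_insert]
        constructor
        · rintro ⟨h | h, hz⟩
          · rw [h] at hz; exact absurd hz hv
          · exact h
        · intro h; exact ⟨Or.inr h, hp h⟩
    apply Finset.card_le_card_of_injOn (fun s => insert s.1 s.2)
    · intro s hs
      have hs' := Finset.mem_filter.mp hs
      have hk := key s hs'.1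
      show insert s.1 s.2 ∈ T.filter (fun t => (t ∩ Sᶜ).card = 1)
      rw [Finset.mem_filter]
      refine ⟨hs'.2, ?_⟩
      rw [hk.1]; simp
    · intro s hs s' hs' h
      have hk := key s (Finset.mem_filter.mp hs).1
      have hk' := key s' (Finset.mem_filter.mp hs').1
      simp only at h
      rw [h] at hk
      apply Prod.ext
      · have := hk.1.symm.trans hk'.1
        exact Finset.singleton_injective this
      · exact hk.2.symm.trans hk'.2
  have h2 : ((R.filter (fun e => e ⊆ Sᶜ)).biUnion (fun e => e.image (fun v => (v, opp T e)))).card ≤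
      2 * (R.filter (fun e => e ⊆ Sᶜ)).card := by
    rw [mul_comm]
    apply Finset.card_biUnion_le_card_mul
    intro e he
    have h3 : (e.image (fun v => (v, opp T e))).card ≤ e.card := Finset.card_image_le
    rw [edges_card (hR.sub (Finset.mem_filter.mp he).1)] at h3
    exact h3
  calc (sides T S R).card ≤ _ := Finset.card_le_card hsub
    _ ≤ _ := Finset.card_union_le _ _
    _ ≤ _ := Nat.add_le_add h1 h2

theorem main_ineq (hT : IsTri T) (hR : Rep T S R) (hS : S.Nonempty)
    (hdeg : ∀ x ∈ S, ∀ y, ∃ u ∈ S, u ≠ x ∧ u ≠ y ∧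
      (({x, u} : Finset V) ∈ edges T ∨ ∃ r ∈ R, opp T r = {x, u})) :
    2 * ((edges T).filter (fun e => e ⊆ S)).card + 2 * R.card + 12 * Sᶜ.card +
      (if Sᶜ.Nonempty then 1 else 0) ≤ 6 * T.card := by
  classical
  set Ef := (edges T).filter (fun e => e ⊆ Sᶜ) with hEf
  set E2 := Ef \ R with hE2
  set F := T.filter (fun t => t ⊆ Sᶜ) with hF
  set κ : V → (gr E2).ConnectedComponent := (gr E2).connectedComponentMk with hκdef
  have memE2 : ∀ e, e ∈ E2 ↔ (e ∈ edges T ∧ e ⊆ Sᶜ) ∧ e ∉ R := by
    intro e; rw [hE2, hEf, Finset.mem_sdiff, Finset.mem_filter]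
  have hadjκ : ∀ u v, (gr E2).Adj u v → κ u = κ v := by
    intro u v h
    exact SimpleGraph.ConnectedComponent.sound h.reachable
  have hκ : ∀ v a, v ∉ S → a ∉ S → ({v, a} : Finset V) ∈ edges T → ({v, a} : Finset V) ∉ R → κ v = κ a := by
    intro v a hv ha he hr
    apply hadjκ
    refine ⟨edges_pair_ne he, ?_⟩
    rw [memE2]
    refine ⟨⟨he, ?_⟩, hr⟩
    intro z hz
    simp at hz ⊢
    rcases hz with rfl | rfl <;> assumption
  have hcol := collapse Sᶜ κ F.card F E2 rfl
    (by intro t ht; exact hT.c3 t (Finset.mem_filter.mp ht).1)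
    (by
      intro t ht e he hc
      rw [hF, Finset.mem_filter] at ht
      rw [memE2]
      refine ⟨⟨mem_edges.mpr ⟨t, ht.1, he, hc⟩, he.trans ht.2⟩, ?_⟩
      intro hr
      have h3 := hT.c3 t ht.1
      have : (t \ e).card = 1 := by rw [Finset.card_sdiff_of_subset he]; omega
      obtain ⟨x, hx⟩ := Finset.card_eq_one.mp this
      have hxt : x ∈ t \ e := by rw [hx]; simp
      rw [Finset.mem_sdiff] at hxt
      have hins : insert x e = t := by
        apply Finset.eq_of_subset_of_card_le
        · intro z hz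
          rw [Finset.mem_insert] at hz
          rcases hz with rfl | hz
          · exact hxt.1
          · exact he hz
        · rw [Finset.card_insert_of_notMem hxt.2]; omega
      have : x ∈ opp T e := by
        rw [mem_opp, hins]; exact ⟨hxt.2, ht.1⟩
      have h5 := hR.oppS e hr this
      have h6 := ht.2 hxt.1
      simp at h6
      exact h6 h5)
    (by
      intro Q hQ hQne
      by_contra hcon
      push Not at hcon
      have hst := strong_conn hT Q (hQ.trans (Finset.filter_subset _ _)) hQne (by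
        intro t ht e he hc t' ht' het'
        have htF := Finset.mem_filter.mp (hQ ht)
        have h2 := hT.two t htF.1 e he hc
        have heE2 : e ∈ E2 := by
          rw [memE2]
          refine ⟨⟨mem_edges.mpr ⟨t, htF.1, he, hc⟩, he.trans htF.2⟩, ?_⟩
          intro hr
          have h3 := hT.c3 t htF.1
          have : (t \ e).card = 1 := by rw [Finset.card_sdiff_of_subset he]; omega
          obtain ⟨x, hx⟩ := Finset.card_eq_one.mp this
          have hxt : x ∈ t \ e := by rw [hx]; simp
          rw [Finset.mem_sdiff] at hxt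
          have hins : insert x e = t := by
            apply Finset.eq_of_subset_of_card_le
            · intro z hz
              rw [Finset.mem_insert] at hz
              rcases hz with rfl | hz
              · exact hxt.1
              · exact he hz
            · rw [Finset.card_insert_of_notMem hxt.2]; omega
          have : x ∈ opp T e := by
            rw [mem_opp, hins]; exact ⟨hxt.2, htF.1⟩
          have h5 := hR.oppS e hr this
          have h6 := htF.2 hxt.1
          simp at h6
          exact h6 h5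
        have hne1 := hcon e heE2
        have hsubQ : Q.filter (fun t => e ⊆ t) ⊆ T.filter (fun t => e ⊆ t) := by
          intro s hs
          rw [Finset.mem_filter] at hs ⊢
          exact ⟨(Finset.mem_filter.mp (hQ hs.1)).1, hs.2⟩
        have hpos : 0 < (Q.filter (fun t => e ⊆ t)).card :=
          Finset.card_pos.mpr ⟨t, Finset.mem_filter.mpr ⟨ht, he⟩⟩
        have heq : Q.filter (fun t => e ⊆ t) = T.filter (fun t => e ⊆ t) := by
          apply Finset.eq_of_subset_of_card_le hsubQ
          rw [h2]; omega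
        have : t' ∈ T.filter (fun t => e ⊆ t) := Finset.mem_filter.mpr ⟨ht', het'⟩
        rw [← heq] at this
        exact (Finset.mem_filter.mp this).1)
      obtain ⟨x, hx⟩ := hS
      obtain ⟨t, ht, hxt⟩ := hst x
      have := (Finset.mem_filter.mp (hQ ht)).2 hxt
      simp at this
      exact this hx)
    (by intro e he; exact edges_card ((memE2 e).mp he).1.1)
    hadjκ
    (by
      intro u _ v _ h
      exact SimpleGraph.ConnectedComponent.exact h)
  set C := Sᶜ.image κ with hC
  -- sum over components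
  have hcomp : ∀ i ∈ C, 13 + 2 * (r1 S R κ i).card ≤ 5 * (sd T S R κ i).card := by
    intro i hi
    rw [hC, Finset.mem_image] at hi
    obtain ⟨v0, hv0, hv0i⟩ := hi
    rw [Finset.mem_compl] at hv0
    exact comp_bound hT hR hS hκ hdeg i v0 hv0 hv0i
  have hsum := Finset.sum_le_sum hcomp
  rw [Finset.sum_add_distrib, Finset.sum_const, smul_eq_mul, ← Finset.mul_sum, ← Finset.mul_sum] at hsum
  have hsd : ∑ i ∈ C, (sd T S R κ i).card = (sides T S R).card := by
    rw [Finset.card_eq_sum_card_fiberwise (f := fun s => κ s.1) (t := C)]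
    · rfl
    · intro s hs
      rw [hC]
      apply Finset.mem_coe.mpr
      apply Finset.mem_image_of_mem
      rw [Finset.mem_compl]
      exact (mem_sides.mp hs).1.1
  set r1t := (Sᶜ ×ˢ S).filter (fun p => ({p.1, p.2} : Finset V) ∈ R) with hr1t
  have hr1 : ∑ i ∈ C, (r1 S R κ i).card = r1t.card := by
    rw [Finset.card_eq_sum_card_fiberwise (f := fun p => κ p.1) (t := C)]
    · apply Finset.sum_congr rfl
      intro i _
      rw [hr1t, Finset.filter_filter]
      rfl
    · intro s hs
      rw [hC]
      apply Finset.mem_coe.mpr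
      apply Finset.mem_image_of_mem
      have := Finset.mem_filter.mp hs
      exact (Finset.mem_product.mp this.1).1
  rw [hsd, hr1] at hsum
  have hsc := sides_card hT hR
  -- splitting R
  have hRsplit : R.card ≤ (R.filter (fun e => e ⊆ S)).card + r1t.card +
      (R.filter (fun e => e ⊆ Sᶜ)).card := by
    have hsub : R ⊆ (R.filter (fun e => e ⊆ S)) ∪ r1t.image (fun p => ({p.1, p.2} : Finset V)) ∪
        (R.filter (fun e => e ⊆ Sᶜ)) := by
      intro e he
      obtain ⟨a, b, hab, rfl⟩ := Finset.card_eq_two.mp (edges_card (hR.sub he))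
      simp only [Finset.mem_union, Finset.mem_filter, Finset.mem_image, hr1t, Finset.mem_product,
        Finset.mem_compl]
      by_cases ha : a ∈ S
      · by_cases hb : b ∈ S
        · left; left
          refine ⟨he, ?_⟩
          intro z hz
          simp at hz
          rcases hz with rfl | rfl <;> assumption
        · left; right
          exact ⟨(b, a), ⟨⟨hb, ha⟩, by simp only; rw [Finset.pair_comm]; exact he⟩,
            Finset.pair_comm b a⟩
      · by_cases hb : b ∈ S
        · left; right
          exact ⟨(a, b), ⟨⟨ha, hb⟩, he⟩, rfl⟩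
        · right
          refine ⟨he, ?_⟩
          intro z hz
          simp at hz ⊢
          rcases hz with rfl | rfl <;> assumption
    have h1 := Finset.card_le_card hsub
    have h2 := Finset.card_union_le ((R.filter (fun e => e ⊆ S)) ∪
      r1t.image (fun p => ({p.1, p.2} : Finset V))) (R.filter (fun e => e ⊆ Sᶜ))
    have h3 := Finset.card_union_le (R.filter (fun e => e ⊆ S))
      (r1t.image (fun p => ({p.1, p.2} : Finset V)))
    have h4 : (r1t.image (fun p => ({p.1, p.2} : Finset V))).card ≤ r1t.card :=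
      Finset.card_image_le
    omega
  -- E2 card
  have hE2c : E2.card + (R.filter (fun e => e ⊆ Sᶜ)).card = Ef.card := by
    have h1 : Ef ∩ R = R.filter (fun e => e ⊆ Sᶜ) := by
      ext e
      rw [Finset.mem_inter, hEf, Finset.mem_filter, Finset.mem_filter]
      constructor
      · rintro ⟨⟨_, h1⟩, h2⟩; exact ⟨h2, h1⟩
      · rintro ⟨h1, h2⟩; exact ⟨⟨hR.sub h1, h2⟩, h1⟩
    rw [← h1, hE2]
    exact Finset.card_sdiff_add_card_inter Ef R
  -- triangle sums
  have htri := Finset.sum_le_sum (fun t (ht : t ∈ T) => tri_ineq hT hR ht)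
  rw [Finset.sum_add_distrib, Finset.sum_add_distrib, Finset.sum_add_distrib, ← Finset.mul_sum,
    ← Finset.mul_sum, Finset.sum_add_distrib, ← Finset.mul_sum,
    double_count hT _ (Finset.filter_subset _ _),
    double_count hT _ ((Finset.filter_subset _ _).trans hR.sub),
    double_count hT _ (Finset.filter_subset _ _), Finset.sum_const, smul_eq_mul,
    ← Finset.card_filter, ← Finset.card_filter] at htri
  have hind : (if Sᶜ.Nonempty then 1 else 0) ≤ C.card := by
    split_ifs with h
    · exact Finset.card_pos.mpr (h.image κ)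
    · omega
  rw [← hEf, ← hF] at htri
  omega

end main


end partF

section partG
open Finset



section colour

variable {V : Type} [Fintype V] [DecidableEq V]
variable {T : Finset (Finset V)}

/-- conflict: adjacent, or opposite across an edge -/
def conf (T : Finset (Finset V)) (x u : V) : Prop :=
  ({x, u} : Finset V) ∈ edges T ∨ ({x, u} : Finset V) ∈ (edges T).image (opp T)

instance (x u : V) : Decidable (conf T x u) := by
  unfold conf; infer_instance

theorem conf_symm {x u : V} (h : conf T x u) : conf T u x := by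
  unfold conf at *
  rw [Finset.pair_comm u x]
  exact h

/-- conflict neighbours inside `S` -/
def nb (T : Finset (Finset V)) (S : Finset V) (x : V) : Finset V :=
  S.filter (fun u => u ≠ x ∧ conf T x u)

theorem tri_deg (hT : IsTri T) (x : V) :
    (Finset.univ.filter (fun u => ({x, u} : Finset V) ∈ edges T)).card ≤
      (T.filter (fun t => x ∈ t)).card := by
  have := Finset.card_mul_le_card_mul
    (s := Finset.univ.filter (fun u => ({x, u} : Finset V) ∈ edges T))
    (t := T.filter (fun t => x ∈ t)) (m := 2) (n := 2) (fun u t => u ∈ t)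
    (by
      intro u hu
      have hu' := (Finset.mem_filter.mp hu).2
      obtain ⟨t, ht, hs, hc⟩ := mem_edges.mp hu'
      rw [← hT.two t ht _ hs hc]
      apply Finset.card_le_card
      intro s hs
      rw [Finset.mem_filter] at hs
      rw [Finset.bipartiteAbove, Finset.mem_filter, Finset.mem_filter]
      exact ⟨⟨hs.1, hs.2 (by simp)⟩, hs.2 (by simp)⟩)
    (by
      intro t ht
      rw [Finset.mem_filter] at ht
      have h3 := hT.c3 t ht.1
      have : (t.erase x).card = 2 := by rw [Finset.card_erase_of_mem ht.2]; omega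
      rw [← this]
      apply Finset.card_le_card
      intro u hu
      rw [Finset.bipartiteBelow, Finset.mem_filter, Finset.mem_filter] at hu
      rw [Finset.mem_erase]
      exact ⟨(edges_pair_ne hu.1.2).symm, hu.2⟩)
  omega

theorem nb_deg (hT : IsTri T) (x : V) :
    (nb T Finset.univ x).card ≤ 2 * (T.filter (fun t => x ∈ t)).card := by
  have hsub : nb T Finset.univ x ⊆ (Finset.univ.filter (fun u => ({x, u} : Finset V) ∈ edges T)) ∪
      (T.filter (fun t => x ∈ t)).biUnion (fun t => (opp T (t.erase x)).erase x) := by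
    intro u hu
    rw [nb, Finset.mem_filter] at hu
    rw [Finset.mem_union, Finset.mem_filter, Finset.mem_biUnion]
    rcases hu.2.2 with h | h
    · left; exact ⟨Finset.mem_univ _, h⟩
    · right
      rw [Finset.mem_image] at h
      obtain ⟨e, he, heo⟩ := h
      have hxo : x ∈ opp T e := by rw [heo]; simp
      have hxo' := mem_opp.mp hxo
      refine ⟨insert x e, ?_, ?_⟩
      · rw [Finset.mem_filter]; exact ⟨hxo'.2, by simp⟩
      · rw [Finset.erase_insert hxo'.1, Finset.mem_erase]
        exact ⟨hu.2.1, by rw [heo]; simp⟩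
  have h1 := Finset.card_le_card hsub
  have h2 := Finset.card_union_le (Finset.univ.filter (fun u => ({x, u} : Finset V) ∈ edges T))
      ((T.filter (fun t => x ∈ t)).biUnion (fun t => (opp T (t.erase x)).erase x))
  have h3 := tri_deg hT x
  have h4 : ((T.filter (fun t => x ∈ t)).biUnion (fun t => (opp T (t.erase x)).erase x)).card ≤
      (T.filter (fun t => x ∈ t)).card * 1 := by
    apply Finset.card_biUnion_le_card_mul
    intro t ht
    rw [Finset.mem_filter] at ht
    have h3 := hT.c3 t ht.1
    have hc : (t.erase x).card = 2 := by rw [Finset.card_erase_of_mem ht.2]; omega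
    have he : t.erase x ∈ edges T := mem_edges.mpr ⟨t, ht.1, Finset.erase_subset _ _, hc⟩
    have hx : x ∈ opp T (t.erase x) := by
      rw [mem_opp]
      exact ⟨by simp, by rw [Finset.insert_erase ht.2]; exact ht.1⟩
    rw [Finset.card_erase_of_mem hx, card_opp hT he]
  omega

theorem low_degree (hT : IsTri T) (hcard : T.card = 2 * Fintype.card V + 8) (S : Finset V)
    (hS : S.Nonempty) : ∃ x ∈ S, (nb T S x).card ≤ 14 := by
  classical
  by_contra hcon
  push Not at hcon
  -- representatives
  set P := ((edges T).image (opp T)).filter (fun p => p ⊆ S ∧ p ∉ edges T) with hP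
  have hrep : ∀ p ∈ P, ∃ e ∈ edges T, opp T e = p := by
    intro p hp
    have := (Finset.mem_filter.mp hp).1
    exact Finset.mem_image.mp this
  choose! ρ hρ1 hρ2 using hrep
  set R := P.image ρ with hR
  have hRP : R.card = P.card := by
    apply Finset.card_image_of_injOn
    intro p hp q hq h
    rw [← hρ2 p hp, ← hρ2 q hq, h]
  have hRep : Rep T S R := by
    constructor
    · intro r hr
      rw [hR, Finset.mem_image] at hr
      obtain ⟨p, hp, rfl⟩ := hr
      exact hρ1 p hp
    · intro e he e' he' h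
      rw [hR, Finset.mem_image] at he he'
      obtain ⟨p, hp, rfl⟩ := he
      obtain ⟨q, hq, rfl⟩ := he'
      rw [hρ2 p hp, hρ2 q hq] at h
      rw [h]
    · intro r hr
      rw [hR, Finset.mem_image] at hr
      obtain ⟨p, hp, rfl⟩ := hr
      rw [hρ2 p hp]
      exact (Finset.mem_filter.mp hp).2.1
    · intro r hr
      rw [hR, Finset.mem_image] at hr
      obtain ⟨p, hp, rfl⟩ := hr
      rw [hρ2 p hp]
      exact (Finset.mem_filter.mp hp).2.2
  have hdeg : ∀ x ∈ S, ∀ y, ∃ u ∈ S, u ≠ x ∧ u ≠ y ∧
      (({x, u} : Finset V) ∈ edges T ∨ ∃ r ∈ R, opp T r = {x, u}) := by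
    intro x hx y
    have h15 := hcon x hx
    have : 0 < ((nb T S x).erase y).card := by
      have := Finset.pred_card_le_card_erase (s := nb T S x) (a := y)
      omega
    obtain ⟨u, hu⟩ := Finset.card_pos.mp this
    rw [Finset.mem_erase, nb, Finset.mem_filter] at hu
    refine ⟨u, hu.2.1, hu.2.2.1, hu.1, ?_⟩
    by_cases he : ({x, u} : Finset V) ∈ edges T
    · left; exact he
    · right
      rcases hu.2.2.2 with h | h
      · exact absurd h he
      · have hp : ({x, u} : Finset V) ∈ P := by
          rw [hP, Finset.mem_filter]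
          refine ⟨h, ?_, he⟩
          intro z hz
          simp at hz
          rcases hz with rfl | rfl
          · exact hx
          · exact hu.2.1
        exact ⟨ρ {x, u}, by rw [hR]; exact Finset.mem_image_of_mem _ hp, hρ2 _ hp⟩
  have hmain := main_ineq hT hRep hS hdeg
  set E0 := (edges T).filter (fun e => e ⊆ S) with hE0
  -- degree sum
  have hdisj : Disjoint E0 P := by
    rw [Finset.disjoint_left]
    intro e he hp
    exact (Finset.mem_filter.mp hp).2.2 (Finset.mem_filter.mp he).1
  have hPc : ∀ p ∈ E0 ∪ P, p ⊆ S ∧ p.card = 2 := by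
    intro p hp
    rw [Finset.mem_union] at hp
    rcases hp with hp | hp
    · rw [hE0, Finset.mem_filter] at hp
      exact ⟨hp.2, edges_card hp.1⟩
    · refine ⟨(Finset.mem_filter.mp hp).2.1, ?_⟩
      rw [← hρ2 p hp]
      exact card_opp hT (hρ1 p hp)
  have hsum := Finset.sum_card_bipartiteAbove_eq_sum_card_bipartiteBelow (s := S) (t := E0 ∪ P)
    (fun x p => x ∈ p)
  have hlow : ∑ x ∈ S, 15 ≤ ∑ x ∈ S, (Finset.bipartiteAbove (fun x p => x ∈ p) (E0 ∪ P) x).card := by
    apply Finset.sum_le_sum
    intro x hx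
    have h15 := hcon x hx
    have : (nb T S x).card ≤ (Finset.bipartiteAbove (fun x p => x ∈ p) (E0 ∪ P) x).card := by
      apply Finset.card_le_card_of_injOn (fun u => ({x, u} : Finset V))
      · intro u hu
        have hu' := Finset.mem_filter.mp hu
        have hsubS : ({x, u} : Finset V) ⊆ S := by
          intro z hz
          simp at hz
          rcases hz with rfl | rfl
          · exact hx
          · exact hu'.1
        show ({x, u} : Finset V) ∈ Finset.bipartiteAbove (fun x p => x ∈ p) (E0 ∪ P) x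
        rw [Finset.bipartiteAbove, Finset.mem_filter, Finset.mem_union]
        refine ⟨?_, by simp⟩
        by_cases he : ({x, u} : Finset V) ∈ edges T
        · left
          rw [hE0, Finset.mem_filter]
          exact ⟨he, hsubS⟩
        · right
          rw [hP, Finset.mem_filter]
          refine ⟨?_, hsubS, he⟩
          rcases hu'.2.2 with h | h
          · exact absurd h he
          · exact h
      · intro u hu w hw h
        exact pair_eq_left h
    omega
  have hup : ∑ p ∈ E0 ∪ P, (Finset.bipartiteBelow (fun x p => x ∈ p) S p).card ≤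
      ∑ p ∈ E0 ∪ P, 2 := by
    apply Finset.sum_le_sum
    intro p hp
    rw [← (hPc p hp).2]
    apply Finset.card_le_card
    intro x hx
    exact (Finset.mem_filter.mp hx).2
  rw [Finset.sum_const, smul_eq_mul] at hlow hup
  rw [Finset.card_union_of_disjoint hdisj] at hup
  have hn : S.card + Sᶜ.card = Fintype.card V := Finset.card_add_card_compl S
  have h16 : 16 ≤ S.card := by
    obtain ⟨x, hx⟩ := hS
    have h15 := hcon x hx
    have : (insert x (nb T S x)).card ≤ S.card := by
      apply Finset.card_le_card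
      intro z hz
      rw [Finset.mem_insert] at hz
      rcases hz with rfl | hz
      · exact hx
      · exact (Finset.mem_filter.mp hz).1
    rw [Finset.card_insert_of_notMem (by simp [nb])] at this
    omega
  have hSc : ¬ Sᶜ.Nonempty := by
    intro h
    rw [if_pos h] at hmain
    omega
  rw [if_neg hSc] at hmain
  rw [Finset.not_nonempty_iff_eq_empty] at hSc
  have hSu : S = Finset.univ := by
    rw [← Finset.compl_eq_empty_iff]; exact hSc
  have hn16 : Fintype.card V = 16 := by
    rw [hSc, Finset.card_empty] at hn hmain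
    omega
  -- parity
  have hdegx : ∀ x : V, 8 ≤ (T.filter (fun t => x ∈ t)).card := by
    intro x
    have h1 := hcon x (by rw [hSu]; simp)
    rw [hSu] at h1
    have h2 := nb_deg hT x
    omega
  have hs2 := Finset.sum_card_bipartiteAbove_eq_sum_card_bipartiteBelow (s := (Finset.univ : Finset V))
    (t := T) (fun x t => x ∈ t)
  have hl : ∑ x : V, 8 ≤ ∑ x : V, (Finset.bipartiteAbove (fun x t => x ∈ t) T x).card := by
    apply Finset.sum_le_sum
    intro x _
    exact hdegx x
  have hu : ∑ t ∈ T, (Finset.bipartiteBelow (fun x t => x ∈ t) (Finset.univ : Finset V) t).card ≤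
      ∑ t ∈ T, 3 := by
    apply Finset.sum_le_sum
    intro t ht
    rw [← hT.c3 t ht]
    apply Finset.card_le_card
    intro x hx
    exact (Finset.mem_filter.mp hx).2
  rw [Finset.sum_const, smul_eq_mul, Finset.card_univ] at hl
  rw [Finset.sum_const, smul_eq_mul] at hu
  omega

theorem colour15 (hT : IsTri T) (hcard : T.card = 2 * Fintype.card V + 8) (S : Finset V) :
    ∃ c : V → Fin 15, ∀ x ∈ S, ∀ y ∈ S, x ≠ y → conf T x y → c x ≠ c y := by
  classical
  induction S using Finset.strongInduction with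
  | H S ih =>
    rcases S.eq_empty_or_nonempty with rfl | hS
    · exact ⟨fun _ => 0, by simp⟩
    · obtain ⟨x, hx, hlow⟩ := low_degree hT hcard S hS
      obtain ⟨c, hc⟩ := ih (S.erase x) (Finset.erase_ssubset hx)
      have : ∃ k : Fin 15, k ∉ (nb T S x).image c := by
        by_contra hcon
        push Not at hcon
        have h1 : (Finset.univ : Finset (Fin 15)).card ≤ ((nb T S x).image c).card :=
          Finset.card_le_card (fun k _ => hcon k)
        have h2 : ((nb T S x).image c).card ≤ (nb T S x).card := Finset.card_image_le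
        simp at h1
        omega
      obtain ⟨k, hk⟩ := this
      have hk' : ∀ u ∈ S, u ≠ x → conf T x u → c u ≠ k := by
        intro u hu hux hcf h
        apply hk
        rw [Finset.mem_image]
        exact ⟨u, Finset.mem_filter.mpr ⟨hu, hux, hcf⟩, h⟩
      refine ⟨Function.update c x k, ?_⟩
      intro a ha b hb hab hcf
      by_cases hax : a = x
      · subst hax
        rw [Function.update_self, Function.update_of_ne hab.symm]
        exact (hk' b hb hab.symm hcf).symm
      · by_cases hbx : b = x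
        · subst hbx
          rw [Function.update_self, Function.update_of_ne hab]
          exact hk' a ha hab (conf_symm hcf)
        · rw [Function.update_of_ne hax, Function.update_of_ne hbx]
          exact hc a (Finset.mem_erase.mpr ⟨hax, ha⟩) b (Finset.mem_erase.mpr ⟨hbx, hb⟩) hab hcf

theorem diag15 (hT : IsTri T) (hcard : T.card = 2 * Fintype.card V + 8) :
    ∃ c : V → Fin 15, ∀ t₁ ∈ T, ∀ t₂ ∈ T, (t₁ ∩ t₂).card = 2 →
          Set.InjOn c (↑(t₁ ∪ t₂) : Set V) := by
  obtain ⟨c, hc⟩ := colour15 hT hcard Finset.univ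
  refine ⟨c, ?_⟩
  intro t₁ h1 t₂ h2 h12 x hx y hy hxy
  by_contra hne
  refine hc x (Finset.mem_univ _) y (Finset.mem_univ _) hne ?_ hxy
  have hx' : x ∈ t₁ ∪ t₂ := hx
  have hy' : y ∈ t₁ ∪ t₂ := hy
  rw [Finset.mem_union] at hx' hy'
  have c1 := hT.c3 t₁ h1
  have c2 := hT.c3 t₂ h2
  have he : t₁ ∩ t₂ ∈ edges T := mem_edges.mpr ⟨t₁, h1, Finset.inter_subset_left, h12⟩
  have key : ∀ a b : V, a ∈ t₁ → b ∈ t₂ → a ≠ b → conf T a b := by
    intro a b ha hb hab
    by_cases ha2 : a ∈ t₂
    · left; exact edge_of_mem hT h2 ha2 hb hab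
    · by_cases hb1 : b ∈ t₁
      · left; exact edge_of_mem hT h1 ha hb1 hab
      · right
        rw [Finset.mem_image]
        refine ⟨t₁ ∩ t₂, he, ?_⟩
        have i1 : insert a (t₁ ∩ t₂) = t₁ := by
          apply Finset.eq_of_subset_of_card_le
          · intro z hz
            rw [Finset.mem_insert] at hz
            rcases hz with rfl | hz
            · exact ha
            · exact (Finset.mem_inter.mp hz).1
          · rw [Finset.card_insert_of_notMem (by simp [ha2])]; omega
        have i2 : insert b (t₁ ∩ t₂) = t₂ := by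
          apply Finset.eq_of_subset_of_card_le
          · intro z hz
            rw [Finset.mem_insert] at hz
            rcases hz with rfl | hz
            · exact hb
            · exact (Finset.mem_inter.mp hz).2
          · rw [Finset.card_insert_of_notMem (by simp [hb1])]; omega
        symm
        apply Finset.eq_of_subset_of_card_le
        · intro z hz
          simp only [Finset.mem_insert, Finset.mem_singleton] at hz
          rw [mem_opp]
          rcases hz with rfl | rfl
          · exact ⟨by simp [ha2], by rw [i1]; exact h1⟩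
          · exact ⟨by simp [hb1], by rw [i2]; exact h2⟩
        · rw [card_opp hT he, Finset.card_pair hab]
  rcases hx' with hx1 | hx2
  · rcases hy' with hy1 | hy2
    · left; exact edge_of_mem hT h1 hx1 hy1 hne
    · exact key x y hx1 hy2 hne
  · rcases hy' with hy1 | hy2
    · exact conf_symm (key y x hy1 hx2 (Ne.symm hne))
    · left; exact edge_of_mem hT h2 hx2 hy2 hne

end colour


end partG

section partH
open Finset



/-- the facial triangles of a genus 3 surface on ten vertices, coherently oriented -/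
def L0 : List (Fin 10 × Fin 10 × Fin 10) :=
  [(5, 6, 7), (8, 7, 1), (4, 7, 2), (3, 7, 4), (6, 5, 0), (0, 7, 3), (0, 1, 7), (5, 3, 1),
   (5, 4, 0), (5, 7, 8), (5, 9, 4), (5, 2, 3), (8, 6, 0), (5, 8, 2), (0, 4, 1), (1, 3, 8),
   (0, 3, 9), (1, 4, 2), (3, 4, 8), (5, 1, 9), (7, 6, 2), (4, 9, 8), (9, 6, 8), (2, 8, 0),
   (3, 2, 6), (9, 3, 6), (0, 9, 2), (9, 1, 2)]

theorem nodup0 : (((L0.map (fun p => ({p.1, p.2.1, p.2.2} : Finset (Fin 10)))) :
    Multiset (Finset (Fin 10)))).Nodup := by
  decide +kernel

def T0 : Finset (Finset (Fin 10)) :=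
  ⟨((L0.map (fun p => ({p.1, p.2.1, p.2.2} : Finset (Fin 10)))) : Multiset (Finset (Fin 10))), nodup0⟩

def cyc0 : Fin 10 → List (Fin 10) :=
  ![[1, 7, 3, 9, 2, 8, 6, 5, 4], [0, 7, 8, 3, 5, 9, 2, 4], [0, 8, 5, 3, 6, 7, 4, 1, 9],
    [0, 7, 4, 8, 1, 5, 2, 6, 9], [0, 5, 9, 8, 3, 7, 2, 1], [0, 6, 7, 8, 2, 3, 1, 9, 4],
    [0, 5, 7, 2, 3, 9, 8], [0, 3, 4, 2, 6, 5, 8, 1], [0, 6, 9, 4, 3, 1, 7, 5, 2],
    [0, 3, 6, 8, 4, 5, 1, 2]]

theorem reach_of_chain {V : Type} (r : V → V → Prop) : ∀ (l : List V),
    List.IsChain (fun x y => x ≠ y ∧ r x y) l →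
    ∀ a ∈ l, ∀ b ∈ l, (SimpleGraph.fromRel r).Reachable a b := by
  intro l
  induction l with
  | nil => intro _ a ha; simp at ha
  | cons x l ih =>
    intro hc
    cases l with
    | nil =>
      intro a ha b hb
      simp at ha hb
      rw [ha, hb]
    | cons y l =>
      rw [List.isChain_cons_cons] at hc
      have hih := ih hc.2
      have hxy : (SimpleGraph.fromRel r).Adj x y := by
        rw [SimpleGraph.fromRel_adj]
        exact ⟨hc.1.1, Or.inl hc.1.2⟩
      have hx : ∀ b ∈ y :: l, (SimpleGraph.fromRel r).Reachable x b :=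
        fun b hb => hxy.reachable.trans (hih y (by simp) b hb)
      intro a ha b hb
      rw [List.mem_cons] at ha hb
      rcases ha with rfl | ha
      · rcases hb with rfl | hb
        · exact SimpleGraph.Reachable.refl _
        · exact hx b hb
      · rcases hb with rfl | hb
        · exact (hx a ha).symm
        · exact hih a ha b hb

def inT (a : Fin 10) (p : Fin 10 × Fin 10 × Fin 10) : Bool :=
  decide (a = p.1) || decide (a = p.2.1) || decide (a = p.2.2)

theorem mem_f (a : Fin 10) (p : Fin 10 × Fin 10 × Fin 10) :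
    a ∈ ({p.1, p.2.1, p.2.2} : Finset (Fin 10)) ↔ inT a p = true := by
  simp [inT, or_assoc]

theorem mem_T0 (t : Finset (Fin 10)) : t ∈ T0 ↔
    ∃ p ∈ L0, ({p.1, p.2.1, p.2.2} : Finset (Fin 10)) = t := by
  have : t ∈ T0 ↔ t ∈ (L0.map (fun p => ({p.1, p.2.1, p.2.2} : Finset (Fin 10)))) := Iff.rfl
  rw [this, List.mem_map]

theorem L0_ne : ∀ p ∈ L0, p.1 ≠ p.2.1 ∧ p.1 ≠ p.2.2 ∧ p.2.1 ≠ p.2.2 := by decide +kernel

theorem T0_c3 : ∀ t ∈ T0, t.card = 3 := by
  intro t ht
  obtain ⟨p, hp, rfl⟩ := (mem_T0 t).mp ht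
  have h := L0_ne p hp
  exact Finset.card_eq_three.mpr ⟨_, _, _, h.1, h.2.1, h.2.2, rfl⟩

theorem T0_cov : ∀ v : Fin 10, ∃ t ∈ T0, v ∈ t := by
  have h : ∀ v : Fin 10, ∃ p ∈ L0, inT v p = true := by decide +kernel
  intro v
  obtain ⟨p, hp, hv⟩ := h v
  exact ⟨_, (mem_T0 _).mpr ⟨p, hp, rfl⟩, (mem_f v p).mpr hv⟩

theorem T0_cnt (a b : Fin 10) : (T0.filter (fun s => ({a, b} : Finset (Fin 10)) ⊆ s)).card =
    (L0.filter (fun p => inT a p && inT b p)).length := by
  have h1 : (T0.filter (fun s => ({a, b} : Finset (Fin 10)) ⊆ s)).card =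
      ((L0.map (fun p => ({p.1, p.2.1, p.2.2} : Finset (Fin 10)))).filter
        (fun s => decide (({a, b} : Finset (Fin 10)) ⊆ s))).length := rfl
  rw [h1, List.filter_map, List.length_map]
  congr 1
  apply List.filter_congr
  intro p _
  have : (({a, b} : Finset (Fin 10)) ⊆ {p.1, p.2.1, p.2.2}) ↔ (inT a p = true ∧ inT b p = true) := by
    rw [← mem_f, ← mem_f, Finset.insert_subset_iff, Finset.singleton_subset_iff]
  simp only [Function.comp_apply]
  rw [Bool.eq_iff_iff]
  simp only [decide_eq_true_eq, Bool.and_eq_true]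
  exact this

theorem L0_two : ∀ p ∈ L0, ∀ a, inT a p = true → ∀ b, inT b p = true → a ≠ b →
    (L0.filter (fun p => inT a p && inT b p)).length = 2 := by decide +kernel

theorem T0_two : ∀ t ∈ T0, ∀ e ⊆ t, e.card = 2 → (T0.filter (fun s => e ⊆ s)).card = 2 := by
  intro t ht e he hc
  obtain ⟨p, hp, rfl⟩ := (mem_T0 t).mp ht
  obtain ⟨a, b, hab, rfl⟩ := Finset.card_eq_two.mp hc
  rw [T0_cnt]
  exact L0_two p hp a ((mem_f a p).mp (he (by simp))) b ((mem_f b p).mp (he (by simp))) hab

theorem T0_card : T0.card = 28 := rfl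

/-- boolean test for a facial triangle -/
def triB (a b c : Fin 10) : Bool :=
  L0.any (fun p => inT a p && inT b p && inT c p) && decide (a ≠ b ∧ a ≠ c ∧ b ≠ c)

theorem triB_of (a b c : Fin 10) (h : ({a, b, c} : Finset (Fin 10)) ∈ T0) : triB a b c = true := by
  have hc := T0_c3 _ h
  obtain ⟨p, hp, he⟩ := (mem_T0 _).mp h
  unfold triB
  rw [Bool.and_eq_true, List.any_eq_true, decide_eq_true_eq]
  constructor
  · refine ⟨p, hp, ?_⟩
    rw [Bool.and_eq_true, Bool.and_eq_true, ← mem_f, ← mem_f, ← mem_f, he]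
    simp
  · refine ⟨?_, ?_, ?_⟩
    · rintro rfl
      simp at hc
      have h2 := Finset.card_le_two (a := a) (b := c)
      omega
    · rintro rfl
      have h3 : ({a, b, a} : Finset (Fin 10)) = {a, b} := by ext x; simp; tauto
      rw [h3] at hc
      have h2 := Finset.card_le_two (a := a) (b := b)
      omega
    · rintro rfl
      simp at hc
      have h2 := Finset.card_le_two (a := a) (b := b)
      omega

theorem T0_of_triB (a b c : Fin 10) (h : triB a b c = true) : ({a, b, c} : Finset (Fin 10)) ∈ T0 := by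
  unfold triB at h
  rw [Bool.and_eq_true, List.any_eq_true, decide_eq_true_eq] at h
  obtain ⟨⟨p, hp, h1⟩, h2, h3, h4⟩ := h
  rw [Bool.and_eq_true, Bool.and_eq_true, ← mem_f, ← mem_f, ← mem_f] at h1
  rw [mem_T0]
  refine ⟨p, hp, ?_⟩
  symm
  apply Finset.eq_of_subset_of_card_le
  · intro z hz
    simp only [Finset.mem_insert, Finset.mem_singleton] at hz
    rcases hz with rfl | rfl | rfl
    · exact h1.1.1
    · exact h1.1.2
    · exact h1.2
  · rw [Finset.card_eq_three.mpr ⟨a, b, c, h2, h3, h4, rfl⟩]
    exact Finset.card_le_three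

theorem L0_chain : ∀ v : Fin 10,
    List.IsChain (fun x y => x ≠ y ∧ triB v x y = true) (cyc0 v) := by
  decide +kernel

theorem T0_chain : ∀ v : Fin 10,
    List.IsChain (fun x y => x ≠ y ∧ ({v, x, y} : Finset (Fin 10)) ∈ T0) (cyc0 v) := by
  intro v
  refine (L0_chain v).imp ?_
  intro a b h
  exact ⟨h.1, T0_of_triB _ _ _ h.2⟩

theorem L0_nb : ∀ p ∈ L0, ∀ v, inT v p = true → ∀ a, inT a p = true → v ≠ a → a ∈ cyc0 v := by
  decide +kernel

theorem T0_nb (v a : Fin 10) (h : ∃ t ∈ T0, v ∈ t ∧ a ∈ t ∧ v ≠ a) : a ∈ cyc0 v := by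
  obtain ⟨t, ht, h1, h2, h3⟩ := h
  obtain ⟨p, hp, rfl⟩ := (mem_T0 t).mp ht
  exact L0_nb p hp v ((mem_f v p).mp h1) a ((mem_f a p).mp h2) h3

theorem L0_glob : List.IsChain (fun x y : Fin 10 => x ≠ y ∧ ∃ p ∈ L0, inT x p = true ∧ inT y p = true)
    [0, 1, 2, 3, 4, 5, 6, 7, 8, 9] := by decide +kernel

theorem T0_glob : List.IsChain (fun x y : Fin 10 => x ≠ y ∧ ∃ t ∈ T0, x ∈ t ∧ y ∈ t)
    [0, 1, 2, 3, 4, 5, 6, 7, 8, 9] := by
  refine L0_glob.imp ?_
  rintro a b ⟨h, p, hp, h1, h2⟩
  exact ⟨h, _, (mem_T0 _).mpr ⟨p, hp, rfl⟩, (mem_f a p).mpr h1, (mem_f b p).mpr h2⟩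

def isL (a b c : Fin 10) : Bool :=
  L0.contains (a, b, c) || L0.contains (b, c, a) || L0.contains (c, a, b)

def s0 (a b c : Fin 10) : ℤ := (if isL a b c then 1 else 0) - (if isL b a c then 1 else 0)

theorem isL_rot (a b c : Fin 10) : isL a b c = isL b c a := by
  unfold isL
  cases L0.contains (a, b, c) <;> cases L0.contains (b, c, a) <;> cases L0.contains (c, a, b) <;> rfl

theorem s0_swap (a b c : Fin 10) : s0 a b c = -s0 b a c := by
  unfold s0; ring

theorem s0_rot (a b c : Fin 10) : s0 a b c = s0 b c a := by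
  unfold s0
  rw [isL_rot a b c, isL_rot b a c, isL_rot a c b]

theorem s0_val' : ∀ a b c, triB a b c = true → s0 a b c = 1 ∨ s0 a b c = -1 := by
  decide +kernel

theorem s0_val (a b c : Fin 10) (h : ({a, b, c} : Finset (Fin 10)) ∈ T0) :
    s0 a b c = 1 ∨ s0 a b c = -1 := s0_val' a b c (triB_of a b c h)

theorem s0_opp' : ∀ a b c, triB a b c = true → ∀ d, triB a b d = true →
            c ≠ d → s0 a b c = -s0 a b d := by
  decide +kernel

theorem s0_opp (a b c d : Fin 10) (h : ({a, b, c} : Finset (Fin 10)) ∈ T0)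
    (h' : ({a, b, d} : Finset (Fin 10)) ∈ T0) (hcd : c ≠ d) : s0 a b c = -s0 a b d :=
  s0_opp' a b c (triB_of a b c h) d (triB_of a b d h') hcd


end partH

/-- The negation of the preceding statement: For every closed surface other than the sphere (Euler characteristic ε, given orientability), the least k such that every triangulation has a colouring with the vertices of any two edge-adjacent triangles all distinct is ⌊(13+√(169−48ε))/2⌋. -/
theorem result :
    ¬ (∀ (ε : ℤ) (o : Bool), ε ≠ 2 →
    (∃ (n : ℕ) (T : Finset (Finset (Fin n))),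
      0 < n ∧
      (∀ t ∈ T, t.card = 3) ∧
      (∀ v : Fin n, ∃ t ∈ T, v ∈ t) ∧
      (∀ t ∈ T, ∀ e ⊆ t, e.card = 2 → (T.filter (fun s => e ⊆ s)).card = 2) ∧
      (∀ v a b : Fin n, (∃ t ∈ T, v ∈ t ∧ a ∈ t ∧ v ≠ a) → (∃ t ∈ T, v ∈ t ∧ b ∈ t ∧ v ≠ b) →
        (SimpleGraph.fromRel (fun x y : Fin n => ({v, x, y} : Finset (Fin n)) ∈ T)).Reachable a b) ∧
      (∀ a b : Fin n, (SimpleGraph.fromRel (fun x y : Fin n => ∃ t ∈ T, x ∈ t ∧ y ∈ t)).Reachable a b) ∧
      2 * (n : ℤ) - (T.card : ℤ) = 2 * ε ∧
      ((∃ s : Fin n → Fin n → Fin n → ℤ,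
          (∀ a b c, s a b c = -s b a c) ∧ (∀ a b c, s a b c = s b c a) ∧
          (∀ a b c, ({a, b, c} : Finset (Fin n)) ∈ T → s a b c = 1 ∨ s a b c = -1) ∧
          (∀ a b c d, ({a, b, c} : Finset (Fin n)) ∈ T → ({a, b, d} : Finset (Fin n)) ∈ T →
            c ≠ d → s a b c = -s a b d)) ↔ o = true)) →
    ∀ k : ℕ,
      (∀ (n : ℕ) (T : Finset (Finset (Fin n))),
        0 < n →
        (∀ t ∈ T, t.card = 3) →
        (∀ v : Fin n, ∃ t ∈ T, v ∈ t) →
        (∀ t ∈ T, ∀ e ⊆ t, e.card = 2 → (T.filter (fun s => e ⊆ s)).card = 2) →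
        (∀ v a b : Fin n, (∃ t ∈ T, v ∈ t ∧ a ∈ t ∧ v ≠ a) → (∃ t ∈ T, v ∈ t ∧ b ∈ t ∧ v ≠ b) →
          (SimpleGraph.fromRel (fun x y : Fin n => ({v, x, y} : Finset (Fin n)) ∈ T)).Reachable a b) →
        (∀ a b : Fin n, (SimpleGraph.fromRel (fun x y : Fin n => ∃ t ∈ T, x ∈ t ∧ y ∈ t)).Reachable a b) →
        2 * (n : ℤ) - (T.card : ℤ) = 2 * ε →
        ((∃ s : Fin n → Fin n → Fin n → ℤ,
            (∀ a b c, s a b c = -s b a c) ∧ (∀ a b c, s a b c = s b c a) ∧
            (∀ a b c, ({a, b, c} : Finset (Fin n)) ∈ T → s a b c = 1 ∨ s a b c = -1) ∧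
            (∀ a b c d, ({a, b, c} : Finset (Fin n)) ∈ T → ({a, b, d} : Finset (Fin n)) ∈ T →
              c ≠ d → s a b c = -s a b d)) ↔ o = true) →
        ∃ c : Fin n → Fin k, ∀ t₁ ∈ T, ∀ t₂ ∈ T, (t₁ ∩ t₂).card = 2 →
          Set.InjOn c (↑(t₁ ∪ t₂) : Set (Fin n)))
      ↔ ⌊(13 + Real.sqrt (169 - 48 * (ε : ℝ))) / 2⌋₊ ≤ k) := by
  intro hall
  have hfl : ⌊(13 + Real.sqrt (169 - 48 * (((-4 : ℤ)) : ℝ))) / 2⌋₊ = 16 := by
    have h1 : (169 - 48 * (((-4 : ℤ)) : ℝ)) = 19 ^ 2 := by push_cast; norm_num
    rw [h1, Real.sqrt_sq (by norm_num)]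
    norm_num
  have key := hall (-4) true (by norm_num) ⟨10, T0, by norm_num, T0_c3, T0_cov, T0_two, ?_, ?_, ?_, ?_⟩ 15
  · rw [hfl] at key
    have h16 : 16 ≤ 15 := key.mp (by
      intro n T hn h3 hcov h2 hl hc hchi _
      have hT : IsTri T := ⟨h3, hcov, h2, hl, hc⟩
      apply diag15 hT
      rw [Fintype.card_fin]
      omega)
    omega
  · intro v a b ha hb
    exact reach_of_chain _ (cyc0 v) (T0_chain v) a (T0_nb v a ha) b (T0_nb v b hb)
  · intro a b
    apply reach_of_chain _ _ T0_glob
    · fin_cases a <;> simp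
    · fin_cases b <;> simp
  · rw [T0_card]; norm_num
  · refine ⟨fun _ => rfl, fun _ => ⟨s0, s0_swap, s0_rot, s0_val, s0_opp⟩⟩


end Pool.Agent.S04726
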