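import Pool.Statements.S04730
import Pool.Agent.Helper855.BqFinal

set_option autoImplicit false
open Pool Pool.MP_113321_co

namespace Pool.Agent.S04730

/-- The negation of the preceding statement: For every d ≥ 2 and every n > d, some map from d-dimensional to n-dimensional Euclidean space sends points at distance 1 to points at distance 1 but changes some distance; that is, k_d = d for all d ≥ 2. -/
theorem result :
    ¬ (∀ d : ℕ, 2 ≤ d → ∀ n : ℕ, d < n →
      ∃ f : EuclideanSpace ℝ (Fin d) → EuclideanSpace ℝ (Fin n),
        (∀ x y : EuclideanSpace ℝ (Fin d), dist x y = 1 → dist (f x) (f y) = 1) ∧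
        ∃ x y : EuclideanSpace ℝ (Fin d), dist (f x) (f y) ≠ dist x y) := by
  intro h
  obtain ⟨f, hf, x, y, hxy⟩ := h 12 (by norm_num) 13 (by norm_num)
  apply hxy
  rw [dist_eq_norm, dist_eq_norm]
  refine Pool.Agent.Helper855.Bq.isometry_of_unit (by simp) (by simp) (f := f) ?_ x y
  intro a b hab
  have := hf a b (by rw [dist_eq_norm]; exact hab)
  rwa [dist_eq_norm] at this

end Pool.Agent.S04730
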