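import Pool.Statements.S04742
import Pool.Agent.Helper378.PD.Final

set_option autoImplicit false
open Pool Pool.MP_121e0a_co

namespace Pool.Agent.S04742

/-- The negation of the preceding statement: There are constants C and r₀ such that for all r ≥ r₀, any finite planar point set, with edges joining points whose distance lies in a fixed set of r positive reals, can be properly colored with at most r^C colors. -/
theorem result :
    ¬ (∃ C : ℝ, ∃ r₀ : ℕ, ∀ r : ℕ, r₀ ≤ r →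
      ∀ P : Finset (EuclideanSpace ℝ (Fin 2)), ∀ A : Finset ℝ,
        A.card = r → (∀ a ∈ A, 0 < a) →
          ∃ k : ℕ, (k : ℝ) ≤ (r : ℝ) ^ C ∧
            (SimpleGraph.fromRel (fun x y : ↥P =>
              dist (x : EuclideanSpace ℝ (Fin 2)) (y : EuclideanSpace ℝ (Fin 2)) ∈ A)).Colorable k) := by
  rintro ⟨C, r₀, hC⟩
  -- exponential beats polynomial
  obtain ⟨J, hJ0, hJ1, hJ⟩ : ∃ J : ℕ, r₀ ≤ J ∧ 1 ≤ J ∧ (J : ℝ) ^ C < 2 ^ J := by
    have h1 : Filter.Tendsto (fun n : ℕ => (n : ℝ) ^ (⌈|C|⌉₊) / 2 ^ n) Filter.atTop (nhds 0) :=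
      tendsto_pow_const_div_const_pow_of_one_lt _ one_lt_two
    have h2 := h1.eventually (gt_mem_nhds (show (0:ℝ) < 1 by norm_num))
    obtain ⟨J, hJ, hJr, hJ1⟩ := (h2.and ((Filter.eventually_ge_atTop r₀).and
      (Filter.eventually_ge_atTop 1))).exists
    refine ⟨J, hJr, hJ1, ?_⟩
    have h3 : (J : ℝ) ^ (⌈|C|⌉₊) / 2 ^ J < 1 := hJ
    rw [div_lt_one (by positivity)] at h3
    refine lt_of_le_of_lt ?_ h3
    rw [← Real.rpow_natCast]
    apply Real.rpow_le_rpow_of_exponent_le (by exact_mod_cast hJ1)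
    exact (le_abs_self C).trans (Nat.le_ceil _)
  obtain ⟨A, hcard, hpos, hlow⟩ := Pool.Agent.Helper378.PD.final J
  have hfin : ∀ P : Finset (EuclideanSpace ℝ (Fin 2)),
      (SimpleGraph.fromRel (fun x y : ↥P =>
        dist (x : EuclideanSpace ℝ (Fin 2)) (y : EuclideanSpace ℝ (Fin 2)) ∈ A)).Colorable
        ⌊(J : ℝ) ^ C⌋₊ := by
    intro P
    obtain ⟨k, hk, hcol⟩ := hC J hJ0 P A hcard hpos
    exact hcol.mono (Nat.le_floor hk)
  have hne : Nonempty ((SimpleGraph.fromRel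
      (fun x y : EuclideanSpace ℝ (Fin 2) => dist x y ∈ A)) →g
      (⊤ : SimpleGraph (Fin ⌊(J : ℝ) ^ C⌋₊))) := by
    apply SimpleGraph.nonempty_hom_of_forall_finite_subgraph_hom
    intro G' hG'
    have hcol := (hfin hG'.toFinset).some
    refine ⟨fun v => hcol ⟨v.1, by rw [Set.Finite.mem_toFinset]; exact v.2⟩, ?_⟩
    intro v w hvw
    apply hcol.valid
    have h1 := G'.adj_sub hvw
    rw [SimpleGraph.fromRel_adj] at h1 ⊢
    refine ⟨fun he => h1.1 ?_, h1.2⟩
    exact Subtype.mk.inj he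
  obtain ⟨col⟩ := hne
  have := hlow _ (fun x => col x) (fun x y hxy => col.map_adj (by
    rw [SimpleGraph.fromRel_adj]
    refine ⟨?_, Or.inl hxy⟩
    rintro rfl
    rw [dist_self] at hxy
    exact lt_irrefl 0 (hpos 0 hxy)))
  have h1 : ((2 ^ J : ℕ) : ℝ) ≤ (⌊(J : ℝ) ^ C⌋₊ : ℝ) := by exact_mod_cast this
  have h2 : (⌊(J : ℝ) ^ C⌋₊ : ℝ) ≤ (J : ℝ) ^ C := Nat.floor_le (by positivity)
  push_cast at h1
  linarith

end Pool.Agent.S04742
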