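import Pool.Statements.S04744

set_option autoImplicit false
open Pool Pool.MP_122707_co
open scoped Pointwise

namespace Pool.Agent.S04744

/-- The counterexample in the integers modulo 444: seven elements of the subgroup of order twelve,
together with one full coset of that subgroup. -/
def A444 : Finset (ZMod 444) :=
  {0, 37, 74, 185, 222, 296, 333, 1, 38, 75, 112, 149, 186, 223, 260, 297, 334, 371, 408}

theorem card_A444 : A444.card = 19 := by decide +kernel

/-- Only 34 residues modulo 444 are sums of two distinct elements of the set. -/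
theorem card_restricted :
    (Finset.image (fun p : ZMod 444 × ZMod 444 => p.1 + p.2)
      ((A444 ×ˢ A444).filter (fun p : ZMod 444 × ZMod 444 => p.1 ≠ p.2))).card = 34 := by
  decide +kernel

/-- Reduction modulo 37. -/
def phi : ZMod 444 →+* ZMod 37 := ZMod.castHom (by norm_num) (ZMod 37)

/-- Fibres of the reduction modulo 37. -/
def fib (B : Finset (ZMod 444)) (z : ZMod 37) : Finset (ZMod 444) := B.filter (fun x => phi x = z)

theorem card_fib : ∀ z : ZMod 37, (fib Finset.univ z).card = 12 := by
  decide +kernel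

theorem mem_fib (B : Finset (ZMod 444)) (z : ZMod 37) (x : ZMod 444) :
    x ∈ fib B z ↔ x ∈ B ∧ phi x = z := by simp [fib]

theorem fib_le (B : Finset (ZMod 444)) (z : ZMod 37) : (fib B z).card ≤ 12 := by
  rw [← card_fib z]
  apply Finset.card_le_card
  intro x hx
  rw [mem_fib] at hx ⊢
  exact ⟨Finset.mem_univ _, hx.2⟩

theorem sum_fib (B : Finset (ZMod 444)) : ∑ z : ZMod 37, (fib B z).card = B.card := by
  rw [Finset.card_eq_sum_card_fiberwise (f := fun x => phi x) (t := Finset.univ)]
  · rfl
  · intro x _; simp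

/-- A fibre of the sumset is at least as large as a fibre of a summand. -/
theorem fib_mono (A : Finset (ZMod 444)) (x y : ZMod 37) (hy : 1 ≤ (fib A y).card) :
    (fib A x).card ≤ (fib (A + A) (x + y)).card := by
  obtain ⟨b, hb⟩ := Finset.card_pos.mp hy
  rw [mem_fib] at hb
  have : (fib A x).card = ((fib A x).image (fun a => a + b)).card := by
    rw [Finset.card_image_of_injective]
    intro u v huv
    simpa using huv
  rw [this]
  apply Finset.card_le_card
  intro u hu
  rw [Finset.mem_image] at hu
  obtain ⟨a, ha, rfl⟩ := hu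
  rw [mem_fib] at ha ⊢
  refine ⟨Finset.add_mem_add ha.1 hb.1, ?_⟩
  rw [map_add, ha.2, hb.2]

/-- If two fibres have together more than twelve elements then the fibre of the sum is full. -/
theorem fib_full (A : Finset (ZMod 444)) (x y : ZMod 37)
    (h : 12 < (fib A x).card + (fib A y).card) :
    12 ≤ (fib (A + A) (x + y)).card := by
  rw [← card_fib (x + y)]
  apply Finset.card_le_card
  intro g hg
  rw [mem_fib] at hg ⊢
  refine ⟨?_, hg.2⟩
  by_contra hcon
  have hdisj : Disjoint (fib A x) ((fib A y).image (fun b => g - b)) := by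
    rw [Finset.disjoint_left]
    intro u hu hu'
    rw [Finset.mem_image] at hu'
    obtain ⟨b, hb, rfl⟩ := hu'
    rw [mem_fib] at hu hb
    apply hcon
    have := Finset.add_mem_add hu.1 hb.1
    simpa using this
  have hcard : ((fib A y).image (fun b => g - b)).card = (fib A y).card := by
    rw [Finset.card_image_of_injective]
    intro u v huv
    simpa using huv
  have hsub : (fib A x) ∪ ((fib A y).image (fun b => g - b)) ⊆ fib Finset.univ x := by
    intro u hu
    rw [Finset.mem_union, Finset.mem_image] at hu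
    rw [mem_fib]
    refine ⟨Finset.mem_univ _, ?_⟩
    rcases hu with hu | ⟨b, hb, rfl⟩
    · rw [mem_fib] at hu; exact hu.2
    · rw [mem_fib] at hb
      rw [map_sub, hg.2, hb.2]; ring
  have := Finset.card_le_card hsub
  rw [Finset.card_union_of_disjoint hdisj, hcard, card_fib] at this
  omega

theorem five_cancel : ∀ d : ZMod 444, 5 * d = 0 → d = 0 := by
  intro d hd
  have h : (89 : ZMod 444) * 5 = 1 := by decide +kernel
  calc d = (89 * 5) * d := by rw [h, one_mul]
    _ = 89 * (5 * d) := by ring
    _ = 0 := by rw [hd, mul_zero]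

/-- A fibre with exactly five elements has at least six sums. -/
theorem fib_five (A : Finset (ZMod 444)) (x : ZMod 37) (h : (fib A x).card = 5) :
    6 ≤ (fib (A + A) (x + x)).card := by
  by_contra hcon
  push Not at hcon
  obtain ⟨b, hb, c, hc, hbc⟩ := Finset.one_lt_card.mp (by omega : 1 < (fib A x).card)
  have himg : ∀ b ∈ fib A x, (fib A x).image (fun a => a + b) = fib (A + A) (x + x) := by
    intro b hb
    apply Finset.eq_of_subset_of_card_le
    · intro u hu
      rw [Finset.mem_image] at hu
      obtain ⟨a, ha, rfl⟩ := hu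
      rw [mem_fib] at ha hb ⊢
      refine ⟨Finset.add_mem_add ha.1 hb.1, ?_⟩
      rw [map_add, ha.2, hb.2]
    · rw [Finset.card_image_of_injective _ (fun u v huv => by simpa using huv)]
      omega
  have h1 := himg b hb
  have h2 := himg c hc
  have h3 : ∑ u ∈ (fib A x).image (fun a => a + b), u = ∑ u ∈ (fib A x).image (fun a => a + c), u := by
    rw [h1, h2]
  rw [Finset.sum_image (fun u _ v _ huv => by simpa using huv),
    Finset.sum_image (fun u _ v _ huv => by simpa using huv), Finset.sum_add_distrib,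
    Finset.sum_add_distrib, Finset.sum_const, Finset.sum_const, h] at h3
  apply hbc
  have h4 : 5 * (b - c) = 0 := by
    simp only [nsmul_eq_mul] at h3
    push_cast at h3
    linear_combination h3
  exact sub_eq_zero.mp (five_cancel _ h4)

/-- Doubling is injective modulo 37. -/
theorem two_cancel : ∀ x y : ZMod 37, x + x = y + y → x = y := by decide +kernel

/-- Summation of a function by levels. -/
theorem sum_levels (f : ZMod 37 → ℕ) (M : ℕ) (hf : ∀ z, f z ≤ M) :
    ∑ z, f z = ∑ t ∈ Finset.Icc 1 M, (Finset.univ.filter (fun z => t ≤ f z)).card := by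
  have : ∀ z, f z = ∑ t ∈ Finset.Icc 1 M, if t ≤ f z then 1 else 0 := by
    intro z
    rw [← Finset.card_filter]
    have : (Finset.Icc 1 M).filter (fun t => t ≤ f z) = Finset.Icc 1 (f z) := by
      ext t
      simp only [Finset.mem_filter, Finset.mem_Icc]
      have := hf z
      omega
    rw [this]; simp
  calc ∑ z, f z = ∑ z, ∑ t ∈ Finset.Icc 1 M, (if t ≤ f z then 1 else 0) :=
        Finset.sum_congr rfl (fun z _ => this z)
    _ = ∑ t ∈ Finset.Icc 1 M, ∑ z, (if t ≤ f z then 1 else 0) := Finset.sum_comm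
    _ = _ := by
        apply Finset.sum_congr rfl
        intro t _
        rw [Finset.card_filter]

/-- Lower bound for partial sums of levels. -/
theorem sum_levels_le (f : ZMod 37 → ℕ) (M : ℕ) :
    ∑ t ∈ Finset.Icc 1 M, (Finset.univ.filter (fun z => t ≤ f z)).card ≤ ∑ z, f z := by
  calc ∑ t ∈ Finset.Icc 1 M, (Finset.univ.filter (fun z => t ≤ f z)).card
      ≤ ∑ z, min M (f z) := by
        rw [sum_levels (fun z => min M (f z)) M (fun z => min_le_left _ _)]
        apply Finset.sum_le_sum
        intro t ht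
        rw [Finset.mem_Icc] at ht
        apply Finset.card_le_card
        intro z hz
        simp only [Finset.mem_filter, Finset.mem_univ, true_and] at hz ⊢
        omega
    _ ≤ _ := Finset.sum_le_sum (fun z _ => min_le_right _ _)

theorem sum_three (f : ZMod 37 → ℕ) (a b c : ZMod 37) (hab : a ≠ b) (hac : a ≠ c) (hbc : b ≠ c) :
    f a + f b + f c ≤ ∑ z, f z := by
  calc f a + f b + f c = ∑ z ∈ ({a, b, c} : Finset (ZMod 37)), f z := by
        rw [Finset.sum_insert (by simp [hab, hac]), Finset.sum_insert (by simp [hbc]),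
          Finset.sum_singleton]; ring
    _ ≤ _ := Finset.sum_le_sum_of_subset (Finset.subset_univ _)

/-- Every 19-element set of residues modulo 444 has at least 35 sums. -/
theorem lower (A : Finset (ZMod 444)) (hA : A.card = 19) : 35 ≤ (A + A).card := by
  classical
  set a : ZMod 37 → ℕ := fun x => (fib A x).card with ha
  set F : ZMod 37 → ℕ := fun z => (fib (A + A) z).card with hF
  have hsa : ∑ x, a x = 19 := by rw [ha, sum_fib, hA]
  have hsF : ∑ z, F z = (A + A).card := by rw [hF, sum_fib]
  rw [← hsF]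
  have ha12 : ∀ x, a x ≤ 12 := fun x => fib_le A x
  have hF1 : ∀ x y, 1 ≤ a y → a x ≤ F (x + y) := fun x y h => fib_mono A x y h
  have hF2 : ∀ x y, 12 < a x + a y → 12 ≤ F (x + y) := fun x y h => fib_full A x y h
  have hF3 : ∀ x, a x = 5 → 6 ≤ F (x + x) := fun x h => fib_five A x h
  -- the largest fibre
  obtain ⟨x0, -, hx0⟩ := Finset.exists_max_image Finset.univ a ⟨0, Finset.mem_univ _⟩
  set M := a x0 with hM
  have hmax : ∀ x, a x ≤ M := fun x => hx0 x (Finset.mem_univ _)
  let S : ℕ → Finset (ZMod 37) := fun t => Finset.univ.filter (fun z => t ≤ a z)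
  let N : ℕ → Finset (ZMod 37) := fun t => Finset.univ.filter (fun z => t ≤ F z)
  have hS : ∑ t ∈ Finset.Icc 1 M, (S t).card = 19 := by
    rw [← hsa, sum_levels a M hmax]
  have hM1 : 1 ≤ M := by
    by_contra hcon
    have : M = 0 := by omega
    rw [this] at hS
    simp at hS
  have hMle : M ≤ 12 := ha12 x0
  have hS1 : ∀ t, 1 ≤ t → (S t).card ≤ (S 1).card := by
    intro t ht
    apply Finset.card_le_card
    intro z hz
    simp only [S, Finset.mem_filter, Finset.mem_univ, true_and] at hz ⊢
    omega
  have hS19 : (S 1).card ≤ 19 := by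
    calc (S 1).card = ∑ t ∈ Finset.Icc 1 1, (S t).card := by simp
      _ ≤ ∑ t ∈ Finset.Icc 1 M, (S t).card := by
          apply Finset.sum_le_sum_of_subset
          intro t ht
          rw [Finset.mem_Icc] at ht ⊢
          omega
      _ = 19 := hS
  have hMs : 19 ≤ M * (S 1).card := by
    calc 19 = ∑ t ∈ Finset.Icc 1 M, (S t).card := hS.symm
      _ ≤ ∑ t ∈ Finset.Icc 1 M, (S 1).card := by
          apply Finset.sum_le_sum
          intro t ht
          rw [Finset.mem_Icc] at ht
          exact hS1 t ht.1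
      _ = M * (S 1).card := by simp
  have hx0S : ∀ t, t ≤ M → x0 ∈ S t := by
    intro t ht
    simp only [S, Finset.mem_filter, Finset.mem_univ, true_and]
    exact ht
  -- Cauchy-Davenport on each level
  have hCD : ∀ t, 1 ≤ t → t ≤ M → (S t).card + (S 1).card - 1 ≤ (N t).card := by
    intro t ht1 htM
    have h1 := ZMod.cauchy_davenport (p := 37) (by norm_num) (s := S t) (t := S 1)
      ⟨x0, hx0S t htM⟩ ⟨x0, hx0S 1 hM1⟩
    have h2 : (S t + S 1).card ≤ (N t).card := by
      apply Finset.card_le_card
      intro z hz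
      obtain ⟨u, hu, v, hv, rfl⟩ := Finset.mem_add.mp hz
      simp only [S, N, Finset.mem_filter, Finset.mem_univ, true_and] at hu hv ⊢
      exact le_trans hu (hF1 u v hv)
    have h3 := hS1 t ht1
    have h4 : min 37 ((S t).card + (S 1).card - 1) = (S t).card + (S 1).card - 1 := by
      apply min_eq_right; omega
    rw [h4] at h1
    exact le_trans h1 h2
  have hs1 : 1 ≤ (S 1).card := Finset.card_pos.mpr ⟨x0, hx0S 1 hM1⟩
  have hsumN : 19 + M * ((S 1).card - 1) ≤ ∑ t ∈ Finset.Icc 1 M, (N t).card := by
    calc 19 + M * ((S 1).card - 1)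
        = ∑ t ∈ Finset.Icc 1 M, ((S t).card + ((S 1).card - 1)) := by
          rw [Finset.sum_add_distrib, hS]; simp
      _ ≤ ∑ t ∈ Finset.Icc 1 M, (N t).card := by
          apply Finset.sum_le_sum
          intro t ht
          rw [Finset.mem_Icc] at ht
          have := hCD t ht.1 ht.2
          omega
  have htot : ∑ t ∈ Finset.Icc 1 M, (N t).card ≤ ∑ z, F z := sum_levels_le F M
  by_cases hbig : 16 ≤ M * ((S 1).card - 1)
  · omega
  -- the support of `a` is `S 1`
  have hsupp : ∑ x ∈ S 1, a x = 19 := by
    rw [← hsa]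
    apply Finset.sum_subset (Finset.subset_univ _)
    intro x _ hx
    simp only [S, Finset.mem_filter, Finset.mem_univ, true_and] at hx
    omega
  have hsle : (S 1).card ≤ 4 ∧ 2 ≤ (S 1).card := by
    constructor
    · by_contra hcon
      have h5 : 5 ≤ (S 1).card := by omega
      have : M ≤ 3 := by
        by_contra hcon2
        have : 4 * 4 ≤ M * ((S 1).card - 1) := Nat.mul_le_mul (by omega) (by omega)
        omega
      have h6 : M * (S 1).card = M * ((S 1).card - 1) + M := by
        obtain ⟨s, hs⟩ : ∃ s, (S 1).card = s + 1 := ⟨(S 1).card - 1, by omega⟩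
        rw [hs]; simp; ring
      omega
    · by_contra hcon
      have h1 : (S 1).card = 1 := by omega
      rw [h1] at hMs
      omega
  have h6 : M * (S 1).card = M * ((S 1).card - 1) + M := by
    obtain ⟨s, hs⟩ : ∃ s, (S 1).card = s + 1 := ⟨(S 1).card - 1, by omega⟩
    rw [hs]; simp; ring
  obtain ⟨hs4, hs2⟩ := hsle
  rcases (by omega : (S 1).card = 2 ∨ (S 1).card = 3 ∨ (S 1).card = 4) with hs | hs | hs
  · -- two fibres
    obtain ⟨x, y, hxy, hSxy⟩ := Finset.card_eq_two.mp hs
    rw [hSxy, Finset.sum_pair hxy] at hsupp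
    have h1 := ha12 x
    have h2 := ha12 y
    have e1 := hF2 x x (by omega)
    have e2 := hF2 x y (by omega)
    have e3 := hF2 y y (by omega)
    have := sum_three F (x + x) (x + y) (y + y) (fun h => hxy (add_left_cancel h))
      (fun h => hxy (two_cancel _ _ h)) (fun h => hxy (add_right_cancel h))
    omega
  · -- three fibres
    have hM7 : M = 7 := by
      rw [hs] at hMs hbig
      omega
    obtain ⟨x, y, z, hxy, hxz, hyz, hSxyz⟩ := Finset.card_eq_three.mp hs
    rw [hSxyz, Finset.sum_insert (by simp [hxy, hxz]), Finset.sum_pair hyz] at hsupp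
    have h1 := hmax x
    have h2 := hmax y
    have h3 := hmax z
    rw [hM7] at h1 h2 h3
    -- two fibres of size seven, or one of size seven and two of size six
    have key2 : ∀ u v : ZMod 37, u ≠ v → a u = 7 → a v = 7 → 35 ≤ ∑ z, F z := by
      intro u v huv hu hv
      have e1 := hF2 u u (by omega)
      have e2 := hF2 u v (by omega)
      have e3 := hF2 v v (by omega)
      have := sum_three F (u + u) (u + v) (v + v) (fun h => huv (add_left_cancel h))
        (fun h => huv (two_cancel _ _ h)) (fun h => huv (add_right_cancel h))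
      omega
    have key1 : ∀ u v w : ZMod 37, u ≠ v → u ≠ w → v ≠ w → a u = 7 → a v = 6 → a w = 6 →
        35 ≤ ∑ z, F z := by
      intro u v w huv huw hvw hu hv hw
      have e1 := hF2 u u (by omega)
      have e2 := hF2 u v (by omega)
      have e3 := hF2 u w (by omega)
      have := sum_three F (u + u) (u + v) (u + w) (fun h => huv (add_left_cancel h))
        (fun h => huw (add_left_cancel h)) (fun h => hvw (add_left_cancel h))
      omega
    rcases (by omega : (a x = 7 ∧ a y = 7) ∨ (a x = 7 ∧ a z = 7) ∨ (a y = 7 ∧ a z = 7) ∨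
        (a x = 7 ∧ a y = 6 ∧ a z = 6) ∨ (a y = 7 ∧ a x = 6 ∧ a z = 6) ∨
        (a z = 7 ∧ a x = 6 ∧ a y = 6)) with h | h | h | h | h | h
    · exact key2 x y hxy h.1 h.2
    · exact key2 x z hxz h.1 h.2
    · exact key2 y z hyz h.1 h.2
    · exact key1 x y z hxy hxz hyz h.1 h.2.1 h.2.2
    · exact key1 y x z hxy.symm hyz hxz h.1 h.2.1 h.2.2
    · exact key1 z x y hxz.symm hyz.symm hxy h.1 h.2.1 h.2.2
  · -- four fibres
    have hM5 : M = 5 := by
      rw [hs] at hMs hbig
      omega
    have h7 := hF3 x0 (by omega)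
    have h8 : ∑ t ∈ Finset.Icc 1 6, (N t).card ≤ ∑ z, F z := sum_levels_le F 6
    have h9 : ∑ t ∈ Finset.Icc 1 6, (N t).card = ∑ t ∈ Finset.Icc 1 5, (N t).card + (N 6).card := by
      rw [Finset.sum_Icc_succ_top (by norm_num)]
    have h10 : 1 ≤ (N 6).card := by
      apply Finset.card_pos.mpr
      refine ⟨x0 + x0, ?_⟩
      simp only [N, Finset.mem_filter, Finset.mem_univ, true_and]
      exact h7
    rw [hM5, hs] at hsumN
    omega

/-- The negation of the preceding statement: For 3 ≤ m ≤ n, the least restricted sumset size of an m-subset of Z_n equals min(least full sumset size, 2m−4) if n,m both even or (2m−2) divides n with m−1 not a power of 2, and min(that, 2m−3) otherwise. -/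
theorem result :
    ¬ (∀ n m : ℕ, 3 ≤ m → m ≤ n →
      (((2 ∣ n ∧ 2 ∣ m) ∨ ((2 * m - 2) ∣ n ∧ ¬ ∃ k : ℕ, m - 1 = 2 ^ k)) →
        sInf {s : ℕ | ∃ A : Finset (ZMod n), A.card = m ∧
          (Finset.image (fun p : ZMod n × ZMod n => p.1 + p.2)
            ((A ×ˢ A).filter (fun p : ZMod n × ZMod n => p.1 ≠ p.2))).card = s}
        = min (sInf {s : ℕ | ∃ A : Finset (ZMod n), A.card = m ∧ (A + A).card = s})
            (2 * m - 4)) ∧
      (¬ ((2 ∣ n ∧ 2 ∣ m) ∨ ((2 * m - 2) ∣ n ∧ ¬ ∃ k : ℕ, m - 1 = 2 ^ k)) →
        sInf {s : ℕ | ∃ A : Finset (ZMod n), A.card = m ∧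
          (Finset.image (fun p : ZMod n × ZMod n => p.1 + p.2)
            ((A ×ˢ A).filter (fun p : ZMod n × ZMod n => p.1 ≠ p.2))).card = s}
        = min (sInf {s : ℕ | ∃ A : Finset (ZMod n), A.card = m ∧ (A + A).card = s})
            (2 * m - 3))) := by
  intro H
  have h1 := (H 444 19 (by norm_num) (by norm_num)).2 (by
    rintro (⟨-, h⟩ | ⟨h, -⟩)
    · norm_num at h
    · norm_num at h)
  have h2 : sInf {s : ℕ | ∃ A : Finset (ZMod 444), A.card = 19 ∧
          (Finset.image (fun p : ZMod 444 × ZMod 444 => p.1 + p.2)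
            ((A ×ˢ A).filter (fun p : ZMod 444 × ZMod 444 => p.1 ≠ p.2))).card = s} ≤ 34 :=
    Nat.sInf_le ⟨A444, card_A444, card_restricted⟩
  have h3 : 35 ≤ sInf {s : ℕ | ∃ A : Finset (ZMod 444), A.card = 19 ∧ (A + A).card = s} := by
    apply le_csInf
    · exact ⟨_, A444, card_A444, rfl⟩
    · rintro s ⟨A, hA, rfl⟩
      exact lower A hA
  rw [h1] at h2
  have h4 : 35 ≤ min (sInf {s : ℕ | ∃ A : Finset (ZMod 444), A.card = 19 ∧ (A + A).card = s})
      (2 * 19 - 3) := le_min h3 (by norm_num)
  omega

end Pool.Agent.S04744
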