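import Pool.Statements.S04747
import Pool.Agent.Helper801.AMMb

set_option autoImplicit false
open Pool Pool.MP_127f79_co

namespace Pool.Agent.S04747

/-- For every connected distance-regular graph other than K2 whose distance-i graphs are all connected, the sum of Schur squares of the adjacency matrix's spectral idempotents has rank equal to the number of vertices. -/
theorem result :
    ∀ (V : Type) [Fintype V] [DecidableEq V] (G : SimpleGraph V) [DecidableRel G.Adj],
      G.Connected →
      (∀ u v u' v' : V, G.dist u v = G.dist u' v' → ∀ j k : ℕ,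
        (Finset.univ.filter (fun w => G.dist u w = j ∧ G.dist v w = k)).card =
        (Finset.univ.filter (fun w => G.dist u' w = j ∧ G.dist v' w = k)).card) →
      (∀ i : ℕ, 1 ≤ i → i ≤ G.diam →
        (SimpleGraph.fromRel (fun u v : V => G.dist u v = i)).Connected) →
      Fintype.card V ≠ 2 →
      ∀ (s : Finset ℝ) (E : ℝ → Matrix V V ℝ),
        (∀ θ ∈ s, E θ * E θ = E θ) →
        (∀ θ ∈ s, ∀ θ' ∈ s, θ ≠ θ' → E θ * E θ' = 0) →
        (∑ θ ∈ s, E θ) = 1 →
        G.adjMatrix ℝ = ∑ θ ∈ s, θ • E θ →
        (∑ θ ∈ s, Matrix.hadamard (E θ) (E θ)).rank = Fintype.card V := by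
  intro V _ _ G _ hc hdr hprim hcard s E hid hor hsum hA
  classical
  haveI := hc.nonempty
  have h : Pool.Agent.Helper801.AMM.Spec (G.adjMatrix ℝ) s E := ⟨hid, hor, hsum, hA⟩
  have hAs : (G.adjMatrix ℝ).transpose = G.adjMatrix ℝ := G.transpose_adjMatrix
  have hdet : (∑ θ ∈ s, Matrix.hadamard (E θ) (E θ)).det ≠ 0 := by
    intro h0
    obtain ⟨f, hf0, hf⟩ := Matrix.exists_mulVec_eq_zero_iff.2 h0
    apply hf0
    have hker := h.key hAs f hf
    have hconst_zero : ∀ c : ℝ, (∀ x, f x = c) → f = 0 := by
      intro c hfc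
      have hd : Matrix.diagonal f = c • (1 : Matrix V V ℝ) := by
        ext x y
        by_cases hxy : x = y
        · subst hxy; simp [hfc]
        · simp [hxy]
      have h1 : ∀ θ ∈ s, c • E θ = 0 := by
        intro θ hθ
        have := hker θ hθ
        rwa [hd, mul_smul_comm, mul_one, smul_mul_assoc, hid θ hθ] at this
      have h2 : c • (1 : Matrix V V ℝ) = 0 := by
        rw [← hsum, Finset.smul_sum]
        exact Finset.sum_eq_zero h1
      obtain ⟨x0⟩ := hc.nonempty
      have h3 := congrFun (congrFun h2 x0) x0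
      simp at h3
      funext x
      rw [hfc x, h3]; rfl
    by_cases hsmall : Fintype.card V ≤ 1
    · obtain ⟨x0⟩ := hc.nonempty
      exact hconst_zero (f x0) (fun x => by
        rw [Fintype.card_le_one_iff.1 hsmall x x0])
    · have h3 : 3 ≤ Fintype.card V := by omega
      obtain ⟨H, hH1, hH2⟩ := Pool.Agent.Helper801.AMM.exists_H G hc hdr
      obtain ⟨g, hg⟩ := Pool.Agent.Helper801.AMM.exists_g h hAs
        (Matrix.diagonal_transpose f) hker H hH2
      have hgD : ∀ x y, G.dist x y = G.diam → g x + g y = 0 := by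
        intro x y hxy
        rw [← hg x y]
        exact Pool.Agent.Helper801.AMM.NN_local G hc f H (by rw [hxy]; exact hH1)
      have hg0 := Pool.Agent.Helper801.AMM.g_zero G hc hdr hprim h3 g hgD
      have hN0 : Pool.Agent.Helper801.AMM.NN (G.adjMatrix ℝ) (Matrix.diagonal f) H = 0 := by
        ext x y
        rw [hg x y, hg0 x, hg0 y]; simp
      have hcm := Pool.Agent.Helper801.AMM.NN_comm (G.adjMatrix ℝ) (Matrix.diagonal f) H
      rw [hN0, mul_zero, zero_mul, sub_zero, hH2] at hcm
      obtain ⟨x0⟩ := hc.nonempty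
      refine hconst_zero (f x0) (fun x => ?_)
      have e := congrFun (congrFun hcm x0) x
      rw [Matrix.sub_apply, Matrix.mul_diagonal, Matrix.diagonal_mul] at e
      simp only [Pool.Agent.Helper801.AMM.J1, Matrix.of_apply, Matrix.zero_apply] at e
      linarith
  exact Matrix.rank_of_isUnit _ ((Matrix.isUnit_iff_isUnit_det _).2 (isUnit_iff_ne_zero.2 hdet))

end Pool.Agent.S04747
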