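import Pool.Statements.S04768

set_option autoImplicit false
open Pool Pool.MP_13cbaf_co

namespace Pool.Agent.S04768

open Matrix Finset

section General

variable {n : Type*} [Fintype n] [DecidableEq n]

/-- rotate a matrix to the eigenbasis of A -/
noncomputable def rot {A : Matrix n n ℝ} (hA : A.IsHermitian) (C : Matrix n n ℝ) : Matrix n n ℝ :=
  (hA.eigenvectorUnitary : Matrix n n ℝ)ᵀ * C * (hA.eigenvectorUnitary : Matrix n n ℝ)

theorem UUt {A : Matrix n n ℝ} (hA : A.IsHermitian) :
    (hA.eigenvectorUnitary : Matrix n n ℝ) * (hA.eigenvectorUnitary : Matrix n n ℝ)ᵀ = 1 := by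
  have h := Unitary.coe_mul_star_self hA.eigenvectorUnitary
  simpa [star_eq_conjTranspose, conjTranspose_eq_transpose_of_trivial] using h

theorem rot_self {A : Matrix n n ℝ} (hA : A.IsHermitian) :
    rot hA A = diagonal hA.eigenvalues := by
  have h := hA.conjStarAlgAut_star_eigenvectorUnitary
  rw [Unitary.conjStarAlgAut_star_apply] at h
  simpa [rot, star_eq_conjTranspose, conjTranspose_eq_transpose_of_trivial] using h

theorem rot_mul {A : Matrix n n ℝ} (hA : A.IsHermitian) (C D : Matrix n n ℝ) :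
    rot hA C * rot hA D = rot hA (C * D) := by
  unfold rot
  calc _ = (hA.eigenvectorUnitary : Matrix n n ℝ)ᵀ * C *
        ((hA.eigenvectorUnitary : Matrix n n ℝ) * (hA.eigenvectorUnitary : Matrix n n ℝ)ᵀ) * D *
        (hA.eigenvectorUnitary : Matrix n n ℝ) := by
        simp only [Matrix.mul_assoc]
    _ = _ := by rw [UUt]; simp only [Matrix.mul_assoc, Matrix.one_mul]

theorem rot_add {A : Matrix n n ℝ} (hA : A.IsHermitian) (C D : Matrix n n ℝ) :
    rot hA (C + D) = rot hA C + rot hA D := by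
  unfold rot
  simp [Matrix.mul_add, Matrix.add_mul]

theorem trace_rot {A : Matrix n n ℝ} (hA : A.IsHermitian) (C : Matrix n n ℝ) :
    (rot hA C).trace = C.trace := by
  unfold rot
  rw [Matrix.trace_mul_comm, ← Matrix.mul_assoc, UUt, Matrix.one_mul]

theorem rot_transpose {A : Matrix n n ℝ} (hA : A.IsHermitian) (C : Matrix n n ℝ) :
    (rot hA C)ᵀ = rot hA Cᵀ := by
  unfold rot
  simp [Matrix.transpose_mul, Matrix.mul_assoc]

theorem rot_diag_nonneg {A : Matrix n n ℝ} (hA : A.IsHermitian) {P : Matrix n n ℝ}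
    (hP : P.PosSemidef) (i : n) : 0 ≤ rot hA P i i := by
  have h : (rot hA P).PosSemidef := by
    have := hP.conjTranspose_mul_mul_same (hA.eigenvectorUnitary : Matrix n n ℝ)
    simpa [rot, conjTranspose_eq_transpose_of_trivial] using this
  exact h.diag_nonneg

theorem trace_sq_ge {A : Matrix n n ℝ} (hA : A.IsHermitian) {C : Matrix n n ℝ} (hC : Cᵀ = C) :
    ∑ i, (rot hA C i i) ^ 2 ≤ (C * C).trace := by
  rw [← trace_rot hA, ← rot_mul]
  unfold Matrix.trace
  apply Finset.sum_le_sum
  intro i _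
  have hs : ∀ j, rot hA C j i = rot hA C i j := by
    intro j
    have := congrFun (congrFun (rot_transpose hA C) i) j
    rw [hC] at this
    simpa [Matrix.transpose_apply] using this
  simp only [Matrix.diag_apply, Matrix.mul_apply]
  have : ∑ j, rot hA C i j * rot hA C j i = ∑ j, (rot hA C i j) ^ 2 := by
    apply Finset.sum_congr rfl; intro j _; rw [hs j]; ring
  rw [this]
  exact Finset.single_le_sum (f := fun j => (rot hA C i j) ^ 2) (fun j _ => sq_nonneg _)
    (Finset.mem_univ i)

/-- positive square energy as a sum over eigenvalues -/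
theorem sum_pos_sq {A : Matrix n n ℝ} (hA : A.IsHermitian) :
    ((A.charpoly.roots.filter (fun x : ℝ => 0 < x)).map (fun x : ℝ => x ^ 2)).sum
    = ∑ i, (max (hA.eigenvalues i) 0) ^ 2 := by
  rw [hA.roots_charpoly_eq_eigenvalues, Multiset.filter_map, Multiset.map_map]
  have h1 : (Finset.univ.filter (fun i => 0 < hA.eigenvalues i)).val =
    Multiset.filter ((fun x : ℝ => 0 < x) ∘ ((RCLike.ofReal : ℝ → ℝ) ∘ hA.eigenvalues))
      (Finset.univ : Finset n).val := by
    simp
  rw [← h1]
  change ∑ i ∈ (Finset.univ.filter (fun i => 0 < hA.eigenvalues i)), _ = _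
  rw [Finset.sum_filter]
  apply Finset.sum_congr rfl
  intro i _
  by_cases h : 0 < hA.eigenvalues i
  · simp [h, max_eq_left h.le]
  · simp [h, max_eq_right (not_lt.mp h)]

theorem pos_sq_le {A M : Matrix n n ℝ} (hA : A.IsHermitian) (hM : M.PosSemidef) :
    ((A.charpoly.roots.filter (fun x : ℝ => 0 < x)).map (fun x : ℝ => x ^ 2)).sum
    ≤ ((A + M) * (A + M)).trace := by
  rw [sum_pos_sq hA]
  have hs : (A + M)ᵀ = A + M := by
    have h1 : Aᵀ = A := by simpa [conjTranspose_eq_transpose_of_trivial] using hA.eq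
    have h2 : Mᵀ = M := by simpa [conjTranspose_eq_transpose_of_trivial] using hM.isHermitian.eq
    rw [Matrix.transpose_add, h1, h2]
  refine le_trans ?_ (trace_sq_ge hA hs)
  apply Finset.sum_le_sum
  intro i _
  rw [rot_add, Matrix.add_apply, rot_self, Matrix.diagonal_apply_eq]
  have h0 := rot_diag_nonneg hA hM i
  rcases le_total (hA.eigenvalues i) 0 with h | h
  · rw [max_eq_right h]; nlinarith [sq_nonneg (hA.eigenvalues i + rot hA M i i)]
  · rw [max_eq_left h]; nlinarith

theorem le_pos_sq {A P : Matrix n n ℝ} (hA : A.IsHermitian) (hP : P.PosSemidef) :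
    2 * (A * P).trace - (P * P).trace ≤
    ((A.charpoly.roots.filter (fun x : ℝ => 0 < x)).map (fun x : ℝ => x ^ 2)).sum := by
  rw [sum_pos_sq hA]
  have hs : Pᵀ = P := by simpa [conjTranspose_eq_transpose_of_trivial] using hP.isHermitian.eq
  have h1 := trace_sq_ge hA hs
  have h2 : (A * P).trace = ∑ i, hA.eigenvalues i * rot hA P i i := by
    rw [← trace_rot hA, ← rot_mul, rot_self]
    simp [Matrix.trace, Matrix.diagonal_mul]
  rw [h2]
  have h3 : ∑ i, (2 * (hA.eigenvalues i * rot hA P i i) - (rot hA P i i) ^ 2) ≤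
      ∑ i, (max (hA.eigenvalues i) 0) ^ 2 := by
    apply Finset.sum_le_sum
    intro i _
    have h0 := rot_diag_nonneg hA hP i
    rcases le_total (hA.eigenvalues i) 0 with h | h
    · rw [max_eq_right h]
      nlinarith [mul_nonneg (neg_nonneg.mpr h) h0, sq_nonneg (rot hA P i i)]
    · rw [max_eq_left h]; nlinarith [sq_nonneg (hA.eigenvalues i - rot hA P i i)]
  rw [Finset.sum_sub_distrib, ← Finset.mul_sum] at h3
  linarith

end General

section Example

/-- class of a vertex: 0 = u, 1 = first four, 2 = last four, 3 = v -/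
def cls : Fin 10 → ℕ := ![0, 1, 1, 1, 1, 2, 2, 2, 2, 3]

/-- adjacency: distinct vertices whose classes differ by at most one -/
def gB (i j : Fin 10) : Bool :=
  i != j && (cls i ≤ cls j + 1 && cls j ≤ cls i + 1)

def hB (i j : Fin 10) : Bool :=
  gB i j || (i == 0 && j == 9) || (i == 9 && j == 0)

def gG : SimpleGraph (Fin 10) where
  Adj i j := gB i j = true
  symm := ⟨by decide⟩
  loopless := ⟨by decide⟩

def hG : SimpleGraph (Fin 10) where
  Adj i j := hB i j = true
  symm := ⟨by decide⟩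
  loopless := ⟨by decide⟩

instance : DecidableRel gG.Adj := fun i j => inferInstanceAs (Decidable (gB i j = true))
instance : DecidableRel hG.Adj := fun i j => inferInstanceAs (Decidable (hB i j = true))

/-- integer adjacency matrices -/
def gZ : Matrix (Fin 10) (Fin 10) ℤ := fun i j => if gB i j then 1 else 0
def hZ : Matrix (Fin 10) (Fin 10) ℤ := fun i j => if hB i j then 1 else 0

def w1 : Fin 10 → ℤ := ![1, 2, 2, 2, 2, 2, 2, 2, 2, 1]
def w2 : Fin 10 → ℤ := ![5, 2, 2, 2, 2, -2, -2, -2, -2, -5]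
def z : Fin 10 → ℤ := ![2, -1, -1, -1, -1, 1, 1, 1, 1, -2]
/-- four times the projection onto vectors supported in a block of four with sum zero -/
def qZ : Matrix (Fin 10) (Fin 10) ℤ := fun i j =>
  if cls i = cls j ∧ (cls i = 1 ∨ cls i = 2) then (if i = j then 3 else -1) else 0

def c (M : Matrix (Fin 10) (Fin 10) ℤ) : Matrix (Fin 10) (Fin 10) ℝ := M.map (Int.cast : ℤ → ℝ)

theorem c_mul (M N : Matrix (Fin 10) (Fin 10) ℤ) : c (M * N) = c M * c N := by
  ext i j
  simp [c, Matrix.mul_apply]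

theorem c_add (M N : Matrix (Fin 10) (Fin 10) ℤ) : c (M + N) = c M + c N := by
  ext i j
  simp [c]

theorem c_trace (M : Matrix (Fin 10) (Fin 10) ℤ) : (c M).trace = ((M.trace : ℤ) : ℝ) := by
  simp [c, Matrix.trace]

theorem c_smul (k : ℤ) (M : Matrix (Fin 10) (Fin 10) ℤ) : c (k • M) = (k : ℝ) • c M := by
  ext i j
  change (((k * M i j : ℤ)) : ℝ) = (k : ℝ) * ((M i j : ℤ) : ℝ)
  push_cast
  rfl

theorem gZ_eq : gG.adjMatrix ℝ = c gZ := by
  ext i j
  simp only [SimpleGraph.adjMatrix_apply, c, gZ, Matrix.map_apply]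
  by_cases h : gB i j = true
  · have : gG.Adj i j := h
    simp [h, this]
  · have : ¬ gG.Adj i j := h
    simp [h, this]

theorem hZ_eq : hG.adjMatrix ℝ = c hZ := by
  ext i j
  simp only [SimpleGraph.adjMatrix_apply, c, hZ, Matrix.map_apply]
  by_cases h : hB i j = true
  · have : hG.Adj i j := h
    simp [h, this]
  · have : ¬ hG.Adj i j := h
    simp [h, this]

/-- outer square of an integer vector is positive semidefinite over the reals -/
theorem psd_outer (w : Fin 10 → ℤ) : (c (Matrix.vecMulVec w w)).PosSemidef := by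
  have h := Matrix.posSemidef_vecMulVec_self_star (fun i => (w i : ℝ))
  have e : c (Matrix.vecMulVec w w) = Matrix.vecMulVec (fun i => (w i : ℝ)) (star (fun i => (w i : ℝ))) := by
    ext i j
    simp [c, Matrix.vecMulVec_apply]
  rw [e]; exact h

/-- PZ / 450 is the lower certificate for the first graph -/
def PZ : Matrix (Fin 10) (Fin 10) ℤ := 100 • Matrix.vecMulVec w1 w1 + 9 • Matrix.vecMulVec w2 w2

/-- MZ / 16 is the upper certificate for the second graph -/
def MZ : Matrix (Fin 10) (Fin 10) ℤ := 3 • Matrix.vecMulVec z z + qZ * qZ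

theorem qZ_symm : qZᵀ = qZ := by decide

theorem psd_P : ((1 / 450 : ℝ) • c PZ).PosSemidef := by
  have h1 := (psd_outer w1).smul (show (0 : ℝ) ≤ ((100 : ℤ) : ℝ) by norm_num)
  have h2 := (psd_outer w2).smul (show (0 : ℝ) ≤ ((9 : ℤ) : ℝ) by norm_num)
  have h3 := (h1.add h2).smul (show (0 : ℝ) ≤ 1 / 450 by norm_num)
  rw [← c_smul, ← c_smul, ← c_add] at h3
  exact h3

theorem psd_M : ((1 / 16 : ℝ) • c MZ).PosSemidef := by
  have h1 := (psd_outer z).smul (show (0 : ℝ) ≤ ((3 : ℤ) : ℝ) by norm_num)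
  have h2 : (c (qZ * qZ)).PosSemidef := by
    have := Matrix.posSemidef_self_mul_conjTranspose (c qZ)
    have e : (c qZ)ᴴ = c qZ := by
      rw [Matrix.conjTranspose_eq_transpose_of_trivial]
      have : (c qZ)ᵀ = c (qZᵀ) := by ext i j; simp [c]
      rw [this, qZ_symm]
    rw [e, ← c_mul] at this
    exact this
  have h3 := (h1.add h2).smul (show (0 : ℝ) ≤ 1 / 16 by norm_num)
  rw [← c_smul, ← c_add] at h3
  exact h3

theorem hermG : (gG.adjMatrix ℝ).IsHermitian := by
  rw [Matrix.IsHermitian, Matrix.conjTranspose_eq_transpose_of_trivial]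
  exact gG.transpose_adjMatrix

theorem hermH : (hG.adjMatrix ℝ).IsHermitian := by
  rw [Matrix.IsHermitian, Matrix.conjTranspose_eq_transpose_of_trivial]
  exact hG.transpose_adjMatrix

theorem t1 : (gZ * PZ).trace = 26752 := by decide +kernel
theorem t2 : (PZ * PZ).trace = 12104644 := by decide +kernel
theorem t3 : ((16 • hZ + MZ) * (16 • hZ + MZ)).trace = 15104 := by decide +kernel

theorem lowG : (59 : ℝ) < (((gG.adjMatrix ℝ).charpoly.roots.filter (fun x : ℝ => 0 < x)).map
          (fun x : ℝ => x ^ 2)).sum := by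
  refine lt_of_lt_of_le ?_ (le_pos_sq hermG psd_P)
  rw [gZ_eq, Matrix.mul_smul, Matrix.trace_smul, ← c_mul, c_trace, t1, Matrix.smul_mul,
    Matrix.mul_smul, Matrix.trace_smul, Matrix.trace_smul, ← c_mul, c_trace, t2]
  norm_num

theorem upH : (((hG.adjMatrix ℝ).charpoly.roots.filter (fun x : ℝ => 0 < x)).map
          (fun x : ℝ => x ^ 2)).sum ≤ 59 := by
  refine le_trans (pos_sq_le hermH psd_M) ?_
  have e : hG.adjMatrix ℝ + (1 / 16 : ℝ) • c MZ = (1 / 16 : ℝ) • c (16 • hZ + MZ) := by
    have h16 : (16 • hZ + MZ : Matrix (Fin 10) (Fin 10) ℤ) = (16 : ℤ) • hZ + MZ := by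
      simp
    rw [h16, c_add, c_smul, hZ_eq, smul_add, smul_smul]
    norm_num
  rw [e, Matrix.smul_mul, Matrix.mul_smul, Matrix.trace_smul, Matrix.trace_smul, ← c_mul, c_trace, t3]
  norm_num

end Example

/-- The negation of the preceding statement: For every finite simple graph G and non-adjacent distinct vertices u,v, adding the edge uv does not decrease the sum of squares of the positive adjacency eigenvalues (counted with multiplicity). -/
theorem result :
    ¬ (∀ (n : ℕ) (G H : SimpleGraph (Fin n)) [DecidableRel G.Adj] [DecidableRel H.Adj]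
      (u v : Fin n), u ≠ v → ¬ G.Adj u v →
      (∀ a b : Fin n, H.Adj a b ↔ (G.Adj a b ∨ (a = u ∧ b = v) ∨ (a = v ∧ b = u))) →
      (((G.adjMatrix ℝ).charpoly.roots.filter (fun x : ℝ => 0 < x)).map
          (fun x : ℝ => x ^ 2)).sum ≤
      (((H.adjMatrix ℝ).charpoly.roots.filter (fun x : ℝ => 0 < x)).map
          (fun x : ℝ => x ^ 2)).sum) := by
  intro h
  have h1 : ¬ gG.Adj 0 9 := by
    change ¬ (gB 0 9 = true)
    decide
  have h2 : ∀ a b : Fin 10, hG.Adj a b ↔ (gG.Adj a b ∨ (a = 0 ∧ b = 9) ∨ (a = 9 ∧ b = 0)) := by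
    change ∀ a b : Fin 10, (hB a b = true) ↔ ((gB a b = true) ∨ (a = 0 ∧ b = 9) ∨ (a = 9 ∧ b = 0))
    decide
  have h3 := h 10 gG hG 0 9 (by decide) h1 h2
  have h4 := lowG
  have h5 := upH
  linarith

end Pool.Agent.S04768
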