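import Pool.Statements.S04776

set_option autoImplicit false
open Pool Pool.MP_142f90_co

namespace Pool.Agent.S04776

/-- exchange the last binary digit -/
def fa (n : ℕ) : ℕ := if n % 2 = 0 then n + 1 else n - 1

lemma fa_even (m : ℕ) : fa (2 * m) = 2 * m + 1 := by
  unfold fa; rw [if_pos (by omega)]

lemma fa_odd (m : ℕ) : fa (2 * m + 1) = 2 * m := by
  unfold fa; rw [if_neg (by omega)]; omega

lemma fa_fa (n : ℕ) : fa (fa n) = n := by
  obtain ⟨m, rfl | rfl⟩ := Nat.even_or_odd' n
  · rw [fa_even, fa_odd]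
  · rw [fa_odd, fa_even]

/-- the Klein four group, as pairs of bits -/
abbrev K : Type := Bool × Bool

def sh (x : K) : K := (x.2, xor x.1 x.2)

def km (x y : K) : K := (xor x.1 y.1, xor x.2 y.2)

lemma sh_km (x y : K) : sh (km x y) = km (sh x) (sh y) := by
  revert x y; decide

/-- the action of the Klein four group on the naturals -/
def kx (x : K) (n : ℕ) : ℕ :=
  if n = 0 then 0
  else if n % 2 = 0 then 2 * kx (sh x) (n / 2)
  else if x.1 then 2 * fa (n / 2) + 1 else n
termination_by n
decreasing_by omega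

lemma kx_zero (x : K) : kx x 0 = 0 := by rw [kx]; simp

lemma kx_even (x : K) (m : ℕ) : kx x (2 * m) = 2 * kx (sh x) m := by
  rcases Nat.eq_zero_or_pos m with h | h
  · subst h; rw [mul_zero, kx_zero, kx_zero]
  · rw [kx, if_neg (by omega), if_pos (by omega)]
    congr 2
    omega

lemma kx_odd (x : K) (m : ℕ) : kx x (2 * m + 1) = 2 * (if x.1 then fa m else m) + 1 := by
  rw [kx, if_neg (by omega), if_neg (by omega)]
  have : (2 * m + 1) / 2 = m := by omega
  rw [this]
  split_ifs <;> rfl

lemma kx_one (n : ℕ) : kx (false, false) n = n := by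
  induction n using Nat.strong_induction_on with
  | _ n ih =>
    obtain ⟨m, rfl | rfl⟩ := Nat.even_or_odd' n
    · rcases Nat.eq_zero_or_pos m with h | h
      · subst h; exact kx_zero _
      · rw [kx_even]
        have : sh (false, false) = (false, false) := by decide
        rw [this, ih m (by omega)]
    · rw [kx_odd]; simp

lemma kx_km (x y : K) (n : ℕ) : kx x (kx y n) = kx (km x y) n := by
  induction n using Nat.strong_induction_on generalizing x y with
  | _ n ih =>
    obtain ⟨m, rfl | rfl⟩ := Nat.even_or_odd' n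
    · rcases Nat.eq_zero_or_pos m with h | h
      · subst h; simp [kx_zero]
      · rw [kx_even, kx_even, kx_even, ih m (by omega), sh_km]
    · rw [kx_odd, kx_odd, kx_odd]
      obtain ⟨x1, x2⟩ := x
      obtain ⟨y1, y2⟩ := y
      cases x1 <;> cases y1 <;> simp [km, fa_fa]

lemma kx_eq_zero (x : K) (n : ℕ) : kx x n = 0 ↔ n = 0 := by
  constructor
  · intro h
    have := kx_km x x n
    rw [h, kx_zero] at this
    have hk : km x x = (false, false) := by
      obtain ⟨x1, x2⟩ := x
      cases x1 <;> cases x2 <;> rfl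
    rw [hk, kx_one] at this
    exact this.symm
  · rintro rfl; exact kx_zero x

/-- lamplighter type configurations: a self map of the naturals and a colouring -/
@[ext]
structure M where
  p : ℕ → ℕ
  f : ℕ → ZMod 3

instance : Monoid M where
  mul u v := ⟨fun n => u.p (v.p n), fun n => v.f n + u.f (v.p n)⟩
  one := ⟨fun n => n, fun _ => 0⟩
  mul_assoc u v w := by
    ext n
    · rfl
    · show w.f n + (v.f (w.p n) + u.f (v.p (w.p n))) = (w.f n + v.f (w.p n)) + u.f (v.p (w.p n))
      rw [add_assoc]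
  one_mul u := by
    ext n
    · rfl
    · show u.f n + 0 = u.f n
      rw [add_zero]
  mul_one u := by
    ext n
    · rfl
    · show 0 + u.f n = u.f n
      rw [zero_add]

lemma mul_p (u v : M) (n : ℕ) : (u * v).p n = u.p (v.p n) := rfl
lemma mul_f (u v : M) (n : ℕ) : (u * v).f n = v.f n + u.f (v.p n) := rfl
lemma one_p (n : ℕ) : (1 : M).p n = n := rfl
lemma one_f (n : ℕ) : (1 : M).f n = 0 := rfl

/-- the generator exchanging the last digit -/
def ga : M := ⟨fa, fun _ => 0⟩

/-- finite group of remaining generators -/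
abbrev Q : Type := K × ZMod 3

def qm (x y : Q) : Q := (km x.1 y.1, x.2 + y.2)

def gq (q : Q) : M := ⟨kx q.1, fun n => if n = 0 then q.2 else 0⟩

lemma ga_ga : ga * ga = 1 := by
  ext n
  · exact fa_fa n
  · show (0 : ZMod 3) + 0 = 0
    rw [add_zero]

lemma gq_gq (x y : Q) : gq x * gq y = gq (qm x y) := by
  ext n
  · exact kx_km x.1 y.1 n
  · show (if n = 0 then y.2 else 0) + (if kx y.1 n = 0 then x.2 else 0) =
      if n = 0 then x.2 + y.2 else 0
    simp only [kx_eq_zero]
    split_ifs with h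
    · rw [add_comm]
    · rw [add_zero]

def q1 : Q := ((false, false), 0)

lemma gq_one : gq q1 = 1 := by
  ext n
  · exact kx_one n
  · show (if n = 0 then (0 : ZMod 3) else 0) = 0
    split_ifs <;> rfl

def qi (x : Q) : Q := (x.1, - x.2)

lemma qm_qi (x : Q) : qm x (qi x) = q1 := by
  obtain ⟨⟨x1, x2⟩, t⟩ := x
  unfold qm qi q1 km
  simp

lemma qi_qm (x : Q) : qm (qi x) x = q1 := by
  obtain ⟨⟨x1, x2⟩, t⟩ := x
  unfold qm qi q1 km
  simp

/-- letters -/
abbrev L : Type := Option Q

def g : L → M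
  | none => ga
  | some q => gq q

def li : L → L
  | none => none
  | some q => some (qi q)

lemma g_li (s : L) : g s * g (li s) = 1 := by
  cases s with
  | none => exact ga_ga
  | some q => show gq q * gq (qi q) = 1; rw [gq_gq, qm_qi, gq_one]

lemma li_g (s : L) : g (li s) * g s = 1 := by
  cases s with
  | none => exact ga_ga
  | some q => show gq (qi q) * gq q = 1; rw [gq_gq, qi_qm, gq_one]

/-- the elements generated by the letters -/
inductive InV : M → Prop
  | one : InV 1
  | step (v : M) (s : L) : InV v → InV (v * g s)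

lemma InV.gen (s : L) : InV (g s) := by
  have := InV.step 1 s InV.one
  rwa [one_mul] at this

lemma InV.mul {u v : M} (hu : InV u) (hv : InV v) : InV (u * v) := by
  induction hv with
  | one => rwa [mul_one]
  | step v s hv ih => rw [← mul_assoc]; exact InV.step _ _ ih

lemma InV.exists_inv {u : M} (hu : InV u) : ∃ u', InV u' ∧ u * u' = 1 ∧ u' * u = 1 := by
  induction hu with
  | one => exact ⟨1, InV.one, mul_one 1, mul_one 1⟩
  | step v s hv ih =>
    obtain ⟨v', h1, h2, h3⟩ := ih
    refine ⟨g (li s) * v', (InV.gen _).mul h1, ?_, ?_⟩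
    · calc v * g s * (g (li s) * v') = v * (g s * g (li s)) * v' := by simp only [mul_assoc]
        _ = 1 := by rw [g_li, mul_one, h2]
    · calc g (li s) * v' * (v * g s) = g (li s) * (v' * v) * g s := by simp only [mul_assoc]
        _ = 1 := by rw [h3, mul_one, li_g]

lemma lift_even {u : M} (hu : InV u) : ∃ w, InV w ∧ ∀ k, w.p (2 * k) = 2 * u.p k := by
  induction hu with
  | one => exact ⟨1, InV.one, fun k => rfl⟩
  | step v s hv ih =>
    obtain ⟨w, hw, h⟩ := ih
    cases s with
    | none =>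
      refine ⟨w * (ga * gq ((true, true), 0) * ga), hw.mul
        (((InV.gen none).mul (InV.gen (some _))).mul (InV.gen none)), fun k => ?_⟩
      have e : (ga * gq ((true, true), 0) * ga).p (2 * k) = 2 * fa k := by
        show fa (kx (true, true) (fa (2 * k))) = 2 * fa k
        rw [fa_even, kx_odd]
        simp only [if_true]
        rw [fa_odd]
      rw [mul_p, e, h]
      rfl
    | some q =>
      refine ⟨w * gq ((xor q.1.2 q.1.1, q.1.1), 0), hw.mul (InV.gen (some _)), fun k => ?_⟩
      have e : (gq ((xor q.1.2 q.1.1, q.1.1), 0)).p (2 * k) = 2 * kx q.1 k := by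
        show kx (xor q.1.2 q.1.1, q.1.1) (2 * k) = 2 * kx q.1 k
        rw [kx_even]
        congr 2
        unfold sh
        simp
      rw [mul_p, e, h]
      rfl

/-- transitivity of the action on the naturals -/
lemma trans_zero (n : ℕ) : ∃ u, InV u ∧ u.p 0 = n := by
  induction n using Nat.strong_induction_on with
  | _ n ih =>
    have key : ∀ m, 2 * m ≤ n → ∃ u, InV u ∧ u.p 0 = 2 * m := by
      intro m hm
      rcases Nat.eq_zero_or_pos m with h | h
      · subst h; exact ⟨1, InV.one, rfl⟩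
      · obtain ⟨u, hu, hu'⟩ := ih m (by omega)
        obtain ⟨w, hw, hw'⟩ := lift_even hu
        refine ⟨w, hw, ?_⟩
        have := hw' 0
        rwa [mul_zero, hu'] at this
    obtain ⟨m, rfl | rfl⟩ := Nat.even_or_odd' n
    · exact key m le_rfl
    · obtain ⟨u, hu, hu'⟩ := key m (by omega)
      refine ⟨ga * u, (InV.gen none).mul hu, ?_⟩
      rw [mul_p, hu']
      exact fa_even m

/-- colour at a single place -/
def dl (x : ℕ) : M := ⟨fun n => n, fun n => if n = x then 1 else 0⟩

lemma dl_zero : dl 0 = gq ((false, false), 1) := by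
  ext n
  · exact (kx_one n).symm
  · rfl

lemma conj_dl {u u' : M} (h1 : u * u' = 1) (h2 : u' * u = 1) (x : ℕ) :
    u * dl x * u' = dl (u.p x) := by
  have e1 : ∀ n, u.p (u'.p n) = n := fun n => by
    rw [← mul_p, h1, one_p]
  have e2 : ∀ n, u'.p (u.p n) = n := fun n => by
    rw [← mul_p, h2, one_p]
  have e3 : ∀ n, u'.f n + u.f (u'.p n) = 0 := fun n => by
    rw [← mul_f, h1, one_f]
  ext n
  · exact e1 n
  · show u'.f n + ((if u'.p n = x then (1 : ZMod 3) else 0) + u.f (u'.p n)) =
      if n = u.p x then 1 else 0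
    have : (u'.p n = x) ↔ (n = u.p x) := by
      constructor
      · rintro rfl; rw [e1]
      · rintro rfl; rw [e2]
    simp only [this]
    rw [add_left_comm, e3, add_zero]

lemma InV_dl (x : ℕ) : InV (dl x) := by
  obtain ⟨u, hu, hx⟩ := trans_zero x
  obtain ⟨u', hu', h1, h2⟩ := hu.exists_inv
  rw [← hx, ← conj_dl h1 h2, dl_zero]
  exact (hu.mul (InV.gen (some _))).mul hu'

lemma InV.inj {u : M} (hu : InV u) {x y : ℕ} (h : u.p x = u.p y) : x = y := by
  obtain ⟨u', -, -, h2⟩ := hu.exists_inv
  have e2 : ∀ n, u'.p (u.p n) = n := fun n => by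
    rw [← mul_p, h2, one_p]
  rw [← e2 x, h, e2]

/-- recolouring at one place -/
def ph (x : ℕ) (v : M) : M := ⟨v.p, fun n => if v.p n = x then - v.f n else v.f n⟩

lemma ph_ph (x : ℕ) (v : M) : ph x (ph x v) = v := by
  ext n
  · rfl
  · show (if v.p n = x then - (if v.p n = x then - v.f n else v.f n) else
      (if v.p n = x then - v.f n else v.f n)) = v.f n
    split_ifs
    · rw [neg_neg]
    · rfl

lemma ph_one (x : ℕ) : ph x 1 = 1 := by
  ext n
  · rfl
  · show (if n = x then - (0 : ZMod 3) else 0) = 0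
    rw [neg_zero]; split_ifs <;> rfl

lemma ph_step (x : ℕ) (v : M) (s : L) : ∃ s', ph x (v * g s) = ph x v * g s' := by
  cases s with
  | none => exact ⟨none, by
      ext n
      · rfl
      · show (if v.p (fa n) = x then - (0 + v.f (fa n)) else (0 + v.f (fa n))) =
          0 + (if v.p (fa n) = x then - v.f (fa n) else v.f (fa n))
        simp only [zero_add]⟩
  | some q =>
    refine ⟨some (q.1, if v.p 0 = x then - q.2 else q.2), ?_⟩
    ext n
    · rfl
    · show (if v.p (kx q.1 n) = x then - ((if n = 0 then q.2 else 0) + v.f (kx q.1 n)) else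
        ((if n = 0 then q.2 else 0) + v.f (kx q.1 n))) =
        (if n = 0 then (if v.p 0 = x then - q.2 else q.2) else 0) +
          (if v.p (kx q.1 n) = x then - v.f (kx q.1 n) else v.f (kx q.1 n))
      by_cases hn : n = 0
      · subst hn
        simp only [kx_zero, if_true]
        split_ifs
        · rw [neg_add]
        · rfl
      · simp only [if_neg hn, zero_add]

/-! growth -/

/-- weight of a finite letter -/
def wt (q : Q) : ℕ :=
  if q.1 = (true, true) then 6 else if q.1 = (true, false) then 4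
  else if q.1 = (false, true) then 2 else if q.2 = 0 then 0 else 1

def cl : L → ℕ
  | none => 5
  | some q => wt q

def cost (w : List L) : ℕ := (w.map cl).sum

def ev (w : List L) : M := (w.map g).prod

def costQ (l : List Q) : ℕ := (l.map (fun q => 5 + wt q)).sum

def evQ (l : List Q) : M := (l.map (fun q => gq q * ga)).prod

lemma wt_qm : ∀ x y : Q, wt (qm x y) ≤ wt x + wt y := by decide

lemma nf (w : List L) : ∃ (q : Q) (l : List Q), costQ (q :: l) ≤ cost w + 5 ∧
    ev w * ga = evQ (q :: l) := by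
  induction w with
  | nil =>
    refine ⟨q1, [], by decide, ?_⟩
    show (1 : M) * ga = (gq q1 * ga) * 1
    rw [gq_one, mul_one, one_mul]
  | cons s w ih =>
    obtain ⟨q, l, h1, h2⟩ := ih
    cases s with
    | none =>
      refine ⟨q1, q :: l, ?_, ?_⟩
      · have e1 : costQ (q1 :: q :: l) = 5 + costQ (q :: l) := rfl
        have e2 : cost (none :: w) = 5 + cost w := rfl
        omega
      · have e1 : evQ (q1 :: q :: l) = gq q1 * ga * evQ (q :: l) := rfl
        have e2 : ev (none :: w) = ga * ev w := rfl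
        rw [e1, e2, gq_one, one_mul, mul_assoc, h2]
    | some x =>
      refine ⟨qm x q, l, ?_, ?_⟩
      · have e1 : costQ (qm x q :: l) = 5 + wt (qm x q) + costQ l := rfl
        have e2 : cost (some x :: w) = wt x + cost w := rfl
        have e3 : costQ (q :: l) = 5 + wt q + costQ l := rfl
        have e4 := wt_qm x q
        omega
      · have e1 : evQ (qm x q :: l) = gq (qm x q) * ga * evQ l := rfl
        have e2 : ev (some x :: w) = gq x * ev w := rfl
        have e3 : evQ (q :: l) = gq q * ga * evQ l := rfl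
        rw [e1, e2, mul_assoc, h2, e3, ← gq_gq]
        simp only [mul_assoc]

/-- join of two elements along the two halves -/
def io (x y : M) : M :=
  ⟨fun n => if n % 2 = 0 then 2 * x.p (n / 2) else 2 * y.p (n / 2) + 1,
   fun n => if n % 2 = 0 then x.f (n / 2) else y.f (n / 2)⟩

lemma io_p_even (x y : M) (m : ℕ) : (io x y).p (2 * m) = 2 * x.p m := by
  show (if 2 * m % 2 = 0 then _ else _) = _
  rw [if_pos (by omega)]
  congr 2
  omega

lemma io_p_odd (x y : M) (m : ℕ) : (io x y).p (2 * m + 1) = 2 * y.p m + 1 := by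
  show (if (2 * m + 1) % 2 = 0 then _ else _) = _
  rw [if_neg (by omega)]
  congr 3
  omega

lemma io_f_even (x y : M) (m : ℕ) : (io x y).f (2 * m) = x.f m := by
  show (if 2 * m % 2 = 0 then _ else _) = _
  rw [if_pos (by omega)]
  congr 1
  omega

lemma io_f_odd (x y : M) (m : ℕ) : (io x y).f (2 * m + 1) = y.f m := by
  show (if (2 * m + 1) % 2 = 0 then _ else _) = _
  rw [if_neg (by omega)]
  congr 1
  omega

lemma io_mul (x y x' y' : M) : io x y * io x' y' = io (x * x') (y * y') := by
  ext n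
  · obtain ⟨m, rfl | rfl⟩ := Nat.even_or_odd' n
    · rw [mul_p, io_p_even, io_p_even, io_p_even, mul_p]
    · rw [mul_p, io_p_odd, io_p_odd, io_p_odd, mul_p]
  · obtain ⟨m, rfl | rfl⟩ := Nat.even_or_odd' n
    · rw [mul_f, io_p_even, io_f_even, io_f_even, io_f_even, mul_f]
    · rw [mul_f, io_p_odd, io_f_odd, io_f_odd, io_f_odd, mul_f]

lemma ga_io (x y : M) : ga * io x y = io y x * ga := by
  ext n
  · obtain ⟨m, rfl | rfl⟩ := Nat.even_or_odd' n
    · rw [mul_p, io_p_even, mul_p]
      show fa _ = (io y x).p (fa _)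
      rw [fa_even, fa_even, io_p_odd]
    · rw [mul_p, io_p_odd, mul_p]
      show fa _ = (io y x).p (fa _)
      rw [fa_odd, fa_odd, io_p_even]
  · obtain ⟨m, rfl | rfl⟩ := Nat.even_or_odd' n
    · rw [mul_f, mul_f, io_f_even]
      show _ + 0 = 0 + (io y x).f (fa _)
      rw [fa_even, io_f_odd, add_zero, zero_add]
    · rw [mul_f, mul_f, io_f_odd]
      show _ + 0 = 0 + (io y x).f (fa _)
      rw [fa_odd, io_f_even, add_zero, zero_add]

lemma io_one : io 1 1 = 1 := by
  ext n
  · obtain ⟨m, rfl | rfl⟩ := Nat.even_or_odd' n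
    · rw [io_p_even, one_p, one_p]
    · rw [io_p_odd, one_p, one_p]
  · obtain ⟨m, rfl | rfl⟩ := Nat.even_or_odd' n
    · rw [io_f_even, one_f, one_f]
    · rw [io_f_odd, one_f, one_f]

/-- the section of a finite letter over the odd half -/
def uu (q : Q) : List L := if q.1.1 then [none] else []

/-- the section of a finite letter over the even half -/
def qs (q : Q) : Q := (sh q.1, q.2)

lemma gq_io (q : Q) : gq q = io (gq (qs q)) (ev (uu q)) := by
  ext n
  · obtain ⟨m, rfl | rfl⟩ := Nat.even_or_odd' n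
    · rw [io_p_even]
      exact kx_even q.1 m
    · rw [io_p_odd]
      show kx q.1 (2 * m + 1) = _
      rw [kx_odd]
      unfold uu
      split_ifs
      · rfl
      · rfl
  · obtain ⟨m, rfl | rfl⟩ := Nat.even_or_odd' n
    · rw [io_f_even]
      show (if 2 * m = 0 then q.2 else 0) = if m = 0 then q.2 else 0
      have : (2 * m = 0) ↔ (m = 0) := by omega
      simp only [this]
    · rw [io_f_odd]
      show (if 2 * m + 1 = 0 then q.2 else 0) = _
      rw [if_neg (by omega)]
      unfold uu
      split_ifs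
      · rfl
      · rfl

lemma ev_append (u v : List L) : ev (u ++ v) = ev u * ev v := by
  unfold ev; rw [List.map_append, List.prod_append]

lemma cost_append (u v : List L) : cost (u ++ v) = cost u + cost v := by
  unfold cost; rw [List.map_append, List.sum_append]

lemma contract_letter : ∀ q : Q, 7 * (wt (qs q) + cost (uu q)) ≤ 6 * (5 + wt q) := by decide

lemma split (l : List Q) : ∃ we wo : List L, 7 * (cost we + cost wo) ≤ 6 * costQ l ∧
    evQ l = io (ev we) (ev wo) * ga ^ l.length := by
  induction l with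
  | nil =>
    refine ⟨[], [], le_rfl, ?_⟩
    show (1 : M) = io 1 1 * 1
    rw [io_one, mul_one]
  | cons q l ih =>
    obtain ⟨we, wo, h1, h2⟩ := ih
    refine ⟨some (qs q) :: wo, uu q ++ we, ?_, ?_⟩
    · have e1 : cost (some (qs q) :: wo) = wt (qs q) + cost wo := rfl
      have e2 : costQ (q :: l) = 5 + wt q + costQ l := rfl
      have e3 := contract_letter q
      rw [cost_append]
      omega
    · have e1 : ev (some (qs q) :: wo) = gq (qs q) * ev wo := rfl
      have e2 : evQ (q :: l) = gq q * ga * evQ l := rfl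
      rw [e1, e2, ev_append, h2, ← io_mul, ← gq_io, List.length_cons, pow_succ']
      calc gq q * ga * (io (ev we) (ev wo) * ga ^ l.length)
          = gq q * (ga * io (ev we) (ev wo)) * ga ^ l.length := by simp only [mul_assoc]
        _ = gq q * (io (ev wo) (ev we) * ga) * ga ^ l.length := by rw [ga_io]
        _ = _ := by simp only [mul_assoc]

lemma ga_pow (k : ℕ) : ga ^ k = 1 ∨ ga ^ k = ga := by
  induction k with
  | zero => left; rfl
  | succ k ih =>
    rcases ih with h | h
    · right; rw [pow_succ, h, one_mul]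
    · left; rw [pow_succ, h, ga_ga]

/-- elements of weight at most n -/
def E (n : ℕ) : Set M := {v | ∃ w, cost w ≤ n ∧ ev w = v}

lemma E_sub (n : ℕ) : E n ⊆ ⋃ i ∈ Finset.range (6 * (n + 5) / 7 + 1),
    (fun z : M × M × Bool => io z.1 z.2.1 * (if z.2.2 then ga else 1)) ''
      (E i ×ˢ E (6 * (n + 5) / 7 - i) ×ˢ Set.univ) := by
  rintro v ⟨w, hw, rfl⟩
  obtain ⟨q, l, h1, h2⟩ := nf w
  obtain ⟨we, wo, h3, h4⟩ := split (q :: l)
  have h5 : ev w = io (ev we) (ev wo) * ga ^ ((q :: l).length + 1) := by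
    have : ev w = (ev w * ga) * ga := by rw [mul_assoc, ga_ga, mul_one]
    rw [this, h2, h4, mul_assoc, ← pow_succ]
  rw [Set.mem_iUnion₂]
  refine ⟨cost we, Finset.mem_range.2 (by omega), ?_⟩
  rcases ga_pow ((q :: l).length + 1) with h | h
  · refine ⟨(ev we, ev wo, false), ⟨⟨we, le_rfl, rfl⟩, ⟨wo, by show cost wo ≤ _; omega, rfl⟩, trivial⟩, ?_⟩
    rw [h5, h]
    simp
  · refine ⟨(ev we, ev wo, true), ⟨⟨we, le_rfl, rfl⟩, ⟨wo, by show cost wo ≤ _; omega, rfl⟩, trivial⟩, ?_⟩
    rw [h5, h]
    simp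

lemma E_sub_exp (n : ℕ) : E n ⊆ ⋃ k ∈ Finset.range (n + 2),
    Set.range (fun h : Fin k → Q => evQ (List.ofFn h) * ga) := by
  rintro v ⟨w, hw, rfl⟩
  obtain ⟨q, l, h1, h2⟩ := nf w
  rw [Set.mem_iUnion₂]
  have h3 : ∀ l : List Q, 5 * l.length ≤ costQ l := by
    intro l
    induction l with
    | nil => exact le_rfl
    | cons q l ih =>
      have e : costQ (q :: l) = 5 + wt q + costQ l := rfl
      rw [e, List.length_cons]
      omega
  have h4 := h3 (q :: l)
  refine ⟨(q :: l).length, Finset.mem_range.2 (by omega), fun i => (q :: l).get i, ?_⟩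
  show evQ (List.ofFn (q :: l).get) * ga = ev w
  rw [List.ofFn_get, ← h2, mul_assoc, ga_ga, mul_one]

lemma E_fin (n : ℕ) : (E n).Finite := by
  refine Set.Finite.subset ?_ (E_sub_exp n)
  exact Set.Finite.biUnion (Finset.finite_toSet _) (fun k _ => Set.finite_range _)

lemma E_one_mem (n : ℕ) : (1 : M) ∈ E n := ⟨[], Nat.zero_le _, rfl⟩

lemma E_pos (n : ℕ) : 0 < (E n).ncard := by
  rw [Set.ncard_pos (E_fin n)]
  exact ⟨1, E_one_mem n⟩

lemma ncard_biUnion_le {α : Type} (s : Finset ℕ) (t : ℕ → Set α) (ht : ∀ i, (t i).Finite) :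
    (⋃ i ∈ s, t i).ncard ≤ ∑ i ∈ s, (t i).ncard := by
  classical
  induction s using Finset.induction_on with
  | empty => simp
  | insert a s ha ih =>
    rw [Finset.set_biUnion_insert, Finset.sum_insert ha]
    exact (Set.ncard_union_le _ _).trans (Nat.add_le_add_left ih _)

lemma card_Q : Fintype.card Q = 12 := by decide

lemma E_card_exp (n : ℕ) : (E n).ncard ≤ 12 ^ (n + 2) := by
  have h1 : (E n).ncard ≤ ∑ k ∈ Finset.range (n + 2), 12 ^ k := by
    refine (Set.ncard_le_ncard (E_sub_exp n) ?_).trans ?_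
    · exact Set.Finite.biUnion (Finset.finite_toSet _) (fun k _ => Set.finite_range _)
    · refine (ncard_biUnion_le _ _ (fun k => Set.finite_range _)).trans ?_
      apply Finset.sum_le_sum
      intro k _
      have := Finite.card_range_le (fun h : Fin k → Q => evQ (List.ofFn h) * ga)
      have e : Nat.card (Fin k → Q) = 12 ^ k := by
        rw [Nat.card_eq_fintype_card, Fintype.card_fun, card_Q, Fintype.card_fin]
      rw [e] at this
      exact this
  refine h1.trans ?_
  generalize n + 2 = m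
  induction m with
  | zero => simp
  | succ m ih =>
    rw [Finset.sum_range_succ, pow_succ]
    omega

lemma E_card_rec (n : ℕ) : (E n).ncard ≤ ∑ i ∈ Finset.range (6 * (n + 5) / 7 + 1),
    2 * ((E i).ncard * (E (6 * (n + 5) / 7 - i)).ncard) := by
  have hf : ∀ i, ((fun z : M × M × Bool => io z.1 z.2.1 * (if z.2.2 then ga else 1)) ''
      (E i ×ˢ E (6 * (n + 5) / 7 - i) ×ˢ Set.univ)).Finite := fun i =>
    Set.Finite.image _ ((E_fin i).prod ((E_fin _).prod (Set.finite_univ)))
  refine (Set.ncard_le_ncard (E_sub n) ?_).trans ?_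
  · exact Set.Finite.biUnion (Finset.finite_toSet _) (fun k _ => hf k)
  · refine (ncard_biUnion_le _ _ hf).trans ?_
    apply Finset.sum_le_sum
    intro i _
    refine (Set.ncard_image_le ((E_fin i).prod ((E_fin _).prod (Set.finite_univ)))).trans ?_
    rw [Set.ncard_prod, Set.ncard_prod, Set.ncard_univ]
    have : Nat.card Bool = 2 := by simp
    rw [this]
    apply le_of_eq
    ring

/-- logarithm of the growth function -/
noncomputable def lg (n : ℕ) : ℝ := Real.log ((E n).ncard : ℝ)

lemma cpos (n : ℕ) : (0 : ℝ) < ((E n).ncard : ℝ) := by exact_mod_cast E_pos n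

lemma lg_start : ∀ n : ℕ, lg n ≤ Real.log 12 * n + 2 * Real.log 12 := by
  intro n
  unfold lg
  have h : ((E n).ncard : ℝ) ≤ (12 : ℝ) ^ (n + 2) := by exact_mod_cast E_card_exp n
  have h2 := Real.log_le_log (cpos n) h
  rw [Real.log_pow] at h2
  push_cast at h2
  linarith

lemma lg_step {α β : ℝ} (hα : 0 < α) (hβ : 0 ≤ β) (h : ∀ n : ℕ, lg n ≤ α * n + β) :
    ∃ β' : ℝ, 0 ≤ β' ∧ ∀ n : ℕ, lg n ≤ (7 / 8 * α) * n + β' := by
  refine ⟨|Real.log 2 + (5 * α + 2 * β) + (α / 48 * 6 - 1 - Real.log (α / 48))|, abs_nonneg _, fun n => ?_⟩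
  set m := 6 * (n + 5) / 7 with hm
  have hm' : (m : ℝ) ≤ 6 * (n + 5) / 7 := by
    have h1 : 7 * m ≤ 6 * (n + 5) := by omega
    have h2 : (7 : ℝ) * m ≤ 6 * (n + 5) := by exact_mod_cast h1
    linarith
  have hexp : ∀ k : ℕ, ((E k).ncard : ℝ) ≤ Real.exp (α * k + β) := by
    intro k
    rw [← Real.log_le_iff_le_exp (cpos k)]
    exact h k
  have h1 : ((E n).ncard : ℝ) ≤ ∑ i ∈ Finset.range (m + 1),
      2 * (((E i).ncard : ℝ) * ((E (m - i)).ncard : ℝ)) := by
    exact_mod_cast E_card_rec n
  have h2 : ((E n).ncard : ℝ) ≤ (m + 1) * (2 * Real.exp (α * m + 2 * β)) := by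
    refine h1.trans ?_
    have : ∀ i ∈ Finset.range (m + 1), 2 * (((E i).ncard : ℝ) * ((E (m - i)).ncard : ℝ)) ≤
        2 * Real.exp (α * m + 2 * β) := by
      intro i hi
      have hi' : i ≤ m := by
        rw [Finset.mem_range] at hi; omega
      have h3 := mul_le_mul (hexp i) (hexp (m - i)) (cpos _).le (Real.exp_pos _).le
      rw [← Real.exp_add] at h3
      have e : α * (i : ℝ) + β + (α * ((m - i : ℕ) : ℝ) + β) = α * m + 2 * β := by
        rw [Nat.cast_sub hi']; ring
      rw [e] at h3
      linarith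
    refine (Finset.sum_le_sum this).trans ?_
    rw [Finset.sum_const, Finset.card_range, nsmul_eq_mul]
    push_cast
    exact le_rfl
  have hmp : (0 : ℝ) < (m : ℝ) + 1 := by positivity
  have h3 : lg n ≤ Real.log ((m + 1) * (2 * Real.exp (α * m + 2 * β))) :=
    Real.log_le_log (cpos n) h2
  rw [Real.log_mul hmp.ne' (by positivity), Real.log_mul (by norm_num) (Real.exp_pos _).ne',
    Real.log_exp] at h3
  have hε : 0 < α / 48 := by positivity
  have h4 : Real.log ((m : ℝ) + 1) ≤ α / 48 * (m + 1) - 1 - Real.log (α / 48) := by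
    have := Real.log_le_sub_one_of_pos (mul_pos hε hmp)
    rw [Real.log_mul hε.ne' hmp.ne'] at this
    linarith
  have h5 : α / 48 * (m + 1) ≤ α / 48 * (6 / 7 * n + 6) := by
    apply mul_le_mul_of_nonneg_left _ hε.le
    linarith
  have h6 : α * m ≤ α * (6 / 7 * n + 5) := by
    apply mul_le_mul_of_nonneg_left _ hα.le
    linarith
  have h7 := le_abs_self (Real.log 2 + (5 * α + 2 * β) + (α / 48 * 6 - 1 - Real.log (α / 48)))
  have h8 : α / 48 * (6 / 7 * n + 6) + α * (6 / 7 * n + 5) = 7 / 8 * α * n + 5 * α + α / 48 * 6 := by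
    ring
  linarith

/-- subexponential growth -/
lemma lg_subexp {ε : ℝ} (hε : 0 < ε) : ∃ β : ℝ, ∀ n : ℕ, lg n ≤ ε * n + β := by
  have hl : 0 < Real.log 12 := Real.log_pos (by norm_num)
  have key : ∀ j : ℕ, ∃ β : ℝ, 0 ≤ β ∧ ∀ n : ℕ, lg n ≤ ((7 / 8) ^ j * Real.log 12) * n + β := by
    intro j
    induction j with
    | zero =>
      refine ⟨2 * Real.log 12, by positivity, fun n => ?_⟩
      have := lg_start n
      rw [pow_zero, one_mul]
      exact this
    | succ j ih =>
      obtain ⟨β, h1, h2⟩ := ih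
      obtain ⟨β', h3, h4⟩ := lg_step (by positivity) h1 h2
      refine ⟨β', h3, fun n => ?_⟩
      have := h4 n
      rw [pow_succ]
      linarith
  obtain ⟨j, hj⟩ := exists_pow_lt_of_lt_one (div_pos hε hl) (show (7 / 8 : ℝ) < 1 by norm_num)
  obtain ⟨β, -, h⟩ := key j
  refine ⟨β, fun n => (h n).trans ?_⟩
  have h1 : (7 / 8 : ℝ) ^ j * Real.log 12 ≤ ε := by
    rw [lt_div_iff₀ hl] at hj
    exact hj.le
  have h2 : (7 / 8 : ℝ) ^ j * Real.log 12 * n ≤ ε * n :=
    mul_le_mul_of_nonneg_right h1 (Nat.cast_nonneg n)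
  linarith


/-- vertices -/
abbrev V : Type := {v : M // InV v}

/-- the graph -/
def Γ : SimpleGraph V where
  Adj u v := u ≠ v ∧ ∃ s, u.1 * g s = v.1
  symm := ⟨fun u v h => by
    obtain ⟨h1, s, h2⟩ := h
    refine ⟨h1.symm, li s, ?_⟩
    rw [← h2, mul_assoc, g_li, mul_one]⟩
  loopless := ⟨fun u h => h.1 rfl⟩

lemma adj_iff {u v : V} : Γ.Adj u v ↔ u ≠ v ∧ ∃ s, u.1 * g s = v.1 := Iff.rfl

/-- base vertex -/
def o : V := ⟨1, InV.one⟩

/-- maps compatible with the letters preserve the vertex set -/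
lemma map_InV (F : M → M) (hF : ∀ v s, ∃ s', F (v * g s) = F v * g s') (h1 : InV (F 1))
    {v : M} (hv : InV v) : InV (F v) := by
  induction hv with
  | one => exact h1
  | step v s hv ih =>
    obtain ⟨s', hs⟩ := hF v s
    rw [hs]
    exact InV.step _ _ ih

/-- automorphisms from compatible maps -/
def mkIso (F F' : M → M) (hF : ∀ v s, ∃ s', F (v * g s) = F v * g s')
    (hF' : ∀ v s, ∃ s', F' (v * g s) = F' v * g s') (h1 : InV (F 1)) (h1' : InV (F' 1))
    (hl : ∀ v, F' (F v) = v) (hr : ∀ v, F (F' v) = v) : Γ ≃g Γ where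
  toFun v := ⟨F v.1, map_InV F hF h1 v.2⟩
  invFun v := ⟨F' v.1, map_InV F' hF' h1' v.2⟩
  left_inv v := Subtype.ext (hl v.1)
  right_inv v := Subtype.ext (hr v.1)
  map_rel_iff' := by
    intro u v
    constructor
    · rintro ⟨h1, s, h2⟩
      refine ⟨fun h => h1 (by rw [h]), ?_⟩
      have h2' : F u.1 * g s = F v.1 := h2
      obtain ⟨s', h3⟩ := hF' (F u.1) s
      refine ⟨s', ?_⟩
      rw [h2', hl, hl] at h3
      exact h3.symm
    · rintro ⟨h1, s, h2⟩
      refine ⟨fun h => h1 ?_, ?_⟩
      · have : F u.1 = F v.1 := congrArg Subtype.val h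
        apply Subtype.ext
        rw [← hl u.1, this, hl]
      · obtain ⟨s', h3⟩ := hF u.1 s
        refine ⟨s', ?_⟩
        show F u.1 * g s' = F v.1
        rw [← h3, h2]

/-- left translation -/
def lt (u u' : M) (hu : InV u) (hu' : InV u') (h1 : u * u' = 1) (h2 : u' * u = 1) : Γ ≃g Γ :=
  mkIso (fun v => u * v) (fun v => u' * v)
    (fun v s => ⟨s, (mul_assoc _ _ _).symm⟩) (fun v s => ⟨s, (mul_assoc _ _ _).symm⟩)
    (by rw [mul_one]; exact hu) (by rw [mul_one]; exact hu')
    (fun v => by rw [← mul_assoc, h2, one_mul]) (fun v => by rw [← mul_assoc, h1, one_mul])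

/-- recolouring automorphism -/
def Ph (x : ℕ) : Γ ≃g Γ :=
  mkIso (ph x) (ph x) (ph_step x) (ph_step x) (by rw [ph_one]; exact InV.one)
    (by rw [ph_one]; exact InV.one) (ph_ph x) (ph_ph x)

lemma dl_three (x : ℕ) : dl x * (dl x * dl x) = 1 := by
  ext n
  · rfl
  · show ((if n = x then (1 : ZMod 3) else 0) + (if n = x then 1 else 0)) + (if n = x then 1 else 0) = 0
    split_ifs
    · decide
    · simp

/-- rotation of the colour at one place -/
def R (x : ℕ) : Γ ≃g Γ :=
  lt (dl x) (dl x * dl x) (InV_dl x) ((InV_dl x).mul (InV_dl x)) (dl_three x)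
    (by rw [mul_assoc]; exact dl_three x)

lemma R_val (x : ℕ) (v : V) : (R x v).1 = dl x * v.1 := rfl
lemma Ph_val (x : ℕ) (v : V) : (Ph x v).1 = ph x v.1 := rfl
lemma R_symm_val (x : ℕ) (v : V) : ((R x).symm v).1 = (dl x * dl x) * v.1 := rfl

lemma trans (u v : V) : ∃ φ : Γ ≃g Γ, φ u = v := by
  obtain ⟨u', hu', h1, h2⟩ := u.2.exists_inv
  obtain ⟨v', hv', h3, h4⟩ := v.2.exists_inv
  have e1 : (v.1 * u') * (u.1 * v') = 1 := by
    calc (v.1 * u') * (u.1 * v') = v.1 * (u' * u.1) * v' := by simp only [mul_assoc]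
      _ = 1 := by rw [h2, mul_one, h3]
  have e2 : (u.1 * v') * (v.1 * u') = 1 := by
    calc (u.1 * v') * (v.1 * u') = u.1 * (v' * v.1) * u' := by simp only [mul_assoc]
      _ = 1 := by rw [h4, mul_one, h1]
  refine ⟨lt (v.1 * u') (u.1 * v') (v.2.mul hu') (u.2.mul hv') e1 e2, ?_⟩
  apply Subtype.ext
  show (v.1 * u') * u.1 = v.1
  rw [mul_assoc, h2, mul_one]

lemma conn : Γ.Connected := by
  have hne : Nonempty V := ⟨o⟩
  have key : ∀ v : M, ∀ hv : InV v, Γ.Reachable o ⟨v, hv⟩ := by
    intro v hv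
    induction hv with
    | one => exact SimpleGraph.Reachable.refl _
    | step v s hv ih =>
      by_cases h : (⟨v, hv⟩ : V) = ⟨v * g s, InV.step v s hv⟩
      · rw [← h]; exact ih
      · exact ih.trans (SimpleGraph.Adj.reachable ⟨h, s, rfl⟩)
  exact ⟨fun u v => (key u.1 u.2).symm.trans (key v.1 v.2)⟩

lemma o_ne (x y : ℕ) (h : x ≠ y) : R x o ≠ R y o := by
  intro e
  have e1 : (dl x * 1).f x = (dl y * 1).f x := by
    have := congrArg Subtype.val e
    rw [R_val, R_val] at this
    have e2 := congrArg (fun m => M.f m x) this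
    exact e2
  rw [mul_one, mul_one] at e1
  have e3 : (if x = x then (1 : ZMod 3) else 0) = if x = y then 1 else 0 := e1
  rw [if_pos rfl, if_neg h] at e3
  exact absurd e3 (by decide)

lemma Ph_o (x : ℕ) : Ph x o = o := by
  apply Subtype.ext
  rw [Ph_val]
  exact ph_one x

lemma ph_R_same (x : ℕ) (v : V) : Ph x (R x v) = (R x).symm (Ph x v) := by
  apply Subtype.ext
  rw [Ph_val, R_val, R_symm_val, Ph_val]
  ext n
  · rfl
  · show (if v.1.p n = x then - (v.1.f n + (if v.1.p n = x then (1 : ZMod 3) else 0)) else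
      (v.1.f n + (if v.1.p n = x then 1 else 0))) =
      (if v.1.p n = x then - v.1.f n else v.1.f n) +
        ((if v.1.p n = x then (1 : ZMod 3) else 0) + (if v.1.p n = x then 1 else 0))
    generalize v.1.f n = a
    split_ifs
    · revert a; decide
    · simp

lemma ph_R_ne {x y : ℕ} (hxy : x ≠ y) (v : V) : Ph y (R x v) = R x (Ph y v) := by
  apply Subtype.ext
  rw [Ph_val, R_val, R_val, Ph_val]
  ext n
  · rfl
  · show (if v.1.p n = y then - (v.1.f n + (if v.1.p n = x then (1 : ZMod 3) else 0)) else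
      (v.1.f n + (if v.1.p n = x then 1 else 0))) =
      (if v.1.p n = y then - v.1.f n else v.1.f n) + (if v.1.p n = x then (1 : ZMod 3) else 0)
    by_cases h : v.1.p n = y
    · have h' : v.1.p n ≠ x := fun e => hxy (e.symm.trans h)
      rw [if_pos h, if_pos h, if_neg h']
      simp
    · rw [if_neg h, if_neg h]

lemma Ph_inj {x y : ℕ} (h : Ph x = Ph y) : x = y := by
  by_contra hxy
  have h1 := ph_R_same x o
  have h2 := ph_R_ne hxy o
  rw [Ph_o] at h1 h2
  rw [← h, h1] at h2
  have h3 := congrArg (fun z : V => z.1.f x) h2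
  have h4 : (0 : ZMod 3) + ((if x = x then (1 : ZMod 3) else 0) + (if x = x then 1 else 0)) =
    0 + (if x = x then (1 : ZMod 3) else 0) := h3
  rw [if_pos rfl] at h4
  exact absurd h4 (by decide)

/-- first alternative fails -/
lemma not_alt1 : ¬ (∀ v : V, {φ : Γ ≃g Γ | φ v = v}.Finite) := by
  intro h
  have h1 := h o
  have h2 : (Set.range Ph).Finite := h1.subset (by
    rintro _ ⟨x, rfl⟩
    exact Ph_o x)
  exact Set.infinite_range_of_injective (fun x y hxy => Ph_inj hxy) h2

/-- factor graph -/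
abbrev QG (s : Setoid V) : SimpleGraph (Quotient s) :=
  SimpleGraph.fromRel (fun a c : Quotient s => ∃ x y : V,
    Quotient.mk s x = a ∧ Quotient.mk s y = c ∧ Γ.Adj x y)

/-- induced automorphism of the factor graph -/
def ind (s : Setoid V) (h : ∀ φ : Γ ≃g Γ, ∀ x y : V, s.r x y ↔ s.r (φ x) (φ y)) (φ : Γ ≃g Γ) :
    QG s ≃g QG s where
  toEquiv := Quotient.congr φ.toEquiv (fun a b => h φ a b)
  map_rel_iff' := by
    intro a b
    have key : ∀ a b : Quotient s,
        (∃ x y : V, Quotient.mk s x = Quotient.congr φ.toEquiv (fun a b => h φ a b) a ∧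
          Quotient.mk s y = Quotient.congr φ.toEquiv (fun a b => h φ a b) b ∧ Γ.Adj x y) ↔
        (∃ x y : V, Quotient.mk s x = a ∧ Quotient.mk s y = b ∧ Γ.Adj x y) := by
      intro a b
      constructor
      · rintro ⟨x, y, h1, h2, h3⟩
        refine ⟨φ.symm x, φ.symm y, ?_, ?_, φ.symm.map_adj_iff.2 h3⟩
        · apply (Quotient.congr φ.toEquiv (fun a b => h φ a b)).injective
          rw [← h1]
          show Quotient.mk s (φ (φ.symm x)) = _
          rw [RelIso.apply_symm_apply]
        · apply (Quotient.congr φ.toEquiv (fun a b => h φ a b)).injective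
          rw [← h2]
          show Quotient.mk s (φ (φ.symm y)) = _
          rw [RelIso.apply_symm_apply]
      · rintro ⟨x, y, h1, h2, h3⟩
        refine ⟨φ x, φ y, ?_, ?_, φ.map_adj_iff.2 h3⟩
        · rw [← h1]; rfl
        · rw [← h2]; rfl
    simp only [SimpleGraph.fromRel_adj, key, ne_eq, EmbeddingLike.apply_eq_iff_eq]

lemma ind_mk (s : Setoid V) (h : ∀ φ : Γ ≃g Γ, ∀ x y : V, s.r x y ↔ s.r (φ x) (φ y))
    (φ : Γ ≃g Γ) (v : V) : ind s h φ (Quotient.mk s v) = Quotient.mk s (φ v) := rfl

/-- second alternative fails -/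
lemma not_alt2 : ¬ (∃ s : Setoid V,
          (∀ φ : Γ ≃g Γ, ∀ x y : V, s.r x y ↔ s.r (φ x) (φ y)) ∧
          (∀ x : V, {y : V | s.r x y}.Finite) ∧
          ∀ b : Quotient s, {ψ : QG s ≃g QG s | ψ b = b}.Finite) := by
  rintro ⟨s, h, hfin, hst⟩
  have h1 := hst (Quotient.mk s o)
  have hmem : ∀ x, ind s h (Ph x) ∈ {ψ : QG s ≃g QG s | ψ (Quotient.mk s o) = Quotient.mk s o} := by
    intro x
    show ind s h (Ph x) (Quotient.mk s o) = Quotient.mk s o
    rw [ind_mk, Ph_o]
  have : Finite {ψ : QG s ≃g QG s | ψ (Quotient.mk s o) = Quotient.mk s o} := h1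
  obtain ⟨x, y, hxy, he⟩ := Finite.exists_ne_map_eq_of_infinite
    (fun x : ℕ => (⟨ind s h (Ph x), hmem x⟩ :
      {ψ : QG s ≃g QG s | ψ (Quotient.mk s o) = Quotient.mk s o}))
  have he' : ind s h (Ph x) = ind s h (Ph y) := congrArg Subtype.val he
  have h2 : ∀ v : V, s.r (Ph x v) (Ph y v) := by
    intro v
    have := congrArg (fun ψ : QG s ≃g QG s => ψ (Quotient.mk s v)) he'
    simp only [ind_mk] at this
    exact Quotient.exact this
  -- rotation is in the kernel
  have h3 : ∀ v : V, s.r (R x v) ((R x).symm v) := by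
    intro v
    have e1 : s.r (R x (Ph x (Ph x v))) (R x (Ph y (Ph x v))) := (h (R x) _ _).1 (h2 (Ph x v))
    have e2 : s.r (Ph x (R x (Ph x v))) (Ph y (R x (Ph x v))) := h2 _
    rw [ph_R_ne hxy, ph_R_same] at e2
    have e3 : Ph x (Ph x v) = v := by
      apply Subtype.ext
      rw [Ph_val, Ph_val, ph_ph]
    rw [e3] at e1 e2
    exact s.iseqv.trans e1 (s.iseqv.symm e2)
  have h4 : ∀ v : V, s.r (R x v) v := by
    intro v
    have e1 := (h (R x) _ _).1 (h3 v)
    rw [RelIso.apply_symm_apply] at e1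
    have e2 : R x (R x v) = (R x).symm v := by
      apply Subtype.ext
      rw [R_val, R_val, R_symm_val, mul_assoc]
    rw [e2] at e1
    exact s.iseqv.trans (h3 v) e1
  -- hence rotations at all places
  have h5 : ∀ z : ℕ, s.r o (R z o) := by
    intro z
    obtain ⟨u1, hu1, hx⟩ := trans_zero x
    obtain ⟨u2, hu2, hz⟩ := trans_zero z
    obtain ⟨u1', hu1', i1, i2⟩ := hu1.exists_inv
    obtain ⟨u2', hu2', i3, i4⟩ := hu2.exists_inv
    have e1 : (u2 * u1') * (u1 * u2') = 1 := by
      calc (u2 * u1') * (u1 * u2') = u2 * (u1' * u1) * u2' := by simp only [mul_assoc]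
        _ = 1 := by rw [i2, mul_one, i3]
    have e2 : (u1 * u2') * (u2 * u1') = 1 := by
      calc (u1 * u2') * (u2 * u1') = u1 * (u2' * u2) * u1' := by simp only [mul_assoc]
        _ = 1 := by rw [i4, mul_one, i1]
    have e3 : (u2 * u1').p x = z := by
      rw [mul_p, ← hx]
      have : u1'.p (u1.p 0) = 0 := by rw [← mul_p, i2, one_p]
      rw [this, hz]
    have e4 := (h (lt (u2 * u1') (u1 * u2') (hu2.mul hu1') (hu1.mul hu2') e1 e2) _ _).1
      (h4 ⟨u1 * u2', hu1.mul hu2'⟩)
    have e5 : lt (u2 * u1') (u1 * u2') (hu2.mul hu1') (hu1.mul hu2') e1 e2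
        ⟨u1 * u2', hu1.mul hu2'⟩ = o := Subtype.ext e1
    have e6 : lt (u2 * u1') (u1 * u2') (hu2.mul hu1') (hu1.mul hu2') e1 e2
        (R x ⟨u1 * u2', hu1.mul hu2'⟩) = R z o := by
      apply Subtype.ext
      show (u2 * u1') * (dl x * (u1 * u2')) = dl z * 1
      rw [mul_one, ← mul_assoc, conj_dl e1 e2, e3]
    rw [e5, e6] at e4
    exact s.iseqv.symm e4
  have h6 : (Set.range (fun z => R z o)).Finite := (hfin o).subset (by
    rintro _ ⟨z, rfl⟩
    exact h5 z)
  refine Set.infinite_range_of_injective ?_ h6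
  intro z w hzw
  by_contra hne
  exact o_ne z w hne hzw

/-! the third alternative -/

lemma cl_le : ∀ s : L, cl s ≤ 6 := by
  intro s
  cases s with
  | none => decide
  | some q => revert q; decide

lemma walk_ev {u v : V} (w : Γ.Walk u v) : ∃ l, cost l ≤ 6 * w.length ∧ u.1 * ev l = v.1 := by
  induction w with
  | nil => exact ⟨[], Nat.zero_le _, mul_one _⟩
  | cons h w ih =>
    obtain ⟨l, h1, h2⟩ := ih
    obtain ⟨s, hs⟩ := (adj_iff.1 h).2
    refine ⟨s :: l, ?_, ?_⟩
    · have e : cost (s :: l) = cl s + cost l := rfl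
      have := cl_le s
      rw [e, SimpleGraph.Walk.length_cons]
      omega
    · have e : ev (s :: l) = g s * ev l := rfl
      rw [e, ← mul_assoc, hs, h2]

/-- balls are small -/
lemma ball_card (u : V) (r : ℕ) (A : Finset V) (hA : ∀ v ∈ A, Γ.dist u v ≤ r) :
    A.card ≤ (E (6 * r)).ncard := by
  classical
  have hsub : (fun v : V => v.1) '' (A : Set V) ⊆ (fun e : M => u.1 * e) '' E (6 * r) := by
    rintro _ ⟨v, hv, rfl⟩
    obtain ⟨w, hw⟩ := conn.exists_walk_length_eq_dist u v
    obtain ⟨l, h1, h2⟩ := walk_ev w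
    refine ⟨ev l, ⟨l, ?_, rfl⟩, h2⟩
    have := hA v hv
    omega
  have hfin : ((fun e : M => u.1 * e) '' E (6 * r)).Finite := (E_fin _).image _
  have h1 := Set.ncard_le_ncard hsub hfin
  have h2 : ((fun v : V => v.1) '' (A : Set V)).ncard = A.card := by
    rw [Set.ncard_image_of_injective _ Subtype.val_injective, Set.ncard_coe_finset]
  rw [h2] at h1
  exact h1.trans (Set.ncard_image_le (E_fin _))

/-- spheres in cubic trees are large -/
lemma tree_sphere {W : Type} (T : SimpleGraph W) (hT : T.IsTree)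
    (h3 : ∀ w : W, (T.neighborSet w).ncard = 3) (w0 : W) (k : ℕ) :
    ∃ A : Finset W, (∀ w ∈ A, T.dist w0 w = k) ∧ 2 ^ k ≤ A.card := by
  classical
  have hfin : ∀ w, (T.neighborSet w).Finite := fun w =>
    Set.finite_of_ncard_ne_zero (by rw [h3]; decide)
  -- unique parent
  have par : ∀ (k : ℕ) (v a b : W), T.dist w0 v = k + 1 → T.Adj v a → T.Adj v b →
      T.dist w0 a = k → T.dist w0 b = k → a = b := by
    intro k v a b hv ha hb hda hdb
    obtain ⟨p, hp, hp'⟩ := hT.connected.exists_path_of_dist w0 a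
    obtain ⟨q, hq, hq'⟩ := hT.connected.exists_path_of_dist w0 b
    have hvp : v ∉ p.support := by
      intro hmem
      have h1 : T.dist w0 v ≤ (p.takeUntil v hmem).length := SimpleGraph.dist_le _
      have h2 := p.length_takeUntil_le_length hmem
      omega
    have hvq : v ∉ q.support := by
      intro hmem
      have h1 : T.dist w0 v ≤ (q.takeUntil v hmem).length := SimpleGraph.dist_le _
      have h2 := q.length_takeUntil_le_length hmem
      omega
    have e := (hT.existsUnique_path w0 v).unique (hp.concat hvp ha.symm) (hq.concat hvq hb.symm)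
    have e2 := congrArg SimpleGraph.Walk.penultimate e
    rwa [SimpleGraph.Walk.penultimate_concat, SimpleGraph.Walk.penultimate_concat] at e2
  induction k with
  | zero =>
    refine ⟨{w0}, ?_, by simp⟩
    intro w hw
    rw [Finset.mem_singleton] at hw
    rw [hw, SimpleGraph.dist_self]
  | succ k ih =>
    obtain ⟨A, hA, hc⟩ := ih
    set ch : W → Finset W := fun w => (hfin w).toFinset.filter (fun v => T.dist w0 v = k + 1) with hch
    have hch_card : ∀ w ∈ A, 2 ≤ (ch w).card := by
      intro w hw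
      have h1 : (hfin w).toFinset.card = 3 := by
        rw [← Set.ncard_eq_toFinset_card _ (hfin w), h3]
      have h2 : ((hfin w).toFinset.filter (fun v => ¬ T.dist w0 v = k + 1)).card ≤ 1 := by
        rw [Finset.card_le_one]
        intro a ha b hb
        rw [Finset.mem_filter, Set.Finite.mem_toFinset, SimpleGraph.mem_neighborSet] at ha hb
        have hd := hA w hw
        have da := hT.dist_eq_dist_add_one_of_adj w0 ha.1
        have db := hT.dist_eq_dist_add_one_of_adj w0 hb.1
        have ha2 := ha.2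
        have hb2 := hb.2
        obtain ⟨j, rfl⟩ : ∃ j, k = j + 1 := ⟨k - 1, by omega⟩
        exact par j w a b hd ha.1 hb.1 (by omega) (by omega)
      have h4 := Finset.card_filter_add_card_filter_not (s := (hfin w).toFinset)
        (fun v => T.dist w0 v = k + 1)
      show 2 ≤ ((hfin w).toFinset.filter (fun v => T.dist w0 v = k + 1)).card
      omega
    refine ⟨A.biUnion ch, ?_, ?_⟩
    · intro v hv
      rw [Finset.mem_biUnion] at hv
      obtain ⟨w, hw, hv⟩ := hv
      exact (Finset.mem_filter.1 hv).2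
    · rw [Finset.card_biUnion]
      · calc 2 ^ (k + 1) = 2 ^ k * 2 := pow_succ _ _
          _ ≤ A.card * 2 := Nat.mul_le_mul_right _ hc
          _ = ∑ _w ∈ A, 2 := by rw [Finset.sum_const, smul_eq_mul]
          _ ≤ ∑ w ∈ A, (ch w).card := Finset.sum_le_sum hch_card
      · intro a ha b hb hab
        show Disjoint (ch a) (ch b)
        rw [Finset.disjoint_left]
        intro v hva hvb
        apply hab
        rw [hch] at hva hvb
        simp only [Finset.mem_filter, Set.Finite.mem_toFinset, SimpleGraph.mem_neighborSet] at hva hvb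
        exact par k v a b hva.2 hva.1.symm hvb.1.symm (hA a ha) (hA b hb)

/-- third alternative fails -/
lemma not_alt3 : ¬ (∃ n : ℕ, ∃ (W : Type) (T : SimpleGraph W), T.IsTree ∧
          (∀ w : W, (T.neighborSet w).ncard = 3) ∧
          ∃ f : T →g SimpleGraph.fromRel (fun x y : V => Γ.dist x y ≤ n),
            Function.Injective f) := by
  classical
  rintro ⟨n, W, T, hT, h3, f, hf⟩
  obtain ⟨w0⟩ := hT.connected.nonempty
  have hdist : ∀ (a b : W) (p : T.Walk a b), Γ.dist (f a) (f b) ≤ n * p.length := by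
    intro a b p
    induction p with
    | nil => rw [SimpleGraph.dist_self]; exact Nat.zero_le _
    | @cons a b c h p ih =>
      have h1 := f.map_adj h
      rw [SimpleGraph.fromRel_adj] at h1
      have h2 : Γ.dist (f a) (f b) ≤ n := by
        rcases h1.2 with h2 | h2
        · exact h2
        · rw [SimpleGraph.dist_comm]; exact h2
      have h4 := conn.dist_triangle (u := f a) (v := f b) (w := f c)
      rw [SimpleGraph.Walk.length_cons, mul_add, mul_one]
      omega
  have key : ∀ k : ℕ, 2 ^ k ≤ (E (6 * (n * k))).ncard := by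
    intro k
    obtain ⟨A, hA, hc⟩ := tree_sphere T hT h3 w0 k
    have h1 := ball_card (f w0) (n * k) (A.image f) (by
      intro v hv
      rw [Finset.mem_image] at hv
      obtain ⟨w, hw, rfl⟩ := hv
      obtain ⟨p, hp⟩ := hT.connected.exists_walk_length_eq_dist w0 w
      have := hdist _ _ p
      rwa [hp, hA w hw] at this)
    rw [Finset.card_image_of_injective _ hf] at h1
    exact hc.trans h1
  have hl2 : 0 < Real.log 2 := Real.log_pos (by norm_num)
  set ε : ℝ := Real.log 2 / (12 * n + 1) with hε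
  have hd : (0 : ℝ) < 12 * n + 1 := by positivity
  have hεpos : 0 < ε := div_pos hl2 hd
  obtain ⟨β, hβ⟩ := lg_subexp hεpos
  have h5 : ∀ k : ℕ, (k : ℝ) * Real.log 2 ≤ ε * (6 * n * k) + β := by
    intro k
    have h6 : Real.log ((2 : ℝ) ^ k) ≤ lg (6 * (n * k)) := by
      apply Real.log_le_log (by positivity)
      exact_mod_cast key k
    rw [Real.log_pow] at h6
    have h7 := hβ (6 * (n * k))
    push_cast at h7
    linarith
  have h8 : ∀ k : ℕ, (k : ℝ) * Real.log 2 ≤ 2 * β := by
    intro k
    have h9 := h5 k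
    have h10 : ε * (12 * n + 1) = Real.log 2 := by
      rw [hε]; field_simp
    have h11 : ε * (6 * n * k) ≤ Real.log 2 * k / 2 := by
      rw [← h10]
      have : 0 ≤ ε * k := by positivity
      nlinarith
    linarith
  obtain ⟨k, hk⟩ := exists_nat_gt (2 * β / Real.log 2)
  rw [div_lt_iff₀ hl2] at hk
  exact absurd (h8 k) (not_le.2 hk)


/-- The negation of the preceding statement: Every connected vertex-transitive graph has finite vertex stabilizers, or an automorphism-invariant partition into finite blocks whose factor graph has finite vertex stabilizers, or some distance-n graph of it contains a 3-regular tree. -/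
theorem result :
    ¬ (∀ (V : Type) (G : SimpleGraph V), G.Connected →
      (∀ u v : V, ∃ φ : G ≃g G, φ u = v) →
      ((∀ v : V, {φ : G ≃g G | φ v = v}.Finite) ∨
       (∃ s : Setoid V,
          (∀ φ : G ≃g G, ∀ x y : V, s.r x y ↔ s.r (φ x) (φ y)) ∧
          (∀ x : V, {y : V | s.r x y}.Finite) ∧
          ∀ b : Quotient s,
            {ψ : SimpleGraph.fromRel
                    (fun a c : Quotient s => ∃ x y : V,
                      Quotient.mk s x = a ∧ Quotient.mk s y = c ∧ G.Adj x y) ≃g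
                  SimpleGraph.fromRel
                    (fun a c : Quotient s => ∃ x y : V,
                      Quotient.mk s x = a ∧ Quotient.mk s y = c ∧ G.Adj x y) |
              ψ b = b}.Finite) ∨
       (∃ n : ℕ, ∃ (W : Type) (T : SimpleGraph W), T.IsTree ∧
          (∀ w : W, (T.neighborSet w).ncard = 3) ∧
          ∃ f : T →g SimpleGraph.fromRel (fun x y : V => G.dist x y ≤ n),
            Function.Injective f))) := by
  intro H
  rcases H V Γ conn trans with h | h | h
  · exact not_alt1 h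
  · exact not_alt2 h
  · exact not_alt3 h

end Pool.Agent.S04776
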