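import Pool.Statements.S04785
import Pool.Agent.Helper606.CritThree

set_option autoImplicit false
open Pool Pool.MP_1501a3_co

namespace Pool.Agent.S04785

/-- There exist c > 0 and l < 2 such that every finite graph G whose connectivity drops to exactly k − ∣X∣ after deleting any set X of at most 3 vertices has at most c·k^l vertices. -/
theorem result :
    ∃ c : ℝ, 0 < c ∧ ∃ l : ℝ, l < 2 ∧
      ∀ (n : ℕ) (G : SimpleGraph (Fin n)) (k : ℕ),
        (∀ X : Finset (Fin n), X.card ≤ 3 →
          ∃ j : ℕ, (j : ℤ) = (k : ℤ) - (X.card : ℤ) ∧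
            (j < (Xᶜ).card ∧
              ∀ S : Finset (Fin n), Disjoint S X → S.card < j →
                (G.induce (((X ∪ S : Finset (Fin n)) : Set (Fin n))ᶜ)).Connected) ∧
            ¬ (j + 1 < (Xᶜ).card ∧
              ∀ S : Finset (Fin n), Disjoint S X → S.card < j + 1 →
                (G.induce (((X ∪ S : Finset (Fin n)) : Set (Fin n))ᶜ)).Connected)) →
        (n : ℝ) ≤ c * (k : ℝ) ^ l := by
  refine ⟨400, by norm_num, 3 / 2, by norm_num, ?_⟩
  intro n G k h
  apply Pool.Agent.Helper606.CritThree.real_bound
  obtain ⟨j0, hj0, h0, h0'⟩ := h ∅ (by simp)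
  have hj0' : j0 = k := by simpa using hj0
  subst hj0'
  have hV : j0 < Fintype.card (Fin n) := by simpa using h0.1
  have key : (Fintype.card (Fin n)) ^ 2 ≤ 150003 * j0 ^ 3 := by
    apply Pool.Agent.Helper606.CritThree.order_bound (G := G) hV
    · intro S hS
      have := h0.2 S (Finset.disjoint_empty_right S) hS
      rwa [Finset.empty_union] at this
    · intro X hX
      obtain ⟨j, hj, h2, h3⟩ := h X hX
      have hXk : X.card ≤ j0 := by omega
      have hjk : j = j0 - X.card := by omega
      refine ⟨hXk, ?_⟩
      by_cases hsm : Fintype.card (Fin n) ≤ j0 + 1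
      · exact Or.inl hsm
      · right
        by_contra hcon
        push Not at hcon
        apply h3
        refine ⟨?_, ?_⟩
        · rw [Finset.card_compl]
          omega
        · intro S _ hS
          exact hcon S (by omega)
  simpa using key

end Pool.Agent.S04785
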