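import Pool.Statements.S04787

set_option autoImplicit false
open Pool Pool.MP_155e99_co

namespace Pool.Agent.S04787

open Matrix

theorem amic (k : ℕ) : ∀ p : ℕ, p ≤ 2 ^ k →
    ∃ (ι : Type) (_ : Fintype ι) (_ : DecidableEq ι) (i₀ : ι) (D Q : Matrix ι ι ℤ),
      Fintype.card ι = 2 ^ k ∧ D * Dᵀ = (p : ℤ) • 1 ∧ Q * Qᵀ = ((2 ^ k : ℕ) : ℤ) • 1 ∧
      D * Qᵀ = Q * Dᵀ ∧ (∀ j, Q i₀ j = 1 ∨ Q i₀ j = -1) ∧
      (∀ j, D i₀ j = 0 ∨ D i₀ j = 1 ∨ D i₀ j = -1) := by
  induction k with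
  | zero =>
    intro p hp
    refine ⟨Unit, inferInstance, inferInstance, (), (p : ℤ) • 1, 1, by simp, ?_, by simp, by simp,
      by simp, ?_⟩
    · have : p = 0 ∨ p = 1 := by simp at hp; omega
      rcases this with h | h <;> subst h <;> simp
    · intro j
      have : p = 0 ∨ p = 1 := by simp at hp; omega
      rcases this with h | h <;> subst h <;> simp
  | succ k ih =>
    intro p hp
    have key : ∃ (p' : ℕ) (y : ℤ), p' ≤ 2 ^ k ∧ (y = 0 ∨ y = 1) ∧
        (p : ℤ) = p' + y * ((2 ^ k : ℕ) : ℤ) := by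
      by_cases h : p ≤ 2 ^ k
      · exact ⟨p, 0, h, Or.inl rfl, by simp⟩
      · refine ⟨p - 2 ^ k, 1, ?_, Or.inr rfl, ?_⟩
        · rw [pow_succ] at hp; omega
        · push_cast [Nat.cast_sub (le_of_not_ge h)]; ring
    obtain ⟨p', y, hp', hy, hpy⟩ := key
    obtain ⟨ι, _, _, i₀, D, Q, hc, hD, hQ, hDQ, hq, hd⟩ := ih p' hp'
    have hyy : y * y = y := by rcases hy with h | h <;> subst h <;> simp
    refine ⟨ι ⊕ ι, inferInstance, inferInstance, Sum.inl i₀,
      fromBlocks D (y • Q) (y • Q) (-D), fromBlocks Q (-Q) Q Q, ?_, ?_, ?_, ?_, ?_, ?_⟩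
    · simp [hc, pow_succ]; ring
    · rw [fromBlocks_transpose, fromBlocks_multiply]
      simp only [transpose_smul, transpose_neg, Matrix.mul_smul, Matrix.smul_mul, Matrix.mul_neg,
        Matrix.neg_mul, neg_neg, smul_smul, hD, hQ, hDQ]
      rw [← fromBlocks_one, fromBlocks_smul]
      congr 1
      · rw [← add_smul, hpy, ← mul_assoc, hyy]
      · simp
      · simp
      · rw [add_comm, ← add_smul, hpy, ← mul_assoc, hyy]
    · rw [fromBlocks_transpose, fromBlocks_multiply]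
      simp only [transpose_neg, Matrix.mul_neg, Matrix.neg_mul, neg_neg, hQ]
      rw [← fromBlocks_one, fromBlocks_smul]
      congr 1
      · rw [← add_smul]; congr 1; push_cast; ring
      · simp
      · simp
      · rw [← add_smul]; congr 1; push_cast; ring
    · rw [fromBlocks_transpose, fromBlocks_transpose, fromBlocks_multiply, fromBlocks_multiply]
      simp only [transpose_smul, transpose_neg, Matrix.mul_smul, Matrix.smul_mul, Matrix.mul_neg,
        Matrix.neg_mul, neg_neg, hQ, hDQ]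
      congr 1
      · simp only [smul_neg]
      · module
      · module
    · rintro (j | j)
      · simpa using hq j
      · rcases hq j with h | h <;> simp [h]
    · rintro (j | j)
      · simpa using hd j
      · rcases hy with h | h <;> subst h
        · simp
        · rcases hq j with h | h <;> simp [h]

/-- filler from a matrix of order `d`. -/
theorem filler {d : ℕ} (B : Matrix (Fin d) (Fin d) ℤ) (m : ℤ) (hB : B * Bᵀ = m • 1) (r : ℕ) :
    ∃ F : Matrix (Fin d × Fin r) (Fin d × Fin r) ℤ, F * Fᵀ = m • 1 := by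
  refine ⟨blockDiagonal (fun _ => B), ?_⟩
  rw [blockDiagonal_transpose, ← blockDiagonal_mul]
  simp only [hB]
  have := blockDiagonal_smul (o := Fin r) m (fun _ : Fin r => (1 : Matrix (Fin d) (Fin d) ℤ))
  have h1 := blockDiagonal_one (o := Fin r) (m := Fin d) (α := ℤ)
  rw [show (fun _ : Fin r => m • (1 : Matrix (Fin d) (Fin d) ℤ)) =
    m • (fun _ : Fin r => (1 : Matrix (Fin d) (Fin d) ℤ)) from rfl, this]
  congr 1

theorem two_block (a b : ℤ) : ∃ B : Matrix (Fin 2) (Fin 2) ℤ, B * Bᵀ = (a ^ 2 + b ^ 2) • 1 := by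
  refine ⟨!![a, b; -b, a], ?_⟩
  ext i j
  fin_cases i <;> fin_cases j <;> simp [Matrix.mul_apply, Fin.sum_univ_succ] <;> ring

theorem four_block (a b c d : ℤ) : ∃ B : Matrix (Fin 4) (Fin 4) ℤ,
    B * Bᵀ = (a ^ 2 + b ^ 2 + c ^ 2 + d ^ 2) • 1 := by
  refine ⟨!![a, b, c, d; -b, a, -d, c; -c, d, a, -b; -d, -c, b, a], ?_⟩
  ext i j
  fin_cases i <;> fin_cases j <;> simp [Matrix.mul_apply, Fin.sum_univ_succ] <;> ring


theorem assemble (m k d : ℕ) (hk1 : m ≤ 2 ^ k) (hk2 : 2 ^ k ≤ 2 * m) (hd : d ∣ 2 * m - 2 ^ k)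
    (B : Matrix (Fin d) (Fin d) ℤ) (hB : B * Bᵀ = (m : ℤ) • 1) :
    ∃ (κ : Type) (_ : Fintype κ) (_ : DecidableEq κ) (i₀ : κ) (X : Matrix κ κ ℤ),
      Fintype.card κ = 2 * m ∧ X * Xᵀ = (m : ℤ) • 1 ∧
      (∀ j, X i₀ j = 0 ∨ X i₀ j = 1 ∨ X i₀ j = -1) := by
  obtain ⟨r, hr⟩ := hd
  obtain ⟨F, hF⟩ := filler B m hB r
  obtain ⟨ι, _, _, i₀, D, Q, hc, hD, hQ, hDQ, hq, hdd⟩ := amic k m hk1
  refine ⟨ι ⊕ (Fin d × Fin r), inferInstance, inferInstance, Sum.inl i₀, fromBlocks D 0 0 F,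
    ?_, ?_, ?_⟩
  · simp only [Fintype.card_sum, Fintype.card_prod, Fintype.card_fin, hc]
    omega
  · rw [fromBlocks_transpose, fromBlocks_multiply, ← fromBlocks_one, fromBlocks_smul]
    simp [hD, hF]
  · rintro (j | j)
    · simpa using hdd j
    · simp

/-- integer matrix of order `2 m`, norm `m`, with a row with entries in `{0, 1, -1}`. -/
theorem exX (m : ℕ) (hm : 0 < m)
    (h : Even m ∨ ∃ a b : ℤ, (m : ℤ) = a ^ 2 + b ^ 2) :
    ∃ (κ : Type) (_ : Fintype κ) (_ : DecidableEq κ) (i₀ : κ) (X : Matrix κ κ ℤ),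
      Fintype.card κ = 2 * m ∧ X * Xᵀ = (m : ℤ) • 1 ∧
      (∀ j, X i₀ j = 0 ∨ X i₀ j = 1 ∨ X i₀ j = -1) := by
  obtain ⟨k, hk1, hk2, hk3⟩ : ∃ k, m ≤ 2 ^ k ∧ 2 ^ k ≤ 2 * m ∧ 2 * m < 2 ^ (k + 1) := by
    have := Nat.lt_pow_succ_log_self (b := 2) (by norm_num) (2 * m)
    refine ⟨Nat.log 2 (2 * m), ?_, ?_, this⟩
    · rw [pow_succ] at this
      omega
    · exact Nat.pow_log_le_self 2 (by omega)
  rcases h with h | ⟨a, b, hab⟩
  · obtain ⟨a, b, c, d, habcd⟩ := Nat.sum_four_squares m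
    obtain ⟨B, hB⟩ := four_block a b c d
    refine assemble m k 4 hk1 hk2 ?_ B ?_
    · obtain ⟨t, ht⟩ := h
      have hk : 2 ≤ k := by
        by_contra hlt
        have : k + 1 ≤ 2 := by omega
        have := Nat.pow_le_pow_right (n := 2) (by norm_num) this
        omega
      obtain ⟨l, rfl⟩ := Nat.exists_eq_add_of_le hk
      rw [pow_add]
      omega
    · rw [hB, ← habcd]; push_cast; rfl
  · obtain ⟨B, hB⟩ := two_block a b
    refine assemble m k 2 hk1 hk2 ?_ B ?_
    · have hk : 1 ≤ k := by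
        by_contra hlt
        have : k + 1 ≤ 1 := by omega
        have := Nat.pow_le_pow_right (n := 2) (by norm_num) this
        omega
      obtain ⟨l, rfl⟩ := Nat.exists_eq_add_of_le hk
      rw [pow_add]
      omega
    · rw [hB, ← hab]

/-- integer matrix of order `n = 2 m`, norm `n`, with an all-ones column. -/
theorem exH (m : ℕ) (hm : 0 < m)
    (h : Even m ∨ ∃ a b : ℤ, (m : ℤ) = a ^ 2 + b ^ 2) :
    ∃ (κ : Type) (_ : Fintype κ) (_ : DecidableEq κ) (c₀ : κ) (H : Matrix κ κ ℤ),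
      Fintype.card κ = 2 * m ∧ H * Hᵀ = ((2 * m : ℕ) : ℤ) • 1 ∧
      Hᵀ * H = ((2 * m : ℕ) : ℤ) • 1 ∧ (∀ i, H i c₀ = 1) := by
  obtain ⟨κ, _, _, i₀, X, hc, hX, hx⟩ := exX m hm h
  have hsum : ∑ j, X i₀ j * X i₀ j = m := by
    have := congrFun (congrFun hX i₀) i₀
    simpa [Matrix.mul_apply] using this
  have hcard : Fintype.card {j // X i₀ j ≠ 0} = m := by
    rw [Fintype.card_subtype]
    have h2 : (((Finset.univ.filter (fun j => X i₀ j ≠ 0)).card : ℕ) : ℤ) = m := by
      rw [Finset.card_filter]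
      push_cast
      rw [← hsum]
      refine Finset.sum_congr rfl fun j _ => ?_
      rcases hx j with h | h | h <;> simp [h]
    exact_mod_cast h2
  have hcard2 : Fintype.card {j // ¬ X i₀ j ≠ 0} = m := by
    rw [Fintype.card_subtype_compl, hc, hcard]; omega
  let e1 : Fin m ≃ {j // X i₀ j ≠ 0} := (Fintype.equivFinOfCardEq hcard).symm
  let e2 : Fin m ≃ {j // ¬ X i₀ j ≠ 0} := (Fintype.equivFinOfCardEq hcard2).symm
  let e : Fin m ⊕ Fin m ≃ κ := (Equiv.sumCongr e1 e2).trans (Equiv.sumCompl (fun j => X i₀ j ≠ 0))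
  let Y : Matrix (Fin m ⊕ Fin m) (Fin m ⊕ Fin m) ℤ := X.submatrix e e
  have hY : Y * Yᵀ = (m : ℤ) • 1 := by
    simp only [Y]
    rw [transpose_submatrix, submatrix_mul_equiv, hX]
    ext i j
    simp only [submatrix_apply, Matrix.smul_apply, Matrix.one_apply, e.injective.eq_iff]
  let ε : Fin m → ℤ := fun a => X i₀ (e1 a)
  have hε : ∀ a, ε a * ε a = 1 := by
    intro a
    have hne := (e1 a).2
    rcases hx (e1 a) with h | h | h
    · exact absurd h hne
    · simp only [ε, h]; norm_num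
    · simp only [ε, h]; norm_num
  let T : Matrix (Fin m ⊕ Fin m) (Fin m ⊕ Fin m) ℤ :=
    fromBlocks (diagonal ε) (diagonal ε) 1 (-1)
  have hT : T * Tᵀ = (2 : ℤ) • 1 := by
    simp only [T]
    rw [fromBlocks_transpose, fromBlocks_multiply, ← fromBlocks_one, fromBlocks_smul]
    congr 1
    · rw [diagonal_transpose, diagonal_mul_diagonal]
      simp only [hε]
      rw [show (diagonal fun _ : Fin m => (1 : ℤ)) = 1 from diagonal_one]
      module
    · simp
    · simp
    · simp only [transpose_one, transpose_neg, Matrix.mul_neg, Matrix.mul_one, neg_neg]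
      module
  have hK : (Y * T) * (Y * T)ᵀ = ((2 * m : ℕ) : ℤ) • 1 := by
    rw [transpose_mul, Matrix.mul_assoc, ← Matrix.mul_assoc T, hT, Matrix.smul_mul, Matrix.one_mul,
      Matrix.mul_smul, hY, smul_smul]
    push_cast; rfl
  have hrow : ∀ c, (Y * T) (e.symm i₀) c = 1 := by
    intro c
    rw [Matrix.mul_apply, Fintype.sum_sum_type]
    have hY1 : ∀ a, Y (e.symm i₀) (Sum.inl a) = ε a := by
      intro a; simp [Y, e, ε]
    have hY2 : ∀ a, Y (e.symm i₀) (Sum.inr a) = 0 := by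
      intro a
      have := (e2 a).2
      simp only [ne_eq, not_not] at this
      simp [Y, e, this]
    simp only [hY1, hY2, zero_mul, Finset.sum_const_zero, add_zero]
    rcases c with c | c
    · simp [T, diagonal_apply, hε]
    · simp [T, diagonal_apply, hε]
  have comm : ∀ M : Matrix (Fin m ⊕ Fin m) (Fin m ⊕ Fin m) ℤ,
      M * Mᵀ = ((2 * m : ℕ) : ℤ) • 1 → Mᵀ * M = ((2 * m : ℕ) : ℤ) • 1 := by
    intro M hM
    have hne : (((2 * m : ℕ) : ℤ) : ℚ) ≠ 0 := by
      have : 2 * m ≠ 0 := by omega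
      exact_mod_cast this
    set N : Matrix (Fin m ⊕ Fin m) (Fin m ⊕ Fin m) ℚ := M.map (Int.castRingHom ℚ) with hN
    have h1 : N * Nᵀ = (((2 * m : ℕ) : ℤ) : ℚ) • 1 := by
      have := congrArg (fun Z => Z.map (Int.castRingHom ℚ)) hM
      simp only [Matrix.map_mul] at this
      rw [hN, transpose_map] at *
      rw [this]
      ext i j
      simp only [Matrix.map_apply, Matrix.smul_apply, Matrix.one_apply]
      split_ifs <;> simp
    have h2 : N * ((((2 * m : ℕ) : ℤ) : ℚ)⁻¹ • Nᵀ) = 1 := by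
      rw [Matrix.mul_smul, h1, smul_smul, inv_mul_cancel₀ hne, one_smul]
    have h3 := mul_eq_one_comm.mp h2
    have h4 : Nᵀ * N = (((2 * m : ℕ) : ℤ) : ℚ) • 1 := by
      rw [Matrix.smul_mul] at h3
      rw [← h3, smul_smul, mul_inv_cancel₀ hne, one_smul]
    ext i j
    have h5 := congrFun (congrFun h4 i) j
    simp only [Matrix.mul_apply, hN, transpose_apply, Matrix.map_apply, Matrix.smul_apply,
      Matrix.one_apply] at h5 ⊢
    simp only [eq_intCast, smul_eq_mul] at h5 ⊢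
    exact_mod_cast h5
  refine ⟨Fin m ⊕ Fin m, inferInstance, inferInstance, e.symm i₀, (Y * T)ᵀ, ?_, ?_, ?_, ?_⟩
  · simp; omega
  · rw [transpose_transpose]; exact comm _ hK
  · rw [transpose_transpose]; exact hK
  · intro i; rw [transpose_apply]; exact hrow i

theorem brc (m : ℕ) (hm : 0 < m) (hodd : ¬ Even m) (x y z : ℤ)
    (hne : ¬ (x = 0 ∧ y = 0 ∧ z = 0))
    (h : x ^ 2 = ((2 * m : ℕ) : ℤ) * y ^ 2 + (-1 : ℤ) ^ (((2 * m) ^ 2 + 2 * m) / 2) * z ^ 2) :
    ∃ a b : ℤ, (m : ℤ) = a ^ 2 + b ^ 2 := by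
  have hexp : Odd (((2 * m) ^ 2 + 2 * m) / 2) := by
    have h1 : ((2 * m) ^ 2 + 2 * m) / 2 = 2 * (m * m) + m := by
      rw [show (2 * m) ^ 2 + 2 * m = 2 * (2 * (m * m) + m) by ring]
      exact Nat.mul_div_cancel_left _ (by norm_num)
    rw [h1]
    rw [Nat.not_even_iff_odd] at hodd
    exact (even_two_mul _).add_odd hodd
  rw [hexp.neg_one_pow] at h
  have hy : y ≠ 0 := by
    rintro rfl
    apply hne
    have h1 : x ^ 2 + z ^ 2 = 0 := by linarith
    have h2 : x ^ 2 = 0 := by nlinarith [sq_nonneg x, sq_nonneg z]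
    have h3 : z ^ 2 = 0 := by nlinarith [sq_nonneg x, sq_nonneg z]
    exact ⟨by simpa using h2, rfl, by simpa using h3⟩
  have hN : 2 * m * y.natAbs ^ 2 = x.natAbs ^ 2 + z.natAbs ^ 2 := by
    zify
    rw [sq_abs, sq_abs, sq_abs]
    push_cast at h
    linarith
  have hy0 : y.natAbs ≠ 0 := by simpa using hy
  have h1 := (Nat.eq_sq_add_sq_iff (n := 2 * m * y.natAbs ^ 2)).mp ⟨_, _, hN⟩
  have h2 : ∀ q ∈ m.primeFactors, q % 4 = 3 → Even (padicValNat q m) := by
    intro q hq hq3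
    have hp : q.Prime := Nat.prime_of_mem_primeFactors hq
    have : Fact q.Prime := ⟨hp⟩
    have hmem : q ∈ (2 * m * y.natAbs ^ 2).primeFactors := by
      rw [Nat.mem_primeFactors] at hq ⊢
      refine ⟨hq.1, Dvd.dvd.mul_right (Dvd.dvd.mul_left hq.2.1 2) _, ?_⟩
      positivity
    have h3 := h1 q hmem hq3
    rw [padicValNat.mul (by positivity) (by positivity), padicValNat.mul (by norm_num) (by positivity),
      padicValNat.pow] at h3
    have h4 : padicValNat q 2 = 0 := by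
      apply padicValNat.eq_zero_of_not_dvd
      intro hd
      have := Nat.le_of_dvd (by norm_num) hd
      interval_cases q <;> simp_all
    rw [h4, zero_add] at h3
    have := (Nat.even_add.mp h3).mpr (even_two_mul _)
    exact this
  obtain ⟨a, b, hab⟩ := Nat.eq_sq_add_sq_iff.mpr h2
  exact ⟨a, b, by exact_mod_cast hab⟩

/-- the big matrix, rows indexed by `Unit ⊕ Fin (n+1) × κ`. -/
def big {κ : Type} (N : ℕ) (c₀ : κ) (H : Matrix κ κ ℤ) :
    Matrix (Unit ⊕ (Fin N × κ)) (Unit ⊕ (Fin N ⊕ (Fin N × {j : κ // j ≠ c₀}))) ℤ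
  | Sum.inl _, Sum.inl _ => 0
  | Sum.inl _, Sum.inr (Sum.inl _) => 1
  | Sum.inl _, Sum.inr (Sum.inr _) => 0
  | Sum.inr _, Sum.inl _ => 1
  | Sum.inr r, Sum.inr (Sum.inl g) => if r.1 = g then 1 else 0
  | Sum.inr r, Sum.inr (Sum.inr c) => if r.1 = c.1 then H r.2 c.2 else 0

theorem sum_ne {κ : Type} [Fintype κ] [DecidableEq κ] (c₀ : κ) (f : κ → ℤ) :
    ∑ j : {j : κ // j ≠ c₀}, f j = (∑ j, f j) - f c₀ := by
  rw [Fintype.sum_eq_add_sum_subtype_ne f c₀]
  ring

theorem big_mul {κ : Type} [Fintype κ] [DecidableEq κ] (N : ℕ) (c₀ : κ) (H : Matrix κ κ ℤ)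
    (n : ℤ) (hN : (N : ℤ) = n + 1) (hH : H * Hᵀ = n • 1) (h1 : ∀ i, H i c₀ = 1)
    (r r' : Unit ⊕ (Fin N × κ)) :
    ∑ c, big N c₀ H r c * big N c₀ H r' c = (if r = r' then n else 0) + 1 := by
  have hH' : ∀ i i', ∑ j, H i j * H i' j = if i = i' then n else 0 := by
    intro i i'
    have := congrFun (congrFun hH i) i'
    simpa [Matrix.mul_apply, Matrix.one_apply] using this
  rw [Fintype.sum_sum_type, Fintype.sum_sum_type, Fintype.sum_prod_type]
  rcases r with r | ⟨g, i⟩ <;> rcases r' with r' | ⟨g', i'⟩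
  · simp [big, hN]
  · simp [big]
  · simp [big]
  · simp only [big, Finset.univ_unique, Finset.sum_const, Finset.card_singleton]
    have h2 : ∀ a : Fin N, (∑ c : {j : κ // j ≠ c₀},
        (if g = a then H i c else 0) * (if g' = a then H i' c else 0)) =
        if g = a then (if g' = a then (∑ j, H i j * H i' j) - 1 else 0) else 0 := by
      intro a
      by_cases hg : g = a
      · by_cases hg' : g' = a
        · simp only [hg, hg', if_true]
          rw [sum_ne c₀ (fun j => H i j * H i' j), h1, h1, mul_one]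
        · simp [hg, hg']
      · simp [hg]
    simp only [h2, hH']
    by_cases hgg : g = g'
    · subst hgg
      simp
      ring
    · have : ¬ g' = g := fun h => hgg h.symm
      simp [hgg, this]

theorem big_col {κ : Type} [Fintype κ] [DecidableEq κ] (N : ℕ) (c₀ : κ) (H : Matrix κ κ ℤ)
    (n : ℤ) (hH : Hᵀ * H = n • 1) (h1 : ∀ i, H i c₀ = 1)
    (g : Fin N) (j : {j : κ // j ≠ c₀}) :
    ∑ r, big N c₀ H r (Sum.inr (Sum.inr (g, j))) = 0 := by
  have h2 : ∑ i, H i j = 0 := by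
    have := congrFun (congrFun hH c₀) j
    have hne : ¬ c₀ = j := fun h => j.2 h.symm
    simpa [Matrix.mul_apply, Matrix.one_apply, h1, hne] using this
  rw [Fintype.sum_sum_type, Fintype.sum_prod_type]
  simp only [big]
  rw [Finset.sum_const_zero, zero_add]
  rw [Finset.sum_eq_single g]
  · simpa using h2
  · intro b _ hb
    simp [hb]
  · simp

theorem card_one {τ : Type} [Fintype τ] (f : τ → ℤ) (hf : ∀ i, f i = 0 ∨ f i = 1)
    (N : ℕ) (h : ∑ i, f i = N) : (Finset.univ.filter (fun i => f i = 1)).card = N := by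
  have : (((Finset.univ.filter (fun i => f i = 1)).card : ℕ) : ℤ) = N := by
    rw [Finset.card_filter]
    push_cast
    rw [← h]
    refine Finset.sum_congr rfl fun j _ => ?_
    rcases hf j with h | h <;> simp [h]
  exact_mod_cast this

/-- For every even n ≥ 2 with x² = n·y² + (−1)^((n²+n)/2)·z² nontrivially solvable, some integer (n²+n+1)-square matrix A has A·Aᵀ = nI+J, nonnegative column sums, one 0/1 column with a single zero, n+1 columns with n+1 ones and rest zeros, and all other columns summing to 0. -/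
theorem result :
    ∀ n : ℕ, Even n → 2 ≤ n →
      (∃ x y z : ℤ, ¬ (x = 0 ∧ y = 0 ∧ z = 0) ∧
        x ^ 2 = (n : ℤ) * y ^ 2 + (-1 : ℤ) ^ ((n ^ 2 + n) / 2) * z ^ 2) →
      ∃ A : Matrix (Fin (n ^ 2 + n + 1)) (Fin (n ^ 2 + n + 1)) ℤ,
        (∀ j, 0 ≤ ∑ i, A i j) ∧
        A * A.transpose =
          (n : ℤ) • (1 : Matrix (Fin (n ^ 2 + n + 1)) (Fin (n ^ 2 + n + 1)) ℤ)
            + Matrix.of (fun (_ : Fin (n ^ 2 + n + 1)) (_ : Fin (n ^ 2 + n + 1)) => (1 : ℤ)) ∧
        ∃ j₀ : Fin (n ^ 2 + n + 1), ∃ S : Finset (Fin (n ^ 2 + n + 1)),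
          j₀ ∉ S ∧ S.card = n + 1 ∧
          (∀ i, A i j₀ = 0 ∨ A i j₀ = 1) ∧
          (Finset.univ.filter (fun i => A i j₀ = 0)).card = 1 ∧
          (∀ j ∈ S, (∀ i, A i j = 0 ∨ A i j = 1) ∧
            (Finset.univ.filter (fun i => A i j = 1)).card = n + 1) ∧
          (∀ j, j ≠ j₀ → j ∉ S → ∑ i, A i j = 0) := by
  intro n hn hn2 hbrc
  obtain ⟨m, hm⟩ := hn
  have hnm : n = 2 * m := by omega
  have hmpos : 0 < m := by omega
  have hcond : Even m ∨ ∃ a b : ℤ, (m : ℤ) = a ^ 2 + b ^ 2 := by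
    by_cases he : Even m
    · exact Or.inl he
    · right
      obtain ⟨x, y, z, hne, h⟩ := hbrc
      rw [hnm] at h
      exact brc m hmpos he x y z hne h
  obtain ⟨κ, _, _, c₀, H, hc, hH, hHt, h1⟩ := exH m hmpos hcond
  rw [← hnm] at hc hH hHt
  clear hm
  have hcR : Fintype.card (Unit ⊕ (Fin (n + 1) × κ)) = n ^ 2 + n + 1 := by
    simp only [Fintype.card_sum, Fintype.card_unit, Fintype.card_prod, Fintype.card_fin, hc]
    ring
  have hcC : Fintype.card (Unit ⊕ (Fin (n + 1) ⊕ (Fin (n + 1) × {j : κ // j ≠ c₀}))) =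
      n ^ 2 + n + 1 := by
    have h3 : Fintype.card {j : κ // j ≠ c₀} = n - 1 := by
      rw [← hc]
      simp [Fintype.card_subtype_compl]
    simp only [Fintype.card_sum, Fintype.card_unit, Fintype.card_prod, Fintype.card_fin, h3]
    obtain ⟨l, rfl⟩ := Nat.exists_eq_add_of_le hn2
    rw [show 2 + l - 1 = l + 1 by omega]
    ring
  let eR : Fin (n ^ 2 + n + 1) ≃ Unit ⊕ (Fin (n + 1) × κ) :=
    (Fintype.equivFinOfCardEq hcR).symm
  let eC : Fin (n ^ 2 + n + 1) ≃ Unit ⊕ (Fin (n + 1) ⊕ (Fin (n + 1) × {j : κ // j ≠ c₀})) :=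
    (Fintype.equivFinOfCardEq hcC).symm
  let A : Matrix (Fin (n ^ 2 + n + 1)) (Fin (n ^ 2 + n + 1)) ℤ :=
    fun i j => big (n + 1) c₀ H (eR i) (eC j)
  have hcolsum : ∀ j, ∑ i, A i j = ∑ r, big (n + 1) c₀ H r (eC j) := fun j =>
    Equiv.sum_comp eR (fun r => big (n + 1) c₀ H r (eC j))
  have hs0 : ∑ r, big (n + 1) c₀ H r (Sum.inl ()) = (n : ℤ) ^ 2 + n := by
    rw [Fintype.sum_sum_type, Fintype.sum_prod_type]
    simp [big, hc]
    ring
  have hs1 : ∀ g, ∑ r, big (n + 1) c₀ H r (Sum.inr (Sum.inl g)) = ((n + 1 : ℕ) : ℤ) := by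
    intro g
    rw [Fintype.sum_sum_type, Fintype.sum_prod_type]
    simp only [big]
    have h4 : ∀ x : Fin (n + 1), (∑ _i : κ, if x = g then (1 : ℤ) else 0) =
        if x = g then (n : ℤ) else 0 := by
      intro x
      by_cases hx : x = g <;> simp [hx, hc]
    simp only [h4, Finset.sum_ite_eq', Finset.mem_univ, if_true, Finset.sum_const,
      Finset.card_univ, Fintype.card_unit]
    push_cast
    ring
  have hs2 := big_col (n + 1) c₀ H n hHt h1
  refine ⟨A, ?_, ?_, eC.symm (Sum.inl ()),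
    Finset.univ.image (fun g : Fin (n + 1) => eC.symm (Sum.inr (Sum.inl g))),
    ?_, ?_, ?_, ?_, ?_, ?_⟩
  · intro j
    rw [hcolsum]
    rcases eC j with u | g | ⟨g, c⟩
    · rw [hs0]; positivity
    · rw [hs1]; positivity
    · rw [hs2]
  · ext i i'
    rw [Matrix.mul_apply]
    change ∑ c, big (n + 1) c₀ H (eR i) (eC c) * big (n + 1) c₀ H (eR i') (eC c) = _
    rw [Equiv.sum_comp eC (fun c => big (n + 1) c₀ H (eR i) c * big (n + 1) c₀ H (eR i') c)]
    rw [big_mul (n + 1) c₀ H n (by push_cast; ring) hH h1]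
    rw [Matrix.add_apply, Matrix.smul_apply, Matrix.one_apply, Matrix.of_apply]
    simp only [eR.injective.eq_iff, smul_eq_mul, mul_ite, mul_one, mul_zero]
  · simp
  · rw [Finset.card_image_of_injective _ (by
      intro a b hab
      simpa using hab)]
    simp
  · intro i
    simp only [A, Equiv.apply_symm_apply]
    rcases eR i with u | r <;> simp [big]
  · rw [Finset.card_eq_one]
    refine ⟨eR.symm (Sum.inl ()), ?_⟩
    ext i
    simp only [Finset.mem_filter, Finset.mem_univ, true_and, Finset.mem_singleton, A,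
      Equiv.apply_symm_apply]
    rw [Equiv.eq_symm_apply]
    rcases eR i with u | r <;> simp [big]
  · intro j hj
    simp only [Finset.mem_image, Finset.mem_univ, true_and] at hj
    obtain ⟨g, rfl⟩ := hj
    have h01 : ∀ i, A i (eC.symm (Sum.inr (Sum.inl g))) = 0 ∨
        A i (eC.symm (Sum.inr (Sum.inl g))) = 1 := by
      intro i
      simp only [A, Equiv.apply_symm_apply]
      rcases eR i with u | r
      · simp [big]
      · simp only [big]
        split_ifs <;> simp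
    refine ⟨h01, card_one _ h01 _ ?_⟩
    rw [hcolsum, Equiv.apply_symm_apply, hs1]
  · intro j hj0 hjS
    rw [hcolsum]
    rcases hcj : eC j with u | g | ⟨g, c⟩
    · exact absurd (by rw [← hcj, Equiv.symm_apply_apply]) hj0
    · refine absurd ?_ hjS
      simp only [Finset.mem_image, Finset.mem_univ, true_and]
      exact ⟨g, by rw [← hcj, Equiv.symm_apply_apply]⟩
    · rw [hs2]

end Pool.Agent.S04787
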