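import Pool.Statements.S04792
import Pool.Agent.Helper998.SpreadLfsr

set_option autoImplicit false
open Pool Pool.MP_160273_co

namespace Pool.Agent.S04792

/-- The negation of the preceding statement: Every finite binary matroid that is neither a circuit nor free is edge-reconstructible: any matroid on the same ground set with all single-element deletions isomorphic to those of M is isomorphic to M. -/
theorem result :
    ¬ (∀ (α : Type) (M : Matroid α), M.E.Finite →
      (∃ n : ℕ, ∃ φ : α → (Fin n → ZMod 2),
        ∀ I ⊆ M.E, (M.Indep I ↔ LinearIndependent (ZMod 2) (fun x : I => φ x))) →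
      ¬ (¬ M.Indep M.E ∧ ∀ e ∈ M.E, M.Indep (M.E \ {e})) →
      ¬ M.Indep M.E →
      ∀ N : Matroid α, N.E = M.E →
        (∀ e ∈ M.E, ∃ f : α → α, Set.BijOn f (M.E \ {e}) (M.E \ {e}) ∧
          ∀ I ⊆ M.E \ {e},
            ((M.restrict (M.E \ {e})).Indep I ↔ (N.restrict (M.E \ {e})).Indep (f '' I))) →
        ∃ f : α → α, Set.BijOn f M.E M.E ∧
          ∀ I ⊆ M.E, (M.Indep I ↔ N.Indep (f '' I))) := by
  classical
  intro H
  open Pool.Agent.Helper998.Spread Pool.Agent.Helper998.VecMatroid
    Pool.Agent.Helper998.DualRep in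
  obtain ⟨f, hf, hiso⟩ := H L ((vecMatroid (ZMod 2) (v B1))✶) (Set.toFinite _)
    (by
      obtain ⟨n, φ, h⟩ := dual_rep (F := ZMod 2) (v B1)
      exact ⟨n, φ, fun I _ => h I⟩)
    (by
      rintro ⟨-, h⟩
      have h1 := h e0 (Set.mem_univ _)
      rw [Matroid.dual_ground, vecMatroid_E, dual_indep_iff _ v_span, ← Set.compl_eq_univ_sdiff,
        compl_compl, Set.image_singleton] at h1
      have h2 : v B1 (1, ⟨eps, eps_ne⟩) ∈ Submodule.span (ZMod 2) {v B1 e0} := by
        rw [h1]
        exact Submodule.mem_top
      rw [Submodule.mem_span_singleton] at h2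
      obtain ⟨c, hc⟩ := h2
      have h3 : c • (0 : X) = eps := congrArg Prod.snd hc
      rw [smul_zero] at h3
      exact eps_ne h3.symm)
    (by
      rw [Matroid.dual_ground, vecMatroid_E, dual_indep_iff _ v_span, Set.compl_univ,
        Set.image_empty, Submodule.span_empty]
      intro h
      have h2 : v B1 e0 ∈ (⊥ : Submodule (ZMod 2) V) := by
        rw [h]
        exact Submodule.mem_top
      exact v_ne e0 h2)
    ((vecMatroid (ZMod 2) (v B2))✶) rfl
    (by
      intro e _
      obtain ⟨f, hfe, hf⟩ := deck good1 good2 B_diff e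
      have hE : (((vecMatroid (ZMod 2) (v B1))✶).E \ {e}) = ({e}ᶜ : Set L) := by
        rw [Matroid.dual_ground, vecMatroid_E, Set.compl_eq_univ_sdiff]
      rw [hE]
      have hbij : Set.BijOn f ({e}ᶜ : Set L) ({e}ᶜ : Set L) := by
        refine ⟨?_, f.injective.injOn, ?_⟩
        · intro i hi hfi
          apply hi
          apply f.injective
          rw [hfe]
          exact hfi
        · intro i hi
          refine ⟨f.symm i, ?_, f.apply_symm_apply i⟩
          intro h
          apply hi
          have : f.symm i = e := h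
          rw [Set.mem_singleton_iff, ← f.apply_symm_apply i, this, hfe]
      refine ⟨f, hbij, ?_⟩
      intro I hI
      rw [Matroid.restrict_indep_iff, Matroid.restrict_indep_iff]
      have heI : e ∉ I := fun h => hI h rfl
      have hI2 : f '' I ⊆ ({e}ᶜ : Set L) := by
        rintro _ ⟨i, hi, rfl⟩
        exact hbij.mapsTo (hI hi)
      rw [hf I heI]
      exact ⟨fun h => ⟨h.1, hI2⟩, fun h => ⟨h.1, hI⟩⟩)
  open Pool.Agent.Helper998.Spread Pool.Agent.Helper998.VecMatroid
    Pool.Agent.Helper998.DualRep in
  have hbij : Function.Bijective f := by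
    rw [← Set.bijOn_univ]
    exact hf
  exact Pool.Agent.Helper998.Spread.no_iso (Equiv.ofBijective f hbij)
    (fun I => hiso I (Set.subset_univ _))

end Pool.Agent.S04792
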