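import Pool.Statements.S04802

set_option autoImplicit false
open Pool Pool.MP_163cb0_co

namespace Pool.Agent.S04802

/-- out-neighbours of the 13 vertices of the counterexample -/
def out : Fin 13 → List (Fin 13) :=
  ![[1, 3], [2, 4], [0, 5], [1, 6], [2, 7], [0, 8], [9], [10], [11], [3, 10, 12], [4, 11, 12],
    [5, 9, 12], []]

/-- the digraph on 13 vertices -/
def D : Digraph (Fin 13) := ⟨fun u v => v ∈ out u⟩

/-- no path with k further steps leaves v avoiding the vertices in the list used -/
def noPath : ℕ → List (Fin 13) → Fin 13 → Bool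
  | 0, _, _ => false
  | k + 1, used, v => (out v).all fun w => used.elem w || noPath k (w :: used) w

theorem sound (k : ℕ) : ∀ (used : List (Fin 13)) (v : Fin 13), noPath k used v = true →
    ∀ q : ℕ → Fin 13, q 0 = v → (∀ i < k, q (i + 1) ∈ out (q i)) →
    (∀ i, 1 ≤ i → i ≤ k → q i ∉ used) →
    (∀ i j, i ≤ k → j ≤ k → q i = q j → i = j) → False := by
  induction k with
  | zero => intro used v h; simp [noPath] at h
  | succ k ih =>
    intro used v h q h0 hadj hnot hinj
    simp only [noPath, List.all_eq_true] at h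
    have hw := h (q 1) (by have := hadj 0 (by omega); rwa [h0] at this)
    rw [Bool.or_eq_true] at hw
    rcases hw with hw | hw
    · exact hnot 1 le_rfl (by omega) (by simpa using hw)
    · refine ih (q 1 :: used) (q 1) hw (fun i => q (i + 1)) rfl ?_ ?_ ?_
      · intro i hi
        exact hadj (i + 1) (by omega)
      · intro i h1 h2
        rw [List.mem_cons, not_or]
        refine ⟨fun he => ?_, hnot (i + 1) (by omega) (by omega)⟩
        have := hinj _ _ (by omega) (by omega) he
        omega
      · intro i j hi hj he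
        have := hinj _ _ (by omega) (by omega) he
        omega

theorem check1 : ∀ v : Fin 13, noPath 11 [v] v = true := by decide +kernel

theorem check2 : ∀ v : Fin 13, 3 ≤ v.val → noPath 10 [v] v = true := by decide +kernel

theorem path_bound (k : ℕ) (m : ℕ) (hk : k ≤ m) (q : Fin (m + 1) → Fin 13)
    (hq : Function.Injective q) (hadj : ∀ i : Fin m, D.Adj (q i.castSucc) (q i.succ)) :
    noPath k [q 0] (q 0) = false := by
  by_contra hne
  have h : noPath k [q 0] (q 0) = true := by simpa using hne
  refine sound k [q 0] (q 0) h (fun i => if hi : i < m + 1 then q ⟨i, hi⟩ else 0) ?_ ?_ ?_ ?_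
  · simp
  · intro i hi
    have h1 : i < m := by omega
    have h2 : i < m + 1 := by omega
    have h3 : i + 1 < m + 1 := by omega
    simp only [h2, h3, dif_pos]
    exact hadj ⟨i, h1⟩
  · intro i h1 h2
    have h3 : i < m + 1 := by omega
    simp only [h3, dif_pos, List.mem_singleton]
    intro he
    have := congrArg Fin.val (hq he)
    simp at this
    omega
  · intro i j hi hj he
    have h3 : i < m + 1 := by omega
    have h4 : j < m + 1 := by omega
    simp only [h3, h4, dif_pos] at he
    exact congrArg Fin.val (hq he)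

theorem le_ten (m : ℕ) (q : Fin (m + 1) → Fin 13)
    (hq : Function.Injective q) (hadj : ∀ i : Fin m, D.Adj (q i.castSucc) (q i.succ)) :
    m ≤ 10 := by
  by_contra h
  have := path_bound 11 m (by omega) q hq hadj
  rw [check1] at this
  exact absurd this (by simp)

theorem start (m : ℕ) (hm : 10 ≤ m) (q : Fin (m + 1) → Fin 13)
    (hq : Function.Injective q) (hadj : ∀ i : Fin m, D.Adj (q i.castSucc) (q i.succ)) :
    (q 0).val < 3 := by
  by_contra h
  have := path_bound 10 m hm q hq hadj
  rw [check2 _ (by omega)] at this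
  exact absurd this (by simp)

/-- three longest paths: the first misses 1, the second misses 2, the third misses 0 -/
def pa : Fin 11 → Fin 13 := ![0, 3, 6, 9, 10, 4, 2, 5, 8, 11, 12]
def pb : Fin 11 → Fin 13 := ![1, 4, 7, 10, 11, 5, 0, 3, 6, 9, 12]
def pc : Fin 11 → Fin 13 := ![2, 5, 8, 11, 9, 3, 1, 4, 7, 10, 12]

theorem adj_pa : ∀ i : Fin 10, pa i.succ ∈ out (pa i.castSucc) := by decide +kernel
theorem adj_pb : ∀ i : Fin 10, pb i.succ ∈ out (pb i.castSucc) := by decide +kernel
theorem adj_pc : ∀ i : Fin 10, pc i.succ ∈ out (pc i.castSucc) := by decide +kernel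
theorem inj_pa : Function.Injective pa := by unfold Function.Injective; decide +kernel
theorem inj_pb : Function.Injective pb := by unfold Function.Injective; decide +kernel
theorem inj_pc : Function.Injective pc := by unfold Function.Injective; decide +kernel

/-- The negation of the preceding statement: Every finite digraph has a set S of vertices, with no arc between any two distinct members, that meets every longest directed path and such that each member of S is the first vertex of some longest directed path. -/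
theorem result :
    ¬ (∀ (V : Type) [Fintype V] (D : Digraph V),
      ∃ S : Set V,
        (∀ u ∈ S, ∀ v ∈ S, u ≠ v → ¬ D.Adj u v) ∧
        (∀ (n : ℕ) (p : Fin (n + 1) → V),
            (Function.Injective p ∧
              (∀ i : Fin n, D.Adj (p i.castSucc) (p i.succ)) ∧
              ∀ (m : ℕ) (q : Fin (m + 1) → V), Function.Injective q →
                (∀ i : Fin m, D.Adj (q i.castSucc) (q i.succ)) → m ≤ n) →
            ∃ i : Fin (n + 1), p i ∈ S) ∧
        (∀ s ∈ S, ∃ (n : ℕ) (p : Fin (n + 1) → V),
            (Function.Injective p ∧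
              (∀ i : Fin n, D.Adj (p i.castSucc) (p i.succ)) ∧
              ∀ (m : ℕ) (q : Fin (m + 1) → V), Function.Injective q →
                (∀ i : Fin m, D.Adj (q i.castSucc) (q i.succ)) → m ≤ n) ∧
            p 0 = s)) := by
  intro H
  obtain ⟨S, hind, hmeet, hinit⟩ := H (Fin 13) D
  have hS : ∀ s ∈ S, s.val < 3 := by
    intro s hs
    obtain ⟨n, p, ⟨hp, hadj, hmax⟩, h0⟩ := hinit s hs
    have h10 : 10 ≤ n := hmax 10 pa inj_pa adj_pa
    have := start n h10 p hp hadj
    rwa [h0] at this
  obtain ⟨i, hi⟩ := hmeet 10 pa ⟨inj_pa, adj_pa, fun m q hq hadj => le_ten m q hq hadj⟩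
  obtain ⟨j, hj⟩ := hmeet 10 pb ⟨inj_pb, adj_pb, fun m q hq hadj => le_ten m q hq hadj⟩
  obtain ⟨k, hk⟩ := hmeet 10 pc ⟨inj_pc, adj_pc, fun m q hq hadj => le_ten m q hq hadj⟩
  have ha : ∀ i : Fin 11, (pa i).val < 3 → pa i = 0 ∨ pa i = 2 := by decide +kernel
  have hb : ∀ i : Fin 11, (pb i).val < 3 → pb i = 0 ∨ pb i = 1 := by decide +kernel
  have hc : ∀ i : Fin 11, (pc i).val < 3 → pc i = 1 ∨ pc i = 2 := by decide +kernel
  have e01 : (0 : Fin 13) ∈ S → (1 : Fin 13) ∈ S → False := fun h h' =>
    hind 0 h 1 h' (by decide) (show (1 : Fin 13) ∈ out 0 by decide)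
  have e12 : (1 : Fin 13) ∈ S → (2 : Fin 13) ∈ S → False := fun h h' =>
    hind 1 h 2 h' (by decide) (show (2 : Fin 13) ∈ out 1 by decide)
  have e20 : (2 : Fin 13) ∈ S → (0 : Fin 13) ∈ S → False := fun h h' =>
    hind 2 h 0 h' (by decide) (show (0 : Fin 13) ∈ out 2 by decide)
  rcases ha i (hS _ hi) with h1 | h1 <;> rcases hb j (hS _ hj) with h2 | h2 <;>
    rcases hc k (hS _ hk) with h3 | h3 <;> rw [h1] at hi <;> rw [h2] at hj <;> rw [h3] at hk <;>
    first
      | exact e01 ‹_› ‹_›
      | exact e12 ‹_› ‹_›
      | exact e20 ‹_› ‹_›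

end Pool.Agent.S04802
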