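import Pool.Statements.S04808

set_option autoImplicit false
open Classical
open Pool Pool.MP_16a663_co

namespace Pool.Agent.S04808

/-- Expansion of an integer vector in base `B`. -/
def pw (B : ℤ) {d : ℕ} (w : Fin d → ℤ) : ℤ := ∑ i : Fin d, w i * B ^ (i : ℕ)

lemma pw_sub (B : ℤ) {d : ℕ} (u v : Fin d → ℤ) : pw B (u - v) = pw B u - pw B v := by
  simp [pw, sub_mul, Finset.sum_sub_distrib]

lemma pw_add (B : ℤ) {d : ℕ} (u v : Fin d → ℤ) : pw B (u + v) = pw B u + pw B v := by
  simp [pw, add_mul, Finset.sum_add_distrib]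

lemma pw_succ (B : ℤ) {d : ℕ} (c : Fin (d + 1) → ℤ) :
    pw B c = c 0 + B * pw B (fun i : Fin d => c i.succ) := by
  simp only [pw, Fin.sum_univ_succ, Fin.val_zero, pow_zero, mul_one, Fin.val_succ, Finset.mul_sum]
  congr 1
  apply Finset.sum_congr rfl
  intro i _
  ring

lemma pw_eq_zero (B : ℤ) : ∀ (d : ℕ) (c : Fin d → ℤ), (∀ i, 2 * |c i| < B) → pw B c = 0 →
    ∀ i, c i = 0 := by
  intro d
  induction d with
  | zero => intro c _ _ i; exact i.elim0
  | succ d ih =>
    intro c hc h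
    rw [pw_succ] at h
    have h0 : c 0 = 0 := by
      have hdvd : B ∣ c 0 := ⟨- pw B (fun i : Fin d => c i.succ), by linarith⟩
      apply Int.eq_zero_of_abs_lt_dvd hdvd
      have := hc 0
      have h2 := abs_nonneg (c 0)
      linarith
    have hB : B ≠ 0 := by
      have := hc 0
      have h2 := abs_nonneg (c 0)
      intro h; linarith
    have h1 : pw B (fun i : Fin d => c i.succ) = 0 := by
      rw [h0, zero_add] at h
      exact (mul_eq_zero.mp h).resolve_left hB
    intro i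
    refine Fin.cases h0 ?_ i
    intro j
    exact ih (fun i => c i.succ) (fun i => hc i.succ) h1 j

lemma two_abs_pw_lt (B : ℤ) : ∀ (d : ℕ) (c : Fin d → ℤ), (∀ i, 2 * |c i| < B) →
    2 * |pw B c| < B ^ d := by
  intro d
  induction d with
  | zero => intro c _; simp [pw]
  | succ d ih =>
    intro c hc
    have h0 := hc 0
    have hBpos : 0 < B := by
      have h2 := abs_nonneg (c 0)
      linarith
    have h1 := ih (fun i => c i.succ) (fun i => hc i.succ)
    rw [pw_succ]
    have h3 : |c 0 + B * pw B (fun i : Fin d => c i.succ)| ≤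
        |c 0| + B * |pw B (fun i : Fin d => c i.succ)| := by
      refine (abs_add_le _ _).trans ?_
      rw [abs_mul, abs_of_pos hBpos]
    have h4 : 2 * |pw B (fun i : Fin d => c i.succ)| + 1 ≤ B ^ d := by omega
    have h5 : B * (2 * |pw B (fun i : Fin d => c i.succ)| + 1) ≤ B * B ^ d :=
      mul_le_mul_of_nonneg_left h4 hBpos.le
    rw [pow_succ]
    nlinarith

/-- If the two expansions of `w` and `w'` are proportional then `w` and `w'` are. -/
lemma parallel (B : ℤ) (d : ℕ) (w w' : Fin d → ℤ) (M : ℤ)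
    (hw : ∀ i, |w i| ≤ M) (hw' : ∀ i, |w' i| ≤ M) (hB : 4 * M ^ 2 < B)
    (h : pw B w * pw (B ^ d) w' = pw B w' * pw (B ^ d) w) :
    ∀ i j, w i * w' j = w' i * w j := by
  have key : pw (B ^ d) (fun j => pw B (fun i => w i * w' j - w' i * w j)) = 0 := by
    have : pw (B ^ d) (fun j => pw B (fun i => w i * w' j - w' i * w j)) =
        pw B w * pw (B ^ d) w' - pw B w' * pw (B ^ d) w := by
      simp only [pw, Finset.sum_mul, ← Finset.sum_sub_distrib]
      rw [Finset.sum_comm]
      apply Finset.sum_congr rfl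
      intro i _
      rw [Finset.mul_sum, Finset.mul_sum, ← Finset.sum_sub_distrib]
      apply Finset.sum_congr rfl
      intro j _
      ring
    rw [this, h, sub_self]
  have hbound : ∀ i j, 2 * |w i * w' j - w' i * w j| < B := by
    intro i j
    have h1 : |w i * w' j| ≤ M * M := by
      rw [abs_mul]
      exact mul_le_mul (hw i) (hw' j) (abs_nonneg _) ((abs_nonneg _).trans (hw i))
    have h2 : |w' i * w j| ≤ M * M := by
      rw [abs_mul]
      exact mul_le_mul (hw' i) (hw j) (abs_nonneg _) ((abs_nonneg _).trans (hw i))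
    have h3 : |w i * w' j - w' i * w j| ≤ |w i * w' j| + |w' i * w j| := abs_sub _ _
    nlinarith
  have h1 := pw_eq_zero (B ^ d) d _ (fun j => two_abs_pw_lt B d _ (fun i => hbound i j)) key
  intro i j
  have h2 : w i * w' j - w' i * w j = 0 := pw_eq_zero B d _ (fun i => hbound i j) (h1 j) i
  linarith

/-- Parallel vectors of equal nonzero norm agree up to sign. -/
lemma eq_or_neg (d : ℕ) (w w' : Fin d → ℤ) (h : ∀ i j, w i * w' j = w' i * w j)
    (hn : ∑ i, w i ^ 2 = ∑ i, w' i ^ 2) : w = w' ∨ w = -w' := by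
  set A := ∑ i, w i ^ 2 with hA
  set D := ∑ i, w i * w' i with hD
  have h1 : ∀ i, w i * A = w' i * D := by
    intro i
    rw [hn, hD, Finset.mul_sum, Finset.mul_sum]
    apply Finset.sum_congr rfl
    intro j _
    have := h i j
    calc w i * w' j ^ 2 = (w i * w' j) * w' j := by ring
      _ = (w' i * w j) * w' j := by rw [this]
      _ = w' i * (w j * w' j) := by ring
  have h2 : A * A = D * D := by
    have : ∑ i, w i * (w i * A) = ∑ i, w i * (w' i * D) := by
      apply Finset.sum_congr rfl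
      intro i _
      rw [h1 i]
    have e1 : ∑ i, w i * (w i * A) = A * A := by
      conv_rhs => rw [hA, Finset.sum_mul]
      apply Finset.sum_congr rfl
      intro i _; ring
    have e2 : ∑ i, w i * (w' i * D) = D * D := by
      conv_rhs => rw [hD, Finset.sum_mul]
      apply Finset.sum_congr rfl
      intro i _; ring
    rw [← e1, ← e2, this]
  by_cases hA0 : A = 0
  · left
    have hw0 : ∀ i, w i = 0 := by
      intro i
      have := (Finset.sum_eq_zero_iff_of_nonneg (fun i _ => sq_nonneg (w i))).mp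
        (hA.symm.trans hA0) i (Finset.mem_univ i)
      exact pow_eq_zero_iff (two_ne_zero) |>.mp this
    have hw0' : ∀ i, w' i = 0 := by
      intro i
      have := (Finset.sum_eq_zero_iff_of_nonneg (fun i _ => sq_nonneg (w' i))).mp
        (hn.symm.trans hA0) i (Finset.mem_univ i)
      exact pow_eq_zero_iff (two_ne_zero) |>.mp this
    funext i
    rw [hw0, hw0']
  · rcases mul_self_eq_mul_self_iff.mp h2 with h3 | h3
    · left
      funext i
      have := h1 i
      rw [← h3] at this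
      exact mul_right_cancel₀ hA0 this
    · right
      funext i
      have := h1 i
      have h4 : D = -A := by linarith
      rw [h4] at this
      have h5 : w i * A = (- w' i) * A := by linarith
      simpa using mul_right_cancel₀ hA0 h5

lemma mem_bis (a b c : EuclideanSpace ℝ (Fin 2)) :
    c ∈ AffineSubspace.perpBisector a b ↔
      2 * (c 0 * (b 0 - a 0) + c 1 * (b 1 - a 1)) = b 0 ^ 2 + b 1 ^ 2 - a 0 ^ 2 - a 1 ^ 2 := by
  rw [AffineSubspace.mem_perpBisector_iff_dist_eq, EuclideanSpace.dist_eq, EuclideanSpace.dist_eq,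
    Real.sqrt_inj (by positivity) (by positivity)]
  simp only [Fin.sum_univ_two, Real.dist_eq, sq_abs]
  constructor <;> intro h <;> nlinarith

lemma bis_eq (a b x y : EuclideanSpace ℝ (Fin 2))
    (h : AffineSubspace.perpBisector a b = AffineSubspace.perpBisector x y) :
    (x 0 + y 0 - (a 0 + b 0)) * (b 0 - a 0) + (x 1 + y 1 - (a 1 + b 1)) * (b 1 - a 1) = 0 ∧
    (b 0 - a 0) * (y 1 - x 1) = (y 0 - x 0) * (b 1 - a 1) := by
  have hm : ∀ c : EuclideanSpace ℝ (Fin 2), c ∈ AffineSubspace.perpBisector a b ↔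
      c ∈ AffineSubspace.perpBisector x y := by intro c; rw [h]
  constructor
  · have h1 := (hm !₂[(x 0 + y 0) / 2, (x 1 + y 1) / 2]).mpr (by
      rw [mem_bis]; simp; ring)
    rw [mem_bis] at h1
    simp at h1
    linarith
  · have h1 := (hm !₂[(a 0 + b 0) / 2, (a 1 + b 1) / 2]).mp (by
      rw [mem_bis]; simp; ring)
    have h2 := (hm !₂[(a 0 + b 0) / 2 - (b 1 - a 1), (a 1 + b 1) / 2 + (b 0 - a 0)]).mp (by
      rw [mem_bis]; simp; ring)
    rw [mem_bis] at h1 h2
    simp at h1 h2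
    linarith

/-- The embedding of the integer lattice of rank 8 into the plane. -/
noncomputable def pt (B : ℤ) (x : Fin 8 → ℤ) : EuclideanSpace ℝ (Fin 2) :=
  !₂[(pw B x : ℝ), √(√2) * (pw (B ^ 8) x : ℝ)]

lemma ss : √(√2) * √(√2) = √2 := Real.mul_self_sqrt (Real.sqrt_nonneg 2)

lemma ss_pos : 0 < √(√2) := Real.sqrt_pos.mpr (Real.sqrt_pos.mpr two_pos)

lemma irr (m n : ℤ) (h : (m : ℝ) + √2 * (n : ℝ) = 0) : m = 0 := by
  by_contra hm
  have hn : n ≠ 0 := by
    rintro rfl
    simp at h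
    exact hm h
  have hirr := irrational_sqrt_two
  apply hirr
  refine ⟨-(m : ℚ) / n, ?_⟩
  have hn' : (n : ℝ) ≠ 0 := by exact_mod_cast hn
  push_cast
  field_simp
  linarith

/-- Two pairs of lattice points on one sphere with the same bisector coincide. -/
lemma bis_pt (M : ℤ) (B : ℤ) (hB : 8 * M ^ 2 + 8 * M < B) (a b x y : Fin 8 → ℤ)
    (ha : ∀ i, 0 ≤ a i ∧ a i ≤ M) (hb : ∀ i, 0 ≤ b i ∧ b i ≤ M)
    (hx : ∀ i, 0 ≤ x i ∧ x i ≤ M) (hy : ∀ i, 0 ≤ y i ∧ y i ≤ M)
    (R : ℤ) (hna : ∑ i, a i ^ 2 = R) (hnb : ∑ i, b i ^ 2 = R)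
    (hnx : ∑ i, x i ^ 2 = R) (hny : ∑ i, y i ^ 2 = R)
    (hab : a ≠ b)
    (h : AffineSubspace.perpBisector (pt B a) (pt B b) =
      AffineSubspace.perpBisector (pt B x) (pt B y)) :
    (a = x ∧ b = y) ∨ (a = y ∧ b = x) := by
  have hM : 0 ≤ M := (ha 0).1.trans (ha 0).2
  obtain ⟨h1, h2⟩ := bis_eq _ _ _ _ h
  simp only [pt, PiLp.toLp_apply, Matrix.cons_val_zero, Matrix.cons_val_one] at h1 h2
  -- the midpoints agree
  have h3 : ((pw B (x + y - (a + b)) * pw B (b - a) : ℤ) : ℝ) +
      √2 * ((pw (B ^ 8) (x + y - (a + b)) * pw (B ^ 8) (b - a) : ℤ) : ℝ) = 0 := by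
    rw [pw_sub, pw_add, pw_add, pw_sub, pw_sub, pw_add, pw_add, pw_sub, ← ss]
    push_cast
    linarith
  have h4 := irr _ _ h3
  have hBM : 2 * M < B := by nlinarith
  have hBM4 : 4 * M < B := by nlinarith
  have h5 : pw B (x + y - (a + b)) = 0 := by
    rcases mul_eq_zero.mp h4 with h5 | h5
    · exact h5
    · exfalso
      apply hab
      have h6 := pw_eq_zero B 8 _ (fun i => ?_) h5
      · funext i
        have := h6 i
        simp only [Pi.sub_apply] at this
        linarith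
      · simp only [Pi.sub_apply]
        have h7 : |b i - a i| ≤ M := by
          rw [abs_le]
          constructor <;> linarith [(ha i).1, (ha i).2, (hb i).1, (hb i).2]
        linarith
  have h6 : ∀ i, x i + y i = a i + b i := by
    have h6 := pw_eq_zero B 8 _ (fun i => ?_) h5
    · intro i
      have := h6 i
      simp only [Pi.sub_apply, Pi.add_apply] at this
      linarith
    · simp only [Pi.sub_apply, Pi.add_apply]
      have h7 : |x i + y i - (a i + b i)| ≤ 2 * M := by
        rw [abs_le]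
        constructor <;> linarith [(ha i).1, (ha i).2, (hb i).1, (hb i).2, (hx i).1, (hx i).2,
          (hy i).1, (hy i).2]
      linarith
  -- the directions agree
  have h7 : pw B (b - a) * pw (B ^ 8) (y - x) = pw B (y - x) * pw (B ^ 8) (b - a) := by
    have h8 : ((pw B (b - a) * pw (B ^ 8) (y - x) : ℤ) : ℝ) =
        ((pw B (y - x) * pw (B ^ 8) (b - a) : ℤ) : ℝ) := by
      rw [pw_sub, pw_sub, pw_sub, pw_sub]
      push_cast
      have h9 : √(√2) * (((pw B b : ℝ) - pw B a) * ((pw (B ^ 8) y : ℝ) - pw (B ^ 8) x)) =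
          √(√2) * (((pw B y : ℝ) - pw B x) * ((pw (B ^ 8) b : ℝ) - pw (B ^ 8) a)) := by
        linarith
      exact mul_left_cancel₀ ss_pos.ne' h9
    exact_mod_cast h8
  have h8 := parallel B 8 (b - a) (y - x) M (fun i => ?_) (fun i => ?_) (by nlinarith) h7
  rotate_left
  · simp only [Pi.sub_apply]
    rw [abs_le]
    constructor <;> linarith [(ha i).1, (ha i).2, (hb i).1, (hb i).2]
  · simp only [Pi.sub_apply]
    rw [abs_le]
    constructor <;> linarith [(hx i).1, (hx i).2, (hy i).1, (hy i).2]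
  have h9 : ∑ i, (b - a) i ^ 2 = ∑ i, (y - x) i ^ 2 := by
    have e1 : ∑ i, (b - a) i ^ 2 = 4 * R - ∑ i, (a i + b i) ^ 2 := by
      have : ∑ i, (b - a) i ^ 2 + ∑ i, (a i + b i) ^ 2 = 2 * ∑ i, a i ^ 2 + 2 * ∑ i, b i ^ 2 := by
        rw [← Finset.sum_add_distrib, Finset.mul_sum, Finset.mul_sum, ← Finset.sum_add_distrib]
        apply Finset.sum_congr rfl
        intro i _
        simp only [Pi.sub_apply]
        ring
      rw [hna, hnb] at this
      linarith
    have e2 : ∑ i, (y - x) i ^ 2 = 4 * R - ∑ i, (a i + b i) ^ 2 := by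
      have : ∑ i, (y - x) i ^ 2 + ∑ i, (a i + b i) ^ 2 = 2 * ∑ i, x i ^ 2 + 2 * ∑ i, y i ^ 2 := by
        rw [← Finset.sum_add_distrib, Finset.mul_sum, Finset.mul_sum, ← Finset.sum_add_distrib]
        apply Finset.sum_congr rfl
        intro i _
        simp only [Pi.sub_apply]
        rw [← h6 i]
        ring
      rw [hnx, hny] at this
      linarith
    rw [e1, e2]
  rcases eq_or_neg 8 _ _ h8 h9 with h10 | h10
  · left
    constructor <;> funext i <;> have h11 := congrFun h10 i <;>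
      simp only [Pi.sub_apply] at h11 <;> linarith [h6 i]
  · right
    constructor <;> funext i <;> have h11 := congrFun h10 i <;>
      simp only [Pi.sub_apply, Pi.neg_apply] at h11 <;> linarith [h6 i]

lemma pt_inj (M : ℤ) (B : ℤ) (hB : 8 * M ^ 2 + 8 * M < B) (a b : Fin 8 → ℤ)
    (ha : ∀ i, 0 ≤ a i ∧ a i ≤ M) (hb : ∀ i, 0 ≤ b i ∧ b i ≤ M)
    (h : pt B a = pt B b) : a = b := by
  have hM : 0 ≤ M := (ha 0).1.trans (ha 0).2
  have h1 : (pt B a) 0 = (pt B b) 0 := by rw [h]
  simp only [pt, PiLp.toLp_apply, Matrix.cons_val_zero] at h1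
  have h2 : pw B a = pw B b := by exact_mod_cast h1
  have h3 : pw B (a - b) = 0 := by rw [pw_sub, h2, sub_self]
  have h4 := pw_eq_zero B 8 _ (fun i => ?_) h3
  · funext i
    have := h4 i
    simp only [Pi.sub_apply] at this
    linarith
  · simp only [Pi.sub_apply]
    have h7 : |a i - b i| ≤ M := by
      rw [abs_le]
      constructor <;> linarith [(ha i).1, (ha i).2, (hb i).1, (hb i).2]
    nlinarith

noncomputable def gd (B : ℤ) (w : Fin 8 → ℤ) : ℝ :=
  √((pw B w : ℝ) ^ 2 + (√(√2) * (pw (B ^ 8) w : ℝ)) ^ 2)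

lemma dist_pt (B : ℤ) (a b : Fin 8 → ℤ) : dist (pt B a) (pt B b) = gd B (a - b) := by
  rw [EuclideanSpace.dist_eq, gd]
  congr 1
  simp only [Fin.sum_univ_two, Real.dist_eq, sq_abs, pt, PiLp.toLp_apply, Matrix.cons_val_zero,
    Matrix.cons_val_one, pw_sub]
  push_cast
  ring

/-- The negation of the preceding statement: For every ε>0 there are c>0 and N such that every set of n≥N plane points in which distinct pairs have distinct perpendicular bisectors determines at least c·n^(2−ε) distinct distances. -/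
theorem result :
    ¬ (∀ ε : ℝ, 0 < ε → ∃ c : ℝ, 0 < c ∧ ∃ N : ℕ,
      ∀ P : Finset (EuclideanSpace ℝ (Fin 2)), N ≤ P.card →
        (∀ a ∈ P, ∀ b ∈ P, ∀ x ∈ P, ∀ y ∈ P, a ≠ b → x ≠ y →
          AffineSubspace.perpBisector a b = AffineSubspace.perpBisector x y →
            (a = x ∧ b = y) ∨ (a = y ∧ b = x)) →
        c * (P.card : ℝ) ^ (2 - ε) ≤
          ((P.offDiag.image (fun q => dist q.1 q.2)).card : ℝ)) := by
  intro H
  obtain ⟨c, hc, N0, hP⟩ := H (1 / 2) (by norm_num)
  obtain ⟨M0, hM0⟩ := exists_nat_gt (390625 / c)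
  set M : ℕ := max (max M0 N0) 1 with hMdef
  have hM1 : 1 ≤ M := le_max_right _ _
  have hMN : N0 ≤ M := (le_max_right _ _).trans (le_max_left _ _)
  have hMM0 : (M0 : ℝ) ≤ M := by
    exact_mod_cast (le_max_left M0 N0).trans (le_max_left _ _)
  have hcM : 390625 < c * M := by
    have h1 : 390625 / c < M := lt_of_lt_of_le hM0 hMM0
    rw [div_lt_iff₀ hc] at h1
    linarith
  set L : ℤ := 2 * (M : ℤ) with hL
  set B : ℤ := 8 * L ^ 2 + 8 * L + 1 with hBdef
  have hB : 8 * L ^ 2 + 8 * L < B := by omega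
  set X : Finset (Fin 8 → ℤ) := Fintype.piFinset (fun _ => Finset.Ico (0 : ℤ) L) with hX
  have hXcard : X.card = (2 * M) ^ 8 := by
    rw [hX, Fintype.card_piFinset]
    simp [hL]
    omega
  have hmaps : ∀ x ∈ X, ∑ i, x i ^ 2 ∈ Finset.Ico (0 : ℤ) (8 * L ^ 2) := by
    intro x hx
    rw [hX, Fintype.mem_piFinset] at hx
    rw [Finset.mem_Ico]
    constructor
    · exact Finset.sum_nonneg (fun i _ => sq_nonneg _)
    · calc ∑ i, x i ^ 2 < ∑ i : Fin 8, L ^ 2 := by
            apply Finset.sum_lt_sum_of_nonempty Finset.univ_nonempty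
            intro i _
            have := hx i
            rw [Finset.mem_Ico] at this
            nlinarith
        _ = 8 * L ^ 2 := by simp
  have hcardt : (Finset.Ico (0 : ℤ) (8 * L ^ 2)).card = 32 * M ^ 2 := by
    rw [Int.card_Ico, hL]
    have : (8 * (2 * (M : ℤ)) ^ 2 - 0) = ((32 * M ^ 2 : ℕ) : ℤ) := by push_cast; ring
    rw [this, Int.toNat_natCast]
  obtain ⟨R, -, hR⟩ := Finset.exists_le_card_fiber_of_mul_le_card_of_maps_to hmaps
    (by
      refine ⟨0, ?_⟩
      rw [Finset.mem_Ico]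
      refine ⟨le_refl _, ?_⟩
      have : (0 : ℤ) < L := by omega
      positivity)
    (n := 8 * M ^ 6) (by rw [hcardt, hXcard]; apply le_of_eq; ring)
  set S : Finset (Fin 8 → ℤ) := X.filter (fun x => ∑ i, x i ^ 2 = R) with hS
  have hSmem : ∀ x ∈ S, (∀ i, 0 ≤ x i ∧ x i ≤ L) ∧ ∑ i, x i ^ 2 = R := by
    intro x hx
    rw [hS, Finset.mem_filter, hX, Fintype.mem_piFinset] at hx
    refine ⟨fun i => ?_, hx.2⟩
    have := hx.1 i
    rw [Finset.mem_Ico] at this
    exact ⟨this.1, this.2.le⟩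
  set P : Finset (EuclideanSpace ℝ (Fin 2)) := S.image (pt B) with hPdef
  have hPcard : P.card = S.card := by
    rw [hPdef]
    apply Finset.card_image_of_injOn
    intro a ha b hb hab
    exact pt_inj L B hB a b (hSmem a ha).1 (hSmem b hb).1 hab
  have hPlarge : M ^ 6 ≤ P.card := by
    rw [hPcard]
    have : M ^ 6 ≤ 8 * M ^ 6 := by omega
    exact this.trans hR
  have hdistinct : ∀ a ∈ P, ∀ b ∈ P, ∀ x ∈ P, ∀ y ∈ P, a ≠ b → x ≠ y →
          AffineSubspace.perpBisector a b = AffineSubspace.perpBisector x y →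
            (a = x ∧ b = y) ∨ (a = y ∧ b = x) := by
    intro a ha b hb x hx y hy hab _ h
    rw [hPdef, Finset.mem_image] at ha hb hx hy
    obtain ⟨a', ha', rfl⟩ := ha
    obtain ⟨b', hb', rfl⟩ := hb
    obtain ⟨x', hx', rfl⟩ := hx
    obtain ⟨y', hy', rfl⟩ := hy
    have hab' : a' ≠ b' := fun h => hab (by rw [h])
    rcases bis_pt L B hB a' b' x' y' (hSmem a' ha').1 (hSmem b' hb').1 (hSmem x' hx').1
      (hSmem y' hy').1 R (hSmem a' ha').2 (hSmem b' hb').2 (hSmem x' hx').2
      (hSmem y' hy').2 hab' h with ⟨h1, h2⟩ | ⟨h1, h2⟩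
    · left; rw [h1, h2]; exact ⟨rfl, rfl⟩
    · right; rw [h1, h2]; exact ⟨rfl, rfl⟩
  have hN0 : N0 ≤ P.card := by
    refine hMN.trans (le_trans ?_ hPlarge)
    calc M = M ^ 1 := (pow_one M).symm
      _ ≤ M ^ 6 := Nat.pow_le_pow_right hM1 (by norm_num)
  have hmain := hP P hN0 hdistinct
  -- few distances
  have hD : (P.offDiag.image (fun q => dist q.1 q.2)).card ≤ (4 * M + 1) ^ 8 := by
    set W : Finset (Fin 8 → ℤ) := Fintype.piFinset (fun _ => Finset.Icc (-L) L) with hW
    have hWcard : W.card = (4 * M + 1) ^ 8 := by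
      rw [hW, Fintype.card_piFinset]
      simp only [Int.card_Icc, Finset.prod_const, Finset.card_univ, Fintype.card_fin]
      congr 1
      omega
    rw [← hWcard]
    refine (Finset.card_le_card ?_).trans (Finset.card_image_le (s := W) (f := gd B))
    intro r hr
    rw [Finset.mem_image] at hr
    obtain ⟨⟨p, q⟩, hpq, rfl⟩ := hr
    rw [Finset.mem_offDiag] at hpq
    obtain ⟨hp, hq, _⟩ := hpq
    rw [hPdef, Finset.mem_image] at hp hq
    obtain ⟨p', hp', rfl⟩ := hp
    obtain ⟨q', hq', rfl⟩ := hq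
    rw [Finset.mem_image]
    refine ⟨p' - q', ?_, (dist_pt B p' q').symm⟩
    rw [hW, Fintype.mem_piFinset]
    intro i
    rw [Finset.mem_Icc, Pi.sub_apply]
    have h1 := (hSmem p' hp').1 i
    have h2 := (hSmem q' hq').1 i
    constructor <;> linarith [h1.1, h1.2, h2.1, h2.2]
  have hM1' : (1 : ℝ) ≤ M := by exact_mod_cast hM1
  have hD' : ((P.offDiag.image (fun q => dist q.1 q.2)).card : ℝ) ≤ 390625 * (M : ℝ) ^ 8 := by
    calc ((P.offDiag.image (fun q => dist q.1 q.2)).card : ℝ) ≤ (((4 * M + 1) ^ 8 : ℕ) : ℝ) := by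
          exact_mod_cast hD
      _ = (4 * (M : ℝ) + 1) ^ 8 := by push_cast; ring
      _ ≤ (5 * (M : ℝ)) ^ 8 := by
          apply pow_le_pow_left₀ (by positivity)
          linarith
      _ = 390625 * (M : ℝ) ^ 8 := by ring
  have hlow : (M : ℝ) ^ 9 ≤ (P.card : ℝ) ^ ((2 : ℝ) - 1 / 2) := by
    have h1 : ((M : ℝ) ^ 6) ≤ (P.card : ℝ) := by exact_mod_cast hPlarge
    calc (M : ℝ) ^ 9 = ((M : ℝ) ^ 6) ^ ((2 : ℝ) - 1 / 2) := by
          rw [← Real.rpow_natCast, ← Real.rpow_natCast, ← Real.rpow_mul (by positivity)]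
          norm_num
      _ ≤ (P.card : ℝ) ^ ((2 : ℝ) - 1 / 2) := by
          apply Real.rpow_le_rpow (by positivity) h1 (by norm_num)
  have hfin : c * (M : ℝ) ^ 9 ≤ 390625 * (M : ℝ) ^ 8 :=
    (mul_le_mul_of_nonneg_left hlow hc.le).trans (hmain.trans hD')
  have hpos : (0 : ℝ) < (M : ℝ) ^ 8 := by positivity
  have : c * M ≤ 390625 := by
    have h2 : (c * M) * (M : ℝ) ^ 8 ≤ 390625 * (M : ℝ) ^ 8 := by
      calc (c * M) * (M : ℝ) ^ 8 = c * (M : ℝ) ^ 9 := by ring
        _ ≤ _ := hfin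
    exact le_of_mul_le_mul_right h2 hpos
  linarith

end Pool.Agent.S04808
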