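import Pool.Statements.S04825
import Pool.Agent.Helper776.Sq101

set_option autoImplicit false
open N348dff2d
open Set
open scoped NNReal
open Pool Pool.MP_1756fc_co

namespace Pool.Agent.S04825

open Pool.Agent.Helper776.Dekking Pool.Agent.Helper776.Squares

/-- The function: partial sums of a word over {0,...,2500} without additive squares. -/
def f (n : ℕ) : ℤ := S (fun i => (Pool.Agent.Helper776.Sq101.x i : ℤ)) n

theorem f_succ (n : ℕ) : f (n + 1) = f n + (Pool.Agent.Helper776.Sq101.x n : ℤ) := by
  unfold f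
  exact S_succ _ n

theorem f_mono_bound (n k : ℕ) : 0 ≤ f (n + k) - f n ∧ f (n + k) - f n ≤ 2500 * (k : ℤ) := by
  induction k with
  | zero => simp
  | succ k ih =>
    have h := f_succ (n + k)
    have h1 := Pool.Agent.Helper776.Sq101.x_le (n + k)
    have h2 : (Pool.Agent.Helper776.Sq101.x (n + k) : ℤ) ≤ 2500 := by exact_mod_cast h1
    have h3 : (0 : ℤ) ≤ (Pool.Agent.Helper776.Sq101.x (n + k) : ℤ) := Int.natCast_nonneg _
    rw [← Nat.add_assoc, h]
    push_cast
    constructor
    · linarith [ih.1]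
    · linarith [ih.2]

theorem f_lip (n m : ℕ) (h : n ≤ m) : |f m - f n| ≤ 2500 * ((m : ℤ) - n) := by
  obtain ⟨k, rfl⟩ := Nat.exists_eq_add_of_le h
  obtain ⟨h1, h2⟩ := f_mono_bound n k
  rw [abs_of_nonneg h1]
  push_cast
  linarith

theorem no_ap (n k : ℕ) (hk : 0 < k) : f n + f (n + 2 * k) ≠ 2 * f (n + k) := by
  intro h
  apply Pool.Agent.Helper776.Sq101.no_sq k n hk
  unfold IsSq
  change f n - 2 • f (n + k) + f (n + 2 * k) = 0
  rw [two_nsmul]
  linarith

/-- There exist K ≥ 0 and a K-Lipschitz f : ℕ → ℤ whose graph {(n, f n)} ⊆ ℤ² contains no 3-element arithmetic progression {a, a+d, a+2d} (with 3 distinct points). -/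
theorem result :
    ∃ K : ℝ≥0, ∃ f : ℕ → ℤ, LipschitzWith K f ∧ IsAPOfLengthFree {((n, f n) : ℤ × ℤ) | (n : ℕ)} 3 := by
  refine ⟨2500, f, ?_, ?_⟩
  · apply LipschitzWith.of_dist_le_mul
    intro a b
    rw [Int.dist_eq, Nat.dist_eq]
    have key : ∀ a b : ℕ, a ≤ b → |(f a : ℝ) - f b| ≤ 2500 * |(a : ℝ) - b| := by
      intro a b hab
      have h := f_lip a b hab
      have h' : |(f b : ℝ) - f a| ≤ 2500 * ((b : ℝ) - a) := by exact_mod_cast h
      rw [abs_sub_comm (f a : ℝ), abs_sub_comm (a : ℝ)]
      have hab' : (a : ℝ) ≤ b := by exact_mod_cast hab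
      rw [abs_of_nonneg (sub_nonneg.2 hab')]
      exact h'
    have key' : |(f a : ℝ) - f b| ≤ 2500 * |(a : ℝ) - b| := by
      rcases le_total a b with h | h
      · exact key a b h
      · rw [abs_sub_comm (f a : ℝ), abs_sub_comm (a : ℝ)]
        exact key b a h
    simpa using key'
  · intro t ht hap
    exfalso
    obtain ⟨a, d, hcard, heq⟩ := hap
    have mem : ∀ n : ℕ, ((n : ℕ∞) < 3) → a + n • d ∈ t := by
      intro n hn
      rw [heq]
      exact ⟨n, hn, rfl⟩
    have m0 := ht (mem 0 (by norm_num))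
    have m1 := ht (mem 1 (by norm_num))
    have m2 := ht (mem 2 (by norm_num))
    obtain ⟨n0, h0⟩ := m0
    obtain ⟨n1, h1⟩ := m1
    obtain ⟨n2, h2⟩ := m2
    have h01 := congrArg Prod.fst h0
    have h02 := congrArg Prod.snd h0
    have h11 := congrArg Prod.fst h1
    have h12 := congrArg Prod.snd h1
    have h21 := congrArg Prod.fst h2
    have h22 := congrArg Prod.snd h2
    simp only [zero_smul, one_smul, two_smul, add_zero, Prod.fst_add, Prod.snd_add] at h01 h02 h11 h12 h21 h22
    have hd : d ≠ 0 := by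
      rintro rfl
      have : t = {a} := by
        rw [heq]
        ext x
        constructor
        · rintro ⟨n, _, rfl⟩; simp
        · rintro rfl; exact ⟨0, by norm_num, by simp⟩
      rw [this] at hcard
      simp at hcard
    have hne : n0 ≠ n1 := by
      rintro rfl
      apply hd
      ext
      · simp only [Prod.fst_zero]; linarith
      · simp only [Prod.snd_zero]; linarith
    rcases Nat.lt_or_ge n0 n1 with h | h
    · -- increasing
      have e1 : n1 = n0 + (n1 - n0) := by omega
      have e2 : n2 = n0 + 2 * (n1 - n0) := by omega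
      apply no_ap n0 (n1 - n0) (by omega)
      rw [← e1, ← e2]
      linarith
    · have h' : n1 < n0 := lt_of_le_of_ne h (Ne.symm hne)
      have e1 : n1 = n2 + (n0 - n1) := by omega
      have e2 : n0 = n2 + 2 * (n0 - n1) := by omega
      apply no_ap n2 (n0 - n1) (by omega)
      rw [← e1, ← e2]
      linarith

end Pool.Agent.S04825
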