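import Pool.Statements.S04827
import Pool.Agent.Helper717.BallTable

set_option autoImplicit false
open Pool Pool.MP_17bf10_co

namespace Pool.Agent.S04827

open Finset Pool.Agent.Helper717.Core Pool.Agent.Helper717.BallTable

/-- A support point is not interior. -/
lemma not_interior {E : Type*} [NormedAddCommGroup E] [InnerProductSpace ℝ E] (K : Set E) (p u : E)
    (hu : ‖u‖ = 1) (hs : ∀ x ∈ K, inner ℝ x u ≤ inner ℝ p u) : p ∉ interior K := by
  intro hp
  rw [mem_interior_iff_mem_nhds, Metric.mem_nhds_iff] at hp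
  obtain ⟨r, hr, hball⟩ := hp
  have h1 : p + (r / 2) • u ∈ K := by
    apply hball
    rw [Metric.mem_ball, dist_eq_norm, add_sub_cancel_left, norm_smul, hu, mul_one,
      Real.norm_eq_abs, abs_of_pos (by linarith)]
    linarith
  have h2 := hs _ h1
  rw [inner_add_left, inner_smul_left, real_inner_self_eq_norm_sq, hu] at h2
  simp at h2
  linarith

/-- In dimension d≥3, for an intersection of non-redundant unit balls with centres pairwise at distance ≤1, every closed generalized billiard trajectory on the boundary of minimal total length among all such trajectories has exactly 2 vertices. -/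
theorem result :
  ∀ d : ℕ, 3 ≤ d → ∀ S : Finset (EuclideanSpace ℝ (Fin d)), S.Nonempty →
    (∀ c ∈ S, ∀ c' ∈ S, dist c c' ≤ 1) →
    (∀ c ∈ S, ∃ x : EuclideanSpace ℝ (Fin d),
        (∀ c' ∈ S, c' ≠ c → dist x c' ≤ 1) ∧ 1 < dist x c) →
    ∀ n : ℕ, ∀ p : Fin n → EuclideanSpace ℝ (Fin d),
      (2 ≤ n ∧ ∀ i : Fin n,
        p i ∈ frontier (⋂ c ∈ S, Metric.closedBall c (1 : ℝ)) ∧
        p i ≠ p (finRotate n i) ∧
        ((dist (p (finRotate n i)) (p i))⁻¹ • (p (finRotate n i) - p i)
          + (dist (p ((finRotate n).symm i)) (p i))⁻¹ • (p ((finRotate n).symm i) - p i)) ≠ 0 ∧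
        ∀ x ∈ (⋂ c ∈ S, Metric.closedBall c (1 : ℝ)),
          0 ≤ inner ℝ ((dist (p (finRotate n i)) (p i))⁻¹ • (p (finRotate n i) - p i)
                + (dist (p ((finRotate n).symm i)) (p i))⁻¹ • (p ((finRotate n).symm i) - p i))
               (x - p i)) →
      (∀ m : ℕ, ∀ q : Fin m → EuclideanSpace ℝ (Fin d),
        (2 ≤ m ∧ ∀ j : Fin m,
          q j ∈ frontier (⋂ c ∈ S, Metric.closedBall c (1 : ℝ)) ∧
          q j ≠ q (finRotate m j) ∧
          ((dist (q (finRotate m j)) (q j))⁻¹ • (q (finRotate m j) - q j)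
            + (dist (q ((finRotate m).symm j)) (q j))⁻¹ • (q ((finRotate m).symm j) - q j)) ≠ 0 ∧
          ∀ x ∈ (⋂ c ∈ S, Metric.closedBall c (1 : ℝ)),
            0 ≤ inner ℝ ((dist (q (finRotate m j)) (q j))⁻¹ • (q (finRotate m j) - q j)
                  + (dist (q ((finRotate m).symm j)) (q j))⁻¹ • (q ((finRotate m).symm j) - q j))
                 (x - q j)) →
        ∑ i, dist (p i) (p (finRotate n i)) ≤ ∑ j, dist (q j) (q (finRotate m j))) →
      n = 2 := by
  intro d hd S hSne hS _ n p hp hmin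
  set K : Set (EuclideanSpace ℝ (Fin d)) := ⋂ c ∈ S, Metric.closedBall c (1 : ℝ) with hK
  have hmemK : ∀ x, x ∈ K ↔ ∀ c ∈ S, ‖x - c‖ ≤ 1 := by
    intro x; simp [hK, dist_eq_norm]
  have hKset : K = {x | ∀ c ∈ (S : Set (EuclideanSpace ℝ (Fin d))), ‖x - c‖ ≤ 1} := by
    ext x; rw [hmemK]; simp
  have hKclosed : IsClosed K := by
    rw [hK]
    exact isClosed_biInter fun c _ => Metric.isClosed_closedBall
  -- the diameter of the set of centres
  obtain ⟨⟨c1, c2⟩, hc12, hmax⟩ := exists_max_image (S ×ˢ S) (fun z => ‖z.2 - z.1‖)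
    (hSne.product hSne)
  rw [mem_product] at hc12
  obtain ⟨hc1, hc2⟩ := hc12
  simp only at hc1 hc2 hmax
  set δ : ℝ := ‖c2 - c1‖ with hδ
  have hδ0 : 0 ≤ δ := norm_nonneg _
  have hδ1 : δ ≤ 1 := by
    have := hS c2 hc2 c1 hc1
    rwa [dist_eq_norm] at this
  have hdiam : ∀ c ∈ S, ∀ c' ∈ S, ‖c - c'‖ ≤ δ := by
    intro c hc c' hc'
    exact hmax (c', c) (by rw [mem_product]; exact ⟨hc', hc⟩)
  have hT : Table K δ := by
    rw [hKset]
    exact ball_table (S : Set (EuclideanSpace ℝ (Fin d))) (by simpa using hSne) δ hδ1 (by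
      intro c hc c' hc'; exact hdiam c (by simpa using hc) c' (by simpa using hc'))
  -- the unit vector
  obtain ⟨u, hu, hcu⟩ : ∃ u : EuclideanSpace ℝ (Fin d), ‖u‖ = 1 ∧ c2 - c1 = δ • u := by
    by_cases h0 : δ = 0
    · refine ⟨EuclideanSpace.single ⟨0, by omega⟩ 1, by simp, ?_⟩
      rw [h0, zero_smul]
      exact norm_eq_zero.1 h0
    · refine ⟨δ⁻¹ • (c2 - c1), ?_, ?_⟩
      · rw [norm_smul, norm_inv, Real.norm_eq_abs, abs_of_nonneg hδ0]
        exact inv_mul_cancel₀ h0
      · rw [smul_smul, mul_inv_cancel₀ h0, one_smul]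
  -- the two endpoints of the double normal
  have hend : ∀ a ∈ S, ∀ b ∈ S, ∀ w : EuclideanSpace ℝ (Fin d), ‖w‖ = 1 → b - a = δ • w →
      a + w ∈ K := by
    intro a ha b hb w hw hab
    rw [hmemK]
    intro c hc
    have h1 : ‖c - b‖ ^ 2 ≤ δ ^ 2 := pow_le_pow_left₀ (norm_nonneg _) (hdiam c hc b hb) 2
    have h2 : ‖c - a‖ ^ 2 ≤ δ ^ 2 := pow_le_pow_left₀ (norm_nonneg _) (hdiam c hc a ha) 2
    have e1 : c - b = (c - a) - δ • w := by rw [← hab]; abel
    have h3 : ‖c - a‖ ^ 2 ≤ 2 * δ * inner ℝ (c - a) w := by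
      rw [e1, norm_sub_sq_real, inner_smul_right, norm_smul, hw, Real.norm_eq_abs,
        abs_of_nonneg hδ0] at h1
      nlinarith
    have h4 : ‖c - a‖ ^ 2 ≤ 2 * inner ℝ (c - a) w := by
      rcases hδ0.eq_or_lt with h0 | h0
      · have : c - a = 0 := by
          have := hdiam c hc a ha
          rw [← h0] at this
          exact norm_le_zero_iff.1 this
        rw [this]; simp
      · have : 0 ≤ inner ℝ (c - a) w := by
          by_contra hcon
          have hcon : inner ℝ (c - a) w < 0 := not_le.1 hcon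
          nlinarith [sq_nonneg ‖c - a‖, mul_pos h0 (neg_pos.2 hcon)]
        nlinarith
    have h5 : ‖a + w - c‖ ^ 2 ≤ 1 := by
      have e2 : a + w - c = w - (c - a) := by abel
      rw [e2, norm_sub_sq_real, hw, real_inner_comm]
      linarith
    nlinarith [norm_nonneg (a + w - c)]
  have hx1 : c1 + u ∈ K := hend c1 hc1 c2 hc2 u hu hcu
  have hx2 : c2 + -u ∈ K := by
    refine hend c2 hc2 c1 hc1 (-u) (by rw [norm_neg]; exact hu) ?_
    rw [smul_neg, ← hcu]; abel
  have hdist : (c1 + u) - (c2 + -u) = (2 - δ) • u := by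
    have : c1 + u - (c2 + -u) = (2 : ℝ) • u - (c2 - c1) := by rw [two_smul]; abel
    rw [this, hcu, sub_smul]
  have hpos2 : 0 < 2 - δ := by linarith
  have hnd : ‖(c1 + u) - (c2 + -u)‖ = 2 - δ := by
    rw [hdist, norm_smul, hu, mul_one, Real.norm_eq_abs, abs_of_pos hpos2]
  have hnd' : ‖(c2 + -u) - (c1 + u)‖ = 2 - δ := by rw [norm_sub_rev]; exact hnd
  have hu1 : (2 - δ)⁻¹ • ((c1 + u) - (c2 + -u)) = u := by
    rw [hdist, smul_smul, inv_mul_cancel₀ hpos2.ne', one_smul]
  have hu2 : (2 - δ)⁻¹ • ((c2 + -u) - (c1 + u)) = -u := by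
    rw [← neg_sub (c1 + u) (c2 + -u), smul_neg, hu1]
  have hsup1 : ∀ x ∈ K, inner ℝ x u ≤ inner ℝ (c1 + u) u := by
    intro x hx
    have h1 : inner ℝ (x - c1) u ≤ 1 := by
      have := real_inner_le_norm (x - c1) u
      rw [hu, mul_one] at this
      exact this.trans ((hmemK x).1 hx c1 hc1)
    rw [inner_sub_left] at h1
    rw [inner_add_left, real_inner_self_eq_norm_sq, hu]; linarith
  have hsup2 : ∀ x ∈ K, inner ℝ x (-u) ≤ inner ℝ (c2 + -u) (-u) := by
    intro x hx
    have h1 : inner ℝ (x - c2) (-u) ≤ 1 := by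
      have := real_inner_le_norm (x - c2) (-u)
      rw [norm_neg, hu, mul_one] at this
      exact this.trans ((hmemK x).1 hx c2 hc2)
    rw [inner_sub_left] at h1
    rw [inner_add_left, real_inner_self_eq_norm_sq, norm_neg, hu]; linarith
  have hfr1 : c1 + u ∈ frontier K := by
    rw [hKclosed.frontier_eq]
    exact ⟨hx1, not_interior K _ u hu hsup1⟩
  have hfr2 : c2 + -u ∈ frontier K := by
    rw [hKclosed.frontier_eq]
    exact ⟨hx2, not_interior K _ (-u) (by rw [norm_neg]; exact hu) hsup2⟩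
  have hu0 : u ≠ 0 := by
    intro h; rw [h, norm_zero] at hu; norm_num at hu
  -- the comparison trajectory
  have hle : ∑ i, dist (p i) (p (finRotate n i)) ≤ 4 - 2 * δ := by
    have hr0 : finRotate 2 0 = 1 := rfl
    have hr1 : finRotate 2 1 = 0 := rfl
    have hs0 : (finRotate 2).symm 0 = 1 := by rw [Equiv.symm_apply_eq, hr1]
    have hs1 : (finRotate 2).symm 1 = 0 := by rw [Equiv.symm_apply_eq, hr0]
    have h1 := hmin 2 ![c1 + u, c2 + -u] ⟨le_refl 2, by
      intro j
      fin_cases j
      · simp only [Fin.zero_eta, hr0, hs0, Matrix.cons_val_zero, Matrix.cons_val_one]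
        rw [dist_eq_norm, hnd', hu2]
        refine ⟨hfr1, ?_, ?_, ?_⟩
        · intro h
          rw [h, sub_self, norm_zero] at hnd
          linarith
        · intro h
          apply hu0
          have h2 : (-2 : ℝ) • u = 0 := by
            calc (-2 : ℝ) • u = -u + -u := by rw [neg_smul, two_smul, neg_add]
              _ = 0 := h
          rcases smul_eq_zero.1 h2 with h3 | h3
          · norm_num at h3
          · exact h3
        · intro x hx
          have := hsup1 x hx
          rw [inner_add_left, inner_neg_left, inner_sub_right, real_inner_comm x u,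
            real_inner_comm (c1 + u) u]
          linarith
      · simp only [Fin.mk_one, hr1, hs1, Matrix.cons_val_zero, Matrix.cons_val_one]
        rw [dist_eq_norm, hnd, hu1]
        refine ⟨hfr2, ?_, ?_, ?_⟩
        · intro h
          rw [h, sub_self, norm_zero] at hnd
          linarith
        · intro h
          apply hu0
          have h2 : (2 : ℝ) • u = 0 := by rw [two_smul]; exact h
          rcases smul_eq_zero.1 h2 with h3 | h3
          · norm_num at h3
          · exact h3
        · intro x hx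
          have := hsup2 x hx
          rw [inner_neg_right, inner_neg_right] at this
          rw [inner_add_left, inner_sub_right, real_inner_comm x u,
            real_inner_comm (c2 + -u) u]
          linarith⟩
    rw [Fin.sum_univ_two, hr0, hr1] at h1
    simp only [Matrix.cons_val_zero, Matrix.cons_val_one] at h1
    rw [dist_eq_norm, dist_eq_norm, hnd, hnd'] at h1
    linarith
  -- reduce to the core estimate
  obtain ⟨hn2, hp⟩ := hp
  by_contra hne2
  have hn3 : 3 ≤ n := by omega
  obtain ⟨k, rfl⟩ : ∃ k, n = k + 1 := ⟨n - 1, by omega⟩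
  obtain ⟨φ, hφ⟩ : ∃ φ : ℕ → Fin (k + 1), ∀ i, (φ i : ℕ) = i % (k + 1) :=
    ⟨fun i => ⟨i % (k + 1), Nat.mod_lt _ (Nat.succ_pos k)⟩, fun i => rfl⟩
  have hφval : ∀ i : Fin (k + 1), φ i = i := by
    intro i; apply Fin.ext; rw [hφ]; exact Nat.mod_eq_of_lt i.2
  have hφper : ∀ i, φ (i + (k + 1)) = φ i := by
    intro i; apply Fin.ext; rw [hφ, hφ, Nat.add_mod_right]
  have hrot : ∀ i : ℕ, finRotate (k + 1) (φ i) = φ (i + 1) := by
    intro i
    apply Fin.ext
    rw [finRotate_apply, Fin.val_add, hφ, hφ, Fin.val_one', ← Nat.add_mod]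
  have hrots : ∀ i : ℕ, (finRotate (k + 1)).symm (φ (i + 1)) = φ i := by
    intro i
    rw [Equiv.symm_apply_eq, hrot]
  set P : ℕ → EuclideanSpace ℝ (Fin d) := fun i => p (φ i) with hP
  set e : ℕ → EuclideanSpace ℝ (Fin d) := fun i => ‖P (i + 1) - P i‖⁻¹ • (P (i + 1) - P i) with he
  have hν : ∀ i : ℕ, (dist (p (finRotate (k + 1) (φ (i + 1)))) (p (φ (i + 1))))⁻¹ •
        (p (finRotate (k + 1) (φ (i + 1))) - p (φ (i + 1)))
          + (dist (p ((finRotate (k + 1)).symm (φ (i + 1)))) (p (φ (i + 1))))⁻¹ •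
        (p ((finRotate (k + 1)).symm (φ (i + 1))) - p (φ (i + 1)))
      = -(e i - e (i + 1)) := by
    intro i
    rw [hrot, hrots, dist_eq_norm, dist_eq_norm]
    simp only [he, hP]
    rw [norm_sub_rev (p (φ i)) (p (φ (i + 1))), ← neg_sub (p (φ (i + 1))) (p (φ i)), smul_neg]
    abel
  have hcore := core K δ hδ0 hδ1 hT (k + 1) hn3 P
    (by
      intro i
      simp only [hP]
      rw [hφper])
    (by
      intro i
      exact hKclosed.frontier_subset (hp (φ i)).1)
    (by
      intro i
      have := (hp (φ i)).2.1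
      rw [hrot] at this
      exact this)
    e (fun i => rfl)
    (by
      intro i h
      have := (hp (φ (i + 1))).2.2.1
      rw [hν, h, neg_zero] at this
      exact this rfl)
    (by
      intro i x hx
      have := (hp (φ (i + 1))).2.2.2 x hx
      rw [hν, inner_neg_left, inner_sub_right] at this
      rw [real_inner_comm, real_inner_comm (e i - e (i + 1)) (P (i + 1))]
      linarith)
  have hsum : ∑ i ∈ range (k + 1), ‖P (i + 1) - P i‖ = ∑ i, dist (p i) (p (finRotate (k + 1) i)) := by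
    rw [Finset.sum_range]
    refine sum_congr rfl fun i _ => ?_
    rw [dist_comm, dist_eq_norm]
    have h1 : p (finRotate (k + 1) i) = P (↑i + 1) := by
      simp only [hP]
      rw [← hrot, hφval]
    have h2 : p i = P ↑i := by
      simp only [hP]
      rw [hφval]
    rw [h1, h2]
  rw [hsum] at hcore
  linarith

end Pool.Agent.S04827
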