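import Pool.Statements.S04833
import Pool.Agent.Helper826.Bondy.Core

set_option autoImplicit false
open Pool Pool.MP_18526b_co

namespace Pool.Agent.S04833

/-- There is a constant C such that every pancyclic simple graph on n ≥ 3 vertices has at least n + log₂ n + log* n − C edges, where log* n is the least k for which k-fold iteration of log₂ on n gives at most 1. -/
theorem result :
    ∃ C : ℝ, ∀ n : ℕ, 3 ≤ n → ∀ G : SimpleGraph (Fin n),
      (∀ k : ℕ, 3 ≤ k → k ≤ n → ∃ v : Fin n, ∃ p : G.Walk v v, p.IsCycle ∧ p.length = k) →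
      Real.logb 2 (n : ℝ)
          + ((sInf {k : ℕ | (Real.logb 2)^[k] (n : ℝ) ≤ 1} : ℕ) : ℝ) - C
        ≤ (Nat.card G.edgeSet : ℝ) - (n : ℝ) := by
  obtain ⟨C, hC⟩ := Jia.bondy_core
  refine ⟨max C (Real.logb 2 ((3 : ℕ) : ℝ)
    + ((sInf {k : ℕ | (Real.logb 2)^[k] ((3 : ℕ) : ℝ) ≤ 1} : ℕ) : ℝ) + 3), ?_⟩
  intro n hn G hA
  have hcard : (Nat.card G.edgeSet : ℝ) = (G.edgeSet.ncard : ℝ) := by
    rw [Nat.card_coe_set_eq]
  by_cases h4 : 4 ≤ n
  · have h1 := hC n h4 n G hA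
    have h2 := le_max_left C (Real.logb 2 ((3 : ℕ) : ℝ)
      + ((sInf {k : ℕ | (Real.logb 2)^[k] ((3 : ℕ) : ℝ) ≤ 1} : ℕ) : ℝ) + 3)
    rw [hcard]
    linarith
  · have h3 : n = 3 := by omega
    subst h3
    have h2 := le_max_right C (Real.logb 2 ((3 : ℕ) : ℝ)
      + ((sInf {k : ℕ | (Real.logb 2)^[k] ((3 : ℕ) : ℝ) ≤ 1} : ℕ) : ℝ) + 3)
    have h5 : (0 : ℝ) ≤ (Nat.card G.edgeSet : ℝ) := Nat.cast_nonneg _
    have h6 : (((3 : ℕ) : ℝ)) = 3 := by norm_num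
    linarith


end Pool.Agent.S04833
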