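import Pool.Statements.S04837
import Pool.Agent.Helper776.Sq101

set_option autoImplicit false
open Pool Pool.MP_191414_co

namespace Pool.Agent.S04837

/-- There is a finite set A of natural numbers and an infinite sequence with all terms in A such that no two adjacent blocks of the same positive length have equal sums. -/
theorem result :
    ∃ A : Finset ℕ, ∃ w : ℕ → ℕ, (∀ i, w i ∈ A) ∧
      ∀ i n : ℕ, 0 < n →
        ∑ k ∈ Finset.range n, w (i + k) ≠ ∑ k ∈ Finset.range n, w (i + n + k) := by
  exact Pool.Agent.Helper776.Sq101.main

end Pool.Agent.S04837
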