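import Pool.Statements.S04849
import Pool.Agent.Helper837.Nine

set_option autoImplicit false
open Pool Pool.MP_1a0ba0_co

namespace Pool.Agent.S04849

/-- There exist between 1 and 11 convex bodies in 3-space with pairwise disjoint interiors such that any continuous rigid motion of one body, keeping its interior disjoint from the others, leaves that body's position unchanged. -/
theorem result :
    ∃ n : ℕ, 0 < n ∧ n < 12 ∧
      ∃ K : Fin n → Set (EuclideanSpace ℝ (Fin 3)),
        (∀ i, IsCompact (K i) ∧ Convex ℝ (K i) ∧ (interior (K i)).Nonempty) ∧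
        (∀ i j, i ≠ j → Disjoint (interior (K i)) (interior (K j))) ∧
        ∀ i : Fin n, ∀ γ : unitInterval → EuclideanSpace ℝ (Fin 3) → EuclideanSpace ℝ (Fin 3),
          (∀ t, Isometry (γ t)) →
          Continuous (fun p : unitInterval × EuclideanSpace ℝ (Fin 3) => γ p.1 p.2) →
          γ 0 = id →
          (∀ t, ∀ j, j ≠ i → Disjoint (interior (γ t '' K i)) (interior (K j))) →
          ∀ t, γ t '' K i = K i := by
  obtain ⟨h1, h2, h3⟩ := Pool.Agent.Helper837.Nine.body_spec
  refine ⟨9, by norm_num, by norm_num, Pool.Agent.Helper837.Nine.body,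
    fun i => ⟨(h1 i).1, (h1 i).2.1, (h1 i).2.2.1⟩, h2, ?_⟩
  intro i γ hiso hcont h0 hdis t
  rw [h3 i γ hiso hcont h0 hdis t, Set.image_id]

end Pool.Agent.S04849
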