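import Pool.Statements.S04858

set_option autoImplicit false
open Pool Pool.MP_1a8fe4_co

namespace Pool.Agent.S04858

/-- The six-element set in the group of integers modulo 11 used as the counterexample. -/
def A11 : Finset (ZMod 11) := {0, 1, 2, 4, 5, 7}

theorem card_A11 : A11.card = 6 := by decide

/-- Exactly ten residues modulo 11 are sums of three distinct elements of the set. -/
theorem card_sums : ((A11.powersetCard 3).image (fun s => ∑ x ∈ s, x)).card = 10 := by
  decide +kernel

/-- The set is not an arithmetic progression. -/
theorem not_ap : ∀ a d : ZMod 11, A11 ≠ (Finset.range 6).image (fun i => a + i • d) := by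
  decide +kernel

/-- The negation of the preceding statement: For a finite abelian group G, an m-subset A and 3 ≤ h ≤ m−1 with smallest prime divisor of ∣G∣ exceeding hm−h²+1: sums of h distinct elements of A number exactly hm−h²+1 iff h=1, h=m−1, the h=2,m=4 square case, or A is an arithmetic progression. -/
theorem result :
    ¬ (∀ (G : Type) [AddCommGroup G] [Fintype G] [DecidableEq G] (A : Finset G) (h : ℕ),
      3 ≤ h → h + 1 ≤ A.card →
      h * A.card - h ^ 2 + 1 < Nat.minFac (Fintype.card G) →
      (((A.powersetCard h).image (fun s => ∑ x ∈ s, x)).card = h * A.card - h ^ 2 + 1 ↔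
        (h = 1 ∨ h = A.card - 1 ∨
          (h = 2 ∧ A.card = 4 ∧
            ∃ a d₁ d₂ : G, A = {a, a + d₁, a + d₂, a + d₁ + d₂}) ∨
          ∃ a d : G, A = (Finset.range A.card).image (fun i => a + i • d)))) := by
  intro H
  have hmin : Nat.minFac (Fintype.card (ZMod 11)) = 11 := by
    rw [ZMod.card]
    exact Nat.Prime.minFac_eq (by norm_num)
  have h1 := H (ZMod 11) A11 3 (le_refl 3) (by rw [card_A11]; norm_num)
    (by rw [card_A11, hmin]; norm_num)
  have h2 : ((A11.powersetCard 3).image (fun s => ∑ x ∈ s, x)).card = 3 * A11.card - 3 ^ 2 + 1 := by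
    rw [card_sums, card_A11]
    norm_num
  rcases h1.mp h2 with h3 | h3 | h3 | h3
  · omega
  · rw [card_A11] at h3; omega
  · rw [card_A11] at h3; omega
  · obtain ⟨a, d, had⟩ := h3
    rw [card_A11] at had
    exact not_ap a d had

end Pool.Agent.S04858
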