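import Pool.Statements.S04860
import Pool.Agent.Helper15.C33L

set_option autoImplicit false
open Pool Pool.MP_1a98e5_co

namespace Pool.Agent.S04860

/-- The negation of the preceding statement: There exist 33 lines, each a 6-element subset of 33 points, such that every point lies on exactly 6 lines and any two distinct points lie together on at most one line. -/
theorem result :
    ¬ (∃ L : Fin 33 → Finset (Fin 33),
      (∀ i, (L i).card = 6) ∧
      (∀ p : Fin 33, (Finset.univ.filter (fun i => p ∈ L i)).card = 6) ∧
      (∀ p q : Fin 33, p ≠ q →
        (Finset.univ.filter (fun i => p ∈ L i ∧ q ∈ L i)).card ≤ 1)) := by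
  rintro ⟨L, h1, h2, h3⟩
  have hconf : Pool.Agent.Helper15.C33.Conf (fun (p i : Fin 33) => p ∈ L i) := by
    refine ⟨by simp, by simp, ?_, ?_, ?_⟩
    · intro p
      rw [← h2 p]
      congr
    · intro i
      rw [← h1 i]
      congr 1
      ext p
      simp
    · intro p q i j hpq hi hi' hj hj'
      have := h3 p q hpq
      rw [Finset.card_le_one] at this
      exact this i (by simp [hi, hi']) j (by simp [hj, hj'])
  exact Pool.Agent.Helper15.C33.no_conf hconf

end Pool.Agent.S04860
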