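import Pool.Statements.S04872

/-
Disproof of Q1 of MP_1b373f_co, at n = 3 (degree bound 13).

Let H be a finite bipartite 6-regular graph of girth greater than k and G its line graph; all
degrees of G are at most 12 (in fact at most 10). Suppose G has a (3,k)-good colouring. The six edges
of H at a vertex form a clique of G, so they use at most 3 colours. Each colour class is a set of at
most k edges of H, so it is a forest and touches at least (number of edges) + 1 vertices. Summing
over the classes, |E(H)| + 1 is at most the sum over vertices of the number of colours seen,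
hence at most 3 |V(H)| = |E(H)|, a contradiction.

H is obtained from the group P of all permutations of the finite set of reduced words of length at
most 2k in six letters: each letter acts as an involution (delete the first letter if it agrees,
otherwise prepend it when there is room), and the edges of H are the pairs (g, i), joining g on the
left to g * sg i on the right.
-/

set_option autoImplicit false
open Pool Pool.MP_1b373f_co

namespace Pool.Agent.S04872

/-- Reduced words over six letters of length at most `K`. -/
def Good (K : ℕ) (w : List (Fin 6)) : Prop := w.IsChain (· ≠ ·) ∧ w.length ≤ K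

/-- The finite set of reduced words of length at most `K`. -/
abbrev X (K : ℕ) : Type := {w : List (Fin 6) // Good K w}

instance (K : ℕ) : Finite (X K) := by
  have h : {w : List (Fin 6) | w.length ≤ K}.Finite := List.finite_length_le (Fin 6) K
  exact (h.subset (fun w hw => hw.2) : {w : List (Fin 6) | Good K w}.Finite)

def stepRaw (K : ℕ) (i : Fin 6) (w : List (Fin 6)) : List (Fin 6) :=
  if w.head? = some i then w.tail else if w.length < K then i :: w else w

lemma stepRaw_good (K : ℕ) (i : Fin 6) (w : List (Fin 6)) (hw : Good K w) :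
    Good K (stepRaw K i w) := by
  unfold stepRaw
  split_ifs with h1 h2
  · refine ⟨hw.1.tail, ?_⟩
    have := hw.2
    rw [List.length_tail]; omega
  · refine ⟨?_, by simpa using h2⟩
    cases w with
    | nil => simp
    | cons j t =>
      have hji : j ≠ i := by simpa using h1
      exact List.isChain_cons_cons.2 ⟨hji.symm, hw.1⟩
  · exact hw

lemma stepRaw_invol (K : ℕ) (i : Fin 6) (w : List (Fin 6)) (hw : Good K w) :
    stepRaw K i (stepRaw K i w) = w := by
  cases w with
  | nil =>
    unfold stepRaw
    by_cases hK : 0 < K <;> simp [hK]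
  | cons j t =>
    by_cases hji : j = i
    · subst hji
      have h1 : stepRaw K j (j :: t) = t := by simp [stepRaw]
      rw [h1]
      have ht : t.length < K := by
        have := hw.2; simp at this; omega
      have h2 : t.head? ≠ some j := by
        cases t with
        | nil => simp
        | cons a s =>
          have := (List.isChain_cons_cons.1 hw.1).1
          simp only [List.head?_cons, ne_eq, Option.some.injEq]
          exact fun h => this h.symm
      simp [stepRaw, h2, ht]
    · by_cases hl : (j :: t).length < K
      · have h1 : stepRaw K i (j :: t) = i :: j :: t := by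
          unfold stepRaw; rw [if_neg (by simpa using hji), if_pos hl]
        rw [h1]; simp [stepRaw]
      · have h1 : stepRaw K i (j :: t) = j :: t := by
          unfold stepRaw; rw [if_neg (by simpa using hji), if_neg hl]
        rw [h1, h1]

def step (K : ℕ) (i : Fin 6) (w : X K) : X K := ⟨stepRaw K i w.1, stepRaw_good K i w.1 w.2⟩

lemma step_invol (K : ℕ) (i : Fin 6) : Function.Involutive (step K i) := by
  intro w
  apply Subtype.ext
  exact stepRaw_invol K i w.1 w.2

/-- The group: all permutations of the finite set of words. -/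
abbrev P (K : ℕ) : Type := Equiv.Perm (X K)

def sg (K : ℕ) (i : Fin 6) : P K := (step_invol K i).toPerm

lemma sg_inv (K : ℕ) (i : Fin 6) : (sg K i)⁻¹ = sg K i := by
  ext w; rfl

lemma sg_apply (K : ℕ) (i : Fin 6) (w : X K) : (sg K i w).1 = stepRaw K i w.1 := rfl

/-- edges of the bipartite graph -/
abbrev E (K : ℕ) : Type := P K × Fin 6

def rt {K : ℕ} (e : E K) : P K := e.1 * sg K e.2

lemma rt_eq {K : ℕ} {e e' : E K} (h : rt e = rt e') : e.1⁻¹ = sg K e.2 * sg K e'.2 * e'.1⁻¹ := by
  unfold rt at h
  have : e.1 = e'.1 * sg K e'.2 * (sg K e.2)⁻¹ := by rw [← h]; group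
  rw [this]
  simp [mul_inv_rev, sg_inv, mul_assoc]

open Classical in
lemma core {k : ℕ} (C : Finset (E (2 * k))) (hC : C.card ≤ k) (hne : C.Nonempty)
    (hL : ∀ e ∈ C, ∃ e' ∈ C, e' ≠ e ∧ e'.1 = e.1)
    (hR : ∀ e ∈ C, ∃ e' ∈ C, e' ≠ e ∧ rt e' = rt e) : False := by
  obtain ⟨e0, he0⟩ := hne
  have hnil : Good (2 * k) [] := ⟨List.isChain_nil, by simp⟩
  let z : X (2 * k) := e0.1 ⟨[], hnil⟩
  have key : ∀ n : ℕ, n ≤ k → ∃ e ∈ C, (e.1⁻¹ z).1.length = 2 * n ∧
      (1 ≤ n → (e.1⁻¹ z).1.head? = some e.2) := by
    intro n
    induction n with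
    | zero =>
      intro _
      refine ⟨e0, he0, ?_, fun h => absurd h (by norm_num)⟩
      simp [z]
    | succ n ih =>
      intro hn
      obtain ⟨e, he, hlen, hhead⟩ := ih (by omega)
      obtain ⟨e1, he1, hne1, h1⟩ := hL e he
      obtain ⟨e2, he2, hne2, h2⟩ := hR e1 he1
      have hi1 : e1.2 ≠ e.2 := fun h => hne1 (Prod.ext h1 h)
      have hi2 : e2.2 ≠ e1.2 := by
        intro h
        apply hne2
        refine Prod.ext ?_ h
        unfold rt at h2
        rw [h] at h2
        exact mul_right_cancel h2
      have hinv : e2.1⁻¹ z = sg (2 * k) e2.2 (sg (2 * k) e1.2 (e.1⁻¹ z)) := by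
        rw [rt_eq h2, h1]
        rfl
      have ha : (sg (2 * k) e1.2 (e.1⁻¹ z)).1 = e1.2 :: (e.1⁻¹ z).1 := by
        rw [sg_apply]
        unfold stepRaw
        rw [if_neg, if_pos (by rw [hlen]; omega)]
        rcases Nat.eq_zero_or_pos n with h0 | h0
        · have : (e.1⁻¹ z).1 = [] := by
            apply List.eq_nil_of_length_eq_zero; rw [hlen, h0]
          rw [this]; simp
        · rw [hhead h0]
          intro h
          exact hi1 (Option.some.inj h).symm
      have hb : (sg (2 * k) e2.2 (sg (2 * k) e1.2 (e.1⁻¹ z))).1 = e2.2 :: e1.2 :: (e.1⁻¹ z).1 := by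
        rw [sg_apply, ha]
        unfold stepRaw
        rw [if_neg, if_pos (by rw [List.length_cons, hlen]; omega)]
        simp only [List.head?_cons]
        intro h
        exact hi2 (Option.some.inj h).symm
      refine ⟨e2, he2, ?_, fun _ => ?_⟩
      · rw [hinv, hb, List.length_cons, List.length_cons, hlen]; ring
      · rw [hinv, hb]; simp
  choose f hf using key
  have hinj : Function.Injective (fun n : Fin (k + 1) => f n.1 (by omega)) := by
    intro a b hab
    have h1 := (hf a.1 (by omega)).2.1
    have h2 := (hf b.1 (by omega)).2.1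
    simp only at hab
    rw [hab, h2] at h1
    apply Fin.ext; omega
  have hcard : (Finset.univ.image (fun n : Fin (k + 1) => f n.1 (by omega))).card = k + 1 := by
    rw [Finset.card_image_of_injective _ hinj]; simp
  have hsub : Finset.univ.image (fun n : Fin (k + 1) => f n.1 (by omega)) ⊆ C := by
    intro e he
    obtain ⟨n, _, rfl⟩ := Finset.mem_image.1 he
    exact (hf n.1 (by omega)).1
  have := Finset.card_le_card hsub
  omega

open Classical in
lemma forest {k : ℕ} : ∀ (m : ℕ) (C : Finset (E (2 * k))), C.card = m → C.card ≤ k → C.Nonempty →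
    C.card + 1 ≤ (C.image Prod.fst).card + (C.image rt).card := by
  intro m
  induction m with
  | zero => 
    intro C h1 _ h2
    rw [Finset.card_eq_zero] at h1
    exact absurd h1 h2.ne_empty
  | succ m ih =>
    intro C hm hk hne
    by_contra hcon
    push Not at hcon
    have leafL : ∀ e ∈ C, ∃ e' ∈ C, e' ≠ e ∧ e'.1 = e.1 := by
      intro e he
      by_contra hno
      push Not at hno
      have hnot : e.1 ∉ (C.erase e).image Prod.fst := by
        intro h
        obtain ⟨e', he', h'⟩ := Finset.mem_image.1 h
        obtain ⟨h1, h2⟩ := Finset.mem_erase.1 he'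
        exact hno e' h2 h1 h'
      have hCe : C = insert e (C.erase e) := (Finset.insert_erase he).symm
      have hcardL : (C.image Prod.fst).card = ((C.erase e).image Prod.fst).card + 1 := by
        conv_lhs => rw [hCe]
        rw [Finset.image_insert, Finset.card_insert_of_notMem hnot]
      have hcardR : ((C.erase e).image rt).card ≤ (C.image rt).card :=
        Finset.card_le_card (Finset.image_subset_image (Finset.erase_subset _ _))
      have hce : (C.erase e).card = m := by rw [Finset.card_erase_of_mem he, hm]; rfl
      by_cases hemp : (C.erase e).Nonempty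
      · have := ih (C.erase e) hce (by omega) hemp
        omega
      · rw [Finset.not_nonempty_iff_eq_empty] at hemp
        rw [hemp] at hce
        simp at hce
        have h1 : 0 < (C.image rt).card := Finset.card_pos.2 (hne.image _)
        have h2 : 0 < (C.image Prod.fst).card := Finset.card_pos.2 (hne.image _)
        omega
    have leafR : ∀ e ∈ C, ∃ e' ∈ C, e' ≠ e ∧ rt e' = rt e := by
      intro e he
      by_contra hno
      push Not at hno
      have hnot : rt e ∉ (C.erase e).image rt := by
        intro h
        obtain ⟨e', he', h'⟩ := Finset.mem_image.1 h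
        obtain ⟨h1, h2⟩ := Finset.mem_erase.1 he'
        exact hno e' h2 h1 h'
      have hCe : C = insert e (C.erase e) := (Finset.insert_erase he).symm
      have hcardR : (C.image rt).card = ((C.erase e).image rt).card + 1 := by
        conv_lhs => rw [hCe]
        rw [Finset.image_insert, Finset.card_insert_of_notMem hnot]
      have hcardL : ((C.erase e).image Prod.fst).card ≤ (C.image Prod.fst).card :=
        Finset.card_le_card (Finset.image_subset_image (Finset.erase_subset _ _))
      have hce : (C.erase e).card = m := by rw [Finset.card_erase_of_mem he, hm]; rfl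
      by_cases hemp : (C.erase e).Nonempty
      · have := ih (C.erase e) hce (by omega) hemp
        omega
      · rw [Finset.not_nonempty_iff_eq_empty] at hemp
        rw [hemp] at hce
        simp at hce
        have h1 : 0 < (C.image rt).card := Finset.card_pos.2 (hne.image _)
        have h2 : 0 < (C.image Prod.fst).card := Finset.card_pos.2 (hne.image _)
        omega
    exact core C hk hne leafL leafR

/-- The line graph of the six-regular bipartite graph. -/
def LG (K : ℕ) : SimpleGraph (E K) where
  Adj e e' := e ≠ e' ∧ (e.1 = e'.1 ∨ rt e = rt e')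
  symm := ⟨fun _ _ h => ⟨h.1.symm, h.2.imp Eq.symm Eq.symm⟩⟩
  loopless := ⟨fun _ h => h.1 rfl⟩

lemma LG_degree (K : ℕ) (e : E K) : ((LG K).neighborSet e).ncard ≤ 12 := by
  let f : Bool × Fin 6 → E K := fun p =>
    if p.1 then (e.1, p.2) else (rt e * sg K p.2, p.2)
  have hsub : (LG K).neighborSet e ⊆ Set.range f := by
    intro e' he'
    rcases he'.2 with h | h
    · refine ⟨(true, e'.2), ?_⟩
      simp [f]
      exact Prod.ext h rfl
    · refine ⟨(false, e'.2), ?_⟩
      simp only [f, Bool.false_eq_true, if_false]
      refine Prod.ext ?_ rfl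
      simp only
      rw [h]
      unfold rt
      have h2 : sg K e'.2 * sg K e'.2 = 1 := by
        nth_rewrite 1 [← sg_inv]; simp
      rw [mul_assoc, h2, mul_one]
  calc ((LG K).neighborSet e).ncard ≤ (Set.range f).ncard :=
        Set.ncard_le_ncard hsub (Set.finite_range f)
    _ ≤ Nat.card (Bool × Fin 6) := by
        rw [← Set.image_univ]
        calc (f '' Set.univ).ncard ≤ (Set.univ : Set (Bool × Fin 6)).ncard := Set.ncard_image_le Set.finite_univ
          _ = _ := by rw [Set.ncard_univ]
    _ = 12 := by simp

/-- If among any four distinct elements two have the same image then the image has at most three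
elements. -/
lemma few_colors {α : Type} [Fintype α] [DecidableEq α] (c : α → ℕ)
    (h : ∀ s : Finset α, s.card = 4 → ∃ x ∈ s, ∃ y ∈ s, x ≠ y ∧ c x = c y) :
    (Finset.univ.image c).card ≤ 3 := by
  by_contra hcon
  push Not at hcon
  obtain ⟨T, hT, hTc⟩ := Finset.exists_subset_card_eq (show 4 ≤ (Finset.univ.image c).card by omega)
  have hex : ∀ t ∈ T, ∃ a, c a = t := by
    intro t ht
    obtain ⟨a, _, ha⟩ := Finset.mem_image.1 (hT ht)
    exact ⟨a, ha⟩
  choose g hg using hex
  have hinj : Function.Injective (fun t : T => g t.1 t.2) := by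
    intro a b hab
    have h1 := hg a.1 a.2
    have h2 := hg b.1 b.2
    simp only at hab
    rw [hab, h2] at h1
    exact (Subtype.ext h1).symm
  obtain ⟨x, hx, y, hy, hxy, hc⟩ := h (Finset.univ.image (fun t : T => g t.1 t.2)) (by
    rw [Finset.card_image_of_injective _ hinj]; simp [hTc])
  obtain ⟨a, _, rfl⟩ := Finset.mem_image.1 hx
  obtain ⟨b, _, rfl⟩ := Finset.mem_image.1 hy
  rw [hg, hg] at hc
  exact hxy (by rw [Subtype.ext hc])

open Classical in
lemma count {A E : Type} [Fintype E] [Fintype A] (f : E → A) (c : E → ℕ)
    (h : ∀ a, ((Finset.univ.filter (fun e => f e = a)).image c).card ≤ 3) :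
    ∑ q ∈ Finset.univ.image c, ((Finset.univ.filter (fun e => c e = q)).image f).card ≤
      3 * Fintype.card A := by
  set T : Finset (A × ℕ) := Finset.univ.image (fun e => (f e, c e)) with hT
  have h1 : T.card = ∑ q ∈ Finset.univ.image c, (T.filter (fun p => p.2 = q)).card := by
    apply Finset.card_eq_sum_card_fiberwise
    intro p hp
    obtain ⟨e, _, rfl⟩ := Finset.mem_image.1 hp
    exact Finset.mem_coe.2 (Finset.mem_image_of_mem c (Finset.mem_univ e))
  have h2 : T.card = ∑ a ∈ (Finset.univ : Finset A), (T.filter (fun p => p.1 = a)).card := by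
    apply Finset.card_eq_sum_card_fiberwise
    intro p _
    exact Finset.mem_coe.2 (Finset.mem_univ _)
  calc ∑ q ∈ Finset.univ.image c, ((Finset.univ.filter (fun e => c e = q)).image f).card
      ≤ ∑ q ∈ Finset.univ.image c, (T.filter (fun p => p.2 = q)).card := by
        apply Finset.sum_le_sum
        intro q _
        refine le_trans (Finset.card_le_card ?_) (Finset.card_image_le (f := Prod.fst))
        intro a ha
        obtain ⟨e, he, rfl⟩ := Finset.mem_image.1 ha
        refine Finset.mem_image.2 ⟨(f e, c e), ?_, rfl⟩
        refine Finset.mem_filter.2 ⟨Finset.mem_image_of_mem _ (Finset.mem_univ e), ?_⟩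
        exact (Finset.mem_filter.1 he).2
    _ = T.card := h1.symm
    _ = ∑ a ∈ (Finset.univ : Finset A), (T.filter (fun p => p.1 = a)).card := h2
    _ ≤ ∑ a ∈ (Finset.univ : Finset A), 3 := by
        apply Finset.sum_le_sum
        intro a _
        refine le_trans ?_ (h a)
        refine le_trans (Finset.card_le_card ?_) (Finset.card_image_le (f := fun q => (a, q)))
        intro p hp
        obtain ⟨hp1, hp2⟩ := Finset.mem_filter.1 hp
        obtain ⟨e, _, rfl⟩ := Finset.mem_image.1 hp1
        refine Finset.mem_image.2 ⟨c e, ?_, ?_⟩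
        · exact Finset.mem_image_of_mem c (Finset.mem_filter.2 ⟨Finset.mem_univ e, hp2⟩)
        · simp only at hp2 ⊢
          rw [hp2]
    _ = 3 * Fintype.card A := by simp [mul_comm]

/-- The negation of the preceding statement: For every n ≥ 1 there is k such that every finite graph with all degrees at most 2^(n+1)−3 has a vertex colouring where each (n+1)-clique has two vertices of equal colour and every colour class has at most k vertices. -/
theorem result :
    ¬ (∀ n : ℕ, 1 ≤ n → ∃ k : ℕ, ∀ (V : Type) [Fintype V] (G : SimpleGraph V),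
      (∀ v : V, (G.neighborSet v).ncard ≤ 2 ^ (n + 1) - 3) →
      ∃ c : V → ℕ,
        (∀ s : Finset V, G.IsNClique (n + 1) s →
          ∃ x ∈ s, ∃ y ∈ s, x ≠ y ∧ c x = c y) ∧
        ∀ i : ℕ, {v : V | c v = i}.ncard ≤ k) := by
  classical
  intro hall
  obtain ⟨k, hk⟩ := hall 3 (by norm_num)
  have : Fintype (X (2 * k)) := Fintype.ofFinite _
  obtain ⟨c, hc1, hc2⟩ := hk (E (2 * k)) (LG (2 * k))
    (fun v => (LG_degree (2 * k) v).trans (by norm_num))
  -- few colours at each left vertex
  have hleft : ∀ g : P (2 * k),
      ((Finset.univ.filter (fun e : E (2 * k) => e.1 = g)).image c).card ≤ 3 := by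
    intro g
    have h0 : (Finset.univ.filter (fun e : E (2 * k) => e.1 = g)).image c ⊆
        Finset.univ.image (fun i : Fin 6 => c (g, i)) := by
      intro q hq
      obtain ⟨e, he, rfl⟩ := Finset.mem_image.1 hq
      have := (Finset.mem_filter.1 he).2
      refine Finset.mem_image.2 ⟨e.2, Finset.mem_univ _, ?_⟩
      rw [← this]
    refine le_trans (Finset.card_le_card h0) (few_colors _ ?_)
    intro s hs
    have hinj : Function.Injective (fun i : Fin 6 => ((g, i) : E (2 * k))) := by
      intro a b hab
      exact (Prod.ext_iff.1 hab).2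
    have hclique : (LG (2 * k)).IsNClique (3 + 1) (s.image (fun i => ((g, i) : E (2 * k)))) := by
      rw [SimpleGraph.isNClique_iff]
      refine ⟨?_, by rw [Finset.card_image_of_injective _ hinj, hs]⟩
      intro a ha b hb hab
      rw [Finset.mem_coe] at ha hb
      obtain ⟨i, _, rfl⟩ := Finset.mem_image.1 ha
      obtain ⟨j, _, rfl⟩ := Finset.mem_image.1 hb
      exact ⟨hab, Or.inl rfl⟩
    obtain ⟨x, hx, y, hy, hxy, hcxy⟩ := hc1 _ hclique
    obtain ⟨i, hi, rfl⟩ := Finset.mem_image.1 hx
    obtain ⟨j, hj, rfl⟩ := Finset.mem_image.1 hy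
    exact ⟨i, hi, j, hj, fun h => hxy (by rw [h]), hcxy⟩
  have hright : ∀ g : P (2 * k),
      ((Finset.univ.filter (fun e : E (2 * k) => rt e = g)).image c).card ≤ 3 := by
    intro g
    have hss : ∀ i : Fin 6, sg (2 * k) i * sg (2 * k) i = 1 := by
      intro i
      nth_rewrite 1 [← sg_inv]; simp
    have h0 : (Finset.univ.filter (fun e : E (2 * k) => rt e = g)).image c ⊆
        Finset.univ.image (fun i : Fin 6 => c (g * sg (2 * k) i, i)) := by
      intro q hq
      obtain ⟨e, he, rfl⟩ := Finset.mem_image.1 hq
      have := (Finset.mem_filter.1 he).2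
      refine Finset.mem_image.2 ⟨e.2, Finset.mem_univ _, ?_⟩
      rw [← this]
      unfold rt
      rw [mul_assoc, hss, mul_one]
    refine le_trans (Finset.card_le_card h0) (few_colors _ ?_)
    intro s hs
    have hinj : Function.Injective (fun i : Fin 6 => ((g * sg (2 * k) i, i) : E (2 * k))) := by
      intro a b hab
      exact (Prod.ext_iff.1 hab).2
    have hclique : (LG (2 * k)).IsNClique (3 + 1)
        (s.image (fun i => ((g * sg (2 * k) i, i) : E (2 * k)))) := by
      rw [SimpleGraph.isNClique_iff]
      refine ⟨?_, by rw [Finset.card_image_of_injective _ hinj, hs]⟩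
      intro a ha b hb hab
      rw [Finset.mem_coe] at ha hb
      obtain ⟨i, _, rfl⟩ := Finset.mem_image.1 ha
      obtain ⟨j, _, rfl⟩ := Finset.mem_image.1 hb
      refine ⟨hab, Or.inr ?_⟩
      unfold rt
      simp only
      rw [mul_assoc, mul_assoc, hss, hss]
    obtain ⟨x, hx, y, hy, hxy, hcxy⟩ := hc1 _ hclique
    obtain ⟨i, hi, rfl⟩ := Finset.mem_image.1 hx
    obtain ⟨j, hj, rfl⟩ := Finset.mem_image.1 hy
    exact ⟨i, hi, j, hj, fun h => hxy (by rw [h]), hcxy⟩
  have hL := count (fun e : E (2 * k) => e.1) c (fun a => by convert hleft a)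
  have hR := count (fun e : E (2 * k) => rt e) c (fun a => by convert hright a)
  have hE : (Finset.univ : Finset (E (2 * k))).card =
      ∑ q ∈ Finset.univ.image c, (Finset.univ.filter (fun e => c e = q)).card :=
    Finset.card_eq_sum_card_image c Finset.univ
  have hfor : ∀ q ∈ Finset.univ.image c,
      (Finset.univ.filter (fun e => c e = q)).card + 1 ≤
      ((Finset.univ.filter (fun e => c e = q)).image (fun e : E (2 * k) => e.1)).card +
      ((Finset.univ.filter (fun e => c e = q)).image (fun e : E (2 * k) => rt e)).card := by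
    intro q hq
    have h1 : (Finset.univ.filter (fun e => c e = q)).card ≤ k := by
      have := hc2 q
      rw [← Set.ncard_coe_finset]
      simpa using this
    have h2 : (Finset.univ.filter (fun e => c e = q)).Nonempty := by
      obtain ⟨e, _, he⟩ := Finset.mem_image.1 hq
      exact ⟨e, Finset.mem_filter.2 ⟨Finset.mem_univ _, he⟩⟩
    have h3 := forest _ _ rfl h1 h2
    convert h3
  have hsum := Finset.sum_le_sum hfor
  rw [Finset.sum_add_distrib, Finset.sum_add_distrib, ← hE] at hsum
  have hcardE : (Finset.univ : Finset (E (2 * k))).card = Fintype.card (P (2 * k)) * 6 := by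
    rw [Finset.card_univ, Fintype.card_prod, Fintype.card_fin]
  have hpos : 0 < ∑ q ∈ (Finset.univ : Finset (E (2 * k))).image c, 1 := by
    rw [Finset.sum_const, smul_eq_mul, mul_one]
    exact Finset.card_pos.2 (Finset.univ_nonempty.image _)
  have hL' : ∑ q ∈ (Finset.univ : Finset (E (2 * k))).image c,
      ((Finset.univ.filter (fun e => c e = q)).image (fun e : E (2 * k) => e.1)).card ≤
      3 * Fintype.card (P (2 * k)) := by convert hL
  have hR' : ∑ q ∈ (Finset.univ : Finset (E (2 * k))).image c,
      ((Finset.univ.filter (fun e => c e = q)).image (fun e : E (2 * k) => rt e)).card ≤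
      3 * Fintype.card (P (2 * k)) := by convert hR
  omega

end Pool.Agent.S04872
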