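import Pool.Statements.S04874

set_option autoImplicit false
open Sym2
open Pool Pool.MP_1b5659_co

namespace Pool.Agent.S04874

/-- first endpoints of the edges of `G` -/
def ga : Fin 14 → Fin 8 := ![0,0,0,1,2,3,1,0,0,0,1,5,6,1]
/-- second endpoints of the edges of `G` -/
def gb : Fin 14 → Fin 8 := ![2,3,4,2,3,4,4,5,6,7,5,6,7,7]
/-- first endpoints of the edges of `H` -/
def ha : Fin 14 → Fin 8 := ![0,0,0,1,2,3,1,1,1,1,0,5,6,0]
/-- second endpoints of the edges of `H` -/
def hb : Fin 14 → Fin 8 := ![2,3,4,2,3,4,4,5,6,7,5,6,7,7]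

/-- integer placement -/
def pz : Fin 8 → Fin 2 → ℤ :=
  ![![0,0],![0,1],![-3,-3],![0,-3],![3,0],![1,-1],![0,-3],![-1,-2]]

/-- real placement -/
def pr : Fin 8 → Fin 2 → ℝ := fun v c => (pz v c : ℝ)

/-- integer rigidity matrix -/
def mz (i : Fin 14) (y : Fin 8 × Fin 2) : ℤ :=
  if y.1 = ga i then pz (ga i) y.2 - pz (gb i) y.2
  else if y.1 = gb i then pz (gb i) y.2 - pz (ga i) y.2 else 0

/-- real rigidity matrix rows -/
noncomputable def mr (i : Fin 14) (y : Fin 8 × Fin 2) : ℝ :=
  if y.1 = ga i then pr (ga i) y.2 - pr (gb i) y.2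
  else if y.1 = gb i then pr (gb i) y.2 - pr (ga i) y.2 else (0 : ℝ)

theorem mr_eq (i : Fin 14) (y : Fin 8 × Fin 2) : mr i y = (mz i y : ℝ) := by
  unfold mr mz pr
  split_ifs <;> push_cast <;> ring

/-- the stress -/
def wz : Fin 14 → ℤ := ![4, 1, 4, -3, -1, -1, -3, -4, -1, -4, 3, 1, 1, 3]

theorem stress (c : Fin 14 → ℝ) (h : ∀ y : Fin 8 × Fin 2, ∑ i, c i * mr i y = 0) (i : Fin 14) :
    4 * c i = (wz i : ℝ) * c 0 := by
  have H : ∀ y : Fin 8 × Fin 2, ∑ i, c i * (mz i y : ℝ) = 0 := by
    intro y; rw [← h y]; exact Finset.sum_congr rfl (fun i _ => by rw [mr_eq])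
  have e20 := H (2,0)
  have e21 := H (2,1)
  have e30 := H (3,0)
  have e31 := H (3,1)
  have e40 := H (4,0)
  have e41 := H (4,1)
  have e50 := H (5,0)
  have e51 := H (5,1)
  have e60 := H (6,0)
  have e61 := H (6,1)
  have e70 := H (7,0)
  have e71 := H (7,1)
  have e00 := H (0,0)
  have e01 := H (0,1)
  have e10 := H (1,0)
  have e11 := H (1,1)
  simp [Fin.sum_univ_succ, mz, ga, gb, pz] at e20 e21 e30 e31 e40 e41 e50 e51 e60 e61 e70 e71 e00 e01 e10 e11
  fin_cases i <;> simp [wz] <;> linarith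

theorem wz_ne (j : Fin 14) : wz j ≠ 0 := by
  revert j; decide

theorem rank_sub (j : Fin 14) :
    13 ≤ (Matrix.of (fun (i : {i : Fin 14 // i ≠ j}) (y : Fin 8 × Fin 2) => mr i.1 y) :
      Matrix {i : Fin 14 // i ≠ j} (Fin 8 × Fin 2) ℝ).rank := by
  have hli : LinearIndependent ℝ (Matrix.of (fun (i : {i : Fin 14 // i ≠ j}) (y : Fin 8 × Fin 2) => mr i.1 y)).row := by
    rw [Fintype.linearIndependent_iff]
    intro g hg
    -- extend by zero
    let c : Fin 14 → ℝ := fun i => if h : i ≠ j then g ⟨i, h⟩ else 0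
    have hc : ∀ y : Fin 8 × Fin 2, ∑ i, c i * mr i y = 0 := by
      intro y
      have h1 := congrFun hg y
      simp only [Finset.sum_apply, Pi.smul_apply, Matrix.row, Matrix.of_apply, smul_eq_mul,
        Pi.zero_apply] at h1
      rw [← h1]
      symm
      have h2 : ∑ i, c i * mr i y = ∑ i ∈ Finset.univ.filter (fun i : Fin 14 => i ≠ j), c i * mr i y := by
        symm
        apply Finset.sum_subset (Finset.filter_subset _ _)
        intro i _ hi
        have : i = j := by
          by_contra hne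
          exact hi (Finset.mem_filter.2 ⟨Finset.mem_univ _, hne⟩)
        subst this
        simp [c]
      rw [h2, Finset.sum_subtype (Finset.univ.filter (fun i : Fin 14 => i ≠ j)) (p := fun i => i ≠ j) (by simp)]
      apply Finset.sum_congr rfl
      intro i _
      simp only [c]
      rw [dif_pos i.2]
    have hs := stress c hc
    have hj : c j = 0 := by simp [c]
    have h0 : c 0 = 0 := by
      have := hs j
      rw [hj, mul_zero] at this
      rcases mul_eq_zero.1 this.symm with h | h
      · exact absurd (by exact_mod_cast h) (wz_ne j)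
      · exact h
    intro i
    have := hs i.1
    rw [h0, mul_zero] at this
    have h3 : c i.1 = 0 := by linarith
    simp only [c] at h3
    rw [dif_pos i.2] at h3
    exact h3
  rw [hli.rank_matrix]
  simp

theorem rank_full :
    13 ≤ (Matrix.of (fun (i : Fin 14) (y : Fin 8 × Fin 2) => mr i y) :
      Matrix (Fin 14) (Fin 8 × Fin 2) ℝ).rank := by
  refine le_trans (rank_sub 0) ?_
  rw [Matrix.rank_eq_finrank_span_row, Matrix.rank_eq_finrank_span_row]
  apply Submodule.finrank_mono
  apply Submodule.span_mono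
  rintro _ ⟨i, rfl⟩
  exact ⟨i.1, rfl⟩

/-- the change of placement: vertices 5, 6, 7 are reflected in the midpoint of 0 and 1 -/
def tw {K : Type} [Field K] (q : Fin 8 → Fin 2 → K) : Fin 8 → Fin 2 → K := fun v c =>
  if 5 ≤ v then q 0 c + q 1 c - q v c else q v c

theorem tw_eq {K : Type} [Field K] (q : Fin 8 → Fin 2 → K) (i : Fin 14) :
    ∑ c : Fin 2, (tw q (ha i) c - tw q (hb i) c) ^ 2 = ∑ c : Fin 2, (q (ga i) c - q (gb i) c) ^ 2 := by
  fin_cases i <;> simp [tw, ga, gb, ha, hb] <;> ring

theorem tw_eq' {K : Type} [Field K] (q : Fin 8 → Fin 2 → K) (i : Fin 14) :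
    ∑ c : Fin 2, (tw q (ga i) c - tw q (gb i) c) ^ 2 = ∑ c : Fin 2, (q (ha i) c - q (hb i) c) ^ 2 := by
  fin_cases i <;> simp [tw, ga, gb, ha, hb] <;> ring

/-- The negation of the preceding statement: For d≥2, if G (n vertices, m edges) is redundantly generically rigid in R^d and H has n vertices, m edges and the same squared-edge-length measurement variety over C, then G and H are isomorphic. -/
theorem result :
    ¬ (∀ (d n m : ℕ), 2 ≤ d → ∀ (a b a' b' : Fin m → Fin n),
      (∀ i, a i ≠ b i) → (∀ i, a' i ≠ b' i) →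
      Function.Injective (fun i : Fin m => s(a i, b i)) →
      Function.Injective (fun i : Fin m => s(a' i, b' i)) →
      (∃ p : Fin n → Fin d → ℝ,
        (if d + 1 ≤ n then d * n - d * (d + 1) / 2 else n * (n - 1) / 2) ≤
          (Matrix.of (fun (i : Fin m) (y : Fin n × Fin d) =>
            if y.1 = a i then p (a i) y.2 - p (b i) y.2
            else if y.1 = b i then p (b i) y.2 - p (a i) y.2 else (0 : ℝ)) :
              Matrix (Fin m) (Fin n × Fin d) ℝ).rank) →
      (∀ j : Fin m, ∃ p : Fin n → Fin d → ℝ,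
        (if d + 1 ≤ n then d * n - d * (d + 1) / 2 else n * (n - 1) / 2) ≤
          (Matrix.of (fun (i : {i : Fin m // i ≠ j}) (y : Fin n × Fin d) =>
            if y.1 = a i.1 then p (a i.1) y.2 - p (b i.1) y.2
            else if y.1 = b i.1 then p (b i.1) y.2 - p (a i.1) y.2 else (0 : ℝ)) :
              Matrix {i : Fin m // i ≠ j} (Fin n × Fin d) ℝ).rank) →
      (∀ f : MvPolynomial (Fin m) ℂ,
        (∀ q : Fin n → Fin d → ℂ,
          MvPolynomial.eval (fun i : Fin m => ∑ c : Fin d, (q (a i) c - q (b i) c) ^ 2) f = 0) ↔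
        (∀ q : Fin n → Fin d → ℂ,
          MvPolynomial.eval (fun i : Fin m => ∑ c : Fin d, (q (a' i) c - q (b' i) c) ^ 2) f = 0)) →
      Nonempty (SimpleGraph.Iso
        (SimpleGraph.fromEdgeSet (Set.range (fun i : Fin m => s(a i, b i))))
        (SimpleGraph.fromEdgeSet (Set.range (fun i : Fin m => s(a' i, b' i)))))) := by
  intro hall
  obtain ⟨φ⟩ := hall 2 8 14 le_rfl ga gb ha hb (by decide) (by decide) (by decide) (by decide)
    ⟨pr, rank_full⟩ (fun j => ⟨pr, rank_sub j⟩)
    (by
      intro f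
      constructor
      · intro h q
        have := h (tw q)
        simpa only [tw_eq'] using this
      · intro h q
        have := h (tw q)
        simpa only [tw_eq] using this)
  -- degree of vertex 0 in G is 6, all degrees in H are at most 5
  have hG : ∀ w : Fin 8, w ∈ ({2,3,4,5,6,7} : Finset (Fin 8)) →
      (SimpleGraph.fromEdgeSet (Set.range (fun i : Fin 14 => s(ga i, gb i)))).Adj 0 w := by
    intro w hw
    rw [SimpleGraph.fromEdgeSet_adj]
    constructor
    · simp only [Set.mem_range]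
      revert w; decide
    · revert w; decide
  have hH : ∀ v w : Fin 8,
      (SimpleGraph.fromEdgeSet (Set.range (fun i : Fin 14 => s(ha i, hb i)))).Adj v w →
      ∃ i : Fin 14, s(ha i, hb i) = s(v, w) := by
    intro v w h
    rw [SimpleGraph.fromEdgeSet_adj] at h
    simpa only [Set.mem_range] using h.1
  have hmap : ∀ w ∈ ({2,3,4,5,6,7} : Finset (Fin 8)),
      φ w ∈ Finset.univ.filter (fun w : Fin 8 => ∃ i : Fin 14, s(ha i, hb i) = s(φ 0, w)) := by
    intro w hw
    refine Finset.mem_filter.2 ⟨Finset.mem_univ _, hH _ _ ?_⟩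
    exact φ.map_rel_iff.2 (hG w hw)
  have hcard := Finset.card_le_card_of_injOn (s := ({2,3,4,5,6,7} : Finset (Fin 8))) (fun w => φ w) hmap
    (fun x _ y _ h => φ.injective h)
  have hbound : ∀ v : Fin 8,
      (Finset.univ.filter (fun w : Fin 8 => ∃ i : Fin 14, s(ha i, hb i) = s(v, w))).card ≤ 5 := by
    decide
  have h6 : ({2,3,4,5,6,7} : Finset (Fin 8)).card = 6 := by decide
  have := hbound (φ 0)
  omega

end Pool.Agent.S04874
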