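import Pool.Statements.S04877
-- import your own Pool.Agent.* helpers here

set_option autoImplicit false
set_option maxHeartbeats 1000000
open Pool Pool.MP_1b70d9_co

namespace Pool.Agent.S04877

universe u

/-- No isometric cycles of length at least four, in function form. -/
def NoIso {V : Type u} (G : SimpleGraph V) : Prop :=
  ∀ (k n : ℕ) (c : ℕ → V), 2 ≤ k → (n = 2 * k ∨ n = 2 * k + 1) →
    (∀ i, G.Adj (c i) (c (i + 1))) → (∀ i, c (i + n) = c i) →
    (∀ i, G.dist (c i) (c (i + k)) = k) → False

section basics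

variable {V : Type u} {G : SimpleGraph V}

/-- walking along a sequence -/
lemma dist_seq_le (hc : G.Connected) (c : ℕ → V) (h : ∀ i, G.Adj (c i) (c (i + 1))) (i m : ℕ) :
    G.dist (c i) (c (i + m)) ≤ m := by
  induction m with
  | zero => simp
  | succ m ih =>
    have h1 := hc.dist_triangle (u := c i) (v := c (i + m)) (w := c (i + (m + 1)))
    have h2 : G.dist (c (i + m)) (c (i + (m + 1))) = 1 := SimpleGraph.dist_eq_one_iff_adj.2 (h (i + m))
    omega

/-- a sequence all of whose `k`-steps are geodesic is isometric up to `k` steps -/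
lemma dist_seq_eq (hc : G.Connected) (c : ℕ → V) (h : ∀ i, G.Adj (c i) (c (i + 1))) (k : ℕ)
    (hk : ∀ i, G.dist (c i) (c (i + k)) = k) (i m : ℕ) (hm : m ≤ k) :
    G.dist (c i) (c (i + m)) = m := by
  have h1 := dist_seq_le hc c h i m
  have h2 := dist_seq_le hc c h (i + m) (k - m)
  have h3 := hc.dist_triangle (u := c i) (v := c (i + m)) (w := c (i + k))
  have h4 := hk i
  have h5 : i + m + (k - m) = i + k := by omega
  rw [h5] at h2
  omega

/-- geodesics as sequences -/
lemma exists_geodesic (hc : G.Connected) (v x : V) :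
    ∃ p : ℕ → V, p 0 = v ∧ p (G.dist v x) = x ∧ ∀ i, i < G.dist v x → G.Adj (p i) (p (i + 1)) := by
  obtain ⟨w, hw⟩ := hc.exists_walk_length_eq_dist v x
  refine ⟨w.getVert, by simp, ?_, ?_⟩
  · rw [← hw]; simp
  · intro i hi
    exact w.adj_getVert_succ (by omega)

lemma dist_adj_le (hc : G.Connected) {v x y : V} (h : G.Adj x y) : G.dist v x ≤ G.dist v y + 1 := by
  have h1 := hc.dist_triangle (u := v) (v := y) (w := x)
  have h2 : G.dist y x = 1 := SimpleGraph.dist_eq_one_iff_adj.2 h.symm
  omega

/-- gluing two paths to a periodic cyclic sequence -/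
lemma mk_cycle (P Q : ℕ → V) (k l : ℕ) (h0 : P 0 = Q 0)
    (hP : ∀ i, i < k → G.Adj (P i) (P (i + 1))) (hQ : ∀ i, i < l → G.Adj (Q i) (Q (i + 1)))
    (hPQ : G.Adj (P k) (Q l)) :
    ∃ c : ℕ → V, (∀ i, G.Adj (c i) (c (i + 1))) ∧ (∀ i, c (i + (k + l + 1)) = c i) ∧
      (∀ i, i ≤ k → c i = P i) ∧ (∀ j, j ≤ l → c (k + 1 + j) = Q (l - j)) := by
  set n := k + l + 1 with hn
  have hnpos : 0 < n := by omega
  let c0 : ℕ → V := fun i => if i ≤ k then P i else Q (n - i)
  refine ⟨fun i => c0 (i % n), ?_, ?_, ?_, ?_⟩
  · intro i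
    have hlt : i % n < n := Nat.mod_lt _ hnpos
    by_cases hi : i % n + 1 = n
    · have h1 : (i + 1) % n = 0 := by
        rw [Nat.add_mod]
        rcases Nat.lt_or_ge 1 n with h | h
        · rw [Nat.mod_eq_of_lt h, hi, Nat.mod_self]
        · have : n = 1 := by omega
          rw [this]; simp [Nat.mod_one]
      have h2 : i % n = k + l := by omega
      simp only [c0]
      rw [h1, h2]
      simp only [Nat.zero_le, if_true]
      by_cases hl : l = 0
      · subst hl
        simp only [Nat.add_zero, le_refl, if_true]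
        rw [h0]; exact hPQ
      · rw [if_neg (by omega)]
        have : n - (k + l) = 1 := by omega
        rw [this, h0]
        exact (hQ 0 (by omega)).symm
    · have h1 : (i + 1) % n = i % n + 1 := by
        rw [Nat.add_mod]
        have hn2 : 1 < n := by
          by_contra hcon
          have : n = 1 := by omega
          apply hi; rw [this]; simp [Nat.mod_one]
        rw [Nat.mod_eq_of_lt hn2]
        exact Nat.mod_eq_of_lt (by omega)
      simp only [c0]
      rw [h1]
      by_cases h2 : i % n + 1 ≤ k
      · rw [if_pos (by omega), if_pos h2]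
        exact hP _ (by omega)
      · by_cases h3 : i % n ≤ k
        · have h4 : i % n = k := by omega
          rw [if_pos h3, if_neg h2, h4]
          have : n - (k + 1) = l := by omega
          rw [this]; exact hPQ
        · rw [if_neg h3, if_neg h2]
          have h5 : n - (i % n) = (n - (i % n + 1)) + 1 := by omega
          rw [h5]
          exact (hQ _ (by omega)).symm
  · intro i
    simp [c0, Nat.add_mod_right]
  · intro i hi
    have : i % n = i := Nat.mod_eq_of_lt (by omega)
    simp only [c0]
    rw [this, if_pos hi]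
  · intro j hj
    simp only [c0]
    by_cases hjl : j = l
    · subst hjl
      have : (k + 1 + j) % n = 0 := by
        have : k + 1 + j = n := by omega
        rw [this, Nat.mod_self]
      rw [this]
      simp [h0]
    · have : (k + 1 + j) % n = k + 1 + j := Nat.mod_eq_of_lt (by omega)
      rw [this, if_neg (by omega)]
      congr 1
      omega

lemma two_le_dist (hc : G.Connected) {x y : V} (h : x ≠ y) (h' : ¬ G.Adj x y) : 2 ≤ G.dist x y :=
  hc.one_lt_dist_of_ne_of_not_adj h h'

lemma dist_eq_two (hc : G.Connected) {x y z : V} (h : x ≠ y) (h' : ¬ G.Adj x y)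
    (h1 : G.Adj x z) (h2 : G.Adj z y) : G.dist x y = 2 := by
  have h3 := two_le_dist hc h h'
  have h4 := dist_adj_le hc (v := x) (x := y) (y := z) h2.symm
  have h5 : G.dist x z = 1 := SimpleGraph.dist_eq_one_iff_adj.2 h1
  omega

/-- no induced four-cycles -/
def C4Free {V : Type u} (G : SimpleGraph V) : Prop :=
  ∀ a b c d : V, G.Adj a b → G.Adj b c → G.Adj c d → G.Adj d a → a ≠ c → b ≠ d →
    G.Adj a c ∨ G.Adj b d

/-- no induced five-cycles -/
def C5Free {V : Type u} (G : SimpleGraph V) : Prop :=
  ∀ a b c d e : V, G.Adj a b → G.Adj b c → G.Adj c d → G.Adj d e → G.Adj e a →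
    a ≠ c → a ≠ d → b ≠ d → b ≠ e → c ≠ e →
    G.Adj a c ∨ G.Adj a d ∨ G.Adj b d ∨ G.Adj b e ∨ G.Adj c e

lemma NoIso.c4 (hc : G.Connected) (hG : NoIso G) : C4Free G := by
  intro a b c d hab hbc hcd hda hac hbd
  by_contra hcon
  push Not at hcon
  obtain ⟨h1, h2⟩ := hcon
  let f : ℕ → V := fun i => match i % 4 with
    | 0 => a
    | 1 => b
    | 2 => c
    | _ => d
  have hd1 : G.dist a c = 2 := dist_eq_two hc hac h1 hab hbc
  have hd2 : G.dist b d = 2 := dist_eq_two hc hbd h2 hbc hcd
  apply hG 2 4 f le_rfl (Or.inl rfl)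
  · intro i
    have : i % 4 = 0 ∨ i % 4 = 1 ∨ i % 4 = 2 ∨ i % 4 = 3 := by omega
    rcases this with h | h | h | h
    · have h' : (i + 1) % 4 = 1 := by omega
      simp only [f, h, h']; exact hab
    · have h' : (i + 1) % 4 = 2 := by omega
      simp only [f, h, h']; exact hbc
    · have h' : (i + 1) % 4 = 3 := by omega
      simp only [f, h, h']; exact hcd
    · have h' : (i + 1) % 4 = 0 := by omega
      simp only [f, h, h']; exact hda
  · intro i
    simp [f, Nat.add_mod_right]
  · intro i
    have : i % 4 = 0 ∨ i % 4 = 1 ∨ i % 4 = 2 ∨ i % 4 = 3 := by omega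
    rcases this with h | h | h | h
    · have h' : (i + 2) % 4 = 2 := by omega
      simp only [f, h, h']; exact hd1
    · have h' : (i + 2) % 4 = 3 := by omega
      simp only [f, h, h']; exact hd2
    · have h' : (i + 2) % 4 = 0 := by omega
      simp only [f, h, h']; rw [G.dist_comm]; exact hd1
    · have h' : (i + 2) % 4 = 1 := by omega
      simp only [f, h, h']; rw [G.dist_comm]; exact hd2

lemma NoIso.c5 (hc : G.Connected) (hG : NoIso G) : C5Free G := by
  intro a b c d e hab hbc hcd hde hea hac had hbd hbe hce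
  by_contra hcon
  push Not at hcon
  obtain ⟨h1, h2, h3, h4, h5⟩ := hcon
  let f : ℕ → V := fun i => match i % 5 with
    | 0 => a
    | 1 => b
    | 2 => c
    | 3 => d
    | _ => e
  have hd1 : G.dist a c = 2 := dist_eq_two hc hac h1 hab hbc
  have hd2 : G.dist a d = 2 := dist_eq_two hc had h2 hea.symm hde.symm
  have hd3 : G.dist b d = 2 := dist_eq_two hc hbd h3 hbc hcd
  have hd4 : G.dist b e = 2 := dist_eq_two hc hbe h4 hab.symm hea.symm
  have hd5 : G.dist c e = 2 := dist_eq_two hc hce h5 hcd hde
  apply hG 2 5 f le_rfl (Or.inr rfl)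
  · intro i
    have : i % 5 = 0 ∨ i % 5 = 1 ∨ i % 5 = 2 ∨ i % 5 = 3 ∨ i % 5 = 4 := by omega
    rcases this with h | h | h | h | h
    · have h' : (i + 1) % 5 = 1 := by omega
      simp only [f, h, h']; exact hab
    · have h' : (i + 1) % 5 = 2 := by omega
      simp only [f, h, h']; exact hbc
    · have h' : (i + 1) % 5 = 3 := by omega
      simp only [f, h, h']; exact hcd
    · have h' : (i + 1) % 5 = 4 := by omega
      simp only [f, h, h']; exact hde
    · have h' : (i + 1) % 5 = 0 := by omega
      simp only [f, h, h']; exact hea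
  · intro i
    simp [f, Nat.add_mod_right]
  · intro i
    have : i % 5 = 0 ∨ i % 5 = 1 ∨ i % 5 = 2 ∨ i % 5 = 3 ∨ i % 5 = 4 := by omega
    rcases this with h | h | h | h | h
    · have h' : (i + 2) % 5 = 2 := by omega
      simp only [f, h, h']; exact hd1
    · have h' : (i + 2) % 5 = 3 := by omega
      simp only [f, h, h']; exact hd3
    · have h' : (i + 2) % 5 = 4 := by omega
      simp only [f, h, h']; exact hd5
    · have h' : (i + 2) % 5 = 0 := by omega
      simp only [f, h, h']; rw [G.dist_comm]; exact hd2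
    · have h' : (i + 2) % 5 = 1 := by omega
      simp only [f, h, h']; rw [G.dist_comm]; exact hd4

end basics

section QT

variable {V : Type u} {G : SimpleGraph V}

def QC (G : SimpleGraph V) (m : ℕ) : Prop :=
  ∀ v z x y : V, G.Adj z x → G.Adj z y → G.dist v z = m + 1 → G.dist v x = m → G.dist v y = m →
    x ≠ y → G.Adj x y

def TC (G : SimpleGraph V) (m : ℕ) : Prop :=
  ∀ v x y : V, G.Adj x y → G.dist v x = m + 1 → G.dist v y = m + 1 →
    ∃ u, G.Adj u x ∧ G.Adj u y ∧ G.dist v u = m

lemma QC_zero (hc : G.Connected) : QC G 0 := by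
  intro v z x y _ _ _ hx hy hxy
  rw [hc.dist_eq_zero_iff] at hx hy
  exact absurd (hx.symm.trans hy) hxy

lemma TC_zero : TC G 0 := by
  intro v x y hxy hx hy
  refine ⟨v, ?_, ?_, by simp⟩
  · exact SimpleGraph.dist_eq_one_iff_adj.1 hx
  · exact SimpleGraph.dist_eq_one_iff_adj.1 hy

/-- the rotation step for even cycles -/
lemma rot_even (hc : G.Connected) (h4 : C4Free G) (h5 : C5Free G) (m : ℕ)
    (hQ : QC G m) (hT : TC G m) (c : ℕ → V) (hadj : ∀ i, G.Adj (c i) (c (i + 1)))
    (hper : ∀ i, c (i + 2 * (m + 2)) = c i)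
    (hd : G.dist (c 0) (c (m + 2)) = m + 2)
    (hne : c (m + 1) ≠ c (m + 3)) (hna : ¬ G.Adj (c (m + 1)) (c (m + 3))) :
    G.dist (c 1) (c (m + 3)) = m + 2 := by
  have hvz := hd
  have hpx_le := dist_seq_le hc c hadj 1 m
  have hvp : G.Adj (c 0) (c 1) := hadj 0
  have hxz : G.Adj (c (m + 1)) (c (m + 2)) := hadj (m + 1)
  have hzy : G.Adj (c (m + 2)) (c (m + 3)) := hadj (m + 2)
  have hyv_le : G.dist (c (m + 3)) (c 0) ≤ m + 1 := by
    have h := dist_seq_le hc c hadj (m + 3) (m + 1)
    have h' : c (m + 3 + (m + 1)) = c 0 := by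
      have := hper 0
      rw [← this]; congr 1; omega
    rwa [h'] at h
  have h1m : (1 : ℕ) + m = m + 1 := by omega
  rw [h1m] at hpx_le
  generalize c 0 = v at *
  generalize c 1 = p at *
  generalize c (m + 1) = x at *
  generalize c (m + 2) = z at *
  generalize c (m + 3) = y at *
  rw [G.dist_comm] at hyv_le
  -- basic distances
  have hvz' : G.dist z v = m + 2 := by rw [G.dist_comm]; exact hvz
  have e1 := dist_adj_le hc (v := v) hxz.symm
  have e2 := dist_adj_le hc (v := v) hzy
  have e3 := dist_adj_le hc (v := p) hxz.symm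
  have e4 := dist_adj_le hc (v := z) hvp
  have e5 := dist_adj_le hc (v := x) hvp
  have e5' := dist_adj_le hc (v := y) hvp.symm
  have e6 := dist_adj_le hc (v := p) hzy
  have c1 := G.dist_comm (u := p) (v := z)
  have c2 := G.dist_comm (u := v) (v := x)
  have c3 := G.dist_comm (u := p) (v := x)
  have c4 := G.dist_comm (u := p) (v := y)
  have c5 := G.dist_comm (u := v) (v := y)
  have hpz : G.dist p z = m + 1 := by omega
  have hpx : G.dist p x = m := by omega
  have hvx : G.dist v x = m + 1 := by omega
  have hvy : G.dist v y = m + 1 := by omega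
  by_contra hcon
  have hcase : G.dist p y = m ∨ G.dist p y = m + 1 := by omega
  rcases hcase with h | h
  · exact hna (hQ p z x y hxz.symm hzy hpz hpx h hne)
  · -- get `u`
    obtain ⟨u, hup, huv, hyu⟩ := hT y p v hvp.symm (by omega) (by omega)
    have f1 := dist_adj_le hc (v := u) hzy
    have f2 := dist_adj_le hc (v := z) huv.symm
    have c6 := G.dist_comm (u := u) (v := z)
    have c7 := G.dist_comm (u := u) (v := y)
    have huz : G.dist u z = m + 1 := by omega
    rcases Nat.eq_zero_or_pos m with hm | hm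
    · subst hm
      have hpx' : p = x := (hc.dist_eq_zero_iff).1 hpx
      have huy' : y = u := (hc.dist_eq_zero_iff).1 hyu
      subst hpx'; subst huy'
      exact hna hup.symm
    · obtain ⟨t, htp, htu, hzt⟩ := hT z p u hup.symm (by omega) (by omega)
      obtain ⟨g, hg0, hg1, hg2⟩ := exists_geodesic hc z t
      -- x'' = g 1
      have hgz : G.Adj z (g 1) := by
        have := hg2 0 (by omega)
        rwa [hg0] at this
      set q := g 1 with hq
      have hqt : G.dist q t ≤ m - 1 := by
        -- along g from 1 to m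
        have key : ∀ j, 1 + j ≤ G.dist z t → G.dist q (g (1 + j)) ≤ j := by
          intro j
          induction j with
          | zero => intro _; simp [hq]
          | succ j ih =>
            intro hj
            have i1 := ih (by omega)
            have i2 := dist_adj_le hc (v := q) (hg2 (1 + j) (by omega)).symm
            have : 1 + j + 1 = 1 + (j + 1) := by omega
            rw [this] at i2
            omega
        have := key (m - 1) (by omega)
        have e : 1 + (m - 1) = G.dist z t := by omega
        rw [e, hg1] at this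
        exact this
      have g1 := dist_adj_le hc (v := q) htp.symm
      have g2 := dist_adj_le hc (v := q) htu.symm
      have c8 := G.dist_comm (u := q) (v := p)
      have c9 := G.dist_comm (u := q) (v := u)
      have g3 := dist_adj_le hc (v := p) hgz
      have g4 := dist_adj_le hc (v := u) hgz
      have hpq : G.dist p q = m := by omega
      have huq : G.dist u q = m := by omega
      have huy : G.dist u y = m := by omega
      have hxq : x = q ∨ G.Adj x q := by
        by_cases hxq : x = q
        · exact Or.inl hxq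
        · exact Or.inr (hQ p z x q hxz.symm hgz hpz hpx hpq hxq)
      have hyq : y = q ∨ G.Adj y q := by
        by_cases hyq : y = q
        · exact Or.inl hyq
        · exact Or.inr (hQ u z y q hzy hgz huz huy huq hyq)
      have hxq' : G.Adj x q := by
        rcases hxq with h' | h'
        · rcases hyq with h'' | h''
          · exact absurd (h'.trans h''.symm) hne
          · rw [← h'] at h''; exact absurd h''.symm hna
        · exact h'
      have hyq' : G.Adj y q := by
        rcases hyq with h' | h'
        · rw [← h'] at hxq'; exact absurd hxq' hna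
        · exact h'
      have g5 := dist_adj_le hc (v := v) hgz
      have g6 := dist_adj_le hc (v := q) hvp
      have c10 := G.dist_comm (u := q) (v := v)
      have hvq : G.dist v q = m + 1 := by omega
      obtain ⟨w1, hw1x, hw1q, hvw1⟩ := hT v x q hxq' hvx hvq
      obtain ⟨w2, hw2y, hw2q, hvw2⟩ := hT v y q hyq' hvy hvq
      -- levels
      have lev : ∀ a b : V, G.dist v a = m → G.dist v b = m + 2 → ¬ G.Adj a b := by
        intro a b ha hb hab
        have := dist_adj_le hc (v := v) hab.symm
        omega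
      have n01 : ∀ {a b : V}, G.dist v a = m → G.dist v b = m + 1 → a ≠ b := by
        intro a b ha hb hab
        rw [hab, hb] at ha
        exact absurd ha (Nat.succ_ne_self m)
      have n02 : ∀ {a b : V}, G.dist v a = m → G.dist v b = m + 2 → a ≠ b := by
        intro a b ha hb hab
        rw [hab, hb] at ha
        exact absurd ha (by clear * -; omega)
      have case4 : ∀ w, G.dist v w = m → G.Adj w x → G.Adj w y → False := by
        intro w hw hwx hwy
        rcases h4 w x z y hwx hxz hzy hwy.symm (n02 hw hvz) hne with h' | h'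
        · exact lev w z hw hvz h'
        · exact hna h'
      by_cases hww : w1 = w2
      · subst hww
        exact case4 w1 hvw1 hw1x hw2y
      · have hww' : G.Adj w1 w2 := hQ v q w1 w2 hw1q.symm hw2q.symm hvq hvw1 hvw2 hww
        rcases h5 x w1 w2 y z hw1x.symm hww' hw2y hzy.symm hxz.symm (n01 hvw2 hvx).symm hne
          (n01 hvw1 hvy) (n02 hvw1 hvz) (n02 hvw2 hvz) with h' | h' | h' | h' | h'
        · exact case4 w2 hvw2 h'.symm hw2y
        · exact hna h'
        · exact case4 w1 hvw1 hw1x h'
        · exact lev w1 z hvw1 hvz h'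
        · exact lev w2 z hvw2 hvz h'

/-- the rotation step for odd cycles -/
lemma rot_odd (hc : G.Connected) (h4 : C4Free G) (m : ℕ)
    (hQ : QC G (m + 1)) (hT : TC G m) (c : ℕ → V) (hadj : ∀ i, G.Adj (c i) (c (i + 1)))
    (hper : ∀ i, c (i + (2 * (m + 2) + 1)) = c i)
    (hd : G.dist (c 0) (c (m + 2)) = m + 2) (hd' : G.dist (c 0) (c (m + 3)) = m + 2)
    (hno : ∀ u, G.Adj u (c (m + 2)) → G.Adj u (c (m + 3)) → G.dist (c 0) u = m + 1 → False) :
    G.dist (c 1) (c (m + 3)) = m + 2 ∧ G.dist (c 1) (c (m + 4)) = m + 2 ∧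
    ∀ u, G.Adj u (c (m + 3)) → G.Adj u (c (m + 4)) → G.dist (c 1) u = m + 1 → False := by
  have hpx_le := dist_seq_le hc c hadj 1 (m + 1)
  have hvp : G.Adj (c 0) (c 1) := hadj 0
  have hxy : G.Adj (c (m + 2)) (c (m + 3)) := hadj (m + 2)
  have hyw : G.Adj (c (m + 3)) (c (m + 4)) := hadj (m + 3)
  have hwv_le : G.dist (c (m + 4)) (c 0) ≤ m + 1 := by
    have h := dist_seq_le hc c hadj (m + 4) (m + 1)
    have h' : c (m + 4 + (m + 1)) = c 0 := by
      have := hper 0
      rw [← this]; congr 1; omega
    rwa [h'] at h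
  have h1m : (1 : ℕ) + (m + 1) = m + 2 := by omega
  rw [h1m] at hpx_le
  generalize c 0 = v at *
  generalize c 1 = p at *
  generalize c (m + 2) = x at *
  generalize c (m + 3) = y at *
  generalize c (m + 4) = w at *
  rw [G.dist_comm] at hwv_le
  have e1 := dist_adj_le hc (v := v) hyw
  have e2 := dist_adj_le hc (v := x) hvp
  have e3 := dist_adj_le hc (v := y) hvp
  have e4 := dist_adj_le hc (v := w) hvp.symm
  have e5 := dist_adj_le hc (v := p) hxy.symm
  have e6 := dist_adj_le hc (v := p) hyw
  have c1 := G.dist_comm (u := p) (v := x)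
  have c2 := G.dist_comm (u := p) (v := y)
  have c3 := G.dist_comm (u := p) (v := w)
  have c4 := G.dist_comm (u := v) (v := x)
  have c5 := G.dist_comm (u := v) (v := y)
  have c6 := G.dist_comm (u := v) (v := w)
  have hvw : G.dist v w = m + 1 := by omega
  have hpx : G.dist p x = m + 1 := by omega
  have nevw : ∀ a b : V, G.dist v a ≠ G.dist v b → a ≠ b := by
    intro a b hab hab'
    exact hab (by rw [hab'])
  have hpy : G.dist p y = m + 2 := by
    by_contra hcon
    have hpy : G.dist p y = m + 1 := by omega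
    obtain ⟨u, hux, huy, hpu⟩ := hT p x y hxy hpx hpy
    have f1 := dist_adj_le hc (v := u) hvp
    have c7 := G.dist_comm (u := u) (v := v)
    have c8 := G.dist_comm (u := u) (v := p)
    have f2 := dist_adj_le hc (v := v) hux.symm
    exact hno u hux huy (by omega)
  have hxw : x ≠ w := nevw _ _ (by omega)
  have hpw : G.dist p w = m + 2 := by
    by_contra hcon
    have hpw : G.dist p w = m + 1 := by omega
    have hxw' := hQ p y x w hxy.symm hyw hpy hpx hpw hxw
    exact hno w hxw'.symm hyw.symm hvw
  refine ⟨hpy, hpw, ?_⟩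
  intro u huy huw hpu
  have hxu : x ≠ u := by
    intro h
    rw [← h] at huw
    exact hno w huw.symm hyw.symm hvw
  have hxu' : G.Adj x u := hQ p y x u hxy.symm huy.symm hpy hpx hpu hxu
  have f1 := dist_adj_le hc (v := v) huw
  have f2 := dist_adj_le hc (v := v) huy.symm
  by_cases hvu : G.dist v u = m + 1
  · exact hno u hxu'.symm huy hvu
  · have hvu : G.dist v u = m + 2 := by omega
    obtain ⟨u2, hu2x, hu2u, hpu2⟩ := hT p x u hxu' hpx hpu
    have f3 := dist_adj_le hc (v := u2) hvp
    have c7 := G.dist_comm (u := u2) (v := v)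
    have c8 := G.dist_comm (u := u2) (v := p)
    have f4 := dist_adj_le hc (v := v) hu2x.symm
    have hvu2 : G.dist v u2 = m + 1 := by omega
    by_cases hu2w : u2 = w
    · rw [hu2w] at hu2x
      exact hno w hu2x hyw.symm hvw
    · have hu2w' : G.Adj u2 w := hQ v u u2 w hu2u.symm huw hvu hvu2 hvw hu2w
      rcases h4 x u2 w y hu2x.symm hu2w' hyw.symm hxy.symm hxw (nevw _ _ (by omega)) with h' | h'
      · exact hno w h'.symm hyw.symm hvw
      · exact hno u2 hu2x h' hvu2

lemma QC_succ (hc : G.Connected) (hG : NoIso G) (m : ℕ) (hQ : QC G m) (hT : TC G m) :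
    QC G (m + 1) := by
  have h4 := NoIso.c4 hc hG
  have h5 := NoIso.c5 hc hG
  intro v z x y hzx hzy hvz hvx hvy hxy
  by_contra hna
  obtain ⟨g, hg0, hg1, hg2⟩ := exists_geodesic hc v x
  obtain ⟨g', hg'0, hg'1, hg'2⟩ := exists_geodesic hc v y
  rw [hvx] at hg1 hg2
  rw [hvy] at hg'1 hg'2
  let P : ℕ → V := fun i => if i ≤ m + 1 then g i else z
  obtain ⟨c, hadj, hper, hcP, hcQ⟩ := mk_cycle (G := G) P g' (m + 2) (m + 1)
    (by simp [P, hg0, hg'0])
    (by
      intro i hi
      by_cases h : i + 1 ≤ m + 1
      · simp only [P]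
        rw [if_pos (by omega), if_pos h]
        exact hg2 i (by omega)
      · have h' : i = m + 1 := by omega
        simp only [P]
        rw [if_pos (by omega), if_neg h, h', hg1]
        exact hzx.symm)
    hg'2
    (by
      simp only [P]
      rw [if_neg (by omega), hg'1]
      exact hzy)
  have hc0 : c 0 = v := by rw [hcP 0 (by omega)]; simp [P, hg0]
  have hcx : c (m + 1) = x := by rw [hcP (m + 1) (by omega)]; simp [P, hg1]
  have hcz : c (m + 2) = z := by rw [hcP (m + 2) (by omega)]; simp [P]
  have hcy : c (m + 3) = y := by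
    have := hcQ 0 (by omega)
    simpa [hg'1] using this
  have hper' : ∀ i, c (i + 2 * (m + 2)) = c i := by
    intro i
    have := hper i
    rw [← this]; congr 1; omega
  have key : ∀ i, G.dist (c i) (c (i + (m + 2))) = m + 2 ∧ c (i + (m + 1)) ≠ c (i + (m + 3)) ∧
      ¬ G.Adj (c (i + (m + 1))) (c (i + (m + 3))) := by
    intro i
    induction i with
    | zero =>
      simp only [Nat.zero_add, hc0, hcx, hcz, hcy]
      exact ⟨hvz, hxy, hna⟩
    | succ i ih =>
      obtain ⟨i1, i2, i3⟩ := ih
      have r := rot_even hc h4 h5 m hQ hT (fun j => c (i + j)) (fun j => hadj (i + j))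
        (fun j => by
          have := hper' (i + j)
          rw [← this]; congr 1; omega) (by simpa using i1) i2 i3
      have hclose : G.dist (c i) (c (i + (m + 4))) ≤ m := by
        have h := dist_seq_le hc c hadj (i + (m + 4)) m
        have h' : c (i + (m + 4) + m) = c i := by
          have := hper' i
          rw [← this]; congr 1; omega
        rw [h', G.dist_comm] at h
        exact h
      have e1 : i + 1 + (m + 2) = i + (m + 3) := by omega
      have e2 : i + 1 + (m + 1) = i + (m + 2) := by omega
      have e3 : i + 1 + (m + 3) = i + (m + 4) := by omega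
      rw [e1, e2, e3]
      refine ⟨r, ?_, ?_⟩
      · intro h
        rw [← h] at hclose
        omega
      · intro h
        have := dist_adj_le hc (v := c i) h
        omega
  exact hG (m + 2) (2 * (m + 2)) c (by omega) (Or.inl rfl) hadj hper' (fun i => (key i).1)

lemma TC_succ (hc : G.Connected) (hG : NoIso G) (m : ℕ) (hQ : QC G (m + 1)) (hT : TC G m) :
    TC G (m + 1) := by
  have h4 := NoIso.c4 hc hG
  intro v x y hxy hvx hvy
  by_contra hno
  push Not at hno
  obtain ⟨g, hg0, hg1, hg2⟩ := exists_geodesic hc v x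
  obtain ⟨g', hg'0, hg'1, hg'2⟩ := exists_geodesic hc v y
  rw [hvx] at hg1 hg2
  rw [hvy] at hg'1 hg'2
  obtain ⟨c, hadj, hper, hcP, hcQ⟩ := mk_cycle (G := G) g g' (m + 2) (m + 2)
    (by simp [hg0, hg'0]) hg2 hg'2 (by rw [hg1, hg'1]; exact hxy)
  have hc0 : c 0 = v := by rw [hcP 0 (by omega)]; simp [hg0]
  have hcx : c (m + 2) = x := by rw [hcP (m + 2) (by omega)]; simp [hg1]
  have hcy : c (m + 3) = y := by
    have := hcQ 0 (by omega)
    simpa [hg'1] using this
  have hper' : ∀ i, c (i + (2 * (m + 2) + 1)) = c i := by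
    intro i
    have := hper i
    rw [← this]; congr 1; omega
  have key : ∀ i, G.dist (c i) (c (i + (m + 2))) = m + 2 ∧ G.dist (c i) (c (i + (m + 3))) = m + 2 ∧
      ∀ u, G.Adj u (c (i + (m + 2))) → G.Adj u (c (i + (m + 3))) →
        G.dist (c i) u = m + 1 → False := by
    intro i
    induction i with
    | zero =>
      simp only [Nat.zero_add, hc0, hcx, hcy]
      exact ⟨hvx, hvy, hno⟩
    | succ i ih =>
      obtain ⟨i1, i2, i3⟩ := ih
      have r := rot_odd hc h4 m hQ hT (fun j => c (i + j)) (fun j => hadj (i + j))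
        (fun j => by
          have := hper' (i + j)
          rw [← this]; congr 1; omega) (by simpa using i1) (by simpa using i2) (by simpa using i3)
      have e1 : i + 1 + (m + 2) = i + (m + 3) := by omega
      have e3 : i + 1 + (m + 3) = i + (m + 4) := by omega
      rw [e1, e3]
      exact r
  exact hG (m + 2) (2 * (m + 2) + 1) c (by omega) (Or.inr rfl) hadj hper' (fun i => (key i).1)

theorem QT (hc : G.Connected) (hG : NoIso G) (m : ℕ) : QC G m ∧ TC G m := by
  induction m with
  | zero => exact ⟨QC_zero hc, TC_zero⟩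
  | succ m ih =>
    have h1 := QC_succ hc hG m ih.1 ih.2
    exact ⟨h1, TC_succ hc hG m h1 ih.2⟩

end QT

section core

variable {W : Type u} {H : SimpleGraph W}

/-- `QC` for all vertices different from `w` -/
def QCw (H : SimpleGraph W) (w : W) : Prop :=
  ∀ (m : ℕ) (v z a b : W), v ≠ w → z ≠ w → a ≠ w → b ≠ w → H.Adj z a → H.Adj z b →
    H.dist v z = m + 1 → H.dist v a = m → H.dist v b = m → a ≠ b → H.Adj a b

/-- `TC` for all vertices different from `w` -/
def TCw (H : SimpleGraph W) (w : W) : Prop :=
  ∀ (m : ℕ) (v a b : W), v ≠ w → a ≠ w → b ≠ w → H.Adj a b →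
    H.dist v a = m + 1 → H.dist v b = m + 1 →
    ∃ u, u ≠ w ∧ H.Adj u a ∧ H.Adj u b ∧ H.dist v u = m

lemma ne_of_dist {v a b : W} {i j : ℕ} (ha : H.dist v a = i) (hb : H.dist v b = j) (hij : i ≠ j) :
    a ≠ b := by
  intro h
  rw [h, hb] at ha
  exact hij ha.symm

lemma not_adj_of_dist (hc : H.Connected) {v a b : W} {i j : ℕ} (ha : H.dist v a = i)
    (hb : H.dist v b = j) (hij : i + 1 < j) : ¬ H.Adj a b := by
  intro h
  have := dist_adj_le hc (v := v) h.symm
  omega

/-- a path `a - u - b` (possibly degenerate at the end) has length at most two -/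
lemma dist_le_two (hc : H.Connected) {a u b : W} (h1 : H.Adj a u) (h2 : u = b ∨ H.Adj u b) :
    H.dist a b ≤ 2 := by
  have e : H.dist a u = 1 := SimpleGraph.dist_eq_one_iff_adj.2 h1
  rcases h2 with h2 | h2
  · rw [← h2]; omega
  · have := dist_adj_le hc (v := a) h2.symm
    omega

lemma dist_le_three (hc : H.Connected) {a u v b : W} (h1 : H.Adj a u) (h2 : H.Adj u v)
    (h3 : H.Adj v b) : H.dist a b ≤ 3 := by
  have e : H.dist a u = 1 := SimpleGraph.dist_eq_one_iff_adj.2 h1
  have e1 := dist_adj_le hc (v := a) h2.symm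
  have e2 := dist_adj_le hc (v := a) h3.symm
  omega

lemma core_even (hc : H.Connected) (h5 : C5Free H) (w : W) (hQ : QCw H w) (hT : TCw H w)
    (m : ℕ) (x a b a' b' z : W) (hxw : x ≠ w) (haw : a ≠ w) (hbw : b ≠ w) (ha'w : a' ≠ w)
    (hb'w : b' ≠ w) (hzw : z ≠ w) (wa : H.Adj w a) (wb : H.Adj w b) (wx : H.Adj w x)
    (aa' : H.Adj a a') (bb' : H.Adj b b') (ax : H.Adj a x) (bx : H.Adj b x)
    (dzw : H.dist z w = m + 3) (dza : H.dist z a = m + 2) (dzb : H.dist z b = m + 2)
    (dza' : H.dist z a' = m + 1) (dzb' : H.dist z b' = m + 1) (dab' : H.dist a b' = 3)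
    (dba' : H.dist b a' = 3) (hab : a ≠ b) (nab : ¬ H.Adj a b) : False := by
  have e1 := dist_adj_le hc (v := z) wx
  have e2 := dist_adj_le hc (v := z) ax.symm
  by_cases hx : H.dist z x = m + 2
  · obtain ⟨u, huw, hua, hux, hzu⟩ := hT (m + 1) z a x hzw haw hxw ax dza hx
    obtain ⟨u', hu'w, hu'b, hu'x, hzu'⟩ := hT (m + 1) z b x hzw hbw hxw bx dzb hx
    have h1 : u = a' ∨ H.Adj u a' := by
      by_cases h : u = a'
      · exact Or.inl h
      · exact Or.inr (hQ (m + 1) z a u a' hzw haw huw ha'w hua.symm aa' dza hzu dza' h)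
    have h2 : u' = b' ∨ H.Adj u' b' := by
      by_cases h : u' = b'
      · exact Or.inl h
      · exact Or.inr (hQ (m + 1) z b u' b' hzw hbw hu'w hb'w hu'b.symm bb' dzb hzu' dzb' h)
    have nau' : ¬ H.Adj a u' := by
      intro h
      have := dist_le_two hc h h2
      omega
    have nbu : ¬ H.Adj b u := by
      intro h
      have := dist_le_two hc h h1
      omega
    have huu' : u ≠ u' := by
      intro h
      exact nau' (h ▸ hua.symm)
    have huu : H.Adj u u' := hQ (m + 1) z x u u' hzw hxw huw hu'w hux.symm hu'x.symm hx hzu hzu' huu'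
    rcases h5 a u u' b w hua.symm huu hu'b wb.symm wa
      (ne_of_dist dza hzu' (by omega)) hab (ne_of_dist hzu dzb (by omega)) huw hu'w
      with h | h | h | h | h
    · exact nau' h
    · exact nab h
    · exact nbu h.symm
    · exact not_adj_of_dist hc hzu dzw (by omega) h
    · exact not_adj_of_dist hc hzu' dzw (by omega) h
  · have hx : H.dist z x = m + 2 + 1 := by omega
    exact nab (hQ (m + 2) z x a b hzw hxw haw hbw ax.symm bx.symm hx dza dzb hab)

/-- first part of the odd case: `x` is close to `z` -/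
lemma core_odd_A (hc : H.Connected) (w : W) (hQ : QCw H w) (hT : TCw H w)
    (m : ℕ) (x a b b' z : W) (hxw : x ≠ w) (haw : a ≠ w) (hbw : b ≠ w)
    (hb'w : b' ≠ w) (hzw : z ≠ w) (wx : H.Adj w x)
    (bb' : H.Adj b b') (ax : H.Adj a x) (bx : H.Adj b x)
    (dzw : H.dist z w = m + 3) (dza : H.dist z a = m + 2) (dzb : H.dist z b = m + 3)
    (dzb' : H.dist z b' = m + 2) (dab' : H.dist a b' = 3)
    (nab : ¬ H.Adj a b) : H.dist z x = m + 2 := by
  have e1 := dist_adj_le hc (v := z) wx
  have e2 := dist_adj_le hc (v := z) ax.symm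
  by_contra hx
  have hx : H.dist z x = m + 3 := by omega
  obtain ⟨u, huw, hub, hux, hzu⟩ := hT (m + 2) z b x hzw hbw hxw bx dzb hx
  have hau : a ≠ u := by
    intro h
    rw [← h] at hub
    exact nab hub
  have hau' : H.Adj a u := hQ (m + 2) z x a u hzw hxw haw huw ax.symm hux.symm hx dza hzu hau
  have h1 : u = b' ∨ H.Adj u b' := by
    by_cases h : u = b'
    · exact Or.inl h
    · exact Or.inr (hQ (m + 2) z b u b' hzw hbw huw hb'w hub.symm bb' dzb hzu dzb' h)
  have := dist_le_two hc hau' h1
  omega

/-- second part of the odd case: the vertex `s` -/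
lemma core_odd_B (hc : H.Connected) (w : W) (hQ : QCw H w) (hT : TCw H w)
    (m : ℕ) (x t a b a' a'' z z' : W) (hxw : x ≠ w) (htw : t ≠ w) (haw : a ≠ w)
    (ha'w : a' ≠ w) (ha''w : a'' ≠ w)
    (aa' : H.Adj a a') (a'a'' : H.Adj a' a'') (ax : H.Adj a x) (bx : H.Adj b x)
    (tz : H.Adj t z) (tz' : H.Adj t z') (dtx : H.dist t x = m + 1)
    (daz' : H.dist a z' = m + 3) (da'z : H.dist a' z = m + 1) (da'z' : H.dist a' z' = m + 2)
    (da''z : H.dist a'' z = m) (dba' : H.dist b a' = 3) (daa'' : H.dist a a'' = 2) :
    ∃ s, s ≠ w ∧ H.Adj s a ∧ H.Adj s x ∧ H.Adj s a'' ∧ H.dist t s = m + 1 := by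
  have e1 := dist_adj_le hc (v := t) ax
  have e2 := dist_adj_le hc (v := a) tz'.symm
  have e3 := dist_adj_le hc (v := a') tz
  have e4 := dist_adj_le hc (v := a') tz'.symm
  have e5 := dist_adj_le hc (v := a'') tz
  have e6 := dist_adj_le hc (v := t) a'a''
  have k1 := H.dist_comm (u := t) (v := a)
  have k2 := H.dist_comm (u := t) (v := a')
  have k3 := H.dist_comm (u := t) (v := a'')
  have k4 := H.dist_comm (u := t) (v := x)
  have hta : H.dist t a = m + 2 := by omega
  have hxa' : x ≠ a' := by
    intro h
    rw [h] at bx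
    have : H.dist b a' = 1 := SimpleGraph.dist_eq_one_iff_adj.2 bx
    omega
  have nxa' : ¬ H.Adj x a' := by
    intro h
    have := dist_le_two hc bx (Or.inr h)
    omega
  have hta' : H.dist t a' = m + 2 := by
    by_contra hcon
    have h' : H.dist t a' = m + 1 := by omega
    exact nxa' (hQ (m + 1) t a x a' htw haw hxw ha'w ax aa' hta dtx h' hxa')
  obtain ⟨s, hsw, hsa, hsa', hts⟩ := hT (m + 1) t a a' htw haw ha'w aa' hta hta'
  have hsx : s ≠ x := by
    intro h
    rw [h] at hsa'
    exact nxa' hsa'
  have hsx' : H.Adj s x := hQ (m + 1) t a s x htw haw hsw hxw hsa.symm ax hta hts dtx hsx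
  have hta'' : H.dist t a'' = m + 1 := by omega
  have hsa'' : s ≠ a'' := by
    intro h
    rw [h] at hsa
    have : H.dist a'' a = 1 := SimpleGraph.dist_eq_one_iff_adj.2 hsa
    rw [H.dist_comm] at this
    omega
  have hsa''' : H.Adj s a'' :=
    hQ (m + 1) t a' s a'' htw ha'w hsw ha''w hsa'.symm a'a'' hta' hts hta'' hsa''
  exact ⟨s, hsw, hsa, hsx', hsa''', hts⟩

/-- the odd case of length seven -/
lemma core_seven (hc : H.Connected) (h5 : C5Free H) (w x a b z z' s s' : W)
    (hsw : s ≠ w) (hs'w : s' ≠ w)
    (wa : H.Adj w a) (wb : H.Adj w b) (zz' : H.Adj z z')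
    (sa : H.Adj s a) (sx : H.Adj s x) (sz : H.Adj s z)
    (s'b : H.Adj s' b) (s'x : H.Adj s' x) (s'z' : H.Adj s' z')
    (hab : a ≠ b) (nab : ¬ H.Adj a b)
    (dzb : H.dist z b = 3) (daz' : H.dist a z' = 3) (dwz : H.dist w z = 3) (dwz' : H.dist w z' = 3)
    (dxz : H.dist x z = 2) (dxz' : H.dist x z' = 2) : False := by
  have nzs' : ¬ H.Adj z s' := by
    intro h
    have := dist_le_two hc h (Or.inr s'b)
    omega
  have nas' : ¬ H.Adj a s' := by
    intro h
    have := dist_le_two hc h (Or.inr s'z')
    omega
  have nsb : ¬ H.Adj s b := by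
    intro h
    have := dist_le_two hc sz.symm (Or.inr h)
    omega
  have nsz' : ¬ H.Adj s z' := by
    intro h
    have := dist_le_two hc sa.symm (Or.inr h)
    omega
  have nsw : ¬ H.Adj s w := by
    intro h
    have := dist_le_two hc h.symm (Or.inr sz)
    omega
  have ns'w : ¬ H.Adj s' w := by
    intro h
    have := dist_le_two hc h.symm (Or.inr s'z')
    omega
  have nss : s ≠ s' := by
    intro h
    rw [h] at nsz'
    exact nsz' s'z'
  have nzx : z ≠ x := by
    intro h
    rw [h] at dxz
    simp at dxz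
  have nzx' : ¬ H.Adj z x := by
    intro h
    have : H.dist x z = 1 := SimpleGraph.dist_eq_one_iff_adj.2 h.symm
    omega
  have nz'x : x ≠ z' := by
    intro h
    rw [h] at dxz'
    simp at dxz'
  have nz'x' : ¬ H.Adj x z' := by
    intro h
    have : H.dist x z' = 1 := SimpleGraph.dist_eq_one_iff_adj.2 h
    omega
  by_cases hss : H.Adj s s'
  · have nas'' : a ≠ s' := by
      intro h
      rw [← h] at s'b
      exact nab s'b
    have nsb' : s ≠ b := by
      intro h
      rw [h] at sa
      exact nab sa.symm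
    rcases h5 a s s' b w sa.symm hss s'b wb.symm wa nas'' hab nsb' hsw hs'w with h | h | h | h | h
    · exact nas' h
    · exact nab h
    · exact nsb h
    · exact nsw h
    · exact ns'w h
  · have nzs'' : z ≠ s' := by
      intro h
      rw [← h] at s'x
      exact nzx' s'x
    have nsz'' : s ≠ z' := by
      intro h
      rw [h] at sx
      exact nz'x' sx.symm
    rcases h5 z s x s' z' sz.symm sx s'x.symm s'z' zz'.symm nzx nzs'' nss nsz'' nz'x
      with h | h | h | h | h
    · exact nzx' h
    · exact nzs' h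
    · exact hss h
    · exact nsz' h
    · exact nz'x' h

/-- the combinatorial core of the extension lemma -/
lemma core (hc : H.Connected) (h4 : C4Free H) (h5 : C5Free H) (w x : W) (hQ : QCw H w)
    (hT : TCw H w) (wx : H.Adj w x) (hdom : ∀ u, H.Adj w u → u = x ∨ H.Adj u x)
    (k n : ℕ) (c : ℕ → W) (hk : 2 ≤ k) (hn : n = 2 * k ∨ n = 2 * k + 1)
    (hadj : ∀ i, H.Adj (c i) (c (i + 1))) (hper : ∀ i, c (i + n) = c i)
    (hd : ∀ i, H.dist (c i) (c (i + k)) = k) (hw : c 0 = w) : False := by
  have D := dist_seq_eq hc c hadj k hd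
  have hper0 : c n = w := by
    have := hper 0
    rw [Nat.zero_add] at this
    rw [this, hw]
  -- no short cycles
  rcases Nat.lt_or_ge k 3 with hk3 | hk3
  · have hk2 : k = 2 := by omega
    subst hk2
    have nadj : ∀ i, c i ≠ c (i + 2) ∧ ¬ H.Adj (c i) (c (i + 2)) := by
      intro i
      refine ⟨?_, ?_⟩
      · intro h
        have := hd i
        rw [← h] at this
        simp at this
      · intro h
        have := hd i
        rw [SimpleGraph.dist_eq_one_iff_adj.2 h] at this
        omega
    rcases hn with hn | hn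
    · subst hn
      have a3 : H.Adj (c 3) (c 0) := by
        have := hadj 3
        rwa [hper0, ← hw] at this
      rcases h4 (c 0) (c 1) (c 2) (c 3) (hadj 0) (hadj 1) (hadj 2) a3 (nadj 0).1 (nadj 1).1
        with h | h
      · exact (nadj 0).2 h
      · exact (nadj 1).2 h
    · subst hn
      have a4 : H.Adj (c 4) (c 0) := by
        have := hadj 4
        rwa [hper0, ← hw] at this
      have e5 : c 5 = c 0 := by rw [hper0, hw]
      have e6 : c 6 = c 1 := hper 1
      have n3 := nadj 3
      have n4 := nadj 4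
      rw [e5] at n3
      rw [e6] at n4
      rcases h5 (c 0) (c 1) (c 2) (c 3) (c 4) (hadj 0) (hadj 1) (hadj 2) (hadj 3) a4 (nadj 0).1
        (n3.1).symm (nadj 1).1 (n4.1).symm (nadj 2).1 with h | h | h | h | h
      · exact (nadj 0).2 h
      · exact n3.2 h.symm
      · exact (nadj 1).2 h
      · exact n4.2 h.symm
      · exact (nadj 2).2 h
  -- vertices off `0` are not `w`
  have hne : ∀ i, 0 < i → i < n → c i ≠ w := by
    intro i hi hin h
    rcases Nat.lt_or_ge k i with h1 | h1
    · have := D i (n - i) (by omega)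
      have e : i + (n - i) = n := by omega
      rw [e, hper0, h] at this
      simp at this
      omega
    · have := D 0 i h1
      rw [Nat.zero_add, hw, h] at this
      simp at this
      omega
  obtain ⟨m, rfl⟩ : ∃ m, k = m + 3 := ⟨k - 3, by omega⟩
  have hc1 : ∀ i, c (n + i) = c i := fun i => by rw [Nat.add_comm]; exact hper i
  have hnes : c (m + 3) ≠ w ∧ c 1 ≠ w ∧ c 2 ≠ w ∧ c 3 ≠ w ∧ c (n - 1) ≠ w ∧ c (n - 2) ≠ w ∧
      c (n - 3) ≠ w :=
    ⟨hne _ (by omega) (by omega), hne _ (by omega) (by omega), hne _ (by omega) (by omega),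
      hne _ (by omega) (by omega), hne _ (by omega) (by omega), hne _ (by omega) (by omega),
      hne _ (by omega) (by omega)⟩
  have D' : ∀ i d j, i + d = j → d ≤ m + 3 → H.dist (c i) (c j) = d := by
    intro i d j h1 h2
    have := D i d h2
    rwa [h1] at this
  have dists : H.dist (c (n - 1)) (c 1) = 2 ∧ H.dist (c (n - 1)) (c 2) = 3 ∧
      H.dist (c (n - 2)) (c 1) = 3 ∧ H.dist (c 0) (c (m + 3)) = m + 3 ∧
      H.dist (c 1) (c (m + 3)) = m + 2 ∧ H.dist (c 2) (c (m + 3)) = m + 1 ∧
      H.dist (c 3) (c (m + 3)) = m := by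
    refine ⟨?_, ?_, ?_, ?_, ?_, ?_, ?_⟩
    · rw [← hc1 1]; exact D' _ _ _ (by omega) (by omega)
    · rw [← hc1 2]; exact D' _ _ _ (by omega) (by omega)
    · rw [← hc1 1]; exact D' _ _ _ (by omega) (by omega)
    · exact D' _ _ _ (by omega) (by omega)
    · exact D' _ _ _ (by omega) (by omega)
    · exact D' _ _ _ (by omega) (by omega)
    · exact D' _ _ _ (by omega) (by omega)
  have adjs : H.Adj w (c 1) ∧ H.Adj w (c (n - 1)) ∧ H.Adj (c (n - 1)) (c (n - 2)) ∧
      H.Adj (c (n - 2)) (c (n - 3)) := by
    refine ⟨?_, ?_, ?_, ?_⟩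
    · have := hadj 0
      rwa [hw] at this
    · have := hadj (n - 1)
      have e : n - 1 + 1 = n := by omega
      rw [e, hper0] at this
      exact this.symm
    · have := hadj (n - 2)
      have e : n - 2 + 1 = n - 1 := by omega
      rw [e] at this
      exact this.symm
    · have := hadj (n - 3)
      have e : n - 3 + 1 = n - 2 := by omega
      rw [e] at this
      exact this.symm
  have evens : n = 2 * (m + 3) → H.dist (c (m + 3)) (c (n - 1)) = m + 2 ∧
      H.dist (c (m + 3)) (c (n - 2)) = m + 1 := by
    intro hn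
    exact ⟨D' _ _ _ (by omega) (by omega), D' _ _ _ (by omega) (by omega)⟩
  have odds : n = 2 * (m + 3) + 1 → c (m + 4) ≠ w ∧
      H.dist (c (m + 3)) (c (n - 1)) = m + 3 ∧ H.dist (c (m + 3)) (c (n - 2)) = m + 2 ∧
      H.dist (c (m + 4)) w = m + 3 ∧ H.dist (c (m + 4)) (c (n - 1)) = m + 2 ∧
      H.dist (c (m + 4)) (c (n - 2)) = m + 1 ∧ H.dist (c (m + 4)) (c (n - 3)) = m ∧
      H.dist (c 1) (c (m + 4)) = m + 3 ∧ H.dist (c 2) (c (m + 4)) = m + 2 ∧
      H.dist (c 1) (c 3) = 2 ∧ H.dist (c (n - 3)) (c (n - 1)) = 2 ∧ (m = 0 → n - 3 = 4) ∧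
      (0 < m → H.dist (c (n - 1)) (c 3) = 4) := by
    intro hn
    refine ⟨hne _ (by omega) (by omega), ?_, ?_, ?_, ?_, ?_, ?_, ?_, ?_, ?_, ?_, ?_, ?_⟩
    · exact D' _ _ _ (by omega) (by omega)
    · exact D' _ _ _ (by omega) (by omega)
    · rw [← hper0]; exact D' _ _ _ (by omega) (by omega)
    · exact D' _ _ _ (by omega) (by omega)
    · exact D' _ _ _ (by omega) (by omega)
    · exact D' _ _ _ (by omega) (by omega)
    · exact D' _ _ _ (by omega) (by omega)
    · exact D' _ _ _ (by omega) (by omega)
    · exact D' _ _ _ (by omega) (by omega)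
    · exact D' _ _ _ (by omega) (by omega)
    · intro _; omega
    · intro _; rw [← hc1 3]; exact D' _ _ _ (by omega) (by omega)
  have zz' : H.Adj (c (m + 3)) (c (m + 4)) := hadj (m + 3)
  have c12 : H.Adj (c 1) (c 2) := hadj 1
  have c23 : H.Adj (c 2) (c 3) := hadj 2
  obtain ⟨hzw, haw, ha'w, ha''w, hbw, hb'w, hb''w⟩ := hnes
  obtain ⟨dba, dba', db'a, dwz, daz, da'z, da''z⟩ := dists
  obtain ⟨wa, wb, bb', b'b''⟩ := adjs
  rw [hw] at dwz
  clear hadj hper hd hk D hne hc1 D'
  have hab : c 1 ≠ c (n - 1) := by
    intro h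
    rw [h] at dba
    simp at dba
  have nab : ¬ H.Adj (c 1) (c (n - 1)) := by
    intro h
    rw [SimpleGraph.dist_eq_one_iff_adj.2 h.symm] at dba
    exact absurd dba (by decide)
  have ax : H.Adj (c 1) x := by
    rcases hdom _ wa with h | h
    · rcases hdom _ wb with h' | h'
      · exact absurd (h.trans h'.symm) hab
      · rw [← h] at h'
        exact absurd h'.symm nab
    · exact h
  have bx : H.Adj (c (n - 1)) x := by
    rcases hdom _ wb with h | h
    · rw [← h] at ax
      exact absurd ax nab
    · exact h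
  have hxw : x ≠ w := wx.ne'
  have dab' : H.dist (c 1) (c (n - 2)) = 3 := by rw [H.dist_comm]; exact db'a
  have dzw : H.dist (c (m + 3)) w = m + 3 := by rw [H.dist_comm]; exact dwz
  have dza : H.dist (c (m + 3)) (c 1) = m + 2 := by rw [H.dist_comm]; exact daz
  have dza' : H.dist (c (m + 3)) (c 2) = m + 1 := by rw [H.dist_comm]; exact da'z
  rcases hn with hn | hn
  · -- even
    obtain ⟨dzb, dzb'⟩ := evens hn
    exact core_even hc h5 w hQ hT m x (c 1) (c (n - 1)) (c 2) (c (n - 2)) (c (m + 3)) hxw
      haw hbw ha'w hb'w hzw wa wb wx c12 bb' ax bx dzw dza dzb dza' dzb' dab' dba' hab nab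
  · -- odd
    obtain ⟨hz'w, dzb, dzb', dz'w, dz'b, dz'b', dz'b'', daz', da'z', daa'', dbb'', hm0, hm1⟩ :=
      odds hn
    clear evens odds
    have dz'a : H.dist (c (m + 4)) (c 1) = m + 3 := by rw [H.dist_comm]; exact daz'
    have dz'a' : H.dist (c (m + 4)) (c 2) = m + 2 := by rw [H.dist_comm]; exact da'z'
    have dzx : H.dist (c (m + 3)) x = m + 2 :=
      core_odd_A hc w hQ hT m x (c 1) (c (n - 1)) (c (n - 2)) (c (m + 3)) hxw haw hbw hb'w hzw wx
        bb' ax bx dzw dza dzb dzb' dab' nab
    have dz'x : H.dist (c (m + 4)) x = m + 2 :=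
      core_odd_A hc w hQ hT m x (c (n - 1)) (c 1) (c 2) (c (m + 4)) hxw hbw haw ha'w hz'w wx
        c12 bx ax dz'w dz'b dz'a dz'a' dba' (fun h => nab h.symm)
    rw [H.dist_comm] at dzx dz'x
    obtain ⟨t, htw, tz, tz', hxt⟩ := hT (m + 1) x (c (m + 3)) (c (m + 4)) hxw hzw hz'w zz' dzx dz'x
    have htx : H.dist t x = m + 1 := by rw [H.dist_comm]; exact hxt
    obtain ⟨s, hsw, sa, sx, sa'', hts⟩ := core_odd_B hc w hQ hT m x t (c 1) (c (n - 1)) (c 2) (c 3)
      (c (m + 3)) (c (m + 4)) hxw htw haw ha'w ha''w c12 c23 ax bx tz tz'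
      htx daz' da'z da'z' da''z dba' daa''
    rcases Nat.eq_zero_or_pos m with hm | hm
    · subst hm
      obtain ⟨s', hs'w, s'b, s'x, s'b'', hts'⟩ := core_odd_B hc w hQ hT 0 x t (c (n - 1)) (c 1)
        (c (n - 2)) (c (n - 3)) (c 4) (c 3) hxw htw hbw hb'w hb''w bb' b'b'' bx ax tz' tz
        htx (by rw [H.dist_comm]; exact dzb)
        (by rw [H.dist_comm]; exact dz'b') (by rw [H.dist_comm]; exact dzb')
        (by rw [H.dist_comm]; exact dz'b'') dab' (by rw [H.dist_comm]; exact dbb'')
      rw [hm0 rfl] at s'b''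
      exact core_seven hc h5 w x (c 1) (c (n - 1)) (c 3) (c 4) s s' hsw hs'w wa wb zz' sa sx sa''
        s'b s'x s'b'' hab nab dzb daz' dwz (by rw [H.dist_comm]; exact dz'w) dzx dz'x
    · have h1 := hm1 hm
      have h2 := dist_le_three hc bx sx.symm sa''
      rw [h1] at h2
      exact absurd h2 (by decide)

end core

section extend

/-- adding a dominated vertex to a graph without isometric cycles of length at least four keeps
this property as long as no induced cycles of length four or five are created -/
theorem extend {W' W : Type u} {H' : SimpleGraph W'} {H : SimpleGraph W} (φ : H' ↪g H) (w : W)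
    (hc' : H'.Connected) (hN : NoIso H')
    (hrange : ∀ u, u ≠ w → ∃ a, φ a = u) (hw : ∀ a, φ a ≠ w)
    (x : W') (wx : H.Adj w (φ x)) (hdom : ∀ u, H.Adj w u → u = φ x ∨ H.Adj u (φ x))
    (h4 : C4Free H) (h5 : C5Free H) : H.Connected ∧ NoIso H := by
  classical
  have reach : ∀ u, H.Reachable u (φ x) := by
    intro u
    by_cases hu : u = w
    · rw [hu]; exact wx.reachable
    · obtain ⟨a, rfl⟩ := hrange u hu
      exact (hc'.preconnected a x).map φ.toHom
  have hc : H.Connected :=
    { preconnected := fun u v => (reach u).trans (reach v).symm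
      nonempty := ⟨w⟩ }
  let ψ : W → W' := fun u => if h : ∃ a, φ a = u then h.choose else x
  have hψ : ∀ a, ψ (φ a) = a := by
    intro a
    have h : ∃ b, φ b = φ a := ⟨a, rfl⟩
    simp only [ψ]
    rw [dif_pos h]
    exact φ.injective h.choose_spec
  have hψw : ψ w = x := by
    have h : ¬ ∃ a, φ a = w := fun ⟨a, ha⟩ => hw a ha
    simp only [ψ]
    rw [dif_neg h]
  have hstep : ∀ u u', H.Adj u u' → H'.dist (ψ u) (ψ u') ≤ 1 := by
    intro u u' huu'
    by_cases hu : u = w
    · subst hu
      have hu' : u' ≠ u := huu'.ne'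
      obtain ⟨a, rfl⟩ := hrange u' hu'
      rw [hψ, hψw]
      rcases hdom _ huu' with h | h
      · rw [φ.injective h]; simp
      · have h' : H'.Adj a x := φ.map_adj_iff.1 h
        rw [SimpleGraph.dist_eq_one_iff_adj.2 h'.symm]
    · by_cases hu' : u' = w
      · subst hu'
        obtain ⟨a, rfl⟩ := hrange u hu
        rw [hψ, hψw]
        rcases hdom _ huu'.symm with h | h
        · rw [φ.injective h]; simp
        · have h' : H'.Adj a x := φ.map_adj_iff.1 h
          rw [SimpleGraph.dist_eq_one_iff_adj.2 h']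
      · obtain ⟨a, rfl⟩ := hrange u hu
        obtain ⟨b, rfl⟩ := hrange u' hu'
        rw [hψ, hψ]
        have h' : H'.Adj a b := φ.map_adj_iff.1 huu'
        rw [SimpleGraph.dist_eq_one_iff_adj.2 h']
  have hwalk : ∀ (u v : W) (p : H.Walk u v), H'.dist (ψ u) (ψ v) ≤ p.length := by
    intro u v p
    induction p with
    | nil => simp
    | @cons a b c hab p ih =>
      have h1 := hc'.dist_triangle (u := ψ a) (v := ψ b) (w := ψ c)
      have h2 := hstep a b hab
      rw [SimpleGraph.Walk.length_cons]
      omega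
  have hdist : ∀ a b, H.dist (φ a) (φ b) = H'.dist a b := by
    intro a b
    apply le_antisymm
    · obtain ⟨p, hp⟩ := hc'.exists_walk_length_eq_dist a b
      have := SimpleGraph.dist_le (p.map φ.toHom)
      rw [SimpleGraph.Walk.length_map, hp] at this
      exact this
    · obtain ⟨p, hp⟩ := hc.exists_walk_length_eq_dist (φ a) (φ b)
      have := hwalk _ _ p
      rw [hψ, hψ, hp] at this
      exact this
  have hQ : QCw H w := by
    intro m v z a b hv hz ha hb hza hzb d1 d2 d3 hab
    obtain ⟨v, rfl⟩ := hrange v hv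
    obtain ⟨z, rfl⟩ := hrange z hz
    obtain ⟨a, rfl⟩ := hrange a ha
    obtain ⟨b, rfl⟩ := hrange b hb
    rw [hdist] at d1 d2 d3
    rw [φ.map_adj_iff] at hza hzb ⊢
    exact (QT hc' hN m).1 v z a b hza hzb d1 d2 d3 (fun h => hab (by rw [h]))
  have hT : TCw H w := by
    intro m v a b hv ha hb hab d1 d2
    obtain ⟨v, rfl⟩ := hrange v hv
    obtain ⟨a, rfl⟩ := hrange a ha
    obtain ⟨b, rfl⟩ := hrange b hb
    rw [hdist] at d1 d2
    rw [φ.map_adj_iff] at hab
    obtain ⟨u, h1, h2, h3⟩ := (QT hc' hN m).2 v a b hab d1 d2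
    exact ⟨φ u, hw u, φ.map_adj_iff.2 h1, φ.map_adj_iff.2 h2, by rw [hdist]; exact h3⟩
  refine ⟨hc, ?_⟩
  intro k n c hk hn hadj hper hd
  by_cases h : ∃ j, c j = w
  · obtain ⟨j, hj⟩ := h
    exact core hc h4 h5 w (φ x) hQ hT wx hdom k n (fun i => c (j + i)) hk hn
      (fun i => hadj (j + i)) (fun i => by
        have := hper (j + i)
        rwa [Nat.add_assoc] at this) (fun i => by
        have := hd (j + i)
        rwa [Nat.add_assoc] at this) hj
  · push Not at h
    choose c' hc'' using fun i => hrange (c i) (h i)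
    apply hN k n c' hk hn
    · intro i
      rw [← φ.map_adj_iff, hc'', hc'']
      exact hadj i
    · intro i
      apply φ.injective
      rw [hc'', hc'']
      exact hper i
    · intro i
      rw [← hdist, hc'', hc'']
      exact hd i

end extend

section bfs

variable {V : Type u}

open Classical in
/-- a neighbour of `w` at distance `k` from `r` of smallest rank -/
noncomputable def fatherOf (G : SimpleGraph V) (r : V) (ρ : V → Ordinal.{u}) (k : ℕ) (w : V) : V :=
  if h : ∃ x, (G.Adj w x ∧ G.dist r x = k) ∧ ∀ y, (G.Adj w y ∧ G.dist r y = k) → ρ x ≤ ρ y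
  then h.choose else w

lemma fatherOf_spec (G : SimpleGraph V) (r : V) (ρ : V → Ordinal.{u}) (k : ℕ) (w : V)
    (hw : ∃ x, G.Adj w x ∧ G.dist r x = k) :
    (G.Adj w (fatherOf G r ρ k w) ∧ G.dist r (fatherOf G r ρ k w) = k) ∧
      ∀ y, (G.Adj w y ∧ G.dist r y = k) → ρ (fatherOf G r ρ k w) ≤ ρ y := by
  classical
  have h : ∃ x, (G.Adj w x ∧ G.dist r x = k) ∧
      ∀ y, (G.Adj w y ∧ G.dist r y = k) → ρ x ≤ ρ y := by
    obtain ⟨x, hx⟩ := hw
    have wf : WellFounded (InvImage (fun a b : Ordinal.{u} => a < b) ρ) :=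
      InvImage.wf ρ Ordinal.lt_wf
    obtain ⟨m, hm, hmin⟩ := wf.has_min {x | G.Adj w x ∧ G.dist r x = k} ⟨x, hx⟩
    exact ⟨m, hm, fun y hy => not_lt.1 (hmin y hy)⟩
  unfold fatherOf
  rw [dif_pos h]
  exact h.choose_spec

/-- the initial rank function -/
noncomputable def rho0 (w : V) : Ordinal.{u} :=
  Ordinal.typein (WellOrderingRel : V → V → Prop) w

noncomputable def kap (V : Type u) : Ordinal.{u} :=
  Ordinal.type (WellOrderingRel : V → V → Prop)

lemma rho0_lt (w : V) : rho0 w < kap V := Ordinal.typein_lt_type _ w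

lemma rho0_inj : Function.Injective (rho0 : V → Ordinal.{u}) := Ordinal.typein_injective _

/-- breadth-first ranks -/
noncomputable def rho (G : SimpleGraph V) (r : V) : ℕ → V → Ordinal.{u}
  | 0 => rho0
  | k + 1 => fun w => kap V * rho G r k (fatherOf G r (rho G r k) k w) + rho0 w

lemma rho_inj (G : SimpleGraph V) (r : V) (k : ℕ) : Function.Injective (rho G r k) := by
  cases k with
  | zero => exact rho0_inj
  | succ k =>
    intro a b hab
    simp only [rho] at hab
    have h1 := congrArg (fun o => o % kap V) hab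
    simp only [Ordinal.mul_add_mod_self] at h1
    rw [Ordinal.mod_eq_of_lt (rho0_lt a), Ordinal.mod_eq_of_lt (rho0_lt b)] at h1
    exact rho0_inj h1

lemma rho_lt (G : SimpleGraph V) (r : V) (k : ℕ) (a b : V) (h : rho G r (k + 1) a < rho G r (k + 1) b) :
    rho G r k (fatherOf G r (rho G r k) k a) ≤ rho G r k (fatherOf G r (rho G r k) k b) := by
  by_contra hcon
  rw [not_le] at hcon
  have h1 : kap V * rho G r k (fatherOf G r (rho G r k) k b) + rho0 b <
      kap V * rho G r k (fatherOf G r (rho G r k) k a) + rho0 a := by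
    calc kap V * rho G r k (fatherOf G r (rho G r k) k b) + rho0 b
        < kap V * rho G r k (fatherOf G r (rho G r k) k b) + kap V := by
          exact (add_lt_add_iff_left _).2 (rho0_lt b)
      _ = kap V * Order.succ (rho G r k (fatherOf G r (rho G r k) k b)) := by
          rw [Ordinal.mul_succ]
      _ ≤ kap V * rho G r k (fatherOf G r (rho G r k) k a) := by
          exact mul_le_mul_right (Order.succ_le_of_lt hcon) _
      _ ≤ _ := le_self_add
  simp only [rho] at h
  exact absurd (h.trans h1) (lt_irrefl _)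

/-- in a connected graph each vertex at positive distance has a neighbour one step closer -/
lemma exists_closer {G : SimpleGraph V} (hc : G.Connected) (r w : V) (k : ℕ)
    (h : G.dist r w = k + 1) : ∃ x, G.Adj w x ∧ G.dist r x = k := by
  obtain ⟨p, hp0, hp1, hp2⟩ := exists_geodesic hc r w
  rw [h] at hp1 hp2
  refine ⟨p k, ?_, ?_⟩
  · have := hp2 k (by omega)
    rw [hp1] at this
    exact this.symm
  · have h1 : ∀ j, j ≤ k + 1 → G.dist r (p j) ≤ j := by
      intro j
      induction j with
      | zero => intro _; rw [hp0]; simp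
      | succ j ih =>
        intro hj
        have i1 := ih (by omega)
        have i2 := dist_adj_le hc (v := r) (hp2 j (by omega)).symm
        omega
    have h2 := h1 k (by omega)
    have h3 := dist_adj_le hc (v := r) (hp2 k (by omega)).symm
    rw [hp1, h] at h3
    omega

/-- the breadth-first order is a dismantling order -/
lemma bfs_dom {G : SimpleGraph V} (hc : G.Connected) (hN : NoIso G) (r : V) (k : ℕ) :
    ∀ w u : V, G.dist r w = k + 1 → G.dist r u = k + 1 → G.Adj w u →
      rho G r (k + 1) u < rho G r (k + 1) w → G.Adj u (fatherOf G r (rho G r k) k w) := by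
  have h4 := NoIso.c4 hc hN
  have h5 := NoIso.c5 hc hN
  induction k with
  | zero =>
    intro w u hw hu hwu hlt
    have h1 := (fatherOf_spec G r (rho G r 0) 0 w (exists_closer hc r w 0 hw)).1
    rw [hc.dist_eq_zero_iff] at h1
    rw [← h1.2]
    rw [Nat.zero_add, SimpleGraph.dist_eq_one_iff_adj] at hu
    exact hu.symm
  | succ k ih =>
    intro w u hw hu hwu hlt
    have sw := fatherOf_spec G r (rho G r (k + 1)) (k + 1) w (exists_closer hc r w (k + 1) hw)
    have su := fatherOf_spec G r (rho G r (k + 1)) (k + 1) u (exists_closer hc r u (k + 1) hu)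
    have hle := rho_lt G r (k + 1) u w hlt
    generalize fatherOf G r (rho G r (k + 1)) (k + 1) w = b at *
    generalize fatherOf G r (rho G r (k + 1)) (k + 1) u = a at *
    obtain ⟨⟨wb, db⟩, minb⟩ := sw
    obtain ⟨⟨ua, da⟩, mina⟩ := su
    by_contra nub
    have hab : a ≠ b := by
      intro h
      rw [h] at ua
      exact nub ua
    have hlt' : rho G r (k + 1) a < rho G r (k + 1) b :=
      lt_of_le_of_ne hle (fun h => hab (rho_inj G r (k + 1) h))
    have nwa : ¬ G.Adj w a := by
      intro h
      exact absurd (minb a ⟨h, da⟩) (not_le.2 hlt')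
    obtain ⟨t, tw, tu, dt⟩ := (QT hc hN (k + 1)).2 r w u hwu hw hu
    have hta : t ≠ a := by
      intro h
      rw [h] at tw
      exact nwa tw.symm
    have htb : t ≠ b := by
      intro h
      rw [h] at tu
      exact nub tu.symm
    have lta : rho G r (k + 1) a < rho G r (k + 1) t :=
      lt_of_le_of_ne (mina t ⟨tu.symm, dt⟩) (fun h => hta (rho_inj G r (k + 1) h).symm)
    have ltb : rho G r (k + 1) b < rho G r (k + 1) t :=
      lt_of_le_of_ne (minb t ⟨tw.symm, dt⟩) (fun h => htb (rho_inj G r (k + 1) h).symm)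
    have ta : G.Adj t a := (QT hc hN (k + 1)).1 r u t a tu.symm ua hu dt da hta
    have tb : G.Adj t b := (QT hc hN (k + 1)).1 r w t b tw.symm wb hw dt db htb
    have fa := ih t a dt da ta lta
    have fb := ih t b dt db tb ltb
    have ft := (fatherOf_spec G r (rho G r k) k t (exists_closer hc r t k dt)).1
    generalize fatherOf G r (rho G r k) k t = f at *
    have nuf : ¬ G.Adj u f := by
      intro h
      have := dist_adj_le hc (v := r) h
      omega
    have nwf : ¬ G.Adj w f := by
      intro h
      have := dist_adj_le hc (v := r) h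
      omega
    have nab : ¬ G.Adj a b := by
      intro h
      rcases h4 u a b w ua h wb.symm hwu
        (ne_of_dist hu db (by omega)) (ne_of_dist da hw (by omega)) with h' | h'
      · exact nub h'
      · exact nwa h'.symm
    rcases h5 u a f b w ua fa fb.symm wb.symm hwu
      (ne_of_dist hu ft.2 (by omega)) (ne_of_dist hu db (by omega)) hab
      (ne_of_dist da hw (by omega)) (ne_of_dist ft.2 hw (by omega)) with h | h | h | h | h
    · exact nuf h
    · exact nub h
    · exact nab h
    · exact nwa h.symm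
    · exact nwf h.symm

/-- the father of a vertex in the breadth-first order -/
noncomputable def father (G : SimpleGraph V) (r w : V) : V :=
  fatherOf G r (rho G r (G.dist r w - 1)) (G.dist r w - 1) w

lemma father_spec {G : SimpleGraph V} (hc : G.Connected) (r w : V) (hw : w ≠ r) :
    G.Adj w (father G r w) ∧ G.dist r (father G r w) + 1 = G.dist r w := by
  have hpos : 0 < G.dist r w := hc.pos_dist_of_ne hw.symm
  have h := (fatherOf_spec G r (rho G r (G.dist r w - 1)) (G.dist r w - 1) w
    (exists_closer hc r w _ (by omega))).1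
  refine ⟨h.1, ?_⟩
  unfold father
  rw [h.2]
  omega

/-- closed under fathers -/
def Closed (G : SimpleGraph V) (r : V) (F : Finset V) : Prop :=
  ∀ w ∈ F, w ≠ r → father G r w ∈ F

lemma C4Free.induce {G : SimpleGraph V} (h : C4Free G) (s : Set V) : C4Free (G.induce s) := by
  intro a b c d hab hbc hcd hda hac hbd
  exact h a b c d hab hbc hcd hda (fun e => hac (Subtype.ext e)) (fun e => hbd (Subtype.ext e))

lemma C5Free.induce {G : SimpleGraph V} (h : C5Free G) (s : Set V) : C5Free (G.induce s) := by
  intro a b c d e hab hbc hcd hde hea hac had hbd hbe hce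
  exact h a b c d e hab hbc hcd hde hea (fun e => hac (Subtype.ext e)) (fun e => had (Subtype.ext e))
    (fun e => hbd (Subtype.ext e)) (fun e => hbe (Subtype.ext e)) (fun e => hce (Subtype.ext e))

theorem closed_noIso {G : SimpleGraph V} (hc : G.Connected) (hN : NoIso G) (r : V) (n : ℕ) :
    ∀ F : Finset V, F.card = n → F.Nonempty → Closed G r F →
      (G.induce (F : Set V)).Connected ∧ NoIso (G.induce (F : Set V)) := by
  classical
  have h4 := NoIso.c4 hc hN
  have h5 := NoIso.c5 hc hN
  induction n with
  | zero =>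
    intro F hF hne _
    exact absurd hF (Finset.card_pos.2 hne).ne'
  | succ n ih =>
    intro F hF hne hcl
    obtain ⟨w0, hw0, hmax0⟩ := Finset.exists_max_image F (fun v => G.dist r v) hne
    obtain ⟨w, hw, hmax⟩ := Finset.exists_max_image
      (F.filter (fun v => G.dist r v = G.dist r w0)) (fun v => rho G r (G.dist r w0) v)
      ⟨w0, by simp [hw0]⟩
    rw [Finset.mem_filter] at hw
    obtain ⟨hwF, hwd⟩ := hw
    rw [← hwd] at hmax0 hmax
    clear hwd hw0 w0
    by_cases hwr : w = r
    · -- all vertices equal `r`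
      have hall : ∀ v ∈ F, v = r := by
        intro v hv
        have := hmax0 v hv
        rw [hwr] at this
        simp only [SimpleGraph.dist_self, Nat.le_zero] at this
        exact ((hc.dist_eq_zero_iff).1 this).symm
      have hsub : ∀ a b : (F : Set V), a = b := by
        intro a b
        apply Subtype.ext
        rw [hall a a.2, hall b b.2]
      refine ⟨?_, ?_⟩
      · exact
          { preconnected := fun a b => by rw [hsub a b]
            nonempty := ⟨⟨w, hwF⟩⟩ }
      · intro k m c _ _ hadj _ _
        have := hadj 0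
        rw [hsub (c 0) (c (0 + 1))] at this
        exact (G.induce (F : Set V)).loopless.irrefl _ this
    · obtain ⟨hadjf, hdf⟩ := father_spec hc r w hwr
      have hfF : father G r w ∈ F := hcl w hwF hwr
      have hfw : father G r w ≠ w := hadjf.ne'
      have hcard : (F.erase w).card = n := by
        rw [Finset.card_erase_of_mem hwF, hF]; rfl
      have hcl' : Closed G r (F.erase w) := by
        intro v hv hvr
        rw [Finset.mem_erase] at hv ⊢
        refine ⟨?_, hcl v hv.2 hvr⟩
        intro h
        have h1 := (father_spec hc r v hvr).2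
        rw [h] at h1
        have h2 := hmax0 v hv.2
        omega
      obtain ⟨ihc, ihN⟩ := ih (F.erase w) hcard ⟨father G r w, Finset.mem_erase.2 ⟨hfw, hfF⟩⟩ hcl'
      have hsub : ((F.erase w : Finset V) : Set V) ⊆ (F : Set V) := by
        intro v hv
        exact Finset.mem_of_mem_erase hv
      let φ := G.induceHomOfLE hsub
      have hφ : ∀ a, ((φ a : (F : Set V)) : V) = a := fun a => rfl
      refine extend φ ⟨w, hwF⟩ ihc ihN ?_ ?_ ⟨father G r w, Finset.mem_erase.2 ⟨hfw, hfF⟩⟩ ?_ ?_
        (h4.induce _) (h5.induce _)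
      · intro u hu
        refine ⟨⟨u, ?_⟩, ?_⟩
        · have : (u : V) ≠ w := fun h => hu (Subtype.ext h)
          exact Finset.mem_coe.2 (Finset.mem_erase.2 ⟨this, u.2⟩)
        · apply Subtype.ext
          rfl
      · intro a ha
        have h1 : ((φ a : (F : Set V)) : V) = w := by rw [ha]
        rw [hφ] at h1
        have h2 := a.2
        rw [h1] at h2
        exact absurd h2 (by simp)
      · exact hadjf
      · intro u hu
        have hu' : G.Adj w u := hu
        have e1 := dist_adj_le hc (v := r) hu'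
        have e2 := hmax0 u u.2
        obtain ⟨k, hk⟩ : ∃ k, G.dist r w = k + 1 := ⟨G.dist r w - 1, by omega⟩
        have hf : father G r w = fatherOf G r (rho G r k) k w := by
          unfold father
          have : G.dist r w - 1 = k := by omega
          rw [this]
        by_cases hd : G.dist r (u : V) = G.dist r w
        · right
          have h1 : rho G r (k + 1) u < rho G r (k + 1) w := by
            have := hmax u (Finset.mem_filter.2 ⟨u.2, hd⟩)
            rw [hk] at this
            refine lt_of_le_of_ne this ?_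
            intro h
            have := rho_inj G r (k + 1) h
            rw [this] at hu'
            exact G.loopless.irrefl _ hu'
          have h2 := bfs_dom hc hN r k w u hk (by rw [hd, hk]) hu' h1
          rw [← hf] at h2
          exact h2
        · by_cases heq : (u : V) = father G r w
          · left
            exact Subtype.ext heq
          · right
            exact (QT hc hN k).1 r w u (father G r w) hu' hadjf hk (by omega) (by omega) heq

lemma exists_closed {G : SimpleGraph V} (hc : G.Connected) (r : V) (n : ℕ) :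
    ∀ s : V, G.dist r s = n → ∃ F : Finset V, s ∈ F ∧ Closed G r F := by
  classical
  induction n with
  | zero =>
    intro s hs
    rw [hc.dist_eq_zero_iff] at hs
    refine ⟨{s}, by simp, ?_⟩
    intro w hw hwr
    rw [Finset.mem_singleton] at hw
    rw [hw, ← hs] at hwr
    exact absurd rfl hwr
  | succ n ih =>
    intro s hs
    have hsr : s ≠ r := by
      intro h
      rw [h] at hs
      simp at hs
    obtain ⟨h1, h2⟩ := father_spec hc r s hsr
    obtain ⟨F, hF, hcl⟩ := ih (father G r s) (by omega)
    refine ⟨insert s F, Finset.mem_insert_self _ _, ?_⟩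
    intro w hw hwr
    rw [Finset.mem_insert] at hw
    rcases hw with hw | hw
    · rw [hw]
      exact Finset.mem_insert_of_mem hF
    · exact Finset.mem_insert_of_mem (hcl w hw hwr)

theorem connected_case {G : SimpleGraph V} (hc : G.Connected) (hN : NoIso G) (S : Finset V) :
    ∃ F : Finset V, S ⊆ F ∧ (G.induce (F : Set V)).Connected ∧ NoIso (G.induce (F : Set V)) := by
  classical
  obtain ⟨r⟩ := hc.nonempty
  choose F hF hcl using fun s => exists_closed hc r (G.dist r s) s rfl
  refine ⟨insert r (S.biUnion F), ?_, ?_⟩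
  · intro s hs
    exact Finset.mem_insert_of_mem (Finset.mem_biUnion.2 ⟨s, hs, hF s⟩)
  · apply closed_noIso hc hN r _ _ rfl ⟨r, Finset.mem_insert_self _ _⟩
    intro w hw hwr
    rw [Finset.mem_insert] at hw
    rcases hw with hw | hw
    · exact absurd hw hwr
    · obtain ⟨s, hs, hw⟩ := Finset.mem_biUnion.1 hw
      exact Finset.mem_insert_of_mem (Finset.mem_biUnion.2 ⟨s, hs, hcl s w hw hwr⟩)

end bfs

section components

variable {V : Type u} {G : SimpleGraph V}

lemma comp_dist_le (C : G.ConnectedComponent) (a b : V) (p : G.Walk a b) :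
    ∀ (ha : a ∈ C) (hb : b ∈ C), C.toSimpleGraph.dist ⟨a, ha⟩ ⟨b, hb⟩ ≤ p.length := by
  induction p with
  | nil => intro ha hb; simp
  | @cons a a' b hab p ih =>
    intro ha hb
    have ha' : a' ∈ C := by
      have h1 : G.connectedComponentMk a = C := ha
      have h2 : G.connectedComponentMk a = G.connectedComponentMk a' :=
        SimpleGraph.ConnectedComponent.sound hab.reachable
      exact h2.symm.trans h1
    have h := ih ha' hb
    have hc := C.connected_toSimpleGraph
    have h1 := hc.dist_triangle (u := ⟨a, ha⟩) (v := ⟨a', ha'⟩) (w := ⟨b, hb⟩)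
    have h2 : C.toSimpleGraph.dist ⟨a, ha⟩ ⟨a', ha'⟩ = 1 :=
      SimpleGraph.dist_eq_one_iff_adj.2 hab
    rw [SimpleGraph.Walk.length_cons]
    omega

lemma comp_dist (C : G.ConnectedComponent) (a b : V) (ha : a ∈ C) (hb : b ∈ C) :
    C.toSimpleGraph.dist ⟨a, ha⟩ ⟨b, hb⟩ = G.dist a b := by
  have hc := C.connected_toSimpleGraph
  obtain ⟨p, hp⟩ := hc.exists_walk_length_eq_dist ⟨a, ha⟩ ⟨b, hb⟩
  have h1 := SimpleGraph.dist_le (p.map C.toSimpleGraph_hom)
  rw [SimpleGraph.Walk.length_map, hp] at h1
  have hr : G.Reachable a b := (p.map C.toSimpleGraph_hom).reachable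
  obtain ⟨q, hq⟩ := hr.exists_walk_length_eq_dist
  have h2 := comp_dist_le C a b q ha hb
  rw [hq] at h2
  exact le_antisymm h2 h1

lemma comp_noIso (hN : NoIso G) (C : G.ConnectedComponent) : NoIso C.toSimpleGraph := by
  intro k n c hk hn hadj hper hd
  apply hN k n (fun i => (c i : V)) hk hn
  · intro i; exact hadj i
  · intro i
    simp only [hper i]
  · intro i
    have := hd i
    rw [← comp_dist C (c i : V) (c (i + k) : V) (c i).2 (c (i + k)).2]
    exact this

theorem general_case (hN : NoIso G) (S : Finset V) :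
    ∃ T : Finset V, S ⊆ T ∧ NoIso (G.induce (T : Set V)) := by
  classical
  choose F hSF hFc hFN using fun C : G.ConnectedComponent =>
    connected_case C.connected_toSimpleGraph (comp_noIso hN C) (S.subtype (fun v => v ∈ C))
  let T : Finset V := (S.image G.connectedComponentMk).biUnion
    (fun C => (F C).map (Function.Embedding.subtype _))
  refine ⟨T, ?_, ?_⟩
  · intro s hs
    refine Finset.mem_biUnion.2 ⟨G.connectedComponentMk s, Finset.mem_image_of_mem _ hs, ?_⟩
    rw [Finset.mem_map]
    exact ⟨⟨s, rfl⟩, hSF _ (Finset.mem_subtype.2 hs), rfl⟩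
  · intro k n c hk hn hadj hper hd
    have hC : ∀ i, (c i : V) ∈ G.connectedComponentMk (c 0 : V) := by
      intro i
      induction i with
      | zero => exact rfl
      | succ i ih =>
        have h2 : G.connectedComponentMk (c i : V) = G.connectedComponentMk (c (i + 1) : V) :=
          SimpleGraph.ConnectedComponent.sound (SimpleGraph.Adj.reachable (hadj i))
        exact h2.symm.trans ih
    generalize hCC : G.connectedComponentMk (c 0 : V) = C at hC
    have hF : ∀ i, (⟨(c i : V), hC i⟩ : {v // v ∈ C}) ∈ F C := by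
      intro i
      obtain ⟨C', hC', hi⟩ := Finset.mem_biUnion.1 (c i).2
      rw [Finset.mem_map] at hi
      obtain ⟨y, hy, hyi⟩ := hi
      have e1 : G.connectedComponentMk (c i : V) = C := hC i
      have e2 : G.connectedComponentMk (y : V) = C' := y.2
      have e3 : (y : V) = c i := hyi
      rw [e3, e1] at e2
      subst e2
      have : y = ⟨(c i : V), hC i⟩ := Subtype.ext e3
      rw [← this]
      exact hy
    let c' : ℕ → ((F C : Finset _) : Set {v // v ∈ C}) := fun i => ⟨⟨(c i : V), hC i⟩, hF i⟩
    have hadj' : ∀ i, (C.toSimpleGraph.induce ((F C : Finset _) : Set {v // v ∈ C})).Adj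
        (c' i) (c' (i + 1)) := fun i => hadj i
    apply hFN C k n c' hk hn hadj'
    · intro i
      apply Subtype.ext
      apply Subtype.ext
      show (c (i + n) : V) = c i
      rw [hper i]
    · intro i
      apply le_antisymm
      · exact dist_seq_le (hFc C) c' hadj' i k
      · -- hom to the union
        have hsub : ∀ y : ((F C : Finset _) : Set {v // v ∈ C}), ((y : {v // v ∈ C}) : V) ∈ T := by
          intro y
          refine Finset.mem_biUnion.2 ⟨C, ?_, ?_⟩
          · obtain ⟨C', hC', hi⟩ := Finset.mem_biUnion.1 (c i).2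
            rw [Finset.mem_map] at hi
            obtain ⟨z, hz, hzi⟩ := hi
            have e1 : G.connectedComponentMk (c i : V) = C := hC i
            have e2 : G.connectedComponentMk (z : V) = C' := z.2
            have e3 : (z : V) = c i := hzi
            rw [e3, e1] at e2
            rw [e2]
            exact hC'
          · rw [Finset.mem_map]
            exact ⟨y, y.2, rfl⟩
        let f : (C.toSimpleGraph.induce ((F C : Finset _) : Set {v // v ∈ C})) →g
            G.induce (T : Set V) :=
          { toFun := fun y => ⟨y, hsub y⟩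
            map_rel' := fun {a b} h => h }
        obtain ⟨p, hp⟩ := (hFc C).exists_walk_length_eq_dist (c' i) (c' (i + k))
        have h1 := SimpleGraph.dist_le (p.map f)
        rw [SimpleGraph.Walk.length_map, hp] at h1
        have h2 := hd i
        have h3 : (G.induce (T : Set V)).dist (c i) (c (i + k)) =
          (G.induce (T : Set V)).dist (f (c' i)) (f (c' (i + k))) := rfl
        rw [← h3, h2] at h1
        exact h1

end components

section walks

variable {V : Type u} {G : SimpleGraph V}

/-- the walk along a sequence -/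
def seqWalk (c : ℕ → V) (h : ∀ i, G.Adj (c i) (c (i + 1))) : ∀ m, G.Walk (c 0) (c m)
  | 0 => SimpleGraph.Walk.nil
  | m + 1 => (seqWalk c h m).concat (h m)

lemma seqWalk_length (c : ℕ → V) (h : ∀ i, G.Adj (c i) (c (i + 1))) (m : ℕ) :
    (seqWalk c h m).length = m := by
  induction m with
  | zero => rfl
  | succ m ih => simp [seqWalk, ih]

lemma seqWalk_getVert (c : ℕ → V) (h : ∀ i, G.Adj (c i) (c (i + 1))) (m : ℕ) :
    ∀ j, j ≤ m → (seqWalk c h m).getVert j = c j := by
  induction m with
  | zero =>
    intro j hj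
    have : j = 0 := by omega
    rw [this]
    simp
  | succ m ih =>
    intro j hj
    by_cases hjm : j = m + 1
    · rw [hjm]
      have := (seqWalk c h (m + 1)).getVert_length
      rwa [seqWalk_length] at this
    · simp only [seqWalk, SimpleGraph.Walk.concat]
      rw [SimpleGraph.Walk.getVert_append', seqWalk_length, if_pos (by omega)]
      exact ih j (by omega)

lemma dist_le_seq (c : ℕ → V) (h : ∀ i, G.Adj (c i) (c (i + 1))) (i m : ℕ) :
    G.dist (c i) (c (i + m)) ≤ m ∧ G.Reachable (c i) (c (i + m)) := by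
  have w := seqWalk (fun j => c (i + j)) (fun j => h (i + j)) m
  have e := seqWalk_length (fun j => c (i + j)) (fun j => h (i + j)) m
  have h1 := SimpleGraph.dist_le (seqWalk (fun j => c (i + j)) (fun j => h (i + j)) m)
  rw [e] at h1
  exact ⟨h1, ⟨w⟩⟩

theorem noIso_of_bridged
    (hB : ∀ (u : V) (c : G.Walk u u), c.IsCycle → 4 ≤ c.length →
        ∃ i j : ℕ, i ≤ j ∧ j < c.length ∧
          G.dist (c.getVert i) (c.getVert j) < min (j - i) (c.length - (j - i))) : NoIso G := by
  intro k n c hk hn hadj hper hd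
  have D : ∀ i m, m ≤ k → G.dist (c i) (c (i + m)) = m := by
    intro i m hm
    have h1 := (dist_le_seq c hadj i m).1
    have h2 := (dist_le_seq c hadj (i + m) (k - m)).1
    have e : i + m + (k - m) = i + k := by omega
    rw [e] at h2
    have h3 := (dist_le_seq c hadj i m).2.dist_triangle_left (c (i + k))
    have h4 := hd i
    omega
  have inj : ∀ i j, i < j → j < i + n → c i ≠ c j := by
    intro i j hij hjn h
    by_cases hjk : j - i ≤ k
    · have h1 := D i (j - i) hjk
      have e : i + (j - i) = j := by omega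
      rw [e, h, SimpleGraph.dist_self] at h1
      omega
    · have h1 := D j (i + n - j) (by omega)
      have e : j + (i + n - j) = i + n := by omega
      rw [e, hper, h, SimpleGraph.dist_self] at h1
      omega
  obtain ⟨n', rfl⟩ : ∃ n', n = n' + 1 := ⟨n - 1, by omega⟩
  let c1 : ℕ → V := fun i => c (i + 1)
  have hadj1 : ∀ i, G.Adj (c1 i) (c1 (i + 1)) := fun i => hadj (i + 1)
  have hpath : (seqWalk c1 hadj1 n').IsPath := by
    rw [← SimpleGraph.Walk.IsPath.getVert_injOn_iff]
    intro a ha b hb hab
    simp only [Set.mem_ofPred_eq, seqWalk_length] at ha hb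
    rw [seqWalk_getVert c1 hadj1 n' a ha, seqWalk_getVert c1 hadj1 n' b hb] at hab
    rcases Nat.lt_trichotomy a b with h | h | h
    · exact absurd hab (inj (a + 1) (b + 1) (by omega) (by omega))
    · exact h
    · exact absurd hab.symm (inj (b + 1) (a + 1) (by omega) (by omega))
  have hcn : c1 n' = c 0 := by
    have := hper 0
    rw [Nat.zero_add] at this
    exact this
  have hlast : G.Adj (c1 n') (c1 0) := by
    rw [hcn]
    exact hadj 0
  have hcyc : (SimpleGraph.Walk.cons hlast (seqWalk c1 hadj1 n')).IsCycle := by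
    rw [SimpleGraph.Walk.cons_isCycle_iff]
    refine ⟨hpath, ?_⟩
    intro hmem
    rw [Sym2.eq_swap] at hmem
    have := hpath.length_eq_one_of_mem_edges hmem
    rw [seqWalk_length] at this
    omega
  have hlen : (SimpleGraph.Walk.cons hlast (seqWalk c1 hadj1 n')).length = n' + 1 := by
    rw [SimpleGraph.Walk.length_cons, seqWalk_length]
  have hget : ∀ i, i < n' + 1 →
      (SimpleGraph.Walk.cons hlast (seqWalk c1 hadj1 n')).getVert i = c i := by
    intro i hi
    cases i with
    | zero => rw [SimpleGraph.Walk.getVert_zero, hcn]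
    | succ i =>
      rw [SimpleGraph.Walk.getVert_cons_succ, seqWalk_getVert c1 hadj1 n' i (by omega)]
  obtain ⟨i, j, hij, hj, hlt⟩ := hB _ _ hcyc (by rw [hlen]; omega)
  rw [hlen] at hj hlt
  rw [hget i (by omega), hget j hj] at hlt
  by_cases hjk : j - i ≤ k
  · have h1 := D i (j - i) hjk
    have e : i + (j - i) = j := by omega
    rw [e] at h1
    omega
  · have h1 := D j (i + (n' + 1) - j) (by omega)
    have e : j + (i + (n' + 1) - j) = i + (n' + 1) := by omega
    rw [e, hper, SimpleGraph.dist_comm] at h1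
    omega

theorem bridged_of_noIso (hN : NoIso G) :
    ∀ (u : V) (c : G.Walk u u), c.IsCycle → 4 ≤ c.length →
        ∃ i j : ℕ, i ≤ j ∧ j < c.length ∧
          G.dist (c.getVert i) (c.getVert j) < min (j - i) (c.length - (j - i)) := by
  intro u c _ hlen
  by_contra hcon
  push Not at hcon
  set n := c.length with hn
  have hnpos : 0 < n := by omega
  let f : ℕ → V := fun i => c.getVert (i % n)
  have hadj : ∀ i, G.Adj (f i) (f (i + 1)) := by
    intro i
    have hlt : i % n < n := Nat.mod_lt _ hnpos
    have h1 := c.adj_getVert_succ hlt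
    by_cases hi : i % n + 1 = n
    · have h2 : (i + 1) % n = 0 := by
        rw [Nat.add_mod, Nat.mod_eq_of_lt (show 1 < n by omega), hi, Nat.mod_self]
      simp only [f]
      rw [h2, SimpleGraph.Walk.getVert_zero]
      rw [hi, hn, SimpleGraph.Walk.getVert_length] at h1
      exact h1
    · have h2 : (i + 1) % n = i % n + 1 := by
        rw [Nat.add_mod, Nat.mod_eq_of_lt (show 1 < n by omega)]
        exact Nat.mod_eq_of_lt (by omega)
      simp only [f]
      rw [h2]
      exact h1
  refine hN (n / 2) n f (by omega) (by omega) hadj (fun i => by simp [f, Nat.add_mod_right]) ?_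
  intro i
  apply le_antisymm (dist_le_seq f hadj i (n / 2)).1
  have hlt : i % n < n := Nat.mod_lt _ hnpos
  have hk : n / 2 < n := by omega
  by_cases hi : i % n + n / 2 < n
  · have h2 : (i + n / 2) % n = i % n + n / 2 := by
      rw [Nat.add_mod, Nat.mod_eq_of_lt hk]
      exact Nat.mod_eq_of_lt hi
    have h3 := hcon (i % n) (i % n + n / 2) (by omega) hi
    simp only [f]
    rw [h2]
    have e : i % n + n / 2 - i % n = n / 2 := by omega
    rw [e] at h3
    have e' : min (n / 2) (n - n / 2) = n / 2 := by omega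
    rw [e'] at h3
    exact h3
  · have h2 : (i + n / 2) % n = i % n + n / 2 - n := by
      rw [Nat.add_mod, Nat.mod_eq_of_lt hk]
      rw [Nat.mod_eq_sub_mod (by omega)]
      exact Nat.mod_eq_of_lt (by omega)
    have h3 := hcon (i % n + n / 2 - n) (i % n) (by omega) hlt
    simp only [f]
    rw [h2, SimpleGraph.dist_comm]
    have e : i % n - (i % n + n / 2 - n) = n - n / 2 := by omega
    rw [e] at h3
    have e' : min (n - n / 2) (n - (n - n / 2)) = n / 2 := by omega
    rw [e'] at h3
    exact h3

end walks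


/-- For every infinite graph in which each cycle of length at least 4 has two vertices closer in the graph than along the cycle, every finite vertex set lies in a finite vertex set whose induced subgraph has the same shortcut property. -/
theorem result :
    ∀ (V : Type) (G : SimpleGraph V), Infinite V →
      (∀ (u : V) (c : G.Walk u u), c.IsCycle → 4 ≤ c.length →
        ∃ i j : ℕ, i ≤ j ∧ j < c.length ∧
          G.dist (c.getVert i) (c.getVert j) < min (j - i) (c.length - (j - i))) →
      ∀ S : Finset V, ∃ T : Finset V, S ⊆ T ∧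
        ∀ (u : (T : Set V)) (c : (G.induce (T : Set V)).Walk u u), c.IsCycle → 4 ≤ c.length →
          ∃ i j : ℕ, i ≤ j ∧ j < c.length ∧
            (G.induce (T : Set V)).dist (c.getVert i) (c.getVert j)
              < min (j - i) (c.length - (j - i)) := by
  intro V G _ hB S
  obtain ⟨T, hST, hT⟩ := general_case (noIso_of_bridged hB) S
  exact ⟨T, hST, bridged_of_noIso hT⟩

end Pool.Agent.S04877
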