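import Pool.Statements.S04879
-- import your own Pool.Agent.* helpers here

set_option autoImplicit false
open Pool Pool.MP_1bb742_co

namespace Pool.Agent.S04879

open Finset

section

variable {V : Type*} [DecidableEq V]

/-- image of an edge set under a permutation -/
def im (σ : Equiv.Perm V) (E : Finset (Sym2 V)) : Finset (Sym2 V) := E.image (Sym2.map σ)

theorem card_im (σ : Equiv.Perm V) (E : Finset (Sym2 V)) : (im σ E).card = E.card :=
  Finset.card_image_of_injective _ (Sym2.map.injective σ.injective)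

inductive Dec : ℕ → Finset (Sym2 V) → Finset (Sym2 V) → Prop
  | nil : Dec 0 ∅ ∅
  | cons {r : ℕ} {E E' : Finset (Sym2 V)} (h : Dec r E E') (F : Finset (Sym2 V))
      (σ : Equiv.Perm V) (h1 : Disjoint E F) (h2 : Disjoint E' (im σ F)) :
      Dec (r + 1) (E ∪ F) (E' ∪ im σ F)

theorem Dec.one (F : Finset (Sym2 V)) (σ : Equiv.Perm V) : Dec 1 F (im σ F) := by
  have h := Dec.cons (V := V) Dec.nil F σ (by simp) (by simp)
  simpa using h

theorem Dec.one' {F F' : Finset (Sym2 V)} (σ : Equiv.Perm V) (h : im σ F = F') : Dec 1 F F' := by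
  subst h; exact Dec.one F σ

theorem Dec.add {r s : ℕ} {E E' F F' : Finset (Sym2 V)} (h : Dec r E E') (h' : Dec s F F')
    (h1 : Disjoint E F) (h2 : Disjoint E' F') : Dec (r + s) (E ∪ F) (E' ∪ F') := by
  induction h' with
  | nil => simpa using h
  | @cons s0 F0 F0' hd K σ k1 k2 ih =>
    rw [Finset.disjoint_union_right] at h1 h2
    have := Dec.cons (ih h1.1 h2.1) K σ (by rw [Finset.disjoint_union_left]; exact ⟨h1.2, k1⟩)
      (by rw [Finset.disjoint_union_left]; exact ⟨h2.2, k2⟩)
    rw [← Finset.union_assoc, ← Finset.union_assoc]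
    exact this

theorem Dec.symm {r : ℕ} {E E' : Finset (Sym2 V)} (h : Dec r E E') : Dec r E' E := by
  induction h with
  | nil => exact Dec.nil
  | @cons s0 F0 F0' hd K σ k1 k2 ih =>
    have e : im σ⁻¹ (im σ K) = K := by
      unfold im
      rw [Finset.image_image, ← Sym2.map_comp]
      have : (⇑σ⁻¹ ∘ ⇑σ) = id := by ext x; simp
      rw [this]; simp
    have := Dec.cons ih (im σ K) σ⁻¹ k2 (by rw [e]; exact k1)
    rw [e] at this
    exact this

theorem Dec.card_eq {r : ℕ} {E E' : Finset (Sym2 V)} (h : Dec r E E') : E.card = E'.card := by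
  induction h with
  | nil => rfl
  | @cons s0 F0 F0' hd K σ k1 k2 ih =>
    rw [Finset.card_union_of_disjoint k1, Finset.card_union_of_disjoint k2, ih, card_im]

theorem Dec.succ {r : ℕ} {E E' : Finset (Sym2 V)} (h : Dec r E E') : Dec (r + 1) E E' := by
  have := Dec.cons h ∅ 1 (by simp) (by simp [im])
  simpa [im] using this

theorem Dec.toCol {r : ℕ} {E E' : Finset (Sym2 V)} (h : Dec r E E') :
    ∃ c c' : Sym2 V → ℕ, (∀ e, c e ≤ r) ∧ (∀ e, c' e ≤ r) ∧ (∀ e ∈ E, c e < r) ∧
      (∀ e ∈ E', c' e < r) ∧
      ∀ i < r, ∃ σ : Equiv.Perm V, im σ (E.filter (fun e => c e = i)) =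
        E'.filter (fun e => c' e = i) := by
  induction h with
  | nil => exact ⟨fun _ => 0, fun _ => 0, by simp⟩
  | @cons r0 F0 F0' hd K σ k1 k2 ih =>
    obtain ⟨c, c', h1, h2, h3, h4, h5⟩ := ih
    refine ⟨fun e => if e ∈ K then r0 else c e, fun e => if e ∈ im σ K then r0 else c' e,
      ?_, ?_, ?_, ?_, ?_⟩
    · intro e; dsimp only; have := h1 e; split_ifs <;> omega
    · intro e; dsimp only; have := h2 e; split_ifs <;> omega
    · intro e he; dsimp only
      rw [Finset.mem_union] at he
      split_ifs with hK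
      · omega
      · have := h3 e (by tauto); omega
    · intro e he; dsimp only
      rw [Finset.mem_union] at he
      split_ifs with hK
      · omega
      · have := h4 e (by tauto); omega
    · intro i hi
      rcases Nat.lt_succ_iff_lt_or_eq.mp hi with hi | hi
      · obtain ⟨τ, hτ⟩ := h5 i hi
        refine ⟨τ, ?_⟩
        have e1 : (F0 ∪ K).filter (fun e => (if e ∈ K then r0 else c e) = i) =
            F0.filter (fun e => c e = i) := by
          ext e
          simp only [Finset.mem_filter, Finset.mem_union]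
          constructor
          · rintro ⟨a, b⟩
            by_cases hK : e ∈ K
            · rw [if_pos hK] at b; omega
            · rw [if_neg hK] at b; exact ⟨by tauto, b⟩
          · rintro ⟨a, b⟩
            have hK : e ∉ K := Finset.disjoint_left.mp k1 a
            rw [if_neg hK]; exact ⟨Or.inl a, b⟩
        have e2 : (F0' ∪ im σ K).filter (fun e => (if e ∈ im σ K then r0 else c' e) = i) =
            F0'.filter (fun e => c' e = i) := by
          ext e
          simp only [Finset.mem_filter, Finset.mem_union]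
          constructor
          · rintro ⟨a, b⟩
            by_cases hK : e ∈ im σ K
            · rw [if_pos hK] at b; omega
            · rw [if_neg hK] at b; exact ⟨by tauto, b⟩
          · rintro ⟨a, b⟩
            have hK : e ∉ im σ K := Finset.disjoint_left.mp k2 a
            rw [if_neg hK]; exact ⟨Or.inl a, b⟩
        rw [e1, e2, hτ]
      · refine ⟨σ, ?_⟩
        have e1 : (F0 ∪ K).filter (fun e => (if e ∈ K then r0 else c e) = i) = K := by
          ext e
          simp only [Finset.mem_filter, Finset.mem_union]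
          constructor
          · rintro ⟨a, b⟩
            by_contra hK
            rw [if_neg hK] at b
            have := h3 e (by tauto)
            omega
          · intro a; rw [if_pos a]; exact ⟨Or.inr a, hi.symm⟩
        have e2 : (F0' ∪ im σ K).filter (fun e => (if e ∈ im σ K then r0 else c' e) = i) =
            im σ K := by
          ext e
          simp only [Finset.mem_filter, Finset.mem_union]
          constructor
          · rintro ⟨a, b⟩
            by_contra hK
            rw [if_neg hK] at b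
            have := h4 e (by tauto)
            omega
          · intro a; rw [if_pos a]; exact ⟨Or.inr a, hi.symm⟩
        rw [e1, e2]

end

section ext

variable {V : Type*} [DecidableEq V] [Fintype V]

theorem exists_perm {W : Type*} (f g : W → V) (hf : Function.Injective f)
    (hg : Function.Injective g) : ∃ σ : Equiv.Perm V, ∀ w, σ (f w) = g w := by
  classical
  let e : {x // x ∈ Set.range f} ≃ {x // x ∈ Set.range g} :=
    (Equiv.ofInjective f hf).symm.trans (Equiv.ofInjective g hg)
  refine ⟨e.extendSubtype, fun w => ?_⟩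
  rw [Equiv.extendSubtype_apply_of_mem e (f w) ⟨w, rfl⟩]
  have : (Equiv.ofInjective f hf).symm ⟨f w, ⟨w, rfl⟩⟩ = w := by
    rw [Equiv.symm_apply_eq]; rfl
  simp only [e, Equiv.trans_apply]
  rw [this]
  rfl

/-- general one-part decomposition from two injections of a model -/
theorem Dec.ofInj {W : Type*} (f g : W → V) (hf : Function.Injective f)
    (hg : Function.Injective g) {ι : Type*} (a b : ι → W) (S : Finset ι) :
    Dec 1 (S.image (fun i => s(f (a i), f (b i)))) (S.image (fun i => s(g (a i), g (b i)))) := by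
  obtain ⟨σ, hσ⟩ := exists_perm f g hf hg
  apply Dec.one' σ
  unfold im
  rw [Finset.image_image]
  congr 1
  funext i
  simp [hσ]

/-- matchings -/
def IsM (M : Finset (Sym2 V)) : Prop :=
  (∀ e ∈ M, ¬ e.IsDiag) ∧ ∀ e ∈ M, ∀ e' ∈ M, ∀ v, v ∈ e → v ∈ e' → e = e'

theorem IsM.mono {M M' : Finset (Sym2 V)} (h : IsM M) (hs : M' ⊆ M) : IsM M' :=
  ⟨fun e he => h.1 e (hs he), fun e he e' he' => h.2 e (hs he) e' (hs he')⟩

theorem Dec.matching {M M' : Finset (Sym2 V)} (h : IsM M) (h' : IsM M')
    (hc : M.card = M'.card) : Dec 1 M M' := by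
  classical
  let φ : M ≃ M' := Finset.equivOfCardEq hc
  have hrep : ∀ e : Sym2 V, ∃ p : V × V, e = s(p.1, p.2) := by
    intro e; induction e with
    | _ x y => exact ⟨(x, y), rfl⟩
  choose rep hrep using hrep
  let f : M × Bool → V := fun p => cond p.2 (rep p.1.1).1 (rep p.1.1).2
  let g : M × Bool → V := fun p => cond p.2 (rep (φ p.1).1).1 (rep (φ p.1).1).2
  have key : ∀ (N : Finset (Sym2 V)), IsM N →
      Function.Injective (fun p : N × Bool => cond p.2 (rep p.1.1).1 (rep p.1.1).2) := by
    intro N hN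
    rintro ⟨⟨e, he⟩, b⟩ ⟨⟨e', he'⟩, b'⟩ hh
    have m1 : ∀ (e : Sym2 V) (b : Bool), cond b (rep e).1 (rep e).2 ∈ e := by
      intro e b
      cases b with
      | false =>
        have := Sym2.mem_mk_right (rep e).1 (rep e).2
        rwa [← hrep e] at this
      | true =>
        have := Sym2.mem_mk_left (rep e).1 (rep e).2
        rwa [← hrep e] at this
    simp only at hh
    have : e = e' := hN.2 e he e' he' _ (m1 e b) (by rw [hh]; exact m1 e' b')
    subst this
    have hd : (rep e).1 ≠ (rep e).2 := by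
      intro hc
      apply hN.1 e he
      rw [hrep e]
      exact hc
    cases b with
    | false =>
      cases b' with
      | false => rfl
      | true => exact absurd hh.symm hd
    | true =>
      cases b' with
      | false => exact absurd hh hd
      | true => rfl
  have hf : Function.Injective f := key M h
  have hg : Function.Injective g := by
    intro p q hpq
    have := key M' h' (a₁ := (φ p.1, p.2)) (a₂ := (φ q.1, q.2)) hpq
    rw [Prod.mk.injEq] at this
    exact Prod.ext (φ.injective this.1) this.2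
  have hd := Dec.ofInj f g hf hg (fun e : M => (e, true)) (fun e : M => (e, false)) Finset.univ
  have e1 : (Finset.univ : Finset M).image (fun i => s(f (i, true), f (i, false))) = M := by
    ext e
    simp only [Finset.mem_image, Finset.mem_univ, true_and, f, cond_true, cond_false]
    constructor
    · rintro ⟨a, rfl⟩; rw [← hrep]; exact a.2
    · intro he; exact ⟨⟨e, he⟩, (hrep e).symm⟩
  have e2 : (Finset.univ : Finset M).image (fun i => s(g (i, true), g (i, false))) = M' := by
    ext e
    simp only [Finset.mem_image, Finset.mem_univ, true_and, g, cond_true, cond_false]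
    constructor
    · rintro ⟨a, rfl⟩; rw [← hrep]; exact (φ a).2
    · intro he; refine ⟨φ.symm ⟨e, he⟩, ?_⟩
      rw [φ.apply_symm_apply]; exact (hrep e).symm
  rw [e1, e2] at hd
  exact hd

/-- star with centre v and leaf set L -/
def star (v : V) (L : Finset V) : Finset (Sym2 V) := L.image (fun x => s(v, x))

theorem card_star (v : V) (L : Finset V) : (star v L).card = L.card := by
  unfold star
  apply Finset.card_image_of_injective
  intro x y h
  simp only [Sym2.eq_iff] at h
  rcases h with h | h
  · exact h.2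
  · rw [← h.1, h.2]

theorem Dec.star {v v' : V} {L L' : Finset V} (h : v ∉ L) (h' : v' ∉ L') (hc : L.card = L'.card) :
    Dec 1 (star v L) (star v' L') := by
  classical
  let φ : L ≃ L' := Finset.equivOfCardEq hc
  let f : Option L → V := fun o => o.elim v (fun x => x.1)
  let g : Option L → V := fun o => o.elim v' (fun x => (φ x).1)
  have hf : Function.Injective f := by
    intro a b hab
    cases a with
    | none => cases b with
      | none => rfl
      | some b => simp only [f, Option.elim] at hab; exact absurd b.2 (hab ▸ h)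
    | some a => cases b with
      | none => simp only [f, Option.elim] at hab; exact absurd a.2 (hab ▸ h)
      | some b => simp only [f, Option.elim] at hab; rw [Subtype.ext hab]
  have hg : Function.Injective g := by
    intro a b hab
    cases a with
    | none => cases b with
      | none => rfl
      | some b => simp only [g, Option.elim] at hab; exact absurd (φ b).2 (hab ▸ h')
    | some a => cases b with
      | none => simp only [g, Option.elim] at hab; exact absurd (φ a).2 (hab ▸ h')
      | some b => simp only [g, Option.elim] at hab; rw [φ.injective (Subtype.ext hab)]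
  have hd := Dec.ofInj f g hf hg (fun _ : L => none) (fun e : L => some e) Finset.univ
  have e1 : (Finset.univ : Finset L).image (fun i => s(f none, f (some i))) = S04879.star v L := by
    ext e
    simp only [Finset.mem_image, Finset.mem_univ, true_and, f, Option.elim, S04879.star]
    constructor
    · rintro ⟨a, rfl⟩; exact ⟨a.1, a.2, rfl⟩
    · rintro ⟨a, ha, rfl⟩; exact ⟨⟨a, ha⟩, rfl⟩
  have e2 : (Finset.univ : Finset L).image (fun i => s(g none, g (some i))) = S04879.star v' L' := by
    ext e
    simp only [Finset.mem_image, Finset.mem_univ, true_and, g, Option.elim, S04879.star]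
    constructor
    · rintro ⟨a, rfl⟩; exact ⟨(φ a).1, (φ a).2, rfl⟩
    · rintro ⟨a, ha, rfl⟩; refine ⟨φ.symm ⟨a, ha⟩, ?_⟩
      rw [φ.apply_symm_apply]
  rw [e1, e2] at hd
  exact hd

end ext


section model

variable {V : Type*} [DecidableEq V] [Fintype V] {q T : ℕ}

/-- copy of a part of the model star forest -/
def cp (f : Fin q × Option (Fin T) → V) (Z : Finset (Fin q × Fin T)) : Finset (Sym2 V) :=
  Z.image (fun p => s(f (p.1, none), f (p.1, some p.2)))

theorem ed_inj {f : Fin q × Option (Fin T) → V} (hf : Function.Injective f) :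
    Function.Injective (fun p : Fin q × Fin T => s(f (p.1, none), f (p.1, some p.2))) := by
  intro p p' h
  simp only [Sym2.eq_iff] at h
  rcases h with h | h
  · have h1 := hf h.1
    have h2 := hf h.2
    simp only [Prod.mk.injEq, Option.some.injEq] at h1 h2
    exact Prod.ext h2.1 h2.2
  · have h1 := hf h.1
    simp at h1

theorem card_cp {f : Fin q × Option (Fin T) → V} (hf : Function.Injective f)
    (Z : Finset (Fin q × Fin T)) : (cp f Z).card = Z.card :=
  Finset.card_image_of_injective _ (ed_inj hf)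

theorem cp_union (f : Fin q × Option (Fin T) → V) (Z Z' : Finset (Fin q × Fin T)) :
    cp f (Z ∪ Z') = cp f Z ∪ cp f Z' := Finset.image_union _ _

theorem cp_disj {f : Fin q × Option (Fin T) → V} (hf : Function.Injective f)
    {Z Z' : Finset (Fin q × Fin T)} (h : Disjoint Z Z') : Disjoint (cp f Z) (cp f Z') :=
  (Finset.disjoint_image (ed_inj hf)).mpr h

theorem cp_mono (f : Fin q × Option (Fin T) → V) {Z Z' : Finset (Fin q × Fin T)} (h : Z ⊆ Z') :
    cp f Z ⊆ cp f Z' := Finset.image_subset_image h

theorem Dec.cp {f g : Fin q × Option (Fin T) → V} (hf : Function.Injective f)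
    (hg : Function.Injective g) (Z : Finset (Fin q × Fin T)) : Dec 1 (cp f Z) (cp g Z) :=
  Dec.ofInj f g hf hg (fun p : Fin q × Fin T => (p.1, none))
    (fun p : Fin q × Fin T => (p.1, some p.2)) Z

theorem cp_IsM {f : Fin q × Option (Fin T) → V} (hf : Function.Injective f)
    {Z : Finset (Fin q × Fin T)} (hZ : ∀ p ∈ Z, ∀ p' ∈ Z, p.1 = p'.1 → p = p') :
    IsM (S04879.cp f Z) := by
  constructor
  · intro e he
    simp only [S04879.cp, Finset.mem_image] at he
    obtain ⟨p, hp, rfl⟩ := he
    intro hd
    have := hf (Sym2.mk_isDiag_iff.mp hd)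
    simp at this
  · intro e he e' he' v hv hv'
    simp only [S04879.cp, Finset.mem_image] at he he'
    obtain ⟨p, hp, rfl⟩ := he
    obtain ⟨p', hp', rfl⟩ := he'
    rw [Sym2.mem_iff] at hv hv'
    have : p.1 = p'.1 := by
      rcases hv with hv | hv <;> rcases hv' with hv' | hv' <;>
      · have := hf (hv.symm.trans hv')
        simp only [Prod.mk.injEq] at this
        exact this.1
    rw [hZ p hp p' hp' this]

/-- single-edge placement -/
theorem singles {f : Fin q × Option (Fin T) → V} (hf : Function.Injective f) (j0 : Fin T)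
    (R : Finset (Sym2 V)) (hR : ∀ e ∈ R, ¬ e.IsDiag) : ∀ I : Finset (Fin q), R.card ≤ I.card →
    ∃ Z : Finset (Fin q × Fin T), (∀ p ∈ Z, p.1 ∈ I) ∧ Dec R.card R (S04879.cp f Z) := by
  induction R using Finset.induction_on with
  | empty => intro I _; exact ⟨∅, by simp, by simpa [S04879.cp] using Dec.nil⟩
  | insert e R he ih =>
    intro I hI
    rw [Finset.card_insert_of_notMem he] at hI
    obtain ⟨i, hi⟩ : I.Nonempty := by
      rw [← Finset.card_pos]; omega
    obtain ⟨Z, hZ, hD⟩ := ih (fun e' h => hR e' (Finset.mem_insert_of_mem h)) (I.erase i)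
      (by rw [Finset.card_erase_of_mem hi]; omega)
    refine ⟨Z ∪ {(i, j0)}, ?_, ?_⟩
    · intro p hp
      rw [Finset.mem_union, Finset.mem_singleton] at hp
      rcases hp with hp | rfl
      · exact Finset.mem_of_mem_erase (hZ p hp)
      · exact hi
    · have h1 : Dec 1 {e} (S04879.cp f {(i, j0)}) := by
        apply Dec.matching
        · refine ⟨by simpa using hR e (Finset.mem_insert_self e R), ?_⟩
          intro a ha b hb _ _ _
          rw [Finset.mem_singleton] at ha hb; rw [ha, hb]
        · apply cp_IsM hf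
          intro p hp p' hp' _
          rw [Finset.mem_singleton] at hp hp'; rw [hp, hp']
        · rw [card_cp hf]; simp
      have := hD.add h1 (by simpa using he) (cp_disj hf (by
        rw [Finset.disjoint_singleton_right]
        intro hh
        have := hZ _ hh
        simp at this))
      rw [Finset.card_insert_of_notMem he, cp_union, Finset.insert_eq, Finset.union_comm {e} R]
      exact this

/-- edges at a vertex -/
def at' (R : Finset (Sym2 V)) (v : V) : Finset (Sym2 V) := R.filter (fun e => v ∈ e)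

theorem exists_star {R : Finset (Sym2 V)} (hR : ∀ e ∈ R, ¬ e.IsDiag) {v : V} {t : ℕ}
    (h : t ≤ (at' R v).card) : ∃ L : Finset V, v ∉ L ∧ L.card = t ∧ star v L ⊆ R := by
  have e1 : at' R v = (Finset.univ.filter (fun x => s(v, x) ∈ R)).image (fun x => s(v, x)) := by
    ext e
    simp only [at', Finset.mem_filter, Finset.mem_image, Finset.mem_univ, true_and]
    constructor
    · rintro ⟨he, hv⟩
      obtain ⟨x, rfl⟩ := hv
      exact ⟨x, he, rfl⟩
    · rintro ⟨x, hx, rfl⟩
      exact ⟨hx, Sym2.mem_mk_left _ _⟩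
  rw [e1] at h
  have h2 := h.trans Finset.card_image_le
  obtain ⟨L, hL, hLc⟩ := Finset.exists_subset_card_eq h2
  refine ⟨L, ?_, hLc, ?_⟩
  · intro hv
    have := hL hv
    rw [Finset.mem_filter] at this
    exact hR _ this.2 rfl
  · intro e he
    simp only [S04879.star, Finset.mem_image] at he
    obtain ⟨x, hx, rfl⟩ := he
    have := hL hx
    rw [Finset.mem_filter] at this
    exact this.2

theorem exists_matching {R : Finset (Sym2 V)} (hR : ∀ e ∈ R, ¬ e.IsDiag)
    (hdeg : ∀ v, (at' R v).card < T) (hc : 2 * T ^ 2 ≤ R.card) :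
    ∀ t ≤ T, ∃ M ⊆ R, IsM M ∧ M.card = t := by
  intro t
  induction t with
  | zero => intro _; exact ⟨∅, by simp, ⟨by simp, by simp⟩, rfl⟩
  | succ t ih =>
    intro ht
    obtain ⟨M, hMR, hM, hMc⟩ := ih (by omega)
    by_cases hex : ∃ e ∈ R, ∀ e' ∈ M, ∀ v, v ∈ e → v ∉ e'
    · obtain ⟨e, heR, he⟩ := hex
      have heM : e ∉ M := by
        intro h
        induction e with
        | _ x y => exact he _ h x (Sym2.mem_mk_left _ _) (Sym2.mem_mk_left _ _)
      refine ⟨insert e M, Finset.insert_subset heR hMR, ⟨?_, ?_⟩, ?_⟩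
      · intro a ha
        rw [Finset.mem_insert] at ha
        rcases ha with rfl | ha
        · exact hR _ heR
        · exact hM.1 a ha
      · intro a ha b hb v hva hvb
        rw [Finset.mem_insert] at ha hb
        rcases ha with rfl | ha <;> rcases hb with rfl | hb
        · rfl
        · exact absurd hvb (he b hb v hva)
        · exact absurd hva (he a ha v hvb)
        · exact hM.2 a ha b hb v hva hvb
      · rw [Finset.card_insert_of_notMem heM, hMc]
    · exfalso
      push Not at hex
      have hsub : R ⊆ M.biUnion (fun e' => Finset.univ.biUnion (fun v => if v ∈ e' then at' R v else ∅)) := by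
        intro e he
        obtain ⟨e', he', v, hv, hv'⟩ := hex e he
        rw [Finset.mem_biUnion]
        refine ⟨e', he', ?_⟩
        rw [Finset.mem_biUnion]
        refine ⟨v, Finset.mem_univ _, ?_⟩
        rw [if_pos hv']
        exact Finset.mem_filter.mpr ⟨he, hv⟩
      have hb : ∀ e' ∈ M, (Finset.univ.biUnion (fun v => if v ∈ e' then at' R v else ∅)).card ≤ 2 * T := by
        intro e' he'
        induction e' with
        | _ x y =>
          have : (Finset.univ.biUnion (fun v => if v ∈ s(x, y) then at' R v else ∅)) ⊆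
              at' R x ∪ at' R y := by
            intro e he
            rw [Finset.mem_biUnion] at he
            obtain ⟨v, _, hv⟩ := he
            split_ifs at hv with hh
            · rw [Sym2.mem_iff] at hh
              rw [Finset.mem_union]
              rcases hh with rfl | rfl
              · exact Or.inl hv
              · exact Or.inr hv
            · simp at hv
          have h1 := Finset.card_le_card this
          have h2 := Finset.card_union_le (at' R x) (at' R y)
          have h3 := hdeg x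
          have h4 := hdeg y
          omega
      have h5 := (Finset.card_le_card hsub).trans (Finset.card_biUnion_le_card_mul M _ (2 * T) hb)
      rw [hMc] at h5
      have : t * (2 * T) < 2 * T ^ 2 := by nlinarith
      omega

theorem piece {R : Finset (Sym2 V)} (hR : ∀ e ∈ R, ¬ e.IsDiag) (hc : 2 * T ^ 2 ≤ R.card) :
    (∃ (v : V) (L : Finset V), v ∉ L ∧ L.card = T ∧ star v L ⊆ R) ∨
      (∃ M ⊆ R, IsM M ∧ M.card = T) := by
  by_cases h : ∃ v, T ≤ (at' R v).card
  · obtain ⟨v, hv⟩ := h
    obtain ⟨L, h1, h2, h3⟩ := exists_star hR hv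
    exact Or.inl ⟨v, L, h1, h2, h3⟩
  · push Not at h
    exact Or.inr (exists_matching hR h hc T le_rfl)

theorem toStars (hT : 1 ≤ T) {f : Fin q × Option (Fin T) → V} (hf : Function.Injective f) :
    ∀ (m : ℕ) (R : Finset (Sym2 V)), R.card = m → (∀ e ∈ R, ¬ e.IsDiag) →
    ∀ I : Finset (Fin q), R.card ≤ I.card →
    ∃ (r : ℕ) (Z : Finset (Fin q × Fin T)), (∀ p ∈ Z, p.1 ∈ I) ∧ Dec r R (S04879.cp f Z) ∧
      r * T ≤ R.card + 2 * T ^ 3 := by
  intro m
  induction m using Nat.strong_induction_on with
  | _ m ih =>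
    intro R hRm hR I hI
    have j0 : Fin T := ⟨0, hT⟩
    by_cases hsmall : R.card < 2 * T ^ 2
    · obtain ⟨Z, hZ, hD⟩ := singles hf j0 R hR I hI
      refine ⟨R.card, Z, hZ, hD, ?_⟩
      have : R.card * T ≤ 2 * T ^ 2 * T := Nat.mul_le_mul_right _ hsmall.le
      calc R.card * T ≤ 2 * T ^ 2 * T := this
        _ = 2 * T ^ 3 := by ring
        _ ≤ _ := Nat.le_add_left _ _
    · push Not at hsmall
      have hT2 : T ≤ 2 * T ^ 2 := by nlinarith
      rcases piece hR hsmall with ⟨v, L, hv, hL, hS⟩ | ⟨M, hMR, hM, hMc⟩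
      · obtain ⟨i, hi⟩ : I.Nonempty := by
          rw [← Finset.card_pos]; omega
        have hSc : (star v L).card = T := by rw [card_star, hL]
        have hc' : (R \ star v L).card = R.card - T := by
          rw [Finset.card_sdiff_of_subset hS, hSc]
        obtain ⟨r, Z, hZ, hD, hr⟩ := ih (R.card - T) (by omega) (R \ star v L) hc'
          (fun e he => hR e (Finset.mem_sdiff.mp he).1) (I.erase i)
          (by rw [Finset.card_erase_of_mem hi]; omega)
        have h1 : Dec 1 (star v L) (S04879.cp f (({i} : Finset (Fin q)) ×ˢ Finset.univ)) := by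
          have : S04879.cp f (({i} : Finset (Fin q)) ×ˢ Finset.univ) =
              star (f (i, none)) (Finset.univ.image (fun j : Fin T => f (i, some j))) := by
            ext e
            simp only [S04879.cp, S04879.star, Finset.mem_image, Finset.mem_product,
              Finset.mem_singleton, Finset.mem_univ, and_true, true_and]
            constructor
            · rintro ⟨⟨a, b⟩, h, rfl⟩
              simp only at h; subst h
              exact ⟨f (a, some b), ⟨b, rfl⟩, rfl⟩
            · rintro ⟨x, ⟨b, rfl⟩, rfl⟩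
              exact ⟨(i, b), rfl, rfl⟩
          rw [this]
          apply Dec.star hv
          · intro hh
            rw [Finset.mem_image] at hh
            obtain ⟨j, _, hj⟩ := hh
            have := hf hj
            simp at this
          · rw [Finset.card_image_of_injective]
            · simp [hL]
            · intro a b hab
              have := hf hab
              simpa using this
        refine ⟨r + 1, Z ∪ (({i} : Finset (Fin q)) ×ˢ Finset.univ), ?_, ?_, ?_⟩
        · intro p hp
          rw [Finset.mem_union, Finset.mem_product, Finset.mem_singleton] at hp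
          rcases hp with hp | hp
          · exact Finset.mem_of_mem_erase (hZ p hp)
          · rw [hp.1]; exact hi
        · have := hD.add h1 Finset.sdiff_disjoint (cp_disj hf (by
            rw [Finset.disjoint_left]
            intro p hp hp'
            rw [Finset.mem_product, Finset.mem_singleton] at hp'
            have := hZ p hp
            rw [hp'.1] at this
            simp at this))
          rw [cp_union]
          rwa [Finset.sdiff_union_of_subset hS] at this
        · rw [hc'] at hr
          have : (r + 1) * T = r * T + T := by ring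
          omega
      · obtain ⟨J, hJI, hJc⟩ := Finset.exists_subset_card_eq (s := I) (n := T) (by omega)
        have hc' : (R \ M).card = R.card - T := by
          rw [Finset.card_sdiff_of_subset hMR, hMc]
        obtain ⟨r, Z, hZ, hD, hr⟩ := ih (R.card - T) (by omega) (R \ M) hc'
          (fun e he => hR e (Finset.mem_sdiff.mp he).1) (I \ J)
          (by rw [Finset.card_sdiff_of_subset hJI]; omega)
        have h1 : Dec 1 M (S04879.cp f (J ×ˢ {j0})) := by
          apply Dec.matching hM
          · apply cp_IsM hf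
            intro p hp p' hp' h
            rw [Finset.mem_product, Finset.mem_singleton] at hp hp'
            exact Prod.ext h (hp.2.trans hp'.2.symm)
          · rw [card_cp hf, Finset.card_product, hMc, hJc]; simp
        refine ⟨r + 1, Z ∪ (J ×ˢ {j0}), ?_, ?_, ?_⟩
        · intro p hp
          rw [Finset.mem_union, Finset.mem_product] at hp
          rcases hp with hp | hp
          · exact (Finset.mem_sdiff.mp (hZ p hp)).1
          · exact hJI hp.1
        · have := hD.add h1 Finset.sdiff_disjoint (cp_disj hf (by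
            rw [Finset.disjoint_left]
            intro p hp hp'
            rw [Finset.mem_product] at hp'
            have := hZ p hp
            exact (Finset.mem_sdiff.mp this).2 hp'.1))
          rw [cp_union]
          rwa [Finset.sdiff_union_of_subset hMR] at this
        · rw [hc'] at hr
          have : (r + 1) * T = r * T + T := by ring
          omega

theorem toMatching {f : Fin q × Option (Fin T) → V} (hf : Function.Injective f)
    (J : Finset (Fin T)) : ∀ (Z : Finset (Fin q × Fin T)), (∀ p ∈ Z, p.2 ∈ J) →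
    ∀ M : Finset (Sym2 V), IsM M → Z.card = M.card → Dec J.card (S04879.cp f Z) M := by
  induction J using Finset.induction_on with
  | empty =>
    intro Z hZ M hM hc
    have : Z = ∅ := by
      rw [Finset.eq_empty_iff_forall_notMem]; intro p hp; simpa using hZ p hp
    subst this
    have : M = ∅ := by rw [← Finset.card_eq_zero, ← hc]; rfl
    subst this
    simpa [S04879.cp] using Dec.nil
  | insert j J hj ih =>
    intro Z hZ M hM hc
    let Z1 := Z.filter (fun p => p.2 = j)
    let Z2 := Z.filter (fun p => ¬ p.2 = j)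
    have hZZ : Z2 ∪ Z1 = Z := by
      rw [Finset.union_comm]; exact Finset.filter_union_filter_not_eq _ _
    have hdis : Disjoint Z2 Z1 := (Finset.disjoint_filter_filter_not _ _ _).symm
    have hcard : Z2.card + Z1.card = Z.card := by
      rw [← Finset.card_union_of_disjoint hdis, hZZ]
    obtain ⟨M1, hM1, hM1c⟩ := Finset.exists_subset_card_eq (s := M) (n := Z1.card) (by omega)
    have h1 : Dec 1 (S04879.cp f Z1) M1 := by
      apply Dec.matching
      · apply cp_IsM hf
        intro p hp p' hp' h
        exact Prod.ext h ((Finset.mem_filter.mp hp).2.trans (Finset.mem_filter.mp hp').2.symm)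
      · exact hM.mono hM1
      · rw [card_cp hf, hM1c]
    have h2 : Dec J.card (S04879.cp f Z2) (M \ M1) := by
      apply ih
      · intro p hp
        have := Finset.mem_filter.mp hp
        have h3 := hZ p this.1
        rw [Finset.mem_insert] at h3
        tauto
      · exact hM.mono Finset.sdiff_subset
      · rw [Finset.card_sdiff_of_subset hM1]; omega
    have := h2.add h1 (cp_disj hf hdis) Finset.sdiff_disjoint
    rw [← cp_union, hZZ, Finset.sdiff_union_of_subset hM1] at this
    rw [Finset.card_insert_of_notMem hj]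
    exact this

end model


section groups

variable {V : Type*} [DecidableEq V] [Fintype V] {q T : ℕ}

theorem cp_compl {f : Fin q × Option (Fin T) → V} (Z : Finset (Fin q × Fin T)) :
    cp f Z ∪ cp f Zᶜ = cp f Finset.univ := by
  rw [← cp_union, Finset.union_compl]

/-- half transformation: R is turned into the matching inside the second copy -/
theorem half (hT : 1 ≤ T) {f1 f2 g1 g2 : Fin q × Option (Fin T) → V}
    (hf1 : Function.Injective f1) (hf2 : Function.Injective f2)
    (hg1 : Function.Injective g1) (hg2 : Function.Injective g2)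
    {R : Finset (Sym2 V)} (hR : ∀ e ∈ R, ¬ e.IsDiag) (hq : R.card ≤ q)
    (d1 : Disjoint R (cp f1 Finset.univ)) (d2 : Disjoint R (cp f2 Finset.univ))
    (d3 : Disjoint (cp f1 Finset.univ) (cp f2 Finset.univ))
    (d4 : Disjoint (cp g1 Finset.univ) (cp g2 Finset.univ))
    {Mm : Finset (Fin q × Fin T)} (hMm : ∀ p ∈ Mm, ∀ p' ∈ Mm, p.1 = p'.1 → p = p')
    (hMc : Mm.card = R.card) :
    ∃ r : ℕ, r * T ≤ R.card + (2 * T ^ 3 + T ^ 2 + 2 * T) ∧
      Dec r ((R ∪ cp f1 Finset.univ) ∪ cp f2 Mmᶜ) (cp g1 Finset.univ ∪ cp g2 Finset.univ) := by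
  obtain ⟨r0, Z, _, hD, hr0⟩ := toStars hT hg1 R.card R rfl hR Finset.univ (by simpa using hq)
  have hZc : Z.card = R.card := by rw [hD.card_eq, card_cp hg1]
  have a1 : Dec 1 (cp f1 Zᶜ) (cp g1 Zᶜ) := Dec.cp hf1 hg1 _
  have a2 : Dec (Finset.univ : Finset (Fin T)).card (cp f1 Z) (cp g2 Mm) :=
    toMatching hf1 Finset.univ Z (by simp) _ (cp_IsM hg2 hMm) (by rw [card_cp hg2, hMc, hZc])
  have a3 : Dec 1 (cp f2 Mmᶜ) (cp g2 Mmᶜ) := Dec.cp hf2 hg2 _
  rw [Finset.card_univ, Fintype.card_fin] at a2
  refine ⟨r0 + 1 + T + 1, by nlinarith, ?_⟩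
  have b1 := hD.add a1 (d1.mono_right (cp_mono f1 (Finset.subset_univ _)))
    (cp_disj hg1 disjoint_compl_right)
  rw [cp_compl] at b1
  have b2 := b1.add a2 (by
      rw [Finset.disjoint_union_left]
      exact ⟨d1.mono_right (cp_mono f1 (Finset.subset_univ _)),
        cp_disj hf1 disjoint_compl_left⟩)
    (d4.mono_right (cp_mono g2 (Finset.subset_univ _)))
  have b3 := b2.add a3 (by
      rw [Finset.disjoint_union_left, Finset.disjoint_union_left]
      exact ⟨⟨d2.mono_right (cp_mono f2 (Finset.subset_univ _)),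
        d3.mono (cp_mono f1 (Finset.subset_univ _)) (cp_mono f2 (Finset.subset_univ _))⟩,
        d3.mono (cp_mono f1 (Finset.subset_univ _)) (cp_mono f2 (Finset.subset_univ _))⟩)
    (by
      rw [Finset.disjoint_union_left]
      exact ⟨d4.mono_right (cp_mono g2 (Finset.subset_univ _)),
        cp_disj hg2 disjoint_compl_right⟩)
  have e1 : R ∪ cp f1 Zᶜ ∪ cp f1 Z ∪ cp f2 Mmᶜ = (R ∪ cp f1 Finset.univ) ∪ cp f2 Mmᶜ := by
    rw [Finset.union_assoc R, Finset.union_comm (cp f1 Zᶜ), cp_compl]
  have e2 : cp g1 Finset.univ ∪ cp g2 Mm ∪ cp g2 Mmᶜ = cp g1 Finset.univ ∪ cp g2 Finset.univ := by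
    rw [Finset.union_assoc, cp_compl]
  rw [e1, e2] at b3
  exact b3

inductive Copies (q T : ℕ) : ℕ → Finset (Sym2 V) → Prop
  | nil : Copies q T 0 ∅
  | cons {k : ℕ} {B : Finset (Sym2 V)} (h : Copies q T k B)
      (f : Fin q × Option (Fin T) → V) (hf : Function.Injective f)
      (hd : Disjoint B (cp f Finset.univ)) : Copies q T (k + 1) (B ∪ cp f Finset.univ)

theorem group (hT : 1 ≤ T) {R R' B B' : Finset (Sym2 V)}
    (hR : ∀ e ∈ R, ¬ e.IsDiag) (hR' : ∀ e ∈ R', ¬ e.IsDiag) (hq : R.card ≤ q)
    (hc : R.card = R'.card) (hB : Copies q T 4 B) (hB' : Copies q T 4 B')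
    (hd : Disjoint R B) (hd' : Disjoint R' B') :
    ∃ r : ℕ, r * T ≤ 2 * R.card + (4 * T ^ 3 + 2 * T ^ 2 + 5 * T) ∧ Dec r (R ∪ B) (R' ∪ B') := by
  obtain ⟨I, _, hIc⟩ := Finset.exists_subset_card_eq (s := (Finset.univ : Finset (Fin q)))
    (n := R.card) (by simpa using hq)
  let j0 : Fin T := ⟨0, hT⟩
  let Mm : Finset (Fin q × Fin T) := I ×ˢ {j0}
  have hMm : ∀ p ∈ Mm, ∀ p' ∈ Mm, p.1 = p'.1 → p = p' := by
    intro p hp p' hp' h
    rw [Finset.mem_product, Finset.mem_singleton] at hp hp'
    exact Prod.ext h (hp.2.trans hp'.2.symm)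
  have hMc : Mm.card = R.card := by
    rw [Finset.card_product, hIc]; simp
  rcases hB with _ | ⟨hB, f4, hf4, df4⟩
  rcases hB with _ | ⟨hB, f3, hf3, df3⟩
  rcases hB with _ | ⟨hB, f2, hf2, df2⟩
  rcases hB with _ | ⟨hB, f1, hf1, df1⟩
  rcases hB with _ | _
  rcases hB' with _ | ⟨hB', g4, hg4, dg4⟩
  rcases hB' with _ | ⟨hB', g3, hg3, dg3⟩
  rcases hB' with _ | ⟨hB', g2, hg2, dg2⟩
  rcases hB' with _ | ⟨hB', g1, hg1, dg1⟩
  rcases hB' with _ | _
  simp only [Finset.disjoint_union_left, Finset.disjoint_union_right, Finset.empty_union] at *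
  obtain ⟨⟨⟨r1, r2⟩, r3⟩, r4⟩ := hd
  obtain ⟨⟨⟨r1', r2'⟩, r3'⟩, r4'⟩ := hd'
  obtain ⟨⟨f14, f24⟩, f34⟩ := df4
  obtain ⟨⟨g14, g24⟩, g34⟩ := dg4
  obtain ⟨f13, f23⟩ := df3
  obtain ⟨g13, g23⟩ := dg3
  obtain ⟨s1, hs1, D1⟩ := half hT hf1 hf2 hg1 hg2 hR hq r1 r2 df2 dg2 hMm hMc
  obtain ⟨s2, hs2, D2⟩ := half hT hg3 hg4 hf3 hf4 hR' (hc ▸ hq) r3' r4' g34 f34 hMm (hMc.trans hc)
  have D3 : Dec 1 (cp f2 Mm) (cp g4 Mm) := Dec.cp hf2 hg4 Mm
  have m2 := cp_mono f2 (Finset.subset_univ Mm)
  have m2' := cp_mono f2 (Finset.subset_univ Mmᶜ)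
  have m4 := cp_mono g4 (Finset.subset_univ Mm)
  have m4' := cp_mono g4 (Finset.subset_univ Mmᶜ)
  have D12 := D1.add D2.symm (by
      simp only [Finset.disjoint_union_left, Finset.disjoint_union_right]
      exact ⟨⟨⟨r3, f13⟩, f23.mono_left m2'⟩, ⟨⟨r4, f14⟩, f24.mono_left m2'⟩⟩)
    (by
      simp only [Finset.disjoint_union_left, Finset.disjoint_union_right]
      exact ⟨⟨⟨r1'.symm, r2'.symm⟩, ⟨g13, g23⟩⟩, ⟨g14.mono_right m4', g24.mono_right m4'⟩⟩)
  have D := D12.add D3 (by
      simp only [Finset.disjoint_union_left, Finset.disjoint_union_right]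
      exact ⟨⟨⟨r2.mono_right m2, df2.mono_right m2⟩, cp_disj hf2 disjoint_compl_left⟩,
        ⟨f23.symm.mono_right m2, f24.symm.mono_right m2⟩⟩)
    (by
      simp only [Finset.disjoint_union_left, Finset.disjoint_union_right]
      exact ⟨⟨g14.mono_right m4, g24.mono_right m4⟩,
        ⟨⟨r4'.mono_right m4, g34.mono_right m4⟩, cp_disj hg4 disjoint_compl_left⟩⟩)
  refine ⟨s1 + s2 + 1, by rw [← hc] at hs2; nlinarith, ?_⟩
  convert D using 1
  · rw [← cp_compl (f := f2) Mm]
    ac_rfl
  · rw [← cp_compl (f := g4) Mm]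
    ac_rfl

theorem groups (hT : 1 ≤ T) (L : ℕ) : ∀ {R R' B B' : Finset (Sym2 V)},
    (∀ e ∈ R, ¬ e.IsDiag) → (∀ e ∈ R', ¬ e.IsDiag) → R.card ≤ L * q →
    R.card = R'.card → Copies q T (4 * L) B → Copies q T (4 * L) B' →
    Disjoint R B → Disjoint R' B' →
    ∃ r : ℕ, r * T ≤ 2 * R.card + L * (4 * T ^ 3 + 2 * T ^ 2 + 5 * T) ∧
      Dec r (R ∪ B) (R' ∪ B') := by
  induction L with
  | zero =>
    intro R R' B B' _ _ h1 h2 hB hB' _ _
    have hR : R = ∅ := by rw [← Finset.card_eq_zero]; omega
    have hR' : R' = ∅ := by rw [← Finset.card_eq_zero]; omega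
    subst hR; subst hR'
    rw [Nat.mul_zero] at hB hB'
    rcases hB with _ | _
    rcases hB' with _ | _
    exact ⟨0, by simp, by simpa using Dec.nil⟩
  | succ L ih =>
    intro R R' B B' nd nd' h1 h2 hB hB' hd hd'
    have split : ∀ {B : Finset (Sym2 V)}, Copies q T (4 * (L + 1)) B →
        ∃ B1 B2, Copies q T (4 * L) B1 ∧ Copies q T 4 B2 ∧ Disjoint B1 B2 ∧ B = B1 ∪ B2 := by
      intro B hB
      rw [show 4 * (L + 1) = 4 * L + 1 + 1 + 1 + 1 by ring] at hB
      rcases hB with _ | ⟨hB, f4, hf4, df4⟩
      rcases hB with _ | ⟨hB, f3, hf3, df3⟩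
      rcases hB with _ | ⟨hB, f2, hf2, df2⟩
      rcases hB with _ | ⟨hB, f1, hf1, df1⟩
      rename_i B0
      simp only [Finset.disjoint_union_left, Finset.disjoint_union_right] at *
      refine ⟨B0, (((∅ ∪ cp f1 Finset.univ) ∪ cp f2 Finset.univ) ∪ cp f3 Finset.univ) ∪
        cp f4 Finset.univ, hB, ?_, ?_, ?_⟩
      · exact Copies.cons (Copies.cons (Copies.cons (Copies.cons Copies.nil f1 hf1 (by simp))
          f2 hf2 (by simp only [Finset.empty_union]; exact df2.2)) f3 hf3
          (by simp only [Finset.disjoint_union_left, Finset.empty_union]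
              exact ⟨df3.1.2, df3.2⟩)) f4 hf4
          (by simp only [Finset.disjoint_union_left, Finset.empty_union]
              exact ⟨⟨df4.1.1.2, df4.1.2⟩, df4.2⟩)
      · simp only [Finset.disjoint_union_right, Finset.disjoint_empty_right, true_and]
        exact ⟨⟨⟨df1, df2.1⟩, df3.1.1⟩, df4.1.1.1⟩
      · simp only [Finset.empty_union, Finset.union_assoc]
    obtain ⟨B1, B2, c1, c2, c3, rfl⟩ := split hB
    obtain ⟨B1', B2', c1', c2', c3', rfl⟩ := split hB'
    obtain ⟨R2, hR2, hR2c⟩ := Finset.exists_subset_card_eq (s := R) (n := min R.card q)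
      (min_le_left _ _)
    obtain ⟨R2', hR2', hR2c'⟩ := Finset.exists_subset_card_eq (s := R') (n := min R.card q)
      (by rw [h2]; exact min_le_left _ _)
    have k1 : (R \ R2).card = R.card - min R.card q := by
      rw [Finset.card_sdiff_of_subset hR2, hR2c]
    have k1' : (R' \ R2').card = R.card - min R.card q := by
      rw [Finset.card_sdiff_of_subset hR2', hR2c', h2]
    simp only [Finset.disjoint_union_right] at hd hd'
    obtain ⟨r, hr, hD⟩ := ih (R := R \ R2) (R' := R' \ R2') (B := B1) (B' := B1')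
      (fun e he => nd e (Finset.mem_sdiff.mp he).1) (fun e he => nd' e (Finset.mem_sdiff.mp he).1)
      (by rw [k1]; rw [Nat.add_mul] at h1; omega) (k1.trans k1'.symm) c1 c1'
      (hd.1.mono_left Finset.sdiff_subset) (hd'.1.mono_left Finset.sdiff_subset)
    obtain ⟨s, hs, hE⟩ := group (q := q) hT (R := R2) (R' := R2') (fun e he => nd e (hR2 he))
      (fun e he => nd' e (hR2' he)) (by rw [hR2c]; exact min_le_right _ _)
      (hR2c.trans hR2c'.symm) c2 c2' (hd.2.mono_left hR2) (hd'.2.mono_left hR2')
    refine ⟨r + s, ?_, ?_⟩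
    · rw [k1] at hr; rw [hR2c] at hs
      have : min R.card q ≤ R.card := min_le_left _ _
      have e : (r + s) * T = r * T + s * T := by ring
      have e' : (L + 1) * (4 * T ^ 3 + 2 * T ^ 2 + 5 * T) =
        L * (4 * T ^ 3 + 2 * T ^ 2 + 5 * T) + (4 * T ^ 3 + 2 * T ^ 2 + 5 * T) := by ring
      rw [e, e']
      omega
    · have := hD.add hE (by
          simp only [Finset.disjoint_union_left, Finset.disjoint_union_right]
          exact ⟨⟨Finset.sdiff_disjoint, hd.1.symm.mono_right hR2⟩,
            ⟨hd.2.mono_left Finset.sdiff_subset, c3⟩⟩)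
        (by
          simp only [Finset.disjoint_union_left, Finset.disjoint_union_right]
          exact ⟨⟨Finset.sdiff_disjoint, hd'.1.symm.mono_right hR2'⟩,
            ⟨hd'.2.mono_left Finset.sdiff_subset, c3'⟩⟩)
      convert this using 1
      · ext e
        simp only [Finset.mem_union, Finset.mem_sdiff]
        have := @hR2 e
        tauto
      · ext e
        simp only [Finset.mem_union, Finset.mem_sdiff]
        have := @hR2' e
        tauto

end groups


section find

variable {V : Type*} [DecidableEq V] [Fintype V]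

theorem at_card_le (R : Finset (Sym2 V)) (v : V) : (at' R v).card ≤ Fintype.card V := by
  have : at' R v ⊆ Finset.univ.image (fun x => s(v, x)) := by
    intro e he
    obtain ⟨x, rfl⟩ := (Finset.mem_filter.mp he).2
    exact Finset.mem_image_of_mem _ (Finset.mem_univ _)
  exact (Finset.card_le_card this).trans (Finset.card_image_le.trans (by simp))

theorem exists_deg {T : ℕ} {R : Finset (Sym2 V)} (h : T * Fintype.card V < R.card) :
    ∃ v, T ≤ (at' R v).card := by
  by_contra hcon
  push Not at hcon
  have hsub : R ⊆ Finset.univ.biUnion (fun v => at' R v) := by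
    intro e he
    induction e with
    | _ x y =>
      rw [Finset.mem_biUnion]
      exact ⟨x, Finset.mem_univ _, Finset.mem_filter.mpr ⟨he, Sym2.mem_mk_left _ _⟩⟩
  have := (Finset.card_le_card hsub).trans
    (Finset.card_biUnion_le_card_mul Finset.univ _ T (fun v _ => (hcon v).le))
  rw [Finset.card_univ, Nat.mul_comm] at this
  omega

theorem find_copy {T : ℕ} (hT : 1 ≤ T) : ∀ (q : ℕ) (E : Finset (Sym2 V)),
    (∀ e ∈ E, ¬ e.IsDiag) → (q * (T + 1) + T) * Fintype.card V < E.card →
    ∃ f : Fin q × Option (Fin T) → V, Function.Injective f ∧ cp f Finset.univ ⊆ E := by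
  intro q
  induction q with
  | zero =>
    intro E _ _
    refine ⟨fun p => Fin.elim0 p.1, fun p => Fin.elim0 p.1, ?_⟩
    intro e he
    simp only [cp, Finset.mem_image] at he
    obtain ⟨p, _, _⟩ := he
    exact Fin.elim0 p.1
  | succ q ih =>
    intro E nd hE
    have hdeg : T * Fintype.card V < E.card := by
      refine lt_of_le_of_lt (Nat.mul_le_mul_right _ ?_) hE
      exact Nat.le_add_left _ _
    obtain ⟨v, hv⟩ := exists_deg hdeg
    obtain ⟨L, hvL, hLc, hL⟩ := exists_star nd hv
    let U : Finset V := insert v L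
    have hUc : U.card = T + 1 := by rw [Finset.card_insert_of_notMem hvL, hLc]
    let E' := E.filter (fun e => ∀ u ∈ U, u ∉ e)
    have hsub : E ⊆ E' ∪ U.biUnion (fun u => at' E u) := by
      intro e he
      rw [Finset.mem_union]
      by_cases h : ∀ u ∈ U, u ∉ e
      · exact Or.inl (Finset.mem_filter.mpr ⟨he, h⟩)
      · push Not at h
        obtain ⟨u, hu, hue⟩ := h
        exact Or.inr (Finset.mem_biUnion.mpr ⟨u, hu, Finset.mem_filter.mpr ⟨he, hue⟩⟩)
    have h1 := (Finset.card_le_card hsub).trans (Finset.card_union_le _ _)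
    have h2 := Finset.card_biUnion_le_card_mul U (fun u => at' E u) (Fintype.card V)
      (fun u _ => at_card_le E u)
    rw [hUc] at h2
    have hE' : (q * (T + 1) + T) * Fintype.card V < E'.card := by
      have : ((q + 1) * (T + 1) + T) * Fintype.card V =
        (q * (T + 1) + T) * Fintype.card V + (T + 1) * Fintype.card V := by ring
      omega
    obtain ⟨f, hf, hfE⟩ := ih E' (fun e he => nd e (Finset.mem_filter.mp he).1) hE'
    have hav : ∀ p, f p ∉ U := by
      rintro ⟨i, o⟩ hU
      have key : ∀ j : Fin T, s(f (i, none), f (i, some j)) ∈ E' := fun j =>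
        hfE (Finset.mem_image.mpr ⟨(i, j), Finset.mem_univ _, rfl⟩)
      cases o with
      | none =>
        exact (Finset.mem_filter.mp (key ⟨0, hT⟩)).2 _ hU (Sym2.mem_mk_left _ _)
      | some j =>
        exact (Finset.mem_filter.mp (key j)).2 _ hU (Sym2.mem_mk_right _ _)
    let φ : Fin T ≃ L := (Fintype.equivFinOfCardEq (by simpa using hLc)).symm
    let g : Option (Fin T) → V := fun o => o.elim v (fun j => (φ j).1)
    have hgU : ∀ o, g o ∈ U := by
      intro o
      cases o with
      | none => exact Finset.mem_insert_self _ _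
      | some j => exact Finset.mem_insert_of_mem (φ j).2
    have hg : Function.Injective g := by
      intro a b hab
      cases a with
      | none =>
        cases b with
        | none => rfl
        | some b => exact absurd (show v ∈ L from (show v = (φ b).1 from hab) ▸ (φ b).2) hvL
      | some a =>
        cases b with
        | none => exact absurd (show v ∈ L from (show (φ a).1 = v from hab) ▸ (φ a).2) hvL
        | some b =>
          have : φ a = φ b := Subtype.ext hab
          rw [φ.injective this]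
    let F : Fin (q + 1) × Option (Fin T) → V :=
      fun p => Fin.cases (g p.2) (fun i => f (i, p.2)) p.1
    refine ⟨F, ?_, ?_⟩
    · rintro ⟨i, o⟩ ⟨i', o'⟩ h
      cases i using Fin.cases with
      | zero =>
        cases i' using Fin.cases with
        | zero => simp only [F, Fin.cases_zero] at h; rw [hg h]
        | succ i' =>
          simp only [F, Fin.cases_zero, Fin.cases_succ] at h
          exact absurd (hgU o) (h ▸ hav _)
      | succ i =>
        cases i' using Fin.cases with
        | zero =>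
          simp only [F, Fin.cases_zero, Fin.cases_succ] at h
          exact absurd (hgU o') (h ▸ hav _)
        | succ i' =>
          simp only [F, Fin.cases_succ] at h
          have := hf h
          simp only [Prod.mk.injEq] at this
          rw [this.1, this.2]
    · intro e he
      simp only [cp, Finset.mem_image] at he
      obtain ⟨⟨i, j⟩, _, rfl⟩ := he
      cases i using Fin.cases with
      | zero =>
        simp only [F, Fin.cases_zero]
        exact hL (Finset.mem_image.mpr ⟨(φ j).1, (φ j).2, rfl⟩)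
      | succ i =>
        simp only [F, Fin.cases_succ]
        exact (Finset.mem_filter.mp
          (hfE (Finset.mem_image.mpr ⟨(i, j), Finset.mem_univ _, rfl⟩))).1

theorem find_copies {T q : ℕ} (hT : 1 ≤ T) : ∀ (k : ℕ) (E : Finset (Sym2 V)),
    (∀ e ∈ E, ¬ e.IsDiag) → (q * (T + 1) + T) * Fintype.card V + k * (q * T) < E.card →
    ∃ B : Finset (Sym2 V), B ⊆ E ∧ Copies q T k B ∧ B.card = k * (q * T) := by
  intro k
  induction k with
  | zero => intro E _ _; exact ⟨∅, by simp, Copies.nil, by simp⟩
  | succ k ih =>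
    intro E nd hE
    obtain ⟨f, hf, hfE⟩ := find_copy hT q E nd (by omega)
    have hc : (cp f (Finset.univ : Finset (Fin q × Fin T))).card = q * T := by
      rw [card_cp hf]; simp
    have e1 : (k + 1) * (q * T) = k * (q * T) + q * T := by ring
    obtain ⟨B, hB, hBc, hBk⟩ := ih (E \ cp f Finset.univ)
      (fun e he => nd e (Finset.mem_sdiff.mp he).1)
      (by rw [Finset.card_sdiff_of_subset hfE, hc]; omega)
    have hd : Disjoint B (cp f Finset.univ) := Finset.sdiff_disjoint.mono_left hB
    refine ⟨B ∪ cp f Finset.univ, ?_, Copies.cons hBc f hf hd, ?_⟩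
    · exact Finset.union_subset (hB.trans Finset.sdiff_subset) hfE
    · rw [Finset.card_union_of_disjoint hd, hBk, hc, e1]

/-- transitivity of permutations on non-diagonal pairs -/
theorem exists_map_eq {e e' : Sym2 V} (h : ¬ e.IsDiag) (h' : ¬ e'.IsDiag) :
    ∃ σ : Equiv.Perm V, Sym2.map σ e = e' := by
  induction e with
  | _ x y =>
    induction e' with
    | _ x' y' =>
      rw [Sym2.mk_isDiag_iff] at h h'
      obtain ⟨σ, hσ⟩ := exists_perm (V := V) (fun b : Bool => cond b x y)
        (fun b : Bool => cond b x' y')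
        (by
          intro a b hab
          cases a <;> cases b
          · rfl
          · exact absurd hab.symm h
          · exact absurd hab h
          · rfl)
        (by
          intro a b hab
          cases a <;> cases b
          · rfl
          · exact absurd hab.symm h'
          · exact absurd hab h'
          · rfl)
      refine ⟨σ, ?_⟩
      have h1 := hσ true
      have h2 := hσ false
      simp only [cond_true, cond_false] at h1 h2
      simp [h1, h2]

/-- number of permutations taking e to e' -/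
def cnt (e e' : Sym2 V) : ℕ :=
  (Finset.univ.filter (fun σ : Equiv.Perm V => Sym2.map σ e = e')).card

theorem cnt_eq {e a b : Sym2 V} (ha : ¬ a.IsDiag) (hb : ¬ b.IsDiag) : cnt e a = cnt e b := by
  obtain ⟨τ, hτ⟩ := exists_map_eq ha hb
  unfold cnt
  apply Finset.card_bij (fun σ _ => τ * σ)
  · intro σ hσ
    rw [Finset.mem_filter] at hσ ⊢
    refine ⟨Finset.mem_univ _, ?_⟩
    rw [← hτ, ← hσ.2, Sym2.map_map]
    rfl
  · intro σ _ σ' _ h
    exact mul_left_cancel h
  · intro σ hσ
    rw [Finset.mem_filter] at hσ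
    refine ⟨τ⁻¹ * σ, ?_, by group⟩
    rw [Finset.mem_filter]
    refine ⟨Finset.mem_univ _, ?_⟩
    have : Sym2.map (⇑(τ⁻¹ * σ)) e = Sym2.map (⇑τ⁻¹) (Sym2.map σ e) := by
      rw [Sym2.map_map]; rfl
    rw [this, hσ.2, ← hτ, Sym2.map_map]
    have : (⇑τ⁻¹ ∘ ⇑τ) = id := by ext x; simp
    rw [this]; simp

/-- all non-diagonal pairs -/
def nds (V : Type*) [DecidableEq V] [Fintype V] : Finset (Sym2 V) :=
  Finset.univ.filter (fun e => ¬ e.IsDiag)

theorem card_nds : (nds V).card = (Fintype.card V).choose 2 := by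
  unfold nds
  rw [← Sym2.card_subtype_not_diag, Fintype.card_subtype]

theorem sum_cnt {e a : Sym2 V} (he : ¬ e.IsDiag) (ha : ¬ a.IsDiag) :
    (nds V).card * cnt e a = Fintype.card (Equiv.Perm V) := by
  have h1 : ∑ b ∈ nds V, cnt e b = (nds V).card * cnt e a := by
    have h0 : ∀ b ∈ nds V, cnt e b = cnt e a := fun b hb =>
      cnt_eq (Finset.mem_filter.mp hb).2 ha
    rw [Finset.sum_congr rfl h0]
    simp
  rw [← h1]
  unfold cnt
  rw [← Finset.card_biUnion]
  · rw [← Finset.card_univ]
    congr 1
    ext σ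
    simp only [Finset.mem_biUnion, Finset.mem_filter, Finset.mem_univ, true_and, iff_true]
    refine ⟨Sym2.map σ e, ?_, rfl⟩
    rw [nds, Finset.mem_filter]
    refine ⟨Finset.mem_univ _, ?_⟩
    intro hd
    apply he
    induction e with
    | _ x y =>
      rw [Sym2.map_mk, Sym2.mk_isDiag_iff] at hd
      exact Sym2.mk_isDiag_iff.mpr (σ.injective hd)
  · intro b _ b' _ hbb
    rw [Function.onFun, Finset.disjoint_left]
    intro σ h h'
    rw [Finset.mem_filter] at h h'
    exact hbb (h.2.symm.trans h'.2)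

theorem overlay {E E' : Finset (Sym2 V)} (nd : ∀ e ∈ E, ¬ e.IsDiag)
    (nd' : ∀ e ∈ E', ¬ e.IsDiag) :
    ∃ σ : Equiv.Perm V, E.card * E'.card ≤
      (nds V).card * (E.filter (fun e => Sym2.map σ e ∈ E')).card := by
  by_contra hcon
  push Not at hcon
  have h1 : ∑ σ : Equiv.Perm V, (nds V).card * (E.filter (fun e => Sym2.map σ e ∈ E')).card =
      E.card * E'.card * Fintype.card (Equiv.Perm V) := by
    have h2 : ∀ σ : Equiv.Perm V, (E.filter (fun e => Sym2.map σ e ∈ E')).card =
        ∑ e ∈ E, ∑ a ∈ E', if Sym2.map σ e = a then 1 else 0 := by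
      intro σ
      rw [Finset.card_filter]
      apply Finset.sum_congr rfl
      intro e _
      rw [Finset.sum_ite_eq]
    simp_rw [h2]
    rw [← Finset.mul_sum, Finset.sum_comm]
    have h3 : ∀ e ∈ E, ∑ σ : Equiv.Perm V, ∑ a ∈ E', (if Sym2.map σ e = a then 1 else 0) =
        ∑ a ∈ E', cnt e a := by
      intro e _
      rw [Finset.sum_comm]
      apply Finset.sum_congr rfl
      intro a _
      rw [cnt, Finset.card_filter]
    rw [Finset.sum_congr rfl h3, Finset.mul_sum]
    have h4 : ∀ e ∈ E, (nds V).card * ∑ a ∈ E', cnt e a = E'.card * Fintype.card (Equiv.Perm V) := by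
      intro e he
      rw [Finset.mul_sum, Finset.sum_congr rfl (fun a ha => sum_cnt (nd e he) (nd' a ha))]
      simp
    rw [Finset.sum_congr rfl h4]
    simp only [Finset.sum_const, smul_eq_mul]
    ring
  have h5 : ∑ σ : Equiv.Perm V, (nds V).card * (E.filter (fun e => Sym2.map σ e ∈ E')).card <
      ∑ σ : Equiv.Perm V, E.card * E'.card :=
    Finset.sum_lt_sum_of_nonempty ⟨1, Finset.mem_univ _⟩ (fun σ _ => hcon σ)
  rw [h1] at h5
  simp only [Finset.sum_const, smul_eq_mul, Finset.card_univ] at h5
  rw [Nat.mul_comm] at h5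
  exact lt_irrefl _ h5

theorem greedy {E E' : Finset (Sym2 V)} (nd : ∀ e ∈ E, ¬ e.IsDiag)
    (nd' : ∀ e ∈ E', ¬ e.IsDiag) (hc : E.card = E'.card) (k : ℕ) :
    ∃ F F' : Finset (Sym2 V), F ⊆ E ∧ F' ⊆ E' ∧ Dec k F F' ∧
      (E \ F).card * (k + 1) ≤ (nds V).card := by
  induction k with
  | zero =>
    refine ⟨∅, ∅, by simp, by simp, Dec.nil, ?_⟩
    simp only [Finset.sdiff_empty, Nat.zero_add, Nat.mul_one]
    apply Finset.card_le_card
    intro e he
    exact Finset.mem_filter.mpr ⟨Finset.mem_univ _, nd e he⟩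
  | succ k ih =>
    obtain ⟨F, F', hF, hF', hD, hk⟩ := ih
    obtain ⟨σ, hσ⟩ := overlay (E := E \ F) (E' := E' \ F')
      (fun e he => nd e (Finset.mem_sdiff.mp he).1) (fun e he => nd' e (Finset.mem_sdiff.mp he).1)
    set C := (E \ F).filter (fun e => Sym2.map σ e ∈ E' \ F') with hC
    have hCs : C ⊆ E \ F := Finset.filter_subset _ _
    have hCi : im σ C ⊆ E' \ F' := by
      intro e he
      simp only [im, Finset.mem_image] at he
      obtain ⟨a, ha, rfl⟩ := he
      exact (Finset.mem_filter.mp ha).2
    have hcc : (E' \ F').card = (E \ F).card := by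
      rw [Finset.card_sdiff_of_subset hF, Finset.card_sdiff_of_subset hF', hc, hD.card_eq]
    refine ⟨F ∪ C, F' ∪ im σ C, ?_, ?_, ?_, ?_⟩
    · exact Finset.union_subset hF (hCs.trans Finset.sdiff_subset)
    · exact Finset.union_subset hF' (hCi.trans Finset.sdiff_subset)
    · exact Dec.cons hD C σ (Finset.disjoint_sdiff.mono_right hCs)
        (Finset.disjoint_sdiff.mono_right hCi)
    · have e1 : E \ (F ∪ C) = (E \ F) \ C := by
        ext e; simp only [Finset.mem_sdiff, Finset.mem_union]; tauto
      have hle := Finset.card_le_card hCs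
      rw [e1, Finset.card_sdiff_of_subset hCs]
      rw [hcc] at hσ
      have hxN : (E \ F).card ≤ (nds V).card := by
        have : (E \ F).card * 1 ≤ (E \ F).card * (k + 1) := Nat.mul_le_mul_left _ (by omega)
        omega
      generalize (E \ F).card = x at *
      generalize (nds V).card = N at *
      generalize C.card = c at *
      obtain ⟨y, rfl⟩ := Nat.exists_eq_add_of_le hle
      rw [Nat.add_sub_cancel_left]
      rcases Nat.eq_zero_or_pos N with hN | hN
      · subst hN; have : c + y = 0 := by omega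
        have : y = 0 := by omega
        subst this; simp
      · -- N * (y * (k+2)) ≤ N * N
        apply Nat.le_of_mul_le_mul_left _ hN
        zify at *
        nlinarith [mul_nonneg (sub_nonneg.mpr hk) (sub_nonneg.mpr hxN)]

end find


section final

theorem main_fin (ε δ : ℝ) (hε : 0 < ε) (hδ : 0 < δ) : ∃ N : ℕ, ∀ n : ℕ, N ≤ n →
    ∀ E E' : Finset (Sym2 (Fin n)), (∀ e ∈ E, ¬ e.IsDiag) → (∀ e ∈ E', ¬ e.IsDiag) →
      E.card = E'.card → ε * (n : ℝ) ^ 2 < (E.card : ℝ) →
      ∃ r : ℕ, (r : ℝ) + 1 ≤ δ * n ∧ Dec r E E' := by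
  -- choose T
  obtain ⟨T, hT16⟩ := exists_nat_ge (16 / δ ^ 2 + 1)
  have hTr : (1 : ℝ) ≤ (T : ℝ) := by
    have : 0 ≤ 16 / δ ^ 2 := by positivity
    linarith
  have hT : 1 ≤ T := by exact_mod_cast hTr
  have hT0 : (0 : ℝ) < (T : ℝ) := by linarith
  have hTδ : 16 ≤ δ ^ 2 * T := by
    have h1 : 16 / δ ^ 2 ≤ T := by linarith
    rw [div_le_iff₀ (by positivity)] at h1
    linarith
  set η : ℝ := ε / (4 * (T + 1)) with hη
  have hη0 : 0 < η := by positivity
  have hηT : η * (T + 1) = ε / 4 := by
    rw [hη]; field_simp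
  obtain ⟨L, hL⟩ := exists_nat_ge (4 / (δ * η))
  have hLη : 4 ≤ L * (δ * η) := by
    rwa [div_le_iff₀ (by positivity)] at hL
  set K : ℕ := L * (4 * T ^ 3 + 2 * T ^ 2 + 5 * T) with hK
  obtain ⟨N, hN⟩ := exists_nat_ge (4 * T / ε + 16 * L * T * η / ε + 2 / η + 4 * K / δ + 4 / δ + 1)
  refine ⟨N, fun n hn E E' nd nd' hc hE => ?_⟩
  have hnr : (4 * T / ε + 16 * L * T * η / ε + 2 / η + 4 * K / δ + 4 / δ + 1 : ℝ) ≤ n :=
    hN.trans (by exact_mod_cast hn)
  have p1 : (0:ℝ) ≤ 4 * T / ε := by positivity
  have p2 : (0:ℝ) ≤ 16 * L * T * η / ε := by positivity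
  have p3 : (0:ℝ) ≤ 2 / η := by positivity
  have p4 : (0:ℝ) ≤ 4 * K / δ := by positivity
  have p5 : (0:ℝ) ≤ 4 / δ := by positivity
  have n1 : 4 * (T:ℝ) ≤ n * ε := by
    rw [← div_le_iff₀ hε]; linarith
  have n2 : 16 * L * T * η ≤ n * ε := by
    rw [← div_le_iff₀ hε]; linarith
  have n3 : 2 ≤ n * η := by
    rw [← div_le_iff₀ hη0]; linarith
  have n4 : 4 * (K:ℝ) ≤ n * δ := by
    rw [← div_le_iff₀ hδ]; linarith
  have n5 : 4 ≤ n * δ := by
    rw [← div_le_iff₀ hδ]; linarith
  have n0 : (1:ℝ) ≤ n := by linarith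
  have hn0 : (0:ℝ) < n := by linarith
  set q : ℕ := ⌊η * n⌋₊ with hq
  have hq1 : (q : ℝ) ≤ η * n := Nat.floor_le (by positivity)
  have hq2 : η * n < q + 1 := Nat.lt_floor_add_one _
  set k : ℕ := ⌊δ * n / 4⌋₊ with hk
  have hk1 : (k : ℝ) ≤ δ * n / 4 := Nat.floor_le (by positivity)
  have hk2 : δ * n / 4 < k + 1 := Nat.lt_floor_add_one _
  -- copies
  have hcop : (((q * (T + 1) + T) * Fintype.card (Fin n) + (4 * L) * (q * T) : ℕ) : ℝ) <
      (E.card : ℝ) := by
    refine lt_of_le_of_lt ?_ hE
    push_cast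
    rw [Fintype.card_fin]
    have a1 : (q : ℝ) * (T + 1) ≤ ε / 4 * n := by
      calc (q : ℝ) * (T + 1) ≤ η * n * (T + 1) := by gcongr
        _ = ε / 4 * n := by rw [← hηT]; ring
    have a2 : (T : ℝ) ≤ ε / 4 * n := by linarith
    have a3 : ((q : ℝ) * (T + 1) + T) * n ≤ (ε / 2 * n) * n := by
      apply mul_le_mul_of_nonneg_right _ hn0.le
      linarith
    have a4 : 4 * (L : ℝ) * (q * T) ≤ ε / 4 * n * n := by
      calc 4 * (L : ℝ) * (q * T) ≤ 4 * L * ((η * n) * T) := by gcongr
        _ = (16 * L * T * η) * n / 4 := by ring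
        _ ≤ (n * ε) * n / 4 := by gcongr
        _ = ε / 4 * n * n := by ring
    have a5 : 0 ≤ ε / 4 * n * n := by positivity
    nlinarith
  have hcopN := Nat.cast_lt.mp hcop
  obtain ⟨B, hBE, hB, hBc⟩ := find_copies (q := q) hT (4 * L) E nd hcopN
  obtain ⟨B', hBE', hB', hBc'⟩ := find_copies (q := q) hT (4 * L) E' nd' (hc ▸ hcopN)
  -- greedy
  obtain ⟨F, F', hF, hF', hD, hx⟩ := greedy (E := E \ B) (E' := E' \ B')
    (fun e he => nd e (Finset.mem_sdiff.mp he).1) (fun e he => nd' e (Finset.mem_sdiff.mp he).1)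
    (by rw [Finset.card_sdiff_of_subset hBE, Finset.card_sdiff_of_subset hBE', hBc, hBc', hc]) k
  set R := (E \ B) \ F with hR
  set R' := (E' \ B') \ F' with hR'
  have hRR : R.card = R'.card := by
    rw [hR, hR', Finset.card_sdiff_of_subset hF, Finset.card_sdiff_of_subset hF',
      Finset.card_sdiff_of_subset hBE, Finset.card_sdiff_of_subset hBE', hBc, hBc', hc,
      hD.card_eq]
  rw [card_nds, Fintype.card_fin] at hx
  have hx1 : (R.card : ℝ) * (k + 1) ≤ (n:ℝ) ^ 2 / 2 := by
    have h1 : ((R.card * (k + 1) : ℕ) : ℝ) ≤ ((n.choose 2 : ℕ) : ℝ) := by exact_mod_cast hx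
    rw [Nat.cast_choose_two] at h1
    push_cast at h1
    nlinarith
  have hx2 : (R.card : ℝ) * δ ≤ 2 * n := by
    have h1 : (R.card : ℝ) * (δ * n / 4) ≤ R.card * (k + 1) := by gcongr
    have h2 : (R.card : ℝ) * δ * n ≤ (2 * n) * n := by nlinarith
    exact le_of_mul_le_mul_right h2 hn0
  have hxL : R.card ≤ L * q := by
    have h1 : (L : ℝ) * q * δ ≥ 2 * n := by
      have : (q : ℝ) ≥ η * n / 2 := by linarith
      calc (L : ℝ) * q * δ ≥ L * (η * n / 2) * δ := by gcongr
        _ = (L * (δ * η)) * n / 2 := by ring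
        _ ≥ 4 * n / 2 := by gcongr
        _ = 2 * n := by ring
    have h2 : (R.card : ℝ) * δ ≤ (L * q) * δ := by linarith
    have h3 := le_of_mul_le_mul_right h2 hδ
    exact_mod_cast h3
  obtain ⟨s, hs, hDs⟩ := groups (q := q) hT L (R := R) (R' := R') (B := B) (B' := B')
    (fun e he => nd e (Finset.mem_sdiff.mp (Finset.mem_sdiff.mp he).1).1)
    (fun e he => nd' e (Finset.mem_sdiff.mp (Finset.mem_sdiff.mp he).1).1)
    hxL hRR hB hB' (Finset.sdiff_disjoint.mono_left Finset.sdiff_subset)
    (Finset.sdiff_disjoint.mono_left Finset.sdiff_subset)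
  refine ⟨k + s, ?_, ?_⟩
  · have hs1 : (s : ℝ) * T ≤ 2 * R.card + K := by exact_mod_cast hs
    have hs2 : (s : ℝ) ≤ δ * n / 4 + δ * n / 4 := by
      have h1 : (s : ℝ) * T * δ ≤ 4 * n + K * δ := by nlinarith
      have h2 : 4 * (n:ℝ) ≤ δ * n / 4 * (T * δ) := by nlinarith
      have h3 : (K : ℝ) * δ ≤ δ * n / 4 * (T * δ) := by
        have : (K:ℝ) ≤ δ * n / 4 := by linarith
        calc (K : ℝ) * δ ≤ (δ * n / 4) * δ := by gcongr
          _ = δ * n / 4 * (1 * δ) := by ring
          _ ≤ δ * n / 4 * (T * δ) := by gcongr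
      have h4 : (s : ℝ) * (T * δ) ≤ (δ * n / 4 + δ * n / 4) * (T * δ) := by nlinarith
      exact le_of_mul_le_mul_right h4 (by positivity)
    push_cast
    linarith
  · have := hD.add hDs (by
        rw [Finset.disjoint_union_right]
        exact ⟨Finset.disjoint_sdiff, Finset.sdiff_disjoint.mono_left hF⟩)
      (by
        rw [Finset.disjoint_union_right]
        exact ⟨Finset.disjoint_sdiff, Finset.sdiff_disjoint.mono_left hF'⟩)
    have e1 : F ∪ (R ∪ B) = E := by
      rw [← Finset.union_assoc, hR, Finset.union_sdiff_of_subset hF,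
        Finset.sdiff_union_of_subset hBE]
    have e2 : F' ∪ (R' ∪ B') = E' := by
      rw [← Finset.union_assoc, hR', Finset.union_sdiff_of_subset hF',
        Finset.sdiff_union_of_subset hBE']
    rwa [e1, e2] at this

end final

/-- For every ε,δ>0 and all large n, any two n-vertex graphs with equal edge counts above εn² can have their edge sets split into at most δn parts each, the i-th parts being isomorphic via a vertex permutation. -/
theorem result :
    ∀ ε : ℝ, 0 < ε → ∀ δ : ℝ, 0 < δ → ∃ N : ℕ, ∀ n : ℕ, N ≤ n →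
      ∀ G G' : SimpleGraph (Fin n),
        G.edgeSet.ncard = G'.edgeSet.ncard →
        ε * (n : ℝ) ^ 2 < (G.edgeSet.ncard : ℝ) →
        ∃ r : ℕ, (r : ℝ) ≤ δ * (n : ℝ) ∧
          ∃ c c' : Sym2 (Fin n) → Fin r,
            ∀ i : Fin r, ∃ σ : Equiv.Perm (Fin n),
              Sym2.map σ '' {e | e ∈ G.edgeSet ∧ c e = i} =
                {e | e ∈ G'.edgeSet ∧ c' e = i} := by
  intro ε hε δ hδ
  obtain ⟨N, hN⟩ := main_fin ε δ hε hδ
  refine ⟨N, fun n hn G G' hc hE => ?_⟩
  classical
  have e1 : G.edgeSet.ncard = G.edgeFinset.card := by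
    rw [Set.ncard_eq_toFinset_card']; rfl
  have e2 : G'.edgeSet.ncard = G'.edgeFinset.card := by
    rw [Set.ncard_eq_toFinset_card']; rfl
  obtain ⟨r, hr, hD⟩ := hN n hn G.edgeFinset G'.edgeFinset
    (fun e he => G.not_isDiag_of_mem_edgeSet (by simpa using he))
    (fun e he => G'.not_isDiag_of_mem_edgeSet (by simpa using he))
    (by rw [← e1, ← e2, hc]) (by rw [← e1]; exact hE)
  refine ⟨r + 1, by push_cast; exact hr, ?_⟩
  obtain ⟨c, c', h1, h2, h3, h4, h5⟩ := (hD.succ).toCol
  -- values at most r + 1; truncate to Fin (r+1)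
  refine ⟨fun e => ⟨min (c e) r, by omega⟩, fun e => ⟨min (c' e) r, by omega⟩, ?_⟩
  rintro ⟨i, hi⟩
  obtain ⟨σ, hσ⟩ := h5 i hi
  refine ⟨σ, ?_⟩
  have k1 : ({e | e ∈ G.edgeSet ∧ (⟨min (c e) r, by omega⟩ : Fin (r + 1)) = ⟨i, hi⟩} :
      Set (Sym2 (Fin n))) = ↑(G.edgeFinset.filter (fun e => c e = i)) := by
    ext e
    simp only [Set.mem_setOf_eq, Fin.mk.injEq, Finset.coe_filter, SimpleGraph.mem_edgeFinset]
    constructor
    · rintro ⟨a, b⟩
      have := h3 e (by simpa using a)
      exact ⟨a, by omega⟩
    · rintro ⟨a, b⟩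
      exact ⟨a, by omega⟩
  have k2 : ({e | e ∈ G'.edgeSet ∧ (⟨min (c' e) r, by omega⟩ : Fin (r + 1)) = ⟨i, hi⟩} :
      Set (Sym2 (Fin n))) = ↑(G'.edgeFinset.filter (fun e => c' e = i)) := by
    ext e
    simp only [Set.mem_setOf_eq, Fin.mk.injEq, Finset.coe_filter, SimpleGraph.mem_edgeFinset]
    constructor
    · rintro ⟨a, b⟩
      have := h4 e (by simpa using a)
      exact ⟨a, by omega⟩
    · rintro ⟨a, b⟩
      exact ⟨a, by omega⟩
  rw [k1, k2, ← hσ]
  unfold im
  rw [Finset.coe_image]

end Pool.Agent.S04879
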