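import Pool.Statements.S04886

set_option autoImplicit false
open Filter Topology
open Pool Pool.MP_1c14eb_co

namespace Pool.Agent.S04886

/-- Every two distinct vertices have a common neighbour. -/
def Good2 {V : Type} (G : SimpleGraph V) : Prop :=
  ∀ u v : V, u ≠ v → ∃ w, G.Adj u w ∧ G.Adj v w

/-- The first eight vertices induce the complete multipartite graph with parts
`{0,1}, {2,3}, {4,5}, {6,7}`. -/
def BaseOK {n : ℕ} (G : SimpleGraph (Fin n)) : Prop :=
  ∀ i j : Fin n, i.val < 8 → j.val < 8 → (G.Adj i j ↔ i.val / 2 ≠ j.val / 2)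

/-- Mismatch of two letters. -/
abbrev Mis (a b : Option Bool) : Prop := a ≠ none ∧ b ≠ none ∧ a ≠ b

/-- Addresses of the eight base vertices in the first six coordinates. -/
def table : Fin 8 → Fin 6 → Option Bool := ![
  ![some false, some false, none, none, some false, some true],
  ![some true, some true, none, none, some false, some true],
  ![some false, some true, none, none, some false, some true],
  ![some true, some false, none, none, some false, some true],
  ![none, none, some false, some false, some true, some true],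
  ![none, none, some true, some true, some true, some true],
  ![none, none, some false, some true, some true, some true],
  ![none, none, some true, some false, some true, some true]]

/-- Addresses of all vertices in the first six coordinates. -/
def base (i : ℕ) (k : Fin 6) : Option Bool :=
  if h : i < 8 then table ⟨i, h⟩ k else if k = 5 then some false else none

theorem base_base (i j : ℕ) (hi : i < 8) (hj : j < 8) :
    (Finset.univ.filter (fun k : Fin 6 => Mis (base i k) (base j k))).card =
      if i = j then 0 else if i / 2 ≠ j / 2 then 1 else 2 := by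
  have key : ∀ i j : Fin 8,
    (Finset.univ.filter (fun k : Fin 6 => Mis (table i k) (table j k))).card =
      if i.val = j.val then 0 else if i.val / 2 ≠ j.val / 2 then 1 else 2 := by decide
  have := key ⟨i, hi⟩ ⟨j, hj⟩
  simpa [base, hi, hj] using this

theorem base_out (i j : ℕ) (hi : i < 8) (hj : 8 ≤ j) :
    (Finset.univ.filter (fun k : Fin 6 => Mis (base i k) (base j k))).card = 1 := by
  have key : ∀ i : Fin 8,
    (Finset.univ.filter (fun k : Fin 6 => Mis (table i k)
      (if k = 5 then some false else none))).card = 1 := by decide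
  have := key ⟨i, hi⟩
  simpa [base, hi, Nat.not_lt.mpr hj] using this

theorem base_out_out (i j : ℕ) (hi : 8 ≤ i) (hj : 8 ≤ j) :
    (Finset.univ.filter (fun k : Fin 6 => Mis (base i k) (base j k))).card = 0 := by
  simp [base, Nat.not_lt.mpr hj, Nat.not_lt.mpr hi]

open Classical in
/-- The coordinate attached to the outside vertex `w`. -/
noncomputable def star {n : ℕ} (G : SimpleGraph (Fin n)) (u w : Fin n) : Option Bool :=
  if u = w then some true else if G.Adj u w ∧ (u.val < 8 ∨ w < u) then none else some false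

theorem star_mis {n : ℕ} (G : SimpleGraph (Fin n)) (u v w : Fin n) (huv : u ≠ v) :
    Mis (star G u w) (star G v w) ↔
      (w = u ∧ ¬ (G.Adj v u ∧ (v.val < 8 ∨ u < v))) ∨
      (w = v ∧ ¬ (G.Adj u v ∧ (u.val < 8 ∨ v < u))) := by
  unfold star Mis
  by_cases h1 : u = w
  · subst h1
    have h2 : ¬ v = u := fun h => huv h.symm
    simp only [h2, if_true, if_false, true_and]
    have h3 : ¬ u = v := huv
    simp only [h3, false_and, or_false]
    split_ifs with h <;> simp [h]
  · by_cases h2 : v = w
    · subst h2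
      have h3 : ¬ v = u := fun h => huv h.symm
      simp only [h1, if_true, if_false, true_and, h3, false_and, false_or]
      split_ifs with h <;> simp [h]
    · have h3 : ¬ w = u := fun h => h1 h.symm
      have h4 : ¬ w = v := fun h => h2 h.symm
      simp only [h1, h2, h3, h4, if_false, false_and, or_false, iff_false]
      split_ifs <;> simp

open Classical in
theorem star_count {n : ℕ} (G : SimpleGraph (Fin n)) (u v : Fin n) (huv : u < v) (hv : 8 ≤ v.val) :
    (Finset.univ.filter (fun w : {w : Fin n // 8 ≤ w.val} => Mis (star G u w) (star G v w))).card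
      = (if 8 ≤ u.val then (if G.Adj u v then 1 else 2) else (if G.Adj u v then 0 else 1)) := by
  have hne : u ≠ v := ne_of_lt huv
  have hnlt : ¬ v < u := not_lt.mpr huv.le
  have hv8 : ¬ v.val < 8 := not_lt.mpr hv
  have hcomm : G.Adj v u ↔ G.Adj u v := G.adj_comm v u
  by_cases hu : 8 ≤ u.val
  · have hu8 : ¬ u.val < 8 := not_lt.mpr hu
    by_cases ha : G.Adj u v
    · have : (Finset.univ.filter
          (fun w : {w : Fin n // 8 ≤ w.val} => Mis (star G u w) (star G v w))) = {⟨v, hv⟩} := by
        ext w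
        simp only [Finset.mem_filter, Finset.mem_univ, true_and, Finset.mem_singleton,
          star_mis G u v w hne, hcomm, ha, hv8, hu8, huv, hnlt, Subtype.ext_iff]
        tauto
      rw [this]; simp [hu, ha]
    · have : (Finset.univ.filter
          (fun w : {w : Fin n // 8 ≤ w.val} => Mis (star G u w) (star G v w))) =
            {⟨u, hu⟩, ⟨v, hv⟩} := by
        ext w
        simp only [Finset.mem_filter, Finset.mem_univ, true_and, Finset.mem_singleton,
          Finset.mem_insert,
          star_mis G u v w hne, hcomm, ha, hv8, hu8, huv, hnlt, Subtype.ext_iff]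
        tauto
      rw [this, Finset.card_pair (by simpa [Subtype.ext_iff] using hne)]; simp [hu, ha]
  · have hu8 : u.val < 8 := not_le.mp hu
    have hwu : ∀ w : {w : Fin n // 8 ≤ w.val}, ¬ (w : Fin n) = u := by
      intro w h
      have := w.2
      rw [h] at this
      exact hu this
    by_cases ha : G.Adj u v
    · have : (Finset.univ.filter
          (fun w : {w : Fin n // 8 ≤ w.val} => Mis (star G u w) (star G v w))) = ∅ := by
        ext w
        simp only [Finset.mem_filter, Finset.mem_univ, true_and, Finset.notMem_empty,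
          star_mis G u v w hne, hcomm, ha, hv8, hu8, huv, hnlt, hwu w]
        tauto
      rw [this]; simp [hu, ha]
    · have : (Finset.univ.filter
          (fun w : {w : Fin n // 8 ≤ w.val} => Mis (star G u w) (star G v w))) = {⟨v, hv⟩} := by
        ext w
        simp only [Finset.mem_filter, Finset.mem_univ, true_and, Finset.mem_singleton,
          star_mis G u v w hne, hcomm, ha, hv8, hu8, huv, hnlt, hwu w, Subtype.ext_iff]
        tauto
      rw [this]; simp [hu, ha]

/-- The full address. -/
noncomputable def addr {n : ℕ} (G : SimpleGraph (Fin n)) (u : Fin n) :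
    Fin 6 ⊕ {w : Fin n // 8 ≤ w.val} → Option Bool
  | Sum.inl k => base u.val k
  | Sum.inr w => star G u w

theorem good2_connected {V : Type} [Nonempty V] (G : SimpleGraph V) (h : Good2 G) :
    G.Connected := by
  refine ⟨fun u v => ?_⟩
  by_cases huv : u = v
  · subst huv; exact SimpleGraph.Reachable.refl _
  · obtain ⟨w, h1, h2⟩ := h u v huv
    exact h1.reachable.trans h2.symm.reachable

open Classical in
theorem good2_dist {V : Type} [Nonempty V] (G : SimpleGraph V) (h : Good2 G) (u v : V)
    (huv : u ≠ v) : G.dist u v = if G.Adj u v then 1 else 2 := by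
  split_ifs with ha
  · exact SimpleGraph.dist_eq_one_iff_adj.mpr ha
  · have h1 := (good2_connected G h).one_lt_dist_of_ne_of_not_adj huv ha
    obtain ⟨w, hw1, hw2⟩ := h u v huv
    have h2 := SimpleGraph.dist_le (SimpleGraph.Walk.cons hw1 (SimpleGraph.Walk.cons hw2.symm SimpleGraph.Walk.nil))
    simp at h2
    omega

theorem card_filter_sum {α β : Type} [Fintype α] [Fintype β] (p : α ⊕ β → Prop)
    [DecidablePred p] :
    (Finset.univ.filter p).card = (Finset.univ.filter (fun a => p (Sum.inl a))).card +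
      (Finset.univ.filter (fun b => p (Sum.inr b))).card := by
  rw [Finset.card_filter, Finset.card_filter, Finset.card_filter, Fintype.sum_sum_type]

open Classical in
theorem addr_count {n : ℕ} (G : SimpleGraph (Fin n)) (hB : BaseOK G)
    (u v : Fin n) (huv : u < v) :
    (Finset.univ.filter (fun i => Mis (addr G u i) (addr G v i))).card =
      if G.Adj u v then 1 else 2 := by
  rw [card_filter_sum (fun i => Mis (addr G u i) (addr G v i))]
  change (Finset.univ.filter (fun k : Fin 6 => Mis (base u.val k) (base v.val k))).card +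
    (Finset.univ.filter
      (fun w : {w : Fin n // 8 ≤ w.val} => Mis (star G u w) (star G v w))).card = _
  have huv' : u.val < v.val := huv
  by_cases hv : 8 ≤ v.val
  · rw [star_count G u v huv hv]
    by_cases hu : 8 ≤ u.val
    · rw [base_out_out _ _ hu hv]
      simp [hu]
    · rw [base_out _ _ (not_le.mp hu) hv]
      simp only [hu, if_false]
      split_ifs <;> rfl
  · have hv8 := not_le.mp hv
    have hu8 : u.val < 8 := huv'.trans hv8
    rw [base_base _ _ hu8 hv8]
    have h0 : (Finset.univ.filter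
        (fun w : {w : Fin n // 8 ≤ w.val} => Mis (star G u w) (star G v w))).card = 0 := by
      rw [Finset.card_eq_zero]
      ext w
      have h1 : ¬ (w : Fin n) = u := by
        intro h
        have := w.2
        rw [h] at this
        omega
      have h2 : ¬ (w : Fin n) = v := by
        intro h
        have := w.2
        rw [h] at this
        omega
      simp only [Finset.mem_filter, Finset.mem_univ, true_and, Finset.notMem_empty,
          star_mis G u v w (ne_of_lt huv), h1, h2]
      tauto
    rw [h0]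
    have := hB u v hu8 hv8
    simp only [this, huv'.ne, if_false, add_zero]

/-- Every graph in which two distinct vertices always have a common neighbour and
which has the base structure has an addressing of length `n - 2`. -/
theorem exists_addr {n : ℕ} (hn : 8 ≤ n) (G : SimpleGraph (Fin n)) (hG : Good2 G)
    (hB : BaseOK G) :
    ∃ f : Fin n → Fin (n - 2) → Option Bool, ∀ u v : Fin n,
            G.dist u v = (Finset.univ.filter
              (fun i => f u i ≠ none ∧ f v i ≠ none ∧ f u i ≠ f v i)).card := by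
  classical
  have : Nonempty (Fin n) := ⟨⟨0, by omega⟩⟩
  have hcard : Fintype.card (Fin 6 ⊕ {w : Fin n // 8 ≤ w.val}) = n - 2 := by
    rw [Fintype.card_sum, Fintype.card_fin, Fintype.card_subtype]
    have h1 : (Finset.univ.filter (fun w : Fin n => 8 ≤ w.val)).card +
        (Finset.univ.filter (fun w : Fin n => ¬ 8 ≤ w.val)).card = n := by
      rw [Finset.card_filter_add_card_filter_not]; simp
    have h2 : (Finset.univ.filter (fun w : Fin n => ¬ 8 ≤ w.val)).card = 8 := by
      have : (Finset.univ.filter (fun w : Fin n => ¬ 8 ≤ w.val)) =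
          (Finset.univ : Finset (Fin 8)).map (Fin.castLEEmb hn) := by
        ext w
        simp only [Finset.mem_filter, Finset.mem_univ, true_and, Finset.mem_map]
        constructor
        · intro h
          exact ⟨⟨w.val, not_le.mp h⟩, by ext; simp⟩
        · rintro ⟨a, ha⟩
          have := a.2
          rw [← ha]
          simp
      rw [this, Finset.card_map]; simp
    omega
  let e : Fin (n - 2) ≃ (Fin 6 ⊕ {w : Fin n // 8 ≤ w.val}) :=
    (Fintype.equivFinOfCardEq hcard).symm
  refine ⟨fun u i => addr G u (e i), fun u v => ?_⟩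
  have hre : ∀ u v : Fin n, (Finset.univ.filter
      (fun i => Mis (addr G u (e i)) (addr G v (e i)))).card =
      (Finset.univ.filter (fun i => Mis (addr G u i) (addr G v i))).card := by
    intro u v
    rw [Finset.card_filter, Finset.card_filter]
    exact Equiv.sum_comp e (fun i => if Mis (addr G u i) (addr G v i) then 1 else 0)
  change _ = (Finset.univ.filter (fun i => Mis (addr G u (e i)) (addr G v (e i)))).card
  rw [hre]
  rcases lt_trichotomy u v with h | h | h
  · rw [addr_count G hB u v h, good2_dist G hG u v (ne_of_lt h)]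
  · subst h
    simp
  · have hs : (Finset.univ.filter (fun i => Mis (addr G u i) (addr G v i))) =
        (Finset.univ.filter (fun i => Mis (addr G v i) (addr G u i))) := by
      ext i
      simp only [Finset.mem_filter, Finset.mem_univ, true_and, Mis]
      tauto
    rw [hs, addr_count G hB v u h, SimpleGraph.dist_comm, good2_dist G hG v u (ne_of_lt h)]


/-! ### Counting -/

/-- The graph `G` with the first eight vertices replaced by the base structure. -/
def plant {n : ℕ} (G : SimpleGraph (Fin n)) : SimpleGraph (Fin n) where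
  Adj a b := if a.val < 8 ∧ b.val < 8 then a.val / 2 ≠ b.val / 2 else G.Adj a b
  symm := ⟨by
    intro a b h
    by_cases h1 : a.val < 8 ∧ b.val < 8
    · rw [if_pos h1] at h
      rw [if_pos h1.symm]
      exact h.symm
    · rw [if_neg h1] at h
      rw [if_neg (fun h2 => h1 h2.symm)]
      exact h.symm⟩
  loopless := ⟨by
    intro a h
    by_cases h1 : a.val < 8 ∧ a.val < 8
    · rw [if_pos h1] at h
      exact h rfl
    · rw [if_neg h1] at h
      exact G.loopless.irrefl a h⟩

theorem plant_base {n : ℕ} (G : SimpleGraph (Fin n)) : BaseOK (plant G) := by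
  intro i j hi hj
  simp [plant, hi, hj]

theorem card_base {n : ℕ} (hn : 8 ≤ n) :
    Nat.card (SimpleGraph (Fin n)) ≤
      Set.ncard {G : SimpleGraph (Fin n) | BaseOK G} * Nat.card (SimpleGraph (Fin 8)) := by
  classical
  rw [← Nat.card_coe_set_eq, ← Nat.card_prod]
  apply Nat.card_le_card_of_injective
    (fun G : SimpleGraph (Fin n) => ((⟨plant G, plant_base G⟩ : {G : SimpleGraph (Fin n) | BaseOK G}),
      G.comap (Fin.castLE hn)))
  intro G G' h
  simp only [Prod.mk.injEq, Subtype.mk.injEq] at h
  obtain ⟨h1, h2⟩ := h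
  ext a b
  by_cases hab : a.val < 8 ∧ b.val < 8
  · have h3 : (G.comap (Fin.castLE hn)).Adj ⟨a.val, hab.1⟩ ⟨b.val, hab.2⟩ ↔
      (G'.comap (Fin.castLE hn)).Adj ⟨a.val, hab.1⟩ ⟨b.val, hab.2⟩ := by rw [h2]
    simpa using h3
  · have h3 : (plant G).Adj a b ↔ (plant G').Adj a b := by rw [h1]
    simpa [plant, hab] using h3

/-- The vertices other than `u` and `v`. -/
abbrev Oth {n : ℕ} (u v : Fin n) : Type := {w : Fin n // w ≠ u ∧ w ≠ v}

/-- Exactly one of `a` and `b` lies in `{u, v}`. -/
def Spec {n : ℕ} (u v a b : Fin n) : Prop := (a = u ∨ a = v) ↔ ¬ (b = u ∨ b = v)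

/-- `G` with the adjacencies of `u` and `v` to the other vertices replaced by `s`. -/
def modG {n : ℕ} (G : SimpleGraph (Fin n)) (u v : Fin n) (s : Oth u v → Bool × Bool) :
    SimpleGraph (Fin n) :=
  SimpleGraph.fromRel (fun a b =>
    (a = u ∧ ∃ hb : b ≠ u ∧ b ≠ v, (s ⟨b, hb⟩).1 = true) ∨
    (a = v ∧ ∃ hb : b ≠ u ∧ b ≠ v, (s ⟨b, hb⟩).2 = true) ∨
    (G.Adj a b ∧ ¬ Spec u v a b))

theorem modG_u {n : ℕ} (G : SimpleGraph (Fin n)) (u v : Fin n) (huv : u ≠ v)
    (s : Oth u v → Bool × Bool) (w : Oth u v) :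
    (modG G u v s).Adj u w ↔ (s w).1 = true := by
  obtain ⟨w, h1, h2⟩ := w
  have h3 := h1.symm
  have h4 := h2.symm
  simp [modG, SimpleGraph.fromRel_adj, Spec, h1, h2, huv, h3]

theorem modG_v {n : ℕ} (G : SimpleGraph (Fin n)) (u v : Fin n) (huv : u ≠ v)
    (s : Oth u v → Bool × Bool) (w : Oth u v) :
    (modG G u v s).Adj v w ↔ (s w).2 = true := by
  obtain ⟨w, h1, h2⟩ := w
  have h3 := h1.symm
  have h4 := h2.symm
  simp [modG, SimpleGraph.fromRel_adj, Spec, h1, h2, huv.symm, h4]

theorem modG_other {n : ℕ} (G : SimpleGraph (Fin n)) (u v : Fin n)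
    (s : Oth u v → Bool × Bool) (a b : Fin n) (h : ¬ Spec u v a b) :
    (modG G u v s).Adj a b ↔ G.Adj a b := by
  have hs : ¬ Spec u v b a := by
    unfold Spec at h ⊢
    tauto
  simp only [modG, SimpleGraph.fromRel_adj, h, hs, not_false_eq_true, and_true]
  unfold Spec at h
  have hc := G.adj_comm a b
  constructor
  · rintro ⟨h1, h2⟩
    rcases h2 with (⟨h3, ⟨h4, h4'⟩, h5⟩ | ⟨h3, ⟨h4, h4'⟩, h5⟩ | h3) |
      (⟨h3, ⟨h4, h4'⟩, h5⟩ | ⟨h3, ⟨h4, h4'⟩, h5⟩ | h3)
    · exact absurd (by tauto) h
    · exact absurd (by tauto) h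
    · exact h3
    · exact absurd (by tauto) h
    · exact absurd (by tauto) h
    · exact h3.symm
  · intro h1
    exact ⟨h1.ne, Or.inl (Or.inr (Or.inr h1))⟩

/-- No common neighbour of `u` and `v`. -/
def NoCommon {n : ℕ} (u v : Fin n) (G : SimpleGraph (Fin n)) : Prop :=
  ∀ w, ¬ (G.Adj u w ∧ G.Adj v w)

theorem card_oth {n : ℕ} (u v : Fin n) (huv : u ≠ v) : Fintype.card (Oth u v) = n - 2 := by
  rw [Fintype.card_subtype]
  have : (Finset.univ.filter (fun w : Fin n => w ≠ u ∧ w ≠ v)) = (Finset.univ.erase u).erase v := by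
    ext w
    simp [and_comm]
  rw [this, Finset.card_erase_of_mem (by simp [huv.symm]), Finset.card_erase_of_mem (by simp)]
  simp
  omega

theorem card_noCommon {n : ℕ} (u v : Fin n) (huv : u ≠ v) :
    Set.ncard {G : SimpleGraph (Fin n) | NoCommon u v G} * 4 ^ (n - 2) ≤
      Nat.card (SimpleGraph (Fin n)) * 3 ^ (n - 2) := by
  classical
  have h4 : 4 ^ (n - 2) = Nat.card (Oth u v → Bool × Bool) := by
    rw [Nat.card_eq_fintype_card, Fintype.card_fun, card_oth u v huv]
    rfl
  have h3 : 3 ^ (n - 2) = Nat.card (Oth u v → {p : Bool × Bool // ¬ (p.1 = true ∧ p.2 = true)}) := by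
    rw [Nat.card_eq_fintype_card, Fintype.card_fun, card_oth u v huv]
    rfl
  rw [h4, h3, ← Nat.card_coe_set_eq, ← Nat.card_prod, ← Nat.card_prod]
  apply Nat.card_le_card_of_injective
    (fun x : {G : SimpleGraph (Fin n) | NoCommon u v G} × (Oth u v → Bool × Bool) =>
      ((modG x.1.1 u v x.2, fun w => ⟨(decide (x.1.1.Adj u w), decide (x.1.1.Adj v w)), by
        have := x.1.2 w
        simpa using this⟩) :
        SimpleGraph (Fin n) × (Oth u v → {p : Bool × Bool // ¬ (p.1 = true ∧ p.2 = true)})))
  rintro ⟨⟨G, hG⟩, s⟩ ⟨⟨G', hG'⟩, s'⟩ h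
  simp only [Prod.mk.injEq] at h
  obtain ⟨h1, h2⟩ := h
  have h5 : ∀ w : Oth u v, (G.Adj u w ↔ G'.Adj u w) ∧ (G.Adj v w ↔ G'.Adj v w) := by
    intro w
    have := congrFun h2 w
    simpa using this
  have h6 : s = s' := by
    funext w
    have hu := modG_u G u v huv s w
    have hv := modG_v G u v huv s w
    have hu' := modG_u G' u v huv s' w
    have hv' := modG_v G' u v huv s' w
    rw [← h1] at hu' hv'
    apply Prod.ext
    · rw [Bool.eq_iff_iff, ← hu, ← hu']
    · rw [Bool.eq_iff_iff, ← hv, ← hv']
  have h7 : G = G' := by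
    ext a b
    by_cases hs : Spec u v a b
    · unfold Spec at hs
      by_cases ha : a = u ∨ a = v
      · have hb : ¬ (b = u ∨ b = v) := hs.mp ha
        have hb' : b ≠ u ∧ b ≠ v := by tauto
        rcases ha with ha | ha
        · rw [ha]; exact (h5 ⟨b, hb'⟩).1
        · rw [ha]; exact (h5 ⟨b, hb'⟩).2
      · have hb : (b = u ∨ b = v) := by tauto
        have ha' : a ≠ u ∧ a ≠ v := by tauto
        rcases hb with hb | hb
        · rw [hb, G.adj_comm, G'.adj_comm]; exact (h5 ⟨a, ha'⟩).1
        · rw [hb, G.adj_comm, G'.adj_comm]; exact (h5 ⟨a, ha'⟩).2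
    · rw [← modG_other G u v s a b hs, ← modG_other G' u v s' a b hs, h1]
  subst h6
  subst h7
  rfl

theorem card_not_good2 (n : ℕ) :
    (Set.ncard {G : SimpleGraph (Fin n) | ¬ Good2 G} : ℝ) ≤
      (n : ℝ) ^ 2 * (3 / 4 : ℝ) ^ (n - 2) * Nat.card (SimpleGraph (Fin n)) := by
  classical
  have hsub : {G : SimpleGraph (Fin n) | ¬ Good2 G} ⊆
      ⋃ p ∈ (Finset.univ : Finset (Fin n × Fin n)).filter (fun p => p.1 ≠ p.2),
        {G : SimpleGraph (Fin n) | NoCommon p.1 p.2 G} := by
    intro G hG
    simp only [Good2, Set.mem_setOf_eq, not_forall, not_exists] at hG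
    obtain ⟨u, v, huv, h⟩ := hG
    simp only [Set.mem_iUnion, Finset.mem_filter, Finset.mem_univ, true_and]
    exact ⟨(u, v), huv, h⟩
  have h1 : Set.ncard {G : SimpleGraph (Fin n) | ¬ Good2 G} ≤
      ∑ p ∈ (Finset.univ : Finset (Fin n × Fin n)).filter (fun p => p.1 ≠ p.2),
        Set.ncard {G : SimpleGraph (Fin n) | NoCommon p.1 p.2 G} :=
    (Set.ncard_le_ncard hsub (Set.toFinite _)).trans (Finset.set_ncard_biUnion_le _ _)
  have h2 : ∀ p ∈ (Finset.univ : Finset (Fin n × Fin n)).filter (fun p => p.1 ≠ p.2),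
      (Set.ncard {G : SimpleGraph (Fin n) | NoCommon p.1 p.2 G} : ℝ) ≤
        (3 / 4 : ℝ) ^ (n - 2) * Nat.card (SimpleGraph (Fin n)) := by
    intro p hp
    have h3 := card_noCommon p.1 p.2 (Finset.mem_filter.mp hp).2
    have h4 : (Set.ncard {G : SimpleGraph (Fin n) | NoCommon p.1 p.2 G} : ℝ) * 4 ^ (n - 2) ≤
      Nat.card (SimpleGraph (Fin n)) * 3 ^ (n - 2) := by exact_mod_cast h3
    rw [div_pow, div_mul_eq_mul_div, le_div_iff₀ (by positivity)]
    linarith
  calc (Set.ncard {G : SimpleGraph (Fin n) | ¬ Good2 G} : ℝ)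
      ≤ ∑ p ∈ (Finset.univ : Finset (Fin n × Fin n)).filter (fun p => p.1 ≠ p.2),
        (Set.ncard {G : SimpleGraph (Fin n) | NoCommon p.1 p.2 G} : ℝ) := by exact_mod_cast h1
    _ ≤ ∑ p ∈ (Finset.univ : Finset (Fin n × Fin n)).filter (fun p => p.1 ≠ p.2),
        (3 / 4 : ℝ) ^ (n - 2) * Nat.card (SimpleGraph (Fin n)) := Finset.sum_le_sum h2
    _ = (((Finset.univ : Finset (Fin n × Fin n)).filter (fun p => p.1 ≠ p.2)).card : ℝ) *
        ((3 / 4 : ℝ) ^ (n - 2) * Nat.card (SimpleGraph (Fin n))) := by
          rw [Finset.sum_const, nsmul_eq_mul]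
    _ ≤ (n : ℝ) ^ 2 * ((3 / 4 : ℝ) ^ (n - 2) * Nat.card (SimpleGraph (Fin n))) := by
          apply mul_le_mul_of_nonneg_right _ (by positivity)
          have h5 : ((Finset.univ : Finset (Fin n × Fin n)).filter (fun p => p.1 ≠ p.2)).card ≤
              n ^ 2 := by
            refine (Finset.card_filter_le _ _).trans ?_
            simp [sq]
          exact_mod_cast h5
    _ = (n : ℝ) ^ 2 * (3 / 4 : ℝ) ^ (n - 2) * Nat.card (SimpleGraph (Fin n)) := by ring

theorem tendsto_bound : Tendsto (fun n : ℕ => (n : ℝ) ^ 2 * (3 / 4 : ℝ) ^ (n - 2)) atTop (𝓝 0) := by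
  have h := tendsto_pow_const_mul_const_pow_of_abs_lt_one 2 (r := (3 / 4 : ℝ))
    (by rw [abs_of_pos] <;> norm_num)
  have h2 : Tendsto (fun n : ℕ => (16 / 9 : ℝ) * ((n : ℝ) ^ 2 * (3 / 4 : ℝ) ^ n)) atTop (𝓝 0) := by
    simpa using h.const_mul (16 / 9 : ℝ)
  refine h2.congr' ?_
  filter_upwards [eventually_ge_atTop 2] with n hn
  obtain ⟨m, rfl⟩ := Nat.exists_eq_add_of_le' hn
  simp only [Nat.add_sub_cancel]
  ring

/-- The negation of the preceding statement: The fraction of labelled n-vertex graphs that are connected and have squashed-cube dimension exactly n−1 tends to 1. Squashed-cube dimension is the least length of {0,1,*}-words where distance equals the number of 0/1 mismatches. -/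
theorem result :
    ¬ (Tendsto (fun n : ℕ =>
      ((Set.ncard {G : SimpleGraph (Fin n) |
          G.Connected ∧
          (∃ f : Fin n → Fin (n - 1) → Option Bool, ∀ u v : Fin n,
            G.dist u v = (Finset.univ.filter
              (fun i => f u i ≠ none ∧ f v i ≠ none ∧ f u i ≠ f v i)).card) ∧
          ∀ N : ℕ, N < n - 1 → ¬ ∃ f : Fin n → Fin N → Option Bool, ∀ u v : Fin n,
            G.dist u v = (Finset.univ.filter
              (fun i => f u i ≠ none ∧ f v i ≠ none ∧ f u i ≠ f v i)).card} : ℝ)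
        / (Nat.card (SimpleGraph (Fin n)) : ℝ))) atTop (𝓝 1)) := by
  intro hT
  set c : ℝ := (Nat.card (SimpleGraph (Fin 8)) : ℝ) with hc
  have hcpos : 0 < c := by
    rw [hc]
    exact_mod_cast Nat.card_pos
  have hlim : Tendsto (fun n : ℕ => (1 - 1 / c) + (n : ℝ) ^ 2 * (3 / 4 : ℝ) ^ (n - 2)) atTop
      (𝓝 ((1 - 1 / c) + 0)) := tendsto_bound.const_add _
  have hle := le_of_tendsto_of_tendsto hT hlim ?_
  · have : 0 < 1 / c := by positivity
    linarith
  filter_upwards [eventually_ge_atTop 8] with n hn
  have hNpos : (0 : ℝ) < Nat.card (SimpleGraph (Fin n)) := by exact_mod_cast Nat.card_pos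
  rw [div_le_iff₀ hNpos]
  set A : Set (SimpleGraph (Fin n)) := {G : SimpleGraph (Fin n) |
          G.Connected ∧
          (∃ f : Fin n → Fin (n - 1) → Option Bool, ∀ u v : Fin n,
            G.dist u v = (Finset.univ.filter
              (fun i => f u i ≠ none ∧ f v i ≠ none ∧ f u i ≠ f v i)).card) ∧
          ∀ N : ℕ, N < n - 1 → ¬ ∃ f : Fin n → Fin N → Option Bool, ∀ u v : Fin n,
            G.dist u v = (Finset.univ.filter
              (fun i => f u i ≠ none ∧ f v i ≠ none ∧ f u i ≠ f v i)).card} with hA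
  have hsub : A ⊆ {G : SimpleGraph (Fin n) | BaseOK G}ᶜ ∪ {G : SimpleGraph (Fin n) | ¬ Good2 G} := by
    intro G hG
    by_contra hcon
    simp only [Set.mem_union, Set.mem_compl_iff, Set.mem_setOf_eq, not_or, not_not] at hcon
    exact hG.2.2 (n - 2) (by omega) (exists_addr hn G hcon.2 hcon.1)
  have h1 : A.ncard ≤ ({G : SimpleGraph (Fin n) | BaseOK G}ᶜ).ncard +
      ({G : SimpleGraph (Fin n) | ¬ Good2 G}).ncard :=
    (Set.ncard_le_ncard hsub (Set.toFinite _)).trans (Set.ncard_union_le _ _)
  have h2 := Set.ncard_add_ncard_compl {G : SimpleGraph (Fin n) | BaseOK G}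
  have h3 := card_base hn
  have h4 := card_not_good2 n
  have h1' : (A.ncard : ℝ) ≤ (({G : SimpleGraph (Fin n) | BaseOK G}ᶜ).ncard : ℝ) +
      (({G : SimpleGraph (Fin n) | ¬ Good2 G}).ncard : ℝ) := by exact_mod_cast h1
  have h2' : ((({G : SimpleGraph (Fin n) | BaseOK G}).ncard : ℝ)) +
      (({G : SimpleGraph (Fin n) | BaseOK G}ᶜ).ncard : ℝ) = Nat.card (SimpleGraph (Fin n)) := by
    exact_mod_cast h2
  have h3' : (Nat.card (SimpleGraph (Fin n)) : ℝ) ≤
      (({G : SimpleGraph (Fin n) | BaseOK G}).ncard : ℝ) * c := by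
    rw [hc]
    exact_mod_cast h3
  have h5 : (Nat.card (SimpleGraph (Fin n)) : ℝ) / c ≤
      (({G : SimpleGraph (Fin n) | BaseOK G}).ncard : ℝ) := by
    rwa [div_le_iff₀ hcpos]
  have h6 : (1 - 1 / c + (n : ℝ) ^ 2 * (3 / 4 : ℝ) ^ (n - 2)) * (Nat.card (SimpleGraph (Fin n)) : ℝ)
      = (Nat.card (SimpleGraph (Fin n)) : ℝ) - (Nat.card (SimpleGraph (Fin n)) : ℝ) / c +
        (n : ℝ) ^ 2 * (3 / 4 : ℝ) ^ (n - 2) * (Nat.card (SimpleGraph (Fin n)) : ℝ) := by ring
  rw [h6]
  linarith

end Pool.Agent.S04886
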