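import Pool.Statements.S04896

set_option autoImplicit false
open Classical Filter Topology
open Pool Pool.MP_1cd2aa_co

namespace Pool.Agent.S04896

open Module

/-- the linear map of relations attached to an assignment of vectors -/
noncomputable def L {n r : ℕ} (v : Fin n → Fin r → ZMod 2) :
    (Fin n → ZMod 2) →ₗ[ZMod 2] (Fin r → ZMod 2) := Fintype.linearCombination (ZMod 2) v

/-- vectors supported in x -/
def E {n : ℕ} (x : Finset (Fin n)) : Submodule (ZMod 2) (Fin n → ZMod 2) where
  carrier := {a | ∀ i, i ∉ x → a i = 0}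
  zero_mem' := by intro i _; rfl
  add_mem' := by
    intro a b ha hb i hi
    simp [ha i hi, hb i hi]
  smul_mem' := by
    intro c a ha i hi
    simp [ha i hi]

/-- relations supported in x -/
noncomputable def K {n r : ℕ} (v : Fin n → Fin r → ZMod 2) (x : Finset (Fin n)) :
    Submodule (ZMod 2) (Fin n → ZMod 2) := LinearMap.ker (L v) ⊓ E x

noncomputable def Eequiv {n : ℕ} (x : Finset (Fin n)) : E x ≃ₗ[ZMod 2] (x → ZMod 2) where
  toFun a := fun i => a.1 i.1
  map_add' a b := by ext i; rfl
  map_smul' c a := by ext i; rfl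
  invFun f := ⟨fun i => if h : i ∈ x then f ⟨i, h⟩ else 0, by intro i hi; simp [hi]⟩
  left_inv a := by
    ext i
    by_cases h : i ∈ x
    · simp [h]
    · simp [h, a.2 i h]
  right_inv f := by
    ext i
    simp

lemma finrank_E {n : ℕ} (x : Finset (Fin n)) : finrank (ZMod 2) (E x) = x.card := by
  rw [(Eequiv x).finrank_eq, Module.finrank_fintype_fun_eq_card, Fintype.card_coe]

/-- a set of `r+5` vectors in dimension `r` has five independent relations -/
lemma exists_rel {n r : ℕ} (v : Fin n → Fin r → ZMod 2) (y : Finset (Fin n))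
    (hy : y.card = r + 5) :
    ∃ b : Fin 5 → (Fin n → ZMod 2), LinearIndependent (ZMod 2) b ∧ ∀ j, b j ∈ K v y := by
  have h1 := LinearMap.finrank_range_add_finrank_ker ((L v).domRestrict (E y))
  have h2 : finrank (ZMod 2) (LinearMap.range ((L v).domRestrict (E y))) ≤ r := by
    calc _ ≤ finrank (ZMod 2) (Fin r → ZMod 2) := Submodule.finrank_le _
      _ = r := by simp
  rw [finrank_E, hy] at h1
  have h3 : 5 ≤ finrank (ZMod 2) (LinearMap.ker ((L v).domRestrict (E y))) := by omega
  obtain ⟨f, hf⟩ := exists_linearIndependent_of_le_finrank h3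
  refine ⟨fun j => ((f j).1).1, ?_, ?_⟩
  · have h4 := (hf.map' (Submodule.subtype _) (by simp)).map' (Submodule.subtype _) (by simp)
    exact h4
  · intro j
    refine ⟨?_, (f j).1.2⟩
    have := (f j).2
    rw [LinearMap.mem_ker, LinearMap.domRestrict_apply] at this
    exact this

/-- the pigeonhole step -/
lemma hit {n r : ℕ} (v : Fin n → Fin r → ZMod 2) (y T : Finset (Fin n))
    (hy : y.card = r + 5) (hT : 129 ≤ T.card) :
    ∃ J ⊆ T, J.card = 5 ∧ 4 ≤ finrank (ZMod 2) (K v (y \ J)) := by
  obtain ⟨b, hb, hbK⟩ := exists_rel v y hy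
  obtain ⟨w, -, hw⟩ := Finset.exists_lt_card_fiber_of_mul_lt_card_of_maps_to
    (s := T) (t := (Finset.univ : Finset (Fin 5 → ZMod 2))) (f := fun i => fun j => b j i) (n := 4)
    (fun _ _ => Finset.mem_univ _) (by
      simp only [Finset.card_univ, Fintype.card_fun, ZMod.card, Fintype.card_fin]
      omega)
  obtain ⟨J, hJ, hJc⟩ := Finset.exists_subset_card_eq (Nat.succ_le_of_lt hw)
  have hJT : J ⊆ T := fun i hi => (Finset.mem_filter.mp (hJ hi)).1
  refine ⟨J, hJT, hJc, ?_⟩
  -- functional
  let φ : (Fin 5 → ZMod 2) →ₗ[ZMod 2] ZMod 2 := Fintype.linearCombination (ZMod 2) w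
  have hφ : 4 ≤ finrank (ZMod 2) (LinearMap.ker φ) := by
    have h1 := LinearMap.finrank_range_add_finrank_ker φ
    have h2 : finrank (ZMod 2) (LinearMap.range φ) ≤ 1 := by
      calc _ ≤ finrank (ZMod 2) (ZMod 2) := Submodule.finrank_le _
        _ = 1 := by simp
    simp only [Module.finrank_fintype_fun_eq_card, Fintype.card_fin] at h1
    omega
  let f : (Fin 5 → ZMod 2) →ₗ[ZMod 2] (Fin n → ZMod 2) := Fintype.linearCombination (ZMod 2) b
  have hf : Function.Injective f := hb.fintypeLinearCombination_injective
  have hle : (LinearMap.ker φ).map f ≤ K v (y \ J) := by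
    rintro _ ⟨μ, hμ, rfl⟩
    have hμ' : ∑ j, μ j * w j = 0 := by
      have := LinearMap.mem_ker.mp hμ
      simpa [φ, Fintype.linearCombination_apply] using this
    have hfμ : f μ = ∑ j, μ j • b j := by simp [f, Fintype.linearCombination_apply]
    refine ⟨?_, ?_⟩
    · show f μ ∈ LinearMap.ker (L v)
      rw [hfμ]
      exact Submodule.sum_mem _ (fun j _ => Submodule.smul_mem _ _ (hbK j).1)
    · intro i hi
      rw [hfμ]
      by_cases hiJ : i ∈ J
      · have hwi : (fun j => b j i) = w := (Finset.mem_filter.mp (hJ hiJ)).2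
        have : (∑ j, μ j • b j) i = ∑ j, μ j * w j := by
          rw [Finset.sum_apply]
          refine Finset.sum_congr rfl (fun j _ => ?_)
          rw [Pi.smul_apply, smul_eq_mul, ← hwi]
        rw [this, hμ']
      · have hiy : i ∉ y := fun h => hi (Finset.mem_sdiff.mpr ⟨h, hiJ⟩)
        have : (∑ j, μ j • b j) ∈ E y :=
          Submodule.sum_mem _ (fun j _ => Submodule.smul_mem _ _ (hbK j).2)
        exact this i hiy
  calc 4 ≤ finrank (ZMod 2) (LinearMap.ker φ) := hφ
    _ = finrank (ZMod 2) ((LinearMap.ker φ).map f) :=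
      (Submodule.equivMapOfInjective f hf _).finrank_eq
    _ ≤ finrank (ZMod 2) (K v (y \ J)) := Submodule.finrank_mono hle

/-- evaluation of all relations in a tuple -/
noncomputable def Phi {n r : ℕ} (a : Fin 4 → Fin n → ZMod 2) :
    (Fin n → Fin r → ZMod 2) →ₗ[ZMod 2] (Fin 4 → Fin r → ZMod 2) where
  toFun v := fun j => L v (a j)
  map_add' v w := by
    ext j k
    simp [L, Fintype.linearCombination_apply, Finset.sum_add_distrib]
  map_smul' c v := by
    ext j k
    simp [L, Fintype.linearCombination_apply, Finset.mul_sum, mul_left_comm]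

lemma Phi_surj {n r : ℕ} (a : Fin 4 → Fin n → ZMod 2) (ha : LinearIndependent (ZMod 2) a) :
    Function.Surjective (Phi (r := r) a) := by
  intro t
  obtain ⟨h, hh⟩ := LinearMap.exists_leftInverse_of_injective
    (Fintype.linearCombination (ZMod 2) a)
    (LinearMap.ker_eq_bot.mpr ha.fintypeLinearCombination_injective)
  let g : (Fin n → ZMod 2) →ₗ[ZMod 2] (Fin r → ZMod 2) :=
    (Fintype.linearCombination (ZMod 2) t) ∘ₗ h
  refine ⟨fun i => g (Pi.single i 1), ?_⟩
  funext j
  have h1 : g (a j) = t j := by
    have : h (a j) = Pi.single j 1 := by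
      have := congrArg (fun F => F (Pi.single j 1)) hh
      simpa [Fintype.linearCombination_apply_single] using this
    show (Fintype.linearCombination (ZMod 2) t) (h (a j)) = t j
    rw [this]
    simp [Fintype.linearCombination_apply_single]
  show L _ (a j) = t j
  rw [← h1]
  conv_rhs => rw [← Finset.univ_sum_single (a j)]
  rw [map_sum]
  simp only [L, Fintype.linearCombination_apply]
  refine Finset.sum_congr rfl (fun i _ => ?_)
  rw [← map_smul]
  congr 1
  ext k
  simp [Pi.single_apply]

lemma card_fiber {n r : ℕ} (a : Fin 4 → Fin n → ZMod 2) (ha : LinearIndependent (ZMod 2) a) :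
    (Finset.univ.filter (fun v : Fin n → Fin r → ZMod 2 => ∀ j, L v (a j) = 0)).card * 2 ^ (4 * r)
      = Fintype.card (Fin n → Fin r → ZMod 2) := by
  have h1 := LinearMap.finrank_range_add_finrank_ker (Phi (r := r) a)
  rw [LinearMap.range_eq_top.mpr (Phi_surj a ha), finrank_top] at h1
  have h2 : (Finset.univ.filter (fun v : Fin n → Fin r → ZMod 2 => ∀ j, L v (a j) = 0)).card
      = Fintype.card (LinearMap.ker (Phi (r := r) a)) := by
    rw [← Fintype.card_subtype]
    refine Fintype.card_congr (Equiv.subtypeEquivRight (fun v => ?_))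
    rw [LinearMap.mem_ker]
    constructor
    · intro h; funext j; exact h j
    · intro h j; exact congrFun h j
  rw [h2, Module.card_eq_pow_finrank (K := ZMod 2), Module.card_eq_pow_finrank (K := ZMod 2)
    (V := Fin n → Fin r → ZMod 2), ← h1, ZMod.card]
  have h3 : finrank (ZMod 2) (Fin 4 → Fin r → ZMod 2) = 4 * r := by
    rw [Module.finrank_pi_fintype]
    simp
  rw [h3, pow_add, mul_comm]

lemma count {n r : ℕ} (x : Finset (Fin n)) (hx : x.card = r) :
    20160 * (Finset.univ.filter
      (fun v : Fin n → Fin r → ZMod 2 => 4 ≤ finrank (ZMod 2) (K v x))).card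
      ≤ Fintype.card (Fin n → Fin r → ZMod 2) := by
  set A : Finset (Fin 4 → Fin n → ZMod 2) := Finset.univ.filter
    (fun a => LinearIndependent (ZMod 2) a ∧ ∀ j, a j ∈ E x) with hA
  set R : (Fin n → Fin r → ZMod 2) → (Fin 4 → Fin n → ZMod 2) → Prop :=
    fun v a => ∀ j, L v (a j) = 0 with hR
  have hdc := Finset.sum_card_bipartiteAbove_eq_sum_card_bipartiteBelow R
    (s := (Finset.univ : Finset (Fin n → Fin r → ZMod 2))) (t := A)
  -- upper bound
  have hup : (∑ a ∈ A, (Finset.bipartiteBelow R
      (Finset.univ : Finset (Fin n → Fin r → ZMod 2)) a).card) * 2 ^ (4 * r)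
      ≤ Fintype.card (Fin n → Fin r → ZMod 2) * 2 ^ (4 * r) := by
    rw [Finset.sum_mul]
    have : ∀ a ∈ A, (Finset.bipartiteBelow R
      (Finset.univ : Finset (Fin n → Fin r → ZMod 2)) a).card * 2 ^ (4 * r) =
        Fintype.card (Fin n → Fin r → ZMod 2) := by
      intro a ha
      exact card_fiber a (Finset.mem_filter.mp ha).2.1
    rw [Finset.sum_congr rfl this, Finset.sum_const, smul_eq_mul, mul_comm]
    refine Nat.mul_le_mul_left _ ?_
    -- card A ≤ 2^(4r)
    have hinj : A.card ≤ Fintype.card (Fin 4 → E x) := by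
      rw [← Finset.card_univ]
      refine Finset.card_le_card_of_injOn
        (fun a => fun j => if h : a j ∈ E x then (⟨a j, h⟩ : E x) else 0)
        (fun _ _ => Finset.mem_univ _) ?_
      intro a ha a' ha' haa
      funext j
      have h1 : a j ∈ E x := (Finset.mem_filter.mp ha).2.2 j
      have h2 : a' j ∈ E x := (Finset.mem_filter.mp ha').2.2 j
      have h3 := congrFun haa j
      simp only [h1, h2, dif_pos] at h3
      exact congrArg Subtype.val h3
    refine hinj.trans ?_
    rw [Fintype.card_fun, Module.card_eq_pow_finrank (K := ZMod 2) (V := E x), finrank_E, hx,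
      ZMod.card, Fintype.card_fin, ← pow_mul, mul_comm]
  have hup' := Nat.le_of_mul_le_mul_right hup (by positivity)
  rw [← hdc] at hup'
  refine le_trans ?_ hup'
  -- lower bound
  rw [mul_comm, ← smul_eq_mul, ← Finset.sum_const]
  refine le_trans ?_ (Finset.sum_le_sum_of_subset (Finset.filter_subset
    (fun v : Fin n → Fin r → ZMod 2 => 4 ≤ finrank (ZMod 2) (K v x)) Finset.univ))
  refine Finset.sum_le_sum (fun v hv => ?_)
  have hv4 : 4 ≤ finrank (ZMod 2) (K v x) := (Finset.mem_filter.mp hv).2
  have hc := card_linearIndependent (K := ZMod 2) (V := K v x) (k := 4) hv4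
  have hge : 20160 ≤ Nat.card {s : Fin 4 → K v x // LinearIndependent (ZMod 2) s} := by
    rw [hc]
    simp only [Fin.prod_univ_four, ZMod.card]
    have h16 : 2 ^ 4 ≤ 2 ^ finrank (ZMod 2) (K v x) := Nat.pow_le_pow_right (by norm_num) hv4
    generalize 2 ^ finrank (ZMod 2) (K v x) = q at h16
    have h0 : 15 ≤ q - 2 ^ ((0 : Fin 4) : ℕ) := by
      simp only [Fin.val_zero]; omega
    have h1 : 14 ≤ q - 2 ^ ((1 : Fin 4) : ℕ) := by
      simp only [Fin.val_one]; omega
    have h2 : 12 ≤ q - 2 ^ ((2 : Fin 4) : ℕ) := by
      simp only [Fin.val_two]; omega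
    have h3 : 8 ≤ q - 2 ^ ((3 : Fin 4) : ℕ) := by
      have : ((3 : Fin 4) : ℕ) = 3 := rfl
      rw [this]; omega
    calc 20160 = 15 * 14 * 12 * 8 := by norm_num
      _ ≤ _ := Nat.mul_le_mul (Nat.mul_le_mul (Nat.mul_le_mul h0 h1) h2) h3
  refine hge.trans ?_
  rw [Nat.card_eq_fintype_card, ← Finset.card_univ]
  refine Finset.card_le_card_of_injOn (fun s => fun j => ((s.1 j : K v x) : Fin n → ZMod 2)) ?_ ?_
  · intro s _
    simp only [Finset.coe_filter, Finset.bipartiteAbove, Set.mem_ofPred_eq, hA, hR,
      Finset.mem_filter, Finset.mem_univ, true_and]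
    refine ⟨⟨?_, fun j => (s.1 j).2.2⟩, fun j => LinearMap.mem_ker.mp (s.1 j).2.1⟩
    exact s.2.map' (Submodule.subtype _) (by simp)
  · intro s _ s' _ h
    apply Subtype.ext
    funext j
    apply Subtype.ext
    exact congrFun h j


/-- coordinates fixed to one -/
def ones {n : ℕ} (D : Fin n → Option Bool) : Finset (Fin n) :=
  Finset.univ.filter (fun i => D i = some true)

/-- the 2-subcubes -/
def Q (n : ℕ) : Finset (Fin n → Option Bool) :=
  Finset.univ.filter (fun D => (Finset.univ.filter (fun i => D i = none)).card = 2)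

lemma stepA (n r : ℕ) : ∃ v : Fin n → Fin r → ZMod 2,
    20160 * ((Q n).filter (fun D => (ones D).card = r ∧
      4 ≤ finrank (ZMod 2) (K v (ones D)))).card ≤ ((Q n).filter (fun D => (ones D).card = r)).card := by
  have key : ∑ v : Fin n → Fin r → ZMod 2, 20160 * ((Q n).filter (fun D => (ones D).card = r ∧
      4 ≤ finrank (ZMod 2) (K v (ones D)))).card
      ≤ ∑ _v : Fin n → Fin r → ZMod 2, ((Q n).filter (fun D => (ones D).card = r)).card := by
    rw [← Finset.mul_sum]
    have hdc := Finset.sum_card_bipartiteAbove_eq_sum_card_bipartiteBelow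
      (fun (v : Fin n → Fin r → ZMod 2) (D : Fin n → Option Bool) =>
        4 ≤ finrank (ZMod 2) (K v (ones D)))
      (s := (Finset.univ : Finset (Fin n → Fin r → ZMod 2)))
      (t := (Q n).filter (fun D => (ones D).card = r))
    have h1 : ∀ v : Fin n → Fin r → ZMod 2, ((Q n).filter (fun D => (ones D).card = r ∧
      4 ≤ finrank (ZMod 2) (K v (ones D)))) = Finset.bipartiteAbove
        (fun (v : Fin n → Fin r → ZMod 2) (D : Fin n → Option Bool) =>
        4 ≤ finrank (ZMod 2) (K v (ones D))) ((Q n).filter (fun D => (ones D).card = r)) v := by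
      intro v
      rw [Finset.bipartiteAbove, Finset.filter_filter]
    rw [Finset.sum_congr rfl (fun v _ => congrArg Finset.card (h1 v)), hdc, Finset.mul_sum,
      Finset.sum_const, Finset.card_univ, smul_eq_mul, mul_comm (Fintype.card _), ← smul_eq_mul,
      ← Finset.sum_const]
    refine Finset.sum_le_sum (fun D hD => ?_)
    exact count (ones D) (Finset.mem_filter.mp hD).2
  obtain ⟨v, -, hv⟩ := Finset.exists_le_of_sum_le Finset.univ_nonempty key
  exact ⟨v, hv⟩

/-- the main construction: a small family meeting every 182-subcube -/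
lemma construction (n : ℕ) : ∃ H ⊆ Q n, 1048320 * H.card ≤ (Q n).card ∧
    ∀ C : Fin n → Option Bool, (Finset.univ.filter (fun i => C i = none)).card = 182 →
      ∃ D ∈ H, ∀ (i : Fin n) (b : Bool), C i = some b → D i = some b := by
  choose v hv using stepA n
  obtain ⟨ρ, hρ, hρc⟩ := Finset.exists_card_fiber_le_of_card_le_nsmul (s := Q n)
    (t := Finset.range 52) (f := fun D => (ones D).card % 52) (M := ℚ)
    (b := ((Q n).card : ℚ) / 52) (by simp) (by simp; linarith)
  have hρ52 : ρ < 52 := Finset.mem_range.mp hρ
  set H : Finset (Fin n → Option Bool) := (Q n).filter (fun D => (ones D).card % 52 = ρ ∧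
    4 ≤ finrank (ZMod 2) (K (v (ones D).card) (ones D))) with hH
  refine ⟨H, Finset.filter_subset _ _, ?_, ?_⟩
  · -- size
    have h1 : 20160 * H.card ≤ ((Q n).filter (fun D => (ones D).card % 52 = ρ)).card := by
      rw [Finset.card_eq_sum_card_fiberwise (f := fun D => (ones D).card) (s := H)
        (t := Finset.range (n + 1)) (fun D _ => by
          simp only [Finset.coe_range, Set.mem_Iio]
          exact Nat.lt_succ_of_le ((Finset.card_le_univ _).trans (by simp))),
        Finset.card_eq_sum_card_fiberwise (f := fun D => (ones D).card)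
        (s := (Q n).filter (fun D => (ones D).card % 52 = ρ))
        (t := Finset.range (n + 1)) (fun D _ => by
          simp only [Finset.coe_range, Set.mem_Iio]
          exact Nat.lt_succ_of_le ((Finset.card_le_univ _).trans (by simp))), Finset.mul_sum]
      refine Finset.sum_le_sum (fun r _ => ?_)
      by_cases hr : r % 52 = ρ
      · have e1 : (H.filter (fun D => (ones D).card = r)) = (Q n).filter (fun D => (ones D).card = r ∧
          4 ≤ finrank (ZMod 2) (K (v r) (ones D))) := by
          ext D
          simp only [hH, Finset.mem_filter]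
          constructor
          · rintro ⟨⟨h1, h2, h3⟩, h4⟩
            subst h4
            exact ⟨h1, rfl, h3⟩
          · rintro ⟨h1, h2, h3⟩
            subst h2
            exact ⟨⟨h1, hr, h3⟩, rfl⟩
        have e2 : ((Q n).filter (fun D => (ones D).card % 52 = ρ)).filter (fun D => (ones D).card = r)
          = (Q n).filter (fun D => (ones D).card = r) := by
          ext D
          simp only [Finset.mem_filter]
          constructor
          · rintro ⟨⟨h1, h2⟩, h4⟩
            exact ⟨h1, h4⟩
          · rintro ⟨h1, h2⟩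
            exact ⟨⟨h1, h2 ▸ hr⟩, h2⟩
        rw [e1, e2]
        exact hv r
      · have e1 : (H.filter (fun D => (ones D).card = r)) = ∅ := by
          ext D
          simp only [hH, Finset.mem_filter, Finset.notMem_empty, iff_false]
          rintro ⟨⟨h1, h2, h3⟩, h4⟩
          exact hr (h4 ▸ h2)
        rw [e1]
        simp
    have h2 : 52 * ((Q n).filter (fun D => (ones D).card % 52 = ρ)).card ≤ (Q n).card := by
      have : (((Q n).filter (fun D => (ones D).card % 52 = ρ)).card : ℚ) ≤ ((Q n).card : ℚ) / 52 := hρc
      rw [le_div_iff₀ (by norm_num)] at this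
      have h3 : (((Q n).filter (fun D => (ones D).card % 52 = ρ)).card * 52 : ℕ) ≤ (Q n).card := by
        exact_mod_cast this
      omega
    omega
  · -- hitting
    intro C hC
    set T' := Finset.univ.filter (fun i => C i = none) with hT'
    obtain ⟨P, hPT', hPc⟩ := Finset.exists_subset_card_eq (show 2 ≤ T'.card by omega)
    set T := T' \ P with hT
    have hTc : T.card = 180 := by
      rw [hT, Finset.card_sdiff_of_subset hPT', hC, hPc]
    set S := ones C with hS
    have hST : Disjoint S T := by
      rw [Finset.disjoint_left]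
      intro i hi hiT
      have h1 : C i = some true := (Finset.mem_filter.mp hi).2
      have h2 : C i = none := (Finset.mem_filter.mp (Finset.mem_sdiff.mp hiT).1).2
      rw [h1] at h2
      exact Option.some_ne_none _ h2
    -- choose the layer
    obtain ⟨s, hs1, hs2, hs3⟩ : ∃ s, 124 ≤ s ∧ s ≤ 175 ∧ (S.card + s) % 52 = ρ := by
      refine ⟨124 + (ρ + 52 * (S.card + 124) - (S.card + 124)) % 52, by omega, by omega, ?_⟩
      omega
    obtain ⟨T1, hT1, hT1c⟩ := Finset.exists_subset_card_eq (show s + 5 ≤ T.card by omega)
    have hST1 : Disjoint S T1 := Finset.disjoint_of_subset_right hT1 hST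
    set y := S ∪ T1 with hy
    have hyc : y.card = (S.card + s) + 5 := by
      rw [hy, Finset.card_union_of_disjoint hST1, hT1c]
      omega
    obtain ⟨J, hJT, hJc, hJK⟩ := hit (v (S.card + s)) y T1 hyc (by omega)
    set x := y \ J with hx
    have hJy : J ⊆ y := hJT.trans Finset.subset_union_right
    have hxc : x.card = S.card + s := by
      rw [hx, Finset.card_sdiff_of_subset hJy, hyc, hJc]
      omega
    -- the subcube
    set D : Fin n → Option Bool := fun i => if i ∈ P then none else
      if i ∈ T' then some (decide (i ∈ x)) else C i with hD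
    have hPx : ∀ i ∈ P, i ∉ x := by
      intro i hi hix
      have hiy := (Finset.mem_sdiff.mp hix).1
      rcases Finset.mem_union.mp hiy with h | h
      · have h1 : C i = some true := (Finset.mem_filter.mp h).2
        have h2 : C i = none := (Finset.mem_filter.mp (hPT' hi)).2
        rw [h1] at h2
        exact Option.some_ne_none _ h2
      · exact (Finset.mem_sdiff.mp (hT1 h)).2 hi
    have hDnone : Finset.univ.filter (fun i => D i = none) = P := by
      ext i
      simp only [Finset.mem_filter, Finset.mem_univ, true_and, hD]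
      by_cases hiP : i ∈ P
      · simp [hiP]
      · by_cases hiT : i ∈ T'
        · simp [hiP, hiT]
        · simp only [hiP, hiT, if_false, iff_false]
          intro h
          exact hiT (Finset.mem_filter.mpr ⟨Finset.mem_univ _, h⟩)
    have hDones : ones D = x := by
      ext i
      simp only [ones, Finset.mem_filter, Finset.mem_univ, true_and, hD]
      by_cases hiP : i ∈ P
      · simp [hiP, hPx i hiP]
      · by_cases hiT : i ∈ T'
        · simp [hiP, hiT]
        · simp only [hiP, hiT, if_false]
          constructor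
          · intro h
            refine Finset.mem_sdiff.mpr ⟨Finset.mem_union_left _
              (Finset.mem_filter.mpr ⟨Finset.mem_univ _, h⟩), ?_⟩
            intro hJ
            exact hiT (Finset.mem_sdiff.mp (hT1 (hJT hJ))).1
          · intro h
            rcases Finset.mem_union.mp (Finset.mem_sdiff.mp h).1 with h' | h'
            · exact (Finset.mem_filter.mp h').2
            · exact absurd (Finset.mem_sdiff.mp (hT1 h')).1 hiT
    refine ⟨D, ?_, ?_⟩
    · rw [hH, Finset.mem_filter]
      refine ⟨?_, ?_, ?_⟩
      · rw [Q, Finset.mem_filter]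
        exact ⟨Finset.mem_univ _, by rw [hDnone, hPc]⟩
      · rw [hDones, hxc, hs3]
      · rw [hDones, hxc]
        exact hJK
    · intro i b hib
      have hiT : i ∉ T' := by
        intro h
        have h2 : C i = none := (Finset.mem_filter.mp h).2
        rw [hib] at h2
        exact Option.some_ne_none _ h2
      have hiP : i ∉ P := fun h => hiT (hPT' h)
      simp only [hD, hiP, hiT, if_false]
      exact hib


lemma Q_pos (n : ℕ) (hn : 2 ≤ n) : 0 < (Q n).card := by
  obtain ⟨P, -, hP⟩ := Finset.exists_subset_card_eq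
    (show 2 ≤ (Finset.univ : Finset (Fin n)).card by simpa using hn)
  refine Finset.card_pos.mpr ⟨fun i => if i ∈ P then none else some false, ?_⟩
  rw [Q, Finset.mem_filter]
  refine ⟨Finset.mem_univ _, ?_⟩
  rw [← hP]
  congr 1
  ext i
  by_cases h : i ∈ P <;> simp [h]

/-- The negation of the preceding statement: For every m ≥ 7, the largest fraction of 2-dimensional subcubes of the n-cube that can be chosen with no (3m+2)-dimensional subcube having all its 2-subcubes chosen tends to 1 − 1/(m+1)³ as n → ∞. -/
theorem result :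
    ¬ (∀ m : ℕ, 7 ≤ m →
      Tendsto
        (fun n : ℕ =>
          ((((Finset.univ : Finset (Finset (Fin n → Option Bool))).filter
              (fun F =>
                (∀ x ∈ F, (Finset.univ.filter (fun i => x i = none)).card = 2) ∧
                ∀ C : Fin n → Option Bool,
                  (Finset.univ.filter (fun i => C i = none)).card = 3 * m + 2 →
                  ¬ (∀ D : Fin n → Option Bool,
                      (Finset.univ.filter (fun i => D i = none)).card = 2 →
                      (∀ (i : Fin n) (b : Bool), C i = some b → D i = some b) →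
                      D ∈ F))).sup Finset.card : ℕ) : ℝ) /
          (((Finset.univ : Finset (Fin n → Option Bool)).filter
              (fun D => (Finset.univ.filter (fun i => D i = none)).card = 2)).card : ℝ))
        atTop (𝓝 (1 - 1 / ((m : ℝ) + 1) ^ 3))) := by
  intro h
  have h60 := h 60 (by norm_num)
  have hb : (1 - 1 / 1048320 : ℝ) ≤ 1 - 1 / (((60 : ℕ) : ℝ) + 1) ^ 3 := by
    refine ge_of_tendsto h60 ?_
    filter_upwards [eventually_ge_atTop 2] with n hn
    obtain ⟨H, hHQ, hHc, hHit⟩ := construction n
    have hQ : 0 < ((Q n).card : ℝ) := by exact_mod_cast Q_pos n hn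
    change (1 - 1 / 1048320 : ℝ) ≤ _ / ((Q n).card : ℝ)
    rw [le_div_iff₀ hQ]
    have hle : (Q n \ H).card ≤ ((Finset.univ : Finset (Finset (Fin n → Option Bool))).filter
              (fun F =>
                (∀ x ∈ F, (Finset.univ.filter (fun i => x i = none)).card = 2) ∧
                ∀ C : Fin n → Option Bool,
                  (Finset.univ.filter (fun i => C i = none)).card = 3 * 60 + 2 →
                  ¬ (∀ D : Fin n → Option Bool,
                      (Finset.univ.filter (fun i => D i = none)).card = 2 →
                      (∀ (i : Fin n) (b : Bool), C i = some b → D i = some b) →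
                      D ∈ F))).sup Finset.card := by
      refine Finset.le_sup (f := Finset.card) ?_
      rw [Finset.mem_filter]
      refine ⟨Finset.mem_univ _, ?_, ?_⟩
      · intro x hx
        exact (Finset.mem_filter.mp (Finset.mem_sdiff.mp hx).1).2
      · intro C hC hall
        obtain ⟨D, hDH, hDC⟩ := hHit C hC
        exact (Finset.mem_sdiff.mp (hall D (Finset.mem_filter.mp (hHQ hDH)).2 hDC)).2 hDH
    have h1 : (Q n \ H).card + H.card = (Q n).card := by
      rw [Finset.card_sdiff_of_subset hHQ]
      exact Nat.sub_add_cancel (Finset.card_le_card hHQ)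
    have h2 : ((Q n \ H).card : ℝ) + (H.card : ℝ) = ((Q n).card : ℝ) := by exact_mod_cast h1
    have h3 : (1048320 : ℝ) * (H.card : ℝ) ≤ ((Q n).card : ℝ) := by exact_mod_cast hHc
    have h4 : (1 - 1 / 1048320 : ℝ) * ((Q n).card : ℝ) ≤ ((Q n \ H).card : ℝ) := by
      have : (H.card : ℝ) ≤ ((Q n).card : ℝ) / 1048320 := by
        rw [le_div_iff₀ (by norm_num)]; linarith
      linarith
    exact h4.trans (by exact_mod_cast hle)
  norm_num at hb

end Pool.Agent.S04896
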