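import Pool.Statements.S04904
-- import your own Pool.Agent.* helpers here
import Pool.Agent.Helper40.MBWin
import Pool.Agent.Helper40.AFAll

set_option autoImplicit false
open Pool Pool.MP_1d0474_co

namespace Pool.Agent.S04904

/-- The negation of the preceding statement: For every q and W: if for all N ≥ W one player can force the other to claim all edges of a K_q in the alternating edge game on K_N, then for all N ≥ W the first player can claim a whole K_q himself. -/
theorem result :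
    ¬ (∀ Win : ℕ → ℕ → ℕ → ℕ → Prop,
      (∀ q N p r : ℕ, Win q N p r ↔
        ∃ σ : List (Sym2 (Fin N)) → Sym2 (Fin N),
          (∀ l : List (Sym2 (Fin N)), l.Nodup → (∀ e ∈ l, ¬ e.IsDiag) →
            (∀ (i : ℕ) (h : i < l.length), i % 2 = p → l[i]'h = σ (l.take i)) →
            l.length % 2 = p →
            (∃ e : Sym2 (Fin N), ¬ e.IsDiag ∧ e ∉ l) →
            (¬ (σ l).IsDiag ∧ σ l ∉ l)) ∧
          (∀ l : List (Sym2 (Fin N)), l.Nodup → (∀ e ∈ l, ¬ e.IsDiag) →
            (∀ e : Sym2 (Fin N), ¬ e.IsDiag → e ∈ l) →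
            (∀ (i : ℕ) (h : i < l.length), i % 2 = p → l[i]'h = σ (l.take i)) →
            ∃ S : Finset (Fin N), S.card = q ∧
              ∀ a ∈ S, ∀ b ∈ S, a ≠ b →
                ∃ (i : ℕ) (h : i < l.length), i % 2 = r ∧ l[i]'h = s(a, b))) →
      ∀ q W : ℕ, (∀ N : ℕ, W ≤ N → (Win q N 0 1 ∨ Win q N 1 0)) →
        ∀ N : ℕ, W ≤ N → Win q N 0 0) := by
  intro hall
  have h := hall (fun q N p r => ∃ σ : List (Sym2 (Fin N)) → Sym2 (Fin N),
          (∀ l : List (Sym2 (Fin N)), l.Nodup → (∀ e ∈ l, ¬ e.IsDiag) →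
            (∀ (i : ℕ) (h : i < l.length), i % 2 = p → l[i]'h = σ (l.take i)) →
            l.length % 2 = p →
            (∃ e : Sym2 (Fin N), ¬ e.IsDiag ∧ e ∉ l) →
            (¬ (σ l).IsDiag ∧ σ l ∉ l)) ∧
          (∀ l : List (Sym2 (Fin N)), l.Nodup → (∀ e ∈ l, ¬ e.IsDiag) →
            (∀ e : Sym2 (Fin N), ¬ e.IsDiag → e ∈ l) →
            (∀ (i : ℕ) (h : i < l.length), i % 2 = p → l[i]'h = σ (l.take i)) →
            ∃ S : Finset (Fin N), S.card = q ∧
              ∀ a ∈ S, ∀ b ∈ S, a ≠ b →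
                ∃ (i : ℕ) (h : i < l.length), i % 2 = r ∧ l[i]'h = s(a, b)))
    (fun q N p r => Iff.rfl) 4 9 ?_ 9 le_rfl
  · -- the second player prevents a complete graph on four of the nine vertices
    obtain ⟨σ, h1, h2⟩ := h
    obtain ⟨l, hnd, hE, hall, hc, hT⟩ := Pool.Agent.Helper40.Game.exists_play_of_bwin
      (Pool.Agent.Helper40.K9.EE 9) (Pool.Agent.Helper40.K9.KT 9 4)
      Pool.Agent.Helper40.K9.mb_root σ (by
        intro l hnd hE hc hl hex
        obtain ⟨e, he, hel⟩ := hex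
        have h3 := h1 l hnd (fun e he => Pool.Agent.Helper40.K9.mem_EE.1 (hE e he)) hc hl
          ⟨e, Pool.Agent.Helper40.K9.mem_EE.1 he, hel⟩
        exact ⟨Pool.Agent.Helper40.K9.mem_EE.2 h3.1, h3.2⟩)
    obtain ⟨S, hS, hS2⟩ := h2 l hnd (fun e he => Pool.Agent.Helper40.K9.mem_EE.1 (hE e he))
      (fun e he => hall e (Pool.Agent.Helper40.K9.mem_EE.2 he)) hc
    apply hT
    refine ⟨S, hS, ?_⟩
    intro a ha b hb hab
    obtain ⟨i, hi, hi2, hie⟩ := hS2 a ha b hb hab
    rw [← hie]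
    exact Pool.Agent.Helper40.Game.mem_cls_of_getElem hnd hi hi2
  · -- on all boards with at least nine vertices one of the players can force the other
    intro N hN
    obtain ⟨p, r, hpr, σ, h1, h2⟩ := Pool.Agent.Helper40.K9.win_all N hN
    have key : ∃ σ : List (Sym2 (Fin N)) → Sym2 (Fin N),
          (∀ l : List (Sym2 (Fin N)), l.Nodup → (∀ e ∈ l, ¬ e.IsDiag) →
            (∀ (i : ℕ) (h : i < l.length), i % 2 = p → l[i]'h = σ (l.take i)) →
            l.length % 2 = p →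
            (∃ e : Sym2 (Fin N), ¬ e.IsDiag ∧ e ∉ l) →
            (¬ (σ l).IsDiag ∧ σ l ∉ l)) ∧
          (∀ l : List (Sym2 (Fin N)), l.Nodup → (∀ e ∈ l, ¬ e.IsDiag) →
            (∀ e : Sym2 (Fin N), ¬ e.IsDiag → e ∈ l) →
            (∀ (i : ℕ) (h : i < l.length), i % 2 = p → l[i]'h = σ (l.take i)) →
            ∃ S : Finset (Fin N), S.card = 4 ∧
              ∀ a ∈ S, ∀ b ∈ S, a ≠ b →
                ∃ (i : ℕ) (h : i < l.length), i % 2 = r ∧ l[i]'h = s(a, b)) := by
      refine ⟨σ, ?_, ?_⟩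
      · intro l hnd hE hc hl hex
        obtain ⟨e, he, hel⟩ := hex
        have h3 := h1 l hnd (fun e he => Pool.Agent.Helper40.K9.mem_EE.2 (hE e he)) hc hl
          ⟨e, Pool.Agent.Helper40.K9.mem_EE.2 he, hel⟩
        exact ⟨Pool.Agent.Helper40.K9.mem_EE.1 h3.1, h3.2⟩
      · intro l hnd hE hall hc
        obtain ⟨S, hS, hS2⟩ := h2 l hnd (fun e he => Pool.Agent.Helper40.K9.mem_EE.2 (hE e he))
          (fun e he => hall e (Pool.Agent.Helper40.K9.mem_EE.1 he)) hc
        refine ⟨S, hS, ?_⟩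
        intro a ha b hb hab
        exact Pool.Agent.Helper40.Game.exists_of_mem_cls (hS2 a ha b hb hab)
    rcases hpr with ⟨rfl, rfl⟩ | ⟨rfl, rfl⟩
    · exact Or.inl key
    · exact Or.inr key

end Pool.Agent.S04904
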