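import Pool.Statements.S04910
-- import your own Pool.Agent.* helpers here
import Pool.Agent.Helper244.RB.Main

set_option autoImplicit false
open Pool Pool.MP_1d59ee_co

namespace Pool.Agent.S04910

/-- The negation of the preceding statement: For d≥3 and every finite graph G of max degree ≤d that is non-bipartite, d-colourable and not admitting K_d, there is a finite graph of max degree ≤d with no homomorphism to or from G. -/
theorem result :
    ¬ (∀ d : ℕ, 3 ≤ d →
      ∀ (V : Type) [Finite V] (G : SimpleGraph V),
        (∀ v : V, (G.neighborSet v).ncard ≤ d) →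
        Nonempty ((⊤ : SimpleGraph (Fin 2)) →g G) →
        IsEmpty (G →g (⊤ : SimpleGraph (Fin 2))) →
        Nonempty (G →g (⊤ : SimpleGraph (Fin d))) →
        IsEmpty ((⊤ : SimpleGraph (Fin d)) →g G) →
        ∃ (W : Type) (_ : Finite W) (H : SimpleGraph W),
          (∀ w : W, (H.neighborSet w).ncard ≤ d) ∧
          IsEmpty (G →g H) ∧ IsEmpty (H →g G)) := by
  intro hall
  obtain ⟨d, hd, hcol⟩ := Pool.Agent.Helper244.RB.weak_reed
  have homInj : ∀ (m n : ℕ), m ≤ n →
      Nonempty ((⊤ : SimpleGraph (Fin m)) →g (⊤ : SimpleGraph (Fin n))) := by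
    intro m n hmn
    refine ⟨⟨Fin.castLE hmn, ?_⟩⟩
    intro a b hab
    rw [SimpleGraph.top_adj] at hab ⊢
    exact fun h => hab (Fin.castLE_injective hmn h)
  have homNo : ∀ (m n : ℕ), n < m →
      IsEmpty ((⊤ : SimpleGraph (Fin m)) →g (⊤ : SimpleGraph (Fin n))) := by
    intro m n hmn
    refine ⟨fun f => ?_⟩
    obtain ⟨a, b, hab, h⟩ := Fintype.exists_ne_map_eq_of_card_lt (fun x => f x) (by simpa using hmn)
    have := f.map_adj (show (⊤ : SimpleGraph (Fin m)).Adj a b from hab)
    rw [SimpleGraph.top_adj] at this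
    exact this h
  obtain ⟨W, hW, H, hdeg, hGH, hHG⟩ := hall d (by omega) (Fin (d - 1)) ⊤
    (fun v => by
      refine (Set.ncard_le_ncard (Set.subset_univ _) Set.finite_univ).trans ?_
      rw [Set.ncard_univ, Nat.card_eq_fintype_card, Fintype.card_fin]
      omega)
    (homInj 2 (d - 1) (by omega)) (homNo (d - 1) 2 (by omega)) (homInj (d - 1) d (by omega))
    (homNo d (d - 1) (by omega))
  have := Fintype.ofFinite W
  have hc : H.Colorable (d - 1) := by
    refine hcol W H ?_ ?_
    · intro w
      have h1 := hdeg w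
      have h2 : H.neighborSet w = (Pool.Agent.Helper244.RB.nb H w : Set W) := by
        ext x
        rw [SimpleGraph.mem_neighborSet, Finset.mem_coe, Pool.Agent.Helper244.RB.mem_nb]
      rw [h2, Set.ncard_coe_finset] at h1
      exact h1
    · intro K hK
      by_contra hlt
      have h1 : d - 1 ≤ K.card := by omega
      obtain ⟨K', hK', hc'⟩ := Finset.exists_subset_card_eq h1
      refine hGH.false ⟨fun i => ((K'.equivFinOfCardEq hc').symm i : W), ?_⟩
      intro i j hij
      rw [SimpleGraph.top_adj] at hij
      refine hK _ (hK' (Subtype.property _)) _ (hK' (Subtype.property _)) ?_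
      intro h
      exact hij ((K'.equivFinOfCardEq hc').symm.injective (Subtype.ext h))
  obtain ⟨c⟩ := hc
  exact hHG.false c

end Pool.Agent.S04910
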