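import Pool.Statements.S04918
import Mathlib

set_option autoImplicit false
open Matrix
open Pool Pool.MP_1debbc_co

namespace Pool.Agent.S04918

lemma final_form (X xv SN QN P Q θ : ℝ)
    (hT : 0 ≤ 2 * (P ^ 2 - Q - (X - 2 * xv * SN)) + 2 * (Q + QN) - 4 * θ * (P + SN) + θ ^ 2 * 10)
    (hCN : SN ^ 2 ≤ 3 * QN) (hCW : (P - SN) ^ 2 ≤ 4 * (Q - QN))
    (hθ : θ = (2 * SN + (P - SN)) / 5) :
    X ≤ (34 / 7) * (xv ^ 2 + Q) := by
  obtain ⟨W, hW⟩ : ∃ W, W = P - SN := ⟨_, rfl⟩
  have hP' : P = SN + W := by linarith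
  subst hP'
  have hθ' : θ = (2 * SN + W) / 5 := by rw [hθ]; ring
  subst hθ'
  have hX' : X ≤ (SN + W) ^ 2 + 2 * xv * SN + QN - (2 * SN + W) ^ 2 / 5 := by linarith
  have hCW' : W ^ 2 ≤ 4 * (Q - QN) := by
    have : SN + W - SN = W := by ring
    rw [this] at hCW
    exact hCW
  have hq : 0 ≤ 34 / 7 * xv ^ 2 + 17 / 14 * W ^ 2 + 9 / 7 * SN ^ 2 - (SN + W) ^ 2 - 2 * xv * SN
      + (2 * SN + W) ^ 2 / 5 := by
    have h1 : 0 ≤ 34 / 7 * (xv - 7 / 34 * SN) ^ 2 := by positivity
    have h2 : 0 ≤ 1047 / 1190 * (SN - 714 / 1047 * W) ^ 2 := by positivity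
    have h3 : 0 ≤ (29 / 70 - 1047 / 1190 * (714 / 1047) ^ 2) * W ^ 2 := by
      apply mul_nonneg (by norm_num) (sq_nonneg _)
    have h4 : 34 / 7 * xv ^ 2 + 17 / 14 * W ^ 2 + 9 / 7 * SN ^ 2 - (SN + W) ^ 2 - 2 * xv * SN
      + (2 * SN + W) ^ 2 / 5 = 34 / 7 * (xv - 7 / 34 * SN) ^ 2
        + 1047 / 1190 * (SN - 714 / 1047 * W) ^ 2
        + (29 / 70 - 1047 / 1190 * (714 / 1047) ^ 2) * W ^ 2 := by ring
    rw [h4]
    linarith
  linarith

/-- Core inequality. -/
lemma core (A : Fin 8 → Fin 8 → ℝ) (v : Fin 8) (h01 : ∀ i j, A i j ≤ 1)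
    (h0 : ∀ i j, 0 ≤ A i j)
    (hsymm : ∀ i j, A i j = A j i) (hdiag : ∀ i, A i i = 0)
    (hv : ∑ j, A v j = 3) (hrow : ∀ i, i ≠ v → ∑ j, A i j = 5) (hA2 : ∀ j, A v j * A v j = A v j)
    (x : Fin 8 → ℝ) :
    ∑ i, ∑ j, A i j * (x i * x j) ≤ (34 / 7) * ∑ i, x i ^ 2 := by
  classical
  set e : Fin 8 → ℝ := fun i => if i = v then 0 else 1 with he
  -- row sums
  have hd : ∀ i, ∑ j, A i j = 3 + 2 * e i := by
    intro i
    by_cases hi : i = v
    · subst hi; simp [he, hv]
    · simp only [he, hi, if_false]; rw [hrow i hi]; norm_num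
  -- basic sums
  set xv := x v with hxv
  set SN := ∑ j, A v j * x j with hSN
  set QN := ∑ j, A v j * x j ^ 2 with hQN
  set P := ∑ i, e i * x i with hP
  set Q := ∑ i, e i * x i ^ 2 with hQ
  set X := ∑ i, ∑ j, A i j * (x i * x j) with hX
  have hE : ∑ i, e i = 7 := by
    simp only [he]
    rw [Finset.sum_ite, Finset.sum_const_zero, zero_add, Finset.sum_const, Finset.filter_ne']
    simp
  have hsplit : ∀ f : Fin 8 → ℝ, ∑ i, f i = f v + ∑ i, e i * f i := by
    intro f
    have h1 : ∀ i, f i = (if i = v then f i else 0) + e i * f i := by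
      intro i; by_cases hi : i = v <;> simp [he, hi]
    calc ∑ i, f i = ∑ i, ((if i = v then f i else 0) + e i * f i) :=
          Finset.sum_congr rfl (fun i _ => h1 i)
      _ = f v + ∑ i, e i * f i := by
          rw [Finset.sum_add_distrib]; simp
  have hx2 : ∑ i, x i ^ 2 = xv ^ 2 + Q := hsplit _
  have heA : ∀ j, e j * A v j = A v j := by
    intro j; by_cases hj : j = v
    · subst hj; simp [hdiag]
    · simp [he, hj]
  set θ := (2 * SN + (P - SN)) / 5 with hθ
  -- the nonnegative sum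
  have hT : 0 ≤ ∑ i, ∑ j, e i * e j * (1 - A i j - if i = j then 1 else 0)
      * (x i + x j - θ) ^ 2 := by
    refine Finset.sum_nonneg (fun i _ => Finset.sum_nonneg (fun j _ => ?_))
    have hei : 0 ≤ e i := by simp only [he]; split_ifs <;> norm_num
    have hej : 0 ≤ e j := by simp only [he]; split_ifs <;> norm_num
    have h1 : 0 ≤ (1 - A i j - if i = j then (1:ℝ) else 0) := by
      by_cases hij : i = j
      · subst hij; simp [hdiag]
      · simp only [hij, if_false]; linarith [h01 i j]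
    positivity
  -- general expansion: sum over pairs of M i j * (x i + x j - θ)^2 for symmetric M
  have hgen : ∀ M : Fin 8 → Fin 8 → ℝ, (∀ i j, M i j = M j i) →
      ∑ i, ∑ j, M i j * (x i + x j - θ) ^ 2 =
        2 * (∑ i, ∑ j, M i j * (x i * x j)) + 2 * (∑ i, (∑ j, M i j) * x i ^ 2)
        - 4 * θ * (∑ i, (∑ j, M i j) * x i) + θ ^ 2 * ∑ i, ∑ j, M i j := by
    intro M hM
    have hcomm1 : ∑ i, ∑ j, M i j * x j ^ 2 = ∑ i, (∑ j, M i j) * x i ^ 2 := by
      rw [Finset.sum_comm]
      refine Finset.sum_congr rfl (fun i _ => ?_)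
      rw [Finset.sum_mul]
      exact Finset.sum_congr rfl (fun j _ => by rw [hM])
    have hcomm2 : ∑ i, ∑ j, M i j * x j = ∑ i, (∑ j, M i j) * x i := by
      rw [Finset.sum_comm]
      refine Finset.sum_congr rfl (fun i _ => ?_)
      rw [Finset.sum_mul]
      exact Finset.sum_congr rfl (fun j _ => by rw [hM])
    have h1 : ∀ i j, M i j * (x i + x j - θ) ^ 2 =
        2 * (M i j * (x i * x j)) + M i j * x i ^ 2 + M i j * x j ^ 2
        - 2 * θ * (M i j * x i) - 2 * θ * (M i j * x j) + θ ^ 2 * M i j := by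
      intro i j; ring
    simp_rw [h1, Finset.sum_add_distrib, Finset.sum_sub_distrib, Finset.sum_add_distrib,
      ← Finset.mul_sum, hcomm1, hcomm2, ← Finset.sum_mul]
    ring
  set M : Fin 8 → Fin 8 → ℝ := fun i j => e i * e j * (1 - A i j - if i = j then 1 else 0) with hM
  have hMs : ∀ i j, M i j = M j i := by
    intro i j
    simp only [hM]
    rw [hsymm i j]
    by_cases hij : i = j
    · subst hij; ring
    · have hji : ¬ j = i := fun h => hij h.symm
      simp only [hij, hji, if_false]; ring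
  have hMrow : ∀ i, ∑ j, M i j = e i * (1 + A v i) := by
    intro i
    by_cases hi : i = v
    · subst hi; simp [hM, he]
    · have hei : e i = 1 := by simp [he, hi]
      have h2 : ∀ j, M i j = e j - e j * A i j - (if i = j then e j else 0) := by
        intro j
        simp only [hM, hei]
        split_ifs <;> ring
      have h3 : ∑ j, e j * A i j = 5 - A i v := by
        have := hsplit (fun j => A i j)
        rw [hd i, hei] at this
        linarith
      simp_rw [h2, Finset.sum_sub_distrib, hE, h3]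
      rw [Finset.sum_ite_eq]
      simp only [Finset.mem_univ, if_true, hei]
      rw [hsymm i v]
      ring
  have hT2 := hgen M hMs
  rw [hT2] at hT
  -- evaluate the pieces
  have hXY : ∑ i, ∑ j, M i j * (x i * x j) = P ^ 2 - Q - (X - 2 * xv * SN) := by
    have h1 : ∀ i j, M i j * (x i * x j) =
        (e i * x i) * (e j * x j) - (e i * (e j * (A i j * (x i * x j))))
          - (if i = j then (e i * x i) * (e j * x j) else 0) := by
      intro i j; simp only [hM]; split_ifs <;> ring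
    simp_rw [h1, Finset.sum_sub_distrib]
    have h2 : ∑ i, ∑ j, (e i * x i) * (e j * x j) = P ^ 2 := by
      rw [hP, sq, Finset.sum_mul_sum]
    have h3 : ∑ i, ∑ j, (if i = j then (e i * x i) * (e j * x j) else 0) = Q := by
      rw [hQ]
      refine Finset.sum_congr rfl (fun i _ => ?_)
      rw [Finset.sum_ite_eq]
      simp only [Finset.mem_univ, if_true]
      have : e i * e i = e i := by simp only [he]; split_ifs <;> norm_num
      calc e i * x i * (e i * x i) = (e i * e i) * x i ^ 2 := by ring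
        _ = _ := by rw [this]
    have h4 : ∑ i, ∑ j, (e i * (e j * (A i j * (x i * x j)))) = X - 2 * xv * SN := by
      have h5 : ∀ i, ∑ j, (e i * (e j * (A i j * (x i * x j)))) =
          e i * (∑ j, A i j * (x i * x j)) - e i * (A v i * (x i * xv)) := by
        intro i
        rw [← Finset.mul_sum]
        have := hsplit (fun j => A i j * (x i * x j))
        rw [hsymm v i]
        rw [this]; ring
      simp_rw [h5, Finset.sum_sub_distrib]
      have h6 := hsplit (fun i => ∑ j, A i j * (x i * x j))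
      have h7 : ∑ j, A v j * (x v * x j) = xv * SN := by
        rw [hSN, Finset.mul_sum]; exact Finset.sum_congr rfl (fun j _ => by ring)
      have h8 : ∑ i, e i * (A v i * (x i * xv)) = xv * SN := by
        rw [hSN, Finset.mul_sum]
        refine Finset.sum_congr rfl (fun j _ => ?_)
        rw [← mul_assoc, heA]; ring
      rw [h8]
      have h9 : ∑ i, ∑ j, A i j * (x i * x j) = xv * SN + ∑ i, e i * (∑ j, A i j * (x i * x j)) := by
        rw [← h7]; exact h6
      linarith
    rw [h2, h3, h4]; ring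
  have hR2 : ∑ i, (∑ j, M i j) * x i ^ 2 = Q + QN := by
    simp_rw [hMrow]
    rw [hQ, hQN, ← Finset.sum_add_distrib]
    refine Finset.sum_congr rfl (fun i _ => ?_)
    have := heA i
    calc e i * (1 + A v i) * x i ^ 2 = e i * x i ^ 2 + (e i * A v i) * x i ^ 2 := by ring
      _ = _ := by rw [this]
  have hR1 : ∑ i, (∑ j, M i j) * x i = P + SN := by
    simp_rw [hMrow]
    rw [hP, hSN, ← Finset.sum_add_distrib]
    refine Finset.sum_congr rfl (fun i _ => ?_)
    have := heA i
    calc e i * (1 + A v i) * x i = e i * x i + (e i * A v i) * x i := by ring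
      _ = _ := by rw [this]
  have hR0 : ∑ i, ∑ j, M i j = 10 := by
    simp_rw [hMrow]
    have : ∀ i, e i * (1 + A v i) = e i + A v i := by
      intro i; have := heA i; linarith
    simp_rw [this, Finset.sum_add_distrib, hE, hv]
    norm_num
  rw [hXY, hR2, hR1, hR0] at hT
  -- Cauchy for N and W
  have hCN : SN ^ 2 ≤ 3 * QN := by
    have h1 : 0 ≤ ∑ j, A v j * (x j - SN / 3) ^ 2 :=
      Finset.sum_nonneg (fun j _ => mul_nonneg (h0 v j) (sq_nonneg _))
    have h2 : ∑ j, A v j * (x j - SN / 3) ^ 2 = QN - 2 * (SN / 3) * SN + (SN / 3) ^ 2 * 3 := by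
      have : ∀ j, A v j * (x j - SN / 3) ^ 2 =
          A v j * x j ^ 2 - 2 * (SN / 3) * (A v j * x j) + (SN / 3) ^ 2 * A v j := by
        intro j; ring
      simp_rw [this, Finset.sum_add_distrib, Finset.sum_sub_distrib, ← Finset.mul_sum]
      rw [hv]
    rw [h2] at h1
    nlinarith
  have hCW : (P - SN) ^ 2 ≤ 4 * (Q - QN) := by
    have hw : ∀ j, 0 ≤ e j - A v j := by
      intro j; by_cases hj : j = v
      · subst hj; simp [he, hdiag]
      · simp only [he, hj, if_false]; linarith [h01 v j]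
    have h1 : 0 ≤ ∑ j, (e j - A v j) * (x j - (P - SN) / 4) ^ 2 :=
      Finset.sum_nonneg (fun j _ => mul_nonneg (hw j) (sq_nonneg _))
    have h2 : ∑ j, (e j - A v j) * (x j - (P - SN) / 4) ^ 2 =
        (Q - QN) - 2 * ((P - SN) / 4) * (P - SN) + ((P - SN) / 4) ^ 2 * 4 := by
      have : ∀ j, (e j - A v j) * (x j - (P - SN) / 4) ^ 2 =
          (e j * x j ^ 2 - A v j * x j ^ 2)
            - 2 * ((P - SN) / 4) * (e j * x j - A v j * x j)
            + ((P - SN) / 4) ^ 2 * (e j - A v j) := by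
        intro j; ring
      simp_rw [this, Finset.sum_add_distrib, Finset.sum_sub_distrib, ← Finset.mul_sum,
        Finset.sum_sub_distrib]
      rw [hv, hE]; ring
    rw [h2] at h1
    nlinarith
  rw [hx2]
  exact final_form X xv SN QN P Q θ hT hCN hCW hθ

/-- The comparison graph: vertex 0 is a leaf attached to vertex 4, all other degrees are 5. -/
def adjB (a b : Fin 8) : Bool :=
  decide ((a.val, b.val) ∈ [(0, 4), (1, 2), (1, 3), (1, 4), (1, 5), (1, 6), (2, 3), (2, 4),
    (2, 6), (2, 7), (3, 5), (3, 6), (3, 7), (4, 5), (4, 7), (5, 6), (5, 7), (6, 7)]) ||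
  decide ((b.val, a.val) ∈ [(0, 4), (1, 2), (1, 3), (1, 4), (1, 5), (1, 6), (2, 3), (2, 4),
    (2, 6), (2, 7), (3, 5), (3, 6), (3, 7), (4, 5), (4, 7), (5, 6), (5, 7), (6, 7)])

def H0 : SimpleGraph (Fin 8) where
  Adj a b := adjB a b = true
  symm := ⟨by decide⟩
  loopless := ⟨by decide⟩

instance : DecidableRel H0.Adj := fun a b => inferInstanceAs (Decidable (adjB a b = true))

/-- The largest eigenvalue as in the statement. -/
noncomputable def rad (G : SimpleGraph (Fin 8)) [DecidableRel G.Adj] : ℝ :=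
  sSup {r : ℝ | ∃ x : Fin 8 → ℝ, x ⬝ᵥ x = 1 ∧ r = x ⬝ᵥ (G.adjMatrix ℝ *ᵥ x)}

lemma form_eq (G : SimpleGraph (Fin 8)) [DecidableRel G.Adj] (x : Fin 8 → ℝ) :
    x ⬝ᵥ (G.adjMatrix ℝ *ᵥ x) = ∑ i, ∑ j, G.adjMatrix ℝ i j * (x i * x j) := by
  simp only [dotProduct, mulVec, Finset.mul_sum]
  refine Finset.sum_congr rfl (fun i _ => Finset.sum_congr rfl (fun j _ => ?_))
  ring

lemma bdd (G : SimpleGraph (Fin 8)) [DecidableRel G.Adj] :
    BddAbove {r : ℝ | ∃ x : Fin 8 → ℝ, x ⬝ᵥ x = 1 ∧ r = x ⬝ᵥ (G.adjMatrix ℝ *ᵥ x)} := by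
  refine ⟨8, ?_⟩
  rintro r ⟨x, hx, rfl⟩
  rw [form_eq]
  have h1 : ∀ i j, G.adjMatrix ℝ i j * (x i * x j) ≤ x i ^ 2 / 2 + x j ^ 2 / 2 := by
    intro i j
    rw [SimpleGraph.adjMatrix_apply]
    split_ifs
    · nlinarith [sq_nonneg (x i - x j)]
    · nlinarith [sq_nonneg (x i), sq_nonneg (x j)]
  have h2 : ∑ i, x i ^ 2 = 1 := by
    rw [← hx]; simp only [dotProduct]
    exact Finset.sum_congr rfl (fun i _ => by ring)
  calc ∑ i, ∑ j, G.adjMatrix ℝ i j * (x i * x j)
      ≤ ∑ i, ∑ j, (x i ^ 2 / 2 + x j ^ 2 / 2) :=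
        Finset.sum_le_sum (fun i _ => Finset.sum_le_sum (fun j _ => h1 i j))
    _ = 8 := by
        have h3 : ∑ i, ∑ j, (x i ^ 2 / 2 + x j ^ 2 / 2) = 8 * ∑ i, x i ^ 2 := by
          simp only [Fin.sum_univ_eight]
          ring
        rw [h3, h2]
        norm_num

lemma rad_lower : (860 / 176 : ℝ) ≤ rad H0 := by
  apply le_csSup (bdd H0)
  obtain ⟨c, hc⟩ : ∃ c : ℝ, c ^ 2 = 1 / 176 := ⟨Real.sqrt (1 / 176), Real.sq_sqrt (by norm_num)⟩
  refine ⟨fun i => if i = 0 then c else 5 * c, ?_, ?_⟩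
  · simp only [dotProduct, Fin.sum_univ_eight]
    simp [Fin.ext_iff]
    nlinarith
  · rw [form_eq]
    have h1 : ∀ i j : Fin 8, H0.adjMatrix ℝ i j *
        ((if i = 0 then c else 5 * c) * (if j = 0 then c else 5 * c)) =
        ((H0.adjMatrix ℕ i j * ((if i = 0 then 1 else 5) * (if j = 0 then 1 else 5)) : ℕ) : ℝ)
          * c ^ 2 := by
      intro i j
      simp only [SimpleGraph.adjMatrix_apply]
      split_ifs <;> push_cast <;> ring
    simp_rw [h1, ← Finset.sum_mul, ← Nat.cast_sum]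
    have h2 : (∑ i : Fin 8, ∑ j : Fin 8, (H0.adjMatrix ℕ i j *
        ((if i = 0 then 1 else 5) * (if j = 0 then 1 else 5)))) = 860 := by
      decide
    rw [h2, hc]
    norm_num

lemma rad_upper (G : SimpleGraph (Fin 8)) [DecidableRel G.Adj] (v : Fin 8)
    (hv : G.degree v = 3) (hw : ∀ w, w ≠ v → G.degree w = 5) : rad G ≤ 34 / 7 := by
  apply csSup_le
  · refine ⟨_, fun i => if i = 0 then 1 else 0, ?_, rfl⟩
    simp [dotProduct]
  · rintro r ⟨x, hx, rfl⟩
    rw [form_eq]
    have hsum : ∀ i, ∑ j, G.adjMatrix ℝ i j = G.degree i := by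
      intro i
      have := G.adjMatrix_mulVec_const_apply (α := ℝ) (a := 1) (v := i)
      simpa [mulVec, dotProduct] using this
    have h2 : ∑ i, x i ^ 2 = 1 := by
      rw [← hx]; simp only [dotProduct]
      exact Finset.sum_congr rfl (fun i _ => by ring)
    have := core (fun i j => G.adjMatrix ℝ i j) v
      (by intro i j; simp only [SimpleGraph.adjMatrix_apply]; split_ifs <;> norm_num)
      (by intro i j; simp only [SimpleGraph.adjMatrix_apply]; split_ifs <;> norm_num)
      (by intro i j; simp only [SimpleGraph.adjMatrix_apply, G.adj_comm])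
      (by intro i; simp)
      (by rw [hsum, hv]; norm_num)
      (by intro i hi; rw [hsum, hw i hi]; norm_num)
      (by intro j; simp only [SimpleGraph.adjMatrix_apply]; split_ifs <;> norm_num)
      x
    rw [h2] at this
    linarith

/-- The graphs competing in the extremal problem. -/
def comp : Set (SimpleGraph (Fin 8)) :=
  {G | ∃ _ : DecidableRel G.Adj, G.Connected ∧ G.maxDegree = 5 ∧
    ∀ d : ℕ, ¬ G.IsRegularOfDegree d}

lemma H0_connected : H0.Connected := by
  have e : ∀ a b, H0.Adj a b → H0.Reachable a b := fun a b h => h.reachable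
  have h4 : H0.Reachable 4 4 := SimpleGraph.Reachable.refl _
  have h0 : H0.Reachable 4 0 := e _ _ (by decide)
  have h1 : H0.Reachable 4 1 := e _ _ (by decide)
  have h2 : H0.Reachable 4 2 := e _ _ (by decide)
  have h5 : H0.Reachable 4 5 := e _ _ (by decide)
  have h7 : H0.Reachable 4 7 := e _ _ (by decide)
  have h3 : H0.Reachable 4 3 := h1.trans (e _ _ (by decide))
  have h6 : H0.Reachable 4 6 := h1.trans (e _ _ (by decide))
  have hall : ∀ v, H0.Reachable 4 v := by
    intro v; fin_cases v <;> assumption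
  have hp : H0.Preconnected := fun u v => (hall u).symm.trans (hall v)
  exact SimpleGraph.connected_iff _ |>.mpr ⟨hp, ⟨0⟩⟩

lemma H0_maxDegree : H0.maxDegree = 5 := by
  apply le_antisymm
  · apply SimpleGraph.maxDegree_le_of_forall_degree_le
    decide
  · have h : H0.degree 1 = 5 := by decide
    rw [← h]
    exact H0.degree_le_maxDegree 1

lemma H0_nonregular (d : ℕ) : ¬ H0.IsRegularOfDegree d := by
  intro h
  have h0 : H0.degree 0 = 1 := by decide
  have h1 : H0.degree 1 = 5 := by decide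
  have h2 := h 0
  have h3 := h 1
  omega

/-- The negation of the preceding statement: For 3 ≤ Δ ≤ n−2, every connected nonregular n-vertex graph of max degree Δ with the largest adjacency spectral radius among such graphs has one vertex of degree δ and all others of degree Δ. Here δ = Δ−1 if nΔ is odd, else Δ−2. -/
theorem result :
    ¬ (∀ (n Δ : ℕ), 3 ≤ Δ → Δ ≤ n - 2 →
      ∀ (G : SimpleGraph (Fin n)) [DecidableRel G.Adj],
        G.Connected → G.maxDegree = Δ → (∀ d : ℕ, ¬ G.IsRegularOfDegree d) →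
        (∀ (H : SimpleGraph (Fin n)) [DecidableRel H.Adj],
            H.Connected → H.maxDegree = Δ → (∀ d : ℕ, ¬ H.IsRegularOfDegree d) →
            sSup {r : ℝ | ∃ x : Fin n → ℝ, x ⬝ᵥ x = 1 ∧ r = x ⬝ᵥ (H.adjMatrix ℝ *ᵥ x)} ≤
              sSup {r : ℝ | ∃ x : Fin n → ℝ, x ⬝ᵥ x = 1 ∧ r = x ⬝ᵥ (G.adjMatrix ℝ *ᵥ x)}) →
        ∃ v : Fin n, G.degree v = (if Odd (n * Δ) then Δ - 1 else Δ - 2) ∧
          ∀ w : Fin n, w ≠ v → G.degree w = Δ) := by
  intro hall
  classical
  obtain ⟨G, hG, hmax⟩ := Set.exists_max_image comp (fun G => rad G) (Set.toFinite _)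
    ⟨H0, inferInstance, H0_connected, H0_maxDegree, H0_nonregular⟩
  obtain ⟨inst, hc, hD, hr⟩ := hG
  have key : ∀ (G : SimpleGraph (Fin 8)) (i1 i2 : DecidableRel G.Adj),
      @rad G i1 = @rad G i2 := by
    intro G i1 i2
    congr
  obtain ⟨v, hv, hw⟩ := @hall 8 5 (by norm_num) (by norm_num) G inst hc hD hr (by
    intro H instH h1 h2 h3
    have h4 := hmax H ⟨instH, h1, h2, h3⟩
    have e1 := key H instH (fun a b => Classical.propDecidable _)
    have e2 := key G inst (fun a b => Classical.propDecidable _)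
    change @rad H instH ≤ @rad G inst
    rw [e1, e2]
    exact h4)
  rw [if_neg (by decide)] at hv
  have hup := @rad_upper G inst v hv hw
  have h4 := hmax H0 ⟨inferInstance, H0_connected, H0_maxDegree, H0_nonregular⟩
  have hlow := rad_lower
  have e2 := key G inst (fun a b => Classical.propDecidable _)
  have e3 := key H0 (inferInstance) (fun a b => Classical.propDecidable _)
  rw [e2] at hup
  rw [e3] at hlow
  have h5 : (860 / 176 : ℝ) ≤ 34 / 7 := hlow.trans (h4.trans hup)
  norm_num at h5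

end Pool.Agent.S04918
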