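import Pool.Statements.S04938

set_option autoImplicit false
open Pool Pool.MP_1f0029_co

namespace Pool.Agent.S04938

open Finset
open scoped Classical

variable {V : Type} 

/-- no two elements of `s` are adjacent. -/
def Ind (G : SimpleGraph V) (s : Finset V) : Prop := ∀ x ∈ s, ∀ y ∈ s, ¬ G.Adj x y

/-- number of independent subsets of `A`. -/
noncomputable def cnt (G : SimpleGraph V) (A : Finset V) : ℕ :=
  ∑ s ∈ A.powerset, if Ind G s then 1 else 0

lemma Ind.mono {G : SimpleGraph V} {s t : Finset V} (h : Ind G t) (hst : s ⊆ t) : Ind G s :=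
  fun x hx y hy => h x (hst hx) y (hst hy)

lemma ind_empty (G : SimpleGraph V) : Ind G ∅ := by
  intro x hx; simp at hx

lemma ind_singleton (G : SimpleGraph V) (v : V) : Ind G {v} := by
  intro x hx y hy
  simp only [mem_singleton] at hx hy
  subst hx; subst hy
  exact G.loopless.irrefl _

lemma ind_insert (G : SimpleGraph V) (v : V) (s : Finset V) :
    Ind G (insert v s) ↔ Ind G s ∧ ∀ u ∈ s, ¬ G.Adj v u := by
  constructor
  · intro h
    refine ⟨h.mono (subset_insert _ _), fun u hu => h v (mem_insert_self _ _) u (mem_insert_of_mem hu)⟩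
  · rintro ⟨h1, h2⟩ x hx y hy
    rw [mem_insert] at hx hy
    rcases hx with rfl | hx <;> rcases hy with rfl | hy
    · exact G.loopless.irrefl _
    · exact h2 y hy
    · intro h; exact h2 x hx h.symm
    · exact h1 x hx y hy

lemma sum_powerset_filter_nonadj (G : SimpleGraph V) (A : Finset V) (v : V) (g : Finset V → ℕ) :
    (∑ s ∈ A.powerset, if (∀ u ∈ s, ¬ G.Adj v u) then g s else 0)
      = ∑ s ∈ (A.filter (fun u => ¬ G.Adj v u)).powerset, g s := by
  rw [← Finset.sum_filter]
  apply Finset.sum_congr _ (fun _ _ => rfl)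
  ext s
  simp only [mem_filter, mem_powerset]
  constructor
  · rintro ⟨h1, h2⟩ x hx
    rw [mem_filter]
    exact ⟨h1 hx, h2 x hx⟩
  · intro h
    refine ⟨fun x hx => (mem_filter.1 (h hx)).1, fun u hu => (mem_filter.1 (h hu)).2⟩

lemma cnt_insert (G : SimpleGraph V) {A : Finset V} {v : V} (hv : v ∉ A) :
    cnt G (insert v A) = cnt G A + cnt G (A.filter (fun u => ¬ G.Adj v u)) := by
  unfold cnt
  rw [Finset.sum_powerset_insert hv]
  congr 1
  rw [← sum_powerset_filter_nonadj]
  apply Finset.sum_congr rfl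
  intro s _
  by_cases h1 : Ind G s <;> by_cases h2 : ∀ u ∈ s, ¬ G.Adj v u <;>
    simp [ind_insert, h1, h2]

lemma cnt_mono (G : SimpleGraph V) {A B : Finset V} (h : A ⊆ B) : cnt G A ≤ cnt G B := by
  unfold cnt
  exact Finset.sum_le_sum_of_subset (Finset.powerset_mono.2 h)

lemma cnt_pos (G : SimpleGraph V) (A : Finset V) : 1 ≤ cnt G A := by
  unfold cnt
  have : (if Ind G ∅ then 1 else 0) ≤ ∑ s ∈ A.powerset, if Ind G s then 1 else 0 :=
    Finset.single_le_sum (f := fun s => if Ind G s then 1 else 0) (fun _ _ => Nat.zero_le _)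
      (Finset.empty_mem_powerset A)
  simpa [ind_empty] using this

lemma cnt_le (G : SimpleGraph V) (A : Finset V) : cnt G A ≤ 2 ^ A.card := by
  unfold cnt
  calc _ ≤ ∑ s ∈ A.powerset, 1 := Finset.sum_le_sum (fun s _ => by split_ifs <;> omega)
    _ = 2 ^ A.card := by simp

lemma cnt_of_ind (G : SimpleGraph V) {A : Finset V} (h : Ind G A) : cnt G A = 2 ^ A.card := by
  unfold cnt
  rw [← Finset.card_powerset, Finset.card_eq_sum_ones]
  apply Finset.sum_congr rfl
  intro s hs
  rw [if_pos (h.mono (mem_powerset.1 hs))]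

lemma cnt_le_insert (G : SimpleGraph V) (A : Finset V) (v : V) :
    cnt G (insert v A) ≤ 2 * cnt G A := by
  by_cases hv : v ∈ A
  · rw [insert_eq_of_mem hv]; omega
  · rw [cnt_insert G hv]
    have := cnt_mono G (A := A.filter (fun u => ¬ G.Adj v u)) (B := A) (filter_subset _ _)
    omega

lemma cnt_edge (G : SimpleGraph V) {A : Finset V} {u v : V} (hu : u ∉ A) (hv : v ∉ A)
    (huv : G.Adj u v) : cnt G (insert u (insert v A)) ≤ 3 * cnt G A := by
  have hne : u ≠ v := G.ne_of_adj huv
  have h1 : u ∉ insert v A := by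
    rw [mem_insert]; push Not; exact ⟨hne, hu⟩
  rw [cnt_insert G h1]
  have h2 : (insert v A).filter (fun w => ¬ G.Adj u w) ⊆ A := by
    intro w hw
    rw [mem_filter, mem_insert] at hw
    rcases hw with ⟨rfl | h, h3⟩
    · exact absurd huv h3
    · exact h
  have h3 := cnt_mono G h2
  have h4 := cnt_le_insert G A v
  omega

/-- normalised count -/
noncomputable def f (G : SimpleGraph V) (A : Finset V) : ℚ := cnt G A / 2 ^ A.card

lemma f_pos (G : SimpleGraph V) (A : Finset V) : 0 < f G A := by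
  unfold f
  have := cnt_pos G A
  have h : (0 : ℚ) < cnt G A := by exact_mod_cast this
  positivity

lemma f_le_one (G : SimpleGraph V) (A : Finset V) : f G A ≤ 1 := by
  unfold f
  rw [div_le_one (by positivity)]
  exact_mod_cast cnt_le G A

lemma f_of_ind (G : SimpleGraph V) {A : Finset V} (h : Ind G A) : f G A = 1 := by
  unfold f
  rw [cnt_of_ind G h]
  push_cast
  field_simp

lemma ind_of_f (G : SimpleGraph V) {A : Finset V} (h : f G A = 1) : Ind G A := by
  by_contra hc
  unfold Ind at hc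
  push Not at hc
  obtain ⟨x, hx, y, hy, hxy⟩ := hc
  have hne : x ≠ y := G.ne_of_adj hxy
  set B := (A.erase x).erase y with hB
  have hxB : x ∉ B := by simp [hB]
  have hyB : y ∉ B := by simp [hB]
  have hA : insert x (insert y B) = A := by
    ext z
    simp only [hB, mem_insert, mem_erase]
    constructor
    · rintro (rfl | rfl | h)
      · exact hx
      · exact hy
      · exact h.2.2
    · intro hz
      by_cases h1 : z = x
      · exact Or.inl h1
      · by_cases h2 : z = y
        · exact Or.inr (Or.inl h2)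
        · exact Or.inr (Or.inr ⟨h2, h1, hz⟩)
  have h1 := cnt_edge G hxB hyB hxy
  rw [hA] at h1
  have h2 := cnt_le G B
  have h3 : A.card = B.card + 2 := by
    rw [← hA, card_insert_of_notMem, card_insert_of_notMem hyB]
    rw [mem_insert]; push Not; exact ⟨hne, hxB⟩
  unfold f at h
  rw [div_eq_one_iff_eq (by positivity)] at h
  have h4 : cnt G A = 2 ^ A.card := by exact_mod_cast h
  rw [h3, pow_add] at h4
  have : 0 < 2 ^ B.card := by positivity
  omega

/-- removing a vertex. -/
lemma f_erase (G : SimpleGraph V) {A : Finset V} {v : V} (hv : v ∈ A) :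
    0 < f G A - f G (A.erase v) / 2 ∧
    f G A - f G (A.erase v) / 2 ≤ (1 / 2) ^ (((A.filter (fun u => G.Adj v u)).card) + 1) := by
  have h0 : insert v (A.erase v) = A := insert_erase hv
  have h1 := cnt_insert G (notMem_erase v A)
  rw [h0] at h1
  have hc : A.card = (A.erase v).card + 1 := by
    rw [card_erase_of_mem hv]
    have : 0 < A.card := card_pos.2 ⟨v, hv⟩
    omega
  set B := (A.erase v).filter (fun u => ¬ G.Adj v u) with hB
  have hf : f G A - f G (A.erase v) / 2 = (cnt G B : ℚ) / 2 ^ A.card := by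
    unfold f
    rw [h1, hc]
    push_cast
    field_simp
    ring
  rw [hf]
  have h2 : (0 : ℚ) < cnt G B := by exact_mod_cast cnt_pos G B
  refine ⟨by positivity, ?_⟩
  have h3 : A.card = B.card + ((A.filter (fun u => G.Adj v u)).card + 1) := by
    rw [hc]
    have h4 := Finset.card_filter_add_card_filter_not (s := A.erase v) (fun u => G.Adj v u)
    have h5 : (A.erase v).filter (fun u => G.Adj v u) = A.filter (fun u => G.Adj v u) := by
      ext z
      simp only [mem_filter, mem_erase]
      constructor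
      · rintro ⟨⟨_, h⟩, h'⟩; exact ⟨h, h'⟩
      · rintro ⟨h, h'⟩; exact ⟨⟨(G.ne_of_adj h').symm, h⟩, h'⟩
    rw [h5] at h4
    rw [← hB] at h4
    omega
  rw [h3, pow_add, div_le_iff₀ (by positivity)]
  have h6 : (cnt G B : ℚ) ≤ 2 ^ B.card := by exact_mod_cast cnt_le G B
  calc (cnt G B : ℚ) ≤ 2 ^ B.card := h6
    _ = (1 / 2) ^ ((A.filter (fun u => G.Adj v u)).card + 1) *
        (2 ^ B.card * 2 ^ ((A.filter (fun u => G.Adj v u)).card + 1)) := by
      rw [one_div, inv_pow]; field_simp

lemma f_mono_erase (G : SimpleGraph V) {A : Finset V} {v : V} (hv : v ∈ A) :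
    f G A ≤ f G (A.erase v) := by
  unfold f
  have h0 : insert v (A.erase v) = A := insert_erase hv
  have h1 := cnt_le_insert G (A.erase v) v
  rw [h0] at h1
  have hc : A.card = (A.erase v).card + 1 := by
    rw [card_erase_of_mem hv]
    have : 0 < A.card := card_pos.2 ⟨v, hv⟩
    omega
  rw [hc, pow_succ, div_le_div_iff₀ (by positivity) (by positivity)]
  have h2 : (cnt G A : ℚ) ≤ 2 * cnt G (A.erase v) := by exact_mod_cast h1
  have h3 : (0 : ℚ) < 2 ^ (A.erase v).card := by positivity
  nlinarith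

/-- vertex cover of size at most `2k` when the density is large. -/
lemma cover (G : SimpleGraph V) : ∀ (k : ℕ) (A : Finset V), (3 / 4 : ℚ) ^ (k + 1) < f G A →
    ∃ C ⊆ A, C.card ≤ 2 * k ∧ Ind G (A \ C) := by
  have key : ∀ (A : Finset V), ¬ Ind G A → ∃ u ∈ A, ∃ v ∈ A, u ≠ v ∧
      f G A ≤ 3 / 4 * f G (A \ {u, v}) := by
    intro A hA
    unfold Ind at hA
    push Not at hA
    obtain ⟨x, hx, y, hy, hxy⟩ := hA
    have hne : x ≠ y := G.ne_of_adj hxy
    refine ⟨x, hx, y, hy, hne, ?_⟩
    set B := A \ {x, y} with hB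
    have hxB : x ∉ B := by simp [hB]
    have hyB : y ∉ B := by simp [hB]
    have hA : insert x (insert y B) = A := by
      ext z
      simp only [hB, mem_insert, mem_sdiff, mem_singleton]
      constructor
      · rintro (rfl | rfl | h)
        · exact hx
        · exact hy
        · exact h.1
      · intro hz
        tauto
    have h1 := cnt_edge G hxB hyB hxy
    rw [hA] at h1
    have h3 : A.card = B.card + 2 := by
      rw [← hA, card_insert_of_notMem, card_insert_of_notMem hyB]
      rw [mem_insert]; push Not; exact ⟨hne, hxB⟩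
    unfold f
    rw [h3, pow_add]
    have h4 : (cnt G A : ℚ) ≤ 3 * cnt G B := by exact_mod_cast h1
    have h5 : (0 : ℚ) < 2 ^ B.card := by positivity
    rw [div_le_iff₀ (by positivity)]
    have : 3 / 4 * ((cnt G B : ℚ) / 2 ^ B.card) * (2 ^ B.card * 2 ^ 2) = 3 * cnt G B := by
      field_simp; ring
    rw [this]; exact h4
  intro k
  induction k with
  | zero =>
    intro A hA
    refine ⟨∅, empty_subset _, by simp, ?_⟩
    rw [sdiff_empty]
    by_contra hc
    obtain ⟨u, hu, v, hv, hne, h⟩ := key A hc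
    have := f_le_one G (A \ {u, v})
    simp only [zero_add, pow_one] at hA
    linarith
  | succ k ih =>
    intro A hA
    by_cases hi : Ind G A
    · refine ⟨∅, empty_subset _, by simp, ?_⟩
      rwa [sdiff_empty]
    · obtain ⟨u, hu, v, hv, hne, h⟩ := key A hi
      have h2 : (3 / 4 : ℚ) ^ (k + 1) < f G (A \ {u, v}) := by
        rw [pow_succ] at hA
        nlinarith
      obtain ⟨C, hC, hcard, hind⟩ := ih _ h2
      refine ⟨C ∪ {u, v}, ?_, ?_, ?_⟩
      · intro z hz
        rw [mem_union, mem_insert, mem_singleton] at hz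
        rcases hz with hz | rfl | rfl
        · exact (mem_sdiff.1 (hC hz)).1
        · exact hu
        · exact hv
      · calc (C ∪ {u, v}).card ≤ C.card + ({u, v} : Finset V).card := card_union_le _ _
          _ ≤ 2 * k + 2 := by
            have : ({u, v} : Finset V).card ≤ 2 := card_le_two
            omega
          _ = 2 * (k + 1) := by ring
      · have : A \ (C ∪ {u, v}) = (A \ {u, v}) \ C := by
          ext z; simp only [mem_sdiff, mem_union]; tauto
        rw [this]; exact hind


/-- sums over subsets of a disjoint union. -/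
lemma sum_powerset_union (Q O : Finset V) (hd : Disjoint Q O) (g : Finset V → ℕ) :
    ∑ s ∈ (Q ∪ O).powerset, g s = ∑ S ∈ Q.powerset, ∑ T ∈ O.powerset, g (S ∪ T) := by
  induction O using Finset.induction_on generalizing g with
  | empty => simp
  | insert o O ho ih =>
    have hd' : Disjoint Q O := disjoint_of_subset_right (subset_insert _ _) hd
    have hoQ : o ∉ Q := fun h => (disjoint_left.1 hd h) (mem_insert_self _ _)
    have ho' : o ∉ Q ∪ O := by rw [mem_union]; tauto
    rw [union_insert, Finset.sum_powerset_insert ho', ih hd', ih hd', ← Finset.sum_add_distrib]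
    apply Finset.sum_congr rfl
    intro S _
    rw [Finset.sum_powerset_insert ho]
    simp only [union_insert]

/-- elements of `O` with a neighbour in `S`. -/
noncomputable def nbr (G : SimpleGraph V) (O S : Finset V) : Finset V :=
  O.filter (fun o => ∃ s ∈ S, G.Adj s o)

/-- The structure formula. -/
lemma cnt_union (G : SimpleGraph V) (Q O : Finset V) (hd : Disjoint Q O) (hO : Ind G O) :
    cnt G (Q ∪ O) = ∑ S ∈ Q.powerset, if Ind G S then 2 ^ (O.card - (nbr G O S).card) else 0 := by
  unfold cnt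
  rw [sum_powerset_union Q O hd]
  apply Finset.sum_congr rfl
  intro S hS
  by_cases hi : Ind G S
  · rw [if_pos hi]
    have h1 : ∑ T ∈ O.powerset, (if Ind G (S ∪ T) then 1 else 0)
        = ∑ T ∈ (O \ nbr G O S).powerset, 1 := by
      rw [← Finset.sum_filter]
      apply Finset.sum_congr _ (fun _ _ => rfl)
      ext T
      simp only [mem_filter, mem_powerset]
      constructor
      · rintro ⟨h1, h2⟩ o ho
        rw [mem_sdiff]
        refine ⟨h1 ho, ?_⟩
        unfold nbr
        rw [mem_filter]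
        rintro ⟨_, s, hs, hadj⟩
        exact h2 s (mem_union_left _ hs) o (mem_union_right _ ho) hadj
      · intro h
        have hTO : T ⊆ O := h.trans sdiff_subset
        refine ⟨hTO, ?_⟩
        intro x hx y hy hxy
        have key : ∀ s ∈ S, ∀ t ∈ T, ¬ G.Adj s t := by
          intro s hs t ht hst
          have := h ht
          rw [mem_sdiff] at this
          exact this.2 (by unfold nbr; rw [mem_filter]; exact ⟨this.1, s, hs, hst⟩)
        rw [mem_union] at hx hy
        rcases hx with hx | hx <;> rcases hy with hy | hy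
        · exact hi x hx y hy hxy
        · exact key x hx y hy hxy
        · exact key y hy x hx hxy.symm
        · exact hO x (hTO hx) y (hTO hy) hxy
    rw [h1]
    rw [← Finset.card_eq_sum_ones, Finset.card_powerset, card_sdiff_of_subset]
    exact filter_subset _ _
  · rw [if_neg hi]
    apply Finset.sum_eq_zero
    intro T _
    rw [if_neg]
    intro h
    exact hi (h.mono subset_union_left)

lemma nbr_card_le (G : SimpleGraph V) (O S : Finset V) (D : ℕ)
    (h : ∀ s ∈ S, (O.filter (fun u => G.Adj s u)).card ≤ D) :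
    (nbr G O S).card ≤ S.card * D := by
  have : nbr G O S = S.biUnion (fun s => O.filter (fun u => G.Adj s u)) := by
    ext z
    simp only [nbr, mem_filter, mem_biUnion]
    constructor
    · rintro ⟨h1, s, hs, h2⟩; exact ⟨s, hs, h1, h2⟩
    · rintro ⟨s, hs, h1, h2⟩; exact ⟨h1, s, hs, h2⟩
  rw [this]
  exact Finset.card_biUnion_le_card_mul _ _ _ h

/-- bounded degrees force a bounded denominator. -/
lemma lattice (G : SimpleGraph V) (A : Finset V) (D : ℕ) (hf : (1 / 32 : ℚ) ≤ f G A)
    (hD : ∀ v ∈ A, (A.filter (fun u => G.Adj v u)).card ≤ D) :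
    ∃ m : ℕ, f G A * 2 ^ (24 * (D + 1)) = m := by
  obtain ⟨C, hCA, hCc, hCi⟩ := cover G 12 A (lt_of_lt_of_le (by norm_num) hf)
  have hdis : Disjoint C (A \ C) := disjoint_sdiff
  have hun : C ∪ (A \ C) = A := union_sdiff_of_subset hCA
  have h1 := cnt_union G C (A \ C) hdis hCi
  rw [hun] at h1
  have hcard : A.card = (A \ C).card + C.card := by
    rw [card_sdiff_of_subset hCA]
    have := card_le_card hCA
    omega
  have hdvd : 2 ^ A.card ∣ cnt G A * 2 ^ (24 * (D + 1)) := by
    rw [h1, Finset.sum_mul]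
    apply Finset.dvd_sum
    intro S hS
    rw [mem_powerset] at hS
    split_ifs with hi
    · rw [← pow_add]
      apply pow_dvd_pow
      have h2 : (nbr G (A \ C) S).card ≤ S.card * D := by
        apply nbr_card_le
        intro s hs
        refine le_trans (card_le_card ?_) (hD s (hCA (hS hs)))
        exact filter_subset_filter _ sdiff_subset
      have h3 : S.card ≤ C.card := card_le_card hS
      have h4 : S.card * D ≤ 24 * D := Nat.mul_le_mul_right _ (by omega)
      omega
    · simp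
  obtain ⟨m, hm⟩ := hdvd
  refine ⟨m, ?_⟩
  unfold f
  rw [div_mul_eq_mul_div, div_eq_iff (by positivity)]
  have : ((cnt G A * 2 ^ (24 * (D + 1)) : ℕ) : ℚ) = ((2 ^ A.card * m : ℕ) : ℚ) := by rw [hm]
  push_cast at this
  rw [this]; ring

/-- growth of the separation needed. -/
def kap : ℕ → ℕ → ℕ
  | 0, E => E + 1
  | (c + 1), E => 24 * (kap c E + 1) + 1

lemma kap_ge (c E : ℕ) : E + 1 ≤ kap c E := by
  induction c with
  | zero => exact le_refl _
  | succ c ih => simp only [kap]; omega

lemma half_pow_le {a b : ℕ} (h : a ≤ b) : (1 / 2 : ℚ) ^ b ≤ (1 / 2) ^ a :=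
  pow_le_pow_of_le_one (by norm_num) (by norm_num) h

/-- two dyadic numbers with denominator dividing `2^L` and close together are equal. -/
lemma dyadic_eq {a b : ℚ} {L : ℕ} {m n : ℤ} (ha : a * 2 ^ L = m) (hb : b * 2 ^ L = n)
    (hab : |a - b| < (1 / 2) ^ L) : a = b := by
  have hL : (0 : ℚ) < 2 ^ L := by positivity
  have h1 : |(m : ℚ) - n| < 1 := by
    rw [← ha, ← hb, ← sub_mul, abs_mul, abs_of_pos hL]
    calc |a - b| * 2 ^ L < (1 / 2) ^ L * 2 ^ L := by
          exact mul_lt_mul_of_pos_right hab hL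
      _ = 1 := by rw [← mul_pow]; norm_num
  have h2 : |m - n| < 1 := by exact_mod_cast h1
  have h3 : m - n = 0 := Int.abs_lt_one_iff.1 h2
  have h4 : m = n := by omega
  have h5 : a * 2 ^ L = b * 2 ^ L := by rw [ha, hb, h4]
  exact mul_right_cancel₀ hL.ne' h5

/-- peeling off vertices of large degree. -/
lemma peel (G : SimpleGraph V) : ∀ (c : ℕ) (A : Finset V) (y : ℚ) (E : ℕ),
    (1 / 32 : ℚ) ≤ f G A → (∃ m : ℤ, y * 2 ^ E = m) → 2 ≤ y * 2 ^ c →
    |f G A - y| ≤ (1 / 2) ^ (kap c E) →
    ∃ W ⊆ A, f G (A \ W) = 2 ^ W.card * y := by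
  intro c
  induction c with
  | zero =>
    intro A y E hf hy h2 h
    exfalso
    rw [pow_zero, mul_one] at h2
    have h1 := f_le_one G A
    have h3 : (1 / 2 : ℚ) ^ (kap 0 E) ≤ (1 / 2) ^ 1 := half_pow_le (by have := kap_ge 0 E; omega)
    rw [abs_le] at h
    linarith [h.1]
  | succ c ih =>
    intro A y E hf hy h2 h
    by_cases heq : f G A = y
    · refine ⟨∅, empty_subset _, ?_⟩
      simp [heq]
    · -- there is a vertex of large degree
      have hbig : ∃ v ∈ A, kap c E < (A.filter (fun u => G.Adj v u)).card := by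
        by_contra hcon
        push Not at hcon
        obtain ⟨m, hm⟩ := lattice G A (kap c E) hf hcon
        obtain ⟨m', hm'⟩ := hy
        apply heq
        have hE : E ≤ 24 * (kap c E + 1) := by have := kap_ge c E; omega
        have hy2 : y * 2 ^ (24 * (kap c E + 1)) = ((m' * 2 ^ (24 * (kap c E + 1) - E) : ℤ) : ℚ) := by
          push_cast
          rw [← hm', mul_assoc, ← pow_add]
          congr 2
          omega
        refine dyadic_eq (L := 24 * (kap c E + 1)) (m := (m : ℤ)) (by exact_mod_cast hm) hy2 ?_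
        refine lt_of_le_of_lt h ?_
        apply pow_lt_pow_right_of_lt_one₀ (by norm_num) (by norm_num)
        simp only [kap]; omega
      obtain ⟨v, hv, hdeg⟩ := hbig
      have hfe := f_erase G hv
      have hm := f_mono_erase G hv
      have h3 : |f G (A.erase v) - 2 * y| ≤ (1 / 2) ^ (kap c E) := by
        have e1 : (1 / 2 : ℚ) ^ ((A.filter (fun u => G.Adj v u)).card + 1) ≤ (1 / 2) ^ (kap c E + 2) :=
          half_pow_le (by omega)
        have e2 : (1 / 2 : ℚ) ^ (kap (c + 1) E) ≤ (1 / 2) ^ (kap c E + 2) :=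
          half_pow_le (by simp only [kap]; omega)
        have e3 : (1 / 2 : ℚ) ^ (kap c E + 2) = (1 / 2) ^ (kap c E) / 4 := by
          rw [pow_add]; ring
        rw [abs_le] at h ⊢
        constructor <;> linarith [h.1, h.2, hfe.1, hfe.2]
      obtain ⟨m, hm'⟩ := hy
      obtain ⟨W, hW, hWf⟩ := ih (A.erase v) (2 * y) E (le_trans hf hm)
        ⟨2 * m, by push_cast; rw [← hm']; ring⟩ (by rw [pow_succ] at h2; linarith) h3
      have hvW : v ∉ W := fun hh => notMem_erase v A (hW hh)
      refine ⟨insert v W, ?_, ?_⟩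
      · intro z hz
        rw [mem_insert] at hz
        rcases hz with rfl | hz
        · exact hv
        · exact (mem_erase.1 (hW hz)).2
      · have : A \ insert v W = (A.erase v) \ W := by
          ext z; simp only [mem_sdiff, mem_insert, mem_erase]; tauto
        rw [this, hWf, card_insert_of_notMem hvW, pow_succ]
        ring

/-- one level of the hierarchy. -/
lemma level (G : SimpleGraph V) (A : Finset V) (s E : ℕ) (p p' : ℚ)
    (hA : f G A = 2 ^ s / 32 * p) (hp' : 1 ≤ p') (hpp : p' < p)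
    (hE : ∃ m : ℤ, p' * 2 ^ E = m) (hclose : p - p' ≤ (1 / 2) ^ (kap 6 (E + 5))) :
    ∃ W ⊆ A, W.Nonempty ∧ f G (A \ W) = 2 ^ (s + W.card) / 32 * p' := by
  have hs1 : (1 : ℚ) ≤ 2 ^ s := one_le_pow₀ (by norm_num)
  have hs32 : (2 : ℚ) ^ s / 32 ≤ 1 := by
    have := f_le_one G A
    rw [hA] at this
    have h0 : (0 : ℚ) < 2 ^ s / 32 := by positivity
    nlinarith
  obtain ⟨m, hm⟩ := hE
  have h1 : (1 / 32 : ℚ) ≤ f G A := by
    rw [hA]; nlinarith
  obtain ⟨W, hW, hWf⟩ := peel G 6 A (2 ^ s / 32 * p') (E + 5) h1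
    ⟨2 ^ s * m, by push_cast; rw [← hm]; rw [pow_add]; ring⟩
    (by norm_num; nlinarith)
    (by
      rw [hA, ← mul_sub, abs_of_nonneg (by
        have : (0 : ℚ) < 2 ^ s / 32 := by positivity
        have : 0 < p - p' := by linarith
        positivity)]
      have : 0 < p - p' := by linarith
      nlinarith)
  refine ⟨W, hW, ?_, ?_⟩
  · by_contra hne
    rw [not_nonempty_iff_eq_empty] at hne
    subst hne
    simp only [sdiff_empty, card_empty, pow_zero, one_mul] at hWf
    rw [hA] at hWf
    have h0 : (0 : ℚ) < 2 ^ s / 32 := by positivity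
    have := mul_left_cancel₀ h0.ne' hWf
    linarith
  · rw [hWf, pow_add]; ring


/-- a multiset of powers of two containing `1` with sum divisible by `2^R` has more than `R` members. -/
lemma mult_lemma : ∀ (R : ℕ) (s : Multiset ℕ), 0 ∈ s → 2 ^ R ∣ (s.map (fun e => 2 ^ e)).sum →
    R < Multiset.card s := by
  intro R
  induction R with
  | zero =>
    intro s h _
    exact Multiset.card_pos_iff_exists_mem.2 ⟨0, h⟩
  | succ R ih =>
    intro s h hd
    set c := Multiset.count 0 s with hc
    set pos := s.filter (fun e => e ≠ 0) with hpos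
    have hs : s = Multiset.replicate c 0 + pos := by
      have h1 := Multiset.filter_add_not (fun e => e = 0) s
      rw [← h1, Multiset.filter_eq', ← hc]
    have hc1 : 1 ≤ c := Multiset.one_le_count_iff_mem.2 h
    have hsum1 : (s.map (fun e => 2 ^ e)).sum = c + (pos.map (fun e => 2 ^ e)).sum := by
      conv_lhs => rw [hs]
      rw [Multiset.map_add, Multiset.sum_add, Multiset.map_replicate, Multiset.sum_replicate]
      simp
    have hsum2 : (pos.map (fun e => 2 ^ e)).sum = 2 * ((pos.map (fun e => e - 1)).map (fun e => 2 ^ e)).sum := by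
      rw [Multiset.map_map, ← Multiset.sum_map_mul_left]
      congr 1
      apply Multiset.map_congr rfl
      intro e he
      rw [hpos, Multiset.mem_filter] at he
      obtain ⟨k, rfl⟩ := Nat.exists_eq_succ_of_ne_zero he.2
      simp [pow_succ]; ring
    set P' := ((pos.map (fun e => e - 1)).map (fun e => 2 ^ e)).sum with hP'
    rw [hsum1, hsum2] at hd
    have h2 : 2 ∣ c := by
      have : 2 ∣ c + 2 * P' := dvd_trans (dvd_pow_self 2 (Nat.succ_ne_zero R)) hd
      omega
    obtain ⟨c', hc'⟩ := h2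
    have hd' : 2 ^ R ∣ c' + P' := by
      have : 2 * 2 ^ R ∣ 2 * (c' + P') := by
        rw [mul_add, ← hc']; rw [pow_succ] at hd; rw [mul_comm 2 (2 ^ R)]; exact hd
      exact Nat.dvd_of_mul_dvd_mul_left (by norm_num) this
    have := ih (Multiset.replicate c' 0 + pos.map (fun e => e - 1)) ?_ ?_
    · rw [Multiset.card_add, Multiset.card_replicate, Multiset.card_map] at this
      rw [hs, Multiset.card_add, Multiset.card_replicate]
      omega
    · rw [Multiset.mem_add]
      left
      rw [Multiset.mem_replicate]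
      exact ⟨by omega, rfl⟩
    · rw [Multiset.map_add, Multiset.sum_add, Multiset.map_replicate, Multiset.sum_replicate, ← hP']
      simpa using hd'

lemma int_sum {ι : Type} (s : Finset ι) (r : ι → ℕ) (m : ℕ)
    (h : ∑ i ∈ s, (1 / 2 : ℚ) ^ (r i) = m) : ∀ i ∈ s, r i < s.card := by
  intro i hi
  obtain ⟨j, hj, hmax⟩ := s.exists_max_image r ⟨i, hi⟩
  refine lt_of_le_of_lt (hmax i hi) ?_
  have h1 : ∑ i ∈ s, 2 ^ (r j - r i) = 2 ^ (r j) * m := by
    have : ((∑ i ∈ s, 2 ^ (r j - r i) : ℕ) : ℚ) = ((2 ^ (r j) * m : ℕ) : ℚ) := by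
      push_cast
      rw [← h, Finset.mul_sum]
      apply Finset.sum_congr rfl
      intro i hi
      have hle := hmax i hi
      have : (2 : ℚ) ^ r j = 2 ^ (r j - r i) * 2 ^ (r i) := by
        rw [← pow_add]; congr 1; omega
      rw [this, mul_assoc, ← mul_pow]; norm_num
    exact_mod_cast this
  have h2 := mult_lemma (r j) (s.val.map (fun i => r j - r i)) ?_ ?_
  · simpa using h2
  · rw [Multiset.mem_map]
    exact ⟨j, hj, by simp⟩
  · rw [Multiset.map_map]
    have : (Multiset.map ((fun e => 2 ^ e) ∘ fun i => r j - r i) s.val).sum = ∑ i ∈ s, 2 ^ (r j - r i) := rfl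
    rw [this, h1]
    exact dvd_mul_right _ _

/-- the sum of the weights of the subsets of `Q` with property `P`. -/
noncomputable def wsum (Q : Finset V) (P : Finset V → Prop) (r : Finset V → ℕ) : ℚ :=
  ∑ S ∈ Q.powerset, if P S then (1 / 2 : ℚ) ^ (r S) else 0

lemma wsum_nonneg (Q : Finset V) (P : Finset V → Prop) (r : Finset V → ℕ) : 0 ≤ wsum Q P r := by
  unfold wsum
  apply Finset.sum_nonneg
  intro S _
  split_ifs <;> positivity

lemma wsum_ge (Q : Finset V) (P : Finset V → Prop) (r : Finset V → ℕ) (S : Finset V)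
    (hS : S ⊆ Q) (hP : P S) : (1 / 2 : ℚ) ^ (r S) ≤ wsum Q P r := by
  unfold wsum
  have h := Finset.single_le_sum (f := fun S => if P S then (1 / 2 : ℚ) ^ (r S) else 0)
    (fun S _ => by split_ifs <;> positivity) (mem_powerset.2 hS)
  simpa [hP] using h

lemma wsum_ge_two (Q : Finset V) (P : Finset V → Prop) (r : Finset V → ℕ) (S T : Finset V)
    (hST : S ≠ T) (hS : S ⊆ Q) (hP : P S) (hT : T ⊆ Q) (hPT : P T) :
    (1 / 2 : ℚ) ^ (r S) + (1 / 2 : ℚ) ^ (r T) ≤ wsum Q P r := by
  unfold wsum
  have h := Finset.sum_le_sum_of_subset_of_nonneg (s := {S, T}) (t := Q.powerset)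
    (f := fun S => if P S then (1 / 2 : ℚ) ^ (r S) else 0) ?_
    (fun S _ _ => by split_ifs <;> positivity)
  · rw [Finset.sum_pair hST] at h
    simpa [hP, hPT] using h
  · intro X hX
    rw [mem_insert, mem_singleton] at hX
    rcases hX with rfl | rfl
    · exact mem_powerset.2 hS
    · exact mem_powerset.2 hT

lemma wsum_le (Q : Finset V) (P : Finset V → Prop) (r : Finset V → ℕ) (hQ : Q.card ≤ 3) (b : ℕ)
    (hb : ∀ S ⊆ Q, P S → b ≤ r S) : wsum Q P r ≤ 8 * (1 / 2) ^ b := by
  unfold wsum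
  calc _ ≤ ∑ S ∈ Q.powerset, (1 / 2 : ℚ) ^ b := by
        apply Finset.sum_le_sum
        intro S hS
        split_ifs with h
        · exact half_pow_le (hb S (mem_powerset.1 hS) h)
        · positivity
    _ = 2 ^ Q.card * (1 / 2 : ℚ) ^ b := by simp
    _ ≤ 8 * (1 / 2) ^ b := by
      have : (2 : ℚ) ^ Q.card ≤ 2 ^ 3 := pow_le_pow_right₀ (by norm_num) hQ
      have h2 : (0 : ℚ) < (1 / 2) ^ b := by positivity
      nlinarith

lemma wsum_lattice (Q : Finset V) (P : Finset V → Prop) (r : Finset V → ℕ) (L : ℕ)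
    (hb : ∀ S ⊆ Q, P S → r S ≤ L) : ∃ m : ℤ, wsum Q P r * 2 ^ L = m := by
  refine ⟨∑ S ∈ Q.powerset, if P S then 2 ^ (L - r S) else 0, ?_⟩
  unfold wsum
  rw [Finset.sum_mul]
  push_cast
  apply Finset.sum_congr rfl
  intro S hS
  split_ifs with h
  · have hle := hb S (mem_powerset.1 hS) h
    have : (2 : ℚ) ^ L = 2 ^ (r S) * 2 ^ (L - r S) := by
      rw [← pow_add]; congr 1; omega
    rw [this, ← mul_assoc, ← mul_pow]; norm_num
  · simp

lemma wsum_bound (Q : Finset V) (P : Finset V → Prop) (r : Finset V → ℕ) (hQ : Q.card ≤ 3) (t : ℕ)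
    (h : wsum Q P r = 2 ^ t) (S : Finset V) (hS : S ⊆ Q) (hP : P S) : r S ≤ 7 := by
  unfold wsum at h
  rw [← Finset.sum_filter] at h
  have h1 := int_sum (Q.powerset.filter P) r (2 ^ t) (by push_cast; exact h) S
    (mem_filter.2 ⟨mem_powerset.2 hS, hP⟩)
  have h2 : (Q.powerset.filter P).card ≤ 2 ^ 3 := by
    calc _ ≤ Q.powerset.card := card_filter_le _ _
      _ = 2 ^ Q.card := card_powerset _
      _ ≤ 2 ^ 3 := Nat.pow_le_pow_right (by norm_num) hQ
  omega

/-- neighbours of `x` in `O`. -/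
noncomputable def N (G : SimpleGraph V) (O : Finset V) (x : V) : Finset V :=
  O.filter (fun o => G.Adj x o)

lemma nbr_insert (G : SimpleGraph V) (O S : Finset V) (x : V) :
    nbr G O (insert x S) = nbr G O S ∪ N G O x := by
  ext z
  simp only [nbr, N, mem_filter, mem_union, mem_insert]
  constructor
  · rintro ⟨h1, s, rfl | hs, h2⟩
    · exact Or.inr ⟨h1, h2⟩
    · exact Or.inl ⟨h1, s, hs, h2⟩
  · rintro (⟨h1, s, hs, h2⟩ | ⟨h1, h2⟩)
    · exact ⟨h1, s, Or.inr hs, h2⟩
    · exact ⟨h1, x, Or.inl rfl, h2⟩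

lemma nbr_insert_card (G : SimpleGraph V) (O S : Finset V) (x : V) :
    (nbr G O (insert x S)).card = (N G O x).card + (nbr G O S \ N G O x).card := by
  rw [nbr_insert, ← card_sdiff_add_card, add_comm]

lemma nbr_mono (G : SimpleGraph V) (O : Finset V) {S T : Finset V} (h : S ⊆ T) :
    nbr G O S ⊆ nbr G O T := by
  intro z
  simp only [nbr, mem_filter]
  rintro ⟨h1, s, hs, h2⟩
  exact ⟨h1, s, h hs, h2⟩

lemma nbr_singleton (G : SimpleGraph V) (O : Finset V) (x : V) : nbr G O {x} = N G O x := by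
  ext z; simp [nbr, N]

lemma nbr_empty (G : SimpleGraph V) (O : Finset V) : nbr G O ∅ = ∅ := by
  ext z; simp [nbr]

lemma N_subset_nbr (G : SimpleGraph V) (O Q : Finset V) {q : V} (hq : q ∈ Q) :
    N G O q ⊆ nbr G O Q := by
  rw [← nbr_singleton]; exact nbr_mono G O (singleton_subset_iff.2 hq)

/-- The block lemma. -/
lemma block (G : SimpleGraph V) (O Q : Finset V) (j l : V) (aj al : ℕ) (c : V → Bool)
    (hQ : Q.card ≤ 3)
    (F1 : ∀ x ∈ insert l (insert j Q), ∀ y ∈ insert l (insert j Q), c x = c y → G.Adj x y →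
      N G O x ⊆ N G O y ∨ N G O y ⊆ N G O x)
    (F2 : ∀ x ∈ insert l (insert j Q), ∀ y ∈ insert l (insert j Q), c x ≠ c y → ¬ G.Adj x y →
      Disjoint (N G O x) (N G O y))
    (F3 : ∀ x ∈ insert l (insert j Q), ∀ y ∈ insert l (insert j Q), ∀ z ∈ insert l (insert j Q),
      c x = c y → c z ≠ c x → G.Adj x y → G.Adj z x → ¬ (N G O y ⊆ N G O x) → G.Adj z y)
    (hjQ : j ∉ Q)
    (hTj : ∑ S ∈ Q.powerset, (if Ind G (insert j S) then
      (1 / 2 : ℚ) ^ ((nbr G O (insert j S)).card) else 0) = (1 / 2) ^ aj)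
    (hTl : ∑ S ∈ (insert j Q).powerset, (if Ind G (insert l S) then
      (1 / 2 : ℚ) ^ ((nbr G O (insert l S)).card) else 0) = (1 / 2) ^ al * (1 + (1 / 2) ^ aj))
    (hbig : ∀ q ∈ Q, 21 ≤ (N G O q).card)
    (hm : 2 * (nbr G O Q).card + 7 ≤ aj) (hal : aj ≤ al) :
    ∀ q ∈ Q, c q ≠ c j := by
  set nj := (N G O j).card with hnj
  set nl := (N G O l).card with hnl
  set m := (nbr G O Q).card with hmdef
  set rho := (N G O j \ N G O l).card with hrho
  -- the sum for j
  have hXj : (1 / 2 : ℚ) ^ nj * wsum Q (fun S => Ind G (insert j S))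
      (fun S => (nbr G O S \ N G O j).card) = (1 / 2) ^ aj := by
    rw [← hTj]
    unfold wsum
    rw [Finset.mul_sum]
    apply Finset.sum_congr rfl
    intro S _
    split_ifs
    · rw [nbr_insert_card, pow_add]
    · simp
  set Xj := wsum Q (fun S => Ind G (insert j S)) (fun S => (nbr G O S \ N G O j).card) with hXjdef
  have hIj : Ind G (insert j ∅) := by rw [insert_empty_eq]; exact ind_singleton G j
  have hIl : Ind G (insert l ∅) := by rw [insert_empty_eq]; exact ind_singleton G l
  have hXj1 : 1 ≤ Xj := by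
    have := wsum_ge Q (fun S => Ind G (insert j S)) (fun S => (nbr G O S \ N G O j).card) ∅
      (empty_subset _) hIj
    simpa [nbr_empty] using this
  have hXj8 : Xj ≤ 8 := by
    have := wsum_le Q (fun S => Ind G (insert j S)) (fun S => (nbr G O S \ N G O j).card) hQ 0
      (fun _ _ _ => Nat.zero_le _)
    simpa using this
  have hpos : ∀ k : ℕ, (0 : ℚ) < (1 / 2) ^ k := fun k => by positivity
  have hnjaj : aj ≤ nj := by
    by_contra hcon
    push Not at hcon
    have h1 : (1 / 2 : ℚ) ^ aj < (1 / 2) ^ nj :=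
      pow_lt_pow_right_of_lt_one₀ (by norm_num) (by norm_num) hcon
    have h2 := hpos nj
    nlinarith
  obtain ⟨tj, htj⟩ := Nat.exists_eq_add_of_le hnjaj
  have hXjt : Xj = 2 ^ tj := by
    rw [htj, pow_add] at hXj
    have h2 := hpos aj
    have h3 : (1 / 2 : ℚ) ^ aj * ((1 / 2) ^ tj * Xj) = (1 / 2) ^ aj * 1 := by
      rw [← mul_assoc, hXj, mul_one]
    have h4 := mul_left_cancel₀ h2.ne' h3
    have h5 : (2 : ℚ) ^ tj * ((1 / 2) ^ tj * Xj) = 2 ^ tj * 1 := by rw [h4]
    rw [← mul_assoc, ← mul_pow] at h5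
    norm_num at h5
    exact h5
  have htj3 : tj ≤ 3 := by
    by_contra hcon
    push Not at hcon
    have : (2 : ℚ) ^ 4 ≤ 2 ^ tj := pow_le_pow_right₀ (by norm_num) hcon
    rw [← hXjt] at this
    norm_num at this
    linarith
  have hbj : ∀ S ⊆ Q, Ind G (insert j S) → (nbr G O S \ N G O j).card ≤ 7 := fun S hS hI =>
    wsum_bound Q (fun S => Ind G (insert j S)) (fun S => (nbr G O S \ N G O j).card) hQ tj hXjt S hS hI
  -- the sum for l
  set X := wsum Q (fun S => Ind G (insert l S)) (fun S => (nbr G O S \ N G O l).card) with hXdef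
  set Y := wsum Q (fun S => Ind G (insert l (insert j S)))
    (fun S => (nbr G O (insert j S) \ N G O l).card) with hYdef
  have hXY : (1 / 2 : ℚ) ^ nl * (X + Y) = (1 / 2) ^ al * (1 + (1 / 2) ^ aj) := by
    rw [← hTl, Finset.sum_powerset_insert hjQ, mul_add, hXdef, hYdef]
    unfold wsum
    rw [Finset.mul_sum, Finset.mul_sum]
    congr 1
    · apply Finset.sum_congr rfl
      intro S _
      split_ifs
      · rw [nbr_insert_card, pow_add]
      · simp
    · apply Finset.sum_congr rfl
      intro S _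
      split_ifs
      · rw [nbr_insert_card G O (insert j S) l, pow_add]
      · simp
  have hX1 : 1 ≤ X := by
    have := wsum_ge Q (fun S => Ind G (insert l S)) (fun S => (nbr G O S \ N G O l).card) ∅
      (empty_subset _) hIl
    simpa [nbr_empty] using this
  have hX8 : X ≤ 8 := by
    have := wsum_le Q (fun S => Ind G (insert l S)) (fun S => (nbr G O S \ N G O l).card) hQ 0
      (fun _ _ _ => Nat.zero_le _)
    simpa using this
  have hrhoS : ∀ S : Finset V, rho ≤ (nbr G O (insert j S) \ N G O l).card := by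
    intro S
    apply card_le_card
    apply sdiff_subset_sdiff _ (le_refl _)
    rw [nbr_insert]; exact subset_union_right
  have hrhoS' : ∀ S ⊆ Q, (nbr G O (insert j S) \ N G O l).card ≤ rho + m := by
    intro S hS
    calc (nbr G O (insert j S) \ N G O l).card ≤ ((N G O j \ N G O l) ∪ nbr G O S).card := by
          apply card_le_card
          rw [nbr_insert]
          intro z hz
          simp only [mem_sdiff, mem_union] at hz ⊢
          tauto
      _ ≤ rho + (nbr G O S).card := card_union_le _ _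
      _ ≤ rho + m := by
        have := card_le_card (nbr_mono G O hS)
        omega
  have hY8 : Y ≤ 8 * (1 / 2) ^ rho := wsum_le Q _ _ hQ rho (fun S _ _ => hrhoS S)
  have hY0 : 0 ≤ Y := wsum_nonneg _ _ _
  have hrho1 : (1 / 2 : ℚ) ^ rho ≤ 1 := pow_le_one₀ (by norm_num) (by norm_num)
  have haj1 : (1 / 2 : ℚ) ^ aj ≤ (1 / 2) ^ 7 := half_pow_le (by omega)
  have hnlal : al ≤ nl := by
    by_contra hcon
    push Not at hcon
    have h1 : (1 / 2 : ℚ) ^ al ≤ (1 / 2) ^ (nl + 1) := half_pow_le hcon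
    rw [pow_succ] at h1
    have h2 := hpos nl
    have h3 := hpos aj
    norm_num at haj1
    nlinarith
  obtain ⟨t, ht⟩ := Nat.exists_eq_add_of_le hnlal
  have hXYt : X + Y = 2 ^ t * (1 + (1 / 2) ^ aj) := by
    rw [ht, pow_add] at hXY
    have h2 := hpos al
    have h3 : (1 / 2 : ℚ) ^ al * ((1 / 2) ^ t * (X + Y)) = (1 / 2) ^ al * (1 + (1 / 2) ^ aj) := by
      rw [← mul_assoc, hXY]
    have h4 := mul_left_cancel₀ h2.ne' h3
    rw [← h4, ← mul_assoc, ← mul_pow]
    norm_num
  have ht3 : t ≤ 3 := by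
    by_contra hcon
    push Not at hcon
    have h1 : (2 : ℚ) ^ 4 ≤ 2 ^ t := pow_le_pow_right₀ (by norm_num) hcon
    have h3 := hpos aj
    nlinarith
  have h2t : (2 : ℚ) ^ t ≤ 8 := by
    calc (2 : ℚ) ^ t ≤ 2 ^ 3 := pow_le_pow_right₀ (by norm_num) ht3
      _ = 8 := by norm_num
  have hsmall : ∀ L : ℕ, t + L < aj → (2 : ℚ) ^ t * (1 / 2) ^ aj < (1 / 2) ^ L := by
    intro L hL
    have h1 : (1 / 2 : ℚ) ^ aj < (1 / 2) ^ (t + L) :=
      pow_lt_pow_right_of_lt_one₀ (by norm_num) (by norm_num) hL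
    calc (2 : ℚ) ^ t * (1 / 2) ^ aj < 2 ^ t * (1 / 2) ^ (t + L) :=
          mul_lt_mul_of_pos_left h1 (by positivity)
      _ = (1 / 2) ^ L := by rw [pow_add, ← mul_assoc, ← mul_pow]; norm_num
  -- claim 1
  have hc1 : aj ≤ rho + m + t := by
    by_contra hcon
    push Not at hcon
    obtain ⟨z1, hz1⟩ := wsum_lattice Q (fun S => Ind G (insert l S))
      (fun S => (nbr G O S \ N G O l).card) (rho + m) (by
        intro S hS _
        have h1 := card_le_card (sdiff_subset (s := nbr G O S) (t := N G O l))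
        have h2 := card_le_card (nbr_mono G O hS)
        omega)
    obtain ⟨z2, hz2⟩ := wsum_lattice Q (fun S => Ind G (insert l (insert j S)))
      (fun S => (nbr G O (insert j S) \ N G O l).card) (rho + m) (fun S hS _ => hrhoS' S hS)
    have h3 : X + Y = 2 ^ t := by
      refine dyadic_eq (L := rho + m) (m := z1 + z2) (n := 2 ^ (t + (rho + m))) ?_ ?_ ?_
      · push_cast; rw [← hz1, ← hz2]; ring
      · push_cast; ring
      · rw [hXYt]
        have : (2 : ℚ) ^ t * (1 + (1 / 2) ^ aj) - 2 ^ t = 2 ^ t * (1 / 2) ^ aj := by ring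
        rw [this, abs_of_pos (by positivity)]
        exact hsmall _ (by omega)
    rw [hXYt] at h3
    have h4 : (0 : ℚ) < 2 ^ t * (1 / 2) ^ aj := by positivity
    linarith
  -- claim 2
  have hc2 : X = 2 ^ t := by
    obtain ⟨z1, hz1⟩ := wsum_lattice Q (fun S => Ind G (insert l S))
      (fun S => (nbr G O S \ N G O l).card) m (by
        intro S hS _
        have h1 := card_le_card (sdiff_subset (s := nbr G O S) (t := N G O l))
        have h2 := card_le_card (nbr_mono G O hS)
        omega)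
    refine dyadic_eq (L := m) (m := z1) (n := 2 ^ (t + m)) hz1 (by push_cast; ring) ?_
    have h1 : X - 2 ^ t = 2 ^ t * (1 / 2) ^ aj - Y := by linarith
    rw [h1]
    have h2 := hsmall m (by omega)
    have h3 : 8 * (1 / 2 : ℚ) ^ rho < (1 / 2) ^ m := by
      have : (1 / 2 : ℚ) ^ rho ≤ (1 / 2) ^ (m + 4) := half_pow_le (by omega)
      rw [pow_add] at this
      have h16 : (1 / 2 : ℚ) ^ 4 = 1 / 16 := by norm_num
      rw [h16] at this
      have hpm := hpos m
      linarith
    have h4 : (0 : ℚ) < 2 ^ t * (1 / 2) ^ aj := by positivity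
    rw [abs_lt]
    constructor <;> linarith
  have hc3 : Y = 2 ^ t * (1 / 2) ^ aj := by
    rw [hc2] at hXYt
    linarith
  have hnadj : ¬ G.Adj l j := by
    intro hadj
    have : Y = 0 := by
      rw [hYdef]
      unfold wsum
      apply Finset.sum_eq_zero
      intro S _
      rw [if_neg]
      intro hI
      exact hI l (mem_insert_self _ _) j (mem_insert_of_mem (mem_insert_self _ _)) hadj
    rw [this] at hc3
    have h4 : (0 : ℚ) < 2 ^ t * (1 / 2) ^ aj := by positivity
    linarith
  have hIlj : Ind G (insert l (insert j ∅)) := by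
    rw [ind_insert]
    refine ⟨hIj, ?_⟩
    intro u hu
    rw [insert_empty_eq, mem_singleton] at hu
    subst hu; exact hnadj
  have hc5 : aj ≤ rho + t := by
    have h1 : (1 / 2 : ℚ) ^ rho ≤ Y := by
      have := wsum_ge Q (fun S => Ind G (insert l (insert j S)))
        (fun S => (nbr G O (insert j S) \ N G O l).card) ∅ (empty_subset _) hIlj
      simp only [insert_empty_eq, nbr_singleton] at this
      exact this
    by_contra hcon
    push Not at hcon
    have h2 := hsmall rho (by omega)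
    linarith
  have hbl : ∀ S ⊆ Q, Ind G (insert l S) → (nbr G O S \ N G O l).card ≤ 7 := fun S hS hI =>
    wsum_bound Q (fun S => Ind G (insert l S)) (fun S => (nbr G O S \ N G O l).card) hQ t hc2 S hS hI
  -- bounds for single elements
  have hbj1 : ∀ h ∈ Q, ¬ G.Adj j h → (N G O h \ N G O j).card ≤ 7 := by
    intro h hh hadj
    have := hbj {h} (singleton_subset_iff.2 hh) (by
      rw [ind_insert]
      refine ⟨ind_singleton G h, ?_⟩
      intro u hu; rw [mem_singleton] at hu; subst hu; exact hadj)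
    rwa [nbr_singleton] at this
  have hbl1 : ∀ h ∈ Q, ¬ G.Adj l h → (N G O h \ N G O l).card ≤ 7 := by
    intro h hh hadj
    have := hbl {h} (singleton_subset_iff.2 hh) (by
      rw [ind_insert]
      refine ⟨ind_singleton G h, ?_⟩
      intro u hu; rw [mem_singleton] at hu; subst hu; exact hadj)
    rwa [nbr_singleton] at this
  have hjW : j ∈ insert l (insert j Q) := by simp
  have hlW : l ∈ insert l (insert j Q) := by simp
  intro q hq hcq
  have hqW : q ∈ insert l (insert j Q) := by simp [hq]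
  have hqm : (N G O q).card ≤ m := card_le_card (N_subset_nbr G O Q hq)
  have hq21 := hbig q hq
  by_cases hcl : c l = c j
  · -- same colour
    have h1 : (N G O q \ N G O j).card ≤ 7 := by
      by_cases hadj : G.Adj j q
      · rcases F1 j hjW q hqW hcq.symm hadj with h | h
        · have := card_le_card h
          omega
        · rw [sdiff_eq_empty_iff_subset.2 h]; simp
      · exact hbj1 q hq hadj
    have h2 : (N G O q \ N G O l).card ≤ 7 := by
      by_cases hadj : G.Adj l q
      · rcases F1 l hlW q hqW (hcl.trans hcq.symm) hadj with h | h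
        · have := card_le_card h
          omega
        · rw [sdiff_eq_empty_iff_subset.2 h]; simp
      · exact hbl1 q hq hadj
    have h3 : (N G O j ∩ N G O l).card ≤ 6 := by
      have := card_sdiff_add_card_inter (N G O j) (N G O l)
      omega
    have h4 : N G O q ⊆ (N G O q \ N G O j) ∪ ((N G O q \ N G O l) ∪ (N G O j ∩ N G O l)) := by
      intro z hz
      simp only [mem_union, mem_sdiff, mem_inter]
      tauto
    have h5 := card_le_card h4
    have h6 := card_union_le (N G O q \ N G O j) ((N G O q \ N G O l) ∪ (N G O j ∩ N G O l))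
    have h7 := card_union_le (N G O q \ N G O l) (N G O j ∩ N G O l)
    omega
  · -- different colours
    have hdis : Disjoint (N G O l) (N G O j) := F2 l hlW j hjW hcl hnadj
    have hadjlq : G.Adj l q := by
      by_contra hcon
      have h1 := hbl1 q hq hcon
      have h2 := F2 q hqW l hlW (by rw [hcq]; exact fun h => hcl h.symm) (fun h => hcon h.symm)
      rw [sdiff_eq_self_of_disjoint h2] at h1
      omega
    have hnadjjq : ¬ G.Adj j q := by
      intro hadj
      apply hnadj
      refine F3 q hqW j hjW l hlW hcq (by rw [hcq]; exact hcl) hadj.symm hadjlq ?_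
      intro hsub
      have := card_le_card hsub
      omega
    -- only the empty set contributes to Y
    have hYe : Y = (1 / 2) ^ nj := by
      rw [hYdef]
      unfold wsum
      rw [Finset.sum_eq_single_of_mem ∅ (empty_mem_powerset _)]
      · rw [if_pos hIlj]
        congr 1
        show (nbr G O (insert j ∅) \ N G O l).card = nj
        rw [insert_empty_eq, nbr_singleton, hnj, sdiff_eq_self_of_disjoint hdis.symm]
      · intro S hS hne
        rw [if_neg]
        intro hI
        obtain ⟨h, hh⟩ := nonempty_iff_ne_empty.2 hne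
        rw [mem_powerset] at hS
        have hhQ := hS hh
        have e1 : ¬ G.Adj j h := hI j (by simp) h (by simp [hh])
        have e2 : ¬ G.Adj l h := hI l (by simp) h (by simp [hh])
        have e3 := hbj1 h hhQ e1
        have e4 := hbl1 h hhQ e2
        have e5 : N G O h ⊆ (N G O h \ N G O j) ∪ (N G O h \ N G O l) := by
          intro z hz
          simp only [mem_union, mem_sdiff]
          by_cases hzj : z ∈ N G O j
          · right; exact ⟨hz, fun hzl => disjoint_left.1 hdis hzl hzj⟩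
          · left; exact ⟨hz, hzj⟩
        have e6 := card_le_card e5
        have e7 := card_union_le (N G O h \ N G O j) (N G O h \ N G O l)
        have e8 := hbig h hhQ
        omega
    have htj1 : 1 < Xj := by
      have h1 := wsum_ge_two Q (fun S => Ind G (insert j S)) (fun S => (nbr G O S \ N G O j).card)
        ∅ {q} (by simp) (empty_subset _) hIj (singleton_subset_iff.2 hq) (by
          rw [ind_insert]
          refine ⟨ind_singleton G q, ?_⟩
          intro u hu; rw [mem_singleton] at hu; subst hu; exact hnadjjq)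
      have h2 := hpos ((nbr G O {q} \ N G O j).card)
      simp only [nbr_empty, empty_sdiff, card_empty, pow_zero] at h1
      linarith
    have h5 : (1 / 2 : ℚ) ^ tj = 2 ^ t := by
      rw [hYe, htj, pow_add, mul_comm] at hc3
      exact mul_right_cancel₀ (hpos aj).ne' hc3
    have h6 : (2 : ℚ) ^ t * 2 ^ tj = 1 := by
      rw [← h5, ← mul_pow]; norm_num
    have h7 : (1 : ℚ) ≤ 2 ^ t := one_le_pow₀ (by norm_num)
    rw [hXjt] at htj1
    nlinarith


/-- the contribution of a new vertex. -/
lemma tsum (G : SimpleGraph V) (O Q : Finset V) (w : V) (hO : Ind G O) (hd : Disjoint Q O)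
    (hwQ : w ∉ Q) (hwO : w ∉ O) :
    f G (insert w (Q ∪ O)) - f G (Q ∪ O) / 2 = (1 / 2) ^ (Q.card + 1) *
      ∑ S ∈ Q.powerset, (if Ind G (insert w S) then
        (1 / 2 : ℚ) ^ ((nbr G O (insert w S)).card) else 0) := by
  have hd' : Disjoint (insert w Q) O := by
    rw [disjoint_insert_left]; exact ⟨hwO, hd⟩
  have h1 := cnt_union G (insert w Q) O hd' hO
  rw [Finset.sum_powerset_insert hwQ, ← cnt_union G Q O hd hO, insert_union] at h1
  have hc1 : (Q ∪ O).card = Q.card + O.card := card_union_of_disjoint hd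
  have hc2 : (insert w (Q ∪ O)).card = Q.card + O.card + 1 := by
    rw [card_insert_of_notMem (by rw [mem_union]; tauto), hc1]
  unfold f
  rw [h1, hc1, hc2]
  have h2 : ((∑ S ∈ Q.powerset, if Ind G (insert w S) then
      2 ^ (O.card - (nbr G O (insert w S)).card) else 0 : ℕ) : ℚ) = 2 ^ O.card *
      ∑ S ∈ Q.powerset, (if Ind G (insert w S) then
        (1 / 2 : ℚ) ^ ((nbr G O (insert w S)).card) else 0) := by
    push_cast
    rw [Finset.mul_sum]
    apply Finset.sum_congr rfl
    intro S _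
    split_ifs
    · have hle : (nbr G O (insert w S)).card ≤ O.card := card_le_card (filter_subset _ _)
      have : (2 : ℚ) ^ O.card = 2 ^ (O.card - (nbr G O (insert w S)).card) *
          2 ^ ((nbr G O (insert w S)).card) := by
        rw [← pow_add]; congr 1; omega
      rw [this, mul_assoc, ← mul_pow]; norm_num
    · simp
  rw [Nat.cast_add, h2]
  set Z := ∑ S ∈ Q.powerset, (if Ind G (insert w S) then
        (1 / 2 : ℚ) ^ ((nbr G O (insert w S)).card) else 0) with hZ
  rw [pow_add, pow_add, pow_add]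
  field_simp
  rw [one_div, inv_pow]
  field_simp
  ring

lemma nj_bounds (G : SimpleGraph V) (O Q : Finset V) (j : V) (v : ℚ)
    (hT : ∑ S ∈ Q.powerset, (if Ind G (insert j S) then
      (1 / 2 : ℚ) ^ ((nbr G O (insert j S)).card) else 0) = v) :
    (1 / 2) ^ (N G O j).card ≤ v ∧ v ≤ 2 ^ Q.card * (1 / 2) ^ (N G O j).card := by
  rw [← hT]
  constructor
  · have h := Finset.single_le_sum (f := fun S => if Ind G (insert j S) then
      (1 / 2 : ℚ) ^ ((nbr G O (insert j S)).card) else 0)
      (fun S _ => by split_ifs <;> positivity) (empty_mem_powerset Q)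
    rw [insert_empty_eq, if_pos (ind_singleton G j), nbr_singleton] at h
    exact h
  · calc _ ≤ ∑ S ∈ Q.powerset, (1 / 2 : ℚ) ^ (N G O j).card := by
          apply Finset.sum_le_sum
          intro S _
          split_ifs
          · apply half_pow_le
            rw [nbr_insert_card]; omega
          · positivity
      _ = 2 ^ Q.card * (1 / 2) ^ (N G O j).card := by simp

/-- comparability graph of a poset. -/
def cg (P : Type) [PartialOrder P] : SimpleGraph P where
  Adj x y := x < y ∨ y < x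
  symm := ⟨fun _ _ h => Or.symm h⟩
  loopless := ⟨fun x h => by rcases h with h | h <;> exact lt_irrefl x h⟩

section poset

variable {P : Type} [PartialOrder P]

/-- colour of an element relative to an antichain. -/
noncomputable def col (O : Finset P) (x : P) : Bool := decide (∃ o ∈ O, o < x)

lemma col_true {O : Finset P} (hO : Ind (cg P) O) {x : P} (h : col O x = true) {o : P}
    (ho : o ∈ N (cg P) O x) : o < x := by
  unfold col at h
  rw [decide_eq_true_eq] at h
  obtain ⟨o', ho', hlt⟩ := h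
  unfold N at ho
  rw [mem_filter] at ho
  rcases ho.2 with h1 | h1
  · exact absurd (Or.inl (hlt.trans h1)) (hO o' ho' o ho.1)
  · exact h1

lemma col_false {O : Finset P} {x : P} (h : col O x = false) {o : P}
    (ho : o ∈ N (cg P) O x) : x < o := by
  unfold col at h
  rw [decide_eq_false_iff_not] at h
  push Not at h
  unfold N at ho
  rw [mem_filter] at ho
  rcases ho.2 with h1 | h1
  · exact h1
  · exact absurd h1 (h o ho.1)

lemma F1 {O : Finset P} (hO : Ind (cg P) O) (x y : P) (hc : col O x = col O y)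
    (hadj : (cg P).Adj x y) :
    N (cg P) O x ⊆ N (cg P) O y ∨ N (cg P) O y ⊆ N (cg P) O x := by
  cases hx : col O x
  · have hy : col O y = false := by rw [← hc]; exact hx
    rcases hadj with h | h
    · right
      intro o ho
      have h1 := col_false hy ho
      unfold N at ho ⊢
      rw [mem_filter] at ho ⊢
      exact ⟨ho.1, Or.inl (h.trans h1)⟩
    · left
      intro o ho
      have h1 := col_false hx ho
      unfold N at ho ⊢
      rw [mem_filter] at ho ⊢
      exact ⟨ho.1, Or.inl (h.trans h1)⟩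
  · have hy : col O y = true := by rw [← hc]; exact hx
    rcases hadj with h | h
    · left
      intro o ho
      have h1 := col_true hO hx ho
      unfold N at ho ⊢
      rw [mem_filter] at ho ⊢
      exact ⟨ho.1, Or.inr (h1.trans h)⟩
    · right
      intro o ho
      have h1 := col_true hO hy ho
      unfold N at ho ⊢
      rw [mem_filter] at ho ⊢
      exact ⟨ho.1, Or.inr (h1.trans h)⟩

lemma F2 {O : Finset P} (hO : Ind (cg P) O) (x y : P) (hc : col O x ≠ col O y)
    (hadj : ¬ (cg P).Adj x y) : Disjoint (N (cg P) O x) (N (cg P) O y) := by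
  rw [disjoint_left]
  intro o hox hoy
  apply hadj
  cases hx : col O x <;> cases hy : col O y
  · rw [hx, hy] at hc; exact absurd rfl hc
  · exact Or.inl ((col_false hx hox).trans (col_true hO hy hoy))
  · exact Or.inr ((col_false hy hoy).trans (col_true hO hx hox))
  · rw [hx, hy] at hc; exact absurd rfl hc

lemma F3 {O : Finset P} (hO : Ind (cg P) O) (x y z : P) (hc : col O x = col O y)
    (hcz : col O z ≠ col O x) (hxy : (cg P).Adj x y) (hzx : (cg P).Adj z x)
    (hN : ¬ (N (cg P) O y ⊆ N (cg P) O x)) : (cg P).Adj z y := by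
  cases hx : col O x
  · have hy : col O y = false := by rw [← hc]; exact hx
    have hz : col O z = true := by
      cases h : col O z
      · rw [hx, h] at hcz; exact absurd rfl hcz
      · rfl
    have hyx : y < x := by
      rcases hxy with h | h
      · exfalso
        apply hN
        intro o ho
        have h1 := col_false hy ho
        unfold N at ho ⊢
        rw [mem_filter] at ho ⊢
        exact ⟨ho.1, Or.inl (h.trans h1)⟩
      · exact h
    have hxz : x < z := by
      rcases hzx with h | h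
      · exfalso
        unfold col at hz hx
        rw [decide_eq_true_eq] at hz
        rw [decide_eq_false_iff_not] at hx
        obtain ⟨o, ho, hlt⟩ := hz
        exact hx ⟨o, ho, hlt.trans h⟩
      · exact h
    exact Or.inr (hyx.trans hxz)
  · have hy : col O y = true := by rw [← hc]; exact hx
    have hz : col O z = false := by
      cases h : col O z
      · rfl
      · rw [hx, h] at hcz; exact absurd rfl hcz
    have hxy' : x < y := by
      rcases hxy with h | h
      · exact h
      · exfalso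
        apply hN
        intro o ho
        have h1 := col_true hO hy ho
        unfold N at ho ⊢
        rw [mem_filter] at ho ⊢
        exact ⟨ho.1, Or.inr (h1.trans h)⟩
    have hzx' : z < x := by
      rcases hzx with h | h
      · exact h
      · exfalso
        unfold col at hz hx
        rw [decide_eq_true_eq] at hx
        rw [decide_eq_false_iff_not] at hz
        obtain ⟨o, ho, hlt⟩ := hx
        exact hz ⟨o, ho, hlt.trans h⟩
    exact Or.inl (hzx'.trans hxy')

end poset

/-- separation conditions on the numbers of pendant vertices. -/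
structure Sep (a1 a2 a3 a4 a5 : ℕ) : Prop where
  h1 : kap 6 5 ≤ a1
  h1' : 21 ≤ a1
  h2 : kap 6 (a1 + 5) ≤ a2
  h2' : 2 * a1 + 7 ≤ a2
  h3 : kap 6 (a2 + 5) < a3
  h3' : a2 + 23 ≤ a3
  h4 : kap 6 (a2 + a3 + 5) ≤ a4
  h4' : 2 * (a1 + a2 + a3 + 3) + 7 ≤ a4
  h5 : kap 6 (a4 + 5) < a5
  h5' : a4 ≤ a5

lemma int_pow (a E : ℕ) (h : a ≤ E) : ∃ m : ℤ, (1 / 2 : ℚ) ^ a * 2 ^ E = m := by
  refine ⟨2 ^ (E - a), ?_⟩
  push_cast
  have : (2 : ℚ) ^ E = 2 ^ a * 2 ^ (E - a) := by rw [← pow_add]; congr 1; omega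
  rw [this, ← mul_assoc, ← mul_pow]; norm_num

/-- No poset has the density of the special graph. -/
lemma no_poset (P : Type) [Fintype P] [PartialOrder P] (a1 a2 a3 a4 a5 : ℕ)
    (hs : Sep a1 a2 a3 a4 a5)
    (hf : f (cg P) univ = 1 / 32 * (1 + (1 / 2) ^ a1 + (1 / 2) ^ a2 + (1 / 2) ^ a3 * (1 + (1 / 2) ^ a2)
      + (1 / 2) ^ a4 + (1 / 2) ^ a5 * (1 + (1 / 2) ^ a4))) : False := by
  have hpos : ∀ k : ℕ, (0 : ℚ) < (1 / 2) ^ k := fun k => by positivity
  have hle1 : ∀ k : ℕ, (1 / 2 : ℚ) ^ k ≤ 1 := fun k => pow_le_one₀ (by norm_num) (by norm_num)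
  set x1 : ℚ := (1 / 2) ^ a1 with hx1
  set x2 : ℚ := (1 / 2) ^ a2 with hx2
  set x3 : ℚ := (1 / 2) ^ a3 with hx3
  set x4 : ℚ := (1 / 2) ^ a4 with hx4
  set x5 : ℚ := (1 / 2) ^ a5 with hx5
  have p1 : 0 < x1 := hpos a1
  have p2 : 0 < x2 := hpos a2
  have p3 : 0 < x3 := hpos a3
  have p4 : 0 < x4 := hpos a4
  have p5 : 0 < x5 := hpos a5
  have q2 : x2 ≤ 1 := hle1 a2
  have q4 : x4 ≤ 1 := hle1 a4
  set P4 : ℚ := 1 + x1 + x2 + x3 * (1 + x2) + x4 with hP4
  set P3 : ℚ := 1 + x1 + x2 + x3 * (1 + x2) with hP3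
  set P2 : ℚ := 1 + x1 + x2 with hP2
  set P1 : ℚ := 1 + x1 with hP1
  have x32 : 0 < x3 * (1 + x2) := by positivity
  have x54 : 0 < x5 * (1 + x4) := by positivity
  -- integrality
  have I1 : ∀ E, a1 ≤ E → ∃ m : ℤ, x1 * 2 ^ E = m := fun E h => int_pow a1 E h
  have I2 : ∀ E, a2 ≤ E → ∃ m : ℤ, x2 * 2 ^ E = m := fun E h => int_pow a2 E h
  have I3 : ∀ E, a2 + a3 ≤ E → ∃ m : ℤ, (x3 * (1 + x2)) * 2 ^ E = m := by
    intro E h
    obtain ⟨m, hm⟩ := int_pow a3 E (by omega)
    obtain ⟨m', hm'⟩ := int_pow (a2 + a3) E h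
    refine ⟨m + m', ?_⟩
    push_cast
    rw [← hm, ← hm', pow_add]
    ring
  have I4 : ∀ E, a4 ≤ E → ∃ m : ℤ, x4 * 2 ^ E = m := fun E h => int_pow a4 E h
  have IP1 : ∃ m : ℤ, P1 * 2 ^ a1 = m := by
    obtain ⟨m, hm⟩ := I1 a1 le_rfl
    exact ⟨2 ^ a1 + m, by push_cast; rw [← hm, hP1]; ring⟩
  have IP2 : ∃ m : ℤ, P2 * 2 ^ a2 = m := by
    obtain ⟨m, hm⟩ := I1 a2 (by have := hs.h2'; omega)
    obtain ⟨m', hm'⟩ := I2 a2 le_rfl
    exact ⟨2 ^ a2 + m + m', by push_cast; rw [← hm, ← hm', hP2]; ring⟩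
  have IP3 : ∃ m : ℤ, P3 * 2 ^ (a2 + a3) = m := by
    obtain ⟨m, hm⟩ := I1 (a2 + a3) (by have := hs.h2'; omega)
    obtain ⟨m', hm'⟩ := I2 (a2 + a3) (by omega)
    obtain ⟨m'', hm''⟩ := I3 (a2 + a3) le_rfl
    exact ⟨2 ^ (a2 + a3) + m + m' + m'', by push_cast; rw [← hm, ← hm', ← hm'', hP3]; ring⟩
  have IP4 : ∃ m : ℤ, P4 * 2 ^ a4 = m := by
    have hh4 := hs.h4'
    obtain ⟨m, hm⟩ := I1 a4 (by omega)
    obtain ⟨m', hm'⟩ := I2 a4 (by omega)
    obtain ⟨m'', hm''⟩ := I3 a4 (by omega)
    obtain ⟨m3, hm3⟩ := I4 a4 le_rfl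
    exact ⟨2 ^ a4 + m + m' + m'' + m3, by
      push_cast; rw [← hm, ← hm', ← hm'', ← hm3, hP4]; ring⟩
  -- peel the five levels
  have hf5 : f (cg P) univ = 2 ^ 0 / 32 * (P4 + x5 * (1 + x4)) := by
    rw [hf]; ring
  obtain ⟨W5, hW5, hne5, hf4⟩ := level (cg P) univ 0 a4 (P4 + x5 * (1 + x4)) P4 hf5
    (by rw [hP4]; linarith) (by linarith) IP4 (by
      have h1 : x5 ≤ (1 / 2) ^ (kap 6 (a4 + 5) + 1) := half_pow_le (by have := hs.h5; omega)
      rw [pow_succ] at h1
      nlinarith)
  rw [zero_add] at hf4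
  obtain ⟨W4, hW4, hne4, hf3⟩ := level (cg P) (univ \ W5) W5.card (a2 + a3) P4 P3 hf4
    (by rw [hP3]; linarith) (by linarith) IP3 (by
      have h1 : x4 ≤ (1 / 2) ^ (kap 6 (a2 + a3 + 5)) := half_pow_le hs.h4
      rw [hP4, hP3]; linarith)
  obtain ⟨W3, hW3, hne3, hf2⟩ := level (cg P) ((univ \ W5) \ W4) (W5.card + W4.card) a2 P3 P2 hf3
    (by rw [hP2]; linarith) (by linarith) IP2 (by
      have h1 : x3 ≤ (1 / 2) ^ (kap 6 (a2 + 5) + 1) := half_pow_le (by have := hs.h3; omega)
      rw [pow_succ] at h1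
      rw [hP3, hP2]
      nlinarith)
  obtain ⟨W2, hW2, hne2, hf1⟩ := level (cg P) (((univ \ W5) \ W4) \ W3)
    (W5.card + W4.card + W3.card) a1 P2 P1 hf2
    (by rw [hP1]; linarith) (by linarith) IP1 (by
      have h1 : x2 ≤ (1 / 2) ^ (kap 6 (a1 + 5)) := half_pow_le hs.h2
      rw [hP2, hP1]; linarith)
  obtain ⟨W1, hW1, hne1, hf0⟩ := level (cg P) ((((univ \ W5) \ W4) \ W3) \ W2)
    (W5.card + W4.card + W3.card + W2.card) 0 P1 1 hf1
    le_rfl (by linarith) ⟨1, by norm_num⟩ (by
      have h1 : x1 ≤ (1 / 2) ^ (kap 6 (0 + 5)) := half_pow_le hs.h1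
      rw [hP1]; linarith)
  have c1 := card_pos.2 hne1
  have c2 := card_pos.2 hne2
  have c3 := card_pos.2 hne3
  have c4 := card_pos.2 hne4
  have c5 := card_pos.2 hne5
  have htot : W5.card + W4.card + W3.card + W2.card + W1.card ≤ 5 := by
    by_contra hcon
    push Not at hcon
    have h1 : (2 : ℚ) ^ 6 ≤ 2 ^ (W5.card + W4.card + W3.card + W2.card + W1.card) :=
      pow_le_pow_right₀ (by norm_num) hcon
    have h2 := f_le_one (cg P) (((((univ \ W5) \ W4) \ W3) \ W2) \ W1)
    rw [hf0] at h2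
    norm_num at h1
    linarith
  obtain ⟨w1, rfl⟩ := card_eq_one.1 (show W1.card = 1 by omega)
  obtain ⟨w2, rfl⟩ := card_eq_one.1 (show W2.card = 1 by omega)
  obtain ⟨w3, rfl⟩ := card_eq_one.1 (show W3.card = 1 by omega)
  obtain ⟨w4, rfl⟩ := card_eq_one.1 (show W4.card = 1 by omega)
  obtain ⟨w5, rfl⟩ := card_eq_one.1 (show W5.card = 1 by omega)
  simp only [card_singleton] at hf0 hf1 hf2 hf3 hf4
  rw [singleton_subset_iff] at hW1 hW2 hW3 hW4 hW5
  set O := (((((univ : Finset P) \ {w5}) \ {w4}) \ {w3}) \ {w2}) \ {w1} with hOdef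
  have hOind : Ind (cg P) O := by
    apply ind_of_f
    rw [hf0]; norm_num
  simp only [mem_sdiff, mem_singleton, mem_univ, true_and] at hW1 hW2 hW3 hW4
  obtain ⟨⟨⟨h15, h14⟩, h13⟩, h12⟩ := hW1
  obtain ⟨⟨h25, h24⟩, h23⟩ := hW2
  obtain ⟨h35, h34⟩ := hW3
  have h45 := hW4
  have o1 : w1 ∉ O := by simp [hOdef]
  have o2 : w2 ∉ O := by simp [hOdef]
  have o3 : w3 ∉ O := by simp [hOdef]
  have o4 : w4 ∉ O := by simp [hOdef]
  have o5 : w5 ∉ O := by simp [hOdef]
  have e1 : ((((univ : Finset P) \ {w5}) \ {w4}) \ {w3}) \ {w2} = insert w1 (∅ ∪ O) := by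
    ext z; simp only [hOdef, mem_sdiff, mem_singleton, mem_univ, true_and, mem_insert, empty_union]
    constructor
    · intro h
      by_cases hz : z = w1
      · exact Or.inl hz
      · exact Or.inr ⟨h, hz⟩
    · rintro (rfl | h)
      · exact ⟨⟨⟨h15, h14⟩, h13⟩, h12⟩
      · exact h.1
  have e2 : (((univ : Finset P) \ {w5}) \ {w4}) \ {w3} = insert w2 ({w1} ∪ O) := by
    have : ({w1} : Finset P) ∪ O = insert w1 (∅ ∪ O) := by rw [empty_union]; rfl
    rw [this, ← e1]
    ext z; simp only [mem_sdiff, mem_singleton, mem_univ, true_and, mem_insert]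
    constructor
    · intro h
      by_cases hz : z = w2
      · exact Or.inl hz
      · exact Or.inr ⟨h, hz⟩
    · rintro (rfl | h)
      · exact ⟨⟨h25, h24⟩, h23⟩
      · exact h.1
  have e3 : ((univ : Finset P) \ {w5}) \ {w4} = insert w3 ((insert w2 {w1}) ∪ O) := by
    rw [insert_union, ← e2]
    ext z; simp only [mem_sdiff, mem_singleton, mem_univ, true_and, mem_insert]
    constructor
    · intro h
      by_cases hz : z = w3
      · exact Or.inl hz
      · exact Or.inr ⟨h, hz⟩
    · rintro (rfl | h)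
      · exact ⟨h35, h34⟩
      · exact h.1
  have e4 : (univ : Finset P) \ {w5} = insert w4 ((insert w3 (insert w2 {w1})) ∪ O) := by
    rw [insert_union, ← e3]
    ext z; simp only [mem_sdiff, mem_singleton, mem_univ, true_and, mem_insert]
    constructor
    · intro h
      by_cases hz : z = w4
      · exact Or.inl hz
      · exact Or.inr ⟨h, hz⟩
    · rintro (rfl | h)
      · exact h45
      · exact h.1
  have e5 : (univ : Finset P) = insert w5 ((insert w4 (insert w3 (insert w2 {w1}))) ∪ O) := by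
    rw [insert_union, ← e4]
    ext z; simp only [mem_sdiff, mem_singleton, mem_univ, true_and, mem_insert]
    tauto
  have f0 : f (cg P) (∅ ∪ O) = 1 := by rw [empty_union]; exact f_of_ind _ hOind
  have f1 : f (cg P) ({w1} ∪ O) = 1 / 2 * P1 := by
    have : ({w1} : Finset P) ∪ O = insert w1 (∅ ∪ O) := by rw [empty_union]; rfl
    rw [this, ← e1, hf1]; norm_num
  have f1' : f (cg P) (insert w1 (∅ ∪ O)) = 1 / 2 * P1 := by rw [← e1, hf1]; norm_num
  have f2 : f (cg P) ((insert w2 {w1}) ∪ O) = 1 / 4 * P2 := by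
    rw [insert_union, ← e2, hf2]; norm_num
  have f3 : f (cg P) ((insert w3 (insert w2 {w1})) ∪ O) = 1 / 8 * P3 := by
    rw [insert_union, ← e3, hf3]; norm_num
  have f4 : f (cg P) ((insert w4 (insert w3 (insert w2 {w1}))) ∪ O) = 1 / 16 * P4 := by
    rw [insert_union, ← e4, hf4]; norm_num
  have f5 : f (cg P) (insert w5 ((insert w4 (insert w3 (insert w2 {w1}))) ∪ O))
      = 1 / 32 * (P4 + x5 * (1 + x4)) := by
    rw [← e5, hf5]; norm_num
  have T1 := tsum (cg P) O ∅ w1 hOind (disjoint_empty_left _) (notMem_empty _) o1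
  have T2 := tsum (cg P) O {w1} w2 hOind (by rw [disjoint_singleton_left]; exact o1)
    (by rw [mem_singleton]; exact fun h => h12 h.symm) o2
  have T3 := tsum (cg P) O (insert w2 {w1}) w3 hOind
    (by rw [disjoint_insert_left, disjoint_singleton_left]; exact ⟨o2, o1⟩)
    (by rw [mem_insert, mem_singleton]; push Not; exact ⟨fun h => h23 h.symm, fun h => h13 h.symm⟩) o3
  have n4 : w4 ∉ insert w3 (insert w2 ({w1} : Finset P)) := by
    rw [mem_insert, mem_insert, mem_singleton]; push Not
    exact ⟨fun h => h34 h.symm, fun h => h24 h.symm, fun h => h14 h.symm⟩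
  have T4 := tsum (cg P) O (insert w3 (insert w2 {w1})) w4 hOind
    (by rw [disjoint_insert_left, disjoint_insert_left, disjoint_singleton_left]; exact ⟨o3, o2, o1⟩)
    n4 o4
  have n5 : w5 ∉ insert w4 (insert w3 (insert w2 ({w1} : Finset P))) := by
    rw [mem_insert, mem_insert, mem_insert, mem_singleton]; push Not
    exact ⟨fun h => h45 h.symm, fun h => h35 h.symm, fun h => h25 h.symm, fun h => h15 h.symm⟩
  have T5 := tsum (cg P) O (insert w4 (insert w3 (insert w2 {w1}))) w5 hOind
    (by rw [disjoint_insert_left, disjoint_insert_left, disjoint_insert_left,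
          disjoint_singleton_left]; exact ⟨o4, o3, o2, o1⟩) n5 o5
  have k2 : (insert w2 ({w1} : Finset P)).card = 2 := by
    rw [card_insert_of_notMem (by rw [mem_singleton]; exact fun h => h12 h.symm), card_singleton]
  have k3 : (insert w3 (insert w2 ({w1} : Finset P))).card = 3 := by
    rw [card_insert_of_notMem, k2]
    rw [mem_insert, mem_singleton]; push Not; exact ⟨fun h => h23 h.symm, fun h => h13 h.symm⟩
  have k4 : (insert w4 (insert w3 (insert w2 ({w1} : Finset P)))).card = 4 := by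
    rw [card_insert_of_notMem n4, k3]
  rw [f1', f0, card_empty] at T1
  rw [← insert_union, f2, f1, card_singleton] at T2
  rw [← insert_union, f3, f2, k2] at T3
  rw [← insert_union, f4, f3, k3] at T4
  rw [f5, f4, k4] at T5
  replace T1 : ∑ S ∈ (∅ : Finset P).powerset, (if Ind (cg P) (insert w1 S) then
      (1 / 2 : ℚ) ^ ((nbr (cg P) O (insert w1 S)).card) else 0) = x1 := by
    rw [hP1] at T1; linarith
  replace T2 : ∑ S ∈ ({w1} : Finset P).powerset, (if Ind (cg P) (insert w2 S) then
      (1 / 2 : ℚ) ^ ((nbr (cg P) O (insert w2 S)).card) else 0) = x2 := by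
    rw [hP1, hP2] at T2; linarith
  replace T3 : ∑ S ∈ (insert w2 {w1} : Finset P).powerset, (if Ind (cg P) (insert w3 S) then
      (1 / 2 : ℚ) ^ ((nbr (cg P) O (insert w3 S)).card) else 0) = x3 * (1 + x2) := by
    rw [hP3, hP2] at T3; linarith
  replace T4 : ∑ S ∈ (insert w3 (insert w2 {w1}) : Finset P).powerset,
      (if Ind (cg P) (insert w4 S) then
      (1 / 2 : ℚ) ^ ((nbr (cg P) O (insert w4 S)).card) else 0) = x4 := by
    rw [hP4, hP3] at T4; linarith
  replace T5 : ∑ S ∈ (insert w4 (insert w3 (insert w2 {w1})) : Finset P).powerset,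
      (if Ind (cg P) (insert w5 S) then
      (1 / 2 : ℚ) ^ ((nbr (cg P) O (insert w5 S)).card) else 0) = x5 * (1 + x4) := by
    linarith
  -- sizes
  have lt_of : ∀ {a b : ℕ}, (1 / 2 : ℚ) ^ a < (1 / 2) ^ b → b < a := by
    intro a b h
    exact (pow_lt_pow_iff_right_of_lt_one₀ (by norm_num) (by norm_num)).1 h
  have le_of : ∀ {a b : ℕ}, (1 / 2 : ℚ) ^ a ≤ (1 / 2) ^ b → b ≤ a := by
    intro a b h
    exact (pow_le_pow_iff_right_of_lt_one₀ (by norm_num) (by norm_num)).1 h
  have B1 := nj_bounds (cg P) O ∅ w1 x1 T1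
  have B2 := nj_bounds (cg P) O {w1} w2 x2 T2
  have B3 := nj_bounds (cg P) O (insert w2 {w1}) w3 (x3 * (1 + x2)) T3
  rw [card_empty] at B1
  rw [card_singleton] at B2
  rw [k2] at B3
  have s1 : a1 ≤ (N (cg P) O w1).card := le_of B1.1
  have s1' : (N (cg P) O w1).card ≤ a1 := le_of (by linarith [B1.2])
  have s2 : a2 ≤ (N (cg P) O w2).card := le_of B2.1
  have s2' : (N (cg P) O w2).card ≤ a2 + 1 := le_of (by rw [pow_succ]; linarith [B2.2])
  have s3 : a3 ≤ (N (cg P) O w3).card + 1 := le_of (by rw [pow_succ]; nlinarith [B3.1])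
  have s3' : (N (cg P) O w3).card ≤ a3 + 2 := le_of (by
    have := B3.2
    have e : (1 / 2 : ℚ) ^ (a3 + 2) = x3 / 4 := by rw [pow_add, hx3]; ring
    rw [e]
    nlinarith)
  have hh1' := hs.h1'
  have hh2' := hs.h2'
  have hh3' := hs.h3'
  -- first block
  have blk1 := block (cg P) O {w1} w2 w3 a2 a3 (col O) (by rw [card_singleton]; norm_num)
    (fun x _ y _ => F1 hOind x y) (fun x _ y _ => F2 hOind x y)
    (fun x _ y _ z _ => F3 hOind x y z)
    (by rw [mem_singleton]; exact fun h => h12 h.symm) T2 T3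
    (by intro q hq; rw [mem_singleton] at hq; subst hq; omega)
    (by rw [nbr_singleton]; omega) (by omega) w1 (mem_singleton_self _)
  -- second block
  have blk2 := block (cg P) O (insert w3 (insert w2 {w1})) w4 w5 a4 a5 (col O) (by rw [k3])
    (fun x _ y _ => F1 hOind x y) (fun x _ y _ => F2 hOind x y)
    (fun x _ y _ z _ => F3 hOind x y z) n4 T4 T5
    (by
      intro q hq
      rw [mem_insert, mem_insert, mem_singleton] at hq
      rcases hq with rfl | rfl | rfl <;> omega)
    (by
      have h1 := nbr_insert_card (cg P) O (insert w2 {w1}) w3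
      have h2 := nbr_insert_card (cg P) O {w1} w2
      have h3 := nbr_singleton (cg P) O w1
      have h4 := card_le_card (sdiff_subset (s := nbr (cg P) O (insert w2 {w1}))
        (t := N (cg P) O w3))
      have h5 := card_le_card (sdiff_subset (s := nbr (cg P) O {w1}) (t := N (cg P) O w2))
      rw [h3] at h5
      have := hs.h4'
      rw [h3] at h2
      omega)
    hs.h5'
  have b1 := blk2 w1 (by simp)
  have b2 := blk2 w2 (by simp)
  revert blk1 b1 b2
  cases col O w1 <;> cases col O w2 <;> cases col O w4 <;> simp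


lemma cnt_univ_of {V : Type} [Fintype V] (G : SimpleGraph V) (Q O : Finset V) (hd : Disjoint Q O)
    (hO : Ind G O) (hcov : ∀ z, z ∈ Q ∨ z ∈ O) :
    cnt G univ = ∑ S ∈ Q.powerset, if Ind G S then 2 ^ (O.card - (nbr G O S).card) else 0 := by
  have : (univ : Finset V) = Q ∪ O := by
    ext z; simp only [mem_univ, mem_union, true_iff]; exact hcov z
  rw [this]
  exact cnt_union G Q O hd hO

section graphH

variable (a : Fin 5 → ℕ)

/-- vertices: five centres and `a i` pendant vertices for each centre `i`. -/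
abbrev VH : Type := Fin 5 ⊕ (Σ i : Fin 5, Fin (a i))

/-- the parts of the complete multipartite graph on the centres. -/
def part : Fin 5 → ℕ := ![0, 1, 1, 2, 2]

/-- adjacency. -/
def adjH : VH a → VH a → Prop
  | Sum.inl i, Sum.inl j => part i ≠ part j
  | Sum.inl i, Sum.inr s => s.1 = i
  | Sum.inr s, Sum.inl i => s.1 = i
  | Sum.inr _, Sum.inr _ => False

/-- the special graph. -/
def GH : SimpleGraph (VH a) where
  Adj := adjH a
  symm := ⟨by
    intro x y h
    cases x <;> cases y <;> simp only [adjH] at h ⊢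
    · exact Ne.symm h
    · exact h
    · exact h⟩
  loopless := ⟨by
    intro x h
    cases x <;> simp [adjH] at h⟩

/-- the pendant vertices. -/
noncomputable def OH : Finset (VH a) := univ.map Function.Embedding.inr

lemma OH_card : (OH a).card = ∑ i, a i := by
  unfold OH
  rw [card_map, card_univ, Fintype.card_sigma]
  simp

lemma ind_OH : Ind (GH a) (OH a) := by
  intro x hx y hy
  unfold OH at hx hy
  rw [mem_map] at hx hy
  obtain ⟨x', _, rfl⟩ := hx
  obtain ⟨y', _, rfl⟩ := hy
  simp [GH, adjH]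

lemma nbr_OH_card (S : Finset (Fin 5)) :
    (nbr (GH a) (OH a) (S.map Function.Embedding.inl)).card = ∑ i ∈ S, a i := by
  have : nbr (GH a) (OH a) (S.map Function.Embedding.inl)
      = (S.sigma (fun i => (univ : Finset (Fin (a i))))).map Function.Embedding.inr := by
    ext z
    simp only [nbr, OH, mem_filter, mem_map, mem_univ, true_and, mem_sigma]
    constructor
    · rintro ⟨⟨s, rfl⟩, t, ⟨i, hi, rfl⟩, hadj⟩
      refine ⟨s, ?_, rfl⟩
      simp only [GH, adjH, Function.Embedding.inl_apply, Function.Embedding.inr_apply] at hadj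
      rw [hadj]
      exact ⟨hi, trivial⟩
    · rintro ⟨s, ⟨hs, _⟩, rfl⟩
      refine ⟨⟨s, rfl⟩, Sum.inl s.1, ⟨s.1, hs, rfl⟩, ?_⟩
      simp [GH, adjH]
  rw [this, card_map, card_sigma]
  simp

lemma ind_inl (S : Finset (Fin 5)) :
    Ind (GH a) (S.map Function.Embedding.inl) ↔ ∀ i ∈ S, ∀ j ∈ S, part i = part j := by
  constructor
  · intro h i hi j hj
    have := h (Sum.inl i) (mem_map.2 ⟨i, hi, rfl⟩) (Sum.inl j) (mem_map.2 ⟨j, hj, rfl⟩)
    simp only [GH, adjH, ne_eq, not_not] at this
    exact this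
  · intro h x hx y hy
    rw [mem_map] at hx hy
    obtain ⟨i, hi, rfl⟩ := hx
    obtain ⟨j, hj, rfl⟩ := hy
    simp only [GH, adjH, Function.Embedding.inl_apply, ne_eq, not_not]
    exact h i hi j hj

lemma univ_VH (z : VH a) : z ∈ (univ : Finset (Fin 5)).map Function.Embedding.inl ∨ z ∈ OH a := by
  simp only [OH, mem_univ, mem_map, true_and]
  rcases z with i | s
  · exact Or.inl ⟨i, rfl⟩
  · exact Or.inr ⟨s, rfl⟩

lemma cnt_GH : cnt (GH a) univ = ∑ S ∈ (univ : Finset (Fin 5)).powerset,
    if (∀ i ∈ S, ∀ j ∈ S, part i = part j) then 2 ^ ((∑ i, a i) - ∑ i ∈ S, a i) else 0 := by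
  have hd : Disjoint ((univ : Finset (Fin 5)).map Function.Embedding.inl) (OH a) := by
    rw [disjoint_left]
    intro z hz hz'
    unfold OH at hz'
    rw [mem_map] at hz hz'
    obtain ⟨i, _, rfl⟩ := hz
    obtain ⟨s, _, hs⟩ := hz'
    simp at hs
  rw [cnt_univ_of (GH a) _ (OH a) hd (ind_OH a) (univ_VH a), OH_card]
  symm
  refine Finset.sum_bij (fun S _ => S.map Function.Embedding.inl) ?_ ?_ ?_ ?_
  · intro S _
    rw [mem_powerset]
    exact map_subset_map.2 (subset_univ _)
  · intro S _ T _ h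
    exact map_injective _ h
  · intro T hT
    rw [mem_powerset, subset_map_iff] at hT
    obtain ⟨S, hS, rfl⟩ := hT
    exact ⟨S, mem_powerset.2 hS, rfl⟩
  · intro S _
    rw [nbr_OH_card]
    by_cases h : ∀ i ∈ S, ∀ j ∈ S, part i = part j
    · rw [if_pos h, if_pos ((ind_inl a S).2 h)]
    · rw [if_neg h, if_neg (fun h' => h ((ind_inl a S).1 h'))]

end graphH

end Pool.Agent.S04938

namespace Pool.Agent.S04938

lemma indep_sets : ((Finset.univ : Finset (Fin 5)).powerset.filter
    (fun S => ∀ i ∈ S, ∀ j ∈ S, part i = part j)) =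
    {∅, {0}, {1}, {2}, {3}, {4}, {1, 2}, {3, 4}} := by decide

lemma cnt_GH' (a : Fin 5 → ℕ) : cnt (GH a) Finset.univ =
    2 ^ (∑ i, a i) + 2 ^ ((∑ i, a i) - a 0) + 2 ^ ((∑ i, a i) - a 1) + 2 ^ ((∑ i, a i) - a 2)
    + 2 ^ ((∑ i, a i) - a 3) + 2 ^ ((∑ i, a i) - a 4) + 2 ^ ((∑ i, a i) - (a 1 + a 2))
    + 2 ^ ((∑ i, a i) - (a 3 + a 4)) := by
  rw [cnt_GH]
  have h : ∀ (g : Finset (Fin 5) → ℕ), (∑ S ∈ (Finset.univ : Finset (Fin 5)).powerset,
      if (∀ i ∈ S, ∀ j ∈ S, part i = part j) then g S else 0)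
      = g ∅ + g {0} + g {1} + g {2} + g {3} + g {4} + g {1, 2} + g {3, 4} := by
    intro g
    rw [← Finset.sum_filter, indep_sets]
    rw [Finset.sum_insert (by decide), Finset.sum_insert (by decide), Finset.sum_insert (by decide),
      Finset.sum_insert (by decide), Finset.sum_insert (by decide), Finset.sum_insert (by decide),
      Finset.sum_insert (by decide), Finset.sum_singleton]
    ring
  rw [h]
  have e12 : ∑ i ∈ ({1, 2} : Finset (Fin 5)), a i = a 1 + a 2 := by
    rw [Finset.sum_insert (by decide), Finset.sum_singleton]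
  have e34 : ∑ i ∈ ({3, 4} : Finset (Fin 5)), a i = a 3 + a 4 := by
    rw [Finset.sum_insert (by decide), Finset.sum_singleton]
  rw [e12, e34]
  simp only [Finset.sum_empty, Nat.sub_zero, Finset.sum_singleton]

lemma sub_pow (s b : ℕ) (h : b ≤ s) : ((2 ^ (s - b) : ℕ) : ℚ) = 2 ^ s * (1 / 2) ^ b := by
  push_cast
  have : (2 : ℚ) ^ s = 2 ^ (s - b) * 2 ^ b := by rw [← pow_add]; congr 1; omega
  rw [this, mul_assoc, ← mul_pow]; norm_num

lemma f_GH (a1 a2 a3 a4 a5 : ℕ) : (cnt (GH ![a1, a2, a3, a4, a5]) Finset.univ : ℚ)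
    / 2 ^ (5 + (a1 + a2 + a3 + a4 + a5)) =
    1 / 32 * (1 + (1 / 2) ^ a1 + (1 / 2) ^ a2 + (1 / 2) ^ a3 * (1 + (1 / 2) ^ a2)
      + (1 / 2) ^ a4 + (1 / 2) ^ a5 * (1 + (1 / 2) ^ a4)) := by
  rw [cnt_GH']
  have hs : ∑ i, (![a1, a2, a3, a4, a5] : Fin 5 → ℕ) i = a1 + a2 + a3 + a4 + a5 := by
    rw [Fin.sum_univ_five]; rfl
  rw [hs]
  have g0 : (![a1, a2, a3, a4, a5] : Fin 5 → ℕ) 0 = a1 := rfl
  have g1 : (![a1, a2, a3, a4, a5] : Fin 5 → ℕ) 1 = a2 := rfl
  have g2 : (![a1, a2, a3, a4, a5] : Fin 5 → ℕ) 2 = a3 := rfl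
  have g3 : (![a1, a2, a3, a4, a5] : Fin 5 → ℕ) 3 = a4 := rfl
  have g4 : (![a1, a2, a3, a4, a5] : Fin 5 → ℕ) 4 = a5 := rfl
  rw [g0, g1, g2, g3, g4]
  simp only [Nat.cast_add]
  rw [sub_pow _ a1 (by omega), sub_pow _ a2 (by omega), sub_pow _ a3 (by omega),
    sub_pow _ a4 (by omega), sub_pow _ a5 (by omega), sub_pow _ (a2 + a3) (by omega),
    sub_pow _ (a4 + a5) (by omega)]
  rw [div_eq_iff (by positivity)]
  push_cast
  ring

lemma ncard_ind {V : Type} [Fintype V] (G : SimpleGraph V) :
    {s : Finset V | Ind G s}.ncard = cnt G Finset.univ := by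
  classical
  unfold cnt
  rw [← Finset.sum_filter, ← Finset.card_eq_sum_ones, ← Set.ncard_coe_finset]
  congr 1
  ext s
  simp

lemma anti_iff {P : Type} [PartialOrder P] (s : Finset P) :
    IsAntichain (· ≤ ·) (s : Set P) ↔ Ind (cg P) s := by
  constructor
  · intro h x hx y hy hadj
    rcases hadj with h1 | h1
    · exact h (Finset.mem_coe.2 hx) (Finset.mem_coe.2 hy) h1.ne h1.le
    · exact h (Finset.mem_coe.2 hy) (Finset.mem_coe.2 hx) h1.ne h1.le
  · intro h x hx y hy hne hle
    exact h x (Finset.mem_coe.1 hx) y (Finset.mem_coe.1 hy) (Or.inl (lt_of_le_of_ne hle hne))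

/-- cliques of the complement are independent sets. -/
lemma clique_iff {V W : Type} (G : SimpleGraph V) (e : W ≃ V) (s : Finset W) :
    (Gᶜ.comap e).IsClique (s : Set W) ↔ Ind G (s.map e.toEmbedding) := by
  constructor
  · intro h x hx y hy hadj
    rw [Finset.mem_map] at hx hy
    obtain ⟨x', hx', rfl⟩ := hx
    obtain ⟨y', hy', rfl⟩ := hy
    have hne : x' ≠ y' := by
      rintro rfl; exact G.loopless.irrefl _ hadj
    have := h (Finset.mem_coe.2 hx') (Finset.mem_coe.2 hy') hne
    simp only [SimpleGraph.comap_adj, SimpleGraph.compl_adj] at this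
    exact this.2 hadj
  · intro h x hx y hy hne
    simp only [SimpleGraph.comap_adj, SimpleGraph.compl_adj]
    refine ⟨fun h' => hne (e.injective h'), ?_⟩
    exact h (e x) (Finset.mem_map.2 ⟨x, hx, rfl⟩) (e y) (Finset.mem_map.2 ⟨y, hy, rfl⟩)

lemma ncard_clique {V W : Type} [Fintype V] (G : SimpleGraph V) (e : W ≃ V) :
    {s : Finset W | (Gᶜ.comap e).IsClique (s : Set W)}.ncard = cnt G Finset.univ := by
  rw [← ncard_ind]
  refine Set.ncard_congr (fun s _ => s.map e.toEmbedding) ?_ ?_ ?_
  · intro s hs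
    exact (clique_iff G e s).1 hs
  · intro s t _ _ h
    exact Finset.map_injective _ h
  · intro t ht
    refine ⟨t.map e.symm.toEmbedding, ?_, ?_⟩
    · show (Gᶜ.comap e).IsClique _
      rw [clique_iff]
      have : (t.map e.symm.toEmbedding).map e.toEmbedding = t := by
        ext z; simp
      rw [this]; exact ht
    · ext z; simp

lemma sep_exists : ∃ a1 a2 a3 a4 a5 : ℕ, Sep a1 a2 a3 a4 a5 := by
  obtain ⟨a1, h1, h1'⟩ : ∃ a1, kap 6 5 ≤ a1 ∧ 21 ≤ a1 :=
    ⟨max (kap 6 5) 21, le_max_left _ _, le_max_right _ _⟩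
  obtain ⟨a2, h2, h2'⟩ : ∃ a2, kap 6 (a1 + 5) ≤ a2 ∧ 2 * a1 + 7 ≤ a2 :=
    ⟨max (kap 6 (a1 + 5)) (2 * a1 + 7), le_max_left _ _, le_max_right _ _⟩
  obtain ⟨a3, h3, h3'⟩ : ∃ a3, kap 6 (a2 + 5) + 1 ≤ a3 ∧ a2 + 23 ≤ a3 :=
    ⟨max (kap 6 (a2 + 5) + 1) (a2 + 23), le_max_left _ _, le_max_right _ _⟩
  obtain ⟨a4, h4, h4'⟩ : ∃ a4, kap 6 (a2 + a3 + 5) ≤ a4 ∧ 2 * (a1 + a2 + a3 + 3) + 7 ≤ a4 :=
    ⟨max (kap 6 (a2 + a3 + 5)) (2 * (a1 + a2 + a3 + 3) + 7), le_max_left _ _, le_max_right _ _⟩
  obtain ⟨a5, h5, h5'⟩ : ∃ a5, kap 6 (a4 + 5) + 1 ≤ a5 ∧ a4 ≤ a5 :=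
    ⟨max (kap 6 (a4 + 5) + 1) a4, le_max_left _ _, le_max_right _ _⟩
  exact ⟨a1, a2, a3, a4, a5, h1, h1', h2, h2', h3, h3', h4, h4', h5, h5'⟩

/-- The negation of the preceding statement: For all n and k: if some graph on n vertices has exactly k vertex subsets that are cliques (empty set included), then some poset on n points has exactly k subsets that are antichains (empty set included). -/
theorem result :
    ¬ (∀ n k : ℕ,
      (∃ G : SimpleGraph (Fin n),
          {s : Finset (Fin n) | G.IsClique (s : Set (Fin n))}.ncard = k) →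
      ∃ (P : Type) (_ : Fintype P) (_ : PartialOrder P),
          Fintype.card P = n ∧
          {s : Finset P | IsAntichain (· ≤ ·) (s : Set P)}.ncard = k) := by
  intro H
  obtain ⟨a1, a2, a3, a4, a5, hs⟩ := sep_exists
  have hcard : Fintype.card (VH ![a1, a2, a3, a4, a5]) = 5 + (a1 + a2 + a3 + a4 + a5) := by
    rw [Fintype.card_sum, Fintype.card_fin, Fintype.card_sigma]
    simp only [Fintype.card_fin]
    rw [Fin.sum_univ_five]; rfl
  have e : Fin (5 + (a1 + a2 + a3 + a4 + a5)) ≃ VH ![a1, a2, a3, a4, a5] :=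
    (Fintype.equivFinOfCardEq hcard).symm
  obtain ⟨P, iF, iP, hP, hk⟩ := H (5 + (a1 + a2 + a3 + a4 + a5))
    (cnt (GH ![a1, a2, a3, a4, a5]) Finset.univ)
    ⟨(GH ![a1, a2, a3, a4, a5])ᶜ.comap e, ncard_clique _ e⟩
  have h1 : {s : Finset P | IsAntichain (· ≤ ·) (s : Set P)} = {s : Finset P | Ind (cg P) s} := by
    ext s; exact anti_iff s
  rw [h1, ncard_ind] at hk
  refine no_poset P a1 a2 a3 a4 a5 hs ?_
  unfold f
  rw [hk, Finset.card_univ, hP]
  exact f_GH a1 a2 a3 a4 a5

end Pool.Agent.S04938
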