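-- Proof of S04941 (MP_1f15ea_co): D(k) = ⌊(5k-7)/3⌋ for all k ≥ 4.
-- Upper bound: `TDVC.upper`; constructions: `TDVC.FG_all`.
import Pool.Statements.S04941

set_option autoImplicit false
open Pool Pool.MP_1f15ea_co

namespace Pool.Agent.S04941

namespace TDVC

/-- abstract data extracted from a critical graph along a geodesic -/
structure Ax (d k : ℕ) (L R : ℕ → ℕ → Prop) (t : ℕ → ℕ → ℕ) : Prop where
  mono : ∀ u m, t u m ≤ t u (m+1)
  zero : ∀ u, t u 0 = 0
  tend : ∀ u, u ≤ d → t u (d+1) + 1 = k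
  three : ∀ u j, u ≤ d → t u (j+2) ≠ t u j → t u (j+3) ≠ t u (j+1) → t u j + 2 ≤ t u (j+3)
  F : ∀ p q a b, p ≤ q → L q a → R p b → k ≤ a + b
  L2 : ∀ q a, L q a → 2 ≤ a
  R2 : ∀ p b, p < d → R p b → 2 ≤ b
  E1 : ∀ u q a, u ≤ q → q ≤ d → L q a → t u q + 1 ≤ a
  E2 : ∀ u p b, p + 1 ≤ u → u ≤ d → R p b → k ≤ b + t u (p+2)
  S1 : ∀ u m, 1 ≤ u → u ≤ m → m < d → t u (m+2) = t u m → L m (t u m + 1) ∧ R m (k - 1 - t u m)
  S2 : ∀ u m, m < u → u < d → t u (m+2) = t u m → L m (t u m) ∧ R m (k - t u m)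
  l1 : t 1 1 = 0
  l2 : ∀ u, 1 ≤ u → u ≤ d → 1 ≤ t u 2
  l3 : ∀ u, 1 ≤ u → u ≤ d → 2 ≤ t u 3
  r1 : ∀ u m, u < d → m + 1 = d → t u m < t u (m+2)
  r2 : ∀ u m, u < d → m + 2 = d → t u m + 2 ≤ t u (m+3)

variable {d k : ℕ} {L R : ℕ → ℕ → Prop} {t : ℕ → ℕ → ℕ}

theorem Ax.mono' (h : Ax d k L R t) (u : ℕ) {m n : ℕ} (hmn : m ≤ n) : t u m ≤ t u n := by
  induction n, hmn using Nat.le_induction with
  | base => exact le_rfl
  | succ n _ ih => exact ih.trans (h.mono u n)

/-- counting: no two consecutive zero layers in `[x,y)` -/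
theorem Ax.count (h : Ax d k L R t) {u : ℕ} (hu : u ≤ d) (x : ℕ) : ∀ y, x ≤ y →
    (∀ j, x ≤ j → j + 1 < y → t u (j+2) ≠ t u j) →
    2 * y + 3 * t u x ≤ 3 * t u y + 2 * x + 2 := by
  intro y
  induction y using Nat.strong_induction_on with
  | _ y ih =>
    intro hxy hj
    have m1 := h.mono' u hxy
    by_cases h1 : y ≤ x + 1
    · omega
    by_cases h2 : y = x + 2
    · subst h2
      have := hj x le_rfl (by omega)
      have := h.mono' u (show x ≤ x+2 by omega)
      omega
    obtain ⟨z, rfl⟩ : ∃ z, y = z + 3 := ⟨y - 3, by omega⟩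
    have i1 := ih z (by omega) (by omega) (fun j hj1 hj2 => hj j hj1 (by omega))
    have a1 := hj z (by omega) (by omega)
    have a2 := hj (z+1) (by omega) (by omega)
    have := h.three u z hu a1 a2
    omega

theorem exists_first {P : ℕ → Prop} {a b : ℕ} (h : ∃ m, a ≤ m ∧ m < b ∧ P m) :
    ∃ m, a ≤ m ∧ m < b ∧ P m ∧ ∀ j, a ≤ j → j < m → ¬ P j := by
  classical
  have hf := Nat.find_spec h
  refine ⟨Nat.find h, hf.1, hf.2.1, hf.2.2, ?_⟩
  intro j hj1 hj2 hPj
  exact Nat.find_min h hj2 ⟨hj1, by omega, hPj⟩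

/-- Claim I -/
theorem Ax.claimI (h : Ax d k L R t) : ∀ l p q a b : ℕ, p < q → q ≤ d → q = p + l →
    L q a → R p b → 3 * l + 5 * k ≤ 5 * a + 5 * b + 4 := by
  intro l
  induction l using Nat.strong_induction_on with
  | _ l ih =>
    intro p q a b hpq hqd hql hL hR
    have hF := h.F p q a b hpq.le hL hR
    by_cases hl1 : l = 1
    · omega
    by_contra hcon
    have hk : 1 ≤ k := by have := h.tend 0 (by omega); omega
    -- u = p+1
    have e1 := h.E1 (p+1) q a (by omega) hqd hL
    have e2 := h.E2 (p+1) p b (by omega) (by omega) hR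
    by_cases hs : ∃ m, p + 1 ≤ m ∧ m < q ∧ t (p+1) (m+2) = t (p+1) m
    swap
    · push Not at hs
      have := h.count (u := p+1) (by omega) (p+2) q (by omega)
        (fun j hj1 hj2 => hs j (by omega) (by omega))
      omega
    obtain ⟨m, hm1, hm2, hm3, hm4⟩ := exists_first hs
    obtain ⟨sL, sR⟩ := h.S1 (p+1) m (by omega) (by omega) (by omega) hm3
    have hi := ih (q - m) (by omega) m q a _ hm2 hqd (by omega) hL sR
    clear hs
    have mm : t (p+1) m ≤ t (p+1) (m+1) := h.mono (p+1) m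
    have mm' : t (p+1) (m+1) ≤ t (p+1) (m+2) := h.mono (p+1) (m+1)
    have m3 := h.mono' (p+1) (show p + 2 ≤ m+1 by omega)
    have m4 := h.mono' (p+1) (show m + 1 ≤ d+1 by omega)
    have td := h.tend (p+1) (by omega)
    have cnt := h.count (u := p+1) (by omega) (p+2) (m+1) (by omega)
        (fun j hj1 hj2 => hm4 j (by omega) (by omega))
    -- forced: m = p+2
    have hm : m = p + 2 := by omega
    have hT : 5 * a + 5 * b + 5 = 3 * l + 5 * k := by omega
    have hl5 : 5 ≤ l := by omega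
    -- u = p+3
    have e1' := h.E1 (p+3) q a (by omega) hqd hL
    have e2' := h.E2 (p+3) p b (by omega) (by omega) hR
    have td' := h.tend (p+3) (by omega)
    by_cases hsp : t (p+3) (p+4) = t (p+3) (p+2)
    · obtain ⟨sL2, _⟩ := h.S2 (p+3) (p+2) (by omega) (by omega) hsp
      have hi2 := ih 2 (by omega) p (p+2) _ b (by omega) (by omega) (by omega) sL2 hR
      have n1 : t (p+3) (p+2) ≤ t (p+3) (p+3) := h.mono (p+3) (p+2)
      have n2 : t (p+3) (p+3) ≤ t (p+3) (p+4) := h.mono (p+3) (p+3)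
      by_cases hs' : ∃ m, p + 3 ≤ m ∧ m < q ∧ t (p+3) (m+2) = t (p+3) m
      · obtain ⟨i, hi1, hi2', hi3, hi4⟩ := exists_first hs'
        obtain ⟨_, sR'⟩ := h.S1 (p+3) i (by omega) (by omega) (by omega) hi3
        have hi' := ih (q - i) (by omega) i q a _ hi2' hqd (by omega) hL sR'
        clear hs'
        have n3 : t (p+3) i ≤ t (p+3) (i+1) := h.mono (p+3) i
        have n4 : t (p+3) (i+1) ≤ t (p+3) (i+2) := h.mono (p+3) (i+1)
        have n5 := h.mono' (p+3) (show i + 1 ≤ d+1 by omega)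
        have cnt' := h.count (u := p+3) (by omega) (p+3) (i+1) (by omega)
          (fun j hj1 hj2 => hi4 j (by omega) (by omega))
        omega
      · push Not at hs'
        have cnt' := h.count (u := p+3) (by omega) (p+3) q (by omega)
          (fun j hj1 hj2 => hs' j (by omega) (by omega))
        omega
    · by_cases hs' : ∃ m, p + 3 ≤ m ∧ m < q ∧ t (p+3) (m+2) = t (p+3) m
      · obtain ⟨i, hi1, hi2', hi3, hi4⟩ := exists_first hs'
        obtain ⟨_, sR'⟩ := h.S1 (p+3) i (by omega) (by omega) (by omega) hi3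
        have hi' := ih (q - i) (by omega) i q a _ hi2' hqd (by omega) hL sR'
        clear hs'
        have n3 : t (p+3) i ≤ t (p+3) (i+1) := h.mono (p+3) i
        have n4 : t (p+3) (i+1) ≤ t (p+3) (i+2) := h.mono (p+3) (i+1)
        have n5 := h.mono' (p+3) (show i + 1 ≤ d+1 by omega)
        have cnt' := h.count (u := p+3) (by omega) (p+2) (i+1) (by omega)
          (fun j hj1 hj2 => by
            rcases Nat.lt_or_ge j (p+3) with hlt | hge
            · have : j = p+2 := by omega
              subst this; exact hsp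
            · exact hi4 j (by omega) (by omega))
        omega
      · push Not at hs'
        have cnt' := h.count (u := p+3) (by omega) (p+2) q (by omega)
          (fun j hj1 hj2 => by
            rcases Nat.lt_or_ge j (p+3) with hlt | hge
            · have : j = p+2 := by omega
              subst this; exact hsp
            · exact hs' j (by omega) (by omega))
        omega


/-- counting up to the right end -/
theorem Ax.countEnd (h : Ax d k L R t) {u : ℕ} (hu : u < d) (x : ℕ) (hx : x + 2 ≤ d)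
    (hj : ∀ j, x ≤ j → j + 2 < d → t u (j+2) ≠ t u j) :
    2 * d + 3 * t u x ≤ 3 * (k - 1) + 2 * x := by
  have td := h.tend u (by omega)
  obtain ⟨e, rfl⟩ : ∃ e, d = e + 2 := ⟨d - 2, by omega⟩
  have c := h.count (u := u) (by omega) x e (by omega)
    (fun j hj1 hj2 => hj j hj1 (by omega))
  have r := h.r2 u e hu rfl
  have e3 : t u (e+2+1) = t u (e+3) := rfl
  omega

/-- Claim R -/
theorem Ax.claimR (h : Ax d k L R t) : ∀ l p b : ℕ, p < d → d = p + l →
    R p b → 3 * l ≤ 5 * b := by
  intro l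
  induction l using Nat.strong_induction_on with
  | _ l ih =>
    intro p b hpd hdl hR
    have hb := h.R2 p b hpd hR
    by_contra hcon
    have hl4 : 4 ≤ l := by omega
    have hk : 1 ≤ k := by have := h.tend 0 (by omega); omega
    have e2 := h.E2 (p+1) p b (by omega) (by omega) hR
    have td := h.tend (p+1) (by omega)
    by_cases hs : ∃ m, p + 1 ≤ m ∧ m < d ∧ t (p+1) (m+2) = t (p+1) m
    swap
    · push Not at hs
      have := h.countEnd (u := p+1) (by omega) (p+2) (by omega)
        (fun j hj1 hj2 => hs j (by omega) (by omega))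
      omega
    obtain ⟨m, hm1, hm2, hm3, hm4⟩ := exists_first hs
    clear hs
    obtain ⟨sL, sR⟩ := h.S1 (p+1) m (by omega) (by omega) (by omega) hm3
    have hi := ih (d - m) (by omega) m _ hm2 (by omega) sR
    have mm : t (p+1) m ≤ t (p+1) (m+1) := h.mono (p+1) m
    have mm' : t (p+1) (m+1) ≤ t (p+1) (m+2) := h.mono (p+1) (m+1)
    have m3 := h.mono' (p+1) (show p + 2 ≤ m+1 by omega)
    have m4 := h.mono' (p+1) (show m + 1 ≤ d+1 by omega)
    have cnt := h.count (u := p+1) (by omega) (p+2) (m+1) (by omega)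
        (fun j hj1 hj2 => hm4 j (by omega) (by omega))
    -- forced: m = p+2
    have hm : m = p + 2 := by omega
    have hT : 5 * b + 1 = 3 * l := by omega
    have hl5 : 7 ≤ l := by omega
    -- u = p+3
    have e2' := h.E2 (p+3) p b (by omega) (by omega) hR
    have td' := h.tend (p+3) (by omega)
    by_cases hsp : t (p+3) (p+4) = t (p+3) (p+2)
    · obtain ⟨sL2, _⟩ := h.S2 (p+3) (p+2) (by omega) (by omega) hsp
      have hi2 := h.claimI 2 p (p+2) _ b (by omega) (by omega) (by omega) sL2 hR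
      have n1 : t (p+3) (p+2) ≤ t (p+3) (p+3) := h.mono (p+3) (p+2)
      have n2 : t (p+3) (p+3) ≤ t (p+3) (p+4) := h.mono (p+3) (p+3)
      by_cases hs' : ∃ m, p + 3 ≤ m ∧ m < d ∧ t (p+3) (m+2) = t (p+3) m
      · obtain ⟨i, hi1, hi2', hi3, hi4⟩ := exists_first hs'
        obtain ⟨_, sR'⟩ := h.S1 (p+3) i (by omega) (by omega) (by omega) hi3
        have hi' := ih (d - i) (by omega) i _ hi2' (by omega) sR'
        clear hs'
        have n3 : t (p+3) i ≤ t (p+3) (i+1) := h.mono (p+3) i
        have n4 : t (p+3) (i+1) ≤ t (p+3) (i+2) := h.mono (p+3) (i+1)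
        have n5 := h.mono' (p+3) (show i + 1 ≤ d+1 by omega)
        have cnt' := h.count (u := p+3) (by omega) (p+3) (i+1) (by omega)
          (fun j hj1 hj2 => hi4 j (by omega) (by omega))
        omega
      · push Not at hs'
        have cnt' := h.countEnd (u := p+3) (by omega) (p+3) (by omega)
          (fun j hj1 hj2 => hs' j (by omega) (by omega))
        omega
    · by_cases hs' : ∃ m, p + 3 ≤ m ∧ m < d ∧ t (p+3) (m+2) = t (p+3) m
      · obtain ⟨i, hi1, hi2', hi3, hi4⟩ := exists_first hs'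
        obtain ⟨_, sR'⟩ := h.S1 (p+3) i (by omega) (by omega) (by omega) hi3
        have hi' := ih (d - i) (by omega) i _ hi2' (by omega) sR'
        clear hs'
        have n3 : t (p+3) i ≤ t (p+3) (i+1) := h.mono (p+3) i
        have n4 : t (p+3) (i+1) ≤ t (p+3) (i+2) := h.mono (p+3) (i+1)
        have n5 := h.mono' (p+3) (show i + 1 ≤ d+1 by omega)
        have cnt' := h.count (u := p+3) (by omega) (p+2) (i+1) (by omega)
          (fun j hj1 hj2 => by
            rcases Nat.lt_or_ge j (p+3) with hlt | hge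
            · have : j = p+2 := by omega
              subst this; exact hsp
            · exact hi4 j (by omega) (by omega))
        omega
      · push Not at hs'
        have cnt' := h.countEnd (u := p+3) (by omega) (p+2) (by omega)
          (fun j hj1 hj2 => by
            rcases Nat.lt_or_ge j (p+3) with hlt | hge
            · have : j = p+2 := by omega
              subst this; exact hsp
            · exact hs' j (by omega) (by omega))
        omega

/-- Claim L -/
theorem Ax.claimL (h : Ax d k L R t) : ∀ q a : ℕ, q ≤ d → 1 ≤ q →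
    L q a → 3 * q + 3 ≤ 5 * a := by
  intro q
  induction q using Nat.strong_induction_on with
  | _ q ih =>
    intro a hqd hq1 hL
    have ha := h.L2 q a hL
    by_contra hcon
    have hq3 : 3 ≤ q := by omega
    have hk : 1 ≤ k := by have := h.tend 0 (by omega); omega
    -- u = 1
    have e1 := h.E1 1 q a (by omega) hqd hL
    have l1 := h.l1
    have l2 := h.l2 1 le_rfl (by omega)
    have l3 := h.l3 1 le_rfl (by omega)
    have td := h.tend 1 (by omega)
    by_cases hs : ∃ m, 2 ≤ m ∧ m < q ∧ t 1 (m+2) = t 1 m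
    swap
    · push Not at hs
      have := h.count (u := 1) (by omega) 3 q (by omega)
        (fun j hj1 hj2 => hs j (by omega) (by omega))
      omega
    obtain ⟨m, hm1, hm2, hm3, hm4⟩ := exists_first hs
    clear hs
    obtain ⟨sL, sR⟩ := h.S1 1 m (by omega) (by omega) (by omega) hm3
    have hi := h.claimI (q - m) m q a _ hm2 hqd (by omega) hL sR
    have mm : t 1 m ≤ t 1 (m+1) := h.mono 1 m
    have mm' : t 1 (m+1) ≤ t 1 (m+2) := h.mono 1 (m+1)
    have m4 := h.mono' 1 (show m + 1 ≤ d+1 by omega)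
    have cnt := h.count (u := 1) (by omega) 3 (m+1) (by omega)
        (fun j hj1 hj2 => hm4 j (by omega) (by omega))
    have hm : m = 3 := by omega
    have hT : 5 * a = 3 * q + 2 := by omega
    have hq6 : 6 ≤ q := by omega
    -- u = 4
    have e1' := h.E1 4 q a (by omega) hqd hL
    have td' := h.tend 4 (by omega)
    have l3' := h.l3 4 (by omega) (by omega)
    by_cases hsp : t 4 5 = t 4 3
    · obtain ⟨sL2, _⟩ := h.S2 4 3 (by omega) (by omega) hsp
      have hi2 := ih 3 (by omega) _ (by omega) (by omega) sL2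
      have n1 : t 4 3 ≤ t 4 4 := h.mono 4 3
      have n2 : t 4 4 ≤ t 4 5 := h.mono 4 4
      by_cases hs' : ∃ m, 4 ≤ m ∧ m < q ∧ t 4 (m+2) = t 4 m
      · obtain ⟨i, hi1, hi2', hi3, hi4⟩ := exists_first hs'
        obtain ⟨_, sR'⟩ := h.S1 4 i (by omega) (by omega) (by omega) hi3
        have hi' := h.claimI (q - i) i q a _ hi2' hqd (by omega) hL sR'
        clear hs'
        have n3 : t 4 i ≤ t 4 (i+1) := h.mono 4 i
        have n4 : t 4 (i+1) ≤ t 4 (i+2) := h.mono 4 (i+1)
        have n5 := h.mono' 4 (show i + 1 ≤ d+1 by omega)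
        have cnt' := h.count (u := 4) (by omega) 4 (i+1) (by omega)
          (fun j hj1 hj2 => hi4 j (by omega) (by omega))
        omega
      · push Not at hs'
        have cnt' := h.count (u := 4) (by omega) 4 q (by omega)
          (fun j hj1 hj2 => hs' j (by omega) (by omega))
        omega
    · by_cases hs' : ∃ m, 4 ≤ m ∧ m < q ∧ t 4 (m+2) = t 4 m
      · obtain ⟨i, hi1, hi2', hi3, hi4⟩ := exists_first hs'
        obtain ⟨_, sR'⟩ := h.S1 4 i (by omega) (by omega) (by omega) hi3
        have hi' := h.claimI (q - i) i q a _ hi2' hqd (by omega) hL sR'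
        clear hs'
        have n3 : t 4 i ≤ t 4 (i+1) := h.mono 4 i
        have n4 : t 4 (i+1) ≤ t 4 (i+2) := h.mono 4 (i+1)
        have n5 := h.mono' 4 (show i + 1 ≤ d+1 by omega)
        have cnt' := h.count (u := 4) (by omega) 3 (i+1) (by omega)
          (fun j hj1 hj2 => by
            rcases Nat.lt_or_ge j 4 with hlt | hge
            · have : j = 3 := by omega
              subst this; exact hsp
            · exact hi4 j (by omega) (by omega))
        omega
      · push Not at hs'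
        have cnt' := h.count (u := 4) (by omega) 3 q (by omega)
          (fun j hj1 hj2 => by
            rcases Nat.lt_or_ge j 4 with hlt | hge
            · have : j = 3 := by omega
              subst this; exact hsp
            · exact hs' j (by omega) (by omega))
        omega

/-- the two-ended bound -/
theorem Ax.claimLR (h : Ax d k L R t) (hk : 4 ≤ k) (hd : 4 ≤ d) : 3 * d + 7 ≤ 5 * k := by
  by_contra hcon
  have hd5 : 5 ≤ d := by omega
  have l1 := h.l1
  have l2 := h.l2 1 le_rfl (by omega)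
  have l3 := h.l3 1 le_rfl (by omega)
  have td := h.tend 1 (by omega)
  have rr : ∀ u, u < d → t u (d+1) ≠ t u (d-1) := by
    intro u hu
    have := h.r1 u (d-1) hu (by omega)
    have e : d - 1 + 2 = d + 1 := by omega
    rw [e] at this
    omega
  by_cases hs : ∃ m, 2 ≤ m ∧ m < d ∧ t 1 (m+2) = t 1 m
  swap
  · push Not at hs
    have := h.countEnd (u := 1) (by omega) 3 (by omega)
      (fun j hj1 hj2 => hs j (by omega) (by omega))
    omega
  obtain ⟨m, hm1, hm2, hm3, hm4⟩ := exists_first hs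
  clear hs
  obtain ⟨sL, sR⟩ := h.S1 1 m (by omega) (by omega) (by omega) hm3
  have hi := h.claimR (d - m) m _ hm2 (by omega) sR
  have mm : t 1 m ≤ t 1 (m+1) := h.mono 1 m
  have mm' : t 1 (m+1) ≤ t 1 (m+2) := h.mono 1 (m+1)
  have m4 := h.mono' 1 (show m + 1 ≤ d+1 by omega)
  have cnt := h.count (u := 1) (by omega) 3 (m+1) (by omega)
      (fun j hj1 hj2 => hm4 j (by omega) (by omega))
  have hm : m = 3 := by omega
  have hT : 5 * k = 3 * d + 6 := by omega
  have hq6 : 8 ≤ d := by omega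
  -- u = 4
  have td' := h.tend 4 (by omega)
  have l3' := h.l3 4 (by omega) (by omega)
  by_cases hsp : t 4 5 = t 4 3
  · obtain ⟨sL2, _⟩ := h.S2 4 3 (by omega) (by omega) hsp
    have hi2 := h.claimL 3 _ (by omega) (by omega) sL2
    have n1 : t 4 3 ≤ t 4 4 := h.mono 4 3
    have n2 : t 4 4 ≤ t 4 5 := h.mono 4 4
    by_cases hs' : ∃ m, 4 ≤ m ∧ m < d ∧ t 4 (m+2) = t 4 m
    · obtain ⟨i, hi1, hi2', hi3, hi4⟩ := exists_first hs'
      obtain ⟨_, sR'⟩ := h.S1 4 i (by omega) (by omega) (by omega) hi3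
      have hi' := h.claimR (d - i) i _ hi2' (by omega) sR'
      clear hs'
      have n3 : t 4 i ≤ t 4 (i+1) := h.mono 4 i
      have n4 : t 4 (i+1) ≤ t 4 (i+2) := h.mono 4 (i+1)
      have n5 := h.mono' 4 (show i + 1 ≤ d+1 by omega)
      have cnt' := h.count (u := 4) (by omega) 4 (i+1) (by omega)
        (fun j hj1 hj2 => hi4 j (by omega) (by omega))
      omega
    · push Not at hs'
      have cnt' := h.countEnd (u := 4) (by omega) 4 (by omega)
        (fun j hj1 hj2 => hs' j (by omega) (by omega))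
      omega
  · by_cases hs' : ∃ m, 4 ≤ m ∧ m < d ∧ t 4 (m+2) = t 4 m
    · obtain ⟨i, hi1, hi2', hi3, hi4⟩ := exists_first hs'
      obtain ⟨_, sR'⟩ := h.S1 4 i (by omega) (by omega) (by omega) hi3
      have hi' := h.claimR (d - i) i _ hi2' (by omega) sR'
      clear hs'
      have n3 : t 4 i ≤ t 4 (i+1) := h.mono 4 i
      have n4 : t 4 (i+1) ≤ t 4 (i+2) := h.mono 4 (i+1)
      have n5 := h.mono' 4 (show i + 1 ≤ d+1 by omega)
      have cnt' := h.count (u := 4) (by omega) 3 (i+1) (by omega)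
        (fun j hj1 hj2 => by
          rcases Nat.lt_or_ge j 4 with hlt | hge
          · have : j = 3 := by omega
            subst this; exact hsp
          · exact hi4 j (by omega) (by omega))
      omega
    · push Not at hs'
      have cnt' := h.countEnd (u := 4) (by omega) 3 (by omega)
        (fun j hj1 hj2 => by
          rcases Nat.lt_or_ge j 4 with hlt | hge
          · have : j = 3 := by omega
            subst this; exact hsp
          · exact hs' j (by omega) (by omega))
      omega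


theorem ax_of_graph {V : Type*} [Fintype V] [DecidableEq V] (G : SimpleGraph V) (k d : ℕ)
    (hd : 4 ≤ d) (lev : V → ℕ) (vv : ℕ → V)
    (hlev : ∀ x y, G.Adj x y → lev x ≤ lev y + 1)
    (hle : ∀ x, lev x ≤ d)
    (hvv : ∀ i, i ≤ d → lev (vv i) = i)
    (hadj : ∀ i, i < d → G.Adj (vv i) (vv (i+1)))
    (h0 : ∀ x, lev x = 0 → x = vv 0)
    (hTD : ∀ S : Finset V, (∀ u, ∃ w ∈ S, G.Adj u w) → k ≤ S.card)
    (hS : ∀ i, i ≤ d → ∃ S : Finset V, vv i ∉ S ∧ S.card < k ∧
      ∀ u, u ≠ vv i → ∃ w ∈ S, G.Adj u w) :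
    ∃ (L R : ℕ → ℕ → Prop) (t : ℕ → ℕ → ℕ), Ax d k L R t := by
  classical
  have hS' : ∀ i, ∃ S : Finset V, i ≤ d → (vv i ∉ S ∧ S.card < k ∧
      ∀ u, u ≠ vv i → ∃ w ∈ S, G.Adj u w) := by
    intro i
    by_cases hi : i ≤ d
    · obtain ⟨S, h⟩ := hS i hi
      exact ⟨S, fun _ => h⟩
    · exact ⟨∅, fun h => absurd h hi⟩
  choose S hS1 using hS'
  have hNot : ∀ i, i ≤ d → vv i ∉ S i := fun i hi => (hS1 i hi).1
  have hDom : ∀ i, i ≤ d → ∀ u, u ≠ vv i → ∃ w ∈ S i, G.Adj u w := fun i hi => (hS1 i hi).2.2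
  have hNA : ∀ i, i ≤ d → ∀ w ∈ S i, ¬ G.Adj (vv i) w := by
    intro i hi w hw hA
    have := hTD (S i) (fun u => by
      by_cases hu : u = vv i
      · subst hu; exact ⟨w, hw, hA⟩
      · exact hDom i hi u hu)
    have := (hS1 i hi).2.1
    omega
  have hne : ∀ i j, i ≤ d → j ≤ d → i ≠ j → vv i ≠ vv j := by
    intro i j hi hj hij h
    apply hij
    rw [← hvv i hi, ← hvv j hj, h]
  have hCard : ∀ i, i ≤ d → (S i).card + 1 = k := by
    intro i hi
    have h1 := (hS1 i hi).2.1
    obtain ⟨x, hx⟩ : ∃ x, G.Adj (vv i) x := by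
      by_cases hid : i < d
      · exact ⟨_, hadj i hid⟩
      · have : i = (d - 1) + 1 := by omega
        rw [this]
        exact ⟨_, (hadj (d-1) (by omega)).symm⟩
    have h2 := hTD (insert x (S i)) (fun u => by
      by_cases hu : u = vv i
      · subst hu; exact ⟨x, Finset.mem_insert_self _ _, hx⟩
      · obtain ⟨w, hw, hA⟩ := hDom i hi u hu
        exact ⟨w, Finset.mem_insert_of_mem hw, hA⟩)
    have h3 := Finset.card_insert_le x (S i)
    omega
  -- each element of S i has a neighbour in S i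
  have hIn : ∀ i, i ≤ d → ∀ s ∈ S i, ∃ w ∈ S i, G.Adj s w := by
    intro i hi s hs
    exact hDom i hi s (fun h => hNot i hi (h ▸ hs))
  refine ⟨fun q a => ∃ A : Finset V, (∀ x ∈ A, lev x ≤ q) ∧
      (∀ x, lev x ≤ q → ∃ w ∈ A, G.Adj x w) ∧ A.card ≤ a,
    fun p b => ∃ B : Finset V, (∀ x ∈ B, p < lev x) ∧
      (∀ x, p < lev x → ∃ w ∈ B, G.Adj x w) ∧ B.card ≤ b,
    fun u m => ((S u).filter (fun x => lev x < m)).card, ?_⟩
  have hsplit : ∀ u m, ((S u).filter (fun x => lev x < m)).card +
      ((S u).filter (fun x => ¬ lev x < m)).card = (S u).card := by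
    intro u m
    exact Finset.card_filter_add_card_filter_not (fun x => lev x < m)
  have hmono' : ∀ u {m n : ℕ}, m ≤ n → (S u).filter (fun x => lev x < m) ⊆
      (S u).filter (fun x => lev x < n) := by
    intro u m n hmn x hx
    simp only [Finset.mem_filter] at hx ⊢
    exact ⟨hx.1, by omega⟩
  -- equality of counts means empty layers
  have hempty : ∀ u {m n : ℕ}, m ≤ n → ((S u).filter (fun x => lev x < n)).card =
      ((S u).filter (fun x => lev x < m)).card → ∀ x ∈ S u, m ≤ lev x → n ≤ lev x := by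
    intro u m n hmn hc x hx hmx
    have := Finset.eq_of_subset_of_card_le (hmono' u hmn) hc.le
    by_contra hcon
    have hx2 : x ∈ (S u).filter (fun x => lev x < n) := by
      simp only [Finset.mem_filter]; exact ⟨hx, by omega⟩
    rw [← this] at hx2
    simp only [Finset.mem_filter] at hx2
    omega
  have hcount : ∀ u {m n : ℕ}, m ≤ n → ∀ T : Finset V, (∀ x ∈ T, x ∈ S u ∧ m ≤ lev x ∧ lev x < n) →
      ((S u).filter (fun x => lev x < m)).card + T.card ≤
      ((S u).filter (fun x => lev x < n)).card := by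
    intro u m n hmn T hT
    rw [← Finset.card_union_of_disjoint]
    · apply Finset.card_le_card
      intro x hx
      rcases Finset.mem_union.1 hx with hx | hx
      · exact hmono' u hmn hx
      · simp only [Finset.mem_filter]
        exact ⟨(hT x hx).1, (hT x hx).2.2⟩
    · rw [Finset.disjoint_left]
      intro x hx hx'
      simp only [Finset.mem_filter] at hx
      have := (hT x hx').2.1
      omega
  refine
    { mono := ?_
      zero := ?_
      tend := ?_
      three := ?_
      F := ?_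
      L2 := ?_
      R2 := ?_
      E1 := ?_
      E2 := ?_
      S1 := ?_
      S2 := ?_
      l1 := ?_
      l2 := ?_
      l3 := ?_
      r1 := ?_
      r2 := ?_ }
  · intro u m
    exact Finset.card_le_card (hmono' u (Nat.le_succ m))
  · intro u
    simp
  · intro u hu
    have : (S u).filter (fun x => lev x < d + 1) = S u := by
      apply Finset.filter_true_of_mem
      intro x _
      have := hle x
      omega
    simp only [this]
    exact hCard u hu
  · -- three
    intro u j hu hz1 hz2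
    have e1 : ∃ x ∈ S u, j ≤ lev x ∧ lev x < j + 2 := by
      by_contra hcon
      push Not at hcon
      apply hz1
      congr 1
      apply Finset.filter_congr
      intro x hx
      have := hcon x hx
      constructor
      · intro h; by_contra h'; have := this (by omega); omega
      · intro h; omega
    have e2 : ∃ x ∈ S u, j + 1 ≤ lev x ∧ lev x < j + 3 := by
      by_contra hcon
      push Not at hcon
      apply hz2
      congr 1
      apply Finset.filter_congr
      intro x hx
      have := hcon x hx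
      constructor
      · intro h; by_contra h'; have := this (by omega); omega
      · intro h; omega
    obtain ⟨x, hx, hx1, hx2⟩ := e1
    obtain ⟨y, hy, hy1, hy2⟩ := e2
    -- find two distinct elements in layers j, j+1, j+2
    obtain ⟨a, b, ha, hb, hab, ha1, ha2, hb1, hb2⟩ : ∃ a b, a ∈ S u ∧ b ∈ S u ∧ a ≠ b ∧
        j ≤ lev a ∧ lev a < j + 3 ∧ j ≤ lev b ∧ lev b < j + 3 := by
      by_cases hxy : x = y
      · subst hxy
        obtain ⟨w, hw, hA⟩ := hIn u hu x hx
        have h1 := hlev _ _ hA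
        have h2 := hlev _ _ hA.symm
        exact ⟨x, w, hx, hw, G.ne_of_adj hA, by omega, by omega, by omega, by omega⟩
      · exact ⟨x, y, hx, hy, hxy, by omega, by omega, by omega, by omega⟩
    have := hcount u (show j ≤ j + 3 by omega) {a, b} (by
      intro z hz
      simp only [Finset.mem_insert, Finset.mem_singleton] at hz
      rcases hz with rfl | rfl
      · exact ⟨ha, ha1, ha2⟩
      · exact ⟨hb, hb1, hb2⟩)
    rw [Finset.card_pair hab] at this
    exact this
  · -- F
    rintro p q a b hpq ⟨A, hA1, hA2, hA3⟩ ⟨B, hB1, hB2, hB3⟩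
    have := hTD (A ∪ B) (fun x => by
      by_cases hx : lev x ≤ q
      · obtain ⟨w, hw, hAw⟩ := hA2 x hx
        exact ⟨w, Finset.mem_union_left _ hw, hAw⟩
      · obtain ⟨w, hw, hAw⟩ := hB2 x (by omega)
        exact ⟨w, Finset.mem_union_right _ hw, hAw⟩)
    have h3 := Finset.card_union_le A B
    omega
  · -- L2
    rintro q a ⟨A, hA1, hA2, hA3⟩
    obtain ⟨w, hw, hw'⟩ := hA2 (vv 0) (by rw [hvv 0 (by omega)]; omega)
    obtain ⟨w2, hw2, hw2'⟩ := hA2 w (hA1 w hw)
    have : 1 < A.card := Finset.one_lt_card.2 ⟨w, hw, w2, hw2, G.ne_of_adj hw2'⟩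
    omega
  · -- R2
    rintro p b hpd ⟨B, hB1, hB2, hB3⟩
    obtain ⟨w, hw, hw'⟩ := hB2 (vv d) (by rw [hvv d le_rfl]; omega)
    obtain ⟨w2, hw2, hw2'⟩ := hB2 w (hB1 w hw)
    have : 1 < B.card := Finset.one_lt_card.2 ⟨w, hw, w2, hw2, G.ne_of_adj hw2'⟩
    omega
  · -- E1
    rintro u q a huq hqd ⟨A, hA1, hA2, hA3⟩
    have hud : u ≤ d := by omega
    have := hTD (A ∪ (S u).filter (fun x => ¬ lev x < q)) (fun x => by
      by_cases hx : lev x ≤ q
      · obtain ⟨w, hw, hAw⟩ := hA2 x hx
        exact ⟨w, Finset.mem_union_left _ hw, hAw⟩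
      · obtain ⟨w, hw, hAw⟩ := hDom u hud x (by
          rintro rfl; rw [hvv u hud] at hx; omega)
        refine ⟨w, Finset.mem_union_right _ ?_, hAw⟩
        simp only [Finset.mem_filter]
        have := hlev _ _ hAw
        exact ⟨hw, by omega⟩)
    have h3 := Finset.card_union_le A ((S u).filter (fun x => ¬ lev x < q))
    have h4 := hsplit u q
    have h5 := hCard u hud
    omega
  · -- E2
    rintro u p b hpu hud ⟨B, hB1, hB2, hB3⟩
    have := hTD (B ∪ (S u).filter (fun x => lev x < p + 2)) (fun x => by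
      by_cases hx : p < lev x
      · obtain ⟨w, hw, hAw⟩ := hB2 x hx
        exact ⟨w, Finset.mem_union_left _ hw, hAw⟩
      · obtain ⟨w, hw, hAw⟩ := hDom u hud x (by
          rintro rfl; rw [hvv u hud] at hx; omega)
        refine ⟨w, Finset.mem_union_right _ ?_, hAw⟩
        simp only [Finset.mem_filter]
        have := hlev _ _ hAw.symm
        exact ⟨hw, by omega⟩)
    have h3 := Finset.card_union_le B ((S u).filter (fun x => lev x < p + 2))
    omega
  · -- S1
    intro u m hu1 hum hmd hz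
    have hud : u ≤ d := by omega
    have hE := hempty u (show m ≤ m + 2 by omega) hz
    obtain ⟨v, rfl⟩ : ∃ v, u = v + 1 := ⟨u - 1, by omega⟩
    constructor
    · refine ⟨insert (vv v) ((S (v+1)).filter (fun x => lev x < m)), ?_, ?_, ?_⟩
      · intro x hx
        rcases Finset.mem_insert.1 hx with rfl | hx
        · rw [hvv v (by omega)]; omega
        · simp only [Finset.mem_filter] at hx
          omega
      · intro x hx
        by_cases hxu : x = vv (v+1)
        · subst hxu
          exact ⟨vv v, Finset.mem_insert_self _ _, (hadj v (by omega)).symm⟩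
        · obtain ⟨w, hw, hAw⟩ := hDom (v+1) hud x hxu
          refine ⟨w, Finset.mem_insert_of_mem ?_, hAw⟩
          simp only [Finset.mem_filter]
          refine ⟨hw, ?_⟩
          by_contra hcon
          have h1 := hE w hw (by omega)
          have h2 := hlev _ _ hAw.symm
          omega
      · exact Finset.card_insert_le _ _
    · refine ⟨(S (v+1)).filter (fun x => ¬ lev x < m), ?_, ?_, ?_⟩
      · intro x hx
        simp only [Finset.mem_filter] at hx
        have := hE x hx.1 (by omega)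
        omega
      · intro x hx
        obtain ⟨w, hw, hAw⟩ := hDom (v+1) hud x (by
          rintro rfl; rw [hvv (v+1) hud] at hx; omega)
        refine ⟨w, ?_, hAw⟩
        simp only [Finset.mem_filter]
        have := hlev _ _ hAw
        exact ⟨hw, by omega⟩
      · have h4 := hsplit (v+1) m
        have h5 := hCard (v+1) hud
        omega
  · -- S2
    intro u m hmu hud hz
    have hE := hempty u (show m ≤ m + 2 by omega) hz
    constructor
    · refine ⟨(S u).filter (fun x => lev x < m), ?_, ?_, le_rfl⟩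
      · intro x hx
        simp only [Finset.mem_filter] at hx
        omega
      · intro x hx
        obtain ⟨w, hw, hAw⟩ := hDom u (by omega) x (by
          rintro rfl; rw [hvv u (by omega)] at hx; omega)
        refine ⟨w, ?_, hAw⟩
        simp only [Finset.mem_filter]
        refine ⟨hw, ?_⟩
        by_contra hcon
        have h1 := hE w hw (by omega)
        have h2 := hlev _ _ hAw.symm
        omega
    · refine ⟨insert (vv (u+1)) ((S u).filter (fun x => ¬ lev x < m)), ?_, ?_, ?_⟩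
      · intro x hx
        rcases Finset.mem_insert.1 hx with rfl | hx
        · rw [hvv (u+1) (by omega)]; omega
        · simp only [Finset.mem_filter] at hx
          have := hE x hx.1 (by omega)
          omega
      · intro x hx
        by_cases hxu : x = vv u
        · subst hxu
          exact ⟨vv (u+1), Finset.mem_insert_self _ _, hadj u (by omega)⟩
        · obtain ⟨w, hw, hAw⟩ := hDom u (by omega) x hxu
          refine ⟨w, Finset.mem_insert_of_mem ?_, hAw⟩
          simp only [Finset.mem_filter]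
          have := hlev _ _ hAw
          exact ⟨hw, by omega⟩
      · have h4 := hsplit u m
        have h5 := hCard u (by omega)
        have h6 := Finset.card_insert_le (vv (u+1)) ((S u).filter (fun x => ¬ lev x < m))
        omega
  · -- l1
    have : (S 1).filter (fun x => lev x < 1) = ∅ := by
      apply Finset.filter_false_of_mem
      intro x hx hx1
      have := h0 x (by omega)
      subst this
      exact hNA 1 (by omega) _ hx (hadj 0 (by omega)).symm
    simp only [this, Finset.card_empty]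
  · -- l2
    intro u hu1 hud
    obtain ⟨w, hw, hAw⟩ := hDom u hud (vv 0) (hne 0 u (by omega) hud (by omega))
    have h2 := hlev _ _ hAw.symm
    rw [hvv 0 (by omega)] at h2
    apply Finset.card_pos.2
    exact ⟨w, by simp only [Finset.mem_filter]; exact ⟨hw, by omega⟩⟩
  · -- l3
    intro u hu1 hud
    obtain ⟨w, hw, hAw⟩ := hDom u hud (vv 0) (hne 0 u (by omega) hud (by omega))
    have h2 := hlev _ _ hAw.symm
    rw [hvv 0 (by omega)] at h2
    obtain ⟨w', hw', hA'⟩ := hIn u hud w hw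
    have h3 := hlev _ _ hA'.symm
    apply Finset.one_lt_card.2
    refine ⟨w, ?_, w', ?_, G.ne_of_adj hA'⟩
    · simp only [Finset.mem_filter]; exact ⟨hw, by omega⟩
    · simp only [Finset.mem_filter]; exact ⟨hw', by omega⟩
  · -- r1
    intro u m hud hm
    obtain ⟨w, hw, hAw⟩ := hDom u hud.le (vv d) (hne d u le_rfl hud.le (by omega))
    have h2 := hlev _ _ hAw
    rw [hvv d le_rfl] at h2
    have h3 := hle w
    have := hcount u (show m ≤ m + 2 by omega) {w} (by
      intro z hz
      rw [Finset.mem_singleton.1 hz]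
      exact ⟨hw, by omega, by omega⟩)
    rw [Finset.card_singleton] at this
    exact this
  · -- r2
    intro u m hud hm
    obtain ⟨w, hw, hAw⟩ := hDom u hud.le (vv d) (hne d u le_rfl hud.le (by omega))
    have h2 := hlev _ _ hAw
    rw [hvv d le_rfl] at h2
    obtain ⟨w', hw', hA'⟩ := hIn u hud.le w hw
    have h3 := hlev _ _ hA'
    have h4 := hle w
    have h5 := hle w'
    have := hcount u (show m ≤ m + 3 by omega) {w, w'} (by
      intro z hz
      simp only [Finset.mem_insert, Finset.mem_singleton] at hz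
      rcases hz with rfl | rfl
      · exact ⟨hw, by omega, by omega⟩
      · exact ⟨hw', by omega, by omega⟩)
    rw [Finset.card_pair (G.ne_of_adj hA')] at this
    exact this


/-- a geodesic realising the diameter -/
theorem exists_geodesic {V : Type*} [Fintype V] (G : SimpleGraph V) (hc : G.Connected) :
    ∃ vv : ℕ → V, (∀ i, i ≤ G.diam → G.dist (vv 0) (vv i) = i) ∧
      (∀ i, i < G.diam → G.Adj (vv i) (vv (i+1))) ∧
      (∀ x y, G.dist x y ≤ G.diam) := by
  have : Nonempty V := hc.nonempty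
  obtain ⟨u, v, huv⟩ := G.exists_dist_eq_diam
  obtain ⟨p, hp⟩ := hc.exists_walk_length_eq_dist u v
  have hlen : p.length = G.diam := by rw [hp, huv]
  have h0 : p.getVert 0 = u := p.getVert_zero
  refine ⟨fun i => p.getVert i, ?_, ?_, ?_⟩
  · intro i hi
    simp only [h0]
    apply le_antisymm
    · have h := SimpleGraph.dist_le (p.take i)
      rw [SimpleGraph.Walk.take_length] at h
      omega
    · have h1 := SimpleGraph.dist_le (p.drop i)
      rw [SimpleGraph.Walk.drop_length] at h1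
      have h2 := hc.dist_triangle (u := u) (v := p.getVert i) (w := v)
      omega
  · intro i hi
    exact p.adj_getVert_succ (by omega)
  · intro x y
    exact SimpleGraph.dist_le_diam (SimpleGraph.connected_iff_ediam_ne_top.1 hc)


theorem lip {V : Type*} (G : SimpleGraph V) (hc : G.Connected) (v0 : V) :
    ∀ x y, G.Adj x y → G.dist v0 x ≤ G.dist v0 y + 1 := by
  intro x y h
  have h1 := hc.dist_triangle (u := v0) (v := y) (w := x)
  have h2 : G.dist y x = 1 := SimpleGraph.dist_eq_one_iff_adj.2 h.symm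
  omega

theorem upper_noleaf {V : Type*} [Fintype V] (G : SimpleGraph V) (k : ℕ) (hk : 4 ≤ k)
    (hc : G.Connected)
    (h2 : ∀ S : Finset V, (∀ u : V, ∃ w ∈ S, G.Adj u w) → k ≤ S.card)
    (h3 : ∀ v : V, ∃ S : Finset V, v ∉ S ∧ S.card < k ∧ ∀ u : V, u ≠ v → ∃ w ∈ S, G.Adj u w) :
    G.diam ≤ (5 * k - 7) / 3 := by
  classical
  by_cases hd : 4 ≤ G.diam
  swap
  · omega
  obtain ⟨vv, hv1, hv2, hv3⟩ := exists_geodesic G hc
  obtain ⟨L, R, t, hax⟩ := ax_of_graph G k G.diam hd (fun x => G.dist (vv 0) x) vv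
    (lip G hc (vv 0)) (fun x => hv3 _ _) hv1 hv2
    (fun x hx => (hc.dist_eq_zero_iff.1 hx).symm) h2 (fun i _ => h3 (vv i))
  have := hax.claimLR hk hd
  omega

theorem upper_leaf {V : Type*} [Fintype V] (G : SimpleGraph V) (k : ℕ) (hk : 4 ≤ k)
    (hc : G.Connected)
    (h2 : ∀ S : Finset V, (∀ u : V, ∃ w ∈ S, G.Adj u w) → k ≤ S.card)
    (h3 : ∀ v : V, (¬ ∃ u : V, G.Adj v u ∧ ∀ w : V, G.Adj u w → w = v) →
        ∃ S : Finset V, v ∉ S ∧ S.card < k ∧ ∀ u : V, u ≠ v → ∃ w ∈ S, G.Adj u w)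
    (v : V) (hv : ∃ u : V, G.Adj v u ∧ ∀ w : V, G.Adj u w → w = v) :
    G.diam ≤ (5 * k - 7) / 3 := by
  classical
  by_cases hd : 5 ≤ G.diam
  swap
  · omega
  obtain ⟨vv, hv1, hv2, hv3⟩ := exists_geodesic G hc
  have hlip := lip G hc (vv 0)
  have hne : ∀ i j, i ≤ G.diam → j ≤ G.diam → i ≠ j → vv i ≠ vv j := by
    intro i j hi hj hij h
    apply hij
    rw [← hv1 i hi, ← hv1 j hj, h]
  -- supports and leaves
  let Sup : V → Prop := fun x => ∃ u : V, G.Adj x u ∧ ∀ w : V, G.Adj u w → w = x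
  let Leaf : V → Prop := fun u => ∃ x, G.Adj x u ∧ ∀ w, G.Adj u w → w = x
  -- a critical set has no vertex adjacent to the deleted vertex
  have hcrit : ∀ x : V, ∀ S : Finset V, S.card < k → (∀ u : V, u ≠ x → ∃ w ∈ S, G.Adj u w) →
      ∀ w ∈ S, ¬ G.Adj x w := by
    intro x S hS hdom w hw hA
    have := h2 S (fun u => by
      by_cases hu : u = x
      · subst hu; exact ⟨w, hw, hA⟩
      · exact hdom u hu)
    omega
  have step : ∀ x y, G.Adj x y → (Sup x ∨ Leaf x) → (Sup y ∨ Leaf y) := by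
    intro x y hxy hx
    rcases hx with hx | hx
    · by_cases hy : Leaf y
      · exact Or.inr hy
      · left
        by_contra hy'
        obtain ⟨S, hS1, hS2, hS3⟩ := h3 y hy'
        obtain ⟨l, hl1, hl2⟩ := hx
        have hly : l ≠ y := by
          rintro rfl
          exact hy ⟨x, hl1, hl2⟩
        obtain ⟨w, hw, hw'⟩ := hS3 l hly
        have := hl2 w hw'
        subst this
        exact hcrit y S hS2 hS3 w hw hxy.symm
    · obtain ⟨z, hz1, hz2⟩ := hx
      have := hz2 y hxy
      subst this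
      exact Or.inl ⟨x, hz1, hz2⟩
  have hall : ∀ x, Sup x ∨ Leaf x := by
    intro x
    obtain ⟨p⟩ := hc.preconnected v x
    have : ∀ a b : V, ∀ p : G.Walk a b, (Sup a ∨ Leaf a) → (Sup b ∨ Leaf b) := by
      intro a b p
      induction p with
      | nil => exact id
      | cons h p ih => intro ha; exact ih (step _ _ h ha)
    exact this v x p (Or.inl hv)
  -- interior vertices are supports
  have hint : ∀ i, 1 ≤ i → i < G.diam → Sup (vv i) := by
    intro i hi1 hi2
    rcases hall (vv i) with h | ⟨x, hx1, hx2⟩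
    · exact h
    · exfalso
      obtain ⟨j, rfl⟩ : ∃ j, i = j + 1 := ⟨i - 1, by omega⟩
      have e1 := hx2 _ (hv2 j (by omega)).symm
      have e2 := hx2 _ (hv2 (j+1) (by omega))
      exact hne j (j+1+1) (by omega) (by omega) (by omega) (e1.trans e2.symm)
  obtain ⟨l, hl1, hl2⟩ := hint 2 (by omega) (by omega)
  have hlnot : ¬ Sup l := by
    rintro ⟨u, hu1, hu2⟩
    have hu := hl2 u hu1
    subst hu
    have e1 := hu2 _ (hv2 1 (by omega)).symm
    have e2 := hu2 _ (hv2 2 (by omega))
    exact hne 1 3 (by omega) (by omega) (by omega) (e1.trans e2.symm)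
  obtain ⟨S, hS1, hS2, hS3⟩ := h3 l hlnot
  have hmem : ∀ i, 1 ≤ i → i < G.diam → i ≠ 2 → vv i ∈ S := by
    intro i hi1 hi2 hi3
    obtain ⟨y, hy1, hy2⟩ := hint i hi1 hi2
    obtain ⟨w, hw, hw'⟩ := hS3 y (by
      rintro rfl
      exact hne i 2 (by omega) (by omega) hi3 (hl2 _ hy1.symm))
    have := hy2 w hw'
    subst this
    exact hw
  have h2S : vv 2 ∉ S := fun h => hcrit l S hS2 hS3 _ h hl1.symm
  have hl_ne : vv 1 ≠ l := by
    intro h
    have e1 := hl2 (vv 0) (by rw [← h]; exact (hv2 0 (by omega)).symm)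
    exact hne 0 2 (by omega) (by omega) (by omega) e1
  obtain ⟨s, hs, hs'⟩ := hS3 (vv 1) hl_ne
  have hs_lev : G.dist (vv 0) s ≤ 2 := by
    have := hlip _ _ hs'.symm
    rw [hv1 1 (by omega)] at this
    omega
  -- count
  have hcount : (insert s ((Finset.range (G.diam - 2)).image
      (fun j => if j = 0 then vv 1 else vv (j+2)))) ⊆ S := by
    intro x hx
    rcases Finset.mem_insert.1 hx with rfl | hx
    · exact hs
    · obtain ⟨j, hj, rfl⟩ := Finset.mem_image.1 hx
      have hj := Finset.mem_range.1 hj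
      split_ifs with h0
      · exact hmem 1 le_rfl (by omega) (by omega)
      · exact hmem (j+2) (by omega) (by omega) (by omega)
  have hcard := Finset.card_le_card hcount
  rw [Finset.card_insert_of_notMem, Finset.card_image_of_injOn, Finset.card_range] at hcard
  · omega
  · intro i hi j hj hij
    simp only [Finset.coe_range, Set.mem_Iio] at hi hj
    by_contra hne'
    have key : ∀ i, i < G.diam - 2 → G.dist (vv 0) (if i = 0 then vv 1 else vv (i+2)) =
        if i = 0 then 1 else i + 2 := by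
      intro i hi
      split_ifs with h0
      · exact hv1 1 (by omega)
      · exact hv1 (i+2) (by omega)
    have k1 := key i hi
    have k2 := key j hj
    have hij' : (if i = 0 then vv 1 else vv (i+2)) = (if j = 0 then vv 1 else vv (j+2)) := hij
    rw [hij', k2] at k1
    split_ifs at k1 <;> omega
  · intro hmem'
    obtain ⟨j, hj, hj'⟩ := Finset.mem_image.1 hmem'
    have hj := Finset.mem_range.1 hj
    split_ifs at hj' with h0
    · subst hj'
      exact G.irrefl hs'
    · have := hv1 (j+2) (by omega)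
      rw [hj'] at this
      omega

theorem upper {V : Type*} [Fintype V] (G : SimpleGraph V) (k : ℕ) (hk : 4 ≤ k)
    (hc : G.Connected)
    (h2 : ∀ S : Finset V, (∀ u : V, ∃ w ∈ S, G.Adj u w) → k ≤ S.card)
    (h3 : ∀ v : V, (¬ ∃ u : V, G.Adj v u ∧ ∀ w : V, G.Adj u w → w = v) →
        ∃ S : Finset V, v ∉ S ∧ S.card < k ∧ ∀ u : V, u ≠ v → ∃ w ∈ S, G.Adj u w) :
    G.diam ≤ (5 * k - 7) / 3 := by
  by_cases hl : ∃ v : V, ∃ u : V, G.Adj v u ∧ ∀ w : V, G.Adj u w → w = v
  · obtain ⟨v, hv⟩ := hl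
    exact upper_leaf G k hk hc h2 h3 v hv
  · exact upper_noleaf G k hk hc h2 (fun v => h3 v (fun h => hl ⟨v, h⟩))


/-- `u` has a neighbour in `S` -/
def Dm {V : Type} (G : SimpleGraph V) (S : Finset V) (u : V) : Prop := ∃ w ∈ S, G.Adj u w

/-- pointed (or unpointed, if `b` is empty) critical graph -/
structure PP {V : Type} (G : SimpleGraph V) (b : V → Prop) (k : ℕ) : Prop where
  lb : ∀ S : Finset V, (∀ u, ¬ b u → Dm G S u) →
    k ≤ S.card ∧ ((∃ u, b u ∧ (u ∈ S ∨ Dm G S u)) → k + 1 ≤ S.card)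
  u0 : ∃ S : Finset V, (∀ u, ¬ b u → Dm G S u) ∧ (∀ u, b u → u ∉ S) ∧ S.card ≤ k
  u1 : ∀ c, b c → ∃ S : Finset V, (∀ u, Dm G S u) ∧ c ∉ S ∧ S.card ≤ k + 1
  u2 : ∀ c, b c → ∃ S : Finset V, (∀ u, Dm G S u) ∧ c ∈ S ∧ S.card ≤ k + 1
  cr : ∀ v, ¬ b v → ∃ S : Finset V, v ∉ S ∧ (∀ u, u ≠ v → ¬ b u → Dm G S u) ∧
    (S.card + 1 ≤ k ∨ (S.card ≤ k ∧ ∃ u, b u ∧ (u ∈ S ∨ Dm G S u)))

/-- block to be glued: `Na` = neighbours of the terminal `a`, `b` = the new terminal(s) -/
structure BB {W : Type} (H : SimpleGraph W) (Na b : W → Prop) (q : ℕ) : Prop where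
  lbF : ∀ S : Finset W, (∀ w, ¬ b w → Dm H S w) → q ≤ S.card ∧
    ((∃ w ∈ S, Na w) → q + 1 ≤ S.card) ∧
    ((∃ u, b u ∧ (u ∈ S ∨ Dm H S u)) → q + 1 ≤ S.card) ∧
    ((∃ w ∈ S, Na w) → (∃ u, b u ∧ (u ∈ S ∨ Dm H S u)) → q + 2 ≤ S.card)
  lbT : ∀ S : Finset W, (∀ w, ¬ b w → Dm H S w ∨ Na w) → q ≤ S.card ∧
    ((∃ u, b u ∧ (u ∈ S ∨ Dm H S u ∨ Na u)) → q + 1 ≤ S.card)
  tr1 : ∃ S : Finset W, (∃ w ∈ S, Na w) ∧ (∀ w, ¬ b w → Dm H S w) ∧
    (S.card ≤ q + 1 ∨ (S.card ≤ q + 2 ∧ ∃ u, b u ∧ (u ∈ S ∨ Dm H S u)))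
  tr2 : ∃ S : Finset W, (∀ w, ¬ b w → Dm H S w) ∧
    (S.card ≤ q ∨ (S.card ≤ q + 1 ∧ ∃ u, b u ∧ (u ∈ S ∨ Dm H S u)))
  tr3 : ∃ S : Finset W, (∃ w ∈ S, Na w) ∧ (∀ w, ¬ b w → Dm H S w ∨ Na w) ∧
    (S.card ≤ q ∨ (S.card ≤ q + 1 ∧ ∃ u, b u ∧ (u ∈ S ∨ Dm H S u ∨ Na u)))
  n0 : ∃ S : Finset W, (∀ w, b w → w ∉ S) ∧
    (((∃ w ∈ S, Na w) ∧ (∀ w, ¬ b w → Dm H S w) ∧ S.card ≤ q + 1) ∨
     ((∀ w, ¬ b w → Dm H S w) ∧ S.card ≤ q) ∨
     ((∀ w, ¬ b w → Dm H S w ∨ Na w) ∧ S.card ≤ q))
  n1 : ∀ c, b c → ∃ S : Finset W, c ∉ S ∧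
    (((∃ w ∈ S, Na w) ∧ (∀ w, Dm H S w) ∧ S.card ≤ q + 2) ∨
     ((∀ w, Dm H S w) ∧ S.card ≤ q + 1) ∨
     ((∀ w, Dm H S w ∨ Na w) ∧ S.card ≤ q + 1))
  n2 : ∀ c, b c → ∃ S : Finset W, c ∈ S ∧
    (((∃ w ∈ S, Na w) ∧ (∀ w, Dm H S w) ∧ S.card ≤ q + 2) ∨
     ((∀ w, Dm H S w) ∧ S.card ≤ q + 1) ∨
     ((∀ w, Dm H S w ∨ Na w) ∧ S.card ≤ q + 1))
  nc : ∀ x, ¬ b x → ∃ S : Finset W, x ∉ S ∧
    (((∃ w ∈ S, Na w) ∧ (∀ w, w ≠ x → ¬ b w → Dm H S w) ∧
        (S.card ≤ q ∨ (S.card ≤ q + 1 ∧ ∃ u, b u ∧ (u ∈ S ∨ Dm H S u)))) ∨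
     ((∀ w, w ≠ x → ¬ b w → Dm H S w) ∧
        (S.card + 1 ≤ q ∨ (S.card ≤ q ∧ ∃ u, b u ∧ (u ∈ S ∨ Dm H S u)))) ∨
     ((∀ w, w ≠ x → ¬ b w → Dm H S w ∨ Na w) ∧
        (S.card + 1 ≤ q ∨ (S.card ≤ q ∧ ∃ u, b u ∧ (u ∈ S ∨ Dm H S u ∨ Na u)))))

def gAdj {V W : Type} (G : SimpleGraph V) (c : V) (H : SimpleGraph W) (Na : W → Prop) :
    V ⊕ W → V ⊕ W → Prop
  | .inl x, .inl y => G.Adj x y
  | .inr x, .inr y => H.Adj x y
  | .inl x, .inr y => x = c ∧ Na y
  | .inr x, .inl y => y = c ∧ Na x

/-- glue the block at `c` -/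
def glueG {V W : Type} (G : SimpleGraph V) (c : V) (H : SimpleGraph W) (Na : W → Prop) :
    SimpleGraph (V ⊕ W) where
  Adj := gAdj G c H Na
  symm := ⟨by
    rintro (x | x) (y | y) h
    · exact G.symm.symm _ _ h
    · exact h
    · exact h
    · exact H.symm.symm _ _ h⟩
  loopless := ⟨by
    rintro (x | x) h
    · exact G.loopless.irrefl _ h
    · exact H.loopless.irrefl _ h⟩

section
variable {V W : Type} (G : SimpleGraph V) (c : V) (H : SimpleGraph W) (Na : W → Prop)

theorem Dm_inl (A : Finset V) (B : Finset W) (x : V) :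
    Dm (glueG G c H Na) (A.disjSum B) (Sum.inl x) ↔ Dm G A x ∨ (x = c ∧ ∃ w ∈ B, Na w) := by
  constructor
  · rintro ⟨(w | w), hw, hA⟩
    · exact Or.inl ⟨w, Finset.inl_mem_disjSum.1 hw, hA⟩
    · exact Or.inr ⟨hA.1, w, Finset.inr_mem_disjSum.1 hw, hA.2⟩
  · rintro (⟨w, hw, hA⟩ | ⟨h1, w, hw, hA⟩)
    · exact ⟨.inl w, Finset.inl_mem_disjSum.2 hw, hA⟩
    · exact ⟨.inr w, Finset.inr_mem_disjSum.2 hw, h1, hA⟩

theorem Dm_inr (A : Finset V) (B : Finset W) (x : W) :
    Dm (glueG G c H Na) (A.disjSum B) (Sum.inr x) ↔ Dm H B x ∨ (c ∈ A ∧ Na x) := by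
  constructor
  · rintro ⟨(w | w), hw, hA⟩
    · have h1 : w = c := hA.1
      subst h1
      exact Or.inr ⟨Finset.inl_mem_disjSum.1 hw, hA.2⟩
    · exact Or.inl ⟨w, Finset.inr_mem_disjSum.1 hw, hA⟩
  · rintro (⟨w, hw, hA⟩ | ⟨h1, hA⟩)
    · exact ⟨.inr w, Finset.inr_mem_disjSum.2 hw, hA⟩
    · exact ⟨.inl c, Finset.inl_mem_disjSum.2 h1, rfl, hA⟩

end

/-- new terminal predicate -/
def bsum {V W : Type} (b : W → Prop) : V ⊕ W → Prop
  | .inl _ => False
  | .inr w => b w

theorem glue_PP {V W : Type} {G : SimpleGraph V} {c : V} {H : SimpleGraph W}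
    {Na b : W → Prop} {k q : ℕ} (hG : PP G (fun x => x = c) k) (hH : BB H Na b q) :
    PP (glueG G c H Na) (bsum b) (k + q + 1) := by
  classical
  have hT : ∀ (A : Finset V) (B : Finset W),
      (∃ u, b u ∧ (u ∈ B ∨ Dm H B u ∨ (c ∈ A ∧ Na u))) →
      ∃ u, (bsum b u : Prop) ∧ (u ∈ A.disjSum B ∨ Dm (glueG G c H Na) (A.disjSum B) u) := by
    rintro A B ⟨u, hu, h⟩
    refine ⟨.inr u, hu, ?_⟩
    rcases h with h | h | h
    · exact Or.inl (Finset.inr_mem_disjSum.2 h)
    · exact Or.inr ((Dm_inr G c H Na A B u).2 (Or.inl h))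
    · exact Or.inr ((Dm_inr G c H Na A B u).2 (Or.inr h))
  have hT' : ∀ (A : Finset V) (B : Finset W),
      (∃ u, (bsum b u : Prop) ∧ (u ∈ A.disjSum B ∨ Dm (glueG G c H Na) (A.disjSum B) u)) →
      (∃ u, b u ∧ (u ∈ B ∨ Dm H B u ∨ (c ∈ A ∧ Na u))) := by
    rintro A B ⟨(u | u), hu, h⟩
    · exact absurd hu (by simp [bsum])
    · refine ⟨u, hu, ?_⟩
      rcases h with h | h
      · exact Or.inl (Finset.inr_mem_disjSum.1 h)
      · rcases (Dm_inr G c H Na A B u).1 h with h | h
        · exact Or.inr (Or.inl h)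
        · exact Or.inr (Or.inr h)
  obtain ⟨A0, hA0, hA0c, hA0k⟩ := hG.u0
  have hA0c := hA0c c rfl
  obtain ⟨A1, hA1, hA1c, hA1k⟩ := hG.u1 c rfl
  obtain ⟨A2, hA2, hA2c, hA2k⟩ := hG.u2 c rfl
  refine ⟨?_, ?_, ?_, ?_, ?_⟩
  · -- lower bound
    intro S hS
    obtain ⟨A, B, rfl⟩ : ∃ (A : Finset V) (B : Finset W), S = A.disjSum B :=
      ⟨S.toLeft, S.toRight, Finset.toLeft_disjSum_toRight.symm⟩
    rw [Finset.card_disjSum]
    have hA : ∀ x, x ≠ c → Dm G A x := by
      intro x hx
      rcases (Dm_inl G c H Na A B x).1 (hS (.inl x) (by simp [bsum])) with h | h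
      · exact h
      · exact absurd h.1 hx
    have hc : Dm G A c ∨ ∃ w ∈ B, Na w := by
      rcases (Dm_inl G c H Na A B c).1 (hS (.inl c) (by simp [bsum])) with h | h
      · exact Or.inl h
      · exact Or.inr h.2
    have hB : ∀ w, ¬ b w → Dm H B w ∨ (c ∈ A ∧ Na w) := fun w hw =>
      (Dm_inr G c H Na A B w).1 (hS (.inr w) hw)
    have hlA := hG.lb A (fun u hu => hA u hu)
    by_cases hcA : c ∈ A
    · have h1 := hlA.2 ⟨c, rfl, Or.inl hcA⟩
      have h2 := hH.lbT B (fun w hw => by
        rcases hB w hw with h | h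
        · exact Or.inl h
        · exact Or.inr h.2)
      refine ⟨by omega, ?_⟩
      intro hT2
      obtain ⟨u, hu, h⟩ := hT' A B hT2
      have := h2.2 ⟨u, hu, by
        rcases h with h | h | h
        · exact Or.inl h
        · exact Or.inr (Or.inl h)
        · exact Or.inr (Or.inr h.2)⟩
      omega
    · have hB' : ∀ w, ¬ b w → Dm H B w := by
        intro w hw
        rcases hB w hw with h | h
        · exact h
        · exact absurd h.1 hcA
      have h2 := hH.lbF B hB'
      have hTT : (∃ u, (bsum b u : Prop) ∧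
          (u ∈ A.disjSum B ∨ Dm (glueG G c H Na) (A.disjSum B) u)) →
          (∃ u, b u ∧ (u ∈ B ∨ Dm H B u)) := by
        intro hT2
        obtain ⟨u, hu, h⟩ := hT' A B hT2
        refine ⟨u, hu, ?_⟩
        rcases h with h | h | h
        · exact Or.inl h
        · exact Or.inr h
        · exact absurd h.1 hcA
      rcases hc with hc | hc
      · have h1 := hlA.2 ⟨c, rfl, Or.inr hc⟩
        have h3 := h2.1
        refine ⟨by omega, ?_⟩
        intro hT2
        have := h2.2.2.1 (hTT hT2)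
        omega
      · have h1 := hlA.1
        have h3 := h2.2.1 hc
        refine ⟨by omega, ?_⟩
        intro hT2
        have := h2.2.2.2 hc (hTT hT2)
        omega
  · -- u0
    obtain ⟨B, hBb, hB⟩ := hH.n0
    rcases hB with ⟨h1, h2, h3⟩ | ⟨h2, h3⟩ | ⟨h2, h3⟩
    · refine ⟨A0.disjSum B, ?_, ?_, ?_⟩
      · rintro (x | x) hx
        · rw [Dm_inl]
          by_cases hxc : x = c
          · exact Or.inr ⟨hxc, h1⟩
          · exact Or.inl (hA0 x hxc)
        · rw [Dm_inr]; exact Or.inl (h2 x hx)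
      · rintro (x | x) hx
        · exact absurd hx (by simp [bsum])
        · rw [Finset.inr_mem_disjSum]; exact hBb x hx
      · rw [Finset.card_disjSum]; omega
    · refine ⟨A1.disjSum B, ?_, ?_, ?_⟩
      · rintro (x | x) hx
        · rw [Dm_inl]; exact Or.inl (hA1 x)
        · rw [Dm_inr]; exact Or.inl (h2 x hx)
      · rintro (x | x) hx
        · exact absurd hx (by simp [bsum])
        · rw [Finset.inr_mem_disjSum]; exact hBb x hx
      · rw [Finset.card_disjSum]; omega
    · refine ⟨A2.disjSum B, ?_, ?_, ?_⟩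
      · rintro (x | x) hx
        · rw [Dm_inl]; exact Or.inl (hA2 x)
        · rw [Dm_inr]
          rcases h2 x hx with h | h
          · exact Or.inl h
          · exact Or.inr ⟨hA2c, h⟩
      · rintro (x | x) hx
        · exact absurd hx (by simp [bsum])
        · rw [Finset.inr_mem_disjSum]; exact hBb x hx
      · rw [Finset.card_disjSum]; omega
  · -- u1
    rintro (t | t) ht
    · exact absurd ht (by simp [bsum])
    obtain ⟨B, hBb, hB⟩ := hH.n1 t ht
    rcases hB with ⟨h1, h2, h3⟩ | ⟨h2, h3⟩ | ⟨h2, h3⟩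
    · refine ⟨A0.disjSum B, ?_, ?_, ?_⟩
      · rintro (x | x)
        · rw [Dm_inl]
          by_cases hxc : x = c
          · exact Or.inr ⟨hxc, h1⟩
          · exact Or.inl (hA0 x hxc)
        · rw [Dm_inr]; exact Or.inl (h2 x)
      · rw [Finset.inr_mem_disjSum]; exact hBb
      · rw [Finset.card_disjSum]; omega
    · refine ⟨A1.disjSum B, ?_, ?_, ?_⟩
      · rintro (x | x)
        · rw [Dm_inl]; exact Or.inl (hA1 x)
        · rw [Dm_inr]; exact Or.inl (h2 x)
      · rw [Finset.inr_mem_disjSum]; exact hBb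
      · rw [Finset.card_disjSum]; omega
    · refine ⟨A2.disjSum B, ?_, ?_, ?_⟩
      · rintro (x | x)
        · rw [Dm_inl]; exact Or.inl (hA2 x)
        · rw [Dm_inr]
          rcases h2 x with h | h
          · exact Or.inl h
          · exact Or.inr ⟨hA2c, h⟩
      · rw [Finset.inr_mem_disjSum]; exact hBb
      · rw [Finset.card_disjSum]; omega
  · -- u2
    rintro (t | t) ht
    · exact absurd ht (by simp [bsum])
    obtain ⟨B, hBb, hB⟩ := hH.n2 t ht
    rcases hB with ⟨h1, h2, h3⟩ | ⟨h2, h3⟩ | ⟨h2, h3⟩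
    · refine ⟨A0.disjSum B, ?_, ?_, ?_⟩
      · rintro (x | x)
        · rw [Dm_inl]
          by_cases hxc : x = c
          · exact Or.inr ⟨hxc, h1⟩
          · exact Or.inl (hA0 x hxc)
        · rw [Dm_inr]; exact Or.inl (h2 x)
      · rw [Finset.inr_mem_disjSum]; exact hBb
      · rw [Finset.card_disjSum]; omega
    · refine ⟨A1.disjSum B, ?_, ?_, ?_⟩
      · rintro (x | x)
        · rw [Dm_inl]; exact Or.inl (hA1 x)
        · rw [Dm_inr]; exact Or.inl (h2 x)
      · rw [Finset.inr_mem_disjSum]; exact hBb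
      · rw [Finset.card_disjSum]; omega
    · refine ⟨A2.disjSum B, ?_, ?_, ?_⟩
      · rintro (x | x)
        · rw [Dm_inl]; exact Or.inl (hA2 x)
        · rw [Dm_inr]
          rcases h2 x with h | h
          · exact Or.inl h
          · exact Or.inr ⟨hA2c, h⟩
      · rw [Finset.inr_mem_disjSum]; exact hBb
      · rw [Finset.card_disjSum]; omega
  · -- cr
    have lift2 : ∀ (A : Finset V) (B : Finset W), (∃ u, b u ∧ (u ∈ B ∨ Dm H B u)) →
        ∃ u, (bsum b u : Prop) ∧ (u ∈ A.disjSum B ∨ Dm (glueG G c H Na) (A.disjSum B) u) := by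
      rintro A B ⟨u, hu, h⟩
      apply hT
      refine ⟨u, hu, ?_⟩
      rcases h with h | h
      · exact Or.inl h
      · exact Or.inr (Or.inl h)
    have lift3 : ∀ (A : Finset V) (B : Finset W), c ∈ A → (∃ u, b u ∧ (u ∈ B ∨ Dm H B u ∨ Na u)) →
        ∃ u, (bsum b u : Prop) ∧ (u ∈ A.disjSum B ∨ Dm (glueG G c H Na) (A.disjSum B) u) := by
      rintro A B hcA ⟨u, hu, h⟩
      apply hT
      refine ⟨u, hu, ?_⟩
      rcases h with h | h | h
      · exact Or.inl h
      · exact Or.inr (Or.inl h)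
      · exact Or.inr (Or.inr ⟨hcA, h⟩)
    rintro (v | v) hv
    · by_cases hvc : v = c
      · subst hvc
        obtain ⟨B, hB, hBk⟩ := hH.tr2
        refine ⟨A0.disjSum B, ?_, ?_, ?_⟩
        · rw [Finset.inl_mem_disjSum]; exact hA0c
        · rintro (x | x) hx hxb
          · rw [Dm_inl]; exact Or.inl (hA0 x (fun h => hx (by rw [h])))
          · rw [Dm_inr]; exact Or.inl (hB x hxb)
        · rw [Finset.card_disjSum]
          rcases hBk with h | ⟨h, h'⟩
          · left; omega
          · right; exact ⟨by omega, lift2 _ _ h'⟩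
      · obtain ⟨A, hvA, hA, hAk⟩ := hG.cr v hvc
        have hfin : ∀ u, u ≠ v → u ≠ c → Dm G A u := fun u h1 h2 => hA u h1 h2
        rcases hAk with hAk | ⟨hAk, u, hu, hcA⟩
        · obtain ⟨B, hBa, hB, hBk⟩ := hH.tr1
          refine ⟨A.disjSum B, ?_, ?_, ?_⟩
          · rw [Finset.inl_mem_disjSum]; exact hvA
          · rintro (x | x) hx hxb
            · rw [Dm_inl]
              by_cases hxc : x = c
              · exact Or.inr ⟨hxc, hBa⟩
              · exact Or.inl (hfin x (fun h => hx (by rw [h])) hxc)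
            · rw [Dm_inr]; exact Or.inl (hB x hxb)
          · rw [Finset.card_disjSum]
            rcases hBk with h | ⟨h, h'⟩
            · left; omega
            · right; exact ⟨by omega, lift2 _ _ h'⟩
        · have hu : u = c := hu
          subst hu
          rcases hcA with hcA | hcA
          · obtain ⟨B, hBa, hB, hBk⟩ := hH.tr3
            refine ⟨A.disjSum B, ?_, ?_, ?_⟩
            · rw [Finset.inl_mem_disjSum]; exact hvA
            · rintro (x | x) hx hxb
              · rw [Dm_inl]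
                by_cases hxc : x = u
                · exact Or.inr ⟨hxc, hBa⟩
                · exact Or.inl (hfin x (fun h => hx (by rw [h])) hxc)
              · rw [Dm_inr]
                rcases hB x hxb with h | h
                · exact Or.inl h
                · exact Or.inr ⟨hcA, h⟩
            · rw [Finset.card_disjSum]
              rcases hBk with h | ⟨h, h'⟩
              · left; omega
              · right; exact ⟨by omega, lift3 _ _ hcA h'⟩
          · obtain ⟨B, hB, hBk⟩ := hH.tr2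
            refine ⟨A.disjSum B, ?_, ?_, ?_⟩
            · rw [Finset.inl_mem_disjSum]; exact hvA
            · rintro (x | x) hx hxb
              · rw [Dm_inl]
                by_cases hxc : x = u
                · subst hxc; exact Or.inl hcA
                · exact Or.inl (hfin x (fun h => hx (by rw [h])) hxc)
              · rw [Dm_inr]; exact Or.inl (hB x hxb)
            · rw [Finset.card_disjSum]
              rcases hBk with h | ⟨h, h'⟩
              · left; omega
              · right; exact ⟨by omega, lift2 _ _ h'⟩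
    · obtain ⟨B, hvB, hB⟩ := hH.nc v hv
      rcases hB with ⟨h1, h2, h3⟩ | ⟨h2, h3⟩ | ⟨h2, h3⟩
      · refine ⟨A0.disjSum B, ?_, ?_, ?_⟩
        · rw [Finset.inr_mem_disjSum]; exact hvB
        · rintro (x | x) hx hxb
          · rw [Dm_inl]
            by_cases hxc : x = c
            · exact Or.inr ⟨hxc, h1⟩
            · exact Or.inl (hA0 x hxc)
          · rw [Dm_inr]; exact Or.inl (h2 x (fun h => hx (by rw [h])) hxb)
        · rw [Finset.card_disjSum]
          rcases h3 with h | ⟨h, h'⟩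
          · left; omega
          · right; exact ⟨by omega, lift2 _ _ h'⟩
      · refine ⟨A1.disjSum B, ?_, ?_, ?_⟩
        · rw [Finset.inr_mem_disjSum]; exact hvB
        · rintro (x | x) hx hxb
          · rw [Dm_inl]; exact Or.inl (hA1 x)
          · rw [Dm_inr]; exact Or.inl (h2 x (fun h => hx (by rw [h])) hxb)
        · rw [Finset.card_disjSum]
          rcases h3 with h | ⟨h, h'⟩
          · left; omega
          · right; exact ⟨by omega, lift2 _ _ h'⟩
      · refine ⟨A2.disjSum B, ?_, ?_, ?_⟩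
        · rw [Finset.inr_mem_disjSum]; exact hvB
        · rintro (x | x) hx hxb
          · rw [Dm_inl]; exact Or.inl (hA2 x)
          · rw [Dm_inr]
            rcases h2 x (fun h => hx (by rw [h])) hxb with h | h
            · exact Or.inl h
            · exact Or.inr ⟨hA2c, h⟩
        · rw [Finset.card_disjSum]
          rcases h3 with h | ⟨h, h'⟩
          · left; omega
          · right; exact ⟨by omega, lift3 _ _ hA2c h'⟩


instance {V : Type} [DecidableEq V] (G : SimpleGraph V) [DecidableRel G.Adj] (S : Finset V) (u : V) :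
    Decidable (Dm G S u) := inferInstanceAs (Decidable (∃ w ∈ S, G.Adj u w))

/-- adjacency on `Fin n` from the bits of `M` -/
def adjM (n M : ℕ) (x y : Fin n) : Bool := M.testBit (n * x.val + y.val)

def mkG (n M : ℕ) (hs : ∀ x y : Fin n, adjM n M x y = adjM n M y x)
    (hl : ∀ x : Fin n, adjM n M x x = false) : SimpleGraph (Fin n) where
  Adj x y := adjM n M x y = true
  symm := ⟨fun x y h => by rw [hs y x]; exact h⟩
  loopless := ⟨fun x h => by rw [hl x] at h; exact Bool.false_ne_true h⟩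

instance (n M : ℕ) (hs : ∀ x y : Fin n, adjM n M x y = adjM n M y x)
    (hl : ∀ x : Fin n, adjM n M x x = false) : DecidableRel (mkG n M hs hl).Adj :=
  fun x y => inferInstanceAs (Decidable (adjM n M x y = true))

theorem Dm.mono {V : Type} {G : SimpleGraph V} {S T : Finset V} (h : S ⊆ T) {u : V}
    (hu : Dm G S u) : Dm G T u := by
  obtain ⟨w, hw, hA⟩ := hu
  exact ⟨w, h hw, hA⟩

theorem of_lists {W : Type} (x0 : W) (r : ℕ) (P : Finset W → Prop) (Q : List W → Prop)
    (hPQ : ∀ (S : Finset W) (L : List W), (∀ x ∈ S, x ∈ L) → P S → Q L)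
    (h : ∀ L : List W, L.length = r → ¬ Q L) : ∀ S : Finset W, S.card ≤ r → ¬ P S := by
  intro S hS hP
  refine h (S.toList ++ List.replicate (r - S.card) x0) ?_ (hPQ S _ ?_ hP)
  · rw [List.length_append, List.length_replicate, Finset.length_toList]; omega
  · intro x hx
    exact List.mem_append_left _ (Finset.mem_toList.2 hx)

theorem len3 {W : Type} {Q : List W → Prop} (h : ∀ x y z, ¬ Q [x, y, z]) :
    ∀ L : List W, L.length = 3 → ¬ Q L := by
  intro L hL
  match L, hL with
  | [x, y, z], _ => exact h x y z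

theorem len2 {W : Type} {Q : List W → Prop} (h : ∀ x y, ¬ Q [x, y]) :
    ∀ L : List W, L.length = 2 → ¬ Q L := by
  intro L hL
  match L, hL with
  | [x, y], _ => exact h x y

theorem len1 {W : Type} {Q : List W → Prop} (h : ∀ x, ¬ Q [x]) :
    ∀ L : List W, L.length = 1 → ¬ Q L := by
  intro L hL
  match L, hL with
  | [x], _ => exact h x

def allF (n : ℕ) (p : Fin n → Bool) : Bool := (List.finRange n).all p

theorem allF_spec {n : ℕ} {p : Fin n → Bool} (h : allF n p = true) (x : Fin n) : p x = true :=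
  List.all_eq_true.1 h x (List.mem_finRange x)

/-- boolean test: `L` has property (a-side `da`, b-side `tb`) and covers everything -/
def tst (n : ℕ) (adj : Fin n → Fin n → Bool) (na b : Fin n → Bool) (needA useA needB : Bool)
    (L : List (Fin n)) : Bool :=
  (!needA || L.any na) &&
  (!needB || (List.finRange n).any (fun u => b u && (L.contains u || L.any (adj u) || (useA && na u)))) &&
  (List.finRange n).all (fun w => b w || L.any (adj w) || (useA && na w))

theorem tst_of {n : ℕ} (G : SimpleGraph (Fin n)) (adj : Fin n → Fin n → Bool)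
    (hadj : ∀ x y, G.Adj x y ↔ adj x y = true)
    (na b : Fin n → Bool) (needA useA needB : Bool)
    (S : Finset (Fin n)) (L : List (Fin n)) (hSL : ∀ x ∈ S, x ∈ L)
    (hA : needA = true → ∃ w ∈ S, na w = true)
    (hB : needB = true → ∃ u, b u = true ∧ (u ∈ S ∨ Dm G S u ∨ (useA = true ∧ na u = true)))
    (hC : ∀ w, ¬ b w = true → Dm G S w ∨ (useA = true ∧ na w = true)) :
    tst n adj na b needA useA needB L = true := by
  have hDm : ∀ u, Dm G S u → L.any (adj u) = true := by
    rintro u ⟨w, hw, hA⟩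
    exact List.any_eq_true.2 ⟨w, hSL w hw, (hadj u w).1 hA⟩
  unfold tst
  rw [Bool.and_eq_true, Bool.and_eq_true]
  refine ⟨⟨?_, ?_⟩, ?_⟩
  · cases hn : needA
    · rfl
    · obtain ⟨w, hw, h⟩ := hA hn
      have : L.any na = true := List.any_eq_true.2 ⟨w, hSL w hw, h⟩
      rw [this]; rfl
  · cases hn : needB
    · rfl
    · obtain ⟨u, hu, h⟩ := hB hn
      have : (List.finRange n).any (fun u => b u && (L.contains u || L.any (adj u) || (useA && na u))) = true := by
        refine List.any_eq_true.2 ⟨u, List.mem_finRange u, ?_⟩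
        rw [hu, Bool.true_and]
        rcases h with h | h | ⟨h1, h2⟩
        · have : L.contains u = true := List.contains_iff_mem.2 (hSL u h)
          rw [this]; rfl
        · rw [hDm u h]; simp
        · rw [h1, h2]; simp
      rw [this]; rfl
  · refine List.all_eq_true.2 ?_
    intro w _
    by_cases hb : b w = true
    · rw [hb]; simp
    · rcases hC w hb with h | ⟨h1, h2⟩
      · rw [hDm w h]; simp
      · rw [h1, h2]; simp


/-- lower-bound fields of a block with one terminal `t`, from the two extreme cases -/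
theorem lb_block {W : Type} [DecidableEq W] (H : SimpleGraph W) (Na : W → Prop) (t : W) (q : ℕ)
    (y0 : W) (hy0 : Na y0)
    (N1 : ∀ S : Finset W, S.card ≤ q + 1 → ¬ ((∃ w ∈ S, Na w) ∧ (t ∈ S ∨ Dm H S t) ∧
      ∀ w, w ≠ t → Dm H S w))
    (N2 : ∀ S : Finset W, S.card ≤ q → ¬ ((t ∈ S ∨ Dm H S t ∨ Na t) ∧
      ∀ w, w ≠ t → Dm H S w ∨ Na w)) :
    (∀ S : Finset W, (∀ w, ¬ (w = t) → Dm H S w) → q ≤ S.card ∧
    ((∃ w ∈ S, Na w) → q + 1 ≤ S.card) ∧
    ((∃ u, u = t ∧ (u ∈ S ∨ Dm H S u)) → q + 1 ≤ S.card) ∧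
    ((∃ w ∈ S, Na w) → (∃ u, u = t ∧ (u ∈ S ∨ Dm H S u)) → q + 2 ≤ S.card)) ∧
    (∀ S : Finset W, (∀ w, ¬ (w = t) → Dm H S w ∨ Na w) → q ≤ S.card ∧
    ((∃ u, u = t ∧ (u ∈ S ∨ Dm H S u ∨ Na u)) → q + 1 ≤ S.card)) := by
  constructor
  · intro S hS
    refine ⟨?_, ?_, ?_, ?_⟩
    · by_contra hcon
      have c1 := Finset.card_insert_le y0 S
      have c2 := Finset.card_insert_le t (insert y0 S)
      refine N1 (insert t (insert y0 S)) (by omega)
        ⟨⟨y0, by simp, hy0⟩, Or.inl (by simp), fun w hw => (hS w hw).mono ?_⟩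
      intro x hx; simp [hx]
    · intro hA
      obtain ⟨y, hy, hy'⟩ := hA
      by_contra hcon
      have c1 := Finset.card_insert_le t S
      refine N1 (insert t S) (by omega)
        ⟨⟨y, by simp [hy], hy'⟩, Or.inl (by simp), fun w hw => (hS w hw).mono ?_⟩
      intro x hx; simp [hx]
    · rintro ⟨u, rfl, hu⟩
      by_contra hcon
      have c1 := Finset.card_insert_le y0 S
      refine N1 (insert y0 S) (by omega)
        ⟨⟨y0, by simp, hy0⟩, ?_, fun w hw => (hS w hw).mono ?_⟩
      · rcases hu with hu | hu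
        · exact Or.inl (by simp [hu])
        · exact Or.inr (hu.mono (by intro x hx; simp [hx]))
      · intro x hx; simp [hx]
    · rintro hA ⟨u, rfl, hu⟩
      by_contra hcon
      exact N1 S (by omega) ⟨hA, hu, hS⟩
  · intro S hS
    constructor
    · by_contra hcon
      have c1 := Finset.card_insert_le t S
      refine N2 (insert t S) (by omega) ⟨Or.inl (by simp), fun w hw => ?_⟩
      rcases hS w hw with h | h
      · exact Or.inl (h.mono (by intro x hx; simp [hx]))
      · exact Or.inr h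
    · rintro ⟨u, rfl, hu⟩
      by_contra hcon
      exact N2 S (by omega) ⟨hu, hS⟩


theorem N1_of {n r : ℕ} (G : SimpleGraph (Fin n)) (adj : Fin n → Fin n → Bool)
    (hadj : ∀ x y, G.Adj x y ↔ adj x y = true) (na : Fin n → Bool) (t : Fin n)
    (hr : ∀ L : List (Fin n), L.length = r →
      ¬ (tst n adj na (fun u => decide (u = t)) true false true L = true)) :
    ∀ S : Finset (Fin n), S.card ≤ r → ¬ ((∃ w ∈ S, na w = true) ∧ (t ∈ S ∨ Dm G S t) ∧
      ∀ w, w ≠ t → Dm G S w) := by
  refine of_lists t r _ (fun L => tst n adj na (fun u => decide (u = t)) true false true L = true)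
    ?_ hr
  rintro S L hSL ⟨h1, h2, h3⟩
  refine tst_of G adj hadj na _ true false true S L hSL (fun _ => h1) (fun _ => ⟨t, by simp, ?_⟩) ?_
  · rcases h2 with h | h
    · exact Or.inl h
    · exact Or.inr (Or.inl h)
  · intro w hw
    exact Or.inl (h3 w (by simpa using hw))

theorem N2_of {n r : ℕ} (G : SimpleGraph (Fin n)) (adj : Fin n → Fin n → Bool)
    (hadj : ∀ x y, G.Adj x y ↔ adj x y = true) (na : Fin n → Bool) (t : Fin n)
    (hr : ∀ L : List (Fin n), L.length = r →
      ¬ (tst n adj na (fun u => decide (u = t)) false true true L = true)) :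
    ∀ S : Finset (Fin n), S.card ≤ r → ¬ ((t ∈ S ∨ Dm G S t ∨ na t = true) ∧
      ∀ w, w ≠ t → Dm G S w ∨ na w = true) := by
  refine of_lists t r _ (fun L => tst n adj na (fun u => decide (u = t)) false true true L = true)
    ?_ hr
  rintro S L hSL ⟨h2, h3⟩
  refine tst_of G adj hadj na _ false true true S L hSL (by simp) (fun _ => ⟨t, by simp, ?_⟩) ?_
  · rcases h2 with h | h | h
    · exact Or.inl h
    · exact Or.inr (Or.inl h)
    · exact Or.inr (Or.inr ⟨rfl, h⟩)
  · intro w hw
    rcases h3 w (by simpa using hw) with h | h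
    · exact Or.inl h
    · exact Or.inr ⟨rfl, h⟩

theorem allF_not {n : ℕ} {p : Fin n → Bool} (h : allF n (fun x => !(p x)) = true) (x : Fin n) :
    ¬ p x = true := by
  have := allF_spec h x
  simpa using this

/-! ### the block `B` : 17 new vertices, `q = 2`, length 5 -/

def MB : ℕ := 466244773086145386232084721200872932637034954010131665482980254759038644385753474400454
def naB : Fin 17 → Bool := fun x => decide (x.val < 4)

theorem MB_symm : ∀ x y : Fin 17, adjM 17 MB x y = adjM 17 MB y x := by decide +kernel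
theorem MB_irr : ∀ x : Fin 17, adjM 17 MB x x = false := by decide +kernel

def HB : SimpleGraph (Fin 17) := mkG 17 MB MB_symm MB_irr

instance : DecidableRel HB.Adj := inferInstanceAs (DecidableRel (mkG 17 MB MB_symm MB_irr).Adj)

theorem B_chk1 : allF 17 (fun x => allF 17 fun y => allF 17 fun z =>
    !(tst 17 (adjM 17 MB) naB (fun u => decide (u = 16)) true false true [x, y, z])) = true := by
  decide +kernel

theorem B_chk2 : allF 17 (fun x => allF 17 fun y =>
    !(tst 17 (adjM 17 MB) naB (fun u => decide (u = 16)) false true true [x, y])) = true := by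
  decide +kernel

def ncB : Fin 17 → Finset (Fin 17) := ![{3, 4, 16}, {3, 6, 16}, {1, 7, 16}, {1, 5, 16},
  {0, 6, 16}, {0, 7, 16}, {1, 4, 16}, {2, 5, 16}, {9, 15}, {11, 12}, {11, 13}, {9, 14}, {9, 13},
  {10, 12}, {11, 15}, {8, 14}, ∅]

theorem BB_B : BB HB (fun w => naB w = true) (fun w => w = 16) 2 := by
  have hl := lb_block HB (fun w => naB w = true) 16 2 0 (by decide +kernel)
    (N1_of HB (adjM 17 MB) (fun x y => Iff.rfl) naB 16
      (len3 fun x y z => allF_not (allF_spec (allF_spec B_chk1 x) y) z))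
    (N2_of HB (adjM 17 MB) (fun x y => Iff.rfl) naB 16
      (len2 fun x y => allF_not (allF_spec B_chk2 x) y))
  refine ⟨hl.1, hl.2, ⟨{0, 1, 4, 16}, ?_⟩, ⟨{4, 7, 16}, ?_⟩, ⟨{1, 5, 16}, ?_⟩, ⟨{8, 10}, ?_⟩,
    ?_, ?_, ?_⟩
  · decide +kernel
  · decide +kernel
  · decide +kernel
  · decide +kernel
  · rintro c rfl
    exact ⟨{4, 9, 14}, by decide +kernel⟩
  · rintro c rfl
    exact ⟨{8, 13, 16}, by decide +kernel⟩
  · intro x hx
    refine ⟨ncB x, ?_⟩
    revert x
    set_option synthInstance.maxSize 100000 in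
    decide +kernel

/-! ### the block `C` : 10 new vertices, `q = 1`, length 3 -/

def MC : ℕ := 594904649590086160259143099766
def naC : Fin 10 → Bool := fun x => decide (x.val < 4)

theorem MC_symm : ∀ x y : Fin 10, adjM 10 MC x y = adjM 10 MC y x := by decide +kernel
theorem MC_irr : ∀ x : Fin 10, adjM 10 MC x x = false := by decide +kernel

def HC : SimpleGraph (Fin 10) := mkG 10 MC MC_symm MC_irr

instance : DecidableRel HC.Adj := inferInstanceAs (DecidableRel (mkG 10 MC MC_symm MC_irr).Adj)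

theorem C_chk1 : allF 10 (fun x => allF 10 fun y =>
    !(tst 10 (adjM 10 MC) naC (fun u => decide (u = 9)) true false true [x, y])) = true := by
  decide +kernel

theorem C_chk2 : allF 10 (fun x =>
    !(tst 10 (adjM 10 MC) naC (fun u => decide (u = 9)) false true true [x])) = true := by
  decide +kernel

def ncC : Fin 10 → Finset (Fin 10) := ![{3, 7}, {2, 8}, {1, 5}, {0, 6}, {9}, {2, 7}, {3, 8},
  {0, 5}, {1, 7}, ∅]

theorem BB_C : BB HC (fun w => naC w = true) (fun w => w = 9) 1 := by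
  have hl := lb_block HC (fun w => naC w = true) 9 1 0 (by decide +kernel)
    (N1_of HC (adjM 10 MC) (fun x y => Iff.rfl) naC 9
      (len2 fun x y => allF_not (allF_spec C_chk1 x) y))
    (N2_of HC (adjM 10 MC) (fun x y => Iff.rfl) naC 9
      (len1 fun x => allF_not C_chk2 x))
  refine ⟨hl.1, hl.2, ⟨{0, 1}, ?_⟩, ⟨{4, 6}, ?_⟩, ⟨{0, 6}, ?_⟩, ⟨{0, 1}, ?_⟩,
    ?_, ?_, ?_⟩
  · decide +kernel
  · decide +kernel
  · decide +kernel
  · decide +kernel
  · rintro c rfl
    exact ⟨{0, 6}, by decide +kernel⟩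
  · rintro c rfl
    exact ⟨{5, 9}, by decide +kernel⟩
  · intro x hx
    refine ⟨ncC x, ?_⟩
    revert x
    set_option synthInstance.maxSize 100000 in
    decide +kernel

/-! ### the final block `A` : 9 new vertices, no terminal, `q = 2`, length 3 -/

def MA : ℕ := 1136158454817144065863804
def naA : Fin 9 → Bool := fun x => decide (x.val < 4)

theorem MA_symm : ∀ x y : Fin 9, adjM 9 MA x y = adjM 9 MA y x := by decide +kernel
theorem MA_irr : ∀ x : Fin 9, adjM 9 MA x x = false := by decide +kernel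

def HA : SimpleGraph (Fin 9) := mkG 9 MA MA_symm MA_irr

instance : DecidableRel HA.Adj := inferInstanceAs (DecidableRel (mkG 9 MA MA_symm MA_irr).Adj)

theorem A_chk1 : allF 9 (fun x => allF 9 fun y =>
    !(tst 9 (adjM 9 MA) naA (fun _ => false) true false false [x, y])) = true := by
  decide +kernel

theorem A_chk2 : allF 9 (fun x =>
    !(tst 9 (adjM 9 MA) naA (fun _ => false) false true false [x])) = true := by
  decide +kernel

def ncA : Fin 9 → Finset (Fin 9) := ![{1, 7}, {0, 5}, {1, 4}, {2, 6}, {2, 7}, {1, 6}, {3, 5},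
  {0, 4}, {0, 3}]

theorem BB_A : BB HA (fun w => naA w = true) (fun _ => False) 2 := by
  have N1 : ∀ S : Finset (Fin 9), S.card ≤ 2 → ¬ ((∃ w ∈ S, naA w = true) ∧
      ∀ w, Dm HA S w) := by
    refine of_lists 0 2 _ (fun L => tst 9 (adjM 9 MA) naA (fun _ => false) true false false L = true)
      ?_ (len2 fun x y => allF_not (allF_spec A_chk1 x) y)
    rintro S L hSL ⟨h1, h3⟩
    exact tst_of HA (adjM 9 MA) (fun x y => Iff.rfl) naA _ true false false S L hSL
      (fun _ => h1) (by simp) (fun w _ => Or.inl (h3 w))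
  have N2 : ∀ S : Finset (Fin 9), S.card ≤ 1 → ¬ (∀ w, Dm HA S w ∨ naA w = true) := by
    refine of_lists 0 1 _ (fun L => tst 9 (adjM 9 MA) naA (fun _ => false) false true false L = true)
      ?_ (len1 fun x => allF_not A_chk2 x)
    rintro S L hSL h3
    refine tst_of HA (adjM 9 MA) (fun x y => Iff.rfl) naA _ false true false S L hSL
      (by simp) (by simp) (fun w _ => ?_)
    rcases h3 w with h | h
    · exact Or.inl h
    · exact Or.inr ⟨rfl, h⟩
  refine ⟨?_, ?_, ⟨{0, 1, 4}, ?_⟩, ⟨{4, 5}, ?_⟩, ⟨{0, 5}, ?_⟩, ⟨{0, 5}, ?_⟩,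
    ?_, ?_, ?_⟩
  · intro S hS
    have hS' : ∀ w, Dm HA S w := fun w => hS w not_false
    refine ⟨?_, ?_, ?_, ?_⟩
    · by_contra hcon
      have c1 := Finset.card_insert_le 0 S
      exact N1 (insert 0 S) (by omega) ⟨⟨0, by simp, by decide +kernel⟩,
        fun w => (hS' w).mono (by intro x hx; simp [hx])⟩
    · intro h
      by_contra hcon
      exact N1 S (by omega) ⟨h, hS'⟩
    · rintro ⟨u, hu, _⟩
      exact hu.elim
    · rintro _ ⟨u, hu, _⟩
      exact hu.elim
  · intro S hS
    refine ⟨?_, ?_⟩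
    · by_contra hcon
      exact N2 S (by omega) (fun w => hS w not_false)
    · rintro ⟨u, hu, _⟩
      exact hu.elim
  · decide +kernel
  · decide +kernel
  · decide +kernel
  · decide +kernel
  · intro c hc; exact hc.elim
  · intro c hc; exact hc.elim
  · intro x hx
    refine ⟨ncA x, ?_⟩
    clear hx
    revert x
    set_option synthInstance.maxSize 100000 in
    decide +kernel


/-! ### starting caps -/

theorem PP_lb_of {n k : ℕ} (G : SimpleGraph (Fin n)) (adj : Fin n → Fin n → Bool)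
    (hadj : ∀ x y, G.Adj x y ↔ adj x y = true) (c : Fin n)
    (hr : ∀ L : List (Fin n), L.length = k →
      ¬ (tst n adj (fun _ => false) (fun u => decide (u = c)) false false true L = true)) :
    ∀ S : Finset (Fin n), (∀ u, ¬ (u = c) → Dm G S u) →
    k ≤ S.card ∧ ((∃ u, u = c ∧ (u ∈ S ∨ Dm G S u)) → k + 1 ≤ S.card) := by
  have N : ∀ S : Finset (Fin n), S.card ≤ k → ¬ ((c ∈ S ∨ Dm G S c) ∧ ∀ u, u ≠ c → Dm G S u) := by
    refine of_lists c k _
      (fun L => tst n adj (fun _ => false) (fun u => decide (u = c)) false false true L = true) ?_ hr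
    rintro S L hSL ⟨h2, h3⟩
    refine tst_of G adj hadj _ _ false false true S L hSL (by simp) (fun _ => ⟨c, by simp, ?_⟩) ?_
    · rcases h2 with h | h
      · exact Or.inl h
      · exact Or.inr (Or.inl h)
    · intro w hw
      exact Or.inl (h3 w (by simpa using hw))
  intro S hS
  constructor
  · by_contra hcon
    have c1 := Finset.card_insert_le c S
    exact N (insert c S) (by omega) ⟨Or.inl (by simp), fun w hw => (hS w hw).mono (by
      intro x hx; simp [hx])⟩
  · rintro ⟨u, rfl, hu⟩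
    by_contra hcon
    exact N S (by omega) ⟨hu, hS⟩

/-- cap `P` : 10 vertices, `k = 2`, length 3 -/
def MP : ℕ := 594942069775285089635619038238
theorem MP_symm : ∀ x y : Fin 10, adjM 10 MP x y = adjM 10 MP y x := by decide +kernel
theorem MP_irr : ∀ x : Fin 10, adjM 10 MP x x = false := by decide +kernel
def HP : SimpleGraph (Fin 10) := mkG 10 MP MP_symm MP_irr
instance : DecidableRel HP.Adj := inferInstanceAs (DecidableRel (mkG 10 MP MP_symm MP_irr).Adj)

theorem P_chk : allF 10 (fun x => allF 10 fun y =>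
    !(tst 10 (adjM 10 MP) (fun _ => false) (fun u => decide (u = 9)) false false true [x, y])) = true := by
  decide +kernel

def crP : Fin 10 → Finset (Fin 10) := ![{5, 6}, {2, 8}, {1, 6}, {2, 5}, {3, 7}, {3, 8}, {2, 7},
  {4, 6}, {1, 5}, ∅]

theorem PP_P : PP HP (fun x => x = 9) 2 := by
  refine ⟨PP_lb_of HP (adjM 10 MP) (fun x y => Iff.rfl) 9
      (len2 fun x y => allF_not (allF_spec P_chk x) y), ⟨{1, 4}, ?_⟩, ?_, ?_, ?_⟩
  · decide +kernel
  · rintro c rfl
    exact ⟨{0, 1, 6}, by decide +kernel⟩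
  · rintro c rfl
    exact ⟨{1, 5, 9}, by decide +kernel⟩
  · intro x hx
    refine ⟨crP x, ?_⟩
    revert x
    set_option synthInstance.maxSize 100000 in
    decide +kernel

/-- cap `Q` : 13 vertices, `k = 3`, length 4 -/
def MQ : ℕ := 350819989676521707786618539354501292577350286516238
theorem MQ_symm : ∀ x y : Fin 13, adjM 13 MQ x y = adjM 13 MQ y x := by decide +kernel
theorem MQ_irr : ∀ x : Fin 13, adjM 13 MQ x x = false := by decide +kernel
def HQ : SimpleGraph (Fin 13) := mkG 13 MQ MQ_symm MQ_irr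
instance : DecidableRel HQ.Adj := inferInstanceAs (DecidableRel (mkG 13 MQ MQ_symm MQ_irr).Adj)

theorem Q_chk : allF 13 (fun x => allF 13 fun y => allF 13 fun z =>
    !(tst 13 (adjM 13 MQ) (fun _ => false) (fun u => decide (u = 12)) false false true [x, y, z])) = true := by
  decide +kernel

def crQ : Fin 13 → Finset (Fin 13) := ![{5, 7, 9}, {2, 5, 8}, {1, 3, 12}, {2, 6, 12}, {3, 5, 8},
  {0, 1, 12}, {3, 5, 9}, {0, 2, 12}, {1, 4, 10}, {1, 6, 11}, {1, 6, 8}, {1, 4, 9}, ∅]

theorem PP_Q : PP HQ (fun x => x = 12) 3 := by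
  refine ⟨PP_lb_of HQ (adjM 13 MQ) (fun x y => Iff.rfl) 12
      (len3 fun x y z => allF_not (allF_spec (allF_spec Q_chk x) y) z), ⟨{1, 3, 5}, ?_⟩, ?_, ?_, ?_⟩
  · decide +kernel
  · rintro c rfl
    exact ⟨{0, 1, 5, 8}, by decide +kernel⟩
  · rintro c rfl
    exact ⟨{0, 1, 8, 12}, by decide +kernel⟩
  · intro x hx
    refine ⟨crQ x, ?_⟩
    revert x
    set_option synthInstance.maxSize 100000 in
    decide +kernel

/-- the graph for `k = 4`: 14 vertices, length 4 -/
def MF : ℕ := 47082429793851325858040853678735966901526055261149903011870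
theorem MF_symm : ∀ x y : Fin 14, adjM 14 MF x y = adjM 14 MF y x := by decide +kernel
theorem MF_irr : ∀ x : Fin 14, adjM 14 MF x x = false := by decide +kernel
def HF : SimpleGraph (Fin 14) := mkG 14 MF MF_symm MF_irr
instance : DecidableRel HF.Adj := inferInstanceAs (DecidableRel (mkG 14 MF MF_symm MF_irr).Adj)

theorem F_chk : allF 14 (fun x => allF 14 fun y => allF 14 fun z =>
    !(tst 14 (adjM 14 MF) (fun _ => false) (fun _ => false) false false false [x, y, z])) = true := by
  decide +kernel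

def crF : Fin 14 → Finset (Fin 14) := ![{5, 7, 9}, {4, 5, 11}, {4, 8, 10}, {1, 6, 9}, {1, 7, 12},
  {1, 8, 10}, {3, 7, 12}, {2, 6, 9}, {2, 5, 11}, {3, 7, 10}, {2, 5, 9}, {1, 8, 9}, {2, 6, 10},
  {1, 5, 7}]

theorem PP_F : PP HF (fun _ => False) 4 := by
  have N : ∀ S : Finset (Fin 14), S.card ≤ 3 → ¬ (∀ u, Dm HF S u) := by
    refine of_lists 0 3 _
      (fun L => tst 14 (adjM 14 MF) (fun _ => false) (fun _ => false) false false false L = true) ?_
      (len3 fun x y z => allF_not (allF_spec (allF_spec F_chk x) y) z)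
    rintro S L hSL h3
    exact tst_of HF (adjM 14 MF) (fun x y => Iff.rfl) _ _ false false false S L hSL
      (by simp) (by simp) (fun w _ => Or.inl (h3 w))
  refine ⟨?_, ⟨{0, 1, 5, 11}, ?_⟩, ?_, ?_, ?_⟩
  · intro S hS
    constructor
    · by_contra hcon
      exact N S (by omega) (fun u => hS u not_false)
    · rintro ⟨u, hu, _⟩
      exact hu.elim
  · decide +kernel
  · intro c hc; exact hc.elim
  · intro c hc; exact hc.elim
  · intro x hx
    refine ⟨crF x, ?_⟩
    clear hx
    revert x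
    set_option synthInstance.maxSize 100000 in
    decide +kernel

/-! ### assembling -/

/-- pointed graph with parameters `k`, `e` exists -/
def PG (k e : ℕ) : Prop :=
  ∃ (V : Type) (_ : Fintype V) (G : SimpleGraph V) (c : V) (lev : V → ℕ), G.Connected ∧
    PP G (fun x => x = c) k ∧ (∀ x y, G.Adj x y → lev x ≤ lev y + 1) ∧ lev c = e ∧ ∃ v, lev v = 0

/-- full graph with parameters `k`, `d` exists -/
def FG (k d : ℕ) : Prop :=
  ∃ (V : Type) (_ : Fintype V) (G : SimpleGraph V) (lev : V → ℕ), G.Connected ∧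
    PP G (fun _ => False) k ∧ (∀ x y, G.Adj x y → lev x ≤ lev y + 1) ∧ (∃ v, lev v = 0) ∧
    ∃ v, lev v = d

theorem glue_connected {V : Type} {n : ℕ} (G : SimpleGraph V) (c : V) (H : SimpleGraph (Fin n))
    (Na : Fin n → Prop) (hG : G.Connected) (hH : ∀ w, Na w ∨ ∃ u, u < w ∧ H.Adj u w) :
    (glueG G c H Na).Connected := by
  rw [SimpleGraph.connected_iff_exists_forall_reachable]
  refine ⟨.inl c, ?_⟩
  let f : G →g glueG G c H Na := ⟨Sum.inl, fun {a b} h => h⟩
  have hl : ∀ x, (glueG G c H Na).Reachable (.inl c) (.inl x) := by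
    intro x
    exact (hG.preconnected c x).map f
  have hr : ∀ m : ℕ, ∀ w : Fin n, w.val = m → (glueG G c H Na).Reachable (.inl c) (.inr w) := by
    intro m
    induction m using Nat.strong_induction_on with
    | _ m ih =>
      intro w hw
      rcases hH w with h | ⟨u, hu, h⟩
      · have : (glueG G c H Na).Adj (.inl c) (.inr w) := ⟨rfl, h⟩
        exact this.reachable
      · have h1 := ih u.val (by rw [← hw]; exact hu) u rfl
        have : (glueG G c H Na).Adj (.inr u) (.inr w) := h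
        exact h1.trans this.reachable
  rintro (x | x)
  · exact hl x
  · exact hr x.val x rfl

def glev {V : Type} {n : ℕ} (lev : V → ℕ) (e : ℕ) (lv : Fin n → ℕ) : V ⊕ Fin n → ℕ
  | .inl x => lev x
  | .inr w => e + lv w

theorem glue_lip {V : Type} {n : ℕ} (G : SimpleGraph V) (c : V) (H : SimpleGraph (Fin n))
    (Na : Fin n → Prop) (lev : V → ℕ) (e : ℕ) (lv : Fin n → ℕ) (hc : lev c = e)
    (h1 : ∀ x y, G.Adj x y → lev x ≤ lev y + 1) (h2 : ∀ x y, H.Adj x y → lv x ≤ lv y + 1)
    (h3 : ∀ x, Na x → lv x ≤ 1) :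
    ∀ x y, (glueG G c H Na).Adj x y → glev lev e lv x ≤ glev lev e lv y + 1 := by
  rintro (x | x) (y | y) h
  · exact h1 x y h
  · have hx : x = c := h.1
    subst hx
    simp only [glev]; omega
  · have hx : y = c := h.1
    subst hx
    have := h3 x h.2
    simp only [glev]; omega
  · have := h2 x y h
    simp only [glev]; omega

theorem PG.step {k e n : ℕ} (h : PG k e) (H : SimpleGraph (Fin n)) (Na : Fin n → Prop) (t : Fin n)
    (q len : ℕ) (hB : BB H Na (fun w => w = t) q) (lv : Fin n → ℕ)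
    (hH : ∀ w, Na w ∨ ∃ u, u < w ∧ H.Adj u w) (h2 : ∀ x y, H.Adj x y → lv x ≤ lv y + 1)
    (h3 : ∀ x, Na x → lv x ≤ 1) (ht : lv t = len) : PG (k + q + 1) (e + len) := by
  obtain ⟨V, iV, G, c, lev, hc, hP, hl, he, v, hv⟩ := h
  refine ⟨V ⊕ Fin n, inferInstance, glueG G c H Na, .inr t, glev lev e lv,
    glue_connected G c H Na hc hH, ?_, glue_lip G c H Na lev e lv he hl h2 h3, ?_, .inl v, hv⟩
  · have := glue_PP hP hB
    have hb : (bsum (fun w => w = t) : V ⊕ Fin n → Prop) = fun x => x = .inr t := by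
      funext x
      rcases x with x | x
      · simp [bsum]
      · simp [bsum]
    rw [hb] at this
    exact this
  · simp only [glev]; omega

theorem PG.final {k e n : ℕ} (h : PG k e) (H : SimpleGraph (Fin n)) (Na : Fin n → Prop)
    (q len : ℕ) (hB : BB H Na (fun _ => False) q) (lv : Fin n → ℕ)
    (hH : ∀ w, Na w ∨ ∃ u, u < w ∧ H.Adj u w) (h2 : ∀ x y, H.Adj x y → lv x ≤ lv y + 1)
    (h3 : ∀ x, Na x → lv x ≤ 1) (t : Fin n) (ht : lv t = len) : FG (k + q + 1) (e + len) := by
  obtain ⟨V, iV, G, c, lev, hc, hP, hl, he, v, hv⟩ := h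
  refine ⟨V ⊕ Fin n, inferInstance, glueG G c H Na, glev lev e lv,
    glue_connected G c H Na hc hH, ?_, glue_lip G c H Na lev e lv he hl h2 h3, ⟨.inl v, hv⟩,
    .inr t, ?_⟩
  · have := glue_PP hP hB
    have hb : (bsum (fun _ => False) : V ⊕ Fin n → Prop) = fun _ => False := by
      funext x
      rcases x with x | x
      · simp [bsum]
      · simp [bsum]
    rw [hb] at this
    exact this
  · simp only [glev]; omega

def lvB : Fin 17 → ℕ := ![1, 1, 1, 1, 2, 2, 2, 2, 3, 3, 3, 3, 4, 4, 4, 4, 5]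
def lvC : Fin 10 → ℕ := ![1, 1, 1, 1, 2, 2, 2, 2, 2, 3]
def lvA : Fin 9 → ℕ := ![1, 1, 1, 1, 2, 2, 2, 2, 3]
def lvP : Fin 10 → ℕ := ![0, 1, 1, 1, 1, 2, 2, 2, 2, 3]
def lvQ : Fin 13 → ℕ := ![0, 1, 1, 1, 2, 2, 2, 2, 3, 3, 3, 3, 4]
def lvF : Fin 14 → ℕ := ![0, 1, 1, 1, 1, 2, 2, 2, 2, 3, 3, 3, 3, 4]

theorem conn_of_parent {n : ℕ} (H : SimpleGraph (Fin (n+1))) (h : ∀ w, w = 0 ∨ ∃ u, u < w ∧ H.Adj u w) :
    H.Connected := by
  rw [SimpleGraph.connected_iff_exists_forall_reachable]
  refine ⟨0, ?_⟩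
  have hr : ∀ m : ℕ, ∀ w : Fin (n+1), w.val = m → H.Reachable 0 w := by
    intro m
    induction m using Nat.strong_induction_on with
    | _ m ih =>
      intro w hw
      rcases h w with h | ⟨u, hu, h⟩
      · subst h; exact SimpleGraph.Reachable.refl _
      · exact (ih u.val (by rw [← hw]; exact hu) u rfl).trans h.reachable
  exact fun w => hr w.val w rfl

theorem PG_P : PG 2 3 :=
  ⟨Fin 10, inferInstance, HP, 9, lvP, conn_of_parent HP (by decide +kernel), PP_P,
    by decide +kernel, by decide +kernel, 0, by decide +kernel⟩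

theorem PG_Q : PG 3 4 :=
  ⟨Fin 13, inferInstance, HQ, 12, lvQ, conn_of_parent HQ (by decide +kernel), PP_Q,
    by decide +kernel, by decide +kernel, 0, by decide +kernel⟩

theorem PG_C : PG 4 6 :=
  PG_P.step HC (fun w => naC w = true) 9 1 3 BB_C lvC (by decide +kernel) (by decide +kernel)
    (by decide +kernel) (by decide +kernel)

theorem PG.addB {k e : ℕ} (h : PG k e) : PG (k + 3) (e + 5) :=
  h.step HB (fun w => naB w = true) 16 2 5 BB_B lvB (by decide +kernel) (by decide +kernel)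
    (by decide +kernel) (by decide +kernel)

theorem PG.addBs {k e : ℕ} (h : PG k e) (m : ℕ) : PG (k + 3 * m) (e + 5 * m) := by
  induction m with
  | zero => exact h
  | succ m ih =>
    have := ih.addB
    have e1 : k + 3 * (m + 1) = k + 3 * m + 3 := by ring
    have e2 : e + 5 * (m + 1) = e + 5 * m + 5 := by ring
    rw [e1, e2]; exact this

theorem PG.close {k e : ℕ} (h : PG k e) : FG (k + 3) (e + 3) :=
  h.final HA (fun w => naA w = true) 2 3 BB_A lvA (by decide +kernel) (by decide +kernel)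
    (by decide +kernel) 8 (by decide +kernel)

theorem FG_F : FG 4 4 :=
  ⟨Fin 14, inferInstance, HF, lvF, conn_of_parent HF (by decide +kernel), PP_F,
    by decide +kernel, ⟨0, by decide +kernel⟩, 13, by decide +kernel⟩

theorem FG_all (k : ℕ) (hk : 4 ≤ k) : FG k ((5 * k - 7) / 3) := by
  by_cases h4 : k = 4
  · subst h4; exact FG_F
  obtain ⟨m, hm⟩ : ∃ m, k = 5 + 3 * m ∨ k = 6 + 3 * m ∨ k = 7 + 3 * m :=
    ⟨(k - 5) / 3, by omega⟩
  rcases hm with hm | hm | hm
  · have := (PG_P.addBs m).close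
    have e1 : k = 2 + 3 * m + 3 := by omega
    have e2 : (5 * k - 7) / 3 = 3 + 5 * m + 3 := by omega
    rw [e2, e1]; exact this
  · have := (PG_Q.addBs m).close
    have e1 : k = 3 + 3 * m + 3 := by omega
    have e2 : (5 * k - 7) / 3 = 4 + 5 * m + 3 := by omega
    rw [e2, e1]; exact this
  · have := (PG_C.addBs m).close
    have e1 : k = 4 + 3 * m + 3 := by omega
    have e2 : (5 * k - 7) / 3 = 6 + 5 * m + 3 := by omega
    rw [e2, e1]; exact this


theorem lower_exists (k : ℕ) (hk : 4 ≤ k) :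
    ∃ (n : ℕ) (G : SimpleGraph (Fin n)), G.Connected ∧
      (∃ S : Finset (Fin n), S.card = k ∧ ∀ u : Fin n, ∃ w ∈ S, G.Adj u w) ∧
      (∀ S : Finset (Fin n), (∀ u : Fin n, ∃ w ∈ S, G.Adj u w) → k ≤ S.card) ∧
      (∀ v : Fin n, (¬ ∃ u : Fin n, G.Adj v u ∧ ∀ w : Fin n, G.Adj u w → w = v) →
        ∃ S : Finset (Fin n), v ∉ S ∧ S.card < k ∧ ∀ u : Fin n, u ≠ v → ∃ w ∈ S, G.Adj u w) ∧
      G.diam = (5 * k - 7) / 3 := by
  classical
  obtain ⟨V, iV, G, lev, hc, hP, hl, ⟨v0, hv0⟩, v1, hv1⟩ := FG_all k hk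
  let φ : V ≃ Fin (Fintype.card V) := Fintype.equivFin V
  have hadj : ∀ x y, (G.comap φ.symm).Adj x y ↔ G.Adj (φ.symm x) (φ.symm y) := fun x y => Iff.rfl
  have hc' : (G.comap φ.symm).Connected :=
    (SimpleGraph.Iso.comap φ.symm G).connected_iff.2 hc
  -- moving dominating sets
  have mv : ∀ (S : Finset V) (x : V), Dm G S x → ∃ w ∈ S.map φ.toEmbedding,
      (G.comap φ.symm).Adj (φ x) w := by
    rintro S x ⟨w, hw, hA⟩
    refine ⟨φ w, Finset.mem_map.2 ⟨w, hw, rfl⟩, ?_⟩
    rw [hadj, Equiv.symm_apply_apply, Equiv.symm_apply_apply]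
    exact hA
  have hlb : ∀ S : Finset (Fin (Fintype.card V)),
      (∀ u, ∃ w ∈ S, (G.comap φ.symm).Adj u w) → k ≤ S.card := by
    intro S hS
    have := (hP.lb (S.map φ.symm.toEmbedding) (fun u _ => by
      obtain ⟨w, hw, hA⟩ := hS (φ u)
      rw [hadj, Equiv.symm_apply_apply] at hA
      exact ⟨φ.symm w, Finset.mem_map.2 ⟨w, hw, rfl⟩, hA⟩)).1
    rwa [Finset.card_map] at this
  have hcr : ∀ v, ∃ S : Finset (Fin (Fintype.card V)), v ∉ S ∧ S.card < k ∧
      ∀ u, u ≠ v → ∃ w ∈ S, (G.comap φ.symm).Adj u w := by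
    intro v
    obtain ⟨S, hvS, hS, hSk⟩ := hP.cr (φ.symm v) not_false
    refine ⟨S.map φ.toEmbedding, ?_, ?_, ?_⟩
    · intro h
      obtain ⟨w, hw, hw'⟩ := Finset.mem_map.1 h
      apply hvS
      have : φ.symm v = w := by rw [← hw']; exact φ.symm_apply_apply w
      rw [this]; exact hw
    · rw [Finset.card_map]
      rcases hSk with h | ⟨_, u, hu, _⟩
      · omega
      · exact hu.elim
    · intro u hu
      have := mv S (φ.symm u) (hS (φ.symm u) (fun h => hu (φ.symm.injective h)) not_false)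
      rwa [Equiv.apply_symm_apply] at this
  refine ⟨Fintype.card V, G.comap φ.symm, hc', ?_, hlb, fun v _ => hcr v, ?_⟩
  · obtain ⟨S, hS, _, hSk⟩ := hP.u0
    have h1 := (hP.lb S hS).1
    refine ⟨S.map φ.toEmbedding, by rw [Finset.card_map]; omega, ?_⟩
    intro u
    have := mv S (φ.symm u) (hS (φ.symm u) not_false)
    rwa [Equiv.apply_symm_apply] at this
  · apply le_antisymm
    · exact upper (G.comap φ.symm) k hk hc' hlb (fun v _ => hcr v)
    · have hlip : ∀ x y : Fin (Fintype.card V), ∀ p : (G.comap φ.symm).Walk x y,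
          lev (φ.symm y) ≤ lev (φ.symm x) + p.length := by
        intro x y p
        induction p with
        | nil => simp
        | @cons a b c h p ih =>
          have := hl _ _ ((hadj _ _).1 h).symm
          rw [SimpleGraph.Walk.length_cons]
          omega
      obtain ⟨p, hp⟩ := hc'.exists_walk_length_eq_dist (φ v0) (φ v1)
      have h1 := hlip _ _ p
      rw [Equiv.symm_apply_apply, Equiv.symm_apply_apply, hv0, hv1, hp] at h1
      have : Nonempty (Fin (Fintype.card V)) := ⟨φ v0⟩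
      have h2 : (G.comap φ.symm).dist (φ v0) (φ v1) ≤ (G.comap φ.symm).diam :=
        SimpleGraph.dist_le_diam (SimpleGraph.connected_iff_ediam_ne_top.1 hc')
      omega


end TDVC

/-- For every k ≥ 4, every connected finite graph with total domination number k whose γ_t drops on deleting any vertex not adjacent to a leaf has diameter at most ⌊(5k−7)/3⌋, and some such graph attains that diameter. -/
theorem result : ∀ k : ℕ, 4 ≤ k →
    (∀ (V : Type) [Fintype V] (G : SimpleGraph V), G.Connected →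
      (∃ S : Finset V, S.card = k ∧ ∀ u : V, ∃ w ∈ S, G.Adj u w) →
      (∀ S : Finset V, (∀ u : V, ∃ w ∈ S, G.Adj u w) → k ≤ S.card) →
      (∀ v : V, (¬ ∃ u : V, G.Adj v u ∧ ∀ w : V, G.Adj u w → w = v) →
        ∃ S : Finset V, v ∉ S ∧ S.card < k ∧ ∀ u : V, u ≠ v → ∃ w ∈ S, G.Adj u w) →
      G.diam ≤ (5 * k - 7) / 3) ∧
    (∃ (n : ℕ) (G : SimpleGraph (Fin n)), G.Connected ∧
      (∃ S : Finset (Fin n), S.card = k ∧ ∀ u : Fin n, ∃ w ∈ S, G.Adj u w) ∧
      (∀ S : Finset (Fin n), (∀ u : Fin n, ∃ w ∈ S, G.Adj u w) → k ≤ S.card) ∧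
      (∀ v : Fin n, (¬ ∃ u : Fin n, G.Adj v u ∧ ∀ w : Fin n, G.Adj u w → w = v) →
        ∃ S : Finset (Fin n), v ∉ S ∧ S.card < k ∧ ∀ u : Fin n, u ≠ v → ∃ w ∈ S, G.Adj u w) ∧
      G.diam = (5 * k - 7) / 3) := by
  intro k hk
  refine ⟨?_, TDVC.lower_exists k hk⟩
  intro V _ G hc _ h2 h3
  exact TDVC.upper G k hk hc h2 h3

end Pool.Agent.S04941
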