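import Pool.Statements.S04966
-- import your own Pool.Agent.* helpers here

set_option autoImplicit false
open Pool Pool.MP_2076c8_co

namespace Pool.Agent.S04966

/-- finite van der Waerden theorem -/
lemma vdW (κ : Type) [Finite κ] (k : ℕ) :
    ∃ N : ℕ, ∀ c : ℕ → κ, ∃ a d : ℕ, 1 ≤ a ∧ 1 ≤ d ∧ a + k * d ≤ N ∧
      ∀ j ≤ k, c (a + j * d) = c a := by
  obtain ⟨ι, hι, H⟩ := Combinatorics.Line.exists_mono_in_high_dimension (Fin (k + 1)) κ
  classical
  refine ⟨1 + k * Fintype.card ι, fun c => ?_⟩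
  obtain ⟨l, col, hl⟩ := H (fun v => c (1 + ∑ i, (v i : ℕ)))
  set s : Finset ι := {i | l.idxFun i = none} with hs
  have hsum : ∀ x : Fin (k + 1), ∑ i, ((l x i : Fin (k+1)) : ℕ) =
      ∑ i, ((l 0 i : Fin (k+1)) : ℕ) + x * s.card := by
    intro x
    have h1 : ∀ i, ((l x i : Fin (k+1)) : ℕ) =
        ((l 0 i : Fin (k+1)) : ℕ) + (if i ∈ s then (x : ℕ) else 0) := by
      intro i
      by_cases hi : i ∈ s
      · have hi' : l.idxFun i = none := by simpa [hs] using hi
        rw [if_pos hi, Combinatorics.Line.apply_none _ _ _ hi',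
          Combinatorics.Line.apply_none _ _ _ hi']
        simp
      · have hi' : l.idxFun i ≠ none := by simpa [hs] using hi
        obtain ⟨y, hy⟩ := Option.ne_none_iff_exists.mp hi'
        rw [if_neg hi, Combinatorics.Line.apply_some hy.symm,
          Combinatorics.Line.apply_some hy.symm]
        simp
    rw [Finset.sum_congr rfl (fun i _ => h1 i), Finset.sum_add_distrib]
    congr 1
    rw [Finset.sum_ite_mem, Finset.univ_inter, Finset.sum_const, smul_eq_mul, mul_comm]
  have hspos : 1 ≤ s.card := by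
    obtain ⟨i, hi⟩ := l.proper
    exact Finset.card_pos.mpr ⟨i, by simp [hs, hi]⟩
  refine ⟨1 + ∑ i, ((l 0 i : Fin (k+1)) : ℕ), s.card, by omega, hspos, ?_, ?_⟩
  · have h2 := hsum (Fin.last k)
    have h3 : ∑ i, ((l (Fin.last k) i : Fin (k+1)) : ℕ) ≤ ∑ _i : ι, k :=
      Finset.sum_le_sum (fun i _ => Nat.lt_succ_iff.mp (Fin.is_lt _))
    rw [Finset.sum_const, smul_eq_mul, Finset.card_univ] at h3
    simp only [Fin.val_last] at h2
    rw [mul_comm k (Fintype.card ι)]
    omega
  · intro j hj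
    have h4 := hl ⟨j, Nat.lt_succ_of_le hj⟩
    have h5 := hl 0
    simp only at h4 h5
    rw [hsum] at h4
    simp only at h4
    rw [add_assoc, h4, h5]

/-- Iterated van der Waerden: a decreasing sequence `a 0 > a 1 > …` such that
`a l - a l' - a l''` has the colour of `a l` whenever `l < l' < l''`. -/
lemma levels (κ : Type) [Finite κ] (M : ℕ) :
    ∃ N : ℕ, ∀ χ : ℕ → κ, ∃ a : ℕ → ℕ,
      (∀ l, l < M → 1 ≤ a l ∧ a l ≤ N) ∧
      (∀ l l', l < l' → l' < M → a l' < a l) ∧
      (∀ l l' l'', l < l' → l' < l'' → l'' < M →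
        a l' + a l'' < a l ∧ χ (a l - a l' - a l'') = χ (a l)) := by
  induction M with
  | zero =>
    refine ⟨0, fun χ => ⟨fun _ => 0, ?_, ?_, ?_⟩⟩
    · intro l hl; omega
    · intro l l' _ hl; omega
    · intro l l' l'' _ _ hl; omega
  | succ M ih =>
    obtain ⟨N, hN⟩ := ih
    obtain ⟨W, hW⟩ := vdW κ (2 * N + 1)
    refine ⟨max W (W * N), fun χ => ?_⟩
    obtain ⟨s, D, hs, hD, hle, hmono⟩ := hW χ
    obtain ⟨b, hb1, hb2, hb3⟩ := hN (fun n => χ (D * n))
    have hDW : D ≤ W := by nlinarith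
    refine ⟨fun l => if l = 0 then s + (2 * N + 1) * D else D * b (l - 1), ?_, ?_, ?_⟩
    · intro l hl
      by_cases h0 : l = 0
      · simp only [h0, if_true]
        exact ⟨by omega, le_trans hle (le_max_left _ _)⟩
      · simp only [h0, if_false]
        obtain ⟨h1, h2⟩ := hb1 (l - 1) (by omega)
        exact ⟨Nat.mul_pos hD h1, le_trans (Nat.mul_le_mul hDW h2) (le_max_right _ _)⟩
    · intro l l' hll hl'
      have h0' : l' ≠ 0 := by omega
      by_cases h0 : l = 0
      · simp only [h0, h0', if_true, if_false]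
        obtain ⟨h1, h2⟩ := hb1 (l' - 1) (by omega)
        nlinarith
      · simp only [h0, h0', if_false]
        exact Nat.mul_lt_mul_of_pos_left (hb2 (l - 1) (l' - 1) (by omega) (by omega)) hD
    · intro l l' l'' hll hll' hl''
      have h0' : l' ≠ 0 := by omega
      have h0'' : l'' ≠ 0 := by omega
      by_cases h0 : l = 0
      · simp only [h0, h0', h0'', if_true, if_false]
        obtain ⟨h1, h2⟩ := hb1 (l' - 1) (by omega)
        obtain ⟨h3, h4⟩ := hb1 (l'' - 1) (by omega)
        refine ⟨by nlinarith, ?_⟩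
        have e1 : s + (2 * N + 1) * D - D * b (l' - 1) - D * b (l'' - 1) =
            s + (2 * N + 1 - b (l' - 1) - b (l'' - 1)) * D := by
          have h5 : b (l' - 1) + b (l'' - 1) ≤ 2 * N + 1 := by omega
          obtain ⟨q, hq⟩ := Nat.exists_eq_add_of_le h5
          have h6 : 2 * N + 1 - b (l' - 1) - b (l'' - 1) = q := by omega
          rw [h6, hq]
          have h7 : (b (l' - 1) + b (l'' - 1) + q) * D =
              D * b (l' - 1) + D * b (l'' - 1) + q * D := by ring
          rw [h7]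
          omega
        rw [e1, hmono _ (by omega), hmono _ le_rfl]
      · simp only [h0, h0', h0'', if_false]
        obtain ⟨h1, h2⟩ := hb3 (l - 1) (l' - 1) (l'' - 1) (by omega) (by omega) (by omega)
        refine ⟨by nlinarith, ?_⟩
        have e1 : D * b (l - 1) - D * b (l' - 1) - D * b (l'' - 1) =
            D * (b (l - 1) - b (l' - 1) - b (l'' - 1)) := by
          rw [Nat.mul_sub, Nat.mul_sub]
        rw [e1]
        exact h2

/-- casting down to a smaller power of two -/
lemma not_dvd_of_small (r e n : ℕ) (her : e ≤ r) (h0 : 0 < n % 2 ^ e) :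
    ¬ (2 : ZMod (2 ^ r)) ^ e ∣ (n : ZMod (2 ^ r)) := by
  rintro ⟨q, hq⟩
  have hdvd : 2 ^ e ∣ 2 ^ r := pow_dvd_pow 2 her
  have h1 := congrArg (ZMod.castHom hdvd (ZMod (2 ^ e))) hq
  rw [map_mul, map_pow, map_natCast] at h1
  have h2 : (ZMod.castHom hdvd (ZMod (2 ^ e))) (2 : ZMod (2 ^ r)) = 2 := map_ofNat _ 2
  rw [h2] at h1
  have h3 : ((2 : ZMod (2 ^ e)) ^ e) = 0 := by
    have := ZMod.natCast_self (2 ^ e)
    push_cast at this
    exact this
  rw [h3, zero_mul, ZMod.natCast_eq_zero_iff] at h1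
  have := Nat.mod_eq_zero_of_dvd h1
  omega

/-- The combinatorial core: every `K`-colouring of `ℤ/2^(2t)` has a monochromatic solution of
`x + (2^t - 1) y + 2^t z = 0` with `2^(t-1) ∤ x`, once `t` is large. -/
lemma core (K : ℕ) : ∃ t : ℕ, 2 ≤ t ∧ ∀ c : ZMod (2 ^ (2 * t)) → Fin K,
    ∃ x y z : ZMod (2 ^ (2 * t)), c x = c y ∧ c y = c z ∧
      x + (2 ^ t - 1) * y + 2 ^ t * z = 0 ∧ ¬ (2 : ZMod (2 ^ (2 * t))) ^ (t - 1) ∣ x := by
  classical
  set M := K * (K + 1) + 1 with hM
  obtain ⟨N, hN⟩ := levels (Fin K) M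
  refine ⟨N + 2, by omega, ?_⟩
  set t := N + 2 with ht
  have htN : N < 2 ^ (t - 1) := by
    have : N + 1 < 2 ^ (N + 1) := Nat.lt_two_pow_self
    have h2 : t - 1 = N + 1 := by omega
    rw [h2]; omega
  intro c
  -- the colour of a point of the fibre over `n`
  set f : ℕ → ℕ → Fin K := fun n w => c ((n + 2 ^ t * w : ℕ) : ZMod (2 ^ (2 * t))) with hf
  have hKpos : 0 < K := by
    have := (f 0 0).isLt; omega
  -- majority colours
  have hmaj : ∀ n : ℕ, ∃ C : Fin K, 2 ^ t ≤ ((Finset.range (2 ^ t)).filter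
      (fun w => f n w = C)).card * K := by
    intro n
    by_contra hcon
    push Not at hcon
    have h1 : (Finset.range (2 ^ t)).card = ∑ C : Fin K, ((Finset.range (2 ^ t)).filter
        (fun w => f n w = C)).card :=
      Finset.card_eq_sum_card_fiberwise (fun w _ => Finset.mem_coe.mpr (Finset.mem_univ _))
    rw [Finset.card_range] at h1
    have h2 : 2 ^ t * K = ∑ C : Fin K, ((Finset.range (2 ^ t)).filter
        (fun w => f n w = C)).card * K := by
      rw [← Finset.sum_mul, ← h1]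
    have h3 : ∑ C : Fin K, ((Finset.range (2 ^ t)).filter
        (fun w => f n w = C)).card * K < ∑ _C : Fin K, 2 ^ t := by
      apply Finset.sum_lt_sum_of_nonempty
      · exact ⟨⟨0, hKpos⟩, Finset.mem_univ _⟩
      · intro C _
        exact hcon C
    rw [Finset.sum_const, Finset.card_univ, Fintype.card_fin, smul_eq_mul] at h3
    rw [← h2, mul_comm] at h3
    exact lt_irrefl _ h3
  choose χ hχ using hmaj
  obtain ⟨a, ha1, ha2, ha3⟩ := hN χ
  -- many levels with the same colour
  obtain ⟨C, -, hC⟩ := Finset.exists_lt_card_fiber_of_mul_lt_card_of_maps_to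
    (s := Finset.range M) (t := (Finset.univ : Finset (Fin K))) (f := fun l => χ (a l))
    (n := K + 1) (fun l _ => Finset.mem_univ _)
    (by rw [Finset.card_univ, Fintype.card_fin, Finset.card_range]; omega)
  obtain ⟨S, hSsub, hScard⟩ := Finset.exists_subset_card_eq (Nat.succ_le_of_lt hC)
  have hSmem : ∀ l ∈ S, l < M ∧ χ (a l) = C := by
    intro l hl
    have := hSsub hl
    rw [Finset.mem_filter, Finset.mem_range] at this
    exact this
  set p := S.orderEmbOfFin hScard with hp
  have hpS : ∀ i, p i ∈ S := fun i => Finset.orderEmbOfFin_mem S hScard i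
  set u := a (p (Fin.last (K + 1))) with hu
  obtain ⟨hlast1, hlast2⟩ := hSmem _ (hpS (Fin.last (K + 1)))
  obtain ⟨hu1, huN⟩ := ha1 _ hlast1
  -- the dense set of the fibre over `u`
  set A := (Finset.range (2 ^ t)).filter (fun w => f u w = C) with hA
  have hAcard : 2 ^ t ≤ A.card * K := by
    have := hχ u
    rw [hu, hlast2] at this
    exact this
  have hApos : 0 < A.card := by
    rcases Nat.eq_zero_or_pos A.card with h | h
    · rw [h, zero_mul] at hAcard
      have : 0 < 2 ^ t := by positivity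
      omega
    · exact h
  -- pigeonhole on the translates `A + h_i`
  have hcardlt : (Finset.range (2 ^ t)).card <
      ((Finset.univ : Finset (Fin (K + 1))) ×ˢ A).card := by
    rw [Finset.card_range, Finset.card_product, Finset.card_univ, Fintype.card_fin]
    calc 2 ^ t ≤ A.card * K := hAcard
      _ < A.card * K + A.card := by omega
      _ = (K + 1) * A.card := by ring
  obtain ⟨⟨i, w⟩, hiw, ⟨j, w'⟩, hjw, hne, heq⟩ :=
    Finset.exists_ne_map_eq_of_card_lt_of_maps_to hcardlt
      (f := fun q : Fin (K + 1) × ℕ => (q.2 + a (p q.1.castSucc)) % 2 ^ t)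
      (fun q _ => by
        simp only [Finset.coe_range, Set.mem_Iio]
        exact Nat.mod_lt _ (by positivity))
  simp only [Finset.mem_product, Finset.mem_univ, true_and] at hiw hjw
  simp only at heq
  have hwr : w < 2 ^ t ∧ f u w = C := by
    rw [hA, Finset.mem_filter, Finset.mem_range] at hiw; exact hiw
  have hwr' : w' < 2 ^ t ∧ f u w' = C := by
    rw [hA, Finset.mem_filter, Finset.mem_range] at hjw; exact hjw
  have hij : i ≠ j := by
    intro hij
    subst hij
    apply hne
    have h1 : w ≡ w' [MOD 2 ^ t] := Nat.ModEq.add_right_cancel' _ heq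
    have h2 : w = w' := Nat.ModEq.eq_of_lt_of_lt h1 hwr.1 hwr'.1
    rw [h2]
  -- from a coincidence with `i < j` we get the solution
  have main : ∀ (i j : Fin (K + 1)) (w w' : ℕ), i < j → f u w = C → f u w' = C →
      (w + a (p i.castSucc)) % 2 ^ t = (w' + a (p j.castSucc)) % 2 ^ t →
      ∃ x y z : ZMod (2 ^ (2 * t)), c x = c y ∧ c y = c z ∧
      x + (2 ^ t - 1) * y + 2 ^ t * z = 0 ∧ ¬ (2 : ZMod (2 ^ (2 * t))) ^ (t - 1) ∣ x := by
    intro i j w w' hij hw hw' heq
    have hpij : p i.castSucc < p j.castSucc := p.strictMono (by simpa using hij)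
    have hpjl : p j.castSucc < p (Fin.last (K + 1)) := p.strictMono (Fin.castSucc_lt_last j)
    obtain ⟨hlt, hcol⟩ := ha3 _ _ _ hpij hpjl hlast1
    set v := a (p i.castSucc) - a (p j.castSucc) - a (p (Fin.last (K + 1))) with hv
    have hvC : χ v = C := by
      rw [hcol]
      exact (hSmem _ (hpS i.castSucc)).2
    -- a point of colour `C` in the fibre over `v`
    have hex : ∃ w'' : ℕ, f v w'' = C := by
      have h1 := hχ v
      rw [hvC] at h1
      have h2 : 0 < ((Finset.range (2 ^ t)).filter (fun w => f v w = C)).card := by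
        rcases Nat.eq_zero_or_pos
          ((Finset.range (2 ^ t)).filter (fun w => f v w = C)).card with h | h
        · rw [h, zero_mul] at h1
          have : 0 < 2 ^ t := by positivity
          omega
        · exact h
      obtain ⟨w'', hw''⟩ := Finset.card_pos.mp h2
      rw [Finset.mem_filter] at hw''
      exact ⟨w'', hw''.2⟩
    obtain ⟨w'', hw''⟩ := hex
    have hsum : a (p i.castSucc) = a (p j.castSucc) + (u + v) := by omega
    have hmod : w + (u + v) ≡ w' [MOD 2 ^ t] := by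
      have h1 : w + (u + v) + a (p j.castSucc) ≡ w' + a (p j.castSucc) [MOD 2 ^ t] := by
        have e : w + (u + v) + a (p j.castSucc) = w + a (p i.castSucc) := by omega
        rw [e]
        exact heq
      exact Nat.ModEq.add_right_cancel' _ h1
    -- the same congruence multiplied by `2 ^ t`
    have hmod2 : 2 ^ t * (w + (u + v)) ≡ 2 ^ t * w' [MOD 2 ^ (2 * t)] := by
      have := Nat.ModEq.mul_left' (2 ^ t) hmod
      rwa [← pow_add, ← two_mul] at this
    have hz : ((2 ^ t * (w + (u + v)) : ℕ) : ZMod (2 ^ (2 * t))) = ((2 ^ t * w' : ℕ) :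
        ZMod (2 ^ (2 * t))) := (ZMod.natCast_eq_natCast_iff _ _ _).mpr hmod2
    have hpow0 : (2 : ZMod (2 ^ (2 * t))) ^ t * 2 ^ t = 0 := by
      have := ZMod.natCast_self (2 ^ (2 * t))
      push_cast at this
      rw [← pow_add, ← two_mul]
      exact this
    refine ⟨((u + 2 ^ t * w : ℕ) : ZMod (2 ^ (2 * t))), ((u + 2 ^ t * w' : ℕ) :
      ZMod (2 ^ (2 * t))), ((v + 2 ^ t * w'' : ℕ) : ZMod (2 ^ (2 * t))), ?_, ?_, ?_, ?_⟩
    · exact hw.trans hw'.symm
    · exact hw'.trans hw''.symm
    · push_cast at hz ⊢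
      linear_combination hz + ((w' : ZMod (2 ^ (2 * t))) + (w'' : ZMod (2 ^ (2 * t)))) * hpow0
    · apply not_dvd_of_small _ _ _ (by omega)
      have e1 : 2 ^ t = 2 ^ (t - 1) * 2 := by
        rw [← pow_succ]; congr 1
      rw [e1, mul_assoc, Nat.add_mul_mod_self_left, Nat.mod_eq_of_lt (by omega)]
      exact hu1
  rcases lt_or_gt_of_ne hij with h | h
  · exact main i j w w' h hwr.2 hwr'.2 heq
  · exact main j i w' w h hwr'.2 hwr.2 heq.symm

/-- The negation of the preceding statement: For each k there is K such that, for all r and a_1..a_k in Z/2^r, with d ≤ r the largest exponent where 2^d divides some nonempty subset sum of the a_i, some K-colouring of Z/2^r makes every monochromatic solution of Σ a_i x_i = 0 have all x_i divisible by 2^(r−d). -/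
theorem result :
    ¬ (∀ k : ℕ, ∃ K : ℕ, ∀ r : ℕ, ∀ a : Fin k → ZMod (2 ^ r), ∀ d : ℕ, d ≤ r →
      (∃ I : Finset (Fin k), I.Nonempty ∧ (2 : ZMod (2 ^ r)) ^ d ∣ ∑ i ∈ I, a i) →
      (∀ d' : ℕ, d < d' → d' ≤ r → ∀ I : Finset (Fin k), I.Nonempty →
          ¬ (2 : ZMod (2 ^ r)) ^ d' ∣ ∑ i ∈ I, a i) →
      ∃ c : ZMod (2 ^ r) → Fin K, ∀ x : Fin k → ZMod (2 ^ r),
        (∀ i j, c (x i) = c (x j)) → ∑ i, a i * x i = 0 →
          ∀ i, (2 : ZMod (2 ^ r)) ^ (r - d) ∣ x i) := by
  intro h
  obtain ⟨K, hK⟩ := h 3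
  obtain ⟨t, ht, hcore⟩ := core K
  -- the coefficients as natural numbers
  have h2t : 4 ≤ 2 ^ t := by
    calc 4 = 2 ^ 2 := by norm_num
      _ ≤ 2 ^ t := Nat.pow_le_pow_right (by norm_num) ht
  set b : Fin 3 → ℕ := ![1, 2 ^ t - 1, 2 ^ t] with hb
  have hbpos : ∀ i, 0 < b i := by
    intro i
    fin_cases i
    · simp [b]
    · simp only [b]
      show 0 < 2 ^ t - 1
      omega
    · simp only [b]
      show 0 < 2 ^ t
      omega
  have hbsum : ∑ i, b i = 2 ^ (t + 1) := by
    rw [Fin.sum_univ_three]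
    show 1 + (2 ^ t - 1) + 2 ^ t = 2 ^ (t + 1)
    rw [pow_succ]; omega
  obtain ⟨c, hc⟩ := hK (2 * t) (fun i => (b i : ZMod (2 ^ (2 * t)))) (t + 1) (by omega)
    ⟨Finset.univ, Finset.univ_nonempty, by
      rw [← Nat.cast_sum, hbsum]
      push_cast
      exact dvd_refl _⟩
    (by
      intro d' hd' hd'r I hI hdvd
      rw [← Nat.cast_sum] at hdvd
      have h1 : (2 : ZMod (2 ^ (2 * t))) ^ (t + 2) ∣ ((∑ i ∈ I, b i : ℕ) : ZMod (2 ^ (2 * t))) :=
        dvd_trans (pow_dvd_pow 2 hd') hdvd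
      refine not_dvd_of_small (2 * t) (t + 2) (∑ i ∈ I, b i) (by omega) ?_ h1
      have h2 : 0 < ∑ i ∈ I, b i := Finset.sum_pos (fun i _ => hbpos i) hI
      have h3 : ∑ i ∈ I, b i ≤ 2 ^ (t + 1) := by
        rw [← hbsum]
        exact Finset.sum_le_sum_of_subset (Finset.subset_univ I)
      have h4 : 2 ^ (t + 1) < 2 ^ (t + 2) := Nat.pow_lt_pow_right (by norm_num) (by omega)
      rw [Nat.mod_eq_of_lt (by omega)]
      exact h2)
  obtain ⟨x, y, z, hxy, hyz, hsum, hnd⟩ := hcore c
  apply hnd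
  have := hc ![x, y, z] (by
    intro i j
    fin_cases i <;> fin_cases j <;> simp [hxy, hyz]) (by
    rw [Fin.sum_univ_three]
    show ((1 : ℕ) : ZMod (2 ^ (2 * t))) * x + ((2 ^ t - 1 : ℕ) : ZMod (2 ^ (2 * t))) * y +
      ((2 ^ t : ℕ) : ZMod (2 ^ (2 * t))) * z = 0
    rw [Nat.cast_sub (by omega)]
    push_cast
    rw [one_mul]
    exact hsum) 0
  have e : 2 * t - (t + 1) = t - 1 := by omega
  rw [e] at this
  exact this

end Pool.Agent.S04966
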