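import Pool.Statements.S04972
import Pool.Agent.Helper431.Moser3

set_option autoImplicit false
open Pool Pool.MP_20facf_co

namespace Pool.Agent.S04972

/-- The negation of the preceding statement: There is a constant C such that for every d ≥ 1, any set of points of {1,2,3}^d in ℝ^d with no three distinct points collinear has at most C·3^d/√d points. -/
theorem result :
    ¬ (∃ C : ℝ, ∀ d : ℕ, 1 ≤ d → ∀ S : Finset (Fin d → ℝ),
      (∀ x ∈ S, ∀ i, x i = 1 ∨ x i = 2 ∨ x i = 3) →
      (∀ p ∈ S, ∀ q ∈ S, ∀ r ∈ S, p ≠ q → p ≠ r → q ≠ r →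
        ¬ Collinear ℝ ({p, q, r} : Set (Fin d → ℝ))) →
      (S.card : ℝ) ≤ C * (3 : ℝ) ^ d / Real.sqrt (d : ℝ)) := by
  classical
  rintro ⟨C, hC⟩
  obtain ⟨N, hN⟩ := Pool.Agent.Helper431.Moser.lineFree (k := 3) le_rfl (|C| + 1)
    (by positivity)
  obtain ⟨d, hd, hNd⟩ : ∃ d : ℕ, 1 ≤ d ∧ N ≤ d := ⟨N + 1, by omega, by omega⟩
  obtain ⟨S, hS, hfree⟩ := hN d hNd
  set g : (Fin d → Fin 3) → (Fin d → ℝ) := fun x i => (((x i : ℕ)) : ℝ) + 1 with hg
  have hginj : Function.Injective g := by
    intro x y hxy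
    funext i
    have := congrFun hxy i
    simp only [hg, add_left_inj, Nat.cast_inj] at this
    exact Fin.ext this
  have hbound := hC d (by omega) (S.image g) ?_ ?_
  · rw [Finset.card_image_of_injective _ hginj] at hbound
    have hd0 : (0 : ℝ) < Real.sqrt (d : ℝ) := Real.sqrt_pos.2 (by
      have : 0 < d := by omega
      exact_mod_cast this)
    have h3 : (0 : ℝ) < (3 : ℝ) ^ d := by positivity
    have h4 : (|C| + 1) * ((3 : ℕ) : ℝ) ^ d / Real.sqrt (d : ℝ) ≤ C * (3 : ℝ) ^ d /
        Real.sqrt (d : ℝ) := hS.trans hbound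
    rw [div_le_div_iff_of_pos_right hd0] at h4
    push_cast at h4
    have h5 : |C| + 1 ≤ C := le_of_mul_le_mul_right h4 h3
    have := le_abs_self C
    linarith
  · intro x hx i
    obtain ⟨y, _, rfl⟩ := Finset.mem_image.1 hx
    simp only [hg]
    have h := (y i).2
    have h' : (y i : ℕ) = 0 ∨ (y i : ℕ) = 1 ∨ (y i : ℕ) = 2 := by omega
    rcases h' with h | h | h
    · left; rw [h]; norm_num
    · right; left; rw [h]; norm_num
    · right; right; rw [h]; norm_num
  · intro p hp q hq r hr hpq hpr hqr hcol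
    obtain ⟨x, hx, rfl⟩ := Finset.mem_image.1 hp
    obtain ⟨y, hy, rfl⟩ := Finset.mem_image.1 hq
    obtain ⟨z, hz, rfl⟩ := Finset.mem_image.1 hr
    have hxy : x ≠ y := fun h => hpq (by rw [h])
    have hxz : x ≠ z := fun h => hpr (by rw [h])
    have hyz : y ≠ z := fun h => hqr (by rw [h])
    refine hfree {x, y, z} ?_ ?_ ?_
    · intro t ht
      simp only [Finset.mem_insert, Finset.mem_singleton] at ht
      rcases ht with rfl | rfl | rfl
      · exact hx
      · exact hy
      · exact hz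
    · rw [Finset.card_eq_three]
      exact ⟨x, y, z, hxy, hxz, hyz, rfl⟩
    · rw [collinear_iff_exists_forall_eq_smul_vadd] at hcol ⊢
      obtain ⟨p0, v, hv⟩ := hcol
      refine ⟨p0 - 1, v, ?_⟩
      rintro w ⟨t, ht, rfl⟩
      have htm : g t ∈ ({g x, g y, g z} : Set (Fin d → ℝ)) := by
        simp only [Finset.coe_insert, Finset.coe_singleton, Set.mem_insert_iff,
          Set.mem_singleton_iff] at ht ⊢
        rcases ht with rfl | rfl | rfl
        · exact Or.inl rfl
        · exact Or.inr (Or.inl rfl)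
        · exact Or.inr (Or.inr rfl)
      obtain ⟨s, hs⟩ := hv _ htm
      refine ⟨s, ?_⟩
      funext i
      have := congrFun hs i
      simp only [hg, vadd_eq_add, Pi.add_apply, Pi.smul_apply, smul_eq_mul, Pi.sub_apply,
        Pi.one_apply] at this ⊢
      linarith

end Pool.Agent.S04972
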