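import Pool.Statements.S04983
import Pool.Agent.Helper717.Rounded

set_option autoImplicit false
open Pool Pool.MP_217bbd_co
open scoped InnerProductSpace

namespace Pool.Agent.S04983

open Finset Pool.Agent.Helper717.Core Pool.Agent.Helper717.BallTable Pool.Agent.Helper717.Core2
  Pool.Agent.Helper717.Tri Pool.Agent.Helper717.Planar Pool.Agent.Helper717.Rounded

/-- A support point is not interior. -/
lemma not_interior {E : Type*} [NormedAddCommGroup E] [InnerProductSpace ℝ E] (K : Set E) (p u : E)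
    (hu : ‖u‖ = 1) (hs : ∀ x ∈ K, inner ℝ x u ≤ inner ℝ p u) : p ∉ interior K := by
  intro hp
  rw [mem_interior_iff_mem_nhds, Metric.mem_nhds_iff] at hp
  obtain ⟨r, hr, hball⟩ := hp
  have h1 : p + (r / 2) • u ∈ K := by
    apply hball
    rw [Metric.mem_ball, dist_eq_norm, add_sub_cancel_left, norm_smul, hu, mul_one,
      Real.norm_eq_abs, abs_of_pos (by linarith)]
    linarith
  have h2 := hs _ h1
  rw [inner_add_left, inner_smul_left, real_inner_self_eq_norm_sq, hu] at h2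
  simp at h2
  linarith

/-- A compact set has a diameter pair. -/
lemma diam_attained {E : Type*} [NormedAddCommGroup E] (H : Set E) (hH : IsCompact H)
    (hne : H.Nonempty) : ∃ w1 ∈ H, ∃ w2 ∈ H, ∃ Δ : ℝ, Δ = ‖w2 - w1‖ ∧
      ∀ y ∈ H, ∀ y' ∈ H, ‖y - y'‖ ≤ Δ := by
  have hf : ContinuousOn (fun z : E × E => ‖z.2 - z.1‖) (H ×ˢ H) := by fun_prop
  obtain ⟨z, hz, hmax⟩ := (hH.prod hH).exists_isMaxOn (hne.prod hne) hf
  refine ⟨z.1, hz.1, z.2, hz.2, ‖z.2 - z.1‖, rfl, ?_⟩
  intro y hy y' hy'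
  have hm : (y', y) ∈ H ×ˢ H := Set.mk_mem_prod hy' hy
  exact hmax hm

/-- For every fat disk-polygon D and every 0<ε≤inradius, any closed billiard path in D(ε) with vertices on its boundary whose angle bisectors are normal to supporting lines, and of minimal length among all such paths, is 2-periodic. -/
theorem result :
  ∀ (C : Finset (EuclideanSpace ℝ (Fin 2))), C.Nonempty →
    (∀ c ∈ C, (⋂ c' ∈ C.erase c, Metric.closedBall c' (1:ℝ)) ≠ ⋂ c' ∈ C, Metric.closedBall c' (1:ℝ)) →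
    (∀ c ∈ C, ∀ c' ∈ C, dist c c' ≤ 1) →
    ∀ D : Set (EuclideanSpace ℝ (Fin 2)), D = (⋂ c' ∈ C, Metric.closedBall c' (1:ℝ)) →
    ∀ ε : ℝ, 0 < ε → (∃ x, Metric.closedBall x ε ⊆ D) →
    ∀ K : Set (EuclideanSpace ℝ (Fin 2)),
      K = {y | ∃ x, Metric.closedBall x ε ⊆ D ∧ y ∈ Metric.closedBall x ε} →
    ∀ (n : ℕ) (p : ℕ → EuclideanSpace ℝ (Fin 2)),
      (2 ≤ n ∧ (∀ i, p (i + n) = p i) ∧ (∀ i, p i ∈ frontier K) ∧ (∀ i, p i ≠ p (i + 1)) ∧
        ∀ i, ∃ v : EuclideanSpace ℝ (Fin 2), ‖v‖ = 1 ∧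
          (∀ x ∈ K, ⟪v, x - p (i + 1)⟫_ℝ ≤ 0) ∧
          ‖p (i + 2) - p (i + 1)‖⁻¹ • (p (i + 2) - p (i + 1)) =
            (2 * ⟪v, ‖p i - p (i + 1)‖⁻¹ • (p i - p (i + 1))⟫_ℝ) • v
              - ‖p i - p (i + 1)‖⁻¹ • (p i - p (i + 1))) →
      (∀ (m : ℕ) (q : ℕ → EuclideanSpace ℝ (Fin 2)),
        (2 ≤ m ∧ (∀ i, q (i + m) = q i) ∧ (∀ i, q i ∈ frontier K) ∧ (∀ i, q i ≠ q (i + 1)) ∧
          ∀ i, ∃ v : EuclideanSpace ℝ (Fin 2), ‖v‖ = 1 ∧
            (∀ x ∈ K, ⟪v, x - q (i + 1)⟫_ℝ ≤ 0) ∧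
            ‖q (i + 2) - q (i + 1)‖⁻¹ • (q (i + 2) - q (i + 1)) =
              (2 * ⟪v, ‖q i - q (i + 1)‖⁻¹ • (q i - q (i + 1))⟫_ℝ) • v
                - ‖q i - q (i + 1)‖⁻¹ • (q i - q (i + 1))) →
        (∑ i ∈ Finset.range n, dist (p i) (p (i + 1))) ≤ ∑ i ∈ Finset.range m, dist (q i) (q (i + 1))) →
      ∀ i, p (i + 2) = p i := by
  intro C hCne _ hC D hD ε hε hDne K hK n p hp hmin
  obtain ⟨hn2, hper, hfr, hne, hrefl⟩ := hp
  have hfin : Module.finrank ℝ (EuclideanSpace ℝ (Fin 2)) = 2 := by simp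
  -- a unit vector
  obtain ⟨w0, hw0⟩ : ∃ w : EuclideanSpace ℝ (Fin 2), ‖w‖ = 1 :=
    ⟨EuclideanSpace.single 0 1, by simp⟩
  have hmemD : ∀ x, x ∈ D ↔ ∀ c ∈ C, ‖x - c‖ ≤ 1 := by
    intro x; rw [hD]; simp [dist_eq_norm]
  -- balls inside D
  have hball : ∀ x, Metric.closedBall x ε ⊆ D ↔ x ∈ Din (C : Set (EuclideanSpace ℝ (Fin 2))) (1 - ε) := by
    intro x
    constructor
    · intro h c hc
      have hc' : c ∈ C := by simpa using hc
      by_cases hxc : x = c
      · have h1 : x + ε • w0 ∈ D := by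
          apply h
          rw [Metric.mem_closedBall, dist_eq_norm, add_sub_cancel_left, norm_smul, hw0, mul_one,
            Real.norm_eq_abs, abs_of_pos hε]
        have h2 := (hmemD _).1 h1 c hc'
        rw [hxc, add_sub_cancel_left, norm_smul, hw0, mul_one, Real.norm_eq_abs, abs_of_pos hε] at h2
        rw [hxc, sub_self, norm_zero]; linarith
      · have hpos : 0 < ‖x - c‖ := norm_pos_iff.2 (sub_ne_zero.2 hxc)
        set v := ‖x - c‖⁻¹ • (x - c) with hv
        have hv1 : ‖v‖ = 1 := by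
          rw [hv, norm_smul, norm_inv, norm_norm, inv_mul_cancel₀ hpos.ne']
        have hvz : x - c = ‖x - c‖ • v := by
          rw [hv, smul_smul, mul_inv_cancel₀ hpos.ne', one_smul]
        have h1 : x + ε • v ∈ D := by
          apply h
          rw [Metric.mem_closedBall, dist_eq_norm, add_sub_cancel_left, norm_smul, hv1, mul_one,
            Real.norm_eq_abs, abs_of_pos hε]
        have h2 := (hmemD _).1 h1 c hc'
        have e1 : x + ε • v - c = (‖x - c‖ + ε) • v := by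
          rw [add_smul, ← hvz]; abel
        rw [e1, norm_smul, hv1, mul_one, Real.norm_eq_abs, abs_of_nonneg (by linarith)] at h2
        linarith
    · intro h y hy
      rw [hmemD]
      intro c hc
      rw [Metric.mem_closedBall, dist_eq_norm] at hy
      have h1 := h c (by simpa using hc)
      have e1 : y - c = (y - x) + (x - c) := by abel
      rw [e1]
      exact (norm_add_le _ _).trans (by linarith)
  set ρ : ℝ := 1 - ε with hρdef
  have hKr : K = Kr (C : Set (EuclideanSpace ℝ (Fin 2))) ρ ε := by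
    rw [hK]
    ext y
    simp only [Kr, Set.mem_ofPred_eq, hball, Metric.mem_closedBall, dist_eq_norm]
  have hDin : (Din (C : Set (EuclideanSpace ℝ (Fin 2))) ρ).Nonempty := by
    obtain ⟨x, hx⟩ := hDne
    exact ⟨x, (hball x).1 hx⟩
  have hSne : (C : Set (EuclideanSpace ℝ (Fin 2))).Nonempty := by simpa using hCne
  have hρ0 : 0 ≤ ρ := by
    obtain ⟨x, hx⟩ := hDin
    obtain ⟨c, hc⟩ := hSne
    exact (norm_nonneg _).trans (hx c hc)
  have h1 : ρ + ε = 1 := by rw [hρdef]; ring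
  -- the diameter of the dual set
  have hHc := Hd_compact (S := (C : Set (EuclideanSpace ℝ (Fin 2)))) (ρ := ρ) hDin
  have hHne : (Hd (C : Set (EuclideanSpace ℝ (Fin 2))) ρ).Nonempty := by
    obtain ⟨c, hc⟩ := hSne
    exact ⟨c, sub_Hd hc⟩
  obtain ⟨w1, hw1, w2, hw2, Δ, hΔdef, hdiam⟩ := diam_attained _ hHc hHne
  have hΔ0 : 0 ≤ Δ := by rw [hΔdef]; exact norm_nonneg _
  obtain ⟨x0, hx0⟩ := centre (ρ := ρ) hfin C (by
    intro c hc c' hc'
    have := hC c hc c' hc'
    rwa [dist_eq_norm] at this) hDin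
  have hΔ2 : Δ ≤ 2 / Real.sqrt 3 := by
    have e1 : w2 - w1 = (w2 - x0) - (w1 - x0) := by abel
    rw [hΔdef, e1]
    refine (norm_sub_le _ _).trans ?_
    have a1 := hx0 w1 hw1
    have a2 := hx0 w2 hw2
    have : 2 / Real.sqrt 3 = 1 / Real.sqrt 3 + 1 / Real.sqrt 3 := by ring
    linarith
  have hT : Table K Δ := by
    rw [hKr]
    exact table_Kr hSne hDin hρ0 hε h1 Δ hdiam
  have hcen : ∀ p ∈ K, ∀ u : EuclideanSpace ℝ (Fin 2), ‖u‖ = 1 →
      (∀ x ∈ K, inner ℝ x u ≤ inner ℝ p u) → ‖(p - u) - x0‖ ≤ 1 / Real.sqrt 3 := by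
    intro p hp u hu hs
    rw [hKr] at hp hs
    exact hx0 _ (supp_Hd hSne hρ0 hε h1 p hp u hu hs)
  have hKclosed : IsClosed K := by
    rw [hKr]; exact (Kr_compact hSne).isClosed
  have hΔlt2 : Δ < 2 := by
    refine lt_of_le_of_lt hΔ2 ?_
    rw [div_lt_iff₀ (by positivity)]
    have : (1 : ℝ) < Real.sqrt 3 := by
      rw [Real.lt_sqrt] <;> norm_num
    linarith
  -- the double normal
  obtain ⟨u, hu, hwu⟩ : ∃ u : EuclideanSpace ℝ (Fin 2), ‖u‖ = 1 ∧ w2 - w1 = Δ • u := by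
    by_cases h0 : Δ = 0
    · refine ⟨w0, hw0, ?_⟩
      rw [h0, zero_smul]
      exact norm_eq_zero.1 (hΔdef.symm.trans h0)
    · refine ⟨Δ⁻¹ • (w2 - w1), ?_, ?_⟩
      · rw [norm_smul, norm_inv, Real.norm_eq_abs, abs_of_nonneg hΔ0, ← hΔdef]
        exact inv_mul_cancel₀ h0
      · rw [smul_smul, mul_inv_cancel₀ h0, one_smul]
  have hend : ∀ a ∈ Hd (C : Set (EuclideanSpace ℝ (Fin 2))) ρ,
      ∀ b ∈ Hd (C : Set (EuclideanSpace ℝ (Fin 2))) ρ, ∀ w : EuclideanSpace ℝ (Fin 2),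
      ‖w‖ = 1 → b - a = Δ • w →
      a + w ∈ K ∧ ∀ x ∈ K, inner ℝ x w ≤ inner ℝ (a + w) w := by
    intro a ha b hb w hw hab
    have hww : inner ℝ w w = (1 : ℝ) := by rw [real_inner_self_eq_norm_sq, hw]; norm_num
    obtain ⟨p0, hp0, hs0⟩ := hT.sup w
    have hp0' := hp0
    have hs0' := hs0
    rw [hKr] at hp0' hs0'
    have hc0 := supp_Hd hSne hρ0 hε h1 p0 hp0' w hw hs0'
    -- K is inside the unit ball around a
    have hKa : ∀ x ∈ K, inner ℝ (x - a) w ≤ 1 := by
      intro x hx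
      rw [hKr] at hx
      obtain ⟨x', hx', hxx⟩ := hx
      have h2 := ha x' hx'
      have h3 : ‖x - a‖ ≤ 1 := by
        have e1 : x - a = (x - x') + (x' - a) := by abel
        rw [e1]; exact (norm_add_le _ _).trans (by linarith)
      have h4 := real_inner_le_norm (x - a) w
      rw [hw, mul_one] at h4
      exact h4.trans h3
    have h5 : inner ℝ ((p0 - w) - a) w ≤ 0 := by
      have := hKa p0 hp0
      have e1 : (p0 - w) - a = (p0 - a) - w := by abel
      rw [e1, inner_sub_left, hww]; linarith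
    have h6 : ‖b - (p0 - w)‖ ≤ Δ := hdiam b hb _ hc0
    have h7 : Δ ≤ inner ℝ (b - (p0 - w)) w := by
      have e1 : b - (p0 - w) = (b - a) - ((p0 - w) - a) := by abel
      rw [e1, inner_sub_left, hab, inner_smul_left, hww]
      simp only [conj_trivial]; linarith
    have h8 : ‖(b - (p0 - w)) - Δ • w‖ ^ 2 ≤ 0 := by
      rw [norm_sub_sq_real, norm_smul, hw, inner_smul_right, Real.norm_eq_abs, abs_of_nonneg hΔ0]
      have : ‖b - (p0 - w)‖ ^ 2 ≤ Δ ^ 2 := pow_le_pow_left₀ (norm_nonneg _) h6 2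
      nlinarith
    have h9 : (b - (p0 - w)) - Δ • w = 0 := by
      have : ‖(b - (p0 - w)) - Δ • w‖ ^ 2 = 0 := le_antisymm h8 (sq_nonneg _)
      exact norm_eq_zero.1 (pow_eq_zero_iff (two_ne_zero) |>.1 this)
    have h10 : a + w = p0 := by
      rw [← hab] at h9
      have : a + w - p0 = (b - (p0 - w)) - (b - a) := by abel
      rw [h9] at this
      exact sub_eq_zero.1 this
    rw [h10]
    exact ⟨hp0, hs0⟩
  obtain ⟨hx1, hsup1⟩ := hend w1 hw1 w2 hw2 u hu hwu
  obtain ⟨hx2, hsup2⟩ := hend w2 hw2 w1 hw1 (-u) (by rw [norm_neg]; exact hu) (by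
    rw [smul_neg, ← hwu]; abel)
  have hdist : (w1 + u) - (w2 + -u) = (2 - Δ) • u := by
    have : w1 + u - (w2 + -u) = (2 : ℝ) • u - (w2 - w1) := by rw [two_smul]; abel
    rw [this, hwu, sub_smul]
  have hpos2 : 0 < 2 - Δ := by linarith
  have hnd : ‖(w1 + u) - (w2 + -u)‖ = 2 - Δ := by
    rw [hdist, norm_smul, hu, mul_one, Real.norm_eq_abs, abs_of_pos hpos2]
  have hnd' : ‖(w2 + -u) - (w1 + u)‖ = 2 - Δ := by rw [norm_sub_rev]; exact hnd
  have hu1 : (2 - Δ)⁻¹ • ((w1 + u) - (w2 + -u)) = u := by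
    rw [hdist, smul_smul, inv_mul_cancel₀ hpos2.ne', one_smul]
  have hu2 : (2 - Δ)⁻¹ • ((w2 + -u) - (w1 + u)) = -u := by
    rw [← neg_sub (w1 + u) (w2 + -u), smul_neg, hu1]
  have hfr1 : w1 + u ∈ frontier K := by
    rw [hKclosed.frontier_eq]
    exact ⟨hx1, not_interior K _ u hu hsup1⟩
  have hfr2 : w2 + -u ∈ frontier K := by
    rw [hKclosed.frontier_eq]
    exact ⟨hx2, not_interior K _ (-u) (by rw [norm_neg]; exact hu) hsup2⟩
  have huu : inner ℝ u u = (1 : ℝ) := by rw [real_inner_self_eq_norm_sq, hu]; norm_num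
  have hq01 : w1 + u ≠ w2 + -u := by
    intro h
    rw [h, sub_self, norm_zero] at hnd
    linarith
  -- comparison
  have hle : ∑ i ∈ Finset.range n, dist (p i) (p (i + 1)) ≤ 4 - 2 * Δ := by
    set q : ℕ → EuclideanSpace ℝ (Fin 2) := fun i => if i % 2 = 0 then w1 + u else w2 + -u with hq
    have hqe : ∀ i, i % 2 = 0 → q i = w1 + u := by
      intro i hi; simp only [hq, hi, if_true]
    have hqo : ∀ i, i % 2 = 1 → q i = w2 + -u := by
      intro i hi; simp only [hq, hi]; simp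
    have h2 := hmin 2 q ⟨le_refl 2, by
      intro i
      simp only [hq]
      rw [Nat.add_mod_right], by
      intro i
      rcases Nat.mod_two_eq_zero_or_one i with h | h
      · rw [hqe i h]; exact hfr1
      · rw [hqo i h]; exact hfr2, by
      intro i
      rcases Nat.mod_two_eq_zero_or_one i with h | h
      · rw [hqe i h, hqo (i + 1) (by omega)]; exact hq01
      · rw [hqo i h, hqe (i + 1) (by omega)]; exact hq01.symm, by
      intro i
      rcases Nat.mod_two_eq_zero_or_one i with h | h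
      · rw [hqe i h, hqo (i + 1) (by omega), hqe (i + 2) (by omega)]
        refine ⟨-u, by rw [norm_neg]; exact hu, ?_, ?_⟩
        · intro x hx
          have := hsup2 x hx
          rw [inner_sub_right, real_inner_comm x (-u), real_inner_comm (w2 + -u) (-u)]
          linarith
        · rw [hnd, hu1, inner_neg_left, huu]
          module
      · rw [hqo i h, hqe (i + 1) (by omega), hqo (i + 2) (by omega)]
        refine ⟨u, hu, ?_, ?_⟩
        · intro x hx
          have := hsup1 x hx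
          rw [inner_sub_right, real_inner_comm x u, real_inner_comm (w1 + u) u]
          linarith
        · rw [hnd', hu2, inner_neg_right, huu]
          module⟩
    have h3 : ∑ i ∈ range 2, dist (q i) (q (i + 1)) = 4 - 2 * Δ := by
      have a0 : q 0 = w1 + u := hqe 0 (by norm_num)
      have a1 : q 1 = w2 + -u := hqo 1 (by norm_num)
      have a2 : q 2 = w1 + u := hqe 2 (by norm_num)
      have : ∑ i ∈ range 2, dist (q i) (q (i + 1)) = dist (q 0) (q 1) + dist (q 1) (q 2) := by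
        rw [Finset.sum_range_succ, Finset.sum_range_one]
      have d1 : dist (w1 + u) (w2 + -u) = 2 - Δ := by rw [dist_eq_norm]; exact hnd
      have d2 : dist (w2 + -u) (w1 + u) = 2 - Δ := by rw [dist_eq_norm]; exact hnd'
      have e01 : dist (q 0) (q 1) = 2 - Δ := by rw [a0, a1]; exact d1
      have e12 : dist (q 1) (q 2) = 2 - Δ := by rw [a1, a2]; exact d2
      linarith
    rw [h3] at h2
    exact h2
  by_cases hn : n = 2
  · intro i
    rw [← hper i, hn]
  exfalso
  have hn3 : 3 ≤ n := by omega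
  set e : ℕ → EuclideanSpace ℝ (Fin 2) := fun i => ‖p (i + 1) - p i‖⁻¹ • (p (i + 1) - p i) with he
  have hmemK : ∀ i, p i ∈ K := fun i => hKclosed.frontier_subset (hfr i)
  have hkey : ∀ i, ∃ v : EuclideanSpace ℝ (Fin 2), ‖v‖ = 1 ∧
      (∀ x ∈ K, inner ℝ x v ≤ inner ℝ (p (i + 1)) v) ∧ 0 < inner ℝ v (e i) ∧
      e i - e (i + 1) = (2 * inner ℝ v (e i)) • v := by
    intro i
    obtain ⟨v, hv, hsup, hlaw⟩ := hrefl i
    have hpos : 0 < ‖p (i + 1) - p i‖ := norm_pos_iff.2 (sub_ne_zero.2 (hne i).symm)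
    have hneg : ‖p i - p (i + 1)‖⁻¹ • (p i - p (i + 1)) = - e i := by
      simp only [he]
      rw [norm_sub_rev, ← neg_sub (p (i + 1)) (p i), smul_neg]
    have hsup' : ∀ x ∈ K, inner ℝ x v ≤ inner ℝ (p (i + 1)) v := by
      intro x hx
      have := hsup x hx
      rw [inner_sub_right, real_inner_comm x v, real_inner_comm (p (i + 1)) v] at this
      linarith
    refine ⟨v, hv, hsup', ?_, ?_⟩
    · have h2 := hT.ball (p (i + 1)) (hmemK _) v hv hsup' (p i) (hmemK i)
      have h3 : 0 < ‖p i - p (i + 1)‖ ^ 2 := by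
        rw [norm_sub_rev]; positivity
      have h4 : inner ℝ (p (i + 1) - p i) v = ‖p (i + 1) - p i‖ * inner ℝ v (e i) := by
        simp only [he]
        rw [inner_smul_right, real_inner_comm, ← mul_assoc, mul_inv_cancel₀ hpos.ne', one_mul]
      rw [h4] at h2
      by_contra hcon
      have hcon := not_lt.1 hcon
      have : ‖p (i + 1) - p i‖ * inner ℝ v (e i) ≤ 0 := mul_nonpos_of_nonneg_of_nonpos hpos.le hcon
      linarith
    · rw [hneg] at hlaw
      have h5 : e (i + 1) = (2 * inner ℝ v (-e i)) • v - -e i := hlaw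
      rw [h5, inner_neg_right]
      module
  have htraj : Traj K n p e := by
    refine ⟨hn3, hper, hmemK, hne, fun i => rfl, ?_, ?_⟩
    · intro i h
      obtain ⟨v, hv, _, hpos, heq⟩ := hkey i
      rw [h] at heq
      have h2 := congrArg norm heq
      rw [norm_zero, norm_smul, hv, mul_one, Real.norm_eq_abs, abs_of_pos (by linarith)] at h2
      linarith
    · intro i x hx
      obtain ⟨v, hv, hs, hpos, heq⟩ := hkey i
      rw [heq]
      have a := mul_le_mul_of_nonneg_left (hs x hx) (show 0 ≤ 2 * inner ℝ v (e i) by linarith)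
      have b1 := inner_smul_right (𝕜 := ℝ) x v (2 * inner ℝ v (e i))
      have b2 := inner_smul_right (𝕜 := ℝ) (p (i + 1)) v (2 * inner ℝ v (e i))
      linarith
  have hlt := planar hfin Δ hΔ0 hΔ2 hT x0 hcen htraj
  have hsum : ∑ i ∈ range n, ‖p (i + 1) - p i‖ = ∑ i ∈ range n, dist (p i) (p (i + 1)) := by
    refine sum_congr rfl fun i _ => ?_
    rw [dist_comm, dist_eq_norm]
  rw [hsum] at hlt
  linarith

end Pool.Agent.S04983
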