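-- Proof of frozen statement S04991.
import Pool.Statements.S04991

set_option autoImplicit false
open Pool Pool.MP_229fa6_co

namespace Pool.Agent.S04991

/-- Position form of the one-point-deleted order isomorphism: the deleted point sits at position `z`
in the first order and at position `w` in the second one, and `i ↦ i'`. -/
def E (z w i i' : ℕ) : Prop :=
  i ≠ z ∧ i' ≠ w ∧ (if z < i then i - 1 else i) = (if w < i' then i' - 1 else i')

theorem E_stay_lo {z w i : ℕ} (h1 : z < i) (h2 : w < i) : E z w i i := by
  unfold E; refine ⟨by omega, by omega, ?_⟩; simp [h1, h2]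

theorem E_stay_hi {z w i : ℕ} (h1 : i < z) (h2 : i < w) : E z w i i := by
  unfold E; refine ⟨by omega, by omega, ?_⟩
  rw [if_neg (by omega), if_neg (by omega)]

/-- moves `i+1` down to `i` -/
theorem E_down {z w i : ℕ} (h1 : z ≤ i) (h2 : i < w) : E z w (i+1) i := by
  unfold E; refine ⟨by omega, by omega, ?_⟩
  rw [if_pos (by omega), if_neg (by omega)]; omega

/-- moves `i` up to `i+1` -/
theorem E_up {z w i : ℕ} (h1 : i < z) (h2 : w ≤ i) : E z w i (i+1) := by
  unfold E; refine ⟨by omega, by omega, ?_⟩
  rw [if_neg (by omega), if_pos (by omega)]; omega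

/-- pigeonhole: among five consecutive positions of the first order, one is sent to a place
avoiding four given values -/
theorem avoid {n : ℕ} (σ τ : Equiv.Perm (Fin n)) (s c1 c2 c3 c4 : ℕ) (hs : s + 5 ≤ n) :
    ∃ e : Fin n, s ≤ (σ e : ℕ) ∧ (σ e : ℕ) < s + 5 ∧
      (τ e : ℕ) ≠ c1 ∧ (τ e : ℕ) ≠ c2 ∧ (τ e : ℕ) ≠ c3 ∧ (τ e : ℕ) ≠ c4 := by
  by_contra hcon
  push Not at hcon
  let g : Fin 5 → ℕ := fun k => (τ (σ.symm ⟨s + k.val, by omega⟩) : ℕ)
  have hg : Function.Injective g := by
    intro k l hkl
    have h1 : τ (σ.symm ⟨s + k.val, by omega⟩) = τ (σ.symm ⟨s + l.val, by omega⟩) := Fin.ext hkl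
    have h2 := σ.symm.injective (τ.injective h1)
    have h3 := congrArg Fin.val h2
    simp only at h3
    exact Fin.ext (by omega)
  have hm : ∀ k : Fin 5, g k ∈ ({c1, c2, c3, c4} : Finset ℕ) := by
    intro k
    have h := hcon (σ.symm ⟨s + k.val, by omega⟩)
    simp only [Equiv.apply_symm_apply] at h
    have h' := h (by omega) (by omega)
    simp only [Finset.mem_insert, Finset.mem_singleton]
    by_contra hno
    push Not at hno
    exact hno.2.2.2 (h' hno.1 hno.2.1 hno.2.2.1)
  have hcard : (Finset.univ : Finset (Fin 5)).card ≤ ({c1, c2, c3, c4} : Finset ℕ).card :=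
    Finset.card_le_card_of_injOn g (fun k _ => hm k) (fun k _ l _ h => hg h)
  have h4 : ({c1, c2, c3, c4} : Finset ℕ).card ≤ 4 := Finset.card_le_four
  simp at hcard
  omega

section core

variable {n : ℕ} (σ τ : Equiv.Perm (Fin n)) (SL SR : ℕ → ℕ → Prop)

/-- middle block large -/
theorem coreM
    (hstep : ∀ e : Fin n, ∀ i i' j j' : ℕ, i < n → i' < n → j < n → j' < n →
      E (σ e) (τ e) i i' → E (σ e) (τ e) j j' → (SL i j ↔ SR i' j')) :
    ∀ m a b : ℕ, n + a - b ≤ m → a + 6 ≤ b → b < n → (SL a b ↔ SR a b) := by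
  intro m
  induction m with
  | zero => intro a b h1 h2 h3; omega
  | succ m ih =>
    intro a b h1 h2 h3
    by_cases hdir : ∃ e : Fin n, ((σ e : ℕ) < a ∧ (τ e : ℕ) < a) ∨
        (a < (σ e : ℕ) ∧ (σ e : ℕ) < b ∧ a < (τ e : ℕ) ∧ (τ e : ℕ) < b) ∨
        (b < (σ e : ℕ) ∧ b < (τ e : ℕ))
    · obtain ⟨e, h | h | h⟩ := hdir
      · exact hstep e a a b b (by omega) (by omega) h3 h3 (E_stay_lo h.1 h.2)
          (E_stay_lo (by omega) (by omega))
      · exact hstep e a a b b (by omega) (by omega) h3 h3 (E_stay_hi (by omega) (by omega))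
          (E_stay_lo (by omega) (by omega))
      · exact hstep e a a b b (by omega) (by omega) h3 h3 (E_stay_hi (by omega) (by omega))
          (E_stay_hi (by omega) (by omega))
    · push Not at hdir
      -- outgoing
      obtain ⟨e2, hs2, hs2', h21, h22, h23, h24⟩ := avoid σ τ (a+1) (a-1) a b (b+1) (by omega)
      obtain ⟨e1, hs1, hs1', h11, h12, h13, h14⟩ := avoid τ σ (a+1) (a-1) a b (b+1) (by omega)
      have hd2 := (hdir e2).2.1
      have hd1 := (hdir e1).2.1
      have hz1 := (σ e1).isLt
      have hw1 := (τ e1).isLt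
      have hz2 := (σ e2).isLt
      have hw2 := (τ e2).isLt
      have out : (τ e2 : ℕ) + 1 < a ∨ b + 1 < (τ e2 : ℕ) := by
        by_contra hc
        have := hd2 (by omega) (by omega)
        omega
      have inn : (σ e1 : ℕ) + 1 < a ∨ b + 1 < (σ e1 : ℕ) := by
        by_contra hc
        rcases lt_or_ge a (σ e1 : ℕ) with h | h
        · rcases lt_or_ge (σ e1 : ℕ) b with h' | h'
          · have := hd1 h h' (by omega); omega
          · omega
        · omega
      rcases inn with hi | hi <;> rcases out with ho | ho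
      · -- LM and ML : P' = (a-2, b)
        obtain ⟨c, rfl⟩ : ∃ c, a = c + 2 := ⟨a - 2, by omega⟩
        have s1 := hstep e1 (c+2) (c+1) b b (by omega) (by omega) h3 h3
          (E_down (by omega) (by omega)) (E_stay_lo (by omega) (by omega))
        have s2 := hstep e2 c (c+1) b b (by omega) (by omega) h3 h3
          (E_up (by omega) (by omega)) (E_stay_lo (by omega) (by omega))
        have s3 := hstep e2 (c+1) (c+2) b b (by omega) (by omega) h3 h3
          (E_up (by omega) (by omega)) (E_stay_lo (by omega) (by omega))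
        have s4 := hstep e1 (c+1) c b b (by omega) (by omega) h3 h3
          (E_down (by omega) (by omega)) (E_stay_lo (by omega) (by omega))
        have := ih c b (by omega) (by omega) h3
        rw [s1, ← s2, this, ← s4, s3]
      · -- in from L, out to R : P' = (a-1, b+1)
        obtain ⟨c, rfl⟩ : ∃ c, a = c + 1 := ⟨a - 1, by omega⟩
        have s1 := hstep e1 (c+1) c b b (by omega) (by omega) h3 h3
          (E_down (by omega) (by omega)) (E_stay_lo (by omega) (by omega))
        have s2 := hstep e2 c c (b+1) b (by omega) (by omega) (by omega) h3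
          (E_stay_hi (by omega) (by omega)) (E_down (by omega) (by omega))
        have s3 := hstep e2 (c+1) (c+1) (b+1) b (by omega) (by omega) (by omega) h3
          (E_stay_hi (by omega) (by omega)) (E_down (by omega) (by omega))
        have s4 := hstep e1 (c+1) c (b+1) (b+1) (by omega) (by omega) (by omega) (by omega)
          (E_down (by omega) (by omega)) (E_stay_lo (by omega) (by omega))
        have := ih c (b+1) (by omega) (by omega) (by omega)
        rw [s1, ← s2, this, ← s4, s3]
      · -- in from R, out to L : P' = (a-1, b+1)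
        obtain ⟨c, rfl⟩ : ∃ c, a = c + 1 := ⟨a - 1, by omega⟩
        have s1 := hstep e1 (c+1) (c+1) b (b+1) (by omega) (by omega) h3 (by omega)
          (E_stay_hi (by omega) (by omega)) (E_up (by omega) (by omega))
        have s2 := hstep e2 c (c+1) (b+1) (b+1) (by omega) (by omega) (by omega) (by omega)
          (E_up (by omega) (by omega)) (E_stay_lo (by omega) (by omega))
        have s3 := hstep e2 c (c+1) b b (by omega) (by omega) h3 h3
          (E_up (by omega) (by omega)) (E_stay_lo (by omega) (by omega))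
        have s4 := hstep e1 c c b (b+1) (by omega) (by omega) (by omega) (by omega)
          (E_stay_hi (by omega) (by omega)) (E_up (by omega) (by omega))
        have := ih c (b+1) (by omega) (by omega) (by omega)
        rw [s1, ← s2, this, ← s4, s3]
      · -- R M and M R : P' = (a, b+2)
        have s1 := hstep e1 a a b (b+1) (by omega) (by omega) h3 (by omega)
          (E_stay_hi (by omega) (by omega)) (E_up (by omega) (by omega))
        have s2 := hstep e2 a a (b+2) (b+1) (by omega) (by omega) (by omega) (by omega)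
          (E_stay_hi (by omega) (by omega)) (E_down (by omega) (by omega))
        have s3 := hstep e2 a a (b+1) b (by omega) (by omega) (by omega) h3
          (E_stay_hi (by omega) (by omega)) (E_down (by omega) (by omega))
        have s4 := hstep e1 a a (b+1) (b+2) (by omega) (by omega) (by omega) (by omega)
          (E_stay_hi (by omega) (by omega)) (E_up (by omega) (by omega))
        have := ih a (b+2) (by omega) (by omega) (by omega)
        rw [s1, ← s2, this, ← s4, s3]

/-- lower block large -/
theorem coreL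
    (hstep : ∀ e : Fin n, ∀ i i' j j' : ℕ, i < n → i' < n → j < n → j' < n →
      E (σ e) (τ e) i i' → E (σ e) (τ e) j j' → (SL i j ↔ SR i' j')) :
    ∀ m a b : ℕ, n - a ≤ m → 5 ≤ a → a < b → b < n → (SL a b ↔ SR a b) := by
  intro m
  induction m with
  | zero => intro a b h1 h2 h2' h3; omega
  | succ m ih =>
    intro a b h1 h2 h2' h3
    by_cases hdir : ∃ e : Fin n, ((σ e : ℕ) < a ∧ (τ e : ℕ) < a) ∨
        (a < (σ e : ℕ) ∧ (σ e : ℕ) < b ∧ a < (τ e : ℕ) ∧ (τ e : ℕ) < b) ∨
        (b < (σ e : ℕ) ∧ b < (τ e : ℕ))
    · obtain ⟨e, h | h | h⟩ := hdir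
      · exact hstep e a a b b (by omega) (by omega) h3 h3 (E_stay_lo h.1 h.2)
          (E_stay_lo (by omega) (by omega))
      · exact hstep e a a b b (by omega) (by omega) h3 h3 (E_stay_hi (by omega) (by omega))
          (E_stay_lo (by omega) (by omega))
      · exact hstep e a a b b (by omega) (by omega) h3 h3 (E_stay_hi (by omega) (by omega))
          (E_stay_hi (by omega) (by omega))
    · push Not at hdir
      obtain ⟨e2, hs2, hs2', h21, h22, h23, h24⟩ := avoid σ τ 0 a (a+1) b (b+1) (by omega)
      obtain ⟨e1, hs1, hs1', h11, h12, h13, h14⟩ := avoid τ σ 0 a (a+1) b (b+1) (by omega)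
      have hd2 := (hdir e2).1 (by omega)
      have hz1 := (σ e1).isLt
      have hw1 := (τ e1).isLt
      have hz2 := (σ e2).isLt
      have hw2 := (τ e2).isLt
      have hd1 : a ≤ (σ e1 : ℕ) := by
        by_contra hc
        have := (hdir e1).1 (by omega)
        omega
      have out : (a + 2 ≤ (τ e2 : ℕ) ∧ (τ e2 : ℕ) < b) ∨ b + 2 ≤ (τ e2 : ℕ) := by omega
      have inn : (a + 2 ≤ (σ e1 : ℕ) ∧ (σ e1 : ℕ) < b) ∨ b + 2 ≤ (σ e1 : ℕ) := by omega
      rcases inn with hi | hi <;> rcases out with ho | ho
      · -- ML, LM : P' = (a+2, b)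
        have s1 := hstep e1 a (a+1) b b (by omega) (by omega) h3 h3
          (E_up (by omega) (by omega)) (E_stay_lo (by omega) (by omega))
        have s2 := hstep e2 (a+2) (a+1) b b (by omega) (by omega) h3 h3
          (E_down (by omega) (by omega)) (E_stay_lo (by omega) (by omega))
        have s3 := hstep e2 (a+1) a b b (by omega) (by omega) h3 h3
          (E_down (by omega) (by omega)) (E_stay_lo (by omega) (by omega))
        have s4 := hstep e1 (a+1) (a+2) b b (by omega) (by omega) h3 h3
          (E_up (by omega) (by omega)) (E_stay_lo (by omega) (by omega))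
        have := ih (a+2) b (by omega) (by omega) (by omega) h3
        rw [s1, ← s2, this, ← s4, s3]
      · -- in ML, out LR : P' = (a+2, b+1)
        have s1 := hstep e1 a (a+1) b b (by omega) (by omega) h3 h3
          (E_up (by omega) (by omega)) (E_stay_lo (by omega) (by omega))
        have s2 := hstep e2 (a+2) (a+1) (b+1) b (by omega) (by omega) (by omega) h3
          (E_down (by omega) (by omega)) (E_down (by omega) (by omega))
        have s3 := hstep e2 (a+1) a (b+1) b (by omega) (by omega) (by omega) h3
          (E_down (by omega) (by omega)) (E_down (by omega) (by omega))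
        have s4 := hstep e1 (a+1) (a+2) (b+1) (b+1) (by omega) (by omega) (by omega) (by omega)
          (E_up (by omega) (by omega)) (E_stay_lo (by omega) (by omega))
        have := ih (a+2) (b+1) (by omega) (by omega) (by omega) (by omega)
        rw [s1, ← s2, this, ← s4, s3]
      · -- in RL, out LM : P' = (a+2, b+1)
        have s1 := hstep e1 a (a+1) b (b+1) (by omega) (by omega) h3 (by omega)
          (E_up (by omega) (by omega)) (E_up (by omega) (by omega))
        have s2 := hstep e2 (a+2) (a+1) (b+1) (b+1) (by omega) (by omega) (by omega) (by omega)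
          (E_down (by omega) (by omega)) (E_stay_lo (by omega) (by omega))
        have s3 := hstep e2 (a+1) a b b (by omega) (by omega) h3 h3
          (E_down (by omega) (by omega)) (E_stay_lo (by omega) (by omega))
        have s4 := hstep e1 (a+1) (a+2) b (b+1) (by omega) (by omega) (by omega) (by omega)
          (E_up (by omega) (by omega)) (E_up (by omega) (by omega))
        have := ih (a+2) (b+1) (by omega) (by omega) (by omega) (by omega)
        rw [s1, ← s2, this, ← s4, s3]
      · -- RL, LR : P' = (a+2, b+2)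
        have s1 := hstep e1 a (a+1) b (b+1) (by omega) (by omega) h3 (by omega)
          (E_up (by omega) (by omega)) (E_up (by omega) (by omega))
        have s2 := hstep e2 (a+2) (a+1) (b+2) (b+1) (by omega) (by omega) (by omega) (by omega)
          (E_down (by omega) (by omega)) (E_down (by omega) (by omega))
        have s3 := hstep e2 (a+1) a (b+1) b (by omega) (by omega) (by omega) h3
          (E_down (by omega) (by omega)) (E_down (by omega) (by omega))
        have s4 := hstep e1 (a+1) (a+2) (b+1) (b+2) (by omega) (by omega) (by omega) (by omega)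
          (E_up (by omega) (by omega)) (E_up (by omega) (by omega))
        have := ih (a+2) (b+2) (by omega) (by omega) (by omega) (by omega)
        rw [s1, ← s2, this, ← s4, s3]

/-- upper block large -/
theorem coreR
    (hstep : ∀ e : Fin n, ∀ i i' j j' : ℕ, i < n → i' < n → j < n → j' < n →
      E (σ e) (τ e) i i' → E (σ e) (τ e) j j' → (SL i j ↔ SR i' j')) :
    ∀ m a b : ℕ, b ≤ m → a < b → b + 6 ≤ n → (SL a b ↔ SR a b) := by
  intro m
  induction m with
  | zero => intro a b h1 h2' h3; omega
  | succ m ih =>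
    intro a b h1 h2' h3
    by_cases hdir : ∃ e : Fin n, ((σ e : ℕ) < a ∧ (τ e : ℕ) < a) ∨
        (a < (σ e : ℕ) ∧ (σ e : ℕ) < b ∧ a < (τ e : ℕ) ∧ (τ e : ℕ) < b) ∨
        (b < (σ e : ℕ) ∧ b < (τ e : ℕ))
    · obtain ⟨e, h | h | h⟩ := hdir
      · exact hstep e a a b b (by omega) (by omega) (by omega) (by omega) (E_stay_lo h.1 h.2)
          (E_stay_lo (by omega) (by omega))
      · exact hstep e a a b b (by omega) (by omega) (by omega) (by omega)
          (E_stay_hi (by omega) (by omega)) (E_stay_lo (by omega) (by omega))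
      · exact hstep e a a b b (by omega) (by omega) (by omega) (by omega)
          (E_stay_hi (by omega) (by omega)) (E_stay_hi (by omega) (by omega))
    · push Not at hdir
      obtain ⟨e2, hs2, hs2', h21, h22, h23, h24⟩ :=
        avoid σ τ (b+1) b (b-1) a (a-1) (by omega)
      obtain ⟨e1, hs1, hs1', h11, h12, h13, h14⟩ :=
        avoid τ σ (b+1) b (b-1) a (a-1) (by omega)
      have hd2 := (hdir e2).2.2 (by omega)
      have hz1 := (σ e1).isLt
      have hw1 := (τ e1).isLt
      have hz2 := (σ e2).isLt
      have hw2 := (τ e2).isLt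
      have hd1 : (σ e1 : ℕ) ≤ b := by
        by_contra hc
        have := (hdir e1).2.2 (by omega)
        omega
      have out : (a < (τ e2 : ℕ) ∧ (τ e2 : ℕ) + 2 ≤ b) ∨ (τ e2 : ℕ) + 2 ≤ a := by omega
      have inn : (a < (σ e1 : ℕ) ∧ (σ e1 : ℕ) + 2 ≤ b) ∨ (σ e1 : ℕ) + 2 ≤ a := by omega
      rcases inn with hi | hi <;> rcases out with ho | ho
      · -- MR, RM : P' = (a, b-2)
        obtain ⟨d, rfl⟩ : ∃ d, b = d + 2 := ⟨b - 2, by omega⟩
        have s1 := hstep e1 a a (d+2) (d+1) (by omega) (by omega) (by omega) (by omega)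
          (E_stay_hi (by omega) (by omega)) (E_down (by omega) (by omega))
        have s2 := hstep e2 a a d (d+1) (by omega) (by omega) (by omega) (by omega)
          (E_stay_hi (by omega) (by omega)) (E_up (by omega) (by omega))
        have s3 := hstep e2 a a (d+1) (d+2) (by omega) (by omega) (by omega) (by omega)
          (E_stay_hi (by omega) (by omega)) (E_up (by omega) (by omega))
        have s4 := hstep e1 a a (d+1) d (by omega) (by omega) (by omega) (by omega)
          (E_stay_hi (by omega) (by omega)) (E_down (by omega) (by omega))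
        have := ih a d (by omega) (by omega) (by omega)
        rw [s1, ← s2, this, ← s4, s3]
      · -- in MR, out RL : P' = (a-1, b-2)
        obtain ⟨d, rfl⟩ : ∃ d, b = d + 2 := ⟨b - 2, by omega⟩
        obtain ⟨c, rfl⟩ : ∃ c, a = c + 1 := ⟨a - 1, by omega⟩
        have s1 := hstep e1 (c+1) (c+1) (d+2) (d+1) (by omega) (by omega) (by omega) (by omega)
          (E_stay_hi (by omega) (by omega)) (E_down (by omega) (by omega))
        have s2 := hstep e2 c (c+1) d (d+1) (by omega) (by omega) (by omega) (by omega)
          (E_up (by omega) (by omega)) (E_up (by omega) (by omega))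
        have s3 := hstep e2 c (c+1) (d+1) (d+2) (by omega) (by omega) (by omega) (by omega)
          (E_up (by omega) (by omega)) (E_up (by omega) (by omega))
        have s4 := hstep e1 c c (d+1) d (by omega) (by omega) (by omega) (by omega)
          (E_stay_hi (by omega) (by omega)) (E_down (by omega) (by omega))
        have := ih c d (by omega) (by omega) (by omega)
        rw [s1, ← s2, this, ← s4, s3]
      · -- in LR, out RM : P' = (a-1, b-2)
        obtain ⟨d, rfl⟩ : ∃ d, b = d + 2 := ⟨b - 2, by omega⟩
        obtain ⟨c, rfl⟩ : ∃ c, a = c + 1 := ⟨a - 1, by omega⟩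
        have s1 := hstep e1 (c+1) c (d+2) (d+1) (by omega) (by omega) (by omega) (by omega)
          (E_down (by omega) (by omega)) (E_down (by omega) (by omega))
        have s2 := hstep e2 c c d (d+1) (by omega) (by omega) (by omega) (by omega)
          (E_stay_hi (by omega) (by omega)) (E_up (by omega) (by omega))
        have s3 := hstep e2 (c+1) (c+1) (d+1) (d+2) (by omega) (by omega) (by omega) (by omega)
          (E_stay_hi (by omega) (by omega)) (E_up (by omega) (by omega))
        have s4 := hstep e1 (c+1) c (d+1) d (by omega) (by omega) (by omega) (by omega)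
          (E_down (by omega) (by omega)) (E_down (by omega) (by omega))
        have := ih c d (by omega) (by omega) (by omega)
        rw [s1, ← s2, this, ← s4, s3]
      · -- LR, RL : P' = (a-2, b-2)
        obtain ⟨d, rfl⟩ : ∃ d, b = d + 2 := ⟨b - 2, by omega⟩
        obtain ⟨c, rfl⟩ : ∃ c, a = c + 2 := ⟨a - 2, by omega⟩
        have s1 := hstep e1 (c+2) (c+1) (d+2) (d+1) (by omega) (by omega) (by omega) (by omega)
          (E_down (by omega) (by omega)) (E_down (by omega) (by omega))
        have s2 := hstep e2 c (c+1) d (d+1) (by omega) (by omega) (by omega) (by omega)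
          (E_up (by omega) (by omega)) (E_up (by omega) (by omega))
        have s3 := hstep e2 (c+1) (c+2) (d+1) (d+2) (by omega) (by omega) (by omega) (by omega)
          (E_up (by omega) (by omega)) (E_up (by omega) (by omega))
        have s4 := hstep e1 (c+1) c (d+1) d (by omega) (by omega) (by omega) (by omega)
          (E_down (by omega) (by omega)) (E_down (by omega) (by omega))
        have := ih c d (by omega) (by omega) (by omega)
        rw [s1, ← s2, this, ← s4, s3]

theorem core (hn : 15 ≤ n)
    (hstep : ∀ e : Fin n, ∀ i i' j j' : ℕ, i < n → i' < n → j < n → j' < n →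
      E (σ e) (τ e) i i' → E (σ e) (τ e) j j' → (SL i j ↔ SR i' j'))
    (a b : ℕ) (hab : a < b) (hb : b < n) : SL a b ↔ SR a b := by
  by_cases h1 : 5 ≤ a
  · exact coreL σ τ SL SR hstep (n - a) a b le_rfl h1 hab hb
  · by_cases h2 : a + 6 ≤ b
    · exact coreM σ τ SL SR hstep (n + a - b) a b le_rfl h2 hb
    · exact coreR σ τ SL SR hstep b a b le_rfl hab (by omega)

end core

theorem card_lt {n : ℕ} (σ : Equiv.Perm (Fin n)) (z : Fin n) (i : ℕ) (hi : i ≤ n) :
    (Finset.univ.filter (fun e : Fin n => e ≠ z ∧ (σ e : ℕ) < i)).card =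
      if (σ z : ℕ) < i then i - 1 else i := by
  have h1 : (Finset.univ.filter (fun e : Fin n => (σ e : ℕ) < i)).card = i := by
    have : (Finset.univ.filter (fun e : Fin n => (σ e : ℕ) < i)).map σ.toEmbedding =
        Finset.univ.filter (fun e : Fin n => (e : ℕ) < i) := by
      ext e
      simp only [Finset.mem_map, Finset.mem_filter, Finset.mem_univ, true_and,
        Equiv.coe_toEmbedding]
      constructor
      · rintro ⟨f, hf, rfl⟩; exact hf
      · intro h; exact ⟨σ.symm e, by simpa using h, by simp⟩
    rw [← Finset.card_map σ.toEmbedding, this]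
    rw [Fin.card_filter_val_lt]
    omega
  have h2 : (Finset.univ.filter (fun e : Fin n => e ≠ z ∧ (σ e : ℕ) < i)) =
      (Finset.univ.filter (fun e : Fin n => (σ e : ℕ) < i)).erase z := by
    ext e; simp
  rw [h2]
  split_ifs with h
  · rw [Finset.card_erase_of_mem (by simp [h]), h1]
  · rw [Finset.erase_eq_of_notMem (by simp [h]), h1]

section walk

variable {n : ℕ} (R : Fin n → Fin n → Fin n → Prop) (x y : Fin n)

/-- a walk of length `m` from `(x, y)` to `(u, v)` with alternating directions -/
def W (m : ℕ) (u v : Fin n) : Prop :=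
  ∃ s p q : ℕ → Fin n, p 0 = x ∧ q 0 = y ∧ p m = u ∧ q m = v ∧
    ∀ i < m, (Even i → R (s i) (p i) (p (i+1)) ∧ R (s i) (q i) (q (i+1))) ∧
      (Odd i → R (s i) (p (i+1)) (p i) ∧ R (s i) (q (i+1)) (q i))

theorem W_zero : W R x y 0 x y :=
  ⟨fun _ => x, fun _ => x, fun _ => y, rfl, rfl, rfl, rfl, fun i hi => absurd hi (by omega)⟩

theorem W_succ {m : ℕ} {u v u' v' z : Fin n} (h : W R x y m u v)
    (he : Even m → R z u u' ∧ R z v v') (ho : Odd m → R z u' u ∧ R z v' v) :
    W R x y (m+1) u' v' := by
  obtain ⟨s, p, q, hp0, hq0, hpm, hqm, hst⟩ := h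
  refine ⟨fun i => if i < m then s i else z, fun i => if i ≤ m then p i else u',
    fun i => if i ≤ m then q i else v', ?_, ?_, ?_, ?_, ?_⟩
  · simp [hp0]
  · simp [hq0]
  · simp
  · simp
  · intro i hi
    by_cases him : i < m
    · have h1 := hst i him
      have e1 : (if i < m then s i else z) = s i := if_pos him
      have e2 : (if i ≤ m then p i else u') = p i := if_pos (by omega)
      have e3 : (if i + 1 ≤ m then p (i+1) else u') = p (i+1) := if_pos (by omega)
      have e4 : (if i ≤ m then q i else v') = q i := if_pos (by omega)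
      have e5 : (if i + 1 ≤ m then q (i+1) else v') = q (i+1) := if_pos (by omega)
      simp only [e1, e2, e3, e4, e5]
      exact h1
    · have him' : i = m := by omega
      subst him'
      have e1 : (if i < i then s i else z) = z := if_neg (by omega)
      have e2 : (if i ≤ i then p i else u') = u := by rw [if_pos le_rfl, hpm]
      have e3 : (if i + 1 ≤ i then p (i+1) else u') = u' := if_neg (by omega)
      have e4 : (if i ≤ i then q i else v') = v := by rw [if_pos le_rfl, hqm]
      have e5 : (if i + 1 ≤ i then q (i+1) else v') = v' := if_neg (by omega)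
      simp only [e1, e2, e3, e4, e5]
      exact ⟨he, ho⟩

end walk

/-- For all large n, any two linear orders on an n-set, and any two distinct points x,y: some alternating composite φ_{z1}, φ_{z2}⁻¹, φ_{z3}, … (odd length) of the point-deleted order isomorphisms is defined at x and y and agrees there with the full isomorphism. -/
theorem result :
  ∃ N : ℕ, ∀ n : ℕ, N ≤ n → ∀ σ τ : Equiv.Perm (Fin n),
    ∀ R : Fin n → Fin n → Fin n → Prop,
    (∀ z a b : Fin n, R z a b ↔
      (a ≠ z ∧ b ≠ z ∧
        (Finset.univ.filter (fun e : Fin n => e ≠ z ∧ σ e < σ a)).card =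
        (Finset.univ.filter (fun e : Fin n => e ≠ z ∧ τ e < τ b)).card)) →
    ∀ x y : Fin n, x ≠ y →
    ∃ k : ℕ, ∃ s : Fin (2 * k + 1) → Fin n, ∃ p q : Fin (2 * k + 1 + 1) → Fin n,
      p 0 = x ∧ q 0 = y ∧
      p (Fin.last (2 * k + 1)) = τ.symm (σ x) ∧
      q (Fin.last (2 * k + 1)) = τ.symm (σ y) ∧
      ∀ i : Fin (2 * k + 1),
        (Even i.val →
          R (s i) (p i.castSucc) (p i.succ) ∧ R (s i) (q i.castSucc) (q i.succ)) ∧
        (Odd i.val →
          R (s i) (p i.succ) (p i.castSucc) ∧ R (s i) (q i.succ) (q i.castSucc)) := by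
  refine ⟨15, ?_⟩
  intro n hn σ τ R hR x y hxy
  -- translate R into positions
  have hRE : ∀ z a b : Fin n, E (σ z) (τ z) (σ a) (τ b) → R z a b := by
    intro z a b hE
    obtain ⟨h1, h2, h3⟩ := hE
    rw [hR]
    refine ⟨fun h => h1 (by rw [h]), fun h => h2 (by rw [h]), ?_⟩
    have e1 := card_lt σ z (σ a) (le_of_lt (σ a).isLt)
    have e2 := card_lt τ z (τ b) (le_of_lt (τ b).isLt)
    have e1' : (Finset.univ.filter (fun e : Fin n => e ≠ z ∧ σ e < σ a)).card =
        if (σ z : ℕ) < (σ a : ℕ) then (σ a : ℕ) - 1 else (σ a : ℕ) := by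
      rw [← e1]; congr 1
    have e2' : (Finset.univ.filter (fun e : Fin n => e ≠ z ∧ τ e < τ b)).card =
        if (τ z : ℕ) < (τ b : ℕ) then (τ b : ℕ) - 1 else (τ b : ℕ) := by
      rw [← e2]; congr 1
    rw [e1', e2']
    exact h3
  let SL : ℕ → ℕ → Prop := fun i j => ∃ u v : Fin n, (σ u : ℕ) = i ∧ (σ v : ℕ) = j ∧
    ∃ m, Even m ∧ W R x y m u v
  let SR : ℕ → ℕ → Prop := fun i j => ∃ u v : Fin n, (τ u : ℕ) = i ∧ (τ v : ℕ) = j ∧
    ∃ m, Odd m ∧ W R x y m u v
  have hstep : ∀ e : Fin n, ∀ i i' j j' : ℕ, i < n → i' < n → j < n → j' < n →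
      E (σ e) (τ e) i i' → E (σ e) (τ e) j j' → (SL i j ↔ SR i' j') := by
    intro e i i' j j' hi hi' hj hj' h1 h2
    constructor
    · rintro ⟨u, v, rfl, rfl, m, hm, hw⟩
      refine ⟨τ.symm ⟨i', hi'⟩, τ.symm ⟨j', hj'⟩, by simp, by simp, m + 1, hm.add_one, ?_⟩
      refine W_succ R x y (z := e) hw (fun _ => ⟨?_, ?_⟩) (fun ho => ?_)
      · apply hRE; simpa using h1
      · apply hRE; simpa using h2
      · exact absurd hm (Nat.not_even_iff_odd.mpr ho)
    · rintro ⟨u, v, rfl, rfl, m, hm, hw⟩
      refine ⟨σ.symm ⟨i, hi⟩, σ.symm ⟨j, hj⟩, by simp, by simp, m + 1, hm.add_one, ?_⟩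
      refine W_succ R x y (z := e) hw (fun he => ?_) (fun _ => ⟨?_, ?_⟩)
      · exact absurd he (Nat.not_even_iff_odd.mpr hm)
      · apply hRE; simpa using h1
      · apply hRE; simpa using h2
  have hSL : SL (σ x) (σ y) := ⟨x, y, rfl, rfl, 0, by simp, W_zero R x y⟩
  have hne : (σ x : ℕ) ≠ (σ y : ℕ) := fun h => hxy (σ.injective (Fin.ext h))
  have hSR : SR (σ x) (σ y) := by
    rcases lt_or_gt_of_ne hne with h | h
    · exact (core σ τ SL SR hn hstep _ _ h (σ y).isLt).mp hSL
    · have := core σ τ (fun i j => SL j i) (fun i j => SR j i) hn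
        (fun e i i' j j' hi hi' hj hj' h1 h2 => hstep e j j' i i' hj hj' hi hi' h2 h1) _ _ h
        (σ x).isLt
      exact this.mp hSL
  obtain ⟨u, v, hu, hv, m, hm, s, p, q, hp0, hq0, hpm, hqm, hst⟩ := hSR
  obtain ⟨k, rfl⟩ := hm
  refine ⟨k, fun i => s i, fun i => p i, fun i => q i, ?_, ?_, ?_, ?_, ?_⟩
  · simpa using hp0
  · simpa using hq0
  · have : u = τ.symm (σ x) := by
      rw [Equiv.eq_symm_apply]; exact Fin.ext hu
    rw [← this]; simpa using hpm
  · have : v = τ.symm (σ y) := by
      rw [Equiv.eq_symm_apply]; exact Fin.ext hv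
    rw [← this]; simpa using hqm
  · intro i
    simpa using hst i i.isLt

end Pool.Agent.S04991
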