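import Pool.Statements.S04994
import Pool.Agent.Helper663.OrbTop

set_option autoImplicit false
open Pool Pool.MP_22a609_co

namespace Pool.Agent.S04994

open Pool.Agent.Helper663.Orb Pool.Agent.Helper663.Sc

/-- the shape of a partition given as the kernel of a function -/
theorem shape_ker {n : ℕ} (f : Fin n → ℕ) : shape (Setoid.ker f) =
    Multiset.map (fun a => (Finset.univ.filter (fun z => f z = a)).card)
      (Finset.univ.image f).val := by
  classical
  have h1 : blocks (Setoid.ker f) =
      (Finset.univ.image f).image (fun a => Finset.univ.filter (fun z => f z = a)) := by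
    unfold blocks
    rw [Finset.image_image]
    apply Finset.image_congr
    intro a _
    simp only [Function.comp_apply]
    ext b
    simp only [Finset.mem_filter, Finset.mem_univ, true_and]
    constructor
    · intro h
      exact (show f a = f b from h).symm
    · intro h
      exact (show f a = f b from h.symm)
  unfold shape
  rw [h1, Finset.image_val_of_injOn, Multiset.map_map]
  · rfl
  · intro a ha b hb hab
    simp only [Finset.coe_image, Finset.coe_univ, Set.image_univ, Set.mem_range] at ha hb
    obtain ⟨x, rfl⟩ := ha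
    have : x ∈ Finset.univ.filter (fun z => f z = f x) := by simp
    have h2 : x ∈ Finset.univ.filter (fun z => f z = b) := by
      rw [← show (Finset.univ.filter (fun z => f z = f x)) =
        Finset.univ.filter (fun z => f z = b) from hab]
      exact this
    simpa using h2

theorem exists_ker {n : ℕ} (s : Setoid (Fin n)) : ∃ f : Fin n → ℕ, s = Setoid.ker f := by
  classical
  refine ⟨fun a => (Quotient.out (Quotient.mk s a)).val, ?_⟩
  apply Setoid.ext
  intro a b
  rw [Setoid.ker_def]
  constructor
  · intro h
    have : Quotient.mk s a = Quotient.mk s b := Quotient.sound h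
    simp only [this]
  · intro h
    have h1 : Quotient.out (Quotient.mk s a) = Quotient.out (Quotient.mk s b) := Fin.ext h
    have h2 := congrArg (Quotient.mk s) h1
    rw [Quotient.out_eq, Quotient.out_eq] at h2
    exact Quotient.exact h2

theorem shape_iff {n : ℕ} (p : Nat.Partition n) (s : Setoid (Fin n)) :
    (∃ f : Fin n → ℕ, s = Setoid.ker f ∧
      Multiset.map (fun a => (Finset.univ.filter (fun z => f z = a)).card)
        (Finset.univ.image f).val = p.parts) ↔ shape s = p.parts := by
  constructor
  · rintro ⟨f, rfl, h⟩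
    rw [shape_ker, h]
  · intro h
    obtain ⟨f, rfl⟩ := exists_ker s
    exact ⟨f, rfl, by rw [← shape_ker, h]⟩

/-- the index set of the frozen statement -/
theorem index_set_eq : {t : Setoid (Fin 25) | (∃ S : Set (Setoid (Fin 25)),
                (∀ s ∈ S, ∃ f : Fin 25 → ℕ, s = Setoid.ker f ∧
                  Multiset.map (fun a => (Finset.univ.filter (fun z => f z = a)).card)
                    (Finset.univ.image f).val = lam25.parts) ∧
                sSup S = t) ∧ t ≠ ⊥ ∧ t ≠ ⊤} = AP := by
  apply Set.ext
  intro t
  constructor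
  · rintro ⟨⟨S, h1, h2⟩, h3⟩
    exact ⟨⟨S, fun s hs => (shape_iff lam25 s).1 (h1 s hs), h2.symm⟩, h3⟩
  · rintro ⟨⟨S, h1, h2⟩, h3⟩
    exact ⟨⟨S, fun s hs => (shape_iff lam25 s).2 (h1 s hs), h2.symm⟩, h3⟩

/-- the realization of the frozen statement -/
theorem space_eq : {x : Setoid (Fin 25) → ℝ |
          (∀ t, 0 ≤ x t) ∧
          (∀ t, x t ≠ 0 →
            ((∃ S : Set (Setoid (Fin 25)),
                (∀ s ∈ S, ∃ f : Fin 25 → ℕ, s = Setoid.ker f ∧
                  Multiset.map (fun a => (Finset.univ.filter (fun z => f z = a)).card)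
                    (Finset.univ.image f).val = lam25.parts) ∧
                sSup S = t) ∧ t ≠ ⊥ ∧ t ≠ ⊤)) ∧
          (∑ᶠ t, x t) = 1 ∧
          (∀ a b, x a ≠ 0 → x b ≠ 0 → a ≤ b ∨ b ≤ a)} = RR AP := by
  rw [← index_set_eq]
  rfl

/-- The negation of the preceding statement: For every partition p of n, the order complex of the proper part of the poset of joins of shape-p set partitions, and the unit-sphere link of the orbit arrangement of p in R^n, are each empty or homotopy equivalent to a finite wedge of spheres. -/
theorem result :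
    ¬ (∀ (n : ℕ) (p : Nat.Partition n),
      (IsEmpty {x : Setoid (Fin n) → ℝ |
          (∀ t, 0 ≤ x t) ∧
          (∀ t, x t ≠ 0 →
            ((∃ S : Set (Setoid (Fin n)),
                (∀ s ∈ S, ∃ f : Fin n → ℕ, s = Setoid.ker f ∧
                  Multiset.map (fun a => (Finset.univ.filter (fun z => f z = a)).card)
                    (Finset.univ.image f).val = p.parts) ∧
                sSup S = t) ∧ t ≠ ⊥ ∧ t ≠ ⊤)) ∧
          (∑ᶠ t, x t) = 1 ∧
          (∀ a b, x a ≠ 0 → x b ≠ 0 → a ≤ b ∨ b ≤ a)} ∨
        ∃ (k : ℕ) (d : Fin k → ℕ),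
          Nonempty (ContinuousMap.HomotopyEquiv
            {x : Setoid (Fin n) → ℝ |
              (∀ t, 0 ≤ x t) ∧
              (∀ t, x t ≠ 0 →
                ((∃ S : Set (Setoid (Fin n)),
                    (∀ s ∈ S, ∃ f : Fin n → ℕ, s = Setoid.ker f ∧
                      Multiset.map (fun a => (Finset.univ.filter (fun z => f z = a)).card)
                        (Finset.univ.image f).val = p.parts) ∧
                    sSup S = t) ∧ t ≠ ⊥ ∧ t ≠ ⊤)) ∧
              (∑ᶠ t, x t) = 1 ∧
              (∀ a b, x a ≠ 0 → x b ≠ 0 → a ≤ b ∨ b ≤ a)}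
            {y : (i : Fin k) → Fin (d i + 1) → ℝ |
              (∀ i, ∑ j, y i j ^ 2 = 1) ∧
              ∀ i i', i ≠ i' → y i = Pi.single 0 1 ∨ y i' = Pi.single 0 1})) ∧
      (IsEmpty {v : Fin n → ℝ |
          ∑ i, v i ^ 2 = 1 ∧
          ∃ s : Setoid (Fin n),
            (∃ f : Fin n → ℕ, s = Setoid.ker f ∧
              Multiset.map (fun a => (Finset.univ.filter (fun z => f z = a)).card)
                (Finset.univ.image f).val = p.parts) ∧
            ∀ i j, s.r i j → v i = v j} ∨
        ∃ (k : ℕ) (d : Fin k → ℕ),
          Nonempty (ContinuousMap.HomotopyEquiv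
            {v : Fin n → ℝ |
              ∑ i, v i ^ 2 = 1 ∧
              ∃ s : Setoid (Fin n),
                (∃ f : Fin n → ℕ, s = Setoid.ker f ∧
                  Multiset.map (fun a => (Finset.univ.filter (fun z => f z = a)).card)
                    (Finset.univ.image f).val = p.parts) ∧
                ∀ i j, s.r i j → v i = v j}
            {y : (i : Fin k) → Fin (d i + 1) → ℝ |
              (∀ i, ∑ j, y i j ^ 2 = 1) ∧
              ∀ i i', i ≠ i' → y i = Pi.single 0 1 ∨ y i' = Pi.single 0 1}))) := by
  intro h
  have h1 := (h 25 lam25).1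
  rw [space_eq] at h1
  rcases h1 with h1 | ⟨k, d, ⟨e⟩⟩
  · obtain ⟨p, hp⟩ := AP_nonempty
    exact h1.false ⟨vx p, vx_mem hp⟩
  · exact not_wedge d e

end Pool.Agent.S04994
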