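import Pool.Statements.S05005

set_option autoImplicit false
open Pool Pool.MP_238aad_co

namespace Pool.Agent.S05005

/-- Points that can be captured by arbitrarily thin small sets form a small set. -/
theorem bad_small (U : Ultrafilter ℕ) (psi : Set ℕ → Set ℕ)
    (h1 : ∀ E : Set ℕ, E ∉ U → psi E ∉ U)
    (h3 : ∀ E F : Set ℕ, E ⊆ F → F ∉ U → psi E ⊆ psi F)
    (F : Set ℕ) (hF : F ∉ U) :
    {y : ℕ | ∀ A ∈ U, ∃ X : Set ℕ, X ∉ U ∧ X ⊆ A ∧ y ∈ psi (F ∪ X)} ∉ U := by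
  classical
  intro hbad
  set Bad : Set ℕ := {y : ℕ | ∀ A ∈ U, ∃ X : Set ℕ, X ∉ U ∧ X ⊆ A ∧ y ∈ psi (F ∪ X)} with hBad
  have empty_not : (∅ : Set ℕ) ∉ U := U.empty_notMem
  have union_not : ∀ S T : Set ℕ, S ∉ U → T ∉ U → S ∪ T ∉ U := by
    intro S T hS hT h
    rcases Ultrafilter.union_mem_iff.mp h with h | h
    · exact hS h
    · exact hT h
  have key : ∀ (n : ℕ) (T : {T : Set ℕ // T ∉ U}), ∃ T' : {T : Set ℕ // T ∉ U},
      ∃ X X' : Set ℕ, T.1 ⊆ T'.1 ∧ X ⊆ T'.1 ∧ X' ⊆ T'.1 ∧ Disjoint X T.1 ∧ Disjoint X' T.1 ∧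
        Disjoint X X' ∧ (n ∈ Bad → n ∈ psi (F ∪ X) ∧ n ∈ psi (F ∪ X')) := by
    intro n T
    by_cases hn : n ∈ Bad
    · have hTc : (T.1)ᶜ ∈ U := Ultrafilter.compl_mem_iff_notMem.mpr T.2
      obtain ⟨X, hX, hXA, hXn⟩ := hn _ hTc
      have hTX : T.1 ∪ X ∉ U := union_not _ _ T.2 hX
      have hTXc : (T.1 ∪ X)ᶜ ∈ U := Ultrafilter.compl_mem_iff_notMem.mpr hTX
      obtain ⟨X', hX', hXA', hXn'⟩ := hn _ hTXc
      refine ⟨⟨(T.1 ∪ X) ∪ X', union_not _ _ hTX hX'⟩, X, X', ?_, ?_, ?_, ?_, ?_, ?_, ?_⟩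
      · intro x hx; exact Or.inl (Or.inl hx)
      · intro x hx; exact Or.inl (Or.inr hx)
      · intro x hx; exact Or.inr hx
      · rw [Set.disjoint_left]; intro x hx hxT; exact hXA hx hxT
      · rw [Set.disjoint_left]; intro x hx hxT; exact hXA' hx (Or.inl hxT)
      · rw [Set.disjoint_left]; intro x hx hxX; exact hXA' hxX (Or.inr hx)
      · intro _; exact ⟨hXn, hXn'⟩
    · refine ⟨T, ∅, ∅, subset_rfl, Set.empty_subset _, Set.empty_subset _, ?_, ?_, ?_, ?_⟩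
      · simp
      · simp
      · simp
      · intro h; exact absurd h hn
  choose next hnext using key
  let T : ℕ → {T : Set ℕ // T ∉ U} := fun n => Nat.rec ⟨∅, empty_not⟩ (fun n T => next n T) n
  have hT : ∀ n, T (n + 1) = next n (T n) := fun n => rfl
  choose X X' hP using hnext
  have hmono : Monotone (fun n => (T n).1) := by
    apply monotone_nat_of_le_succ
    intro n
    show (T n).1 ⊆ (T (n+1)).1
    rw [hT n]
    exact (hP n (T n)).1
  have hdisj : ∀ i j : ℕ, Disjoint (X i (T i)) (X' j (T j)) := by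
    intro i j
    rcases lt_trichotomy i j with h | h | h
    · have h4 : X i (T i) ⊆ (T j).1 := by
        have h5 : X i (T i) ⊆ (T (i+1)).1 := by rw [hT i]; exact (hP i (T i)).2.1
        exact h5.trans (hmono h)
      exact ((hP j (T j)).2.2.2.2.1.mono_right h4).symm
    · subst h
      exact (hP i (T i)).2.2.2.2.2.1
    · have h4 : X' j (T j) ⊆ (T i).1 := by
        have h5 : X' j (T j) ⊆ (T (j+1)).1 := by rw [hT j]; exact (hP j (T j)).2.2.1
        exact h5.trans (hmono h)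
      exact (hP i (T i)).2.2.2.1.mono_right h4
  have big : ∀ Y : ℕ → Set ℕ, (∀ n, n ∈ Bad → n ∈ psi (F ∪ Y n)) → (⋃ n, Y n) ∈ U := by
    intro Y hY
    by_contra hcon
    have hFY : F ∪ (⋃ n, Y n) ∉ U := union_not _ _ hF hcon
    have hsub : Bad ⊆ psi (F ∪ (⋃ n, Y n)) := by
      intro n hn
      refine h3 (F ∪ Y n) _ ?_ hFY (hY n hn)
      exact Set.union_subset_union_right _ (Set.subset_iUnion Y n)
    exact h1 _ hFY (Filter.mem_of_superset hbad hsub)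
  have hA : (⋃ n, X n (T n)) ∈ U := big _ (fun n hn => ((hP n (T n)).2.2.2.2.2.2 hn).1)
  have hB : (⋃ n, X' n (T n)) ∈ U := big _ (fun n hn => ((hP n (T n)).2.2.2.2.2.2 hn).2)
  have hAB : (⋃ n, X n (T n)) ∩ (⋃ n, X' n (T n)) = ∅ := by
    rw [← Set.disjoint_iff_inter_eq_empty, Set.disjoint_iUnion_left]
    intro i
    rw [Set.disjoint_iUnion_right]
    intro j
    exact hdisj i j
  exact empty_not (hAB ▸ Filter.inter_mem hA hB)

/-- One move of the game: given a small set `T`, a large set `A` disjoint from it and a small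
subset `s` of `A`, we find a point `r` that is independent of everything to come. -/
theorem step (U : Ultrafilter ℕ) (hU : ∀ n : ℕ, ({n} : Set ℕ) ∉ U) (psi : Set ℕ → Set ℕ)
    (h1 : ∀ E : Set ℕ, E ∉ U → psi E ∉ U)
    (h2 : ∀ E : Set ℕ, E ∉ U → E ⊆ psi E)
    (h3 : ∀ E F : Set ℕ, E ⊆ F → F ∉ U → psi E ⊆ psi F)
    (T A s : Set ℕ) (hT : T ∉ U) (hA : A ∈ U) (hTA : Disjoint T A) (hs : s ∉ U) (hsA : s ⊆ A) :
    ∃ (T' A' : Set ℕ) (r : ℕ), T' ∉ U ∧ A' ∈ U ∧ Disjoint T' A' ∧ T ⊆ T' ∧ A' ⊆ A ∧ T' ⊆ T ∪ A ∧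
      s ⊆ T' ∧ r ∈ T' ∧ r ∈ A ∧
      ∀ Y : Set ℕ, Y ∉ U → Y ⊆ T' ∪ A' → r ∉ Y → r ∉ psi Y := by
  classical
  have union_not : ∀ S T : Set ℕ, S ∉ U → T ∉ U → S ∪ T ∉ U := by
    intro S T hS hT h
    rcases Ultrafilter.union_mem_iff.mp h with h | h
    · exact hS h
    · exact hT h
  have hTs : T ∪ s ∉ U := union_not _ _ hT hs
  have hB := bad_small U psi h1 h3 (T ∪ s) hTs
  set Bad : Set ℕ := {y : ℕ | ∀ A ∈ U, ∃ X : Set ℕ, X ∉ U ∧ X ⊆ A ∧ y ∈ psi ((T ∪ s) ∪ X)} with hBad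
  have hlarge : A ∩ (T ∪ s)ᶜ ∩ Badᶜ ∈ U :=
    Filter.inter_mem (Filter.inter_mem hA (Ultrafilter.compl_mem_iff_notMem.mpr hTs))
      (Ultrafilter.compl_mem_iff_notMem.mpr hB)
  obtain ⟨r, ⟨hrA, hrTs⟩, hrB⟩ := Ultrafilter.nonempty_of_mem hlarge
  have hrB' : ∃ B ∈ U, ∀ X : Set ℕ, X ∉ U → X ⊆ B → r ∉ psi ((T ∪ s) ∪ X) := by
    by_contra hcon
    apply hrB
    intro B hBU
    by_contra hcon2
    apply hcon
    refine ⟨B, hBU, ?_⟩
    intro X hX hXB hr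
    exact hcon2 ⟨X, hX, hXB, hr⟩
  obtain ⟨B, hBU, hBr⟩ := hrB'
  have hT' : (T ∪ s) ∪ {r} ∉ U := union_not _ _ hTs (hU r)
  refine ⟨(T ∪ s) ∪ {r}, A ∩ B ∩ ((T ∪ s) ∪ {r})ᶜ, r, hT', ?_, ?_, ?_, ?_, ?_, ?_, ?_, hrA, ?_⟩
  · exact Filter.inter_mem (Filter.inter_mem hA hBU) (Ultrafilter.compl_mem_iff_notMem.mpr hT')
  · rw [Set.disjoint_left]; intro x hx hx2; exact hx2.2 hx
  · intro x hx; exact Or.inl (Or.inl hx)
  · intro x hx; exact hx.1.1
  · rintro x ((hx | hx) | hx)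
    · exact Or.inl hx
    · exact Or.inr (hsA hx)
    · rw [Set.mem_singleton_iff] at hx; subst hx; exact Or.inr hrA
  · intro x hx; exact Or.inl (Or.inr hx)
  · exact Or.inr rfl
  · intro Y hY hYsub hrY hr
    have hYB : Y ∩ (T ∪ s)ᶜ ∉ U := fun h => hY (Filter.mem_of_superset h Set.inter_subset_left)
    have hYB2 : Y ∩ (T ∪ s)ᶜ ⊆ B := by
      rintro x ⟨hxY, hxn⟩
      rcases hYsub hxY with (hx | hx) | hx
      · exact absurd hx hxn
      · rw [Set.mem_singleton_iff] at hx; subst hx; exact absurd hxY hrY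
      · exact hx.1.2
    refine hBr _ hYB hYB2 (h3 Y _ ?_ (union_not _ _ hTs hYB) hr)
    intro x hx
    by_cases hx2 : x ∈ T ∪ s
    · exact Or.inl hx2
    · exact Or.inr ⟨hx, hx2⟩

/-- A play of the game, packaged. -/
theorem play (U : Ultrafilter ℕ) (psi : Set ℕ → Set ℕ)
    (T A : ℕ → Set ℕ) (r : ℕ → ℕ)
    (hdisj : ∀ n, Disjoint (T n) (A n)) (hTm : ∀ n, T n ⊆ T (n+1)) (hAm : ∀ n, A (n+1) ⊆ A n)
    (hTA : ∀ n, T (n+1) ⊆ T n ∪ A n) (hrT : ∀ n, r n ∈ T (n+1)) (hrA : ∀ n, r n ∈ A n)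
    (hr : ∀ n, ∀ Y : Set ℕ, Y ∉ U → Y ⊆ T (n+1) ∪ A (n+1) → r n ∉ Y → r n ∉ psi Y)
    (hW : (⋃ n, T n) ∈ U) :
    ∃ (W : Set ℕ) (r : ℕ → ℕ), W ∈ U ∧ Function.Injective r ∧ (∀ n, r n ∈ W) ∧
      ∀ n, ∀ Y : Set ℕ, Y ∉ U → Y ⊆ W → r n ∉ Y → r n ∉ psi Y := by
  have hTmono : Monotone T := monotone_nat_of_le_succ hTm
  have hP : ∀ n, T (n+1) ∪ A (n+1) ⊆ T n ∪ A n := by
    intro n x hx
    rcases hx with hx | hx
    · exact hTA n hx
    · exact Or.inr (hAm n hx)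
  have hPanti : Antitone (fun n => T n ∪ A n) := antitone_nat_of_succ_le hP
  refine ⟨⋃ n, T n, r, hW, ?_, ?_, ?_⟩
  · have hlt : ∀ i j : ℕ, i < j → r i ≠ r j := by
      intro i j hij heq
      have h1 : r i ∈ T j := hTmono hij (hrT i)
      rw [heq] at h1
      exact Set.disjoint_left.mp (hdisj j) h1 (hrA j)
    intro i j hij
    rcases lt_trichotomy i j with h | h | h
    · exact absurd hij (hlt i j h)
    · exact h
    · exact absurd hij.symm (hlt j i h)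
  · intro n
    exact Set.mem_iUnion.mpr ⟨n+1, hrT n⟩
  · intro n Y hY hYW hrY
    refine hr n Y hY ?_ hrY
    intro x hx
    obtain ⟨m, hm⟩ := Set.mem_iUnion.mp (hYW hx)
    have h1 : x ∈ T (max m (n+1)) := hTmono (le_max_left _ _) hm
    exact hPanti (le_max_right m (n+1)) (Or.inl h1)

/-- The state of one board of the game. -/
def Pos (U : Ultrafilter ℕ) : Type :=
  {p : Set ℕ × Set ℕ // p.1 ∉ U ∧ p.2 ∈ U ∧ Disjoint p.1 p.2}

theorem free (U : Ultrafilter ℕ) (hU : ∀ n : ℕ, ({n} : Set ℕ) ∉ U) (psi : Set ℕ → Set ℕ)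
    (h1 : ∀ E : Set ℕ, E ∉ U → psi E ∉ U)
    (h2 : ∀ E : Set ℕ, E ∉ U → E ⊆ psi E)
    (h3 : ∀ E F : Set ℕ, E ⊆ F → F ∉ U → psi E ⊆ psi F) :
    ∃ (W : Set ℕ) (r : ℕ → ℕ), W ∈ U ∧ Function.Injective r ∧ (∀ n, r n ∈ W) ∧
      ∀ n, ∀ Y : Set ℕ, Y ∉ U → Y ⊆ W → r n ∉ Y → r n ∉ psi Y := by
  classical
  have union_not : ∀ S T : Set ℕ, S ∉ U → T ∉ U → S ∪ T ∉ U := by
    intro S T hS hT h
    rcases Ultrafilter.union_mem_iff.mp h with h | h
    · exact hS h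
    · exact hT h
  -- one step on one board
  have st : ∀ (p : Pos U) (s : {s : Set ℕ // s ∉ U ∧ s ⊆ p.1.2}), ∃ (q : Pos U) (r : ℕ),
      p.1.1 ⊆ q.1.1 ∧ q.1.2 ⊆ p.1.2 ∧ q.1.1 ⊆ p.1.1 ∪ p.1.2 ∧ s.1 ⊆ q.1.1 ∧ r ∈ q.1.1 ∧
      r ∈ p.1.2 ∧ ∀ Y : Set ℕ, Y ∉ U → Y ⊆ q.1.1 ∪ q.1.2 → r ∉ Y → r ∉ psi Y := by
    intro p s
    obtain ⟨T', A', r, a1, a2, a3, a4, a5, a6, a7, a8, a9, a10⟩ :=
      step U hU psi h1 h2 h3 p.1.1 p.1.2 s.1 p.2.1 p.2.2.1 p.2.2.2 s.2.1 s.2.2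
    exact ⟨⟨(T', A'), a1, a2, a3⟩, r, a4, a5, a6, a7, a8, a9, a10⟩
  choose nx rr hst using st
  have small1 : ∀ (n : ℕ) (p1 p2 : Pos U),
      (p1.1.2 \ p2.1.2 ∪ ({n} ∩ p1.1.2)) ∉ U ∧ (p1.1.2 \ p2.1.2 ∪ ({n} ∩ p1.1.2)) ⊆ p1.1.2 := by
    intro n p1 p2
    refine ⟨union_not _ _ ?_ ?_, ?_⟩
    · intro h
      have h4 := Filter.inter_mem h p2.2.2.1
      have h5 : (p1.1.2 \ p2.1.2) ∩ p2.1.2 = ∅ := by
        ext x; simp
      exact U.empty_notMem (h5 ▸ h4)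
    · intro h
      exact hU n (Filter.mem_of_superset h Set.inter_subset_left)
    · rintro x (hx | hx)
      · exact hx.1
      · exact hx.2
  have small2 : ∀ (p1 p2 : Pos U),
      (p2.1.2 \ p1.1.2) ∉ U ∧ (p2.1.2 \ p1.1.2) ⊆ p2.1.2 := by
    intro p1 p2
    refine ⟨?_, fun x hx => hx.1⟩
    intro h
    have h4 := Filter.inter_mem h p1.2.2.1
    have h5 : (p2.1.2 \ p1.1.2) ∩ p1.1.2 = ∅ := by
      ext x; simp
    exact U.empty_notMem (h5 ▸ h4)
  let s1 : (n : ℕ) → (p : Pos U × Pos U) → {s : Set ℕ // s ∉ U ∧ s ⊆ p.1.1.2} :=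
    fun n p => ⟨_, small1 n p.1 p.2⟩
  let q1 : ℕ → Pos U × Pos U → Pos U := fun n p => nx p.1 (s1 n p)
  let s2 : (n : ℕ) → (p : Pos U × Pos U) → {s : Set ℕ // s ∉ U ∧ s ⊆ p.2.1.2} :=
    fun n p => ⟨_, small2 (q1 n p) p.2⟩
  let q2 : ℕ → Pos U × Pos U → Pos U := fun n p => nx p.2 (s2 n p)
  let p0 : Pos U := ⟨(∅, Set.univ), U.empty_notMem, Filter.univ_mem, by simp⟩
  let P : ℕ → Pos U × Pos U := fun n => Nat.rec (p0, p0) (fun n p => (q1 n p, q2 n p)) n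
  have hP : ∀ n, P (n+1) = (q1 n (P n), q2 n (P n)) := fun n => rfl
  have hP1 : ∀ n, (P (n+1)).1 = nx (P n).1 (s1 n (P n)) := fun n => rfl
  have hP2 : ∀ n, (P (n+1)).2 = nx (P n).2 (s2 n (P n)) := fun n => rfl
  have hs1 : ∀ n, (s1 n (P n)).1 = (P n).1.1.2 \ (P n).2.1.2 ∪ ({n} ∩ (P n).1.1.2) := fun n => rfl
  have hs2 : ∀ n, (s2 n (P n)).1 = (P n).2.1.2 \ (P (n+1)).1.1.2 := fun n => rfl
  have cover : (⋃ n, (s1 n (P n)).1) ∪ (⋃ n, (s2 n (P n)).1) ∈ U := by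
    have : (⋃ n, (s1 n (P n)).1) ∪ (⋃ n, (s2 n (P n)).1) = Set.univ := by
      rw [Set.eq_univ_iff_forall]
      intro x
      by_contra hx
      have hx1 : ∀ n, x ∉ (s1 n (P n)).1 := fun n h =>
        hx (Or.inl (Set.mem_iUnion.mpr ⟨n, h⟩))
      have hx2 : ∀ n, x ∉ (s2 n (P n)).1 := fun n h =>
        hx (Or.inr (Set.mem_iUnion.mpr ⟨n, h⟩))
      have hall : ∀ n, x ∈ (P n).1.1.2 := by
        intro n
        induction n with
        | zero => exact Set.mem_univ x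
        | succ n ih =>
          have h4 : x ∈ (P n).2.1.2 := by
            by_contra h5
            exact hx1 n (by rw [hs1]; exact Or.inl ⟨ih, h5⟩)
          by_contra h5
          exact hx2 n (by rw [hs2]; exact ⟨h4, h5⟩)
      exact hx1 x (by rw [hs1]; exact Or.inr ⟨rfl, hall x⟩)
    rw [this]
    exact Filter.univ_mem
  rcases Ultrafilter.union_mem_iff.mp cover with hc | hc
  · refine play U psi (fun n => (P n).1.1.1) (fun n => (P n).1.1.2)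
      (fun n => rr (P n).1 (s1 n (P n))) ?_ ?_ ?_ ?_ ?_ ?_ ?_ ?_
    · intro n; exact (P n).1.2.2.2
    · intro n; exact (hst (P n).1 (s1 n (P n))).1
    · intro n; exact (hst (P n).1 (s1 n (P n))).2.1
    · intro n; exact (hst (P n).1 (s1 n (P n))).2.2.1
    · intro n; exact (hst (P n).1 (s1 n (P n))).2.2.2.2.1
    · intro n; exact (hst (P n).1 (s1 n (P n))).2.2.2.2.2.1
    · intro n; exact (hst (P n).1 (s1 n (P n))).2.2.2.2.2.2
    · refine Filter.mem_of_superset hc ?_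
      intro x hx
      obtain ⟨n, hn⟩ := Set.mem_iUnion.mp hx
      exact Set.mem_iUnion.mpr ⟨n+1, (hst (P n).1 (s1 n (P n))).2.2.2.1 hn⟩
  · refine play U psi (fun n => (P n).2.1.1) (fun n => (P n).2.1.2)
      (fun n => rr (P n).2 (s2 n (P n))) ?_ ?_ ?_ ?_ ?_ ?_ ?_ ?_
    · intro n; exact (P n).2.2.2.2
    · intro n; exact (hst (P n).2 (s2 n (P n))).1
    · intro n; exact (hst (P n).2 (s2 n (P n))).2.1
    · intro n; exact (hst (P n).2 (s2 n (P n))).2.2.1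
    · intro n; exact (hst (P n).2 (s2 n (P n))).2.2.2.2.1
    · intro n; exact (hst (P n).2 (s2 n (P n))).2.2.2.2.2.1
    · intro n; exact (hst (P n).2 (s2 n (P n))).2.2.2.2.2.2
    · refine Filter.mem_of_superset hc ?_
      intro x hx
      obtain ⟨n, hn⟩ := Set.mem_iUnion.mp hx
      exact Set.mem_iUnion.mpr ⟨n+1, (hst (P n).2 (s2 n (P n))).2.2.2.1 hn⟩


/-- The system of small sets `D n` that carries the copy of the ideal. -/
theorem system (U : Ultrafilter ℕ) (hU : ∀ n : ℕ, ({n} : Set ℕ) ∉ U) (psi : Set ℕ → Set ℕ)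
    (h1 : ∀ E : Set ℕ, E ∉ U → psi E ∉ U)
    (h2 : ∀ E : Set ℕ, E ∉ U → E ⊆ psi E)
    (h3 : ∀ E F : Set ℕ, E ⊆ F → F ∉ U → psi E ⊆ psi F) :
    ∃ D : ℕ → Set ℕ, (∀ E : Set ℕ, E ∉ U → (⋃ m ∈ E, D m) ∉ U) ∧
      (∀ A : Set ℕ, A ∈ U → (⋃ m ∈ A, D m) ∈ U) ∧
      ∀ E : Set ℕ, E ∉ U → ∀ n, n ∉ E → ¬ (D n ⊆ psi (⋃ m ∈ E, D m)) := by
  classical
  have union_not : ∀ S T : Set ℕ, S ∉ U → T ∉ U → S ∪ T ∉ U := by
    intro S T hS hT h
    rcases Ultrafilter.union_mem_iff.mp h with h | h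
    · exact hS h
    · exact hT h
  obtain ⟨W, r, hW, hinj, hrW, hr⟩ := free U hU psi h1 h2 h3
  -- pass to a half of the sequence with small range
  have half : ∃ r' : ℕ → ℕ, Function.Injective r' ∧ Set.range r' ∉ U ∧ (∀ n, r' n ∈ W) ∧
      ∀ n, ∀ Y : Set ℕ, Y ∉ U → Y ⊆ W → r' n ∉ Y → r' n ∉ psi Y := by
    by_cases hev : Set.range (fun n => r (2 * n)) ∈ U
    · refine ⟨fun n => r (2 * n + 1), ?_, ?_, fun n => hrW _, fun n => hr _⟩
      · intro i j hij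
        have := hinj hij
        omega
      · intro hod
        have h4 := Filter.inter_mem hev hod
        have h5 : Set.range (fun n => r (2 * n)) ∩ Set.range (fun n => r (2 * n + 1)) = ∅ := by
          rw [Set.eq_empty_iff_forall_notMem]
          rintro x ⟨⟨i, hi⟩, ⟨j, hj⟩⟩
          have h6 : r (2 * i) = r (2 * j + 1) := by
            simp only at hi hj
            rw [hi, hj]
          have := hinj h6
          omega
        exact U.empty_notMem (h5 ▸ h4)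
    · refine ⟨fun n => r (2 * n), ?_, hev, fun n => hrW _, fun n => hr _⟩
      intro i j hij
      have := hinj hij
      omega
  obtain ⟨r, hinj, hR, hrW, hr⟩ := half
  set K : Set ℕ := W \ Set.range r with hK
  have hKU : K ∈ U := by
    have := Filter.inter_mem hW (Ultrafilter.compl_mem_iff_notMem.mpr hR)
    exact this
  refine ⟨fun k => ({k} ∩ K) ∪ {r k}, ?_, ?_, ?_⟩
  · intro E hE h
    refine union_not _ _ hE hR (Filter.mem_of_superset h ?_)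
    intro x hx
    simp only [Set.mem_iUnion] at hx
    obtain ⟨m, hm, hx⟩ := hx
    rcases hx with ⟨hx, -⟩ | hx
    · rw [Set.mem_singleton_iff] at hx; subst hx; exact Or.inl hm
    · rw [Set.mem_singleton_iff] at hx; subst hx; exact Or.inr ⟨m, rfl⟩
  · intro A hA
    refine Filter.mem_of_superset (Filter.inter_mem hA hKU) ?_
    rintro x ⟨hxA, hxK⟩
    simp only [Set.mem_iUnion]
    exact ⟨x, hxA, Or.inl ⟨rfl, hxK⟩⟩
  · intro E hE n hn hsub
    have hXE : (⋃ m ∈ E, (({m} ∩ K) ∪ {r m} : Set ℕ)) ∉ U := by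
      intro h
      refine union_not _ _ hE hR (Filter.mem_of_superset h ?_)
      intro x hx
      simp only [Set.mem_iUnion] at hx
      obtain ⟨m, hm, hx⟩ := hx
      rcases hx with ⟨hx, -⟩ | hx
      · rw [Set.mem_singleton_iff] at hx; subst hx; exact Or.inl hm
      · rw [Set.mem_singleton_iff] at hx; subst hx; exact Or.inr ⟨m, rfl⟩
    refine hr n _ hXE ?_ ?_ (hsub (Or.inr rfl))
    · intro x hx
      simp only [Set.mem_iUnion] at hx
      obtain ⟨m, hm, hx⟩ := hx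
      rcases hx with ⟨-, hx⟩ | hx
      · exact hx.1
      · rw [Set.mem_singleton_iff] at hx; subst hx; exact hrW m
    · intro hx
      simp only [Set.mem_iUnion] at hx
      obtain ⟨m, hm, hx⟩ := hx
      rcases hx with ⟨-, hx⟩ | hx
      · exact hx.2 ⟨n, rfl⟩
      · rw [Set.mem_singleton_iff] at hx
        exact hn (hinj hx ▸ hm)

/-- For every nonprincipal ultrafilter U on ℕ (ordered by inclusion) and monotone f:U→U whose images of coatoms have no common lower bound in f(U), U is a retract of f(U) via monotone maps g, h with g∘h = id. -/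
theorem result :
    ∀ U : Ultrafilter ℕ, (∀ n : ℕ, U ≠ pure n) →
      ∀ f : {s : Set ℕ // s ∈ U} → {s : Set ℕ // s ∈ U}, Monotone f →
        (¬ ∃ y : {s : Set ℕ // s ∈ U}, y ∈ Set.range f ∧
            ∀ c : {s : Set ℕ // s ∈ U},
              (c.1 ≠ Set.univ ∧ ∀ t : {s : Set ℕ // s ∈ U}, c.1 ⊆ t.1 → t.1 = c.1 ∨ t.1 = Set.univ) →
              y ≤ f c) →
        ∃ g : ↥(Set.range f) → {s : Set ℕ // s ∈ U},
          ∃ h : {s : Set ℕ // s ∈ U} → ↥(Set.range f),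
            Monotone g ∧ Monotone h ∧ ∀ x, g (h x) = x := by
  classical
  intro U hpure f hf hnb
  have hU : ∀ n : ℕ, ({n} : Set ℕ) ∉ U := by
    intro n hn
    apply hpure n
    apply Ultrafilter.ext
    intro s
    constructor
    · intro hs
      have h4 : ({n} ∩ s) ∈ U := Filter.inter_mem hn hs
      obtain ⟨x, hx1, hx2⟩ := Ultrafilter.nonempty_of_mem h4
      rw [Set.mem_singleton_iff] at hx1
      subst hx1
      exact hx2
    · intro hs
      have hs' : n ∈ s := hs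
      exact Filter.mem_of_superset hn (by intro x hx; rw [Set.mem_singleton_iff] at hx; subst hx; exact hs')
  let a : ℕ → {s : Set ℕ // s ∈ U} := fun n =>
    ⟨({n} : Set ℕ)ᶜ, Ultrafilter.compl_mem_iff_notMem.mpr (hU n)⟩
  have coat : ∀ c : {s : Set ℕ // s ∈ U},
      (c.1 ≠ Set.univ ∧ ∀ t : {s : Set ℕ // s ∈ U}, c.1 ⊆ t.1 → t.1 = c.1 ∨ t.1 = Set.univ) →
        ∃ n, c = a n := by
    rintro c ⟨hc1, hc2⟩
    obtain ⟨n, hn⟩ := (Set.ne_univ_iff_exists_notMem _).mp hc1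
    refine ⟨n, ?_⟩
    have h4 : c.1 ⊆ (a n).1 := by
      intro x hx hxn
      rw [Set.mem_singleton_iff] at hxn
      subst hxn
      exact hn hx
    rcases hc2 (a n) h4 with h5 | h5
    · exact Subtype.ext h5.symm
    · exfalso
      have : n ∈ (a n).1 := h5 ▸ Set.mem_univ n
      exact this rfl
  have le_a : ∀ (A : {s : Set ℕ // s ∈ U}) (n : ℕ), n ∉ A.1 → A ≤ a n := by
    intro A n hn x hx hxn
    rw [Set.mem_singleton_iff] at hxn
    subst hxn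
    exact hn hx
  -- the index set of coatoms whose image lies above a member of the range is small
  have small : ∀ A : {s : Set ℕ // s ∈ U}, {n : ℕ | f A ≤ f (a n)} ∉ U := by
    intro A hA
    apply hnb
    let B : {s : Set ℕ // s ∈ U} := ⟨A.1 ∩ {n : ℕ | f A ≤ f (a n)}, Filter.inter_mem A.2 hA⟩
    refine ⟨f B, ⟨B, rfl⟩, ?_⟩
    intro c hc
    obtain ⟨n, rfl⟩ := coat c hc
    by_cases hn : n ∈ {n : ℕ | f A ≤ f (a n)}
    · have h4 : B ≤ A := fun x hx => hx.1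
      exact (hf h4).trans hn
    · exact hf (le_a B n (fun h => hn h.2))
  let psi : Set ℕ → Set ℕ := fun E => {n : ℕ | ∀ A : {s : Set ℕ // s ∈ U}, A.1 = Eᶜ → f A ≤ f (a n)}
  have psi_eq : ∀ (E : Set ℕ) (hE : Eᶜ ∈ U), psi E = {n : ℕ | f ⟨Eᶜ, hE⟩ ≤ f (a n)} := by
    intro E hE
    ext n
    constructor
    · intro h; exact h ⟨Eᶜ, hE⟩ rfl
    · intro h A hA
      have : A = ⟨Eᶜ, hE⟩ := Subtype.ext hA
      rw [this]; exact h
  have h1 : ∀ E : Set ℕ, E ∉ U → psi E ∉ U := by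
    intro E hE
    rw [psi_eq E (Ultrafilter.compl_mem_iff_notMem.mpr hE)]
    exact small _
  have h2 : ∀ E : Set ℕ, E ∉ U → E ⊆ psi E := by
    intro E hE n hn A hA
    exact hf (le_a A n (by rw [hA]; exact fun h => h hn))
  have h3 : ∀ E F : Set ℕ, E ⊆ F → F ∉ U → psi E ⊆ psi F := by
    intro E F hEF hF
    have hE : E ∉ U := fun h => hF (Filter.mem_of_superset h hEF)
    rw [psi_eq E (Ultrafilter.compl_mem_iff_notMem.mpr hE),
      psi_eq F (Ultrafilter.compl_mem_iff_notMem.mpr hF)]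
    intro n hn
    have h4 : (⟨Fᶜ, Ultrafilter.compl_mem_iff_notMem.mpr hF⟩ : {s : Set ℕ // s ∈ U}) ≤
        ⟨Eᶜ, Ultrafilter.compl_mem_iff_notMem.mpr hE⟩ := Set.compl_subset_compl.mpr hEF
    exact (hf h4).trans hn
  obtain ⟨D, hD1, hD2, hD3⟩ := system U hU psi h1 h2 h3
  have hXc : ∀ A : {s : Set ℕ // s ∈ U}, (⋃ m ∈ (A.1)ᶜ, D m) ∉ U := by
    intro A
    apply hD1
    exact Ultrafilter.compl_notMem_iff.mpr A.2
  let H : {s : Set ℕ // s ∈ U} → {s : Set ℕ // s ∈ U} := fun A =>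
    ⟨(⋃ m ∈ (A.1)ᶜ, D m)ᶜ, Ultrafilter.compl_mem_iff_notMem.mpr (hXc A)⟩
  have hH : Monotone H := by
    intro A B hAB
    show (⋃ m ∈ (A.1)ᶜ, D m)ᶜ ⊆ (⋃ m ∈ (B.1)ᶜ, D m)ᶜ
    apply Set.compl_subset_compl.mpr
    exact Set.biUnion_subset_biUnion_left (Set.compl_subset_compl.mpr hAB)
  let G : {s : Set ℕ // s ∈ U} → Set ℕ := fun y => {n : ℕ | ¬ (D n ⊆ {m : ℕ | y ≤ f (a m)})}
  have hG : ∀ y : ↥(Set.range f), G y.1 ∈ U := by
    rintro ⟨y, A, rfl⟩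
    by_contra hcon
    have h4 : (G (f A))ᶜ ∈ U := Ultrafilter.compl_mem_iff_notMem.mpr hcon
    have h5 := hD2 _ h4
    refine small A (Filter.mem_of_superset h5 ?_)
    intro x hx
    simp only [Set.mem_iUnion] at hx
    obtain ⟨m, hm, hx⟩ := hx
    have hm' : D m ⊆ {k : ℕ | f A ≤ f (a k)} := by
      by_contra h6
      exact hm h6
    exact hm' hx
  refine ⟨fun y => ⟨G y.1, hG y⟩, fun A => ⟨f (H A), ⟨H A, rfl⟩⟩, ?_, ?_, ?_⟩
  · intro y z hyz
    show G y.1 ⊆ G z.1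
    intro n hn hsub
    apply hn
    intro m hm
    have h4 : z.1 ≤ f (a m) := hsub hm
    have h5 : y.1 ≤ z.1 := hyz
    exact h5.trans h4
  · intro A B hAB
    show f (H A) ≤ f (H B)
    exact hf (hH hAB)
  · intro A
    apply Subtype.ext
    show G (f (H A)) = A.1
    have h4 : psi (⋃ m ∈ (A.1)ᶜ, D m) = {m : ℕ | f (H A) ≤ f (a m)} :=
      psi_eq _ (Ultrafilter.compl_mem_iff_notMem.mpr (hXc A))
    ext n
    constructor
    · intro hn
      by_contra hnA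
      apply hn
      rw [← h4]
      refine Set.Subset.trans ?_ (h2 _ (hXc A))
      exact Set.subset_biUnion_of_mem (u := D) (show n ∈ (A.1)ᶜ from hnA)
    · intro hnA hsub
      rw [← h4] at hsub
      exact hD3 (A.1)ᶜ (Ultrafilter.compl_notMem_iff.mpr A.2) n (fun h => h hnA) hsub

end Pool.Agent.S05005
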