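import Pool.Statements.S05017
import Pool.Agent.Helper835.EdgeOrbit

set_option autoImplicit false
open Pool Pool.MP_244b3b_co

namespace Pool.Agent.S05017

/-- For all k and N there is a finite group G such that every finite loopless digraph with all out-degrees at most k and automorphism group isomorphic to G has more than N automorphism orbits. -/
theorem result :
    ∀ k N : ℕ, ∃ (G : Type) (_ : Group G) (_ : Finite G),
      ∀ (V : Type) [Finite V] (X : Digraph V) (φ : G →* Equiv.Perm V),
        (∀ x, ¬ X.Adj x x) →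
        (∀ x, Set.ncard {y | X.Adj x y} ≤ k) →
        Function.Injective φ →
        (∀ σ : Equiv.Perm V, σ ∈ φ.range ↔ ∀ x y, (X.Adj (σ x) (σ y) ↔ X.Adj x y)) →
        ∃ f : Fin (N + 1) → V, ∀ (i j : Fin (N + 1)) (g : G), φ g (f i) = f j → i = j := by
  classical
  intro k N
  obtain ⟨G, hG, hGf, hmain⟩ := Pool.Agent.Helper835.EdgeOrbit.main (N * k)
  refine ⟨G, hG, hGf, ?_⟩
  intro V _ X φ hloop hdeg hinj hrange
  have : Fintype V := Fintype.ofFinite V
  have hE : ∀ (g : G) x y, X.Adj (φ g x) (φ g y) ↔ X.Adj x y :=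
    fun g => (hrange (φ g)).1 ⟨g, rfl⟩
  have hfull : ∀ σ : Equiv.Perm V, (∀ x y, X.Adj (σ x) (σ y) ↔ X.Adj x y) →
      ∃ t : G, φ t = σ := fun σ hσ => (hrange σ).2 hσ
  let r : Setoid V :=
    { r := fun u v => ∃ g : G, φ g u = v
      iseqv := by
        refine ⟨fun u => ⟨1, by simp⟩, ?_, ?_⟩
        · rintro u v ⟨g, rfl⟩
          exact ⟨g⁻¹, by simp⟩
        · rintro u v w ⟨g, rfl⟩ ⟨h, rfl⟩
          exact ⟨h * g, by simp⟩ }
  by_contra hcon
  have hcard : Fintype.card (Quotient r) ≤ N := by
    by_contra hlt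
    push Not at hlt
    have hle : Fintype.card (Fin (N + 1)) ≤ Fintype.card (Quotient r) := by
      rw [Fintype.card_fin]; omega
    obtain ⟨e⟩ := Function.Embedding.nonempty_of_card_le hle
    apply hcon
    refine ⟨fun i => Quotient.out (e i), ?_⟩
    intro i j g hg
    apply e.injective
    rw [← Quotient.out_eq (e i), ← Quotient.out_eq (e j)]
    exact Quotient.sound ⟨g, hg⟩
  let S : Finset (V × V) := (Finset.univ : Finset (Quotient r)).biUnion
    fun q => (Finset.univ.filter fun y => X.Adj (Quotient.out q) y).image fun y => (Quotient.out q, y)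
  have hScard : S.card ≤ N * k := by
    refine (Finset.card_biUnion_le_card_mul _ _ k ?_).trans ?_
    · intro q _
      refine Finset.card_image_le.trans ?_
      have := hdeg (Quotient.out q)
      rw [Set.ncard_eq_toFinset_card'] at this
      refine le_trans (le_of_eq ?_) this
      congr 1
      ext y
      simp
    · rw [Finset.card_univ]
      exact Nat.mul_le_mul_right _ hcard
  have := hmain V X.Adj φ hinj hE hfull S (by
    intro x y hxy
    obtain ⟨g, hg⟩ : ∃ g : G, φ g (Quotient.out (Quotient.mk r x)) = x :=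
      Quotient.exact (Quotient.out_eq (Quotient.mk r x))
    set b := Quotient.out (Quotient.mk r x) with hb
    refine ⟨g, (b, φ g⁻¹ y), ?_, Or.inl ⟨hg, ?_⟩⟩
    · simp only [S, Finset.mem_biUnion, Finset.mem_univ, true_and, Finset.mem_image,
        Finset.mem_filter]
      refine ⟨Quotient.mk r x, φ g⁻¹ y, ?_, rfl⟩
      rw [← hE g, ← hb, hg]
      have : φ g (φ g⁻¹ y) = y := by
        rw [← Equiv.Perm.mul_apply, ← map_mul, mul_inv_cancel, map_one, Equiv.Perm.one_apply]
      rw [this]
      exact hxy
    · change φ g (φ g⁻¹ y) = y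
      rw [← Equiv.Perm.mul_apply, ← map_mul, mul_inv_cancel, map_one, Equiv.Perm.one_apply])
  omega

end Pool.Agent.S05017
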