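-- Every infinite geometric lattice of finite rank has pairwise disjoint maximal chains
-- (in the lattice without its bounds) through all atoms.
import Pool.Statements.S05023

set_option autoImplicit false
open Pool Pool.MP_246c79_co

namespace Pool.Agent.S05023




theorem count_aux {α β : Type} (A : Finset α) (C : Finset β) (R : α → β → Prop)
    [∀ a b, Decidable (R a b)] (hA : A.Nonempty)
    (h1 : ∀ x ∈ A, ∃ K ∈ C, ¬ R x K) (h2 : ∀ K ∈ C, ∃ x ∈ A, ¬ R x K)
    (h3 : ∀ x ∈ A, ∃ K ∈ C, R x K)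
    (h4 : ∀ x ∈ A, ∀ K ∈ C, ¬ R x K → (A.filter (fun y => R y K)).card ≤ (C.filter (fun H => R x H)).card) :
    A.card ≤ C.card := by
  by_contra hcon
  push Not at hcon
  have hvpos : (0 : ℚ) < A.card := by exact_mod_cast hA.card_pos
  obtain ⟨x0, hx0⟩ := hA
  obtain ⟨K0, hK0, hxK0⟩ := h1 x0 hx0
  have hbpos : (0 : ℚ) < C.card := by exact_mod_cast Finset.card_pos.mpr ⟨K0, hK0⟩
  have hbv : (C.card : ℚ) < A.card := by exact_mod_cast hcon
  let r : α → ℚ := fun x => ((C.filter (fun H => ¬ R x H)).card : ℚ)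
  let k : β → ℚ := fun K => ((A.filter (fun y => ¬ R y K)).card : ℚ)
  have hr : ∀ x, ((C.filter (fun H => R x H)).card : ℚ) = C.card - r x := by
    intro x
    have := Finset.card_filter_add_card_filter_not (s := C) (fun H => R x H)
    have h' : ((C.filter (fun H => R x H)).card : ℚ) + r x = C.card := by
      change ((C.filter (fun H => R x H)).card : ℚ) + ((C.filter (fun H => ¬ R x H)).card : ℚ) = C.card
      exact_mod_cast this
    linarith
  have hk : ∀ K, ((A.filter (fun y => R y K)).card : ℚ) = A.card - k K := by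
    intro K
    have := Finset.card_filter_add_card_filter_not (s := A) (fun y => R y K)
    have h' : ((A.filter (fun y => R y K)).card : ℚ) + k K = A.card := by
      change ((A.filter (fun y => R y K)).card : ℚ) + ((A.filter (fun y => ¬ R y K)).card : ℚ) = A.card
      exact_mod_cast this
    linarith
  have hrpos : ∀ x ∈ A, 0 < r x := by
    intro x hx
    obtain ⟨K, hK, hxK⟩ := h1 x hx
    change (0:ℚ) < ((C.filter (fun H => ¬ R x H)).card : ℚ)
    exact_mod_cast Finset.card_pos.mpr ⟨K, Finset.mem_filter.mpr ⟨hK, hxK⟩⟩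
  have hkpos : ∀ K ∈ C, 0 < k K := by
    intro K hK
    obtain ⟨x, hx, hxK⟩ := h2 K hK
    change (0:ℚ) < ((A.filter (fun y => ¬ R y K)).card : ℚ)
    exact_mod_cast Finset.card_pos.mpr ⟨x, Finset.mem_filter.mpr ⟨hx, hxK⟩⟩
  have hS1 : ∑ x ∈ A, ∑ K ∈ C, (if R x K then (0:ℚ) else 1 / (A.card * r x)) = 1 := by
    have : ∀ x ∈ A, ∑ K ∈ C, (if R x K then (0:ℚ) else 1 / (A.card * r x)) = 1 / A.card := by
      intro x hx
      rw [Finset.sum_ite, Finset.sum_const_zero, zero_add, Finset.sum_const, nsmul_eq_mul]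
      have := hrpos x hx
      change r x * (1 / (A.card * r x)) = 1 / A.card
      field_simp
    rw [Finset.sum_congr rfl this, Finset.sum_const, nsmul_eq_mul]
    field_simp
  have hS2 : ∑ x ∈ A, ∑ K ∈ C, (if R x K then (0:ℚ) else 1 / (C.card * k K)) = 1 := by
    rw [Finset.sum_comm]
    have : ∀ K ∈ C, ∑ x ∈ A, (if R x K then (0:ℚ) else 1 / (C.card * k K)) = 1 / C.card := by
      intro K hK
      rw [Finset.sum_ite, Finset.sum_const_zero, zero_add, Finset.sum_const, nsmul_eq_mul]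
      have := hkpos K hK
      change k K * (1 / (C.card * k K)) = 1 / C.card
      field_simp
    rw [Finset.sum_congr rfl this, Finset.sum_const, nsmul_eq_mul]
    field_simp
  -- termwise comparison
  have hlt : ∀ x ∈ A, ∀ K ∈ C, ¬ R x K → 1 / ((C.card : ℚ) * k K) < 1 / (A.card * r x) := by
    intro x hx K hK hxK
    have e1 := h4 x hx K hK hxK
    have e2 : ((A.filter (fun y => R y K)).card : ℚ) ≤ (C.filter (fun H => R x H)).card := by exact_mod_cast e1
    rw [hr, hk] at e2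
    obtain ⟨K', hK', hxK'⟩ := h3 x hx
    have e3 : (0 : ℚ) < (C.filter (fun H => R x H)).card := by
      exact_mod_cast Finset.card_pos.mpr ⟨K', Finset.mem_filter.mpr ⟨hK', hxK'⟩⟩
    rw [hr] at e3
    have e4 : (0:ℚ) ≤ A.card - k K := by rw [← hk]; positivity
    apply one_div_lt_one_div_of_lt
    · exact mul_pos hvpos (hrpos x hx)
    · -- A.card * r x < C.card * k K
      nlinarith [mul_pos hvpos e3, mul_le_mul_of_nonneg_left e2 hbpos.le, mul_le_mul_of_nonneg_left e2 hvpos.le, mul_pos (sub_pos.mpr hbv) e3]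
  have : ∑ x ∈ A, ∑ K ∈ C, (if R x K then (0:ℚ) else 1 / (C.card * k K)) <
      ∑ x ∈ A, ∑ K ∈ C, (if R x K then (0:ℚ) else 1 / (A.card * r x)) := by
    apply Finset.sum_lt_sum
    · intro x hx
      apply Finset.sum_le_sum
      intro K hK
      split_ifs with h
      · exact le_rfl
      · exact (hlt x hx K hK h).le
    · refine ⟨x0, hx0, ?_⟩
      apply Finset.sum_lt_sum
      · intro K hK
        split_ifs with h
        · exact le_rfl
        · exact (hlt x0 hx0 K hK h).le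
      · refine ⟨K0, hK0, ?_⟩
        rw [if_neg hxK0, if_neg hxK0]
        exact hlt x0 hx0 K0 hK0 hxK0
  rw [hS1, hS2] at this
  exact lt_irrefl _ this


section

open Cardinal

theorem greedy {α β : Type} (κ : Cardinal.{0}) (hκ : ℵ₀ ≤ κ) (hα : #α ≤ κ) (F : α → Set (Set β))
    (hF : ∀ a, κ ≤ #(F a)) (hdisj : ∀ a, (F a).PairwiseDisjoint id)
    (hfin : ∀ a, ∀ s ∈ F a, s.Finite) :
    ∃ c : α → Set β, (∀ a, c a ∈ F a) ∧ ∀ a b, a ≠ b → Disjoint (c a) (c b) := by
  classical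
  obtain ⟨r, wo, hr⟩ := Cardinal.exists_ord_eq α
  have wf : WellFounded r := wo.wf
  let step : ∀ a : α, (∀ b, r b a → Set β) → Set β := fun a prev =>
    if h : ∃ s ∈ F a, ∀ b (hb : r b a), Disjoint s (prev b hb) then h.choose else ∅
  let c : α → Set β := wf.fix step
  have hc : ∀ a, c a = step a (fun b _ => c b) := fun a => wf.fix_eq step a
  have key : ∀ a, c a ∈ F a ∧ ∀ b, r b a → Disjoint (c a) (c b) := by
    intro a
    induction a using wf.induction with
    | _ a ih =>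
    have hex : ∃ s ∈ F a, ∀ b (hb : r b a), Disjoint s (c b) := by
      by_contra hcon
      push Not at hcon
      -- every member of F a meets the union of the previous sets
      let U : Set β := ⋃ b : {b // r b a}, c b.1
      have hUcard : #U < κ := by
        have hseg : #{b // r b a} < κ := by
          have h1 : Ordinal.typein r a < Ordinal.type r := Ordinal.typein_lt_type r a
          rw [← hr, Cardinal.lt_ord] at h1
          have h2 : #{b // r b a} = (Ordinal.typein r a).card := (Ordinal.card_typein (r := r) a).symm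
          rw [h2]
          exact h1.trans_le hα
        by_cases hinf : #{b // r b a} < ℵ₀
        · have : Finite {b // r b a} := Cardinal.lt_aleph0_iff_finite.mp hinf
          have hUf : U.Finite := Set.finite_iUnion (fun b => hfin b.1 _ (ih b.1 b.2).1)
          exact (Cardinal.lt_aleph0_iff_finite.mpr hUf).trans_le hκ
        · push Not at hinf
          have h3 : #U ≤ #{b // r b a} * ⨆ b : {b // r b a}, #(c b.1) := Cardinal.mk_iUnion_le _
          have h4 : (⨆ b : {b // r b a}, #(c b.1)) ≤ ℵ₀ := by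
            apply ciSup_le'
            intro b
            exact (Cardinal.lt_aleph0_iff_finite.mpr (hfin b.1 _ (ih b.1 b.2).1)).le
          calc #U ≤ #{b // r b a} * ⨆ b : {b // r b a}, #(c b.1) := h3
            _ ≤ #{b // r b a} * ℵ₀ := by gcongr
            _ = #{b // r b a} := Cardinal.mul_aleph0_eq hinf
            _ < κ := hseg
      have hmeet : ∀ s : F a, ∃ x : U, x.1 ∈ s.1 := by
        rintro ⟨s, hs⟩
        obtain ⟨b, hb, hnd⟩ := hcon s hs
        rw [Set.not_disjoint_iff] at hnd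
        obtain ⟨x, hxs, hxc⟩ := hnd
        exact ⟨⟨x, Set.mem_iUnion.mpr ⟨⟨b, hb⟩, hxc⟩⟩, hxs⟩
      choose g hg using hmeet
      have hginj : Function.Injective g := by
        intro s t hst
        by_contra hne
        have hne' : s.1 ≠ t.1 := fun h => hne (Subtype.ext h)
        have := hdisj a s.2 t.2 hne'
        rw [Function.onFun, Set.disjoint_iff_forall_ne] at this
        exact this (hg s) (hst ▸ hg t) rfl
      have : #(F a) ≤ #U := Cardinal.mk_le_of_injective hginj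
      exact absurd ((hF a).trans this) (not_le.mpr hUcard)
    have h5 : c a = hex.choose := by
      rw [hc a]
      exact dif_pos hex
    rw [h5]
    exact ⟨hex.choose_spec.1, fun b hb => hex.choose_spec.2 b hb⟩
  refine ⟨c, fun a => (key a).1, fun a b hab => ?_⟩
  rcases trichotomous_of r a b with h | h | h
  · exact ((key b).2 a h).symm
  · exact absurd h hab
  · exact (key a).2 b h


end


section basic
variable {L : Type} [CompleteLattice L] [IsAtomistic L] [IsUpperModularLattice L]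

theorem exists_point {p y w : L} (hpy : p ≤ y) (hpw : p ≤ w) (hwy : ¬ w ≤ y) :
    ∃ a, p ⋖ a ∧ a ≤ w ∧ ¬ a ≤ y := by
  rw [le_iff_atom_le_imp] at hwy
  simp only [not_forall] at hwy
  obtain ⟨c, hc, hcw, hcy⟩ := hwy
  refine ⟨c ⊔ p, ?_, sup_le hcw hpw, fun h => hcy (le_sup_left.trans h)⟩
  apply covBy_sup_of_inf_covBy_left
  have : c ⊓ p = ⊥ := by
    rcases hc.le_iff.mp (inf_le_left : c ⊓ p ≤ c) with h | h
    · exact h
    · exact absurd ((inf_eq_left.mp h).trans hpy) hcy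
  rw [this]
  exact hc.bot_covBy

theorem cov_sup {p a y : L} (hpa : p ⋖ a) (hpy : p ≤ y) (hay : ¬ a ≤ y) : y ⋖ a ⊔ y := by
  apply covBy_sup_of_inf_covBy_left
  have h1 : p ≤ a ⊓ y := le_inf hpa.le hpy
  have h2 : a ⊓ y ≤ a := inf_le_left
  rcases hpa.eq_or_eq h1 h2 with h | h
  · rw [h]; exact hpa
  · exact absurd (inf_eq_left.mp h) hay

theorem exists_hyper [WellFoundedGT L] {p a y K : L} (hpa : p ⋖ a) (hpy : p ≤ y) (hyK : y ≤ K)
    (haK : a ≤ K) (hay : ¬ a ≤ y) : ∃ A, y ≤ A ∧ A ⋖ K ∧ ¬ a ≤ A := by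
  have hwf : WellFounded ((· > ·) : L → L → Prop) := wellFounded_gt
  obtain ⟨A, ⟨hyA, hAK, haA⟩, hmax⟩ := hwf.has_min {A : L | y ≤ A ∧ A ≤ K ∧ ¬ a ≤ A} ⟨y, le_rfl, hyK, hay⟩
  refine ⟨A, hyA, ?_, haA⟩
  have hc : A ⋖ a ⊔ A := cov_sup hpa (hpy.trans hyA) haA
  have hle : a ⊔ A ≤ K := sup_le haK hAK
  by_cases hEq : a ⊔ A = K
  · rw [← hEq]; exact hc
  · exfalso
    have hnK : ¬ K ≤ a ⊔ A := fun h => hEq (le_antisymm hle h)
    obtain ⟨b, hpb, hbK, hb⟩ := exists_point (hpa.le.trans le_sup_left : p ≤ a ⊔ A) (hpa.le.trans haK) hnK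
    have hbA : ¬ b ≤ A := fun h => hb (h.trans le_sup_right)
    have hcb : A ⋖ b ⊔ A := cov_sup hpb (hpy.trans hyA) hbA
    have hna : ¬ a ≤ b ⊔ A := by
      intro h
      have h1 : a ⊔ A ≤ b ⊔ A := sup_le h le_sup_right
      rcases hcb.eq_or_eq hc.le h1 with h2 | h2
      · exact hc.ne h2.symm
      · exact hb (h2 ▸ le_sup_left)
    exact hmax (b ⊔ A) ⟨hyA.trans le_sup_right, sup_le hbK hAK, hna⟩ hcb.lt

/-- maximal chains in the open interval from `p` to the top. -/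
def MC (p : L) (m : Set L) : Prop :=
  (∀ x ∈ m, p < x ∧ x < ⊤) ∧ IsChain (· ≤ ·) m ∧
    ∀ m' : Set L, (∀ x ∈ m', p < x ∧ x < ⊤) → IsChain (· ≤ ·) m' → m ⊆ m' → m' = m

omit [IsAtomistic L] [IsUpperModularLattice L] in
theorem exists_MC {p : L} {c : Set L} (hc : ∀ x ∈ c, p < x ∧ x < ⊤) (hch : IsChain (· ≤ ·) c) :
    ∃ m, c ⊆ m ∧ MC p m := by
  obtain ⟨m, hcm, hm⟩ := zorn_subset_nonempty
    {m : Set L | (∀ x ∈ m, p < x ∧ x < ⊤) ∧ IsChain (· ≤ ·) m} (by
      intro C hC hCc _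
      refine ⟨⋃₀ C, ⟨?_, ?_⟩, fun s hs => Set.subset_sUnion_of_mem hs⟩
      · rintro x ⟨s, hs, hxs⟩
        exact (hC hs).1 x hxs
      · rintro x ⟨s, hs, hxs⟩ y ⟨t, ht, hyt⟩ hxy
        rcases hCc.total hs ht with h | h
        · exact (hC ht).2 (h hxs) hyt hxy
        · exact (hC hs).2 hxs (h hyt) hxy) c ⟨hc, hch⟩
  refine ⟨m, hcm, hm.prop.1, hm.prop.2, fun m' h1 h2 h3 => ?_⟩
  exact (hm.eq_of_subset ⟨h1, h2⟩ h3).symm

omit [IsAtomistic L] [IsUpperModularLattice L] in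
/-- if `p ⋖ x` then a maximal chain over `x` together with `x` is a maximal chain over `p`. -/
theorem MC_insert {p x : L} (hpx : p ⋖ x) (hx : x < ⊤) {m : Set L} (hm : MC x m) :
    MC p (insert x m) := by
  obtain ⟨h1, h2, h3⟩ := hm
  refine ⟨?_, ?_, ?_⟩
  · rintro y (rfl | hy)
    · exact ⟨hpx.lt, hx⟩
    · exact ⟨hpx.lt.trans (h1 y hy).1, (h1 y hy).2⟩
  · apply h2.insert
    intro b hb _
    exact Or.inl (h1 b hb).1.le
  · intro m' h1' h2' hsub
    have hxm' : x ∈ m' := hsub (Set.mem_insert _ _)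
    have key : m' \ {x} = m := by
      apply h3
      · rintro y ⟨hy, hyx⟩
        refine ⟨?_, (h1' y hy).2⟩
        have hyx' : y ≠ x := hyx
        rcases h2' hy hxm' hyx' with h | h
        · exfalso
          have : y < x := lt_of_le_of_ne h hyx'
          exact hpx.2 (h1' y hy).1 this
        · exact lt_of_le_of_ne h (Ne.symm hyx')
      · exact h2'.mono Set.sdiff_subset
      · intro y hy
        refine ⟨hsub (Set.mem_insert_of_mem _ hy), ?_⟩
        exact (h1 y hy).1.ne'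
    rw [← key, Set.insert_sdiff_singleton, Set.insert_eq_of_mem hxm']

omit [IsAtomistic L] [IsUpperModularLattice L] in
/-- members of a chain through a point over `p` lie above it. -/
theorem MC_above {p a : L} (hpa : p ⋖ a) {m : Set L} (hm : MC p m) (ha : a ∈ m) {x : L} (hx : x ∈ m) :
    a ≤ x := by
  by_cases h : x = a
  · rw [h]
  · rcases hm.2.1 hx ha h with h' | h'
    · exact absurd (lt_of_le_of_ne h' h) (hpa.2 (hm.1 x hx).1)
    · exact h'

omit [IsAtomistic L] [IsUpperModularLattice L] in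
/-- in a maximal chain containing `a ⋖ b`, every member is `≤ a` or `≥ b`. -/
theorem MC_gap {p a b : L} (hab : a ⋖ b) {m : Set L} (hm : MC p m) (ha : a ∈ m) (hb : b ∈ m) {x : L}
    (hx : x ∈ m) : x ≤ a ∨ b ≤ x := by
  by_cases h : x = a
  · left; rw [h]
  · by_cases h' : x = b
    · right; rw [h']
    rcases hm.2.1 hx ha h with h1 | h1
    · left; exact h1
    · rcases hm.2.1 hx hb h' with h2 | h2
      · exfalso
        exact hab.2 (lt_of_le_of_ne h1 (Ne.symm h)) (lt_of_le_of_ne h2 h')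
      · right; exact h2

omit [IsAtomistic L] [IsUpperModularLattice L] in
/-- members of a chain through a coatom lie below it. -/
theorem MC_below {p H : L} (hH : IsCoatom H) {m : Set L} (hm : MC p m) (h : H ∈ m) {x : L} (hx : x ∈ m) :
    x ≤ H := by
  by_cases h' : x = H
  · rw [h']
  · rcases hm.2.1 hx h h' with h1 | h1
    · exact h1
    · exact absurd (hH.2 x (lt_of_le_of_ne h1 (Ne.symm h'))) (hm.1 x hx).2.ne



omit [IsUpperModularLattice L] [IsAtomistic L] in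
theorem sup_eq_of_cov {x a b : L} (h : x ⋖ b) (hab : a ≤ b) (hax : ¬ a ≤ x) : a ⊔ x = b := by
  rcases h.eq_or_eq (le_sup_right : x ≤ a ⊔ x) (sup_le hab h.le) with h1 | h1
  · exact absurd (h1 ▸ le_sup_left) hax
  · exact h1

theorem points_finite {p x : L} (hpx : p ≤ x) (hfin : {a : L | p ⋖ a}.Finite) :
    {a : L | x ⋖ a}.Finite := by
  apply (hfin.image (fun a => a ⊔ x)).subset
  intro b hb
  have hb' : x ⋖ b := hb
  obtain ⟨a, hpa, hab, hax⟩ := exists_point hpx (hpx.trans hb'.le) (not_le_of_gt hb'.lt)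
  exact ⟨a, hpa, sup_eq_of_cov hb' hab hax⟩

theorem coatoms_finite {p : L} (hfin : {a : L | p ⋖ a}.Finite) :
    {K : L | IsCoatom K ∧ p ≤ K}.Finite := by
  have : Set.InjOn (fun K : L => {a : L | p ⋖ a ∧ a ≤ K}) {K : L | IsCoatom K ∧ p ≤ K} := by
    rintro K ⟨_, hpK⟩ K' ⟨_, hpK'⟩ h
    have h' : {a : L | p ⋖ a ∧ a ≤ K} = {a : L | p ⋖ a ∧ a ≤ K'} := h
    apply le_antisymm
    · by_contra hc
      obtain ⟨a, h1, h2, h3⟩ := exists_point hpK' hpK hc
      have : a ∈ {a : L | p ⋖ a ∧ a ≤ K'} := h' ▸ ⟨h1, h2⟩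
      exact h3 this.2
    · by_contra hc
      obtain ⟨a, h1, h2, h3⟩ := exists_point hpK hpK' hc
      have : a ∈ {a : L | p ⋖ a ∧ a ≤ K} := h' ▸ ⟨h1, h2⟩
      exact h3 this.2
  apply Set.Finite.of_finite_image _ this
  apply (hfin.finite_subsets).subset
  rintro _ ⟨K, _, rfl⟩
  exact fun a ha => ha.1

theorem hyper_count [WellFoundedGT L] (p : L) : p < ⊤ → ∀ (hfin : {a : L | p ⋖ a}.Finite),
    {a : L | p ⋖ a}.ncard ≤ {K : L | IsCoatom K ∧ p ≤ K}.ncard := by
  classical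
  have hwf : WellFounded ((· > ·) : L → L → Prop) := wellFounded_gt
  induction p using hwf.induction with
  | _ p ih =>
  intro hp hfin
  by_cases hco : IsCoatom p
  · have h1 : {a : L | p ⋖ a} = {⊤} := by
      ext a
      constructor
      · intro ha
        have ha' : p ⋖ a := ha
        exact hco.2 a ha'.lt
      · rintro rfl
        exact hco.covBy_top
    have h2 : {K : L | IsCoatom K ∧ p ≤ K} = {p} := by
      ext K
      constructor
      · rintro ⟨h, h'⟩
        rcases h'.lt_or_eq with h3 | h3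
        · exact absurd (hco.2 K h3) h.1
        · exact h3.symm
      · rintro rfl
        exact ⟨hco, le_rfl⟩
    rw [h1, h2]
    simp
  · have hCfin := coatoms_finite hfin
    rw [Set.ncard_eq_toFinset_card _ hfin, Set.ncard_eq_toFinset_card _ hCfin]
    have hlt : ∀ x, p ⋖ x → x < ⊤ := by
      intro x hx
      rw [lt_top_iff_ne_top]
      rintro rfl
      exact hco (covBy_top_iff.mp hx)
    have hne : (⊤ : L) ≠ p := hp.ne'
    -- points exist
    obtain ⟨x0, hx0, -, -⟩ := exists_point (le_refl p) (le_top : p ≤ ⊤) (not_le_of_gt hp)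
    apply count_aux hfin.toFinset hCfin.toFinset (fun x K => x ≤ K)
    · exact ⟨x0, by simpa using hx0⟩
    · intro x hx
      simp only [Set.Finite.mem_toFinset, Set.mem_ofPred_eq] at hx ⊢
      obtain ⟨a, hpa, -, hax⟩ := exists_point hx.le (le_top : p ≤ ⊤) (not_le_of_gt (hlt x hx))
      have hxa : ¬ x ≤ a := by
        intro h
        rcases hpa.eq_or_eq hx.le h with h1 | h1
        · exact hx.ne h1.symm
        · exact hax h1.symm.le
      obtain ⟨H, h1, h2, h3⟩ := exists_hyper hx hpa.le (le_top : a ≤ ⊤) le_top hxa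
      exact ⟨H, ⟨covBy_top_iff.mp h2, hpa.le.trans h1⟩, h3⟩
    · intro K hK
      simp only [Set.Finite.mem_toFinset, Set.mem_ofPred_eq] at hK ⊢
      obtain ⟨a, hpa, -, haK⟩ := exists_point hK.2 (le_top : p ≤ ⊤) (not_le_of_gt (lt_top_iff_ne_top.mpr hK.1.1))
      exact ⟨a, hpa, haK⟩
    · intro x hx
      simp only [Set.Finite.mem_toFinset, Set.mem_ofPred_eq] at hx ⊢
      obtain ⟨a, hpa, -, hax⟩ := exists_point hx.le (le_top : p ≤ ⊤) (not_le_of_gt (hlt x hx))
      obtain ⟨H, h1, h2, h3⟩ := exists_hyper hpa hx.le (le_top : x ≤ ⊤) le_top hax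
      exact ⟨H, ⟨covBy_top_iff.mp h2, hx.le.trans h1⟩, h1⟩
    · intro x hx K hK hxK
      simp only [Set.Finite.mem_toFinset, Set.mem_ofPred_eq] at hx hK
      have hxfin := points_finite hx.le hfin
      have h1 := ih x hx.lt (hlt x hx) hxfin
      have hxCfin := coatoms_finite hxfin
      rw [Set.ncard_eq_toFinset_card _ hxfin, Set.ncard_eq_toFinset_card _ hxCfin] at h1
      calc (hfin.toFinset.filter (fun y => y ≤ K)).card ≤ hxfin.toFinset.card := by
            apply Finset.card_le_card_of_injOn (fun a => a ⊔ x)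
            · intro a ha
              simp only [Finset.coe_filter, Set.Finite.mem_toFinset, Set.mem_ofPred_eq] at ha
              simp only [Set.Finite.coe_toFinset, Set.mem_ofPred_eq]
              apply cov_sup ha.1 hx.le
              intro h
              rcases hx.eq_or_eq ha.1.le h with h2 | h2
              · exact ha.1.ne h2.symm
              · exact hxK (h2 ▸ ha.2)
            · intro a ha a' ha' haa
              simp only [Finset.coe_filter, Set.Finite.mem_toFinset, Set.mem_ofPred_eq] at ha ha'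
              have haa' : a ⊔ x = a' ⊔ x := haa
              by_contra hne'
              have hxa : ¬ x ≤ a := by
                intro h
                exact hxK (h.trans ha.2)
              have hcov : a ⋖ x ⊔ a := cov_sup hx ha.1.le hxa
              have ha'a : ¬ a' ≤ a := by
                intro h
                rcases ha.1.eq_or_eq ha'.1.le h with h2 | h2
                · exact ha'.1.ne h2.symm
                · exact hne' h2.symm
              have h2 : a' ⊔ a ≤ x ⊔ a := by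
                apply sup_le _ le_sup_right
                rw [sup_comm x a, haa']
                exact le_sup_left
              have h3 : a' ⊔ a = x ⊔ a := sup_eq_of_cov hcov (le_sup_left.trans h2) ha'a
              exact hxK ((le_sup_left.trans h3.ge).trans (sup_le ha'.2 ha.2))
        _ ≤ hxCfin.toFinset.card := h1
        _ = (hCfin.toFinset.filter (fun H => x ≤ H)).card := by
            congr 1
            ext H
            simp only [Set.Finite.mem_toFinset, Set.mem_ofPred_eq, Finset.mem_filter]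
            constructor
            · rintro ⟨h, h'⟩
              exact ⟨⟨h, hx.le.trans h'⟩, h'⟩
            · rintro ⟨⟨h, _⟩, h'⟩
              exact ⟨h, h'⟩


/-- For a line `ℓ` over `p` spanned by two points, every point below it is covered by it, and two
distinct points span it. -/
theorem line_cov {p x y t : L} (hx : p ⋖ x) (hy : p ⋖ y) (hxy : x ≠ y) (ht : p ⋖ t)
    (htl : t ≤ x ⊔ y) : t ⋖ x ⊔ y := by
  have nle : ∀ {u v : L}, p ⋖ u → p ⋖ v → u ≠ v → ¬ u ≤ v := by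
    intro u v hu hv huv h
    rcases hv.eq_or_eq hu.le h with h1 | h1
    · exact hu.ne h1.symm
    · exact huv h1
  have hxl : x ⋖ x ⊔ y := by
    rw [sup_comm]
    exact cov_sup hy hx.le (nle hy hx (Ne.symm hxy))
  by_cases htx : t = x
  · rw [htx]; exact hxl
  · have h1 : t ⊔ x = x ⊔ y := sup_eq_of_cov hxl htl (nle ht hx htx)
    rw [← h1, sup_comm]
    exact cov_sup hx ht.le (nle hx ht (Ne.symm htx))

omit [IsUpperModularLattice L] [IsAtomistic L] in
theorem point_nle {p u v : L} (hu : p ⋖ u) (hv : p ⋖ v) (huv : u ≠ v) : ¬ u ≤ v := by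
  intro h
  rcases hv.eq_or_eq hu.le h with h1 | h1
  · exact hu.ne h1.symm
  · exact huv h1

/-- non-coloop case -/
theorem caseQ [WellFoundedGT L] {p ℓ t z : L} (ht : p ⋖ t) (htl : t ⋖ ℓ) (hz : p ⋖ z) (hzl : ¬ z ≤ ℓ)
    (hT : ∃ H H', IsCoatom H ∧ IsCoatom H' ∧ t ≤ H ∧ t ≤ H' ∧ ¬ ℓ ≤ H ∧ ¬ ℓ ≤ H' ∧ H ≠ H') :
    ∃ m m', MC p m ∧ t ∈ m ∧ (∀ F ∈ m, ¬ ℓ ≤ F) ∧ MC p m' ∧ z ∈ m' ∧
      (∀ F ∈ m', F = z ∨ (t ≤ F ∧ ¬ ℓ ≤ F)) ∧ Disjoint m m' := by
  have htz : t ≠ z := by rintro rfl; exact hzl htl.le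
  have hzt' : ¬ z ≤ t := point_nle hz ht (Ne.symm htz)
  have htz' : ¬ t ≤ z := point_nle ht hz htz
  have c1 : t ⋖ z ⊔ t := cov_sup hz ht.le hzt'
  have c2 : z ⋖ z ⊔ t := by rw [sup_comm]; exact cov_sup ht hz.le htz'
  have hl : ¬ ℓ ≤ z ⊔ t := by
    intro h
    rcases c1.eq_or_eq htl.le h with h1 | h1
    · exact htl.ne h1.symm
    · exact hzl (h1 ▸ le_sup_left)
  obtain ⟨u, hpu, hul, hu⟩ := exists_point (ht.le.trans le_sup_right : p ≤ z ⊔ t) (ht.le.trans htl.le) hl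
  obtain ⟨H, hH1, hH2, hH3⟩ := exists_hyper hpu (ht.le.trans le_sup_right : p ≤ z ⊔ t) le_top le_top hu
  have hHc : IsCoatom H := covBy_top_iff.mp hH2
  have hHl : ¬ ℓ ≤ H := fun h => hH3 (hul.trans h)
  have htH : t ≤ H := le_sup_right.trans hH1
  obtain ⟨H', hH'c, htH', hH'l, hne⟩ : ∃ H', IsCoatom H' ∧ t ≤ H' ∧ ¬ ℓ ≤ H' ∧ H' ≠ H := by
    obtain ⟨H1, H2, a1, a2, a3, a4, a5, a6, a7⟩ := hT
    by_cases h : H1 = H
    · exact ⟨H2, a2, a4, a6, fun h' => a7 (h.trans h'.symm)⟩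
    · exact ⟨H1, a1, a3, a5, h⟩
  have hnle : ¬ H' ≤ H := by
    intro h
    rcases h.lt_or_eq with h1 | h1
    · exact hHc.1 (hH'c.2 H h1)
    · exact hne h1
  obtain ⟨b, hpb, hbH', hbH⟩ := exists_point (ht.le.trans htH) (ht.le.trans htH') hnle
  have hbt : ¬ b ≤ t := fun h => hbH (h.trans htH)
  have c3 : t ⋖ b ⊔ t := cov_sup hpb ht.le hbt
  have hbtH' : b ⊔ t ≤ H' := sup_le hbH' htH'
  have hH't : H' < ⊤ := lt_top_iff_ne_top.mpr hH'c.1
  have hHt : H < ⊤ := lt_top_iff_ne_top.mpr hHc.1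
  obtain ⟨m, hm1, hm2⟩ := exists_MC (p := p) (c := {t, b ⊔ t, H'}) (by
    rintro x (rfl | rfl | rfl)
    · exact ⟨ht.lt, c3.lt.trans_le (hbtH'.trans hH't.le)⟩
    · exact ⟨ht.lt.trans c3.lt, hbtH'.trans_lt hH't⟩
    · exact ⟨ht.lt.trans_le htH', hH't⟩) (by
    rintro x (rfl | rfl | rfl) y (rfl | rfl | rfl) hxy
    · exact absurd rfl hxy
    · exact Or.inl c3.le
    · exact Or.inl htH'
    · exact Or.inr c3.le
    · exact absurd rfl hxy
    · exact Or.inl hbtH'
    · exact Or.inr htH'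
    · exact Or.inr hbtH'
    · exact absurd rfl hxy)
  obtain ⟨m', hm'1, hm'2⟩ := exists_MC (p := p) (c := {z, z ⊔ t, H}) (by
    rintro x (rfl | rfl | rfl)
    · exact ⟨hz.lt, c2.lt.trans_le (hH1.trans hHt.le)⟩
    · exact ⟨ht.lt.trans c1.lt, hH1.trans_lt hHt⟩
    · exact ⟨ht.lt.trans_le htH, hHt⟩) (by
    rintro x (rfl | rfl | rfl) y (rfl | rfl | rfl) hxy
    · exact absurd rfl hxy
    · exact Or.inl c2.le
    · exact Or.inl (le_sup_left.trans hH1)
    · exact Or.inr c2.le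
    · exact absurd rfl hxy
    · exact Or.inl hH1
    · exact Or.inr (le_sup_left.trans hH1)
    · exact Or.inr hH1
    · exact absurd rfl hxy)
  have tm : t ∈ m := hm1 (by simp)
  have btm : b ⊔ t ∈ m := hm1 (by simp)
  have Hm : H' ∈ m := hm1 (by simp)
  have zm : z ∈ m' := hm'1 (by simp)
  have ztm : z ⊔ t ∈ m' := hm'1 (by simp)
  have Hm' : H ∈ m' := hm'1 (by simp)
  have q' : ∀ F ∈ m', F = z ∨ z ⊔ t ≤ F := by
    intro F hF
    rcases MC_gap c2 hm'2 zm ztm hF with h | h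
    · exact Or.inl (le_antisymm h (MC_above hz hm'2 zm hF))
    · exact Or.inr h
  refine ⟨m, m', hm2, tm, ?_, hm'2, zm, ?_, ?_⟩
  · intro F hF h
    exact hH'l (h.trans (MC_below hH'c hm2 Hm hF))
  · intro F hF
    rcases q' F hF with h | h
    · exact Or.inl h
    · exact Or.inr ⟨le_sup_right.trans h, fun h' => hHl (h'.trans (MC_below hHc hm'2 Hm' hF))⟩
  · rw [Set.disjoint_left]
    intro F hF hF'
    have hFH : F ≤ H := MC_below hHc hm'2 Hm' hF'
    rcases MC_gap c3 hm2 tm btm hF with h | h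
    · have hFt : F = t := le_antisymm h (MC_above ht hm2 tm hF)
      rcases q' F hF' with h1 | h1
      · exact htz (hFt.symm.trans h1)
      · exact hzt' (le_sup_left.trans (hFt ▸ h1))
    · exact hbH (le_sup_left.trans (h.trans hFH))

/-- coloop (direct sum) case -/
theorem caseQ' [WellFoundedGT L] {p ℓ t t' z K H : L} (ht : p ⋖ t) (htl : t ⋖ ℓ) (ht' : p ⋖ t') (ht'l : t' ≤ ℓ)
    (htt' : t' ≠ t) (hz : p ⋖ z) (hzl : ¬ z ≤ ℓ)
    (hK : IsCoatom K) (hlK : ℓ ≤ K) (hKz : K ≠ z ⊔ ℓ)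
    (hH : IsCoatom H) (htH : t ≤ H) (hlH : ¬ ℓ ≤ H) (hzH : z ≤ H)
    (hall : ∀ F, t ≤ F → ¬ ℓ ≤ F → F ≤ H) :
    ∃ m m', MC p m ∧ t ∈ m ∧ (∀ F ∈ m, F = K ∨ ¬ ℓ ≤ F) ∧ MC p m' ∧ z ∈ m' ∧
      (∀ F ∈ m', F = z ∨ (t ≤ F ∧ ¬ ℓ ≤ F)) ∧ Disjoint m m' := by
  have htz : t ≠ z := by rintro rfl; exact hzl htl.le
  have hzt' : ¬ z ≤ t := point_nle hz ht (Ne.symm htz)
  have htz' : ¬ t ≤ z := point_nle ht hz htz
  have c1 : t ⋖ z ⊔ t := cov_sup hz ht.le hzt'
  have c2 : z ⋖ z ⊔ t := by rw [sup_comm]; exact cov_sup ht hz.le htz'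
  have hztH : z ⊔ t ≤ H := sup_le hzH htH
  have hl : ¬ ℓ ≤ z ⊔ t := fun h => hlH (h.trans hztH)
  have hKt : K < ⊤ := lt_top_iff_ne_top.mpr hK.1
  have hHt : H < ⊤ := lt_top_iff_ne_top.mpr hH.1
  have htK : t ≤ K := htl.le.trans hlK
  have hlz : ¬ ℓ ≤ z := fun h => htz' (htl.le.trans h)
  obtain ⟨A, hA1, hA2, hA3⟩ := exists_hyper ht' ht.le htK (ht'l.trans hlK) (point_nle ht' ht htt')
  have hlA : ¬ ℓ ≤ A := fun h => hA3 (ht'l.trans h)
  have hAH : A ≤ H := hall A hA1 hlA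
  -- generic facts on the second chain
  by_cases hAt : A = t
  · subst hAt
    obtain ⟨m, hm1, hm2⟩ := exists_MC (p := p) (c := {A, K}) (by
      rintro x (rfl | rfl)
      · exact ⟨ht.lt, htK.trans_lt hKt⟩
      · exact ⟨ht.lt.trans_le htK, hKt⟩) (by
      rintro x (rfl | rfl) y (rfl | rfl) hxy
      · exact absurd rfl hxy
      · exact Or.inl htK
      · exact Or.inr htK
      · exact absurd rfl hxy)
    obtain ⟨m', hm'1, hm'2⟩ := exists_MC (p := p) (c := {z, z ⊔ A, H}) (by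
      rintro x (rfl | rfl | rfl)
      · exact ⟨hz.lt, c2.lt.trans_le (hztH.trans hHt.le)⟩
      · exact ⟨ht.lt.trans c1.lt, hztH.trans_lt hHt⟩
      · exact ⟨ht.lt.trans_le htH, hHt⟩) (by
      rintro x (rfl | rfl | rfl) y (rfl | rfl | rfl) hxy
      · exact absurd rfl hxy
      · exact Or.inl c2.le
      · exact Or.inl hzH
      · exact Or.inr c2.le
      · exact absurd rfl hxy
      · exact Or.inl hztH
      · exact Or.inr hzH
      · exact Or.inr hztH
      · exact absurd rfl hxy)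
    have tm : A ∈ m := hm1 (by simp)
    have Km : K ∈ m := hm1 (by simp)
    have zm : z ∈ m' := hm'1 (by simp)
    have ztm : z ⊔ A ∈ m' := hm'1 (by simp)
    have Hm' : H ∈ m' := hm'1 (by simp)
    have q : ∀ F ∈ m, F = A ∨ F = K := by
      intro F hF
      rcases MC_gap hA2 hm2 tm Km hF with h | h
      · exact Or.inl (le_antisymm h (MC_above ht hm2 tm hF))
      · exact Or.inr (le_antisymm (MC_below hK hm2 Km hF) h)
    have q' : ∀ F ∈ m', F = z ∨ z ⊔ A ≤ F := by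
      intro F hF
      rcases MC_gap c2 hm'2 zm ztm hF with h | h
      · exact Or.inl (le_antisymm h (MC_above hz hm'2 zm hF))
      · exact Or.inr h
    refine ⟨m, m', hm2, tm, ?_, hm'2, zm, ?_, ?_⟩
    · intro F hF
      rcases q F hF with h | h
      · right; rw [h]; exact hlA
      · left; exact h
    · intro F hF
      rcases q' F hF with h | h
      · exact Or.inl h
      · exact Or.inr ⟨le_sup_right.trans h, fun h' => hlH (h'.trans (MC_below hH hm'2 Hm' hF))⟩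
    · rw [Set.disjoint_left]
      intro F hF hF'
      have hFH : F ≤ H := MC_below hH hm'2 Hm' hF'
      rcases q F hF with h | h
      · rcases q' F hF' with h1 | h1
        · exact htz (h.symm.trans h1)
        · exact hzt' (le_sup_left.trans (h ▸ h1))
      · exact hlH (hlK.trans (h ▸ hFH))
  · have htA : t < A := lt_of_le_of_ne hA1 (Ne.symm hAt)
    have hAzt : ¬ A ≤ z ⊔ t := by
      intro h
      have hEq : A = z ⊔ t := by
        rcases c1.eq_or_eq hA1 h with h1 | h1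
        · exact absurd h1 hAt
        · exact h1
      have hzK : z ≤ K := (le_sup_left.trans hEq.ge).trans hA2.le
      have h2 : z ⊔ ℓ ≤ K := sup_le hzK hlK
      have h3 : A ≤ z ⊔ ℓ := by rw [hEq]; exact sup_le_sup_left htl.le z
      rcases hA2.eq_or_eq h3 h2 with h4 | h4
      · exact hlA (le_sup_right.trans h4.le)
      · exact hKz h4.symm
    obtain ⟨a, hpa, haA, haz⟩ := exists_point (ht.le.trans le_sup_right : p ≤ z ⊔ t) (ht.le.trans hA1) hAzt
    obtain ⟨B, hB1, hB2, hB3⟩ := exists_hyper hpa (ht.le.trans le_sup_right : p ≤ z ⊔ t) hztH (haA.trans hAH) haz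
    have hat : ¬ a ≤ t := fun h => haz (h.trans le_sup_right)
    have c3 : t ⋖ a ⊔ t := cov_sup hpa ht.le hat
    have hatA : a ⊔ t ≤ A := sup_le haA hA1
    obtain ⟨m, hm1, hm2⟩ := exists_MC (p := p) (c := {t, a ⊔ t, A, K}) (by
      rintro x (rfl | rfl | rfl | rfl)
      · exact ⟨ht.lt, htK.trans_lt hKt⟩
      · exact ⟨ht.lt.trans c3.lt, (hatA.trans hA2.le).trans_lt hKt⟩
      · exact ⟨ht.lt.trans_le hA1, hA2.lt.trans hKt⟩
      · exact ⟨ht.lt.trans_le htK, hKt⟩) (by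
      rintro x (rfl | rfl | rfl | rfl) y (rfl | rfl | rfl | rfl) hxy
      · exact absurd rfl hxy
      · exact Or.inl c3.le
      · exact Or.inl hA1
      · exact Or.inl htK
      · exact Or.inr c3.le
      · exact absurd rfl hxy
      · exact Or.inl hatA
      · exact Or.inl (hatA.trans hA2.le)
      · exact Or.inr hA1
      · exact Or.inr hatA
      · exact absurd rfl hxy
      · exact Or.inl hA2.le
      · exact Or.inr htK
      · exact Or.inr (hatA.trans hA2.le)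
      · exact Or.inr hA2.le
      · exact absurd rfl hxy)
    have hBt : B < ⊤ := hB2.lt.trans hHt
    obtain ⟨m', hm'1, hm'2⟩ := exists_MC (p := p) (c := {z, z ⊔ t, B, H}) (by
      rintro x (rfl | rfl | rfl | rfl)
      · exact ⟨hz.lt, c2.lt.trans_le (hztH.trans hHt.le)⟩
      · exact ⟨ht.lt.trans c1.lt, hztH.trans_lt hHt⟩
      · exact ⟨ht.lt.trans_le (le_sup_right.trans hB1), hBt⟩
      · exact ⟨ht.lt.trans_le htH, hHt⟩) (by
      rintro x (rfl | rfl | rfl | rfl) y (rfl | rfl | rfl | rfl) hxy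
      · exact absurd rfl hxy
      · exact Or.inl c2.le
      · exact Or.inl (le_sup_left.trans hB1)
      · exact Or.inl hzH
      · exact Or.inr c2.le
      · exact absurd rfl hxy
      · exact Or.inl hB1
      · exact Or.inl hztH
      · exact Or.inr (le_sup_left.trans hB1)
      · exact Or.inr hB1
      · exact absurd rfl hxy
      · exact Or.inl hB2.le
      · exact Or.inr hzH
      · exact Or.inr hztH
      · exact Or.inr hB2.le
      · exact absurd rfl hxy)
    have tm : t ∈ m := hm1 (by simp)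
    have atm : a ⊔ t ∈ m := hm1 (by simp)
    have Am : A ∈ m := hm1 (by simp)
    have Km : K ∈ m := hm1 (by simp)
    have zm : z ∈ m' := hm'1 (by simp)
    have ztm : z ⊔ t ∈ m' := hm'1 (by simp)
    have Bm' : B ∈ m' := hm'1 (by simp)
    have Hm' : H ∈ m' := hm'1 (by simp)
    have q : ∀ F ∈ m, F ≤ A ∨ F = K := by
      intro F hF
      rcases MC_gap hA2 hm2 Am Km hF with h | h
      · exact Or.inl h
      · exact Or.inr (le_antisymm (MC_below hK hm2 Km hF) h)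
    have q' : ∀ F ∈ m', F = z ∨ z ⊔ t ≤ F := by
      intro F hF
      rcases MC_gap c2 hm'2 zm ztm hF with h | h
      · exact Or.inl (le_antisymm h (MC_above hz hm'2 zm hF))
      · exact Or.inr h
    refine ⟨m, m', hm2, tm, ?_, hm'2, zm, ?_, ?_⟩
    · intro F hF
      rcases q F hF with h | h
      · right; exact fun h' => hlA (h'.trans h)
      · left; exact h
    · intro F hF
      rcases q' F hF with h | h
      · exact Or.inl h
      · exact Or.inr ⟨le_sup_right.trans h, fun h' => hlH (h'.trans (MC_below hH hm'2 Hm' hF))⟩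
    · rw [Set.disjoint_left]
      intro F hF hF'
      have hFH : F ≤ H := MC_below hH hm'2 Hm' hF'
      rcases MC_gap c3 hm2 tm atm hF with h | h
      · have hFt : F = t := le_antisymm h (MC_above ht hm2 tm hF)
        rcases q' F hF' with h1 | h1
        · exact htz (hFt.symm.trans h1)
        · exact hzt' (le_sup_left.trans (hFt ▸ h1))
      · rcases MC_gap hB2 hm'2 Bm' Hm' hF' with h1 | h1
        · exact hB3 (le_sup_left.trans (h.trans h1))
        · have hFH' : F = H := le_antisymm hFH h1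
          rcases q F hF with h2 | h2
          · have : H < K := (hFH' ▸ h2 : H ≤ A).trans_lt hA2.lt
            exact hK.1 (hH.2 K this)
          · exact hlH (hlK.trans (h2.symm.trans hFH').le)

end basic

section

open Cardinal

theorem derange (α : Type) [Nontrivial α] : ∃ σ : α → α, Function.Injective σ ∧ ∀ a, σ a ≠ a := by
  classical
  rcases finite_or_infinite α with hf | hi
  · obtain ⟨n, ⟨e⟩⟩ := Finite.exists_equiv_fin α
    have hn : 2 ≤ n := by
      have h1 : Nat.card α = n := by rw [Nat.card_congr e, Nat.card_fin]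
      have h2 : 1 < Nat.card α := Finite.one_lt_card
      omega
    obtain ⟨k, rfl⟩ : ∃ k, n = k + 2 := ⟨n - 2, by omega⟩
    refine ⟨fun a => e.symm (e a + 1), ?_, ?_⟩
    · intro a b h
      have : e a + 1 = e b + 1 := e.symm.injective h
      exact e.injective (add_right_cancel this)
    · intro a h
      have h1 : e a + 1 = e a := by
        have := congrArg e h
        simp only [Equiv.apply_symm_apply] at this
        exact this
      have h2 : (1 : Fin (k+2)) = 0 := by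
        exact left_eq_add.mp (by rw [h1] : e a = e a + 1)
      exact absurd h2 (by simp)
  · have h : #(α × Bool) = #α := by
      rw [Cardinal.mk_prod]
      simp only [Cardinal.lift_id]
      apply Cardinal.mul_eq_left (Cardinal.infinite_iff.mp hi)
      · exact (Cardinal.lt_aleph0_of_finite Bool).le.trans (Cardinal.infinite_iff.mp hi)
      · exact Cardinal.mk_ne_zero Bool
    obtain ⟨e⟩ := Cardinal.eq.mp h
    refine ⟨fun a => e ((e.symm a).1, !(e.symm a).2), ?_, ?_⟩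
    · intro a b hab
      have h1 := e.injective hab
      have h2 : (e.symm a).1 = (e.symm b).1 := (Prod.mk.inj h1).1
      have h3 : (e.symm a).2 = (e.symm b).2 := by
        have := (Prod.mk.inj h1).2
        simpa using this
      exact e.symm.injective (Prod.ext h2 h3)
    · intro a hab
      have h1 : ((e.symm a).1, !(e.symm a).2) = e.symm a := by
        rw [Equiv.eq_symm_apply]; exact hab
      have h2 := congrArg Prod.snd h1
      simp at h2

theorem inj_of_card {L : Type} {Z P : Set L} (h : #Z ≤ #P) :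
    ∃ τ : L → L, (∀ z ∈ Z, τ z ∈ P) ∧ Set.InjOn τ Z := by
  classical
  obtain ⟨e⟩ := Cardinal.le_def _ _ |>.mp h
  refine ⟨fun x => if hx : x ∈ Z then (e ⟨x, hx⟩ : L) else x, ?_, ?_⟩
  · intro z hz
    simp only [hz, dif_pos]
    exact (e ⟨z, hz⟩).2
  · intro a ha b hb hab
    simp only [ha, hb, dif_pos] at hab
    have := e.injective (Subtype.ext hab)
    exact congrArg Subtype.val this


end

section main
variable {L : Type} [CompleteLattice L] [IsAtomistic L] [IsUpperModularLattice L]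
open Cardinal

/-- A family of pairwise disjoint maximal chains through all points over `p`. -/
def Good (p : L) : Prop :=
  ∃ ch : L → Set L, (∀ a, p ⋖ a → MC p (ch a) ∧ a ∈ ch a) ∧
    ∀ a b, p ⋖ a → p ⋖ b → a ≠ b → Disjoint (ch a) (ch b)

omit [IsAtomistic L] [IsUpperModularLattice L] in
theorem MC_has_coatom {p : L} {m : Set L} (hm : MC p m) (hfin : m.Finite) {a : L} (ha : a ∈ m) :
    ∃ K ∈ m, IsCoatom K := by
  obtain ⟨K, hK⟩ := hfin.exists_maximal ⟨a, ha⟩
  refine ⟨K, hK.prop, (hm.1 K hK.prop).2.ne, ?_⟩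
  intro b hb
  by_contra hbt
  have hbt' : b < ⊤ := lt_top_iff_ne_top.mpr hbt
  have h1 : insert b m = m := by
    apply hm.2.2
    · rintro x (rfl | hx)
      · exact ⟨(hm.1 K hK.prop).1.trans hb, hbt'⟩
      · exact hm.1 x hx
    · apply hm.2.1.insert
      intro y hy _
      right
      -- y ≤ K < b
      have : y ≤ K := by
        by_cases h : y = K
        · exact h.le
        · rcases hm.2.1 hy hK.prop h with h' | h'
          · exact h'
          · exact hK.le_of_ge hy h'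
      exact this.trans hb.le
    · exact Set.subset_insert _ _
  have hbm : b ∈ m := h1 ▸ Set.mem_insert b m
  exact absurd (hK.le_of_ge hbm hb.le) (not_le_of_gt hb)

theorem case_one [WellFoundedGT L] (hfc : ∀ m : Set L, IsChain (· ≤ ·) m → m.Finite) {p : L}
    (hinf : {a : L | p ⋖ a}.Infinite) (ih : ∀ q, p < q → {a : L | q ⋖ a}.Infinite → Good q)
    (hbad : ∀ x y, p ⋖ x → p ⋖ y → #{b : L | x ⋖ b} < #{a : L | p ⋖ a} →
      #{b : L | y ⋖ b} < #{a : L | p ⋖ a} → x = y) : Good p := by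
  classical
  have hκ : ℵ₀ ≤ #{a : L | p ⋖ a} := by
    rw [Cardinal.aleph0_le_mk_iff]
    exact hinf.to_subtype
  have hltt : ∀ x, p ⋖ x → x < ⊤ := by
    intro x hx
    rw [lt_top_iff_ne_top]
    rintro rfl
    apply hinf
    have : {a : L | p ⋖ a} ⊆ {⊤} := by
      intro a ha
      have ha' : p ⋖ a := ha
      exact (covBy_top_iff.mp hx).2 a ha'.lt
    exact (Set.finite_singleton _).subset this
  obtain ⟨x0, hx0, hx0'⟩ : ∃ x0, p ⋖ x0 ∧ ∀ x, p ⋖ x → x ≠ x0 →
      #{a : L | p ⋖ a} ≤ #{b : L | x ⋖ b} := by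
    by_cases h : ∃ x, p ⋖ x ∧ #{b : L | x ⋖ b} < #{a : L | p ⋖ a}
    · obtain ⟨x, hx, hx'⟩ := h
      refine ⟨x, hx, fun y hy hyx => ?_⟩
      by_contra hc
      exact hyx (hbad y x hy hx (not_le.mp hc) hx')
    · obtain ⟨x, hx⟩ := hinf.nonempty
      refine ⟨x, hx, fun y hy _ => ?_⟩
      by_contra hc
      exact h ⟨y, hy, not_le.mp hc⟩
  obtain ⟨m0, hm0, hm0'⟩ := exists_MC (p := p) (c := {x0}) (by
    rintro x rfl
    exact ⟨hx0.lt, hltt _ hx0⟩) (by
    rintro x rfl y rfl h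
    exact absurd rfl h)
  have hx0m : x0 ∈ m0 := hm0 rfl
  have hm0f : m0.Finite := hfc m0 hm0'.2.1
  -- the families
  have hgood : ∀ x : {x : L // p ⋖ x ∧ x ≠ x0}, Good x.1 := by
    rintro ⟨x, hx, hxx⟩
    apply ih x hx.lt
    have h1 := hκ.trans (hx0' x hx hxx)
    rw [Cardinal.aleph0_le_mk_iff] at h1
    exact Set.infinite_coe_iff.mp h1
  choose ch hch1 hch2 using hgood
  let F : {x : L // p ⋖ x ∧ x ≠ x0} → Set (Set L) := fun x =>
    {s | ∃ b, x.1 ⋖ b ∧ s = ch x b ∧ Disjoint s m0}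
  obtain ⟨c, hc1, hc2⟩ := greedy (α := {x : L // p ⋖ x ∧ x ≠ x0}) (β := L) (#{a : L | p ⋖ a}) hκ
    (Cardinal.mk_le_of_injective (f := fun x => (⟨x.1, x.2.1⟩ : {a : L | p ⋖ a}))
      (fun a b h => Subtype.ext (congrArg (fun z => z.1) h))) F (by
      intro x
      -- the indices whose chain meets m0 are finite in number
      have hbadfin : {b : L | x.1 ⋖ b ∧ ¬ Disjoint (ch x b) m0}.Finite := by
        have : ∀ b : {b : L | x.1 ⋖ b ∧ ¬ Disjoint (ch x b) m0}, ∃ y : m0, y.1 ∈ ch x b.1 := by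
          rintro ⟨b, hb1, hb2⟩
          rw [Set.not_disjoint_iff] at hb2
          obtain ⟨y, hy1, hy2⟩ := hb2
          exact ⟨⟨y, hy2⟩, hy1⟩
        choose g hg using this
        have hg' : Function.Injective g := by
          intro b b' hbb
          by_contra hne
          have hne' : b.1 ≠ b'.1 := fun h => hne (Subtype.ext h)
          have := hch2 x b.1 b'.1 b.2.1 b'.2.1 hne'
          rw [Set.disjoint_left] at this
          exact this (hg b) (hbb ▸ hg b')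
        have : Finite m0 := hm0f
        have := Finite.of_injective g hg'
        exact Set.toFinite _
      have h2 : #{b : L | x.1 ⋖ b} ≤ #{b : L | x.1 ⋖ b ∧ Disjoint (ch x b) m0} := by
        have hun : {b : L | x.1 ⋖ b} ⊆ {b : L | x.1 ⋖ b ∧ Disjoint (ch x b) m0} ∪
            {b : L | x.1 ⋖ b ∧ ¬ Disjoint (ch x b) m0} := by
          intro b hb
          by_cases h : Disjoint (ch x b) m0
          · exact Or.inl ⟨hb, h⟩
          · exact Or.inr ⟨hb, h⟩
        by_contra hlt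
        rw [not_le] at hlt
        have hxc : ℵ₀ ≤ #{b : L | x.1 ⋖ b} := hκ.trans (hx0' x.1 x.2.1 x.2.2)
        have h4 := (Cardinal.mk_le_mk_of_subset hun).trans (Cardinal.mk_union_le _ _)
        have h5 : #{b : L | x.1 ⋖ b ∧ ¬ Disjoint (ch x b) m0} < #{b : L | x.1 ⋖ b} :=
          (Cardinal.lt_aleph0_iff_finite.mpr hbadfin).trans_le hxc
        exact absurd h4 (not_le_of_gt (Cardinal.add_lt_of_lt hxc hlt h5))
      have h3 : #{b : L | x.1 ⋖ b ∧ Disjoint (ch x b) m0} ≤ #(F x) := by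
        apply Cardinal.mk_le_of_injective
          (f := fun b => (⟨ch x b.1, ⟨b.1, b.2.1, rfl, b.2.2⟩⟩ : F x))
        intro b b' hbb
        by_contra hne
        have hne' : b.1 ≠ b'.1 := fun h => hne (Subtype.ext h)
        have h4 := hch2 x b.1 b'.1 b.2.1 b'.2.1 hne'
        have h5 : ch x b.1 = ch x b'.1 := congrArg Subtype.val hbb
        rw [Set.disjoint_left] at h4
        exact h4 (hch1 x b.1 b.2.1).2 (h5 ▸ (hch1 x b.1 b.2.1).2)
      exact (hx0' x.1 x.2.1 x.2.2).trans (h2.trans h3))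
    (by
      rintro x s ⟨b, hb1, hb2, _⟩ s' ⟨b', hb1', hb2', _⟩ hss
      have hne : b ≠ b' := by
        rintro rfl
        exact hss (hb2.trans hb2'.symm)
      have := hch2 x b b' hb1 hb1' hne
      change Disjoint s s'
      rw [hb2, hb2']
      exact this)
    (by
      rintro x s ⟨b, hb1, hb2, _⟩
      rw [hb2]
      exact hfc _ (hch1 x b hb1).1.2.1)
  -- the final family
  let fam : L → Set L := fun a => if h : p ⋖ a ∧ a ≠ x0 then insert a (c ⟨a, h⟩) else m0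
  have fam1 : ∀ a (h : p ⋖ a ∧ a ≠ x0), fam a = insert a (c ⟨a, h⟩) := fun a h => dif_pos h
  have fam2 : ∀ a, ¬ (p ⋖ a ∧ a ≠ x0) → fam a = m0 := fun a h => dif_neg h
  refine ⟨fam, ?_, ?_⟩
  · intro a ha
    by_cases h : a = x0
    · rw [fam2 a (fun h' => h'.2 h)]
      exact ⟨hm0', h ▸ hx0m⟩
    · have h' : p ⋖ a ∧ a ≠ x0 := ⟨ha, h⟩
      rw [fam1 a h']
      obtain ⟨b, hb1, hb2, hb3⟩ := hc1 ⟨a, h'⟩
      refine ⟨MC_insert ha (hltt a ha) ?_, Set.mem_insert _ _⟩
      rw [hb2]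
      exact (hch1 ⟨a, h'⟩ b hb1).1
  · -- disjointness
    have key1 : ∀ a (h : p ⋖ a ∧ a ≠ x0), Disjoint (insert a (c ⟨a, h⟩)) m0 := by
      intro a h
      rw [Set.disjoint_left]
      rintro y (rfl | hy) hym
      · exact point_nle hx0 h.1 (Ne.symm h.2) (MC_above hx0 hm0' hx0m hym)
      · obtain ⟨b, hb1, hb2, hb3⟩ := hc1 ⟨a, h⟩
        rw [Set.disjoint_left] at hb3
        exact hb3 hy hym
    have key2 : ∀ a (h : p ⋖ a ∧ a ≠ x0) y, y ∈ c ⟨a, h⟩ → a < y := by
      intro a h y hy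
      obtain ⟨b, hb1, hb2, hb3⟩ := hc1 ⟨a, h⟩
      rw [hb2] at hy
      exact ((hch1 ⟨a, h⟩ b hb1).1.1 y hy).1
    intro a b ha hb hab
    by_cases h : a = x0
    · have h1 : ¬ (p ⋖ a ∧ a ≠ x0) := fun h' => h'.2 h
      have h2 : p ⋖ b ∧ b ≠ x0 := ⟨hb, fun h' => hab (h.trans h'.symm)⟩
      rw [fam2 a h1, fam1 b h2]
      exact (key1 b h2).symm
    · have h1 : p ⋖ a ∧ a ≠ x0 := ⟨ha, h⟩
      by_cases h' : b = x0
      · have h2 : ¬ (p ⋖ b ∧ b ≠ x0) := fun h'' => h''.2 h'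
        rw [fam1 a h1, fam2 b h2]
        exact key1 a h1
      · have h2 : p ⋖ b ∧ b ≠ x0 := ⟨hb, h'⟩
        rw [fam1 a h1, fam1 b h2]
        rw [Set.disjoint_left]
        rintro y (hya | hy) (hy' | hy')
        · exact hab (hya.symm.trans hy')
        · rw [hya] at hy'
          exact ha.2 hb.lt (key2 b h2 a hy')
        · rw [hy'] at hy
          exact hb.2 ha.lt (key2 a h1 b hy)
        · have := hc2 ⟨a, h1⟩ ⟨b, h2⟩ (fun h3 => hab (congrArg Subtype.val h3))
          rw [Set.disjoint_left] at this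
          exact this hy hy'


/-- final assembly in case two -/
theorem assemble [WellFoundedGT L] {p ℓ : L} (hP : ∀ t, p ⋖ t → t ≤ ℓ → t ⋖ ℓ)
    (τ : L → L) (Ks : L → Set L)
    (hτ : ∀ z, p ⋖ z → ¬ z ≤ ℓ → p ⋖ τ z ∧ τ z ≤ ℓ)
    (hτi : ∀ z z', p ⋖ z → ¬ z ≤ ℓ → p ⋖ z' → ¬ z' ≤ ℓ → τ z = τ z' → z = z')
    (hKs : ∀ z z', p ⋖ z → ¬ z ≤ ℓ → p ⋖ z' → ¬ z' ≤ ℓ → z ≠ z' → Disjoint (Ks z) (Ks z'))
    (hgen : ∀ t, p ⋖ t → t ≤ ℓ → ∃ m, MC p m ∧ t ∈ m ∧ ∀ F ∈ m, ¬ ℓ ≤ F)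
    (hm : ∀ z, p ⋖ z → ¬ z ≤ ℓ → ∃ m m', MC p m ∧ τ z ∈ m ∧ (∀ F ∈ m, F ∈ Ks z ∨ ¬ ℓ ≤ F) ∧
      MC p m' ∧ z ∈ m' ∧ (∀ F ∈ m', F = z ∨ (τ z ≤ F ∧ ¬ ℓ ≤ F)) ∧ Disjoint m m') : Good p := by
  classical
  choose! mg hg1 hg2 hg3 using hgen
  choose! m m' h1 h2 h3 h4 h5 h6 h7 using hm
  let fam : L → Set L := fun a =>
    if a ≤ ℓ then
      if h : ∃ z, p ⋖ z ∧ ¬ z ≤ ℓ ∧ τ z = a then m h.choose else mg a
    else m' a
  have two : ∀ {t t' F : L}, p ⋖ t → t ≤ ℓ → p ⋖ t' → t' ≤ ℓ → t ≠ t' → t ≤ F → t' ≤ F → ℓ ≤ F := by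
    intro t t' F ht htl ht' ht'l hne h h'
    have e : t' ⊔ t = ℓ := sup_eq_of_cov (hP t ht htl) ht'l (point_nle ht' ht (Ne.symm hne))
    rw [← e]
    exact sup_le h' h
  -- the three kinds of points
  have f1 : ∀ a, a ≤ ℓ → (∃ z, p ⋖ z ∧ ¬ z ≤ ℓ ∧ τ z = a ∧ fam a = m z) ∨
      ((¬ ∃ z, p ⋖ z ∧ ¬ z ≤ ℓ ∧ τ z = a) ∧ fam a = mg a) := by
    intro a ha
    by_cases h : ∃ z, p ⋖ z ∧ ¬ z ≤ ℓ ∧ τ z = a
    · left
      refine ⟨h.choose, h.choose_spec.1, h.choose_spec.2.1, h.choose_spec.2.2, ?_⟩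
      change (if a ≤ ℓ then (if h : ∃ z, p ⋖ z ∧ ¬ z ≤ ℓ ∧ τ z = a then m h.choose else mg a) else m' a) = _
      rw [if_pos ha, dif_pos h]
    · right
      refine ⟨h, ?_⟩
      change (if a ≤ ℓ then (if h : ∃ z, p ⋖ z ∧ ¬ z ≤ ℓ ∧ τ z = a then m h.choose else mg a) else m' a) = _
      rw [if_pos ha, dif_neg h]
  have f2 : ∀ a, ¬ a ≤ ℓ → fam a = m' a := fun a ha => if_neg ha
  have hmc : ∀ a, p ⋖ a → MC p (fam a) ∧ a ∈ fam a := by
    intro a ha
    by_cases hal : a ≤ ℓ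
    · rcases f1 a hal with ⟨z, hz1, hz2, hz3, hz4⟩ | ⟨_, h⟩
      · rw [hz4]
        exact ⟨h1 z hz1 hz2, hz3 ▸ h2 z hz1 hz2⟩
      · rw [h]
        exact ⟨hg1 a ha hal, hg2 a ha hal⟩
    · rw [f2 a hal]
      exact ⟨h4 a ha hal, h5 a ha hal⟩
  have hab1 : ∀ a b, p ⋖ a → p ⋖ b → a ≠ b → a ≤ ℓ → b ≤ ℓ → Disjoint (fam a) (fam b) := by
    intro a b ha hb hab hal hbl
    rw [Set.disjoint_left]
    intro F hFa hFb
    have e1 : a ≤ F := MC_above ha (hmc a ha).1 (hmc a ha).2 hFa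
    have e2 : b ≤ F := MC_above hb (hmc b hb).1 (hmc b hb).2 hFb
    have e3 : ℓ ≤ F := two ha hal hb hbl hab e1 e2
    rcases f1 a hal with ⟨z, hz1, hz2, hz3, hz4⟩ | ⟨_, h⟩
    · rcases f1 b hbl with ⟨w, hw1, hw2, hw3, hw4⟩ | ⟨_, h'⟩
      · rw [hz4] at hFa
        rw [hw4] at hFb
        have k1 : F ∈ Ks z := by
          rcases h3 z hz1 hz2 F hFa with h | h
          · exact h
          · exact absurd e3 h
        have k2 : F ∈ Ks w := by
          rcases h3 w hw1 hw2 F hFb with h | h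
          · exact h
          · exact absurd e3 h
        have hzw : z ≠ w := by
          rintro rfl
          exact hab (hz3.symm.trans hw3)
        have := hKs z w hz1 hz2 hw1 hw2 hzw
        rw [Set.disjoint_left] at this
        exact this k1 k2
      · rw [h'] at hFb
        exact hg3 b hb hbl F hFb e3
    · rw [h] at hFa
      exact hg3 a ha hal F hFa e3
  have hab2 : ∀ a b, p ⋖ a → p ⋖ b → a ≤ ℓ → ¬ b ≤ ℓ → Disjoint (fam a) (fam b) := by
    intro a b ha hb hal hbl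
    rw [Set.disjoint_left]
    intro F hFa hFb
    have hab : a ≠ b := by rintro rfl; exact hbl hal
    have e1 : a ≤ F := MC_above ha (hmc a ha).1 (hmc a ha).2 hFa
    have hFb' : F ∈ m' b := f2 b hbl ▸ hFb
    rcases h6 b hb hbl F hFb' with h | ⟨h, h'⟩
    · exact point_nle ha hb hab (h ▸ e1)
    · by_cases hτa : τ b = a
      · rcases f1 a hal with ⟨z, hz1, hz2, hz3, hz4⟩ | ⟨hn, _⟩
        · have : z = b := hτi z b hz1 hz2 hb hbl (hz3.trans hτa.symm)
          rw [hz4, this] at hFa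
          have hd := h7 b hb hbl
          rw [Set.disjoint_left] at hd
          exact hd hFa hFb'
        · exact hn ⟨b, hb, hbl, hτa⟩
      · exact h' (two (hτ b hb hbl).1 (hτ b hb hbl).2 ha hal hτa h e1)
  have hab3 : ∀ a b, p ⋖ a → p ⋖ b → a ≠ b → ¬ a ≤ ℓ → ¬ b ≤ ℓ → Disjoint (fam a) (fam b) := by
    intro a b ha hb hab hal hbl
    rw [Set.disjoint_left]
    intro F hFa hFb
    have e1 : a ≤ F := MC_above ha (hmc a ha).1 (hmc a ha).2 hFa
    have e2 : b ≤ F := MC_above hb (hmc b hb).1 (hmc b hb).2 hFb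
    have hFa' : F ∈ m' a := f2 a hal ▸ hFa
    have hFb' : F ∈ m' b := f2 b hbl ▸ hFb
    rcases h6 a ha hal F hFa' with h | ⟨h, h'⟩
    · exact point_nle hb ha (Ne.symm hab) (h ▸ e2)
    · rcases h6 b hb hbl F hFb' with k | ⟨k, _⟩
      · exact point_nle ha hb hab (k ▸ e1)
      · have hne : τ a ≠ τ b := fun h => hab (hτi a b ha hal hb hbl h)
        exact h' (two (hτ a ha hal).1 (hτ a ha hal).2 (hτ b hb hbl).1 (hτ b hb hbl).2 hne h k)
  refine ⟨fam, hmc, ?_⟩
  intro a b ha hb hab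
  by_cases hal : a ≤ ℓ
  · by_cases hbl : b ≤ ℓ
    · exact hab1 a b ha hb hab hal hbl
    · exact hab2 a b ha hb hal hbl
  · by_cases hbl : b ≤ ℓ
    · exact (hab2 b a hb ha hbl hal).symm
    · exact hab3 a b ha hb hab hal hbl


theorem case_two [WellFoundedGT L] (hfc : ∀ m : Set L, IsChain (· ≤ ·) m → m.Finite) {p : L}
    (hinf : {a : L | p ⋖ a}.Infinite) (ih : ∀ q, p < q → {a : L | q ⋖ a}.Infinite → Good q)
    {x y : L} (hx : p ⋖ x) (hy : p ⋖ y) (hxy : x ≠ y)
    (hbx : #{b : L | x ⋖ b} < #{a : L | p ⋖ a}) (hby : #{b : L | y ⋖ b} < #{a : L | p ⋖ a}) :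
    Good p := by
  classical
  have hκ : ℵ₀ ≤ #{a : L | p ⋖ a} := by
    rw [Cardinal.aleph0_le_mk_iff]
    exact hinf.to_subtype
  obtain ⟨ℓ, hℓ⟩ : ∃ ℓ, ℓ = x ⊔ y := ⟨_, rfl⟩
  have hP : ∀ t, p ⋖ t → t ≤ ℓ → t ⋖ ℓ := by
    intro t ht htl
    rw [hℓ] at htl ⊢
    exact line_cov hx hy hxy ht htl
  have hpl : p ≤ ℓ := hx.le.trans (hℓ ▸ le_sup_left)
  -- cardinality of the points off the line
  have hZ : #{z : L | p ⋖ z ∧ ¬ z ≤ ℓ} < #{a : L | p ⋖ a} := by
    have h1 : #{z : L | p ⋖ z ∧ ¬ z ≤ ℓ} ≤ #({b : L | x ⋖ b} × {b : L | y ⋖ b}) := by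
      have hzx : ∀ z : {z : L | p ⋖ z ∧ ¬ z ≤ ℓ}, x ⋖ z.1 ⊔ x := by
        rintro ⟨z, hz, hzl⟩
        apply cov_sup hz hx.le
        intro h
        exact hzl (h.trans (hℓ ▸ le_sup_left))
      have hzy : ∀ z : {z : L | p ⋖ z ∧ ¬ z ≤ ℓ}, y ⋖ z.1 ⊔ y := by
        rintro ⟨z, hz, hzl⟩
        apply cov_sup hz hy.le
        intro h
        exact hzl (h.trans (hℓ ▸ le_sup_right))
      apply Cardinal.mk_le_of_injective
        (f := fun z : {z : L | p ⋖ z ∧ ¬ z ≤ ℓ} => ((⟨z.1 ⊔ x, hzx z⟩, ⟨z.1 ⊔ y, hzy z⟩) :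
          {b : L | x ⋖ b} × {b : L | y ⋖ b}))
      rintro ⟨z, hz, hzl⟩ ⟨z', hz', hz'l⟩ h
      have e1 : z ⊔ x = z' ⊔ x := congrArg (fun q => q.1.1) h
      have e2 : z ⊔ y = z' ⊔ y := congrArg (fun q => q.2.1) h
      by_contra hne
      have hne' : z ≠ z' := fun h => hne (Subtype.ext h)
      have hxz : x ≠ z := by rintro rfl; exact hzl (hℓ ▸ le_sup_left)
      have hyz : y ≠ z := by rintro rfl; exact hzl (hℓ ▸ le_sup_right)
      have c1 : z ⋖ x ⊔ z := cov_sup hx hz.le (point_nle hx hz hxz)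
      have c2 : z ⋖ y ⊔ z := cov_sup hy hz.le (point_nle hy hz hyz)
      have d1 : z' ⊔ z = x ⊔ z := by
        apply sup_eq_of_cov c1 _ (point_nle hz' hz (Ne.symm hne'))
        rw [sup_comm x z, e1]; exact le_sup_left
      have d2 : z' ⊔ z = y ⊔ z := by
        apply sup_eq_of_cov c2 _ (point_nle hz' hz (Ne.symm hne'))
        rw [sup_comm y z, e2]; exact le_sup_left
      have e3 : ℓ ≤ z ⊔ x := by
        rw [hℓ]
        apply sup_le le_sup_right
        rw [sup_comm z x, ← d1, d2]; exact le_sup_left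
      have c3 : x ⋖ z ⊔ x := hzx ⟨z, hz, hzl⟩
      rcases c3.eq_or_eq (hP x hx (hℓ ▸ le_sup_left)).le e3 with h4 | h4
      · exact (hP x hx (hℓ ▸ le_sup_left)).ne h4.symm
      · exact hzl (h4 ▸ le_sup_left)
    refine h1.trans_lt ?_
    rw [Cardinal.mk_prod, Cardinal.lift_id, Cardinal.lift_id]
    exact Cardinal.mul_lt_of_lt hκ hbx hby
  -- the line is large
  have hlarge : ∀ Q : Set L, Q ⊆ {t : L | p ⋖ t ∧ t ≤ ℓ} → Q.Finite →
      #{z : L | p ⋖ z ∧ ¬ z ≤ ℓ} ≤ #({t : L | p ⋖ t ∧ t ≤ ℓ} \ Q : Set L) := by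
    intro Q hQ hQf
    by_contra hlt
    rw [not_le] at hlt
    have hun : {a : L | p ⋖ a} ⊆ ({t : L | p ⋖ t ∧ t ≤ ℓ} \ Q) ∪ (Q ∪ {z : L | p ⋖ z ∧ ¬ z ≤ ℓ}) := by
      intro a ha
      by_cases h : a ≤ ℓ
      · by_cases h' : a ∈ Q
        · exact Or.inr (Or.inl h')
        · exact Or.inl ⟨⟨ha, h⟩, h'⟩
      · exact Or.inr (Or.inr ⟨ha, h⟩)
    have h4 := (Cardinal.mk_le_mk_of_subset hun).trans (Cardinal.mk_union_le _ _)
    have h5 : #(Q ∪ {z : L | p ⋖ z ∧ ¬ z ≤ ℓ} : Set L) < #{a : L | p ⋖ a} :=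
      (Cardinal.mk_union_le _ _).trans_lt
        (Cardinal.add_lt_of_lt hκ ((Cardinal.lt_aleph0_iff_finite.mpr hQf).trans_le hκ) hZ)
    exact absurd h4 (not_le_of_gt (Cardinal.add_lt_of_lt hκ (hlt.trans hZ) h5))
  -- generic chains
  have hhyp : ∀ t, p ⋖ t → t ≤ ℓ → ∀ w, t ≤ w → ¬ ℓ ≤ w → ∃ H, IsCoatom H ∧ w ≤ H ∧ ¬ ℓ ≤ H := by
    intro t ht htl w htw hlw
    obtain ⟨u, hpu, hul, hu⟩ := exists_point (ht.le.trans htw) hpl hlw
    obtain ⟨H, hH1, hH2, hH3⟩ := exists_hyper hpu (ht.le.trans htw) le_top le_top hu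
    exact ⟨H, covBy_top_iff.mp hH2, hH1, fun h => hH3 (hul.trans h)⟩
  have hgen : ∀ t, p ⋖ t → t ≤ ℓ → ∃ m, MC p m ∧ t ∈ m ∧ ∀ F ∈ m, ¬ ℓ ≤ F := by
    intro t ht htl
    obtain ⟨H, hH, htH, hlH⟩ := hhyp t ht htl t le_rfl (not_le_of_gt (hP t ht htl).lt)
    have hHt : H < ⊤ := lt_top_iff_ne_top.mpr hH.1
    obtain ⟨m, hm1, hm2⟩ := exists_MC (p := p) (c := {t, H}) (by
      rintro x (rfl | rfl)
      · exact ⟨ht.lt, htH.trans_lt hHt⟩
      · exact ⟨ht.lt.trans_le htH, hHt⟩) (by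
      rintro x (rfl | rfl) y (rfl | rfl) hxy
      · exact absurd rfl hxy
      · exact Or.inl htH
      · exact Or.inr htH
      · exact absurd rfl hxy)
    exact ⟨m, hm2, hm1 (by simp), fun F hF h =>
      hlH (h.trans (MC_below hH hm2 (hm1 (by simp)) hF))⟩
  let T : L → Prop := fun t => ∀ H H', IsCoatom H → IsCoatom H' → t ≤ H → t ≤ H' → ¬ ℓ ≤ H →
    ¬ ℓ ≤ H' → H = H'
  by_cases hT : ∃ t1 t2, p ⋖ t1 ∧ t1 ≤ ℓ ∧ p ⋖ t2 ∧ t2 ≤ ℓ ∧ t1 ≠ t2 ∧ T t1 ∧ T t2
  · -- direct sum case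
    obtain ⟨t1, t2, ht1, ht1l, ht2, ht2l, hne, hT1, hT2⟩ := hT
    have two : ∀ {t t' F : L}, p ⋖ t → t ≤ ℓ → p ⋖ t' → t' ≤ ℓ → t ≠ t' → t ≤ F → t' ≤ F → ℓ ≤ F := by
      intro t t' F ht htl ht' ht'l hne h h'
      have e : t' ⊔ t = ℓ := sup_eq_of_cov (hP t ht htl) ht'l (point_nle ht' ht (Ne.symm hne))
      rw [← e]
      exact sup_le h' h
    obtain ⟨H1, hH1, ht1H, hlH1⟩ := hhyp t1 ht1 ht1l t1 le_rfl (not_le_of_gt (hP t1 ht1 ht1l).lt)
    obtain ⟨H2, hH2, ht2H, hlH2⟩ := hhyp t2 ht2 ht2l t2 le_rfl (not_le_of_gt (hP t2 ht2 ht2l).lt)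
    obtain ⟨c, hc⟩ : ∃ c, c = H1 ⊓ H2 := ⟨_, rfl⟩
    have hpc : p ≤ c := by rw [hc]; exact le_inf (ht1.le.trans ht1H) (ht2.le.trans ht2H)
    have hlzt : ∀ z t, p ⋖ z → ¬ z ≤ ℓ → p ⋖ t → t ≤ ℓ → ¬ ℓ ≤ z ⊔ t := by
      intro z t hz hzl ht htl h
      have htz : t ≠ z := by rintro rfl; exact hzl htl
      have c1 : t ⋖ z ⊔ t := cov_sup hz ht.le (point_nle hz ht (Ne.symm htz))
      rcases c1.eq_or_eq (hP t ht htl).le h with h1 | h1
      · exact (hP t ht htl).ne h1.symm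
      · exact hzl (h1 ▸ le_sup_left)
    have hZc : ∀ w, p ⋖ w → ¬ w ≤ ℓ → w ≤ c := by
      intro w hw hwl
      rw [hc]
      apply le_inf
      · obtain ⟨H, a1, a2, a3⟩ := hhyp t1 ht1 ht1l (w ⊔ t1) le_sup_right (hlzt w t1 hw hwl ht1 ht1l)
        have : H = H1 := hT1 H H1 a1 hH1 (le_sup_right.trans a2) ht1H a3 hlH1
        exact le_sup_left.trans (this ▸ a2)
      · obtain ⟨H, a1, a2, a3⟩ := hhyp t2 ht2 ht2l (w ⊔ t2) le_sup_right (hlzt w t2 hw hwl ht2 ht2l)
        have : H = H2 := hT2 H H2 a1 hH2 (le_sup_right.trans a2) ht2H a3 hlH2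
        exact le_sup_left.trans (this ▸ a2)
    have htc : ∀ t, p ⋖ t → t ≤ ℓ → ¬ t ≤ c := by
      intro t ht htl h
      rw [hc] at h
      by_cases h1 : t = t1
      · have h2 : t ≠ t2 := fun h3 => hne (h1.symm.trans h3)
        exact hlH2 (two ht htl ht2 ht2l h2 (h.trans inf_le_right) ht2H)
      · exact hlH1 (two ht htl ht1 ht1l h1 (h.trans inf_le_left) ht1H)
    have hall : ∀ t, p ⋖ t → t ≤ ℓ → ∀ F, t ≤ F → ¬ ℓ ≤ F → F ≤ t ⊔ c := by
      intro t ht htl F htF hlF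
      by_contra hcon
      obtain ⟨u, hpu, huF, hu⟩ := exists_point (ht.le.trans le_sup_left : p ≤ t ⊔ c) (ht.le.trans htF) hcon
      by_cases hul : u ≤ ℓ
      · have : t ≠ u := by rintro rfl; exact hu le_sup_left
        exact hlF (two ht htl hpu hul this htF huF)
      · exact hu ((hZc u hpu hul).trans le_sup_right)
    have hcc : ∀ t, p ⋖ t → t ≤ ℓ → IsCoatom (t ⊔ c) ∧ ¬ ℓ ≤ t ⊔ c := by
      intro t ht htl
      have h1 : c ⋖ t ⊔ c := cov_sup ht hpc (htc t ht htl)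
      have h2 : t ⊔ c < ⊤ := by
        rw [lt_top_iff_ne_top]
        intro h
        rw [h] at h1
        have h3 : c < H1 := by
          apply lt_of_le_of_ne (hc ▸ inf_le_left)
          rintro rfl
          exact htc t1 ht1 ht1l ht1H
        exact hH1.1 ((covBy_top_iff.mp h1).2 H1 h3)
      obtain ⟨H, a1, a2, a3⟩ := hhyp t ht htl t le_rfl (not_le_of_gt (hP t ht htl).lt)
      have h4 : H ≤ t ⊔ c := hall t ht htl H a2 a3
      have h5 : H = t ⊔ c := by
        rcases h4.lt_or_eq with h | h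
        · exact absurd (a1.2 _ h) h2.ne
        · exact h
      rw [← h5]
      exact ⟨a1, a3⟩
    -- the map z ↦ z ⊔ ℓ is injective
    have hinj : ∀ z z', p ⋖ z → ¬ z ≤ ℓ → p ⋖ z' → ¬ z' ≤ ℓ → z ⊔ ℓ = z' ⊔ ℓ → z = z' := by
      intro z z' hz hzl hz' hz'l h
      have key : ∀ t t', p ⋖ t → t ≤ ℓ → p ⋖ t' → t' ≤ ℓ → t ≠ t' → z' ≤ z ⊔ t := by
        intro t t' ht htl ht' ht'l htt'
        by_contra hn
        have hlz := hlzt z t hz hzl ht htl
        have ht'n : ¬ t' ≤ z ⊔ t := fun h' => hlz (two ht htl ht' ht'l htt' le_sup_right h')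
        have hpzt : p ≤ z ⊔ t := hz.le.trans le_sup_left
        have k1 : z ⊔ t ⋖ t' ⊔ (z ⊔ t) := cov_sup ht' hpzt ht'n
        have k2 : t' ⊔ (z ⊔ t) = z ⊔ ℓ := by
          apply le_antisymm
          · exact sup_le (ht'l.trans le_sup_right) (sup_le_sup_left htl z)
          · apply sup_le (le_sup_left.trans le_sup_right)
            exact two ht htl ht' ht'l htt' (le_sup_right.trans le_sup_right) le_sup_left
        have k3 : z' ⊔ (z ⊔ t) = t' ⊔ (z ⊔ t) := by
          apply sup_eq_of_cov k1 _ hn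
          rw [k2, h]
          exact le_sup_left
        have k4 : ℓ ≤ z' ⊔ (z ⊔ t) := by rw [k3, k2]; exact le_sup_right
        exact (hcc t ht htl).2 (k4.trans (sup_le ((hZc z' hz' hz'l).trans le_sup_right)
          (sup_le ((hZc z hz hzl).trans le_sup_right) le_sup_left)))
      by_contra hzz
      have a1 := key t1 t2 ht1 ht1l ht2 ht2l hne
      have a2 := key t2 t1 ht2 ht2l ht1 ht1l (Ne.symm hne)
      have ht1z : t1 ≠ z := by rintro rfl; exact hzl ht1l
      have ht2z : t2 ≠ z := by rintro rfl; exact hzl ht2l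
      have c1 : z ⋖ t1 ⊔ z := cov_sup ht1 hz.le (point_nle ht1 hz ht1z)
      have c2 : z ⋖ t2 ⊔ z := cov_sup ht2 hz.le (point_nle ht2 hz ht2z)
      have hz'z : ¬ z' ≤ z := point_nle hz' hz (Ne.symm hzz)
      have d1 : z' ⊔ z = t1 ⊔ z := sup_eq_of_cov c1 (by rw [sup_comm]; exact a1) hz'z
      have d2 : z' ⊔ z = t2 ⊔ z := sup_eq_of_cov c2 (by rw [sup_comm]; exact a2) hz'z
      apply hlzt z t1 hz hzl ht1 ht1l
      apply two ht1 ht1l ht2 ht2l hne le_sup_right
      rw [sup_comm z t1, ← d1, d2]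
      exact le_sup_left
    have hcovl : ∀ z, p ⋖ z → ¬ z ≤ ℓ → ℓ ⋖ z ⊔ ℓ := fun z hz hzl => cov_sup hz hpl hzl
    -- the coatoms above ℓ
    have hφ : ∃ φ : L → L, (∀ z, p ⋖ z → ¬ z ≤ ℓ → IsCoatom (φ z) ∧ ℓ ≤ φ z ∧ φ z ≠ z ⊔ ℓ) ∧
        ∀ z z', p ⋖ z → ¬ z ≤ ℓ → p ⋖ z' → ¬ z' ≤ ℓ → φ z = φ z' → z = z' := by
      by_cases hco : ∃ z0, p ⋖ z0 ∧ ¬ z0 ≤ ℓ ∧ IsCoatom (z0 ⊔ ℓ)
      · obtain ⟨z0, hz0, hz0l, hco⟩ := hco
        have hcoall : ∀ w, p ⋖ w → ¬ w ≤ ℓ → IsCoatom (w ⊔ ℓ) := by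
          intro w hw hwl
          by_cases h : w ≤ z0 ⊔ ℓ
          · have : w ⊔ ℓ = z0 ⊔ ℓ := sup_eq_of_cov (hcovl z0 hz0 hz0l) h hwl
            rw [this]; exact hco
          · have h1 : ¬ z0 ≤ w ⊔ ℓ := by
              intro h'
              have : z0 ⊔ ℓ = w ⊔ ℓ := sup_eq_of_cov (hcovl w hw hwl) h' hz0l
              exact h (this ▸ le_sup_left)
            have h2 : w ⊔ ℓ ⋖ z0 ⊔ (w ⊔ ℓ) := cov_sup hz0 (hpl.trans le_sup_right) h1
            have h3 : z0 ⊔ (w ⊔ ℓ) = ⊤ := by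
              apply hco.2
              apply lt_of_le_of_ne
              · exact sup_le le_sup_left (le_sup_right.trans le_sup_right)
              · intro h'
                exact h ((le_sup_left.trans le_sup_right).trans h'.ge)
            rw [h3] at h2
            exact covBy_top_iff.mp h2
        obtain ⟨w0, hw0, -, hw0l⟩ := exists_point (hpl.trans le_sup_right : p ≤ z0 ⊔ ℓ)
          (le_top : p ≤ ⊤) (not_le_of_gt (lt_top_iff_ne_top.mpr hco.1))
        have hnt : Nontrivial {z : L // p ⋖ z ∧ ¬ z ≤ ℓ} := by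
          refine ⟨⟨⟨z0, hz0, hz0l⟩, ⟨w0, hw0, fun h => hw0l (h.trans le_sup_right)⟩, ?_⟩⟩
          intro h
          have : z0 = w0 := congrArg Subtype.val h
          exact hw0l (this ▸ le_sup_left)
        obtain ⟨σ, hσ1, hσ2⟩ := derange {z : L // p ⋖ z ∧ ¬ z ≤ ℓ}
        refine ⟨fun z => if h : p ⋖ z ∧ ¬ z ≤ ℓ then (σ ⟨z, h⟩).1 ⊔ ℓ else z, ?_, ?_⟩
        · intro z hz hzl
          have h : p ⋖ z ∧ ¬ z ≤ ℓ := ⟨hz, hzl⟩
          beta_reduce
          rw [dif_pos h]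
          refine ⟨hcoall _ (σ ⟨z, h⟩).2.1 (σ ⟨z, h⟩).2.2, le_sup_right, ?_⟩
          intro h'
          have := hinj _ _ (σ ⟨z, h⟩).2.1 (σ ⟨z, h⟩).2.2 hz hzl h'
          exact hσ2 ⟨z, h⟩ (Subtype.ext this)
        · intro z z' hz hzl hz' hz'l h'
          have h : p ⋖ z ∧ ¬ z ≤ ℓ := ⟨hz, hzl⟩
          have k : p ⋖ z' ∧ ¬ z' ≤ ℓ := ⟨hz', hz'l⟩
          beta_reduce at h'
          rw [dif_pos h, dif_pos k] at h'
          have := hinj _ _ (σ ⟨z, h⟩).2.1 (σ ⟨z, h⟩).2.2 (σ ⟨z', k⟩).2.1 (σ ⟨z', k⟩).2.2 h'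
          have := hσ1 (Subtype.ext this)
          exact congrArg Subtype.val this
      · -- use the lemma on coatoms
        have hψ : ({z : L | p ⋖ z ∧ ¬ z ≤ ℓ}).Nonempty → ∃ ψ : L → L, (∀ a, ℓ ⋖ a → IsCoatom (ψ a) ∧ ℓ ≤ ψ a) ∧
            ∀ a b, ℓ ⋖ a → ℓ ⋖ b → ψ a = ψ b → a = b := by
          rintro ⟨z, hz, hzl⟩
          have hlt : ℓ < ⊤ := (hcovl z hz hzl).lt.trans_le le_top
          by_cases hfin : {a : L | ℓ ⋖ a}.Finite
          · have h1 := hyper_count ℓ hlt hfin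
            have hCfin := coatoms_finite hfin
            have h2 : #{a : L | ℓ ⋖ a} ≤ #{K : L | IsCoatom K ∧ ℓ ≤ K} := by
              have : Finite {a : L | ℓ ⋖ a} := hfin
              have : Finite {K : L | IsCoatom K ∧ ℓ ≤ K} := hCfin
              rw [← Set.cast_ncard hfin, ← Set.cast_ncard hCfin]
              exact_mod_cast h1
            obtain ⟨ψ, hψ1, hψ2⟩ := inj_of_card h2
            exact ⟨ψ, hψ1, fun a b ha hb h => hψ2 ha hb h⟩
          · obtain ⟨ch, hch1, hch2⟩ := ih ℓ (hx.lt.trans_le (hℓ ▸ le_sup_left)) hfin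
            have : ∀ a, ℓ ⋖ a → ∃ K ∈ ch a, IsCoatom K := fun a ha =>
              MC_has_coatom (hch1 a ha).1 (hfc _ (hch1 a ha).1.2.1) (hch1 a ha).2
            choose! ψ hψ1 hψ2 using this
            refine ⟨ψ, fun a ha => ⟨hψ2 a ha, ((hch1 a ha).1.1 _ (hψ1 a ha)).1.le⟩, ?_⟩
            intro a b ha hb h
            by_contra hab
            have := hch2 a b ha hb hab
            rw [Set.disjoint_left] at this
            exact this (hψ1 a ha) (h ▸ hψ1 b hb)
        by_cases hZn : ({z : L | p ⋖ z ∧ ¬ z ≤ ℓ}).Nonempty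
        · obtain ⟨ψ, hψ1, hψ2⟩ := hψ hZn
          refine ⟨fun z => ψ (z ⊔ ℓ), ?_, ?_⟩
          · intro z hz hzl
            refine ⟨(hψ1 _ (hcovl z hz hzl)).1, (hψ1 _ (hcovl z hz hzl)).2, ?_⟩
            intro h
            exact hco ⟨z, hz, hzl, h ▸ (hψ1 _ (hcovl z hz hzl)).1⟩
          · intro z z' hz hzl hz' hz'l h
            exact hinj z z' hz hzl hz' hz'l (hψ2 _ _ (hcovl z hz hzl) (hcovl z' hz' hz'l) h)
        · refine ⟨id, ?_, ?_⟩
          · intro z hz hzl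
            exact absurd ⟨z, hz, hzl⟩ hZn
          · intro z z' hz hzl
            exact absurd ⟨z, hz, hzl⟩ hZn
    obtain ⟨φ, hφ1, hφ2⟩ := hφ
    obtain ⟨τ, hτ1, hτ2⟩ := inj_of_card (hlarge ∅ (Set.empty_subset _) Set.finite_empty)
    apply assemble hP τ (fun z => {φ z})
    · intro z hz hzl
      exact (hτ1 z ⟨hz, hzl⟩).1
    · intro z z' hz hzl hz' hz'l h
      exact hτ2 ⟨hz, hzl⟩ ⟨hz', hz'l⟩ h
    · intro z z' hz hzl hz' hz'l hne'
      rw [Set.disjoint_singleton]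
      exact fun h => hne' (hφ2 z z' hz hzl hz' hz'l h)
    · exact hgen
    · intro z hz hzl
      obtain ⟨⟨hτp, hτl⟩, -⟩ := hτ1 z ⟨hz, hzl⟩
      obtain ⟨t', ht', ht'l, htt'⟩ : ∃ t', p ⋖ t' ∧ t' ≤ ℓ ∧ t' ≠ τ z := by
        by_cases h : t1 = τ z
        · exact ⟨t2, ht2, ht2l, fun h' => hne (h.trans h'.symm)⟩
        · exact ⟨t1, ht1, ht1l, h⟩
      obtain ⟨hφa, hφb, hφc⟩ := hφ1 z hz hzl
      exact caseQ' hτp (hP _ hτp hτl) ht' ht'l htt' hz hzl hφa hφb hφc (hcc _ hτp hτl).1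
        le_sup_left (hcc _ hτp hτl).2 ((hZc z hz hzl).trans le_sup_right) (hall _ hτp hτl)
  · -- at most one coloop point
    obtain ⟨Q, hQ1, hQ2, hQ3⟩ : ∃ Q : Set L, Q ⊆ {t : L | p ⋖ t ∧ t ≤ ℓ} ∧ Q.Finite ∧
        ∀ t, p ⋖ t → t ≤ ℓ → t ∉ Q → ¬ T t := by
      by_cases h : ∃ t1, p ⋖ t1 ∧ t1 ≤ ℓ ∧ T t1
      · obtain ⟨t1, ht1, ht1l, hT1⟩ := h
        refine ⟨{t1}, ?_, Set.finite_singleton _, ?_⟩
        · rintro _ rfl
          exact ⟨ht1, ht1l⟩
        · intro t ht htl htQ hTt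
          exact hT ⟨t, t1, ht, htl, ht1, ht1l, htQ, hTt, hT1⟩
      · refine ⟨∅, Set.empty_subset _, Set.finite_empty, ?_⟩
        intro t ht htl _ hTt
        exact h ⟨t, ht, htl, hTt⟩
    obtain ⟨τ, hτ1, hτ2⟩ := inj_of_card (hlarge Q hQ1 hQ2)
    apply assemble hP τ (fun _ => ∅)
    · intro z hz hzl
      exact (hτ1 z ⟨hz, hzl⟩).1
    · intro z z' hz hzl hz' hz'l h
      exact hτ2 ⟨hz, hzl⟩ ⟨hz', hz'l⟩ h
    · intro z z' _ _ _ _ _
      exact Set.disjoint_empty _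
    · exact hgen
    · intro z hz hzl
      obtain ⟨⟨hτp, hτl⟩, hτQ⟩ := hτ1 z ⟨hz, hzl⟩
      have hnT := hQ3 _ hτp hτl hτQ
      have hnT' : ∃ H H', IsCoatom H ∧ IsCoatom H' ∧ τ z ≤ H ∧ τ z ≤ H' ∧ ¬ ℓ ≤ H ∧ ¬ ℓ ≤ H' ∧ H ≠ H' := by
        by_contra hcon
        apply hnT
        intro H H' a1 a2 a3 a4 a5 a6
        by_contra a7
        exact hcon ⟨H, H', a1, a2, a3, a4, a5, a6, a7⟩
      obtain ⟨m, m', b1, b2, b3, b4, b5, b6, b7⟩ := caseQ hτp (hP _ hτp hτl) hz hzl hnT'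
      exact ⟨m, m', b1, b2, fun F hF => Or.inr (b3 F hF), b4, b5, b6, b7⟩

theorem good_of_infinite [WellFoundedGT L] (hfc : ∀ m : Set L, IsChain (· ≤ ·) m → m.Finite) (p : L) :
    {a : L | p ⋖ a}.Infinite → Good p := by
  have hwf : WellFounded ((· > ·) : L → L → Prop) := wellFounded_gt
  induction p using hwf.induction with
  | _ p ih =>
  intro hinf
  by_cases hbad : ∀ x y, p ⋖ x → p ⋖ y → #{b : L | x ⋖ b} < #{a : L | p ⋖ a} →
      #{b : L | y ⋖ b} < #{a : L | p ⋖ a} → x = y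
  · exact case_one hfc hinf (fun q hq hi => ih q hq hi) hbad
  · push Not at hbad
    obtain ⟨x, y, hx, hy, hbx, hby, hxy⟩ := hbad
    exact case_two hfc hinf (fun q hq hi => ih q hq hi) hx hy hxy hbx hby

end main

section final
variable {L : Type} [CompleteLattice L] [IsAtomistic L] [IsUpperModularLattice L]

theorem points_infinite [Infinite L] : {a : L | (⊥ : L) ⋖ a}.Infinite := by
  intro hfin
  have hinj : Function.Injective (fun x : L => {a : L | (⊥ : L) ⋖ a ∧ a ≤ x}) := by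
    intro x y h
    have h' : {a : L | (⊥ : L) ⋖ a ∧ a ≤ x} = {a : L | (⊥ : L) ⋖ a ∧ a ≤ y} := h
    apply le_antisymm
    · by_contra hc
      obtain ⟨a, h1, h2, h3⟩ := exists_point (bot_le : ⊥ ≤ y) (bot_le : ⊥ ≤ x) hc
      have : a ∈ {a : L | (⊥ : L) ⋖ a ∧ a ≤ y} := h' ▸ ⟨h1, h2⟩
      exact h3 this.2
    · by_contra hc
      obtain ⟨a, h1, h2, h3⟩ := exists_point (bot_le : ⊥ ≤ x) (bot_le : ⊥ ≤ y) hc
      have : a ∈ {a : L | (⊥ : L) ⋖ a ∧ a ≤ x} := h' ▸ ⟨h1, h2⟩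
      exact h3 this.2
  have : (Set.range (fun x : L => {a : L | (⊥ : L) ⋖ a ∧ a ≤ x})).Finite := by
    apply hfin.finite_subsets.subset
    rintro _ ⟨x, rfl⟩
    exact fun a ha => ha.1
  have h2 : (Set.univ : Set L).Finite := by
    rw [← Set.image_univ] at this
    exact Set.Finite.of_finite_image this hinj.injOn
  exact Set.infinite_univ h2

end final

/-- Every infinite geometric lattice of finite rank r has a family of pairwise disjoint maximal chains of L minus its bottom and top such that every atom lies in one of these chains. -/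
theorem result :
    ∀ (L : Type) [CompleteLattice L] [IsAtomistic L] [IsUpperModularLattice L] [Infinite L]
      (r : ℕ), Order.height (⊤ : L) = (r : ℕ∞) →
      ∃ M : Set (Set L),
        (∀ m ∈ M,
          (∀ x ∈ m, x ≠ ⊥ ∧ x ≠ ⊤) ∧ IsChain (· ≤ ·) m ∧
          ∀ m' : Set L, (∀ x ∈ m', x ≠ ⊥ ∧ x ≠ ⊤) → IsChain (· ≤ ·) m' → m ⊆ m' → m' = m) ∧
        M.PairwiseDisjoint id ∧
        ∀ x : L, IsAtom x → ∃ m ∈ M, x ∈ m := by
  intro L _ _ _ _ r hr
  -- a strictly monotone bounded rank function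
  have hle : ∀ x : L, Order.height x ≤ (r : ℕ∞) := fun x => hr ▸ Order.height_mono le_top
  have hfinite : ∀ x : L, Order.height x < ⊤ := fun x => (hle x).trans_lt (ENat.coe_lt_top r)
  let h : L → ℕ := fun x => (Order.height x).toNat
  have hcoe : ∀ x : L, ((h x : ℕ) : ℕ∞) = Order.height x := fun x =>
    ENat.coe_toNat (hfinite x).ne
  have hmono : ∀ x y : L, x < y → h x < h y := by
    intro x y hxy
    have := Order.height_strictMono hxy (hfinite x)
    rw [← hcoe x, ← hcoe y] at this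
    exact_mod_cast this
  have hbound : ∀ x : L, h x ≤ r := by
    intro x
    have := hle x
    rw [← hcoe x] at this
    exact_mod_cast this
  have hfc : ∀ m : Set L, IsChain (· ≤ ·) m → m.Finite := by
    intro m hm
    have hinj : Set.InjOn h m := by
      intro x hx y hy hxy
      by_contra hne
      rcases hm hx hy hne with h1 | h1
      · exact absurd (hmono x y (lt_of_le_of_ne h1 hne)) (by omega)
      · exact absurd (hmono y x (lt_of_le_of_ne h1 (Ne.symm hne))) (by omega)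
    apply Set.Finite.of_finite_image _ hinj
    apply (Set.finite_Iic r).subset
    rintro _ ⟨x, _, rfl⟩
    exact hbound x
  have hwf : WellFoundedGT L := by
    constructor
    have : WellFounded (InvImage (· < ·) (fun x : L => r - h x)) := InvImage.wf _ Nat.lt_wfRel.wf
    apply Subrelation.wf _ this
    intro x y hxy
    have h1 := hmono y x hxy
    have h2 := hbound x
    change r - h x < r - h y
    omega
  obtain ⟨ch, hch1, hch2⟩ := good_of_infinite hfc (⊥ : L) points_infinite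
  refine ⟨{m | ∃ a, (⊥ : L) ⋖ a ∧ m = ch a}, ?_, ?_, ?_⟩
  · rintro m ⟨a, ha, rfl⟩
    obtain ⟨h1, h2, h3⟩ := (hch1 a ha).1
    refine ⟨fun x hx => ⟨(h1 x hx).1.ne', (h1 x hx).2.ne⟩, h2, ?_⟩
    intro m' hm' hc hs
    exact h3 m' (fun x hx => ⟨bot_lt_iff_ne_bot.mpr (hm' x hx).1, lt_top_iff_ne_top.mpr (hm' x hx).2⟩) hc hs
  · rintro m ⟨a, ha, rfl⟩ m' ⟨b, hb, rfl⟩ hne
    apply hch2 a b ha hb
    rintro rfl
    exact hne rfl
  · intro x hx
    exact ⟨ch x, ⟨x, hx.bot_covBy, rfl⟩, (hch1 x hx.bot_covBy).2⟩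

end Pool.Agent.S05023
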