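import Pool.Statements.S05025
import Pool.Agent.H297.GraphVersion

set_option autoImplicit false
open Pool Pool.MP_248d64_co

namespace Pool.Agent.S05025

/-- There is c>0 such that for all t≥3 and n, any finite family of graphs on n labelled vertices in which every pair (G,H), G=H allowed, has G∩H of chromatic number at least t has size at most 2^(C(n,2) − c t²). -/
theorem result :
    ∃ c : ℝ, 0 < c ∧ ∀ t : ℕ, 3 ≤ t → ∀ n : ℕ, ∀ F : Finset (SimpleGraph (Fin n)),
      (∀ G ∈ F, ∀ H ∈ F, (t : ℕ∞) ≤ (G ⊓ H).chromaticNumber) →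
        (F.card : ℝ) ≤ (2 : ℝ) ^ ((n.choose 2 : ℝ) - c * (t : ℝ) ^ 2) := by
  classical
  refine ⟨1 / 2 ^ 22, by positivity, ?_⟩
  intro t ht n F hF
  obtain ⟨k, rfl⟩ : ∃ k, t = k + 1 := ⟨t - 1, by omega⟩
  have hk : 1 ≤ k := by omega
  have h := Pool.Agent.H297.graph_families_bound k hk F (fun G hG H hH =>
    Pool.Agent.H297.hasCore_of_chromatic (G ⊓ H) k hk (hF G hG H hH))
  rw [Fintype.card_fin] at h
  refine h.trans ?_
  apply Real.rpow_le_rpow_of_exponent_le (by norm_num)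
  have hkR : (1 : ℝ) ≤ k := by exact_mod_cast hk
  push_cast
  have : ((k : ℝ) + 1) ^ 2 ≤ 4 * (k : ℝ) ^ 2 := by nlinarith
  linarith

end Pool.Agent.S05025
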