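import Pool.Statements.S05084

set_option autoImplicit false
open Pool Pool.MP_29e5d4_co

namespace Pool.Agent.S05084

/-- adjacency of the octahedron on `Fin 6`; the antipodal pairs are `{0,1}`, `{2,3}`, `{4,5}` -/
def oAdj (a b : Fin 6) : Bool := decide (a.val / 2 ≠ b.val / 2)

/-- adjacency of the four-cycle on `Fin 4` -/
def cAdj (i j : Fin 4) : Bool := decide (i.val % 2 ≠ j.val % 2)

/-- a four-cycle with an octahedron glued on at each vertex -/
def gAdj (x y : Fin 4 × Fin 6) : Bool :=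
  (decide (x.1 = y.1) && oAdj x.2 y.2) || (cAdj x.1 y.1 && (decide (x.2 = 0) && decide (y.2 = 0)))

/-- the counterexample graph -/
def G : SimpleGraph (Fin 4 × Fin 6) where
  Adj x y := gAdj x y = true
  symm := ⟨by decide⟩
  loopless := ⟨by decide⟩

instance : DecidableRel G.Adj := fun x y => inferInstanceAs (Decidable (gAdj x y = true))

/-- the four edges of the four-cycle -/
def E : Finset (Sym2 (Fin 4 × Fin 6)) :=
  {s((0, 0), (1, 0)), s((0, 0), (3, 0)), s((2, 0), (1, 0)), s((2, 0), (3, 0))}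

/-- the dominating sets used for `G - v` -/
def Dv (v : Fin 4 × Fin 6) : Finset (Fin 4 × Fin 6) :=
  {(v.1, if v.2.val % 2 = 0 then v.2 + 1 else v.2 - 1), (v.1 + 1, 1), (v.1 + 3, 1),
    (v.1 + 2, 0), (v.1 + 2, 1)}

lemma Dv_sub : ∀ v : Fin 4 × Fin 6, ∀ w ∈ Dv v, w ≠ v := by decide +kernel

lemma Dv_card : ∀ v : Fin 4 × Fin 6, (Dv v).card = 5 := by decide +kernel

lemma Dv_dom : ∀ v w : Fin 4 × Fin 6, w ≠ v → w ∈ Dv v ∨ ∃ u ∈ Dv v, gAdj u w = true := by
  decide +kernel

/-- the part of `D` in block `i` -/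
def blk (D : Finset (Fin 4 × Fin 6)) (i : Fin 4) : Finset (Fin 6) :=
  Finset.univ.filter (fun a => (i, a) ∈ D)

lemma card_blk (D : Finset (Fin 4 × Fin 6)) : D.card = ∑ i : Fin 4, (blk D i).card := by
  have h : D = ((Finset.univ : Finset (Fin 4)).sigma (fun i => blk D i)).map
      (Equiv.sigmaEquivProd (Fin 4) (Fin 6)).toEmbedding := by
    ext ⟨i, a⟩
    simp only [Finset.mem_map, Finset.mem_sigma, Finset.mem_univ, true_and, blk,
      Finset.mem_filter, Equiv.coe_toEmbedding]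
    constructor
    · intro h
      exact ⟨⟨i, a⟩, h, rfl⟩
    · rintro ⟨⟨j, b⟩, h1, h2⟩
      have h3 : (j, b) = (i, a) := h2
      rw [← h3]
      exact h1
  conv_lhs => rw [h]
  rw [Finset.card_map, Finset.card_sigma]

/-- one-block facts -/
lemma block_fact : ∀ B : Finset (Fin 6), (∀ w : Fin 6, w ≠ 0 → w ∈ B ∨ ∃ u ∈ B, oAdj u w = true) →
    1 ≤ B.card ∧ (B.card = 1 → 0 ∉ B ∧ ¬ ∃ u ∈ B, oAdj u 0 = true) := by
  decide +kernel

lemma cyc_fact : ∀ X : Finset (Fin 4), (∀ i : Fin 4, i ∈ X ∨ ∃ j ∈ X, cAdj j i = true) →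
    2 ≤ X.card := by
  decide +kernel

lemma sum_ge (f : Fin 4 → ℕ) (h1 : ∀ i, 1 ≤ f i) :
    4 + (Finset.univ.filter (fun i => 2 ≤ f i)).card ≤ ∑ i : Fin 4, f i := by
  have h : ∀ i : Fin 4, 1 + (if 2 ≤ f i then 1 else 0) ≤ f i := by
    intro i
    have := h1 i
    split_ifs <;> omega
  calc 4 + (Finset.univ.filter (fun i => 2 ≤ f i)).card
      = ∑ i : Fin 4, (1 + (if 2 ≤ f i then 1 else 0)) := by
        rw [Finset.sum_add_distrib, Finset.card_filter]
        simp
    _ ≤ _ := Finset.sum_le_sum (fun i _ => h i)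

lemma low_G (D : Finset (Fin 4 × Fin 6)) (hD : ∀ w, w ∈ D ∨ ∃ u ∈ D, G.Adj u w) : 6 ≤ D.card := by
  have hb : ∀ i : Fin 4, ∀ w : Fin 6, w ≠ 0 → w ∈ blk D i ∨ ∃ u ∈ blk D i, oAdj u w = true := by
    intro i w hw
    rcases hD (i, w) with h | ⟨⟨j, u⟩, hu, hadj⟩
    · left; simpa [blk] using h
    · right
      have : gAdj (j, u) (i, w) = true := hadj
      simp only [gAdj, Bool.or_eq_true, Bool.and_eq_true, decide_eq_true_eq] at this
      rcases this with ⟨h1, h2⟩ | ⟨_, _, h3⟩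
      · subst h1
        exact ⟨u, by simpa [blk] using hu, h2⟩
      · exact absurd h3 hw
  have h1 : ∀ i, 1 ≤ (blk D i).card := fun i => (block_fact _ (hb i)).1
  have h2 := sum_ge (fun i => (blk D i).card) h1
  have h3 : 2 ≤ (Finset.univ.filter (fun i => 2 ≤ (blk D i).card)).card := by
    apply cyc_fact
    intro i
    by_cases hi : 2 ≤ (blk D i).card
    · left; simpa using hi
    · right
      have hc : (blk D i).card = 1 := by have := h1 i; omega
      obtain ⟨h0, hn⟩ := (block_fact _ (hb i)).2 hc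
      rcases hD (i, 0) with h | ⟨⟨j, u⟩, hu, hadj⟩
      · exact absurd (by simpa [blk] using h) h0
      · have : gAdj (j, u) (i, 0) = true := hadj
        simp only [gAdj, Bool.or_eq_true, Bool.and_eq_true, decide_eq_true_eq] at this
        rcases this with ⟨h1, h2⟩ | ⟨h1, h2, _⟩
        · subst h1
          exact absurd ⟨u, by simpa [blk] using hu, h2⟩ hn
        · subst h2
          refine ⟨j, ?_, h1⟩
          simp only [Finset.mem_filter, Finset.mem_univ, true_and]
          by_contra hlt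
          have hcj : (blk D j).card = 1 := by have := (block_fact _ (hb j)).1; omega
          exact ((block_fact _ (hb j)).2 hcj).1 (by simpa [blk] using hu)
  rw [card_blk D]
  omega

lemma E_adj : ∀ x y : Fin 4 × Fin 6, x.1 ≠ y.1 → gAdj x y = true → s(x, y) ∈ E := by
  decide +kernel

lemma low_GE (D : Finset (Fin 4 × Fin 6))
    (hD : ∀ w, w ∈ D ∨ ∃ u ∈ D, (G.deleteEdges (↑E : Set (Sym2 (Fin 4 × Fin 6)))).Adj u w) :
    7 ≤ D.card := by
  have hb : ∀ i : Fin 4, ∀ w : Fin 6, w ∈ blk D i ∨ ∃ u ∈ blk D i, oAdj u w = true := by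
    intro i w
    rcases hD (i, w) with h | ⟨⟨j, u⟩, hu, hadj⟩
    · left; simpa [blk] using h
    · right
      rw [SimpleGraph.deleteEdges_adj] at hadj
      obtain ⟨hadj, hne⟩ := hadj
      have hg : gAdj (j, u) (i, w) = true := hadj
      have hji : j = i := by
        by_contra hji
        exact hne (by exact_mod_cast E_adj (j, u) (i, w) hji hg)
      subst hji
      have := hg
      simp only [gAdj, Bool.or_eq_true, Bool.and_eq_true, decide_eq_true_eq] at this
      rcases this with ⟨h1, h2⟩ | ⟨h1, _, _⟩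
      · exact ⟨u, by simpa [blk] using hu, h2⟩
      · exact absurd h1 (by simp [cAdj])
  have h2 : ∀ i, 2 ≤ (blk D i).card := by
    intro i
    obtain ⟨h1, h3⟩ := block_fact (blk D i) (fun w _ => hb i w)
    by_contra hlt
    have hc : (blk D i).card = 1 := by omega
    obtain ⟨h0, hn⟩ := h3 hc
    rcases hb i 0 with h | h
    · exact h0 h
    · exact hn h
  rw [card_blk D]
  have : ∑ i : Fin 4, 2 ≤ ∑ i : Fin 4, (blk D i).card := Finset.sum_le_sum (fun i _ => h2 i)
  simp at this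
  omega

/-- the dominating set of size 6 of `G` -/
def D6 : Finset (Fin 4 × Fin 6) := {(0, 0), (0, 1), (1, 1), (3, 1), (2, 0), (2, 1)}

lemma D6_dom : ∀ w : Fin 4 × Fin 6, w ∈ D6 ∨ ∃ u ∈ D6, gAdj u w = true := by decide +kernel

lemma deg_ge : ∀ v : Fin 4 × Fin 6, 4 ≤ (Finset.univ.filter (fun w => gAdj v w = true)).card := by
  decide +kernel

lemma E_sub : ∀ e ∈ E, e ∈ G.edgeSet := by
  intro e he
  simp only [E, Finset.mem_insert, Finset.mem_singleton] at he
  rcases he with h | h | h | h <;> subst h <;> rw [SimpleGraph.mem_edgeSet] <;>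
    (show gAdj _ _ = true) <;> decide

/-- The negation of the preceding statement: For every finite graph G in which deleting any single vertex lowers the domination number, deleting any set of at most δ(G) edges never raises the domination number; that is, the bondage number is at least δ(G)+1. -/
theorem result :
    ¬ (∀ (V : Type) [Fintype V] [DecidableEq V] (G : SimpleGraph V) [DecidableRel G.Adj]
      (γ : SimpleGraph V → Set V → ℕ),
      (∀ (H : SimpleGraph V) (S : Set V),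
        γ H S = sInf {n : ℕ | ∃ D : Finset V, (↑D : Set V) ⊆ S ∧ D.card = n ∧
          ∀ w ∈ S, w ∈ D ∨ ∃ u ∈ D, H.Adj u w}) →
      (∀ v : V, γ G {w | w ≠ v} < γ G Set.univ) →
      ∀ E' : Finset (Sym2 V), (↑E' : Set (Sym2 V)) ⊆ G.edgeSet →
        E'.card ≤ G.minDegree →
        γ (G.deleteEdges (↑E' : Set (Sym2 V))) Set.univ ≤ γ G Set.univ) := by
  intro hall
  have key := hall (Fin 4 × Fin 6) G
    (fun H S => sInf {n : ℕ | ∃ D : Finset (Fin 4 × Fin 6), (↑D : Set (Fin 4 × Fin 6)) ⊆ S ∧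
      D.card = n ∧ ∀ w ∈ S, w ∈ D ∨ ∃ u ∈ D, H.Adj u w}) (fun _ _ => rfl)
  have hlow : 6 ≤ sInf {n : ℕ | ∃ D : Finset (Fin 4 × Fin 6),
      (↑D : Set (Fin 4 × Fin 6)) ⊆ Set.univ ∧
      D.card = n ∧ ∀ w ∈ Set.univ, w ∈ D ∨ ∃ u ∈ D, G.Adj u w} := by
    apply le_csInf
    · exact ⟨_, Finset.univ, by simp, rfl, fun w _ => Or.inl (Finset.mem_univ w)⟩
    · rintro n ⟨D, _, rfl, hD⟩
      exact low_G D (fun w => hD w (Set.mem_univ w))
  have hlowE : 7 ≤ sInf {n : ℕ | ∃ D : Finset (Fin 4 × Fin 6),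
      (↑D : Set (Fin 4 × Fin 6)) ⊆ Set.univ ∧
      D.card = n ∧ ∀ w ∈ Set.univ, w ∈ D ∨
        ∃ u ∈ D, (G.deleteEdges (↑E : Set (Sym2 (Fin 4 × Fin 6)))).Adj u w} := by
    apply le_csInf
    · exact ⟨_, Finset.univ, by simp, rfl, fun w _ => Or.inl (Finset.mem_univ w)⟩
    · rintro n ⟨D, _, rfl, hD⟩
      exact low_GE D (fun w => hD w (Set.mem_univ w))
  have hup : sInf {n : ℕ | ∃ D : Finset (Fin 4 × Fin 6),
      (↑D : Set (Fin 4 × Fin 6)) ⊆ Set.univ ∧
      D.card = n ∧ ∀ w ∈ Set.univ, w ∈ D ∨ ∃ u ∈ D, G.Adj u w} ≤ 6 :=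
    Nat.sInf_le ⟨D6, by simp, by decide, fun w _ => D6_dom w⟩
  have hvc : ∀ v : Fin 4 × Fin 6, sInf {n : ℕ | ∃ D : Finset (Fin 4 × Fin 6),
      (↑D : Set (Fin 4 × Fin 6)) ⊆ {w | w ≠ v} ∧
      D.card = n ∧ ∀ w ∈ {w | w ≠ v}, w ∈ D ∨ ∃ u ∈ D, G.Adj u w} ≤ 5 := fun v =>
    Nat.sInf_le ⟨Dv v, fun w hw => Dv_sub v w (by exact_mod_cast hw), Dv_card v,
      fun w hw => Dv_dom v w hw⟩
  have hdeg : E.card ≤ G.minDegree := by
    have h4 : E.card ≤ 4 := Finset.card_le_four
    refine h4.trans (G.le_minDegree_of_forall_le_degree 4 (fun v => ?_))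
    have := deg_ge v
    rw [← SimpleGraph.card_neighborFinset_eq_degree]
    convert this using 2
    ext w
    rw [SimpleGraph.mem_neighborFinset]
    simp only [Finset.mem_filter, Finset.mem_univ, true_and]
    exact Iff.rfl
  have := key (fun v => by
    have h5 := hvc v
    exact lt_of_le_of_lt h5 (lt_of_lt_of_le (by norm_num) hlow)) E
    (fun e he => E_sub e (by exact_mod_cast he)) hdeg
  have h7 := hlowE.trans (this.trans hup)
  omega

end Pool.Agent.S05084
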