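import Pool.Statements.S05094

set_option autoImplicit false
open Pool Pool.MP_2a6d80_co

namespace Pool.Agent.S05094

open Topology Pointwise

/-- The rhombic dodecahedron. -/
def RD : Set (EuclideanSpace ℝ (Fin 3)) :=
  {v | |v 0| + |v 1| ≤ 2 ∧ |v 1| + |v 2| ≤ 2 ∧ |v 0| + |v 2| ≤ 2}

theorem isClosed_RD : IsClosed RD := by
  have h : RD = {v : EuclideanSpace ℝ (Fin 3) | |v 0| + |v 1| ≤ 2} ∩
      ({v : EuclideanSpace ℝ (Fin 3) | |v 1| + |v 2| ≤ 2} ∩
        {v : EuclideanSpace ℝ (Fin 3) | |v 0| + |v 2| ≤ 2}) := rfl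
  rw [h]
  refine IsClosed.inter ?_ (IsClosed.inter ?_ ?_) <;>
    exact isClosed_le (by fun_prop) continuous_const

theorem isOpen_lt2 : IsOpen {v : EuclideanSpace ℝ (Fin 3) |
    |v 0| + |v 1| < 2 ∧ |v 1| + |v 2| < 2 ∧ |v 0| + |v 2| < 2} := by
  have h : {v : EuclideanSpace ℝ (Fin 3) |
      |v 0| + |v 1| < 2 ∧ |v 1| + |v 2| < 2 ∧ |v 0| + |v 2| < 2} =
      {v : EuclideanSpace ℝ (Fin 3) | |v 0| + |v 1| < 2} ∩
      ({v : EuclideanSpace ℝ (Fin 3) | |v 1| + |v 2| < 2} ∩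
        {v : EuclideanSpace ℝ (Fin 3) | |v 0| + |v 2| < 2}) := rfl
  rw [h]
  refine IsOpen.inter ?_ (IsOpen.inter ?_ ?_) <;>
    exact isOpen_lt (by fun_prop) continuous_const

theorem mem_interior_RD {v : EuclideanSpace ℝ (Fin 3)}
    (h : |v 0| + |v 1| < 2 ∧ |v 1| + |v 2| < 2 ∧ |v 0| + |v 2| < 2) : v ∈ interior RD := by
  have hsub : {v : EuclideanSpace ℝ (Fin 3) |
      |v 0| + |v 1| < 2 ∧ |v 1| + |v 2| < 2 ∧ |v 0| + |v 2| < 2} ⊆ RD :=
    fun w hw => ⟨hw.1.le, hw.2.1.le, hw.2.2.le⟩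
  exact interior_maximal hsub isOpen_lt2 h

theorem lt_of_mem_interior_RD {v : EuclideanSpace ℝ (Fin 3)} (h : v ∈ interior RD) :
    |v 0| + |v 1| < 2 ∧ |v 1| + |v 2| < 2 ∧ |v 0| + |v 2| < 2 := by
  have hc : Filter.Tendsto (fun c : ℝ => c • v) (𝓝 1) (𝓝 v) := by
    have : Continuous (fun c : ℝ => c • v) := by fun_prop
    simpa using this.tendsto 1
  have h1 : ∀ᶠ c : ℝ in 𝓝 1, c • v ∈ interior RD :=
    hc.eventually (isOpen_interior.mem_nhds h)
  have h2 : ∀ᶠ c : ℝ in 𝓝[>] 1, c • v ∈ interior RD := nhdsWithin_le_nhds h1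
  obtain ⟨c, hc1, hc2⟩ := (h2.and self_mem_nhdsWithin).exists
  have hc3 : (1 : ℝ) < c := hc2
  have hc4 : (0 : ℝ) < c := by linarith
  have h3 : c • v ∈ RD := interior_subset hc1
  obtain ⟨h4, h5, h6⟩ := h3
  simp only [PiLp.smul_apply, smul_eq_mul, abs_mul, abs_of_pos hc4] at h4 h5 h6
  have e0 := abs_nonneg (v 0)
  have e1 := abs_nonneg (v 1)
  have e2 := abs_nonneg (v 2)
  refine ⟨?_, ?_, ?_⟩ <;> by_contra hcon <;> nlinarith [not_lt.mp hcon]

theorem convex_RD : Convex ℝ RD := by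
  intro x hx y hy a b ha hb hab
  obtain ⟨x1, x2, x3⟩ := hx
  obtain ⟨y1, y2, y3⟩ := hy
  have key : ∀ i : Fin 3, |(a • x + b • y) i| ≤ a * |x i| + b * |y i| := by
    intro i
    simp only [PiLp.add_apply, PiLp.smul_apply, smul_eq_mul]
    refine (abs_add_le _ _).trans ?_
    rw [abs_mul, abs_mul, abs_of_nonneg ha, abs_of_nonneg hb]
  have k0 := key 0
  have k1 := key 1
  have k2 := key 2
  refine ⟨?_, ?_, ?_⟩ <;> nlinarith

theorem isCompact_RD : IsCompact RD := by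
  refine Metric.isCompact_of_isClosed_isBounded isClosed_RD ?_
  refine (Metric.isBounded_closedBall (x := (0 : EuclideanSpace ℝ (Fin 3)))
    (r := 4)).subset ?_
  intro z hz
  obtain ⟨h1, h2, h3⟩ := hz
  rw [mem_closedBall_zero_iff]
  have e0 := abs_nonneg (z 0)
  have e1 := abs_nonneg (z 1)
  have e2 := abs_nonneg (z 2)
  have h4 : ‖z‖ ^ 2 ≤ 16 := by
    rw [EuclideanSpace.real_norm_sq_eq, Fin.sum_univ_three, ← sq_abs (z 0), ← sq_abs (z 1),
      ← sq_abs (z 2)]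
    nlinarith
  nlinarith [norm_nonneg z]

theorem RD_nhds : RD ∈ 𝓝 (0 : EuclideanSpace ℝ (Fin 3)) := by
  have : (0 : EuclideanSpace ℝ (Fin 3)) ∈ interior RD := mem_interior_RD (by simp)
  exact mem_interior_iff_mem_nhds.mp this

theorem gauge_ge (p : EuclideanSpace ℝ (Fin 3)) :
    |p 0| + |p 1| ≤ 2 * gauge RD p ∧ |p 1| + |p 2| ≤ 2 * gauge RD p ∧
      |p 0| + |p 2| ≤ 2 * gauge RD p := by
  have hne : {r : ℝ | 0 < r ∧ p ∈ r • RD}.Nonempty :=
    (absorbent_nhds_zero RD_nhds).gauge_set_nonempty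
  have key : ∀ r ∈ {r : ℝ | 0 < r ∧ p ∈ r • RD},
      (|p 0| + |p 1|) / 2 ≤ r ∧ (|p 1| + |p 2|) / 2 ≤ r ∧ (|p 0| + |p 2|) / 2 ≤ r := by
    rintro r ⟨hr, k, ⟨h1, h2, h3⟩, rfl⟩
    simp only [PiLp.smul_apply, smul_eq_mul, abs_mul, abs_of_pos hr]
    refine ⟨?_, ?_, ?_⟩ <;> nlinarith
  have g1 : (|p 0| + |p 1|) / 2 ≤ gauge RD p := le_csInf hne fun r hr => (key r hr).1
  have g2 : (|p 1| + |p 2|) / 2 ≤ gauge RD p := le_csInf hne fun r hr => (key r hr).2.1
  have g3 : (|p 0| + |p 2|) / 2 ≤ gauge RD p := le_csInf hne fun r hr => (key r hr).2.2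
  refine ⟨?_, ?_, ?_⟩ <;> linarith

/-- The sign of a Boolean. -/
def sg (b : Bool) : ℝ := if b then 1 else -1

/-- The 14 vertices. -/
abbrev V := (Fin 3 × Bool) ⊕ (Bool × Bool × Bool)

/-- The position of a vertex. -/
noncomputable def vert : V → EuclideanSpace ℝ (Fin 3)
  | Sum.inl (i, b) => EuclideanSpace.single i (2 * sg b)
  | Sum.inr (a, b, c) => !₂[sg a, sg b, sg c]

/-- Necessary condition for `p` to illuminate a vertex. -/
def cond (p : EuclideanSpace ℝ (Fin 3)) : V → Prop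
  | Sum.inl (i, b) => ∀ j : Fin 3, j ≠ i → 2 + |p j| < sg b * p i
  | Sum.inr (a, b, c) => 2 < sg a * p 0 + sg b * p 1 ∧ 2 < sg b * p 1 + sg c * p 2 ∧
      2 < sg a * p 0 + sg c * p 2

theorem pair_bound {x y : ℝ} (h : |x| + |y| < 2) :
    x + y < 2 ∧ x - y < 2 ∧ -x + y < 2 ∧ -x - y < 2 := by
  have h1 := le_abs_self x
  have h2 := le_abs_self y
  have h3 := neg_le_abs x
  have h4 := neg_le_abs y
  refine ⟨?_, ?_, ?_, ?_⟩ <;> linarith

theorem axis_aux {σ x y t : ℝ} (hσ : σ = 1 ∨ σ = -1) (ht : 0 < t)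
    (h : |2 * σ + t * (2 * σ - x)| + |t * (0 - y)| < 2) : 2 + |y| < σ * x := by
  obtain ⟨h1, h2, h3, h4⟩ := pair_bound h
  rcases hσ with rfl | rfl
  · have a1 : t * (2 - x - y) < 0 := by nlinarith
    have a2 : t * (2 - x + y) < 0 := by nlinarith
    have b1 : 2 - x - y < 0 := by
      by_contra hc
      nlinarith [mul_nonneg ht.le (not_lt.mp hc)]
    have b2 : 2 - x + y < 0 := by
      by_contra hc
      nlinarith [mul_nonneg ht.le (not_lt.mp hc)]
    rcases abs_cases y with ⟨hy, _⟩ | ⟨hy, _⟩ <;> rw [hy] <;> linarith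
  · have a1 : t * (2 + x - y) < 0 := by nlinarith
    have a2 : t * (2 + x + y) < 0 := by nlinarith
    have b1 : 2 + x - y < 0 := by
      by_contra hc
      nlinarith [mul_nonneg ht.le (not_lt.mp hc)]
    have b2 : 2 + x + y < 0 := by
      by_contra hc
      nlinarith [mul_nonneg ht.le (not_lt.mp hc)]
    rcases abs_cases y with ⟨hy, _⟩ | ⟨hy, _⟩ <;> rw [hy] <;> linarith

theorem cube_aux {σ τ x y t : ℝ} (hσ : σ = 1 ∨ σ = -1) (hτ : τ = 1 ∨ τ = -1) (ht : 0 < t)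
    (h : |σ + t * (σ - x)| + |τ + t * (τ - y)| < 2) : 2 < σ * x + τ * y := by
  obtain ⟨h1, h2, h3, h4⟩ := pair_bound h
  have key : t * (2 - (σ * x + τ * y)) < 0 := by
    rcases hσ with rfl | rfl <;> rcases hτ with rfl | rfl <;> nlinarith
  by_contra hc
  nlinarith [mul_nonneg ht.le (sub_nonneg.mpr (not_lt.mp hc))]

theorem sg_cases (b : Bool) : sg b = 1 ∨ sg b = -1 := by
  cases b <;> simp [sg]

theorem cond_of_illum (p : EuclideanSpace ℝ (Fin 3)) (v : V) {t : ℝ} (ht : 0 < t)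
    (h : vert v + t • (vert v - p) ∈ interior RD) : cond p v := by
  obtain ⟨h1, h2, h3⟩ := lt_of_mem_interior_RD h
  match v with
  | Sum.inl (i, b) =>
    intro j hj
    fin_cases i <;> fin_cases j <;> simp [vert] at h1 h2 h3 hj ⊢
    · refine axis_aux (sg_cases b) ht ?_
      simpa using h1
    · refine axis_aux (sg_cases b) ht ?_
      simpa using h3
    · refine axis_aux (sg_cases b) ht ?_
      rw [add_comm] at h1
      simpa using h1
    · refine axis_aux (sg_cases b) ht ?_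
      simpa using h2
    · refine axis_aux (sg_cases b) ht ?_
      rw [add_comm] at h3
      simpa using h3
    · refine axis_aux (sg_cases b) ht ?_
      rw [add_comm] at h2
      simpa using h2
  | Sum.inr (a, b, c) =>
    simp [vert] at h1 h2 h3
    exact ⟨cube_aux (sg_cases a) (sg_cases b) ht h1, cube_aux (sg_cases b) (sg_cases c) ht h2,
      cube_aux (sg_cases a) (sg_cases c) ht h3⟩

theorem vert_frontier (v : V) : vert v ∈ frontier RD := by
  rw [isClosed_RD.frontier_eq]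
  match v with
  | Sum.inl (i, b) =>
    refine ⟨?_, fun h => ?_⟩
    · rcases sg_cases b with hb | hb <;> fin_cases i <;> simp [RD, vert, hb]
    · have h' := lt_of_mem_interior_RD h
      rcases sg_cases b with hb | hb <;> fin_cases i <;> simp [vert, hb] at h'
  | Sum.inr (a, b, c) =>
    refine ⟨?_, fun h => ?_⟩
    · rcases sg_cases a with ha | ha <;> rcases sg_cases b with hb | hb <;>
        rcases sg_cases c with hc | hc <;> simp [RD, vert, ha, hb, hc] <;> norm_num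
    · have h' := (lt_of_mem_interior_RD h).1
      rcases sg_cases a with ha | ha <;> rcases sg_cases b with hb | hb <;>
        simp [vert, ha, hb] at h' <;> norm_num at h'

theorem L1 {a a' b b' : Bool} {x y : ℝ} (h : 2 < sg a * x + sg b * y)
    (h' : 2 < sg a' * x + sg b' * y) (ha : a ≠ a') : b = b' ∧ 2 + |x| < |y| := by
  have hy1 := le_abs_self y
  have hy2 := neg_le_abs y
  cases a <;> cases a' <;> cases b <;> cases b' <;> simp [sg] at h h' ha ⊢ <;>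
    rcases abs_cases x with ⟨hx, _⟩ | ⟨hx, _⟩ <;> (try rw [hx]) <;> linarith

/-- Two illuminated cube vertices are adjacent. -/
def adj (s t : Bool × Bool × Bool) : Prop :=
  (s.1 ≠ t.1 → s.2.1 = t.2.1 ∧ s.2.2 = t.2.2) ∧
  (s.2.1 ≠ t.2.1 → s.1 = t.1 ∧ s.2.2 = t.2.2) ∧
  (s.2.2 ≠ t.2.2 → s.1 = t.1 ∧ s.2.1 = t.2.1)

instance (s t : Bool × Bool × Bool) : Decidable (adj s t) := by
  unfold adj; infer_instance

theorem no_triple : ∀ s t u : Bool × Bool × Bool, ¬ (s ≠ t ∧ s ≠ u ∧ t ≠ u ∧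
    adj s t ∧ adj s u ∧ adj t u) := by
  decide

theorem two_cube {p : EuclideanSpace ℝ (Fin 3)} {s t : Bool × Bool × Bool}
    (hs : cond p (Sum.inr s)) (ht : cond p (Sum.inr t)) (hst : s ≠ t) :
    adj s t ∧ ((2 + |p 0| < |p 1| ∧ 2 + |p 0| < |p 2|) ∨ (2 + |p 1| < |p 0| ∧ 2 + |p 1| < |p 2|) ∨
      (2 + |p 2| < |p 0| ∧ 2 + |p 2| < |p 1|)) := by
  obtain ⟨a, b, c⟩ := s
  obtain ⟨a', b', c'⟩ := t
  obtain ⟨h1, h2, h3⟩ := hs
  obtain ⟨k1, k2, k3⟩ := ht
  have h1' := h1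
  have k1' := k1
  rw [add_comm] at h1' k1'
  have h2' := h2
  have k2' := k2
  rw [add_comm] at h2' k2'
  have h3' := h3
  have k3' := k3
  rw [add_comm] at h3' k3'
  have A : a ≠ a' → (b = b' ∧ c = c') ∧ (2 + |p 0| < |p 1| ∧ 2 + |p 0| < |p 2|) := fun h =>
    ⟨⟨(L1 h1 k1 h).1, (L1 h3 k3 h).1⟩, (L1 h1 k1 h).2, (L1 h3 k3 h).2⟩
  have B : b ≠ b' → (a = a' ∧ c = c') ∧ (2 + |p 1| < |p 0| ∧ 2 + |p 1| < |p 2|) := fun h =>
    ⟨⟨(L1 h1' k1' h).1, (L1 h2 k2 h).1⟩, (L1 h1' k1' h).2, (L1 h2 k2 h).2⟩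
  have C : c ≠ c' → (a = a' ∧ b = b') ∧ (2 + |p 2| < |p 0| ∧ 2 + |p 2| < |p 1|) := fun h =>
    ⟨⟨(L1 h3' k3' h).1, (L1 h2' k2' h).1⟩, (L1 h3' k3' h).2, (L1 h2' k2' h).2⟩
  refine ⟨⟨fun h => (A h).1, fun h => (B h).1, fun h => (C h).1⟩, ?_⟩
  by_cases ha : a = a'
  · by_cases hb : b = b'
    · have hc : c ≠ c' := by
        intro hc
        exact hst (by rw [ha, hb, hc])
      exact Or.inr (Or.inr (C hc).2)
    · exact Or.inr (Or.inl (B hb).2)
  · exact Or.inl (A ha).2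

theorem one_cube {p : EuclideanSpace ℝ (Fin 3)} {s : Bool × Bool × Bool}
    (hs : cond p (Sum.inr s)) : 2 < |p 0| + |p 1| ∧ 2 < |p 1| + |p 2| ∧ 2 < |p 0| + |p 2| := by
  obtain ⟨a, b, c⟩ := s
  obtain ⟨h1, h2, h3⟩ := hs
  have key : ∀ (b : Bool) (x : ℝ), sg b * x ≤ |x| := by
    intro b x
    rcases sg_cases b with hb | hb <;> rw [hb]
    · simpa using le_abs_self x
    · simpa using neg_le_abs x
  refine ⟨?_, ?_, ?_⟩
  · linarith [key a (p 0), key b (p 1)]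
  · linarith [key b (p 1), key c (p 2)]
  · linarith [key a (p 0), key c (p 2)]

theorem one_axis {p : EuclideanSpace ℝ (Fin 3)} {i : Fin 3} {b : Bool}
    (hs : cond p (Sum.inl (i, b))) : ∀ j : Fin 3, j ≠ i → 2 + |p j| < |p i| := by
  intro j hj
  refine (hs j hj).trans_le ?_
  rcases sg_cases b with hb | hb <;> rw [hb]
  · simpa using le_abs_self (p i)
  · simpa using neg_le_abs (p i)

theorem axis_cases {p : EuclideanSpace ℝ (Fin 3)} {i : Fin 3} {b : Bool}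
    (hs : cond p (Sum.inl (i, b))) :
    (2 + |p 1| < |p 0| ∧ 2 + |p 2| < |p 0|) ∨ (2 + |p 0| < |p 1| ∧ 2 + |p 2| < |p 1|) ∨
      (2 + |p 0| < |p 2| ∧ 2 + |p 1| < |p 2|) := by
  have h := one_axis hs
  fin_cases i
  · exact Or.inl ⟨h 1 (by decide), h 2 (by decide)⟩
  · exact Or.inr (Or.inl ⟨h 0 (by decide), h 2 (by decide)⟩)
  · exact Or.inr (Or.inr ⟨h 0 (by decide), h 1 (by decide)⟩)

theorem axis_unique {p : EuclideanSpace ℝ (Fin 3)} {u v : Fin 3 × Bool}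
    (hu : cond p (Sum.inl u)) (hv : cond p (Sum.inl v)) : u = v := by
  obtain ⟨i, b⟩ := u
  obtain ⟨j, c⟩ := v
  by_cases hij : i = j
  · subst hij
    by_contra hne
    have hbc : b ≠ c := fun h => hne (by rw [h])
    have hex : ∀ i : Fin 3, ∃ k : Fin 3, k ≠ i := by decide
    obtain ⟨k, hk⟩ := hex i
    have h1 := hu k hk
    have h2 := hv k hk
    have h3 := abs_nonneg (p k)
    cases b <;> cases c <;> simp [sg] at h1 h2 hbc <;> linarith
  · have h1 := one_axis hu j (Ne.symm hij)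
    have h2 := one_axis hv i hij
    linarith

/-- A point `p` illuminates at most `‖p‖` vertices. -/
theorem card_le_gauge (p : EuclideanSpace ℝ (Fin 3)) (S : Finset V) (hS : ∀ v ∈ S, cond p v) :
    (S.card : ℝ) ≤ gauge RD p := by
  obtain ⟨g1, g2, g3⟩ := gauge_ge p
  have e0 := abs_nonneg (p 0)
  have e1 := abs_nonneg (p 1)
  have e2 := abs_nonneg (p 2)
  have hA : ∀ v ∈ S.toLeft, cond p (Sum.inl v) := fun v hv => hS _ (Finset.mem_toLeft.mp hv)
  have hC : ∀ v ∈ S.toRight, cond p (Sum.inr v) := fun v hv => hS _ (Finset.mem_toRight.mp hv)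
  have hcard := Finset.card_toLeft_add_card_toRight (u := S)
  have hA1 : S.toLeft.card ≤ 1 :=
    Finset.card_le_one.mpr fun u hu v hv => axis_unique (hA u hu) (hA v hv)
  have hC2 : S.toRight.card ≤ 2 := by
    by_contra hcon
    obtain ⟨s, t, u, hs, ht, hu, hst, hsu, htu⟩ := Finset.two_lt_card_iff.mp (not_le.mp hcon)
    exact no_triple s t u ⟨hst, hsu, htu, (two_cube (hC s hs) (hC t ht) hst).1,
      (two_cube (hC s hs) (hC u hu) hsu).1, (two_cube (hC t ht) (hC u hu) htu).1⟩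
  have hA' : S.toLeft.card = 0 ∨ (S.toLeft.card = 1 ∧
      ((2 + |p 1| < |p 0| ∧ 2 + |p 2| < |p 0|) ∨ (2 + |p 0| < |p 1| ∧ 2 + |p 2| < |p 1|) ∨
      (2 + |p 0| < |p 2| ∧ 2 + |p 1| < |p 2|))) := by
    rcases Nat.eq_zero_or_pos S.toLeft.card with h | h
    · exact Or.inl h
    · obtain ⟨⟨i, b⟩, hv⟩ := Finset.card_pos.mp h
      exact Or.inr ⟨by omega, axis_cases (hA _ hv)⟩
  have hC' : S.toRight.card = 0 ∨ (S.toRight.card = 1 ∧
      (2 < |p 0| + |p 1| ∧ 2 < |p 1| + |p 2| ∧ 2 < |p 0| + |p 2|)) ∨ (S.toRight.card = 2 ∧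
      ((2 + |p 0| < |p 1| ∧ 2 + |p 0| < |p 2|) ∨ (2 + |p 1| < |p 0| ∧ 2 + |p 1| < |p 2|) ∨
      (2 + |p 2| < |p 0| ∧ 2 + |p 2| < |p 1|))) := by
    have h3 : S.toRight.card = 0 ∨ S.toRight.card = 1 ∨ S.toRight.card = 2 := by omega
    rcases h3 with h | h | h
    · exact Or.inl h
    · obtain ⟨v, hv⟩ := Finset.card_pos.mp (by omega : 0 < S.toRight.card)
      exact Or.inr (Or.inl ⟨h, one_cube (hC _ hv)⟩)
    · obtain ⟨s, hs, t, ht, hst⟩ := Finset.one_lt_card.mp (by omega : 1 < S.toRight.card)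
      exact Or.inr (Or.inr ⟨h, (two_cube (hC s hs) (hC t ht) hst).2⟩)
  rw [← hcard]
  push_cast
  rcases hA' with a | ⟨a, ⟨a1, a2⟩ | ⟨a1, a2⟩ | ⟨a1, a2⟩⟩ <;>
    rcases hC' with c | ⟨c, c1, c2, c3⟩ | ⟨c, ⟨c1, c2⟩ | ⟨c1, c2⟩ | ⟨c1, c2⟩⟩ <;>
    rw [a, c] <;> push_cast <;> linarith

/-- The negation of the preceding statement: For every origin-symmetric convex body K in 3-space and every ε>0, some finite set of points outside K illuminates every boundary point of K, with the sum of their K-norms below 12+ε; that is, ill(K) ≤ 12. -/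
theorem result :
    ¬ (∀ K : Set (EuclideanSpace ℝ (Fin 3)),
      Convex ℝ K → IsCompact K → (interior K).Nonempty → (∀ x ∈ K, -x ∈ K) →
      ∀ ε : ℝ, 0 < ε →
        ∃ P : Finset (EuclideanSpace ℝ (Fin 3)),
          (∀ p ∈ P, p ∉ K) ∧
          (∀ q ∈ frontier K, ∃ p ∈ P, ∃ t : ℝ, 0 < t ∧ q + t • (q - p) ∈ interior K) ∧
          ∑ p ∈ P, gauge K p < 12 + ε) := by
  classical
  intro H
  obtain ⟨P, _, hill, hsum⟩ := H RD convex_RD isCompact_RD ⟨0, mem_interior_RD (by simp)⟩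
    (by
      rintro x ⟨h1, h2, h3⟩
      refine ⟨?_, ?_, ?_⟩ <;> simpa using by assumption) 1 one_pos
  choose g hgP t ht hg using fun v : V => hill (vert v) (vert_frontier v)
  have hfib := Finset.card_eq_sum_card_fiberwise (f := g) (s := (Finset.univ : Finset V)) (t := P)
    (fun v _ => hgP v)
  have hV : (Finset.univ : Finset V).card = 14 := by decide
  rw [hV] at hfib
  have hle : ((14 : ℕ) : ℝ) ≤ ∑ p ∈ P, gauge RD p := by
    rw [hfib]
    push_cast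
    refine Finset.sum_le_sum fun p _ => ?_
    refine card_le_gauge p _ ?_
    intro v hv
    have hgv : g v = p := by simpa using hv
    rw [← hgv]
    exact cond_of_illum (g v) v (ht v) (hg v)
  norm_num at hle
  linarith

end Pool.Agent.S05094
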