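import Pool.Statements.S05098
import Pool.Agent.Helper951.FamC

set_option autoImplicit false
open Matrix
open scoped Classical
open Pool Pool.MP_2afb6f_co

namespace Pool.Agent.S05098

open Pool.Agent.Helper951.Fam Pool.Agent.Helper951.Perron

/-- An `H`-free graph with at least as many edges as the special graph does not have maximum
spectral radius: a graph of the form `K_1 ∇ K(A, B)` does better. -/
lemma beaten {V : Type*} [Fintype V] [DecidableEq V] (G : SimpleGraph V) [DecidableRel G.Adj]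
    (hH0 : ¬ H0.IsContained G) (hFF : ¬ FF.IsContained G) (hTT : ¬ TT.IsContained G)
    (hn : 10 ^ 9 ≤ Fintype.card V)
    (he : (Fintype.card V) ^ 2 + 2 * Fintype.card V + 4 ≤ 4 * G.edgeFinset.card)
    (lam : ℝ) (x : V → ℝ) (hx1 : x ⬝ᵥ x = 1) (hx0 : ∀ v, 0 ≤ x v)
    (hev : ∀ v, ∑ u ∈ G.neighborFinset v, x u = lam * x v)
    (hq : ∀ y : V → ℝ, y ⬝ᵥ (G.adjMatrix ℝ *ᵥ y) ≤ lam * (y ⬝ᵥ y)) :
    ∃ (v0 : V) (c : V → Bool),
      x ⬝ᵥ (G.adjMatrix ℝ *ᵥ x) < x ⬝ᵥ ((Gs v0 c).adjMatrix ℝ *ᵥ x) := by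
  obtain ⟨v0, c, hI⟩ := structure_lemma G hTT hFF (by omega) he
  have hE := energy G v0 c he
  have hsc := side_card v0 c
  have hcl : ∀ b, 20 ≤ (cleanS G v0 c b).card := by
    have h1 : ((∑ u, ∑ v, ins G v0 c u v : ℕ) : ℤ) ≤ 1248000 := by exact_mod_cast hI
    have h2 : (0 : ℤ) ≤ (mis0 G v0).card := Int.natCast_nonneg _
    have h3 : (0 : ℤ) ≤ ((∑ u, ∑ v, mis G v0 c u v : ℕ) : ℤ) := Int.natCast_nonneg _
    have h0 := sq_nonneg (((side v0 c true).card : ℤ) - (side v0 c false).card)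
    have h4 : (((side v0 c true).card : ℤ) - (side v0 c false).card) ^ 2 ≤ 1600 ^ 2 := by
      linarith
    have h5 := abs_le_of_sq_le_sq' h4 (by norm_num)
    have hct := clean_card G v0 c true
    have hcf := clean_card G v0 c false
    generalize ∑ u, ∑ v, ins G v0 c u v = I at *
    generalize ∑ u, ∑ v, mis G v0 c u v = M at *
    generalize (mis0 G v0).card = m0 at *
    have h6 : (M : ℤ) ≤ 1248000 := by linarith
    have h7 : (m0 : ℤ) ≤ 1248000 := by linarith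
    intro b
    cases b
    · omega
    · omega
  have hna : ∀ u v, ins G v0 c u v ≠ 0 → ¬ G.Adj v0 u := by
    intro u v huv
    unfold ins at huv
    by_cases h : u ≠ v0 ∧ v ≠ v0 ∧ c u = c v ∧ G.Adj u v
    · exact inside_nonadj G hH0 v0 c hcl u v h.1 h.2.1 h.2.2.1 h.2.2.2
    · rw [if_neg h] at huv
      exact absurd rfl huv
  exact ⟨v0, c, spectral_main G v0 c hn he hI hna (inside_degree G hFF v0 c hcl) lam x hx1 hx0
    hev hq⟩

/-- orders of the members of the family -/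
def kk : Fin 3 → ℕ
  | 0 => 10
  | 1 => 18
  | 2 => 12

/-- the family -/
def FFam : (i : Fin 3) → SimpleGraph (Fin (kk i))
  | 0 => H0
  | 1 => FF
  | 2 => TT

lemma free_iff {V : Type*} (G : SimpleGraph V) :
    (∀ i : Fin 3, ¬ (FFam i).IsContained G) ↔
      (¬ H0.IsContained G ∧ ¬ FF.IsContained G ∧ ¬ TT.IsContained G) := by
  constructor
  · intro h
    exact ⟨h 0, h 1, h 2⟩
  · rintro ⟨h0, h1, h2⟩ i
    fin_cases i
    · exact h0
    · exact h1
    · exact h2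

lemma Gs_free {V : Type*} [DecidableEq V] (v0 : V) (c : V → Bool) :
    ∀ i : Fin 3, ¬ (FFam i).IsContained (Gs v0 c) := by
  have h : ∀ u v, (Gs v0 c).Adj u v → u ≠ v0 → v ≠ v0 → c u ≠ c v := by
    rintro u v ⟨_, h | h | h⟩ hu hv
    · exact absurd h hu
    · exact absurd h hv
    · exact h
  rw [free_iff]
  exact ⟨typeI_free (by norm_num) H0 H0_tri _ v0 c h, typeI_free (by norm_num) FF FF_tri _ v0 c h,
    typeI_free (by norm_num) TT TT_tri _ v0 c h⟩

/-- The negation of the preceding statement: For a finite graph family with min chromatic number p+1, p ≥ 2, if some member embeds in a complete p-partite graph plus a matching inside one part, then for all large n every H-free n-vertex graph of maximum spectral radius also has the maximum edge count. -/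
theorem result :
    ¬ (∀ (m : ℕ) (k : Fin m → ℕ) (F : ∀ i : Fin m, SimpleGraph (Fin (k i))) (p : ℕ),
      2 ≤ p →
      (∃ i : Fin m, (F i).chromaticNumber = ((p + 1 : ℕ) : ℕ∞)) →
      (∀ i : Fin m, ((p + 1 : ℕ) : ℕ∞) ≤ (F i).chromaticNumber) →
      (∃ i : Fin m, ∃ N : ℕ, (F i).IsContained
        (SimpleGraph.fromRel (fun u v : Fin p × Fin N =>
          u.1 ≠ v.1 ∨ (u.1.val = 0 ∧ v.1.val = 0 ∧ u.2.val / 2 = v.2.val / 2)))) →
      ∃ N0 : ℕ, ∀ n : ℕ, N0 ≤ n → ∀ G : SimpleGraph (Fin n),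
        ((∀ i : Fin m, ¬ (F i).IsContained G) ∧
          ∀ G' : SimpleGraph (Fin n), (∀ i : Fin m, ¬ (F i).IsContained G') →
            ∀ x : Fin n → ℝ, x ≠ 0 → ∃ y : Fin n → ℝ, y ≠ 0 ∧
              (x ⬝ᵥ (G'.adjMatrix ℝ *ᵥ x)) * (y ⬝ᵥ y) ≤
                (y ⬝ᵥ (G.adjMatrix ℝ *ᵥ y)) * (x ⬝ᵥ x)) →
        ((∀ i : Fin m, ¬ (F i).IsContained G) ∧
          ∀ G' : SimpleGraph (Fin n), (∀ i : Fin m, ¬ (F i).IsContained G') →
            G'.edgeSet.ncard ≤ G.edgeSet.ncard)) := by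
  intro hall
  obtain ⟨N0, hN⟩ := hall 3 kk FFam 2 le_rfl ⟨0, H0_chrom⟩
    (by
      intro i
      fin_cases i
      · exact H0_chrom.ge
      · exact FF_chrom
      · exact TT_chrom) ⟨0, 8, H0_matching⟩
  obtain ⟨n, hn⟩ : ∃ n, n = N0 + 10 ^ 9 := ⟨_, rfl⟩
  have hn9 : 10 ^ 9 ≤ n := by omega
  have hne : Nonempty (Fin n) := ⟨⟨0, by omega⟩⟩
  -- the largest eigenvalue of every graph
  choose lam x hx1 hx0 hev hq using fun G : SimpleGraph (Fin n) => perron G
  -- a spectral extremal graph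
  let S : Finset (SimpleGraph (Fin n)) :=
    Finset.univ.filter (fun G => ∀ i : Fin 3, ¬ (FFam i).IsContained G)
  have hSne : S.Nonempty :=
    ⟨Gs ⟨0, by omega⟩ (fun _ => true), Finset.mem_filter.2 ⟨Finset.mem_univ _, Gs_free _ _⟩⟩
  obtain ⟨G, hGS, hmax⟩ := Finset.exists_max_image S lam hSne
  have hGfree : ∀ i : Fin 3, ¬ (FFam i).IsContained G := (Finset.mem_filter.1 hGS).2
  have hlamG : ∀ G : SimpleGraph (Fin n), x G ⬝ᵥ (G.adjMatrix ℝ *ᵥ x G) = lam G := by
    intro G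
    have h1 : G.adjMatrix ℝ *ᵥ x G = lam G • x G := by
      funext v
      rw [SimpleGraph.adjMatrix_mulVec_apply, hev G v]
      rfl
    rw [h1, dotProduct_smul, hx1 G, smul_eq_mul, mul_one]
  have hspex : ∀ G' : SimpleGraph (Fin n), (∀ i : Fin 3, ¬ (FFam i).IsContained G') →
      ∀ z : Fin n → ℝ, z ≠ 0 → ∃ y : Fin n → ℝ, y ≠ 0 ∧
        (z ⬝ᵥ (G'.adjMatrix ℝ *ᵥ z)) * (y ⬝ᵥ y) ≤
          (y ⬝ᵥ (G.adjMatrix ℝ *ᵥ y)) * (z ⬝ᵥ z) := by
    intro G' hG' z hz
    refine ⟨x G, ?_, ?_⟩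
    · intro h
      have := hx1 G
      rw [h] at this
      simp at this
    · rw [hx1 G, hlamG G, mul_one]
      have h1 := hq G' z
      have h2 := hmax G' (Finset.mem_filter.2 ⟨Finset.mem_univ _, hG'⟩)
      have h3 := dot_self_nonneg z
      nlinarith
  obtain ⟨_, hex⟩ := hN n (by omega) G ⟨hGfree, hspex⟩
  -- the special graph gives a lower bound for the number of edges
  obtain ⟨l, hl⟩ : ∃ l, n = l + 1 := ⟨n - 1, by omega⟩
  have hn1 : 1 + l = n := by omega
  let e : Fin 1 ⊕ Fin l ≃ Fin n := finSumFinEquiv.trans (finCongr hn1)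
  let G1 : SimpleGraph (Fin n) := (Gp l).map e
  have iso : Gp l ≃g G1 := SimpleGraph.Iso.map e (Gp l)
  have hG1free : ∀ i : Fin 3, ¬ (FFam i).IsContained G1 := by
    rw [free_iff]
    refine ⟨fun h => ?_, fun h => ?_, fun h => ?_⟩
    · exact Gp_H0_free l (h.trans iso.symm.isContained)
    · exact Gp_FF_free l (h.trans iso.symm.isContained)
    · exact Gp_TT_free l (h.trans iso.symm.isContained)
  have h1 := hex G1 hG1free
  have h2 : G1.edgeSet.ncard = (Gp l).edgeSet.ncard := (Nat.card_congr iso.mapEdgeSet).symm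
  have h3 := Gp_card_lower (l := l) (by omega)
  have h4 : G.edgeSet.ncard = G.edgeFinset.card := by
    rw [Set.ncard_eq_toFinset_card']
    rfl
  have he : (Fintype.card (Fin n)) ^ 2 + 2 * Fintype.card (Fin n) + 4 ≤
      4 * G.edgeFinset.card := by
    rw [Fintype.card_fin, ← h4]
    rw [← hl] at h3
    omega
  obtain ⟨hH0, hFF, hTT⟩ := (free_iff G).1 hGfree
  obtain ⟨v0, c, hlt⟩ := beaten G hH0 hFF hTT (by rw [Fintype.card_fin]; exact hn9) he (lam G)
    (x G) (hx1 G) (hx0 G) (hev G) (hq G)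
  have h5 := hmax (Gs v0 c) (Finset.mem_filter.2 ⟨Finset.mem_univ _, Gs_free v0 c⟩)
  have h6 := hq (Gs v0 c) (x G)
  rw [hx1 G, mul_one] at h6
  rw [hlamG G] at hlt
  have h7 : x G ⬝ᵥ ((Gs v0 c).adjMatrix ℝ *ᵥ x G) ≤ lam G := by
    refine le_trans (le_of_eq ?_) (h6.trans h5)
    congr!
  linarith

end Pool.Agent.S05098
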