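import Pool.Statements.S05106
import Pool.Agent.Helper54.Block

set_option autoImplicit false
open Pool Pool.MP_2bb7c5_co

namespace Pool.Agent.S05106

/-- The negation of the preceding statement: For every c>0 there is C such that any family of subsets of an n-set, each of size more than c√n and pairwise meeting in at most one point, has a set B meeting every member in between 1 and C points. -/
theorem result :
    ¬ (∀ c : ℝ, 0 < c → ∃ C : ℕ, ∀ n : ℕ, ∀ F : Finset (Finset (Fin n)),
      (∀ A ∈ F, c * Real.sqrt (n : ℝ) < ((A.card : ℕ) : ℝ)) →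
      (∀ A ∈ F, ∀ A' ∈ F, A ≠ A' → (A ∩ A').card < 2) →
      ∃ B : Finset (Fin n), ∀ A ∈ F, 1 ≤ (A ∩ B).card ∧ (A ∩ B).card ≤ C) := by
  intro hall
  obtain ⟨C, hC⟩ := hall (1 / 8) (by norm_num)
  obtain ⟨p, hp, w, hw⟩ := Pool.Agent.Helper54.Block.exists_choice C
  have hcard : Fintype.card (ZMod p × ZMod p) = p * p := by
    rw [Fintype.card_prod, ZMod.card]
  let e : (ZMod p × ZMod p) ≃ Fin (p * p) := Fintype.equivFinOfCardEq hcard
  let g : (ZMod p × ZMod p) → ZMod p → Fin (p * p) := fun l x => e (x, l.1 * x + l.2)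
  have hg : ∀ l, Function.Injective (g l) := by
    intro l x y hxy
    have := e.injective hxy
    exact (Prod.mk.inj this).1
  let f : (ZMod p × ZMod p) → Finset (Fin (p * p)) := fun l => (w l).image (g l)
  let F : Finset (Finset (Fin (p * p))) :=
    (Finset.univ.filter (fun l : ZMod p × ZMod p => p < 8 * (w l).card)).image f
  have hF1 : ∀ A ∈ F, (1 / 8 : ℝ) * Real.sqrt ((p * p : ℕ) : ℝ) < ((A.card : ℕ) : ℝ) := by
    intro A hA
    obtain ⟨l, hl, rfl⟩ := Finset.mem_image.mp hA
    simp only [Finset.mem_filter, Finset.mem_univ, true_and] at hl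
    have h1 : (f l).card = (w l).card := Finset.card_image_of_injective _ (hg l)
    rw [h1]
    push_cast
    rw [Real.sqrt_mul_self (by positivity)]
    have : (p : ℝ) < 8 * ((w l).card : ℝ) := by exact_mod_cast hl
    linarith
  have hF2 : ∀ A ∈ F, ∀ A' ∈ F, A ≠ A' → (A ∩ A').card < 2 := by
    intro A hA A' hA' hne
    obtain ⟨l, hl, rfl⟩ := Finset.mem_image.mp hA
    obtain ⟨l', hl', rfl⟩ := Finset.mem_image.mp hA'
    have hll : l ≠ l' := fun h => hne (by rw [h])
    by_contra hcon
    push Not at hcon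
    obtain ⟨a, ha, b, hb, hab⟩ := Finset.one_lt_card.mp (show 1 < (f l ∩ f l').card by omega)
    rw [Finset.mem_inter] at ha hb
    obtain ⟨x, -, hx⟩ := Finset.mem_image.mp ha.1
    obtain ⟨x', -, hx'⟩ := Finset.mem_image.mp ha.2
    obtain ⟨y, -, hy⟩ := Finset.mem_image.mp hb.1
    obtain ⟨y', -, hy'⟩ := Finset.mem_image.mp hb.2
    have h1 := Prod.mk.inj (e.injective (hx.trans hx'.symm))
    have h2 := Prod.mk.inj (e.injective (hy.trans hy'.symm))
    obtain ⟨h1a, h1b⟩ := h1
    obtain ⟨h2a, h2b⟩ := h2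
    subst h1a
    subst h2a
    have hxy : x ≠ y := by
      intro h
      apply hab
      rw [← hx, ← hy, h]
    have h3 : (l.1 - l'.1) * (x - y) = 0 := by linear_combination h1b - h2b
    rcases mul_eq_zero.mp h3 with h4 | h4
    · apply hll
      have h5 : l.1 = l'.1 := sub_eq_zero.mp h4
      ext
      · exact h5
      · rw [h5] at h1b
        exact add_left_cancel h1b
    · exact hxy (sub_eq_zero.mp h4)
  obtain ⟨B, hB⟩ := hC (p * p) F hF1 hF2
  obtain ⟨l, hl, hbad⟩ := hw (B.map e.symm.toEmbedding)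
  have hmem : f l ∈ F := Finset.mem_image.mpr ⟨l, by simp [hl], rfl⟩
  have h1 := hB _ hmem
  have h2 : (w l ∩ Pool.Agent.Helper54.Block.trace p (B.map e.symm.toEmbedding) l).card
      = (f l ∩ B).card := by
    apply Finset.card_bij (fun x _ => g l x)
    · intro x hx
      rw [Finset.mem_inter] at hx
      simp only [Pool.Agent.Helper54.Block.trace, Finset.mem_filter, Finset.mem_univ, true_and,
        Finset.mem_map_equiv, Equiv.symm_symm] at hx
      rw [Finset.mem_inter]
      exact ⟨Finset.mem_image_of_mem _ hx.1, hx.2⟩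
    · intro x _ y _ h
      exact hg l h
    · intro q hq
      rw [Finset.mem_inter] at hq
      obtain ⟨x, hx, rfl⟩ := Finset.mem_image.mp hq.1
      refine ⟨x, ?_, rfl⟩
      rw [Finset.mem_inter]
      refine ⟨hx, ?_⟩
      simp only [Pool.Agent.Helper54.Block.trace, Finset.mem_filter, Finset.mem_univ, true_and,
        Finset.mem_map_equiv, Equiv.symm_symm]
      exact hq.2
  rw [h2] at hbad
  exact hbad h1

end Pool.Agent.S05106
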