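import Pool.Statements.S05107

set_option autoImplicit false
open Pointwise
open Pool Pool.MP_2bbb0a_co

namespace Pool.Agent.S05107

variable {n : ℕ}

lemma add_self_zero (x : Fin n → ZMod 2) : x + x = 0 := by
  funext i
  have h : ∀ z : ZMod 2, z + z = 0 := by decide
  exact h (x i)

/-- the sum of a 0/1-valued function over the 16 points of a parallelepiped -/
def T (f : (Fin n → ZMod 2) → ℕ) (a b c d : Fin n → ZMod 2) (x : Fin n → ZMod 2) : ℕ :=
  ∑ p : ZMod 2 × ZMod 2 × ZMod 2 × ZMod 2,
    f (x + (p.1 • a + p.2.1 • b + p.2.2.1 • c + p.2.2.2 • d))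

lemma T_shift (f : (Fin n → ZMod 2) → ℕ) (a b c d x : Fin n → ZMod 2)
    (q : ZMod 2 × ZMod 2 × ZMod 2 × ZMod 2) :
    T f a b c d (x + (q.1 • a + q.2.1 • b + q.2.2.1 • c + q.2.2.2 • d)) = T f a b c d x := by
  unfold T
  rw [← Equiv.sum_comp (Equiv.addLeft q) (fun p : ZMod 2 × ZMod 2 × ZMod 2 × ZMod 2 =>
    f (x + (p.1 • a + p.2.1 • b + p.2.2.1 • c + p.2.2.2 • d)))]
  refine Finset.sum_congr rfl fun p _ => ?_
  congr 1
  simp only [Equiv.coe_addLeft, Prod.fst_add, Prod.snd_add, add_smul]
  abel

lemma zsum (g : ZMod 2 → ℕ) : ∑ i : ZMod 2, g i = g 0 + g 1 := Fin.sum_univ_two g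

lemma T_le_of_one (f : (Fin n → ZMod 2) → ℕ) (a b c d x : Fin n → ZMod 2)
    (ha : ∀ y, f y + f (y + a) ≤ 1) (hb : ∀ y, f y + f (y + b) ≤ 1)
    (hc : ∀ y, f y + f (y + c) ≤ 1) (hd : ∀ y, f y + f (y + d) ≤ 1)
    (he : ∀ y, f y + f (y + (a + b + c + d)) ≤ 1) (hx : f x = 1) :
    T f a b c d x ≤ 5 := by
  unfold T
  simp only [Fintype.sum_prod_type, zsum, zero_smul, one_smul, zero_add, add_zero]
  have e1 := ha x
  have e2 := hb x
  have e3 := hc x
  have e4 := hd x
  have e5 := he x
  -- first five cycle ab - abc - bc - ad - abd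
  have c1 := hc (x + (a + b))
  have c2 := ha (x + (b + c))
  have c3 := he (x + (b + c))
  have c4 := hb (x + (a + d))
  have c5 := hd (x + (a + b))
  have r1 : x + (a + b) + c = x + (a + b + c) := by abel
  have r2 : x + (b + c) + a = x + (a + b + c) := by abel
  have r3 : x + (b + c) + (a + b + c + d) = x + (a + d) := by
    have : x + (b + c) + (a + b + c + d) = x + (a + d) + (b + b) + (c + c) := by abel
    rw [this, add_self_zero, add_self_zero]; simp
  have r4 : x + (a + d) + b = x + (a + b + d) := by abel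
  have r5 : x + (a + b) + d = x + (a + b + d) := by abel
  rw [r1] at c1
  rw [r2] at c2
  rw [r3] at c3
  rw [r4] at c4
  rw [r5] at c5
  -- second five cycle ac - bd - bcd - cd - acd
  have g1 := he (x + (a + c))
  have g2 := hc (x + (b + d))
  have g3 := hb (x + (c + d))
  have g4 := ha (x + (c + d))
  have g5 := hd (x + (a + c))
  have s1 : x + (a + c) + (a + b + c + d) = x + (b + d) := by
    have : x + (a + c) + (a + b + c + d) = x + (b + d) + (a + a) + (c + c) := by abel
    rw [this, add_self_zero, add_self_zero]; simp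
  have s2 : x + (b + d) + c = x + (b + c + d) := by abel
  have s3 : x + (c + d) + b = x + (b + c + d) := by abel
  have s4 : x + (c + d) + a = x + (a + c + d) := by abel
  have s5 : x + (a + c) + d = x + (a + c + d) := by abel
  rw [s1] at g1
  rw [s2] at g2
  rw [s3] at g3
  rw [s4] at g4
  rw [s5] at g5
  omega

/-- if no point of `A + A` is one of `a, b, c, d, a+b+c+d` then `A` has density at most `5/16` -/
lemma clebsch (A : Finset (Fin n → ZMod 2)) (a b c d : Fin n → ZMod 2)
    (ha : a ∉ A + A) (hb : b ∉ A + A) (hc : c ∉ A + A) (hd : d ∉ A + A)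
    (he : a + b + c + d ∉ A + A) : 16 * A.card ≤ 5 * 2 ^ n := by
  classical
  set f : (Fin n → ZMod 2) → ℕ := fun y => if y ∈ A then 1 else 0 with hf
  have key : ∀ u, u ∉ A + A → ∀ y, f y + f (y + u) ≤ 1 := by
    intro u hu y
    simp only [hf]
    by_cases h1 : y ∈ A
    · by_cases h2 : y + u ∈ A
      · exfalso
        apply hu
        rw [Finset.mem_add]
        refine ⟨y, h1, y + u, h2, ?_⟩
        rw [← add_assoc, add_self_zero, zero_add]
      · simp [h1, h2]
    · by_cases h2 : y + u ∈ A
      · simp [h1, h2]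
      · simp [h1, h2]
  have hT : ∀ x, T f a b c d x ≤ 5 := by
    intro x
    by_cases hz : ∀ p : ZMod 2 × ZMod 2 × ZMod 2 × ZMod 2,
        f (x + (p.1 • a + p.2.1 • b + p.2.2.1 • c + p.2.2.2 • d)) = 0
    · have : T f a b c d x = 0 := by
        unfold T
        exact Finset.sum_eq_zero fun p _ => hz p
      omega
    · push Not at hz
      obtain ⟨p, hp⟩ := hz
      rw [← T_shift f a b c d x p]
      apply T_le_of_one f a b c d _ (key a ha) (key b hb) (key c hc) (key d hd) (key _ he)
      have : f (x + (p.1 • a + p.2.1 • b + p.2.2.1 • c + p.2.2.2 • d)) ≤ 1 := by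
        simp only [hf]; split_ifs <;> omega
      omega
  have hsum : ∑ x, T f a b c d x = 16 * A.card := by
    unfold T
    rw [Finset.sum_comm]
    have h1 : ∀ p ∈ (Finset.univ : Finset (ZMod 2 × ZMod 2 × ZMod 2 × ZMod 2)),
        ∑ x, f (x + (p.1 • a + p.2.1 • b + p.2.2.1 • c + p.2.2.2 • d)) = A.card := by
      intro p _
      have := Equiv.sum_comp (Equiv.addRight (p.1 • a + p.2.1 • b + p.2.2.1 • c + p.2.2.2 • d)) f
      simp only [Equiv.coe_addRight] at this
      rw [this]
      simp [hf]
    rw [Finset.sum_congr rfl h1, Finset.sum_const, Finset.card_univ, smul_eq_mul]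
    congr 1
  have hle : ∑ x, T f a b c d x ≤ ∑ _x : Fin n → ZMod 2, 5 :=
    Finset.sum_le_sum fun x _ => hT x
  rw [hsum, Finset.sum_const, Finset.card_univ, smul_eq_mul] at hle
  have hc : Fintype.card (Fin n → ZMod 2) = 2 ^ n := by
    rw [Fintype.card_fun, ZMod.card, Fintype.card_fin]
  rw [hc] at hle
  omega

/-- a maximal set `B ⊇ D` whose fourfold sumset avoids `D` satisfies `B ∪ 4B = F_2^n` -/
lemma maximal_four (D : Finset (Fin n → ZMod 2)) (hne : D.Nonempty)
    (h4 : ∀ y ∈ D + D + D + D, y ∉ D) :
    ∃ B : Finset (Fin n → ZMod 2), (∀ y ∈ B + B + B + B, y ∉ D) ∧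
      2 ^ n ≤ 2 * (B + B + B + B).card := by
  classical
  obtain ⟨B, hB⟩ := Set.Finite.exists_maximal
    (s := {B : Finset (Fin n → ZMod 2) | D ⊆ B ∧ ∀ y ∈ B + B + B + B, y ∉ D})
    (Set.toFinite _) ⟨D, le_rfl, h4⟩
  have hDB : D ⊆ B := hB.prop.1
  have hB4 := hB.prop.2
  obtain ⟨b0, hb0⟩ : B.Nonempty := hne.mono hDB
  refine ⟨B, hB4, ?_⟩
  have hcover : ∀ x, x ∉ B → x ∈ B + B + B + B := by
    intro x hx
    have hnot : ¬ (D ⊆ insert x B ∧
        ∀ y ∈ insert x B + insert x B + insert x B + insert x B, y ∉ D) := by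
      intro hP
      have hle := hB.le_of_ge hP (Finset.subset_insert x B)
      exact hx (hle (Finset.mem_insert_self x B))
    have hex : ∃ y ∈ insert x B + insert x B + insert x B + insert x B, y ∈ D := by
      by_contra hcon
      push Not at hcon
      exact hnot ⟨hDB.trans (Finset.subset_insert x B), hcon⟩
    obtain ⟨y, hy, hyD⟩ := hex
    have hyB : y ∈ B := hDB hyD
    -- helper: four elements of B
    have mk4 : ∀ p q r s : Fin n → ZMod 2, p ∈ B → q ∈ B → r ∈ B → s ∈ B →
        p + q + r + s ∈ B + B + B + B := fun p q r s hp hq hr hs =>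
      Finset.add_mem_add (Finset.add_mem_add (Finset.add_mem_add hp hq) hr) hs
    have odd1 : ∀ p q r : Fin n → ZMod 2, p ∈ B → q ∈ B → r ∈ B → y = x + p + q + r →
        x ∈ B + B + B + B := by
      intro p q r hp hq hr h
      have : x = y + p + q + r := by
        rw [h]
        have : x + p + q + r + p + q + r = x + (p + p) + (q + q) + (r + r) := by abel
        rw [this, add_self_zero, add_self_zero, add_self_zero]; simp
      rw [this]
      exact mk4 y p q r hyB hp hq hr
    have odd3 : ∀ p : Fin n → ZMod 2, p ∈ B → y = x + p → x ∈ B + B + B + B := by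
      intro p hp h
      apply odd1 p p p hp hp hp
      rw [h]
      have : x + p + p + p = x + p + (p + p) := by abel
      rw [this, add_self_zero]; simp
    have even4 : ∀ p q r s : Fin n → ZMod 2, p ∈ B → q ∈ B → r ∈ B → s ∈ B →
        y = p + q + r + s → x ∈ B + B + B + B := by
      intro p q r s hp hq hr hs h
      exact absurd hyD (hB4 y (h ▸ mk4 p q r s hp hq hr hs))
    have even2 : ∀ p q : Fin n → ZMod 2, p ∈ B → q ∈ B → y = p + q → x ∈ B + B + B + B := by
      intro p q hp hq h
      apply even4 p q q q hp hq hq hq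
      rw [h]
      have : p + q + q + q = p + q + (q + q) := by abel
      rw [this, add_self_zero]; simp
    have even0 : y = 0 → x ∈ B + B + B + B := by
      intro h
      apply even2 b0 b0 hb0 hb0
      rw [h, add_self_zero]
    rw [Finset.mem_add] at hy
    obtain ⟨y3, hy3, s, hs, rfl⟩ := hy
    rw [Finset.mem_add] at hy3
    obtain ⟨y2, hy2, r, hr, rfl⟩ := hy3
    rw [Finset.mem_add] at hy2
    obtain ⟨p, hp, q, hq, rfl⟩ := hy2
    rw [Finset.mem_insert] at hp hq hr hs
    rcases hp with hp | hp <;> rcases hq with hq | hq <;> rcases hr with hr | hr <;>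
      rcases hs with hs | hs
    · apply even0
      rw [hp, hq, hr, hs, add_self_zero, zero_add, add_self_zero]
    · apply odd3 s hs
      have e : x + x + x + s = (x + x) + (x + s) := by abel
      rw [hp, hq, hr, e, add_self_zero, zero_add]
    · apply odd3 r hr
      have e : x + x + r + x = (x + x) + (x + r) := by abel
      rw [hp, hq, hs, e, add_self_zero, zero_add]
    · apply even2 r s hr hs
      have e : x + x + r + s = (x + x) + (r + s) := by abel
      rw [hp, hq, e, add_self_zero, zero_add]
    · apply odd3 q hq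
      have e : x + q + x + x = (x + x) + (x + q) := by abel
      rw [hp, hr, hs, e, add_self_zero, zero_add]
    · apply even2 q s hq hs
      have e : x + q + x + s = (x + x) + (q + s) := by abel
      rw [hp, hr, e, add_self_zero, zero_add]
    · apply even2 q r hq hr
      have e : x + q + r + x = (x + x) + (q + r) := by abel
      rw [hp, hs, e, add_self_zero, zero_add]
    · apply odd1 q r s hq hr hs
      have e : x + q + r + s = x + q + r + s := by abel
      rw [hp, e]
    · apply odd3 p hp
      have e : p + x + x + x = (x + x) + (x + p) := by abel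
      rw [hq, hr, hs, e, add_self_zero, zero_add]
    · apply even2 p s hp hs
      have e : p + x + x + s = (x + x) + (p + s) := by abel
      rw [hq, hr, e, add_self_zero, zero_add]
    · apply even2 p r hp hr
      have e : p + x + r + x = (x + x) + (p + r) := by abel
      rw [hq, hs, e, add_self_zero, zero_add]
    · apply odd1 p r s hp hr hs
      have e : p + x + r + s = x + p + r + s := by abel
      rw [hq, e]
    · apply even2 p q hp hq
      have e : p + q + x + x = (x + x) + (p + q) := by abel
      rw [hr, hs, e, add_self_zero, zero_add]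
    · apply odd1 p q s hp hq hs
      have e : p + q + x + s = x + p + q + s := by abel
      rw [hr, e]
    · apply odd1 p q r hp hq hr
      have e : p + q + r + x = x + p + q + r := by abel
      rw [hs, e]
    · exact even4 p q r s hp hq hr hs rfl
  have hBcard : B.card ≤ (B + B + B + B).card := Finset.card_le_card_add_left ⟨b0 + b0 + b0, by
    exact Finset.add_mem_add (Finset.add_mem_add hb0 hb0) hb0⟩
  have huniv : (Finset.univ : Finset (Fin n → ZMod 2)) ⊆ B ∪ (B + B + B + B) := by
    intro x _
    by_cases hx : x ∈ B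
    · exact Finset.mem_union_left _ hx
    · exact Finset.mem_union_right _ (hcover x hx)
  have h1 := (Finset.card_le_card huniv).trans (Finset.card_union_le _ _)
  have hc : Fintype.card (Fin n → ZMod 2) = 2 ^ n := by
    rw [Fintype.card_fun, ZMod.card, Fintype.card_fin]
  rw [Finset.card_univ, hc] at h1
  omega

/-- For every n and every set A in F_2^n with at least a third of all 2^n points, some set B has B+B+B+B contained in A+A, with B+B+B+B containing at least 2^n/100 points. -/
theorem result : ∀ n : ℕ, ∀ A : Finset (Fin n → ZMod 2), 3 * A.card ≥ 2 ^ n → ∃ B : Finset (Fin n → ZMod 2), B + B + B + B ⊆ A + A ∧ 100 * (B + B + B + B).card ≥ 2 ^ n := by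
  intro n A hA
  classical
  by_cases hD : ∀ x, x ∈ A + A
  · refine ⟨Finset.univ, fun x _ => hD x, ?_⟩
    have h1 : (Finset.univ : Finset (Fin n → ZMod 2)).card ≤
        ((Finset.univ : Finset (Fin n → ZMod 2)) + Finset.univ + Finset.univ
          + Finset.univ).card :=
      Finset.card_le_card_add_left ⟨0 + 0 + 0, Finset.add_mem_add
        (Finset.add_mem_add (Finset.mem_univ _) (Finset.mem_univ _)) (Finset.mem_univ _)⟩
    have hc : Fintype.card (Fin n → ZMod 2) = 2 ^ n := by
      rw [Fintype.card_fun, ZMod.card, Fintype.card_fin]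
    rw [Finset.card_univ, hc] at h1
    omega
  · push Not at hD
    obtain ⟨x0, hx0⟩ := hD
    set D : Finset (Fin n → ZMod 2) := Finset.univ.filter fun x => x ∉ A + A with hDdef
    have hmem : ∀ x, x ∈ D ↔ x ∉ A + A := fun x => by simp [hDdef]
    have h4 : ∀ y ∈ D + D + D + D, y ∉ D := by
      intro y hy hyD
      rw [Finset.mem_add] at hy
      obtain ⟨y3, hy3, s, hs, rfl⟩ := hy
      rw [Finset.mem_add] at hy3
      obtain ⟨y2, hy2, r, hr, rfl⟩ := hy3
      rw [Finset.mem_add] at hy2
      obtain ⟨p, hp, q, hq, rfl⟩ := hy2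
      have hcl := clebsch A p q r s ((hmem _).1 hp) ((hmem _).1 hq) ((hmem _).1 hr)
        ((hmem _).1 hs) ((hmem _).1 hyD)
      have hpos : 0 < 2 ^ n := by positivity
      omega
    obtain ⟨B, hB, hcard⟩ := maximal_four D ⟨x0, (hmem _).2 hx0⟩ h4
    refine ⟨B, ?_, by omega⟩
    intro y hy
    by_contra hcon
    exact hB y hy ((hmem _).2 hcon)

end Pool.Agent.S05107
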