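import Pool.Statements.S05123
import Pool.Agent.Helper837.Nine

set_option autoImplicit false
open Set
open Pool Pool.MP_2d2dfa_co

namespace Pool.Agent.S05123

/-- There is a finite nonempty family of smooth convex bodies in 3-space with disjoint interiors such that no body can be moved by a continuous rigid motion, keeping its interior off the others, to a different position. -/
theorem result :
    ∃ n : ℕ, 0 < n ∧ ∃ K : Fin n → Set (EuclideanSpace ℝ (Fin 3)),
      (∀ i, IsCompact (K i) ∧ Convex ℝ (K i) ∧ (interior (K i)).Nonempty ∧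
        (∀ x ∈ frontier (K i), ∀ u v : EuclideanSpace ℝ (Fin 3),
          u ≠ 0 → v ≠ 0 →
          (∀ y ∈ K i, inner ℝ u (y - x) ≤ 0) →
          (∀ y ∈ K i, inner ℝ v (y - x) ≤ 0) →
          ∃ c : ℝ, 0 < c ∧ v = c • u)) ∧
      (∀ i j, i ≠ j → Disjoint (interior (K i)) (interior (K j))) ∧
      (∀ i, ∀ γ : ℝ → EuclideanSpace ℝ (Fin 3) → EuclideanSpace ℝ (Fin 3),
        Continuous (fun p : ℝ × EuclideanSpace ℝ (Fin 3) => γ p.1 p.2) →
        (∀ x, γ 0 x = x) →
        (∀ t ∈ Icc (0 : ℝ) 1, Isometry (γ t)) →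
        (∀ t ∈ Icc (0 : ℝ) 1, ∀ j, j ≠ i →
          Disjoint (interior (γ t '' K i)) (interior (K j))) →
        γ 1 '' K i = K i) := by
  obtain ⟨h1, h2, h3⟩ := Pool.Agent.Helper837.Nine.body_spec
  refine ⟨9, by norm_num, Pool.Agent.Helper837.Nine.body, h1, h2, ?_⟩
  intro i γ hcont h0 hiso hdis
  have hcont' : Continuous
      (fun p : unitInterval × EuclideanSpace ℝ (Fin 3) => γ (p.1 : ℝ) p.2) :=
    hcont.comp ((continuous_subtype_val.comp continuous_fst).prodMk continuous_snd)
  have h := h3 i (fun t => γ (t : ℝ)) (fun t => hiso t t.2) hcont'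
    (by funext x; simpa using h0 x) (fun t j hj => hdis t t.2 j hj) 1
  have h' : γ 1 = id := by simpa using h
  rw [h', Set.image_id]

end Pool.Agent.S05123
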