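import Pool.Statements.S05131
import Pool.Agent.Helper927.MTree.FIN

set_option autoImplicit false
open SimpleGraph
open Pool Pool.MP_2dadc2_co

namespace Pool.Agent.S05131

/-- For part sizes 1≤m1≤…≤mk (k≥2), every large enough tree T satisfies r(K_{m1,…,mk},T) ≤ (k−1)(r(K_{m1,m2},T)−1)+m1, with Ramsey numbers expressed via the contain-G-or-complement-contains-T property. -/
theorem result :
    ∀ (k : ℕ) (m : Fin (k + 2) → ℕ), Monotone m → (∀ i, 1 ≤ m i) →
      ∃ N : ℕ, ∀ (n : ℕ) (T : SimpleGraph (Fin n)), T.IsTree → N ≤ n →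
        ∀ R : ℕ,
          (∀ H : SimpleGraph (Fin R),
              (completeBipartiteGraph (Fin (m 0)) (Fin (m 1))).IsContained H ∨
                T.IsContained Hᶜ) →
          ∀ H : SimpleGraph (Fin ((k + 1) * (R - 1) + m 0)),
            (completeMultipartiteGraph (fun i : Fin (k + 2) => Fin (m i))).IsContained H ∨
              T.IsContained Hᶜ := by
  intro k m _ hm
  exact Pool.Agent.MultiTree.final k m hm

end Pool.Agent.S05131
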