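import Pool.Statements.S05134
-- import your own Pool.Agent.* helpers here

set_option autoImplicit false
open Pool Pool.MP_2de88f_co

namespace Pool.Agent.S05134

/-- The lattice with a bottom, a top and the points of `V` as an antichain in between. -/
inductive M (V : Type) : Type
  | bot : M V
  | pt : V → M V
  | top : M V

namespace M

variable {V W U : Type}

open Classical in
instance : LE (M V) := ⟨fun x y => match x, y with
  | bot, _ => True
  | _, top => True
  | pt a, pt b => a = b
  | _, _ => False⟩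

@[simp] lemma bot_le' (x : M V) : (bot : M V) ≤ x := by cases x <;> trivial
@[simp] lemma le_top' (x : M V) : x ≤ (top : M V) := by cases x <;> trivial
@[simp] lemma pt_le_pt (a b : V) : (pt a : M V) ≤ pt b ↔ a = b := Iff.rfl
@[simp] lemma pt_le_bot (a : V) : (pt a : M V) ≤ bot ↔ False := Iff.rfl
@[simp] lemma top_le_pt (a : V) : (top : M V) ≤ pt a ↔ False := Iff.rfl
@[simp] lemma top_le_bot : (top : M V) ≤ bot ↔ False := Iff.rfl

instance : PartialOrder (M V) where
  le_refl x := by cases x <;> simp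
  le_trans x y z := by
    cases x <;> cases y <;> cases z <;> simp <;> intros <;> simp_all
  le_antisymm x y := by
    cases x <;> cases y <;> simp <;> intros <;> simp_all

open Classical in
noncomputable instance : Lattice (M V) where
  sup x y := match x, y with
    | bot, y => y
    | x, bot => x
    | pt a, pt b => if a = b then pt a else top
    | _, _ => top
  inf x y := match x, y with
    | top, y => y
    | x, top => x
    | pt a, pt b => if a = b then pt a else bot
    | _, _ => bot
  le_sup_left x y := by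
    cases x <;> cases y <;> simp
    split_ifs <;> simp
  le_sup_right x y := by
    cases x <;> cases y <;> simp
    split_ifs with h <;> simp [h]
  sup_le x y z := by
    cases x <;> cases y <;> cases z <;> simp <;> intros <;> simp_all
  inf_le_left x y := by
    cases x <;> cases y <;> simp
    split_ifs <;> simp
  inf_le_right x y := by
    cases x <;> cases y <;> simp
    split_ifs with h <;> simp [h]
  le_inf x y z := by
    cases x <;> cases y <;> cases z <;> simp <;> intros <;> simp_all

instance : BoundedOrder (M V) where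
  top := top
  le_top := le_top'
  bot := bot
  bot_le := bot_le'

@[simp] lemma bot_eq : (bot : M V) = ⊥ := rfl
@[simp] lemma top_eq : (top : M V) = ⊤ := rfl

lemma cases' (x : M V) : x = ⊥ ∨ (∃ v, x = pt v) ∨ x = ⊤ := by
  cases x with
  | bot => left; rfl
  | pt v => right; left; exact ⟨v, rfl⟩
  | top => right; right; rfl

@[simp] lemma pt_ne_bot (a : V) : (pt a : M V) ≠ ⊥ := by
  intro h; cases h
@[simp] lemma pt_ne_top (a : V) : (pt a : M V) ≠ ⊤ := by
  intro h; cases h
@[simp] lemma bot_ne_top' : (⊥ : M V) ≠ ⊤ := by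
  intro h; cases h
@[simp] lemma pt_inj (a b : V) : (pt a : M V) = pt b ↔ a = b := by
  constructor
  · intro h; cases h; rfl
  · rintro rfl; rfl

open Classical in
lemma pt_sup_pt {a b : V} (h : a ≠ b) : (pt a : M V) ⊔ pt b = ⊤ := by
  show (if a = b then pt a else top : M V) = ⊤
  rw [if_neg h]; rfl

open Classical in
lemma pt_inf_pt {a b : V} (h : a ≠ b) : (pt a : M V) ⊓ pt b = ⊥ := by
  show (if a = b then pt a else bot : M V) = ⊥
  rw [if_neg h]; rfl

lemma modular (x y z : M V) (h : x ≤ z) : (x ⊔ y) ⊓ z ≤ x ⊔ y ⊓ z := by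
  rcases cases' x with rfl | ⟨a, rfl⟩ | rfl
  · simp
  · rcases cases' z with rfl | ⟨c, rfl⟩ | rfl
    · simp
    · rw [pt_le_pt] at h
      subst h
      exact inf_le_right.trans le_sup_left
    · simp
  · have : z = ⊤ := top_le_iff.1 h
    subst this
    simp

/-- Functoriality. -/
def map (f : V → W) : M V → M W
  | bot => bot
  | pt a => pt (f a)
  | top => top

@[simp] lemma map_bot (f : V → W) : map f ⊥ = ⊥ := rfl
@[simp] lemma map_top (f : V → W) : map f ⊤ = ⊤ := rfl
@[simp] lemma map_pt (f : V → W) (a : V) : map f (pt a) = pt (f a) := rfl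

lemma map_mono (f : V → W) {x y : M V} (h : x ≤ y) : map f x ≤ map f y := by
  rcases cases' x with rfl | ⟨a, rfl⟩ | rfl
  · simp
  · rcases cases' y with rfl | ⟨c, rfl⟩ | rfl
    · simp at h
    · rw [pt_le_pt] at h
      subst h
      exact le_rfl
    · simp
  · have : y = ⊤ := top_le_iff.1 h
    subst this
    exact le_rfl

lemma map_map (f : V → W) (g : W → U) (x : M V) : map g (map f x) = map (fun v => g (f v)) x := by
  cases x <;> rfl

lemma map_id (x : M V) : map (fun v => v) x = x := by
  cases x <;> rfl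

lemma map_sup_le {f : V → W} (hf : Function.Injective f) (x y : M V) :
    map f (x ⊔ y) ≤ map f x ⊔ map f y := by
  rcases cases' x with rfl | ⟨a, rfl⟩ | rfl
  · simp
  · rcases cases' y with rfl | ⟨c, rfl⟩ | rfl
    · simp
    · by_cases h : a = c
      · subst h; simp
      · rw [map_pt, map_pt, pt_sup_pt (fun h' => h (hf h'))]
        exact le_top
    · simp
  · simp

lemma ext_pt (hV : 2 ≤ Nat.card V) (x y : M V) (h : ∀ v, pt v ≤ x ↔ pt v ≤ y) : x = y := by
  have hn : Nontrivial V := by
    rw [← not_subsingleton_iff_nontrivial]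
    intro hs
    have := Finite.card_le_one_iff_subsingleton (α := V)
    have h2 : Finite V := Nat.finite_of_card_ne_zero (by omega)
    rw [Finite.card_le_one_iff_subsingleton.2 hs |>.antisymm (by omega)] at hV
    omega
  rcases cases' x with rfl | ⟨a, rfl⟩ | rfl
  · rcases cases' y with rfl | ⟨c, rfl⟩ | rfl
    · rfl
    · have := (h c).2 le_rfl
      simp at this
    · obtain ⟨v⟩ := hn.to_nonempty
      have := (h v).2 le_top
      simp at this
  · rcases cases' y with rfl | ⟨c, rfl⟩ | rfl
    · have := (h a).1 le_rfl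
      simp at this
    · have := (h a).1 le_rfl
      rw [pt_le_pt] at this
      rw [this]
    · obtain ⟨b, hb⟩ := exists_ne a
      have := (h b).2 le_top
      rw [pt_le_pt] at this
      exact absurd this hb
  · rcases cases' y with rfl | ⟨c, rfl⟩ | rfl
    · obtain ⟨v⟩ := hn.to_nonempty
      have := (h v).1 le_top
      simp at this
    · obtain ⟨b, hb⟩ := exists_ne c
      have := (h b).1 le_top
      rw [pt_le_pt] at this
      exact absurd this hb
    · rfl

end M


section Product

open Function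

variable {I : Type} [DecidableEq I] {V : I → Type}

/-- The atom of the product given by the point `v` in coordinate `i`. -/
def S (i : I) (v : V i) : ∀ i, M (V i) := Function.update ⊥ i (M.pt v)

lemma S_le (i : I) (v : V i) (x : ∀ i, M (V i)) : S i v ≤ x ↔ M.pt v ≤ x i := by
  unfold S
  rw [update_le_iff]
  simp

@[simp] lemma S_same (i : I) (v : V i) : S i v i = M.pt v := by
  simp [S]

lemma S_ne {i j : I} (h : j ≠ i) (v : V i) : S i v j = ⊥ := by
  simp [S, Function.update_of_ne h]

lemma S_inj {i j : I} {v : V i} {w : V j} (h : S i v = S j w) : i = j := by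
  by_contra hne
  have h1 := congrFun h i
  rw [S_same, S_ne hne] at h1
  simp at h1

lemma S_inj' {i : I} {v w : V i} (h : S i v = S i w) : v = w := by
  have h1 := congrFun h i
  simpa using h1

lemma S_le_S {i j : I} {v : V i} {w : V j} (h : S i v ≤ S j w) : S i v = S j w := by
  rw [S_le] at h
  by_cases hij : i = j
  · subst hij
    rw [S_same, M.pt_le_pt] at h
    rw [h]
  · rw [S_ne hij] at h
    exact absurd (le_bot_iff.1 h) (M.pt_ne_bot v)

lemma S_ne_bot (i : I) (v : V i) : S i v ≠ ⊥ := by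
  intro h
  have := congrFun h i
  simp at this

lemma exists_S_le (hV : ∀ i, Nonempty (V i)) {x : ∀ i, M (V i)} (hx : x ≠ ⊥) :
    ∃ i v, S i v ≤ x := by
  by_contra hcon
  push Not at hcon
  apply hx
  funext i
  obtain ⟨v0⟩ := hV i
  rcases M.cases' (x i) with h | ⟨v, h⟩ | h
  · rw [h]; rfl
  · exact absurd ((S_le i v x).2 (by rw [h])) (hcon i v)
  · exact absurd ((S_le i v0 x).2 (by rw [h]; exact le_top)) (hcon i v0)

lemma S_atom (hV : ∀ i, Nonempty (V i)) (i : I) (v : V i) : IsAtom (S i v) := by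
  refine ⟨S_ne_bot i v, ?_⟩
  intro b hb
  by_contra hne
  obtain ⟨j, w, hw⟩ := exists_S_le hV hne
  have h1 := S_le_S (hw.trans hb.le)
  rw [h1] at hw
  exact absurd hb (not_lt_of_ge hw)

lemma atom_eq_S (hV : ∀ i, Nonempty (V i)) {x : ∀ i, M (V i)} (hx : IsAtom x) :
    ∃ i v, x = S i v := by
  obtain ⟨i, v, h⟩ := exists_S_le hV hx.1
  refine ⟨i, v, ?_⟩
  exact ((hx.le_iff.1 h).resolve_left (S_ne_bot i v)).symm

lemma map_S (hV : ∀ i, Nonempty (V i)) (ψ : (∀ i, M (V i)) ≃o (∀ i, M (V i))) (i : I) (v : V i) :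
    ∃ j w, ψ (S i v) = S j w :=
  atom_eq_S hV ((OrderIso.isAtom_iff ψ _).2 (S_atom hV i v))

lemma exists_third {X : Type} (h : 3 ≤ Nat.card X) (a b : X) : ∃ c, c ≠ a ∧ c ≠ b := by
  classical
  by_contra hcon
  push Not at hcon
  have hf : Finite X := Nat.finite_of_card_ne_zero (by omega)
  have := Fintype.ofFinite X
  have h1 : (Finset.univ : Finset X) ⊆ {a, b} := by
    intro c _
    by_cases hc : c = a
    · simp [hc]
    · simp [hcon c hc]
  have h2 := Finset.card_le_card h1
  have h3 : ({a, b} : Finset X).card ≤ 2 := Finset.card_le_two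
  rw [Finset.card_univ, ← Nat.card_eq_fintype_card] at h2
  omega

lemma map_class (h3 : ∀ i, 3 ≤ Nat.card (V i)) (ψ : (∀ i, M (V i)) ≃o (∀ i, M (V i)))
    (i : I) : ∃ j, ∀ v : V i, ∃ w, ψ (S i v) = S j w := by
  have hV : ∀ i, Nonempty (V i) := fun i => by
    by_contra hne
    rw [not_nonempty_iff] at hne
    have := h3 i
    rw [Nat.card_of_isEmpty] at this
    omega
  obtain ⟨v0⟩ := hV i
  obtain ⟨j, w0, hj⟩ := map_S hV ψ i v0
  refine ⟨j, fun v => ?_⟩
  obtain ⟨k, w, hk⟩ := map_S hV ψ i v
  by_cases hjk : j = k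
  · subst hjk
    exact ⟨w, hk⟩
  · exfalso
    have hvv : v0 ≠ v := by
      rintro rfl
      rw [hj] at hk
      exact hjk (S_inj hk)
    obtain ⟨u, hu0, hu⟩ := exists_third (h3 i) v0 v
    obtain ⟨l, z, hl⟩ := map_S hV ψ i u
    have hle : S i u ≤ S i v0 ⊔ S i v := by
      rw [S_le]
      simp [M.pt_sup_pt hvv]
    have hle2 := ψ.monotone hle
    rw [ψ.map_sup, hj, hk, hl] at hle2
    have hle3 := hle2
    rw [S_le] at hle2
    rw [Pi.sup_apply] at hle2
    by_cases h1 : l = j
    · subst h1
      rw [S_same, S_ne hjk, sup_bot_eq, M.pt_le_pt] at hle2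
      subst hle2
      rw [← hj] at hl
      exact hu0 (S_inj' (ψ.injective hl))
    · by_cases h2 : l = k
      · subst h2
        rw [S_same, S_ne h1, bot_sup_eq, M.pt_le_pt] at hle2
        subst hle2
        rw [← hk] at hl
        exact hu (S_inj' (ψ.injective hl))
      · rw [S_ne h1, S_ne h2, bot_sup_eq] at hle2
        exact absurd (le_bot_iff.1 hle2) (M.pt_ne_bot z)

lemma card_class (h3 : ∀ i, 3 ≤ Nat.card (V i)) (ψ : (∀ i, M (V i)) ≃o (∀ i, M (V i)))
    {i j : I} (h : ∀ v : V i, ∃ w, ψ (S i v) = S j w) : Nat.card (V i) ≤ Nat.card (V j) := by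
  choose f hf using h
  have hfin : Finite (V j) := Nat.finite_of_card_ne_zero (by have := h3 j; omega)
  apply Nat.card_le_card_of_injective f
  intro a b hab
  have := (hf a).trans ((by rw [hab] : S j (f a) = S j (f b)).trans (hf b).symm)
  exact S_inj' (ψ.injective this)

theorem prod_aut (h3 : ∀ i, 3 ≤ Nat.card (V i)) (hinj : ∀ i j, Nat.card (V i) = Nat.card (V j) → i = j)
    (ψ : (∀ i, M (V i)) ≃o (∀ i, M (V i))) :
    ∃ α : ∀ i, Equiv.Perm (V i), ∀ x, ψ x = fun i => M.map (α i) (x i) := by
  have hV : ∀ i, Nonempty (V i) := fun i => by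
    by_contra hne
    rw [not_nonempty_iff] at hne
    have := h3 i
    rw [Nat.card_of_isEmpty] at this
    omega
  have key : ∀ i, ∀ v : V i, ∃ w, ψ (S i v) = S i w := by
    intro i
    obtain ⟨j, hj⟩ := map_class h3 ψ i
    obtain ⟨k, hk⟩ := map_class h3 ψ.symm j
    obtain ⟨v0⟩ := hV i
    obtain ⟨w0, hw0⟩ := hj v0
    obtain ⟨z0, hz0⟩ := hk w0
    rw [← hw0, ψ.symm_apply_apply] at hz0
    have hik := S_inj hz0
    subst hik
    have h1 := card_class h3 ψ hj
    have h2 := card_class h3 ψ.symm hk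
    have := hinj i j (le_antisymm h1 h2)
    subst this
    exact hj
  choose f hf using key
  have finj : ∀ i, Function.Injective (f i) := by
    intro i a b hab
    have := (hf i a).trans ((by rw [hab] : S i (f i a) = S i (f i b)).trans (hf i b).symm)
    exact S_inj' (ψ.injective this)
  have fbij : ∀ i, Function.Bijective (f i) := by
    intro i
    have hfin : Finite (V i) := Nat.finite_of_card_ne_zero (by have := h3 i; omega)
    exact Finite.injective_iff_bijective.1 (finj i)
  refine ⟨fun i => Equiv.ofBijective (f i) (fbij i), fun x => ?_⟩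
  funext i
  apply M.ext_pt (by have := h3 i; omega)
  intro w
  obtain ⟨v, rfl⟩ := (fbij i).2 w
  rw [← S_le, ← hf i v, ψ.le_iff_le, S_le]
  rcases M.cases' (x i) with h | ⟨u, h⟩ | h
  · rw [h]; simp
  · rw [h]
    simp only [M.map_pt, M.pt_le_pt, Equiv.ofBijective_apply]
    exact (finj i).eq_iff.symm
  · rw [h]; simp

end Product


section Lat

variable {I J : Type} {V : I → Type} {W : J → Type}

/-- The sublattice of the product: each `W j` coordinate forces its images in the `V i` coordinates. -/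
def Lat (a : ∀ i j, W j ↪ V i) : Sublattice ((∀ i, M (V i)) × (∀ j, M (W j))) where
  carrier := {x | ∀ i j, M.map (a i j) (x.2 j) ≤ x.1 i}
  supClosed' := by
    intro x hx y hy i j
    refine (M.map_sup_le (a i j).injective _ _).trans ?_
    exact sup_le_sup (hx i j) (hy i j)
  infClosed' := by
    intro x hx y hy i j
    refine le_inf ?_ ?_
    · exact (M.map_mono _ inf_le_left).trans (hx i j)
    · exact (M.map_mono _ inf_le_right).trans (hy i j)

variable (a : ∀ i j, W j ↪ V i)

instance : IsModularLattice (Lat a) where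
  sup_inf_le_assoc_of_le := by
    intro x y z h
    refine ⟨fun i => ?_, fun j => ?_⟩
    · exact M.modular _ _ _ (h.1 i)
    · exact M.modular _ _ _ (h.2 j)

variable {a}

lemma mem_bot (b : ∀ i, M (V i)) : ((b, ⊥) : (∀ i, M (V i)) × (∀ j, M (W j))) ∈ Lat a := by
  intro i j
  simp

lemma mem_top (t : ∀ j, M (W j)) : ((⊤, t) : (∀ i, M (V i)) × (∀ j, M (W j))) ∈ Lat a := by
  intro i j
  simp

/-- Embedding of the lower part. -/
def lo (b : ∀ i, M (V i)) : Lat a := ⟨(b, ⊥), mem_bot b⟩

/-- Embedding of the upper part. -/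
def hi (t : ∀ j, M (W j)) : Lat a := ⟨(⊤, t), mem_top t⟩

lemma lo_le_lo {b b' : ∀ i, M (V i)} : (lo b : Lat a) ≤ lo b' ↔ b ≤ b' :=
  ⟨fun h => h.1, fun h => ⟨h, le_rfl⟩⟩

lemma hi_le_hi {t t' : ∀ j, M (W j)} : (hi t : Lat a) ≤ hi t' ↔ t ≤ t' :=
  ⟨fun h => h.2, fun h => ⟨le_rfl, h⟩⟩

/-- The middle element. -/
def mid : Lat a := ⟨(⊤, ⊥), mem_bot ⊤⟩

lemma le_mid {x : Lat a} : x ≤ mid ↔ x = lo x.1.1 := by
  constructor
  · intro h
    apply Subtype.ext
    apply Prod.ext
    · rfl
    · exact le_bot_iff.1 h.2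
  · intro h
    rw [h]
    exact ⟨le_top, le_rfl⟩

lemma mid_le {x : Lat a} : mid ≤ x ↔ x = hi x.1.2 := by
  constructor
  · intro h
    apply Subtype.ext
    apply Prod.ext
    · exact top_le_iff.1 h.1
    · rfl
  · intro h
    rw [h]
    exact ⟨le_rfl, bot_le⟩

lemma inf_mid (x : Lat a) : x ⊓ mid = lo x.1.1 := by
  apply Subtype.ext
  apply Prod.ext
  · exact inf_top_eq _
  · exact inf_bot_eq _

lemma sup_mid (x : Lat a) : x ⊔ mid = hi x.1.2 := by
  apply Subtype.ext
  apply Prod.ext
  · exact sup_top_eq _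
  · exact sup_bot_eq _

instance : OrderBot (Lat a) where
  bot := lo ⊥
  bot_le x := ⟨bot_le, bot_le⟩

lemma bot_eq_lo : (⊥ : Lat a) = lo ⊥ := rfl

lemma isLUB_mid [DecidableEq I] [Nonempty I] (h3 : ∀ i, 3 ≤ Nat.card (V i)) :
    IsLUB {x : Lat a | IsAtom x} mid := by
  have hV : ∀ i, Nonempty (V i) := fun i => by
    by_contra hne
    rw [not_nonempty_iff] at hne
    have := h3 i
    rw [Nat.card_of_isEmpty] at this
    omega
  constructor
  · intro x hx
    by_contra hcon
    rw [le_mid] at hcon
    have h1 : (lo x.1.1 : Lat a) < x := by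
      refine lt_of_le_of_ne ⟨le_rfl, bot_le⟩ (fun h => hcon h.symm)
    have h2 := hx.2 _ h1
    have h3 : x.1.1 = ⊥ := by
      have := lo_le_lo.1 (le_of_eq h2 : (lo x.1.1 : Lat a) ≤ lo ⊥)
      exact le_bot_iff.1 this
    obtain ⟨i⟩ := (inferInstance : Nonempty I)
    apply hcon
    apply Subtype.ext
    apply Prod.ext
    · rfl
    · funext j
      have := x.2 i j
      rw [h3] at this
      have h5 : M.map (a i j) (x.1.2 j) = ⊥ := le_bot_iff.1 this
      rcases M.cases' (x.1.2 j) with h | ⟨u, h⟩ | h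
      · rw [h]; rfl
      · rw [h] at h5; simp at h5
      · rw [h] at h5
        exact absurd h5.symm M.bot_ne_top'
  · intro u hu
    have h1 : ∀ i (v : V i), (lo (S i v) : Lat a) ≤ u := by
      intro i v
      apply hu
      refine ⟨?_, ?_⟩
      · intro h
        exact S_ne_bot i v (le_bot_iff.1 (lo_le_lo.1 (le_of_eq h)))
      · intro y hy
        have hy2 : y ≤ mid := hy.le.trans (le_mid.2 rfl)
        rw [le_mid] at hy2
        rw [hy2] at hy ⊢
        have h3 : y.1.1 < S i v := by
          refine lt_of_le_not_ge (lo_le_lo.1 hy.le) ?_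
          intro h
          exact absurd hy (not_lt_of_ge (lo_le_lo.2 h))
        have := (S_atom hV i v).2 _ h3
        rw [this]; rfl
    refine ⟨?_, bot_le⟩
    intro i
    show (⊤ : M (V i)) ≤ u.1.1 i
    apply le_of_eq
    symm
    apply M.ext_pt (by have := h3 i; omega)
    intro v
    simp only [le_top, iff_true]
    rw [← S_le]
    exact (h1 i v).1

variable [DecidableEq I] [Nonempty I] [DecidableEq J]

lemma map_mid (h3 : ∀ i, 3 ≤ Nat.card (V i)) (φ : Lat a ≃o Lat a) : φ mid = mid := by
  have h1 := isLUB_mid (a := a) h3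
  have h2 : IsLUB (φ '' {x : Lat a | IsAtom x}) (φ mid) := φ.isLUB_image'.2 h1
  have h3 : φ '' {x : Lat a | IsAtom x} = {x : Lat a | IsAtom x} := by
    ext x
    constructor
    · rintro ⟨y, hy, rfl⟩
      exact (OrderIso.isAtom_iff φ _).2 hy
    · intro hx
      refine ⟨φ.symm x, (OrderIso.isAtom_iff φ.symm _).2 hx, by simp⟩
  rw [h3] at h2
  exact h2.unique h1

/-- The automorphism induced on the lower part. -/
def loAut (h3 : ∀ i, 3 ≤ Nat.card (V i)) (φ : Lat a ≃o Lat a) :
    (∀ i, M (V i)) ≃o (∀ i, M (V i)) where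
  toFun b := (φ (lo b)).1.1
  invFun b := (φ.symm (lo b)).1.1
  left_inv b := by
    have h1 : φ (lo b) ≤ mid := by
      rw [← map_mid h3 φ, φ.le_iff_le, le_mid]; rfl
    rw [le_mid] at h1
    dsimp only
    rw [← h1]; simp [lo]
  right_inv b := by
    have h1 : φ.symm (lo b) ≤ mid := by
      rw [← map_mid h3 φ.symm, φ.symm.le_iff_le, le_mid]; rfl
    rw [le_mid] at h1
    dsimp only
    rw [← h1]; simp [lo]
  map_rel_iff' := by
    intro b b'
    have h1 : φ (lo b) ≤ mid := by
      rw [← map_mid h3 φ, φ.le_iff_le, le_mid]; rfl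
    have h2 : φ (lo b') ≤ mid := by
      rw [← map_mid h3 φ, φ.le_iff_le, le_mid]; rfl
    rw [le_mid] at h1 h2
    show (φ (lo b)).1.1 ≤ (φ (lo b')).1.1 ↔ _
    rw [← lo_le_lo (a := a), ← h1, ← h2, φ.le_iff_le, lo_le_lo]

/-- The automorphism induced on the upper part. -/
def hiAut (h3 : ∀ i, 3 ≤ Nat.card (V i)) (φ : Lat a ≃o Lat a) :
    (∀ j, M (W j)) ≃o (∀ j, M (W j)) where
  toFun b := (φ (hi b)).1.2
  invFun b := (φ.symm (hi b)).1.2
  left_inv b := by
    have h1 : mid ≤ φ (hi b) := by
      rw [← map_mid h3 φ, φ.le_iff_le, mid_le]; rfl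
    rw [mid_le] at h1
    dsimp only
    rw [← h1]; simp [hi]
  right_inv b := by
    have h1 : mid ≤ φ.symm (hi b) := by
      rw [← map_mid h3 φ.symm, φ.symm.le_iff_le, mid_le]; rfl
    rw [mid_le] at h1
    dsimp only
    rw [← h1]; simp [hi]
  map_rel_iff' := by
    intro b b'
    have h1 : mid ≤ φ (hi b) := by
      rw [← map_mid h3 φ, φ.le_iff_le, mid_le]; rfl
    have h2 : mid ≤ φ (hi b') := by
      rw [← map_mid h3 φ, φ.le_iff_le, mid_le]; rfl
    rw [mid_le] at h1 h2
    show (φ (hi b)).1.2 ≤ (φ (hi b')).1.2 ↔ _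
    rw [← hi_le_hi (a := a), ← h1, ← h2, φ.le_iff_le, hi_le_hi]

lemma aut_fst (h3 : ∀ i, 3 ≤ Nat.card (V i)) (φ : Lat a ≃o Lat a) (x : Lat a) :
    (φ x).1.1 = loAut h3 φ x.1.1 := by
  have h1 : φ (x ⊓ mid) = φ x ⊓ mid := by rw [φ.map_inf, map_mid h3]
  rw [inf_mid, inf_mid] at h1
  show _ = (φ (lo x.1.1)).1.1
  rw [h1]; rfl

lemma aut_snd (h3 : ∀ i, 3 ≤ Nat.card (V i)) (φ : Lat a ≃o Lat a) (x : Lat a) :
    (φ x).1.2 = hiAut h3 φ x.1.2 := by
  have h1 : φ (x ⊔ mid) = φ x ⊔ mid := by rw [φ.map_sup, map_mid h3]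
  rw [sup_mid, sup_mid] at h1
  show _ = (φ (hi x.1.2)).1.2
  rw [h1]; rfl

theorem lat_aut (h3 : ∀ i, 3 ≤ Nat.card (V i)) (h3' : ∀ j, 3 ≤ Nat.card (W j))
    (hinj : ∀ i j, Nat.card (V i) = Nat.card (V j) → i = j)
    (hinj' : ∀ i j, Nat.card (W i) = Nat.card (W j) → i = j)
    (φ : Lat a ≃o Lat a) :
    ∃ (α : ∀ i, Equiv.Perm (V i)) (γ : ∀ j, Equiv.Perm (W j)),
      (∀ i j w, a i j (γ j w) = α i (a i j w)) ∧
      ∀ x : Lat a, (φ x).1 = (fun i => M.map (α i) (x.1.1 i), fun j => M.map (γ j) (x.1.2 j)) := by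
  obtain ⟨α, hα⟩ := prod_aut h3 hinj (loAut h3 φ)
  obtain ⟨γ, hγ⟩ := prod_aut h3' hinj' (hiAut h3 φ)
  have hx : ∀ x : Lat a, (φ x).1 =
      (fun i => M.map (α i) (x.1.1 i), fun j => M.map (γ j) (x.1.2 j)) := by
    intro x
    apply Prod.ext
    · rw [aut_fst h3, hα]
    · rw [aut_snd h3, hγ]
  refine ⟨α, γ, ?_, hx⟩
  intro i j w
  have hmem : ((fun i => M.pt (a i j w), S j w) : (∀ i, M (V i)) × (∀ j, M (W j))) ∈ Lat a := by
    intro i' j'
    by_cases hj : j' = j
    · subst hj
      simp
    · show M.map (a i' j') (S j w j') ≤ _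
      rw [S_ne hj]
      simp
  have h1 := (φ ⟨_, hmem⟩).2 i j
  rw [hx] at h1
  simpa using h1

end Lat


section Grp

variable (G : Type) [Group G] [Finite G]

/-- The underlying set: copies of the group indexed by levels. -/
abbrev X : Type := G × Fin (Nat.card G + 2)

/-- The label of a level. -/
noncomputable def lab (k : Fin (Nat.card G + 2)) : G :=
  Fin.cases 1 (fun k1 => Fin.cases 1 (fun k2 => (Finite.equivFin G).symm k2) k1) k

lemma lab_surj (x : G) : ∃ k : Fin (Nat.card G + 2), k ≠ 0 ∧ k ≠ 1 ∧ lab G k = x := by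
  refine ⟨(Finite.equivFin G x).succ.succ, Fin.succ_ne_zero _, ?_, ?_⟩
  · intro h
    have : (Finite.equivFin G x).succ = 0 := by
      apply Fin.succ_injective
      rw [h]; rfl
    exact Fin.succ_ne_zero _ this
  · simp [lab]

/-- The set of matched points in the three matchings. -/
def D (j : Fin 3) : Set (X G) := {x | (j ≠ 2 → x.2 ≠ 0) ∧ (j = 0 → x.2 ≠ 1)}

/-- The three matchings. -/
noncomputable def s (j : Fin 3) (x : X G) : X G :=
  match j with
  | 0 => (x.1 * lab G x.2, x.2)
  | 1 => (x.1, x.2 - 1)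
  | 2 => x

lemma s_inj (j : Fin 3) : Function.Injective (s G j) := by
  rintro ⟨g, k⟩ ⟨g', k'⟩ h
  fin_cases j
  · simp only [s, Prod.mk.injEq] at h
    obtain ⟨h1, h2⟩ := h
    subst h2
    rw [mul_left_inj] at h1
    rw [h1]
  · simp only [s, Prod.mk.injEq] at h
    obtain ⟨h1, h2⟩ := h
    rw [sub_left_inj] at h2
    rw [h1, h2]
  · exact h

/-- Left translation. -/
def tr (g : G) (x : X G) : X G := (g * x.1, x.2)

variable {G}

lemma s_tr (j : Fin 3) (g : G) (x : X G) : s G j (tr G g x) = tr G g (s G j x) := by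
  fin_cases j
  · simp [s, tr, mul_assoc]
  · simp [s, tr]
  · simp [s, tr]

lemma tr_tr (g h : G) (x : X G) : tr G g (tr G h x) = tr G (g * h) x := by
  simp [tr, mul_assoc]

lemma tr_one (x : X G) : tr G 1 x = x := by
  simp [tr]

lemma tr_mem (j : Fin 3) (g : G) {x : X G} (hx : x ∈ D G j) : tr G g x ∈ D G j := hx

theorem rigid (γ : X G → X G) (hγ : Function.Injective γ)
    (γ1 : Equiv.Perm (D G 1)) (h1 : ∀ w : D G 1, (γ1 w).1 = γ w.1)
    (h2 : ∀ w : D G 1, γ (s G 1 w.1) = s G 1 (γ w.1))
    (h3 : ∀ w : D G 0, γ (s G 0 w.1) = s G 0 (γ w.1)) :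
    ∃ h : G, ∀ x, γ x = tr G h x := by
  have hz : ∀ g : G, (γ (g, 0)).2 = 0 := by
    intro g
    by_contra hne
    have hm : γ (g, 0) ∈ D G 1 := ⟨fun _ => hne, fun h => absurd h (by decide)⟩
    have e1 := h1 (γ1.symm ⟨_, hm⟩)
    rw [Equiv.apply_symm_apply] at e1
    have e2 := hγ e1
    have e3 := (γ1.symm ⟨_, hm⟩).2.1 (by decide)
    rw [← e2] at e3
    exact e3 rfl
  have hk : ∀ (k : Fin (Nat.card G + 2)) (g : G), γ (g, k) = ((γ (g, 0)).1, k) := by
    intro k
    induction k using Fin.induction with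
    | zero =>
      intro g
      exact Prod.ext rfl (hz g)
    | succ i ih =>
      intro g
      have hm : ((g, i.succ) : X G) ∈ D G 1 :=
        ⟨fun _ => Fin.succ_ne_zero i, fun h => absurd h (by decide)⟩
      have hsub : (i.succ : Fin (Nat.card G + 2)) - 1 = i.castSucc := by
        rw [sub_eq_iff_eq_add]
        exact (Fin.coeSucc_eq_succ).symm
      have e1 := h2 ⟨_, hm⟩
      apply s_inj G 1
      rw [← e1]
      show γ (g, i.succ - 1) = ((γ (g, 0)).1, i.succ - 1)
      rw [hsub]
      exact ih g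
  have hmul : ∀ g x : G, (γ (g * x, 0)).1 = (γ (g, 0)).1 * x := by
    intro g x
    obtain ⟨k, hk0, hk1, hkx⟩ := lab_surj G x
    have hm : ((g, k) : X G) ∈ D G 0 := ⟨fun _ => hk0, fun _ => hk1⟩
    have e1 := h3 ⟨_, hm⟩
    have e2 : γ (g * lab G k, k) = ((γ (g, k)).1 * lab G (γ (g, k)).2, (γ (g, k)).2) := e1
    rw [hk k g, hkx, hk k (g * x)] at e2
    exact (Prod.ext_iff.1 e2).1
  refine ⟨(γ (1, 0)).1, ?_⟩
  rintro ⟨g, k⟩
  rw [hk k g]
  have := hmul 1 g
  rw [one_mul] at this
  rw [this]; rfl


variable (G)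

/-- The point sets of the lower part. -/
abbrev VV (i : Fin 2) : Type := X G ⊕ Fin i.val

/-- The point sets of the upper part. -/
abbrev WW (j : Fin 3) : Type := D G j

/-- The matchings on the underlying points. -/
noncomputable def sa (i : Fin 2) (j : Fin 3) (x : X G) : X G := if i = 0 then x else s G j x

lemma sa_inj (i : Fin 2) (j : Fin 3) : Function.Injective (sa G i j) := by
  intro x y h
  unfold sa at h
  by_cases hi : i = 0
  · simpa [hi] using h
  · simp only [hi, if_false] at h
    exact s_inj G j h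

/-- The matchings. -/
noncomputable def aa (i : Fin 2) (j : Fin 3) : WW G j ↪ VV G i where
  toFun w := Sum.inl (sa G i j w.1)
  inj' := by
    intro w w' h
    rw [Sum.inl.injEq] at h
    exact Subtype.ext (sa_inj G i j h)

/-- The lattice representing the group. -/
noncomputable abbrev LL := Lat (aa G)

variable {G}

/-- Action on the lower points. -/
def actV (g : G) (i : Fin 2) : VV G i → VV G i := Sum.map (tr G g) id

/-- Action on the upper points. -/
def actW (g : G) (j : Fin 3) : WW G j → WW G j := fun w => ⟨tr G g w.1, w.2⟩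

lemma actV_mul (g h : G) (i : Fin 2) (v : VV G i) : actV g i (actV h i v) = actV (g * h) i v := by
  rcases v with v | v
  · simp [actV, tr_tr]
  · simp [actV]

lemma actV_one (i : Fin 2) (v : VV G i) : actV (1 : G) i v = v := by
  rcases v with v | v
  · simp [actV, tr_one]
  · simp [actV]

lemma actW_mul (g h : G) (j : Fin 3) (w : WW G j) : actW g j (actW h j w) = actW (g * h) j w := by
  apply Subtype.ext
  simp [actW, tr_tr]

lemma actW_one (j : Fin 3) (w : WW G j) : actW (1 : G) j w = w := by
  apply Subtype.ext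
  simp [actW, tr_one]

lemma aa_act (g : G) (i : Fin 2) (j : Fin 3) (w : WW G j) :
    aa G i j (actW g j w) = actV g i (aa G i j w) := by
  show (Sum.inl (sa G i j (tr G g w.1)) : VV G i) = Sum.inl (tr G g (sa G i j w.1))
  congr 1
  unfold sa
  split_ifs
  · rfl
  · rw [s_tr]

/-- The action on the lattice. -/
noncomputable def act (g : G) (x : LL G) : LL G :=
  ⟨(fun i => M.map (actV g i) (x.1.1 i), fun j => M.map (actW g j) (x.1.2 j)), by
    intro i j
    show M.map (aa G i j) (M.map (actW g j) (x.1.2 j)) ≤ M.map (actV g i) (x.1.1 i)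
    rw [M.map_map]
    simp only [aa_act]
    have := M.map_mono (actV g i) (x.2 i j)
    rw [M.map_map] at this
    exact this⟩

lemma act_mono (g : G) {x y : LL G} (h : x ≤ y) : act g x ≤ act g y :=
  ⟨fun i => M.map_mono _ (h.1 i), fun j => M.map_mono _ (h.2 j)⟩

lemma act_act (g h : G) (x : LL G) : act g (act h x) = act (g * h) x := by
  apply Subtype.ext
  apply Prod.ext
  · funext i
    show M.map (actV g i) (M.map (actV h i) _) = M.map (actV (g * h) i) _
    rw [M.map_map]
    simp only [actV_mul]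
  · funext j
    show M.map (actW g j) (M.map (actW h j) _) = M.map (actW (g * h) j) _
    rw [M.map_map]
    simp only [actW_mul]

lemma act_one (x : LL G) : act 1 x = x := by
  apply Subtype.ext
  apply Prod.ext
  · funext i
    show M.map (actV 1 i) _ = _
    rw [show actV (1 : G) i = fun v => v from funext (actV_one i), M.map_id]
  · funext j
    show M.map (actW 1 j) _ = _
    rw [show actW (1 : G) j = fun v => v from funext (actW_one j), M.map_id]

/-- The action as an order automorphism. -/
noncomputable def actIso (g : G) : LL G ≃o LL G where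
  toFun := act g
  invFun := act g⁻¹
  left_inv x := by rw [act_act, inv_mul_cancel, act_one]
  right_inv x := by rw [act_act, mul_inv_cancel, act_one]
  map_rel_iff' := by
    intro x y
    constructor
    · intro h
      have := act_mono g⁻¹ h
      simpa [act_act, act_one] using this
    · exact act_mono g

/-- The homomorphism to the automorphism group. -/
noncomputable def actHom : G →* (LL G ≃o LL G) where
  toFun := actIso
  map_one' := by
    apply RelIso.ext
    intro x
    exact act_one x
  map_mul' g h := by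
    apply RelIso.ext
    intro x
    exact (act_act g h x).symm

lemma actHom_inj : Function.Injective (actHom : G →* (LL G ≃o LL G)) := by
  intro g h hgh
  have h1 := congrArg (fun e => (e (lo (S 0 (Sum.inl (1, 0))))).1.1 0) hgh
  have h2 : M.map (actV g 0) (S 0 (Sum.inl ((1, 0) : X G)) 0) =
      M.map (actV h 0) (S 0 (Sum.inl ((1, 0) : X G)) 0) := h1
  rw [S_same] at h2
  simpa [actV, tr] using h2


lemma card_X : Nat.card (X G) = Nat.card G * (Nat.card G + 2) := by
  rw [Nat.card_prod, Nat.card_fin]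

lemma card_VV (i : Fin 2) : Nat.card (VV G i) = Nat.card G * (Nat.card G + 2) + i.val := by
  rw [Nat.card_sum, card_X, Nat.card_fin]

lemma D_mono {i j : Fin 3} (h : i < j) : D G i ⊂ D G j := by
  have hne : (1 : Fin (Nat.card G + 2)) ≠ 0 := by
    intro h
    have := congrArg Fin.val h
    simp [Fin.val_one] at this
  rw [Set.ssubset_iff_subset_ne]
  constructor
  · rintro x ⟨h1, h2⟩
    refine ⟨fun hj => h1 (fun hi => ?_), fun hj => ?_⟩
    · subst hi
      omega
    · subst hj
      omega
  · intro heq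
    have hcase : (i = 0 ∧ j = 1) ∨ (i ≠ 2 ∧ j = 2) := by
      fin_cases i <;> fin_cases j <;> simp at h ⊢
    rcases hcase with ⟨rfl, rfl⟩ | ⟨hi, rfl⟩
    · have : ((1, 1) : X G) ∈ D G 1 := ⟨fun _ => hne, fun h => absurd h (by decide)⟩
      rw [← heq] at this
      exact this.2 rfl rfl
    · have : ((1, 0) : X G) ∈ D G 2 := ⟨fun h => absurd rfl h, fun h => absurd h (by decide)⟩
      rw [← heq] at this
      exact this.1 hi rfl

lemma card_WW_lt {i j : Fin 3} (h : i < j) : Nat.card (WW G i) < Nat.card (WW G j) := by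
  have h1 := Set.ncard_lt_ncard (D_mono (G := G) h) (Set.toFinite _)
  exact h1

lemma card_WW_inj (i j : Fin 3) (h : Nat.card (WW G i) = Nat.card (WW G j)) : i = j := by
  rcases lt_trichotomy i j with h1 | h1 | h1
  · have := card_WW_lt (G := G) h1
    omega
  · exact h1
  · have := card_WW_lt (G := G) h1
    omega

lemma card_WW_ge (hG : 2 ≤ Nat.card G) (j : Fin 3) : 3 ≤ Nat.card (WW G j) := by
  have h0 : 3 ≤ Nat.card (WW G 0) := by
    choose l hl0 hl1 hl using lab_surj G
    have hm : ∀ p : G × G, ((p.1, l p.2) : X G) ∈ D G 0 :=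
      fun p => ⟨fun _ => hl0 p.2, fun _ => hl1 p.2⟩
    have hinj : Function.Injective (fun p : G × G => (⟨(p.1, l p.2), hm p⟩ : WW G 0)) := by
      intro p q h
      have h1 := congrArg Subtype.val h
      have h2 := Prod.ext_iff.1 h1
      apply Prod.ext
      · exact h2.1
      · rw [← hl p.2, ← hl q.2]
        exact congrArg _ h2.2
    have := Nat.card_le_card_of_injective _ hinj
    rw [Nat.card_prod] at this
    nlinarith
  rcases eq_or_ne j 0 with rfl | hj
  · exact h0
  · have := card_WW_lt (G := G) (Fin.pos_of_ne_zero hj)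
    omega

lemma card_WW_le (j : Fin 3) : Nat.card (WW G j) ≤ Nat.card G * (Nat.card G + 2) := by
  rw [← card_X]
  exact Nat.card_le_card_of_injective _ Subtype.val_injective

lemma card_VV_ge (hG : 2 ≤ Nat.card G) (i : Fin 2) : 3 ≤ Nat.card (VV G i) := by
  rw [card_VV]
  nlinarith

lemma card_VV_inj (i j : Fin 2) (h : Nat.card (VV G i) = Nat.card (VV G j)) : i = j := by
  rw [card_VV, card_VV] at h
  apply Fin.ext
  omega

lemma actHom_surj (hG : 2 ≤ Nat.card G) :
    Function.Surjective (actHom : G →* (LL G ≃o LL G)) := by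
  intro φ
  obtain ⟨α, γ, hc, hφ⟩ := lat_aut (a := aa G) (card_VV_ge hG) (card_WW_ge hG)
    card_VV_inj card_WW_inj φ
  have hmem2 : ∀ x : X G, x ∈ D G 2 := fun x =>
    ⟨fun h => absurd rfl h, fun h => absurd h (by decide)⟩
  let γ' : X G → X G := fun x => (γ 2 ⟨x, hmem2 x⟩).1
  have hγ' : Function.Injective γ' := by
    intro x y h
    have := (γ 2).injective (Subtype.ext h)
    exact congrArg Subtype.val this
  have hs2 : ∀ i (x : X G), sa G i 2 x = x := by
    intro i x
    unfold sa
    split_ifs <;> rfl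
  have hα : ∀ i (x : X G), α i (Sum.inl x) = Sum.inl (γ' x) := by
    intro i x
    have h1 := hc i 2 ⟨x, hmem2 x⟩
    have h2 : (Sum.inl (sa G i 2 (γ' x)) : VV G i) = α i (Sum.inl (sa G i 2 x)) := h1
    rw [hs2, hs2] at h2
    exact h2.symm
  have hγj : ∀ j (w : WW G j), (γ j w).1 = γ' w.1 := by
    intro j w
    have h1 := hc 0 j w
    have h2 : (Sum.inl (γ j w).1 : VV G 0) = α 0 (Sum.inl w.1) := h1
    rw [hα] at h2
    exact Sum.inl.inj h2
  have hsj : ∀ j (w : WW G j), γ' (s G j w.1) = s G j (γ' w.1) := by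
    intro j w
    have h1 := hc 1 j w
    have h2 : (Sum.inl (s G j (γ j w).1) : VV G 1) = α 1 (Sum.inl (s G j w.1)) := h1
    rw [hα, hγj] at h2
    exact (Sum.inl.inj h2).symm
  obtain ⟨h, hh⟩ := rigid γ' hγ' (γ 1) (hγj 1) (hsj 1) (hsj 0)
  refine ⟨h, ?_⟩
  apply RelIso.ext
  intro x
  apply Subtype.ext
  rw [hφ x]
  have hV : ∀ i, actV h i = α i := by
    intro i
    funext v
    rcases v with v | v
    · rw [hα, hh]; rfl
    · show Sum.inr v = α i (Sum.inr v)
      rcases hv : α i (Sum.inr v) with u | u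
      · exfalso
        have h1 : γ' (tr G h⁻¹ u) = u := by
          rw [hh, tr_tr, mul_inv_cancel, tr_one]
        have h2 : α i (Sum.inl (tr G h⁻¹ u)) = α i (Sum.inr v) := by
          rw [hα, h1, hv]
        have := (α i).injective h2
        cases this
      · have hu : u = v := by
          apply Fin.ext
          have h1 := u.2
          have h2 := v.2
          have h3 := i.2
          omega
        rw [hu]
  have hW : ∀ j, actW h j = γ j := by
    intro j
    funext w
    apply Subtype.ext
    rw [hγj, hh]; rfl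
  show (fun i => M.map (actV h i) (x.1.1 i), fun j => M.map (actW h j) (x.1.2 j)) = _
  simp only [hV, hW]

end Grp

lemma M_card (V : Type) [Finite V] : Nat.card (M V) = Nat.card V + 2 := by
  have e : M V ≃ Option (Option V) :=
    { toFun := fun x => match x with
        | M.bot => none
        | M.top => some none
        | M.pt v => some (some v)
      invFun := fun x => match x with
        | none => M.bot
        | some none => M.top
        | some (some v) => M.pt v
      left_inv := fun x => by cases x <;> rfl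
      right_inv := fun x => by rcases x with _ | _ | x <;> rfl }
  rw [Nat.card_congr e, Finite.card_option, Finite.card_option]

instance (V : Type) [Finite V] : Finite (M V) := by
  have h := M_card V
  exact Nat.finite_of_card_ne_zero (by omega)


/-- The rank of an element of `M V`. -/
def rk {V : Type} (x : M V) : ℕ :=
  match x with
  | M.bot => 0
  | M.pt _ => 1
  | M.top => 2

lemma rk_le_two {V : Type} (x : M V) : rk x ≤ 2 := by
  cases x <;> simp [rk]

lemma rk_strict {V : Type} {x y : M V} (h : x ≤ y) : rk x ≤ rk y ∧ (rk x = rk y → x = y) := by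
  rcases M.cases' x with rfl | ⟨a, rfl⟩ | rfl
  · refine ⟨Nat.zero_le _, ?_⟩
    rcases M.cases' y with rfl | ⟨b, rfl⟩ | rfl
    · intro _; rfl
    · intro h1
      exact absurd h1 (by show ¬ (0 = 1); omega)
    · intro h1
      exact absurd h1 (by show ¬ (0 = 2); omega)
  · rcases M.cases' y with rfl | ⟨b, rfl⟩ | rfl
    · exact absurd (le_bot_iff.1 h) (M.pt_ne_bot a)
    · rw [M.pt_le_pt] at h
      subst h
      exact ⟨le_rfl, fun _ => rfl⟩
    · refine ⟨by show 1 ≤ 2; omega, fun h1 => ?_⟩
      exact absurd h1 (by show ¬ (1 = 2); omega)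
  · have : y = ⊤ := top_le_iff.1 h
    rw [this]
    exact ⟨le_rfl, fun _ => rfl⟩

/-- The rank of an element of the lattice. -/
noncomputable def rkL (G : Type) [Group G] [Finite G] (x : LL G) : ℕ :=
  ∑ i, rk (x.1.1 i) + ∑ j, rk (x.1.2 j)

lemma rkL_le (G : Type) [Group G] [Finite G] (x : LL G) : rkL G x ≤ 10 := by
  have h1 : ∑ i, rk (x.1.1 i) ≤ ∑ _i : Fin 2, 2 := Finset.sum_le_sum (fun i _ => rk_le_two _)
  have h2 : ∑ j, rk (x.1.2 j) ≤ ∑ _j : Fin 3, 2 := Finset.sum_le_sum (fun i _ => rk_le_two _)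
  simp only [Finset.sum_const, Finset.card_univ, Fintype.card_fin, smul_eq_mul] at h1 h2
  unfold rkL
  omega

lemma rkL_strictMono (G : Type) [Group G] [Finite G] : StrictMono (rkL G) := by
  intro x y hxy
  have hle := hxy.le
  have h1 : ∀ i, rk (x.1.1 i) ≤ rk (y.1.1 i) := fun i => (rk_strict (hle.1 i)).1
  have h2 : ∀ j, rk (x.1.2 j) ≤ rk (y.1.2 j) := fun j => (rk_strict (hle.2 j)).1
  have s1 : ∑ i, rk (x.1.1 i) ≤ ∑ i, rk (y.1.1 i) := Finset.sum_le_sum (fun i _ => h1 i)
  have s2 : ∑ j, rk (x.1.2 j) ≤ ∑ j, rk (y.1.2 j) := Finset.sum_le_sum (fun j _ => h2 j)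
  by_contra hcon
  unfold rkL at hcon
  have e1 : ∑ i, rk (x.1.1 i) = ∑ i, rk (y.1.1 i) := by omega
  have e2 : ∑ j, rk (x.1.2 j) = ∑ j, rk (y.1.2 j) := by omega
  rw [Finset.sum_eq_sum_iff_of_le (fun i _ => h1 i)] at e1
  rw [Finset.sum_eq_sum_iff_of_le (fun j _ => h2 j)] at e2
  apply hxy.ne
  apply Subtype.ext
  apply Prod.ext
  · funext i
    exact (rk_strict (hle.1 i)).2 (e1 i (Finset.mem_univ i))
  · funext j
    exact (rk_strict (hle.2 j)).2 (e2 j (Finset.mem_univ j))

lemma dim_le {L : Type} [Preorder L] (f : L → ℕ) (hf : StrictMono f) (n : ℕ)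
    (hn : ∀ x, f x ≤ n) : Order.krullDim L ≤ (n : WithBot ℕ∞) := by
  unfold Order.krullDim
  apply iSup_le
  intro p
  have h1 := LTSeries.head_add_length_le_nat (p.map f hf)
  have h2 : (p.map f hf).last ≤ n := by
    rw [LTSeries.last_map]
    exact hn _
  have h3 : (p.map f hf).length = p.length := rfl
  have h4 : p.length ≤ n := by omega
  exact_mod_cast h4

/-- The negation of the preceding statement: For every h there is a finite group G such that no nonempty finite modular lattice of height at most h has its automorphism group isomorphic to G. -/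
theorem result :
    ¬ (∀ h : ℕ, ∃ (G : Type) (_ : Group G) (_ : Finite G),
      ∀ (L : Type) [Lattice L] [IsModularLattice L] [Finite L] [Nonempty L],
        Order.krullDim L ≤ (h : WithBot ℕ∞) → IsEmpty ((L ≃o L) ≃* G)) := by
  intro hcon
  obtain ⟨G, _, _, h⟩ := hcon 10
  rcases Nat.lt_or_ge (Nat.card G) 2 with hG | hG
  · have hpos : 0 < Nat.card G := Nat.card_pos
    have hG1 : Nat.card G = 1 := by omega
    have hsub : Subsingleton G := (Nat.card_eq_one_iff_unique.1 hG1).1
    have h1 := h PUnit (dim_le (fun _ => 0) (fun x y hxy => absurd (Subsingleton.elim x y) hxy.ne)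
      10 (fun _ => Nat.zero_le _))
    apply h1.false
    exact
      { toFun := fun _ => 1
        invFun := fun _ => 1
        left_inv := fun e => by
          apply RelIso.ext
          intro x
          exact Subsingleton.elim _ _
        right_inv := fun g => Subsingleton.elim _ _
        map_mul' := fun _ _ => by simp }
  · have h1 := h (LL G) (dim_le (rkL G) (rkL_strictMono G) 10 (rkL_le G))
    apply h1.false
    exact (MulEquiv.ofBijective actHom ⟨actHom_inj, actHom_surj hG⟩).symm

end Pool.Agent.S05134
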