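import Pool.Statements.S05136

set_option autoImplicit false
open Pool Pool.MP_2dea4c_co

namespace Pool.Agent.S05136

/-- tails of the 26 arcs -/
def tl : Fin 26 → Fin 12 :=
  ![1, 1, 2, 2, 3, 3, 4, 4, 7, 5, 6, 0, 1, 3, 5, 6, 7, 3, 0, 1, 8, 8, 9, 9, 10, 10]

/-- heads of the 26 arcs -/
def hd : Fin 26 → Fin 12 :=
  ![2, 2, 1, 1, 4, 4, 3, 3, 5, 6, 7, 5, 6, 7, 8, 9, 10, 8, 9, 10, 11, 11, 11, 11, 11, 11]

/-- growing a tree by one leaf adds at most one value of `p`, and only along a crossing arc -/
theorem grow (p : Fin 12 → ℕ) (S : Finset (Fin 12)) (T : Finset (Fin 26))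
    (h : (S.image p).card ≤ 1 + (T.filter (fun a => p (tl a) ≠ p (hd a))).card)
    (a : Fin 26) (x y : Fin 12) (ha : a ∉ T) (hy : y ∈ S)
    (hxy : (tl a = x ∧ hd a = y) ∨ (tl a = y ∧ hd a = x)) :
    ((insert x S).image p).card ≤
      1 + ((insert a T).filter (fun a => p (tl a) ≠ p (hd a))).card := by
  rw [Finset.image_insert]
  by_cases hp : p x = p y
  · have h1 : p x ∈ S.image p := by
      rw [hp]; exact Finset.mem_image_of_mem p hy
    rw [Finset.insert_eq_of_mem h1]
    refine h.trans ?_
    have : (T.filter (fun a => p (tl a) ≠ p (hd a))) ⊆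
        ((insert a T).filter (fun a => p (tl a) ≠ p (hd a))) :=
      Finset.filter_subset_filter _ (Finset.subset_insert a T)
    have := Finset.card_le_card this
    omega
  · have hc : p (tl a) ≠ p (hd a) := by
      rcases hxy with ⟨h1, h2⟩ | ⟨h1, h2⟩
      · rw [h1, h2]; exact hp
      · rw [h1, h2]; exact fun h => hp h.symm
    have hn : a ∉ T.filter (fun a => p (tl a) ≠ p (hd a)) := by
      intro hmem
      exact ha (Finset.mem_filter.mp hmem).1
    have h1 := Finset.card_insert_le (p x) (S.image p)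
    have h2 := Finset.card_insert_of_notMem hn
    rw [Finset.filter_insert, if_pos hc, h2]
    omega

theorem start (p : Fin 12 → ℕ) :
    (({0} : Finset (Fin 12)).image p).card ≤
      1 + ((∅ : Finset (Fin 26)).filter (fun a => p (tl a) ≠ p (hd a))).card := by
  simp


theorem tree1 (p : Fin 12 → ℕ) :
    ((Finset.univ : Finset (Fin 12)).image p).card ≤
      1 + ((({18, 15, 9, 8, 12, 2, 22, 20, 17, 6, 25} : Finset (Fin 26))).filter
        (fun a => p (tl a) ≠ p (hd a))).card := by
  have h0 := start p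
  have h1 := grow p _ _ h0 18 9 0 (by decide) (by decide) (by decide)
  have h2 := grow p _ _ h1 15 6 9 (by decide) (by decide) (by decide)
  have h3 := grow p _ _ h2 9 5 6 (by decide) (by decide) (by decide)
  have h4 := grow p _ _ h3 8 7 5 (by decide) (by decide) (by decide)
  have h5 := grow p _ _ h4 12 1 6 (by decide) (by decide) (by decide)
  have h6 := grow p _ _ h5 2 2 1 (by decide) (by decide) (by decide)
  have h7 := grow p _ _ h6 22 11 9 (by decide) (by decide) (by decide)
  have h8 := grow p _ _ h7 20 8 11 (by decide) (by decide) (by decide)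
  have h9 := grow p _ _ h8 17 3 8 (by decide) (by decide) (by decide)
  have h10 := grow p _ _ h9 6 4 3 (by decide) (by decide) (by decide)
  have h11 := grow p _ _ h10 25 10 11 (by decide) (by decide) (by decide)
  have e1 : (insert 10 (insert 4 (insert 3 (insert 8 (insert 11 (insert 2 (insert 1
      (insert 7 (insert 5 (insert 6 (insert 9 {0}))))))))))) =
      (Finset.univ : Finset (Fin 12)) := by decide
  have e2 : (insert 25 (insert 6 (insert 17 (insert 20 (insert 22 (insert 2 (insert 12
      (insert 8 (insert 9 (insert 15 (insert 18 ∅))))))))))) =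
      ({18, 15, 9, 8, 12, 2, 22, 20, 17, 6, 25} : Finset (Fin 26)) := by decide
  rw [e1, e2] at h11
  exact h11

theorem tree2 (p : Fin 12 → ℕ) :
    ((Finset.univ : Finset (Fin 12)).image p).card ≤
      1 + ((({11, 14, 21, 23, 24, 16, 10, 13, 7, 19, 1} : Finset (Fin 26))).filter
        (fun a => p (tl a) ≠ p (hd a))).card := by
  have h0 := start p
  have h1 := grow p _ _ h0 11 5 0 (by decide) (by decide) (by decide)
  have h2 := grow p _ _ h1 14 8 5 (by decide) (by decide) (by decide)
  have h3 := grow p _ _ h2 21 11 8 (by decide) (by decide) (by decide)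
  have h4 := grow p _ _ h3 23 9 11 (by decide) (by decide) (by decide)
  have h5 := grow p _ _ h4 24 10 11 (by decide) (by decide) (by decide)
  have h6 := grow p _ _ h5 16 7 10 (by decide) (by decide) (by decide)
  have h7 := grow p _ _ h6 10 6 7 (by decide) (by decide) (by decide)
  have h8 := grow p _ _ h7 13 3 7 (by decide) (by decide) (by decide)
  have h9 := grow p _ _ h8 7 4 3 (by decide) (by decide) (by decide)
  have h10 := grow p _ _ h9 19 1 10 (by decide) (by decide) (by decide)
  have h11 := grow p _ _ h10 1 2 1 (by decide) (by decide) (by decide)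
  have e1 : (insert 2 (insert 1 (insert 4 (insert 3 (insert 6 (insert 7 (insert 10
      (insert 9 (insert 11 (insert 8 (insert 5 {0}))))))))))) =
      (Finset.univ : Finset (Fin 12)) := by decide
  have e2 : (insert 1 (insert 19 (insert 7 (insert 13 (insert 10 (insert 16 (insert 24
      (insert 23 (insert 21 (insert 14 (insert 11 ∅))))))))))) =
      ({11, 14, 21, 23, 24, 16, 10, 13, 7, 19, 1} : Finset (Fin 26)) := by decide
  rw [e1, e2] at h11
  exact h11

theorem partition_connected (p : Fin 12 → ℕ) :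
    2 * ((Finset.univ.image p).card - 1) ≤
      Fintype.card {a : Fin 26 // p (tl a) ≠ p (hd a)} := by
  have h1 := tree1 p
  have h2 := tree2 p
  have hd : Disjoint
      ((({18, 15, 9, 8, 12, 2, 22, 20, 17, 6, 25} : Finset (Fin 26))).filter
        (fun a => p (tl a) ≠ p (hd a)))
      ((({11, 14, 21, 23, 24, 16, 10, 13, 7, 19, 1} : Finset (Fin 26))).filter
        (fun a => p (tl a) ≠ p (hd a))) := by
    apply Finset.disjoint_filter_filter
    decide
  have h3 := Finset.card_union_of_disjoint hd
  rw [Fintype.card_subtype]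
  have h4 : ((({18, 15, 9, 8, 12, 2, 22, 20, 17, 6, 25} : Finset (Fin 26))).filter
        (fun a => p (tl a) ≠ p (Pool.Agent.S05136.hd a))) ∪
      ((({11, 14, 21, 23, 24, 16, 10, 13, 7, 19, 1} : Finset (Fin 26))).filter
        (fun a => p (tl a) ≠ p (Pool.Agent.S05136.hd a))) ⊆
      (Finset.univ : Finset (Fin 26)).filter
        (fun a => p (tl a) ≠ p (Pool.Agent.S05136.hd a)) := by
    intro a ha
    rw [Finset.mem_union, Finset.mem_filter, Finset.mem_filter] at ha
    rw [Finset.mem_filter]
    rcases ha with ha | ha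
    · exact ⟨Finset.mem_univ _, ha.2⟩
    · exact ⟨Finset.mem_univ _, ha.2⟩
  have h5 := Finset.card_le_card h4
  omega

/-- in a connected graph some edge leaves every proper nonempty vertex set -/
theorem cross {V : Type} (G : SimpleGraph V) (hG : G.Connected) (X : V → Bool)
    (u v : V) (hu : X u = true) (hv : X v = false) :
    ∃ x y, X x = true ∧ X y = false ∧ G.Adj x y := by
  obtain ⟨w⟩ := hG.preconnected u v
  induction w with
  | nil => rw [hu] at hv; exact absurd hv (by decide)
  | @cons a b c hab w ih =>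
    by_cases hb : X b = true
    · exact ih hb hv
    · exact ⟨a, b, hu, by simpa using hb, hab⟩

theorem cut (f : Fin 26 → Fin 2) (i : Fin 2)
    (hG : (SimpleGraph.fromRel
      (fun u v : Fin 12 => ∃ a : Fin 26, f a = i ∧ tl a = u ∧ hd a = v)).Connected)
    (X : Fin 12 → Bool) (u v : Fin 12) (hu : X u = true) (hv : X v = false) :
    ∃ a : Fin 26, f a = i ∧ X (tl a) ≠ X (hd a) := by
  obtain ⟨x, y, hx, hy, hadj⟩ := cross _ hG X u v hu hv
  rw [SimpleGraph.fromRel_adj] at hadj
  rcases hadj.2 with ⟨a, ha, h1, h2⟩ | ⟨a, ha, h1, h2⟩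
  · refine ⟨a, ha, ?_⟩
    rw [h1, h2, hx, hy]; decide
  · refine ⟨a, ha, ?_⟩
    rw [h1, h2, hx, hy]; decide

theorem two (x y : Fin 2) (h : ∀ i, x = i ∨ y = i) : y = 1 - x := by
  revert x y; decide

theorem final (f : Fin 26 → Fin 2)
    (h5 : ∀ i, f 8 = i ∨ f 11 = i) (h6 : ∀ i, f 9 = i ∨ f 12 = i)
    (h7 : ∀ i, f 10 = i ∨ f 13 = i) (h8 : ∀ i, f 17 = i ∨ f 14 = i)
    (h9 : ∀ i, f 18 = i ∨ f 15 = i) (h10 : ∀ i, f 19 = i ∨ f 16 = i)
    (c0 : ∀ i, f 11 = i ∨ f 18 = i) (c1 : ∀ i, f 12 = i ∨ f 19 = i)
    (c2 : ∀ i, f 13 = i ∨ f 17 = i)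
    (d0 : ∀ i, f 18 = i ∨ f 8 = i ∨ f 9 = i ∨ f 14 = i)
    (d1 : ∀ i, f 19 = i ∨ f 9 = i ∨ f 10 = i ∨ f 15 = i)
    (d2 : ∀ i, f 17 = i ∨ f 10 = i ∨ f 8 = i ∨ f 16 = i)
    (e : ∀ i, f 11 = i ∨ f 12 = i ∨ f 13 = i ∨ f 14 = i ∨ f 15 = i ∨ f 16 = i) :
    False := by
  have a14 := two _ _ h8
  have a15 := two _ _ h9
  have a16 := two _ _ h10
  have a17 := two _ _ c2
  have a18 := two _ _ c0
  have a19 := two _ _ c1
  have a11 := two _ _ h5
  have a12 := two _ _ h6
  have a13 := two _ _ h7
  simp only [a14, a15, a16, a17, a18, a19, a11, a12, a13] at d0 d1 d2 e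
  clear h5 h6 h7 h8 h9 h10 c0 c1 c2 a14 a15 a16 a17 a18 a19 a11 a12 a13
  generalize f 8 = x at *
  generalize f 9 = y at *
  generalize f 10 = z at *
  revert x y z
  decide

/-- The negation of the preceding statement: For any k ≥ 1 and any loopless finite directed multigraph that is k-partition-connected when undirected, with a root of in-degree 0 and all other in-degrees at least k, the arcs split into k weakly connected spanning parts, each entering every non-root vertex. -/
theorem result :
    ¬ (∀ (V : Type) [Fintype V] [DecidableEq V] (A : Type) [Fintype A]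
      (tail head : A → V) (k : ℕ) (r₀ : V),
      0 < k →
      (∀ a : A, tail a ≠ head a) →
      (∀ p : V → ℕ,
        k * ((Finset.univ.image p).card - 1) ≤
          Fintype.card {a : A // p (tail a) ≠ p (head a)}) →
      (∀ a : A, head a ≠ r₀) →
      (∀ v : V, v ≠ r₀ → k ≤ Fintype.card {a : A // head a = v}) →
      ∃ f : A → Fin k,
        (∀ i : Fin k,
          (SimpleGraph.fromRel
            (fun u v : V => ∃ a : A, f a = i ∧ tail a = u ∧ head a = v)).Connected) ∧
        (∀ i : Fin k, ∀ v : V, v ≠ r₀ → ∃ a : A, f a = i ∧ head a = v)) := by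
  intro H
  obtain ⟨f, hconn, hin⟩ := H (Fin 12) (Fin 26) tl hd 2 0 (by norm_num) (by decide)
    partition_connected (by decide) (by decide)
  have hcut := fun i X u v hu hv => cut f i (hconn i) X u v hu hv
  apply final f
  · intro i
    obtain ⟨a, ha, h⟩ := hin i 5 (by decide)
    have : a = 8 ∨ a = 11 := by clear ha; revert h; revert a; decide
    rcases this with rfl | rfl <;> simp [ha]
  · intro i
    obtain ⟨a, ha, h⟩ := hin i 6 (by decide)
    have : a = 9 ∨ a = 12 := by clear ha; revert h; revert a; decide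
    rcases this with rfl | rfl <;> simp [ha]
  · intro i
    obtain ⟨a, ha, h⟩ := hin i 7 (by decide)
    have : a = 10 ∨ a = 13 := by clear ha; revert h; revert a; decide
    rcases this with rfl | rfl <;> simp [ha]
  · intro i
    obtain ⟨a, ha, h⟩ := hin i 8 (by decide)
    have : a = 17 ∨ a = 14 := by clear ha; revert h; revert a; decide
    rcases this with rfl | rfl <;> simp [ha]
  · intro i
    obtain ⟨a, ha, h⟩ := hin i 9 (by decide)
    have : a = 18 ∨ a = 15 := by clear ha; revert h; revert a; decide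
    rcases this with rfl | rfl <;> simp [ha]
  · intro i
    obtain ⟨a, ha, h⟩ := hin i 10 (by decide)
    have : a = 19 ∨ a = 16 := by clear ha; revert h; revert a; decide
    rcases this with rfl | rfl <;> simp [ha]
  · intro i
    obtain ⟨a, ha, h⟩ := hcut i (fun v => decide (v = 0)) 0 1 (by decide) (by decide)
    have : a = 11 ∨ a = 18 := by clear ha; revert h; revert a; decide
    rcases this with rfl | rfl <;> simp [ha]
  · intro i
    obtain ⟨a, ha, h⟩ := hcut i (fun v => decide (v = 1 ∨ v = 2)) 1 0 (by decide) (by decide)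
    have : a = 12 ∨ a = 19 := by clear ha; revert h; revert a; decide
    rcases this with rfl | rfl <;> simp [ha]
  · intro i
    obtain ⟨a, ha, h⟩ := hcut i (fun v => decide (v = 3 ∨ v = 4)) 3 0 (by decide) (by decide)
    have : a = 13 ∨ a = 17 := by clear ha; revert h; revert a; decide
    rcases this with rfl | rfl <;> simp [ha]
  · intro i
    obtain ⟨a, ha, h⟩ := hcut i (fun v => decide (v = 0 ∨ v = 5)) 0 1 (by decide) (by decide)
    have : a = 18 ∨ a = 8 ∨ a = 9 ∨ a = 14 := by clear ha; revert h; revert a; decide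
    rcases this with rfl | rfl | rfl | rfl <;> simp [ha]
  · intro i
    obtain ⟨a, ha, h⟩ := hcut i (fun v => decide (v = 1 ∨ v = 2 ∨ v = 6)) 1 0
      (by decide) (by decide)
    have : a = 19 ∨ a = 9 ∨ a = 10 ∨ a = 15 := by clear ha; revert h; revert a; decide
    rcases this with rfl | rfl | rfl | rfl <;> simp [ha]
  · intro i
    obtain ⟨a, ha, h⟩ := hcut i (fun v => decide (v = 3 ∨ v = 4 ∨ v = 7)) 3 0
      (by decide) (by decide)
    have : a = 17 ∨ a = 10 ∨ a = 8 ∨ a = 16 := by clear ha; revert h; revert a; decide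
    rcases this with rfl | rfl | rfl | rfl <;> simp [ha]
  · intro i
    obtain ⟨a, ha, h⟩ := hcut i (fun v => decide (v = 5 ∨ v = 6 ∨ v = 7)) 5 0
      (by decide) (by decide)
    have : a = 11 ∨ a = 12 ∨ a = 13 ∨ a = 14 ∨ a = 15 ∨ a = 16 := by
      clear ha; revert h; revert a; decide
    rcases this with rfl | rfl | rfl | rfl | rfl | rfl <;> simp [ha]

end Pool.Agent.S05136
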