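import Pool.Statements.S05137

set_option autoImplicit false
open Pool Pool.MP_2df71a_co

namespace Pool.Agent.S05137

/-- Density of generic points. -/
theorem exists_generic (k : ℕ) (O : Set (Fin k → ℝ)) (hO : IsOpen O) (hne : O.Nonempty)
    (W : Set ℝ) (hW : W.Countable) :
    ∃ x ∈ O, ∀ b : Fin k → ℚ, b ≠ 0 → ∀ w ∈ W, ∑ i, (b i : ℝ) * x i ≠ w := by
  have : Countable W := hW.to_subtype
  let f : {b : Fin k → ℚ // b ≠ 0} × W → Set (Fin k → ℝ) :=
    fun q => {x | ∑ i, ((q.1.1 i : ℚ) : ℝ) * x i ≠ (q.2 : ℝ)}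
  have ho : ∀ q, IsOpen (f q) := by
    intro q
    have hc : Continuous fun x : Fin k → ℝ => ∑ i, ((q.1.1 i : ℚ) : ℝ) * x i := by fun_prop
    exact isOpen_ne_fun hc continuous_const
  have hd : ∀ q, Dense (f q) := by
    rintro ⟨⟨b, hb⟩, w⟩
    rw [Metric.dense_iff]
    intro x ε hε
    obtain ⟨i0, hi0⟩ : ∃ i0, b i0 ≠ 0 := by
      by_contra hcon
      push Not at hcon
      exact hb (funext hcon)
    by_cases hx : ∑ i, ((b i : ℚ) : ℝ) * x i = (w : ℝ)
    · refine ⟨x + Pi.single i0 (ε / 2), ?_, ?_⟩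
      · rw [Metric.mem_ball, dist_pi_lt_iff hε]
        intro i
        rw [Real.dist_eq, Pi.add_apply, add_sub_cancel_left]
        by_cases hi : i = i0
        · subst hi
          rw [Pi.single_eq_same, abs_of_pos (by linarith)]
          linarith
        · rw [Pi.single_eq_of_ne hi, abs_zero]
          exact hε
      · show ∑ i, ((b i : ℚ) : ℝ) * (x + Pi.single i0 (ε / 2) : Fin k → ℝ) i ≠ (w : ℝ)
        simp only [Pi.add_apply, mul_add, Finset.sum_add_distrib, hx]
        rw [Finset.sum_eq_single i0 (by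
          intro i _ hi
          rw [Pi.single_eq_of_ne hi, mul_zero]) (by simp)]
        rw [Pi.single_eq_same]
        have h1 : ((b i0 : ℚ) : ℝ) ≠ 0 := by exact_mod_cast hi0
        have h2 : ((b i0 : ℚ) : ℝ) * (ε / 2) ≠ 0 := mul_ne_zero h1 (by linarith)
        intro h3
        exact h2 (by linarith)
    · exact ⟨x, Metric.mem_ball_self hε, hx⟩
  obtain ⟨x, hxO, hx⟩ := (dense_iInter_of_isOpen ho hd).inter_open_nonempty O hO hne
  refine ⟨x, hxO, fun b hb w hw => ?_⟩
  have := Set.mem_iInter.1 hx (⟨b, hb⟩, ⟨w, hw⟩)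
  exact this

/-- Strict difference constraints are solvable when all permutation cycles have positive cost. -/
theorem exists_potential {I : Type} [Fintype I] [DecidableEq I] (R : I → I → Prop)
    (c : I → I → ℝ) (hR : ∀ i, ¬ R i i)
    (hc : ∀ τ : Equiv.Perm I, τ ≠ 1 → (∀ i, τ i ≠ i → R i (τ i)) →
      0 < ∑ i, if τ i = i then 0 else c i (τ i)) :
    ∃ x : I → ℝ, ∀ i j, R i j → x j - x i < c i j := by
  by_contra hcon
  push Not at hcon
  let s : Set (I → I → ℝ) := {z | ∀ i j, R i j → z i j < c i j}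
  let t : Set (I → I → ℝ) := {z | ∃ x : I → ℝ, ∀ i j, z i j = x j - x i}
  have hs1 : Convex ℝ s := by
    intro z hz z' hz' a b ha hb hab i j hij
    have h1 := hz i j hij
    have h2 := hz' i j hij
    simp only [Pi.add_apply, Pi.smul_apply, smul_eq_mul]
    rcases ha.lt_or_eq with ha' | ha'
    · have e : c i j = a * c i j + b * c i j := by rw [← add_mul, hab, one_mul]
      have e1 := mul_lt_mul_of_pos_left h1 ha'
      have e2 := mul_le_mul_of_nonneg_left h2.le hb
      linarith
    · have : b = 1 := by linarith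
      rw [← ha', this]
      linarith
  have hs2 : IsOpen s := by
    have : s = ⋂ i, ⋂ j, ⋂ (_ : R i j), {z : I → I → ℝ | z i j < c i j} := by
      ext z
      simp [s]
    rw [this]
    refine isOpen_iInter_of_finite fun i => isOpen_iInter_of_finite fun j =>
      isOpen_iInter_of_finite fun _ => ?_
    exact isOpen_lt (by fun_prop) continuous_const
  have ht : Convex ℝ t := by
    rintro z ⟨x, hx⟩ z' ⟨x', hx'⟩ a b ha hb hab
    refine ⟨a • x + b • x', fun i j => ?_⟩
    simp only [Pi.add_apply, Pi.smul_apply, smul_eq_mul, hx, hx']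
    ring
  have disj : Disjoint s t := by
    rw [Set.disjoint_left]
    rintro z hz ⟨x, hx⟩
    obtain ⟨i, j, hij, h⟩ := hcon x
    have := hz i j hij
    rw [hx] at this
    linarith
  obtain ⟨f, u, hf1, hf2⟩ := geometric_hahn_banach_open hs1 hs2 ht disj
  let e : I → I → (I → I → ℝ) := fun i j => Pi.single i (Pi.single j 1)
  let y : I → I → ℝ := fun i j => f (e i j)
  have hf : ∀ z : I → I → ℝ, f z = ∑ i, ∑ j, z i j * y i j := by
    intro z
    have hz : z = ∑ i, ∑ j, z i j • e i j := by
      ext a b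
      simp only [Finset.sum_apply, Pi.smul_apply, smul_eq_mul, e]
      rw [Finset.sum_eq_single a, Finset.sum_eq_single b]
      · simp
      · intro j _ hj
        simp [Ne.symm hj]
      · simp
      · intro i _ hi
        apply Finset.sum_eq_zero
        intro j _
        rw [Pi.single_eq_of_ne (Ne.symm hi)]
        simp
      · simp
    conv_lhs => rw [hz]
    simp only [map_sum, map_smul, smul_eq_mul]
    rfl
  have hu : u ≤ 0 := by
    have := hf2 0 ⟨0, by simp⟩
    simpa using this
  have ht0 : ∀ b ∈ t, f b = 0 := by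
    rintro b ⟨x, hx⟩
    by_contra hne
    have h1 := hf2 (((u - 1) / f b) • b) ⟨((u - 1) / f b) • x, fun i j => by
      simp only [Pi.smul_apply, smul_eq_mul, hx]; ring⟩
    rw [map_smul, smul_eq_mul, div_mul_cancel₀ _ hne] at h1
    linarith
  let a0 : I → I → ℝ := fun i j => c i j - 1
  have ha0 : a0 ∈ s := fun i j _ => by simp [a0]
  have hfa0 : f a0 < u := hf1 a0 ha0
  have hy0 : ∀ i j, ¬ R i j → y i j = 0 := by
    intro i j hij
    by_contra hne
    have h1 := hf1 (a0 + ((u - f a0) / y i j) • e i j) (by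
      intro a b hab
      have hne' : ¬ (a = i ∧ b = j) := by
        rintro ⟨rfl, rfl⟩
        exact hij hab
      have : e i j a b = 0 := by
        by_cases ha : a = i
        · subst ha
          simp only [e]
          rw [Pi.single_eq_same, Pi.single_eq_of_ne (fun hb => hne' ⟨rfl, hb⟩)]
        · simp only [e]
          rw [Pi.single_eq_of_ne ha]
          rfl
      simp only [Pi.add_apply, Pi.smul_apply, this, smul_zero, add_zero]
      exact ha0 a b hab)
    rw [map_add, map_smul, smul_eq_mul] at h1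
    have h2 : (u - f a0) / y i j * f (e i j) = u - f a0 :=
      div_mul_cancel₀ _ hne
    rw [h2] at h1
    linarith
  have hy1 : ∀ i j, 0 ≤ y i j := by
    intro i j
    by_cases hij : R i j
    · by_contra hneg
      push Not at hneg
      have hpos : 0 < (f a0 - u) / y i j := div_pos_of_neg_of_neg (by linarith) hneg
      have h1 := hf1 (a0 + (-((f a0 - u) / y i j)) • e i j) (by
        intro a b hab
        have : 0 ≤ e i j a b := by
          simp only [e]
          by_cases ha : a = i
          · subst ha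
            rw [Pi.single_eq_same]
            by_cases hb : b = j
            · subst hb; rw [Pi.single_eq_same]; exact zero_le_one
            · rw [Pi.single_eq_of_ne hb]
          · rw [Pi.single_eq_of_ne ha]
            exact le_refl _
        have h2 := ha0 a b hab
        simp only [Pi.add_apply, Pi.smul_apply, smul_eq_mul]
        nlinarith)
      rw [map_add, map_smul, smul_eq_mul] at h1
      have h2 : (f a0 - u) / y i j * f (e i j) = f a0 - u :=
        div_mul_cancel₀ _ hneg.ne
      rw [neg_mul, h2] at h1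
      linarith
    · rw [hy0 i j hij]
  have hyi : ∀ i, y i i = 0 := fun i => hy0 i i (hR i)
  set Y : ℝ := ∑ i, ∑ j, y i j with hYdef
  have hY : 0 < Y := by
    rcases (Finset.sum_nonneg fun i _ => Finset.sum_nonneg fun j _ => hy1 i j :
      0 ≤ ∑ i, ∑ j, y i j).lt_or_eq with h | h
    · exact h
    · exfalso
      have h1 : ∀ i, ∑ j, y i j = 0 := fun i =>
        (Finset.sum_eq_zero_iff_of_nonneg (fun i _ => Finset.sum_nonneg fun j _ => hy1 i j)).1
          h.symm i (Finset.mem_univ _)
      have h2 : ∀ i j, y i j = 0 := fun i j =>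
        (Finset.sum_eq_zero_iff_of_nonneg (fun j _ => hy1 i j)).1 (h1 i) j (Finset.mem_univ _)
      have h3 : f a0 = 0 := by
        rw [hf]
        simp [h2]
      linarith
  have hcost : ∑ i, ∑ j, c i j * y i j ≤ 0 := by
    by_contra hpos
    push Not at hpos
    set C := ∑ i, ∑ j, c i j * y i j with hC
    have h1 := hf1 (fun i j => c i j - C / (2 * Y)) (fun i j _ => by
      have : 0 < C / (2 * Y) := by positivity
      simp only []
      linarith)
    rw [hf] at h1
    have h2 : ∑ i, ∑ j, (c i j - C / (2 * Y)) * y i j = C - C / (2 * Y) * Y := by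
      simp only [sub_mul, Finset.sum_sub_distrib, ← Finset.mul_sum]
      rw [← hC, ← hYdef]
    rw [h2] at h1
    have h3 : C / (2 * Y) * Y = C / 2 := by field_simp
    rw [h3] at h1
    linarith
  have hflow : ∀ v, ∑ i, y i v = ∑ j, y v j := by
    intro v
    have h1 := ht0 (fun i j => (if j = v then 1 else 0) - (if i = v then 1 else 0))
      ⟨fun j => if j = v then 1 else 0, fun i j => rfl⟩
    rw [hf] at h1
    simp only [sub_mul, ite_mul, one_mul, zero_mul, Finset.sum_sub_distrib,
      Finset.sum_ite_eq', Finset.mem_univ, if_true] at h1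
    have h2 : ∑ i, ∑ j, (if i = v then y i j else 0) = ∑ j, y v j := by
      rw [Finset.sum_eq_single v]
      · simp
      · intro i _ hi
        simp [hi]
      · simp
    rw [h2] at h1
    linarith
  let D : Matrix I I ℝ := fun i j => if i = j then 1 - (∑ l, y i l) / Y else y i j / Y
  have hrow : ∀ i, ∑ l, y i l ≤ Y := fun i =>
    Finset.single_le_sum (f := fun i => ∑ l, y i l)
      (fun i _ => Finset.sum_nonneg fun j _ => hy1 i j) (Finset.mem_univ i)
  have hD : D ∈ doublyStochastic ℝ I := by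
    rw [mem_doublyStochastic_iff_sum]
    refine ⟨?_, ?_, ?_⟩
    · intro i j
      simp only [D]
      split_ifs
      · have : (∑ l, y i l) / Y ≤ 1 := by rw [div_le_one hY]; exact hrow i
        linarith
      · exact div_nonneg (hy1 i j) hY.le
    · intro i
      have h1 : ∀ j, D i j = (if j = i then (1 - (∑ l, y i l) / Y) else 0) + y i j / Y := by
        intro j
        simp only [D]
        by_cases hij : i = j
        · subst hij; simp [hyi]
        · simp [hij, Ne.symm hij]
      simp only [h1, Finset.sum_add_distrib, Finset.sum_ite_eq', Finset.mem_univ, if_true,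
        ← Finset.sum_div]
      ring
    · intro j
      have h1 : ∀ i, D i j = (if i = j then (1 - (∑ l, y j l) / Y) else 0) + y i j / Y := by
        intro i
        simp only [D]
        by_cases hij : i = j
        · subst hij; simp [hyi]
        · simp [hij]
      simp only [h1, Finset.sum_add_distrib, Finset.sum_ite_eq', Finset.mem_univ, if_true,
        ← Finset.sum_div, hflow]
      ring
  obtain ⟨w, hw0, hw1, hw⟩ := exists_eq_sum_perm_of_mem_doublyStochastic hD
  have hDw : ∀ i j, D i j = ∑ σ : Equiv.Perm I, if σ i = j then w σ else 0 := by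
    intro i j
    rw [← hw, Matrix.sum_apply]
    refine Finset.sum_congr rfl fun σ _ => ?_
    rw [Matrix.smul_apply, Equiv.Perm.permMatrix, PEquiv.toMatrix_apply]
    simp [Equiv.toPEquiv_apply]
  have hRw : ∀ σ : Equiv.Perm I, 0 < w σ → ∀ i, σ i ≠ i → R i (σ i) := by
    intro σ hσ i hi
    by_contra hnR
    have h1 : D i (σ i) = 0 := by
      simp only [D, if_neg (Ne.symm hi), hy0 i (σ i) hnR, zero_div]
    rw [hDw] at h1
    have h2 := (Finset.sum_eq_zero_iff_of_nonneg (fun σ' _ => by
      split_ifs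
      · exact hw0 σ'
      · exact le_refl _)).1 h1 σ (Finset.mem_univ _)
    rw [if_pos rfl] at h2
    linarith
  have htot : ∑ i, ∑ j, c i j * y i j =
      Y * ∑ σ : Equiv.Perm I, w σ * ∑ i, (if σ i = i then 0 else c i (σ i)) := by
    have h1 : ∀ i j, c i j * y i j = Y * ((if i = j then 0 else c i j) * D i j) := by
      intro i j
      by_cases hij : i = j
      · subst hij; simp [hyi]
      · simp only [D, if_neg hij]
        field_simp
    have h2 : ∀ i (σ : Equiv.Perm I), ∑ j, (if i = j then 0 else c i j) *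
        (if σ i = j then w σ else 0) = w σ * (if σ i = i then 0 else c i (σ i)) := by
      intro i σ
      rw [Finset.sum_eq_single (σ i)]
      · rw [if_pos rfl]
        by_cases h' : i = σ i
        · rw [if_pos h', if_pos h'.symm]; ring
        · rw [if_neg h', if_neg (Ne.symm h')]; ring
      · intro j _ hj
        rw [if_neg (Ne.symm hj), mul_zero]
      · simp
    simp only [h1, ← Finset.mul_sum]
    congr 1
    simp only [hDw, Finset.mul_sum (s := (Finset.univ : Finset (Equiv.Perm I)))]
    calc ∑ i, ∑ j, ∑ σ : Equiv.Perm I, (if i = j then 0 else c i j) * (if σ i = j then w σ else 0)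
        = ∑ i, ∑ σ : Equiv.Perm I, ∑ j, (if i = j then 0 else c i j) *
            (if σ i = j then w σ else 0) := Finset.sum_congr rfl fun i _ => Finset.sum_comm
      _ = ∑ i, ∑ σ : Equiv.Perm I, w σ * (if σ i = i then 0 else c i (σ i)) :=
          Finset.sum_congr rfl fun i _ => Finset.sum_congr rfl fun σ _ => h2 i σ
      _ = ∑ σ : Equiv.Perm I, ∑ i, w σ * (if σ i = i then 0 else c i (σ i)) := Finset.sum_comm
      _ = _ := by
          refine Finset.sum_congr rfl fun σ _ => ?_
          rw [Finset.mul_sum]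
  have hpos : 0 < ∑ σ : Equiv.Perm I, w σ * ∑ i, (if σ i = i then 0 else c i (σ i)) := by
    apply Finset.sum_pos'
    · intro σ _
      rcases (hw0 σ).lt_or_eq with h | h
      · by_cases hσ : σ = 1
        · subst hσ; simp
        · exact mul_nonneg h.le (hc σ hσ (hRw σ h)).le
      · rw [← h, zero_mul]
    · obtain ⟨i, j, hij⟩ : ∃ i j, 0 < y i j := by
        by_contra hno
        push Not at hno
        have : Y = 0 := by
          rw [hYdef]
          refine Finset.sum_eq_zero fun i _ => Finset.sum_eq_zero fun j _ =>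
            le_antisymm (hno i j) (hy1 i j)
        linarith
      have hne : i ≠ j := by
        rintro rfl
        rw [hyi] at hij
        exact lt_irrefl _ hij
      have h1 : 0 < D i j := by
        simp only [D, if_neg hne]
        positivity
      rw [hDw] at h1
      obtain ⟨σ, _, hσ⟩ := Finset.exists_lt_of_sum_lt (f := fun _ => (0 : ℝ)) (by
        simpa using h1)
      split_ifs at hσ with h2
      · have hσ1 : σ ≠ 1 := by
          rintro rfl
          exact hne (by simpa using h2)
        exact ⟨σ, Finset.mem_univ _, mul_pos hσ (hc σ hσ1 (hRw σ hσ))⟩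
      · exact absurd hσ (lt_irrefl _)
  have := mul_pos hY hpos
  rw [← htot] at this
  linarith


open Relation

/-- There is an arc from `u` to `w`. -/
def Arc {V E : Type} (tl hd : E → V) (u w : V) : Prop := ∃ a, tl a = u ∧ hd a = w

/-- The invariant of the construction on a set `s` of nodes: `h` is a potential vector at each
node and `π i v` is the arc entering `v` in the `i`-th arborescence. -/
structure Good {V E : Type} [Fintype V] (tl hd : E → V) {k : ℕ} (r : Fin k → V)
    (U : Fin k → Set V) (s : Finset V) (h : Fin k → V → ℝ) (π : Fin k → V → E) : Prop where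
  hd_eq : ∀ v ∈ s, ∀ i, v ∈ U i → v ≠ r i → hd (π i v) = v
  tl_mem : ∀ v ∈ s, ∀ i, v ∈ U i → v ≠ r i → tl (π i v) ∈ U i
  ne : ∀ v ∈ s, ∀ i j, i ≠ j → v ∈ U i → v ∈ U j → v ≠ r i → v ≠ r j → π i v ≠ π j v
  pot : ∀ v ∈ s, ∀ i j, i ≠ j → v ∈ U i → v ∈ U j → v ≠ r j → tl (π j v) ∈ U i →
    ¬ (tl (π j v) = r i ∧ r i = r j) →
    h j v - h i v < h j (tl (π j v)) - h i (tl (π j v))
  gen : ∀ a : Fin k → V → ℚ, (∀ i, ∀ u, u ∉ s → a i u = 0) →
    ∑ i, ∑ u, ((a i u : ℚ) : ℝ) * h i u = 0 → ∀ i u, a i u = 0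

theorem Good.chain {V E : Type} [Fintype V] {tl hd : E → V} {f : V → ℕ} {k : ℕ}
    {r : Fin k → V} {U : Fin k → Set V} {s : Finset V} {h : Fin k → V → ℝ} {π : Fin k → V → E}
    (hG : Good tl hd r U s h π)
    (hf : ∀ a, f (tl a) < f (hd a))
    (hreach : ∀ i u, u ∈ U i → ReflTransGen (Arc tl hd) (r i) u)
    (hconv : ∀ i a w b, a ∈ U i → b ∈ U i → ReflTransGen (Arc tl hd) a w →
      ReflTransGen (Arc tl hd) w b → w ∈ U i)
    (hs : ∀ a, hd a ∈ s → tl a ∈ s)
    (i j : Fin k) (hij : r i ≠ r j) (hrj : r j ∈ U i) :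
    ∀ n w, f w = n → w ∈ s → w ∈ U i → w ∈ U j → w ≠ r j →
      h j w - h i w < h j (r j) - h i (r j) := by
  intro n
  induction n using Nat.strong_induction_on with
  | _ n ih =>
    intro w hw hws hwi hwj hwr
    have hne : i ≠ j := fun h => hij (by rw [h])
    have e1 := hG.hd_eq w hws j hwj hwr
    have e2 := hG.tl_mem w hws j hwj hwr
    have e3 : f (tl (π j w)) < f w := by
      have := hf (π j w)
      rwa [e1] at this
    have e4 : tl (π j w) ∈ s := hs _ (by rw [e1]; exact hws)
    have e5 : tl (π j w) ∈ U i := hconv i (r j) _ w hrj hwi (hreach j _ e2)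
      (ReflTransGen.single ⟨π j w, rfl, e1⟩)
    have e6 := hG.pot w hws i j hne hwi hwj hwr e5 (fun hh => hij hh.2)
    by_cases e7 : tl (π j w) = r j
    · rw [e7] at e6
      exact e6
    · exact e6.trans (ih _ (hw ▸ e3) _ rfl e4 e5 e2 e7)

theorem sum_dite_sub {I : Type} [Fintype I] (P : I → Prop) [DecidablePred P]
    (F : {i // P i} → ℝ) :
    ∑ i, (if hi : P i then F ⟨i, hi⟩ else 0) = ∑ i : {i // P i}, F i := by
  have h1 : ∑ i, (if hi : P i then F ⟨i, hi⟩ else 0) =
      ∑ i ∈ Finset.univ.filter P, (if hi : P i then F ⟨i, hi⟩ else 0) := by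
    symm
    apply Finset.sum_subset (Finset.filter_subset _ _)
    intro i _ hi
    rw [dif_neg]
    simpa using hi
  rw [h1, Finset.sum_subtype (Finset.univ.filter P) (p := P) (by simp)]
  refine Finset.sum_congr rfl fun i _ => ?_
  rw [dif_pos i.2]

theorem Good.gen_eq {V E : Type} [Fintype V] [DecidableEq V] {tl hd : E → V} {k : ℕ}
    {r : Fin k → V} {U : Fin k → Set V} {s : Finset V} {h : Fin k → V → ℝ} {π : Fin k → V → E}
    (hG : Good tl hd r U s h π) (P : Fin k → Prop) [DecidablePred P]
    (p q : {i // P i} → V) (hp : ∀ i, p i ∈ s) (hq : ∀ i, q i ∈ s)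
    (heq : ∑ i, h i.1 (p i) = ∑ i, h i.1 (q i)) : ∀ i, p i = q i := by
  let a : Fin k → V → ℚ := fun i w =>
    if hi : P i then (if w = p ⟨i, hi⟩ then 1 else 0) - (if w = q ⟨i, hi⟩ then 1 else 0) else 0
  have h1 : ∀ i, ∀ u, u ∉ s → a i u = 0 := by
    intro i u hu
    simp only [a]
    split_ifs with h1 h2 h3 h3
    · simp
    · exact absurd (h2 ▸ hp _) hu
    · exact absurd (h3 ▸ hq _) hu
    · simp
    · rfl
  have h2 : ∑ i, ∑ u, ((a i u : ℚ) : ℝ) * h i u = 0 := by
    have h3 : ∀ i, ∑ u, ((a i u : ℚ) : ℝ) * h i u =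
        if hi : P i then h i (p ⟨i, hi⟩) - h i (q ⟨i, hi⟩) else 0 := by
      intro i
      by_cases hi : P i
      · simp only [a, dif_pos hi, Rat.cast_sub, sub_mul, Finset.sum_sub_distrib]
        have h4 : ∀ x : V, ∑ u, (((if u = x then (1 : ℚ) else 0 : ℚ)) : ℝ) * h i u = h i x := by
          intro x
          rw [Finset.sum_eq_single x]
          · simp
          · intro b _ hb
            simp [hb]
          · simp
        rw [h4, h4]
      · simp [a, dif_neg hi]
    simp only [h3]
    rw [sum_dite_sub P (fun i => h i.1 (p i) - h i.1 (q i))]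
    rw [Finset.sum_sub_distrib]
    linarith
  have h3 := hG.gen a h1 h2
  intro i
  have h4 := h3 i.1 (p i)
  simp only [a, dif_pos i.2] at h4
  by_contra hne
  rw [if_neg hne] at h4
  norm_num at h4


theorem reach_le {V E : Type} {tl hd : E → V} {f : V → ℕ} (hf : ∀ a, f (tl a) < f (hd a))
    {u w : V} (h : ReflTransGen (Arc tl hd) u w) : f u ≤ f w := by
  induction h with
  | refl => exact le_refl _
  | tail _ h ih =>
    obtain ⟨a, rfl, rfl⟩ := h
    exact ih.trans (hf a).le

/-- The labels that need an arc entering the node `v`. -/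
abbrev Jt {V : Type} {k : ℕ} (r : Fin k → V) (U : Fin k → Set V) (v : V) : Type :=
  {j : Fin k // v ∈ U j ∧ v ≠ r j}

/-- The assignment chosen at a new node. -/
theorem exists_assignment {V E : Type} [Fintype V] [DecidableEq V] {tl hd : E → V}
    {f : V → ℕ} {k : ℕ} {r : Fin k → V} {U : Fin k → Set V} {s : Finset V}
    {h : Fin k → V → ℝ} {π : Fin k → V → E}
    (hG : Good tl hd r U s h π)
    (hf : ∀ a, f (tl a) < f (hd a))
    (hroot : ∀ i, r i ∈ U i)
    (hreach : ∀ i u, u ∈ U i → ReflTransGen (Arc tl hd) (r i) u)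
    (hconv : ∀ i a w b, a ∈ U i → b ∈ U i → ReflTransGen (Arc tl hd) a w →
      ReflTransGen (Arc tl hd) w b → w ∈ U i)
    (hs : ∀ a, hd a ∈ s → tl a ∈ s) (v : V) (hvs : ∀ a, hd a = v → tl a ∈ s)
    (tok : Jt r U v → E)
    (ht1 : ∀ j, hd (tok j) = v) (ht2 : ∀ j, tl (tok j) ∈ U j.1)
    (hP2 : ∀ i j, i ≠ j → tl (tok i) = tl (tok j) → tl (tok i) = r i.1 ∧ r i.1 = r j.1)
    (hP3 : ∀ i j, i ≠ j → tl (tok j) = r i.1 → r j.1 = r i.1) :
    ∃ σ : Equiv.Perm (Jt r U v),
      (∀ i, tl (tok (σ i)) ∈ U i.1) ∧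
      ∃ x : Jt r U v → ℝ, ∀ i j, i ≠ j → tl (tok (σ j)) ∈ U i.1 →
        ¬ (tl (tok (σ j)) = r i.1 ∧ r i.1 = r j.1) →
        x j - x i < h j.1 (tl (tok (σ j))) - h i.1 (tl (tok (σ j))) := by
  classical
  let u : Jt r U v → V := fun j => tl (tok j)
  let W : Equiv.Perm (Jt r U v) → ℝ := fun σ => ∑ i : Jt r U v, h i.1 (u (σ i))
  let Adm : Finset (Equiv.Perm (Jt r U v)) := Finset.univ.filter (fun σ => ∀ i : Jt r U v, u (σ i) ∈ U i.1)
  obtain ⟨σ, hσA, hmax⟩ := Adm.exists_max_image W
    ⟨1, by simp only [Adm, Finset.mem_filter, Finset.mem_univ, true_and]; exact ht2⟩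
  have hσ : ∀ i : Jt r U v, u (σ i) ∈ U i.1 := by
    simpa only [Adm, Finset.mem_filter, Finset.mem_univ, true_and] using hσA
  have hmax' : ∀ σ' : Equiv.Perm (Jt r U v), (∀ i : Jt r U v, u (σ' i) ∈ U i.1) → W σ' ≤ W σ := by
    intro σ' h'
    exact hmax σ' (by simp only [Adm, Finset.mem_filter, Finset.mem_univ, true_and]; exact h')
  have hus : ∀ j : Jt r U v, u j ∈ s := fun j => hvs _ (ht1 j)
  -- a label is matched with the root of another label only if the two roots agree
  have Q1 : ∀ i0 j0 : Jt r U v, u (σ i0) = r j0.1 → r i0.1 = r j0.1 := by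
    intro i0 j0 h0
    by_contra hne
    set ρ := r j0.1 with hρ
    let T : Finset (Jt r U v) := Finset.univ.filter (fun t => u t = ρ)
    let Rt : Finset (Jt r U v) := Finset.univ.filter (fun t => r t.1 = ρ)
    have hTR : T ⊆ Rt := by
      intro t ht
      simp only [T, Rt, Finset.mem_filter, Finset.mem_univ, true_and] at ht ⊢
      by_cases htj : t = j0
      · rw [htj]
      · exact hP3 j0 t (Ne.symm htj) ht
    let T' : Finset (Jt r U v) := Finset.univ.filter (fun t => u (σ t) = ρ)
    have hcard : T'.card = T.card := by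
      apply Finset.card_bij (fun t _ => σ t)
      · intro t ht
        simpa [T, T'] using ht
      · intro a _ b _ hab
        exact σ.injective hab
      · intro b hb
        refine ⟨σ.symm b, ?_, by simp⟩
        simpa [T, T'] using hb
    obtain ⟨j', hj'R, hj'T⟩ : ∃ j' ∈ Rt, j' ∉ T' := by
      by_contra hcon
      push Not at hcon
      have h1 : Rt ⊂ T' := by
        rw [Finset.ssubset_iff_of_subset hcon]
        refine ⟨i0, ?_, ?_⟩
        · simpa [T'] using h0
        · simpa [Rt] using hne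
      have h2 := Finset.card_lt_card h1
      have h3 := Finset.card_le_card hTR
      omega
    simp only [Rt, T', Finset.mem_filter, Finset.mem_univ, true_and] at hj'R hj'T
    set w := u (σ j') with hw
    have hwU : w ∈ U j'.1 := hσ j'
    have hρi : r j'.1 ∈ U i0.1 := by rw [hj'R, ← h0]; exact hσ i0
    have hwi : w ∈ U i0.1 := hconv i0.1 (r j'.1) w v hρi i0.2.1 (hreach _ _ hwU)
      (ReflTransGen.single ⟨tok (σ j'), rfl, ht1 _⟩)
    have hrr : r i0.1 ≠ r j'.1 := by rw [hj'R]; exact hne
    have hchain := hG.chain hf hreach hconv hs i0.1 j'.1 hrr hρi (f w) w rfl (hus _) hwi hwU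
      (by rw [hj'R]; exact hj'T)
    have hij' : i0 ≠ j' := by
      rintro rfl
      exact hrr rfl
    let σ' : Equiv.Perm (Jt r U v) := (Equiv.swap i0 j').trans σ
    have e1 : σ' i0 = σ j' := by simp [σ']
    have e2 : σ' j' = σ i0 := by simp [σ']
    have e3 : ∀ t, t ≠ i0 → t ≠ j' → σ' t = σ t := by
      intro t h1 h2
      simp [σ', Equiv.swap_apply_of_ne_of_ne h1 h2]
    have hadm : ∀ i : Jt r U v, u (σ' i) ∈ U i.1 := by
      intro i
      by_cases h1 : i = i0
      · rw [h1, e1]; exact hwi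
      · by_cases h2 : i = j'
        · rw [h2, e2, h0, ← hj'R]
          exact hroot _
        · rw [e3 i h1 h2]; exact hσ i
    have hle := hmax' σ' hadm
    have hdiff : W σ' - W σ = (h i0.1 w - h i0.1 ρ) + (h j'.1 ρ - h j'.1 w) := by
      simp only [W]
      rw [← Finset.sum_sub_distrib, Fintype.sum_eq_add i0 j' hij']
      · rw [e1, e2, h0, ← hw]
      · rintro t ⟨h1, h2⟩
        rw [e3 t h1 h2, sub_self]
    rw [hj'R] at hchain
    linarith
  have Q2 : ∀ i j : Jt r U v, i ≠ j → u (σ i) = u (σ j) → u (σ j) = r i.1 ∧ r i.1 = r j.1 := by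
    intro i j hij heq
    have h1 := hP2 (σ i) (σ j) (fun h => hij (σ.injective h)) heq
    have h2 : r i.1 = r (σ i).1 := Q1 i (σ i) h1.1
    have h3 : r j.1 = r (σ i).1 := Q1 j (σ i) (heq ▸ h1.1)
    refine ⟨?_, h2.trans h3.symm⟩
    rw [← heq, h2]
    exact h1.1
  refine ⟨σ, hσ, ?_⟩
  obtain ⟨x, hx⟩ := exists_potential
    (fun i j : Jt r U v => i ≠ j ∧ u (σ j) ∈ U i.1 ∧ ¬ (u (σ j) = r i.1 ∧ r i.1 = r j.1))
    (fun i j => h j.1 (u (σ j)) - h i.1 (u (σ j))) (fun i hi => hi.1 rfl) (by
      intro τ hτ hR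
      have hadm : ∀ i : Jt r U v, u ((τ.trans σ) i) ∈ U i.1 := by
        intro i
        by_cases h1 : τ i = i
        · simp only [Equiv.trans_apply, h1]; exact hσ i
        · exact (hR i h1).2.1
      have hle := hmax' _ hadm
      have hsum : (∑ i : Jt r U v, if τ i = i then 0 else
          (h (τ i).1 (u (σ (τ i))) - h i.1 (u (σ (τ i))))) = W σ - W (τ.trans σ) := by
        simp only [W]
        rw [← Equiv.sum_comp τ (fun i => h i.1 (u (σ i))), ← Finset.sum_sub_distrib]
        refine Finset.sum_congr rfl fun i _ => ?_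
        by_cases h1 : τ i = i
        · simp [h1]
        · rw [if_neg h1]
          rfl
      rw [hsum]
      rcases (sub_nonneg.2 hle).lt_or_eq with h1 | h1
      · exact h1
      · exfalso
        have h2 := hG.gen_eq (fun j => v ∈ U j ∧ v ≠ r j) (fun i => u (σ i))
          (fun i => u ((τ.trans σ) i)) (fun i => hus _) (fun i => hus _) (by
            have : W σ = W (τ.trans σ) := by linarith
            exact this)
        obtain ⟨i, hi⟩ : ∃ i, τ i ≠ i := by
          by_contra hcon
          push Not at hcon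
          exact hτ (Equiv.ext hcon)
        have h3 := h2 i
        exact (hR i hi).2.2 (Q2 i (τ i) (Ne.symm hi) h3))
  exact ⟨x, fun i j hij h1 h2 => hx i j ⟨hij, h1, h2⟩⟩


theorem good_step {V E : Type} [Fintype V] [DecidableEq V] [Nonempty E] {tl hd : E → V}
    {f : V → ℕ} {k : ℕ} {r : Fin k → V} {U : Fin k → Set V} {s : Finset V}
    {h : Fin k → V → ℝ} {π : Fin k → V → E}
    (hG : Good tl hd r U s h π)
    (hf : ∀ a, f (tl a) < f (hd a))
    (hroot : ∀ i, r i ∈ U i)
    (hreach : ∀ i u, u ∈ U i → ReflTransGen (Arc tl hd) (r i) u)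
    (hconv : ∀ i a w b, a ∈ U i → b ∈ U i → ReflTransGen (Arc tl hd) a w →
      ReflTransGen (Arc tl hd) w b → w ∈ U i)
    (hs : ∀ a, hd a ∈ s → tl a ∈ s) (v : V) (hv : v ∉ s) (hvs : ∀ a, hd a = v → tl a ∈ s)
    (htok : ∃ tok : Jt r U v → E, (∀ j, hd (tok j) = v) ∧ (∀ j, tl (tok j) ∈ U j.1) ∧
      Function.Injective tok ∧
      (∀ i j, i ≠ j → tl (tok i) = tl (tok j) → tl (tok i) = r i.1 ∧ r i.1 = r j.1) ∧
      (∀ i j, i ≠ j → tl (tok j) = r i.1 → r j.1 = r i.1)) :
    ∃ h' π', Good tl hd r U (insert v s) h' π' := by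
  classical
  obtain ⟨tok, ht1, ht2, ht3, hP2, hP3⟩ := htok
  obtain ⟨σ, hσ, x0, hx0⟩ := exists_assignment hG hf hroot hreach hconv hs v hvs tok ht1 ht2
    hP2 hP3
  let O : Set (Fin k → ℝ) := {x | ∀ i j : Jt r U v, i ≠ j → tl (tok (σ j)) ∈ U i.1 →
        ¬ (tl (tok (σ j)) = r i.1 ∧ r i.1 = r j.1) →
        x j.1 - x i.1 < h j.1 (tl (tok (σ j))) - h i.1 (tl (tok (σ j)))}
  have hO : IsOpen O := by
    have : O = ⋂ i : Jt r U v, ⋂ j : Jt r U v, ⋂ (_ : i ≠ j), ⋂ (_ : tl (tok (σ j)) ∈ U i.1),
        ⋂ (_ : ¬ (tl (tok (σ j)) = r i.1 ∧ r i.1 = r j.1)), {x : Fin k → ℝ |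
          x j.1 - x i.1 < h j.1 (tl (tok (σ j))) - h i.1 (tl (tok (σ j)))} := by
      ext x
      simp only [Set.mem_iInter]
      rfl
    rw [this]
    refine isOpen_iInter_of_finite fun i => isOpen_iInter_of_finite fun j =>
      isOpen_iInter_of_finite fun _ => isOpen_iInter_of_finite fun _ =>
      isOpen_iInter_of_finite fun _ => ?_
    exact isOpen_lt (by fun_prop) continuous_const
  have hOne : O.Nonempty := by
    refine ⟨fun i => if hi : v ∈ U i ∧ v ≠ r i then x0 ⟨i, hi⟩ else 0, ?_⟩
    intro i j hij h1 h2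
    simp only [dif_pos i.2, dif_pos j.2]
    exact hx0 i j hij h1 h2
  let W : Set ℝ := Set.range (fun a : Fin k → V → ℚ => ∑ i, ∑ u, ((a i u : ℚ) : ℝ) * h i u)
  have hW : W.Countable := Set.countable_range _
  obtain ⟨x, hxO, hx⟩ := exists_generic k O hO hOne W hW
  let h' : Fin k → V → ℝ := fun i w => if w = v then x i else h i w
  let π' : Fin k → V → E := fun i w => if w = v then
    (if hi : v ∈ U i ∧ v ≠ r i then tok (σ ⟨i, hi⟩) else Classical.arbitrary E) else π i w
  have hne : ∀ w ∈ s, w ≠ v := fun w hw hwv => hv (hwv ▸ hw)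
  have hh' : ∀ i w, w ≠ v → h' i w = h i w := fun i w hw => by simp [h', hw]
  have hhv : ∀ i, h' i v = x i := fun i => by simp [h']
  have hπ' : ∀ i w, w ≠ v → π' i w = π i w := fun i w hw => by simp [π', hw]
  have hπv : ∀ i (hi : v ∈ U i ∧ v ≠ r i), π' i v = tok (σ ⟨i, hi⟩) := fun i hi => by
    simp [π', hi]
  refine ⟨h', π', ?_, ?_, ?_, ?_, ?_⟩
  · intro w hw i hwi hwr
    rcases Finset.mem_insert.1 hw with rfl | hws
    · rw [hπv i ⟨hwi, hwr⟩]; exact ht1 _
    · rw [hπ' i w (hne w hws)]; exact hG.hd_eq w hws i hwi hwr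
  · intro w hw i hwi hwr
    rcases Finset.mem_insert.1 hw with rfl | hws
    · rw [hπv i ⟨hwi, hwr⟩]; exact hσ ⟨i, hwi, hwr⟩
    · rw [hπ' i w (hne w hws)]; exact hG.tl_mem w hws i hwi hwr
  · intro w hw i j hij hwi hwj hri hrj
    rcases Finset.mem_insert.1 hw with rfl | hws
    · rw [hπv i ⟨hwi, hri⟩, hπv j ⟨hwj, hrj⟩]
      intro heq
      have h1 := σ.injective (ht3 heq)
      simp only [Subtype.mk.injEq] at h1
      exact hij h1
    · rw [hπ' i w (hne w hws), hπ' j w (hne w hws)]
      exact hG.ne w hws i j hij hwi hwj hri hrj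
  · intro w hw i j hij hwi hwj hrj htl hnot
    rcases Finset.mem_insert.1 hw with rfl | hws
    · rw [hπv j ⟨hwj, hrj⟩] at htl hnot ⊢
      have htls : tl (tok (σ ⟨j, hwj, hrj⟩)) ∈ s := hvs _ (ht1 _)
      rw [hhv, hhv, hh' _ _ (hne _ htls), hh' _ _ (hne _ htls)]
      have hri : w ≠ r i := by
        intro hwr
        have h1 := reach_le hf (hreach i _ htl)
        have h2 := hf (tok (σ ⟨j, hwj, hrj⟩))
        rw [ht1] at h2
        rw [← hwr] at h1
        omega
      exact hxO ⟨i, hwi, hri⟩ ⟨j, hwj, hrj⟩ (by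
        intro h1
        simp only [Subtype.mk.injEq] at h1
        exact hij h1) htl hnot
    · rw [hπ' j w (hne w hws)] at htl hnot ⊢
      have hhd := hG.hd_eq w hws j hwj hrj
      have htls : tl (π j w) ∈ s := hs _ (by rw [hhd]; exact hws)
      rw [hh' _ _ (hne w hws), hh' _ _ (hne w hws), hh' _ _ (hne _ htls), hh' _ _ (hne _ htls)]
      exact hG.pot w hws i j hij hwi hwj hrj htl hnot
  · intro a ha hsum
    let a' : Fin k → V → ℚ := fun i w => if w = v then 0 else a i w
    have hsplit : ∀ i, ∑ w, ((a i w : ℚ) : ℝ) * h' i w =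
        ((a i v : ℚ) : ℝ) * x i + ∑ w, ((a' i w : ℚ) : ℝ) * h i w := by
      intro i
      rw [← Finset.add_sum_erase _ _ (Finset.mem_univ v), hhv]
      congr 1
      rw [← Finset.add_sum_erase Finset.univ (fun w => ((a' i w : ℚ) : ℝ) * h i w)
        (Finset.mem_univ v)]
      simp only [a', if_true, Rat.cast_zero, zero_mul, zero_add]
      refine Finset.sum_congr rfl fun w hw => ?_
      have hwv := (Finset.mem_erase.1 hw).1
      rw [hh' i w hwv, if_neg hwv]
    simp only [hsplit, Finset.sum_add_distrib] at hsum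
    have hav : (fun i => a i v) = 0 := by
      by_contra hne0
      refine hx (fun i => a i v) hne0 (∑ i, ∑ u, (((-a' i u : ℚ)) : ℝ) * h i u)
        ⟨fun i u => -a' i u, rfl⟩ ?_
      simp only [Rat.cast_neg, neg_mul, Finset.sum_neg_distrib]
      linarith
    have hav' : ∀ i, a i v = 0 := fun i => congrFun hav i
    simp only [hav', Rat.cast_zero, zero_mul, Finset.sum_const_zero, zero_add] at hsum
    have h0 := hG.gen a' (by
      intro i u hu
      simp only [a']
      split_ifs with h1
      · rfl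
      · exact ha i u (by simp [h1, hu])) hsum
    intro i u
    by_cases h1 : u = v
    · rw [h1]; exact hav' i
    · have := h0 i u
      simp only [a', if_neg h1] at this
      exact this

theorem exists_good {V E : Type} [Fintype V] [DecidableEq V] [Nonempty E] {tl hd : E → V}
    {f : V → ℕ} {k : ℕ} {r : Fin k → V} {U : Fin k → Set V}
    (hf : ∀ a, f (tl a) < f (hd a))
    (hroot : ∀ i, r i ∈ U i)
    (hreach : ∀ i u, u ∈ U i → ReflTransGen (Arc tl hd) (r i) u)
    (hconv : ∀ i a w b, a ∈ U i → b ∈ U i → ReflTransGen (Arc tl hd) a w →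
      ReflTransGen (Arc tl hd) w b → w ∈ U i)
    (htok : ∀ v, ∃ tok : Jt r U v → E, (∀ j, hd (tok j) = v) ∧ (∀ j, tl (tok j) ∈ U j.1) ∧
      Function.Injective tok ∧
      (∀ i j, i ≠ j → tl (tok i) = tl (tok j) → tl (tok i) = r i.1 ∧ r i.1 = r j.1) ∧
      (∀ i j, i ≠ j → tl (tok j) = r i.1 → r j.1 = r i.1)) :
    ∃ h π, Good tl hd r U Finset.univ h π := by
  have key : ∀ s : Finset V, (∀ a, hd a ∈ s → tl a ∈ s) → ∃ h π, Good tl hd r U s h π := by
    intro s
    induction s using Finset.induction_on_max_value f with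
    | empty =>
      intro _
      refine ⟨fun _ _ => 0, fun _ _ => Classical.arbitrary E, ?_, ?_, ?_, ?_, ?_⟩
      · intro v hv; simp at hv
      · intro v hv; simp at hv
      · intro v hv; simp at hv
      · intro v hv; simp at hv
      · intro a ha _ i u
        exact ha i u (by simp)
    | insert v s hv hmax ih =>
      intro hdown
      have hs : ∀ a, hd a ∈ s → tl a ∈ s := by
        intro a ha
        rcases Finset.mem_insert.1 (hdown a (Finset.mem_insert_of_mem ha)) with h1 | h1
        · exfalso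
          have h2 := hf a
          have h3 := hmax _ ha
          rw [h1] at h2
          omega
        · exact h1
      have hvs : ∀ a, hd a = v → tl a ∈ s := by
        intro a ha
        rcases Finset.mem_insert.1 (hdown a (by rw [ha]; exact Finset.mem_insert_self _ _)) with
          h1 | h1
        · exfalso
          have h2 := hf a
          rw [h1, ha] at h2
          exact lt_irrefl _ h2
        · exact h1
      obtain ⟨h, π, hG⟩ := ih hs
      exact good_step hG hf hroot hreach hconv hs v hv hvs (htok v)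
  exact key Finset.univ (fun a _ => Finset.mem_univ _)


/-- There is a path from `a` to `b` all of whose arcs satisfy `Q`. -/
def PathP {V E : Type} (tl hd : E → V) (Q : E → Prop) (a b : V) : Prop :=
  ∃ (n : ℕ) (x : Fin (n+1) → V) (e : Fin n → E),
    x 0 = a ∧ x (Fin.last n) = b ∧
      ∀ m : Fin n, Q (e m) ∧ tl (e m) = x m.castSucc ∧ hd (e m) = x m.succ

theorem PathP.refl {V E : Type} (tl hd : E → V) (Q : E → Prop) (a : V) :
    PathP tl hd Q a a :=
  ⟨0, fun _ => a, fun m => m.elim0, rfl, rfl, fun m => m.elim0⟩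

theorem PathP.snoc {V E : Type} {tl hd : E → V} {Q : E → Prop} {a b : V} {c : E}
    (h : PathP tl hd Q a (tl c)) (hQ : Q c) (hb : hd c = b) : PathP tl hd Q a b := by
  obtain ⟨n, x, e, h0, h1, h2⟩ := h
  refine ⟨n + 1, Fin.snoc (α := fun _ => V) x b, Fin.snoc (α := fun _ => E) e c, ?_, ?_, ?_⟩
  · have : (0 : Fin (n + 1 + 1)) = (0 : Fin (n + 1)).castSucc := rfl
    rw [this, Fin.snoc_castSucc]
    exact h0
  · rw [Fin.snoc_last]
  · intro m
    refine Fin.lastCases ?_ (fun m => ?_) m
    · refine ⟨?_, ?_, ?_⟩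
      · rw [Fin.snoc_last]; exact hQ
      · rw [Fin.snoc_last, Fin.snoc_castSucc]; exact h1.symm
      · rw [Fin.snoc_last, Fin.succ_last, Fin.snoc_last]; exact hb
    · obtain ⟨h3, h4, h5⟩ := h2 m
      refine ⟨?_, ?_, ?_⟩
      · rw [Fin.snoc_castSucc]; exact h3
      · rw [Fin.snoc_castSucc, Fin.snoc_castSucc]; exact h4
      · rw [Fin.snoc_castSucc, Fin.succ_castSucc, Fin.snoc_castSucc]; exact h5

theorem path_through {V E : Type} {tl hd : E → V} {a w b : V}
    (h1 : ReflTransGen (Arc tl hd) a w) (h2 : ReflTransGen (Arc tl hd) w b) :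
    ∃ (n : ℕ) (x : Fin (n+1) → V) (e : Fin n → E),
      (∀ m : Fin n, tl (e m) = x m.castSucc ∧ hd (e m) = x m.succ) ∧
      x 0 = a ∧ x (Fin.last n) = b ∧ ∃ m, x m = w := by
  have base : ∀ w, ReflTransGen (Arc tl hd) a w → PathP tl hd (fun _ => True) a w := by
    intro w h
    induction h with
    | refl => exact PathP.refl _ _ _ _
    | tail _ h ih =>
      obtain ⟨c, rfl, rfl⟩ := h
      exact ih.snoc trivial rfl
  induction h2 with
  | refl =>
    obtain ⟨n, x, e, h3, h4, h5⟩ := base _ h1
    exact ⟨n, x, e, fun m => (h5 m).2, h3, h4, Fin.last n, h4⟩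
  | tail _ h ih =>
    obtain ⟨n, x, e, h3, h4, h5, m0, h6⟩ := ih
    obtain ⟨c, hc1, hc2⟩ := h
    rename_i b' c' _
    refine ⟨n + 1, Fin.snoc (α := fun _ => V) x c', Fin.snoc (α := fun _ => E) e c,
      ?_, ?_, ?_, m0.castSucc, ?_⟩
    · intro m
      refine Fin.lastCases ?_ (fun m => ?_) m
      · refine ⟨?_, ?_⟩
        · rw [Fin.snoc_last, Fin.snoc_castSucc, h5]; exact hc1
        · rw [Fin.snoc_last, Fin.succ_last, Fin.snoc_last]; exact hc2
      · obtain ⟨h7, h8⟩ := h3 m
        refine ⟨?_, ?_⟩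
        · rw [Fin.snoc_castSucc, Fin.snoc_castSucc]; exact h7
        · rw [Fin.snoc_castSucc, Fin.succ_castSucc, Fin.snoc_castSucc]; exact h8
    · have : (0 : Fin (n + 1 + 1)) = (0 : Fin (n + 1)).castSucc := rfl
      rw [this, Fin.snoc_castSucc]
      exact h4
    · rw [Fin.snoc_last]
    · rw [Fin.snoc_castSucc]; exact h6

theorem reach_of_path {V E : Type} {tl hd : E → V} {n : ℕ} {x : Fin (n+1) → V} {e : Fin n → E}
    (h : ∀ m : Fin n, tl (e m) = x m.castSucc ∧ hd (e m) = x m.succ) :
    ∀ (d : ℕ) (a b : Fin (n+1)), b.val = a.val + d → ReflTransGen (Arc tl hd) (x a) (x b) := by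
  intro d
  induction d with
  | zero =>
    intro a b hab
    have : a = b := Fin.ext (by omega)
    rw [this]
  | succ d ih =>
    intro a b hab
    have hlt : a.val + d < n := by omega
    have h1 := ih a ⟨a.val + d, by omega⟩ rfl
    have h2 := h ⟨a.val + d, hlt⟩
    have h3 : (⟨a.val + d, hlt⟩ : Fin n).succ = b := Fin.ext (by simp only [Fin.succ_mk]; omega)
    rw [h3] at h2
    exact h1.tail ⟨_, h2.1, h2.2⟩

/-- Along a path of the `i`-th arborescence, the potential difference decreases. -/
theorem descend {V E : Type} [Fintype V] {tl hd : E → V}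
    {f : V → ℕ} {k : ℕ} {r : Fin k → V} {U : Fin k → Set V}
    {h : Fin k → V → ℝ} {π : Fin k → V → E}
    (hG : Good tl hd r U Finset.univ h π)
    (hf : ∀ a, f (tl a) < f (hd a))
    (hroot : ∀ i, r i ∈ U i)
    (hconv : ∀ i a w b, a ∈ U i → b ∈ U i → ReflTransGen (Arc tl hd) a w →
      ReflTransGen (Arc tl hd) w b → w ∈ U i)
    {i j : Fin k} (hij : i ≠ j) {n : ℕ} {x : Fin (n+1) → V} {e : Fin n → E}
    (h0 : x 0 = r i)
    (hp : ∀ m : Fin n, (hd (e m) ∈ U i ∧ hd (e m) ≠ r i ∧ e m = π i (hd (e m))) ∧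
      tl (e m) = x m.castSucc ∧ hd (e m) = x m.succ)
    (hvj : x (Fin.last n) ∈ U j) (a : Fin (n+1)) (ha : x a ∈ U j) (hav : x a ≠ x (Fin.last n))
    (hnot : ¬ (x a = r i ∧ r i = r j)) :
    h i (x (Fin.last n)) - h j (x (Fin.last n)) < h i (x a) - h j (x a) := by
  have hpath : ∀ m : Fin n, tl (e m) = x m.castSucc ∧ hd (e m) = x m.succ := fun m => (hp m).2
  have hi : ∀ m : Fin (n+1), x m ∈ U i := by
    intro m
    refine Fin.cases ?_ (fun m => ?_) m
    · rw [h0]; exact hroot i
    · rw [← (hp m).2.2]; exact (hp m).1.1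
  have hstep : ∀ m : Fin n, a.val ≤ m.val →
      h i (x m.succ) - h j (x m.succ) < h i (x m.castSucc) - h j (x m.castSucc) := by
    intro m hm
    obtain ⟨⟨h1, h2, h3⟩, h4, h5⟩ := hp m
    rw [h5] at h1 h2 h3
    have h6 : tl (π i (x m.succ)) = x m.castSucc := by rw [← h3]; exact h4
    have r1 : ReflTransGen (Arc tl hd) (x a) (x m.castSucc) :=
      reach_of_path hpath (m.val - a.val) _ _ (by simp only [Fin.val_castSucc]; omega)
    have r2 : ReflTransGen (Arc tl hd) (x m.castSucc) (x m.succ) :=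
      reach_of_path hpath 1 _ _ (by simp)
    have r3 : ReflTransGen (Arc tl hd) (x m.succ) (x (Fin.last n)) :=
      reach_of_path hpath (n - (m.val + 1)) _ _ (by
        simp only [Fin.val_last, Fin.val_succ]; omega)
    have m1 : x m.castSucc ∈ U j := hconv j _ _ _ ha hvj r1 (r2.trans r3)
    have m2 : x m.succ ∈ U j := hconv j _ _ _ ha hvj (r1.trans r2) r3
    have h7 := hG.pot (x m.succ) (Finset.mem_univ _) j i (Ne.symm hij) m2 h1 h2
      (by rw [h6]; exact m1) (by
        rw [h6]
        rintro ⟨h8, h9⟩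
        -- then `x m.castSucc` is the root, so `m = 0` and `a = 0`
        have h10 : m.val = 0 := by
          by_contra hm0
          have r4 : ReflTransGen (Arc tl hd) (x 1) (x m.castSucc) := by
            have : n ≠ 0 := by
              rintro rfl
              exact m.elim0
            refine reach_of_path hpath (m.val - 1) _ _ ?_
            have h1v : ((1 : Fin (n+1)) : ℕ) = 1 := by
              rw [Fin.val_one']
              exact Nat.mod_eq_of_lt (by omega)
            simp only [Fin.val_castSucc, h1v]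
            omega
          have hn : 0 < n := lt_of_le_of_lt (Nat.zero_le _) m.isLt
          have h11 := hp ⟨0, hn⟩
          have h12 : (⟨0, hn⟩ : Fin n).succ = (1 : Fin (n+1)) := by
            apply Fin.ext
            rw [Fin.val_one']
            simp only [Fin.succ_mk]
            exact (Nat.mod_eq_of_lt (by omega)).symm
          have h13 : (⟨0, hn⟩ : Fin n).castSucc = (0 : Fin (n+1)) := rfl
          have h14 := hf (e ⟨0, hn⟩)
          rw [h11.2.1, h11.2.2, h12, h13, h0] at h14
          have h15 := reach_le hf r4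
          rw [h8, h9] at h15
          omega
        have h16 : a = 0 := Fin.ext (by simp only [Fin.val_zero]; omega)
        apply hnot
        rw [h16]
        exact ⟨h0, h9.symm⟩)
    rw [h6] at h7
    exact h7
  have key : ∀ (d : ℕ) (m : Fin (n+1)), m.val = a.val + d →
      h i (x m) - h j (x m) ≤ h i (x a) - h j (x a) ∧
      (0 < d → h i (x m) - h j (x m) < h i (x a) - h j (x a)) := by
    intro d
    induction d with
    | zero =>
      intro m hm
      have : m = a := Fin.ext (by omega)
      rw [this]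
      exact ⟨le_refl _, fun h => absurd h (lt_irrefl _)⟩
    | succ d ih =>
      intro m hm
      have hlt : a.val + d < n := by omega
      have h1 := (ih ⟨a.val + d, by omega⟩ rfl).1
      have h2 := hstep ⟨a.val + d, hlt⟩ (by simp only []; omega)
      have h3 : (⟨a.val + d, hlt⟩ : Fin n).succ = m := Fin.ext (by
        simp only [Fin.succ_mk]; omega)
      rw [h3] at h2
      have h4 : (⟨a.val + d, hlt⟩ : Fin n).castSucc = ⟨a.val + d, by omega⟩ := rfl
      rw [h4] at h2
      exact ⟨(h2.trans_le h1).le, fun _ => h2.trans_le h1⟩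
  have hane : a.val ≠ n := by
    intro h1
    apply hav
    rw [show a = Fin.last n from Fin.ext h1]
  exact (key (n - a.val) (Fin.last n) (by simp only [Fin.val_last]; omega)).2 (by omega)


/-- In a finite acyclic multi-digraph with roots r_i in convex sets U_i, independent r_i-arborescences spanning U_i exist iff each node v has pairwise openly node-disjoint r_i–v paths for all i with v in U_i. -/
theorem result :
  ∀ (V E : Type) [Fintype V] [Fintype E] (tl hd : E → V),
    (∃ f : V → ℕ, ∀ a : E, f (tl a) < f (hd a)) →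
    ∀ (k : ℕ) (r : Fin k → V) (U : Fin k → Set V),
      (∀ i, r i ∈ U i) →
      (∀ i, ∀ (n : ℕ) (x : Fin (n+1) → V) (e : Fin n → E),
          (∀ m : Fin n, tl (e m) = x m.castSucc ∧ hd (e m) = x m.succ) →
          x 0 ∈ U i → x (Fin.last n) ∈ U i → ∀ m, x m ∈ U i) →
      ((∃ F : Fin k → Set E,
          (∀ i, ∀ a ∈ F i, tl a ∈ U i ∧ hd a ∈ U i ∧ hd a ≠ r i) ∧
          (∀ i, ∀ a ∈ F i, ∀ b ∈ F i, hd a = hd b → a = b) ∧
          (∀ i, ∀ u ∈ U i, ∃ (n : ℕ) (x : Fin (n+1) → V) (e : Fin n → E),
              x 0 = r i ∧ x (Fin.last n) = u ∧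
              ∀ m : Fin n, e m ∈ F i ∧ tl (e m) = x m.castSucc ∧ hd (e m) = x m.succ) ∧
          (∀ v : V, ∀ i j : Fin k, i ≠ j → v ∈ U i → v ∈ U j →
            ∀ (n₁ : ℕ) (x₁ : Fin (n₁+1) → V) (e₁ : Fin n₁ → E)
              (n₂ : ℕ) (x₂ : Fin (n₂+1) → V) (e₂ : Fin n₂ → E),
              x₁ 0 = r i → x₁ (Fin.last n₁) = v →
              (∀ m : Fin n₁, e₁ m ∈ F i ∧ tl (e₁ m) = x₁ m.castSucc ∧ hd (e₁ m) = x₁ m.succ) →
              x₂ 0 = r j → x₂ (Fin.last n₂) = v →
              (∀ m : Fin n₂, e₂ m ∈ F j ∧ tl (e₂ m) = x₂ m.castSucc ∧ hd (e₂ m) = x₂ m.succ) →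
              Disjoint (Set.range e₁) (Set.range e₂) ∧
              Set.range x₁ ∩ Set.range x₂ = ({v} : Set V) ∪ ({r i} ∩ {r j})))
      ↔
      (∀ v : V, ∃ (n : Fin k → ℕ) (x : (i : Fin k) → Fin (n i + 1) → V)
          (e : (i : Fin k) → Fin (n i) → E),
          (∀ i, v ∈ U i → x i 0 = r i ∧ x i (Fin.last (n i)) = v ∧
              ∀ m : Fin (n i), tl (e i m) = x i m.castSucc ∧ hd (e i m) = x i m.succ) ∧
          (∀ i j, i ≠ j → v ∈ U i → v ∈ U j →
              Disjoint (Set.range (e i)) (Set.range (e j)) ∧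
              Set.range (x i) ∩ Set.range (x j) = ({v} : Set V) ∪ ({r i} ∩ {r j})))) := by
  intro V E _ _ tl hd ⟨f, hf⟩ k r U hroot hconvP
  classical
  constructor
  · -- from arborescences to paths
    rintro ⟨F, _, _, hF3, hF4⟩ v
    have hch : ∀ i, ∃ (n : ℕ) (x : Fin (n+1) → V) (e : Fin n → E), v ∈ U i →
        x 0 = r i ∧ x (Fin.last n) = v ∧
          ∀ m : Fin n, e m ∈ F i ∧ tl (e m) = x m.castSucc ∧ hd (e m) = x m.succ := by
      intro i
      by_cases hv : v ∈ U i
      · obtain ⟨n, x, e, h⟩ := hF3 i v hv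
        exact ⟨n, x, e, fun _ => h⟩
      · exact ⟨0, fun _ => v, fun m => m.elim0, fun h => absurd h hv⟩
    choose n x e hx using hch
    refine ⟨n, x, e, ?_, ?_⟩
    · intro i hi
      obtain ⟨h1, h2, h3⟩ := hx i hi
      exact ⟨h1, h2, fun m => (h3 m).2⟩
    · intro i j hij hi hj
      obtain ⟨h1, h2, h3⟩ := hx i hi
      obtain ⟨h1', h2', h3'⟩ := hx j hj
      exact hF4 v i j hij hi hj _ _ _ _ _ _ h1 h2 h3 h1' h2' h3'
  · -- from paths to arborescences
    intro hb
    have hconv : ∀ i a w b, a ∈ U i → b ∈ U i → ReflTransGen (Arc tl hd) a w →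
        ReflTransGen (Arc tl hd) w b → w ∈ U i := by
      intro i a w b ha hb h1 h2
      obtain ⟨n, x, e, h3, h4, h5, m, h6⟩ := path_through h1 h2
      rw [← h6]
      exact hconvP i n x e h3 (by rw [h4]; exact ha) (by rw [h5]; exact hb) m
    have hreach : ∀ i u, u ∈ U i → ReflTransGen (Arc tl hd) (r i) u := by
      intro i u hu
      obtain ⟨n, x, e, h1, _⟩ := hb u
      obtain ⟨h2, h3, h4⟩ := h1 i hu
      have := reach_of_path h4 (n i) 0 (Fin.last (n i)) (by simp)
      rwa [h2, h3] at this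
    have hlen : ∀ i u, u ∈ U i → ∀ (n : ℕ) (x : Fin (n+1) → V) , x 0 = r i →
        x (Fin.last n) = u → u ≠ r i → n ≠ 0 := by
      rintro i u _ n x h1 h2 h3 rfl
      exact h3 (h2.symm.trans h1)
    rcases isEmpty_or_nonempty E with hE | hE
    · -- no arcs at all
      refine ⟨fun _ => ∅, ?_, ?_, ?_, ?_⟩
      · intro i a ha
        exact absurd ha (Set.notMem_empty a)
      · intro i a ha
        exact absurd ha (Set.notMem_empty a)
      · intro i u hu
        obtain ⟨n, x, e, h1, _⟩ := hb u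
        obtain ⟨h2, h3, _⟩ := h1 i hu
        have hn : n i = 0 := by
          by_contra hn
          exact hE.elim (e i ⟨0, Nat.pos_of_ne_zero hn⟩)
        have hur : u = r i := by
          rw [← h2, ← h3]
          congr 1
          apply Fin.ext
          simp [hn]
        exact ⟨0, fun _ => u, fun m => m.elim0, hur, rfl, fun m => m.elim0⟩
      · intro v i j hij _ _ n₁ x₁ e₁ n₂ x₂ e₂ h1 h2 _ h4 h5 _
        have hn1 : n₁ = 0 := by
          by_contra hn
          exact hE.elim (e₁ ⟨0, Nat.pos_of_ne_zero hn⟩)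
        have hn2 : n₂ = 0 := by
          by_contra hn
          exact hE.elim (e₂ ⟨0, Nat.pos_of_ne_zero hn⟩)
        subst hn1 hn2
        constructor
        · rw [Set.disjoint_left]
          intro a
          exact hE.elim a
        · have c1 : ∀ m, x₁ m = v := fun m => by
            rw [← h2]; congr 1; exact Fin.ext (by omega)
          have c2 : ∀ m, x₂ m = v := fun m => by
            rw [← h5]; congr 1; exact Fin.ext (by omega)
          have d1 : r i = v := by rw [← h1]; exact c1 0
          have d2 : r j = v := by rw [← h4]; exact c2 0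
          ext w
          simp only [Set.mem_inter_iff, Set.mem_range, c1, c2, Set.mem_union,
            Set.mem_singleton_iff, d1, d2]
          constructor
          · rintro ⟨⟨_, h⟩, _⟩
            exact Or.inl h.symm
          · rintro (h | ⟨h, _⟩)
            · exact ⟨⟨0, h.symm⟩, ⟨0, h.symm⟩⟩
            · exact ⟨⟨0, h.symm⟩, ⟨0, h.symm⟩⟩
    · -- the main case
      have htok : ∀ v, ∃ tok : Jt r U v → E, (∀ j, hd (tok j) = v) ∧
          (∀ j, tl (tok j) ∈ U j.1) ∧ Function.Injective tok ∧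
          (∀ i j, i ≠ j → tl (tok i) = tl (tok j) → tl (tok i) = r i.1 ∧ r i.1 = r j.1) ∧
          (∀ i j, i ≠ j → tl (tok j) = r i.1 → r j.1 = r i.1) := by
        intro v
        obtain ⟨n, x, e, h1, h2⟩ := hb v
        have hn : ∀ j : Jt r U v, n j.1 ≠ 0 := fun j =>
          hlen j.1 v j.2.1 _ _ (h1 j.1 j.2.1).1 (h1 j.1 j.2.1).2.1 j.2.2
        let ix : ∀ j : Jt r U v, Fin (n j.1) := fun j =>
          ⟨n j.1 - 1, Nat.sub_lt (Nat.pos_of_ne_zero (hn j)) Nat.one_pos⟩
        have hlast : ∀ j : Jt r U v, (ix j).succ = Fin.last (n j.1) := fun j => Fin.ext (by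
          have := hn j
          simp only [ix, Fin.succ_mk, Fin.val_last]
          omega)
        have g1 : ∀ j : Jt r U v, hd (e j.1 (ix j)) = v := fun j => by
          rw [((h1 j.1 j.2.1).2.2 (ix j)).2, hlast]
          exact (h1 j.1 j.2.1).2.1
        have g2 : ∀ j : Jt r U v, tl (e j.1 (ix j)) = x j.1 (ix j).castSucc := fun j =>
          ((h1 j.1 j.2.1).2.2 (ix j)).1
        have g3 : ∀ j : Jt r U v, tl (e j.1 (ix j)) ≠ v := fun j h => by
          have := hf (e j.1 (ix j))
          rw [h, g1] at this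
          exact lt_irrefl _ this
        refine ⟨fun j => e j.1 (ix j), g1, ?_, ?_, ?_, ?_⟩
        · intro j
          rw [g2]
          obtain ⟨h3, h4, h5⟩ := h1 j.1 j.2.1
          exact hconvP j.1 _ (x j.1) (e j.1) h5 (by rw [h3]; exact hroot _)
            (by rw [h4]; exact j.2.1) _
        · intro i j hij
          by_contra hne
          have hne' : i.1 ≠ j.1 := fun h => hne (Subtype.ext h)
          have := (h2 i.1 j.1 hne' i.2.1 j.2.1).1
          exact Set.disjoint_left.1 this ⟨ix i, rfl⟩ ⟨ix j, hij.symm⟩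
        · intro i j hne hij
          have hne' : i.1 ≠ j.1 := fun h => hne (Subtype.ext h)
          have h3 := (h2 i.1 j.1 hne' i.2.1 j.2.1).2
          have h4 : tl (e i.1 (ix i)) ∈ Set.range (x i.1) ∩ Set.range (x j.1) :=
            ⟨⟨_, (g2 i).symm⟩, ⟨_, (g2 j).symm.trans hij.symm⟩⟩
          rw [h3] at h4
          rcases h4 with h4 | ⟨h4, h5⟩
          · exact absurd h4 (g3 i)
          · exact ⟨h4, h4.symm.trans h5⟩
        · intro i j hne hij
          have hne' : i.1 ≠ j.1 := fun h => hne (Subtype.ext h)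
          have h3 := (h2 i.1 j.1 hne' i.2.1 j.2.1).2
          have h4 : tl (e j.1 (ix j)) ∈ Set.range (x i.1) ∩ Set.range (x j.1) :=
            ⟨⟨0, (h1 i.1 i.2.1).1.trans hij.symm⟩, ⟨_, (g2 j).symm⟩⟩
          rw [h3] at h4
          rcases h4 with h4 | ⟨h4, h5⟩
          · exact absurd h4 (g3 j)
          · exact h5.symm.trans h4
      obtain ⟨h, π, hG⟩ := exists_good hf hroot hreach hconv htok
      refine ⟨fun i => {a | hd a ∈ U i ∧ hd a ≠ r i ∧ a = π i (hd a)}, ?_, ?_, ?_, ?_⟩
      · rintro i a ⟨h1, h2, h3⟩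
        refine ⟨?_, h1, h2⟩
        rw [h3]
        exact hG.tl_mem _ (Finset.mem_univ _) i h1 h2
      · rintro i a ⟨_, _, h3⟩ b ⟨_, _, h3'⟩ hab
        rw [h3, h3', hab]
      · intro i
        have key : ∀ n u, f u = n → u ∈ U i →
            PathP tl hd (fun a => hd a ∈ U i ∧ hd a ≠ r i ∧ a = π i (hd a)) (r i) u := by
          intro n
          induction n using Nat.strong_induction_on with
          | _ n ih =>
            intro u hu hui
            by_cases hur : u = r i
            · rw [hur]; exact PathP.refl _ _ _ _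
            · have h1 := hG.hd_eq u (Finset.mem_univ _) i hui hur
              have h2 := hG.tl_mem u (Finset.mem_univ _) i hui hur
              have h3 := hf (π i u)
              rw [h1, hu] at h3
              refine (ih _ h3 _ rfl h2).snoc ?_ h1
              rw [h1]
              exact ⟨hui, hur, rfl⟩
        intro u hu
        exact key _ u rfl hu
      · intro v i j hij hvi hvj n₁ x₁ e₁ n₂ x₂ e₂ a1 a2 a3 b1 b2 b3
        have mem1 : ∀ m, x₁ m ∈ U i := by
          intro m
          refine Fin.cases ?_ (fun m => ?_) m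
          · rw [a1]; exact hroot i
          · rw [← (a3 m).2.2]; exact (a3 m).1.1
        have mem2 : ∀ m, x₂ m ∈ U j := by
          intro m
          refine Fin.cases ?_ (fun m => ?_) m
          · rw [b1]; exact hroot j
          · rw [← (b3 m).2.2]; exact (b3 m).1.1
        have claim : ∀ a b, x₁ a = x₂ b → x₁ a = v ∨ (x₁ a = r i ∧ r i = r j) := by
          intro a b hab
          by_contra hcon
          push Not at hcon
          obtain ⟨c1, c2⟩ := hcon
          have d1 := descend hG hf hroot hconv hij a1 a3 (by rw [a2]; exact hvj) a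
            (by rw [hab]; exact mem2 b) (by rw [a2]; exact c1) (fun hh => c2 hh.1 hh.2)
          have d2 := descend hG hf hroot hconv (Ne.symm hij) b1 b3 (by rw [b2]; exact hvi) b
            (by rw [← hab]; exact mem1 a) (by rw [b2, ← hab]; exact c1)
            (fun hh => c2 (by rw [hab, hh.1, hh.2]) hh.2.symm)
          rw [a2] at d1
          rw [b2, ← hab] at d2
          linarith
        constructor
        · rw [Set.disjoint_left]
          rintro a ⟨m, hm⟩ ⟨m', hm'⟩
          obtain ⟨⟨p1, p2, p3⟩, p4, p5⟩ := a3 m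
          obtain ⟨⟨q1, q2, q3⟩, q4, q5⟩ := b3 m'
          rw [hm] at p1 p2 p3 p4 p5
          rw [hm'] at q1 q2 q3 q4 q5
          rcases claim m.succ m'.succ (p5.symm.trans q5) with h1 | ⟨h1, _⟩
          · rw [← p5] at h1
            rw [h1] at p2 p3 q2 q3
            exact hG.ne v (Finset.mem_univ _) i j hij hvi hvj p2 q2 (p3.symm.trans q3)
          · rw [← p5] at h1
            exact p2 h1
        · ext w
          constructor
          · rintro ⟨⟨a, rfl⟩, ⟨b, hab⟩⟩
            rcases claim a b hab.symm with h1 | ⟨h1, h2⟩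
            · exact Or.inl h1
            · exact Or.inr ⟨h1, h1.trans h2⟩
          · rintro (h1 | ⟨h1, h2⟩)
            · exact ⟨⟨Fin.last n₁, a2.trans h1.symm⟩, ⟨Fin.last n₂, b2.trans h1.symm⟩⟩
            · exact ⟨⟨0, a1.trans h1.symm⟩, ⟨0, b1.trans h2.symm⟩⟩

end Pool.Agent.S05137
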