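import Pool.Statements.S05149

set_option autoImplicit false
set_option linter.unusedSectionVars false


namespace Pool.Agent.S05149.CycQ


/-- the universal profile -/
noncomputable def q (x : ℝ) : ℝ := max (max (1 - x) (2/3 - x/2)) (Real.exp (5/6 - x) / 4)

lemma q_ge1 (x : ℝ) : 1 - x ≤ q x := (le_max_left _ _).trans (le_max_left _ _)
lemma q_ge2 (x : ℝ) : 2/3 - x/2 ≤ q x := (le_max_right _ _).trans (le_max_left _ _)
lemma q_geE (x : ℝ) : Real.exp (5/6 - x) / 4 ≤ q x := le_max_right _ _
lemma q_ge3 (x : ℝ) : 11/24 - x/4 ≤ q x := by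
  have h1 := Real.add_one_le_exp (5/6 - x)
  have h2 := q_geE x
  linarith
lemma q_pos (x : ℝ) : 0 < q x := by
  have h1 := Real.exp_pos (5/6 - x)
  have h2 := q_geE x
  linarith
lemma q_nonneg (x : ℝ) : 0 ≤ q x := (q_pos x).le

lemma q_continuous : Continuous q := by
  unfold q
  fun_prop

lemma q_antitone : Antitone q := by
  intro x y h
  unfold q
  apply max_le_max
  · apply max_le_max <;> linarith
  · have : Real.exp (5/6 - y) ≤ Real.exp (5/6 - x) := Real.exp_le_exp.mpr (by linarith)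
    linarith

lemma q_exp {x : ℝ} (hx : 5/6 ≤ x) : q x = Real.exp (5/6 - x) / 4 := by
  unfold q
  apply max_eq_right
  have h1 := Real.add_one_le_exp (5/6 - x)
  apply max_le <;> linarith

lemma q_lin2 {x : ℝ} (hx : 2/3 ≤ x) (hx' : x ≤ 5/6) : q x = 2/3 - x/2 := by
  unfold q
  have h1 := Real.add_one_le_exp (-(5/6 - x))
  have h2 : Real.exp (5/6 - x) * Real.exp (-(5/6 - x)) = 1 := by
    rw [← Real.exp_add]; simp
  have h3 := Real.exp_pos (5/6 - x)
  have h4 : Real.exp (5/6 - x) ≤ 1 + 2 * (5/6 - x) := by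
    set u := 5/6 - x with hu
    have hu0 : 0 ≤ u := by linarith
    have hu1 : u ≤ 1/6 := by linarith
    have h5 : Real.exp u * (1 - u) ≤ 1 := by nlinarith
    have h6 : 1 ≤ (1 + 2 * u) * (1 - u) := by nlinarith
    have h7 : Real.exp u * (1 - u) ≤ (1 + 2 * u) * (1 - u) := h5.trans h6
    exact le_of_mul_le_mul_right h7 (by linarith)
  rw [max_eq_left, max_eq_right]
  · linarith
  · refine le_trans ?_ (le_max_right _ _)
    linarith

lemma q_lin1 {x : ℝ} (hx : 0 ≤ x) (hx' : x ≤ 2/3) : q x = 1 - x := by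
  unfold q
  have hc := convexOn_exp
  have h1 := hc.2 (Set.mem_univ (5/6 : ℝ)) (Set.mem_univ (1/6 : ℝ))
    (show (0:ℝ) ≤ 1 - 3*x/2 by linarith) (show (0:ℝ) ≤ 3*x/2 by linarith) (by ring)
  simp only [smul_eq_mul] at h1
  have h2 : (1 - 3*x/2) * (5/6) + 3*x/2*(1/6) = 5/6 - x := by ring
  rw [h2] at h1
  have h3 : Real.exp (5/6) ≤ 4 := by
    have : Real.exp (5/6) ≤ Real.exp 1 := Real.exp_le_exp.mpr (by norm_num)
    have h4 := Real.exp_one_lt_d9
    linarith
  have h5 : Real.exp (1/6) ≤ 4/3 := by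
    have h6 := Real.add_one_le_exp (-(1/6) : ℝ)
    have h7 : Real.exp (1/6) * Real.exp (-(1/6)) = 1 := by
      rw [← Real.exp_add]; simp
    have h8 := Real.exp_pos (1/6)
    nlinarith
  rw [max_eq_left, max_eq_left]
  · linarith
  · refine le_trans ?_ (le_max_left _ _)
    nlinarith

lemma q_le1 {x : ℝ} (hx : 0 ≤ x) (hx' : x ≤ 5/6) : q x ≤ max (1 - x) (2/3 - x/2) := by
  rcases le_total x (2/3) with h | h
  · rw [q_lin1 hx h]; exact le_max_left _ _
  · rw [q_lin2 h hx']; exact le_max_right _ _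

lemma loop1 (y : ℝ) : 1 ≤ y + q y := by linarith [q_ge1 y]

lemma theta3 (a b c : ℝ) : 2 - (a + b + c) / 2 ≤ q a + q b + q c := by
  linarith [q_ge2 a, q_ge2 b, q_ge2 c]

lemma exp_split (x a : ℝ) : Real.exp (5/6 - (x + a)) = Real.exp (5/6 - x) * Real.exp (-a) := by
  rw [← Real.exp_add]; congr 1; ring

lemma fib2 {x a b : ℝ} (hx : 2/3 ≤ x) (hab : a + b ≤ 5/6) : q x ≤ q (x + a) + q (x + b) := by
  rcases le_total x (5/6) with h | h
  · rw [q_lin2 hx h]
    linarith [q_ge3 (x + a), q_ge3 (x + b)]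
  · rw [q_exp h]
    have h1 := q_geE (x + a)
    have h2 := q_geE (x + b)
    rw [exp_split] at h1 h2
    have h3 := Real.add_one_le_exp (-a)
    have h4 := Real.add_one_le_exp (-b)
    have h5 := Real.exp_pos (5/6 - x)
    nlinarith

lemma fib4 {x a b c d : ℝ} (hx : 0 ≤ x) (h : a + b + c + d ≤ 3) :
    q x ≤ q (x + a) + q (x + b) + q (x + c) + q (x + d) := by
  rcases le_total x (5/6) with h' | h'
  · refine (q_le1 hx h').trans ?_
    apply max_le <;> linarith [q_ge3 (x + a), q_ge3 (x + b), q_ge3 (x + c), q_ge3 (x + d)]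
  · rw [q_exp h']
    have h1 := q_geE (x + a)
    have h2 := q_geE (x + b)
    have h3 := q_geE (x + c)
    have h4 := q_geE (x + d)
    rw [exp_split] at h1 h2 h3 h4
    have h5 := Real.add_one_le_exp (-a)
    have h6 := Real.add_one_le_exp (-b)
    have h7 := Real.add_one_le_exp (-c)
    have h8 := Real.add_one_le_exp (-d)
    have h9 := Real.exp_pos (5/6 - x)
    nlinarith

lemma exp_tan (u : ℝ) : (9/25) * (2 - u) ≤ Real.exp (-u) ∨ 2 ≤ u := by
  rcases le_total 2 u with h | h
  · exact Or.inr h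
  · left
    have h1 := Real.add_one_le_exp (1 - u)
    have h2 : Real.exp (-u) = Real.exp (1 - u) * Real.exp (-1) := by
      rw [← Real.exp_add]; congr 1; ring
    have h3 : (9/25 : ℝ) ≤ Real.exp (-1) := by
      have h4 := Real.exp_one_lt_d9
      have h5 : Real.exp 1 * Real.exp (-1) = 1 := by rw [← Real.exp_add]; simp
      have h6 := Real.exp_pos (-1)
      nlinarith
    rw [h2]
    have h7 : 0 ≤ 2 - u := by linarith
    calc 9/25 * (2 - u) ≤ Real.exp (-1) * (2 - u) := by nlinarith
      _ ≤ Real.exp (-1) * Real.exp (1 - u) := by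
          apply mul_le_mul_of_nonneg_left _ (Real.exp_pos _).le; linarith
      _ = _ := by ring

lemma exp_tan' (u : ℝ) : (9/25) * (2 - u) ≤ Real.exp (-u) := by
  rcases exp_tan u with h | h
  · exact h
  · have := Real.exp_pos (-u)
    nlinarith

lemma fib3 {x g n1 n2 : ℝ} (hx : 0 ≤ x) (hg : g ≤ 5/6) (hn : n1 + n2 ≤ 7/3) :
    q x ≤ q (x + g) + q (x + (n1 - g)) + q (x + (n2 - g)) := by
  rcases le_total x (2/3) with h | h
  · rw [q_lin1 hx h]
    linarith [q_ge2 (x + g), q_ge3 (x + (n1 - g)), q_ge3 (x + (n2 - g))]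
  · have h1 := q_geE (x + g)
    have h2 := q_geE (x + (n1 - g))
    have h3 := q_geE (x + (n2 - g))
    rw [exp_split] at h1 h2 h3
    have h4 := Real.add_one_le_exp (-g)
    have h5 := exp_tan' (n1 - g)
    have h6 := exp_tan' (n2 - g)
    have h9 := Real.exp_pos (5/6 - x)
    have h10 : 8/7 ≤ Real.exp (-g) + Real.exp (-(n1 - g)) + Real.exp (-(n2 - g)) := by
      linarith
    have h11 : Real.exp (5/6 - x) * (8/7) ≤ Real.exp (5/6 - x) * (Real.exp (-g) + Real.exp (-(n1 - g)) + Real.exp (-(n2 - g))) :=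
      mul_le_mul_of_nonneg_left h10 h9.le
    have h12 : Real.exp (5/6 - x) / 4 * (8/7) ≤ q (x + g) + q (x + (n1 - g)) + q (x + (n2 - g)) := by
      linarith
    refine le_trans ?_ h12
    rcases le_total x (5/6) with h' | h'
    · rw [q_lin2 h h']
      have := Real.add_one_le_exp (5/6 - x)
      linarith
    · rw [q_exp h']
      linarith



noncomputable section

open Classical

variable {E : Type*} [Fintype E]

abbrev Vc (E : Type*) := E → ZMod 2

def supp (z : Vc E) : Finset E := Finset.univ.filter (fun e => z e ≠ 0)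

omit [Fintype E] in
lemma z2 (a : ZMod 2) : a = 0 ∨ a = 1 := by
  revert a; decide

lemma mem_supp {z : Vc E} {e : E} : e ∈ supp z ↔ z e ≠ 0 := by
  simp [supp]

lemma notMem_supp {z : Vc E} {e : E} : e ∉ supp z ↔ z e = 0 := by
  rw [mem_supp]; tauto

lemma supp_eq_empty {z : Vc E} : supp z = ∅ ↔ z = 0 := by
  constructor
  · intro h
    funext e
    have : e ∉ supp z := by rw [h]; simp
    exact notMem_supp.mp this
  · intro h
    subst h
    ext e
    simp [mem_supp]

lemma supp_inj {z w : Vc E} (h : supp z = supp w) : z = w := by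
  funext e
  have h1 : e ∈ supp z ↔ e ∈ supp w := by rw [h]
  rw [mem_supp, mem_supp] at h1
  rcases z2 (z e) with h2 | h2 <;> rcases z2 (w e) with h3 | h3 <;> simp_all

lemma add_self' (z : Vc E) : z + z = 0 := by
  funext e
  have : ∀ a : ZMod 2, a + a = 0 := by decide
  exact this _

/-- delete the coordinates in `U` (contraction of `U`) -/
def con (U : Finset E) : Vc E →ₗ[ZMod 2] Vc E where
  toFun z := fun e => if e ∈ U then 0 else z e
  map_add' x y := by
    funext e
    by_cases h : e ∈ U <;> simp [h]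
  map_smul' c x := by
    funext e
    by_cases h : e ∈ U <;> simp [h]

lemma con_apply (U : Finset E) (z : Vc E) (e : E) : con U z e = if e ∈ U then 0 else z e := rfl

lemma con_of_mem {U : Finset E} {z : Vc E} {e : E} (h : e ∈ U) : con U z e = 0 := by
  rw [con_apply, if_pos h]

lemma con_of_notMem {U : Finset E} {z : Vc E} {e : E} (h : e ∉ U) : con U z e = z e := by
  rw [con_apply, if_neg h]

lemma supp_con (U : Finset E) (z : Vc E) : supp (con U z) = supp z \ U := by
  ext e
  rw [Finset.mem_sdiff, mem_supp, mem_supp]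
  by_cases h : e ∈ U
  · rw [con_of_mem h]; simp [h]
  · rw [con_of_notMem h]; simp [h]

lemma con_eq_zero {U : Finset E} {z : Vc E} : con U z = 0 ↔ supp z ⊆ U := by
  rw [← supp_eq_empty, supp_con, Finset.sdiff_eq_empty_iff_subset]

lemma con_eq_self {U : Finset E} {z : Vc E} (h : Disjoint (supp z) U) : con U z = z := by
  apply supp_inj
  rw [supp_con, Finset.sdiff_eq_self_of_disjoint h]

/-- circuits -/
def IsCirc (Z : Submodule (ZMod 2) (Vc E)) (c : Vc E) : Prop :=
  c ∈ Z ∧ c ≠ 0 ∧ ∀ z ∈ Z, z ≠ 0 → supp z ⊆ supp c → z = c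

def circ (Z : Submodule (ZMod 2) (Vc E)) : Finset (Vc E) :=
  Finset.univ.filter (fun c => IsCirc Z c)

lemma mem_circ {Z : Submodule (ZMod 2) (Vc E)} {c : Vc E} : c ∈ circ Z ↔ IsCirc Z c := by
  simp [circ]

def wt (s : E → ℝ) (z : Vc E) : ℝ := ∑ e ∈ supp z, s e

/-- weight inside `U` -/
def wU (s : E → ℝ) (U : Finset E) (z : Vc E) : ℝ := ∑ e ∈ supp z ∩ U, s e

lemma wt_nonneg {s : E → ℝ} (hs : ∀ e, 0 ≤ s e) (z : Vc E) : 0 ≤ wt s z :=
  Finset.sum_nonneg (fun e _ => hs e)

lemma wU_nonneg {s : E → ℝ} (hs : ∀ e, 0 ≤ s e) (U : Finset E) (z : Vc E) : 0 ≤ wU s U z :=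
  Finset.sum_nonneg (fun e _ => hs e)

lemma wt_split (s : E → ℝ) (U : Finset E) (z : Vc E) : wt s z = wt s (con U z) + wU s U z := by
  unfold wt wU
  rw [supp_con, add_comm, Finset.sum_inter_add_sum_sdiff]

lemma exists_circ_sub {Z : Submodule (ZMod 2) (Vc E)} {z : Vc E} (hz : z ∈ Z) (hz0 : z ≠ 0) :
    ∃ c, IsCirc Z c ∧ supp c ⊆ supp z := by
  have hne : (Finset.univ.filter (fun w : Vc E => w ∈ Z ∧ w ≠ 0 ∧ supp w ⊆ supp z)).Nonempty :=
    ⟨z, by simp [hz, hz0]⟩
  obtain ⟨c, hc, hmin⟩ := Finset.exists_min_image _ (fun w => (supp w).card) hne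
  simp only [Finset.mem_filter, Finset.mem_univ, true_and] at hc hmin
  refine ⟨c, ⟨hc.1, hc.2.1, ?_⟩, hc.2.2⟩
  intro w hw hw0 hsub
  have h1 := hmin w ⟨hw, hw0, hsub.trans hc.2.2⟩
  exact supp_inj (Finset.eq_of_subset_of_card_le hsub h1)

lemma finrank_split {W : Type*} [AddCommGroup W] [Module (ZMod 2) W]
    (Z : Submodule (ZMod 2) (Vc E)) (f : Vc E →ₗ[ZMod 2] W) :
    Module.finrank (ZMod 2) (Z.map f) + Module.finrank (ZMod 2) (Z ⊓ LinearMap.ker f : Submodule (ZMod 2) (Vc E))
      = Module.finrank (ZMod 2) Z := by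
  have h1 := (f ∘ₗ Z.subtype).finrank_range_add_finrank_ker
  rw [LinearMap.range_comp, Submodule.range_subtype, LinearMap.ker_comp] at h1
  rw [← h1]
  congr 1
  rw [← Submodule.map_comap_subtype, Submodule.finrank_map_subtype_eq]

/-- lifts of circuits of the contraction -/
lemma lift_circ {Z : Submodule (ZMod 2) (Vc E)} {U : Finset E} {D z : Vc E}
    (hD : IsCirc (Z.map (con U)) D) (hz : z ∈ Z) (hzD : con U z = D)
    (h : ∀ u ∈ Z, u ≠ 0 → supp u ⊆ U → ¬ supp u ⊆ supp z) : IsCirc Z z := by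
  refine ⟨hz, ?_, ?_⟩
  · rintro rfl
    apply hD.2.1
    rw [← hzD, map_zero]
  · intro w hw hw0 hsub
    by_cases h1 : con U w = 0
    · exact absurd hsub (h w hw hw0 (con_eq_zero.mp h1))
    · have h2 : con U w = D := by
        apply hD.2.2 _ (Submodule.mem_map_of_mem hw) h1
        rw [supp_con, ← hzD, supp_con]
        exact Finset.sdiff_subset_sdiff hsub (le_refl _)
      by_contra hne
      have h3 : z + w ≠ 0 := by
        intro h4
        apply hne
        have : w = z + w + z := by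
          have := add_self' z
          calc w = w + 0 := by simp
            _ = w + (z + z) := by rw [this]
            _ = z + w + z := by abel
        rw [this, h4, zero_add]
      have h4 : con U (z + w) = 0 := by
        rw [map_add, hzD, h2, add_self']
      refine h (z + w) (Z.add_mem hz hw) h3 (con_eq_zero.mp h4) ?_
      intro e he
      rw [mem_supp] at he
      by_contra h5
      have h6 : e ∉ supp w := fun h7 => h5 (hsub h7)
      rw [notMem_supp] at h5 h6
      apply he
      simp [h5, h6]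

lemma circ_of_mem {Z : Submodule (ZMod 2) (Vc E)} {U : Finset E} {D : Vc E}
    (hD : IsCirc (Z.map (con U)) D) (hDZ : D ∈ Z) : IsCirc Z D ∧ con U D = D := by
  have h0 : Disjoint (supp D) U := by
    obtain ⟨z, _, hz⟩ := hD.1
    rw [← hz, supp_con]
    exact Finset.sdiff_disjoint
  have h1 := con_eq_self h0
  refine ⟨lift_circ hD hDZ h1 ?_, h1⟩
  intro u _ hu0 huU hsub
  apply hu0
  rw [← supp_eq_empty]
  have := h0.mono_left hsub
  rw [← Finset.disjoint_self_iff_empty]
  exact this.mono_right huU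


lemma contract_step {Z : Submodule (ZMod 2) (Vc E)} {A U : Finset E} (hU : U ⊆ A) (s : E → ℝ)
    (IH : (Module.finrank (ZMod 2) (Z.map (con U)) : ℝ) ≤
      ∑ e ∈ A \ U, s e + ∑ c ∈ circ (Z.map (con U)), q (wt s c))
    (K : Finset (Vc E)) (hK : ∀ c ∈ K, IsCirc Z c ∧ supp c ⊆ U)
    (hK2 : (Module.finrank (ZMod 2) (Z ⊓ LinearMap.ker (con U) : Submodule (ZMod 2) (Vc E)) : ℝ) ≤
      ∑ e ∈ U, s e + ∑ c ∈ K, q (wt s c))
    (fib : ∀ D, IsCirc (Z.map (con U)) D → ∃ L : Finset (Vc E),
      (∀ c ∈ L, IsCirc Z c ∧ con U c = D) ∧ q (wt s D) ≤ ∑ c ∈ L, q (wt s c)) :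
    (Module.finrank (ZMod 2) Z : ℝ) ≤ ∑ e ∈ A, s e + ∑ c ∈ circ Z, q (wt s c) := by
  have h1 : ∑ c ∈ K, q (wt s c) + ∑ D ∈ circ (Z.map (con U)), q (wt s D) ≤
      ∑ c ∈ circ Z, q (wt s c) := by
    rw [← Finset.sum_filter_add_sum_filter_not (circ Z) (fun c => con U c = 0)]
    apply add_le_add
    · apply Finset.sum_le_sum_of_subset_of_nonneg
      · intro c hc
        rw [Finset.mem_filter, mem_circ]
        exact ⟨(hK c hc).1, con_eq_zero.mpr (hK c hc).2⟩
      · intros; exact q_nonneg _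
    · calc ∑ D ∈ circ (Z.map (con U)), q (wt s D) 
          ≤ ∑ D ∈ circ (Z.map (con U)), ∑ c ∈ ((circ Z).filter (fun c => con U c ∈ circ (Z.map (con U)))).filter (fun c => con U c = D), q (wt s c) := by
            apply Finset.sum_le_sum
            intro D hD
            have hD' := hD
            rw [mem_circ] at hD
            obtain ⟨L, hL, hq⟩ := fib D hD
            refine hq.trans (Finset.sum_le_sum_of_subset_of_nonneg ?_ ?_)
            · intro c hc
              rw [Finset.mem_filter, Finset.mem_filter, mem_circ]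
              refine ⟨⟨(hL c hc).1, ?_⟩, (hL c hc).2⟩
              rw [(hL c hc).2]; exact hD'
            · intros; exact q_nonneg _
        _ = ∑ c ∈ (circ Z).filter (fun c => con U c ∈ circ (Z.map (con U))), q (wt s c) := by
            apply Finset.sum_fiberwise_of_maps_to
            intro c hc
            rw [Finset.mem_filter] at hc
            exact hc.2
        _ ≤ _ := by
            apply Finset.sum_le_sum_of_subset_of_nonneg
            · intro c hc
              rw [Finset.mem_filter] at hc ⊢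
              refine ⟨hc.1, ?_⟩
              have := hc.2
              rw [mem_circ] at this
              exact this.2.1
            · intros; exact q_nonneg _
  have h2 := finrank_split Z (con U)
  have h3 : (Module.finrank (ZMod 2) Z : ℝ) = (Module.finrank (ZMod 2) (Z.map (con U)) : ℝ) +
      (Module.finrank (ZMod 2) (Z ⊓ LinearMap.ker (con U) : Submodule (ZMod 2) (Vc E)) : ℝ) := by
    rw [← h2]; push_cast; rfl
  have h4 : ∑ e ∈ A, s e = ∑ e ∈ A \ U, s e + ∑ e ∈ U, s e := (Finset.sum_sdiff hU).symm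
  rw [h3, h4]
  linarith

/-- sum of three circuits of a theta -/
structure Theta (Z : Submodule (ZMod 2) (Vc E)) (U : Finset E) (P Q R : Vc E) : Prop where
  cP : IsCirc Z P
  cQ : IsCirc Z Q
  cR : IsCirc Z R
  sum : P + Q = R
  sub : ∀ e, e ∈ U ↔ (P e ≠ 0 ∨ Q e ≠ 0)
  all : ∀ z ∈ Z, supp z ⊆ U → z = 0 ∨ z = P ∨ z = Q ∨ z = R

lemma Theta.swap {Z : Submodule (ZMod 2) (Vc E)} {U : Finset E} {P Q R : Vc E} (h : Theta Z U P Q R) :
    Theta Z U Q P R := by
  refine ⟨h.cQ, h.cP, h.cR, by rw [add_comm]; exact h.sum, ?_, ?_⟩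
  · intro e; rw [h.sub e]; tauto
  · intro z hz hzU
    have := h.all z hz hzU
    tauto

lemma Theta.rot {Z : Submodule (ZMod 2) (Vc E)} {U : Finset E} {P Q R : Vc E} (h : Theta Z U P Q R) :
    Theta Z U R P Q := by
  refine ⟨h.cR, h.cP, h.cQ, ?_, ?_, ?_⟩
  · rw [← h.sum]
    have := add_self' P
    calc P + Q + P = P + P + Q := by abel
      _ = Q := by rw [this, zero_add]
  · intro e
    rw [h.sub e, ← h.sum, Pi.add_apply]
    rcases z2 (P e) with h1 | h1 <;> rcases z2 (Q e) with h2 | h2 <;> rw [h1, h2] <;> decide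
  · intro z hz hzU
    have := h.all z hz hzU
    tauto

lemma Theta.ne {Z : Submodule (ZMod 2) (Vc E)} {U : Finset E} {P Q R : Vc E} (h : Theta Z U P Q R) :
    P ≠ Q := by
  intro h1
  apply h.cR.2.1
  rw [← h.sum, h1, add_self']

lemma Theta.suppP {Z : Submodule (ZMod 2) (Vc E)} {U : Finset E} {P Q R : Vc E} (h : Theta Z U P Q R) :
    supp P ⊆ U := by
  intro e he
  rw [h.sub]; left; exact mem_supp.mp he

/-- a circuit of a theta is not contained in another one -/
lemma Theta.exP {Z : Submodule (ZMod 2) (Vc E)} {U : Finset E} {P Q R : Vc E} (h : Theta Z U P Q R) :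
    ∃ e, P e ≠ 0 ∧ Q e = 0 := by
  by_contra hcon
  push Not at hcon
  apply h.ne
  apply h.cQ.2.2 P h.cP.1 h.cP.2.1
  intro e he
  rw [mem_supp] at he ⊢
  exact hcon e he

lemma z2_add_ne {a b : ZMod 2} (ha : a ≠ 0) (hb : b ≠ 0) : a + b = 0 := by
  revert a b; decide

lemma z2_add_ne' {a b : ZMod 2} (ha : a ≠ 0) (hb : b = 0) : a + b ≠ 0 := by
  rw [hb, add_zero]; exact ha

/-- the circuits over `D` when a lift avoids `P` -/
lemma Theta.fibA {Z : Submodule (ZMod 2) (Vc E)} {U : Finset E} {P Q R : Vc E} (h : Theta Z U P Q R)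
    {D r : Vc E} (hD : IsCirc (Z.map (con U)) D) (hDZ : D ∉ Z) (hr : r ∈ Z) (hrD : con U r = D)
    (hrP : ∀ e, P e ≠ 0 → r e = 0) : IsCirc Z r ∧ IsCirc Z (r + Q) := by
  have conQ : con U Q = 0 := con_eq_zero.mpr h.swap.suppP
  obtain ⟨e1, h1P, h1Q⟩ := h.exP
  obtain ⟨e2, h2P, h2R⟩ := h.rot.swap.exP
  have h2Q : Q e2 ≠ 0 := by
    intro h0
    rw [← h.sum, Pi.add_apply, h0, add_zero] at h2R
    exact h2P h2R
  have h1R : R e1 ≠ 0 := by
    rw [← h.sum, Pi.add_apply]
    exact z2_add_ne' h1P h1Q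
  constructor
  · apply lift_circ hD hr hrD
    intro u hu hu0 huU hsub
    rcases h.all u hu huU with rfl | rfl | rfl | rfl
    · exact hu0 rfl
    · exact mem_supp.mp (hsub (mem_supp.mpr h1P)) (hrP e1 h1P)
    · exact mem_supp.mp (hsub (mem_supp.mpr h2Q)) (hrP e2 h2P)
    · exact mem_supp.mp (hsub (mem_supp.mpr h1R)) (hrP e1 h1P)
  · apply lift_circ hD (Z.add_mem hr h.cQ.1) (by rw [map_add, hrD, conQ, add_zero])
    intro u hu hu0 huU hsub
    have hz1 : (r + Q) e1 = 0 := by
      rw [Pi.add_apply, hrP e1 h1P, h1Q, add_zero]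
    rcases h.all u hu huU with rfl | rfl | rfl | rfl
    · exact hu0 rfl
    · exact mem_supp.mp (hsub (mem_supp.mpr h1P)) hz1
    · -- there is `e ∈ U` with `r e ≠ 0`
      have h3 : ∃ e ∈ U, r e ≠ 0 := by
        by_contra hcon
        push Not at hcon
        apply hDZ
        rw [← hrD]
        have : con U r = r := by
          apply con_eq_self
          rw [Finset.disjoint_right]
          intro e he
          exact notMem_supp.mpr (hcon e he)
        rw [this]; exact hr
      obtain ⟨e3, h3U, h3r⟩ := h3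
      have h3P : P e3 = 0 := by
        by_contra h4
        exact h3r (hrP e3 h4)
      have h3Q : u e3 ≠ 0 := by
        rcases (h.sub e3).mp h3U with h4 | h4
        · exact absurd h3P h4
        · exact h4
      apply mem_supp.mp (hsub (mem_supp.mpr h3Q))
      rw [Pi.add_apply]
      exact z2_add_ne h3r h3Q
    · exact mem_supp.mp (hsub (mem_supp.mpr h1R)) hz1

lemma wU_eq (s : E → ℝ) (U : Finset E) (z : Vc E) :
    wU s U z = ∑ e ∈ U, if z e ≠ 0 then s e else 0 := by
  unfold wU
  rw [← Finset.sum_filter]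
  congr 1
  ext e
  rw [Finset.mem_inter, Finset.mem_filter, mem_supp, and_comm]

lemma wt_eq (s : E → ℝ) {U : Finset E} {z : Vc E} (h : supp z ⊆ U) :
    wt s z = ∑ e ∈ U, if z e ≠ 0 then s e else 0 := by
  unfold wt
  rw [← Finset.sum_filter]
  congr 1
  ext e
  rw [Finset.mem_filter, mem_supp]
  constructor
  · intro h1; exact ⟨h (mem_supp.mpr h1), h1⟩
  · intro h1; exact h1.2

lemma Theta.wsum {Z : Submodule (ZMod 2) (Vc E)} {U : Finset E} {P Q R : Vc E} (h : Theta Z U P Q R)
    (s : E → ℝ) : wt s P + wt s Q + wt s R = 2 * ∑ e ∈ U, s e := by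
  rw [wt_eq s h.suppP, wt_eq s h.swap.suppP, wt_eq s h.rot.suppP, ← Finset.sum_add_distrib,
    ← Finset.sum_add_distrib, Finset.mul_sum]
  apply Finset.sum_congr rfl
  intro e he
  rw [h.sub] at he
  rw [← h.sum, Pi.add_apply]
  rcases z2 (P e) with h1 | h1 <;> rcases z2 (Q e) with h2 | h2
  · rw [h1, h2] at he; simp at he
  · rw [h1, h2]; simp; ring
  · rw [h1, h2]; simp; ring
  · rw [h1, h2]
    have : (1 : ZMod 2) + 1 = 0 := by decide
    rw [this]; simp; ring

lemma Theta.wQ {Z : Submodule (ZMod 2) (Vc E)} {U : Finset E} {P Q R : Vc E} (h : Theta Z U P Q R)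
    (s : E → ℝ) {r : Vc E} (hrP : ∀ e, P e ≠ 0 → r e = 0) :
    wU s U (r + Q) = wt s Q - wU s U r := by
  rw [eq_sub_iff_add_eq, wU_eq, wU_eq, wt_eq s h.swap.suppP, ← Finset.sum_add_distrib]
  apply Finset.sum_congr rfl
  intro e he
  rw [h.sub] at he
  rw [Pi.add_apply]
  rcases z2 (P e) with h1 | h1 
  · have h2 : Q e ≠ 0 := by
      rcases he with h3 | h3
      · exact absurd h1 h3
      · exact h3
    rcases z2 (r e) with h3 | h3
    · rw [h3, if_pos h2]; simp [h2]
    · rw [if_neg, if_pos, if_pos h2, zero_add]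
      · rw [h3]; decide
      · rw [not_not]; apply z2_add_ne _ h2; rw [h3]; decide
  · have h2 : r e = 0 := hrP e (by rw [h1]; decide)
    rw [h2]; simp

lemma Theta.wr {Z : Submodule (ZMod 2) (Vc E)} {U : Finset E} {P Q R : Vc E} (h : Theta Z U P Q R)
    {s : E → ℝ} (hs : ∀ e, 0 ≤ s e) {r : Vc E} (hrP : ∀ e, P e ≠ 0 → r e = 0) :
    wU s U r ≤ ∑ e ∈ U, s e - wt s P := by
  rw [le_sub_iff_add_le, wU_eq, wt_eq s h.suppP, ← Finset.sum_add_distrib]
  apply Finset.sum_le_sum
  intro e _
  by_cases h1 : P e = 0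
  · by_cases h2 : r e = 0
    · simp [h1, h2, hs e]
    · simp [h1, h2]
  · have h2 : r e = 0 := hrP e h1
    simp [h1, h2]

lemma Theta.w4 {Z : Submodule (ZMod 2) (Vc E)} {U : Finset E} {P Q R : Vc E} (h : Theta Z U P Q R)
    (s : E → ℝ) (z : Vc E) :
    wU s U z + wU s U (z + P) + wU s U (z + Q) + wU s U (z + R) = 2 * ∑ e ∈ U, s e := by
  rw [wU_eq, wU_eq, wU_eq, wU_eq, ← Finset.sum_add_distrib, ← Finset.sum_add_distrib,
    ← Finset.sum_add_distrib, Finset.mul_sum]
  apply Finset.sum_congr rfl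
  intro e he
  rw [h.sub] at he
  rw [← h.sum, Pi.add_apply, Pi.add_apply, Pi.add_apply, Pi.add_apply]
  have h11 : (1 : ZMod 2) + 1 = 0 := by decide
  rcases z2 (P e) with h1 | h1 <;> rcases z2 (Q e) with h2 | h2 <;> rcases z2 (z e) with h3 | h3 <;>
    rw [h1, h2] at he <;> simp [h1, h2, h3, h11] at he ⊢ <;> ring

lemma fiber_one {Z : Submodule (ZMod 2) (Vc E)} {U : Finset E} (s : E → ℝ) {D : Vc E}
    (hD : IsCirc (Z.map (con U)) D) (hDZ : D ∈ Z) :
    ∃ L : Finset (Vc E), (∀ c ∈ L, IsCirc Z c ∧ con U c = D) ∧ q (wt s D) ≤ ∑ c ∈ L, q (wt s c) := by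
  refine ⟨{D}, ?_, ?_⟩
  · intro c hc
    rw [Finset.mem_singleton] at hc
    subst hc
    exact circ_of_mem hD hDZ
  · rw [Finset.sum_singleton]

lemma Theta.fiberP {Z : Submodule (ZMod 2) (Vc E)} {U : Finset E} {P Q R : Vc E} (h : Theta Z U P Q R)
    {s : E → ℝ} (hs : ∀ e, 0 ≤ s e) (hW : ∑ e ∈ U, s e ≤ 3/2) (hP : ∑ e ∈ U, s e - wt s P ≤ 5/6)
    {D r : Vc E} (hD : IsCirc (Z.map (con U)) D) (hDZ : D ∉ Z) (hr : r ∈ Z) (hrD : con U r = D)
    (hrP : ∀ e, P e ≠ 0 → r e = 0) :
    ∃ L : Finset (Vc E), (∀ c ∈ L, IsCirc Z c ∧ con U c = D) ∧ q (wt s D) ≤ ∑ c ∈ L, q (wt s c) := by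
  have c1 := h.fibA hD hDZ hr hrD hrP
  have c2 := h.rot.swap.fibA hD hDZ hr hrD hrP
  have conQ : con U Q = 0 := con_eq_zero.mpr h.swap.suppP
  have conR : con U R = 0 := con_eq_zero.mpr h.rot.suppP
  refine ⟨{r, r + Q, r + R}, ?_, ?_⟩
  · intro c hc
    simp only [Finset.mem_insert, Finset.mem_singleton] at hc
    rcases hc with rfl | rfl | rfl
    · exact ⟨c1.1, hrD⟩
    · exact ⟨c1.2, by rw [map_add, hrD, conQ, add_zero]⟩
    · exact ⟨c2.2, by rw [map_add, hrD, conR, add_zero]⟩
  · have n1 : r ≠ r + Q := by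
      intro h0; apply h.cQ.2.1; exact (left_eq_add.mp h0)
    have n2 : r ≠ r + R := by
      intro h0; apply h.cR.2.1; exact (left_eq_add.mp h0)
    have n3 : r + Q ≠ r + R := by
      intro h0
      exact h.rot.rot.ne (add_left_cancel h0)
    rw [Finset.sum_insert, Finset.sum_pair n3]
    · rw [wt_split s U r, wt_split s U (r + Q), wt_split s U (r + R), hrD, map_add, map_add, conQ, conR,
        hrD, add_zero, h.wQ s hrP, h.rot.swap.wQ s hrP, ← add_assoc]
      apply CycQ.fib3 (wt_nonneg hs _) ((h.wr hs hrP).trans hP)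
      have := h.wsum s
      linarith
    · simp only [Finset.mem_insert, Finset.mem_singleton, not_or]
      exact ⟨n1, n2⟩

lemma Theta.bad {Z : Submodule (ZMod 2) (Vc E)} {U : Finset E} {P Q R : Vc E} (h : Theta Z U P Q R)
    {D z : Vc E} (hD : IsCirc (Z.map (con U)) D) (hz : z ∈ Z) (hzD : con U z = D)
    (hbad : ¬ IsCirc Z z) : ∃ r ∈ Z, con U r = D ∧ ((∀ e, P e ≠ 0 → r e = 0) ∨
      (∀ e, Q e ≠ 0 → r e = 0) ∨ (∀ e, R e ≠ 0 → r e = 0)) := by
  have h1 : ∃ u ∈ Z, u ≠ 0 ∧ supp u ⊆ U ∧ supp u ⊆ supp z := by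
    by_contra hcon
    push Not at hcon
    exact hbad (lift_circ hD hz hzD hcon)
  obtain ⟨u, hu, hu0, huU, hsub⟩ := h1
  have h2 : ∀ e, u e ≠ 0 → (z + u) e = 0 := by
    intro e he
    rw [Pi.add_apply]
    exact z2_add_ne (mem_supp.mp (hsub (mem_supp.mpr he))) he
  refine ⟨z + u, Z.add_mem hz hu, by rw [map_add, hzD, con_eq_zero.mpr huU, add_zero], ?_⟩
  rcases h.all u hu huU with rfl | rfl | rfl | rfl
  · exact absurd rfl hu0
  · exact Or.inl h2
  · exact Or.inr (Or.inl h2)
  · exact Or.inr (Or.inr h2)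

lemma Theta.fiber {Z : Submodule (ZMod 2) (Vc E)} {U : Finset E} {P Q R : Vc E} (h : Theta Z U P Q R)
    {s : E → ℝ} (hs : ∀ e, 0 ≤ s e) (hW : ∑ e ∈ U, s e ≤ 3/2) (hP : ∑ e ∈ U, s e - wt s P ≤ 5/6)
    (hQ : ∑ e ∈ U, s e - wt s Q ≤ 5/6) (hR : ∑ e ∈ U, s e - wt s R ≤ 5/6)
    {D : Vc E} (hD : IsCirc (Z.map (con U)) D) :
    ∃ L : Finset (Vc E), (∀ c ∈ L, IsCirc Z c ∧ con U c = D) ∧ q (wt s D) ≤ ∑ c ∈ L, q (wt s c) := by
  by_cases hDZ : D ∈ Z
  · exact fiber_one s hD hDZ
  · have main : ∀ r ∈ Z, con U r = D → ((∀ e, P e ≠ 0 → r e = 0) ∨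
      (∀ e, Q e ≠ 0 → r e = 0) ∨ (∀ e, R e ≠ 0 → r e = 0)) → 
      ∃ L : Finset (Vc E), (∀ c ∈ L, IsCirc Z c ∧ con U c = D) ∧ q (wt s D) ≤ ∑ c ∈ L, q (wt s c) := by
      intro r hr hrD h3
      rcases h3 with h3 | h3 | h3
      · exact h.fiberP hs hW hP hD hDZ hr hrD h3
      · exact h.swap.fiberP hs hW hQ hD hDZ hr hrD h3
      · exact h.rot.fiberP hs hW hR hD hDZ hr hrD h3
    have hD' := hD
    obtain ⟨z, hz, hzD⟩ := hD'.1
    have conP : con U P = 0 := con_eq_zero.mpr h.suppP
    have conQ : con U Q = 0 := con_eq_zero.mpr h.swap.suppP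
    have conR : con U R = 0 := con_eq_zero.mpr h.rot.suppP
    have zP : con U (z + P) = D := by rw [map_add, hzD, conP, add_zero]
    have zQ : con U (z + Q) = D := by rw [map_add, hzD, conQ, add_zero]
    have zR : con U (z + R) = D := by rw [map_add, hzD, conR, add_zero]
    have mP := Z.add_mem hz h.cP.1
    have mQ := Z.add_mem hz h.cQ.1
    have mR := Z.add_mem hz h.cR.1
    by_cases c0 : IsCirc Z z
    swap
    · obtain ⟨r, hr, hrD, h3⟩ := h.bad hD hz hzD c0
      exact main r hr hrD h3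
    by_cases cP : IsCirc Z (z + P)
    swap
    · obtain ⟨r, hr, hrD, h3⟩ := h.bad hD mP zP cP
      exact main r hr hrD h3
    by_cases cQ : IsCirc Z (z + Q)
    swap
    · obtain ⟨r, hr, hrD, h3⟩ := h.bad hD mQ zQ cQ
      exact main r hr hrD h3
    by_cases cR : IsCirc Z (z + R)
    swap
    · obtain ⟨r, hr, hrD, h3⟩ := h.bad hD mR zR cR
      exact main r hr hrD h3
    refine ⟨{z, z + P, z + Q, z + R}, ?_, ?_⟩
    · intro c hc
      simp only [Finset.mem_insert, Finset.mem_singleton] at hc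
      rcases hc with rfl | rfl | rfl | rfl
      · exact ⟨c0, hzD⟩
      · exact ⟨cP, zP⟩
      · exact ⟨cQ, zQ⟩
      · exact ⟨cR, zR⟩
    · have n1 : z ≠ z + P := fun h0 => h.cP.2.1 (left_eq_add.mp h0)
      have n2 : z ≠ z + Q := fun h0 => h.cQ.2.1 (left_eq_add.mp h0)
      have n3 : z ≠ z + R := fun h0 => h.cR.2.1 (left_eq_add.mp h0)
      have n4 : z + P ≠ z + Q := fun h0 => h.ne (add_left_cancel h0)
      have n5 : z + P ≠ z + R := fun h0 => h.rot.ne (add_left_cancel h0).symm
      have n6 : z + Q ≠ z + R := fun h0 => h.rot.rot.ne (add_left_cancel h0)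
      rw [Finset.sum_insert, Finset.sum_insert, Finset.sum_pair n6]
      · rw [wt_split s U z, wt_split s U (z + P), wt_split s U (z + Q), wt_split s U (z + R), hzD, zP, zQ, zR,
          ← add_assoc, ← add_assoc]
        apply CycQ.fib4 (wt_nonneg hs _)
        have := h.w4 s z
        linarith
      · simp only [Finset.mem_insert, Finset.mem_singleton, not_or]
        exact ⟨n4, n5⟩
      · simp only [Finset.mem_insert, Finset.mem_singleton, not_or]
        exact ⟨n1, n2, n3⟩

def Ineq (Z : Submodule (ZMod 2) (Vc E)) (A : Finset E) (s : E → ℝ) : Prop :=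
  (Module.finrank (ZMod 2) Z : ℝ) ≤ ∑ e ∈ A, s e + ∑ c ∈ circ Z, q (wt s c)

/-- the inequality for all spaces of smaller dimension -/
def AllLt (E : Type*) [Fintype E] (d : ℕ) : Prop :=
  ∀ (Z : Submodule (ZMod 2) (Vc E)) (A : Finset E) (s : E → ℝ),
    Module.finrank (ZMod 2) Z < d → (∀ z ∈ Z, supp z ⊆ A) → (∀ e, 0 ≤ s e) → Ineq Z A s

lemma map_lt {Z : Submodule (ZMod 2) (Vc E)} {U : Finset E} {C : Vc E} (hC : C ∈ Z) (hC0 : C ≠ 0)
    (hCU : supp C ⊆ U) : Module.finrank (ZMod 2) (Z.map (con U)) < Module.finrank (ZMod 2) Z := by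
  have h1 := finrank_split Z (con U)
  have h2 : 0 < Module.finrank (ZMod 2) (Z ⊓ LinearMap.ker (con U) : Submodule (ZMod 2) (Vc E)) := by
    rw [Module.finrank_pos_iff_exists_ne_zero]
    refine ⟨⟨C, hC, ?_⟩, ?_⟩
    · exact con_eq_zero.mpr hCU
    · intro h
      exact hC0 (congrArg Subtype.val h)
  omega

lemma IH_map {d : ℕ} (IH : AllLt E d) {Z : Submodule (ZMod 2) (Vc E)}
    (hZ : Module.finrank (ZMod 2) Z = d) {A : Finset E} (hA : ∀ z ∈ Z, supp z ⊆ A)
    {s : E → ℝ} (hs : ∀ e, 0 ≤ s e) {U : Finset E} {C : Vc E} (hC : C ∈ Z) (hC0 : C ≠ 0)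
    (hCU : supp C ⊆ U) : (Module.finrank (ZMod 2) (Z.map (con U)) : ℝ) ≤
      ∑ e ∈ A \ U, s e + ∑ c ∈ circ (Z.map (con U)), q (wt s c) := by
  apply IH (Z.map (con U)) (A \ U) s (by rw [← hZ]; exact map_lt hC hC0 hCU) _ hs
  rintro _ ⟨z, hz, rfl⟩
  rw [supp_con]
  exact Finset.sdiff_subset_sdiff (hA z hz) (le_refl _)

lemma theta_step {d : ℕ} (IH : AllLt E d) {Z : Submodule (ZMod 2) (Vc E)}
    (hZ : Module.finrank (ZMod 2) Z = d) {A : Finset E} (hA : ∀ z ∈ Z, supp z ⊆ A)
    {s : E → ℝ} (hs : ∀ e, 0 ≤ s e) {U : Finset E} {P Q R : Vc E} (h : Theta Z U P Q R)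
    (hW : ∑ e ∈ U, s e ≤ 3/2) (hP : ∑ e ∈ U, s e - wt s P ≤ 5/6)
    (hQ : ∑ e ∈ U, s e - wt s Q ≤ 5/6) (hR : ∑ e ∈ U, s e - wt s R ≤ 5/6) : Ineq Z A s := by
  have hUA : U ⊆ A := by
    intro e he
    rw [h.sub] at he
    rcases he with he | he
    · exact hA P h.cP.1 (mem_supp.mpr he)
    · exact hA Q h.cQ.1 (mem_supp.mpr he)
  apply contract_step hUA s (IH_map IH hZ hA hs h.cP.1 h.cP.2.1 h.suppP) {P, Q, R}
  · intro c hc
    simp only [Finset.mem_insert, Finset.mem_singleton] at hc
    rcases hc with rfl | rfl | rfl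
    · exact ⟨h.cP, h.suppP⟩
    · exact ⟨h.cQ, h.swap.suppP⟩
    · exact ⟨h.cR, h.rot.suppP⟩
  · have h1 : Module.finrank (ZMod 2) (Z ⊓ LinearMap.ker (con U) : Submodule (ZMod 2) (Vc E)) ≤ 2 := by
      have h2 : (Z ⊓ LinearMap.ker (con U) : Submodule (ZMod 2) (Vc E)) ≤
          Submodule.span (ZMod 2) (({P, Q} : Finset (Vc E)) : Set (Vc E)) := by
        intro z hz
        have hzU : supp z ⊆ U := con_eq_zero.mp hz.2
        have mP : P ∈ Submodule.span (ZMod 2) (({P, Q} : Finset (Vc E)) : Set (Vc E)) :=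
          Submodule.subset_span (by simp)
        have mQ : Q ∈ Submodule.span (ZMod 2) (({P, Q} : Finset (Vc E)) : Set (Vc E)) :=
          Submodule.subset_span (by simp)
        rcases h.all z hz.1 hzU with h0 | h0 | h0 | h0
        · rw [h0]; exact Submodule.zero_mem _
        · rw [h0]; exact mP
        · rw [h0]; exact mQ
        · rw [h0, ← h.sum]; exact Submodule.add_mem _ mP mQ
      refine (Submodule.finrank_mono h2).trans ?_
      refine (finrank_span_finset_le_card ({P, Q} : Finset (Vc E))).trans ?_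
      exact Finset.card_le_two
    have h2 : ∑ c ∈ ({P, Q, R} : Finset (Vc E)), q (wt s c) = q (wt s P) + q (wt s Q) + q (wt s R) := by
      rw [Finset.sum_insert, Finset.sum_pair h.rot.rot.ne, add_assoc]
      simp only [Finset.mem_insert, Finset.mem_singleton, not_or]
      exact ⟨h.ne, h.rot.ne.symm⟩
    rw [h2]
    have h3 := theta3 (wt s P) (wt s Q) (wt s R)
    have h4 := h.wsum s
    have h5 : (Module.finrank (ZMod 2) (Z ⊓ LinearMap.ker (con U) : Submodule (ZMod 2) (Vc E)) : ℝ) ≤ 2 := by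
      exact_mod_cast h1
    linarith
  · intro D hD
    exact h.fiber hs hW hP hQ hR hD

lemma circ_sub_eq {Z : Submodule (ZMod 2) (Vc E)} {C u : Vc E} (hC : IsCirc Z C) (hu : u ∈ Z)
    (hsub : supp u ⊆ supp C) : u = 0 ∨ u = C := by
  by_cases h : u = 0
  · exact Or.inl h
  · exact Or.inr (hC.2.2 u hu h hsub)

lemma case_short {d : ℕ} (IH : AllLt E d) {Z : Submodule (ZMod 2) (Vc E)}
    (hZ : Module.finrank (ZMod 2) Z = d) {A : Finset E} (hA : ∀ z ∈ Z, supp z ⊆ A)
    {s : E → ℝ} (hs : ∀ e, 0 ≤ s e) {C : Vc E} (hC : IsCirc Z C) (hy : wt s C ≤ 5/6) : Ineq Z A s := by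
  have conC : con (supp C) C = 0 := con_eq_zero.mpr (le_refl _)
  -- both lifts are circuits
  have lifts : ∀ D z, IsCirc (Z.map (con (supp C))) D → D ∉ Z → z ∈ Z → con (supp C) z = D → IsCirc Z z := by
    intro D z hD hDZ hz hzD
    apply lift_circ hD hz hzD
    intro u hu hu0 huC hsub
    rcases circ_sub_eq hC hu huC with rfl | rfl
    · exact hu0 rfl
    · apply hDZ
      have : D = z + u := by
        rw [← hzD]
        funext e
        rw [Pi.add_apply]
        by_cases he : e ∈ supp u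
        · rw [con_of_mem he]
          exact (z2_add_ne (mem_supp.mp (hsub he)) (mem_supp.mp he)).symm
        · rw [con_of_notMem he, notMem_supp.mp he, add_zero]
      rw [this]
      exact Z.add_mem hz hu
  by_cases hcase : ∀ D, IsCirc (Z.map (con (supp C))) D → D ∈ Z ∨ 2/3 ≤ wt s D
  · apply contract_step (hA C hC.1) s (IH_map IH hZ hA hs hC.1 hC.2.1 (le_refl _)) {C}
    · intro c hc
      rw [Finset.mem_singleton] at hc
      subst hc
      exact ⟨hC, le_refl _⟩
    · have h1 : Module.finrank (ZMod 2) (Z ⊓ LinearMap.ker (con (supp C)) : Submodule (ZMod 2) (Vc E)) ≤ 1 := by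
        have h2 : (Z ⊓ LinearMap.ker (con (supp C)) : Submodule (ZMod 2) (Vc E)) ≤
            Submodule.span (ZMod 2) (({C} : Finset (Vc E)) : Set (Vc E)) := by
          intro z hz
          have hzU : supp z ⊆ supp C := con_eq_zero.mp hz.2
          have mC : C ∈ Submodule.span (ZMod 2) (({C} : Finset (Vc E)) : Set (Vc E)) :=
            Submodule.subset_span (by simp)
          rcases circ_sub_eq hC hz.1 hzU with h0 | h0
          · rw [h0]; exact Submodule.zero_mem _
          · rw [h0]; exact mC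
        refine (Submodule.finrank_mono h2).trans ?_
        refine (finrank_span_finset_le_card ({C} : Finset (Vc E))).trans ?_
        simp
      have h5 : (Module.finrank (ZMod 2) (Z ⊓ LinearMap.ker (con (supp C)) : Submodule (ZMod 2) (Vc E)) : ℝ) ≤ 1 := by
        exact_mod_cast h1
      rw [Finset.sum_singleton]
      have h6 := loop1 (wt s C)
      have h7 : ∑ e ∈ supp C, s e = wt s C := rfl
      rw [h7]
      linarith
    · intro D hD
      by_cases hDZ : D ∈ Z
      · exact fiber_one s hD hDZ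
      · have hx : 2/3 ≤ wt s D := by
          rcases hcase D hD with h0 | h0
          · exact absurd h0 hDZ
          · exact h0
        obtain ⟨z, hz, hzD⟩ := hD.1
        have hzC : con (supp C) (z + C) = D := by rw [map_add, hzD, conC, add_zero]
        have c1 := lifts D z hD hDZ hz hzD
        have c2 := lifts D (z + C) hD hDZ (Z.add_mem hz hC.1) hzC
        have hne : z ≠ z + C := fun h0 => hC.2.1 (left_eq_add.mp h0)
        refine ⟨{z, z + C}, ?_, ?_⟩
        · intro c hc
          simp only [Finset.mem_insert, Finset.mem_singleton] at hc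
          rcases hc with rfl | rfl
          · exact ⟨c1, hzD⟩
          · exact ⟨c2, hzC⟩
        · rw [Finset.sum_pair hne, wt_split s (supp C) z, wt_split s (supp C) (z + C), hzD, hzC]
          apply CycQ.fib2 hx
          have : wU s (supp C) z + wU s (supp C) (z + C) = wt s C := by
            rw [wU_eq, wU_eq, wt_eq s (le_refl (supp C)), ← Finset.sum_add_distrib]
            apply Finset.sum_congr rfl
            intro e he
            rw [mem_supp] at he
            have h11 : (1 : ZMod 2) + 1 = 0 := by decide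
            rcases z2 (C e) with h1 | h1
            · exact absurd h1 he
            · rcases z2 (z e) with h2 | h2
              · simp [h1, h2]
              · simp [h1, h2, h11]
          rw [this]; exact hy
  · push Not at hcase
    obtain ⟨D, hD, hDZ, hx⟩ := hcase
    obtain ⟨z, hz, hzD⟩ := hD.1
    have hzC : con (supp C) (C + z) = D := by rw [map_add, hzD, conC, zero_add]
    have c1 := lifts D z hD hDZ hz hzD
    have c2 := lifts D (C + z) hD hDZ (Z.add_mem hC.1 hz) hzC
    have hDsupp : supp D = supp z \ supp C := by rw [← hzD, supp_con]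
    have hth : Theta Z (supp C ∪ supp D) C z (C + z) := by
      refine ⟨hC, c1, c2, rfl, ?_, ?_⟩
      · intro e
        rw [Finset.mem_union, hDsupp, Finset.mem_sdiff, mem_supp, mem_supp]
        tauto
      · intro w hw hwU
        by_cases h1 : con (supp C) w = 0
        · rcases circ_sub_eq hC hw (con_eq_zero.mp h1) with h2 | h2
          · exact Or.inl h2
          · exact Or.inr (Or.inl h2)
        · have h2 : con (supp C) w = D := by
            apply hD.2.2 _ (Submodule.mem_map_of_mem hw) h1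
            rw [supp_con]
            intro e he
            rw [Finset.mem_sdiff] at he
            have := hwU he.1
            rw [Finset.mem_union] at this
            rcases this with h3 | h3
            · exact absurd h3 he.2
            · exact h3
          have h3 : con (supp C) (w + z) = 0 := by rw [map_add, h2, hzD, add_self']
          have h4 : w = (w + z) + z := by
            have := add_self' z
            rw [add_assoc, this, add_zero]
          rcases circ_sub_eq hC (Z.add_mem hw hz) (con_eq_zero.mp h3) with h5 | h5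
          · right; right; left
            rw [h4, h5, zero_add]
          · right; right; right
            rw [h4, h5]
    have hWeq : ∑ e ∈ supp C ∪ supp D, s e = wt s C + wt s D := by
      rw [Finset.sum_union]
      · rfl
      · rw [hDsupp]; exact Finset.disjoint_sdiff
    have w1 := wt_split s (supp C) z
    have w2 := wt_split s (supp C) (C + z)
    have n1 := wU_nonneg hs (supp C) z
    have n2 := wU_nonneg hs (supp C) (C + z)
    rw [hzD] at w1
    rw [hzC] at w2
    have n3 := wt_nonneg hs D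
    apply theta_step IH hZ hA hs hth
    · rw [hWeq]; linarith
    · rw [hWeq]; linarith
    · rw [hWeq]; linarith
    · rw [hWeq]; linarith

def fval (Z : Submodule (ZMod 2) (Vc E)) (A : Finset E) (s : E → ℝ) : ℝ :=
  ∑ e ∈ A, s e + ∑ c ∈ circ Z, q (wt s c)

lemma fval_continuous (Z : Submodule (ZMod 2) (Vc E)) (A : Finset E) : Continuous (fval Z A) := by
  unfold fval wt
  apply Continuous.add
  · fun_prop
  · apply continuous_finsetSum
    intro c _
    apply q_continuous.comp
    fun_prop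

lemma exp_le_quad {x : ℝ} (h0 : 0 ≤ x) (h1 : x ≤ 1) : Real.exp x - 1 ≤ x + x ^ 2 := by
  have := Real.abs_exp_sub_one_sub_id_le (x := x) (by rw [abs_of_nonneg h0]; exact h1)
  have := (abs_le.mp this).2
  linarith

lemma case_long {d : ℕ} (IH : AllLt E d) {Z : Submodule (ZMod 2) (Vc E)}
    (hZ : Module.finrank (ZMod 2) Z = d) {A : Finset E} (hA : ∀ z ∈ Z, supp z ⊆ A)
    {s : E → ℝ} (hs : ∀ e, 0 ≤ s e) (hmin : ∀ s' : E → ℝ, (∀ e, 0 ≤ s' e) → (∀ e, s' e ≤ s e) →
      fval Z A s ≤ fval Z A s') (hlong : ∀ c, IsCirc Z c → 5/6 < wt s c)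
    {C : Vc E} (hC : IsCirc Z C) : Ineq Z A s := by
  -- an edge of positive weight
  have h1 : ∃ e ∈ supp C, 0 < s e := by
    by_contra hcon
    push Not at hcon
    have : wt s C ≤ 0 := Finset.sum_nonpos hcon
    linarith [hlong C hC]
  obtain ⟨e, heC, hse⟩ := h1
  have hCe := mem_supp.mp heC
  set T := (circ Z).filter (fun c => c e ≠ 0) with hT
  set S := ∑ c ∈ T, q (wt s c) with hS
  have hTC : C ∈ T := by
    rw [hT, Finset.mem_filter, mem_circ]; exact ⟨hC, hCe⟩
  -- a safe step
  obtain ⟨c0, hc0, hc0min⟩ := Finset.exists_min_image T (fun c => wt s c) ⟨C, hTC⟩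
  have hc0' : 5/6 < wt s c0 := by
    apply hlong
    rw [hT, Finset.mem_filter, mem_circ] at hc0
    exact hc0.1
  have hstep : ∀ t : ℝ, 0 < t → t ≤ s e → t ≤ wt s c0 - 5/6 → t ≤ (Real.exp t - 1) * S := by
    intro t ht hts htc
    have hm := hmin (Function.update s e (s e - t)) (by
      intro e'
      by_cases h : e' = e
      · subst h; rw [Function.update_self]; linarith
      · rw [Function.update_of_ne h]; exact hs e') (by
      intro e'
      by_cases h : e' = e
      · subst h; rw [Function.update_self]; linarith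
      · rw [Function.update_of_ne h])
    have hw : ∀ c : Vc E, wt (Function.update s e (s e - t)) c = wt s c - (if c e ≠ 0 then t else 0) := by
      intro c
      unfold wt
      by_cases h : c e ≠ 0
      · rw [if_pos h, ← Finset.sum_erase_add _ _ (mem_supp.mpr h), ← Finset.sum_erase_add _ s (mem_supp.mpr h),
          Function.update_self]
        have : ∑ x ∈ (supp c).erase e, Function.update s e (s e - t) x = ∑ x ∈ (supp c).erase e, s x := by
          apply Finset.sum_congr rfl
          intro x hx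
          rw [Function.update_of_ne (Finset.ne_of_mem_erase hx)]
        rw [this]; ring
      · rw [if_neg h, sub_zero]
        apply Finset.sum_congr rfl
        intro x hx
        rw [Function.update_of_ne]
        rintro rfl
        exact h (mem_supp.mp hx)
    have heA : e ∈ A := hA C hC.1 heC
    have hA' : ∑ x ∈ A, Function.update s e (s e - t) x = ∑ x ∈ A, s x - t := by
      rw [← Finset.sum_erase_add _ _ heA, ← Finset.sum_erase_add _ s heA, Function.update_self]
      have : ∑ x ∈ A.erase e, Function.update s e (s e - t) x = ∑ x ∈ A.erase e, s x := by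
        apply Finset.sum_congr rfl
        intro x hx
        rw [Function.update_of_ne (Finset.ne_of_mem_erase hx)]
      rw [this]; ring
    have hsplit : ∀ g : Vc E → ℝ, ∑ c ∈ circ Z, g c = ∑ c ∈ T, g c + ∑ c ∈ (circ Z).filter (fun c => ¬ c e ≠ 0), g c := by
      intro g
      rw [hT]
      exact (Finset.sum_filter_add_sum_filter_not _ _ _).symm
    unfold fval at hm
    rw [hA', hsplit, hsplit (fun c => q (wt (Function.update s e (s e - t)) c))] at hm
    have h2 : ∑ c ∈ (circ Z).filter (fun c => ¬ c e ≠ 0), q (wt (Function.update s e (s e - t)) c) =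
        ∑ c ∈ (circ Z).filter (fun c => ¬ c e ≠ 0), q (wt s c) := by
      apply Finset.sum_congr rfl
      intro c hc
      rw [Finset.mem_filter] at hc
      rw [hw, if_neg hc.2, sub_zero]
    have h3 : ∑ c ∈ T, q (wt (Function.update s e (s e - t)) c) = Real.exp t * S := by
      rw [hS, Finset.mul_sum]
      apply Finset.sum_congr rfl
      intro c hc
      have h4 := hc0min c hc
      rw [hT, Finset.mem_filter] at hc
      rw [hw, if_pos hc.2, q_exp (by linarith), q_exp (by linarith)]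
      have : (5/6 - (wt s c - t)) = t + (5/6 - wt s c) := by ring
      rw [this, Real.exp_add]; ring
    rw [h2, h3] at hm
    linarith
  have hS1 : 1 ≤ S := by
    by_contra hcon
    push Not at hcon
    have hS0 : 0 ≤ S := Finset.sum_nonneg (fun c _ => q_nonneg _)
    set t := min (min (s e) (wt s c0 - 5/6)) (min ((1 - S)/2) 1) with ht
    have ht0 : 0 < t := by
      rw [ht]
      apply lt_min (lt_min hse (by linarith)) (lt_min (by linarith) one_pos)
    have ht1 : t ≤ s e := (min_le_left _ _).trans (min_le_left _ _)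
    have ht2 : t ≤ wt s c0 - 5/6 := (min_le_left _ _).trans (min_le_right _ _)
    have ht3 : t ≤ (1 - S)/2 := (min_le_right _ _).trans (min_le_left _ _)
    have ht4 : t ≤ 1 := (min_le_right _ _).trans (min_le_right _ _)
    have h5 := hstep t ht0 ht1 ht2
    have h6 := exp_le_quad ht0.le ht4
    have h7 : t ≤ (t + t^2) * S := h5.trans (mul_le_mul_of_nonneg_right h6 hS0)
    have h8 : 1 ≤ (1 + t) * S := by
      have : t * 1 ≤ t * ((1 + t) * S) := by nlinarith
      exact le_of_mul_le_mul_left this ht0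
    nlinarith
  -- deletion of `e`
  set f : Vc E →ₗ[ZMod 2] ZMod 2 := LinearMap.proj e with hf
  set Z' : Submodule (ZMod 2) (Vc E) := Z ⊓ LinearMap.ker f with hZ'
  have hmemZ' : ∀ z, z ∈ Z' ↔ z ∈ Z ∧ z e = 0 := by
    intro z
    rw [hZ', Submodule.mem_inf, LinearMap.mem_ker, hf, LinearMap.proj_apply]
  have hr1 := finrank_split Z f
  have hr2 : Module.finrank (ZMod 2) (Z.map f) ≤ 1 := by
    refine (Submodule.finrank_le _).trans ?_
    rw [Module.finrank_self]
  have hr3 : Module.finrank (ZMod 2) Z' < d := by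
    rw [← hZ]
    apply Submodule.finrank_lt_finrank_of_lt
    rw [lt_iff_le_and_ne]
    refine ⟨inf_le_left, ?_⟩
    intro h0
    have : C ∈ Z' := by rw [h0]; exact hC.1
    exact hCe ((hmemZ' C).mp this).2
  have hIH := IH Z' (A.erase e) s hr3 (by
    intro z hz
    rw [hmemZ'] at hz
    intro x hx
    rw [Finset.mem_erase]
    refine ⟨?_, hA z hz.1 hx⟩
    rintro rfl
    exact mem_supp.mp hx hz.2) hs
  unfold Ineq at hIH ⊢
  have heA : e ∈ A := hA C hC.1 heC
  rw [← Finset.sum_erase_add _ s heA, ← Finset.sum_filter_add_sum_filter_not (circ Z) (fun c => c e ≠ 0)]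
  have h9 : ∑ c ∈ circ Z', q (wt s c) ≤ ∑ c ∈ (circ Z).filter (fun c => ¬ c e ≠ 0), q (wt s c) := by
    apply Finset.sum_le_sum_of_subset_of_nonneg
    · intro c hc
      rw [mem_circ] at hc
      rw [Finset.mem_filter, mem_circ, not_not]
      have h10 := (hmemZ' c).mp hc.1
      refine ⟨⟨h10.1, hc.2.1, ?_⟩, h10.2⟩
      intro z hz hz0 hsub
      apply hc.2.2 z _ hz0 hsub
      rw [hmemZ']
      refine ⟨hz, ?_⟩
      rw [← notMem_supp]
      intro h11
      exact mem_supp.mp (hsub h11) h10.2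
    · intros; exact q_nonneg _
  have h10 : (Module.finrank (ZMod 2) Z : ℝ) ≤ Module.finrank (ZMod 2) Z' + 1 := by
    have : Module.finrank (ZMod 2) Z ≤ Module.finrank (ZMod 2) Z' + 1 := by
      rw [hZ', ← hr1]; omega
    exact_mod_cast this
  have h11 : ∑ c ∈ (circ Z).filter (fun c => c e ≠ 0), q (wt s c) = S := rfl
  rw [h11]
  linarith [hse]

theorem ineq_all (d : ℕ) : AllLt E d := by
  induction d with
  | zero => intro Z A s h; exact absurd h (Nat.not_lt_zero _)
  | succ d IH =>
    intro Z A s hd hA hs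
    rcases Nat.lt_succ_iff_lt_or_eq.mp hd with h | h
    · exact IH Z A s h hA hs
    · by_cases hbot : Z = ⊥
      · unfold Ineq
        rw [hbot, finrank_bot]
        have h1 : 0 ≤ ∑ e ∈ A, s e := Finset.sum_nonneg (fun e _ => hs e)
        have h2 : 0 ≤ ∑ c ∈ circ (⊥ : Submodule (ZMod 2) (Vc E)), q (wt s c) :=
          Finset.sum_nonneg (fun c _ => q_nonneg _)
        push_cast
        linarith
      · obtain ⟨z, hz, hz0⟩ := Submodule.exists_mem_ne_zero_of_ne_bot hbot
        obtain ⟨C, hC, _⟩ := exists_circ_sub hz hz0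
        have hcomp : IsCompact (Set.Icc (0 : E → ℝ) s) := isCompact_Icc
        have hne : (Set.Icc (0 : E → ℝ) s).Nonempty := ⟨0, le_refl _, fun e => hs e⟩
        obtain ⟨s', hs', hmin⟩ := hcomp.exists_isMinOn hne (fval_continuous Z A).continuousOn
        have hs0 : ∀ e, 0 ≤ s' e := fun e => hs'.1 e
        have hs1 : ∀ e, s' e ≤ s e := fun e => hs'.2 e
        have key : Ineq Z A s' := by
          by_cases hshort : ∃ c, IsCirc Z c ∧ wt s' c ≤ 5/6
          · obtain ⟨c, hc, hc1⟩ := hshort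
            exact case_short IH h hA hs0 hc hc1
          · push Not at hshort
            apply case_long IH h hA hs0 _ hshort hC
            intro s'' h1 h2
            exact hmin ⟨fun e => h1 e, fun e => (h2 e).trans (hs1 e)⟩
        have h3 : fval Z A s' ≤ fval Z A s := hmin ⟨fun e => hs e, le_refl _⟩
        unfold Ineq at key ⊢
        unfold fval at h3
        exact key.trans h3

/-- The main inequality for binary spaces. -/
theorem main_ineq (Z : Submodule (ZMod 2) (Vc E)) (s : E → ℝ) (hs : ∀ e, 0 ≤ s e) :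
    (Module.finrank (ZMod 2) Z : ℝ) ≤ ∑ e, s e + ∑ c ∈ circ Z, q (wt s c) :=
  ineq_all (Module.finrank (ZMod 2) Z + 1) Z Finset.univ s (Nat.lt_succ_self _)
    (fun _ _ => Finset.subset_univ _) hs

/-! ### graphs -/

section graph

variable {V : Type*} [Fintype V] (G : SimpleGraph V)

/-- boundary map of a graph -/
def bd : Vc G.edgeSet →ₗ[ZMod 2] (V → ZMod 2) where
  toFun z := fun v => ∑ e : G.edgeSet, if v ∈ (e : Sym2 V) then z e else 0
  map_add' x y := by
    funext v
    rw [Pi.add_apply, ← Finset.sum_add_distrib]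
    apply Finset.sum_congr rfl
    intro e _
    by_cases h : v ∈ (e : Sym2 V) <;> simp [h]
  map_smul' c x := by
    funext v
    simp only [RingHom.id_apply, Pi.smul_apply, smul_eq_mul]
    rw [Finset.mul_sum]
    apply Finset.sum_congr rfl
    intro e _
    by_cases h : v ∈ (e : Sym2 V) <;> simp [h]

lemma bd_apply (z : Vc G.edgeSet) (v : V) :
    bd G z v = ∑ e : G.edgeSet, if v ∈ (e : Sym2 V) then z e else 0 := rfl

/-- cycle space -/
def cyc : Submodule (ZMod 2) (Vc G.edgeSet) := LinearMap.ker (bd G)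

lemma finrank_cyc : Fintype.card G.edgeSet ≤ Fintype.card V + Module.finrank (ZMod 2) (cyc G) := by
  have h1 := (bd G).finrank_range_add_finrank_ker
  rw [Module.finrank_fintype_fun_eq_card] at h1
  have h2 : Module.finrank (ZMod 2) (LinearMap.range (bd G)) ≤ Fintype.card V := by
    refine (Submodule.finrank_le _).trans ?_
    rw [Module.finrank_fintype_fun_eq_card]
  have h3 : Module.finrank (ZMod 2) (cyc G) = Module.finrank (ZMod 2) (LinearMap.ker (bd G)) := rfl
  omega

/-- the graph of the edges in the support of `c` -/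
def sg (c : Vc G.edgeSet) : SimpleGraph V where
  Adj u w := ∃ h : s(u, w) ∈ G.edgeSet, c ⟨s(u, w), h⟩ ≠ 0
  symm := ⟨by
    rintro u w ⟨h, hc⟩
    have h' : s(w, u) ∈ G.edgeSet := by rw [Sym2.eq_swap]; exact h
    refine ⟨h', ?_⟩
    have : (⟨s(w, u), h'⟩ : G.edgeSet) = ⟨s(u, w), h⟩ := by
      apply Subtype.ext; exact Sym2.eq_swap
    rw [this]; exact hc⟩
  loopless := ⟨by
    rintro u ⟨h, _⟩
    rw [SimpleGraph.mem_edgeSet] at h
    exact G.loopless.irrefl u h⟩

variable {G}

lemma sg_le (c : Vc G.edgeSet) : sg G c ≤ G := by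
  intro u w h
  obtain ⟨h1, _⟩ := h
  exact h1

lemma second_nbr {c : Vc G.edgeSet} (hc : c ∈ cyc G) {v w0 : V} (h : (sg G c).Adj v w0) :
    ∃ w, (sg G c).Adj v w ∧ w ≠ w0 := by
  obtain ⟨h0, hc0⟩ := h
  have h1 : bd G c v = 0 := by
    have : bd G c = 0 := hc
    rw [this]; rfl
  rw [bd_apply] at h1
  by_contra hcon
  push Not at hcon
  have h2 : ∑ e : G.edgeSet, (if v ∈ (e : Sym2 V) then c e else 0) = c ⟨s(v, w0), h0⟩ := by
    rw [Finset.sum_eq_single (⟨s(v, w0), h0⟩ : G.edgeSet)]
    · rw [if_pos (Sym2.mem_mk_left v w0)]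
    · intro e _ hne
      by_cases hv : v ∈ (e : Sym2 V)
      · rw [if_pos hv]
        by_contra hce
        obtain ⟨w, hw⟩ := Sym2.mem_iff_exists.mp hv
        have he : s(v, w) ∈ G.edgeSet := by rw [← hw]; exact e.2
        have he2 : e = ⟨s(v, w), he⟩ := Subtype.ext hw
        have := hcon w ⟨he, by rw [← he2]; exact hce⟩
        apply hne
        rw [he2]
        apply Subtype.ext
        show s(v, w) = s(v, w0)
        rw [this]
      · rw [if_neg hv]
    · intro hne
      exact absurd (Finset.mem_univ _) hne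
  rw [h2] at h1
  exact hc0 h1

lemma sg_not_acyclic {c : Vc G.edgeSet} (hc : c ∈ cyc G) (hc0 : c ≠ 0) : ¬ (sg G c).IsAcyclic := by
  intro hac
  -- an edge
  have h1 : ∃ e, c e ≠ 0 := by
    by_contra hcon
    push Not at hcon
    exact hc0 (funext hcon)
  obtain ⟨⟨e, he⟩, hce⟩ := h1
  induction e using Sym2.ind with
  | _ a b =>
  have hab : (sg G c).Adj a b := ⟨he, hce⟩
  -- a longest path
  let P : ℕ → Prop := fun l => ∃ (u v : V) (p : (sg G c).Walk u v), p.IsPath ∧ p.length = l
  have hP1 : P 1 := by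
    refine ⟨a, b, SimpleGraph.Walk.cons hab SimpleGraph.Walk.nil, ?_, rfl⟩
    simp [hab.ne]
  have hbound : ∀ l, P l → l ≤ Fintype.card V := by
    rintro l ⟨u, v, p, hp, rfl⟩
    exact hp.length_lt.le
  obtain ⟨u, v, p, hp, hpl⟩ := Nat.findGreatest_spec (P := P) (m := 1) (hbound 1 hP1) hP1
  set L := Nat.findGreatest P (Fintype.card V) with hL
  have hL1 : 1 ≤ L := Nat.le_findGreatest (hbound 1 hP1) hP1
  have hnil : ¬ p.Nil := by
    intro h
    have := SimpleGraph.Walk.length_eq_zero_iff.mpr h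
    omega
  obtain ⟨w, hw, hne⟩ := second_nbr hc (p.adj_penultimate hnil).symm
  by_cases hws : w ∈ p.support
  · exact hne (hac.eq_penultimate_of_adj_end hp hw hws)
  · have h2 : P (L + 1) := by
      refine ⟨u, w, p.concat hw, hp.concat hws hw, ?_⟩
      rw [SimpleGraph.Walk.length_concat, hpl]
    have h3 : L + 1 ≤ L := Nat.le_findGreatest (hbound _ h2) h2
    omega

/-- the vector of a cycle -/
lemma cycle_mem {u : V} (p : G.Walk u u) (hp : p.IsCycle) :
    (fun e : G.edgeSet => if (e : Sym2 V) ∈ p.edges then (1 : ZMod 2) else 0) ∈ cyc G := by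
  show bd G _ = 0
  funext v
  rw [bd_apply, Pi.zero_apply]
  have h1 := (hp.isTrail.even_countP_edges_iff v).mpr (fun h => absurd rfl h)
  have h2 : ∑ e : G.edgeSet, (if v ∈ (e : Sym2 V) then (if (e : Sym2 V) ∈ p.edges then (1 : ZMod 2) else 0) else 0)
      = ((p.edges.countP fun e => v ∈ e : ℕ) : ZMod 2) := by
    rw [List.countP_eq_length_filter, ← List.toFinset_card_of_nodup (hp.isTrail.edges_nodup.filter _)]
    have h3 : ∀ e : G.edgeSet, (if v ∈ (e : Sym2 V) then (if (e : Sym2 V) ∈ p.edges then (1 : ZMod 2) else 0) else 0)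
        = if ((e : Sym2 V) ∈ (p.edges.filter (fun e => v ∈ e)).toFinset) then 1 else 0 := by
      intro e
      have hiff : ((e : Sym2 V) ∈ (p.edges.filter (fun e => v ∈ e)).toFinset) ↔
          ((e : Sym2 V) ∈ p.edges ∧ v ∈ (e : Sym2 V)) := by
        rw [List.mem_toFinset, List.mem_filter, decide_eq_true_eq]
      by_cases ha : v ∈ (e : Sym2 V)
      · by_cases hb : (e : Sym2 V) ∈ p.edges
        · rw [if_pos ha, if_pos hb, if_pos (hiff.mpr ⟨hb, ha⟩)]
        · rw [if_pos ha, if_neg hb, if_neg (fun h => hb (hiff.mp h).1)]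
      · rw [if_neg ha, if_neg (fun h => ha (hiff.mp h).2)]
    rw [Finset.sum_congr rfl (fun e _ => h3 e), Finset.sum_boole]
    congr 1
    apply Finset.card_bij (fun (e : G.edgeSet) _ => (e : Sym2 V))
    · intro e he
      exact (Finset.mem_filter.mp he).2
    · intro a _ b _ hab
      exact Subtype.ext hab
    · intro e he
      have h4 : e ∈ p.edges := by
        rw [List.mem_toFinset, List.mem_filter] at he
        exact he.1
      refine ⟨⟨e, p.edges_subset_edgeSet h4⟩, ?_, rfl⟩
      rw [Finset.mem_filter]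
      exact ⟨Finset.mem_univ _, he⟩
  rw [h2]
  exact ZMod.natCast_eq_zero_iff_even.mpr h1

lemma circ_cycle {c : Vc G.edgeSet} (hc : IsCirc (cyc G) c) :
    ∃ (u : V) (p : G.Walk u u), p.IsCycle ∧ (∀ e : G.edgeSet, (e : Sym2 V) ∈ p.edges ↔ e ∈ supp c) ∧
      p.length = (supp c).card := by
  have h1 := sg_not_acyclic hc.1 hc.2.1
  unfold SimpleGraph.IsAcyclic at h1
  push Not at h1
  obtain ⟨u, p, hp⟩ := h1
  have hle := sg_le c
  have hp' : (p.mapLe hle).IsCycle := (SimpleGraph.Walk.isCycle_mapLe hle).mpr hp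
  have hed : (p.mapLe hle).edges = p.edges := SimpleGraph.Walk.edges_mapLe_eq_edges hle p
  have hsub : ∀ e : G.edgeSet, (e : Sym2 V) ∈ p.edges → c e ≠ 0 := by
    rintro ⟨e, he⟩ hep
    have h2 := p.edges_subset_edgeSet hep
    induction e using Sym2.ind with
    | _ a b =>
    obtain ⟨_, h4⟩ := (SimpleGraph.mem_edgeSet _).mp h2
    exact h4
  set z : Vc G.edgeSet := fun e => if (e : Sym2 V) ∈ (p.mapLe hle).edges then (1 : ZMod 2) else 0 with hz
  have hzm : z ∈ cyc G := cycle_mem _ hp'
  have hzs : ∀ e : G.edgeSet, e ∈ supp z ↔ (e : Sym2 V) ∈ p.edges := by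
    intro e
    rw [mem_supp, hz]
    simp only [hed]
    by_cases h : (e : Sym2 V) ∈ p.edges <;> simp [h]
  have hz0 : z ≠ 0 := by
    intro h0
    have h3 : p.edges ≠ [] := by
      intro h4
      apply hp.ne_nil
      have : p.length = 0 := by rw [← SimpleGraph.Walk.length_edges, h4]; rfl
      exact (SimpleGraph.Walk.length_eq_zero_iff.mp this).eq_nil
    obtain ⟨e, he⟩ := List.exists_mem_of_ne_nil _ h3
    have he' : e ∈ G.edgeSet := by
      have := p.edges_subset_edgeSet he
      exact SimpleGraph.edgeSet_mono hle this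
    have h5 := (hzs ⟨e, he'⟩).mpr he
    rw [h0, mem_supp] at h5
    exact h5 rfl
  have hzc : z = c := by
    apply hc.2.2 z hzm hz0
    intro e he
    rw [mem_supp]
    exact hsub e ((hzs e).mp he)
  have hsc : supp z = supp c := by rw [hzc]
  refine ⟨u, p.mapLe hle, hp', ?_, ?_⟩
  · intro e
    rw [hed, ← hsc, hzs]
  · rw [← hsc, SimpleGraph.Walk.length_mapLe, ← SimpleGraph.Walk.length_edges,
      ← List.toFinset_card_of_nodup hp.isTrail.edges_nodup]
    symm
    apply Finset.card_bij (fun (e : G.edgeSet) _ => (e : Sym2 V))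
    · intro e he
      rw [List.mem_toFinset]
      exact (hzs e).mp he
    · intro a _ b _ hab
      exact Subtype.ext hab
    · intro e he
      rw [List.mem_toFinset] at he
      have he' : e ∈ G.edgeSet := by
        have := p.edges_subset_edgeSet he
        exact SimpleGraph.edgeSet_mono hle this
      exact ⟨⟨e, he'⟩, (hzs _).mpr he, rfl⟩

/-- distinct cycles have distinct lengths -/
def Distinct (G : SimpleGraph V) : Prop :=
  ∀ (u v : V) (p : G.Walk u u) (q : G.Walk v v),
    p.IsCycle → q.IsCycle → p.length = q.length → {e | e ∈ p.edges} = {e | e ∈ q.edges}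

lemma circ_inj (hG : Distinct G) {c d : Vc G.edgeSet} (hc : IsCirc (cyc G) c) (hd : IsCirc (cyc G) d)
    (h : (supp c).card = (supp d).card) : c = d := by
  obtain ⟨u, p, hp, hpe, hpl⟩ := circ_cycle hc
  obtain ⟨v, r, hr, hre, hrl⟩ := circ_cycle hd
  have h1 := hG u v p r hp hr (by rw [hpl, hrl, h])
  apply supp_inj
  ext e
  rw [← hpe, ← hre]
  have h2 : (e : Sym2 V) ∈ {e | e ∈ p.edges} ↔ (e : Sym2 V) ∈ {e | e ∈ r.edges} := by rw [h1]
  exact h2

end graph

/-! ### the sum over lengths -/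

open MeasureTheory in
lemma int_q {X : ℝ} (hX : 5/6 ≤ X) : ∫ x in (0:ℝ)..X, q x ≤ 107/144 := by
  have hc := q_continuous
  have ii : ∀ a b : ℝ, IntervalIntegrable q volume a b := fun a b => hc.intervalIntegrable a b
  have e1 : ∫ x in (0:ℝ)..(2/3), q x = 4/9 := by
    rw [intervalIntegral.integral_congr (g := fun x => 1 - x)]
    · rw [intervalIntegral.integral_sub (by simp) (by simp), integral_id]
      simp
      norm_num
    · intro x hx
      rw [Set.uIcc_of_le (by norm_num)] at hx
      exact q_lin1 hx.1 hx.2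
  have e2 : ∫ x in (2/3:ℝ)..(5/6), q x = 7/144 := by
    rw [intervalIntegral.integral_congr (g := fun x => 2/3 - x/2)]
    · have h0 : ∫ x in (2/3:ℝ)..(5/6), x / 2 = (∫ x in (2/3:ℝ)..(5/6), x) / 2 :=
        intervalIntegral.integral_div _ _
      rw [intervalIntegral.integral_sub (by simp) (by simp), h0, integral_id]
      simp
      norm_num
    · intro x hx
      rw [Set.uIcc_of_le (by norm_num)] at hx
      exact q_lin2 hx.1 hx.2
  have e3 : ∫ x in (5/6:ℝ)..X, q x = (1 - Real.exp (5/6 - X)) / 4 := by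
    rw [intervalIntegral.integral_congr (g := fun x => Real.exp (5/6 - x) / 4)]
    · rw [intervalIntegral.integral_eq_sub_of_hasDerivAt (f := fun x => - Real.exp (5/6 - x) / 4)]
      · simp; ring
      · intro x _
        have h1 : HasDerivAt (fun x : ℝ => 5/6 - x) (-1) x := by
          simpa using (hasDerivAt_id x).const_sub (5/6 : ℝ)
        have h2 : HasDerivAt (fun x : ℝ => - Real.exp (5/6 - x) / 4)
            (-(Real.exp (5/6 - x) * (-1)) / 4) x := ((h1.exp).neg).div_const 4
        have h3 : -(Real.exp (5/6 - x) * (-1)) / 4 = Real.exp (5/6 - x) / 4 := by ring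
        rw [h3] at h2
        exact h2
      · apply Continuous.intervalIntegrable
        fun_prop
    · intro x hx
      rw [Set.uIcc_of_le hX] at hx
      exact q_exp hx.1
  have h := Real.exp_pos (5/6 - X)
  rw [← intervalIntegral.integral_add_adjacent_intervals (ii 0 (2/3)) (ii (2/3) X),
    ← intervalIntegral.integral_add_adjacent_intervals (ii (2/3) (5/6)) (ii (5/6) X), e1, e2, e3]
  linarith

open MeasureTheory in
lemma int_q' {X : ℝ} : ∫ x in (0:ℝ)..X, q x ≤ 107/144 := by
  have hc := q_continuous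
  have ii : ∀ a b : ℝ, IntervalIntegrable q volume a b := fun a b => hc.intervalIntegrable a b
  have h1 := int_q (X := max X (5/6)) (le_max_right _ _)
  rw [← intervalIntegral.integral_add_adjacent_intervals (ii 0 X) (ii X (max X (5/6)))] at h1
  have h2 : 0 ≤ ∫ x in X..(max X (5/6)), q x :=
    intervalIntegral.integral_nonneg (le_max_left _ _) (fun x _ => q_nonneg x)
  linarith

lemma sum_q {a : ℝ} (ha : 0 < a) (M : ℕ) :
    ∑ i ∈ Finset.range M, q (a * ((i + 1 : ℕ) : ℝ)) ≤ (107/144) / a := by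
  have h1 : AntitoneOn (fun x : ℝ => q (a * x)) (Set.Icc (0:ℝ) (0 + (M : ℝ))) := by
    intro x _ y _ hxy
    exact q_antitone (mul_le_mul_of_nonneg_left hxy ha.le)
  have h2 := AntitoneOn.sum_le_integral h1
  simp only [zero_add] at h2
  rw [intervalIntegral.integral_comp_mul_left (fun x => q x) ha.ne'] at h2
  refine h2.trans ?_
  rw [mul_zero, smul_eq_mul, div_eq_inv_mul]
  exact mul_le_mul_of_nonneg_left int_q' (inv_nonneg.mpr ha.le)

section graph2

variable {V : Type*} [Fintype V] {G : SimpleGraph V}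

lemma edges_le (hG : Distinct G) {a : ℝ} (ha : 0 < a) :
    (Fintype.card G.edgeSet : ℝ) ≤ Fintype.card V + a * Fintype.card G.edgeSet + (107/144) / a := by
  have h1 := main_ineq (cyc G) (fun _ => a) (fun _ => ha.le)
  have h2 : (Fintype.card G.edgeSet : ℝ) ≤ Fintype.card V + Module.finrank (ZMod 2) (cyc G) := by
    exact_mod_cast finrank_cyc G
  have h3 : ∑ _e : G.edgeSet, a = a * Fintype.card G.edgeSet := by
    rw [Finset.sum_const, Finset.card_univ, nsmul_eq_mul, mul_comm]
  have h4 : ∑ c ∈ circ (cyc G), q (wt (fun _ => a) c) ≤ (107/144) / a := by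
    have hpos : ∀ c ∈ circ (cyc G), 1 ≤ (supp c).card := by
      intro c hc
      rw [mem_circ] at hc
      rw [Nat.one_le_iff_ne_zero, Ne, Finset.card_eq_zero, supp_eq_empty]
      exact hc.2.1
    have h5 : ∑ c ∈ circ (cyc G), q (wt (fun _ => a) c) =
        ∑ c ∈ circ (cyc G), q (a * ((((supp c).card - 1) + 1 : ℕ) : ℝ)) := by
      apply Finset.sum_congr rfl
      intro c hc
      rw [Nat.sub_add_cancel (hpos c hc)]
      unfold wt
      rw [Finset.sum_const, nsmul_eq_mul, mul_comm]
    rw [h5]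
    have hinj : Set.InjOn (fun c : Vc G.edgeSet => (supp c).card - 1) (circ (cyc G) : Set (Vc G.edgeSet)) := by
      intro c hc d hd hcd
      have hc' := hpos c hc
      have hd' := hpos d hd
      simp only at hcd
      apply circ_inj hG (mem_circ.mp hc) (mem_circ.mp hd)
      omega
    rw [← Finset.sum_image (f := fun i : ℕ => q (a * ((i + 1 : ℕ) : ℝ))) hinj]
    refine le_trans ?_ (sum_q ha (Fintype.card G.edgeSet))
    apply Finset.sum_le_sum_of_subset_of_nonneg
    · intro i hi
      rw [Finset.mem_image] at hi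
      obtain ⟨c, hc, rfl⟩ := hi
      rw [Finset.mem_range]
      have := hpos c hc
      have := Finset.card_le_univ (supp c)
      omega
    · intros; exact q_nonneg _
  rw [h3] at h1
  linarith

end graph2

lemma edges_sq {K : ℕ} (hK : 300 ≤ K) (G : SimpleGraph (Fin (K^2))) (hG : Distinct G) :
    (G.edgeSet.ncard : ℝ) ≤ (K:ℝ)^2 + 1.73 * K := by
  have hK' : (300 : ℝ) ≤ K := by exact_mod_cast hK
  have hK0 : (0:ℝ) < K := by linarith
  have h1 := edges_le hG (a := (6/7) / K) (by positivity)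
  have h2 : G.edgeSet.ncard = Fintype.card G.edgeSet := by
    rw [← Nat.card_coe_set_eq, Nat.card_eq_fintype_card]
  rw [h2]
  rw [Fintype.card_fin] at h1
  set m : ℝ := (Fintype.card G.edgeSet : ℝ) with hm
  have h3 : (107/144) / ((6/7) / (K:ℝ)) = (749/864) * K := by
    field_simp
    norm_num
  rw [h3] at h1
  push_cast at h1
  -- m (1 - 6/(7K)) ≤ K^2 + (749/864) K
  by_contra hcon
  push Not at hcon
  have h4 : m * (1 - (6/7) / K) ≤ (K:ℝ)^2 + (749/864) * K := by linarith
  have h5 : 0 < 1 - (6/7) / (K:ℝ) := by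
    rw [sub_pos, div_lt_one hK0]; linarith
  have h6 : ((K:ℝ)^2 + 1.73 * K) * (1 - (6/7) / K) < m * (1 - (6/7) / K) :=
    mul_lt_mul_of_pos_right hcon h5
  have h7 : ((K:ℝ)^2 + 1.73 * K) * (1 - (6/7) / K) = (K:ℝ)^2 + 1.73 * K - (6/7) * K - 1.73 * (6/7) := by
    field_simp
    ring
  rw [h7] at h6
  norm_num at h6 h4
  nlinarith

end

end Pool.Agent.S05149.CycQ

set_option autoImplicit false
open Pool Pool.MP_2fc3d5_co

namespace Pool.Agent.S05149

/-- Let f(n) be the maximum number of edges of an n-vertex graph in which distinct cycles have distinct lengths. For every ε>0 there are infinitely many n with (f(n)−n)/√n < √3+ε, i.e. the liminf is at most √3. -/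
theorem result :
    ∀ ε : ℝ, 0 < ε → ∀ N : ℕ, ∃ n : ℕ, N ≤ n ∧
      (((sSup {m : ℕ | ∃ G : SimpleGraph (Fin n),
          (∀ (u v : Fin n) (p : G.Walk u u) (q : G.Walk v v),
            p.IsCycle → q.IsCycle → p.length = q.length →
              {e | e ∈ p.edges} = {e | e ∈ q.edges}) ∧
          G.edgeSet.ncard = m} : ℕ) : ℝ) - (n : ℝ)) / Real.sqrt (n : ℝ)
        < Real.sqrt 3 + ε := by
  intro ε hε N
  have hK : 300 ≤ max N 300 := le_max_right _ _
  have hN : N ≤ max N 300 := le_max_left _ _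
  generalize max N 300 = K at hK hN
  refine ⟨K ^ 2, ?_, ?_⟩
  · calc N ≤ K := hN
      _ = K * 1 := (mul_one K).symm
      _ ≤ K * K := Nat.mul_le_mul_left K (by omega)
      _ = K ^ 2 := (pow_two K).symm
  · have hne : Set.Nonempty {m : ℕ | ∃ G : SimpleGraph (Fin (K ^ 2)),
          (∀ (u v : Fin (K ^ 2)) (p : G.Walk u u) (q : G.Walk v v),
            p.IsCycle → q.IsCycle → p.length = q.length →
              {e | e ∈ p.edges} = {e | e ∈ q.edges}) ∧
          G.edgeSet.ncard = m} := by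
      refine ⟨0, ⊥, ?_, ?_⟩
      · intro u v p q hp
        exact absurd hp (SimpleGraph.isAcyclic_bot p)
      · rw [SimpleGraph.edgeSet_bot, Set.ncard_empty]
    have hbdd : BddAbove {m : ℕ | ∃ G : SimpleGraph (Fin (K ^ 2)),
          (∀ (u v : Fin (K ^ 2)) (p : G.Walk u u) (q : G.Walk v v),
            p.IsCycle → q.IsCycle → p.length = q.length →
              {e | e ∈ p.edges} = {e | e ∈ q.edges}) ∧
          G.edgeSet.ncard = m} := by
      refine ⟨⌈(K:ℝ)^2 + 1.73 * K⌉₊, ?_⟩
      rintro m ⟨G, hG, hm⟩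
      have h1 := CycQ.edges_sq hK G hG
      rw [hm] at h1
      have h2 : (m : ℝ) ≤ (⌈(K:ℝ)^2 + 1.73 * K⌉₊ : ℝ) := h1.trans (Nat.le_ceil _)
      exact_mod_cast h2
    obtain ⟨G, hG, hm⟩ := Nat.sSup_mem hne hbdd
    rw [← hm]
    have h1 := CycQ.edges_sq hK G hG
    have hK' : (300 : ℝ) ≤ K := by exact_mod_cast hK
    have hK0 : (0:ℝ) < K := by linarith
    have h2 : Real.sqrt ((K ^ 2 : ℕ) : ℝ) = K := by
      push_cast
      exact Real.sqrt_sq hK0.le
    rw [h2]
    have h3 : (1.73 : ℝ) < Real.sqrt 3 := by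
      rw [Real.lt_sqrt (by norm_num)]
      norm_num
    have h4 : ((G.edgeSet.ncard : ℝ) - ((K ^ 2 : ℕ) : ℝ)) / K ≤ 1.73 := by
      rw [div_le_iff₀ hK0]
      push_cast
      linarith
    linarith

end Pool.Agent.S05149
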