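import Pool.Statements.S05155
import Pool.Agent.Helper64.Fin3

set_option autoImplicit false
open Pool Pool.MP_2ffb02_co

namespace Pool.Agent.S05155

/-- There is a set of integer lattice points with no three distinct points collinear, and a constant c>0, such that for all large N the box [-N,N]^2 contains at least cN points of the set. -/
theorem result :
    ∃ A : Set (ℤ × ℤ),
      (∀ p ∈ A, ∀ q ∈ A, ∀ r ∈ A, p ≠ q → p ≠ r → q ≠ r →
        (q.1 - p.1) * (r.2 - p.2) - (q.2 - p.2) * (r.1 - p.1) ≠ 0) ∧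
      ∃ c : ℝ, 0 < c ∧ ∃ N₀ : ℕ, ∀ N : ℕ, N₀ ≤ N →
        c * (N : ℝ) ≤
          ((A ∩ {p : ℤ × ℤ | |p.1| ≤ (N : ℤ) ∧ |p.2| ≤ (N : ℤ)}).ncard : ℝ) := by
  obtain ⟨A, c, n0, hc, hA1, hA2, hA3⟩ := Pool.Agent.Helper64.linear_growth
  refine ⟨A, ?_, c, hc, n0, ?_⟩
  · intro p hp q hq r hr hpq hpr hqr hcol
    apply hA1 p hp q hq r hr hpq hpr hqr
    unfold Pool.Agent.Helper64.col
    linarith
  · intro N hN
    obtain ⟨T, hT1, hT2, hT3⟩ := hA3 N hN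
    have hfin : (A ∩ {p : ℤ × ℤ | |p.1| ≤ (N : ℤ) ∧ |p.2| ≤ (N : ℤ)}).Finite := by
      apply Set.Finite.subset (Finset.finite_toSet (Finset.Icc (-(N : ℤ)) N ×ˢ Finset.Icc (-(N : ℤ)) N))
      rintro x ⟨_, hx1, hx2⟩
      rw [abs_le] at hx1 hx2
      simp only [Finset.coe_product, Finset.coe_Icc, Set.mem_prod, Set.mem_Icc]
      exact ⟨hx1, hx2⟩
    have hsub : (T : Set (ℤ × ℤ)) ⊆ A ∩ {p : ℤ × ℤ | |p.1| ≤ (N : ℤ) ∧ |p.2| ≤ (N : ℤ)} := by
      intro p hp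
      have hpA := hA2 p (hT1 hp)
      have hpT := hT2 p (Finset.mem_coe.1 hp)
      refine ⟨hT1 hp, ?_, ?_⟩
      · rw [abs_le]; constructor <;> omega
      · rw [abs_le]; constructor <;> omega
    have hcard : T.card ≤ (A ∩ {p : ℤ × ℤ | |p.1| ≤ (N : ℤ) ∧ |p.2| ≤ (N : ℤ)}).ncard := by
      rw [← Set.ncard_coe_finset]
      exact Set.ncard_le_ncard hsub hfin
    have : (T.card : ℝ) ≤ ((A ∩ {p : ℤ × ℤ | |p.1| ≤ (N : ℤ) ∧ |p.2| ≤ (N : ℤ)}).ncard : ℝ) := by exact_mod_cast hcard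
    linarith

end Pool.Agent.S05155
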