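import Pool.Statements.S05168

set_option autoImplicit false
open Pool Pool.MP_308b22_co

namespace Pool.Agent.S05168

abbrev E3 := EuclideanSpace ℝ (Fin 3)

noncomputable def pa : E3 := !₂[0, 0, 2]
noncomputable def pb : E3 := !₂[2, 0, 0]
noncomputable def pc : E3 := !₂[-1, 0, -1]
noncomputable def pd : E3 := !₂[0, 2, 0]
noncomputable def pe : E3 := !₂[0, -1, -1]
noncomputable def pf : E3 := !₂[-1, -1, 0]

open Classical in
noncomputable def SS : Finset E3 := {pa, pb, pc, pd, pe, pf}

lemma mem_SS (x : E3) : x ∈ SS ↔ x = pa ∨ x = pb ∨ x = pc ∨ x = pd ∨ x = pe ∨ x = pf := by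
  simp [SS]

lemma inner3 (u x : E3) : inner ℝ u x = u 0 * x 0 + u 1 * x 1 + u 2 * x 2 := by
  simp [PiLp.inner_apply, Fin.sum_univ_three, mul_comm]

/-- If all points of `T` lie strictly on the positive side of `u`, then `0` is not in the hull. -/
lemma not_mem_hull (u : E3) (T : Set E3) (h : ∀ x ∈ T, 0 < inner ℝ u x) :
    (0 : E3) ∉ convexHull ℝ T := by
  intro h0
  have hc : Convex ℝ {x : E3 | 0 < inner ℝ u x} := by
    intro x hx y hy s t hs ht hst
    simp only [Set.mem_ofPred_eq] at hx hy ⊢
    rw [inner_add_right, inner_smul_right, inner_smul_right]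
    rcases eq_or_lt_of_le hs with h | h
    · subst h
      have : t = 1 := by linarith
      subst this
      simpa using hy
    · have h1 : 0 < s * inner ℝ u x := mul_pos h hx
      have h2 : 0 ≤ t * inner ℝ u y := mul_nonneg ht hy.le
      linarith
  have := convexHull_min (s := T) (t := {x : E3 | 0 < inner ℝ u x}) h hc h0
  simp at this

lemma two_le_filter (p : E3 → Prop) [DecidablePred p] (x y : E3) (hx : x ∈ SS) (hy : y ∈ SS)
    (hpx : p x) (hpy : p y) (hne : x ≠ y) : 2 ≤ (SS.filter p).card := by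
  have : 1 < (SS.filter p).card :=
    Finset.one_lt_card.mpr ⟨x, Finset.mem_filter.mpr ⟨hx, hpx⟩, y, Finset.mem_filter.mpr ⟨hy, hpy⟩, hne⟩
  exact this

lemma ne_of_coord {x y : E3} (i : Fin 3) (h : x i ≠ y i) : x ≠ y := fun e => h (by rw [e])

lemma zero_mem_core (v : E3) (b : ℝ) (hb : 0 ≤ b) :
    2 ≤ (SS.filter (fun x => inner ℝ v x ≤ b)).card := by
  have ha : inner ℝ v pa = 2 * v 2 := by rw [inner3]; simp [pa]; ring
  have hb' : inner ℝ v pb = 2 * v 0 := by rw [inner3]; simp [pb]; ring
  have hc : inner ℝ v pc = - v 0 - v 2 := by rw [inner3]; simp [pc]; ring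
  have hd : inner ℝ v pd = 2 * v 1 := by rw [inner3]; simp [pd]; ring
  have he : inner ℝ v pe = - v 1 - v 2 := by rw [inner3]; simp [pe]; ring
  have hf : inner ℝ v pf = - v 0 - v 1 := by rw [inner3]; simp [pf]; ring
  have nab : pa ≠ pb := ne_of_coord 0 (by simp [pa, pb])
  have nad : pa ≠ pd := ne_of_coord 1 (by simp [pa, pd])
  have nbd : pb ≠ pd := ne_of_coord 0 (by simp [pb, pd])
  have nbe : pb ≠ pe := ne_of_coord 0 (by simp [pb, pe])
  have ndc : pd ≠ pc := ne_of_coord 0 (by simp [pd, pc])
  have naf : pa ≠ pf := ne_of_coord 0 (by simp [pa, pf])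
  have nce : pc ≠ pe := ne_of_coord 0 (by simp [pc, pe])
  have ma : pa ∈ SS := by rw [mem_SS]; simp
  have mb : pb ∈ SS := by rw [mem_SS]; simp
  have mc : pc ∈ SS := by rw [mem_SS]; simp
  have md : pd ∈ SS := by rw [mem_SS]; simp
  have me : pe ∈ SS := by rw [mem_SS]; simp
  have mf : pf ∈ SS := by rw [mem_SS]; simp
  by_cases h0 : v 0 ≤ 0
  · by_cases h1 : v 1 ≤ 0
    · exact two_le_filter _ pb pd mb md (by rw [hb']; linarith) (by rw [hd]; linarith) nbd
    · by_cases h2 : v 2 ≤ 0
      · exact two_le_filter _ pa pb ma mb (by rw [ha]; linarith) (by rw [hb']; linarith) nab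
      · exact two_le_filter _ pb pe mb me (by rw [hb']; linarith) (by rw [he]; linarith) nbe
  · by_cases h1 : v 1 ≤ 0
    · by_cases h2 : v 2 ≤ 0
      · exact two_le_filter _ pa pd ma md (by rw [ha]; linarith) (by rw [hd]; linarith) nad
      · exact two_le_filter _ pd pc md mc (by rw [hd]; linarith) (by rw [hc]; linarith) ndc
    · by_cases h2 : v 2 ≤ 0
      · exact two_le_filter _ pa pf ma mf (by rw [ha]; linarith) (by rw [hf]; linarith) naf
      · exact two_le_filter _ pc pe mc me (by rw [hc]; linarith) (by rw [he]; linarith) nce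

lemma coord_nonpos (z : E3)
    (hz : ∀ (a : E3) (b : ℝ), a ≠ 0 → inner ℝ a z ≤ b →
      2 ≤ (SS.filter (fun x => inner ℝ a x ≤ b)).card) (i : Fin 3) : z i ≤ 0 := by
  by_contra hpos
  push Not at hpos
  have hin : ∀ x : E3, inner ℝ (-(EuclideanSpace.single i (1 : ℝ))) x = -(x i) := by
    intro x
    rw [inner_neg_left, EuclideanSpace.inner_single_left]
    simp
  have key := hz (-(EuclideanSpace.single i (1 : ℝ))) (-(z i)) (by simp) (by rw [hin])
  have hsub : ∃ q : E3, ∀ x ∈ SS, 0 < x i → x = q := by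
    fin_cases i
    · refine ⟨pb, ?_⟩
      intro x hx hx2
      rw [mem_SS] at hx
      rcases hx with h | h | h | h | h | h <;> subst h
      · simp [pa] at hx2
      · rfl
      · simp [pc] at hx2; linarith
      · simp [pd] at hx2
      · simp [pe] at hx2
      · simp [pf] at hx2; linarith
    · refine ⟨pd, ?_⟩
      intro x hx hx2
      rw [mem_SS] at hx
      rcases hx with h | h | h | h | h | h <;> subst h
      · simp [pa] at hx2
      · simp [pb] at hx2
      · simp [pc] at hx2
      · rfl
      · simp [pe] at hx2; linarith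
      · simp [pf] at hx2; linarith
    · refine ⟨pa, ?_⟩
      intro x hx hx2
      rw [mem_SS] at hx
      rcases hx with h | h | h | h | h | h <;> subst h
      · rfl
      · simp [pb] at hx2
      · simp [pc] at hx2; linarith
      · simp [pd] at hx2
      · simp [pe] at hx2; linarith
      · simp [pf] at hx2
  obtain ⟨q, hq⟩ := hsub
  have hlt : 1 < (SS.filter (fun x => inner ℝ (-(EuclideanSpace.single i (1 : ℝ))) x ≤ -(z i))).card := key
  obtain ⟨u, hu, w, hw, huw⟩ := Finset.one_lt_card.mp hlt
  rw [Finset.mem_filter, hin] at hu hw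
  exact huw ((hq u hu.1 (by linarith [hu.2])).trans (hq w hw.1 (by linarith [hw.2])).symm)

lemma no_pair (g : E3 → Fin 2) (i : Fin 2)
    (h : (0 : E3) ∈ convexHull ℝ ((SS.filter (fun x => g x = i) : Finset E3) : Set E3)) :
    ¬ (g pa ≠ i ∧ g pb ≠ i) ∧ ¬ (g pa ≠ i ∧ g pd ≠ i) ∧ ¬ (g pb ≠ i ∧ g pd ≠ i) := by
  refine ⟨?_, ?_, ?_⟩
  · rintro ⟨h1, h2⟩
    refine not_mem_hull !₂[-2, 1, -2] _ ?_ h
    intro x hx
    rw [Finset.mem_coe, Finset.mem_filter, mem_SS] at hx
    obtain ⟨hx, hx2⟩ := hx
    rw [inner3]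
    rcases hx with h | h | h | h | h | h <;> subst h
    · exact absurd hx2 h1
    · exact absurd hx2 h2
    · simp [pc]
    · simp [pd]
    · simp [pe]
    · simp [pf]
  · rintro ⟨h1, h2⟩
    refine not_mem_hull !₂[1, -2, -2] _ ?_ h
    intro x hx
    rw [Finset.mem_coe, Finset.mem_filter, mem_SS] at hx
    obtain ⟨hx, hx2⟩ := hx
    rw [inner3]
    rcases hx with h | h | h | h | h | h <;> subst h
    · exact absurd hx2 h1
    · simp [pb]
    · simp [pc]
    · exact absurd hx2 h2
    · simp [pe]
    · simp [pf]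
  · rintro ⟨h1, h2⟩
    refine not_mem_hull !₂[-2, -2, 1] _ ?_ h
    intro x hx
    rw [Finset.mem_coe, Finset.mem_filter, mem_SS] at hx
    obtain ⟨hx, hx2⟩ := hx
    rw [inner3]
    rcases hx with h | h | h | h | h | h <;> subst h
    · simp [pa]
    · exact absurd hx2 h1
    · simp [pc]
    · exact absurd hx2 h2
    · simp [pe]
    · simp [pf]

/-- The negation of the preceding statement: For d,m ≥ 1 and finite S in R^d, every extreme point of the m-core (points whose every containing closed half-space holds at least m points of S) admits a partition of S into m parts whose convex hulls all contain it. -/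
theorem result :
    ¬ (∀ (d m : ℕ), 1 ≤ d → 1 ≤ m → ∀ (S : Finset (EuclideanSpace ℝ (Fin d))),
      ∀ y ∈ Set.extremePoints ℝ
          {z : EuclideanSpace ℝ (Fin d) |
            ∀ (a : EuclideanSpace ℝ (Fin d)) (b : ℝ), a ≠ 0 → inner ℝ a z ≤ b →
              m ≤ (S.filter (fun x => inner ℝ a x ≤ b)).card},
        ∃ f : EuclideanSpace ℝ (Fin d) → Fin m, ∀ i : Fin m,
          y ∈ convexHull ℝ
            ((S.filter (fun x => f x = i) : Finset (EuclideanSpace ℝ (Fin d))) :
              Set (EuclideanSpace ℝ (Fin d)))) := by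
  intro H
  have hext : (0 : E3) ∈ Set.extremePoints ℝ
      {z : E3 | ∀ (a : E3) (b : ℝ), a ≠ 0 → inner ℝ a z ≤ b →
              2 ≤ (SS.filter (fun x => inner ℝ a x ≤ b)).card} := by
    rw [mem_extremePoints]
    refine ⟨?_, ?_⟩
    · intro a b _ hb
      simp only [inner_zero_right] at hb
      exact zero_mem_core a b hb
    · intro x1 h1 x2 h2 hs
      have c1 := coord_nonpos x1 h1
      have c2 := coord_nonpos x2 h2
      obtain ⟨s, t, hs0, ht0, hst, heq⟩ := hs
      have hco : ∀ i : Fin 3, s * x1 i + t * x2 i = 0 := by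
        intro i
        have := congrArg (fun z : E3 => z i) heq
        simpa using this
      constructor
      · ext i
        have e := hco i
        have a1 : s * x1 i ≤ 0 := mul_nonpos_of_nonneg_of_nonpos hs0.le (c1 i)
        have a2 : t * x2 i ≤ 0 := mul_nonpos_of_nonneg_of_nonpos ht0.le (c2 i)
        have : s * x1 i = 0 := by linarith
        rcases mul_eq_zero.mp this with h | h
        · exact absurd h hs0.ne'
        · simpa using h
      · ext i
        have e := hco i
        have a1 : s * x1 i ≤ 0 := mul_nonpos_of_nonneg_of_nonpos hs0.le (c1 i)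
        have a2 : t * x2 i ≤ 0 := mul_nonpos_of_nonneg_of_nonpos ht0.le (c2 i)
        have : t * x2 i = 0 := by linarith
        rcases mul_eq_zero.mp this with h | h
        · exact absurd h ht0.ne'
        · simpa using h
  obtain ⟨g, hg⟩ := H 3 2 (by norm_num) (by norm_num) SS 0 hext
  have k0 := no_pair g 0 (hg 0)
  have k1 := no_pair g 1 (hg 1)
  have A : g pa = 0 ∨ g pa = 1 := by omega
  have B : g pb = 0 ∨ g pb = 1 := by omega
  have D : g pd = 0 ∨ g pd = 1 := by omega
  rcases A with hA | hA <;> rcases B with hB | hB <;> rcases D with hD | hD <;>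
    simp [hA, hB, hD] at k0 k1

end Pool.Agent.S05168
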