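import Pool.Statements.S05178

set_option autoImplicit false
open Pool Pool.MP_321260_co

namespace Pool.Agent.S05178

/-!
A counterexample on 58 vertices. It has two hubs and four copies of a piece with 14 vertices.
The pieces (s, false) and (s, true) are joined by one edge between their vertices 0. The vertex 13
of a piece of type t is joined to the hub t, and the vertices 3, 6, 7, 8, 12 of the piece are joined to
the other hub. This graph has exactly one Hamilton cycle, no cycle on 57 vertices, and all
degrees are at least 3.
-/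

/-- neighbour masks of the 14-vertex piece -/
def rowP : ℕ → ℕ
  | 0 => 2^1 + 2^10
  | 1 => 2^0 + 2^2 + 2^5
  | 2 => 2^1 + 2^3 + 2^9
  | 3 => 2^2 + 2^4
  | 4 => 2^3 + 2^5 + 2^13
  | 5 => 2^4 + 2^6 + 2^1 + 2^11
  | 6 => 2^5 + 2^7
  | 7 => 2^6 + 2^8
  | 8 => 2^7 + 2^9
  | 9 => 2^8 + 2^10 + 2^2
  | 10 => 2^9 + 2^11 + 2^0
  | 11 => 2^10 + 2^12 + 2^5
  | 12 => 2^11 + 2^13
  | 13 => 2^12 + 2^4
  | _ => 0

def F (i j : Fin 14) : Bool := (rowP i.1).testBit j.1

def isC (i : Fin 14) : Bool := (2^3 + 2^6 + 2^7 + 2^8 + 2^12 : ℕ).testBit i.1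

lemma F_symm : ∀ i j, F i j = F j i := by decide +kernel
lemma F_irrefl : ∀ i, F i i = false := by decide +kernel

/-- one-step extensions of a reversed path -/
def exts : List (Fin 14) → List (List (Fin 14))
  | [] => []
  | a :: l => ((List.finRange 14).filter (fun x => F x a && !((a :: l).contains x))).map (fun x => x :: a :: l)

def paths : ℕ → List (List (Fin 14))
  | 0 => [[0]]
  | k+1 => (paths k).flatMap exts

lemma mem_paths : ∀ (r : List (Fin 14)), r.IsChain (fun a b => F a b = true) → r.Nodup →
    r.getLast? = some 0 → r ∈ paths (r.length - 1)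
  | [], _, _, h => by simp at h
  | [a], _, _, h => by
      simp at h; subst h; simp [paths]
  | a :: b :: l, hc, hn, h => by
      have ih := mem_paths (b :: l) (List.isChain_cons_cons.1 hc).2 (List.nodup_cons.1 hn).2
        (by simpa [List.getLast?_cons_cons] using h)
      have hab := (List.isChain_cons_cons.1 hc).1
      have hna := (List.nodup_cons.1 hn).1
      simp only [List.length_cons, Nat.add_sub_cancel] at ih ⊢
      show a :: b :: l ∈ (paths l.length).flatMap exts
      rw [List.mem_flatMap]
      refine ⟨b :: l, ih, ?_⟩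
      simp only [exts, List.mem_map, List.mem_filter, List.mem_finRange, true_and]
      refine ⟨a, ?_, rfl⟩
      simp only [hab, Bool.true_and, Bool.not_eq_true']
      simpa using hna

def full : List (Fin 14) := [13,12,11,10,9,8,7,6,5,4,3,2,1,0]

def chk13 : Bool := (paths 13).all (fun r => match r with
  | [] => true
  | a :: l => (!(isC a)) && ((a != 13) || (a :: l == full)))

def chk12 : Bool := (paths 12).all (fun r => match r with
  | [] => true
  | a :: _ => a != 13)

set_option maxRecDepth 100000 in
lemma chk13_true : chk13 = true := by decide +kernel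
set_option maxRecDepth 100000 in
lemma chk12_true : chk12 = true := by decide +kernel

lemma len_le (N : List (Fin 14)) (hn : N.Nodup) : N.length ≤ 14 := by
  simpa using hn.length_le_card

lemma piece_B (N : List (Fin 14)) (hc : N.IsChain (fun a b => F a b = true)) (hn : N.Nodup)
    (hlen : 13 ≤ N.length) (hlast : N.getLast? = some 0) (hhead : N.head? = some 13) :
    N = full := by
  have hm := mem_paths N hc hn hlast
  have h14 := len_le N hn
  cases N with
  | nil => simp at hhead
  | cons a l =>
    simp only [List.head?_cons, Option.some.injEq] at hhead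
    subst hhead
    have hl : (13 :: l).length = 13 ∨ (13 :: l).length = 14 := by omega
    rcases hl with hl | hl
    · rw [hl] at hm
      have := List.all_eq_true.1 chk12_true _ hm
      simp at this
    · rw [hl] at hm
      have := List.all_eq_true.1 chk13_true _ hm
      simpa using (Bool.and_eq_true_iff.1 this).2

lemma piece_C (N : List (Fin 14)) (hc : N.IsChain (fun a b => F a b = true)) (hn : N.Nodup)
    (hlen : 14 ≤ N.length) (hlast : N.getLast? = some 0) (a : Fin 14) (hhead : N.head? = some a) :
    isC a = false := by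
  have hm := mem_paths N hc hn hlast
  have h14 := len_le N hn
  cases N with
  | nil => simp at hhead
  | cons b l =>
    simp only [List.head?_cons, Option.some.injEq] at hhead
    subst hhead
    have hl : (b :: l).length = 14 := by omega
    rw [hl] at hm
    have := List.all_eq_true.1 chk13_true _ hm
    simpa using (Bool.and_eq_true_iff.1 this).1

/-- splitting a duplicate free chain at the only crossing edge -/
lemma split_lemma {α : Type*} (R : α → α → Prop) (S : α → Prop) (s0 t0 : α) (hs0 : S s0) (ht0 : ¬ S t0)
    (hST : ∀ a b, R a b → S a → ¬ S b → a = s0 ∧ b = t0)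
    (hTS : ∀ a b, R a b → ¬ S a → S b → a = t0 ∧ b = s0) :
    ∀ l : List α, l.IsChain R → l.Nodup → (∀ x ∈ l, S x) ∨ (∀ x ∈ l, ¬ S x) ∨
      (∃ N₁ N₂, l = N₁ ++ N₂ ∧ (∀ x ∈ N₁, S x) ∧ (∀ x ∈ N₂, ¬ S x) ∧
        N₁.getLast? = some s0 ∧ N₂.head? = some t0) ∨
      (∃ N₁ N₂, l = N₁ ++ N₂ ∧ (∀ x ∈ N₁, ¬ S x) ∧ (∀ x ∈ N₂, S x) ∧
        N₁.getLast? = some t0 ∧ N₂.head? = some s0)
  | [], _, _ => by simp
  | [a], _, _ => by
      by_cases h : S a
      · left; simpa using h
      · right; left; simpa using h
  | a :: b :: l, hc, hn => by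
      have ih := split_lemma R S s0 t0 hs0 ht0 hST hTS (b :: l) (List.isChain_cons_cons.1 hc).2
        (List.nodup_cons.1 hn).2
      have hab := (List.isChain_cons_cons.1 hc).1
      have hna := (List.nodup_cons.1 hn).1
      by_cases ha : S a
      · rcases ih with ih | ih | ⟨N₁, N₂, hl, h1, h2, h3, h4⟩ | ⟨N₁, N₂, hl, h1, h2, h3, h4⟩
        · left
          intro x hx
          rcases List.mem_cons.1 hx with rfl | hx
          · exact ha
          · exact ih x hx
        · right; right; left
          have hb : ¬ S b := ih b (by simp)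
          obtain ⟨h5, h6⟩ := hST a b hab ha hb
          refine ⟨[a], b :: l, rfl, by simpa using ha, ih, by simp [h5], by simp [h6]⟩
        · right; right; left
          refine ⟨a :: N₁, N₂, by simp [hl], ?_, h2, ?_, h4⟩
          · intro x hx
            rcases List.mem_cons.1 hx with rfl | hx
            · exact ha
            · exact h1 x hx
          · cases N₁ with
            | nil => simp at h3
            | cons c N₁ => simpa [List.getLast?_cons_cons] using h3
        · exfalso
          cases N₁ with
          | nil => simp at h3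
          | cons c N₁ =>
            simp only [List.cons_append, List.cons.injEq] at hl
            obtain ⟨rfl, hl⟩ := hl
            have hb : ¬ S b := h1 b (by simp)
            obtain ⟨h5, h6⟩ := hST a b hab ha hb
            apply hna
            rw [List.mem_cons, hl]
            right
            rw [List.mem_append]
            right
            rw [h5]
            exact List.mem_of_head? h4
      · rcases ih with ih | ih | ⟨N₁, N₂, hl, h1, h2, h3, h4⟩ | ⟨N₁, N₂, hl, h1, h2, h3, h4⟩
        · right; right; right
          have hb : S b := ih b (by simp)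
          obtain ⟨h5, h6⟩ := hTS a b hab ha hb
          refine ⟨[a], b :: l, rfl, by simpa using ha, ih, by simp [h5], by simp [h6]⟩
        · right; left
          intro x hx
          rcases List.mem_cons.1 hx with rfl | hx
          · exact ha
          · exact ih x hx
        · exfalso
          cases N₁ with
          | nil => simp at h3
          | cons c N₁ =>
            simp only [List.cons_append, List.cons.injEq] at hl
            obtain ⟨rfl, hl⟩ := hl
            have hb : S b := h1 b (by simp)
            obtain ⟨h5, h6⟩ := hTS a b hab ha hb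
            apply hna
            rw [List.mem_cons, hl]
            right
            rw [List.mem_append]
            right
            rw [h5]
            exact List.mem_of_head? h4
        · right; right; right
          refine ⟨a :: N₁, N₂, by simp [hl], ?_, h2, ?_, h4⟩
          · intro x hx
            rcases List.mem_cons.1 hx with rfl | hx
            · exact ha
            · exact h1 x hx
          · cases N₁ with
            | nil => simp at h3
            | cons c N₁ => simpa [List.getLast?_cons_cons] using h3

/-- adjacency inside one side (two pieces joined by one edge) -/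
def Q (p q : Bool × Fin 14) : Bool := if p.1 = q.1 then F p.2 q.2 else (p.2 == 0 && q.2 == 0)

def sideL : List (Bool × Fin 14) := full.map (fun i => (false, i)) ++ full.reverse.map (fun i => (true, i))

lemma lift_piece (t : Bool) (N : List (Bool × Fin 14)) (h : ∀ x ∈ N, x.1 = t)
    (hc : N.IsChain (fun a b => Q a b = true)) (hn : N.Nodup) :
    ∃ N' : List (Fin 14), N = N'.map (fun i => (t, i)) ∧ N'.IsChain (fun a b => F a b = true) ∧ N'.Nodup := by
  refine ⟨N.map Prod.snd, ?_, ?_, ?_⟩
  · rw [List.map_map]
    conv_lhs => rw [← List.map_id N]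
    apply List.map_congr_left
    intro x hx
    simp [← h x hx]
  · rw [List.isChain_map]
    refine List.IsChain.imp_of_mem_imp ?_ hc
    intro a b ha hb hab
    simpa [Q, h a ha, h b hb] using hab
  · refine (List.nodup_map_iff_inj_on hn).2 ?_
    intro x hx y hy hxy
    exact Prod.ext ((h x hx).trans (h y hy).symm) hxy

lemma side_lemma (M : List (Bool × Fin 14)) (hc : M.IsChain (fun a b => Q a b = true)) (hn : M.Nodup)
    (hlen : 27 ≤ M.length) (p q : Bool × Fin 14) (hhead : M.head? = some p) (hlast : M.getLast? = some q)
    (hp : (p.1 = false ∧ p.2 = 13) ∨ (p.1 = true ∧ isC p.2 = true))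
    (hq : (q.1 = true ∧ q.2 = 13) ∨ (q.1 = false ∧ isC q.2 = true)) :
    M = sideL := by
  have hcr : ∀ a b : Bool × Fin 14, Q a b = true → a.1 ≠ b.1 → a.2 = 0 ∧ b.2 = 0 := by
    intro a b hab hne
    simpa [Q, hne] using hab
  have hsp := split_lemma (fun a b => Q a b = true) (fun x : Bool × Fin 14 => x.1 = false) (false, 0) (true, 0)
    rfl (by simp)
    (by
      intro a b hab ha hb
      have hb' : b.1 = true := by simpa using hb
      obtain ⟨h1, h2⟩ := hcr a b hab (by rw [ha, hb']; simp)
      exact ⟨Prod.ext ha h1, Prod.ext hb' h2⟩)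
    (by
      intro a b hab ha hb
      have ha' : a.1 = true := by simpa using ha
      obtain ⟨h1, h2⟩ := hcr a b hab (by rw [ha', hb]; simp)
      exact ⟨Prod.ext ha' h1, Prod.ext hb h2⟩)
    M hc hn
  rcases hsp with h | h | ⟨N₁, N₂, hl, h1, h2, h3, h4⟩ | ⟨N₁, N₂, hl, h1, h2, h3, h4⟩
  · exfalso
    obtain ⟨N', rfl, -, hn'⟩ := lift_piece false M h hc hn
    have := len_le N' hn'
    simp at hlen
    omega
  · exfalso
    obtain ⟨N', rfl, -, hn'⟩ := lift_piece true M (by simpa using h) hc hn
    have := len_le N' hn'
    simp at hlen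
    omega
  · subst hl
    obtain ⟨N1', rfl, hc1, hn1⟩ := lift_piece false N₁ h1 (List.isChain_append.1 hc).1 (List.nodup_append.1 hn).1
    obtain ⟨N2', rfl, hc2, hn2⟩ := lift_piece true N₂ (by simpa using h2) (List.isChain_append.1 hc).2.1
      (List.nodup_append.1 hn).2.1
    have l1 := len_le N1' hn1
    have l2 := len_le N2' hn2
    simp only [List.length_append, List.length_map] at hlen
    have hN1 : N1' ≠ [] := by rintro rfl; simp at hlen; omega
    have hN2 : N2' ≠ [] := by rintro rfl; simp at hlen; omega
    have e1 : N1' = full := by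
      apply piece_B N1' hc1 hn1 (by omega)
      · simpa [List.getLast?_map] using h3
      · cases N1' with
        | nil => exact absurd rfl hN1
        | cons a l =>
          simp at hhead
          subst hhead
          simpa using hp
    have e2 : N2'.reverse = full := by
      apply piece_B N2'.reverse ?_ (List.nodup_reverse.2 hn2) (by simp; omega)
      · simpa [List.getLast?_reverse] using h4
      · rw [List.head?_reverse]
        rw [List.getLast?_append_of_ne_nil _ (by simpa using hN2), List.getLast?_map] at hlast
        cases hN : N2'.getLast? with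
        | none => simp at hN; exact absurd hN hN2
        | some a =>
          rw [hN] at hlast
          simp at hlast
          subst hlast
          simpa using hq
      · rw [List.isChain_reverse]
        exact hc2.imp (fun a b hab => by rw [F_symm]; exact hab)
    rw [e1, ← List.reverse_reverse N2', e2]
    rfl
  · exfalso
    subst hl
    obtain ⟨N1', rfl, hc1, hn1⟩ := lift_piece true N₁ (by simpa using h1) (List.isChain_append.1 hc).1
      (List.nodup_append.1 hn).1
    obtain ⟨N2', rfl, hc2, hn2⟩ := lift_piece false N₂ h2 (List.isChain_append.1 hc).2.1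
      (List.nodup_append.1 hn).2.1
    have l1 := len_le N1' hn1
    have l2 := len_le N2' hn2
    simp only [List.length_append, List.length_map] at hlen
    have hN1 : N1' ≠ [] := by rintro rfl; simp at hlen; omega
    have hN2 : N2' ≠ [] := by rintro rfl; simp at hlen; omega
    have hdis : 14 ≤ N1'.length ∨ 14 ≤ N2'.length := by omega
    rcases hdis with h14 | h14
    · have hgl : N1'.getLast? = some 0 := by simpa [List.getLast?_map] using h3
      cases N1' with
      | nil => exact absurd rfl hN1
      | cons a l =>
        have := piece_C (a :: l) hc1 hn1 h14 hgl a rfl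
        simp at hhead
        subst hhead
        simp [this] at hp
    · cases hN : N2'.getLast? with
      | none => simp at hN; exact absurd hN hN2
      | some a =>
        have := piece_C N2'.reverse
          (by
            rw [List.isChain_reverse]
            exact hc2.imp (fun a b hab => by rw [F_symm]; exact hab))
          (List.nodup_reverse.2 hn2) (by simpa using h14)
          (by simpa [List.getLast?_reverse] using h4) a (by rw [List.head?_reverse, hN])
        rw [List.getLast?_append_of_ne_nil _ (by simpa using hN2), List.getLast?_map, hN] at hlast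
        simp at hlast
        subst hlast
        simp [this] at hq

abbrev W := Bool ⊕ (Bool × Bool × Fin 14)

/-- attachment of the piece vertex i of a piece of type t to the hub h -/
def att (h t : Bool) (i : Fin 14) : Bool := if h = t then i == 13 else isC i

def adjB : W → W → Bool
  | .inl _, .inl _ => false
  | .inl h, .inr (_, p) => att h p.1 p.2
  | .inr (_, p), .inl h => att h p.1 p.2
  | .inr (s, p), .inr (s', q) => (s == s') && Q p q

lemma Q_symm (p q : Bool × Fin 14) : Q p q = Q q p := by
  obtain ⟨t, i⟩ := p
  obtain ⟨t', j⟩ := q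
  by_cases h : t = t'
  · subst h; simp [Q, F_symm i j]
  · simp [Q, h, Ne.symm h, Bool.and_comm]

lemma adjB_symm (u v : W) : adjB u v = adjB v u := by
  rcases u with h | ⟨s, p⟩ <;> rcases v with h' | ⟨s', q⟩
  · rfl
  · rfl
  · rfl
  · simp only [adjB, Q_symm p q]
    rw [Bool.beq_comm]

lemma adjB_irrefl (u : W) : adjB u u = false := by
  rcases u with h | ⟨s, ⟨t, i⟩⟩
  · rfl
  · simp [adjB, Q, F_irrefl]

def G : SimpleGraph W where
  Adj u v := adjB u v = true
  symm := ⟨fun u v h => by rw [adjB_symm]; exact h⟩
  loopless := ⟨fun u h => by rw [adjB_irrefl] at h; exact absurd h (by simp)⟩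

instance : DecidableRel G.Adj := fun u v => inferInstanceAs (Decidable (adjB u v = true))

lemma chain_ends {α : Type*} (R : α → α → Prop) (a b : α) (L : List α) (hL : L ≠ [])
    (h : (a :: (L ++ [b])).IsChain R) :
    L.IsChain R ∧ (∃ p, L.head? = some p ∧ R a p) ∧ (∃ q, L.getLast? = some q ∧ R q b) := by
  have h2 : (L ++ [b]).IsChain R := by
    cases L with
    | nil => exact absurd rfl hL
    | cons c l => exact (List.isChain_cons_cons.1 h).2
  obtain ⟨h3, -, h4⟩ := List.isChain_append.1 h2
  refine ⟨h3, ?_, ?_⟩
  · cases L with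
    | nil => exact absurd rfl hL
    | cons c l => exact ⟨c, rfl, (List.isChain_cons_cons.1 h).1⟩
  · refine ⟨L.getLast hL, List.getLast?_eq_getLast_of_ne_nil hL, ?_⟩
    exact h4 _ (by rw [List.getLast?_eq_getLast_of_ne_nil hL]; rfl) b (by simp)

lemma same_side : ∀ (l : List (Bool × Bool × Fin 14)) (a : Bool × Bool × Fin 14),
    ((a :: l).map (Sum.inr : _ → W)).IsChain (fun u v => adjB u v = true) → ∀ b ∈ l, b.1 = a.1
  | [], _, _ => by simp
  | c :: l, a, h => by
      simp only [List.map_cons] at h
      obtain ⟨h1, h2⟩ := List.isChain_cons_cons.1 h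
      have hac : a.1 = c.1 := by
        have : (a.1 == c.1 && Q a.2 c.2) = true := h1
        simp at this
        exact this.1
      intro b hb
      rcases List.mem_cons.1 hb with rfl | hb
      · exact hac.symm
      · exact (same_side l c h2 b hb).trans hac.symm

lemma seg (M : List W) (hc : M.IsChain (fun u v => adjB u v = true)) (hn : M.Nodup)
    (hx : Sum.inl false ∉ M) (hy : Sum.inl true ∉ M) (hne : M ≠ []) :
    ∃ (s : Bool) (M' : List (Bool × Fin 14)), M = M'.map (fun p => Sum.inr (s, p)) ∧
      M'.IsChain (fun a b => Q a b = true) ∧ M'.Nodup ∧ M'.length ≤ 28 := by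
  have h1 : M ∈ Set.range (List.map (Sum.inr : (Bool × Bool × Fin 14) → W)) := by
    rw [Set.range_list_map]
    intro u hu
    rcases u with h | p
    · cases h
      · exact absurd hu hx
      · exact absurd hu hy
    · exact ⟨p, rfl⟩
  obtain ⟨L, rfl⟩ := h1
  cases L with
  | nil => simp at hne
  | cons a l =>
    have hs := same_side l a hc
    have hs' : ∀ b ∈ a :: l, b.1 = a.1 := by
      intro b hb
      rcases List.mem_cons.1 hb with rfl | hb
      · rfl
      · exact hs b hb
    have hinj : (a :: l).Nodup := List.Nodup.of_map _ hn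
    have e : (a :: l) = ((a :: l).map Prod.snd).map (fun p => (a.1, p)) := by
      rw [List.map_map]
      conv_lhs => rw [← List.map_id (a :: l)]
      apply List.map_congr_left
      intro b hb
      simp [← hs' b hb]
    have hn2 : ((a :: l).map Prod.snd).Nodup := by
      refine (List.nodup_map_iff_inj_on hinj).2 ?_
      intro b hb c hc hbc
      exact Prod.ext ((hs' b hb).trans (hs' c hc).symm) hbc
    refine ⟨a.1, (a :: l).map Prod.snd, ?_, ?_, hn2, ?_⟩
    · conv_lhs => rw [e]
      rw [List.map_map]
      rfl
    · rw [List.isChain_map] at hc ⊢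
      refine hc.imp ?_
      intro b c hbc
      have : (b.1 == c.1 && Q b.2 c.2) = true := hbc
      simp at this
      exact this.2
    · have := hn2.length_le_card
      simpa using this

def R (s : Bool) : List W :=
  sideL.map (fun p => Sum.inr (s, p)) ++ Sum.inl true :: (sideL.map (fun p => Sum.inr (!s, p))).reverse

lemma att_false (p : Bool × Fin 14) (h : att false p.1 p.2 = true) :
    (p.1 = false ∧ p.2 = 13) ∨ (p.1 = true ∧ isC p.2 = true) := by
  obtain ⟨t, i⟩ := p
  cases t <;> simpa [att] using h

lemma att_true (p : Bool × Fin 14) (h : att true p.1 p.2 = true) :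
    (p.1 = true ∧ p.2 = 13) ∨ (p.1 = false ∧ isC p.2 = true) := by
  obtain ⟨t, i⟩ := p
  cases t <;> simpa [att] using h

lemma main_list (M : List W)
    (hc : (Sum.inl false :: (M ++ [Sum.inl false])).IsChain (fun u v => adjB u v = true))
    (hn : (Sum.inl false :: M).Nodup) (hlen : 56 ≤ M.length) : ∃ s, M = R s := by
  obtain ⟨hx, hnM⟩ := List.nodup_cons.1 hn
  by_cases hy : Sum.inl true ∈ M
  · obtain ⟨M₁, M₂, rfl⟩ := List.append_of_mem hy
    have hc' : (((Sum.inl false :: M₁) ++ Sum.inl true :: (M₂ ++ [Sum.inl false])) : List W).IsChain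
        (fun u v => adjB u v = true) := by simpa using hc
    rw [List.isChain_split] at hc'
    obtain ⟨hc1, hc2⟩ := hc'
    have hM1 : M₁ ≠ [] := by
      rintro rfl
      have := (List.isChain_cons_cons.1 hc1).1
      simp [adjB] at this
    have hM2 : M₂ ≠ [] := by
      rintro rfl
      have := (List.isChain_cons_cons.1 hc2).1
      simp [adjB] at this
    obtain ⟨k1, ⟨p1, hp1, hp1'⟩, ⟨q1, hq1, hq1'⟩⟩ := chain_ends _ _ _ M₁ hM1 hc1
    obtain ⟨k2, ⟨p2, hp2, hp2'⟩, ⟨q2, hq2, hq2'⟩⟩ := chain_ends _ _ _ M₂ hM2 hc2
    have hnd := List.nodup_append.1 hnM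
    have hnd2 := List.nodup_cons.1 hnd.2.1
    have hxy : Sum.inl false ∉ M₁ ∧ Sum.inl false ∉ M₂ := by
      simp only [List.mem_append, List.mem_cons, not_or] at hx
      exact ⟨hx.1, hx.2.2⟩
    have hyM1 : Sum.inl true ∉ M₁ := by
      intro h
      exact hnd.2.2 _ h _ (by simp) rfl
    obtain ⟨s1, M1', rfl, c1, n1, l1⟩ := seg M₁ k1 hnd.1 hxy.1 hyM1 hM1
    obtain ⟨s2, M2', rfl, c2, n2, l2⟩ := seg M₂ k2 hnd2.2 hxy.2 hnd2.1 hM2
    simp only [List.length_append, List.length_cons, List.length_map] at hlen
    have hs : s2 = !s1 := by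
      by_contra hne
      have hs12 : s2 = s1 := by
        cases s1 <;> cases s2 <;> simp_all
      subst hs12
      have hdis : (M1' ++ M2').Nodup := by
        rw [List.nodup_append]
        refine ⟨n1, n2, ?_⟩
        intro a ha b hb hab
        subst hab
        refine hnd.2.2 (Sum.inr (s2, a)) (List.mem_map.2 ⟨a, ha, rfl⟩) (Sum.inr (s2, a)) ?_ rfl
        exact List.mem_cons_of_mem _ (List.mem_map.2 ⟨a, hb, rfl⟩)
      have := hdis.length_le_card
      simp at this
      omega
    rw [List.head?_map] at hp1 hp2
    rw [List.getLast?_map] at hq1 hq2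
    cases hh1 : M1'.head? with
    | none => rw [hh1] at hp1; simp at hp1
    | some a1 =>
    cases hh2 : M2'.head? with
    | none => rw [hh2] at hp2; simp at hp2
    | some a2 =>
    cases hg1 : M1'.getLast? with
    | none => rw [hg1] at hq1; simp at hq1
    | some b1 =>
    cases hg2 : M2'.getLast? with
    | none => rw [hg2] at hq2; simp at hq2
    | some b2 =>
    rw [hh1] at hp1; rw [hh2] at hp2; rw [hg1] at hq1; rw [hg2] at hq2
    simp only [Option.map_some, Option.some.injEq] at hp1 hp2 hq1 hq2
    subst hp1 hp2 hq1 hq2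
    have e1 : M1' = sideL := side_lemma M1' c1 n1 (by omega) a1 b1 hh1 hg1
      (att_false a1 hp1') (att_true b1 hq1')
    have e2 : M2'.reverse = sideL := side_lemma M2'.reverse
      (by
        rw [List.isChain_reverse]
        exact c2.imp (fun a b hab => by rw [Q_symm]; exact hab))
      (List.nodup_reverse.2 n2) (by simp; omega) b2 a2
      (by rw [List.head?_reverse, hg2]) (by rw [List.getLast?_reverse, hh2])
      (att_false b2 hq2') (att_true a2 hp2')
    refine ⟨s1, ?_⟩
    rw [e1, hs]
    unfold R
    rw [← e2, ← List.map_reverse, List.reverse_reverse]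
  · exfalso
    have hM : M ≠ [] := by rintro rfl; simp at hlen
    obtain ⟨k1, -, -⟩ := chain_ends _ _ _ M hM hc
    obtain ⟨s, M', rfl, -, -, l1⟩ := seg M k1 hnM hx hy hM
    simp at hlen
    omega

lemma main_cycle (L : List W) (hc : Cycle.Chain (fun u v => adjB u v = true) (L : Cycle W)) (hn : L.Nodup)
    (hlen : 57 ≤ L.length) : ∃ s, (L : Cycle W) = ((Sum.inl false :: R s : List W) : Cycle W) := by
  have key : ∀ a ∈ L, ∃ M : List W, (L : Cycle W) = ((a :: M : List W) : Cycle W) ∧
      (a :: (M ++ [a])).IsChain (fun u v => adjB u v = true) ∧ (a :: M).Nodup ∧ 56 ≤ M.length := by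
    intro a ha
    obtain ⟨l1, l2, rfl⟩ := List.append_of_mem ha
    have hr : (l1 ++ a :: l2) ~r (a :: (l2 ++ l1)) := by
      have := List.isRotated_append (l := l1) (l' := a :: l2)
      simpa using this
    have he : ((l1 ++ a :: l2 : List W) : Cycle W) = ((a :: (l2 ++ l1) : List W) : Cycle W) :=
      Cycle.coe_eq_coe.2 hr
    refine ⟨l2 ++ l1, he, ?_, hr.nodup_iff.1 hn, ?_⟩
    · rw [he] at hc
      exact (Cycle.chain_coe_cons _ _ _).1 hc
    · have := hr.perm.length_eq
      simp only [List.length_append, List.length_cons] at this hlen ⊢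
      omega
  by_cases hx : Sum.inl false ∈ L
  · obtain ⟨M, h1, h2, h3, h4⟩ := key _ hx
    obtain ⟨s, rfl⟩ := main_list M h2 h3 h4
    exact ⟨s, h1⟩
  · exfalso
    by_cases hy : Sum.inl true ∈ L
    · obtain ⟨M, h1, h2, h3, h4⟩ := key _ hy
      have hM : M ≠ [] := by rintro rfl; simp at h4
      have hxM : Sum.inl false ∉ M := by
        intro h
        have hr := Cycle.coe_eq_coe.1 h1
        exact hx (hr.mem_iff.2 (List.mem_cons_of_mem _ h))
      obtain ⟨k1, -, -⟩ := chain_ends _ _ _ M hM h2
      obtain ⟨hy', hnM⟩ := List.nodup_cons.1 h3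
      obtain ⟨s, M', rfl, -, -, l1⟩ := seg M k1 hnM hxM hy' hM
      simp at h4
      omega
    · cases L with
      | nil => simp at hlen
      | cons a l =>
        have h2 := (Cycle.chain_coe_cons _ _ _).1 hc
        have h3 : ((a :: l) ++ [a]).IsChain (fun u v => adjB u v = true) := by simpa using h2
        obtain ⟨s, M', hM', -, -, l1⟩ := seg (a :: l) (List.isChain_append.1 h3).1 hn hx hy (by simp)
        rw [hM'] at hlen
        simp at hlen
        omega

lemma hamCycle_of_list {α : Type*} [DecidableEq α] [Fintype α] (H : SimpleGraph α) (a b m : α) (M : List α)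
    (hc : (a :: b :: m :: (M ++ [a])).IsChain H.Adj) (hn : (a :: b :: m :: M).Nodup)
    (hcard : (a :: b :: m :: M).length = Fintype.card α) : H.IsHamiltonian := by
  intro _
  obtain ⟨hab, hc1⟩ := List.isChain_cons_cons.1 hc
  obtain ⟨hbm, hc2⟩ := List.isChain_cons_cons.1 hc1
  have hne : m :: (M ++ [a]) ≠ [] := by simp
  have hlast : (m :: (M ++ [a])).getLast hne = a := by
    rw [List.getLast_cons (by simp)]
    simp
  let q : H.Walk m a := (SimpleGraph.Walk.ofSupport (m :: (M ++ [a])) hne hc2).copy rfl hlast
  have hq : q.support = m :: (M ++ [a]) :=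
    (SimpleGraph.Walk.support_copy _ _ _).trans (SimpleGraph.Walk.support_ofSupport hne hc2)
  have hperm : (a :: b :: m :: M).Perm (b :: m :: (M ++ [a])) := by
    have : ((b :: m :: M) ++ [a]).Perm (a :: b :: m :: M) := List.perm_append_singleton a _
    simpa using this.symm
  have hn' : (b :: m :: (M ++ [a])).Nodup := hperm.nodup_iff.1 hn
  have hba : b ≠ a := by
    rintro rfl
    simp at hn
  have ham : a ≠ m := by
    rintro rfl
    simp at hn
  have hpath : (SimpleGraph.Walk.cons hbm q).IsPath := by
    rw [SimpleGraph.Walk.isPath_def, SimpleGraph.Walk.support_cons, hq]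
    exact hn'
  have hnotin : s(a, b) ∉ (SimpleGraph.Walk.cons hbm q).edges := by
    rw [SimpleGraph.Walk.edges_cons, List.mem_cons, not_or]
    constructor
    · intro h
      rw [Sym2.eq_iff] at h
      rcases h with ⟨h1, -⟩ | ⟨h1, -⟩
      · exact hba h1.symm
      · exact ham h1
    · intro h
      have := SimpleGraph.Walk.snd_mem_support_of_mem_edges q h
      rw [hq] at this
      exact (List.nodup_cons.1 hn').1 this
  refine ⟨a, SimpleGraph.Walk.cons hab (SimpleGraph.Walk.cons hbm q), ?_⟩
  rw [SimpleGraph.Walk.isHamiltonianCycle_iff_isCycle_and_length_eq]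
  refine ⟨(SimpleGraph.Walk.cons_isCycle_iff _ hab).2 ⟨hpath, hnotin⟩, ?_⟩
  rw [← hcard]
  have := congrArg List.length hq
  rw [SimpleGraph.Walk.length_support] at this
  simp only [SimpleGraph.Walk.length_cons, List.length_cons, List.length_append, List.length_nil] at this ⊢
  omega

lemma cycle_list {α : Type*} [DecidableEq α] [Fintype α] (H : SimpleGraph α) (a : α)
    (p : H.Walk a a) (hp : p.IsHamiltonianCycle) :
    ∃ M : List α, (a :: (M ++ [a])).IsChain H.Adj ∧ (a :: M).Nodup ∧ (a :: M).length = Fintype.card α := by
  have hne : p.support.tail ≠ [] := by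
    intro h
    have h2 := (SimpleGraph.Walk.isHamiltonianCycle_iff_isCycle_and_support_count_tail_eq_one.1 hp).2 a
    rw [h] at h2
    simp at h2
  have hlast : p.support.tail.getLast hne = a := by
    have h1 : p.support.getLast p.support_ne_nil = a := p.getLast_support
    rw [← List.getLast_tail] at h1
    exact h1
  have hs : p.support = a :: (p.support.tail.dropLast ++ [a]) := by
    conv_lhs => rw [← p.cons_tail_support]
    congr 1
    conv_lhs => rw [← List.dropLast_append_getLast hne]
    rw [hlast]
  refine ⟨p.support.tail.dropLast, ?_, ?_, ?_⟩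
  · rw [← hs]
    exact p.isChain_adj_support
  · have hnd := hp.isCycle.support_nodup
    rw [← List.dropLast_append_getLast hne, hlast] at hnd
    exact ((List.perm_append_singleton a _).nodup_iff).1 hnd
  · have h1 := hp.length_eq
    have h2 := congrArg List.length hs
    rw [SimpleGraph.Walk.length_support] at h2
    simp only [List.length_cons, List.length_append, List.length_nil] at h2 ⊢
    omega

lemma card_W : Fintype.card W = 58 := by decide

lemma G_ham : G.IsHamiltonian := by
  have hc : (Sum.inl false :: (R false ++ [Sum.inl false])).IsChain (fun u v => adjB u v = true) := by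
    decide +kernel
  have hn : (Sum.inl false :: R false).Nodup := by decide +kernel
  have hl : (Sum.inl false :: R false).length = Fintype.card W := by
    rw [card_W]
    decide +kernel
  generalize hL : R false = L at hc hn hl
  rcases L with _ | ⟨b, _ | ⟨m, M⟩⟩
  · rw [card_W] at hl; simp at hl
  · rw [card_W] at hl; simp at hl
  · exact hamCycle_of_list G (Sum.inl false) b m M hc hn hl

set_option maxRecDepth 100000 in
lemma G_deg : ∀ x : W, 3 ≤ G.degree x := by decide +kernel

lemma R_rev (s : Bool) : ((Sum.inl false :: R (!s) : List W) : Cycle W) =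
    (((Sum.inl false :: R s : List W)).reverse : Cycle W) := by
  rw [Cycle.coe_eq_coe]
  have h : (R s).reverse = R (!s) := by
    unfold R
    cases s <;> simp
  rw [List.reverse_cons, h]
  exact (List.isRotated_append (l := [Sum.inl false]) (l' := R (!s)))

lemma chain_rev {α : Type*} (r : α → α → Prop) (hr : ∀ a b, r a b → r b a) (L : List α)
    (h : Cycle.Chain r (L : Cycle α)) : Cycle.Chain r (L.reverse : Cycle α) := by
  cases L with
  | nil => simpa using h
  | cons a l =>
    have h1 := (Cycle.chain_coe_cons _ _ _).1 h
    have e : (((a :: l).reverse : List α) : Cycle α) = ((a :: l.reverse : List α) : Cycle α) := by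
      rw [Cycle.coe_eq_coe, List.reverse_cons]
      exact (List.isRotated_append (l := l.reverse) (l' := [a]))
    rw [e, Cycle.chain_coe_cons]
    have h2 : ((a :: (l ++ [a])).reverse).IsChain r := by
      rw [List.isChain_reverse]
      exact h1.imp (fun a b hab => hr a b hab)
    simpa using h2

lemma two_cycles (r : W → W → Prop) (hr : ∀ a b, r a b → r b a) (hsub : ∀ a b, r a b → adjB a b = true)
    (L₁ L₂ : List W) (h1 : Cycle.Chain r (L₁ : Cycle W)) (hn1 : L₁.Nodup) (hl1 : 57 ≤ L₁.length)
    (h2 : Cycle.Chain (fun u v => adjB u v = true) (L₂ : Cycle W)) (hn2 : L₂.Nodup) (hl2 : 57 ≤ L₂.length) :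
    Cycle.Chain r (L₂ : Cycle W) := by
  obtain ⟨s1, e1⟩ := main_cycle L₁ (h1.imp hsub) hn1 hl1
  obtain ⟨s2, e2⟩ := main_cycle L₂ h2 hn2 hl2
  rw [e1] at h1
  rw [e2]
  by_cases hs : s1 = s2
  · rw [← hs]; exact h1
  · have hs' : s2 = !s1 := by cases s1 <;> cases s2 <;> simp_all
    rw [hs', R_rev]
    exact chain_rev r hr _ h1

lemma R_len (s : Bool) : (Sum.inl false :: R s).length = 58 := by
  cases s <;> decide +kernel

lemma no_57 (L : List W) (h : Cycle.Chain (fun u v => adjB u v = true) (L : Cycle W)) (hn : L.Nodup) :
    L.length ≠ 57 := by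
  intro hl
  obtain ⟨s, e⟩ := main_cycle L h hn (by omega)
  have := (Cycle.coe_eq_coe.1 e).perm.length_eq
  rw [R_len, hl] at this
  omega

theorem core (u v : W) (huv : G.Adj u v) (hdel : (G.deleteEdges {s(u, v)}).IsHamiltonian)
    (hcon : (SimpleGraph.fromRel (fun a b : {x : W // x ≠ v} =>
            G.Adj a.1 b.1 ∨ (a.1 = u ∧ G.Adj v b.1))).IsHamiltonian) : False := by
  have hne : u ≠ v := huv.ne
  have : Nontrivial W := ⟨u, v, hne⟩
  obtain ⟨p, hp⟩ := hdel.exists_isHamiltonianCycle u
  obtain ⟨M₁, hc1, hn1, hl1⟩ := cycle_list _ u p hp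
  rw [card_W] at hl1
  set H := SimpleGraph.fromRel (fun a b : {x : W // x ≠ v} =>
            G.Adj a.1 b.1 ∨ (a.1 = u ∧ G.Adj v b.1)) with hH
  have hcardsub : Fintype.card {x : W // x ≠ v} = 57 := by
    have := Fintype.card_subtype_compl (fun x : W => x = v)
    simp only [Fintype.card_subtype_eq] at this
    rw [card_W] at this
    simpa using this
  have : Nontrivial {x : W // x ≠ v} := by
    rw [← Fintype.one_lt_card_iff_nontrivial, hcardsub]
    omega
  obtain ⟨q, hq⟩ := hcon.exists_isHamiltonianCycle ⟨u, hne⟩
  obtain ⟨M₂, hc2, hn2, hl2⟩ := cycle_list _ _ q hq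
  rw [hcardsub] at hl2
  have hM2 : M₂ ≠ [] := by rintro rfl; simp at hl2
  have hadj : ∀ a b : {x : W // x ≠ v}, H.Adj a b → (G.Adj a.1 b.1 ∨ (a.1 = u ∧ G.Adj v b.1)) ∨
      (b.1 = u ∧ G.Adj v a.1) := by
    intro a b hab
    rw [hH, SimpleGraph.fromRel_adj] at hab
    rcases hab.2 with h | h
    · left; exact h
    · rcases h with h | h
      · left; left; exact h.symm
      · right; exact h
  obtain ⟨k, ⟨a, ha, ha'⟩, ⟨b, hb, hb'⟩⟩ := chain_ends _ _ _ M₂ hM2 hc2
  obtain ⟨hu2, hnM2⟩ := List.nodup_cons.1 hn2
  set m : List W := M₂.map Subtype.val with hm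
  have hum : u ∉ m := by
    intro h
    rw [hm, List.mem_map] at h
    obtain ⟨x, hx, hxu⟩ := h
    apply hu2
    have : x = ⟨u, hne⟩ := Subtype.ext hxu
    rwa [this] at hx
  have hvm : v ∉ m := by
    intro h
    rw [hm, List.mem_map] at h
    obtain ⟨x, hx, hxv⟩ := h
    exact x.2 hxv
  have hnm : m.Nodup := (List.nodup_map_iff Subtype.val_injective).2 hnM2
  have hlm : m.length = 56 := by
    rw [hm, List.length_map]
    simpa using hl2
  have hkm : m.IsChain (fun x y => adjB x y = true) := by
    rw [hm, List.isChain_map]
    refine List.IsChain.imp_of_mem_imp ?_ k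
    intro x y hx hy hxy
    have hxu : x.1 ≠ u := by
      intro h
      apply hum
      rw [← h, hm]
      exact List.mem_map.2 ⟨x, hx, rfl⟩
    have hyu : y.1 ≠ u := by
      intro h
      apply hum
      rw [← h, hm]
      exact List.mem_map.2 ⟨y, hy, rfl⟩
    rcases hadj x y hxy with (h | h) | h
    · exact h
    · exact absurd h.1 hxu
    · exact absurd h.1 hyu
  have hma : m.head? = some a.1 := by rw [hm, List.head?_map, ha]; rfl
  have hmb : m.getLast? = some b.1 := by rw [hm, List.getLast?_map, hb]; rfl
  have ham : a.1 ∈ m := List.mem_of_head? hma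
  have hbm : b.1 ∈ m := List.mem_of_getLast? hmb
  have hmne : m ≠ [] := by intro h; rw [h] at hlm; simp at hlm
  have haA : G.Adj u a.1 ∨ G.Adj v a.1 := by
    rcases hadj _ _ ha' with (h | h) | h
    · left; exact h
    · right; exact h.2
    · exact absurd (h.1 ▸ ham) hum
  have hbA : G.Adj u b.1 ∨ G.Adj v b.1 := by
    rcases hadj _ _ hb' with (h | h) | h
    · left; exact h.symm
    · exact absurd (h.1 ▸ hbm) hum
    · right; exact h.2
  have build : ∀ c d : W, G.Adj c a.1 → G.Adj d b.1 →
      (c :: (m ++ [d])).IsChain (fun x y => adjB x y = true) := by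
    intro c d hca hdb
    have h1 : (m ++ [d]).IsChain (fun x y => adjB x y = true) := by
      rw [List.isChain_append]
      refine ⟨hkm, List.isChain_singleton _, ?_⟩
      intro x hx y hy
      rw [hmb] at hx
      simp only [Option.mem_def, Option.some.injEq, List.head?_cons] at hx hy
      subst hx hy
      exact hdb.symm
    cases hmm : m with
    | nil => exact absurd hmm hmne
    | cons e m' =>
      rw [hmm] at h1 hma
      simp only [List.head?_cons, Option.some.injEq] at hma
      rw [List.cons_append, List.isChain_cons_cons]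
      refine ⟨?_, h1⟩
      rw [hma]
      exact hca
  have near : ∀ c : W, c ∉ m → G.Adj c a.1 → G.Adj c b.1 → False := by
    intro c hcm h1 h2
    refine no_57 (c :: m) ?_ (List.nodup_cons.2 ⟨hcm, hnm⟩) (by simp [hlm])
    rw [Cycle.chain_coe_cons]
    exact build c c h1 h2
  have hamc : ∀ c d : W, (s(c, d) = s(u, v)) → c ≠ d → c ∉ m → d ∉ m → G.Adj c d → G.Adj c a.1 → G.Adj d b.1 →
      False := by
    intro c d hcd hcdne hcm hdm hcd' h1 h2
    have hch : Cycle.Chain (fun x y => adjB x y = true) ((c :: (m ++ [d]) : List W) : Cycle W) := by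
      rw [Cycle.chain_coe_cons]
      have h3 := build c d h1 h2
      have h4 : ((c :: (m ++ [d])) ++ [c]).IsChain (fun x y => adjB x y = true) := by
        rw [List.isChain_append]
        refine ⟨h3, List.isChain_singleton _, ?_⟩
        intro x hx y hy
        have hxd : x = d := by
          rw [← List.cons_append, List.getLast?_append_of_ne_nil _ (by simp)] at hx
          simpa using hx.symm
        simp only [Option.mem_def, Option.some.injEq, List.head?_cons] at hy
        subst hy
        rw [hxd]
        exact hcd'.symm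
      simpa using h4
    have hnn : (c :: (m ++ [d])).Nodup := by
      rw [List.nodup_cons, List.nodup_append]
      refine ⟨?_, hnm, by simp, ?_⟩
      · simp only [List.mem_append, List.mem_singleton, not_or]
        exact ⟨hcm, hcdne⟩
      · intro x hx y hy hxy
        simp only [List.mem_singleton] at hy
        subst hxy hy
        exact hdm hx
    have h1' : Cycle.Chain (G.deleteEdges {s(u, v)}).Adj ((u :: M₁ : List W) : Cycle W) := by
      rw [Cycle.chain_coe_cons]
      exact hc1
    have key := two_cycles (G.deleteEdges {s(u, v)}).Adj (fun x y h => h.symm)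
      (fun x y h => (SimpleGraph.deleteEdges_le _ h : G.Adj x y))
      (u :: M₁) (c :: (m ++ [d])) h1' hn1 (by omega) hch hnn
      (by simp [hlm])
    rw [Cycle.chain_coe_cons] at key
    have key2 : ((c :: m) ++ d :: [c]).IsChain (G.deleteEdges {s(u, v)}).Adj := by simpa using key
    rw [List.isChain_split] at key2
    have h5 := (List.isChain_cons_cons.1 key2.2).1
    rw [SimpleGraph.deleteEdges_adj] at h5
    apply h5.2
    rw [Set.mem_singleton_iff, ← hcd, Sym2.eq_swap]
  rcases haA with h1 | h1 <;> rcases hbA with h2 | h2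
  · exact near u hum h1 h2
  · exact hamc u v rfl hne hum hvm huv h1 h2
  · exact hamc v u Sym2.eq_swap hne.symm hvm hum huv.symm h1 h2
  · exact near v hvm h1 h2

/-- The negation of the preceding statement: Every finite Hamiltonian simple graph with all degrees at least 3 has an edge uv such that both the graph with uv deleted and the graph with uv contracted (v merged into u) are Hamiltonian. -/
theorem result :
    ¬ (∀ (V : Type) [Fintype V] [DecidableEq V] (G : SimpleGraph V) [DecidableRel G.Adj],
      G.IsHamiltonian → (∀ x : V, 3 ≤ G.degree x) →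
      ∃ u v : V, G.Adj u v ∧ (G.deleteEdges {s(u, v)}).IsHamiltonian ∧
        (SimpleGraph.fromRel (fun a b : {x : V // x ≠ v} =>
            G.Adj a.1 b.1 ∨ (a.1 = u ∧ G.Adj v b.1))).IsHamiltonian) := by
  intro h
  obtain ⟨u, v, huv, hdel, hcon⟩ := h W G G_ham G_deg
  exact core u v huv hdel hcon

end Pool.Agent.S05178
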