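import Pool.Statements.S05195
-- import your own Pool.Agent.* helpers here

set_option autoImplicit false
open Pool Pool.MP_32f4b2_co

namespace Pool.Agent.S05195

/-!
# Zimin words and abelian avoidability of patterns (MP_32f4b2)

A pattern `p` with `n` variables is abelian avoidable iff the Zimin word `Z_n` does not encounter it in
the abelian sense.

The avoiding word is the generalised Rudin-Shapiro word: for a prime `Q ≥ 17 (n+2)` the letter at position
`s` is `(s mod Q, Σ_k s_k s_{k+1} mod Q)`, where `s_k` are the base-`Q` digits of `s`.  It is the fixed point of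
the `Q`-uniform affine-plane morphism `(j,u) ↦ (0,u)(1,u+j)(2,u+2j)…(Q-1,u+(Q-1)j)`, whose incidence matrix `M`
satisfies `‖M z‖² = Q‖z‖² + (Σ c_j)² - Σ c_j²` (`plane_identity`).  Given an abelian instance of `p`, the cut
points take at most `n+1` residues mod `Q`, so some window of 17 consecutive residues contains none;
cutting at this window desubstitutes exactly (`step_eq`), and the residues give 0/1-valued functions of the
cut points whose increments depend only on the variable.  Collecting these binary digits over all levels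
gives integers `τ_k` with `⌊τ_{k+1}/2^e⌋ - ⌊τ_k/2^e⌋` depending only on the variable, i.e. an abelian
instance of `p` in a Zimin word (`main_ruler`).
-/

section Pure
variable {Q : ℕ} [hp : Fact Q.Prime]

/-- the affine-plane identity -/
theorem plane_identity (z : ZMod Q → ZMod Q → ℤ) :
    ∑ i : ZMod Q, ∑ h : ZMod Q, (∑ j : ZMod Q, z j (h - i * j)) ^ 2
      = (Q : ℤ) * ∑ j : ZMod Q, ∑ h : ZMod Q, (z j h) ^ 2
        + (∑ j : ZMod Q, ∑ h : ZMod Q, z j h) ^ 2
        - ∑ j : ZMod Q, (∑ h : ZMod Q, z j h) ^ 2 := by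
  classical
  have key : ∀ j j' : ZMod Q,
      ∑ i : ZMod Q, ∑ h : ZMod Q, z j (h - i * j) * z j' (h - i * j')
        = if j = j' then (Q : ℤ) * ∑ h : ZMod Q, (z j h) ^ 2
          else (∑ h : ZMod Q, z j h) * (∑ h : ZMod Q, z j' h) := by
    intro j j'
    have h1 : ∀ i : ZMod Q, ∑ h : ZMod Q, z j (h - i * j) * z j' (h - i * j')
        = ∑ u : ZMod Q, z j u * z j' (u + i * (j - j')) := by
      intro i
      rw [← Equiv.sum_comp (Equiv.addRight (i * j))]
      refine Finset.sum_congr rfl fun u _ => ?_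
      simp only [Equiv.coe_addRight]
      congr 2 <;> ring
    rw [Finset.sum_congr rfl fun i _ => h1 i, Finset.sum_comm]
    split_ifs with hj
    · subst hj
      rw [Finset.mul_sum]
      refine Finset.sum_congr rfl fun u _ => ?_
      simp only [sub_self, mul_zero, add_zero, Finset.sum_const, Finset.card_univ, ZMod.card,
        nsmul_eq_mul]
      ring
    · rw [Finset.sum_mul]
      refine Finset.sum_congr rfl fun u _ => ?_
      rw [← Finset.mul_sum]
      congr 1
      have hne : j - j' ≠ 0 := sub_ne_zero.mpr hj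
      have : Function.Bijective (fun i : ZMod Q => u + i * (j - j')) := by
        rw [← Finite.injective_iff_bijective]
        intro a b hab
        simp only [add_right_inj] at hab
        exact mul_right_cancel₀ hne hab
      exact Equiv.sum_comp (Equiv.ofBijective _ this) (fun h => z j' h)
  have expand : ∑ i : ZMod Q, ∑ h : ZMod Q, (∑ j : ZMod Q, z j (h - i * j)) ^ 2
      = ∑ j : ZMod Q, ∑ j' : ZMod Q, ∑ i : ZMod Q, ∑ h : ZMod Q,
          z j (h - i * j) * z j' (h - i * j') := by
    have e1 : ∀ i h : ZMod Q, (∑ j : ZMod Q, z j (h - i * j)) ^ 2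
        = ∑ j : ZMod Q, ∑ j' : ZMod Q, z j (h - i * j) * z j' (h - i * j') := by
      intro i h
      rw [sq, Finset.sum_mul_sum]
    simp only [e1]
    have e2 : ∀ i : ZMod Q, ∑ h : ZMod Q, ∑ j : ZMod Q, ∑ j' : ZMod Q, z j (h - i * j) * z j' (h - i * j')
        = ∑ j : ZMod Q, ∑ j' : ZMod Q, ∑ h : ZMod Q, z j (h - i * j) * z j' (h - i * j') := by
      intro i
      rw [Finset.sum_comm]
      refine Finset.sum_congr rfl fun j _ => ?_
      rw [Finset.sum_comm]
    simp only [e2]
    rw [Finset.sum_comm]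
    refine Finset.sum_congr rfl fun j _ => ?_
    rw [Finset.sum_comm]
  rw [expand]
  simp only [key]
  have split : ∀ j : ZMod Q, (∑ j' : ZMod Q, if j = j' then (Q : ℤ) * ∑ h : ZMod Q, (z j h) ^ 2
          else (∑ h : ZMod Q, z j h) * (∑ h : ZMod Q, z j' h))
      = (Q : ℤ) * ∑ h : ZMod Q, (z j h) ^ 2 + (∑ h : ZMod Q, z j h) * (∑ j' : ZMod Q, ∑ h : ZMod Q, z j' h)
        - (∑ h : ZMod Q, z j h) ^ 2 := by
    intro j
    have : ∀ j' : ZMod Q, (if j = j' then (Q : ℤ) * ∑ h : ZMod Q, (z j h) ^ 2
          else (∑ h : ZMod Q, z j h) * (∑ h : ZMod Q, z j' h))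
        = (if j = j' then (Q : ℤ) * ∑ h : ZMod Q, (z j h) ^ 2 - (∑ h : ZMod Q, z j h) ^ 2 else 0)
          + (∑ h : ZMod Q, z j h) * (∑ h : ZMod Q, z j' h) := by
      intro j'
      split_ifs with h
      · subst h; ring
      · ring
    rw [Finset.sum_congr rfl fun j' _ => this j', Finset.sum_add_distrib, Finset.sum_ite_eq,
      ← Finset.mul_sum]
    simp
    ring
  rw [Finset.sum_congr rfl fun j _ => split j, Finset.sum_sub_distrib, Finset.sum_add_distrib,
    ← Finset.mul_sum, ← Finset.sum_mul]
  ring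

/-- the window lemma: a small `z` vanishing on 17 directions is zero -/
theorem window_zero (z : ZMod Q → ZMod Q → ℤ)
    (hz : ∑ j : ZMod Q, ∑ h : ZMod Q, (z j h) ^ 2 ≤ 17) (W : Finset (ZMod Q)) (hW : 17 ≤ W.card)
    (h0 : ∀ i ∈ W, ∀ h, ∑ j : ZMod Q, z j (h - i * j) = 0) : ∀ j h, z j h = 0 := by
  classical
  by_contra hcon
  push Not at hcon
  obtain ⟨j0, u0, hne⟩ := hcon
  have hex : ∀ i ∈ W, ∃ j : ZMod Q, j ≠ j0 ∧ z j (u0 + i * j0 - i * j) ≠ 0 := by
    intro i hi
    by_contra hc
    push Not at hc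
    have := h0 i hi (u0 + i * j0)
    rw [Finset.sum_eq_single j0] at this
    · apply hne; simpa using this
    · intro b _ hb; exact hc b hb
    · intro hh; exact absurd (Finset.mem_univ _) hh
  choose! J hJ1 hJ2 using hex
  set supp : Finset (ZMod Q × ZMod Q) := Finset.univ.filter (fun x => z x.1 x.2 ≠ 0) with hsupp
  have hcard : supp.card ≤ 17 := by
    have h1 : (supp.card : ℤ) ≤ ∑ x ∈ supp, (z x.1 x.2) ^ 2 := by
      rw [Finset.card_eq_sum_ones]
      push_cast
      refine Finset.sum_le_sum fun x hx => ?_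
      have hx' : z x.1 x.2 ≠ 0 := by simpa [hsupp] using hx
      have : 0 < (z x.1 x.2) ^ 2 := by positivity
      omega
    have h2 : ∑ x ∈ supp, (z x.1 x.2) ^ 2 ≤ ∑ x : ZMod Q × ZMod Q, (z x.1 x.2) ^ 2 := by
      refine Finset.sum_le_sum_of_subset_of_nonneg (Finset.subset_univ _) ?_
      intro x _ _; positivity
    have h3 : ∑ x : ZMod Q × ZMod Q, (z x.1 x.2) ^ 2 = ∑ j : ZMod Q, ∑ h : ZMod Q, (z j h) ^ 2 := by
      rw [← Finset.univ_product_univ, Finset.sum_product]
    have : (supp.card : ℤ) ≤ 17 := by rw [h3] at h2; linarith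
    exact_mod_cast this
  have hx0 : (j0, u0) ∈ supp := by simp [hsupp, hne]
  have hmap : W.card ≤ (supp.erase (j0, u0)).card := by
    refine Finset.card_le_card_of_injOn (fun i => (J i, u0 + i * j0 - i * J i)) ?_ ?_
    · intro i hi
      have hi' : i ∈ W := hi
      simp only [Finset.coe_erase, Set.mem_sdiff, Set.mem_singleton_iff, Prod.mk.injEq, not_and]
      refine ⟨?_, ?_⟩
      · simp [hsupp, hJ2 i hi']
      · intro h; exact absurd h (hJ1 i hi')
    · intro i hi i' hi' heq
      have hi1 : i ∈ W := hi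
      simp only [Prod.mk.injEq] at heq
      obtain ⟨e1, e2⟩ := heq
      rw [← e1] at e2
      have : (i - i') * (j0 - J i) = 0 := by linear_combination e2
      rcases mul_eq_zero.mp this with h | h
      · exact sub_eq_zero.mp h
      · exact absurd (sub_eq_zero.mp h).symm (hJ1 i hi1)
  rw [Finset.card_erase_of_mem hx0] at hmap
  omega

end Pure

section Word
variable (Q : ℕ)

/-- sum of products of adjacent base-`Q` digits, mod `Q` -/
def gW : ℕ → ZMod Q
  | 0 => 0
  | (s+1) => if h : 2 ≤ Q then gW ((s+1)/Q) + ((s+1 : ℕ) : ZMod Q) * (((s+1)/Q : ℕ) : ZMod Q) else 0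
termination_by s => s
decreasing_by exact Nat.div_lt_self (Nat.succ_pos _) h

theorem gW_eq (hQ : 2 ≤ Q) (s : ℕ) :
    gW Q s = gW Q (s / Q) + (s : ZMod Q) * ((s / Q : ℕ) : ZMod Q) := by
  cases s with
  | zero => simp
  | succ s =>
    conv_lhs => rw [gW]
    rw [dif_pos hQ]

theorem gW_mul_add (hQ : 2 ≤ Q) (s i : ℕ) (hi : i < Q) :
    gW Q (Q * s + i) = gW Q s + (i : ZMod Q) * (s : ZMod Q) := by
  rw [gW_eq Q hQ]
  have h1 : (Q * s + i) / Q = s := by
    rw [Nat.mul_add_div (by omega)]
    rw [Nat.div_eq_of_lt hi]; simp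
  rw [h1]
  push_cast
  simp

/-- number of positions below `T` congruent to `i` mod `Q` (for `i < Q`) -/
def S (i T : ℕ) : ℕ := T / Q + if i < T % Q then 1 else 0

theorem S_succ (hQ : 0 < Q) (i T : ℕ) (hi : i < Q) :
    S Q i (T + 1) = S Q i T + if T % Q = i then 1 else 0 := by
  have h1 := Nat.div_add_mod T Q
  have h2 := Nat.mod_lt T hQ
  set a := T / Q
  set r := T % Q
  have hT : T = Q * a + r := h1.symm
  by_cases hr : r + 1 = Q
  · have h3 : T + 1 = Q * (a + 1) := by rw [hT, mul_add, add_assoc, hr]; ring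
    have h4 : (T + 1) / Q = a + 1 := by rw [h3, Nat.mul_div_cancel_left _ hQ]
    have h5 : (T + 1) % Q = 0 := by rw [h3, Nat.mul_mod_right]
    simp only [S, h4, h5]
    change _ = T / Q + (if i < T % Q then 1 else 0) + _
    split_ifs <;> omega
  · have h3 : T + 1 = Q * a + (r + 1) := by rw [hT]; ring
    have h4 : (T + 1) / Q = a := by
      rw [h3, Nat.mul_add_div hQ, Nat.div_eq_of_lt (by omega)]; simp
    have h5 : (T + 1) % Q = r + 1 := by
      rw [h3, Nat.mul_add_mod, Nat.mod_eq_of_lt (by omega)]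
    simp only [S, h4, h5]
    change _ = T / Q + (if i < T % Q then 1 else 0) + _
    split_ifs <;> omega

theorem S_mono (hQ : 0 < Q) (i : ℕ) (hi : i < Q) : Monotone (S Q i) := by
  refine monotone_nat_of_le_succ fun T => ?_
  rw [S_succ Q hQ i T hi]; omega

/-- count of `s < t` with `g s + i s = h` -/
def A (i t : ℕ) (h : ZMod Q) : ℤ :=
  ∑ s ∈ Finset.range t, if gW Q s + (i : ZMod Q) * (s : ZMod Q) = h then 1 else 0

/-- count of `s < t` with `s ≡ j` and `g s = h` -/
def B (t : ℕ) (j h : ZMod Q) : ℤ :=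
  ∑ s ∈ Finset.range t, if (s : ZMod Q) = j ∧ gW Q s = h then 1 else 0

theorem A_succ (i t : ℕ) (h : ZMod Q) :
    A Q i (t + 1) h = A Q i t h + if gW Q t + (i : ZMod Q) * (t : ZMod Q) = h then 1 else 0 := by
  rw [A, A, Finset.sum_range_succ]

theorem B_succ (t : ℕ) (j h : ZMod Q) :
    B Q (t + 1) j h = B Q t j h + if (t : ZMod Q) = j ∧ gW Q t = h then 1 else 0 := by
  rw [B, B, Finset.sum_range_succ]

theorem A_eq_sum_B [NeZero Q] (i t : ℕ) (h : ZMod Q) :
    ∑ j : ZMod Q, B Q t j (h - (i : ZMod Q) * j) = A Q i t h := by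
  unfold A B
  rw [Finset.sum_comm]
  refine Finset.sum_congr rfl fun s _ => ?_
  have : ∀ j : ZMod Q, (if (s : ZMod Q) = j ∧ gW Q s = h - (i : ZMod Q) * j then (1 : ℤ) else 0)
      = if (s : ZMod Q) = j then (if gW Q s + (i : ZMod Q) * (s : ZMod Q) = h then 1 else 0) else 0 := by
    intro j
    by_cases hj : (s : ZMod Q) = j
    · subst hj
      simp only [true_and, if_true, eq_sub_iff_add_eq]
    · simp [hj]
  rw [Finset.sum_congr rfl fun j _ => this j, Finset.sum_ite_eq]
  simp

theorem B_pos (hQ : 2 ≤ Q) (i T : ℕ) (hi : i < Q) (h : ZMod Q) :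
    B Q T (i : ZMod Q) h = A Q i (S Q i T) h := by
  induction T with
  | zero => simp [B, A, S]
  | succ T ih =>
    rw [B_succ, ih, S_succ Q (by omega) i T hi]
    have hmod : ((T : ZMod Q) = (i : ZMod Q)) ↔ T % Q = i := by
      rw [ZMod.natCast_eq_natCast_iff, Nat.ModEq, Nat.mod_eq_of_lt hi]
    by_cases hT : T % Q = i
    · rw [if_pos hT, A_succ]
      congr 1
      have hS : S Q i T = T / Q := by simp [S, hT]
      rw [hS]
      have hTT : T = Q * (T / Q) + i := by rw [← hT]; exact (Nat.div_add_mod T Q).symm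
      have hg : gW Q T = gW Q (T / Q) + (i : ZMod Q) * ((T / Q : ℕ) : ZMod Q) := by
        conv_lhs => rw [hTT]
        exact gW_mul_add Q hQ _ _ hi
      rw [hg]
      simp [hmod, hT]
    · rw [if_neg hT]
      simp [hmod, hT]

theorem sum_A [NeZero Q] (i t : ℕ) : ∑ h : ZMod Q, A Q i t h = t := by
  unfold A
  rw [Finset.sum_comm]
  simp

theorem sum_B [NeZero Q] (hQ : 2 ≤ Q) (T i : ℕ) (hi : i < Q) :
    ∑ h : ZMod Q, B Q T (i : ZMod Q) h = S Q i T := by
  simp only [B_pos Q hQ i T hi]
  exact sum_A Q i _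

theorem sum_abs_A [NeZero Q] (i a b : ℕ) (hab : a = b ∨ a = b + 1 ∨ b = a + 1) :
    ∑ h : ZMod Q, |A Q i a h - A Q i b h| ≤ 1 := by
  have key : ∀ t : ℕ, ∑ h : ZMod Q, |A Q i (t + 1) h - A Q i t h| = 1 := by
    intro t
    simp only [A_succ, add_sub_cancel_left]
    have : ∀ h : ZMod Q, |(if gW Q t + (i : ZMod Q) * (t : ZMod Q) = h then (1 : ℤ) else 0)|
        = if gW Q t + (i : ZMod Q) * (t : ZMod Q) = h then (1 : ℤ) else 0 := by
      intro h; split_ifs <;> simp
    rw [Finset.sum_congr rfl fun h _ => this h]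
    simp
  rcases hab with h | h | h
  · subst h; simp
  · subst h; exact (key b).le
  · subst h
    have := key a
    have h2 : ∀ h : ZMod Q, |A Q i a h - A Q i (a + 1) h| = |A Q i (a + 1) h - A Q i a h| :=
      fun h => abs_sub_comm _ _
    rw [Finset.sum_congr rfl fun h _ => h2 h]
    exact this.le

end Word

section Step
variable {Q : ℕ} [hp : Fact Q.Prime]

theorem S_bounds (hQ : 0 < Q) (j T : ℕ) (hj : j < Q) :
    (T : ℤ) - j ≤ (Q : ℤ) * (S Q j T : ℤ) ∧ (Q : ℤ) * (S Q j T : ℤ) ≤ (T : ℤ) + Q - 1 - j := by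
  have h1 := Nat.div_add_mod T Q
  have h2 := Nat.mod_lt T hQ
  have h1' : (Q : ℤ) * ((T / Q : ℕ) : ℤ) + ((T % Q : ℕ) : ℤ) = T := by exact_mod_cast h1
  unfold S
  split_ifs with h
  · push_cast
    push_cast at h1'
    constructor
    · nlinarith [h1', h2]
    · have : ((j : ℕ) : ℤ) < ((T % Q : ℕ) : ℤ) := by exact_mod_cast h
      push_cast at this
      nlinarith [h1', h2]
  · push_cast
    push_cast at h1'
    have h3 : ((T % Q : ℕ) : ℤ) ≤ (j : ℤ) := by exact_mod_cast (not_lt.mp h)
    have h4 : (j : ℤ) < Q := by exact_mod_cast hj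
    push_cast at h3
    have h5 : (0 : ℤ) ≤ (T : ℤ) % (Q : ℤ) := by
      apply Int.emod_nonneg; exact_mod_cast hQ.ne'
    constructor
    · nlinarith
    · nlinarith

/-- one exact desubstitution step -/
theorem step_eq (g0 : ℕ) (hg : g0 + 17 ≤ Q) (a a' b b' : ℕ)
    (H : ∀ j h : ZMod Q, B Q a' j h - B Q a j h = B Q b' j h - B Q b j h)
    (hwin : ∀ x ∈ ({a, a', b, b'} : Set ℕ), ∀ i, g0 ≤ i → i < g0 + 17 → S Q i x = S Q g0 x) :
    ∀ j h : ZMod Q, B Q (S Q g0 a') j h - B Q (S Q g0 a) j h
      = B Q (S Q g0 b') j h - B Q (S Q g0 b) j h := by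
  classical
  have hQ2 : 2 ≤ Q := hp.out.two_le
  have hQ0 : 0 < Q := by omega
  set z : ZMod Q → ZMod Q → ℤ := fun j h =>
    (B Q (S Q g0 a') j h - B Q (S Q g0 a) j h) - (B Q (S Q g0 b') j h - B Q (S Q g0 b) j h) with hz
  have D_eq : ∀ (i : ℕ) (h : ZMod Q), ∑ j : ZMod Q, z j (h - (i : ZMod Q) * j)
      = (A Q i (S Q g0 a') h - A Q i (S Q g0 a) h) - (A Q i (S Q g0 b') h - A Q i (S Q g0 b) h) := by
    intro i h
    simp only [hz, Finset.sum_sub_distrib, A_eq_sum_B]
  have HA : ∀ i : ℕ, i < Q → ∀ h : ZMod Q, A Q i (S Q i a') h - A Q i (S Q i a) h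
      = A Q i (S Q i b') h - A Q i (S Q i b) h := by
    intro i hi h
    have := H (i : ZMod Q) h
    simpa only [B_pos Q hQ2 i _ hi] using this
  have hSdiff : ∀ i : ℕ, i < Q → ∀ x : ℕ, S Q g0 x = S Q i x ∨ S Q g0 x = S Q i x + 1 ∨ S Q i x = S Q g0 x + 1 := by
    intro i hi x
    unfold S
    split_ifs <;> omega
  -- bound on each direction
  have hD1 : ∀ i : ℕ, i < Q → ∑ h : ZMod Q, |∑ j : ZMod Q, z j (h - (i : ZMod Q) * j)| ≤ 4 := by
    intro i hi
    have e : ∀ h : ZMod Q, |∑ j : ZMod Q, z j (h - (i : ZMod Q) * j)|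
        ≤ (|A Q i (S Q g0 a') h - A Q i (S Q i a') h| + |A Q i (S Q g0 a) h - A Q i (S Q i a) h|)
          + (|A Q i (S Q g0 b') h - A Q i (S Q i b') h| + |A Q i (S Q g0 b) h - A Q i (S Q i b) h|) := by
      intro h
      rw [D_eq]
      have h1 := HA i hi h
      have e1 : (A Q i (S Q g0 a') h - A Q i (S Q g0 a) h) - (A Q i (S Q g0 b') h - A Q i (S Q g0 b) h)
          = ((A Q i (S Q g0 a') h - A Q i (S Q i a') h) - (A Q i (S Q g0 a) h - A Q i (S Q i a) h))
            - ((A Q i (S Q g0 b') h - A Q i (S Q i b') h) - (A Q i (S Q g0 b) h - A Q i (S Q i b) h)) := by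
        linarith
      rw [e1]
      refine (abs_sub _ _).trans ?_
      exact add_le_add (abs_sub _ _) (abs_sub _ _)
    refine (Finset.sum_le_sum fun h _ => e h).trans ?_
    simp only [Finset.sum_add_distrib]
    have s1 := sum_abs_A Q i (S Q g0 a') (S Q i a') (by have := hSdiff i hi a'; tauto)
    have s2 := sum_abs_A Q i (S Q g0 a) (S Q i a) (by have := hSdiff i hi a; tauto)
    have s3 := sum_abs_A Q i (S Q g0 b') (S Q i b') (by have := hSdiff i hi b'; tauto)
    have s4 := sum_abs_A Q i (S Q g0 b) (S Q i b) (by have := hSdiff i hi b; tauto)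
    linarith
  have hD2 : ∀ i : ZMod Q, ∑ h : ZMod Q, (∑ j : ZMod Q, z j (h - i * j)) ^ 2 ≤ 16 := by
    intro i
    have hi : i.val < Q := ZMod.val_lt i
    have h1 := hD1 i.val hi
    rw [ZMod.natCast_zmod_val] at h1
    have h2 : ∀ h : ZMod Q, (∑ j : ZMod Q, z j (h - i * j)) ^ 2 ≤ 4 * |∑ j : ZMod Q, z j (h - i * j)| := by
      intro h
      have h3 : |∑ j : ZMod Q, z j (h - i * j)| ≤ 4 :=
        (Finset.single_le_sum (f := fun h => |∑ j : ZMod Q, z j (h - i * j)|)
          (fun _ _ => abs_nonneg _) (Finset.mem_univ h)).trans h1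
      rw [← sq_abs, sq]
      exact mul_le_mul_of_nonneg_right h3 (abs_nonneg _)
    refine (Finset.sum_le_sum fun h _ => h2 h).trans ?_
    rw [← Finset.mul_sum]
    linarith
  -- bound on the class sums
  have hlen : (S Q g0 a' : ℤ) - S Q g0 a = (S Q g0 b' : ℤ) - S Q g0 b := by
    have : ∑ h : ZMod Q, (B Q a' (g0 : ZMod Q) h - B Q a (g0 : ZMod Q) h)
        = ∑ h : ZMod Q, (B Q b' (g0 : ZMod Q) h - B Q b (g0 : ZMod Q) h) :=
      Finset.sum_congr rfl fun h _ => H _ h
    simpa only [Finset.sum_sub_distrib, sum_B Q hQ2 _ g0 (by omega)] using this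
  have hc : ∀ j : ZMod Q, (∑ h : ZMod Q, z j h) ^ 2 ≤ 1 := by
    intro j
    have hj : j.val < Q := ZMod.val_lt j
    have e : ∑ h : ZMod Q, z j h = ((S Q j.val (S Q g0 a') : ℤ) - S Q j.val (S Q g0 a))
        - ((S Q j.val (S Q g0 b') : ℤ) - S Q j.val (S Q g0 b)) := by
      have hj' : ((j.val : ℕ) : ZMod Q) = j := ZMod.natCast_zmod_val j
      have : ∀ T, ∑ h : ZMod Q, B Q T j h = S Q j.val T := by
        intro T
        have := sum_B Q hQ2 T j.val hj
        rwa [hj'] at this
      simp only [hz, Finset.sum_sub_distrib, this]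
    rw [e]
    have b1 := S_bounds hQ0 j.val (S Q g0 a') hj
    have b2 := S_bounds hQ0 j.val (S Q g0 a) hj
    have b3 := S_bounds hQ0 j.val (S Q g0 b') hj
    have b4 := S_bounds hQ0 j.val (S Q g0 b) hj
    have hQpos : (0 : ℤ) < Q := by exact_mod_cast hQ0
    generalize (S Q j.val (S Q g0 a') : ℤ) = A1 at *
    generalize (S Q j.val (S Q g0 a) : ℤ) = A2 at *
    generalize (S Q j.val (S Q g0 b') : ℤ) = A3 at *
    generalize (S Q j.val (S Q g0 b) : ℤ) = A4 at *
    have u1 : (Q : ℤ) * ((A1 - A2) - (A3 - A4)) < Q * 2 := by nlinarith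
    have u2 : -(Q * 2 : ℤ) < (Q : ℤ) * ((A1 - A2) - (A3 - A4)) := by nlinarith
    have v1 : (A1 - A2) - (A3 - A4) < 2 := lt_of_mul_lt_mul_left u1 hQpos.le
    have v2 : -2 < (A1 - A2) - (A3 - A4) := by
      have : (Q : ℤ) * (-2) < (Q : ℤ) * ((A1 - A2) - (A3 - A4)) := by linarith
      exact lt_of_mul_lt_mul_left this hQpos.le
    have v3 : (A1 - A2) - (A3 - A4) = -1 ∨ (A1 - A2) - (A3 - A4) = 0 ∨ (A1 - A2) - (A3 - A4) = 1 := by omega
    rcases v3 with h | h | h <;> rw [h] <;> norm_num
  have hnorm : ∑ j : ZMod Q, ∑ h : ZMod Q, (z j h) ^ 2 ≤ 17 := by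
    have id := plane_identity z
    have h1 : ∑ i : ZMod Q, ∑ h : ZMod Q, (∑ j : ZMod Q, z j (h - i * j)) ^ 2 ≤ (Q : ℤ) * 16 := by
      calc _ ≤ ∑ i : ZMod Q, (16 : ℤ) := Finset.sum_le_sum fun i _ => hD2 i
        _ = (Q : ℤ) * 16 := by simp [ZMod.card]
    have h2 : ∑ j : ZMod Q, (∑ h : ZMod Q, z j h) ^ 2 ≤ (Q : ℤ) := by
      calc _ ≤ ∑ i : ZMod Q, (1 : ℤ) := Finset.sum_le_sum fun i _ => hc i
        _ = (Q : ℤ) := by simp [ZMod.card]
    have h3 : 0 ≤ (∑ j : ZMod Q, ∑ h : ZMod Q, z j h) ^ 2 := sq_nonneg _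
    have hQpos : (0 : ℤ) < Q := by exact_mod_cast hQ0
    have h4 : (Q : ℤ) * ∑ j : ZMod Q, ∑ h : ZMod Q, (z j h) ^ 2 ≤ (Q : ℤ) * 17 := by linarith
    exact le_of_mul_le_mul_left h4 hQpos
  have hfin := window_zero z hnorm
    ((Finset.range 17).image (fun c => ((g0 + c : ℕ) : ZMod Q))) ?_ ?_
  · intro j h
    have := hfin j h
    simp only [hz] at this
    linarith
  · rw [Finset.card_image_of_injOn]
    · simp
    · intro c hc c' hc' heq
      simp only [Finset.coe_range, Set.mem_Iio] at hc hc'
      have heq' : ((g0 + c : ℕ) : ZMod Q) = ((g0 + c' : ℕ) : ZMod Q) := heq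
      rw [ZMod.natCast_eq_natCast_iff, Nat.ModEq, Nat.mod_eq_of_lt (by omega),
        Nat.mod_eq_of_lt (by omega)] at heq'
      omega
  · intro i hi h
    rw [Finset.mem_image] at hi
    obtain ⟨c, hc, rfl⟩ := hi
    rw [Finset.mem_range] at hc
    rw [D_eq]
    have hw : ∀ x ∈ ({a, a', b, b'} : Set ℕ), S Q (g0 + c) x = S Q g0 x :=
      fun x hx => hwin x hx _ (by omega) (by omega)
    have := HA (g0 + c) (by omega) h
    rw [hw a' (by simp), hw a (by simp), hw b' (by simp), hw b (by simp)] at this
    linarith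

end Step

section Ruler

/-- ruler instance of the pattern `p 0, …, p (m-1)`; the step `k` is nonempty iff `Pos k` -/
def RI (p : ℕ → ℕ) (m : ℕ) (Pos : ℕ → Prop) : Prop :=
  ∃ (N : ℕ) (τ : ℕ → ℕ),
    (∃ C : Finset ℕ, N ≤ C.card ∧ ∀ v ∈ C, ∃ k < m, p k = v ∧ Pos k) ∧
    (∀ k ≤ m, τ k < 2 ^ N) ∧
    (∀ e k l : ℕ, k < m → l < m → p k = p l →
      ((τ (k+1) / 2 ^ e : ℕ) : ℤ) - ((τ k / 2 ^ e : ℕ) : ℤ)
        = ((τ (l+1) / 2 ^ e : ℕ) : ℤ) - ((τ l / 2 ^ e : ℕ) : ℤ)) ∧
    (∀ k < m, τ k ≤ τ (k+1) ∧ (τ k < τ (k+1) ↔ Pos k))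

theorem RI_congr {p : ℕ → ℕ} {m : ℕ} {Pos Pos' : ℕ → Prop} (h : RI p m Pos)
    (hP : ∀ k < m, (Pos k ↔ Pos' k)) : RI p m Pos' := by
  obtain ⟨N, τ, ⟨C, h1, h1'⟩, h2, h3, h4⟩ := h
  refine ⟨N, τ, ⟨C, h1, ?_⟩, h2, h3, ?_⟩
  · intro v hv
    obtain ⟨k, hk, hk2, hk3⟩ := h1' v hv
    exact ⟨k, hk, hk2, (hP k hk).mp hk3⟩
  · intro k hk
    exact ⟨(h4 k hk).1, (h4 k hk).2.trans (hP k hk)⟩

theorem RI_extend {p : ℕ → ℕ} {m : ℕ} {Pos Pos' : ℕ → Prop} (h : RI p m Pos) (E : ℕ → ℕ)
    (hE1 : ∀ k, E k ≤ 1)
    (hE2 : ∀ k l : ℕ, k < m → l < m → p k = p l → (E (k+1) : ℤ) - E k = (E (l+1) : ℤ) - E l)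
    (hE3 : ∀ k < m, ¬ Pos k → E k ≤ E (k+1))
    (hP : ∀ k < m, (Pos' k ↔ (Pos k ∨ E k < E (k+1)))) : RI p m Pos' := by
  classical
  by_cases hall : ∀ k < m, (Pos k ↔ Pos' k)
  · exact RI_congr h hall
  · push Not at hall
    obtain ⟨k0, hk0, hk0'⟩ := hall
    obtain ⟨N, τ, ⟨C, h1, h1'⟩, h2, h3, h4⟩ := h
    have hk1 : ¬ Pos k0 ∧ Pos' k0 := by
      have := hP k0 hk0
      tauto
    refine ⟨N + 1, fun k => 2 * τ k + E k, ⟨insert (p k0) C, ?_, ?_⟩, ?_, ?_, ?_⟩
    · rw [Finset.card_insert_of_notMem]
      · omega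
      · intro hmem
        obtain ⟨k, hk, hk2, hk3⟩ := h1' _ hmem
        have e := h3 0 k k0 hk hk0 hk2
        simp only [pow_zero, Nat.div_one] at e
        have a1 := (h4 k hk).2.mpr hk3
        have a2 : ¬ τ k0 < τ (k0+1) := fun hh => hk1.1 ((h4 k0 hk0).2.mp hh)
        omega
    · intro v hv
      rw [Finset.mem_insert] at hv
      rcases hv with hv | hv
      · exact ⟨k0, hk0, hv.symm, hk1.2⟩
      · obtain ⟨k, hk, hk2, hk3⟩ := h1' v hv
        exact ⟨k, hk, hk2, (hP k hk).mpr (Or.inl hk3)⟩
    · intro k hk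
      have := h2 k hk
      have := hE1 k
      simp only [pow_succ]
      omega
    · intro e k l hk hl hpkl
      cases e with
      | zero =>
        have e0 := h3 0 k l hk hl hpkl
        have e1 := hE2 k l hk hl hpkl
        simp only [pow_zero, Nat.div_one] at e0 ⊢
        push_cast
        linarith
      | succ e =>
        have e0 := h3 e k l hk hl hpkl
        have hdiv : ∀ k, (2 * τ k + E k) / 2 ^ (e+1) = τ k / 2 ^ e := by
          intro k
          rw [pow_succ', ← Nat.div_div_eq_div_mul]
          congr 1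
          have := hE1 k
          omega
        simp only [hdiv]
        exact e0
    · intro k hk
      have a1 := hE1 k
      have a2 := hE1 (k+1)
      have a3 := h4 k hk
      by_cases hpk : Pos k
      · have a4 := a3.2.mpr hpk
        constructor
        · simp only; omega
        · constructor
          · intro _; exact (hP k hk).mpr (Or.inl hpk)
          · intro _; simp only; omega
      · have a4 : ¬ τ k < τ (k+1) := fun hh => hpk (a3.2.mp hh)
        have a5 : τ k = τ (k+1) := by omega
        have a6 := hE3 k hk hpk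
        constructor
        · simp only; omega
        · rw [hP k hk]
          constructor
          · intro hh; right; simp only at hh; omega
          · intro hh
            rcases hh with hh | hh
            · exact absurd hh hpk
            · simp only; omega

end Ruler

section Main
variable {Q : ℕ} [hp : Fact Q.Prime]

theorem sum_sum_B (T : ℕ) : ∑ j : ZMod Q, ∑ h : ZMod Q, B Q T j h = T := by
  induction T with
  | zero => simp [B]
  | succ T ih =>
    simp only [B_succ, Finset.sum_add_distrib, ih]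
    have e : ∀ j : ZMod Q, ∑ h : ZMod Q, (if (T : ZMod Q) = j ∧ gW Q T = h then (1 : ℤ) else 0)
        = if (T : ZMod Q) = j then 1 else 0 := by
      intro j
      by_cases hj : (T : ZMod Q) = j
      · simp only [hj, true_and, if_true]
        rw [Finset.sum_ite_eq, if_pos (Finset.mem_univ _)]
      · simp [hj]
    rw [Finset.sum_congr rfl fun j _ => e j, Finset.sum_ite_eq, if_pos (Finset.mem_univ _)]
    push_cast
    rfl

theorem label_aux (hQ : 0 < Q) (a a' b b' : ℕ)
    (hS : ∀ i < Q, (S Q i a' : ℤ) - S Q i a = (S Q i b' : ℤ) - S Q i b) :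
    a' % Q = a % Q ∨ a' % Q = b' % Q := by
  have m1 := Nat.mod_lt a hQ
  have m2 := Nat.mod_lt a' hQ
  have m3 := Nat.mod_lt b hQ
  have m4 := Nat.mod_lt b' hQ
  have e1 := hS (Q-1) (by omega)
  have e2 := hS (a' % Q) m2
  have hlt : ∀ r < Q, ¬ (Q - 1 < r) := by intro r hr; omega
  unfold S at e1 e2
  rw [if_neg (hlt _ m1), if_neg (hlt _ m2), if_neg (hlt _ m3), if_neg (hlt _ m4)] at e1
  rw [if_neg (lt_irrefl _)] at e2
  push_cast at e1 e2
  by_contra hcon
  push Not at hcon
  obtain ⟨hc1, hc2⟩ := hcon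
  rcases Nat.eq_zero_or_pos (a' % Q) with h0 | h0
  · have k1 : a' % Q < a % Q := by omega
    have k2 : a' % Q < b' % Q := by omega
    rw [if_pos k1, if_pos k2] at e2
    split_ifs at e2 <;> omega
  · have e3 := hS (a' % Q - 1) (by omega)
    unfold S at e3
    rw [if_pos (show a' % Q - 1 < a' % Q by omega)] at e3
    push_cast at e3
    by_cases k1 : a' % Q < a % Q
    · rw [if_pos k1] at e2
      rw [if_pos (show a' % Q - 1 < a % Q by omega)] at e3
      by_cases k2 : a' % Q < b' % Q
      · rw [if_pos k2] at e2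
        split_ifs at e2 <;> omega
      · rw [if_neg k2] at e2
        rw [if_neg (show ¬ a' % Q - 1 < b' % Q by omega)] at e3
        by_cases k3 : a' % Q < b % Q
        · rw [if_pos k3] at e2
          rw [if_pos (show a' % Q - 1 < b % Q by omega)] at e3
          omega
        · rw [if_neg k3] at e2
          omega
    · rw [if_neg k1] at e2
      rw [if_neg (show ¬ a' % Q - 1 < a % Q by omega)] at e3
      by_cases k2 : a' % Q < b' % Q
      · rw [if_pos k2] at e2
        rw [if_pos (show a' % Q - 1 < b' % Q by omega)] at e3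
        by_cases k3 : a' % Q < b % Q
        · rw [if_pos (show a' % Q - 1 < b % Q by omega)] at e3
          omega
        · rw [if_neg k3] at e2
          omega
      · rw [if_neg k2] at e2
        rw [if_neg (show ¬ a' % Q - 1 < b' % Q by omega)] at e3
        split_ifs at e3 <;> omega


theorem S_total (hQ : 2 ≤ Q) (a a' b b' : ℕ)
    (H : ∀ j h : ZMod Q, B Q a' j h - B Q a j h = B Q b' j h - B Q b j h) :
    (∀ i < Q, (S Q i a' : ℤ) - S Q i a = (S Q i b' : ℤ) - S Q i b) ∧
      ((a' : ℤ) - a = (b' : ℤ) - b) := by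
  constructor
  · intro i hi
    have : ∑ h : ZMod Q, (B Q a' (i : ZMod Q) h - B Q a (i : ZMod Q) h)
        = ∑ h : ZMod Q, (B Q b' (i : ZMod Q) h - B Q b (i : ZMod Q) h) :=
      Finset.sum_congr rfl fun h _ => H _ h
    simpa only [Finset.sum_sub_distrib, sum_B Q hQ _ i hi] using this
  · have : ∑ j : ZMod Q, ∑ h : ZMod Q, (B Q a' j h - B Q a j h)
        = ∑ j : ZMod Q, ∑ h : ZMod Q, (B Q b' j h - B Q b j h) :=
      Finset.sum_congr rfl fun j _ => Finset.sum_congr rfl fun h _ => H _ h
    simpa only [Finset.sum_sub_distrib, sum_sum_B] using this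

theorem mono_of_step {t : ℕ → ℕ} {m : ℕ} (h : ∀ k < m, t k ≤ t (k+1)) :
    ∀ l ≤ m, ∀ k ≤ l, t k ≤ t l := by
  intro l
  induction l with
  | zero => intro _ k hk; rw [Nat.le_zero.mp hk]
  | succ l ih =>
    intro hl k hk
    rcases Nat.lt_or_ge k (l+1) with hlt | hge
    · exact (ih (by omega) k (by omega)).trans (h l (by omega))
    · rw [le_antisymm hk hge]

/-- the labels `t k % Q` take at most `n+1` values -/
theorem labels_card (p : ℕ → ℕ) (m : ℕ) (t : ℕ → ℕ) (hQ : 2 ≤ Q)
    (H : ∀ k l, k < m → l < m → p k = p l → ∀ j h : ZMod Q,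
      B Q (t (k+1)) j h - B Q (t k) j h = B Q (t (l+1)) j h - B Q (t l) j h) :
    ∃ L : Finset ℕ, L.card ≤ ((Finset.range m).image p).card + 1 ∧ ∀ k ≤ m, t k % Q ∈ L := by
  classical
  have hex : ∀ v ∈ (Finset.range m).image p, ∃ k, k < m ∧ p k = v := by
    intro v hv
    rw [Finset.mem_image] at hv
    obtain ⟨k, hk, hk2⟩ := hv
    exact ⟨k, Finset.mem_range.mp hk, hk2⟩
  choose! κ hκ1 hκ2 using hex
  refine ⟨insert (t 0 % Q) (((Finset.range m).image p).image (fun v => t (κ v + 1) % Q)), ?_, ?_⟩
  · refine (Finset.card_insert_le _ _).trans ?_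
    exact Nat.add_le_add_right Finset.card_image_le 1
  · intro k
    induction k with
    | zero => intro _; exact Finset.mem_insert_self _ _
    | succ k ih =>
      intro hk
      have hv : p k ∈ (Finset.range m).image p :=
        Finset.mem_image.mpr ⟨k, Finset.mem_range.mpr (by omega), rfl⟩
      have h1 := hκ1 _ hv
      have h2 := hκ2 _ hv
      have h3 := (S_total hQ _ _ _ _ (H k (κ (p k)) (by omega) h1 h2.symm)).1
      rcases label_aux (by omega) _ _ _ _ h3 with h | h
      · rw [h]; exact ih (by omega)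
      · rw [h]
        apply Finset.mem_insert_of_mem
        exact Finset.mem_image.mpr ⟨p k, hv, rfl⟩

theorem exists_window (n : ℕ) (hQn : 17 * (n + 2) ≤ Q) (L : Finset ℕ) (hL : L.card ≤ n + 1) :
    ∃ g0, g0 + 17 ≤ Q ∧ ∀ r ∈ L, r < g0 ∨ g0 + 17 ≤ r := by
  classical
  have : ∃ c ∈ Finset.range (n + 2), c ∉ L.image (fun r => r / 17) := by
    by_contra hcon
    push Not at hcon
    have h1 := Finset.card_le_card (s := Finset.range (n+2)) (t := L.image (fun r => r / 17))
      (fun c hc => hcon c hc)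
    have h2 : (L.image (fun r => r / 17)).card ≤ L.card := Finset.card_image_le
    simp only [Finset.card_range] at h1
    omega
  obtain ⟨c, hc, hc2⟩ := this
  rw [Finset.mem_range] at hc
  refine ⟨17 * c, by omega, ?_⟩
  intro r hr
  by_contra hcon
  push Not at hcon
  apply hc2
  exact Finset.mem_image.mpr ⟨r, hr, by omega⟩

theorem main_ruler (p : ℕ → ℕ) (m n : ℕ) (hn : ((Finset.range m).image p).card ≤ n)
    (hQn : 17 * (n + 2) ≤ Q) :
    ∀ D : ℕ, ∀ t : ℕ → ℕ, (∀ k < m, t k ≤ t (k+1)) →
    (∀ k l, k < m → l < m → p k = p l → ∀ j h : ZMod Q,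
      B Q (t (k+1)) j h - B Q (t k) j h = B Q (t (l+1)) j h - B Q (t l) j h) →
    t m - t 0 ≤ D → RI p m (fun k => t k < t (k+1)) := by
  classical
  intro D
  induction D using Nat.strong_induction_on with
  | _ D IH =>
  intro t hmono H hD
  have hQ2 : 2 ≤ Q := hp.out.two_le
  have hQ0 : 0 < Q := by omega
  have hmon := mono_of_step hmono
  by_cases hsmall : t m - t 0 ≤ 1
  · -- base case
    refine ⟨t m - t 0, fun k => t k - t 0, ?_, ?_, ?_, ?_⟩
    · by_cases h0 : t m - t 0 = 0
      · exact ⟨∅, by simp [h0], by simp⟩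
      · have : ∃ k < m, t k < t (k+1) := by
          by_contra hcon
          push Not at hcon
          have hconst : ∀ k ≤ m, t k = t 0 := by
            intro k
            induction k with
            | zero => intro _; rfl
            | succ k ih =>
              intro hk
              have := ih (by omega)
              have h1 := hcon k (by omega)
              have h2 := hmono k (by omega)
              omega
          have := hconst m le_rfl
          omega
        obtain ⟨k, hk, hk2⟩ := this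
        refine ⟨{p k}, by simpa using hsmall, ?_⟩
        intro v hv
        rw [Finset.mem_singleton] at hv
        exact ⟨k, hk, hv.symm, hk2⟩
    · intro k hk
      have h1 := hmon m le_rfl k hk
      have h2 : t k - t 0 ≤ t m - t 0 := by omega
      exact lt_of_le_of_lt h2 Nat.lt_two_pow_self
    · intro e k l hk hl hpkl
      have e1 := (S_total hQ2 _ _ _ _ (H k l hk hl hpkl)).2
      have b0 := hmon k (by omega) 0 (by omega)
      have b1 := hmon (k+1) (by omega) 0 (by omega)
      have b2 := hmon l (by omega) 0 (by omega)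
      have b3 := hmon (l+1) (by omega) 0 (by omega)
      have c0 := hmon m le_rfl k (by omega)
      have c1 := hmon m le_rfl (k+1) (by omega)
      have c2 := hmon m le_rfl l (by omega)
      have c3 := hmon m le_rfl (l+1) (by omega)
      cases e with
      | zero => simp only [pow_zero, Nat.div_one]; omega
      | succ e =>
        have hz : ∀ x : ℕ, x ≤ 1 → x / 2 ^ (e+1) = 0 := by
          intro x hx
          apply Nat.div_eq_of_lt
          have : 2 ^ 1 ≤ 2 ^ (e+1) := Nat.pow_le_pow_right (by norm_num) (by omega)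
          omega
        simp only
        rw [hz _ (by omega), hz _ (by omega), hz _ (by omega), hz _ (by omega)]
    · intro k hk
      have b0 := hmon k (by omega) 0 (by omega)
      have b1 := hmono k hk
      simp only
      omega
  · -- inductive step
    obtain ⟨L, hL1, hL2⟩ := labels_card p m t hQ2 H
    obtain ⟨g0, hg0, hwin⟩ := exists_window n hQn L (by omega)
    have hg0Q : g0 < Q := by omega
    have hSwin : ∀ k ≤ m, ∀ i, g0 ≤ i → i < g0 + 17 → S Q i (t k) = S Q g0 (t k) := by
      intro k hk i hi1 hi2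
      have := hwin _ (hL2 k hk)
      unfold S
      congr 1
      split_ifs <;> omega
    set t' : ℕ → ℕ := fun k => S Q g0 (t k) with ht'
    have hmono' : ∀ k < m, t' k ≤ t' (k+1) := fun k hk => S_mono Q hQ0 g0 hg0Q (hmono k hk)
    have H' : ∀ k l, k < m → l < m → p k = p l → ∀ j h : ZMod Q,
        B Q (t' (k+1)) j h - B Q (t' k) j h = B Q (t' (l+1)) j h - B Q (t' l) j h := by
      intro k l hk hl hpkl
      refine step_eq g0 hg0 _ _ _ _ (H k l hk hl hpkl) ?_
      intro x hx i hi1 hi2
      simp only [Set.mem_insert_iff, Set.mem_singleton_iff] at hx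
      rcases hx with rfl | rfl | rfl | rfl
      · exact hSwin _ (by omega) i hi1 hi2
      · exact hSwin _ (by omega) i hi1 hi2
      · exact hSwin _ (by omega) i hi1 hi2
      · exact hSwin _ (by omega) i hi1 hi2
    have hlt : t' m - t' 0 < t m - t 0 := by
      have b1 := (S_bounds hQ0 g0 (t m) hg0Q).2
      have b2 := (S_bounds hQ0 g0 (t 0) hg0Q).1
      have b3 := hmon m le_rfl 0 (by omega)
      by_contra hcon
      have b4 : (t m : ℤ) - t 0 ≤ (S Q g0 (t m) : ℤ) - S Q g0 (t 0) := by
        simp only [ht'] at hcon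
        omega
      have b5 : (2 : ℤ) ≤ (t m : ℤ) - t 0 := by omega
      have hQz : (2 : ℤ) ≤ Q := by exact_mod_cast hQ2
      nlinarith
    have hRI0 := IH (t' m - t' 0) (by omega) t' hmono' H' le_rfl
    -- add thresholds one at a time
    have hstep : ∀ i ≤ Q, RI p m (fun k => t' k < t' (k+1) ∨ ∃ i' < i, S Q i' (t k) < S Q i' (t (k+1))) := by
      intro i
      induction i with
      | zero =>
        intro _
        refine RI_congr hRI0 ?_
        intro k _
        simp
      | succ i ih =>
        intro hi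
        have hiQ : i < Q := by omega
        have hbr : ∀ k, S Q g0 (t k) ≤ S Q i (t k) + (if g0 < i then 1 else 0) ∧
            S Q i (t k) + (if g0 < i then 1 else 0) ≤ S Q g0 (t k) + 1 := by
          intro k
          unfold S
          split_ifs <;> omega
        refine RI_extend (ih (by omega))
          (fun k => S Q i (t k) + (if g0 < i then 1 else 0) - S Q g0 (t k)) ?_ ?_ ?_ ?_
        · intro k
          have := hbr k
          omega
        · intro k l hk hl hpkl
          have e1 := (S_total hQ2 _ _ _ _ (H k l hk hl hpkl)).1 i hiQ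
          have e2 := (S_total hQ2 _ _ _ _ (H k l hk hl hpkl)).1 g0 hg0Q
          have c1 := hbr k
          have c2 := hbr (k+1)
          have c3 := hbr l
          have c4 := hbr (l+1)
          omega
        · intro k hk hnp
          push Not at hnp
          have d1 := hnp.1
          have d2 := hmono' k hk
          have d3 := S_mono Q hQ0 i hiQ (hmono k hk)
          simp only [ht'] at d1 d2
          omega
        · intro k hk
          have d2 := hmono' k hk
          have c1 := hbr k
          have c2 := hbr (k+1)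
          have d3 := S_mono Q hQ0 i hiQ (hmono k hk)
          simp only [ht'] at d2 ⊢
          constructor
          · rintro (h | ⟨i', hi', h⟩)
            · exact Or.inl (Or.inl h)
            · rcases Nat.lt_or_ge i' i with hlt' | hge'
              · exact Or.inl (Or.inr ⟨i', hlt', h⟩)
              · have : i' = i := by omega
                subst this
                by_cases hh : S Q g0 (t k) < S Q g0 (t (k+1))
                · exact Or.inl (Or.inl hh)
                · right; omega
          · rintro ((h | ⟨i', hi', h⟩) | h)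
            · exact Or.inl h
            · exact Or.inr ⟨i', by omega, h⟩
            · by_cases hh : S Q g0 (t k) < S Q g0 (t (k+1))
              · exact Or.inl hh
              · exact Or.inr ⟨i, by omega, by omega⟩
    refine RI_congr (hstep Q le_rfl) ?_
    intro k hk
    constructor
    · rintro (h | ⟨i', hi', h⟩)
      · by_contra hcon
        have : t k = t (k+1) := le_antisymm (hmono k hk) (not_lt.mp hcon)
        simp only [ht', this] at h
        exact lt_irrefl _ h
      · by_contra hcon
        have : t k = t (k+1) := le_antisymm (hmono k hk) (not_lt.mp hcon)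
        simp only [this] at h
        exact lt_irrefl _ h
    · intro h
      right
      refine ⟨t k % Q, Nat.mod_lt _ hQ0, ?_⟩
      have h1 := S_succ Q hQ0 (t k % Q) (t k) (Nat.mod_lt _ hQ0)
      rw [if_pos rfl] at h1
      have h2 := S_mono Q hQ0 (t k % Q) (Nat.mod_lt _ hQ0) (show t k + 1 ≤ t (k+1) from h)
      omega

end Main

section Lists

theorem flatten_split {α : Type*} (x : ℕ → α) : ∀ (m : ℕ) (f : Fin m → List α) (i M : ℕ),
    (List.ofFn f).flatten = (List.range' i M).map x →
    ∃ t : ℕ → ℕ, t 0 = i ∧ t m = i + M ∧ ∀ k (hk : k < m),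
      t (k+1) = t k + (f ⟨k, hk⟩).length ∧
        f ⟨k, hk⟩ = (List.range' (t k) (f ⟨k, hk⟩).length).map x := by
  intro m
  induction m with
  | zero =>
    intro f i M h
    simp only [List.ofFn_zero, List.flatten_nil] at h
    have hM : M = 0 := by
      have := congrArg List.length h
      simpa using this.symm
    exact ⟨fun _ => i, rfl, by simp [hM], fun k hk => absurd hk (by omega)⟩
  | succ m ih =>
    intro f i M h
    rw [List.ofFn_succ, List.flatten_cons] at h
    have hlen := congrArg List.length h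
    rw [List.length_append, List.length_map, List.length_range'] at hlen
    have hM : M = (f 0).length + (List.ofFn fun i : Fin m => f i.succ).flatten.length := by omega
    rw [hM, ← List.range'_append_1, List.map_append] at h
    obtain ⟨h1, h2⟩ := List.append_inj h (by simp)
    obtain ⟨t, ht0, htm, ht⟩ := ih _ _ _ h2
    refine ⟨fun k => if k = 0 then i else t (k-1), by simp, ?_, ?_⟩
    · simp only [Nat.add_eq_zero_iff, one_ne_zero, and_false, if_false, Nat.add_sub_cancel]
      rw [htm]; omega
    · intro k hk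
      cases k with
      | zero =>
        simp only [zero_add, one_ne_zero, if_false, if_true, Nat.sub_self]
        exact ⟨ht0, h1⟩
      | succ k =>
        obtain ⟨e1, e2⟩ := ht k (by omega)
        simp only [Nat.add_eq_zero_iff, one_ne_zero, and_false, if_false, Nat.add_sub_cancel]
        exact ⟨e1, e2⟩

theorem flatten_build {α : Type*} (y : ℕ → α) : ∀ (m : ℕ) (t : ℕ → ℕ), (∀ k < m, t k ≤ t (k+1)) →
    (List.ofFn (fun k : Fin m => (List.range' (t k) (t (k+1) - t k)).map y)).flatten
      = (List.range' (t 0) (t m - t 0)).map y := by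
  intro m
  induction m with
  | zero => intro t _; simp
  | succ m ih =>
    intro t ht
    rw [List.ofFn_succ, List.flatten_cons]
    have h1 := ih (fun k => t (k+1)) (fun k hk => ht (k+1) (by omega))
    simp only [zero_add] at h1
    have h2 : (List.ofFn fun i : Fin m => (List.range' (t (i.succ : Fin (m+1))) (t ((i.succ : Fin (m+1)) + 1) - t (i.succ : Fin (m+1)))).map y)
        = List.ofFn fun k : Fin m => (List.range' (t (k+1)) (t (k+1+1) - t (k+1))).map y := by
      simp only [Fin.val_succ]
    rw [h2, h1]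
    simp only [Fin.val_zero, zero_add]
    rw [← List.map_append]
    congr 1
    have hm : t 1 ≤ t (m+1) := mono_of_step ht (m+1) le_rfl 1 (by omega)
    have h0 : t 0 ≤ t 1 := ht 0 (by omega)
    have e1 : t 1 = t 0 + (t 1 - t 0) := by omega
    have e2 : t (m+1) - t 0 = (t 1 - t 0) + (t (m+1) - t 1) := by omega
    rw [e2, ← List.range'_append_1]
    rw [← e1]

/-- letters of the Zimin words, at position `s+1` -/
def ru (s : ℕ) : ℕ := padicValNat 2 (s + 1) + 1

theorem count_ru (e a len : ℕ) :
    ((((List.range' a len).map ru).count (e+1) : ℕ) : ℤ)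
      = ((((a + len) / 2 ^ e : ℕ) : ℤ) - (((a + len) / 2 ^ (e+1) : ℕ) : ℤ))
        - (((a / 2 ^ e : ℕ) : ℤ) - ((a / 2 ^ (e+1) : ℕ) : ℤ)) := by
  induction len with
  | zero => simp
  | succ len ih =>
    rw [List.range'_concat, List.map_append, List.count_append]
    push_cast
    push_cast at ih
    rw [ih]
    simp only [one_mul, List.map_cons, List.map_nil, List.count_singleton]
    rw [← add_assoc]
    have h1 : (a + len + 1) / 2 ^ e = (a + len) / 2 ^ e + if 2 ^ e ∣ a + len + 1 then 1 else 0 := Nat.succ_div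
    have h2 : (a + len + 1) / 2 ^ (e+1) = (a + len) / 2 ^ (e+1) + if 2 ^ (e+1) ∣ a + len + 1 then 1 else 0 := Nat.succ_div
    have h1' : (((a + len + 1) / 2 ^ e : ℕ) : ℤ) = (((a + len) / 2 ^ e : ℕ) : ℤ) + (if 2 ^ e ∣ a + len + 1 then 1 else 0) := by
      rw [h1]; push_cast; rfl
    have h2' : (((a + len + 1) / 2 ^ (e+1) : ℕ) : ℤ) = (((a + len) / 2 ^ (e+1) : ℕ) : ℤ) + (if 2 ^ (e+1) ∣ a + len + 1 then 1 else 0) := by
      rw [h2]; push_cast; rfl
    push_cast at h1' h2'
    rw [h1', h2']
    have h3 : (ru (a + len) == e + 1) = true ↔ (2 ^ e ∣ a + len + 1 ∧ ¬ 2 ^ (e+1) ∣ a + len + 1) := by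
      rw [padicValNat_dvd_iff_le (by omega), padicValNat_dvd_iff_le (by omega), beq_iff_eq]
      unfold ru
      omega
    have h4 : 2 ^ (e+1) ∣ a + len + 1 → 2 ^ e ∣ a + len + 1 := fun h =>
      (pow_dvd_pow 2 (by omega)).trans h
    by_cases c1 : 2 ^ e ∣ a + len + 1
    · by_cases c2 : 2 ^ (e+1) ∣ a + len + 1
      · have : ¬ ((ru (a + len) == e + 1) = true) := fun h => (h3.mp h).2 c2
        rw [if_neg this, if_pos c1, if_pos c2]
        push_cast; ring
      · rw [if_pos (h3.mpr ⟨c1, c2⟩), if_pos c1, if_neg c2]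
        push_cast; ring
    · have c2 : ¬ 2 ^ (e+1) ∣ a + len + 1 := fun h => c1 (h4 h)
      have : ¬ ((ru (a + len) == e + 1) = true) := fun h => c1 (h3.mp h).1
      rw [if_neg this, if_neg c1, if_neg c2]
      push_cast; ring

theorem count_ru_zero (a len : ℕ) : ((List.range' a len).map ru).count 0 = 0 := by
  rw [List.count_eq_zero]
  intro h
  rw [List.mem_map] at h
  obtain ⟨s, _, hs⟩ := h
  unfold ru at hs
  omega

/-- Zimin words -/
abbrev Zl (n : ℕ) : List ℕ :=
  Nat.rec (motive := fun _ => List ℕ) [] (fun j z => z ++ [j + 1] ++ z) n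

theorem Zl_eq (n : ℕ) : Zl n = (List.range' 0 (2 ^ n - 1)).map ru := by
  induction n with
  | zero => simp [Zl]
  | succ n ih =>
    have h1 : Zl (n+1) = Zl n ++ [n + 1] ++ Zl n := rfl
    rw [h1, ih]
    have hp : 1 ≤ 2 ^ n := Nat.one_le_two_pow
    have e1 : 2 ^ (n+1) - 1 = (2 ^ n - 1) + (1 + (2 ^ n - 1)) := by rw [pow_succ]; omega
    rw [e1, ← List.range'_append_1, ← List.range'_append_1, List.map_append, List.map_append]
    rw [List.append_assoc]
    congr 1
    congr 1
    · simp only [zero_add, List.range'_one, List.map_cons, List.map_nil]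
      unfold ru
      rw [Nat.sub_add_cancel hp, padicValNat.prime_pow]
    · apply List.ext_getElem
      · simp
      · intro s hs1 hs2
        simp only [List.length_map, List.length_range'] at hs1
        simp only [List.getElem_map, List.getElem_range', one_mul, zero_add]
        unfold ru
        congr 1
        have e2 : 2 ^ n - 1 + 1 + s + 1 = 2 ^ n + (s + 1) := by omega
        rw [e2]
        -- valuation of 2^n + (s+1) with s+1 < 2^n
        have hlt : s + 1 < 2 ^ n := by omega
        have hv : padicValNat 2 (s + 1) < n := by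
          by_contra hcon
          push Not at hcon
          have hd : 2 ^ n ∣ s + 1 := (padicValNat_dvd_iff_le (by omega)).mpr hcon
          exact absurd (Nat.le_of_dvd (by omega) hd) (by omega)
        apply le_antisymm
        · -- v(s+1) ≤ v(2^n+s+1)
          rw [← padicValNat_dvd_iff_le (by omega)]
          exact dvd_add (pow_dvd_pow 2 hv.le) pow_padicValNat_dvd
        · by_contra hcon
          push Not at hcon
          have hd : 2 ^ (padicValNat 2 (s+1) + 1) ∣ 2 ^ n + (s + 1) :=
            (padicValNat_dvd_iff_le (by omega)).mpr hcon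
          have hd2 : 2 ^ (padicValNat 2 (s+1) + 1) ∣ 2 ^ n := pow_dvd_pow 2 hv
          have hd3 := (Nat.dvd_add_right hd2).mp hd
          have := (padicValNat_dvd_iff_le (by omega)).mp hd3
          omega

end Lists

section Unavoidable

theorem mem_Zl {n c : ℕ} (h : c ∈ Zl n) : c ≤ n := by
  induction n with
  | zero => simp [Zl] at h
  | succ n ih =>
    have h1 : Zl (n+1) = Zl n ++ [n + 1] ++ Zl n := rfl
    rw [h1] at h
    simp only [List.mem_append, List.mem_singleton] at h
    rcases h with (h | h) | h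
    · exact (ih h).trans (by omega)
    · omega
    · exact (ih h).trans (by omega)

theorem zimin_unavoidable (k n : ℕ) : ∃ L : ℕ, ∀ (x : ℕ → Fin k) (i : ℕ),
    ∃ φ : ℕ → List (Fin k), (∀ c, φ c ≠ []) ∧ ∃ i' len, i ≤ i' ∧ i' + len ≤ i + L ∧
      (Zl n).flatMap φ = (List.range' i' len).map x := by
  induction n with
  | zero =>
    refine ⟨0, fun x i => ⟨fun _ => [x 0], by simp, i, 0, le_rfl, le_rfl, by simp [Zl]⟩⟩
  | succ n ih =>
    obtain ⟨L, hL⟩ := ih
    refine ⟨(Fintype.card (Fin L → Fin k) + 1) * (L + 1), fun x i => ?_⟩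
    set K := Fintype.card (Fin L → Fin k) with hK
    obtain ⟨c, c', hne, heq⟩ := Fintype.exists_ne_map_eq_of_card_lt
      (fun c : Fin (K + 1) => (fun o : Fin L => x (i + c.val * (L + 1) + o.val))) (by simp [hK])
    wlog hcc : c.val < c'.val generalizing c c' with Hw
    · have : c.val ≠ c'.val := fun h => hne (Fin.ext h)
      exact Hw c' c hne.symm heq.symm (by omega)
    obtain ⟨φ, hφ, i', len, h1, h2, h3⟩ := hL x (i + c.val * (L + 1))
    have hc' := c'.isLt
    obtain ⟨d, hd⟩ : ∃ d, c'.val = c.val + d + 1 := ⟨c'.val - c.val - 1, by omega⟩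
    set δ := (d + 1) * (L + 1) with hδ
    have hδL : L + 1 ≤ δ := by rw [hδ]; nlinarith
    have hper : ∀ s, i + c.val * (L + 1) ≤ s → s < i + c.val * (L + 1) + L → x (s + δ) = x s := by
      intro s hs1 hs2
      have := congrFun heq ⟨s - (i + c.val * (L + 1)), by omega⟩
      simp only at this
      have e1 : i + c.val * (L + 1) + (s - (i + c.val * (L + 1))) = s := by omega
      have e2 : i + c'.val * (L + 1) + (s - (i + c.val * (L + 1))) = s + δ := by
        have : c'.val * (L + 1) = c.val * (L + 1) + δ := by rw [hd, hδ]; ring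
        omega
      rw [e1, e2] at this
      exact this.symm
    have hcopy : (List.range' (i' + δ) len).map x = (List.range' i' len).map x := by
      apply List.ext_getElem
      · simp
      · intro s hs1 hs2
        simp only [List.length_map, List.length_range'] at hs1
        simp only [List.getElem_map, List.getElem_range', one_mul]
        have := hper (i' + s) (by omega) (by omega)
        rw [← this]
        congr 1
        omega
    have hlen : len ≤ L := by omega
    refine ⟨Function.update φ (n+1) ((List.range' (i' + len) (δ - len)).map x), ?_, i',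
      len + (δ - len) + len, by omega, ?_, ?_⟩
    · intro c
      by_cases hc : c = n + 1
      · subst hc
        rw [Function.update_self]
        intro h
        have := congrArg List.length h
        simp only [List.length_map, List.length_range', List.length_nil] at this
        omega
      · rw [Function.update_of_ne hc]; exact hφ c
    · have e1 : (c.val + d + 1) * (L + 1) + L < (K + 1) * (L + 1) := by
        have : c.val + d + 1 + 1 ≤ K + 1 := by omega
        nlinarith
      have e2 : (c.val + d + 1) * (L + 1) = c.val * (L + 1) + δ := by rw [hδ]; ring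
      omega
    · have hz : Zl (n+1) = Zl n ++ [n + 1] ++ Zl n := rfl
      have hcong : (Zl n).flatMap (Function.update φ (n+1) ((List.range' (i' + len) (δ - len)).map x))
          = (Zl n).flatMap φ := by
        apply List.flatMap_congr
        intro c hc
        have := mem_Zl hc
        rw [Function.update_of_ne (by omega)]
      rw [hz, List.flatMap_append, List.flatMap_append, hcong, h3]
      have e3 : ([n+1] : List ℕ).flatMap (Function.update φ (n+1) ((List.range' (i' + len) (δ - len)).map x))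
          = (List.range' (i' + len) (δ - len)).map x := by simp
      rw [e3, ← List.range'_append_1, ← List.range'_append_1, List.map_append, List.map_append]
      congr 1
      rw [← hcopy]
      congr 2
      omega

end Unavoidable

section Final

theorem count_x (Q : ℕ) [Fact Q.Prime] (e : ZMod Q × ZMod Q ≃ Fin (Fintype.card (ZMod Q × ZMod Q)))
    (j h : ZMod Q) (a len : ℕ) :
    ((((List.range' a len).map (fun s : ℕ => e ((s : ZMod Q), gW Q s))).count (e (j, h)) : ℕ) : ℤ)
      = B Q (a + len) j h - B Q a j h := by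
  induction len with
  | zero => simp
  | succ len ih =>
    rw [List.range'_concat, List.map_append, List.count_append]
    push_cast
    rw [ih, ← add_assoc, B_succ]
    simp only [one_mul, List.map_cons, List.map_nil, List.count_singleton]
    have : (e (((a + len : ℕ) : ZMod Q), gW Q (a + len)) == e (j, h)) = true ↔
        (((a + len : ℕ) : ZMod Q) = j ∧ gW Q (a + len) = h) := by
      rw [beq_iff_eq, e.apply_eq_iff_eq, Prod.mk.injEq]
    by_cases hc : (((a + len : ℕ) : ZMod Q) = j ∧ gW Q (a + len) = h)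
    · rw [if_pos (this.mpr hc), if_pos hc]; push_cast; ring
    · rw [if_neg (fun hh => hc (this.mp hh)), if_neg hc]; push_cast; ring

theorem avoid (p : List ℕ)
    (hfree : ¬ ∃ w : List ℕ, w <:+: Zl p.toFinset.card ∧ ∃ f : Fin p.length → List ℕ,
      (∀ t, f t ≠ []) ∧ (List.ofFn f).flatten = w ∧
        ∀ a b : Fin p.length, p.get a = p.get b → (f a).Perm (f b)) :
    ∃ k : ℕ, ∃ x : ℕ → Fin k, ∀ i m : ℕ,
        ¬ ∃ f : Fin p.length → List (Fin k),
            (∀ t, f t ≠ []) ∧
            (List.ofFn f).flatten = (List.range m).map (fun t => x (i + t)) ∧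
            ∀ a b : Fin p.length, p.get a = p.get b → (f a).Perm (f b) := by
  classical
  obtain ⟨Q, hQge, hQp⟩ := Nat.exists_infinite_primes (17 * (p.toFinset.card + 2))
  have : Fact Q.Prime := ⟨hQp⟩
  have e : ZMod Q × ZMod Q ≃ Fin (Fintype.card (ZMod Q × ZMod Q)) := Fintype.equivFin _
  refine ⟨Fintype.card (ZMod Q × ZMod Q), fun s : ℕ => e ((s : ZMod Q), gW Q s), fun i M => ?_⟩
  rintro ⟨f, hne, hflat, hperm⟩
  apply hfree
  have hflat' : (List.ofFn f).flatten = (List.range' i M).map (fun s : ℕ => e ((s : ZMod Q), gW Q s)) := by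
    rw [hflat, List.range'_eq_map_range, List.map_map]
    rfl
  obtain ⟨t, ht0, htm, ht⟩ := flatten_split _ _ f i M hflat'
  set p' : ℕ → ℕ := fun k => p.getD k 0 with hp'
  have hp'get : ∀ k (hk : k < p.length), p' k = p.get ⟨k, hk⟩ := by
    intro k hk
    simp only [hp', List.get_eq_getElem]
    rw [List.getD_eq_getElem _ _ hk]
  have hsub : (Finset.range p.length).image p' ⊆ p.toFinset := by
    intro v hv
    rw [Finset.mem_image] at hv
    obtain ⟨k, hk, hk2⟩ := hv
    rw [Finset.mem_range] at hk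
    rw [List.mem_toFinset, ← hk2, hp'get k hk]
    exact List.get_mem _ _
  have hmono : ∀ k < p.length, t k ≤ t (k+1) := by
    intro k hk
    rw [(ht k hk).1]; omega
  have H : ∀ k l, k < p.length → l < p.length → p' k = p' l → ∀ j h : ZMod Q,
      B Q (t (k+1)) j h - B Q (t k) j h = B Q (t (l+1)) j h - B Q (t l) j h := by
    intro k l hk hl hpkl j h
    rw [hp'get k hk, hp'get l hl] at hpkl
    have h1 := (hperm _ _ hpkl).count_eq (e (j, h))
    rw [(ht k hk).2, (ht l hl).2] at h1
    have h2 := count_x Q e j h (t k) (f ⟨k, hk⟩).length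
    have h3 := count_x Q e j h (t l) (f ⟨l, hl⟩).length
    rw [← (ht k hk).1] at h2
    rw [← (ht l hl).1] at h3
    rw [← h2, ← h3, h1]
  obtain ⟨N, τ, ⟨C, hC1, hC2⟩, hτ1, hτ2, hτ3⟩ := main_ruler p' p.length p.toFinset.card
    (Finset.card_le_card hsub) hQge (t p.length - t 0) t hmono H le_rfl
  have hstrict : ∀ k < p.length, τ k < τ (k+1) := by
    intro k hk
    apply (hτ3 k hk).2.mpr
    rw [(ht k hk).1]
    have : (f ⟨k, hk⟩).length ≠ 0 := by
      intro h0
      exact hne ⟨k, hk⟩ (List.length_eq_zero_iff.mp h0)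
    omega
  have hN : N ≤ p.toFinset.card := by
    refine hC1.trans (Finset.card_le_card ?_)
    intro v hv
    obtain ⟨k, hk, hk2, _⟩ := hC2 v hv
    exact hsub (Finset.mem_image.mpr ⟨k, Finset.mem_range.mpr hk, hk2⟩)
  have hτm : τ p.length ≤ 2 ^ p.toFinset.card - 1 := by
    have h1 := hτ1 p.length le_rfl
    have h2 : 2 ^ N ≤ 2 ^ p.toFinset.card := Nat.pow_le_pow_right (by norm_num) hN
    omega
  have hτ0m : τ 0 ≤ τ p.length := mono_of_step (fun k hk => (hτ3 k hk).1) p.length le_rfl 0 (by omega)
  refine ⟨(List.range' (τ 0) (τ p.length - τ 0)).map ru, ?_,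
    fun k : Fin p.length => (List.range' (τ k) (τ (k+1) - τ k)).map ru, ?_, ?_, ?_⟩
  · rw [Zl_eq]
    refine ⟨(List.range' 0 (τ 0)).map ru, (List.range' (τ p.length) (2 ^ p.toFinset.card - 1 - τ p.length)).map ru, ?_⟩
    rw [← List.map_append, ← List.map_append]
    congr 1
    have e1 : 2 ^ p.toFinset.card - 1 = τ 0 + (τ p.length - τ 0) + (2 ^ p.toFinset.card - 1 - τ p.length) := by omega
    conv_rhs => rw [e1]
    rw [← List.range'_append_1, ← List.range'_append_1]
    simp only [zero_add]
    congr 2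
    omega
  · intro k h
    have := congrArg List.length h
    simp only [List.length_map, List.length_range', List.length_nil] at this
    have := hstrict k k.isLt
    omega
  · exact flatten_build ru p.length τ (fun k hk => (hτ3 k hk).1)
  · intro a b hab
    rw [List.perm_iff_count]
    intro c
    cases c with
    | zero => rw [count_ru_zero, count_ru_zero]
    | succ c =>
      have hpab : p' a.val = p' b.val := by
        rw [hp'get _ a.isLt, hp'get _ b.isLt]; exact hab
      have h1 := hτ2 c a.val b.val a.isLt b.isLt hpab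
      have h2 := hτ2 (c+1) a.val b.val a.isLt b.isLt hpab
      have e1 := count_ru c (τ a.val) (τ (a.val+1) - τ a.val)
      have e2 := count_ru c (τ b.val) (τ (b.val+1) - τ b.val)
      have u1 : τ a.val + (τ (a.val+1) - τ a.val) = τ (a.val+1) := by
        have := (hτ3 a.val a.isLt).1; omega
      have u2 : τ b.val + (τ (b.val+1) - τ b.val) = τ (b.val+1) := by
        have := (hτ3 b.val b.isLt).1; omega
      rw [u1] at e1
      rw [u2] at e2
      have : ((((List.range' (τ a.val) (τ (a.val+1) - τ a.val)).map ru).count (c+1) : ℕ) : ℤ)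
          = ((((List.range' (τ b.val) (τ (b.val+1) - τ b.val)).map ru).count (c+1) : ℕ) : ℤ) := by
        rw [e1, e2]; linarith
      exact_mod_cast this

theorem flatten_map_flatMap {α β : Type*} (φ : α → List β) (L : List (List α)) :
    (L.map (fun l => l.flatMap φ)).flatten = L.flatten.flatMap φ := by
  induction L with
  | nil => simp
  | cons a L ih => simp only [List.map_cons, List.flatten_cons, List.flatMap_append, ih]

theorem unavoid (p : List ℕ)
    (hx : ∃ k : ℕ, ∃ x : ℕ → Fin k, ∀ i m : ℕ,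
        ¬ ∃ f : Fin p.length → List (Fin k),
            (∀ t, f t ≠ []) ∧
            (List.ofFn f).flatten = (List.range m).map (fun t => x (i + t)) ∧
            ∀ a b : Fin p.length, p.get a = p.get b → (f a).Perm (f b)) :
    ¬ ∃ w : List ℕ, w <:+: Zl p.toFinset.card ∧ ∃ f : Fin p.length → List ℕ,
      (∀ t, f t ≠ []) ∧ (List.ofFn f).flatten = w ∧
        ∀ a b : Fin p.length, p.get a = p.get b → (f a).Perm (f b) := by
  obtain ⟨k, x, hx⟩ := hx
  rintro ⟨w, ⟨u, v, huv⟩, f, hne, hflat, hperm⟩
  obtain ⟨L, hL⟩ := zimin_unavoidable k p.toFinset.card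
  obtain ⟨φ, hφ, i', len, h1, h2, h3⟩ := hL x 0
  rw [← huv, List.flatMap_append, List.flatMap_append] at h3
  have hlen := congrArg List.length h3
  simp only [List.length_append, List.length_map, List.length_range'] at hlen
  rw [← hlen, ← List.range'_append_1, ← List.range'_append_1, List.map_append, List.map_append] at h3
  obtain ⟨h4, h5⟩ := List.append_inj h3 (by simp)
  obtain ⟨h6, h7⟩ := List.append_inj h4 (by simp)
  refine hx (i' + (u.flatMap φ).length) (w.flatMap φ).length ⟨fun a => (f a).flatMap φ, ?_, ?_, ?_⟩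
  · intro t h
    rw [List.flatMap_eq_nil_iff] at h
    obtain ⟨c, hc⟩ := List.exists_mem_of_ne_nil _ (hne t)
    exact hφ c (h c hc)
  · have e1 : (List.ofFn fun a => (f a).flatMap φ).flatten = (List.ofFn f).flatten.flatMap φ := by
      rw [← flatten_map_flatMap, List.map_ofFn]
      rfl
    rw [e1, hflat]
    conv_lhs => rw [h7, List.range'_eq_map_range, List.map_map]
    rfl
  · intro a b hab
    exact (hperm a b hab).flatMap_right φ

end Final



/-- For every pattern p with n distinct variables: some infinite word over a finite alphabet has no factor that is an abelian instance of p if and only if the Zimin word Z_n has no factor that is an abelian instance of p. -/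
theorem result :
    ∀ p : List ℕ,
      (∃ k : ℕ, ∃ x : ℕ → Fin k, ∀ i m : ℕ,
        ¬ ∃ f : Fin p.length → List (Fin k),
            (∀ t, f t ≠ []) ∧
            (List.ofFn f).flatten = (List.range m).map (fun t => x (i + t)) ∧
            ∀ a b : Fin p.length, p.get a = p.get b → (f a).Perm (f b))
      ↔
      ¬ ∃ w : List ℕ,
          w <:+: (Nat.rec (motive := fun _ => List ℕ) []
                    (fun j z => z ++ [j + 1] ++ z) p.toFinset.card) ∧
          ∃ f : Fin p.length → List ℕ,
            (∀ t, f t ≠ []) ∧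
            (List.ofFn f).flatten = w ∧
            ∀ a b : Fin p.length, p.get a = p.get b → (f a).Perm (f b) := by
  intro p
  exact ⟨unavoid p, avoid p⟩

end Pool.Agent.S05195
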