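import Pool.Statements.S05205
import Mathlib
import Pool.Agent.Helper242.SumTwoSq
import Pool.Agent.Helper242.Arcs
import Pool.Agent.Helper242.Stars
import Pool.Agent.Helper242.Lines

set_option autoImplicit false
open Pool Pool.MP_3411af_co

namespace Pool.Agent.S05205


/-- positive sums of two squares -/
def TwoSq : Set ℕ := {r | 0 < r ∧ ∃ a b : ℕ, r = a ^ 2 + b ^ 2}

/-- star centres: an `N` by `N` grid -/
abbrev CA (N : ℕ) : Type := Fin N × Fin N

/-- circle centres: a `2N` by `2N` grid -/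
abbrev CB (N : ℕ) : Type := Fin (2 * N) × Fin (2 * N)

noncomputable def radii (N : ℕ) : Finset ℕ := by
  classical exact (Finset.range (13 * N ^ 2)).filter (· ∈ TwoSq)

noncomputable def pt (N : ℕ) (a : CA N) : EuclideanSpace ℝ (Fin 2) :=
  !₂[((a.1 : ℕ) : ℝ), ((a.2 : ℕ) : ℝ)]

noncomputable def ct (N : ℕ) (b : CB N) : EuclideanSpace ℝ (Fin 2) :=
  !₂[((b.1 : ℕ) : ℝ) + N, ((b.2 : ℕ) : ℝ)]

theorem pt_inj (N : ℕ) : Function.Injective (pt N) := by
  rintro ⟨a1, a2⟩ ⟨b1, b2⟩ h
  have h0 := congrArg (fun w : EuclideanSpace ℝ (Fin 2) => w 0) h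
  have h1 := congrArg (fun w : EuclideanSpace ℝ (Fin 2) => w 1) h
  simp only [pt] at h0 h1
  simp at h0 h1
  ext
  · simpa using h0
  · simpa using h1

theorem ct_inj (N : ℕ) : Function.Injective (ct N) := by
  rintro ⟨a1, a2⟩ ⟨b1, b2⟩ h
  have h0 := congrArg (fun w : EuclideanSpace ℝ (Fin 2) => w 0) h
  have h1 := congrArg (fun w : EuclideanSpace ℝ (Fin 2) => w 1) h
  simp only [ct] at h0 h1
  simp at h0 h1
  ext
  · simpa using h0
  · simpa using h1

theorem pt_ne_ct (N : ℕ) (a : CA N) (b : CB N) : pt N a ≠ ct N b := by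
  intro h
  have h0 := congrArg (fun w : EuclideanSpace ℝ (Fin 2) => w 0) h
  simp only [pt, ct] at h0
  simp at h0
  have h1 : ((a.1 : ℕ) : ℝ) < N := by exact_mod_cast a.1.2
  have h2 : (0:ℝ) ≤ ((b.1 : ℕ) : ℝ) := Nat.cast_nonneg _
  linarith

theorem dist_pt_ct (N : ℕ) (a : CA N) (b : CB N) :
    ∃ r ∈ radii N, dist (pt N a) (ct N b) = Real.sqrt r := by
  classical
  obtain ⟨⟨a1, ha1⟩, ⟨a2, ha2⟩⟩ := a
  obtain ⟨⟨b1, hb1⟩, ⟨b2, hb2⟩⟩ := b
  set x : ℕ := b1 + N - a1 with hx
  set y : ℕ := ((a2 : ℤ) - (b2 : ℤ)).natAbs with hy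
  have hx1 : 0 < x := by omega
  have hx2 : x < 3 * N := by omega
  have hy2 : y < 2 * N := by omega
  refine ⟨x ^ 2 + y ^ 2, ?_, ?_⟩
  · unfold radii
    rw [Finset.mem_filter, Finset.mem_range]
    refine ⟨?_, by positivity, x, y, rfl⟩
    nlinarith
  · rw [EuclideanSpace.dist_eq]
    congr 1
    simp only [Fin.sum_univ_two, pt, ct, Real.dist_eq, sq_abs]
    simp only [Matrix.cons_val_zero, Matrix.cons_val_one]
    have hxR : (x : ℝ) = b1 + N - a1 := by
      rw [hx, Nat.cast_sub (by omega)]; push_cast; ring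
    have hyR : ((y : ℝ)) ^ 2 = ((a2 : ℝ) - b2) ^ 2 := by
      have : ((y : ℤ)) ^ 2 = ((a2 : ℤ) - b2) ^ 2 := by rw [hy]; exact Int.natAbs_sq _
      exact_mod_cast this
    push_cast
    rw [hxR, hyR]
    ring

noncomputable abbrev IX (N : ℕ) : Type := CB N × ↥(radii N)

/-- There are graphs G_n with crossing-free circular-arc drawings covered by a_n circles or lines, no crossing-free straight-line drawing covered by fewer than b_n lines, b_n at least 1, and a_n/b_n tending to 0. -/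
theorem result :
  ∃ (m : ℕ → ℕ) (G : ∀ n, SimpleGraph (Fin (m n))) (a b : ℕ → ℕ),
    (∀ n, 0 < b n) ∧
    Filter.Tendsto (fun n => (a n : ℝ) / (b n : ℝ)) Filter.atTop (nhds 0) ∧
    (∀ n, ∃ C : Fin (a n) → Set (EuclideanSpace ℝ (Fin 2)),
      (∀ i, (∃ (c : EuclideanSpace ℝ (Fin 2)) (r : ℝ), 0 < r ∧ C i = Metric.sphere c r) ∨
            (∃ x y : EuclideanSpace ℝ (Fin 2), x ≠ y ∧
              C i = ((line[ℝ, x, y] : AffineSubspace ℝ (EuclideanSpace ℝ (Fin 2))) :
                Set (EuclideanSpace ℝ (Fin 2))))) ∧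
      ∃ p : Fin (m n) → EuclideanSpace ℝ (Fin 2), Function.Injective p ∧
        (∀ v, ∃ i, p v ∈ C i) ∧
        ∃ γ : ∀ u v : Fin (m n), Path (p u) (p v),
          (∀ u v, (G n).Adj u v →
            Function.Injective ⇑(γ u v) ∧ ∃ i, Set.range ⇑(γ u v) ⊆ C i) ∧
          (∀ u v w, (G n).Adj u v → w ≠ u → w ≠ v → p w ∉ Set.range ⇑(γ u v)) ∧
          (∀ u v x y, (G n).Adj u v → (G n).Adj x y → s(u, v) ≠ s(x, y) →
            Set.range ⇑(γ u v) ∩ Set.range ⇑(γ x y) ⊆
              p '' (({u, v} : Set (Fin (m n))) ∩ ({x, y} : Set (Fin (m n)))))) ∧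
    (∀ n, ∀ k < b n, ¬ ∃ L : Fin k → Set (EuclideanSpace ℝ (Fin 2)),
      (∀ i, ∃ x y : EuclideanSpace ℝ (Fin 2), x ≠ y ∧
        L i = ((line[ℝ, x, y] : AffineSubspace ℝ (EuclideanSpace ℝ (Fin 2))) :
          Set (EuclideanSpace ℝ (Fin 2)))) ∧
      ∃ p : Fin (m n) → EuclideanSpace ℝ (Fin 2), Function.Injective p ∧
        (∀ v, ∃ i, p v ∈ L i) ∧
        (∀ u v, (G n).Adj u v → ∃ i, segment ℝ (p u) (p v) ⊆ L i) ∧
        (∀ u v w, (G n).Adj u v → w ≠ u → w ≠ v → p w ∉ segment ℝ (p u) (p v)) ∧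
        (∀ u v x y, (G n).Adj u v → (G n).Adj x y → s(u, v) ≠ s(x, y) →
          segment ℝ (p u) (p v) ∩ segment ℝ (p x) (p y) ⊆
            p '' (({u, v} : Set (Fin (m n))) ∩ ({x, y} : Set (Fin (m n)))))) := by
  classical
  refine ⟨fun n => Fintype.card (CA (n + 1) × Option (CB (n + 1))),
    fun n => (Pool.Agent.Helper242.Stars.starG (CA (n + 1)) (CB (n + 1))).comap
      (Fintype.equivFin (CA (n + 1) × Option (CB (n + 1)))).symm,
    fun n => Fintype.card (IX (n + 1)),
    fun n => Fintype.card (CA (n + 1)) * Fintype.card (CA (n + 1)), ?_, ?_, ?_, ?_⟩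
  · intro n
    have : 0 < Fintype.card (CA (n + 1)) := Fintype.card_pos
    positivity
  · rw [Metric.tendsto_atTop]
    intro ε hε
    obtain ⟨X₀, hX₀⟩ := Pool.Agent.Helper242.SumTwoSq.density_zero TwoSq (fun r hr => hr.2)
      (ε / 104) (by positivity)
    refine ⟨X₀, fun n hn => ?_⟩
    have hcardR : ((radii (n + 1)).card : ℝ) ≤ ε / 104 * (13 * ((n:ℝ) + 1) ^ 2) := by
      have h := hX₀ (13 * (n + 1) ^ 2) (by nlinarith)
      have h2 : ((radii (n + 1)).card : ℝ) ≤ ε / 104 * ((13 * (n + 1) ^ 2 : ℕ) : ℝ) := by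
        unfold radii
        convert h using 4
      push_cast at h2
      exact h2
    have hN : (0:ℝ) < (n:ℝ) + 1 := by positivity
    have ha : ((Fintype.card (IX (n + 1)) : ℕ) : ℝ) = 4 * ((n:ℝ) + 1) ^ 2 * (radii (n + 1)).card := by
      simp only [IX, CB, Fintype.card_prod, Fintype.card_fin, Fintype.card_coe]
      push_cast
      ring
    have hb : ((Fintype.card (CA (n + 1)) * Fintype.card (CA (n + 1)) : ℕ) : ℝ) = ((n:ℝ) + 1) ^ 4 := by
      simp only [CA, Fintype.card_prod, Fintype.card_fin]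
      push_cast
      ring
    rw [ha, hb, Real.dist_eq, sub_zero]
    have hnn : (0:ℝ) ≤ 4 * ((n:ℝ) + 1) ^ 2 * (radii (n + 1)).card / ((n:ℝ) + 1) ^ 4 := by positivity
    rw [abs_of_nonneg hnn, div_lt_iff₀ (by positivity)]
    calc 4 * ((n:ℝ) + 1) ^ 2 * (radii (n + 1)).card
        ≤ 4 * ((n:ℝ) + 1) ^ 2 * (ε / 104 * (13 * ((n:ℝ) + 1) ^ 2)) :=
          mul_le_mul_of_nonneg_left hcardR (by positivity)
      _ = (ε / 2) * ((n:ℝ) + 1) ^ 4 := by ring
      _ < ε * ((n:ℝ) + 1) ^ 4 := by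
          apply mul_lt_mul_of_pos_right (by linarith) (by positivity)
  · intro n
    set N := n + 1 with hN
    set e := Fintype.equivFin (CA N × Option (CB N)) with he
    set eI := Fintype.equivFin (IX N) with heI
    set C : Fin (Fintype.card (IX N)) → Set (EuclideanSpace ℝ (Fin 2)) := fun i =>
      Metric.sphere (ct N (eI.symm i).1) (Real.sqrt ((eI.symm i).2 : ℕ)) with hC
    refine ⟨C, ?_, ?_⟩
    · intro i
      left
      refine ⟨_, _, ?_, rfl⟩
      have h := (eI.symm i).2.2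
      unfold radii at h
      rw [Finset.mem_filter] at h
      exact Real.sqrt_pos.2 (by exact_mod_cast h.2.1)
    · have hCi : ∀ a b, ∃ i, C i = Metric.sphere (ct N b) (dist (pt N a) (ct N b)) := by
        intro a b
        obtain ⟨r, hr, hd⟩ := dist_pt_ct N a b
        refine ⟨eI (b, ⟨r, hr⟩), ?_⟩
        simp only [hC, Equiv.symm_apply_apply, hd]
      obtain ⟨p, hp, hcov, γ, h1, h2, h3⟩ := Pool.Agent.Helper242.Stars.star_drawing (CA N) (CB N)
        (pt N) (ct N) (pt_inj N) (ct_inj N) (pt_ne_ct N) C hCi ⟨(⟨0, by omega⟩, ⟨0, by omega⟩)⟩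
      refine ⟨fun v => p (e.symm v), hp.comp e.symm.injective, fun v => hcov _,
        fun u v => γ (e.symm u) (e.symm v), ?_, ?_, ?_⟩
      · intro u v huv
        exact h1 _ _ huv
      · intro u v w huv hwu hwv
        exact h2 _ _ _ huv (fun h => hwu (e.symm.injective h)) (fun h => hwv (e.symm.injective h))
      · intro u v x y huv hxy hne z hz
        have hne' : s(e.symm u, e.symm v) ≠ s(e.symm x, e.symm y) := by
          intro h
          apply hne
          have := congrArg (Sym2.map e) h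
          simpa using this
        obtain ⟨w, hw, hwz⟩ := h3 _ _ _ _ huv hxy hne' hz
        refine ⟨e w, ?_, ?_⟩
        · simp only [Set.mem_inter_iff, Set.mem_insert_iff, Set.mem_singleton_iff] at hw ⊢
          refine ⟨?_, ?_⟩
          · rcases hw.1 with h | h
            · left; exact (Equiv.eq_symm_apply e).1 h
            · right; exact (Equiv.eq_symm_apply e).1 h
          · rcases hw.2 with h | h
            · left; exact (Equiv.eq_symm_apply e).1 h
            · right; exact (Equiv.eq_symm_apply e).1 h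
        · simpa using hwz
  · intro n k hk ⟨L, hL, p, hp, hcov, hseg, hnot, hdisj⟩
    set N := n + 1 with hN
    set e := Fintype.equivFin (CA N × Option (CB N)) with he
    have := Pool.Agent.Helper242.Lines.lines_lower (CA N) (CB N)
      (by simp only [CA, CB, Fintype.card_prod, Fintype.card_fin]; nlinarith) L hL
      (fun v => p (e v)) (hp.comp e.injective)
      (fun u v huv => hseg (e u) (e v) (by
        show (Pool.Agent.Helper242.Stars.starG (CA N) (CB N)).Adj (e.symm (e u)) (e.symm (e v))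
        simpa using huv))
      (fun u v w huv hwu hwv => hnot (e u) (e v) (e w) (by
        show (Pool.Agent.Helper242.Stars.starG (CA N) (CB N)).Adj (e.symm (e u)) (e.symm (e v))
        simpa using huv) (fun h => hwu (e.injective h)) (fun h => hwv (e.injective h)))
    exact (not_le.2 hk) this


end Pool.Agent.S05205
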