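import Pool.Statements.S05207
import Pool.Agent.Helper1.Starter5

set_option autoImplicit false
open Pool Pool.MP_343cc6_co

namespace Pool.Agent.S05207

/-- For n at least 2, on the cycle of 2n−1 vertices there is a near-perfect matching with all edge lengths distinct, no two edges parallel, and no edge parallel to the uncovered vertex, exactly when n is at least 4 and n is not 5. -/
theorem result :
    ∀ n : ℕ, 2 ≤ n →
      ((∃ (M : SimpleGraph (ZMod (2 * n - 1))) (c : ZMod (2 * n - 1)),
          (∀ w, ¬ M.Adj c w) ∧
          (∀ v, v ≠ c → ∃! w, M.Adj v w) ∧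
          (∀ a b x y, M.Adj a b → M.Adj x y →
            min (a - b).val (b - a).val = min (x - y).val (y - x).val →
            (a = x ∧ b = y) ∨ (a = y ∧ b = x)) ∧
          (∀ a b x y, M.Adj a b → M.Adj x y →
            min (a - x).val (x - a).val = min (b - y).val (y - b).val →
            (a = x ∧ b = y) ∨ (a = y ∧ b = x)) ∧
          (∀ a b, M.Adj a b →
            min (a - c).val (c - a).val ≠ min (b - c).val (c - b).val))
        ↔ (4 ≤ n ∧ n ≠ 5)) := by
  intro n hn
  exact Pool.Agent.Helper1.CycleMagic.Starter.good_iff n hn

end Pool.Agent.S05207
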