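import Pool.Statements.S05220

set_option autoImplicit false
open Classical
open Pool Pool.MP_34e2ea_co

namespace Pool.Agent.S05220

/-- first coordinate of the rational point with parameter `t` on the unit circle -/
noncomputable def cc (t : ℕ) : ℝ := (1 - (t : ℝ) ^ 2) / (1 + (t : ℝ) ^ 2)

/-- second coordinate of the rational point with parameter `t` on the unit circle -/
noncomputable def ss (t : ℕ) : ℝ := (2 * (t : ℝ)) / (1 + (t : ℝ) ^ 2)

lemma cs_sq (t : ℕ) : cc t ^ 2 + ss t ^ 2 = 1 := by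
  unfold cc ss
  have h : (1 + (t : ℝ) ^ 2) ≠ 0 := by positivity
  field_simp
  ring

lemma cs_inj {a b : ℕ} (h1 : cc a = cc b) (h2 : ss a = ss b) : a = b := by
  unfold cc ss at *
  have ha : (1 + (a : ℝ) ^ 2) ≠ 0 := by positivity
  have hb : (1 + (b : ℝ) ^ 2) ≠ 0 := by positivity
  have hc : (a : ℝ) ^ 2 = (b : ℝ) ^ 2 := by
    rw [div_eq_div_iff ha hb] at h1
    nlinarith
  rw [hc] at h2
  have : 2 * (a : ℝ) = 2 * (b : ℝ) := by
    have := congrArg (fun z => z * (1 + (b : ℝ) ^ 2)) h2
    simpa [div_mul_cancel₀ _ hb] using this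
  exact_mod_cast (by linarith : (a : ℝ) = b)

lemma cs_inner_lt {a b : ℕ} (h : a ≠ b) : cc a * cc b + ss a * ss b < 1 := by
  have h1 := cs_sq a
  have h2 := cs_sq b
  by_contra hcon
  push Not at hcon
  have h3 : (cc a - cc b) ^ 2 + (ss a - ss b) ^ 2 ≤ 0 := by nlinarith
  have h4 : cc a - cc b = 0 := by nlinarith [sq_nonneg (cc a - cc b), sq_nonneg (ss a - ss b)]
  have h5 : ss a - ss b = 0 := by nlinarith [sq_nonneg (cc a - cc b), sq_nonneg (ss a - ss b)]
  exact h (cs_inj (by linarith) (by linarith))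

/-- points on the unit circle of the first coordinate plane -/
noncomputable def X (t : ℕ) : EuclideanSpace ℝ (Fin 4) := !₂[cc t, ss t, 0, 0]

/-- points on the circle of radius `r` of the second coordinate plane -/
noncomputable def Y (r : ℝ) (t : ℕ) : EuclideanSpace ℝ (Fin 4) := !₂[0, 0, r * cc t, r * ss t]

lemma X_inj {a b : ℕ} (h : X a = X b) : a = b := by
  have h0 := congrFun (congrArg WithLp.ofLp h) 0
  have h1 := congrFun (congrArg WithLp.ofLp h) 1
  simp [X] at h0 h1
  exact cs_inj h0 h1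

lemma Y_inj {r : ℝ} (hr : 0 < r) {a b : ℕ} (h : Y r a = Y r b) : a = b := by
  have h0 := congrFun (congrArg WithLp.ofLp h) 2
  have h1 := congrFun (congrArg WithLp.ofLp h) 3
  simp [Y, hr.ne'] at h0 h1
  exact cs_inj h0 h1

lemma dist_XY (r : ℝ) (a b : ℕ) : dist (X a) (Y r b) = Real.sqrt (1 + r ^ 2) := by
  rw [EuclideanSpace.dist_eq]
  congr 1
  simp only [Fin.sum_univ_four, X, Y, Real.dist_eq, sq_abs]
  simp
  have h1 := cs_sq a
  have h2 := cs_sq b
  nlinarith

lemma dist_YY {r : ℝ} (hr : 0 < r) (a b : ℕ) : dist (Y r a) (Y r b) ≤ 2 * r := by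
  rw [EuclideanSpace.dist_eq]
  apply Real.sqrt_le_iff.2
  refine ⟨by linarith, ?_⟩
  simp only [Fin.sum_univ_four, Y, Real.dist_eq, sq_abs]
  simp
  have h1 := cs_sq a
  have h2 := cs_sq b
  have h3 : (cc a + cc b) ^ 2 + (ss a + ss b) ^ 2 ≥ 0 := by positivity
  have h4 : (cc a - cc b) ^ 2 + (ss a - ss b) ^ 2 ≤ 4 := by nlinarith
  have h5 : 0 ≤ r ^ 2 := by positivity
  nlinarith

lemma borsuk_bound : ∃ m : ℕ, ∀ K : Set (EuclideanSpace ℝ (Fin 4)), IsCompact K →
    Metric.diam K = 1 → ∃ f : EuclideanSpace ℝ (Fin 4) → Fin m,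
      ∀ i : Fin m, Metric.diam (K ∩ f ⁻¹' {i}) < 1 := by
  have hc : IsCompact (Metric.closedBall (0 : EuclideanSpace ℝ (Fin 4)) 1) :=
    isCompact_closedBall 0 1
  obtain ⟨T, _, hTfin, hT⟩ := hc.finite_cover_balls (e := 1 / 4) (by norm_num)
  lift T to Finset (EuclideanSpace ℝ (Fin 4)) using hTfin
  refine ⟨T.card, ?_⟩
  intro K hK hdiam
  have hne : K.Nonempty := by
    rw [Set.nonempty_iff_ne_empty]
    rintro rfl
    simp at hdiam
  obtain ⟨x0, hx0⟩ := hne
  have hch : ∀ z : EuclideanSpace ℝ (Fin 4), z ∈ Metric.closedBall (0 : EuclideanSpace ℝ (Fin 4)) 1 →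
      ∃ c : T, dist z c < 1 / 4 := by
    intro z hz
    have := hT hz
    simp only [Set.mem_iUnion, Metric.mem_ball] at this
    obtain ⟨c, hcT, hcd⟩ := this
    exact ⟨⟨c, hcT⟩, hcd⟩
  obtain ⟨c0, _⟩ := hch 0 (by simp)
  have : Nonempty T := ⟨c0⟩
  choose! g hg using hch
  refine ⟨fun z => T.equivFin (g (z - x0)), ?_⟩
  intro i
  refine lt_of_le_of_lt (Metric.diam_le_of_forall_dist_le (C := 1 / 2) (by norm_num) ?_) (by norm_num)
  rintro a ⟨haK, hai⟩ b ⟨hbK, hbi⟩
  have hmem : ∀ z ∈ K, z - x0 ∈ Metric.closedBall (0 : EuclideanSpace ℝ (Fin 4)) 1 := by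
    intro z hz
    rw [mem_closedBall_zero_iff, ← dist_eq_norm, ← hdiam]
    exact Metric.dist_le_diam_of_mem hK.isBounded hz hx0
  have h1 := hg _ (hmem a haK)
  have h2 := hg _ (hmem b hbK)
  have h3 : g (a - x0) = g (b - x0) := by
    have e1 : T.equivFin (g (a - x0)) = i := hai
    have e2 : T.equivFin (g (b - x0)) = i := hbi
    exact T.equivFin.injective (e1.trans e2.symm)
  rw [h3] at h1
  have h4 : dist (a - x0) (b - x0) = dist a b := by simp
  rw [← h4]
  have h5 := dist_triangle_right (a - x0) (b - x0) (g (b - x0) : EuclideanSpace ℝ (Fin 4))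
  linarith

/-- linear functional on the first plane -/
noncomputable def LX (t : ℕ) (z : EuclideanSpace ℝ (Fin 4)) : ℝ := cc t * z 0 + ss t * z 1

/-- linear functional on the second plane -/
noncomputable def LY (t : ℕ) (z : EuclideanSpace ℝ (Fin 4)) : ℝ := cc t * z 2 + ss t * z 3

lemma convex_LX (t : ℕ) (v : ℝ) : Convex ℝ {z : EuclideanSpace ℝ (Fin 4) | LX t z < v} := by
  apply convex_halfSpace_lt
  constructor
  · intro x y; simp [LX]; ring
  · intro c x; simp [LX]; ring

lemma convex_LY (t : ℕ) (v : ℝ) : Convex ℝ {z : EuclideanSpace ℝ (Fin 4) | LY t z < v} := by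
  apply convex_halfSpace_lt
  constructor
  · intro x y; simp [LY]; ring
  · intro c x; simp [LY]; ring

/-- The negation of the preceding statement: For all d, k there is N such that any set S of at least N points in convex position in R^d has its k-largest-distances graph colorable with m colors, for every m such that every compact diameter-1 set splits into m parts of diameter < 1. -/
theorem result :
    ¬ (∀ d k : ℕ, ∃ N : ℕ, ∀ S : Finset (EuclideanSpace ℝ (Fin d)),
      N ≤ S.card →
      (∀ x ∈ S, x ∉ convexHull ℝ ((↑S : Set (EuclideanSpace ℝ (Fin d))) \ {x})) →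
      ∀ m : ℕ,
        (∀ K : Set (EuclideanSpace ℝ (Fin d)), IsCompact K → Metric.diam K = 1 →
          ∃ f : EuclideanSpace ℝ (Fin d) → Fin m,
            ∀ i : Fin m, Metric.diam (K ∩ f ⁻¹' {i}) < 1) →
        (SimpleGraph.fromRel (fun x y : S =>
          ((S.offDiag.image (fun p => dist p.1 p.2)).filter
            (fun r => dist (x : EuclideanSpace ℝ (Fin d)) (y : EuclideanSpace ℝ (Fin d)) < r)).card
              < k)).Colorable m) := by
  intro H
  obtain ⟨m, hm⟩ := borsuk_bound
  set M : ℕ := m + 1 with hM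
  obtain ⟨N, hN⟩ := H 4 (M * M + 2)
  -- minimal distance of the X points
  obtain ⟨δ, hδ0, hδ⟩ : ∃ δ : ℝ, 0 < δ ∧ ∀ a ∈ Finset.range M, ∀ b ∈ Finset.range M, a ≠ b →
      δ ≤ dist (X a) (X b) := by
    by_cases hne : ((Finset.range M).offDiag).Nonempty
    · obtain ⟨p, hp, hpmin⟩ := Finset.exists_min_image ((Finset.range M).offDiag)
        (fun p => dist (X p.1) (X p.2)) hne
      refine ⟨dist (X p.1) (X p.2), ?_, ?_⟩
      · rw [Finset.mem_offDiag] at hp
        exact dist_pos.2 (fun h => hp.2.2 (X_inj h))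
      · intro a ha b hb hab
        exact hpmin (a, b) (Finset.mem_offDiag.2 ⟨ha, hb, hab⟩)
    · refine ⟨1, one_pos, ?_⟩
      intro a ha b hb hab
      exact absurd ⟨(a, b), Finset.mem_offDiag.2 ⟨ha, hb, hab⟩⟩ hne
  set r : ℝ := δ / 4 with hr
  have hr0 : 0 < r := by positivity
  set A : Finset (EuclideanSpace ℝ (Fin 4)) := (Finset.range M).image X with hA
  set B : Finset (EuclideanSpace ℝ (Fin 4)) := (Finset.range N).image (Y r) with hB
  set S := A ∪ B with hS
  have hBcard : B.card = N := by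
    rw [hB, Finset.card_image_of_injective _ (fun a b h => Y_inj hr0 h), Finset.card_range]
  have hScard : N ≤ S.card := by
    rw [← hBcard]
    exact Finset.card_le_card Finset.subset_union_right
  have hconv : ∀ x ∈ S, x ∉ convexHull ℝ ((↑S : Set (EuclideanSpace ℝ (Fin 4))) \ {x}) := by
    intro x hx hmem
    rw [hS, Finset.mem_union] at hx
    rcases hx with hx | hx
    · rw [hA, Finset.mem_image] at hx
      obtain ⟨t, _, rfl⟩ := hx
      have hsub : ((↑S : Set (EuclideanSpace ℝ (Fin 4))) \ {X t}) ⊆ {z | LX t z < 1} := by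
        rintro z ⟨hz, hzne⟩
        rw [Finset.mem_coe, hS, Finset.mem_union] at hz
        rcases hz with hz | hz
        · rw [hA, Finset.mem_image] at hz
          obtain ⟨u, _, rfl⟩ := hz
          have hut : t ≠ u := by rintro rfl; exact hzne rfl
          simpa [LX, X] using cs_inner_lt hut
        · rw [hB, Finset.mem_image] at hz
          obtain ⟨u, _, rfl⟩ := hz
          simp [LX, Y]
      have := convexHull_min hsub (convex_LX t 1) hmem
      have h1 := cs_sq t
      simp [LX, X] at this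
      nlinarith
    · rw [hB, Finset.mem_image] at hx
      obtain ⟨t, _, rfl⟩ := hx
      have hsub : ((↑S : Set (EuclideanSpace ℝ (Fin 4))) \ {Y r t}) ⊆ {z | LY t z < r} := by
        rintro z ⟨hz, hzne⟩
        rw [Finset.mem_coe, hS, Finset.mem_union] at hz
        rcases hz with hz | hz
        · rw [hA, Finset.mem_image] at hz
          obtain ⟨u, _, rfl⟩ := hz
          simpa [LY, X] using hr0
        · rw [hB, Finset.mem_image] at hz
          obtain ⟨u, _, rfl⟩ := hz
          have hut : t ≠ u := by rintro rfl; exact hzne rfl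
          have := cs_inner_lt hut
          simp [LY, Y]
          nlinarith
      have := convexHull_min hsub (convex_LY t r) hmem
      have h1 := cs_sq t
      simp [LY, Y] at this
      nlinarith
  obtain ⟨C⟩ := hN S hScard hconv m hm
  -- pigeonhole on the X points
  have hXmem : ∀ t : Fin M, X t ∈ S := by
    intro t
    rw [hS, Finset.mem_union]
    left
    exact Finset.mem_image_of_mem _ (Finset.mem_range.2 t.2)
  obtain ⟨a, b, hab, hcol⟩ := Fintype.exists_ne_map_eq_of_card_lt
    (fun t : Fin M => C ⟨X t, hXmem t⟩) (by simp [hM])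
  have hne : (⟨X a, hXmem a⟩ : S) ≠ ⟨X b, hXmem b⟩ := by
    intro h
    exact hab (Fin.ext (X_inj (congrArg Subtype.val h)))
  refine C.valid (v := ⟨X a, hXmem a⟩) (w := ⟨X b, hXmem b⟩) ?_ hcol
  rw [SimpleGraph.fromRel_adj]
  refine ⟨hne, Or.inl ?_⟩
  have hδab : δ ≤ dist (X a) (X b) := hδ a (Finset.mem_range.2 a.2) b (Finset.mem_range.2 b.2)
    (fun h => hab (Fin.ext h))
  have hsub : ((S.offDiag.image (fun p => dist p.1 p.2)).filter
      (fun r => dist (X a) (X b) < r)) ⊆
      ((Finset.range M ×ˢ Finset.range M).image (fun p => dist (X p.1) (X p.2))) ∪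
        {Real.sqrt (1 + r ^ 2)} := by
    intro ρ hρ
    rw [Finset.mem_filter, Finset.mem_image] at hρ
    obtain ⟨⟨⟨u, v⟩, huv, rfl⟩, hlt⟩ := hρ
    rw [Finset.mem_offDiag] at huv
    obtain ⟨hu, hv, _⟩ := huv
    simp only at hu hv hlt
    rw [Finset.mem_union, Finset.mem_singleton]
    rw [hS, Finset.mem_union] at hu hv
    rcases hu with hu | hu <;> rcases hv with hv | hv
    · left
      rw [hA, Finset.mem_image] at hu hv
      obtain ⟨i, hi, rfl⟩ := hu
      obtain ⟨j, hj, rfl⟩ := hv
      exact Finset.mem_image.2 ⟨(i, j), Finset.mem_product.2 ⟨hi, hj⟩, rfl⟩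
    · right
      rw [hA, Finset.mem_image] at hu
      rw [hB, Finset.mem_image] at hv
      obtain ⟨i, hi, rfl⟩ := hu
      obtain ⟨j, hj, rfl⟩ := hv
      exact dist_XY r i j
    · right
      rw [hB, Finset.mem_image] at hu
      rw [hA, Finset.mem_image] at hv
      obtain ⟨i, hi, rfl⟩ := hu
      obtain ⟨j, hj, rfl⟩ := hv
      rw [dist_comm]
      exact dist_XY r j i
    · exfalso
      rw [hB, Finset.mem_image] at hu hv
      obtain ⟨i, hi, rfl⟩ := hu
      obtain ⟨j, hj, rfl⟩ := hv
      have := dist_YY hr0 i j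
      rw [hr] at this
      have h7 : δ ≤ dist (Y r i) (Y r j) := le_trans hδab hlt.le
      rw [hr] at h7
      linarith
  have h8 := Finset.card_le_card hsub
  have h9 := Finset.card_union_le
    ((Finset.range M ×ˢ Finset.range M).image (fun p => dist (X p.1) (X p.2)))
    {Real.sqrt (1 + r ^ 2)}
  have h10 : ((Finset.range M ×ˢ Finset.range M).image (fun p => dist (X p.1) (X p.2))).card
      ≤ M * M := by
    refine le_trans Finset.card_image_le ?_
    simp
  rw [Finset.card_singleton] at h9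
  have h11 : ((S.offDiag.image (fun p => dist p.1 p.2)).filter
      (fun r => dist (X a) (X b) < r)).card < M * M + 2 := by omega
  convert h11

end Pool.Agent.S05220
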