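import Pool.Statements.S05251
import Pool.Agent.Helper163.Reduce

set_option autoImplicit false
open Pool Pool.MP_36bd7d_co

namespace Pool.Agent.S05251

/-- For every n ≥ 1 and every family F of subsets of an n-element set in which each element lies in more than 2^(n-4) members, some three (not necessarily distinct) members of F have union equal to the whole set. -/
theorem result :
    ∀ n : ℕ, 1 ≤ n → ∀ F : Finset (Finset (Fin n)),
      (∀ i : Fin n, (2 : ℝ) ^ ((n : ℤ) - 4) < (((F.filter (fun A => i ∈ A)).card : ℕ) : ℝ)) →
      ∃ X ∈ F, ∃ Y ∈ F, ∃ Z ∈ F, X ∪ Y ∪ Z = Finset.univ := by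
  intro n hn F hdeg
  exact Pool.Agent.Helper163.three_cover n hn F hdeg

end Pool.Agent.S05251
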