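-- Counterexample: the lattice of open sets of the real line.
-- It order-embeds into a countable product of two-element chains (via a countable base),
-- but a lattice embedding into a product of chains needs at least continuum many factors.
import Pool.Statements.S05260

set_option autoImplicit false
universe u
open Pool Pool.MP_375da3_co

namespace Pool.Agent.S05260

open TopologicalSpace

/-- The complement of a point of the (lifted) real line, as an open set. -/
def co (x : ULift.{u} ℝ) : Opens (ULift.{u} ℝ) := ⟨{x}ᶜ, isOpen_compl_singleton⟩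

theorem co_ne_top (x : ULift.{u} ℝ) : co x ≠ ⊤ := by
  intro h
  have : x ∈ co x := by rw [h]; trivial
  exact this rfl

theorem co_sup_co {x y : ULift.{u} ℝ} (h : x ≠ y) : co x ⊔ co y = ⊤ := by
  ext z
  simp only [Opens.coe_sup, Opens.coe_top, Set.mem_univ, iff_true]
  by_cases hz : z = x
  · right
    intro hy
    exact h (hz.symm.trans hy)
  · left
    exact hz

/-- The negation of the preceding statement: For every distributive lattice T: if T order-embeds into a product of chains indexed by ι, then T embeds as a sublattice into some product of chains indexed by ι; that is, algebraic dimension equals order dimension. -/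
theorem result :
    ¬ (∀ (T : Type u) [DistribLattice T] (ι : Type u) (C : ι → Type u)
      [∀ i, LinearOrder (C i)],
      Nonempty (T ↪o ((i : ι) → C i)) →
        ∃ (D : ι → Type u) (_ : ∀ i, LinearOrder (D i)),
          ∃ f : LatticeHom T ((i : ι) → D i), Function.Injective f) := by
  classical
  intro H
  -- the order embedding
  obtain ⟨b, hbc, -, hb⟩ := exists_countable_basis (ULift.{u} ℝ)
  have hne : b.Nonempty := by
    have := hb.sUnion_eq
    by_contra hcon
    rw [Set.not_nonempty_iff_eq_empty] at hcon
    rw [hcon, Set.sUnion_empty] at this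
    exact Set.empty_ne_univ this
  obtain ⟨e, he⟩ := hbc.exists_eq_range hne
  let F : Opens (ULift.{u} ℝ) → (ULift.{u} ℕ → ULift.{u} Bool) :=
    fun U n => ULift.up (decide (e n.down ⊆ (U : Set (ULift.{u} ℝ))))
  have hF : ∀ U V : Opens (ULift.{u} ℝ), F U ≤ F V ↔ U ≤ V := by
    intro U V
    constructor
    · intro h x hx
      obtain ⟨w, hw, hxw, hwU⟩ := hb.exists_subset_of_mem_open hx U.isOpen
      rw [he] at hw
      obtain ⟨n, rfl⟩ := hw
      have h1 : decide (e n ⊆ (U : Set (ULift.{u} ℝ))) ≤ decide (e n ⊆ (V : Set (ULift.{u} ℝ))) :=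
        h (ULift.up n)
      rw [decide_eq_true hwU] at h1
      have h2 : decide (e n ⊆ (V : Set (ULift.{u} ℝ))) = true := by
        cases hd : decide (e n ⊆ (V : Set (ULift.{u} ℝ)))
        · rw [hd] at h1
          exact absurd h1 (by decide)
        · rfl
      exact (of_decide_eq_true h2) hxw
    · intro h n
      change decide (e n.down ⊆ (U : Set (ULift.{u} ℝ))) ≤ decide (e n.down ⊆ (V : Set (ULift.{u} ℝ)))
      by_cases hd : e n.down ⊆ (U : Set (ULift.{u} ℝ))
      · rw [decide_eq_true hd, decide_eq_true (hd.trans h)]
      · rw [decide_eq_false hd]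
        exact Bool.false_le _
  have emb : Nonempty (Opens (ULift.{u} ℝ) ↪o ((i : ULift.{u} ℕ) → (fun _ => ULift.{u} Bool) i)) :=
    ⟨OrderEmbedding.ofMapLEIff F hF⟩
  obtain ⟨D, instD, f, hf⟩ := H (Opens (ULift.{u} ℝ)) (ULift.{u} ℕ) (fun _ => ULift.{u} Bool) emb
  -- a lattice embedding would inject the line into the naturals
  have hex : ∀ x : ULift.{u} ℝ, ∃ n : ULift.{u} ℕ, f (co x) n ≠ f ⊤ n := by
    intro x
    by_contra hcon
    simp only [ne_eq, not_exists, not_not] at hcon
    exact co_ne_top x (hf (funext hcon))
  choose g hg using hex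
  have hinj : Function.Injective g := by
    intro x y hxy
    by_contra hne'
    have h1 : f (co x) ⊔ f (co y) = f ⊤ := by
      rw [← map_sup, co_sup_co hne']
    have h2 : f (co x) (g x) ⊔ f (co y) (g x) = f ⊤ (g x) := congrFun h1 (g x)
    rcases le_total (f (co x) (g x)) (f (co y) (g x)) with hle | hle
    · rw [sup_eq_right.mpr hle] at h2
      rw [hxy] at h2
      exact hg y h2
    · rw [sup_eq_left.mpr hle] at h2
      exact hg x h2
  have hcount : Countable (ULift.{u} ℝ) := hinj.countable
  have : Countable ℝ := (Equiv.ulift.{u} (α := ℝ)).symm.injective.countable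
  exact not_countable this

end Pool.Agent.S05260
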