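import Pool.Statements.S05263
import Pool.Agent.Helper263.RInduct

set_option autoImplicit false
open Pool Pool.MP_376d35_co

namespace Pool.Agent.S05263

open Pool.Agent.Helper263.Recski

/-- Edge vectors of a graph are linearly independent iff every edge is separated from the
others by a vertex set. The condition does not mention the field. -/
theorem li_iff_sep (k : Type) [Field k] {J V : Type} (u w : J → V) :
    LinearIndependent k (fun x : J => Finsupp.single (u x) (1 : k) - Finsupp.single (w x) 1) ↔
      ∀ x0, ∃ Q : V → Prop, (∀ x, x ≠ x0 → (Q (u x) ↔ Q (w x))) ∧ ¬ (Q (u x0) ↔ Q (w x0)) := by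
  classical
  constructor
  · intro hv x0
    set v : J → (V →₀ k) := fun x => Finsupp.single (u x) (1 : k) - Finsupp.single (w x) 1 with hvdef
    let b := Module.Basis.span hv
    obtain ⟨g, hg⟩ := LinearMap.exists_extend (b.coord x0)
    have hgv : ∀ x, g (v x) = if x = x0 then 1 else 0 := by
      intro x
      have h1 : g (v x) = (g.comp (Submodule.subtype _)) (b x) := by
        rw [LinearMap.comp_apply, Submodule.subtype_apply, Module.Basis.span_apply]
      rw [h1, hg, Module.Basis.coord_apply, Module.Basis.repr_self, Finsupp.single_apply]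
    refine ⟨fun y => g (Finsupp.single y 1) = g (Finsupp.single (u x0) 1), ?_, ?_⟩
    · intro x hx
      have h1 := hgv x
      rw [if_neg hx, hvdef, map_sub, sub_eq_zero] at h1
      beta_reduce
      rw [h1]
    · intro h
      have h1 := hgv x0
      rw [if_pos rfl, hvdef, map_sub] at h1
      have h2 := h.1 rfl
      rw [h2, sub_self] at h1
      exact zero_ne_one h1
  · intro h
    rw [linearIndependent_iff']
    intro s g hsum x0 hx0
    obtain ⟨Q, hQ1, hQ2⟩ := h x0
    have h1 := congrArg (Finsupp.linearCombination k (fun y : V => if Q y then (1 : k) else 0)) hsum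
    rw [map_sum, map_zero, Finset.sum_eq_single x0] at h1
    · rw [map_smul, map_sub, Finsupp.linearCombination_single, Finsupp.linearCombination_single,
        one_smul, one_smul] at h1
      by_cases ha : Q (u x0) <;> by_cases hb : Q (w x0)
      · exact absurd (iff_of_true ha hb) hQ2
      · rw [if_pos ha, if_neg hb] at h1
        simpa using h1
      · rw [if_neg ha, if_pos hb] at h1
        simpa using h1
      · exact absurd (iff_of_false ha hb) hQ2
    · intro x _ hx
      rw [map_smul, map_sub, Finsupp.linearCombination_single, Finsupp.linearCombination_single,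
        one_smul, one_smul]
      have := hQ1 x hx
      by_cases ha : Q (u x)
      · rw [if_pos ha, if_pos (this.1 ha), sub_self, smul_zero]
      · rw [if_neg ha, if_neg (fun h => ha (this.2 h)), sub_self, smul_zero]
    · intro h
      exact absurd hx0 h

/-- independence for the kernel of a linear combination map -/
theorem ind_ker {β M : Type} [Fintype β] [DecidableEq β] [AddCommGroup M] [Module F2 M]
    (Y : Submodule F2 (β → F2)) (g : β → M) (hY : ∀ c, c ∈ Y ↔ ∑ x, c x • g x = 0)
    (J : Finset β) : Ind Y J ↔ LinearIndependent F2 (fun x : J => g x.1) := by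
  classical
  rw [Fintype.linearIndependent_iff]
  constructor
  · intro h c hc i
    set z : β → F2 := fun x => if hx : x ∈ J then c ⟨x, hx⟩ else 0 with hz
    have h1 : z ∈ Y := by
      rw [hY, ← hc, ← Finset.sum_subset (Finset.subset_univ J)]
      · rw [← Finset.sum_coe_sort J]
        apply Finset.sum_congr rfl
        intro x _
        simp [hz]
      · intro x _ hx
        simp [hz, hx]
    have h2 := congrFun (h z h1 (fun x hx => by simp [hz, hx])) i.1
    simp only [hz, Pi.zero_apply] at h2
    rw [dif_pos i.2] at h2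
    exact h2
  · intro h z hz hzJ
    have h1 := h (fun x => z x.1) (by
      rw [hY] at hz
      rw [← hz, ← Finset.sum_subset (Finset.subset_univ J)]
      · rw [← Finset.sum_coe_sort J]
      · intro x _ hx
        rw [hzJ x hx, zero_smul])
    funext x
    by_cases hx : x ∈ J
    · exact h1 ⟨x, hx⟩
    · exact hzJ x hx

theorem f2_sub_eq_add {V : Type} (a b : V) :
    Finsupp.single a (1 : F2) - Finsupp.single b 1 = Finsupp.single a (1 : F2) + Finsupp.single b 1 := by
  rw [sub_eq_add_neg, ← Finsupp.single_neg]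
  have : -(1 : F2) = 1 := by decide
  rw [this]

section Transfer

set_option linter.unusedSectionVars false
variable {α : Type} (E : Set α) [Fintype E] [DecidableEq E]

/-- the finset of the ground type for a subset of the ground set -/
noncomputable def fs (I : Set α) : Finset E := by
  classical
  exact Finset.univ.filter (fun x : E => x.1 ∈ I)

theorem mem_fs (I : Set α) (x : E) : x ∈ fs E I ↔ x.1 ∈ I := by
  simp [fs]

/-- reindexing -/
noncomputable def fsEquiv (I : Set α) (hI : I ⊆ E) : fs E I ≃ I where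
  toFun x := ⟨x.1.1, (mem_fs E I x.1).1 x.2⟩
  invFun y := ⟨⟨y.1, hI y.2⟩, (mem_fs E I _).2 y.2⟩
  left_inv x := by
    apply Subtype.ext
    apply Subtype.ext
    rfl
  right_inv y := by
    apply Subtype.ext
    rfl

theorem li_transfer (k M : Type) [Field k] [AddCommGroup M] [Module k M] (h : α → M)
    (I : Set α) (hI : I ⊆ E) :
    LinearIndependent k (fun e : I => h e.1) ↔ LinearIndependent k (fun x : fs E I => h x.1.1) := by
  rw [← linearIndependent_equiv (fsEquiv E I hI)]
  rfl

theorem graph_transfer {V : Type} (u w : α → V) (Y : Submodule F2 (E → F2))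
    (hY : ∀ c, c ∈ Y ↔ bd (fun x : E => u x.1) (fun x : E => w x.1) c = 0) (I : Set α)
    (hI : I ⊆ E) :
    LinearIndependent ℚ (fun e : I => Finsupp.single (u e.1) (1 : ℚ) - Finsupp.single (w e.1) (1 : ℚ))
      ↔ Ind Y (fs E I) := by
  rw [ind_ker Y (fun x : E => Finsupp.single (u x.1) (1 : F2) + Finsupp.single (w x.1) 1)
    (fun c => by rw [hY, bd_apply])]
  simp only [← f2_sub_eq_add]
  rw [li_transfer E ℚ (V →₀ ℚ) (fun a => Finsupp.single (u a) (1 : ℚ) - Finsupp.single (w a) (1 : ℚ)) I hI]
  rw [li_iff_sep ℚ (fun x : fs E I => u x.1.1) (fun x : fs E I => w x.1.1),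
    li_iff_sep F2 (fun x : fs E I => u x.1.1) (fun x : fs E I => w x.1.1)]

end Transfer

/-- For finite graphic matroids M1, M2 on a common ground set, if their union (independent sets are unions of an M1-independent and an M2-independent set) is not graphic, then it is not binary. -/
theorem result :
    ∀ (α : Type) (M₁ M₂ N : Matroid α),
      M₁.E.Finite → M₂.E = M₁.E → N.E = M₁.E →
      (∀ I : Set α, N.Indep I ↔ ∃ I₁ I₂ : Set α, M₁.Indep I₁ ∧ M₂.Indep I₂ ∧ I = I₁ ∪ I₂) →
      (∃ (V : Type) (u w : α → V), ∀ I : Set α, I ⊆ M₁.E →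
        (M₁.Indep I ↔ LinearIndependent ℚ
          (fun e : ↥I => Finsupp.single (u e.1) (1 : ℚ) - Finsupp.single (w e.1) (1 : ℚ)))) →
      (∃ (V : Type) (u w : α → V), ∀ I : Set α, I ⊆ M₂.E →
        (M₂.Indep I ↔ LinearIndependent ℚ
          (fun e : ↥I => Finsupp.single (u e.1) (1 : ℚ) - Finsupp.single (w e.1) (1 : ℚ)))) →
      ¬ (∃ (V : Type) (u w : α → V), ∀ I : Set α, I ⊆ N.E →
        (N.Indep I ↔ LinearIndependent ℚ
          (fun e : ↥I => Finsupp.single (u e.1) (1 : ℚ) - Finsupp.single (w e.1) (1 : ℚ)))) →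
      ¬ (∃ (ι : Type) (f : α → ι → ZMod 2), ∀ I : Set α, I ⊆ N.E →
        (N.Indep I ↔ LinearIndependent (ZMod 2) (fun e : ↥I => f e.1))) := by
  classical
  rintro α M₁ M₂ N hfin hE2 hEN hUn ⟨V1, u1, w1, hM1⟩ ⟨V2, u2, w2, hM2⟩ hnot ⟨ι, f, hf⟩
  apply hnot
  have : Fintype M₁.E := hfin.fintype
  rw [hE2] at hM2
  rw [hEN] at hf ⊢
  set E : Set α := M₁.E with hEdef
  -- the three cycle spaces
  set Y1 : Submodule F2 (E → F2) := LinearMap.ker (bd (fun x : E => u1 x.1) (fun x : E => w1 x.1))
    with hY1
  set Y2 : Submodule F2 (E → F2) := LinearMap.ker (bd (fun x : E => u2 x.1) (fun x : E => w2 x.1))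
    with hY2
  set Z : Submodule F2 (E → F2) :=
    LinearMap.ker (Fintype.linearCombination F2 (fun x : E => f x.1)) with hZ
  have hI1 : ∀ I : Set α, I ⊆ E → (M₁.Indep I ↔ Ind Y1 (fs E I)) := by
    intro I hI
    rw [hM1 I hI, graph_transfer E u1 w1 Y1 (fun c => LinearMap.mem_ker) I hI]
  have hI2 : ∀ I : Set α, I ⊆ E → (M₂.Indep I ↔ Ind Y2 (fs E I)) := by
    intro I hI
    rw [hM2 I hI, graph_transfer E u2 w2 Y2 (fun c => LinearMap.mem_ker) I hI]
  have hIN : ∀ I : Set α, I ⊆ E → (N.Indep I ↔ Ind Z (fs E I)) := by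
    intro I hI
    rw [hf I hI, li_transfer E (ZMod 2) (ι → ZMod 2) f I hI,
      ind_ker Z (fun x : E => f x.1) (fun c => by rw [hZ, LinearMap.mem_ker]; rfl)]
  -- sets of the ground type
  have hfs : ∀ J : Finset E, fs E (Subtype.val '' (J : Set E)) = J := by
    intro J
    ext x
    rw [mem_fs]
    simp
  have hsubE : ∀ J : Finset E, Subtype.val '' (J : Set E) ⊆ E := by
    rintro J _ ⟨x, -, rfl⟩
    exact x.2
  have hUnion : IsUnion Z Y1 Y2 Finset.univ := by
    intro I _
    have h1 : Ind Z I ↔ N.Indep (Subtype.val '' (I : Set E)) := by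
      rw [hIN _ (hsubE I), hfs]
    rw [h1, hUn]
    constructor
    · rintro ⟨J1, J2, hJ1, hJ2, hJ⟩
      have hJ1E : J1 ⊆ E := hJ1.subset_ground
      have hJ2E : J2 ⊆ E := by
        have := hJ2.subset_ground
        rwa [hE2] at this
      refine ⟨fs E J1, fs E J2, ?_, (hI1 J1 hJ1E).1 hJ1, (hI2 J2 hJ2E).1 hJ2⟩
      rw [← hfs I, hJ]
      ext x
      simp only [Finset.mem_union, mem_fs, Set.mem_union]
    · rintro ⟨I1, I2, hI, h1, h2⟩
      refine ⟨Subtype.val '' (I1 : Set E), Subtype.val '' (I2 : Set E), ?_, ?_, ?_⟩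
      · rw [hI1 _ (hsubE I1), hfs]; exact h1
      · rw [hI2 _ (hsubE I2), hfs]; exact h2
      · rw [← Set.image_union, ← hI]
        simp
  have hpb : Z.map (pb id Finset.univ) = Z := by
    have : pb (id : E → E) Finset.univ = LinearMap.id := by
      apply LinearMap.ext
      intro z
      funext x
      simp [pb_apply]
    rw [this, Submodule.map_id]
  have hHU : HU Y1 Y2 Z Finset.univ := by
    refine ⟨id, Finset.univ, by simp, ?_⟩
    rw [hpb]
    exact hUnion
  obtain ⟨V, u, w, hG⟩ := graphic_of_HU (fun x : E => u1 x.1) (fun x : E => w1 x.1)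
    (fun x : E => u2 x.1) (fun x : E => w2 x.1) (fun c => LinearMap.mem_ker)
    (fun c => LinearMap.mem_ker) _ Z Finset.univ rfl
    (fun z _ x hx => absurd (Finset.mem_univ x) hx) hHU
  have hext : ∀ g : E → V, ∃ U : α → Option V, ∀ x : E, U x.1 = some (g x) := by
    intro g
    refine ⟨fun a => if h : a ∈ E then some (g ⟨a, h⟩) else none, fun x => ?_⟩
    simp only [dif_pos x.2]
  obtain ⟨U, hU⟩ := hext u
  obtain ⟨W, hW⟩ := hext w
  have key : ∀ c : E → F2, c ∈ Z ↔ bd (fun x : E => U x.1) (fun x : E => W x.1) c = 0 := by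
    intro c
    have h1 : bd (fun x : E => U x.1) (fun x : E => W x.1) c =
        Finsupp.lmapDomain F2 F2 some (bd u w c) := by
      rw [bd_apply, bd_apply, map_sum]
      apply Finset.sum_congr rfl
      intro x _
      rw [map_smul, map_add]
      simp only [Finsupp.lmapDomain_apply, Finsupp.mapDomain_single, hU, hW]
    rw [h1, hG]
    constructor
    · rintro ⟨-, h⟩
      rw [h, map_zero]
    · intro h
      exact ⟨fun x hx => absurd (Finset.mem_univ x) hx, lmap_inj _ (Option.some_injective V) h⟩
  refine ⟨Option V, U, W, fun I hI => ?_⟩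
  exact (hIN I hI).trans (graph_transfer E U W Z key I hI).symm

end Pool.Agent.S05263
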