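import Pool.Statements.S05294

set_option autoImplicit false
open Pool Pool.MP_398cfe_co

namespace Pool.Agent.S05294

/-- out-neighbours of the 30 vertices of the counterexample `D` (longest path: 28 vertices) -/
def out : ℕ → List ℕ
  | 0 => [1, 8]
  | 1 => [2, 6]
  | 2 => [0, 7]
  | 3 => [4, 11, 18, 19, 20]
  | 4 => [5, 9, 18, 19, 20]
  | 5 => [3, 10, 18, 19, 20]
  | 6 => [2, 9]
  | 7 => [0, 10]
  | 8 => [1, 11]
  | 9 => [12]
  | 10 => [13]
  | 11 => [14]
  | 12 => [4, 6]
  | 13 => [5, 7]
  | 14 => [3, 8]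
  | 15 => [17, 22]
  | 16 => [15, 23]
  | 17 => [16, 21]
  | 18 => [20, 29]
  | 19 => [18, 27]
  | 20 => [19, 28]
  | 21 => [16, 27]
  | 22 => [17, 28]
  | 23 => [15, 29]
  | 24 => [19, 21]
  | 25 => [20, 22]
  | 26 => [18, 23]
  | 27 => [24]
  | 28 => [25]
  | 29 => [26]
  | _ => []

/-- the digraph on 30 vertices -/
def D : Digraph (Fin 30) := ⟨fun u v => v.val ∈ out u.val⟩

instance : DecidableRel D.Adj := fun u v => inferInstanceAs (Decidable (v.val ∈ out u.val))

/-- every path with `k` further steps leaving `v` and avoiding the vertices of the bit mask `used`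
ends with a mask of used vertices satisfying `P` -/
def chk (P : ℕ → Bool) : ℕ → ℕ → ℕ → Bool
  | 0, used, _ => P used
  | k + 1, used, v => (out v).all fun w => used.testBit w || chk P k (used ||| 2 ^ w) w

theorem sound (P : ℕ → Bool) (k : ℕ) : ∀ (used : ℕ) (v : Fin 30), chk P k used v.val = true →
    ∀ q : ℕ → Fin 30, q 0 = v → (∀ i < k, (q (i + 1)).val ∈ out (q i).val) →
    (∀ i, 1 ≤ i → i ≤ k → used.testBit (q i).val = false) →
    (∀ i j, i ≤ k → j ≤ k → q i = q j → i = j) →
    ∃ used' : ℕ, P used' = true ∧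
      ∀ x : ℕ, used'.testBit x = true ↔
        (used.testBit x = true ∨ ∃ i, 1 ≤ i ∧ i ≤ k ∧ (q i).val = x) := by
  induction k with
  | zero =>
    intro used v h q _ _ _ _
    refine ⟨used, h, fun x => ⟨Or.inl, ?_⟩⟩
    rintro (h | ⟨i, h1, h2, -⟩)
    · exact h
    · omega
  | succ k ih =>
    intro used v h q h0 hadj hnot hinj
    simp only [chk, List.all_eq_true] at h
    have hw := h (q 1).val (by have := hadj 0 (by omega); rwa [h0] at this)
    rw [Bool.or_eq_true, hnot 1 le_rfl (by omega)] at hw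
    rcases hw with hw | hw
    · exact absurd hw (by simp)
    · obtain ⟨u', hP, hu'⟩ := ih (used ||| 2 ^ (q 1).val) (q 1) hw (fun i => q (i + 1)) rfl
        (fun i hi => hadj (i + 1) (by omega))
        (by
          intro i h1 h2
          rw [Nat.testBit_or, hnot (i + 1) (by omega) (by omega), Bool.false_or,
            Nat.testBit_two_pow, decide_eq_false_iff_not]
          intro he
          have := hinj 1 (i + 1) (by omega) (by omega) (Fin.ext he)
          omega)
        (by
          intro i j hi hj he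
          have := hinj _ _ (by omega) (by omega) he
          omega)
      refine ⟨u', hP, fun x => ?_⟩
      rw [hu' x, Nat.testBit_or, Bool.or_eq_true, Nat.testBit_two_pow, decide_eq_true_iff]
      constructor
      · rintro ((h | h) | ⟨i, h1, h2, h3⟩)
        · exact Or.inl h
        · exact Or.inr ⟨1, le_rfl, by omega, h⟩
        · exact Or.inr ⟨i + 1, by omega, by omega, h3⟩
      · rintro (h | ⟨i, h1, h2, h3⟩)
        · exact Or.inl (Or.inl h)
        · rcases Nat.eq_or_lt_of_le h1 with h4 | h4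
          · subst h4
            exact Or.inl (Or.inr h3)
          · exact Or.inr ⟨i - 1, by omega, by omega, by
              have : i - 1 + 1 = i := by omega
              simpa only [this] using h3⟩

/-- nine longest paths (28 vertices) -/
def paths : Fin 9 → Fin 28 → Fin 30 :=
  ![![0, 8, 11, 14, 3, 4, 9, 12, 6, 2, 7, 10, 13, 5, 20, 28, 25, 22, 17, 21, 27, 24, 19, 18, 29, 26, 23, 15],
    ![0, 8, 11, 14, 3, 4, 9, 12, 6, 2, 7, 10, 13, 5, 18, 29, 26, 23, 15, 22, 28, 25, 20, 19, 27, 24, 21, 16],
    ![0, 8, 11, 14, 3, 4, 9, 12, 6, 2, 7, 10, 13, 5, 19, 27, 24, 21, 16, 23, 29, 26, 18, 20, 28, 25, 22, 17],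
    ![1, 6, 9, 12, 4, 5, 10, 13, 7, 0, 8, 11, 14, 3, 20, 28, 25, 22, 17, 21, 27, 24, 19, 18, 29, 26, 23, 15],
    ![1, 6, 9, 12, 4, 5, 10, 13, 7, 0, 8, 11, 14, 3, 18, 29, 26, 23, 15, 22, 28, 25, 20, 19, 27, 24, 21, 16],
    ![1, 6, 9, 12, 4, 5, 10, 13, 7, 0, 8, 11, 14, 3, 19, 27, 24, 21, 16, 23, 29, 26, 18, 20, 28, 25, 22, 17],
    ![2, 7, 10, 13, 5, 3, 11, 14, 8, 1, 6, 9, 12, 4, 20, 28, 25, 22, 17, 21, 27, 24, 19, 18, 29, 26, 23, 15],
    ![2, 7, 10, 13, 5, 3, 11, 14, 8, 1, 6, 9, 12, 4, 18, 29, 26, 23, 15, 22, 28, 25, 20, 19, 27, 24, 21, 16],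
    ![2, 7, 10, 13, 5, 3, 11, 14, 8, 1, 6, 9, 12, 4, 19, 27, 24, 21, 16, 23, 29, 26, 18, 20, 28, 25, 22, 17]]

/-- the masks of the two vertices missed by these nine paths -/
def miss : Fin 9 → ℕ := ![65538, 131074, 32770, 65540, 131076, 32772, 65537, 131073, 32769]

theorem paths_adj : ∀ k : Fin 9, ∀ i j : Fin 28, j.val = i.val + 1 →
    D.Adj (paths k i) (paths k j) := by decide +kernel

theorem paths_inj : ∀ k : Fin 9, ∀ i j : Fin 28, paths k i = paths k j → i = j := by
  decide +kernel

theorem paths_miss : ∀ k : Fin 9, ∀ i : Fin 28, (miss k).testBit (paths k i).val = false := by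
  decide +kernel

/-- no arc joins two members of the list -/
def stab (S : List ℕ) : Bool := S.all fun a => S.all fun b => !((out a).elem b)

/-- each stable set of unused vertices is missed by one of the nine longest paths -/
def good (used : ℕ) : Bool :=
  (((List.range 30).filter fun x => !used.testBit x).sublists).all fun S =>
    !(stab S) || (List.finRange 9).any fun k => S.all fun x => (miss k).testBit x

theorem check28 : ∀ v : Fin 30, chk (fun _ => false) 28 (2 ^ v.val) v.val = true := by
  decide +kernel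

theorem check26 : ∀ v : Fin 30, chk good 26 (2 ^ v.val) v.val = true := by
  decide +kernel

theorem path_bound (P : ℕ → Bool) (k : ℕ) (hc : ∀ v : Fin 30, chk P k (2 ^ v.val) v.val = true)
    (m : ℕ) (hk : k < m) (f : Fin m → Fin 30)
    (hf : Function.Injective f)
    (hadj : ∀ i j : Fin m, j.val = i.val + 1 → D.Adj (f i) (f j)) :
    ∃ used' : ℕ, P used' = true ∧
      ∀ x : ℕ, used'.testBit x = true ↔ ∃ i : Fin m, i.val ≤ k ∧ (f i).val = x := by
  obtain ⟨u', h1, h2⟩ := sound P k (2 ^ (f ⟨0, by omega⟩).val) (f ⟨0, by omega⟩) (hc _)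
    (fun i => if hi : i < m then f ⟨i, hi⟩ else f ⟨0, by omega⟩) (by simp)
    (by
      intro i hi
      have h1 : i < m := by omega
      have h2 : i + 1 < m := by omega
      simp only [h1, h2, dif_pos]
      exact hadj ⟨i, h1⟩ ⟨i + 1, h2⟩ rfl)
    (by
      intro i h1 h2
      have h3 : i < m := by omega
      simp only [h3, dif_pos]
      rw [Nat.testBit_two_pow, decide_eq_false_iff_not]
      intro he
      have := congrArg Fin.val (hf (Fin.ext he))
      simp at this
      omega)
    (by
      intro i j hi hj he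
      have h3 : i < m := by omega
      have h4 : j < m := by omega
      simp only [h3, h4, dif_pos] at he
      exact congrArg Fin.val (hf he))
  refine ⟨u', h1, fun x => ?_⟩
  rw [h2 x, Nat.testBit_two_pow, decide_eq_true_iff]
  constructor
  · rintro (h | ⟨i, h3, h4, h5⟩)
    · exact ⟨⟨0, by omega⟩, by simp, h⟩
    · have h6 : i < m := by omega
      simp only [h6, dif_pos] at h5
      exact ⟨⟨i, h6⟩, h4, h5⟩
  · rintro ⟨i, h3, h4⟩
    rcases Nat.eq_zero_or_pos i.val with h5 | h5
    · left
      have : i = ⟨0, by omega⟩ := Fin.ext h5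
      rw [← h4, this]
    · right
      refine ⟨i.val, h5, h3, ?_⟩
      simp only [i.isLt, dif_pos]
      exact h4

theorem two_path {V : Type} (D : Digraph V) (V1 : Set V)
    (h : ∀ (m : ℕ) (f : Fin m → V), Function.Injective f → (∀ i, f i ∈ V1) →
      (∀ i j : Fin m, j.val = i.val + 1 → D.Adj (f i) (f j)) → m ≤ 1) :
    ∀ x ∈ V1, ∀ y ∈ V1, x ≠ y → ¬ D.Adj x y := by
  intro x hx y hy hne hadj
  have := h 2 ![x, y] (by
      intro i j hij
      fin_cases i <;> fin_cases j <;> simp_all)
    (by intro i; fin_cases i <;> simp_all)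
    (by
      intro i j hij
      fin_cases i <;> fin_cases j <;> simp_all)
  omega

/-- The negation of the preceding statement: For every finite digraph whose longest directed path has exactly l1+l2 vertices (l1, l2 positive), the vertices split into V1 and its complement so that the longest directed path inside V1 has exactly l1 vertices and inside the complement exactly l2. -/
theorem result :
    ¬ (∀ (V : Type) [Fintype V] [Nontrivial V] (D : Digraph V) (l1 l2 : ℕ),
      0 < l1 → 0 < l2 →
      (∃ f : Fin (l1 + l2) → V, Function.Injective f ∧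
          ∀ i j : Fin (l1 + l2), j.val = i.val + 1 → D.Adj (f i) (f j)) →
      (∀ (m : ℕ) (f : Fin m → V), Function.Injective f →
          (∀ i j : Fin m, j.val = i.val + 1 → D.Adj (f i) (f j)) → m ≤ l1 + l2) →
      ∃ V1 : Set V,
        ((∃ f : Fin l1 → V, Function.Injective f ∧ (∀ i, f i ∈ V1) ∧
            ∀ i j : Fin l1, j.val = i.val + 1 → D.Adj (f i) (f j)) ∧
         (∀ (m : ℕ) (f : Fin m → V), Function.Injective f → (∀ i, f i ∈ V1) →
            (∀ i j : Fin m, j.val = i.val + 1 → D.Adj (f i) (f j)) → m ≤ l1)) ∧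
        ((∃ f : Fin l2 → V, Function.Injective f ∧ (∀ i, f i ∈ V1ᶜ) ∧
            ∀ i j : Fin l2, j.val = i.val + 1 → D.Adj (f i) (f j)) ∧
         (∀ (m : ℕ) (f : Fin m → V), Function.Injective f → (∀ i, f i ∈ V1ᶜ) →
            (∀ i j : Fin m, j.val = i.val + 1 → D.Adj (f i) (f j)) → m ≤ l2))) := by
  intro H
  obtain ⟨V1, ⟨_, hV1⟩, ⟨f, hf, hfV, hfadj⟩, hV2⟩ := H (Fin 30) D 1 27 (by norm_num) (by norm_num)
    ⟨paths 0, fun i j h => paths_inj 0 i j h, fun i j h => paths_adj 0 i j h⟩
    (by
      intro m f hf hadj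
      by_contra hm
      obtain ⟨u, hu, _⟩ := path_bound _ 28 check28 m (by omega) f hf hadj
      exact absurd hu (by simp))
  obtain ⟨u, hu, hu'⟩ := path_bound good 26 check26 27 (by norm_num) f hf hfadj
  classical
  -- vertices of V1 are unused
  have hun : ∀ x : Fin 30, x ∈ V1 → u.testBit x.val = false := by
    intro x hx
    rw [← Bool.not_eq_true, hu' x.val]
    rintro ⟨i, -, h2⟩
    have : f i = x := Fin.ext h2
    exact hfV i (this ▸ hx)
  -- V1 is stable
  have hst : ∀ x ∈ V1, ∀ y ∈ V1, x ≠ y → ¬ D.Adj x y := two_path D V1 hV1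
  have hloop : ∀ x : Fin 30, ¬ D.Adj x x := by decide +kernel
  let S : List ℕ := ((List.range 30).filter fun x => !u.testBit x).filter
    fun x => decide (∃ y ∈ V1, y.val = x)
  have hS : S ∈ ((List.range 30).filter fun x => !u.testBit x).sublists := by
    rw [List.mem_sublists]
    exact List.filter_sublist
  have hmem : ∀ x, x ∈ S → ∃ y ∈ V1, y.val = x := by
    intro x hx
    have := List.mem_filter.1 hx
    simpa using this.2
  have hmem' : ∀ y ∈ V1, y.val ∈ S := by
    intro y hy
    refine List.mem_filter.2 ⟨List.mem_filter.2 ⟨by simp, by simp [hun y hy]⟩, ?_⟩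
    simp only [decide_eq_true_iff]
    exact ⟨y, hy, rfl⟩
  have hstab : stab S = true := by
    simp only [stab, List.all_eq_true]
    intro a ha b hb
    obtain ⟨x, hx, rfl⟩ := hmem a ha
    obtain ⟨y, hy, rfl⟩ := hmem b hb
    have hxy : ¬ D.Adj x y := by
      by_cases h : x = y
      · subst h; exact hloop x
      · exact hst x hx y hy h
    simpa [D] using hxy
  unfold good at hu
  rw [List.all_eq_true] at hu
  have h1 := hu S hS
  rw [hstab] at h1
  simp only [Bool.not_true, Bool.false_or, List.any_eq_true, List.all_eq_true] at h1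
  obtain ⟨k, -, hk⟩ := h1
  have := hV2 28 (paths k) (fun i j h => paths_inj k i j h) (by
      intro i hi
      have h2 := hk _ (hmem' _ hi)
      rw [paths_miss k i] at h2
      exact absurd h2 (by simp))
    (fun i j h => paths_adj k i j h)
  omega

end Pool.Agent.S05294
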