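import Pool.Statements.S05300
-- import your own Pool.Agent.* helpers here

set_option autoImplicit false
open Pool Pool.MP_3a151c_co

namespace Pool.Agent.S05300

/-- The counterexample: a 5-ary relation on six points.  Constant tuples mark the
three points `0, 1, 2`; an injective tuple is in the relation when it misses the point
`0` or misses the point `3`. -/
def Rel (x : Fin 5 → Fin 6) : Prop :=
  (∃ a : Fin 6, a < 3 ∧ ∀ i, x i = a) ∨
    (Function.Injective x ∧ ((∀ i, x i ≠ 0) ∨ (∀ i, x i ≠ 3)))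

/-- Isomorphism of the restrictions to two subsets of size `k`. -/
def Iso (k : ℕ) (A B : {A : Finset (Fin 6) // A.card = k}) : Prop :=
  ∃ f : {x : Fin 6 // x ∈ A.1} ≃ {x : Fin 6 // x ∈ B.1},
    ∀ x : Fin 5 → {x : Fin 6 // x ∈ A.1},
      (Rel (fun i => (x i).1) ↔ Rel (fun i => (f (x i)).1))

lemma rel_const (a : Fin 6) : Rel (fun _ => a) ↔ a < 3 := by
  constructor
  · rintro (⟨b, hb, h⟩ | ⟨h, _⟩)
    · have := h 0
      simp only at this
      rwa [this]
    · exact absurd (@h 0 1 rfl) (by decide)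
  · intro h
    exact Or.inl ⟨a, h, fun _ => rfl⟩

/-- The points of a subset that are marked. -/
def mk (A : Finset (Fin 6)) : Finset (Fin 6) := A.filter (fun a => a < 3)

lemma card_mk_le {k : ℕ} {A B : {A : Finset (Fin 6) // A.card = k}} (h : Iso k A B) :
    (mk A.1).card = (mk B.1).card := by
  obtain ⟨f, hf⟩ := h
  have key : ∀ a : {x : Fin 6 // x ∈ A.1}, a.1 < 3 ↔ (f a).1 < 3 := by
    intro a
    have := hf (fun _ => a)
    rwa [rel_const, rel_const] at this
  have e : {a : {x : Fin 6 // x ∈ A.1} // a.1 < 3} ≃ {b : {x : Fin 6 // x ∈ B.1} // b.1 < 3} :=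
    f.subtypeEquiv key
  have hA : Fintype.card {a : {x : Fin 6 // x ∈ A.1} // a.1 < 3} = (mk A.1).card := by
    rw [← Fintype.card_coe]
    refine Fintype.card_congr ⟨fun a => ⟨a.1.1, by simp [mk, a.2]⟩,
      fun a => ⟨⟨a.1, (Finset.mem_filter.1 a.2).1⟩, (Finset.mem_filter.1 a.2).2⟩, ?_, ?_⟩
    · intro a; rfl
    · intro a; rfl
  have hB : Fintype.card {a : {x : Fin 6 // x ∈ B.1} // a.1 < 3} = (mk B.1).card := by
    rw [← Fintype.card_coe]
    refine Fintype.card_congr ⟨fun a => ⟨a.1.1, by simp [mk, a.2]⟩,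
      fun a => ⟨⟨a.1, (Finset.mem_filter.1 a.2).1⟩, (Finset.mem_filter.1 a.2).2⟩, ?_, ?_⟩
    · intro a; rfl
    · intro a; rfl
  rw [← hA, ← hB]
  exact Fintype.card_congr e

/-- A subset is hyper if it carries an injective tuple of the relation. -/
def Hyp (A : Finset (Fin 6)) : Prop :=
  ∃ x : Fin 5 → Fin 6, (∀ i, x i ∈ A) ∧ Function.Injective x ∧ Rel x

lemma hyp_of_iso {k : ℕ} {A B : {A : Finset (Fin 6) // A.card = k}} (h : Iso k A B) :
    Hyp A.1 → Hyp B.1 := by
  obtain ⟨f, hf⟩ := h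
  rintro ⟨x, hx, hi, hR⟩
  refine ⟨fun i => (f ⟨x i, hx i⟩).1, fun i => (f ⟨x i, hx i⟩).2, ?_, ?_⟩
  · intro i j hij
    have h1 : f ⟨x i, hx i⟩ = f ⟨x j, hx j⟩ := Subtype.ext hij
    have h2 := f.injective h1
    exact hi (congrArg Subtype.val h2)
  · exact (hf (fun i => ⟨x i, hx i⟩)).1 hR

lemma iso_symm {k : ℕ} {A B : {A : Finset (Fin 6) // A.card = k}} (h : Iso k A B) :
    Iso k B A := by
  obtain ⟨f, hf⟩ := h
  refine ⟨f.symm, fun x => ?_⟩
  have := hf (fun i => f.symm (x i))
  simp only [Equiv.apply_symm_apply] at this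
  exact this.symm

lemma hyp_iff {k : ℕ} {A B : {A : Finset (Fin 6) // A.card = k}} (h : Iso k A B) :
    Hyp A.1 ↔ Hyp B.1 :=
  ⟨hyp_of_iso h, hyp_of_iso (iso_symm h)⟩

/-- Invariant: number of marked points. -/
noncomputable def inv1 (k : ℕ) : Quot (Iso k) → ℕ :=
  Quot.lift (fun A => (mk A.1).card) (fun _ _ h => card_mk_le h)

/-- Invariant: number of marked points and hyper or not. -/
noncomputable def inv2 (k : ℕ) : Quot (Iso k) → ℕ × Prop :=
  Quot.lift (fun A => ((mk A.1).card, Hyp A.1))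
    (fun _ _ h => Prod.ext (card_mk_le h) (propext (hyp_iff h)))

/-- Representatives with three points. -/
def rep3 : Fin 4 → {A : Finset (Fin 6) // A.card = 3} :=
  ![⟨{3, 4, 5}, by decide⟩, ⟨{0, 4, 5}, by decide⟩, ⟨{0, 1, 5}, by decide⟩,
    ⟨{0, 1, 2}, by decide⟩]

lemma card3 : 4 ≤ Nat.card (Quot (Iso 3)) := by
  have hinj : Function.Injective (fun i : Fin 4 => Quot.mk (Iso 3) (rep3 i)) := by
    intro i j hij
    have h := congrArg (inv1 3) hij
    simp only [inv1] at h
    revert h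
    revert i j
    have : ∀ i j : Fin 4, (mk (rep3 i).1).card = (mk (rep3 j).1).card → i = j := by decide
    intro i j _ h
    exact this i j h
  have := Nat.card_le_card_of_injective _ hinj
  simpa using this

/-- Representatives with four points. -/
def rep4 : Fin 3 → {A : Finset (Fin 6) // A.card = 4} :=
  ![⟨{0, 3, 4, 5}, by decide⟩, ⟨{0, 1, 4, 5}, by decide⟩, ⟨{0, 1, 2, 5}, by decide⟩]

lemma iso_of_card {A B : {A : Finset (Fin 6) // A.card = 4}}
    (h : ∀ c : Bool, Fintype.card {a : {x : Fin 6 // x ∈ A.1} // decide (a.1 < 3) = c} =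
      Fintype.card {a : {x : Fin 6 // x ∈ B.1} // decide (a.1 < 3) = c}) : Iso 4 A B := by
  let e : ∀ c : Bool, {a : {x : Fin 6 // x ∈ A.1} // decide (a.1 < 3) = c} ≃
      {a : {x : Fin 6 // x ∈ B.1} // decide (a.1 < 3) = c} :=
    fun c => Fintype.equivOfCardEq (h c)
  refine ⟨Equiv.ofFiberEquiv e, fun x => ?_⟩
  have hm : ∀ a, ((Equiv.ofFiberEquiv e) a).1 < 3 ↔ a.1 < 3 := by
    intro a
    have := Equiv.ofFiberEquiv_map e a
    exact (decide_eq_decide.1 this)
  have hno : ∀ (C : {A : Finset (Fin 6) // A.card = 4}) (y : Fin 5 → {x : Fin 6 // x ∈ C.1}),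
      ¬ Function.Injective (fun i => (y i).1) := by
    intro C y hy
    have h1 : Function.Injective y := fun i j hij => hy (congrArg Subtype.val hij)
    have h2 := Fintype.card_le_of_injective y h1
    rw [Fintype.card_fin, Fintype.card_coe, C.2] at h2
    omega
  constructor
  · rintro (⟨a, ha, hx'⟩ | ⟨hi, _⟩)
    · have hx : ∀ i, (x i).1 = a := hx'
      refine Or.inl ⟨((Equiv.ofFiberEquiv e) (x 0)).1, ?_, ?_⟩
      · rw [hm, hx 0]; exact ha
      · intro i
        have h3 : x i = x 0 := Subtype.ext (by rw [hx i, hx 0])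
        exact congrArg (fun y => ((Equiv.ofFiberEquiv e) y).1) h3
    · exact absurd hi (hno A x)
  · rintro (⟨a, ha, hx'⟩ | ⟨hi, _⟩)
    · have hx : ∀ i, ((Equiv.ofFiberEquiv e) (x i)).1 = a := hx'
      refine Or.inl ⟨(x 0).1, ?_, ?_⟩
      · rw [← hm, hx 0]; exact ha
      · intro i
        have h3 : (Equiv.ofFiberEquiv e) (x i) = (Equiv.ofFiberEquiv e) (x 0) :=
          Subtype.ext (by rw [hx i, hx 0])
        exact congrArg Subtype.val ((Equiv.ofFiberEquiv e).injective h3)
    · exact absurd hi (hno B (fun i => (Equiv.ofFiberEquiv e) (x i)))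

lemma card4 : Nat.card (Quot (Iso 4)) ≤ 3 := by
  have hsurj : Function.Surjective (fun i : Fin 3 => Quot.mk (Iso 4) (rep4 i)) := by
    intro q
    induction q using Quot.ind with
    | mk A =>
      have key : ∀ A : Finset (Fin 6), A.card = 4 → ∃ i : Fin 3, ∀ c : Bool,
          Fintype.card {a : {x : Fin 6 // x ∈ (rep4 i).1} // decide (a.1 < 3) = c} =
          Fintype.card {a : {x : Fin 6 // x ∈ A} // decide (a.1 < 3) = c} := by
        decide +kernel
      obtain ⟨i, hi⟩ := key A.1 A.2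
      exact ⟨i, Quot.sound (iso_of_card hi)⟩
  have := Nat.card_le_card_of_surjective _ hsurj
  simpa using this

/-- Representatives with five points. -/
def rep5 : Fin 4 → {A : Finset (Fin 6) // A.card = 5} :=
  ![⟨{1, 2, 3, 4, 5}, by decide⟩, ⟨{0, 2, 3, 4, 5}, by decide⟩, ⟨{0, 1, 2, 4, 5}, by decide⟩,
    ⟨{0, 1, 2, 3, 5}, by decide⟩]

lemma hyp0 : Hyp (rep5 0).1 :=
  ⟨![1, 2, 3, 4, 5], by decide, by decide, Or.inr ⟨by decide, Or.inl (by decide)⟩⟩

lemma hyp2 : Hyp (rep5 2).1 :=
  ⟨![0, 1, 2, 4, 5], by decide, by decide, Or.inr ⟨by decide, Or.inr (by decide)⟩⟩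

lemma not_hyp (A : {A : Finset (Fin 6) // A.card = 5}) (h0 : 0 ∈ A.1) (h3 : 3 ∈ A.1) :
    ¬ Hyp A.1 := by
  rintro ⟨x, hx, hi, hR⟩
  have hs : ∀ a ∈ A.1, ∃ i, x i = a := by
    have h1 : Finset.image x Finset.univ = A.1 := by
      apply Finset.eq_of_subset_of_card_le
      · intro a ha
        obtain ⟨i, _, rfl⟩ := Finset.mem_image.1 ha
        exact hx i
      · rw [Finset.card_image_of_injective _ hi, A.2]; simp
    intro a ha
    rw [← h1] at ha
    obtain ⟨i, _, h⟩ := Finset.mem_image.1 ha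
    exact ⟨i, h⟩
  rcases hR with ⟨a, _, h⟩ | ⟨_, h | h⟩
  · have : (0 : Fin 5) = 1 := hi (by rw [h 0, h 1])
    exact absurd this (by decide)
  · obtain ⟨i, hi'⟩ := hs 0 h0
    exact h i hi'
  · obtain ⟨i, hi'⟩ := hs 3 h3
    exact h i hi'

lemma card5 : 4 ≤ Nat.card (Quot (Iso 5)) := by
  have hn1 : ¬ Hyp (rep5 1).1 := not_hyp _ (by decide) (by decide)
  have hn3 : ¬ Hyp (rep5 3).1 := not_hyp _ (by decide) (by decide)
  have hinj : Function.Injective (fun i : Fin 4 => Quot.mk (Iso 5) (rep5 i)) := by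
    intro i j hij
    have h := congrArg (inv2 5) hij
    simp only [inv2] at h
    have h1 : (mk (rep5 i).1).card = (mk (rep5 j).1).card := congrArg Prod.fst h
    have h2 : Hyp (rep5 i).1 = Hyp (rep5 j).1 := congrArg Prod.snd h
    have c0 : (mk (rep5 0).1).card = 2 := by decide
    have c1 : (mk (rep5 1).1).card = 2 := by decide
    have c2 : (mk (rep5 2).1).card = 3 := by decide
    have c3 : (mk (rep5 3).1).card = 3 := by decide
    have p0 := hyp0
    have p2 := hyp2
    fin_cases i <;> fin_cases j <;> simp_all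
  have := Nat.card_le_card_of_injective _ hinj
  simpa using this

/-- The negation of the preceding statement: For every m-ary relation R on an n-element set, the profile is unimodal. Here w_k is the number of isomorphism types of restrictions of R to k-element subsets, and unimodal means some j has w nondecreasing up to j and nonincreasing from j on. -/
theorem result :
    ¬ (∀ (n m : ℕ) (R : (Fin m → Fin n) → Prop) (w : ℕ → ℕ),
      (∀ k : ℕ, w k = Nat.card (Quot (fun A B : {A : Finset (Fin n) // A.card = k} =>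
        ∃ f : {x : Fin n // x ∈ A.1} ≃ {x : Fin n // x ∈ B.1},
          ∀ x : Fin m → {x : Fin n // x ∈ A.1},
            (R (fun i => (x i).1) ↔ R (fun i => (f (x i)).1))))) →
      ∃ j : ℕ, MonotoneOn w (Set.Iic j) ∧ AntitoneOn w (Set.Ici j)) := by
  intro H
  obtain ⟨j, hm, ha⟩ := H 6 5 Rel (fun k => Nat.card (Quot (Iso k))) (fun k => rfl)
  have h3 := card3
  have h4 := card4
  have h5 := card5
  rcases le_total j 4 with hj | hj
  · have := ha (Set.mem_Ici.2 hj) (Set.mem_Ici.2 (hj.trans (by norm_num : 4 ≤ 5)))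
      (by norm_num : (4 : ℕ) ≤ 5)
    simp only at this
    omega
  · have := hm (Set.mem_Iic.2 ((by norm_num : 3 ≤ 4).trans hj)) (Set.mem_Iic.2 hj)
      (by norm_num : (3 : ℕ) ≤ 4)
    simp only at this
    omega

end Pool.Agent.S05300
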