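import Pool.Statements.S05306
import Mathlib

set_option autoImplicit false
open Pool Pool.MP_3a82a8_co

namespace Pool.Agent.S05306

/-! ### finite Ramsey theorem for `L`-subsets -/

theorem endhom {r : ℕ} {L : ℕ}
    (ih : ∀ m : ℕ, ∃ M : ℕ, ∀ (V : Finset ℕ), M ≤ V.card → ∀ c : Finset ℕ → Fin r,
      ∃ H ⊆ V, H.card = m ∧ ∃ i, ∀ s ⊆ H, s.card = L → c s = i) :
    ∀ t : ℕ, ∃ M : ℕ, ∀ (V : Finset ℕ), M ≤ V.card → ∀ c : Finset ℕ → Fin r,
      ∃ W ⊆ V, W.card = t ∧ ∃ g : ℕ → Fin r,
        ∀ s ⊆ W, s.card = L + 1 → ∃ x ∈ s, c s = g x := by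
  intro t
  induction t with
  | zero =>
    refine ⟨0, fun V _ c => ⟨∅, by simp, by simp, fun _ => c ∅, ?_⟩⟩
    intro s hs hc
    have : s = ∅ := Finset.subset_empty.mp hs
    simp [this] at hc
  | succ t iht =>
    obtain ⟨M1, hM1⟩ := iht
    obtain ⟨M2, hM2⟩ := ih M1
    refine ⟨M2 + 1, fun V hV c => ?_⟩
    have hne : V.Nonempty := by
      rw [← Finset.card_pos]; omega
    obtain ⟨x, hx⟩ := hne
    obtain ⟨H, hHV, hHc, i, hi⟩ := hM2 (V.erase x)
      (by rw [Finset.card_erase_of_mem hx]; omega) (fun s => c (insert x s))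
    obtain ⟨W, hWH, hWc, g, hg⟩ := hM1 H (by omega) c
    have hxW : x ∉ W := fun h => by
      have := hHV (hWH h)
      simp at this
    refine ⟨insert x W, ?_, ?_, fun y => if y = x then i else g y, ?_⟩
    · intro y hy
      rcases Finset.mem_insert.mp hy with rfl | hy
      · exact hx
      · exact Finset.mem_of_mem_erase (hHV (hWH hy))
    · rw [Finset.card_insert_of_notMem hxW, hWc]
    · intro s hs hc
      by_cases hxs : x ∈ s
      · refine ⟨x, hxs, ?_⟩
        have h1 : s.erase x ⊆ H := by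
          intro y hy
          have hy1 := Finset.ne_of_mem_erase hy
          have hy2 := Finset.mem_of_mem_erase hy
          rcases Finset.mem_insert.mp (hs hy2) with h | h
          · exact absurd h hy1
          · exact hWH h
        have h2 : (s.erase x).card = L := by
          rw [Finset.card_erase_of_mem hxs]; omega
        have h3 := hi (s.erase x) h1 h2
        simp only [Finset.insert_erase hxs] at h3
        simp [h3]
      · have h1 : s ⊆ W := by
          intro y hy
          rcases Finset.mem_insert.mp (hs hy) with h | h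
          · subst h; exact absurd hy hxs
          · exact h
        obtain ⟨y, hy, hcy⟩ := hg s h1 hc
        refine ⟨y, hy, ?_⟩
        have : y ≠ x := fun h => hxs (h ▸ hy)
        simp [this, hcy]

theorem ramsey (r : ℕ) (L : ℕ) :
    ∀ m : ℕ, ∃ M : ℕ, ∀ (V : Finset ℕ), M ≤ V.card → ∀ c : Finset ℕ → Fin r,
      ∃ H ⊆ V, H.card = m ∧ ∃ i, ∀ s ⊆ H, s.card = L → c s = i := by
  induction L with
  | zero =>
    intro m
    refine ⟨m, fun V hV c => ?_⟩
    obtain ⟨H, hH, hc⟩ := Finset.exists_subset_card_eq hV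
    refine ⟨H, hH, hc, c ∅, ?_⟩
    intro s _ hs
    rw [Finset.card_eq_zero.mp hs]
  | succ L ih =>
    intro m
    obtain ⟨M, hM⟩ := endhom ih (r * m)
    refine ⟨M, fun V hV c => ?_⟩
    obtain ⟨W, hWV, hWc, g, hg⟩ := hM V hV c
    have hr : 0 < r := Fin.pos (c ∅)
    have : NeZero r := ⟨hr.ne'⟩
    obtain ⟨i, -, hi⟩ := Finset.exists_le_card_fiber_of_mul_le_card_of_maps_to
      (s := W) (t := (Finset.univ : Finset (Fin r))) (f := g) (n := m)
      (fun _ _ => Finset.mem_univ _) ⟨0, Finset.mem_univ _⟩ (by simp [hWc])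
    obtain ⟨H, hH, hc⟩ := Finset.exists_subset_card_eq hi
    refine ⟨H, fun x hx => hWV (Finset.mem_filter.mp (hH hx)).1, hc, i, ?_⟩
    intro s hs hsc
    obtain ⟨x, hx, hcx⟩ := hg s (fun y hy => (Finset.mem_filter.mp (hH (hs hy))).1) hsc
    rw [hcx]
    exact (Finset.mem_filter.mp (hH (hs hx))).2

/-! ### the data: five blocks of columns, one base-8 digit per point of the configuration -/

/-- base-8 digit -/
def dig (c p : ℕ) : ℕ := (c / 8 ^ p) % 8

def B1 : List ℕ := [
  90389310498025564726953513025,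
  90526826326517533184278954504,
  89308526682050729621011304968,
  80642913342291136287384830017,
  80642945817927911157339816008,
  89308493552867056733145797121,
  90527090262514002429187494473,
  89306113544725261157883183689,
  80640533205146261578553004041,
  90527123900167582948700492352,
  90391691159877754953046200896,
  89308228583693283937545916425,
  80642648897980373782092841545,
  90391724143665246048677302857,
  90391426699266526468896752129,
  90524710778823389078087798856]

def B2 : List ℕ := [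
  79576419481080683543398973458,
  101516523408666373813272913024,
  101511168244755529084124078098,
  79581774644991528272547808384,
  81747639630121346989534806146,
  99345303259625710367137080336,
  81743343325780504819884630146,
  99349599563966552536787256336,
  99078735100007520402802279426,
  82014207789739536953869607056,
  99078734083379014283823162370,
  82014208806368043072848724112,
  99074569973017950915764691970,
  82018372916729106440907194512,
  82018373933854195044183507970,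
  99074568955892862312488378512,
  99345302210210998930832367746,
  81747640679536058425839518736,
  81743342276878140391188136066,
  99349600612868916965483750416,
  79581773337259349424788807698,
  101511169552487707931883078784,
  79576418173986967889736368146,
  101516524715760089466935518336]

def B3 : List ℕ := [
  79266857587531377425592090628,
  79537723100400656249929072672,
  81704647203354886844624929024,
  99040040026988731602191779840,
  99035807624187536330180280320,
  81708878298423903268882219008,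
  79537658149446297915990474752,
  79266923846217914607294480384,
  79542483374938656718664499200,
  79267453783997937359297445888,
  99035278703036019716780982272,
  81704052056303038366853627904,
  81704119331291007999908249600,
  99035212735141846119547404288,
  79271683862253254706747932672,
  79538251989589704099709845504]

def B4 : List ℕ := [
  79402290343966016837760581650,
  80485752395443132135108509826,
  89153448807260054513891935234,
  80621185151877771547277000848,
  89288881563694693926060426256,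
  90372343615171809223408354432,
  90372342961305719799531249664,
  89286732886816917123085377536,
  89151365735202725468737380352,
  80623268223935100592436346880,
  80487901072320908938088349696,
  79402290997832106261642477568,
  79404968579468297038980972544,
  89288881038987338217722740736,
  80623267715620847542759063552,
  89151366243516978538039214080,
  80485752920150487863075536896,
  90369665379669529041817305088,
  90369666033216427059727826944,
  80487901596772131353328091136,
  80621185660440356049809047552,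
  89153448298697550413147668480,
  89286732362365775109628624896,
  79404967925921479403228889088]

def B5 : List ℕ := [
  157160946847963951382430216,
  19645118355995494056988737,
  1237944762822799057324638273,
  9903558102582392390951113224,
  9903525626945617520996127233,
  1237977892006471945190146120,
  19381182359526249148448768,
  1240357900148267520452759552,
  9905938239727267099782939200,
  19347544705945729635450889,
  154780284995773725289742345,
  1238242861180244740790026816,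
  9903822546893154896243101696,
  154747301208282629658640384,
  155044745607002209439191112,
  21760666050139600248144385]

def gr (B : List ℕ) (p q : ℕ) : ℕ := (B.map (fun c => dig c p * dig c q)).sum

theorem readE : ∀ p : Fin 16,
    (B1.map (fun c => dig c p)).filter (· ≠ 0) = List.replicate 10 1 ∧
    (B2.map (fun c => dig c p)).filter (· ≠ 0) = List.replicate 12 2 ∧
    (B3.map (fun c => dig c p)).filter (· ≠ 0) = List.replicate 1 4 ∧
    (B4.map (fun c => dig c p)).filter (· ≠ 0) = List.replicate 3 2 ∧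
    (B5.map (fun c => dig c p)).filter (· ≠ 0) = List.replicate 6 1 := by
  decide +kernel

theorem readS : ∀ p : Fin 16,
    (B1.map (fun c => dig c (16 + p))).filter (· ≠ 0) = List.replicate 12 1 ∧
    (B2.map (fun c => dig c (16 + p))).filter (· ≠ 0) = List.replicate 12 2 ∧
    (B3.map (fun c => dig c (16 + p))).filter (· ≠ 0) = List.replicate 4 2 ∧
    (B4.map (fun c => dig c (16 + p))).filter (· ≠ 0) = List.replicate 12 1 ∧
    (B5.map (fun c => dig c (16 + p))).filter (· ≠ 0) = List.replicate 4 1 := by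
  decide +kernel

theorem readT :
    (B1.map (fun c => dig c 32)).filter (· ≠ 0) = List.replicate 16 1 ∧
    (B2.map (fun c => dig c 32)).filter (· ≠ 0) = List.replicate 24 1 ∧
    (B3.map (fun c => dig c 32)).filter (· ≠ 0) = List.replicate 16 1 ∧
    (B4.map (fun c => dig c 32)).filter (· ≠ 0) = List.replicate 24 1 ∧
    (B5.map (fun c => dig c 32)).filter (· ≠ 0) = List.replicate 0 1 := by
  decide +kernel

theorem gramId : ∀ p q : Fin 33,
    12 * gr B1 p q + gr B2 p q + 2 * gr B4 p q + 12 * gr B5 p q = 9 * gr B3 p q + 120 := by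
  decide +kernel


/-! ### columns -/

def blk (s : ℕ) (B : List ℕ) : List (Fin 33 → ℕ) := B.map (fun c p => s * dig c p)

def rep {α : Type} (k : ℕ) (B : List α) : List α := (List.replicate k B).flatten

theorem rep_succ {α : Type} (k : ℕ) (B : List α) : rep (k + 1) B = B ++ rep k B := by
  simp [rep, List.replicate_succ]

theorem read_rep (p : Fin 33) (k s cnt v : ℕ) (B : List ℕ) (hs : s ≠ 0)
    (h : (B.map (fun c => dig c p)).filter (· ≠ 0) = List.replicate cnt v) :
    ((rep k (blk s B)).map (fun u => u p)).filter (· ≠ 0) = List.replicate (k * cnt) (s * v) := by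
  induction k with
  | zero => simp [rep]
  | succ k ih =>
    rw [rep_succ, List.map_append, List.filter_append, ih]
    have h1 : ((blk s B).map (fun u => u p)) = (B.map (fun c => dig c p)).map (fun v => s * v) := by
      simp [blk, List.map_map, Function.comp_def]
    have h2 : (((B.map (fun c => dig c p)).map (fun v => s * v)).filter (· ≠ 0))
        = ((B.map (fun c => dig c p)).filter (· ≠ 0)).map (fun v => s * v) := by
      rw [List.filter_map]
      congr 1
      apply List.filter_congr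
      intro x _
      simp [hs]
    rw [h1, h2, h, List.map_replicate, ← List.replicate_add]
    congr 1
    ring

theorem gram_rep (p q : Fin 33) (k s : ℕ) (B : List ℕ) :
    ((rep k (blk s B)).map (fun u => u p * u q)).sum = k * s ^ 2 * gr B p q := by
  induction k with
  | zero => simp [rep]
  | succ k ih =>
    rw [rep_succ, List.map_append, List.sum_append, ih]
    have h1 : ((blk s B).map (fun u => u p * u q)).sum = s ^ 2 * gr B p q := by
      unfold blk gr
      rw [List.map_map, ← List.sum_map_mul_left]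
      congr 1
      apply List.map_congr_left
      intro c _
      simp only [Function.comp]
      ring
    rw [h1]
    ring

def Lv (J k : ℕ) : List ℕ := List.replicate (6 * 4 ^ k) (2 ^ (J + 2 - k))

def aa (J : ℕ) : List ℕ :=
  List.replicate 42 (2 ^ (J + 2)) ++ (List.range (J + 2)).flatMap (Lv J)
    ++ List.replicate (72 * 4 ^ (J + 1)) 1

def UU (J : ℕ) : List (Fin 33 → ℕ) :=
  rep 3 (blk (2 ^ (J + 2)) B1) ++ (rep 1 (blk (2 ^ (J + 1)) B2) ++
  ((List.range (J + 1)).flatMap (fun k => rep (6 * 4 ^ k) (blk (2 ^ (J - k)) B3)) ++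
  (rep (2 * 4 ^ (J + 1)) (blk 1 B4) ++ rep (12 * 4 ^ (J + 1)) (blk 1 B5))))

theorem read_UU (J : ℕ) (p : Fin 33) (c1 v1 c2 v2 c3 v3 c4 v4 c5 v5 : ℕ)
    (h1 : (B1.map (fun c => dig c p)).filter (· ≠ 0) = List.replicate c1 v1)
    (h2 : (B2.map (fun c => dig c p)).filter (· ≠ 0) = List.replicate c2 v2)
    (h3 : (B3.map (fun c => dig c p)).filter (· ≠ 0) = List.replicate c3 v3)
    (h4 : (B4.map (fun c => dig c p)).filter (· ≠ 0) = List.replicate c4 v4)
    (h5 : (B5.map (fun c => dig c p)).filter (· ≠ 0) = List.replicate c5 v5) :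
    ((UU J).map (fun u => u p)).filter (· ≠ 0) =
      List.replicate (3 * c1) (2 ^ (J + 2) * v1) ++ (List.replicate c2 (2 ^ (J + 1) * v2) ++
      ((List.range (J + 1)).flatMap
          (fun k => List.replicate (6 * 4 ^ k * c3) (2 ^ (J - k) * v3)) ++
      (List.replicate (2 * 4 ^ (J + 1) * c4) v4 ++ List.replicate (12 * 4 ^ (J + 1) * c5) v5))) := by
  unfold UU
  rw [List.map_append, List.filter_append, List.map_append, List.filter_append,
    List.map_append, List.filter_append, List.map_append, List.filter_append,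
    read_rep p 3 _ c1 v1 B1 (by positivity) h1, read_rep p 1 _ c2 v2 B2 (by positivity) h2,
    read_rep p _ 1 c4 v4 B4 one_ne_zero h4, read_rep p _ 1 c5 v5 B5 one_ne_zero h5,
    List.map_flatMap, List.filter_flatMap]
  simp only [one_mul]
  congr 3
  apply List.flatMap_congr
  intro k _
  exact read_rep p _ _ c3 v3 B3 (by positivity) h3

theorem range_split_succ (J : ℕ) (f : ℕ → List ℕ) :
    (List.range (J + 1)).flatMap f = (List.range J).flatMap f ++ f J := by
  simp [List.range_succ, List.flatMap_append]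

theorem range_split_zero (J : ℕ) (f : ℕ → List ℕ) :
    (List.range (J + 1)).flatMap f = f 0 ++ (List.range J).flatMap (fun k => f (k + 1)) := by
  simp [List.range_succ_eq_map, List.flatMap_map]

theorem read_all (J : ℕ) (p : Fin 33) :
    ((UU J).map (fun u => u p)).filter (· ≠ 0) = aa J := by
  have hp := p.isLt
  rcases lt_or_ge p.val 16 with h | h
  · obtain ⟨h1, h2, h3, h4, h5⟩ := readE ⟨p.val, h⟩
    rw [read_UU J p 10 1 12 2 1 4 3 2 6 1 h1 h2 h3 h4 h5]
    unfold aa
    rw [range_split_succ (J + 1) (Lv J)]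
    have e1 : (List.range (J + 1)).flatMap
          (fun k => List.replicate (6 * 4 ^ k * 1) (2 ^ (J - k) * 4))
        = (List.range (J + 1)).flatMap (Lv J) := by
      apply List.flatMap_congr
      intro k hk
      have hk' : k ≤ J := by have := List.mem_range.mp hk; omega
      unfold Lv
      congr 1
      · ring
      · rw [show J + 2 - k = (J - k) + 2 by omega]; ring
    rw [e1]
    have e2 : Lv J (J + 1) = List.replicate (2 * 4 ^ (J + 1) * 3) 2 := by
      unfold Lv
      congr 1
      · ring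
      · rw [show J + 2 - (J + 1) = 1 by omega]; ring
    have e3 : (List.replicate 42 (2 ^ (J + 2)) : List ℕ)
        = List.replicate (3 * 10) (2 ^ (J + 2) * 1) ++ List.replicate 12 (2 ^ (J + 1) * 2) := by
      rw [show 2 ^ (J + 1) * 2 = 2 ^ (J + 2) * 1 by ring, ← List.replicate_add]
      congr 1
      ring
    rw [e2, e3]
    have e4 : (72 * 4 ^ (J + 1) : ℕ) = 12 * 4 ^ (J + 1) * 6 := by ring
    rw [e4]
    simp only [List.append_assoc]
  · rcases lt_or_ge p.val 32 with h' | h'
    · obtain ⟨h1, h2, h3, h4, h5⟩ := readS ⟨p.val - 16, by omega⟩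
      have hpe : 16 + (p.val - 16) = p.val := by omega
      simp only [hpe] at h1 h2 h3 h4 h5
      rw [read_UU J p 12 1 12 2 4 2 12 1 4 1 h1 h2 h3 h4 h5]
      unfold aa
      rw [range_split_zero (J + 1) (Lv J)]
      have e1 : (List.range (J + 1)).flatMap
            (fun k => List.replicate (6 * 4 ^ k * 4) (2 ^ (J - k) * 2))
          = (List.range (J + 1)).flatMap (fun k => Lv J (k + 1)) := by
        apply List.flatMap_congr
        intro k hk
        have hk' : k ≤ J := by have := List.mem_range.mp hk; omega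
        unfold Lv
        congr 1
        · ring
        · rw [show J + 2 - (k + 1) = (J - k) + 1 by omega]; ring
      rw [e1]
      have e2 : (List.replicate 42 (2 ^ (J + 2)) : List ℕ) ++ Lv J 0
          = List.replicate (3 * 12) (2 ^ (J + 2) * 1) ++ List.replicate 12 (2 ^ (J + 1) * 2) := by
        unfold Lv
        rw [show 2 ^ (J + 1) * 2 = 2 ^ (J + 2) by ring, show J + 2 - 0 = J + 2 by omega,
          mul_one (2 ^ (J + 2)), ← List.replicate_add, ← List.replicate_add]
        norm_num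
      have e4 : (List.replicate (72 * 4 ^ (J + 1)) 1 : List ℕ)
          = List.replicate (2 * 4 ^ (J + 1) * 12) 1 ++ List.replicate (12 * 4 ^ (J + 1) * 4) 1 := by
        rw [← List.replicate_add]
        congr 1
        ring
      rw [e4, ← List.append_assoc (List.replicate 42 (2 ^ (J + 2))), e2]
      simp only [List.append_assoc]
    · have hpe : p.val = 32 := by omega
      obtain ⟨h1, h2, h3, h4, h5⟩ := readT
      rw [← hpe] at h1 h2 h3 h4 h5
      rw [read_UU J p 16 1 24 1 16 1 24 1 0 1 h1 h2 h3 h4 h5]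
      unfold aa
      rw [range_split_zero (J + 1) (Lv J), range_split_zero J (fun k => Lv J (k + 1)),
        range_split_succ J (fun k => List.replicate (6 * 4 ^ k * 16) (2 ^ (J - k) * 1))]
      have e1 : (List.range J).flatMap
            (fun k => List.replicate (6 * 4 ^ k * 16) (2 ^ (J - k) * 1))
          = (List.range J).flatMap (fun k => Lv J (k + 1 + 1)) := by
        apply List.flatMap_congr
        intro k hk
        have hk' : k < J := List.mem_range.mp hk
        unfold Lv
        congr 1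
        · ring
        · rw [show J + 2 - (k + 1 + 1) = (J - k) by omega]; ring
      rw [e1]
      have e2 : (List.replicate 42 (2 ^ (J + 2)) : List ℕ) ++ Lv J 0
          = List.replicate (3 * 16) (2 ^ (J + 2) * 1) := by
        unfold Lv
        rw [show J + 2 - 0 = J + 2 by omega,
          mul_one (2 ^ (J + 2)), ← List.replicate_add]
        norm_num
      have e3 : Lv J (0 + 1) = List.replicate 24 (2 ^ (J + 1) * 1) := by
        unfold Lv
        rw [show J + 2 - (0 + 1) = J + 1 by omega, mul_one]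
        rfl
      have e4 : (List.replicate (72 * 4 ^ (J + 1)) 1 : List ℕ)
          = List.replicate (6 * 4 ^ J * 16) (2 ^ (J - J) * 1) ++
            (List.replicate (2 * 4 ^ (J + 1) * 24) 1 ++ List.replicate (12 * 4 ^ (J + 1) * 0) 1) := by
        rw [show 2 ^ (J - J) * 1 = 1 by simp, ← List.replicate_add, ← List.replicate_add]
        congr 1
        ring
      rw [e4, e3, ← List.append_assoc (List.replicate 42 (2 ^ (J + 2))), e2]
      simp only [List.append_assoc]

theorem gram_UU (J : ℕ) (p q : Fin 33) :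
    16 * ((UU J).map (fun u => u p * u q)).sum
      = 4 ^ (J + 2) * 6 * ((J + 7) * gr B3 p q + 80) := by
  unfold UU
  simp only [List.map_append, List.sum_append, gram_rep]
  have h3 : ∀ m, m ≤ J + 1 → (((List.range m).flatMap
        (fun k => rep (6 * 4 ^ k) (blk (2 ^ (J - k)) B3))).map (fun u => u p * u q)).sum
      = m * (6 * 4 ^ J * gr B3 p q) := by
    intro m
    induction m with
    | zero => simp
    | succ m ih =>
      intro hm
      rw [List.range_succ, List.flatMap_append, List.map_append, List.sum_append, ih (by omega)]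
      simp only [List.flatMap_cons, List.flatMap_nil, List.append_nil, gram_rep]
      have h4 : 4 ^ J = 4 ^ m * (2 ^ (J - m)) ^ 2 := by
        rw [← pow_mul, mul_comm (J - m) 2, pow_mul, show (2 : ℕ) ^ 2 = 4 by norm_num, ← pow_add]
        congr 1
        omega
      rw [h4]
      ring
  rw [h3 (J + 1) le_rfl]
  have hg := gramId p q
  have e1 : ((2 : ℕ) ^ (J + 2)) ^ 2 = 4 ^ J * 16 := by
    rw [← pow_mul, mul_comm, pow_mul]; norm_num [pow_add]
  have e2 : ((2 : ℕ) ^ (J + 1)) ^ 2 = 4 ^ J * 4 := by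
    rw [← pow_mul, mul_comm, pow_mul]; norm_num [pow_add]
  rw [e1, e2]
  have e3 : 4 ^ (J + 1) = 4 ^ J * 4 := by ring
  have e4 : 4 ^ (J + 2) = 4 ^ J * 16 := by ring
  rw [e3, e4]
  calc _ = 4 ^ J * (64 * (12 * gr B1 p q + gr B2 p q + 2 * gr B4 p q + 12 * gr B5 p q)
        + 96 * (J + 1) * gr B3 p q) := by ring
    _ = _ := by rw [hg]; ring

/-! ### spread vectors -/

def Spr (a : List ℕ) {M : ℕ} (w : Fin M → ℕ) : Prop := (List.ofFn w).filter (· ≠ 0) = a

theorem list_supp_inj : ∀ (l l' : List ℕ),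
    l.map (fun x => decide (x = 0)) = l'.map (fun x => decide (x = 0)) →
    l.filter (· ≠ 0) = l'.filter (· ≠ 0) → l = l'
  | [], [], _, _ => rfl
  | [], b :: l', h, _ => by simp at h
  | a :: l, [], h, _ => by simp at h
  | a :: l, b :: l', h, h2 => by
    simp only [List.map_cons, List.cons.injEq, decide_eq_decide] at h
    obtain ⟨h3, h4⟩ := h
    by_cases ha : a = 0
    · have hb : b = 0 := h3.1 ha
      subst ha hb
      have h5 : l.filter (· ≠ 0) = l'.filter (· ≠ 0) := by simpa using h2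
      rw [list_supp_inj l l' h4 h5]
    · have hb : b ≠ 0 := fun hb => ha (h3.2 hb)
      rw [List.filter_cons_of_pos (by simpa using ha), List.filter_cons_of_pos (by simpa using hb),
        List.cons.injEq] at h2
      rw [h2.1, list_supp_inj l l' h4 h2.2]

theorem spr_inj {a : List ℕ} {M : ℕ} {w w' : Fin M → ℕ} (hw : Spr a w) (hw' : Spr a w')
    (h : ∀ i, w i = 0 ↔ w' i = 0) : w = w' := by
  apply List.ofFn_injective
  apply list_supp_inj
  · rw [List.map_ofFn, List.map_ofFn]
    congr 1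
    funext i
    simp [h i]
  · exact hw.trans hw'.symm

/-- the support as a set of naturals -/
def supp {M : ℕ} (w : Fin M → ℕ) : Finset ℕ :=
  (Finset.univ.filter (fun i : Fin M => w i ≠ 0)).map Fin.valEmbedding

theorem mem_supp {M : ℕ} (w : Fin M → ℕ) (k : ℕ) : k ∈ supp w ↔ ∃ i : Fin M, w i ≠ 0 ∧ i.val = k := by
  simp [supp]

theorem supp_card {a : List ℕ} {M : ℕ} {w : Fin M → ℕ} (hw : Spr a w) :
    (supp w).card = a.length := by
  have h1 : (supp w).card = ((List.finRange M).filter (fun i => w i ≠ 0)).length := by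
    rw [supp, Finset.card_map]
    rfl
  rw [h1, ← hw, List.ofFn_eq_map, List.filter_map, List.length_map]
  rfl

theorem supp_inj {a : List ℕ} {M : ℕ} {w w' : Fin M → ℕ} (hw : Spr a w) (hw' : Spr a w')
    (h : supp w = supp w') : w = w' := by
  apply spr_inj hw hw'
  intro i
  have h1 : i.val ∈ supp w ↔ i.val ∈ supp w' := by rw [h]
  have h2 : ∀ v : Fin M → ℕ, i.val ∈ supp v ↔ v i ≠ 0 := by
    intro v
    rw [mem_supp]
    constructor
    · rintro ⟨k, hk, hki⟩
      have : k = i := Fin.ext hki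
      rwa [← this]
    · intro hv
      exact ⟨i, hv, rfl⟩
  rw [h2, h2] at h1
  exact not_iff_not.1 h1

theorem filter_extend {m M : ℕ} (h : Fin m → Fin M) (hh : StrictMono h) (u : Fin m → ℕ) :
    (List.ofFn (Function.extend h u 0)).filter (· ≠ 0) = (List.ofFn u).filter (· ≠ 0) := by
  have hu : ∀ j, Function.extend h u 0 (h j) = u j := fun j => hh.injective.extend_apply u 0 j
  have h0 : ∀ i, (¬ ∃ j, h j = i) → Function.extend h u 0 i = 0 := fun i hi => by
    rw [Function.extend_apply' _ _ _ hi]; rfl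
  have key : (List.finRange M).filter (fun i => Function.extend h u 0 i ≠ 0)
      = ((List.finRange m).filter (fun j => u j ≠ 0)).map h := by
    apply List.Pairwise.eq_of_mem_iff (r := (· < ·))
    · exact (List.pairwise_lt_finRange M).filter _
    · rw [List.pairwise_map]
      exact ((List.pairwise_lt_finRange m).filter _).imp (fun hab => hh hab)
    · intro i
      simp only [List.mem_filter, List.mem_finRange, true_and, decide_eq_true_eq, List.mem_map]
      constructor
      · intro hi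
        by_cases hex : ∃ j, h j = i
        · obtain ⟨j, rfl⟩ := hex
          rw [hu] at hi
          exact ⟨j, hi, rfl⟩
        · exact absurd (h0 i hex) hi
      · rintro ⟨j, hj, rfl⟩
        rw [hu]; exact hj
  rw [List.ofFn_eq_map, List.ofFn_eq_map, List.filter_map, List.filter_map]
  have k2 : List.filter ((fun x => decide (x ≠ 0)) ∘ Function.extend h u 0) (List.finRange M)
      = ((List.finRange m).filter (fun j => u j ≠ 0)).map h := key
  rw [k2, List.map_map]
  have k3 : (Function.extend h u 0) ∘ h = u := funext hu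
  rw [k3]
  rfl

theorem spread_core {ι : Type} (a : List ℕ) (U : List (ι → ℕ))
    (hU : ∀ p, (U.map (fun u => u p)).filter (· ≠ 0) = a) (r : ℕ) :
    ∃ M : ℕ, ∀ C : (Fin M → ℕ) → Fin r, ∃ h : Fin U.length → Fin M, StrictMono h ∧
      (∀ p, Spr a (Function.extend h (fun j => U[j] p) 0)) ∧
      ∃ i, ∀ p, C (Function.extend h (fun j => U[j] p) 0) = i := by
  classical
  obtain ⟨M, hM⟩ := ramsey r a.length U.length
  refine ⟨M, fun C => ?_⟩
  let c' : Finset ℕ → Fin r := fun s =>
    if h : ∃ w : Fin M → ℕ, Spr a w ∧ supp w = s then C h.choose else C 0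
  have hc' : ∀ w : Fin M → ℕ, Spr a w → c' (supp w) = C w := by
    intro w hw
    have hex : ∃ w' : Fin M → ℕ, Spr a w' ∧ supp w' = supp w := ⟨w, hw, rfl⟩
    simp only [c', dif_pos hex]
    rw [supp_inj hex.choose_spec.1 hw hex.choose_spec.2]
  obtain ⟨H, hHV, hHc, i, hi⟩ := hM (Finset.range M) (by simp) c'
  have hlt : ∀ j : Fin U.length, H.orderEmbOfFin hHc j < M := fun j =>
    Finset.mem_range.1 (hHV (H.orderEmbOfFin_mem hHc j))
  let h : Fin U.length → Fin M := fun j => ⟨H.orderEmbOfFin hHc j, hlt j⟩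
  have hh : StrictMono h := by
    intro j k hjk
    exact (H.orderEmbOfFin hHc).strictMono hjk
  have hspr : ∀ p, Spr a (Function.extend h (fun j => U[j] p) 0) := by
    intro p
    unfold Spr
    rw [filter_extend h hh]
    have h1 : List.ofFn (fun j : Fin U.length => U[j] p) = U.map (fun u => u p) := by
      apply List.ext_getElem
      · simp
      · intro k h1 h2
        simp
    rw [h1]
    exact hU p
  refine ⟨h, hh, hspr, i, fun p => ?_⟩
  rw [← hc' _ (hspr p)]
  apply hi
  · intro k hk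
    rw [mem_supp] at hk
    obtain ⟨x, hx, rfl⟩ := hk
    by_cases hex : ∃ j, h j = x
    · obtain ⟨j, rfl⟩ := hex
      exact H.orderEmbOfFin_mem hHc j
    · rw [Function.extend_apply' _ _ _ hex] at hx
      exact absurd rfl hx
  · exact supp_card (hspr p)

/-! ### Jung-type lemma -/

theorem jung {E : Type*} [NormedAddCommGroup E] [InnerProductSpace ℝ E] (R : Finset E)
    (hR : ∀ x ∈ R, ∀ y ∈ R, dist x y ^ 2 ≤ 2) : ∃ c : E, ∀ x ∈ R, dist x c ^ 2 < 1 := by
  classical
  rcases R.eq_empty_or_nonempty with rfl | ⟨x0, hx0⟩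
  · exact ⟨0, by simp⟩
  let ι := {x // x ∈ R}
  let φ : (ι → ℝ) → ℝ := fun w => ∑ i, w i * ‖(i : E)‖ ^ 2 - ‖∑ i, w i • (i : E)‖ ^ 2
  have hφ : Continuous φ := by
    apply Continuous.sub
    · exact continuous_finsetSum _ (fun i _ => (continuous_apply i).mul continuous_const)
    · apply Continuous.pow
      apply Continuous.norm
      exact continuous_finsetSum _ (fun i _ => (continuous_apply i).smul continuous_const)
  have hcpt : IsCompact (stdSimplex ℝ ι) := isCompact_stdSimplex ℝ ι
  have hne : (stdSimplex ℝ ι).Nonempty := ⟨_, single_mem_stdSimplex ℝ (⟨x0, hx0⟩ : ι)⟩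
  obtain ⟨w, hw, hmax⟩ := hcpt.exists_isMaxOn hne hφ.continuousOn
  have hw0 : ∀ i, 0 ≤ w i := hw.1
  have hw1 : ∑ i, w i = 1 := hw.2
  set c : E := ∑ i, w i • (i : E) with hc
  set A : ℝ := ∑ i, w i * ‖(i : E)‖ ^ 2 with hA
  have hφw : φ w = A - ‖c‖ ^ 2 := rfl
  -- first-order condition
  have hfirst : ∀ j : ι, dist (j : E) c ^ 2 ≤ A - ‖c‖ ^ 2 := by
    intro j
    have key : ∀ ε : ℝ, 0 < ε → ε ≤ 1 →
        dist (j : E) c ^ 2 - (A - ‖c‖ ^ 2) ≤ ε * dist (j : E) c ^ 2 := by
      intro ε hε hε1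
      let w' : ι → ℝ := fun i => (1 - ε) * w i + ε * (Pi.single j (1 : ℝ) : ι → ℝ) i
      have hw' : w' ∈ stdSimplex ℝ ι := by
        refine ⟨fun i => ?_, ?_⟩
        · have h1 : 0 ≤ (Pi.single j (1 : ℝ) : ι → ℝ) i := by
            by_cases h : i = j
            · subst h; simp
            · simp [Pi.single_eq_of_ne h]
          have := hw0 i
          have h2 : 0 ≤ 1 - ε := by linarith
          positivity
        · simp only [w', Finset.sum_add_distrib, ← Finset.mul_sum, hw1]
          simp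
      have h1 := hmax hw'
      simp only [Set.mem_ofPred_eq] at h1
      have h2 : ∑ i, w' i * ‖(i : E)‖ ^ 2 = (1 - ε) * A + ε * ‖(j : E)‖ ^ 2 := by
        simp only [w', add_mul, Finset.sum_add_distrib]
        congr 1
        · rw [hA, Finset.mul_sum]
          exact Finset.sum_congr rfl (fun i _ => by ring)
        · rw [Finset.sum_eq_single j]
          · simp
          · intro i _ hi
            simp [Pi.single_eq_of_ne hi]
          · simp
      have h3 : ∑ i, w' i • (i : E) = (1 - ε) • c + ε • (j : E) := by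
        simp only [w', add_smul, Finset.sum_add_distrib]
        congr 1
        · rw [hc, Finset.smul_sum]
          exact Finset.sum_congr rfl (fun i _ => by rw [mul_smul])
        · rw [Finset.sum_eq_single j]
          · simp
          · intro i _ hi
            simp [Pi.single_eq_of_ne hi]
          · simp
      have h4 : φ w' ≤ φ w := h1
      have h5 : φ w' = (1 - ε) * A + ε * ‖(j : E)‖ ^ 2 - ‖(1 - ε) • c + ε • (j : E)‖ ^ 2 := by
        simp only [φ]
        rw [h2, h3]
      rw [h5, hφw] at h4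
      rw [@norm_add_sq_real E, inner_smul_left, inner_smul_right, norm_smul, norm_smul,
        mul_pow, mul_pow, Real.norm_eq_abs, Real.norm_eq_abs, sq_abs, sq_abs] at h4
      simp only [conj_trivial] at h4
      rw [dist_eq_norm, @norm_sub_sq_real E, real_inner_comm]
      have h6 : ε * (‖(j : E)‖ ^ 2 - 2 * inner ℝ c (j : E) + ‖c‖ ^ 2 - (A - ‖c‖ ^ 2)
          - ε * (‖(j : E)‖ ^ 2 - 2 * inner ℝ c (j : E) + ‖c‖ ^ 2)) ≤ 0 := by
        nlinarith [h4]
      have h7 := nonpos_of_mul_nonpos_right h6 hε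
      linarith
    by_contra hcon
    push Not at hcon
    have h1 := key 1 one_pos le_rfl
    have hD : 0 < dist (j : E) c ^ 2 := by linarith
    have h2 := key ((dist (j : E) c ^ 2 - (A - ‖c‖ ^ 2)) / (2 * dist (j : E) c ^ 2))
      (by apply div_pos; linarith; linarith)
      (by rw [div_le_one (by linarith)]; linarith)
    have h3 : (dist (j : E) c ^ 2 - (A - ‖c‖ ^ 2)) / (2 * dist (j : E) c ^ 2) * dist (j : E) c ^ 2
        = (dist (j : E) c ^ 2 - (A - ‖c‖ ^ 2)) / 2 := by
      generalize dist (j : E) c ^ 2 = D at hD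
      field_simp
    rw [h3] at h2
    linarith
  -- bound on the value
  have hsum : ∑ i, ∑ j, w i * w j * dist (i : E) (j : E) ^ 2 = 2 * (A - ‖c‖ ^ 2) := by
    have h1 : ∀ i j : ι, w i * w j * dist (i : E) (j : E) ^ 2
        = w j * (w i * ‖(i : E)‖ ^ 2) + w i * (w j * ‖(j : E)‖ ^ 2)
          - 2 * inner ℝ (w i • (i : E)) (w j • (j : E)) := by
      intro i j
      rw [dist_eq_norm, @norm_sub_sq_real E, inner_smul_left, inner_smul_right]
      simp only [conj_trivial]
      ring
    simp only [h1, Finset.sum_add_distrib, Finset.sum_sub_distrib]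
    have h2 : ∑ i, ∑ j, w j * (w i * ‖(i : E)‖ ^ 2) = A := by
      simp only [← Finset.sum_mul, hw1, one_mul, hA]
    have h3 : ∑ i, ∑ j, w i * (w j * ‖(j : E)‖ ^ 2) = A := by
      simp only [← Finset.mul_sum, ← Finset.sum_mul, hw1, one_mul, hA]
    have h4 : ∑ i, ∑ j, 2 * inner ℝ (w i • (i : E)) (w j • (j : E)) = 2 * ‖c‖ ^ 2 := by
      rw [← real_inner_self_eq_norm_sq c, hc, sum_inner, Finset.mul_sum]
      refine Finset.sum_congr rfl (fun i _ => ?_)
      rw [inner_sum, Finset.mul_sum]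
    rw [h2, h3, h4]
    ring
  have hbd : ∑ i, ∑ j, w i * w j * dist (i : E) (j : E) ^ 2 ≤ 2 - 2 * ∑ i, w i ^ 2 := by
    have h1 : ∀ i j : ι, w i * w j * dist (i : E) (j : E) ^ 2
        ≤ 2 * (w i * w j) - (if i = j then 2 * w i ^ 2 else 0) := by
      intro i j
      by_cases h : i = j
      · subst h
        simp
        nlinarith [hw0 i]
      · simp only [h, if_false, sub_zero]
        have h2 := hR i i.2 j j.2
        have h3 : 0 ≤ w i * w j := mul_nonneg (hw0 i) (hw0 j)
        nlinarith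
    calc ∑ i, ∑ j, w i * w j * dist (i : E) (j : E) ^ 2
        ≤ ∑ i, ∑ j, (2 * (w i * w j) - (if i = j then 2 * w i ^ 2 else 0)) :=
          Finset.sum_le_sum (fun i _ => Finset.sum_le_sum (fun j _ => h1 i j))
      _ = 2 - 2 * ∑ i, w i ^ 2 := by
          have h5 : ∀ i : ι, ∑ j : ι, (if i = j then 2 * w i ^ 2 else 0) = 2 * w i ^ 2 := by
            intro i
            rw [Finset.sum_eq_single i]
            · rw [if_pos rfl]
            · intro j _ hj
              rw [if_neg (fun h => hj h.symm)]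
            · intro h
              exact absurd (Finset.mem_univ i) h
          have h6 : ∑ i : ι, ∑ j : ι, 2 * (w i * w j) = 2 := by
            simp only [← Finset.mul_sum, hw1, mul_one]
          simp only [Finset.sum_sub_distrib, h5, h6]
          rw [← Finset.mul_sum]
  have hpos : 0 < ∑ i, w i ^ 2 := by
    by_contra hcon
    have h0 : ∑ i, w i ^ 2 = 0 := le_antisymm (not_lt.mp hcon)
      (Finset.sum_nonneg (fun i _ => sq_nonneg _))
    rw [Finset.sum_eq_zero_iff_of_nonneg (fun i _ => sq_nonneg _)] at h0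
    have : ∑ i, w i = 0 := Finset.sum_eq_zero (fun i hi => pow_eq_zero_iff (two_ne_zero) |>.mp (h0 i hi))
    linarith
  refine ⟨c, fun x hx => ?_⟩
  have := hfirst ⟨x, hx⟩
  simp only at this
  linarith

def lp : Fin 16 → Fin 4 → Fin 16 := ![
  ![0, 4, 8, 12],
  ![1, 5, 9, 13],
  ![2, 6, 10, 14],
  ![3, 7, 11, 15],
  ![0, 5, 10, 15],
  ![1, 4, 11, 14],
  ![2, 7, 8, 13],
  ![3, 6, 9, 12],
  ![0, 6, 11, 13],
  ![1, 7, 10, 12],
  ![2, 4, 9, 15],
  ![3, 5, 8, 14],
  ![0, 7, 9, 14],
  ![1, 6, 8, 15],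
  ![2, 5, 11, 12],
  ![3, 4, 10, 13]]

theorem point_small {M κ et s1 s2 s3 s4 a1 a2 a3 a4 : ℝ} (hM : 0 < M) (hκ : 0 ≤ κ)
    (het : (0 ≤ et ∧ et ≤ M / 10) ∨ (9 / 10 * M ≤ et ∧ et ≤ M))
    (h1 : (0 ≤ s1 ∧ s1 ≤ M / 10) ∨ (9 / 10 * M ≤ s1 ∧ s1 ≤ M))
    (h2 : (0 ≤ s2 ∧ s2 ≤ M / 10) ∨ (9 / 10 * M ≤ s2 ∧ s2 ≤ M))
    (h3 : (0 ≤ s3 ∧ s3 ≤ M / 10) ∨ (9 / 10 * M ≤ s3 ∧ s3 ≤ M))
    (h4 : (0 ≤ s4 ∧ s4 ≤ M / 10) ∨ (9 / 10 * M ≤ s4 ∧ s4 ≤ M))
    (e1 : 2 * s1 = κ + et + a1) (e2 : 2 * s2 = κ + et + a2)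
    (e3 : 2 * s3 = κ + et + a3) (e4 : 2 * s4 = κ + et + a4)
    (n1 : 0 ≤ a1) (n2 : 0 ≤ a2) (n3 : 0 ≤ a3) (n4 : 0 ≤ a4)
    (htot : a1 + a2 + a3 + a4 + et + 6 * κ ≤ 4 * M) : et ≤ M / 10 := by
  rcases het with h | h
  · exact h.2
  · exfalso
    have g1 : 9 / 10 * M ≤ s1 := by
      rcases h1 with h' | h'
      · linarith [h'.1, h'.2, h.1]
      · exact h'.1
    have g2 : 9 / 10 * M ≤ s2 := by
      rcases h2 with h' | h'
      · linarith [h'.1, h'.2, h.1]
      · exact h'.1
    have g3 : 9 / 10 * M ≤ s3 := by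
      rcases h3 with h' | h'
      · linarith [h'.1, h'.2, h.1]
      · exact h'.1
    have g4 : 9 / 10 * M ≤ s4 := by
      rcases h4 with h' | h'
      · linarith [h'.1, h'.2, h.1]
      · exact h'.1
    linarith [h.2]

theorem lin_core (e σ : Fin 16 → ℝ) (τ M κ : ℝ) (hM : 0 < M) (hκ : 0 ≤ κ)
    (he : ∀ t, (0 ≤ e t ∧ e t ≤ M / 10) ∨ (9 / 10 * M ≤ e t ∧ e t ≤ M))
    (hσ : ∀ t, (0 ≤ σ t ∧ σ t ≤ M / 10) ∨ (9 / 10 * M ≤ σ t ∧ σ t ≤ M))
    (hτ : (0 ≤ τ ∧ τ ≤ M / 10) ∨ (9 / 10 * M ≤ τ ∧ τ ≤ M))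
    (hl : ∀ j : Fin 16, 2 * σ j = κ + (e (lp j 0) + e (lp j 1) + e (lp j 2) + e (lp j 3)))
    (hT : 4 * τ = 6 * κ + ∑ t, e t) : (∀ t, e t < M) ∧ (∀ j, σ j < M) ∧ τ < M := by
  have hen : ∀ t, 0 ≤ e t := by
    intro t
    rcases he t with h | h
    · exact h.1
    · linarith [h.1]
  have hτM : τ ≤ M := by
    rcases hτ with h | h
    · linarith [h.2]
    · exact h.2
  have hsum : ∑ t, e t = e 0 + e 1 + e 2 + e 3 + e 4 + e 5 + e 6 + e 7 + e 8 + e 9 + e 10 + e 11 + e 12 + e 13 + e 14 + e 15 := by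
    simp [Fin.sum_univ_succ]
    ring
  rw [hsum] at hT
  have n0 := hen 0
  have n1 := hen 1
  have n2 := hen 2
  have n3 := hen 3
  have n4 := hen 4
  have n5 := hen 5
  have n6 := hen 6
  have n7 := hen 7
  have n8 := hen 8
  have n9 := hen 9
  have n10 := hen 10
  have n11 := hen 11
  have n12 := hen 12
  have n13 := hen 13
  have n14 := hen 14
  have n15 := hen 15
  have L0 : 2 * σ 0 = κ + (e 0 + e 4 + e 8 + e 12) := hl 0
  have L1 : 2 * σ 1 = κ + (e 1 + e 5 + e 9 + e 13) := hl 1
  have L2 : 2 * σ 2 = κ + (e 2 + e 6 + e 10 + e 14) := hl 2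
  have L3 : 2 * σ 3 = κ + (e 3 + e 7 + e 11 + e 15) := hl 3
  have L4 : 2 * σ 4 = κ + (e 0 + e 5 + e 10 + e 15) := hl 4
  have L5 : 2 * σ 5 = κ + (e 1 + e 4 + e 11 + e 14) := hl 5
  have L6 : 2 * σ 6 = κ + (e 2 + e 7 + e 8 + e 13) := hl 6
  have L7 : 2 * σ 7 = κ + (e 3 + e 6 + e 9 + e 12) := hl 7
  have L8 : 2 * σ 8 = κ + (e 0 + e 6 + e 11 + e 13) := hl 8
  have L9 : 2 * σ 9 = κ + (e 1 + e 7 + e 10 + e 12) := hl 9
  have L10 : 2 * σ 10 = κ + (e 2 + e 4 + e 9 + e 15) := hl 10
  have L11 : 2 * σ 11 = κ + (e 3 + e 5 + e 8 + e 14) := hl 11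
  have L12 : 2 * σ 12 = κ + (e 0 + e 7 + e 9 + e 14) := hl 12
  have L13 : 2 * σ 13 = κ + (e 1 + e 6 + e 8 + e 15) := hl 13
  have L14 : 2 * σ 14 = κ + (e 2 + e 5 + e 11 + e 12) := hl 14
  have L15 : 2 * σ 15 = κ + (e 3 + e 4 + e 10 + e 13) := hl 15
  have p0 : e 0 ≤ M / 10 :=
    point_small (s1 := σ 0) (s2 := σ 4) (s3 := σ 8) (s4 := σ 12)
      (a1 := e 4 + e 8 + e 12) (a2 := e 5 + e 10 + e 15) (a3 := e 6 + e 11 + e 13) (a4 := e 7 + e 9 + e 14)
      hM hκ (he 0) (hσ 0) (hσ 4) (hσ 8) (hσ 12)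
      (by linarith only [L0]) (by linarith only [L4]) (by linarith only [L8]) (by linarith only [L12])
      (by linarith only [n4, n8, n12]) (by linarith only [n5, n10, n15]) (by linarith only [n6, n11, n13]) (by linarith only [n7, n9, n14])
      (by linarith only [hT, hτM, n1, n2, n3])
  have p1 : e 1 ≤ M / 10 :=
    point_small (s1 := σ 1) (s2 := σ 5) (s3 := σ 9) (s4 := σ 13)
      (a1 := e 5 + e 9 + e 13) (a2 := e 4 + e 11 + e 14) (a3 := e 7 + e 10 + e 12) (a4 := e 6 + e 8 + e 15)
      hM hκ (he 1) (hσ 1) (hσ 5) (hσ 9) (hσ 13)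
      (by linarith only [L1]) (by linarith only [L5]) (by linarith only [L9]) (by linarith only [L13])
      (by linarith only [n5, n9, n13]) (by linarith only [n4, n11, n14]) (by linarith only [n7, n10, n12]) (by linarith only [n6, n8, n15])
      (by linarith only [hT, hτM, n0, n2, n3])
  have p2 : e 2 ≤ M / 10 :=
    point_small (s1 := σ 2) (s2 := σ 6) (s3 := σ 10) (s4 := σ 14)
      (a1 := e 6 + e 10 + e 14) (a2 := e 7 + e 8 + e 13) (a3 := e 4 + e 9 + e 15) (a4 := e 5 + e 11 + e 12)
      hM hκ (he 2) (hσ 2) (hσ 6) (hσ 10) (hσ 14)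
      (by linarith only [L2]) (by linarith only [L6]) (by linarith only [L10]) (by linarith only [L14])
      (by linarith only [n6, n10, n14]) (by linarith only [n7, n8, n13]) (by linarith only [n4, n9, n15]) (by linarith only [n5, n11, n12])
      (by linarith only [hT, hτM, n0, n1, n3])
  have p3 : e 3 ≤ M / 10 :=
    point_small (s1 := σ 3) (s2 := σ 7) (s3 := σ 11) (s4 := σ 15)
      (a1 := e 7 + e 11 + e 15) (a2 := e 6 + e 9 + e 12) (a3 := e 5 + e 8 + e 14) (a4 := e 4 + e 10 + e 13)
      hM hκ (he 3) (hσ 3) (hσ 7) (hσ 11) (hσ 15)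
      (by linarith only [L3]) (by linarith only [L7]) (by linarith only [L11]) (by linarith only [L15])
      (by linarith only [n7, n11, n15]) (by linarith only [n6, n9, n12]) (by linarith only [n5, n8, n14]) (by linarith only [n4, n10, n13])
      (by linarith only [hT, hτM, n0, n1, n2])
  have p4 : e 4 ≤ M / 10 :=
    point_small (s1 := σ 0) (s2 := σ 5) (s3 := σ 10) (s4 := σ 15)
      (a1 := e 0 + e 8 + e 12) (a2 := e 1 + e 11 + e 14) (a3 := e 2 + e 9 + e 15) (a4 := e 3 + e 10 + e 13)
      hM hκ (he 4) (hσ 0) (hσ 5) (hσ 10) (hσ 15)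
      (by linarith only [L0]) (by linarith only [L5]) (by linarith only [L10]) (by linarith only [L15])
      (by linarith only [n0, n8, n12]) (by linarith only [n1, n11, n14]) (by linarith only [n2, n9, n15]) (by linarith only [n3, n10, n13])
      (by linarith only [hT, hτM, n5, n6, n7])
  have p5 : e 5 ≤ M / 10 :=
    point_small (s1 := σ 1) (s2 := σ 4) (s3 := σ 11) (s4 := σ 14)
      (a1 := e 1 + e 9 + e 13) (a2 := e 0 + e 10 + e 15) (a3 := e 3 + e 8 + e 14) (a4 := e 2 + e 11 + e 12)
      hM hκ (he 5) (hσ 1) (hσ 4) (hσ 11) (hσ 14)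
      (by linarith only [L1]) (by linarith only [L4]) (by linarith only [L11]) (by linarith only [L14])
      (by linarith only [n1, n9, n13]) (by linarith only [n0, n10, n15]) (by linarith only [n3, n8, n14]) (by linarith only [n2, n11, n12])
      (by linarith only [hT, hτM, n4, n6, n7])
  have p6 : e 6 ≤ M / 10 :=
    point_small (s1 := σ 2) (s2 := σ 7) (s3 := σ 8) (s4 := σ 13)
      (a1 := e 2 + e 10 + e 14) (a2 := e 3 + e 9 + e 12) (a3 := e 0 + e 11 + e 13) (a4 := e 1 + e 8 + e 15)
      hM hκ (he 6) (hσ 2) (hσ 7) (hσ 8) (hσ 13)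
      (by linarith only [L2]) (by linarith only [L7]) (by linarith only [L8]) (by linarith only [L13])
      (by linarith only [n2, n10, n14]) (by linarith only [n3, n9, n12]) (by linarith only [n0, n11, n13]) (by linarith only [n1, n8, n15])
      (by linarith only [hT, hτM, n4, n5, n7])
  have p7 : e 7 ≤ M / 10 :=
    point_small (s1 := σ 3) (s2 := σ 6) (s3 := σ 9) (s4 := σ 12)
      (a1 := e 3 + e 11 + e 15) (a2 := e 2 + e 8 + e 13) (a3 := e 1 + e 10 + e 12) (a4 := e 0 + e 9 + e 14)
      hM hκ (he 7) (hσ 3) (hσ 6) (hσ 9) (hσ 12)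
      (by linarith only [L3]) (by linarith only [L6]) (by linarith only [L9]) (by linarith only [L12])
      (by linarith only [n3, n11, n15]) (by linarith only [n2, n8, n13]) (by linarith only [n1, n10, n12]) (by linarith only [n0, n9, n14])
      (by linarith only [hT, hτM, n4, n5, n6])
  have p8 : e 8 ≤ M / 10 :=
    point_small (s1 := σ 0) (s2 := σ 6) (s3 := σ 11) (s4 := σ 13)
      (a1 := e 0 + e 4 + e 12) (a2 := e 2 + e 7 + e 13) (a3 := e 3 + e 5 + e 14) (a4 := e 1 + e 6 + e 15)
      hM hκ (he 8) (hσ 0) (hσ 6) (hσ 11) (hσ 13)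
      (by linarith only [L0]) (by linarith only [L6]) (by linarith only [L11]) (by linarith only [L13])
      (by linarith only [n0, n4, n12]) (by linarith only [n2, n7, n13]) (by linarith only [n3, n5, n14]) (by linarith only [n1, n6, n15])
      (by linarith only [hT, hτM, n9, n10, n11])
  have p9 : e 9 ≤ M / 10 :=
    point_small (s1 := σ 1) (s2 := σ 7) (s3 := σ 10) (s4 := σ 12)
      (a1 := e 1 + e 5 + e 13) (a2 := e 3 + e 6 + e 12) (a3 := e 2 + e 4 + e 15) (a4 := e 0 + e 7 + e 14)
      hM hκ (he 9) (hσ 1) (hσ 7) (hσ 10) (hσ 12)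
      (by linarith only [L1]) (by linarith only [L7]) (by linarith only [L10]) (by linarith only [L12])
      (by linarith only [n1, n5, n13]) (by linarith only [n3, n6, n12]) (by linarith only [n2, n4, n15]) (by linarith only [n0, n7, n14])
      (by linarith only [hT, hτM, n8, n10, n11])
  have p10 : e 10 ≤ M / 10 :=
    point_small (s1 := σ 2) (s2 := σ 4) (s3 := σ 9) (s4 := σ 15)
      (a1 := e 2 + e 6 + e 14) (a2 := e 0 + e 5 + e 15) (a3 := e 1 + e 7 + e 12) (a4 := e 3 + e 4 + e 13)
      hM hκ (he 10) (hσ 2) (hσ 4) (hσ 9) (hσ 15)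
      (by linarith only [L2]) (by linarith only [L4]) (by linarith only [L9]) (by linarith only [L15])
      (by linarith only [n2, n6, n14]) (by linarith only [n0, n5, n15]) (by linarith only [n1, n7, n12]) (by linarith only [n3, n4, n13])
      (by linarith only [hT, hτM, n8, n9, n11])
  have p11 : e 11 ≤ M / 10 :=
    point_small (s1 := σ 3) (s2 := σ 5) (s3 := σ 8) (s4 := σ 14)
      (a1 := e 3 + e 7 + e 15) (a2 := e 1 + e 4 + e 14) (a3 := e 0 + e 6 + e 13) (a4 := e 2 + e 5 + e 12)
      hM hκ (he 11) (hσ 3) (hσ 5) (hσ 8) (hσ 14)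
      (by linarith only [L3]) (by linarith only [L5]) (by linarith only [L8]) (by linarith only [L14])
      (by linarith only [n3, n7, n15]) (by linarith only [n1, n4, n14]) (by linarith only [n0, n6, n13]) (by linarith only [n2, n5, n12])
      (by linarith only [hT, hτM, n8, n9, n10])
  have p12 : e 12 ≤ M / 10 :=
    point_small (s1 := σ 0) (s2 := σ 7) (s3 := σ 9) (s4 := σ 14)
      (a1 := e 0 + e 4 + e 8) (a2 := e 3 + e 6 + e 9) (a3 := e 1 + e 7 + e 10) (a4 := e 2 + e 5 + e 11)
      hM hκ (he 12) (hσ 0) (hσ 7) (hσ 9) (hσ 14)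
      (by linarith only [L0]) (by linarith only [L7]) (by linarith only [L9]) (by linarith only [L14])
      (by linarith only [n0, n4, n8]) (by linarith only [n3, n6, n9]) (by linarith only [n1, n7, n10]) (by linarith only [n2, n5, n11])
      (by linarith only [hT, hτM, n13, n14, n15])
  have p13 : e 13 ≤ M / 10 :=
    point_small (s1 := σ 1) (s2 := σ 6) (s3 := σ 8) (s4 := σ 15)
      (a1 := e 1 + e 5 + e 9) (a2 := e 2 + e 7 + e 8) (a3 := e 0 + e 6 + e 11) (a4 := e 3 + e 4 + e 10)
      hM hκ (he 13) (hσ 1) (hσ 6) (hσ 8) (hσ 15)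
      (by linarith only [L1]) (by linarith only [L6]) (by linarith only [L8]) (by linarith only [L15])
      (by linarith only [n1, n5, n9]) (by linarith only [n2, n7, n8]) (by linarith only [n0, n6, n11]) (by linarith only [n3, n4, n10])
      (by linarith only [hT, hτM, n12, n14, n15])
  have p14 : e 14 ≤ M / 10 :=
    point_small (s1 := σ 2) (s2 := σ 5) (s3 := σ 11) (s4 := σ 12)
      (a1 := e 2 + e 6 + e 10) (a2 := e 1 + e 4 + e 11) (a3 := e 3 + e 5 + e 8) (a4 := e 0 + e 7 + e 9)
      hM hκ (he 14) (hσ 2) (hσ 5) (hσ 11) (hσ 12)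
      (by linarith only [L2]) (by linarith only [L5]) (by linarith only [L11]) (by linarith only [L12])
      (by linarith only [n2, n6, n10]) (by linarith only [n1, n4, n11]) (by linarith only [n3, n5, n8]) (by linarith only [n0, n7, n9])
      (by linarith only [hT, hτM, n12, n13, n15])
  have p15 : e 15 ≤ M / 10 :=
    point_small (s1 := σ 3) (s2 := σ 4) (s3 := σ 10) (s4 := σ 13)
      (a1 := e 3 + e 7 + e 11) (a2 := e 0 + e 5 + e 10) (a3 := e 2 + e 4 + e 9) (a4 := e 1 + e 6 + e 8)
      hM hκ (he 15) (hσ 3) (hσ 4) (hσ 10) (hσ 13)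
      (by linarith only [L3]) (by linarith only [L4]) (by linarith only [L10]) (by linarith only [L13])
      (by linarith only [n3, n7, n11]) (by linarith only [n0, n5, n10]) (by linarith only [n2, n4, n9]) (by linarith only [n1, n6, n8])
      (by linarith only [hT, hτM, n12, n13, n14])
  have hall : ∀ t, e t ≤ M / 10 := by
    intro t
    fin_cases t
    · exact p0
    · exact p1
    · exact p2
    · exact p3
    · exact p4
    · exact p5
    · exact p6
    · exact p7
    · exact p8
    · exact p9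
    · exact p10
    · exact p11
    · exact p12
    · exact p13
    · exact p14
    · exact p15
  have hκ1 : κ ≤ 2 / 3 * M := by
    linarith only [hT, hτM, n0, n1, n2, n3, n4, n5, n6, n7, n8, n9, n10, n11, n12, n13, n14, n15]
  have hS : ∀ j, σ j ≤ M / 10 := by
    intro j
    have h1 := hall (lp j 0)
    have h2 := hall (lp j 1)
    have h3 := hall (lp j 2)
    have h4 := hall (lp j 3)
    have h5 := hl j
    rcases hσ j with h | h
    · exact h.2
    · exfalso
      linarith only [h.1, h1, h2, h3, h4, h5, hκ1, hM]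
  have hκ2 : κ ≤ M / 5 := by linarith only [hS 0, L0, n0, n4, n8, n12]
  refine ⟨fun t => by linarith only [hall t, hM], fun j => by linarith only [hS j, hM], ?_⟩
  linarith only [hT, hκ2, hM, p0, p1, p2, p3, p4, p5, p6, p7, p8, p9, p10, p11, p12, p13, p14, p15]


/-! ### the point set -/

def zc (p : Fin 33) (i : Fin 16) : ℕ := dig (B3.getD i 0) p

theorem sum_zc (p q : Fin 33) : ∑ i : Fin 16, zc p i * zc q i = gr B3 p q := by
  have h := Fin.sum_univ_fun_getElem B3 (fun c => dig c p * dig c q)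
  exact h

noncomputable def pt (p : Fin 33) : EuclideanSpace ℝ (Fin 16) :=
  WithLp.toLp 2 (fun i => (zc p i : ℝ) / 4)

theorem inner_pt (p q : Fin 33) : inner ℝ (pt p) (pt q) = (gr B3 p q : ℝ) / 16 := by
  rw [← sum_zc]
  simp only [pt, PiLp.inner_apply]
  push_cast
  rw [Finset.sum_div]
  refine Finset.sum_congr rfl (fun i _ => ?_)
  simp
  ring

theorem gr_self : ∀ p : Fin 33, gr B3 p p = 16 := by decide +kernel

theorem gr_lt : ∀ p q : Fin 33, p ≠ q → gr B3 p q < 16 := by decide +kernel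

theorem norm_pt (p : Fin 33) : ‖pt p‖ ^ 2 = 1 := by
  rw [← real_inner_self_eq_norm_sq, inner_pt, gr_self]; norm_num

theorem dist_pt (p q : Fin 33) : dist (pt p) (pt q) ^ 2 = 2 - (gr B3 p q : ℝ) / 8 := by
  rw [dist_eq_norm, @norm_sub_sq_real (EuclideanSpace ℝ (Fin 16)), norm_pt, norm_pt, inner_pt]
  ring

theorem pt_inj : Function.Injective pt := by
  intro p q h
  by_contra hne
  have h1 := dist_pt p q
  rw [h, dist_self] at h1
  have h2 := gr_lt p q hne
  have h3 : (gr B3 p q : ℝ) < 16 := by exact_mod_cast h2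
  norm_num at h1
  linarith

noncomputable def PP : Finset (EuclideanSpace ℝ (Fin 16)) :=
  Finset.univ.map ⟨pt, pt_inj⟩

theorem mem_PP (p : Fin 33) : pt p ∈ PP := by
  simp [PP]

theorem mem_PP_iff (x : EuclideanSpace ℝ (Fin 16)) : x ∈ PP ↔ ∃ p, pt p = x := by
  simp [PP]

theorem diam_PP : Metric.diam (PP : Set (EuclideanSpace ℝ (Fin 16))) = √2 := by
  apply le_antisymm
  · apply Metric.diam_le_of_forall_dist_le (Real.sqrt_nonneg 2)
    intro x hx y hy
    obtain ⟨p, rfl⟩ := (mem_PP_iff x).1 (Finset.mem_coe.1 hx)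
    obtain ⟨q, rfl⟩ := (mem_PP_iff y).1 (Finset.mem_coe.1 hy)
    apply Real.le_sqrt_of_sq_le
    rw [dist_pt]
    have : (0 : ℝ) ≤ (gr B3 p q : ℝ) := by positivity
    linarith
  · have h1 : dist (pt 0) (pt 1) ≤ Metric.diam (PP : Set (EuclideanSpace ℝ (Fin 16))) :=
      Metric.dist_le_diam_of_mem PP.finite_toSet.isBounded
        (Finset.mem_coe.2 (mem_PP 0)) (Finset.mem_coe.2 (mem_PP 1))
    have h2 : dist (pt 0) (pt 1) ^ 2 = 2 := by
      rw [dist_pt]
      have : gr B3 (0 : Fin 33) (1 : Fin 33) = 0 := by decide +kernel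
      rw [this]; norm_num
    have h3 : dist (pt 0) (pt 1) = √2 := by
      rw [← h2, Real.sqrt_sq dist_nonneg]
    rw [← h3]; exact h1

/-! ### relations for a copy -/

theorem inner_dep {E F κ1 κ2 : Type*} [NormedAddCommGroup E] [InnerProductSpace ℝ E]
    [NormedAddCommGroup F] [InnerProductSpace ℝ F] [Fintype κ1] [Fintype κ2]
    (y1 : κ1 → E) (y2 : κ2 → E) (p1 : κ1 → F) (p2 : κ2 → F) (s1 : κ1 → ℝ) (s2 : κ2 → ℝ)
    (h : ∀ i j, inner ℝ (y1 i) (y2 j) = inner ℝ (p1 i) (p2 j) - (s1 i + s2 j) / 2)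
    (a : κ1 → ℝ) (b : κ2 → ℝ) (ha : ∑ i, a i • p1 i = 0) :
    inner ℝ (∑ i, a i • y1 i) (∑ j, b j • y2 j)
      = -((∑ i, a i * s1 i) * (∑ j, b j) + (∑ i, a i) * (∑ j, b j * s2 j)) / 2 := by
  have h0 : inner ℝ (∑ i, a i • p1 i) (∑ j, b j • p2 j) = 0 := by rw [ha, inner_zero_left]
  simp only [sum_inner, inner_sum, inner_smul_left, inner_smul_right, conj_trivial,
    Finset.mul_sum] at h0
  simp only [sum_inner, inner_sum, inner_smul_left, inner_smul_right, conj_trivial]
  have h1 : ∀ j, b j * ∑ i, a i * inner ℝ (y1 i) (y2 j)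
      = ∑ i, b j * (a i * inner ℝ (p1 i) (p2 j))
        - (b j * (∑ i, a i * s1 i) / 2 + (b j * s2 j) * (∑ i, a i) / 2) := by
    intro j
    rw [Finset.mul_sum, Finset.mul_sum, Finset.mul_sum, Finset.sum_div, Finset.sum_div,
      ← Finset.sum_add_distrib, ← Finset.sum_sub_distrib]
    refine Finset.sum_congr rfl (fun i _ => ?_)
    rw [h]; ring
  simp only [h1, Finset.sum_sub_distrib, Finset.sum_add_distrib]
  rw [h0, ← Finset.sum_div, ← Finset.sum_div, ← Finset.sum_mul, ← Finset.sum_mul]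
  ring

def embE (t : Fin 16) : Fin 33 := ⟨t.val, by omega⟩
def embS (t : Fin 16) : Fin 33 := ⟨16 + t.val, by omega⟩

def ix5 (j : Fin 16) : Fin 5 → Fin 33 :=
  ![embS j, embE (lp j 0), embE (lp j 1), embE (lp j 2), embE (lp j 3)]
def ix17 : Option (Fin 16) → Fin 33 := fun o => o.elim 32 embE
noncomputable def co5 : Fin 5 → ℝ := ![2, -1, -1, -1, -1]
noncomputable def co17 : Option (Fin 16) → ℝ := fun o => o.elim 4 (fun _ => -1)

theorem z5 : ∀ j t : Fin 16, 2 * zc (embS j) t = zc (embE (lp j 0)) t + zc (embE (lp j 1)) t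
    + zc (embE (lp j 2)) t + zc (embE (lp j 3)) t := by decide +kernel

theorem z17 : ∀ t : Fin 16, 4 * zc 32 t = ∑ j : Fin 16, zc (embE j) t := by decide +kernel

theorem dep5 (j : Fin 16) : ∑ i, co5 i • pt (ix5 j i) = 0 := by
  ext t
  have h := z5 j t
  have h' : (2 : ℝ) * zc (embS j) t = zc (embE (lp j 0)) t + zc (embE (lp j 1)) t
    + zc (embE (lp j 2)) t + zc (embE (lp j 3)) t := by exact_mod_cast h
  simp [Fin.sum_univ_five, co5, ix5, pt]
  linarith

theorem dep17 : ∑ i, co17 i • pt (ix17 i) = 0 := by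
  ext t
  have h := z17 t
  have h' : (4 : ℝ) * zc 32 t = ∑ j : Fin 16, (zc (embE j) t : ℝ) := by exact_mod_cast h
  rw [Fintype.sum_option]
  simp [co17, ix17, pt, ← Finset.sum_div]
  linarith

theorem rel {E : Type*} [NormedAddCommGroup E] [InnerProductSpace ℝ E] (x : Fin 33 → E)
    (hx : ∀ p q, dist (x p) (x q) = dist (pt p) (pt q)) (c : E) (s : Fin 33 → ℝ)
    (hs : ∀ p, s p = 1 - dist (x p) c ^ 2) (j : Fin 16) :
    0 ≤ 2 * s (embS j) - (s (embE (lp j 0)) + s (embE (lp j 1)) + s (embE (lp j 2))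
        + s (embE (lp j 3))) ∧
    4 * s 32 - ∑ t, s (embE t) = 6 * (2 * s (embS j) - (s (embE (lp j 0)) + s (embE (lp j 1))
        + s (embE (lp j 2)) + s (embE (lp j 3)))) := by
  have hG : ∀ p q, inner ℝ (x p - c) (x q - c) = inner ℝ (pt p) (pt q) - (s p + s q) / 2 := by
    intro p q
    have h1 := @norm_sub_sq_real E _ _ (x p - c) (x q - c)
    have h2 : x p - c - (x q - c) = x p - x q := by abel
    rw [h2, ← dist_eq_norm, ← dist_eq_norm, ← dist_eq_norm, hx] at h1
    have h3 := @norm_sub_sq_real (EuclideanSpace ℝ (Fin 16)) _ _ (pt p) (pt q)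
    rw [← dist_eq_norm, norm_pt, norm_pt] at h3
    have h4 := hs p
    have h5 := hs q
    linarith
  set σ : ℝ := 2 * s (embS j) - (s (embE (lp j 0)) + s (embE (lp j 1)) + s (embE (lp j 2))
        + s (embE (lp j 3))) with hσ
  set τ : ℝ := 4 * s 32 - ∑ t, s (embE t) with hτ
  have a5 : ∑ i, co5 i = -2 := by
    simp [Fin.sum_univ_five, co5]; norm_num
  have a17 : ∑ i, co17 i = -12 := by
    rw [Fintype.sum_option]
    simp [co17]; norm_num
  have b5 : ∑ i, co5 i * s (ix5 j i) = σ := by
    simp [Fin.sum_univ_five, co5, ix5, hσ]; ring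
  have b17 : ∑ i, co17 i * s (ix17 i) = τ := by
    rw [Fintype.sum_option]
    simp [co17, ix17, hτ]; ring
  set v : E := ∑ i, co5 i • (x (ix5 j i) - c) with hv
  set w : E := ∑ i, co17 i • (x (ix17 i) - c) with hw
  have i1 : inner ℝ v v = 2 * σ := by
    rw [hv, inner_dep _ _ (fun i => pt (ix5 j i)) (fun i => pt (ix5 j i))
      (fun i => s (ix5 j i)) (fun i => s (ix5 j i)) (fun i k => hG _ _) co5 co5 (dep5 j), a5, b5]
    ring
  have i2 : inner ℝ v w = σ * 6 + τ := by
    rw [hv, hw, inner_dep _ _ (fun i => pt (ix5 j i)) (fun i => pt (ix17 i))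
      (fun i => s (ix5 j i)) (fun i => s (ix17 i)) (fun i k => hG _ _) co5 co17 (dep5 j), a5, b5,
      a17, b17]
    ring
  have i3 : inner ℝ w w = 12 * τ := by
    rw [hw, inner_dep _ _ (fun i => pt (ix17 i)) (fun i => pt (ix17 i))
      (fun i => s (ix17 i)) (fun i => s (ix17 i)) (fun i k => hG _ _) co17 co17 dep17, a17, b17]
    ring
  have i4 : ‖w - (6 : ℝ) • v‖ ^ 2 = 0 := by
    rw [← real_inner_self_eq_norm_sq]
    simp only [inner_sub_left, inner_sub_right, inner_smul_left, inner_smul_right, conj_trivial]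
    rw [real_inner_comm v w] at *
    rw [i1, i2, i3]
    ring
  have i5 : w = (6 : ℝ) • v := by
    have := pow_eq_zero_iff (two_ne_zero) |>.1 i4
    exact sub_eq_zero.1 (norm_eq_zero.1 this)
  have i6 : 0 ≤ inner ℝ v v := real_inner_self_nonneg
  refine ⟨by linarith, ?_⟩
  have i7 : inner ℝ w w = 36 * inner ℝ v v := by
    rw [i5, inner_smul_left, inner_smul_right]
    simp only [conj_trivial]
    ring
  rw [i1, i3] at i7
  linarith

/-! ### the colouring -/

noncomputable def colr (u : ℝ) : Fin 100 :=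
  ⟨(⌊10 * Real.log u⌋ % 100).toNat, by omega⟩

theorem colr_lemma {u M : ℝ} (hu : 0 < u) (huM : u ≤ M) (h : colr u = colr M) :
    (0 ≤ u ∧ u ≤ M / 10) ∨ (9 / 10 * M ≤ u ∧ u ≤ M) := by
  have hM : 0 < M := lt_of_lt_of_le hu huM
  have h1 : (⌊10 * Real.log u⌋ % 100).toNat = (⌊10 * Real.log M⌋ % 100).toNat :=
    congrArg Fin.val h
  have h2 : Real.log u ≤ Real.log M := Real.log_le_log hu huM
  have h3 : ⌊10 * Real.log u⌋ ≤ ⌊10 * Real.log M⌋ := Int.floor_le_floor (by linarith)
  have f1 := Int.floor_le (10 * Real.log u)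
  have f2 := Int.lt_floor_add_one (10 * Real.log u)
  have f3 := Int.floor_le (10 * Real.log M)
  have f4 := Int.lt_floor_add_one (10 * Real.log M)
  rcases eq_or_lt_of_le h3 with h4 | h4
  · right
    refine ⟨?_, huM⟩
    rw [h4] at f1
    have h7 : Real.log M + (-1 / 10) < Real.log u := by linarith
    have h8 : Real.exp (Real.log M + (-1 / 10)) ≤ Real.exp (Real.log u) :=
      Real.exp_le_exp.2 h7.le
    rw [Real.exp_add, Real.exp_log hM, Real.exp_log hu] at h8
    have h9 := Real.add_one_le_exp (-1 / 10 : ℝ)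
    have h10 : M * (9 / 10) ≤ M * Real.exp (-1 / 10) :=
      mul_le_mul_of_nonneg_left (by linarith) hM.le
    linarith
  · left
    refine ⟨hu.le, ?_⟩
    have h5 : ⌊10 * Real.log u⌋ + 100 ≤ ⌊10 * Real.log M⌋ := by omega
    have h6 : (⌊10 * Real.log u⌋ : ℝ) + 100 ≤ (⌊10 * Real.log M⌋ : ℝ) := by exact_mod_cast h5
    have h7 : Real.log u + 9 ≤ Real.log M := by linarith
    have h8 : Real.exp (Real.log u + 9) ≤ Real.exp (Real.log M) := Real.exp_le_exp.2 h7
    rw [Real.exp_add, Real.exp_log hM, Real.exp_log hu] at h8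
    have h9 := Real.add_one_le_exp (9 : ℝ)
    have h10 : u * 10 ≤ u * Real.exp 9 := mul_le_mul_of_nonneg_left (by linarith) hu.le
    linarith

theorem not_dr (n : ℕ) (R : Finset (EuclideanSpace ℝ (Fin n)))
    (hd : Metric.diam (R : Set (EuclideanSpace ℝ (Fin n))) = √2)
    (h : ∀ c : EuclideanSpace ℝ (Fin n) → Fin 100,
            ∃ f : EuclideanSpace ℝ (Fin 16) → EuclideanSpace ℝ (Fin n),
              (∀ x ∈ PP, f x ∈ R) ∧
              (∀ x ∈ PP, ∀ y ∈ PP, dist (f x) (f y) = dist x y) ∧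
              ∃ i : Fin 100, ∀ x ∈ PP, c (f x) = i) : False := by
  have hR : ∀ x ∈ R, ∀ y ∈ R, dist x y ^ 2 ≤ 2 := by
    intro x hx y hy
    have h1 : dist x y ≤ √2 := by
      rw [← hd]
      exact Metric.dist_le_diam_of_mem R.finite_toSet.isBounded
        (Finset.mem_coe.2 hx) (Finset.mem_coe.2 hy)
    calc dist x y ^ 2 ≤ (√2) ^ 2 := by gcongr
      _ = 2 := Real.sq_sqrt (by norm_num)
  obtain ⟨c, hc⟩ := jung R hR
  obtain ⟨f, hfR, hfd, i, hi⟩ := h (fun x => colr (1 - dist x c ^ 2))
  let x : Fin 33 → EuclideanSpace ℝ (Fin n) := fun p => f (pt p)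
  let s : Fin 33 → ℝ := fun p => 1 - dist (x p) c ^ 2
  have hs0 : ∀ p, 0 < s p := fun p => by
    have := hc (f (pt p)) (hfR _ (mem_PP p))
    simp only [s, x]
    linarith
  have hx : ∀ p q, dist (x p) (x q) = dist (pt p) (pt q) :=
    fun p q => hfd _ (mem_PP p) _ (mem_PP q)
  obtain ⟨p0, hp0⟩ := Finite.exists_max s
  have hcol : ∀ p, (0 ≤ s p ∧ s p ≤ s p0 / 10) ∨ (9 / 10 * s p0 ≤ s p ∧ s p ≤ s p0) :=
    fun p => colr_lemma (hs0 p) (hp0 p) ((hi _ (mem_PP p)).trans (hi _ (mem_PP p0)).symm)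
  have hκ := (rel x hx c s (fun _ => rfl) 0).1
  have hl := fun j => (rel x hx c s (fun _ => rfl) j).2
  set κ : ℝ := 2 * s (embS 0) - (s (embE (lp 0 0)) + s (embE (lp 0 1)) + s (embE (lp 0 2))
        + s (embE (lp 0 3))) with hκdef
  have hl0 := hl 0
  rw [← hκdef] at hl0
  obtain ⟨h1, h2, h3⟩ := lin_core (fun t => s (embE t)) (fun j => s (embS j)) (s 32) (s p0) κ
    (hs0 p0) hκ (fun t => hcol _) (fun t => hcol _) (hcol _)
    (fun j => by have := hl j; linarith) (by linarith)
  have hp := p0.isLt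
  rcases lt_or_ge p0.val 16 with h4 | h4
  · have h5 := h1 ⟨p0.val, h4⟩
    have h6 : embE ⟨p0.val, h4⟩ = p0 := rfl
    simp only [h6] at h5
    exact lt_irrefl _ h5
  · rcases lt_or_ge p0.val 32 with h5 | h5
    · have h7 := h2 ⟨p0.val - 16, by omega⟩
      have h6 : embS ⟨p0.val - 16, by omega⟩ = p0 := by
        apply Fin.ext; simp only [embS]; omega
      simp only [h6] at h7
      exact lt_irrefl _ h7
    · have h6 : p0 = 32 := by apply Fin.ext; show p0.val = 32; omega
      rw [h6] at h3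
      exact lt_irrefl _ h3

/-! ### assembly -/

theorem sum_sq_filter (l : List ℕ) :
    (l.map (fun x => x * x)).sum = ((l.filter (· ≠ 0)).map (fun x => x * x)).sum := by
  induction l with
  | nil => simp
  | cons a l ih =>
    by_cases ha : a = 0
    · subst ha
      simpa using ih
    · rw [List.filter_cons_of_pos (by simpa using ha)]
      simp only [List.map_cons, List.sum_cons, ih]

theorem sum_sq_spr {a : List ℕ} {M : ℕ} {w : Fin M → ℕ} (hw : Spr a w) :
    ∑ i, w i * w i = (a.map (fun x => x * x)).sum := by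
  rw [← hw, ← sum_sq_filter, List.map_ofFn, List.sum_ofFn]
  rfl

noncomputable def vec (D : ℝ) {M : ℕ} (w : Fin M → ℕ) : EuclideanSpace ℝ (Fin M) :=
  WithLp.toLp 2 (fun i => (w i : ℝ) / √D)

theorem dist_vec {D : ℝ} (hD : 0 < D) {M : ℕ} (w w' : Fin M → ℕ) :
    dist (vec D w) (vec D w') ^ 2
      = (((∑ i, w i * w i : ℕ) : ℝ) + ((∑ i, w' i * w' i : ℕ) : ℝ)
          - 2 * ((∑ i, w i * w' i : ℕ) : ℝ)) / D := by
  rw [EuclideanSpace.dist_eq, Real.sq_sqrt (Finset.sum_nonneg (fun i _ => sq_nonneg _))]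
  simp only [vec, Real.dist_eq, sq_abs]
  push_cast
  rw [Finset.mul_sum, ← Finset.sum_add_distrib, ← Finset.sum_sub_distrib, Finset.sum_div]
  refine Finset.sum_congr rfl (fun i _ => ?_)
  rw [← sub_div, div_pow, Real.sq_sqrt hD.le]
  ring

theorem ext_sum {m M : ℕ} (h : Fin m → Fin M) (hh : StrictMono h) (u v : Fin m → ℕ) :
    ∑ i, Function.extend h u 0 i * Function.extend h v 0 i = ∑ j, u j * v j := by
  symm
  apply Fintype.sum_of_injective h hh.injective
  · intro i hi
    have : ¬ ∃ j, h j = i := fun ⟨j, hj⟩ => hi ⟨j, hj⟩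
    rw [Function.extend_apply' _ _ _ this]
    simp
  · intro j
    rw [hh.injective.extend_apply, hh.injective.extend_apply]

theorem sq_aa (J : ℕ) : ((((aa J).map (fun x => x * x)).sum : ℕ) : ℝ)
    = 4 ^ (J + 2) * 6 * ((J : ℝ) + 12) := by
  have h1 : ((aa J).map (fun x => x * x)).sum = ((UU J).map (fun u => u 0 * u 0)).sum := by
    rw [← read_all J 0, ← sum_sq_filter, List.map_map]
    rfl
  have h2 := gram_UU J 0 0
  have h3 : gr B3 ((0 : Fin 33) : ℕ) ((0 : Fin 33) : ℕ) = 16 := gr_self 0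
  rw [h3, ← h1] at h2
  have h4 : (16 : ℝ) * ((((aa J).map (fun x => x * x)).sum : ℕ) : ℝ)
      = 4 ^ (J + 2) * 6 * (((J : ℝ) + 7) * 16 + 80) := by exact_mod_cast h2
  linarith

theorem gram_ext (J : ℕ) {M : ℕ} (h : Fin (UU J).length → Fin M) (hh : StrictMono h)
    (p q : Fin 33) :
    ((∑ i, Function.extend h (fun j => (UU J)[j] p) 0 i
        * Function.extend h (fun j => (UU J)[j] q) 0 i : ℕ) : ℝ)
      = 4 ^ (J + 2) * 6 * (((J : ℝ) + 7) * (gr B3 p q : ℝ) + 80) / 16 := by
  rw [ext_sum h hh]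
  have h1 : ∑ j : Fin (UU J).length, (UU J)[j] p * (UU J)[j] q
      = ((UU J).map (fun u => u p * u q)).sum :=
    Fin.sum_univ_fun_getElem (UU J) (fun u => u p * u q)
  rw [h1]
  have h2 := gram_UU J p q
  have h3 : (16 : ℝ) * ((((UU J).map (fun u => u p * u q)).sum : ℕ) : ℝ)
    = 4 ^ (J + 2) * 6 * (((J : ℝ) + 7) * (gr B3 p q : ℝ) + 80) := by exact_mod_cast h2
  linarith

theorem dist_copy (J : ℕ) {M : ℕ} (w : Fin 33 → Fin M → ℕ)
    (hg : ∀ p q : Fin 33, ((∑ i, w p i * w q i : ℕ) : ℝ)
      = 4 ^ (J + 2) * 6 * (((J : ℝ) + 7) * (gr B3 p q : ℝ) + 80) / 16) (p q : Fin 33) :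
    dist (vec (4 ^ (J + 2) * 6 * ((J : ℝ) + 7)) (w p)) (vec (4 ^ (J + 2) * 6 * ((J : ℝ) + 7)) (w q))
      = dist (pt p) (pt q) := by
  have h7 : (0 : ℝ) < (J : ℝ) + 7 := by positivity
  have h8 : (0 : ℝ) < (4 : ℝ) ^ (J + 2) := by positivity
  have hD : (0 : ℝ) < 4 ^ (J + 2) * 6 * ((J : ℝ) + 7) := by positivity
  have g1 := hg p q
  have g2 := hg p p
  have g3 := hg q q
  rw [gr_self] at g2 g3
  have e1 := dist_vec hD (w p) (w q)
  have e2 := dist_pt p q
  rw [g1, g2, g3] at e1
  have hd : dist (vec (4 ^ (J + 2) * 6 * ((J : ℝ) + 7)) (w p))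
      (vec (4 ^ (J + 2) * 6 * ((J : ℝ) + 7)) (w q)) ^ 2 = dist (pt p) (pt q) ^ 2 := by
    refine e1.trans (Eq.trans ?_ e2.symm)
    generalize (4 : ℝ) ^ (J + 2) = F at h8
    generalize (J : ℝ) + 7 = G at h7
    generalize ((gr B3 p q : ℕ) : ℝ) = X
    push_cast
    field_simp
    ring
  exact (pow_left_inj₀ dist_nonneg dist_nonneg two_ne_zero).1 hd

theorem num_bound (J : ℕ) (ε : ℝ) (hε : 0 < ε) (hJ : 5 / ε < (J : ℝ)) (X : ℝ) (hX : 0 ≤ X) :
    (4 ^ (J + 2) * 6 * ((J : ℝ) + 12) + 4 ^ (J + 2) * 6 * ((J : ℝ) + 12) - 2 * X)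
      / (4 ^ (J + 2) * 6 * ((J : ℝ) + 7)) ≤ (√2 + ε) ^ 2 := by
  have h8 : (0 : ℝ) < (4 : ℝ) ^ (J + 2) := by positivity
  have hJ0 : (0 : ℝ) ≤ (J : ℝ) := by positivity
  generalize (4 : ℝ) ^ (J + 2) = F at h8 ⊢
  generalize (J : ℝ) = G at hJ hJ0 ⊢
  have h2 : (√2) ^ 2 = 2 := Real.sq_sqrt (by norm_num)
  have h3 : 1 ≤ √2 := by
    rw [Real.one_le_sqrt]; norm_num
  have hD : 0 < F * 6 * (G + 7) := by positivity
  rw [div_le_iff₀ hD]
  have h4 : 5 < G * ε := by rwa [div_lt_iff₀ hε] at hJ
  have h5 : (2 + 2 * ε) ≤ (√2 + ε) ^ 2 := by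
    have : ε * 1 ≤ ε * √2 := mul_le_mul_of_nonneg_left h3 hε.le
    have h6 : (√2 + ε) ^ 2 = (√2) ^ 2 + 2 * (ε * √2) + ε ^ 2 := by ring
    rw [h6, h2]
    have := sq_nonneg ε
    linarith
  have h6 : (2 + 2 * ε) * (F * 6 * (G + 7)) ≤ (√2 + ε) ^ 2 * (F * 6 * (G + 7)) :=
    mul_le_mul_of_nonneg_right h5 hD.le
  have h9 : (G + 12) + (G + 12) ≤ (2 + 2 * ε) * (G + 7) := by nlinarith
  have h10 : (F * 6) * ((G + 12) + (G + 12)) ≤ (F * 6) * ((2 + 2 * ε) * (G + 7)) :=
    mul_le_mul_of_nonneg_left h9 (by positivity)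
  linarith

theorem almost_dr (r : ℕ) (_hr : 1 ≤ r) (ε : ℝ) (hε : 0 < ε) :
    ∃ (n : ℕ) (R : Finset (EuclideanSpace ℝ (Fin n))),
      (∀ c : EuclideanSpace ℝ (Fin n) → Fin r,
        ∃ f : EuclideanSpace ℝ (Fin 16) → EuclideanSpace ℝ (Fin n),
          (∀ x ∈ PP, f x ∈ R) ∧
          (∀ x ∈ PP, ∀ y ∈ PP, dist (f x) (f y) = dist x y) ∧
          ∃ i : Fin r, ∀ x ∈ PP, c (f x) = i) ∧
      Metric.diam (R : Set (EuclideanSpace ℝ (Fin n)))
        ≤ Metric.diam (PP : Set (EuclideanSpace ℝ (Fin 16))) + ε := by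
  classical
  obtain ⟨J, hJ⟩ := exists_nat_gt (5 / ε)
  set D : ℝ := 4 ^ (J + 2) * 6 * ((J : ℝ) + 7) with hDdef
  have hD : 0 < D := by positivity
  obtain ⟨M, hM⟩ := spread_core (aa J) (UU J) (read_all J) r
  let R : Finset (EuclideanSpace ℝ (Fin M)) :=
    ((Fintype.piFinset (fun _ : Fin M => insert 0 (aa J).toFinset)).filter
      (fun w => Spr (aa J) w)).image (vec D)
  have memR : ∀ w : Fin M → ℕ, Spr (aa J) w → vec D w ∈ R := by
    intro w hw
    simp only [R, Finset.mem_image, Finset.mem_filter, Fintype.mem_piFinset]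
    refine ⟨w, ⟨fun i => ?_, hw⟩, rfl⟩
    rw [Finset.mem_insert, List.mem_toFinset]
    by_cases hi : w i = 0
    · exact Or.inl hi
    · right
      rw [← hw, List.mem_filter]
      refine ⟨?_, by simpa using hi⟩
      rw [List.mem_ofFn]
      exact ⟨i, rfl⟩
  have hsq := sq_aa J
  refine ⟨M, R, ?_, ?_⟩
  · intro c
    obtain ⟨h, hh, hspr, i, hi⟩ := hM (fun w => c (vec D w))
    let x : Fin 33 → EuclideanSpace ℝ (Fin M) :=
      fun p => vec D (Function.extend h (fun j => (UU J)[j] p) 0)
    have hf : ∀ p, Function.extend pt x 0 (pt p) = x p := fun p => pt_inj.extend_apply x 0 p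
    refine ⟨Function.extend pt x 0, ?_, ?_, i, ?_⟩
    · intro y hy
      obtain ⟨p, rfl⟩ := (mem_PP_iff y).1 hy
      rw [hf]
      exact memR _ (hspr p)
    · intro y hy z hz
      obtain ⟨p, rfl⟩ := (mem_PP_iff y).1 hy
      obtain ⟨q, rfl⟩ := (mem_PP_iff z).1 hz
      rw [hf, hf]
      exact dist_copy J _ (gram_ext J h hh) p q
    · intro y hy
      obtain ⟨p, rfl⟩ := (mem_PP_iff y).1 hy
      rw [hf]
      exact hi p
  · rw [diam_PP]
    apply Metric.diam_le_of_forall_dist_le (by positivity)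
    intro y hy z hz
    obtain ⟨w, hw, rfl⟩ := Finset.mem_image.1 (Finset.mem_coe.1 hy)
    obtain ⟨w', hw', rfl⟩ := Finset.mem_image.1 (Finset.mem_coe.1 hz)
    have s1 := (Finset.mem_filter.1 hw).2
    have s2 := (Finset.mem_filter.1 hw').2
    apply le_of_sq_le_sq _ (by positivity)
    rw [dist_vec hD, sum_sq_spr s1, sum_sq_spr s2, hsq]
    exact num_bound J ε hε hJ _ (Nat.cast_nonneg _)


/-- The negation of the preceding statement: For every finite point set P in Euclidean space: if for all r and ε>0 some finite R with diameter at most diam P + ε forces a monochromatic congruent copy of P in every r-colouring, then for all r such an R exists with diameter exactly diam P. -/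
theorem result :
    ¬ (∀ (d : ℕ) (P : Finset (EuclideanSpace ℝ (Fin d))),
      (∀ r : ℕ, 1 ≤ r → ∀ ε : ℝ, 0 < ε →
        ∃ (n : ℕ) (R : Finset (EuclideanSpace ℝ (Fin n))),
          (∀ c : EuclideanSpace ℝ (Fin n) → Fin r,
            ∃ f : EuclideanSpace ℝ (Fin d) → EuclideanSpace ℝ (Fin n),
              (∀ x ∈ P, f x ∈ R) ∧
              (∀ x ∈ P, ∀ y ∈ P, dist (f x) (f y) = dist x y) ∧
              ∃ i : Fin r, ∀ x ∈ P, c (f x) = i) ∧
          Metric.diam (R : Set (EuclideanSpace ℝ (Fin n)))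
            ≤ Metric.diam (P : Set (EuclideanSpace ℝ (Fin d))) + ε) →
      (∀ r : ℕ, 1 ≤ r →
        ∃ (n : ℕ) (R : Finset (EuclideanSpace ℝ (Fin n))),
          (∀ c : EuclideanSpace ℝ (Fin n) → Fin r,
            ∃ f : EuclideanSpace ℝ (Fin d) → EuclideanSpace ℝ (Fin n),
              (∀ x ∈ P, f x ∈ R) ∧
              (∀ x ∈ P, ∀ y ∈ P, dist (f x) (f y) = dist x y) ∧
              ∃ i : Fin r, ∀ x ∈ P, c (f x) = i) ∧
          Metric.diam (R : Set (EuclideanSpace ℝ (Fin n)))
            = Metric.diam (P : Set (EuclideanSpace ℝ (Fin d))))) := by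
  intro H
  obtain ⟨n, R, h1, h2⟩ := H 16 PP almost_dr 100 (by norm_num)
  rw [diam_PP] at h2
  exact not_dr n R h2 h1

end Pool.Agent.S05306
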