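import Pool.Statements.S05312
import Pool.Agent.Helper448.Plane

set_option autoImplicit false
open Real
open Pool Pool.MP_3b066f_co

namespace Pool.Agent.S05312

/-- The negation of the preceding statement: For each d from 4 to 8 there is c>0 such that every finite graph of maximum degree d has a straight-line plane drawing (no vertex on a non-incident edge) where any two crossing edges meet at angle at least c. -/
theorem result :
    ¬ (∀ d : ℕ, 4 ≤ d → d ≤ 8 →
      ∃ c : ℝ, 0 < c ∧
        ∀ (V : Type) [Fintype V] [DecidableEq V] (G : SimpleGraph V) [DecidableRel G.Adj],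
          G.maxDegree = d →
          ∃ p : V → EuclideanSpace ℝ (Fin 2),
            Function.Injective p ∧
            (∀ w u v : V, G.Adj u v → w ≠ u → w ≠ v → p w ∉ segment ℝ (p u) (p v)) ∧
            (∀ u v x y : V, G.Adj u v → G.Adj x y →
              u ≠ x → u ≠ y → v ≠ x → v ≠ y →
              (segment ℝ (p u) (p v) ∩ segment ℝ (p x) (p y)).Nonempty →
              c ≤ InnerProductGeometry.angle (p v - p u) (p y - p x) ∧
              InnerProductGeometry.angle (p v - p u) (p y - p x) ≤ π - c)) := by
  intro H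
  classical
  obtain ⟨c, hc, H⟩ := H 5 (by norm_num) (by norm_num)
  obtain ⟨k, hk, cls, hcls⟩ := Pool.Agent.Helper448.Plane.exists_dir_classes c hc
  obtain ⟨m, σ, hσ⟩ := Pool.Agent.Helper448.Plane.no_plane_drawing k hk
  obtain ⟨p, hp, hoff, hang⟩ := H _ (Pool.Agent.Helper448.Plane.gr σ 5)
    (Pool.Agent.Helper448.Plane.gr_maxDegree σ 5 le_rfl)
  have hadj := Pool.Agent.Helper448.Plane.gr_adj σ 5
  obtain ⟨j, a, a', hne, hcc, hmeet⟩ := hσ (fun v => p (Sum.inl v))
    (fun j a => cls (p (Sum.inl (Sum.inr (σ j a))) - p (Sum.inl (Sum.inl a))))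
    (fun u v h => Sum.inl_injective (hp h))
    (by
      intro j a v h1 h2
      exact hoff _ _ _ (hadj j a) (fun h => h1 (Sum.inl_injective h))
        (fun h => h2 (Sum.inl_injective h)))
  have hσne : σ j a ≠ σ j a' := fun h => hne ((σ j).injective h)
  have h1 := (hang _ _ _ _ (hadj j a) (hadj j a') (by simpa using hne) (by simp) (by simp)
    (by simpa using hσne) hmeet).1
  have h2 : p (Sum.inl (Sum.inr (σ j a))) - p (Sum.inl (Sum.inl a)) ≠ 0 := by
    rw [sub_ne_zero]
    intro h
    exact absurd (hp h) (by simp)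
  have h3 : p (Sum.inl (Sum.inr (σ j a'))) - p (Sum.inl (Sum.inl a')) ≠ 0 := by
    rw [sub_ne_zero]
    intro h
    exact absurd (hp h) (by simp)
  have h4 := hcls _ _ h2 h3 hcc
  linarith

end Pool.Agent.S05312
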