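import Pool.Statements.S05314

set_option autoImplicit false
open Pool Pool.MP_3b2b47_co

namespace Pool.Agent.S05314

open MeasureTheory Set

/-- sign attached to a Boolean -/
noncomputable def sg (b : Bool) : ℝ := if b then 1 else -1

/-- the linear form with coefficients plus or minus one -/
noncomputable def dt (s : Bool × Bool × Bool) (x : Fin 3 → ℝ) : ℝ :=
  sg s.1 * x 0 + sg s.2.1 * x 1 + sg s.2.2 * x 2

/-- octahedron of radius `r` -/
def oct (r : ℝ) : Set (Fin 3 → ℝ) := {x | |x 0| + |x 1| + |x 2| ≤ r}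

lemma sg_cases (b : Bool) : sg b = 1 ∨ sg b = -1 := by
  cases b <;> simp [sg]

lemma sg_mul_le (b : Bool) (t : ℝ) : sg b * t ≤ |t| := by
  rcases sg_cases b with h | h <;> rw [h]
  · simpa using le_abs_self t
  · simpa using neg_le_abs t

lemma sg_mul_pos_abs (b : Bool) (t : ℝ) (h : 0 < sg b * t) : |t| = sg b * t := by
  rcases sg_cases b with h' | h' <;> rw [h'] at h ⊢
  · rw [abs_of_pos (by linarith)]; ring
  · rw [abs_of_neg (by linarith)]; ring

lemma sg_eq_of_pos (b b' : Bool) (t : ℝ) (h : 0 < sg b * t) (h' : 0 < sg b' * t) : b = b' := by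
  cases b <;> cases b' <;> simp [sg] at h h' ⊢ <;> linarith

/-- the prism over the facet `s` swept out by the vector `w` -/
def prism (w : Fin 3 → ℝ) (s : Bool × Bool × Bool) : Set (Fin 3 → ℝ) :=
  {x | 0 < dt s w ∧ 1 < dt s x ∧ dt s x ≤ 1 + dt s w ∧
    0 < sg s.1 * (x 0 - (dt s x - 1) / dt s w * w 0) ∧
    0 < sg s.2.1 * (x 1 - (dt s x - 1) / dt s w * w 1) ∧
    0 < sg s.2.2 * (x 2 - (dt s x - 1) / dt s w * w 2)}

lemma measurable_dt (s : Bool × Bool × Bool) : Measurable (fun x : Fin 3 → ℝ => dt s x) := by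
  unfold dt
  fun_prop

lemma measurableSet_prism (w : Fin 3 → ℝ) (s : Bool × Bool × Bool) :
    MeasurableSet (prism w s) := by
  have hd := measurable_dt s
  unfold prism
  have h0 : Measurable (fun x : Fin 3 → ℝ => sg s.1 * (x 0 - (dt s x - 1) / dt s w * w 0)) := by
    fun_prop
  have h1 : Measurable (fun x : Fin 3 → ℝ => sg s.2.1 * (x 1 - (dt s x - 1) / dt s w * w 1)) := by
    fun_prop
  have h2 : Measurable (fun x : Fin 3 → ℝ => sg s.2.2 * (x 2 - (dt s x - 1) / dt s w * w 2)) := by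
    fun_prop
  refine MeasurableSet.inter (MeasurableSet.const _) ?_
  refine MeasurableSet.inter (measurableSet_lt measurable_const hd) ?_
  refine MeasurableSet.inter (measurableSet_le hd measurable_const) ?_
  refine MeasurableSet.inter (measurableSet_lt measurable_const h0) ?_
  refine MeasurableSet.inter (measurableSet_lt measurable_const h1) ?_
  exact measurableSet_lt measurable_const h2


lemma dt_sub_smul (s : Bool × Bool × Bool) (x w : Fin 3 → ℝ) (t : ℝ) :
    dt s (x - t • w) = dt s x - t * dt s w := by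
  simp only [dt, Pi.sub_apply, Pi.smul_apply, smul_eq_mul]; ring

lemma dt_le_abs (s : Bool × Bool × Bool) (x : Fin 3 → ℝ) :
    dt s x ≤ |x 0| + |x 1| + |x 2| := by
  unfold dt
  have h0 := sg_mul_le s.1 (x 0)
  have h1 := sg_mul_le s.2.1 (x 1)
  have h2 := sg_mul_le s.2.2 (x 2)
  linarith

/-- a point of the prism decomposes as facet point plus multiple of `w` -/
lemma prism_decomp {w : Fin 3 → ℝ} {s : Bool × Bool × Bool} {x : Fin 3 → ℝ}
    (hx : x ∈ prism w s) :
    ∃ t : ℝ, 0 < t ∧ t ≤ 1 ∧ 0 < dt s w ∧ dt s (x - t • w) = 1 ∧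
      |(x - t • w) 0| + |(x - t • w) 1| + |(x - t • w) 2| = 1 ∧
      0 < sg s.1 * (x - t • w) 0 ∧ 0 < sg s.2.1 * (x - t • w) 1 ∧
      0 < sg s.2.2 * (x - t • w) 2 := by
  obtain ⟨hw, h1, h2, h3, h4, h5⟩ := hx
  have hd : dt s (x - ((dt s x - 1) / dt s w) • w) = 1 := by
    rw [dt_sub_smul]
    field_simp
    ring
  refine ⟨(dt s x - 1) / dt s w, div_pos (by linarith) hw, ?_, hw, hd, ?_, ?_, ?_, ?_⟩
  · rw [div_le_one hw]; linarith
  · have e0 := sg_mul_pos_abs _ _ h3
    have e1 := sg_mul_pos_abs _ _ h4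
    have e2 := sg_mul_pos_abs _ _ h5
    simp only [Pi.sub_apply, Pi.smul_apply, smul_eq_mul]
    rw [e0, e1, e2]
    have := hd
    simpa [dt, Pi.sub_apply, Pi.smul_apply, smul_eq_mul] using this
  · simpa using h3
  · simpa using h4
  · simpa using h5

lemma prism_disjoint {w : Fin 3 → ℝ} {s s' : Bool × Bool × Bool} (hss : s ≠ s') :
    Disjoint (prism w s) (prism w s') := by
  rw [Set.disjoint_left]
  intro x hx hx'
  apply hss
  obtain ⟨t, ht0, ht1, hw, hd, ha, h0, h1, h2⟩ := prism_decomp hx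
  obtain ⟨t', ht0', ht1', hw', hd', ha', h0', h1', h2'⟩ := prism_decomp hx'
  have key : t = t' := by
    have a1 := dt_le_abs s' (x - t • w)
    have a2 := dt_le_abs s (x - t' • w)
    rw [ha, dt_sub_smul] at a1
    rw [ha', dt_sub_smul] at a2
    rw [dt_sub_smul] at hd hd'
    have b1 : (t' - t) * dt s' w ≤ 0 := by nlinarith
    have b2 : (t - t') * dt s w ≤ 0 := by nlinarith
    have c1 : t' - t ≤ 0 := by
      by_contra hc
      push Not at hc
      have := mul_pos hc hw'
      linarith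
    have c2 : t - t' ≤ 0 := by
      by_contra hc
      push Not at hc
      have := mul_pos hc hw
      linarith
    linarith
  subst key
  have e0 := sg_eq_of_pos _ _ _ h0 h0'
  have e1 := sg_eq_of_pos _ _ _ h1 h1'
  have e2 := sg_eq_of_pos _ _ _ h2 h2'
  exact Prod.ext e0 (Prod.ext e1 e2)

lemma oct_disjoint_prism (w : Fin 3 → ℝ) (s : Bool × Bool × Bool) :
    Disjoint (oct 1) (prism w s) := by
  rw [Set.disjoint_left]
  intro x hx hx'
  have h1 := hx'.2.1
  have h2 := dt_le_abs s x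
  have h3 : |x 0| + |x 1| + |x 2| ≤ 1 := hx
  linarith

/-- the standard triangular prism -/
def T : Set (Fin 3 → ℝ) := {p | 0 < p 0 ∧ 0 < p 1 ∧ p 0 + p 1 < 1 ∧ 0 < p 2 ∧ p 2 ≤ 1}

lemma volume_tri : volume (regionBetween (fun _ : ℝ => (0 : ℝ)) (fun x => 1 - x) (Ioo 0 1)) =
    ENNReal.ofReal (1 / 2) := by
  rw [Measure.volume_eq_prod, volume_regionBetween_eq_integral]
  · congr 1
    have : (∫ y in Ioo (0:ℝ) 1, ((fun x : ℝ => 1 - x) - (fun _ : ℝ => (0 : ℝ))) y) =
        ∫ y in (0:ℝ)..1, (1 - y) := by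
      rw [intervalIntegral.integral_of_le zero_le_one, integral_Ioc_eq_integral_Ioo]
      simp
    rw [this]
    rw [intervalIntegral.integral_sub (by simp) (by simp)]
    simp
    norm_num
  · exact (integrableOn_const (by simp))
  · apply Continuous.integrableOn_Icc (b := 1) (a := 0) (by fun_prop) |>.mono_set Ioo_subset_Icc_self
  · exact measurableSet_Ioo
  · intro x hx
    simp only [mem_Ioo] at hx
    linarith [hx.2]

lemma volume_T : volume T = ENNReal.ofReal (1 / 2) := by
  have h3 := volume_preserving_piFinSuccAbove (fun _ : Fin 3 => ℝ) 2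
  have h2 := volume_preserving_finTwoArrow ℝ
  let R := regionBetween (fun _ : ℝ => (0 : ℝ)) (fun x => 1 - x) (Ioo 0 1)
  have hR : MeasurableSet R := measurableSet_regionBetween measurable_const (by fun_prop) measurableSet_Ioo
  have e : T = (MeasurableEquiv.piFinSuccAbove (fun _ : Fin 3 => ℝ) 2) ⁻¹'
      ((Ioc 0 1) ×ˢ ((MeasurableEquiv.finTwoArrow) ⁻¹' R)) := by
    ext p
    simp only [T, R, regionBetween, mem_ofPred_eq, mem_preimage, mem_prod, mem_Ioc, mem_Ioo,
      MeasurableEquiv.piFinSuccAbove_apply, MeasurableEquiv.finTwoArrow_apply]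
    have e2 : ((Fin.insertNthEquiv (fun _ : Fin 3 => ℝ) 2).symm p).1 = p 2 := rfl
    have e0 : ((Fin.insertNthEquiv (fun _ : Fin 3 => ℝ) 2).symm p).2 0 = p 0 := rfl
    have e1 : ((Fin.insertNthEquiv (fun _ : Fin 3 => ℝ) 2).symm p).2 1 = p 1 := rfl
    rw [e2, e0, e1]
    constructor
    · rintro ⟨h1, h2, h3, h4, h5⟩
      exact ⟨⟨h4, h5⟩, ⟨h1, by linarith⟩, h2, by linarith⟩
    · rintro ⟨⟨h4, h5⟩, ⟨h1, _⟩, h2, h3⟩
      exact ⟨h1, h2, by linarith, h4, h5⟩
  rw [e, h3.measure_preimage]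
  · rw [Measure.volume_eq_prod, Measure.prod_prod, h2.measure_preimage hR.nullMeasurableSet, volume_tri]
    simp
  · exact (measurableSet_Ioc.prod (MeasurableEquiv.measurable _ hR)).nullMeasurableSet


/-- the linear part of the map of the standard prism to a prism -/
noncomputable def M (w : Fin 3 → ℝ) (s : Bool × Bool × Bool) : Matrix (Fin 3) (Fin 3) ℝ :=
  !![sg s.1, 0, w 0; 0, sg s.2.1, w 1; -sg s.2.2, -sg s.2.2, w 2]

lemma det_M (w : Fin 3 → ℝ) (s : Bool × Bool × Bool) : |(M w s).det| = |dt s w| := by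
  rw [Matrix.det_fin_three]
  obtain ⟨a, b, c⟩ := s
  simp only [M, dt]
  rcases sg_cases a with ha | ha <;> rcases sg_cases b with hb | hb <;>
    rcases sg_cases c with hc | hc <;> simp [ha, hb, hc] <;> 
    first | (congr 1; ring1) | (rw [← abs_neg]; congr 1; ring1)

lemma volume_prism (w : Fin 3 → ℝ) (s : Bool × Bool × Bool) (h : 0 < dt s w) :
    ENNReal.ofReal (dt s w / 2) ≤ volume (prism w s) := by
  let v : Fin 3 → ℝ := ![0, 0, sg s.2.2]
  have hsub : (fun x => v + x) '' (Matrix.toLin' (M w s) '' T) ⊆ prism w s := by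
    rintro _ ⟨_, ⟨p, hp, rfl⟩, rfl⟩
    obtain ⟨h0, h1, h2, h3, h4⟩ := hp
    have c0 : (v + Matrix.toLin' (M w s) p) 0 = sg s.1 * p 0 + w 0 * p 2 := by
      simp [v, M, Matrix.toLin'_apply, dotProduct, Fin.sum_univ_three]
    have c1 : (v + Matrix.toLin' (M w s) p) 1 = sg s.2.1 * p 1 + w 1 * p 2 := by
      simp [v, M, Matrix.toLin'_apply, dotProduct, Fin.sum_univ_three]
    have c2 : (v + Matrix.toLin' (M w s) p) 2 = sg s.2.2 * (1 - p 0 - p 1) + w 2 * p 2 := by
      simp [v, M, Matrix.toLin'_apply, dotProduct, Fin.sum_univ_three]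
      ring
    have sq : ∀ b, sg b * sg b = 1 := by
      intro b; rcases sg_cases b with hb | hb <;> rw [hb] <;> norm_num
    have hd : dt s (v + Matrix.toLin' (M w s) p) = 1 + p 2 * dt s w := by
      simp only [dt, c0, c1, c2]
      have q0 := sq s.1
      have q1 := sq s.2.1
      have q2 := sq s.2.2
      linear_combination p 0 * q0 + p 1 * q1 + (1 - p 0 - p 1) * q2
    have ht : (dt s (v + Matrix.toLin' (M w s) p) - 1) / dt s w = p 2 := by
      rw [hd]; field_simp; ring
    refine ⟨h, ?_, ?_, ?_, ?_, ?_⟩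
    · show 1 < dt s (v + Matrix.toLin' (M w s) p)
      rw [hd]; nlinarith
    · show dt s (v + Matrix.toLin' (M w s) p) ≤ _
      rw [hd]; nlinarith
    · show 0 < sg s.1 * ((v + Matrix.toLin' (M w s) p) 0 - (dt s (v + Matrix.toLin' (M w s) p) - 1) / dt s w * w 0)
      rw [ht, c0]
      have q0 := sq s.1
      have : sg s.1 * (sg s.1 * p 0 + w 0 * p 2 - p 2 * w 0) = p 0 := by
        linear_combination p 0 * q0
      rw [this]; exact h0
    · show 0 < sg s.2.1 * ((v + Matrix.toLin' (M w s) p) 1 - (dt s (v + Matrix.toLin' (M w s) p) - 1) / dt s w * w 1)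
      rw [ht, c1]
      have q0 := sq s.2.1
      have : sg s.2.1 * (sg s.2.1 * p 1 + w 1 * p 2 - p 2 * w 1) = p 1 := by
        linear_combination p 1 * q0
      rw [this]; exact h1
    · show 0 < sg s.2.2 * ((v + Matrix.toLin' (M w s) p) 2 - (dt s (v + Matrix.toLin' (M w s) p) - 1) / dt s w * w 2)
      rw [ht, c2]
      have q0 := sq s.2.2
      have : sg s.2.2 * (sg s.2.2 * (1 - p 0 - p 1) + w 2 * p 2 - p 2 * w 2) = 1 - p 0 - p 1 := by
        linear_combination (1 - p 0 - p 1) * q0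
      rw [this]; linarith
  refine le_trans ?_ (measure_mono hsub)
  rw [Set.image_add_left, measure_preimage_add, Measure.addHaar_image_linearMap,
    LinearMap.det_toLin', det_M, abs_of_pos h, volume_T, ← ENNReal.ofReal_mul h.le]
  apply le_of_eq
  congr 1
  ring


/-- union of the octahedron and the prisms on its facets -/
def U (w : Fin 3 → ℝ) : Set (Fin 3 → ℝ) :=
  oct 1 ∪ ⋃ s ∈ (Finset.univ : Finset (Bool × Bool × Bool)), prism w s

lemma measurableSet_oct (r : ℝ) : MeasurableSet (oct r) := by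
  have h : Measurable (fun x : Fin 3 → ℝ => |x 0| + |x 1| + |x 2|) := by fun_prop
  exact measurableSet_le h measurable_const

lemma measurableSet_U (w : Fin 3 → ℝ) : MeasurableSet (U w) :=
  (measurableSet_oct 1).union
    (Finset.measurableSet_biUnion _ (fun s _ => measurableSet_prism w s))

lemma U_subset (w : Fin 3 → ℝ) {x : Fin 3 → ℝ} (hx : x ∈ U w) :
    ∃ f ∈ oct 1, ∃ t : ℝ, 0 ≤ t ∧ t ≤ 1 ∧ x = f + t • w := by
  rcases hx with hx | hx
  · exact ⟨x, hx, 0, le_refl _, zero_le_one, by simp⟩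
  · simp only [mem_iUnion] at hx
    obtain ⟨s, _, hs⟩ := hx
    obtain ⟨t, ht0, ht1, _, _, ha, _⟩ := prism_decomp hs
    exact ⟨x - t • w, ha.le, t, ht0.le, ht1, by simp⟩

lemma real_ineq (a b c : ℝ) :
    |a| + |b| + |c| ≤ max (a + b + c) 0 / 2 + max (a + b - c) 0 / 2 + max (a - b + c) 0 / 2 +
      max (a - b - c) 0 / 2 + max (-a + b + c) 0 / 2 + max (-a + b - c) 0 / 2 +
      max (-a - b + c) 0 / 2 + max (-a - b - c) 0 / 2 := by
  have h1 := le_max_left (a + b + c) 0
  have h1' := le_max_right (a + b + c) 0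
  have h2 := le_max_left (a + b - c) 0
  have h2' := le_max_right (a + b - c) 0
  have h3 := le_max_left (a - b + c) 0
  have h3' := le_max_right (a - b + c) 0
  have h4 := le_max_left (a - b - c) 0
  have h4' := le_max_right (a - b - c) 0
  have h5 := le_max_left (-a + b + c) 0
  have h5' := le_max_right (-a + b + c) 0
  have h6 := le_max_left (-a + b - c) 0
  have h6' := le_max_right (-a + b - c) 0
  have h7 := le_max_left (-a - b + c) 0
  have h7' := le_max_right (-a - b + c) 0
  have h8 := le_max_left (-a - b - c) 0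
  have h8' := le_max_right (-a - b - c) 0
  rcases abs_cases a with ⟨ha, _⟩ | ⟨ha, _⟩ <;> rcases abs_cases b with ⟨hb, _⟩ | ⟨hb, _⟩ <;>
    rcases abs_cases c with ⟨hc, _⟩ | ⟨hc, _⟩ <;> rw [ha, hb, hc] <;> linarith

lemma volume_prism' (w : Fin 3 → ℝ) (s : Bool × Bool × Bool) :
    ENNReal.ofReal (max (dt s w) 0 / 2) ≤ volume (prism w s) := by
  rcases le_or_gt (dt s w) 0 with h | h
  · rw [max_eq_right h]; simp
  · rw [max_eq_left h.le]; exact volume_prism w s h

lemma volume_U (w : Fin 3 → ℝ) :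
    volume (oct 1) + ENNReal.ofReal (|w 0| + |w 1| + |w 2|) ≤ volume (U w) := by
  unfold U
  rw [measure_union _ (Finset.measurableSet_biUnion _ (fun s _ => measurableSet_prism w s))]
  · gcongr
    rw [measure_biUnion_finset (fun s _ s' _ h => prism_disjoint h)
      (fun s _ => measurableSet_prism w s)]
    calc ENNReal.ofReal (|w 0| + |w 1| + |w 2|)
        ≤ ENNReal.ofReal (∑ s : Bool × Bool × Bool, max (dt s w) 0 / 2) := by
          apply ENNReal.ofReal_le_ofReal
          have := real_ineq (w 0) (w 1) (w 2)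
          simp only [Fintype.sum_prod_type, Fintype.sum_bool, dt, sg]
          simp only [if_true, Bool.false_eq_true, if_false, one_mul, neg_one_mul,
            ← sub_eq_add_neg]
          linarith
      _ = ∑ s : Bool × Bool × Bool, ENNReal.ofReal (max (dt s w) 0 / 2) := by
          rw [ENNReal.ofReal_sum_of_nonneg]
          intro s _
          positivity
      _ ≤ _ := Finset.sum_le_sum (fun s _ => volume_prism' w s)
  · rw [Set.disjoint_iUnion₂_right]
    intro s _
    exact oct_disjoint_prism w s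

lemma volume_oct (r : ℝ) (hr : 0 ≤ r): volume (oct r) = ENNReal.ofReal (r ^ 3 * (4 / 3)) := by
  have h := MeasureTheory.volume_sum_rpow_le (ι := Fin 3) (p := 1) le_rfl r
  have e : {x : Fin 3 → ℝ | (∑ i, |x i| ^ (1:ℝ)) ^ (1 / (1:ℝ)) ≤ r} = oct r := by
    ext x
    simp [oct, Fin.sum_univ_three]
  rw [e] at h
  rw [h, ENNReal.ofReal_mul (by positivity), ENNReal.ofReal_pow hr]
  congr 2
  have g4 : Real.Gamma 4 = 6 := by
    have h := Real.Gamma_nat_eq_factorial 3
    rw [show ((3 : ℕ) : ℝ) + 1 = 4 by norm_num] at h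
    rw [h]; norm_num [Nat.factorial]
  have g2 : Real.Gamma 2 = 1 := by
    have h := Real.Gamma_nat_eq_factorial 1
    rw [show ((1 : ℕ) : ℝ) + 1 = 2 by norm_num] at h
    rw [h]; norm_num [Nat.factorial]
  simp
  norm_num [g4, g2]


abbrev E := EuclideanSpace ℝ (Fin 3)

/-- the octahedron in Euclidean space -/
def Oc (r : ℝ) : Set E := {x | |x 0| + |x 1| + |x 2| ≤ r}

lemma volume_Oc (r : ℝ) (hr : 0 ≤ r) : volume (Oc r) = ENNReal.ofReal (r ^ 3 * (4 / 3)) := by
  have h := (PiLp.volume_preserving_ofLp (Fin 3)).measure_preimage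
    (measurableSet_oct r).nullMeasurableSet
  rw [volume_oct r hr] at h
  exact h

lemma convex_Oc (r : ℝ) : Convex ℝ (Oc r) := by
  intro x hx y hy a b ha hb hab
  simp only [Oc, mem_ofPred_eq] at hx hy ⊢
  simp only [PiLp.add_apply, PiLp.smul_apply, smul_eq_mul]
  have h : ∀ i : Fin 3, |a * x i + b * y i| ≤ a * |x i| + b * |y i| := by
    intro i
    refine (abs_add_le _ _).trans ?_
    rw [abs_mul, abs_mul, abs_of_nonneg ha, abs_of_nonneg hb]
  have h0 := h 0
  have h1 := h 1
  have h2 := h 2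
  calc |a * x 0 + b * y 0| + |a * x 1 + b * y 1| + |a * x 2 + b * y 2|
      ≤ a * (|x 0| + |x 1| + |x 2|) + b * (|y 0| + |y 1| + |y 2|) := by linarith
    _ ≤ a * r + b * r := by gcongr
    _ = r := by rw [← add_mul, hab, one_mul]

lemma isClosed_Oc (r : ℝ) : IsClosed (Oc r) := by
  have : Continuous (fun x : E => |x 0| + |x 1| + |x 2|) := by fun_prop
  exact isClosed_le this continuous_const

lemma isCompact_Oc : IsCompact (Oc 1) := by
  refine Metric.isCompact_of_isClosed_isBounded (isClosed_Oc 1) ?_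
  refine (Metric.isBounded_closedBall (x := (0 : E)) (r := 1)).subset ?_
  intro x hx
  have hx' : |x 0| + |x 1| + |x 2| ≤ 1 := hx
  rw [mem_closedBall_zero_iff, EuclideanSpace.norm_eq, Real.sqrt_le_one]
  simp only [Fin.sum_univ_three, Real.norm_eq_abs]
  have a0 := abs_nonneg (x 0)
  have a1 := abs_nonneg (x 1)
  have a2 := abs_nonneg (x 2)
  nlinarith [mul_nonneg a0 a1, mul_nonneg a0 a2, mul_nonneg a1 a2]

lemma interior_Oc : (interior (Oc 1)).Nonempty := by
  have : Continuous (fun x : E => |x 0| + |x 1| + |x 2|) := by fun_prop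
  have ho : IsOpen {x : E | |x 0| + |x 1| + |x 2| < 1} := isOpen_lt this continuous_const
  refine ⟨0, interior_maximal ?_ ho ?_⟩
  · intro x hx
    have hx' : |x 0| + |x 1| + |x 2| < 1 := hx
    exact hx'.le
  · simp

lemma neg_Oc : ∀ v ∈ Oc 1, -v ∈ Oc 1 := by
  intro v hv
  simpa [Oc] using hv

/-- six integer points -/
def X : Fin 6 → Fin 3 → ℤ :=
  ![![1, 0, 0], ![-1, 0, 0], ![0, 1, 0], ![0, -1, 0], ![0, 0, 1], ![0, 0, -1]]

noncomputable def x (i : Fin 6) : E := WithLp.toLp 2 (fun k => (X i k : ℝ))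

def isg (b : Bool) : ℤ := if b then 1 else -1

def idt (s : Bool × Bool × Bool) (x : Fin 3 → ℤ) : ℤ :=
  isg s.1 * x 0 + isg s.2.1 * x 1 + isg s.2.2 * x 2

lemma comb : ∀ i j : Fin 6, i ≠ j → ∃ s : Bool × Bool × Bool,
    idt s (X i) = -1 ∧ idt s (X j) = 1 ∧ ∀ k, idt s (X k) = -1 ∨ idt s (X k) = 1 := by
  decide

noncomputable def fs (s : Bool × Bool × Bool) : E →L[ℝ] ℝ :=
  sg s.1 • EuclideanSpace.proj 0 + sg s.2.1 • EuclideanSpace.proj 1 +
    sg s.2.2 • EuclideanSpace.proj 2

lemma fs_apply (s : Bool × Bool × Bool) (v : E) :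
    fs s v = sg s.1 * v 0 + sg s.2.1 * v 1 + sg s.2.2 * v 2 := by
  simp [fs]

lemma fs_x (s : Bool × Bool × Bool) (i : Fin 6) : fs s (x i) = idt s (X i) := by
  rw [fs_apply]
  have h : ∀ b, sg b = ((isg b : ℤ) : ℝ) := by intro b; cases b <;> simp [sg, isg]
  rw [h, h, h]
  simp only [x, idt]
  push_cast
  rfl

lemma fs_le (s : Bool × Bool × Bool) {v : E} (hv : v ∈ Oc 1) : fs s v ≤ 1 := by
  rw [fs_apply]
  exact (dt_le_abs s (fun i => v i)).trans hv

lemma fs_ge (s : Bool × Bool × Bool) {v : E} (hv : v ∈ Oc 1) : -1 ≤ fs s v := by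
  have h := fs_le s (neg_Oc v hv)
  rw [map_neg] at h
  linarith

lemma fs_ne (s : Bool × Bool × Bool) : fs s ≠ 0 := by
  intro h
  have h1 : fs s (EuclideanSpace.single 0 1) = 0 := by rw [h]; rfl
  rw [fs_apply] at h1
  simp at h1
  rcases sg_cases s.1 with h' | h' <;> rw [h'] at h1 <;> norm_num at h1


lemma x_mem_add (i : Fin 6) (v : E) (hv : v ∈ Oc 1) : x i + v ∈ Oc 2 := by
  have h1 : |(x i) 0| + |(x i) 1| + |(x i) 2| ≤ 1 := by
    fin_cases i <;> simp [x, X]
  have hv' : |v 0| + |v 1| + |v 2| ≤ 1 := hv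
  show |(x i + v) 0| + |(x i + v) 1| + |(x i + v) 2| ≤ 2
  simp only [PiLp.add_apply]
  have a0 := abs_add_le ((x i) 0) (v 0)
  have a1 := abs_add_le ((x i) 1) (v 1)
  have a2 := abs_add_le ((x i) 2) (v 2)
  linarith

lemma hull_x : convexHull ℝ (⋃ i, (fun v => x i + v) '' Oc 1) ⊆ Oc 2 := by
  apply convexHull_min _ (convex_Oc 2)
  intro z hz
  simp only [mem_iUnion] at hz
  obtain ⟨i, v, hv, rfl⟩ := hz
  exact x_mem_add i v hv

/-- separated translates have centres at distance at least two in the sum norm -/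
lemma sep_dist {p q : E} {f : E →L[ℝ] ℝ} {c : ℝ} (hf : f ≠ 0)
    (h1 : ∀ v ∈ Oc 1, f (p + v) ≤ c) (h2 : ∀ v ∈ Oc 1, c ≤ f (q + v)) :
    2 ≤ |(q - p) 0| + |(q - p) 1| + |(q - p) 2| := by
  let e : Fin 3 → E := fun k => EuclideanSpace.single k 1
  have he : ∀ z : E, z = z 0 • e 0 + z 1 • e 1 + z 2 • e 2 := by
    intro z
    ext k
    fin_cases k <;> simp [e]
  have hex : ∀ z : E, f z = z 0 * f (e 0) + z 1 * f (e 1) + z 2 * f (e 2) := by
    intro z
    conv_lhs => rw [he z]
    simp only [map_add, map_smul, smul_eq_mul]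
  have hmem : ∀ k, e k ∈ Oc 1 := by
    intro k
    fin_cases k <;> simp [e, Oc]
  have hk : ∀ k, 2 * |f (e k)| ≤ f (q - p) := by
    intro k
    have u1 := h1 _ (hmem k)
    have u2 := h1 _ (neg_Oc _ (hmem k))
    have u3 := h2 _ (hmem k)
    have u4 := h2 _ (neg_Oc _ (hmem k))
    simp only [map_add, map_neg] at u1 u2 u3 u4
    rw [map_sub]
    rcases abs_cases (f (e k)) with ⟨h, _⟩ | ⟨h, _⟩ <;> rw [h] <;> linarith
  have hpos : 0 < f (q - p) := by
    by_contra hneg
    push Not at hneg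
    apply hf
    ext z
    have z0 : ∀ k, f (e k) = 0 := by
      intro k
      have := hk k
      have h3 := abs_nonneg (f (e k))
      have h4 : |f (e k)| = 0 := by linarith
      exact abs_eq_zero.mp h4
    rw [hex z, z0, z0, z0]
    simp
  have hle : f (q - p) ≤ (|(q - p) 0| + |(q - p) 1| + |(q - p) 2|) * (f (q - p) / 2) := by
    have hb : ∀ k, (q - p) k * f (e k) ≤ |(q - p) k| * (f (q - p) / 2) := by
      intro k
      refine (le_abs_self _).trans ?_
      rw [abs_mul]
      have := hk k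
      gcongr
      linarith
    have b0 := hb 0
    have b1 := hb 1
    have b2 := hb 2
    have := hex (q - p)
    linarith
  by_contra hlt
  push Not at hlt
  nlinarith

/-- six reals at mutual distance at least two span at least ten -/
lemma six_reals (r : Fin 6 → ℝ) (h : ∀ i j, i ≠ j → 2 ≤ |r i - r j|) :
    ∃ i j, 10 ≤ r j - r i := by
  obtain ⟨i, hi⟩ := Finite.exists_min r
  refine ⟨i, ?_⟩
  by_contra hc
  push Not at hc
  obtain ⟨a, _, b, _, hab, he⟩ := Finset.exists_ne_map_eq_of_card_lt_of_maps_to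
    (s := (Finset.univ : Finset (Fin 6))) (t := Finset.range 5)
    (f := fun j => ⌊(r j - r i) / 2⌋₊) (by simp) (by
      intro j _
      simp only [Finset.coe_range, mem_Iio]
      rw [Nat.floor_lt (by have := hi j; linarith)]
      have := hc j
      push_cast
      linarith)
  have h1 := h a b hab
  have fa := Nat.floor_le (a := (r a - r i) / 2) (by have := hi a; linarith)
  have fa' := Nat.lt_floor_add_one ((r a - r i) / 2)
  have fb := Nat.floor_le (a := (r b - r i) / 2) (by have := hi b; linarith)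
  have fb' := Nat.lt_floor_add_one ((r b - r i) / 2)
  rw [he] at fa fa'
  rcases abs_cases (r a - r b) with ⟨h2, _⟩ | ⟨h2, _⟩ <;> rw [h2] at h1 <;> linarith

lemma hull_y (y : Fin 6 → E) (hcol : Collinear ℝ (Set.range y))
    (hsep : ∀ i j : Fin 6, i ≠ j → 2 ≤ |(y j - y i) 0| + |(y j - y i) 1| + |(y j - y i) 2|) :
    volume (oct 1) + ENNReal.ofReal 10 ≤
      volume (convexHull ℝ (⋃ i, (fun v => y i + v) '' Oc 1)) := by
  obtain ⟨p0, v, hv⟩ := (collinear_iff_exists_forall_eq_smul_vadd (k := ℝ) (Set.range y)).mp hcol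
  choose r hr using fun i => hv (y i) (mem_range_self i)
  have hdiff : ∀ i j, y j - y i = (r j - r i) • v := by
    intro i j
    rw [hr i, hr j]
    simp only [vadd_eq_add]
    module
  let L := |v 0| + |v 1| + |v 2|
  have hL : 0 ≤ L := by positivity
  have hn : ∀ i j, |(y j - y i) 0| + |(y j - y i) 1| + |(y j - y i) 2| = |r j - r i| * L := by
    intro i j
    rw [hdiff]
    simp only [PiLp.smul_apply, smul_eq_mul, abs_mul, L]
    ring
  obtain ⟨i, j, hij⟩ := six_reals (fun i => r i * L) (by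
    intro i j hne
    have h1 := hsep j i hne.symm
    rw [hn, ← abs_of_nonneg hL, ← abs_mul] at h1
    show 2 ≤ |r i * L - r j * L|
    rw [← sub_mul]
    exact h1)
  have hlen : 10 ≤ |(y j - y i) 0| + |(y j - y i) 1| + |(y j - y i) 2| := by
    rw [hn]
    simp only at hij
    have : (r j - r i) * L ≤ |r j - r i| * L := by gcongr; exact le_abs_self _
    linarith
  -- the two extreme translates already give the bound
  let w : Fin 3 → ℝ := fun k => (y j - y i) k
  have hU := volume_U w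
  have hpres := (PiLp.volume_preserving_ofLp (Fin 3)).measure_preimage
    (measurableSet_U w).nullMeasurableSet
  have hsub : (fun z : E => -(y i) + z) ⁻¹' ((@WithLp.ofLp 2 (Fin 3 → ℝ)) ⁻¹' (U w)) ⊆
      convexHull ℝ (⋃ i, (fun v => y i + v) '' Oc 1) := by
    intro z hz
    obtain ⟨f, hf, t, ht0, ht1, he⟩ := U_subset w hz
    let f' : E := WithLp.toLp 2 f
    have hf' : f' ∈ Oc 1 := hf
    have hz' : z = (1 - t) • (y i + f') + t • (y j + f') := by
      have h1 : -(y i) + z = f' + t • (y j - y i) := by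
        ext k
        have := congrFun he k
        simpa [f', w] using this
      have h2 : z = y i + (-(y i) + z) := by abel
      rw [h2, h1]
      module
    rw [hz']
    have hm : ∀ k, y k + f' ∈ convexHull ℝ (⋃ i, (fun v => y i + v) '' Oc 1) := by
      intro k
      apply subset_convexHull
      exact mem_iUnion.mpr ⟨k, f', hf', rfl⟩
    exact (convex_convexHull ℝ _) (hm i) (hm j) (by linarith) ht0 (by ring)
  calc volume (oct 1) + ENNReal.ofReal 10
      ≤ volume (oct 1) + ENNReal.ofReal (|w 0| + |w 1| + |w 2|) := by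
        gcongr
    _ ≤ volume (U w) := hU
    _ = volume ((fun z : E => -(y i) + z) ⁻¹' ((@WithLp.ofLp 2 (Fin 3 → ℝ)) ⁻¹' (U w))) := by
        rw [measure_preimage_add]
        exact hpres.symm
    _ ≤ _ := measure_mono hsub

/-- The negation of the preceding statement: For d≥3, any o-symmetric convex body C in R^d and n>1, some totally separable packing of n translates of C with collinear centers has convex hull volume no larger than that of any totally separable packing of n translates of C. -/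
theorem result :
    ¬ (∀ d : ℕ, 3 ≤ d → ∀ C : Set (EuclideanSpace ℝ (Fin d)),
    Convex ℝ C → IsCompact C → (interior C).Nonempty → (∀ v ∈ C, -v ∈ C) →
    ∀ n : ℕ, 1 < n →
    ∃ y : Fin n → EuclideanSpace ℝ (Fin d),
      Collinear ℝ (Set.range y) ∧
      (∀ i j : Fin n, i ≠ j → ∃ f : EuclideanSpace ℝ (Fin d) →L[ℝ] ℝ, ∃ c : ℝ, f ≠ 0 ∧
         (∀ v ∈ C, f (y i + v) ≤ c) ∧ (∀ v ∈ C, c ≤ f (y j + v)) ∧
         ∀ k : Fin n, (∀ v ∈ C, f (y k + v) ≤ c) ∨ (∀ v ∈ C, c ≤ f (y k + v))) ∧
      ∀ x : Fin n → EuclideanSpace ℝ (Fin d),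
        (∀ i j : Fin n, i ≠ j → ∃ f : EuclideanSpace ℝ (Fin d) →L[ℝ] ℝ, ∃ c : ℝ, f ≠ 0 ∧
           (∀ v ∈ C, f (x i + v) ≤ c) ∧ (∀ v ∈ C, c ≤ f (x j + v)) ∧
           ∀ k : Fin n, (∀ v ∈ C, f (x k + v) ≤ c) ∨ (∀ v ∈ C, c ≤ f (x k + v))) →
        MeasureTheory.volume (convexHull ℝ (⋃ i, (fun v => y i + v) '' C)) ≤
          MeasureTheory.volume (convexHull ℝ (⋃ i, (fun v => x i + v) '' C))) := by
  intro H
  obtain ⟨y, hcol, hsep, hmin⟩ := H 3 le_rfl (Oc 1) (convex_Oc 1) isCompact_Oc interior_Oc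
    neg_Oc 6 (by norm_num)
  have h1 := hull_y y hcol (by
    intro i j hne
    obtain ⟨f, c, hf, ha, hb, _⟩ := hsep i j hne
    exact sep_dist hf ha hb)
  have h2 := hmin x (by
    intro i j hne
    obtain ⟨s, hi, hj, hk⟩ := comb i j hne
    have lo : ∀ k, idt s (X k) = -1 → ∀ v ∈ Oc 1, fs s (x k + v) ≤ 0 := by
      intro k hk v hv
      rw [map_add, fs_x, hk]
      have := fs_le s hv
      push_cast
      linarith
    have hi' : ∀ k, idt s (X k) = 1 → ∀ v ∈ Oc 1, 0 ≤ fs s (x k + v) := by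
      intro k hk v hv
      rw [map_add, fs_x, hk]
      have := fs_ge s hv
      push_cast
      linarith
    refine ⟨fs s, 0, fs_ne s, lo i hi, hi' j hj, ?_⟩
    intro k
    rcases hk k with h | h
    · exact Or.inl (lo k h)
    · exact Or.inr (hi' k h))
  have h3 := (h1.trans h2).trans (measure_mono hull_x)
  rw [volume_Oc 2 (by norm_num), volume_oct 1 (by norm_num), ← ENNReal.ofReal_add (by norm_num)
    (by norm_num), ENNReal.ofReal_le_ofReal_iff (by norm_num)] at h3
  norm_num at h3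

end Pool.Agent.S05314
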