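import Pool.Statements.S05333
-- import your own Pool.Agent.* helpers here

set_option autoImplicit false
open Filter Topology
open Pool Pool.MP_3c9ffc_co

namespace Pool.Agent.S05333

open SimpleGraph

/-- An odd closed walk contains an odd cycle that is not longer. -/
theorem exists_odd_cycle {V : Type} (G : SimpleGraph V) :
    ∀ n : ℕ, ∀ (v : V) (w : G.Walk v v), w.length = n → Odd n →
      ∃ (u : V) (c : G.Walk u u), c.IsCycle ∧ Odd c.length ∧ c.length ≤ n := by
  intro n
  induction n using Nat.strong_induction_on with
  | _ n ih =>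
    intro v w hw hodd
    by_cases h : ∃ i j, i < j ∧ j ≤ n ∧ (0 < i ∨ j < n) ∧ w.getVert i = w.getVert j
    · obtain ⟨i, j, hij, hjn, hne, heq⟩ := h
      have h1 : (((w.drop i).take (j - i)).copy rfl (show (w.drop i).getVert (j - i) = w.getVert i by
          rw [Walk.drop_getVert, heq]; congr 1; omega)).length = j - i := by
        rw [Walk.length_copy, Walk.take_length, Walk.drop_length, hw]; omega
      have h2 : ((w.take i).append ((w.drop j).copy heq.symm rfl)).length = n - (j - i) := by
        rw [Walk.length_append, Walk.length_copy, Walk.take_length, Walk.drop_length, hw]; omega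
      rcases Nat.even_or_odd (j - i) with he | ho
      · have hodd' : Odd (n - (j - i)) := by
          rw [Nat.odd_sub (by omega)]
          exact ⟨fun _ => he, fun _ => hodd⟩
        obtain ⟨u, c, hc1, hc2, hc3⟩ := ih (n - (j - i)) (by omega) _ _ h2 hodd'
        exact ⟨u, c, hc1, hc2, by omega⟩
      · obtain ⟨u, c, hc1, hc2, hc3⟩ := ih (j - i) (by omega) _ _ h1 ho
        exact ⟨u, c, hc1, hc2, by omega⟩
    · refine ⟨v, w, ?_, hw ▸ hodd, hw.le⟩
      push Not at h
      have hn3 : 3 ≤ n := by
        rcases hodd with ⟨m, hm⟩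
        by_contra hlt
        have hn1 : n = 1 := by omega
        have := w.adj_getVert_succ (i := 0) (by omega)
        rw [Walk.getVert_zero] at this
        have h1 : w.getVert (0 + 1) = v := by
          have := w.getVert_length
          rw [hw, hn1] at this
          simpa using this
        rw [h1] at this
        exact G.loopless.irrefl _ this
      rw [Walk.isCycle_iff_isPath_tail_and_le_length]
      refine ⟨?_, by omega⟩
      rw [← Walk.IsPath.getVert_injOn_iff]
      have hlen : w.tail.length + 1 = n := by
        rw [Walk.length_tail_add_one, hw]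
        intro hnil
        have := Walk.length_eq_zero_iff.mpr hnil
        omega
      intro i hi j hj hij
      simp only [Set.mem_ofPred_eq] at hi hj
      rw [Walk.getVert_tail, Walk.getVert_tail] at hij
      by_contra hne
      rcases Nat.lt_or_gt_of_ne hne with hlt | hlt
      · exact h (i + 1) (j + 1) (by omega) (by omega) (Or.inl (by omega)) hij
      · exact h (j + 1) (i + 1) (by omega) (by omega) (Or.inl (by omega)) hij.symm

section Balls

variable {V : Type} [DecidableEq V] (G : SimpleGraph V)

open Classical in
/-- Balls around `v` inside the vertex set `S`. -/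
noncomputable def ball (S : Finset V) (v : V) : ℕ → Finset V
  | 0 => {v}
  | i + 1 => ball S v i ∪ S.filter (fun x => ∃ y ∈ ball S v i, G.Adj y x)

open Classical in
theorem ball_succ (S : Finset V) (v : V) (i : ℕ) :
    ball G S v (i + 1) =
      ball G S v i ∪ S.filter (fun x => ∃ y ∈ ball G S v i, G.Adj y x) := rfl

theorem ball_mono_succ (S : Finset V) (v : V) (i : ℕ) :
    ball G S v i ⊆ ball G S v (i + 1) := by
  simp [ball, Finset.subset_union_left]

theorem ball_mono (S : Finset V) (v : V) {i j : ℕ} (h : i ≤ j) :
    ball G S v i ⊆ ball G S v j := by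
  induction h with
  | refl => exact subset_rfl
  | step _ ih => exact ih.trans (ball_mono_succ G S v _)

theorem ball_subset (S : Finset V) (v : V) (hv : v ∈ S) (i : ℕ) :
    ball G S v i ⊆ S := by
  classical
  induction i with
  | zero => simpa [ball] using hv
  | succ i ih =>
    rw [ball_succ]
    exact Finset.union_subset ih (Finset.filter_subset _ _)

theorem mem_ball_succ_of_adj (S : Finset V) (v : V) (i : ℕ) {x y : V} (hx : x ∈ ball G S v i)
    (hy : y ∈ S) (h : G.Adj x y) : y ∈ ball G S v (i + 1) := by
  simp only [ball, Finset.mem_union, Finset.mem_filter]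
  exact Or.inr ⟨hy, x, hx, h⟩

/-- points first reached at step `i` are joined to `v` by a walk of length `i` -/
theorem walk_of_layer (S : Finset V) (v : V) : ∀ (i : ℕ) (x : V), x ∈ ball G S v i →
    (∀ j < i, x ∉ ball G S v j) → ∃ w : G.Walk v x, w.length = i := by
  intro i
  induction i with
  | zero =>
    intro x hx _
    simp only [ball, Finset.mem_singleton] at hx
    subst hx
    exact ⟨Walk.nil, rfl⟩
  | succ i ih =>
    intro x hx hlt
    simp only [ball, Finset.mem_union, Finset.mem_filter] at hx
    rcases hx with hx | ⟨hxS, y, hy, hadj⟩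
    · exact absurd hx (hlt i (by omega))
    · have : ∀ j < i, y ∉ ball G S v j := by
        intro j hj hyj
        exact hlt (j + 1) (by omega) (mem_ball_succ_of_adj G S v j hyj hxS hadj)
      obtain ⟨w, hw⟩ := ih y hy this
      exact ⟨w.concat hadj, by simp [hw]⟩

theorem ball_const (S : Finset V) (v : V) (i : ℕ) (h : ball G S v (i + 1) = ball G S v i) :
    ∀ j, i ≤ j → ball G S v (j + 1) = ball G S v j := by
  intro j hj
  induction hj with
  | refl => exact h
  | @step k hj ih =>
    rw [ball_succ G S v (k + 1), ih, ← ball_succ G S v k]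
    exact ih

theorem card_ball_ge (S : Finset V) (v : V) (i : ℕ) (h : ball G S v (i + 1) ≠ ball G S v i) :
    i + 1 ≤ (ball G S v i).card := by
  induction i with
  | zero => simp [ball]
  | succ i ih =>
    have h' : ball G S v (i + 1) ≠ ball G S v i := by
      intro he
      exact h (ball_const G S v i he (i + 1) (by omega))
    have h1 := ih h'
    have h2 : (ball G S v i).card < (ball G S v (i + 1)).card :=
      Finset.card_lt_card (lt_of_le_of_ne (ball_mono_succ G S v i) (Ne.symm h'))
    omega

/-- A small ball contains an independent set with at least half of its points. -/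
theorem half_indep (S : Finset V) (v : V) (hv : v ∈ S) (m : ℕ)
    (hodd : ∀ (u : V) (w : G.Walk u u), Odd w.length → 2 * m + 1 < w.length) :
    ∃ J ⊆ ball G S v m, G.IsIndepSet (J : Set V) ∧ (ball G S v m).card ≤ 2 * J.card := by
  classical
  -- index of a point of the ball
  have hex : ∀ x ∈ ball G S v m, ∃ i, x ∈ ball G S v i := fun x hx => ⟨m, hx⟩
  let idx : V → ℕ := fun x => if hx : ∃ i, x ∈ ball G S v i then Nat.find hx else 0
  have idx_spec : ∀ x ∈ ball G S v m, x ∈ ball G S v (idx x) ∧ (∀ j < idx x, x ∉ ball G S v j) ∧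
      idx x ≤ m := by
    intro x hx
    have h := hex x hx
    simp only [idx, dif_pos h]
    exact ⟨Nat.find_spec h, fun j hj => Nat.find_min h hj, Nat.find_min' h hx⟩
  have hSsub : ball G S v m ⊆ S := ball_subset G S v hv m
  have idx_adj : ∀ x ∈ ball G S v m, ∀ y ∈ ball G S v m, G.Adj x y → idx y ≤ idx x + 1 := by
    intro x hx y hy hadj
    by_contra hlt
    push Not at hlt
    exact (idx_spec y hy).2.1 (idx x + 1) hlt
      (mem_ball_succ_of_adj G S v _ (idx_spec x hx).1 (hSsub hy) hadj)
  have noadj : ∀ x ∈ ball G S v m, ∀ y ∈ ball G S v m, (Even (idx x) ↔ Even (idx y)) →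
      ¬ G.Adj x y := by
    intro x hx y hy hpar hadj
    have h1 := idx_adj x hx y hy hadj
    have h2 := idx_adj y hy x hx hadj.symm
    have h3 : idx x = idx y := by
      rcases Nat.even_or_odd (idx x) with he | ho
      · have he' := hpar.mp he
        obtain ⟨a, ha⟩ := he
        obtain ⟨b, hb⟩ := he'
        omega
      · have ho' : Odd (idx y) := by
          rw [← Nat.not_even_iff_odd] at ho ⊢
          exact fun h => ho (hpar.mpr h)
        obtain ⟨a, ha⟩ := ho
        obtain ⟨b, hb⟩ := ho'
        omega
    obtain ⟨hx1, hx2, hx3⟩ := idx_spec x hx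
    obtain ⟨hy1, hy2, hy3⟩ := idx_spec y hy
    obtain ⟨w1, hw1⟩ := walk_of_layer G S v (idx x) x hx1 hx2
    obtain ⟨w2, hw2⟩ := walk_of_layer G S v (idx y) y hy1 hy2
    have := hodd v ((w1.concat hadj).append w2.reverse) (by
      rw [Walk.length_append, Walk.length_concat, Walk.length_reverse, hw1, hw2, h3]
      exact ⟨idx y, by ring⟩)
    rw [Walk.length_append, Walk.length_concat, Walk.length_reverse, hw1, hw2] at this
    omega
  let E := (ball G S v m).filter (fun x => Even (idx x))
  let O := (ball G S v m).filter (fun x => ¬ Even (idx x))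
  have hcard : E.card + O.card = (ball G S v m).card :=
    Finset.card_filter_add_card_filter_not _
  have hE : G.IsIndepSet (E : Set V) := by
    intro x hx y hy _
    simp only [E, Finset.coe_filter, Set.mem_ofPred_eq] at hx hy
    exact noadj x hx.1 y hy.1 ⟨fun _ => hy.2, fun _ => hx.2⟩
  have hO : G.IsIndepSet (O : Set V) := by
    intro x hx y hy _
    simp only [O, Finset.coe_filter, Set.mem_ofPred_eq] at hx hy
    exact noadj x hx.1 y hy.1 ⟨fun h => absurd h hx.2, fun h => absurd h hy.2⟩
  rcases le_total E.card O.card with h | h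
  · exact ⟨O, Finset.filter_subset _ _, hO, by omega⟩
  · exact ⟨E, Finset.filter_subset _ _, hE, by omega⟩

/-- Some layer in the window `[r, 2r)` is small. -/
theorem exists_small_layer [Fintype V] (S : Finset V) (v : V) (r : ℕ) (hr : 0 < r) :
    ∃ i, r ≤ i ∧ i < 2 * r ∧
      r * ((ball G S v (i + 1)).card - (ball G S v i).card) ≤ Fintype.card V := by
  by_contra hcon
  push Not at hcon
  have key : ∀ k ≤ r, k * Fintype.card V + r * (ball G S v r).card ≤
      r * (ball G S v (r + k)).card := by
    intro k
    induction k with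
    | zero => intro _; simp
    | succ k ih =>
      intro hk
      have h1 := ih (by omega)
      have h2 := hcon (r + k) (by omega) (by omega)
      have h3 : (ball G S v (r + k)).card ≤ (ball G S v (r + k + 1)).card :=
        Finset.card_le_card (ball_mono_succ G S v _)
      have h4 : r * ((ball G S v (r + k + 1)).card - (ball G S v (r + k)).card) +
          r * (ball G S v (r + k)).card = r * (ball G S v (r + k + 1)).card := by
        rw [← Nat.mul_add, Nat.sub_add_cancel h3]
      have h5 : (k + 1) * Fintype.card V = k * Fintype.card V + Fintype.card V := by ring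
      rw [← Nat.add_assoc r k 1]
      omega
  have h1 := key r le_rfl
  have h2 : (ball G S v (r + r)).card ≤ Fintype.card V := Finset.card_le_univ _
  have h3 : r * (ball G S v (r + r)).card ≤ r * Fintype.card V := Nat.mul_le_mul_left _ h2
  have h4 : 0 < (ball G S v r).card := by
    apply Finset.card_pos.mpr
    exact ⟨v, ball_mono G S v (Nat.zero_le r) (by simp [ball])⟩
  have h5 : 0 < r * (ball G S v r).card := Nat.mul_pos hr h4
  omega

/-- Main lemma: without short odd closed walks there is a large independent set. -/
theorem large_indep [Fintype V] (r : ℕ) (hr : 0 < r)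
    (hodd : ∀ (u : V) (w : G.Walk u u), Odd w.length → 4 * r + 1 < w.length) :
    ∀ (m : ℕ) (S : Finset V), S.card = m → ∃ I ⊆ S, G.IsIndepSet (I : Set V) ∧
      r ^ 2 * S.card ≤ r ^ 2 * (2 * I.card) + Fintype.card V * S.card := by
  classical
  intro m
  induction m using Nat.strong_induction_on with
  | _ m ih =>
    intro S hS
    rcases S.eq_empty_or_nonempty with he | ⟨v, hv⟩
    · subst he
      exact ⟨∅, subset_rfl, by simp [IsIndepSet], by simp⟩
    · obtain ⟨i, hi1, hi2, hi3⟩ := exists_small_layer G S v r hr
      set B := ball G S v i with hB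
      set B' := ball G S v (i + 1) with hB'
      have hBB' : B ⊆ B' := ball_mono_succ G S v i
      have hB'S : B' ⊆ S := ball_subset G S v hv (i + 1)
      obtain ⟨J, hJB, hJind, hJcard⟩ := half_indep G S v hv i (fun u w hw => by
        have := hodd u w hw
        omega)
      have hvB : v ∈ B := ball_mono G S v (Nat.zero_le i) (by simp [ball])
      have hcardS : (S \ B').card + B'.card = S.card := Finset.card_sdiff_add_card_eq_card hB'S
      have hB'pos : 0 < B'.card := Finset.card_pos.mpr ⟨v, hBB' hvB⟩
      obtain ⟨I', hI'sub, hI'ind, hI'card⟩ := ih (S \ B').card (by omega) (S \ B') rfl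
      have hdisj : Disjoint I' J := by
        rw [Finset.disjoint_left]
        intro x hx hxJ
        have h1 := hI'sub hx
        rw [Finset.mem_sdiff] at h1
        exact h1.2 (hBB' (hJB hxJ))
      refine ⟨I' ∪ J, ?_, ?_, ?_⟩
      · apply Finset.union_subset
        · exact hI'sub.trans Finset.sdiff_subset
        · exact (hJB.trans hBB').trans hB'S
      · have hcross : ∀ x ∈ I', ∀ y ∈ J, ¬ G.Adj y x := by
          intro x hx y hy hadj
          have h1 := hI'sub hx
          rw [Finset.mem_sdiff] at h1
          exact h1.2 (mem_ball_succ_of_adj G S v i (hJB hy) h1.1 hadj)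
        intro x hx y hy hxy hadj
        simp only [Finset.coe_union, Set.mem_union, Finset.mem_coe] at hx hy
        rcases hx with hx | hx <;> rcases hy with hy | hy
        · exact hI'ind hx hy hxy hadj
        · exact hcross x hx y hy hadj.symm
        · exact hcross y hy x hx hadj
        · exact hJind hx hy hxy hadj
      · rw [Finset.card_union_of_disjoint hdisj]
        have hlay : r ^ 2 * (B'.card - B.card) ≤ Fintype.card V * B'.card := by
          by_cases heq : B' = B
          · rw [heq]; simp
          · have h1 : i + 1 ≤ B.card := card_ball_ge G S v i heq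
            have h2 : r ≤ B'.card := by
              have := Finset.card_le_card hBB'
              omega
            calc r ^ 2 * (B'.card - B.card) = r * (r * (B'.card - B.card)) := by ring
              _ ≤ r * Fintype.card V := Nat.mul_le_mul_left _ hi3
              _ ≤ B'.card * Fintype.card V := Nat.mul_le_mul_right _ h2
              _ = _ := by ring
        have hBle : B.card ≤ B'.card := Finset.card_le_card hBB'
        have h3 : r ^ 2 * (B'.card - B.card) + r ^ 2 * B.card = r ^ 2 * B'.card := by
          rw [← Nat.mul_add, Nat.sub_add_cancel hBle]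
        have h4 : r ^ 2 * B.card ≤ r ^ 2 * (2 * J.card) := Nat.mul_le_mul_left _ hJcard
        have h5 : r ^ 2 * S.card = r ^ 2 * (S \ B').card + r ^ 2 * B'.card := by
          rw [← hcardS]; ring
        have h6 : Fintype.card V * S.card =
            Fintype.card V * (S \ B').card + Fintype.card V * B'.card := by
          rw [← hcardS]; ring
        have h7 : r ^ 2 * (2 * (I'.card + J.card)) =
            r ^ 2 * (2 * I'.card) + r ^ 2 * (2 * J.card) := by ring
        omega

end Balls

/-- The quantitative form: on `n = 2α+p` vertices there is an odd cycle of length at most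
`8α/√p + 4√p + 5`. -/
theorem quantitative (n p α : ℕ) (hp : 1 ≤ p) (hn : n = 2 * α + p) (G : SimpleGraph (Fin n))
    (hα : ∀ s : Finset (Fin n), G.IsIndepSet (s : Set (Fin n)) → s.card ≤ α) :
    ∃ v : Fin n, ∃ w : G.Walk v v, w.IsCycle ∧ Odd w.length ∧
      (w.length : ℝ) ≤ 8 / Real.sqrt p * (α : ℝ) + (4 * Real.sqrt p + 5) := by
  have hp' : (0 : ℝ) < Real.sqrt p := Real.sqrt_pos.mpr (by exact_mod_cast hp)
  set r : ℕ := ⌊(n : ℝ) / Real.sqrt p⌋₊ + 1 with hr
  have hr0 : 0 < r := by omega
  have hrlt : (n : ℝ) / Real.sqrt p < r := by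
    rw [hr]; push_cast; exact Nat.lt_floor_add_one _
  have hrle : (r : ℝ) ≤ (n : ℝ) / Real.sqrt p + 1 := by
    rw [hr]; push_cast
    have := Nat.floor_le (show 0 ≤ (n : ℝ) / Real.sqrt p by positivity)
    linarith
  -- n^2 < p r^2
  have hsq : n * n < r ^ 2 * p := by
    have h1 : (n : ℝ) < r * Real.sqrt p := by rwa [div_lt_iff₀ hp'] at hrlt
    have h2 : (n : ℝ) * n < (r * Real.sqrt p) * (r * Real.sqrt p) := by
      apply mul_self_lt_mul_self (by positivity) h1
    have h3 : (r * Real.sqrt p) * (r * Real.sqrt p) = (r : ℝ) ^ 2 * p := by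
      have := Real.mul_self_sqrt (show (0 : ℝ) ≤ p by positivity)
      calc (r * Real.sqrt p) * (r * Real.sqrt p) = (r : ℝ) ^ 2 * (Real.sqrt p * Real.sqrt p) := by
            ring
        _ = _ := by rw [this]
    rw [h3] at h2
    exact_mod_cast h2
  have hex : ∃ (u : Fin n) (w : G.Walk u u), Odd w.length ∧ w.length ≤ 4 * r + 1 := by
    by_contra hcon
    push Not at hcon
    obtain ⟨I, -, hI, hcard⟩ := large_indep G r hr0 (fun u w hw => hcon u w hw) n Finset.univ
      (by simp)
    have h1 := hα I hI
    simp only [Finset.card_univ, Fintype.card_fin] at hcard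
    have h2 : r ^ 2 * (2 * I.card) ≤ r ^ 2 * (2 * α) :=
      Nat.mul_le_mul_left _ (by omega)
    have h3 : r ^ 2 * n = r ^ 2 * (2 * α) + r ^ 2 * p := by rw [hn]; ring
    omega
  obtain ⟨u, w, hodd, hlen⟩ := hex
  obtain ⟨v, c, hc1, hc2, hc3⟩ := exists_odd_cycle G w.length u w rfl hodd
  refine ⟨v, c, hc1, hc2, ?_⟩
  have h1 : (c.length : ℝ) ≤ 4 * r + 1 := by exact_mod_cast hc3.trans hlen
  have h2 : (n : ℝ) / Real.sqrt p = 2 * α / Real.sqrt p + Real.sqrt p := by
    have h3 : (n : ℝ) = 2 * α + p := by rw [hn]; push_cast; ring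
    rw [h3, add_div, Real.div_sqrt]
  have h3 : (8 / Real.sqrt p) * (α : ℝ) = 4 * (2 * α / Real.sqrt p) := by ring
  rw [h3]
  linarith

/-- There are constants c_p ≥ 0 tending to 0 such that, for each p ≥ 1, every graph on 2α+p vertices with no independent set of size α+1 has an odd cycle of length at most c_p·α + o(α). -/
theorem result :
    ∃ c : ℕ → ℝ, (∀ p, 0 ≤ c p) ∧ Tendsto c atTop (𝓝 0) ∧
      ∀ p : ℕ, 1 ≤ p →
        ∃ e : ℕ → ℝ, Tendsto (fun α : ℕ => e α / (α : ℝ)) atTop (𝓝 0) ∧
          ∀ α : ℕ, ∀ G : SimpleGraph (Fin (2 * α + p)),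
            (∀ s : Finset (Fin (2 * α + p)), G.IsIndepSet (s : Set (Fin (2 * α + p))) → s.card ≤ α) →
            ∃ v : Fin (2 * α + p), ∃ w : G.Walk v v,
              w.IsCycle ∧ Odd w.length ∧ (w.length : ℝ) ≤ c p * (α : ℝ) + e α := by
  refine ⟨fun p => 8 / Real.sqrt p, fun p => by positivity, ?_, ?_⟩
  · exact Tendsto.div_atTop tendsto_const_nhds
      (Real.tendsto_sqrt_atTop.comp tendsto_natCast_atTop_atTop)
  · intro p hp
    refine ⟨fun _ => 4 * Real.sqrt p + 5, ?_, ?_⟩
    · exact Tendsto.div_atTop tendsto_const_nhds tendsto_natCast_atTop_atTop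
    · intro α G hα
      exact quantitative (2 * α + p) p α hp rfl G hα

end Pool.Agent.S05333
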