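import Pool.Statements.S05340
import Pool.Agent.Helper822.SpherePair

set_option autoImplicit false
open Pool Pool.MP_3d13a5_co

namespace Pool.Agent.S05340

open Set Filter Topology Metric
open Pool.Agent.Helper822.Sphere

abbrev E6 := EuclideanSpace ℝ (Fin 6)
abbrev E7 := EuclideanSpace ℝ (Fin 7)

/-- The all-ones vector. -/
noncomputable def ones : E7 := WithLp.toLp 2 fun _ => 1

lemma ones_ne : ones ≠ 0 := by
  intro h
  have := congrFun (congrArg (fun v : E7 => v.ofLp) h) 0
  simp [ones] at this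

instance : Fact (Module.finrank ℝ E7 = 6 + 1) := ⟨by simp⟩

/-- The identification of `ℝ^6` with the hyperplane of `ℝ^7` orthogonal to the ones vector. -/
noncomputable def iso : E6 ≃ₗᵢ[ℝ] (ℝ ∙ ones)ᗮ :=
  (OrthonormalBasis.fromOrthogonalSpanSingleton 6 ones_ne).repr.symm

/-- The seven coordinates of a point of `ℝ^6`. -/
noncomputable def co (x : E6) (i : Fin 7) : ℝ := (iso x : E7) i

lemma co_sum (x : E6) : ∑ i, co x i = 0 := by
  have h := (iso x).2
  rw [Submodule.mem_orthogonal_singleton_iff_inner_right] at h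
  simpa [ones, PiLp.inner_apply, co] using h

lemma inner_co (x y : E6) : inner ℝ x y = ∑ i, co x i * co y i := by
  rw [← iso.inner_map_map x y, Submodule.coe_inner, PiLp.inner_apply]
  simp [co, mul_comm]

lemma exists_co (z : Fin 7 → ℝ) (hz : ∑ i, z i = 0) : ∃ x : E6, ∀ i, co x i = z i := by
  have h : (WithLp.toLp 2 z : E7) ∈ (ℝ ∙ ones)ᗮ := by
    rw [Submodule.mem_orthogonal_singleton_iff_inner_right]
    simpa [ones, PiLp.inner_apply] using hz
  refine ⟨iso.symm ⟨_, h⟩, fun i => ?_⟩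
  simp [co]

lemma continuous_co (i : Fin 7) : Continuous fun x : E6 => co x i := by
  unfold co
  have h1 : Continuous fun x : E6 => (iso x : E7) := continuous_subtype_val.comp iso.continuous
  exact (continuous_apply i).comp ((PiLp.continuous_ofLp 2 _).comp h1)

lemma norm_co (x : E6) : ‖x‖ ^ 2 = ∑ i, co x i ^ 2 := by
  rw [← real_inner_self_eq_norm_sq, inner_co]
  exact Finset.sum_congr rfl fun i _ => by ring

/-- The pieces of the covering. -/
def piece (j : Fin 7) : Set E6 := {x | Type1 j (co x) ∨ Type0 j (co x)}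

lemma continuous_FF (A : Finset (Fin 7)) (k : Fin 7) : Continuous fun x : E6 => FF A (co x) k := by
  unfold FF mA
  have h := continuous_co
  fun_prop

lemma isClosed_piece (j : Fin 7) : IsClosed (piece j) := by
  have hco := continuous_co
  have h1 : IsClosed {x : E6 | Type1 j (co x)} := by
    have : {x : E6 | Type1 j (co x)} = ⋃ A : Finset (Fin 7), {x : E6 | A.card = 3 ∧ j ∉ A ∧
        (∀ l, l ∈ A → co x l ≤ 0) ∧ (∀ k, k ∉ A → 0 ≤ co x k) ∧
        ∀ k, k ∉ A → co x k + eps * FF A (co x) k ≤ co x j + eps * FF A (co x) j} := by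
      ext x; simp [Type1]
    rw [this]
    apply isClosed_iUnion_of_finite
    intro A
    have hF := fun k => continuous_FF A k
    refine IsClosed.and isClosed_const (IsClosed.and isClosed_const (IsClosed.and ?_
      (IsClosed.and ?_ ?_)))
    · simp only [ofPred_forall]
      exact isClosed_iInter fun l => isClosed_iInter fun _ => isClosed_le (hco l) continuous_const
    · simp only [ofPred_forall]
      exact isClosed_iInter fun l => isClosed_iInter fun _ => isClosed_le continuous_const (hco l)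
    · simp only [ofPred_forall]
      exact isClosed_iInter fun l => isClosed_iInter fun _ =>
        isClosed_le ((hco l).add (continuous_const.mul (hF l)))
          ((hco j).add (continuous_const.mul (hF j)))
  have h0 : IsClosed {x : E6 | Type0 j (co x)} := by
    have : {x : E6 | Type0 j (co x)} = (⋂ A : Finset (Fin 7), ⋂ _ : A.card = 3,
        ((⋃ l : Fin 7, {x : E6 | l ∈ A ∧ 0 ≤ co x l}) ∪
          ⋃ k : Fin 7, {x : E6 | k ∉ A ∧ co x k ≤ 0})) ∩ ⋂ k : Fin 7, {x | co x k ≤ co x j} := by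
      ext x; simp [Type0]
    rw [this]
    refine IsClosed.inter ?_ ?_
    · refine isClosed_iInter fun A => isClosed_iInter fun _ => IsClosed.union ?_ ?_
      · apply isClosed_iUnion_of_finite
        intro l
        exact IsClosed.and isClosed_const (isClosed_le continuous_const (hco l))
      · apply isClosed_iUnion_of_finite
        intro l
        exact IsClosed.and isClosed_const (isClosed_le (hco l) continuous_const)
    · exact isClosed_iInter fun k => isClosed_le (hco k) (hco j)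
  exact h1.union h0

lemma cover (x : E6) : ∃ j, x ∈ piece j := by
  classical
  by_cases h : ∃ A : Finset (Fin 7), A.card = 3 ∧ (∀ l, l ∈ A → co x l < 0) ∧
      (∀ k, k ∉ A → 0 < co x k)
  · obtain ⟨A, hA, h1, h2⟩ := h
    have hne : (Aᶜ).Nonempty := by
      rw [← Finset.card_pos, Finset.card_compl, hA]; simp
    obtain ⟨j, hj, hmax⟩ := Finset.exists_max_image (Aᶜ) (fun k => co x k + eps * FF A (co x) k) hne
    refine ⟨j, Or.inl ⟨A, hA, by simpa using hj, fun l hl => (h1 l hl).le,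
      fun k hk => (h2 k hk).le, fun k hk => hmax k (by simpa using hk)⟩⟩
  · obtain ⟨j, -, hmax⟩ := Finset.exists_max_image (Finset.univ : Finset (Fin 7))
      (fun k => co x k) ⟨0, Finset.mem_univ 0⟩
    refine ⟨j, Or.inr ⟨?_, fun k => hmax k (Finset.mem_univ k)⟩⟩
    intro A hA
    by_contra hcon
    push Not at hcon
    exact h ⟨A, hA, fun l hl => hcon.1 l hl, fun k hk => hcon.2 k hk⟩

lemma sphere_sum {x : E6} (hx : x ∈ sphere (0 : E6) 1) : ∑ i, co x i ^ 2 = 1 := by
  rw [← norm_co]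
  rw [mem_sphere_zero_iff_norm] at hx
  rw [hx]; norm_num

lemma piece_dist {j : Fin 7} {x y : E6} (hx : x ∈ piece j ∩ sphere (0 : E6) 1)
    (hy : y ∈ piece j ∩ sphere (0 : E6) 1) : dist x y < Real.sqrt (7 / 2) := by
  have h := pair_bound (co_sum x) (co_sum y) (sphere_sum hx.2) (sphere_sum hy.2) j hx.1 hy.1
  rw [← inner_co] at h
  apply Real.lt_sqrt_of_sq_lt
  have hx1 := mem_sphere_zero_iff_norm.1 hx.2
  have hy1 := mem_sphere_zero_iff_norm.1 hy.2
  rw [dist_eq_norm, norm_sub_sq_real, hx1, hy1]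
  linarith

lemma piece_diam (j : Fin 7) : diam (piece j ∩ sphere (0 : E6) 1) < Real.sqrt (7 / 2) := by
  set K := piece j ∩ sphere (0 : E6) 1 with hK
  have hcomp : IsCompact K := (isCompact_sphere (0 : E6) 1).inter_left (isClosed_piece j)
  rcases K.eq_empty_or_nonempty with hne | hne
  · rw [hne, diam_empty]
    exact Real.sqrt_pos.2 (by norm_num)
  · obtain ⟨⟨a, b⟩, hab, hmax⟩ := (hcomp.prod hcomp).exists_isMaxOn (hne.prod hne)
      (f := fun p : E6 × E6 => dist p.1 p.2) (continuous_dist.continuousOn)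
    refine lt_of_le_of_lt (diam_le_of_forall_dist_le dist_nonneg (C := dist a b) ?_)
      (piece_dist hab.1 hab.2)
    intro x hx y hy
    have h3 := isMaxOn_iff.1 hmax (x, y) (mk_mem_prod hx hy)
    exact h3


lemma sum_ite7 (c : ℝ) (i : Fin 7) : ∑ k : Fin 7, c * ((if k = i then (1 : ℝ) else 0) - 1 / 7) = 0 := by
  rw [← Finset.mul_sum, Finset.sum_sub_distrib]
  simp

/-- A regular simplex with vertices on the unit sphere. -/
lemma exists_simplex : ∃ v : Fin 7 → E6, ∀ i k, co (v i) k =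
    Real.sqrt (7 / 6) * ((if k = i then (1 : ℝ) else 0) - 1 / 7) := by
  have h := fun i : Fin 7 => exists_co _ (sum_ite7 (Real.sqrt (7 / 6)) i)
  choose v hv using h
  exact ⟨v, hv⟩

lemma exists_far_pair : ∃ p q : E6, (p ∈ sphere (0 : E6) 1 ∧ ∀ k, co p k ≤ co p 0) ∧
    (q ∈ sphere (0 : E6) 1 ∧ ∀ k, co q k ≤ co q 0) ∧ dist p q = Real.sqrt (7 / 2) := by
  set c : ℝ := Real.sqrt (7 / 12) with hc
  have hc2 : c ^ 2 = 7 / 12 := Real.sq_sqrt (by norm_num)
  have hc0 : 0 ≤ c := Real.sqrt_nonneg _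
  obtain ⟨p, hp⟩ := exists_co ![3 / 7 * c, -(4 / 7) * c, -(4 / 7) * c, -(4 / 7) * c, 3 / 7 * c,
    3 / 7 * c, 3 / 7 * c] (by simp [Fin.sum_univ_succ]; ring)
  obtain ⟨q, hq⟩ := exists_co ![3 / 7 * c, 3 / 7 * c, 3 / 7 * c, 3 / 7 * c, -(4 / 7) * c,
    -(4 / 7) * c, -(4 / 7) * c] (by simp [Fin.sum_univ_succ]; ring)
  have np : ‖p‖ ^ 2 = 1 := by
    rw [norm_co]; simp only [hp]
    simp [Fin.sum_univ_succ]; nlinarith
  have nq : ‖q‖ ^ 2 = 1 := by
    rw [norm_co]; simp only [hq]
    simp [Fin.sum_univ_succ]; nlinarith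
  have ipq : inner ℝ p q = -(3 / 4) := by
    rw [inner_co]; simp only [hp, hq]
    simp [Fin.sum_univ_succ]; nlinarith
  have np1 : ‖p‖ = 1 := (pow_eq_one_iff_of_nonneg (norm_nonneg _) two_ne_zero).1 np
  have nq1 : ‖q‖ = 1 := (pow_eq_one_iff_of_nonneg (norm_nonneg _) two_ne_zero).1 nq
  refine ⟨p, q, ⟨mem_sphere_zero_iff_norm.2 np1, ?_⟩, ⟨mem_sphere_zero_iff_norm.2 nq1, ?_⟩, ?_⟩
  · intro k
    rw [hp, hp]
    fin_cases k <;> simp <;> nlinarith
  · intro k
    rw [hq, hq]
    fin_cases k <;> simp <;> nlinarith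
  · rw [dist_eq_norm, ← Real.sqrt_sq (norm_nonneg (p - q)), norm_sub_sq_real, np, nq, ipq]
    norm_num

/-- The negation of the preceding statement: For every d ≥ 1, whenever the unit sphere in R^d is covered by d+1 sets, some set meets the sphere in diameter at least that of one nearest-vertex cell of an inscribed regular simplex. -/
theorem result :
    ¬ (∀ d : ℕ, 1 ≤ d →
      ∀ v : Fin (d + 1) → EuclideanSpace ℝ (Fin d),
        (∀ i, ‖v i‖ = 1) →
        (∀ i j, i ≠ j → inner ℝ (v i) (v j) = -1 / (d : ℝ)) →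
        ∀ A : Fin (d + 1) → Set (EuclideanSpace ℝ (Fin d)),
          Metric.sphere (0 : EuclideanSpace ℝ (Fin d)) 1 ⊆ ⋃ i, A i →
          ∃ i, Metric.diam {x ∈ Metric.sphere (0 : EuclideanSpace ℝ (Fin d)) 1 |
                  ∀ j, inner ℝ x (v j) ≤ inner ℝ x (v 0)}
                ≤ Metric.diam (A i ∩ Metric.sphere (0 : EuclideanSpace ℝ (Fin d)) 1)) := by
  intro hall
  obtain ⟨v, hv⟩ := exists_simplex
  have hs : (Real.sqrt (7 / 6)) ^ 2 = 7 / 6 := Real.sq_sqrt (by norm_num)
  have hs0 : 0 < Real.sqrt (7 / 6) := Real.sqrt_pos.2 (by norm_num)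
  have hin : ∀ (x : E6) (i : Fin 7), inner ℝ x (v i) = Real.sqrt (7 / 6) * co x i := by
    intro x i
    rw [inner_co]
    have h1 : ∀ k, co x k * co (v i) k = Real.sqrt (7 / 6) * (if k = i then co x k else 0) -
        Real.sqrt (7 / 6) / 7 * co x k := by
      intro k; rw [hv]; split_ifs <;> ring
    rw [Finset.sum_congr rfl fun k _ => h1 k, Finset.sum_sub_distrib, ← Finset.mul_sum,
      ← Finset.mul_sum, co_sum]
    simp
  have hinv : ∀ i j : Fin 7, inner ℝ (v i) (v j) = 7 / 6 * ((if j = i then (1 : ℝ) else 0) - 1 / 7) := by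
    intro i j
    rw [hin, hv]
    linear_combination ((if j = i then (1 : ℝ) else 0) - 1 / 7) * hs
  obtain ⟨i, hi⟩ := hall 6 (by norm_num) v
    (by
      intro i
      have h1 : ‖v i‖ ^ 2 = 1 := by
        rw [← real_inner_self_eq_norm_sq, hinv]; norm_num
      exact (pow_eq_one_iff_of_nonneg (norm_nonneg _) two_ne_zero).1 h1)
    (by
      intro i j hij
      rw [hinv, if_neg (Ne.symm hij)]
      norm_num)
    piece (by
      intro x _
      obtain ⟨j, hj⟩ := cover x
      exact mem_iUnion.2 ⟨j, hj⟩)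
  obtain ⟨p, q, ⟨hp, hp'⟩, ⟨hq, hq'⟩, hpq⟩ := exists_far_pair
  have hbd : Bornology.IsBounded {x ∈ sphere (0 : E6) 1 | ∀ j, inner ℝ x (v j) ≤ inner ℝ x (v 0)} :=
    isBounded_sphere.subset fun x hx => hx.1
  have hmem : ∀ x : E6, x ∈ sphere (0 : E6) 1 → (∀ k, co x k ≤ co x 0) →
      x ∈ {x ∈ sphere (0 : E6) 1 | ∀ j, inner ℝ x (v j) ≤ inner ℝ x (v 0)} := by
    intro x hx hk
    refine ⟨hx, fun j => ?_⟩
    rw [hin, hin]
    exact mul_le_mul_of_nonneg_left (hk j) hs0.le
  have h1 := dist_le_diam_of_mem hbd (hmem p hp hp') (hmem q hq hq')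
  rw [hpq] at h1
  have h2 := piece_diam i
  exact absurd (h1.trans hi) (not_le.2 h2)

end Pool.Agent.S05340
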