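import Pool.Statements.S05344

set_option autoImplicit false
open Pool Pool.MP_3d7919_co

namespace Pool.Agent.S05344

/-- First coordinates of the seven points of the counterexample. -/
def X : Fin 7 → ℤ := ![-3, 0, -1, 3, -15, 12, 19]

/-- Second coordinates of the seven points of the counterexample. -/
def Y : Fin 7 → ℤ := ![3, 1, 3, -7, 10, -19, 12]

/-- The seven points. The point with index `i` has label `i + 1`. -/
noncomputable def pt (i : Fin 7) : EuclideanSpace ℝ (Fin 2) := !₂[(X i : ℝ), (Y i : ℝ)]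

lemma pt_zero (i : Fin 7) : pt i 0 = (X i : ℝ) := by simp [pt]

lemma pt_one (i : Fin 7) : pt i 1 = (Y i : ℝ) := by simp [pt]

lemma X_inj : ∀ i j : Fin 7, X i = X j → i = j := by decide

lemma pt_injective : Function.Injective pt := by
  intro i j h
  have h0 : (X i : ℝ) = (X j : ℝ) := by rw [← pt_zero, ← pt_zero, h]
  exact X_inj i j (by exact_mod_cast h0)

lemma collinear_det {a b c : EuclideanSpace ℝ (Fin 2)}
    (h : Collinear ℝ ({a, b, c} : Set (EuclideanSpace ℝ (Fin 2)))) :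
    (b 0 - a 0) * (c 1 - a 1) - (c 0 - a 0) * (b 1 - a 1) = (0 : ℝ) := by
  rw [collinear_iff_of_mem (p₀ := a) (by simp)] at h
  obtain ⟨v, hv⟩ := h
  obtain ⟨r, hr⟩ := hv b (by simp)
  obtain ⟨t, ht⟩ := hv c (by simp)
  have e1 : b 0 = r * v 0 + a 0 := by rw [hr]; simp
  have e2 : b 1 = r * v 1 + a 1 := by rw [hr]; simp
  have e3 : c 0 = t * v 0 + a 0 := by rw [ht]; simp
  have e4 : c 1 = t * v 1 + a 1 := by rw [ht]; simp
  rw [e1, e2, e3, e4]
  ring

lemma det_ne : ∀ i j k : Fin 7, i ≠ j → j ≠ k → i ≠ k →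
    (X j - X i) * (Y k - Y i) - (X k - X i) * (Y j - Y i) ≠ 0 := by
  decide

lemma pt_general (i j k : Fin 7) (hij : i ≠ j) (hjk : j ≠ k) (hik : i ≠ k) :
    ¬ Collinear ℝ ({pt i, pt j, pt k} : Set (EuclideanSpace ℝ (Fin 2))) := by
  intro h
  have h1 := collinear_det h
  have h2 : ((X j : ℝ) - X i) * (Y k - Y i) - (X k - X i) * (Y j - Y i) = 0 := by
    rw [← pt_zero, ← pt_zero, ← pt_zero, ← pt_one, ← pt_one, ← pt_one]
    exact h1
  exact det_ne i j k hij hjk hik (by exact_mod_cast h2)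

/-- If a positive multiple of the point `l` is a nonnegative integer combination of the points
`i`, `j`, `k` of the same total weight, then every convex set with `i`, `j`, `k` contains `l`. -/
lemma mem_of_comb {S : Set (EuclideanSpace ℝ (Fin 2))} (hS : Convex ℝ S) (i j k l : Fin 7)
    (A B C : ℤ) (hA : 0 ≤ A) (hB : 0 ≤ B) (hC : 0 ≤ C) (hD : 0 < A + B + C)
    (hX : (A + B + C) * X l = A * X i + B * X j + C * X k)
    (hY : (A + B + C) * Y l = A * Y i + B * Y j + C * Y k)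
    (hi : pt i ∈ S) (hj : pt j ∈ S) (hk : pt k ∈ S) : pt l ∈ S := by
  have hA' : (0 : ℝ) ≤ A := by exact_mod_cast hA
  have hB' : (0 : ℝ) ≤ B := by exact_mod_cast hB
  have hC' : (0 : ℝ) ≤ C := by exact_mod_cast hC
  have hD' : (0 : ℝ) < A + B + C := by exact_mod_cast hD
  have hX' : ((A : ℝ) + B + C) * X l = A * X i + B * X j + C * X k := by exact_mod_cast hX
  have hY' : ((A : ℝ) + B + C) * Y l = A * Y i + B * Y j + C * Y k := by exact_mod_cast hY
  have key : pt l = ∑ m : Fin 3, (![(A : ℝ) / (A + B + C), (B : ℝ) / (A + B + C),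
      (C : ℝ) / (A + B + C)] m) • (![pt i, pt j, pt k] m) := by
    rw [Fin.sum_univ_three]
    ext m
    fin_cases m
    · simp [pt_zero]
      field_simp
      linarith
    · simp [pt_one]
      field_simp
      linarith
  rw [key]
  apply hS.sum_mem
  · intro m _
    fin_cases m <;> simp <;> positivity
  · rw [Fin.sum_univ_three]
    simp
    field_simp
  · intro m _
    fin_cases m <;> simp [hi, hj, hk]

/-- The eight closure rules force a set of indices to avoid weight `14`. -/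
lemma finite_check : ∀ s : Finset (Fin 7),
    ¬ ((2 ∈ s ∧ 3 ∈ s ∧ 4 ∈ s → 0 ∈ s) ∧
    (2 ∈ s ∧ 3 ∈ s ∧ 5 ∈ s → 1 ∈ s) ∧
    (1 ∈ s ∧ 4 ∈ s ∧ 5 ∈ s → 3 ∈ s) ∧
    (2 ∈ s ∧ 4 ∈ s ∧ 5 ∈ s → 3 ∈ s) ∧
    (0 ∈ s ∧ 3 ∈ s ∧ 6 ∈ s → 2 ∈ s) ∧
    (2 ∈ s ∧ 3 ∈ s ∧ 6 ∈ s → 1 ∈ s) ∧
    (1 ∈ s ∧ 4 ∈ s ∧ 6 ∈ s → 2 ∈ s) ∧
    (0 ∈ s ∧ 5 ∈ s ∧ 6 ∈ s → 2 ∈ s) ∧
    ∑ i ∈ s, (i.val + 1) = 14) := by
  decide +kernel

/-- The negation of the preceding statement: For every n ≥ 5 and n distinct plane points with no three collinear, labelled 1..n, some subset cut out by a convex set has label sum exactly 2n. -/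
theorem result :
    ¬ (∀ n : ℕ, 5 ≤ n →
      ∀ p : Fin n → EuclideanSpace ℝ (Fin 2),
        Function.Injective p →
        (∀ i j k : Fin n, i ≠ j → j ≠ k → i ≠ k →
          ¬ Collinear ℝ ({p i, p j, p k} : Set (EuclideanSpace ℝ (Fin 2)))) →
        ∃ s : Finset (Fin n),
          (∃ S : Set (EuclideanSpace ℝ (Fin 2)), Convex ℝ S ∧ ∀ i : Fin n, p i ∈ S ↔ i ∈ s) ∧
          ∑ i ∈ s, (i.val + 1) = 2 * n) := by
  intro H
  obtain ⟨s, ⟨S, hS, hmem⟩, hsum⟩ := H 7 (by norm_num) pt pt_injective pt_general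
  have rule : ∀ (i j k l : Fin 7) (A B C : ℤ), 0 ≤ A → 0 ≤ B → 0 ≤ C → 0 < A + B + C →
      (A + B + C) * X l = A * X i + B * X j + C * X k →
      (A + B + C) * Y l = A * Y i + B * Y j + C * Y k →
      i ∈ s ∧ j ∈ s ∧ k ∈ s → l ∈ s := by
    rintro i j k l A B C hA hB hC hD hX hY ⟨hi, hj, hk⟩
    exact (hmem l).1 (mem_of_comb hS i j k l A B C hA hB hC hD hX hY
      ((hmem i).2 hi) ((hmem j).2 hj) ((hmem k).2 hk))
  refine finite_check s ⟨?_, ?_, ?_, ?_, ?_, ?_, ?_, ?_, by simpa using hsum⟩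
  · exact rule 2 3 4 0 39 7 10 (by decide) (by decide) (by decide) (by decide) (by decide) (by decide)
  · exact rule 2 3 5 1 18 2 1 (by decide) (by decide) (by decide) (by decide) (by decide) (by decide)
  · exact rule 1 4 5 3 21 12 31 (by decide) (by decide) (by decide) (by decide) (by decide) (by decide)
  · exact rule 2 4 5 3 9 6 16 (by decide) (by decide) (by decide) (by decide) (by decide) (by decide)
  · exact rule 0 3 6 2 118 9 10 (by decide) (by decide) (by decide) (by decide) (by decide) (by decide)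
  · exact rule 2 3 6 1 185 49 2 (by decide) (by decide) (by decide) (by decide) (by decide) (by decide)
  · exact rule 1 4 6 2 38 7 3 (by decide) (by decide) (by decide) (by decide) (by decide) (by decide)
  · exact rule 0 5 6 2 557 18 44 (by decide) (by decide) (by decide) (by decide) (by decide) (by decide)

end Pool.Agent.S05344
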