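import Pool.Statements.S05350

set_option autoImplicit false
open Pool Pool.MP_3df3be_co

namespace Pool.Agent.S05350

/-- An injective map sending `C` into a set of the same size sends exactly `C` into it. -/
theorem mem_iff_of_card {f : Fin 8 → Fin 8} (hf : Function.Injective f)
    {C S : Finset (Fin 8)} (hc : C.card = S.card) (h : ∀ c ∈ C, f c ∈ S) (c : Fin 8) :
    c ∈ C ↔ f c ∈ S := by
  classical
  constructor
  · exact h c
  · intro hS
    have himg : C.image f = S := by
      apply Finset.eq_of_subset_of_card_le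
      · intro x hx
        obtain ⟨y, hy, rfl⟩ := Finset.mem_image.1 hx
        exact h y hy
      · rw [Finset.card_image_of_injective _ hf, hc]
    rw [← himg] at hS
    obtain ⟨y, hy, hyc⟩ := Finset.mem_image.1 hS
    rwa [hf hyc] at hy

/-- A block: a subsquare of order four. -/
def Block (L : Fin 8 → Fin 8 → Fin 8) (R C S : Finset (Fin 8)) : Prop :=
  R.card = 4 ∧ C.card = 4 ∧ S.card = 4 ∧ ∀ r ∈ R, ∀ c ∈ C, L r c ∈ S

theorem Block.swap_cols {L : Fin 8 → Fin 8 → Fin 8} (hr : ∀ i, Function.Injective (L i))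
    {R C S : Finset (Fin 8)} (h : Block L R C S) : Block L R Cᶜ Sᶜ := by
  obtain ⟨h1, h2, h3, h4⟩ := h
  refine ⟨h1, by rw [Finset.card_compl, h2]; rfl, by rw [Finset.card_compl, h3]; rfl, ?_⟩
  intro r hrR c hc
  rw [Finset.mem_compl] at hc ⊢
  exact fun hS => hc ((mem_iff_of_card (hr r) (by rw [h2, h3]) (h4 r hrR) c).2 hS)

theorem Block.swap_rows {L : Fin 8 → Fin 8 → Fin 8}
    (hcol : ∀ j, Function.Injective (fun i => L i j))
    {R C S : Finset (Fin 8)} (h : Block L R C S) : Block L Rᶜ C Sᶜ := by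
  obtain ⟨h1, h2, h3, h4⟩ := h
  refine ⟨by rw [Finset.card_compl, h1]; rfl, h2, by rw [Finset.card_compl, h3]; rfl, ?_⟩
  intro r hrR c hc
  rw [Finset.mem_compl] at hrR ⊢
  exact fun hS => hrR ((mem_iff_of_card (f := fun i => L i c) (hcol c) (by rw [h1, h3])
    (fun i hi => h4 i hi c hc) r).2 hS)

/-- A subsquare of order three does not fit into a block. -/
theorem not_inside {L : Fin 8 → Fin 8 → Fin 8} (hr : ∀ i, Function.Injective (L i))
    (hcol : ∀ j, Function.Injective (fun i => L i j))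
    {R C S R' C' S' : Finset (Fin 8)} (h : Block L R C S)
    (h1 : R'.card = 3) (h2 : C'.card = 3) (h3 : S'.card = 3)
    (h4 : ∀ r ∈ R', ∀ c ∈ C', L r c ∈ S') (hR : R' ⊆ R) (hC : C' ⊆ C) : False := by
  classical
  obtain ⟨g1, g2, g3, g4⟩ := h
  -- a row of the block outside the small subsquare
  obtain ⟨r, hrR, hrR'⟩ : ∃ r ∈ R, r ∉ R' := by
    by_contra hcon
    push Not at hcon
    have := Finset.card_le_card (show R ⊆ R' from fun x hx => hcon x hx)
    omega
  have hne : R'.Nonempty := by rw [← Finset.card_pos, h1]; norm_num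
  obtain ⟨r0, hr0⟩ := hne
  have hS : S' ⊆ S := by
    intro s hs
    have himg : C'.image (L r0) = S' := by
      apply Finset.eq_of_subset_of_card_le
      · intro x hx
        obtain ⟨y, hy, rfl⟩ := Finset.mem_image.1 hx
        exact h4 r0 hr0 y hy
      · rw [Finset.card_image_of_injective _ (hr r0), h2, h3]
    rw [← himg] at hs
    obtain ⟨y, hy, rfl⟩ := Finset.mem_image.1 hs
    exact g4 r0 (hR hr0) y (hC hy)
  have hsub : C'.image (L r) ⊆ S \ S' := by
    intro x hx
    obtain ⟨y, hy, rfl⟩ := Finset.mem_image.1 hx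
    rw [Finset.mem_sdiff]
    refine ⟨g4 r hrR y (hC hy), fun hx' => hrR' ?_⟩
    exact (mem_iff_of_card (f := fun i => L i y) (hcol y) (by rw [h1, h3])
      (fun i hi => h4 i hi y hy) r).2 hx'
  have hcard := Finset.card_le_card hsub
  rw [Finset.card_image_of_injective _ (hr r), h2, Finset.card_sdiff_of_subset hS, g3, h3] at hcard
  omega

/-- The rows of the small subsquare lie on one side of the row partition. -/
theorem rows_one_side {L : Fin 8 → Fin 8 → Fin 8} (hr : ∀ i, Function.Injective (L i))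
    (hcol : ∀ j, Function.Injective (fun i => L i j))
    {R C S R' C' S' : Finset (Fin 8)} (h : Block L R C S)
    (h2 : C'.card = 3) (h3 : S'.card = 3)
    (h4 : ∀ r ∈ R', ∀ c ∈ C', L r c ∈ S') : R' ⊆ R ∨ R' ⊆ Rᶜ := by
  classical
  by_contra hcon
  push Not at hcon
  obtain ⟨hc1, hc2⟩ := hcon
  obtain ⟨r1, hr1, hr1R⟩ := Finset.not_subset.1 hc1
  obtain ⟨r2, hr2, hr2R⟩ := Finset.not_subset.1 hc2
  rw [Finset.mem_compl, not_not] at hr2R
  have hB2 := h.swap_rows hcol
  obtain ⟨g1, g2, g3, g4⟩ := h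
  obtain ⟨k1, k2, k3, k4⟩ := hB2
  -- both counts equal the number of common columns
  have e1 : (C' ∩ C).card = (S' ∩ S).card := by
    rw [← Finset.card_image_of_injective (C' ∩ C) (hr r2)]
    congr 1
    ext s
    simp only [Finset.mem_image, Finset.mem_inter]
    constructor
    · rintro ⟨c, ⟨hc', hc⟩, rfl⟩
      exact ⟨h4 r2 hr2 c hc', g4 r2 hr2R c hc⟩
    · rintro ⟨hs', hs⟩
      have hsurj : Function.Surjective (L r2) := Finite.surjective_of_injective (hr r2)
      obtain ⟨c, rfl⟩ := hsurj s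
      exact ⟨c, ⟨(mem_iff_of_card (hr r2) (by rw [h2, h3]) (h4 r2 hr2) c).2 hs',
        (mem_iff_of_card (hr r2) (by rw [g2, g3]) (g4 r2 hr2R) c).2 hs⟩, rfl⟩
  have e2 : (C' ∩ C).card = (S' ∩ Sᶜ).card := by
    have hr1R' : r1 ∈ Rᶜ := Finset.mem_compl.2 hr1R
    rw [← Finset.card_image_of_injective (C' ∩ C) (hr r1)]
    congr 1
    ext s
    simp only [Finset.mem_image, Finset.mem_inter]
    constructor
    · rintro ⟨c, ⟨hc', hc⟩, rfl⟩
      exact ⟨h4 r1 hr1 c hc', k4 r1 hr1R' c hc⟩
    · rintro ⟨hs', hs⟩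
      have hsurj : Function.Surjective (L r1) := Finite.surjective_of_injective (hr r1)
      obtain ⟨c, rfl⟩ := hsurj s
      exact ⟨c, ⟨(mem_iff_of_card (hr r1) (by rw [h2, h3]) (h4 r1 hr1) c).2 hs',
        (mem_iff_of_card (hr r1) (by rw [k2, k3]) (k4 r1 hr1R') c).2 hs⟩, rfl⟩
  have e3 : (S' ∩ S).card + (S' ∩ Sᶜ).card = 3 := by
    rw [← Finset.sdiff_eq_inter_compl, Finset.card_inter_add_card_sdiff, h3]
  omega

/-- The transposed square. -/
theorem Block.transpose {L : Fin 8 → Fin 8 → Fin 8} {R C S : Finset (Fin 8)}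
    (h : Block L R C S) : Block (fun i j => L j i) C R S :=
  ⟨h.2.1, h.1, h.2.2.1, fun r hr c hc => h.2.2.2 c hc r hr⟩

/-- The negation of the preceding statement: For every n there is a latin square of order n such that, for each m with 1 ≤ m and 2m ≤ n, some m rows and m columns meet in an m×m subarray using only m symbols, i.e. a latin subsquare of order m. -/
theorem result :
    ¬ (∀ n : ℕ, ∃ L : Fin n → Fin n → Fin n,
      (∀ i : Fin n, Function.Bijective (L i)) ∧
      (∀ j : Fin n, Function.Bijective (fun i : Fin n => L i j)) ∧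
      ∀ m : ℕ, 1 ≤ m → 2 * m ≤ n →
        ∃ R C S : Finset (Fin n),
          R.card = m ∧ C.card = m ∧ S.card = m ∧
          ∀ r ∈ R, ∀ c ∈ C, L r c ∈ S) := by
  intro hall
  obtain ⟨L, hrow, hcol, hsub⟩ := hall 8
  have hr : ∀ i, Function.Injective (L i) := fun i => (hrow i).1
  have hc : ∀ j, Function.Injective (fun i => L i j) := fun j => (hcol j).1
  obtain ⟨R, C, S, g1, g2, g3, g4⟩ := hsub 4 (by norm_num) (by norm_num)
  obtain ⟨R', C', S', h1, h2, h3, h4⟩ := hsub 3 (by norm_num) (by norm_num)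
  have hB : Block L R C S := ⟨g1, g2, g3, g4⟩
  have hrows := rows_one_side hr hc hB h2 h3 h4
  have hcols : C' ⊆ C ∨ C' ⊆ Cᶜ :=
    rows_one_side (L := fun i j => L j i) hc hr hB.transpose h1 h3
      (fun r hr' c hc' => h4 c hc' r hr')
  rcases hrows with hR | hR <;> rcases hcols with hC | hC
  · exact not_inside hr hc hB h1 h2 h3 h4 hR hC
  · exact not_inside hr hc (hB.swap_cols hr) h1 h2 h3 h4 hR hC
  · exact not_inside hr hc (hB.swap_rows hc) h1 h2 h3 h4 hR hC
  · exact not_inside hr hc ((hB.swap_rows hc).swap_cols hr) h1 h2 h3 h4 hR hC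

end Pool.Agent.S05350
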