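import Pool.Statements.S05354

set_option autoImplicit false
open Matrix
open Pool Pool.MP_3e2ec7_co

namespace Pool.Agent.S05354

abbrev K := ZMod 5
abbrev V := (K × K) × (K × K)

/-- the standard bilinear form -/
def dot (x y : V) : K := x.1.1 * y.1.1 + x.1.2 * y.1.2 + (x.2.1 * y.2.1 + x.2.2 * y.2.2)

def Z1 : List (K × K) := [(0,0),(0,1),(1,0),(1,1),(2,0),(2,2),(3,1),(3,3),(4,0),(4,2)]
def Z2 : List (K × K) := [(0,0),(0,1),(1,0),(1,3),(2,0),(2,1),(3,1),(3,4),(4,1),(4,4)]
def Z3 : List (K × K) := [(0,0),(0,1),(0,2),(0,3),(1,1),(1,3),(1,4),(2,2),(2,4),(3,0)]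

def e1 (b : K × K) : V := ((1, 0), b)
def e2 (b : K × K) : V := ((0, 1), b)
def e3 (b : K × K) : V := ((1, 1), b)

def sm (m : K) (v : V) : V := ((m * v.1.1, m * v.1.2), (m * v.2.1, m * v.2.2))

def mults (v : V) : List V := [sm 1 v, sm 2 v, sm 3 v, sm 4 v]

/-- the connection set -/
def SL : List V :=
  ((Z1.map e1).flatMap mults ++ (Z2.map e2).flatMap mults ++ (Z3.map e3).flatMap mults)
    ++ [((0,0),(0,1)), ((0,0),(0,4))]

theorem SL_nodup : SL.Nodup := by decide +kernel
theorem SL_neg : ∀ v ∈ SL, -v ∈ SL := by decide +kernel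
theorem SL_zero : (0 : V) ∉ SL := by decide +kernel

/-- the Cayley graph -/
def G : SimpleGraph V where
  Adj u v := v - u ∈ SL
  symm := ⟨by
    intro u v h
    have := SL_neg _ h
    rwa [neg_sub] at this⟩
  loopless := ⟨by
    intro u h
    rw [sub_self] at h
    exact SL_zero h⟩

instance : DecidableRel G.Adj := fun u v => inferInstanceAs (Decidable (v - u ∈ SL))

noncomputable abbrev psi : AddChar K ℂ := ZMod.stdAddChar

theorem psi_norm (t : K) : ‖psi t‖ = 1 := by
  rw [ZMod.stdAddChar_apply]; exact Circle.norm_coe _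

theorem sum_psi (b : K) : ∑ x : K, psi (x * b) = if b = 0 then 5 else 0 := by
  rw [AddChar.sum_mulShift b (ZMod.isPrimitive_stdAddChar 5)]
  simp [ZMod.card]

theorem sum_psi2 (a b : K) : ∑ x : K × K, psi (x.1 * a + x.2 * b) =
    if a = 0 ∧ b = 0 then 25 else 0 := by
  rw [Fintype.sum_prod_type]
  simp only [AddChar.map_add_eq_mul]
  rw [← Finset.sum_mul_sum, sum_psi, sum_psi]
  split_ifs <;> simp_all
  norm_num

theorem sum_psi4 (g : V) : ∑ x : V, psi (dot x g) = if g = 0 then 625 else 0 := by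
  have h : ∀ x : V, psi (dot x g) = psi (x.1.1 * g.1.1 + x.1.2 * g.1.2) *
      psi (x.2.1 * g.2.1 + x.2.2 * g.2.2) := by
    intro x; rw [← AddChar.map_add_eq_mul]; rfl
  rw [Finset.sum_congr rfl (fun x _ => h x), Fintype.sum_prod_type]
  simp only
  rw [← Finset.sum_mul_sum, sum_psi2, sum_psi2]
  obtain ⟨⟨g1, g2⟩, ⟨g3, g4⟩⟩ := g
  simp only [Prod.ext_iff, Prod.fst_zero, Prod.snd_zero]
  split_ifs <;> simp_all
  norm_num

theorem psi_sum4 (t : K) : psi (1 * t) + (psi (2 * t) + (psi (3 * t) + psi (4 * t))) =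
    5 * (if t = 0 then 1 else 0 : ℂ) - 1 := by
  have h := sum_psi t
  have h2 : ∑ x : K, psi (x * t) = psi (0 * t) + psi (1 * t) + psi (2 * t) + psi (3 * t) + psi (4 * t) := by
    exact Fin.sum_univ_five (fun x : K => psi (x * t))
  rw [h2, zero_mul, AddChar.map_zero_eq_one] at h
  split_ifs at h ⊢ with h0
  · linear_combination h
  · linear_combination h


/-- number of zeros counted along a list -/
def cnt (Z : List (K × K)) (s : K) (y : K × K) : ℕ :=
  (Z.filter (fun b => s + (y.1 * b.1 + y.2 * b.2) = 0)).length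

theorem dot_sm (m : K) (x v : V) : dot x (sm m v) = m * dot x v := by
  unfold dot sm; ring

theorem sum_mults (x v : V) : ((mults v).map (fun s => psi (dot x s))).sum =
    5 * (if dot x v = 0 then 1 else 0 : ℂ) - 1 := by
  rw [← psi_sum4]
  simp only [mults, List.map_cons, List.map_nil, List.sum_cons, List.sum_nil, dot_sm, add_zero]

theorem sum_flat (x : V) (Z : List (K × K)) (e : K × K → V) (s : K)
    (he : ∀ b, dot x (e b) = s + (x.2.1 * b.1 + x.2.2 * b.2)) :
    (((Z.map e).flatMap mults).map (fun s => psi (dot x s))).sum =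
      5 * (cnt Z s x.2 : ℂ) - Z.length := by
  induction Z with
  | nil => simp [cnt]
  | cons b Z ih =>
    rw [List.map_cons, List.flatMap_cons, List.map_append, List.sum_append, ih, sum_mults, he]
    unfold cnt
    rw [List.filter_cons]
    by_cases h : s + (x.2.1 * b.1 + x.2.2 * b.2) = 0
    · simp only [h, decide_true, if_true, List.length_cons]; push_cast; ring
    · simp only [h, decide_false, if_false, List.length_cons]; push_cast; simp; ring

/-- eigenvalue of the character x -/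
noncomputable def lam (x : V) : ℂ := (SL.map (fun s => psi (dot x s))).sum

def hh (x : V) : ℕ := cnt Z1 x.1.1 x.2 + cnt Z2 x.1.2 x.2 + cnt Z3 (x.1.1 + x.1.2) x.2

theorem lam_eq (x : V) : lam x = 5 * (hh x : ℂ) - 30 + (psi x.2.2 + psi (-x.2.2)) := by
  unfold lam SL
  rw [List.map_append, List.sum_append, List.map_append, List.sum_append, List.map_append,
    List.sum_append]
  rw [sum_flat x Z1 e1 x.1.1 (by intro b; unfold dot e1; ring),
    sum_flat x Z2 e2 x.1.2 (by intro b; unfold dot e2; ring),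
    sum_flat x Z3 e3 (x.1.1 + x.1.2) (by intro b; unfold dot e3; ring)]
  have h1 : Z1.length = 10 := rfl
  have h2 : Z2.length = 10 := rfl
  have h3 : Z3.length = 10 := rfl
  rw [h1, h2, h3]
  unfold hh
  have h4 : dot x ((0,0),(0,1)) = x.2.2 := by unfold dot; simp
  have h5 : dot x ((0,0),(0,4)) = - x.2.2 := by
    unfold dot
    have : (4 : K) = -1 := by decide
    rw [this]; simp
  simp only [List.map_cons, List.map_nil, List.sum_cons, List.sum_nil, h4, h5]
  push_cast
  ring

def t1 (y : K × K) : K := y.1 ^ 2 * y.2 + y.2 ^ 3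
def t2 (y : K × K) : K := y.1 ^ 2 * y.2 - y.2 ^ 3
def t3 (y : K × K) : K := y.1 ^ 3 + y.1 ^ 2 * y.2 + 3 * y.1 * y.2 ^ 2

theorem cnt1 : ∀ (s : K) (y : K × K), (cnt Z1 s y : K) = s * t1 y + cnt Z1 0 y := by decide +kernel
theorem cnt2 : ∀ (s : K) (y : K × K), (cnt Z2 s y : K) = s * t2 y + cnt Z2 0 y := by decide +kernel
theorem cnt3 : ∀ (s : K) (y : K × K), (cnt Z3 s y : K) = s * t3 y + cnt Z3 0 y := by decide +kernel

def p1 (y : K × K) : K := t1 y + t3 y
def p2 (y : K × K) : K := t2 y + t3 y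
def c0 (y : K × K) : K := cnt Z1 0 y + cnt Z2 0 y + cnt Z3 0 y

theorem hh_eq (x : V) : (hh x : K) = x.1.1 * p1 x.2 + x.1.2 * p2 x.2 + c0 x.2 := by
  unfold hh p1 p2 c0
  push_cast
  rw [cnt1, cnt2, cnt3]
  ring

theorem bij : ∀ a b : K, ∃ y : K × K, ∀ z : K × K, (p1 z + a = 0 ∧ p2 z + b = 0) ↔ z = y := by
  decide +kernel


noncomputable def P : Matrix V V ℂ := fun u x => psi (dot x u)
noncomputable def Q : Matrix V V ℂ := fun x v => psi (-(dot x v)) / 625
noncomputable def D : Matrix V V ℂ := Matrix.diagonal lam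

theorem dot_sub (x u v : V) : dot x (u - v) = dot x u + -(dot x v) := by
  unfold dot; simp only [Prod.fst_sub, Prod.snd_sub]; ring

theorem dot_add (x u v : V) : dot x (u + v) = dot x u + dot x v := by
  unfold dot; simp only [Prod.fst_add, Prod.snd_add]; ring

theorem PQ : P * Q = 1 := by
  ext u v
  rw [Matrix.mul_apply]
  have h : ∀ x : V, P u x * Q x v = psi (dot x (u - v)) / 625 := by
    intro x
    rw [dot_sub, AddChar.map_add_eq_mul]; unfold P Q; ring
  rw [Finset.sum_congr rfl (fun x _ => h x), ← Finset.sum_div, sum_psi4, Matrix.one_apply]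
  by_cases huv : u = v
  · simp [huv]
  · have : ¬ (u - v = 0) := fun hh => huv (sub_eq_zero.mp hh)
    simp [huv, this]

theorem P_inv : P⁻¹ = Q := Matrix.inv_eq_right_inv PQ

theorem P_unit : IsUnit P := by
  rw [Matrix.isUnit_iff_isUnit_det]
  exact Matrix.isUnit_det_of_right_inverse PQ

theorem AP : G.adjMatrix ℂ * P = P * D := by
  ext u x
  rw [Matrix.mul_apply]
  unfold D
  rw [Matrix.mul_diagonal]
  have h1 : ∑ v : V, G.adjMatrix ℂ u v * P v x =
      ∑ s : V, (if s ∈ SL.toFinset then psi (dot x u) * psi (dot x s) else 0) := by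
    rw [← Equiv.sum_comp (Equiv.addLeft u)]
    refine Finset.sum_congr rfl (fun s _ => ?_)
    rw [SimpleGraph.adjMatrix_apply]
    have h2 : G.Adj u (Equiv.addLeft u s) ↔ s ∈ SL.toFinset := by
      rw [List.mem_toFinset]
      change (u + s) - u ∈ SL ↔ _
      rw [add_sub_cancel_left]
    by_cases hs : s ∈ SL.toFinset
    · rw [if_pos (h2.mpr hs), if_pos hs, one_mul]
      unfold P
      rw [Equiv.coe_addLeft, dot_add, AddChar.map_add_eq_mul]
    · rw [if_neg (fun hh => hs (h2.mp hh)), if_neg hs, zero_mul]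
  rw [h1, Finset.sum_ite_mem, Finset.univ_inter, ← Finset.mul_sum,
    List.sum_toFinset _ SL_nodup]
  rfl

theorem A_eq : G.adjMatrix ℂ = P * D * P⁻¹ := by
  rw [← AP, Matrix.mul_assoc, P_inv, PQ, Matrix.mul_one]

noncomputable def f (c : ℂ) (x : V) : ℂ := Complex.exp (c * lam x)

theorem exp_eq (c : ℂ) : NormedSpace.exp (c • G.adjMatrix ℂ) = P * Matrix.diagonal (f c) * Q := by
  have h1 : c • G.adjMatrix ℂ = P * (Matrix.diagonal (fun x => c * lam x)) * P⁻¹ := by
    rw [A_eq]
    have : Matrix.diagonal (fun x => c * lam x) = c • D := by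
      unfold D
      rw [← Matrix.diagonal_smul]
      rfl
    rw [this, Matrix.mul_smul, Matrix.smul_mul]
  rw [h1, Matrix.exp_conj _ _ P_unit, Matrix.exp_diagonal, P_inv]
  congr 3
  funext x
  rw [Pi.coe_exp]
  unfold f
  rw [Complex.exp_eq_exp_ℂ]


/-- mixing time -/
noncomputable def tau : ℝ := 2 * Real.pi / 25

noncomputable def g (y : K × K) : ℂ :=
  Complex.exp (Complex.I * (tau : ℂ) * (psi y.2 + psi (-y.2)))

noncomputable def cst : ℂ := Complex.exp (Complex.I * (tau : ℂ) * (-30))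

theorem psi_nat (n : ℕ) : psi (n : K) = Complex.exp (Complex.I * (tau : ℂ) * (5 * n)) := by
  have h := ZMod.stdAddChar_coe (N := 5) (n : ℤ)
  rw [Int.cast_natCast] at h
  rw [h]
  congr 1
  unfold tau
  push_cast
  ring

theorem f_eq (x : V) : f (Complex.I * (tau : ℂ)) x =
    cst * g x.2 * psi (x.1.1 * p1 x.2 + x.1.2 * p2 x.2 + c0 x.2) := by
  rw [← hh_eq, psi_nat]
  unfold f cst g
  rw [← Complex.exp_add, ← Complex.exp_add, lam_eq]
  congr 1
  ring

theorem psi_add_neg_real (t : K) : ∃ r : ℝ, psi t + psi (-t) = (r : ℂ) := by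
  refine ⟨2 * (psi t).re, ?_⟩
  rw [AddChar.map_neg_eq_conj, Complex.add_conj]

theorem norm_exp_I_real (r : ℝ) : ‖Complex.exp (Complex.I * (tau : ℂ) * (r : ℂ))‖ = 1 := by
  have : Complex.I * (tau : ℂ) * (r : ℂ) = ((tau * r : ℝ) : ℂ) * Complex.I := by
    push_cast; ring
  rw [this, Complex.norm_exp_ofReal_mul_I]

theorem norm_g (y : K × K) : ‖g y‖ = 1 := by
  obtain ⟨r, hr⟩ := psi_add_neg_real y.2
  unfold g
  rw [hr, norm_exp_I_real]

theorem norm_cst : ‖cst‖ = 1 := by
  have := norm_exp_I_real (-30)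
  unfold cst
  push_cast at this
  exact this

theorem entry (u v : V) :
    (P * Matrix.diagonal (f (Complex.I * (tau : ℂ))) * Q) u v =
      (∑ x : V, f (Complex.I * (tau : ℂ)) x * psi (dot x (u - v))) / 625 := by
  rw [Matrix.mul_apply, Finset.sum_div]
  refine Finset.sum_congr rfl (fun x _ => ?_)
  rw [Matrix.mul_diagonal, dot_sub, AddChar.map_add_eq_mul]
  unfold P Q
  ring

theorem norm_sum (w : V) :
    ‖∑ x : V, f (Complex.I * (tau : ℂ)) x * psi (dot x w)‖ = 25 := by
  obtain ⟨y, hy⟩ := bij w.1.1 w.1.2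
  have h1 : ∀ a z : K × K, f (Complex.I * (tau : ℂ)) (a, z) * psi (dot (a, z) w) =
      (cst * g z * psi (c0 z + (z.1 * w.2.1 + z.2 * w.2.2))) *
        psi (a.1 * (p1 z + w.1.1) + a.2 * (p2 z + w.1.2)) := by
    intro a z
    rw [f_eq, mul_assoc, mul_assoc (cst * g z), ← AddChar.map_add_eq_mul, ← AddChar.map_add_eq_mul]
    congr 2
    unfold dot
    ring
  have h2 : ∑ x : V, f (Complex.I * (tau : ℂ)) x * psi (dot x w) =
      ∑ z : K × K, (cst * g z * psi (c0 z + (z.1 * w.2.1 + z.2 * w.2.2))) *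
        (if z = y then 25 else 0) := by
    rw [Fintype.sum_prod_type_right]
    refine Finset.sum_congr rfl (fun z _ => ?_)
    rw [Finset.sum_congr rfl (fun a _ => h1 a z), ← Finset.mul_sum, sum_psi2]
    congr 1
    simp only [hy z]
  rw [h2]
  simp only [mul_ite, mul_zero, Finset.sum_ite_eq', Finset.mem_univ, if_true]
  rw [norm_mul, norm_mul, norm_mul, norm_cst, norm_g, psi_norm]
  norm_num

theorem flat (u v : V) :
    ‖(NormedSpace.exp ((Complex.I * (tau : ℂ)) • G.adjMatrix ℂ)) u v‖ = 1 / 25 := by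
  rw [exp_eq, entry, norm_div, norm_sum]
  norm_num

/-- a character with irrational eigenvalue -/
def x0 : V := ((0, 0), (0, 1))

theorem eigen (x : V) :
    (NormedSpace.exp ((Complex.I * (tau : ℂ)) • G.adjMatrix ℂ)) *ᵥ (fun u => P u x) =
      f (Complex.I * (tau : ℂ)) x • (fun u => P u x) := by
  rw [exp_eq]
  have hQP : Q * P = 1 := by
    rw [← P_inv]
    exact Matrix.nonsing_inv_mul P ((Matrix.isUnit_iff_isUnit_det _).mp P_unit)
  have h : (P * Matrix.diagonal (f (Complex.I * (tau : ℂ))) * Q) * P =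
      P * Matrix.diagonal (f (Complex.I * (tau : ℂ))) := by
    rw [Matrix.mul_assoc, hQP, Matrix.mul_one]
  funext u
  have h2 := congrFun (congrFun h u) x
  rw [Matrix.mul_diagonal, Matrix.mul_apply] at h2
  simp only [Matrix.mulVec, dotProduct, Pi.smul_apply, smul_eq_mul]
  rw [h2, mul_comm]

theorem psi_one_add : psi 1 + psi (-1) = ((2 * Real.cos (2 * Real.pi / 5) : ℝ) : ℂ) := by
  have h := ZMod.stdAddChar_coe (N := 5) (1 : ℤ)
  rw [Int.cast_one] at h
  rw [AddChar.map_neg_eq_conj, Complex.add_conj]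
  have h2 : (psi 1).re = Real.cos (2 * Real.pi / 5) := by
    have h3 : psi 1 = Complex.exp (((2 * Real.pi / 5 : ℝ) : ℂ) * Complex.I) := by
      rw [h]
      congr 1
      push_cast
      ring
    rw [h3, Complex.exp_ofReal_mul_I_re]
  rw [h2]

theorem cos_two_pi_div_five : 2 * Real.cos (2 * Real.pi / 5) = (Real.sqrt 5 - 1) / 2 := by
  have h : 2 * Real.pi / 5 = 2 * (Real.pi / 5) := by ring
  rw [h, Real.cos_two_mul, Real.cos_pi_div_five]
  have h5 : Real.sqrt 5 ^ 2 = 5 := Real.sq_sqrt (by norm_num)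
  nlinarith [h5]


theorem lam_x0 : lam x0 = ((5 * (hh x0 : ℝ) - 30 + (Real.sqrt 5 - 1) / 2 : ℝ) : ℂ) := by
  rw [lam_eq]
  have h : x0.2.2 = 1 := rfl
  rw [h, psi_one_add, cos_two_pi_div_five]
  push_cast
  ring

theorem not_root (k : ℕ) (hk : 0 < k) : (f (Complex.I * (tau : ℂ)) x0) ^ k ≠ 1 := by
  intro h
  unfold f at h
  rw [← Complex.exp_nat_mul, Complex.exp_eq_one_iff] at h
  obtain ⟨n, hn⟩ := h
  rw [lam_x0] at hn
  have hpi : (Real.pi : ℂ) ≠ 0 := by exact_mod_cast Real.pi_ne_zero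
  have h1 : (k : ℂ) * ((5 * (hh x0 : ℝ) - 30 + (Real.sqrt 5 - 1) / 2 : ℝ) : ℂ) = 25 * n := by
    have h2 : (2 * Real.pi * Complex.I) * ((k : ℂ) * ((5 * (hh x0 : ℝ) - 30 + (Real.sqrt 5 - 1) / 2 : ℝ) : ℂ))
        = (2 * Real.pi * Complex.I) * (25 * n) := by
      unfold tau at hn
      push_cast at hn ⊢
      linear_combination 25 * hn
    exact mul_left_cancel₀ Complex.two_pi_I_ne_zero h2
  have h3 : (k : ℝ) * (5 * (hh x0 : ℝ) - 30 + (Real.sqrt 5 - 1) / 2) = 25 * n := by
    exact_mod_cast h1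
  have hk' : (k : ℝ) ≠ 0 := by positivity
  have h4 : Real.sqrt 5 = ((2 * (25 * n / k - 5 * hh x0 + 30) + 1 : ℚ) : ℝ) := by
    push_cast
    field_simp
    linear_combination 2 * h3
  have hirr : Irrational (Real.sqrt 5) := by
    have := Nat.Prime.irrational_sqrt (p := 5) (by norm_num)
    exact_mod_cast this
  exact hirr ⟨_, h4.symm⟩

/-- The negation of the preceding statement: For every finite simple graph and real time τ, if all entries of exp(iτA) have equal absolute value, then every eigenvalue of exp(iτA) is a root of unity. -/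
theorem result :
    ¬ (∀ (V : Type) [Fintype V] [DecidableEq V] (G : SimpleGraph V) [DecidableRel G.Adj] (τ : ℝ),
      (∀ a b c d : V,
        ‖(NormedSpace.exp ((Complex.I * (τ : ℂ)) • G.adjMatrix ℂ)) a b‖ =
          ‖(NormedSpace.exp ((Complex.I * (τ : ℂ)) • G.adjMatrix ℂ)) c d‖) →
      ∀ μ : ℂ, (∃ v : V → ℂ, v ≠ 0 ∧
          (NormedSpace.exp ((Complex.I * (τ : ℂ)) • G.adjMatrix ℂ)) *ᵥ v = μ • v) →
        ∃ k : ℕ, 0 < k ∧ μ ^ k = 1) := by
  intro H
  obtain ⟨k, hk, hk1⟩ := H V G tau (fun a b c d => by rw [flat, flat])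
    (f (Complex.I * (tau : ℂ)) x0) ⟨fun u => P u x0, by
      intro h0
      have h1 := congrFun h0 0
      have h2 : P 0 x0 = 1 := by
        unfold P
        have : dot x0 0 = 0 := by decide
        rw [this, AddChar.map_zero_eq_one]
      simp only [Pi.zero_apply] at h1
      rw [h2] at h1
      exact one_ne_zero h1, eigen x0⟩
  exact not_root k hk hk1

end Pool.Agent.S05354
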