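import Pool.Statements.S05361

set_option autoImplicit false
open Pool Pool.MP_3e8e5c_co

namespace Pool.Agent.S05361

/-- Closed neighbourhoods of the 20 vertices as bit masks. -/
def tab : List Nat :=
  [659717, 336394, 672773, 362506, 21776, 43552, 21824, 43648, 752465, 518050,
   974420, 900520, 154961, 306082, 546644, 110248, 1018634, 988933, 994826, 1002757]

def msk (v : Fin 20) : Nat := tab.getD v.val 0

def un (N : Fin 20 → Nat) (L : List (Fin 20)) (v : Fin 20) : Nat :=
  L.foldr (fun u acc => if u = v then acc else N u ||| acc) 0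

/-- Boolean test of irredundance of the set of entries of a list. -/
def irrB (N : Fin 20 → Nat) (L : List (Fin 20)) : Bool :=
  L.all fun v => !(Nat.beq (N v &&& un N L v) (N v))

/-- Boolean test of maximality: no vertex outside the list can be added. -/
def maxB (N : Fin 20 → Nat) (L : List (Fin 20)) : Bool :=
  irrB N L && (List.finRange 20).all fun x => L.contains x || !(irrB N (x :: L))

/-- masks of the graph with the edge ab removed -/
def del (a b : Fin 20) (v : Fin 20) : Nat :=
  if v = a then msk v ^^^ 2 ^ b.val else if v = b then msk v ^^^ 2 ^ a.val else msk v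

def adjB (a b : Fin 20) : Bool := (!(decide (a = b))) && (msk a).testBit b.val

/-- Witnesses. -/
def wit : List (List (Fin 20)) :=
  [[1,10,16],[0,9,19],[8,10,17],[9,11,16],[0,12,14],[1,13,15],[10,12,17],[11,13,18],[8,14,19],
   [9,15,16],[10,12,19],[11,13,16],[8,14,17],[9,15,18],[12,14,17],[13,15,18],[12,14,19],
   [13,15,16],[3,9,13],[0,10,14],[1,11,15],[2,8,12],[13,16,18],[14,17,19],[15,16,18],[12,17,19]]

theorem sym_tab : ∀ a b : Fin 20, adjB a b = adjB b a := by decide +kernel
theorem self_tab : ∀ a : Fin 20, (msk a).testBit a.val = true := by decide +kernel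
theorem small_tab : ∀ a : Fin 20, msk a < 2 ^ 20 := by decide +kernel
theorem small_del : ∀ a b v : Fin 20, del a b v < 2 ^ 20 := by decide +kernel

theorem drops : ∀ a b : Fin 20, adjB a b = true → (wit.any (maxB (del a b))) = true := by
  decide +kernel

theorem wit_len : ∀ L ∈ wit, L.length = 3 := by decide

theorem lower : ∀ a b c : Fin 20, irrB msk [a, b, c] = true →
    ((List.finRange 20).any fun x => !([a, b, c].contains x) && irrB msk (x :: [a, b, c])) = true := by
  decide +kernel

theorem four : maxB msk [0, 1, 2, 3] = true := by decide +kernel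

def G : SimpleGraph (Fin 20) where
  Adj a b := adjB a b = true
  symm := ⟨fun a b h => by rw [← sym_tab a b]; exact h⟩
  loopless := ⟨fun a h => by simp [adjB] at h⟩

/-- The irredundance condition. -/
def P (H : SimpleGraph (Fin 20)) (T : Finset (Fin 20)) : Prop :=
  ∀ v ∈ T, ∃ w : Fin 20, (w = v ∨ H.Adj v w) ∧ ∀ u ∈ T, u ≠ v → ¬ (w = u ∨ H.Adj u w)

theorem testBit_un (N : Fin 20 → Nat) (L : List (Fin 20)) (v : Fin 20) (i : Nat) :
    (un N L v).testBit i = true ↔ ∃ u ∈ L, u ≠ v ∧ (N u).testBit i = true := by
  induction L with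
  | nil => simp [un]
  | cons a L ih =>
    have h : un N (a :: L) v = if a = v then un N L v else N a ||| un N L v := rfl
    rw [h]
    by_cases hav : a = v
    · rw [if_pos hav, ih]
      constructor
      · rintro ⟨u, hu, huv, hb⟩
        exact ⟨u, List.mem_cons_of_mem _ hu, huv, hb⟩
      · rintro ⟨u, hu, huv, hb⟩
        rcases List.mem_cons.1 hu with h1 | h1
        · exact absurd (h1.trans hav) huv
        · exact ⟨u, h1, huv, hb⟩
    · rw [if_neg hav, Nat.testBit_or, Bool.or_eq_true, ih]
      constructor
      · rintro (hb | ⟨u, hu, huv, hb⟩)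
        · exact ⟨a, List.mem_cons_self, hav, hb⟩
        · exact ⟨u, List.mem_cons_of_mem _ hu, huv, hb⟩
      · rintro ⟨u, hu, huv, hb⟩
        rcases List.mem_cons.1 hu with h1 | h1
        · left; rw [← h1]; exact hb
        · right; exact ⟨u, h1, huv, hb⟩

theorem irr_iff (N : Fin 20 → Nat) (H : SimpleGraph (Fin 20))
    (hN : ∀ v w : Fin 20, (N v).testBit w.val = true ↔ (w = v ∨ H.Adj v w))
    (hs : ∀ v, N v < 2 ^ 20) (L : List (Fin 20)) :
    P H L.toFinset ↔ irrB N L = true := by
  unfold P irrB
  rw [List.all_eq_true]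
  have key : ∀ v : Fin 20, ((∃ w : Fin 20, (w = v ∨ H.Adj v w) ∧
      ∀ u ∈ L.toFinset, u ≠ v → ¬ (w = u ∨ H.Adj u w)) ↔
      (!(Nat.beq (N v &&& un N L v) (N v))) = true) := by
    intro v
    have e1 : (!(Nat.beq (N v &&& un N L v) (N v))) = true ↔ ¬ (N v &&& un N L v = N v) := by
      rw [Bool.not_eq_true', ← Bool.not_eq_true, Nat.beq_eq]
    rw [e1]
    constructor
    · rintro ⟨w, hw, hu⟩ heq
      have h1 : (N v).testBit w.val = true := (hN v w).2 hw
      have h2 : (N v &&& un N L v).testBit w.val = true := by rw [heq]; exact h1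
      rw [Nat.testBit_and, Bool.and_eq_true] at h2
      obtain ⟨u, huL, huv, hb⟩ := (testBit_un N L v w.val).1 h2.2
      exact hu u (List.mem_toFinset.2 huL) huv ((hN u w).1 hb)
    · intro hne
      by_contra hcon
      apply hne
      apply Nat.eq_of_testBit_eq
      intro i
      rw [Nat.testBit_and]
      by_cases hi : (N v).testBit i = true
      · rw [hi, Bool.true_and]
        have hlt : i < 20 := by
          by_contra hge
          have : N v < 2 ^ i := lt_of_lt_of_le (hs v) (Nat.pow_le_pow_right (by norm_num) (not_lt.1 hge))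
          rw [Nat.testBit_lt_two_pow this] at hi
          exact Bool.false_ne_true hi
        have hall : ¬ ∀ u ∈ L.toFinset, u ≠ v → ¬ ((⟨i, hlt⟩ : Fin 20) = u ∨ H.Adj u ⟨i, hlt⟩) :=
          fun hh => hcon ⟨⟨i, hlt⟩, (hN v ⟨i, hlt⟩).1 hi, hh⟩
        push Not at hall
        obtain ⟨u, huL, huv, hb⟩ := hall
        exact (testBit_un N L v i).2 ⟨u, List.mem_toFinset.1 huL, huv, (hN u ⟨i, hlt⟩).2 hb⟩
      · rw [Bool.not_eq_true] at hi
        rw [hi, Bool.false_and]
  constructor
  · intro h v hv
    exact (key v).1 (h v (List.mem_toFinset.2 hv))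
  · intro h v hv
    exact (key v).2 (h v (List.mem_toFinset.1 hv))

theorem P_mono (H : SimpleGraph (Fin 20)) {S T : Finset (Fin 20)} (hST : S ⊆ T) (hT : P H T) :
    P H S := by
  intro v hv
  obtain ⟨w, hw, hu⟩ := hT v (hST hv)
  exact ⟨w, hw, fun u huS huv => hu u (hST huS) huv⟩

theorem max_of (H : SimpleGraph (Fin 20)) (S : Finset (Fin 20)) (hS : P H S)
    (h : ∀ x, x ∉ S → ¬ P H (insert x S)) : Maximal (P H) S := by
  refine ⟨hS, ?_⟩
  intro T hT hST x hx
  by_contra hxS
  exact h x hxS (P_mono H (Finset.insert_subset hx hST) hT)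

theorem max_of_maxB (N : Fin 20 → Nat) (H : SimpleGraph (Fin 20))
    (hN : ∀ v w : Fin 20, (N v).testBit w.val = true ↔ (w = v ∨ H.Adj v w))
    (hs : ∀ v, N v < 2 ^ 20) (L : List (Fin 20)) (h : maxB N L = true) :
    Maximal (P H) L.toFinset := by
  unfold maxB at h
  rw [Bool.and_eq_true, List.all_eq_true] at h
  refine max_of H _ ((irr_iff N H hN hs L).2 h.1) ?_
  intro x hx hP
  have h2 := h.2 x (List.mem_finRange x)
  rw [Bool.or_eq_true] at h2
  rcases h2 with h2 | h2
  · exact hx (List.mem_toFinset.2 (List.contains_iff_mem.1 h2))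
  · rw [← List.toFinset_cons] at hP
    have := (irr_iff N H hN hs (x :: L)).1 hP
    rw [this] at h2
    exact absurd h2 (by decide)

theorem G_mask (v w : Fin 20) : (msk v).testBit w.val = true ↔ (w = v ∨ G.Adj v w) := by
  constructor
  · intro h
    by_cases hwv : w = v
    · exact Or.inl hwv
    · right
      show adjB v w = true
      unfold adjB
      rw [h, Bool.and_true, Bool.not_eq_true', decide_eq_false_iff_not]
      exact fun hh => hwv hh.symm
  · rintro (h | h)
    · rw [h]; exact self_tab v
    · have h' : adjB v w = true := h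
      unfold adjB at h'
      rw [Bool.and_eq_true] at h'
      exact h'.2

theorem del_mask (a b : Fin 20) (hab : G.Adj a b) (v w : Fin 20) :
    (del a b v).testBit w.val = true ↔ (w = v ∨ (G.deleteEdges {s(a, b)}).Adj v w) := by
  rw [SimpleGraph.deleteEdges_adj, Set.mem_singleton_iff, Sym2.eq_iff]
  have hne : a ≠ b := G.ne_of_adj hab
  have hba : (msk a).testBit b.val = true := (G_mask a b).2 (Or.inr hab)
  have hab' : (msk b).testBit a.val = true := (G_mask b a).2 (Or.inr hab.symm)
  unfold del
  by_cases hva : v = a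
  · subst hva
    rw [if_pos rfl, Nat.testBit_xor, Nat.testBit_two_pow]
    by_cases hwb : w = b
    · subst hwb
      simp [hba, hne.symm]
    · have : ¬ (b.val = w.val) := fun hh => hwb (Fin.ext hh.symm)
      simp only [this, decide_false, Bool.xor_false]
      rw [G_mask]
      constructor
      · rintro (h | h)
        · exact Or.inl h
        · refine Or.inr ⟨h, ?_⟩
          rintro (⟨_, h2⟩ | ⟨h1, _⟩)
          · exact hwb h2
          · exact hne h1
      · rintro (h | h)
        · exact Or.inl h
        · exact Or.inr h.1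
  · rw [if_neg hva]
    by_cases hvb : v = b
    · subst hvb
      rw [if_pos rfl, Nat.testBit_xor, Nat.testBit_two_pow]
      by_cases hwa : w = a
      · subst hwa
        simp [hab', hne]
      · have : ¬ (a.val = w.val) := fun hh => hwa (Fin.ext hh.symm)
        simp only [this, decide_false, Bool.xor_false]
        rw [G_mask]
        constructor
        · rintro (h | h)
          · exact Or.inl h
          · refine Or.inr ⟨h, ?_⟩
            rintro (⟨h1, _⟩ | ⟨_, h2⟩)
            · exact hva h1
            · exact hwa h2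
        · rintro (h | h)
          · exact Or.inl h
          · exact Or.inr h.1
    · rw [if_neg hvb, G_mask]
      constructor
      · rintro (h | h)
        · exact Or.inl h
        · refine Or.inr ⟨h, ?_⟩
          rintro (⟨h1, _⟩ | ⟨h1, _⟩)
          · exact hva h1
          · exact hvb h1
      · rintro (h | h)
        · exact Or.inl h
        · exact Or.inr h.1

theorem lower_card (S : Finset (Fin 20)) (hS : Maximal (P G) S) : 4 ≤ S.card := by
  by_contra hlt
  have hle : S.card ≤ 3 := by omega
  have hrep : S = ∅ ∨ ∃ a b c : Fin 20, S = [a, b, c].toFinset := by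
    interval_cases hc : S.card
    · left; exact Finset.card_eq_zero.1 hc
    · right
      obtain ⟨a, ha⟩ := Finset.card_eq_one.1 hc
      exact ⟨a, a, a, by rw [ha]; ext x; simp⟩
    · right
      obtain ⟨a, b, _, hab⟩ := Finset.card_eq_two.1 hc
      exact ⟨a, b, b, by rw [hab]; ext x; simp⟩
    · right
      obtain ⟨a, b, c, _, _, _, habc⟩ := Finset.card_eq_three.1 hc
      exact ⟨a, b, c, by rw [habc]; ext x; simp⟩
  rcases hrep with h0 | ⟨a, b, c, habc⟩
  · subst h0
    have h1 : P G {0} := by
      have : irrB msk [0] = true := by decide +kernel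
      have h2 := (irr_iff msk G G_mask small_tab [0]).2 this
      simpa using h2
    have := hS.2 h1 (by simp)
    exact absurd (this (Finset.mem_singleton_self 0)) (by simp)
  · have hP : P G [a, b, c].toFinset := by rw [← habc]; exact hS.1
    have hB := (irr_iff msk G G_mask small_tab _).1 hP
    have hl := lower a b c hB
    rw [List.any_eq_true] at hl
    obtain ⟨x, _, hx⟩ := hl
    rw [Bool.and_eq_true, Bool.not_eq_true'] at hx
    have hPx := (irr_iff msk G G_mask small_tab (x :: [a, b, c])).2 hx.2
    rw [List.toFinset_cons, ← habc] at hPx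
    have hxS : x ∈ S := hS.2 hPx (Finset.subset_insert x S) (Finset.mem_insert_self x S)
    rw [habc, List.mem_toFinset] at hxS
    have := List.contains_iff_mem.2 hxS
    rw [this] at hx
    exact absurd hx.1 (by decide)

/-- There is a finite simple graph with at least one edge such that deleting any single edge strictly lowers the lower irredundance number (the least size of a maximal irredundant vertex set). -/
theorem result :
    ∃ n : ℕ, ∃ G : SimpleGraph (Fin n), G.edgeSet.Nonempty ∧
      ∀ e ∈ G.edgeSet,
        sInf {k : ℕ | ∃ S : Finset (Fin n),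
            Maximal (fun T : Finset (Fin n) => ∀ v ∈ T, ∃ w : Fin n,
                (w = v ∨ (G.deleteEdges {e}).Adj v w) ∧
                ∀ u ∈ T, u ≠ v → ¬ (w = u ∨ (G.deleteEdges {e}).Adj u w)) S ∧
            S.card = k}
          <
        sInf {k : ℕ | ∃ S : Finset (Fin n),
            Maximal (fun T : Finset (Fin n) => ∀ v ∈ T, ∃ w : Fin n,
                (w = v ∨ G.Adj v w) ∧
                ∀ u ∈ T, u ≠ v → ¬ (w = u ∨ G.Adj u w)) S ∧
            S.card = k} := by
  refine ⟨20, G, ⟨s(0, 2), ?_⟩, ?_⟩
  · show G.Adj 0 2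
    show adjB 0 2 = true
    decide +kernel
  · intro e
    induction e using Sym2.ind with
    | _ a b =>
      intro he
      have hab : G.Adj a b := he
      have h1 : sInf {k : ℕ | ∃ S : Finset (Fin 20), Maximal (P (G.deleteEdges {s(a, b)})) S ∧
          S.card = k} ≤ 3 := by
        have hd := drops a b hab
        rw [List.any_eq_true] at hd
        obtain ⟨L, hL, hmax⟩ := hd
        have hM := max_of_maxB (del a b) (G.deleteEdges {s(a, b)}) (del_mask a b hab)
          (small_del a b) L hmax
        calc sInf {k : ℕ | ∃ S : Finset (Fin 20), Maximal (P (G.deleteEdges {s(a, b)})) S ∧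
          S.card = k} ≤ L.toFinset.card := Nat.sInf_le ⟨L.toFinset, hM, rfl⟩
          _ ≤ L.length := List.toFinset_card_le L
          _ = 3 := wit_len L hL
      have h2 : 4 ≤ sInf {k : ℕ | ∃ S : Finset (Fin 20), Maximal (P G) S ∧ S.card = k} := by
        apply le_csInf
        · exact ⟨_, _, max_of_maxB msk G G_mask small_tab _ four, rfl⟩
        · rintro k ⟨S, hS, rfl⟩
          exact lower_card S hS
      exact lt_of_le_of_lt h1 (lt_of_lt_of_le (by norm_num) h2)

end Pool.Agent.S05361
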