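import Pool.Statements.S05372

set_option autoImplicit false
open Pool Pool.MP_3efdf8_co

namespace Pool.Agent.S05372

/-!
A counterexample on 22 vertices. Let B be the complete bipartite graph on 3 + 3 vertices without one
edge, and D the complete graph on 4 vertices without one edge, each with the two vertices of degree 2
as its ends. Join two vertices a = 0 and b = 1 by an edge, by a chain of two copies of B, and by a
chain of two copies of D. The result is a simple hamiltonian cubic graph. Its prism has no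
Hamilton decomposition: degree and cut conditions on one of the two cycles are contradictory.
-/

/-- the 33 edges of the cubic graph -/
def edgeL : List (ℕ × ℕ) :=
  [(0, 1), (2, 6), (2, 7), (3, 5), (3, 6), (3, 7), (4, 5), (4, 6), (4, 7), (8, 12), (8, 13), (9, 11), (9, 12), (9, 13), (10, 11), (10, 12), (10, 13), (0, 2), (5, 8), (11, 1), (14, 15), (14, 16), (15, 16), (15, 17), (16, 17), (18, 19), (18, 20), (19, 20), (19, 21), (20, 21), (0, 14), (17, 18), (21, 1)]

def adjB (i j : Fin 22) : Bool := edgeL.contains (i.1, j.1) || edgeL.contains (j.1, i.1)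

lemma adjB_symm : ∀ i j, adjB i j = true → adjB j i = true := by decide +kernel
lemma adjB_irrefl : ∀ i, ¬ (adjB i i = true) := by decide +kernel

/-- the cubic graph -/
def G : SimpleGraph (Fin 22) where
  Adj i j := adjB i j = true
  symm := ⟨fun i j h => adjB_symm i j h⟩
  loopless := ⟨fun i h => adjB_irrefl i h⟩

instance : DecidableRel G.Adj := fun i j => inferInstanceAs (Decidable (adjB i j = true))

abbrev W : Type := Fin 22 × Fin 2

/-- the prism -/
abbrev H : SimpleGraph W := G.boxProd (⊤ : SimpleGraph (Fin 2))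

/-- adjacency in the prism, as a Boolean -/
def adjH (x y : W) : Bool := (adjB x.1 y.1 && x.2 == y.2) || (x.1 == y.1 && !(x.2 == y.2))

lemma H_adj (x y : W) : H.Adj x y ↔ adjH x y = true := by
  rw [SimpleGraph.boxProd_adj]
  simp only [adjH, Bool.or_eq_true, Bool.and_eq_true, beq_iff_eq, Bool.not_eq_true',
    beq_eq_false_iff_ne, SimpleGraph.top_adj]
  constructor
  · rintro (⟨h1, h2⟩ | ⟨h1, h2⟩)
    · exact Or.inl ⟨h1, h2⟩
    · exact Or.inr ⟨h2, h1⟩
  · rintro (⟨h1, h2⟩ | ⟨h1, h2⟩)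
    · exact Or.inl ⟨h1, h2⟩
    · exact Or.inr ⟨h2, h1⟩

section general

variable {α : Type*} [DecidableEq α] {K : SimpleGraph α}

/-- the 0/1 indicator of the edges of a walk -/
def ind {u v : α} (p : K.Walk u v) (e : Sym2 α) : ℕ := if e ∈ p.edges then 1 else 0

lemma deg_lemma {u : α} (p : K.Walk u u) (hp : p.IsHamiltonianCycle) (w : α) (nb : Fin 4 → α)
    (hinj : Function.Injective nb) (hadj : ∀ y, K.Adj w y → ∃ k, nb k = y) :
    ind p s(w, nb 0) + ind p s(w, nb 1) + ind p s(w, nb 2) + ind p s(w, nb 3) = 2 := by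
  have h2 : (p.toSubgraph.neighborSet w).ncard = 2 :=
    hp.isCycle.ncard_neighborSet_toSubgraph_eq_two (hp.mem_support w)
  have hset : p.toSubgraph.neighborSet w =
      nb '' ((Finset.univ.filter (fun k : Fin 4 => s(w, nb k) ∈ p.edges) : Finset (Fin 4)) : Set (Fin 4)) := by
    ext y
    simp only [SimpleGraph.Subgraph.mem_neighborSet, SimpleGraph.Walk.adj_toSubgraph_iff_mem_edges,
      Set.mem_image, Finset.coe_filter, Finset.mem_univ, true_and, Set.mem_ofPred_eq]
    constructor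
    · intro h
      obtain ⟨k, rfl⟩ := hadj y (p.adj_of_mem_edges h)
      exact ⟨k, h, rfl⟩
    · rintro ⟨k, h, rfl⟩
      exact h
  rw [hset, Set.ncard_image_of_injective _ hinj, Set.ncard_coe_finset, Finset.card_filter,
    Fin.sum_univ_four] at h2
  exact h2

lemma cut_lemma {u : α} (p : K.Walk u u) (hp : p.IsHamiltonianCycle) (S : α → Bool) (x y : α)
    (hx : S x = true) (hy : S y = false) :
    ∃ a b, S a = true ∧ S b = false ∧ K.Adj a b ∧ s(a, b) ∈ p.edges := by
  by_cases hu : S u = true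
  · obtain ⟨d, hd, h1, h2⟩ := (p.takeUntil y (hp.mem_support y)).exists_boundary_dart
      {z | S z = true} hu (by simp [hy])
    have hd' := p.darts_takeUntil_subset_darts (hp.mem_support y) hd
    refine ⟨d.fst, d.snd, h1, by simpa using h2, d.adj, ?_⟩
    exact List.mem_map_of_mem (f := SimpleGraph.Dart.edge) hd'
  · obtain ⟨d, hd, h1, h2⟩ := (p.takeUntil x (hp.mem_support x)).exists_boundary_dart
      {z | S z = false} (by simpa using hu) (by simp [hx])
    have hd' := p.darts_takeUntil_subset_darts (hp.mem_support x) hd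
    refine ⟨d.snd, d.fst, by simpa using h2, h1, d.adj.symm, ?_⟩
    rw [Sym2.eq_swap]
    exact List.mem_map_of_mem (f := SimpleGraph.Dart.edge) hd'

end general

/-- the neighbours in the cubic graph -/
def nb3 : Fin 22 → Fin 3 → Fin 22 :=
  ![![1, 2, 14], ![0, 11, 21], ![0, 6, 7], ![5, 6, 7], ![5, 6, 7], ![3, 4, 8], ![2, 3, 4], ![2, 3, 4], ![5, 12, 13], ![11, 12, 13], ![11, 12, 13], ![1, 9, 10], ![8, 9, 10], ![8, 9, 10], ![0, 15, 16], ![14, 16, 17], ![14, 15, 17], ![15, 16, 18], ![17, 19, 20], ![18, 20, 21], ![18, 19, 21], ![1, 19, 20]]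

/-- the neighbours in the prism -/
def nbH (w : W) : Fin 4 → W :=
  ![(nb3 w.1 0, w.2), (nb3 w.1 1, w.2), (nb3 w.1 2, w.2), (w.1, 1 - w.2)]

/-- the 88 edges of the prism as pairs: level 0, level 1, vertical edges -/
def EP (k : ℕ) : W × W :=
  if k < 33 then
    (((Fin.ofNat 22 (edgeL.getD k (0, 0)).1), 0), ((Fin.ofNat 22 (edgeL.getD k (0, 0)).2), 0))
  else if k < 66 then
    (((Fin.ofNat 22 (edgeL.getD (k - 33) (0, 0)).1), 1), ((Fin.ofNat 22 (edgeL.getD (k - 33) (0, 0)).2), 1))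
  else ((Fin.ofNat 22 (k - 66), 0), (Fin.ofNat 22 (k - 66), 1))

/-- the same edges as unordered pairs -/
def E (k : ℕ) : Sym2 W := s((EP k).1, (EP k).2)

def sameE (k : ℕ) (x y : W) : Bool := EP k == (x, y) || EP k == (y, x)

lemma sameE_spec {k : ℕ} {x y : W} (h : sameE k x y = true) : E k = s(x, y) := by
  simp only [sameE, Bool.or_eq_true, beq_iff_eq] at h
  rcases h with h | h
  · simp [E, h]
  · rw [E, h, Sym2.eq_swap]

/-- the indices of the four edges at a vertex of the prism -/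
def incL : List (List ℕ) :=
  [[0, 17, 30, 66], [33, 50, 63, 66], [0, 19, 32, 67], [33, 52, 65, 67], [17, 1, 2, 68], [50, 34, 35, 68], [3, 4, 5, 69], [36, 37, 38, 69], [6, 7, 8, 70], [39, 40, 41, 70], [3, 6, 18, 71], [36, 39, 51, 71], [1, 4, 7, 72], [34, 37, 40, 72], [2, 5, 8, 73], [35, 38, 41, 73], [18, 9, 10, 74], [51, 42, 43, 74], [11, 12, 13, 75], [44, 45, 46, 75], [14, 15, 16, 76], [47, 48, 49, 76], [19, 11, 14, 77], [52, 44, 47, 77], [9, 12, 15, 78], [42, 45, 48, 78], [10, 13, 16, 79], [43, 46, 49, 79], [30, 20, 21, 80], [63, 53, 54, 80], [20, 22, 23, 81], [53, 55, 56, 81], [21, 22, 24, 82], [54, 55, 57, 82], [23, 24, 31, 83], [56, 57, 64, 83], [31, 25, 26, 84], [64, 58, 59, 84], [25, 27, 28, 85], [58, 60, 61, 85], [26, 27, 29, 86], [59, 60, 62, 86], [32, 28, 29, 87], [65, 61, 62, 87]]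

def inc (w : W) (k : Fin 4) : ℕ := (incL.getD (2 * w.1.1 + w.2.1) []).getD k.1 0

lemma inc_spec : ∀ w k, sameE (inc w k) w (nbH w k) = true := by decide +kernel
lemma nbH_inj : ∀ w, Function.Injective (nbH w) := by decide +kernel
lemma nbH_adj : ∀ w y, adjH w y = true → ∃ k, nbH w k = y := by decide +kernel

lemma vertex_eq {u : W} (p : H.Walk u u) (hp : p.IsHamiltonianCycle) (w : W) :
    ind p (E (inc w 0)) + ind p (E (inc w 1)) + ind p (E (inc w 2)) + ind p (E (inc w 3)) = 2 := by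
  have h := deg_lemma p hp w (nbH w) (nbH_inj w) (fun y hy => nbH_adj w y ((H_adj w y).1 hy))
  rw [sameE_spec (inc_spec w 0), sameE_spec (inc_spec w 1), sameE_spec (inc_spec w 2),
    sameE_spec (inc_spec w 3)]
  exact h

lemma ind_le {u : W} (p : H.Walk u u) (e : Sym2 W) : ind p e ≤ 1 := by
  unfold ind; split <;> omega

lemma sum_le (T : ℕ → ℕ) (hT : ∀ k, T k ≤ 1) (L : List ℕ) : (L.map T).sum ≤ L.length := by
  induction L with
  | nil => simp
  | cons a l ih =>
    simp only [List.map_cons, List.sum_cons, List.length_cons]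
    have := hT a
    omega

lemma sum_lt (T : ℕ → ℕ) (hT : ∀ k, T k ≤ 1) (L : List ℕ) (h : ∃ k ∈ L, T k = 0) :
    (L.map T).sum + 1 ≤ L.length := by
  induction L with
  | nil => obtain ⟨k, hk, -⟩ := h; simp at hk
  | cons a l ih =>
    simp only [List.map_cons, List.sum_cons, List.length_cons]
    obtain ⟨k, hk, h0⟩ := h
    have h1 := hT a
    rcases List.mem_cons.1 hk with rfl | hk
    · have := sum_le T hT l
      omega
    · have := ih ⟨k, hk, h0⟩
      omega

lemma sum_pos (T : ℕ → ℕ) (L : List ℕ) (h : ∃ k ∈ L, T k = 1) :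
    1 ≤ (L.map T).sum := by
  induction L with
  | nil => obtain ⟨k, hk, -⟩ := h; simp at hk
  | cons a l ih =>
    simp only [List.map_cons, List.sum_cons]
    obtain ⟨k, hk, h0⟩ := h
    rcases List.mem_cons.1 hk with rfl | hk
    · omega
    · have := ih ⟨k, hk, h0⟩
      omega

/-- every edge cut contains an edge of each of the two cycles -/
lemma cut_eq {u v : W} (p : H.Walk u u) (q : H.Walk v v) (hp : p.IsHamiltonianCycle)
    (hq : q.IsHamiltonianCycle) (hpq : ∀ e ∈ H.edgeSet, (e ∈ p.edges ↔ e ∉ q.edges))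
    (S : W → Bool) (L : List ℕ)
    (hL : ∀ x y, S x = true → S y = false → adjH x y = true → ∃ k ∈ L, sameE k x y = true)
    (x y : W) (hx : S x = true) (hy : S y = false) :
    1 ≤ (L.map (fun k => ind p (E k))).sum ∧ (L.map (fun k => ind p (E k))).sum + 1 ≤ L.length := by
  constructor
  · obtain ⟨a, b, ha, hb, hab, he⟩ := cut_lemma p hp S x y hx hy
    obtain ⟨k, hk, hs⟩ := hL a b ha hb ((H_adj a b).1 hab)
    refine sum_pos _ L ⟨k, hk, ?_⟩
    show ind p (E k) = 1
    rw [sameE_spec hs, ind, if_pos he]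
  · obtain ⟨a, b, ha, hb, hab, he⟩ := cut_lemma q hq S x y hx hy
    obtain ⟨k, hk, hs⟩ := hL a b ha hb ((H_adj a b).1 hab)
    refine sum_lt _ (fun k => ind_le p (E k)) L ⟨k, hk, ?_⟩
    show ind p (E k) = 0
    have : s(a, b) ∉ p.edges := by
      rw [hpq s(a, b) hab]
      exact fun h => h he
    rw [sameE_spec hs, ind, if_neg this]

/-- the piece of a vertex: 0, 1 the two ends, 2, 3 the copies of B, 4, 5 the copies of D -/
def part6 (i : Fin 22) : ℕ :=
  if i.1 < 2 then i.1 else if i.1 < 8 then 2 else if i.1 < 14 then 3 else if i.1 < 18 then 4 else 5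

def cutB1 : W → Bool := fun w => part6 w.1 == 2
lemma cutB1_spec : ∀ x y, cutB1 x = true → cutB1 y = false → adjH x y = true →
    ∃ k ∈ [17, 50, 18, 51], sameE k x y = true := by decide +kernel

def cutB2 : W → Bool := fun w => part6 w.1 == 3
lemma cutB2_spec : ∀ x y, cutB2 x = true → cutB2 y = false → adjH x y = true →
    ∃ k ∈ [18, 51, 19, 52], sameE k x y = true := by decide +kernel

def cutX : W → Bool := fun w => part6 w.1 == 2 || part6 w.1 == 3
lemma cutX_spec : ∀ x y, cutX x = true → cutX y = false → adjH x y = true →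
    ∃ k ∈ [17, 50, 19, 52], sameE k x y = true := by decide +kernel

def cutD1 : W → Bool := fun w => part6 w.1 == 4
lemma cutD1_spec : ∀ x y, cutD1 x = true → cutD1 y = false → adjH x y = true →
    ∃ k ∈ [30, 63, 31, 64], sameE k x y = true := by decide +kernel

def cutD2 : W → Bool := fun w => part6 w.1 == 5
lemma cutD2_spec : ∀ x y, cutD2 x = true → cutD2 y = false → adjH x y = true →
    ∃ k ∈ [31, 64, 32, 65], sameE k x y = true := by decide +kernel

def cutY : W → Bool := fun w => part6 w.1 == 4 || part6 w.1 == 5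
lemma cutY_spec : ∀ x y, cutY x = true → cutY y = false → adjH x y = true →
    ∃ k ∈ [30, 63, 32, 65], sameE k x y = true := by decide +kernel

def cutS0 : W → Bool := fun w => part6 w.1 == 2 || part6 w.1 == 3 || (decide (part6 w.1 < 2) && w.2 == 0)
lemma cutS0_spec : ∀ x y, cutS0 x = true → cutS0 y = false → adjH x y = true →
    ∃ k ∈ [50, 52, 30, 32, 66, 67], sameE k x y = true := by decide +kernel

def cutS1 : W → Bool := fun w => part6 w.1 == 2 || part6 w.1 == 3 || (decide (part6 w.1 < 2) && w.2 == 1)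
lemma cutS1_spec : ∀ x y, cutS1 x = true → cutS1 y = false → adjH x y = true →
    ∃ k ∈ [17, 19, 63, 65, 66, 67], sameE k x y = true := by decide +kernel


/-- the degree equations in a copy of B -/
lemma arith_B (l0 l1 r0 r1 : ℕ)
    (a1 a2 a3 a4 a5 a6 a7 a8 b1 b2 b3 b4 b5 b6 b7 b8 c1 c2 c3 d1 d2 d3 : ℕ)
    (h1 : l0 + a1 + a2 + c1 = 2) (h2 : a3 + a4 + a5 + c2 = 2) (h3 : a6 + a7 + a8 + c3 = 2)
    (h4 : a3 + a6 + r0 + d1 = 2) (h5 : a1 + a4 + a7 + d2 = 2) (h6 : a2 + a5 + a8 + d3 = 2)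
    (h1' : l1 + b1 + b2 + c1 = 2) (h2' : b3 + b4 + b5 + c2 = 2) (h3' : b6 + b7 + b8 + c3 = 2)
    (h4' : b3 + b6 + r1 + d1 = 2) (h5' : b1 + b4 + b7 + d2 = 2) (h6' : b2 + b5 + b8 + d3 = 2) :
    l0 + r1 = l1 + r0 ∧ (l0 + l1 + r0 + r1) % 2 = 0 := by
  constructor <;> omega

/-- the degree equations in a copy of D -/
lemma arith_D (l0 l1 r0 r1 : ℕ)
    (a1 a2 a3 a4 a5 b1 b2 b3 b4 b5 c1 c2 c3 c4 : ℕ)
    (h1 : l0 + a1 + a2 + c1 = 2) (h2 : a1 + a3 + a4 + c2 = 2) (h3 : a2 + a3 + a5 + c3 = 2)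
    (h4 : a4 + a5 + r0 + c4 = 2)
    (h1' : l1 + b1 + b2 + c1 = 2) (h2' : b1 + b3 + b4 + c2 = 2) (h3' : b2 + b3 + b5 + c3 = 2)
    (h4' : b4 + b5 + r1 + c4 = 2) :
    (l0 + l1 + r0 + r1) % 2 = 0 := by
  omega


theorem no_decomp {u v : W} (p : H.Walk u u) (q : H.Walk v v) (hp : p.IsHamiltonianCycle)
    (hq : q.IsHamiltonianCycle) (hpq : ∀ e ∈ H.edgeSet, (e ∈ p.edges ↔ e ∉ q.edges)) : False := by
  obtain ⟨T, hT⟩ : ∃ T : ℕ → ℕ, T = fun k => ind p (E k) := ⟨_, rfl⟩
  have hle : ∀ k, T k ≤ 1 := fun k => by rw [hT]; exact ind_le p (E k)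
  have hv : ∀ w, T (inc w 0) + T (inc w 1) + T (inc w 2) + T (inc w 3) = 2 := fun w => by
    rw [hT]; exact vertex_eq p hp w
  have hc : ∀ (S : W → Bool) (L : List ℕ)
      (_ : ∀ x y, S x = true → S y = false → adjH x y = true → ∃ k ∈ L, sameE k x y = true)
      (x y : W) (_ : S x = true) (_ : S y = false),
      1 ≤ (L.map T).sum ∧ (L.map T).sum + 1 ≤ L.length := by
    rw [hT]
    exact fun S L hL x y hx hy => cut_eq p q hp hq hpq S L hL x y hx hy
  have kB1 := hc cutB1 _ cutB1_spec (2, 0) (0, 0) (by decide +kernel) (by decide +kernel)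
  simp only [List.map_cons, List.map_nil, List.sum_cons, List.sum_nil, List.length_cons, List.length_nil] at kB1
  have kB2 := hc cutB2 _ cutB2_spec (8, 0) (0, 0) (by decide +kernel) (by decide +kernel)
  simp only [List.map_cons, List.map_nil, List.sum_cons, List.sum_nil, List.length_cons, List.length_nil] at kB2
  have kX := hc cutX _ cutX_spec (2, 0) (0, 0) (by decide +kernel) (by decide +kernel)
  simp only [List.map_cons, List.map_nil, List.sum_cons, List.sum_nil, List.length_cons, List.length_nil] at kX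
  have kD1 := hc cutD1 _ cutD1_spec (14, 0) (0, 0) (by decide +kernel) (by decide +kernel)
  simp only [List.map_cons, List.map_nil, List.sum_cons, List.sum_nil, List.length_cons, List.length_nil] at kD1
  have kD2 := hc cutD2 _ cutD2_spec (18, 0) (0, 0) (by decide +kernel) (by decide +kernel)
  simp only [List.map_cons, List.map_nil, List.sum_cons, List.sum_nil, List.length_cons, List.length_nil] at kD2
  have kY := hc cutY _ cutY_spec (14, 0) (0, 0) (by decide +kernel) (by decide +kernel)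
  simp only [List.map_cons, List.map_nil, List.sum_cons, List.sum_nil, List.length_cons, List.length_nil] at kY
  have kS0 := hc cutS0 _ cutS0_spec (2, 0) (14, 0) (by decide +kernel) (by decide +kernel)
  simp only [List.map_cons, List.map_nil, List.sum_cons, List.sum_nil, List.length_cons, List.length_nil] at kS0
  have kS1 := hc cutS1 _ cutS1_spec (2, 0) (14, 0) (by decide +kernel) (by decide +kernel)
  simp only [List.map_cons, List.map_nil, List.sum_cons, List.sum_nil, List.length_cons, List.length_nil] at kS1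
  have v0_0 : T 0 + T 17 + T 30 + T 66 = 2 := hv (0, 0)
  have v0_1 : T 33 + T 50 + T 63 + T 66 = 2 := hv (0, 1)
  have v1_0 : T 0 + T 19 + T 32 + T 67 = 2 := hv (1, 0)
  have v1_1 : T 33 + T 52 + T 65 + T 67 = 2 := hv (1, 1)
  have v2_0 : T 17 + T 1 + T 2 + T 68 = 2 := hv (2, 0)
  have v2_1 : T 50 + T 34 + T 35 + T 68 = 2 := hv (2, 1)
  have v3_0 : T 3 + T 4 + T 5 + T 69 = 2 := hv (3, 0)
  have v3_1 : T 36 + T 37 + T 38 + T 69 = 2 := hv (3, 1)
  have v4_0 : T 6 + T 7 + T 8 + T 70 = 2 := hv (4, 0)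
  have v4_1 : T 39 + T 40 + T 41 + T 70 = 2 := hv (4, 1)
  have v5_0 : T 3 + T 6 + T 18 + T 71 = 2 := hv (5, 0)
  have v5_1 : T 36 + T 39 + T 51 + T 71 = 2 := hv (5, 1)
  have v6_0 : T 1 + T 4 + T 7 + T 72 = 2 := hv (6, 0)
  have v6_1 : T 34 + T 37 + T 40 + T 72 = 2 := hv (6, 1)
  have v7_0 : T 2 + T 5 + T 8 + T 73 = 2 := hv (7, 0)
  have v7_1 : T 35 + T 38 + T 41 + T 73 = 2 := hv (7, 1)
  have v8_0 : T 18 + T 9 + T 10 + T 74 = 2 := hv (8, 0)
  have v8_1 : T 51 + T 42 + T 43 + T 74 = 2 := hv (8, 1)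
  have v9_0 : T 11 + T 12 + T 13 + T 75 = 2 := hv (9, 0)
  have v9_1 : T 44 + T 45 + T 46 + T 75 = 2 := hv (9, 1)
  have v10_0 : T 14 + T 15 + T 16 + T 76 = 2 := hv (10, 0)
  have v10_1 : T 47 + T 48 + T 49 + T 76 = 2 := hv (10, 1)
  have v11_0 : T 19 + T 11 + T 14 + T 77 = 2 := hv (11, 0)
  have v11_1 : T 52 + T 44 + T 47 + T 77 = 2 := hv (11, 1)
  have v12_0 : T 9 + T 12 + T 15 + T 78 = 2 := hv (12, 0)
  have v12_1 : T 42 + T 45 + T 48 + T 78 = 2 := hv (12, 1)
  have v13_0 : T 10 + T 13 + T 16 + T 79 = 2 := hv (13, 0)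
  have v13_1 : T 43 + T 46 + T 49 + T 79 = 2 := hv (13, 1)
  have v14_0 : T 30 + T 20 + T 21 + T 80 = 2 := hv (14, 0)
  have v14_1 : T 63 + T 53 + T 54 + T 80 = 2 := hv (14, 1)
  have v15_0 : T 20 + T 22 + T 23 + T 81 = 2 := hv (15, 0)
  have v15_1 : T 53 + T 55 + T 56 + T 81 = 2 := hv (15, 1)
  have v16_0 : T 21 + T 22 + T 24 + T 82 = 2 := hv (16, 0)
  have v16_1 : T 54 + T 55 + T 57 + T 82 = 2 := hv (16, 1)
  have v17_0 : T 23 + T 24 + T 31 + T 83 = 2 := hv (17, 0)
  have v17_1 : T 56 + T 57 + T 64 + T 83 = 2 := hv (17, 1)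
  have v18_0 : T 31 + T 25 + T 26 + T 84 = 2 := hv (18, 0)
  have v18_1 : T 64 + T 58 + T 59 + T 84 = 2 := hv (18, 1)
  have v19_0 : T 25 + T 27 + T 28 + T 85 = 2 := hv (19, 0)
  have v19_1 : T 58 + T 60 + T 61 + T 85 = 2 := hv (19, 1)
  have v20_0 : T 26 + T 27 + T 29 + T 86 = 2 := hv (20, 0)
  have v20_1 : T 59 + T 60 + T 62 + T 86 = 2 := hv (20, 1)
  have v21_0 : T 32 + T 28 + T 29 + T 87 = 2 := hv (21, 0)
  have v21_1 : T 65 + T 61 + T 62 + T 87 = 2 := hv (21, 1)
  have aB1 := arith_B (T 17) (T 50) (T 18) (T 51) (T 1) (T 2) (T 3) (T 4) (T 5) (T 6) (T 7) (T 8) (T 34) (T 35) (T 36) (T 37) (T 38) (T 39) (T 40) (T 41) (T 68) (T 69) (T 70) (T 71) (T 72) (T 73)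
    (Eq.trans (by ring) v2_0) (Eq.trans (by ring) v3_0) (Eq.trans (by ring) v4_0) (Eq.trans (by ring) v5_0) (Eq.trans (by ring) v6_0) (Eq.trans (by ring) v7_0) (Eq.trans (by ring) v2_1) (Eq.trans (by ring) v3_1) (Eq.trans (by ring) v4_1) (Eq.trans (by ring) v5_1) (Eq.trans (by ring) v6_1) (Eq.trans (by ring) v7_1)
  have aB2 := arith_B (T 18) (T 51) (T 19) (T 52) (T 9) (T 10) (T 11) (T 12) (T 13) (T 14) (T 15) (T 16) (T 42) (T 43) (T 44) (T 45) (T 46) (T 47) (T 48) (T 49) (T 74) (T 75) (T 76) (T 77) (T 78) (T 79)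
    (Eq.trans (by ring) v8_0) (Eq.trans (by ring) v9_0) (Eq.trans (by ring) v10_0) (Eq.trans (by ring) v11_0) (Eq.trans (by ring) v12_0) (Eq.trans (by ring) v13_0) (Eq.trans (by ring) v8_1) (Eq.trans (by ring) v9_1) (Eq.trans (by ring) v10_1) (Eq.trans (by ring) v11_1) (Eq.trans (by ring) v12_1) (Eq.trans (by ring) v13_1)
  have aD1 := arith_D (T 30) (T 63) (T 31) (T 64) (T 20) (T 21) (T 22) (T 23) (T 24) (T 53) (T 54) (T 55) (T 56) (T 57) (T 80) (T 81) (T 82) (T 83)
    (Eq.trans (by ring) v14_0) (Eq.trans (by ring) v15_0) (Eq.trans (by ring) v16_0) (Eq.trans (by ring) v17_0) (Eq.trans (by ring) v14_1) (Eq.trans (by ring) v15_1) (Eq.trans (by ring) v16_1) (Eq.trans (by ring) v17_1)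
  have aD2 := arith_D (T 31) (T 64) (T 32) (T 65) (T 25) (T 26) (T 27) (T 28) (T 29) (T 58) (T 59) (T 60) (T 61) (T 62) (T 84) (T 85) (T 86) (T 87)
    (Eq.trans (by ring) v18_0) (Eq.trans (by ring) v19_0) (Eq.trans (by ring) v20_0) (Eq.trans (by ring) v21_0) (Eq.trans (by ring) v18_1) (Eq.trans (by ring) v19_1) (Eq.trans (by ring) v20_1) (Eq.trans (by ring) v21_1)
  have l17 := hle 17
  have l50 := hle 50
  have l18 := hle 18
  have l51 := hle 51
  have l19 := hle 19
  have l52 := hle 52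
  have l30 := hle 30
  have l63 := hle 63
  have l31 := hle 31
  have l64 := hle 64
  have l32 := hle 32
  have l65 := hle 65
  have l0 := hle 0
  have l33 := hle 33
  have l66 := hle 66
  have l67 := hle 67
  clear hT hv hc hle hpq
  clear v2_0 v2_1 v3_0 v3_1 v4_0 v4_1 v5_0 v5_1 v6_0 v6_1 v7_0 v7_1 v8_0 v8_1 v9_0 v9_1 v10_0 v10_1 v11_0 v11_1 v12_0 v12_1 v13_0 v13_1 v14_0 v14_1 v15_0 v15_1 v16_0 v16_1 v17_0 v17_1 v18_0 v18_1 v19_0 v19_1 v20_0 v20_1 v21_0 v21_1
  omega

lemma hamCycle_of_list {α : Type*} [DecidableEq α] [Fintype α] (H : SimpleGraph α) (a b m : α) (M : List α)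
    (hc : (a :: b :: m :: (M ++ [a])).IsChain H.Adj) (hn : (a :: b :: m :: M).Nodup)
    (hcard : (a :: b :: m :: M).length = Fintype.card α) : H.IsHamiltonian := by
  intro _
  obtain ⟨hab, hc1⟩ := List.isChain_cons_cons.1 hc
  obtain ⟨hbm, hc2⟩ := List.isChain_cons_cons.1 hc1
  have hne : m :: (M ++ [a]) ≠ [] := by simp
  have hlast : (m :: (M ++ [a])).getLast hne = a := by
    rw [List.getLast_cons (by simp)]
    simp
  let q : H.Walk m a := (SimpleGraph.Walk.ofSupport (m :: (M ++ [a])) hne hc2).copy rfl hlast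
  have hq : q.support = m :: (M ++ [a]) :=
    (SimpleGraph.Walk.support_copy _ _ _).trans (SimpleGraph.Walk.support_ofSupport hne hc2)
  have hperm : (a :: b :: m :: M).Perm (b :: m :: (M ++ [a])) := by
    have : ((b :: m :: M) ++ [a]).Perm (a :: b :: m :: M) := List.perm_append_singleton a _
    simpa using this.symm
  have hn' : (b :: m :: (M ++ [a])).Nodup := hperm.nodup_iff.1 hn
  have hba : b ≠ a := by
    rintro rfl
    simp at hn
  have ham : a ≠ m := by
    rintro rfl
    simp at hn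
  have hpath : (SimpleGraph.Walk.cons hbm q).IsPath := by
    rw [SimpleGraph.Walk.isPath_def, SimpleGraph.Walk.support_cons, hq]
    exact hn'
  have hnotin : s(a, b) ∉ (SimpleGraph.Walk.cons hbm q).edges := by
    rw [SimpleGraph.Walk.edges_cons, List.mem_cons, not_or]
    constructor
    · intro h
      rw [Sym2.eq_iff] at h
      rcases h with ⟨h1, -⟩ | ⟨h1, -⟩
      · exact hba h1.symm
      · exact ham h1
    · intro h
      have := SimpleGraph.Walk.snd_mem_support_of_mem_edges q h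
      rw [hq] at this
      exact (List.nodup_cons.1 hn').1 this
  refine ⟨a, SimpleGraph.Walk.cons hab (SimpleGraph.Walk.cons hbm q), ?_⟩
  rw [SimpleGraph.Walk.isHamiltonianCycle_iff_isCycle_and_length_eq]
  refine ⟨(SimpleGraph.Walk.cons_isCycle_iff _ hab).2 ⟨hpath, hnotin⟩, ?_⟩
  rw [← hcard]
  have := congrArg List.length hq
  rw [SimpleGraph.Walk.length_support] at this
  simp only [SimpleGraph.Walk.length_cons, List.length_cons, List.length_append, List.length_nil] at this ⊢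
  omega


set_option maxRecDepth 100000 in
lemma G_reg : G.IsRegularOfDegree 3 := by
  intro v
  revert v
  decide +kernel

lemma chainAdj : ((0 : Fin 22) :: 2 :: 6 :: (([3, 7, 4, 5, 8, 12, 9, 13, 10, 11, 1, 21, 20, 19, 18, 17, 16, 15, 14] : List (Fin 22)) ++ [0])).IsChain
    G.Adj := by
  decide +kernel

lemma G_ham : G.IsHamiltonian := by
  refine hamCycle_of_list G 0 2 6 [3, 7, 4, 5, 8, 12, 9, 13, 10, 11, 1, 21, 20, 19, 18, 17, 16, 15, 14]
    chainAdj (by decide +kernel) (by decide +kernel)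

/-- The negation of the preceding statement: For every finite simple 3-regular hamiltonian graph G, the prism G □ K₂ has two Hamilton cycles such that every edge of the prism lies in exactly one of them. -/
theorem result :
    ¬ (∀ (V : Type) [Fintype V] [DecidableEq V] (G : SimpleGraph V) [DecidableRel G.Adj],
      G.IsRegularOfDegree 3 → G.IsHamiltonian →
      ∃ (u v : V × Fin 2)
        (p : (G.boxProd (⊤ : SimpleGraph (Fin 2))).Walk u u)
        (q : (G.boxProd (⊤ : SimpleGraph (Fin 2))).Walk v v),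
        p.IsHamiltonianCycle ∧ q.IsHamiltonianCycle ∧
        ∀ e ∈ (G.boxProd (⊤ : SimpleGraph (Fin 2))).edgeSet,
          (e ∈ p.edges ↔ e ∉ q.edges)) := by
  intro h
  obtain ⟨u, v, p, q, hp, hq, hpq⟩ := h (Fin 22) G G_reg G_ham
  exact no_decomp p q hp hq hpq

end Pool.Agent.S05372
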