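import Pool.Statements.S05384

set_option autoImplicit false
open Pool Pool.MP_3fd808_co

namespace Pool.Agent.S05384

/-- The coloured tournament: the entry is 0 when there is no arc and the colour (1 to 4) otherwise. -/
def tab : Fin 6 → Fin 6 → ℕ := ![
  ![0, 1, 2, 3, 0, 0],
  ![0, 0, 4, 2, 3, 0],
  ![0, 0, 0, 3, 2, 3],
  ![0, 0, 0, 0, 1, 2],
  ![1, 0, 0, 0, 0, 4],
  ![3, 4, 0, 0, 0, 0]]

/-- One step of closing a set of vertices under the arcs of colour `a`. -/
def step (a : ℕ) (S : Fin 6 → Bool) : Fin 6 → Bool := fun y =>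
  S y || (decide (∃ x : Fin 6, S x = true ∧ tab x y = a))

/-- The vertices reachable from `v` by arcs of colour `a` (including `v`). -/
def reach (a : ℕ) (v : Fin 6) : Fin 6 → Bool :=
  step a (step a (step a (step a (step a (fun y => decide (y = v))))))

theorem tab_lt : ∀ x y : Fin 6, tab x y < 5 := by decide

theorem reach_self : ∀ a : Fin 5, ∀ v : Fin 6, reach a v v = true := by decide

theorem reach_step : ∀ a : Fin 5, a ≠ 0 → ∀ v x y : Fin 6, reach a v x = true → tab x y = a →
    reach a v y = true := by decide

theorem no_root : ∀ v : Fin 6, ∀ a : Fin 5, a ≠ 0 → reach a v (v - 1) = false := by decide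

theorem pred_ne : ∀ v : Fin 6, v - 1 ≠ v := by decide

theorem no_rainbow3 : ∀ x y z : Fin 6, ¬ (tab x y ≠ 0 ∧ tab y z ≠ 0 ∧ tab z x ≠ 0 ∧
    tab x y ≠ tab y z ∧ tab x y ≠ tab z x ∧ tab y z ≠ tab z x) := by decide

theorem no_rainbow4 : ∀ x y z w : Fin 6, ¬ (tab x y ≠ 0 ∧ tab y z ≠ 0 ∧ tab z w ≠ 0 ∧
    tab w x ≠ 0 ∧ tab x y ≠ tab y z ∧ tab x y ≠ tab z w ∧ tab x y ≠ tab w x ∧
    tab y z ≠ tab z w ∧ tab y z ≠ tab w x ∧ tab z w ≠ tab w x) := by decide

/-- The negation of the preceding statement: Every nonempty finite tournament with arcs coloured by naturals has a directed cycle whose arcs all have distinct colours, or a vertex from which every other vertex is reachable by a one-colour directed path. -/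
theorem result :
    ¬ (∀ (V : Type) [Fintype V] [Nonempty V] (adj : V → V → Prop) (c : V → V → ℕ),
      (∀ x y : V, adj x y → ¬ adj y x) →
      (∀ x y : V, x ≠ y → adj x y ∨ adj y x) →
      (∃ (k : ℕ) (f : ℕ → V), 3 ≤ k ∧
          (∀ i j : ℕ, i < k → j < k → f i = f j → i = j) ∧
          (∀ i : ℕ, i < k → adj (f i) (f ((i + 1) % k))) ∧
          (∀ i j : ℕ, i < k → j < k →
            c (f i) (f ((i + 1) % k)) = c (f j) (f ((j + 1) % k)) → i = j)) ∨
      (∃ v : V, ∀ w : V, w ≠ v →
          ∃ a : ℕ, Relation.TransGen (fun x y : V => adj x y ∧ c x y = a) v w)) := by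
  intro H
  have h := H (Fin 6) (fun x y => tab x y ≠ 0) tab (by decide) (by decide)
  rcases h with ⟨k, f, hk, _, hadj, hcol⟩ | ⟨v, hv⟩
  · -- a rainbow cycle has length at most four
    have hk4 : k ≤ 4 := by
      by_contra hlt
      have hlt : 5 ≤ k := by omega
      let g : Fin 5 → Fin 5 := fun i => ⟨tab (f i) (f ((i + 1) % k)), tab_lt _ _⟩
      have ginj : Function.Injective g := by
        intro i j hij
        have h1 : tab (f i) (f ((i + 1) % k)) = tab (f j) (f ((j + 1) % k)) := by
          have := congrArg Fin.val hij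
          simpa [g] using this
        have := hcol i j (by omega) (by omega) h1
        exact Fin.ext this
      have gsurj : Function.Surjective g := Finite.surjective_of_injective ginj
      obtain ⟨i, hi⟩ := gsurj 0
      have h1 : tab (f i) (f ((i + 1) % k)) = 0 := by
        have := congrArg Fin.val hi
        simpa [g] using this
      exact hadj i (by omega) h1
    have hne : ∀ i j : ℕ, i < k → j < k → i ≠ j →
        tab (f i) (f ((i + 1) % k)) ≠ tab (f j) (f ((j + 1) % k)) :=
      fun i j hi hj hij he => hij (hcol i j hi hj he)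
    have hk34 : k = 3 ∨ k = 4 := by omega
    rcases hk34 with rfl | rfl
    · have a0 := hadj 0 (by norm_num)
      have a1 := hadj 1 (by norm_num)
      have a2 := hadj 2 (by norm_num)
      have n01 := hne 0 1 (by norm_num) (by norm_num) (by norm_num)
      have n02 := hne 0 2 (by norm_num) (by norm_num) (by norm_num)
      have n12 := hne 1 2 (by norm_num) (by norm_num) (by norm_num)
      exact no_rainbow3 (f 0) (f 1) (f 2) ⟨a0, a1, a2, n01, n02, n12⟩
    · have a0 := hadj 0 (by norm_num)
      have a1 := hadj 1 (by norm_num)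
      have a2 := hadj 2 (by norm_num)
      have a3 := hadj 3 (by norm_num)
      have n01 := hne 0 1 (by norm_num) (by norm_num) (by norm_num)
      have n02 := hne 0 2 (by norm_num) (by norm_num) (by norm_num)
      have n03 := hne 0 3 (by norm_num) (by norm_num) (by norm_num)
      have n12 := hne 1 2 (by norm_num) (by norm_num) (by norm_num)
      have n13 := hne 1 3 (by norm_num) (by norm_num) (by norm_num)
      have n23 := hne 2 3 (by norm_num) (by norm_num) (by norm_num)
      exact no_rainbow4 (f 0) (f 1) (f 2) (f 3)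
        ⟨a0, a1, a2, a3, n01, n02, n03, n12, n13, n23⟩
  · -- no vertex reaches its predecessor
    have hw : v - 1 ≠ v := pred_ne v
    obtain ⟨a, ha⟩ := hv (v - 1) hw
    by_cases hr : 0 < a ∧ a < 5
    · obtain ⟨h0, h5⟩ := hr
      have key : ∀ w : Fin 6, Relation.TransGen
          (fun x y : Fin 6 => tab x y ≠ 0 ∧ tab x y = a) v w → reach a v w = true := by
        intro w hw'
        have hne : (⟨a, h5⟩ : Fin 5) ≠ 0 := by
          intro h; have := congrArg Fin.val h; simp at this; omega
        induction hw' with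
        | single hxy => exact reach_step ⟨a, h5⟩ hne v v _ (reach_self ⟨a, h5⟩ v) hxy.2
        | tail _ hxy ih => exact reach_step ⟨a, h5⟩ hne v _ _ ih hxy.2
      have h1 := key _ ha
      have hne : (⟨a, h5⟩ : Fin 5) ≠ 0 := by
        intro h; have := congrArg Fin.val h; simp at this; omega
      have h2 := no_root v ⟨a, h5⟩ hne
      rw [h1] at h2
      exact absurd h2 (by decide)
    · have : ∀ x y : Fin 6, ¬ (tab x y ≠ 0 ∧ tab x y = a) := by
        intro x y hxy
        have := tab_lt x y
        omega
      cases ha with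
      | single hxy => exact this _ _ hxy
      | tail _ hxy => exact this _ _ hxy

end Pool.Agent.S05384
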