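import Pool.Statements.S05387
-- import your own Pool.Agent.* helpers here

set_option autoImplicit false
open Pool Pool.MP_400a6b_co

namespace Pool.Agent.S05387


abbrev MPS := MvPowerSeries (Fin 2) ℚ

/-- weight support condition -/
def W (s : Fin 2 → ℤ) (k : ℤ) (f : MPS) : Prop :=
  ∀ m : Fin 2 →₀ ℕ, s 0 * m 0 + s 1 * m 1 < k → MvPowerSeries.coeff m f = 0

theorem W_mul {s : Fin 2 → ℤ} {k l : ℤ} {f g : MPS} (hf : W s k f) (hg : W s l g) :
    W s (k + l) (f * g) := by
  intro m hm
  rw [MvPowerSeries.coeff_mul]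
  apply Finset.sum_eq_zero
  rintro ⟨p, q⟩ hpq
  rw [Finset.HasAntidiagonal.mem_antidiagonal] at hpq
  simp only at hpq
  subst hpq
  by_cases h : s 0 * p 0 + s 1 * p 1 < k
  · rw [hf p h, zero_mul]
  · have h2 : s 0 * q 0 + s 1 * q 1 < l := by
      simp only [Finsupp.add_apply] at hm
      push_cast at hm
      push Not at h
      nlinarith [hm, h]
    rw [hg q h2, mul_zero]

theorem W_add {s : Fin 2 → ℤ} {k : ℤ} {f g : MPS} (hf : W s k f) (hg : W s k g) :
    W s k (f + g) := by
  intro m hm
  rw [map_add, hf m hm, hg m hm, add_zero]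

theorem W_mono {s : Fin 2 → ℤ} {k l : ℤ} {f : MPS} (hf : W s k f) (h : l ≤ k) :
    W s l f := fun m hm => hf m (lt_of_lt_of_le hm h)

theorem W_inv {s : Fin 2 → ℤ} {f : MPS} (hf : W s 0 f)
    (hf0 : MvPowerSeries.constantCoeff f ≠ 0) : W s 0 f⁻¹ := by
  have key : ∀ (d : ℕ) (m : Fin 2 →₀ ℕ), m.degree = d →
      s 0 * m 0 + s 1 * m 1 < 0 → MvPowerSeries.coeff m f⁻¹ = 0 := by
    intro d
    induction d using Nat.strong_induction_on with
    | _ d ih =>
      intro m hd hm
      have h1 : f * f⁻¹ = 1 := MvPowerSeries.mul_inv_cancel f hf0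
      have h2 := congrArg (MvPowerSeries.coeff m) h1
      rw [MvPowerSeries.coeff_mul] at h2
      have hm0 : m ≠ 0 := by
        rintro rfl
        simp at hm
      rw [MvPowerSeries.coeff_one, if_neg hm0] at h2
      rw [Finset.sum_eq_single (0, m)] at h2
      · simp only [MvPowerSeries.coeff_zero_eq_constantCoeff_apply] at h2
        rcases mul_eq_zero.mp h2 with h3 | h3
        · exact absurd h3 hf0
        · exact h3
      · rintro ⟨p, q⟩ hpq hne
        rw [Finset.HasAntidiagonal.mem_antidiagonal] at hpq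
        simp only at hpq
        by_cases h : s 0 * p 0 + s 1 * p 1 < 0
        · rw [hf p h, zero_mul]
        · have hp : p ≠ 0 := by
            rintro rfl
            apply hne
            simp at hpq
            rw [hpq]
          have hq : s 0 * q 0 + s 1 * q 1 < 0 := by
            rw [← hpq] at hm
            simp only [Finsupp.add_apply] at hm
            push_cast at hm
            push Not at h
            nlinarith [hm, h]
          have hdeg : q.degree < d := by
            rw [← hd, ← hpq, map_add]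
            have : p.degree ≠ 0 := by
              intro h0
              apply hp
              exact (Finsupp.degree_eq_zero_iff p).mp h0
            omega
          rw [ih q.degree hdeg q rfl hq, mul_zero]
      · intro h
        exfalso
        apply h
        rw [Finset.HasAntidiagonal.mem_antidiagonal]
        simp
  intro m hm
  exact key m.degree m rfl hm


theorem hsXY : PowerSeries.HasSubst (MvPowerSeries.X 0 * MvPowerSeries.X 1 : MPS) :=
  PowerSeries.HasSubst.of_constantCoeff_zero (by simp)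

noncomputable def Phi0 : PowerSeries ℚ →+* MPS :=
  (PowerSeries.substAlgHom (R := ℚ) hsXY).toRingHom

theorem Phi0_apply (f : PowerSeries ℚ) :
    Phi0 f = PowerSeries.subst (MvPowerSeries.X 0 * MvPowerSeries.X 1 : MPS) f := by
  rw [← PowerSeries.coe_substAlgHom hsXY]
  rfl

theorem XY_pow (d : ℕ) : (MvPowerSeries.X 0 * MvPowerSeries.X 1 : MPS) ^ d =
    MvPowerSeries.monomial (Finsupp.single 0 d + Finsupp.single 1 d) 1 := by
  rw [mul_pow, MvPowerSeries.X_pow_eq, MvPowerSeries.X_pow_eq, MvPowerSeries.monomial_mul_monomial,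
    mul_one]

theorem coeff_Phi0 (f : PowerSeries ℚ) (m : Fin 2 →₀ ℕ) :
    MvPowerSeries.coeff m (Phi0 f) = if m 0 = m 1 then PowerSeries.coeff (m 0) f else 0 := by
  rw [Phi0_apply, PowerSeries.coeff_subst hsXY]
  have h1 : ∀ d : ℕ, m = Finsupp.single 0 d + Finsupp.single 1 d ↔ (m 0 = d ∧ m 1 = d) := by
    intro d
    constructor
    · rintro rfl
      simp
    · rintro ⟨h0, h1⟩
      ext i
      fin_cases i
      · simpa using h0
      · simpa using h1
  rw [finsum_eq_single _ (m 0)]
  · rw [XY_pow, MvPowerSeries.coeff_monomial]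
    by_cases h : m 0 = m 1
    · rw [if_pos ((h1 _).mpr ⟨rfl, h.symm⟩), if_pos h]
      simp
    · rw [if_neg (fun h' => h ((h1 _).mp h').2.symm), if_neg h]
      simp
  · intro d hd
    rw [XY_pow, MvPowerSeries.coeff_monomial, if_neg, smul_zero]
    intro h'
    exact hd ((h1 _).mp h').1.symm

theorem Phi0_X : Phi0 PowerSeries.X = MvPowerSeries.X 0 * MvPowerSeries.X 1 := by
  rw [Phi0_apply, PowerSeries.subst_X hsXY]

theorem Phi0_C (r : ℚ) : Phi0 (PowerSeries.C r) = MvPowerSeries.C r := by
  rw [Phi0_apply, PowerSeries.subst_C]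

noncomputable def Phi : Polynomial (PowerSeries ℚ) →+* MPS :=
  Polynomial.eval₂RingHom Phi0 (MvPowerSeries.X 1)

noncomputable def phi : Polynomial (Polynomial ℚ) →+* MvPolynomial (Fin 2) ℚ :=
  Polynomial.eval₂RingHom
    (Polynomial.eval₂RingHom MvPolynomial.C (MvPolynomial.X 0 * MvPolynomial.X 1))
    (MvPolynomial.X 1)

theorem coe_phi (q : Polynomial (Polynomial ℚ)) :
    ((phi q : MvPolynomial (Fin 2) ℚ) : MPS) =
      Phi (q.map Polynomial.coeToPowerSeries.ringHom) := by
  have h : (MvPolynomial.coeToMvPowerSeries.ringHom (σ := Fin 2) (R := ℚ)).comp phi =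
      Phi.comp (Polynomial.mapRingHom Polynomial.coeToPowerSeries.ringHom) := by
    apply Polynomial.ringHom_ext
    · intro a
      have h2 : ((MvPolynomial.coeToMvPowerSeries.ringHom (σ := Fin 2) (R := ℚ)).comp
          (Polynomial.eval₂RingHom MvPolynomial.C (MvPolynomial.X 0 * MvPolynomial.X 1))) =
          Phi0.comp Polynomial.coeToPowerSeries.ringHom := by
        apply Polynomial.ringHom_ext
        · intro r
          simp [Phi0_C]
        · simp [Phi0_X]
      have h3 := congrArg (fun g => g a) h2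
      simpa [phi, Phi] using h3
    · simp [phi, Phi]
  have h4 := congrArg (fun g => g q) h
  simpa using h4


/-- `F` is the diagonal of a rational bivariate series. -/
def IsRatDiag (F : PowerSeries ℚ) : Prop :=
  ∃ R : MPS, (∃ P Q : MvPolynomial (Fin 2) ℚ, MvPolynomial.constantCoeff Q ≠ 0 ∧
      R * (Q : MPS) = (P : MPS)) ∧
    ∀ n : ℕ, MvPowerSeries.coeff (Finsupp.single 0 n + Finsupp.single 1 n) R
      = PowerSeries.coeff n F

theorem diag0 (n : ℕ) : (Finsupp.single 0 n + Finsupp.single 1 n : Fin 2 →₀ ℕ) 0 = n := by simp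
theorem diag1 (n : ℕ) : (Finsupp.single 0 n + Finsupp.single 1 n : Fin 2 →₀ ℕ) 1 = n := by simp

theorem W_Phi0_lower (f : PowerSeries ℚ) : W ![1, -1] 0 (Phi0 f) := by
  intro m hm
  rw [coeff_Phi0, if_neg]
  intro h
  simp [h] at hm

theorem W_Phi0_upper (f : PowerSeries ℚ) : W ![-1, 1] 0 (Phi0 f) := by
  intro m hm
  rw [coeff_Phi0, if_neg]
  intro h
  simp [h] at hm

theorem W_X (s : Fin 2 → ℤ) (i : Fin 2) : W s (s i) (MvPowerSeries.X i) := by
  intro m hm
  rw [MvPowerSeries.coeff_X, if_neg]
  rintro rfl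
  fin_cases i <;> simp at hm

theorem W_Phi_upper (f : Polynomial (PowerSeries ℚ)) : W ![-1, 1] 0 (Phi f) := by
  induction f using Polynomial.induction_on' with
  | add p q hp hq => rw [map_add]; exact W_add hp hq
  | monomial n a =>
    have : Phi (Polynomial.monomial n a) = Phi0 a * (MvPowerSeries.X 1) ^ n := by
      simp [Phi]
    rw [this]
    have h2 : ∀ n : ℕ, W ![-1, 1] 0 ((MvPowerSeries.X 1 : MPS) ^ n) := by
      intro n
      induction n with
      | zero =>
        intro m hm
        rw [pow_zero, MvPowerSeries.coeff_one, if_neg]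
        rintro rfl
        simp at hm
      | succ k ih =>
        rw [pow_succ]
        have := W_mul ih (W_X ![-1, 1] 1)
        exact W_mono this (by simp)
    have := W_mul (W_Phi0_upper a) (h2 n)
    simpa using this

theorem W_diag {s : Fin 2 → ℤ} {k : ℤ} {f : MPS} (hs : s 0 + s 1 = 0) (hk : 0 < k)
    (hf : W s k f) (n : ℕ) :
    MvPowerSeries.coeff (Finsupp.single 0 n + Finsupp.single 1 n) f = 0 := by
  apply hf
  rw [diag0, diag1, ← add_mul, hs, zero_mul]
  exact hk

theorem constantCoeff_phi (t : Polynomial (Polynomial ℚ)) :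
    MvPolynomial.constantCoeff (phi t) = (t.coeff 0).coeff 0 := by
  have h : (MvPolynomial.constantCoeff (σ := Fin 2) (R := ℚ)).comp phi =
      (Polynomial.constantCoeff).comp (Polynomial.constantCoeff) := by
    apply Polynomial.ringHom_ext
    · intro a
      have h2 : ((MvPolynomial.constantCoeff (σ := Fin 2) (R := ℚ))).comp
          (Polynomial.eval₂RingHom MvPolynomial.C (MvPolynomial.X 0 * MvPolynomial.X 1)) =
          Polynomial.constantCoeff := by
        apply Polynomial.ringHom_ext
        · intro r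
          simp
        · simp
      have h3 := congrArg (fun g => g a) h2
      simpa [phi] using h3
    · simp [phi]
  have h4 := congrArg (fun g => g t) h
  simpa using h4

theorem ratDiag_etale (G : PowerSeries ℚ) (q : Polynomial (Polynomial ℚ))
    (hG : PowerSeries.constantCoeff G = 0)
    (hq : Polynomial.eval₂ Polynomial.coeToPowerSeries.ringHom G q = 0)
    (h0 : (q.coeff 0).coeff 0 = 0) (h1 : (q.coeff 1).coeff 0 ≠ 0) : IsRatDiag G := by
  classical
  set s : Polynomial ℚ := (q.coeff 0).divX with hs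
  set t : Polynomial (Polynomial ℚ) := q.divX with ht
  set Qp : MvPolynomial (Fin 2) ℚ :=
    MvPolynomial.X 0 * phi (Polynomial.C s) + phi t with hQp
  have hphiX : phi Polynomial.X = MvPolynomial.X 1 := by simp [phi]
  have hphiCX : phi (Polynomial.C Polynomial.X) = MvPolynomial.X 0 * MvPolynomial.X 1 := by
    simp [phi]
  have hfac : phi q = MvPolynomial.X 1 * Qp := by
    have e1 : q = Polynomial.X * t + Polynomial.C (q.coeff 0) := by
      rw [ht, mul_comm]
      exact (Polynomial.divX_mul_X_add q).symm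
    have e2 : q.coeff 0 = Polynomial.X * s := by
      have := (Polynomial.divX_mul_X_add (q.coeff 0)).symm
      rw [h0, Polynomial.C_0, add_zero, mul_comm] at this
      exact this
    rw [e1, e2]
    simp only [map_add, map_mul, hphiX, hphiCX]
    rw [hQp]
    ring
  have hQ0 : MvPolynomial.constantCoeff Qp ≠ 0 := by
    rw [hQp]
    simp only [map_add, map_mul, MvPolynomial.constantCoeff_X, zero_mul, zero_add]
    rw [constantCoeff_phi, ht, Polynomial.coeff_divX]
    exact h1
  -- factor over power series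
  set qh : Polynomial (PowerSeries ℚ) := q.map Polynomial.coeToPowerSeries.ringHom with hqh
  have hroot : qh.IsRoot G := by
    rw [Polynomial.IsRoot.def, hqh, Polynomial.eval_map]
    exact hq
  obtain ⟨u, hu⟩ := Polynomial.dvd_iff_isRoot.mpr hroot
  obtain ⟨G1, hG1⟩ := PowerSeries.X_dvd_iff.mpr hG
  set H : MPS := MvPowerSeries.X 0 * Phi0 G1 with hH
  have hPG : Phi0 G = MvPowerSeries.X 1 * H := by
    rw [hG1, map_mul, Phi0_X, hH]
    ring
  have hPhiX : Phi Polynomial.X = MvPowerSeries.X 1 := by simp [Phi]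
  have hPhiC : ∀ g, Phi (Polynomial.C g) = Phi0 g := by intro g; simp [Phi]
  have hPhiq : Phi qh = MvPowerSeries.X 1 * ((1 - H) * Phi u) := by
    rw [hu, map_mul, map_sub, hPhiX, hPhiC, hPG]
    ring
  have hQcoe : (Qp : MPS) = (1 - H) * Phi u := by
    have e := coe_phi q
    rw [hfac, MvPolynomial.coe_mul, MvPolynomial.coe_X, ← hqh, hPhiq] at e
    exact mul_left_cancel₀ (by
      intro h
      have := congrArg (MvPowerSeries.coeff (Finsupp.single 1 1)) h
      simp [MvPowerSeries.coeff_X] at this) e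
  have hc1 : MvPowerSeries.constantCoeff (1 - H) ≠ 0 := by
    rw [hH]; simp
  have hcu : MvPowerSeries.constantCoeff (Phi u) ≠ 0 := by
    intro h
    have e := congrArg MvPowerSeries.constantCoeff hQcoe
    rw [map_mul, h, mul_zero] at e
    apply hQ0
    have e' : MvPolynomial.constantCoeff Qp = MvPowerSeries.constantCoeff (Qp : MPS) := by
      rw [← MvPowerSeries.coeff_zero_eq_constantCoeff_apply, MvPolynomial.coeff_coe,
        MvPolynomial.constantCoeff_eq]
    rw [e', e]
  set R : MPS := MvPowerSeries.X 1 * (1 - H)⁻¹ +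
    MvPowerSeries.X 1 ^ 2 * Phi (Polynomial.derivative u) * (Phi u)⁻¹ with hR
  refine ⟨R, ⟨MvPolynomial.X 1 * phi (Polynomial.derivative q), Qp, hQ0, ?_⟩, ?_⟩
  · have e1 : (1 - H) * (1 - H)⁻¹ = 1 := MvPowerSeries.mul_inv_cancel _ hc1
    have e2 : Phi u * (Phi u)⁻¹ = 1 := MvPowerSeries.mul_inv_cancel _ hcu
    have e3 : Phi (Polynomial.derivative qh) =
        Phi u + MvPowerSeries.X 1 * (1 - H) * Phi (Polynomial.derivative u) := by
      rw [hu, Polynomial.derivative_mul, Polynomial.derivative_sub, Polynomial.derivative_X,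
        Polynomial.derivative_C, sub_zero, one_mul, map_add, map_mul, map_sub, hPhiX, hPhiC, hPG]
      ring
    have e4 : ((phi (Polynomial.derivative q) : MvPolynomial (Fin 2) ℚ) : MPS) =
        Phi (Polynomial.derivative qh) := by
      rw [coe_phi, hqh, Polynomial.derivative_map]
    rw [MvPolynomial.coe_mul, MvPolynomial.coe_X, e4, e3, hQcoe, hR]
    calc (MvPowerSeries.X 1 * (1 - H)⁻¹ +
          MvPowerSeries.X 1 ^ 2 * Phi (Polynomial.derivative u) * (Phi u)⁻¹) * ((1 - H) * Phi u)
        = MvPowerSeries.X 1 * ((1 - H) * (1 - H)⁻¹) * Phi u +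
          MvPowerSeries.X 1 ^ 2 * Phi (Polynomial.derivative u) * (1 - H) *
            (Phi u * (Phi u)⁻¹) := by ring
      _ = _ := by rw [e1, e2]; ring
  · intro n
    have e1 : (1 - H) * (1 - H)⁻¹ = 1 := MvPowerSeries.mul_inv_cancel _ hc1
    have e5 : (1 - H)⁻¹ = 1 + H + H ^ 2 * (1 - H)⁻¹ := by
      calc (1 - H)⁻¹ = (1 - H)⁻¹ + (1 + H) * (1 - (1 - H) * (1 - H)⁻¹) := by rw [e1]; ring
        _ = 1 + H + H ^ 2 * (1 - H)⁻¹ := by ring
    have e6 : R = MvPowerSeries.X 1 + Phi0 G + MvPowerSeries.X 1 * (H * H * (1 - H)⁻¹) +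
        MvPowerSeries.X 1 * MvPowerSeries.X 1 *
          (Phi (Polynomial.derivative u) * (Phi u)⁻¹) := by
      rw [hR, hPG]
      conv_lhs => rw [e5]
      ring
    have hWH : W ![1, -1] 1 H := by
      have := W_mul (W_X ![1, -1] 0) (W_Phi0_lower G1)
      simpa using this
    have hW1 : W ![1, -1] 0 (1 - H) := by
      intro m hm
      rw [map_sub, hWH m (by linarith), sub_zero, MvPowerSeries.coeff_one, if_neg]
      rintro rfl
      simp at hm
    have hW1i := W_inv hW1 hc1
    have hA : W ![1, -1] 1 (MvPowerSeries.X 1 * (H * H * (1 - H)⁻¹)) := by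
      have := W_mul (W_X ![1, -1] 1) (W_mul (W_mul hWH hWH) hW1i)
      exact W_mono this (by simp)
    have hB : W ![-1, 1] 2 (MvPowerSeries.X 1 * MvPowerSeries.X 1 *
          (Phi (Polynomial.derivative u) * (Phi u)⁻¹)) := by
      have := W_mul (W_mul (W_X ![-1, 1] 1) (W_X ![-1, 1] 1))
        (W_mul (W_Phi_upper (Polynomial.derivative u)) (W_inv (W_Phi_upper u) hcu))
      exact W_mono this (by simp)
    rw [e6, map_add, map_add, map_add, W_diag (by simp) (by norm_num) hA n,
      W_diag (by simp) (by norm_num) hB n,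
      W_diag (by simp) (by norm_num) (W_X ![-1, 1] 1) n, coeff_Phi0, diag0, diag1]
    simp


theorem phi_C_coe (U : Polynomial ℚ) :
    ((phi (Polynomial.C U) : MvPolynomial (Fin 2) ℚ) : MPS) = Phi0 (U : PowerSeries ℚ) := by
  rw [coe_phi]
  simp [Phi]

theorem ratDiag_shift (G : PowerSeries ℚ) (U : Polynomial ℚ) (e : ℕ) (h : IsRatDiag G) :
    IsRatDiag ((U : PowerSeries ℚ) + PowerSeries.X ^ e * G) := by
  classical
  obtain ⟨R, ⟨P, Q, hQ, hRQ⟩, hd⟩ := h
  refine ⟨Phi0 (U : PowerSeries ℚ) + (MvPowerSeries.X 0 * MvPowerSeries.X 1) ^ e * R,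
    ⟨phi (Polynomial.C U) * Q + (MvPolynomial.X 0 * MvPolynomial.X 1) ^ e * P, Q, hQ, ?_⟩, ?_⟩
  · rw [MvPolynomial.coe_add, MvPolynomial.coe_mul, MvPolynomial.coe_mul, MvPolynomial.coe_pow,
      MvPolynomial.coe_mul, MvPolynomial.coe_X, MvPolynomial.coe_X, phi_C_coe, ← hRQ]
    ring
  · intro n
    rw [map_add, map_add, coeff_Phi0, diag0, diag1, if_pos rfl, XY_pow,
      MvPowerSeries.coeff_monomial_mul, PowerSeries.coeff_X_pow_mul']
    congr 1
    have hle : (Finsupp.single 0 e + Finsupp.single 1 e : Fin 2 →₀ ℕ) ≤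
        Finsupp.single 0 n + Finsupp.single 1 n ↔ e ≤ n := by
      constructor
      · intro h
        have := h 0
        rwa [diag0, diag0] at this
      · intro h i
        fin_cases i
        · simpa using h
        · simpa using h
    by_cases hen : e ≤ n
    · rw [if_pos (hle.mpr hen), if_pos hen, one_mul]
      have : (Finsupp.single 0 n + Finsupp.single 1 n : Fin 2 →₀ ℕ) -
          (Finsupp.single 0 e + Finsupp.single 1 e) =
          Finsupp.single 0 (n - e) + Finsupp.single 1 (n - e) := by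
        ext i
        fin_cases i <;> simp
      rw [this, hd]
    · rw [if_neg (fun h => hen (hle.mp h)), if_neg hen]

theorem furstenberg (F : PowerSeries ℚ)
    (hF : ∃ p : Polynomial (Polynomial ℚ), p ≠ 0 ∧
      Polynomial.eval₂ Polynomial.coeToPowerSeries.ringHom F p = 0) : IsRatDiag F := by
  classical
  -- minimal degree annihilator
  have hex : ∃ d : ℕ, ∃ p : Polynomial (Polynomial ℚ), p ≠ 0 ∧
      Polynomial.eval₂ Polynomial.coeToPowerSeries.ringHom F p = 0 ∧ p.natDegree = d := by
    obtain ⟨p, hp, hpF⟩ := hF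
    exact ⟨_, p, hp, hpF, rfl⟩
  obtain ⟨p, hp, hpF, hpd⟩ := Nat.find_spec hex
  have hmin : ∀ p' : Polynomial (Polynomial ℚ), p' ≠ 0 → p'.natDegree < p.natDegree →
      Polynomial.eval₂ Polynomial.coeToPowerSeries.ringHom F p' ≠ 0 := by
    intro p' hp' hlt h0
    have := Nat.find_min hex (m := p'.natDegree) (by rw [hpd] at hlt; exact hlt)
    exact this ⟨p', hp', h0, rfl⟩
  have hdeg : p.natDegree ≠ 0 := by
    intro h
    rw [Polynomial.eq_C_of_natDegree_eq_zero h] at hpF hp
    simp only [Polynomial.eval₂_C] at hpF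
    apply hp
    have : (p.coeff 0) = 0 := by
      have h2 : ((p.coeff 0 : Polynomial ℚ) : PowerSeries ℚ) = 0 := by simpa using hpF
      exact Polynomial.coe_eq_zero_iff.mp h2
    rw [this, Polynomial.C_0]
  have hder : Polynomial.derivative p ≠ 0 := Polynomial.derivative_ne_zero.mpr hdeg
  have hD : Polynomial.eval₂ Polynomial.coeToPowerSeries.ringHom F (Polynomial.derivative p) ≠ 0 :=
    hmin _ hder (Polynomial.natDegree_derivative_lt hdeg)
  set D := Polynomial.eval₂ Polynomial.coeToPowerSeries.ringHom F (Polynomial.derivative p)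
    with hDdef
  -- order of D
  have hexe : ∃ e : ℕ, PowerSeries.coeff e D ≠ 0 := by
    by_contra hcon
    push Not at hcon
    exact hD (PowerSeries.ext (by simpa using hcon))
  set e := Nat.find hexe with he
  have hce : PowerSeries.coeff e D ≠ 0 := Nat.find_spec hexe
  have hlt : ∀ i < e, PowerSeries.coeff i D = 0 := by
    intro i hi
    by_contra h
    exact Nat.find_min hexe hi h
  obtain ⟨D1, hD1⟩ := PowerSeries.X_pow_dvd_iff.mpr hlt
  have hD10 : PowerSeries.constantCoeff D1 ≠ 0 := by
    rw [hD1, PowerSeries.coeff_X_pow_mul', if_pos le_rfl, Nat.sub_self] at hce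
    simpa using hce
  -- truncation
  set U : Polynomial ℚ := PowerSeries.trunc (e + 1) F with hU
  have hdvd : PowerSeries.X ^ (e + 1) ∣ F - (U : PowerSeries ℚ) := by
    rw [PowerSeries.X_pow_dvd_iff]
    intro m hm
    rw [map_sub, Polynomial.coeff_coe, hU, PowerSeries.coeff_trunc, if_pos hm, sub_self]
  obtain ⟨F1, hF1⟩ := hdvd
  set G : PowerSeries ℚ := PowerSeries.X * F1 with hG
  have hFU : F = (U : PowerSeries ℚ) + PowerSeries.X ^ e * G := by
    rw [hG]
    have : F = (U : PowerSeries ℚ) + (F - (U : PowerSeries ℚ)) := by ring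
    rw [this, hF1]
    ring
  rw [hFU]
  apply ratDiag_shift
  set ph : Polynomial (PowerSeries ℚ) := p.map Polynomial.coeToPowerSeries.ringHom with hph
  have hphF : ph.eval F = 0 := by rw [hph, Polynomial.eval_map]; exact hpF
  have hphD : (Polynomial.derivative ph).eval F = D := by
    rw [hph, Polynomial.derivative_map, Polynomial.eval_map]
  have hcoeU : ∀ r : Polynomial (Polynomial ℚ), ((r.eval U : Polynomial ℚ) : PowerSeries ℚ) =
      (r.map Polynomial.coeToPowerSeries.ringHom).eval (U : PowerSeries ℚ) := by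
    intro r
    rw [Polynomial.eval_map]
    exact (Polynomial.eval₂_at_apply (Polynomial.coeToPowerSeries.ringHom (R := ℚ)) U).symm
  -- p(U)
  have hpU : ∃ a : Polynomial ℚ, p.eval U = Polynomial.X ^ (2 * e) * a ∧ a.coeff 0 = 0 := by
    obtain ⟨k, hk⟩ := Polynomial.binomExpansion ph F (-(PowerSeries.X ^ e * G))
    have h1 : F + -(PowerSeries.X ^ e * G) = (U : PowerSeries ℚ) := by rw [hFU]; ring
    rw [h1, hphF, hphD, hD1] at hk
    have h2 : PowerSeries.X ^ (2 * e + 1) ∣ ((p.eval U : Polynomial ℚ) : PowerSeries ℚ) := by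
      rw [hcoeU, ← hph, hk, hG]
      refine ⟨-(D1 * F1) + k * PowerSeries.X * F1 ^ 2, ?_⟩
      ring
    have h3 : Polynomial.X ^ (2 * e + 1) ∣ p.eval U := by
      rw [Polynomial.X_pow_dvd_iff]
      intro d hd
      have := PowerSeries.X_pow_dvd_iff.mp h2 d hd
      simpa using this
    obtain ⟨a, ha⟩ := h3
    refine ⟨Polynomial.X * a, ?_, ?_⟩
    · rw [ha]; ring
    · simp
  obtain ⟨a, ha, ha0⟩ := hpU
  have hpU' : ∃ b : Polynomial ℚ, (Polynomial.derivative p).eval U = Polynomial.X ^ e * b ∧
      b.coeff 0 ≠ 0 := by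
    obtain ⟨c, hc⟩ := Polynomial.evalSubFactor (Polynomial.derivative ph) (U : PowerSeries ℚ) F
    have h1 : (U : PowerSeries ℚ) - F = -(PowerSeries.X ^ (e + 1) * F1) := by
      rw [← hF1]; ring
    rw [h1, hphD, hD1] at hc
    have h2 : (((Polynomial.derivative p).eval U : Polynomial ℚ) : PowerSeries ℚ) =
        PowerSeries.X ^ e * (D1 - PowerSeries.X * (c * F1)) := by
      rw [hcoeU, ← Polynomial.derivative_map, ← hph]
      have : Polynomial.eval (U : PowerSeries ℚ) (Polynomial.derivative ph) =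
        (Polynomial.eval (U : PowerSeries ℚ) (Polynomial.derivative ph) -
          PowerSeries.X ^ e * D1) + PowerSeries.X ^ e * D1 := by ring
      rw [this, hc]
      ring
    have h3 : Polynomial.X ^ e ∣ (Polynomial.derivative p).eval U := by
      rw [Polynomial.X_pow_dvd_iff]
      intro d hd
      have h4 : PowerSeries.X ^ e ∣
          (((Polynomial.derivative p).eval U : Polynomial ℚ) : PowerSeries ℚ) := by
        rw [h2]; exact dvd_mul_right _ _
      have := PowerSeries.X_pow_dvd_iff.mp h4 d hd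
      simpa using this
    obtain ⟨b, hb⟩ := h3
    refine ⟨b, hb, ?_⟩
    have h5 : (b : PowerSeries ℚ) = D1 - PowerSeries.X * (c * F1) := by
      have h6 : PowerSeries.X ^ e * (b : PowerSeries ℚ) =
          PowerSeries.X ^ e * (D1 - PowerSeries.X * (c * F1)) := by
        rw [← h2, hb]
        simp
      exact mul_left_cancel₀ (pow_ne_zero _ PowerSeries.X_ne_zero) h6
    have h7 := congrArg (PowerSeries.coeff 0) h5
    rw [Polynomial.coeff_coe] at h7
    rw [h7]
    simpa using hD10
  obtain ⟨b, hb, hb0⟩ := hpU'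
  -- the new polynomial
  obtain ⟨k, hk⟩ := Polynomial.binomExpansion (p.map (Polynomial.C : Polynomial ℚ →+* _))
    (Polynomial.C U) (Polynomial.C (Polynomial.X ^ e) * Polynomial.X)
  have hevC : ∀ r : Polynomial (Polynomial ℚ), (r.map (Polynomial.C : Polynomial ℚ →+* _)).eval
      (Polynomial.C U) = Polynomial.C (r.eval U) := by
    intro r
    rw [Polynomial.eval_map]
    exact Polynomial.eval₂_at_apply (Polynomial.C : Polynomial ℚ →+* _) U
  rw [Polynomial.derivative_map, hevC, hevC, ha, hb] at hk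
  set q : Polynomial (Polynomial ℚ) := Polynomial.C a + Polynomial.C b * Polynomial.X +
    k * Polynomial.X ^ 2 with hq
  have hk' : (p.map (Polynomial.C : Polynomial ℚ →+* _)).eval
      (Polynomial.C U + Polynomial.C (Polynomial.X ^ e) * Polynomial.X) =
      Polynomial.C (Polynomial.X ^ (2 * e)) * q := by
    rw [hk, hq]
    simp only [map_mul, map_pow]
    ring
  have hGq : Polynomial.eval₂ Polynomial.coeToPowerSeries.ringHom G q = 0 := by
    have h1 := congrArg (Polynomial.eval₂RingHom (Polynomial.coeToPowerSeries.ringHom (R := ℚ)) G)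
      hk'
    rw [Polynomial.eval_map] at h1
    have h2 := Polynomial.hom_eval₂ p (Polynomial.C : Polynomial ℚ →+* _)
      (Polynomial.eval₂RingHom (Polynomial.coeToPowerSeries.ringHom (R := ℚ)) G)
      (Polynomial.C U + Polynomial.C (Polynomial.X ^ e) * Polynomial.X)
    rw [h2] at h1
    have h3 : (Polynomial.eval₂RingHom (Polynomial.coeToPowerSeries.ringHom (R := ℚ)) G).comp
        Polynomial.C = Polynomial.coeToPowerSeries.ringHom := by
      ext1 <;> simp
    have hXe : (Polynomial.coeToPowerSeries.ringHom (R := ℚ)) (Polynomial.X ^ e) =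
        PowerSeries.X ^ e := by simp
    have h4 : (Polynomial.eval₂RingHom (Polynomial.coeToPowerSeries.ringHom (R := ℚ)) G)
      (Polynomial.C U + Polynomial.C (Polynomial.X ^ e) * Polynomial.X) = F := by
      conv_rhs => rw [hFU]
      rw [Polynomial.coe_eval₂RingHom, Polynomial.eval₂_add, Polynomial.eval₂_C,
        Polynomial.eval₂_mul, Polynomial.eval₂_C, Polynomial.eval₂_X, hXe]
      simp
    rw [h3, h4, hpF, map_mul] at h1
    have h5 : (Polynomial.eval₂RingHom (Polynomial.coeToPowerSeries.ringHom (R := ℚ)) G)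
      (Polynomial.C (Polynomial.X ^ (2 * e))) = PowerSeries.X ^ (2 * e) := by
      rw [Polynomial.coe_eval₂RingHom, Polynomial.eval₂_C]
      simp
    rw [h5] at h1
    rcases mul_eq_zero.mp h1.symm with h6 | h6
    · exact absurd h6 (pow_ne_zero _ PowerSeries.X_ne_zero)
    · simpa using h6
  apply ratDiag_etale G q _ hGq
  · rw [hq]
    simp [ha0]
  · rw [hq]
    have : (k * Polynomial.X ^ 2).coeff 1 = 0 := by
      rw [Polynomial.coeff_mul_X_pow']
      simp
    simp [this, hb0]
  · rw [hG]; simp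


theorem growth (R : MPS) (P Q : MvPolynomial (Fin 2) ℚ) (hQ : MvPolynomial.constantCoeff Q ≠ 0)
    (hRQ : R * (Q : MPS) = (P : MPS)) :
    ∃ A C : ℚ, 1 ≤ A ∧ 0 ≤ C ∧
      ∀ m : Fin 2 →₀ ℕ, |MvPowerSeries.coeff m R| ≤ C * A ^ (m 0 + m 1) := by
  classical
  obtain ⟨q0, hq0⟩ : ∃ q0 : ℚ, q0 = MvPolynomial.constantCoeff Q := ⟨_, rfl⟩
  rw [← hq0] at hQ
  have hq0p : 0 < |q0| := abs_pos.mpr hQ
  obtain ⟨SQ, hSQ⟩ : ∃ SQ : ℚ, SQ = ∑ i ∈ Q.support, |Q.coeff i| := ⟨_, rfl⟩
  obtain ⟨SP, hSP⟩ : ∃ SP : ℚ, SP = ∑ i ∈ P.support, |P.coeff i| := ⟨_, rfl⟩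
  have hSQ0 : 0 ≤ SQ := hSQ ▸ Finset.sum_nonneg (fun i _ => abs_nonneg _)
  have hSP0 : 0 ≤ SP := hSP ▸ Finset.sum_nonneg (fun i _ => abs_nonneg _)
  have hPm : ∀ m, |P.coeff m| ≤ SP := by
    intro m
    by_cases hm : m ∈ P.support
    · rw [hSP]
      exact Finset.single_le_sum (f := fun i => |P.coeff i|) (fun i _ => abs_nonneg _) hm
    · rw [MvPolynomial.notMem_support_iff.mp hm, abs_zero]
      exact hSP0
  have hQsum : ∀ m : Fin 2 →₀ ℕ,
      ∑ x ∈ Finset.HasAntidiagonal.antidiagonal m, |Q.coeff x.2| ≤ SQ := by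
    intro m
    have h1 : ∑ x ∈ Finset.HasAntidiagonal.antidiagonal m, |Q.coeff x.2| =
        ∑ b ∈ (Finset.HasAntidiagonal.antidiagonal m).image Prod.snd, |Q.coeff b| := by
      rw [Finset.sum_image]
      rintro ⟨a, b⟩ hab ⟨a', b'⟩ hab' h
      simp only [Finset.mem_coe, Finset.HasAntidiagonal.mem_antidiagonal] at hab hab' h
      subst h
      have : a = a' := by
        have := hab.trans hab'.symm
        exact add_right_cancel this
      rw [this]
    rw [h1]
    have h2 : ∑ b ∈ (Finset.HasAntidiagonal.antidiagonal m).image Prod.snd ∪ Q.support,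
        |Q.coeff b| = SQ := by
      rw [hSQ]
      symm
      apply Finset.sum_subset Finset.subset_union_right
      intro x _ hx
      rw [MvPolynomial.notMem_support_iff.mp hx, abs_zero]
    rw [← h2]
    exact Finset.sum_le_sum_of_subset_of_nonneg Finset.subset_union_left
      (fun i _ _ => abs_nonneg _)
  obtain ⟨A, hA⟩ : ∃ A : ℚ, A = 1 + 2 * SQ / |q0| := ⟨_, rfl⟩
  obtain ⟨C, hC⟩ : ∃ C : ℚ, C = 2 * SP / |q0| := ⟨_, rfl⟩
  have hA1 : 1 ≤ A := by
    rw [hA]
    have : 0 ≤ 2 * SQ / |q0| := by positivity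
    linarith
  have hC0 : 0 ≤ C := by rw [hC]; positivity
  refine ⟨A, C, hA1, hC0, ?_⟩
  have key : ∀ (d : ℕ) (m : Fin 2 →₀ ℕ), m 0 + m 1 = d →
      |MvPowerSeries.coeff m R| ≤ C * A ^ (m 0 + m 1) := by
    intro d
    induction d using Nat.strong_induction_on with
    | _ d ih =>
      intro m hd
      have h1 := congrArg (MvPowerSeries.coeff m) hRQ
      rw [MvPowerSeries.coeff_mul, MvPolynomial.coeff_coe] at h1
      have hmem : (m, (0 : Fin 2 →₀ ℕ)) ∈ Finset.HasAntidiagonal.antidiagonal m := by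
        rw [Finset.HasAntidiagonal.mem_antidiagonal]; simp
      rw [← Finset.add_sum_erase _ _ hmem] at h1
      simp only [MvPolynomial.coeff_coe] at h1
      have h0 : Q.coeff 0 = q0 := by rw [hq0, MvPolynomial.constantCoeff_eq]
      rw [h0] at h1
      obtain ⟨T, hT⟩ : ∃ T : ℚ, T = ∑ x ∈ (Finset.HasAntidiagonal.antidiagonal m).erase (m, 0),
        MvPowerSeries.coeff x.1 R * Q.coeff x.2 := ⟨_, rfl⟩
      rw [← hT] at h1
      have hTb : |T| ≤ C * A ^ (d - 1) * SQ := by
        rw [hT]
        calc |∑ x ∈ (Finset.HasAntidiagonal.antidiagonal m).erase (m, 0),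
              MvPowerSeries.coeff x.1 R * Q.coeff x.2|
            ≤ ∑ x ∈ (Finset.HasAntidiagonal.antidiagonal m).erase (m, 0),
              |MvPowerSeries.coeff x.1 R * Q.coeff x.2| := Finset.abs_sum_le_sum_abs _ _
          _ ≤ ∑ x ∈ (Finset.HasAntidiagonal.antidiagonal m).erase (m, 0),
              C * A ^ (d - 1) * |Q.coeff x.2| := by
            apply Finset.sum_le_sum
            rintro ⟨a, b⟩ hab
            rw [Finset.mem_erase, Finset.HasAntidiagonal.mem_antidiagonal] at hab
            obtain ⟨hne, hab⟩ := hab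
            simp only at hab
            rw [abs_mul]
            apply mul_le_mul_of_nonneg_right _ (abs_nonneg _)
            have hb : b ≠ 0 := by
              rintro rfl
              apply hne
              simp at hab
              rw [hab]
            have hb' : b 0 + b 1 ≠ 0 := by
              intro h
              apply hb
              ext i
              fin_cases i
              · simp; omega
              · simp; omega
            have e0 : a 0 + b 0 = m 0 := by rw [← hab]; rfl
            have e1 : a 1 + b 1 = m 1 := by rw [← hab]; rfl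
            have hlt : a 0 + a 1 < d := by omega
            refine (ih (a 0 + a 1) hlt a rfl).trans ?_
            apply mul_le_mul_of_nonneg_left _ hC0
            exact pow_le_pow_right₀ hA1 (by omega)
          _ = C * A ^ (d - 1) * ∑ x ∈ (Finset.HasAntidiagonal.antidiagonal m).erase (m, 0),
              |Q.coeff x.2| := by rw [Finset.mul_sum]
          _ ≤ C * A ^ (d - 1) * SQ := by
            apply mul_le_mul_of_nonneg_left _ (by positivity)
            refine le_trans ?_ (hQsum m)
            exact Finset.sum_le_sum_of_subset_of_nonneg (Finset.erase_subset _ _)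
              (fun i _ _ => abs_nonneg _)
      have h2 : MvPowerSeries.coeff m R * q0 = P.coeff m - T := by linarith
      have h3 : |MvPowerSeries.coeff m R| * |q0| ≤ SP + C * A ^ (d - 1) * SQ := by
        rw [← abs_mul, h2]
        calc |P.coeff m - T| ≤ |P.coeff m| + |T| := by
              rw [sub_eq_add_neg]
              exact (abs_add_le _ _).trans (by rw [abs_neg])
          _ ≤ _ := add_le_add (hPm m) hTb
      have hSP' : SP = C / 2 * |q0| := by rw [hC]; field_simp
      have hSQ' : SQ = (A - 1) / 2 * |q0| := by rw [hA]; field_simp; ring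
      rw [hd]
      have h4 : |MvPowerSeries.coeff m R| ≤ C / 2 + C * A ^ (d - 1) * ((A - 1) / 2) := by
        have h5 : |MvPowerSeries.coeff m R| * |q0| ≤
            (C / 2 + C * A ^ (d - 1) * ((A - 1) / 2)) * |q0| := by
          calc _ ≤ SP + C * A ^ (d - 1) * SQ := h3
            _ = _ := by rw [hSP', hSQ']; ring
        exact le_of_mul_le_mul_right h5 hq0p
      rcases Nat.eq_zero_or_pos d with hd0 | hd0
      · -- no lower terms
        subst hd0
        have hm0 : m = 0 := by
          ext i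
          fin_cases i
          · simp; omega
          · simp; omega
        have hT0 : T = 0 := by
          rw [hT, hm0]
          apply Finset.sum_eq_zero
          rintro ⟨a, b⟩ hab
          rw [Finset.mem_erase, Finset.HasAntidiagonal.mem_antidiagonal] at hab
          exfalso
          apply hab.1
          have := hab.2
          simp only at this
          have hh := add_eq_zero.mp this
          rw [hh.1, hh.2]
        rw [hT0, sub_zero] at h2
        have h6 : |MvPowerSeries.coeff m R| * |q0| ≤ C / 2 * |q0| := by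
          rw [← abs_mul, h2, ← hSP']
          exact hPm m
        have h7 := le_of_mul_le_mul_right h6 hq0p
        simp only [pow_zero, mul_one]
        linarith
      · have hAd : A ^ d = A ^ (d - 1) * A := by
          rw [← pow_succ]; congr 1; omega
        have hpos : 1 ≤ A ^ (d - 1) := one_le_pow₀ hA1
        rw [hAd]
        have : C / 2 ≤ C * A ^ (d - 1) / 2 := by nlinarith
        nlinarith [mul_nonneg hC0 (by linarith : (0:ℚ) ≤ A ^ (d - 1)),
          mul_nonneg (mul_nonneg hC0 (by linarith : (0:ℚ) ≤ A ^ (d - 1)))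
            (by linarith : (0:ℚ) ≤ A - 1)]
  intro m
  exact key _ m rfl


/-- The full geometric series with coefficients `A ^ (i + j)`. -/
def T1 (A : ℚ) : MPS := fun m => A ^ (m 0 + m 1)

theorem coeff_T1 (A : ℚ) (m : Fin 2 →₀ ℕ) :
    MvPowerSeries.coeff m (T1 A) = A ^ (m 0 + m 1) := rfl

theorem T1_mul (A : ℚ) :
    T1 A * (((1 - MvPowerSeries.C A * MvPowerSeries.X 0) *
      (1 - MvPowerSeries.C A * MvPowerSeries.X 1) : MPS)) = 1 := by
  classical
  -- coefficients of multiplication by a variable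
  have hX : ∀ (i : Fin 2) (f : MPS) (m : Fin 2 →₀ ℕ),
      MvPowerSeries.coeff m (f * (1 - MvPowerSeries.C A * MvPowerSeries.X i)) =
      MvPowerSeries.coeff m f -
        (if 1 ≤ m i then A * MvPowerSeries.coeff (m - Finsupp.single i 1) f else 0) := by
    intro i f m
    have h1 : (MvPowerSeries.C A * MvPowerSeries.X i : MPS) =
        MvPowerSeries.monomial (Finsupp.single i 1) A := by
      rw [MvPowerSeries.X_def, ← MvPowerSeries.monomial_zero_eq_C_apply,
        MvPowerSeries.monomial_mul_monomial, zero_add, mul_one]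
    rw [h1, mul_sub, mul_one, map_sub, MvPowerSeries.coeff_mul_monomial]
    congr 1
    have h2 : Finsupp.single i 1 ≤ m ↔ 1 ≤ m i := by
      rw [Finsupp.single_le_iff]
    by_cases h : 1 ≤ m i
    · rw [if_pos h, if_pos (h2.mpr h), mul_comm]
    · rw [if_neg h, if_neg (fun h' => h (h2.mp h'))]
  have hfirst : ∀ m : Fin 2 →₀ ℕ, MvPowerSeries.coeff m
      (T1 A * (1 - MvPowerSeries.C A * MvPowerSeries.X 0)) = if m 0 = 0 then A ^ (m 1) else 0 := by
    intro m
    rw [hX, coeff_T1]
    by_cases h : m 0 = 0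
    · rw [if_neg (by omega), if_pos h, h, zero_add, sub_zero]
    · rw [if_pos (by omega), if_neg h, coeff_T1]
      have e0 : (m - Finsupp.single 0 1 : Fin 2 →₀ ℕ) 0 = m 0 - 1 := by simp
      have e1 : (m - Finsupp.single 0 1 : Fin 2 →₀ ℕ) 1 = m 1 := by simp
      rw [e0, e1, ← pow_succ']
      have : m 0 - 1 + m 1 + 1 = m 0 + m 1 := by omega
      rw [this, sub_self]
  rw [← mul_assoc]
  ext m
  rw [hX, hfirst, hfirst, MvPowerSeries.coeff_one]
  have e0 : (m - Finsupp.single 1 1 : Fin 2 →₀ ℕ) 0 = m 0 := by simp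
  have e1 : (m - Finsupp.single 1 1 : Fin 2 →₀ ℕ) 1 = m 1 - 1 := by simp
  rw [e0, e1]
  by_cases h0 : m 0 = 0
  · by_cases h1 : m 1 = 0
    · have : m = 0 := by ext i; fin_cases i <;> simp [h0, h1]
      rw [if_pos h0, if_neg (by omega), if_pos this, h1]
      simp
    · have : m ≠ 0 := by
        rintro rfl
        simp at h1
      rw [if_pos h0, if_pos (by omega), if_neg this, if_pos h0, ← pow_succ']
      have : m 1 - 1 + 1 = m 1 := by omega
      rw [this, sub_self]
  · have : m ≠ 0 := by
      rintro rfl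
      simp at h0
    rw [if_neg h0, if_neg h0, if_neg this]
    simp

theorem geo_one (a : ℚ) :
    (PowerSeries.mk fun n => a ^ n) * (1 - PowerSeries.C a * PowerSeries.X) = 1 := by
  ext n
  rw [mul_sub, mul_one, map_sub, PowerSeries.coeff_mk, PowerSeries.coeff_one]
  have : (PowerSeries.mk fun n => a ^ n) * (PowerSeries.C a * PowerSeries.X) =
      PowerSeries.C a * ((PowerSeries.mk fun n => a ^ n) * PowerSeries.X) := by ring
  rw [this, PowerSeries.coeff_C_mul]
  rcases n with _ | n
  · simp
  · rw [PowerSeries.coeff_succ_mul_X, PowerSeries.coeff_mk, if_neg (by omega), pow_succ']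
    ring

theorem mainThm (F : PowerSeries ℚ) (hpos : ∀ n : ℕ, 0 ≤ PowerSeries.coeff n F)
    (hF : ∃ p : Polynomial (Polynomial ℚ), p ≠ 0 ∧
          Polynomial.eval₂ Polynomial.coeToPowerSeries.ringHom F p = 0) :
    ∃ R : MvPowerSeries (Fin 2) ℚ,
        (∃ P Q : MvPolynomial (Fin 2) ℚ,
            MvPolynomial.constantCoeff Q ≠ 0 ∧
            R * (Q : MvPowerSeries (Fin 2) ℚ) = (P : MvPowerSeries (Fin 2) ℚ)) ∧
        (∀ m : Fin 2 →₀ ℕ, 0 ≤ MvPowerSeries.coeff m R) ∧
        (∀ n : ℕ, MvPowerSeries.coeff (Finsupp.single 0 n + Finsupp.single 1 n) R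
            = PowerSeries.coeff n F) := by
  classical
  obtain ⟨R, ⟨P, Q, hQ, hRQ⟩, hd⟩ := furstenberg F hF
  obtain ⟨A, C, hA, hC, hg⟩ := growth R P Q hQ hRQ
  set T2 : MPS := Phi0 (PowerSeries.mk fun n => (A ^ 2) ^ n) with hT2
  have hT2c : ∀ m : Fin 2 →₀ ℕ, MvPowerSeries.coeff m T2 =
      if m 0 = m 1 then A ^ (m 0 + m 1) else 0 := by
    intro m
    rw [hT2, coeff_Phi0]
    by_cases h : m 0 = m 1
    · rw [if_pos h, if_pos h, PowerSeries.coeff_mk, ← pow_mul, h]
      congr 1
      ring
    · rw [if_neg h, if_neg h]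
  have hT2m : T2 * (1 - MvPowerSeries.C (A ^ 2) * (MvPowerSeries.X 0 * MvPowerSeries.X 1)) = 1 := by
    have h1 := congrArg Phi0 (geo_one (A ^ 2))
    rw [map_mul, map_sub, map_one, map_mul, Phi0_C, Phi0_X] at h1
    exact h1
  set D1 : MPS := (1 - MvPowerSeries.C A * MvPowerSeries.X 0) *
      (1 - MvPowerSeries.C A * MvPowerSeries.X 1) with hD1
  set D2 : MPS := 1 - MvPowerSeries.C (A ^ 2) * (MvPowerSeries.X 0 * MvPowerSeries.X 1) with hD2
  obtain ⟨d1, hd1⟩ : ∃ d1 : MvPolynomial (Fin 2) ℚ,
      d1 = (1 - MvPolynomial.C A * MvPolynomial.X 0) *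
      (1 - MvPolynomial.C A * MvPolynomial.X 1) := ⟨_, rfl⟩
  obtain ⟨d2, hd2⟩ : ∃ d2 : MvPolynomial (Fin 2) ℚ,
      d2 = 1 - MvPolynomial.C (A ^ 2) * (MvPolynomial.X 0 * MvPolynomial.X 1) := ⟨_, rfl⟩
  have hsub : ∀ a b : MvPolynomial (Fin 2) ℚ, ((a - b : MvPolynomial (Fin 2) ℚ) : MPS) =
      (a : MPS) - (b : MPS) := by
    intro a b
    exact map_sub (MvPolynomial.coeToMvPowerSeries.ringHom (σ := Fin 2) (R := ℚ)) a b
  have hc1 : (d1 : MPS) = D1 := by
    rw [hd1, hD1]
    simp only [MvPolynomial.coe_mul, hsub, MvPolynomial.coe_one, MvPolynomial.coe_C,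
      MvPolynomial.coe_X]
  have hc2 : (d2 : MPS) = D2 := by
    rw [hd2, hD2]
    simp only [MvPolynomial.coe_mul, hsub, MvPolynomial.coe_one, MvPolynomial.coe_C,
      MvPolynomial.coe_X]
  have hT1m : T1 A * D1 = 1 := T1_mul A
  refine ⟨R + MvPowerSeries.C C * (T1 A - T2), ⟨P * d1 * d2 + MvPolynomial.C C * Q * (d2 - d1),
    Q * d1 * d2, ?_, ?_⟩, ?_, ?_⟩
  · rw [map_mul, map_mul]
    refine mul_ne_zero (mul_ne_zero hQ ?_) ?_
    · rw [hd1]; simp
    · rw [hd2]; simp
  · rw [MvPolynomial.coe_add, MvPolynomial.coe_mul, MvPolynomial.coe_mul, MvPolynomial.coe_mul,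
      MvPolynomial.coe_mul, MvPolynomial.coe_mul, MvPolynomial.coe_mul, hsub, hc1, hc2,
      MvPolynomial.coe_C, ← hRQ]
    calc (R + MvPowerSeries.C C * (T1 A - T2)) * ((Q : MPS) * D1 * D2)
        = R * (Q : MPS) * D1 * D2 + MvPowerSeries.C C * (Q : MPS) *
            ((T1 A * D1) * D2 - (T2 * D2) * D1) := by ring
      _ = _ := by rw [hT1m, hT2m]; ring
  · intro m
    rw [map_add, MvPowerSeries.coeff_C_mul, map_sub, coeff_T1, hT2c]
    by_cases h : m 0 = m 1
    · rw [if_pos h, sub_self, mul_zero, add_zero]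
      have hm : m = Finsupp.single 0 (m 0) + Finsupp.single 1 (m 0) := by
        ext i
        fin_cases i
        · simp
        · simp [h]
      rw [hm, hd]
      exact hpos _
    · rw [if_neg h, sub_zero]
      have := (abs_le.mp (hg m)).1
      linarith
  · intro n
    rw [map_add, MvPowerSeries.coeff_C_mul, map_sub, coeff_T1, hT2c, diag0, diag1, if_pos rfl,
      sub_self, mul_zero, add_zero, hd]


/-- For every F ∈ ℚ⟦x⟧ with all coefficients ≥ 0 that is algebraic over ℚ[x] (nonzero p ∈ ℚ[x][T] with p(F)=0), there is a bivariate rational power series R = P/Q (Q(0)≠0) with all Taylor coefficients ≥ 0 whose diagonal coefficients [x^n y^n]R equal [x^n]F. -/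
theorem result :
    ∀ F : PowerSeries ℚ,
      (∀ n : ℕ, 0 ≤ PowerSeries.coeff n F) →
      (∃ p : Polynomial (Polynomial ℚ), p ≠ 0 ∧
          Polynomial.eval₂ Polynomial.coeToPowerSeries.ringHom F p = 0) →
      ∃ R : MvPowerSeries (Fin 2) ℚ,
        (∃ P Q : MvPolynomial (Fin 2) ℚ,
            MvPolynomial.constantCoeff Q ≠ 0 ∧
            R * (Q : MvPowerSeries (Fin 2) ℚ) = (P : MvPowerSeries (Fin 2) ℚ)) ∧
        (∀ m : Fin 2 →₀ ℕ, 0 ≤ MvPowerSeries.coeff m R) ∧
        (∀ n : ℕ, MvPowerSeries.coeff (Finsupp.single 0 n + Finsupp.single 1 n) R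
            = PowerSeries.coeff n F) := by
  intro F hpos hF
  exact mainThm F hpos hF

end Pool.Agent.S05387
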