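import Pool.Statements.S05391

set_option autoImplicit false
open Pool Pool.MP_405cad_co

namespace Pool.Agent.S05391

open Finset

section basics
variable {n : ℕ}

/-- average over the cube -/
noncomputable def avg (h : (Fin n → Bool) → ℝ) : ℝ := (∑ x, h x) / (2:ℝ)^n

lemma avg_add (g h : (Fin n → Bool) → ℝ) : avg (fun x => g x + h x) = avg g + avg h := by
  unfold avg; rw [Finset.sum_add_distrib, add_div]

lemma avg_sub (g h : (Fin n → Bool) → ℝ) : avg (fun x => g x - h x) = avg g - avg h := by
  unfold avg; rw [Finset.sum_sub_distrib, sub_div]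

lemma avg_mul_left (c : ℝ) (h : (Fin n → Bool) → ℝ) : avg (fun x => c * h x) = c * avg h := by
  unfold avg; rw [← Finset.mul_sum, mul_div_assoc]

lemma avg_const (c : ℝ) : avg (fun _ : Fin n → Bool => c) = c := by
  unfold avg
  rw [Finset.sum_const, Finset.card_univ]
  have h : Fintype.card (Fin n → Bool) = 2 ^ n := by simp
  rw [h, nsmul_eq_mul]
  push_cast
  field_simp

lemma avg_le {g h : (Fin n → Bool) → ℝ} (H : ∀ x, g x ≤ h x) : avg g ≤ avg h := by
  unfold avg
  apply div_le_div_of_nonneg_right (Finset.sum_le_sum (fun x _ => H x)) (by positivity)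

lemma avg_nonneg {g : (Fin n → Bool) → ℝ} (H : ∀ x, 0 ≤ g x) : 0 ≤ avg g := by
  unfold avg
  exact div_nonneg (Finset.sum_nonneg (fun x _ => H x)) (by positivity)

lemma avg_sum {α : Type*} (s : Finset α) (g : α → (Fin n → Bool) → ℝ) :
    avg (fun x => ∑ i ∈ s, g i x) = ∑ i ∈ s, avg (g i) := by
  unfold avg
  rw [Finset.sum_comm, Finset.sum_div]

lemma avg_comm (g : (Fin n → Bool) → (Fin n → Bool) → ℝ) :
    avg (fun x => avg (fun y => g x y)) = avg (fun y => avg (fun x => g x y)) := by
  unfold avg
  rw [← Finset.sum_div, ← Finset.sum_div, Finset.sum_comm]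

/-- flip coordinate i -/
def flp (i : Fin n) (x : Fin n → Bool) : Fin n → Bool := Function.update x i (!(x i))

lemma flp_same (i : Fin n) (x : Fin n → Bool) : flp i x i = !(x i) := by
  simp [flp]

lemma flp_ne {i j : Fin n} (h : j ≠ i) (x : Fin n → Bool) : flp i x j = x j := by
  simp [flp, h]

lemma flp_flp (i : Fin n) (x : Fin n → Bool) : flp i (flp i x) = x := by
  funext j
  by_cases h : j = i
  · subst h; rw [flp_same, flp_same]; simp
  · rw [flp_ne h, flp_ne h]

lemma avg_flp (i : Fin n) (h : (Fin n → Bool) → ℝ) : avg (fun x => h (flp i x)) = avg h := by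
  unfold avg
  congr 1
  exact Fintype.sum_equiv (Function.Involutive.toPerm (flp i) (flp_flp i)) _ _ (fun x => rfl)

/-- the sign of coordinate i -/
def eps (i : Fin n) (x : Fin n → Bool) : ℝ := if x i then 1 else -1

lemma eps_sq (i : Fin n) (x : Fin n → Bool) : eps i x * eps i x = 1 := by
  unfold eps; split_ifs <;> norm_num

lemma eps_flp_same (i : Fin n) (x : Fin n → Bool) : eps i (flp i x) = - eps i x := by
  unfold eps; rw [flp_same]; cases x i <;> simp

lemma eps_flp_ne {i j : Fin n} (h : j ≠ i) (x : Fin n → Bool) : eps j (flp i x) = eps j x := by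
  unfold eps; rw [flp_ne h]

lemma avg_eps (i : Fin n) : avg (eps i) = 0 := by
  have h := avg_flp i (eps i)
  have h2 : (fun x => eps i (flp i x)) = (fun x => (-1) * eps i x) := by
    funext x; rw [eps_flp_same]; ring
  rw [h2, avg_mul_left] at h
  linarith

lemma avg_eps_mul {i j : Fin n} (hij : j ≠ i) : avg (fun x => eps i x * eps j x) = 0 := by
  have h := avg_flp i (fun x => eps i x * eps j x)
  have h2 : (fun x => eps i (flp i x) * eps j (flp i x)) = (fun x => (-1) * (eps i x * eps j x)) := by
    funext x; rw [eps_flp_same, eps_flp_ne hij]; ring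
  rw [h2, avg_mul_left] at h
  linarith

lemma avg_sq_lin (R : Finset (Fin n)) (a : Fin n → ℝ) :
    avg (fun x => (∑ i ∈ R, a i * eps i x)^2) = ∑ i ∈ R, (a i)^2 := by
  have h1 : (fun x : Fin n → Bool => (∑ i ∈ R, a i * eps i x)^2)
      = fun x => ∑ i ∈ R, ∑ j ∈ R, (a i * a j) * (eps i x * eps j x) := by
    funext x
    rw [sq, Finset.sum_mul_sum]
    refine Finset.sum_congr rfl (fun i _ => Finset.sum_congr rfl (fun j _ => ?_))
    ring
  rw [h1, avg_sum]
  refine Finset.sum_congr rfl (fun i hi => ?_)
  rw [avg_sum, Finset.sum_eq_single i]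
  · rw [avg_mul_left]
    have : (fun x : Fin n → Bool => eps i x * eps i x) = fun _ => (1:ℝ) := by
      funext x; exact eps_sq i x
    rw [this, avg_const]; ring
  · intro j _ hj
    rw [avg_mul_left, avg_eps_mul hj, mul_zero]
  · intro h; exact absurd hi h

lemma bessel (G : (Fin n → Bool) → ℝ) (R : Finset (Fin n)) :
    ∑ i ∈ R, (avg (fun x => G x * eps i x))^2 ≤ avg (fun x => G x ^2) - (avg G)^2 := by
  set a : Fin n → ℝ := fun i => avg (fun x => G x * eps i x) with ha
  have h0 : 0 ≤ avg (fun x => (G x - avg G - ∑ i ∈ R, a i * eps i x)^2) :=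
    avg_nonneg (fun x => sq_nonneg _)
  have h1 : (fun x => (G x - avg G - ∑ i ∈ R, a i * eps i x)^2)
      = fun x => (G x ^ 2 + (-2 * avg G) * G x + (avg G)^2 + (∑ i ∈ R, a i * eps i x)^2)
        + ((2 * avg G) * (∑ i ∈ R, a i * eps i x) + (-2) * ∑ i ∈ R, a i * (G x * eps i x)) := by
    funext x
    have : ∑ i ∈ R, a i * (G x * eps i x) = G x * ∑ i ∈ R, a i * eps i x := by
      rw [Finset.mul_sum]; refine Finset.sum_congr rfl (fun i _ => ?_); ring
    rw [this]; ring
  have h2 : avg (fun x => ∑ i ∈ R, a i * eps i x) = 0 := by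
    rw [avg_sum]
    apply Finset.sum_eq_zero
    intro i _
    rw [avg_mul_left, avg_eps, mul_zero]
  have h3 : avg (fun x => ∑ i ∈ R, a i * (G x * eps i x)) = ∑ i ∈ R, (a i)^2 := by
    rw [avg_sum]
    refine Finset.sum_congr rfl (fun i _ => ?_)
    rw [avg_mul_left, sq]
  rw [h1, avg_add, avg_add, avg_add, avg_add, avg_add, avg_mul_left, avg_mul_left, avg_mul_left,
    avg_const, avg_sq_lin, h2, h3] at h0
  nlinarith

lemma jensen (G : (Fin n → Bool) → ℝ) : (avg G)^2 ≤ avg (fun x => G x ^2) := by
  have := bessel G ∅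
  simp at this
  linarith

/-- merge: x on U, z off U -/
def mrg (U : Finset (Fin n)) (x z : Fin n → Bool) : Fin n → Bool := fun i => if i ∈ U then x i else z i

lemma avg_mrg (W : Finset (Fin n)) (H : (Fin n → Bool) → ℝ) :
    avg (fun y => avg (fun x => H (mrg W x y))) = avg H := by
  have key : ∑ y : Fin n → Bool, ∑ x : Fin n → Bool, H (mrg W x y)
      = (2:ℝ)^n * ∑ x : Fin n → Bool, H x := by
    rw [← Fintype.sum_prod_type' (f := fun (y x : Fin n → Bool) => H (mrg W x y))]
    have inv : Function.Involutive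
        (fun p : (Fin n → Bool) × (Fin n → Bool) => (mrg W p.1 p.2, mrg W p.2 p.1)) := by
      intro p
      ext i
      · by_cases hi : i ∈ W <;> simp [mrg, hi]
      · by_cases hi : i ∈ W <;> simp [mrg, hi]
    rw [Fintype.sum_equiv (Function.Involutive.toPerm _ inv)
      (fun p : (Fin n → Bool) × (Fin n → Bool) => H (mrg W p.2 p.1))
      (fun p : (Fin n → Bool) × (Fin n → Bool) => H p.2) (fun p => rfl)]
    rw [Fintype.sum_prod_type' (f := fun (y x : Fin n → Bool) => H x)]
    rw [Finset.sum_const, Finset.card_univ]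
    have h : Fintype.card (Fin n → Bool) = 2 ^ n := by simp
    rw [h, nsmul_eq_mul]
    push_cast
    rfl
  unfold avg
  rw [← Finset.sum_div, key]
  field_simp

noncomputable def E (U : Finset (Fin n)) (z : Fin n → Bool) (h : (Fin n → Bool) → ℝ) : ℝ :=
  avg (fun x => h (mrg U x z))

lemma mrg_mrg {U R : Finset (Fin n)} (hR : R ⊆ U) (x y z : Fin n → Bool) :
    mrg (U \ R) x (mrg U y z) = mrg U (mrg (U \ R) x y) z := by
  funext i
  by_cases hi : i ∈ U
  · by_cases hr : i ∈ R <;> simp [mrg, hi, hr]
  · simp [mrg, hi]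

lemma E_tower {U R : Finset (Fin n)} (hR : R ⊆ U) (z : Fin n → Bool) (h : (Fin n → Bool) → ℝ) :
    avg (fun y => E (U \ R) (mrg U y z) h) = E U z h := by
  unfold E
  have := avg_mrg (U \ R) (fun x => h (mrg U x z))
  rw [← this]
  congr 1
  funext y
  congr 1
  funext x
  rw [mrg_mrg hR]

lemma flp_mrg {U : Finset (Fin n)} {i : Fin n} (hi : i ∈ U) (x z : Fin n → Bool) :
    flp i (mrg U x z) = mrg U (flp i x) z := by
  funext j
  by_cases hj : j = i
  · subst hj; rw [flp_same]; simp [mrg, hi, flp_same]
  · rw [flp_ne hj]; simp [mrg, flp_ne hj]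

lemma E_flp {U : Finset (Fin n)} {i : Fin n} (hi : i ∈ U) (z : Fin n → Bool)
    (h : (Fin n → Bool) → ℝ) : E U z (fun x => h (flp i x)) = E U z h := by
  unfold E
  rw [← avg_flp i (fun x => h (mrg U x z))]
  congr 1
  funext x
  simp only [flp_mrg hi]

lemma E_add (U : Finset (Fin n)) (z : Fin n → Bool) (g h : (Fin n → Bool) → ℝ) :
    E U z (fun x => g x + h x) = E U z g + E U z h := avg_add _ _

lemma E_sub (U : Finset (Fin n)) (z : Fin n → Bool) (g h : (Fin n → Bool) → ℝ) :
    E U z (fun x => g x - h x) = E U z g - E U z h := avg_sub _ _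

lemma E_mul_left (U : Finset (Fin n)) (z : Fin n → Bool) (c : ℝ) (h : (Fin n → Bool) → ℝ) :
    E U z (fun x => c * h x) = c * E U z h := avg_mul_left _ _

lemma E_const (U : Finset (Fin n)) (z : Fin n → Bool) (c : ℝ) :
    E U z (fun _ => c) = c := avg_const c

lemma E_le (U : Finset (Fin n)) (z : Fin n → Bool) {g h : (Fin n → Bool) → ℝ}
    (H : ∀ x, g x ≤ h x) : E U z g ≤ E U z h := avg_le (fun x => H _)

lemma E_sum {α : Type*} (U : Finset (Fin n)) (z : Fin n → Bool) (s : Finset α)
    (g : α → (Fin n → Bool) → ℝ) :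
    E U z (fun x => ∑ i ∈ s, g i x) = ∑ i ∈ s, E U z (g i) := avg_sum s _

lemma avg_E_comm (U : Finset (Fin n)) (z : Fin n → Bool)
    (g : (Fin n → Bool) → (Fin n → Bool) → ℝ) :
    avg (fun y => E U z (fun x => g y x)) = E U z (fun x => avg (fun y => g y x)) :=
  avg_comm _

end basics

section rand
variable {n : ℕ}

/-- random subset of U coded by a point y of the cube -/
def RS (U : Finset (Fin n)) (y : Fin n → Bool) : Finset (Fin n) := U.filter (fun i => y i = true)

lemma RS_sub (U : Finset (Fin n)) (y : Fin n → Bool) : RS U y ⊆ U := Finset.filter_subset _ _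

lemma sum_RS (U : Finset (Fin n)) (g : Fin n → ℝ) (y : Fin n → Bool) :
    ∑ i ∈ RS U y, g i = (1/2) * ∑ i ∈ U, g i + ∑ i ∈ U, (g i / 2) * eps i y := by
  unfold RS
  rw [Finset.sum_filter, Finset.mul_sum, ← Finset.sum_add_distrib]
  refine Finset.sum_congr rfl (fun i _ => ?_)
  unfold eps
  cases y i <;> simp <;> ring

lemma sum_sdiff_RS (U : Finset (Fin n)) (g : Fin n → ℝ) (y : Fin n → Bool) :
    ∑ i ∈ U \ RS U y, g i = (1/2) * ∑ i ∈ U, g i - ∑ i ∈ U, (g i / 2) * eps i y := by
  have h := Finset.sum_sdiff (f := g) (RS_sub U y)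
  rw [sum_RS] at h
  linarith

lemma avg_lin (U : Finset (Fin n)) (a : Fin n → ℝ) :
    avg (fun y => ∑ i ∈ U, a i * eps i y) = 0 := by
  rw [avg_sum]
  apply Finset.sum_eq_zero
  intro i _
  rw [avg_mul_left, avg_eps, mul_zero]

lemma avg_sum_RS (U : Finset (Fin n)) (g : Fin n → ℝ) :
    avg (fun y => ∑ i ∈ RS U y, g i) = (1/2) * ∑ i ∈ U, g i := by
  simp_rw [sum_RS]
  rw [avg_add, avg_const, avg_lin, add_zero]

lemma avg_sum_sdiff_RS (U : Finset (Fin n)) (g : Fin n → ℝ) :
    avg (fun y => ∑ i ∈ U \ RS U y, g i) = (1/2) * ∑ i ∈ U, g i := by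
  simp_rw [sum_sdiff_RS]
  rw [avg_sub, avg_const, avg_lin, sub_zero]

lemma avg_sq_sum_sdiff_RS (U : Finset (Fin n)) (g : Fin n → ℝ) :
    avg (fun y => (∑ i ∈ U \ RS U y, g i)^2) = (1/4) * ((∑ i ∈ U, g i)^2 + ∑ i ∈ U, (g i)^2) := by
  have h : (fun y : Fin n → Bool => (∑ i ∈ U \ RS U y, g i)^2)
      = fun y => ((1/4) * (∑ i ∈ U, g i)^2 - (∑ i ∈ U, g i) * ∑ i ∈ U, (g i / 2) * eps i y)
        + (∑ i ∈ U, (g i / 2) * eps i y)^2 := by
    funext y
    rw [sum_sdiff_RS]
    ring
  rw [h, avg_add, avg_sub, avg_const, avg_mul_left, avg_lin, avg_sq_lin]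
  have : ∑ i ∈ U, (g i / 2)^2 = (1/4) * ∑ i ∈ U, (g i)^2 := by
    rw [Finset.mul_sum]; refine Finset.sum_congr rfl (fun i _ => ?_); ring
  rw [this]; ring

end rand

section main
variable {n : ℕ} (f : (Fin n → Bool) → Bool) (C : (Fin n → Bool) → Finset (Fin n))

/-- pivotal set -/
def Piv (x : Fin n → Bool) : Finset (Fin n) :=
  Finset.univ.filter fun i : Fin n => f (Function.update x i (!(x i))) ≠ f x

noncomputable def F (x : Fin n → Bool) : ℝ := if f x then 1 else 0

/-- indicator that i is pivotal -/
noncomputable def pind (i : Fin n) (x : Fin n → Bool) : ℝ := if i ∈ Piv f x then 1 else 0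

noncomputable def cind (i : Fin n) (x : Fin n → Bool) : ℝ := if i ∈ C x then 1 else 0

lemma mem_Piv (i : Fin n) (x : Fin n → Bool) : i ∈ Piv f x ↔ f (flp i x) ≠ f x := by
  simp [Piv, flp]

lemma F_sq (x : Fin n → Bool) : F f x ^ 2 = F f x := by
  unfold F; split_ifs <;> norm_num

lemma cind_sq (i : Fin n) (x : Fin n → Bool) : cind C i x ^ 2 = cind C i x := by
  unfold cind; split_ifs <;> norm_num

lemma cind_nonneg (i : Fin n) (x : Fin n → Bool) : 0 ≤ cind C i x := by
  unfold cind; split_ifs <;> norm_num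

lemma pind_nonneg (i : Fin n) (x : Fin n → Bool) : 0 ≤ pind f i x := by
  unfold pind; split_ifs <;> norm_num

lemma mono_flp (hf : Monotone f) (i : Fin n) (x : Fin n → Bool) :
    (F f x - F f (flp i x)) * eps i x = pind f i x := by
  have h1 : x i = true → f (flp i x) = true → f x = true := by
    intro hx h
    have : flp i x ≤ x := by
      intro j
      by_cases hj : j = i
      · subst hj; rw [flp_same, hx]; simp
      · rw [flp_ne hj]
    exact Bool.eq_true_of_true_le (h ▸ hf this)
  have h2 : x i = false → f x = true → f (flp i x) = true := by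
    intro hx h
    have : x ≤ flp i x := by
      intro j
      by_cases hj : j = i
      · subst hj; rw [flp_same, hx]; simp
      · rw [flp_ne hj]
    exact Bool.eq_true_of_true_le (h ▸ hf this)
  unfold pind
  simp only [mem_Piv]
  unfold F eps
  cases hx : x i <;> cases hfx : f x <;> cases hff : f (flp i x) <;> simp_all

lemma flp_Piv (i : Fin n) (x : Fin n → Bool) : pind f i (flp i x) = pind f i x := by
  unfold pind
  simp only [mem_Piv, flp_flp]
  by_cases h : f x = f (flp i x)
  · simp [h]
  · simp [h, Ne.symm h]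

lemma pind_F_flp (i : Fin n) (x : Fin n → Bool) :
    pind f i x * F f (flp i x) = pind f i x - pind f i x * F f x := by
  unfold pind
  simp only [mem_Piv]
  unfold F
  cases hfx : f x <;> cases hff : f (flp i x) <;> simp

/-- influence at a node -/
noncomputable def w (U : Finset (Fin n)) (z : Fin n → Bool) (i : Fin n) : ℝ := E U z (pind f i)
noncomputable def cw (U : Finset (Fin n)) (z : Fin n → Bool) (i : Fin n) : ℝ := E U z (cind C i)

lemma E_F_eps (hf : Monotone f) {U : Finset (Fin n)} {i : Fin n} (hi : i ∈ U) (z : Fin n → Bool) :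
    E U z (fun x => F f x * eps i x) = w f U z i / 2 := by
  have h1 := E_flp hi z (fun x => F f x * eps i x)
  have h2 : w f U z i = E U z (fun x => F f x * eps i x + F f (flp i x) * eps i (flp i x)) := by
    unfold w
    congr 1
    funext x
    rw [← mono_flp f hf i x, eps_flp_same]
    ring
  rw [E_add] at h2
  rw [h1] at h2
  linarith

lemma E_pind_F {U : Finset (Fin n)} {i : Fin n} (hi : i ∈ U) (z : Fin n → Bool) :
    E U z (fun x => pind f i x * F f x) = w f U z i / 2 := by
  have h1 := E_flp hi z (fun x => pind f i x * F f x)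
  have h2 : E U z (fun x => pind f i (flp i x) * F f (flp i x))
      = E U z (fun x => pind f i x - pind f i x * F f x) := by
    congr 1
    funext x
    rw [flp_Piv, pind_F_flp]
  rw [h2, E_sub] at h1
  unfold w
  linarith

noncomputable def mu (U : Finset (Fin n)) (z : Fin n → Bool) : ℝ := E U z (F f)
noncomputable def V (U : Finset (Fin n)) (z : Fin n → Bool) : ℝ := mu f U z - (mu f U z)^2

lemma var_drop (hf : Monotone f) {U R : Finset (Fin n)} (hR : R ⊆ U) (z : Fin n → Bool) :
    avg (fun y => V f (U \ R) (mrg U y z)) ≤ V f U z - (1/4) * ∑ i ∈ R, (w f U z i)^2 := by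
  have h1 : avg (fun y => mu f (U \ R) (mrg U y z)) = mu f U z := E_tower hR z (F f)
  have h2 := bessel (fun y => mu f (U \ R) (mrg U y z)) R
  have h3 : ∀ i ∈ R, avg (fun y => mu f (U \ R) (mrg U y z) * eps i y) = w f U z i / 2 := by
    intro i hi
    rw [← E_F_eps f hf (hR hi) z, ← E_tower hR z (fun x => F f x * eps i x)]
    congr 1
    funext y
    have : (fun x => F f (mrg (U \ R) x (mrg U y z)) * eps i (mrg (U \ R) x (mrg U y z)))
        = fun x => eps i y * F f (mrg (U \ R) x (mrg U y z)) := by
      funext x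
      have : mrg (U \ R) x (mrg U y z) i = y i := by
        simp [mrg, hi, hR hi]
      have h4 : eps i (mrg (U \ R) x (mrg U y z)) = eps i y := by
        unfold eps; rw [this]
      rw [h4, mul_comm]
    unfold mu E
    rw [this, avg_mul_left, mul_comm]
  have h4 : ∑ i ∈ R, (avg (fun y => mu f (U \ R) (mrg U y z) * eps i y))^2
      = (1/4) * ∑ i ∈ R, (w f U z i)^2 := by
    rw [Finset.mul_sum]
    refine Finset.sum_congr rfl (fun i hi => ?_)
    rw [h3 i hi]; ring
  rw [h4, h1] at h2
  unfold V
  rw [avg_sub, h1]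
  linarith

noncomputable def pc (U : Finset (Fin n)) (x : Fin n → Bool) : ℝ := ∑ i ∈ U, pind f i x
noncomputable def cc (U : Finset (Fin n)) (x : Fin n → Bool) : ℝ := ∑ i ∈ U, cind C i x

lemma cc_nonneg (U : Finset (Fin n)) (x : Fin n → Bool) : 0 ≤ cc C U x :=
  Finset.sum_nonneg (fun i _ => cind_nonneg C i x)
lemma pc_nonneg (U : Finset (Fin n)) (x : Fin n → Bool) : 0 ≤ pc f U x :=
  Finset.sum_nonneg (fun i _ => pind_nonneg f i x)

/-- certificates -/
structure IsCert : Prop where
  val : ∀ x, ∀ i ∈ C x, x i = f x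
  cert : ∀ x z, (∀ i ∈ C x, z i = f x) → f z = f x

variable {f C}

lemma IsCert.piv_sub (h : IsCert f C) (x : Fin n → Bool) : Piv f x ⊆ C x := by
  intro i hi
  rw [mem_Piv] at hi
  by_contra hc
  apply hi
  apply h.cert
  intro j hj
  have : j ≠ i := by rintro rfl; exact hc hj
  rw [flp_ne this]
  exact h.val x j hj

lemma IsCert.pind_le (h : IsCert f C) (i : Fin n) (x : Fin n → Bool) : pind f i x ≤ cind C i x := by
  unfold pind cind
  by_cases hi : i ∈ Piv f x
  · simp [hi, h.piv_sub x hi]
  · simp only [hi, if_false]; split_ifs <;> norm_num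

lemma IsCert.pc_le (h : IsCert f C) (U : Finset (Fin n)) (x : Fin n → Bool) : pc f U x ≤ cc C U x :=
  Finset.sum_le_sum (fun i _ => h.pind_le i x)

lemma IsCert.cross (h : IsCert f C) {x y : Fin n → Bool} (hxy : f x ≠ f y) :
    ∃ i, i ∈ C x ∧ i ∈ C y ∧ x i ≠ y i := by
  by_contra hc
  push Not at hc
  have h1 : f (fun i => if i ∈ C x then f x else f y) = f x := by
    apply h.cert
    intro i hi
    simp [hi]
  have h2 : f (fun i => if i ∈ C x then f x else f y) = f y := by
    apply h.cert
    intro i hi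
    have : i ∉ C x := by
      intro hx
      have := hc i hx hi
      rw [h.val x i hx, h.val y i hi] at this
      exact hxy this
    simp [this]
  exact hxy (h1.symm.trans h2)

/-- key: variance is at most the sum of products of certificate densities -/
lemma IsCert.V_le (h : IsCert f C) (U : Finset (Fin n)) (z : Fin n → Bool) :
    V f U z ≤ (1/4) * ∑ i ∈ U, (cw C U z i)^2 := by
  have h1 : V f U z = avg (fun x => avg (fun y => F f (mrg U x z) * (1 - F f (mrg U y z)))) := by
    have : ∀ x : Fin n → Bool, avg (fun y => F f (mrg U x z) * (1 - F f (mrg U y z)))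
        = (1 - mu f U z) * F f (mrg U x z) := by
      intro x
      rw [avg_mul_left, avg_sub, avg_const]
      unfold mu E
      ring
    simp_rw [this]
    rw [avg_mul_left]
    unfold V mu E
    ring
  have h2 : ∀ x y : Fin n → Bool, F f (mrg U x z) * (1 - F f (mrg U y z))
      ≤ ∑ i ∈ U, (cind C i (mrg U x z) * F f (mrg U x z)) * (cind C i (mrg U y z) * (1 - F f (mrg U y z))) := by
    intro x y
    have hnn : ∀ i ∈ U, 0 ≤ (cind C i (mrg U x z) * F f (mrg U x z)) * (cind C i (mrg U y z) * (1 - F f (mrg U y z))) := by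
      intro i _
      have a1 := cind_nonneg C i (mrg U x z)
      have a2 := cind_nonneg C i (mrg U y z)
      have a3 : 0 ≤ F f (mrg U x z) := by unfold F; split_ifs <;> norm_num
      have a4 : 0 ≤ 1 - F f (mrg U y z) := by unfold F; split_ifs <;> norm_num
      positivity
    cases hx : f (mrg U x z)
    · have : F f (mrg U x z) = 0 := by simp [F, hx]
      rw [this, zero_mul]
      rw [this] at hnn
      exact Finset.sum_nonneg hnn
    · cases hy : f (mrg U y z)
      · obtain ⟨i, hi1, hi2, hne⟩ := h.cross (x := mrg U x z) (y := mrg U y z) (by rw [hx, hy]; simp)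
        have hiU : i ∈ U := by
          by_contra hiU
          apply hne
          simp [mrg, hiU]
        refine le_trans ?_ (Finset.single_le_sum hnn hiU)
        simp [F, hx, hy, cind, hi1, hi2]
      · have : F f (mrg U y z) = 1 := by simp [F, hy]
        rw [this] at hnn ⊢
        have e0 : F f (mrg U x z) * ((1:ℝ) - 1) = 0 := by ring
        rw [e0]
        exact Finset.sum_nonneg hnn
  have h3 : V f U z ≤ ∑ i ∈ U, E U z (fun x => cind C i x * F f x) * E U z (fun x => cind C i x * (1 - F f x)) := by
    rw [h1]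
    refine le_trans (avg_le (fun x => avg_le (fun y => h2 x y))) ?_
    apply le_of_eq
    have : ∀ x : Fin n → Bool, avg (fun y => ∑ i ∈ U, (cind C i (mrg U x z) * F f (mrg U x z)) * (cind C i (mrg U y z) * (1 - F f (mrg U y z))))
        = ∑ i ∈ U, E U z (fun y => cind C i y * (1 - F f y)) * (cind C i (mrg U x z) * F f (mrg U x z)) := by
      intro x
      rw [avg_sum]
      refine Finset.sum_congr rfl (fun i _ => ?_)
      rw [avg_mul_left, mul_comm]
      rfl
    simp_rw [this]
    rw [avg_sum]
    refine Finset.sum_congr rfl (fun i _ => ?_)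
    rw [avg_mul_left, mul_comm]
    rfl
  refine le_trans h3 ?_
  rw [Finset.mul_sum]
  refine Finset.sum_le_sum (fun i _ => ?_)
  have h4 : cw C U z i = E U z (fun x => cind C i x * F f x) + E U z (fun x => cind C i x * (1 - F f x)) := by
    rw [← E_add]
    unfold cw
    congr 1
    funext x
    ring
  rw [h4]
  nlinarith [sq_nonneg (E U z (fun x => cind C i x * F f x) - E U z (fun x => cind C i x * (1 - F f x)))]

/-- sensitivity is controlled by second moment and variance -/
lemma IsCert.I_le (h : IsCert f C) (U : Finset (Fin n)) (z : Fin n → Bool) (lam : ℝ) (hl : 0 < lam) :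
    E U z (pc f U) ≤ lam * E U z (fun x => (cc C U x)^2) + (1/lam) * V f U z := by
  have h1 : E U z (fun x => pc f U x * F f x) = E U z (pc f U) / 2 := by
    have e1 : (fun x => pc f U x * F f x) = fun x => ∑ i ∈ U, pind f i x * F f x := by
      funext x; unfold pc; rw [Finset.sum_mul]
    rw [e1, E_sum, Finset.sum_congr rfl (fun i hi => E_pind_F f hi z)]
    have e2 : E U z (pc f U) = ∑ i ∈ U, w f U z i := by
      unfold w pc
      exact E_sum U z U (fun i => pind f i)
    rw [e2, Finset.sum_div]
  set m := mu f U z with hm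
  have h2 : E U z (pc f U) = E U z (fun x => 2 * (pc f U x * ((1 - m) * F f x + m * (1 - F f x)))) := by
    have : (fun x => 2 * (pc f U x * ((1 - m) * F f x + m * (1 - F f x))))
        = fun x => (2 * (1 - 2 * m)) * (pc f U x * F f x) + (2 * m) * pc f U x := by
      funext x; ring
    rw [this, E_add, E_mul_left, E_mul_left, h1]
    ring
  have h3 : ∀ x, 2 * (pc f U x * ((1 - m) * F f x + m * (1 - F f x)))
      ≤ lam * (cc C U x)^2 + (1/lam) * ((1 - m)^2 * F f x + m^2 * (1 - F f x)) := by
    intro x
    have e1 : ((1 - m) * F f x + m * (1 - F f x))^2 = (1 - m)^2 * F f x + m^2 * (1 - F f x) := by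
      unfold F; split_ifs <;> ring
    rw [← e1]
    set b := (1 - m) * F f x + m * (1 - F f x)
    have e2 : (pc f U x)^2 ≤ (cc C U x)^2 :=
      pow_le_pow_left₀ (pc_nonneg f U x) (h.pc_le U x) 2
    have e3 : 2 * (pc f U x * b) ≤ lam * (pc f U x)^2 + (1/lam) * b^2 := by
      have : 0 ≤ (1/lam) * (lam * pc f U x - b)^2 := by positivity
      have e4 : (1/lam) * (lam * pc f U x - b)^2 = lam * (pc f U x)^2 + (1/lam) * b^2 - 2 * (pc f U x * b) := by
        field_simp
        ring
      linarith
    nlinarith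
  rw [h2]
  refine le_trans (E_le U z h3) ?_
  apply le_of_eq
  have h4 : (fun x => lam * (cc C U x)^2 + (1/lam) * ((1 - m)^2 * F f x + m^2 * (1 - F f x)))
      = fun x => lam * (cc C U x)^2 + ((1/lam) * ((1-m)^2 - m^2) * F f x + (1/lam) * m^2) := by
    funext x; ring
  rw [h4, E_add, E_mul_left, E_add, E_mul_left, E_const]
  have : E U z (F f) = m := rfl
  rw [this]
  unfold V
  rw [← hm]
  ring

end main

section star
variable {n : ℕ} {f : (Fin n → Bool) → Bool} {C : (Fin n → Bool) → Finset (Fin n)}

lemma F_nonneg (x : Fin n → Bool) : 0 ≤ F f x := by unfold F; split_ifs <;> norm_num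
lemma F_le_one (x : Fin n → Bool) : F f x ≤ 1 := by unfold F; split_ifs <;> norm_num

lemma mu_nonneg (U : Finset (Fin n)) (z : Fin n → Bool) : 0 ≤ mu f U z := by
  have := E_le U z (g := fun _ => 0) (h := F f) (fun x => F_nonneg x)
  rw [E_const] at this
  exact this

lemma mu_le_one (U : Finset (Fin n)) (z : Fin n → Bool) : mu f U z ≤ 1 := by
  have := E_le U z (g := F f) (h := fun _ => 1) (fun x => F_le_one x)
  rw [E_const] at this
  exact this

lemma V_nonneg (U : Finset (Fin n)) (z : Fin n → Bool) : 0 ≤ V f U z := by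
  have h1 := mu_nonneg (f := f) U z
  have h2 := mu_le_one (f := f) U z
  unfold V
  nlinarith

lemma V_le_quarter (U : Finset (Fin n)) (z : Fin n → Bool) : V f U z ≤ 1/4 := by
  unfold V
  nlinarith [sq_nonneg (mu f U z - 1/2)]

lemma step (hf : Monotone f) {U R : Finset (Fin n)} (hR : R ⊆ U) (z : Fin n → Bool)
    (a b c d : ℝ) (hd : 0 ≤ d) (g1 g2 g3 : (Fin n → Bool) → ℝ)
    (H : ∀ y, a * E (U \ R) (mrg U y z) g1 ≤ b * E (U \ R) (mrg U y z) g2
      + c * E (U \ R) (mrg U y z) g3 + d * V f (U \ R) (mrg U y z)) :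
    a * E U z g1 ≤ b * E U z g2 + c * E U z g3 + d * (V f U z - (1/4) * ∑ i ∈ R, (w f U z i)^2) := by
  have h1 := avg_le H
  rw [avg_add, avg_add, avg_mul_left, avg_mul_left, avg_mul_left, avg_mul_left,
    E_tower hR, E_tower hR, E_tower hR] at h1
  have h2 := mul_le_mul_of_nonneg_left (var_drop f hf hR z) hd
  linarith

lemma two_pow_ge (J : ℕ) : (0:ℝ) ≤ (2:ℝ)^J - 1 - J := by
  have : (J:ℝ) + 1 ≤ (2:ℝ)^J := by
    have h : J + 1 ≤ 2 ^ J := Nat.lt_two_pow_self
    exact_mod_cast h
  linarith

theorem star (hf : Monotone f) (h : IsCert f C) {r : ℝ} (hr : 0 < r) :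
    ∀ J : ℕ, ∀ m : ℕ, ∀ U : Finset (Fin n), U.card = m → ∀ (z : Fin n → Bool) (lam : ℝ), 0 < lam →
      (J:ℝ) * E U z (pc f U) ≤ ((J:ℝ) * (r/2) + lam * ((2:ℝ)^J - 1 - J)) * E U z (cc C U)
        + (lam * J) * E U z (fun x => (cc C U x)^2) + (8/(lam * r^2)) * V f U z := by
  intro J
  induction J with
  | zero =>
    intro m U _ z lam hl
    have h1 := V_nonneg (f := f) U z
    have h2 : 0 ≤ (8/(lam * r^2)) * V f U z := by positivity
    simp
    linarith
  | succ J ih =>
    intro m
    induction m using Nat.strong_induction_on with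
    | _ m ihm =>
    intro U hU z lam hl
    by_cases hcase : ∃ i ∈ U, w f U z i < (r/2) * cw C U z i
    · obtain ⟨i, hi, hwi⟩ := hcase
      have hR : ({i} : Finset (Fin n)) ⊆ U := by simpa using hi
      have hcard : (U \ {i}).card < m := by
        rw [← hU]
        apply Finset.card_lt_card
        rw [Finset.ssubset_iff_of_subset Finset.sdiff_subset]
        exact ⟨i, hi, by simp⟩
      have hstep := step hf hR z _ _ _ _ (by positivity) (pc f (U \ {i})) (cc C (U \ {i}))
        (fun x => (cc C (U \ {i}) x)^2) (fun y => ihm _ hcard (U \ {i}) rfl (mrg U y z) lam hl)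
      have e1 : E U z (pc f (U \ {i})) = E U z (pc f U) - w f U z i := by
        have : pc f (U \ {i}) = fun x => pc f U x - pind f i x := by
          funext x
          unfold pc
          have := Finset.sum_sdiff (f := fun j => pind f j x) hR
          rw [Finset.sum_singleton] at this
          linarith
        rw [this, E_sub]; rfl
      have e2' : ∀ x, cc C (U \ {i}) x = cc C U x - cind C i x := by
        intro x
        unfold cc
        have := Finset.sum_sdiff (f := fun j => cind C j x) hR
        rw [Finset.sum_singleton] at this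
        linarith
      have e2 : E U z (cc C (U \ {i})) = E U z (cc C U) - cw C U z i := by
        have : cc C (U \ {i}) = fun x => cc C U x - cind C i x := by
          funext x; exact e2' x
        rw [this, E_sub]; rfl
      have e3 : E U z (fun x => (cc C (U \ {i}) x)^2) ≤ E U z (fun x => (cc C U x)^2) := by
        apply E_le
        intro x
        apply pow_le_pow_left₀ (cc_nonneg C _ x)
        rw [e2' x]
        linarith [cind_nonneg C i x]
      have hc0 : 0 ≤ cw C U z i := by
        have := E_le U z (g := fun _ => 0) (h := cind C i) (fun x => cind_nonneg C i x)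
        rw [E_const] at this
        exact this
      have h2p := two_pow_ge (J+1)
      rw [e1, e2] at hstep
      have hs : 0 ≤ (1/4) * ∑ j ∈ ({i} : Finset (Fin n)), (w f U z j)^2 := by positivity
      have hd : 0 ≤ 8/(lam * r^2) := by positivity
      have k1 : (8/(lam * r^2)) * (V f U z - (1/4) * ∑ j ∈ ({i} : Finset (Fin n)), (w f U z j)^2)
          ≤ (8/(lam * r^2)) * V f U z := by
        apply mul_le_mul_of_nonneg_left _ hd
        linarith
      have k2 : (lam * ((J+1:ℕ):ℝ)) * E U z (fun x => (cc C (U \ {i}) x)^2)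
          ≤ (lam * ((J+1:ℕ):ℝ)) * E U z (fun x => (cc C U x)^2) :=
        mul_le_mul_of_nonneg_left e3 (by positivity)
      have k3 : ((J+1:ℕ):ℝ) * w f U z i ≤ (((J+1:ℕ):ℝ) * (r/2) + lam * ((2:ℝ)^(J+1) - 1 - ((J+1:ℕ):ℝ))) * cw C U z i := by
        have q1 : ((J+1:ℕ):ℝ) * w f U z i ≤ ((J+1:ℕ):ℝ) * ((r/2) * cw C U z i) :=
          mul_le_mul_of_nonneg_left hwi.le (by positivity)
        have q2 : 0 ≤ lam * ((2:ℝ)^(J+1) - 1 - ((J+1:ℕ):ℝ)) * cw C U z i :=
          mul_nonneg (mul_nonneg hl.le h2p) hc0
        nlinarith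
      nlinarith
    · push Not at hcase
      -- good node
      set I := E U z (pc f U) with hI
      set P := E U z (cc C U) with hP
      set Q := E U z (fun x => (cc C U x)^2) with hQ
      set W := ∑ i ∈ U, (w f U z i)^2 with hW
      have hVW : V f U z ≤ W / r^2 := by
        refine le_trans (h.V_le U z) ?_
        rw [hW, Finset.mul_sum, Finset.sum_div]
        refine Finset.sum_le_sum (fun i hi => ?_)
        have hc0 : 0 ≤ cw C U z i := by
          have := E_le U z (g := fun _ => 0) (h := cind C i) (fun x => cind_nonneg C i x)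
          rw [E_const] at this
          exact this
        have h1 := hcase i hi
        rw [le_div_iff₀ (by positivity)]
        have h2 : ((r/2) * cw C U z i)^2 ≤ (w f U z i)^2 := pow_le_pow_left₀ (by positivity) h1 2
        nlinarith
      have hIle := h.I_le U z lam hl
      have havg : (J:ℝ) * (I / 2) ≤ ((J:ℝ) * (r/2) + (2 * lam) * ((2:ℝ)^J - 1 - J)) * (P / 2)
          + ((2 * lam) * J) * ((1/4) * (Q + P)) + (8/((2 * lam) * r^2)) * (V f U z - (1/8) * W) := by
        have H : ∀ y : Fin n → Bool, (J:ℝ) * E U z (pc f (U \ RS U y)) ≤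
            ((J:ℝ) * (r/2) + (2 * lam) * ((2:ℝ)^J - 1 - J)) * E U z (cc C (U \ RS U y))
            + ((2 * lam) * J) * E U z (fun x => (cc C (U \ RS U y) x)^2)
            + (8/((2 * lam) * r^2)) * (V f U z - (1/4) * ∑ i ∈ RS U y, (w f U z i)^2) := by
          intro y
          exact step hf (RS_sub U y) z _ _ _ _ (by positivity) (pc f (U \ RS U y)) (cc C (U \ RS U y))
            (fun x => (cc C (U \ RS U y) x)^2)
            (fun y' => ih _ (U \ RS U y) rfl (mrg U y' z) (2 * lam) (by positivity))
        have H2 := avg_le H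
        rw [avg_add, avg_add, avg_mul_left, avg_mul_left, avg_mul_left, avg_mul_left, avg_sub,
          avg_const, avg_mul_left, avg_sum_RS] at H2
        have a1 : avg (fun y => E U z (pc f (U \ RS U y))) = I / 2 := by
          have : avg (fun y => E U z (pc f (U \ RS U y))) = E U z (fun x => (1/2) * pc f U x) := by
            have := avg_E_comm U z (fun y x => pc f (U \ RS U y) x)
            refine this.trans ?_
            congr 1
            funext x
            exact avg_sum_sdiff_RS U (fun i => pind f i x)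
          rw [this, E_mul_left]; ring
        have a2 : avg (fun y => E U z (cc C (U \ RS U y))) = P / 2 := by
          have : avg (fun y => E U z (cc C (U \ RS U y))) = E U z (fun x => (1/2) * cc C U x) := by
            have := avg_E_comm U z (fun y x => cc C (U \ RS U y) x)
            refine this.trans ?_
            congr 1
            funext x
            exact avg_sum_sdiff_RS U (fun i => cind C i x)
          rw [this, E_mul_left]; ring
        have a3 : avg (fun y => E U z (fun x => (cc C (U \ RS U y) x)^2)) = (1/4) * (Q + P) := by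
          have : avg (fun y => E U z (fun x => (cc C (U \ RS U y) x)^2))
              = E U z (fun x => (1/4) * ((cc C U x)^2 + cc C U x)) := by
            have := avg_E_comm U z (fun y x => (cc C (U \ RS U y) x)^2)
            refine this.trans ?_
            congr 1
            funext x
            have h4 := avg_sq_sum_sdiff_RS U (fun i => cind C i x)
            have h5 : ∑ i ∈ U, (cind C i x)^2 = cc C U x :=
              Finset.sum_congr rfl (fun i _ => cind_sq C i x)
            rw [h5] at h4
            exact h4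
          rw [this, E_mul_left, E_add]
        rw [a1, a2, a3] at H2
        have a4 : (1/4) * ((1/2) * ∑ i ∈ U, (w f U z i)^2) = (1/8) * W := by rw [hW]; ring
        rw [a4] at H2
        exact H2
      have hd : (8/((2 * lam) * r^2)) = (1/2) * (8/(lam * r^2)) := by
        field_simp
      rw [hd] at havg
      set D := 8/(lam * r^2) with hD
      have hWD : (1/lam) * (W / r^2) = D * (W / 8) := by
        rw [hD]; field_simp
      have h5 : (1/lam) * V f U z ≤ D * (W/8) := by
        rw [← hWD]
        exact mul_le_mul_of_nonneg_left hVW (by positivity)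
      have hP0 : 0 ≤ P := by
        have := E_le U z (g := fun _ => 0) (h := cc C U) (fun x => cc_nonneg C U x)
        rw [E_const] at this
        exact this
      have hr2 : 0 ≤ (r/2) * P := by positivity
      rw [pow_succ]
      push_cast
      nlinarith

end star

section final
variable {n : ℕ} {f : (Fin n → Bool) → Bool}

lemma exists_cert (hf : Monotone f) (x : Fin n → Bool) :
    ∃ D : Finset (Fin n), (∀ i ∈ D, x i = f x) ∧ (∀ z : Fin n → Bool, (∀ i ∈ D, z i = f x) → f z = f x) ∧
      ∃ y : Fin n → Bool, D ⊆ Piv f y := by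
  classical
  set good : Finset (Finset (Fin n)) := Finset.univ.filter
    (fun D => (∀ i ∈ D, x i = f x) ∧ (∀ z : Fin n → Bool, (∀ i ∈ D, z i = f x) → f z = f x)) with hgood
  have hne : good.Nonempty := by
    refine ⟨Finset.univ.filter (fun i => x i = f x), ?_⟩
    rw [hgood, Finset.mem_filter]
    refine ⟨Finset.mem_univ _, ?_, ?_⟩
    · intro i hi
      simpa using hi
    · intro z hz
      have hz' : ∀ i, x i = f x → z i = f x := fun i hi => hz i (by simpa using hi)
      cases hfx : f x
      · rw [hfx] at hz'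
        have hle : z ≤ x := by
          intro i
          cases hxi : x i
          · rw [hz' i hxi]
          · exact Bool.le_true _
        have := hf hle
        rw [hfx] at this
        exact Bool.eq_false_of_le_false this
      · rw [hfx] at hz'
        have hle : x ≤ z := by
          intro i
          cases hxi : x i
          · exact Bool.false_le _
          · rw [hz' i hxi]
        have := hf hle
        rw [hfx] at this
        exact Bool.eq_true_of_true_le this
  obtain ⟨D, hD, hmin⟩ := Finset.exists_min_image good Finset.card hne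
  rw [hgood, Finset.mem_filter] at hD
  obtain ⟨-, hD1, hD2⟩ := hD
  refine ⟨D, hD1, hD2, fun i => if i ∈ D then f x else !(f x), ?_⟩
  intro i hi
  rw [mem_Piv]
  have hfy : f (fun i => if i ∈ D then f x else !(f x)) = f x := by
    apply hD2
    intro j hj
    simp [hj]
  rw [hfy]
  have hnot : ¬ ((∀ j ∈ D.erase i, x j = f x) ∧
      (∀ z : Fin n → Bool, (∀ j ∈ D.erase i, z j = f x) → f z = f x)) := by
    intro hcon
    have hmem : D.erase i ∈ good := by
      rw [hgood, Finset.mem_filter]
      exact ⟨Finset.mem_univ _, hcon⟩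
    have h1 := hmin _ hmem
    have h2 := Finset.card_erase_lt_of_mem hi
    omega
  rw [not_and] at hnot
  have h3 := hnot (fun j hj => hD1 j (Finset.mem_of_mem_erase hj))
  push Not at h3
  obtain ⟨z, hz1, hz2⟩ := h3
  intro hcon
  apply hz2
  have hflip : ∀ j, j ∉ D.erase i → flp i (fun i => if i ∈ D then f x else !(f x)) j = !(f x) := by
    intro j hj
    by_cases hji : j = i
    · subst hji
      rw [flp_same]; simp [hi]
    · rw [flp_ne hji]
      have : j ∉ D := fun h => hj (Finset.mem_erase.mpr ⟨hji, h⟩)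
      simp [this]
  cases hfx : f x
  · rw [hfx] at hcon hflip hz1
    have hle : z ≤ flp i (fun i => if i ∈ D then false else !false) := by
      intro j
      by_cases hj : j ∈ D.erase i
      · rw [hz1 j hj]; exact Bool.false_le _
      · rw [hflip j hj]; exact Bool.le_true _
    have := hf hle
    rw [hcon] at this
    exact Bool.eq_false_of_le_false this
  · rw [hfx] at hcon hflip hz1
    have hle : flp i (fun i => if i ∈ D then true else !true) ≤ z := by
      intro j
      by_cases hj : j ∈ D.erase i
      · rw [hz1 j hj]; exact Bool.le_true _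
      · rw [hflip j hj]; exact Bool.false_le _
    have := hf hle
    rw [hcon] at this
    exact Bool.eq_true_of_true_le this

lemma E_univ (z : Fin n → Bool) (h : (Fin n → Bool) → ℝ) : E Finset.univ z h = avg h := by
  unfold E mrg
  simp

lemma pc_univ (x : Fin n → Bool) : pc f Finset.univ x = ((Piv f x).card : ℝ) := by
  unfold pc pind
  rw [Finset.sum_ite_mem]
  simp

lemma cc_univ (C : (Fin n → Bool) → Finset (Fin n)) (x : Fin n → Bool) :
    cc C Finset.univ x = ((C x).card : ℝ) := by
  unfold cc cind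
  rw [Finset.sum_ite_mem]
  simp

end final

/-- For every ε>0 there is S such that every monotone Boolean function on {0,1}^n (any n) with maximum sensitivity at least S has total influence (average sensitivity) at most ε times its maximum sensitivity. -/
theorem result :
    ∀ ε : ℝ, 0 < ε → ∃ S : ℕ, ∀ n : ℕ, ∀ f : (Fin n → Bool) → Bool, Monotone f →
      S ≤ (Finset.univ.sup fun x : Fin n → Bool =>
            (Finset.univ.filter fun i : Fin n => f (Function.update x i (!(x i))) ≠ f x).card) →
      (∑ x : Fin n → Bool,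
          ((Finset.univ.filter fun i : Fin n => f (Function.update x i (!(x i))) ≠ f x).card : ℝ))
          / (2 : ℝ) ^ n
        ≤ ε * (((Finset.univ.sup fun x : Fin n → Bool =>
            (Finset.univ.filter fun i : Fin n => f (Function.update x i (!(x i))) ≠ f x).card) : ℕ) : ℝ) := by
  intro ε hε
  obtain ⟨J, hJ⟩ := exists_nat_ge (64/ε^4 + 1)
  refine ⟨2^J, ?_⟩
  intro n f hf hS
  set k : ℕ := (Finset.univ.sup fun x : Fin n → Bool =>
            (Finset.univ.filter fun i : Fin n => f (Function.update x i (!(x i))) ≠ f x).card) with hk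
  have hk2 : (2:ℝ)^J ≤ (k:ℝ) := by exact_mod_cast hS
  have hpow : (1:ℝ) ≤ (2:ℝ)^J := one_le_pow₀ (by norm_num)
  have hk1 : (1:ℝ) ≤ (k:ℝ) := le_trans hpow hk2
  have hk0 : (0:ℝ) < (k:ℝ) := by linarith
  have hJ1 : (1:ℝ) ≤ (J:ℝ) := by
    have : (0:ℝ) ≤ 64/ε^4 := by positivity
    linarith
  have hJ0 : (0:ℝ) < (J:ℝ) := by linarith
  choose C hC1 hC2 y hCy using exists_cert hf
  have hcert : IsCert f C := ⟨hC1, hC2⟩
  have hCk : ∀ x, ((C x).card : ℝ) ≤ (k:ℝ) := by
    intro x
    have h1 : (C x).card ≤ (Piv f (y x)).card := Finset.card_le_card (hCy x)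
    have h2 : (Piv f (y x)).card ≤ k :=
      Finset.le_sup (f := fun x : Fin n → Bool =>
            (Finset.univ.filter fun i : Fin n => f (Function.update x i (!(x i))) ≠ f x).card)
        (Finset.mem_univ (y x))
    exact_mod_cast h1.trans h2
  set z : Fin n → Bool := fun _ => false
  set lam : ℝ := ε / (8 * k) with hlam
  have hl : 0 < lam := by positivity
  have hstar := star hf hcert hε J _ Finset.univ rfl z lam hl
  rw [E_univ, E_univ, E_univ] at hstar
  have hgoal : (∑ x : Fin n → Bool,
          ((Finset.univ.filter fun i : Fin n => f (Function.update x i (!(x i))) ≠ f x).card : ℝ))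
          / (2 : ℝ) ^ n = avg (pc f Finset.univ) := by
    unfold avg
    congr 1
    refine Finset.sum_congr rfl (fun x _ => ?_)
    rw [pc_univ]
    rfl
  rw [hgoal]
  set I := avg (pc f Finset.univ)
  have hP : avg (cc C Finset.univ) ≤ (k:ℝ) := by
    have := avg_le (g := cc C Finset.univ) (h := fun _ => (k:ℝ)) (fun x => by rw [cc_univ]; exact hCk x)
    rwa [avg_const] at this
  have hP0 : 0 ≤ avg (cc C Finset.univ) := avg_nonneg (fun x => cc_nonneg C _ x)
  have hQ : avg (fun x => (cc C Finset.univ x)^2) ≤ (k:ℝ)^2 := by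
    have := avg_le (g := fun x => (cc C Finset.univ x)^2) (h := fun _ => (k:ℝ)^2) (fun x => by
      rw [cc_univ]; exact pow_le_pow_left₀ (by positivity) (hCk x) 2)
    rwa [avg_const] at this
  have hV := V_le_quarter (f := f) Finset.univ z
  have h2p := two_pow_ge J
  -- bounds of the four terms
  have t1 : ((J:ℝ) * (ε/2) + lam * ((2:ℝ)^J - 1 - J)) * avg (cc C Finset.univ)
      ≤ (J:ℝ) * (ε/2) * k + (ε/8) * k := by
    have q1 : ((J:ℝ) * (ε/2) + lam * ((2:ℝ)^J - 1 - J)) * avg (cc C Finset.univ)
        ≤ ((J:ℝ) * (ε/2) + lam * ((2:ℝ)^J - 1 - J)) * k :=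
      mul_le_mul_of_nonneg_left hP (by positivity)
    have q2 : lam * ((2:ℝ)^J - 1 - J) * k ≤ (ε/8) * k := by
      have q3 : lam * k = ε/8 := by rw [hlam]; field_simp
      have q4 : lam * ((2:ℝ)^J - 1 - J) * k = (ε/8) * ((2:ℝ)^J - 1 - J) := by
        rw [← q3]; ring
      rw [q4]
      apply mul_le_mul_of_nonneg_left _ (by positivity)
      linarith
    nlinarith
  have t2 : (lam * J) * avg (fun x => (cc C Finset.univ x)^2) ≤ (J:ℝ) * (ε/8) * k := by
    have q1 : (lam * J) * avg (fun x => (cc C Finset.univ x)^2) ≤ (lam * J) * (k:ℝ)^2 :=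
      mul_le_mul_of_nonneg_left hQ (by positivity)
    have q2 : (lam * J) * (k:ℝ)^2 = (J:ℝ) * (ε/8) * k := by
      rw [hlam]; field_simp
    linarith
  have t3 : (8/(lam * ε^2)) * V f Finset.univ z ≤ (J:ℝ) * (ε/4) * k := by
    have q1 : (8/(lam * ε^2)) * V f Finset.univ z ≤ (8/(lam * ε^2)) * (1/4) :=
      mul_le_mul_of_nonneg_left hV (by positivity)
    have q2 : (8/(lam * ε^2)) * (1/4) = (64/ε^4) * ((ε/4) * k) := by
      rw [hlam]; field_simp; ring
    have q3 : (64/ε^4) * ((ε/4) * k) ≤ (J:ℝ) * ((ε/4) * k) := by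
      apply mul_le_mul_of_nonneg_right _ (by positivity)
      linarith
    calc (8/(lam * ε^2)) * V f Finset.univ z ≤ (J:ℝ) * ((ε/4) * k) := by linarith
      _ = (J:ℝ) * (ε/4) * k := by ring
  have t4 : (ε/8) * k ≤ (J:ℝ) * ((ε/8) * k) := by
    have : 0 ≤ (ε/8) * k := by positivity
    nlinarith
  have hfin : (J:ℝ) * I ≤ (J:ℝ) * (ε * k) := by
    have : (J:ℝ) * (ε * k) = (J:ℝ) * (ε/2) * k + (J:ℝ) * ((ε/8) * k) + (J:ℝ) * (ε/8) * k + (J:ℝ) * (ε/4) * k := by
      ring
    rw [this]
    linarith
  exact le_of_mul_le_mul_left hfin hJ0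

end Pool.Agent.S05391
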