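import Pool.Statements.S05395
import Pool.Agent.M4074.Final

set_option autoImplicit false
open Ne16c1d3e Ne16c1d3e.Ne9f539be
open Filter
open Pool Pool.MP_4074ca_co

namespace Pool.Agent.S05395

/-- limsup_{n→∞} M(n)/n^2 = 1/3 in ℝ, where M(n) = max over n-element finsets A ⊆ ℤ of #{(x,y)∈A×A : x≠y ∧ x+3(y−x)∈A} -/
theorem result :
    gamma = 1/3 := by
  exact Pool.Agent.M4074H.gamma_final

end Pool.Agent.S05395
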