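import Pool.Statements.S05403
-- import your own Pool.Agent.* helpers here

set_option autoImplicit false
open Pool Pool.MP_4150d6_co

namespace Pool.Agent.S05403

/-- The part of a vertex of the complete tripartite graph K(2,2,3). -/
def part : Fin 7 → Fin 3 := ![0, 0, 1, 1, 2, 2, 2]

/-- The complete tripartite graph K(2,2,3), with 7 vertices and 16 edges. -/
def K223 : SimpleGraph (Fin 7) where
  Adj a b := part a ≠ part b
  symm := ⟨fun _ _ h => h.symm⟩
  loopless := ⟨fun _ h => h rfl⟩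

instance : DecidableRel K223.Adj := fun a b => inferInstanceAs (Decidable (part a ≠ part b))

/-- The harmonious labeling of K(2,2,3) modulo 16. -/
def lab : Fin 7 → ZMod 16 := ![0, 1, 2, 9, 5, 11, 15]

theorem card_edges : Nat.card K223.edgeSet = 16 := by
  rw [Nat.card_eq_fintype_card]
  decide +kernel

theorem lab_inj : Function.Injective lab := by
  decide +kernel

theorem lab_sums : ∀ a b c d : Fin 7, K223.Adj a b → K223.Adj c d →
    lab a + lab b = lab c + lab d → s(a, b) = s(c, d) := by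
  decide +kernel

theorem not_tree : ¬ K223.IsTree := by
  intro h
  have h1 := h.card_edgeFinset
  have h2 : K223.edgeFinset.card = 16 := by decide +kernel
  rw [h2] at h1
  simp at h1

/-- The edges, as ordered pairs. -/
def E : Finset (Fin 7 × Fin 7) :=
  Finset.univ.filter (fun p => p.1 < p.2 ∧ K223.Adj p.1 p.2)

theorem card_E : E.card = 16 := by decide +kernel

theorem sum_E (P : Fin 7 → ℕ) : ∑ p ∈ E, P p.1 * P p.2 =
    (P 0 + P 1) * (P 2 + P 3) + (P 0 + P 1) * (P 4 + P 5 + P 6) +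
    (P 2 + P 3) * (P 4 + P 5 + P 6) := by
  have h : E = {(0,2),(0,3),(0,4),(0,5),(0,6),(1,2),(1,3),(1,4),(1,5),(1,6),(2,4),(2,5),(2,6),
      (3,4),(3,5),(3,6)} := by decide +kernel
  rw [h]
  simp
  ring

/-- Exactly three binary digits of `C` are one. -/
def pop3 (C : ℕ) : Bool :=
  let a := C &&& (C - 1)
  let b := a &&& (a - 1)
  !(Nat.beq b 0) && Nat.beq (b &&& (b - 1)) 0

/-- The quotient of 2 ^ m * 65535 - A * B by A + B is no sum of three distinct powers of 2. -/
def good (A B m : ℕ) : Bool :=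
  !(Nat.beq ((2 ^ m * 65535 - A * B) % (A + B)) 0 && pop3 ((2 ^ m * 65535 - A * B) / (A + B)))

theorem all_good : ((List.range 16).all fun w => (List.range w).all fun y =>
    (List.range y).all fun x => (List.range w).all fun z =>
    (List.range (x + z + 1)).all fun m =>
      Nat.ble (m + 16) (y + w) || good (2 ^ x + 2 ^ y) (2 ^ z + 2 ^ w) m) = true := by
  decide +kernel

theorem pop3_of : ∀ k < 16, ∀ j < k, ∀ i < j, pop3 (2 ^ i + 2 ^ j + 2 ^ k) = true := by
  decide +kernel

/-- The arithmetic core, with ordered labels. -/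
theorem core0 (x y z w i j k m : ℕ) (hxy : x < y) (hzw : z < w) (hyw : y < w) (hw : w < 16)
    (hij : i < j) (hjk : j < k) (hk : k < 16)
    (h1 : m ≤ x + z) (h2 : y + w < m + 16)
    (h : (2 ^ x + 2 ^ y) * (2 ^ z + 2 ^ w) + (2 ^ x + 2 ^ y) * (2 ^ i + 2 ^ j + 2 ^ k) +
      (2 ^ z + 2 ^ w) * (2 ^ i + 2 ^ j + 2 ^ k) = 2 ^ m * 65535) : False := by
  have hg := all_good
  rw [List.all_eq_true] at hg
  have hg1 := hg w (List.mem_range.mpr hw)
  rw [List.all_eq_true] at hg1
  have hg2 := hg1 y (List.mem_range.mpr hyw)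
  rw [List.all_eq_true] at hg2
  have hg3 := hg2 x (List.mem_range.mpr hxy)
  rw [List.all_eq_true] at hg3
  have hg4 := hg3 z (List.mem_range.mpr hzw)
  rw [List.all_eq_true] at hg4
  have hg5 := hg4 m (List.mem_range.mpr (by omega))
  have hb : Nat.ble (m + 16) (y + w) = false := by
    rw [← Bool.not_eq_true, Nat.ble_eq]
    omega
  rw [hb, Bool.false_or] at hg5
  have hp := pop3_of k hk j hjk i hij
  unfold good at hg5
  have hpos : 0 < 2 ^ x + 2 ^ y := by positivity
  generalize 2 ^ x + 2 ^ y = A at *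
  generalize 2 ^ z + 2 ^ w = B at *
  generalize 2 ^ i + 2 ^ j + 2 ^ k = C at *
  have hD : 2 ^ m * 65535 - A * B = (A + B) * C := by
    rw [← h, add_mul]
    omega
  rw [hD, Nat.mul_mod_right, Nat.mul_div_cancel_left _ (by omega), hp] at hg5
  simp at hg5

/-- The arithmetic core, with the last part unordered. -/
theorem core1 (x y z w i j k m : ℕ) (hxy : x < y) (hzw : z < w) (hyw : y < w) (hw : w < 16)
    (hij : i ≠ j) (hik : i ≠ k) (hjk : j ≠ k) (hi : i < 16) (hj : j < 16) (hk : k < 16)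
    (h1 : m ≤ x + z) (h2 : y + w < m + 16)
    (h : (2 ^ x + 2 ^ y) * (2 ^ z + 2 ^ w) + (2 ^ x + 2 ^ y) * (2 ^ i + 2 ^ j + 2 ^ k) +
      (2 ^ z + 2 ^ w) * (2 ^ i + 2 ^ j + 2 ^ k) = 2 ^ m * 65535) : False := by
  rcases lt_or_gt_of_ne hij with a | a <;> rcases lt_or_gt_of_ne hik with b | b <;>
    rcases lt_or_gt_of_ne hjk with c | c
  · exact core0 x y z w i j k m hxy hzw hyw hw a c hk h1 h2 (by linarith)
  · exact core0 x y z w i k j m hxy hzw hyw hw b c hj h1 h2 (by linarith)
  · omega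
  · exact core0 x y z w k i j m hxy hzw hyw hw b a hj h1 h2 (by linarith)
  · exact core0 x y z w j i k m hxy hzw hyw hw a b hk h1 h2 (by linarith)
  · omega
  · exact core0 x y z w j k i m hxy hzw hyw hw c b hi h1 h2 (by linarith)
  · exact core0 x y z w k j i m hxy hzw hyw hw c a hi h1 h2 (by linarith)

/-- The arithmetic core, with the first two parts ordered inside themselves. -/
theorem core2 (x y z w i j k m : ℕ) (hxy : x < y) (hzw : z < w) (hyw : y ≠ w) (hy : y < 16)
    (hw : w < 16)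
    (hij : i ≠ j) (hik : i ≠ k) (hjk : j ≠ k) (hi : i < 16) (hj : j < 16) (hk : k < 16)
    (h1 : m ≤ x + z) (h2 : y + w < m + 16)
    (h : (2 ^ x + 2 ^ y) * (2 ^ z + 2 ^ w) + (2 ^ x + 2 ^ y) * (2 ^ i + 2 ^ j + 2 ^ k) +
      (2 ^ z + 2 ^ w) * (2 ^ i + 2 ^ j + 2 ^ k) = 2 ^ m * 65535) : False := by
  rcases lt_or_gt_of_ne hyw with a | a
  · exact core1 x y z w i j k m hxy hzw a hw hij hik hjk hi hj hk h1 h2 h
  · exact core1 z w x y i j k m hzw hxy a hy hij hik hjk hi hj hk (by omega) (by omega)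
      (by linarith)

/-- The arithmetic core for unordered labels. -/
theorem core3 (x y z w i j k m : ℕ) (hxy : x ≠ y) (hzw : z ≠ w)
    (hxz : x ≠ z) (hxw : x ≠ w) (hyz : y ≠ z) (hyw : y ≠ w)
    (hx : x < 16) (hy : y < 16) (hz : z < 16) (hw : w < 16)
    (hij : i ≠ j) (hik : i ≠ k) (hjk : j ≠ k) (hi : i < 16) (hj : j < 16) (hk : k < 16)
    (h1 : m ≤ x + z) (h2 : m ≤ x + w) (h3 : m ≤ y + z) (h4 : m ≤ y + w)
    (g1 : x + z < m + 16) (g2 : x + w < m + 16) (g3 : y + z < m + 16) (g4 : y + w < m + 16)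
    (h : (2 ^ x + 2 ^ y) * (2 ^ z + 2 ^ w) + (2 ^ x + 2 ^ y) * (2 ^ i + 2 ^ j + 2 ^ k) +
      (2 ^ z + 2 ^ w) * (2 ^ i + 2 ^ j + 2 ^ k) = 2 ^ m * 65535) : False := by
  rcases lt_or_gt_of_ne hxy with a | a <;> rcases lt_or_gt_of_ne hzw with b | b
  · exact core2 x y z w i j k m a b hyw hy hw hij hik hjk hi hj hk h1 g4 h
  · exact core2 x y w z i j k m a b hyz hy hz hij hik hjk hi hj hk h2 g3 (by linarith)
  · exact core2 y x z w i j k m a b hxw hx hw hij hik hjk hi hj hk h3 g2 (by linarith)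
  · exact core2 y x w z i j k m a b hxz hx hz hij hik hjk hi hj hk h4 g1 (by linarith)

theorem not_seq (f : Fin 7 → ℕ) (m : ℕ) (hinj : Function.Injective f) (hlt : ∀ v, f v < 16)
    (hwin : ∀ a b : Fin 7, K223.Adj a b → m ≤ f a + f b ∧ f a + f b < m + 16)
    (hdis : ∀ a b c d : Fin 7, K223.Adj a b → K223.Adj c d →
      f a + f b = f c + f d → s(a, b) = s(c, d)) : False := by
  have hinjOn : Set.InjOn (fun p : Fin 7 × Fin 7 => f p.1 + f p.2) (E : Set (Fin 7 × Fin 7)) := by
    intro p hp r hr hpr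
    have hp' := (Finset.mem_filter.mp (Finset.mem_coe.mp hp)).2
    have hr' := (Finset.mem_filter.mp (Finset.mem_coe.mp hr)).2
    have := hdis _ _ _ _ hp'.2 hr'.2 hpr
    rw [Sym2.eq_iff] at this
    rcases this with ⟨h1, h2⟩ | ⟨h1, h2⟩
    · exact Prod.ext h1 h2
    · exfalso
      have := hp'.1
      rw [h1, h2] at this
      exact absurd this (not_lt.mpr hr'.1.le)
  have himg : E.image (fun p => f p.1 + f p.2) = Finset.Ico m (m + 16) := by
    apply Finset.eq_of_subset_of_card_le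
    · intro x hx
      rw [Finset.mem_image] at hx
      obtain ⟨p, hp, rfl⟩ := hx
      have hadj : K223.Adj p.1 p.2 := (Finset.mem_filter.mp hp).2.2
      exact Finset.mem_Ico.mpr (hwin _ _ hadj)
    · rw [Finset.card_image_of_injOn hinjOn, card_E]
      simp
  have hsum : ∑ p ∈ E, 2 ^ (f p.1) * 2 ^ (f p.2) = ∑ x ∈ Finset.Ico m (m + 16), 2 ^ x := by
    rw [← himg, Finset.sum_image hinjOn]
    apply Finset.sum_congr rfl
    intro p _
    rw [pow_add]
  have hgeom : ∑ x ∈ Finset.Ico m (m + 16), 2 ^ x = 2 ^ m * 65535 := by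
    rw [Finset.sum_Ico_eq_sum_range]
    simp only [Nat.add_sub_cancel_left, pow_add, ← Finset.mul_sum]
    congr 1
  rw [sum_E (fun v => 2 ^ f v), hgeom] at hsum
  have hne : ∀ a b : Fin 7, a ≠ b → f a ≠ f b := fun a b h => hinj.ne h
  have w02 := hwin 0 2 (by decide)
  have w03 := hwin 0 3 (by decide)
  have w12 := hwin 1 2 (by decide)
  have w13 := hwin 1 3 (by decide)
  exact core3 (f 0) (f 1) (f 2) (f 3) (f 4) (f 5) (f 6) m (hne _ _ (by decide))
    (hne _ _ (by decide)) (hne _ _ (by decide)) (hne _ _ (by decide)) (hne _ _ (by decide))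
    (hne _ _ (by decide)) (hlt _) (hlt _) (hlt _) (hlt _) (hne _ _ (by decide))
    (hne _ _ (by decide)) (hne _ _ (by decide)) (hlt _) (hlt _) (hlt _)
    w02.1 w03.1 w12.1 w13.1 w02.2 w03.2 w12.2 w13.2 hsum

/-- Some finite simple graph with q ≥ 1 edges is harmonious (vertex labels in Z_q, injective except one repeat allowed for trees, distinct edge sums mod q) but has no sequential labeling (injective labels in 0..q−1, or 0..q for trees, with edge sums exactly q consecutive integers). -/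
theorem result :
    ∃ (n : ℕ) (G : SimpleGraph (Fin n)) (q : ℕ),
      Nat.card G.edgeSet = q ∧ 1 ≤ q ∧
      (∃ f : Fin n → ZMod q,
        (Function.Injective f ∨ (G.IsTree ∧ Function.Surjective f)) ∧
        ∀ a b c d : Fin n, G.Adj a b → G.Adj c d →
          f a + f b = f c + f d → s(a, b) = s(c, d)) ∧
      ¬ (∃ (f : Fin n → ℕ) (m : ℕ),
          Function.Injective f ∧
          ((∀ v, f v < q) ∨ (G.IsTree ∧ ∀ v, f v ≤ q)) ∧
          (∀ a b : Fin n, G.Adj a b → m ≤ f a + f b ∧ f a + f b < m + q) ∧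
          ∀ a b c d : Fin n, G.Adj a b → G.Adj c d →
            f a + f b = f c + f d → s(a, b) = s(c, d)) := by
  refine ⟨7, K223, 16, card_edges, by norm_num, ⟨lab, Or.inl lab_inj, lab_sums⟩, ?_⟩
  rintro ⟨f, m, hinj, hlt | ⟨htree, _⟩, hwin, hdis⟩
  · exact not_seq f m hinj hlt hwin hdis
  · exact not_tree htree

end Pool.Agent.S05403
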