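import Pool.Statements.S05413
import Pool.Agent.Helper778.Real

set_option autoImplicit false
open Pool Pool.MP_417dd2_co

namespace Pool.Agent.S05413

/-- There is some n and a reducible n×n zero-nonzero or sign pattern with fewer than 2n nonzero entries such that every monic real polynomial of degree n is the characteristic polynomial of some real matrix with that pattern. -/
theorem result :
    ∃ n : ℕ,
      (∃ Z : Matrix (Fin n) (Fin n) Bool,
        (∃ T : Finset (Fin n), T.Nonempty ∧ T ≠ Finset.univ ∧
            ∀ i, i ∉ T → ∀ j, j ∈ T → Z i j = false) ∧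
        (Finset.univ.filter (fun q : Fin n × Fin n => Z q.1 q.2 = true)).card < 2 * n ∧
        ∀ p : Polynomial ℝ, p.Monic → p.natDegree = n →
          ∃ A : Matrix (Fin n) (Fin n) ℝ,
            (∀ i j, (A i j ≠ 0 ↔ Z i j = true)) ∧ A.charpoly = p) ∨
      (∃ S : Matrix (Fin n) (Fin n) SignType,
        (∃ T : Finset (Fin n), T.Nonempty ∧ T ≠ Finset.univ ∧
            ∀ i, i ∉ T → ∀ j, j ∈ T → S i j = 0) ∧
        (Finset.univ.filter (fun q : Fin n × Fin n => S q.1 q.2 ≠ 0)).card < 2 * n ∧
        ∀ p : Polynomial ℝ, p.Monic → p.natDegree = n →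
          ∃ A : Matrix (Fin n) (Fin n) ℝ,
            (∀ i j, SignType.sign (A i j) = S i j) ∧ A.charpoly = p) := by
  refine ⟨16, Or.inl ⟨Helper778.Real.Z16, ⟨Finset.univ.filter (fun i : Fin 16 => i.val < 6),
    ?_, ?_, ?_⟩, ?_, ?_⟩⟩
  · exact ⟨0, by decide⟩
  · intro h
    have : (15 : Fin 16) ∈ Finset.univ.filter (fun i : Fin 16 => i.val < 6) := by
      rw [h]; exact Finset.mem_univ _
    revert this
    decide
  · decide +kernel
  · rw [Helper778.Real.card_Z16]
    norm_num
  · exact Helper778.Real.Z16_arbitrary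

end Pool.Agent.S05413
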