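import Pool.Statements.S05420

set_option autoImplicit false
open Pool Pool.MP_41ddaf_co

namespace Pool.Agent.S05420

open Set Filter Topology

abbrev E := EuclideanSpace ℝ (Fin 3)

/-! ### Isometries and convex hulls -/

lemma isom_convexHull (φ : E ≃ᵢ E) (s : Set E) :
    φ '' convexHull ℝ s = convexHull ℝ (φ '' s) := by
  have h := AffineMap.image_convexHull (φ.toRealAffineIsometryEquiv.toAffineEquiv.toAffineMap) s
  simpa using h

lemma isom_openSegment (φ : E ≃ᵢ E) (x y : E) :
    φ '' openSegment ℝ x y = openSegment ℝ (φ x) (φ y) := by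
  have h := image_openSegment ℝ (φ.toRealAffineIsometryEquiv.toAffineEquiv.toAffineMap) x y
  simpa using h

lemma isom_extreme (φ : E ≃ᵢ E) {P : Set E} (hP : φ '' P = P) {x : E}
    (hx : x ∈ P.extremePoints ℝ) : φ x ∈ P.extremePoints ℝ := by
  rw [mem_extremePoints] at hx ⊢
  refine ⟨hP ▸ mem_image_of_mem φ hx.1, ?_⟩
  intro y1 hy1 y2 hy2 hseg
  obtain ⟨x1, hx1, rfl⟩ : y1 ∈ φ '' P := hP.symm ▸ hy1
  obtain ⟨x2, hx2, rfl⟩ : y2 ∈ φ '' P := hP.symm ▸ hy2
  rw [← isom_openSegment] at hseg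
  obtain ⟨z, hz, hzx⟩ := hseg
  have : z = x := φ.injective hzx
  subst this
  obtain ⟨h1, h2⟩ := hx.2 x1 hx1 x2 hx2 hz
  exact ⟨by rw [h1], by rw [h2]⟩

/-- Two triangles with equal corresponding sides are related by an isometry of the space. -/
lemma exists_isom {a b c a' b' c' : E} (hab : ‖b - a‖ = ‖b' - a'‖) (hac : ‖c - a‖ = ‖c' - a'‖)
    (hbc : ‖b - c‖ = ‖b' - c'‖) : ∃ φ : E ≃ᵢ E, φ a = a' ∧ φ b = b' ∧ φ c = c' := by
  set u := b - a
  set v := c - a
  set u' := b' - a'
  set v' := c' - a'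
  set R1 : E ≃ₗᵢ[ℝ] E := (ℝ ∙ (u - u'))ᗮ.reflection with hR1
  have h1 : R1 u = u' := Submodule.reflection_sub hab
  set R2 : E ≃ₗᵢ[ℝ] E := (ℝ ∙ (R1 v - v'))ᗮ.reflection with hR2
  have hv1 : ‖R1 v‖ = ‖v'‖ := by rw [LinearIsometryEquiv.norm_map]; exact hac
  have h2 : R2 (R1 v) = v' := Submodule.reflection_sub hv1
  have hbc' : ‖u - v‖ = ‖u' - v'‖ := by
    have e1 : u - v = b - c := by simp only [u, v]; abel
    have e2 : u' - v' = b' - c' := by simp only [u', v']; abel
    rw [e1, e2]; exact hbc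
  have hin : inner ℝ u' (R1 v) = inner ℝ u' v' := by
    have e1 : inner ℝ u' (R1 v) = inner ℝ u v := by
      rw [← h1, LinearIsometryEquiv.inner_map_map]
    have e2 := norm_sub_sq_real u v
    have e3 := norm_sub_sq_real u' v'
    rw [hbc', hab, hac] at e2
    rw [e1]; linarith
  have h3 : R2 u' = u' := by
    rw [hR2, Submodule.reflection_eq_self_iff, Submodule.mem_orthogonal_singleton_iff_inner_left,
      inner_sub_right, hin, sub_self]
  refine ⟨(IsometryEquiv.subRight a).trans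
    ((R1.trans R2).toIsometryEquiv.trans (IsometryEquiv.addRight a')), ?_, ?_, ?_⟩
  · simp
  · simp only [IsometryEquiv.trans_apply, IsometryEquiv.subRight_apply,
      LinearIsometryEquiv.coe_toIsometryEquiv, LinearIsometryEquiv.trans_apply,
      IsometryEquiv.addRight_apply]
    change R2 (R1 u) + a' = b'
    rw [h1, h3]; simp [u']
  · simp only [IsometryEquiv.trans_apply, IsometryEquiv.subRight_apply,
      LinearIsometryEquiv.coe_toIsometryEquiv, LinearIsometryEquiv.trans_apply,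
      IsometryEquiv.addRight_apply]
    change R2 (R1 v) + a' = c'
    rw [h2]; simp [v']

/-! ### Determinants -/

/-- The determinant of three vectors. -/
def det3 (u v w : E) : ℝ :=
  u 0 * (v 1 * w 2 - v 2 * w 1) - u 1 * (v 0 * w 2 - v 2 * w 0) + u 2 * (v 0 * w 1 - v 1 * w 0)

lemma lin_expand (l : E →L[ℝ] ℝ) (x : E) :
    l x = l (EuclideanSpace.single 0 1) * x 0 + l (EuclideanSpace.single 1 1) * x 1
      + l (EuclideanSpace.single 2 1) * x 2 := by
  have hx : x = x 0 • EuclideanSpace.single (0 : Fin 3) (1 : ℝ)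
      + x 1 • EuclideanSpace.single (1 : Fin 3) (1 : ℝ)
      + x 2 • EuclideanSpace.single (2 : Fin 3) (1 : ℝ) := by
    ext i; fin_cases i <;> simp
  conv_lhs => rw [hx]
  simp only [map_add, map_smul, smul_eq_mul]
  ring

/-- If a functional vanishes on `u`, `v` then it is proportional to `det3 u v`. -/
lemma det3_prop (l : E →L[ℝ] ℝ) {u v : E} (hu : l u = 0) (hv : l v = 0) (x y : E) :
    det3 u v y * l x = det3 u v x * l y := by
  rw [lin_expand] at hu hv
  rw [lin_expand l x, lin_expand l y]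
  unfold det3
  linear_combination
    (-(v 0 * (x 1 * y 2 - x 2 * y 1) - v 1 * (x 0 * y 2 - x 2 * y 0)
      + v 2 * (x 0 * y 1 - x 1 * y 0))) * hu +
    (u 0 * (x 1 * y 2 - x 2 * y 1) - u 1 * (x 0 * y 2 - x 2 * y 0)
      + u 2 * (x 0 * y 1 - x 1 * y 0)) * hv

/-- A functional vanishing on three independent vectors is zero. -/
lemma det3_zero (l : E →L[ℝ] ℝ) {u v w : E} (hd : det3 u v w ≠ 0) (hu : l u = 0) (hv : l v = 0)
    (hw : l w = 0) : l = 0 := by
  ext x
  have h := det3_prop l hu hv x w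
  rw [hw, mul_zero] at h
  simpa [hd] using h

/-! ### Arithmetic in `ℤ[√6]` -/

/-- Evaluation of an element of `ℤ[√6]`. -/
noncomputable def ev : ℤ√6 →+* ℝ := Zsqrtd.toReal (by norm_num)

lemma ev_apply (z : ℤ√6) : ev z = z.re + z.im * Real.sqrt 6 := by
  simp [ev, Zsqrtd.toReal]

/-- A sufficient test for positivity of an element of `ℤ[√6]`. -/
def Pos (z : ℤ√6) : Prop := 0 < 1000 * z.re + 2449 * z.im ∧ 0 < 1000 * z.re + 2450 * z.im

instance (z : ℤ√6) : Decidable (Pos z) := by unfold Pos; infer_instance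

lemma pos_ev {z : ℤ√6} (h : Pos z) : 0 < ev z := by
  rw [ev_apply]
  obtain ⟨h1, h2⟩ := h
  have h1' : (0 : ℝ) < 1000 * z.re + 2449 * z.im := by exact_mod_cast h1
  have h2' : (0 : ℝ) < 1000 * z.re + 2450 * z.im := by exact_mod_cast h2
  have s1 : (2.449 : ℝ) ≤ Real.sqrt 6 := Real.le_sqrt_of_sq_le (by norm_num)
  have s2 : Real.sqrt 6 ≤ 2.45 := Real.sqrt_le_iff.2 ⟨by norm_num, by norm_num⟩
  rcases le_total 0 (z.im : ℝ) with h | h
  · nlinarith
  · nlinarith

/-- Coordinates of the nine base points (up to the factors `1, √3, √3`). -/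
def zX : Fin 9 → ℤ√6 :=
  ![⟨4, 0⟩, ⟨-2, 0⟩, ⟨-2, 0⟩, ⟨4, 0⟩, ⟨-2, 0⟩, ⟨-2, 0⟩, ⟨1, 1⟩, ⟨-2, -2⟩, ⟨1, 1⟩]
def zY : Fin 9 → ℤ√6 :=
  ![⟨0, 0⟩, ⟨2, 0⟩, ⟨-2, 0⟩, ⟨0, 0⟩, ⟨2, 0⟩, ⟨-2, 0⟩, ⟨1, 1⟩, ⟨0, 0⟩, ⟨-1, -1⟩]
def zZ : Fin 9 → ℤ√6 :=
  ![⟨2, 0⟩, ⟨2, 0⟩, ⟨2, 0⟩, ⟨-2, 0⟩, ⟨-2, 0⟩, ⟨-2, 0⟩, ⟨0, 0⟩, ⟨0, 0⟩, ⟨0, 0⟩]

/-- The nine base points: a triaugmented triangular prism with squared edge length `48`. -/
noncomputable def base (i : Fin 9) : E :=
  !₂[ev (zX i), Real.sqrt 3 * ev (zY i), Real.sqrt 3 * ev (zZ i)]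

/-- Orientation of four of the points, for a configuration `p`. -/
def ori (p : Fin 9 → E) (i j k m : Fin 9) : ℝ := det3 (p j - p i) (p k - p i) (p m - p i)

def oriZ (i j k m : Fin 9) : ℤ√6 :=
  (zX j - zX i) * ((zY k - zY i) * (zZ m - zZ i) - (zZ k - zZ i) * (zY m - zY i))
  - (zY j - zY i) * ((zX k - zX i) * (zZ m - zZ i) - (zZ k - zZ i) * (zX m - zX i))
  + (zZ j - zZ i) * ((zX k - zX i) * (zY m - zY i) - (zY k - zY i) * (zX m - zX i))

lemma ori_base (i j k m : Fin 9) : ori base i j k m = 3 * ev (oriZ i j k m) := by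
  have h3 : Real.sqrt 3 * Real.sqrt 3 = 3 := Real.mul_self_sqrt (by norm_num)
  simp only [ori, det3, oriZ, base, PiLp.sub_apply, map_sub, map_add, map_mul]
  simp only [Matrix.cons_val_zero, Matrix.cons_val_one, Matrix.cons_val]
  linear_combination ((ev (zX j) - ev (zX i)) * ((ev (zY k) - ev (zY i)) *
    (ev (zZ m) - ev (zZ i)) - (ev (zZ k) - ev (zZ i)) * (ev (zY m) - ev (zY i)))
    - (ev (zY j) - ev (zY i)) * ((ev (zX k) - ev (zX i)) * (ev (zZ m) - ev (zZ i))
      - (ev (zZ k) - ev (zZ i)) * (ev (zX m) - ev (zX i)))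
    + (ev (zZ j) - ev (zZ i)) * ((ev (zX k) - ev (zX i)) * (ev (zY m) - ev (zY i))
      - (ev (zY k) - ev (zY i)) * (ev (zX m) - ev (zX i)))) * h3

/-- Squared distances between base points. -/
def dsqZ (i j : Fin 9) : ℤ√6 :=
  (zX i - zX j) ^ 2 + 3 * (zY i - zY j) ^ 2 + 3 * (zZ i - zZ j) ^ 2

lemma dsq_base (i j : Fin 9) : ‖base i - base j‖ ^ 2 = ev (dsqZ i j) := by
  have h3 : Real.sqrt 3 ^ 2 = 3 := Real.sq_sqrt (by norm_num)
  rw [EuclideanSpace.norm_sq_eq, Fin.sum_univ_three]
  simp only [base, PiLp.sub_apply, dsqZ, map_add, map_mul, map_pow, map_sub, map_ofNat]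
  simp only [Matrix.cons_val_zero, Matrix.cons_val_one, Matrix.cons_val,
    Real.norm_eq_abs, sq_abs]
  linear_combination ((ev (zY i) - ev (zY j)) ^ 2 + (ev (zZ i) - ev (zZ j)) ^ 2) * h3

/-- Inner products of base points. -/
def innZ (i j : Fin 9) : ℤ√6 := zX i * zX j + 3 * zY i * zY j + 3 * zZ i * zZ j

lemma inn_base (i j : Fin 9) : inner ℝ (base i) (base j) = ev (innZ i j) := by
  have h3 : Real.sqrt 3 ^ 2 = 3 := Real.sq_sqrt (by norm_num)
  rw [PiLp.inner_apply, Fin.sum_univ_three]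
  simp only [base, innZ, map_add, map_mul, map_ofNat]
  simp only [Matrix.cons_val_zero, Matrix.cons_val_one, Matrix.cons_val,
    RCLike.inner_apply, conj_trivial]
  linear_combination (ev (zY i) * ev (zY j) + ev (zZ i) * ev (zZ j)) * h3

/-! ### The combinatorial data -/

/-- Labelled edges: `0` means not an edge; the labels are `1`, `2`, `5`. -/
def W : Fin 9 → Fin 9 → ℤ :=
  ![![0, 1, 2, 1, 0, 0, 5, 0, 5],
    ![1, 0, 5, 0, 5, 0, 2, 2, 0],
    ![2, 5, 0, 0, 0, 2, 0, 1, 1],
    ![1, 0, 0, 0, 5, 1, 2, 0, 2],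
    ![0, 5, 0, 5, 0, 2, 1, 1, 0],
    ![0, 0, 2, 1, 2, 0, 0, 5, 5],
    ![5, 2, 0, 2, 1, 0, 0, 0, 0],
    ![0, 2, 1, 0, 1, 5, 0, 0, 0],
    ![5, 0, 1, 2, 0, 5, 0, 0, 0]]

lemma W_edge : ∀ i j, W i j ≠ 0 → dsqZ i j = ⟨48, 0⟩ := by decide +kernel

lemma W_nonedge : ∀ i j, i ≠ j → W i j = 0 → Pos (dsqZ i j - ⟨72, 0⟩) := by decide +kernel

lemma W_symm : ∀ i j, W i j = W j i := by decide +kernel

lemma nonface_data : ∀ i j k, i ≠ j → i ≠ k → j ≠ k → (W i j = 0 ∨ W i k = 0 ∨ W j k = 0) →
    ∃ m n, Pos (oriZ i j k m) ∧ Pos (-oriZ i j k n) := by decide +kernel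

lemma face_data : ∀ i j k, W i j ≠ 0 → W i k ≠ 0 → W j k ≠ 0 → ∀ m, m ≠ i → m ≠ j → m ≠ k →
    Pos (oriZ i j k m) ∨ Pos (-oriZ i j k m) := by decide +kernel

lemma face_labels : ∀ i j k, W i j ≠ 0 → W i k ≠ 0 → W j k ≠ 0 →
    ∃ a b c, W a b = 1 ∧ W a c = 2 ∧ W b c = 5 ∧ ({a, b, c} : Finset (Fin 9)) = {i, j, k} := by
  decide +kernel

lemma W_diag : ∀ i, W i i = 0 := by decide +kernel

lemma W_le : ∀ i j, W i j ≤ 5 := by decide +kernel

lemma W_nonneg : ∀ i j, 0 ≤ W i j := by decide +kernel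

lemma ext_data : ∀ i j, i ≠ j → Pos (innZ i i - innZ i j) := by decide +kernel

/-- Twofold iterated weighted degree, which separates the nine vertices. -/
def inv1 (i : Fin 9) : ℤ := ∑ j, W i j
def inv2 (i : Fin 9) : ℤ := ∑ j, W i j * inv1 j

lemma inv2_injective : ∀ i j, inv2 i = inv2 j → i = j := by decide +kernel

/-- The labelled graph has no nontrivial automorphism. -/
lemma aut_trivial (σ : Fin 9 → Fin 9) (hσ : Function.Bijective σ)
    (h : ∀ i j, W (σ i) (σ j) = W i j) : ∀ i, σ i = i := by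
  set e : Fin 9 ≃ Fin 9 := Equiv.ofBijective σ hσ
  have he : ∀ i, e i = σ i := fun i => rfl
  have h1 : ∀ i, inv1 (σ i) = inv1 i := by
    intro i
    unfold inv1
    rw [← Equiv.sum_comp e]
    exact Finset.sum_congr rfl fun j _ => by rw [he, h]
  have h2 : ∀ i, inv2 (σ i) = inv2 i := by
    intro i
    unfold inv2
    rw [← Equiv.sum_comp e]
    exact Finset.sum_congr rfl fun j _ => by rw [he, h, h1]
  exact fun i => inv2_injective _ _ (h2 i)

/-! ### Good configurations -/

structure Good (p : Fin 9 → E) (δ : ℝ) : Prop where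
  pos : 0 < δ
  lt : δ < 1
  edge : ∀ i j, W i j ≠ 0 → ‖p i - p j‖ ^ 2 = 48 + δ * W i j
  nonedge : ∀ i j, i ≠ j → W i j = 0 → 72 < ‖p i - p j‖ ^ 2
  opos : ∀ i j k m, Pos (oriZ i j k m) → 0 < ori p i j k m
  oneg : ∀ i j k m, Pos (-oriZ i j k m) → ori p i j k m < 0
  ext : ∀ i j, i ≠ j → inner ℝ (base i) (p j) < inner ℝ (base i) (p i)

lemma span_top_of_det3 {u v w : E} (h : det3 u v w ≠ 0) (M : Submodule ℝ E) (hu : u ∈ M)
    (hv : v ∈ M) (hw : w ∈ M) : M = ⊤ := by
  by_contra hM
  obtain ⟨f, hf, hMf⟩ := Submodule.exists_le_ker_of_lt_top M (lt_top_iff_ne_top.2 hM)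
  apply hf
  have := det3_zero (LinearMap.toContinuousLinearMap f) h (hMf hu) (hMf hv) (hMf hw)
  ext x
  have hx := congrArg (fun g : E →L[ℝ] ℝ => g x) this
  simpa using hx

namespace Good

variable {p : Fin 9 → E} {δ : ℝ} (h : Good p δ)

include h

lemma det_ne : det3 (p 1 - p 0) (p 2 - p 0) (p 3 - p 0) ≠ 0 := by
  have hd : Pos (oriZ 0 1 2 3) ∨ Pos (-oriZ 0 1 2 3) := by decide +kernel
  rcases hd with hd | hd
  · exact (h.opos 0 1 2 3 hd).ne'
  · exact (h.oneg 0 1 2 3 hd).ne

lemma vectorSpan_top : vectorSpan ℝ (range p) = ⊤ := by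
  apply span_top_of_det3 h.det_ne
  · exact vsub_mem_vectorSpan ℝ ⟨1, rfl⟩ ⟨0, rfl⟩
  · exact vsub_mem_vectorSpan ℝ ⟨2, rfl⟩ ⟨0, rfl⟩
  · exact vsub_mem_vectorSpan ℝ ⟨3, rfl⟩ ⟨0, rfl⟩

lemma interior_nonempty : (interior (convexHull ℝ (range p))).Nonempty := by
  rw [interior_convexHull_nonempty_iff_affineSpan_eq_top,
    AffineSubspace.affineSpan_eq_top_iff_vectorSpan_eq_top_of_nonempty _ _ _ (range_nonempty p)]
  exact h.vectorSpan_top

lemma injective : Function.Injective p := by
  intro i j hij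
  by_contra hne
  by_cases hW : W i j = 0
  · have := h.nonedge i j hne hW
    rw [hij] at this
    norm_num at this
  · have h1 := h.edge i j hW
    rw [hij, sub_self, norm_zero] at h1
    have hn : (0 : ℝ) ≤ W i j := by exact_mod_cast W_nonneg i j
    have h2 := mul_nonneg h.pos.le hn
    norm_num at h1
    linarith

end Good

/-- Exposed subsets of the convex hull of finitely many points. -/
lemma exposed_eq {p : Fin 9 → E} (l : E →L[ℝ] ℝ) :
    ∃ (M : ℝ) (I : Finset (Fin 9)), I.Nonempty ∧ (∀ i, l (p i) ≤ M) ∧ (∀ i, i ∈ I ↔ l (p i) = M) ∧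
      {x | x ∈ convexHull ℝ (range p) ∧ ∀ y ∈ convexHull ℝ (range p), l y ≤ l x}
        = convexHull ℝ (p '' I) := by
  classical
  obtain ⟨i₀, -, hi₀⟩ := Finset.exists_max_image (Finset.univ : Finset (Fin 9))
    (fun i => l (p i)) ⟨0, Finset.mem_univ 0⟩
  set M := l (p i₀) with hM
  refine ⟨M, Finset.univ.filter fun i => l (p i) = M, ⟨i₀, by simp [hM]⟩,
    fun i => hi₀ i (Finset.mem_univ i), fun i => by simp, ?_⟩
  set I := Finset.univ.filter fun i => l (p i) = M with hI
  have hle : ∀ y ∈ convexHull ℝ (range p), l y ≤ M := by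
    have hsub : convexHull ℝ (range p) ⊆ {y | l y ≤ M} := by
      apply convexHull_min
      · rintro _ ⟨i, rfl⟩; exact hi₀ i (Finset.mem_univ i)
      · exact convex_halfSpace_le l.toLinearMap.isLinear M
    exact hsub
  have hIeq : ∀ y ∈ convexHull ℝ (p '' (I : Set (Fin 9))), l y = M := by
    have hsub : convexHull ℝ (p '' (I : Set (Fin 9))) ⊆ {y | l y = M} := by
      apply convexHull_min
      · rintro _ ⟨i, hi, rfl⟩
        simpa [hI] using hi
      · exact convex_hyperplane l.toLinearMap.isLinear M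
    exact hsub
  apply Subset.antisymm
  · rintro x ⟨hx, hmax⟩
    have hxM : l x = M := le_antisymm (hle x hx) (hmax _ (subset_convexHull ℝ _ ⟨i₀, rfl⟩))
    have hsub : convexHull ℝ (range p) ⊆ {y | y ∈ convexHull ℝ (p '' (I : Set (Fin 9))) ∨ l y < M} := by
      apply convexHull_min
      · rintro _ ⟨i, rfl⟩
        rcases (hi₀ i (Finset.mem_univ i)).lt_or_eq with hlt | heq
        · right; exact hlt
        · left; apply subset_convexHull; exact ⟨i, by simp [hI, heq, hM], rfl⟩
      · intro y hy z hz a b ha hb hab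
        have hconv := convex_convexHull ℝ (p '' (I : Set (Fin 9)))
        rcases hy with hy | hy <;> rcases hz with hz | hz
        · left; exact hconv hy hz ha hb hab
        · rcases hb.eq_or_lt with rfl | hb'
          · left
            have : a = 1 := by linarith
            subst this
            simpa using hy
          · right
            have h1 := hIeq y hy
            simp only [map_add, map_smul, smul_eq_mul]
            have hb1 : a = 1 - b := by linarith
            subst hb1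
            nlinarith
        · rcases ha.eq_or_lt with rfl | ha'
          · left
            have : b = 1 := by linarith
            subst this
            simpa using hz
          · right
            have h1 := hIeq z hz
            simp only [map_add, map_smul, smul_eq_mul]
            have hb1 : b = 1 - a := by linarith
            subst hb1
            nlinarith
        · right
          have := (convex_halfSpace_lt l.toLinearMap.isLinear M) hy hz ha hb hab
          exact this
    rcases hsub hx with h1 | h1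
    · exact h1
    · exact absurd hxM h1.ne
  · intro x hx
    refine ⟨convexHull_mono (image_subset_range _ _) hx, fun y hy => ?_⟩
    rw [hIeq x hx]; exact hle y hy

namespace Good

variable {p : Fin 9 → E} {δ : ℝ} (h : Good p δ)

include h

/-- Every facet is one of the labelled triangles. -/
lemma facet_form (l : E →L[ℝ] ℝ) (F : Set E)
    (hF : F = {x | x ∈ convexHull ℝ (range p) ∧ ∀ y ∈ convexHull ℝ (range p), l y ≤ l x})
    (hdim : Module.finrank ℝ (vectorSpan ℝ F) = 2) :
    ∃ a b c, W a b = 1 ∧ W a c = 2 ∧ W b c = 5 ∧ F = convexHull ℝ {p a, p b, p c} := by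
  classical
  have hl : l ≠ 0 := by
    rintro rfl
    have hFP : F = convexHull ℝ (range p) := by
      rw [hF]; ext x; simp
    have htop : vectorSpan ℝ F = ⊤ := by
      rw [eq_top_iff, ← h.vectorSpan_top, hFP]
      exact vectorSpan_mono ℝ (subset_convexHull ℝ _)
    rw [htop, finrank_top, finrank_euclideanSpace_fin] at hdim
    norm_num at hdim
  obtain ⟨M, I, hIne, hle, hI, hFI⟩ := exposed_eq (p := p) l
  rw [← hF] at hFI
  have hcard : 2 < I.card := by
    obtain ⟨n, hn⟩ := Nat.exists_eq_succ_of_ne_zero (Finset.card_pos.2 hIne).ne'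
    have h1 := finrank_vectorSpan_image_finset_le ℝ p I hn
    have h2 : vectorSpan ℝ F = vectorSpan ℝ ((I.image p : Finset E) : Set E) := by
      rw [hFI, ← direction_affineSpan, affineSpan_convexHull, direction_affineSpan,
        Finset.coe_image]
    rw [← h2, hdim] at h1
    omega
  obtain ⟨i, hi, j, hj, k, hk, hij, hik, hjk⟩ := Finset.two_lt_card.1 hcard
  have hu : l (p j - p i) = 0 := by rw [map_sub, (hI j).1 hj, (hI i).1 hi, sub_self]
  have hv : l (p k - p i) = 0 := by rw [map_sub, (hI k).1 hk, (hI i).1 hi, sub_self]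
  have hm0 : ∀ m, l (p m - p i) ≤ 0 := by
    intro m; rw [map_sub, (hI i).1 hi]; linarith [hle m]
  have hface : W i j ≠ 0 ∧ W i k ≠ 0 ∧ W j k ≠ 0 := by
    by_contra hcon
    have hcon' : W i j = 0 ∨ W i k = 0 ∨ W j k = 0 := by tauto
    obtain ⟨m, n, hm, hn⟩ := nonface_data i j k hij hik hjk hcon'
    have h1 := h.opos _ _ _ _ hm
    have h2 := h.oneg _ _ _ _ hn
    have h3 := det3_prop l hu hv (p m - p i) (p n - p i)
    change ori p i j k n * _ = ori p i j k m * _ at h3
    have h4 := hm0 m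
    have h5 := hm0 n
    have h6 : ori p i j k m * l (p n - p i) = 0 := by nlinarith
    have h7 : l (p n - p i) = 0 := by
      rcases mul_eq_zero.1 h6 with h8 | h8
      · exact absurd h8 h1.ne'
      · exact h8
    exact hl (det3_zero l (w := p n - p i) h2.ne hu hv h7)
  obtain ⟨h1, h2, h3⟩ := hface
  have hIeq : I = {i, j, k} := by
    apply Finset.Subset.antisymm
    · intro m hm
      by_contra hcon
      simp only [Finset.mem_insert, Finset.mem_singleton, not_or] at hcon
      have hd : det3 (p j - p i) (p k - p i) (p m - p i) ≠ 0 := by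
        rcases face_data i j k h1 h2 h3 m hcon.1 hcon.2.1 hcon.2.2 with h4 | h4
        · exact (h.opos _ _ _ _ h4).ne'
        · exact (h.oneg _ _ _ _ h4).ne
      have hw : l (p m - p i) = 0 := by rw [map_sub, (hI m).1 hm, (hI i).1 hi, sub_self]
      exact hl (det3_zero l hd hu hv hw)
    · intro m hm
      simp only [Finset.mem_insert, Finset.mem_singleton] at hm
      rcases hm with rfl | rfl | rfl <;> assumption
  obtain ⟨a, b, c, hab, hac, hbc, habc⟩ := face_labels i j k h1 h2 h3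
  refine ⟨a, b, c, hab, hac, hbc, ?_⟩
  rw [hFI, hIeq, ← habc]
  congr 1
  simp [image_insert_eq]

/-- All facets are congruent. -/
lemma congruent {a b c a' b' c' : Fin 9} (hab : W a b = 1) (hac : W a c = 2) (hbc : W b c = 5)
    (hab' : W a' b' = 1) (hac' : W a' c' = 2) (hbc' : W b' c' = 5) :
    ∃ φ : E ≃ᵢ E, φ '' convexHull ℝ {p a, p b, p c} = convexHull ℝ {p a', p b', p c'} := by
  have key : ∀ x y x' y' : Fin 9, W x y = W x' y' → W x y ≠ 0 → ‖p y - p x‖ = ‖p y' - p x'‖ := by
    intro x y x' y' h1 h2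
    have e1 := h.edge x y h2
    have e2 := h.edge x' y' (by rw [← h1]; exact h2)
    rw [norm_sub_rev (p y), norm_sub_rev (p y')]
    rw [h1, ← e2] at e1
    exact (pow_left_inj₀ (norm_nonneg _) (norm_nonneg _) two_ne_zero).1 e1
  obtain ⟨φ, ha, hb, hc⟩ := exists_isom (a := p a) (b := p b) (c := p c) (a' := p a')
    (b' := p b') (c' := p c') (key a b a' b' (by rw [hab, hab']) (by rw [hab]; norm_num))
    (key a c a' c' (by rw [hac, hac']) (by rw [hac]; norm_num))
    (key c b c' b' (by rw [W_symm, hbc, W_symm, hbc']) (by rw [W_symm, hbc]; norm_num))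
  refine ⟨φ, ?_⟩
  rw [isom_convexHull, image_insert_eq, image_insert_eq, image_singleton, ha, hb, hc]

/-- Every base point is an extreme point. -/
lemma extreme (i : Fin 9) : p i ∈ (convexHull ℝ (range p)).extremePoints ℝ := by
  apply exposedPoints_subset_extremePoints
  refine ⟨subset_convexHull ℝ _ ⟨i, rfl⟩, innerSL ℝ (base i), ?_⟩
  obtain ⟨M, I, hIne, hle, hI, hFI⟩ := exposed_eq (p := p) (innerSL ℝ (base i))
  have hIi : I = {i} := by
    have hex : ∀ j, j ≠ i → j ∉ I := by
      intro j hj hjI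
      have h1 := h.ext i j (Ne.symm hj)
      have h2 := (hI j).1 hjI
      have h3 := hle i
      rw [innerSL_apply_apply] at h2 h3
      linarith
    apply Finset.eq_singleton_iff_nonempty_unique_mem.2 ⟨hIne, fun j hj => ?_⟩
    by_contra hne
    exact hex j hne hj
  rw [hIi, Finset.coe_singleton, image_singleton, convexHull_singleton] at hFI
  have hpi : p i ∈ {x | x ∈ convexHull ℝ (range p) ∧
      ∀ y ∈ convexHull ℝ (range p), (innerSL ℝ (base i)) y ≤ (innerSL ℝ (base i)) x} := by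
    rw [hFI]; rfl
  intro y hy
  refine ⟨hpi.2 y hy, fun hle' => ?_⟩
  have hyF : y ∈ {x | x ∈ convexHull ℝ (range p) ∧
      ∀ y ∈ convexHull ℝ (range p), (innerSL ℝ (base i)) y ≤ (innerSL ℝ (base i)) x} :=
    ⟨hy, fun z hz => (hpi.2 z hz).trans hle'⟩
  rw [hFI] at hyF
  exact hyF

/-- Every symmetry is trivial. -/
lemma symmetry_trivial (φ : E ≃ᵢ E) (hφ : φ '' convexHull ℝ (range p) = convexHull ℝ (range p)) :
    φ = IsometryEquiv.refl E := by
  have hσ : ∀ i, ∃ j, φ (p i) = p j := by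
    intro i
    have h1 := isom_extreme φ hφ (h.extreme i)
    obtain ⟨j, hj⟩ := extremePoints_convexHull_subset h1
    exact ⟨j, hj.symm⟩
  choose σ hσ using hσ
  have hinj : Function.Injective σ := by
    intro i j hij
    apply h.injective
    apply φ.injective
    rw [hσ, hσ, hij]
  have hbij : Function.Bijective σ := Finite.injective_iff_bijective.1 hinj
  have hdist : ∀ i j, ‖p (σ i) - p (σ j)‖ = ‖p i - p j‖ := by
    intro i j
    rw [← hσ, ← hσ, ← dist_eq_norm, ← dist_eq_norm, φ.dist_eq]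
  have hW : ∀ i j, W (σ i) (σ j) = W i j := by
    intro i j
    by_cases hij : i = j
    · rw [hij, W_diag, W_diag]
    have hij' : σ i ≠ σ j := fun h => hij (hinj h)
    have hd := hdist i j
    have hp := h.pos
    have hlt := h.lt
    by_cases h1 : W i j = 0 <;> by_cases h2 : W (σ i) (σ j) = 0
    · rw [h1, h2]
    · exfalso
      have e1 := h.nonedge i j hij h1
      have e2 := h.edge _ _ h2
      rw [hd] at e2
      have e3 : (W (σ i) (σ j) : ℝ) ≤ 5 := by exact_mod_cast W_le _ _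
      have e4 : (0 : ℝ) ≤ W (σ i) (σ j) := by exact_mod_cast W_nonneg _ _
      nlinarith
    · exfalso
      have e1 := h.nonedge _ _ hij' h2
      have e2 := h.edge _ _ h1
      rw [hd] at e1
      have e3 : (W i j : ℝ) ≤ 5 := by exact_mod_cast W_le _ _
      have e4 : (0 : ℝ) ≤ W i j := by exact_mod_cast W_nonneg _ _
      nlinarith
    · have e1 := h.edge _ _ h1
      have e2 := h.edge _ _ h2
      rw [hd, e1] at e2
      have e3 : δ * (W i j : ℝ) = δ * (W (σ i) (σ j) : ℝ) := by linarith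
      have e4 := mul_left_cancel₀ hp.ne' e3
      exact_mod_cast e4.symm
  have hid := aut_trivial σ hbij hW
  have hfix : ∀ i, φ (p i) = p i := fun i => by rw [hσ, hid]
  ext1 x
  have horth : ∀ i, inner ℝ (φ x - x) (p i - p 0) = 0 := by
    intro i
    have e : ∀ i, ‖φ x - p i‖ = ‖x - p i‖ := by
      intro i
      conv_lhs => rw [← hfix i]
      rw [← dist_eq_norm, ← dist_eq_norm, φ.dist_eq]
    have e1 := e i
    have e2 := e 0
    have e1' : ‖φ x - p i‖ ^ 2 = ‖x - p i‖ ^ 2 := by rw [e1]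
    have e2' : ‖φ x - p 0‖ ^ 2 = ‖x - p 0‖ ^ 2 := by rw [e2]
    rw [norm_sub_sq_real, norm_sub_sq_real] at e1' e2'
    rw [inner_sub_left, inner_sub_right, inner_sub_right]
    linarith
  have hz := det3_zero (innerSL ℝ (φ x - x)) h.det_ne
    (by rw [innerSL_apply_apply]; exact horth 1) (by rw [innerSL_apply_apply]; exact horth 2)
    (by rw [innerSL_apply_apply]; exact horth 3)
  have hz2 : inner ℝ (φ x - x) (φ x - x) = 0 := by
    rw [← innerSL_apply_apply ℝ, hz]; rfl
  have hz3 : φ x - x = 0 := inner_self_eq_zero.1 hz2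
  exact sub_eq_zero.1 hz3

end Good

/-! ### Infinitesimal rigidity of the base configuration -/

def es : Fin 21 → Fin 9 := ![0, 0, 0, 0, 0, 1, 1, 1, 1, 2, 2, 2, 3, 3, 3, 3, 4, 4, 4, 5, 5]
def et : Fin 21 → Fin 9 := ![1, 2, 3, 6, 8, 2, 4, 6, 7, 5, 7, 8, 4, 5, 6, 8, 5, 6, 7, 7, 8]

/-- the incidence sign of vertex `i` on edge `e`. -/
def sg (i : Fin 9) (e : Fin 21) : ℝ := (if es e = i then 1 else 0) - (if et e = i then 1 else 0)

lemma sum21 (f : Fin 21 → ℝ) : ∑ e, f e = f 0 + f 1 + f 2 + f 3 + f 4 + f 5 + f 6 + f 7 + f 8 + f 9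
    + f 10 + f 11 + f 12 + f 13 + f 14 + f 15 + f 16 + f 17 + f 18 + f 19 + f 20 := by
  simp [Fin.sum_univ_succ]
  ring!

lemma stress_free (s : ℝ) (hs : 0 < s) (rX rY rZ : Fin 9 → ℝ)
    (hrX : rX = ![4, -2, -2, 4, -2, -2, 1 + s, -2 - 2 * s, 1 + s])
    (hrY : rY = ![0, 2, -2, 0, 2, -2, 1 + s, 0, -1 - s])
    (hrZ : rZ = ![2, 2, 2, -2, -2, -2, 0, 0, 0]) (w : Fin 21 → ℝ)
    (hX : ∀ i, ∑ e, (rX (es e) - rX (et e)) * sg i e * w e = 0)
    (hY : ∀ i, ∑ e, (rY (es e) - rY (et e)) * sg i e * w e = 0)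
    (hZ : ∀ i, ∑ e, (rZ (es e) - rZ (et e)) * sg i e * w e = 0) : w = 0 := by
  simp only [sum21, hrX, hrY, hrZ] at hX hY hZ
  have x0 := hX 0
  have x1 := hX 1
  have x3 := hX 3
  have x6 := hX 6
  have x7 := hX 7
  have x8 := hX 8
  have y0 := hY 0
  have y1 := hY 1
  have y3 := hY 3
  have y4 := hY 4
  have y6 := hY 6
  have y7 := hY 7
  have y8 := hY 8
  have z0 := hZ 0
  have z1 := hZ 1
  have z2 := hZ 2
  have z3 := hZ 3
  have z4 := hZ 4
  have z5 := hZ 5
  have z6 := hZ 6
  have z7 := hZ 7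
  have z8 := hZ 8
  simp [sg, es, et] at x0 x1 x3 x6 x7 x8 y0 y1 y3 y4 y6 y7 y8 z0 z1 z2 z3 z4 z5 z6 z7 z8
  clear hX hY hZ
  have cancel : ∀ a : ℝ, s * a = 0 → a = 0 := fun a h => (mul_eq_zero.1 h).resolve_left hs.ne'
  have c6a : w 3 + w 14 = 0 := cancel _ (by linear_combination (-(s - 1) / 8) * x6 + ((s + 3) / 8) * y6)
  have c6b : w 7 + w 17 = 0 := cancel _ (by linear_combination ((1 + s) / 8) * x6 - ((s - 3) / 8) * y6)
  have c6c : w 3 + w 7 = 0 := by linear_combination (-1 / 4) * z6 + (1 / 2) * c6a + (1 / 2) * c6b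
  have c8a : w 4 + w 15 = 0 := cancel _ (by linear_combination (-(s - 1) / 8) * x8 - ((s + 3) / 8) * y8)
  have c8b : w 11 + w 20 = 0 := cancel _ (by linear_combination ((1 + s) / 8) * x8 + ((s - 3) / 8) * y8)
  have c8c : w 4 + w 11 = 0 := by linear_combination (-1 / 4) * z8 + (1 / 2) * c8a + (1 / 2) * c8b
  have c7s : w 8 + w 10 + w 18 + w 19 = 0 := cancel _ (by linear_combination (-1 / 2) * x7)
  have c7a : w 8 + w 18 = 0 := by linear_combination (-1 / 4) * y7 + (1 / 2) * c7s
  have c7b : w 10 + w 19 = 0 := by linear_combination c7s - c7a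
  have c7c : w 8 + w 10 = 0 := by linear_combination (-1 / 4) * z7 + (1 / 2) * c7a + (1 / 2) * c7b
  have d2 : w 2 = 0 := by linarith
  have d34 : w 3 + w 4 = 0 := by linarith
  have d6 : w 6 = 0 := by linarith
  have d78 : w 7 + w 8 = 0 := by linarith
  have d9 : w 9 = 0 := by linarith
  have d1011 : w 10 + w 11 = 0 := by linarith
  have f01 : w 0 + w 1 = 0 := by linear_combination (1 / 6) * x0 - ((3 - s) / 6) * d34
  have f10 : w 1 - w 0 = (1 + s) * w 3 := by
    linear_combination (1 / 2) * y0 - ((s + 1) / 2) * d34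
  have f0 : 2 * w 0 = (1 + s) * w 3 := by
    linear_combination (-1 / 3) * x1 + (2 * s / 3) * d78 - ((3 + 3 * s) / 3) * c6c
  have hc : (1 + s) * w 3 = 0 := by linarith
  have w3 : w 3 = 0 := (mul_eq_zero.1 hc).resolve_left (by linarith)
  have w0 : w 0 = 0 := by rw [w3] at f0; linarith
  have w1 : w 1 = 0 := by linarith
  have w4 : w 4 = 0 := by linarith
  have w7 : w 7 = 0 := by linarith
  have w8 : w 8 = 0 := by linarith
  have w10 : w 10 = 0 := by linarith
  have w11 : w 11 = 0 := by linarith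
  have w14 : w 14 = 0 := by linarith
  have w15 : w 15 = 0 := by linarith
  have w17 : w 17 = 0 := by linarith
  have w18 : w 18 = 0 := by linarith
  have w19 : w 19 = 0 := by linarith
  have w20 : w 20 = 0 := by linarith
  rw [w0, w7, w8] at y1
  have w5 : w 5 = 0 := by linarith
  rw [w14, w15] at x3 y3
  have w12 : w 12 = 0 := by linarith
  have w13 : w 13 = 0 := by linarith
  rw [w12, w17, w18] at y4
  have w16 : w 16 = 0 := by linarith
  ext e
  fin_cases e <;> assumption


lemma W_edges : ∀ i j, W i j ≠ 0 → ∃ e, (es e = i ∧ et e = j) ∨ (es e = j ∧ et e = i) := by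
  decide +kernel

/-- The vector of squared edge lengths. -/
noncomputable def lenMap (p : Fin 9 → E) : Fin 21 → ℝ := fun e => ‖p (es e) - p (et e)‖ ^ 2

/-- Its derivative at the base configuration. -/
noncomputable def lenDeriv : (Fin 9 → E) →L[ℝ] (Fin 21 → ℝ) :=
  ContinuousLinearMap.pi fun e => (2 • innerSL ℝ (base (es e) - base (et e))).comp
    (ContinuousLinearMap.proj (R := ℝ) (φ := fun _ : Fin 9 => E) (es e) -
      ContinuousLinearMap.proj (R := ℝ) (φ := fun _ : Fin 9 => E) (et e))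

lemma lenMap_deriv : HasStrictFDerivAt lenMap lenDeriv base := by
  apply hasStrictFDerivAt_pi.2
  intro e
  have h1 : HasStrictFDerivAt (fun p : Fin 9 → E => p (es e) - p (et e))
      (ContinuousLinearMap.proj (R := ℝ) (φ := fun _ : Fin 9 => E) (es e) -
      ContinuousLinearMap.proj (R := ℝ) (φ := fun _ : Fin 9 => E) (et e)) base :=
    (ContinuousLinearMap.proj (R := ℝ) (φ := fun _ : Fin 9 => E) (es e) -
      ContinuousLinearMap.proj (R := ℝ) (φ := fun _ : Fin 9 => E) (et e)).hasStrictFDerivAt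
  exact (hasStrictFDerivAt_norm_sq _).comp base h1

lemma lenDeriv_single (i : Fin 9) (z : E) (e : Fin 21) :
    lenDeriv (Pi.single i z) e = 2 * (inner ℝ (base (es e) - base (et e)) z * sg i e) := by
  have h1 : lenDeriv (Pi.single i z) e = 2 * inner ℝ (base (es e) - base (et e))
      ((Pi.single i z : Fin 9 → E) (es e) - (Pi.single i z : Fin 9 → E) (et e)) := by
    simp only [lenDeriv, ContinuousLinearMap.coe_pi', ContinuousLinearMap.comp_apply]
    change (2 • innerSL ℝ (base (es e) - base (et e)))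
      ((Pi.single i z : Fin 9 → E) (es e) - (Pi.single i z : Fin 9 → E) (et e)) = _
    rw [ContinuousLinearMap.smul_apply, innerSL_apply_apply, two_nsmul, two_mul]
  have h2 : (Pi.single i z : Fin 9 → E) (es e) - (Pi.single i z : Fin 9 → E) (et e)
      = sg i e • z := by
    unfold sg
    rw [Pi.single_apply, Pi.single_apply]
    split_ifs <;> simp
  rw [h1, h2, inner_smul_right]
  ring

lemma lenDeriv_range : lenDeriv.range = ⊤ := by
  by_contra hne
  obtain ⟨f, hf, hker⟩ := Submodule.exists_le_ker_of_lt_top _ (lt_top_iff_ne_top.2 hne)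
  apply hf
  set w : Fin 21 → ℝ := fun e => f (fun j => if e = j then 1 else 0) with hw
  have hfx : ∀ x, f x = ∑ e, x e * w e := by
    intro x
    rw [LinearMap.pi_apply_eq_sum_univ f x]
    simp [hw]
  have hsum : ∀ (i : Fin 9) (z : E),
      ∑ e, inner ℝ (base (es e) - base (et e)) z * sg i e * w e = 0 := by
    intro i z
    have h1 : f (lenDeriv (Pi.single i z)) = 0 := hker ⟨_, rfl⟩
    rw [hfx] at h1
    simp only [lenDeriv_single] at h1
    have h2 : ∑ e, 2 * (inner ℝ (base (es e) - base (et e)) z * sg i e) * w e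
        = 2 * ∑ e, inner ℝ (base (es e) - base (et e)) z * sg i e * w e := by
      rw [Finset.mul_sum]; exact Finset.sum_congr rfl fun e _ => by ring
    rw [h2] at h1
    linarith
  have hs6 : 0 < Real.sqrt 6 := Real.sqrt_pos.2 (by norm_num)
  have hs3 : Real.sqrt 3 ≠ 0 := (Real.sqrt_pos.2 (by norm_num)).ne'
  have hin : ∀ (x : E) (k : Fin 3), inner ℝ x (EuclideanSpace.single k 1) = x k := by
    intro x k
    rw [EuclideanSpace.inner_single_right]; simp
  have hwz : w = 0 := by
    apply stress_free (Real.sqrt 6) hs6 (fun i => ev (zX i)) (fun i => ev (zY i))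
      (fun i => ev (zZ i)) _ _ _ w
    · intro i
      have := hsum i (EuclideanSpace.single 0 1)
      simp only [hin] at this
      simpa [base] using this
    · intro i
      have := hsum i (EuclideanSpace.single 1 1)
      simp only [hin] at this
      have h2 : Real.sqrt 3 * ∑ e, (ev (zY (es e)) - ev (zY (et e))) * sg i e * w e = 0 := by
        rw [← this, Finset.mul_sum]
        refine Finset.sum_congr rfl fun e _ => ?_
        simp only [base, PiLp.sub_apply, Matrix.cons_val_zero, Matrix.cons_val_one,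
          Matrix.cons_val]
        ring
      exact (mul_eq_zero.1 h2).resolve_left hs3
    · intro i
      have := hsum i (EuclideanSpace.single 2 1)
      simp only [hin] at this
      have h2 : Real.sqrt 3 * ∑ e, (ev (zZ (es e)) - ev (zZ (et e))) * sg i e * w e = 0 := by
        rw [← this, Finset.mul_sum]
        refine Finset.sum_congr rfl fun e _ => ?_
        simp only [base, PiLp.sub_apply, Matrix.cons_val_zero, Matrix.cons_val_one,
          Matrix.cons_val]
        ring
      exact (mul_eq_zero.1 h2).resolve_left hs3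
    · ext i; fin_cases i <;> simp [zX, ev_apply] <;> ring
    · ext i; fin_cases i <;> simp [zY, ev_apply] <;> ring
    · ext i; fin_cases i <;> simp [zZ, ev_apply]
  ext x
  simp [hfx, hwz]

/-- Good configurations exist. -/
lemma exists_good : ∃ (p : Fin 9 → E) (δ : ℝ), Good p δ := by
  have hori : ∀ i j k m, Continuous fun p : Fin 9 → E => ori p i j k m := by
    intro i j k m
    unfold ori det3
    fun_prop
  have hev : ∀ᶠ p : Fin 9 → E in 𝓝 base,
      (∀ i j, i ≠ j → W i j = 0 → 72 < ‖p i - p j‖ ^ 2) ∧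
      (∀ i j k m, Pos (oriZ i j k m) → 0 < ori p i j k m) ∧
      (∀ i j k m, Pos (-oriZ i j k m) → ori p i j k m < 0) ∧
      (∀ i j, i ≠ j → inner ℝ (base i) (p j) < inner ℝ (base i) (p i)) := by
    refine Filter.Eventually.and ?_ (Filter.Eventually.and ?_ (Filter.Eventually.and ?_ ?_))
    · simp only [eventually_all]
      intro i j hij hW
      have hc : Continuous fun p : Fin 9 → E => ‖p i - p j‖ ^ 2 := by fun_prop
      apply hc.continuousAt.eventually_const_lt
      change 72 < ‖base i - base j‖ ^ 2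
      rw [dsq_base]
      have := pos_ev (W_nonedge i j hij hW)
      rw [map_sub, ev_apply ⟨72, 0⟩] at this
      norm_num at this
      exact this
    · simp only [eventually_all]
      intro i j k m hP
      apply (hori i j k m).continuousAt.eventually_const_lt
      change 0 < ori base i j k m
      rw [ori_base]
      have := pos_ev hP
      linarith
    · simp only [eventually_all]
      intro i j k m hP
      apply (hori i j k m).continuousAt.eventually_lt_const
      change ori base i j k m < 0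
      rw [ori_base]
      have := pos_ev hP
      rw [map_neg] at this
      linarith
    · simp only [eventually_all]
      intro i j hij
      have hc : Continuous fun p : Fin 9 → E => inner ℝ (base i) (p i) - inner ℝ (base i) (p j) := by
        fun_prop
      have h0 : (0 : ℝ) < inner ℝ (base i) (base i) - inner ℝ (base i) (base j) := by
        rw [inn_base, inn_base, ← map_sub]
        exact pos_ev (ext_data i j hij)
      have := hc.continuousAt.eventually_const_lt h0
      filter_upwards [this] with p hp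
      linarith
  have himg : lenMap '' {p : Fin 9 → E |
      (∀ i j, i ≠ j → W i j = 0 → 72 < ‖p i - p j‖ ^ 2) ∧
      (∀ i j k m, Pos (oriZ i j k m) → 0 < ori p i j k m) ∧
      (∀ i j k m, Pos (-oriZ i j k m) → ori p i j k m < 0) ∧
      (∀ i j, i ≠ j → inner ℝ (base i) (p j) < inner ℝ (base i) (p i))} ∈ 𝓝 (lenMap base) := by
    rw [← lenMap_deriv.map_nhds_eq_of_surj lenDeriv_range]
    exact image_mem_map hev
  have hbase : lenMap base = fun _ => 48 := by
    ext e
    have hW : ∀ e, W (es e) (et e) ≠ 0 := by decide +kernel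
    unfold lenMap
    rw [dsq_base, W_edge _ _ (hW e), ev_apply]
    norm_num
  have hcurve : Continuous fun δ : ℝ => (fun e => 48 + δ * W (es e) (et e) : Fin 21 → ℝ) := by
    fun_prop
  have h0 : (fun e => 48 + (0 : ℝ) * W (es e) (et e) : Fin 21 → ℝ) = lenMap base := by
    rw [hbase]; ext e; simp
  have ht : Tendsto (fun δ : ℝ => (fun e => 48 + δ * W (es e) (et e) : Fin 21 → ℝ)) (𝓝 0)
      (𝓝 (lenMap base)) := by
    have h1 := hcurve.tendsto 0
    rw [h0] at h1
    exact h1
  have hδ := ht.eventually himg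
  have hδ' := hδ.filter_mono (nhdsWithin_le_nhds (s := Ioi (0 : ℝ)))
  have hlt : ∀ᶠ δ : ℝ in 𝓝[>] 0, δ < 1 :=
    (eventually_lt_nhds (by norm_num : (0 : ℝ) < 1)).filter_mono nhdsWithin_le_nhds
  obtain ⟨δ, ⟨⟨p, hp, hpδ⟩, hlt'⟩, hpos⟩ := ((hδ'.and hlt).and self_mem_nhdsWithin).exists
  refine ⟨p, δ, hpos, hlt', ?_, hp.1, hp.2.1, hp.2.2.1, hp.2.2.2⟩
  intro i j hW
  obtain ⟨e, he⟩ := W_edges i j hW
  have h1 := congrFun hpδ e
  simp only [lenMap] at h1
  rcases he with ⟨rfl, rfl⟩ | ⟨rfl, rfl⟩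
  · exact h1
  · rw [norm_sub_rev, h1, W_symm]


/-- The negation of the preceding statement: Every full-dimensional convex polytope in 3-space whose facets are all pairwise congruent admits an isometry of space, other than the identity, mapping the polytope onto itself. -/
theorem result :
    ¬ (∀ S : Finset (EuclideanSpace ℝ (Fin 3)),
      (interior (convexHull ℝ (S : Set (EuclideanSpace ℝ (Fin 3))))).Nonempty →
      (∀ F G : Set (EuclideanSpace ℝ (Fin 3)),
        (∃ l : EuclideanSpace ℝ (Fin 3) →L[ℝ] ℝ,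
          F = {x | x ∈ convexHull ℝ (S : Set (EuclideanSpace ℝ (Fin 3))) ∧
            ∀ y ∈ convexHull ℝ (S : Set (EuclideanSpace ℝ (Fin 3))), l y ≤ l x}) →
        Module.finrank ℝ (vectorSpan ℝ F) = 2 →
        (∃ l : EuclideanSpace ℝ (Fin 3) →L[ℝ] ℝ,
          G = {x | x ∈ convexHull ℝ (S : Set (EuclideanSpace ℝ (Fin 3))) ∧
            ∀ y ∈ convexHull ℝ (S : Set (EuclideanSpace ℝ (Fin 3))), l y ≤ l x}) →
        Module.finrank ℝ (vectorSpan ℝ G) = 2 →
        ∃ φ : EuclideanSpace ℝ (Fin 3) ≃ᵢ EuclideanSpace ℝ (Fin 3), φ '' F = G) →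
      ∃ φ : EuclideanSpace ℝ (Fin 3) ≃ᵢ EuclideanSpace ℝ (Fin 3),
        φ '' convexHull ℝ (S : Set (EuclideanSpace ℝ (Fin 3))) =
          convexHull ℝ (S : Set (EuclideanSpace ℝ (Fin 3))) ∧
        φ ≠ IsometryEquiv.refl (EuclideanSpace ℝ (Fin 3))) := by
  intro hall
  obtain ⟨p, δ, h⟩ := exists_good
  classical
  have hcoe : ((Finset.univ.image p : Finset E) : Set E) = range p := by
    simp
  obtain ⟨φ, hφ, hne⟩ := hall (Finset.univ.image p) (by
    rw [hcoe]; exact h.interior_nonempty) (by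
    rw [hcoe]
    rintro F G ⟨l, hF⟩ hdF ⟨l', hG⟩ hdG
    obtain ⟨a, b, c, hab, hac, hbc, rfl⟩ := h.facet_form l F hF hdF
    obtain ⟨a', b', c', hab', hac', hbc', rfl⟩ := h.facet_form l' G hG hdG
    exact h.congruent hab hac hbc hab' hac' hbc')
  rw [hcoe] at hφ
  exact hne (h.symmetry_trivial φ hφ)

end Pool.Agent.S05420
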