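import Pool.Statements.S05459
import Pool.Agent.Helper531.ES.Final

set_option autoImplicit false
open Pool Pool.MP_453c06_co

namespace Pool.Agent.S05459

/-- For each k≥1 there is C: every k-colouring of the complete graph on at least kn+C vertices has a monochromatic copy of any n-vertex tree, and for each n≥1 some n-vertex tree avoids this on kn−C vertices. -/
theorem result :
    ∀ k : ℕ, 1 ≤ k → ∃ C : ℕ,
      (∀ n : ℕ, ∀ T : SimpleGraph (Fin n), T.IsTree → ∀ N : ℕ, k * n + C ≤ N →
        ∀ c : Fin N → Fin N → Fin k, (∀ x y, c x y = c y x) →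
          ∃ i : Fin k, ∃ f : Fin n ↪ Fin N, ∀ a b, T.Adj a b → c (f a) (f b) = i) ∧
      (∀ n : ℕ, 1 ≤ n → ∃ T : SimpleGraph (Fin n), T.IsTree ∧
        ∃ c : Fin (k * n - C) → Fin (k * n - C) → Fin k, (∀ x y, c x y = c y x) ∧
          ∀ i : Fin k, ∀ f : Fin n ↪ Fin (k * n - C),
            ∃ a b, T.Adj a b ∧ c (f a) (f b) ≠ i) := by
  exact Helper531.ES.erdos_graham Helper531.ES.esProp

end Pool.Agent.S05459
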