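import Pool.Statements.S05462

set_option autoImplicit false
open Pool Pool.MP_455b0c_co

namespace Pool.Agent.S05462

/-- Left endpoints (in twentieths) of the first representation, lengths 20 and 55. -/
def A : Fin 14 → ℤ := ![-20, 1, 23, 45, 67, 89, 110, 0, 55, 26, 47, 64, 83, 103]
def LA : Fin 14 → ℤ := ![20, 20, 20, 20, 20, 20, 20, 55, 55, 20, 55, 20, 20, 20]
/-- Left endpoints (in twentieths) of the second representation, lengths 20 and 100. -/
def B : Fin 14 → ℤ := ![-20, 2, 24, 48, 152, 174, 200, 0, 100, 30, 75, 146, 165, 180]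
def LB : Fin 14 → ℤ := ![20, 20, 20, 100, 20, 20, 20, 100, 100, 20, 100, 20, 20, 20]

def P (i j : Fin 14) : Prop := A i + LA i < A j

instance : DecidableRel P := fun i j => inferInstanceAs (Decidable (A i + LA i < A j))

theorem P_B : ∀ i j, P i j ↔ B i + LB i < B j := by decide +kernel

theorem cast_lt (x y z : ℤ) : (x : ℝ) / 20 + (y : ℝ) / 20 < (z : ℝ) / 20 ↔ x + y < z := by
  rw [← add_div, div_lt_div_iff_of_pos_right (by norm_num)]
  norm_cast

theorem LA_cases : ∀ i, LA i = 20 ∨ LA i = 55 := by decide +kernel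
theorem LB_cases : ∀ i, LB i = 20 ∨ LB i = 100 := by decide +kernel

theorem mem1 : ∃ a L : Fin 14 → ℝ,
    (∀ i, L i = 1 ∨ L i = (11 / 4 : ℝ)) ∧ ∀ i j, P i j ↔ a i + L i < a j := by
  refine ⟨fun i => (A i : ℝ) / 20, fun i => (LA i : ℝ) / 20, ?_, ?_⟩
  · intro i
    rcases LA_cases i with h | h
    · left; simp only [h]; norm_num
    · right; simp only [h]; norm_num
  · intro i j
    rw [cast_lt]
    rfl

theorem mem2 : ∃ a L : Fin 14 → ℝ,
    (∀ i, L i = 1 ∨ L i = (5 : ℝ)) ∧ ∀ i j, P i j ↔ a i + L i < a j := by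
  refine ⟨fun i => (B i : ℝ) / 20, fun i => (LB i : ℝ) / 20, ?_, ?_⟩
  · intro i
    rcases LB_cases i with h | h
    · left; simp only [h]; norm_num
    · right; simp only [h]; norm_num
  · intro i j
    rw [cast_lt]
    exact P_B i j

/-- The main obstruction. -/
theorem spectrum_gap (r : ℝ) (hr : 1 < r) (a L : Fin 14 → ℝ)
    (hL : ∀ i, L i = 1 ∨ L i = r) (hP : ∀ i j, P i j ↔ a i + L i < a j) :
    (5 / 2 < r ∧ r < 3) ∨ 4 < r := by
  have lt : ∀ i j, P i j → a i + L i < a j := fun i j h => (hP i j).1 h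
  have nl : ∀ i j, ¬ P i j → a j ≤ a i + L i := fun i j h => not_lt.1 fun h' => h ((hP i j).2 h')
  -- chain in the large gap
  have h01 := lt 0 1 (by decide)
  have h12 := lt 1 2 (by decide)
  have h23 := lt 2 3 (by decide)
  have h34 := lt 3 4 (by decide)
  have h45 := lt 4 5 (by decide)
  have h56 := lt 5 6 (by decide)
  -- the two long intervals
  have h07 := nl 0 7 (by decide)
  have h72 := nl 7 2 (by decide)
  have h73 := nl 7 3 (by decide)
  have h78 := nl 7 8 (by decide)
  have h17 := nl 1 7 (by decide)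
  have h38 := nl 3 8 (by decide)
  have h48 := nl 4 8 (by decide)
  have h85 := nl 8 5 (by decide)
  have h86 := nl 8 6 (by decide)
  -- the smaller gap
  have g1 := nl 9 3 (by decide)
  have g2 := lt 9 10 (by decide)
  have g3 := lt 10 13 (by decide)
  have g4 := nl 3 11 (by decide)
  have g5 := nl 11 12 (by decide)
  have g6 := nl 12 13 (by decide)
  -- forcing for interval 10
  have f1 := nl 3 10 (by decide)
  have f2 := nl 10 5 (by decide)
  -- forcing for interval 11
  have f3 := lt 7 11 (by decide)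
  have f4 := lt 11 5 (by decide)
  -- forcing for interval 12
  have f5 := lt 3 12 (by decide)
  have f6 := lt 12 6 (by decide)
  have l1 : L 1 < L 7 := by linarith
  have l2 : L 2 < L 7 := by linarith
  have l4 : L 4 < L 8 := by linarith
  have l5 : L 5 < L 8 := by linarith
  have l10 : L 4 < L 10 := by linarith
  have l11 : L 11 < L 8 := by linarith
  have l12 : L 12 < L 8 := by linarith
  have e7 : L 7 = r := by rcases hL 7 with h | h <;> rcases hL 1 with h' | h' <;> linarith
  have e8 : L 8 = r := by rcases hL 8 with h | h <;> rcases hL 4 with h' | h' <;> linarith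
  have e1 : L 1 = 1 := by rcases hL 1 with h | h <;> linarith
  have e2 : L 2 = 1 := by rcases hL 2 with h | h <;> linarith
  have e4 : L 4 = 1 := by rcases hL 4 with h | h <;> linarith
  have e5 : L 5 = 1 := by rcases hL 5 with h | h <;> linarith
  have e10 : L 10 = r := by rcases hL 10 with h | h <;> linarith
  have e11 : L 11 = 1 := by rcases hL 11 with h | h <;> linarith
  have e12 : L 12 = 1 := by rcases hL 12 with h | h <;> linarith
  rcases hL 3 with h | h
  · left
    constructor <;> linarith
  · right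
    linarith

/-- The negation of the preceding statement: For every finite order representable by closed real intervals of two positive lengths but not by intervals of one length, the set of r > 1 for which it is representable with lengths 1 and r is an interval. -/
theorem result :
    ¬ (∀ (n : ℕ) (P : Fin n → Fin n → Prop),
      (¬ ∃ a : Fin n → ℝ, ∀ i j, P i j ↔ a i + 1 < a j) →
      (∃ s t : ℝ, 0 < s ∧ 0 < t ∧ ∃ a L : Fin n → ℝ,
          (∀ i, L i = s ∨ L i = t) ∧ ∀ i j, P i j ↔ a i + L i < a j) →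
      Set.OrdConnected
        {r : ℝ | 1 < r ∧ ∃ a L : Fin n → ℝ,
          (∀ i, L i = 1 ∨ L i = r) ∧ ∀ i j, P i j ↔ a i + L i < a j}) := by
  intro h
  have h1 := h 14 P ?_ ⟨1, 11 / 4, by norm_num, by norm_num, mem1⟩
  · have h2 := h1.out (x := 11 / 4) (y := 5) ⟨by norm_num, mem1⟩ ⟨by norm_num, mem2⟩
      (show (7 / 2 : ℝ) ∈ Set.Icc (11 / 4 : ℝ) 5 from ⟨by norm_num, by norm_num⟩)
    obtain ⟨hr, a, L, hL, hP⟩ := h2
    rcases spectrum_gap (7 / 2) hr a L hL hP with h3 | h3
    · linarith [h3.2]
    · linarith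
  · rintro ⟨a, ha⟩
    have h01 := (ha 0 1).1 (by decide)
    have h12 := (ha 1 2).1 (by decide)
    have h07 : ¬ (a 0 + 1 < a 7) := fun h => absurd ((ha 0 7).2 h) (by decide)
    have h72 : ¬ (a 7 + 1 < a 2) := fun h => absurd ((ha 7 2).2 h) (by decide)
    push Not at h07 h72
    linarith

end Pool.Agent.S05462
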