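import Pool.Statements.S05468
import Mathlib

set_option autoImplicit false
open Matrix
open Pool Pool.MP_45d90c_co

namespace Pool.Agent.S05468

open Filter Topology

section Geometry

variable {V : Type*} [AddCommGroup V] [Module ℝ V]

/-- Small perturbation of a point: eventual signs of a linear functional. -/
theorem ev_sign (φ : V →ₗ[ℝ] ℝ) (y v : V) :
    ∀ᶠ ε in 𝓝[>] (0 : ℝ),
      SignType.sign (φ (y + ε • v)) =
        if φ y = 0 then SignType.sign (φ v) else SignType.sign (φ y) := by
  have hc : Continuous (fun ε : ℝ => φ y + ε * φ v) := by fun_prop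
  have h0 : Tendsto (fun ε : ℝ => φ y + ε * φ v) (𝓝[>] 0) (𝓝 (φ y)) := by
    have := (hc.tendsto 0).mono_left (nhdsWithin_le_nhds (s := Set.Ioi (0:ℝ)))
    simpa using this
  by_cases h : φ y = 0
  · filter_upwards [self_mem_nhdsWithin] with ε hε
    have hε' : (0 : ℝ) < ε := hε
    simp [h, map_add, map_smul, sign_mul, sign_pos hε']
  · rcases lt_or_gt_of_ne h with hneg | hpos
    · filter_upwards [h0.eventually (gt_mem_nhds hneg)] with ε hε
      rw [if_neg h, sign_neg hneg, map_add, map_smul, smul_eq_mul, sign_neg hε]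
    · filter_upwards [h0.eventually (lt_mem_nhds hpos)] with ε hε
      rw [if_neg h, sign_pos hpos, map_add, map_smul, smul_eq_mul, sign_pos hε]

theorem exists_generic {κ : Type*} [Finite κ] (g : κ → V →ₗ[ℝ] ℝ) (hg : ∀ j, g j ≠ 0) :
    ∃ v : V, ∀ j, g j v ≠ 0 := by
  apply Module.Dual.exists_forall_ne_zero_of_forall_exists
  intro j
  by_contra hcon
  push Not at hcon
  exact hg j (LinearMap.ext (by simpa using hcon))

/-- Perturb a point to become generic for a further finite family without changing the nonzero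
signs of a given finite family. -/
theorem exists_perturb {κ μ : Type*} [Finite κ] [Finite μ] (g : κ → V →ₗ[ℝ] ℝ)
    (k : μ → V →ₗ[ℝ] ℝ) (hk : ∀ m, k m ≠ 0) (y : V) :
    ∃ y' : V, (∀ j, g j y ≠ 0 → SignType.sign (g j y') = SignType.sign (g j y)) ∧
      ∀ m, k m y' ≠ 0 := by
  obtain ⟨v, hv⟩ := exists_generic k hk
  have h1 : ∀ᶠ ε in 𝓝[>] (0 : ℝ), ∀ j, SignType.sign (g j (y + ε • v)) =
        if g j y = 0 then SignType.sign (g j v) else SignType.sign (g j y) := by
    rw [eventually_all]
    intro j
    exact ev_sign (g j) y v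
  have h2 : ∀ᶠ ε in 𝓝[>] (0 : ℝ), ∀ m, SignType.sign (k m (y + ε • v)) =
        if k m y = 0 then SignType.sign (k m v) else SignType.sign (k m y) := by
    rw [eventually_all]
    intro m
    exact ev_sign (k m) y v
  obtain ⟨ε, hε1, hε2⟩ := (h1.and h2).exists
  refine ⟨y + ε • v, ?_, ?_⟩
  · intro j hj
    rw [hε1 j, if_neg hj]
  · intro m
    have := hε2 m
    by_cases hm : k m y = 0
    · rw [if_pos hm] at this
      intro h0
      rw [h0, sign_zero, eq_comm, sign_eq_zero_iff] at this
      exact hv m this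
    · rw [if_neg hm] at this
      intro h0
      rw [h0, sign_zero, eq_comm, sign_eq_zero_iff] at this
      exact hm this

/-- The gallery step. -/
theorem gallery_step {κ : Type*} [Finite κ] (g : κ → V →ₗ[ℝ] ℝ) {x y : V}
    (hx : ∀ j, g j x ≠ 0) (hy : ∀ j, g j y ≠ 0) (j0 : κ) (hj0 : g j0 x * g j0 y < 0) :
    ∃ z : V, (∀ j, g j z ≠ 0) ∧ ∃ j, g j x * g j y < 0 ∧
      ∀ l, (g l x * g l z < 0 ↔ ∃ c : ℝ, g l = c • g j) := by
  classical
  have := Fintype.ofFinite κ
  -- perturb y
  obtain ⟨y', hy1, hy2⟩ := exists_perturb g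
    (fun p : {p : κ × κ // g p.1 x • g p.2 - g p.2 x • g p.1 ≠ 0} =>
      g p.1.1 x • g p.1.2 - g p.1.2 x • g p.1.1) (fun p => p.2) y
  have hy' : ∀ j, g j y' ≠ 0 := by
    intro j h0
    have := hy1 j (hy j)
    rw [h0, sign_zero, eq_comm, sign_eq_zero_iff] at this
    exact hy j this
  have hs : ∀ j, (g j x * g j y' < 0 ↔ g j x * g j y < 0) := by
    intro j
    have h1 : SignType.sign (g j x * g j y') = SignType.sign (g j x * g j y) := by
      rw [sign_mul, sign_mul, hy1 j (hy j)]
    rw [← sign_eq_neg_one_iff, h1, sign_eq_neg_one_iff]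
  -- crossing times
  set t : κ → ℝ := fun l => g l x / (g l x - g l y') with ht
  have hden : ∀ l, g l x * g l y' < 0 → g l x - g l y' ≠ 0 := by
    intro l hl h0
    have : g l x = g l y' := by linarith
    rw [this] at hl
    nlinarith [mul_self_nonneg (g l y')]
  obtain ⟨j, hjS, hjmin⟩ : ∃ j ∈ Finset.univ.filter (fun l => g l x * g l y' < 0),
      ∀ l ∈ Finset.univ.filter (fun l => g l x * g l y' < 0), t j ≤ t l := by
    apply Finset.exists_min_image
    exact ⟨j0, by simp [(hs j0).2 hj0]⟩
  have hj : g j x * g j y' < 0 := by simpa using hjS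
  have hjm : ∀ l, g l x * g l y' < 0 → t j ≤ t l := fun l hl => hjmin l (by simpa using hl)
  have htj : t j * (g j x - g j y') = g j x := by
    rw [ht]; field_simp [hden j hj]
  have htj0 : 0 < t j ∧ t j < 1 := by
    have hd := hden j hj
    rcases lt_or_gt_of_ne (hx j) with h | h
    · have h2 : 0 < g j y' := by
        by_contra hcon; push Not at hcon
        nlinarith [mul_nonneg_of_nonpos_of_nonpos h.le hcon]
      constructor
      · exact div_pos_of_neg_of_neg h (by linarith)
      · rw [ht]; simp only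
        rw [div_lt_one_of_neg (by linarith)]; linarith
    · have h2 : g j y' < 0 := by
        by_contra hcon; push Not at hcon
        nlinarith [mul_nonneg h.le hcon]
      constructor
      · exact div_pos h (by linarith)
      · rw [ht]; simp only
        rw [div_lt_one (by linarith)]; linarith
  set m : V := x + t j • (y' - x) with hm
  have hgm : ∀ l, g l m = g l x - t j * (g l x - g l y') := by
    intro l
    simp only [hm, map_add, map_smul, map_sub, smul_eq_mul]; ring
  have hev : ∀ᶠ ε in 𝓝[>] (0 : ℝ), ∀ l, SignType.sign (g l (m + ε • (y' - x))) =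
        if g l m = 0 then SignType.sign (g l (y' - x)) else SignType.sign (g l m) := by
    rw [eventually_all]
    intro l
    exact ev_sign (g l) m (y' - x)
  obtain ⟨ε, hε⟩ := hev.exists
  -- parallel iff zero at m
  have hpar : ∀ l, (∃ c : ℝ, g l = c • g j) → g l m = 0 := by
    rintro l ⟨c, hc⟩
    rw [hgm l, hc]
    simp only [LinearMap.smul_apply, smul_eq_mul]
    have : c * g j x - t j * (c * g j x - c * g j y') = c * (g j x - t j * (g j x - g j y')) := by
      ring
    rw [this, htj]; ring
  have hpar2 : ∀ l, g l m = 0 → ∃ c : ℝ, g l = c • g j := by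
    intro l hl
    by_contra hcon
    have hne : g j x • g l - g l x • g j ≠ 0 := by
      intro h0
      apply hcon
      refine ⟨g l x / g j x, ?_⟩
      have h1 : g j x • g l = g l x • g j := sub_eq_zero.mp h0
      rw [div_eq_inv_mul, mul_smul, ← h1, smul_smul, inv_mul_cancel₀ (hx j), one_smul]
    have h3 := hy2 ⟨(j, l), hne⟩
    apply h3
    simp only [LinearMap.sub_apply, LinearMap.smul_apply, smul_eq_mul]
    rw [hgm l] at hl
    have h4 : g l x * (g j x - g j y') = g j x * (g l x - g l y') := by
      have h5 : g l x = t j * (g l x - g l y') := by linarith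
      calc g l x * (g j x - g j y') = (t j * (g l x - g l y')) * (g j x - g j y') := by rw [← h5]
        _ = (t j * (g j x - g j y')) * (g l x - g l y') := by ring
        _ = g j x * (g l x - g l y') := by rw [htj]
    linarith
  refine ⟨m + ε • (y' - x), ?_, j, (hs j).1 hj, ?_⟩
  · intro l h0
    have h1 := hε l
    rw [h0, sign_zero] at h1
    by_cases hl : g l m = 0
    · rw [if_pos hl, eq_comm, sign_eq_zero_iff, map_sub] at h1
      have h2 : g l m = g l x := by rw [hgm l]; rw [show g l x - g l y' = 0 by linarith]; ring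
      exact hx l (by rw [← h2, hl])
    · rw [if_neg hl, eq_comm, sign_eq_zero_iff] at h1
      exact hl h1
  · intro l
    constructor
    · intro hneg
      apply hpar2
      by_contra hl
      have h1 := hε l
      rw [if_neg hl] at h1
      -- sign of g l z = sign g l m; need product with g l x positive
      have h2 : SignType.sign (g l x * g l m) = -1 := by
        rw [sign_mul, ← h1, ← sign_mul, sign_eq_neg_one_iff]; exact hneg
      rw [sign_eq_neg_one_iff] at h2
      by_cases hlS : g l x * g l y' < 0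
      · have h3 := hjm l hlS
        have h4 : t l * (g l x - g l y') = g l x := by
          rw [ht]; field_simp [hden l hlS]
        have h5 : g l m = (t l - t j) * (g l x - g l y') := by rw [hgm l, sub_mul, h4]
        have h6 : 0 ≤ g l x * g l m := by
          rw [h5]
          have h7 : 0 ≤ g l x * (g l x - g l y') := by nlinarith [mul_self_nonneg (g l x)]
          have h8 : 0 ≤ t l - t j := by linarith
          nlinarith [mul_nonneg h8 h7]
        linarith
      · push Not at hlS
        have h6 : 0 ≤ g l x * g l m := by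
          rw [hgm l]
          have : g l x * (g l x - t j * (g l x - g l y')) =
            (1 - t j) * (g l x * g l x) + t j * (g l x * g l y') := by ring
          rw [this]
          have := mul_self_nonneg (g l x)
          nlinarith [mul_nonneg (by linarith [htj0.2] : (0:ℝ) ≤ 1 - t j) this,
            mul_nonneg htj0.1.le hlS]
        linarith
    · intro hp
      have hl := hpar l hp
      have h1 := hε l
      rw [if_pos hl] at h1
      obtain ⟨c, hc⟩ := hp
      have h2 : g l x * g l y' < 0 := by
        have hc0 : c ≠ 0 := by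
          rintro rfl
          apply hx l
          rw [hc]; simp
        rw [hc]
        simp only [LinearMap.smul_apply, smul_eq_mul]
        have : c * g j x * (c * g j y') = (c * c) * (g j x * g j y') := by ring
        rw [this]
        exact mul_neg_of_pos_of_neg (mul_self_pos.mpr hc0) hj
      rw [← sign_eq_neg_one_iff, sign_mul, h1, ← sign_mul, sign_eq_neg_one_iff, map_sub]
      nlinarith [mul_self_nonneg (g l x)]

end Geometry

/-- normals of the 18 lines -/
def VL : List (ℤ × ℤ × ℤ) :=
  [
   (3, 1, 5), (3, -1, 5), (-3, 1, 5), (-3, -1, 5), (4, 3, 4), (4, -3, 4), (-4, 3, 4),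
   (-4, -3, 4), (2, 3, 7), (2, -3, 7), (-2, 3, 7), (-2, -3, 7), (5, 0, 2), (2, 5, 0),
   (0, 1, 7), (-5, 0, 2), (-2, 5, 0), (0, -1, 7)]

/-- one integer point in every one of the 308 open cones; the point `(x, y, z)` is coded by
`(x + 50) + 100 * (y + 50) + 10000 * (z + 50)` -/
def WL : List ℕ :=
  [
   494950, 474751, 474749, 494850, 474351, 474349, 494750, 473751, 473749, 494450, 484951,
   494951, 484853, 283782, 464757, 444562, 433653, 474452, 494852, 494753, 464558, 494853,
   484551, 463954, 494562, 494553, 494455, 483762, 484451, 494651, 462366, 462352, 475051,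
   485051, 475153, 474953, 485053, 475155, 474955, 495052, 495153, 494953, 495054, 505153,
   484949, 494949, 484847, 433647, 283718, 464743, 444538, 474448, 494848, 494747, 484549,
   463946, 464542, 494847, 494547, 494445, 484449, 494649, 462348, 462334, 483738, 494538,
   475049, 495150, 475351, 475349, 495250, 475751, 475749, 495350, 476351, 476349, 495650,
   485151, 495151, 485253, 286382, 465357, 445562, 436453, 475652, 495252, 495353, 465558,
   495253, 485551, 466154, 495562, 495553, 495655, 486362, 485651, 495451, 467766, 467752,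
   495850, 495859, 505152, 495856, 505151, 495854, 505251, 505451, 515854, 515856, 515859,
   485049, 475147, 474947, 485047, 475145, 474945, 495048, 495147, 494947, 495046, 485149,
   495149, 485247, 436447, 286318, 465343, 445538, 475648, 495248, 495347, 485549, 466146,
   465542, 495247, 495547, 495645, 485649, 495449, 467748, 467734, 486338, 495538, 505147,
   495841, 495844, 495846, 505449, 505249, 515846, 505149, 515844, 505148, 515841, 515850,
   494250, 494259, 504952, 494256, 504951, 494254, 504851, 504651, 514254, 514256, 514259,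
   504953, 514562, 523762, 542366, 542352, 514651, 524451, 514455, 514553, 514853, 544558,
   543954, 524551, 514753, 514852, 534452, 564562, 544757, 723782, 573653, 524853, 514951,
   524951, 515054, 515153, 514953, 515052, 535155, 534955, 525053, 535153, 534953, 525051,
   494241, 494244, 494246, 504649, 504849, 514246, 504949, 514244, 504948, 514241, 514250,
   542348, 542334, 514649, 524449, 523738, 514445, 514547, 514538, 543946, 524549, 514847,
   544542, 514747, 514848, 534448, 573647, 564538, 544743, 723718, 524847, 514949, 524949,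
   514450, 533751, 533749, 514750, 534351, 534349, 514850, 534751, 534749, 514950, 535051,
   515562, 526362, 547766, 547752, 515451, 525651, 515655, 515553, 515253, 545558, 546154,
   525551, 515353, 515252, 535652, 565562, 545357, 726382, 576453, 525253, 515151, 525151,
   504947, 515046, 515147, 514947, 515048, 535145, 534945, 525047, 535147, 534947, 525049,
   535049, 547748, 547734, 515449, 525649, 526338, 515645, 515547, 515538, 546146, 525549,
   515247, 545542, 515347, 515248, 535648, 576447, 565538, 545343, 726318, 525247, 515149,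
   525149, 515650, 536351, 536349, 515350, 535751, 535749, 515250, 535351, 535349, 515150]

/-- for every line the set of cones on its positive side, as a bit set -/
def BL : List ℕ :=
  [
   521472609500792879643639611500469916141784966428076549861339671161772415771629845718753640448,
   518845460044944877109842842180671536655061208235401564175373882807973194152576488669894726272,
   521481209941628175241474998920475249523142555951366278248315673077310092977995214768704585728,
   519953432837956266571667406917677034449507034855843491028466538292039769160452439051109139200,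
   521425119239967196302008519143359394822816089883827450561417527540487058710175225607365910528,
   326180385816827057573685972680202410486433057167109273156257731999046874872582746581881584634,
   521481209941626811545636425765713674442407867427004951019895993855700587814358952703296536576,
   391616092795039937115000044203649931888883546687643894732920086851860624200843245385825715196,
   521481194399951229755435028471696935082082962365163584490338112986380701974015653772720603136,
   497542058755016252823008794726018754946903626837213144152253975466687868328803152349867410384,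
   521481209941628438077547730800308658377929800874964073232196531043034056136506190900920057856,
   505694165705101607297306055351121932068752164040180637135128979105495608609820788139556340704,
   520971951008282862220050320350198466041257880462971391585141141603296804894476521043977567232,
   521481209820241275091925088116806506907893859293037973041860095524789236089456502379038900224,
   521481209941598795309877343285950024512864052887286242665232218934194005548142769572184850432,
   521481209941598795316944731545885510640835809952307994702858461369897298757717898389417361408,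
   521481209941628438077654707973687271910842718798343969182837377544151712344332717865064988672,
   521481209941628438084722096232800809229175908755643717079556596937789037228222274600825782272]

def V (i : ℕ) : ℤ × ℤ × ℤ := VL.getD i (0, 0, 0)
def dec (c : ℕ) : ℤ × ℤ × ℤ :=
  (((c % 100 : ℕ) : ℤ) - 50, ((c / 100 % 100 : ℕ) : ℤ) - 50, ((c / 10000 : ℕ) : ℤ) - 50)
def W (t : ℕ) : ℤ × ℤ × ℤ := dec (WL.getD t 0)
def B (i : ℕ) : ℕ := BL.getD i 0

def dt (u w : ℤ × ℤ × ℤ) : ℤ := u.1 * w.1 + u.2.1 * w.2.1 + u.2.2 * w.2.2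

def det3 (u v w : ℤ × ℤ × ℤ) : ℤ :=
  u.1 * (v.2.1 * w.2.2 - v.2.2 * w.2.1) - u.2.1 * (v.1 * w.2.2 - v.2.2 * w.1) +
    u.2.2 * (v.1 * w.2.1 - v.2.1 * w.1)

/-- all triples are independent -/
def chkDet : Bool :=
  (List.range 18).all fun c => (List.range 18).all fun b => (List.range 18).all fun a =>
    (a == b) || (a == c) || (b == c) || !(det3 (V a) (V b) (V c) == 0)

/-- the bit sets are correct -/
def chkW : Bool :=
  (List.range 18).all fun i => (List.range 308).all fun t =>
    !(dt (V i) (W t) == 0) && (decide (0 < dt (V i) (W t)) == (B i).testBit t)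

def FULL : ℕ := 2 ^ 308 - 1

/-- cones on the side `p` of the line `i` -/
def sel (i : ℕ) (p : Bool) : ℕ := cond p (B i &&& FULL) (FULL ^^^ (B i &&& FULL))

/-- exactly two of four -/
def two (a b c d : Bool) : Bool :=
  match a, b, c, d with
  | true, true, false, false => true
  | true, false, true, false => true
  | true, false, false, true => true
  | false, true, true, false => true
  | false, true, false, true => true
  | false, false, true, true => true
  | _, _, _, _ => false

/-- some line separates two cones of the set `X` -/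
def cut (X : ℕ) : Bool :=
  (List.range 18).any fun e => !((X &&& B e) == 0) && !((X &&& B e) == X)

def bools : List Bool := [true, false]

def quadOK (a b c d : ℕ) (ma mb mc md : Bool) : Bool :=
  bools.all fun pa => bools.all fun pb => bools.all fun pc => bools.all fun pd =>
    !(two (pa == ma) (pb == mb) (pc == mc) (pd == md)) ||
      cut (sel a pa &&& sel b pb &&& (sel c pc &&& sel d pd))

def chkQuad : Bool :=
  (List.range 18).all fun d => (List.range d).all fun c => (List.range c).all fun b =>
    (List.range b).all fun a =>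
      quadOK a b c d (decide (0 < det3 (V b) (V c) (V d))) (decide (det3 (V a) (V c) (V d) < 0))
        (decide (0 < det3 (V a) (V b) (V d))) (decide (det3 (V a) (V b) (V c) < 0))

theorem chkDet_true : chkDet = true := by decide +kernel
theorem chkW_true : chkW = true := by decide +kernel
theorem chkQuad_true : chkQuad = true := by decide +kernel

/-- a real point from an integer one -/
def toR (u : ℤ × ℤ × ℤ) : Fin 3 → ℝ := ![(u.1 : ℝ), (u.2.1 : ℝ), (u.2.2 : ℝ)]

/-- linear functional of the `i`-th line -/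
def g (i : Fin 18) : (Fin 3 → ℝ) →ₗ[ℝ] ℝ where
  toFun x := dotProduct (toR (V i)) x
  map_add' := by intro x y; exact dotProduct_add _ _ _
  map_smul' := by intro c x; exact dotProduct_smul _ _ _

theorem g_apply (i : Fin 18) (x : Fin 3 → ℝ) :
    g i x = ((V i).1 : ℝ) * x 0 + ((V i).2.1 : ℝ) * x 1 + ((V i).2.2 : ℝ) * x 2 := by
  change dotProduct (toR (V i)) x = _
  simp [dotProduct, Fin.sum_univ_three, toR]

theorem g_toR (i : Fin 18) (u : ℤ × ℤ × ℤ) : g i (toR u) = ((dt (V i) u : ℤ) : ℝ) := by
  rw [g_apply]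
  simp [toR, dt]

theorem det_ne (a b c : Fin 18) (hab : a ≠ b) (hac : a ≠ c) (hbc : b ≠ c) :
    det3 (V a) (V b) (V c) ≠ 0 := by
  have h := chkDet_true
  unfold chkDet at h
  simp only [List.all_eq_true, List.mem_range] at h
  have h1 := h c c.2 b b.2 a a.2
  have e1 : ((a : ℕ) == (b : ℕ)) = false := by
    rw [beq_eq_false_iff_ne]; exact fun h => hab (Fin.ext h)
  have e2 : ((a : ℕ) == (c : ℕ)) = false := by
    rw [beq_eq_false_iff_ne]; exact fun h => hac (Fin.ext h)
  have e3 : ((b : ℕ) == (c : ℕ)) = false := by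
    rw [beq_eq_false_iff_ne]; exact fun h => hbc (Fin.ext h)
  rw [e1, e2, e3] at h1
  simpa using h1

theorem indep (i j k : Fin 18) (hij : i ≠ j) (hik : i ≠ k) (hjk : j ≠ k) :
    LinearIndependent ℝ ![toR (V i), toR (V j), toR (V k)] := by
  have h := Matrix.linearIndependent_rows_of_det_ne_zero
    (A := Matrix.of ![toR (V i), toR (V j), toR (V k)]) (by
      have hd := det_ne i j k hij hik hjk
      rw [Matrix.det_fin_three]
      simp only [Matrix.of_apply, Matrix.cons_val_zero, Matrix.cons_val_one, Matrix.cons_val,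
        toR]
      have : ((det3 (V i) (V j) (V k) : ℤ) : ℝ) ≠ 0 := by exact_mod_cast hd
      unfold det3 at this
      push_cast at this
      intro h0
      apply this
      rw [← h0]
      ring)
  exact h

theorem parallel {i l : Fin 18} {c : ℝ} (h : g l = c • g i) : l = i := by
  by_contra hne
  obtain ⟨k, hk1, hk2⟩ : ∃ k : Fin 18, k ≠ l ∧ k ≠ i := by
    by_cases h0 : (0 : Fin 18) ≠ l ∧ (0 : Fin 18) ≠ i
    · exact ⟨0, h0⟩
    · by_cases h1 : (1 : Fin 18) ≠ l ∧ (1 : Fin 18) ≠ i
      · exact ⟨1, h1⟩
      · refine ⟨2, ?_, ?_⟩ <;> omega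
  have hind := indep l i k hne (Ne.symm hk1) (Ne.symm hk2)
  have hv : toR (V l) = c • toR (V i) := by
    ext t
    have := LinearMap.congr_fun h (Pi.single t 1)
    simpa [g] using this
  rw [Fintype.linearIndependent_iff] at hind
  have := hind ![1, -c, 0] (by
    simp only [Fin.sum_univ_three, Matrix.cons_val_zero, Matrix.cons_val_one, Matrix.cons_val]
    rw [hv]
    simp) 0
  simp at this

/-- a point on the prescribed side of all walls of a cell lies in the cell -/
theorem same_cell {x y : Fin 3 → ℝ} (hx : ∀ i, g i x ≠ 0) (hy : ∀ i, g i y ≠ 0)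
    (hw : ∀ i, (∃ z, g i x * g i z < 0 ∧ ∀ j, j ≠ i → 0 < g j x * g j z) →
      0 < g i x * g i y) : ∀ i, 0 < g i x * g i y := by
  intro i
  by_contra hcon
  have hne : g i x * g i y ≠ 0 := mul_ne_zero (hx i) (hy i)
  have hlt : g i x * g i y < 0 := lt_of_le_of_ne (not_lt.1 hcon) hne
  obtain ⟨z, hz, j, hj, hl⟩ := gallery_step g hx hy i hlt
  have h1 : g j x * g j z < 0 := (hl j).2 ⟨1, by rw [one_smul]⟩
  have h2 : ∀ l, l ≠ j → 0 < g l x * g l z := by
    intro l hlj
    by_contra h3
    have h4 : g l x * g l z < 0 := lt_of_le_of_ne (not_lt.1 h3) (mul_ne_zero (hx l) (hz l))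
    obtain ⟨c, hc⟩ := (hl l).1 h4
    exact hlj (parallel hc)
  have := hw j ⟨z, h1, h2⟩
  linarith

theorem witness (t : ℕ) (ht : t < 308) (i : Fin 18) :
    g i (toR (W t)) ≠ 0 ∧ (0 < g i (toR (W t)) ↔ (B i).testBit t = true) := by
  have h := chkW_true
  unfold chkW at h
  simp only [List.all_eq_true, List.mem_range] at h
  have h1 := h i i.2 t ht
  rw [Bool.and_eq_true] at h1
  obtain ⟨h2, h3⟩ := h1
  rw [g_toR]
  constructor
  · have : dt (V i) (W t) ≠ 0 := by simpa using h2
    exact_mod_cast this
  · rw [beq_iff_eq] at h3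
    rw [← h3, decide_eq_true_iff]
    exact_mod_cast Iff.rfl

theorem testBit_FULL (t : ℕ) : FULL.testBit t = decide (t < 308) := by
  unfold FULL
  rw [Nat.testBit_two_pow_sub_one]

theorem testBit_sel (i : ℕ) (p : Bool) (t : ℕ) :
    (sel i p).testBit t = true ↔ t < 308 ∧ (B i).testBit t = p := by
  cases p
  · simp only [sel, cond_false, Nat.testBit_xor, Nat.testBit_and, testBit_FULL]
    by_cases ht : t < 308 <;> cases (B i).testBit t <;> simp [ht]
  · simp only [sel, cond_true, Nat.testBit_and, testBit_FULL]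
    by_cases ht : t < 308 <;> cases (B i).testBit t <;> simp [ht]

theorem cut_spec {X : ℕ} (h : cut X = true) : ∃ e : Fin 18, ∃ t1 t2 : ℕ,
    X.testBit t1 = true ∧ X.testBit t2 = true ∧ (B e).testBit t1 = true ∧
      (B e).testBit t2 = false := by
  unfold cut at h
  rw [List.any_eq_true] at h
  obtain ⟨e, he, h1⟩ := h
  rw [List.mem_range] at he
  rw [Bool.and_eq_true] at h1
  obtain ⟨h2, h3⟩ := h1
  have h2' : X &&& B e ≠ 0 := by simpa using h2
  have h3' : X &&& B e ≠ X := by simpa using h3
  obtain ⟨t1, ht1⟩ := Nat.exists_testBit_of_ne_zero h2'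
  obtain ⟨t2, ht2⟩ := Nat.exists_testBit_ne_of_ne h3'
  rw [Nat.testBit_and, Bool.and_eq_true] at ht1
  rw [Nat.testBit_and] at ht2
  refine ⟨⟨e, he⟩, t1, t2, ht1.1, ?_, ht1.2, ?_⟩
  · cases hX : X.testBit t2
    · rw [hX] at ht2; simp at ht2
    · rfl
  · cases hB : (B e).testBit t2
    · rfl
    · rw [hB] at ht2; simp at ht2

theorem two_of (ea eb ec ed : Bool)
    (h0 : ¬ (ea = true ∧ eb = true ∧ ec = true ∧ ed = true))
    (h0' : ¬ (ea = false ∧ eb = false ∧ ec = false ∧ ed = false))
    (h1 : ¬ (ea = false ∧ eb = true ∧ ec = true ∧ ed = true))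
    (h1' : ¬ (ea = true ∧ eb = false ∧ ec = false ∧ ed = false))
    (h2 : ¬ (ea = true ∧ eb = false ∧ ec = true ∧ ed = true))
    (h2' : ¬ (ea = false ∧ eb = true ∧ ec = false ∧ ed = false))
    (h3 : ¬ (ea = true ∧ eb = true ∧ ec = false ∧ ed = true))
    (h3' : ¬ (ea = false ∧ eb = false ∧ ec = true ∧ ed = false))
    (h4 : ¬ (ea = true ∧ eb = true ∧ ec = true ∧ ed = false))
    (h4' : ¬ (ea = false ∧ eb = false ∧ ec = false ∧ ed = true)) :
    two ea eb ec ed = true := by
  revert h0 h0' h1 h1' h2 h2' h3 h3' h4 h4'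
  cases ea <;> cases eb <;> cases ec <;> cases ed <;> simp [two]

/-- side bit of a point relative to a line, compared with the orientation bit -/
theorem bit_eq {p m : ℝ} (hp : p ≠ 0) (hm : m ≠ 0) :
    (decide (0 < p) == decide (0 < m)) = decide (0 < m * p) := by
  rcases lt_or_gt_of_ne hp with h1 | h1 <;> rcases lt_or_gt_of_ne hm with h2 | h2
  · have e1 : ¬ (0 < p) := by linarith
    have e2 : ¬ (0 < m) := by linarith
    have e3 : 0 < m * p := mul_pos_of_neg_of_neg h2 h1
    simp [e1, e2, e3]
  · have e1 : ¬ (0 < p) := by linarith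
    have e3 : ¬ (0 < m * p) := by
      have := mul_neg_of_pos_of_neg h2 h1
      linarith
    simp [e1, h2, e3]
  · have e2 : ¬ (0 < m) := by linarith
    have e3 : ¬ (0 < m * p) := by
      have := mul_neg_of_neg_of_pos h2 h1
      linarith
    simp [h1, e2, e3]
  · have e3 : 0 < m * p := mul_pos h2 h1
    simp [h1, h2, e3]

theorem no_quad (x : Fin 3 → ℝ) (hx : ∀ i, g i x ≠ 0) (a b c d : Fin 18)
    (hab : a < b) (hbc : b < c) (hcd : c < d)
    (hS : ∀ i, (∃ z, g i x * g i z < 0 ∧ ∀ j, j ≠ i → 0 < g j x * g j z) ↔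
      i = a ∨ i = b ∨ i = c ∨ i = d) : False := by
  have hac : a < c := hab.trans hbc
  have had : a < d := hac.trans hcd
  have hbd : b < d := hbc.trans hcd
  -- orientation coefficients
  obtain ⟨μa, hμa⟩ : ∃ r : ℤ, r = det3 (V b) (V c) (V d) := ⟨_, rfl⟩
  obtain ⟨μb, hμb⟩ : ∃ r : ℤ, r = - det3 (V a) (V c) (V d) := ⟨_, rfl⟩
  obtain ⟨μc, hμc⟩ : ∃ r : ℤ, r = det3 (V a) (V b) (V d) := ⟨_, rfl⟩
  obtain ⟨μd, hμd⟩ : ∃ r : ℤ, r = - det3 (V a) (V b) (V c) := ⟨_, rfl⟩
  have ha0 : (μa : ℝ) ≠ 0 := by
    rw [hμa]; exact_mod_cast det_ne b c d hbc.ne hbd.ne hcd.ne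
  have hb0 : (μb : ℝ) ≠ 0 := by
    rw [hμb]; push_cast; rw [neg_ne_zero]; exact_mod_cast det_ne a c d hac.ne had.ne hcd.ne
  have hc0 : (μc : ℝ) ≠ 0 := by
    rw [hμc]; exact_mod_cast det_ne a b d hab.ne had.ne hbd.ne
  have hd0 : (μd : ℝ) ≠ 0 := by
    rw [hμd]; push_cast; rw [neg_ne_zero]; exact_mod_cast det_ne a b c hab.ne hac.ne hbc.ne
  have hrel : ∀ z : Fin 3 → ℝ, (μa : ℝ) * g a z + (μb : ℝ) * g b z + (μc : ℝ) * g c z +
      (μd : ℝ) * g d z = 0 := by
    intro z
    rw [hμa, hμb, hμc, hμd, g_apply, g_apply, g_apply, g_apply]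
    unfold det3
    push_cast
    ring
  -- no point has all four products of the same sign
  have hno : ∀ z : Fin 3 → ℝ, ¬ (0 < (μa : ℝ) * g a z ∧ 0 < (μb : ℝ) * g b z ∧
      0 < (μc : ℝ) * g c z ∧ 0 < (μd : ℝ) * g d z) := by
    rintro z ⟨h1, h2, h3, h4⟩
    have := hrel z
    linarith
  have hno' : ∀ z : Fin 3 → ℝ, ¬ ((μa : ℝ) * g a z < 0 ∧ (μb : ℝ) * g b z < 0 ∧
      (μc : ℝ) * g c z < 0 ∧ (μd : ℝ) * g d z < 0) := by
    rintro z ⟨h1, h2, h3, h4⟩
    have := hrel z
    linarith
  have hpos : ∀ (m p q : ℝ), 0 < p * q → 0 < m * p → 0 < m * q := by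
    intro m p q h1 h2
    by_contra h3
    have h4 : 0 < (p * q) * (m * m) := by
      have : m ≠ 0 := by rintro rfl; simp at h2
      exact mul_pos h1 (mul_self_pos.mpr this)
    nlinarith
  have hneg : ∀ (m p q : ℝ), 0 < p * q → m * p < 0 → m * q < 0 := by
    intro m p q h1 h2
    have := hpos (-m) p q h1 (by linarith)
    linarith
  have hposf : ∀ (m p q : ℝ), p * q < 0 → 0 < m * p → m * q < 0 := by
    intro m p q h1 h2
    have := hpos m p (-q) (by linarith) h2
    linarith
  have hnegf : ∀ (m p q : ℝ), p * q < 0 → m * p < 0 → 0 < m * q := by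
    intro m p q h1 h2
    have := hpos (-m) p (-q) (by linarith) (by linarith)
    linarith
  obtain ⟨za, hza, hza'⟩ := (hS a).2 (Or.inl rfl)
  obtain ⟨zb, hzb, hzb'⟩ := (hS b).2 (Or.inr (Or.inl rfl))
  obtain ⟨zc, hzc, hzc'⟩ := (hS c).2 (Or.inr (Or.inr (Or.inl rfl)))
  obtain ⟨zd, hzd, hzd'⟩ := (hS d).2 (Or.inr (Or.inr (Or.inr rfl)))
  have hnz : ∀ (m p : ℝ), m ≠ 0 → p ≠ 0 → ¬ (0 < m * p) → m * p < 0 := by
    intro m p h1 h2 h3
    exact lt_of_le_of_ne (not_lt.1 h3) (mul_ne_zero h1 h2)
  have htwo : two (decide (0 < (μa : ℝ) * g a x)) (decide (0 < (μb : ℝ) * g b x))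
      (decide (0 < (μc : ℝ) * g c x)) (decide (0 < (μd : ℝ) * g d x)) = true := by
    apply two_of
    · rintro ⟨h1, h2, h3, h4⟩
      rw [decide_eq_true_iff] at h1 h2 h3 h4
      exact hno x ⟨h1, h2, h3, h4⟩
    · rintro ⟨h1, h2, h3, h4⟩
      rw [decide_eq_false_iff_not] at h1 h2 h3 h4
      exact hno' x ⟨hnz _ _ ha0 (hx a) h1, hnz _ _ hb0 (hx b) h2, hnz _ _ hc0 (hx c) h3,
        hnz _ _ hd0 (hx d) h4⟩
    · rintro ⟨h1, h2, h3, h4⟩
      rw [decide_eq_true_iff] at h2 h3 h4
      rw [decide_eq_false_iff_not] at h1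
      exact hno za ⟨hnegf _ _ _ hza (hnz _ _ ha0 (hx a) h1), hpos _ _ _ (hza' b hab.ne') h2,
        hpos _ _ _ (hza' c hac.ne') h3, hpos _ _ _ (hza' d had.ne') h4⟩
    · rintro ⟨h1, h2, h3, h4⟩
      rw [decide_eq_true_iff] at h1
      rw [decide_eq_false_iff_not] at h2 h3 h4
      exact hno' za ⟨hposf _ _ _ hza h1, hneg _ _ _ (hza' b hab.ne') (hnz _ _ hb0 (hx b) h2),
        hneg _ _ _ (hza' c hac.ne') (hnz _ _ hc0 (hx c) h3),
        hneg _ _ _ (hza' d had.ne') (hnz _ _ hd0 (hx d) h4)⟩
    · rintro ⟨h1, h2, h3, h4⟩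
      rw [decide_eq_true_iff] at h1 h3 h4
      rw [decide_eq_false_iff_not] at h2
      exact hno zb ⟨hpos _ _ _ (hzb' a hab.ne) h1, hnegf _ _ _ hzb (hnz _ _ hb0 (hx b) h2),
        hpos _ _ _ (hzb' c hbc.ne') h3, hpos _ _ _ (hzb' d hbd.ne') h4⟩
    · rintro ⟨h1, h2, h3, h4⟩
      rw [decide_eq_true_iff] at h2
      rw [decide_eq_false_iff_not] at h1 h3 h4
      exact hno' zb ⟨hneg _ _ _ (hzb' a hab.ne) (hnz _ _ ha0 (hx a) h1), hposf _ _ _ hzb h2,
        hneg _ _ _ (hzb' c hbc.ne') (hnz _ _ hc0 (hx c) h3),
        hneg _ _ _ (hzb' d hbd.ne') (hnz _ _ hd0 (hx d) h4)⟩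
    · rintro ⟨h1, h2, h3, h4⟩
      rw [decide_eq_true_iff] at h1 h2 h4
      rw [decide_eq_false_iff_not] at h3
      exact hno zc ⟨hpos _ _ _ (hzc' a hac.ne) h1, hpos _ _ _ (hzc' b hbc.ne) h2,
        hnegf _ _ _ hzc (hnz _ _ hc0 (hx c) h3), hpos _ _ _ (hzc' d hcd.ne') h4⟩
    · rintro ⟨h1, h2, h3, h4⟩
      rw [decide_eq_true_iff] at h3
      rw [decide_eq_false_iff_not] at h1 h2 h4
      exact hno' zc ⟨hneg _ _ _ (hzc' a hac.ne) (hnz _ _ ha0 (hx a) h1),
        hneg _ _ _ (hzc' b hbc.ne) (hnz _ _ hb0 (hx b) h2), hposf _ _ _ hzc h3,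
        hneg _ _ _ (hzc' d hcd.ne') (hnz _ _ hd0 (hx d) h4)⟩
    · rintro ⟨h1, h2, h3, h4⟩
      rw [decide_eq_true_iff] at h1 h2 h3
      rw [decide_eq_false_iff_not] at h4
      exact hno zd ⟨hpos _ _ _ (hzd' a had.ne) h1, hpos _ _ _ (hzd' b hbd.ne) h2,
        hpos _ _ _ (hzd' c hcd.ne) h3, hnegf _ _ _ hzd (hnz _ _ hd0 (hx d) h4)⟩
    · rintro ⟨h1, h2, h3, h4⟩
      rw [decide_eq_true_iff] at h4
      rw [decide_eq_false_iff_not] at h1 h2 h3
      exact hno' zd ⟨hneg _ _ _ (hzd' a had.ne) (hnz _ _ ha0 (hx a) h1),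
        hneg _ _ _ (hzd' b hbd.ne) (hnz _ _ hb0 (hx b) h2),
        hneg _ _ _ (hzd' c hcd.ne) (hnz _ _ hc0 (hx c) h3), hposf _ _ _ hzd h4⟩
  -- use the table
  have hq := chkQuad_true
  unfold chkQuad at hq
  simp only [List.all_eq_true, List.mem_range] at hq
  have hq1 := hq d d.2 c hcd b hbc a hab
  have m1 : decide (0 < det3 (V b) (V c) (V d)) = decide (0 < (μa : ℝ)) := by
    rw [hμa]; apply decide_eq_decide.2; exact_mod_cast Iff.rfl
  have m2 : decide (det3 (V a) (V c) (V d) < 0) = decide (0 < (μb : ℝ)) := by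
    rw [hμb]; apply decide_eq_decide.2
    rw [Int.cast_neg, neg_pos]; exact_mod_cast Iff.rfl
  have m3 : decide (0 < det3 (V a) (V b) (V d)) = decide (0 < (μc : ℝ)) := by
    rw [hμc]; apply decide_eq_decide.2; exact_mod_cast Iff.rfl
  have m4 : decide (det3 (V a) (V b) (V c) < 0) = decide (0 < (μd : ℝ)) := by
    rw [hμd]; apply decide_eq_decide.2
    rw [Int.cast_neg, neg_pos]; exact_mod_cast Iff.rfl
  rw [m1, m2, m3, m4] at hq1
  unfold quadOK at hq1
  simp only [List.all_eq_true] at hq1
  have hmem : ∀ p : Bool, p ∈ bools := by decide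
  have hq2 := hq1 (decide (0 < g a x)) (hmem _) (decide (0 < g b x)) (hmem _)
    (decide (0 < g c x)) (hmem _) (decide (0 < g d x)) (hmem _)
  rw [bit_eq (hx a) ha0, bit_eq (hx b) hb0, bit_eq (hx c) hc0, bit_eq (hx d) hd0, htwo] at hq2
  obtain ⟨e, t1, t2, h1, h2, h3, h4⟩ := cut_spec (by simpa using hq2)
  simp only [Nat.testBit_and, Bool.and_eq_true] at h1 h2
  have key : ∀ t, ((sel a (decide (0 < g a x))).testBit t = true ∧
      (sel b (decide (0 < g b x))).testBit t = true) ∧
      (sel c (decide (0 < g c x))).testBit t = true ∧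
      (sel d (decide (0 < g d x))).testBit t = true →
      t < 308 ∧ ∀ i, 0 < g i x * g i (toR (W t)) := by
    rintro t ⟨⟨k1, k2⟩, k3, k4⟩
    rw [testBit_sel] at k1 k2 k3 k4
    refine ⟨k1.1, ?_⟩
    have hside : ∀ i : Fin 18, (B i).testBit t = decide (0 < g i x) →
        0 < g i x * g i (toR (W t)) := by
      intro i hi
      obtain ⟨w1, w2⟩ := witness t k1.1 i
      rcases lt_or_gt_of_ne (hx i) with h5 | h5
      · have h6 : ¬ (0 < g i x) := by linarith
        rw [decide_eq_false h6] at hi
        rcases lt_or_gt_of_ne w1 with h7 | h7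
        · exact mul_pos_of_neg_of_neg h5 h7
        · rw [w2.1 h7] at hi
          exact absurd hi (by decide)
      · rw [decide_eq_true h5] at hi
        exact mul_pos h5 (w2.2 hi)
    apply same_cell hx (fun i => (witness t k1.1 i).1)
    intro i hi
    rcases (hS i).1 hi with rfl | rfl | rfl | rfl
    · exact hside _ k1.2
    · exact hside _ k2.2
    · exact hside _ k3.2
    · exact hside _ k4.2
  obtain ⟨l1, s1⟩ := key t1 h1
  obtain ⟨l2, s2⟩ := key t2 h2
  have r1 := (witness t1 l1 e).2.2 h3
  have r2 : ¬ (0 < g e (toR (W t2))) := by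
    intro h5
    have := (witness t2 l2 e).2.1 h5
    rw [h4] at this
    exact absurd this (by decide)
  have r3 := s1 e
  have r4 := s2 e
  have r5 : 0 < g e x := by
    by_contra h5
    have : g e x < 0 := lt_of_le_of_ne (not_lt.1 h5) (hx e)
    nlinarith [mul_neg_of_neg_of_pos this r1]
  have r6 : 0 < g e (toR (W t2)) := by
    by_contra h5
    nlinarith [mul_nonpos_of_nonneg_of_nonpos r5.le (not_lt.1 h5)]
  exact r2 r6

/-- The negation of the preceding statement: For n ≥ 4 with n ≠ 6, 10, any n lines in the projective plane with no three concurrent (given by normals in ℝ³, any three independent) determine a face bounded by exactly 4 of the lines. -/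
theorem result :
    ¬ (∀ n : ℕ, 4 ≤ n → n ≠ 6 → n ≠ 10 →
      ∀ v : Fin n → (Fin 3 → ℝ),
        (∀ i j k : Fin n, i ≠ j → i ≠ k → j ≠ k →
          LinearIndependent ℝ ![v i, v j, v k]) →
        ∃ x : Fin 3 → ℝ, (∀ i : Fin n, dotProduct (v i) x ≠ 0) ∧
          {i : Fin n | ∃ y : Fin 3 → ℝ,
              dotProduct (v i) x * dotProduct (v i) y < 0 ∧
              ∀ j : Fin n, j ≠ i → 0 < dotProduct (v j) x * dotProduct (v j) y}.ncard = 4) := by
  intro H
  obtain ⟨x, hx, hcard⟩ := H 18 (by norm_num) (by norm_num) (by norm_num)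
    (fun i => toR (V i)) (fun i j k hij hik hjk => indep i j k hij hik hjk)
  set S : Set (Fin 18) := {i : Fin 18 | ∃ y : Fin 3 → ℝ,
              dotProduct (toR (V i)) x * dotProduct (toR (V i)) y < 0 ∧
              ∀ j : Fin 18, j ≠ i → 0 < dotProduct (toR (V j)) x * dotProduct (toR (V j)) y}
    with hS
  have hfin : S.Finite := Set.toFinite _
  have hc : hfin.toFinset.card = 4 := by
    rw [← Set.ncard_eq_toFinset_card S hfin]
    exact hcard
  set e := hfin.toFinset.orderEmbOfFin hc with he
  have hrange : ∀ i, i ∈ S ↔ i = e 0 ∨ i = e 1 ∨ i = e 2 ∨ i = e 3 := by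
    intro i
    have h1 : i ∈ S ↔ i ∈ Set.range e := by
      rw [he, Finset.range_orderEmbOfFin]
      simp
    rw [h1]
    constructor
    · rintro ⟨k, rfl⟩
      fin_cases k
      · exact Or.inl rfl
      · exact Or.inr (Or.inl rfl)
      · exact Or.inr (Or.inr (Or.inl rfl))
      · exact Or.inr (Or.inr (Or.inr rfl))
    · rintro (h | h | h | h)
      · exact ⟨0, h.symm⟩
      · exact ⟨1, h.symm⟩
      · exact ⟨2, h.symm⟩
      · exact ⟨3, h.symm⟩
  exact no_quad x hx (e 0) (e 1) (e 2) (e 3) (e.strictMono (by decide))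
    (e.strictMono (by decide)) (e.strictMono (by decide)) hrange

end Pool.Agent.S05468
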