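import Pool.Statements.S05486

set_option autoImplicit false
open Pool Pool.MP_476d97_co
open Finset

namespace Pool.Agent.S05486



abbrev I := Fin 4 × Fin 7

def S (H : Matrix I I ℤ) (i j k l : I) : ℤ := ∑ c, H i c * H j c * H k c * H l c

def N (H : Matrix I I ℤ) (i : I) : ℕ :=
  (univ.filter (fun t : I × I × I => (S H i t.1 t.2.1 t.2.2) ^ 2 = 400)).card

theorem N_const {G : Type} [Group G] (H : Matrix I I ℤ) (ψ : G → G → ℤ) (σ τ : I ≃ G)
    (r s : I → ℤ)
    (hψ : ∀ g h : G, ψ g h = 1 ∨ ψ g h = -1)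
    (hco : ∀ g h k : G, ψ g h * ψ (g * h) k = ψ g (h * k) * ψ h k)
    (hr : ∀ i, r i = 1 ∨ r i = -1)
    (hs : ∀ j, s j = 1 ∨ s j = -1)
    (hH : ∀ i j, H i j = r i * s j * ψ (σ i) (τ j)) (i i' : I) : N H i = N H i' := by
  have hψ2 : ∀ g h, ψ g h * ψ g h = 1 := by
    intro g h; rcases hψ g h with e | e <;> rw [e] <;> norm_num
  have hr2 : ∀ i, r i * r i = 1 := by intro i; rcases hr i with e | e <;> rw [e] <;> norm_num
  have hs2 : ∀ i, s i * s i = 1 := by intro i; rcases hs i with e | e <;> rw [e] <;> norm_num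
  set g : G := (σ i)⁻¹ * σ i' with hg
  let π : I ≃ I := (σ.trans (Equiv.mulRight g)).trans σ.symm
  let ρ : I ≃ I := (τ.trans (Equiv.mulLeft g⁻¹)).trans τ.symm
  have hπi : π i = i' := by simp [π, hg]
  let α : I → ℤ := fun x => r (π x) * ψ (σ x) g * r x
  let β : I → ℤ := fun y => s (ρ y) * ψ g (g⁻¹ * τ y) * s y
  have hα : ∀ x, α x * α x = 1 := by
    intro x
    have : α x * α x = (r (π x) * r (π x)) * (ψ (σ x) g * ψ (σ x) g) * (r x * r x) := by
      simp only [α]; ring
    rw [this, hr2, hψ2, hr2]; norm_num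
  have hβ : ∀ x, β x * β x = 1 := by
    intro x
    have : β x * β x = (s (ρ x) * s (ρ x)) * (ψ g (g⁻¹ * τ x) * ψ g (g⁻¹ * τ x)) * (s x * s x) := by
      simp only [β]; ring
    rw [this, hs2, hψ2, hs2]; norm_num
  have key : ∀ x y, H (π x) (ρ y) = α x * β y * H x y := by
    intro x y
    have e1 : σ (π x) = σ x * g := by simp [π]
    have e2 : τ (ρ y) = g⁻¹ * τ y := by simp [ρ]
    have h1 := hco (σ x) g (g⁻¹ * τ y)
    rw [mul_inv_cancel_left] at h1
    -- ψ x g * ψ (x g) (g⁻¹ y) = ψ x y * ψ g (g⁻¹ y)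
    have h2 : ψ (σ x * g) (g⁻¹ * τ y) = ψ (σ x) g * ψ g (g⁻¹ * τ y) * ψ (σ x) (τ y) := by
      calc ψ (σ x * g) (g⁻¹ * τ y) = (ψ (σ x) g * ψ (σ x) g) * ψ (σ x * g) (g⁻¹ * τ y) := by
            rw [hψ2, one_mul]
        _ = ψ (σ x) g * (ψ (σ x) g * ψ (σ x * g) (g⁻¹ * τ y)) := by ring
        _ = _ := by rw [h1]; ring
    rw [hH, e1, e2, h2, hH x y]
    have h3 : α x * β y * (r x * s y * ψ (σ x) (τ y)) =
      r (π x) * s (ρ y) * (ψ (σ x) g * ψ g (g⁻¹ * τ y) * ψ (σ x) (τ y)) * (r x * r x) * (s y * s y) := by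
      simp only [α, β]; ring
    rw [h3, hr2, hs2]; ring
  have hS : ∀ j k l, (S H (π i) (π j) (π k) (π l)) ^ 2 = (S H i j k l) ^ 2 := by
    intro j k l
    have e : S H (π i) (π j) (π k) (π l) = (α i * α j * α k * α l) * S H i j k l := by
      unfold S
      rw [← Equiv.sum_comp ρ, Finset.mul_sum]
      refine Finset.sum_congr rfl (fun c _ => ?_)
      rw [key, key, key, key]
      have : α i * β c * H i c * (α j * β c * H j c) * (α k * β c * H k c) * (α l * β c * H l c)
        = (β c * β c) * (β c * β c) * (α i * α j * α k * α l * (H i c * H j c * H k c * H l c)) := by ring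
      rw [this, hβ]; ring
    rw [e]
    have : (α i * α j * α k * α l * S H i j k l) ^ 2 =
      (α i * α i) * (α j * α j) * (α k * α k) * (α l * α l) * (S H i j k l) ^ 2 := by ring
    rw [this, hα, hα, hα, hα]; ring
  unfold N
  refine Finset.card_bijective (Equiv.prodCongr π (Equiv.prodCongr π π)) (Equiv.bijective _) ?_
  rintro ⟨j, k, l⟩
  simp only [Finset.mem_filter, Finset.mem_univ, true_and, Equiv.prodCongr_apply, Prod.map]
  rw [← hπi, hS]

def a : Fin 7 → ℤ := ![-1,-1,-1,-1,-1,-1,1]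
def b : Fin 7 → ℤ := ![-1,-1,-1,1,-1,1,1]
def R : Matrix (Fin 7) (Fin 7) ℤ :=
  Matrix.of (fun i j : Fin 7 => if (i : ℕ) + (j : ℕ) + 1 = 7 then (1 : ℤ) else 0)

def Hm : Matrix I I ℤ := Matrix.of (fun p q : Fin 4 × Fin 7 =>
      (![![Matrix.circulant a, Matrix.circulant b * R, Matrix.circulant b * R, Matrix.circulant b * R],
         ![Matrix.circulant b * R, -Matrix.circulant a, R * Matrix.circulant b, -(R * Matrix.circulant b)],
         ![Matrix.circulant b * R, -(R * Matrix.circulant b), -Matrix.circulant a, R * Matrix.circulant b],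
         ![Matrix.circulant b * R, R * Matrix.circulant b, -(R * Matrix.circulant b), -Matrix.circulant a]]
        : Fin 4 → Fin 4 → Matrix (Fin 7) (Fin 7) ℤ) p.1 q.1 p.2 q.2)

def sgn (b : Bool) : ℤ := if b then -1 else 1

def mask : I → ℕ := fun p => (![![158524925, 213480187, 240957815, 120478959, 194457183, 97228607, 48614398], ![24969547, 145654373, 205997170, 104040505, 185192540, 93642798, 47857815], ![243303883, 121709285, 60961138, 163846329, 82324572, 175117870, 220220183], ![4389451, 9526629, 18386674, 34367289, 68555740, 134949294, 2471063]] : Fin 4 → Fin 7 → ℕ) p.1 p.2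

set_option maxRecDepth 100000 in
theorem Hm_eq : ∀ p q, Hm p q = sgn ((mask p).testBit (7 * q.1.val + q.2.val)) := by
  decide +kernel

theorem sgn_xor (x y : Bool) : sgn (x ^^ y) = sgn x * sgn y := by
  cases x <;> cases y <;> rfl

def F (x : ℕ) : ℤ := ∑ c : I, sgn (x.testBit (7 * c.1.val + c.2.val))

theorem S_eq (i j k l : I) : S Hm i j k l = F (mask i ^^^ mask j ^^^ mask k ^^^ mask l) := by
  unfold S F
  refine Finset.sum_congr rfl (fun c _ => ?_)
  rw [Hm_eq, Hm_eq, Hm_eq, Hm_eq, Nat.testBit_xor, Nat.testBit_xor, Nat.testBit_xor,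
    sgn_xor, sgn_xor, sgn_xor]


def tb (y : ℕ) : ℕ := (6200905725313299744266893093789502126063071545881165772838446113976729779337224604478033454164508541879741555464632174598044869083865094223170395258822928 >>> (4 * y)) % 16

def pc (x : ℕ) : ℕ := tb (x % 128) + tb ((x >>> 7) % 128) + tb ((x >>> 14) % 128) + tb ((x >>> 21) % 128)

theorem tb_eq : ∀ y : Fin 128, ∑ c : Fin 7, sgn (y.val.testBit c.val) = 7 - 2 * (tb y.val : ℤ) := by
  decide +kernel

theorem block (x m : ℕ) :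
    ∑ c : Fin 7, sgn (x.testBit (m + c.val)) = 7 - 2 * (tb ((x >>> m) % 128) : ℤ) := by
  rw [← tb_eq ⟨(x >>> m) % 128, Nat.mod_lt _ (by norm_num)⟩]
  refine Finset.sum_congr rfl (fun c _ => ?_)
  have h : (128 : ℕ) = 2 ^ 7 := by norm_num
  simp only [h]
  rw [Nat.testBit_mod_two_pow, Nat.testBit_shiftRight]
  simp [c.isLt]

theorem F_eq (x : ℕ) : F x = 28 - 2 * (pc x : ℤ) := by
  unfold F pc
  rw [Fintype.sum_prod_type]
  simp only [Fin.sum_univ_four]
  have h0 := block x 0
  have h1 := block x 7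
  have h2 := block x 14
  have h3 := block x 21
  simp only [Nat.shiftRight_zero] at h0
  simp only [Fin.val_zero, Fin.val_one, Fin.val_two, mul_zero, mul_one] at *
  have e2 : 7 * 2 = 14 := by norm_num
  have e3 : 7 * ((3 : Fin 4) : ℕ) = 21 := by norm_num
  rw [e2, e3, h0, h1, h2, h3]
  push_cast
  ring

def G (x : ℕ) : Bool := pc x == 4 || pc x == 24

theorem G_iff (x : ℕ) : (F x) ^ 2 = 400 ↔ G x = true := by
  rw [F_eq]
  simp only [G, Bool.or_eq_true, beq_iff_eq]
  constructor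
  · intro h
    have h' : ((28 - 2 * (pc x : ℤ)) - 20) * ((28 - 2 * (pc x : ℤ)) + 20) = 0 := by linarith [h, sq (28 - 2 * (pc x : ℤ))]
    rcases mul_eq_zero.mp h' with h | h <;> omega
  · rintro (h | h) <;> rw [h] <;> norm_num

def cnt (x : ℕ) : ℕ :=
  ((univ : Finset (I × I × I)).filter (fun t => G (x ^^^ mask t.1 ^^^ mask t.2.1 ^^^ mask t.2.2) = true)).card

theorem N_eq (i : I) : N Hm i = cnt (mask i) := by
  unfold N cnt
  congr 1
  refine Finset.filter_congr (fun t _ => ?_)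
  rw [S_eq, G_iff]

set_option maxRecDepth 100000 in
theorem cnt_ne : cnt (mask (0,0)) ≠ cnt (mask (1,0)) := by decide +kernel

/-- The negation of the preceding statement: For odd w ≥ 7 and ±1 circulants A,B,C,D with AAᵀ+BBᵀ+CCᵀ+DDᵀ=4wI, the displayed Goethals–Seidel Hadamard matrix is, up to row/column permutation and negation, the matrix of a ±1 2-cocycle on some group of order 4w. -/
theorem result :
    ¬ (∀ (w : ℕ), 7 ≤ w → Odd w →
  ∀ (a b c d : Fin w → ℤ),
    (∀ i, (a i = 1 ∨ a i = -1) ∧ (b i = 1 ∨ b i = -1) ∧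
          (c i = 1 ∨ c i = -1) ∧ (d i = 1 ∨ d i = -1)) →
    Matrix.circulant a * (Matrix.circulant a).transpose
      + Matrix.circulant b * (Matrix.circulant b).transpose
      + Matrix.circulant c * (Matrix.circulant c).transpose
      + Matrix.circulant d * (Matrix.circulant d).transpose
      = ((4 * w : ℕ) : ℤ) • (1 : Matrix (Fin w) (Fin w) ℤ) →
  ∀ (R : Matrix (Fin w) (Fin w) ℤ),
    R = Matrix.of (fun i j : Fin w => if (i : ℕ) + (j : ℕ) + 1 = w then (1 : ℤ) else 0) →
  ∀ (H : Matrix (Fin 4 × Fin w) (Fin 4 × Fin w) ℤ),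
    H = Matrix.of (fun p q : Fin 4 × Fin w =>
      (![![Matrix.circulant a, Matrix.circulant b * R, Matrix.circulant c * R, Matrix.circulant d * R],
         ![Matrix.circulant b * R, -Matrix.circulant a, R * Matrix.circulant d, -(R * Matrix.circulant c)],
         ![Matrix.circulant c * R, -(R * Matrix.circulant d), -Matrix.circulant a, R * Matrix.circulant b],
         ![Matrix.circulant d * R, R * Matrix.circulant c, -(R * Matrix.circulant b), -Matrix.circulant a]]
        : Fin 4 → Fin 4 → Matrix (Fin w) (Fin w) ℤ) p.1 q.1 p.2 q.2) →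
  ∃ (G : Type) (_ : Group G) (ψ : G → G → ℤ) (σ τ : (Fin 4 × Fin w) ≃ G)
    (r s : Fin 4 × Fin w → ℤ),
    (∀ g h : G, ψ g h = 1 ∨ ψ g h = -1) ∧
    (∀ g h k : G, ψ g h * ψ (g * h) k = ψ g (h * k) * ψ h k) ∧
    (∀ i, r i = 1 ∨ r i = -1) ∧
    (∀ j, s j = 1 ∨ s j = -1) ∧
    (∀ i j, H i j = r i * s j * ψ (σ i) (τ j))) := by
  intro h
  obtain ⟨G, _, ψ, σ, τ, r, s, hψ, hco, hr, hs, hH⟩ :=
    h 7 le_rfl (by decide) a b b b (by decide) (by decide +kernel) R rfl Hm rfl
  have h1 := N_const Hm ψ σ τ r s hψ hco hr hs hH (0, 0) (1, 0)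
  rw [N_eq, N_eq] at h1
  exact cnt_ne h1

end Pool.Agent.S05486
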