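import Pool.Statements.S05495
import Pool.Agent.Helper715.Pull5

set_option autoImplicit false
open Pool Pool.MP_482976_co

namespace Pool.Agent.S05495

/-- If a full-dimensional polytope in R^d has the maximum number of k-faces among all d-polytopes with the same number of vertices, for some k with floor((d-1)/2) ≤ k < d, then every facet of it has exactly d vertices (it is simplicial). -/
theorem result :
  ∀ (d : ℕ) (S : Finset (EuclideanSpace ℝ (Fin d))) (k : ℕ),
    (interior (convexHull ℝ (S : Set (EuclideanSpace ℝ (Fin d))))).Nonempty →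
    (d - 1) / 2 ≤ k → k < d →
    (∀ T : Finset (EuclideanSpace ℝ (Fin d)),
      (interior (convexHull ℝ (T : Set (EuclideanSpace ℝ (Fin d))))).Nonempty →
      Set.ncard (Set.extremePoints ℝ (convexHull ℝ (T : Set (EuclideanSpace ℝ (Fin d))))) =
        Set.ncard (Set.extremePoints ℝ (convexHull ℝ (S : Set (EuclideanSpace ℝ (Fin d))))) →
      Set.ncard {F : Set (EuclideanSpace ℝ (Fin d)) | F.Nonempty ∧ Convex ℝ F ∧
          IsExtreme ℝ (convexHull ℝ (T : Set (EuclideanSpace ℝ (Fin d)))) F ∧
          Module.finrank ℝ (vectorSpan ℝ F) = k} ≤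
        Set.ncard {F : Set (EuclideanSpace ℝ (Fin d)) | F.Nonempty ∧ Convex ℝ F ∧
          IsExtreme ℝ (convexHull ℝ (S : Set (EuclideanSpace ℝ (Fin d)))) F ∧
          Module.finrank ℝ (vectorSpan ℝ F) = k}) →
    ∀ F : Set (EuclideanSpace ℝ (Fin d)), F.Nonempty → Convex ℝ F →
      IsExtreme ℝ (convexHull ℝ (S : Set (EuclideanSpace ℝ (Fin d)))) F →
      Module.finrank ℝ (vectorSpan ℝ F) = d - 1 →
      Set.ncard (Set.extremePoints ℝ F) = d := by
  intro d S k hint hk1 hk2 hmax F hne hc hext hdim
  exact Pool.Agent.Helper715.klee (by simp) S k hint hk1 hk2 hmax F hne hc hext hdim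

end Pool.Agent.S05495
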