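import Pool.Statements.S05502
-- import your own Pool.Agent.* helpers here

set_option autoImplicit false
open Pool Pool.MP_48c19b_co

namespace Pool.Agent.S05502


/-- The sixteen subsets of a four-element set. -/
theorem univ_eq : (Finset.univ : Finset (Finset (Fin 4))) =
    {∅, {0}, {1}, {2}, {3}, {0, 1}, {0, 2}, {0, 3}, {1, 2}, {1, 3}, {2, 3},
      {0, 1, 2}, {0, 1, 3}, {0, 2, 3}, {1, 2, 3}, {0, 1, 2, 3}} := by
  decide

theorem sum16 (F : Finset (Fin 4) → ℝ) : ∑ S : Finset (Fin 4), F S =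
    F ∅ + F {0} + F {1} + F {2} + F {3} + F {0, 1} + F {0, 2} + F {0, 3} + F {1, 2} + F {1, 3} +
      F {2, 3} + F {0, 1, 2} + F {0, 1, 3} + F {0, 2, 3} + F {1, 2, 3} + F {0, 1, 2, 3} := by
  rw [univ_eq]
  repeat rw [Finset.sum_insert (by decide)]
  rw [Finset.sum_singleton]
  ring

theorem prodS (S : Finset (Fin 4)) (y : Fin 4 → ℝ) : ∏ i ∈ S, y i =
    (if (0 : Fin 4) ∈ S then y 0 else 1) * (if (1 : Fin 4) ∈ S then y 1 else 1) *
      (if (2 : Fin 4) ∈ S then y 2 else 1) * (if (3 : Fin 4) ∈ S then y 3 else 1) := by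
  have h : ∏ i ∈ S, y i = ∏ i : Fin 4, (if i ∈ S then y i else 1) := by
    rw [Finset.prod_ite_mem]
    simp
  rw [h, Fin.prod_univ_four]

/-- The weights of the counterexample, as natural numbers. -/
def wN (S : Finset (Fin 4)) : ℕ :=
  if S.card = 0 then 18
  else if S.card = 1 then (if (3 : Fin 4) ∈ S then 18 else 12)
  else if S.card = 2 then 6
  else if S.card = 3 then (if (3 : Fin 4) ∈ S then 2 else 3)
  else 0

theorem wN_anti : ∀ S T : Finset (Fin 4), T ⊆ S → wN S ≤ wN T := by decide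

theorem w0 : wN ∅ = 18 := by decide
theorem w1 : wN {0} = 12 := by decide
theorem w2 : wN {1} = 12 := by decide
theorem w3 : wN {2} = 12 := by decide
theorem w4 : wN {3} = 18 := by decide
theorem w5 : wN {0, 1} = 6 := by decide
theorem w6 : wN {0, 2} = 6 := by decide
theorem w7 : wN {0, 3} = 6 := by decide
theorem w8 : wN {1, 2} = 6 := by decide
theorem w9 : wN {1, 3} = 6 := by decide
theorem w10 : wN {2, 3} = 6 := by decide
theorem w11 : wN {0, 1, 2} = 3 := by decide
theorem w12 : wN {0, 1, 3} = 2 := by decide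
theorem w13 : wN {0, 2, 3} = 2 := by decide
theorem w14 : wN {1, 2, 3} = 2 := by decide
theorem w15 : wN {0, 1, 2, 3} = 0 := by decide

theorem rayleigh (e f : Fin 4) (hef : e ≠ f) (y : Fin 4 → ℝ) (hy : ∀ i, 0 < y i) :
      0 ≤ (∑ S ∈ Finset.univ.filter (fun S : Finset (Fin 4) => e ∈ S ∧ f ∉ S),
              (wN S : ℝ) * ∏ i ∈ S.erase e, y i) *
          (∑ S ∈ Finset.univ.filter (fun S : Finset (Fin 4) => f ∈ S ∧ e ∉ S),
              (wN S : ℝ) * ∏ i ∈ S.erase f, y i) -
          (∑ S ∈ Finset.univ.filter (fun S : Finset (Fin 4) => e ∈ S ∧ f ∈ S),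
              (wN S : ℝ) * ∏ i ∈ (S.erase e).erase f, y i) *
          (∑ S ∈ Finset.univ.filter (fun S : Finset (Fin 4) => e ∉ S ∧ f ∉ S),
              (wN S : ℝ) * ∏ i ∈ S, y i) := by
  have h0 := hy 0
  have h1 := hy 1
  have h2 := hy 2
  have h3 := hy 3
  fin_cases e <;> fin_cases f <;> first | exact absurd rfl hef | skip
  all_goals
    simp only [Finset.sum_filter, sum16, prodS, w0, w1, w2, w3, w4, w5, w6, w7, w8, w9, w10,
      w11, w12, w13, w14, w15]
    simp
    rw [← sub_nonneg]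
    ring_nf
    positivity

/-- The negation of the preceding statement: For nonnegative subset weights that decrease under enlarging sets and whose multiaffine polynomial is Rayleigh at all positive points, adding the polynomial with variables g,h swapped keeps it Rayleigh for every pair e,f, with e,f,g,h all distinct. -/
theorem result :
    ¬ (∀ (m : ℕ) (w : Finset (Fin m) → ℝ),
    (∀ S, 0 ≤ w S) →
    (∀ S T : Finset (Fin m), T ⊆ S → w S ≤ w T) →
    (∀ e f : Fin m, e ≠ f → ∀ y : Fin m → ℝ, (∀ i, 0 < y i) →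
      0 ≤ (∑ S ∈ Finset.univ.filter (fun S : Finset (Fin m) => e ∈ S ∧ f ∉ S),
              w S * ∏ i ∈ S.erase e, y i) *
          (∑ S ∈ Finset.univ.filter (fun S : Finset (Fin m) => f ∈ S ∧ e ∉ S),
              w S * ∏ i ∈ S.erase f, y i) -
          (∑ S ∈ Finset.univ.filter (fun S : Finset (Fin m) => e ∈ S ∧ f ∈ S),
              w S * ∏ i ∈ (S.erase e).erase f, y i) *
          (∑ S ∈ Finset.univ.filter (fun S : Finset (Fin m) => e ∉ S ∧ f ∉ S),
              w S * ∏ i ∈ S, y i)) →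
    ∀ e f g h : Fin m, e ≠ f → e ≠ g → e ≠ h → f ≠ g → f ≠ h → g ≠ h →
    ∀ y : Fin m → ℝ, (∀ i, 0 < y i) →
      0 ≤ (∑ S ∈ Finset.univ.filter (fun S : Finset (Fin m) => e ∈ S ∧ f ∉ S),
              (w S + w (S.image (Equiv.swap g h))) * ∏ i ∈ S.erase e, y i) *
          (∑ S ∈ Finset.univ.filter (fun S : Finset (Fin m) => f ∈ S ∧ e ∉ S),
              (w S + w (S.image (Equiv.swap g h))) * ∏ i ∈ S.erase f, y i) -
          (∑ S ∈ Finset.univ.filter (fun S : Finset (Fin m) => e ∈ S ∧ f ∈ S),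
              (w S + w (S.image (Equiv.swap g h))) * ∏ i ∈ (S.erase e).erase f, y i) *
          (∑ S ∈ Finset.univ.filter (fun S : Finset (Fin m) => e ∉ S ∧ f ∉ S),
              (w S + w (S.image (Equiv.swap g h))) * ∏ i ∈ S, y i)) := by
  intro H
  have key := H 4 (fun S => (wN S : ℝ)) (fun S => Nat.cast_nonneg _)
    (fun S T hTS => by exact_mod_cast wN_anti S T hTS) rayleigh 0 1 2 3
    (by decide) (by decide) (by decide) (by decide) (by decide) (by decide)
    ![1, 1, 100, 1 / 100] (by intro i; fin_cases i <;> simp)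
  simp only [Finset.sum_filter, sum16, prodS] at key
  revert key
  have i0 : (∅ : Finset (Fin 4)).image (Equiv.swap (2 : Fin 4) 3) = ∅ := by decide
  have i1 : ({0} : Finset (Fin 4)).image (Equiv.swap (2 : Fin 4) 3) = {0} := by decide
  have i2 : ({1} : Finset (Fin 4)).image (Equiv.swap (2 : Fin 4) 3) = {1} := by decide
  have i3 : ({2} : Finset (Fin 4)).image (Equiv.swap (2 : Fin 4) 3) = {3} := by decide
  have i4 : ({3} : Finset (Fin 4)).image (Equiv.swap (2 : Fin 4) 3) = {2} := by decide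
  have i5 : ({0, 1} : Finset (Fin 4)).image (Equiv.swap (2 : Fin 4) 3) = {0, 1} := by decide
  have i6 : ({0, 2} : Finset (Fin 4)).image (Equiv.swap (2 : Fin 4) 3) = {0, 3} := by decide
  have i7 : ({0, 3} : Finset (Fin 4)).image (Equiv.swap (2 : Fin 4) 3) = {0, 2} := by decide
  have i8 : ({1, 2} : Finset (Fin 4)).image (Equiv.swap (2 : Fin 4) 3) = {1, 3} := by decide
  have i9 : ({1, 3} : Finset (Fin 4)).image (Equiv.swap (2 : Fin 4) 3) = {1, 2} := by decide
  have i10 : ({2, 3} : Finset (Fin 4)).image (Equiv.swap (2 : Fin 4) 3) = {2, 3} := by decide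
  have i11 : ({0, 1, 2} : Finset (Fin 4)).image (Equiv.swap (2 : Fin 4) 3) = {0, 1, 3} := by
    decide
  have i12 : ({0, 1, 3} : Finset (Fin 4)).image (Equiv.swap (2 : Fin 4) 3) = {0, 1, 2} := by
    decide
  have i13 : ({0, 2, 3} : Finset (Fin 4)).image (Equiv.swap (2 : Fin 4) 3) = {0, 2, 3} := by
    decide
  have i14 : ({1, 2, 3} : Finset (Fin 4)).image (Equiv.swap (2 : Fin 4) 3) = {1, 2, 3} := by
    decide
  have i15 : ({0, 1, 2, 3} : Finset (Fin 4)).image (Equiv.swap (2 : Fin 4) 3) = {0, 1, 2, 3} := by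
    decide
  simp only [i0, i1, i2, i3, i4, i5, i6, i7, i8, i9, i10, i11, i12, i13, i14, i15,
    w0, w1, w2, w3, w4, w5, w6, w7, w8, w9, w10, w11, w12, w13, w14, w15]
  simp
  norm_num

end Pool.Agent.S05502
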