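import Pool.Statements.S05514

set_option autoImplicit false
open Pool Pool.MP_495f0d_co

namespace Pool.Agent.S05514

/-- The mex sequence of `2, 0, 2, 0, 2`: it continues `1, 0, 3, 1, 0, 4, 1, 0, 5, ...`. -/
def b (m : ℕ) : ℕ :=
  if m = 0 then 2 else if m = 1 then 0 else if m = 2 then 2 else
    if m % 3 = 0 then 0 else if m % 3 = 1 then m / 3 + 1 else 1

lemma sInf_eq_of {S : Set ℕ} {v : ℕ} (h1 : v ∈ S) (h2 : ∀ k, k < v → k ∉ S) : sInf S = v := by
  apply le_antisymm
  · exact Nat.sInf_le h1
  · by_contra h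
    push Not at h
    exact h2 _ h (Nat.sInf_mem ⟨v, h1⟩)

lemma case0 (m : ℕ) (hm : 4 ≤ m) (h : m % 3 = 2) (i : ℕ) (hi : i ≤ m) : b i + b (m - i) ≠ 0 := by
  unfold b
  split_ifs <;> first | contradiction | omega

lemma case1 (m : ℕ) (hm : 4 ≤ m) (h : m % 3 = 0) (i : ℕ) (hi : i ≤ m) :
    b i + b (m - i) ≠ m / 3 + 1 := by
  unfold b
  split_ifs <;> first | contradiction | omega

lemma case2 (m : ℕ) (hm : 4 ≤ m) (h : m % 3 = 1) (i : ℕ) (hi : i ≤ m) :
    b i + b (m - i) ≠ 1 := by
  unfold b
  split_ifs <;> first | contradiction | omega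

lemma case1' (m : ℕ) (hm : 4 ≤ m) (h : m % 3 = 0) (t : ℕ) (ht : t < m / 3 + 1) :
    ∃ i, i ≤ m ∧ b i + b (m - i) = t := by
  rcases Nat.lt_or_ge t 3 with h3 | h3
  · interval_cases t
    · refine ⟨3, by omega, ?_⟩
      unfold b
      split_ifs <;> first | contradiction | omega
    · refine ⟨1, by omega, ?_⟩
      unfold b
      split_ifs <;> first | contradiction | omega
    · refine ⟨0, by omega, ?_⟩
      unfold b
      split_ifs <;> first | contradiction | omega
  · obtain ⟨s, rfl⟩ : ∃ s, t = s + 3 := ⟨t - 3, by omega⟩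
    obtain ⟨r, hr⟩ : ∃ r, m = 3 * (s + 1) + 1 + (3 * r + 5) := ⟨(m - 3 * (s + 1) - 1 - 5) / 3, by omega⟩
    refine ⟨3 * (s + 1) + 1, by omega, ?_⟩
    have hm' : m - (3 * (s + 1) + 1) = 3 * r + 5 := by omega
    rw [hm']
    have e1 : b (3 * (s + 1) + 1) = s + 2 := by
      unfold b
      split_ifs <;> first | contradiction | omega
    have e2 : b (3 * r + 5) = 1 := by
      unfold b
      split_ifs <;> first | contradiction | omega
    rw [e1, e2]

lemma case2' (m : ℕ) (hm : 4 ≤ m) (h : m % 3 = 1) :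
    ∃ i, i ≤ m ∧ b i + b (m - i) = 0 := by
  refine ⟨m - 1, by omega, ?_⟩
  unfold b
  split_ifs <;> first | contradiction | omega

lemma rec_b (m : ℕ) (hm : 4 ≤ m) :
    b (m + 1) = sInf {k : ℕ | ∀ i : ℕ, i ≤ m → b i + b (m - i) ≠ k} := by
  symm
  have h3 : m % 3 = 0 ∨ m % 3 = 1 ∨ m % 3 = 2 := by omega
  rcases h3 with h | h | h
  · have hb : b (m + 1) = m / 3 + 1 := by
      unfold b
      split_ifs <;> first | contradiction | omega
    rw [hb]
    apply sInf_eq_of
    · exact fun i hi => case1 m hm h i hi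
    · intro t ht hS
      obtain ⟨i, hi, he⟩ := case1' m hm h t ht
      exact hS i hi he
  · have hb : b (m + 1) = 1 := by
      unfold b
      split_ifs <;> first | contradiction | omega
    rw [hb]
    apply sInf_eq_of
    · exact fun i hi => case2 m hm h i hi
    · intro t ht hS
      obtain ⟨i, hi, he⟩ := case2' m hm h
      exact hS i hi (by omega)
  · have hb : b (m + 1) = 0 := by
      unfold b
      split_ifs <;> first | contradiction | omega
    rw [hb]
    apply sInf_eq_of
    · exact fun i hi => case0 m hm h i hi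
    · intro t ht
      omega

/-- The negation of the preceding statement: Take any sequence of naturals that, from some index n on, satisfies a(m+1) = least natural not of the form a(i)+a(m−i) with 0≤i≤m. Then it is eventually periodic: for some p>0 and N, a(m+p)=a(m) for all m≥N. -/
theorem result :
    ¬ (∀ (a : ℕ → ℕ) (n : ℕ),
      (∀ m : ℕ, n ≤ m →
        a (m + 1) = sInf {k : ℕ | ∀ i : ℕ, i ≤ m → a i + a (m - i) ≠ k}) →
      ∃ p : ℕ, 0 < p ∧ ∃ N : ℕ, ∀ m : ℕ, N ≤ m → a (m + p) = a m) := by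
  intro H
  obtain ⟨p, hp, N, hN⟩ := H b 4 rec_b
  -- iterate the period along `m = 3 (N + 2) + 1`
  have hit : ∀ j, b (3 * (N + 2) + 1 + j * p) = b (3 * (N + 2) + 1) := by
    intro j
    induction j with
    | zero => simp
    | succ j ih =>
      have := hN (3 * (N + 2) + 1 + j * p) (by nlinarith [Nat.zero_le (j * p)])
      rw [← ih, ← this]
      congr 1
      ring
  have h3 := hit 3
  have e1 : b (3 * (N + 2) + 1) = N + 3 := by
    unfold b
    split_ifs <;> first | contradiction | omega
  have e2 : b (3 * (N + 2) + 1 + 3 * p) = N + 3 + p := by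
    unfold b
    split_ifs <;> first | contradiction | omega
  omega

end Pool.Agent.S05514
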