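import Pool.Statements.S05518
import Mathlib
import Pool.Agent.Helper2.Geom3
import Pool.Agent.Helper2.Final

set_option autoImplicit false
open Pool Pool.MP_49949b_co

namespace Pool.Agent.S05518

open MulAction Configuration Pool.Agent.Helper2

theorem comm_of {G : Type} [Group G] [Finite G] {I : Type} [Finite I] {v s : ℕ} (hs : 3 ≤ s)
    (hG : Nat.card G = v ^ 2) (hI : Nat.card I = 2 * s) (U : I → Subgroup G)
    (hn : ∀ i, (U i).Normal) (hU : ∀ i, Nat.card (U i) = v)
    (hd : ∀ i j, i ≠ j → U i ⊓ U j = ⊥) (a b : G) : a * b = b * a := by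
  classical
  have := Fintype.ofFinite I
  have hc : ∀ i j, i ≠ j → ∀ x ∈ U i, ∀ y ∈ U j, x * y = y * x := by
    intro i j hij x hx y hy
    have h1 := hn i
    have h2 := hn j
    have := Subgroup.commute_of_normal_of_disjoint (U i) (U j) h1 h2
      (disjoint_iff.mpr (hd i j hij)) x y hx hy
    exact this
  have hf : ∀ i j, i ≠ j → ∀ g : G, ∃ x ∈ U i, ∃ y ∈ U j, x * y = g := by
    intro i j hij g
    have hcomp := Subgroup.isComplement'_of_card_mul_and_disjoint (H := U i) (K := U j)
      (by rw [hU, hU, hG]; ring) (disjoint_iff.mpr (hd i j hij))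
    obtain ⟨⟨x, y⟩, hxy⟩ := hcomp.2 g
    exact ⟨x, x.2, y, y.2, hxy⟩
  have hcard : 2 < Fintype.card I := by
    rw [← Nat.card_eq_fintype_card, hI]; omega
  have hcent : ∀ k, ∀ x ∈ U k, ∀ g : G, x * g = g * x := by
    intro k x hx g
    obtain ⟨i, hi⟩ : ∃ i, i ≠ k := by
      by_contra h
      push Not at h
      have : Fintype.card I ≤ 1 := Fintype.card_le_one_iff.mpr (fun a b => (h a).trans (h b).symm)
      omega
    obtain ⟨j, hj, hji⟩ : ∃ j, j ≠ k ∧ j ≠ i := by
      by_contra h
      push Not at h
      have h1 : (Finset.univ : Finset I) ⊆ {k, i} := by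
        intro j _
        by_cases hjk : j = k
        · simp [hjk]
        · simp [h j hjk]
      have h2 := Finset.card_le_card h1
      have h3 : ({k, i} : Finset I).card ≤ 2 := Finset.card_le_two
      rw [Finset.card_univ] at h2
      omega
    obtain ⟨y, hy, z, hz, rfl⟩ := hf i j hji.symm g
    have h1 := hc k i hi.symm x hx y hy
    have h2 := hc k j hj.symm x hx z hz
    rw [← mul_assoc, h1, mul_assoc, h2, mul_assoc]
  obtain ⟨i, j, hij⟩ := Fintype.one_lt_card_iff.mp (by omega : 1 < Fintype.card I)
  obtain ⟨x, hx, y, hy, rfl⟩ := hf i j hij a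
  have h1 := hcent j y hy b
  have h2 := hcent i x hx b
  rw [mul_assoc, h1, ← mul_assoc, h2, mul_assoc]

/-- The negation of the preceding statement: Some finite projective plane of order n=k² has a quasiregular collineation group G with 2∣G∣>n²+n+1, ∣G∣=(n−k+1)², exactly 2k+1 point orbits, and no point or line fixed by all of G. -/
theorem result :
    ¬ (∃ (P L : Type) (_ : Membership P L) (_ : Configuration.ProjectivePlane P L)
      (_ : Finite P) (G : Type) (_ : Group G) (_ : Finite G)
      (_ : MulAction G P) (_ : MulAction G L) (k : ℕ),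
      Configuration.ProjectivePlane.order P L = k ^ 2 ∧
      FaithfulSMul G P ∧
      (∀ (g : G) (p : P) (l : L), p ∈ l ↔ g • p ∈ g • l) ∧
      (∀ (g : G) (p q : P), q ∈ MulAction.orbit G p → g • p = p → g • q = q) ∧
      (∀ (g : G) (l m : L), m ∈ MulAction.orbit G l → g • l = l → g • m = m) ∧
      2 * Nat.card G > (k ^ 2) ^ 2 + k ^ 2 + 1 ∧
      Nat.card G = (k ^ 2 - k + 1) ^ 2 ∧
      Nat.card (MulAction.orbitRel.Quotient G P) = 2 * k + 1 ∧
      (¬ ∃ p : P, ∀ g : G, g • p = p) ∧
      (¬ ∃ l : L, ∀ g : G, g • l = l)) := by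
  rintro ⟨P, L, _, _, _, G, _, _, _, _, k, hn, _, hinc, hqP, hqL, hbig, hG, horb, hP, hL⟩
  have hfinL : Finite L := Geom.finite_lines (P := P)
  have hk : 3 ≤ k := by
    have h1 := ProjectivePlane.one_lt_order P L
    rw [hn] at h1
    by_contra hcon
    have : k = 0 ∨ k = 1 ∨ k = 2 := by omega
    rw [hG] at hbig
    rcases this with rfl | rfl | rfl
    · omega
    · omega
    · norm_num at hbig
  obtain ⟨O⟩ := Geom.exists_orbitData hinc hP hL hk hn hG hqP horb hbig
  obtain ⟨D, hD⟩ := Geom.exists_diffset hinc hP hL hk hn hG hqP hqL O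
  have := O.finI
  have hcomm : ∀ a b : G, a * b = b * a :=
    comm_of (v := k ^ 2 - k + 1) hk hG O.cardI (fun i => stabilizer G (O.x i))
      (fun i => Geom.stab_normal hqP _) (fun i => Geom.U_card hG O i)
      (fun i j hij => Geom.U_disjoint hinc hP hL hk hn hG hqP O i j hij)
  let cg : CommGroup G := { (inferInstance : Group G) with mul_comm := hcomm }
  have := Fintype.ofFinite G
  have := Fintype.ofFinite O.I
  let X : GR.Data G O.I :=
    { s := k
      v := k ^ 2 - k + 1
      hs := hk
      hv := by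
        have : k ≤ k ^ 2 := by nlinarith
        omega
      cardG := hG
      cardI := O.cardI
      U := fun i => stabilizer G (O.x i)
      cardU := fun i => Geom.U_card hG O i
      disj := fun i j hij => Geom.U_disjoint hinc hP hL hk hn hG hqP O i j hij
      D := D
      hD0 := fun t ht => (hD t ht).1
      hD1 := fun t ht => (hD t ht).2 }
  exact GR.final X

end Pool.Agent.S05518
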