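-- Disproof: subexponentially many (2 to the power d^(2/3+o(1))) pairwise disjoint proper boxes such that every
-- line is met by at least two of them (k = 2); here d = 2^27, n huge.
import Pool.Statements.S05526

set_option autoImplicit false
open Pool Pool.MP_4a756a_co

namespace Pool.Agent.S05526

/-!
The construction. Cells (coordinates) are pairs `(h, t)` with `h < G` a group and `t < q = k + 1` a position.
A symbol consists of a base symbol (a class and a list of `k` classes), an identifier `e < s`, a
vector `f : Fin G → Fin s`, and for every group an evidence `D h`.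
The relation `dom` between base symbols is antisymmetric, so in each group at most one cell
dominates all the other cells of the group (the leader).  An evidence `D` describes a box of group configurations in
which only the cell `D.2.2` can be the leader; there are few evidences (a polynomial hash of the
classes at the `r` cells of a dominating list), and every group configuration lies in one evidence box.
The box `B (c, σ)` is: symbol `σ` at `c`; every other cell of the group of `c` is dominated by `σ`;
every other group `h'` lies in the evidence box `D h'` of `σ`, its candidate cell has identifier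
`f h'`, and the `f`-entries at the group of `c` of all cells outside that group avoid the identifier of `σ`.
-/

section Combinatorics

open Finset

/-- Transfer of a family indexed by abstract finite types to the frozen `Fin` form. -/
theorem transfer
    (H : ∀ (n d k m : ℕ), 1 ≤ d → 2 ≤ k → k ≤ n →
      ∀ (S : Fin m → Fin d → Finset (Fin n)),
        (∀ j i, (S j i).Nonempty ∧ S j i ≠ Finset.univ) →
        (∀ j j', j ≠ j' → ∀ x : Fin d → Fin n,
          ¬ ((∀ l, x l ∈ S j l) ∧ (∀ l, x l ∈ S j' l))) →
        (∀ (i : Fin d) (x : Fin d → Fin n),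
          k ≤ (Finset.univ.filter
            (fun j : Fin m => ∃ t : Fin n, ∀ l : Fin d, Function.update x i t l ∈ S j l)).card) →
        2 ^ d ≤ m)
    {C A J : Type} [Fintype C] [Fintype A] [Fintype J] [DecidableEq C] [Nonempty C]
    (hA : 2 ≤ Fintype.card A)
    (S : J → C → Set A)
    (hne : ∀ j i, (S j i).Nonempty)
    (hprop : ∀ j i, ∃ a, a ∉ S j i)
    (hdis : ∀ j j', j ≠ j' → ∀ x : C → A, (∀ l, x l ∈ S j l) → (∀ l, x l ∈ S j' l) → False)
    (hpierce : ∀ (i : C) (x : C → A), ∃ j j', j ≠ j' ∧
      (∃ t, ∀ l, Function.update x i t l ∈ S j l) ∧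
      (∃ t, ∀ l, Function.update x i t l ∈ S j' l)) :
    2 ^ Fintype.card C ≤ Fintype.card J := by
  classical
  let eC := Fintype.equivFin C
  let eA := Fintype.equivFin A
  let eJ := Fintype.equivFin J
  let S' : Fin (Fintype.card J) → Fin (Fintype.card C) → Finset (Fin (Fintype.card A)) :=
    fun j i => Finset.univ.filter (fun a => eA.symm a ∈ S (eJ.symm j) (eC.symm i))
  have hS' : ∀ j i a, a ∈ S' j i ↔ eA.symm a ∈ S (eJ.symm j) (eC.symm i) := by
    intro j i a
    simp [S']
  apply H (Fintype.card A) (Fintype.card C) 2 (Fintype.card J) Fintype.card_pos le_rfl hA S'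
  · intro j i
    constructor
    · obtain ⟨a, ha⟩ := hne (eJ.symm j) (eC.symm i)
      exact ⟨eA a, by rw [hS']; simpa using ha⟩
    · intro h
      obtain ⟨a, ha⟩ := hprop (eJ.symm j) (eC.symm i)
      have : eA a ∈ S' j i := by rw [h]; exact Finset.mem_univ _
      rw [hS'] at this
      exact ha (by simpa using this)
  · rintro j j' hjj' x ⟨h1, h2⟩
    refine hdis (eJ.symm j) (eJ.symm j') (fun h => hjj' (eJ.symm.injective h))
      (fun c => eA.symm (x (eC c))) ?_ ?_
    · intro l
      have := h1 (eC l)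
      rw [hS'] at this
      simpa using this
    · intro l
      have := h2 (eC l)
      rw [hS'] at this
      simpa using this
  · intro i x
    obtain ⟨j, j', hjj', ⟨t, ht⟩, ⟨t', ht'⟩⟩ := hpierce (eC.symm i) (fun c => eA.symm (x (eC c)))
    have key : ∀ (j : J) (t : A), (∀ l, Function.update (fun c => eA.symm (x (eC c))) (eC.symm i) t l ∈ S j l) →
        ∀ l : Fin (Fintype.card C), Function.update x i (eA t) l ∈ S' (eJ j) l := by
      intro j t h l
      rw [hS']
      have h2 := h (eC.symm l)
      by_cases hl : l = i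
      · subst hl
        simpa using h2
      · rw [Function.update_of_ne hl]
        rw [Function.update_of_ne (fun h => hl (eC.symm.injective h))] at h2
        simpa using h2
    have hsub : ({eJ j, eJ j'} : Finset (Fin (Fintype.card J))) ⊆ Finset.univ.filter
        (fun j : Fin (Fintype.card J) => ∃ t : Fin (Fintype.card A), ∀ l : Fin (Fintype.card C), Function.update x i t l ∈ S' j l) := by
      intro a ha
      rw [Finset.mem_insert, Finset.mem_singleton] at ha
      rw [Finset.mem_filter]
      refine ⟨Finset.mem_univ _, ?_⟩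
      rcases ha with rfl | rfl
      · exact ⟨eA t, key j t ht⟩
      · exact ⟨eA t', key j' t' ht'⟩
    have hc := Finset.card_le_card hsub
    rw [Finset.card_pair (fun h => hjj' (eJ.injective h))] at hc
    exact hc

/-- The main bound obtained from an abstract leader election gadget. -/
theorem abstract_bound
    (H : ∀ (n d k m : ℕ), 1 ≤ d → 2 ≤ k → k ≤ n →
      ∀ (S : Fin m → Fin d → Finset (Fin n)),
        (∀ j i, (S j i).Nonempty ∧ S j i ≠ Finset.univ) →
        (∀ j j', j ≠ j' → ∀ x : Fin d → Fin n,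
          ¬ ((∀ l, x l ∈ S j l) ∧ (∀ l, x l ∈ S j' l))) →
        (∀ (i : Fin d) (x : Fin d → Fin n),
          k ≤ (Finset.univ.filter
            (fun j : Fin m => ∃ t : Fin n, ∀ l : Fin d, Function.update x i t l ∈ S j l)).card) →
        2 ^ d ≤ m)
    {Base Ev : Type} [Fintype Base] [Fintype Ev] [Nonempty Base] [Nonempty Ev]
    (q G s : ℕ) (hq : 2 ≤ q) (hG : 1 ≤ G) (hs : G * q ≤ s)
    (dom : Base → Base → Prop)
    (hA : ∀ b b', dom b b' → dom b' b → False)
    (hB : ∀ (w : Fin q → Base) (i : Fin q), ∃ b, ∀ t, t ≠ i → dom b (w t))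
    (side : Ev → Fin q → Base → Prop) (i0 : Ev → Fin q)
    (hE1 : ∀ D (w : Fin q → Base), (∀ t, side D t (w t)) →
      ∀ j, (∀ t, t ≠ j → dom (w j) (w t)) → j = i0 D)
    (hE2 : ∀ w : Fin q → Base, ∃ D, ∀ t, side D t (w t)) :
    2 ^ (G * q) ≤ (G * q) * (Fintype.card Base * (s * (s ^ G * Fintype.card Ev ^ G))) := by
  classical
  let A := Base × Fin s × (Fin G → Fin s) × (Fin G → Ev)
  let bs : Fin G × Fin q → A → Fin G × Fin q → Set A := fun c σ l =>
    {x | (l = c → x = σ) ∧ (l ≠ c → l.1 = c.1 → dom σ.1 x.1) ∧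
      (l.1 ≠ c.1 → side (σ.2.2.2 l.1) l.2 x.1 ∧ x.2.2.1 c.1 ≠ σ.2.1 ∧
        (l.2 = i0 (σ.2.2.2 l.1) → x.2.1 = σ.2.2.1 l.1))}
  let J := {j : (Fin G × Fin q) × A // ∀ l, (bs j.1 j.2 l).Nonempty}
  have hs2 : 2 ≤ s := by nlinarith
  have hcard : Fintype.card J ≤ (G * q) * (Fintype.card Base * (s * (s ^ G * Fintype.card Ev ^ G))) := by
    have h1 : Fintype.card J ≤ Fintype.card ((Fin G × Fin q) × A) := Fintype.card_subtype_le _
    have h2 : Fintype.card ((Fin G × Fin q) × A)
        = (G * q) * (Fintype.card Base * (s * (s ^ G * Fintype.card Ev ^ G))) := by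
      simp only [A, Fintype.card_prod, Fintype.card_fun, Fintype.card_fin]
    rw [h2] at h1
    exact h1
  refine le_trans ?_ hcard
  have hC : G * q = Fintype.card (Fin G × Fin q) := by simp
  rw [hC]
  have : Nonempty (Fin G × Fin q) := ⟨(⟨0, by omega⟩, ⟨0, by omega⟩)⟩
  refine transfer H (C := Fin G × Fin q) (A := A) (J := J) ?_ (fun j l => bs j.1.1 j.1.2 l) ?_ ?_ ?_ ?_
  · -- card A ≥ 2
    have h2 : Fintype.card A = Fintype.card Base * (s * (s ^ G * Fintype.card Ev ^ G)) := by
      simp only [A, Fintype.card_prod, Fintype.card_fun, Fintype.card_fin]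
    rw [h2]
    have e1 : 1 ≤ Fintype.card Base := Fintype.card_pos
    have e2 : 1 ≤ s ^ G := Nat.one_le_pow _ _ (by omega)
    have e3 : 1 ≤ Fintype.card Ev ^ G := Nat.one_le_pow _ _ Fintype.card_pos
    calc 2 = 1 * (2 * (1 * 1)) := by norm_num
      _ ≤ _ := by gcongr
  · intro j l
    exact j.2 l
  · rintro ⟨⟨c, σ⟩, hj⟩ l
    show ∃ a, a ∉ bs c σ l
    obtain ⟨b, e, f, D⟩ := σ
    by_cases h1 : l = c
    · -- any other symbol
      obtain ⟨e', he'⟩ : ∃ e' : Fin s, e' ≠ e := by
        have : Nontrivial (Fin s) := Fin.nontrivial_iff_two_le.mpr hs2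
        exact exists_ne e
      refine ⟨(b, e', f, D), ?_⟩
      intro hx
      have := hx.1 h1
      have h3 := congrArg (fun z : A => z.2.1) this
      exact he' h3
    · by_cases h2 : l.1 = c.1
      · refine ⟨(b, e, f, D), ?_⟩
        intro hx
        have := hx.2.1 h1 h2
        exact hA _ _ this this
      · refine ⟨(b, e, fun _ => e, D), ?_⟩
        intro hx
        exact (hx.2.2 h2).2.1 rfl
  · rintro ⟨⟨c, σ⟩, hj⟩ ⟨⟨c', σ'⟩, hj'⟩ hne x hx hx'
    have hx1 : ∀ l, x l ∈ bs c σ l := hx
    have hx1' : ∀ l, x l ∈ bs c' σ' l := hx'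
    have hc : x c = σ := (hx1 c).1 rfl
    have hc' : x c' = σ' := (hx1' c').1 rfl
    by_cases h1 : c = c'
    · subst h1
      apply hne
      have : σ = σ' := hc.symm.trans hc'
      subst this
      rfl
    · by_cases h2 : c.1 = c'.1
      · have e1 : dom σ.1 (x c').1 := (hx1 c').2.1 (fun h => h1 h.symm) h2.symm
        have e2 : dom σ'.1 (x c).1 := (hx1' c).2.1 h1 h2
        rw [hc'] at e1
        rw [hc] at e2
        exact hA _ _ e1 e2
      · -- different groups
        have e1 := fun t : Fin q => (hx1 (c'.1, t)).2.2 (fun h => h2 h.symm)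
        have hlead : c'.2 = i0 (σ.2.2.2 c'.1) := by
          apply hE1 (σ.2.2.2 c'.1) (fun t => (x (c'.1, t)).1) (fun t => (e1 t).1)
          intro t ht
          have e2 := (hx1' (c'.1, t)).2.1 (fun h => ht (by rw [← h])) rfl
          have : x (c'.1, c'.2) = σ' := hc'
          show dom (x (c'.1, c'.2)).1 (x (c'.1, t)).1
          rw [this]
          exact e2
        have e3 := (e1 c'.2).2.2 hlead
        have e4 := ((hx1' c).2.2 h2).2.1
        have : x (c'.1, c'.2) = σ' := hc'
        rw [this] at e3
        rw [hc] at e4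
        exact e4 e3.symm
  · intro c x
    obtain ⟨b, hb⟩ := hB (fun t => (x (c.1, t)).1) c.2
    choose D hD using fun h : Fin G => hE2 (fun t => (x (h, t)).1)
    let f : Fin G → Fin s := fun h => (x (h, i0 (D h))).2.1
    let bad : Finset (Fin s) := ((Finset.univ : Finset (Fin G × Fin q)).filter (fun l => l.1 ≠ c.1)).image
      (fun l => (x l).2.2.1 c.1)
    have hbad : bad.card + q ≤ s := by
      have h1 : bad.card ≤ ((Finset.univ : Finset (Fin G × Fin q)).filter (fun l => l.1 ≠ c.1)).card :=
        Finset.card_image_le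
      have h2 : ((Finset.univ : Finset (Fin G × Fin q)).filter (fun l => ¬ l.1 ≠ c.1)).card = q := by
        have : (Finset.univ : Finset (Fin G × Fin q)).filter (fun l => ¬ l.1 ≠ c.1)
            = {c.1} ×ˢ (Finset.univ : Finset (Fin q)) := by
          ext l
          rw [Finset.mem_filter, Finset.mem_product]
          simp only [Finset.mem_univ, true_and, and_true, Finset.mem_singleton, not_not, ne_eq]
        rw [this, Finset.card_product]
        simp
      have h3 := Finset.card_filter_add_card_filter_not (s := (Finset.univ : Finset (Fin G × Fin q))) (fun l => l.1 ≠ c.1)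
      rw [h2] at h3
      have h4 : (Finset.univ : Finset (Fin G × Fin q)).card = G * q := by simp
      omega
    have hcompl : 1 < badᶜ.card := by
      rw [Finset.card_compl, Fintype.card_fin]
      omega
    obtain ⟨e1, he1, e2, he2, hne⟩ := Finset.one_lt_card.mp hcompl
    have key : ∀ e : Fin s, e ∈ badᶜ → ∀ l, Function.update x c (b, e, f, D) l ∈ bs c (b, e, f, D) l := by
      intro e he l
      rw [Finset.mem_compl] at he
      by_cases hl : l = c
      · subst hl
        rw [Function.update_self]
        refine ⟨fun _ => rfl, fun h => absurd rfl h, fun h => absurd rfl h⟩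
      · rw [Function.update_of_ne hl]
        refine ⟨fun h => absurd h hl, ?_, ?_⟩
        · intro _ h2
          have ht : l.2 ≠ c.2 := by
            intro h3
            exact hl (Prod.ext h2 h3)
          have := hb l.2 ht
          have hl' : l = (c.1, l.2) := Prod.ext h2 rfl
          rw [hl']
          exact this
        · intro h2
          refine ⟨hD l.1 l.2, ?_, ?_⟩
          · intro h3
            apply he
            show e ∈ bad
            simp only [bad]
            rw [Finset.mem_image]
            exact ⟨l, by simpa using h2, h3⟩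
          · intro h3
            show (x l).2.1 = (x (l.1, i0 (D l.1))).2.1
            have : l = (l.1, i0 (D l.1)) := Prod.ext rfl h3
            conv_lhs => rw [this]
    have hJ : ∀ e : Fin s, e ∈ badᶜ → ∀ l, (bs c (b, e, f, D) l).Nonempty :=
      fun e he l => ⟨_, key e he l⟩
    refine ⟨⟨(c, (b, e1, f, D)), hJ e1 he1⟩, ⟨(c, (b, e2, f, D)), hJ e2 he2⟩, ?_, ?_, ?_⟩
    · intro h
      have h3 := congrArg (fun z : J => z.1.2.2.1) h
      exact hne h3
    · exact ⟨_, key e1 he1⟩
    · exact ⟨_, key e2 he2⟩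

/-- The class relation: at the first comparable digit, the digit of `c` is one more. -/
def R {p k : ℕ} (c z : Fin k → ZMod p) : Prop :=
  ∃ l : Fin k, (∀ m : Fin k, m < l → c m ≠ z m + 1 ∧ z m ≠ c m + 1) ∧ c l = z l + 1

theorem R_antisymm {p k : ℕ} [Fact p.Prime] (hp : p ≠ 2) (c z : Fin k → ZMod p) :
    R c z → R z c → False := by
  rintro ⟨l, h1, h2⟩ ⟨l', h1', h2'⟩
  rcases lt_trichotomy l l' with h | h | h
  · exact (h1' l h).2 h2
  · subst h
    rw [h2'] at h2
    have h3 : (2 : ZMod p) = 0 := by linear_combination -h2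
    have h4 : ((2 : ℕ) : ZMod p) = 0 := by exact_mod_cast h3
    rw [ZMod.natCast_eq_zero_iff] at h4
    have h5 := (Nat.prime_dvd_prime_iff_eq (Fact.out : p.Prime) Nat.prime_two).mp h4
    exact hp h5
  · exact (h1 l' h).2 h2'

/-- a set of residues that is neither empty nor everything has an exit under `+2`. -/
theorem exists_digit {p : ℕ} [Fact p.Prime] (hp : p ≠ 2) (P : Finset (ZMod p)) (hP : P.Nonempty)
    (hcard : P.card < p) : ∃ a : ZMod p, a - 1 ∈ P ∧ a + 1 ∉ P := by
  classical
  by_contra hcon
  push Not at hcon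
  have hstep : ∀ b ∈ P, b + 2 ∈ P := by
    intro b hb
    have := hcon (b + 1) (by simpa using hb)
    have e : b + 1 + 1 = b + 2 := by ring
    rwa [e] at this
  have hstepn : ∀ n : ℕ, ∀ b ∈ P, b + 2 * (n : ZMod p) ∈ P := by
    intro n
    induction n with
    | zero => intro b hb; simpa using hb
    | succ n ih =>
      intro b hb
      have := hstep _ (ih b hb)
      have e : b + 2 * (n : ZMod p) + 2 = b + 2 * ((n + 1 : ℕ) : ZMod p) := by push_cast; ring
      rwa [e] at this
  have h2 : (2 : ZMod p) ≠ 0 := by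
    intro h3
    have h4 : ((2 : ℕ) : ZMod p) = 0 := by exact_mod_cast h3
    rw [ZMod.natCast_eq_zero_iff] at h4
    exact hp ((Nat.prime_dvd_prime_iff_eq (Fact.out : p.Prime) Nat.prime_two).mp h4)
  obtain ⟨b, hb⟩ := hP
  have hall : ∀ u : ZMod p, u ∈ P := by
    intro u
    have := hstepn ((u - b) / 2 : ZMod p).val b hb
    rw [ZMod.natCast_zmod_val] at this
    have e : b + 2 * ((u - b) / 2) = u := by
      field_simp
      ring
    rwa [e] at this
  have h3 : P = Finset.univ := Finset.eq_univ_iff_forall.mpr hall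
  rw [h3, Finset.card_univ, ZMod.card] at hcard
  exact lt_irrefl _ hcard

/-- Schütte property. -/
theorem schutte {p : ℕ} [Fact p.Prime] (hp : p ≠ 2) (k : ℕ) :
    k < p → ∀ T : Finset (Fin k → ZMod p), T.card ≤ k → ∃ c, ∀ z ∈ T, R c z := by
  classical
  induction k with
  | zero =>
    intro _ T hT
    have : T = ∅ := Finset.card_eq_zero.mp (Nat.le_zero.mp hT)
    subst this
    exact ⟨fun _ => 0, fun z hz => absurd hz (Finset.notMem_empty _)⟩
  | succ k ih =>
    intro hk T hT
    rcases T.eq_empty_or_nonempty with rfl | hne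
    · exact ⟨fun _ => 0, fun z hz => absurd hz (Finset.notMem_empty _)⟩
    · obtain ⟨a, ha1, ha2⟩ := exists_digit hp (T.image (fun z => z 0)) (hne.image _)
        (lt_of_le_of_lt (Finset.card_image_le.trans hT) hk)
      rw [Finset.mem_image] at ha1
      obtain ⟨z0, hz0, hz0a⟩ := ha1
      have ha2' : ∀ z ∈ T, z 0 ≠ a + 1 := by
        intro z hz h
        exact ha2 (Finset.mem_image.mpr ⟨z, hz, h⟩)
      let T' := (T.filter (fun z => z 0 ≠ a - 1)).image (fun z => Fin.tail z)
      have hT' : T'.card ≤ k := by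
        have h1 : T'.card ≤ (T.filter (fun z => z 0 ≠ a - 1)).card := Finset.card_image_le
        have h2 : (T.filter (fun z => z 0 ≠ a - 1)).card < T.card := by
          apply Finset.card_lt_card
          rw [Finset.filter_ssubset]
          exact ⟨z0, hz0, by simpa using hz0a⟩
        omega
      obtain ⟨c', hc'⟩ := ih (by omega) T' hT'
      refine ⟨Fin.cons a c', ?_⟩
      intro z hz
      by_cases h0 : z 0 = a - 1
      · refine ⟨0, fun m hm => absurd hm (Fin.not_lt_zero m), ?_⟩
        rw [Fin.cons_zero, h0]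
        ring
      · have hmem : Fin.tail z ∈ T' :=
          Finset.mem_image.mpr ⟨z, Finset.mem_filter.mpr ⟨hz, h0⟩, rfl⟩
        obtain ⟨l, h1, h2⟩ := hc' _ hmem
        refine ⟨l.succ, ?_, ?_⟩
        · intro m hm
          refine Fin.cases ?_ ?_ m hm
          · intro _
            rw [Fin.cons_zero]
            refine ⟨?_, ha2' z hz⟩
            intro h
            apply h0
            rw [h]
            ring
          · intro m' hm'
            rw [Fin.cons_succ]
            have := h1 m' (Fin.succ_lt_succ_iff.mp hm')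
            exact this
        · rw [Fin.cons_succ]
          exact h2

/-- Domination: among a finite set of size `< 2^r`, `r` picks kill all but the last pick. -/
theorem dominating {V : Type} [DecidableEq V] (K : V → V → Prop)
    (hK : ∀ t j, t ≠ j → K t j ∨ K j t) (r : ℕ) :
    ∀ T : Finset V, T.Nonempty → T.card < 2 ^ r →
      ∃ (L : Fin r → V) (i0 : V), i0 ∈ T ∧ (∃ m, L m = i0) ∧
        ∀ j ∈ T, j ≠ i0 → ∃ m, L m ≠ j ∧ K (L m) j := by
  classical
  induction r with
  | zero =>
    intro T hT hc
    have h1 := hT.card_pos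
    rw [pow_zero] at hc
    omega
  | succ r ih =>
    intro T hT hc
    -- averaging
    obtain ⟨t, ht, htc⟩ : ∃ t ∈ T, 2 * (T.filter (fun j => t ≠ j ∧ ¬ K t j)).card ≤ T.card - 1 := by
      by_contra hcon
      push Not at hcon
      let A := T.offDiag.filter (fun x => ¬ K x.1 x.2)
      let B := T.offDiag.filter (fun x => ¬ K x.2 x.1)
      have hdisj : Disjoint A B := by
        rw [Finset.disjoint_left]
        intro x hx hx'
        have h1 := (Finset.mem_filter.mp hx)
        have h2 := (Finset.mem_filter.mp hx')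
        have h3 := (Finset.mem_offDiag.mp h1.1).2.2
        rcases hK x.1 x.2 h3 with h | h
        · exact h1.2 h
        · exact h2.2 h
      have hAB : A.card = B.card := by
        apply Finset.card_bij (fun x _ => x.swap)
        · intro x hx
          have h1 := (Finset.mem_filter.mp hx)
          have h3 := (Finset.mem_offDiag.mp h1.1)
          refine Finset.mem_filter.mpr ⟨Finset.mem_offDiag.mpr ⟨h3.2.1, h3.1, h3.2.2.symm⟩, h1.2⟩
        · intro x _ y _ h
          exact Prod.swap_injective h
        · intro x hx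
          have h1 := (Finset.mem_filter.mp hx)
          have h3 := (Finset.mem_offDiag.mp h1.1)
          refine ⟨x.swap, Finset.mem_filter.mpr ⟨Finset.mem_offDiag.mpr ⟨h3.2.1, h3.1, h3.2.2.symm⟩, h1.2⟩, ?_⟩
          exact Prod.swap_swap x
      have hsum : A.card = ∑ t ∈ T, (T.filter (fun j => t ≠ j ∧ ¬ K t j)).card := by
        have h1 : A = (T ×ˢ T).filter (fun x => x.1 ≠ x.2 ∧ ¬ K x.1 x.2) := by
          ext x
          simp only [A, Finset.mem_filter, Finset.mem_offDiag, Finset.mem_product]
          tauto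
        rw [h1, Finset.card_filter, Finset.sum_product]
        apply Finset.sum_congr rfl
        intro t _
        rw [Finset.card_filter]
      have hle : A.card + B.card ≤ T.card * T.card - T.card := by
        rw [← Finset.card_union_of_disjoint hdisj, ← Finset.offDiag_card]
        apply Finset.card_le_card
        intro x hx
        rcases Finset.mem_union.mp hx with h | h
        · exact (Finset.mem_filter.mp h).1
        · exact (Finset.mem_filter.mp h).1
      have hge : T.card * T.card ≤ 2 * A.card := by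
        rw [hsum, Finset.mul_sum]
        calc T.card * T.card = ∑ t ∈ T, T.card := by simp
          _ ≤ _ := by
            apply Finset.sum_le_sum
            intro t ht
            have := hcon t ht
            omega
      have hpos := hT.card_pos
      have : T.card * T.card ≥ T.card * 1 := Nat.mul_le_mul_left _ hpos
      omega
    let T' := T.filter (fun j => t ≠ j ∧ ¬ K t j)
    have hT'c : T'.card < 2 ^ r := by
      have : 2 ^ (r + 1) = 2 * 2 ^ r := by ring
      have hpos := hT.card_pos
      show (T.filter (fun j => t ≠ j ∧ ¬ K t j)).card < 2 ^ r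
      omega
    rcases T'.eq_empty_or_nonempty with h0 | hne
    · refine ⟨fun _ => t, t, ht, ⟨0, rfl⟩, ?_⟩
      intro j hj hjt
      refine ⟨0, fun h => hjt h.symm, ?_⟩
      by_contra hK'
      have : j ∈ T' := Finset.mem_filter.mpr ⟨hj, fun h => hjt h.symm, hK'⟩
      rw [h0] at this
      exact Finset.notMem_empty _ this
    · obtain ⟨L, i0, hi0, ⟨m0, hm0⟩, hL⟩ := ih T' hne hT'c
      have hi0' := Finset.mem_filter.mp hi0
      refine ⟨Fin.cons t L, i0, hi0'.1, ⟨m0.succ, by rw [Fin.cons_succ]; exact hm0⟩, ?_⟩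
      intro j hj hji
      by_cases hjt : j = t
      · subst hjt
        refine ⟨m0.succ, ?_, ?_⟩
        · rw [Fin.cons_succ, hm0]
          exact fun h => hji h.symm
        · rw [Fin.cons_succ, hm0]
          rcases hK j i0 hji with h | h
          · exact absurd h hi0'.2.2
          · exact h
      · by_cases hKt : K t j
        · refine ⟨0, ?_, ?_⟩
          · rw [Fin.cons_zero]
            exact fun h => hjt h.symm
          · rw [Fin.cons_zero]
            exact hKt
        · obtain ⟨m, hm1, hm2⟩ := hL j (Finset.mem_filter.mpr ⟨hj, fun h => hjt h.symm, hKt⟩) hji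
          refine ⟨m.succ, ?_, ?_⟩
          · rw [Fin.cons_succ]; exact hm1
          · rw [Fin.cons_succ]; exact hm2

/-- polynomial hash -/
def hash {p k : ℕ} (y : ZMod p) (c : Fin k → ZMod p) : ZMod p := ∑ l : Fin k, c l * y ^ (l : ℕ)

theorem hash_coll {p k : ℕ} [Fact p.Prime] (c z : Fin k → ZMod p) (h : c ≠ z) :
    (Finset.univ.filter (fun y : ZMod p => hash y c = hash y z)).card ≤ k := by
  classical
  by_contra hcon
  push Not at hcon
  apply h
  let P : Polynomial (ZMod p) := ∑ l : Fin k, Polynomial.C (c l - z l) * Polynomial.X ^ (l : ℕ)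
  have hdeg : P.degree < (k : ℕ) := by
    refine lt_of_le_of_lt (Polynomial.degree_sum_le _ _) ?_
    rw [Finset.sup_lt_iff (by exact WithBot.bot_lt_coe k)]
    intro l _
    refine lt_of_le_of_lt (Polynomial.degree_C_mul_X_pow_le _ _) ?_
    exact_mod_cast l.2
  have hzero : P = 0 := by
    apply Polynomial.eq_zero_of_degree_lt_of_eval_finset_eq_zero
      (Finset.univ.filter (fun y : ZMod p => hash y c = hash y z))
    · exact lt_trans hdeg (by exact_mod_cast hcon)
    · intro y hy
      have h1 := (Finset.mem_filter.mp hy).2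
      simp only [hash] at h1
      simp only [P, Polynomial.eval_finsetSum, Polynomial.eval_mul, Polynomial.eval_C, Polynomial.eval_pow,
        Polynomial.eval_X, sub_mul, Finset.sum_sub_distrib]
      rw [h1, sub_self]
  funext l
  have h2 : P.coeff (l : ℕ) = c l - z l := by
    simp only [P, Polynomial.finsetSum_coeff, Polynomial.coeff_C_mul_X_pow]
    rw [Finset.sum_eq_single l]
    · simp
    · intro b _ hb
      rw [if_neg]
      intro h
      exact hb (Fin.ext h.symm)
    · intro h
      exact absurd (Finset.mem_univ _) h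
  rw [hzero, Polynomial.coeff_zero] at h2
  exact (sub_eq_zero.mp h2.symm)

/-- Base symbols: a class and a list of `k` classes. -/
abbrev Base (p k : ℕ) := (Fin k → ZMod p) × (Fin k → (Fin k → ZMod p))

/-- the set of classes dominated by a base symbol -/
def Im {p k : ℕ} (b : Base p k) (z : Fin k → ZMod p) : Prop := (∃ m, b.2 m = z) ∧ R b.1 z

def dom {p k : ℕ} (b b' : Base p k) : Prop := Im b b'.1

theorem dom_antisymm {p k : ℕ} [Fact p.Prime] (hp : p ≠ 2) (b b' : Base p k) :
    dom b b' → dom b' b → False := fun h1 h2 => R_antisymm hp _ _ h1.2 h2.2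

theorem dom_exists {p k : ℕ} [Fact p.Prime] (hp : p ≠ 2) (hk : k < p)
    (w : Fin (k + 1) → Base p k) (i : Fin (k + 1)) : ∃ b, ∀ t, t ≠ i → dom b (w t) := by
  classical
  obtain ⟨c, hc⟩ := schutte hp k hk (Finset.univ.image (fun m : Fin k => (w (i.succAbove m)).1))
    (by
      refine Finset.card_image_le.trans ?_
      simp)
  refine ⟨(c, fun m => (w (i.succAbove m)).1), ?_⟩
  intro t ht
  obtain ⟨m, hm⟩ := Fin.exists_succAbove_eq ht
  refine ⟨⟨m, ?_⟩, ?_⟩
  · show (w (i.succAbove m)).1 = (w t).1
    rw [hm]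
  · apply hc
    rw [Finset.mem_image]
    exact ⟨m, Finset.mem_univ _, by rw [hm]⟩

/-- Evidence: a hash point, a list of (cell, hash value), a candidate. -/
abbrev Ev (p q r : ℕ) := ZMod p × (Fin r → Fin q × ZMod p) × Fin q

def side {p k q r : ℕ} (D : Ev p q r) (t : Fin q) (b : Base p k) : Prop :=
  (∀ m, (D.2.1 m).1 = t → hash D.1 b.1 = (D.2.1 m).2) ∧
  (t = D.2.2 ∨ ∃ m, (D.2.1 m).1 ≠ t ∧ ∀ z, Im b z → hash D.1 z ≠ (D.2.1 m).2)

theorem side_leader {p k q r : ℕ} (D : Ev p q r) (w : Fin q → Base p k)
    (hw : ∀ t, side D t (w t)) (j : Fin q) (hj : ∀ t, t ≠ j → dom (w j) (w t)) : j = D.2.2 := by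
  rcases (hw j).2 with h | ⟨m, hm1, hm2⟩
  · exact h
  · exfalso
    have h1 := (hw (D.2.1 m).1).1 m rfl
    exact hm2 _ (hj _ hm1) h1

theorem side_exists {p k q r : ℕ} [Fact p.Prime] (hp : p ≠ 2) (hq : 1 ≤ q) (hqr : q < 2 ^ r)
    (hpq : (q * q * k) * k < p) (w : Fin q → Base p k) :
    ∃ D : Ev p q r, ∀ t, side D t (w t) := by
  classical
  -- domination
  obtain ⟨L, i0, -, -, hL⟩ := dominating (fun t j : Fin q => ¬ Im (w j) (w t).1)
    (by
      intro t j _
      by_contra hcon
      push Not at hcon
      exact dom_antisymm hp (w t) (w j) hcon.2 hcon.1) r Finset.univ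
    ⟨⟨0, by omega⟩, Finset.mem_univ _⟩ (by simpa using hqr)
  -- hash point
  let F : Fin q × Fin q × Fin k → Finset (ZMod p) := fun x =>
    if (w x.1).1 = (w x.2.1).2 x.2.2 then ∅ else
      Finset.univ.filter (fun y : ZMod p => hash y (w x.1).1 = hash y ((w x.2.1).2 x.2.2))
  have hF : ∀ x, (F x).card ≤ k := by
    intro x
    simp only [F]
    split_ifs with h
    · simp
    · exact hash_coll _ _ h
  obtain ⟨y, hy⟩ : ∃ y : ZMod p, y ∉ Finset.univ.biUnion F := by
    by_contra hcon
    push Not at hcon
    have h1 : (Finset.univ.biUnion F) = Finset.univ := Finset.eq_univ_iff_forall.mpr hcon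
    have h2 : (Finset.univ.biUnion F).card ≤ ∑ x : Fin q × Fin q × Fin k, (F x).card :=
      Finset.card_biUnion_le
    have h3 : ∑ x : Fin q × Fin q × Fin k, (F x).card ≤ ∑ x : Fin q × Fin q × Fin k, k :=
      Finset.sum_le_sum (fun x _ => hF x)
    have h4 : ∑ x : Fin q × Fin q × Fin k, k = (q * q * k) * k := by
      rw [Finset.sum_const, Finset.card_univ]
      simp only [Fintype.card_prod, Fintype.card_fin, smul_eq_mul]
      ring
    rw [h1, Finset.card_univ, ZMod.card] at h2
    omega
  have hy' : ∀ (t j : Fin q) (z : Fin k → ZMod p), Im (w j) z → (w t).1 ≠ z →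
      hash y (w t).1 ≠ hash y z := by
    intro t j z hz hne h
    obtain ⟨m, hm⟩ := hz.1
    apply hy
    rw [Finset.mem_biUnion]
    refine ⟨(t, j, m), Finset.mem_univ _, ?_⟩
    simp only [F]
    rw [if_neg (by rw [hm]; exact hne), Finset.mem_filter, hm]
    exact ⟨Finset.mem_univ _, h⟩
  refine ⟨(y, (fun m => (L m, hash y (w (L m)).1)), i0), ?_⟩
  intro t
  refine ⟨?_, ?_⟩
  · intro m hm
    have hm' : L m = t := hm
    show hash y (w t).1 = hash y (w (L m)).1
    rw [hm']
  · by_cases ht : t = i0
    · left; exact ht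
    · right
      obtain ⟨m, hm1, hm2⟩ := hL t (Finset.mem_univ _) ht
      refine ⟨m, hm1, ?_⟩
      intro z hz h
      refine hy' (L m) t z hz ?_ h.symm
      intro h'
      apply hm2
      rw [h']
      exact hz

/-- the numerical consequence of the universal statement for the concrete gadget -/
theorem concrete_bound
    (H : ∀ (n d k m : ℕ), 1 ≤ d → 2 ≤ k → k ≤ n →
      ∀ (S : Fin m → Fin d → Finset (Fin n)),
        (∀ j i, (S j i).Nonempty ∧ S j i ≠ Finset.univ) →
        (∀ j j', j ≠ j' → ∀ x : Fin d → Fin n,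
          ¬ ((∀ l, x l ∈ S j l) ∧ (∀ l, x l ∈ S j' l))) →
        (∀ (i : Fin d) (x : Fin d → Fin n),
          k ≤ (Finset.univ.filter
            (fun j : Fin m => ∃ t : Fin n, ∀ l : Fin d, Function.update x i t l ∈ S j l)).card) →
        2 ^ d ≤ m)
    (k r G p s : ℕ) (hk : 1 ≤ k) (hG : 1 ≤ G) (hs : G * (k + 1) ≤ s) (hpr : p.Prime) (hp2 : p ≠ 2)
    (hr : k + 1 < 2 ^ r) (hp : ((k + 1) * (k + 1) * k) * k < p) (hkp : k < p) :
    2 ^ (G * (k + 1)) ≤ (G * (k + 1)) * ((p ^ k * (p ^ k) ^ k) *
      (s * (s ^ G * (p * (((k + 1) * p) ^ r * (k + 1))) ^ G))) := by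
  have : Fact p.Prime := ⟨hpr⟩
  have h := abstract_bound H (Base := Base p k) (Ev := Ev p (k + 1) r) (k + 1) G s (by omega) hG hs
    dom (dom_antisymm hp2) (dom_exists hp2 hkp) side (fun D => D.2.2) side_leader
    (side_exists hp2 (by omega) hr hp)
  simpa only [Base, Ev, Fintype.card_prod, Fintype.card_fun, Fintype.card_fin, ZMod.card] using h

/-- pure arithmetic: comparison of exponents -/
theorem exponents (P k r G a b c x y z : ℕ)
    (h : 2 ^ x ≤ 2 ^ a * (((2 ^ P) ^ k * ((2 ^ P) ^ k) ^ k) *
      (2 ^ b * ((2 ^ b) ^ G * (2 ^ P * (((2 ^ c) * 2 ^ P) ^ r * 2 ^ c)) ^ G))))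
    (hy : P * k + P * k * k = y) (hz : (P + ((c + P) * r + c)) * G = z) :
    x ≤ a + (y + (b + (b * G + z))) := by
  have e : 2 ^ a * (((2 ^ P) ^ k * ((2 ^ P) ^ k) ^ k) *
      (2 ^ b * ((2 ^ b) ^ G * (2 ^ P * (((2 ^ c) * 2 ^ P) ^ r * 2 ^ c)) ^ G)))
      = 2 ^ (a + (y + (b + (b * G + z)))) := by
    subst hy
    subst hz
    simp only [← pow_mul, ← pow_add]
  rw [e] at h
  exact (Nat.pow_le_pow_iff_right (by norm_num)).mp h

end Combinatorics

/-- The negation of the preceding statement: For d≥1 and 2≤k≤n: if m pairwise disjoint boxes in [n]^d have every side a nonempty proper subset of [n], and every axis-parallel line meets at least k of them, then m is at least 2^d. -/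
theorem result :
    ¬ (∀ (n d k m : ℕ), 1 ≤ d → 2 ≤ k → k ≤ n →
      ∀ (S : Fin m → Fin d → Finset (Fin n)),
        (∀ j i, (S j i).Nonempty ∧ S j i ≠ Finset.univ) →
        (∀ j j', j ≠ j' → ∀ x : Fin d → Fin n,
          ¬ ((∀ l, x l ∈ S j l) ∧ (∀ l, x l ∈ S j' l))) →
        (∀ (i : Fin d) (x : Fin d → Fin n),
          k ≤ (Finset.univ.filter
            (fun j : Fin m => ∃ t : Fin n, ∀ l : Fin d, Function.update x i t l ∈ S j l)).card) →
        2 ^ d ≤ m) := by
  intro H
  obtain ⟨p, hpr, hp1, hp2⟩ := Nat.exists_prime_lt_and_le_two_mul (2 ^ 40) (by norm_num)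
  obtain ⟨k, hk⟩ : ∃ k : ℕ, k = 1023 := ⟨_, rfl⟩
  obtain ⟨r, hr⟩ : ∃ r : ℕ, r = 11 := ⟨_, rfl⟩
  obtain ⟨G, hG⟩ : ∃ G : ℕ, G = 131072 := ⟨_, rfl⟩
  obtain ⟨s, hs⟩ : ∃ s : ℕ, s = 134217728 := ⟨_, rfl⟩
  have hp1' : 1099511627776 < p := by
    have : (2 : ℕ) ^ 40 = 1099511627776 := by norm_num
    omega
  have hp2' : p ≤ 2 ^ 41 := by
    have : (2 : ℕ) ^ 41 = 2 * 2 ^ 40 := by norm_num
    omega
  have h := concrete_bound H k r G p s (by omega) (by omega) (by subst hG hk hs; norm_num) hpr (by omega)
    (by subst hk hr; norm_num)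
    (by
      subst hk
      norm_num
      omega)
    (by omega)
  have hd : G * (k + 1) = 2 ^ 27 := by subst hG hk; norm_num
  have hs' : s = 2 ^ 27 := by subst hs; norm_num
  have hk' : k + 1 = 2 ^ 10 := by subst hk; norm_num
  have h2 : 2 ^ (G * (k + 1)) ≤ 2 ^ 27 * (((2 ^ 41) ^ k * ((2 ^ 41) ^ k) ^ k) *
      (2 ^ 27 * ((2 ^ 27) ^ G * (2 ^ 41 * (((2 ^ 10) * 2 ^ 41) ^ r * 2 ^ 10)) ^ G))) := by
    refine h.trans ?_
    rw [hd, hs', hk']
    gcongr
  have h3 := exponents 41 k r G 27 27 10 (G * (k + 1)) _ _ h2 rfl rfl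
  subst hG hk hr
  norm_num at h3

end Pool.Agent.S05526
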