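-- The Hughes plane of order nine, built from a relative difference set with
-- parameters (13, 6, 9, 1) in the direct product of a cyclic group of order 13 and the
-- symmetric group on three letters, relative to the second factor.
import Pool.Statements.S05529
import Mathlib

set_option autoImplicit false
open Pool Pool.MP_4adf9f_co

namespace Pool.Agent.S05529

/-- The dihedral group of order six (the symmetric group on three letters). -/
abbrev K : Type := DihedralGroup 3

/-- Points (and lines): `(x, none)` belongs to the Baer subplane, `(x, some t)` is outside. -/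
abbrev X : Type := ZMod 13 × Option K

/-- The group of order 78 acting. -/
abbrev G : Type := Multiplicative (ZMod 13) × K

/-- The relative difference set of size nine, as a function defined on nine residues mod 13. -/
def D (d : ZMod 13) : Option K :=
  match d.val with
  | 2 => some (.r 0)
  | 4 => some (.r 1)
  | 5 => some (.r 2)
  | 6 => some (.r 1)
  | 7 => some (.sr 0)
  | 8 => some (.sr 0)
  | 10 => some (.r 0)
  | 11 => some (.sr 0)
  | 12 => some (.r 2)
  | _ => none

/-- Incidence. -/
def inc (p l : X) : Bool :=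
  match p.2, l.2 with
  | none, none => decide ((p.1 - l.1 = 0 ∨ p.1 - l.1 = 12) ∨ (p.1 - l.1 = 10 ∨ p.1 - l.1 = 4))
  | some _, none => decide (p.1 - l.1 = 0)
  | none, some _ => decide (p.1 - l.1 = 0)
  | some t, some r => decide (D (p.1 - l.1) = some (r⁻¹ * t))

/-- The action of the group on points and on lines. -/
def act (g : G) (p : X) : X := (g.1.toAdd + p.1, p.2.map (fun t => g.2 * t))

theorem act_one (p : X) : act 1 p = p := by
  rcases p with ⟨x, _ | t⟩ <;> simp [act]

theorem act_mul (g h : G) (p : X) : act (g * h) p = act g (act h p) := by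
  rcases p with ⟨x, _ | t⟩ <;> simp [act, mul_assoc, add_assoc]

theorem act_inc (g : G) (p l : X) : inc (act g p) (act g l) = inc p l := by
  rcases p with ⟨x, _ | t⟩ <;> rcases l with ⟨y, _ | r⟩ <;>
    simp [act, inc, mul_assoc]

/-- The representation by permutations. -/
def perm : G →* Equiv.Perm X where
  toFun g :=
    { toFun := act g
      invFun := act g⁻¹
      left_inv := fun p => by rw [← act_mul]; simp [act_one]
      right_inv := fun p => by rw [← act_mul]; simp [act_one] }
  map_one' := by ext1 p; exact act_one p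
  map_mul' g h := by ext1 p; exact act_mul g h p

theorem perm_apply (g : G) (p : X) : perm g p = act g p := rfl

theorem base (l : X) : ∃ g : G, act g l = (0, none) ∨ act g l = (0, some 1) := by
  rcases l with ⟨y, _ | r⟩
  · exact ⟨(Multiplicative.ofAdd (-y), 1), Or.inl (by simp [act])⟩
  · exact ⟨(Multiplicative.ofAdd (-y), r⁻¹), Or.inr (by simp [act])⟩

set_option maxRecDepth 100000 in
theorem lines_base0 : ∀ m : X, (0, none) ≠ m →
    (Finset.univ.filter (fun p : X => inc p (0, none) = true ∧ inc p m = true)).card = 1 := by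
  decide +kernel

set_option maxRecDepth 100000 in
theorem lines_base1 : ∀ m : X, (0, some 1) ≠ m →
    (Finset.univ.filter (fun p : X => inc p (0, some 1) = true ∧ inc p m = true)).card = 1 := by
  decide +kernel

set_option maxRecDepth 100000 in
theorem pts_base0 : ∀ q : X, ∃ l : X, inc (0, none) l = true ∧ inc q l = true := by
  decide +kernel

set_option maxRecDepth 100000 in
theorem pts_base1 : ∀ q : X, ∃ l : X, inc (0, some 1) l = true ∧ inc q l = true := by
  decide +kernel

set_option maxRecDepth 100000 in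
theorem exists_off_line : ∀ l : X, ∃ p : X, ¬ inc p l = true := by
  decide +kernel

set_option maxRecDepth 100000 in
theorem exists_off_point : ∀ p : X, ∃ l : X, ¬ inc p l = true := by
  decide +kernel

theorem existsUnique_point (l m : X) (h : l ≠ m) :
    ∃! p : X, inc p l = true ∧ inc p m = true := by
  obtain ⟨g, hg⟩ := base l
  have hne : act g l ≠ act g m := fun e => h ((perm g).injective e)
  have key : (Finset.univ.filter
      (fun p : X => inc p (act g l) = true ∧ inc p (act g m) = true)).card = 1 := by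
    rcases hg with hg | hg
    · rw [hg] at hne ⊢
      exact lines_base0 _ hne
    · rw [hg] at hne ⊢
      exact lines_base1 _ hne
  obtain ⟨p, hp⟩ := Finset.card_eq_one.mp key
  have hmem : ∀ q : X, (inc q (act g l) = true ∧ inc q (act g m) = true) ↔ q = p := by
    intro q
    have := Finset.ext_iff.mp hp q
    simpa using this
  have hback : ∀ q : X, act g (act g⁻¹ q) = q := fun q => by
    rw [← act_mul]; simp [act_one]
  refine ⟨act g⁻¹ p, ?_, ?_⟩
  · have h1 := (hmem p).mpr rfl
    refine ⟨?_, ?_⟩
    · rw [← act_inc g, hback]; exact h1.1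
    · rw [← act_inc g, hback]; exact h1.2
  · intro q hq
    have h2 : act g q = p := (hmem _).mp ⟨by rw [act_inc]; exact hq.1, by rw [act_inc]; exact hq.2⟩
    rw [← h2, ← act_mul]
    simp [act_one]

theorem exists_line_through (p q : X) : ∃ l : X, inc p l = true ∧ inc q l = true := by
  obtain ⟨g, hg⟩ := base p
  have hback : ∀ q : X, act g (act g⁻¹ q) = q := fun q => by
    rw [← act_mul]; simp [act_one]
  have key : ∃ l : X, inc (act g p) l = true ∧ inc (act g q) l = true := by
    rcases hg with hg | hg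
    · rw [hg]; exact pts_base0 _
    · rw [hg]; exact pts_base1 _
  obtain ⟨l, h1, h2⟩ := key
  refine ⟨act g⁻¹ l, ?_, ?_⟩
  · rw [← act_inc g, hback]; exact h1
  · rw [← act_inc g, hback]; exact h2

theorem config : ¬ inc (0, none) (2, none) = true ∧ ¬ inc (0, none) (4, none) = true ∧
    ¬ inc (1, none) (0, none) = true ∧ inc (1, none) (2, none) = true ∧
    inc (1, none) (4, none) = true ∧ ¬ inc (2, none) (0, none) = true ∧
    inc (2, none) (2, none) = true ∧ ¬ inc (2, none) (4, none) = true := by
  decide +kernel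

/-- The representation on points and lines. -/
def rep : G →* Equiv.Perm X × Equiv.Perm X := perm.prod perm

theorem rep_injective : Function.Injective rep := by
  intro g h e
  have e1 : act g (0, some 1) = act h (0, some 1) :=
    congrArg (fun s : Equiv.Perm X × Equiv.Perm X => s.1 (0, some 1)) e
  have e2 : g.1.toAdd = h.1.toAdd ∧ g.2 = h.2 := by simpa [act] using e1
  exact Prod.ext (Multiplicative.toAdd.injective e2.1) e2.2

theorem quasi (g : G) (p : X) (hp : act g p = p) (h : G) : act g (act h p) = act h p := by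
  rcases g with ⟨a, s⟩
  rcases p with ⟨x, _ | t⟩
  · have : a.toAdd = 0 := by simpa [act] using hp
    simp [act, this]
  · have : a.toAdd = 0 ∧ s = 1 := by simpa [act] using hp
    simp [act, this.1, this.2]

theorem moved (p : X) : act (Multiplicative.ofAdd 1, 1) p ≠ p := by
  rcases p with ⟨x, o⟩
  intro h
  have h1 : (1 : ZMod 13) + x = x := congrArg Prod.fst h
  have h2 : (1 : ZMod 13) = 0 := by simpa using h1
  exact absurd h2 (by decide)

theorem two_orbits : ∃ p q : X, (¬ ∃ g ∈ rep.range, g.1 p = q) ∧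
    ∀ r : X, (∃ g ∈ rep.range, g.1 p = r) ∨ (∃ g ∈ rep.range, g.1 q = r) := by
  refine ⟨(0, none), (0, some 1), ?_, ?_⟩
  · rintro ⟨_, ⟨g, rfl⟩, h⟩
    have h1 : (act g (0, none)).2 = some 1 := congrArg Prod.snd h
    simp [act] at h1
  · rintro ⟨x, _ | t⟩
    · refine Or.inl ⟨rep (Multiplicative.ofAdd x, 1), ⟨_, rfl⟩, ?_⟩
      change act _ _ = _
      simp [act]
    · refine Or.inr ⟨rep (Multiplicative.ofAdd x, t), ⟨_, rfl⟩, ?_⟩
      change act _ _ = _
      simp [act]

theorem two_orbits' : ∃ p q : X, (¬ ∃ g ∈ rep.range, g.2 p = q) ∧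
    ∀ r : X, (∃ g ∈ rep.range, g.2 p = r) ∨ (∃ g ∈ rep.range, g.2 q = r) := by
  refine ⟨(0, none), (0, some 1), ?_, ?_⟩
  · rintro ⟨_, ⟨g, rfl⟩, h⟩
    have h1 : (act g (0, none)).2 = some 1 := congrArg Prod.snd h
    simp [act] at h1
  · rintro ⟨x, _ | t⟩
    · refine Or.inl ⟨rep (Multiplicative.ofAdd x, 1), ⟨_, rfl⟩, ?_⟩
      change act _ _ = _
      simp [act]
    · refine Or.inr ⟨rep (Multiplicative.ofAdd x, t), ⟨_, rfl⟩, ?_⟩
      change act _ _ = _
      simp [act]

/-- Incidence as a membership relation. -/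
@[reducible] def mem : Membership X X := ⟨fun l p => inc p l = true⟩

/-- The projective plane. -/
@[reducible] noncomputable def plane : @Configuration.ProjectivePlane X X mem :=
  letI := mem
  { exists_point := fun l => exists_off_line l
    exists_line := fun p => exists_off_point p
    eq_or_eq := fun {p₁ p₂ l₁ l₂} h1 h2 h3 h4 => by
      by_cases h : l₁ = l₂
      · exact Or.inr h
      · exact Or.inl ((existsUnique_point l₁ l₂ h).unique ⟨h1, h3⟩ ⟨h2, h4⟩)
    mkPoint := fun {l₁ l₂} h => (existsUnique_point l₁ l₂ h).choose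
    mkPoint_ax := fun {l₁ l₂} h => (existsUnique_point l₁ l₂ h).choose_spec.1
    mkLine := fun {p₁ p₂} _ => (exists_line_through p₁ p₂).choose
    mkLine_ax := fun {p₁ p₂} _ => (exists_line_through p₁ p₂).choose_spec
    exists_config := ⟨(0, none), (1, none), (2, none), (0, none), (2, none), (4, none), config⟩ }

/-- There is a finite projective plane of square order n=k², n≠4, with a quasiregular collineation group of order n²−√n (>(n²+n+1)/2) having exactly two point orbits, two line orbits, and no fixed points or lines. -/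
theorem result :
    ∃ (P L : Type) (_ : Finite P) (_ : Finite L) (_ : Membership P L)
      (_ : Configuration.ProjectivePlane P L)
      (Γ : Subgroup (Equiv.Perm P × Equiv.Perm L)) (k : ℕ),
      Configuration.ProjectivePlane.order P L = k ^ 2 ∧
      k ^ 2 ≠ 4 ∧
      (∀ g ∈ Γ, ∀ p : P, ∀ l : L, p ∈ l ↔ g.1 p ∈ g.2 l) ∧
      (∀ g ∈ Γ, ∀ p : P, g.1 p = p → ∀ h ∈ Γ, g.1 (h.1 p) = h.1 p) ∧
      (∀ g ∈ Γ, ∀ l : L, g.2 l = l → ∀ h ∈ Γ, g.2 (h.2 l) = h.2 l) ∧
      Nat.card Γ = k ^ 4 - k ∧
      2 * Nat.card Γ > k ^ 4 + k ^ 2 + 1 ∧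
      (∃ p q : P, (¬ ∃ g ∈ Γ, g.1 p = q) ∧
        ∀ r : P, (∃ g ∈ Γ, g.1 p = r) ∨ (∃ g ∈ Γ, g.1 q = r)) ∧
      (∃ l m : L, (¬ ∃ g ∈ Γ, g.2 l = m) ∧
        ∀ r : L, (∃ g ∈ Γ, g.2 l = r) ∨ (∃ g ∈ Γ, g.2 m = r)) ∧
      (∀ p : P, ∃ g ∈ Γ, g.1 p ≠ p) ∧
      (∀ l : L, ∃ g ∈ Γ, g.2 l ≠ l) := by
  have hcard : Nat.card rep.range = 78 := by
    rw [← Nat.card_congr (MonoidHom.ofInjective rep_injective).toEquiv, Nat.card_prod]
    rw [Nat.card_eq_fintype_card, Nat.card_eq_fintype_card]
    decide
  refine ⟨X, X, inferInstance, inferInstance, mem, plane, rep.range, 3, ?_, ?_, ?_, ?_, ?_, ?_, ?_,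
    ?_, ?_, ?_, ?_⟩
  · have h := @Configuration.ProjectivePlane.card_points X X mem plane _ _
    have hX : Fintype.card X = 91 := by decide
    rw [hX] at h
    generalize @Configuration.ProjectivePlane.order X X mem plane = n at h ⊢
    have h1 : n ≤ 9 := by nlinarith
    interval_cases n <;> omega
  · norm_num
  · rintro _ ⟨g, rfl⟩ p l
    change inc p l = true ↔ inc (act g p) (act g l) = true
    rw [act_inc]
  · rintro _ ⟨g, rfl⟩ p hp _ ⟨h, rfl⟩
    exact quasi g p hp h
  · rintro _ ⟨g, rfl⟩ p hp _ ⟨h, rfl⟩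
    exact quasi g p hp h
  · rw [hcard]; norm_num
  · rw [hcard]; norm_num
  · exact two_orbits
  · exact two_orbits'
  · intro p
    exact ⟨rep (Multiplicative.ofAdd 1, 1), ⟨_, rfl⟩, moved p⟩
  · intro p
    exact ⟨rep (Multiplicative.ofAdd 1, 1), ⟨_, rfl⟩, moved p⟩

end Pool.Agent.S05529
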