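import Pool.Statements.S05542
-- import your own Pool.Agent.* helpers here

set_option autoImplicit false
open Pool Pool.MP_4bab84_co

namespace Pool.Agent.S05542

/-- position of a code in the plane -/
noncomputable def pt : ℕ → ℝ × ℝ
  | 0 => (0, 1)
  | 1 => (0, -1)
  | (k + 2) => ((k : ℝ) + 2, 0)

noncomputable def seg (p q : ℝ × ℝ) : Path p q where
  toFun t := (1 - (t : ℝ)) • p + (t : ℝ) • q
  continuous_toFun := by fun_prop
  source' := by simp
  target' := by simp

lemma pt_ge {a : ℕ} (ha : 2 ≤ a) : pt a = ((a : ℝ), 0) := by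
  obtain ⟨k, rfl⟩ := Nat.exists_eq_add_of_le' ha
  simp [pt]

def InE (a b : ℕ) (z : ℝ × ℝ) : Prop :=
  ∃ s : ℝ, 0 < s ∧ s < 1 ∧ z = (1 - s) • pt a + s • pt b

lemma InE.symm {a b : ℕ} {z : ℝ × ℝ} (h : InE a b z) : InE b a z := by
  obtain ⟨s, h0, h1, rfl⟩ := h
  refine ⟨1 - s, by linarith, by linarith, ?_⟩
  rw [add_comm]; congr 2; ring

lemma InE_01 {z : ℝ × ℝ} (h : InE 0 1 z) : z.1 = 0 ∧ -1 < z.2 ∧ z.2 < 1 := by
  obtain ⟨s, h0, h1, rfl⟩ := h
  simp [pt]; constructor <;> linarith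

lemma InE_0b {b : ℕ} (hb : 2 ≤ b) {z : ℝ × ℝ} (h : InE 0 b z) :
    0 < z.1 ∧ 0 < z.2 ∧ z.2 < 1 ∧ z.1 = b * (1 - z.2) := by
  obtain ⟨s, h0, h1, rfl⟩ := h
  have hb' : (0 : ℝ) < b := by positivity
  rw [pt_ge hb]
  simp [pt]
  refine ⟨by positivity, by linarith, by linarith, by ring⟩

lemma InE_1b {b : ℕ} (hb : 2 ≤ b) {z : ℝ × ℝ} (h : InE 1 b z) :
    0 < z.1 ∧ z.2 < 0 ∧ -1 < z.2 ∧ z.1 = b * (1 + z.2) := by
  obtain ⟨s, h0, h1, rfl⟩ := h
  have hb' : (0 : ℝ) < b := by positivity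
  rw [pt_ge hb]
  simp [pt]
  refine ⟨by positivity, by linarith, by linarith, by ring⟩

lemma InE_ab {a b : ℕ} (ha : 2 ≤ a) (hab : a < b) {z : ℝ × ℝ} (h : InE a b z) :
    z.2 = 0 ∧ (a : ℝ) < z.1 ∧ z.1 < b := by
  obtain ⟨s, h0, h1, rfl⟩ := h
  have hb' : (a : ℝ) < b := by exact_mod_cast hab
  rw [pt_ge ha, pt_ge (by omega : 2 ≤ b)]
  simp
  constructor <;> nlinarith

lemma pt_inj {a b : ℕ} (h : pt a = pt b) : a = b := by
  rcases Nat.lt_or_ge a 2 with ha | ha <;> rcases Nat.lt_or_ge b 2 with hb | hb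
  · interval_cases a <;> interval_cases b <;> simp_all [pt] <;> norm_num at h
  · rw [pt_ge hb] at h
    interval_cases a <;> simp [pt] at h
  · rw [pt_ge ha] at h
    interval_cases b <;> simp [pt] at h
  · rw [pt_ge ha, pt_ge hb] at h
    simpa using h

/-- three kinds of edges -/
lemma kinds {a b : ℕ} (hab : a < b) : (a = 0 ∧ b = 1) ∨ (a = 0 ∧ 2 ≤ b) ∨ (a = 1 ∧ 2 ≤ b) ∨ 2 ≤ a := by
  omega

lemma not_vertex {a b v : ℕ} (hab : a < b) (hv : 2 ≤ a → ¬ (a < v ∧ v < b)) :
    ¬ InE a b (pt v) := by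
  intro h
  rcases kinds hab with ⟨rfl, rfl⟩ | ⟨rfl, hb⟩ | ⟨rfl, hb⟩ | ha
  · obtain ⟨h1, h2, h3⟩ := InE_01 h
    rcases Nat.lt_or_ge v 2 with h' | h'
    · interval_cases v <;> simp [pt] at h1 h2 h3
    · rw [pt_ge h'] at h1
      simp at h1; omega
  · obtain ⟨h1, h2, h3, h4⟩ := InE_0b hb h
    rcases Nat.lt_or_ge v 2 with h' | h'
    · interval_cases v <;> simp [pt] at h1 h2 h3
    · rw [pt_ge h'] at h2
      simp at h2
  · obtain ⟨h1, h2, h3, h4⟩ := InE_1b hb h
    rcases Nat.lt_or_ge v 2 with h' | h'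
    · interval_cases v <;> simp [pt] at h1 h2 h3
    · rw [pt_ge h'] at h2
      simp at h2
  · obtain ⟨h1, h2, h3⟩ := InE_ab ha hab h
    rcases Nat.lt_or_ge v 2 with h' | h'
    · interval_cases v <;> simp [pt] at h1 
    · rw [pt_ge h'] at h2 h3
      simp at h2 h3
      exact hv ha ⟨h2, h3⟩

lemma disj {a b c d : ℕ} (hab : a < b) (hcd : c < d) (hne : a ≠ c ∨ b ≠ d)
    (h1 : 2 ≤ a → ¬ (a < c ∧ c < b)) (h1' : 2 ≤ a → ¬ (a < d ∧ d < b))
    (h2 : 2 ≤ c → ¬ (c < a ∧ a < d)) (h2' : 2 ≤ c → ¬ (c < b ∧ b < d)) {z : ℝ × ℝ}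
    (hz : InE a b z) (hz' : InE c d z) : False := by
  rcases kinds hab with ⟨rfl, rfl⟩ | ⟨rfl, hb⟩ | ⟨rfl, hb⟩ | ha <;>
  rcases kinds hcd with ⟨rfl, rfl⟩ | ⟨rfl, hd⟩ | ⟨rfl, hd⟩ | hc
  · omega
  · have := InE_01 hz; have := InE_0b hd hz'; linarith
  · have := InE_01 hz; have := InE_1b hd hz'; linarith
  · have := InE_01 hz; have := InE_ab hc hcd hz'
    have h3 : (0 : ℝ) ≤ c := by positivity
    linarith
  · have := InE_01 hz'; have := InE_0b hb hz; linarith
  · obtain ⟨e1, e2, e3, e4⟩ := InE_0b hb hz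
    obtain ⟨f1, f2, f3, f4⟩ := InE_0b hd hz'
    have : (b : ℝ) = d := by
      have h5 : (b : ℝ) * (1 - z.2) = d * (1 - z.2) := by linarith
      exact mul_right_cancel₀ (by linarith : (1 - z.2) ≠ 0) h5
    have : b = d := by exact_mod_cast this
    omega
  · have := InE_0b hb hz; have := InE_1b hd hz'; linarith
  · have := InE_0b hb hz; have := InE_ab hc hcd hz'; linarith
  · have := InE_01 hz'; have := InE_1b hb hz; linarith
  · have := InE_1b hb hz; have := InE_0b hd hz'; linarith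
  · obtain ⟨e1, e2, e3, e4⟩ := InE_1b hb hz
    obtain ⟨f1, f2, f3, f4⟩ := InE_1b hd hz'
    have : (b : ℝ) = d := by
      have h5 : (b : ℝ) * (1 + z.2) = d * (1 + z.2) := by linarith
      exact mul_right_cancel₀ (by linarith : (1 + z.2) ≠ 0) h5
    have : b = d := by exact_mod_cast this
    omega
  · have := InE_1b hb hz; have := InE_ab hc hcd hz'; linarith
  · have := InE_ab ha hab hz; have := InE_01 hz'
    have h3 : (0 : ℝ) ≤ a := by positivity
    linarith
  · have := InE_ab ha hab hz; have := InE_0b hd hz'; linarith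
  · have := InE_ab ha hab hz; have := InE_1b hd hz'; linarith
  · obtain ⟨e1, e2, e3⟩ := InE_ab ha hab hz
    obtain ⟨f1, f2, f3⟩ := InE_ab hc hcd hz'
    have g1 : (a : ℝ) < d := by linarith
    have g2 : (c : ℝ) < b := by linarith
    have g1 : a < d := by exact_mod_cast g1
    have g2 : c < b := by exact_mod_cast g2
    have := h1 ha; have := h2 hc; have := h1' ha; have := h2' hc
    omega

/-- `φ` codes the vertices: codes `0`, `1` are hubs, and among vertices of code at least `2`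
only consecutive ones (for the order of the codes) can be adjacent. -/
def Good {n : ℕ} (G : SimpleGraph (Fin n)) (φ : Fin n → ℕ) : Prop :=
  Function.Injective φ ∧
    ∀ u v, G.Adj u v → φ u < φ v → 2 ≤ φ u → ∀ w, ¬ (φ u < φ w ∧ φ w < φ v)

def Cls (n : ℕ) (G : SimpleGraph (Fin n)) : Prop := ∃ φ, Good G φ

lemma planar {n : ℕ} (G : SimpleGraph (Fin n)) (h : Cls n G) :
      ∃ f : Fin n → ℝ × ℝ, Function.Injective f ∧
      ∃ γ : (i j : Fin n) → Path (f i) (f j),
        (∀ i j, G.Adj i j → i < j → Function.Injective ⇑(γ i j)) ∧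
        (∀ i j, G.Adj i j → i < j → ∀ t : unitInterval, (t : ℝ) ∈ Set.Ioo (0 : ℝ) 1 →
            ∀ v, γ i j t ≠ f v) ∧
        (∀ i j k l, G.Adj i j → i < j → G.Adj k l → k < l → (i ≠ k ∨ j ≠ l) →
          ∀ s t : unitInterval, (s : ℝ) ∈ Set.Ioo (0 : ℝ) 1 → (t : ℝ) ∈ Set.Ioo (0 : ℝ) 1 →
            γ i j s ≠ γ k l t) := by
  obtain ⟨φ, hinj, hφ⟩ := h
  have hfinj : Function.Injective (fun i => pt (φ i)) := fun i j hij => hinj (pt_inj hij)
  -- every edge has an ordered code pair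
  have key : ∀ i j, G.Adj i j → ∃ u v, G.Adj u v ∧ φ u < φ v ∧ ((u = i ∧ v = j) ∨ (u = j ∧ v = i)) ∧
      ∀ t : unitInterval, (t : ℝ) ∈ Set.Ioo (0 : ℝ) 1 → InE (φ u) (φ v) (seg (pt (φ i)) (pt (φ j)) t) := by
    intro i j hij
    have hne : φ i ≠ φ j := fun h => hij.ne (hinj h)
    rcases lt_or_gt_of_ne hne with hlt | hlt
    · exact ⟨i, j, hij, hlt, Or.inl ⟨rfl, rfl⟩, fun t ht => ⟨t, ht.1, ht.2, rfl⟩⟩
    · exact ⟨j, i, hij.symm, hlt, Or.inr ⟨rfl, rfl⟩, fun t ht => InE.symm ⟨t, ht.1, ht.2, rfl⟩⟩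
  refine ⟨fun i => pt (φ i), hfinj, fun i j => seg (pt (φ i)) (pt (φ j)), ?_, ?_, ?_⟩
  · intro i j hij _ s t hst
    have hne : pt (φ i) ≠ pt (φ j) := fun h => hij.ne (hfinj h)
    have h1 : (1 - (s : ℝ)) • pt (φ i) + (s : ℝ) • pt (φ j)
        = (1 - (t : ℝ)) • pt (φ i) + (t : ℝ) • pt (φ j) := hst
    have h2 : ((s : ℝ) - t) • (pt (φ j) - pt (φ i)) = 0 := by
      have h3 : ((s : ℝ) - t) • (pt (φ j) - pt (φ i)) = ((1 - (s : ℝ)) • pt (φ i) + (s : ℝ) • pt (φ j))
        - ((1 - (t : ℝ)) • pt (φ i) + (t : ℝ) • pt (φ j)) := by module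
      rw [h3, h1, sub_self]
    rcases smul_eq_zero.mp h2 with h4 | h4
    · exact Subtype.ext (by linarith)
    · exact absurd (sub_eq_zero.mp h4).symm hne
  · intro i j hij _ t ht v hv
    obtain ⟨a, b, hab, hlt, _, hE⟩ := key i j hij
    have := hE t ht
    have hv' : seg (pt (φ i)) (pt (φ j)) t = pt (φ v) := hv
    rw [hv'] at this
    exact not_vertex hlt (fun h2 => hφ a b hab hlt h2 v) this
  · intro i j k l hij hlt hkl hlt' hne s t hs ht heq
    obtain ⟨a, b, hab, h1, h2, hE⟩ := key i j hij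
    obtain ⟨c, d, hcd, h3, h4, hE'⟩ := key k l hkl
    have e1 := hE s hs
    have e2 := hE' t ht
    have heq' : seg (pt (φ i)) (pt (φ j)) s = seg (pt (φ k)) (pt (φ l)) t := heq
    rw [← heq'] at e2
    refine disj h1 h3 ?_ (fun h => hφ a b hab h1 h c) (fun h => hφ a b hab h1 h d)
      (fun h => hφ c d hcd h3 h a) (fun h => hφ c d hcd h3 h b) e1 e2
    by_contra hcon
    push Not at hcon
    obtain ⟨h5, h6⟩ := hcon
    have h5 := hinj h5
    have h6 := hinj h6
    subst h5; subst h6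
    rcases h2 with ⟨rfl, rfl⟩ | ⟨rfl, rfl⟩ <;> rcases h4 with ⟨rfl, rfl⟩ | ⟨rfl, rfl⟩
    · simp at hne
    · exact absurd hlt (not_lt_of_gt hlt')
    · exact absurd hlt (not_lt_of_gt hlt')
    · simp at hne

lemma cross {n : ℕ} (G : SimpleGraph (Fin n)) (φ : Fin n → ℕ) (S : Set (Fin n))
    (hS : (G.induce S).Connected) (c : ℕ) {x y : Fin n} (hx : x ∈ S) (hy : y ∈ S)
    (hxc : φ x < c) (hyc : c < φ y) (hno : ∀ z ∈ S, φ z ≠ c) :
    ∃ u ∈ S, ∃ v ∈ S, G.Adj u v ∧ φ u < c ∧ c < φ v := by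
  obtain ⟨p⟩ := hS.preconnected ⟨x, hx⟩ ⟨y, hy⟩
  obtain ⟨d, _, h1, h2⟩ := p.exists_boundary_dart {z | φ z.1 < c} hxc (by simp; omega)
  refine ⟨d.fst.1, d.fst.2, d.snd.1, d.snd.2, ?_, h1, ?_⟩
  · have := d.adj
    simpa using this
  · have := hno d.snd.1 d.snd.2
    simp at h2
    omega

lemma closure {n m : ℕ} (G : SimpleGraph (Fin n)) (H : SimpleGraph (Fin m)) {φ : Fin n → ℕ}
    (hG : Good G φ) (B : Fin m → Set (Fin n)) (hc : ∀ i, (G.induce (B i)).Connected)
    (hd : ∀ i j, i ≠ j → Disjoint (B i) (B j))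
    (ha : ∀ i j, i ≠ j → (H.Adj i j ↔ ∃ u ∈ B i, ∃ v ∈ B j, G.Adj u v)) :
    ∃ ψ : Fin m → ℕ, Good H ψ ∧ (∀ i, ∃ x ∈ B i, φ x = ψ i) ∧ (∀ i, ∀ x ∈ B i, ψ i ≤ φ x) := by
  have hne : ∀ i, (φ '' B i).Nonempty := by
    intro i
    obtain ⟨x⟩ := (hc i).nonempty
    exact ⟨φ x.1, x.1, x.2, rfl⟩
  have hmem : ∀ i, ∃ x ∈ B i, φ x = sInf (φ '' B i) := fun i => Nat.sInf_mem (hne i)
  have hle : ∀ i, ∀ x ∈ B i, sInf (φ '' B i) ≤ φ x := fun i x hx => Nat.sInf_le ⟨x, hx, rfl⟩
  refine ⟨fun i => sInf (φ '' B i), ⟨?_, ?_⟩, hmem, hle⟩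
  · intro i j hij
    by_contra hne'
    obtain ⟨x, hx, hx'⟩ := hmem i
    obtain ⟨y, hy, hy'⟩ := hmem j
    have hxy : φ x = φ y := by rw [hx', hy']; exact hij
    have := hG.1 hxy
    subst this
    exact Set.disjoint_left.mp (hd i j hne') hx hy
  · intro i j hij hlt h2 k ⟨h3, h4⟩
    simp only at hlt h2 h3 h4
    obtain ⟨x, hx, hx'⟩ := hmem i
    obtain ⟨y, hy, hy'⟩ := hmem j
    obtain ⟨w, hw, hw'⟩ := hmem k
    have hki : k ≠ i := by rintro rfl; omega
    have hkj : k ≠ j := by rintro rfl; omega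
    have hwi : ∀ z ∈ B i, φ z ≠ φ w := by
      intro z hz h
      have := hG.1 h
      subst this
      exact Set.disjoint_left.mp (hd k i hki) hw hz
    -- all of B i lies below w
    have hlow : ∀ z ∈ B i, φ z < φ w := by
      intro z hz
      by_contra hcon
      have h5 := hwi z hz
      obtain ⟨u, hu, v, hv, huv, h6, h7⟩ := cross G φ (B i) (hc i) (φ w) hx hz (by omega) (by omega) hwi
      exact hG.2 u v huv (by omega) (by have := hle i u hu; omega) w ⟨h6, h7⟩
    obtain ⟨u, hu, v, hv, huv⟩ := (ha i j hij.ne).mp hij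
    have h6 := hlow u hu
    have h7 := hle j v hv
    exact hG.2 u v huv (by omega) (by have := hle i u hu; omega) w ⟨h6, by omega⟩

/-- in a coded graph, a vertex whose code is at least `2` has at most `4` neighbours -/
lemma deg_le {n : ℕ} (G : SimpleGraph (Fin n)) {φ : Fin n → ℕ} (hG : Good G φ) (i : Fin n)
    (hi : 2 ≤ φ i) (T : Finset (Fin n)) (hT : ∀ j ∈ T, G.Adj i j) : T.card ≤ 4 := by
  classical
  -- at most one neighbour above, one below with code at least 2, and two of code at most 1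
  have h1 : (T.filter (fun j => φ i < φ j)).card ≤ 1 := by
    rw [Finset.card_le_one]
    intro a ha b hb
    simp only [Finset.mem_filter] at ha hb
    by_contra hne
    have h := hG.2 i a (hT a ha.1) ha.2 hi b
    have h' := hG.2 i b (hT b hb.1) hb.2 hi a
    have : φ a ≠ φ b := fun h => hne (hG.1 h)
    omega
  have h2 : (T.filter (fun j => φ j < φ i ∧ 2 ≤ φ j)).card ≤ 1 := by
    rw [Finset.card_le_one]
    intro a ha b hb
    simp only [Finset.mem_filter] at ha hb
    by_contra hne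
    have h := hG.2 a i (hT a ha.1).symm ha.2.1 ha.2.2 b
    have h' := hG.2 b i (hT b hb.1).symm hb.2.1 hb.2.2 a
    have : φ a ≠ φ b := fun h => hne (hG.1 h)
    omega
  have h3 : (T.filter (fun j => φ j < 2)).card ≤ 2 := by
    calc (T.filter (fun j => φ j < 2)).card = ((T.filter (fun j => φ j < 2)).image φ).card :=
          (Finset.card_image_of_injective _ hG.1).symm
      _ ≤ (Finset.range 2).card := by
          apply Finset.card_le_card
          intro c hc
          simp only [Finset.mem_image, Finset.mem_filter] at hc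
          obtain ⟨a, ⟨_, ha⟩, rfl⟩ := hc
          simpa using ha
      _ = 2 := by simp
  have hsub : T ⊆ T.filter (fun j => φ i < φ j) ∪ T.filter (fun j => φ j < φ i ∧ 2 ≤ φ j) ∪
      T.filter (fun j => φ j < 2) := by
    intro a ha
    have hne : φ i ≠ φ a := fun h => (hT a ha).ne (hG.1 h)
    simp only [Finset.mem_union, Finset.mem_filter, ha, true_and]
    omega
  calc T.card ≤ _ := Finset.card_le_card hsub
    _ ≤ _ := Finset.card_union_le _ _
    _ ≤ _ := Nat.add_le_add_right (Finset.card_union_le _ _) _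
    _ ≤ 4 := by omega

def Wk (k : ℕ) : SimpleGraph (Fin (2 * k + 2)) :=
  SimpleGraph.fromRel (fun a b : Fin (2 * k + 2) =>
          (a.val < 2 * k ∧ b.val < 2 * k ∧ b.val = (a.val + 1) % (2 * k)) ∨
          (a.val = 2 * k ∧ b.val < 2 * k ∧ b.val % 2 = 0) ∨
          (a.val = 2 * k + 1 ∧ b.val < 2 * k ∧ b.val % 2 = 1))

lemma wheel_bound (k : ℕ) (hk : 5 ≤ k) : ¬ Cls (2 * k + 2) (Wk k) := by
  rintro ⟨φ, hφ⟩
  -- both hubs have codes at most one
  have hub0 : φ ⟨2 * k, by omega⟩ < 2 := by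
    by_contra hcon
    have := deg_le (Wk k) hφ ⟨2 * k, by omega⟩ (by omega)
      (Finset.univ.image (fun j : Fin 5 => (⟨2 * j.val, by omega⟩ : Fin (2 * k + 2)))) (by
        intro j hj
        simp only [Finset.mem_image, Finset.mem_univ, true_and] at hj
        obtain ⟨i, rfl⟩ := hj
        rw [Wk, SimpleGraph.fromRel_adj]
        refine ⟨by simp only [ne_eq, Fin.mk.injEq]; omega, Or.inl (Or.inr (Or.inl ⟨rfl, ?_, ?_⟩))⟩
        · simp only; omega
        · simp only; omega)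
    rw [Finset.card_image_of_injective] at this
    · simp at this
    · intro a b hab
      simp only [Fin.mk.injEq] at hab
      exact Fin.ext (by omega)
  have hub1 : φ ⟨2 * k + 1, by omega⟩ < 2 := by
    by_contra hcon
    have := deg_le (Wk k) hφ ⟨2 * k + 1, by omega⟩ (by omega)
      (Finset.univ.image (fun j : Fin 5 => (⟨2 * j.val + 1, by omega⟩ : Fin (2 * k + 2)))) (by
        intro j hj
        simp only [Finset.mem_image, Finset.mem_univ, true_and] at hj
        obtain ⟨i, rfl⟩ := hj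
        rw [Wk, SimpleGraph.fromRel_adj]
        refine ⟨by simp only [ne_eq, Fin.mk.injEq]; omega, Or.inl (Or.inr (Or.inr ⟨rfl, ?_, ?_⟩))⟩
        · simp only; omega
        · simp only; omega)
    rw [Finset.card_image_of_injective] at this
    · simp at this
    · intro a b hab
      simp only [Fin.mk.injEq] at hab
      exact Fin.ext (by omega)
  have hubne : φ ⟨2 * k, by omega⟩ ≠ φ ⟨2 * k + 1, by omega⟩ := by
    intro h
    have := hφ.1 h
    simp at this
  have cyc : ∀ a : Fin (2 * k + 2), a.val < 2 * k → 2 ≤ φ a := by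
    intro a ha
    have h1 : φ a ≠ φ ⟨2 * k, by omega⟩ := by
      intro h; have := congrArg Fin.val (hφ.1 h); simp only at this; omega
    have h2 : φ a ≠ φ ⟨2 * k + 1, by omega⟩ := by
      intro h; have := congrArg Fin.val (hφ.1 h); simp only at this; omega
    omega
  -- the cycle vertex with the largest code
  obtain ⟨a, ha, hmax⟩ := Finset.exists_max_image
    (Finset.univ.filter (fun a : Fin (2 * k + 2) => a.val < 2 * k)) φ
    ⟨⟨0, by omega⟩, by simp; omega⟩
  simp only [Finset.mem_filter, Finset.mem_univ, true_and] at ha hmax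
  have key : ∀ b c : Fin (2 * k + 2), b.val < 2 * k → c.val < 2 * k → (Wk k).Adj b a →
      (Wk k).Adj c a → b = c := by
    intro b c hb hc hba hca
    by_contra hne
    have e1 : φ b < φ a := lt_of_le_of_ne (hmax b hb) (fun h => hba.ne (hφ.1 h))
    have e2 : φ c < φ a := lt_of_le_of_ne (hmax c hc) (fun h => hca.ne (hφ.1 h))
    have e3 := hφ.2 b a hba e1 (cyc b hb) c
    have e4 := hφ.2 c a hca e2 (cyc c hc) b
    have e5 : φ b ≠ φ c := fun h => hne (hφ.1 h)
    omega
  -- its two cycle neighbours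
  have hsucc : (a.val + 1) % (2 * k) < 2 * k := Nat.mod_lt _ (by omega)
  have hpred : (a.val + (2 * k - 1)) % (2 * k) < 2 * k := Nat.mod_lt _ (by omega)
  have hm1 : (a.val + 1) % (2 * k) = if a.val + 1 = 2 * k then 0 else a.val + 1 := by
    split_ifs with h
    · rw [h, Nat.mod_self]
    · exact Nat.mod_eq_of_lt (by omega)
  have hm2 : (a.val + (2 * k - 1)) % (2 * k) = if a.val = 0 then 2 * k - 1 else a.val - 1 := by
    split_ifs with h
    · rw [h, Nat.zero_add]; exact Nat.mod_eq_of_lt (by omega)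
    · have : a.val + (2 * k - 1) = (a.val - 1) + 2 * k := by omega
      rw [this, Nat.add_mod_right]; exact Nat.mod_eq_of_lt (by omega)
  have hA : (Wk k).Adj ⟨(a.val + 1) % (2 * k), by omega⟩ a := by
    rw [Wk, SimpleGraph.fromRel_adj]
    refine ⟨?_, Or.inr (Or.inl ⟨ha, hsucc, rfl⟩)⟩
    intro h
    have := congrArg Fin.val h
    simp only at this
    rw [hm1] at this
    split_ifs at this <;> omega
  have hB : (Wk k).Adj ⟨(a.val + (2 * k - 1)) % (2 * k), by omega⟩ a := by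
    rw [Wk, SimpleGraph.fromRel_adj]
    refine ⟨?_, Or.inl (Or.inl ⟨hpred, ha, ?_⟩)⟩
    · intro h
      have := congrArg Fin.val h
      simp only at this
      rw [hm2] at this
      split_ifs at this <;> omega
    · simp only
      rw [hm2]
      split_ifs with h
      · have : 2 * k - 1 + 1 = 2 * k := by omega
        rw [this, Nat.mod_self]; exact h
      · have : a.val - 1 + 1 = a.val := by omega
        rw [this]; exact (Nat.mod_eq_of_lt ha).symm
  have := key _ _ hsucc hpred hA hB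
  simp only [Fin.mk.injEq] at this
  rw [hm1, hm2] at this
  split_ifs at this <;> omega

/-- the alternating double fans with two private ends -/
def Gm (m : ℕ) : SimpleGraph (Fin (m + 4)) :=
  SimpleGraph.fromRel (fun x y =>
    (2 ≤ x.val ∧ y.val = x.val + 1) ∨
    (x.val = 0 ∧ y.val % 2 = 1 ∧ 3 ≤ y.val ∧ y.val ≤ m + 2) ∨
    (x.val = 1 ∧ y.val % 2 = 0 ∧ 3 ≤ y.val ∧ y.val ≤ m + 2))

lemma Gm_good (m : ℕ) : Good (Gm m) (fun x => x.val) := by
  refine ⟨Fin.val_injective, ?_⟩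
  intro u v huv hlt h2 w
  rw [Gm, SimpleGraph.fromRel_adj] at huv
  simp only at hlt h2 ⊢
  omega


lemma no_model {m' m : ℕ} (h10 : 10 ≤ m') (hlt : m' < m) (B : Fin (m' + 4) → Set (Fin (m + 4)))
    (hc : ∀ i, ((Gm m).induce (B i)).Connected)
    (hd : ∀ i j, i ≠ j → Disjoint (B i) (B j))
    (ha : ∀ i j, i ≠ j → ((Gm m').Adj i j ↔ ∃ u ∈ B i, ∃ v ∈ B j, (Gm m).Adj u v)) : False := by
  obtain ⟨ψ, hψ, hmem, hle⟩ := closure (Gm m) (Gm m') (Gm_good m) B hc hd ha
  -- hubs
  have hub0 : ψ ⟨0, by omega⟩ < 2 := by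
    by_contra hcon
    have := deg_le (Gm m') hψ ⟨0, by omega⟩ (by omega)
      (Finset.univ.image (fun j : Fin 5 => (⟨2 * j.val + 3, by omega⟩ : Fin (m' + 4)))) (by
        intro j hj
        simp only [Finset.mem_image, Finset.mem_univ, true_and] at hj
        obtain ⟨i, rfl⟩ := hj
        rw [Gm, SimpleGraph.fromRel_adj]
        refine ⟨by simp only [ne_eq, Fin.mk.injEq]; omega,
          Or.inl (Or.inr (Or.inl ⟨rfl, ?_, ?_, ?_⟩))⟩ <;> (simp only; omega))
    rw [Finset.card_image_of_injective] at this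
    · simp at this
    · intro a b hab
      simp only [Fin.mk.injEq] at hab
      exact Fin.ext (by omega)
  have hub1 : ψ ⟨1, by omega⟩ < 2 := by
    by_contra hcon
    have := deg_le (Gm m') hψ ⟨1, by omega⟩ (by omega)
      (Finset.univ.image (fun j : Fin 5 => (⟨2 * j.val + 4, by omega⟩ : Fin (m' + 4)))) (by
        intro j hj
        simp only [Finset.mem_image, Finset.mem_univ, true_and] at hj
        obtain ⟨i, rfl⟩ := hj
        rw [Gm, SimpleGraph.fromRel_adj]
        refine ⟨by simp only [ne_eq, Fin.mk.injEq]; omega,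
          Or.inl (Or.inr (Or.inr ⟨rfl, ?_, ?_, ?_⟩))⟩ <;> (simp only; omega))
    rw [Finset.card_image_of_injective] at this
    · simp at this
    · intro a b hab
      simp only [Fin.mk.injEq] at hab
      exact Fin.ext (by omega)
  have hubne : ψ ⟨0, by omega⟩ ≠ ψ ⟨1, by omega⟩ := by
    intro h
    have := congrArg Fin.val (hψ.1 h)
    simp at this
  have hge : ∀ i : Fin (m' + 4), 2 ≤ i.val → 2 ≤ ψ i := by
    intro i hi
    have h1 : ψ i ≠ ψ ⟨0, by omega⟩ := by
      intro h; have := congrArg Fin.val (hψ.1 h); simp only at this; omega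
    have h2 : ψ i ≠ ψ ⟨1, by omega⟩ := by
      intro h; have := congrArg Fin.val (hψ.1 h); simp only at this; omega
    omega
  have hgeB : ∀ i : Fin (m' + 4), 2 ≤ i.val → ∀ y ∈ B i, 2 ≤ y.val := by
    intro i hi y hy
    have := hge i hi
    have := hle i y hy
    omega
  -- the two hub sets contain the two hubs
  obtain ⟨X0, hX0, z0, hz0, hz0v⟩ : ∃ X : Fin (m' + 4), X.val < 2 ∧ ∃ z ∈ B X, z.val = 0 := by
    obtain ⟨a, ha1, ha2⟩ := hmem ⟨0, by omega⟩
    obtain ⟨b, hb1, hb2⟩ := hmem ⟨1, by omega⟩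
    rcases Nat.eq_zero_or_pos (ψ ⟨0, by omega⟩) with h | h
    · exact ⟨⟨0, by omega⟩, by simp, a, ha1, by omega⟩
    · exact ⟨⟨1, by omega⟩, by simp, b, hb1, by omega⟩
  obtain ⟨X1, hX1, z1, hz1, hz1v⟩ : ∃ X : Fin (m' + 4), X.val < 2 ∧ ∃ z ∈ B X, z.val = 1 := by
    obtain ⟨a, ha1, ha2⟩ := hmem ⟨0, by omega⟩
    obtain ⟨b, hb1, hb2⟩ := hmem ⟨1, by omega⟩
    rcases Nat.eq_zero_or_pos (ψ ⟨0, by omega⟩) with h | h
    · exact ⟨⟨1, by omega⟩, by simp, b, hb1, by omega⟩
    · exact ⟨⟨0, by omega⟩, by simp, a, ha1, by omega⟩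
  have hX01 : X0 ≠ X1 := by
    -- each hub set has least code below two, hence the two indices differ
    intro h
    subst h
    obtain ⟨a, ha1, ha2⟩ := hmem ⟨0, by omega⟩
    obtain ⟨b, hb1, hb2⟩ := hmem ⟨1, by omega⟩
    have e0 : ∀ (i j : Fin (m' + 4)) (x : Fin (m + 4)), x ∈ B i → x ∈ B j → i = j := by
      intro i j x hi hj
      by_contra hne
      exact Set.disjoint_left.mp (hd i j hne) hi hj
    have c1 : ∀ x : Fin (m + 4), x.val < 2 → x = z0 ∨ x = z1 := by
      intro x hx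
      rcases Nat.lt_or_ge x.val 1 with h | h
      · left; exact Fin.ext (by omega)
      · right; exact Fin.ext (by omega)
    have c2 : (⟨0, by omega⟩ : Fin (m' + 4)) = X0 := by
      rcases c1 a (by omega) with rfl | rfl
      · exact e0 _ _ _ ha1 hz0
      · exact e0 _ _ _ ha1 hz1
    have c3 : (⟨1, by omega⟩ : Fin (m' + 4)) = X0 := by
      rcases c1 b (by omega) with rfl | rfl
      · exact e0 _ _ _ hb1 hz0
      · exact e0 _ _ _ hb1 hz1
    have := congrArg Fin.val (c2.trans c3.symm)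
    simp at this
  -- adjacency to hubs
  have adj_odd : ∀ i : Fin (m' + 4), 2 ≤ i.val → ∀ y ∈ B i, 3 ≤ y.val → y.val ≤ m + 2 →
      y.val % 2 = 1 → (Gm m').Adj i X0 := by
    intro i hi y hy h3 h4 h5
    refine (ha i X0 (fun h => by subst h; omega)).mpr ⟨y, hy, z0, hz0, ?_⟩
    rw [Gm, SimpleGraph.fromRel_adj]
    exact ⟨fun h => by subst h; omega, Or.inr (Or.inr (Or.inl ⟨hz0v, h5, h3, h4⟩))⟩
  have adj_even : ∀ i : Fin (m' + 4), 2 ≤ i.val → ∀ y ∈ B i, 3 ≤ y.val → y.val ≤ m + 2 →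
      y.val % 2 = 0 → (Gm m').Adj i X1 := by
    intro i hi y hy h3 h4 h5
    refine (ha i X1 (fun h => by subst h; omega)).mpr ⟨y, hy, z1, hz1, ?_⟩
    rw [Gm, SimpleGraph.fromRel_adj]
    exact ⟨fun h => by subst h; omega, Or.inr (Or.inr (Or.inr ⟨hz1v, h5, h3, h4⟩))⟩
  -- end sets
  have endset : ∀ i : Fin (m' + 4), (i.val = 2 ∨ i.val = m' + 3) → ∀ y ∈ B i,
      y.val = 2 ∨ y.val = m + 3 := by
    intro i hi y hy
    have hy2 := hgeB i (by omega) y hy
    by_contra hcon
    have hy3 : 3 ≤ y.val ∧ y.val ≤ m + 2 := by have := y.isLt; omega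
    rcases Nat.mod_two_eq_zero_or_one y.val with h | h
    · have := adj_even i (by omega) y hy hy3.1 hy3.2 h
      rw [Gm, SimpleGraph.fromRel_adj] at this
      omega
    · have := adj_odd i (by omega) y hy hy3.1 hy3.2 h
      rw [Gm, SimpleGraph.fromRel_adj] at this
      omega
  -- edges between vertices of code at least two
  have adj_path : ∀ u v : Fin (m + 4), 2 ≤ u.val → 2 ≤ v.val → (Gm m).Adj u v →
      v.val = u.val + 1 ∨ u.val = v.val + 1 := by
    intro u v hu hv huv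
    rw [Gm, SimpleGraph.fromRel_adj] at huv
    omega
  -- no set of index at least two has two elements
  have single : ∀ i : Fin (m' + 4), 2 ≤ i.val → ∀ x ∈ B i, ∀ y ∈ B i, x = y := by
    intro i hi x hx y hy
    by_contra hne
    obtain ⟨p⟩ := (hc i).preconnected ⟨x, hx⟩ ⟨y, hy⟩
    obtain ⟨d, _, h1, h2⟩ := p.exists_boundary_dart {z | z.1 = x} rfl (fun h => hne h.symm)
    have hadj : (Gm m).Adj d.fst.1 d.snd.1 := by
      have := d.adj
      simpa using this
    have hxd : d.fst.1 = x := h1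
    rw [hxd] at hadj
    set v := d.snd.1 with hv
    have hvB : v ∈ B i := d.snd.2
    have g1 := hgeB i hi x hx
    have g2 := hgeB i hi v hvB
    have hcons := adj_path x v g1 g2 hadj
    have hxl := x.isLt
    have hvl := v.isLt
    -- if an end vertex is in the set then the index is an end index
    by_cases hend : i.val = 2 ∨ i.val = m' + 3
    · have e1 := endset i hend x hx
      have e2 := endset i hend v hvB
      omega
    · -- the index is adjacent to at most one hub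
      have hcase : ¬ ((Gm m').Adj i X0 ∧ (Gm m').Adj i X1) := by
        rintro ⟨k1, k2⟩
        rw [Gm, SimpleGraph.fromRel_adj] at k1 k2
        have : X0.val ≠ X1.val := fun h => hX01 (Fin.ext h)
        omega
      by_cases hx3 : 3 ≤ x.val ∧ x.val ≤ m + 2 ∧ 3 ≤ v.val ∧ v.val ≤ m + 2
      · obtain ⟨k1, k2, k3, k4⟩ := hx3
        apply hcase
        rcases Nat.mod_two_eq_zero_or_one x.val with h | h
        · exact ⟨adj_odd i hi v hvB k3 k4 (by omega), adj_even i hi x hx k1 k2 h⟩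
        · exact ⟨adj_odd i hi x hx k1 k2 h, adj_even i hi v hvB k3 k4 (by omega)⟩
      · -- one of x, v is an end vertex, which lies in an end set
        obtain ⟨a, ha1, ha2⟩ := hmem ⟨2, by omega⟩
        obtain ⟨b, hb1, hb2⟩ := hmem ⟨m' + 3, by omega⟩
        have e1 := endset ⟨2, by omega⟩ (Or.inl rfl) a ha1
        have e2 := endset ⟨m' + 3, by omega⟩ (Or.inr rfl) b hb1
        have hne2 : a ≠ b := by
          intro h
          subst h
          exact Set.disjoint_left.mp (hd ⟨2, by omega⟩ ⟨m' + 3, by omega⟩ (by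
            simp only [ne_eq, Fin.mk.injEq]; omega)) ha1 hb1
        have hne3 : a.val ≠ b.val := fun h => hne2 (Fin.ext h)
        have hia : ∀ z ∈ B i, z ≠ a := by
          intro z hz h
          subst h
          refine Set.disjoint_left.mp (hd i ⟨2, by omega⟩ ?_) hz ha1
          intro h
          have := congrArg Fin.val h
          simp only at this
          omega
        have hib : ∀ z ∈ B i, z ≠ b := by
          intro z hz h
          subst h
          refine Set.disjoint_left.mp (hd i ⟨m' + 3, by omega⟩ ?_) hz hb1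
          intro h
          have := congrArg Fin.val h
          simp only at this
          omega
        have f1 : x.val ≠ a.val := fun h => hia x hx (Fin.ext h)
        have f2 : x.val ≠ b.val := fun h => hib x hx (Fin.ext h)
        have f3 : v.val ≠ a.val := fun h => hia v hvB (Fin.ext h)
        have f4 : v.val ≠ b.val := fun h => hib v hvB (Fin.ext h)
        omega
  -- coverage
  have cover : ∀ c : Fin (m + 4), 2 ≤ c.val → ∃ i : Fin (m' + 4), 2 ≤ i.val ∧ c ∈ B i := by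
    intro c hc2
    by_contra hcon
    push Not at hcon
    obtain ⟨a, ha1, ha2⟩ := hmem ⟨2, by omega⟩
    obtain ⟨b, hb1, hb2⟩ := hmem ⟨m' + 3, by omega⟩
    have e1 := endset ⟨2, by omega⟩ (Or.inl rfl) a ha1
    have e2 := endset ⟨m' + 3, by omega⟩ (Or.inr rfl) b hb1
    have hne2 : a ≠ b := by
      intro h
      subst h
      exact Set.disjoint_left.mp (hd ⟨2, by omega⟩ ⟨m' + 3, by omega⟩ (by
        simp only [ne_eq, Fin.mk.injEq]; omega)) ha1 hb1
    have hne3 : a.val ≠ b.val := fun h => hne2 (Fin.ext h)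
    have hca : c ≠ a := by
      intro h
      apply hcon ⟨2, by omega⟩ (by simp)
      rw [h]; exact ha1
    have hcb : c ≠ b := by
      intro h
      apply hcon ⟨m' + 3, by omega⟩ (by simp)
      rw [h]; exact hb1
    have hca' : c.val ≠ a.val := fun h => hca (Fin.ext h)
    have hcb' : c.val ≠ b.val := fun h => hcb (Fin.ext h)
    have hcl := c.isLt
    have hnoc : ∀ i : Fin (m' + 4), 2 ≤ i.val → ∀ z ∈ B i, z.val ≠ c.val := by
      intro i hi z hz h
      exact hcon i hi (Fin.ext h ▸ hz)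
    -- moving along the path never crosses c
    have step : ∀ k : ℕ, (hk : k + 3 < m' + 4) →
        ∀ y ∈ B ⟨k + 2, by omega⟩, ∀ y' ∈ B ⟨k + 3, hk⟩, (y.val < c.val ↔ y'.val < c.val) := by
      intro k hk y hy y' hy'
      have hs1 := single ⟨k + 2, by omega⟩ (by simp) y hy
      have hs2 := single ⟨k + 3, hk⟩ (by simp only; omega) y' hy'
      obtain ⟨u, hu, v, hv, huv⟩ := (ha ⟨k + 2, by omega⟩ ⟨k + 3, hk⟩ (by
        simp only [ne_eq, Fin.mk.injEq]; omega)).mp (by
          rw [Gm, SimpleGraph.fromRel_adj]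
          refine ⟨by simp only [ne_eq, Fin.mk.injEq]; omega, Or.inl (Or.inl ⟨?_, ?_⟩)⟩ <;> simp only <;> omega)
      have := hs1 u hu
      subst this
      have := hs2 v hv
      subst this
      have g1 := hgeB ⟨k + 2, by omega⟩ (by simp) y hu
      have g2 := hgeB ⟨k + 3, hk⟩ (by simp only; omega) y' hv
      have := adj_path y y' g1 g2 huv
      have n1 := hnoc ⟨k + 2, by omega⟩ (by simp) y hu
      have n2 := hnoc ⟨k + 3, hk⟩ (by simp only; omega) y' hv
      omega
    have all : ∀ k : ℕ, (hk : k + 2 < m' + 4) → ∀ y ∈ B ⟨k + 2, hk⟩, (a.val < c.val ↔ y.val < c.val) := by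
      intro k
      induction k with
      | zero =>
        intro hk y hy
        have := single ⟨2, by omega⟩ (by simp) a ha1 y hy
        rw [this]
      | succ k ih =>
        intro hk y hy
        obtain ⟨x, hx, _⟩ := hmem ⟨k + 2, by omega⟩
        rw [ih (by omega) x hx]
        exact step k hk x hx y hy
    have := all (m' + 1) (by omega) b hb1
    omega
  have surj : ∀ c : ℕ, c < m + 4 → ∃ i, ψ i = c := by
    intro c hcl
    rcases Nat.lt_or_ge c 2 with h | h
    · by_cases h0 : ψ ⟨0, by omega⟩ = c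
      · exact ⟨_, h0⟩
      · exact ⟨⟨1, by omega⟩, by omega⟩
    · obtain ⟨i, hi, hci⟩ := cover ⟨c, hcl⟩ h
      obtain ⟨x, hx, hxv⟩ := hmem i
      have := single i hi x hx _ hci
      subst this
      exact ⟨i, hxv.symm⟩
  have hcard : (Finset.range (m + 4)).card ≤ (Finset.univ.image ψ).card := by
    apply Finset.card_le_card
    intro c hcm
    rw [Finset.mem_range] at hcm
    obtain ⟨i, hi⟩ := surj c hcm
    exact Finset.mem_image.mpr ⟨i, Finset.mem_univ _, hi⟩
  have h2 : (Finset.univ.image ψ).card ≤ m' + 4 := by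
    calc _ ≤ (Finset.univ : Finset (Fin (m' + 4))).card := Finset.card_image_le
      _ = m' + 4 := by simp
  simp only [Finset.card_range] at hcard
  omega


/-- The negation of the preceding statement: Every induced-minor-closed class of finite planar graphs is well-quasi-ordered by induced minors if and only if the alternating double wheels it contains (even cycle plus two hubs, one per colour class) have bounded size. -/
theorem result :
    ¬ (∀ P : (n : ℕ) → SimpleGraph (Fin n) → Prop,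
    (∀ n (G : SimpleGraph (Fin n)), P n G →
      ∃ f : Fin n → ℝ × ℝ, Function.Injective f ∧
      ∃ γ : (i j : Fin n) → Path (f i) (f j),
        (∀ i j, G.Adj i j → i < j → Function.Injective ⇑(γ i j)) ∧
        (∀ i j, G.Adj i j → i < j → ∀ t : unitInterval, (t : ℝ) ∈ Set.Ioo (0 : ℝ) 1 →
            ∀ v, γ i j t ≠ f v) ∧
        (∀ i j k l, G.Adj i j → i < j → G.Adj k l → k < l → (i ≠ k ∨ j ≠ l) →
          ∀ s t : unitInterval, (s : ℝ) ∈ Set.Ioo (0 : ℝ) 1 → (t : ℝ) ∈ Set.Ioo (0 : ℝ) 1 →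
            γ i j s ≠ γ k l t)) →
    (∀ n m (G : SimpleGraph (Fin n)) (H : SimpleGraph (Fin m)), P n G →
      (∃ B : Fin m → Set (Fin n), (∀ i, (G.induce (B i)).Connected) ∧
         (∀ i j, i ≠ j → Disjoint (B i) (B j)) ∧
         (∀ i j, i ≠ j → (H.Adj i j ↔ ∃ u ∈ B i, ∃ v ∈ B j, G.Adj u v))) → P m H) →
    ((∀ g : ℕ → (Σ n : ℕ, SimpleGraph (Fin n)), (∀ i, P (g i).1 (g i).2) →
        ∃ i j, i < j ∧ ∃ B : Fin (g i).1 → Set (Fin (g j).1),
          (∀ a, ((g j).2.induce (B a)).Connected) ∧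
          (∀ a b, a ≠ b → Disjoint (B a) (B b)) ∧
          (∀ a b, a ≠ b → ((g i).2.Adj a b ↔ ∃ u ∈ B a, ∃ v ∈ B b, (g j).2.Adj u v)))
     ↔ ∃ N : ℕ, ∀ k : ℕ, 2 ≤ k →
        P (2 * k + 2) (SimpleGraph.fromRel (fun a b : Fin (2 * k + 2) =>
          (a.val < 2 * k ∧ b.val < 2 * k ∧ b.val = (a.val + 1) % (2 * k)) ∨
          (a.val = 2 * k ∧ b.val < 2 * k ∧ b.val % 2 = 0) ∨
          (a.val = 2 * k + 1 ∧ b.val < 2 * k ∧ b.val % 2 = 1))) → k ≤ N)) := by
  intro hall
  have h := hall Cls (fun n G hG => planar G hG)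
    (fun n m G H hG hB => by
      obtain ⟨φ, hφ⟩ := hG
      obtain ⟨B, h1, h2, h3⟩ := hB
      obtain ⟨ψ, hψ, _⟩ := closure G H hφ B h1 h2 h3
      exact ⟨ψ, hψ⟩)
  obtain ⟨i, j, hij, B, h1, h2, h3⟩ := h.mpr ⟨4, fun k _ hk => by
      by_contra hcon
      exact wheel_bound k (by omega) hk⟩
    (fun i => ⟨(i + 10) + 4, Gm (i + 10)⟩) (fun i => ⟨_, Gm_good (i + 10)⟩)
  exact no_model (by omega) (by omega : i + 10 < j + 10) B h1 h2 h3

end Pool.Agent.S05542
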