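import Pool.Statements.S05564

set_option autoImplicit false
open Pool Pool.MP_4d4f59_co


set_option linter.unusedSimpArgs false
set_option maxHeartbeats 4000000

namespace Pool.Agent.S05564

section helpers


open Finset

/-- mixed power sums -/
def mom (x X y Y : Fin 5 → ℂ) (a b c d : ℕ) : ℂ :=
  ∑ i, x i ^ a * X i ^ b * y i ^ c * Y i ^ d

lemma zsum1 (x X y Y : Fin 5 → ℂ) :
    ∑ i, ∑ j, (x j - x i) ^ 3 * (X j - X i) * (Y j - Y i) * (x i * X j) =
      (1) * mom x X y Y 1 0 0 0 * mom x X y Y 3 2 0 1 +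
      (-1) * mom x X y Y 1 0 0 1 * mom x X y Y 3 2 0 0 +
      (-1) * mom x X y Y 1 1 0 0 * mom x X y Y 3 1 0 1 +
      (1) * mom x X y Y 1 1 0 1 * mom x X y Y 3 1 0 0 +
      (-3) * mom x X y Y 2 0 0 0 * mom x X y Y 2 2 0 1 +
      (3) * mom x X y Y 2 0 0 1 * mom x X y Y 2 2 0 0 +
      (3) * mom x X y Y 2 1 0 0 * mom x X y Y 2 1 0 1 +
      (-3) * mom x X y Y 2 1 0 1 * mom x X y Y 2 1 0 0 +
      (3) * mom x X y Y 3 0 0 0 * mom x X y Y 1 2 0 1 +
      (-3) * mom x X y Y 3 0 0 1 * mom x X y Y 1 2 0 0 +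
      (-3) * mom x X y Y 3 1 0 0 * mom x X y Y 1 1 0 1 +
      (3) * mom x X y Y 3 1 0 1 * mom x X y Y 1 1 0 0 +
      (-1) * mom x X y Y 4 0 0 0 * mom x X y Y 0 2 0 1 +
      (1) * mom x X y Y 4 0 0 1 * mom x X y Y 0 2 0 0 +
      (1) * mom x X y Y 4 1 0 0 * mom x X y Y 0 1 0 1 +
      (-1) * mom x X y Y 4 1 0 1 * mom x X y Y 0 1 0 0 := by
  have hpt : ∀ i j, (x j - x i) ^ 3 * (X j - X i) * (Y j - Y i) * (x i * X j) =
        (1) * (x i ^ 1 * X i ^ 0 * y i ^ 0 * Y i ^ 0) * (x j ^ 3 * X j ^ 2 * y j ^ 0 * Y j ^ 1) +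
        (-1) * (x i ^ 1 * X i ^ 0 * y i ^ 0 * Y i ^ 1) * (x j ^ 3 * X j ^ 2 * y j ^ 0 * Y j ^ 0) +
        (-1) * (x i ^ 1 * X i ^ 1 * y i ^ 0 * Y i ^ 0) * (x j ^ 3 * X j ^ 1 * y j ^ 0 * Y j ^ 1) +
        (1) * (x i ^ 1 * X i ^ 1 * y i ^ 0 * Y i ^ 1) * (x j ^ 3 * X j ^ 1 * y j ^ 0 * Y j ^ 0) +
        (-3) * (x i ^ 2 * X i ^ 0 * y i ^ 0 * Y i ^ 0) * (x j ^ 2 * X j ^ 2 * y j ^ 0 * Y j ^ 1) +
        (3) * (x i ^ 2 * X i ^ 0 * y i ^ 0 * Y i ^ 1) * (x j ^ 2 * X j ^ 2 * y j ^ 0 * Y j ^ 0) +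
        (3) * (x i ^ 2 * X i ^ 1 * y i ^ 0 * Y i ^ 0) * (x j ^ 2 * X j ^ 1 * y j ^ 0 * Y j ^ 1) +
        (-3) * (x i ^ 2 * X i ^ 1 * y i ^ 0 * Y i ^ 1) * (x j ^ 2 * X j ^ 1 * y j ^ 0 * Y j ^ 0) +
        (3) * (x i ^ 3 * X i ^ 0 * y i ^ 0 * Y i ^ 0) * (x j ^ 1 * X j ^ 2 * y j ^ 0 * Y j ^ 1) +
        (-3) * (x i ^ 3 * X i ^ 0 * y i ^ 0 * Y i ^ 1) * (x j ^ 1 * X j ^ 2 * y j ^ 0 * Y j ^ 0) +
        (-3) * (x i ^ 3 * X i ^ 1 * y i ^ 0 * Y i ^ 0) * (x j ^ 1 * X j ^ 1 * y j ^ 0 * Y j ^ 1) +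
        (3) * (x i ^ 3 * X i ^ 1 * y i ^ 0 * Y i ^ 1) * (x j ^ 1 * X j ^ 1 * y j ^ 0 * Y j ^ 0) +
        (-1) * (x i ^ 4 * X i ^ 0 * y i ^ 0 * Y i ^ 0) * (x j ^ 0 * X j ^ 2 * y j ^ 0 * Y j ^ 1) +
        (1) * (x i ^ 4 * X i ^ 0 * y i ^ 0 * Y i ^ 1) * (x j ^ 0 * X j ^ 2 * y j ^ 0 * Y j ^ 0) +
        (1) * (x i ^ 4 * X i ^ 1 * y i ^ 0 * Y i ^ 0) * (x j ^ 0 * X j ^ 1 * y j ^ 0 * Y j ^ 1) +
        (-1) * (x i ^ 4 * X i ^ 1 * y i ^ 0 * Y i ^ 1) * (x j ^ 0 * X j ^ 1 * y j ^ 0 * Y j ^ 0) := by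
    intro i j
    ring
  have hfold : ∀ a b c e : ℕ, ∑ i, x i ^ a * X i ^ b * y i ^ c * Y i ^ e = mom x X y Y a b c e :=
    fun _ _ _ _ => rfl
  simp only [hpt, Finset.sum_add_distrib, ← Finset.mul_sum, ← Finset.sum_mul, hfold]

lemma zsum2 (x X y Y : Fin 5 → ℂ) :
    ∑ i, ∑ j, (x j - x i) ^ 3 * (X j - X i) * (Y j - Y i) * (y i * Y j) =
      (1) * mom x X y Y 0 0 1 0 * mom x X y Y 3 1 0 2 +
      (-1) * mom x X y Y 0 0 1 1 * mom x X y Y 3 1 0 1 +
      (-1) * mom x X y Y 0 1 1 0 * mom x X y Y 3 0 0 2 +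
      (1) * mom x X y Y 0 1 1 1 * mom x X y Y 3 0 0 1 +
      (-3) * mom x X y Y 1 0 1 0 * mom x X y Y 2 1 0 2 +
      (3) * mom x X y Y 1 0 1 1 * mom x X y Y 2 1 0 1 +
      (3) * mom x X y Y 1 1 1 0 * mom x X y Y 2 0 0 2 +
      (-3) * mom x X y Y 1 1 1 1 * mom x X y Y 2 0 0 1 +
      (3) * mom x X y Y 2 0 1 0 * mom x X y Y 1 1 0 2 +
      (-3) * mom x X y Y 2 0 1 1 * mom x X y Y 1 1 0 1 +
      (-3) * mom x X y Y 2 1 1 0 * mom x X y Y 1 0 0 2 +
      (3) * mom x X y Y 2 1 1 1 * mom x X y Y 1 0 0 1 +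
      (-1) * mom x X y Y 3 0 1 0 * mom x X y Y 0 1 0 2 +
      (1) * mom x X y Y 3 0 1 1 * mom x X y Y 0 1 0 1 +
      (1) * mom x X y Y 3 1 1 0 * mom x X y Y 0 0 0 2 +
      (-1) * mom x X y Y 3 1 1 1 * mom x X y Y 0 0 0 1 := by
  have hpt : ∀ i j, (x j - x i) ^ 3 * (X j - X i) * (Y j - Y i) * (y i * Y j) =
        (1) * (x i ^ 0 * X i ^ 0 * y i ^ 1 * Y i ^ 0) * (x j ^ 3 * X j ^ 1 * y j ^ 0 * Y j ^ 2) +
        (-1) * (x i ^ 0 * X i ^ 0 * y i ^ 1 * Y i ^ 1) * (x j ^ 3 * X j ^ 1 * y j ^ 0 * Y j ^ 1) +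
        (-1) * (x i ^ 0 * X i ^ 1 * y i ^ 1 * Y i ^ 0) * (x j ^ 3 * X j ^ 0 * y j ^ 0 * Y j ^ 2) +
        (1) * (x i ^ 0 * X i ^ 1 * y i ^ 1 * Y i ^ 1) * (x j ^ 3 * X j ^ 0 * y j ^ 0 * Y j ^ 1) +
        (-3) * (x i ^ 1 * X i ^ 0 * y i ^ 1 * Y i ^ 0) * (x j ^ 2 * X j ^ 1 * y j ^ 0 * Y j ^ 2) +
        (3) * (x i ^ 1 * X i ^ 0 * y i ^ 1 * Y i ^ 1) * (x j ^ 2 * X j ^ 1 * y j ^ 0 * Y j ^ 1) +
        (3) * (x i ^ 1 * X i ^ 1 * y i ^ 1 * Y i ^ 0) * (x j ^ 2 * X j ^ 0 * y j ^ 0 * Y j ^ 2) +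
        (-3) * (x i ^ 1 * X i ^ 1 * y i ^ 1 * Y i ^ 1) * (x j ^ 2 * X j ^ 0 * y j ^ 0 * Y j ^ 1) +
        (3) * (x i ^ 2 * X i ^ 0 * y i ^ 1 * Y i ^ 0) * (x j ^ 1 * X j ^ 1 * y j ^ 0 * Y j ^ 2) +
        (-3) * (x i ^ 2 * X i ^ 0 * y i ^ 1 * Y i ^ 1) * (x j ^ 1 * X j ^ 1 * y j ^ 0 * Y j ^ 1) +
        (-3) * (x i ^ 2 * X i ^ 1 * y i ^ 1 * Y i ^ 0) * (x j ^ 1 * X j ^ 0 * y j ^ 0 * Y j ^ 2) +
        (3) * (x i ^ 2 * X i ^ 1 * y i ^ 1 * Y i ^ 1) * (x j ^ 1 * X j ^ 0 * y j ^ 0 * Y j ^ 1) +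
        (-1) * (x i ^ 3 * X i ^ 0 * y i ^ 1 * Y i ^ 0) * (x j ^ 0 * X j ^ 1 * y j ^ 0 * Y j ^ 2) +
        (1) * (x i ^ 3 * X i ^ 0 * y i ^ 1 * Y i ^ 1) * (x j ^ 0 * X j ^ 1 * y j ^ 0 * Y j ^ 1) +
        (1) * (x i ^ 3 * X i ^ 1 * y i ^ 1 * Y i ^ 0) * (x j ^ 0 * X j ^ 0 * y j ^ 0 * Y j ^ 2) +
        (-1) * (x i ^ 3 * X i ^ 1 * y i ^ 1 * Y i ^ 1) * (x j ^ 0 * X j ^ 0 * y j ^ 0 * Y j ^ 1) := by
    intro i j
    ring
  have hfold : ∀ a b c e : ℕ, ∑ i, x i ^ a * X i ^ b * y i ^ c * Y i ^ e = mom x X y Y a b c e :=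
    fun _ _ _ _ => rfl
  simp only [hpt, Finset.sum_add_distrib, ← Finset.mul_sum, ← Finset.sum_mul, hfold]


lemma mom_swap (x X y Y : Fin 5 → ℂ) (a b c d : ℕ) :
    mom x X y Y a b c d = mom X x Y y b a d c :=
  Finset.sum_congr rfl (fun i _ => by ring)

lemma dsum_decomp (x X y Y : Fin 5 → ℂ) :
    ∑ i, ∑ j, ((x j - x i) ^ 2 * (Y j - Y i) - (X j - X i) ^ 2 * (y j - y i)) *
      ((x j - x i) * (X j - X i)) *
      (x i * X j - X i * x j + 2 * (y i * Y j - Y i * y j)) =
    2 * (∑ i, ∑ j, (x j - x i) ^ 3 * (X j - X i) * (Y j - Y i) * (x i * X j)) +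
    4 * (∑ i, ∑ j, (x j - x i) ^ 3 * (X j - X i) * (Y j - Y i) * (y i * Y j)) +
    (2 * (∑ i, ∑ j, (X j - X i) ^ 3 * (x j - x i) * (y j - y i) * (X i * x j)) +
    4 * (∑ i, ∑ j, (X j - X i) ^ 3 * (x j - x i) * (y j - y i) * (Y i * y j))) := by
  have hsw : ∀ (u U z Z v V : Fin 5 → ℂ),
      ∑ i, ∑ j, (u j - u i) ^ 3 * (U j - U i) * (Z j - Z i) * (V i * v j) =
      -∑ i, ∑ j, (u j - u i) ^ 3 * (U j - U i) * (Z j - Z i) * (v i * V j) := by
    intro u U z Z v V
    rw [Finset.sum_comm, ← Finset.sum_neg_distrib]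
    refine Finset.sum_congr rfl (fun i _ => ?_)
    rw [← Finset.sum_neg_distrib]
    refine Finset.sum_congr rfl (fun j _ => ?_)
    ring
  have h1 := hsw x X y Y x X
  have h2 := hsw x X y Y y Y
  have h3 := hsw X x Y y X x
  have h4 := hsw X x Y y Y y
  have e : ∀ i j, ((x j - x i) ^ 2 * (Y j - Y i) - (X j - X i) ^ 2 * (y j - y i)) *
      ((x j - x i) * (X j - X i)) *
      (x i * X j - X i * x j + 2 * (y i * Y j - Y i * y j)) =
      (x j - x i) ^ 3 * (X j - X i) * (Y j - Y i) * (x i * X j) -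
      (x j - x i) ^ 3 * (X j - X i) * (Y j - Y i) * (X i * x j) +
      2 * ((x j - x i) ^ 3 * (X j - X i) * (Y j - Y i) * (y i * Y j)) -
      2 * ((x j - x i) ^ 3 * (X j - X i) * (Y j - Y i) * (Y i * y j)) +
      ((X j - X i) ^ 3 * (x j - x i) * (y j - y i) * (X i * x j) -
      (X j - X i) ^ 3 * (x j - x i) * (y j - y i) * (x i * X j) +
      2 * ((X j - X i) ^ 3 * (x j - x i) * (y j - y i) * (Y i * y j)) -
      2 * ((X j - X i) ^ 3 * (x j - x i) * (y j - y i) * (y i * Y j))) := by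
    intro i j
    ring
  simp only [e, Finset.sum_add_distrib, Finset.sum_sub_distrib, ← Finset.mul_sum]
  linear_combination -h1 - 2 * h2 - h3 - 2 * h4

section alg

variable {x X y Y : Fin 5 → ℂ}
  (hG : ∀ i j, x i * X j + X i * x j + y i * Y j + Y i * y j =
    (if i = j then 1 else 0) - 1 / 5)

include hG

lemma parseval (φ ψ : Fin 5 → ℂ) :
    ∑ i, φ i * ψ i = 1 / 5 * (∑ i, φ i) * (∑ i, ψ i) + (∑ i, φ i * x i) * (∑ i, ψ i * X i) +
      (∑ i, φ i * X i) * (∑ i, ψ i * x i) + (∑ i, φ i * y i) * (∑ i, ψ i * Y i) +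
      (∑ i, φ i * Y i) * (∑ i, ψ i * y i) := by
  have h1 : 1 / 5 * (∑ i, φ i) * (∑ i, ψ i) + (∑ i, φ i * x i) * (∑ i, ψ i * X i) +
      (∑ i, φ i * X i) * (∑ i, ψ i * x i) + (∑ i, φ i * y i) * (∑ i, ψ i * Y i) +
      (∑ i, φ i * Y i) * (∑ i, ψ i * y i) = ∑ i, ∑ j, φ i * ψ j * (if i = j then 1 else 0) := by
    have h2 : ∀ i j, φ i * ψ j * (if i = j then 1 else 0) = 1 / 5 * φ i * ψ j +
        (φ i * x i) * (ψ j * X j) + (φ i * X i) * (ψ j * x j) + (φ i * y i) * (ψ j * Y j) +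
        (φ i * Y i) * (ψ j * y j) := by
      intro i j
      linear_combination (-φ i * ψ j) * hG i j
    simp only [h2, Finset.sum_add_distrib, ← Finset.mul_sum, ← Finset.sum_mul]
  rw [h1]
  simp

lemma mom_split (a b c d a' b' c' d' : ℕ) :
    mom x X y Y (a + a') (b + b') (c + c') (d + d') =
      1 / 5 * mom x X y Y a b c d * mom x X y Y a' b' c' d' +
      mom x X y Y (a + 1) b c d * mom x X y Y a' (b' + 1) c' d' +
      mom x X y Y a (b + 1) c d * mom x X y Y (a' + 1) b' c' d' +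
      mom x X y Y a b (c + 1) d * mom x X y Y a' b' c' (d' + 1) +
      mom x X y Y a b c (d + 1) * mom x X y Y a' b' (c' + 1) d' := by
  have h := parseval hG (fun i => x i ^ a * X i ^ b * y i ^ c * Y i ^ d)
    (fun i => x i ^ a' * X i ^ b' * y i ^ c' * Y i ^ d')
  have e0 : mom x X y Y (a + a') (b + b') (c + c') (d + d') =
      ∑ i, (x i ^ a * X i ^ b * y i ^ c * Y i ^ d) * (x i ^ a' * X i ^ b' * y i ^ c' * Y i ^ d') :=
    Finset.sum_congr rfl (fun i _ => by ring)
  have e1 : ∑ i, (x i ^ a * X i ^ b * y i ^ c * Y i ^ d) * x i = mom x X y Y (a + 1) b c d :=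
    Finset.sum_congr rfl (fun i _ => by ring)
  have e2 : ∑ i, (x i ^ a * X i ^ b * y i ^ c * Y i ^ d) * X i = mom x X y Y a (b + 1) c d :=
    Finset.sum_congr rfl (fun i _ => by ring)
  have e3 : ∑ i, (x i ^ a * X i ^ b * y i ^ c * Y i ^ d) * y i = mom x X y Y a b (c + 1) d :=
    Finset.sum_congr rfl (fun i _ => by ring)
  have e4 : ∑ i, (x i ^ a * X i ^ b * y i ^ c * Y i ^ d) * Y i = mom x X y Y a b c (d + 1) :=
    Finset.sum_congr rfl (fun i _ => by ring)
  have f1 : ∑ i, (x i ^ a' * X i ^ b' * y i ^ c' * Y i ^ d') * x i =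
      mom x X y Y (a' + 1) b' c' d' :=
    Finset.sum_congr rfl (fun i _ => by ring)
  have f2 : ∑ i, (x i ^ a' * X i ^ b' * y i ^ c' * Y i ^ d') * X i =
      mom x X y Y a' (b' + 1) c' d' :=
    Finset.sum_congr rfl (fun i _ => by ring)
  have f3 : ∑ i, (x i ^ a' * X i ^ b' * y i ^ c' * Y i ^ d') * y i =
      mom x X y Y a' b' (c' + 1) d' :=
    Finset.sum_congr rfl (fun i _ => by ring)
  have f4 : ∑ i, (x i ^ a' * X i ^ b' * y i ^ c' * Y i ^ d') * Y i =
      mom x X y Y a' b' c' (d' + 1) :=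
    Finset.sum_congr rfl (fun i _ => by ring)
  rw [e0, h, e1, e2, e3, e4, f1, f2, f3, f4]
  rfl

/-- the orthogonality relations -/
lemma mom_low :
    mom x X y Y 1 0 0 0 = 0 ∧ mom x X y Y 0 1 0 0 = 0 ∧ mom x X y Y 0 0 1 0 = 0 ∧
    mom x X y Y 0 0 0 1 = 0 ∧ mom x X y Y 2 0 0 0 = 0 ∧ mom x X y Y 0 2 0 0 = 0 ∧
    mom x X y Y 0 0 2 0 = 0 ∧ mom x X y Y 0 0 0 2 = 0 ∧ mom x X y Y 1 1 0 0 = 1 ∧
    mom x X y Y 0 0 1 1 = 1 ∧ mom x X y Y 1 0 1 0 = 0 ∧ mom x X y Y 1 0 0 1 = 0 ∧
    mom x X y Y 0 1 1 0 = 0 ∧ mom x X y Y 0 1 0 1 = 0 := by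
  let P : Matrix (Fin 5) (Fin 5) ℂ := Matrix.of fun i e =>
    ![1, x i, X i, y i, Y i] e
  let Q : Matrix (Fin 5) (Fin 5) ℂ := Matrix.of fun e j =>
    ![1 / 5, X j, x j, Y j, y j] e
  have hPQ : P * Q = 1 := by
    ext i j
    rw [Matrix.mul_apply, Fin.sum_univ_five, Matrix.one_apply]
    simp only [P, Q, Matrix.of_apply]
    simp only [Matrix.cons_val]
    linear_combination hG i j
  have hQP : Q * P = 1 := mul_eq_one_comm.1 hPQ
  have key : ∀ e f : Fin 5, ∑ j, Q e j * P j f = if e = f then 1 else 0 := by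
    intro e f
    rw [← Matrix.mul_apply, hQP, Matrix.one_apply]
  have hne : ∀ e f : Fin 5, e ≠ f → ∑ j, Q e j * P j f = 0 := by
    intro e f h
    rw [key, if_neg h]
  have heq : ∀ e : Fin 5, ∑ j, Q e j * P j e = 1 := by
    intro e
    rw [key, if_pos rfl]
  have k01 := hne 0 1 (by decide)
  have k02 := hne 0 2 (by decide)
  have k03 := hne 0 3 (by decide)
  have k04 := hne 0 4 (by decide)
  have k11 := heq 1
  have k12 := hne 1 2 (by decide)
  have k13 := hne 1 3 (by decide)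
  have k14 := hne 1 4 (by decide)
  have k21 := hne 2 1 (by decide)
  have k23 := hne 2 3 (by decide)
  have k24 := hne 2 4 (by decide)
  have k33 := heq 3
  have k34 := hne 3 4 (by decide)
  have k43 := hne 4 3 (by decide)
  simp only [P, Q, Matrix.of_apply, Matrix.cons_val, ← Finset.mul_sum] at k01 k02 k03 k04 k11 k12 k13 k14 k21 k23 k24 k33 k34 k43
  simp only [mom, pow_zero, pow_one, mul_one, one_mul]
  refine ⟨?_, ?_, ?_, ?_, ?_, ?_, ?_, ?_, ?_, ?_, ?_, ?_, ?_, ?_⟩
  · linear_combination 5 * k01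
  · linear_combination 5 * k02
  · linear_combination 5 * k03
  · linear_combination 5 * k04
  · rw [← k21]; exact Finset.sum_congr rfl (fun i _ => by ring)
  · rw [← k12]; exact Finset.sum_congr rfl (fun i _ => by ring)
  · rw [← k43]; exact Finset.sum_congr rfl (fun i _ => by ring)
  · rw [← k34]; exact Finset.sum_congr rfl (fun i _ => by ring)
  · rw [← k11]; exact Finset.sum_congr rfl (fun i _ => by ring)
  · rw [← k33]; exact Finset.sum_congr rfl (fun i _ => by ring)
  · rw [← k23]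
  · rw [← k24]
  · rw [← k13]
  · rw [← k14]

lemma relations (r rb g d db m mb s sb l lb : ℂ)
    (h3000 : mom x X y Y 3 0 0 0 = 2 * r) (h0300 : mom x X y Y 0 3 0 0 = 2 * rb)
    (h2100 : mom x X y Y 2 1 0 0 = 0) (h1200 : mom x X y Y 1 2 0 0 = 0)
    (h2001 : mom x X y Y 2 0 0 1 = g) (h0210 : mom x X y Y 0 2 1 0 = g)
    (h2010 : mom x X y Y 2 0 1 0 = d) (h0201 : mom x X y Y 0 2 0 1 = db)
    (h1110 : mom x X y Y 1 1 1 0 = m) (h1101 : mom x X y Y 1 1 0 1 = mb)
    (h1011 : mom x X y Y 1 0 1 1 = 0) (h0111 : mom x X y Y 0 1 1 1 = 0)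
    (h0120 : mom x X y Y 0 1 2 0 = r) (h1002 : mom x X y Y 1 0 0 2 = rb)
    (h1020 : mom x X y Y 1 0 2 0 = s) (h0102 : mom x X y Y 0 1 0 2 = sb)
    (h0021 : mom x X y Y 0 0 2 1 = -m) (h0012 : mom x X y Y 0 0 1 2 = -mb)
    (h0030 : mom x X y Y 0 0 3 0 = l) (h0003 : mom x X y Y 0 0 0 3 = lb) :
    (d * db + 4 * r * rb + g ^ 2 - 2 * m * mb - 1 / 5 = 0) ∧
    (3 * g * r - mb * s = 0) ∧
    (3 * g * rb - sb * m = 0) ∧
    (g * l + 2 * r ^ 2 - 3 * d * m = 0) ∧
    (rb * s + 2 * d * mb + 2 * g * m = 0) ∧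
    (r * sb + 2 * db * m + 2 * g * mb = 0) ∧
    (l * mb - d * g - 2 * m ^ 2 = 0) ∧
    (lb * m - db * g - 2 * mb ^ 2 = 0) ∧
    (d * db + s * sb + 3 * m * mb - 1 / 5 = 0) ∧
    (r * rb + g ^ 2 + 3 * m * mb - 1 / 5 = 0) ∧
    (rb * l + g * r + 2 * mb * s = 0) ∧
    (r * lb + g * rb + 2 * m * sb = 0) ∧
    (l * lb + r * rb + s * sb - m * mb - 1 / 5 = 0) := by
  obtain ⟨h1000, h0100, h0010, h0001, h2000, h0200, h0020, h0002, h1100, h0011, h1010, h1001, h0110, h0101⟩ := mom_low hG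
  refine ⟨?_, ?_, ?_, ?_, ?_, ?_, ?_, ?_, ?_, ?_, ?_, ?_, ?_⟩
  · have h := mom_split hG 2 0 0 0 0 2 0 0
    have h' := mom_split hG 1 1 0 0 1 1 0 0
    simp only [Nat.reduceAdd] at h h'
    rw [h] at h'
    simp only [h1000, h0100, h0010, h0001, h2000, h0200, h0020, h0002, h1100, h0011, h1010, h1001, h0110, h0101, h3000, h0300, h2100, h1200, h2001, h0210, h2010, h0201, h1110, h1101, h1011, h0111, h0120, h1002, h1020, h0102, h0021, h0012, h0030, h0003] at h'
    first
      | linear_combination h'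
      | linear_combination -h'
  · have h := mom_split hG 2 0 0 0 0 1 1 0
    have h' := mom_split hG 1 1 0 0 1 0 1 0
    simp only [Nat.reduceAdd] at h h'
    rw [h] at h'
    simp only [h1000, h0100, h0010, h0001, h2000, h0200, h0020, h0002, h1100, h0011, h1010, h1001, h0110, h0101, h3000, h0300, h2100, h1200, h2001, h0210, h2010, h0201, h1110, h1101, h1011, h0111, h0120, h1002, h1020, h0102, h0021, h0012, h0030, h0003] at h'
    first
      | linear_combination h'
      | linear_combination -h'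
  · have h := mom_split hG 0 2 0 0 1 0 0 1
    have h' := mom_split hG 1 1 0 0 0 1 0 1
    simp only [Nat.reduceAdd] at h h'
    rw [h] at h'
    simp only [h1000, h0100, h0010, h0001, h2000, h0200, h0020, h0002, h1100, h0011, h1010, h1001, h0110, h0101, h3000, h0300, h2100, h1200, h2001, h0210, h2010, h0201, h1110, h1101, h1011, h0111, h0120, h1002, h1020, h0102, h0021, h0012, h0030, h0003] at h'
    first
      | linear_combination h'
      | linear_combination -h'
  · have h := mom_split hG 2 0 0 0 0 0 2 0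
    have h' := mom_split hG 1 0 1 0 1 0 1 0
    simp only [Nat.reduceAdd] at h h'
    rw [h] at h'
    simp only [h1000, h0100, h0010, h0001, h2000, h0200, h0020, h0002, h1100, h0011, h1010, h1001, h0110, h0101, h3000, h0300, h2100, h1200, h2001, h0210, h2010, h0201, h1110, h1101, h1011, h0111, h0120, h1002, h1020, h0102, h0021, h0012, h0030, h0003] at h'
    first
      | linear_combination h'
      | linear_combination -h'
  · have h := mom_split hG 2 0 0 0 0 0 1 1
    have h' := mom_split hG 1 0 1 0 1 0 0 1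
    simp only [Nat.reduceAdd] at h h'
    rw [h] at h'
    simp only [h1000, h0100, h0010, h0001, h2000, h0200, h0020, h0002, h1100, h0011, h1010, h1001, h0110, h0101, h3000, h0300, h2100, h1200, h2001, h0210, h2010, h0201, h1110, h1101, h1011, h0111, h0120, h1002, h1020, h0102, h0021, h0012, h0030, h0003] at h'
    first
      | linear_combination h'
      | linear_combination -h'
  · have h := mom_split hG 0 2 0 0 0 0 1 1
    have h' := mom_split hG 0 1 1 0 0 1 0 1
    simp only [Nat.reduceAdd] at h h'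
    rw [h] at h'
    simp only [h1000, h0100, h0010, h0001, h2000, h0200, h0020, h0002, h1100, h0011, h1010, h1001, h0110, h0101, h3000, h0300, h2100, h1200, h2001, h0210, h2010, h0201, h1110, h1101, h1011, h0111, h0120, h1002, h1020, h0102, h0021, h0012, h0030, h0003] at h'
    first
      | linear_combination h'
      | linear_combination -h'
  · have h := mom_split hG 1 1 0 0 0 0 2 0
    have h' := mom_split hG 1 0 1 0 0 1 1 0
    simp only [Nat.reduceAdd] at h h'
    rw [h] at h'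
    simp only [h1000, h0100, h0010, h0001, h2000, h0200, h0020, h0002, h1100, h0011, h1010, h1001, h0110, h0101, h3000, h0300, h2100, h1200, h2001, h0210, h2010, h0201, h1110, h1101, h1011, h0111, h0120, h1002, h1020, h0102, h0021, h0012, h0030, h0003] at h'
    first
      | linear_combination h'
      | linear_combination -h'
  · have h := mom_split hG 1 1 0 0 0 0 0 2
    have h' := mom_split hG 1 0 0 1 0 1 0 1
    simp only [Nat.reduceAdd] at h h'
    rw [h] at h'
    simp only [h1000, h0100, h0010, h0001, h2000, h0200, h0020, h0002, h1100, h0011, h1010, h1001, h0110, h0101, h3000, h0300, h2100, h1200, h2001, h0210, h2010, h0201, h1110, h1101, h1011, h0111, h0120, h1002, h1020, h0102, h0021, h0012, h0030, h0003] at h'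
    first
      | linear_combination h'
      | linear_combination -h'
  · have h := mom_split hG 1 1 0 0 0 0 1 1
    have h' := mom_split hG 1 0 1 0 0 1 0 1
    simp only [Nat.reduceAdd] at h h'
    rw [h] at h'
    simp only [h1000, h0100, h0010, h0001, h2000, h0200, h0020, h0002, h1100, h0011, h1010, h1001, h0110, h0101, h3000, h0300, h2100, h1200, h2001, h0210, h2010, h0201, h1110, h1101, h1011, h0111, h0120, h1002, h1020, h0102, h0021, h0012, h0030, h0003] at h'
    first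
      | linear_combination h'
      | linear_combination -h'
  · have h := mom_split hG 1 1 0 0 0 0 1 1
    have h' := mom_split hG 1 0 0 1 0 1 1 0
    simp only [Nat.reduceAdd] at h h'
    rw [h] at h'
    simp only [h1000, h0100, h0010, h0001, h2000, h0200, h0020, h0002, h1100, h0011, h1010, h1001, h0110, h0101, h3000, h0300, h2100, h1200, h2001, h0210, h2010, h0201, h1110, h1101, h1011, h0111, h0120, h1002, h1020, h0102, h0021, h0012, h0030, h0003] at h'
    first
      | linear_combination h'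
      | linear_combination -h'
  · have h := mom_split hG 1 0 1 0 0 0 1 1
    have h' := mom_split hG 1 0 0 1 0 0 2 0
    simp only [Nat.reduceAdd] at h h'
    rw [h] at h'
    simp only [h1000, h0100, h0010, h0001, h2000, h0200, h0020, h0002, h1100, h0011, h1010, h1001, h0110, h0101, h3000, h0300, h2100, h1200, h2001, h0210, h2010, h0201, h1110, h1101, h1011, h0111, h0120, h1002, h1020, h0102, h0021, h0012, h0030, h0003] at h'
    first
      | linear_combination h'
      | linear_combination -h'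
  · have h := mom_split hG 0 1 0 1 0 0 1 1
    have h' := mom_split hG 0 1 1 0 0 0 0 2
    simp only [Nat.reduceAdd] at h h'
    rw [h] at h'
    simp only [h1000, h0100, h0010, h0001, h2000, h0200, h0020, h0002, h1100, h0011, h1010, h1001, h0110, h0101, h3000, h0300, h2100, h1200, h2001, h0210, h2010, h0201, h1110, h1101, h1011, h0111, h0120, h1002, h1020, h0102, h0021, h0012, h0030, h0003] at h'
    first
      | linear_combination h'
      | linear_combination -h'
  · have h := mom_split hG 0 0 2 0 0 0 0 2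
    have h' := mom_split hG 0 0 1 1 0 0 1 1
    simp only [Nat.reduceAdd] at h h'
    rw [h] at h'
    simp only [h1000, h0100, h0010, h0001, h2000, h0200, h0020, h0002, h1100, h0011, h1010, h1001, h0110, h0101, h3000, h0300, h2100, h1200, h2001, h0210, h2010, h0201, h1110, h1101, h1011, h0111, h0120, h1002, h1020, h0102, h0021, h0012, h0030, h0003] at h'
    first
      | linear_combination h'
      | linear_combination -h'

lemma dsum_formula (r rb g d db m mb s sb l lb : ℂ)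
    (h3000 : mom x X y Y 3 0 0 0 = 2 * r) (h0300 : mom x X y Y 0 3 0 0 = 2 * rb)
    (h2100 : mom x X y Y 2 1 0 0 = 0) (h1200 : mom x X y Y 1 2 0 0 = 0)
    (h2001 : mom x X y Y 2 0 0 1 = g) (h0210 : mom x X y Y 0 2 1 0 = g)
    (h2010 : mom x X y Y 2 0 1 0 = d) (h0201 : mom x X y Y 0 2 0 1 = db)
    (h1110 : mom x X y Y 1 1 1 0 = m) (h1101 : mom x X y Y 1 1 0 1 = mb)
    (h1011 : mom x X y Y 1 0 1 1 = 0) (h0111 : mom x X y Y 0 1 1 1 = 0)
    (h0120 : mom x X y Y 0 1 2 0 = r) (h1002 : mom x X y Y 1 0 0 2 = rb)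
    (h1020 : mom x X y Y 1 0 2 0 = s) (h0102 : mom x X y Y 0 1 0 2 = sb)
    (h0021 : mom x X y Y 0 0 2 1 = -m) (h0012 : mom x X y Y 0 0 1 2 = -mb)
    (h0030 : mom x X y Y 0 0 3 0 = l) (h0003 : mom x X y Y 0 0 0 3 = lb) :
    ∑ i, ∑ j, ((x j - x i) ^ 2 * (Y j - Y i) - (X j - X i) ^ 2 * (y j - y i)) *
      ((x j - x i) * (X j - X i)) *
      (x i * X j - X i * x j + 2 * (y i * Y j - Y i * y j)) =
    g * (-4 - 180 * (r * rb) + 240 * (m * mb)) := by
  obtain ⟨R1, R2, R2b, R4, R5, R5b, R7, R7b, R8a, R8b, R9, R9b, R11⟩ := relations hG r rb g d db m mb s sb l lb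
    h3000 h0300 h2100 h1200 h2001 h0210 h2010 h0201 h1110 h1101 h1011 h0111 h0120 h1002 h1020 h0102 h0021 h0012 h0030 h0003
  obtain ⟨h1000, h0100, h0010, h0001, h2000, h0200, h0020, h0002, h1100, h0011, h1010, h1001, h0110, h0101⟩ := mom_low hG
  have q0400 : mom x X y Y 0 4 0 0 = 2 * db * g := by
    have h := mom_split hG 0 2 0 0 0 2 0 0
    simp only [Nat.reduceAdd, h1000, h0100, h0010, h0001, h2000, h0200, h0020, h0002, h1100, h0011, h1010, h1001, h0110, h0101, h3000, h0300, h2100, h1200, h2001, h0210, h2010, h0201, h1110, h1101, h1011, h0111, h0120, h1002, h1020, h0102, h0021, h0012, h0030, h0003] at h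
    linear_combination h
  have q0301 : mom x X y Y 0 3 0 1 = 2 * rb * mb + 1 * sb * g := by
    have h := mom_split hG 0 2 0 0 0 1 0 1
    simp only [Nat.reduceAdd, h1000, h0100, h0010, h0001, h2000, h0200, h0020, h0002, h1100, h0011, h1010, h1001, h0110, h0101, h3000, h0300, h2100, h1200, h2001, h0210, h2010, h0201, h1110, h1101, h1011, h0111, h0120, h1002, h1020, h0102, h0021, h0012, h0030, h0003] at h
    linear_combination h
  have q1300 : mom x X y Y 1 3 0 0 = 1 * db * m + 1 * g * mb := by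
    have h := mom_split hG 1 1 0 0 0 2 0 0
    simp only [Nat.reduceAdd, h1000, h0100, h0010, h0001, h2000, h0200, h0020, h0002, h1100, h0011, h1010, h1001, h0110, h0101, h3000, h0300, h2100, h1200, h2001, h0210, h2010, h0201, h1110, h1101, h1011, h0111, h0120, h1002, h1020, h0102, h0021, h0012, h0030, h0003] at h
    linear_combination h
  have q0310 : mom x X y Y 0 3 1 0 = 1 * db * r + 2 * rb * m := by
    have h := mom_split hG 0 2 0 0 0 1 1 0
    simp only [Nat.reduceAdd, h1000, h0100, h0010, h0001, h2000, h0200, h0020, h0002, h1100, h0011, h1010, h1001, h0110, h0101, h3000, h0300, h2100, h1200, h2001, h0210, h2010, h0201, h1110, h1101, h1011, h0111, h0120, h1002, h1020, h0102, h0021, h0012, h0030, h0003] at h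
    linear_combination h
  have q1201 : mom x X y Y 1 2 0 1 = 1 * sb * m := by
    have h := mom_split hG 1 1 0 0 0 1 0 1
    simp only [Nat.reduceAdd, h1000, h0100, h0010, h0001, h2000, h0200, h0020, h0002, h1100, h0011, h1010, h1001, h0110, h0101, h3000, h0300, h2100, h1200, h2001, h0210, h2010, h0201, h1110, h1101, h1011, h0111, h0120, h1002, h1020, h0102, h0021, h0012, h0030, h0003] at h
    linear_combination h
  have q0211 : mom x X y Y 0 2 1 1 = (-1) * db * m + (-1) * g * mb := by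
    have h := mom_split hG 0 2 0 0 0 0 1 1
    simp only [Nat.reduceAdd, h1000, h0100, h0010, h0001, h2000, h0200, h0020, h0002, h1100, h0011, h1010, h1001, h0110, h0101, h3000, h0300, h2100, h1200, h2001, h0210, h2010, h0201, h1110, h1101, h1011, h0111, h0120, h1002, h1020, h0102, h0021, h0012, h0030, h0003] at h
    linear_combination h
  have q2200 : mom x X y Y 2 2 0 0 = 1 * db * d + 4 * rb * r + 1 * g * g := by
    have h := mom_split hG 2 0 0 0 0 2 0 0
    simp only [Nat.reduceAdd, h1000, h0100, h0010, h0001, h2000, h0200, h0020, h0002, h1100, h0011, h1010, h1001, h0110, h0101, h3000, h0300, h2100, h1200, h2001, h0210, h2010, h0201, h1110, h1101, h1011, h0111, h0120, h1002, h1020, h0102, h0021, h0012, h0030, h0003] at h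
    linear_combination h
  have q1210 : mom x X y Y 1 2 1 0 = 1 * mb * r := by
    have h := mom_split hG 1 1 0 0 0 1 1 0
    simp only [Nat.reduceAdd, h1000, h0100, h0010, h0001, h2000, h0200, h0020, h0002, h1100, h0011, h1010, h1001, h0110, h0101, h3000, h0300, h2100, h1200, h2001, h0210, h2010, h0201, h1110, h1101, h1011, h0111, h0120, h1002, h1020, h0102, h0021, h0012, h0030, h0003] at h
    linear_combination h
  have q0220 : mom x X y Y 0 2 2 0 = 1 * db * l + 2 * rb * s + (-1) * g * m := by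
    have h := mom_split hG 0 2 0 0 0 0 2 0
    simp only [Nat.reduceAdd, h1000, h0100, h0010, h0001, h2000, h0200, h0020, h0002, h1100, h0011, h1010, h1001, h0110, h0101, h3000, h0300, h2100, h1200, h2001, h0210, h2010, h0201, h1110, h1101, h1011, h0111, h0120, h1002, h1020, h0102, h0021, h0012, h0030, h0003] at h
    linear_combination h
  have q1102 : mom x X y Y 1 1 0 2 = 1 * lb * m + (-1) * mb * mb := by
    have h := mom_split hG 1 1 0 0 0 0 0 2
    simp only [Nat.reduceAdd, h1000, h0100, h0010, h0001, h2000, h0200, h0020, h0002, h1100, h0011, h1010, h1001, h0110, h0101, h3000, h0300, h2100, h1200, h2001, h0210, h2010, h0201, h1110, h1101, h1011, h0111, h0120, h1002, h1020, h0102, h0021, h0012, h0030, h0003] at h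
    linear_combination h
  have q2101 : mom x X y Y 2 1 0 1 = 2 * db * r + 1 * sb * d := by
    have h := mom_split hG 2 0 0 0 0 1 0 1
    simp only [Nat.reduceAdd, h1000, h0100, h0010, h0001, h2000, h0200, h0020, h0002, h1100, h0011, h1010, h1001, h0110, h0101, h3000, h0300, h2100, h1200, h2001, h0210, h2010, h0201, h1110, h1101, h1011, h0111, h0120, h1002, h1020, h0102, h0021, h0012, h0030, h0003] at h
    linear_combination h
  have q1111 : mom x X y Y 1 1 1 1 = (1/5) + (-2) * m * mb := by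
    have h := mom_split hG 1 1 0 0 0 0 1 1
    simp only [Nat.reduceAdd, h1000, h0100, h0010, h0001, h2000, h0200, h0020, h0002, h1100, h0011, h1010, h1001, h0110, h0101, h3000, h0300, h2100, h1200, h2001, h0210, h2010, h0201, h1110, h1101, h1011, h0111, h0120, h1002, h1020, h0102, h0021, h0012, h0030, h0003] at h
    linear_combination h
  have q3100 : mom x X y Y 3 1 0 0 = 1 * d * mb + 1 * g * m := by
    have h := mom_split hG 2 0 0 0 1 1 0 0
    simp only [Nat.reduceAdd, h1000, h0100, h0010, h0001, h2000, h0200, h0020, h0002, h1100, h0011, h1010, h1001, h0110, h0101, h3000, h0300, h2100, h1200, h2001, h0210, h2010, h0201, h1110, h1101, h1011, h0111, h0120, h1002, h1020, h0102, h0021, h0012, h0030, h0003] at h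
    linear_combination h
  have q2110 : mom x X y Y 2 1 1 0 = 3 * g * r := by
    have h := mom_split hG 2 0 0 0 0 1 1 0
    simp only [Nat.reduceAdd, h1000, h0100, h0010, h0001, h2000, h0200, h0020, h0002, h1100, h0011, h1010, h1001, h0110, h0101, h3000, h0300, h2100, h1200, h2001, h0210, h2010, h0201, h1110, h1101, h1011, h0111, h0120, h1002, h1020, h0102, h0021, h0012, h0030, h0003] at h
    linear_combination h
  have q1120 : mom x X y Y 1 1 2 0 = 1 * l * mb + (-1) * m * m := by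
    have h := mom_split hG 1 1 0 0 0 0 2 0
    simp only [Nat.reduceAdd, h1000, h0100, h0010, h0001, h2000, h0200, h0020, h0002, h1100, h0011, h1010, h1001, h0110, h0101, h3000, h0300, h2100, h1200, h2001, h0210, h2010, h0201, h1110, h1101, h1011, h0111, h0120, h1002, h1020, h0102, h0021, h0012, h0030, h0003] at h
    linear_combination h
  have q2002 : mom x X y Y 2 0 0 2 = 1 * lb * d + 2 * sb * r + (-1) * g * mb := by
    have h := mom_split hG 2 0 0 0 0 0 0 2
    simp only [Nat.reduceAdd, h1000, h0100, h0010, h0001, h2000, h0200, h0020, h0002, h1100, h0011, h1010, h1001, h0110, h0101, h3000, h0300, h2100, h1200, h2001, h0210, h2010, h0201, h1110, h1101, h1011, h0111, h0120, h1002, h1020, h0102, h0021, h0012, h0030, h0003] at h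
    linear_combination h
  have q3001 : mom x X y Y 3 0 0 1 = 1 * rb * d + 2 * mb * r := by
    have h := mom_split hG 2 0 0 0 1 0 0 1
    simp only [Nat.reduceAdd, h1000, h0100, h0010, h0001, h2000, h0200, h0020, h0002, h1100, h0011, h1010, h1001, h0110, h0101, h3000, h0300, h2100, h1200, h2001, h0210, h2010, h0201, h1110, h1101, h1011, h0111, h0120, h1002, h1020, h0102, h0021, h0012, h0030, h0003] at h
    linear_combination h
  have q2011 : mom x X y Y 2 0 1 1 = (-1) * d * mb + (-1) * g * m := by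
    have h := mom_split hG 2 0 0 0 0 0 1 1
    simp only [Nat.reduceAdd, h1000, h0100, h0010, h0001, h2000, h0200, h0020, h0002, h1100, h0011, h1010, h1001, h0110, h0101, h3000, h0300, h2100, h1200, h2001, h0210, h2010, h0201, h1110, h1101, h1011, h0111, h0120, h1002, h1020, h0102, h0021, h0012, h0030, h0003] at h
    linear_combination h
  have q4000 : mom x X y Y 4 0 0 0 = 2 * d * g := by
    have h := mom_split hG 2 0 0 0 2 0 0 0
    simp only [Nat.reduceAdd, h1000, h0100, h0010, h0001, h2000, h0200, h0020, h0002, h1100, h0011, h1010, h1001, h0110, h0101, h3000, h0300, h2100, h1200, h2001, h0210, h2010, h0201, h1110, h1101, h1011, h0111, h0120, h1002, h1020, h0102, h0021, h0012, h0030, h0003] at h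
    linear_combination h
  have q3010 : mom x X y Y 3 0 1 0 = 1 * g * s + 2 * m * r := by
    have h := mom_split hG 2 0 0 0 1 0 1 0
    simp only [Nat.reduceAdd, h1000, h0100, h0010, h0001, h2000, h0200, h0020, h0002, h1100, h0011, h1010, h1001, h0110, h0101, h3000, h0300, h2100, h1200, h2001, h0210, h2010, h0201, h1110, h1101, h1011, h0111, h0120, h1002, h1020, h0102, h0021, h0012, h0030, h0003] at h
    linear_combination h
  have q1310 : mom x X y Y 1 3 1 0 = (1/5) * g + 1 * db * l * mb + (-1) * db * m * m + 2 * rb * mb * s + (-2) * g * m * mb := by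
    have h := mom_split hG 1 1 0 0 0 2 1 0
    simp only [Nat.reduceAdd, h1000, h0100, h0010, h0001, h2000, h0200, h0020, h0002, h1100, h0011, h1010, h1001, h0110, h0101, h3000, h0300, h2100, h1200, h2001, h0210, h2010, h0201, h1110, h1101, h1011, h0111, h0120, h1002, h1020, h0102, h0021, h0012, h0030, h0003, q0400, q0301, q1300, q0310, q1201, q0211, q2200, q1210, q0220, q1102, q2101, q1111, q3100, q2110, q1120, q2002, q3001, q2011, q4000, q3010, zero_mul, mul_zero, add_zero, zero_add] at h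
    linear_combination h
  have q3101 : mom x X y Y 3 1 0 1 = (1/5) * g + 1 * lb * d * m + 2 * sb * m * r + (-1) * d * mb * mb + (-2) * g * m * mb := by
    have h := mom_split hG 2 0 0 0 1 1 0 1
    simp only [Nat.reduceAdd, h1000, h0100, h0010, h0001, h2000, h0200, h0020, h0002, h1100, h0011, h1010, h1001, h0110, h0101, h3000, h0300, h2100, h1200, h2001, h0210, h2010, h0201, h1110, h1101, h1011, h0111, h0120, h1002, h1020, h0102, h0021, h0012, h0030, h0003, q0400, q0301, q1300, q0310, q1201, q0211, q2200, q1210, q0220, q1102, q2101, q1111, q3100, q2110, q1120, q2002, q3001, q2011, q4000, q3010, zero_mul, mul_zero, add_zero, zero_add] at h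
    linear_combination h

  rw [dsum_decomp, zsum1 x X y Y, zsum2 x X y Y, zsum1 X x Y y, zsum2 X x Y y]
  simp only [mom_swap X x Y y]
  simp only [Nat.reduceAdd, h1000, h0100, h0010, h0001, h2000, h0200, h0020, h0002, h1100, h0011, h1010, h1001, h0110, h0101, h3000, h0300, h2100, h1200, h2001, h0210, h2010, h0201, h1110, h1101, h1011, h0111, h0120, h1002, h1020, h0102, h0021, h0012, h0030, h0003, q0400, q0301, q1300, q0310, q1201, q0211, q2200, q1210, q0220, q1102, q2101, q1111, q3100, q2110, q1120, q2002, q3001, q2011, q4000, q3010, q1310, q3101, mul_zero, zero_mul, add_zero, zero_add]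
  linear_combination 24 * db * R7 + 24 * d * R7b - 16 * rb * R2 - 16 * r * R2b - 8 * g * R8a +
    22 * (m * R5b + r * R2b) + 22 * (mb * R5 + rb * R2) + 60 * g * R1 - 48 * g * R8b

end alg

/-! ### The functionals on the cubic part -/

lemma wsum (x Y a b : Fin 5 → ℂ) (ha : ∑ i, a i = 0) (hb : ∑ i, b i = 0) :
    ∑ i, ∑ j, (x j - x i) ^ 2 * (Y j - Y i) * (a i * b j) =
      -(∑ i, Y i * a i) * (∑ i, x i ^ 2 * b i) - 2 * (∑ i, x i * a i) * (∑ i, x i * Y i * b i) +
      2 * (∑ i, x i * Y i * a i) * (∑ i, x i * b i) +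
      (∑ i, x i ^ 2 * a i) * (∑ i, Y i * b i) := by
  have e : ∀ i j, (x j - x i) ^ 2 * (Y j - Y i) * (a i * b j) =
      a i * (x j ^ 2 * Y j * b j) + (-1) * (Y i * a i) * (x j ^ 2 * b j) +
      (-2) * (x i * a i) * (x j * Y j * b j) + 2 * (x i * Y i * a i) * (x j * b j) +
      (x i ^ 2 * a i) * (Y j * b j) + (-1) * (x i ^ 2 * Y i * a i) * b j := by
    intro i j
    ring
  simp only [e, Finset.sum_add_distrib, ← Finset.mul_sum, ← Finset.sum_mul, ha, hb]
  ring

lemma add_sum_zero (h a b : Fin 5 → ℂ) (ha : ∑ i, a i = 0) (hb : ∑ i, b i = 0) :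
    ∑ i, ∑ j, (h j - h i) * (a i * b j) = 0 := by
  have e : ∀ i j, (h j - h i) * (a i * b j) = a i * (h j * b j) + (-1) * (h i * a i) * b j := by
    intro i j
    ring
  simp only [e, Finset.sum_add_distrib, ← Finset.mul_sum, ← Finset.sum_mul, ha, hb]
  ring

section alg2

variable {x X y Y : Fin 5 → ℂ}
  (hG : ∀ i j, x i * X j + X i * x j + y i * Y j + Y i * y j =
    (if i = j then 1 else 0) - 1 / 5)

include hG

lemma low_sums : (∑ i, x i = 0) ∧ (∑ i, X i = 0) ∧ (∑ i, y i = 0) ∧ (∑ i, Y i = 0) ∧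
    (∑ i, x i * x i = 0) ∧ (∑ i, X i * X i = 0) ∧ (∑ i, y i * y i = 0) ∧ (∑ i, Y i * Y i = 0) ∧
    (∑ i, x i * X i = 1) ∧ (∑ i, X i * x i = 1) ∧ (∑ i, y i * Y i = 1) ∧ (∑ i, Y i * y i = 1) ∧
    (∑ i, x i * y i = 0) ∧ (∑ i, y i * x i = 0) ∧ (∑ i, x i * Y i = 0) ∧ (∑ i, Y i * x i = 0) ∧
    (∑ i, X i * y i = 0) ∧ (∑ i, y i * X i = 0) ∧ (∑ i, X i * Y i = 0) ∧ (∑ i, Y i * X i = 0) := by
  obtain ⟨h1000, h0100, h0010, h0001, h2000, h0200, h0020, h0002, h1100, h0011, h1010, h1001,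
    h0110, h0101⟩ := mom_low hG
  simp only [mom, pow_zero, pow_one, mul_one, one_mul] at *
  refine ⟨h1000, h0100, h0010, h0001, ?_, ?_, ?_, ?_, ?_, ?_, ?_, ?_, ?_, ?_, ?_, ?_, ?_, ?_,
    ?_, ?_⟩
  · rw [← h2000]; exact Finset.sum_congr rfl (fun i _ => by ring)
  · rw [← h0200]; exact Finset.sum_congr rfl (fun i _ => by ring)
  · rw [← h0020]; exact Finset.sum_congr rfl (fun i _ => by ring)
  · rw [← h0002]; exact Finset.sum_congr rfl (fun i _ => by ring)
  · rw [← h1100]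
  · rw [← h1100]; exact Finset.sum_congr rfl (fun i _ => by ring)
  · rw [← h0011]
  · rw [← h0011]; exact Finset.sum_congr rfl (fun i _ => by ring)
  · rw [← h1010]
  · rw [← h1010]; exact Finset.sum_congr rfl (fun i _ => by ring)
  · rw [← h1001]
  · rw [← h1001]; exact Finset.sum_congr rfl (fun i _ => by ring)
  · rw [← h0110]
  · rw [← h0110]; exact Finset.sum_congr rfl (fun i _ => by ring)
  · rw [← h0101]
  · rw [← h0101]; exact Finset.sum_congr rfl (fun i _ => by ring)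

/-- the four functionals on the cubic part -/
lemma cubic_functionals :
    (∑ i, ∑ j, ((x j - x i) ^ 2 * (Y j - Y i) + (X j - X i) ^ 2 * (y j - y i)) * (x i * y j) =
      mom x X y Y 3 0 0 0 - 2 * mom x X y Y 0 1 2 0) ∧
    (∑ i, ∑ j, ((x j - x i) ^ 2 * (Y j - Y i) + (X j - X i) ^ 2 * (y j - y i)) * (X i * y j) =
      mom x X y Y 2 1 0 0 - 2 * mom x X y Y 1 0 1 1) ∧
    (∑ i, ∑ j, ((x j - x i) ^ 2 * (Y j - Y i) + (X j - X i) ^ 2 * (y j - y i)) * (x i * X j) =
      2 * mom x X y Y 2 0 0 1 - 2 * mom x X y Y 0 2 1 0) ∧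
    (∑ i, ∑ j, ((x j - x i) ^ 2 * (Y j - Y i) + (X j - X i) ^ 2 * (y j - y i)) *
      (x i * X j - X i * x j + 2 * (y i * Y j - Y i * y j)) = 0) := by
  obtain ⟨sx, sX, sy, sY, sxx, sXX, syy, sYY, sxX, sXx, syY, sYy, sxy, syx, sxY, sYx, sXy, syX,
    sXY, sYX⟩ := low_sums hG
  have m1 : mom x X y Y 3 0 0 0 = ∑ i, x i ^ 2 * x i :=
    Finset.sum_congr rfl (fun i _ => by ring)
  have m2 : mom x X y Y 0 1 2 0 = ∑ i, X i * y i * y i :=
    Finset.sum_congr rfl (fun i _ => by ring)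
  have m3 : mom x X y Y 2 1 0 0 = ∑ i, x i ^ 2 * X i :=
    Finset.sum_congr rfl (fun i _ => by ring)
  have m4 : mom x X y Y 1 0 1 1 = ∑ i, x i * Y i * y i :=
    Finset.sum_congr rfl (fun i _ => by ring)
  have m5 : mom x X y Y 2 0 0 1 = ∑ i, x i ^ 2 * Y i :=
    Finset.sum_congr rfl (fun i _ => by ring)
  have m5' : mom x X y Y 2 0 0 1 = ∑ i, x i * Y i * x i :=
    Finset.sum_congr rfl (fun i _ => by ring)
  have m6 : mom x X y Y 0 2 1 0 = ∑ i, X i ^ 2 * y i :=
    Finset.sum_congr rfl (fun i _ => by ring)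
  have m6' : mom x X y Y 0 2 1 0 = ∑ i, X i * y i * X i :=
    Finset.sum_congr rfl (fun i _ => by ring)
  refine ⟨?_, ?_, ?_, ?_⟩
  · have a := wsum x Y x y sx sy
    have b := wsum X y x y sx sy
    simp only [add_mul, Finset.sum_add_distrib]
    rw [a, b, m1, m2]
    simp only [sx, sX, sy, sY, sxx, sXX, syy, sYY, sxX, sXx, syY, sYy, sxy, syx, sxY, sYx, sXy,
      syX, sXY, sYX]
    ring
  · have a := wsum x Y X y sX sy
    have b := wsum X y X y sX sy
    simp only [add_mul, Finset.sum_add_distrib]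
    rw [a, b, m3, m4]
    simp only [sx, sX, sy, sY, sxx, sXX, syy, sYY, sxX, sXx, syY, sYy, sxy, syx, sxY, sYx, sXy,
      syX, sXY, sYX]
    ring
  · have a := wsum x Y x X sx sX
    have b := wsum X y x X sx sX
    simp only [add_mul, Finset.sum_add_distrib]
    rw [a, b, m5', m6']
    simp only [sx, sX, sy, sY, sxx, sXX, syy, sYY, sxX, sXx, syY, sYy, sxy, syx, sxY, sYx, sXy,
      syX, sXY, sYX]
    ring
  · have a1 := wsum x Y x X sx sX
    have a2 := wsum x Y X x sX sx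
    have a3 := wsum x Y y Y sy sY
    have a4 := wsum x Y Y y sY sy
    have b1 := wsum X y x X sx sX
    have b2 := wsum X y X x sX sx
    have b3 := wsum X y y Y sy sY
    have b4 := wsum X y Y y sY sy
    have e : ∀ i j, ((x j - x i) ^ 2 * (Y j - Y i) + (X j - X i) ^ 2 * (y j - y i)) *
      (x i * X j - X i * x j + 2 * (y i * Y j - Y i * y j)) =
      (x j - x i) ^ 2 * (Y j - Y i) * (x i * X j) - (x j - x i) ^ 2 * (Y j - Y i) * (X i * x j) +
      2 * ((x j - x i) ^ 2 * (Y j - Y i) * (y i * Y j)) -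
      2 * ((x j - x i) ^ 2 * (Y j - Y i) * (Y i * y j)) +
      ((X j - X i) ^ 2 * (y j - y i) * (x i * X j) - (X j - X i) ^ 2 * (y j - y i) * (X i * x j) +
      2 * ((X j - X i) ^ 2 * (y j - y i) * (y i * Y j)) -
      2 * ((X j - X i) ^ 2 * (y j - y i) * (Y i * y j))) := by
      intro i j
      ring
    simp only [e, Finset.sum_add_distrib, Finset.sum_sub_distrib, ← Finset.mul_sum]
    rw [a1, a2, a3, a4, b1, b2, b3, b4, ← m5, ← m5', ← m6, ← m6']
    simp only [sx, sX, sy, sY, sxx, sXX, syy, sYY, sxX, sXx, syY, sYy, sxy, syx, sxY, sYx, sXy,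
      syX, sXY, sYX]
    ring

end alg2

/-! ### Positivity on the configuration space -/

open ComplexConjugate

/-- The Gram relations of a centred regular simplex with unit edges in `ℂ × ℂ`. -/
def Gram (x y : Fin 5 → ℂ) : Prop :=
  ∀ i j, x i * conj (x j) + conj (x i) * x j + y i * conj (y j) + conj (y i) * y j =
    (if i = j then 1 else 0) - 1 / 5

/-- mixed power sums of a configuration -/
def mm (x y : Fin 5 → ℂ) (a b c d : ℕ) : ℂ :=
  mom x (fun i => conj (x i)) y (fun i => conj (y i)) a b c d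

lemma mm_conj (x y : Fin 5 → ℂ) (a b c d : ℕ) : conj (mm x y a b c d) = mm x y b a d c := by
  simp only [mm, mom, map_sum, map_mul, map_pow, Complex.conj_conj]
  exact Finset.sum_congr rfl (fun i _ => by ring)

/-- the quintic functional -/
def qq (x y : Fin 5 → ℂ) : ℂ :=
  ∑ i, ∑ j, ((x j - x i) ^ 2 * (conj (y j) - conj (y i)) -
      (conj (x j) - conj (x i)) ^ 2 * (y j - y i)) *
      ((x j - x i) * (conj (x j) - conj (x i))) *
      (x i * conj (x j) - conj (x i) * x j + 2 * (y i * conj (y j) - conj (y i) * y j))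

lemma qq_ne_zero {x y : Fin 5 → ℂ} (hG : Gram x y)
    (hA1 : mm x y 2 1 0 0 - 2 * mm x y 1 0 1 1 = 0)
    (hA2 : mm x y 3 0 0 0 - 2 * mm x y 0 1 2 0 = 0)
    (hA3 : mm x y 2 0 0 1 - mm x y 0 2 1 0 = 0) : qq x y ≠ 0 := by
  have hG' : ∀ i j, x i * (fun i => conj (x i)) j + (fun i => conj (x i)) i * x j +
      y i * (fun i => conj (y i)) j + (fun i => conj (y i)) i * y j =
      (if i = j then 1 else 0) - 1 / 5 := hG
  have hdiag : ∀ i, x i * conj (x i) + y i * conj (y i) = 2 / 5 := by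
    intro i
    have := hG i i
    rw [if_pos rfl] at this
    linear_combination this / 2
  obtain ⟨sx, sX, sy, sY, -⟩ := low_sums hG'
  have e1 : mm x y 2 1 0 0 + mm x y 1 0 1 1 = 0 := by
    have : mm x y 2 1 0 0 + mm x y 1 0 1 1 = ∑ i, 2 / 5 * x i := by
      simp only [mm, mom]
      rw [← Finset.sum_add_distrib]
      exact Finset.sum_congr rfl (fun i _ => by linear_combination x i * hdiag i)
    rw [this, ← Finset.mul_sum, sx, mul_zero]
  have e2 : mm x y 1 1 1 0 + mm x y 0 0 2 1 = 0 := by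
    have : mm x y 1 1 1 0 + mm x y 0 0 2 1 = ∑ i, 2 / 5 * y i := by
      simp only [mm, mom]
      rw [← Finset.sum_add_distrib]
      exact Finset.sum_congr rfl (fun i _ => by linear_combination y i * hdiag i)
    rw [this, ← Finset.mul_sum, sy, mul_zero]
  have h2100 : mm x y 2 1 0 0 = 0 := by linear_combination hA1 / 3 + 2 / 3 * e1
  have h1011 : mm x y 1 0 1 1 = 0 := by linear_combination -hA1 / 3 + 1 / 3 * e1
  have h1200 : mm x y 1 2 0 0 = 0 := by rw [← mm_conj, h2100, map_zero]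
  have h0111 : mm x y 0 1 1 1 = 0 := by rw [← mm_conj, h1011, map_zero]
  have h3000 : mm x y 3 0 0 0 = 2 * mm x y 0 1 2 0 := by linear_combination hA2
  have h0300 : mm x y 0 3 0 0 = 2 * mm x y 1 0 0 2 := by
    rw [← mm_conj, h3000, map_mul, mm_conj, map_ofNat]
  have h0210 : mm x y 0 2 1 0 = mm x y 2 0 0 1 := by linear_combination -hA3
  have h0021 : mm x y 0 0 2 1 = -mm x y 1 1 1 0 := by linear_combination e2
  have h0012 : mm x y 0 0 1 2 = -mm x y 1 1 0 1 := by
    rw [← mm_conj, h0021, map_neg, mm_conj]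
  have hF := dsum_formula hG' (mm x y 0 1 2 0) (mm x y 1 0 0 2) (mm x y 2 0 0 1) (mm x y 2 0 1 0)
    (mm x y 0 2 0 1) (mm x y 1 1 1 0) (mm x y 1 1 0 1) (mm x y 1 0 2 0) (mm x y 0 1 0 2)
    (mm x y 0 0 3 0) (mm x y 0 0 0 3) h3000 h0300 h2100 h1200 rfl h0210 rfl rfl rfl rfl h1011
    h0111 rfl rfl rfl rfl h0021 h0012 rfl rfl
  obtain ⟨R1, R2, R2b, R4, R5, R5b, R7, R7b, R8a, R8b, R9, R9b, R11⟩ :=
    relations hG' (mm x y 0 1 2 0) (mm x y 1 0 0 2) (mm x y 2 0 0 1) (mm x y 2 0 1 0)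
    (mm x y 0 2 0 1) (mm x y 1 1 1 0) (mm x y 1 1 0 1) (mm x y 1 0 2 0) (mm x y 0 1 0 2)
    (mm x y 0 0 3 0) (mm x y 0 0 0 3) h3000 h0300 h2100 h1200 rfl h0210 rfl rfl rfl rfl h1011
    h0111 rfl rfl rfl rfl h0021 h0012 rfl rfl
  have cm : mm x y 1 1 0 1 = conj (mm x y 1 1 1 0) := (mm_conj x y 1 1 1 0).symm
  have cs : mm x y 0 1 0 2 = conj (mm x y 1 0 2 0) := (mm_conj x y 1 0 2 0).symm
  have cr : mm x y 1 0 0 2 = conj (mm x y 0 1 2 0) := (mm_conj x y 0 1 2 0).symm
  intro hzero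
  have hF2 : (mm x y 2 0 0 1) * (-4 - 180 * (mm x y 0 1 2 0 * mm x y 1 0 0 2) +
      240 * (mm x y 1 1 1 0 * mm x y 1 1 0 1)) = 0 := by
    rw [← hF]
    exact hzero
  generalize mm x y 0 1 2 0 = r at *
  generalize mm x y 1 0 0 2 = rb at *
  generalize mm x y 2 0 0 1 = g at *
  generalize mm x y 2 0 1 0 = d at *
  generalize mm x y 0 2 0 1 = db at *
  generalize mm x y 1 1 1 0 = m at *
  generalize mm x y 1 1 0 1 = mb at *
  generalize mm x y 1 0 2 0 = s at *
  generalize mm x y 0 1 0 2 = sb at *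
  generalize mm x y 0 0 3 0 = l at *
  generalize mm x y 0 0 0 3 = lb at *
  rcases mul_eq_zero.1 hF2 with hg | hfac
  · subst hg
    by_cases hm : m = 0
    · subst hm
      have hr : r ^ 2 = 0 := by linear_combination R4 / 2
      have hr0 : r = 0 := by simpa using hr
      subst hr0
      have : (1 : ℂ) / 5 = 0 := by linear_combination -R8b
      norm_num at this
    · have hmb : mb ≠ 0 := by
        rw [cm]
        exact (map_ne_zero _).2 hm
      have hs : s = 0 := by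
        have : mb * s = 0 := by linear_combination -R2
        exact (mul_eq_zero.1 this).resolve_left hmb
      subst hs
      have hl : l ≠ 0 := by
        rintro rfl
        have : m ^ 2 = 0 := by linear_combination -R7 / 2
        exact hm (by simpa using this)
      have hrb : rb = 0 := by
        have : rb * l = 0 := by linear_combination R9
        exact (mul_eq_zero.1 this).resolve_right hl
      have hr : r = 0 := by
        rw [hrb] at cr
        have := congrArg conj cr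
        simpa using this.symm
      subst hr hrb
      have hd : d = 0 := by
        have : d * m = 0 := by linear_combination -R4 / 3
        exact (mul_eq_zero.1 this).resolve_right hm
      subst hd
      have : (1 : ℂ) = 0 := by linear_combination -2 * R8a - 3 * R1
      norm_num at this
  · by_cases hr : r = 0
    · subst hr
      have hrb : rb = 0 := by rw [cr]; simp
      subst hrb
      have hmm : m * mb = 1 / 60 := by linear_combination hfac / 240
      have hmb : mb ≠ 0 := by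
        rintro rfl
        norm_num at hmm
      have hs : s = 0 := by
        have : mb * s = 0 := by linear_combination -R2
        exact (mul_eq_zero.1 this).resolve_left hmb
      subst hs
      have : (1 : ℂ) / 15 = 0 := by
        linear_combination R1 - R8a - R8b + 8 * hmm
      norm_num at this
    · have hrb : rb ≠ 0 := by
        rw [cr]
        exact (map_ne_zero _).2 hr
      have h1 : rb * l = -7 * g * r := by linear_combination R9 + 2 * R2
      have h2 : r * lb = -7 * g * rb := by linear_combination R9b + 2 * R2b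
      have h3 : (r * rb) * (l * lb - 49 * g ^ 2) = 0 := by
        linear_combination (r * lb) * h1 - 7 * g * r * h2
      have h4 : l * lb - 49 * g ^ 2 = 0 :=
        (mul_eq_zero.1 h3).resolve_left (mul_ne_zero hr hrb)
      have h5 : s * sb = -(1 / 15) := by
        linear_combination -53 / 54 * R1 + 53 / 54 * R8a + 2 / 27 * R8b + 1 / 54 * R11 -
          1 / 54 * h4 - 23 / 1080 * hfac
      rw [cs, Complex.mul_conj] at h5
      have h6 : (Complex.normSq s : ℝ) = -(1 / 15) := by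
        have := congrArg Complex.re h5
        simpa using this
      have := Complex.normSq_nonneg s
      linarith

/-! ### The function and the compactness argument -/

/-- The odd function, as a function of two complex variables. -/
noncomputable def fE (ε : ℝ) (z w : ℂ) : ℝ :=
  (z ^ 2 * conj w).re + ε * Complex.normSq z * (z ^ 2 * conj w).im

lemma fE_eq (ε : ℝ) (z w : ℂ) : 2 * (fE ε z w : ℂ) = (z ^ 2 * conj w + conj z ^ 2 * w) -
    Complex.I * ε * ((z ^ 2 * conj w - conj z ^ 2 * w) * (z * conj z)) := by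
  have h1 : (((z ^ 2 * conj w).re : ℝ) : ℂ) = (z ^ 2 * conj w + conj z ^ 2 * w) / 2 := by
    rw [Complex.re_eq_add_conj]
    simp
  have h2 : (((z ^ 2 * conj w).im : ℝ) : ℂ) =
      (z ^ 2 * conj w - conj z ^ 2 * w) / (2 * Complex.I) := by
    rw [Complex.im_eq_sub_conj]
    simp
  have h3 : ((Complex.normSq z : ℝ) : ℂ) = z * conj z := (Complex.mul_conj z).symm
  simp only [fE, Complex.ofReal_add, Complex.ofReal_mul, h1, h2, h3]
  have hI : (1 : ℂ) / Complex.I = -Complex.I := by simp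
  have h4 : (z ^ 2 * conj w - conj z ^ 2 * w) / (2 * Complex.I) =
      -Complex.I * (z ^ 2 * conj w - conj z ^ 2 * w) / 2 := by
    rw [← hI]
    field_simp
  rw [h4]
  ring

/-- the linear functional given by `c` on the cubic part -/
def LC (x y : Fin 5 → ℂ) (c : Fin 5 → Fin 5 → ℂ) : ℂ :=
  ∑ i, ∑ j, ((x j - x i) ^ 2 * (conj (y j) - conj (y i)) +
      (conj (x j) - conj (x i)) ^ 2 * (y j - y i)) * c i j

/-- the linear functional given by `c` on the quintic part -/
def LQ (x y : Fin 5 → ℂ) (c : Fin 5 → Fin 5 → ℂ) : ℂ :=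
  ∑ i, ∑ j, ((x j - x i) ^ 2 * (conj (y j) - conj (y i)) -
      (conj (x j) - conj (x i)) ^ 2 * (y j - y i)) *
      ((x j - x i) * (conj (x j) - conj (x i))) * c i j

lemma func_eq {ε : ℝ} {x y : Fin 5 → ℂ} {h : Fin 5 → ℝ}
    (hadd : ∀ i j, fE ε (x j - x i) (y j - y i) = h j - h i) (c : Fin 5 → Fin 5 → ℂ)
    (hc : ∑ i, ∑ j, ((h j : ℂ) - h i) * c i j = 0) :
    LC x y c = Complex.I * ε * LQ x y c := by
  have e : ∀ i j, ((x j - x i) ^ 2 * (conj (y j) - conj (y i)) +
      (conj (x j) - conj (x i)) ^ 2 * (y j - y i)) * c i j =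
      Complex.I * ε * (((x j - x i) ^ 2 * (conj (y j) - conj (y i)) -
      (conj (x j) - conj (x i)) ^ 2 * (y j - y i)) *
      ((x j - x i) * (conj (x j) - conj (x i))) * c i j) + 2 * (((h j : ℂ) - h i) * c i j) := by
    intro i j
    have h1 := fE_eq ε (x j - x i) (y j - y i)
    rw [hadd i j] at h1
    push_cast at h1
    simp only [map_sub] at h1
    linear_combination (-c i j) * h1
  simp only [LC, LQ, e, Finset.sum_add_distrib, ← Finset.mul_sum, hc]
  ring

lemma isCompact_gram : IsCompact {p : (Fin 5 → ℂ) × (Fin 5 → ℂ) | Gram p.1 p.2} := by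
  apply Metric.isCompact_of_isClosed_isBounded
  · simp only [Gram, Set.setOf_forall]
    refine isClosed_iInter (fun i => isClosed_iInter (fun j => ?_))
    refine isClosed_eq ?_ continuous_const
    have h1 : ∀ i : Fin 5, Continuous (fun p : (Fin 5 → ℂ) × (Fin 5 → ℂ) => p.1 i) :=
      fun i => (continuous_apply i).comp continuous_fst
    have h2 : ∀ i : Fin 5, Continuous (fun p : (Fin 5 → ℂ) × (Fin 5 → ℂ) => p.2 i) :=
      fun i => (continuous_apply i).comp continuous_snd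
    have h3 := h1 i
    have h4 := h1 j
    have h5 := h2 i
    have h6 := h2 j
    fun_prop
  · rw [Metric.isBounded_iff_subset_closedBall 0]
    refine ⟨1, ?_⟩
    rintro ⟨x, y⟩ hG
    have hG' : Gram x y := hG
    have key : ∀ i, ‖x i‖ ^ 2 + ‖y i‖ ^ 2 = 2 / 5 := by
      intro i
      have h1 := hG' i i
      rw [if_pos rfl] at h1
      have h2 : ((‖x i‖ ^ 2 + ‖y i‖ ^ 2 : ℝ) : ℂ) = ((2 / 5 : ℝ) : ℂ) := by
        push_cast
        have h3 := Complex.mul_conj' (x i)
        have h4 := Complex.mul_conj' (y i)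
        linear_combination h1 / 2 - h3 - h4
      exact_mod_cast h2
    rw [mem_closedBall_zero_iff, Prod.norm_def, max_le_iff, pi_norm_le_iff_of_nonneg zero_le_one,
      pi_norm_le_iff_of_nonneg zero_le_one]
    refine ⟨fun i => ?_, fun i => ?_⟩
    · have := key i
      nlinarith [norm_nonneg (x i), norm_nonneg (y i), sq_nonneg (‖y i‖)]
    · have := key i
      nlinarith [norm_nonneg (x i), norm_nonneg (y i), sq_nonneg (‖x i‖)]

lemma continuous_mm (a b c d : ℕ) :
    Continuous (fun p : (Fin 5 → ℂ) × (Fin 5 → ℂ) => mm p.1 p.2 a b c d) := by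
  have h1 : ∀ i : Fin 5, Continuous (fun p : (Fin 5 → ℂ) × (Fin 5 → ℂ) => p.1 i) :=
    fun i => (continuous_apply i).comp continuous_fst
  have h2 : ∀ i : Fin 5, Continuous (fun p : (Fin 5 → ℂ) × (Fin 5 → ℂ) => p.2 i) :=
    fun i => (continuous_apply i).comp continuous_snd
  unfold mm mom
  refine continuous_finsetSum _ (fun i _ => ?_)
  have h3 := h1 i
  have h4 := h2 i
  fun_prop

lemma continuous_LQ (c : (Fin 5 → ℂ) → (Fin 5 → ℂ) → Fin 5 → Fin 5 → ℂ)
    (hc : ∀ i j, Continuous (fun p : (Fin 5 → ℂ) × (Fin 5 → ℂ) => c p.1 p.2 i j)) :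
    Continuous (fun p : (Fin 5 → ℂ) × (Fin 5 → ℂ) => LQ p.1 p.2 (c p.1 p.2)) := by
  have h1 : ∀ i : Fin 5, Continuous (fun p : (Fin 5 → ℂ) × (Fin 5 → ℂ) => p.1 i) :=
    fun i => (continuous_apply i).comp continuous_fst
  have h2 : ∀ i : Fin 5, Continuous (fun p : (Fin 5 → ℂ) × (Fin 5 → ℂ) => p.2 i) :=
    fun i => (continuous_apply i).comp continuous_snd
  unfold LQ
  refine continuous_finsetSum _ (fun i _ => continuous_finsetSum _ (fun j _ => ?_))
  have h3 := h1 i
  have h4 := h1 j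
  have h5 := h2 i
  have h6 := h2 j
  have h7 := hc i j
  fun_prop

lemma exists_eps : ∃ ε : ℝ, 0 < ε ∧ ∀ (x y : Fin 5 → ℂ) (h : Fin 5 → ℝ), Gram x y →
    ¬ ∀ i j, fE ε (x j - x i) (y j - y i) = h j - h i := by
  let c1 : (Fin 5 → ℂ) → (Fin 5 → ℂ) → Fin 5 → Fin 5 → ℂ := fun x y i j => x i * y j
  let c2 : (Fin 5 → ℂ) → (Fin 5 → ℂ) → Fin 5 → Fin 5 → ℂ := fun x y i j => conj (x i) * y j
  let c3 : (Fin 5 → ℂ) → (Fin 5 → ℂ) → Fin 5 → Fin 5 → ℂ := fun x y i j => x i * conj (x j)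
  let c4 : (Fin 5 → ℂ) → (Fin 5 → ℂ) → Fin 5 → Fin 5 → ℂ := fun x y i j =>
    x i * conj (x j) - conj (x i) * x j + 2 * (y i * conj (y j) - conj (y i) * y j)
  have hx : ∀ i : Fin 5, Continuous (fun p : (Fin 5 → ℂ) × (Fin 5 → ℂ) => p.1 i) :=
    fun i => (continuous_apply i).comp continuous_fst
  have hy : ∀ i : Fin 5, Continuous (fun p : (Fin 5 → ℂ) × (Fin 5 → ℂ) => p.2 i) :=
    fun i => (continuous_apply i).comp continuous_snd
  have hc1 : ∀ i j, Continuous (fun p : (Fin 5 → ℂ) × (Fin 5 → ℂ) => c1 p.1 p.2 i j) := by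
    intro i j
    have h3 := hx i
    have h6 := hy j
    simp only [c1]
    fun_prop
  have hc2 : ∀ i j, Continuous (fun p : (Fin 5 → ℂ) × (Fin 5 → ℂ) => c2 p.1 p.2 i j) := by
    intro i j
    have h3 := hx i
    have h6 := hy j
    simp only [c2]
    fun_prop
  have hc3 : ∀ i j, Continuous (fun p : (Fin 5 → ℂ) × (Fin 5 → ℂ) => c3 p.1 p.2 i j) := by
    intro i j
    have h3 := hx i
    have h6 := hx j
    simp only [c3]
    fun_prop
  have hc4 : ∀ i j, Continuous (fun p : (Fin 5 → ℂ) × (Fin 5 → ℂ) => c4 p.1 p.2 i j) := by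
    intro i j
    have h3 := hx i
    have h4 := hx j
    have h5 := hy i
    have h6 := hy j
    simp only [c4]
    fun_prop
  -- the functional measuring non-criticality
  let Θ : (Fin 5 → ℂ) × (Fin 5 → ℂ) → ℝ := fun p =>
    ‖mm p.1 p.2 2 1 0 0 - 2 * mm p.1 p.2 1 0 1 1‖ + ‖mm p.1 p.2 3 0 0 0 - 2 * mm p.1 p.2 0 1 2 0‖ +
    ‖2 * mm p.1 p.2 2 0 0 1 - 2 * mm p.1 p.2 0 2 1 0‖ + ‖LQ p.1 p.2 (c4 p.1 p.2)‖
  have hΘc : Continuous Θ := by
    have a1 := continuous_mm 2 1 0 0
    have a2 := continuous_mm 1 0 1 1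
    have a3 := continuous_mm 3 0 0 0
    have a4 := continuous_mm 0 1 2 0
    have a5 := continuous_mm 2 0 0 1
    have a6 := continuous_mm 0 2 1 0
    have a7 := continuous_LQ c4 hc4
    simp only [Θ]
    fun_prop
  have hΘpos : ∀ p ∈ {p : (Fin 5 → ℂ) × (Fin 5 → ℂ) | Gram p.1 p.2}, 0 < Θ p := by
    rintro ⟨x, y⟩ hG
    by_contra hcon
    push Not at hcon
    have n1 := norm_nonneg (mm x y 2 1 0 0 - 2 * mm x y 1 0 1 1)
    have n2 := norm_nonneg (mm x y 3 0 0 0 - 2 * mm x y 0 1 2 0)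
    have n3 := norm_nonneg (2 * mm x y 2 0 0 1 - 2 * mm x y 0 2 1 0)
    have n4 := norm_nonneg (LQ x y (c4 x y))
    simp only [Θ] at hcon
    have z1 : mm x y 2 1 0 0 - 2 * mm x y 1 0 1 1 = 0 := norm_eq_zero.1 (by linarith)
    have z2 : mm x y 3 0 0 0 - 2 * mm x y 0 1 2 0 = 0 := norm_eq_zero.1 (by linarith)
    have z3 : 2 * mm x y 2 0 0 1 - 2 * mm x y 0 2 1 0 = 0 := norm_eq_zero.1 (by linarith)
    have z4 : LQ x y (c4 x y) = 0 := norm_eq_zero.1 (by linarith)
    exact qq_ne_zero hG z1 z2 (by linear_combination z3 / 2) z4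
  obtain ⟨δ, hδ0, hδ⟩ := isCompact_gram.exists_forall_le' hΘc.continuousOn hΘpos
  let B : (Fin 5 → ℂ) × (Fin 5 → ℂ) → ℝ := fun p =>
    ‖LQ p.1 p.2 (c1 p.1 p.2)‖ + ‖LQ p.1 p.2 (c2 p.1 p.2)‖ + ‖LQ p.1 p.2 (c3 p.1 p.2)‖
  have hBc : Continuous B := by
    have a1 := continuous_LQ c1 hc1
    have a2 := continuous_LQ c2 hc2
    have a3 := continuous_LQ c3 hc3
    simp only [B]
    fun_prop
  obtain ⟨C, hC⟩ := isCompact_gram.exists_bound_of_continuousOn hBc.continuousOn
  refine ⟨δ / (2 * (|C| + 1)), by positivity, ?_⟩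
  intro x y h hG hadd
  set ε : ℝ := δ / (2 * (|C| + 1)) with hε
  have hεpos : 0 < ε := by positivity
  have hG' : ∀ i j, x i * (fun i => conj (x i)) j + (fun i => conj (x i)) i * x j +
      y i * (fun i => conj (y i)) j + (fun i => conj (y i)) i * y j =
      (if i = j then 1 else 0) - 1 / 5 := hG
  obtain ⟨f1, f2, f3, f4⟩ := cubic_functionals hG'
  obtain ⟨sx, sX, sy, sY, -⟩ := low_sums hG'
  have g1 := func_eq hadd (c1 x y) (add_sum_zero (fun i => (h i : ℂ)) x y sx sy)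
  have g2 := func_eq hadd (c2 x y) (add_sum_zero (fun i => (h i : ℂ)) (fun i => conj (x i)) y sX sy)
  have g3 := func_eq hadd (c3 x y) (add_sum_zero (fun i => (h i : ℂ)) x (fun i => conj (x i)) sx sX)
  have g4 := func_eq hadd (c4 x y) (by
    have b1 := add_sum_zero (fun i => (h i : ℂ)) x (fun i => conj (x i)) sx sX
    have b2 := add_sum_zero (fun i => (h i : ℂ)) (fun i => conj (x i)) x sX sx
    have b3 := add_sum_zero (fun i => (h i : ℂ)) y (fun i => conj (y i)) sy sY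
    have b4 := add_sum_zero (fun i => (h i : ℂ)) (fun i => conj (y i)) y sY sy
    have e : ∀ i j, ((h j : ℂ) - h i) * c4 x y i j =
        ((h j : ℂ) - h i) * (x i * conj (x j)) + (-1) * (((h j : ℂ) - h i) * (conj (x i) * x j)) +
        2 * (((h j : ℂ) - h i) * (y i * conj (y j))) +
        (-2) * (((h j : ℂ) - h i) * (conj (y i) * y j)) := by
      intro i j
      simp only [c4]
      ring
    simp only [e, Finset.sum_add_distrib, ← Finset.mul_sum]
    rw [b1, b2, b3, b4]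
    ring)
  have k1 : mm x y 3 0 0 0 - 2 * mm x y 0 1 2 0 = Complex.I * ε * LQ x y (c1 x y) := by
    rw [← g1]; exact f1.symm
  have k2 : mm x y 2 1 0 0 - 2 * mm x y 1 0 1 1 = Complex.I * ε * LQ x y (c2 x y) := by
    rw [← g2]; exact f2.symm
  have k3 : 2 * mm x y 2 0 0 1 - 2 * mm x y 0 2 1 0 = Complex.I * ε * LQ x y (c3 x y) := by
    rw [← g3]; exact f3.symm
  have k4 : LQ x y (c4 x y) = 0 := by
    have h1 : Complex.I * ε * LQ x y (c4 x y) = 0 := by
      rw [← g4]; exact f4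
    have h2 : Complex.I * (ε : ℂ) ≠ 0 :=
      mul_ne_zero Complex.I_ne_zero (by exact_mod_cast hεpos.ne')
    exact (mul_eq_zero.1 h1).resolve_left h2
  have hn : ∀ z : ℂ, ‖Complex.I * (ε : ℂ) * z‖ = ε * ‖z‖ := by
    intro z
    rw [norm_mul, norm_mul, Complex.norm_I, one_mul, Complex.norm_real, Real.norm_of_nonneg hεpos.le]
  have hΘ := hδ (x, y) hG
  have hB := hC (x, y) hG
  rw [Real.norm_eq_abs] at hB
  have hB' : B (x, y) ≤ |C| := (le_abs_self _).trans (hB.trans (le_abs_self _))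
  simp only [Θ, k1, k2, k3, k4, hn, norm_zero, add_zero] at hΘ
  simp only [B] at hB'
  have h5 : ε * (|C| + 1) = δ / 2 := by
    rw [hε]
    have : |C| + 1 ≠ 0 := by positivity
    field_simp
  nlinarith [abs_nonneg C]

/-! ### Transfer to Euclidean space -/

/-- first complex coordinate -/
noncomputable def zc (u : EuclideanSpace ℝ (Fin 4)) : ℂ := ⟨u 0, u 1⟩

/-- second complex coordinate -/
noncomputable def wc (u : EuclideanSpace ℝ (Fin 4)) : ℂ := ⟨u 2, u 3⟩

lemma zc_sub (u v : EuclideanSpace ℝ (Fin 4)) : zc (u - v) = zc u - zc v := by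
  apply Complex.ext <;> simp [zc]

lemma wc_sub (u v : EuclideanSpace ℝ (Fin 4)) : wc (u - v) = wc u - wc v := by
  apply Complex.ext <;> simp [wc]

lemma zc_neg (u : EuclideanSpace ℝ (Fin 4)) : zc (-u) = -zc u := by
  apply Complex.ext <;> simp [zc]

lemma wc_neg (u : EuclideanSpace ℝ (Fin 4)) : wc (-u) = -wc u := by
  apply Complex.ext <;> simp [wc]

lemma inner_eq (u v : EuclideanSpace ℝ (Fin 4)) :
    zc u * conj (zc v) + conj (zc u) * zc v + wc u * conj (wc v) + conj (wc u) * wc v =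
      ((2 * inner ℝ u v : ℝ) : ℂ) := by
  have h : inner ℝ u v = u 0 * v 0 + u 1 * v 1 + u 2 * v 2 + u 3 * v 3 := by
    rw [PiLp.inner_apply, Fin.sum_univ_four]
    simp only [RCLike.inner_apply, conj_trivial]
    ring
  rw [h]
  apply Complex.ext
  · simp [zc, wc]
    ring
  · simp [zc, wc]
    ring

lemma fE_odd (ε : ℝ) (z w : ℂ) : fE ε (-z) (-w) = -fE ε z w := by
  simp only [fE, Complex.normSq_neg, map_neg]
  have : (-z) ^ 2 * -conj w = -(z ^ 2 * conj w) := by ring
  rw [this, Complex.neg_re, Complex.neg_im]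
  ring

lemma continuous_fE (ε : ℝ) :
    Continuous (fun u : EuclideanSpace ℝ (Fin 4) => fE ε (zc u) (wc u)) := by
  have hz : Continuous zc := by
    have : zc = fun u : EuclideanSpace ℝ (Fin 4) => (u 0 : ℂ) + (u 1 : ℂ) * Complex.I := by
      funext u
      apply Complex.ext <;> simp [zc]
    rw [this]
    fun_prop
  have hw : Continuous wc := by
    have : wc = fun u : EuclideanSpace ℝ (Fin 4) => (u 2 : ℂ) + (u 3 : ℂ) * Complex.I := by
      funext u
      apply Complex.ext <;> simp [wc]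
    rw [this]
    fun_prop
  unfold fE
  have h1 : Continuous (fun u : EuclideanSpace ℝ (Fin 4) => (zc u) ^ 2 * conj (wc u)) := by
    fun_prop
  exact (Complex.continuous_re.comp h1).add
    ((continuous_const.mul (Complex.continuous_normSq.comp hz)).mul
      (Complex.continuous_im.comp h1))

/-- a regular simplex with unit edges -/
noncomputable def simplex4 : Fin 5 → EuclideanSpace ℝ (Fin 4) :=
  ![EuclideanSpace.single 0 (√2 / 2), EuclideanSpace.single 1 (√2 / 2),
    EuclideanSpace.single 2 (√2 / 2), EuclideanSpace.single 3 (√2 / 2),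
    WithLp.toLp 2 (fun _ => √2 * (1 + √5) / 8)]

lemma simplex4_dist : ∀ i j : Fin 5, i ≠ j → dist (simplex4 i) (simplex4 j) = 1 := by
  have h2 : √2 * √2 = 2 := Real.mul_self_sqrt (by norm_num)
  have h5 : √5 * √5 = 5 := Real.mul_self_sqrt (by norm_num)
  have e1 : (√2 / 2) ^ 2 + (√2 / 2) ^ 2 = 1 := by nlinarith
  have e2 : (√2 * (1 + √5) / 8) ^ 2 + (√2 * (1 + √5) / 8) ^ 2 + (√2 * (1 + √5) / 8) ^ 2 +
      (√2 / 2 - √2 * (1 + √5) / 8) ^ 2 = 1 := by
    have : √2 ^ 2 = 2 := by rw [sq]; exact h2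
    have h5' : √5 ^ 2 = 5 := by rw [sq]; exact h5
    ring_nf
    rw [this, h5']
    ring
  have a2 : |√2| = √2 := abs_of_nonneg (Real.sqrt_nonneg 2)
  have a5 : |1 + √5| = 1 + √5 := abs_of_nonneg (by positivity)
  intro i j hij
  rw [EuclideanSpace.dist_eq, Real.sqrt_eq_one, Fin.sum_univ_four]
  fin_cases i <;> fin_cases j <;>
    first
    | exact absurd rfl hij
    | (simp [simplex4, Real.dist_eq, sq_abs, a2, a5]; linarith)

/-- Gram relations of a centred simplex from its distances. -/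
lemma gram_of_dist (p : Fin 5 → EuclideanSpace ℝ (Fin 4)) (hs : ∑ i, p i = 0)
    (hd : ∀ i j, i ≠ j → ‖p j - p i‖ = 1) :
    Gram (fun i => zc (p i)) (fun i => wc (p i)) := by
  have hsq : ∀ i j, ‖p j - p i‖ ^ 2 = ‖p j‖ ^ 2 - 2 * inner ℝ (p i) (p j) + ‖p i‖ ^ 2 := by
    intro i j
    rw [norm_sub_sq_real, real_inner_comm]
  have hd2 : ∀ i j, ‖p j - p i‖ ^ 2 = 1 - (if i = j then 1 else 0) := by
    intro i j
    by_cases h : i = j
    · subst h
      simp
    · rw [hd i j h, if_neg h]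
      norm_num
  have hsum : ∀ i, ∑ j, inner ℝ (p i) (p j) = 0 := by
    intro i
    rw [← inner_sum, hs, inner_zero_right]
  set Q : ℝ := ∑ j, ‖p j‖ ^ 2 with hQ
  have h5 : ∀ i, 5 * ‖p i‖ ^ 2 = 4 - Q := by
    intro i
    have h1 : ∑ j, ‖p j - p i‖ ^ 2 = 4 := by
      simp only [hd2]
      rw [Finset.sum_sub_distrib]
      simp
      norm_num
    have h2 : ∑ j, ‖p j - p i‖ ^ 2 = Q - 2 * 0 + 5 * ‖p i‖ ^ 2 := by
      simp only [hsq, Finset.sum_add_distrib, Finset.sum_sub_distrib, ← Finset.mul_sum, hsum i]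
      simp [hQ]
    linarith
  have hQ2 : Q = 2 := by
    have h1 : ∑ i, 5 * ‖p i‖ ^ 2 = ∑ _i : Fin 5, (4 - Q) :=
      Finset.sum_congr rfl (fun i _ => h5 i)
    rw [← Finset.mul_sum, ← hQ] at h1
    simp at h1
    linarith
  have hn : ∀ i, ‖p i‖ ^ 2 = 2 / 5 := by
    intro i
    have := h5 i
    rw [hQ2] at this
    linarith
  intro i j
  show zc (p i) * conj (zc (p j)) + conj (zc (p i)) * zc (p j) + wc (p i) * conj (wc (p j)) +
    conj (wc (p i)) * wc (p j) = _
  rw [inner_eq]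
  have h1 : 2 * inner ℝ (p i) (p j) = (if i = j then 1 else 0) - 1 / 5 := by
    have a := hsq i j
    rw [hd2, hn, hn] at a
    linarith
  rw [h1]
  split_ifs <;> push_cast <;> ring

/-- The main construction. -/
theorem main_example : ∃ f : EuclideanSpace ℝ (Fin 4) → ℝ, Continuous f ∧
    (∀ u, f (-u) = -f u) ∧
    ∀ v : Fin 5 → EuclideanSpace ℝ (Fin 4), (∀ i j, i ≠ j → dist (v i) (v j) = 1) →
      ¬ ∃ x : EuclideanSpace ℝ (Fin 4), ∀ i j : Fin 5, i < j →
        inner ℝ x (v j - v i) = f (v j - v i) := by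
  obtain ⟨ε, _, hε⟩ := exists_eps
  refine ⟨fun u => fE ε (zc u) (wc u), continuous_fE ε, ?_, ?_⟩
  · intro u
    show fE ε (zc (-u)) (wc (-u)) = -fE ε (zc u) (wc u)
    rw [zc_neg, wc_neg, fE_odd]
  · rintro v hv ⟨x, hx⟩
    set c : EuclideanSpace ℝ (Fin 4) := (1 / 5 : ℝ) • ∑ i, v i with hc
    set p : Fin 5 → EuclideanSpace ℝ (Fin 4) := fun i => v i - c with hp
    have hpd : ∀ i j, p j - p i = v j - v i := by
      intro i j
      simp only [hp]
      abel
    have hs : ∑ i, p i = 0 := by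
      simp only [hp, Finset.sum_sub_distrib, Finset.sum_const, Finset.card_univ, Fintype.card_fin,
        hc]
      rw [← Nat.cast_smul_eq_nsmul ℝ, smul_smul]
      norm_num
    have hd : ∀ i j, i ≠ j → ‖p j - p i‖ = 1 := by
      intro i j hij
      rw [hpd, ← dist_eq_norm, hv j i hij.symm]
    refine hε (fun i => zc (p i)) (fun i => wc (p i)) (fun i => inner ℝ x (p i))
      (gram_of_dist p hs hd) ?_
    intro i j
    rw [← zc_sub, ← wc_sub, ← inner_sub_right, hpd]
    rcases lt_trichotomy i j with h | h | h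
    · exact (hx i j h).symm
    · subst h
      have h0 : zc (0 : EuclideanSpace ℝ (Fin 4)) = 0 := by apply Complex.ext <;> simp [zc]
      have h1 : wc (0 : EuclideanSpace ℝ (Fin 4)) = 0 := by apply Complex.ext <;> simp [wc]
      rw [sub_self, h0, h1, inner_zero_right]
      simp [fE]
    · have h1 := hx j i h
      have h2 : v j - v i = -(v i - v j) := by abel
      rw [h2, zc_neg, wc_neg, fE_odd, inner_neg_right, h1]

end helpers

/-- The negation of the preceding statement: For every continuous odd function f on the unit sphere of R^n and every regular unit-edge simplex v_1..v_{n+1}, some rotation A of determinant 1 makes all hyperplanes <x, A(v_j - v_i)> = f(A(v_j - v_i)), i<j, share a common point. -/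
theorem result :
    ¬ (∀ (n : ℕ) (f : EuclideanSpace ℝ (Fin n) → ℝ),
      ContinuousOn f (Metric.sphere (0 : EuclideanSpace ℝ (Fin n)) 1) →
      (∀ x ∈ Metric.sphere (0 : EuclideanSpace ℝ (Fin n)) 1, f (-x) = -f x) →
      ∀ v : Fin (n + 1) → EuclideanSpace ℝ (Fin n),
        (∀ i j : Fin (n + 1), i ≠ j → dist (v i) (v j) = 1) →
        ∃ A : EuclideanSpace ℝ (Fin n) ≃ₗᵢ[ℝ] EuclideanSpace ℝ (Fin n),
          LinearMap.det (A.toLinearEquiv :
              EuclideanSpace ℝ (Fin n) →ₗ[ℝ] EuclideanSpace ℝ (Fin n)) = 1 ∧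
          ∃ x : EuclideanSpace ℝ (Fin n), ∀ i j : Fin (n + 1), i < j →
            inner ℝ x (A (v j - v i)) = f (A (v j - v i))) := by
  intro H
  obtain ⟨f, hfc, hfo, hf⟩ := main_example
  obtain ⟨A, -, x, hx⟩ := H 4 f hfc.continuousOn (fun u _ => hfo u) simplex4 simplex4_dist
  refine hf (fun i => A (simplex4 i)) ?_ ⟨x, ?_⟩
  · intro i j hij
    rw [A.dist_map]
    exact simplex4_dist i j hij
  · intro i j hij
    have := hx i j hij
    rwa [map_sub] at this


end Pool.Agent.S05564
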