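import Pool.Statements.S05565

set_option autoImplicit false
open Pool Pool.MP_4d584d_co

namespace Pool.Agent.S05565

/-- A paperfolding type sequence. -/
def fw (n : ℕ) : ℕ :=
  if h : n = 0 then 0 else if n % 2 = 1 then (n / 2) % 2 else fw (n / 2)
termination_by n
decreasing_by omega

lemma fw_odd (q : ℕ) : fw (2 * q + 1) = q % 2 := by
  rw [fw]
  have h1 : ¬ (2 * q + 1 = 0) := by omega
  have h2 : (2 * q + 1) % 2 = 1 := by omega
  rw [dif_neg h1, if_pos h2]
  congr 1
  omega

lemma fw_even (q : ℕ) (hq : 0 < q) : fw (2 * q) = fw q := by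
  rw [fw]
  have h1 : ¬ (2 * q = 0) := by omega
  have h2 : ¬ ((2 * q) % 2 = 1) := by omega
  rw [dif_neg h1, if_neg h2]
  congr 1
  omega

lemma fw_pow (a q : ℕ) : fw (2 ^ a * (2 * q + 1)) = q % 2 := by
  induction a with
  | zero => simpa using fw_odd q
  | succ a ih =>
    rw [pow_succ, mul_comm (2 ^ a) 2, mul_assoc, fw_even _ (by positivity), ih]

lemma fw_lt (n : ℕ) : fw n < 2 := by
  induction n using Nat.strong_induction_on with
  | _ n ih =>
    rw [fw]
    split
    · omega
    · split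
      · omega
      · exact ih _ (by omega)

/-- The square-free word on four letters. -/
def wd (n : ℕ) : ℕ := n % 2 + 2 * fw n

lemma wd_lt (n : ℕ) : wd n < 4 := by
  have := fw_lt n
  unfold wd
  omega

lemma wd_inj {m n : ℕ} (h : wd m = wd n) : m % 2 = n % 2 ∧ fw m = fw n := by
  unfold wd at h
  have h1 := fw_lt m
  have h2 := fw_lt n
  omega

/-- `wd` has no squares. -/
lemma wd_sq (p n0 : ℕ) (hp : 0 < p) :
    ∃ n, n0 ≤ n ∧ n < n0 + p ∧ wd n ≠ wd (n + p) := by
  by_contra hcon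
  push Not at hcon
  obtain ⟨b, r, hr, hpr⟩ := Nat.exists_eq_two_pow_mul_odd hp.ne'
  obtain ⟨r', rfl⟩ := hr
  rcases b with _ | a
  · have := (wd_inj (hcon n0 le_rfl (by omega))).1
    simp at hpr
    omega
  · have hP : 0 < 2 ^ a := by positivity
    have hle : 2 ^ (a + 1) ≤ p := by
      rw [hpr]
      exact Nat.le_mul_of_pos_right _ (by omega)
    have h2 : 2 ^ (a + 1) = 2 * 2 ^ a := by rw [pow_succ]; ring
    have key : ∃ q, n0 ≤ 2 ^ a * (2 * q + 1) ∧ 2 ^ a * (2 * q + 1) < n0 + p := by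
      have hdm := Nat.div_add_mod n0 (2 ^ (a + 1))
      have hml := Nat.mod_lt n0 (show 0 < 2 ^ (a + 1) by positivity)
      set m := n0 / 2 ^ (a + 1) with hm
      set s := n0 % 2 ^ (a + 1) with hs
      rw [h2] at hdm hml hle
      by_cases hc : s ≤ 2 ^ a
      · refine ⟨m, ?_, ?_⟩ <;> nlinarith
      · refine ⟨m + 1, ?_, ?_⟩ <;> nlinarith
    obtain ⟨q, hq1, hq2⟩ := key
    have hE := (wd_inj (hcon _ hq1 hq2)).2
    have h3 : 2 ^ a * (2 * q + 1) + p = 2 ^ a * (2 * (q + (2 * r' + 1)) + 1) := by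
      rw [hpr, h2]; ring
    rw [h3, fw_pow, fw_pow] at hE
    omega

/-- The vertex type of subdivisions. -/
abbrev VS (n : ℕ) := Fin n ⊕ (Fin n × Fin n × ℕ)

/-- The subdivision graph, as in the statement. -/
def SG {n : ℕ} (G : SimpleGraph (Fin n)) (ℓ : Fin n → Fin n → ℕ) : SimpleGraph (VS n) :=
  SimpleGraph.fromRel (V := Fin n ⊕ (Fin n × Fin n × ℕ))
    (fun a b => ∃ u v : Fin n, u < v ∧ G.Adj u v ∧
      ((ℓ u v = 0 ∧ a = Sum.inl u ∧ b = Sum.inl v) ∨
       (1 ≤ ℓ u v ∧ a = Sum.inl u ∧ b = Sum.inr (u, v, 1)) ∨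
       (∃ i : ℕ, 1 ≤ i ∧ i + 1 ≤ ℓ u v ∧
          a = Sum.inr (u, v, i) ∧ b = Sum.inr (u, v, i + 1)) ∨
       (1 ≤ ℓ u v ∧ a = Sum.inr (u, v, ℓ u v) ∧ b = Sum.inl v)))

/-- The `j`-th vertex on the subdivided edge from `u` to `v`, with `d` division vertices. -/
def D {n : ℕ} (d : ℕ) (u v : Fin n) (j : ℕ) : VS n :=
  if j = 0 then Sum.inl u else if j = d + 1 then Sum.inl v
  else if u < v then Sum.inr (u, v, j) else Sum.inr (v, u, d + 1 - j)

lemma D_zero {n : ℕ} (d : ℕ) (u v : Fin n) : D d u v 0 = Sum.inl u := by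
  simp [D]

lemma D_last {n : ℕ} (d : ℕ) (u v : Fin n) : D d u v (d + 1) = Sum.inl v := by
  simp [D]

lemma D_symm {n : ℕ} (d : ℕ) {u v : Fin n} (huv : u ≠ v) (j : ℕ) (hj : j ≤ d + 1) :
    D d u v j = D d v u (d + 1 - j) := by
  unfold D
  by_cases h0 : j = 0
  · simp [h0]
  · by_cases h1 : j = d + 1
    · simp [h1]
    · have h2 : ¬ (d + 1 - j = 0) := by omega
      have h3 : ¬ (d + 1 - j = d + 1) := by omega
      have h4 : d + 1 - (d + 1 - j) = j := by omega
      rw [if_neg h0, if_neg h1, if_neg h2, if_neg h3, h4]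
      rcases lt_or_gt_of_ne huv with h | h
      · rw [if_pos h, if_neg (not_lt.mpr h.le)]
      · rw [if_neg (not_lt.mpr h.le), if_pos h]

lemma D_lt {n : ℕ} (d : ℕ) {u v : Fin n} (h : u < v) (j : ℕ) (h0 : 1 ≤ j) (h1 : j ≤ d) :
    D d u v j = Sum.inr (u, v, j) := by
  unfold D
  rw [if_neg (by omega), if_neg (by omega), if_pos h]

lemma D_eq_inl {n : ℕ} (d : ℕ) {u v w : Fin n} (j : ℕ) (h : D d u v j = Sum.inl w)
    (hj : j ≤ d + 1) : (j = 0 ∧ w = u) ∨ (j = d + 1 ∧ w = v) := by
  unfold D at h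
  split_ifs at h with h1 h2 h3
  · left; exact ⟨h1, (Sum.inl.inj h).symm⟩
  · right; exact ⟨h2, (Sum.inl.inj h).symm⟩

/-- adjacency of consecutive vertices, oriented form -/
lemma adj_iff {n : ℕ} (G : SimpleGraph (Fin n)) (d : ℕ) (hd : 1 ≤ d) (a b : VS n)
    (h : (SG G (fun _ _ => d)).Adj a b) :
    ∃ u v : Fin n, G.Adj u v ∧ ∃ j, j ≤ d ∧ a = D d u v j ∧ b = D d u v (j + 1) := by
  unfold SG at h
  rw [SimpleGraph.fromRel_adj] at h
  obtain ⟨hne, h | h⟩ := h
  · beta_reduce at h
    obtain ⟨u, v, huv, hG, h | h | h | h⟩ := h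
    · omega
    · refine ⟨u, v, hG, 0, by omega, ?_, ?_⟩
      · rw [h.2.1, D_zero]
      · rw [h.2.2, D_lt d huv _ (by omega) (by omega)]
    · obtain ⟨i, h1, h2, h3, h4⟩ := h
      refine ⟨u, v, hG, i, by omega, ?_, ?_⟩
      · rw [h3, D_lt d huv _ (by omega) (by omega)]
      · rw [h4, D_lt d huv _ (by omega) (by omega)]
    · refine ⟨u, v, hG, d, by omega, ?_, ?_⟩
      · rw [h.2.1, D_lt d huv _ (by omega) (by omega)]
      · rw [h.2.2, D_last]
  · beta_reduce at h
    obtain ⟨u, v, huv, hG, h | h | h | h⟩ := h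
    · omega
    · refine ⟨v, u, hG.symm, d, by omega, ?_, ?_⟩
      · rw [h.2.2, D_symm d huv.ne' _ (by omega), D_lt d huv _ (by omega) (by omega)]
        congr 3
        omega
      · rw [h.2.1, D_last]
    · obtain ⟨i, h1, h2, h3, h4⟩ := h
      refine ⟨v, u, hG.symm, d - i, by omega, ?_, ?_⟩
      · rw [h4, D_symm d huv.ne' _ (by omega), D_lt d huv _ (by omega) (by omega)]
        congr 3
        omega
      · rw [h3, D_symm d huv.ne' _ (by omega), D_lt d huv _ (by omega) (by omega)]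
        congr 3
        omega
    · refine ⟨v, u, hG.symm, 0, by omega, ?_, ?_⟩
      · rw [h.2.2, D_zero]
      · rw [h.2.1, D_symm d huv.ne' _ (by omega), D_lt d huv _ (by omega) (by omega)]
        congr 3

/-- Injectivity of `D` on internal positions. -/
lemma D_inj {n : ℕ} (d : ℕ) {u v u' v' : Fin n} (huv : u ≠ v) (huv' : u' ≠ v') (j j' : ℕ)
    (h : D d u v j = D d u' v' j') (hj : 1 ≤ j) (hj1 : j ≤ d) (hj' : j' ≤ d + 1) :
    (u = u' ∧ v = v' ∧ j = j') ∨ (u = v' ∧ v = u' ∧ j + j' = d + 1) := by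
  unfold D at h
  split_ifs at h with h1 h2 h3 h4 h5 h6 h7 h8 h9
  all_goals first | omega | skip
  all_goals
    simp only [Sum.inr.injEq, Prod.mk.injEq] at h
    omega

lemma nbr_orig {n : ℕ} (G : SimpleGraph (Fin n)) (d : ℕ) (hd : 1 ≤ d) (u : Fin n) (b : VS n)
    (h : (SG G (fun _ _ => d)).Adj (Sum.inl u) b) :
    ∃ v, G.Adj u v ∧ b = D d u v 1 := by
  obtain ⟨x, y, hG, j, hj, ha, hb⟩ := adj_iff G d hd _ _ h
  rcases D_eq_inl d j ha.symm (by omega) with h1 | h1
  · obtain ⟨rfl, rfl⟩ := h1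
    exact ⟨y, hG, hb⟩
  · omega

lemma nbr_div {n : ℕ} (G : SimpleGraph (Fin n)) (d : ℕ) (hd : 1 ≤ d) (u v : Fin n)
    (huv : G.Adj u v) (j : ℕ) (hj : 1 ≤ j) (hj1 : j ≤ d) (b : VS n)
    (h : (SG G (fun _ _ => d)).Adj (D d u v j) b) :
    b = D d u v (j + 1) ∨ b = D d u v (j - 1) := by
  obtain ⟨x, y, hG, i, hi, ha, hb⟩ := adj_iff G d hd _ _ h
  rcases D_inj d huv.ne hG.ne j i ha hj hj1 (by omega) with ⟨h1, h2, h3⟩ | ⟨h1, h2, h3⟩
  · subst h1 h2 h3
    exact Or.inl hb
  · subst h1 h2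
    right
    rw [hb, D_symm d hG.ne _ (by omega)]
    congr 1
    omega

/-- A path given by a function. -/
def IsP {V : Type*} (H : SimpleGraph V) (N : ℕ) (v : ℕ → V) : Prop :=
  (∀ i, i + 1 < N → H.Adj (v i) (v (i + 1))) ∧ ∀ i j, i < N → j < N → v i = v j → i = j

lemma IsP.rev {V : Type*} {H : SimpleGraph V} {N : ℕ} {v : ℕ → V} (h : IsP H N v) :
    IsP H N (fun i => v (N - 1 - i)) := by
  refine ⟨fun i hi => ?_, fun i j hi hj hij => ?_⟩
  · have := h.1 (N - 1 - (i + 1)) (by omega)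
    have e : N - 1 - (i + 1) + 1 = N - 1 - i := by omega
    rw [e] at this
    exact this.symm
  · have := h.2 _ _ (by omega) (by omega) hij
    omega

/-- Moving on along an edge. -/
lemma move {n : ℕ} (G : SimpleGraph (Fin n)) (d : ℕ) (hd : 1 ≤ d) (N : ℕ) (p : ℕ → VS n)
    (hp : IsP (SG G (fun _ _ => d)) N p) (u v : Fin n) (huv : G.Adj u v) (i j : ℕ)
    (h0 : p i = D d u v j) (h1 : p (i + 1) = D d u v (j + 1)) :
    ∀ s, i + s < N → j + s ≤ d + 1 → p (i + s) = D d u v (j + s) := by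
  intro s
  induction s using Nat.strong_induction_on with
  | _ s ih =>
    intro hs1 hs2
    rcases s with _ | _ | s
    · exact h0
    · exact h1
    · have e1 := ih (s + 1) (by omega) (by omega) (by omega)
      have e0 := ih s (by omega) (by omega) (by omega)
      have had := hp.1 (i + (s + 1)) (by omega)
      rw [e1] at had
      rcases nbr_div G d hd u v huv (j + (s + 1)) (by omega) (by omega) _ had with h | h
      · exact h
      · exfalso
        have e2 : j + (s + 1) - 1 = j + s := by omega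
        rw [e2, ← e0] at h
        have := hp.2 _ _ (by omega) (by omega) h
        omega

lemma spoke_fwd {n : ℕ} (G : SimpleGraph (Fin n)) (d : ℕ) (hd : 1 ≤ d) (N : ℕ) (p : ℕ → VS n)
    (hp : IsP (SG G (fun _ _ => d)) N p) (i : ℕ) (hi : i + 1 < N) (u : Fin n)
    (h : p i = Sum.inl u) :
    ∃ v, G.Adj u v ∧ ∀ s, s ≤ d + 1 → i + s < N → p (i + s) = D d u v s := by
  have had := hp.1 i hi
  rw [h] at had
  obtain ⟨v, hG, hb⟩ := nbr_orig G d hd u _ had
  refine ⟨v, hG, fun s hs1 hs2 => ?_⟩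
  have := move G d hd N p hp u v hG i 0 (by rw [h, D_zero]) (by rw [hb]) s hs2 (by omega)
  rwa [zero_add] at this

lemma spoke_bwd {n : ℕ} (G : SimpleGraph (Fin n)) (d : ℕ) (hd : 1 ≤ d) (N : ℕ) (p : ℕ → VS n)
    (hp : IsP (SG G (fun _ _ => d)) N p) (i : ℕ) (hi : 1 ≤ i) (hi' : i < N) (u : Fin n)
    (h : p i = Sum.inl u) :
    ∃ v, G.Adj u v ∧ ∀ s, s ≤ d + 1 → s ≤ i → p (i - s) = D d u v s := by
  have e : N - 1 - (N - 1 - i) = i := by omega
  obtain ⟨v, hG, hv⟩ := spoke_fwd G d hd N _ hp.rev (N - 1 - i) (by omega) u (by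
    show p (N - 1 - (N - 1 - i)) = _
    rw [e]; exact h)
  refine ⟨v, hG, fun s hs1 hs2 => ?_⟩
  have := hv s hs1 (by omega)
  have e2 : N - 1 - (N - 1 - i + s) = i - s := by omega
  simp only [e2] at this
  exact this


def mk' (x j : ℕ) : ℕ := if j = x + 1 then 1 else 0

lemma mk'_lt (x j : ℕ) : mk' x j < 2 := by
  unfold mk'; split_ifs <;> omega

/-- The colouring of the subdivision. -/
def col {n : ℕ} (L : ℕ) (φ : Fin n → ℕ) : VS n → ℕ
  | Sum.inl _ => 0
  | Sum.inr (u, v, j) =>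
    if j = L + 1 then 1
    else if j ≤ L then 2 + 2 * wd j + mk' (φ u) j
    else 2 + 2 * wd (2 * L + 2 - j) + mk' (φ v) (2 * L + 2 - j)

lemma col_lt {n : ℕ} (L : ℕ) (φ : Fin n → ℕ) (x : VS n) : col L φ x < 10 := by
  rcases x with u | ⟨u, v, j⟩
  · simp [col]
  · simp only [col]
    have h1 := wd_lt j
    have h2 := wd_lt (2 * L + 2 - j)
    have h3 := mk'_lt (φ u) j
    have h4 := mk'_lt (φ v) (2 * L + 2 - j)
    split_ifs <;> omega

lemma col_zero {n : ℕ} (L : ℕ) (φ : Fin n → ℕ) (x : VS n) (h : col L φ x = 0) :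
    ∃ u, x = Sum.inl u := by
  rcases x with u | ⟨u, v, j⟩
  · exact ⟨u, rfl⟩
  · simp only [col] at h
    split_ifs at h <;> omega

lemma col_near {n : ℕ} (L : ℕ) (φ : Fin n → ℕ) {u v : Fin n} (huv : u ≠ v) (j : ℕ)
    (h1 : 1 ≤ j) (h2 : j ≤ L) :
    col L φ (D (2 * L + 1) u v j) = 2 + 2 * wd j + mk' (φ u) j := by
  unfold D
  rw [if_neg (by omega), if_neg (by omega)]
  rcases lt_or_gt_of_ne huv with h | h
  · rw [if_pos h]
    simp only [col]
    rw [if_neg (by omega), if_pos h2]
  · rw [if_neg (not_lt.mpr h.le)]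
    simp only [col]
    rw [if_neg (by omega), if_neg (by omega)]
    have e : 2 * L + 2 - (2 * L + 1 + 1 - j) = j := by omega
    rw [e]

lemma col_mid {n : ℕ} (L : ℕ) (φ : Fin n → ℕ) {u v : Fin n} :
    col L φ (D (2 * L + 1) u v (L + 1)) = 1 := by
  unfold D
  rw [if_neg (by omega), if_neg (by omega)]
  split_ifs with h
  · simp [col]
  · simp only [col]
    rw [if_pos (by omega)]

lemma col_far {n : ℕ} (L : ℕ) (φ : Fin n → ℕ) {u v : Fin n} (huv : u ≠ v) (j : ℕ)
    (h1 : L + 2 ≤ j) (h2 : j ≤ 2 * L + 1) :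
    col L φ (D (2 * L + 1) u v j)
      = 2 + 2 * wd (2 * L + 2 - j) + mk' (φ v) (2 * L + 2 - j) := by
  rw [D_symm _ huv _ (by omega), col_near L φ huv.symm _ (by omega) (by omega)]

/-- internal vertices are not original -/
lemma D_ne_inl {n : ℕ} (d : ℕ) {u v w : Fin n} (j : ℕ) (h1 : 1 ≤ j) (h2 : j ≤ d) :
    D d u v j ≠ Sum.inl w := by
  intro h
  rcases D_eq_inl d j h (by omega) with h | h <;> omega

/-- colours agree at near positions implies same colour of the original vertices. -/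
lemma code_eq (L x y : ℕ) (hx : x < L)
    (h : ∀ s, 1 ≤ s → s ≤ L → 2 + 2 * wd s + mk' x s = 2 + 2 * wd s + mk' y s) : x = y := by
  have := h (x + 1) (by omega) (by omega)
  have h2 : mk' x (x + 1) = mk' y (x + 1) := by omega
  unfold mk' at h2
  rw [if_pos rfl] at h2
  by_contra hne
  rw [if_neg (by omega)] at h2
  omega


/-- Case A: no original vertex on the path. -/
lemma caseA {n : ℕ} (G : SimpleGraph (Fin n)) (φ : Fin n → ℕ) (L : ℕ) (t : ℕ) (ht : 0 < t)
    (p : ℕ → VS n) (hp : IsP (SG G (fun _ _ => 2 * L + 1)) (2 * t) p)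
    (hno : ∀ i, i < 2 * t → ∀ u, p i ≠ Sum.inl u)
    (hrep : ∀ i, i < t → col L φ (p i) = col L φ (p (i + t))) : False := by
  have had := hp.1 0 (by omega)
  obtain ⟨u, v, hG, j, hj, h0, h1⟩ := adj_iff G (2 * L + 1) (by omega) _ _ had
  have hj1 : 1 ≤ j := by
    by_contra hc
    have : j = 0 := by omega
    subst this
    exact hno 0 (by omega) u (by rw [h0, D_zero])
  have hall := move G (2 * L + 1) (by omega) (2 * t) p hp u v hG 0 j h0 h1
  simp only [zero_add] at hall
  have hend : j + (2 * t - 1) ≤ 2 * L + 1 := by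
    by_contra hc
    refine hno (2 * L + 2 - j) (by omega) v ?_
    rw [hall _ (by omega) (by omega)]
    have e : j + (2 * L + 2 - j) = 2 * L + 1 + 1 := by omega
    rw [e, D_last]
  have hloc : ∀ s, s < 2 * t → p s = D (2 * L + 1) u v (j + s) := fun s hs =>
    hall s hs (by omega)
  rcases Nat.lt_trichotomy (j + (2 * t - 1)) (L + 1) with hc | hc | hc
  · -- all near
    obtain ⟨m, hm1, hm2, hm3⟩ := wd_sq t j ht
    have hr := hrep (m - j) (by omega)
    rw [hloc _ (by omega), hloc _ (by omega), col_near L φ hG.ne _ (by omega) (by omega),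
      col_near L φ hG.ne _ (by omega) (by omega)] at hr
    have e1 : j + (m - j) = m := by omega
    have e2 : j + (m - j + t) = m + t := by omega
    rw [e1, e2] at hr
    have b1 := mk'_lt (φ u) m
    have b2 := mk'_lt (φ u) (m + t)
    apply hm3
    omega
  · -- last vertex is the middle one
    have hr := hrep (t - 1) (by omega)
    rw [hloc _ (by omega), hloc _ (by omega)] at hr
    have e1 : j + (t - 1 + t) = L + 1 := by omega
    rw [e1, col_mid, col_near L φ hG.ne _ (by omega) (by omega)] at hr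
    omega
  · rcases Nat.lt_trichotomy j (L + 1) with hc2 | hc2 | hc2
    · -- the middle vertex is inside
      by_cases hmid : L + 1 - j < t
      · have hr := hrep (L + 1 - j) hmid
        rw [hloc _ (by omega), hloc _ (by omega)] at hr
        have e1 : j + (L + 1 - j) = L + 1 := by omega
        rw [e1, col_mid, col_far L φ hG.ne _ (by omega) (by omega)] at hr
        omega
      · have hr := hrep (L + 1 - j - t) (by omega)
        rw [hloc _ (by omega), hloc _ (by omega)] at hr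
        have e1 : j + (L + 1 - j - t + t) = L + 1 := by omega
        rw [e1, col_mid, col_near L φ hG.ne _ (by omega) (by omega)] at hr
        omega
    · have hr := hrep 0 (by omega)
      rw [hloc _ (by omega), hloc _ (by omega)] at hr
      have e1 : j + 0 = L + 1 := by omega
      rw [e1, col_mid, col_far L φ hG.ne _ (by omega) (by omega)] at hr
      omega
    · -- all far
      obtain ⟨m, hm1, hm2, hm3⟩ := wd_sq t (2 * L + 3 - j - 2 * t) ht
      have hr := hrep (2 * L + 2 - j - t - m) (by omega)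
      rw [hloc _ (by omega), hloc _ (by omega), col_far L φ hG.ne _ (by omega) (by omega),
        col_far L φ hG.ne _ (by omega) (by omega)] at hr
      have e1 : 2 * L + 2 - (j + (2 * L + 2 - j - t - m)) = m + t := by omega
      have e2 : 2 * L + 2 - (j + (2 * L + 2 - j - t - m + t)) = m := by omega
      rw [e1, e2] at hr
      have b1 := mk'_lt (φ v) m
      have b2 := mk'_lt (φ v) (m + t)
      apply hm3
      omega

/-- The main lemma. -/
lemma no_rep {n : ℕ} (G : SimpleGraph (Fin n)) (φ : Fin n → ℕ) (L : ℕ) (hL : ∀ u, φ u < L)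
    (hφ : ∀ h, 0 < h → ∀ u : ℕ → Fin n, IsP G (2 * h) u →
      ¬ ∀ i, i < h → φ (u i) = φ (u (i + h)))
    (t : ℕ) (ht : 0 < t) (p : ℕ → VS n) (hp : IsP (SG G (fun _ _ => 2 * L + 1)) (2 * t) p)
    (hrep : ∀ i, i < t → col L φ (p i) = col L φ (p (i + t))) : False := by
  classical
  by_cases hno : ∀ i, i < 2 * t → ∀ u, p i ≠ Sum.inl u
  · exact caseA G φ L t ht p hp hno hrep
  push Not at hno
  -- membership of original vertices
  have hO1 : ∀ i, i < t → (∃ u, p i = Sum.inl u) → ∃ u, p (i + t) = Sum.inl u := by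
    rintro i hi ⟨u, hu⟩
    apply col_zero L φ
    rw [← hrep i hi, hu]
    rfl
  have hO2 : ∀ i, i < t → (∃ u, p (i + t) = Sum.inl u) → ∃ u, p i = Sum.inl u := by
    rintro i hi ⟨u, hu⟩
    apply col_zero L φ
    rw [hrep i hi, hu]
    rfl
  have hex : ∃ i, i < 2 * t ∧ ∃ u, p i = Sum.inl u := by
    obtain ⟨i, hi, u, hu⟩ := hno
    exact ⟨i, hi, u, hu⟩
  set i0 := Nat.find hex with hi0
  obtain ⟨hi0t, hi0u⟩ := Nat.find_spec hex
  rw [← hi0] at hi0t hi0u
  have hmin : ∀ i, i < i0 → ¬ (i < 2 * t ∧ ∃ u, p i = Sum.inl u) := fun i hi =>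
    Nat.find_min hex hi
  have hi0lt : i0 < t := by
    by_contra hc
    have h1 : i0 - t + t = i0 := by omega
    refine hmin (i0 - t) (by omega) ⟨by omega, hO2 _ (by omega) ?_⟩
    rw [h1]; exact hi0u
  -- forward steps
  have hstep : ∀ i, i + (2 * L + 2) < 2 * t → ∀ u, p i = Sum.inl u →
      ∃ v, G.Adj u v ∧ p (i + (2 * L + 2)) = Sum.inl v := by
    intro i hi u hu
    obtain ⟨v, hG, hv⟩ := spoke_fwd G (2 * L + 1) (by omega) (2 * t) p hp i (by omega) u hu
    refine ⟨v, hG, ?_⟩
    have := hv (2 * L + 2) (by omega) hi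
    rw [this]
    exact D_last _ _ _
  have hgap : ∀ i, (∃ u, p i = Sum.inl u) → ∀ s, 1 ≤ s → s ≤ 2 * L + 1 → i + s < 2 * t →
      ∀ w, p (i + s) ≠ Sum.inl w := by
    rintro i ⟨u, hu⟩ s hs1 hs2 hs3 w hw
    obtain ⟨v, hG, hv⟩ := spoke_fwd G (2 * L + 1) (by omega) (2 * t) p hp i (by omega) u hu
    rw [hv s (by omega) hs3] at hw
    exact D_ne_inl _ s hs1 hs2 hw
  have hi0d : i0 ≤ 2 * L + 1 := by
    by_contra hc
    obtain ⟨u, hu⟩ := hi0u
    obtain ⟨v, hG, hv⟩ := spoke_bwd G (2 * L + 1) (by omega) (2 * t) p hp i0 (by omega) hi0t u hu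
    refine hmin (i0 - (2 * L + 2)) (by omega) ⟨by omega, v, ?_⟩
    rw [hv _ (by omega) (by omega)]
    exact D_last _ _ _
  have hmult : ∀ j, i0 + j * (2 * L + 2) < 2 * t → ∃ u, p (i0 + j * (2 * L + 2)) = Sum.inl u := by
    intro j
    induction j with
    | zero => intro _; simpa using hi0u
    | succ j ih =>
      intro hj
      have e : i0 + (j + 1) * (2 * L + 2) = i0 + j * (2 * L + 2) + (2 * L + 2) := by ring
      rw [e] at hj ⊢
      obtain ⟨u, hu⟩ := ih (by omega)
      obtain ⟨v, _, hv⟩ := hstep _ hj u hu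
      exact ⟨v, hv⟩
  -- t is a multiple of 2L+2
  obtain ⟨h, hh⟩ : ∃ h, t = h * (2 * L + 2) := by
    refine ⟨t / (2 * L + 2), ?_⟩
    have hdm := Nat.div_add_mod t (2 * L + 2)
    have hml := Nat.mod_lt t (show 0 < 2 * L + 2 by omega)
    set q := t / (2 * L + 2)
    set r := t % (2 * L + 2)
    rcases Nat.eq_zero_or_pos r with hr | hr
    · rw [hr, add_zero, mul_comm] at hdm; exact hdm.symm
    · exfalso
      have e0 : q * (2 * L + 2) + r = t := by rw [mul_comm]; exact hdm
      obtain ⟨w, hw⟩ := hO1 i0 hi0lt hi0u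
      refine hgap (i0 + q * (2 * L + 2)) (hmult q (by omega)) r hr (by omega) (by omega) w ?_
      rw [add_assoc, e0]; exact hw
  have hhpos : 0 < h := by
    rcases Nat.eq_zero_or_pos h with h0 | h0
    · rw [h0, zero_mul] at hh; omega
    · exact h0
  -- the sequence of original vertices
  have hbound : ∀ j, j < 2 * h → i0 + j * (2 * L + 2) < 2 * t := by
    intro j hj
    have : (j + 1) * (2 * L + 2) ≤ 2 * h * (2 * L + 2) := Nat.mul_le_mul_right _ hj
    have e1 : (j + 1) * (2 * L + 2) = j * (2 * L + 2) + (2 * L + 2) := by ring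
    have e2 : 2 * h * (2 * L + 2) = 2 * t := by rw [hh]; ring
    omega
  have hchoose : ∀ j, ∃ u : Fin n, j < 2 * h → p (i0 + j * (2 * L + 2)) = Sum.inl u := by
    intro j
    by_cases hj : j < 2 * h
    · obtain ⟨u, hu⟩ := hmult j (hbound j hj)
      exact ⟨u, fun _ => hu⟩
    · obtain ⟨u, hu⟩ := hi0u
      exact ⟨u, fun hj' => absurd hj' hj⟩
  choose u hu using hchoose
  have hP : IsP G (2 * h) u := by
    refine ⟨fun j hj => ?_, fun i j hi hj hij => ?_⟩
    · have e : i0 + (j + 1) * (2 * L + 2) = i0 + j * (2 * L + 2) + (2 * L + 2) := by ring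
      have hb := hbound (j + 1) hj
      rw [e] at hb
      obtain ⟨v, hG, hv⟩ := hstep _ hb (u j) (hu j (by omega))
      have := hu (j + 1) hj
      rw [e, hv] at this
      rw [← Sum.inl.inj this]
      exact hG
    · have h1 := hu i hi
      have h2 := hu j hj
      rw [hij, ← h2] at h1
      have := hp.2 _ _ (hbound i hi) (hbound j hj) h1
      have h3 : i * (2 * L + 2) = j * (2 * L + 2) := by omega
      exact Nat.eq_of_mul_eq_mul_right (by omega) h3
  refine hφ h hhpos u hP ?_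
  intro j hj
  have ejh : i0 + (j + h) * (2 * L + 2) = i0 + j * (2 * L + 2) + t := by rw [hh]; ring
  have hjt : i0 + j * (2 * L + 2) < 2 * t := hbound j (by omega)
  have hjht : i0 + (j + h) * (2 * L + 2) < 2 * t := hbound (j + h) (by omega)
  have hu1 := hu j (by omega)
  have hu2 := hu (j + h) (by omega)
  by_cases hleft : L ≤ i0 + j * (2 * L + 2)
  · -- compare to the left
    rcases Nat.eq_zero_or_pos L with hL0 | hLpos
    · have := hL (u j); omega
    obtain ⟨v1, hG1, hv1⟩ := spoke_bwd G (2 * L + 1) (by omega) (2 * t) p hp _ (by omega) hjt _ hu1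
    obtain ⟨v2, hG2, hv2⟩ := spoke_bwd G (2 * L + 1) (by omega) (2 * t) p hp _ (by omega) hjht _ hu2
    apply code_eq L _ _ (hL _)
    intro s hs1 hs2
    have hr := hrep (i0 + j * (2 * L + 2) - s) (by omega)
    have e2 : i0 + j * (2 * L + 2) - s + t = i0 + (j + h) * (2 * L + 2) - s := by omega
    rw [e2, hv1 s (by omega) (by omega), hv2 s (by omega) (by omega),
      col_near L φ hG1.ne _ hs1 hs2, col_near L φ hG2.ne _ hs1 hs2] at hr
    exact hr
  · -- compare to the right, j = 0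
    have hj0 : j = 0 := by
      rcases Nat.eq_zero_or_pos j with h0 | h0
      · exact h0
      · exfalso
        have : 1 * (2 * L + 2) ≤ j * (2 * L + 2) := Nat.mul_le_mul_right _ h0
        omega
    have hfar : i0 + (j + h) * (2 * L + 2) + L < 2 * t := by
      rw [ejh, hj0, zero_mul, add_zero]
      have : 1 * (2 * L + 2) ≤ h * (2 * L + 2) := Nat.mul_le_mul_right _ hhpos
      rw [hj0, zero_mul] at hleft
      omega
    obtain ⟨v1, hG1, hv1⟩ := spoke_fwd G (2 * L + 1) (by omega) (2 * t) p hp _ (by omega) _ hu1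
    obtain ⟨v2, hG2, hv2⟩ := spoke_fwd G (2 * L + 1) (by omega) (2 * t) p hp
      (i0 + (j + h) * (2 * L + 2)) (by have := hL (u j); omega) _ hu2
    apply code_eq L _ _ (hL _)
    intro s hs1 hs2
    have hr := hrep (i0 + j * (2 * L + 2) + s) (by
      have : 1 * (2 * L + 2) ≤ h * (2 * L + 2) := Nat.mul_le_mul_right _ hhpos
      omega)
    have e2 : i0 + j * (2 * L + 2) + s + t = i0 + (j + h) * (2 * L + 2) + s := by omega
    rw [e2, hv1 s (by omega) (by omega), hv2 s (by omega) (by omega),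
      col_near L φ hG1.ne _ hs1 hs2, col_near L φ hG2.ne _ hs1 hs2] at hr
    exact hr


/-- From a function path to a walk. -/
lemma walk_of_IsP {V : Type*} {H : SimpleGraph V} {N : ℕ} {v : ℕ → V} (hN : 0 < N)
    (h : IsP H N v) :
    ∃ (x y : V) (w : H.Walk x y), w.IsPath ∧ w.support = (List.range N).map v := by
  have hne : (List.range N).map v ≠ [] := by
    simp; omega
  have hch : ((List.range N).map v).IsChain H.Adj := by
    rw [List.isChain_iff_getElem]
    intro i hi
    simp only [List.length_map, List.length_range] at hi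
    simp only [List.getElem_map, List.getElem_range]
    exact h.1 i (by omega)
  refine ⟨_, _, SimpleGraph.Walk.ofSupport _ hne hch, ?_, SimpleGraph.Walk.support_ofSupport _ _⟩
  apply SimpleGraph.Walk.IsPath.mk'
  rw [SimpleGraph.Walk.support_ofSupport]
  apply List.Nodup.map_on
  · intro a ha b hb hab
    exact h.2 a b (List.mem_range.mp ha) (List.mem_range.mp hb) hab
  · exact List.nodup_range

/-- From a walk to a function path. -/
lemma IsP_of_walk {V : Type*} {H : SimpleGraph V} {x y : V} (w : H.Walk x y) (hw : w.IsPath) :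
    IsP H w.support.length w.getVert := by
  refine ⟨fun i hi => ?_, fun i j hi hj hij => ?_⟩
  · rw [SimpleGraph.Walk.length_support] at hi
    exact w.adj_getVert_succ (by omega)
  · rw [SimpleGraph.Walk.length_support] at hi hj
    exact hw.getVert_injOn (by simp only [Set.mem_ofPred_eq]; omega)
      (by simp only [Set.mem_ofPred_eq]; omega) hij

/-- There are a constant C and a function f such that every finite graph that is nonrepetitively k-colourable has a subdivision, with at most f(k) new vertices on each edge, that is nonrepetitively C-colourable. -/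
theorem result :
    ∃ C : ℕ, ∃ f : ℕ → ℕ, ∀ (n : ℕ) (G : SimpleGraph (Fin n)) (k : ℕ),
      (∃ c : Fin n → Fin k, ∀ (x y : Fin n) (p : G.Walk x y), p.IsPath →
          ∀ s : List (Fin k), s ≠ [] → p.support.map c ≠ s ++ s) →
      ∃ ℓ : Fin n → Fin n → ℕ, (∀ u v, ℓ u v ≤ f k) ∧
        ∃ c : Fin n ⊕ (Fin n × Fin n × ℕ) → Fin C,
          ∀ (x y : Fin n ⊕ (Fin n × Fin n × ℕ))
            (p : (SimpleGraph.fromRel (V := Fin n ⊕ (Fin n × Fin n × ℕ))
              (fun a b => ∃ u v : Fin n, u < v ∧ G.Adj u v ∧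
                ((ℓ u v = 0 ∧ a = Sum.inl u ∧ b = Sum.inl v) ∨
                 (1 ≤ ℓ u v ∧ a = Sum.inl u ∧ b = Sum.inr (u, v, 1)) ∨
                 (∃ i : ℕ, 1 ≤ i ∧ i + 1 ≤ ℓ u v ∧
                    a = Sum.inr (u, v, i) ∧ b = Sum.inr (u, v, i + 1)) ∨
                 (1 ≤ ℓ u v ∧ a = Sum.inr (u, v, ℓ u v) ∧ b = Sum.inl v)))).Walk x y),
            p.IsPath → ∀ s : List (Fin C), s ≠ [] → p.support.map c ≠ s ++ s := by
  refine ⟨10, fun k => 2 * k + 1, fun n G k hG => ?_⟩
  obtain ⟨c, hc⟩ := hG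
  refine ⟨fun _ _ => 2 * k + 1, fun _ _ => le_rfl,
    fun x => ⟨col k (fun u => (c u : ℕ)) x, col_lt _ _ _⟩, ?_⟩
  intro x y p hp s hs heq
  have hlen : p.support.length = 2 * s.length := by
    have := congrArg List.length heq
    simp only [List.length_map, List.length_append] at this
    omega
  have hspos : 0 < s.length := List.length_pos_iff.mpr hs
  have hP := IsP_of_walk p hp
  rw [hlen] at hP
  refine no_rep G (fun u => (c u : ℕ)) k (fun u => (c u).isLt) ?_ s.length hspos p.getVert hP ?_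
  · intro h hh u hu hrep
    obtain ⟨x', y', w, hw, hsup⟩ := walk_of_IsP (by omega) hu
    refine hc x' y' w hw ((List.range h).map (fun i => c (u i))) (by simp; omega) ?_
    rw [hsup, two_mul, List.range_add, List.map_map, List.map_append]
    congr 1
    rw [List.map_map]
    apply List.map_congr_left
    intro i hi
    have := hrep i (List.mem_range.mp hi)
    simp only [Function.comp]
    rw [add_comm h i]
    exact (Fin.ext this).symm
  · intro i hi
    have hl := SimpleGraph.Walk.length_support p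
    have hg : ∀ j (hj : j < 2 * s.length), (⟨col k (fun u => (c u : ℕ)) (p.getVert j), col_lt _ _ _⟩ : Fin 10)
        = (s ++ s)[j]'(by simp; omega) := by
      intro j hj
      have h1 : p.getVert j = p.support[j]'(by omega) := p.getVert_eq_support_getElem (by omega)
      rw [h1]
      simp only [← heq, List.getElem_map]
    have h1 := hg i (by omega)
    have h2 := hg (i + s.length) (by omega)
    rw [List.getElem_append_left hi] at h1
    rw [List.getElem_append_right (by omega)] at h2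
    simp only [Nat.add_sub_cancel] at h2
    rw [← h2] at h1
    exact congrArg Fin.val h1

end Pool.Agent.S05565
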