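import Pool.Statements.S05582
import Pool.Agent.Helper201.HypoMain

set_option autoImplicit false
open Pool Pool.MP_4e77c2_co

namespace Pool.Agent.S05582

/-- The negation of the preceding statement: Every finite cubic graph that is not 3-edge-colourable, not Hamiltonian, but Hamiltonian after deleting any vertex has three perfect matchings missing exactly 3 edges, and no three perfect matchings miss fewer than 3 edges. -/
theorem result :
    ¬ (∀ (V : Type) [Fintype V] [DecidableEq V] (G : SimpleGraph V) [DecidableRel G.Adj],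
      G.IsRegularOfDegree 3 →
      ¬ G.lineGraph.Colorable 3 →
      ¬ G.IsHamiltonian →
      (∀ v : V, (G.induce {w | w ≠ v}).IsHamiltonian) →
      (∃ M₁ M₂ M₃ : G.Subgraph, M₁.IsPerfectMatching ∧ M₂.IsPerfectMatching ∧
          M₃.IsPerfectMatching ∧
          (G.edgeSet \ (M₁.edgeSet ∪ M₂.edgeSet ∪ M₃.edgeSet)).ncard = 3) ∧
      (∀ M₁ M₂ M₃ : G.Subgraph, M₁.IsPerfectMatching → M₂.IsPerfectMatching →
          M₃.IsPerfectMatching →
          3 ≤ (G.edgeSet \ (M₁.edgeSet ∪ M₂.edgeSet ∪ M₃.edgeSet)).ncard)) := by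
  intro h
  obtain ⟨⟨M₁, M₂, M₃, h₁, h₂, h₃, h₄⟩, _⟩ := h (Fin 130) Pool.Agent.Helper201.Hypo.G130
    Pool.Agent.Helper201.Hypo.G130_reg
    Pool.Agent.Helper201.Hypo.G130_class2
    Pool.Agent.Helper201.Hypo.G130_notHam
    (fun v => Pool.Agent.Helper201.Hypo.G130_del v)
  exact Pool.Agent.Helper201.Hypo.G130_mu M₁ M₂ M₃ h₁ h₂ h₃ h₄

end Pool.Agent.S05582
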