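-- Disproof of S05583: F = {0, 1/64, ..., 1}, blocks of width 1/4, T constant on each half block.
import Pool.Statements.S05584

set_option autoImplicit false
open Pool Pool.MP_4e7ec3_co

namespace Pool.Agent.S05584

/-- On indices `0..64`: block `b = min (i/16) 3`; the left half goes to `16 b + 14`,
the right half goes to `16 b + 2`. -/
def tI (i : ℕ) : ℕ :=
  if i < 8 then 14 else if i < 16 then 2
  else if i < 24 then 30 else if i < 32 then 18
  else if i < 40 then 46 else if i < 48 then 34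
  else if i < 56 then 62 else 50

/-- The block of an index. -/
def blk (i : ℕ) : ℕ :=
  if i < 16 then 0 else if i < 32 then 1 else if i < 48 then 2 else 3

theorem tI_le (i : ℕ) : tI i ≤ 64 := by unfold tI; split_ifs <;> omega

theorem tI_blk (i : ℕ) : blk (tI i) = blk i := by
  unfold tI blk; split_ifs <;> omega

/-- All the steps available from index `i` keep the block. -/
theorem tI_blk_nbr (i j : ℕ) (h1 : j ≤ tI i + 1) (h2 : tI i ≤ j + 1) : blk j = blk i := by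
  unfold tI at h1 h2
  unfold blk
  split_ifs at * <;> omega

theorem tI_far (i : ℕ) (hi : i ≤ 64) : i + 6 ≤ tI i ∨ tI i + 6 ≤ i := by
  unfold tI; split_ifs <;> omega

theorem blk_close (i j : ℕ) (hi : i ≤ 64) (hj : j ≤ 64) (h : blk i = blk j) :
    i ≤ j + 16 ∧ j ≤ i + 16 := by
  unfold blk at h; split_ifs at h <;> omega

/-- The finite set `{0, 1/64, ..., 1}`. -/
noncomputable def FF : Finset ℝ := (Finset.range 65).image (fun i : ℕ => (i : ℝ) / 64)

theorem mem_FF {r : ℝ} : r ∈ FF ↔ ∃ i : ℕ, i ≤ 64 ∧ r = (i : ℝ) / 64 := by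
  unfold FF
  simp only [Finset.mem_image, Finset.mem_range]
  constructor
  · rintro ⟨i, hi, rfl⟩; exact ⟨i, by omega, rfl⟩
  · rintro ⟨i, hi, rfl⟩; exact ⟨i, by omega, rfl⟩

/-- The self-map in real coordinates. -/
noncomputable def TT (r : ℝ) : ℝ := (tI ⌊r * 64⌋₊ : ℝ) / 64

theorem TT_idx (i : ℕ) : TT ((i : ℝ) / 64) = (tI i : ℝ) / 64 := by
  unfold TT
  have : ((i : ℝ) / 64) * 64 = (i : ℝ) := by ring
  rw [this, Nat.floor_natCast]

theorem result :
    ¬ (∃ k : ℝ, ∀ (F : Finset ℝ) (ε : ℝ) (T : ℝ → ℝ),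
      (∀ p ∈ F, 0 ≤ p ∧ p ≤ 1) → (0 : ℝ) ∈ F → (1 : ℝ) ∈ F → 0 < ε →
      (∀ p ∈ F, T p ∈ F ∧ ε < |p - T p|) →
      ∃ p₀ ∈ F, ∃ n : ℕ, (n : ℝ) ≤ k / ε ∧
        ∃ x : ℕ → ℝ, x 0 = p₀ ∧
          (∀ i < n,
            x (i + 1) = T (x i) ∨
            (x (i + 1) ∈ F ∧ x (i + 1) < T (x i) ∧
              ∀ r ∈ F, r < T (x i) → r ≤ x (i + 1)) ∨
            (x (i + 1) ∈ F ∧ T (x i) < x (i + 1) ∧
              ∀ r ∈ F, T (x i) < r → x (i + 1) ≤ r)) ∧
          1 / 3 ≤ |x n - p₀|) := by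
  rintro ⟨k, hk⟩
  have h01 : ∀ p ∈ FF, 0 ≤ p ∧ p ≤ 1 := by
    intro p hp
    obtain ⟨i, hi, rfl⟩ := mem_FF.1 hp
    have : (i : ℝ) ≤ 64 := by exact_mod_cast hi
    constructor
    · positivity
    · linarith
  have h0 : (0 : ℝ) ∈ FF := mem_FF.2 ⟨0, by omega, by simp⟩
  have h1 : (1 : ℝ) ∈ FF := mem_FF.2 ⟨64, by omega, by norm_num⟩
  have hT : ∀ p ∈ FF, TT p ∈ FF ∧ (1 / 16 : ℝ) < |p - TT p| := by
    intro p hp
    obtain ⟨i, hi, rfl⟩ := mem_FF.1 hp
    rw [TT_idx]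
    refine ⟨mem_FF.2 ⟨tI i, tI_le i, rfl⟩, ?_⟩
    rcases tI_far i hi with h | h
    · have : (i : ℝ) + 6 ≤ (tI i : ℝ) := by exact_mod_cast h
      rw [abs_sub_comm]
      exact lt_of_lt_of_le (by linarith) (le_abs_self _)
    · have : (tI i : ℝ) + 6 ≤ (i : ℝ) := by exact_mod_cast h
      exact lt_of_lt_of_le (by linarith) (le_abs_self _)
  obtain ⟨p₀, hp₀, n, -, x, hx0, hstep, hfar⟩ :=
    hk FF (1 / 16) TT h01 h0 h1 (by norm_num) hT
  obtain ⟨i₀, hi₀, hp₀'⟩ := mem_FF.1 hp₀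
  -- every reached point is in the block of the start
  have key : ∀ m ≤ n, ∃ j : ℕ, j ≤ 64 ∧ x m = (j : ℝ) / 64 ∧ blk j = blk i₀ := by
    intro m
    induction m with
    | zero => intro _; exact ⟨i₀, hi₀, by rw [hx0, hp₀'], rfl⟩
    | succ m ih =>
      intro hm
      obtain ⟨j, hj, hxj, hbj⟩ := ih (by omega)
      have hs := hstep m (by omega)
      rw [hxj, TT_idx] at hs
      rcases hs with hs | ⟨hmem, hlt, hmax⟩ | ⟨hmem, hlt, hmin⟩
      · exact ⟨tI j, tI_le j, hs, by rw [tI_blk, hbj]⟩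
      · obtain ⟨l, hl, hxl⟩ := mem_FF.1 hmem
        rw [hxl] at hlt hmax
        have hlt' : (l : ℝ) < (tI j : ℝ) := by linarith
        have hlt'' : l < tI j := by exact_mod_cast hlt'
        have hl1 : tI j - 1 ≤ 64 := by have := tI_le j; omega
        have h2 := hmax (((tI j - 1 : ℕ) : ℝ) / 64) (mem_FF.2 ⟨tI j - 1, hl1, rfl⟩) (by
          have : ((tI j - 1 : ℕ) : ℝ) < (tI j : ℝ) := by
            exact_mod_cast (by omega : tI j - 1 < tI j)
          linarith)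
        have h3 : ((tI j - 1 : ℕ) : ℝ) ≤ (l : ℝ) := by linarith
        have h4 : tI j - 1 ≤ l := by exact_mod_cast h3
        refine ⟨l, hl, hxl, ?_⟩
        rw [tI_blk_nbr j l (by omega) (by omega), hbj]
      · obtain ⟨l, hl, hxl⟩ := mem_FF.1 hmem
        rw [hxl] at hlt hmin
        have hlt' : (tI j : ℝ) < (l : ℝ) := by linarith
        have hlt'' : tI j < l := by exact_mod_cast hlt'
        have h2 := hmin (((tI j + 1 : ℕ) : ℝ) / 64) (mem_FF.2 ⟨tI j + 1, by omega, rfl⟩) (by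
          have : (tI j : ℝ) < ((tI j + 1 : ℕ) : ℝ) := by
            exact_mod_cast (by omega : tI j < tI j + 1)
          linarith)
        have h3 : (l : ℝ) ≤ ((tI j + 1 : ℕ) : ℝ) := by linarith
        have h4 : l ≤ tI j + 1 := by exact_mod_cast h3
        refine ⟨l, hl, hxl, ?_⟩
        rw [tI_blk_nbr j l (by omega) (by omega), hbj]
  obtain ⟨j, hj, hxj, hbj⟩ := key n le_rfl
  obtain ⟨ha, hb⟩ := blk_close j i₀ hj hi₀ hbj
  rw [hxj, hp₀'] at hfar
  have ha' : (j : ℝ) ≤ (i₀ : ℝ) + 16 := by exact_mod_cast ha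
  have hb' : (i₀ : ℝ) ≤ (j : ℝ) + 16 := by exact_mod_cast hb
  have : |(j : ℝ) / 64 - (i₀ : ℝ) / 64| ≤ 1 / 4 := by
    rw [abs_le]; constructor <;> linarith
  linarith

end Pool.Agent.S05584
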