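-- Proof of frozen statement S05595.
import Pool.Statements.S05595
import Pool.Agent.Helper201.Gadget

set_option autoImplicit false
open Pool Pool.MP_4ffbdc_co

namespace Pool.Agent.S05595

open SimpleGraph Pool.Agent.Helper201.Crit

/-- `H` with a pendant vertex attached to each vertex. -/
def pend {n : ℕ} (H : SimpleGraph (Fin n)) : SimpleGraph (Fin n ⊕ Fin n) where
  Adj x y := match x, y with
    | Sum.inl a, Sum.inl b => H.Adj a b
    | Sum.inl a, Sum.inr b => a = b
    | Sum.inr a, Sum.inl b => a = b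
    | Sum.inr _, Sum.inr _ => False
  symm := ⟨by
    rintro (a | a) (b | b) h
    · exact (show H.Adj a b from h).symm
    · exact (show a = b from h).symm
    · exact (show a = b from h).symm
    · exact h⟩
  loopless := ⟨by
    rintro (a | a) h
    · exact H.loopless.irrefl a h
    · exact h⟩

/-- a colour different from the given one -/
def oth {Q : ℕ} (j : Fin (Q + 3)) : Fin (Q + 3) := if j = 0 then 1 else 0

theorem oth_ne {Q : ℕ} (j : Fin (Q + 3)) : oth j ≠ j := by
  unfold oth
  split_ifs with h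
  · rw [h]; intro h1; have := congrArg Fin.val h1; simp at this
  · exact fun h1 => h h1.symm

theorem pend_prop {n Q : ℕ} (H : SimpleGraph (Fin n)) (hcol : H.Colorable (Q + 3))
    (hP : ∀ x y, H.Adj x y → ∃ c : Fin n → Fin (Q + 3), c x = c y ∧
      ∀ a b, H.Adj a b → s(a, b) ≠ s(x, y) → c a ≠ c b) :
    ∀ x y, (pend H).Adj x y → ∃ c : Fin n ⊕ Fin n → Fin (Q + 3), c x = c y ∧
      ∀ a b, (pend H).Adj a b → s(a, b) ≠ s(x, y) → c a ≠ c b := by
  classical
  obtain ⟨c0, hc0⟩ := exists_fun_of_colorable hcol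
  have hpen : ∀ x : Fin n, ∃ c : Fin n ⊕ Fin n → Fin (Q + 3), c (Sum.inl x) = c (Sum.inr x) ∧
      ∀ a b, (pend H).Adj a b → s(a, b) ≠ s(Sum.inl x, Sum.inr x) → c a ≠ c b := by
    intro x
    refine ⟨Sum.elim c0 (fun a => if a = x then c0 x else oth (c0 a)), by simp, ?_⟩
    rintro (a | a) (b | b) hab hne
    · exact hc0 a b hab
    · have hab' : a = b := hab
      subst hab'
      have hax : a ≠ x := by
        intro h; apply hne; rw [h]
      simp only [Sum.elim_inl, Sum.elim_inr, if_neg hax]
      exact (oth_ne _).symm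
    · have hab' : a = b := hab
      subst hab'
      have hax : a ≠ x := by
        intro h; apply hne; rw [h, Sym2.eq_swap]
      simp only [Sum.elim_inl, Sum.elim_inr, if_neg hax]
      exact oth_ne _
    · exact absurd hab (fun h => h)
  rintro (x | x) (y | y) hxy
  · obtain ⟨c, hcxy, hc⟩ := hP x y hxy
    refine ⟨Sum.elim c (fun a => oth (c a)), by simpa using hcxy, ?_⟩
    rintro (a | a) (b | b) hab hne
    · refine hc a b hab ?_
      intro h
      apply hne
      rw [Sym2.eq_iff] at h ⊢
      rcases h with ⟨h1, h2⟩ | ⟨h1, h2⟩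
      · left; exact ⟨by rw [h1], by rw [h2]⟩
      · right; exact ⟨by rw [h1], by rw [h2]⟩
    · have hab' : a = b := hab
      subst hab'
      exact (oth_ne _).symm
    · have hab' : a = b := hab
      subst hab'
      exact oth_ne _
    · exact absurd hab (fun h => h)
  · have hxy' : x = y := hxy
    subst hxy'
    exact hpen x
  · have hxy' : x = y := hxy
    subst hxy'
    obtain ⟨c, h1, h2⟩ := hpen x
    exact ⟨c, h1.symm, fun a b hab hne => h2 a b hab (by rw [Sym2.eq_swap (a := Sum.inl x)]; exact hne)⟩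
  · exact absurd hxy (fun h => h)

/-- For every k ≥ 4 there is a constant c such that any nonempty finite graph H that is a (not necessarily induced) subgraph of some k-critical graph is also a subgraph of a k-critical graph with at most c times as many vertices as H. -/
theorem result :
    ∀ k : ℕ, 4 ≤ k → ∃ c : ℕ, ∀ n : ℕ, 0 < n → ∀ H : SimpleGraph (Fin n),
      (∃ m : ℕ, ∃ G : SimpleGraph (Fin m),
        G.chromaticNumber = (k : ℕ∞) ∧
        (∀ v w : Fin m, G.Adj v w →
          (G.deleteEdges {s(v, w)}).chromaticNumber < (k : ℕ∞)) ∧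
        (∀ v : Fin m, (G.induce ({v}ᶜ : Set (Fin m))).chromaticNumber < (k : ℕ∞)) ∧
        ∃ f : H →g G, Function.Injective f) →
      ∃ m : ℕ, ∃ G : SimpleGraph (Fin m),
        G.chromaticNumber = (k : ℕ∞) ∧
        (∀ v w : Fin m, G.Adj v w →
          (G.deleteEdges {s(v, w)}).chromaticNumber < (k : ℕ∞)) ∧
        (∀ v : Fin m, (G.induce ({v}ᶜ : Set (Fin m))).chromaticNumber < (k : ℕ∞)) ∧
        (∃ f : H →g G, Function.Injective f) ∧
        m ≤ c * n := by
  intro k hk
  obtain ⟨Q, rfl⟩ : ∃ Q, k = Q + 3 + 1 := ⟨k - 4, by omega⟩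
  refine ⟨9 * Q + 43, ?_⟩
  intro n hn H hH
  obtain ⟨m0, G0, hχ, hE, hV, f0, hf0⟩ := hH
  have lt_iff : ∀ {U : Type} (K : SimpleGraph U),
      K.chromaticNumber < ((Q + 3 + 1 : ℕ) : ℕ∞) → K.Colorable (Q + 3) := by
    intro U K hK
    rw [← chromaticNumber_le_iff_colorable]
    have h1 : ((Q + 3 + 1 : ℕ) : ℕ∞) = ((Q + 3 : ℕ) : ℕ∞) + 1 := by push_cast; rfl
    rw [h1] at hK
    exact ENat.lt_add_one_iff (ENat.natCast_ne_top _) |>.1 hK
  by_cases hcol : H.Colorable (Q + 3)
  · have hG0 : ¬ G0.Colorable (Q + 3) := by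
      intro h
      have h1 := h.chromaticNumber_le
      rw [hχ] at h1
      have h2 : (Q + 3 + 1 : ℕ) ≤ Q + 3 := by exact_mod_cast h1
      omega
    have hP : ∀ x y, H.Adj x y → ∃ c : Fin n → Fin (Q + 3), c x = c y ∧
        ∀ a b, H.Adj a b → s(a, b) ≠ s(x, y) → c a ≠ c b := by
      intro x y hxy
      obtain ⟨c0, hc0⟩ := exists_fun_of_colorable
        (lt_iff _ (hE (f0 x) (f0 y) (f0.map_adj hxy)))
      have hsame : c0 (f0 x) = c0 (f0 y) := by
        by_contra hne
        apply hG0
        refine colorable_of_fun c0 ?_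
        intro a b hab
        by_cases h : s(a, b) = s(f0 x, f0 y)
        · rw [Sym2.eq_iff] at h
          rcases h with ⟨h1, h2⟩ | ⟨h1, h2⟩
          · rw [h1, h2]; exact hne
          · rw [h1, h2]; exact fun h3 => hne h3.symm
        · apply hc0
          rw [deleteEdges_adj]
          exact ⟨hab, by simpa using h⟩
      refine ⟨fun v => c0 (f0 v), hsame, ?_⟩
      intro a b hab hne
      apply hc0
      rw [deleteEdges_adj]
      refine ⟨f0.map_adj hab, ?_⟩
      rw [Set.mem_singleton_iff]
      intro h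
      apply hne
      rw [Sym2.eq_iff] at h ⊢
      rcases h with ⟨h1, h2⟩ | ⟨h1, h2⟩
      · left; exact ⟨hf0 h1, hf0 h2⟩
      · right; exact ⟨hf0 h1, hf0 h2⟩
    obtain ⟨m, G, hG, hE', hV', hm, f, hf, hfadj⟩ :=
      Pool.Agent.Helper201.Gadget.main (pend H) (pend_prop H hcol hP)
    have hadj : ∀ v : Fin n, ∃ w, (pend H).Adj (Sum.inl v) w := fun v => ⟨Sum.inr v, rfl⟩
    refine ⟨m, G, chromaticNumber_eq G hG hV', ?_, ?_, ?_, ?_⟩
    · intro v w hvw
      exact chromaticNumber_lt (hE' v w hvw)
    · intro v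
      exact chromaticNumber_lt (hV' v)
    · refine ⟨⟨fun v => f ⟨Sum.inl v, hadj v⟩, ?_⟩, ?_⟩
      · intro a b hab
        exact hfadj _ _ hab
      · intro a b hab
        have := hf hab
        simpa using this
    · rw [Fintype.card_sum, Fintype.card_fin] at hm
      nlinarith
  · have hsurj : Function.Surjective f0 := by
      intro v
      by_contra hv
      push Not at hv
      apply hcol
      let g : H →g G0.induce ({v}ᶜ : Set (Fin m0)) := ⟨fun a => ⟨f0 a, hv a⟩, by
        intro a b hab
        exact f0.map_adj hab⟩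
      exact (lt_iff _ (hV v)).of_hom g
    have hmn : m0 ≤ n := by
      have := Fintype.card_le_of_surjective f0 hsurj
      simpa using this
    refine ⟨m0, G0, hχ, hE, hV, ⟨f0, hf0⟩, ?_⟩
    nlinarith

end Pool.Agent.S05595
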