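import Pool.Statements.S05597

set_option autoImplicit false
open Pool Pool.MP_505085_co

namespace Pool.Agent.S05597

section RauzyBasic

variable {k : ℕ} {u : ℕ → Fin k}

/-- the factors of length `n` at positions `i` and `j` coincide -/
def Agr (u : ℕ → Fin k) (n i j : ℕ) : Prop := ∀ l < n, u (i + l) = u (j + l)

lemma Agr.refl (n i : ℕ) : Agr u n i i := fun _ _ => rfl

lemma Agr.symm {n i j : ℕ} (h : Agr u n i j) : Agr u n j i := fun l hl => (h l hl).symm

lemma Agr.trans {n i j m : ℕ} (h : Agr u n i j) (h' : Agr u n j m) : Agr u n i m :=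
  fun l hl => (h l hl).trans (h' l hl)

lemma Agr.mono {n m i j : ℕ} (h : Agr u n i j) (hm : m ≤ n) : Agr u m i j :=
  fun l hl => h l (by omega)

lemma Agr.succ {n i j : ℕ} (h : Agr u n i j) (h' : u (i + n) = u (j + n)) : Agr u (n + 1) i j := by
  intro l hl
  rcases Nat.lt_succ_iff_lt_or_eq.mp hl with h1 | h1
  · exact h l h1
  · subst h1; exact h'

/-- shift -/
lemma Agr.shift {n i j : ℕ} (h : Agr u n i j) (s m : ℕ) (hm : m + s ≤ n) :
    Agr u m (i + s) (j + s) := by
  intro l hl
  have := h (s + l) (by omega)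
  rw [← add_assoc, ← add_assoc] at this
  exact this

/-- the standing hypotheses -/
structure Hyp (u : ℕ → Fin k) (lam : ℝ) (n0 : ℕ) : Prop where
  win : ∀ n, n0 ≤ n → ∀ i j, ∃ t : ℕ, (t : ℝ) ≤ lam * n ∧ Agr u n (j + t) i
  nper : ¬ ∃ p : ℕ, 0 < p ∧ ∀ i : ℕ, u (i + p) = u i
  l1 : 2.6 ≤ lam
  l2 : lam ^ 2 - 3 * lam + 1 < 0

variable {lam : ℝ} {n0 : ℕ}

lemma Hyp.l3 (h : Hyp u lam n0) : lam < 2.6181 := by
  have h1 := h.l1
  have h2 := h.l2
  by_contra hcon
  push Not at hcon
  nlinarith

lemma Hyp.evper (h : Hyp u lam n0) {M P : ℕ} (hP : 0 < P) (hper : ∀ m, M ≤ m → u (m + P) = u m) :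
    False := by
  apply h.nper
  refine ⟨P, hP, fun i => ?_⟩
  obtain ⟨t, -, ht⟩ := h.win (n0 + i + P + 1) (by omega) 0 M
  have h1 := ht i (by omega)
  have h2 := ht (i + P) (by omega)
  rw [zero_add] at h1 h2
  have h3 := hper (M + t + i) (by omega)
  rw [← h2, ← h1, ← h3]
  congr 1
  omega

/-- a run with period `d` -/
lemma Hyp.run (h : Hyp u lam n0) {q d L D : ℕ} (hd : 0 < d) (hag : Agr u L (q + d) q)
    (h1 : d + 1 ≤ D) (h2 : n0 ≤ D) : (L : ℝ) ≤ lam * D := by
  by_contra hcon
  push Not at hcon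
  apply h.nper
  refine ⟨d, hd, fun i => ?_⟩
  obtain ⟨t, ht1, ht2⟩ := h.win D h2 i q
  have htL : t < L := by
    have : (t : ℝ) < L := lt_of_le_of_lt ht1 hcon
    exact_mod_cast this
  have e1 := ht2 0 (by omega)
  have e2 := ht2 d (by omega)
  have e3 := hag t htL
  simp only [add_zero] at e1
  rw [← e2, ← e1, ← e3]
  congr 1
  omega

lemma Hyp.run' (h : Hyp u lam n0) {q d L : ℕ} (hd : 0 < d) (hag : Agr u L (q + d) q)
    (hL : lam * n0 < L) : (L : ℝ) ≤ lam * (d + 1) := by
  rcases le_total (d + 1) n0 with h1 | h1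
  · have := h.run hd hag h1 le_rfl
    linarith
  · have := h.run hd hag le_rfl h1
    push_cast at this
    exact this

/-- next occurrence -/
def Nxt (u : ℕ → Fin k) (n i d : ℕ) : Prop :=
  0 < d ∧ Agr u n (i + d) i ∧ ∀ e, 0 < e → e < d → ¬ Agr u n (i + e) i

lemma Hyp.next (h : Hyp u lam n0) {n : ℕ} (hn : n0 ≤ n) (i : ℕ) :
    ∃ d, Nxt u n i d ∧ (d : ℝ) ≤ lam * n + 1 := by
  classical
  obtain ⟨t, ht1, ht2⟩ := h.win n hn i (i + 1)
  have hex : ∃ d, 0 < d ∧ Agr u n (i + d) i :=
    ⟨t + 1, by omega, by rw [show i + (t + 1) = i + 1 + t by ring]; exact ht2⟩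
  refine ⟨Nat.find hex, ⟨(Nat.find_spec hex).1, (Nat.find_spec hex).2, ?_⟩, ?_⟩
  · intro e he1 he2 he3
    exact Nat.find_min hex he2 ⟨he1, he3⟩
  · have : Nat.find hex ≤ t + 1 := Nat.find_min' hex
      ⟨by omega, by rw [show i + (t + 1) = i + 1 + t by ring]; exact ht2⟩
    have h' : (Nat.find hex : ℝ) ≤ t + 1 := by exact_mod_cast this
    linarith

/-- the word of length `n` at position `i` -/
def W (u : ℕ → Fin k) (n i : ℕ) : Fin n → Fin k := fun l => u (i + l)

lemma W_eq_iff {n i j : ℕ} : W u n i = W u n j ↔ Agr u n i j := by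
  constructor
  · intro h l hl
    exact congrFun h ⟨l, hl⟩
  · intro h
    funext l
    exact h l.1 l.2

/-- complexity -/
noncomputable def cpx (u : ℕ → Fin k) (n : ℕ) : ℕ := (Set.range (W u n)).ncard

/-- restriction of a word of length `n+1` -/
def res (n : ℕ) (f : Fin (n + 1) → Fin k) : Fin n → Fin k := fun l => f l.castSucc

lemma res_W (n i : ℕ) : res n (W u (n + 1) i) = W u n i := rfl

lemma card_lem {A B : Type*} {S : Set A} {T : Set B} (hS : S.Finite) (f : A → B)
    (hT : ∀ b ∈ T, ∃ a ∈ S, f a = b)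
    {x y : A} (hx : x ∈ S) (hy : y ∈ S) (hxy : x ≠ y) (hf : f x = f y) :
    T.ncard + 1 ≤ S.ncard := by
  have h1 : T ⊆ f '' (S \ {y}) := by
    intro b hb
    obtain ⟨a, ha, rfl⟩ := hT b hb
    by_cases hay : a = y
    · exact ⟨x, ⟨hx, hxy⟩, by rw [hf, hay]⟩
    · exact ⟨a, ⟨ha, hay⟩, rfl⟩
  have hfin : (S \ {y}).Finite := hS.subset Set.sdiff_subset
  have h2 := Set.ncard_le_ncard h1 (hfin.image f)
  have h3 := Set.ncard_image_le (f := f) hfin
  have h4 := Set.ncard_sdiff_singleton_add_one hy hS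
  omega

lemma uniq_lem {A B : Type*} {S : Set A} {T : Set B} (hS : S.Finite) (f : A → B)
    (hT : ∀ b ∈ T, ∃ a ∈ S, f a = b) (hST : ∀ a ∈ S, f a ∈ T)
    (hc : S.ncard ≤ T.ncard + 1)
    {x y : A} (hx : x ∈ S) (hy : y ∈ S) (hxy : x ≠ y) (hf : f x = f y)
    {x' y' : A} (hx' : x' ∈ S) (hy' : y' ∈ S) (hne : x' ≠ y') (hf' : f x' = f y') :
    x' = y ∨ y' = y := by
  by_contra hcon
  push Not at hcon
  apply hne
  have hfin : (S \ {y}).Finite := hS.subset Set.sdiff_subset
  have h4 := Set.ncard_sdiff_singleton_add_one hy hS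
  exact Set.inj_on_of_surj_on_of_ncard_le (s := S \ {y}) (t := T) (fun a _ => f a)
    (fun a ha => hST a ha.1)
    (fun b hb => by
      obtain ⟨a, ha, rfl⟩ := hT b hb
      by_cases hay : a = y
      · exact ⟨x, ⟨hx, hxy⟩, by rw [hf, hay]⟩
      · exact ⟨a, ⟨ha, hay⟩, rfl⟩)
    (by omega) ⟨hx', hcon.1⟩ ⟨hy', hcon.2⟩ hf' hfin

lemma upper_lem {A B : Type*} {S : Set A} {T : Set B} (hS : S.Finite) (hTf : T.Finite) (f : A → B)
    (hST : ∀ a ∈ S, f a ∈ T) (y : A)
    (huniq : ∀ x' ∈ S, ∀ y' ∈ S, x' ≠ y' → f x' = f y' → x' = y ∨ y' = y) :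
    S.ncard ≤ T.ncard + 1 := by
  have hfin : (S \ {y}).Finite := hS.subset Set.sdiff_subset
  have h1 : (S \ {y}).ncard ≤ T.ncard := by
    apply Set.ncard_le_ncard_of_injOn f (fun a ha => hST a ha.1) _ hTf
    intro a ha b hb hab
    by_contra hne
    rcases huniq a ha.1 b hb.1 hne hab with h | h
    · exact ha.2 h
    · exact hb.2 h
  have h2 : S.ncard ≤ (S \ {y}).ncard + 1 := by
    by_cases hy : y ∈ S
    · have h4 := Set.ncard_sdiff_singleton_add_one hy hS
      omega
    · rw [Set.sdiff_singleton_eq_self hy]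
      omega
  omega

lemma surj_res (n : ℕ) : ∀ b ∈ Set.range (W u n), ∃ a ∈ Set.range (W u (n + 1)), res n a = b := by
  rintro _ ⟨i, rfl⟩
  exact ⟨W u (n + 1) i, ⟨i, rfl⟩, rfl⟩

lemma maps_res (n : ℕ) : ∀ a ∈ Set.range (W u (n + 1)), res n a ∈ Set.range (W u n) := by
  rintro _ ⟨i, rfl⟩
  exact ⟨i, rfl⟩

/-- two positions with the same factor of length `n` -/
lemma exists_pair (n K : ℕ) : ∃ i j, K ≤ i ∧ i < j ∧ Agr u n i j := by
  obtain ⟨x, y, hxy, hW⟩ := Finite.exists_ne_map_eq_of_infinite (fun i => W u n (K + i))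
  have hag : Agr u n (K + x) (K + y) := W_eq_iff.mp hW
  rcases Nat.lt_or_gt_of_ne hxy with h | h
  · exact ⟨K + x, K + y, by omega, by omega, hag⟩
  · exact ⟨K + y, K + x, by omega, by omega, hag.symm⟩

/-- existence of right special factors -/
lemma Hyp.exists_rs (h : Hyp u lam n0) (n : ℕ) : ∃ i j, Agr u n i j ∧ u (i + n) ≠ u (j + n) := by
  by_contra hcon
  push Not at hcon
  obtain ⟨i, j, -, hij, hag⟩ := exists_pair (u := u) n 0
  have key : ∀ m, Agr u n (i + m) (j + m) := by
    intro m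
    induction m with
    | zero => exact hag
    | succ m ih =>
      have := (ih.succ (hcon _ _ ih)).shift 1 n (by omega)
      exact this
  apply h.evper (M := i + n) (P := j - i) (by omega)
  intro m hm
  have := hcon _ _ (key (m - i - n))
  have e1 : i + (m - i - n) + n = m := by omega
  have e2 : j + (m - i - n) + n = m + (j - i) := by omega
  rw [e1, e2] at this
  exact this.symm

/-- existence of left special factors -/
lemma Hyp.exists_ls (h : Hyp u lam n0) (n : ℕ) :
    ∃ i j, Agr u n (i + 1) (j + 1) ∧ u i ≠ u j := by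
  by_contra hcon
  push Not at hcon
  -- a pair at bounded distance far away
  have hpg : ∀ K, ∃ i j, K ≤ i ∧ i < j ∧ j ≤ K + Fintype.card (Fin n → Fin k) ∧ Agr u n i j := by
    intro K
    have hc : Fintype.card (Fin n → Fin k) < (Finset.range (Fintype.card (Fin n → Fin k) + 1)).card := by
      simp
    obtain ⟨x, hx, y, hy, hxy, hW⟩ := Finset.exists_ne_map_eq_of_card_lt_of_maps_to
      (s := Finset.range (Fintype.card (Fin n → Fin k) + 1)) (t := Finset.univ)
      hc (f := fun i => W u n (K + i)) (fun a _ => Finset.mem_univ _)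
    have hag : Agr u n (K + x) (K + y) := W_eq_iff.mp hW
    rw [Finset.mem_range] at hx hy
    rcases Nat.lt_or_gt_of_ne hxy with h | h
    · exact ⟨K + x, K + y, by omega, by omega, by omega, hag⟩
    · exact ⟨K + y, K + x, by omega, by omega, by omega, hag.symm⟩
  obtain ⟨C, hC⟩ : ∃ C, C = Fintype.card (Fin n → Fin k) := ⟨_, rfl⟩
  obtain ⟨K, hK⟩ := exists_nat_gt (lam * ((C + 1 + n0 : ℕ) : ℝ))
  obtain ⟨i, j, h1, h2, h3, h4⟩ := hpg K
  rw [← hC] at h3
  have key : ∀ m, m ≤ i → Agr u n (i - m) (j - m) ∧ (0 < m → u (i - m) = u (j - m)) := by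
    intro m
    induction m with
    | zero => intro _; exact ⟨h4, by omega⟩
    | succ m ih =>
      intro hm
      have hh := (ih (by omega)).1
      have e1 : i - m = (i - (m + 1)) + 1 := by omega
      have e2 : j - m = (j - (m + 1)) + 1 := by omega
      rw [e1, e2] at hh
      have he := hcon _ _ hh
      refine ⟨?_, fun _ => he⟩
      intro l hl
      rcases Nat.eq_zero_or_pos l with h0 | h0
      · subst h0; simpa using he
      · have := hh (l - 1) (by omega)
        have e3 : i - (m + 1) + 1 + (l - 1) = i - (m + 1) + l := by omega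
        have e4 : j - (m + 1) + 1 + (l - 1) = j - (m + 1) + l := by omega
        rw [e3, e4] at this
        exact this
  have hrun := h.run (q := 0) (d := j - i) (L := i) (D := C + 1 + n0) (by omega) (by
    intro l hl
    have := (key (i - l) (by omega)).2 (by omega)
    have e1 : i - (i - l) = l := by omega
    have e2 : j - (i - l) = j - i + l := by omega
    rw [e1, e2] at this
    rw [zero_add, zero_add]
    exact this.symm) (by omega) (by omega)
  have : (K : ℝ) ≤ i := by exact_mod_cast h1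
  linarith

lemma Hyp.cpx_lt (h : Hyp u lam n0) (n : ℕ) : cpx u n + 1 ≤ cpx u (n + 1) := by
  obtain ⟨i, j, hag, hne⟩ := h.exists_rs n
  exact card_lem (Set.toFinite _) (res n) (surj_res n) (x := W u (n + 1) i) (y := W u (n + 1) j)
    ⟨i, rfl⟩ ⟨j, rfl⟩ (fun he => hne (W_eq_iff.mp he n (by omega)))
    (by rw [res_W, res_W]; exact W_eq_iff.mpr hag)

end RauzyBasic

section RauzyA

variable {k : ℕ} {u : ℕ → Fin k} {lam : ℝ} {n0 : ℕ}

/-- previous occurrence -/
lemma exists_prev {n b c : ℕ} (hb : b < c) (hag : Agr u n b c) :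
    ∃ b' d, b' + d = c ∧ Nxt u n b' d := by
  induction hm : c - b using Nat.strong_induction_on generalizing b with
  | _ m ih =>
    by_cases hex : ∃ e, 0 < e ∧ e < c - b ∧ Agr u n (b + e) b
    · obtain ⟨e, he1, he2, he3⟩ := hex
      exact ih (c - (b + e)) (by omega) (by omega) (he3.trans hag) rfl
    · push Not at hex
      refine ⟨b, c - b, by omega, by omega, ?_, hex⟩
      rw [show b + (c - b) = c by omega]
      exact hag.symm

/-- under the assumption that all return times are larger than `1.2 N`, the return times of right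
special words are not too large either -/
lemma gap_lemma (h : Hyp u lam n0) {N1 N : ℕ}
    (hS : ∀ N, N1 ≤ N → ∀ i r : ℕ, 0 < r → Agr u N (i + r) i → (1.2 : ℝ) * N < r)
    (hN1 : N1 ≤ N) (hn0 : n0 ≤ N) (h100 : 100 ≤ N)
    {c b z1 z2 d2 : ℕ} (hb : b < c) (hbc : Agr u N b c)
    (hz1 : Agr u N z1 c) (hz2 : Agr u N z2 c) (hz : u (z1 + N) ≠ u (z2 + N))
    (hd2 : Nxt u N c d2) : (d2 : ℝ) ≤ lam * (N + 1) + 1 - 1.2 * N := by
  obtain ⟨b', d1, hb', hd1⟩ := exists_prev hb hbc
  obtain ⟨d3, hd3, -⟩ := h.next hn0 (c + d2)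
  have hl3 := h.l3
  have hN : (100 : ℝ) ≤ N := by exact_mod_cast h100
  have g1 := hS N hN1 b' d1 hd1.1 hd1.2.1
  have g2 := hS N hN1 c d2 hd2.1 hd2.2.1
  have g3 := hS N hN1 (c + d2) d3 hd3.1 hd3.2.1
  have hb'c : Agr u N b' c := by
    have := hd1.2.1
    rw [hb'] at this
    exact this.symm
  have hcc : Agr u N (c + d2) c := hd2.2.1
  -- the letters after the occurrences c and c + d2 differ
  have hne : u (c + N) ≠ u (c + d2 + N) := by
    intro heq
    obtain ⟨z, hz', hzne⟩ : ∃ z, Agr u N z c ∧ u (z + N) ≠ u (c + N) := by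
      by_cases h1 : u (z1 + N) = u (c + N)
      · exact ⟨z2, hz2, fun h2 => hz (h1.trans h2.symm)⟩
      · exact ⟨z1, hz1, h1⟩
    obtain ⟨t, ht1, ht2⟩ := h.win (N + 1) (by omega) z (b' + 1)
    have ha : Agr u N (b' + 1 + t) c := (ht2.mono (by omega)).trans hz'
    have hl : u (b' + 1 + t + N) = u (z + N) := ht2 N (by omega)
    -- position m = b' + 1 + t
    have hge : d1 + d2 + d3 ≤ 1 + t := by
      by_contra hlt
      push Not at hlt
      rcases lt_trichotomy (1 + t) d1 with h1 | h1 | h1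
      · apply hd1.2.2 (1 + t) (by omega) h1
        rw [← add_assoc]
        exact ha.trans hb'c.symm
      · apply hzne
        rw [← hl]
        congr 1
        omega
      · rcases lt_trichotomy (1 + t) (d1 + d2) with h2 | h2 | h2
        · apply hd2.2.2 (1 + t - d1) (by omega) (by omega)
          rw [show c + (1 + t - d1) = b' + 1 + t by omega]
          exact ha
        · apply hzne
          rw [← hl, heq]
          congr 1
          omega
        · apply hd3.2.2 (1 + t - d1 - d2) (by omega) (by omega)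
          rw [show c + d2 + (1 + t - d1 - d2) = b' + 1 + t by omega]
          exact ha.trans hcc.symm
    have hge' : (d1 : ℝ) + d2 + d3 ≤ 1 + t := by exact_mod_cast hge
    push_cast at ht1
    nlinarith
  obtain ⟨t, ht1, ht2⟩ := h.win (N + 1) (by omega) c (c + 1)
  have ha : Agr u N (c + 1 + t) c := ht2.mono (by omega)
  have hl : u (c + 1 + t + N) = u (c + N) := ht2 N (by omega)
  have hge : d2 + d3 ≤ 1 + t := by
    by_contra hlt
    push Not at hlt
    rcases lt_trichotomy (1 + t) d2 with h2 | h2 | h2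
    · apply hd2.2.2 (1 + t) (by omega) h2
      rw [← add_assoc]
      exact ha
    · apply hne
      rw [← hl]
      congr 1
      omega
    · apply hd3.2.2 (1 + t - d2) (by omega) (by omega)
      rw [show c + d2 + (1 + t - d2) = c + 1 + t by omega]
      exact ha.trans hcc.symm
  have hge' : (d2 : ℝ) + d3 ≤ 1 + t := by exact_mod_cast hge
  push_cast at ht1
  linarith

/-- there are arbitrarily long factors with a return time at most `1.2` times their length -/
lemma short_return (h : Hyp u lam n0) (N1 : ℕ) :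
    ∃ N, N1 ≤ N ∧ ∃ i r : ℕ, 0 < r ∧ (r : ℝ) ≤ 1.2 * N ∧ Agr u N (i + r) i := by
  by_contra hcon
  push Not at hcon
  have hS : ∀ N, N1 ≤ N → ∀ i r : ℕ, 0 < r → Agr u N (i + r) i → (1.2 : ℝ) * N < r := by
    intro N hN i r hr hag
    by_contra hle
    push Not at hle
    exact hcon N hN i r hr hle hag
  obtain ⟨m, hm⟩ : ∃ m, m = N1 + n0 + 100 := ⟨_, rfl⟩
  obtain ⟨i0, j0, hag, hne⟩ := h.exists_rs (3 * m)
  obtain ⟨e1, he1, -⟩ := h.next (n := 3 * m) (by omega) i0
  obtain ⟨e2, he2, -⟩ := h.next (n := 3 * m) (by omega) (i0 + e1)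
  have hi1 : Agr u (3 * m) i0 (i0 + e1) := he1.2.1.symm
  have U2 := gap_lemma h hS (N := 3 * m) (by omega) (by omega) (by omega)
    (c := i0 + e1) (b := i0) (z1 := i0) (z2 := j0) (d2 := e2) (by have := he1.1; omega) hi1 hi1
    (hag.symm.trans hi1) hne he2
  have L2 := hS (3 * m) (by omega) (i0 + e1) e2 he2.1 he2.2.1
  -- suffix of length 2m
  obtain ⟨d, hd, -⟩ := h.next (n := 2 * m) (by omega) (i0 + e1 + m)
  have hs1 : Agr u (2 * m) (i0 + m) (i0 + e1 + m) := hi1.shift m (2 * m) (by omega)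
  have hs2 : Agr u (2 * m) (j0 + m) (i0 + e1 + m) :=
    (hag.symm.trans hi1).shift m (2 * m) (by omega)
  have U1 := gap_lemma h hS (N := 2 * m) (by omega) (by omega) (by omega)
    (c := i0 + e1 + m) (b := i0 + m) (z1 := i0 + m) (z2 := j0 + m) (d2 := d)
    (by have := he1.1; omega) hs1 hs1 hs2
    (by
      rw [show i0 + m + 2 * m = i0 + 3 * m by ring, show j0 + m + 2 * m = j0 + 3 * m by ring]
      exact hne) hd
  have L1 := hS (2 * m) (by omega) (i0 + e1 + m) d hd.1 hd.2.1
  have hlong : Agr u (2 * m) (i0 + e1 + m + e2) (i0 + e1 + m) := by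
    have := he2.2.1.shift m (2 * m) (by omega)
    rw [show i0 + e1 + m + e2 = i0 + e1 + e2 + m by ring]
    exact this
  have hl3 := h.l3
  have hm100 : (100 : ℝ) ≤ m := by
    have : 100 ≤ m := by omega
    exact_mod_cast this
  push_cast at U1 U2 L1 L2
  rcases lt_trichotomy e2 d with h1 | h1 | h1
  · exact hd.2.2 e2 he2.1 h1 hlong
  · subst h1
    nlinarith
  · have hag2 : Agr u (2 * m) (i0 + e1 + m + d + (e2 - d)) (i0 + e1 + m + d) := by
      rw [show i0 + e1 + m + d + (e2 - d) = i0 + e1 + m + e2 by omega]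
      exact hlong.trans hd.2.1.symm
    have L3 := hS (2 * m) (by omega) (i0 + e1 + m + d) (e2 - d) (by omega) hag2
    have e : ((e2 - d : ℕ) : ℝ) = e2 - d := by
      rw [Nat.cast_sub (by omega)]
    rw [e] at L3
    push_cast at L3
    nlinarith

/-- counting in a window that contains a repetition -/
lemma window_count (h : Hyp u lam n0) {N n i r : ℕ} (hr : 0 < r) (hag : Agr u N (i + r) i)
    (hnN : n ≤ N) (hn0 : n0 ≤ n) :
    cpx u n ≤ r + ((⌊lam * n⌋₊ + 1) - (r + (N - n) + 1)) := by
  classical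
  obtain ⟨g, hg⟩ : ∃ g, g = ⌊lam * n⌋₊ + 1 := ⟨_, rfl⟩
  rw [← hg]
  let T : Finset ℕ := Finset.Ico i (i + r) ∪ Finset.Ico (i + (r + (N - n) + 1)) (i + g)
  have hcov : ∀ t, t < g → ∃ s ∈ T, W u n (i + t) = W u n s := by
    intro t
    induction t using Nat.strong_induction_on with
    | _ t ih =>
      intro ht
      by_cases h1 : t < r
      · refine ⟨i + t, ?_, rfl⟩
        simp only [T, Finset.mem_union, Finset.mem_Ico]
        left; omega
      · by_cases h2 : r + (N - n) + 1 ≤ t
        · refine ⟨i + t, ?_, rfl⟩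
          simp only [T, Finset.mem_union, Finset.mem_Ico]
          right; omega
        · obtain ⟨s, hs1, hs2⟩ := ih (t - r) (by omega) (by omega)
          refine ⟨s, hs1, ?_⟩
          rw [← hs2]
          apply W_eq_iff.mpr
          have := hag.shift (t - r) n (by omega)
          rw [show i + r + (t - r) = i + t by omega] at this
          exact this
  have hsub : Set.range (W u n) ⊆ (W u n) '' (T : Set ℕ) := by
    rintro _ ⟨x, rfl⟩
    obtain ⟨t, ht1, ht2⟩ := h.win n hn0 x i
    have htg : t < g := by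
      rw [hg]
      have : t ≤ ⌊lam * n⌋₊ := Nat.le_floor ht1
      omega
    obtain ⟨s, hs1, hs2⟩ := hcov t htg
    refine ⟨s, hs1, ?_⟩
    rw [← hs2]
    exact W_eq_iff.mpr ht2
  have h1 := Set.ncard_le_ncard hsub (T.finite_toSet.image _)
  have h2 := Set.ncard_image_le (f := W u n) T.finite_toSet
  rw [Set.ncard_coe_finset] at h2
  have h3 : T.card ≤ r + (g - (r + (N - n) + 1)) := by
    refine (Finset.card_union_le _ _).trans ?_
    rw [Nat.card_Ico, Nat.card_Ico]
    omega
  unfold cpx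
  omega

lemma caseA (h : Hyp u lam n0) (n1 : ℕ) (hA : ∀ n, n1 ≤ n → cpx u n + 2 ≤ cpx u (n + 1)) :
    False := by
  have hp : ∀ m, 2 * m ≤ cpx u (n1 + m) := by
    intro m
    induction m with
    | zero => omega
    | succ m ih =>
      have := hA (n1 + m) (by omega)
      rw [← add_assoc]
      omega
  have hl3 := h.l3
  have hl1 := h.l1
  -- choose N large
  obtain ⟨N, hN, i, r, hr, hr2, hag⟩ := short_return h (10 * n0 + 1000 * n1 + 1000)
  obtain ⟨n, hn⟩ : ∃ n, n = n1 + (r / 2 + 1) := ⟨_, rfl⟩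
  have hNr : (10 * n0 + 1000 * n1 + 1000 : ℝ) ≤ N := by exact_mod_cast hN
  have hn1r : (0 : ℝ) ≤ n1 := Nat.cast_nonneg _
  have hn0r : (0 : ℝ) ≤ n0 := Nat.cast_nonneg _
  have hnr : (n : ℝ) ≤ r / 2 + n1 + 1 := by
    rw [hn]; push_cast
    have : ((r / 2 : ℕ) : ℝ) ≤ (r : ℝ) / 2 := by
      rw [le_div_iff₀ (by norm_num)]
      have : r / 2 * 2 ≤ r := Nat.div_mul_le_self r 2
      exact_mod_cast this
    linarith
  have hnN : n ≤ N := by
    have : (n : ℝ) ≤ N := by linarith
    exact_mod_cast this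
  have hrun := h.run' hr hag (by nlinarith)
  have hrn0 : 2 * n0 ≤ r := by
    have : (2 * n0 : ℝ) ≤ r := by nlinarith
    exact_mod_cast this
  have hnn0 : n0 ≤ n := by omega
  have hwc := window_count h hr hag hnN hnn0
  have hpn : 2 * (r / 2 + 1) ≤ cpx u n := by
    rw [hn]; exact hp _
  obtain ⟨f, hf⟩ : ∃ f, f = ⌊lam * n⌋₊ := ⟨_, rfl⟩
  rw [← hf] at hwc
  have hfl : (f : ℝ) ≤ lam * n := by
    rw [hf]
    exact Nat.floor_le (by positivity)
  have hkey : 2 * (r / 2 + 1) + (N - n) ≤ f := by omega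
  have hkey2 : 2 * n + N ≤ f + n + 2 * n1 := by omega
  have hkey3 : (2 : ℝ) * n + N ≤ f + n + 2 * n1 := by exact_mod_cast hkey2
  nlinarith

end RauzyA

section RauzyB

variable {k : ℕ} {u : ℕ → Fin k} {lam : ℝ} {n0 : ℕ}

/-- a length with a single right special factor, and its two return times -/
structure Setup (u : ℕ → Fin k) (N ia ib al be : ℕ) : Prop where
  ag : Agr u N ia ib
  ne : u (ia + N) ≠ u (ib + N)
  uq : ∀ x y, Agr u N x y → u (x + N) ≠ u (y + N) →
    Agr u N x ia ∧ (u (x + N) = u (ia + N) ∨ u (x + N) = u (ib + N))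
  nal : Nxt u N ia al
  nbe : Nxt u N ib be

lemma Hyp.mkSetup (h : Hyp u lam n0) {N ia ib : ℕ} (hN : n0 ≤ N)
    (hc : cpx u (N + 1) ≤ cpx u N + 1) (ag : Agr u N ia ib) (ne : u (ia + N) ≠ u (ib + N)) :
    ∃ al be, Setup u N ia ib al be := by
  obtain ⟨al, hal, -⟩ := h.next hN ia
  obtain ⟨be, hbe, -⟩ := h.next hN ib
  refine ⟨al, be, ag, ne, ?_, hal, hbe⟩
  intro x y hxy hne
  have hWne : W u (N + 1) ia ≠ W u (N + 1) ib := fun he => ne (W_eq_iff.mp he N (by omega))
  have hWne' : W u (N + 1) x ≠ W u (N + 1) y := fun he => hne (W_eq_iff.mp he N (by omega))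
  have h1 := uniq_lem (Set.toFinite _) (res N) (surj_res (u := u) N) (maps_res N) hc
    (x := W u (N + 1) ia) (y := W u (N + 1) ib) ⟨ia, rfl⟩ ⟨ib, rfl⟩ hWne
    (by rw [res_W, res_W]; exact W_eq_iff.mpr ag)
    (x' := W u (N + 1) x) (y' := W u (N + 1) y) ⟨x, rfl⟩ ⟨y, rfl⟩ hWne'
    (by rw [res_W, res_W]; exact W_eq_iff.mpr hxy)
  have h2 := uniq_lem (Set.toFinite _) (res N) (surj_res (u := u) N) (maps_res N) hc
    (x := W u (N + 1) ib) (y := W u (N + 1) ia) ⟨ib, rfl⟩ ⟨ia, rfl⟩ hWne.symm
    (by rw [res_W, res_W]; exact W_eq_iff.mpr ag.symm)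
    (x' := W u (N + 1) x) (y' := W u (N + 1) y) ⟨x, rfl⟩ ⟨y, rfl⟩ hWne'
    (by rw [res_W, res_W]; exact W_eq_iff.mpr hxy)
  rw [W_eq_iff, W_eq_iff] at h1 h2
  rcases h1 with h1 | h1
  · exact ⟨(h1.mono (by omega)).trans ag.symm, Or.inr (h1 N (by omega))⟩
  · rcases h2 with h2 | h2
    · exact ⟨h2.mono (by omega), Or.inl (h2 N (by omega))⟩
    · exfalso
      exact ne ((h2 N (by omega)).symm.trans (h1 N (by omega)))

lemma Nxt.unique {n i d d' : ℕ} (h : Nxt u n i d) (h' : Nxt u n i d') : d = d' := by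
  rcases lt_trichotomy d d' with h1 | h1 | h1
  · exact absurd h.2.1 (h'.2.2 d h.1 h1)
  · exact h1
  · exact absurd h'.2.1 (h.2.2 d' h'.1 h1)

variable {N ia ib al be : ℕ}

lemma Setup.det (S : Setup u N ia ib al be) {x y : ℕ} (hxy : Agr u N x y)
    (hx : ¬ Agr u N x ia) : u (x + N) = u (y + N) := by
  by_contra hne
  exact hx (S.uq x y hxy hne).1

lemma Setup.two (S : Setup u N ia ib al be) {x : ℕ} (hx : Agr u N x ia) :
    Agr u (N + 1) x ia ∨ Agr u (N + 1) x ib := by
  by_cases h1 : u (x + N) = u (ia + N)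
  · exact Or.inl (hx.succ h1)
  · rcases (S.uq x ia hx h1).2 with h2 | h2
    · exact absurd h2 h1
    · exact Or.inr ((hx.trans S.ag).succ h2)

lemma Setup.coal (S : Setup u N ia ib al be) {p q m : ℕ} (hpq : Agr u N p q)
    (hno : ∀ s < m, ¬ Agr u N (p + s) ia) : Agr u (N + m) p q := by
  induction m with
  | zero => exact hpq
  | succ m ih =>
    have h1 := ih (fun s hs => hno s (by omega))
    have h2 := h1.shift m N (by omega)
    have h3 := S.det h2 (hno m (by omega))
    apply h1.succ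
    rw [show p + (N + m) = p + m + N by ring, show q + (N + m) = q + m + N by ring]
    exact h3

lemma Setup.follow (S : Setup u N ia ib al be) {x y d : ℕ} (hxy : Agr u (N + 1) x y)
    (hx : Agr u N x ia) (hd : Nxt u N x d) : Agr u (N + d) y x ∧ Nxt u N y d := by
  have h0 := hd.1
  have h1 : Agr u (N + (d - 1)) (x + 1) (y + 1) := by
    apply S.coal (hxy.shift 1 N (by omega))
    intro s hs hag
    apply hd.2.2 (1 + s) (by omega) (by omega)
    rw [← add_assoc]
    exact hag.trans hx.symm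
  have h2 : Agr u (N + d) y x := by
    intro l hl
    rcases Nat.eq_zero_or_pos l with hl0 | hl0
    · subst hl0
      exact (hxy 0 (by omega)).symm
    · have := h1 (l - 1) (by omega)
      rw [show x + 1 + (l - 1) = x + l by omega, show y + 1 + (l - 1) = y + l by omega] at this
      exact this.symm
  refine ⟨h2, h0, ?_, ?_⟩
  · exact (h2.shift d N (by omega)).trans (hd.2.1.trans (h2.mono (by omega)).symm)
  · intro e he1 he2 hag
    apply hd.2.2 e he1 he2
    exact (h2.shift e N (by omega)).symm.trans (hag.trans (h2.mono (by omega)))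

lemma Setup.typeA (S : Setup u N ia ib al be) {x : ℕ} (hx : Agr u (N + 1) x ia) :
    Agr u (N + al) x ia ∧ Nxt u N x al :=
  S.follow hx.symm (Agr.refl _ _) S.nal

lemma Setup.typeB (S : Setup u N ia ib al be) {x : ℕ} (hx : Agr u (N + 1) x ib) :
    Agr u (N + be) x ib ∧ Nxt u N x be :=
  S.follow hx.symm S.ag.symm S.nbe

lemma Setup.notAB (S : Setup u N ia ib al be) {x : ℕ} (hx : Agr u (N + 1) x ia)
    (hx' : Agr u (N + 1) x ib) : False :=
  S.ne ((hx N (by omega)).symm.trans (hx' N (by omega)))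

open Classical in
/-- next occurrence of the special factor -/
noncomputable def nx (u : ℕ → Fin k) (N ia al be x : ℕ) : ℕ :=
  if Agr u (N + 1) x ia then x + al else x + be

lemma Setup.nxt_nx (S : Setup u N ia ib al be) {x : ℕ} (hx : Agr u N x ia) :
    ∃ d, nx u N ia al be x = x + d ∧ Nxt u N x d := by
  unfold nx
  split_ifs with h1
  · exact ⟨al, rfl, (S.typeA h1).2⟩
  · exact ⟨be, rfl, (S.typeB ((S.two hx).resolve_left h1)).2⟩

lemma Setup.nx_occ (S : Setup u N ia ib al be) {x : ℕ} (hx : Agr u N x ia) :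
    Agr u N (nx u N ia al be x) ia := by
  obtain ⟨d, hd1, hd2⟩ := S.nxt_nx hx
  rw [hd1]
  exact hd2.2.1.trans hx

lemma Setup.lt_nx (S : Setup u N ia ib al be) {x : ℕ} (hx : Agr u N x ia) :
    x < nx u N ia al be x := by
  obtain ⟨d, hd1, hd2⟩ := S.nxt_nx hx
  have := hd2.1
  omega

lemma Setup.nx_le (S : Setup u N ia ib al be) {x m : ℕ} (hx : Agr u N x ia)
    (hm : Agr u N m ia) (hxm : x < m) : nx u N ia al be x ≤ m := by
  obtain ⟨d, hd1, hd2⟩ := S.nxt_nx hx
  rw [hd1]
  by_contra hlt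
  push Not at hlt
  apply hd2.2.2 (m - x) (by omega) (by omega)
  rw [show x + (m - x) = m by omega]
  exact hm.trans hx.symm

lemma Setup.prev (S : Setup u N ia ib al be) {b m : ℕ} (hb : Agr u N b ia)
    (hm : Agr u N m ia) (hbm : b < m) : ∃ x, Agr u N x ia ∧ nx u N ia al be x = m := by
  obtain ⟨b', d, h1, h2⟩ := exists_prev hbm (hb.trans hm.symm)
  have hb' : Agr u N b' ia := by
    have := h2.2.1
    rw [h1] at this
    exact this.symm.trans hm
  refine ⟨b', hb', ?_⟩
  obtain ⟨d', hd1, hd2⟩ := S.nxt_nx hb'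
  rw [hd1, hd2.unique h2, h1]

/-- the letter before the next occurrence -/
lemma Setup.beforeA (S : Setup u N ia ib al be) {x : ℕ} (hx : Agr u (N + 1) x ia) :
    nx u N ia al be x = x + al ∧ u (x + al - 1) = u (ia + al - 1) := by
  have h1 := S.nal.1
  refine ⟨by unfold nx; rw [if_pos hx], ?_⟩
  have := (S.typeA hx).1 (al - 1) (by omega)
  rw [show x + al - 1 = x + (al - 1) by omega, show ia + al - 1 = ia + (al - 1) by omega]
  exact this

lemma Setup.beforeB (S : Setup u N ia ib al be) {x : ℕ} (hx : Agr u (N + 1) x ib) :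
    nx u N ia al be x = x + be ∧ u (x + be - 1) = u (ib + be - 1) := by
  have h1 := S.nbe.1
  refine ⟨by unfold nx; rw [if_neg (fun h => S.notAB h hx)], ?_⟩
  have := (S.typeB hx).1 (be - 1) (by omega)
  rw [show x + be - 1 = x + (be - 1) by omega, show ib + be - 1 = ib + (be - 1) by omega]
  exact this

/-- the sequence of occurrences -/
noncomputable def occ (u : ℕ → Fin k) (N ia al be y0 : ℕ) : ℕ → ℕ
  | 0 => y0
  | (i + 1) => nx u N ia al be (occ u N ia al be y0 i)

lemma Setup.occ_occ (S : Setup u N ia ib al be) {y0 : ℕ} (h0 : Agr u N y0 ia) (i : ℕ) :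
    Agr u N (occ u N ia al be y0 i) ia := by
  induction i with
  | zero => exact h0
  | succ i ih => exact S.nx_occ ih

lemma Setup.occ_lt (S : Setup u N ia ib al be) {y0 : ℕ} (h0 : Agr u N y0 ia) (i : ℕ) :
    occ u N ia al be y0 i < occ u N ia al be y0 (i + 1) :=
  S.lt_nx (S.occ_occ h0 i)

/-- eventually periodic type sequence is impossible -/
lemma Setup.perSeq (S : Setup u N ia ib al be) (h : Hyp u lam n0) {y0 : ℕ}
    (h0 : Agr u N y0 ia) (K c : ℕ) (hc : 0 < c)
    (hT : ∀ i, K ≤ i → (Agr u (N + 1) (occ u N ia al be y0 (i + c)) ia ↔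
      Agr u (N + 1) (occ u N ia al be y0 i) ia)) : False := by
  classical
  obtain ⟨y, hy⟩ : ∃ y, y = occ u N ia al be y0 := ⟨_, rfl⟩
  rw [← hy] at hT
  have hocc : ∀ i, Agr u N (y i) ia := by rw [hy]; exact S.occ_occ h0
  have hlt : ∀ i, y i < y (i + 1) := by rw [hy]; exact S.occ_lt h0
  have hnx : ∀ i, y (i + 1) = nx u N ia al be (y i) := by rw [hy]; intro i; rfl
  have hmono : StrictMono y := strictMono_nat_of_lt_succ hlt
  obtain ⟨P, hP⟩ : ∃ P, P = y (K + c) - y K := ⟨_, rfl⟩
  have hKc : y K < y (K + c) := hmono (by omega)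
  have hshift : ∀ j, y (K + j + c) = y (K + j) + P := by
    intro j
    induction j with
    | zero =>
      simp only [add_zero]
      omega
    | succ j ih =>
      have e1 : K + (j + 1) + c = K + j + c + 1 := by ring
      have e2 : K + (j + 1) = K + j + 1 := by ring
      rw [e1, e2, hnx, hnx]
      have hiff := hT (K + j) (by omega)
      unfold nx
      by_cases h1 : Agr u (N + 1) (y (K + j)) ia
      · rw [if_pos (hiff.mpr h1), if_pos h1]
        omega
      · rw [if_neg (fun h2 => h1 (hiff.mp h2)), if_neg h1]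
        omega
  apply h.evper (M := y K) (P := P) (by omega)
  intro z hz
  -- find the block containing z
  have hex : ∃ j, z < y (K + j + 1) := ⟨z, by
    have := hmono.id_le (K + z + 1)
    simp only [id] at this
    omega⟩
  obtain ⟨j, hj1, hj2⟩ : ∃ j, y (K + j) ≤ z ∧ z < y (K + j + 1) := by
    refine ⟨Nat.find hex, ?_, Nat.find_spec hex⟩
    rcases Nat.eq_zero_or_pos (Nat.find hex) with h1 | h1
    · rw [h1]; exact hz
    · have := Nat.find_min hex (m := Nat.find hex - 1) (by omega)
      push Not at this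
      rw [show K + (Nat.find hex - 1) + 1 = K + Nat.find hex by omega] at this
      exact this
  have hiff := hT (K + j) (by omega)
  rw [hshift] at hiff
  rw [hnx] at hj2
  obtain ⟨l, hl⟩ : ∃ l, z = y (K + j) + l := ⟨z - y (K + j), by omega⟩
  by_cases h1 : Agr u (N + 1) (y (K + j)) ia
  · have h2 := hiff.mpr h1
    have h3 := (S.typeA h1).1
    have h4 := (S.typeA h2).1
    rw [(S.beforeA h1).1] at hj2
    rw [hl, show y (K + j) + l + P = y (K + j) + P + l by ring]
    rw [h4 l (by omega), h3 l (by omega)]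
  · have h1' := (S.two (hocc (K + j))).resolve_left h1
    have h2 : ¬ Agr u (N + 1) (y (K + j) + P) ia := fun h2 => h1 (hiff.mp h2)
    have hocc2 : Agr u N (y (K + j) + P) ia := by rw [← hshift]; exact hocc _
    have h2' := (S.two hocc2).resolve_left h2
    have h3 := (S.typeB h1').1
    have h4 := (S.typeB h2').1
    rw [(S.beforeB h1').1] at hj2
    rw [hl, show y (K + j) + l + P = y (K + j) + P + l by ring]
    rw [h4 l (by omega), h3 l (by omega)]

/-- a far copy of a factor -/
lemma Hyp.far (h : Hyp u lam n0) {n : ℕ} (hn : n0 ≤ n) (p K : ℕ) :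
    ∃ p', K ≤ p' ∧ Agr u n p' p := by
  obtain ⟨t, -, ht⟩ := h.win n hn p K
  exact ⟨K + t, by omega, ht⟩

/-- the letter before an occurrence is one of two letters -/
lemma Setup.before (S : Setup u N ia ib al be) (h : Hyp u lam n0) (hN : n0 ≤ N) {p : ℕ}
    (hp : Agr u N (p + 1) ia) : u p = u (ia + al - 1) ∨ u p = u (ib + be - 1) := by
  obtain ⟨p', hp1, hp2⟩ := h.far (n := N + 1) (by omega) p ia
  have hocc : Agr u N (p' + 1) ia := (hp2.shift 1 N (by omega)).trans hp
  obtain ⟨x, hx1, hx2⟩ := S.prev (Agr.refl _ _) hocc (by omega)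
  have hup : u p' = u p := hp2 0 (by omega)
  rcases S.two hx1 with h1 | h1
  · have h2 := S.beforeA h1
    left
    rw [← h2.2, ← hup]
    congr 1
    omega
  · have h2 := S.beforeB h1
    right
    rw [← h2.2, ← hup]
    congr 1
    omega

/-- a double return of the first kind -/
lemma Setup.runA (S : Setup u N ia ib al be) (h : Hyp u lam n0) {x : ℕ}
    (h1 : Agr u (N + 1) x ia) (h2 : Agr u (N + 1) (x + al) ia) (hN : lam * n0 < N) :
    (N : ℝ) + al ≤ lam * (al + 1) := by
  have h3 := (S.typeA h1).1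
  have h4 := (S.typeA h2).1
  have := h.run' (q := x) (d := al) (L := N + al) S.nal.1 (h4.trans h3.symm) (by
    push_cast
    have : (0 : ℝ) ≤ al := Nat.cast_nonneg _
    linarith)
  push_cast at this
  exact this

lemma Setup.runB (S : Setup u N ia ib al be) (h : Hyp u lam n0) {x : ℕ}
    (h1 : Agr u (N + 1) x ib) (h2 : Agr u (N + 1) (x + be) ib) (hN : lam * n0 < N) :
    (N : ℝ) + be ≤ lam * (be + 1) := by
  have h3 := (S.typeB h1).1
  have h4 := (S.typeB h2).1
  have := h.run' (q := x) (d := be) (L := N + be) S.nbe.1 (h4.trans h3.symm) (by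
    push_cast
    have : (0 : ℝ) ≤ be := Nat.cast_nonneg _
    linarith)
  push_cast at this
  exact this

end RauzyB

section RauzyC

variable {k : ℕ} {u : ℕ → Fin k} {lam : ℝ} {n0 : ℕ}
variable {N ia ib al be : ℕ}

/-- no repetition inside a return -/
lemma Setup.inj_run (S : Setup u N ia ib al be) {i d : ℕ} (hi : Agr u N i ia) (hd : Nxt u N i d)
    {t t' : ℕ} (htt : t < t') (ht' : t' < d) : ¬ Agr u N (i + t) (i + t') := by
  intro hag
  rcases Nat.eq_zero_or_pos t with h0 | h0
  · subst h0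
    exact hd.2.2 t' (by omega) ht' hag.symm
  · have h1 : Agr u (N + (d - t')) (i + t') (i + t) := by
      apply S.coal hag.symm
      intro s hs hag2
      apply hd.2.2 (t' + s) (by omega) (by omega)
      rw [← add_assoc]
      exact hag2.trans hi.symm
    have h2 := h1.shift (d - t') N (by omega)
    rw [show i + t' + (d - t') = i + d by omega,
      show i + t + (d - t') = i + (t + (d - t')) by omega] at h2
    exact hd.2.2 (t + (d - t')) (by omega) (by omega) (h2.symm.trans hd.2.1)

/-- the two loops are disjoint -/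
lemma Setup.inj_cross (S : Setup u N ia ib al be) (hN : 0 < N)
    (hls : u (ia + al - 1) ≠ u (ib + be - 1))
    {t s : ℕ} (ht : t < al) (hs0 : 0 < s) (hs : s < be) : ¬ Agr u N (ia + t) (ib + s) := by
  intro hag
  rcases Nat.eq_zero_or_pos t with h0 | h0
  · subst h0
    exact S.nbe.2.2 s hs0 hs (hag.symm.trans S.ag)
  · rcases le_total (al - t) (be - s) with hle | hle
    · have h1 : Agr u (N + (al - t)) (ia + t) (ib + s) := by
        apply S.coal hag
        intro r hr hag2
        apply S.nal.2.2 (t + r) (by omega) (by omega)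
        rw [← add_assoc]
        exact hag2
      have h2 := h1.shift (al - t) N (by omega)
      rw [show ia + t + (al - t) = ia + al by omega] at h2
      have h3 : Agr u N (ib + (s + (al - t))) ib := by
        rw [← add_assoc]
        exact h2.symm.trans (S.nal.2.1.trans S.ag)
      have h4 : s + (al - t) = be := by
        by_contra hne
        exact S.nbe.2.2 (s + (al - t)) (by omega) (by omega) h3
      have h5 := h1 (al - t - 1) (by omega)
      apply hls
      rw [show ia + al - 1 = ia + t + (al - t - 1) by omega, h5]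
      congr 1
      omega
    · have h1 : Agr u (N + (be - s)) (ib + s) (ia + t) := by
        apply S.coal hag.symm
        intro r hr hag2
        apply S.nbe.2.2 (s + r) (by omega) (by omega)
        rw [← add_assoc]
        exact hag2.trans S.ag
      have h2 := h1.shift (be - s) N (by omega)
      rw [show ib + s + (be - s) = ib + be by omega] at h2
      have h3 : Agr u N (ia + (t + (be - s))) ia := by
        rw [← add_assoc]
        exact h2.symm.trans (S.nbe.2.1.trans S.ag.symm)
      have h4 : t + (be - s) = al := by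
        by_contra hne
        exact S.nal.2.2 (t + (be - s)) (by omega) (by omega) h3
      have h5 := h1 (be - s - 1) (by omega)
      apply hls
      rw [show ib + be - 1 = ib + s + (be - s - 1) by omega, h5]
      congr 1
      omega

lemma Setup.count (S : Setup u N ia ib al be) (hN : 0 < N)
    (hls : u (ia + al - 1) ≠ u (ib + be - 1)) : al + be - 1 ≤ cpx u N := by
  have h1 := S.nal.1
  have h2 := S.nbe.1
  unfold cpx
  apply Set.le_ncard_of_inj_on_range
    (fun t => if t < al then W u N (ia + t) else W u N (ib + (t - al + 1)))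
  · intro t ht
    split_ifs
    · exact ⟨_, rfl⟩
    · exact ⟨_, rfl⟩
  · have key : ∀ t t', t < t' → t' < al + be - 1 →
        (if t < al then W u N (ia + t) else W u N (ib + (t - al + 1))) ≠
        (if t' < al then W u N (ia + t') else W u N (ib + (t' - al + 1))) := by
      intro t t' htt ht'
      by_cases ha : t < al
      · by_cases hb : t' < al
        · rw [if_pos ha, if_pos hb, Ne, W_eq_iff]
          exact S.inj_run (Agr.refl _ _) S.nal htt hb
        · rw [if_pos ha, if_neg hb, Ne, W_eq_iff]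
          exact S.inj_cross hN hls ha (by omega) (by omega)
      · rw [if_neg ha, if_neg (by omega), Ne, W_eq_iff]
        exact S.inj_run S.ag.symm S.nbe (by omega) (by omega)
    intro t ht t' ht' he
    rcases lt_trichotomy t t' with h | h | h
    · exact absurd he (key t t' h ht')
    · exact h
    · exact absurd he.symm (key t' t h ht)

/-- if neither return word is ever repeated, the sequence is eventually periodic -/
lemma Setup.alt (S : Setup u N ia ib al be) (h : Hyp u lam n0)
    (hA : ∀ x, Agr u (N + 1) x ia → ¬ Agr u (N + 1) (x + al) ia)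
    (hB : ∀ x, Agr u (N + 1) x ib → ¬ Agr u (N + 1) (x + be) ib) : False := by
  apply S.perSeq h (y0 := ia) (Agr.refl _ _) 0 2 (by omega)
  intro i _
  have hocc := S.occ_occ (y0 := ia) (Agr.refl _ _) i
  have hocc1 := S.occ_occ (y0 := ia) (Agr.refl _ _) (i + 1)
  have hocc2 := S.occ_occ (y0 := ia) (Agr.refl _ _) (i + 2)
  have e1 : occ u N ia al be ia (i + 1) = nx u N ia al be (occ u N ia al be ia i) := rfl
  have e2 : occ u N ia al be ia (i + 2) = nx u N ia al be (occ u N ia al be ia (i + 1)) := rfl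
  by_cases h1 : Agr u (N + 1) (occ u N ia al be ia i) ia
  · have h2 := hA _ h1
    rw [← (S.beforeA h1).1, ← e1] at h2
    have h3 := (S.two hocc1).resolve_left h2
    have h4 := hB _ h3
    rw [← (S.beforeB h3).1, ← e2] at h4
    have h5 := (S.two hocc2).resolve_right h4
    exact ⟨fun _ => h1, fun _ => h5⟩
  · have h1' := (S.two hocc).resolve_left h1
    have h2 := hB _ h1'
    rw [← (S.beforeB h1').1, ← e1] at h2
    have h3 := (S.two hocc1).resolve_right h2
    have h4 := hA _ h3
    rw [← (S.beforeA h3).1, ← e2] at h4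
    exact ⟨fun h5 => absurd h5 h4, fun h5 => absurd h5 h1⟩

/-- the quasi-Sturmian case -/
lemma caseC (h : Hyp u lam n0) (n1 : ℕ) (hC : ∀ n, n1 ≤ n → cpx u (n + 1) ≤ cpx u n + 1) :
    False := by
  have hl1 := h.l1
  have hl2 := h.l2
  have hl3 := h.l3
  -- linear bound
  have hp : ∀ m, cpx u (n1 + m) ≤ cpx u n1 + m := by
    intro m
    induction m with
    | zero => simp
    | succ m ih =>
      have := hC (n1 + m) (by omega)
      rw [← add_assoc]
      omega
  obtain ⟨C, hCdef⟩ : ∃ C, C = cpx u n1 + 1 := ⟨_, rfl⟩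
  obtain ⟨eta, heta⟩ : ∃ eta : ℝ, eta = 3 * lam - 1 - lam ^ 2 := ⟨_, rfl⟩
  have hetapos : 0 < eta := by linarith
  obtain ⟨N2, hN2⟩ := exists_nat_gt ((lam * (lam - 1) * C + (2 * lam - 1) * lam) / eta)
  rw [div_lt_iff₀ hetapos] at hN2
  obtain ⟨N3, hN3⟩ : ∃ N3, N3 = N2 + n1 + 3 * n0 + 1 := ⟨_, rfl⟩
  -- a bispecial factor
  obtain ⟨y, z, hyz, hne⟩ := h.exists_ls N3
  have hyz' : y ≠ z := fun he => hne (by rw [he])
  obtain ⟨N, hNN3, hag, hnr⟩ : ∃ N, N3 ≤ N ∧ Agr u N (y + 1) (z + 1) ∧
      u (y + 1 + N) ≠ u (z + 1 + N) := by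
    by_contra hcon
    push Not at hcon
    have key : ∀ m, Agr u (N3 + m) (y + 1) (z + 1) := by
      intro m
      induction m with
      | zero => exact hyz
      | succ m ih => exact ih.succ (hcon (N3 + m) (by omega) ih)
    have hall : ∀ l, u (y + 1 + l) = u (z + 1 + l) := fun l => key (l + 1) l (by omega)
    rcases Nat.lt_or_gt_of_ne hyz' with h1 | h1
    · apply h.evper (M := y + 1) (P := z - y) (by omega)
      intro m hm
      have := hall (m - (y + 1))
      rw [show y + 1 + (m - (y + 1)) = m by omega,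
        show z + 1 + (m - (y + 1)) = m + (z - y) by omega] at this
      exact this.symm
    · apply h.evper (M := z + 1) (P := y - z) (by omega)
      intro m hm
      have := hall (m - (z + 1))
      rw [show z + 1 + (m - (z + 1)) = m by omega,
        show y + 1 + (m - (z + 1)) = m + (y - z) by omega] at this
      exact this
  obtain ⟨al, be, S⟩ := h.mkSetup (N := N) (by omega) (hC N (by omega)) hag hnr
  have hls : u (y + 1 + al - 1) ≠ u (z + 1 + be - 1) := by
    intro he
    have b1 := S.before h (by omega) (p := y) (Agr.refl _ _)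
    have b2 := S.before h (by omega) (p := z) hag.symm
    rw [he] at b1
    rw [he] at b2
    have b1' : u y = u (z + 1 + be - 1) := by rcases b1 with b | b <;> exact b
    have b2' : u z = u (z + 1 + be - 1) := by rcases b2 with b | b <;> exact b
    exact hne (b1'.trans b2'.symm)
  have hcount := S.count (by omega) hls
  have hpN : cpx u N ≤ cpx u n1 + (N - n1) := by
    have := hp (N - n1)
    rw [show n1 + (N - n1) = N by omega] at this
    exact this
  have hsum : al + be ≤ N + C := by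
    have := S.nal.1
    omega
  have hNbig : lam * n0 < N := by
    have : (3 * n0 + 1 : ℝ) ≤ N := by
      have : 3 * n0 + 1 ≤ N := by omega
      exact_mod_cast this
    have hn0r : (0 : ℝ) ≤ n0 := Nat.cast_nonneg _
    nlinarith
  have hNN2 : (N2 : ℝ) ≤ N := by
    have : N2 ≤ N := by omega
    exact_mod_cast this
  have hsum' : (al : ℝ) + be ≤ N + C := by exact_mod_cast hsum
  have r1 := h.run' (q := y + 1) (d := al) (L := N) S.nal.1 S.nal.2.1 hNbig
  have r2 := h.run' (q := z + 1) (d := be) (L := N) S.nbe.1 S.nbe.2.1 hNbig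
  have hfin : (N2 : ℝ) * eta ≤ N * eta := mul_le_mul_of_nonneg_right hNN2 hetapos.le
  by_cases hAA : ∃ x, Agr u (N + 1) x (y + 1) ∧ Agr u (N + 1) (x + al) (y + 1)
  · obtain ⟨x, hx1, hx2⟩ := hAA
    have rA := S.runA h hx1 hx2 hNbig
    have e1 : lam * (N - lam) ≤ lam * ((lam - 1) * al) :=
      mul_le_mul_of_nonneg_left (by nlinarith) (by linarith)
    have e2 : (lam - 1) * (N - lam) ≤ (lam - 1) * (lam * be) :=
      mul_le_mul_of_nonneg_left (by nlinarith) (by linarith)
    have e3 : lam * (lam - 1) * ((al : ℝ) + be) ≤ lam * (lam - 1) * (N + C) :=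
      mul_le_mul_of_nonneg_left hsum' (by nlinarith)
    rw [heta] at hfin hN2
    nlinarith
  · by_cases hBB : ∃ x, Agr u (N + 1) x (z + 1) ∧ Agr u (N + 1) (x + be) (z + 1)
    · obtain ⟨x, hx1, hx2⟩ := hBB
      have rB := S.runB h hx1 hx2 hNbig
      have e1 : lam * (N - lam) ≤ lam * ((lam - 1) * be) :=
        mul_le_mul_of_nonneg_left (by nlinarith) (by linarith)
      have e2 : (lam - 1) * (N - lam) ≤ (lam - 1) * (lam * al) :=
        mul_le_mul_of_nonneg_left (by nlinarith) (by linarith)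
      have e3 : lam * (lam - 1) * ((al : ℝ) + be) ≤ lam * (lam - 1) * (N + C) :=
        mul_le_mul_of_nonneg_left hsum' (by nlinarith)
      rw [heta] at hfin hN2
      nlinarith
    · push Not at hAA hBB
      exact S.alt h hAA hBB

end RauzyC

section RauzyD

variable {k : ℕ} {u : ℕ → Fin k} {lam : ℝ} {n0 : ℕ}
variable {N ia ib al be : ℕ}

/-- boolean core: if each block of five consecutive values contains both `tt` and `ff`, then the
sequence is periodic with period four after the first value -/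
lemma bool_core : ∀ a b c d e f g i : Bool,
    ((a && b) || (b && c) || (c && d) || (d && e)) = true →
    ((b && c) || (c && d) || (d && e) || (e && f)) = true →
    ((c && d) || (d && e) || (e && f) || (f && g)) = true →
    ((d && e) || (e && f) || (f && g) || (g && i)) = true →
    ((!a && !b) || (!b && !c) || (!c && !d) || (!d && !e)) = true →
    ((!b && !c) || (!c && !d) || (!d && !e) || (!e && !f)) = true →
    ((!c && !d) || (!d && !e) || (!e && !f) || (!f && !g)) = true →
    ((!d && !e) || (!e && !f) || (!f && !g) || (!g && !i)) = true →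
    f = b := by decide

lemma bool_seq (T : ℕ → Bool)
    (h1 : ∀ j, ((T j && T (j+1)) || (T (j+1) && T (j+2)) || (T (j+2) && T (j+3)) ||
      (T (j+3) && T (j+4))) = true)
    (h2 : ∀ j, ((!T j && !T (j+1)) || (!T (j+1) && !T (j+2)) || (!T (j+2) && !T (j+3)) ||
      (!T (j+3) && !T (j+4))) = true) (i : ℕ) (hi : 1 ≤ i) : T (i + 4) = T i := by
  obtain ⟨j, rfl⟩ : ∃ j, i = j + 1 := ⟨i - 1, by omega⟩
  have a1 := h1 j
  have a2 := h1 (j + 1)
  have a3 := h1 (j + 2)
  have a4 := h1 (j + 3)
  have b1 := h2 j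
  have b2 := h2 (j + 1)
  have b3 := h2 (j + 2)
  have b4 := h2 (j + 3)
  simp only [add_assoc, Nat.reduceAdd] at a1 a2 a3 a4 b1 b2 b3 b4 ⊢
  exact bool_core (T j) (T (j + 1)) (T (j + 2)) (T (j + 3)) (T (j + 4)) (T (j + 5)) (T (j + 6))
    (T (j + 7)) a1 a2 a3 a4 b1 b2 b3 b4

lemma Setup.occ_gap (S : Setup u N ia ib al be) {y0 : ℕ} (h0 : Agr u N y0 ia) {q : ℝ}
    (hqa : q ≤ al) (hqb : q ≤ be) (i j : ℕ) :
    (occ u N ia al be y0 i : ℝ) + j * q ≤ occ u N ia al be y0 (i + j) := by
  induction j with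
  | zero => simp
  | succ j ih =>
    have hocc := S.occ_occ h0 (i + j)
    have e1 : occ u N ia al be y0 (i + (j + 1)) = nx u N ia al be (occ u N ia al be y0 (i + j)) :=
      rfl
    rw [e1]
    rcases S.two hocc with h1 | h1
    · rw [(S.beforeA h1).1]
      push_cast
      linarith
    · rw [(S.beforeB h1).1]
      push_cast
      linarith

/-- a factor `e w a` occurs in each window of five occurrences -/
lemma Setup.window (S : Setup u N ia ib al be) (h : Hyp u lam n0) (hN : n0 ≤ N) {y0 : ℕ}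
    (h0 : Agr u N y0 ia) {q : ℝ}
    (hqa : q ≤ al) (hqb : q ≤ be) (hq : lam * (N + 2) + 1 < 5 * q) (p i : ℕ)
    (hp : Agr u N (p + 1) ia) :
    ∃ j, j < 4 ∧ u (occ u N ia al be y0 (i + j + 1) - 1) = u p ∧
      Agr u (N + 1) (occ u N ia al be y0 (i + j + 1)) (p + 1) := by
  obtain ⟨y, hy⟩ : ∃ y, y = occ u N ia al be y0 := ⟨_, rfl⟩
  have hocc : ∀ i, Agr u N (y i) ia := by rw [hy]; exact S.occ_occ h0
  have hlt : ∀ i, y i < y (i + 1) := by rw [hy]; exact S.occ_lt h0
  have hnx : ∀ i, y (i + 1) = nx u N ia al be (y i) := by rw [hy]; intro i; rfl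
  have hgap := S.occ_gap h0 hqa hqb i 5
  rw [← hy] at hgap ⊢
  obtain ⟨t, ht1, ht2⟩ := h.win (N + 2) (by omega) p (y i)
  obtain ⟨m, hm⟩ : ∃ m, m = y i + t + 1 := ⟨_, rfl⟩
  have hmo : Agr u (N + 1) m (p + 1) := by
    rw [hm]
    exact ht2.shift 1 (N + 1) (by omega)
  have hmocc : Agr u N m ia := (hmo.mono (by omega)).trans hp
  have hum : u (m - 1) = u p := by
    have := ht2 0 (by omega)
    simp only [add_zero] at this
    rw [hm, show y i + t + 1 - 1 = y i + t by omega]
    exact this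
  have hstep : ∀ j, y (i + j) < m → y (i + j + 1) ≤ m := by
    intro j hj
    rw [hnx]
    exact S.nx_le (hocc _) hmocc hj
  have hm5 : m < y (i + 5) := by
    push_cast at ht1 hgap
    have e : (m : ℝ) = y i + t + 1 := by rw [hm]; push_cast; ring
    have : (m : ℝ) < y (i + 5) := by rw [e]; linarith
    exact_mod_cast this
  have s0 := hstep 0 (by rw [add_zero]; omega)
  have fin : ∀ j, j < 4 → y (i + j + 1) = m → ∃ j, j < 4 ∧ u (y (i + j + 1) - 1) = u p ∧
      Agr u (N + 1) (y (i + j + 1)) (p + 1) := by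
    intro j hj he
    exact ⟨j, hj, by rw [he]; exact hum, by rw [he]; exact hmo⟩
  rcases Nat.lt_or_ge (y (i + 0 + 1)) m with h1 | h1
  · have s1 := hstep 1 h1
    rcases Nat.lt_or_ge (y (i + 1 + 1)) m with h2 | h2
    · have s2 := hstep 2 h2
      rcases Nat.lt_or_ge (y (i + 2 + 1)) m with h3 | h3
      · have s3 := hstep 3 h3
        rcases Nat.lt_or_ge (y (i + 3 + 1)) m with h4 | h4
        · have s4 := hstep 4 h4
          have : y (i + 4 + 1) = y (i + 5) := rfl
          omega
        · exact fin 3 (by omega) (le_antisymm s3 h4)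
      · exact fin 2 (by omega) (le_antisymm s2 h3)
    · exact fin 1 (by omega) (le_antisymm s1 h2)
  · exact fin 0 (by omega) (le_antisymm s0 h1)

/-- the strong bispecial case -/
lemma caseB (h : Hyp u lam n0) {N : ℕ} (hN : 4 * n0 + 100 ≤ N)
    (h1 : cpx u (N + 1) ≤ cpx u N + 1) (h2 : cpx u (N + 1) + 2 ≤ cpx u (N + 1 + 1)) : False := by
  classical
  have hl1 := h.l1
  have hl3 := h.l3
  obtain ⟨ia, ib, hag, hne⟩ := h.exists_rs N
  obtain ⟨al, be, S⟩ := h.mkSetup (N := N) (by omega) h1 hag hne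
  -- letters
  have hlet : ∀ x y, Agr u N x y → u (x + N) ≠ u (y + N) →
      (Agr u (N + 1) x ia ∧ Agr u (N + 1) y ib) ∨ (Agr u (N + 1) x ib ∧ Agr u (N + 1) y ia) := by
    intro x y hxy hne'
    have hx := (S.uq x y hxy hne').1
    have hy := hxy.symm.trans hx
    rcases S.two hx with a | a <;> rcases S.two hy with b | b
    · exact absurd ((a N (by omega)).trans (b N (by omega)).symm) hne'
    · exact Or.inl ⟨a, b⟩
    · exact Or.inr ⟨a, b⟩
    · exact absurd ((a N (by omega)).trans (b N (by omega)).symm) hne'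
  -- a first right special factor of length N + 1
  obtain ⟨i1, j1, hag1, hne1⟩ := h.exists_rs (N + 1)
  have hsh1 : Agr u N (i1 + 1) (j1 + 1) := hag1.shift 1 N (by omega)
  have hne1' : u (i1 + 1 + N) ≠ u (j1 + 1 + N) := by
    rw [show i1 + 1 + N = i1 + (N + 1) by ring, show j1 + 1 + N = j1 + (N + 1) by ring]
    exact hne1
  -- first pair: positions p1, p2 with the same letter before
  obtain ⟨p1, p2, hp12, hp1, hp2⟩ : ∃ p1 p2, u p1 = u p2 ∧ Agr u (N + 1) (p1 + 1) ia ∧
      Agr u (N + 1) (p2 + 1) ib := by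
    have he : u i1 = u j1 := hag1 0 (by omega)
    rcases hlet _ _ hsh1 hne1' with ⟨a, b⟩ | ⟨a, b⟩
    · exact ⟨i1, j1, he, a, b⟩
    · exact ⟨j1, i1, he.symm, b, a⟩
  -- a second right special factor of length N + 1
  obtain ⟨i2, j2, hag2, hne2, hdiff⟩ : ∃ i2 j2, Agr u (N + 1) i2 j2 ∧
      u (i2 + (N + 1)) ≠ u (j2 + (N + 1)) ∧ u i2 ≠ u p1 := by
    by_contra hcon
    push Not at hcon
    have hup : cpx u (N + 1 + 1) ≤ cpx u (N + 1) + 1 := by
      apply upper_lem (Set.toFinite _) (Set.toFinite _) (res (N + 1)) (maps_res (N + 1))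
        (W u (N + 1 + 1) p2)
      rintro _ ⟨x, rfl⟩ _ ⟨y, rfl⟩ hxy hres
      rw [res_W, res_W, W_eq_iff] at hres
      have hne' : u (x + (N + 1)) ≠ u (y + (N + 1)) := by
        intro he
        exact hxy (W_eq_iff.mpr (hres.succ he))
      have hux : u x = u p1 := by
        by_contra hh
        exact hh (hcon x y hres hne')
      have huy : u y = u p1 := by
        rw [← hux]; exact (hres 0 (by omega)).symm
      have hsh : Agr u N (x + 1) (y + 1) := hres.shift 1 N (by omega)
      have hne'' : u (x + 1 + N) ≠ u (y + 1 + N) := by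
        rw [show x + 1 + N = x + (N + 1) by ring, show y + 1 + N = y + (N + 1) by ring]
        exact hne'
      have glue : ∀ z, u z = u p1 → Agr u (N + 1) (z + 1) ib → W u (N + 1 + 1) z = W u (N + 1 + 1) p2 := by
        intro z hz1 hz2
        apply W_eq_iff.mpr
        intro l hl
        rcases Nat.eq_zero_or_pos l with h0 | h0
        · subst h0
          simp only [add_zero]
          exact hz1.trans hp12
        · have a := (hz2.trans hp2.symm) (l - 1) (by omega)
          rw [show z + 1 + (l - 1) = z + l by omega, show p2 + 1 + (l - 1) = p2 + l by omega] at a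
          exact a
      rcases hlet _ _ hsh hne'' with ⟨a, b⟩ | ⟨a, b⟩
      · right; exact glue y huy b
      · left; exact glue x hux a
    omega
  have hsh2 : Agr u N (i2 + 1) (j2 + 1) := hag2.shift 1 N (by omega)
  have hne2' : u (i2 + 1 + N) ≠ u (j2 + 1 + N) := by
    rw [show i2 + 1 + N = i2 + (N + 1) by ring, show j2 + 1 + N = j2 + (N + 1) by ring]
    exact hne2
  obtain ⟨p3, p4, hp34, hp13, hp3, hp4⟩ : ∃ p3 p4, u p3 = u p4 ∧ u p3 ≠ u p1 ∧
      Agr u (N + 1) (p3 + 1) ia ∧ Agr u (N + 1) (p4 + 1) ib := by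
    have he : u i2 = u j2 := hag2 0 (by omega)
    rcases hlet _ _ hsh2 hne2' with ⟨a, b⟩ | ⟨a, b⟩
    · exact ⟨i2, j2, he, hdiff, a, b⟩
    · exact ⟨j2, i2, he.symm, fun hh => hdiff (he.trans hh), b, a⟩
  -- the two letters before
  have b1 := S.before h (by omega) (p := p1) (hp1.mono (by omega))
  have b3 := S.before h (by omega) (p := p3) (hp3.mono (by omega))
  obtain ⟨ea, hea⟩ : ∃ ea, ea = u (ia + al - 1) := ⟨_, rfl⟩
  obtain ⟨eb, heb⟩ : ∃ eb, eb = u (ib + be - 1) := ⟨_, rfl⟩
  rw [← hea, ← heb] at b1 b3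
  have heab : ea ≠ eb := by
    intro he
    rw [he] at b1 b3
    apply hp13
    have c1 : u p1 = eb := by rcases b1 with b | b <;> exact b
    have c3 : u p3 = eb := by rcases b3 with b | b <;> exact b
    rw [c1, c3]
  obtain ⟨pa, hpa1, hpa2⟩ : ∃ p, u p = ea ∧ Agr u (N + 1) (p + 1) ia := by
    rcases b1 with b | b
    · exact ⟨p1, b, hp1⟩
    · rcases b3 with c | c
      · exact ⟨p3, c, hp3⟩
      · exact absurd (c.trans b.symm) hp13
  obtain ⟨pb, hpb1, hpb2⟩ : ∃ p, u p = eb ∧ Agr u (N + 1) (p + 1) ib := by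
    rcases b1 with b | b
    · rcases b3 with c | c
      · exact absurd (c.trans b.symm) hp13
      · exact ⟨p4, hp34 ▸ c, hp4⟩
    · exact ⟨p2, hp12 ▸ b, hp2⟩
  -- type of the occurrence before
  have hprevA : ∀ x, Agr u N x ia → u (nx u N ia al be x - 1) = ea → Agr u (N + 1) x ia := by
    intro x hx he
    rcases S.two hx with a | a
    · exact a
    · exfalso
      have hb := S.beforeB a
      rw [hb.1, hb.2, ← heb] at he
      exact heab he.symm
  have hprevB : ∀ x, Agr u N x ia → u (nx u N ia al be x - 1) = eb → Agr u (N + 1) x ib := by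
    intro x hx he
    rcases S.two hx with a | a
    · exfalso
      have hb := S.beforeA a
      rw [hb.1, hb.2, ← hea] at he
      exact heab he
    · exact a
  have hNbig : lam * n0 < N := by
    have : (4 * n0 + 100 : ℝ) ≤ N := by exact_mod_cast hN
    have hn0r : (0 : ℝ) ≤ n0 := Nat.cast_nonneg _
    nlinarith
  have hN100 : (100 : ℝ) ≤ N := by
    have : 100 ≤ N := by omega
    exact_mod_cast this
  -- double returns
  have hAA : (N : ℝ) + al ≤ lam * (al + 1) := by
    obtain ⟨p', hp'1, hp'2⟩ := h.far (n := N + 2) (by omega) pa ia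
    have hocc : Agr u (N + 1) (p' + 1) ia := (hp'2.shift 1 (N + 1) (by omega)).trans hpa2
    obtain ⟨x, hx1, hx2⟩ := S.prev (Agr.refl _ _) (hocc.mono (by omega)) (b := ia) (by omega)
    have hup : u p' = ea := (hp'2 0 (by omega)).trans hpa1
    have hx3 := hprevA x hx1 (by rw [hx2]; exact hup)
    have hx4 := (S.beforeA hx3).1
    apply S.runA h hx3 _ hNbig
    rw [← hx4, hx2]
    exact hocc
  have hBB : (N : ℝ) + be ≤ lam * (be + 1) := by
    obtain ⟨p', hp'1, hp'2⟩ := h.far (n := N + 2) (by omega) pb ia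
    have hocc : Agr u (N + 1) (p' + 1) ib := (hp'2.shift 1 (N + 1) (by omega)).trans hpb2
    obtain ⟨x, hx1, hx2⟩ := S.prev (Agr.refl _ _) ((hocc.mono (by omega)).trans S.ag.symm)
      (b := ia) (by omega)
    have hup : u p' = eb := (hp'2 0 (by omega)).trans hpb1
    have hx3 := hprevB x hx1 (by rw [hx2]; exact hup)
    have hx4 := (S.beforeB hx3).1
    apply S.runB h hx3 _ hNbig
    rw [← hx4, hx2]
    exact hocc
  -- lower bound for the return times
  obtain ⟨q, hq⟩ : ∃ q : ℝ, q = 0.6 * N - 2 := ⟨_, rfl⟩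
  have hqa : q ≤ al := by
    by_contra hcon
    push Not at hcon
    rw [hq] at hcon
    nlinarith
  have hqb : q ≤ be := by
    by_contra hcon
    push Not at hcon
    rw [hq] at hcon
    nlinarith
  have hq5 : lam * (N + 2) + 1 < 5 * q := by
    rw [hq]
    nlinarith
  -- type sequence
  obtain ⟨y, hy⟩ : ∃ y, y = occ u N ia al be ia := ⟨_, rfl⟩
  have hocc : ∀ i, Agr u N (y i) ia := by rw [hy]; exact S.occ_occ (Agr.refl _ _)
  have hnx : ∀ i, y (i + 1) = nx u N ia al be (y i) := by rw [hy]; intro i; rfl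
  obtain ⟨T, hT⟩ : ∃ T : ℕ → Bool, T = fun i => decide (Agr u (N + 1) (y i) ia) := ⟨_, rfl⟩
  have hTt : ∀ i, Agr u (N + 1) (y i) ia → T i = true := by
    intro i hi; rw [hT]; exact decide_eq_true hi
  have hTf : ∀ i, Agr u (N + 1) (y i) ib → T i = false := by
    intro i hi; rw [hT]; exact decide_eq_false (fun hh => S.notAB hh hi)
  have w1 : ∀ j, ((T j && T (j+1)) || (T (j+1) && T (j+2)) || (T (j+2) && T (j+3)) ||
      (T (j+3) && T (j+4))) = true := by
    intro i
    obtain ⟨j, hj1, hj2, hj3⟩ := S.window h (by omega) (y0 := ia) (Agr.refl _ _) hqa hqb hq5 pa i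
      (hpa2.mono (by omega))
    rw [← hy] at hj2 hj3
    have c1 := hTt _ (hj3.trans hpa2)
    have c2 : Agr u (N + 1) (y (i + j)) ia := by
      apply hprevA _ (hocc _)
      rw [← hnx, hj2, hpa1]
    have c3 := hTt _ c2
    have hj4 : j = 0 ∨ j = 1 ∨ j = 2 ∨ j = 3 := by omega
    rcases hj4 with rfl | rfl | rfl | rfl
    · simp only [add_zero] at c1 c3; simp [c1, c3]
    · simp only [add_assoc, Nat.reduceAdd] at c1 c3; simp [c1, c3]
    · simp only [add_assoc, Nat.reduceAdd] at c1 c3; simp [c1, c3]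
    · simp only [add_assoc, Nat.reduceAdd] at c1 c3; simp [c1, c3]
  have w2 : ∀ j, ((!T j && !T (j+1)) || (!T (j+1) && !T (j+2)) || (!T (j+2) && !T (j+3)) ||
      (!T (j+3) && !T (j+4))) = true := by
    intro i
    obtain ⟨j, hj1, hj2, hj3⟩ := S.window h (by omega) (y0 := ia) (Agr.refl _ _) hqa hqb hq5 pb i
      ((hpb2.mono (by omega)).trans S.ag.symm)
    rw [← hy] at hj2 hj3
    have c1 := hTf _ (hj3.trans hpb2)
    have c2 : Agr u (N + 1) (y (i + j)) ib := by
      apply hprevB _ (hocc _)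
      rw [← hnx, hj2, hpb1]
    have c3 := hTf _ c2
    have hj4 : j = 0 ∨ j = 1 ∨ j = 2 ∨ j = 3 := by omega
    rcases hj4 with rfl | rfl | rfl | rfl
    · simp only [add_zero] at c1 c3; simp [c1, c3]
    · simp only [add_assoc, Nat.reduceAdd] at c1 c3; simp [c1, c3]
    · simp only [add_assoc, Nat.reduceAdd] at c1 c3; simp [c1, c3]
    · simp only [add_assoc, Nat.reduceAdd] at c1 c3; simp [c1, c3]
  apply S.perSeq h (y0 := ia) (Agr.refl _ _) 1 4 (by omega)
  intro i hi
  rw [← hy]
  have := bool_seq T w1 w2 i hi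
  rw [hT] at this
  simpa using this

/-- the main contradiction -/
lemma Hyp.false (h : Hyp u lam n0) : False := by
  by_cases hA : ∃ n1, ∀ n, n1 ≤ n → cpx u n + 2 ≤ cpx u (n + 1)
  · obtain ⟨n1, hA⟩ := hA
    exact caseA h n1 hA
  · push Not at hA
    by_cases hC : ∃ n1, ∀ n, n1 ≤ n → cpx u (n + 1) ≤ cpx u n + 1
    · obtain ⟨n1, hC⟩ := hC
      exact caseC h n1 hC
    · push Not at hC
      -- find N with first difference one and then at least two
      obtain ⟨n2, hn2, hn2'⟩ := hA (4 * n0 + 100)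
      obtain ⟨n3, hn3, hn3'⟩ := hC n2
      classical
      have hex : ∃ m, n2 ≤ m ∧ cpx u m + 1 < cpx u (m + 1) := ⟨n3, hn3, hn3'⟩
      obtain ⟨m, hm⟩ : ∃ m, m = Nat.find hex := ⟨_, rfl⟩
      have hms := Nat.find_spec hex
      have hmm := fun {m' : ℕ} => Nat.find_min hex (m := m')
      rw [← hm] at hms hmm
      have hne : n2 ≠ m := by
        intro he
        rw [he] at hn2'
        omega
      obtain ⟨N, hN⟩ : ∃ N, m = N + 1 := ⟨m - 1, by omega⟩
      have h1 : cpx u (N + 1) ≤ cpx u N + 1 := by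
        by_contra hcon
        push Not at hcon
        exact hmm (m' := N) (by omega) ⟨by omega, hcon⟩
      rw [hN] at hms
      exact caseB h (N := N) (by omega) h1 (by omega)

end RauzyD

/-- For every infinite word over a finite alphabet that is not purely periodic, and every c below (5+√5)/2, there are arbitrarily large n such that some length-n factor fails to occur in some window of length c·n; i.e. limsup R(n)/n ≥ (5+√5)/2. -/
theorem result :
    ∀ (k : ℕ) (u : ℕ → Fin k),
      (¬ ∃ p : ℕ, 0 < p ∧ ∀ i : ℕ, u (i + p) = u i) →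
      ∀ c : ℝ, c < (5 + Real.sqrt 5) / 2 →
      ∀ N : ℕ, ∃ n : ℕ, N ≤ n ∧ 0 < n ∧
        ¬ (∀ i j : ℕ, ∃ t : ℕ, ((t + n : ℕ) : ℝ) ≤ c * (n : ℝ) ∧
            ∀ l : ℕ, l < n → u (j + t + l) = u (i + l)) := by
  intro k u hnp c hc N
  by_contra hcon
  push Not at hcon
  have hs : Real.sqrt 5 ^ 2 = 5 := Real.sq_sqrt (by norm_num)
  have hs0 : 0 ≤ Real.sqrt 5 := Real.sqrt_nonneg 5
  have hs1 : (2.236 : ℝ) < Real.sqrt 5 := by
    rw [Real.lt_sqrt (by norm_num)]; norm_num
  obtain ⟨c', hc'⟩ : ∃ c' : ℝ, c' = max c 3.6 := ⟨_, rfl⟩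
  have h1 : c ≤ c' := by rw [hc']; exact le_max_left _ _
  have h2 : 3.6 ≤ c' := by rw [hc']; exact le_max_right _ _
  have h3 : c' < (5 + Real.sqrt 5) / 2 := by
    rw [hc']
    apply max_lt hc
    linarith
  have hyp : Hyp u (c' - 1) (N + 1) := by
    refine ⟨?_, hnp, by linarith, ?_⟩
    · intro n hn i j
      obtain ⟨t, ht1, ht2⟩ := hcon n (by omega) (by omega) i j
      refine ⟨t, ?_, fun l hl => ht2 l hl⟩
      push_cast at ht1
      have hn0 : (0 : ℝ) ≤ n := Nat.cast_nonneg _
      nlinarith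
    · nlinarith
  exact hyp.false

end Pool.Agent.S05597
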