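import Pool.Statements.S05623
-- import your own Pool.Agent.* helpers here

set_option autoImplicit false
open Pool Pool.MP_52f1b6_co

namespace Pool.Agent.S05623

open Finset

set_option linter.unusedSectionVars false

/-- Finite Ramsey for k-subsets, two colours. -/
theorem ramsey_aux (k : ℕ) :
    ∀ a b : ℕ, ∃ N : ℕ, ∀ (α : Type) [DecidableEq α] (X : Finset α) (p : Finset α → Prop),
      N ≤ X.card →
      (∃ Z ⊆ X, Z.card = a ∧ ∀ S ∈ Z.powersetCard k, p S) ∨
      (∃ Z ⊆ X, Z.card = b ∧ ∀ S ∈ Z.powersetCard k, ¬ p S) := by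
  induction k with
  | zero =>
    intro a b
    refine ⟨max a b, fun α _ X p hX => ?_⟩
    by_cases hp : p ∅
    · left
      obtain ⟨Z, hZ, hc⟩ := Finset.exists_subset_card_eq ((le_max_left a b).trans hX)
      refine ⟨Z, hZ, hc, fun S hS => ?_⟩
      simp at hS
      subst hS; exact hp
    · right
      obtain ⟨Z, hZ, hc⟩ := Finset.exists_subset_card_eq ((le_max_right a b).trans hX)
      refine ⟨Z, hZ, hc, fun S hS => ?_⟩
      simp at hS
      subst hS; exact hp
  | succ k ih =>
    intro a
    induction a with
    | zero =>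
      intro b
      refine ⟨0, fun α _ X p _ => Or.inl ⟨∅, by simp, by simp, ?_⟩⟩
      intro S hS
      simp [Finset.mem_powersetCard] at hS
      obtain ⟨h1, h2⟩ := hS
      subst h1
      simp at h2
    | succ a iha =>
      intro b
      induction b with
      | zero =>
        refine ⟨0, fun α _ X p _ => Or.inr ⟨∅, by simp, by simp, ?_⟩⟩
        intro S hS
        simp [Finset.mem_powersetCard] at hS
        obtain ⟨h1, h2⟩ := hS
        subst h1
        simp at h2
      | succ b ihb =>
        obtain ⟨N1, h1⟩ := iha (b + 1)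
        obtain ⟨N2, h2⟩ := ihb
        obtain ⟨N3, h3⟩ := ih N1 N2
        refine ⟨N3 + 1, fun α _ X p hX => ?_⟩
        have hne : X.Nonempty := by
          rw [← Finset.card_pos]; omega
        obtain ⟨x, hx⟩ := hne
        have hcard : N3 ≤ (X.erase x).card := by
          rw [Finset.card_erase_of_mem hx]; omega
        have key : ∀ (Y Z : Finset α) (q : Finset α → Prop), Y ⊆ X.erase x → Z ⊆ Y →
            (∀ S ∈ Y.powersetCard k, q (insert x S)) → (∀ S ∈ Z.powersetCard (k+1), q S) →
            (∀ S ∈ (insert x Z).powersetCard (k+1), q S) := by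
          intro Y Z q hY hZ hq1 hq2 S hS
          have hxZ : x ∉ Z := fun h => by
            have := hY (hZ h); simp at this
          rw [Finset.powersetCard_succ_insert hxZ] at hS
          rw [Finset.mem_union] at hS
          rcases hS with hS | hS
          · exact hq2 S hS
          · rw [Finset.mem_image] at hS
            obtain ⟨S', hS', rfl⟩ := hS
            exact hq1 S' (Finset.powersetCard_mono hZ hS')
        rcases h3 α (X.erase x) (fun S => p (insert x S)) hcard with ⟨Y, hY, hYc, hYp⟩ | ⟨Y, hY, hYc, hYp⟩
        · rcases h1 α Y p hYc.ge with ⟨Z, hZ, hZc, hZp⟩ | ⟨Z, hZ, hZc, hZp⟩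
          · left
            have hxZ : x ∉ Z := fun h => by
              have := hY (hZ h); simp at this
            refine ⟨insert x Z, ?_, ?_, key Y Z p hY hZ hYp hZp⟩
            · intro y hy
              rcases Finset.mem_insert.1 hy with rfl | hy
              · exact hx
              · exact Finset.mem_of_mem_erase (hY (hZ hy))
            · rw [Finset.card_insert_of_notMem hxZ, hZc]
          · right
            exact ⟨Z, hZ.trans (hY.trans (Finset.erase_subset _ _)), hZc, hZp⟩
        · rcases h2 α Y p hYc.ge with ⟨Z, hZ, hZc, hZp⟩ | ⟨Z, hZ, hZc, hZp⟩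
          · left
            exact ⟨Z, hZ.trans (hY.trans (Finset.erase_subset _ _)), hZc, hZp⟩
          · right
            have hxZ : x ∉ Z := fun h => by
              have := hY (hZ h); simp at this
            refine ⟨insert x Z, ?_, ?_, key Y Z (fun S => ¬ p S) hY hZ hYp hZp⟩
            · intro y hy
              rcases Finset.mem_insert.1 hy with rfl | hy
              · exact hx
              · exact Finset.mem_of_mem_erase (hY (hZ hy))
            · rw [Finset.card_insert_of_notMem hxZ, hZc]

/-- Gottlieb: the inclusion matrix of k-subsets versus l-subsets has trivial kernel. -/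
theorem gottlieb {α : Type*} [DecidableEq α] (k : ℕ) :
    ∀ (l : ℕ) (X : Finset α) (f : Finset α → ℚ), k ≤ l → k + l ≤ X.card →
      (∀ T ∈ X.powersetCard l, ∑ S ∈ T.powersetCard k, f S = 0) →
      ∀ S ∈ X.powersetCard k, f S = 0 := by
  induction k with
  | zero =>
    intro l X f _ hX hf S hS
    simp at hS
    subst hS
    obtain ⟨T, hT, hc⟩ := Finset.exists_subset_card_eq (show l ≤ X.card by omega)
    have := hf T (by simp [Finset.mem_powersetCard, hT, hc])
    simpa using this
  | succ k ih =>
    intro l X f hkl hX hf S hS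
    obtain ⟨l', rfl⟩ : ∃ l', l = l' + 1 := ⟨l - 1, by omega⟩
    have exch : ∀ x ∈ X, ∀ y ∈ X, x ≠ y → ∀ K ⊆ X, x ∉ K → y ∉ K → K.card = k →
        f (insert x K) = f (insert y K) := by
      intro x hx y hy hxy K hK hxK hyK hKc
      have h := ih l' ((X.erase x).erase y) (fun K => f (insert x K) - f (insert y K)) (by omega)
        (by
          rw [Finset.card_erase_of_mem (by simp [hxy.symm, hy]), Finset.card_erase_of_mem hx]
          omega)
        (by
          intro T hT
          rw [Finset.mem_powersetCard] at hT
          obtain ⟨hT1, hT2⟩ := hT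
          have hxT : x ∉ T := fun h => by
            have := hT1 h; simp at this
          have hyT : y ∉ T := fun h => by
            have := hT1 h; simp at this
          have hTX : T ⊆ X := hT1.trans ((Finset.erase_subset _ _).trans (Finset.erase_subset _ _))
          have hins : ∀ z ∈ X, z ∉ T → ∑ S ∈ (insert z T).powersetCard (k+1), f S
              = ∑ S ∈ T.powersetCard (k+1), f S + ∑ K ∈ T.powersetCard k, f (insert z K) := by
            intro z _ hzT
            rw [Finset.powersetCard_succ_insert hzT, Finset.sum_union, Finset.sum_image]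
            · intro A hA B hB hAB
              simp only [Finset.mem_coe, Finset.mem_powersetCard] at hA hB
              have h1 : z ∉ A := fun h => hzT (hA.1 h)
              have h2 : z ∉ B := fun h => hzT (hB.1 h)
              rw [← Finset.erase_insert h1, ← Finset.erase_insert h2]
              exact congrArg (fun s => Finset.erase s z) hAB
            · rw [Finset.disjoint_left]
              intro A hA hA'
              rw [Finset.mem_powersetCard] at hA
              rw [Finset.mem_image] at hA'
              obtain ⟨B, _, rfl⟩ := hA'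
              exact hzT (hA.1 (Finset.mem_insert_self _ _))
          have e1 := hf (insert x T) (by
            rw [Finset.mem_powersetCard]
            refine ⟨Finset.insert_subset hx hTX, ?_⟩
            rw [Finset.card_insert_of_notMem hxT, hT2])
          have e2 := hf (insert y T) (by
            rw [Finset.mem_powersetCard]
            refine ⟨Finset.insert_subset hy hTX, ?_⟩
            rw [Finset.card_insert_of_notMem hyT, hT2])
          rw [hins x hx hxT] at e1
          rw [hins y hy hyT] at e2
          rw [Finset.sum_sub_distrib]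
          linarith)
        K (by
          rw [Finset.mem_powersetCard]
          refine ⟨?_, hKc⟩
          intro z hz
          simp only [Finset.mem_erase]
          exact ⟨fun h => hyK (h ▸ hz), fun h => hxK (h ▸ hz), hK hz⟩)
      linarith
    have conn : ∀ m : ℕ, ∀ S ∈ X.powersetCard (k+1), ∀ S' ∈ X.powersetCard (k+1),
        (S \ S').card = m → f S = f S' := by
      intro m
      induction m with
      | zero =>
        intro S hS S' hS' h
        rw [Finset.mem_powersetCard] at hS hS'
        have hsub : S ⊆ S' := by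
          rw [← Finset.sdiff_eq_empty_iff_subset]
          exact Finset.card_eq_zero.1 h
        have := Finset.eq_of_subset_of_card_le hsub (by omega)
        rw [this]
      | succ m ihm =>
        intro S hS S' hS' h
        rw [Finset.mem_powersetCard] at hS hS'
        have hne : (S \ S').Nonempty := by rw [← Finset.card_pos]; omega
        obtain ⟨x, hx⟩ := hne
        have hcard : (S' \ S).card = m + 1 := by
          have h1 := Finset.card_sdiff_add_card_inter S S'
          have h2 := Finset.card_sdiff_add_card_inter S' S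
          rw [Finset.inter_comm] at h2
          omega
        have hne' : (S' \ S).Nonempty := by rw [← Finset.card_pos]; omega
        obtain ⟨y, hy⟩ := hne'
        rw [Finset.mem_sdiff] at hx hy
        have hxy : x ≠ y := fun h => hy.2 (h ▸ hx.1)
        have hyS : y ∉ S.erase x := fun h => hy.2 (Finset.mem_of_mem_erase h)
        have e := exch x (hS.1 hx.1) y (hS'.1 hy.1) hxy (S.erase x)
          ((Finset.erase_subset _ _).trans hS.1) (Finset.notMem_erase _ _) hyS
          (by rw [Finset.card_erase_of_mem hx.1]; omega)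
        rw [Finset.insert_erase hx.1] at e
        rw [e]
        apply ihm (insert y (S.erase x)) _ S' _
        · have : insert y (S.erase x) \ S' = (S \ S').erase x := by
            ext z
            simp only [Finset.mem_sdiff, Finset.mem_insert, Finset.mem_erase]
            constructor
            · rintro ⟨h1 | h1, h2⟩
              · exact absurd (h1 ▸ hy.1) h2
              · exact ⟨h1.1, h1.2, h2⟩
            · rintro ⟨h1, h2, h3⟩
              exact ⟨Or.inr ⟨h1, h2⟩, h3⟩
          rw [this, Finset.card_erase_of_mem (by simp [hx.1, hx.2]), h]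
          rfl
        · rw [Finset.mem_powersetCard]
          refine ⟨Finset.insert_subset (hS'.1 hy.1) ((Finset.erase_subset _ _).trans hS.1), ?_⟩
          rw [Finset.card_insert_of_notMem hyS, Finset.card_erase_of_mem hx.1]
          omega
        · rw [Finset.mem_powersetCard]; exact hS'
    have hS0 := hS
    rw [Finset.mem_powersetCard] at hS
    obtain ⟨T, hST, hTX, hTc⟩ := Finset.exists_subsuperset_card_eq hS.1 (show S.card ≤ l'+1 by omega)
      (show l' + 1 ≤ X.card by omega)
    have hsum := hf T (by rw [Finset.mem_powersetCard]; exact ⟨hTX, hTc⟩)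
    have hconst : ∑ S' ∈ T.powersetCard (k+1), f S' = ∑ S' ∈ T.powersetCard (k+1), f S := by
      apply Finset.sum_congr rfl
      intro S' hS'
      exact conn _ S' (Finset.powersetCard_mono hTX hS') S hS0 rfl
    rw [hconst, Finset.sum_const, Finset.card_powersetCard, hTc, nsmul_eq_mul] at hsum
    have hpos : (((l'+1).choose (k+1) : ℕ) : ℚ) ≠ 0 := by
      have := Nat.choose_pos (show k+1 ≤ l'+1 by omega)
      positivity
    exact (mul_eq_zero.1 hsum).resolve_left hpos


section
variable {α κ : Type} [DecidableEq α] [Fintype κ] [DecidableEq κ]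

/-- colour scheme of a set. -/
def sch (c : Finset α → κ) (k : ℕ) (T : Finset α) : κ → ℕ :=
  fun i => ((T.powersetCard k).filter (fun S => c S = i)).card

/-- colours occurring. -/
def cols (c : Finset α → κ) (k : ℕ) (X : Finset α) : Finset κ :=
  (X.powersetCard k).image c

/-- schemes occurring. -/
def schs (c : Finset α → κ) (k l : ℕ) (X : Finset α) : Finset (κ → ℕ) :=
  (X.powersetCard l).image (sch c k)

/-- schemes supported on a set of colours. -/
def pur (c : Finset α → κ) (k l : ℕ) (X : Finset α) (C : Finset κ) : Finset (κ → ℕ) :=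
  (schs c k l X).filter (fun v => ∀ b, v b ≠ 0 → b ∈ C)

theorem sch_ne_zero_mem {c : Finset α → κ} {k : ℕ} {T X : Finset α} (h : T ⊆ X) {b : κ}
    (hb : sch c k T b ≠ 0) : b ∈ cols c k X := by
  unfold sch at hb
  rw [Finset.card_ne_zero] at hb
  obtain ⟨S, hS⟩ := hb
  rw [Finset.mem_filter] at hS
  unfold cols
  rw [Finset.mem_image]
  exact ⟨S, Finset.powersetCard_mono h hS.1, hS.2⟩

theorem card_le_filter (c : Finset α → κ) (k l : ℕ) (X : Finset α) (hkl : k ≤ l)
    (hX : k + l ≤ X.card) (B : Finset κ) (hB : B ⊆ cols c k X) :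
    B.card ≤ ((schs c k l X).filter (fun v => ∃ b ∈ B, v b ≠ 0)).card := by
  set V := (schs c k l X).filter (fun v => ∃ b ∈ B, v b ≠ 0) with hV
  let Φ : (B → ℚ) →ₗ[ℚ] (V → ℚ) :=
    { toFun := fun w v => ∑ b : B, w b * (v.1 b.1 : ℚ)
      map_add' := by
        intro w w'; ext v
        simp only [Pi.add_apply, add_mul, Finset.sum_add_distrib]
      map_smul' := by
        intro a w; ext v
        simp only [Pi.smul_apply, smul_eq_mul, RingHom.id_apply, Finset.mul_sum, mul_assoc] }
  have hinj : Function.Injective Φ := by
    rw [injective_iff_map_eq_zero]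
    intro w hw
    ext b
    obtain ⟨b, hb⟩ := b
    have hb' := hB hb
    unfold cols at hb'
    rw [Finset.mem_image] at hb'
    obtain ⟨S, hS, hcS⟩ := hb'
    let f : Finset α → ℚ := fun S => if h : c S ∈ B then w ⟨c S, h⟩ else 0
    have hf := gottlieb k l X f hkl hX (by
      intro T hT
      have hsum : ∑ S ∈ T.powersetCard k, f S = ∑ b : B, w b * (sch c k T b.1 : ℚ) := by
        have h1 : ∀ S, f S = ∑ b : B, if c S = b.1 then w b else 0 := by
          intro S
          by_cases h : c S ∈ B
          · simp only [f, h, dif_pos]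
            rw [Finset.sum_eq_single (⟨c S, h⟩ : B)]
            · simp
            · intro b' _ hb'
              rw [if_neg]
              intro h'
              exact hb' (Subtype.ext h'.symm)
            · simp
          · simp only [f, h, dif_neg, not_false_iff]
            symm
            apply Finset.sum_eq_zero
            intro b' _
            rw [if_neg]
            intro h'
            exact h (h' ▸ b'.2)
        simp_rw [h1]
        rw [Finset.sum_comm]
        apply Finset.sum_congr rfl
        intro b' _
        rw [← Finset.sum_filter, Finset.sum_const, nsmul_eq_mul, mul_comm]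
        rfl
      rw [hsum]
      by_cases hT' : ∃ b ∈ B, sch c k T b ≠ 0
      · have hmem : sch c k T ∈ V := by
          rw [hV, Finset.mem_filter]
          exact ⟨Finset.mem_image_of_mem _ hT, hT'⟩
        have := congrFun hw ⟨sch c k T, hmem⟩
        simpa [Φ] using this
      · push Not at hT'
        apply Finset.sum_eq_zero
        intro b' _
        rw [hT' b'.1 b'.2]
        simp) S hS
    have : f S = w ⟨b, hb⟩ := by
      simp only [f]
      subst hcS
      rw [dif_pos hb]
    rw [← this, hf]
    rfl
  have := LinearMap.finrank_le_finrank_of_injective hinj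
  simpa [Module.finrank_fintype_fun_eq_card] using this

theorem cols_card_le (c : Finset α → κ) (k l : ℕ) (X : Finset α) (hkl : k ≤ l)
    (hX : k + l ≤ X.card) : (cols c k X).card ≤ (schs c k l X).card :=
  (card_le_filter c k l X hkl hX _ (Finset.Subset.refl _)).trans
    (Finset.card_le_card (Finset.filter_subset _ _))

theorem pur_card_le' (c : Finset α → κ) (k l : ℕ) (X : Finset α) (hkl : k ≤ l)
    (hX : k + l ≤ X.card) (heq : (schs c k l X).card = (cols c k X).card) (C : Finset κ) :
    (pur c k l X C).card ≤ (cols c k X ∩ C).card := by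
  have h1 := card_le_filter c k l X hkl hX (cols c k X \ C) Finset.sdiff_subset
  have h2 : (pur c k l X C).card +
      ((schs c k l X).filter (fun v => ∃ b ∈ cols c k X \ C, v b ≠ 0)).card
      ≤ (schs c k l X).card := by
    rw [← Finset.card_union_of_disjoint]
    · apply Finset.card_le_card
      apply Finset.union_subset
      · exact Finset.filter_subset _ _
      · exact Finset.filter_subset _ _
    · rw [Finset.disjoint_left]
      intro v hv hv'
      unfold pur at hv
      rw [Finset.mem_filter] at hv hv'
      obtain ⟨b, hb, hvb⟩ := hv'.2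
      rw [Finset.mem_sdiff] at hb
      exact hb.2 (hv.2 b hvb)
  have h3 := Finset.card_sdiff_add_card_inter (cols c k X) C
  omega

theorem pur_card_le (c : Finset α → κ) (k l : ℕ) (X : Finset α) (hkl : k ≤ l)
    (hX : k + l ≤ X.card) (heq : (schs c k l X).card = (cols c k X).card) (C : Finset κ) :
    (pur c k l X C).card ≤ C.card :=
  (pur_card_le' c k l X hkl hX heq C).trans (Finset.card_le_card Finset.inter_subset_right)

theorem schs_mono (c : Finset α → κ) (k l : ℕ) {X Z : Finset α} (h : Z ⊆ X) :
    schs c k l Z ⊆ schs c k l X :=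
  Finset.image_subset_image (Finset.powersetCard_mono h)

theorem cols_mono (c : Finset α → κ) (k : ℕ) {X Z : Finset α} (h : Z ⊆ X) :
    cols c k Z ⊆ cols c k X :=
  Finset.image_subset_image (Finset.powersetCard_mono h)

theorem schs_sub_pur (c : Finset α → κ) (k l : ℕ) {X Z : Finset α} (h : Z ⊆ X) :
    schs c k l Z ⊆ pur c k l X (cols c k Z) := by
  intro v hv
  unfold pur
  rw [Finset.mem_filter]
  refine ⟨schs_mono c k l h hv, ?_⟩
  unfold schs at hv
  rw [Finset.mem_image] at hv
  obtain ⟨T, hT, rfl⟩ := hv
  intro b hb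
  rw [Finset.mem_powersetCard] at hT
  exact sch_ne_zero_mem hT.1 hb

theorem hered (c : Finset α → κ) (k l : ℕ) {X Z : Finset α} (hkl : k ≤ l)
    (hX : k + l ≤ X.card) (heq : (schs c k l X).card = (cols c k X).card)
    (hZ : Z ⊆ X) (hZc : k + l ≤ Z.card) :
    (schs c k l Z).card = (cols c k Z).card ∧ (pur c k l X (cols c k Z)).card = (cols c k Z).card := by
  have h1 := cols_card_le c k l Z hkl hZc
  have h2 := Finset.card_le_card (schs_sub_pur c k l hZ)
  have h3 := pur_card_le c k l X hkl hX heq (cols c k Z)
  omega

theorem good_inter_union (c : Finset α → κ) (k l : ℕ) {X : Finset α} (hkl : k ≤ l)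
    (hX : k + l ≤ X.card) (heq : (schs c k l X).card = (cols c k X).card)
    {C C' : Finset κ} (hC : (pur c k l X C).card = C.card) (hC' : (pur c k l X C').card = C'.card) :
    (pur c k l X (C ∩ C')).card = (C ∩ C').card ∧ (pur c k l X (C ∪ C')).card = (C ∪ C').card := by
  have h1 : pur c k l X C ∩ pur c k l X C' = pur c k l X (C ∩ C') := by
    ext v
    unfold pur
    simp only [Finset.mem_inter, Finset.mem_filter]
    constructor
    · rintro ⟨⟨h1, h2⟩, _, h3⟩
      exact ⟨h1, fun b hb => ⟨h2 b hb, h3 b hb⟩⟩
    · rintro ⟨h1, h2⟩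
      exact ⟨⟨h1, fun b hb => (h2 b hb).1⟩, h1, fun b hb => (h2 b hb).2⟩
  have h2 : pur c k l X C ∪ pur c k l X C' ⊆ pur c k l X (C ∪ C') := by
    intro v
    unfold pur
    simp only [Finset.mem_union, Finset.mem_filter]
    rintro (⟨h1, h2⟩ | ⟨h1, h2⟩)
    · exact ⟨h1, fun b hb => Or.inl (h2 b hb)⟩
    · exact ⟨h1, fun b hb => Or.inr (h2 b hb)⟩
  have h3 := Finset.card_union_add_card_inter (pur c k l X C) (pur c k l X C')
  have h4 := Finset.card_union_add_card_inter C C'
  have h5 := Finset.card_le_card h2
  have h6 := pur_card_le c k l X hkl hX heq (C ∩ C')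
  have h7 := pur_card_le c k l X hkl hX heq (C ∪ C')
  rw [h1] at h3
  omega


theorem link_count (c : Finset α → κ) (k l : ℕ) (X Z : Finset α) (x : α) (hkl : k < l)
    (hX : (k + 1) + (l + 1) ≤ X.card)
    (heq : (schs c (k+1) (l+1) X).card = (cols c (k+1) X).card)
    (hZ : Z ⊆ X) (hx : x ∈ X) (hxZ : x ∉ Z) (hZc : (k + 1) + (l + 1) ≤ Z.card)
    (z0 : κ) (hz0 : z0 ∈ cols c (k+1) Z)
    (D : Finset κ) (hD : D = cols c (k+1) (insert x Z) \ cols c (k+1) Z)
    (c' : Finset α → κ) (hc' : c' = fun S => if c (insert x S) ∈ D then c (insert x S) else z0) :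
    (schs c' k l Z).card = (cols c' k Z).card ∧ D ⊆ cols c' k Z ∧ cols c' k Z ⊆ insert z0 D ∧
    (∀ C' : Finset κ, (pur c' k l Z C').card = C'.card →
      (pur c (k+1) (l+1) X (cols c (k+1) Z ∪ (C' ∩ D))).card =
        (cols c (k+1) Z ∪ (C' ∩ D)).card) := by
  have hW : insert x Z ⊆ X := Finset.insert_subset hx hZ
  have hWc : (k + 1) + (l + 1) ≤ (insert x Z).card := by
    rw [Finset.card_insert_of_notMem hxZ]; omega
  have hz0D : z0 ∉ D := by
    rw [hD, Finset.mem_sdiff]; push Not; intro _; exact hz0
  obtain ⟨hWeq, _⟩ := hered c (k+1) (l+1) (by omega) hX heq hW hWc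
  obtain ⟨hZeq, hZpur⟩ := hered c (k+1) (l+1) (by omega) hX heq hZ hZc
  have hcolsW : (cols c (k+1) (insert x Z)).card = (cols c (k+1) Z).card + D.card := by
    rw [hD]
    have h1 := Finset.card_sdiff_add_card_inter (cols c (k+1) (insert x Z)) (cols c (k+1) Z)
    have h2 : cols c (k+1) (insert x Z) ∩ cols c (k+1) Z = cols c (k+1) Z := by
      apply Finset.inter_eq_right.2
      exact cols_mono c (k+1) (Finset.subset_insert _ _)
    rw [h2] at h1
    omega
  -- the new columns
  set NW := (schs c (k+1) (l+1) (insert x Z)).filter (fun v => ∃ b ∈ D, v b ≠ 0) with hNW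
  have hdisj : Disjoint (schs c (k+1) (l+1) Z) NW := by
    rw [Finset.disjoint_left]
    intro v hv hv'
    rw [hNW, Finset.mem_filter] at hv'
    obtain ⟨b, hb, hvb⟩ := hv'.2
    unfold schs at hv
    rw [Finset.mem_image] at hv
    obtain ⟨T, hT, rfl⟩ := hv
    rw [Finset.mem_powersetCard] at hT
    have := sch_ne_zero_mem hT.1 hvb
    rw [hD, Finset.mem_sdiff] at hb
    exact hb.2 this
  have hNWc : NW.card ≤ D.card := by
    have h1 : (schs c (k+1) (l+1) Z ∪ NW).card ≤ (schs c (k+1) (l+1) (insert x Z)).card := by
      apply Finset.card_le_card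
      apply Finset.union_subset
      · exact schs_mono c (k+1) (l+1) (Finset.subset_insert _ _)
      · exact Finset.filter_subset _ _
    rw [Finset.card_union_of_disjoint hdisj] at h1
    omega
  -- key: for T ⊆ Z, D-part of the scheme of insert x T equals the link scheme
  have hpart : ∀ T ⊆ Z, ∀ b ∈ D, sch c (k+1) (insert x T) b = sch c' k T b := by
    intro T hT b hb
    unfold sch
    have hxT : x ∉ T := fun h => hxZ (hT h)
    rw [Finset.powersetCard_succ_insert hxT, Finset.filter_union]
    have h1 : (T.powersetCard (k+1)).filter (fun S => c S = b) = ∅ := by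
      rw [Finset.filter_eq_empty_iff]
      intro S hS hcS
      rw [hD, Finset.mem_sdiff] at hb
      apply hb.2
      unfold cols
      rw [Finset.mem_image]
      exact ⟨S, Finset.powersetCard_mono hT hS, hcS⟩
    rw [h1, Finset.empty_union, Finset.filter_image, Finset.card_image_of_injOn]
    · congr 1
      apply Finset.filter_congr
      intro S hS
      rw [hc']
      simp only
      constructor
      · intro h
        rw [if_pos (h ▸ hb)]
        exact h
      · intro h
        by_cases h' : c (insert x S) ∈ D
        · rw [if_pos h'] at h; exact h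
        · rw [if_neg h'] at h
          exact absurd (h ▸ hb) hz0D
    · intro A hA B hB hAB
      simp only [Finset.mem_coe, Finset.mem_filter, Finset.mem_powersetCard] at hA hB
      have h1 : x ∉ A := fun h => hxT (hA.1.1 h)
      have h2 : x ∉ B := fun h => hxT (hB.1.1 h)
      rw [← Finset.erase_insert h1, ← Finset.erase_insert h2]
      exact congrArg (fun s => Finset.erase s x) hAB
  have hDsub : D ⊆ cols c' k Z := by
    intro b hb
    have hb' := hb
    rw [hD, Finset.mem_sdiff] at hb
    obtain ⟨hb1, hb2⟩ := hb
    unfold cols at hb1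
    rw [Finset.mem_image] at hb1
    obtain ⟨S, hS, hcS⟩ := hb1
    rw [Finset.powersetCard_succ_insert hxZ, Finset.mem_union] at hS
    rcases hS with hS | hS
    · exfalso
      apply hb2
      unfold cols
      rw [Finset.mem_image]
      exact ⟨S, hS, hcS⟩
    · rw [Finset.mem_image] at hS
      obtain ⟨S', hS', rfl⟩ := hS
      unfold cols
      rw [Finset.mem_image]
      refine ⟨S', hS', ?_⟩
      rw [hc']
      simp only
      rw [if_pos (hcS ▸ hb')]
      exact hcS
  have hsubD : cols c' k Z ⊆ insert z0 D := by
    intro b hb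
    unfold cols at hb
    rw [Finset.mem_image] at hb
    obtain ⟨S, _, hcS⟩ := hb
    rw [hc'] at hcS
    simp only at hcS
    rw [Finset.mem_insert]
    by_cases h' : c (insert x S) ∈ D
    · rw [if_pos h'] at hcS
      right; rw [← hcS]; exact h'
    · rw [if_neg h'] at hcS
      left; exact hcS.symm
  -- total number in a scheme
  have htot : ∀ T ∈ Z.powersetCard l, ∑ b, sch c' k T b = l.choose k := by
    intro T hT
    rw [Finset.mem_powersetCard] at hT
    unfold sch
    rw [← Finset.card_eq_sum_card_fiberwise (f := c') (s := T.powersetCard k) (t := Finset.univ)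
      (by intro a _; simp)]
    rw [Finset.card_powersetCard, hT.2]
  have hsupp : ∀ T ⊆ Z, ∀ b, sch c' k T b ≠ 0 → b = z0 ∨ b ∈ D := by
    intro T hT b hb
    have := hsubD (sch_ne_zero_mem hT hb)
    rwa [Finset.mem_insert] at this
  -- restriction to D
  let ρ : (κ → ℕ) → (κ → ℕ) := fun v b => if b ∈ D then v b else 0
  have hρinj : Set.InjOn ρ (schs c' k l Z : Set (κ → ℕ)) := by
    intro v hv v' hv' hvv'
    rw [Finset.mem_coe] at hv hv'
    unfold schs at hv hv'
    rw [Finset.mem_image] at hv hv'
    obtain ⟨T, hT, rfl⟩ := hv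
    obtain ⟨T', hT', rfl⟩ := hv'
    have t1 := htot T hT
    have t2 := htot T' hT'
    rw [Finset.mem_powersetCard] at hT hT'
    have hD' : ∀ b ∈ D, sch c' k T b = sch c' k T' b := by
      intro b hb
      have := congrFun hvv' b
      simpa [ρ, hb] using this
    have hoff : ∀ b, b ≠ z0 → sch c' k T b = sch c' k T' b := by
      intro b hb
      by_cases hbD : b ∈ D
      · exact hD' b hbD
      · have h1 : sch c' k T b = 0 := by
          by_contra h
          rcases hsupp T hT.1 b h with h | h
          · exact hb h
          · exact hbD h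
        have h2 : sch c' k T' b = 0 := by
          by_contra h
          rcases hsupp T' hT'.1 b h with h | h
          · exact hb h
          · exact hbD h
        rw [h1, h2]
    ext b
    by_cases hb : b = z0
    · subst hb
      rw [← Finset.add_sum_erase _ _ (Finset.mem_univ b)] at t1 t2
      have : ∑ x ∈ Finset.univ.erase b, sch c' k T x = ∑ x ∈ Finset.univ.erase b, sch c' k T' x := by
        apply Finset.sum_congr rfl
        intro y hy
        exact hoff y (Finset.ne_of_mem_erase hy)
      omega
    · exact hoff b hb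
  -- first kind
  set F := (schs c' k l Z).filter (fun v => ∃ b ∈ D, v b ≠ 0) with hF
  set G := (schs c' k l Z).filter (fun v => ¬ ∃ b ∈ D, v b ≠ 0) with hG
  have hFG : F.card + G.card = (schs c' k l Z).card := by
    rw [hF, hG]
    exact Finset.card_filter_add_card_filter_not _
  have hlift : ∀ v ∈ F, ∃ w ∈ NW, (∀ b ∈ D, w b = v b) := by
    intro v hv
    rw [hF, Finset.mem_filter] at hv
    obtain ⟨hv1, b, hb, hvb⟩ := hv
    unfold schs at hv1
    rw [Finset.mem_image] at hv1
    obtain ⟨T, hT, rfl⟩ := hv1
    rw [Finset.mem_powersetCard] at hT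
    have hxT : x ∉ T := fun h => hxZ (hT.1 h)
    refine ⟨sch c (k+1) (insert x T), ?_, fun b hb => hpart T hT.1 b hb⟩
    rw [hNW, Finset.mem_filter]
    refine ⟨?_, b, hb, by rw [hpart T hT.1 b hb]; exact hvb⟩
    unfold schs
    apply Finset.mem_image_of_mem
    rw [Finset.mem_powersetCard]
    exact ⟨Finset.insert_subset_insert _ hT.1, by rw [Finset.card_insert_of_notMem hxT, hT.2]⟩
  choose! lft hlft1 hlft2 using hlift
  have hlftinj : Set.InjOn lft (F : Set (κ → ℕ)) := by
    intro v hv v' hv' h
    rw [Finset.mem_coe] at hv hv'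
    apply hρinj
    · rw [Finset.mem_coe]; exact (Finset.mem_filter.1 hv).1
    · rw [Finset.mem_coe]; exact (Finset.mem_filter.1 hv').1
    · ext b
      simp only [ρ]
      by_cases hb : b ∈ D
      · rw [if_pos hb, if_pos hb, ← hlft2 v hv b hb, ← hlft2 v' hv' b hb, h]
      · rw [if_neg hb, if_neg hb]
  have hFc : F.card ≤ D.card := by
    refine le_trans ?_ hNWc
    apply Finset.card_le_card_of_injOn lft _ hlftinj
    intro v hv
    exact hlft1 v hv
  have hGprop : ∀ v ∈ G, v z0 ≠ 0 ∧ z0 ∈ cols c' k Z := by
    intro v hv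
    rw [hG, Finset.mem_filter] at hv
    obtain ⟨hv1, hv2⟩ := hv
    unfold schs at hv1
    rw [Finset.mem_image] at hv1
    obtain ⟨T, hT, rfl⟩ := hv1
    have t1 := htot T hT
    rw [Finset.mem_powersetCard] at hT
    have hz : sch c' k T z0 ≠ 0 := by
      intro hz
      have : ∑ b, sch c' k T b = 0 := by
        apply Finset.sum_eq_zero
        intro b _
        by_contra hb
        rcases hsupp T hT.1 b hb with h | h
        · subst h; exact hb hz
        · exact hv2 ⟨b, h, hb⟩
      have hpos := Nat.choose_pos (show k ≤ l by omega)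
      omega
    exact ⟨hz, sch_ne_zero_mem hT.1 hz⟩
  have hGc : G.card ≤ 1 := by
    rw [Finset.card_le_one]
    intro v hv v' hv'
    rw [hG, Finset.mem_filter] at hv hv'
    apply hρinj
    · rw [Finset.mem_coe]; exact hv.1
    · rw [Finset.mem_coe]; exact hv'.1
    · ext b
      simp only [ρ]
      by_cases hb : b ∈ D
      · rw [if_pos hb, if_pos hb]
        have h1 : v b = 0 := by
          by_contra h; exact hv.2 ⟨b, hb, h⟩
        have h2 : v' b = 0 := by
          by_contra h; exact hv'.2 ⟨b, hb, h⟩
        rw [h1, h2]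
      · rw [if_neg hb, if_neg hb]
  have hZlink : k + l ≤ Z.card := by omega
  have hge := cols_card_le c' k l Z (by omega) hZlink
  have hlinkeq : (schs c' k l Z).card = (cols c' k Z).card := by
    apply le_antisymm _ hge
    rw [← hFG]
    by_cases hz : z0 ∈ cols c' k Z
    · have h1 : (insert z0 D).card ≤ (cols c' k Z).card :=
        Finset.card_le_card (Finset.insert_subset hz hDsub)
      rw [Finset.card_insert_of_notMem hz0D] at h1
      omega
    · have h1 : G = ∅ := by
        rw [Finset.eq_empty_iff_forall_notMem]
        intro v hv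
        exact hz (hGprop v hv).2
      have h2 := Finset.card_le_card hDsub
      rw [h1, Finset.card_empty]
      omega
  refine ⟨hlinkeq, hDsub, hsubD, ?_⟩
  intro C' hC'
  apply le_antisymm (pur_card_le c (k+1) (l+1) X (by omega) hX heq _)
  have hdisj2 : Disjoint (cols c (k+1) Z) (C' ∩ D) := by
    rw [Finset.disjoint_left]
    intro b hb hb'
    rw [Finset.mem_inter, hD, Finset.mem_sdiff] at hb'
    exact hb'.2.2 hb
  rw [Finset.card_union_of_disjoint hdisj2]
  -- C' is inside insert z0 D
  have hC'sub : C' ⊆ insert z0 D := by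
    have h1 := pur_card_le' c' k l Z (by omega) hZlink hlinkeq C'
    rw [hC'] at h1
    have h2 : cols c' k Z ∩ C' = C' := Finset.eq_of_subset_of_card_le Finset.inter_subset_right h1
    rw [← h2]
    exact Finset.inter_subset_left.trans hsubD
  set P := (pur c' k l Z C').filter (fun v => ∃ b ∈ D, v b ≠ 0) with hP
  have hPc : (C' ∩ D).card ≤ P.card := by
    have h1 : P.card + ((pur c' k l Z C').filter (fun v => ¬ ∃ b ∈ D, v b ≠ 0)).card
        = (pur c' k l Z C').card := by
      rw [hP]
      exact Finset.card_filter_add_card_filter_not _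
    have h2 : ((pur c' k l Z C').filter (fun v => ¬ ∃ b ∈ D, v b ≠ 0)) ⊆ G := by
      rw [hG]
      apply Finset.filter_subset_filter
      exact Finset.filter_subset _ _
    by_cases hz : z0 ∈ C'
    · have h3 : C' ∩ D = C'.erase z0 := by
        ext b
        rw [Finset.mem_inter, Finset.mem_erase]
        constructor
        · rintro ⟨h1, h2⟩
          exact ⟨fun h => hz0D (h ▸ h2), h1⟩
        · rintro ⟨h1, h2⟩
          refine ⟨h2, ?_⟩
          have := hC'sub h2
          rw [Finset.mem_insert] at this
          exact this.resolve_left h1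
      rw [h3, Finset.card_erase_of_mem hz]
      have := Finset.card_le_card h2
      omega
    · have h3 : ((pur c' k l Z C').filter (fun v => ¬ ∃ b ∈ D, v b ≠ 0)) = ∅ := by
        rw [Finset.eq_empty_iff_forall_notMem]
        intro v hv
        have h4 := hGprop v (h2 hv)
        unfold pur at hv
        rw [Finset.mem_filter, Finset.mem_filter] at hv
        exact hz (hv.1.2 z0 h4.1)
      rw [h3, Finset.card_empty] at h1
      have := Finset.card_le_card (Finset.inter_subset_left : C' ∩ D ⊆ C')
      omega
  have hPF : P ⊆ F := by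
    rw [hP, hF]
    apply Finset.filter_subset_filter
    exact Finset.filter_subset _ _
  have hdisj3 : Disjoint (schs c (k+1) (l+1) Z) (P.image lft) := by
    rw [Finset.disjoint_left]
    intro v hv hv'
    rw [Finset.mem_image] at hv'
    obtain ⟨w, hw, rfl⟩ := hv'
    exact (Finset.disjoint_left.1 hdisj) hv (hlft1 w (hPF hw))
  have hfin : schs c (k+1) (l+1) Z ∪ P.image lft ⊆
      pur c (k+1) (l+1) X (cols c (k+1) Z ∪ (C' ∩ D)) := by
    apply Finset.union_subset
    · intro v hv
      have := schs_sub_pur c (k+1) (l+1) hZ hv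
      unfold pur at this ⊢
      rw [Finset.mem_filter] at this ⊢
      exact ⟨this.1, fun b hb => Finset.mem_union_left _ (this.2 b hb)⟩
    · intro v hv
      rw [Finset.mem_image] at hv
      obtain ⟨w, hw, rfl⟩ := hv
      have h1 := hlft1 w (hPF hw)
      have h2 := hlft2 w (hPF hw)
      rw [hNW, Finset.mem_filter] at h1
      unfold pur
      rw [Finset.mem_filter]
      refine ⟨schs_mono c (k+1) (l+1) hW h1.1, ?_⟩
      intro b hb
      rw [Finset.mem_union, Finset.mem_inter]
      have hbW : b ∈ cols c (k+1) (insert x Z) := by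
        have h3 := h1.1
        unfold schs at h3
        rw [Finset.mem_image] at h3
        obtain ⟨T, hT, hTe⟩ := h3
        rw [← hTe] at hb
        rw [Finset.mem_powersetCard] at hT
        exact sch_ne_zero_mem hT.1 hb
      by_cases hbD : b ∈ D
      · right
        refine ⟨?_, hbD⟩
        rw [h2 b hbD] at hb
        rw [hP, Finset.mem_filter] at hw
        have h4 := hw.1
        unfold pur at h4
        rw [Finset.mem_filter] at h4
        exact h4.2 b hb
      · left
        by_contra hbZ
        apply hbD
        rw [hD, Finset.mem_sdiff]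
        exact ⟨hbW, hbZ⟩
  have hlast := Finset.card_le_card hfin
  rw [Finset.card_union_of_disjoint hdisj3, Finset.card_image_of_injOn (hlftinj.mono (by
    intro v hv; exact hPF hv))] at hlast
  omega


end

theorem exists_max_set {α : Type} (X Z0 : Finset α) (P : Finset α → Prop) (h0 : Z0 ⊆ X)
    (h1 : P Z0) : ∃ Z, Z ⊆ X ∧ P Z ∧ ∀ Z', Z' ⊆ X → P Z' → Z'.card ≤ Z.card := by
  classical
  obtain ⟨Z, hZ, hm⟩ := Finset.exists_max_image (X.powerset.filter P) Finset.card
    ⟨Z0, by rw [Finset.mem_filter, Finset.mem_powerset]; exact ⟨h0, h1⟩⟩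
  rw [Finset.mem_filter, Finset.mem_powerset] at hZ
  refine ⟨Z, hZ.1, hZ.2, fun Z' h2 h3 => hm Z' ?_⟩
  rw [Finset.mem_filter, Finset.mem_powerset]
  exact ⟨h2, h3⟩

/-- Separation of colours by good sets. -/
theorem separation (k : ℕ) :
    ∀ l : ℕ, k < l → ∃ g : ℕ, k + l ≤ g ∧ ∀ (α κ : Type) [DecidableEq α] [Fintype κ] [DecidableEq κ]
      (X : Finset α) (c : Finset α → κ), g ≤ X.card →
      (schs c k l X).card = (cols c k X).card →
      ∀ q ∈ cols c k X, ∀ q' ∈ cols c k X, q ≠ q' →
        ∃ C : Finset κ, (pur c k l X C).card = C.card ∧ ¬ (q ∈ C ↔ q' ∈ C) := by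
  induction k with
  | zero =>
    intro l hl
    refine ⟨0 + l, le_rfl, ?_⟩
    intro α κ _ _ _ X c _ _ q hq q' hq' hne
    unfold cols at hq hq'
    simp at hq hq'
    exact absurd (hq.trans hq'.symm) hne
  | succ k ih =>
    intro l hl
    obtain ⟨l, rfl⟩ : ∃ l', l = l' + 1 := ⟨l - 1, by omega⟩
    obtain ⟨g, hg1, hg2⟩ := ih l (by omega)
    set M := max g ((k + 1) + (l + 1)) with hM
    obtain ⟨N2, hN2⟩ := ramsey_aux (k+1) M M
    obtain ⟨N1, hN1⟩ := ramsey_aux (k+1) N2 M
    refine ⟨max N1 ((k + 1) + (l + 1)), le_max_right _ _, ?_⟩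
    intro α κ _ _ _ X c hX heq q hq q' hq' hne
    have hXN : N1 ≤ X.card := (le_max_left _ _).trans hX
    have hXk : (k + 1) + (l + 1) ≤ X.card := (le_max_right _ _).trans hX
    have hMk : (k + 1) + (l + 1) ≤ M := le_max_right _ _
    have hMg : g ≤ M := le_max_left _ _
    by_contra hcon
    push Not at hcon
    -- every good set contains both or none
    have hboth : ∀ Z ⊆ X, (k + 1) + (l + 1) ≤ Z.card → (q ∈ cols c (k+1) Z ↔ q' ∈ cols c (k+1) Z) := by
      intro Z hZ hZc
      exact hcon _ (hered c (k+1) (l+1) (by omega) hXk heq hZ hZc).2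
    have hmono : ∀ Z ⊆ X, M ≤ Z.card → ∀ a b : κ, (∀ S ∈ Z.powersetCard (k+1), c S = a) → b ≠ a →
        b ∉ cols c (k+1) Z ∧ a ∈ cols c (k+1) Z := by
      intro Z hZ hZc a b ha hba
      constructor
      · intro hb
        unfold cols at hb
        rw [Finset.mem_image] at hb
        obtain ⟨S, hS, hcS⟩ := hb
        exact hba (hcS.symm.trans (ha S hS))
      · obtain ⟨S, hS, hSc⟩ := Finset.exists_subset_card_eq (show k + 1 ≤ Z.card by omega)
        have hS' : S ∈ Z.powersetCard (k+1) := by rw [Finset.mem_powersetCard]; exact ⟨hS, hSc⟩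
        unfold cols
        rw [Finset.mem_image]
        exact ⟨S, hS', ha S hS'⟩
    -- find Z free of q, q'
    obtain ⟨Z0, hZ0, hZ0c, hZ0p⟩ : ∃ Z ⊆ X, Z.card = M ∧
        ∀ S ∈ Z.powersetCard (k+1), ¬ (c S = q ∨ c S = q') := by
      rcases hN1 α X (fun S => c S = q ∨ c S = q') hXN with ⟨Z1, hZ1, hZ1c, hZ1p⟩ | h
      · exfalso
        rcases hN2 α Z1 (fun S => c S = q) hZ1c.ge with ⟨Z2, hZ2, hZ2c, hZ2p⟩ | ⟨Z2, hZ2, hZ2c, hZ2p⟩
        · have h1 := hmono Z2 (hZ2.trans hZ1) hZ2c.ge q q' hZ2p hne.symm
          have h2 := hboth Z2 (hZ2.trans hZ1) (by omega)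
          exact h1.1 (h2.1 h1.2)
        · have h1 := hmono Z2 (hZ2.trans hZ1) hZ2c.ge q' q (by
            intro S hS
            rcases hZ1p S (Finset.powersetCard_mono hZ2 hS) with h | h
            · exact absurd h (hZ2p S hS)
            · exact h) hne
          have h2 := hboth Z2 (hZ2.trans hZ1) (by omega)
          exact h1.1 (h2.2 h1.2)
      · exact h
    -- maximal such set
    obtain ⟨Z, hZX, ⟨hZ0Z, hZp⟩, hZmax⟩ := exists_max_set X Z0
      (fun Z => Z0 ⊆ Z ∧ ∀ S ∈ Z.powersetCard (k+1), ¬ (c S = q ∨ c S = q')) hZ0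
      ⟨Finset.Subset.refl _, hZ0p⟩
    have hZc : M ≤ Z.card := by
      rw [← hZ0c]; exact Finset.card_le_card hZ0Z
    have hqZ : q ∉ cols c (k+1) Z := by
      intro h
      unfold cols at h
      rw [Finset.mem_image] at h
      obtain ⟨S, hS, hcS⟩ := h
      exact hZp S hS (Or.inl hcS)
    have hq'Z : q' ∉ cols c (k+1) Z := by
      intro h
      unfold cols at h
      rw [Finset.mem_image] at h
      obtain ⟨S, hS, hcS⟩ := h
      exact hZp S hS (Or.inr hcS)
    have hneX : Z ≠ X := fun h => hqZ (h ▸ hq)
    obtain ⟨x, hx, hxZ⟩ : ∃ x ∈ X, x ∉ Z := by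
      by_contra h
      push Not at h
      exact hneX (Finset.Subset.antisymm hZX h)
    have hWX : insert x Z ⊆ X := Finset.insert_subset hx hZX
    have hWcard : (insert x Z).card = Z.card + 1 := Finset.card_insert_of_notMem hxZ
    have hW : q ∈ cols c (k+1) (insert x Z) ∨ q' ∈ cols c (k+1) (insert x Z) := by
      by_contra h
      push Not at h
      have h1 := hZmax (insert x Z) hWX (by
        refine ⟨hZ0Z.trans (Finset.subset_insert _ _), ?_⟩
        intro S hS h2
        rcases h2 with h2 | h2
        · apply h.1
          unfold cols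
          rw [Finset.mem_image]
          exact ⟨S, hS, h2⟩
        · apply h.2
          unfold cols
          rw [Finset.mem_image]
          exact ⟨S, hS, h2⟩)
      omega
    have hWb := hboth (insert x Z) hWX (by omega)
    have hqW : q ∈ cols c (k+1) (insert x Z) := by tauto
    have hq'W : q' ∈ cols c (k+1) (insert x Z) := by tauto
    obtain ⟨z0, hz0⟩ : (cols c (k+1) Z).Nonempty := by
      obtain ⟨S, hS, hSc⟩ := Finset.exists_subset_card_eq (show k + 1 ≤ Z.card by omega)
      refine ⟨c S, ?_⟩
      unfold cols
      apply Finset.mem_image_of_mem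
      rw [Finset.mem_powersetCard]; exact ⟨hS, hSc⟩
    obtain ⟨hlink, hD1, hD2, hgood⟩ := link_count c k l X Z x (by omega) hXk heq hZX hx hxZ
      (by omega) z0 hz0 (cols c (k+1) (insert x Z) \ cols c (k+1) Z) rfl
      (fun S => if c (insert x S) ∈ (cols c (k+1) (insert x Z) \ cols c (k+1) Z)
        then c (insert x S) else z0) rfl
    set D := cols c (k+1) (insert x Z) \ cols c (k+1) Z with hD
    have hqD : q ∈ D := by rw [hD, Finset.mem_sdiff]; exact ⟨hqW, hqZ⟩
    have hq'D : q' ∈ D := by rw [hD, Finset.mem_sdiff]; exact ⟨hq'W, hq'Z⟩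
    obtain ⟨C', hC'1, hC'2⟩ := hg2 α κ Z _ (by omega) hlink q (hD1 hqD) q' (hD1 hq'D) hne
    have h3 := hcon _ (hgood C' hC'1)
    apply hC'2
    rw [Finset.mem_union, Finset.mem_union, Finset.mem_inter, Finset.mem_inter] at h3
    constructor
    · intro h
      rcases h3.1 (Or.inr ⟨h, hqD⟩) with h4 | h4
      · exact absurd h4 hq'Z
      · exact h4.1
    · intro h
      rcases h3.2 (Or.inr ⟨h, hq'D⟩) with h4 | h4
      · exact absurd h4 hqZ
      · exact h4.1

/-- Construction of the triangular order. -/
theorem triangular {α κ : Type} [DecidableEq α] [Fintype κ] [DecidableEq κ]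
    (k l : ℕ) (X : Finset α) (c : Finset α → κ) (hkl : k ≤ l) (hX : k + l ≤ X.card)
    (heq : (schs c k l X).card = (cols c k X).card)
    (hsep : ∀ q ∈ cols c k X, ∀ q' ∈ cols c k X, q ≠ q' →
        ∃ C : Finset κ, (pur c k l X C).card = C.card ∧ ¬ (q ∈ C ↔ q' ∈ C)) :
    ∀ m : ℕ, m ≤ (cols c k X).card → ∃ (f : Fin m → κ) (T : Fin m → Finset α),
      Function.Injective f ∧ (pur c k l X (Finset.univ.image f)).card = (Finset.univ.image f).card ∧
      (∀ j, T j ∈ X.powersetCard l) ∧ (∀ j b, sch c k (T j) b ≠ 0 → b ∈ Finset.univ.image f) ∧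
      (∀ i j : Fin m, j < i → sch c k (T j) (f i) = 0) ∧ (∀ j, sch c k (T j) (f j) ≠ 0) := by
  have hpos : 0 < l.choose k := Nat.choose_pos hkl
  have hnz : ∀ T ∈ X.powersetCard l, ∃ b, sch c k T b ≠ 0 := by
    intro T hT
    rw [Finset.mem_powersetCard] at hT
    obtain ⟨S, hS, hSc⟩ := Finset.exists_subset_card_eq (show k ≤ T.card by omega)
    refine ⟨c S, ?_⟩
    unfold sch
    rw [Finset.card_ne_zero]
    exact ⟨S, by rw [Finset.mem_filter, Finset.mem_powersetCard]; exact ⟨⟨hS, hSc⟩, rfl⟩⟩
  intro m
  induction m with
  | zero =>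
    intro _
    refine ⟨Fin.elim0, Fin.elim0, fun i => i.elim0, ?_, fun i => i.elim0, fun i => i.elim0,
      fun i => i.elim0, fun i => i.elim0⟩
    have h1 : (Finset.univ.image (Fin.elim0 : Fin 0 → κ)) = ∅ := by simp
    rw [h1, Finset.card_empty, Finset.card_eq_zero, Finset.eq_empty_iff_forall_notMem]
    intro v hv
    unfold pur at hv
    rw [Finset.mem_filter] at hv
    obtain ⟨hv1, hv2⟩ := hv
    unfold schs at hv1
    rw [Finset.mem_image] at hv1
    obtain ⟨T, hT, rfl⟩ := hv1
    obtain ⟨b, hb⟩ := hnz T hT
    have := hv2 b hb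
    simp at this
  | succ m ihm =>
    intro hm
    obtain ⟨f, T, hf, hgood, hT, hsupp, htri, hdiag⟩ := ihm (by omega)
    set C := Finset.univ.image f with hC
    have hCc : C.card = m := by
      rw [hC, Finset.card_image_of_injective _ hf]; simp
    have hcolsgood : (pur c k l X (cols c k X)).card = (cols c k X).card :=
      (hered c k l hkl hX heq (Finset.Subset.refl X) hX).2
    have hCsub : C ⊆ cols c k X := by
      have h1 := pur_card_le' c k l X hkl hX heq C
      rw [hgood] at h1
      have h2 : cols c k X ∩ C = C := Finset.eq_of_subset_of_card_le Finset.inter_subset_right h1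
      rw [← h2]
      exact Finset.inter_subset_left
    -- minimal good superset
    obtain ⟨C', hC'mem, hC'min⟩ := Finset.exists_min_image
      ((cols c k X).powerset.filter (fun C' => C ⊂ C' ∧ (pur c k l X C').card = C'.card))
      Finset.card ⟨cols c k X, by
        rw [Finset.mem_filter, Finset.mem_powerset]
        refine ⟨Finset.Subset.refl _, ?_, hcolsgood⟩
        rw [Finset.ssubset_iff_subset_ne]
        refine ⟨hCsub, fun h => ?_⟩
        rw [← h] at hm
        omega⟩
    rw [Finset.mem_filter, Finset.mem_powerset] at hC'mem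
    obtain ⟨hC'sub, hCC', hC'good⟩ := hC'mem
    obtain ⟨q, hqC', hqC⟩ := Finset.exists_of_ssubset hCC'
    have huniq : ∀ q' ∈ C', q' ∉ C → q' = q := by
      intro q' hq'C' hq'C
      by_contra hne
      obtain ⟨G, hG1, hG2⟩ := hsep q' (hC'sub hq'C') q (hC'sub hqC') hne
      have h1 := (good_inter_union c k l hkl hX heq hG1 hC'good).1
      have h2 := (good_inter_union c k l hkl hX heq hgood h1).2
      have h3 : C ∪ (G ∩ C') ⊆ C' := Finset.union_subset hCC'.1 Finset.inter_subset_right
      have h4 : C ∪ (G ∩ C') ≠ C' := by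
        intro h
        apply hG2
        have e1 : q' ∈ C ∪ (G ∩ C') := by rw [h]; exact hq'C'
        have e2 : q ∈ C ∪ (G ∩ C') := by rw [h]; exact hqC'
        rw [Finset.mem_union, Finset.mem_inter] at e1 e2
        tauto
      have h5 : (C ∪ (G ∩ C')).card < C'.card :=
        Finset.card_lt_card (Finset.ssubset_iff_subset_ne.2 ⟨h3, h4⟩)
      have h6 : C ⊂ C ∪ (G ∩ C') := by
        rw [Finset.ssubset_iff_subset_ne]
        refine ⟨Finset.subset_union_left, ?_⟩
        intro h
        apply hG2
        constructor
        · intro hqG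
          exfalso
          apply hq'C
          rw [h, Finset.mem_union, Finset.mem_inter]
          exact Or.inr ⟨hqG, hq'C'⟩
        · intro hqG
          exfalso
          apply hqC
          rw [h, Finset.mem_union, Finset.mem_inter]
          exact Or.inr ⟨hqG, hqC'⟩
      have h7 := hC'min (C ∪ (G ∩ C')) (by
        rw [Finset.mem_filter, Finset.mem_powerset]
        exact ⟨h3.trans hC'sub, h6, h2⟩)
      omega
    have hC'eq : C' = insert q C := by
      ext b
      rw [Finset.mem_insert]
      constructor
      · intro hb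
        by_cases hbC : b ∈ C
        · exact Or.inr hbC
        · exact Or.inl (huniq b hb hbC)
      · rintro (rfl | hb)
        · exact hqC'
        · exact hCC'.1 hb
    -- a column in pur C' not in pur C
    obtain ⟨v, hv, hvC⟩ : ∃ v ∈ pur c k l X C', v ∉ pur c k l X C := by
      by_contra h
      push Not at h
      have h1 := Finset.card_le_card (show pur c k l X C' ⊆ pur c k l X C from h)
      rw [hC'good, hgood, hC'eq, Finset.card_insert_of_notMem hqC] at h1
      omega
    have hv' := hv
    unfold pur at hv hvC
    rw [Finset.mem_filter] at hv hvC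
    obtain ⟨hv1, hv2⟩ := hv
    have hvq : v q ≠ 0 := by
      intro hvq
      apply hvC
      refine ⟨hv1, fun b hb => ?_⟩
      have := hv2 b hb
      rw [hC'eq, Finset.mem_insert] at this
      rcases this with rfl | h
      · exact absurd hvq hb
      · exact h
    unfold schs at hv1
    rw [Finset.mem_image] at hv1
    obtain ⟨T0, hT0, rfl⟩ := hv1
    have hrange : Finset.univ.image (Fin.snoc f q : Fin (m+1) → κ) = insert q C := by
      ext b
      rw [Finset.mem_image, Finset.mem_insert, hC, Finset.mem_image]
      constructor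
      · rintro ⟨i, _, hi⟩
        refine Fin.lastCases ?_ ?_ i (motive := fun i => (Fin.snoc f q : Fin (m+1) → κ) i = b → _) hi
        · intro h; rw [Fin.snoc_last] at h; exact Or.inl h.symm
        · intro j h; rw [Fin.snoc_castSucc] at h; exact Or.inr ⟨j, Finset.mem_univ _, h⟩
      · rintro (rfl | ⟨j, _, hj⟩)
        · exact ⟨Fin.last m, Finset.mem_univ _, by rw [Fin.snoc_last]⟩
        · exact ⟨j.castSucc, Finset.mem_univ _, by rw [Fin.snoc_castSucc]; exact hj⟩
    refine ⟨Fin.snoc f q, Fin.snoc T T0, ?_, ?_, ?_, ?_, ?_, ?_⟩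
    · intro i j
      refine Fin.lastCases ?_ ?_ i
      · refine Fin.lastCases ?_ ?_ j
        · intro _; rfl
        · intro j h
          rw [Fin.snoc_last, Fin.snoc_castSucc] at h
          exfalso; apply hqC
          rw [hC, Finset.mem_image]
          exact ⟨j, Finset.mem_univ _, h.symm⟩
      · intro i
        refine Fin.lastCases ?_ ?_ j
        · intro h
          rw [Fin.snoc_last, Fin.snoc_castSucc] at h
          exfalso; apply hqC
          rw [hC, Finset.mem_image]
          exact ⟨i, Finset.mem_univ _, h⟩
        · intro j h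
          rw [Fin.snoc_castSucc, Fin.snoc_castSucc] at h
          rw [hf h]
    · rw [hrange, ← hC'eq]; exact hC'good
    · intro j
      refine Fin.lastCases ?_ ?_ j
      · rw [Fin.snoc_last]; exact hT0
      · intro j; rw [Fin.snoc_castSucc]; exact hT j
    · intro j b
      rw [hrange]
      refine Fin.lastCases ?_ ?_ j
      · rw [Fin.snoc_last]
        intro hb
        rw [← hC'eq]; exact hv2 b hb
      · intro j; rw [Fin.snoc_castSucc]
        intro hb
        exact Finset.mem_insert_of_mem (hsupp j b hb)
    · intro i j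
      refine Fin.lastCases ?_ ?_ i
      · refine Fin.lastCases ?_ ?_ j
        · intro h; exact absurd h (lt_irrefl _)
        · intro j _
          rw [Fin.snoc_last, Fin.snoc_castSucc]
          by_contra h
          exact hqC (hsupp j q h)
      · intro i
        refine Fin.lastCases ?_ ?_ j
        · intro h
          exact absurd h (not_lt.2 (Fin.le_last _))
        · intro j h
          rw [Fin.snoc_castSucc, Fin.snoc_castSucc]
          exact htri i j (by simpa using h)
    · intro j
      refine Fin.lastCases ?_ ?_ j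
      · rw [Fin.snoc_last, Fin.snoc_last]; exact hvq
      · intro j; rw [Fin.snoc_castSucc, Fin.snoc_castSucc]; exact hdiag j

/-- There is g(k,l) so that for k<l, n≥g(k,l), any colouring of k-subsets of an n-set using all r colours with exactly r distinct count-vectors on l-sets admits orderings making the colour-by-scheme count matrix upper triangular with nonzero diagonal. -/
theorem result :
    ∃ g : ℕ → ℕ → ℕ, ∀ k l : ℕ, k < l → ∀ n r : ℕ, g k l ≤ n →
      ∀ c : Finset (Fin n) → Fin r,
        (∀ i : Fin r, ∃ K : Finset (Fin n), K.card = k ∧ c K = i) →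
        (((Finset.univ : Finset (Finset (Fin n))).filter (fun L => L.card = l)).image
            (fun L => fun i : Fin r => ((L.powersetCard k).filter (fun K => c K = i)).card)).card = r →
        ∃ e : Fin r ≃ Fin r, ∃ σ : Fin r → Finset (Fin n),
          (∀ j, (σ j).card = l) ∧
          Function.Injective
            (fun j => fun i : Fin r => (((σ j).powersetCard k).filter (fun K => c K = i)).card) ∧
          (∀ i j : Fin r, j < i →
            (((σ j).powersetCard k).filter (fun K => c K = e i)).card = 0) ∧
          (∀ j : Fin r,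
            (((σ j).powersetCard k).filter (fun K => c K = e j)).card ≠ 0) := by
  have key : ∀ k l : ℕ, ∃ g : ℕ, k < l → (k + l ≤ g ∧ ∀ (α κ : Type) [DecidableEq α] [Fintype κ]
      [DecidableEq κ]
      (X : Finset α) (c : Finset α → κ), g ≤ X.card →
      (schs c k l X).card = (cols c k X).card →
      ∀ q ∈ cols c k X, ∀ q' ∈ cols c k X, q ≠ q' →
        ∃ C : Finset κ, (pur c k l X C).card = C.card ∧ ¬ (q ∈ C ↔ q' ∈ C)) := by
    intro k l
    by_cases h : k < l
    · obtain ⟨g, hg⟩ := separation k l h
      exact ⟨g, fun _ => hg⟩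
    · exact ⟨0, fun h' => absurd h' h⟩
  choose g hg using key
  refine ⟨g, ?_⟩
  intro k l hkl n r hn c hsurj hcard
  obtain ⟨hg1, hg2⟩ := hg k l hkl
  have hfilter : ((Finset.univ : Finset (Finset (Fin n))).filter (fun L => L.card = l))
      = (Finset.univ : Finset (Fin n)).powersetCard l := by
    ext L
    simp [Finset.mem_powersetCard]
  rw [hfilter] at hcard
  have hcols : cols c k (Finset.univ : Finset (Fin n)) = Finset.univ := by
    rw [Finset.eq_univ_iff_forall]
    intro i
    obtain ⟨K, hK, hcK⟩ := hsurj i
    unfold cols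
    rw [Finset.mem_image]
    exact ⟨K, by simp [Finset.mem_powersetCard, hK], hcK⟩
  have hcolsc : (cols c k (Finset.univ : Finset (Fin n))).card = r := by
    rw [hcols]; simp
  have heq : (schs c k l (Finset.univ : Finset (Fin n))).card
      = (cols c k (Finset.univ : Finset (Fin n))).card := by
    rw [hcolsc]; exact hcard
  have hXc : k + l ≤ (Finset.univ : Finset (Fin n)).card := by simp; omega
  have hsep := hg2 (Fin n) (Fin r) Finset.univ c (by simpa using hn) heq
  obtain ⟨f, T, hf, _, hT, _, htri, hdiag⟩ :=
    triangular k l Finset.univ c (by omega) hXc heq hsep r (by omega)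
  have hbij : Function.Bijective f := Finite.injective_iff_bijective.1 hf
  refine ⟨Equiv.ofBijective f hbij, T, ?_, ?_, ?_, ?_⟩
  · intro j
    exact (Finset.mem_powersetCard.1 (hT j)).2
  · intro i j hij
    rcases lt_trichotomy i j with h | h | h
    · exfalso
      have h1 := htri j i h
      have h2 := hdiag j
      have h3 := congrFun hij (f j)
      unfold sch at h1 h2
      simp only at h3
      omega
    · exact h
    · exfalso
      have h1 := htri i j h
      have h2 := hdiag i
      have h3 := congrFun hij (f i)
      unfold sch at h1 h2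
      simp only at h3
      omega
  · intro i j hij
    exact htri i j hij
  · intro j
    exact hdiag j

end Pool.Agent.S05623
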