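import Pool.Statements.S05646

/-!
An avoidable pattern with an isolated avoiding word (so the avoiding set is not perfect).

The pattern is p = E X0 [x4 y z y y z] X1 [x1 v x2 v x2] X2 [x0] X3 [x6], where
E = s^5 x4 s x1 s x2 s x0 s S1 x6 S2 s^5 and X0, X1, X2, X3, S1, S2 are isolated variables.
The fixed prefix of length 248 contains ten images of E, each with its own letter for s; these make the
variables x0, x1, x2, x4, x6 behave as constants for the rest of the word. The ten resulting
families of forbidden factors force every continuation by 0110 to be the Thue Morse word.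
-/

set_option autoImplicit false
open Pool Pool.MP_554eee_co

namespace Pool.Agent.S05646

/-- Thue Morse word -/
def tm : ℕ → Bool
  | 0 => false
  | (n+1) => if (n+1) % 2 = 0 then tm ((n+1)/2) else !tm ((n+1)/2)
decreasing_by all_goals omega

theorem tm_zero : tm 0 = false := by rw [tm]

theorem tm_even (n : ℕ) : tm (2*n) = tm n := by
  cases n with
  | zero => rfl
  | succ k =>
    have h1 : (2*(k+1)) = (2*k+1)+1 := by ring
    rw [h1, tm]
    have h2 : (2*k+1+1) % 2 = 0 := by omega
    have h3 : (2*k+1+1)/2 = k+1 := by omega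
    rw [if_pos h2, h3]

theorem tm_odd (n : ℕ) : tm (2*n+1) = !tm n := by
  rw [tm]
  have h2 : ¬ (2*n+1) % 2 = 0 := by omega
  have h3 : (2*n+1)/2 = n := by omega
  rw [if_neg h2, h3]

theorem tm_ne (n : ℕ) : tm (2*n) ≠ tm (2*n+1) := by
  rw [tm_even, tm_odd]; cases tm n <;> simp

theorem tm_ne' {n : ℕ} (h : n % 2 = 0) : tm n ≠ tm (n+1) := by
  obtain ⟨m, rfl⟩ : ∃ m, n = 2*m := ⟨n/2, by omega⟩
  exact tm_ne m

theorem tm_half {n m : ℕ} (h : n = 2*m) : tm n = tm m := by rw [h, tm_even]

theorem tm1 : tm 1 = true := by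
  have := tm_odd 0
  simpa [tm_zero] using this
theorem tm2 : tm 2 = true := by
  have := tm_even 1
  simpa [tm1] using this
theorem tm3 : tm 3 = false := by
  have := tm_odd 1
  simpa [tm1] using this

/-- no overlap -/
theorem tm_ov : ∀ q, 1 ≤ q → ∀ i, ¬ ∀ j ≤ q, tm (i+j) = tm (i+j+q) := by
  intro q
  induction q using Nat.strong_induction_on with
  | _ q ih =>
  intro hq i h
  rcases Nat.even_or_odd q with he | ho
  · obtain ⟨r, hr⟩ := he
    have hr' : q = 2*r := by omega
    rcases Nat.even_or_odd i with hi | hi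
    · obtain ⟨k, hk⟩ := hi
      apply ih r (by omega) (by omega) k
      intro j hj
      have := h (2*j) (by omega)
      rw [tm_half (show i + 2*j = 2*(k+j) by omega), tm_half (show i + 2*j + q = 2*(k+j+r) by omega)] at this
      exact this
    · obtain ⟨k, hk⟩ := hi
      apply ih r (by omega) (by omega) k
      intro j hj
      rcases Nat.eq_zero_or_pos j with h0 | h0
      · subst h0
        have := h 0 (by omega)
        rw [show i + 0 = 2*k+1 by omega, show 2*k+1+q = 2*(k+r)+1 by omega, tm_odd, tm_odd] at this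
        simpa using this
      · have := h (2*j-1) (by omega)
        rw [tm_half (show i + (2*j-1) = 2*(k+j) by omega), tm_half (show i + (2*j-1) + q = 2*(k+j+r) by omega)] at this
        exact this
  · have hodd : q % 2 = 1 := Nat.odd_iff.mp ho
    -- consecutive letters differ
    have key : ∀ j, j < q → tm (i+j) ≠ tm (i+j+1) := by
      intro j hj
      rcases Nat.mod_two_eq_zero_or_one (i+j) with h0 | h1
      · exact tm_ne' h0
      · have h2 := tm_ne' (show (i+j+q) % 2 = 0 by omega)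
        rw [h j (by omega), show i+j+1 = i+(j+1) by ring, h (j+1) (by omega)]
        rw [show i + (j+1) + q = i+j+q+1 by ring]
        exact h2
    have alt : ∀ j, j ≤ q → (tm (i+j) = (if j % 2 = 0 then tm i else !tm i)) := by
      intro j
      induction j with
      | zero => intro _; simp
      | succ n ihn =>
        intro hn
        have h1 := ihn (by omega)
        have h2 := key n (by omega)
        rw [h1] at h2
        rw [show i + (n+1) = i+n+1 by ring]
        rcases Nat.mod_two_eq_zero_or_one n with h0 | h0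
        · have h3 : ¬ ((n+1) % 2 = 0) := by omega
          rw [if_pos h0] at h2
          rw [if_neg h3]
          revert h2; cases tm i <;> cases tm (i+n+1) <;> simp
        · have h3 : ((n+1) % 2 = 0) := by omega
          have h4 : ¬ (n % 2 = 0) := by omega
          rw [if_neg h4] at h2
          rw [if_pos h3]
          revert h2; cases tm i <;> cases tm (i+n+1) <;> simp
    have h5 := alt q le_rfl
    have h6 := h 0 (by omega)
    rw [if_neg (by omega)] at h5
    simp only [Nat.add_zero] at h6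
    rw [h5] at h6
    revert h6; cases tm i <;> simp

/-- no prefix square -/
theorem tm_sq : ∀ q, 1 ≤ q → ¬ ∀ j < q, tm j = tm (j+q) := by
  intro q
  induction q using Nat.strong_induction_on with
  | _ q ih =>
  intro hq h
  rcases Nat.even_or_odd q with he | ho
  · obtain ⟨r, hr⟩ := he
    apply ih r (by omega) (by omega)
    intro j hj
    have := h (2*j) (by omega)
    rw [tm_half (show 2*j = 2*j by omega), tm_half (show 2*j + q = 2*(j+r) by omega)] at this
    exact this
  · have hodd : q % 2 = 1 := Nat.odd_iff.mp ho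
    by_cases h1 : q = 1
    · subst h1
      have := h 0 (by omega)
      simp [tm_zero, tm1] at this
    · -- t1 = t2 gives contradiction
      have e1 := h 1 (by omega)
      have e2 := h 2 (by omega)
      have h2 := tm_ne' (show (1+q) % 2 = 0 by omega)
      rw [← e1, show 1 + q + 1 = 2+q by ring, ← e2, tm1, tm2] at h2
      exact h2 rfl

/-- no prefix of the form yzyyz -/
theorem tm_p3 : ∀ l, 1 ≤ l → ∀ m, 1 ≤ m →
    ¬ ((∀ j < l, tm j = tm (l+m+j)) ∧ (∀ j < l, tm j = tm (2*l+m+j)) ∧
      (∀ j < m, tm (l+j) = tm (3*l+m+j))) := by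
  intro l
  induction l using Nat.strong_induction_on with
  | _ l ih =>
  intro hl m hm ⟨h1, h2, h3⟩
  rcases Nat.even_or_odd l with he | ho
  · obtain ⟨r, hr⟩ := he
    rcases Nat.even_or_odd m with hme | hmo
    · obtain ⟨s, hs⟩ := hme
      apply ih r (by omega) (by omega) s (by omega)
      refine ⟨?_, ?_, ?_⟩
      · intro j hj
        have := h1 (2*j) (by omega)
        rw [tm_half (show 2*j = 2*j by omega), tm_half (show l+m+2*j = 2*(r+s+j) by omega)] at this
        exact this
      · intro j hj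
        have := h2 (2*j) (by omega)
        rw [tm_half (show 2*j = 2*j by omega), tm_half (show 2*l+m+2*j = 2*(2*r+s+j) by omega)] at this
        exact this
      · intro j hj
        have := h3 (2*j) (by omega)
        rw [tm_half (show l+2*j = 2*(r+j) by omega), tm_half (show 3*l+m+2*j = 2*(3*r+s+j) by omega)] at this
        exact this
    · have hm1 : m % 2 = 1 := Nat.odd_iff.mp hmo
      by_cases hl2 : l = 2
      · subst hl2
        -- P = 2 + m odd
        have a0 := h1 1 (by omega)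
        have a1 := h2 0 (by omega)
        have a2 := h2 1 (by omega)
        have b0 := h3 0 (by omega)
        -- tm (m+6) = tm 2 = 1 ; tm (m+5) = tm 1 = 1 , m+5 even
        have c := tm_ne' (show (2*2+m+1) % 2 = 0 by omega)
        rw [← a2, show 2*2+m+1+1 = 3*2+m+0 by ring, ← b0] at c
        simp [tm1, tm2] at c
      · have a1 := h1 1 (by omega)
        have a2 := h1 2 (by omega)
        have c := tm_ne' (show (l+m+1) % 2 = 0 by omega)
        rw [← a1, show l+m+1+1 = l+m+2 by ring, ← a2, tm1, tm2] at c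
        exact c rfl
  · have hodd : l % 2 = 1 := Nat.odd_iff.mp ho
    by_cases hl1 : l = 1
    · subst hl1
      have a0 := h1 0 (by omega)
      have a1 := h2 0 (by omega)
      -- tm (m+1) = tm (m+2) = 0
      have hm2 : m % 2 = 0 := by
        by_contra hcon
        have c := tm_ne' (show (1+m+0) % 2 = 0 by omega)
        rw [← a0, show 1+m+0+1 = 2*1+m+0 by ring, ← a1] at c
        exact c rfl
      have b := h3 (m-1) (by omega)
      rw [show 1+(m-1) = m by omega, tm_half (show 3*1+m+(m-1) = 2*(m+1) by omega)] at b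
      have c := tm_ne' hm2
      exact c b
    · have a1 := h1 1 (by omega)
      have a2 := h1 2 (by omega)
      have b1 := h2 1 (by omega)
      have b2 := h2 2 (by omega)
      rcases Nat.mod_two_eq_zero_or_one (l+m+1) with h0 | h0
      · have c := tm_ne' h0
        rw [← a1, show l+m+1+1 = l+m+2 by ring, ← a2, tm1, tm2] at c
        exact c rfl
      · have c := tm_ne' (show (2*l+m+1) % 2 = 0 by omega)
        rw [← b1, show 2*l+m+1+1 = 2*l+m+2 by ring, ← b2, tm1, tm2] at c
        exact c rfl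

/-- rigidity conditions -/
structure K (X : ℕ → Bool) : Prop where
  ov : ∀ q, 1 ≤ q → ∀ i, ¬ ∀ j ≤ q, X (i+j) = X (i+j+q)
  sq : ∀ q, 1 ≤ q → ¬ ∀ j < q, X j = X (j+q)
  p3 : ∀ l, 1 ≤ l → ∀ m, 1 ≤ m →
    ¬ ((∀ j < l, X j = X (l+m+j)) ∧ (∀ j < l, X j = X (2*l+m+j)) ∧
      (∀ j < m, X (l+j) = X (3*l+m+j)))
  z : X 0 = false

theorem bne_of {a b c : Bool} (h1 : a ≠ b) (h2 : b ≠ c) : a = c := by
  revert h1 h2; cases a <;> cases b <;> cases c <;> simp

theorem K.start {X : ℕ → Bool} (hK : K X) : X 1 = true ∧ X 2 = true ∧ X 3 = false := by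
  have h0 := hK.z
  have h1 : X 1 = true := by
    by_contra h
    simp only [Bool.not_eq_true] at h
    apply hK.sq 1 (by omega)
    intro j hj
    interval_cases j
    simp [h0, h]
  have h2 : X 2 = true := by
    by_contra h
    simp only [Bool.not_eq_true] at h
    have h3 : X 3 = false := by
      by_contra h3
      simp only [Bool.not_eq_false] at h3
      apply hK.sq 2 (by omega)
      intro j hj
      interval_cases j <;> simp [h0, h, h1, h3]
    have h4 : X 4 = true := by
      by_contra h4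
      simp only [Bool.not_eq_true] at h4
      apply hK.ov 1 (by omega) 2
      intro j hj
      interval_cases j <;> simp [h, h3, h4]
    apply hK.p3 1 (by omega) 1 (by omega)
    refine ⟨?_, ?_, ?_⟩ <;> intro j hj <;> interval_cases j <;> simp [h0, h1, h, h3, h4]
  refine ⟨h1, h2, ?_⟩
  by_contra h3
  simp only [Bool.not_eq_false] at h3
  apply hK.ov 1 (by omega) 1
  intro j hj
  interval_cases j <;> simp [h1, h2, h3]

theorem K.align {X : ℕ → Bool} (hK : K X) : ∀ n, X (2*n) ≠ X (2*n+1) := by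
  obtain ⟨h1, h2, h3⟩ := hK.start
  have h0 := hK.z
  intro n
  induction n using Nat.strong_induction_on with
  | _ n ih =>
  by_cases hn0 : n = 0
  · subst hn0; simp [h0, h1]
  by_cases hn1 : n = 1
  · subst hn1; simp [h2, h3]
  intro heq
  -- blocks n-1, n-2 are good
  have g1 := ih (n-1) (by omega)
  have g2 := ih (n-2) (by omega)
  obtain ⟨m, rfl⟩ : ∃ m, n = m + 2 := ⟨n-2, by omega⟩
  rw [show m+2-1 = m+1 by omega] at g1
  rw [show m+2-2 = m by omega] at g2
  rw [show 2*(m+1) = 2*m+2 by ring] at g1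
  rw [show 2*(m+2) = 2*m+4 by ring] at heq
  -- names : X(2m),X(2m+1),X(2m+2),X(2m+3),X(2m+4)=X(2m+5),X(2m+6)
  have e1 : X (2*m+3) ≠ X (2*m+4) := by
    intro h
    apply hK.ov 1 (by omega) (2*m+3)
    intro j hj
    interval_cases j
    · simpa using h
    · simpa using heq
  have e2 : X (2*m+5) ≠ X (2*m+6) := by
    intro h
    apply hK.ov 1 (by omega) (2*m+4)
    intro j hj
    interval_cases j
    · simpa using heq
    · simpa using h
  have e3 : X (2*m+2) = X (2*m+4) := bne_of g1 e1
  by_cases e4 : X (2*m+1) = X (2*m+3)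
  · have e5 : X (2*m) = X (2*m+2) := by
      have : X (2*m+3) ≠ X (2*m+2) := fun h => g1 h.symm
      exact bne_of g2 (by rw [e4]; exact this)
    apply hK.ov 2 (by omega) (2*m)
    intro j hj
    interval_cases j
    · simpa using e5
    · simpa using e4
    · simpa using e3
  · -- period 3
    have e6 : X (2*m+1) = X (2*m+4) := bne_of e4 e1
    have e7 : X (2*m) = X (2*m+3) := bne_of g2 (by rw [e6]; exact fun h => e1 h.symm)
    apply hK.ov 3 (by omega) (2*m)
    intro j hj
    interval_cases j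
    · simpa using e7
    · simpa using e6
    · show X (2*m+2) = X (2*m+2+3)
      rw [e3, heq]
    · show X (2*m+3) = X (2*m+3+3)
      have : X (2*m+5) ≠ X (2*m+3) := by rw [← heq]; exact fun h => e1 h.symm
      exact bne_of (fun h => this h.symm) e2

theorem K.half {X : ℕ → Bool} (hK : K X) : K (fun n => X (2*n)) := by
  have al := hK.align
  have odd : ∀ a b, X (2*a) = X (2*b) → X (2*a+1) = X (2*b+1) := by
    intro a b h
    have h1 := al a
    have h2 := al b
    rw [h] at h1
    exact bne_of (fun h => h1 h.symm) h2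
  -- uniform transfer
  have tr : ∀ j a b, (∀ j', 2*j' ≤ j → j ≤ 2*j'+1 → X (2*(a+j')) = X (2*(b+j'))) → X (2*a+j) = X (2*b+j) := by
    intro j a b h
    rcases Nat.mod_two_eq_zero_or_one j with h0 | h0
    · have := h (j/2) (by omega) (by omega)
      rw [show 2*a+j = 2*(a+j/2) by omega, show 2*b+j = 2*(b+j/2) by omega]
      exact this
    · have := odd _ _ (h (j/2) (by omega) (by omega))
      rw [show 2*a+j = 2*(a+j/2)+1 by omega, show 2*b+j = 2*(b+j/2)+1 by omega]
      exact this
  refine ⟨?_, ?_, ?_, ?_⟩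
  · intro q hq i h
    apply hK.ov (2*q) (by omega) (2*i)
    intro j hj
    rw [show 2*i+j+2*q = 2*(i+q)+j by ring]
    apply tr
    intro j' h1 h2
    have := h j' (by omega)
    rw [show i + q + j' = i+j'+q by ring]
    exact this
  · intro q hq h
    apply hK.sq (2*q) (by omega)
    intro j hj
    have := tr j 0 q (by
      intro j' h1 h2
      have := h j' (by omega)
      rw [show 0 + j' = j' by ring, show q + j' = j'+q by ring]
      exact this)
    rw [show j + 2*q = 2*q+j by ring]
    simpa using this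
  · intro l hl m hm ⟨h1, h2, h3⟩
    apply hK.p3 (2*l) (by omega) (2*m) (by omega)
    refine ⟨?_, ?_, ?_⟩
    · intro j hj
      have := tr j 0 (l+m) (by
        intro j' ha hb
        have := h1 j' (by omega)
        simpa using this)
      rw [show 2*l+2*m+j = 2*(l+m)+j by ring]
      simpa using this
    · intro j hj
      have := tr j 0 (2*l+m) (by
        intro j' ha hb
        have := h2 j' (by omega)
        simpa using this)
      rw [show 2*(2*l)+2*m+j = 2*(2*l+m)+j by ring]
      simpa using this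
    · intro j hj
      have := tr j l (3*l+m) (by
        intro j' ha hb
        have := h3 j' (by omega)
        simpa using this)
      rw [show 3*(2*l)+2*m+j = 2*(3*l+m)+j by ring]
      exact this
  · simpa using hK.z

theorem K.unique : ∀ n (X : ℕ → Bool), K X → X n = tm n := by
  intro n
  induction n using Nat.strong_induction_on with
  | _ n ih =>
  intro X hK
  by_cases h0 : n = 0
  · subst h0; rw [hK.z, tm_zero]
  · have hh := ih (n/2) (by omega) _ hK.half
    rcases Nat.mod_two_eq_zero_or_one n with h1 | h1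
    · rw [show 2*(n/2) = n by omega] at hh
      rw [hh, tm_half (show n = 2*(n/2) by omega)]
    · have := hK.align (n/2)
      rw [show 2*(n/2)+1 = n by omega] at this
      have h2 := tm_odd (n/2)
      rw [show 2*(n/2)+1 = n by omega] at h2
      rw [h2, ← hh]
      revert this
      cases X (2*(n/2)) <;> cases X n <;> simp


def UN : ℕ := 0x324242424044042eeeee1100e0e0e1e3eeeeeddddd1100d0d1d0d3dddddccccc1100c0c1c3c2cccccbbbbb1100b0b0b3b2bbbbbaaaaa1100a0a1a1a2aaaaa9999911009090909299999888881100811182828288888777771100700072727277777666664546262626266666555554edcba987642345252525255555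

def ul (n : ℕ) : ℕ := (UN >>> (4*n)) % 16

def starts : List ℕ := [0, 27, 32, 48, 53, 72, 77, 96, 101, 118, 123, 140, 145, 162, 167, 184, 189, 206, 211, 228]

def c5 : Bool := (List.range 248).all fun i => (List.range 50).all fun l =>
  (l == 0) || decide (248 < i+5*l) || ((l == 1) && starts.contains i) ||
    (List.range (4*l)).any fun j => ul (i+j) != ul (i+j+l)

theorem c5_true : c5 = true := by decide +kernel

def cQ : Bool := (List.range 238).all fun g => (ul g != 2) ||
  (List.range 80).all fun ly => (ly == 0) ||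
    (List.range ((238 - (g+1+3*ly))/2 + 1)).all fun lz => (lz == 0) || decide (238 < g+1+3*ly+2*lz) ||
     ((List.range ly).any fun j => ul (g+1+j) != ul (g+1+ly+lz+j) || ul (g+1+j) != ul (g+1+2*ly+lz+j)) ||
     ((List.range lz).any fun j => ul (g+1+ly+j) != ul (g+1+3*ly+lz+j))

theorem cQ_true : cQ = true := by decide +kernel

def cT : Bool :=
  (List.range 16).all fun ly => (ly == 0) ||
    (List.range 16).all fun lz => (lz == 0) || decide (232 < 217+2*ly+lz) ||
     ((List.range ly).any fun j => decide (217+2*ly+lz+j < 248) && (ul (217+j) != ul (217+ly+lz+j) || ul (217+j) != ul (217+2*ly+lz+j))) ||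
     ((List.range lz).any fun j => decide (217+3*ly+lz+j < 248) && (ul (217+ly+j) != ul (217+3*ly+lz+j)))

theorem cT_true : cT = true := by decide +kernel


def W (n : ℕ) : ℕ := if n < 248 then ul n else (if tm (n-248) then 1 else 0)

def Occ (w : ℕ → ℕ) : ℕ → List ℕ → Prop
  | _, [] => True
  | i, a :: l => w i = a ∧ Occ w (i+1) l

theorem Occ_append (w : ℕ → ℕ) (l l' : List ℕ) : ∀ i, Occ w i (l ++ l') ↔ Occ w i l ∧ Occ w (i + l.length) l' := by
  induction l with
  | nil => intro i; simp [Occ]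
  | cons a l ih =>
    intro i
    simp only [List.cons_append, Occ, List.length_cons]
    rw [ih (i+1), show i + 1 + l.length = i + (l.length + 1) by ring]
    tauto

theorem Occ_get {w : ℕ → ℕ} {l : List ℕ} : ∀ {i : ℕ}, Occ w i l → ∀ j (hj : j < l.length), w (i+j) = l[j] := by
  induction l with
  | nil => intro i _ j hj; simp at hj
  | cons a l ih =>
    intro i h j hj
    cases j with
    | zero => simpa using h.1
    | succ j =>
      have := ih h.2 j (by simpa using hj)
      rw [show i + (j+1) = i+1+j by ring, this]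
      simp

theorem Occ_two {w : ℕ → ℕ} {l : List ℕ} {i i' : ℕ} (h : Occ w i l) (h' : Occ w i' l) :
    ∀ j < l.length, w (i+j) = w (i'+j) := by
  intro j hj
  rw [Occ_get h j hj, Occ_get h' j hj]

def seg (w : ℕ → ℕ) (a : ℕ) : ℕ → List ℕ
  | 0 => []
  | n+1 => w a :: seg w (a+1) n

theorem seg_length (w : ℕ → ℕ) : ∀ n a, (seg w a n).length = n := by
  intro n
  induction n with
  | zero => intro a; rfl
  | succ n ih => intro a; simp [seg, ih]

theorem Occ_seg_of (w : ℕ → ℕ) : ∀ n a b, (∀ j < n, w (a+j) = w (b+j)) → Occ w b (seg w a n) := by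
  intro n
  induction n with
  | zero => intro a b _; trivial
  | succ n ih =>
    intro a b h
    refine ⟨(h 0 (by omega)).symm, ih _ _ ?_⟩
    intro j hj
    have := h (j+1) (by omega)
    rw [show a+1+j = a+(j+1) by ring, show b+1+j = b+(j+1) by ring]
    exact this

theorem Occ_seg (w : ℕ → ℕ) (n a : ℕ) : Occ w a (seg w a n) := Occ_seg_of w n a a (fun _ _ => rfl)

theorem seg_ne (w : ℕ → ℕ) (n a : ℕ) (h : 0 < n) : seg w a n ≠ [] := by
  cases n with
  | zero => omega
  | succ n => simp [seg]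

def P : List (Fin 15) := [0,0,0,0,0,1,0,2,0,3,0,4,0,5,6,7,0,0,0,0,0,8,1,9,10,9,9,10,11,2,12,3,12,3,13,4,14,6]

theorem W_lt {n : ℕ} (h : n < 248) : W n = ul n := by simp [W, h]

theorem W_ge {n : ℕ} (h : 248 ≤ n) : W n = if tm (n-248) then 1 else 0 := by
  simp [W, show ¬ n < 248 by omega]

theorem W_bin {n : ℕ} (h : 248 ≤ n) : W n = 0 ∨ W n = 1 := by
  rw [W_ge h]; split <;> simp

theorem tm_eq_of_W {a b : ℕ} (ha : 248 ≤ a) (hb : 248 ≤ b) (h : W a = W b) : tm (a-248) = tm (b-248) := by
  rw [W_ge ha, W_ge hb] at h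
  have key : ∀ x y : Bool, ((if x = true then (1:ℕ) else 0) = if y = true then 1 else 0) → x = y := by decide
  exact key _ _ h

theorem chkH : ∀ n < 247, ul n = 3 → ul (n+1) ≠ 0 := by decide +kernel
theorem ul247 : ul 247 = 3 := by decide +kernel

theorem pow5 {i l : ℕ} (hl : 1 ≤ l) (he : ∀ j < 4*l, W (i+j) = W (i+j+l)) : l = 1 ∧ i ∈ starts := by
  by_cases h1 : i + 5*l ≤ 248
  · have h := c5_true
    simp only [c5, List.all_eq_true, List.mem_range, Bool.or_eq_true, beq_iff_eq,
      decide_eq_true_eq, Bool.and_eq_true, List.any_eq_true, bne_iff_ne, ne_eq] at h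
    rcases h i (by omega) l (by omega) with ((h2 | h2) | h2) | ⟨j, hj, h2⟩
    · omega
    · omega
    · exact ⟨h2.1, by simpa using h2.2⟩
    · exfalso
      apply h2
      have := he j hj
      rwa [W_lt (by omega), W_lt (by omega)] at this
  · exfalso
    by_cases h2 : 248 ≤ i
    · apply tm_ov l hl (i-248)
      intro j hj
      have := tm_eq_of_W (by omega) (by omega) (he j (by omega))
      rw [show i + j - 248 = i - 248 + j by omega, show i+j+l-248 = i-248+j+l by omega] at this
      exact this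
    · by_cases h3 : i + l ≤ 247
      · have a := he (247-l-i) (by omega)
        rw [show i+(247-l-i)+l = 247 by omega, show i+(247-l-i) = 247-l by omega,
          W_lt (by omega), W_lt (by omega), ul247] at a
        have b := he (248-l-i) (by omega)
        rw [show i+(248-l-i)+l = 248 by omega, show i+(248-l-i) = 247-l+1 by omega,
          W_lt (by omega), W_ge (le_refl _)] at b
        simp only [Nat.sub_self, tm_zero] at b
        exact chkH (247-l) (by omega) a (by simpa using b)
      · have a := he (247-i) (by omega)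
        rw [show i+(247-i) = 247 by omega, W_lt (by omega), ul247] at a
        rcases W_bin (show 248 ≤ 247+l by omega) with h | h <;> omega

theorem five {i : ℕ} {A : List ℕ} (hA : A ≠ []) (h1 : Occ W i A) (h2 : Occ W (i+A.length) A)
    (h3 : Occ W (i+A.length+A.length) A) (h4 : Occ W (i+A.length+A.length+A.length) A)
    (h5 : Occ W (i+A.length+A.length+A.length+A.length) A) : A.length = 1 ∧ i ∈ starts := by
  have hl : 1 ≤ A.length := List.length_pos_iff.mpr hA
  apply pow5 hl
  intro j hj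
  by_cases c1 : j < A.length
  · rw [Occ_two h1 h2 j c1, show i+j+A.length = i+A.length+j by ring]
  · by_cases c2 : j < 2*A.length
    · have := Occ_two h2 h3 (j-A.length) (by omega)
      rw [show i + A.length + (j-A.length) = i+j by omega] at this
      rw [this]; congr 1; omega
    · by_cases c3 : j < 3*A.length
      · have := Occ_two h3 h4 (j-2*A.length) (by omega)
        rw [show i + A.length + A.length + (j-2*A.length) = i+j by omega] at this
        rw [this]; congr 1; omega
      · have := Occ_two h4 h5 (j-3*A.length) (by omega)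
        rw [show i + A.length + A.length + A.length + (j-3*A.length) = i+j by omega] at this
        rw [this]; congr 1; omega

def ST (k : ℕ) : ℕ := [0, 32, 53, 77, 101, 123, 145, 167, 189, 211].getD k 0
def EN (k : ℕ) : ℕ := [27, 48, 72, 96, 118, 140, 162, 184, 206, 228].getD k 0
def XL (k : ℕ) : ℕ := [1, 1, 3, 3, 1, 1, 1, 1, 1, 1].getD k 0
def V1 (k : ℕ) : ℕ := [2,2,2,2,0,1,3,3,0,1].getD k 0
def V2 (k : ℕ) : ℕ := [2,2,2,2,0,1,0,1,1,0].getD k 0

theorem pairs : ∀ a ∈ starts, ∀ b ∈ starts, a < b → ul a = ul b →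
    ∃ k < 10, a = ST k ∧ b = EN k ∧ ul a = 5 + k := by decide +kernel

theorem sepk : ∀ k < 10, ∀ q < 248, (ST k + 5 ≤ q ∧ q < EN k ∧ ul q = 5+k) →
    (q = ST k + 6 ∨ q = ST k + 8 ∨ q = ST k + 10 ∨ q = ST k + 11 + XL k) := by decide +kernel

theorem bnd : ∀ k < 10, EN k ≤ 228 ∧ ST k + 16 ≤ EN k ∧ 1 ≤ XL k ∧ ST k + 12 + XL k + 3 ≤ EN k := by decide +kernel

theorem vals : ∀ k < 10, ul (ST k + 5) = (if k < 8 then 2 else 3) ∧ ul (ST k + 7) = V1 k ∧ ul (ST k + 9) = V2 k := by
  decide +kernel

theorem slot01 : ∀ k < 2, ∀ q < 248, ST k + 12 + XL k < q → q + 1 < EN k → 2 ≤ ul q := by decide +kernel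

theorem c3pos : ∀ q < 248, 240 ≤ q → (ul q = 3 → q = 247) ∧ 2 ≤ ul q := by decide +kernel
theorem c3pos' : ∀ q < 248, 212 ≤ q → (ul q = 3 → q = 216 ∨ q = 247) := by decide +kernel
theorem c14 : ∀ q < 248, 211 ≤ q → ul q = 14 → q ≤ 232 := by decide +kernel
theorem ul217 : ul 217 = 14 := by decide +kernel

theorem Q1 {g ly lz : ℕ} (h2 : W g = 2) (hy : 1 ≤ ly) (hz : 1 ≤ lz)
    (e1 : ∀ j < ly, W (g+1+j) = W (g+1+ly+lz+j)) (e2 : ∀ j < ly, W (g+1+j) = W (g+1+2*ly+lz+j))
    (e3 : ∀ j < lz, W (g+1+ly+j) = W (g+1+3*ly+lz+j)) : 239 ≤ g+1+3*ly+2*lz := by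
  by_contra hcon
  have h := cQ_true
  simp only [cQ, List.all_eq_true, List.mem_range, Bool.or_eq_true, beq_iff_eq,
      decide_eq_true_eq, List.any_eq_true, bne_iff_ne, ne_eq] at h
  rw [W_lt (by omega)] at h2
  rcases h g (by omega) with h3 | h3
  · exact h3 h2
  rcases h3 ly (by omega) with h4 | h4
  · omega
  rcases h4 lz (by omega) with ((h5 | h5) | ⟨j, hj, h5⟩) | ⟨j, hj, h5⟩
  · omega
  · omega
  · have a := e1 j hj
    have b := e2 j hj
    rw [W_lt (by omega), W_lt (by omega)] at a b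
    tauto
  · have a := e3 j hj
    rw [W_lt (by omega), W_lt (by omega)] at a
    tauto

theorem QT {ly lz : ℕ} (hy : 1 ≤ ly) (hz : 1 ≤ lz)
    (e1 : ∀ j < ly, W (217+j) = W (217+ly+lz+j)) (e2 : ∀ j < ly, W (217+j) = W (217+2*ly+lz+j))
    (e3 : ∀ j < lz, W (217+ly+j) = W (217+3*ly+lz+j)) : False := by
  have a := e2 0 (by omega)
  simp only [Nat.add_zero] at a
  rw [W_lt (show 217 < 248 by omega), ul217] at a
  have hb : 217 + 2*ly+lz < 248 := by
    by_contra hc
    rcases W_bin (show 248 ≤ 217+2*ly+lz by omega) with h | h <;> omega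
  rw [W_lt hb] at a
  have hb2 := c14 _ hb (by omega) a.symm
  have h := cT_true
  simp only [cT, List.all_eq_true, List.mem_range, Bool.or_eq_true, beq_iff_eq,
      decide_eq_true_eq, List.any_eq_true, bne_iff_ne, ne_eq, Bool.and_eq_true] at h
  rcases h ly (by omega) with h3 | h3
  · omega
  rcases h3 lz (by omega) with ((h5 | h5) | ⟨j, hj, h6, h5⟩) | ⟨j, hj, h6, h5⟩
  · omega
  · omega
  · have a := e1 j hj
    have b := e2 j hj
    rw [W_lt (by omega), W_lt (by omega)] at a b
    tauto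
  · have a := e3 j hj
    rw [W_lt (by omega), W_lt (by omega)] at a
    tauto

theorem pfree (h : Fin 15 → List ℕ) (hne : ∀ x, h x ≠ []) (i : ℕ) : ¬ Occ W i (P.flatMap h) := by
  intro H
  simp only [P, List.flatMap_cons, List.flatMap_nil, Occ_append, List.append_nil] at H
  obtain ⟨s1,s2,s3,s4,s5,v1,s6,v2,s7,v3,s8,v4,s9,S1,v6,S2,s10,s11,s12,s13,s14,X0,u1,y1,z1,y2,y3,z2,X1,u2,w1,u3,w2,u4,X2,u5,X3,u6⟩ := H
  have hp : ∀ x, 1 ≤ (h x).length := fun x => List.length_pos_iff.mpr (hne x)
  have F1 := five (hne 0) s1 s2 s3 s4 s5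
  have F2 := five (hne 0) s10 s11 s12 s13 s14
  obtain ⟨hl0, hi⟩ := F1
  obtain ⟨-, hi2⟩ := F2
  have p1 := hp 1
  have p2 := hp 2
  have p3 := hp 3
  have p4 := hp 4
  have p5 := hp 5
  have p6 := hp 6
  have p7 := hp 7
  have p8 := hp 8
  have p9 := hp 9
  have p10 := hp 10
  have p11 := hp 11
  have p12 := hp 12
  have p13 := hp 13
  have p14 := hp 14
  -- letter equalities
  have a0 := Occ_two s1 s10 0 (by omega)
  have a6 := Occ_two s1 s6 0 (by omega)
  have a7 := Occ_two s1 s7 0 (by omega)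
  have a8 := Occ_two s1 s8 0 (by omega)
  have a9 := Occ_two s1 s9 0 (by omega)
  have b1 := Occ_two v1 u1 0 (by omega)
  have b2 := Occ_two v2 u2 0 (by omega)
  have b3 := Occ_two v3 u3 0 (by omega)
  have b4 := Occ_two v3 u4 0 (by omega)
  have b5 := Occ_two v4 u5
  have b6 := Occ_two v6 u6 0 (by omega)
  have yy1 := Occ_two y1 y2
  have yy2 := Occ_two y1 y3
  have zz := Occ_two z1 z2
  have ww := Occ_two w1 w2
  clear s1 s2 s3 s4 s5 v1 s6 v2 s7 v3 s8 v4 s9 S1 v6 S2 s10 s11 s12 s13 s14 X0 u1 y1 z1 y2 y3 z2 X1 u2 w1 u3 w2 u4 X2 u5 X3 u6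
  simp only [hl0, Nat.add_zero] at *
  generalize (h 1).length = l1 at *
  generalize (h 2).length = l2 at *
  generalize (h 3).length = l3 at *
  generalize (h 4).length = l4 at *
  generalize (h 5).length = l5 at *
  generalize (h 6).length = l6 at *
  generalize (h 7).length = l7 at *
  generalize (h 8).length = l8 at *
  generalize (h 9).length = l9 at *
  generalize (h 10).length = l10 at *
  generalize (h 11).length = l11 at *
  generalize (h 12).length = l12 at *
  generalize (h 13).length = l13 at *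
  generalize (h 14).length = l14 at *
  clear hl0 hp hne
  obtain ⟨k, hk, hki, hki2, hks⟩ := pairs i hi _ hi2 (by omega) (by
    rw [W_lt, W_lt] at a0
    · exact a0
    · have : ∀ a ∈ starts, a < 248 := by decide
      exact this _ hi2
    · have : ∀ a ∈ starts, a < 248 := by decide
      exact this _ hi)
  obtain ⟨bd1, bd2, bd3, bd4⟩ := bnd k hk
  have W_i : W i = 5 + k := by rw [W_lt (by omega)]; exact hks
  have c6 := sepk k hk (i+1+1+1+1+1+l1) (by omega) ⟨by omega, by omega, by rw [← W_lt (by omega), ← a6]; exact W_i⟩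
  have c7 := sepk k hk (i+1+1+1+1+1+l1+1+l2) (by omega) ⟨by omega, by omega, by rw [← W_lt (by omega), ← a7]; exact W_i⟩
  have c8 := sepk k hk (i+1+1+1+1+1+l1+1+l2+1+l3) (by omega) ⟨by omega, by omega, by rw [← W_lt (by omega), ← a8]; exact W_i⟩
  have c9 := sepk k hk (i+1+1+1+1+1+l1+1+l2+1+l3+1+l4) (by omega) ⟨by omega, by omega, by rw [← W_lt (by omega), ← a9]; exact W_i⟩
  have hl1 : l1 = 1 := by omega
  have hl2 : l2 = 1 := by omega
  have hl3 : l3 = 1 := by omega
  have hl4 : l4 = XL k := by omega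
  obtain ⟨vv1, vv2, vv3⟩ := vals k hk
  obtain ⟨g3, hg3⟩ : ∃ g3, g3 = EN k + 5 + l8 := ⟨_, rfl⟩
  obtain ⟨g2, hg2⟩ : ∃ g2, g2 = g3 + 1 + 3*l9 + 2*l10 + l11 := ⟨_, rfl⟩
  obtain ⟨g0, hg0⟩ : ∃ g0, g0 = g2 + 3 + 2*l12 + l13 := ⟨_, rfl⟩
  obtain ⟨g6, hg6⟩ : ∃ g6, g6 = g0 + XL k + l14 := ⟨_, rfl⟩
  have B1 : W (ST k + 5) = W g3 := by convert b1 using 2 <;> omega
  have Y1 : ∀ j < l9, W (g3+1+j) = W (g3+1+l9+l10+j) := by
    intro j hj; have := yy1 j hj; convert this using 2 <;> omega
  have Y2 : ∀ j < l9, W (g3+1+j) = W (g3+1+2*l9+l10+j) := by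
    intro j hj; have := yy2 j hj; convert this using 2 <;> omega
  have Z1 : ∀ j < l10, W (g3+1+l9+j) = W (g3+1+3*l9+l10+j) := by
    intro j hj; have := zz j hj; convert this using 2 <;> omega
  have B2 : W (ST k + 7) = W g2 := by convert b2 using 2 <;> omega
  have B3 : W (ST k + 9) = W (g2+1+l12) := by convert b3 using 2 <;> omega
  have B4 : W (ST k + 9) = W (g2+2+2*l12) := by convert b4 using 2 <;> omega
  have WW : ∀ j < l12, W (g2+1+j) = W (g2+2+l12+j) := by
    intro j hj; have := ww j hj; convert this using 2 <;> omega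
  have B5 : ∀ j < XL k, W (ST k + 11 + j) = W (g0+j) := by
    intro j hj; have := b5 j (by omega); convert this using 2 <;> omega
  have B6 : W (ST k + 12 + XL k + l5) = W g6 := by convert b6 using 2 <;> omega
  clear b1 b2 b3 b4 b5 b6 yy1 yy2 zz ww a0 a6 a7 a8 a9 hi hi2 c6 c7 c8 c9
  rw [W_lt (show ST k + 5 < 248 by omega), vv1] at B1
  rw [W_lt (show ST k + 7 < 248 by omega), vv2] at B2
  rw [W_lt (show ST k + 9 < 248 by omega), vv3] at B3 B4
  have inS : ∀ j < l12 + 1, W (g2+1+j) = W (g2+1+j+(l12+1)) := by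
    intro j hj
    by_cases h : j < l12
    · rw [WW j h]; congr 1; omega
    · have : j = l12 := by omega
      subst this
      rw [← B3, B4]; congr 1; omega
  by_cases hk8 : k < 8
  · rw [if_pos hk8] at B1
    have hQ := Q1 B1.symm p9 p10 Y1 Y2 Z1
    have hg2' : 240 ≤ g2 := by omega
    have hg0' : 246 ≤ g0 := by omega
    by_cases hk2 : k < 2
    · have h1 := slot01 k hk2 (ST k + 12 + XL k + l5) (by omega) (by omega) (by omega)
      rw [W_lt (show ST k + 12 + XL k + l5 < 248 by omega)] at B6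
      rcases W_bin (show 248 ≤ g6 by omega) with h | h <;> omega
    · by_cases hk4 : k < 4
      · have hX : XL k = 3 ∧ ul (ST k + 11) < 2 ∧ ul (ST k + 11 + 1) = ul (ST k + 11) ∧ ul (ST k + 11 + 2) = ul (ST k + 11) := by
          have : ∀ k < 10, 2 ≤ k → k < 4 → XL k = 3 ∧ ul (ST k + 11) < 2 ∧ ul (ST k + 11 + 1) = ul (ST k + 11) ∧ ul (ST k + 11 + 2) = ul (ST k + 11) := by
            decide +kernel
          exact this k hk (by omega) hk4
        obtain ⟨x1, x2, x3, x4⟩ := hX
        have d0 := B5 0 (by omega)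
        have d1 := B5 1 (by omega)
        have d2 := B5 2 (by omega)
        rw [W_lt (by omega)] at d0 d1 d2
        simp only [Nat.add_zero] at d0
        rw [x3] at d1
        rw [x4] at d2
        have hg : 248 ≤ g0 := by
          by_contra hc
          have := (c3pos g0 (by omega) (by omega)).2
          rw [W_lt (show g0 < 248 by omega)] at d0
          omega
        apply tm_ov 1 (le_refl _) (g0-248)
        intro j hj
        interval_cases j
        · have := tm_eq_of_W hg (show 248 ≤ g0+1 by omega) (d0.symm.trans d1)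
          rw [show g0 + 1 - 248 = g0 - 248 + 0 + 1 by omega, show g0 - 248 = g0 - 248 + 0 by omega] at this
          exact this
        · have := tm_eq_of_W (show 248 ≤ g0+1 by omega) (show 248 ≤ g0+2 by omega) (d1.symm.trans d2)
          rw [show g0 + 1 - 248 = g0 - 248 + 1 by omega, show g0 + 2 - 248 = g0 - 248 + 1 + 1 by omega] at this
          exact this
      · by_cases hk6 : k < 6
        · have hV : V1 k = V2 k ∧ V1 k < 2 := by
            have : ∀ k < 10, 4 ≤ k → k < 6 → V1 k = V2 k ∧ V1 k < 2 := by decide +kernel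
            exact this k hk (by omega) hk6
          have hg : 248 ≤ g2 := by
            by_contra hc
            have := (c3pos g2 (by omega) (by omega)).2
            rw [W_lt (show g2 < 248 by omega)] at B2
            omega
          apply tm_ov (l12+1) (by omega) (g2-248)
          intro j hj
          have hh : W (g2+j) = W (g2+j+(l12+1)) := by
            by_cases h0 : j = 0
            · subst h0
              rw [show g2 + 0 + (l12+1) = g2+1+l12 by ring, ← B3, Nat.add_zero, ← B2]; exact hV.1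
            · have := inS (j-1) (by omega)
              rw [show g2+1+(j-1) = g2+j by omega] at this
              exact this
          have := tm_eq_of_W (by omega) (by omega) hh
          rw [show g2+j-248 = g2-248+j by omega, show g2+j+(l12+1)-248 = g2-248+j+(l12+1) by omega] at this
          exact this
        · have hV : V1 k = 3 := by
            have : ∀ k < 10, 6 ≤ k → k < 8 → V1 k = 3 := by decide +kernel
            exact this k hk (by omega) hk8
          have hg : g2 = 247 := by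
            by_cases hc : g2 < 248
            · rw [W_lt hc] at B2
              exact (c3pos g2 hc hg2').1 (by omega)
            · rcases W_bin (show 248 ≤ g2 by omega) with h | h <;> omega
          apply tm_sq (l12+1) (by omega)
          intro j hj
          have := inS j hj
          have := tm_eq_of_W (by omega) (by omega) this
          rw [show g2+1+j-248 = j by omega, show g2+1+j+(l12+1)-248 = j+(l12+1) by omega] at this
          exact this
  · rw [if_neg hk8] at B1
    have hE : 206 ≤ EN k ∧ (k = 9 → EN k = 228) := by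
      have : ∀ k < 10, 8 ≤ k → 206 ≤ EN k ∧ (k = 9 → EN k = 228) := by decide +kernel
      exact this k hk (by omega)
    have hg : g3 = 216 ∨ g3 = 247 := by
      by_cases hc : g3 < 248
      · rw [W_lt hc] at B1
        exact c3pos' g3 hc (by omega) B1.symm
      · rcases W_bin (show 248 ≤ g3 by omega) with h | h <;> omega
    rcases hg with hg | hg
    · subst hg
      exact QT p9 p10 Y1 Y2 Z1
    · subst hg
      apply tm_p3 l9 p9 l10 p10
      refine ⟨?_, ?_, ?_⟩
      · intro j hj
        have := tm_eq_of_W (by omega) (by omega) (Y1 j hj)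
        rw [show 247+1+j-248 = j by omega, show 247+1+l9+l10+j-248 = l9+l10+j by omega] at this
        exact this
      · intro j hj
        have := tm_eq_of_W (by omega) (by omega) (Y2 j hj)
        rw [show 247+1+j-248 = j by omega, show 247+1+2*l9+l10+j-248 = 2*l9+l10+j by omega] at this
        exact this
      · intro j hj
        have := tm_eq_of_W (by omega) (by omega) (Z1 j hj)
        rw [show 247+1+l9+j-248 = l9+j by omega, show 247+1+3*l9+l10+j-248 = 3*l9+l10+j by omega] at this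
        exact this


def Avoid (w : ℕ → ℕ) : Prop :=
  ∀ h : Fin 15 → List ℕ, (∀ x, h x ≠ []) → ∀ i, ¬ Occ w i (P.flatMap h)

theorem kill {w : ℕ → ℕ} (hA : Avoid w) {s x4 x1 x2 f : ℕ} {x0 S1 S2 : List ℕ} (hx0 : x0 ≠ [])
    (hS1 : S1 ≠ []) (hS2 : S2 ≠ []) {i e g3 ly lz g2 lv g0 g6 : ℕ} (hly : 1 ≤ ly) (hlz : 1 ≤ lz)
    (hlv : 1 ≤ lv)
    (hE : Occ w i ([s,s,s,s,s,x4,s,x1,s,x2,s] ++ x0 ++ [s] ++ S1 ++ [f] ++ S2 ++ [s,s,s,s,s]))
    (he : e = i + ([s,s,s,s,s,x4,s,x1,s,x2,s] ++ x0 ++ [s] ++ S1 ++ [f] ++ S2 ++ [s,s,s,s,s]).length)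
    (h3 : e < g3) (B1 : w g3 = x4)
    (Y1 : ∀ j < ly, w (g3+1+j) = w (g3+1+ly+lz+j)) (Y2 : ∀ j < ly, w (g3+1+j) = w (g3+1+2*ly+lz+j))
    (Z1 : ∀ j < lz, w (g3+1+ly+j) = w (g3+1+3*ly+lz+j))
    (h2 : g3+1+3*ly+2*lz < g2) (B2 : w g2 = x1) (B3 : w (g2+1+lv) = x2) (B4 : w (g2+2+2*lv) = x2)
    (WW : ∀ j < lv, w (g2+1+j) = w (g2+2+lv+j))
    (h0 : g2+3+2*lv < g0) (hx : Occ w g0 x0) (h6 : g0 + x0.length < g6) (B6 : w g6 = f) : False := by
  obtain ⟨X0, hX0⟩ : ∃ X0, X0 = seg w e (g3-e) := ⟨_, rfl⟩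
  obtain ⟨Y, hY⟩ : ∃ Y, Y = seg w (g3+1) ly := ⟨_, rfl⟩
  obtain ⟨Z, hZ⟩ : ∃ Z, Z = seg w (g3+1+ly) lz := ⟨_, rfl⟩
  obtain ⟨X1, hX1⟩ : ∃ X1, X1 = seg w (g3+1+3*ly+2*lz) (g2-(g3+1+3*ly+2*lz)) := ⟨_, rfl⟩
  obtain ⟨V, hV⟩ : ∃ V, V = seg w (g2+1) lv := ⟨_, rfl⟩
  obtain ⟨X2, hX2⟩ : ∃ X2, X2 = seg w (g2+3+2*lv) (g0-(g2+3+2*lv)) := ⟨_, rfl⟩
  obtain ⟨X3, hX3⟩ : ∃ X3, X3 = seg w (g0+x0.length) (g6-(g0+x0.length)) := ⟨_, rfl⟩
  obtain ⟨h, hh⟩ : ∃ h : Fin 15 → List ℕ, h = ![[s],[x4],[x1],[x2],x0,S1,[f],S2,X0,Y,Z,X1,V,X2,X3] := ⟨_, rfl⟩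
  have hP : P.flatMap h = ([s,s,s,s,s,x4,s,x1,s,x2,s] ++ x0 ++ [s] ++ S1 ++ [f] ++ S2 ++ [s,s,s,s,s]) ++
      (X0 ++ ([x4] ++ (Y ++ (Z ++ (Y ++ (Y ++ (Z ++ (X1 ++ ([x1] ++ (V ++ ([x2] ++ (V ++ ([x2] ++
      (X2 ++ (x0 ++ (X3 ++ [f]))))))))))))))))  := by
    rw [hh]
    simp [P]
  apply hA h ?_ i
  · rw [hP]
    simp only [Occ_append]
    have L0 : X0.length = g3 - e := by rw [hX0, seg_length]
    have LY : Y.length = ly := by rw [hY, seg_length]
    have LZ : Z.length = lz := by rw [hZ, seg_length]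
    have L1 : X1.length = (g2-(g3+1+3*ly+2*lz)) := by rw [hX1, seg_length]
    have LV : V.length = lv := by rw [hV, seg_length]
    have L2 : X2.length = (g0-(g2+3+2*lv)) := by rw [hX2, seg_length]
    have L3 : X3.length = (g6-(g0+x0.length)) := by rw [hX3, seg_length]
    rw [← he]
    simp only [Occ_append] at hE
    refine ⟨hE, ?_⟩
    rw [L0, show e + (g3-e) = g3 by omega]
    refine ⟨by rw [hX0]; exact Occ_seg _ _ _, ⟨B1, trivial⟩, ?_⟩
    simp only [List.length_cons, List.length_nil, Nat.zero_add]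
    rw [LY, LZ]
    refine ⟨by rw [hY]; exact Occ_seg _ _ _, by rw [hZ]; exact Occ_seg _ _ _, ?_⟩
    refine ⟨by rw [hY]; exact Occ_seg_of _ _ _ _ Y1, ?_⟩
    rw [show g3 + 1 + ly + lz + ly = g3+1+2*ly+lz by ring]
    refine ⟨by rw [hY]; exact Occ_seg_of _ _ _ _ Y2, ?_⟩
    rw [show g3+1+2*ly+lz+ly = g3+1+3*ly+lz by ring]
    refine ⟨by rw [hZ]; exact Occ_seg_of _ _ _ _ Z1, ?_⟩
    rw [show g3+1+3*ly+lz+lz = g3+1+3*ly+2*lz by ring]
    refine ⟨by rw [hX1]; exact Occ_seg _ _ _, ?_⟩
    rw [L1, show g3+1+3*ly+2*lz + (g2-(g3+1+3*ly+2*lz)) = g2 by omega]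
    refine ⟨⟨B2, trivial⟩, by rw [hV]; exact Occ_seg _ _ _, ?_⟩
    rw [LV, show g2+1+lv+1 = g2+2+lv by ring]
    refine ⟨⟨B3, trivial⟩, by rw [hV]; exact Occ_seg_of _ _ _ _ WW, ?_⟩
    rw [show g2+2+lv+lv = g2+2+2*lv by ring]
    refine ⟨⟨B4, trivial⟩, ?_⟩
    rw [show g2+2+2*lv+1 = g2+3+2*lv by ring]
    refine ⟨by rw [hX2]; exact Occ_seg _ _ _, ?_⟩
    rw [L2, show g2+3+2*lv + (g0-(g2+3+2*lv)) = g0 by omega]
    refine ⟨hx, by rw [hX3]; exact Occ_seg _ _ _, ?_⟩
    rw [L3, show g0+x0.length + (g6-(g0+x0.length)) = g6 by omega]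
    exact ⟨B6, trivial⟩
  · intro x
    have n0 : X0 ≠ [] := by rw [hX0]; exact seg_ne _ _ _ (by omega)
    have nY : Y ≠ [] := by rw [hY]; exact seg_ne _ _ _ (by omega)
    have nZ : Z ≠ [] := by rw [hZ]; exact seg_ne _ _ _ (by omega)
    have n1 : X1 ≠ [] := by rw [hX1]; exact seg_ne _ _ _ (by omega)
    have nV : V ≠ [] := by rw [hV]; exact seg_ne _ _ _ (by omega)
    have n2 : X2 ≠ [] := by rw [hX2]; exact seg_ne _ _ _ (by omega)
    have n3 : X3 ≠ [] := by rw [hX3]; exact seg_ne _ _ _ (by omega)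
    rw [hh]
    fin_cases x <;> simp [n0,nY,nZ,n1,nV,n2,n3,hx0,hS1,hS2]


def occB : ℕ → List ℕ → Bool
  | _, [] => true
  | i, a :: l => (ul i == a) && occB (i+1) l

theorem Occ_of_occB {w : ℕ → ℕ} (hpre : ∀ n < 252, w n = W n) : ∀ (l : List ℕ) (i : ℕ),
    occB i l = true → i + l.length ≤ 248 → Occ w i l := by
  intro l
  induction l with
  | nil => intro i _ _; trivial
  | cons a l ih =>
    intro i h hl
    simp only [occB, Bool.and_eq_true, beq_iff_eq, List.length_cons] at h hl
    refine ⟨?_, ih (i+1) h.2 (by omega)⟩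
    rw [hpre i (by omega), W_lt (by omega)]
    exact h.1

theorem wul {w : ℕ → ℕ} (hpre : ∀ n < 252, w n = W n) {n : ℕ} (h : n < 248) : w n = ul n := by
  rw [hpre n (by omega), W_lt h]

theorem lk {w : ℕ → ℕ} (hA : Avoid w) (hpre : ∀ n < 252, w n = W n) {s f i : ℕ} {S1 S2 : List ℕ}
    (hS1 : S1 ≠ []) (hS2 : S2 ≠ [])
    (hc : occB i ([s,s,s,s,s,2,s,2,s,2,s] ++ [2] ++ [s] ++ S1 ++ [f] ++ S2 ++ [s,s,s,s,s]) = true)
    (hl : i + ([s,s,s,s,s,2,s,2,s,2,s] ++ [2] ++ [s] ++ S1 ++ [f] ++ S2 ++ [s,s,s,s,s]).length < 233)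
    {n : ℕ} (hf : w (248+n) = f) : False := by
  have U := fun n (h : n < 248) => wul hpre h
  refine kill hA (s := s) (x4 := 2) (x1 := 2) (x2 := 2) (x0 := [2]) (f := f) (S1 := S1) (S2 := S2)
    (i := i) (e := _) (g3 := 233) (ly := 1) (lz := 1) (g2 := 240) (lv := 1) (g0 := 246) (g6 := 248+n)
    (by simp) hS1 hS2 (le_refl _) (le_refl _) (le_refl _)
    (Occ_of_occB hpre _ _ hc (by omega)) rfl hl ?_ ?_ ?_ ?_ (by norm_num) ?_ ?_ ?_ ?_ (by norm_num) ?_
    (by simp only [List.length_cons, List.length_nil]; omega) hf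
  · rw [U _ (by norm_num)]; decide +kernel
  · intro j hj; interval_cases j; rw [U _ (by norm_num), U _ (by norm_num)]; decide +kernel
  · intro j hj; interval_cases j; rw [U _ (by norm_num), U _ (by norm_num)]; decide +kernel
  · intro j hj; interval_cases j; rw [U _ (by norm_num), U _ (by norm_num)]; decide +kernel
  · rw [U _ (by norm_num)]; decide +kernel
  · rw [U _ (by norm_num)]; decide +kernel
  · rw [U _ (by norm_num)]; decide +kernel
  · intro j hj; interval_cases j; rw [U _ (by norm_num), U _ (by norm_num)]; decide +kernel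
  · refine ⟨?_, trivial⟩
    rw [U _ (by norm_num)]; decide +kernel

theorem letters {w : ℕ → ℕ} (hA : Avoid w) (hlt : ∀ n, w n < 15) (hpre : ∀ n < 252, w n = W n) (n : ℕ) :
    w (248+n) = 0 ∨ w (248+n) = 1 := by
  by_contra hcon
  push Not at hcon
  obtain ⟨f, hf⟩ : ∃ f, w (248+n) = f := ⟨_, rfl⟩
  have h15 := hlt (248+n)
  rw [hf] at hcon h15
  have h2 : 2 ≤ f := by omega
  interval_cases f
  · exact lk hA hpre (s := 5) (i := 0) (S1 := [4,3]) (S2 := [4,6,7,8,9,10,11,12,13,14,4]) (by simp) (by simp) (by decide +kernel) (by decide +kernel) hf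
  · exact lk hA hpre (s := 5) (i := 0) (S1 := [4]) (S2 := [2,4,6,7,8,9,10,11,12,13,14,4]) (by simp) (by simp) (by decide +kernel) (by decide +kernel) hf
  · exact lk hA hpre (s := 5) (i := 0) (S1 := [4,3,2]) (S2 := [6,7,8,9,10,11,12,13,14,4]) (by simp) (by simp) (by decide +kernel) (by decide +kernel) hf
  · exact lk hA hpre (s := 6) (i := 32) (S1 := [4]) (S2 := [4]) (by simp) (by simp) (by decide +kernel) (by decide +kernel) hf
  · exact lk hA hpre (s := 5) (i := 0) (S1 := [4,3,2,4]) (S2 := [7,8,9,10,11,12,13,14,4]) (by simp) (by simp) (by decide +kernel) (by decide +kernel) hf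
  · exact lk hA hpre (s := 5) (i := 0) (S1 := [4,3,2,4,6]) (S2 := [8,9,10,11,12,13,14,4]) (by simp) (by simp) (by decide +kernel) (by decide +kernel) hf
  · exact lk hA hpre (s := 5) (i := 0) (S1 := [4,3,2,4,6,7]) (S2 := [9,10,11,12,13,14,4]) (by simp) (by simp) (by decide +kernel) (by decide +kernel) hf
  · exact lk hA hpre (s := 5) (i := 0) (S1 := [4,3,2,4,6,7,8]) (S2 := [10,11,12,13,14,4]) (by simp) (by simp) (by decide +kernel) (by decide +kernel) hf
  · exact lk hA hpre (s := 5) (i := 0) (S1 := [4,3,2,4,6,7,8,9]) (S2 := [11,12,13,14,4]) (by simp) (by simp) (by decide +kernel) (by decide +kernel) hf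
  · exact lk hA hpre (s := 5) (i := 0) (S1 := [4,3,2,4,6,7,8,9,10]) (S2 := [12,13,14,4]) (by simp) (by simp) (by decide +kernel) (by decide +kernel) hf
  · exact lk hA hpre (s := 5) (i := 0) (S1 := [4,3,2,4,6,7,8,9,10,11]) (S2 := [13,14,4]) (by simp) (by simp) (by decide +kernel) (by decide +kernel) hf
  · exact lk hA hpre (s := 5) (i := 0) (S1 := [4,3,2,4,6,7,8,9,10,11,12]) (S2 := [14,4]) (by simp) (by simp) (by decide +kernel) (by decide +kernel) hf
  · exact lk hA hpre (s := 5) (i := 0) (S1 := [4,3,2,4,6,7,8,9,10,11,12,13]) (S2 := [4]) (by simp) (by simp) (by decide +kernel) (by decide +kernel) hf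

/-- kill with the binary slot -/
theorem kl {w : ℕ → ℕ} (hA : Avoid w) (hpre : ∀ n < 252, w n = W n) {s x4 x1 x2 : ℕ} {x0 : List ℕ}
    (hx0 : x0 ≠ []) {i g3 ly lz g2 lv g0 g6 : ℕ} (hly : 1 ≤ ly) (hlz : 1 ≤ lz)
    (hlv : 1 ≤ lv)
    (hc : occB i ([s,s,s,s,s,x4,s,x1,s,x2,s] ++ x0 ++ [s] ++ [0,0,1,1] ++ [s,s,s,s,s]) = true)
    (he : i + x0.length + 21 < g3) (hg3 : g3 ≤ 247) (B1 : w g3 = x4)
    (Y1 : ∀ j < ly, w (g3+1+j) = w (g3+1+ly+lz+j)) (Y2 : ∀ j < ly, w (g3+1+j) = w (g3+1+2*ly+lz+j))
    (Z1 : ∀ j < lz, w (g3+1+ly+j) = w (g3+1+3*ly+lz+j))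
    (h2 : g3+1+3*ly+2*lz < g2) (B2 : w g2 = x1) (B3 : w (g2+1+lv) = x2) (B4 : w (g2+2+2*lv) = x2)
    (WW : ∀ j < lv, w (g2+1+j) = w (g2+2+lv+j))
    (h0 : g2+3+2*lv < g0) (hx : Occ w g0 x0) (h6 : g0 + x0.length < g6)
    (B6 : w g6 = 0 ∨ w g6 = 1) : False := by
  have hO := Occ_of_occB hpre _ _ hc (by simp only [List.length_append, List.length_cons, List.length_nil]; omega)
  rcases B6 with B6 | B6
  · refine kill hA (s := s) (x4 := x4) (x1 := x1) (x2 := x2) (x0 := x0) (f := 0) (S1 := [0]) (S2 := [1,1])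
      (i := i) (e := _) (g3 := g3) (ly := ly) (lz := lz) (g2 := g2) (lv := lv) (g0 := g0) (g6 := g6)
      hx0 (by simp) (by simp) hly hlz hlv ?_ rfl ?_ B1 Y1 Y2 Z1 h2 B2 B3 B4 WW h0 hx h6 B6
    · simpa using hO
    · simp only [List.length_append, List.length_cons, List.length_nil]; omega
  · refine kill hA (s := s) (x4 := x4) (x1 := x1) (x2 := x2) (x0 := x0) (f := 1) (S1 := [0,0]) (S2 := [1])
      (i := i) (e := _) (g3 := g3) (ly := ly) (lz := lz) (g2 := g2) (lv := lv) (g0 := g0) (g6 := g6)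
      hx0 (by simp) (by simp) hly hlz hlv ?_ rfl ?_ B1 Y1 Y2 Z1 h2 B2 B3 B4 WW h0 hx h6 B6
    · simpa using hO
    · simp only [List.length_append, List.length_cons, List.length_nil]; omega

/-- kill with the trivial instance of the first fragment -/
theorem kl2 {w : ℕ → ℕ} (hA : Avoid w) (hpre : ∀ n < 252, w n = W n) {s x1 x2 : ℕ} {x0 : List ℕ}
    (hx0 : x0 ≠ []) {i g2 lv g0 g6 : ℕ}
    (hlv : 1 ≤ lv)
    (hc : occB i ([s,s,s,s,s,2,s,x1,s,x2,s] ++ x0 ++ [s] ++ [0,0,1,1] ++ [s,s,s,s,s]) = true)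
    (he : i + x0.length + 21 < 233)
    (h2 : 240 ≤ g2) (B2 : w g2 = x1) (B3 : w (g2+1+lv) = x2) (B4 : w (g2+2+2*lv) = x2)
    (WW : ∀ j < lv, w (g2+1+j) = w (g2+2+lv+j))
    (h0 : g2+3+2*lv < g0) (hx : Occ w g0 x0) (h6 : g0 + x0.length < g6)
    (B6 : w g6 = 0 ∨ w g6 = 1) : False := by
  have U := fun n (h : n < 248) => wul hpre h
  refine kl hA hpre hx0 (g3 := 233) (ly := 1) (lz := 1) (le_refl _) (le_refl _) hlv hc he (by norm_num) ?_ ?_ ?_ ?_
    (by omega) B2 B3 B4 WW h0 hx h6 B6
  · rw [U _ (by norm_num)]; decide +kernel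
  · intro j hj; interval_cases j; rw [U _ (by norm_num), U _ (by norm_num)]; decide +kernel
  · intro j hj; interval_cases j; rw [U _ (by norm_num), U _ (by norm_num)]; decide +kernel
  · intro j hj; interval_cases j; rw [U _ (by norm_num), U _ (by norm_num)]; decide +kernel

theorem cube {w : ℕ → ℕ} (hA : Avoid w) (hlt : ∀ n, w n < 15) (hpre : ∀ n < 252, w n = W n) (n : ℕ)
    (h1 : w (248+n) = w (248+n+1)) (h2 : w (248+n) = w (248+n+2)) : False := by
  have U := fun n (h : n < 248) => wul hpre h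
  have aux : ∀ {s : ℕ} {a i : ℕ}, w (248+n) = a →
      occB i ([s,s,s,s,s,2,s,2,s,2,s] ++ [a,a,a] ++ [s] ++ [0,0,1,1] ++ [s,s,s,s,s]) = true →
      i + 24 < 233 → False := by
    intro s a i ha hc hi
    refine kl2 hA hpre (s := s) (x1 := 2) (x2 := 2) (x0 := [a,a,a]) (by simp) (i := i) (g2 := 240) (lv := 1)
      (g0 := 248+n) (g6 := 252+n) (le_refl _) hc (by simpa using hi) (le_refl _) ?_ ?_ ?_ ?_ (by omega) ?_
      (by simp only [List.length_cons, List.length_nil]; omega)
      (by have := letters hA hlt hpre (n+4); rw [show 248+(n+4) = 252+n by ring] at this; exact this)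
    · rw [U _ (by norm_num)]; decide +kernel
    · rw [U _ (by norm_num)]; decide +kernel
    · rw [U _ (by norm_num)]; decide +kernel
    · intro j hj; interval_cases j; rw [U _ (by norm_num), U _ (by norm_num)]; decide +kernel
    · exact ⟨ha, by rw [← h1, ha], by rw [show 248+n+1+1 = 248+n+2 by ring, ← h2, ha], trivial⟩
  rcases letters hA hlt hpre n with h | h
  · exact aux (s := 7) (i := 53) h (by decide +kernel) (by norm_num)
  · exact aux (s := 8) (i := 77) h (by decide +kernel) (by norm_num)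

theorem zero_after {w : ℕ → ℕ} (hA : Avoid w) (hlt : ∀ n, w n < 15) (hpre : ∀ n < 252, w n = W n) (m : ℕ)
    (hm : 248 ≤ m) : ∃ m', m ≤ m' ∧ w m' = 0 := by
  obtain ⟨n, rfl⟩ : ∃ n, m = 248 + n := ⟨m-248, by omega⟩
  by_contra hcon
  push Not at hcon
  have a0 := letters hA hlt hpre n
  have a1 := letters hA hlt hpre (n+1)
  have a2 := letters hA hlt hpre (n+2)
  have b0 := hcon (248+n) (by omega)
  have b1 := hcon (248+(n+1)) (by omega)
  have b2 := hcon (248+(n+2)) (by omega)
  apply cube hA hlt hpre n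
  · rw [show 248+n+1 = 248+(n+1) by ring]; omega
  · rw [show 248+n+2 = 248+(n+2) by ring]; omega

theorem bin' {w : ℕ → ℕ} (hA : Avoid w) (hlt : ∀ n, w n < 15) (hpre : ∀ n < 252, w n = W n) {m : ℕ}
    (hm : 248 ≤ m) : w m = 0 ∨ w m = 1 := by
  have := letters hA hlt hpre (m-248)
  rwa [show 248+(m-248) = m by omega] at this

/-- no overlaps in the tail -/
theorem ovl {w : ℕ → ℕ} (hA : Avoid w) (hlt : ∀ n, w n < 15) (hpre : ∀ n < 252, w n = W n) (g q : ℕ)
    (hg : 248 ≤ g) (hq : 1 ≤ q) (h : ∀ j ≤ q, w (g+j) = w (g+j+q)) : False := by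
  by_cases hq1 : q = 1
  · subst hq1
    obtain ⟨n, rfl⟩ : ∃ n, g = 248 + n := ⟨g-248, by omega⟩
    have h0 := h 0 (by omega)
    have h1 := h 1 (by omega)
    apply cube hA hlt hpre n h0
    exact h0.trans h1
  · obtain ⟨lv, rfl⟩ : ∃ lv, q = lv + 1 := ⟨q-1, by omega⟩
    obtain ⟨m, hm, hm0⟩ := zero_after hA hlt hpre (g+3+2*lv+1) (by omega)
    have hB3 : w (g+1+lv) = w g := by
      have := h 0 (by omega)
      rw [show g + 0 + (lv+1) = g+1+lv by ring] at this
      exact this.symm
    have hB4 : w (g+2+2*lv) = w g := by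
      have := h (lv+1) (by omega)
      rw [show g + (lv+1) + (lv+1) = g+2+2*lv by ring, show g+(lv+1) = g+1+lv by ring] at this
      rw [← this, hB3]
    have hWW : ∀ j < lv, w (g+1+j) = w (g+2+lv+j) := by
      intro j hj
      have := h (j+1) (by omega)
      rw [show g + (j+1) = g+1+j by ring, show g+1+j+(lv+1) = g+2+lv+j by ring] at this
      exact this
    have aux : ∀ {s a i : ℕ}, w g = a →
        occB i ([s,s,s,s,s,2,s,a,s,a,s] ++ [0] ++ [s] ++ [0,0,1,1] ++ [s,s,s,s,s]) = true →
        i + 22 < 233 → False := by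
      intro s a i ha hc hi
      exact kl2 hA hpre (s := s) (x1 := a) (x2 := a) (x0 := [0]) (by simp) (i := i) (g2 := g) (lv := lv)
        (g0 := m) (g6 := m+2) (by omega) hc (by simpa using hi) (by omega) ha (hB3.trans ha) (hB4.trans ha) hWW
        (by omega) ⟨hm0, trivial⟩ (by simp only [List.length_cons, List.length_nil]; omega)
        (bin' hA hlt hpre (by omega))
    rcases bin' hA hlt hpre hg with h' | h'
    · exact aux (s := 9) (i := 101) h' (by decide +kernel) (by norm_num)
    · exact aux (s := 10) (i := 123) h' (by decide +kernel) (by norm_num)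

/-- no prefix squares in the tail -/
theorem psq {w : ℕ → ℕ} (hA : Avoid w) (hlt : ∀ n, w n < 15) (hpre : ∀ n < 252, w n = W n) (lv : ℕ)
    (hq : 1 ≤ lv) (h : ∀ j < lv+1, w (248+j) = w (248+j+(lv+1))) : False := by
  have U := fun n (h : n < 248) => wul hpre h
  obtain ⟨m, hm, hm0⟩ := zero_after hA hlt hpre (247+3+2*lv+1) (by omega)
  have hB4 : w (247+2+2*lv) = w (247+1+lv) := by
    have := h lv (by omega)
    rw [show 248+lv = 247+1+lv by ring, show 247+1+lv+(lv+1) = 247+2+2*lv by ring] at this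
    exact this.symm
  have hWW : ∀ j < lv, w (247+1+j) = w (247+2+lv+j) := by
    intro j hj
    have := h j (by omega)
    rw [show 248 + j + (lv+1) = 247+2+lv+j by ring] at this
    exact this
  have aux : ∀ {s a i : ℕ}, w (247+1+lv) = a →
      occB i ([s,s,s,s,s,2,s,3,s,a,s] ++ [0] ++ [s] ++ [0,0,1,1] ++ [s,s,s,s,s]) = true →
      i + 22 < 233 → False := by
    intro s a i ha hc hi
    exact kl2 hA hpre (s := s) (x1 := 3) (x2 := a) (x0 := [0]) (by simp) (i := i) (g2 := 247) (lv := lv)
      (g0 := m) (g6 := m+2) (by omega) hc (by simpa using hi) (by omega)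
      (by rw [U _ (by norm_num)]; decide +kernel) ha (hB4.trans ha) hWW
      (by omega) ⟨hm0, trivial⟩ (by simp only [List.length_cons, List.length_nil]; omega)
      (bin' hA hlt hpre (by omega))
  rcases bin' hA hlt hpre (show 248 ≤ 247+1+lv by omega) with h' | h'
  · exact aux (s := 11) (i := 145) h' (by decide +kernel) (by norm_num)
  · exact aux (s := 12) (i := 167) h' (by decide +kernel) (by norm_num)


def ovP : List (ℕ × ℕ) := [(0,1),(1,1),(2,1),(3,1),(4,1),(5,1),(6,1),(7,1),(0,2),(1,2),(2,2),(3,2),(4,2),(5,2),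
  (0,3),(1,3),(2,3),(3,3),(0,4),(1,4)]
def sqP : List (ℕ × ℕ) := [(1,2),(2,2),(3,2),(4,2),(5,2),(6,2),(1,3),(2,3),(3,3),(4,3),(1,4),(2,4)]

def chkW (c : ℕ) : Bool :=
  (ovP.any fun p => (List.range (p.2+1)).all fun j => c.testBit (p.1+j) == c.testBit (p.1+j+p.2)) ||
  (sqP.any fun p => (List.range p.2).all fun j => c.testBit (p.1+j) == c.testBit (p.1+j+p.2))

theorem chkW_all : ∀ c < 1024, chkW c = true := by decide +kernel

theorem win (f : ℕ → Bool) :
    (∃ i q, 1 ≤ q ∧ ∀ j ≤ q, f (i+j) = f (i+j+q)) ∨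
    (∃ i q, 1 ≤ i ∧ 2 ≤ q ∧ ∀ j < q, f (i+j) = f (i+j+q)) := by
  have h := chkW_all (Nat.ofBits (fun k : Fin 10 => f k.val)) (Nat.ofBits_lt_two_pow _)
  have tb : ∀ k < 10, (Nat.ofBits (fun k : Fin 10 => f k.val)).testBit k = f k := by
    intro k hk
    rw [Nat.testBit_ofBits_lt _ _ hk]
  generalize (Nat.ofBits (fun k : Fin 10 => f k.val)) = c at h tb
  simp only [chkW, Bool.or_eq_true, List.any_eq_true, List.all_eq_true, List.mem_range, beq_iff_eq] at h
  rcases h with ⟨⟨i, q⟩, hm, h⟩ | ⟨⟨i, q⟩, hm, h⟩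
  · left
    have hb : ∀ p ∈ ovP, 1 ≤ p.2 ∧ p.1 + 2 * p.2 < 10 := by decide
    obtain ⟨h1, h2⟩ := hb _ hm
    simp only at h h1 h2
    refine ⟨i, q, h1, ?_⟩
    intro j hj
    have := h j (by omega)
    rwa [tb _ (by omega), tb _ (by omega)] at this
  · right
    have hb : ∀ p ∈ sqP, 1 ≤ p.1 ∧ 2 ≤ p.2 ∧ p.1 + 2 * p.2 ≤ 10 := by decide
    obtain ⟨h0, h1, h2⟩ := hb _ hm
    simp only at h h0 h1 h2
    refine ⟨i, q, h0, h1, ?_⟩
    intro j hj
    have := h j (by omega)
    rwa [tb _ (by omega), tb _ (by omega)] at this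

theorem pyz {w : ℕ → ℕ} (hA : Avoid w) (hlt : ∀ n, w n < 15) (hpre : ∀ n < 252, w n = W n) {ly lz : ℕ}
    (hly : 1 ≤ ly) (hlz : 1 ≤ lz)
    (Y1 : ∀ j < ly, w (248+j) = w (248+ly+lz+j)) (Y2 : ∀ j < ly, w (248+j) = w (248+2*ly+lz+j))
    (Z1 : ∀ j < lz, w (248+ly+j) = w (248+3*ly+lz+j)) : False := by
  have U := fun n (h : n < 248) => wul hpre h
  obtain ⟨b, hb⟩ : ∃ b, b = 249+3*ly+2*lz := ⟨_, rfl⟩
  have eqf : ∀ x y, 248 ≤ x → 248 ≤ y → (decide (w x = 1) = decide (w y = 1)) → w x = w y := by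
    intro x y hx hy h
    rcases bin' hA hlt hpre hx with h1 | h1 <;> rcases bin' hA hlt hpre hy with h2 | h2 <;>
      simp [h1, h2] at h ⊢
  rcases win (fun k => decide (w (b+k) = 1)) with ⟨i, q, hq, h⟩ | ⟨i, q, hi, hq, h⟩
  · apply ovl hA hlt hpre (b+i) q (by omega) hq
    intro j hj
    have := eqf _ _ (by omega) (by omega) (h j hj)
    rw [show b + (i+j) = b+i+j by ring, show b+(i+j+q) = b+i+j+q by ring] at this
    exact this
  · obtain ⟨g2, hg2⟩ : ∃ g2, g2 + 1 = b + i := ⟨b+i-1, by omega⟩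
    obtain ⟨lv, rfl⟩ : ∃ lv, q = lv+1 := ⟨q-1, by omega⟩
    have hs : ∀ j < lv+1, w (g2+1+j) = w (g2+1+j+(lv+1)) := by
      intro j hj
      have := eqf _ _ (by omega) (by omega) (h j hj)
      rw [show b + (i+j) = g2+1+j by omega, show b+(i+j+(lv+1)) = g2+1+j+(lv+1) by omega] at this
      exact this
    have hne : w g2 ≠ w (g2+1+lv) := by
      intro he
      apply ovl hA hlt hpre g2 (lv+1) (by omega) (by omega)
      intro j hj
      by_cases h0 : j = 0
      · subst h0
        rw [show g2 + 0 + (lv+1) = g2+1+lv by ring]; exact he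
      · have := hs (j-1) (by omega)
        rw [show g2+1+(j-1) = g2+j by omega] at this
        exact this
    have hB4 : w (g2+2+2*lv) = w (g2+1+lv) := by
      have := hs lv (by omega)
      rw [show g2+1+lv+(lv+1) = g2+2+2*lv by ring] at this
      exact this.symm
    have hWW : ∀ j < lv, w (g2+1+j) = w (g2+2+lv+j) := by
      intro j hj
      have := hs j (by omega)
      rw [show g2+1+j+(lv+1) = g2+2+lv+j by ring] at this
      exact this
    obtain ⟨m, hm, hm0⟩ := zero_after hA hlt hpre (g2+3+2*lv+1) (by omega)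
    have aux : ∀ {s x1 x2 i : ℕ}, w g2 = x1 → w (g2+1+lv) = x2 →
        occB i ([s,s,s,s,s,3,s,x1,s,x2,s] ++ [0] ++ [s] ++ [0,0,1,1] ++ [s,s,s,s,s]) = true →
        i + 22 < 247 → False := by
      intro s x1 x2 i ha hb' hc hi
      refine kl hA hpre (s := s) (x1 := x1) (x2 := x2) (x4 := 3) (x0 := [0]) (by simp) (i := i) (g2 := g2) (lv := lv)
        (g3 := 247) (ly := ly) (lz := lz)
        (g0 := m) (g6 := m+2) hly hlz (by omega) hc (by simpa using hi) (by omega)
        (by rw [U _ (by norm_num)]; decide +kernel) ?_ ?_ ?_ (by omega) ha hb' (hB4.trans hb') hWW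
        (by omega) ⟨hm0, trivial⟩ (by simp only [List.length_cons, List.length_nil]; omega)
        (bin' hA hlt hpre (by omega))
      · exact Y1
      · exact Y2
      · exact Z1
    rcases bin' hA hlt hpre (show 248 ≤ g2 by omega) with h1 | h1 <;>
      rcases bin' hA hlt hpre (show 248 ≤ g2+1+lv by omega) with h2 | h2
    · exact hne (h1.trans h2.symm)
    · exact aux (s := 13) (i := 189) h1 h2 (by decide +kernel) (by norm_num)
    · exact aux (s := 14) (i := 211) h1 h2 (by decide +kernel) (by norm_num)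
    · exact hne (h1.trans h2.symm)

theorem uniq {w : ℕ → ℕ} (hA : Avoid w) (hlt : ∀ n, w n < 15) (hpre : ∀ n < 252, w n = W n) : ∀ n, w n = W n := by
  have eqf : ∀ x y, 248 ≤ x → 248 ≤ y → (decide (w x = 1) = decide (w y = 1)) → w x = w y := by
    intro x y hx hy h
    rcases bin' hA hlt hpre hx with h1 | h1 <;> rcases bin' hA hlt hpre hy with h2 | h2 <;>
      simp [h1, h2] at h ⊢
  have w0 : w 248 = 0 := by
    rw [hpre _ (by norm_num), W_ge (le_refl _)]; simp [tm_zero]
  have w1 : w 249 = 1 := by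
    rw [hpre _ (by norm_num), W_ge (by norm_num)]; simp [tm1]
  have hK : K (fun n => decide (w (248+n) = 1)) := by
    refine ⟨?_, ?_, ?_, ?_⟩
    · intro q hq i h
      apply ovl hA hlt hpre (248+i) q (by omega) hq
      intro j hj
      have := eqf _ _ (by omega) (by omega) (h j hj)
      rw [show 248+(i+j) = 248+i+j by ring, show 248+(i+j+q) = 248+i+j+q by ring] at this
      exact this
    · intro q hq h
      by_cases h1 : q = 1
      · subst h1
        have := eqf _ _ (by omega) (by omega) (h 0 (by omega))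
        norm_num at this
        omega
      · obtain ⟨lv, rfl⟩ : ∃ lv, q = lv+1 := ⟨q-1, by omega⟩
        apply psq hA hlt hpre lv (by omega)
        intro j hj
        have := eqf _ _ (by omega) (by omega) (h j hj)
        rw [show 248+(j+(lv+1)) = 248+j+(lv+1) by ring] at this
        exact this
    · intro l hl m hm ⟨h1, h2, h3⟩
      apply pyz hA hlt hpre hl hm
      · intro j hj
        have := eqf _ _ (by omega) (by omega) (h1 j hj)
        rw [show 248+(l+m+j) = 248+l+m+j by ring] at this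
        exact this
      · intro j hj
        have := eqf _ _ (by omega) (by omega) (h2 j hj)
        rw [show 248+(2*l+m+j) = 248+2*l+m+j by ring] at this
        exact this
      · intro j hj
        have := eqf _ _ (by omega) (by omega) (h3 j hj)
        rw [show 248+(l+j) = 248+l+j by ring, show 248+(3*l+m+j) = 248+3*l+m+j by ring] at this
        exact this
    · simp [w0]
  intro n
  by_cases hn : n < 248
  · exact hpre n (by omega)
  · have h1 := K.unique (n-248) _ hK
    simp only [show 248 + (n-248) = n by omega] at h1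
    rw [W_ge (by omega), ← h1]
    rcases bin' hA hlt hpre (show 248 ≤ n by omega) with h | h <;> simp [h]

theorem Occ_of_get {w : ℕ → ℕ} : ∀ (l : List ℕ) (i : ℕ), (∀ j (hj : j < l.length), l[j] = w (i+j)) → Occ w i l := by
  intro l
  induction l with
  | nil => intro i _; trivial
  | cons a l ih =>
    intro i h
    refine ⟨?_, ih (i+1) ?_⟩
    · have := h 0 (by simp)
      simpa using this.symm
    · intro j hj
      have := h (j+1) (by simpa using hj)
      rw [show i+1+j = i+(j+1) by ring, ← this]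
      simp

theorem ul_lt : ∀ n < 248, ul n < 15 := by decide +kernel

theorem W_lt15 (n : ℕ) : W n < 15 := by
  by_cases h : n < 248
  · rw [W_lt h]; exact ul_lt n h
  · rcases W_bin (show 248 ≤ n by omega) with h | h <;> omega

def wF (n : ℕ) : Fin 15 := ⟨W n, W_lt15 n⟩

theorem avoidF : ∀ (h : Fin 15 → List (Fin 15)), (∀ x, h x ≠ []) →
    ∀ i n : ℕ, List.ofFn (fun j : Fin n => wF (i + (j : ℕ))) ≠ P.flatMap h := by
  intro h hne i n heq
  apply pfree (fun x => (h x).map Fin.val) (by intro x; simp [hne x]) i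
  have h1 : P.flatMap (fun x => (h x).map Fin.val) = (List.ofFn (fun j : Fin n => wF (i + (j : ℕ)))).map Fin.val := by
    rw [heq, List.map_flatMap]
  rw [h1]
  apply Occ_of_get
  intro j hj
  simp [wF]

theorem occ_fin {w : ℕ → Fin 15} {Q : List (Fin 15)} {h : Fin 15 → List ℕ} {i : ℕ}
    (hO : Occ (fun n => (w n).val) i (Q.flatMap h)) :
    List.ofFn (fun j : Fin (Q.flatMap h).length => w (i + (j : ℕ))) =
      Q.flatMap (fun x => (h x).map (fun a => Fin.ofNat 15 a)) := by
  have h0 : Q.flatMap (fun x => (h x).map (fun a => Fin.ofNat 15 a)) =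
      (Q.flatMap h).map (fun a => Fin.ofNat 15 a) := by
    rw [List.map_flatMap]
  rw [h0]
  generalize Q.flatMap h = L at hO ⊢
  apply List.ext_getElem
  · rw [List.length_ofFn, List.length_map]
  · intro j h1 h2
    have hj : j < L.length := by rw [List.length_map] at h2; exact h2
    have := Occ_get hO j hj
    simp only [List.getElem_ofFn, List.getElem_map]
    rw [← this]
    ext
    simp [Nat.mod_eq_of_lt (w (i+j)).isLt]

theorem Avoid_of {w : ℕ → Fin 15} (hw : ∀ (h : Fin 15 → List (Fin 15)), (∀ x, h x ≠ []) →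
    ∀ i n : ℕ, List.ofFn (fun j : Fin n => w (i + (j : ℕ))) ≠ P.flatMap h) : Avoid (fun n => (w n).val) := by
  intro h hne i hO
  exact hw (fun x => (h x).map (fun a => Fin.ofNat 15 a))
    (by intro x hx; exact hne x (List.map_eq_nil_iff.mp hx)) i _ (occ_fin hO)


/-- The negation of the preceding statement: For every pattern p and finite alphabet Σ: if some infinite word over Σ avoids p (no factor is a nonerasing morphic image of p), then the set of all infinite words over Σ avoiding p is perfect in the product topology. -/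
theorem result :
    ¬ (∀ (m k : ℕ) (p : List (Fin m)),
      (∃ w : ℕ → Fin k, ∀ (h : Fin m → List (Fin k)), (∀ x, h x ≠ []) →
          ∀ i n : ℕ, List.ofFn (fun j : Fin n => w (i + (j : ℕ))) ≠ p.flatMap h) →
      Perfect {w : ℕ → Fin k | ∀ (h : Fin m → List (Fin k)), (∀ x, h x ≠ []) →
          ∀ i n : ℕ, List.ofFn (fun j : Fin n => w (i + (j : ℕ))) ≠ p.flatMap h}) := by
  intro H
  have hp := H 15 15 P ⟨wF, avoidF⟩
  have h1 := hp.acc wF avoidF
  rw [accPt_iff_nhds] at h1
  have hU : Set.pi (Set.Iio 252) (fun n : ℕ => ({wF n} : Set (Fin 15))) ∈ nhds wF := by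
    apply set_pi_mem_nhds (Set.finite_Iio 252)
    intro n _
    exact (isOpen_discrete _).mem_nhds rfl
  obtain ⟨y, ⟨hy1, hy2⟩, hne⟩ := h1 _ hU
  apply hne
  have hA := Avoid_of hy2
  have hu := uniq hA (fun n => (y n).isLt) (by
    intro n hn
    have := hy1 n hn
    simp only [Set.mem_singleton_iff] at this
    rw [this]; rfl)
  funext n
  apply Fin.ext
  exact hu n

end Pool.Agent.S05646
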