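import Pool.Statements.S05656
import Pool.Agent.Helper291.BentMain

set_option autoImplicit false
open Pool Pool.MP_5641ff_co

namespace Pool.Agent.S05656

/-- The negation of the preceding statement: For every m ≥ 1, every Boolean function on 2m bits of algebraic degree at most m equals the XOR of two bent functions, bent meaning every Walsh coefficient has square 2^(2m). -/
theorem result :
    ¬ (∀ m : ℕ, 1 ≤ m →
      ∀ f : (Fin (2 * m) → ZMod 2) → ZMod 2,
        (∃ p : MvPolynomial (Fin (2 * m)) (ZMod 2),
            p.totalDegree ≤ m ∧ ∀ x, MvPolynomial.eval x p = f x) →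
        ∃ g h : (Fin (2 * m) → ZMod 2) → ZMod 2,
          (∀ a : Fin (2 * m) → ZMod 2,
              (∑ x : Fin (2 * m) → ZMod 2,
                  (-1 : ℤ) ^ ((g x + ∑ i, a i * x i).val)) ^ 2 = 2 ^ (2 * m)) ∧
          (∀ a : Fin (2 * m) → ZMod 2,
              (∑ x : Fin (2 * m) → ZMod 2,
                  (-1 : ℤ) ^ ((h x + ∑ i, a i * x i).val)) ^ 2 = 2 ^ (2 * m)) ∧
          ∀ x, f x = g x + h x) := by
  intro hall
  exact Pool.Agent.Helper291.Bent.not_all_sum hall

end Pool.Agent.S05656
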