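import Pool.Statements.S05686

set_option autoImplicit false
open Pool Pool.MP_5833ce_co

namespace Pool.Agent.S05686

/-- The closed adjacency matrix (adjacency matrix plus identity) of a graph on
thirteen vertices, over the integers modulo three. -/
def M : Fin 13 → Fin 13 → ZMod 3 :=
  ![![1, 1, 1, 1, 0, 1, 0, 0, 0, 1, 0, 1, 1],
    ![1, 1, 1, 0, 1, 0, 0, 1, 1, 1, 1, 0, 0],
    ![1, 1, 1, 0, 0, 1, 1, 1, 0, 0, 1, 0, 1],
    ![1, 0, 0, 1, 0, 0, 1, 1, 0, 0, 1, 1, 0],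
    ![0, 1, 0, 0, 1, 1, 1, 0, 0, 0, 1, 1, 0],
    ![1, 0, 1, 0, 1, 1, 0, 1, 0, 1, 0, 1, 1],
    ![0, 0, 1, 1, 1, 0, 1, 0, 1, 1, 0, 0, 1],
    ![0, 1, 1, 1, 0, 1, 0, 1, 1, 1, 1, 0, 0],
    ![0, 1, 0, 0, 0, 0, 1, 1, 1, 1, 1, 0, 1],
    ![1, 1, 0, 0, 0, 1, 1, 1, 1, 1, 0, 1, 0],
    ![0, 1, 1, 1, 1, 0, 0, 1, 1, 0, 1, 1, 0],
    ![1, 0, 0, 1, 1, 1, 0, 0, 0, 1, 1, 1, 1],
    ![1, 0, 1, 0, 0, 1, 1, 0, 1, 0, 0, 1, 1]]

/-- A basis of the row space of `M`, in reduced echelon form. -/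
def Bas : Fin 7 → Fin 13 → ZMod 3 :=
  ![![1, 0, 0, 0, 0, 0, 0, 2, 2, 0, 2, 1, 1],
    ![0, 1, 0, 0, 0, 0, 0, 1, 2, 0, 1, 2, 0],
    ![0, 0, 1, 0, 0, 0, 0, 0, 2, 2, 1, 2, 1],
    ![0, 0, 0, 1, 0, 0, 0, 2, 2, 2, 2, 2, 1],
    ![0, 0, 0, 0, 1, 0, 0, 1, 1, 2, 0, 1, 1],
    ![0, 0, 0, 0, 0, 1, 0, 1, 1, 0, 0, 0, 1],
    ![0, 0, 0, 0, 0, 0, 1, 0, 2, 1, 0, 1, 1]]

def piv (i : Fin 7) : Fin 13 := ⟨i.val, by omega⟩

/-- The graph on thirteen vertices. -/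
def G : SimpleGraph (Fin 13) where
  Adj i j := i ≠ j ∧ M i j = 1
  symm := ⟨by decide +kernel⟩
  loopless := ⟨by decide +kernel⟩

instance : DecidableRel G.Adj := fun i j =>
  inferInstanceAs (Decidable (i ≠ j ∧ M i j = 1))

theorem M_eq : ∀ v w : Fin 13,
    M v w = (if w = v then 1 else 0) + (if G.Adj v w then 1 else 0) := by
  decide +kernel

theorem M_bas : ∀ v j : Fin 13, M j v = ∑ i, Bas i j * M (piv i) v := by
  decide +kernel

theorem no_word : ∀ a b c d e x y : ZMod 3,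
    a ≠ 0 → b ≠ 0 → c ≠ 0 → d ≠ 0 → e ≠ 0 → x ≠ 0 → y ≠ 0 →
    ∃ j : Fin 13, ∑ i, Bas i j * (![a, b, c, d, e, x, y] : Fin 7 → ZMod 3) i = 0 := by
  decide +kernel

/-- The negation of the preceding statement: For every k ≥ 2 and every finite simple graph, some labeling of the vertices by integers mod k makes the sum of labels over each vertex's closed neighbourhood nonzero mod k. -/
theorem result :
    ¬ (∀ k : ℕ, 2 ≤ k →
      ∀ (V : Type) [Fintype V] (G : SimpleGraph V) [DecidableRel G.Adj],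
        ∃ f : V → ZMod k, ∀ v : V, f v + ∑ w ∈ G.neighborFinset v, f w ≠ 0) := by
  intro h
  obtain ⟨f, hf⟩ := h 3 (by norm_num) (Fin 13) G
  have hF : ∀ v, f v + ∑ w ∈ G.neighborFinset v, f w = ∑ w, M v w * f w := by
    intro v
    rw [SimpleGraph.neighborFinset_eq_filter, Finset.sum_filter]
    have h1 : f v = ∑ w, (if w = v then f w else 0) := by simp
    conv_lhs => rw [h1]
    rw [← Finset.sum_add_distrib]
    apply Finset.sum_congr rfl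
    intro w _
    rw [M_eq v w, add_mul]
    congr 1
    · split_ifs <;> simp
    · split_ifs <;> simp
  have hB : ∀ j, (∑ w, M j w * f w) = ∑ i, Bas i j * (∑ w, M (piv i) w * f w) := by
    intro j
    simp_rw [Finset.mul_sum]
    rw [Finset.sum_comm]
    apply Finset.sum_congr rfl
    intro w _
    rw [M_bas w j, Finset.sum_mul]
    apply Finset.sum_congr rfl
    intro i _
    ring
  have hnz : ∀ j, (∑ w, M j w * f w) ≠ 0 := by
    intro j
    rw [← hF j]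
    exact hf j
  obtain ⟨j, hj⟩ := no_word _ _ _ _ _ _ _ (hnz (piv 0)) (hnz (piv 1)) (hnz (piv 2))
    (hnz (piv 3)) (hnz (piv 4)) (hnz (piv 5)) (hnz (piv 6))
  apply hnz j
  rw [hB j, ← hj]
  apply Finset.sum_congr rfl
  intro i _
  fin_cases i <;> rfl

end Pool.Agent.S05686
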