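import Pool.Statements.S05688
-- import your own Pool.Agent.* helpers here

set_option autoImplicit false
open Pool Pool.MP_5836d8_co

namespace Pool.Agent.S05688


/-! The dodecahedron graph, as the generalised Petersen graph `GP(10,2)`: the outer cycle is
`0, ..., 9`, the inner vertices are `10, ..., 19`. -/

/-- adjacency as a Boolean function on numbers below 20 -/
def adjB (i j : ℕ) : Bool :=
  (decide (i < 10) && decide (j < 10) && (decide (j = (i + 1) % 10) || decide (i = (j + 1) % 10))) ||
  decide (i + 10 = j) || decide (j + 10 = i) ||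
  (decide (10 ≤ i) && decide (10 ≤ j) &&
    (decide (j - 10 = (i - 10 + 2) % 10) || decide (i - 10 = (j - 10 + 2) % 10)))

/-- the dodecahedron graph -/
def G : SimpleGraph (Fin 20) where
  Adj i j := adjB i.val j.val = true
  symm := ⟨by decide +kernel⟩
  loopless := ⟨by decide +kernel⟩

/-- table of distances, written in base 8 -/
def D (x y : Fin 20) : ℕ := (858961042571291780041484771337623165273429756198526141156561647021766897469584521461159631678430347291536133425940404827113403904738859456379354323687122884628391853905429617396038618477575232286251131282091693277576791227435176336046606880914963476445346523761224458436727632776011111314401513775159239245139327389434302058770888296905257075579842443533797000 / 8 ^ (20 * x.val + y.val)) % 8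

/-- the vertex weights `f : V → {0,1,2}` -/
def f (x : Fin 20) : ℕ := (389023352 / 3 ^ x.val) % 3

/-- table of the weights modulo 3 of shortest paths, both ends included -/
def F (x y : Fin 20) : ℕ := (17669835241877904583690430378895009385124068435350732939626158660468534478817363790108584650298354618206934921328248610635670971177520412638484195494442596513745468051157302668722525897396800 / 3 ^ (20 * x.val + y.val)) % 3

lemma D_self : ∀ x, D x x = 0 := by decide +kernel
lemma F_self : ∀ x, F x x = f x % 3 := by decide +kernel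

lemma step : ∀ x x' : Fin 20, adjB x.val x'.val = true → ∀ y : Fin 20,
    D x y ≤ D x' y + 1 ∧ (D x y = D x' y + 1 → F x y = (f x + F x' y) % 3) := by
  decide +kernel

lemma descend : ∀ x y : Fin 20, x ≠ y → ∃ x' : Fin 20, adjB x.val x'.val = true ∧ D x' y + 1 = D x y := by
  decide +kernel

lemma walk_bound {x y : Fin 20} (p : G.Walk x y) :
    D x y ≤ p.length ∧ (p.length = D x y → (p.support.map f).sum % 3 = F x y) := by
  induction p with
  | nil =>
    rename_i u
    constructor
    · rw [D_self]; exact Nat.zero_le _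
    · intro _
      simp [F_self]
  | cons h p ih =>
    rename_i u v w
    obtain ⟨h1, h2⟩ := step u v h w
    constructor
    · simp only [SimpleGraph.Walk.length_cons]
      omega
    · intro hl
      simp only [SimpleGraph.Walk.length_cons] at hl
      have h3 : p.length = D v w := by omega
      have h4 : D u w = D v w + 1 := by omega
      have h5 := ih.2 h3
      rw [h2 h4, SimpleGraph.Walk.support_cons, List.map_cons, List.sum_cons, ← h5]
      omega

lemma exists_walk (k : ℕ) : ∀ x y : Fin 20, D x y = k → ∃ p : G.Walk x y, p.length = k := by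
  induction k with
  | zero =>
    intro x y h
    by_cases hxy : x = y
    · subst hxy
      exact ⟨SimpleGraph.Walk.nil, rfl⟩
    · obtain ⟨x', _, h2⟩ := descend x y hxy
      omega
  | succ k ih =>
    intro x y h
    have hxy : x ≠ y := by
      rintro rfl
      rw [D_self] at h
      omega
    obtain ⟨x', h1, h2⟩ := descend x y hxy
    obtain ⟨p, hp⟩ := ih x' y (by omega)
    exact ⟨SimpleGraph.Walk.cons (show G.Adj x x' from h1) p, by rw [SimpleGraph.Walk.length_cons, hp]⟩

lemma G_connected : G.Connected := by
  rw [SimpleGraph.connected_iff]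
  refine ⟨fun x y => ?_, ⟨0⟩⟩
  obtain ⟨p, _⟩ := exists_walk _ x y rfl
  exact ⟨p⟩

lemma dist_eq (x y : Fin 20) : G.dist x y = D x y := by
  apply le_antisymm
  · obtain ⟨p, hp⟩ := exists_walk _ x y rfl
    rw [← hp]
    exact SimpleGraph.dist_le p
  · obtain ⟨p, hp⟩ := G_connected.exists_walk_length_eq_dist x y
    rw [← hp]
    exact (walk_bound p).1

/-- the rotation -/
def rot (i : Fin 20) : Fin 20 :=
  if h : i.val < 10 then ⟨(i.val + 1) % 10, by omega⟩ else ⟨10 + (i.val - 10 + 1) % 10, by omega⟩
def rotInv (i : Fin 20) : Fin 20 :=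
  if h : i.val < 10 then ⟨(i.val + 9) % 10, by omega⟩ else ⟨10 + (i.val - 10 + 9) % 10, by omega⟩
def tau (i : Fin 20) : Fin 20 :=
  (![10, 0, 9, 19, 17, 15, 5, 4, 14, 12, 18, 1, 8, 11, 7, 13, 6, 3, 16, 2] : Fin 20 → Fin 20) i
def tauInv (i : Fin 20) : Fin 20 :=
  (![1, 11, 19, 17, 7, 6, 16, 14, 12, 2, 0, 13, 9, 15, 8, 5, 18, 4, 10, 3] : Fin 20 → Fin 20) i

def rotIso : G ≃g G where
  toFun := rot
  invFun := rotInv
  left_inv := by
    intro x; revert x; decide +kernel
  right_inv := by
    intro x; revert x; decide +kernel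
  map_rel_iff' := by
    intro a b
    change adjB (rot a).val (rot b).val = true ↔ adjB a.val b.val = true
    revert a b
    decide +kernel

def tauIso : G ≃g G where
  toFun := tau
  invFun := tauInv
  left_inv := by
    intro x; revert x; decide +kernel
  right_inv := by
    intro x; revert x; decide +kernel
  map_rel_iff' := by
    intro a b
    change adjB (tau a).val (tau b).val = true ↔ adjB a.val b.val = true
    revert a b
    decide +kernel

lemma reach (k : ℕ) (x : Fin 20) (h : ∃ φ : G ≃g G, φ 0 = x) : ∃ φ : G ≃g G, φ 0 = rot^[k] x := by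
  induction k with
  | zero => exact h
  | succ k ih =>
    obtain ⟨φ, hφ⟩ := ih
    refine ⟨φ.trans rotIso, ?_⟩
    rw [Function.iterate_succ_apply']
    change rot (φ 0) = _
    rw [hφ]

lemma trans_aux : ∀ v : Fin 20, (∃ k : Fin 10, rot^[k.val] 0 = v) ∨ (∃ k : Fin 10, rot^[k.val] 10 = v) := by
  decide +kernel

lemma from_zero (v : Fin 20) : ∃ φ : G ≃g G, φ 0 = v := by
  rcases trans_aux v with ⟨k, hk⟩ | ⟨k, hk⟩
  · rw [← hk]
    exact reach k.val 0 ⟨SimpleGraph.Iso.refl, rfl⟩
  · rw [← hk]
    exact reach k.val 10 ⟨tauIso, rfl⟩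

lemma G_transitive (x y : Fin 20) : ∃ φ : G ≃g G, φ x = y := by
  obtain ⟨φ, hφ⟩ := from_zero x
  obtain ⟨ψ, hψ⟩ := from_zero y
  refine ⟨φ.symm.trans ψ, ?_⟩
  change ψ (φ.symm x) = y
  rw [← hφ, RelIso.symm_apply_apply, hψ]

lemma list_sum_aux {V : Type} [Fintype V] [DecidableEq V] (g : V → ℕ) (l : List V) (hl : l.Nodup) :
    ∑ v : V, (if v ∈ l then g v else 0) = (l.map g).sum := by
  rw [← Finset.sum_filter, ← List.sum_toFinset g hl]
  refine Finset.sum_congr ?_ (fun _ _ => rfl)
  ext v
  simp

lemma double_count {V : Type} [Fintype V] [DecidableEq V] (g : V → ℕ) (H : SimpleGraph V)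
    (P : (x : V) → (y : V) → H.Walk x y)
    (hP : ∀ x y : V, x ≠ y → (P x y).length = H.dist x y) :
    ∑ v : V, g v * (Finset.univ.filter
      (fun p : V × V => p.1 ≠ p.2 ∧ v ∈ (P p.1 p.2).support)).card
      = ∑ p : V × V, if p.1 ≠ p.2 then ((P p.1 p.2).support.map g).sum else 0 := by
  have e1 : ∀ v : V, g v * (Finset.univ.filter
      (fun p : V × V => p.1 ≠ p.2 ∧ v ∈ (P p.1 p.2).support)).card
      = ∑ p : V × V, if (p.1 ≠ p.2 ∧ v ∈ (P p.1 p.2).support) then g v else 0 := by
    intro v
    rw [Finset.card_filter, Finset.mul_sum]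
    apply Finset.sum_congr rfl
    intro p _
    split_ifs <;> simp
  simp_rw [e1]
  rw [Finset.sum_comm]
  apply Finset.sum_congr rfl
  rintro ⟨x, y⟩ _
  by_cases hxy : x = y
  · simp [hxy]
  · have hpath : (P x y).IsPath := (P x y).isPath_of_length_eq_dist (hP x y hxy)
    have hnd := hpath.support_nodup
    simp only [ne_eq, hxy, not_false_eq_true, true_and, if_true]
    exact list_sum_aux g _ hnd

lemma mod_aux {V : Type} [Fintype V] [DecidableEq V] (a b : V → V → ℕ)
    (h : ∀ x y, x ≠ y → a x y % 3 = b x y % 3) :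
    (∑ p : V × V, if p.1 ≠ p.2 then a p.1 p.2 else 0) % 3
      = (∑ p : V × V, if p.1 ≠ p.2 then b p.1 p.2 else 0) % 3 := by
  apply Nat.ModEq.sum
  rintro ⟨x, y⟩ _
  by_cases hxy : x = y
  · simp [hxy]
    rfl
  · simp only [ne_eq, hxy, not_false_eq_true, if_true]
    exact h x y hxy

lemma sum_f : ∑ v : Fin 20, f v = 12 := by decide +kernel

lemma sum_F : (∑ p : Fin 20 × Fin 20, if p.1 ≠ p.2 then F p.1 p.2 else 0) % 3 = 1 := by
  decide +kernel

/-- The negation of the preceding statement: In every finite connected vertex-transitive graph, one can pick a shortest path from each vertex x to each other vertex y so that every vertex lies on the same number of the chosen paths. -/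
theorem result :
    ¬ (∀ (V : Type) [Fintype V] [DecidableEq V] (G : SimpleGraph V),
      G.Connected →
      (∀ x y : V, ∃ φ : G ≃g G, φ x = y) →
      ∃ P : (x : V) → (y : V) → G.Walk x y,
        (∀ x y : V, x ≠ y → (P x y).length = G.dist x y) ∧
        ∃ c : ℕ, ∀ v : V,
          (Finset.univ.filter
            (fun p : V × V => p.1 ≠ p.2 ∧ v ∈ (P p.1 p.2).support)).card = c) := by
  intro hall
  obtain ⟨P, hP, c, hc⟩ := hall (Fin 20) G G_connected G_transitive
  have h1 : ∑ v : Fin 20, f v * (Finset.univ.filter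
      (fun p : Fin 20 × Fin 20 => p.1 ≠ p.2 ∧ v ∈ (P p.1 p.2).support)).card = 12 * c := by
    simp_rw [hc]
    rw [← Finset.sum_mul, sum_f]
  have h2 := double_count f G P hP
  have h3 := mod_aux (fun x y => ((P x y).support.map f).sum) F (fun x y hxy => by
    have h4 := (walk_bound (P x y)).2 (by rw [hP x y hxy, dist_eq])
    have h5 : F x y < 3 := Nat.mod_lt _ (by norm_num)
    rw [h4, Nat.mod_eq_of_lt h5])
  have h6 : (12 * c) % 3 = 1 := by
    rw [← h1, h2, h3]
    exact sum_F
  clear h3 h2 h1
  omega

end Pool.Agent.S05688
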