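import Pool.Statements.S05695
import Pool.Agent.Helper826.Jia.Core

set_option autoImplicit false
open N289fa9c1
open Filter SimpleGraph
open Pool Pool.MP_58b56d_co

namespace Pool.Agent.S05695

theorem set_nonempty (n : ℕ) (hn : 3 ≤ n) :
    {t | ∃ G : SimpleGraph (Fin n), G.edgeSet.ncard = n + t ∧ HasAllCycleLengths G}.Nonempty := by
  classical
  have h1 : (⊤ : SimpleGraph (Fin n)).edgeSet.ncard = n.choose 2 := by
    have := SimpleGraph.card_edgeFinset_top_eq_card_choose_two (V := Fin n)
    rw [Fintype.card_fin] at this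
    rw [← this, ← SimpleGraph.coe_edgeFinset, Set.ncard_coe_finset]
  have h2 : n ≤ n.choose 2 := by
    rw [Nat.choose_two_right]
    rw [Nat.le_div_iff_mul_le (by norm_num)]
    exact Nat.mul_le_mul_left n (by omega)
  refine ⟨n.choose 2 - n, ⊤, by rw [h1]; omega, ?_⟩
  intro k hk hkn
  rw [Fintype.card_fin] at hkn
  exact SimpleGraph.isContained_top_iff.mpr ⟨Fin.castLEEmb hkn⟩

/-- Tendsto (n ↦ h n − log₂ n) atTop atTop, where h n = least t∈ℕ such that some simple graph on Fin n with exactly n+t edges contains C_k for every 3 ≤ k ≤ n -/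
theorem result :
    Tendsto (fun n : ℕ ↦ (h n : ℝ) - Real.logb 2 (n : ℝ)) atTop atTop := by
  rw [tendsto_atTop]
  intro C
  obtain ⟨n0, hn0⟩ := Jia.core C
  filter_upwards [eventually_ge_atTop n0, eventually_ge_atTop 3] with n hn hn3
  obtain ⟨G, hG, hA⟩ := Nat.sInf_mem (set_nonempty n hn3)
  have hG' : G.edgeSet.ncard = n + h n := hG
  have := hn0 n hn n G (by
    intro k hk hkn
    rw [← SimpleGraph.cycleGraph_isContained_iff (by omega : 2 < k)]
    exact hA k hk (by rw [Fintype.card_fin]; exact hkn))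
  rw [hG'] at this
  push_cast at this
  linarith

end Pool.Agent.S05695
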