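import Pool.Statements.S05708

set_option autoImplicit false
open Pool Pool.MP_598d99_co

namespace Pool.Agent.S05708

/-- The colour of a subset of the eight points; on pairs it is the round-robin
one-factorisation of the complete graph on eight points. -/
def col (S : Finset (Fin 8)) : Fin 7 :=
  if (7 : Fin 8) ∈ S then ⟨(∑ v ∈ S, v.val) % 7, Nat.mod_lt _ (by decide)⟩
  else ⟨(4 * ∑ v ∈ S, v.val) % 7, Nat.mod_lt _ (by decide)⟩

/-- The negation of the preceding statement: For any colouring of the s-subsets of an N-set with m colours, when s ≤ t and t+1 ≤ N/2, the number of distinct colour-count vectors of t-subsets is at most that of (t+1)-subsets. -/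
theorem result :
    ¬ (∀ (N s m : ℕ) (c : Finset (Fin N) → Fin m) (t : ℕ),
      s ≤ t → 2 * (t + 1) ≤ N →
        (((Finset.univ : Finset (Fin N)).powersetCard t).image
            (fun T : Finset (Fin N) => fun i : Fin m =>
              ((T.powersetCard s).filter (fun S => c S = i)).card)).card
        ≤
        (((Finset.univ : Finset (Fin N)).powersetCard (t + 1)).image
            (fun T : Finset (Fin N) => fun i : Fin m =>
              ((T.powersetCard s).filter (fun S => c S = i)).card)).card) := by
  intro h
  have h1 := h 8 2 7 col 3 (by norm_num) (by norm_num)
  revert h1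
  decide +kernel

end Pool.Agent.S05708
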