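-- Proof of statement S05721.
import Pool.Statements.S05721
import Pool.Agent.Helper36.F2Col

set_option autoImplicit false
open Pool Pool.MP_5a7c5b_co

namespace Pool.Agent.S05721

/-- The free group on two generators can be colored with finitely many colors so that no infinite set A with A = g A⁻¹ g (for some g) is monochromatic. -/
theorem result :
    ∃ k : ℕ, ∃ c : FreeGroup (Fin 2) → Fin k,
      ∀ A : Set (FreeGroup (Fin 2)), A.Infinite →
        (∃ g : FreeGroup (Fin 2), A = (fun a => g * a⁻¹ * g) '' A) →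
          ¬ ∃ i : Fin k, ∀ a ∈ A, c a = i := by
  classical
  obtain ⟨k, ⟨e⟩⟩ := Finite.exists_equiv_fin (Bool × (Fin 3 → Bool → Prop))
  refine ⟨k, fun x => e (Pool.Agent.Helper36.F2Col.colour x), ?_⟩
  intro A hA hsym
  rintro ⟨i, hi⟩
  apply Pool.Agent.Helper36.F2Col.no_infinite A hA hsym
  refine ⟨e.symm i, fun a ha => ?_⟩
  rw [← hi a ha, Equiv.symm_apply_apply]

end Pool.Agent.S05721
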