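import Pool.Statements.S05731
import Pool.Agent.Helper472.SpG

set_option autoImplicit false
open Classical
open Pool Pool.MP_5ae207_co

namespace Pool.Agent.S05731

/-- For every cycle C_n (n at least 3) and every path P_n, any inclusion-antichain of independent sets is no larger than the number of independent sets of some single size r. So the largest antichain equals the largest level. -/
theorem result :
    (∀ n : ℕ, 3 ≤ n →
      ∀ A : Finset (Finset (Fin n)),
        (∀ s ∈ A, (SimpleGraph.cycleGraph n).IsIndepSet (s : Set (Fin n))) →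
        IsAntichain (· ⊆ ·) (A : Set (Finset (Fin n))) →
        ∃ r : ℕ, A.card ≤
          (Finset.univ.filter (fun s : Finset (Fin n) =>
            s.card = r ∧ (SimpleGraph.cycleGraph n).IsIndepSet (s : Set (Fin n)))).card) ∧
    (∀ n : ℕ,
      ∀ A : Finset (Finset (Fin n)),
        (∀ s ∈ A, (SimpleGraph.pathGraph n).IsIndepSet (s : Set (Fin n))) →
        IsAntichain (· ⊆ ·) (A : Set (Finset (Fin n))) →
        ∃ r : ℕ, A.card ≤
          (Finset.univ.filter (fun s : Finset (Fin n) =>
            s.card = r ∧ (SimpleGraph.pathGraph n).IsIndepSet (s : Set (Fin n)))).card) := by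
  constructor
  · intro n hn A hA hanti
    obtain ⟨k, rfl⟩ : ∃ k, n = k + 3 := ⟨n - 3, by omega⟩
    obtain ⟨r, hr⟩ := Pool.Agent.Helper472.Sp.cyc_sperner A hA hanti
    refine ⟨r, le_trans hr (le_of_eq ?_)⟩
    congr 1
    ext s
    simp only [Pool.Agent.Helper472.Sp.mem_Lv, Finset.mem_filter, Finset.mem_univ, true_and,
      Pool.Agent.Helper472.Sp.PC]
  · intro n A hA hanti
    obtain ⟨r, hr⟩ := Pool.Agent.Helper472.Sp.path_sperner n A hA hanti
    refine ⟨r, le_trans hr (le_of_eq ?_)⟩
    congr 1
    ext s
    simp only [Pool.Agent.Helper472.Sp.mem_Lv, Finset.mem_filter, Finset.mem_univ, true_and,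
      Pool.Agent.Helper472.Sp.PP]

end Pool.Agent.S05731
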