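import Pool.Statements.S05733
import Pool.Agent.Helper491.RPFinal
-- import your own Pool.Agent.* helpers here

set_option autoImplicit false
open Pool Pool.MP_5aeb54_co

namespace Pool.Agent.S05733

open Pool.Agent.Helper491.RP in
theorem covAll {V : Type} [DecidableEq V] [Fintype V] (G : SimpleGraph V) [DecidableRel G.Adj]
    (col : Sym2 V → ℕ)
    (hprop : ∀ a b c, G.Adj a b → G.Adj a c → b ≠ c → col s(a, b) ≠ col s(a, c)) :
    ∃ X : Finset (Sym2 V), (∀ e ∈ G.edgeSet, e ∈ X) ∧
      Cov G col X (1317388 * (Fintype.card V : ℝ)) := by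
  classical
  set L0 : Finset (Sym2 V) :=
    Finset.univ.filter (fun e => e ∈ G.edgeSet ∧ ∀ u ∈ e, 2 ^ 12 ≤ G.degree u) with hL0
  set L1 : Finset (Sym2 V) :=
    Finset.univ.filter (fun e => e ∈ G.edgeSet ∧ ∃ u ∈ e, G.degree u < 2 ^ 12) with hL1
  have hstar : ∀ u, (eim (dstar G u)).card ≤ G.degree u := by
    intro u
    refine Finset.card_image_le.trans ?_
    rw [← G.card_neighborFinset_eq_degree]
    refine Finset.card_le_card_of_injOn (fun p => p.2) ?_ ?_
    · intro p hp
      rw [Finset.mem_coe, mem_dstar] at hp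
      rw [Finset.mem_coe, SimpleGraph.mem_neighborFinset, ← hp.2]
      exact hp.1
    · rintro ⟨a, b⟩ hp ⟨a', b'⟩ hp' heq
      rw [Finset.mem_coe, mem_dstar] at hp hp'
      have h1 := hp.2
      have h2 := hp'.2
      simp only at h1 h2 heq
      rw [h1, h2, heq]
  have hInv : Inv G col (slotD G) 0 L0 := by
    refine ⟨?_, ?_, ?_, ?_⟩
    · intro e he
      rw [hL0, Finset.mem_filter] at he
      exact he.2.1
    · intro p hp
      rw [mem_darts, hL0, Finset.mem_filter] at hp
      exact hp.2.2.2 p.1 (Sym2.mem_mk_left _ _)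
    · intro u
      rw [pow_zero, one_mul]
      exact_mod_cast (Finset.card_le_card Finset.inter_subset_right).trans (hstar u)
    · rintro ⟨s, i, κ⟩
      rw [pow_zero, one_mul]
      have h1 : (L0 ∩ eim (dset G col (slotD G) (s, i, κ))).card ≤ (gset G (slotD G) s i).card := by
        refine (Finset.card_le_card Finset.inter_subset_right).trans (Finset.card_image_le.trans ?_)
        refine Finset.card_le_card_of_injOn (fun p => p.1) ?_ ?_
        · intro p hp
          rw [Finset.mem_coe, mem_dset] at hp
          exact hp.2.1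
        · rintro ⟨a, b⟩ hp ⟨a', b'⟩ hp' heq
          rw [Finset.mem_coe, mem_dset] at hp hp'
          simp only at heq
          subst heq
          have hb : b = b' := by
            obtain ⟨ha, _, hk⟩ := hp
            obtain ⟨ha', _, hk'⟩ := hp'
            rcases hk with hk | hk
            · rcases hk' with hk' | hk'
              · rw [hk] at hk'
                exact Sum.inl_injective hk'
              · rw [hk] at hk'
                exact absurd hk' (by simp)
            · rcases hk' with hk' | hk'
              · rw [hk] at hk'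
                exact absurd hk' (by simp)
              · rw [hk] at hk'
                by_contra hne
                exact hprop a b b' ha ha' hne (Sum.inr_injective hk')
          rw [hb]
      have h2 : ((L0 ∩ eim (dset G col (slotD G) (s, i, κ))).card : ℝ)
          ≤ (gset G (slotD G) s i).card := by exact_mod_cast h1
      refine h2.trans ?_
      unfold q34
      simp only
      have : (0 : ℝ) ≤ (3 / 2) ^ i := by positivity
      linarith
  have hc0 := allStages G col (slotD G) hprop (slotD_grp G) (card_slotT G) (Fintype.card V) 0 L0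
    (by omega) hInv
  have hc1 : Cov G col L1 (4096 * (Fintype.card V : ℝ)) := by
    refine (Cov.single (fun e he => ?_)).mono (Finset.Subset.refl _) ?_
    · rw [hL1, Finset.mem_filter] at he
      exact he.2.1
    · have h1 : L1 ⊆ (Finset.univ.filter (fun u => G.degree u < 2 ^ 12)).biUnion
          (fun u => eim (dstar G u)) := by
        intro e he
        rw [hL1, Finset.mem_filter] at he
        obtain ⟨_, he1, u, hue, hdu⟩ := he
        rw [Finset.mem_biUnion]
        refine ⟨u, Finset.mem_filter.mpr ⟨Finset.mem_univ _, hdu⟩, ?_⟩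
        unfold eim
        rw [Finset.mem_image]
        obtain ⟨w, rfl⟩ := Sym2.mem_iff_exists.mp hue
        exact ⟨(u, w), (mem_dstar G).mpr ⟨he1, rfl⟩, rfl⟩
      have h2 := (Finset.card_le_card h1).trans Finset.card_biUnion_le
      have h3 : ∑ u ∈ Finset.univ.filter (fun u => G.degree u < 2 ^ 12), (eim (dstar G u)).card
          ≤ ∑ u : V, 4096 := by
        refine (Finset.sum_le_sum (g := fun _ => 4096) (fun u hu => ?_)).trans ?_
        · have := (Finset.mem_filter.mp hu).2
          have h4 := hstar u
          norm_num at this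
          omega
        · exact Finset.sum_le_sum_of_subset_of_nonneg (Finset.filter_subset _ _)
            (fun _ _ _ => by positivity)
      rw [Finset.sum_const, Finset.card_univ, smul_eq_mul] at h3
      have h5 : L1.card ≤ 4096 * Fintype.card V := by
        rw [mul_comm]; exact h2.trans h3
      exact_mod_cast h5
  refine ⟨L0 ∪ L1, ?_, ?_⟩
  · intro e he
    rw [Finset.mem_union, hL0, hL1, Finset.mem_filter, Finset.mem_filter]
    by_cases h : ∀ u ∈ e, 2 ^ 12 ≤ G.degree u
    · exact Or.inl ⟨Finset.mem_univ _, he, h⟩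
    · right
      push Not at h
      exact ⟨Finset.mem_univ _, he, h⟩
  · refine (hc0.union hc1).mono (Finset.Subset.refl _) (le_of_eq ?_)
    push_cast
    ring

/-- There is a constant c>0 such that for every n, every graph on n vertices with a proper edge-colouring has its edges covered by at most c·n paths, each using pairwise distinct colours. -/
theorem result :
    ∃ c : ℝ, 0 < c ∧
      ∀ n : ℕ, ∀ G : SimpleGraph (Fin n), ∀ col : Sym2 (Fin n) → ℕ,
        (∀ e ∈ G.edgeSet, ∀ f ∈ G.edgeSet, e ≠ f →
            (∃ v : Fin n, v ∈ e ∧ v ∈ f) → col e ≠ col f) →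
        ∃ k : ℕ, (k : ℝ) ≤ c * (n : ℝ) ∧
          ∃ u w : Fin k → Fin n, ∃ p : ∀ i : Fin k, G.Walk (u i) (w i),
            (∀ i : Fin k, (p i).IsPath ∧ ((p i).edges.map col).Nodup) ∧
            ∀ e ∈ G.edgeSet, ∃ i : Fin k, e ∈ (p i).edges := by
  refine ⟨1317388, by norm_num, ?_⟩
  intro n G col hcol
  classical
  have hprop : ∀ a b c, G.Adj a b → G.Adj a c → b ≠ c → col s(a, b) ≠ col s(a, c) := by
    intro a b c hab hac hbc
    refine hcol _ hab _ hac ?_ ⟨a, Sym2.mem_mk_left _ _, Sym2.mem_mk_left _ _⟩
    intro h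
    exact hbc (Sym2.congr_right.mp h)
  obtain ⟨X, hX, l, hl1, hl2, hl3⟩ := covAll G col hprop
  rw [Fintype.card_fin] at hl1
  have hwalk : ∀ i : Fin l.length, ∃ u w : Fin n, ∃ p : G.Walk u w,
      (p.IsPath ∧ (p.edges.map col).Nodup) ∧ p.edges.toFinset = l.get i := by
    intro i
    obtain ⟨v, vs, h⟩ := hl2 _ (List.get_mem l i)
    obtain ⟨u, p, h1, h2, _, h4⟩ := h.walk
    exact ⟨v, u, p, ⟨h1, h2⟩, h4⟩
  choose u w p hp1 hp2 using hwalk
  refine ⟨l.length, hl1, u, w, p, hp1, ?_⟩
  intro e he
  obtain ⟨P, hP, heP⟩ := hl3 e (hX e he)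
  obtain ⟨i, hi⟩ := List.get_of_mem hP
  refine ⟨i, ?_⟩
  rw [← List.mem_toFinset, hp2 i, hi]
  exact heP

end Pool.Agent.S05733
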