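import Pool.Statements.S05739
import Pool.Agent.Pyj.Main
-- import your own Pool.Agent.* helpers here

set_option autoImplicit false
open N29694b66
open Complex Set Pointwise
open Pool Pool.MP_5b7aa2_co

namespace Pool.Agent.S05739

/-- ∃ C:ℝ, ∃ ε₀>0, ∀ ε∈(0,ε₀], the least cardinality of a finite set of angles whose rotations of the ε-pyjama set {z : ∃k∈ℤ, ∣Re z − k∣ ≤ ε} cover ℂ is ≤ ε^(−C). -/
theorem result :
    ∃ C : ℝ, ∃ ε₀ > 0, ∀ ε ∈ Ioc 0 ε₀, (minCopies ε : ℝ) ≤ ε ^ (-C) := by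
  exact Pyj.main

end Pool.Agent.S05739
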