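import Pool.Statements.S05745
import Pool.Agent.Helper236.CE.Top

set_option autoImplicit false
open MvPolynomial
open Pool Pool.MP_5bb951_co

namespace Pool.Agent.S05745

/-- For every Eulerian graded poset with 0̂,1̂ of rank 2m+1 whose rank-sum forms are a regular sequence in its face ring over a char-2 field, multiplication by a generic linear form ω on k[P]/(θ) satisfies ker ω_i = im ω_{i−1} for all i<m. -/
theorem result :
  ∀ (m : ℕ) (P : Type) [PartialOrder P] [Fintype P] [BoundedOrder P] [GradeOrder ℕ P],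
    grade ℕ (⊥ : P) = 0 → grade ℕ (⊤ : P) = 2 * m + 1 →
    (∀ x y : P, x < y →
      Nat.card {z : P // x ≤ z ∧ z ≤ y ∧ Even (grade ℕ z)} =
        Nat.card {z : P // x ≤ z ∧ z ≤ y ∧ ¬ Even (grade ℕ z)}) →
    ∀ (k : Type) [Field k] [Algebra (ZMod 2) k],
    RingTheory.Sequence.IsWeaklyRegular
      (MvPolynomial P k ⧸ Ideal.span {f : MvPolynomial P k | ∃ x y : P, ¬ x ≤ y ∧ ¬ y ≤ x ∧ f = X x * X y})
      ((List.range (2 * m + 2)).map (fun i : ℕ =>
        Ideal.Quotient.mk (Ideal.span {f : MvPolynomial P k | ∃ x y : P, ¬ x ≤ y ∧ ¬ y ≤ x ∧ f = X x * X y})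
          (∑ x : P, if grade ℕ x = i then (X x : MvPolynomial P k) else 0))) →
    ∀ c : P → k, AlgebraicIndependent (ZMod 2) c →
    ∀ i : ℕ, i < m → ∀ p : MvPolynomial P k, p.IsHomogeneous i →
      Ideal.Quotient.mk
          (Ideal.span {f : MvPolynomial P k | ∃ x y : P, ¬ x ≤ y ∧ ¬ y ≤ x ∧ f = X x * X y} ⊔
            Ideal.span (Set.range (fun j : Fin (2 * m + 2) =>
              ∑ x : P, if grade ℕ x = (j : ℕ) then (X x : MvPolynomial P k) else 0)))
          ((∑ x : P, C (c x) * X x) * p) = 0 →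
      (i = 0 ∧
        Ideal.Quotient.mk
          (Ideal.span {f : MvPolynomial P k | ∃ x y : P, ¬ x ≤ y ∧ ¬ y ≤ x ∧ f = X x * X y} ⊔
            Ideal.span (Set.range (fun j : Fin (2 * m + 2) =>
              ∑ x : P, if grade ℕ x = (j : ℕ) then (X x : MvPolynomial P k) else 0))) p = 0) ∨
      (0 < i ∧ ∃ q : MvPolynomial P k, q.IsHomogeneous (i - 1) ∧
        Ideal.Quotient.mk
          (Ideal.span {f : MvPolynomial P k | ∃ x y : P, ¬ x ≤ y ∧ ¬ y ≤ x ∧ f = X x * X y} ⊔
            Ideal.span (Set.range (fun j : Fin (2 * m + 2) =>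
              ∑ x : P, if grade ℕ x = (j : ℕ) then (X x : MvPolynomial P k) else 0))) p =
        Ideal.Quotient.mk
          (Ideal.span {f : MvPolynomial P k | ∃ x y : P, ¬ x ≤ y ∧ ¬ y ≤ x ∧ f = X x * X y} ⊔
            Ideal.span (Set.range (fun j : Fin (2 * m + 2) =>
              ∑ x : P, if grade ℕ x = (j : ℕ) then (X x : MvPolynomial P k) else 0)))
          ((∑ x : P, C (c x) * X x) * q)) := by
  exact Pool.Agent.Helper236.CE.final_main

end Pool.Agent.S05745
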