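import Pool.Statements.S05760
import Pool.Agent.Helper549.Tri.Main19

set_option autoImplicit false
open Pool Pool.MP_5c43a3_co

namespace Pool.Agent.S05760

/-- The negation of the preceding statement: There is a nondegenerate plane triangle that is the union of 19 nondegenerate triangles, all congruent to each other (reflections allowed), whose interiors are pairwise disjoint. -/
theorem result :
    ¬ (∃ (A : Fin 3 → EuclideanSpace ℝ (Fin 2)) (P : Fin 19 → Fin 3 → EuclideanSpace ℝ (Fin 2)),
      AffineIndependent ℝ A ∧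
      (∀ i, AffineIndependent ℝ (P i)) ∧
      (∀ i, ∃ f : EuclideanSpace ℝ (Fin 2) ≃ᵢ EuclideanSpace ℝ (Fin 2),
        f '' convexHull ℝ (Set.range (P 0)) = convexHull ℝ (Set.range (P i))) ∧
      (⋃ i, convexHull ℝ (Set.range (P i))) = convexHull ℝ (Set.range A) ∧
      (∀ i j, i ≠ j →
        Disjoint (interior (convexHull ℝ (Set.range (P i))))
          (interior (convexHull ℝ (Set.range (P j)))))) := by
  rintro ⟨A, P, hA, hP, hf, hU, hD⟩
  have hdist : ∀ i, ∃ σ : Equiv.Perm (Fin 3), ∀ k l,
      dist (P i k) (P i l) = dist (P 0 (σ k)) (P 0 (σ l)) := by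
    intro i
    obtain ⟨f, hfi⟩ := hf i
    exact Pool.Agent.Helper549.Tri.Setup.cong_perm (P 0) (P i) (hP 0) (hP i) f hfi
  obtain ⟨T, t, τ, ℓ, θ, ρ, h, hlen, hang, _⟩ :=
    Pool.Agent.Helper549.Tri.Setup.setup A P hA hP hdist hU hD
  exact Pool.Agent.Helper549.Tri.no_dis19 h τ ℓ θ hlen hang

end Pool.Agent.S05760
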