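import Pool.Statements.S05804
import Mathlib

set_option autoImplicit false
open Pool Pool.MP_5f55dc_co

/-!
Counterexample.  The graph `GG` is a triangulation of the sphere on seven vertices with the
Hamiltonian cycle `0,1,...,6`.  The diagonals `16, 26, 25, 35` lie on one side of the cycle and
`02, 03, 36, 46` on the other.  The heptagon `TT` has the vertices
`(1,0), (3,1), (3,2), (2,3), (1,3), (0,2), (0,1)`.

Suppose a polytope with this graph projects onto the heptagon as required.  Every edge of the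
cycle projects into the boundary of the heptagon, so the labelling of the corners of the heptagon
by the vertices of the cycle is one of 14 dihedral labellings.  If two chords of the cycle cross in
the projection and one of them is an edge of the polytope, then the edge lies strictly above or
strictly below the other chord at the crossing, and the side is the same for all the chords which
cross a given edge.  This gives eleven linear inequalities, up to a common sign, for the seven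
heights, and for each of the 14 labellings a nonnegative combination of them vanishes.
-/

namespace Pool.Agent.S05804

section general
variable {F : Type*} [AddCommGroup F] [Module ℝ F]

lemma le_of_hull {S : Set F} (l : F →ₗ[ℝ] ℝ) (M : ℝ) (hM : ∀ y ∈ S, l y ≤ M) {x : F}
    (hx : x ∈ convexHull ℝ S) : l x ≤ M := by
  have h : convexHull ℝ S ⊆ {y | l y ≤ M} :=
    convexHull_min (fun y hy => hM y hy) (convex_halfSpace_le l.isLinear M)
  exact h hx

lemma lt_of_hull {S : Set F} (l : F →ₗ[ℝ] ℝ) (M : ℝ) (hM : ∀ y ∈ S, l y < M) {x : F}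
    (hx : x ∈ convexHull ℝ S) : l x < M := by
  have h : convexHull ℝ S ⊆ {y | l y < M} :=
    convexHull_min (fun y hy => hM y hy) (convex_halfSpace_lt l.isLinear M)
  exact h hx

/-- A point of a convex hull where a functional is maximal lies in the hull of the points where
the functional is maximal. -/
lemma mem_face {S : Set F} (l : F →ₗ[ℝ] ℝ) (M : ℝ) (hM : ∀ y ∈ S, l y ≤ M) {x : F}
    (hx : x ∈ convexHull ℝ S) (hl : l x = M) : x ∈ convexHull ℝ {y ∈ S | l y = M} := by
  set A := {y ∈ S | l y = M} with hA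
  set B := {y ∈ S | l y < M} with hB
  have hS : S = A ∪ B := by
    ext y
    simp only [hA, hB, Set.mem_union, Set.mem_ofPred_eq]
    constructor
    · intro hy
      rcases (hM y hy).eq_or_lt with h | h
      · exact Or.inl ⟨hy, h⟩
      · exact Or.inr ⟨hy, h⟩
    · rintro (h | h)
      · exact h.1
      · exact h.1
  rcases A.eq_empty_or_nonempty with hAe | hAn
  · exfalso
    rw [hS, hAe, Set.empty_union] at hx
    have := lt_of_hull l M (fun y hy => hy.2) hx
    linarith
  rcases B.eq_empty_or_nonempty with hBe | hBn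
  · rw [hBe, Set.union_empty] at hS
    rw [← hS]; exact hx
  rw [hS, convexHull_union hAn hBn, mem_convexJoin] at hx
  obtain ⟨a, ha, b, hb, hab⟩ := hx
  obtain ⟨s, t, hs, ht, hst, rfl⟩ := hab
  have hbl := lt_of_hull l M (fun y hy => hy.2) hb
  have hal := le_of_hull l M (fun y hy => hy.2.le) ha
  simp only [map_add, map_smul, smul_eq_mul] at hl
  have ht0 : t = 0 := by
    by_contra hne
    have htpos : 0 < t := lt_of_le_of_ne ht (Ne.symm hne)
    have q1 := mul_le_mul_of_nonneg_left hal hs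
    have q2 := mul_lt_mul_of_pos_left hbl htpos
    have q3 : s * M + t * M = M := by rw [← add_mul, hst, one_mul]
    linarith
  subst ht0
  have hs1 : s = 1 := by linarith
  subst hs1
  simpa using ha

lemma isExtreme_face {S : Set F} (l : F →ₗ[ℝ] ℝ) (M : ℝ) (hM : ∀ y ∈ S, l y ≤ M) :
    IsExtreme ℝ (convexHull ℝ S) (convexHull ℝ {y ∈ S | l y = M}) := by
  refine ⟨convexHull_mono (fun y hy => hy.1), ?_⟩
  intro x1 h1 x2 h2 x hx hseg
  have e1 := le_of_hull l M hM h1
  have e2 := le_of_hull l M hM h2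
  have e : l x = M := by
    apply le_antisymm
    · exact le_of_hull l M (fun y hy => hy.2.le) hx
    · have := le_of_hull (-l) (-M) (S := {y ∈ S | l y = M}) (fun y hy => by
        simp [hy.2]) hx
      simp at this; exact this
  apply mem_face l M hM h1
  obtain ⟨s, t, hs, ht, hst, rfl⟩ := hseg
  simp only [map_add, map_smul, smul_eq_mul] at e
  by_contra hne
  have hlt : l x1 < M := lt_of_le_of_ne e1 hne
  have q1 := mul_lt_mul_of_pos_left hlt hs
  have q2 := mul_le_mul_of_nonneg_left e2 ht.le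
  have q3 : s * M + t * M = M := by rw [← add_mul, hst, one_mul]
  linarith

/-- A segment on which a functional is maximal, and only there, is an extreme segment. -/
lemma isExtreme_segment {S : Set F} (l : F →ₗ[ℝ] ℝ) (M : ℝ) (u v : F) (hu : u ∈ S) (hv : v ∈ S)
    (hlu : l u = M) (hlv : l v = M) (hM : ∀ y ∈ S, y ≠ u → y ≠ v → l y < M) :
    IsExtreme ℝ (convexHull ℝ S) (segment ℝ u v) := by
  have h1 : ∀ y ∈ S, l y ≤ M := by
    intro y hy
    by_cases h : y = u
    · rw [h, hlu]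
    by_cases h' : y = v
    · rw [h', hlv]
    exact (hM y hy h h').le
  have h2 : {y ∈ S | l y = M} = {u, v} := by
    ext y
    simp only [Set.mem_ofPred_eq, Set.mem_insert_iff, Set.mem_singleton_iff]
    constructor
    · rintro ⟨hy, hly⟩
      by_contra hcon
      push Not at hcon
      exact absurd hly (hM y hy hcon.1 hcon.2).ne
    · rintro (rfl | rfl)
      · exact ⟨hu, hlu⟩
      · exact ⟨hv, hlv⟩
  have h3 := isExtreme_face l M h1
  rwa [h2, convexHull_pair] at h3

/-- A point where a functional is uniquely maximal is an extreme point. -/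
lemma mem_extremePoints_hull {S : Set F} (l : F →ₗ[ℝ] ℝ) (M : ℝ) (u : F) (hu : u ∈ S)
    (hlu : l u = M) (hM : ∀ y ∈ S, y ≠ u → l y < M) :
    u ∈ (convexHull ℝ S).extremePoints ℝ := by
  have := isExtreme_segment l M u u hu hu hlu hlu (fun y hy h _ => hM y hy h)
  rw [segment_same] at this
  exact isExtreme_singleton.mp this

end general

/-! ### Two families of integer points -/

/-- The point with given integer coordinates. -/
def toR {n : ℕ} (z : Fin n → ℤ) : Fin n → ℝ := fun k => (z k : ℝ)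

lemma toR_injective {n : ℕ} : Function.Injective (toR (n := n)) := by
  intro a b h
  funext k
  have := congrFun h k
  simpa [toR] using this

/-- The functional with given integer coefficients. -/
noncomputable def fn {n : ℕ} (g : Fin n → ℤ) : (Fin n → ℝ) →ₗ[ℝ] ℝ :=
  ∑ k, (g k : ℝ) • LinearMap.proj k

/-- Integer dot product. -/
def dot {n : ℕ} (g z : Fin n → ℤ) : ℤ := ∑ k, g k * z k

lemma fn_toR {n : ℕ} (g z : Fin n → ℤ) : fn g (toR z) = (dot g z : ℝ) := by
  simp [fn, dot, toR]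

/-- The edge list of the graph. -/
def elist : List (Fin 7 × Fin 7) :=
  [(0, 1), (1, 2), (2, 3), (3, 4), (4, 5), (5, 6), (6, 0), (1, 6), (2, 6), (2, 5), (3, 5), (0, 2),
   (0, 3), (3, 6), (4, 6)]

/-- Adjacency test. -/
def adjB (i j : Fin 7) : Bool := elist.contains (i, j) || elist.contains (j, i)

/-- The graph: a triangulation of the sphere on seven vertices. -/
def GG : SimpleGraph (Fin 7) where
  Adj i j := adjB i j = true
  symm := ⟨by decide⟩
  loopless := ⟨by decide⟩

/-- Integer realisation of the graph. -/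
def gZ : Fin 7 → Fin 3 → ℤ := ![![1, -1, -1], ![1, 0, 0], ![1, 1, -1], ![0, -1, -1], ![-1, 0, 0],
  ![-1, 1, 0], ![0, 0, 1]]

/-- The realisation. -/
def gp (i : Fin 7) : Fin 3 → ℝ := toR (gZ i)

/-- Supporting functionals of the edges. -/
def efun : List (Fin 3 → ℤ) := [![2, -1, 1], ![2, 1, 1], ![-2, 1, -5], ![-1, -1, 0], ![-1, 0, 0],
  ![0, 1, 1], ![1, -3, 2], ![1, 0, 1], ![2, 4, 3], ![0, 1, 0], ![-3, 1, -5], ![1, 0, -1],
  ![0, -1, 0], ![-1, -4, 2], ![-1, -1, 1]]

/-- Supporting functionals of the vertices. -/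
def vfun : Fin 7 → Fin 3 → ℤ := ![![1, -1, 0], ![2, 0, 1], ![0, 1, -1], ![-1, -2, 0], ![-2, -1, 0],
  ![-1, 1, 0], ![0, 0, 1]]

/-- Certificates for non-edges: weights at the two ends and at the other points. -/
def ncert : List ((Fin 7 → ℤ) × (Fin 7 → ℤ)) :=
  [(![2, 0, 0, 0, 1, 0, 0], ![0, 1, 0, 2, 0, 0, 0]),
   (![1, 0, 0, 0, 0, 2, 0], ![0, 0, 1, 0, 2, 0, 0]),
   (![0, 1, 0, 2, 0, 0, 0], ![2, 0, 0, 0, 1, 0, 0]),
   (![0, 1, 0, 0, 2, 0, 0], ![0, 0, 0, 1, 0, 1, 1]),
   (![0, 3, 0, 0, 0, 2, 0], ![0, 0, 2, 0, 1, 0, 2]),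
   (![0, 0, 1, 0, 2, 0, 0], ![1, 0, 0, 0, 0, 2, 0])]

lemma chk_edge : ∀ i j : Fin 7, adjB i j = true → ∃ t ∈ efun,
    dot t (gZ i) = dot t (gZ j) ∧ ∀ k, k ≠ i → k ≠ j → dot t (gZ k) < dot t (gZ i) := by
  decide +kernel

lemma chk_vert : ∀ i k : Fin 7, k ≠ i → dot (vfun i) (gZ k) < dot (vfun i) (gZ i) := by
  decide +kernel

lemma chk_non : ∀ i j : Fin 7, i ≠ j → adjB i j = false → ∃ t ∈ ncert,
    0 < t.1 i ∧ 0 < t.1 j ∧ (∀ k, k ≠ i → k ≠ j → t.1 k = 0) ∧ t.2 i = 0 ∧ t.2 j = 0 ∧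
    (∀ k, 0 ≤ t.2 k) ∧ (∑ k, t.2 k = t.1 i + t.1 j) ∧
    (∀ m, t.1 i * gZ i m + t.1 j * gZ j m = ∑ k, t.2 k * gZ k m) := by
  decide +kernel

lemma gZ_inj : Function.Injective gZ := by
  have : ∀ x y : Fin 7, (∀ k, gZ x k = gZ y k) → x = y := by decide +kernel
  intro x y h
  exact this x y (fun k => congrFun h k)

lemma gp_inj : Function.Injective gp := toR_injective.comp gZ_inj

lemma gp_vert (i : Fin 7) : gp i ∈ (convexHull ℝ (Set.range gp)).extremePoints ℝ := by
  apply mem_extremePoints_hull (fn (vfun i)) (dot (vfun i) (gZ i) : ℝ) (gp i)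
    (Set.mem_range_self i)
  · exact fn_toR _ _
  · rintro _ ⟨k, rfl⟩ hk
    have hki : k ≠ i := fun e => hk (by rw [e])
    have e : fn (vfun i) (gp k) = (dot (vfun i) (gZ k) : ℝ) := fn_toR _ _
    rw [e]
    exact_mod_cast chk_vert i k hki

lemma gp_edge (i j : Fin 7) (h : adjB i j = true) :
    IsExtreme ℝ (convexHull ℝ (Set.range gp)) (segment ℝ (gp i) (gp j)) := by
  obtain ⟨t, -, h1, h2⟩ := chk_edge i j h
  apply isExtreme_segment (fn t) (dot t (gZ i) : ℝ) (gp i) (gp j)
    (Set.mem_range_self i) (Set.mem_range_self j)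
  · exact fn_toR _ _
  · have e : fn t (gp j) = (dot t (gZ j) : ℝ) := fn_toR _ _
    rw [e, h1]
  · rintro _ ⟨k, rfl⟩ hk hk'
    have hki : k ≠ i := fun e => hk (by rw [e])
    have hkj : k ≠ j := fun e => hk' (by rw [e])
    have e : fn t (gp k) = (dot t (gZ k) : ℝ) := fn_toR _ _
    rw [e]
    exact_mod_cast h2 k hki hkj

lemma gp_nonedge (i j : Fin 7) (hij : i ≠ j) (h : adjB i j = false) :
    ¬ IsExtreme ℝ (convexHull ℝ (Set.range gp)) (segment ℝ (gp i) (gp j)) := by
  intro hext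
  obtain ⟨t, -, ha, hb, -, h0i, h0j, hnn, hsum, heq⟩ := chk_non i j hij h
  set a : ℝ := (t.1 i : ℝ) with haa
  set b : ℝ := (t.1 j : ℝ) with hbb
  have ha' : 0 < a := by rw [haa]; exact_mod_cast ha
  have hb' : 0 < b := by rw [hbb]; exact_mod_cast hb
  have hsum' : (∑ k, (t.2 k : ℝ)) = a + b := by
    rw [haa, hbb]; exact_mod_cast hsum
  have hconv := hext.convex_sdiff (convex_convexHull ℝ (Set.range gp))
  have hmem : ∀ k, gp k ∈ convexHull ℝ (Set.range gp) := fun k => subset_convexHull ℝ _ ⟨k, rfl⟩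
  set z : Fin 3 → ℝ := (a / (a + b)) • gp i + (b / (a + b)) • gp j with hz
  have hzseg : z ∈ segment ℝ (gp i) (gp j) :=
    ⟨a / (a + b), b / (a + b), by positivity, by positivity, by field_simp, rfl⟩
  have hzsum : z = ∑ k ∈ Finset.univ.filter (fun k => k ≠ i ∧ k ≠ j), ((t.2 k : ℝ) / (a + b)) • gp k := by
    have h1 : ∑ k ∈ Finset.univ.filter (fun k => k ≠ i ∧ k ≠ j), ((t.2 k : ℝ) / (a + b)) • gp k
        = ∑ k, ((t.2 k : ℝ) / (a + b)) • gp k := by
      apply Finset.sum_subset (Finset.filter_subset _ _)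
      intro k _ hk
      simp only [Finset.mem_filter, Finset.mem_univ, true_and, not_and_or, not_not] at hk
      rcases hk with rfl | rfl
      · simp [h0i]
      · simp [h0j]
    rw [h1]
    ext m
    have h2 := heq m
    have h3 : a * (gZ i m : ℝ) + b * (gZ j m : ℝ) = ∑ k, (t.2 k : ℝ) * (gZ k m : ℝ) := by
      rw [haa, hbb]; exact_mod_cast h2
    simp only [hz, gp, toR, Pi.add_apply, Pi.smul_apply, smul_eq_mul, Finset.sum_apply]
    have h4 : ∑ k, (t.2 k : ℝ) / (a + b) * (gZ k m : ℝ) =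
        (∑ k, (t.2 k : ℝ) * (gZ k m : ℝ)) / (a + b) := by
      rw [Finset.sum_div]
      apply Finset.sum_congr rfl
      intro k _; ring
    rw [h4, ← h3]; ring
  have hzd : z ∈ convexHull ℝ (Set.range gp) \ segment ℝ (gp i) (gp j) := by
    rw [hzsum]
    apply hconv.sum_mem
    · intro k _
      have := hnn k
      have h2 : (0 : ℝ) ≤ t.2 k := by exact_mod_cast this
      positivity
    · have h1 : ∑ k ∈ Finset.univ.filter (fun k => k ≠ i ∧ k ≠ j), (t.2 k : ℝ) / (a + b)
        = ∑ k, (t.2 k : ℝ) / (a + b) := by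
        apply Finset.sum_subset (Finset.filter_subset _ _)
        intro k _ hk
        simp only [Finset.mem_filter, Finset.mem_univ, true_and, not_and_or, not_not] at hk
        rcases hk with rfl | rfl
        · simp [h0i]
        · simp [h0j]
      rw [h1, ← Finset.sum_div, hsum']
      field_simp
    · intro k hk
      simp only [Finset.mem_filter, Finset.mem_univ, true_and] at hk
      refine ⟨hmem k, fun hseg => ?_⟩
      rcases (mem_extremePoints_iff_forall_segment.mp (gp_vert k)).2 _ (hmem i) _ (hmem j) hseg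
        with h1 | h1
      · exact hk.1 (gp_inj h1).symm
      · exact hk.2 (gp_inj h1).symm
  exact hzd.2 hzseg

lemma gp_interior : (interior (convexHull ℝ (Set.range gp))).Nonempty := by
  rw [interior_convexHull_nonempty_iff_affineSpan_eq_top,
    AffineSubspace.affineSpan_eq_top_iff_vectorSpan_eq_top_of_nonempty ℝ _ _ (Set.range_nonempty gp),
    eq_top_iff]
  intro x _
  have hm : ∀ i j : Fin 7, gp i -ᵥ gp j ∈ vectorSpan ℝ (Set.range gp) :=
    fun i j => vsub_mem_vectorSpan ℝ ⟨i, rfl⟩ ⟨j, rfl⟩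
  have hx : x = (x 0) • (gp 0 -ᵥ gp 3) + (x 1) • (gp 5 -ᵥ gp 4)
      + (x 2) • ((gp 1 -ᵥ gp 0) - (gp 5 -ᵥ gp 4)) := by
    ext m
    fin_cases m <;> simp [gp, toR, gZ]
  rw [hx]
  apply Submodule.add_mem
  · apply Submodule.add_mem
    · exact Submodule.smul_mem _ _ (hm 0 3)
    · exact Submodule.smul_mem _ _ (hm 5 4)
  · exact Submodule.smul_mem _ _ (Submodule.sub_mem _ (hm 1 0) (hm 5 4))


/-- The Hamiltonian cycle of the graph. -/
def cw : GG.Walk 0 0 :=
  .cons (show GG.Adj 0 1 from (by decide : adjB 0 1 = true))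
  (.cons (show GG.Adj 1 2 from (by decide : adjB 1 2 = true))
  (.cons (show GG.Adj 2 3 from (by decide : adjB 2 3 = true))
  (.cons (show GG.Adj 3 4 from (by decide : adjB 3 4 = true))
  (.cons (show GG.Adj 4 5 from (by decide : adjB 4 5 = true))
  (.cons (show GG.Adj 5 6 from (by decide : adjB 5 6 = true))
  (.cons (show GG.Adj 6 0 from (by decide : adjB 6 0 = true)) .nil))))))

lemma cw_length : cw.length = 7 := rfl

lemma cw_cycle : cw.IsCycle := by
  rw [SimpleGraph.Walk.isCycle_def]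
  refine ⟨?_, ?_, ?_⟩
  · rw [SimpleGraph.Walk.isTrail_def]
    show List.Nodup [s(0, 1), s(1, 2), s(2, 3), s(3, 4), s(4, 5), s(5, 6), s((6 : Fin 7), 0)]
    decide
  · intro h
    have := congrArg SimpleGraph.Walk.length h
    simp [cw] at this
  · show List.Nodup [(1 : Fin 7), 2, 3, 4, 5, 6, 0]
    decide

lemma cw_darts (i : Fin 7) : ∃ d ∈ cw.darts, d.fst = i ∧ d.snd = i + 1 := by
  fin_cases i <;> simp [cw]

/-- The heptagon. -/
def tZ : Fin 7 → Fin 2 → ℤ := ![![1, 0], ![3, 1], ![3, 2], ![2, 3], ![1, 3], ![0, 2], ![0, 1]]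

/-- The vertices of the heptagon. -/
def tp (i : Fin 7) : Fin 2 → ℝ := toR (tZ i)

/-- Supporting functionals at the vertices of the heptagon. -/
def tvf : Fin 7 → Fin 2 → ℤ := ![![0, -1], ![1, -1], ![2, 1], ![1, 2], ![-1, 2], ![-2, 1], ![-2, -1]]

lemma chk_t : ∀ i k : Fin 7, k ≠ i → dot (tvf i) (tZ k) < dot (tvf i) (tZ i) := by
  decide +kernel

lemma tZ_inj : Function.Injective tZ := by
  have : ∀ x y : Fin 7, (∀ k, tZ x k = tZ y k) → x = y := by decide +kernel
  intro x y h
  exact this x y (fun k => congrFun h k)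

lemma tp_inj : Function.Injective tp := toR_injective.comp tZ_inj

/-- The heptagon as a finite set. -/
noncomputable def TT : Finset (Fin 2 → ℝ) := Finset.univ.image tp

lemma TT_coe : (TT : Set (Fin 2 → ℝ)) = Set.range tp := by simp [TT]

lemma TT_card : TT.card = 7 := by
  rw [TT, Finset.card_image_of_injective _ tp_inj]; rfl

lemma TT_convex : ∀ t ∈ TT, t ∉ convexHull ℝ ((TT : Set (Fin 2 → ℝ)) \ {t}) := by
  intro t ht hcon
  have ht' : t ∈ (TT : Set (Fin 2 → ℝ)) := ht
  rw [TT_coe] at ht' hcon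
  obtain ⟨i, rfl⟩ := ht'
  have h1 := lt_of_hull (fn (tvf i)) (dot (tvf i) (tZ i) : ℝ) (S := Set.range tp \ {tp i}) (by
    rintro _ ⟨⟨k, rfl⟩, hk⟩
    have hki : k ≠ i := fun e => hk (by rw [e]; rfl)
    have e : fn (tvf i) (tp k) = (dot (tvf i) (tZ k) : ℝ) := fn_toR _ _
    rw [e]
    exact_mod_cast chk_t i k hki) hcon
  have e : fn (tvf i) (tp i) = (dot (tvf i) (tZ i) : ℝ) := fn_toR _ _
  rw [e] at h1
  exact lt_irrefl _ h1

lemma tp_vert (i : Fin 7) : tp i ∈ (convexHull ℝ (TT : Set (Fin 2 → ℝ))).extremePoints ℝ := by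
  rw [TT_coe]
  apply mem_extremePoints_hull (fn (tvf i)) (dot (tvf i) (tZ i) : ℝ) (tp i)
    (Set.mem_range_self i)
  · exact fn_toR _ _
  · rintro _ ⟨k, rfl⟩ hk
    have hki : k ≠ i := fun e => hk (by rw [e])
    have e : fn (tvf i) (tp k) = (dot (tvf i) (tZ k) : ℝ) := fn_toR _ _
    rw [e]
    exact_mod_cast chk_t i k hki

/-- Twice the signed area of a triangle. -/
def ar (a b c : Fin 2 → ℝ) : ℝ := (b 0 - a 0) * (c 1 - a 1) - (b 1 - a 1) * (c 0 - a 0)

/-- Twice the signed area of a triangle, for integer points. -/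
def arZ (a b c : Fin 2 → ℤ) : ℤ := (b 0 - a 0) * (c 1 - a 1) - (b 1 - a 1) * (c 0 - a 0)

lemma ar_toR (a b c : Fin 2 → ℤ) : ar (toR a) (toR b) (toR c) = (arZ a b c : ℝ) := by
  simp [ar, arZ, toR]

lemma tri_interior (A B C y : Fin 2 → ℝ) (h1 : 0 < ar y B C) (h2 : 0 < ar A y C)
    (h3 : 0 < ar A B y) : y ∈ interior (convexHull ℝ ({A, B, C} : Set (Fin 2 → ℝ))) := by
  have hopen : IsOpen {y : Fin 2 → ℝ | 0 < ar y B C ∧ 0 < ar A y C ∧ 0 < ar A B y} := by
    apply IsOpen.and
    · apply isOpen_lt continuous_const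
      unfold ar; fun_prop
    apply IsOpen.and
    · apply isOpen_lt continuous_const
      unfold ar; fun_prop
    · apply isOpen_lt continuous_const
      unfold ar; fun_prop
  rw [mem_interior]
  refine ⟨_, ?_, hopen, ⟨h1, h2, h3⟩⟩
  rintro w ⟨g1, g2, g3⟩
  have hsum : ar w B C + ar A w C + ar A B w = ar A B C := by unfold ar; ring
  have hD : 0 < ar A B C := by rw [← hsum]; positivity
  have hcv := convex_convexHull ℝ ({A, B, C} : Set (Fin 2 → ℝ))
  have m1 : A ∈ convexHull ℝ ({A, B, C} : Set (Fin 2 → ℝ)) := subset_convexHull ℝ _ (by simp)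
  have m2 : B ∈ convexHull ℝ ({A, B, C} : Set (Fin 2 → ℝ)) := subset_convexHull ℝ _ (by simp)
  have m3 : C ∈ convexHull ℝ ({A, B, C} : Set (Fin 2 → ℝ)) := subset_convexHull ℝ _ (by simp)
  have hw : w = (ar w B C / ar A B C) • A + (ar A w C / ar A B C) • B
      + (ar A B w / ar A B C) • C := by
    ext m
    simp only [Pi.add_apply, Pi.smul_apply, smul_eq_mul]
    have e1 : ar A B C * w m = ar w B C * A m + ar A w C * B m + ar A B w * C m := by
      unfold ar
      fin_cases m <;> simp <;> ring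
    field_simp
    linarith
  have := hcv.sum_mem (t := (Finset.univ : Finset (Fin 3)))
    (w := ![ar w B C / ar A B C, ar A w C / ar A B C, ar A B w / ar A B C]) (z := ![A, B, C]) (by
      intro i _
      fin_cases i
      · exact (div_pos g1 hD).le
      · exact (div_pos g2 hD).le
      · exact (div_pos g3 hD).le) (by
      simp only [Fin.sum_univ_three, Matrix.cons_val_zero, Matrix.cons_val_one,
        Matrix.cons_val]
      rw [← add_div, ← add_div, hsum]
      exact div_self hD.ne') (by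
      intro i _
      fin_cases i
      · exact m1
      · exact m2
      · exact m3)
  simp only [Fin.sum_univ_three, Matrix.cons_val_zero, Matrix.cons_val_one,
        Matrix.cons_val] at this
  rw [hw]; exact this

lemma chk_mid : ∀ j k : Fin 7, j ≠ k → k ≠ j + 1 → k ≠ j - 1 → ∃ a b c : Fin 7,
    0 < arZ (tZ j) (tZ b) (tZ c) + arZ (tZ k) (tZ b) (tZ c) ∧
    0 < arZ (tZ a) (tZ j) (tZ c) + arZ (tZ a) (tZ k) (tZ c) ∧
    0 < arZ (tZ a) (tZ b) (tZ j) + arZ (tZ a) (tZ b) (tZ k) := by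
  decide +kernel

lemma mid_interior (j k : Fin 7) (h1 : j ≠ k) (h2 : k ≠ j + 1) (h3 : k ≠ j - 1) :
    (1 / 2 : ℝ) • tp j + (1 / 2 : ℝ) • tp k ∈ interior (convexHull ℝ (TT : Set (Fin 2 → ℝ))) := by
  obtain ⟨a, b, c, q1, q2, q3⟩ := chk_mid j k h1 h2 h3
  have hsub : convexHull ℝ ({tp a, tp b, tp c} : Set (Fin 2 → ℝ)) ⊆
      convexHull ℝ (TT : Set (Fin 2 → ℝ)) := by
    apply convexHull_mono
    rw [TT_coe]
    rintro x (rfl | rfl | rfl)
    · exact ⟨a, rfl⟩
    · exact ⟨b, rfl⟩
    · exact ⟨c, rfl⟩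
  apply interior_mono hsub
  have e1 : ∀ B C : Fin 2 → ℝ, ar ((1 / 2 : ℝ) • tp j + (1 / 2 : ℝ) • tp k) B C =
      (ar (tp j) B C + ar (tp k) B C) / 2 := by
    intro B C; simp only [ar, Pi.add_apply, Pi.smul_apply, smul_eq_mul]; ring
  have e2 : ∀ A C : Fin 2 → ℝ, ar A ((1 / 2 : ℝ) • tp j + (1 / 2 : ℝ) • tp k) C =
      (ar A (tp j) C + ar A (tp k) C) / 2 := by
    intro B C; simp only [ar, Pi.add_apply, Pi.smul_apply, smul_eq_mul]; ring
  have e3 : ∀ A B : Fin 2 → ℝ, ar A B ((1 / 2 : ℝ) • tp j + (1 / 2 : ℝ) • tp k) =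
      (ar A B (tp j) + ar A B (tp k)) / 2 := by
    intro B C; simp only [ar, Pi.add_apply, Pi.smul_apply, smul_eq_mul]; ring
  apply tri_interior
  · rw [e1]
    simp only [tp, ar_toR]
    have : (0 : ℝ) < arZ (tZ j) (tZ b) (tZ c) + arZ (tZ k) (tZ b) (tZ c) := by exact_mod_cast q1
    linarith
  · rw [e2]
    simp only [tp, ar_toR]
    have : (0 : ℝ) < arZ (tZ a) (tZ j) (tZ c) + arZ (tZ a) (tZ k) (tZ c) := by exact_mod_cast q2
    linarith
  · rw [e3]
    simp only [tp, ar_toR]
    have : (0 : ℝ) < arZ (tZ a) (tZ b) (tZ j) + arZ (tZ a) (tZ b) (tZ k) := by exact_mod_cast q3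
    linarith


/-! ### The obstruction -/

/-- The vertical projection. -/
def prj : (Fin 3 → ℝ) →ₗ[ℝ] (Fin 2 → ℝ) where
  toFun p := ![p 0, p 1]
  map_add' x y := by ext m; fin_cases m <;> simp
  map_smul' c x := by ext m; fin_cases m <;> simp

/-- The chord `cd` crosses the chord `ab` in the projection, and `D` is a positive multiple of the
height of `cd` over `ab` at the crossing. -/
def Cross (f : Fin 7 → (Fin 3 → ℝ)) (a b c d : Fin 7) (D : ℝ) : Prop :=
  ∃ wa wb wc wd : ℝ, 0 < wa ∧ 0 < wb ∧ 0 < wc ∧ 0 < wd ∧ wa + wb = wc + wd ∧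
    wa * f a 0 + wb * f b 0 = wc * f c 0 + wd * f d 0 ∧
    wa * f a 1 + wb * f b 1 = wc * f c 1 + wd * f d 1 ∧
    D = wc * f c 2 + wd * f d 2 - wa * f a 2 - wb * f b 2

lemma balance (p q : ℝ) (h : p * q ≤ 0) :
    ∃ t t' : ℝ, 0 ≤ t ∧ 0 ≤ t' ∧ t + t' = 1 ∧ t * p + t' * q = 0 := by
  by_cases hpq : q - p = 0
  · have : q = p := by linarith
    subst this
    have h0 : q = 0 := by nlinarith [sq_nonneg q]
    exact ⟨1, 0, by norm_num, by norm_num, by norm_num, by rw [h0]; norm_num⟩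
  · rcases le_or_gt 0 q with hq | hq
    · rcases le_or_gt p 0 with hp | hp
      · have h1 : 0 < q - p := lt_of_le_of_ne (by linarith) (Ne.symm hpq)
        exact ⟨q / (q - p), -p / (q - p), by positivity, div_nonneg (by linarith) h1.le,
          by field_simp; ring, by field_simp; ring⟩
      · have hq0 : q = 0 := by nlinarith
        exact ⟨0, 1, by norm_num, by norm_num, by norm_num, by rw [hq0]; norm_num⟩
    · have hp : 0 ≤ p := by nlinarith
      have h1 : 0 < p - q := by linarith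
      exact ⟨-q / (p - q), p / (p - q), div_nonneg (by linarith) h1.le, by positivity,
          by field_simp; ring, by field_simp; ring⟩

lemma edge_sign (f : Fin 7 → (Fin 3 → ℝ)) (hinj : Function.Injective f)
    (hvert : ∀ w, f w ∈ Set.extremePoints ℝ (convexHull ℝ (Set.range f)))
    (a b c d c' d' : Fin 7) (D D' : ℝ)
    (hab : IsExtreme ℝ (convexHull ℝ (Set.range f)) (segment ℝ (f a) (f b)))
    (hca : c ≠ a) (hcb : c ≠ b) (hca' : c' ≠ a) (hcb' : c' ≠ b)
    (h : Cross f a b c d D) (h' : Cross f a b c' d' D') : 0 < D * D' := by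
  by_contra hcon
  push Not at hcon
  obtain ⟨wa, wb, wc, wd, pa, pb, pc, pd, hs, e0, e1, hD⟩ := h
  obtain ⟨va, vb, vc, vd, qa, qb, qc, qd, hs', e0', e1', hD'⟩ := h'
  have hmem : ∀ w, f w ∈ convexHull ℝ (Set.range f) := fun w => subset_convexHull ℝ _ ⟨w, rfl⟩
  have hconv := hab.convex_sdiff (convex_convexHull ℝ (Set.range f))
  have hnot : ∀ x, x ≠ a → x ≠ b → f x ∉ segment ℝ (f a) (f b) := by
    intro x hxa hxb hseg
    rcases (mem_extremePoints_iff_forall_segment.mp (hvert x)).2 _ (hmem a) _ (hmem b) hseg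
      with h1 | h1
    · exact hxa (hinj h1).symm
    · exact hxb (hinj h1).symm
  have key : ∀ (c d : Fin 7) (wc wd : ℝ), c ≠ a → c ≠ b → 0 < wc → 0 < wd →
      (wc / (wc + wd)) • f c + (wd / (wc + wd)) • f d ∈
        convexHull ℝ (Set.range f) \ segment ℝ (f a) (f b) := by
    intro c d wc wd hca hcb pc pd
    have hop : (wc / (wc + wd)) • f c + (wd / (wc + wd)) • f d ∈ openSegment ℝ (f c) (f d) :=
      ⟨_, _, by positivity, by positivity, by field_simp, rfl⟩
    refine ⟨(convex_convexHull ℝ (Set.range f)).openSegment_subset (hmem c) (hmem d) hop, ?_⟩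
    intro hS
    exact hnot c hca hcb (hab.left_mem_of_mem_openSegment (hmem c) (hmem d) hS hop)
  have hX := key c d wc wd hca hcb pc pd
  have hX' := key c' d' vc vd hca' hcb' qc qd
  have hA : (wa / (wa + wb)) • f a + (wb / (wa + wb)) • f b ∈ segment ℝ (f a) (f b) :=
    ⟨_, _, by positivity, by positivity, by field_simp, rfl⟩
  have hA' : (va / (va + vb)) • f a + (vb / (va + vb)) • f b ∈ segment ℝ (f a) (f b) :=
    ⟨_, _, by positivity, by positivity, by field_simp, rfl⟩
  obtain ⟨t, t', ht, ht', hsum, hz⟩ := balance (D / (wa + wb)) (D' / (va + vb)) (by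
    rw [div_mul_div_comm]
    exact div_nonpos_of_nonpos_of_nonneg hcon (by positivity))
  have hZ := hconv hX hX' ht ht' hsum
  have hZ' := (convex_segment (𝕜 := ℝ) (f a) (f b)) hA hA' ht ht' hsum
  apply hZ.2
  convert hZ' using 1
  have hw : wc + wd = wa + wb := hs.symm
  have hv : vc + vd = va + vb := hs'.symm
  rw [hw, hv]
  have hpw : (wa + wb) ≠ 0 := by positivity
  have hpv : (va + vb) ≠ 0 := by positivity
  ext m
  simp only [Pi.add_apply, Pi.smul_apply, smul_eq_mul]
  have hm : m = 0 ∨ m = 1 ∨ m = 2 := by fin_cases m <;> simp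
  rcases hm with rfl | rfl | rfl
  · have k1 : wc / (wa + wb) * f c 0 + wd / (wa + wb) * f d 0 =
        wa / (wa + wb) * f a 0 + wb / (wa + wb) * f b 0 := by
      field_simp; linarith
    have k2 : vc / (va + vb) * f c' 0 + vd / (va + vb) * f d' 0 =
        va / (va + vb) * f a 0 + vb / (va + vb) * f b 0 := by
      field_simp; linarith
    rw [k1, k2]
  · have k1 : wc / (wa + wb) * f c 1 + wd / (wa + wb) * f d 1 =
        wa / (wa + wb) * f a 1 + wb / (wa + wb) * f b 1 := by
      field_simp; linarith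
    have k2 : vc / (va + vb) * f c' 1 + vd / (va + vb) * f d' 1 =
        va / (va + vb) * f a 1 + vb / (va + vb) * f b 1 := by
      field_simp; linarith
    rw [k1, k2]
  · have k1 : wc / (wa + wb) * f c 2 + wd / (wa + wb) * f d 2 =
        wa / (wa + wb) * f a 2 + wb / (wa + wb) * f b 2 + D / (wa + wb) := by
      rw [hD]; field_simp; ring
    have k2 : vc / (va + vb) * f c' 2 + vd / (va + vb) * f d' 2 =
        va / (va + vb) * f a 2 + vb / (va + vb) * f b 2 + D' / (va + vb) := by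
      rw [hD']; field_simp; ring
    rw [k1, k2]
    linear_combination hz

/-- Signed area of the projected triangle, with orientation sign. -/
def AA (f : Fin 7 → (Fin 3 → ℝ)) (ε : ℝ) (i j k : Fin 7) : ℝ :=
  ε * ((f j 0 - f i 0) * (f k 1 - f i 1) - (f j 1 - f i 1) * (f k 0 - f i 0))

/-- Height difference of two crossing chords. -/
def ZZ (f : Fin 7 → (Fin 3 → ℝ)) (ε : ℝ) (i j k l : Fin 7) : ℝ :=
  AA f ε i k l * f j 2 + AA f ε i j k * f l 2 - AA f ε j k l * f i 2 - AA f ε i j l * f k 2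

lemma cross1 (f : Fin 7 → (Fin 3 → ℝ)) (ε : ℝ)
    (hA : ∀ i j k : Fin 7, i < j → j < k → 0 < AA f ε i j k) (i j k l : Fin 7)
    (hij : i < j) (hjk : j < k) (hkl : k < l) : Cross f i k j l (ZZ f ε i j k l) := by
  refine ⟨AA f ε j k l, AA f ε i j l, AA f ε i k l, AA f ε i j k, hA _ _ _ hjk hkl,
    hA _ _ _ hij (hjk.trans hkl), hA _ _ _ (hij.trans hjk) hkl, hA _ _ _ hij hjk, ?_, ?_, ?_, ?_⟩
  · unfold AA; ring
  · unfold AA; ring
  · unfold AA; ring
  · unfold ZZ; ring

lemma cross2 (f : Fin 7 → (Fin 3 → ℝ)) (ε : ℝ)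
    (hA : ∀ i j k : Fin 7, i < j → j < k → 0 < AA f ε i j k) (i j k l : Fin 7)
    (hij : i < j) (hjk : j < k) (hkl : k < l) : Cross f j l i k (-ZZ f ε i j k l) := by
  refine ⟨AA f ε i k l, AA f ε i j k, AA f ε j k l, AA f ε i j l, hA _ _ _ (hij.trans hjk) hkl,
    hA _ _ _ hij hjk, hA _ _ _ hjk hkl, hA _ _ _ hij (hjk.trans hkl), ?_, ?_, ?_, ?_⟩
  · unfold AA; ring
  · unfold AA; ring
  · unfold AA; ring
  · unfold ZZ; ring

/-- The eleven crossing quadruples used. -/
def qi : Fin 11 → Fin 7 := ![0, 0, 0, 0, 1, 2, 2, 0, 3, 2, 0]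
def qj : Fin 11 → Fin 7 := ![1, 1, 2, 2, 2, 3, 4, 3, 4, 3, 1]
def qk : Fin 11 → Fin 7 := ![2, 3, 3, 3, 5, 5, 5, 4, 5, 4, 2]
def ql : Fin 11 → Fin 7 := ![6, 6, 6, 5, 6, 6, 6, 6, 6, 5, 3]
def qs : Fin 11 → ℤ := ![1, 1, 1, 1, 1, -1, -1, -1, -1, 1, 1]

lemma signs (f : Fin 7 → (Fin 3 → ℝ)) (hinj : Function.Injective f)
    (hvert : ∀ w, f w ∈ Set.extremePoints ℝ (convexHull ℝ (Set.range f)))
    (hedge : ∀ i j : Fin 7, adjB i j = true →
      IsExtreme ℝ (convexHull ℝ (Set.range f)) (segment ℝ (f i) (f j)))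
    (ε : ℝ) (hA : ∀ i j k : Fin 7, i < j → j < k → 0 < AA f ε i j k) :
    ∃ s : ℝ, ∀ r : Fin 11, 0 < s * ((qs r : ℝ) * ZZ f ε (qi r) (qj r) (qk r) (ql r)) := by
  have c1 := fun i j k l h1 h2 h3 => cross1 f ε hA i j k l h1 h2 h3
  have c2 := fun i j k l h1 h2 h3 => cross2 f ε hA i j k l h1 h2 h3
  have es := fun a b c d c' d' D D' h1 h2 h3 h4 h5 h6 h7 =>
    edge_sign f hinj hvert a b c d c' d' D D' h1 h2 h3 h4 h5 h6 h7
  have r1 := es 1 6 0 2 0 3 _ _ (hedge 1 6 (by decide)) (by decide) (by decide) (by decide)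
    (by decide) (c2 0 1 2 6 (by decide) (by decide) (by decide))
    (c2 0 1 3 6 (by decide) (by decide) (by decide))
  have r2 := es 0 3 1 6 2 6 _ _ (hedge 0 3 (by decide)) (by decide) (by decide) (by decide)
    (by decide) (c1 0 1 3 6 (by decide) (by decide) (by decide))
    (c1 0 2 3 6 (by decide) (by decide) (by decide))
  have r3 := es 0 3 1 6 2 5 _ _ (hedge 0 3 (by decide)) (by decide) (by decide) (by decide)
    (by decide) (c1 0 1 3 6 (by decide) (by decide) (by decide))
    (c1 0 2 3 5 (by decide) (by decide) (by decide))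
  have r4 := es 2 6 0 3 1 5 _ _ (hedge 2 6 (by decide)) (by decide) (by decide) (by decide)
    (by decide) (c2 0 2 3 6 (by decide) (by decide) (by decide))
    (c2 1 2 5 6 (by decide) (by decide) (by decide))
  have r5 := es 2 5 0 3 3 6 _ _ (hedge 2 5 (by decide)) (by decide) (by decide) (by decide)
    (by decide) (c2 0 2 3 5 (by decide) (by decide) (by decide))
    (c1 2 3 5 6 (by decide) (by decide) (by decide))
  have r6 := es 2 5 0 3 4 6 _ _ (hedge 2 5 (by decide)) (by decide) (by decide) (by decide)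
    (by decide) (c2 0 2 3 5 (by decide) (by decide) (by decide))
    (c1 2 4 5 6 (by decide) (by decide) (by decide))
  have r7 := es 3 6 2 5 0 4 _ _ (hedge 3 6 (by decide)) (by decide) (by decide) (by decide)
    (by decide) (c2 2 3 5 6 (by decide) (by decide) (by decide))
    (c2 0 3 4 6 (by decide) (by decide) (by decide))
  have r8 := es 4 6 2 5 3 5 _ _ (hedge 4 6 (by decide)) (by decide) (by decide) (by decide)
    (by decide) (c2 2 4 5 6 (by decide) (by decide) (by decide))
    (c2 3 4 5 6 (by decide) (by decide) (by decide))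
  have r9 := es 3 5 4 6 2 4 _ _ (hedge 3 5 (by decide)) (by decide) (by decide) (by decide)
    (by decide) (c1 3 4 5 6 (by decide) (by decide) (by decide))
    (c2 2 3 4 5 (by decide) (by decide) (by decide))
  have r10 := es 0 2 1 6 1 3 _ _ (hedge 0 2 (by decide)) (by decide) (by decide) (by decide)
    (by decide) (c1 0 1 2 6 (by decide) (by decide) (by decide))
    (c1 0 1 2 3 (by decide) (by decide) (by decide))
  have sgn_pos : ∀ x y : ℝ, 0 < x * y → 0 < x → 0 < y := by
    intro x y h hx; exact (pos_iff_pos_of_mul_pos h).mp hx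
  have sgn_neg : ∀ x y : ℝ, 0 < x * y → x < 0 → y < 0 := by
    intro x y h hx; exact (neg_iff_neg_of_mul_pos h).mp hx
  have hne : ZZ f ε 0 1 2 6 ≠ 0 := by
    intro h0; rw [h0] at r1; simp at r1
  rcases lt_or_gt_of_ne hne with hneg | hpos
  · refine ⟨-1, ?_⟩
    have z1 := sgn_pos _ _ r1 (by linarith)
    have z2 := sgn_neg _ _ r2 (by linarith)
    have z3 := sgn_neg _ _ r3 (by linarith)
    have z4 := sgn_pos _ _ r4 (by linarith)
    have z5 := sgn_pos _ _ r5 (by linarith)
    have z6 := sgn_pos _ _ r6 (by linarith)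
    have z7 := sgn_neg _ _ r7 (by linarith)
    have z8 := sgn_neg _ _ r8 (by linarith)
    have z9 := sgn_pos _ _ r9 (by linarith)
    have z10 := sgn_neg _ _ r10 (by linarith)
    intro r
    fin_cases r <;> simp [qi, qj, qk, ql, qs] <;> linarith
  · refine ⟨1, ?_⟩
    have z1 := sgn_neg _ _ r1 (by linarith)
    have z2 := sgn_pos _ _ r2 (by linarith)
    have z3 := sgn_pos _ _ r3 (by linarith)
    have z4 := sgn_neg _ _ r4 (by linarith)
    have z5 := sgn_neg _ _ r5 (by linarith)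
    have z6 := sgn_neg _ _ r6 (by linarith)
    have z7 := sgn_pos _ _ r7 (by linarith)
    have z8 := sgn_pos _ _ r8 (by linarith)
    have z9 := sgn_neg _ _ r9 (by linarith)
    have z10 := sgn_pos _ _ r10 (by linarith)
    intro r
    fin_cases r <;> simp [qi, qj, qk, ql, qs] <;> linarith


/-- The labelling of the outline vertices. -/
def sig (a : Fin 7) (o : Bool) (w : Fin 7) : Fin 7 := if o then a + w else a - w

/-- The orientation sign of the labelling. -/
def eps (o : Bool) : ℤ := if o then 1 else -1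

/-- The coefficient of the height of `w` in the height difference of two crossing chords. -/
def coefZ (e : ℤ) (p : Fin 7 → Fin 7) (i j k l w : Fin 7) : ℤ :=
  (if w = j then e * arZ (tZ (p i)) (tZ (p k)) (tZ (p l)) else 0)
    + (if w = l then e * arZ (tZ (p i)) (tZ (p j)) (tZ (p k)) else 0)
    - (if w = i then e * arZ (tZ (p j)) (tZ (p k)) (tZ (p l)) else 0)
    - (if w = k then e * arZ (tZ (p i)) (tZ (p j)) (tZ (p l)) else 0)

/-- The dual certificates. -/
def certs : List (Fin 11 → ℤ) :=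
  [![0,3,0,0,4,0,0,9,0,12,0],![0,0,0,0,3,0,0,2,4,0,6],![3,0,0,0,1,0,0,2,0,2,0],
   ![0,0,0,0,8,0,4,3,0,0,12],![6,0,0,0,9,0,3,4,0,0,8],![2,0,0,0,2,0,0,3,1,2,0],
   ![0,1,0,0,3,0,3,4,0,0,3],![0,0,0,0,2,0,0,1,3,0,2],![0,4,0,0,3,0,0,8,0,12,0],
   ![0,3,0,0,4,0,0,9,6,8,0],![1,0,0,0,3,0,0,2,2,0,2],![0,3,0,0,4,0,1,3,0,3,0],
   ![0,0,0,0,9,0,3,4,0,0,12],![4,0,0,0,2,0,0,3,0,6,0]]

lemma chk_pos : ∀ (a : Fin 7) (o : Bool) (i j k : Fin 7), i < j → j < k →
    0 < eps o * arZ (tZ (sig a o i)) (tZ (sig a o j)) (tZ (sig a o k)) := by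
  decide +kernel

lemma chk_cert : ∀ (a : Fin 7) (o : Bool), ∃ lam ∈ certs, (∀ r, 0 ≤ lam r) ∧ (∃ r, 0 < lam r) ∧
    ∀ w, ∑ r, lam r * (qs r * coefZ (eps o) (sig a o) (qi r) (qj r) (qk r) (ql r) w) = 0 := by
  decide +kernel

lemma AA_eq (f : Fin 7 → (Fin 3 → ℝ)) (p : Fin 7 → Fin 7) (hp : ∀ w, prj (f w) = tp (p w))
    (e : ℤ) (i j k : Fin 7) :
    AA f (e : ℝ) i j k = ((e * arZ (tZ (p i)) (tZ (p j)) (tZ (p k)) : ℤ) : ℝ) := by
  have h0 : ∀ w, f w 0 = (tZ (p w) 0 : ℝ) := fun w => by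
    have := congrFun (hp w) 0
    simpa [prj, tp, toR] using this
  have h1 : ∀ w, f w 1 = (tZ (p w) 1 : ℝ) := fun w => by
    have := congrFun (hp w) 1
    simpa [prj, tp, toR] using this
  unfold AA
  rw [h0, h0, h0, h1, h1, h1]
  unfold arZ
  push_cast
  ring

lemma ZZ_eq (f : Fin 7 → (Fin 3 → ℝ)) (p : Fin 7 → Fin 7) (hp : ∀ w, prj (f w) = tp (p w))
    (e : ℤ) (i j k l : Fin 7) :
    ZZ f (e : ℝ) i j k l = ∑ w, (coefZ e p i j k l w : ℝ) * f w 2 := by
  unfold ZZ coefZ
  rw [AA_eq f p hp, AA_eq f p hp, AA_eq f p hp, AA_eq f p hp]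
  push_cast
  simp only [sub_mul, add_mul, Finset.sum_sub_distrib, Finset.sum_add_distrib, ite_mul, zero_mul,
    Finset.sum_ite_eq', Finset.mem_univ, if_true]

lemma obstruction (f : Fin 7 → (Fin 3 → ℝ)) (hinj : Function.Injective f)
    (hvert : ∀ w, f w ∈ Set.extremePoints ℝ (convexHull ℝ (Set.range f)))
    (hedge : ∀ i j : Fin 7, adjB i j = true →
      IsExtreme ℝ (convexHull ℝ (Set.range f)) (segment ℝ (f i) (f j)))
    (a : Fin 7) (o : Bool) (hp : ∀ w, prj (f w) = tp (sig a o w)) : False := by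
  obtain ⟨s, hs⟩ := signs f hinj hvert hedge ((eps o : ℤ) : ℝ) (by
    intro i j k hij hjk
    rw [AA_eq f (sig a o) hp]
    exact_mod_cast chk_pos a o i j k hij hjk)
  obtain ⟨lam, -, hnn, ⟨r0, hr0⟩, hz⟩ := chk_cert a o
  have h1 : 0 < ∑ r, (lam r : ℝ) *
      (s * ((qs r : ℝ) * ZZ f ((eps o : ℤ) : ℝ) (qi r) (qj r) (qk r) (ql r))) := by
    apply Finset.sum_pos'
    · intro r _
      have := hnn r
      have h2 : (0 : ℝ) ≤ lam r := by exact_mod_cast this
      exact mul_nonneg h2 (hs r).le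
    · refine ⟨r0, Finset.mem_univ _, ?_⟩
      have h2 : (0 : ℝ) < lam r0 := by exact_mod_cast hr0
      exact mul_pos h2 (hs r0)
  have h2 : ∑ r, (lam r : ℝ) *
      (s * ((qs r : ℝ) * ZZ f ((eps o : ℤ) : ℝ) (qi r) (qj r) (qk r) (ql r))) = 0 := by
    have e1 : ∀ r : Fin 11, (lam r : ℝ) *
      (s * ((qs r : ℝ) * ZZ f ((eps o : ℤ) : ℝ) (qi r) (qj r) (qk r) (ql r))) =
      ∑ w, s * ((lam r * (qs r * coefZ (eps o) (sig a o) (qi r) (qj r) (qk r) (ql r) w) : ℤ) : ℝ)
        * f w 2 := by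
      intro r
      rw [ZZ_eq f (sig a o) hp, Finset.mul_sum, Finset.mul_sum, Finset.mul_sum]
      apply Finset.sum_congr rfl
      intro w _
      push_cast
      ring
    rw [Finset.sum_congr rfl (fun r _ => e1 r), Finset.sum_comm]
    apply Finset.sum_eq_zero
    intro w _
    rw [← Finset.sum_mul, ← Finset.mul_sum]
    have e2 := hz w
    have e3 : ∑ r, ((lam r * (qs r * coefZ (eps o) (sig a o) (qi r) (qj r) (qk r) (ql r) w) : ℤ)
        : ℝ) = 0 := by
      exact_mod_cast e2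
    rw [e3]; ring
  linarith


lemma succ_eq (n : ℕ) (hn : n + 1 < 7) :
    (⟨n + 1, hn⟩ : Fin 7) = ⟨n, by omega⟩ + 1 := by
  apply Fin.ext
  simp only [Fin.val_add, Fin.val_one]
  rw [Nat.mod_eq_of_lt hn]

lemma sig_of_steps (p : Fin 7 → Fin 7) (hinj : Function.Injective p)
    (h : ∀ w, p (w + 1) = p w + 1 ∨ p (w + 1) = p w - 1) :
    ∃ (a : Fin 7) (o : Bool), ∀ w, p w = sig a o w := by
  have hne : ∀ w, p (w + 1 + 1) ≠ p w := by
    intro w hw
    have h1 := hinj hw
    have h2 : ∀ w : Fin 7, w + 1 + 1 ≠ w := by decide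
    exact h2 w h1
  have up : ∀ w, p (w + 1) = p w + 1 → p (w + 1 + 1) = p (w + 1) + 1 := by
    intro w hw
    rcases h (w + 1) with h1 | h1
    · exact h1
    · exfalso
      apply hne w
      rw [h1, hw]; abel
  have dn : ∀ w, p (w + 1) = p w - 1 → p (w + 1 + 1) = p (w + 1) - 1 := by
    intro w hw
    rcases h (w + 1) with h1 | h1
    · exfalso
      apply hne w
      rw [h1, hw]; abel
    · exact h1
  rcases h 0 with h0 | h0
  · refine ⟨p 0, true, ?_⟩
    have key : ∀ (n : ℕ) (hn : n < 7), p ⟨n, hn⟩ = p 0 + ⟨n, hn⟩ ∧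
        p (⟨n, hn⟩ + 1) = p ⟨n, hn⟩ + 1 := by
      intro n
      induction n with
      | zero => intro hn; exact ⟨by simp, h0⟩
      | succ n ih =>
        intro hn
        have i1 := ih (by omega)
        rw [succ_eq n hn]
        refine ⟨?_, up _ i1.2⟩
        rw [i1.2, i1.1]; abel
    intro w
    have := (key w.val w.isLt).1
    simpa [sig] using this
  · refine ⟨p 0, false, ?_⟩
    have key : ∀ (n : ℕ) (hn : n < 7), p ⟨n, hn⟩ = p 0 - ⟨n, hn⟩ ∧
        p (⟨n, hn⟩ + 1) = p ⟨n, hn⟩ - 1 := by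
      intro n
      induction n with
      | zero => intro hn; exact ⟨by simp, h0⟩
      | succ n ih =>
        intro hn
        have i1 := ih (by omega)
        rw [succ_eq n hn]
        refine ⟨?_, dn _ i1.2⟩
        rw [i1.2, i1.1]; abel
    intro w
    have := (key w.val w.isLt).1
    simpa [sig] using this

lemma labelling (f : Fin 7 → (Fin 3 → ℝ))
    (himg : (fun p : Fin 3 → ℝ => ![p 0, p 1]) '' convexHull ℝ (Set.range f)
      = convexHull ℝ (TT : Set (Fin 2 → ℝ)))
    (hfr : ((fun p : Fin 3 → ℝ => ![p 0, p 1]) ⁻¹' frontier (convexHull ℝ (TT : Set (Fin 2 → ℝ))))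
              ∩ convexHull ℝ (Set.range f)
            = ⋃ d ∈ cw.darts, segment ℝ (f d.fst) (f d.snd)) :
    ∃ (a : Fin 7) (o : Bool), ∀ w, prj (f w) = tp (sig a o w) := by
  have hprj : (fun p : Fin 3 → ℝ => ![p 0, p 1]) = (prj : (Fin 3 → ℝ) → (Fin 2 → ℝ)) := rfl
  rw [hprj] at himg hfr
  rw [LinearMap.image_convexHull] at himg
  have h1 : ∀ i, ∃ w, prj (f w) = tp i := by
    intro i
    have hi := tp_vert i
    rw [← himg] at hi
    obtain ⟨_, ⟨w, rfl⟩, hw⟩ := extremePoints_convexHull_subset hi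
    exact ⟨w, hw⟩
  choose e he using h1
  have einj : Function.Injective e := by
    intro i j hij
    apply tp_inj
    rw [← he, ← he, hij]
  have esurj : Function.Surjective e := Finite.injective_iff_surjective.mp einj
  choose p hp using esurj
  have hpf : ∀ w, prj (f w) = tp (p w) := by
    intro w
    rw [← he (p w), hp w]
  have pinj : Function.Injective p := by
    intro i j hij
    rw [← hp i, ← hp j, hij]
  have steps : ∀ w, p (w + 1) = p w + 1 ∨ p (w + 1) = p w - 1 := by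
    intro w
    by_contra hcon
    push Not at hcon
    have hne : p w ≠ p (w + 1) := by
      intro h
      have h1 := pinj h
      have h2 : ∀ w : Fin 7, w ≠ w + 1 := by decide
      exact h2 w h1
    have hint := mid_interior (p w) (p (w + 1)) hne hcon.1 hcon.2
    obtain ⟨d, hd, hd1, hd2⟩ := cw_darts w
    have hm : (1 / 2 : ℝ) • f w + (1 / 2 : ℝ) • f (w + 1) ∈
        ⋃ d ∈ cw.darts, segment ℝ (f d.fst) (f d.snd) := by
      simp only [Set.mem_iUnion]
      refine ⟨d, hd, ?_⟩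
      rw [hd1, hd2]
      exact ⟨1 / 2, 1 / 2, by norm_num, by norm_num, by norm_num, rfl⟩
    rw [← hfr] at hm
    have hm1 := hm.1
    rw [Set.mem_preimage, map_add, map_smul, map_smul, hpf, hpf] at hm1
    exact hm1.2 hint
  obtain ⟨a, o, hao⟩ := sig_of_steps p pinj steps
  exact ⟨a, o, fun w => by rw [hpf w, hao w]⟩


/-- The negation of the preceding statement: If G is the graph of a 3-polytope, C a cycle in G of length n, and F a convex n-gon in the plane, then some 3-polytope with graph G projects onto F, and the part lying over F's boundary is exactly the edges of C. -/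
theorem result :
    ¬ (∀ (V : Type) [Fintype V] [DecidableEq V] (G : SimpleGraph V),
      (∃ g : V → (Fin 3 → ℝ), Function.Injective g ∧
        (interior (convexHull ℝ (Set.range g))).Nonempty ∧
        (∀ v, g v ∈ Set.extremePoints ℝ (convexHull ℝ (Set.range g))) ∧
        (∀ u v, G.Adj u v ↔
          (u ≠ v ∧ IsExtreme ℝ (convexHull ℝ (Set.range g)) (segment ℝ (g u) (g v))))) →
      ∀ (v : V) (c : G.Walk v v), c.IsCycle →
      ∀ (T : Finset (Fin 2 → ℝ)), T.card = c.length →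
        (∀ t ∈ T, t ∉ convexHull ℝ ((T : Set (Fin 2 → ℝ)) \ {t})) →
        ∃ f : V → (Fin 3 → ℝ), Function.Injective f ∧
          (interior (convexHull ℝ (Set.range f))).Nonempty ∧
          (∀ w, f w ∈ Set.extremePoints ℝ (convexHull ℝ (Set.range f))) ∧
          (∀ u w, G.Adj u w ↔
            (u ≠ w ∧ IsExtreme ℝ (convexHull ℝ (Set.range f)) (segment ℝ (f u) (f w)))) ∧
          (fun p : Fin 3 → ℝ => ![p 0, p 1]) '' convexHull ℝ (Set.range f)
            = convexHull ℝ (T : Set (Fin 2 → ℝ)) ∧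
          ((fun p : Fin 3 → ℝ => ![p 0, p 1]) ⁻¹' frontier (convexHull ℝ (T : Set (Fin 2 → ℝ))))
              ∩ convexHull ℝ (Set.range f)
            = ⋃ d ∈ c.darts, segment ℝ (f d.fst) (f d.snd)) := by
  intro H
  obtain ⟨f, finj, -, fvert, fedge, fimg, ffr⟩ := H (Fin 7) GG
    ⟨gp, gp_inj, gp_interior, gp_vert, fun u v => ⟨fun h =>
      ⟨GG.ne_of_adj h, gp_edge u v h⟩, fun h => by
        by_contra hn
        have h1 : adjB u v = false := by
          have h2 : ¬ (adjB u v = true) := hn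
          simpa using h2
        exact gp_nonedge u v h.1 h1 h.2⟩⟩
    0 cw cw_cycle TT (by rw [TT_card, cw_length]) TT_convex
  obtain ⟨a, o, hao⟩ := labelling f fimg ffr
  exact obstruction f finj fvert (fun i j hij => ((fedge i j).mp hij).2) a o hao

end Pool.Agent.S05804
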