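import Pool.Statements.S05831

set_option autoImplicit false
open Pool Pool.MP_60c92b_co

namespace Pool.Agent.S05831

open Finset

/-- the quartic inequality behind the estimate -/
theorem quartic (c : ℝ) (h1 : |c| ≤ 1) :
    |c| ≤ 2 / 9 + 11 / 9 * c ^ 2 - 4 / 9 * c ^ 4 := by
  have h0 : 0 ≤ |c| := abs_nonneg c
  have h2 : c ^ 2 = |c| ^ 2 := (sq_abs c).symm
  have h4 : c ^ 4 = |c| ^ 4 := by
    calc c ^ 4 = (c ^ 2) ^ 2 := by ring
      _ = (|c| ^ 2) ^ 2 := by rw [h2]
      _ = |c| ^ 4 := by ring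
  rw [h2, h4]
  set s := |c|
  have h3 : 0 ≤ (1 - s) * (s + 2) * (2 * s - 1) ^ 2 := by
    have : 0 ≤ (1 - s) * (s + 2) := mul_nonneg (by linarith) (by linarith)
    exact mul_nonneg this (sq_nonneg _)
  nlinarith [h3]

/-- pointwise bound for the negative part of the cosine, in terms of unit vectors -/
theorem unit_bound (a b a' b' : ℝ) (h : a ^ 2 + b ^ 2 = 1) (h' : a' ^ 2 + b' ^ 2 = 1) :
    max (-(a * a' + b * b')) 0 ≤ 1 / 3
      + 7 / 36 * ((a ^ 2 - b ^ 2) * (a' ^ 2 - b' ^ 2) + (2 * a * b) * (2 * a' * b'))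
      - 1 / 2 * (a * a' + b * b')
      - 1 / 36 * (((a ^ 2 - b ^ 2) ^ 2 - (2 * a * b) ^ 2) * ((a' ^ 2 - b' ^ 2) ^ 2 - (2 * a' * b') ^ 2)
        + (2 * (a ^ 2 - b ^ 2) * (2 * a * b)) * (2 * (a' ^ 2 - b' ^ 2) * (2 * a' * b'))) := by
  set c := a * a' + b * b' with hc
  have hb : b ^ 2 = 1 - a ^ 2 := by linarith
  have hb' : b' ^ 2 = 1 - a' ^ 2 := by linarith
  have e2 : (a ^ 2 - b ^ 2) * (a' ^ 2 - b' ^ 2) + (2 * a * b) * (2 * a' * b') = 2 * c ^ 2 - 1 := by
    have : c ^ 2 = a ^ 2 * a' ^ 2 + 2 * (a * b) * (a' * b') + b ^ 2 * b' ^ 2 := by rw [hc]; ring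
    rw [this, hb, hb']; ring
  have e4 : ((a ^ 2 - b ^ 2) ^ 2 - (2 * a * b) ^ 2) * ((a' ^ 2 - b' ^ 2) ^ 2 - (2 * a' * b') ^ 2)
        + (2 * (a ^ 2 - b ^ 2) * (2 * a * b)) * (2 * (a' ^ 2 - b' ^ 2) * (2 * a' * b'))
        = 2 * (2 * c ^ 2 - 1) ^ 2 - 1 := by
    rw [← e2]
    have u1 : (a ^ 2 - b ^ 2) ^ 2 + (2 * a * b) ^ 2 = 1 := by
      calc (a ^ 2 - b ^ 2) ^ 2 + (2 * a * b) ^ 2 = (a ^ 2 + b ^ 2) ^ 2 := by ring
        _ = 1 := by rw [h]; norm_num
    have u2 : (a' ^ 2 - b' ^ 2) ^ 2 + (2 * a' * b') ^ 2 = 1 := by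
      calc (a' ^ 2 - b' ^ 2) ^ 2 + (2 * a' * b') ^ 2 = (a' ^ 2 + b' ^ 2) ^ 2 := by ring
        _ = 1 := by rw [h']; norm_num
    set C := a ^ 2 - b ^ 2
    set S := 2 * a * b
    set C' := a' ^ 2 - b' ^ 2
    set S' := 2 * a' * b'
    have hS : S ^ 2 = 1 - C ^ 2 := by linarith
    have hS' : S' ^ 2 = 1 - C' ^ 2 := by linarith
    have l1 : (C ^ 2 - S ^ 2) * (C' ^ 2 - S' ^ 2) + 2 * C * S * (2 * C' * S')
        = (2 * C ^ 2 - 1) * (2 * C' ^ 2 - 1) + 4 * (C * S * C' * S') := by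
      rw [hS, hS']; ring
    have l2 : 2 * (C * C' + S * S') ^ 2 - 1
        = 2 * (C ^ 2 * C' ^ 2 + S ^ 2 * S' ^ 2) + 4 * (C * S * C' * S') - 1 := by ring
    rw [l1, l2, hS, hS']; ring
  have hc1 : |c| ≤ 1 := by
    rw [abs_le]
    constructor <;> nlinarith [sq_nonneg (a + a'), sq_nonneg (b + b'), sq_nonneg (a - a'), sq_nonneg (b - b')]
  have hq := quartic c hc1
  rw [e2, e4]
  rcases le_total c 0 with h0 | h0
  · rw [abs_of_nonpos h0] at hq
    rw [max_eq_left (by linarith)]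
    nlinarith [hq]
  · rw [abs_of_nonneg h0] at hq
    rw [max_eq_right (by linarith)]
    nlinarith [hq]

variable {V : Type} [Fintype V]

/-- key estimate: two orthonormal vectors -/
theorem key (u v : V → ℝ) (hu : ∑ i, u i ^ 2 = 1) (hv : ∑ i, v i ^ 2 = 1)
    (huv : ∑ i, u i * v i = 0) :
    ∑ i, ∑ j, max (-(u i * u j + v i * v j)) 0 ≤ 2 / 3 * (Fintype.card V : ℝ) := by
  classical
  let r : V → ℝ := fun i => Real.sqrt (u i ^ 2 + v i ^ 2)
  let a : V → ℝ := fun i => u i / r i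
  let b : V → ℝ := fun i => v i / r i
  let C : V → ℝ := fun i => a i ^ 2 - b i ^ 2
  let S : V → ℝ := fun i => 2 * a i * b i
  let D : V → ℝ := fun i => C i ^ 2 - S i ^ 2
  let E : V → ℝ := fun i => 2 * C i * S i
  have hr0 : ∀ i, 0 ≤ r i := fun i => Real.sqrt_nonneg _
  have hr2 : ∀ i, r i ^ 2 = u i ^ 2 + v i ^ 2 := fun i => Real.sq_sqrt (by positivity)
  have hz : ∀ i, r i = 0 → u i = 0 ∧ v i = 0 := by
    intro i h
    have h2 := hr2 i
    rw [h] at h2
    constructor <;> nlinarith [sq_nonneg (u i), sq_nonneg (v i)]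
  have hra : ∀ i, r i * a i = u i := by
    intro i
    by_cases h : r i = 0
    · rw [h, (hz i h).1]; ring
    · simp only [a]; field_simp
  have hrb : ∀ i, r i * b i = v i := by
    intro i
    by_cases h : r i = 0
    · rw [h, (hz i h).2]; ring
    · simp only [b]; field_simp
  have hunit : ∀ i, r i ≠ 0 → a i ^ 2 + b i ^ 2 = 1 := by
    intro i h
    have h2 := hr2 i
    rw [← hra i, ← hrb i] at h2
    have h3 : r i ^ 2 * (a i ^ 2 + b i ^ 2) = r i ^ 2 * 1 := by linarith [h2, mul_pow (r i) (a i) 2, mul_pow (r i) (b i) 2, mul_add (r i ^ 2) (a i ^ 2) (b i ^ 2)]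
    exact mul_left_cancel₀ (pow_ne_zero 2 h) h3
  -- pointwise bound
  have hpt : ∀ i j, max (-(u i * u j + v i * v j)) 0 ≤ 1 / 3 * (r i * r j)
      + 7 / 36 * ((r i * C i) * (r j * C j) + (r i * S i) * (r j * S j))
      - 1 / 2 * (u i * u j + v i * v j)
      - 1 / 36 * ((r i * D i) * (r j * D j) + (r i * E i) * (r j * E j)) := by
    intro i j
    by_cases hi : r i = 0
    · have := hz i hi
      rw [hi, this.1, this.2]; simp
    by_cases hj : r j = 0
    · have := hz j hj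
      rw [hj, this.1, this.2]; simp
    have hb := unit_bound (a i) (b i) (a j) (b j) (hunit i hi) (hunit j hj)
    have hm := mul_le_mul_of_nonneg_left hb (mul_nonneg (hr0 i) (hr0 j))
    have e1 : u i * u j + v i * v j = r i * r j * (a i * a j + b i * b j) := by
      rw [← hra i, ← hra j, ← hrb i, ← hrb j]; ring
    have e2 : max (-(u i * u j + v i * v j)) 0 = r i * r j * max (-(a i * a j + b i * b j)) 0 := by
      rw [mul_max_of_nonneg _ _ (mul_nonneg (hr0 i) (hr0 j)), e1]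
      congr 1
      · ring
      · ring
    rw [e2, e1]
    refine hm.trans (le_of_eq ?_)
    simp only [C, S, D, E]
    ring
  -- sums
  have hs1 : ∑ i, r i ^ 2 = 2 := by
    simp only [hr2, Finset.sum_add_distrib, hu, hv]; norm_num
  have hs2 : ∑ i, r i ^ 2 * C i = 0 := by
    have : ∀ i, r i ^ 2 * C i = u i ^ 2 - v i ^ 2 := by
      intro i; simp only [C]; rw [← hra i, ← hrb i]; ring
    simp only [this, Finset.sum_sub_distrib, hu, hv]; norm_num
  have hs3 : ∑ i, r i ^ 2 * S i = 0 := by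
    have : ∀ i, r i ^ 2 * S i = 2 * (u i * v i) := by
      intro i; simp only [S]; rw [← hra i, ← hrb i]; ring
    simp only [this, ← Finset.mul_sum, huv]; norm_num
  set R : ℝ := ∑ i, r i with hR
  set n : ℝ := (Fintype.card V : ℝ) with hn
  let t : V → ℝ := fun i => 1 - R / 2 * r i
  have ht : ∑ i, t i ^ 2 = n - R ^ 2 / 2 := by
    have : ∀ i, t i ^ 2 = 1 - R * r i + R ^ 2 / 4 * r i ^ 2 := by
      intro i; simp only [t]; ring
    simp only [this, Finset.sum_add_distrib, Finset.sum_sub_distrib, ← Finset.mul_sum, hs1, ← hR]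
    simp only [Finset.sum_const, Finset.card_univ, nsmul_eq_mul, ← hn]
    ring
  have ht0 : 0 ≤ ∑ i, t i ^ 2 := Finset.sum_nonneg (fun i _ => sq_nonneg _)
  have hC : ∑ i, r i * C i = ∑ i, t i * (r i * C i) := by
    have : ∀ i, r i * C i = t i * (r i * C i) + R / 2 * (r i ^ 2 * C i) := by
      intro i; simp only [t]; ring
    calc ∑ i, r i * C i = ∑ i, (t i * (r i * C i) + R / 2 * (r i ^ 2 * C i)) :=
          Finset.sum_congr rfl (fun i _ => this i)
      _ = _ := by rw [Finset.sum_add_distrib, ← Finset.mul_sum, hs2]; ring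
  have hS : ∑ i, r i * S i = ∑ i, t i * (r i * S i) := by
    have : ∀ i, r i * S i = t i * (r i * S i) + R / 2 * (r i ^ 2 * S i) := by
      intro i; simp only [t]; ring
    calc ∑ i, r i * S i = ∑ i, (t i * (r i * S i) + R / 2 * (r i ^ 2 * S i)) :=
          Finset.sum_congr rfl (fun i _ => this i)
      _ = _ := by rw [Finset.sum_add_distrib, ← Finset.mul_sum, hs3]; ring
  have hCS : (∑ i, r i * C i) ^ 2 + (∑ i, r i * S i) ^ 2 ≤ 2 * ∑ i, t i ^ 2 := by
    rw [hC, hS]
    have c1 := Finset.sum_mul_sq_le_sq_mul_sq Finset.univ t (fun i => r i * C i)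
    have c2 := Finset.sum_mul_sq_le_sq_mul_sq Finset.univ t (fun i => r i * S i)
    have c3 : ∑ i, (r i * C i) ^ 2 + ∑ i, (r i * S i) ^ 2 ≤ 2 := by
      rw [← Finset.sum_add_distrib, ← hs1]
      apply Finset.sum_le_sum
      intro i _
      by_cases h : r i = 0
      · rw [h]; simp
      · have h1 := hunit i h
        have : (r i * C i) ^ 2 + (r i * S i) ^ 2 = r i ^ 2 * (a i ^ 2 + b i ^ 2) ^ 2 := by
          simp only [C, S]; ring
        rw [this, h1]; simp
    calc _ ≤ (∑ i, t i ^ 2) * ∑ i, (r i * C i) ^ 2 + (∑ i, t i ^ 2) * ∑ i, (r i * S i) ^ 2 :=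
          add_le_add c1 c2
      _ = (∑ i, t i ^ 2) * (∑ i, (r i * C i) ^ 2 + ∑ i, (r i * S i) ^ 2) := by ring
      _ ≤ (∑ i, t i ^ 2) * 2 := mul_le_mul_of_nonneg_left c3 ht0
      _ = _ := by ring
  -- double sums
  have dbl : ∀ f : V → ℝ, ∑ i, ∑ j, f i * f j = (∑ i, f i) ^ 2 := by
    intro f
    rw [sq, Finset.sum_mul_sum]
  calc ∑ i, ∑ j, max (-(u i * u j + v i * v j)) 0
      ≤ ∑ i, ∑ j, (1 / 3 * (r i * r j)
      + 7 / 36 * ((r i * C i) * (r j * C j) + (r i * S i) * (r j * S j))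
      - 1 / 2 * (u i * u j + v i * v j)
      - 1 / 36 * ((r i * D i) * (r j * D j) + (r i * E i) * (r j * E j))) :=
        Finset.sum_le_sum (fun i _ => Finset.sum_le_sum (fun j _ => hpt i j))
    _ = 1 / 3 * (∑ i, r i) ^ 2 + 7 / 36 * ((∑ i, r i * C i) ^ 2 + (∑ i, r i * S i) ^ 2)
        - 1 / 2 * ((∑ i, u i) ^ 2 + (∑ i, v i) ^ 2)
        - 1 / 36 * ((∑ i, r i * D i) ^ 2 + (∑ i, r i * E i) ^ 2) := by
        simp only [Finset.sum_add_distrib, Finset.sum_sub_distrib, ← Finset.mul_sum]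
        rw [← dbl r, ← dbl (fun i => r i * C i), ← dbl (fun i => r i * S i), ← dbl u, ← dbl v,
          ← dbl (fun i => r i * D i), ← dbl (fun i => r i * E i)]
        simp only [Finset.mul_sum]
    _ ≤ 1 / 3 * R ^ 2 + 7 / 36 * (2 * ∑ i, t i ^ 2) := by
        nlinarith [hCS, sq_nonneg (∑ i, u i), sq_nonneg (∑ i, v i), sq_nonneg (∑ i, r i * D i),
          sq_nonneg (∑ i, r i * E i)]
    _ ≤ 2 / 3 * n := by
        rw [ht] at ht0 ⊢
        linarith

/-- two orthonormal vectors in three-space orthogonal to a given vector -/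
theorem exists_two (s : Fin 3 → ℝ) : ∃ α β : Fin 3 → ℝ, ∑ k, α k ^ 2 = 1 ∧ ∑ k, β k ^ 2 = 1 ∧
    ∑ k, α k * β k = 0 ∧ ∑ k, α k * s k = 0 ∧ ∑ k, β k * s k = 0 := by
  by_cases h : s 0 ^ 2 + s 1 ^ 2 = 0
  · have h0 : s 0 = 0 := by nlinarith [sq_nonneg (s 0), sq_nonneg (s 1)]
    have h1 : s 1 = 0 := by nlinarith [sq_nonneg (s 0), sq_nonneg (s 1)]
    refine ⟨![1, 0, 0], ![0, 1, 0], ?_, ?_, ?_, ?_, ?_⟩ <;>
      simp [Fin.sum_univ_three, h0, h1]
  · have hp : 0 < s 0 ^ 2 + s 1 ^ 2 :=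
      lt_of_le_of_ne (by positivity) (Ne.symm h)
    have hN : 0 < s 0 ^ 2 + s 1 ^ 2 + s 2 ^ 2 := by positivity
    obtain ⟨p, hp0, hp2⟩ : ∃ p : ℝ, 0 < p ∧ p ^ 2 = s 0 ^ 2 + s 1 ^ 2 :=
      ⟨Real.sqrt (s 0 ^ 2 + s 1 ^ 2), Real.sqrt_pos.mpr hp, Real.sq_sqrt hp.le⟩
    obtain ⟨N, hN0, hN2⟩ : ∃ N : ℝ, 0 < N ∧ N ^ 2 = s 0 ^ 2 + s 1 ^ 2 + s 2 ^ 2 :=
      ⟨Real.sqrt (s 0 ^ 2 + s 1 ^ 2 + s 2 ^ 2), Real.sqrt_pos.mpr hN, Real.sq_sqrt hN.le⟩
    have hpne : p ≠ 0 := hp0.ne'
    have hNne : N ≠ 0 := hN0.ne'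
    refine ⟨![s 1 / p, - s 0 / p, 0], ![s 0 * s 2 / (p * N), s 1 * s 2 / (p * N), - p / N],
      ?_, ?_, ?_, ?_, ?_⟩
    · simp only [Fin.sum_univ_three, Matrix.cons_val_zero, Matrix.cons_val_one, Matrix.cons_val]
      field_simp
      linarith
    · simp only [Fin.sum_univ_three, Matrix.cons_val_zero, Matrix.cons_val_one, Matrix.cons_val]
      have : (s 0 * s 2 / (p * N)) ^ 2 + (s 1 * s 2 / (p * N)) ^ 2 + (-p / N) ^ 2
          = ((s 0 ^ 2 + s 1 ^ 2) * s 2 ^ 2 + p ^ 2 * p ^ 2) / (p ^ 2 * N ^ 2) := by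
        field_simp
      rw [this, hN2, ← hp2]
      field_simp
      ring
    · simp only [Fin.sum_univ_three, Matrix.cons_val_zero, Matrix.cons_val_one, Matrix.cons_val]
      field_simp
      ring
    · simp only [Fin.sum_univ_three, Matrix.cons_val_zero, Matrix.cons_val_one, Matrix.cons_val]
      field_simp
      ring
    · simp only [Fin.sum_univ_three, Matrix.cons_val_zero, Matrix.cons_val_one, Matrix.cons_val]
      have : s 0 * s 2 / (p * N) * s 0 + s 1 * s 2 / (p * N) * s 1 + -p / N * s 2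
          = ((s 0 ^ 2 + s 1 ^ 2) * s 2 - p ^ 2 * s 2) / (p * N) := by
        field_simp
        ring
      rw [this, ← hp2]
      simp

/-- For every finite simple graph on n vertices, at most two adjacency eigenvalues (with multiplicity) exceed floor(n/3); equivalently the third largest adjacency eigenvalue is at most floor(n/3). -/
theorem result :
    ∀ (V : Type) [Fintype V] [DecidableEq V] (G : SimpleGraph V) [DecidableRel G.Adj],
      (Multiset.filter (fun x : ℝ => ((Fintype.card V / 3 : ℕ) : ℝ) < x)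
        (G.adjMatrix ℝ).charpoly.roots).card ≤ 2 := by
  intro V _ _ G _
  set A := G.adjMatrix ℝ with hAdef
  have hA : A.IsHermitian := by
    rw [Matrix.IsHermitian, Matrix.conjTranspose_eq_transpose_of_trivial]
    exact G.transpose_adjMatrix
  set q : ℝ := ((Fintype.card V / 3 : ℕ) : ℝ) with hq
  by_contra hcon
  push Not at hcon
  rw [hA.roots_charpoly_eq_eigenvalues, Multiset.filter_map, Multiset.card_map] at hcon
  have hcard : 2 < (Finset.univ.filter (fun i => q < hA.eigenvalues i)).card := by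
    refine lt_of_lt_of_eq hcon ?_
    rw [Finset.card_def]
    congr 1
  obtain ⟨i0, h0, i1, h1, i2, h2, h01, h02, h12⟩ := Finset.two_lt_card.mp hcard
  simp only [Finset.mem_filter, Finset.mem_univ, true_and] at h0 h1 h2
  let idx : Fin 3 → V := ![i0, i1, i2]
  have hinj : ∀ k l, idx k = idx l → k = l := by
    intro k l
    fin_cases k <;> fin_cases l <;> simp [idx, h01, h02, h12, Ne.symm h01, Ne.symm h02, Ne.symm h12]
  have hlam : ∀ k, q < hA.eigenvalues (idx k) := by
    intro k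
    fin_cases k <;> simp [idx, h0, h1, h2]
  let e : Fin 3 → V → ℝ := fun k x => (hA.eigenvectorBasis (idx k)).ofLp x
  let lam : Fin 3 → ℝ := fun k => hA.eigenvalues (idx k)
  have horth : ∀ k l, ∑ x, e k x * e l x = if k = l then 1 else 0 := by
    intro k l
    have h := orthonormal_iff_ite.mp hA.eigenvectorBasis.orthonormal (idx k) (idx l)
    have hi : inner ℝ (hA.eigenvectorBasis (idx k)) (hA.eigenvectorBasis (idx l))
        = ∑ x, e k x * e l x := by
      rw [PiLp.inner_apply]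
      apply Finset.sum_congr rfl
      intro x _
      simp [e, mul_comm]
    rw [← hi, h]
    by_cases hkl : k = l
    · simp [hkl]
    · have : idx k ≠ idx l := fun h => hkl (hinj k l h)
      simp [hkl, this]
  have heig : ∀ k x, ∑ y, A x y * e k y = lam k * e k x := by
    intro k x
    have h := congrFun (hA.mulVec_eigenvectorBasis (idx k)) x
    simpa [Matrix.mulVec, dotProduct, e, lam] using h
  -- combination of the three eigenvectors
  let w : (Fin 3 → ℝ) → V → ℝ := fun α x => ∑ k, α k * e k x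
  have hw2 : ∀ α β : Fin 3 → ℝ, ∑ x, w α x * w β x = ∑ k, α k * β k := by
    intro α β
    have : ∀ x, w α x * w β x = ∑ k, ∑ l, α k * β l * (e k x * e l x) := by
      intro x
      simp only [w]
      rw [Finset.sum_mul_sum]
      apply Finset.sum_congr rfl; intro k _
      apply Finset.sum_congr rfl; intro l _
      ring
    simp only [this]
    rw [Finset.sum_comm]
    apply Finset.sum_congr rfl; intro k _
    rw [Finset.sum_comm]
    simp only [← Finset.mul_sum, horth]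
    simp
  have hwA : ∀ α : Fin 3 → ℝ, ∑ x, ∑ y, A x y * (w α x * w α y) = ∑ k, α k ^ 2 * lam k := by
    intro α
    have h1 : ∀ x, ∑ y, A x y * (w α x * w α y) = w α x * w (fun k => α k * lam k) x := by
      intro x
      have : ∑ y, A x y * (w α x * w α y) = w α x * ∑ y, A x y * w α y := by
        rw [Finset.mul_sum]
        apply Finset.sum_congr rfl; intro y _; ring
      rw [this]
      congr 1
      simp only [w, Finset.mul_sum]
      rw [Finset.sum_comm]
      apply Finset.sum_congr rfl; intro k _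
      have : ∑ y, A x y * (α k * e k y) = α k * ∑ y, A x y * e k y := by
        rw [Finset.mul_sum]
        apply Finset.sum_congr rfl; intro y _; ring
      rw [this, heig]; ring
    simp only [h1, hw2]
    apply Finset.sum_congr rfl; intro k _; ring
  have hws : ∀ α : Fin 3 → ℝ, ∑ x, w α x = ∑ k, α k * ∑ x, e k x := by
    intro α
    simp only [w]
    rw [Finset.sum_comm]
    apply Finset.sum_congr rfl; intro k _
    rw [Finset.mul_sum]
  obtain ⟨α, β, hα, hβ, hαβ, hαs, hβs⟩ := exists_two (fun k => ∑ x, e k x)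
  set u := w α with hu
  set v := w β with hv
  have hu2 : ∑ x, u x ^ 2 = 1 := by
    simp only [sq]; rw [hw2]; simp only [← sq]; exact hα
  have hv2 : ∑ x, v x ^ 2 = 1 := by
    simp only [sq]; rw [hw2]; simp only [← sq]; exact hβ
  have huv : ∑ x, u x * v x = 0 := by rw [hw2]; exact hαβ
  have hus : ∑ x, u x = 0 := by rw [hws]; exact hαs
  have hvs : ∑ x, v x = 0 := by rw [hws]; exact hβs
  have hge : ∀ γ : Fin 3 → ℝ, ∑ k, γ k ^ 2 = 1 → q ≤ ∑ k, γ k ^ 2 * lam k := by
    intro γ hγ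
    calc q = ∑ k, γ k ^ 2 * q := by rw [← Finset.sum_mul, hγ, one_mul]
      _ ≤ ∑ k, γ k ^ 2 * lam k :=
        Finset.sum_le_sum (fun k _ => mul_le_mul_of_nonneg_left (hlam k).le (sq_nonneg _))
  have hQu : q ≤ ∑ x, ∑ y, A x y * (u x * u y) := by rw [hwA]; exact hge α hα
  have hQv : q ≤ ∑ x, ∑ y, A x y * (v x * v y) := by rw [hwA]; exact hge β hβ
  have hkey := key u v hu2 hv2 huv
  -- lower bound of the complement form
  have hlow : ∀ x y, -(max (-(u x * u y + v x * v y)) 0) ≤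
      (1 - (if x = y then 1 else 0) - A x y) * (u x * u y + v x * v y) := by
    intro x y
    have hA01 : A x y = if G.Adj x y then 1 else 0 := by
      rw [hAdef, SimpleGraph.adjMatrix_apply]
    have hm1 := le_max_left (-(u x * u y + v x * v y)) 0
    have hm2 := le_max_right (-(u x * u y + v x * v y)) 0
    rw [hA01]
    by_cases hxy : x = y
    · subst hxy
      simp
    · by_cases hadj : G.Adj x y
      · simp [hxy, hadj]
      · simp only [hxy, hadj, if_false, sub_zero, one_mul]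
        linarith
  have hsum : ∑ x, ∑ y, (1 - (if x = y then (1 : ℝ) else 0) - A x y) * (u x * u y + v x * v y)
      = (∑ x, u x) ^ 2 + (∑ x, v x) ^ 2 - (∑ x, u x ^ 2) - (∑ x, v x ^ 2)
        - (∑ x, ∑ y, A x y * (u x * u y)) - ∑ x, ∑ y, A x y * (v x * v y) := by
    have hexp : ∀ x y, (1 - (if x = y then (1 : ℝ) else 0) - A x y) * (u x * u y + v x * v y)
        = u x * u y + v x * v y - (if x = y then (u x * u y) else 0)
          - (if x = y then (v x * v y) else 0)
          - A x y * (u x * u y) - A x y * (v x * v y) := by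
      intro x y
      by_cases hxy : x = y
      · simp [hxy]; ring
      · simp [hxy]; ring
    simp only [hexp, Finset.sum_add_distrib, Finset.sum_sub_distrib]
    simp only [Finset.sum_ite_eq, Finset.mem_univ, if_true]
    rw [sq (∑ x, u x), sq (∑ x, v x), Finset.sum_mul_sum, Finset.sum_mul_sum]
    simp only [sq]
  have hfin : -(2 / 3 * (Fintype.card V : ℝ)) ≤ -2 - 2 * q := by
    calc -(2 / 3 * (Fintype.card V : ℝ)) ≤ -(∑ x, ∑ y, max (-(u x * u y + v x * v y)) 0) := by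
          linarith
      _ = ∑ x, ∑ y, -(max (-(u x * u y + v x * v y)) 0) := by
          simp only [Finset.sum_neg_distrib]
      _ ≤ _ := Finset.sum_le_sum (fun x _ => Finset.sum_le_sum (fun y _ => hlow x y))
      _ = _ := hsum
      _ ≤ _ := by
          rw [hus, hvs, hu2, hv2]
          linarith
  have hfloor : (Fintype.card V : ℝ) ≤ 3 * q + 2 := by
    have : Fintype.card V ≤ 3 * (Fintype.card V / 3) + 2 := by omega
    rw [hq]
    exact_mod_cast this
  linarith

end Pool.Agent.S05831
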