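import Pool.Statements.S05882
import Pool.Agent.Helper620.ABZ

set_option autoImplicit false
open Pool Pool.MP_633b85_co

namespace Pool.Agent.S05882

/-- The negation of the preceding statement: For a matroid on S×{1,2} where no circuit contains both copies of an element, with f(X)=rank(X×{1,2}) and matchings meaning f(X)=2∣X∣, S can be covered by at most (fractional matching cover number)+1 matchings. -/
theorem result :
    ¬ (∀ (S : Type) [Fintype S] [DecidableEq S] (M : Matroid (S × Fin 2)),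
    M.E = Set.univ →
    (∀ C : Set (S × Fin 2), M.IsCircuit C → ∀ e : S, ¬ ((e, 0) ∈ C ∧ (e, 1) ∈ C)) →
    ∀ w : Finset S → ℝ,
      (∀ X, 0 ≤ w X) →
      (∀ X, w X ≠ 0 →
        M.eRk ((↑X : Set S) ×ˢ (Set.univ : Set (Fin 2))) = ((2 * X.card : ℕ) : ℕ∞)) →
      (∀ e : S, 1 ≤ ∑ X ∈ Finset.univ.filter (fun X : Finset S => e ∈ X), w X) →
      ∃ (k : ℕ) (c : Fin k → Finset S),
        (∀ i, M.eRk ((↑(c i) : Set S) ×ˢ (Set.univ : Set (Fin 2)))
              = ((2 * (c i).card : ℕ) : ℕ∞)) ∧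
        (∀ e : S, ∃ i, e ∈ c i) ∧
        (k : ℝ) ≤ (∑ X, w X) + 1) := by
  intro H
  -- the fractional cover: weight 1/7 on each of the thirteen bases `A i`
  let wt : Finset (Fin 13) → ℝ := fun X =>
    ∑ i : Fin 13, if Helper620.ABZ.A i = X then (1 / 7 : ℝ) else 0
  have hw0 : ∀ X, 0 ≤ wt X := by
    intro X
    refine Finset.sum_nonneg fun i _ => ?_
    split_ifs <;> norm_num
  have hw1 : ∀ X, wt X ≠ 0 →
      Helper620.ABZ.M.eRk ((↑X : Set (Fin 13)) ×ˢ (Set.univ : Set (Fin 2)))
        = ((2 * X.card : ℕ) : ℕ∞) := by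
    intro X hX
    have : ∃ i, Helper620.ABZ.A i = X := by
      by_contra hcon
      push Not at hcon
      apply hX
      refine Finset.sum_eq_zero fun i _ => ?_
      rw [if_neg (hcon i)]
    obtain ⟨i, rfl⟩ := this
    exact (Helper620.ABZ.match_iff _).2 (Helper620.ABZ.matching_A i)
  have hw2 : ∀ e : Fin 13, 1 ≤ ∑ X ∈ Finset.univ.filter (fun X : Finset (Fin 13) => e ∈ X), wt X := by
    intro e
    have h1 : ∑ X ∈ Finset.univ.filter (fun X : Finset (Fin 13) => e ∈ X), wt X
        = ∑ i : Fin 13, if e ∈ Helper620.ABZ.A i then (1 / 7 : ℝ) else 0 := by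
      rw [Finset.sum_comm]
      refine Finset.sum_congr rfl fun i _ => ?_
      rw [Finset.sum_ite_eq]
      simp
    rw [h1, ← Finset.sum_filter, Finset.sum_const, Helper620.ABZ.count7 e]
    norm_num
  have hw3 : ∑ X, wt X = 13 / 7 := by
    have : ∑ X, wt X = ∑ i : Fin 13, (1 / 7 : ℝ) := by
      rw [Finset.sum_comm]
      refine Finset.sum_congr rfl fun i _ => ?_
      simp
    rw [this]
    norm_num
  obtain ⟨k, c, hc, hcov, hk⟩ := H (Fin 13) Helper620.ABZ.M rfl Helper620.ABZ.circuit_cond wt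
    hw0 hw1 hw2
  rw [hw3] at hk
  have hk2 : k ≤ 2 := by
    by_contra hcon
    have : (3 : ℝ) ≤ k := by exact_mod_cast (by omega : 3 ≤ k)
    linarith
  have hc' : ∀ i, Helper620.ABZ.M.Indep ((↑(c i) : Set (Fin 13)) ×ˢ (Set.univ : Set (Fin 2))) :=
    fun i => (Helper620.ABZ.match_iff _).1 (hc i)
  obtain ⟨i0, hi0⟩ := hcov 0
  -- the other colour class
  by_cases hother : ∃ j, j ≠ i0
  · obtain ⟨j, hj⟩ := hother
    refine Helper620.ABZ.no_two (c i0) (c j) (hc' i0) (hc' j) ?_ hi0
    intro e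
    obtain ⟨i, hi⟩ := hcov e
    have : i = i0 ∨ i = j := by
      have hi0' := i0.2
      have hj' := j.2
      have hi' := i.2
      have hne : (j : ℕ) ≠ i0 := fun h => hj (Fin.ext h)
      rcases (by omega : (i : ℕ) = i0 ∨ (i : ℕ) = j) with h | h
      · exact Or.inl (Fin.ext h)
      · exact Or.inr (Fin.ext h)
    rcases this with rfl | rfl
    · exact Or.inl hi
    · exact Or.inr hi
  · push Not at hother
    refine Helper620.ABZ.no_two (c i0) (c i0) (hc' i0) (hc' i0) ?_ hi0
    intro e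
    obtain ⟨i, hi⟩ := hcov e
    rw [hother i] at hi
    exact Or.inl hi

end Pool.Agent.S05882
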