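import Pool.Statements.S05892
import Pool.Agent.Helper685.Pack.Final

set_option autoImplicit false
open MeasureTheory
open Pool Pool.MP_642e38_co

namespace Pool.Agent.S05892

/-- The negation of the preceding statement: For every n and r > 2/√3, if n points with pairwise distances ≥ 2 minimise the area of the union of radius-r disks about them among all such configurations, then they lie in a congruent copy of the hexagonal lattice with spacing 2. -/
theorem result :
    ¬ (∀ n : ℕ, ∀ r : ℝ, 2 / Real.sqrt 3 < r →
      ∀ c : Fin n → EuclideanSpace ℝ (Fin 2),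
        (Pairwise fun j k => (2 : ℝ) ≤ dist (c j) (c k)) →
        (∀ x : Fin n → EuclideanSpace ℝ (Fin 2),
            (Pairwise fun j k => (2 : ℝ) ≤ dist (x j) (x k)) →
            volume (⋃ i, Metric.closedBall (c i) r) ≤
              volume (⋃ i, Metric.closedBall (x i) r)) →
        ∃ p u v : EuclideanSpace ℝ (Fin 2),
          ‖u‖ = 1 ∧ ‖v‖ = 1 ∧ ‖u - v‖ = 1 ∧
          ∀ i, ∃ a b : ℤ, c i = p + ((2 : ℝ) * (a : ℝ)) • u + ((2 : ℝ) * (b : ℝ)) • v) := by
  exact Pool.Agent.Helper685.Pack.main

end Pool.Agent.S05892
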