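import Pool.Statements.S05900
import Pool.Agent.Helper256.Purdy
-- import your own Pool.Agent.* helpers here

set_option autoImplicit false
open Pool Pool.MP_655d34_co

namespace Pool.Agent.S05900

/-- The negation of the preceding statement: For each d there is N such that any set of more than N points in R^d not coverable by at least two nonempty flats with ranks summing to at most d+1 spans at least as many hyperplanes as flats of rank d-1. -/
theorem result :
    ¬ (∀ d : ℕ, ∃ N : ℕ, ∀ P : Finset (EuclideanSpace ℝ (Fin d)), N < P.card →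
      (¬ ∃ r : ℕ, 2 ≤ r ∧ ∃ F : Fin r → AffineSubspace ℝ (EuclideanSpace ℝ (Fin d)),
          (∀ i, ((F i : Set (EuclideanSpace ℝ (Fin d)))).Nonempty) ∧
          ((P : Set (EuclideanSpace ℝ (Fin d))) ⊆ ⋃ i, ((F i : Set (EuclideanSpace ℝ (Fin d))))) ∧
          (∑ i, (Module.finrank ℝ (F i).direction + 1)) ≤ d + 1) →
      ({E : AffineSubspace ℝ (EuclideanSpace ℝ (Fin d)) |
          ∃ S : Set (EuclideanSpace ℝ (Fin d)), S ⊆ (P : Set (EuclideanSpace ℝ (Fin d))) ∧
            S.Nonempty ∧ affineSpan ℝ S = E ∧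
            Module.finrank ℝ E.direction + 1 = d - 1}.ncard
        ≤ {E : AffineSubspace ℝ (EuclideanSpace ℝ (Fin d)) |
          ∃ S : Set (EuclideanSpace ℝ (Fin d)), S ⊆ (P : Set (EuclideanSpace ℝ (Fin d))) ∧
            S.Nonempty ∧ affineSpan ℝ S = E ∧
            Module.finrank ℝ E.direction + 1 = d}.ncard)) := by
  open Pool.Agent.Helper256.Purdy in
  classical
  intro H
  obtain ⟨N, hN⟩ := H 3
  have hn : 5 ≤ N + 71 := by omega
  have hcard : N < (S (N + 71)).card := lt_of_lt_of_le (by omega) (card_S (N + 71))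
  have key := hN (S (N + 71)) hcard (irred _ hn)
  have hsub : {E : AffineSubspace ℝ (EuclideanSpace ℝ (Fin 3)) |
          ∃ T : Set (EuclideanSpace ℝ (Fin 3)), T ⊆ (S (N + 71) : Set (EuclideanSpace ℝ (Fin 3))) ∧
            T.Nonempty ∧ affineSpan ℝ T = E ∧
            Module.finrank ℝ E.direction + 1 = 3} ⊆ planes (S (N + 71)) := by
    rintro P ⟨T, hT, _, h, hf⟩
    exact ⟨⟨T, hT, h⟩, Nat.succ.inj hf⟩
  have hpf : (planes (S (N + 71))).Finite := (F (N + 71)).finite_toSet.subset (planes_subset _)
  have h1 := (Set.ncard_le_ncard hsub hpf).trans (ncard_planes (N + 71))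
  have h3 : 6 * (N + 71) ≤ {E : AffineSubspace ℝ (EuclideanSpace ℝ (Fin 3)) |
          ∃ T : Set (EuclideanSpace ℝ (Fin 3)), T ⊆ (S (N + 71) : Set (EuclideanSpace ℝ (Fin 3))) ∧
            T.Nonempty ∧ affineSpan ℝ T = E ∧
            Module.finrank ℝ E.direction + 1 = 3 - 1}.ncard := by
    apply ncard_lines
    · apply Set.Finite.subset ((S (N + 71)).powerset.image
          (fun p : Finset E3 => affineSpan ℝ (p : Set E3))).finite_toSet
      rintro L ⟨T, hT, _, rfl, _⟩
      have hfin : T.Finite := (S (N + 71)).finite_toSet.subset hT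
      rw [Finset.mem_coe, Finset.mem_image]
      refine ⟨hfin.toFinset, ?_, ?_⟩
      · rw [Finset.mem_powerset]
        intro p hp
        rw [Set.Finite.mem_toFinset] at hp
        exact hT hp
      · rw [Set.Finite.coe_toFinset]
    · intro i j hi hj
      refine ⟨{x i, u j}, ?_, ⟨x i, by simp⟩, rfl, ?_⟩
      · rintro v (rfl | rfl)
        · exact x_mem hi
        · exact u_mem hj
      · rw [finrank_line]
  have h4 := h3.trans (key.trans h1)
  omega

end Pool.Agent.S05900
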