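import Pool.Statements.S05917
import Pool.Agent.ImmLog.M25

set_option autoImplicit false
open Pool Pool.MP_66278f_co

namespace Pool.Agent.S05917

/-- For every k ≥ 1 and ε > 0 there is α such that every n-vertex graph with average degree at least imm(k)+ε contains a K_k-immersion (edge-disjoint paths between k branch vertices) using at most α·log n vertices. -/
theorem result :
    ∀ (k : ℕ), 1 ≤ k → ∀ ε : ℝ, 0 < ε → ∃ α : ℝ, ∀ (n : ℕ) (G : SimpleGraph (Fin n)),
      sInf {d : ℝ | ∀ (m : ℕ) (H : SimpleGraph (Fin m)),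
          d ≤ 2 * (H.edgeSet.ncard : ℝ) / (m : ℝ) →
          ∃ f : Fin k → Fin m, Function.Injective f ∧
            ∃ P : ∀ i j : Fin k, H.Walk (f i) (f j),
              (∀ i j : Fin k, i < j → (P i j).IsPath) ∧
              (∀ i j i' j' : Fin k, i < j → i' < j' → (i ≠ i' ∨ j ≠ j') →
                (P i j).edges.Disjoint (P i' j').edges)} + ε
        ≤ 2 * (G.edgeSet.ncard : ℝ) / (n : ℝ) →
      ∃ f : Fin k → Fin n, Function.Injective f ∧
        ∃ P : ∀ i j : Fin k, G.Walk (f i) (f j),
          (∀ i j : Fin k, i < j → (P i j).IsPath) ∧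
          (∀ i j i' j' : Fin k, i < j → i' < j' → (i ≠ i' ∨ j ≠ j') →
            (P i j).edges.Disjoint (P i' j').edges) ∧
          (({v : Fin n | (∃ i, f i = v) ∨ ∃ i j, i < j ∧ v ∈ (P i j).support}.ncard : ℝ)
            ≤ α * Real.log (n : ℝ)) := by
  intro k hk ε hε
  exact ImmLog.main k hk ε hε

end Pool.Agent.S05917
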