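import Pool.Statements.S05928

set_option autoImplicit false
open Pool Pool.MP_67759f_co

namespace Pool.Agent.S05928

/-- The thin cone with apex (0, 1/(n+1)). -/
def cone (n : ℕ) : Set (EuclideanSpace ℝ (Fin 2)) :=
  {p | p 1 - 1 / ((n : ℝ) + 1) ≤ p 0 / 2 ^ n ∧ 1 / ((n : ℝ) + 1) - p 1 ≤ p 0 / 2 ^ n}

/-- A vertical segment {0} x [0,t]. -/
def seg (t : ℝ) : Set (EuclideanSpace ℝ (Fin 2)) :=
  {p | p 0 = 0 ∧ 0 ≤ p 1 ∧ p 1 ≤ t}

lemma cone_closed (n : ℕ) : IsClosed (cone n) := by
  unfold cone
  apply IsClosed.and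
  · exact isClosed_le (by fun_prop) (by fun_prop)
  · exact isClosed_le (by fun_prop) (by fun_prop)

lemma cone_convex (n : ℕ) : Convex ℝ (cone n) := by
  intro x hx y hy a b ha hb hab
  obtain ⟨hx1, hx2⟩ := hx
  obtain ⟨hy1, hy2⟩ := hy
  have e : (1 : ℝ) / ((n : ℝ) + 1) = a * (1 / ((n : ℝ) + 1)) + b * (1 / ((n : ℝ) + 1)) := by
    rw [← add_mul, hab, one_mul]
  constructor
  · simp only [PiLp.add_apply, PiLp.smul_apply, smul_eq_mul]
    have h1 := mul_le_mul_of_nonneg_left hx1 ha
    have h2 := mul_le_mul_of_nonneg_left hy1 hb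
    rw [e]
    have : (a * x.ofLp 0 + b * y.ofLp 0) / 2 ^ n = a * (x.ofLp 0 / 2 ^ n) + b * (y.ofLp 0 / 2 ^ n) := by ring
    rw [this]
    linarith
  · simp only [PiLp.add_apply, PiLp.smul_apply, smul_eq_mul]
    have h1 := mul_le_mul_of_nonneg_left hx2 ha
    have h2 := mul_le_mul_of_nonneg_left hy2 hb
    rw [e]
    have : (a * x.ofLp 0 + b * y.ofLp 0) / 2 ^ n = a * (x.ofLp 0 / 2 ^ n) + b * (y.ofLp 0 / 2 ^ n) := by ring
    rw [this]
    linarith

lemma apex_mem (n : ℕ) : (!₂[(0 : ℝ), 1 / ((n : ℝ) + 1)] : EuclideanSpace ℝ (Fin 2)) ∈ cone n := by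
  constructor <;> simp

lemma seg_closed (t : ℝ) : IsClosed (seg t) := by
  unfold seg
  apply IsClosed.and
  · exact isClosed_eq (by fun_prop) (by fun_prop)
  · apply IsClosed.and
    · exact isClosed_le (by fun_prop) (by fun_prop)
    · exact isClosed_le (by fun_prop) (by fun_prop)

lemma seg_convex (t : ℝ) : Convex ℝ (seg t) := by
  intro x hx y hy a b ha hb hab
  obtain ⟨hx0, hx1, hx2⟩ := hx
  obtain ⟨hy0, hy1, hy2⟩ := hy
  refine ⟨?_, ?_, ?_⟩
  · simp [hx0, hy0]
  · simp only [PiLp.add_apply, PiLp.smul_apply, smul_eq_mul]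
    positivity
  · simp only [PiLp.add_apply, PiLp.smul_apply, smul_eq_mul]
    calc a * x.ofLp 1 + b * y.ofLp 1 ≤ a * t + b * t := by gcongr
      _ = t := by rw [← add_mul, hab, one_mul]

lemma seg_compact (t : ℝ) : IsCompact (seg t) := by
  apply Metric.isCompact_of_isClosed_isBounded (seg_closed t)
  rw [isBounded_iff_forall_norm_le]
  refine ⟨|t|, ?_⟩
  intro x hx
  obtain ⟨hx0, hx1, hx2⟩ := hx
  rw [EuclideanSpace.norm_eq]
  apply Real.sqrt_le_iff.mpr
  refine ⟨abs_nonneg t, ?_⟩
  simp only [Fin.sum_univ_two, Real.norm_eq_abs, sq_abs]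
  rw [hx0]
  nlinarith

lemma cone_far (n : ℕ) (m : ℕ) (h : n ≤ m) :
    (!₂[(2 : ℝ) ^ m, 0] : EuclideanSpace ℝ (Fin 2)) ∈ cone n := by
  have hp : (0 : ℝ) < (n : ℝ) + 1 := by positivity
  have h1 : (1 : ℝ) / ((n : ℝ) + 1) ≤ 1 := by
    rw [div_le_one hp]
    have : (0 : ℝ) ≤ n := by positivity
    linarith
  have h2 : (1 : ℝ) ≤ 2 ^ m / 2 ^ n := by
    rw [one_le_div (by positivity)]
    exact pow_le_pow_right₀ (by norm_num) h
  constructor
  · simp only [Matrix.cons_val_one, Matrix.cons_val_zero, Matrix.cons_val_fin_one]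
    have : (0 : ℝ) < 1 / ((n : ℝ) + 1) := by positivity
    linarith
  · simp only [Matrix.cons_val_one, Matrix.cons_val_zero, Matrix.cons_val_fin_one]
    linarith

lemma cone_inj : Function.Injective cone := by
  intro n m h
  have h1 : (!₂[(0 : ℝ), 1 / ((n : ℝ) + 1)] : EuclideanSpace ℝ (Fin 2)) ∈ cone m := by
    rw [← h]; exact apex_mem n
  obtain ⟨h2, h3⟩ := h1
  simp only [Matrix.cons_val_one, Matrix.cons_val_zero, Matrix.cons_val_fin_one, zero_div] at h2 h3
  have h4 : (1 : ℝ) / ((n : ℝ) + 1) = 1 / ((m : ℝ) + 1) := by linarith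
  have hn : (0 : ℝ) < (n : ℝ) + 1 := by positivity
  have hm : (0 : ℝ) < (m : ℝ) + 1 := by positivity
  rw [div_eq_div_iff hn.ne' hm.ne'] at h4
  have h5 : (n : ℝ) = m := by linarith
  exact_mod_cast h5

/-- Every point lies in only finitely many of the cones. -/
lemma finite_hit (p : EuclideanSpace ℝ (Fin 2)) : {n : ℕ | p ∈ cone n}.Finite := by
  -- eventually p is not in the cone
  have key : ∀ᶠ n : ℕ in Filter.atTop, p ∉ cone n := by
    by_cases hy : p 1 = 0
    · -- 1/(n+1) ≤ X/2^n fails eventually
      have lim : Filter.Tendsto (fun n : ℕ => p 0 * (((n : ℝ) + 1) / 2 ^ n)) Filter.atTop (nhds (p 0 * 0)) := by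
        apply Filter.Tendsto.const_mul
        have h1 : Filter.Tendsto (fun n : ℕ => (n : ℝ) ^ 1 / (2 : ℝ) ^ n) Filter.atTop (nhds 0) :=
          tendsto_pow_const_div_const_pow_of_one_lt 1 (by norm_num)
        have h2 : Filter.Tendsto (fun n : ℕ => (n : ℝ) ^ 0 / (2 : ℝ) ^ n) Filter.atTop (nhds 0) :=
          tendsto_pow_const_div_const_pow_of_one_lt 0 (by norm_num)
        have h3 := h1.add h2
        simp only [add_zero] at h3
        refine h3.congr ?_
        intro n
        ring
      rw [mul_zero] at lim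
      have ev := lim.eventually (gt_mem_nhds (show (0 : ℝ) < 1 by norm_num))
      filter_upwards [ev] with n hn hmem
      obtain ⟨_, h3⟩ := hmem
      rw [hy, sub_zero] at h3
      have hp : (0 : ℝ) < (n : ℝ) + 1 := by positivity
      have : (1 : ℝ) ≤ p 0 * (((n : ℝ) + 1) / 2 ^ n) := by
        rw [div_le_iff₀ hp] at h3
        calc (1 : ℝ) ≤ p 0 / 2 ^ n * ((n : ℝ) + 1) := h3
          _ = p 0 * (((n : ℝ) + 1) / 2 ^ n) := by ring
      linarith
    · have lim1 : Filter.Tendsto (fun n : ℕ => |p 1 - 1 / ((n : ℝ) + 1)| - p 0 / 2 ^ n) Filter.atTop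
          (nhds (|p 1 - 0| - 0)) := by
        apply Filter.Tendsto.sub
        · apply Filter.Tendsto.abs
          apply Filter.Tendsto.sub tendsto_const_nhds
          exact tendsto_one_div_add_atTop_nhds_zero_nat
        · have h2 : Filter.Tendsto (fun n : ℕ => p 0 * ((n : ℝ) ^ 0 / (2 : ℝ) ^ n)) Filter.atTop (nhds (p 0 * 0)) :=
            (tendsto_pow_const_div_const_pow_of_one_lt 0 (by norm_num)).const_mul _
          rw [mul_zero] at h2
          refine h2.congr ?_
          intro n
          ring
      rw [sub_zero, sub_zero] at lim1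
      have ev := lim1.eventually (lt_mem_nhds (abs_pos.mpr hy))
      filter_upwards [ev] with n hn hmem
      obtain ⟨h2, h3⟩ := hmem
      have : |p 1 - 1 / ((n : ℝ) + 1)| ≤ p 0 / 2 ^ n := by
        rw [abs_le]
        constructor <;> linarith
      linarith
  rw [Filter.eventually_atTop] at key
  obtain ⟨N, hN⟩ := key
  apply Set.Finite.subset (Set.finite_lt_nat N)
  intro n hn
  by_contra hlt
  exact hN n (not_lt.mp hlt) hn

lemma cone_ne_seg (n : ℕ) (t : ℝ) : cone n ≠ seg t := by
  intro h
  have h1 := cone_far n n le_rfl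
  rw [h] at h1
  have h2 := h1.1
  simp at h2

/-- The negation of the preceding statement: Take any infinite family of nonempty closed convex plane sets, two of them distinct and compact, in which any 4 members include 3 with a common point. Then some finite set of points meets every member. -/
theorem result :
    ¬ (∀ F : Set (Set (EuclideanSpace ℝ (Fin 2))),
      F.Infinite →
      (∀ K ∈ F, Convex ℝ K ∧ IsClosed K ∧ K.Nonempty) →
      (∃ K₁ ∈ F, ∃ K₂ ∈ F, K₁ ≠ K₂ ∧ IsCompact K₁ ∧ IsCompact K₂) →
      (∀ A : Finset (Set (EuclideanSpace ℝ (Fin 2))), (↑A : Set (Set (EuclideanSpace ℝ (Fin 2)))) ⊆ F → A.card = 4 →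
        ∃ B ⊆ A, B.card = 3 ∧ ∃ x : EuclideanSpace ℝ (Fin 2), ∀ K ∈ B, x ∈ K) →
      ∃ S : Finset (EuclideanSpace ℝ (Fin 2)), ∀ K ∈ F, ∃ x ∈ S, x ∈ K) := by
  classical
  intro H
  have hne : seg 1 ≠ seg 2 := by
    intro h
    have h1 : (!₂[(0 : ℝ), 2] : EuclideanSpace ℝ (Fin 2)) ∈ seg 2 := by
      refine ⟨?_, ?_, ?_⟩ <;> simp
    rw [← h] at h1
    obtain ⟨_, _, h2⟩ := h1
    simp only [Matrix.cons_val_one, Matrix.cons_val_fin_one] at h2
    norm_num at h2
  have HH := H (Set.range cone ∪ {seg 1, seg 2}) ?_ ?_ ?_ ?_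
  · -- no finite piercing
    obtain ⟨S, hS⟩ := HH
    have hfin : (⋃ x ∈ S, {n : ℕ | x ∈ cone n}).Finite :=
      Set.Finite.biUnion S.finite_toSet (fun x _ => finite_hit x)
    have huniv : (⋃ x ∈ S, {n : ℕ | x ∈ cone n}) = Set.univ := by
      apply Set.eq_univ_of_forall
      intro n
      obtain ⟨x, hx, hxn⟩ := hS (cone n) (Or.inl ⟨n, rfl⟩)
      simp only [Set.mem_iUnion]
      exact ⟨x, hx, hxn⟩
    rw [huniv] at hfin
    exact Set.infinite_univ hfin
  · exact (Set.infinite_range_of_injective cone_inj).mono Set.subset_union_left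
  · rintro K (⟨n, rfl⟩ | hK)
    · exact ⟨cone_convex n, cone_closed n, _, apex_mem n⟩
    · rcases hK with rfl | hK
      · exact ⟨seg_convex 1, seg_closed 1, 0, by simp [seg]⟩
      · rw [Set.mem_singleton_iff] at hK
        subst hK
        exact ⟨seg_convex 2, seg_closed 2, 0, by simp [seg]⟩
  · exact ⟨seg 1, Or.inr (Or.inl rfl), seg 2, Or.inr (Or.inr rfl), hne, seg_compact 1, seg_compact 2⟩
  · intro A hA hcard
    -- the cones in A
    set C := A.filter (fun K => K ∈ Set.range cone) with hC
    by_cases hc3 : 3 ≤ C.card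
    · obtain ⟨B, hBC, hB3⟩ := Finset.exists_subset_card_eq hc3
      refine ⟨B, hBC.trans (Finset.filter_subset _ _), hB3, ?_⟩
      have hr : ∀ K ∈ B, ∃ n, cone n = K := by
        intro K hK
        have := hBC hK
        rw [hC, Finset.mem_filter] at this
        exact this.2
      choose! f hf using hr
      refine ⟨!₂[(2 : ℝ) ^ (B.sup f), 0], ?_⟩
      intro K hK
      rw [← hf K hK]
      exact cone_far (f K) _ (Finset.le_sup hK)
    · push Not at hc3
      -- so both segments are in A
      have hsub : A ⊆ C ∪ {seg 1, seg 2} := by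
        intro K hK
        rcases hA hK with hr | hs
        · apply Finset.mem_union_left
          rw [hC, Finset.mem_filter]
          exact ⟨hK, hr⟩
        · apply Finset.mem_union_right
          simpa using hs
      have hs1 : seg 1 ∈ A := by
        by_contra hn
        have : A ⊆ C ∪ {seg 2} := by
          intro K hK
          rcases Finset.mem_union.mp (hsub hK) with h | h
          · exact Finset.mem_union_left _ h
          · rw [Finset.mem_insert] at h
            rcases h with h | h
            · subst h; exact absurd hK hn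
            · exact Finset.mem_union_right _ h
        have h1 := Finset.card_le_card this
        have h2 := Finset.card_union_le C {seg 2}
        rw [Finset.card_singleton] at h2
        omega
      have hs2 : seg 2 ∈ A := by
        by_contra hn
        have : A ⊆ C ∪ {seg 1} := by
          intro K hK
          rcases Finset.mem_union.mp (hsub hK) with h | h
          · exact Finset.mem_union_left _ h
          · rw [Finset.mem_insert] at h
            rcases h with h | h
            · exact Finset.mem_union_right _ (by simpa using h)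
            · rw [Finset.mem_singleton] at h
              subst h; exact absurd hK hn
        have h1 := Finset.card_le_card this
        have h2 := Finset.card_union_le C {seg 1}
        rw [Finset.card_singleton] at h2
        omega
      have hCpos : 0 < C.card := by
        have h1 := Finset.card_le_card hsub
        have h2 := Finset.card_union_le C {seg 1, seg 2}
        have h3 : ({seg 1, seg 2} : Finset (Set (EuclideanSpace ℝ (Fin 2)))).card ≤ 2 := Finset.card_le_two
        omega
      obtain ⟨K, hK⟩ := Finset.card_pos.mp hCpos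
      rw [hC, Finset.mem_filter] at hK
      obtain ⟨hKA, n, rfl⟩ := hK
      refine ⟨{cone n, seg 1, seg 2}, ?_, ?_, !₂[(0 : ℝ), 1 / ((n : ℝ) + 1)], ?_⟩
      · intro K hK
        simp only [Finset.mem_insert, Finset.mem_singleton] at hK
        rcases hK with rfl | rfl | rfl
        · exact hKA
        · exact hs1
        · exact hs2
      · rw [Finset.card_eq_three]
        exact ⟨cone n, seg 1, seg 2, cone_ne_seg n 1, cone_ne_seg n 2, hne, rfl⟩
      · have hp : (0 : ℝ) < (n : ℝ) + 1 := by positivity
        have hpos : (0 : ℝ) ≤ 1 / ((n : ℝ) + 1) := by positivity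
        have hle : (1 : ℝ) / ((n : ℝ) + 1) ≤ 1 := by
          rw [div_le_one hp]
          have : (0 : ℝ) ≤ n := by positivity
          linarith
        intro K hK
        simp only [Finset.mem_insert, Finset.mem_singleton] at hK
        rcases hK with rfl | rfl | rfl
        · exact apex_mem n
        · refine ⟨?_, ?_, ?_⟩
          · simp
          · simpa using hpos
          · simpa using hle
        · refine ⟨?_, ?_, ?_⟩
          · simp
          · simpa using hpos
          · have : (1 : ℝ) / ((n : ℝ) + 1) ≤ 2 := by linarith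
            simpa using this

end Pool.Agent.S05928
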