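import Pool.Statements.S05932
import Pool.Agent.Helper9.AFLColor

set_option autoImplicit false
open Pool Pool.MP_67c961_co

namespace Pool.Agent.S05932

/-- The negation of the preceding statement: For all r,k ≥ 1 and every finite r-uniform hypergraph H: if the realization of its complex C(H) of ordered edges is ((k−1)(r−1)−1)-connected, then H has no proper k-colouring (no colouring avoiding monochromatic edges). -/
theorem result :
    ¬ (∀ (r k : ℕ), 1 ≤ r → 1 ≤ k →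
    ∀ (V : Type) [Fintype V] [DecidableEq V] (H : Finset (Finset V)),
      (∀ e ∈ H, e.card = r) →
      ∀ X : Set ((Fin r → V) → ℝ),
        X = {x | (∀ f, 0 ≤ x f) ∧ (∑ f, x f) = 1 ∧
              ∃ W : Fin r → Finset V,
                (∀ i j, i ≠ j → Disjoint (W i) (W j)) ∧
                (∀ t : Fin r → V, (∀ j, t j ∈ W j) → Finset.univ.image t ∈ H) ∧
                (∀ f, x f ≠ 0 → ∀ j, f j ∈ W j)} →
      (∀ m : ℕ, m ≤ (k - 1) * (r - 1) →
        ∀ g : EuclideanSpace ℝ (Fin m) → ((Fin r → V) → ℝ),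
          ContinuousOn g (Metric.sphere (0 : EuclideanSpace ℝ (Fin m)) 1) →
          Set.MapsTo g (Metric.sphere (0 : EuclideanSpace ℝ (Fin m)) 1) X →
          ∃ h : EuclideanSpace ℝ (Fin m) → ((Fin r → V) → ℝ),
            ContinuousOn h (Metric.closedBall (0 : EuclideanSpace ℝ (Fin m)) 1) ∧
            Set.MapsTo h (Metric.closedBall (0 : EuclideanSpace ℝ (Fin m)) 1) X ∧
            Set.EqOn h g (Metric.sphere (0 : EuclideanSpace ℝ (Fin m)) 1)) →
      ¬ ∃ c : V → Fin k, ∀ e ∈ H, ∃ u ∈ e, ∃ v ∈ e, c u ≠ c v) := by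
  intro hall
  obtain ⟨Q, instQ, hΘ⟩ := Pool.Agent.Helper9.AFL.theta_exists
  obtain ⟨k, hk⟩ : ∃ k, k = Fintype.card (Option Q) := ⟨_, rfl⟩
  have hk1 : 1 ≤ k := by rw [hk, Fintype.card_option]; omega
  obtain ⟨Θ, hc, he, hn⟩ := hΘ ((k - 1) * 5 + 1)
  obtain ⟨M0, hM0⟩ := Pool.Agent.Helper9.AFL.exists_colouring ((k - 1) * 5 + 1) Θ hc he hn
  obtain ⟨M, hM⟩ : ∃ M, M = M0 + (2 * (9 + 2 * Fintype.card
    (Pool.Agent.Helper9.AFL.Col ((k - 1) * 5 + 1) (Equiv.Perm (Fin 6)))) + 2) := ⟨_, rfl⟩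
  have hM1 : M0 ≤ M := by omega
  have hM2 : 2 * (9 + 2 * Fintype.card
    (Pool.Agent.Helper9.AFL.Col ((k - 1) * 5 + 1) (Equiv.Perm (Fin 6)))) + 2 ≤ M := by omega
  obtain ⟨c, hcol⟩ := hM0 M hM1
  refine hall 6 k (by norm_num) hk1 (Pool.Agent.Helper9.AFL.VQ ((k - 1) * 5 + 1) M)
    (Pool.Agent.Helper9.AFL.HH ((k - 1) * 5 + 1) M)
    (fun e heH => Pool.Agent.Helper9.AFL.HH_card (by omega) heH)
    (Pool.Agent.Helper9.AFL.XS ((k - 1) * 5 + 1) M) rfl ?_ ?_
  · intro m hm g hg hgX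
    exact Pool.Agent.Helper9.AFL.X_conn hM2 (by omega) g hg hgX
  · let eq : Option Q ≃ Fin k := (Fintype.equivFin (Option Q)).trans (finCongr hk.symm)
    refine ⟨fun v => eq (c v), fun e heH => ?_⟩
    obtain ⟨u, hu, v, hv, huv⟩ := hcol e heH
    exact ⟨u, hu, v, hv, fun h => huv (eq.injective h)⟩

end Pool.Agent.S05932
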