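import Pool.Statements.S05942

set_option autoImplicit false
set_option linter.unusedSectionVars false
set_option linter.style.haveILetI false
open Pool Pool.MP_697282_co

namespace Pool.Agent.S05942

section Work

open Finset Module

variable {F : Type} [Field F] [Fintype F]

/-- the sesquilinear form -/
def hf (q : ℕ) (x y : Fin 10 → F) : F := ∑ i : Fin 10, x i * y i ^ q

lemma exists_frob (q : ℕ) (hq : Fintype.card F = q ^ 2) :
    ∃ φ : F →+* F, ∀ x, φ x = x ^ q := by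
  obtain ⟨p, hp, n, hpp, hn⟩ := FiniteField.card' F
  have h1 : q ∣ p ^ (n : ℕ) := by
    rw [← hn, hq]; exact dvd_pow_self q two_ne_zero
  obtain ⟨k, -, hk⟩ := (Nat.dvd_prime_pow hpp).1 h1
  haveI : Fact p.Prime := ⟨hpp⟩
  haveI : CharP F p := hp
  exact ⟨iterateFrobenius F p k, fun x => by rw [iterateFrobenius_def, hk]⟩

lemma hf_add_left (q : ℕ) (x x' y : Fin 10 → F) : hf q (x + x') y = hf q x y + hf q x' y := by
  simp [hf, add_mul, Finset.sum_add_distrib]

lemma hf_smul_left (q : ℕ) (c : F) (x y : Fin 10 → F) : hf q (c • x) y = c * hf q x y := by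
  simp [hf, Finset.mul_sum, mul_assoc]

lemma hf_sub_left (q : ℕ) (x x' y : Fin 10 → F) : hf q (x - x') y = hf q x y - hf q x' y := by
  simp [hf, sub_mul, Finset.sum_sub_distrib]

lemma hf_swap (q : ℕ) (hq : Fintype.card F = q ^ 2) (x y : Fin 10 → F) :
    hf q y x = (hf q x y) ^ q := by
  obtain ⟨φ, hφ⟩ := exists_frob (F := F) q hq
  have h1 : φ (∑ i : Fin 10, x i * y i ^ q) = ∑ i : Fin 10, φ (x i * y i ^ q) := map_sum φ _ _
  unfold hf
  rw [← hφ, h1]
  refine Finset.sum_congr rfl fun i _ => ?_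
  rw [hφ, mul_pow, ← pow_mul, ← sq, ← hq, FiniteField.pow_card, mul_comm]

lemma hf_add_right (q : ℕ) (hq : Fintype.card F = q ^ 2) (x y y' : Fin 10 → F) :
    hf q x (y + y') = hf q x y + hf q x y' := by
  obtain ⟨φ, hφ⟩ := exists_frob (F := F) q hq
  simp only [hf, Pi.add_apply, ← hφ, map_add, mul_add, Finset.sum_add_distrib]

lemma hf_sub_right (q : ℕ) (hq : Fintype.card F = q ^ 2) (x y y' : Fin 10 → F) :
    hf q x (y - y') = hf q x y - hf q x y' := by
  obtain ⟨φ, hφ⟩ := exists_frob (F := F) q hq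
  simp only [hf, Pi.sub_apply, ← hφ, map_sub, mul_sub, Finset.sum_sub_distrib]

lemma hf_smul_right (q : ℕ) (c : F) (x y : Fin 10 → F) :
    hf q x (c • y) = c ^ q * hf q x y := by
  simp only [hf, Pi.smul_apply, smul_eq_mul, mul_pow, Finset.mul_sum]
  refine Finset.sum_congr rfl fun i _ => by ring

lemma two_le_q (q : ℕ) (hq : Fintype.card F = q ^ 2) : 2 ≤ q := by
  have h := Fintype.one_lt_card (α := F)
  rw [hq] at h
  by_contra hlt
  have : q < 2 := not_le.1 hlt
  interval_cases q <;> simp at h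

/-- the functional `x ↦ h(x,u)` -/
def fn (q : ℕ) (u : Fin 10 → F) : Dual F (Fin 10 → F) where
  toFun x := hf q x u
  map_add' x y := hf_add_left q x y u
  map_smul' c x := hf_smul_left q c x u

lemma fn_apply (q : ℕ) (u x : Fin 10 → F) : fn q u x = hf q x u := rfl

lemma fn_inj (q : ℕ) (hq : Fintype.card F = q ^ 2) :
    Function.Injective (fn q : (Fin 10 → F) → Dual F (Fin 10 → F)) := by
  intro u v huv
  obtain ⟨φ, hφ⟩ := exists_frob (F := F) q hq
  funext i
  have h1 : fn q u (Pi.single i 1) = fn q v (Pi.single i 1) := by rw [huv]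
  simp only [fn_apply, hf, Pi.single_apply, ite_mul, one_mul, zero_mul, Finset.sum_ite_eq',
    Finset.mem_univ, if_true] at h1
  rw [← hφ, ← hφ] at h1
  exact φ.injective h1

noncomputable instance dualFintype : Fintype (Dual F (Fin 10 → F)) := by
  classical
  exact Fintype.ofInjective (fun f => (f : (Fin 10 → F) → F)) DFunLike.coe_injective

open Classical in
/-- cardinality of a subspace -/
lemma card_sub {E : Type} [AddCommGroup E] [Module F E] [Fintype E] (W : Submodule F E) :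
    (univ.filter (fun v : E => v ∈ W)).card = Fintype.card F ^ finrank F W := by
  rw [← Module.card_eq_pow_finrank (K := F) (V := W), Fintype.card_subtype]

lemma card_dual : Fintype.card (Dual F (Fin 10 → F)) = Fintype.card (Fin 10 → F) := by
  rw [Module.card_eq_pow_finrank (K := F) (V := Dual F (Fin 10 → F)),
    Module.card_eq_pow_finrank (K := F) (V := Fin 10 → F), Subspace.dual_finrank_eq]

lemma fn_bij (q : ℕ) (hq : Fintype.card F = q ^ 2) :
    Function.Bijective (fn q : (Fin 10 → F) → Dual F (Fin 10 → F)) :=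
  (Fintype.bijective_iff_injective_and_card _).2 ⟨fn_inj q hq, card_dual.symm⟩

lemma finrank_V : finrank F (Fin 10 → F) = 10 := by simp

open Classical in
/-- number of functionals vanishing on W -/
lemma card_ann (W : Submodule F (Fin 10 → F)) :
    (univ.filter (fun w : Dual F (Fin 10 → F) => w ∈ W.dualAnnihilator)).card
      = Fintype.card F ^ (10 - finrank F W) := by
  rw [card_sub]
  congr 1
  have := Subspace.finrank_add_finrank_dualAnnihilator_eq W
  rw [finrank_V] at this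
  omega

/-- the hypotheses -/
structure Sys (q : ℕ) (M : Finset (Submodule F (Fin 10 → F))) : Prop where
  hq : Fintype.card F = q ^ 2
  card : M.card = q ^ 9 + 1
  dim : ∀ π ∈ M, finrank F π = 3
  iso : ∀ π ∈ M, ∀ x ∈ π, ∀ y ∈ π, hf q x y = 0
  sep : ∀ π ∈ M, ∀ π' ∈ M, π ≠ π' → ∀ v ∈ π', (∀ u ∈ π, hf q u v = 0) → v = 0
  blt : ∀ L : Submodule F (Fin 10 → F), finrank F L = 2 →
    (∀ x ∈ L, ∀ y ∈ L, hf q x y = 0) → ∀ a ∈ M, ∀ b ∈ M, ∀ c ∈ M, a ≠ b → a ≠ c → b ≠ c →
      ¬ (L ⊓ a ≠ ⊥ ∧ L ⊓ b ≠ ⊥ ∧ L ⊓ c ≠ ⊥)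

namespace Sys

variable {q : ℕ} {M : Finset (Submodule F (Fin 10 → F))}

lemma disj (S : Sys q M) {i j : Submodule F (Fin 10 → F)} (hi : i ∈ M) (hj : j ∈ M) (hij : i ≠ j)
    {v : Fin 10 → F} (h1 : v ∈ i) (h2 : v ∈ j) : v = 0 :=
  S.sep i hi j hj hij v h2 (fun u hu => S.iso i hi u hu v h1)

lemma inf_bot (S : Sys q M) {i j : Submodule F (Fin 10 → F)} (hi : i ∈ M) (hj : j ∈ M)
    (hij : i ≠ j) : i ⊓ j = ⊥ := by
  rw [eq_bot_iff]
  intro v hv
  exact (Submodule.mem_bot F).2 (S.disj hi hj hij hv.1 hv.2)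

lemma finrank_sup (S : Sys q M) {i j : Submodule F (Fin 10 → F)} (hi : i ∈ M) (hj : j ∈ M)
    (hij : i ≠ j) : finrank F (i ⊔ j : Submodule F (Fin 10 → F)) = 6 := by
  have h := Submodule.finrank_sup_add_finrank_inf_eq i j
  rw [S.inf_bot hi hj hij, finrank_bot, S.dim i hi, S.dim j hj] at h
  simpa using h

lemma mem_ann {W : Submodule F (Fin 10 → F)} {v : Fin 10 → F} :
    fn q v ∈ W.dualAnnihilator ↔ ∀ u ∈ W, hf q u v = 0 := by
  rw [Submodule.mem_dualAnnihilator]; rfl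

open Classical in
lemma card_perp (S : Sys q M) (W : Submodule F (Fin 10 → F)) :
    (univ.filter (fun v : Fin 10 → F => ∀ u ∈ W, hf q u v = 0)).card
      = Fintype.card F ^ (10 - finrank F W) := by
  rw [← card_ann W]
  refine Finset.card_bij (fun v _ => fn q v) ?_ ?_ ?_
  · intro v hv
    simp only [mem_filter, mem_univ, true_and] at hv ⊢
    exact mem_ann.2 hv
  · intro a _ b _ hab
    exact fn_inj q S.hq hab
  · intro w hw
    obtain ⟨v, rfl⟩ := (fn_bij q S.hq).2 w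
    simp only [mem_filter, mem_univ, true_and] at hw
    exact ⟨v, by simpa using mem_ann.1 hw, rfl⟩

/-- key consequence of the BLT property -/
lemma key_inj (S : Sys q M) {i i' j : Submodule F (Fin 10 → F)} (hi : i ∈ M) (hi' : i' ∈ M)
    (hj : j ∈ M) (hij : i ≠ j) (hij' : i' ≠ j) (hii : i ≠ i') {v x y x' y' : Fin 10 → F}
    (hv : ¬ ∀ u ∈ j, hf q u v = 0)
    (hx : x ∈ i) (hy : y ∈ j) (hx' : x' ∈ i') (hy' : y' ∈ j) (h : x + y = v) (h' : x' + y' = v)
    (ht : hf q v y = hf q v y') : False := by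
  have hq := S.hq
  have hxv : x = v - y := by rw [← h]; simp
  have hxv' : x' = v - y' := by rw [← h']; simp
  have hx0 : x ≠ 0 := by
    rintro rfl
    rw [zero_add] at h
    apply hv
    intro u hu
    rw [← h]
    exact S.iso j hj u hu y hy
  have hx0' : x' ≠ 0 := by
    rintro rfl
    rw [zero_add] at h'
    apply hv
    intro u hu
    rw [← h']
    exact S.iso j hj u hu y' hy'
  have hd0 : x - x' ≠ 0 := by
    intro h0
    have : x = x' := sub_eq_zero.1 h0
    exact hx0 (S.disj hi hi' hii hx (this ▸ hx'))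
  have hd : x - x' ∈ j := by
    have : x - x' = y' - y := by rw [hxv, hxv']; abel
    rw [this]; exact j.sub_mem hy' hy
  have hxx' : hf q x x' = 0 := by
    have e1 : x' = x - (y' - y) := by rw [hxv, hxv']; abel
    rw [e1, hf_sub_right q hq, S.iso i hi x hx x hx, zero_sub, neg_eq_zero, hf_sub_right q hq]
    have e2 : ∀ z ∈ j, hf q x z = hf q v z := by
      intro z hz
      rw [hxv, hf_sub_left, S.iso j hj y hy z hz, sub_zero]
    rw [e2 y' hy', e2 y hy, ht, sub_self]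
  have hx'x : hf q x' x = 0 := by
    rw [hf_swap q hq x x', hxx', zero_pow]
    have := two_le_q q hq
    omega
  -- the line
  let L : Submodule F (Fin 10 → F) := Submodule.span F {x, x'}
  have hLiso : ∀ a ∈ L, ∀ b ∈ L, hf q a b = 0 := by
    intro a ha b hb
    obtain ⟨a1, a2, rfl⟩ := Submodule.mem_span_pair.1 ha
    obtain ⟨b1, b2, rfl⟩ := Submodule.mem_span_pair.1 hb
    rw [hf_add_left, hf_add_right q hq, hf_add_right q hq]
    simp only [hf_smul_left, hf_smul_right]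
    rw [S.iso i hi x hx x hx, S.iso i' hi' x' hx' x' hx', hxx', hx'x]
    ring
  have hlin : LinearIndependent F ![x, x'] := by
    rw [LinearIndependent.pair_iff]
    intro s t hst
    have h1 : s • x = - (t • x') := eq_neg_of_add_eq_zero_left hst
    have h2 : s • x = 0 := by
      apply S.disj hi hi' hii (i.smul_mem s hx)
      rw [h1]; exact i'.neg_mem (i'.smul_mem t hx')
    have h3 : t • x' = 0 := by rw [h2] at h1; simpa using h1.symm
    exact ⟨(smul_eq_zero.1 h2).resolve_right hx0, (smul_eq_zero.1 h3).resolve_right hx0'⟩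
  have hLdim : finrank F L = 2 := by
    have h5 := finrank_span_eq_card hlin
    rw [Matrix.range_cons_cons_empty] at h5
    simpa [L] using h5
  have hxL : x ∈ L := Submodule.subset_span (by simp)
  have hxL' : x' ∈ L := Submodule.subset_span (by simp)
  refine S.blt L hLdim hLiso i hi i' hi' j hj hii hij hij' ⟨?_, ?_, ?_⟩
  · intro hb
    exact hx0 ((Submodule.mem_bot F).1 (hb ▸ ⟨hxL, hx⟩))
  · intro hb
    exact hx0' ((Submodule.mem_bot F).1 (hb ▸ ⟨hxL', hx'⟩))
  · intro hb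
    exact hd0 ((Submodule.mem_bot F).1 (hb ▸ ⟨L.sub_mem hxL hxL', hd⟩))

open Classical in
/-- the number of `t` with `t + t^q = c` is at most `q` -/
lemma card_trace_le (S : Sys q M) (c : F) :
    (univ.filter (fun t : F => t ^ q + t = c)).card ≤ q := by
  have h2 := two_le_q q S.hq
  let p : Polynomial F := Polynomial.X ^ q + (Polynomial.X - Polynomial.C c)
  have hdeg : p.natDegree = q := by
    apply Polynomial.natDegree_eq_of_degree_eq_some
    have h3 : (Polynomial.X - Polynomial.C c : Polynomial F).degree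
        < (Polynomial.X ^ q : Polynomial F).degree := by
      rw [Polynomial.degree_X_sub_C, Polynomial.degree_X_pow]
      exact_mod_cast h2
    rw [Polynomial.degree_add_eq_left_of_degree_lt h3, Polynomial.degree_X_pow]
  have hp0 : p ≠ 0 := by
    intro h0
    rw [h0, Polynomial.natDegree_zero] at hdeg
    omega
  calc (univ.filter (fun t : F => t ^ q + t = c)).card ≤ p.natDegree := by
        apply Polynomial.card_le_degree_of_subset_roots
        intro t ht
        have ht' : t ^ q + t = c := by simpa using ht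
        rw [Polynomial.mem_roots hp0]
        simp only [Polynomial.IsRoot.def, p, Polynomial.eval_add, Polynomial.eval_pow,
          Polynomial.eval_X, Polynomial.eval_sub, Polynomial.eval_C]
        rw [← ht']; ring
    _ = q := hdeg

open Classical in
/-- number of members `i ≠ j` with `v ∈ i + j` -/
noncomputable def cc (M : Finset (Submodule F (Fin 10 → F))) (j : Submodule F (Fin 10 → F))
    (v : Fin 10 → F) : ℕ :=
  ((M.erase j).filter (fun i => v ∈ i ⊔ j)).card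

lemma cc_le (S : Sys q M) {j : Submodule F (Fin 10 → F)} (hj : j ∈ M) {v : Fin 10 → F}
    (hv : ¬ ∀ u ∈ j, hf q u v = 0) : cc M j v ≤ q := by
  classical
  have hq := S.hq
  have hex : ∀ i : Submodule F (Fin 10 → F), ∃ x y : Fin 10 → F, v ∈ i ⊔ j → (x ∈ i ∧ y ∈ j ∧ x + y = v) := by
    intro i
    by_cases h : v ∈ i ⊔ j
    · obtain ⟨x, hx, y, hy, hxy⟩ := Submodule.mem_sup.1 h
      exact ⟨x, y, fun _ => ⟨hx, hy, hxy⟩⟩
    · exact ⟨0, 0, fun h' => absurd h' h⟩
  choose X Y hXY using hex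
  refine le_trans ?_ (S.card_trace_le (hf q v v))
  unfold cc
  apply Finset.card_le_card_of_injOn (fun i => hf q v (Y i))
  · intro i hi
    have hi' : (i ≠ j ∧ i ∈ M) ∧ v ∈ i ⊔ j := by
      simpa [mem_filter, mem_erase] using hi
    obtain ⟨⟨hij, hiM⟩, hvi⟩ := hi'
    obtain ⟨hx, hy, hxy⟩ := hXY i hvi
    simp only [coe_filter, mem_univ, true_and, Set.mem_ofPred_eq]
    have hvy : hf q v (Y i) = hf q (X i) (Y i) := by
      conv_lhs => rw [← hxy]
      rw [hf_add_left, S.iso j hj _ hy _ hy, add_zero]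
    have hvv : hf q v v = hf q (X i) (Y i) + hf q (Y i) (X i) := by
      conv_lhs => rw [← hxy]
      rw [hf_add_left, hf_add_right q hq, hf_add_right q hq, S.iso j hj _ hy _ hy,
        S.iso i hiM _ hx _ hx]
      ring
    rw [hvv, hvy, hf_swap q hq (X i) (Y i)]
    ring
  · intro i hi i' hi' hii
    have h1 : (i ≠ j ∧ i ∈ M) ∧ v ∈ i ⊔ j := by
      simpa [mem_filter, mem_erase] using hi
    have h2 : (i' ≠ j ∧ i' ∈ M) ∧ v ∈ i' ⊔ j := by
      simpa [mem_filter, mem_erase] using hi'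
    obtain ⟨⟨hij, hiM⟩, hvi⟩ := h1
    obtain ⟨⟨hij', hiM'⟩, hvi'⟩ := h2
    obtain ⟨hx, hy, hxy⟩ := hXY i hvi
    obtain ⟨hx', hy', hxy'⟩ := hXY i' hvi'
    by_contra hne
    exact S.key_inj hiM hiM' hj hij hij' hne hv hx hy hx' hy' hxy hxy' hii


open Classical in
lemma card_notperp (S : Sys q M) {j : Submodule F (Fin 10 → F)} (hj : j ∈ M) :
    (univ.filter (fun v : Fin 10 → F => ¬ ∀ u ∈ j, hf q u v = 0)).card + q ^ 14 = q ^ 20 := by
  have h1 := S.card_perp j
  rw [S.dim j hj, S.hq, ← pow_mul] at h1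
  have h2 := Finset.card_filter_add_card_filter_not (s := (univ : Finset (Fin 10 → F)))
    (fun v : Fin 10 → F => ∀ u ∈ j, hf q u v = 0)
  have h3 : (univ : Finset (Fin 10 → F)).card = q ^ 20 := by
    rw [Finset.card_univ, Module.card_eq_pow_finrank (K := F) (V := Fin 10 → F), S.hq, finrank_V,
      ← pow_mul]
  rw [h3] at h2
  norm_num at h1
  omega

open Classical in
lemma card_sup_notperp (S : Sys q M) {i j : Submodule F (Fin 10 → F)} (hi : i ∈ M) (hj : j ∈ M)
    (hij : i ≠ j) :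
    (univ.filter (fun v : Fin 10 → F => (¬ ∀ u ∈ j, hf q u v = 0) ∧ v ∈ i ⊔ j)).card + q ^ 6
      = q ^ 12 := by
  have h1 : (univ.filter (fun v : Fin 10 → F => v ∈ i ⊔ j)).card = q ^ 12 := by
    rw [card_sub, S.finrank_sup hi hj hij, S.hq, ← pow_mul]
  have h2 : (univ.filter (fun v : Fin 10 → F => v ∈ j)).card = q ^ 6 := by
    rw [card_sub, S.dim j hj, S.hq, ← pow_mul]
  have h3 := Finset.card_filter_add_card_filter_not
    (s := (univ.filter (fun v : Fin 10 → F => v ∈ i ⊔ j)))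
    (fun v : Fin 10 → F => ∀ u ∈ j, hf q u v = 0)
  have h4 : (univ.filter (fun v : Fin 10 → F => v ∈ i ⊔ j)).filter
      (fun v : Fin 10 → F => ∀ u ∈ j, hf q u v = 0) = univ.filter (fun v : Fin 10 → F => v ∈ j) := by
    ext v
    simp only [mem_filter, mem_univ, true_and]
    constructor
    · rintro ⟨h5, h6⟩
      obtain ⟨x, hx, y, hy, rfl⟩ := Submodule.mem_sup.1 h5
      have h7 : x = 0 := by
        apply S.sep j hj i hi hij.symm x hx
        intro u hu
        have := h6 u hu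
        rw [hf_add_right q S.hq, S.iso j hj u hu y hy, add_zero] at this
        exact this
      rw [h7, zero_add]; exact hy
    · intro h5
      exact ⟨Submodule.mem_sup_right h5, fun u hu => S.iso j hj u hu v h5⟩
  have h5 : (univ.filter (fun v : Fin 10 → F => v ∈ i ⊔ j)).filter
      (fun v : Fin 10 → F => ¬ ∀ u ∈ j, hf q u v = 0)
      = univ.filter (fun v : Fin 10 → F => (¬ ∀ u ∈ j, hf q u v = 0) ∧ v ∈ i ⊔ j) := by
    ext v
    simp only [mem_filter, mem_univ, true_and]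
    tauto
  rw [h4, h5, h1, h2] at h3
  omega

lemma card_erase (S : Sys q M) {j : Submodule F (Fin 10 → F)} (hj : j ∈ M) :
    (M.erase j).card = q ^ 9 := by
  rw [Finset.card_erase_of_mem hj, S.card]; simp

open Classical in
lemma cc_eq (S : Sys q M) {j : Submodule F (Fin 10 → F)} (hj : j ∈ M) {v : Fin 10 → F}
    (hv : ¬ ∀ u ∈ j, hf q u v = 0) : cc M j v = q := by
  have h1 : ∑ v ∈ univ.filter (fun v : Fin 10 → F => ¬ ∀ u ∈ j, hf q u v = 0), cc M j v
      = ∑ v ∈ univ.filter (fun v : Fin 10 → F => ¬ ∀ u ∈ j, hf q u v = 0), q := by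
    have e1 : ∑ v ∈ univ.filter (fun v : Fin 10 → F => ¬ ∀ u ∈ j, hf q u v = 0), cc M j v
        = ∑ i ∈ M.erase j,
          (univ.filter (fun v : Fin 10 → F => (¬ ∀ u ∈ j, hf q u v = 0) ∧ v ∈ i ⊔ j)).card := by
      simp only [cc, Finset.card_filter]
      rw [Finset.sum_comm]
      refine Finset.sum_congr rfl fun i _ => ?_
      rw [Finset.sum_filter]
      refine Finset.sum_congr rfl fun v _ => ?_
      by_cases h : ∀ u ∈ j, hf q u v = 0
      · rw [if_neg (not_not.2 h), if_neg (fun h' => h'.1 h)]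
      · simp [h]
    have e2 : ∀ i ∈ M.erase j,
        (univ.filter (fun v : Fin 10 → F => (¬ ∀ u ∈ j, hf q u v = 0) ∧ v ∈ i ⊔ j)).card
          = q ^ 12 - q ^ 6 := by
      intro i hi
      have := S.card_sup_notperp (Finset.mem_of_mem_erase hi) hj (Finset.ne_of_mem_erase hi)
      omega
    have e3 := S.card_notperp hj
    have e4 : (univ.filter (fun v : Fin 10 → F => ¬ ∀ u ∈ j, hf q u v = 0)).card
        = q ^ 20 - q ^ 14 := by omega
    rw [e1, Finset.sum_congr rfl e2, Finset.sum_const, S.card_erase hj, Finset.sum_const, e4,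
      smul_eq_mul, smul_eq_mul, Nat.mul_sub, Nat.sub_mul]
    congr 1 <;> ring
  have h2 := (Finset.sum_eq_sum_iff_of_le (fun v hv => S.cc_le hj (by simpa using hv))).1 h1
  exact h2 v (by simpa using hv)


open Classical in
/-- indicator of `u` being perpendicular to `W` -/
noncomputable def ee (q : ℕ) (W : Submodule F (Fin 10 → F)) (u : Fin 10 → F) : ℕ :=
  if (∀ x ∈ W, hf q x u = 0) then 1 else 0

lemma ee_mul (W W' : Submodule F (Fin 10 → F)) (u : Fin 10 → F) :
    ee q W u * ee q W' u = ee q (W ⊔ W') u := by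
  classical
  unfold ee
  by_cases h : ∀ x ∈ W, hf q x u = 0
  · by_cases h' : ∀ x ∈ W', hf q x u = 0
    · have h'' : ∀ x ∈ W ⊔ W', hf q x u = 0 := by
        intro x hx
        obtain ⟨a, ha, b, hb, rfl⟩ := Submodule.mem_sup.1 hx
        rw [hf_add_left, h a ha, h' b hb, add_zero]
      rw [if_pos h, if_pos h', if_pos h'']
    · have h'' : ¬ ∀ x ∈ W ⊔ W', hf q x u = 0 := fun h2 =>
        h' (fun x hx => h2 x (Submodule.mem_sup_right hx))
      rw [if_neg h', if_neg h'', mul_zero]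
  · have h'' : ¬ ∀ x ∈ W ⊔ W', hf q x u = 0 := fun h2 =>
      h (fun x hx => h2 x (Submodule.mem_sup_left hx))
    rw [if_neg h, if_neg h'', zero_mul]

lemma sum_ee (S : Sys q M) (W : Submodule F (Fin 10 → F)) :
    ∑ u, ee q W u = Fintype.card F ^ (10 - finrank F W) := by
  classical
  rw [← S.card_perp W, Finset.card_filter]
  rfl

/-- number of members in `u^⊥` -/
noncomputable def aa (q : ℕ) (M : Finset (Submodule F (Fin 10 → F))) (u : Fin 10 → F) : ℕ :=
  ∑ j ∈ M, ee q j u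

lemma aa_zero (S : Sys q M) : aa q M (0 : Fin 10 → F) = q ^ 9 + 1 := by
  classical
  unfold aa
  rw [← S.card, Finset.card_eq_sum_ones]
  refine Finset.sum_congr rfl fun j _ => ?_
  unfold ee
  rw [if_pos]
  intro x _
  have h2 := two_le_q q S.hq
  have : q ≠ 0 := by omega
  simp [hf, this]

lemma aa_mem (S : Sys q M) {j : Submodule F (Fin 10 → F)} (hj : j ∈ M) {u : Fin 10 → F}
    (hu : u ∈ j) (hu0 : u ≠ 0) : aa q M u = 1 := by
  classical
  unfold aa
  rw [Finset.sum_eq_single j]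
  · unfold ee
    rw [if_pos (fun x hx => S.iso j hj x hx u hu)]
  · intro k hk hkj
    unfold ee
    rw [if_neg]
    intro h
    exact hu0 (S.sep k hk j hj hkj u hu h)
  · intro h; exact absurd hj h

lemma S1 (S : Sys q M) : ∑ u, aa q M u = (q ^ 9 + 1) * q ^ 14 := by
  unfold aa
  rw [Finset.sum_comm]
  have h : ∀ j ∈ M, ∑ u, ee q j u = q ^ 14 := by
    intro j hj
    rw [S.sum_ee, S.dim j hj, S.hq, ← pow_mul]
  rw [Finset.sum_congr rfl h, Finset.sum_const, S.card, smul_eq_mul]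

lemma S2inner (S : Sys q M) {j : Submodule F (Fin 10 → F)} (hj : j ∈ M) :
    ∑ i ∈ M, ∑ u, ee q (i ⊔ j) u = q ^ 14 + q ^ 9 * q ^ 8 := by
  classical
  rw [← Finset.add_sum_erase M _ hj, sup_idem, S.sum_ee, S.dim j hj, S.hq, ← pow_mul]
  have h : ∀ i ∈ M.erase j, ∑ u, ee q (i ⊔ j) u = q ^ 8 := by
    intro i hi
    rw [S.sum_ee, S.finrank_sup (Finset.mem_of_mem_erase hi) hj (Finset.ne_of_mem_erase hi), S.hq,
      ← pow_mul]
  rw [Finset.sum_congr rfl h, Finset.sum_const, S.card_erase hj, smul_eq_mul]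

lemma S2 (S : Sys q M) : ∑ u, (aa q M u) ^ 2 = (q ^ 9 + 1) * (q ^ 14 + q ^ 9 * q ^ 8) := by
  have h : ∀ u, (aa q M u) ^ 2 = ∑ j ∈ M, ∑ i ∈ M, ee q (i ⊔ j) u := by
    intro u
    unfold aa
    rw [sq, Finset.sum_mul_sum]
    refine Finset.sum_congr rfl fun j _ => Finset.sum_congr rfl fun i _ => ?_
    rw [mul_comm, ee_mul]
  simp only [h]
  rw [Finset.sum_comm]
  have h2 : ∀ j ∈ M, ∑ u, ∑ i ∈ M, ee q (i ⊔ j) u = q ^ 14 + q ^ 9 * q ^ 8 := by
    intro j hj
    rw [Finset.sum_comm, S.S2inner hj]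
  rw [Finset.sum_congr rfl h2, Finset.sum_const, S.card, smul_eq_mul]

open Classical in
/-- number of members `i ≠ j` with `x ∈ i + j`, summed over `x ∈ k` -/
lemma sum_cc (S : Sys q M) {j k : Submodule F (Fin 10 → F)} (hj : j ∈ M) (hk : k ∈ M)
    (hjk : j ≠ k) :
    ∑ x ∈ univ.filter (fun x : Fin 10 → F => x ∈ k), cc M j x = q ^ 9 + (q ^ 6 - 1) * q := by
  have h0 : (0 : Fin 10 → F) ∈ univ.filter (fun x : Fin 10 → F => x ∈ k) := by
    simp [k.zero_mem]
  rw [← Finset.add_sum_erase _ _ h0]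
  have h1 : cc M j (0 : Fin 10 → F) = q ^ 9 := by
    unfold cc
    rw [← S.card_erase hj]
    congr 1
    apply Finset.filter_true_of_mem
    intro i _
    exact Submodule.zero_mem _
  have h2 : ∀ x ∈ (univ.filter (fun x : Fin 10 → F => x ∈ k)).erase 0, cc M j x = q := by
    intro x hx
    rw [mem_erase, mem_filter] at hx
    apply S.cc_eq hj
    intro h
    exact hx.1 (S.sep j hj k hk hjk x hx.2.2 h)
  rw [h1, Finset.sum_congr rfl h2, Finset.sum_const, Finset.card_erase_of_mem h0, card_sub,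
    S.dim k hk, S.hq, ← pow_mul, smul_eq_mul]

open Classical in
lemma triple (S : Sys q M) {i j k : Submodule F (Fin 10 → F)} (hi : i ∈ M) (hj : j ∈ M)
    (hk : k ∈ M) (hij : i ≠ j) :
    ∑ u, ee q ((i ⊔ j) ⊔ k) u
      = q ^ 2 * ((univ.filter (fun x : Fin 10 → F => x ∈ k)).filter (fun x => x ∈ i ⊔ j)).card := by
  have h1 : ((univ.filter (fun x : Fin 10 → F => x ∈ k)).filter (fun x => x ∈ i ⊔ j))
      = univ.filter (fun x : Fin 10 → F => x ∈ (i ⊔ j) ⊓ k) := by
    ext x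
    simp only [mem_filter, mem_univ, true_and, Submodule.mem_inf]
    tauto
  rw [h1, card_sub, S.sum_ee, S.hq, ← pow_mul, ← pow_mul, ← pow_add]
  congr 1
  have h2 := Submodule.finrank_sup_add_finrank_inf_eq (i ⊔ j) k
  rw [S.finrank_sup hi hj hij, S.dim k hk] at h2
  have h3 : finrank F ((i ⊔ j) ⊓ k : Submodule F (Fin 10 → F)) ≤ 3 := by
    rw [← S.dim k hk]
    exact Submodule.finrank_mono inf_le_right
  omega

open Classical in
lemma S3inner (S : Sys q M) {j k : Submodule F (Fin 10 → F)} (hj : j ∈ M) (hk : k ∈ M)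
    (hjk : j ≠ k) :
    ∑ i ∈ M, ∑ u, ee q ((i ⊔ j) ⊔ k) u = q ^ 8 + q ^ 2 * (q ^ 9 + (q ^ 6 - 1) * q) := by
  rw [← Finset.add_sum_erase M _ hj, sup_idem, S.sum_ee, S.finrank_sup hj hk hjk, S.hq, ← pow_mul]
  rw [← S.sum_cc hj hk hjk, Finset.mul_sum]
  congr 1
  have h1 : ∀ i ∈ M.erase j, ∑ u, ee q ((i ⊔ j) ⊔ k) u
      = q ^ 2 * ((univ.filter (fun x : Fin 10 → F => x ∈ k)).filter (fun x => x ∈ i ⊔ j)).card := by
    intro i hi
    exact S.triple (Finset.mem_of_mem_erase hi) hj hk (Finset.ne_of_mem_erase hi)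
  rw [Finset.sum_congr rfl h1, ← Finset.mul_sum, ← Finset.mul_sum]
  congr 1
  simp only [cc, Finset.card_filter]
  rw [Finset.sum_comm]

lemma S3 (S : Sys q M) : ∑ u, (aa q M u) ^ 3
    = (q ^ 9 + 1) * ((q ^ 14 + q ^ 9 * q ^ 8)
      + q ^ 9 * (q ^ 8 + q ^ 2 * (q ^ 9 + (q ^ 6 - 1) * q))) := by
  classical
  have h : ∀ u, (aa q M u) ^ 3 = ∑ j ∈ M, ∑ k ∈ M, ∑ i ∈ M, ee q ((i ⊔ j) ⊔ k) u := by
    intro u
    have e : (aa q M u) ^ 3 = (∑ j ∈ M, ee q j u) * ((∑ k ∈ M, ee q k u) * (∑ i ∈ M, ee q i u)) := by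
      unfold aa; ring
    rw [e, Finset.sum_mul]
    refine Finset.sum_congr rfl fun j _ => ?_
    rw [Finset.sum_mul_sum, Finset.mul_sum]
    refine Finset.sum_congr rfl fun k _ => ?_
    rw [Finset.mul_sum]
    refine Finset.sum_congr rfl fun i _ => ?_
    rw [← ee_mul, ← ee_mul]; ring
  simp only [h]
  rw [Finset.sum_comm]
  have h2 : ∀ j ∈ M, ∑ u, ∑ k ∈ M, ∑ i ∈ M, ee q ((i ⊔ j) ⊔ k) u
      = (q ^ 14 + q ^ 9 * q ^ 8) + q ^ 9 * (q ^ 8 + q ^ 2 * (q ^ 9 + (q ^ 6 - 1) * q)) := by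
    intro j hj
    rw [Finset.sum_comm]
    have h3 : ∀ k ∈ M, ∑ u, ∑ i ∈ M, ee q ((i ⊔ j) ⊔ k) u
        = ∑ i ∈ M, ∑ u, ee q ((i ⊔ j) ⊔ k) u := fun k _ => Finset.sum_comm
    rw [Finset.sum_congr rfl h3, ← Finset.add_sum_erase M _ hj]
    congr 1
    · rw [← S.S2inner hj]
      refine Finset.sum_congr rfl fun i _ => ?_
      rw [sup_assoc, sup_idem]
    · have h4 : ∀ k ∈ M.erase j, ∑ i ∈ M, ∑ u, ee q ((i ⊔ j) ⊔ k) u
          = q ^ 8 + q ^ 2 * (q ^ 9 + (q ^ 6 - 1) * q) := fun k hk =>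
        S.S3inner hj (Finset.mem_of_mem_erase hk) (Finset.ne_of_mem_erase hk).symm
      rw [Finset.sum_congr rfl h4, Finset.sum_const, S.card_erase hj, smul_eq_mul]
  rw [Finset.sum_congr rfl h2, Finset.sum_const, S.card, smul_eq_mul]


open Classical in
/-- nonzero vectors covered by the members -/
noncomputable def Oset (M : Finset (Submodule F (Fin 10 → F))) : Finset (Fin 10 → F) :=
  M.biUnion (fun j => (univ.filter (fun u : Fin 10 → F => u ∈ j)).erase 0)

lemma mem_Oset {u : Fin 10 → F} : u ∈ Oset M ↔ u ≠ 0 ∧ ∃ j ∈ M, u ∈ j := by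
  classical
  unfold Oset
  simp only [mem_biUnion, mem_erase, mem_filter, mem_univ, true_and]
  constructor
  · rintro ⟨j, hj, h0, hu⟩; exact ⟨h0, j, hj, hu⟩
  · rintro ⟨h0, j, hj, hu⟩; exact ⟨j, hj, h0, hu⟩

open Classical in
lemma sum_Oset (S : Sys q M) (f : (Fin 10 → F) → ℕ) :
    ∑ u ∈ Oset M, f u
      = ∑ j ∈ M, ∑ u ∈ (univ.filter (fun u : Fin 10 → F => u ∈ j)).erase 0, f u := by
  unfold Oset
  rw [Finset.sum_biUnion]
  · intro i hi j hj hij
    rw [Function.onFun, Finset.disjoint_left]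
    intro u hu hu'
    simp only [mem_erase, mem_filter, mem_univ, true_and] at hu hu'
    exact hu.1 (S.disj hi hj hij hu.2 hu'.2)

lemma card_Oset (S : Sys q M) : (Oset M).card = (q ^ 9 + 1) * (q ^ 6 - 1) := by
  classical
  rw [Finset.card_eq_sum_ones, S.sum_Oset (fun _ => 1)]
  have h : ∀ j ∈ M, ∑ u ∈ (univ.filter (fun u : Fin 10 → F => u ∈ j)).erase 0, 1
      = q ^ 6 - 1 := by
    intro j hj
    rw [← Finset.card_eq_sum_ones]
    rw [Finset.card_erase_of_mem (by simp [j.zero_mem]), card_sub, S.dim j hj, S.hq, ← pow_mul]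
  rw [Finset.sum_congr rfl h, Finset.sum_const, S.card, smul_eq_mul]

/-- splitting a sum over all vectors -/
lemma split_sum {R : Type} [AddCommMonoid R] [DecidableEq (Fin 10 → F)] (f : (Fin 10 → F) → R) :
    ∑ u, f u = f 0 + ∑ u ∈ Oset M, f u
      + ∑ u ∈ univ.filter (fun u : Fin 10 → F => u ≠ 0 ∧ u ∉ Oset M), f u := by
  classical
  have h1 : (0 : Fin 10 → F) ∉ Oset M := by
    rw [mem_Oset]; simp
  rw [← Finset.sum_insert h1]
  have h2 : univ.filter (fun u : Fin 10 → F => u ≠ 0 ∧ u ∉ Oset M) = (insert 0 (Oset M))ᶜ := by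
    ext u; simp
  rw [h2, Finset.sum_add_sum_compl]

lemma two_values (S : Sys q M) {u : Fin 10 → F} (hu0 : u ≠ 0) (hu : u ∉ Oset M) :
    aa q M u = 0 ∨ aa q M u = q ^ 3 + 1 := by
  classical
  let Z : (Fin 10 → F) → ℤ := fun u => (aa q M u : ℤ) * ((aa q M u : ℤ) - (q ^ 3 + 1)) ^ 2
  have hT : ∑ u, Z u = ((q : ℤ) ^ 9 + 1) * (q ^ 18 - q ^ 12) := by
    have e1 : ∀ u, Z u = ((aa q M u ^ 3 : ℕ) : ℤ) - 2 * (q ^ 3 + 1) * ((aa q M u ^ 2 : ℕ) : ℤ)
        + (q ^ 3 + 1) ^ 2 * ((aa q M u : ℕ) : ℤ) := by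
      intro u; simp only [Z]; push_cast; ring
    simp only [e1]
    rw [Finset.sum_add_distrib, Finset.sum_sub_distrib, ← Finset.mul_sum, ← Finset.mul_sum,
      ← Nat.cast_sum, ← Nat.cast_sum, ← Nat.cast_sum, S.S1, S.S2, S.S3]
    have h6 : 1 ≤ q ^ 6 := Nat.one_le_pow _ _ (by have := two_le_q q S.hq; omega)
    push_cast [Nat.cast_sub h6]
    ring
  have hZ0 : Z 0 = ((q : ℤ) ^ 9 + 1) * (q ^ 9 - q ^ 3) ^ 2 := by
    simp only [Z, S.aa_zero]; push_cast; ring
  have hZO : ∑ u ∈ Oset M, Z u = ((q : ℤ) ^ 9 + 1) * (q ^ 6 - 1) * q ^ 6 := by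
    have e : ∀ u ∈ Oset M, Z u = (q : ℤ) ^ 6 := by
      intro u hu
      obtain ⟨h0, j, hj, huj⟩ := mem_Oset.1 hu
      simp only [Z, S.aa_mem hj huj h0]; push_cast; ring
    rw [Finset.sum_congr rfl e, Finset.sum_const, S.card_Oset, nsmul_eq_mul]
    have h6 : 1 ≤ q ^ 6 := Nat.one_le_pow _ _ (by have := two_le_q q S.hq; omega)
    push_cast [Nat.cast_sub h6]
    ring
  have hsplit := split_sum (M := M) Z
  rw [hT, hZ0, hZO] at hsplit
  have hR : ∑ u ∈ univ.filter (fun u : Fin 10 → F => u ≠ 0 ∧ u ∉ Oset M), Z u = 0 := by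
    have : ((q : ℤ) ^ 9 + 1) * (q ^ 18 - q ^ 12)
      = ((q : ℤ) ^ 9 + 1) * (q ^ 9 - q ^ 3) ^ 2 + ((q : ℤ) ^ 9 + 1) * (q ^ 6 - 1) * q ^ 6 := by ring
    linarith
  have hnn : ∀ u ∈ univ.filter (fun u : Fin 10 → F => u ≠ 0 ∧ u ∉ Oset M), 0 ≤ Z u := by
    intro u _
    simp only [Z]; positivity
  have hz := (Finset.sum_eq_zero_iff_of_nonneg hnn).1 hR u (by simp [hu0, hu])
  simp only [Z, mul_eq_zero] at hz
  rcases hz with h | h
  · left; exact_mod_cast h
  · right
    have h' := pow_eq_zero_iff (two_ne_zero) |>.1 h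
    have h'' : (aa q M u : ℤ) = ((q ^ 3 + 1 : ℕ) : ℤ) := by push_cast; linarith
    exact_mod_cast h''


/-- members meet a tangent hyperplane at a point of another member in a 2-space -/
lemma finrank_inf_ker (S : Sys q M) {j k : Submodule F (Fin 10 → F)} (hj : j ∈ M) (hk : k ∈ M)
    (hjk : j ≠ k) {x : Fin 10 → F} (hx : x ∈ k) (hx0 : x ≠ 0) :
    finrank F (j ⊓ LinearMap.ker (fn q x) : Submodule F (Fin 10 → F)) = 2 := by
  have hne : ∃ u ∈ j, hf q u x ≠ 0 := by
    by_contra hcon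
    apply hx0
    apply S.sep j hj k hk hjk x hx
    intro u hu
    by_contra h
    exact hcon ⟨u, hu, h⟩
  obtain ⟨u, hu, hux⟩ := hne
  let f : j →ₗ[F] F := (fn q x).domRestrict j
  have h1 := LinearMap.finrank_range_add_finrank_ker f
  have h2 : LinearMap.range f = ⊤ := by
    apply LinearMap.range_eq_top.2
    apply LinearMap.surjective
    intro h0
    apply hux
    have : f ⟨u, hu⟩ = 0 := by rw [h0]; rfl
    exact this
  rw [h2, finrank_top, Module.finrank_self, S.dim j hj] at h1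
  have h3 : finrank F (LinearMap.ker f) = 2 := by omega
  rw [← h3]
  have h4 : (LinearMap.ker f).map j.subtype = j ⊓ LinearMap.ker (fn q x) := by
    ext v
    simp only [Submodule.mem_map, LinearMap.mem_ker, Submodule.mem_inf, Submodule.coe_subtype]
    constructor
    · rintro ⟨y, hy, rfl⟩; exact ⟨y.2, hy⟩
    · rintro ⟨hv, hv2⟩; exact ⟨⟨v, hv⟩, hv2, rfl⟩
  rw [← h4]
  exact Submodule.finrank_map_subtype_eq _ _

lemma hf_comm_zero (S : Sys q M) {x u : Fin 10 → F} (h : hf q x u = 0) : hf q u x = 0 := by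
  rw [hf_swap q S.hq x u, h, zero_pow]
  have := two_le_q q S.hq
  omega

lemma ee_span (x u : Fin 10 → F) [Decidable (hf q x u = 0)] :
    ee q (Submodule.span F {x}) u = if hf q x u = 0 then 1 else 0 := by
  classical
  unfold ee
  by_cases h : hf q x u = 0
  · rw [if_pos h, if_pos]
    intro y hy
    obtain ⟨c, rfl⟩ := Submodule.mem_span_singleton.1 hy
    rw [hf_smul_left, h, mul_zero]
  · rw [if_neg h, if_neg]
    intro h'
    exact h (h' x (Submodule.mem_span_singleton_self x))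

lemma finrank_span_sup (S : Sys q M) {j k : Submodule F (Fin 10 → F)} (hj : j ∈ M) (hk : k ∈ M)
    (hjk : j ≠ k) {x : Fin 10 → F} (hx : x ∈ k) (hx0 : x ≠ 0) :
    finrank F (Submodule.span F {x} ⊔ j : Submodule F (Fin 10 → F)) = 4 := by
  have h1 := Submodule.finrank_sup_add_finrank_inf_eq (Submodule.span F {x}) j
  have h2 : Submodule.span F {x} ⊓ j = ⊥ := by
    rw [eq_bot_iff]
    intro v hv
    obtain ⟨c, rfl⟩ := Submodule.mem_span_singleton.1 hv.1
    exact (Submodule.mem_bot F).2 (S.disj hj hk hjk hv.2 (k.smul_mem c hx))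
  rw [h2, finrank_bot, finrank_span_singleton hx0, S.dim j hj] at h1
  omega

lemma hyper_sum (S : Sys q M) {k : Submodule F (Fin 10 → F)} (hk : k ∈ M)
    {x : Fin 10 → F} (hx : x ∈ k) (hx0 : x ≠ 0) :
    ∑ u, ee q (Submodule.span F {x}) u * aa q M u = q ^ 14 + q ^ 9 * q ^ 12 := by
  classical
  have h1 : ∀ u, ee q (Submodule.span F {x}) u * aa q M u
      = ∑ j ∈ M, ee q (Submodule.span F {x} ⊔ j) u := by
    intro u
    unfold aa
    rw [Finset.mul_sum]
    exact Finset.sum_congr rfl fun j _ => ee_mul _ _ _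
  simp only [h1]
  rw [Finset.sum_comm, ← Finset.add_sum_erase M _ hk]
  have h2 : Submodule.span F {x} ⊔ k = k := by
    rw [sup_eq_right, Submodule.span_singleton_le_iff_mem]; exact hx
  rw [h2, S.sum_ee, S.dim k hk, S.hq, ← pow_mul]
  have h3 : ∀ j ∈ M.erase k, ∑ u, ee q (Submodule.span F {x} ⊔ j) u = q ^ 12 := by
    intro j hj
    rw [S.sum_ee, S.finrank_span_sup (Finset.mem_of_mem_erase hj) hk (Finset.ne_of_mem_erase hj)
      hx hx0, S.hq, ← pow_mul]
  rw [Finset.sum_congr rfl h3, Finset.sum_const, S.card_erase hk, smul_eq_mul]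

lemma Oset_sum (S : Sys q M) {k : Submodule F (Fin 10 → F)} (hk : k ∈ M)
    {x : Fin 10 → F} (hx : x ∈ k) (hx0 : x ≠ 0) :
    ∑ u ∈ Oset M, ee q (Submodule.span F {x}) u * aa q M u
      = (q ^ 6 - 1) + q ^ 9 * (q ^ 4 - 1) := by
  classical
  have h1 : ∑ u ∈ Oset M, ee q (Submodule.span F {x}) u * aa q M u
      = ∑ u ∈ Oset M, ee q (Submodule.span F {x}) u := by
    refine Finset.sum_congr rfl fun u hu => ?_
    obtain ⟨h0, j, hj, huj⟩ := mem_Oset.1 hu
    rw [S.aa_mem hj huj h0, mul_one]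
  rw [h1, S.sum_Oset, ← Finset.add_sum_erase M _ hk]
  congr 1
  · have h2 : ∀ u ∈ (univ.filter (fun u : Fin 10 → F => u ∈ k)).erase 0,
        ee q (Submodule.span F {x}) u = 1 := by
      intro u hu
      simp only [mem_erase, mem_filter, mem_univ, true_and] at hu
      rw [ee_span, if_pos (S.iso k hk x hx u hu.2)]
    rw [Finset.sum_congr rfl h2, ← Finset.card_eq_sum_ones,
      Finset.card_erase_of_mem (by simp [k.zero_mem]), card_sub, S.dim k hk, S.hq, ← pow_mul]
  · have h2 : ∀ j ∈ M.erase k, ∑ u ∈ (univ.filter (fun u : Fin 10 → F => u ∈ j)).erase 0,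
        ee q (Submodule.span F {x}) u = q ^ 4 - 1 := by
      intro j hj
      have e1 : ∑ u ∈ (univ.filter (fun u : Fin 10 → F => u ∈ j)).erase 0,
          ee q (Submodule.span F {x}) u
          = ((univ.filter (fun u : Fin 10 → F => u ∈ j ⊓ LinearMap.ker (fn q x))).erase 0).card := by
        simp only [ee_span]
        rw [← Finset.card_filter]
        congr 1
        ext u
        simp only [mem_erase, mem_filter, mem_univ, true_and, Submodule.mem_inf,
          LinearMap.mem_ker, fn_apply]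
        constructor
        · rintro ⟨⟨h0, h1⟩, h2⟩; exact ⟨h0, h1, S.hf_comm_zero h2⟩
        · rintro ⟨h0, h1, h2⟩; exact ⟨⟨h0, h1⟩, S.hf_comm_zero h2⟩
      rw [e1, Finset.card_erase_of_mem (by simp), card_sub,
        S.finrank_inf_ker (Finset.mem_of_mem_erase hj) hk (Finset.ne_of_mem_erase hj) hx hx0,
        S.hq, ← pow_mul]
    rw [Finset.sum_congr rfl h2, Finset.sum_const, S.card_erase hk, smul_eq_mul]

open Classical in
/-- the set counted at the end -/
noncomputable def Eset (q : ℕ) (M : Finset (Submodule F (Fin 10 → F))) (x : Fin 10 → F) :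
    Finset (Fin 10 → F) :=
  univ.filter (fun u : Fin 10 → F => (u ≠ 0 ∧ u ∉ Oset M) ∧ hf q x u = 0 ∧ aa q M u = q ^ 3 + 1)

lemma Eset_count (S : Sys q M) {k : Submodule F (Fin 10 → F)} (hk : k ∈ M)
    {x : Fin 10 → F} (hx : x ∈ k) (hx0 : x ≠ 0) :
    (q ^ 9 + 1) + ((q ^ 6 - 1) + q ^ 9 * (q ^ 4 - 1)) + (q ^ 3 + 1) * (Eset q M x).card
      = q ^ 14 + q ^ 9 * q ^ 12 := by
  classical
  rw [← S.hyper_sum hk hx hx0, split_sum (M := M), S.Oset_sum hk hx hx0]
  congr 1
  · congr 1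
    rw [S.aa_zero, ee_span, if_pos, one_mul]
    have h2 := two_le_q q S.hq
    have : q ≠ 0 := by omega
    simp [hf, this]
  · rw [Eset, ← Finset.filter_filter, Finset.card_eq_sum_ones, Finset.mul_sum, Finset.sum_filter,
      mul_one]
    refine Finset.sum_congr rfl fun u hu => ?_
    simp only [mem_filter, mem_univ, true_and] at hu
    rw [ee_span]
    rcases S.two_values hu.1 hu.2 with h | h
    · rw [h, mul_zero, if_neg]
      rintro ⟨-, h'⟩
      omega
    · by_cases h' : hf q x u = 0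
      · rw [if_pos ⟨h', h⟩, if_pos h', one_mul, h]
      · rw [if_neg (fun h'' => h' h''.1), if_neg h', zero_mul]


lemma dvd_card_of_scalar (X : Finset (Fin 10 → F)) (h0 : ∀ u ∈ X, u ≠ 0)
    (hs : ∀ u ∈ X, ∀ c : F, c ≠ 0 → c • u ∈ X) : Fintype.card F - 1 ∣ X.card := by
  classical
  rw [Finset.card_eq_sum_card_image (fun u : Fin 10 → F => Submodule.span F {u}) X]
  apply Finset.dvd_sum
  intro L hL
  obtain ⟨u, hu, rfl⟩ := Finset.mem_image.1 hL
  have hu0 := h0 u hu
  have e : X.filter (fun a => Submodule.span F {a} = Submodule.span F {u})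
      = univ.image (fun c : Fˣ => (c : F) • u) := by
    ext a
    simp only [mem_filter, mem_image, mem_univ, true_and]
    constructor
    · rintro ⟨ha, hau⟩
      obtain ⟨z, hz⟩ := Submodule.span_singleton_eq_span_singleton.1 hau.symm
      exact ⟨z, hz⟩
    · rintro ⟨c, rfl⟩
      refine ⟨hs u hu c c.ne_zero, ?_⟩
      exact (Submodule.span_singleton_eq_span_singleton.2 ⟨c, rfl⟩).symm
  rw [e, Finset.card_image_of_injective, Finset.card_univ, Fintype.card_units]
  intro c d hcd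
  apply Units.ext
  exact smul_left_injective F hu0 hcd

lemma ee_smul (S : Sys q M) (W : Submodule F (Fin 10 → F)) (u : Fin 10 → F) {c : F} (hc : c ≠ 0) :
    ee q W (c • u) = ee q W u := by
  classical
  unfold ee
  have : (∀ x ∈ W, hf q x (c • u) = 0) ↔ (∀ x ∈ W, hf q x u = 0) := by
    refine forall₂_congr fun x _ => ?_
    rw [hf_smul_right, mul_eq_zero, pow_eq_zero_iff (by have := two_le_q q S.hq; omega)]
    simp [hc]
  simp only [this]

lemma Eset_dvd (S : Sys q M) (x : Fin 10 → F) : q ^ 2 - 1 ∣ (Eset q M x).card := by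
  classical
  rw [← S.hq]
  apply dvd_card_of_scalar
  · intro u hu
    simp only [Eset, mem_filter, mem_univ, true_and] at hu
    exact hu.1.1
  · intro u hu c hc
    simp only [Eset, mem_filter, mem_univ, true_and] at hu ⊢
    obtain ⟨⟨h0, h1⟩, h2, h3⟩ := hu
    refine ⟨⟨smul_ne_zero hc h0, ?_⟩, ?_, ?_⟩
    · intro h
      apply h1
      obtain ⟨-, j, hj, hcu⟩ := mem_Oset.1 h
      refine mem_Oset.2 ⟨h0, j, hj, ?_⟩
      have := j.smul_mem c⁻¹ hcu
      rwa [smul_smul, inv_mul_cancel₀ hc, one_smul] at this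
    · rw [hf_smul_right, h2, mul_zero]
    · rw [← h3]
      unfold aa
      exact Finset.sum_congr rfl fun j _ => S.ee_smul j u hc

end Sys

lemma arith (q n : ℕ) (hq : 2 ≤ q) (hn : q ^ 2 - 1 ∣ n)
    (h : (q ^ 9 + 1) + ((q ^ 6 - 1) + q ^ 9 * (q ^ 4 - 1)) + (q ^ 3 + 1) * n
      = q ^ 14 + q ^ 9 * q ^ 12) : False := by
  obtain ⟨m, rfl⟩ := hn
  have h2 : 1 ≤ q ^ 2 := Nat.one_le_pow _ _ (by omega)
  have h4 : 1 ≤ q ^ 4 := Nat.one_le_pow _ _ (by omega)
  have h6 : 1 ≤ q ^ 6 := Nat.one_le_pow _ _ (by omega)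
  have hz : ((q : ℤ) ^ 9 + 1) + ((q ^ 6 - 1) + q ^ 9 * (q ^ 4 - 1))
      + (q ^ 3 + 1) * ((q ^ 2 - 1) * m) = q ^ 14 + q ^ 9 * q ^ 12 := by
    have := congrArg (Nat.cast : ℕ → ℤ) h
    push_cast [Nat.cast_sub h2, Nat.cast_sub h4, Nat.cast_sub h6] at this
    exact this
  have hq' : (2 : ℤ) ≤ q := by exact_mod_cast hq
  have hfac : ((q : ℤ) ^ 2 - 1) * (q + 1) ≠ 0 := by
    have : (0 : ℤ) < (q ^ 2 - 1) * (q + 1) := by
      apply mul_pos
      · nlinarith
      · linarith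
    exact ne_of_gt this
  have h1 : ((q : ℤ) ^ 2 - 1) * (q + 1) * ((q ^ 2 - q + 1) * m)
      = ((q : ℤ) ^ 2 - 1) * (q + 1) * (q ^ 6 * (q ^ 2 + 1) * (q ^ 4 + 1)
        * (q ^ 6 - q ^ 5 + q ^ 4 - q ^ 3 + q ^ 2 - q + 1)) := by
    have e1 : ((q : ℤ) ^ 2 - 1) * (q + 1) * ((q ^ 2 - q + 1) * m)
        = (q ^ 3 + 1) * ((q ^ 2 - 1) * m) := by ring
    have e2 : ((q : ℤ) ^ 3 + 1) * ((q ^ 2 - 1) * m)
        = q ^ 14 + q ^ 9 * q ^ 12 - ((q ^ 9 + 1) + ((q ^ 6 - 1) + q ^ 9 * (q ^ 4 - 1))) := by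
      linarith
    rw [e1, e2]; ring
  have h3 := mul_left_cancel₀ hfac h1
  have hdvd : ((q : ℤ) ^ 2 - q + 1) ∣ 1 := by
    refine ⟨(m : ℤ) - (-1 - q + q ^ 3 + q ^ 4 - q ^ 7 + q ^ 8 + 2 * q ^ 10 - q ^ 11 + q ^ 12
      - q ^ 13 + q ^ 14 + q ^ 16), ?_⟩
    rw [mul_sub, h3]; ring
  have := Int.le_of_dvd one_pos hdvd
  nlinarith

end Work


/-- The negation of the preceding statement: For some finite field of order q^2 there are q^9+1 totally isotropic 3-dim subspaces of F^10 (Hermitian form Σx_i y_i^q), pairwise with π′∩π^⊥=0, such that no totally isotropic 2-dim subspace meets three of them nontrivially. -/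
theorem result :
    ¬ (∃ (F : Type) (_ : Field F) (_ : Fintype F) (q : ℕ), Fintype.card F = q ^ 2 ∧
      ∃ M : Finset (Submodule F (Fin 10 → F)),
        M.card = q ^ 9 + 1 ∧
        (∀ π ∈ M, Module.finrank F π = 3 ∧
          ∀ x ∈ π, ∀ y ∈ π, ∑ i : Fin 10, x i * y i ^ q = 0) ∧
        (∀ π ∈ M, ∀ π' ∈ M, π ≠ π' →
          ∀ v ∈ π', (∀ u ∈ π, ∑ i : Fin 10, u i * v i ^ q = 0) → v = 0) ∧
        (∀ L : Submodule F (Fin 10 → F), Module.finrank F L = 2 →
          (∀ x ∈ L, ∀ y ∈ L, ∑ i : Fin 10, x i * y i ^ q = 0) →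
          ∀ a ∈ M, ∀ b ∈ M, ∀ c ∈ M, a ≠ b → a ≠ c → b ≠ c →
            ¬ (L ⊓ a ≠ ⊥ ∧ L ⊓ b ≠ ⊥ ∧ L ⊓ c ≠ ⊥))) := by
  rintro ⟨F, iF, iFin, q, hq, M, hcard, hdim, hsep, hblt⟩
  have S : Sys q M :=
    { hq := hq
      card := hcard
      dim := fun π hπ => (hdim π hπ).1
      iso := fun π hπ => (hdim π hπ).2
      sep := hsep
      blt := hblt }
  have hne : M.Nonempty := by
    rw [← Finset.card_pos, hcard]; exact Nat.succ_pos _
  obtain ⟨k, hk⟩ := hne
  have hk0 : k ≠ ⊥ := by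
    intro h
    have := S.dim k hk
    rw [h, finrank_bot] at this
    omega
  obtain ⟨x, hx, hx0⟩ := (Submodule.ne_bot_iff k).1 hk0
  exact arith q (Sys.Eset q M x).card (two_le_q q hq) (S.Eset_dvd x) (S.Eset_count hk hx hx0)

end Pool.Agent.S05942
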