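import Pool.Statements.S05950
import Pool.Agent.Helper998.Removable

set_option autoImplicit false
open Pool Pool.MP_6a070e_co

namespace Pool.Agent.S05950

open Pool.Agent.Helper998.VecMatroid

/-- The negation of the preceding statement: Every nonempty finite connected binary matroid (circuits meet cocircuits evenly) whose cocircuits all have at least 5 elements has a circuit D whose deletion leaves a matroid where any two distinct elements share a circuit. -/
theorem result :
    ¬ (∀ (α : Type) [Fintype α] (M : Matroid α),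
      M.E.Nonempty →
      (∀ C K : Set α, M.IsCircuit C → M.IsCocircuit K → Even (C ∩ K).ncard) →
      (∀ e ∈ M.E, ∀ f ∈ M.E, e ≠ f → ∃ C : Set α, M.IsCircuit C ∧ e ∈ C ∧ f ∈ C) →
      (∀ K : Set α, M.IsCocircuit K → 5 ≤ K.ncard) →
      ∃ D : Set α, M.IsCircuit D ∧
        ∀ e ∈ (M.delete D).E, ∀ f ∈ (M.delete D).E, e ≠ f →
          ∃ C : Set α, (M.delete D).IsCircuit C ∧ e ∈ C ∧ f ∈ C) := by
  intro hall
  obtain ⟨n, m, v, hn, hconn, hcoc, hmeet, htwo⟩ := Pool.Agent.Helper998.Removable.main 5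
  obtain ⟨D, hD, hrem⟩ := hall (Fin n) (vecMatroid (ZMod 2) v) ⟨⟨0, hn⟩, Set.mem_univ _⟩
    (fun C K hC hK => Pool.Agent.Helper998.Removable.even_inter v hC hK)
    (fun e _ f _ _ => hconn e f) hcoc
  obtain ⟨e, f, he, hf, hef⟩ := htwo D hD
  obtain ⟨C, hC, -, -⟩ := hrem e ⟨Set.mem_univ _, he⟩ f ⟨Set.mem_univ _, hf⟩ hef
  rw [Matroid.delete_isCircuit_iff] at hC
  obtain ⟨x, hxC, hxD⟩ := hmeet C D hC.1 hD
  exact Set.disjoint_left.1 hC.2 hxC hxD

end Pool.Agent.S05950
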