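import Pool.Statements.S05955
import Pool.Agent.Helper598.Parallel

set_option autoImplicit false
open Pool Pool.MP_6adf2c_co

namespace Pool.Agent.S05955

open Pool.Agent.Helper598.Parallel in
/-- index equivalence between the two column sets -/
def colEquiv (n m : ℕ) : Fin m ⊕ (Fin n × Option Unit) ≃ Fin m ⊕ (Fin n ⊕ Fin n) where
  toFun := Sum.elim Sum.inl (fun q => q.2.elim (Sum.inr (Sum.inr q.1)) (fun _ => Sum.inr (Sum.inl q.1)))
  invFun := Sum.elim Sum.inl (Sum.elim (fun i => Sum.inr (i, some ())) (fun i => Sum.inr (i, none)))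
  left_inv := by
    rintro (j | ⟨i, _ | c⟩) <;> rfl
  right_inv := by
    rintro (j | i | i) <;> rfl

open Pool.Agent.Helper598.Parallel in
lemma finrank_eq (n m : ℕ) (A : Fin m → ℝ) (S : Set (Fin n × Fin m)) :
    Module.finrank ℝ (Submodule.span ℝ ((fun e : Fin n × Fin m =>
      row (κ := Unit) (fun j _ => A j) e) '' S))
    = Module.finrank ℝ (Submodule.span ℝ ((fun p : Fin n × Fin m =>
          (Sum.elim (fun j : Fin m => if j = p.2 then (1:ℝ) else 0)
            (Sum.elim (fun i : Fin n => if i = p.1 then A p.2 else 0)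
              (fun i : Fin n => if i = p.1 then (1:ℝ) else 0)) :
            Fin m ⊕ (Fin n ⊕ Fin n) → ℝ)) '' S)) := by
  apply finrank_reindex (colEquiv n m)
  rintro e (j | ⟨i, _ | c⟩)
  · rfl
  · rfl
  · rfl

/-- If the bipartite vertex-face graph of an incidence set I is 4-connected, then every vertex-face pair lies in the closure of I in the generic 2-parallel matroid (generic rank = max rank over normals), i.e. I is 2-tight. -/
theorem result :
  ∀ (n m : ℕ) (I : Finset (Fin n × Fin m)),
    4 < n + m →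
    (∀ X : Finset (Fin n ⊕ Fin m), X.card < 4 →
      ((SimpleGraph.fromRel (fun a b : Fin n ⊕ Fin m =>
          ∃ p ∈ I, a = Sum.inl p.1 ∧ b = Sum.inr p.2)).induce
        ((↑X : Set (Fin n ⊕ Fin m))ᶜ)).Connected) →
    ∀ (r : Fin n × Fin m) (A : Fin m → ℝ), ∃ B : Fin m → ℝ,
      Module.finrank ℝ (Submodule.span ℝ ((fun p : Fin n × Fin m =>
          (Sum.elim (fun j : Fin m => if j = p.2 then (1:ℝ) else 0)
            (Sum.elim (fun i : Fin n => if i = p.1 then A p.2 else 0)
              (fun i : Fin n => if i = p.1 then (1:ℝ) else 0)) :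
            Fin m ⊕ (Fin n ⊕ Fin n) → ℝ)) ''
          (↑(insert r I) : Set (Fin n × Fin m))))
      ≤ Module.finrank ℝ (Submodule.span ℝ ((fun p : Fin n × Fin m =>
          (Sum.elim (fun j : Fin m => if j = p.2 then (1:ℝ) else 0)
            (Sum.elim (fun i : Fin n => if i = p.1 then B p.2 else 0)
              (fun i : Fin n => if i = p.1 then (1:ℝ) else 0)) :
            Fin m ⊕ (Fin n ⊕ Fin n) → ℝ)) ''
          (↑I : Set (Fin n × Fin m)))) := by
  intro n m I hnm hconn r A
  obtain ⟨B, hB⟩ := Pool.Agent.Helper598.Parallel.conn_real (V := Fin n) (F := Fin m) (κ := Unit) I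
    (by simp only [Fintype.card_fin]; omega)
    (by
      intro X hX
      apply hconn X
      simpa using hX)
  refine ⟨fun j => B j (), ?_⟩
  have hV : Nonempty (Fin n) := ⟨r.1⟩
  have hup := Pool.Agent.Helper598.Parallel.upper_bound (κ := Unit) (fun j _ => A j)
    (↑(insert r I) : Set (Fin n × Fin m))
  rw [finrank_eq] at hup
  have hlow := finrank_eq n m (fun j => B j ()) (↑I : Set (Fin n × Fin m))
  simp only [Fintype.card_unit, Fintype.card_fin] at hup hB
  have hBeq : (fun (j : Fin m) (_ : Unit) => B j ()) = B := by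
    funext j u; cases u; rfl
  rw [hBeq] at hlow
  rw [hlow] at hB
  exact Nat.le_of_add_le_add_right (le_trans hup hB)

end Pool.Agent.S05955
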