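import Pool.Statements.S05968

set_option autoImplicit false
open Pool Pool.MP_6b8a7b_co

namespace Pool.Agent.S05968

/-- The negation of the preceding statement: Take any hypergraph whose edges are all finite and in which every vertex lies in some edge. Then some edge cover C exists such that, for every edge cover C', the cardinality of C minus C' is at most the cardinality of C' minus C. -/
theorem result :
    ¬ (∀ (V : Type) (E : Set (Set V)),
      (∀ e ∈ E, e.Finite) →
      (∀ v : V, ∃ e ∈ E, v ∈ e) →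
      ∃ C ⊆ E, ⋃₀ C = Set.univ ∧
        ∀ C' ⊆ E, ⋃₀ C' = Set.univ →
          Cardinal.mk ↥(C \ C') ≤ Cardinal.mk ↥(C' \ C)) := by
  intro h
  obtain ⟨C, hCE, hCcov, hC⟩ := h ℕ {e : Set ℕ | e.Finite} (fun e he => he)
    (fun v => ⟨{v}, Set.finite_singleton v, rfl⟩)
  -- the cover is infinite
  have hinf : C.Infinite := by
    intro hfin
    have : (⋃₀ C).Finite := hfin.sUnion (fun e he => hCE he)
    rw [hCcov] at this
    exact Set.infinite_univ this
  obtain ⟨a, ha⟩ := hinf.nonempty
  obtain ⟨b, hb, hba⟩ : ∃ b ∈ C, b ≠ a := by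
    have := (hinf.sdiff (Set.finite_singleton a)).nonempty
    obtain ⟨b, hb⟩ := this
    exact ⟨b, hb.1, fun h => hb.2 (by simp [h])⟩
  have hab : a ≠ b := fun h => hba h.symm
  have hkey := hC ((C \ {a, b}) ∪ {a ∪ b})
    (by
      rintro e (he | he)
      · exact hCE he.1
      · rw [Set.mem_singleton_iff] at he
        subst he
        exact (hCE ha).union (hCE hb))
    (by
      apply Set.eq_univ_of_forall
      intro v
      have hv : v ∈ ⋃₀ C := by rw [hCcov]; trivial
      obtain ⟨e, he, hve⟩ := hv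
      by_cases hea : e = a
      · exact ⟨a ∪ b, Or.inr rfl, Or.inl (hea ▸ hve)⟩
      by_cases heb : e = b
      · exact ⟨a ∪ b, Or.inr rfl, Or.inr (heb ▸ hve)⟩
      exact ⟨e, Or.inl ⟨he, by simp [hea, heb]⟩, hve⟩)
  by_cases hu : a ∪ b ∈ C
  · -- the new cover is contained in the old one
    have h0 : (((C \ {a, b}) ∪ {a ∪ b}) \ C : Set (Set ℕ)) = ∅ := by
      ext e
      simp only [Set.mem_sdiff, Set.mem_union, Set.mem_singleton_iff, Set.mem_empty_iff_false,
        iff_false, not_and, not_not]
      rintro (he | he)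
      · exact he.1
      · rw [he]; exact hu
    rw [h0, show Cardinal.mk ↥(∅ : Set (Set ℕ)) = 0 from Cardinal.mk_eq_zero _,
      nonpos_iff_eq_zero, Cardinal.mk_set_eq_zero_iff] at hkey
    by_cases hau : a = a ∪ b
    · have hbu : b ≠ a ∪ b := fun h' => hab (hau.trans h'.symm)
      have : b ∈ (C \ ((C \ {a, b}) ∪ {a ∪ b}) : Set (Set ℕ)) := by
        refine ⟨hb, ?_⟩
        rintro (h1 | h1)
        · exact h1.2 (by simp)
        · exact hbu h1
      rw [hkey] at this
      exact this
    · have : a ∈ (C \ ((C \ {a, b}) ∪ {a ∪ b}) : Set (Set ℕ)) := by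
        refine ⟨ha, ?_⟩
        rintro (h1 | h1)
        · exact h1.2 (by simp)
        · exact hau h1
      rw [hkey] at this
      exact this
  · have h1 : (((C \ {a, b}) ∪ {a ∪ b}) \ C : Set (Set ℕ)) ⊆ {a ∪ b} := by
      rintro e ⟨he | he, hne⟩
      · exact absurd he.1 hne
      · exact he
    have h2 : ({a, b} : Set (Set ℕ)) ⊆ C \ ((C \ {a, b}) ∪ {a ∪ b}) := by
      rintro e he
      have heC : e ∈ C := by
        rcases he with he | he
        · rw [he]; exact ha
        · rw [Set.mem_singleton_iff] at he; rw [he]; exact hb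
      refine ⟨heC, ?_⟩
      rintro (h3 | h3)
      · exact h3.2 he
      · exact hu (h3 ▸ heC)
    have h3 : Cardinal.mk ↥({a, b} : Set (Set ℕ)) ≤ Cardinal.mk ↥({a ∪ b} : Set (Set ℕ)) :=
      (Cardinal.mk_le_mk_of_subset h2).trans (hkey.trans (Cardinal.mk_le_mk_of_subset h1))
    rw [Cardinal.mk_singleton, Cardinal.mk_insert (by simpa using hab), Cardinal.mk_singleton] at h3
    have h4 : (2 : Cardinal) ≤ 1 := by
      have : (1 : Cardinal) + 1 = 2 := one_add_one_eq_two
      rwa [this] at h3
    exact absurd h4 (by norm_num)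

end Pool.Agent.S05968
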