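import Pool.Statements.S05971
import Pool.Agent.Helper254.MS.Main
import Pool.Agent.Helper254.MS.D1
import Pool.Agent.Helper254.MS.D2
import Pool.Agent.Helper254.MS.D4
import Pool.Agent.Helper254.MS.D5

set_option autoImplicit false
open Pool Pool.MP_6c214f_co

namespace Pool.Agent.S05971

/-- For all large n, every n-vertex diameter-2 graph with total domination number 3 that drops below 3 on adding any edge has at least ⌊(n²−4)/4⌋ edges, with equality iff it is a blown-up 5-cycle with blob sizes 1, ⌊(n−3)/2⌋ or ⌈(n−3)/2⌉, 1, ≥1, ≥1. -/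
theorem result :
    ∃ N : ℕ, ∀ n : ℕ, N ≤ n → 2 ≤ n →
      ∀ (G : SimpleGraph (Fin n)) [DecidableRel G.Adj],
        ((∃ S : Finset (Fin n), S.card = 3 ∧ ∀ x, ∃ w ∈ S, G.Adj x w) ∧
         (∀ S : Finset (Fin n), S.card ≤ 2 → ¬ ∀ x, ∃ w ∈ S, G.Adj x w) ∧
         (∀ u v : Fin n, u ≠ v → ¬ G.Adj u v →
            ∃ S : Finset (Fin n), S.card ≤ 2 ∧
              ∀ x, ∃ w ∈ S, (G.Adj x w ∨ (x = u ∧ w = v) ∨ (x = v ∧ w = u)))) →
        G.diam = 2 →
        ((n ^ 2 - 4) / 4 ≤ G.edgeFinset.card ∧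
         (G.edgeFinset.card = (n ^ 2 - 4) / 4 ↔
           ∃ f : Fin n → Fin 5,
             (∀ x y : Fin n, G.Adj x y ↔
                (x ≠ y ∧ (f x = f y ∨ f y = f x + 1 ∨ f x = f y + 1))) ∧
             (Finset.univ.filter (fun x => f x = 0)).card = 1 ∧
             (Finset.univ.filter (fun x => f x = 2)).card = 1 ∧
             ((Finset.univ.filter (fun x => f x = 1)).card = (n - 3) / 2 ∨
              (Finset.univ.filter (fun x => f x = 1)).card = (n - 2) / 2) ∧
             1 ≤ (Finset.univ.filter (fun x => f x = 3)).card ∧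
             1 ≤ (Finset.univ.filter (fun x => f x = 4)).card)) := by
  obtain ⟨N, hN⟩ := Pool.Agent.Helper254.MS.main
  refine ⟨max N 4, ?_⟩
  intro n hn hn2 G _ h hd
  obtain ⟨-, h2, h3⟩ := h
  have hn4 : 4 ≤ n := le_trans (le_max_right _ _) hn
  have hcrit := Pool.Agent.Helper254.MS.crit_compl G h2 h3
  have hnb := Pool.Agent.Helper254.MS.nonbip hn2 G h2 hd
  have hC : Pool.Agent.Helper254.MS.Concl Gᶜ :=
    hN (Fin n) Gᶜ (by rw [Fintype.card_fin]; exact le_trans (le_max_left _ _) hn) hcrit hnb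
  have hF := Pool.Agent.Helper254.MS.final_conv hn4 G hC
  refine ⟨hF.1, fun h => ?_, fun h => ?_⟩
  · obtain ⟨f, g1, g2, g3, g4, g5, g6⟩ := hF.2 h
    refine ⟨f, g1, ?_, ?_, ?_, ?_, ?_⟩
    · convert g2
    · convert g3
    · convert g4
    · convert g5
    · convert g6
  · obtain ⟨f, g1, g2, g3, g4, g5, g6⟩ := h
    refine Pool.Agent.Helper254.MS.converse hn4 G f g1 ?_ ?_ ?_ ?_ ?_
    · convert g2
    · convert g3
    · convert g4
    · convert g5
    · convert g6

end Pool.Agent.S05971
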