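import Pool.Statements.S05984

set_option autoImplicit false
open Pool Pool.MP_6d5213_co

namespace Pool.Agent.S05984

open Set

/-! ### Vector matroids -/

theorem finrank_span_image {α F W : Type} [Finite α] [Field F] [AddCommGroup W]
    [Module F W] (v : α → W) (I : Set α) (hI : LinearIndepOn F v I) :
    Module.finrank F (Submodule.span F (v '' I)) = I.ncard := by
  classical
  have : Fintype I := Fintype.ofFinite I
  have h := finrank_span_eq_card (R := F) (b := fun x : I => v x) hI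
  rw [← Set.image_eq_range] at h
  rw [h, ← Nat.card_eq_fintype_card]
  rfl

theorem aug {α F W : Type} [Finite α] [Field F] [AddCommGroup W]
    [Module F W] (v : α → W) (I J : Set α) (hI : LinearIndepOn F v I)
    (hJ : LinearIndepOn F v J) (hIJ : I.ncard < J.ncard) :
    ∃ e ∈ J, e ∉ I ∧ LinearIndepOn F v (insert e I) := by
  by_contra hcon
  push Not at hcon
  have hsub : ∀ e ∈ J, v e ∈ Submodule.span F (v '' I) := by
    intro e he
    by_contra hns
    have heI : e ∉ I := fun h => hns (Submodule.subset_span ⟨e, h, rfl⟩)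
    exact hcon e he heI (hI.insert hns)
  have hle : Submodule.span F (v '' J) ≤ Submodule.span F (v '' I) := by
    rw [Submodule.span_le]
    rintro _ ⟨e, he, rfl⟩
    exact hsub e he
  have : FiniteDimensional F (Submodule.span F (v '' I)) :=
    FiniteDimensional.span_of_finite F (Set.toFinite _)
  have := Submodule.finrank_mono hle
  rw [finrank_span_image v I hI, finrank_span_image v J hJ] at this
  omega

/-- The vector matroid of a finite family `v` of vectors, with ground set everything. -/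
noncomputable def linMatroid {α : Type} [Finite α] (F : Type) [Field F] {W : Type} [AddCommGroup W]
    [Module F W] (v : α → W) : Matroid α :=
  (IndepMatroid.ofFinite (E := Set.univ) Set.finite_univ
    (fun I => LinearIndepOn F v I)
    (linearIndepOn_empty F v)
    (fun _ _ hJ hIJ => hJ.mono hIJ)
    (fun I J hI hJ hIJ => aug v I J hI hJ hIJ)
    (fun I _ => Set.subset_univ I)).matroid

@[simp] theorem linMatroid_E {α : Type} [Finite α] (F : Type) [Field F] {W : Type} [AddCommGroup W]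
    [Module F W] (v : α → W) : (linMatroid F v).E = Set.univ := rfl

@[simp] theorem linMatroid_indep {α : Type} [Finite α] (F : Type) [Field F] {W : Type}
    [AddCommGroup W] [Module F W] (v : α → W) (I : Set α) :
    (linMatroid F v).Indep I ↔ LinearIndepOn F v I := by
  simp [linMatroid]

theorem seg {K : Type} [Field K] (σ : K →+* K)
    (x1 y1 x2 y2 d1 d2 : K)
    (ha : σ y1 + y1 = x1 * σ x1) (hb : σ y2 + y2 = x2 * σ x2)
    (hD : σ (d1 * y1 + d2 * y2) + (d1 * y1 + d2 * y2)
      = (d1 * x1 + d2 * x2) * σ (d1 * x1 + d2 * x2)) (hd : d1 + d2 = 1) :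
    d1 * σ d2 * (σ y2 + y1 - x1 * σ x2) + d2 * σ d1 * (σ y1 + y2 - x2 * σ x1) = 0 := by
  have hd' : σ d1 + σ d2 = 1 := by rw [← map_add, hd, map_one]
  simp only [map_add, map_mul] at hD
  linear_combination hD + (σ d1 * σ y1 + σ d2 * σ y2) * hd + (d1 * y1 + d2 * y2) * hd'
    - d1 * σ d1 * ha - d2 * σ d2 * hb

theorem core {K : Type} [Field K] (σ : K →+* K) (hσ : ∀ x, σ (σ x) = x)
    (x1 y1 x2 y2 x3 y3 d1 d2 e1 e2 f1 f2 : K)
    (ha : σ y1 + y1 = x1 * σ x1) (hb : σ y2 + y2 = x2 * σ x2)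
    (hc : σ y3 + y3 = x3 * σ x3)
    (hD : σ (d1 * y1 + d2 * y2) + (d1 * y1 + d2 * y2)
      = (d1 * x1 + d2 * x2) * σ (d1 * x1 + d2 * x2)) (hd : d1 + d2 = 1)
    (hE : σ (e1 * y2 + e2 * y3) + (e1 * y2 + e2 * y3)
      = (e1 * x2 + e2 * x3) * σ (e1 * x2 + e2 * x3)) (he : e1 + e2 = 1)
    (hF : σ (f1 * y3 + f2 * y1) + (f1 * y3 + f2 * y1)
      = (f1 * x3 + f2 * x1) * σ (f1 * x3 + f2 * x1)) (hf : f1 + f2 = 1)
    (hM : d1 * e1 * f1 + d2 * e2 * f2 = 0)
    (hne : d1 * e1 * f1 ≠ 0)
    (hdet : (x2 * y3 - x3 * y2) - (x1 * y3 - x3 * y1) + (x1 * y2 - x2 * y1) ≠ 0) : False := by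
  have h1 := seg σ x1 y1 x2 y2 d1 d2 ha hb hD hd
  have h2 := seg σ x2 y2 x3 y3 e1 e2 hb hc hE he
  have h3 := seg σ x3 y3 x1 y1 f1 f2 hc ha hF hf
  set γ := σ y2 + y1 - x1 * σ x2 with hγ
  set α := σ y3 + y2 - x2 * σ x3 with hα
  set β := σ y1 + y3 - x3 * σ x1 with hβ
  have hγ' : σ γ = σ y1 + y2 - x2 * σ x1 := by rw [hγ]; simp only [map_add, map_sub, map_mul, hσ]; ring
  have hα' : σ α = σ y2 + y3 - x3 * σ x2 := by rw [hα]; simp only [map_add, map_sub, map_mul, hσ]; ring
  have hβ' : σ β = σ y3 + y1 - x1 * σ x3 := by rw [hβ]; simp only [map_add, map_sub, map_mul, hσ]; ring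
  rw [← hγ'] at h1
  rw [← hα'] at h2
  rw [← hβ'] at h3
  -- Gram determinant
  have hgram : α * β * γ + σ α * σ β * σ γ
      = ((x2 * y3 - x3 * y2) - (x1 * y3 - x3 * y1) + (x1 * y2 - x2 * y1))
        * σ ((x2 * y3 - x3 * y2) - (x1 * y3 - x3 * y1) + (x1 * y2 - x2 * y1)) := by
    simp only [map_add, map_sub, map_mul]
    rw [hγ', hα', hβ', hγ, hα, hβ]
    linear_combination
      ((σ y3 + y2 - x2 * σ x3) * (σ y2 + y3 - x3 * σ x2)
        - (σ y2 + y2 - x2 * σ x2) * (σ y3 + y3 - x3 * σ x3)) * ha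
      + ((σ y1 + y3 - x3 * σ x1) * (σ y3 + y1 - x1 * σ x3)) * hb
      + ((σ y2 + y1 - x1 * σ x2) * (σ y1 + y2 - x2 * σ x1)) * hc
  have hM' : σ d1 * σ e1 * σ f1 + σ d2 * σ e2 * σ f2 = 0 := by
    have := congrArg σ hM
    simpa [map_add, map_mul] using this
  -- product relation
  have hprod : (d1 * e1 * f1) * σ (d1 * e1 * f1) * (α * β * γ + σ α * σ β * σ γ) = 0 := by
    simp only [map_mul]
    linear_combination (d1 * e1 * f1 * (α * β * γ)) * hM'
      + (σ d1 * σ e1 * σ f1 * (σ α * σ β * σ γ)) * hM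
      - (e1 * σ e2 * α * (f1 * σ f2 * β)) * h1
      + (d2 * σ d1 * σ γ * (f1 * σ f2 * β)) * h2
      - (d2 * σ d1 * σ γ * (e2 * σ e1 * σ α)) * h3
  have hne' : σ (d1 * e1 * f1) ≠ 0 := by
    rw [Ne, map_eq_zero]; exact hne
  rw [hgram] at hprod
  have hdet' : σ ((x2 * y3 - x3 * y2) - (x1 * y3 - x3 * y1) + (x1 * y2 - x2 * y1)) ≠ 0 := by
    rw [Ne, map_eq_zero]; exact hdet
  exact (mul_ne_zero (mul_ne_zero hne hne') (mul_ne_zero hdet hdet')) hprod
theorem tri_cyclic (i j k : Fin 4) (hij : i ≠ j) (hik : i ≠ k) (hjk : j ≠ k) :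
    ¬ (SimpleGraph.fromEdgeSet ({s(i,j), s(i,k), s(j,k)} : Set (Sym2 (Fin 4)))).IsAcyclic := by
  intro h
  have h3 := h.cliqueFree (n := 3) le_rfl
  refine h3 {i, j, k} ?_
  rw [SimpleGraph.is3Clique_triple_iff]
  refine ⟨?_, ?_, ?_⟩ <;> simp [SimpleGraph.fromEdgeSet_adj, hij, hik, hjk]

theorem star_acyclic :
    (SimpleGraph.fromEdgeSet ({s(0,1), s(0,2), s(0,3)} : Set (Sym2 (Fin 4)))).IsAcyclic := by
  refine SimpleGraph.IsAcyclic.anti ?_ (SimpleGraph.isAcyclic_starGraph (0 : Fin 4))
  intro x y hxy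
  rw [SimpleGraph.fromEdgeSet_adj] at hxy
  rw [SimpleGraph.starGraph_adj]
  refine ⟨hxy.2, ?_⟩
  obtain ⟨h, -⟩ := hxy
  simp only [Set.mem_insert_iff, Set.mem_singleton_iff, Sym2.eq_iff] at h
  rcases h with (⟨h, -⟩ | ⟨-, h⟩) | (⟨h, -⟩ | ⟨-, h⟩) | (⟨h, -⟩ | ⟨-, h⟩) <;> simp [h]

theorem indep_triple {α F W : Type} [Field F] [AddCommGroup W] [Module F W] (u : α → W) (a b c : α)
    (hab : a ≠ b) (hac : a ≠ c) (hbc : b ≠ c) :
    LinearIndepOn F u ({a, b, c} : Set α) ↔
      ∀ x y z : F, x • u a + y • u b + z • u c = 0 → x = 0 ∧ y = 0 ∧ z = 0 := by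
  classical
  have hs : ({a, b, c} : Set α) = (({a, b, c} : Finset α) : Set α) := by simp
  rw [hs, linearIndepOn_finset_iff]
  constructor
  · intro h x y z hxyz
    have := h (fun i => if i = a then x else if i = b then y else z) (by
      rw [Finset.sum_insert (by simp [hab, hac]), Finset.sum_insert (by simp [hbc]),
        Finset.sum_singleton]
      simp only [if_true, hab.symm, hac.symm, hbc.symm, if_false]
      rw [← hxyz]; abel)
    refine ⟨?_, ?_, ?_⟩
    · simpa using this a (by simp)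
    · simpa [hab.symm] using this b (by simp)
    · simpa [hac.symm, hbc.symm] using this c (by simp)
  · intro h f hf i hi
    rw [Finset.sum_insert (by simp [hab, hac]), Finset.sum_insert (by simp [hbc]),
        Finset.sum_singleton] at hf
    obtain ⟨h1, h2, h3⟩ := h (f a) (f b) (f c) (by rw [← hf]; abel)
    simp only [Finset.mem_insert, Finset.mem_singleton] at hi
    rcases hi with rfl | rfl | rfl <;> assumption

theorem card_le_three {α F : Type} [Finite α] [Field F] (u : α → Fin 3 → F) (I : Set α)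
    (h : LinearIndepOn F u I) : I.ncard ≤ 3 := by
  classical
  have : Fintype I := Fintype.ofFinite I
  have h2 := h.fintype_card_le_finrank
  rw [Module.finrank_fin_fun] at h2
  rw [← Nat.card_coe_set_eq, Nat.card_eq_fintype_card]
  exact h2

/-- In a rank 3 situation with no loops, a minor with three independent elements is a
restriction. -/
theorem minor_restrict {α : Type} (M : Matroid α)
    (hloop : ∀ e, M.Indep {e}) (hr : ∀ I : Set α, M.Indep I → I.ncard ≤ 3)
    [Finite α] (N : Matroid α) (hN : Matroid.IsMinor N M) (I : Set α) (hI : N.Indep I)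
    (hI3 : I.ncard = 3) (J : Set α) (hJ : J ⊆ N.E) : N.Indep J ↔ M.Indep J := by
  obtain ⟨C, D, rfl⟩ := hN
  have hC : C = ∅ := by
    by_contra hne
    obtain ⟨e, he⟩ := Set.nonempty_iff_ne_empty.2 hne
    have h1 : (M.contract C).Indep I := hI.of_delete
    have h2 : M.contract C = (M.contract {e}).contract C := by
      rw [Matroid.contract_contract]
      congr 1
      exact (Set.union_eq_self_of_subset_left (Set.singleton_subset_iff.2 he)).symm
    rw [h2] at h1
    have h3 := h1.of_contract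
    rw [(Matroid.indep_singleton.1 (hloop e)).contractElem_indep_iff] at h3
    have h4 := hr _ h3.2
    rw [Set.ncard_insert_of_notMem h3.1, hI3] at h4
    omega
  subst hC
  rw [Matroid.contract_empty] at hJ ⊢
  rw [Matroid.delete_indep_iff]
  rw [Matroid.delete_ground] at hJ
  constructor
  · exact fun h => h.1
  · intro h
    exact ⟨h, Set.disjoint_of_subset_left hJ Set.disjoint_sdiff_left⟩
/-- Points of the affine Hermitian curve. -/
abbrev Pt {K : Type} [Field K] (σ : K →+* K) : Type :=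
  {z : K × K // σ z.2 + z.2 = z.1 * σ z.1}

/-- The homogeneous coordinates of a point. -/
def vec {K : Type} [Field K] (σ : K →+* K) (z : Pt σ) : Fin 3 → K := ![1, z.1.1, z.1.2]

theorem pt_ext {K : Type} [Field K] {σ : K →+* K} {a b : Pt σ} (h1 : a.1.1 = b.1.1)
    (h2 : a.1.2 = b.1.2) : a = b := Subtype.ext (Prod.ext h1 h2)

theorem rel_iff {K : Type} [Field K] {σ : K →+* K} (a b c : Pt σ) (x y z : K) :
    x • vec σ a + y • vec σ b + z • vec σ c = 0 ↔
      x + y + z = 0 ∧ x * a.1.1 + y * b.1.1 + z * c.1.1 = 0 ∧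
        x * a.1.2 + y * b.1.2 + z * c.1.2 = 0 := by
  constructor
  · intro h
    refine ⟨?_, ?_, ?_⟩
    · simpa [vec] using congrFun h 0
    · simpa [vec] using congrFun h 1
    · simpa [vec] using congrFun h 2
  · rintro ⟨h1, h2, h3⟩
    ext i
    fin_cases i
    · simpa [vec] using h1
    · simpa [vec] using h2
    · simpa [vec] using h3

theorem indep_pair {K : Type} [Field K] {σ : K →+* K} (a b : Pt σ) :
    LinearIndepOn K (vec σ) ({a, b} : Set (Pt σ)) := by
  by_cases hab : a = b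
  · subst hab
    rw [Set.pair_eq_singleton]
    apply LinearIndepOn.singleton
    intro h
    have := congrFun h 0
    simp [vec] at this
  · rw [LinearIndepOn.pair_iff _ hab]
    intro x y h
    have h0 : x + y = 0 := by simpa [vec] using congrFun h 0
    have h1 : x * a.1.1 + y * b.1.1 = 0 := by simpa [vec] using congrFun h 1
    have h2 : x * a.1.2 + y * b.1.2 = 0 := by simpa [vec] using congrFun h 2
    have hy : y = -x := by linear_combination h0
    subst hy
    have hx : x = 0 := by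
      by_contra hx
      apply hab
      apply pt_ext
      · apply mul_left_cancel₀ hx; linear_combination h1
      · apply mul_left_cancel₀ hx; linear_combination h2
    subst hx
    simp

theorem collinear {K : Type} [Field K] {σ : K →+* K} (a b d : Pt σ) (hab : a ≠ b) (had : a ≠ d)
    (hbd : b ≠ d) (h : ¬ LinearIndepOn K (vec σ) ({a, b, d} : Set (Pt σ))) :
    ∃ x y : K, x + y = 1 ∧ d.1.1 = x * a.1.1 + y * b.1.1 ∧ d.1.2 = x * a.1.2 + y * b.1.2 ∧
      x ≠ 0 ∧ y ≠ 0 := by
  rw [indep_triple _ a b d hab had hbd] at h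
  push Not at h
  obtain ⟨x, y, z, hrel, hne⟩ := h
  rw [rel_iff] at hrel
  obtain ⟨h0, h1, h2⟩ := hrel
  have hz : z ≠ 0 := by
    intro hz
    subst hz
    have := (LinearIndepOn.pair_iff (vec σ) hab).1 (indep_pair a b) x y (by
      ext i
      fin_cases i
      · simpa [vec] using h0
      · simpa [vec] using h1
      · simpa [vec] using h2)
    exact hne this.1 this.2 rfl
  have hxy : -x / z + -y / z = 1 := by
    field_simp
    linear_combination -h0
  have hd1 : d.1.1 = -x / z * a.1.1 + -y / z * b.1.1 := by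
    field_simp
    linear_combination h1
  have hd2 : d.1.2 = -x / z * a.1.2 + -y / z * b.1.2 := by
    field_simp
    linear_combination h2
  refine ⟨-x / z, -y / z, hxy, hd1, hd2, ?_, ?_⟩
  · intro hx
    rw [hx, zero_add] at hxy
    rw [hx, hxy] at hd1 hd2
    exact hbd (pt_ext (by rw [hd1]; ring) (by rw [hd2]; ring))
  · intro hy
    rw [hy, add_zero] at hxy
    rw [hy, hxy] at hd1 hd2
    exact had (pt_ext (by rw [hd1]; ring) (by rw [hd2]; ring))

theorem no_quadrilateral {K : Type} [Field K] {σ : K →+* K} (hσ : ∀ x, σ (σ x) = x)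
    (a b c d e f : Pt σ) (hab : a ≠ b) (hac : a ≠ c) (hbc : b ≠ c)
    (had : a ≠ d) (hbd : b ≠ d) (hbe : b ≠ e) (hce : c ≠ e) (hcf : c ≠ f) (haf : a ≠ f)
    (hde : d ≠ e) (hdf : d ≠ f) (hef : e ≠ f)
    (habc : LinearIndepOn K (vec σ) ({a, b, c} : Set (Pt σ)))
    (habd : ¬ LinearIndepOn K (vec σ) ({a, b, d} : Set (Pt σ)))
    (hbce : ¬ LinearIndepOn K (vec σ) ({b, c, e} : Set (Pt σ)))
    (hcaf : ¬ LinearIndepOn K (vec σ) ({c, a, f} : Set (Pt σ)))
    (hefd : ¬ LinearIndepOn K (vec σ) ({e, f, d} : Set (Pt σ))) : False := by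
  obtain ⟨d1, d2, hd, hdx, hdy, hd1, hd2⟩ := collinear a b d hab had hbd habd
  obtain ⟨e1, e2, he, hex, hey, he1, he2⟩ := collinear b c e hbc hbe hce hbce
  obtain ⟨f1, f2, hf, hfx, hfy, hf1, hf2⟩ := collinear c a f hac.symm hcf haf hcaf
  obtain ⟨g1, g2, hg, hgx, hgy, hg1, hg2⟩ := collinear e f d hef hde.symm hdf.symm hefd
  have hdet : (b.1.1 * c.1.2 - c.1.1 * b.1.2) - (a.1.1 * c.1.2 - c.1.1 * a.1.2)
      + (a.1.1 * b.1.2 - b.1.1 * a.1.2) ≠ 0 := by
    intro h0
    have hmat : (!![1, a.1.1, a.1.2; 1, b.1.1, b.1.2; 1, c.1.1, c.1.2] :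
        Matrix (Fin 3) (Fin 3) K).det = 0 := by
      rw [Matrix.det_fin_three]
      simp
      linear_combination h0
    obtain ⟨w, hw, hw0⟩ := Matrix.exists_vecMul_eq_zero_iff.2 hmat
    rw [indep_triple _ a b c hab hac hbc] at habc
    have := habc (w 0) (w 1) (w 2) (by
      rw [rel_iff]
      refine ⟨?_, ?_, ?_⟩
      · have := congrFun hw0 0
        simpa [Matrix.vecMul, dotProduct, Fin.sum_univ_three] using this
      · have := congrFun hw0 1
        simpa [Matrix.vecMul, dotProduct, Fin.sum_univ_three] using this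
      · have := congrFun hw0 2
        simpa [Matrix.vecMul, dotProduct, Fin.sum_univ_three] using this)
    apply hw
    ext i
    fin_cases i
    · exact this.1
    · exact this.2.1
    · exact this.2.2
  rw [indep_triple _ a b c hab hac hbc] at habc
  obtain ⟨k1, k2, k3⟩ := habc (d1 - g2 * f2) (d2 - g1 * e1) (-(g1 * e2 + g2 * f1)) (by
    rw [rel_iff]
    refine ⟨?_, ?_, ?_⟩
    · linear_combination hd - g1 * he - g2 * hf - hg
    · rw [hex, hfx] at hgx
      linear_combination hgx - hdx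
    · rw [hey, hfy] at hgy
      linear_combination hgy - hdy)
  have hM : d1 * e1 * f1 + d2 * e2 * f2 = 0 := by
    linear_combination e1 * f1 * k1 + e2 * f2 * k2 - e1 * f2 * k3
  have hD := d.2
  rw [hdx, hdy] at hD
  have hE := e.2
  rw [hex, hey] at hE
  have hF := f.2
  rw [hfx, hfy] at hF
  exact core σ hσ a.1.1 a.1.2 b.1.1 b.1.2 c.1.1 c.1.2 d1 d2 e1 e2 f1 f2 a.2 b.2 c.2
    hD hd hE he hF hf hM (mul_ne_zero (mul_ne_zero hd1 he1) hf1) hdet
section Count

open Polynomial

variable {K : Type} [Field K] [Finite K] (p : ℕ) [hp : Fact p.Prime] [CharP K p]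
set_option linter.unusedSectionVars false

/-- The trace map to the fixed field. -/
def tr (K : Type) [Field K] (p : ℕ) [Fact p.Prime] [CharP K p] : K →+ K :=
  (frobenius K p).toAddMonoidHom + AddMonoidHom.id K

theorem tr_apply (y : K) : tr K p y = frobenius K p y + y := rfl

theorem card_ker_le : Nat.card (tr K p).ker ≤ p := by
  classical
  have : Fintype K := Fintype.ofFinite K
  have hp1 : 1 < p := hp.out.one_lt
  have hdeg : (X ^ p + X : K[X]).natDegree = p := by
    rw [natDegree_add_eq_left_of_natDegree_lt]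
    · exact natDegree_X_pow p
    · rw [natDegree_X_pow, natDegree_X]; exact hp1
  have hne : (X ^ p + X : K[X]) ≠ 0 := by
    intro h
    rw [h, natDegree_zero] at hdeg
    omega
  have hsub : ((tr K p).ker : Set K) ⊆ ((X ^ p + X : K[X]).roots.toFinset : Set K) := by
    intro y hy
    have hy' : y ^ p + y = 0 := by
      have := (AddMonoidHom.mem_ker).1 hy
      rwa [tr_apply, frobenius_def] at this
    rw [Finset.mem_coe, Multiset.mem_toFinset, mem_roots hne]
    simpa using hy'
  calc Nat.card (tr K p).ker = ((tr K p).ker : Set K).ncard := rfl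
    _ ≤ ((X ^ p + X : K[X]).roots.toFinset : Set K).ncard :=
        Set.ncard_le_ncard hsub (Finset.finite_toSet _)
    _ = (X ^ p + X : K[X]).roots.toFinset.card := Set.ncard_coe_finset _
    _ ≤ Multiset.card (X ^ p + X : K[X]).roots := Multiset.toFinset_card_le _
    _ ≤ (X ^ p + X : K[X]).natDegree := card_roots' _
    _ = p := hdeg

theorem card_fix_le : ({z : K | frobenius K p z = z}).ncard ≤ p := by
  classical
  have : Fintype K := Fintype.ofFinite K
  have hp1 : 1 < p := hp.out.one_lt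
  have hdeg : (X ^ p - X : K[X]).natDegree = p := FiniteField.X_pow_card_sub_X_natDegree_eq K hp1
  have hne : (X ^ p - X : K[X]) ≠ 0 := FiniteField.X_pow_card_sub_X_ne_zero K hp1
  have hsub : {z : K | frobenius K p z = z} ⊆ ((X ^ p - X : K[X]).roots.toFinset : Set K) := by
    intro y hy
    have hy' : y ^ p = y := by
      simpa [frobenius_def] using hy
    rw [Finset.mem_coe, Multiset.mem_toFinset, mem_roots hne]
    simp [hy']
  calc ({z : K | frobenius K p z = z}).ncard
      ≤ ((X ^ p - X : K[X]).roots.toFinset : Set K).ncard :=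
        Set.ncard_le_ncard hsub (Finset.finite_toSet _)
    _ = (X ^ p - X : K[X]).roots.toFinset.card := Set.ncard_coe_finset _
    _ ≤ Multiset.card (X ^ p - X : K[X]).roots := Multiset.toFinset_card_le _
    _ ≤ (X ^ p - X : K[X]).natDegree := card_roots' _
    _ = p := hdeg

theorem card_mul : Nat.card (tr K p).range * Nat.card (tr K p).ker = Nat.card K := by
  rw [AddSubgroup.card_eq_card_quotient_mul_card_addSubgroup (tr K p).ker]
  congr 1
  exact Nat.card_congr (QuotientAddGroup.quotientKerEquivRange (tr K p)).symm.toEquiv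

theorem count (hcard : Nat.card K = p ^ 2)
    (hσ : ∀ x : K, frobenius K p (frobenius K p x) = x) :
    p ^ 3 ≤ Nat.card (Pt (frobenius K p)) := by
  have hp0 : 0 < p := hp.out.pos
  have hrange : ((tr K p).range : Set K) ⊆ {z : K | frobenius K p z = z} := by
    rintro _ ⟨y, rfl⟩
    rw [Set.mem_ofPred_eq, tr_apply, map_add, hσ]
    ring
  have hle1 := card_ker_le (K := K) p
  have hfix := card_fix_le (K := K) p
  have hmul := card_mul (K := K) p
  rw [hcard] at hmul
  have hr : ((tr K p).range : Set K).ncard = Nat.card (tr K p).range := rfl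
  have hle2 : Nat.card (tr K p).range ≤ p := by
    rw [← hr]
    exact (Set.ncard_le_ncard hrange (Set.toFinite _)).trans hfix
  have hge1 : p ≤ Nat.card (tr K p).range := by
    by_contra hlt
    push Not at hlt
    have : Nat.card (tr K p).range * Nat.card (tr K p).ker < p * p :=
      Nat.mul_lt_mul_of_lt_of_le hlt hle1 hp0
    rw [hmul, sq] at this
    exact lt_irrefl _ this
  have hge2 : p ≤ Nat.card (tr K p).ker := by
    by_contra hlt
    push Not at hlt
    have : Nat.card (tr K p).range * Nat.card (tr K p).ker < p * p :=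
      Nat.mul_lt_mul_of_le_of_lt hle2 hlt hp0
    rw [hmul, sq] at this
    exact lt_irrefl _ this
  have heq : ((tr K p).range : Set K) = {z : K | frobenius K p z = z} :=
    Set.eq_of_subset_of_ncard_le hrange (by rw [hr]; exact hfix.trans hge1) (Set.toFinite _)
  have hsurj : ∀ x : K, ∃ y : K, frobenius K p y + y = x * frobenius K p x := by
    intro x
    have hx : x * frobenius K p x ∈ {z : K | frobenius K p z = z} := by
      rw [Set.mem_ofPred_eq, map_mul, hσ, mul_comm]
    rw [← heq] at hx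
    obtain ⟨y, hy⟩ := hx
    exact ⟨y, hy⟩
  choose Y hY using hsurj
  let g : K × (tr K p).ker → Pt (frobenius K p) := fun w =>
    ⟨(w.1, Y w.1 + w.2.1), by
      have h2 : frobenius K p w.2.1 + w.2.1 = 0 := by
        have := (AddMonoidHom.mem_ker).1 w.2.2
        rwa [tr_apply] at this
      have h1 := hY w.1
      show frobenius K p (Y w.1 + w.2.1) + (Y w.1 + w.2.1) = w.1 * frobenius K p w.1
      rw [map_add]
      linear_combination h1 + h2⟩
  have hg : Function.Injective g := by
    rintro ⟨x, k⟩ ⟨x', k'⟩ h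
    have h1 := congrArg (fun z : Pt (frobenius K p) => z.1.1) h
    have h2 := congrArg (fun z : Pt (frobenius K p) => z.1.2) h
    simp only [g] at h1 h2
    subst h1
    have : k.1 = k'.1 := add_left_cancel h2
    rw [Prod.mk.injEq]
    exact ⟨rfl, Subtype.ext this⟩
  have := Nat.card_le_card_of_injective g hg
  rw [Nat.card_prod, hcard] at this
  calc p ^ 3 = p ^ 2 * p := by ring
    _ ≤ p ^ 2 * Nat.card (tr K p).ker := Nat.mul_le_mul_left _ hge2
    _ ≤ _ := this

end Count

theorem no_K4_minor {K : Type} [Field K] [Finite K] {σ : K →+* K} (hσ : ∀ x, σ (σ x) = x) :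
    ¬ ∃ N : Matroid (Pt σ), Matroid.IsMinor N (linMatroid K (vec σ)) ∧
      ∃ φ : Pt σ → Sym2 (Fin 4), Set.BijOn φ N.E {s | ¬ s.IsDiag} ∧
        ∀ I ⊆ N.E, N.Indep I ↔ (SimpleGraph.fromEdgeSet (φ '' I)).IsAcyclic := by
  rintro ⟨N, hN, φ, hφ, hI⟩
  have hex : ∀ i j : Fin 4, i ≠ j → ∃ e ∈ N.E, φ e = s(i, j) := by
    intro i j hij
    exact hφ.surjOn (by simpa using hij)
  obtain ⟨a, haN, ha⟩ := hex 0 1 (by decide)
  obtain ⟨b, hbN, hb⟩ := hex 0 2 (by decide)
  obtain ⟨c, hcN, hc⟩ := hex 0 3 (by decide)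
  obtain ⟨d, hdN, hd⟩ := hex 1 2 (by decide)
  obtain ⟨e, heN, he⟩ := hex 2 3 (by decide)
  obtain ⟨f, hfN, hf⟩ := hex 1 3 (by decide)
  have hne : ∀ {x y : Pt σ}, φ x ≠ φ y → x ≠ y := fun h h' => h (by rw [h'])
  have hab : a ≠ b := hne (by rw [ha, hb]; decide)
  have hac : a ≠ c := hne (by rw [ha, hc]; decide)
  have hbc : b ≠ c := hne (by rw [hb, hc]; decide)
  have had : a ≠ d := hne (by rw [ha, hd]; decide)
  have hbd : b ≠ d := hne (by rw [hb, hd]; decide)
  have hbe : b ≠ e := hne (by rw [hb, he]; decide)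
  have hce : c ≠ e := hne (by rw [hc, he]; decide)
  have hcf : c ≠ f := hne (by rw [hc, hf]; decide)
  have haf : a ≠ f := hne (by rw [ha, hf]; decide)
  have hde : d ≠ e := hne (by rw [hd, he]; decide)
  have hdf : d ≠ f := hne (by rw [hd, hf]; decide)
  have hef : e ≠ f := hne (by rw [he, hf]; decide)
  have hsub : ∀ x y z : Pt σ, x ∈ N.E → y ∈ N.E → z ∈ N.E → ({x, y, z} : Set (Pt σ)) ⊆ N.E := by
    intro x y z hx hy hz w hw
    simp only [Set.mem_insert_iff, Set.mem_singleton_iff] at hw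
    rcases hw with rfl | rfl | rfl <;> assumption
  have habcN : N.Indep ({a, b, c} : Set (Pt σ)) := by
    rw [hI _ (hsub a b c haN hbN hcN), Set.image_insert_eq, Set.image_insert_eq,
      Set.image_singleton, ha, hb, hc]
    exact star_acyclic
  have hcard : ({a, b, c} : Set (Pt σ)).ncard = 3 := by
    rw [Set.ncard_eq_three]
    exact ⟨a, b, c, hab, hac, hbc, rfl⟩
  have hres : ∀ J ⊆ N.E, (N.Indep J ↔ LinearIndepOn K (vec σ) J) := by
    intro J hJ
    rw [← linMatroid_indep]
    refine minor_restrict (linMatroid K (vec σ)) ?_ ?_ N hN {a, b, c} habcN hcard J hJ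
    · intro x
      rw [linMatroid_indep, ← Set.pair_eq_singleton]
      exact indep_pair x x
    · intro I hI
      rw [linMatroid_indep] at hI
      exact card_le_three _ I hI
  have hdep : ∀ x y z : Pt σ, x ∈ N.E → y ∈ N.E → z ∈ N.E →
      ∀ i j k : Fin 4, i ≠ j → i ≠ k → j ≠ k → φ x = s(i, j) → φ y = s(i, k) → φ z = s(j, k) →
        ¬ LinearIndepOn K (vec σ) ({x, y, z} : Set (Pt σ)) := by
    intro x y z hx hy hz i j k hij hik hjk h1 h2 h3 hind
    rw [← hres _ (hsub x y z hx hy hz), hI _ (hsub x y z hx hy hz), Set.image_insert_eq,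
      Set.image_insert_eq, Set.image_singleton, h1, h2, h3] at hind
    exact tri_cyclic i j k hij hik hjk hind
  refine no_quadrilateral hσ a b c d e f hab hac hbc had hbd hbe hce hcf haf hde hdf hef
    ((hres _ (hsub a b c haN hbN hcN)).1 habcN) ?_ ?_ ?_ ?_
  · exact hdep a b d haN hbN hdN 0 1 2 (by decide) (by decide) (by decide) ha hb hd
  · exact hdep b c e hbN hcN heN 0 2 3 (by decide) (by decide) (by decide) hb hc he
  · have := hdep a c f haN hcN hfN 0 1 3 (by decide) (by decide) (by decide) ha hc hf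
    rwa [Set.insert_comm] at this
  · have := hdep d f e hdN hfN heN 1 2 3 (by decide) (by decide) (by decide) hd hf he
    have h2 : ({e, f, d} : Set (Pt σ)) = {d, f, e} := by
      ext w
      simp only [Set.mem_insert_iff, Set.mem_singleton_iff]
      tauto
    rwa [h2]

theorem frob_invol (K : Type) [Field K] [Fintype K] (p : ℕ) [Fact p.Prime] [CharP K p]
    (hfc : Fintype.card K = p ^ 2) : ∀ x : K, frobenius K p (frobenius K p x) = x := by
  intro x
  rw [frobenius_def, frobenius_def, ← pow_mul, ← sq, ← hfc, FiniteField.pow_card]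

theorem count' (K : Type) [Field K] [Fintype K] (p : ℕ) [Fact p.Prime] [CharP K p]
    (hfc : Fintype.card K = p ^ 2) :
    p ^ 3 ≤ (linMatroid K (vec (frobenius K p))).E.ncard := by
  have hcard : Nat.card K = p ^ 2 := by rw [Nat.card_eq_fintype_card, hfc]
  have hcount := count (K := K) p hcard (frob_invol K p hfc)
  rw [linMatroid_E, Set.ncard_univ]
  exact hcount

theorem exists_base {K : Type} [Field K] [Finite K] (σ : K →+* K) :
    ∃ B : Set (Pt σ), (linMatroid K (vec σ)).IsBase B := by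
  exact (linMatroid K (vec σ)).exists_isBase

theorem base_card {K : Type} [Field K] [Finite K] (σ : K →+* K) (B : Set (Pt σ))
    (hB : (linMatroid K (vec σ)).IsBase B) : B.ncard ≤ 3 := by
  have h := hB.indep
  rw [linMatroid_indep] at h
  exact card_le_three _ B h

theorem exists_small_base {K : Type} [Field K] [Finite K] (σ : K →+* K) :
    ∃ B : Set (Pt σ), (linMatroid K (vec σ)).IsBase B ∧ B.ncard ≤ 3 := by
  obtain ⟨B, hB⟩ := exists_base σ
  exact ⟨B, hB, base_card σ B hB⟩

theorem hermitian_representable {K : Type} [Field K] [Finite K] (σ : K →+* K) :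
    ∃ (n : ℕ) (v : Pt σ → (Fin n → K)), ∀ I ⊆ (linMatroid K (vec σ)).E,
      (linMatroid K (vec σ)).Indep I ↔ LinearIndependent K (fun x : I => v x) :=
  ⟨3, vec σ, fun _ _ => linMatroid_indep _ _ _⟩

theorem hermitian_simple {K : Type} [Field K] [Finite K] (σ : K →+* K) :
    ∀ e ∈ (linMatroid K (vec σ)).E, ∀ f ∈ (linMatroid K (vec σ)).E,
      (linMatroid K (vec σ)).Indep {e, f} :=
  fun e _ f _ => (linMatroid_indep _ _ _).2 (indep_pair e f)

/-- The negation of the preceding statement: There are constants a, b such that every simple matroid representable over a finite field of size q ≥ 4, with no minor isomorphic to the cycle matroid of K4, has at most (a·q + b)·r elements, where r is its rank. -/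
theorem result :
    ¬ (∃ a b : ℝ, ∀ (F : Type) [Field F] [Fintype F], 4 ≤ Fintype.card F →
      ∀ (α : Type) [Fintype α] (M : Matroid α),
        (∃ (n : ℕ) (v : α → (Fin n → F)),
            ∀ I ⊆ M.E, M.Indep I ↔ LinearIndependent F (fun x : I => v x)) →
        (∀ e ∈ M.E, ∀ f ∈ M.E, M.Indep {e, f}) →
        (¬ ∃ N : Matroid α, Matroid.IsMinor N M ∧
            ∃ φ : α → Sym2 (Fin 4), Set.BijOn φ N.E {s | ¬ s.IsDiag} ∧
              ∀ I ⊆ N.E, N.Indep I ↔ (SimpleGraph.fromEdgeSet (φ '' I)).IsAcyclic) →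
        ∀ B : Set α, M.IsBase B →
          (M.E.ncard : ℝ) ≤ (a * (Fintype.card F : ℝ) + b) * (B.ncard : ℝ)) := by
  rintro ⟨a, b, h⟩
  obtain ⟨p, hpge, hp⟩ := Nat.exists_infinite_primes (⌈3 * |a| + 3 * |b|⌉₊ + 2)
  have : Fact p.Prime := ⟨hp⟩
  have hcard : Nat.card (GaloisField p 2) = p ^ 2 := GaloisField.card p 2 two_ne_zero
  have : Finite (GaloisField p 2) := by
    apply Nat.finite_of_card_ne_zero
    rw [hcard]
    exact pow_ne_zero _ hp.ne_zero
  let _ : Fintype (GaloisField p 2) := Fintype.ofFinite _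
  have hfc : Fintype.card (GaloisField p 2) = p ^ 2 := by
    rw [← Nat.card_eq_fintype_card, hcard]
  have hp2 : 2 ≤ p := hp.two_le
  have hcount := count' (GaloisField p 2) p hfc
  have hσ := frob_invol (GaloisField p 2) p hfc
  obtain ⟨B, hB, hB3⟩ := exists_small_base (frobenius (GaloisField p 2) p)
  let _ : Fintype (Pt (frobenius (GaloisField p 2) p)) := Fintype.ofFinite _
  have key := h (GaloisField p 2) (by rw [hfc]; nlinarith) _ _
    (hermitian_representable (frobenius (GaloisField p 2) p))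
    (hermitian_simple (frobenius (GaloisField p 2) p))
    (no_K4_minor hσ) B hB
  rw [hfc] at key
  have h1 : ((p : ℝ)) ^ 3 ≤ ((linMatroid (GaloisField p 2) (vec (frobenius (GaloisField p 2) p))).E.ncard : ℝ) := by
    exact_mod_cast hcount
  have hB3' : (B.ncard : ℝ) ≤ 3 := by exact_mod_cast hB3
  have hB0 : (0 : ℝ) ≤ (B.ncard : ℝ) := Nat.cast_nonneg _
  have hpR : (3 * |a| + 3 * |b|) + 2 ≤ (p : ℝ) := by
    have h2 : ((⌈3 * |a| + 3 * |b|⌉₊ + 2 : ℕ) : ℝ) ≤ (p : ℝ) := by exact_mod_cast hpge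
    push_cast at h2
    have := Nat.le_ceil (3 * |a| + 3 * |b|)
    linarith
  have ha0 := abs_nonneg a
  have hb0 := abs_nonneg b
  have ha1 := le_abs_self a
  have hb1 := le_abs_self b
  have hp1 : (1 : ℝ) ≤ (p : ℝ) := by linarith
  have hpsq : (1 : ℝ) ≤ (p : ℝ) ^ 2 := by nlinarith
  have h3 : (a * ((p ^ 2 : ℕ) : ℝ) + b) ≤ (|a| + |b|) * (p : ℝ) ^ 2 := by
    push_cast
    nlinarith
  have h4 : (a * ((p ^ 2 : ℕ) : ℝ) + b) * (B.ncard : ℝ) ≤ ((|a| + |b|) * (p : ℝ) ^ 2) * 3 :=
    calc (a * ((p ^ 2 : ℕ) : ℝ) + b) * (B.ncard : ℝ)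
        ≤ ((|a| + |b|) * (p : ℝ) ^ 2) * (B.ncard : ℝ) := mul_le_mul_of_nonneg_right h3 hB0
      _ ≤ ((|a| + |b|) * (p : ℝ) ^ 2) * 3 := mul_le_mul_of_nonneg_left hB3' (by positivity)
  have h5 : (p : ℝ) ^ 3 ≤ ((|a| + |b|) * (p : ℝ) ^ 2) * 3 := h1.trans (key.trans h4)
  nlinarith

end Pool.Agent.S05984
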