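import Pool.Statements.S06000

set_option autoImplicit false
open Pool Pool.MP_6e435d_co

namespace Pool.Agent.S06000

/-- The number of pieces on the board. -/
def cnt (p : Fin 13 → Option Bool) : ℕ := (Finset.univ.filter fun i => (p i).isSome = true).card

/-- The position after the piece of colour `b` on `i` moves onto `j`. -/
def upd (p : Fin 13 → Option Bool) (i j : Fin 13) (b : Bool) : Fin 13 → Option Bool :=
  Function.update (Function.update p i none) j (some b)

theorem cnt_upd (p : Fin 13 → Option Bool) (i j : Fin 13) (b : Bool) (hij : i ≠ j)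
    (hi : p i = some b) (hj : p j = some (!b)) : cnt (upd p i j b) < cnt p := by
  unfold cnt
  apply Finset.card_lt_card
  rw [Finset.ssubset_iff_of_subset]
  · refine ⟨i, by simp [hi], ?_⟩
    simp [upd, Function.update_apply, hij]
  · intro k hk
    simp only [Finset.mem_filter, Finset.mem_univ, true_and, upd, Function.update_apply] at hk ⊢
    by_cases h1 : k = j
    · rw [h1, hj]; rfl
    · by_cases h2 : k = i
      · rw [h2, hi]; rfl
      · simpa [h1, h2] using hk

/-- Winning for the mover, decided by a search of depth `f`. -/
def Wf : ℕ → (Fin 13 → Option Bool) → Bool → Prop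
  | 0, _, _ => False
  | f + 1, p, b => ∃ i j : Fin 13,
      (i.val + 1 = j.val ∨ j.val + 1 = i.val) ∧
      p i = some b ∧ p j = some (!b) ∧ ¬ Wf f (upd p i j b) (!b)

theorem Wf_stable : ∀ (f g : ℕ) (p : Fin 13 → Option Bool) (b : Bool), cnt p ≤ f → cnt p ≤ g →
    (Wf f p b ↔ Wf g p b) := by
  intro f
  induction f with
  | zero =>
    intro g p b hf hg
    cases g with
    | zero => rfl
    | succ g =>
      simp only [Wf, false_iff]
      rintro ⟨i, j, hij, hi, hj, -⟩
      have := cnt_upd p i j b (by rintro rfl; omega) hi hj
      omega
  | succ f ih =>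
    intro g p b hf hg
    cases g with
    | zero =>
      simp only [Wf, iff_false]
      rintro ⟨i, j, hij, hi, hj, -⟩
      have := cnt_upd p i j b (by rintro rfl; omega) hi hj
      omega
    | succ g =>
      simp only [Wf]
      constructor
      · rintro ⟨i, j, hij, hi, hj, hw⟩
        have := cnt_upd p i j b (by rintro rfl; omega) hi hj
        exact ⟨i, j, hij, hi, hj, by rwa [← ih g (upd p i j b) (!b) (by omega) (by omega)]⟩
      · rintro ⟨i, j, hij, hi, hj, hw⟩
        have := cnt_upd p i j b (by rintro rfl; omega) hi hj
        exact ⟨i, j, hij, hi, hj, by rwa [ih g (upd p i j b) (!b) (by omega) (by omega)]⟩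

theorem Wf_spec (p : Fin 13 → Option Bool) (b : Bool) :
    Wf (cnt p) p b ↔ ∃ i j : Fin 13,
      (i.val + 1 = j.val ∨ j.val + 1 = i.val) ∧
      p i = some b ∧ p j = some (!b) ∧ ¬ Wf (cnt (upd p i j b)) (upd p i j b) (!b) := by
  rw [Wf_stable (cnt p) (cnt p + 1) p b le_rfl (by omega)]
  simp only [Wf]
  constructor
  · rintro ⟨i, j, hij, hi, hj, hw⟩
    have := cnt_upd p i j b (by rintro rfl; omega) hi hj
    exact ⟨i, j, hij, hi, hj, by rwa [Wf_stable _ (cnt p) _ _ le_rfl (by omega)]⟩
  · rintro ⟨i, j, hij, hi, hj, hw⟩
    have := cnt_upd p i j b (by rintro rfl; omega) hi hj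
    exact ⟨i, j, hij, hi, hj, by rwa [← Wf_stable _ (cnt p) _ _ le_rfl (by omega)]⟩

/-- Read a row of 13 squares off a list: `some true` is a blue piece, `some false` a red piece. -/
def dec (l : List (Option Bool)) : Fin 13 → Option Bool := fun i => l.getD i.val none

/-- Move a piece of colour `b` from square `i` onto square `j`. -/
def mv (l : List (Option Bool)) (i j : ℕ) (b : Bool) : List (Option Bool) :=
  (l.set i none).set j (some b)

/-- The mover `b` may move from `i` onto `j`. -/
def can (l : List (Option Bool)) (i j : ℕ) (b : Bool) : Bool :=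
  (l.getD i none == some b) && (l.getD j none == some (!b))

/-- Game tree search to depth `f`. -/
def win : ℕ → List (Option Bool) → Bool → Bool
  | 0, _, _ => false
  | f + 1, l, b => (List.range 12).any fun k =>
      (can l k (k + 1) b && !(win f (mv l k (k + 1) b) (!b))) ||
      (can l (k + 1) k b && !(win f (mv l (k + 1) k b) (!b)))

theorem mv_length (l : List (Option Bool)) (i j : ℕ) (b : Bool) :
    (mv l i j b).length = l.length := by
  simp [mv]

theorem dec_mv (l : List (Option Bool)) (hl : l.length = 13) (i j : Fin 13) (b : Bool) :
    dec (mv l i.val j.val b) = upd (dec l) i j b := by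
  funext k
  have hk : k.val < l.length := by omega
  have hj : j.val < l.length := by omega
  have hi : i.val < l.length := by omega
  simp only [dec, mv, upd, Function.update_apply]
  rw [List.getD_eq_getElem _ _ (by simpa using hk), List.getElem_set]
  by_cases h1 : j.val = k.val
  · have : k = j := Fin.ext h1.symm
    simp [this]
  · have h1' : ¬ k = j := fun h => h1 (by rw [h])
    simp only [h1, h1', if_false]
    rw [List.getElem_set]
    by_cases h2 : i.val = k.val
    · have : k = i := Fin.ext h2.symm
      simp [this]
    · have h2' : ¬ k = i := fun h => h2 (by rw [h])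
      simp only [h2, h2', if_false]
      rw [List.getD_eq_getElem _ _ hk]

theorem can_iff (l : List (Option Bool)) (i j : Fin 13) (b : Bool) :
    can l i.val j.val b = true ↔ dec l i = some b ∧ dec l j = some (!b) := by
  simp [can, dec]

theorem win_iff (W : (Fin 13 → Option Bool) → Bool → Prop)
    (hW : ∀ (p : Fin 13 → Option Bool) (b : Bool),
          W p b ↔
            ∃ i j : Fin 13,
              (i.val + 1 = j.val ∨ j.val + 1 = i.val) ∧
              p i = some b ∧ p j = some (!b) ∧
              ¬ W (Function.update (Function.update p i none) j (some b)) (!b)) :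
    ∀ (f : ℕ) (l : List (Option Bool)) (b : Bool), l.length = 13 → cnt (dec l) ≤ f →
      (W (dec l) b ↔ win f l b = true) := by
  intro f
  induction f with
  | zero =>
    intro l b hl hp
    constructor
    · intro h
      obtain ⟨i, j, hij, hi, hj, -⟩ := (hW _ _).1 h
      have := cnt_upd (dec l) i j b (by rintro rfl; omega) hi hj
      omega
    · intro h
      simp [win] at h
  | succ f ih =>
    intro l b hl hp
    rw [hW]
    simp only [win, List.any_eq_true, List.mem_range, Bool.or_eq_true, Bool.and_eq_true,
      Bool.not_eq_true']
    have key : ∀ i j : Fin 13, (i.val + 1 = j.val ∨ j.val + 1 = i.val) → dec l i = some b →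
        dec l j = some (!b) →
        (¬ W (Function.update (Function.update (dec l) i none) j (some b)) (!b) ↔
          win f (mv l i.val j.val b) (!b) = false) := by
      intro i j hij hi hj
      have hlt := cnt_upd (dec l) i j b (by rintro rfl; omega) hi hj
      have hih := ih (mv l i.val j.val b) (!b) (by rw [mv_length]; exact hl) (by
        rw [dec_mv l hl i j b]; omega)
      rw [dec_mv l hl i j b] at hih
      unfold upd at hih
      rw [hih]
      simp
    constructor
    · rintro ⟨i, j, hij, hi, hj, hw⟩
      have hw' := (key i j hij hi hj).1 hw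
      have hcan := (can_iff l i j b).2 ⟨hi, hj⟩
      rcases hij with h | h
      · refine ⟨i.val, by omega, Or.inl ?_⟩
        rw [h]
        exact ⟨hcan, hw'⟩
      · refine ⟨j.val, by omega, Or.inr ?_⟩
        rw [h]
        exact ⟨hcan, hw'⟩
    · rintro ⟨k, hk, h⟩
      rcases h with ⟨hc, hw⟩ | ⟨hc, hw⟩
      · have hc' := (can_iff l ⟨k, by omega⟩ ⟨k + 1, by omega⟩ b).1 hc
        exact ⟨⟨k, by omega⟩, ⟨k + 1, by omega⟩, Or.inl rfl, hc'.1, hc'.2,
          (key _ _ (Or.inl rfl) hc'.1 hc'.2).2 hw⟩
      · have hc' := (can_iff l ⟨k + 1, by omega⟩ ⟨k, by omega⟩ b).1 hc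
        exact ⟨⟨k + 1, by omega⟩, ⟨k, by omega⟩, Or.inr rfl, hc'.1, hc'.2,
          (key _ _ (Or.inr rfl) hc'.1 hc'.2).2 hw⟩

/-- The alternating row of 13 pieces. -/
def start : List (Option Bool) :=
  [some true, some false, some true, some false, some true, some false, some true,
   some false, some true, some false, some true, some false, some true]

theorem start_dec : dec start = fun i : Fin 13 => some (decide (i.val % 2 = 0)) := by
  funext i
  fin_cases i <;> rfl

theorem win_start : win 13 start true = false := by
  decide +kernel

/-- The negation of the preceding statement: For every n ≥ 13, in normal-play Clobber on a 1×n strip starting from alternating blue/red pieces, the player to move wins, whether Left (blue) or Right (red) moves first. -/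
theorem result :
    ¬ (∀ n : ℕ, 13 ≤ n →
      ∀ W : (Fin n → Option Bool) → Bool → Prop,
        (∀ (p : Fin n → Option Bool) (b : Bool),
          W p b ↔
            ∃ i j : Fin n,
              (i.val + 1 = j.val ∨ j.val + 1 = i.val) ∧
              p i = some b ∧ p j = some (!b) ∧
              ¬ W (Function.update (Function.update p i none) j (some b)) (!b)) →
        W (fun i => some (decide (i.val % 2 = 0))) true ∧
        W (fun i => some (decide (i.val % 2 = 0))) false) := by
  intro H
  have h := (H 13 le_rfl (fun p b => Wf (cnt p) p b) Wf_spec).1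
  have h2 := (win_iff (fun p b => Wf (cnt p) p b) Wf_spec 13 start true rfl
    (by
      unfold cnt
      exact le_trans (Finset.card_le_univ _) (by simp))).1 (by rw [start_dec]; exact h)
  rw [win_start] at h2
  exact Bool.false_ne_true h2

end Pool.Agent.S06000
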