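import Pool.Statements.S06002

/-!
# An infinite antichain of real-representable matroids with no `U_{3,6}`-minor

For `n ≥ 6` let `M_n` be the vector matroid over `ℝ` with the following `3 n` elements
(`x_i`, `i ∈ ℤ/n`, and `e` form a basis of `ℝ ^ (n + 1)`):

* rim edges `C i = x_{i+1} - x_i`,
* spokes `A i = x_i + g(i) e` and `B i = x_i + g(i+2) e`, where `g` is injective.

So `M_n` is the lift matroid of a wheel with doubled spokes, real (additive) gains on the spokes and
gain zero on the rim; each label `k` is carried by exactly two spokes, one at the vertex `k` and one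
at the vertex `k - 2`.

* If a spoke is contracted or a rim edge is deleted, the elements of the resulting matroid can be
  ordered linearly so that all prefixes have connectivity at most two (`path_cut`).
* `U_{3,6}` has no such order and neither has `M_m` with one spoke deleted (`star_ineq`).  This gives
  that there is no `U_{3,6}`-minor, and that if `M_m` is a minor of `M_n`, then only rim edges are
  contracted, only spokes are deleted, and rim edges correspond to rim edges.
* The circuits `{A (k+2), B k, C k, C (k+1)}` of `M_m` come from such circuits of `M_n`; the set of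
  labels used and the set of remaining rim edges have the same size, and this forces `m = n`.
-/

set_option autoImplicit false
set_option linter.unusedSectionVars false
set_option linter.style.haveILetI false
open Pool Pool.MP_6e559c_co

namespace Pool.Agent.S06002


open Set Submodule Module

section generic

variable {α β W V : Type*} [Finite α] [Finite β] [AddCommGroup W] [Module ℝ W]
  [FiniteDimensional ℝ W] [AddCommGroup V] [Module ℝ V] [FiniteDimensional ℝ V]

/-- rank of a set of elements of a vector configuration -/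
noncomputable def rk (v : α → W) (X : Set α) : ℕ := finrank ℝ (span ℝ (v '' X))

lemma rk_mono (v : α → W) {X Y : Set α} (h : X ⊆ Y) : rk v X ≤ rk v Y :=
  Submodule.finrank_mono (span_mono (image_mono h))

lemma rk_le_finrank (v : α → W) (X : Set α) : rk v X ≤ finrank ℝ W :=
  Submodule.finrank_le _

lemma rk_le_ncard (v : α → W) (X : Set α) : rk v X ≤ X.ncard := by
  have hf : (v '' X).Finite := toFinite _
  haveI := hf.fintype
  have h1 := finrank_span_le_card (R := ℝ) (v '' X)
  have h2 : (v '' X).toFinset.card ≤ X.ncard := by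
    rw [← Set.ncard_eq_toFinset_card']
    exact Set.ncard_image_le (toFinite X)
  exact h1.trans h2

lemma rk_union_inf (v : α → W) (X Y : Set α) :
    rk v (X ∪ Y) + finrank ℝ (span ℝ (v '' X) ⊓ span ℝ (v '' Y) : Submodule ℝ W)
      = rk v X + rk v Y := by
  have := Submodule.finrank_sup_add_finrank_inf_eq (span ℝ (v '' X)) (span ℝ (v '' Y))
  rw [← span_union, ← image_union] at this
  exact this

lemma rk_union_le (v : α → W) (X Y : Set α) : rk v (X ∪ Y) ≤ rk v X + Y.ncard := by
  have h1 := rk_union_inf v X Y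
  have h2 := rk_le_ncard v Y
  omega

lemma rk_of_indep (v : α → W) {X : Set α} (h : LinearIndepOn ℝ v X) : rk v X = X.ncard := by
  haveI : Fintype X := (toFinite X).fintype
  have := finrank_span_eq_card h
  rw [rk, image_eq_range, this, ncard_eq_toFinset_card', toFinset_card]

/-- the connectivity inequality for a cut -/
lemma rk_cut (v : α → W) {U C A B : Set α} {d : ℕ}
    (hd : finrank ℝ (span ℝ (v '' A) ⊓ span ℝ (v '' B) : Submodule ℝ W) ≤ d)
    (hU : U \ A ⊆ B) (hC : C ⊆ A ∪ B) (hcard : (C \ A).ncard + (C \ B).ncard + d ≤ C.ncard + 2) :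
    rk v ((U ∩ A) ∪ C) + rk v ((U \ A) ∪ C) ≤ C.ncard + rk v (U ∪ C) + 2 := by
  have h1 : rk v ((U ∩ A) ∪ C) ≤ rk v ((U ∩ A) ∪ (C ∩ A)) + (C \ A).ncard := by
    have := rk_union_le v ((U ∩ A) ∪ (C ∩ A)) (C \ A)
    have h : (U ∩ A) ∪ (C ∩ A) ∪ (C \ A) = (U ∩ A) ∪ C := by
      rw [union_assoc, inter_union_sdiff]
    rwa [h] at this
  have h2 : rk v ((U \ A) ∪ C) ≤ rk v ((U \ A) ∪ (C ∩ B)) + (C \ B).ncard := by
    have := rk_union_le v ((U \ A) ∪ (C ∩ B)) (C \ B)
    have h : (U \ A) ∪ (C ∩ B) ∪ (C \ B) = (U \ A) ∪ C := by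
      rw [union_assoc, inter_union_sdiff]
    rwa [h] at this
  have h3 := rk_union_inf v ((U ∩ A) ∪ (C ∩ A)) ((U \ A) ∪ (C ∩ B))
  have h4 : ((U ∩ A) ∪ (C ∩ A)) ∪ ((U \ A) ∪ (C ∩ B)) = U ∪ C := by
    ext x
    simp only [mem_union, mem_inter_iff, mem_sdiff]
    constructor
    · tauto
    · rintro (h | h)
      · tauto
      · rcases hC h with h' | h' <;> tauto
  have h5 : finrank ℝ (span ℝ (v '' ((U ∩ A) ∪ (C ∩ A))) ⊓
      span ℝ (v '' ((U \ A) ∪ (C ∩ B))) : Submodule ℝ W) ≤ d := by
    refine le_trans (Submodule.finrank_mono ?_) hd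
    refine inf_le_inf (span_mono (image_mono ?_)) (span_mono (image_mono ?_))
    · rintro x (hx | hx)
      exacts [hx.2, hx.2]
    · rintro x (hx | hx)
      exacts [hU hx, hx.2]
  rw [h4] at h3
  omega

/-- rank of a minor in terms of the rank of the big configuration -/
lemma rk_transfer (v : α → W) (w : β → V) (φ : β → α) (hφ : Function.Injective φ) (C : Set α)
    (hdisj : ∀ x, φ x ∉ C)
    (h : ∀ I : Set β, LinearIndepOn ℝ w I ↔ LinearIndepOn ℝ v (φ '' I ∪ C)) (X : Set β) :
    rk v (φ '' X ∪ C) = rk w X + C.ncard := by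
  obtain ⟨I, hIX, -, hsp, hI⟩ := exists_linearIndepOn_extension
    (linearIndepOn_empty ℝ w) (empty_subset X)
  have hspan : span ℝ (w '' I) = span ℝ (w '' X) :=
    le_antisymm (span_mono (image_mono hIX)) (span_le.2 hsp)
  have h1 : rk w X = I.ncard := by
    rw [rk, ← hspan]
    exact rk_of_indep w hI
  have hI' := (h I).1 hI
  have h2 : rk v (φ '' I ∪ C) = I.ncard + C.ncard := by
    rw [rk_of_indep v hI', ncard_union_eq, ncard_image_of_injective I hφ]
    rw [Set.disjoint_left]
    rintro _ ⟨x, -, rfl⟩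
    exact hdisj x
  rw [h1, ← h2]
  have hle : v '' (φ '' X ∪ C) ⊆ span ℝ (v '' (φ '' I ∪ C)) := by
    rintro _ ⟨y, (⟨x, hx, rfl⟩ | hy), rfl⟩
    · rw [SetLike.mem_coe, hI'.mem_span_iff]
      intro hins
      by_contra hcon
      have hxI : x ∉ I := fun hxI => hcon (Or.inl (mem_image_of_mem _ hxI))
      have : LinearIndepOn ℝ w (insert x I) := by
        rw [h, image_insert_eq, insert_union]
        exact hins
      have hx' : w x ∉ span ℝ (w '' I) := (hI.notMem_span_iff).2 ⟨this, hxI⟩
      exact hx' (hsp (mem_image_of_mem _ hx))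
    · exact subset_span (mem_image_of_mem _ (Or.inr hy))
  have := le_antisymm (span_le.2 hle)
    (span_mono (image_mono (union_subset_union_left C (image_mono hIX))))
  rw [rk, rk, this]

end generic


section ring

/-- elements: `A i`, `B i` are spokes at the rim vertex `i`, `C i` is the rim edge from `i` to
`i + 1` -/
abbrev El (n : ℕ) := ZMod n ⊕ ZMod n ⊕ ZMod n

abbrev A {n : ℕ} (i : ZMod n) : El n := Sum.inl i
abbrev B {n : ℕ} (i : ZMod n) : El n := Sum.inr (Sum.inl i)
abbrev C {n : ℕ} (i : ZMod n) : El n := Sum.inr (Sum.inr i)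

abbrev Vec (n : ℕ) := (ZMod n → ℝ) × ℝ

/-- the gain of a label -/
def g {n : ℕ} (k : ZMod n) : ℝ := (k.val : ℝ)

lemma g_inj {n : ℕ} [NeZero n] {k l : ZMod n} (h : g k = g l) : k = l := by
  unfold g at h
  exact ZMod.val_injective n (by exact_mod_cast h)

/-- the vectors -/
noncomputable def vec (n : ℕ) : El n → Vec n
  | Sum.inl i => (Pi.single i 1, g i)
  | Sum.inr (Sum.inl i) => (Pi.single i 1, g (i + 2))
  | Sum.inr (Sum.inr i) => (Pi.single (i + 1) 1 - Pi.single i 1, 0)

/-- the linear relations between the vectors -/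
def Rel {n : ℕ} [NeZero n] (a : El n → ℝ) : Prop :=
  (∀ i : ZMod n, a (A i) + a (B i) + a (C (i - 1)) = a (C i)) ∧
    ∑ i : ZMod n, (a (A i) * g i + a (B i) * g (i + 2)) = 0

lemma rel_iff {n : ℕ} [NeZero n] (a : El n → ℝ) : ∑ e, a e • vec n e = 0 ↔ Rel a := by
  have h1 : ∀ i : ZMod n, (∑ e, a e • vec n e).1 i =
      a (A i) + a (B i) + a (C (i - 1)) - a (C i) := by
    intro i
    simp only [Fintype.sum_sum_type, vec, Prod.fst_add, Prod.fst_sum, Prod.smul_fst, Pi.add_apply,
      Finset.sum_apply, Pi.smul_apply, Pi.single_apply, smul_eq_mul, mul_ite, mul_one, mul_zero,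
      Pi.sub_apply, mul_sub, Finset.sum_sub_distrib]
    simp only [Finset.sum_ite_eq, Finset.mem_univ, if_true]
    have : ∀ j : ZMod n, (i = j + 1) = (i - 1 = j) := by
      intro j; rw [sub_eq_iff_eq_add]
    simp only [this, Finset.sum_ite_eq, Finset.mem_univ, if_true]
    ring
  have h2 : (∑ e, a e • vec n e).2 = ∑ i : ZMod n, (a (A i) * g i + a (B i) * g (i + 2)) := by
    simp only [Fintype.sum_sum_type, vec, Prod.snd_add, Prod.snd_sum, Prod.smul_snd, smul_eq_mul,
      mul_zero, Finset.sum_const_zero, add_zero, Finset.sum_add_distrib]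
  constructor
  · intro h
    refine ⟨fun i => ?_, ?_⟩
    · have := h1 i
      rw [h] at this
      simp only [Prod.fst_zero, Pi.zero_apply] at this
      linarith
    · rw [← h2, h]; rfl
  · rintro ⟨h3, h4⟩
    refine Prod.ext (funext fun i => ?_) ?_
    · rw [h1 i, h3 i]; simp
    · rw [h2, h4]; rfl

lemma indepOn_iff {n : ℕ} [NeZero n] (I : Set (El n)) :
    LinearIndepOn ℝ (vec n) I ↔ ∀ a : El n → ℝ, (∀ e ∉ I, a e = 0) → Rel a → a = 0 := by
  rw [linearIndepOn_iff]
  constructor
  · intro h a ha hrel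
    have h1 := h (Finsupp.equivFunOnFinite.symm a) (by
      rw [Finsupp.mem_supported]
      intro e he
      by_contra hcon
      simp only [Finset.mem_coe, Finsupp.mem_support_iff, Finsupp.equivFunOnFinite_symm_apply_apply]
        at he
      exact he (ha e hcon)) (by
      rw [Finsupp.linearCombination_apply, Finsupp.sum_fintype _ _ (by simp)]
      exact (rel_iff a).2 hrel)
    ext e
    have := DFunLike.congr_fun h1 e
    simpa using this
  · intro h l hl hrel
    have h1 := h l (by
      intro e he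
      rw [Finsupp.mem_supported] at hl
      by_contra hcon
      exact he (hl (by simpa using hcon))) (by
      rw [← rel_iff]
      rwa [Finsupp.linearCombination_apply, Finsupp.sum_fintype _ _ (by simp)] at hrel)
    ext e
    exact congrFun h1 e


/-- the residues `0, …, 5` are distinct -/
lemma zne {n : ℕ} (hn : 6 ≤ n) :
    ¬ (0 : ZMod n) = 1 ∧ ¬ (1 : ZMod n) = 0 ∧
    ¬ (0 : ZMod n) = 2 ∧ ¬ (2 : ZMod n) = 0 ∧
    ¬ (0 : ZMod n) = 3 ∧ ¬ (3 : ZMod n) = 0 ∧
    ¬ (0 : ZMod n) = 4 ∧ ¬ (4 : ZMod n) = 0 ∧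
    ¬ (0 : ZMod n) = 5 ∧ ¬ (5 : ZMod n) = 0 ∧
    ¬ (1 : ZMod n) = 2 ∧ ¬ (2 : ZMod n) = 1 ∧
    ¬ (1 : ZMod n) = 3 ∧ ¬ (3 : ZMod n) = 1 ∧
    ¬ (1 : ZMod n) = 4 ∧ ¬ (4 : ZMod n) = 1 ∧
    ¬ (1 : ZMod n) = 5 ∧ ¬ (5 : ZMod n) = 1 ∧
    ¬ (2 : ZMod n) = 3 ∧ ¬ (3 : ZMod n) = 2 ∧
    ¬ (2 : ZMod n) = 4 ∧ ¬ (4 : ZMod n) = 2 ∧
    ¬ (2 : ZMod n) = 5 ∧ ¬ (5 : ZMod n) = 2 ∧
    ¬ (3 : ZMod n) = 4 ∧ ¬ (4 : ZMod n) = 3 ∧
    ¬ (3 : ZMod n) = 5 ∧ ¬ (5 : ZMod n) = 3 ∧
    ¬ (4 : ZMod n) = 5 ∧ ¬ (5 : ZMod n) = 4 := by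
  have key : ∀ a b : ℕ, a < b → b < 6 → ¬ (a : ZMod n) = (b : ZMod n) := by
    intro a b hab hb h
    have h2 : ((b - a : ℕ) : ZMod n) = 0 := by
      rw [Nat.cast_sub hab.le, sub_eq_zero]
      exact h.symm
    rw [ZMod.natCast_eq_zero_iff] at h2
    exact absurd (Nat.le_of_dvd (by omega) h2) (by omega)
  have k01 := key 0 1 (by omega) (by omega)
  have k02 := key 0 2 (by omega) (by omega)
  have k03 := key 0 3 (by omega) (by omega)
  have k04 := key 0 4 (by omega) (by omega)
  have k05 := key 0 5 (by omega) (by omega)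
  have k12 := key 1 2 (by omega) (by omega)
  have k13 := key 1 3 (by omega) (by omega)
  have k14 := key 1 4 (by omega) (by omega)
  have k15 := key 1 5 (by omega) (by omega)
  have k23 := key 2 3 (by omega) (by omega)
  have k24 := key 2 4 (by omega) (by omega)
  have k25 := key 2 5 (by omega) (by omega)
  have k34 := key 3 4 (by omega) (by omega)
  have k35 := key 3 5 (by omega) (by omega)
  have k45 := key 4 5 (by omega) (by omega)
  simp only [Nat.cast_zero, Nat.cast_one, Nat.cast_ofNat] at k01 k02 k03 k04 k05 k12 k13 k14 k15 k23 k24 k25 k34 k35 k45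
  exact ⟨k01, fun h => k01 h.symm, k02, fun h => k02 h.symm, k03, fun h => k03 h.symm, k04, fun h => k04 h.symm, k05, fun h => k05 h.symm, k12, fun h => k12 h.symm, k13, fun h => k13 h.symm, k14, fun h => k14 h.symm, k15, fun h => k15 h.symm, k23, fun h => k23 h.symm, k24, fun h => k24 h.symm, k25, fun h => k25 h.symm, k34, fun h => k34 h.symm, k35, fun h => k35 h.symm, k45, fun h => k45 h.symm⟩

lemma small3 {n : ℕ} [NeZero n] (hn : 6 ≤ n) {a : El n → ℝ} (ha : Rel a) {T : Set (El n)}
    (hT : T.ncard ≤ 3) (hsupp : ∀ e ∉ T, a e = 0) : a = 0 := by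
  have four : ∀ e1 e2 e3 e4 : El n, [e1, e2, e3, e4].Nodup → a e1 ≠ 0 → a e2 ≠ 0 → a e3 ≠ 0 →
      a e4 = 0 := by
    intro e1 e2 e3 e4 hnd h1 h2 h3
    by_contra h4
    have hsub : (([e1, e2, e3, e4].toFinset : Finset (El n)) : Set (El n)) ⊆ T := by
      intro e he
      simp only [List.coe_toFinset, List.mem_cons, List.not_mem_nil, or_false,
        mem_ofPred_eq] at he
      by_contra hcon
      have := hsupp e hcon
      rcases he with rfl | rfl | rfl | rfl <;> contradiction
    have h5 := ncard_le_ncard hsub (toFinite T)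
    rw [ncard_coe_finset, List.toFinset_card_of_nodup hnd] at h5
    simp at h5
    omega
  obtain ⟨hv, hs⟩ := ha
  have off := zne hn
  -- no rim edge
  have hC' : ∀ j, a (C (j + 2)) = 0 := by
    intro j
    by_contra hi
    have E1 := hv (j + 1)
    rw [show j + 1 - 1 = j by ring] at E1
    have E2 := hv (j + 2)
    rw [show j + 2 - 1 = j + 1 by ring] at E2
    have E3 := hv (j + 3)
    rw [show j + 3 - 1 = j + 2 by ring] at E3
    have E4 := hv (j + 4)
    rw [show j + 4 - 1 = j + 3 by ring] at E4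
    have o2 : a (A (j + 2)) ≠ 0 ∨ a (B (j + 2)) ≠ 0 ∨ a (C (j + 1)) ≠ 0 := by
      by_contra hcon
      push Not at hcon
      rw [hcon.1, hcon.2.1, hcon.2.2] at E2
      apply hi
      linarith
    have o3 : a (A (j + 3)) ≠ 0 ∨ a (B (j + 3)) ≠ 0 ∨ a (C (j + 3)) ≠ 0 := by
      by_contra hcon
      push Not at hcon
      rw [hcon.1, hcon.2.1, hcon.2.2] at E3
      apply hi
      linarith
    -- the relation has exactly three nonzero coefficients
    have hZ : ∀ e2 e3 : El n, e2 ≠ C (j + 2) → e3 ≠ C (j + 2) → e2 ≠ e3 → a e2 ≠ 0 → a e3 ≠ 0 →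
        ∀ e, e ≠ C (j + 2) → e ≠ e2 → e ≠ e3 → a e = 0 := by
      intro e2 e3 h1 h2 h3 h4 h5 e h6 h7 h8
      refine four (C (j + 2)) e2 e3 e ?_ hi h4 h5
      simp only [List.nodup_cons, List.mem_cons, List.not_mem_nil, or_false, not_or,
        not_false_iff, List.nodup_nil, and_true]
      exact ⟨⟨fun h => h1 h.symm, fun h => h2 h.symm, fun h => h6 h.symm⟩,
        ⟨h3, fun h => h7 h.symm⟩, fun h => h8 h.symm⟩
    have two : ∀ e2 e3 : El n, ∀ k2 k3 : ZMod n, (e2 = A (j + 2) ∧ k2 = j + 2 ∨
        e2 = B (j + 2) ∧ k2 = j + 2 + 2) → (e3 = A (j + 3) ∧ k3 = j + 3 ∨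
        e3 = B (j + 3) ∧ k3 = j + 3 + 2) → a e2 ≠ 0 → a e3 ≠ 0 → False := by
      intro e2 e3 k2 k3 h2 h3 h2' h3'
      have n2 : e2 ≠ C (j + 2) := by rcases h2 with ⟨rfl, -⟩ | ⟨rfl, -⟩ <;> simp
      have n3 : e3 ≠ C (j + 2) := by rcases h3 with ⟨rfl, -⟩ | ⟨rfl, -⟩ <;> simp
      have n23 : e2 ≠ e3 := by
        rcases h2 with ⟨rfl, -⟩ | ⟨rfl, -⟩ <;> rcases h3 with ⟨rfl, -⟩ | ⟨rfl, -⟩ <;> simp [off]
      have Z := hZ e2 e3 n2 n3 n23 h2' h3'
      have f2 : a (A (j + 2)) * g (j + 2) + a (B (j + 2)) * g (j + 2 + 2) = a e2 * g k2 := by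
        rcases h2 with ⟨rfl, rfl⟩ | ⟨rfl, rfl⟩
        · rw [Z (B (j + 2)) (by simp) (by simp)
            (by rcases h3 with ⟨rfl, -⟩ | ⟨rfl, -⟩ <;> simp [off])]
          ring
        · rw [Z (A (j + 2)) (by simp) (by simp)
            (by rcases h3 with ⟨rfl, -⟩ | ⟨rfl, -⟩ <;> simp [off])]
          ring
      have f3 : a (A (j + 3)) * g (j + 3) + a (B (j + 3)) * g (j + 3 + 2) = a e3 * g k3 := by
        rcases h3 with ⟨rfl, rfl⟩ | ⟨rfl, rfl⟩
        · rw [Z (B (j + 3)) (by simp)
            (by rcases h2 with ⟨rfl, -⟩ | ⟨rfl, -⟩ <;> simp [off]) (by simp)]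
          ring
        · rw [Z (A (j + 3)) (by simp)
            (by rcases h2 with ⟨rfl, -⟩ | ⟨rfl, -⟩ <;> simp [off]) (by simp)]
          ring
      have f0 : ∀ x, x ≠ j + 2 ∧ x ≠ j + 3 → a (A x) * g x + a (B x) * g (x + 2) = 0 := by
        rintro x ⟨hx2, hx3⟩
        rw [Z (A x) (by simp) (by rcases h2 with ⟨rfl, -⟩ | ⟨rfl, -⟩ <;> simp [hx2])
            (by rcases h3 with ⟨rfl, -⟩ | ⟨rfl, -⟩ <;> simp [hx3]),
          Z (B x) (by simp) (by rcases h2 with ⟨rfl, -⟩ | ⟨rfl, -⟩ <;> simp [hx2])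
            (by rcases h3 with ⟨rfl, -⟩ | ⟨rfl, -⟩ <;> simp [hx3])]
        ring
      have hsum := Fintype.sum_eq_add (j + 2) (j + 3) (by simp [off]) f0
      rw [hs, f2, f3] at hsum
      have g2 : a e2 = a (C (j + 2)) := by
        rw [← E2, Z (C (j + 1)) (by simp [off])
          (by rcases h2 with ⟨rfl, -⟩ | ⟨rfl, -⟩ <;> simp)
          (by rcases h3 with ⟨rfl, -⟩ | ⟨rfl, -⟩ <;> simp)]
        rcases h2 with ⟨rfl, rfl⟩ | ⟨rfl, rfl⟩
        · rw [Z (B (j + 2)) (by simp) (by simp)
            (by rcases h3 with ⟨rfl, -⟩ | ⟨rfl, -⟩ <;> simp [off])]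
          ring
        · rw [Z (A (j + 2)) (by simp) (by simp)
            (by rcases h3 with ⟨rfl, -⟩ | ⟨rfl, -⟩ <;> simp [off])]
          ring
      have g3 : a e3 = - a (C (j + 2)) := by
        rw [Z (C (j + 3)) (by simp [off])
          (by rcases h2 with ⟨rfl, -⟩ | ⟨rfl, -⟩ <;> simp)
          (by rcases h3 with ⟨rfl, -⟩ | ⟨rfl, -⟩ <;> simp)] at E3
        rcases h3 with ⟨rfl, rfl⟩ | ⟨rfl, rfl⟩
        · rw [Z (B (j + 3)) (by simp)
            (by rcases h2 with ⟨rfl, -⟩ | ⟨rfl, -⟩ <;> simp [off]) (by simp)] at E3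
          linarith
        · rw [Z (A (j + 3)) (by simp)
            (by rcases h2 with ⟨rfl, -⟩ | ⟨rfl, -⟩ <;> simp [off]) (by simp)] at E3
          linarith
      rw [g2, g3] at hsum
      have hg : g k2 = g k3 := by
        have : a (C (j + 2)) * (g k2 - g k3) = 0 := by linarith
        rcases mul_eq_zero.1 this with h | h
        · exact absurd h hi
        · linarith
      have hk := g_inj hg
      rcases h2 with ⟨-, rfl⟩ | ⟨-, rfl⟩ <;> rcases h3 with ⟨-, rfl⟩ | ⟨-, rfl⟩
      · simp [off] at hk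
      · rw [add_assoc] at hk
        norm_num [off] at hk
      · rw [add_assoc] at hk
        norm_num [off] at hk
      · rw [add_assoc, add_assoc] at hk
        norm_num [off] at hk
    rcases o2 with h2 | h2 | h2
    · rcases o3 with h3 | h3 | h3
      · exact two _ _ _ _ (Or.inl ⟨rfl, rfl⟩) (Or.inl ⟨rfl, rfl⟩) h2 h3
      · exact two _ _ _ _ (Or.inl ⟨rfl, rfl⟩) (Or.inr ⟨rfl, rfl⟩) h2 h3
      · have Z := hZ _ _ (by simp) (by simp [off]) (by simp) h2 h3
        rw [Z (A (j + 4)) (by simp) (by simp [off]) (by simp), Z (B (j + 4)) (by simp) (by simp)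
          (by simp), Z (C (j + 4)) (by simp [off]) (by simp) (by simp [off])] at E4
        apply h3
        linarith
    · rcases o3 with h3 | h3 | h3
      · exact two _ _ _ _ (Or.inr ⟨rfl, rfl⟩) (Or.inl ⟨rfl, rfl⟩) h2 h3
      · exact two _ _ _ _ (Or.inr ⟨rfl, rfl⟩) (Or.inr ⟨rfl, rfl⟩) h2 h3
      · have Z := hZ _ _ (by simp) (by simp [off]) (by simp) h2 h3
        rw [Z (A (j + 4)) (by simp) (by simp) (by simp), Z (B (j + 4)) (by simp)
          (by simp [off]) (by simp), Z (C (j + 4)) (by simp [off]) (by simp) (by simp [off])] at E4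
        apply h3
        linarith
    · have Z : a (A (j + 1)) = 0 ∧ a (B (j + 1)) = 0 ∧ a (C j) = 0 := by
        rcases o3 with h3 | h3 | h3
        · have Z := hZ _ _ (by simp [off]) (by simp) (by simp) h2 h3
          exact ⟨Z _ (by simp) (by simp) (by simp [off]), Z _ (by simp) (by simp) (by simp),
            Z _ (by simp [off]) (by simp [off]) (by simp)⟩
        · have Z := hZ _ _ (by simp [off]) (by simp) (by simp) h2 h3
          exact ⟨Z _ (by simp) (by simp) (by simp), Z _ (by simp) (by simp) (by simp [off]),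
            Z _ (by simp [off]) (by simp [off]) (by simp)⟩
        · have Z := hZ _ _ (by simp [off]) (by simp [off]) (by simp [off]) h2 h3
          exact ⟨Z _ (by simp) (by simp) (by simp), Z _ (by simp) (by simp) (by simp),
            Z _ (by simp [off]) (by simp [off]) (by simp [off])⟩
      rw [Z.1, Z.2.1, Z.2.2] at E1
      apply h2
      linarith
  have hC : ∀ i, a (C i) = 0 := by
    intro i
    have := hC' (i - 2)
    rwa [show i - 2 + 2 = i by ring] at this
  have hB : ∀ i, a (B i) = - a (A i) := by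
    intro i
    have := hv i
    rw [hC, hC] at this
    linarith
  have hA : ∀ i, a (A i) = 0 := by
    intro i
    by_contra hi
    have hi' : a (B i) ≠ 0 := by rw [hB]; simpa using hi
    have f0 : ∀ x, x ≠ i → a (A x) * g x + a (B x) * g (x + 2) = 0 := by
      intro x hx
      have hx0 : a (A x) = 0 := by
        by_contra hx'
        have := four (A i) (B i) (A x) (B x) (by simp [Ne.symm hx]) hi hi' hx'
        rw [hB] at this
        exact hx' (by linarith)
      rw [hB, hx0]
      ring
    rw [Fintype.sum_eq_single i f0, hB] at hs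
    have : a (A i) * (g i - g (i + 2)) = 0 := by linarith
    rcases mul_eq_zero.1 this with h | h
    · exact hi h
    · have := g_inj (sub_eq_zero.1 h)
      simp [off] at this
  funext e
  rcases e with i | i | i
  · exact hA i
  · show a (B i) = 0
    rw [hB, hA, neg_zero]
  · exact hC i

lemma six {n : ℕ} [NeZero n] {K : Set (El n)} (hK : K.ncard ≤ 5) {e1 e2 e3 e4 e5 e6 : El n}
    (h1 : e1 ∈ K) (h2 : e2 ∈ K) (h3 : e3 ∈ K) (h4 : e4 ∈ K) (h5 : e5 ∈ K) (h6 : e6 ∈ K)
    (hnd : [e1, e2, e3, e4, e5, e6].Nodup) : False := by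
  have hsub : (([e1, e2, e3, e4, e5, e6].toFinset : Finset (El n)) : Set (El n)) ⊆ K := by
    intro e he
    simp only [List.coe_toFinset, List.mem_cons, List.not_mem_nil, or_false,
      mem_ofPred_eq] at he
    rcases he with rfl | rfl | rfl | rfl | rfl | rfl <;> assumption
  have h := ncard_le_ncard hsub (toFinite K)
  rw [ncard_coe_finset, List.toFinset_card_of_nodup hnd] at h
  simp at h
  omega

lemma exists_free_vertex {n : ℕ} [NeZero n] {K : Set (El n)} (hK : K.ncard < n) :
    ∃ i : ZMod n, A i ∉ K ∧ B i ∉ K := by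
  by_contra hcon
  push Not at hcon
  let f : El n → ZMod n := fun e => Sum.elim id (Sum.elim id id) e
  have hsub : (univ : Set (ZMod n)) ⊆ f '' K := by
    intro i _
    by_cases h : A i ∈ K
    · exact ⟨A i, h, rfl⟩
    · exact ⟨B i, hcon i h, rfl⟩
  have h1 := ncard_le_ncard hsub (toFinite _)
  have h2 := ncard_image_le (f := f) (toFinite K)
  rw [ncard_univ, Nat.card_zmod] at h1
  omega

/-- a functional vanishing outside a small set of elements -/
lemma ann {n : ℕ} [NeZero n] (hn : 6 ≤ n) {K : Set (El n)} (hK : K.ncard ≤ 5) (F : ZMod n → ℝ)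
    (f0 : ℝ) (hA : ∀ i, A i ∉ K → F i + g i * f0 = 0)
    (hB : ∀ i, B i ∉ K → F i + g (i + 2) * f0 = 0) (hC : ∀ i, C i ∉ K → F (i + 1) = F i) :
    f0 = 0 ∧ ∀ i, F i ≠ 0 → A i ∈ K ∧ B i ∈ K ∧ C i ∈ K ∧ C (i - 1) ∈ K := by
  have off := zne hn
  have h0 : f0 = 0 := by
    obtain ⟨i, hAi, hBi⟩ := exists_free_vertex (n := n) (K := K) (by omega)
    have h1 := hA i hAi
    have h2 := hB i hBi
    have h3 : (g i - g (i + 2)) * f0 = 0 := by linarith
    rcases mul_eq_zero.1 h3 with h | h
    · have := g_inj (sub_eq_zero.1 h)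
      simp [off] at this
    · exact h
  refine ⟨h0, ?_⟩
  subst h0
  have hA' : ∀ i, F i ≠ 0 → A i ∈ K := by
    intro i hi
    by_contra h
    exact hi (by simpa using hA i h)
  have hB' : ∀ i, F i ≠ 0 → B i ∈ K := by
    intro i hi
    by_contra h
    exact hi (by simpa using hB i h)
  have hCC : ∀ j, F (j + 2) ≠ 0 → C (j + 2) ∈ K ∧ C (j + 1) ∈ K := by
    intro j hj
    have a2 := hA' _ hj
    have b2 := hB' _ hj
    have right : C (j + 2) ∈ K := by
      by_contra hc2
      have hj3 : F (j + 3) ≠ 0 := by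
        have := hC _ hc2
        rw [show j + 2 + 1 = j + 3 by ring] at this
        rwa [this]
      have a3 := hA' _ hj3
      have b3 := hB' _ hj3
      by_cases hc1 : C (j + 1) ∈ K
      · by_cases hc3 : C (j + 3) ∈ K
        · exact six hK a2 b2 a3 b3 hc1 hc3 (by simp [off])
        · have hj4 : F (j + 4) ≠ 0 := by
            have := hC _ hc3
            rw [show j + 3 + 1 = j + 4 by ring] at this
            rwa [this]
          exact six hK a2 b2 a3 b3 hc1 (hA' _ hj4) (by simp [off])
      · have hj1 : F (j + 1) ≠ 0 := by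
          have := hC _ hc1
          rw [show j + 1 + 1 = j + 2 by ring] at this
          rwa [← this]
        exact six hK a2 b2 a3 b3 (hA' _ hj1) (hB' _ hj1) (by simp [off])
    refine ⟨right, ?_⟩
    by_contra hc1
    have hj1 : F (j + 1) ≠ 0 := by
      have := hC _ hc1
      rw [show j + 1 + 1 = j + 2 by ring] at this
      rwa [← this]
    have a1 := hA' _ hj1
    have b1 := hB' _ hj1
    by_cases hc0 : C j ∈ K
    · exact six hK a2 b2 a1 b1 right hc0 (by simp [off])
    · have hj0 : F j ≠ 0 := by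
        have := hC _ hc0
        rwa [← this]
      exact six hK a2 b2 a1 b1 right (hA' _ hj0) (by simp [off])
  intro i hi
  have h := hCC (i - 2) (by rwa [show i - 2 + 2 = i by ring])
  rw [show i - 2 + 2 = i by ring, show i - 2 + 1 = i - 1 by ring] at h
  exact ⟨hA' i hi, hB' i hi, h.1, h.2⟩

/-- a functional gives the data in `ann` -/
lemma span_eq_top {n : ℕ} [NeZero n] (Y : Set (El n))
    (h : ∀ (F : ZMod n → ℝ) (f0 : ℝ), (∀ i, A i ∈ Y → F i + g i * f0 = 0) →
      (∀ i, B i ∈ Y → F i + g (i + 2) * f0 = 0) → (∀ i, C i ∈ Y → F (i + 1) = F i) →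
      F = 0 ∧ f0 = 0) : span ℝ (vec n '' Y) = ⊤ := by
  by_contra hne
  obtain ⟨f, hf, hle⟩ := Submodule.exists_le_ker_of_lt_top _ (lt_top_iff_ne_top.2 hne)
  have hz : ∀ e ∈ Y, f (vec n e) = 0 := fun e he =>
    hle (subset_span (mem_image_of_mem _ he))
  have hpair : ∀ (i : ZMod n) (c : ℝ), f ((Pi.single i 1, c) : Vec n) =
      f (Pi.single i 1, 0) + c * f (0, 1) := by
    intro i c
    have : ((Pi.single i 1, c) : Vec n) = (Pi.single i 1, 0) + c • (0, 1) := by
      ext <;> simp
    rw [this, map_add, map_smul, smul_eq_mul]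
  obtain ⟨h1, h2⟩ := h (fun i => f (Pi.single i 1, 0)) (f (0, 1))
    (fun i hi => by
      have := hz _ hi
      rw [show vec n (A i) = (Pi.single i 1, g i) from rfl, hpair] at this
      exact this)
    (fun i hi => by
      have := hz _ hi
      rw [show vec n (B i) = (Pi.single i 1, g (i + 2)) from rfl, hpair] at this
      exact this)
    (fun i hi => by
      have := hz _ hi
      rw [show vec n (C i) = ((Pi.single (i + 1) 1, 0) : Vec n) - (Pi.single i 1, 0) by
        ext <;> simp [vec], map_sub, sub_eq_zero] at this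
      exact this)
  apply hf
  apply LinearMap.prod_ext
  · apply LinearMap.pi_ext'
    intro i
    ext
    simpa using congrFun h1 i
  · ext
    simpa using h2

lemma finrank_vec (n : ℕ) [NeZero n] : finrank ℝ (Vec n) = n + 1 := by
  rw [Module.finrank_prod, Module.finrank_pi, Module.finrank_self, ZMod.card]

/-- sets of size at most three are independent -/
lemma indep3 {n : ℕ} [NeZero n] (hn : 6 ≤ n) {T : Set (El n)} (hT : T.ncard ≤ 3) :
    LinearIndepOn ℝ (vec n) T := by
  rw [indepOn_iff]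
  intro a ha hrel
  exact small3 hn hrel hT ha

/-- the main connectivity property -/
lemma star_ineq {n : ℕ} [NeZero n] (hn : 6 ≤ n) {X : Set (El n)} (hX : X.ncard = 4) {s : El n}
    (hs : ∀ i, s ≠ C i) (hsX : s ∉ X) : n + 4 ≤ rk (vec n) X + rk (vec n) (insert s X)ᶜ := by
  have off := zne hn
  have hK : (insert s X).ncard ≤ 5 := by
    rw [ncard_insert_of_notMem hsX (toFinite X), hX]
  by_cases hstar : ∃ i : ZMod n, A i ∈ insert s X ∧ B i ∈ insert s X ∧ C i ∈ insert s X ∧
      C (i - 1) ∈ insert s X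
  · obtain ⟨i, ha, hb, hc, hc'⟩ := hstar
    have hcX : C i ∈ X := by
      rcases hc with h | h
      · exact absurd h.symm (hs i)
      · exact h
    have hcX' : C (i - 1) ∈ X := by
      rcases hc' with h | h
      · exact absurd h.symm (hs (i - 1))
      · exact h
    -- `X` is independent
    have h1 : rk (vec n) X = 4 := by
      rw [rk_of_indep _ ?_, hX]
      rw [indepOn_iff]
      intro a hsupp hrel
      by_cases h1 : a (C i) = 0
      · refine small3 hn hrel (T := X \ {C i}) ?_ ?_
        · rw [ncard_sdiff_singleton_of_mem hcX, hX]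
        · intro e he
          by_cases heX : e ∈ X
          · have : e = C i := by
              by_contra hcon
              exact he ⟨heX, hcon⟩
            rw [this, h1]
          · exact hsupp e heX
      by_cases h2 : a (C (i - 1)) = 0
      · refine small3 hn hrel (T := X \ {C (i - 1)}) ?_ ?_
        · rw [ncard_sdiff_singleton_of_mem hcX', hX]
        · intro e he
          by_cases heX : e ∈ X
          · have : e = C (i - 1) := by
              by_contra hcon
              exact he ⟨heX, hcon⟩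
            rw [this, h2]
          · exact hsupp e heX
      exfalso
      obtain ⟨j, rfl⟩ : ∃ j, i = j + 2 := ⟨i - 2, by ring⟩
      rw [show j + 2 - 1 = j + 1 by ring] at h2 hc'
      have E1 := hrel.1 (j + 1)
      rw [show j + 1 - 1 = j by ring] at E1
      have E3 := hrel.1 (j + 3)
      rw [show j + 3 - 1 = j + 2 by ring] at E3
      have hmem : ∀ e, a e ≠ 0 → e ∈ insert s X := by
        intro e he
        right
        by_contra hcon
        exact he (hsupp e hcon)
      have o1 : a (A (j + 1)) ≠ 0 ∨ a (B (j + 1)) ≠ 0 ∨ a (C j) ≠ 0 := by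
        by_contra hcon
        push Not at hcon
        rw [hcon.1, hcon.2.1, hcon.2.2] at E1
        apply h2
        linarith
      have o3 : a (A (j + 3)) ≠ 0 ∨ a (B (j + 3)) ≠ 0 ∨ a (C (j + 3)) ≠ 0 := by
        by_contra hcon
        push Not at hcon
        rw [hcon.1, hcon.2.1] at E3
        apply h1
        linarith
      rcases o1 with o1 | o1 | o1 <;> rcases o3 with o3 | o3 | o3 <;>
        exact six hK ha hb hc hc' (hmem _ o1) (hmem _ o3) (by simp [off])
    -- the complement together with `C i` spans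
    have h2 : n + 1 ≤ rk (vec n) ((insert s X)ᶜ ∪ {C i}) := by
      rw [rk, span_eq_top, finrank_top, finrank_vec]
      intro F f0 hA hB hC
      have hK' : ((insert s X) \ {C i}).ncard ≤ 4 := by
        rw [ncard_sdiff_singleton_of_mem hc]
        omega
      have hY : ∀ e, e ∉ (insert s X) \ {C i} → e ∈ (insert s X)ᶜ ∪ {C i} := by
        intro e he
        by_cases h : e = C i
        · exact Or.inr h
        · exact Or.inl fun h' => he ⟨h', h⟩
      obtain ⟨h0, hF⟩ := ann hn (hK'.trans (by norm_num)) F f0 (fun i hi => hA i (hY _ hi))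
        (fun i hi => hB i (hY _ hi)) (fun i hi => hC i (hY _ hi))
      refine ⟨?_, h0⟩
      funext j
      by_contra hj
      obtain ⟨ha', hb', hc1, hc2⟩ := hF j hj
      have hij : i ≠ j := by
        rintro rfl
        exact hc1.2 rfl
      exact six hK ha hb ha'.1 hb'.1 hc1.1 hc (by simp [hij, hij.symm])
    have h3 := rk_union_le (vec n) (insert s X)ᶜ {C i}
    rw [ncard_singleton] at h3
    omega
  · push Not at hstar
    have h1 : 3 ≤ rk (vec n) X := by
      obtain ⟨T, hTX, hT⟩ := exists_subset_card_eq (s := X) (n := 3) (by omega)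
      rw [← hT, ← rk_of_indep _ (indep3 hn hT.le)]
      exact rk_mono _ hTX
    have h2 : n + 1 ≤ rk (vec n) (insert s X)ᶜ := by
      rw [rk, span_eq_top, finrank_top, finrank_vec]
      intro F f0 hA hB hC
      obtain ⟨h0, hF⟩ := ann hn hK F f0 (fun i hi => hA i hi)
        (fun i hi => hB i hi) (fun i hi => hC i hi)
      refine ⟨?_, h0⟩
      funext j
      by_contra hj
      obtain ⟨ha', hb', hc1, hc2⟩ := hF j hj
      exact hstar j ha' hb' hc1 hc2
    omega

/-- vectors supported on the vertex set `S` -/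
def Sup {n : ℕ} (S : Set (ZMod n)) : Submodule ℝ (Vec n) where
  carrier := {u | ∀ i ∉ S, u.1 i = 0}
  add_mem' := by
    intro u v hu hv i hi
    simp [hu i hi, hv i hi]
  zero_mem' := by intro i _; rfl
  smul_mem' := by
    intro c u hu i hi
    simp [hu i hi]

lemma mem_Sup {n : ℕ} {S : Set (ZMod n)} {u : Vec n} : u ∈ Sup S ↔ ∀ i ∉ S, u.1 i = 0 := Iff.rfl

lemma finrank_Sup {n : ℕ} [NeZero n] (S : Set (ZMod n)) : finrank ℝ (Sup S) ≤ S.ncard + 1 := by
  classical
  let T : Set (Vec n) := insert ((0, 1) : Vec n) ((fun p => ((Pi.single p 1, 0) : Vec n)) '' S)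
  have hle : Sup S ≤ span ℝ T := by
    intro u hu
    have h1 : u = (∑ p : ZMod n, u.1 p • ((Pi.single p 1, 0) : Vec n)) + u.2 • ((0, 1) : Vec n) := by
      refine Prod.ext (funext fun i => ?_) ?_
      · simp [Prod.fst_sum, Finset.sum_apply, Pi.single_apply]
      · simp [Prod.snd_sum]
    rw [h1]
    refine add_mem (sum_mem fun p _ => ?_) (smul_mem _ _ (subset_span (mem_insert _ _)))
    by_cases hp : p ∈ S
    · exact smul_mem _ _ (subset_span (mem_insert_of_mem _ (mem_image_of_mem _ hp)))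
    · rw [hu p hp, zero_smul]
      exact zero_mem _
  have hT : T.Finite := (toFinite S).image _ |>.insert _
  haveI := hT.fintype
  calc finrank ℝ (Sup S) ≤ finrank ℝ (span ℝ T) := Submodule.finrank_mono hle
    _ ≤ T.toFinset.card := finrank_span_le_card T
    _ = T.ncard := (ncard_eq_toFinset_card' T).symm
    _ ≤ ((fun p => ((Pi.single p 1, 0) : Vec n)) '' S).ncard + 1 := ncard_insert_le _ _
    _ ≤ S.ncard + 1 := by
      have := ncard_image_le (f := fun p => ((Pi.single p 1, 0) : Vec n)) (toFinite S)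
      omega

lemma vec_A_mem {n : ℕ} {S : Set (ZMod n)} {i : ZMod n} (h : i ∈ S) : vec n (A i) ∈ Sup S := by
  intro j hj
  have : j ≠ i := fun hji => hj (hji ▸ h)
  simp [vec, this]

lemma vec_B_mem {n : ℕ} {S : Set (ZMod n)} {i : ZMod n} (h : i ∈ S) : vec n (B i) ∈ Sup S := by
  intro j hj
  have : j ≠ i := fun hji => hj (hji ▸ h)
  simp [vec, this]

lemma vec_C_mem {n : ℕ} {S : Set (ZMod n)} {i : ZMod n} (h : i ∈ S) (h' : i + 1 ∈ S) :
    vec n (C i) ∈ Sup S := by
  intro j hj
  have h1 : j ≠ i := fun hji => hj (hji ▸ h)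
  have h2 : j ≠ i + 1 := fun hji => hj (hji ▸ h')
  simp [vec, h1, h2]

/-- position of an element when the ring is cut open at the vertex `i₀` -/
def pos {n : ℕ} (i₀ : ZMod n) : El n → ℕ
  | Sum.inl i => 3 * (i - i₀).val
  | Sum.inr (Sum.inl i) => 3 * (i - i₀).val + 1
  | Sum.inr (Sum.inr i) => 3 * (i - i₀).val + 2

lemma pos_inj {n : ℕ} [NeZero n] (i₀ : ZMod n) {e f : El n} (h : pos i₀ e = pos i₀ f) : e = f := by
  have key : ∀ i j : ZMod n, (i - i₀).val = (j - i₀).val → i = j := by
    intro i j hij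
    have := ZMod.val_injective n hij
    exact sub_left_injective this
  rcases e with i | i | i <;> rcases f with j | j | j <;> simp only [pos] at h
  · rw [key i j (by omega)]
  · omega
  · omega
  · omega
  · rw [key i j (by omega)]
  · omega
  · omega
  · omega
  · rw [key i j (by omega)]

lemma pos_lt {n : ℕ} [NeZero n] (i₀ : ZMod n) (e : El n) : pos i₀ e < 3 * n := by
  have key : ∀ i : ZMod n, (i - i₀).val < n := fun i => ZMod.val_lt _
  rcases e with i | i | i <;> have := key i <;> simp only [pos] <;> omega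

lemma exists_prefix {n : ℕ} [NeZero n] (i₀ : ZMod n) (U : Set (El n)) {k : ℕ} (hk : k ≤ U.ncard) :
    ∃ j : ℕ, (U ∩ {e | pos i₀ e < j}).ncard = k := by
  have hex : ∃ j : ℕ, k ≤ (U ∩ {e | pos i₀ e < j}).ncard := by
    refine ⟨3 * n, ?_⟩
    have : U ∩ {e | pos i₀ e < 3 * n} = U := by
      apply inter_eq_left.2
      intro e _
      exact pos_lt i₀ e
    rwa [this]
  classical
  let j := Nat.find hex
  have hj : k ≤ (U ∩ {e | pos i₀ e < j}).ncard := Nat.find_spec hex
  refine ⟨j, le_antisymm ?_ hj⟩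
  rcases Nat.eq_zero_or_pos j with h0 | hpos
  · rw [h0]
    simp
  · have hlt : ¬ k ≤ (U ∩ {e | pos i₀ e < j - 1}).ncard := Nat.find_min hex (by omega)
    have hsub : (U ∩ {e | pos i₀ e < j}) ⊆
        (U ∩ {e | pos i₀ e < j - 1}) ∪ {e | pos i₀ e = j - 1} := by
      rintro e ⟨heU, he⟩
      simp only [mem_union, mem_inter_iff, mem_ofPred_eq] at he ⊢
      by_cases h : pos i₀ e = j - 1
      · exact Or.inr h
      · exact Or.inl ⟨heU, by omega⟩
    have h1 : ({e | pos i₀ e = j - 1} : Set (El n)).ncard ≤ 1 := by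
      rw [ncard_le_one (toFinite _)]
      intro e he f hf
      exact pos_inj i₀ (he.trans hf.symm)
    have h2 := ncard_le_ncard hsub (toFinite _)
    have h3 := ncard_union_le (U ∩ {e | pos i₀ e < j - 1}) {e | pos i₀ e = j - 1}
    omega

lemma val_succ {n : ℕ} [NeZero n] (hn : 6 ≤ n) (x : ZMod n) :
    (x + 1).val = x.val + 1 ∨ (x + 1 = 0 ∧ x.val + 1 = n) := by
  have h1 : (1 : ZMod n).val = 1 := ZMod.val_one'' (by omega)
  by_cases h : x.val + 1 < n
  · left
    rw [ZMod.val_add_of_lt (by rw [h1]; exact h), h1]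
  · right
    have h2 : x.val + 1 = n := by
      have := ZMod.val_lt x
      omega
    refine ⟨?_, h2⟩
    rw [← ZMod.natCast_zmod_val x, ← Nat.cast_one, ← Nat.cast_add, h2, ZMod.natCast_self]

/-- the elements before the cut -/
lemma low_mem {n : ℕ} [NeZero n] (hn : 6 ≤ n) (i₀ : ZMod n) (j : ℕ) {e : El n}
    (he : pos i₀ e < j) : vec n e ∈ Sup {i : ZMod n | (i - i₀).val ≤ j / 3} := by
  rcases e with i | i | i <;> simp only [pos] at he
  · apply vec_A_mem
    simp only [mem_ofPred_eq]
    omega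
  · apply vec_B_mem
    simp only [mem_ofPred_eq]
    omega
  · apply vec_C_mem
    · simp only [mem_ofPred_eq]
      omega
    · simp only [mem_ofPred_eq]
      rcases val_succ hn (i - i₀) with h | ⟨h, -⟩
      · rw [show i + 1 - i₀ = i - i₀ + 1 by ring, h]
        omega
      · rw [show i + 1 - i₀ = i - i₀ + 1 by ring, h, ZMod.val_zero]
        omega

/-- the elements after the cut -/
lemma high_mem {n : ℕ} [NeZero n] (hn : 6 ≤ n) (i₀ : ZMod n) (j : ℕ) {e : El n}
    (he : j ≤ pos i₀ e) : vec n e ∈ Sup {i : ZMod n | j / 3 ≤ (i - i₀).val ∨ i = i₀} := by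
  rcases e with i | i | i <;> simp only [pos] at he
  · apply vec_A_mem
    simp only [mem_ofPred_eq]
    omega
  · apply vec_B_mem
    simp only [mem_ofPred_eq]
    omega
  · apply vec_C_mem
    · simp only [mem_ofPred_eq]
      omega
    · simp only [mem_ofPred_eq]
      rcases val_succ hn (i - i₀) with h | ⟨h, -⟩
      · rw [show i + 1 - i₀ = i - i₀ + 1 by ring, h]
        omega
      · right
        rw [← sub_eq_zero, show i + 1 - i₀ = i - i₀ + 1 by ring, h]

lemma high_mem' {n : ℕ} [NeZero n] (hn : 6 ≤ n) (i₀ : ZMod n) (j : ℕ) {e : El n}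
    (he : j ≤ pos i₀ e) (hne : e ≠ C (i₀ - 1)) :
    vec n e ∈ Sup {i : ZMod n | j / 3 ≤ (i - i₀).val} := by
  rcases e with i | i | i <;> simp only [pos] at he
  · apply vec_A_mem
    simp only [mem_ofPred_eq]
    omega
  · apply vec_B_mem
    simp only [mem_ofPred_eq]
    omega
  · apply vec_C_mem
    · simp only [mem_ofPred_eq]
      omega
    · simp only [mem_ofPred_eq]
      rcases val_succ hn (i - i₀) with h | ⟨h, -⟩
      · rw [show i + 1 - i₀ = i - i₀ + 1 by ring, h]
        omega
      · exfalso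
        apply hne
        have : i = i₀ - 1 := by
          have : i = (i - i₀ + 1) + i₀ - 1 := by ring
          rw [this, h, zero_add]
        rw [this]

lemma Sup_inf {n : ℕ} (S T : Set (ZMod n)) : Sup S ⊓ Sup T ≤ Sup (S ∩ T) := by
  rintro u ⟨h1, h2⟩ i hi
  by_cases h : i ∈ S
  · exact h2 i fun h' => hi ⟨h, h'⟩
  · exact h1 i h

lemma single_offset {n : ℕ} [NeZero n] (i₀ : ZMod n) (t : ℕ) :
    ({i : ZMod n | (i - i₀).val = t} : Set (ZMod n)).ncard ≤ 1 := by
  rw [ncard_le_one (toFinite _)]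
  intro a ha b hb
  have := ZMod.val_injective n (ha.trans hb.symm)
  exact sub_left_injective this

/-- **The path lemma.** If a spoke is contracted or a rim edge is deleted, then the resulting minor
has a cut of size `k` and low connectivity, for each `k`. -/
lemma path_cut {n : ℕ} [NeZero n] (hn : 6 ≤ n) {U Z : Set (El n)} (hUZ : Disjoint U Z)
    (h : (∃ s ∈ Z, ∀ i, s ≠ C i) ∨ (∃ i, C i ∉ U ∪ Z)) {k : ℕ} (hk : k ≤ U.ncard) :
    ∃ X ⊆ U, X.ncard = k ∧
      rk (vec n) (X ∪ Z) + rk (vec n) ((U \ X) ∪ Z) ≤ Z.ncard + rk (vec n) (U ∪ Z) + 2 := by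
  rcases h with ⟨s, hsZ, hs⟩ | ⟨c, hc⟩
  · -- a spoke is contracted
    obtain ⟨i₀, hsi⟩ : ∃ i₀, s = A i₀ ∨ s = B i₀ := by
      rcases s with i | i | i
      · exact ⟨i, Or.inl rfl⟩
      · exact ⟨i, Or.inr rfl⟩
      · exact absurd rfl (hs i)
    obtain ⟨j, hj⟩ := exists_prefix i₀ U hk
    set P : Set (El n) := {e | pos i₀ e < j} with hP
    have hsU : s ∉ U := fun h' => (disjoint_left.1 hUZ h') hsZ
    have hUA : U ∩ (P ∪ {s}) = U ∩ P := by
      ext x
      simp only [mem_inter_iff, mem_union, mem_singleton_iff]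
      constructor
      · rintro ⟨h1, h2 | rfl⟩
        · exact ⟨h1, h2⟩
        · exact absurd h1 hsU
      · rintro ⟨h1, h2⟩
        exact ⟨h1, Or.inl h2⟩
    have hUA' : U \ (P ∪ {s}) = U \ (U ∩ P) := by
      ext x
      simp only [mem_sdiff, mem_inter_iff, mem_union, mem_singleton_iff]
      constructor
      · rintro ⟨h1, h2⟩
        exact ⟨h1, fun h3 => h2 (Or.inl h3.2)⟩
      · rintro ⟨h1, h2⟩
        refine ⟨h1, ?_⟩
        rintro (h3 | rfl)
        · exact h2 ⟨h1, h3⟩
        · exact hsU h1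
    refine ⟨U ∩ P, inter_subset_left, hj, ?_⟩
    have hsupA : span ℝ (vec n '' (P ∪ {s})) ≤ Sup {i : ZMod n | (i - i₀).val ≤ j / 3} := by
      rw [span_le]
      rintro _ ⟨e, he | he, rfl⟩
      · exact low_mem hn i₀ j he
      · rw [mem_singleton_iff] at he
        subst he
        rcases hsi with rfl | rfl
        · apply vec_A_mem
          simp
        · apply vec_B_mem
          simp
    have hsupB : span ℝ (vec n '' (Pᶜ ∪ {s})) ≤
        Sup {i : ZMod n | j / 3 ≤ (i - i₀).val ∨ i = i₀} := by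
      rw [span_le]
      rintro _ ⟨e, he | he, rfl⟩
      · refine high_mem hn i₀ j ?_
        simp only [hP, mem_compl_iff, mem_ofPred_eq] at he
        omega
      · rw [mem_singleton_iff] at he
        subst he
        rcases hsi with rfl | rfl
        · apply vec_A_mem
          simp
        · apply vec_B_mem
          simp
    have hd : finrank ℝ (span ℝ (vec n '' (P ∪ {s})) ⊓ span ℝ (vec n '' (Pᶜ ∪ {s})) :
        Submodule ℝ (Vec n)) ≤ 3 := by
      refine le_trans (Submodule.finrank_mono ((inf_le_inf hsupA hsupB).trans (Sup_inf _ _))) ?_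
      refine (finrank_Sup _).trans ?_
      have hsub : {i : ZMod n | (i - i₀).val ≤ j / 3} ∩
          {i : ZMod n | j / 3 ≤ (i - i₀).val ∨ i = i₀} ⊆
          insert i₀ {i : ZMod n | (i - i₀).val = j / 3} := by
        rintro i ⟨h1, h2 | h2⟩
        · right
          simp only [mem_ofPred_eq] at h1 ⊢
          omega
        · left
          exact h2
      have h1 := ncard_le_ncard hsub (toFinite _)
      have h2 := ncard_insert_le i₀ {i : ZMod n | (i - i₀).val = j / 3}
      have h3 := single_offset i₀ (j / 3)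
      omega
    have := rk_cut (vec n) (U := U) (C := Z) (A := P ∪ {s}) (B := Pᶜ ∪ {s}) hd
      (fun x hx => Or.inl fun h' => hx.2 (Or.inl h'))
      (fun x _ => by
        by_cases hx : x ∈ P
        · exact Or.inl (Or.inl hx)
        · exact Or.inr (Or.inl hx))
      (by
        have h1 : Z \ (P ∪ {s}) = (Z \ {s}) \ P := by
          ext x; simp only [mem_sdiff, mem_union, mem_singleton_iff]; tauto
        have h2 : Z \ (Pᶜ ∪ {s}) = (Z \ {s}) ∩ P := by
          ext x; simp only [mem_sdiff, mem_union, mem_singleton_iff, mem_compl_iff,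
            mem_inter_iff]; tauto
        have h3 := ncard_inter_add_ncard_sdiff_eq_ncard (Z \ {s}) P (toFinite _)
        have h4 := ncard_sdiff_singleton_add_one hsZ (toFinite Z)
        rw [h1, h2]
        omega)
    rwa [hUA, hUA'] at this
  · -- a rim edge is deleted
    have hcU : C c ∉ U := fun h' => hc (Or.inl h')
    have hcZ : C c ∉ Z := fun h' => hc (Or.inr h')
    set i₀ : ZMod n := c + 1 with hi₀
    have hcc : C c = C (i₀ - 1) := by rw [hi₀]; simp
    obtain ⟨j, hj⟩ := exists_prefix i₀ U hk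
    set P : Set (El n) := {e | pos i₀ e < j} with hP
    refine ⟨U ∩ P, inter_subset_left, hj, ?_⟩
    have hsupA : span ℝ (vec n '' P) ≤ Sup {i : ZMod n | (i - i₀).val ≤ j / 3} := by
      rw [span_le]
      rintro _ ⟨e, he, rfl⟩
      exact low_mem hn i₀ j he
    have hsupB : span ℝ (vec n '' (Pᶜ \ {C c})) ≤ Sup {i : ZMod n | j / 3 ≤ (i - i₀).val} := by
      rw [span_le]
      rintro _ ⟨e, he, rfl⟩
      refine high_mem' hn i₀ j ?_ ?_
      · have := he.1
        simp only [hP, mem_compl_iff, mem_ofPred_eq] at this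
        omega
      · rw [← hcc]
        exact he.2
    have hd : finrank ℝ (span ℝ (vec n '' P) ⊓ span ℝ (vec n '' (Pᶜ \ {C c})) :
        Submodule ℝ (Vec n)) ≤ 2 := by
      refine le_trans (Submodule.finrank_mono ((inf_le_inf hsupA hsupB).trans (Sup_inf _ _))) ?_
      refine (finrank_Sup _).trans ?_
      have hsub : {i : ZMod n | (i - i₀).val ≤ j / 3} ∩
          {i : ZMod n | j / 3 ≤ (i - i₀).val} ⊆ {i : ZMod n | (i - i₀).val = j / 3} := by
        rintro i ⟨h1, h2⟩
        simp only [mem_ofPred_eq] at h1 h2 ⊢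
        omega
      have h1 := ncard_le_ncard hsub (toFinite _)
      have h3 := single_offset i₀ (j / 3)
      omega
    have := rk_cut (vec n) (U := U) (C := Z) (A := P) (B := Pᶜ \ {C c}) hd
      (fun x hx => ⟨hx.2, fun h' => hcU (h' ▸ hx.1)⟩)
      (fun x hxZ => by
        by_cases hx : x ∈ P
        · exact Or.inl hx
        · exact Or.inr ⟨hx, fun h' => hcZ (h' ▸ hxZ)⟩)
      (by
        have h2 : Z \ (Pᶜ \ {C c}) = Z ∩ P := by
          ext x
          simp only [mem_sdiff, mem_singleton_iff, mem_compl_iff, mem_inter_iff]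
          constructor
          · rintro ⟨h1, h2⟩
            refine ⟨h1, ?_⟩
            by_contra hcon
            exact h2 ⟨hcon, fun h' => hcZ (h' ▸ h1)⟩
          · rintro ⟨h1, h2⟩
            exact ⟨h1, fun h' => h'.1 h2⟩
        have h3 := ncard_inter_add_ncard_sdiff_eq_ncard Z P (toFinite _)
        rw [h2]
        omega)
    have hUA' : U \ P = U \ (U ∩ P) := by
      ext x
      simp only [mem_sdiff, mem_inter_iff]
      tauto
    rwa [hUA'] at this

lemma const_of_succ {n : ℕ} [NeZero n] {β : Type*} (f : ZMod n → β) (h : ∀ i, f i = f (i - 1))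
    (i j : ZMod n) : f i = f j := by
  have key : ∀ k : ℕ, f (j + k) = f j := by
    intro k
    induction k with
    | zero => simp
    | succ k ih =>
      rw [h, ← ih]
      congr 1
      push_cast
      ring
  have := key (i - j).val
  rwa [ZMod.natCast_zmod_val, add_sub_cancel] at this

lemma spoke_sum {n : ℕ} [NeZero n] {a : El n → ℝ} (ha : Rel a) :
    ∑ i, (a (A i) + a (B i)) = 0 := by
  have h1 : ∑ i, (a (A i) + a (B i) + a (C (i - 1))) = ∑ i, a (C i) :=
    Finset.sum_congr rfl fun i _ => ha.1 i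
  rw [Finset.sum_add_distrib] at h1
  have h2 : ∑ i : ZMod n, a (C (i - 1)) = ∑ i, a (C i) :=
    (Equiv.subRight (1 : ZMod n)).sum_comp (fun i => a (C i))
  linarith

/-- relations using exactly two spokes -/
lemma rel_two {n : ℕ} [NeZero n] (hn : 6 ≤ n) {a : El n → ℝ} (ha : Rel a) {s s' : El n}
    (hs : ∀ i, s ≠ C i) (hs' : ∀ i, s' ≠ C i) (hne : s ≠ s') (has : a s ≠ 0)
    (hz : ∀ e, e ≠ s → e ≠ s' → (∀ i, e ≠ C i) → a e = 0) :
    ∃ (l : ZMod n) (t : ℝ), (s = A (l + 2) ∧ s' = B l ∨ s = B l ∧ s' = A (l + 2)) ∧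
      (∀ i, i ≠ l → i ≠ l + 1 → a (C i) = t) ∧ a (C l) ≠ t ∧ a (C (l + 1)) ≠ t := by
  have off := zne hn
  let w1 : El n → ℝ := Sum.elim (fun _ => 1) (Sum.elim (fun _ => 1) (fun _ => 0))
  let w2 : El n → ℝ := Sum.elim g (Sum.elim (fun i => g (i + 2)) (fun _ => 0))
  have hw : ∀ w : El n → ℝ, (∀ i, w (C i) = 0) → ∑ e, a e * w e = a s * w s + a s' * w s' := by
    intro w hwC
    refine Fintype.sum_eq_add s s' hne ?_
    rintro e ⟨h1, h2⟩
    by_cases h : ∀ i, e ≠ C i
    · rw [hz e h1 h2 h, zero_mul]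
    · push Not at h
      obtain ⟨i, rfl⟩ := h
      rw [hwC, mul_zero]
  have e1 : a s * w1 s + a s' * w1 s' = 0 := by
    rw [← hw w1 (fun _ => rfl), Fintype.sum_sum_type, Fintype.sum_sum_type]
    have := spoke_sum ha
    rw [Finset.sum_add_distrib] at this
    simpa [w1] using this
  have e2 : a s * w2 s + a s' * w2 s' = 0 := by
    rw [← hw w2 (fun _ => rfl), Fintype.sum_sum_type, Fintype.sum_sum_type]
    have := ha.2
    rw [Finset.sum_add_distrib] at this
    simpa [w2] using this
  have key : ∀ p q : ZMod n, a s * 1 + a s' * 1 = 0 → a s * g p + a s' * g q = 0 → p = q := by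
    intro p q h1 h2
    have h3 : a s * (g p - g q) = 0 := by
      have : a s' = - a s := by linarith
      rw [this] at h2
      linarith
    rcases mul_eq_zero.1 h3 with h | h
    · exact absurd h has
    · exact g_inj (by linarith)
  -- the two spokes carry the same label
  have hlab : ∃ l : ZMod n, (s = A (l + 2) ∧ s' = B l ∨ s = B l ∧ s' = A (l + 2)) := by
    rcases s with p | p | p
    · rcases s' with q | q | q
      · have := key p q e1 e2
        rw [this] at hne
        exact absurd rfl hne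
      · have := key p (q + 2) e1 e2
        exact ⟨q, Or.inl ⟨by rw [this], rfl⟩⟩
      · exact absurd rfl (hs' q)
    · rcases s' with q | q | q
      · have := key (p + 2) q e1 e2
        exact ⟨p, Or.inr ⟨rfl, by rw [this]⟩⟩
      · have := key (p + 2) (q + 2) e1 e2
        rw [add_right_cancel this] at hne
        exact absurd rfl hne
      · exact absurd rfl (hs' q)
    · exact absurd rfl (hs p)
  obtain ⟨l, hl⟩ := hlab
  have hab : a (B l) = - a (A (l + 2)) := by
    rcases hl with ⟨rfl, rfl⟩ | ⟨rfl, rfl⟩ <;> simp only [w1, Sum.elim_inl, Sum.elim_inr] at e1 <;>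
      linarith
  have hne0 : a (A (l + 2)) ≠ 0 := by
    rcases hl with ⟨rfl, rfl⟩ | ⟨rfl, rfl⟩
    · exact has
    · intro h
      rw [h, neg_zero] at hab
      exact has hab
  have hzA : ∀ i, i ≠ l + 2 → a (A i) = 0 := by
    intro i hi
    rcases hl with ⟨rfl, rfl⟩ | ⟨rfl, rfl⟩ <;> exact hz _ (by simp [hi]) (by simp [hi]) (by simp)
  have hzB : ∀ i, i ≠ l → a (B i) = 0 := by
    intro i hi
    rcases hl with ⟨rfl, rfl⟩ | ⟨rfl, rfl⟩ <;> exact hz _ (by simp [hi]) (by simp [hi]) (by simp)
  classical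
  let f : ZMod n → ℝ := fun i => a (C i) + if i = l ∨ i = l + 1 then a (A (l + 2)) else 0
  have hf : ∀ i, f i = f (i - 1) := by
    intro i
    have hv := ha.1 i
    simp only [f]
    by_cases h1 : i = l
    · subst h1
      rw [hzA i (by simp [off])] at hv
      rw [hab] at hv
      have c1 : ¬ (i - 1 = i ∨ i - 1 = i + 1) := by
        rintro (h | h)
        · simp [off] at h
        · have : (2 : ZMod n) = 0 := by
            have : (i + 1) - (i - 1) = (2 : ZMod n) := by ring
            rw [← this, h, sub_self]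
          exact off.2.2.1 this.symm
      rw [if_neg c1, if_pos (Or.inl rfl)]
      linarith
    by_cases h2 : i = l + 1
    · rw [hzA i (by rw [h2]; simp [off]), hzB i h1] at hv
      rw [if_pos (Or.inr h2), if_pos (Or.inl (by rw [h2]; ring))]
      linarith
    by_cases h3 : i = l + 2
    · rw [hzB i h1] at hv
      rw [if_neg (by tauto), if_pos (Or.inr (by rw [h3]; ring)), ← h3]
      linarith
    · rw [hzB i h1, hzA i h3] at hv
      have c1 : ¬ (i - 1 = l ∨ i - 1 = l + 1) := by
        rintro (h | h)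
        · exact h2 (by rw [← h]; ring)
        · exact h3 (by rw [sub_eq_iff_eq_add] at h; rw [h]; ring)
      rw [if_neg c1, if_neg (by tauto)]
      linarith
  have hfc := const_of_succ f hf
  refine ⟨l, f 0, hl, ?_, ?_, ?_⟩
  · intro i h1 h2
    have := hfc i 0
    simp only [f] at this
    rw [if_neg (by tauto)] at this
    simp only [f]
    linarith
  · have := hfc l 0
    simp only [f, true_or, if_true] at this
    simp only [f]
    intro h
    apply hne0
    linarith
  · have := hfc (l + 1) 0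
    simp only [f, or_true, if_true] at this
    simp only [f]
    intro h
    apply hne0
    linarith

/-- a rim edge -/
def rim (n : ℕ) : Set (El n) := {e | ∃ i, e = C i}

lemma rim_ncard (n : ℕ) [NeZero n] : (rim n).ncard = n := by
  have h : rim n = (fun i : ZMod n => (C i : El n)) '' univ := by
    ext e; simp only [rim, mem_ofPred_eq, image_univ, mem_range]
    constructor
    · rintro ⟨i, rfl⟩; exact ⟨i, rfl⟩
    · rintro ⟨i, rfl⟩; exact ⟨i, rfl⟩
  rw [h, ncard_image_of_injective _ (fun i j hij => by simpa using hij), ncard_univ,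
    Nat.card_zmod]

/-- a tree: the rim without one edge, and one spoke -/
lemma indep_tree {n : ℕ} [NeZero n] {T : Set (El n)} {i₀ : ZMod n} (h0 : C i₀ ∉ T) {s : El n}
    (hs : ∀ i, s ≠ C i) (hT : ∀ e ∈ T, e = s ∨ e ∈ rim n) : LinearIndepOn ℝ (vec n) T := by
  rw [indepOn_iff]
  intro a hsupp ha
  have hz : ∀ e, e ≠ s → (∀ i, e ≠ C i) → a e = 0 := by
    intro e h1 h2
    apply hsupp
    intro he
    rcases hT e he with h | ⟨i, h⟩
    · exact h1 h
    · exact h2 i h
  have h1 : ∑ e, a e * (Sum.elim (fun _ => 1) (Sum.elim (fun _ => 1) (fun _ => 0)) : El n → ℝ) e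
      = 0 := by
    rw [Fintype.sum_sum_type, Fintype.sum_sum_type]
    have := spoke_sum ha
    rw [Finset.sum_add_distrib] at this
    simpa using this
  rw [Fintype.sum_eq_single s] at h1
  · have hs0 : a s = 0 := by
      rcases s with p | p | p
      · simpa using h1
      · simpa using h1
      · exact absurd rfl (hs p)
    have hz' : ∀ e, (∀ i, e ≠ C i) → a e = 0 := by
      intro e he
      by_cases h : e = s
      · rw [h, hs0]
      · exact hz e h he
    have hc := const_of_succ (fun i => a (C i)) (fun i => by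
      have := ha.1 i
      rw [hz' (A i) (by simp), hz' (B i) (by simp)] at this
      linarith)
    funext e
    by_cases he : ∀ i, e ≠ C i
    · exact hz' e he
    · push Not at he
      obtain ⟨i, rfl⟩ := he
      have : a (C i) = a (C i₀) := hc i i₀
      rw [this, hsupp _ h0]
      rfl
  · intro e he
    rcases e with i | i | i
    · rw [hz _ he (by simp), zero_mul]
    · rw [hz _ he (by simp), zero_mul]
    · simp

lemma not_indep_rim {n : ℕ} [NeZero n] {T : Set (El n)} (h : rim n ⊆ T) :
    ¬ LinearIndepOn ℝ (vec n) T := by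
  rw [indepOn_iff]
  push Not
  refine ⟨Sum.elim (fun _ => 0) (Sum.elim (fun _ => 0) (fun _ => 1)), ?_, ?_, ?_⟩
  · intro e he
    rcases e with i | i | i
    · rfl
    · rfl
    · exact absurd (h ⟨i, rfl⟩) he
  · refine ⟨fun i => by simp, by simp⟩
  · intro h
    have := congrFun h (C 0)
    simp at this

/-- the matroids have no `U_{3,6}`-minor -/
lemma no_U36 {n : ℕ} [NeZero n] (hn : 6 ≤ n) {U Z : Set (El n)} (hUZ : Disjoint U Z)
    (hU : U.ncard = 6) (h : ∀ I ⊆ U, LinearIndepOn ℝ (vec n) (I ∪ Z) ↔ I.ncard ≤ 3) : False := by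
  have hZ : LinearIndepOn ℝ (vec n) Z := by
    have := (h ∅ (empty_subset _)).2 (by simp)
    rwa [empty_union] at this
  have hrk : ∀ X ⊆ U, X.ncard ≤ 3 → rk (vec n) (X ∪ Z) = X.ncard + Z.ncard := by
    intro X hX hc
    rw [rk_of_indep _ ((h X hX).2 hc), ncard_union_eq (hUZ.mono_left hX)]
  have htot : rk (vec n) (U ∪ Z) ≤ 3 + Z.ncard := by
    obtain ⟨b, hb1, hb2, hb3, hb4⟩ := exists_linearIndepOn_extension hZ
      (subset_union_right : Z ⊆ U ∪ Z)
    have hspan : span ℝ (vec n '' b) = span ℝ (vec n '' (U ∪ Z)) :=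
      le_antisymm (span_mono (image_mono hb1)) (span_le.2 hb3)
    have hb : b = (b \ Z) ∪ Z := by rw [sdiff_union_of_subset hb2]
    have hbU : b \ Z ⊆ U := by
      rintro x ⟨hx, hxZ⟩
      exact (hb1 hx).resolve_right hxZ
    have h3 : (b \ Z).ncard ≤ 3 := by
      rw [← h _ hbU, ← hb]
      exact hb4
    rw [rk, ← hspan]
    have h4 := rk_of_indep _ hb4
    rw [rk] at h4
    rw [h4, hb, ncard_union_eq (hUZ.mono_left hbU)]
    omega
  by_cases hcase : (∃ s ∈ Z, ∀ i, s ≠ C i) ∨ (∃ i, C i ∉ U ∪ Z)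
  · obtain ⟨X, hXU, hX, hle⟩ := path_cut hn hUZ hcase (k := 3) (by omega)
    have h1 := hrk X hXU hX.le
    have h2 : (U \ X).ncard = 3 := by
      rw [ncard_sdiff hXU (toFinite _)]
      omega
    have h3 := hrk (U \ X) sdiff_subset h2.le
    omega
  · push Not at hcase
    obtain ⟨hZr, hr⟩ := hcase
    have hsub : rim n ⊆ (U ∩ rim n) ∪ Z := by
      rintro _ ⟨i, rfl⟩
      rcases hr i with h' | h'
      · exact Or.inl ⟨h', i, rfl⟩
      · exact Or.inr h'
    have h4 : 4 ≤ (U ∩ rim n).ncard := by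
      by_contra hcon
      exact not_indep_rim hsub ((h _ inter_subset_left).2 (by omega))
    obtain ⟨e, he⟩ : (U ∩ rim n).Nonempty := by
      rw [← ncard_pos (toFinite _)]
      omega
    obtain ⟨heU, i₀, rfl⟩ := he
    have hi₀Z : C i₀ ∉ Z := fun h' => (disjoint_left.1 hUZ heU) h'
    -- independence of trees
    have htree : ∀ s : El n, (∀ i, s ≠ C i) → LinearIndepOn ℝ (vec n)
        (insert s ((U ∩ rim n) \ {C i₀}) ∪ Z) := by
      intro s hs
      refine indep_tree (i₀ := i₀) ?_ hs ?_
      · rintro (h' | h')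
        · rcases h' with h' | h'
          · exact hs _ h'.symm
          · exact h'.2 rfl
        · exact hi₀Z h'
      · rintro e (h' | h')
        · rcases h' with h' | h'
          · exact Or.inl h'
          · exact Or.inr h'.1.2
        · obtain ⟨i, hi⟩ := hZr e h'
          exact Or.inr ⟨i, hi⟩
    have hcard : ((U ∩ rim n) \ {C i₀}).ncard + 1 = (U ∩ rim n).ncard :=
      ncard_sdiff_singleton_add_one ⟨heU, i₀, rfl⟩ (toFinite _)
    by_cases hUr : U ⊆ rim n
    · have h5 : U ∩ rim n = U := inter_eq_left.2 hUr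
      have h6 : LinearIndepOn ℝ (vec n) (((U ∩ rim n) \ {C i₀}) ∪ Z) :=
        (htree (A 0) (by simp)).mono (union_subset_union_left _ (subset_insert _ _))
      rw [h _ (sdiff_subset.trans inter_subset_left)] at h6
      rw [h5] at h6 hcard
      omega
    · obtain ⟨s, hsU, hsr⟩ := not_subset.1 hUr
      have hs : ∀ i, s ≠ C i := fun i hi => hsr ⟨i, hi⟩
      have h6 := htree s hs
      rw [h _ (insert_subset hsU (sdiff_subset.trans inter_subset_left)),
        ncard_insert_of_notMem (fun h' => hsr h'.1.2) (toFinite _)] at h6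
      omega

lemma rk_univ_le {n : ℕ} [NeZero n] (X : Set (El n)) : rk (vec n) X ≤ n + 1 := by
  rw [← finrank_vec n]
  exact rk_le_finrank _ _

lemma rk_univ {n : ℕ} [NeZero n] (hn : 6 ≤ n) : rk (vec n) (univ : Set (El n)) = n + 1 := by
  rw [rk, span_eq_top, finrank_top, finrank_vec]
  intro F f0 hA hB hC
  obtain ⟨h0, hF⟩ := ann hn (K := ∅) (by simp) F f0 (fun i _ => hA i (mem_univ _))
    (fun i _ => hB i (mem_univ _)) (fun i _ => hC i (mem_univ _))
  refine ⟨?_, h0⟩
  funext j
  by_contra hj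
  exact (hF j hj).1

lemma ncard_El {n : ℕ} [NeZero n] : (univ : Set (El n)).ncard = n + (n + n) := by
  rw [ncard_univ, Nat.card_sum, Nat.card_sum, Nat.card_zmod]

/-- no member of the family is a minor of a larger one -/
lemma no_minor {m n : ℕ} [NeZero m] [NeZero n] (hm : 6 ≤ m) (hmn : m < n) (φ : El m → El n)
    (hφ : Function.Injective φ) {Z : Set (El n)} (hdisj : ∀ x, φ x ∉ Z)
    (h : ∀ I : Set (El m), LinearIndepOn ℝ (vec m) I ↔ LinearIndepOn ℝ (vec n) (φ '' I ∪ Z)) :
    False := by
  have hn : 6 ≤ n := by omega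
  have htr := rk_transfer (vec n) (vec m) φ hφ Z hdisj h
  have hdisj' : ∀ X : Set (El m), Disjoint (φ '' X) Z := by
    intro X
    rw [disjoint_left]
    rintro _ ⟨x, -, rfl⟩
    exact hdisj x
  -- the path lemma
  have hpath : ∀ s₀ : El m, (∀ i, s₀ ≠ C i) →
      (∀ s ∈ Z, ∃ i, s = C i) ∧ ∀ i, C i ∈ φ '' {s₀}ᶜ ∪ Z := by
    intro s₀ hs₀
    by_contra hcon
    have hcase : (∃ s ∈ Z, ∀ i, s ≠ C i) ∨ (∃ i, C i ∉ φ '' {s₀}ᶜ ∪ Z) := by
      by_contra hc
      push Not at hc
      exact hcon hc
    have hk : 4 ≤ (φ '' {s₀}ᶜ).ncard := by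
      rw [ncard_image_of_injective _ hφ]
      have h1 := ncard_add_ncard_compl {s₀}
      rw [ncard_singleton, ← ncard_univ, ncard_El] at h1
      omega
    obtain ⟨X', hX'U, hX', hle⟩ := path_cut hn (hdisj' {s₀}ᶜ) hcase hk
    obtain ⟨X, hXU, rfl⟩ : ∃ X ⊆ ({s₀}ᶜ : Set (El m)), φ '' X = X' := by
      rw [← subset_image_iff]
      exact hX'U
    rw [ncard_image_of_injective _ hφ] at hX'
    rw [← image_sdiff hφ, htr, htr, htr] at hle
    have hs₀X : s₀ ∉ X := fun h' => hXU h' rfl
    have h1 := star_ineq hm hX' hs₀ hs₀X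
    have h2 : ({s₀}ᶜ \ X : Set (El m)) = (insert s₀ X)ᶜ := by
      ext x
      simp only [mem_sdiff, mem_compl_iff, mem_singleton_iff, mem_insert_iff, not_or]
    rw [h2] at hle
    have h3 := rk_univ_le ({s₀}ᶜ : Set (El m))
    omega
  have hZ : ∀ s ∈ Z, ∃ i, s = C i := (hpath (A 0) (by simp)).1
  -- spokes go to spokes
  have hsp : ∀ s₀ : El m, (∀ i, s₀ ≠ C i) → ∀ i, φ s₀ ≠ C i := by
    intro s₀ hs₀ i hi
    rcases (hpath s₀ hs₀).2 i with ⟨x, hx, hx'⟩ | h'
    · rw [← hi] at hx'
      exact hx (hφ hx')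
    · rw [← hi] at h'
      exact hdisj _ h'
  -- remaining rim edges come from rim edges
  have hrim : ∀ i, C i ∉ Z → ∃ k : ZMod m, φ (C k) = C i := by
    intro i hi
    rcases (hpath (A 0) (by simp)).2 i with ⟨x, hx, hx'⟩ | h'
    · by_cases hx2 : ∀ k, x ≠ C k
      · exact absurd hx' (hsp x hx2 i)
      · push Not at hx2
        obtain ⟨k, rfl⟩ := hx2
        exact ⟨k, hx'⟩
    · exact absurd h' hi
  -- the remaining rim edges
  set R : Set (El n) := rim n \ Z with hR
  have hZrim : Z ⊆ rim n := fun s hs => hZ s hs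
  have hRsub : R ⊆ φ '' rim m := by
    rintro _ ⟨⟨i, rfl⟩, hi⟩
    obtain ⟨k, hk⟩ := hrim i hi
    exact ⟨C k, ⟨k, rfl⟩, hk⟩
  have hZcard : Z.ncard + m ≤ n := by
    have h1 := htr univ
    rw [rk_univ hm] at h1
    have h2 := rk_univ_le (φ '' univ ∪ Z)
    omega
  have hRcard : R.ncard + Z.ncard = n := by
    rw [hR, ncard_sdiff_add_ncard_of_subset hZrim, rim_ncard]
  have hRm : R.ncard = m ∧ R = φ '' rim m := by
    have h1 := ncard_le_ncard hRsub (toFinite _)
    rw [ncard_image_of_injective _ hφ, rim_ncard] at h1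
    refine ⟨by omega, eq_of_subset_of_ncard_le hRsub ?_ (toFinite _)⟩
    rw [ncard_image_of_injective _ hφ, rim_ncard]
    omega
  obtain ⟨hRm, hReq⟩ := hRm
  have hφC : ∀ k : ZMod m, ∃ i : ZMod n, φ (C k) = C i ∧ C i ∉ Z := by
    intro k
    have : φ (C k) ∈ R := by
      rw [hReq]
      exact ⟨C k, ⟨k, rfl⟩, rfl⟩
    obtain ⟨⟨i, hi⟩, h2⟩ := this
    exact ⟨i, hi, hi ▸ h2⟩
  have offm := zne hm
  -- the label circuits
  have hlabel : ∀ k : ZMod m, ∃ l : ZMod n, (φ (A (k + 2)) = A (l + 2) ∧ φ (B k) = B l ∨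
      φ (A (k + 2)) = B l ∧ φ (B k) = A (l + 2)) ∧ C l ∉ Z ∧ C (l + 1) ∉ Z := by
    intro k
    set Q : Set (El m) := {A (k + 2), B k, C k, C (k + 1)} with hQ
    have hQcard : Q.ncard ≤ 4 := by
      have h1 := ncard_insert_le (A (k + 2)) ({B k, C k, C (k + 1)} : Set (El m))
      have h2 := ncard_insert_le (B k) ({C k, C (k + 1)} : Set (El m))
      have h3 := ncard_insert_le (C k) ({C (k + 1)} : Set (El m))
      rw [ncard_singleton] at h3
      rw [hQ]
      omega
    have hQdep : ¬ LinearIndepOn ℝ (vec m) Q := by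
      rw [hQ, linearIndepOn_insert (by simp)]
      rintro ⟨-, h2⟩
      apply h2
      have h3 : vec m (A (k + 2)) = vec m (B k) + vec m (C k) + vec m (C (k + 1)) := by
        simp only [vec]
        rw [show k + 1 + 1 = k + 2 by ring]
        ext <;> simp
      rw [h3]
      refine add_mem (add_mem ?_ ?_) ?_ <;> refine subset_span (mem_image_of_mem _ ?_) <;> simp
    rw [h Q, indepOn_iff] at hQdep
    push Not at hQdep
    obtain ⟨a, hsupp, hrel, ha⟩ := hQdep
    have hne : ∀ q ∈ Q, a (φ q) ≠ 0 := by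
      intro q hq h0
      apply ha
      have h1 : (Q \ {q}).ncard ≤ 3 := by
        rw [ncard_sdiff_singleton_of_mem hq]
        omega
      have h2 := (h _).1 (indep3 hm h1)
      rw [indepOn_iff] at h2
      refine h2 a ?_ hrel
      intro e he
      by_cases heq : e = φ q
      · rw [heq, h0]
      · apply hsupp
        rintro (⟨x, hx, rfl⟩ | h')
        · refine he (Or.inl ⟨x, ⟨hx, ?_⟩, rfl⟩)
          rintro rfl
          exact heq rfl
        · exact he (Or.inr h')
    have hmem : ∀ e, a e ≠ 0 → e ∉ Z → e = φ (A (k + 2)) ∨ e = φ (B k) ∨ e = φ (C k) ∨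
        e = φ (C (k + 1)) := by
      intro e he heZ
      have : e ∈ φ '' Q ∪ Z := by
        by_contra hcon
        exact he (hsupp e hcon)
      rcases this with ⟨x, hx, rfl⟩ | h'
      · rcases hx with rfl | rfl | rfl | rfl
        · exact Or.inl rfl
        · exact Or.inr (Or.inl rfl)
        · exact Or.inr (Or.inr (Or.inl rfl))
        · exact Or.inr (Or.inr (Or.inr rfl))
      · exact absurd h' heZ
    have hsA := hsp (A (k + 2)) (by simp)
    have hsB := hsp (B k) (by simp)
    obtain ⟨l, t, hl, hconst, hl0, hl1⟩ := rel_two hn hrel hsA hsB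
      (fun h' => by simpa using hφ h') (hne _ (by simp [hQ])) (by
        intro e h1 h2 h3
        by_contra h4
        have heZ : e ∉ Z := by
          intro h'
          obtain ⟨i, hi⟩ := hZ e h'
          exact h3 i hi
        rcases hmem e h4 heZ with h' | h' | h' | h'
        · exact h1 h'
        · exact h2 h'
        · obtain ⟨i, hi, -⟩ := hφC k
          exact h3 i (h'.trans hi)
        · obtain ⟨i, hi, -⟩ := hφC (k + 1)
          exact h3 i (h'.trans hi))
    refine ⟨l, hl, ?_⟩
    have ht : t = 0 := by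
      by_contra ht
      have hsub : R ⊆ {C l, C (l + 1), φ (C k), φ (C (k + 1))} := by
        rintro _ ⟨⟨i, rfl⟩, hi⟩
        by_cases h1 : i = l
        · rw [h1]; simp
        by_cases h2 : i = l + 1
        · rw [h2]; simp
        have h3 : a (C i) ≠ 0 := by
          rw [hconst i h1 h2]
          exact ht
        rcases hmem _ h3 hi with h' | h' | h' | h'
        · exact absurd h'.symm (hsA i)
        · exact absurd h'.symm (hsB i)
        · rw [h']; simp
        · rw [h']; simp
      have h1 := ncard_le_ncard hsub (toFinite _)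
      have h2 := ncard_insert_le (C l) ({C (l + 1), φ (C k), φ (C (k + 1))} : Set (El n))
      have h3 := ncard_insert_le (C (l + 1)) ({φ (C k), φ (C (k + 1))} : Set (El n))
      have h4 := ncard_insert_le (φ (C k)) ({φ (C (k + 1))} : Set (El n))
      rw [ncard_singleton] at h4
      omega
    subst ht
    obtain ⟨i, hi, hiZ⟩ := hφC k
    obtain ⟨i', hi', hiZ'⟩ := hφC (k + 1)
    have h1 := hne (C k) (by simp [hQ])
    have h2 := hne (C (k + 1)) (by simp [hQ])
    rw [hi] at h1
    rw [hi'] at h2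
    have h3 : i = l ∨ i = l + 1 := by
      by_contra hcon
      push Not at hcon
      exact h1 (hconst i hcon.1 hcon.2)
    have h4 : i' = l ∨ i' = l + 1 := by
      by_contra hcon
      push Not at hcon
      exact h2 (hconst i' hcon.1 hcon.2)
    have h5 : i ≠ i' := by
      rintro rfl
      have := hφ (hi.trans hi'.symm)
      simp [offm] at this
    rcases h3 with rfl | rfl <;> rcases h4 with rfl | rfl
    · exact absurd rfl h5
    · exact ⟨hiZ, hiZ'⟩
    · exact ⟨hiZ', hiZ⟩
    · exact absurd rfl h5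
  choose ψ hψ using hlabel
  have hψinj : Function.Injective ψ := by
    intro k k' hkk
    have h1 := (hψ k).1
    have h2 := (hψ k').1
    rw [hkk] at h1
    rcases h1 with h1 | h1 <;> rcases h2 with h2 | h2
    · have := hφ (h1.2.trans h2.2.symm)
      simpa using this
    · have := hφ (h1.2.trans h2.1.symm)
      simp at this
    · have := hφ (h1.1.trans h2.2.symm)
      simp at this
    · have := hφ (h1.1.trans h2.1.symm)
      simpa using this
  have hR' : ({i : ZMod n | C i ∉ Z}).ncard = m := by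
    rw [← hRm, hR, ← ncard_image_of_injective (f := fun i : ZMod n => (C i : El n)) _
      (fun i j hij => by simpa using hij)]
    congr 1
    ext e
    constructor
    · rintro ⟨i, hi, rfl⟩
      exact ⟨⟨i, rfl⟩, hi⟩
    · rintro ⟨⟨i, rfl⟩, hi⟩
      exact ⟨i, hi, rfl⟩
  have hS : range ψ = {i : ZMod n | C i ∉ Z} := by
    refine eq_of_subset_of_ncard_le ?_ ?_ (toFinite _)
    · rintro _ ⟨k, rfl⟩
      exact (hψ k).2.1
    · rw [hR', ← image_univ, ncard_image_of_injective _ hψinj, ncard_univ, Nat.card_zmod]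
  have hstep : ∀ i ∈ range ψ, i + 1 ∈ range ψ := by
    rintro _ ⟨k, rfl⟩
    rw [hS]
    exact (hψ k).2.2
  have hall : ∀ k : ℕ, ψ 0 + k ∈ range ψ := by
    intro k
    induction k with
    | zero => simp
    | succ k ih =>
      have := hstep _ ih
      rwa [add_assoc, ← Nat.cast_succ] at this
  have huniv : range ψ = univ := by
    rw [eq_univ_iff_forall]
    intro i
    have := hall (i - ψ 0).val
    rwa [ZMod.natCast_zmod_val, add_sub_cancel] at this
  rw [← hS, huniv, ncard_univ, Nat.card_zmod] at hR'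
  omega

end ring

section matroid

lemma minor_data {α : Type*} {M N : Matroid α} (h : N.IsMinor M) :
    ∃ Z ⊆ M.E, Disjoint N.E Z ∧ N.E ⊆ M.E ∧ ∀ I ⊆ N.E, (N.Indep I ↔ M.Indep (I ∪ Z)) := by
  obtain ⟨C, D, rfl⟩ := h
  obtain ⟨Z, hZ⟩ := M.exists_isBasis' C
  refine ⟨Z, hZ.indep.subset_ground, ?_, ?_, ?_⟩
  · rw [Matroid.delete_ground, Matroid.contract_ground, disjoint_left]
    rintro x ⟨⟨-, hxC⟩, -⟩ hxZ
    exact hxC (hZ.subset hxZ)
  · rw [Matroid.delete_ground, Matroid.contract_ground]
    exact sdiff_subset.trans sdiff_subset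
  · intro I hI
    rw [Matroid.delete_ground, Matroid.contract_ground] at hI
    rw [Matroid.delete_indep_iff, hZ.contract_indep_iff]
    constructor
    · rintro ⟨⟨h1, -⟩, -⟩
      exact h1
    · intro h1
      refine ⟨⟨h1, ?_⟩, ?_⟩
      · rw [disjoint_left]
        intro x hxC hxI
        exact (hI hxI).1.2 hxC
      · rw [disjoint_left]
        intro x hxI
        exact (hI hxI).2

variable {α W : Type*} [Finite α] [AddCommGroup W] [Module ℝ W]
  [FiniteDimensional ℝ W]

/-- the matroid of a vector configuration -/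
noncomputable def VM (v : α → W) : Matroid α :=
  (IndepMatroid.ofFinite (E := univ) (toFinite _) (fun I => LinearIndepOn ℝ v I)
    (linearIndepOn_empty ℝ v)
    (fun I J hJ hIJ => hJ.mono hIJ)
    (by
      intro I J hI hJ hcard
      by_contra hcon
      push Not at hcon
      have hle : v '' J ⊆ span ℝ (v '' I) := by
        rintro _ ⟨e, he, rfl⟩
        by_cases heI : e ∈ I
        · exact subset_span (mem_image_of_mem _ heI)
        · rw [SetLike.mem_coe, hI.mem_span_iff]
          intro h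
          exact absurd h (hcon e he heI)
      have h1 : rk v J ≤ rk v I := Submodule.finrank_mono (span_le.2 hle)
      rw [rk_of_indep v hI, rk_of_indep v hJ] at h1
      omega)
    (fun I _ => subset_univ I)).matroid

lemma VM_indep (v : α → W) (I : Set α) : (VM v).Indep I ↔ LinearIndepOn ℝ v I := by
  simp [VM]

lemma VM_ground (v : α → W) : (VM v).E = univ := rfl

/-- an enumeration of the elements -/
noncomputable def enc (n : ℕ) [NeZero n] (e : El n) : ℕ := (Finite.equivFin (El n) e : ℕ)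

lemma enc_inj (n : ℕ) [NeZero n] : Function.Injective (enc n) :=
  Fin.val_injective.comp (Finite.equivFin (El n)).injective

/-- the matroids of the antichain -/
noncomputable def MM (n : ℕ) [NeZero n] : Matroid ℕ :=
  (VM (vec n)).map (enc n) ((enc_inj n).injOn)

lemma MM_ground (n : ℕ) [NeZero n] : (MM n).E = range (enc n) := by
  rw [MM, Matroid.map_ground, VM_ground, image_univ]

lemma MM_indep (n : ℕ) [NeZero n] (I : Set (El n)) :
    (MM n).Indep (enc n '' I) ↔ LinearIndepOn ℝ (vec n) I := by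
  rw [MM, Matroid.map_image_indep_iff (by rw [VM_ground]; exact subset_univ I), VM_indep]

lemma MM_finite (n : ℕ) [NeZero n] : (MM n).E.Finite := by
  rw [MM_ground]
  exact finite_range _

lemma MM_repr (n : ℕ) [NeZero n] : ∃ k : ℕ, ∃ v : ℕ → (Fin k → ℝ),
    ∀ I : Set ℕ, I ⊆ (MM n).E → ((MM n).Indep I ↔ LinearIndepOn ℝ v I) := by
  let L : Vec n ≃ₗ[ℝ] (Fin (finrank ℝ (Vec n)) → ℝ) := (finBasis ℝ (Vec n)).equivFun
  refine ⟨finrank ℝ (Vec n), fun x => L (vec n (Function.invFun (enc n) x)), ?_⟩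
  intro I hI
  rw [MM_ground] at hI
  obtain ⟨J, rfl⟩ := subset_range_iff_exists_image_eq.1 hI
  rw [MM_indep]
  have h1 : ∀ e, Function.invFun (enc n) (enc n e) = e := Function.leftInverse_invFun (enc_inj n)
  have h2 : (fun x => L (vec n (Function.invFun (enc n) x))) ∘ enc n = L ∘ vec n := by
    funext e
    simp only [Function.comp_apply, h1]
  have h3 : LinearIndepOn ℝ (vec n) J ↔ LinearIndepOn ℝ (L ∘ vec n) J :=
    (L.toLinearMap.linearIndepOn_iff_of_injOn (L.injective.injOn)).symm
  rw [h3, ← h2]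
  constructor
  · intro h
    exact h.image_of_comp
  · intro h
    exact h.comp_of_image (enc_inj n).injOn

lemma MM_noU36 (n : ℕ) [NeZero n] (hn : 6 ≤ n) : ¬ ∃ N : Matroid ℕ, N.IsMinor (MM n) ∧
    N.E.encard = 6 ∧ ∀ I : Set ℕ, N.Indep I ↔ (I ⊆ N.E ∧ I.encard ≤ 3) := by
  rintro ⟨N, hN, hcard, hind⟩
  obtain ⟨Z, hZ, hdisj, hNE, h⟩ := minor_data hN
  rw [MM_ground] at hZ hNE
  obtain ⟨Z, rfl⟩ := subset_range_iff_exists_image_eq.1 hZ
  obtain ⟨U, hU⟩ := subset_range_iff_exists_image_eq.1 hNE
  rw [← hU] at hdisj hcard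
  refine no_U36 hn (U := U) (Z := Z) (by
    rw [disjoint_left]
    intro x hx hx'
    exact disjoint_left.1 hdisj (mem_image_of_mem _ hx) (mem_image_of_mem _ hx')) ?_ ?_
  · rw [(enc_inj n).encard_image] at hcard
    rw [ncard, hcard]
    rfl
  · intro I hI
    have h1 := h (enc n '' I) (by rw [← hU]; exact image_mono hI)
    rw [← image_union, MM_indep] at h1
    rw [← h1, hind, ← hU, (enc_inj n).encard_image, ← (toFinite I).cast_ncard_eq]
    constructor
    · rintro ⟨-, h2⟩
      exact_mod_cast h2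
    · intro h2
      exact ⟨image_mono hI, by exact_mod_cast h2⟩

lemma MM_antichain {m n : ℕ} [NeZero m] [NeZero n] (hm : 6 ≤ m) (hmn : m < n) (f : ℕ → ℕ)
    (hf : InjOn f (MM m).E) (h : ((MM m).map f hf).IsMinor (MM n)) : False := by
  obtain ⟨Z, hZ, hdisj, hNE, h⟩ := minor_data h
  rw [MM_ground] at hZ hNE
  obtain ⟨Z, rfl⟩ := subset_range_iff_exists_image_eq.1 hZ
  rw [Matroid.map_ground] at hNE hdisj h
  have hE : ∀ x : El m, enc m x ∈ (MM m).E := by
    intro x
    rw [MM_ground]
    exact mem_range_self x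
  have hex : ∀ x : El m, ∃ y : El n, enc n y = f (enc m x) := fun x =>
    hNE (mem_image_of_mem f (hE x))
  choose φ hφ using hex
  have hinj : Function.Injective φ := by
    intro x y hxy
    have : f (enc m x) = f (enc m y) := by rw [← hφ, ← hφ, hxy]
    exact enc_inj m (hf (hE x) (hE y) this)
  have himg : ∀ I : Set (El m), f '' (enc m '' I) = enc n '' (φ '' I) := by
    intro I
    rw [image_image, image_image]
    exact image_congr fun x _ => (hφ x).symm
  refine no_minor hm hmn φ hinj (Z := Z) ?_ ?_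
  · intro x hx
    refine disjoint_left.1 hdisj (mem_image_of_mem f (hE x)) ?_
    rw [← hφ]
    exact mem_image_of_mem _ hx
  · intro I
    have hIE : enc m '' I ⊆ (MM m).E := by
      rintro _ ⟨x, -, rfl⟩
      exact hE x
    have h1 := h (f '' (enc m '' I)) (image_mono hIE)
    rw [Matroid.map_image_indep_iff hIE, MM_indep, himg, ← image_union, MM_indep] at h1
    exact h1

end matroid

/-- The negation of the preceding statement: For any sequence of finite real-representable matroids, none having a minor isomorphic to U_{3,6}, some two distinct indices i ≠ j have the i-th matroid isomorphic to a minor of the j-th. Equivalently, this class has no infinite antichain under minors. -/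
theorem result :
    ¬ (∀ M : ℕ → Matroid ℕ,
      (∀ i, (M i).E.Finite ∧
        (∃ n : ℕ, ∃ v : ℕ → (Fin n → ℝ),
          ∀ I : Set ℕ, I ⊆ (M i).E → ((M i).Indep I ↔ LinearIndepOn ℝ v I)) ∧
        ¬ (∃ N : Matroid ℕ, N.IsMinor (M i) ∧ N.E.encard = 6 ∧
            ∀ I : Set ℕ, N.Indep I ↔ (I ⊆ N.E ∧ I.encard ≤ 3))) →
      ∃ i j : ℕ, i ≠ j ∧
        ∃ f : ℕ → ℕ, ∃ hf : Set.InjOn f (M i).E, ((M i).map f hf).IsMinor (M j)) := by
  intro hall
  obtain ⟨i, j, hij, f, hf, hminor⟩ := hall (fun i => MM (i + 6)) (fun i =>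
    ⟨MM_finite (i + 6), MM_repr (i + 6), MM_noU36 (i + 6) (by omega)⟩)
  rcases lt_or_gt_of_ne hij with h | h
  · exact MM_antichain (m := i + 6) (n := j + 6) (by omega) (by omega) f hf hminor
  · -- larger ones are not minors of smaller ones
    have h1 := hminor.subset
    rw [Matroid.map_ground] at h1
    have h2 := encard_le_encard h1
    rw [hf.encard_image, MM_ground, MM_ground, ← image_univ, ← image_univ,
      (enc_inj _).encard_image, (enc_inj _).encard_image, ← (toFinite _).cast_ncard_eq,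
      ← (toFinite _).cast_ncard_eq, ncard_El, ncard_El] at h2
    have h3 : i + 6 + (i + 6 + (i + 6)) ≤ j + 6 + (j + 6 + (j + 6)) := by exact_mod_cast h2
    omega

end Pool.Agent.S06002
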