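import Pool.Statements.S06020
import Pool.Agent.Helper770.K9Main

set_option autoImplicit false
open Pool Pool.MP_6f60ef_co

namespace Pool.Agent.S06020

/-- The negation of the preceding statement: If G is a complete graph or a complete bipartite graph with an even number of edges, then G has a drawing on two planes with minimum total crossings among all such drawings whose two plane subgraphs are isomorphic. -/
theorem result :
    ¬ (∀ (V : Type) [Finite V] (G : SimpleGraph V),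
      (G = ⊤ ∨ ∃ a b : ℕ, Nonempty (G ≃g completeBipartiteGraph (Fin a) (Fin b))) →
      Even (Set.ncard G.edgeSet) →
      ∃ (c : V → V → Fin 2) (p : Fin 2 → V → ℂ) (γ : Fin 2 → V → V → ℝ → ℂ),
        ((∀ u v : V, G.Adj u v → c u v = c v u) ∧
          (∀ i : Fin 2, Function.Injective (p i)) ∧
          (∀ i : Fin 2, ∀ u v : V, G.Adj u v → c u v = i →
            ContinuousOn (γ i u v) (Set.Icc (0:ℝ) 1) ∧
            Set.InjOn (γ i u v) (Set.Icc (0:ℝ) 1) ∧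
            γ i u v 0 = p i u ∧ γ i u v 1 = p i v ∧
            (∀ t : ℝ, 0 ≤ t → t ≤ 1 → γ i v u t = γ i u v (1 - t)) ∧
            ∀ t : ℝ, 0 < t → t < 1 → ∀ w : V, γ i u v t ≠ p i w) ∧
          Set.Finite {x : Fin 2 × V × V × V × V × ℂ |
            G.Adj x.2.1 x.2.2.1 ∧ G.Adj x.2.2.2.1 x.2.2.2.2.1 ∧
            c x.2.1 x.2.2.1 = x.1 ∧ c x.2.2.2.1 x.2.2.2.2.1 = x.1 ∧
            ¬ (x.2.1 = x.2.2.2.1 ∧ x.2.2.1 = x.2.2.2.2.1) ∧
            ¬ (x.2.1 = x.2.2.2.2.1 ∧ x.2.2.1 = x.2.2.2.1) ∧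
            (∃ t : ℝ, 0 < t ∧ t < 1 ∧ γ x.1 x.2.1 x.2.2.1 t = x.2.2.2.2.2) ∧
            (∃ t : ℝ, 0 < t ∧ t < 1 ∧ γ x.1 x.2.2.2.1 x.2.2.2.2.1 t = x.2.2.2.2.2)}) ∧
        Nonempty (SimpleGraph.fromRel (fun u v => G.Adj u v ∧ c u v = 0) ≃g
          SimpleGraph.fromRel (fun u v => G.Adj u v ∧ c u v = 1)) ∧
        ∀ (c' : V → V → Fin 2) (p' : Fin 2 → V → ℂ) (γ' : Fin 2 → V → V → ℝ → ℂ),
          ((∀ u v : V, G.Adj u v → c' u v = c' v u) ∧
            (∀ i : Fin 2, Function.Injective (p' i)) ∧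
            (∀ i : Fin 2, ∀ u v : V, G.Adj u v → c' u v = i →
              ContinuousOn (γ' i u v) (Set.Icc (0:ℝ) 1) ∧
              Set.InjOn (γ' i u v) (Set.Icc (0:ℝ) 1) ∧
              γ' i u v 0 = p' i u ∧ γ' i u v 1 = p' i v ∧
              (∀ t : ℝ, 0 ≤ t → t ≤ 1 → γ' i v u t = γ' i u v (1 - t)) ∧
              ∀ t : ℝ, 0 < t → t < 1 → ∀ w : V, γ' i u v t ≠ p' i w) ∧
            Set.Finite {x : Fin 2 × V × V × V × V × ℂ |
              G.Adj x.2.1 x.2.2.1 ∧ G.Adj x.2.2.2.1 x.2.2.2.2.1 ∧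
              c' x.2.1 x.2.2.1 = x.1 ∧ c' x.2.2.2.1 x.2.2.2.2.1 = x.1 ∧
              ¬ (x.2.1 = x.2.2.2.1 ∧ x.2.2.1 = x.2.2.2.2.1) ∧
              ¬ (x.2.1 = x.2.2.2.2.1 ∧ x.2.2.1 = x.2.2.2.1) ∧
              (∃ t : ℝ, 0 < t ∧ t < 1 ∧ γ' x.1 x.2.1 x.2.2.1 t = x.2.2.2.2.2) ∧
              (∃ t : ℝ, 0 < t ∧ t < 1 ∧ γ' x.1 x.2.2.2.1 x.2.2.2.2.1 t = x.2.2.2.2.2)}) →
          Set.ncard {x : Fin 2 × V × V × V × V × ℂ |
              G.Adj x.2.1 x.2.2.1 ∧ G.Adj x.2.2.2.1 x.2.2.2.2.1 ∧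
              c x.2.1 x.2.2.1 = x.1 ∧ c x.2.2.2.1 x.2.2.2.2.1 = x.1 ∧
              ¬ (x.2.1 = x.2.2.2.1 ∧ x.2.2.1 = x.2.2.2.2.1) ∧
              ¬ (x.2.1 = x.2.2.2.2.1 ∧ x.2.2.1 = x.2.2.2.1) ∧
              (∃ t : ℝ, 0 < t ∧ t < 1 ∧ γ x.1 x.2.1 x.2.2.1 t = x.2.2.2.2.2) ∧
              (∃ t : ℝ, 0 < t ∧ t < 1 ∧ γ x.1 x.2.2.2.1 x.2.2.2.2.1 t = x.2.2.2.2.2)} ≤
            Set.ncard {x : Fin 2 × V × V × V × V × ℂ |
              G.Adj x.2.1 x.2.2.1 ∧ G.Adj x.2.2.2.1 x.2.2.2.2.1 ∧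
              c' x.2.1 x.2.2.1 = x.1 ∧ c' x.2.2.2.1 x.2.2.2.2.1 = x.1 ∧
              ¬ (x.2.1 = x.2.2.2.1 ∧ x.2.2.1 = x.2.2.2.2.1) ∧
              ¬ (x.2.1 = x.2.2.2.2.1 ∧ x.2.2.1 = x.2.2.2.1) ∧
              (∃ t : ℝ, 0 < t ∧ t < 1 ∧ γ' x.1 x.2.1 x.2.2.1 t = x.2.2.2.2.2) ∧
              (∃ t : ℝ, 0 < t ∧ t < 1 ∧ γ' x.1 x.2.2.2.1 x.2.2.2.2.1 t = x.2.2.2.2.2)}) := by
  intro h
  have heven : Even (Set.ncard (⊤ : SimpleGraph (Fin 9)).edgeSet) := by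
    classical
    rw [← SimpleGraph.coe_edgeFinset, Set.ncard_coe_finset,
      SimpleGraph.card_edgeFinset_top_eq_card_choose_two, Fintype.card_fin]
    decide
  obtain ⟨c, p, γ, ⟨hc, hp, harc, hfin⟩, ⟨e⟩, hmin⟩ := h (Fin 9) ⊤ (Or.inl rfl) heven
  have hle := hmin Helper770.K9.col Helper770.K9.pp Helper770.K9.gg
    ⟨fun u v _ => Helper770.K9.col_symm u v, Helper770.K9.pp_inj, Helper770.K9.arcs_ok,
      Helper770.K9.cs_finite⟩
  have h8 : (Helper770.K9.CS (⊤ : SimpleGraph (Fin 9)) c γ).ncard ≤ 8 :=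
    hle.trans Helper770.K9.cs_card
  have hc' : ∀ u v : Fin 9, u ≠ v → c u v = c v u := fun u v huv => hc u v huv
  have hrev : ∀ i u v, u ≠ v → c u v = i → ∀ t : ℝ, 0 ≤ t → t ≤ 1 →
      γ i v u t = γ i u v (1 - t) := fun i u v huv hi => (harc i u v huv hi).2.2.2.2.1
  have he : ∀ u v : Fin 9, u ≠ v → c (e.toEquiv u) (e.toEquiv v) ≠ c u v := by
    intro u v huv
    have huv' : e.toEquiv u ≠ e.toEquiv v := fun h' => huv (e.toEquiv.injective h')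
    have key : c u v = 0 ↔ c (e.toEquiv u) (e.toEquiv v) = 1 := by
      have h1 := e.map_rel_iff (a := u) (b := v)
      rw [SimpleGraph.fromRel_adj, SimpleGraph.fromRel_adj] at h1
      constructor
      · intro h2
        rcases (h1.mpr ⟨huv, Or.inl ⟨huv, h2⟩⟩).2 with h3 | h3
        · exact h3.2
        · rw [hc' _ _ huv']; exact h3.2
      · intro h2
        rcases (h1.mp ⟨huv', Or.inl ⟨huv', h2⟩⟩).2 with h3 | h3
        · exact h3.2
        · rw [hc' _ _ huv]; exact h3.2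
    have aux : ∀ x y : Fin 2, (x = 0 ↔ y = 1) → y ≠ x := by decide
    exact aux _ _ key
  -- a crossing-free plane gives a contradiction
  have hplane : ∀ i : Fin 2,
      (∀ x ∈ Helper770.K9.CS (⊤ : SimpleGraph (Fin 9)) c γ, x.1 ≠ i) → False := by
    intro i hi
    refine Helper770.K9.planar_contra c hc' e.toEquiv he i (p i) (hp i) (γ i)
      (fun u v huv hi' => (harc i u v huv hi').1) (fun u v huv hi' => (harc i u v huv hi').2.2.1)
      (fun u v huv hi' => (harc i u v huv hi').2.2.2.1)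
      (fun u v huv hi' => (harc i u v huv hi').2.2.2.2.2) ?_
    intro u v a b huv hab h1 h2 h3 h4 h5 h6 s t hs0 hs1 ht0 ht1 hst
    exact hi (i, u, v, a, b, γ i u v s) ⟨huv, hab, h1, h2, fun h' => h3 h'.1, fun h' => h4 h'.1,
      ⟨s, hs0, hs1, rfl⟩, ⟨t, ht0, ht1, hst.symm⟩⟩ rfl
  by_cases hx0 : ∃ x ∈ Helper770.K9.CS (⊤ : SimpleGraph (Fin 9)) c γ, x.1 = 0
  · by_cases hx1 : ∃ x ∈ Helper770.K9.CS (⊤ : SimpleGraph (Fin 9)) c γ, x.1 = 1
    · classical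
      obtain ⟨⟨i0, u0, v0, a0, b0, z0⟩, hx0, rfl⟩ := hx0
      obtain ⟨⟨i1, u1, v1, a1, b1, z1⟩, hx1, hi1⟩ := hx1
      simp only at hi1
      subst hi1
      obtain ⟨A, hA, hA0, hAS⟩ := Helper770.K9.five_le c hc' γ hrev _ u0 v0 a0 b0 z0 hx0
      obtain ⟨B, hB, hB1, hBS⟩ := Helper770.K9.five_le c hc' γ hrev _ u1 v1 a1 b1 z1 hx1
      have hd : Disjoint A B := by
        rw [Finset.disjoint_left]
        intro x hxA hxB
        have := (hA0 x hxA).symm.trans (hB1 x hxB)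
        exact absurd this (by decide)
      have hcard : (A ∪ B).card = 10 := by rw [Finset.card_union_of_disjoint hd, hA, hB]
      have hsub : ((A ∪ B : Finset _) : Set _) ⊆
          Helper770.K9.CS (⊤ : SimpleGraph (Fin 9)) c γ := by
        rw [Finset.coe_union]; exact Set.union_subset hAS hBS
      have hfin' : (Helper770.K9.CS (⊤ : SimpleGraph (Fin 9)) c γ).Finite := hfin
      have h10 := Set.ncard_le_ncard hsub hfin'
      rw [Set.ncard_coe_finset, hcard] at h10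
      omega
    · push Not at hx1
      exact hplane 1 hx1
  · push Not at hx0
    exact hplane 0 hx0

end Pool.Agent.S06020
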