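import Pool.Statements.S06055
import Pool.Agent.Helper705.Main

set_option autoImplicit false
open Pool Pool.MP_72f2f8_co

namespace Pool.Agent.S06055

/-- Every finite simple binary matroid in which each element lies in a circuit, of rank r, has number of bases at least (r+1)/2 times its number of circuits. -/
theorem result :
    ∀ (m : ℕ) (M : Matroid (Fin m)), M.E = Set.univ →
      (∃ (n : ℕ) (v : Fin m → (Fin n → ZMod 2)),
        ∀ I : Set (Fin m), M.Indep I ↔ LinearIndependent (ZMod 2) (fun x : I => v x)) →
      (∀ e f : Fin m, M.Indep ({e, f} : Set (Fin m))) →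
      (∀ e : Fin m, ∃ C : Set (Fin m), M.IsCircuit C ∧ e ∈ C) →
      ∀ B : Set (Fin m), M.IsBase B →
        (B.ncard + 1) * {C : Set (Fin m) | M.IsCircuit C}.ncard
          ≤ 2 * {B' : Set (Fin m) | M.IsBase B'}.ncard := by
  intro m M hE hv hsimp hcirc B hB
  obtain ⟨n, v, hv⟩ := hv
  exact Pool.Agent.Helper705.transport_main M hE hv hsimp hcirc B hB

end Pool.Agent.S06055
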