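import Pool.Statements.S06072
import Pool.Agent.Helper876.Main

set_option autoImplicit false
open scoped Pointwise
open Pool Pool.MP_73fc50_co

namespace Pool.Agent.S06072

/-- The negation of the preceding statement: For all large d, all but a meagre set of o-symmetric convex bodies C in R^d have this property: every locally densest packing lattice of C has exactly 2d^2 nonzero lattice points in 2C, i.e. kissing number 2d^2. -/
theorem result :
    ¬ (∃ d₀ : ℕ, ∀ d : ℕ, d₀ ≤ d →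
    IsMeagre {C : {K : ConvexBody (Fin d → ℝ) //
        (∀ x ∈ (K : Set (Fin d → ℝ)), -x ∈ (K : Set (Fin d → ℝ))) ∧
        (interior (K : Set (Fin d → ℝ))).Nonempty} |
      ∃ A : Matrix (Fin d) (Fin d) ℝ,
        A.det ≠ 0 ∧
        (∀ z : Fin d → ℤ, z ≠ 0 →
          A.mulVec (fun i => (z i : ℝ)) ∉ interior ((2:ℝ) • (C.1 : Set (Fin d → ℝ)))) ∧
        (∃ ε : ℝ, 0 < ε ∧ ∀ B : Matrix (Fin d) (Fin d) ℝ,
          (∀ i j, |B i j - A i j| < ε) → B.det ≠ 0 →
          (∀ z : Fin d → ℤ, z ≠ 0 →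
            B.mulVec (fun i => (z i : ℝ)) ∉ interior ((2:ℝ) • (C.1 : Set (Fin d → ℝ)))) →
          |A.det| ≤ |B.det|) ∧
        Set.ncard {v : Fin d → ℝ | v ≠ 0 ∧ v ∈ (2:ℝ) • (C.1 : Set (Fin d → ℝ)) ∧
          ∃ z : Fin d → ℤ, v = A.mulVec (fun i => (z i : ℝ))} ≠ 2 * d ^ 2}) := by
  rintro ⟨d₀, h⟩
  set d := max d₀ 2 with hd
  have hd2 : 2 ≤ d := le_max_right _ _
  have hm := h d (le_max_left _ _)
  obtain ⟨s, hs0, hs1, hs⟩ := Pool.Agent.Helper876.local_main d hd2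
  obtain ⟨r, hr0, hr⟩ := Pool.Agent.Helper876.ell_ball d
  have : BaireSpace {K : ConvexBody (Fin d → ℝ) //
        (∀ x ∈ (K : Set (Fin d → ℝ)), -x ∈ (K : Set (Fin d → ℝ))) ∧
        (interior (K : Set (Fin d → ℝ))).Nonempty} := Pool.Agent.Helper876.baireSymBody
  let C0 : {K : ConvexBody (Fin d → ℝ) //
        (∀ x ∈ (K : Set (Fin d → ℝ)), -x ∈ (K : Set (Fin d → ℝ))) ∧
        (interior (K : Set (Fin d → ℝ))).Nonempty} :=
    ⟨Pool.Agent.Helper876.ell d, Pool.Agent.Helper876.ell_symm, ⟨0, by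
      apply interior_mono hr
      apply Metric.ball_subset_interior_closedBall
      exact Metric.mem_ball_self hr0⟩⟩
  refine not_isMeagre_of_isOpen (Metric.isOpen_ball (x := C0) (ε := s * r))
    ⟨C0, Metric.mem_ball_self (by positivity)⟩ (hm.mono ?_)
  intro C hC
  rw [Metric.mem_ball, dist_comm] at hC
  obtain ⟨h1, h2⟩ := Pool.Agent.Helper876.near (C := Pool.Agent.Helper876.ell d) (K := C.1)
    hr hr0 hs0 hs1 hC
  obtain ⟨A, hA0, hA1, ⟨ε, hε, hA2⟩, hA3⟩ := hs (C.1 : Set (Fin d → ℝ)) h1 h2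
  refine ⟨A, hA0, hA1, ⟨ε, hε, fun B hB _ hBa => hA2 B hB hBa⟩, ?_⟩
  intro hcard
  rw [hcard] at hA3
  nlinarith

end Pool.Agent.S06072
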