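import Mathlib
import Pool.Statements.S06080

set_option autoImplicit false

namespace Pool.Agent.S06080.Tool

open Finset

/-- `A i j` says that `i` and `j` are adjacent; `K k v` says that vertex `v` is still needed after
vertex `k` has been processed.  A colouring of some vertices is a list of pairs (vertex, label). -/
abbrev Key := List (ℕ × ℕ)

def ok (A : ℕ → ℕ → Bool) (k : ℕ) (c : Key) (x : ℕ) : Bool :=
  c.all (fun p => !(A k p.1) || p.2 != x)

def ext (K : ℕ → ℕ → Bool) (k : ℕ) (c : Key) (x : ℕ) : Key :=
  ((k, x) :: c).filter (fun p => K k p.1)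

/-- the number of ways to colour the `r` vertices `k, k+1, …` given the remembered colours. -/
def ways (A K : ℕ → ℕ → Bool) (q : ℕ) : ℕ → ℕ → Key → ℕ
  | 0, _, _ => 1
  | r + 1, k, c => ∑ x ∈ range q, if ok A k c x then ways A K q r (k + 1) (ext K k c x) else 0

def relab (f : ℕ → ℕ) (c : Key) : Key := c.map (fun p => (p.1, f p.2))

theorem ok_relab (A : ℕ → ℕ → Bool) (k : ℕ) (c : Key) (x : ℕ) (σ : Equiv.Perm ℕ) :
    ok A k (relab σ c) (σ x) = ok A k c x := by
  unfold ok relab
  rw [List.all_map]
  congr 1
  funext p
  by_cases h : p.2 = x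
  · simp [h]
  · have h2 : σ p.2 ≠ σ x := fun hh => h (σ.injective hh)
    show (!A k p.1 || σ p.2 != σ x) = (!A k p.1 || p.2 != x)
    rw [bne_iff_ne.2 h2, bne_iff_ne.2 h]

theorem ext_relab (K : ℕ → ℕ → Bool) (k : ℕ) (c : Key) (x : ℕ) (f : ℕ → ℕ) :
    ext K k (relab f c) (f x) = relab f (ext K k c x) := by
  unfold ext relab
  rw [List.filter_cons, List.filter_cons]
  by_cases h : K k k = true
  · simp [h, List.filter_map, Function.comp_def]
  · simp [h, List.filter_map, Function.comp_def]

theorem ways_relab (A K : ℕ → ℕ → Bool) (q : ℕ) (σ : Equiv.Perm ℕ) (hσ : ∀ x, x < q ↔ σ x < q) :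
    ∀ (r k : ℕ) (c : Key), ways A K q r k (relab σ c) = ways A K q r k c := by
  intro r
  induction r with
  | zero => intro k c; rfl
  | succ r ih =>
    intro k c
    unfold ways
    symm
    apply Finset.sum_equiv σ
    · intro x; simp only [mem_range]; exact hσ x
    · intro x _
      rw [ok_relab, ext_relab, ih]

def sw (a b x : ℕ) : ℕ := if x = a then b else if x = b then a else x

theorem sw_eq (a b : ℕ) : sw a b = Equiv.swap a b := by
  funext x; rw [Equiv.swap_apply_def]; rfl

def normStep (s : Key × ℕ) (i : ℕ) : Key × ℕ :=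
  let l := (s.1.getD i (0, 0)).2
  if l < s.2 then s else (relab (sw l s.2) s.1, s.2 + 1)

def norm (c : Key) : Key := ((List.range c.length).foldl normStep (c, 0)).1

/-- all labels are below `m` -/
def Below (m : ℕ) (c : Key) : Prop := ∀ p ∈ c, p.2 < m

theorem swap_lt {a b q : ℕ} (ha : a < q) (hb : b < q) (x : ℕ) : x < q ↔ Equiv.swap a b x < q := by
  rw [Equiv.swap_apply_def]
  split_ifs with h1 h2
  · subst h1; simp [ha, hb]
  · subst h2; simp [ha, hb]
  · rfl

theorem normStep_spec (A K : ℕ → ℕ → Bool) (q r k : ℕ) (s : Key × ℕ) (i : ℕ) (hi : i < s.1.length)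
    (hb : Below q s.1) :
    (normStep s i).1.length = s.1.length ∧ Below q (normStep s i).1 ∧
      ways A K q r k (normStep s i).1 = ways A K q r k s.1 := by
  unfold normStep
  simp only
  split_ifs with h
  · exact ⟨rfl, hb, rfl⟩
  · have hl : (s.1.getD i (0, 0)).2 < q := by
      rw [List.getD_eq_getElem _ _ hi]
      exact hb _ (List.getElem_mem hi)
    have hm : s.2 < q := by omega
    refine ⟨by simp [relab], ?_, ?_⟩
    · intro p hp
      simp only [relab, List.mem_map] at hp
      obtain ⟨a, ha, rfl⟩ := hp
      simp only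
      rw [sw_eq]
      exact (swap_lt hl hm _).1 (hb a ha)
    · rw [sw_eq]
      exact ways_relab A K q _ (swap_lt hl hm) r k _

theorem norm_aux (A K : ℕ → ℕ → Bool) (q r k : ℕ) : ∀ (l : List ℕ) (s : Key × ℕ),
    (∀ i ∈ l, i < s.1.length) → Below q s.1 →
    Below q (l.foldl normStep s).1 ∧
      ways A K q r k (l.foldl normStep s).1 = ways A K q r k s.1 := by
  intro l
  induction l with
  | nil => intro s _ hb; exact ⟨hb, rfl⟩
  | cons i l ih =>
    intro s hi hb
    obtain ⟨h1, h2, h3⟩ := normStep_spec A K q r k s i (hi i (by simp)) hb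
    obtain ⟨h4, h5⟩ := ih (normStep s i) (fun j hj => by rw [h1]; exact hi j (by simp [hj])) h2
    rw [List.foldl_cons]
    exact ⟨h4, h5.trans h3⟩

theorem norm_spec (A K : ℕ → ℕ → Bool) (q r k : ℕ) (c : Key) (hb : Below q c) :
    Below q (norm c) ∧ ways A K q r k (norm c) = ways A K q r k c := by
  apply norm_aux A K q r k (List.range c.length) (c, 0)
  · intro i hi; simpa using hi
  · exact hb

def bnd (c : Key) : ℕ := c.foldr (fun p m => max (p.2 + 1) m) 0

theorem below_bnd (c : Key) : Below (bnd c) c := by
  induction c with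
  | nil => intro p hp; simp at hp
  | cons a c ih =>
    intro p hp
    simp only [bnd, List.foldr_cons]
    rcases List.mem_cons.1 hp with rfl | h
    · have := le_max_left (p.2 + 1) (List.foldr (fun p m => max (p.2 + 1) m) 0 c); omega
    · have h2 := ih p h
      have := le_max_right (a.2 + 1) (List.foldr (fun p m => max (p.2 + 1) m) 0 c)
      simp only [bnd] at h2; omega

theorem bnd_le {q : ℕ} (c : Key) (h : Below q c) : bnd c ≤ q := by
  induction c with
  | nil => simp [bnd]
  | cons a c ih =>
    simp only [bnd, List.foldr_cons]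
    have h1 := h a (by simp)
    have h2 := ih (fun p hp => h p (by simp [hp]))
    simp only [bnd] at h2
    exact max_le h1 h2

/-- the key recursion -/
theorem ways_succ (A K : ℕ → ℕ → Bool) (q r k : ℕ) (c : Key) (hb : Below q c) :
    ways A K q (r + 1) k c =
      (∑ x ∈ range (bnd c), if ok A k c x then ways A K q r (k + 1) (ext K k c x) else 0)
      + (q - bnd c) * ways A K q r (k + 1) (ext K k c (bnd c)) := by
  have hm := bnd_le c hb
  rw [ways]
  rw [← Finset.sum_range_add_sum_Ico _ hm]
  congr 1
  have : ∀ x ∈ Ico (bnd c) q, (if ok A k c x then ways A K q r (k + 1) (ext K k c x) else 0)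
      = ways A K q r (k + 1) (ext K k c (bnd c)) := by
    intro x hx
    rw [mem_Ico] at hx
    have hbb := below_bnd c
    have hok : ok A k c x = true := by
      unfold ok
      rw [List.all_eq_true]
      intro p hp
      have := hbb p hp
      have hne : p.2 ≠ x := by omega
      simp [bne_iff_ne, hne]
    rw [if_pos hok]
    have hbq : bnd c < q := by omega
    have e1 : ext K k c (bnd c) = relab (Equiv.swap x (bnd c)) (ext K k c x) := by
      have h0 : relab (Equiv.swap x (bnd c)) c = c := by
        unfold relab
        conv_rhs => rw [← List.map_id c]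
        apply List.map_congr_left
        intro p hp
        have h1 := hbb p hp
        have h2 : p.2 ≠ x := by omega
        have h3 : p.2 ≠ bnd c := by omega
        rw [Equiv.swap_apply_of_ne_of_ne h2 h3]; rfl
      rw [← ext_relab, h0, Equiv.swap_apply_left]
    rw [e1, ways_relab A K q _ (swap_lt hx.2 hbq)]
  rw [Finset.sum_congr rfl this, Finset.sum_const, Nat.card_Ico, smul_eq_mul]

section ring
variable {R : Type*} [CommRing R]

abbrev St (R : Type*) := List (Key × R)

def ins (c : Key) (v : R) : St R → St R
  | [] => [(c, v)]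
  | e :: L => if e.1 = c then (c, e.2 + v) :: L else e :: ins c v L

def stepEntry (A K : ℕ → ℕ → Bool) (q : R) (k : ℕ) (e : Key × R) : St R :=
  (norm (ext K k e.1 (bnd e.1)), e.2 * (q - (bnd e.1 : R))) ::
  ((List.range (bnd e.1)).filter (ok A k e.1)).map (fun x => (norm (ext K k e.1 x), e.2))

def insAll (L acc : St R) : St R := L.foldl (fun acc e => ins e.1 e.2 acc) acc

def step (A K : ℕ → ℕ → Bool) (q : R) (k : ℕ) (L : St R) : St R :=
  L.foldl (fun acc e => insAll (stepEntry A K q k e) acc) []

def run (A K : ℕ → ℕ → Bool) (q : R) : ℕ → ℕ → St R → R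
  | 0, _, L => (L.map Prod.snd).sum
  | r + 1, k, L => run A K q r (k + 1) (step A K q k L)

/-- semantic value of a state -/
def val (A K : ℕ → ℕ → Bool) (N r k : ℕ) (L : St R) : R :=
  (L.map (fun e => e.2 * (ways A K N r k e.1 : R))).sum

def Good (N : ℕ) (L : St R) : Prop := ∀ e ∈ L, Below N e.1 ∨ e.2 = 0

theorem val_ins (A K : ℕ → ℕ → Bool) (N r k : ℕ) (c : Key) (v : R) (L : St R) :
    val A K N r k (ins c v L) = v * (ways A K N r k c : R) + val A K N r k L := by
  induction L with
  | nil => simp [ins, val]
  | cons e L ih =>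
    unfold ins
    split_ifs with h
    · subst h; simp [val]; ring
    · have : val A K N r k (e :: ins c v L) = e.2 * (ways A K N r k e.1 : R) + val A K N r k (ins c v L) := by
        simp [val]
      rw [this, ih]
      simp [val]; ring

theorem good_ins (N : ℕ) (c : Key) (v : R) (L : St R) (h : Below N c ∨ v = 0) (hL : Good N L) :
    Good N (ins c v L) := by
  induction L with
  | nil => intro e he; simp [ins] at he; subst he; exact h
  | cons a L ih =>
    unfold ins
    have hL' : Good N L := fun e he => hL e (by simp [he])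
    have ha := hL a (by simp)
    split_ifs with hc
    · intro e he
      rcases List.mem_cons.1 he with rfl | he
      · simp only
        rw [hc] at ha
        rcases h with h | h
        · exact Or.inl h
        · rcases ha with ha | ha
          · exact Or.inl ha
          · right; rw [h, ha]; simp
      · exact hL' e he
    · intro e he
      rcases List.mem_cons.1 he with rfl | he
      · exact ha
      · exact ih hL' e he

theorem insAll_spec (A K : ℕ → ℕ → Bool) (N r k : ℕ) (L : St R) :
    ∀ acc : St R, Good N L → Good N acc →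
      Good N (insAll L acc) ∧ val A K N r k (insAll L acc) = val A K N r k L + val A K N r k acc := by
  induction L with
  | nil => intro acc _ h; exact ⟨h, by simp [insAll, val]⟩
  | cons e L ih =>
    intro acc hL hacc
    have h1 := good_ins N e.1 e.2 acc (hL e (by simp)) hacc
    obtain ⟨h2, h3⟩ := ih (ins e.1 e.2 acc) (fun x hx => hL x (by simp [hx])) h1
    refine ⟨h2, ?_⟩
    have : insAll (e :: L) acc = insAll L (ins e.1 e.2 acc) := rfl
    rw [this, h3, val_ins]
    simp [val]; ring

theorem ext_below (K : ℕ → ℕ → Bool) (N k x : ℕ) (c : Key) (h : Below N c) (hx : x < N) :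
    Below N (ext K k c x) := by
  intro p hp
  unfold ext at hp
  have := (List.mem_filter.1 hp).1
  rcases List.mem_cons.1 this with rfl | h1
  · exact hx
  · exact h p h1

theorem stepEntry_spec (A K : ℕ → ℕ → Bool) (N r k : ℕ) (e : Key × R) (he : Below N e.1 ∨ e.2 = 0) :
    Good N (stepEntry A K (N : R) k e) ∧
      val A K N r (k + 1) (stepEntry A K (N : R) k e) = e.2 * (ways A K N (r + 1) k e.1 : R) := by
  rcases he with hb | h0
  · have hm := bnd_le e.1 hb
    constructor
    · intro p hp
      unfold stepEntry at hp
      rcases List.mem_cons.1 hp with rfl | hp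
      · rcases Nat.lt_or_ge (bnd e.1) N with h | h
        · left
          exact (norm_spec A K N r (k+1) _ (ext_below K N k _ _ hb h)).1
        · right
          have : bnd e.1 = N := le_antisymm hm h
          simp [this]
      · simp only [List.mem_map, List.mem_filter, List.mem_range] at hp
        obtain ⟨x, ⟨hx, _⟩, rfl⟩ := hp
        left
        exact (norm_spec A K N r (k+1) _ (ext_below K N k _ _ hb (by omega))).1
    · rw [ways_succ A K N r k e.1 hb]
      unfold stepEntry val
      rw [List.map_cons, List.sum_cons, List.map_map]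
      have h1 : e.2 * ((N : R) - (bnd e.1 : R)) *
          (ways A K N r (k + 1) (norm (ext K k e.1 (bnd e.1))) : R) =
          e.2 * (((N - bnd e.1) * ways A K N r (k + 1) (ext K k e.1 (bnd e.1)) : ℕ) : R) := by
        rcases Nat.lt_or_ge (bnd e.1) N with h | h
        · rw [(norm_spec A K N r (k+1) _ (ext_below K N k _ _ hb h)).2]
          push_cast [Nat.cast_sub hm]
          ring
        · have : bnd e.1 = N := le_antisymm hm h
          simp [this]
      have h2 : (List.map ((fun e : Key × R => e.2 * (ways A K N r (k + 1) e.1 : R)) ∘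
            (fun x => (norm (ext K k e.1 x), e.2)))
            ((List.range (bnd e.1)).filter (ok A k e.1))).sum =
          e.2 * ((∑ x ∈ range (bnd e.1), if ok A k e.1 x then
            ways A K N r (k + 1) (ext K k e.1 x) else 0 : ℕ) : R) := by
        have key : ∀ (l : List ℕ), (∀ x ∈ l, x < N) →
            (List.map ((fun e : Key × R => e.2 * (ways A K N r (k + 1) e.1 : R)) ∘
            (fun x => (norm (ext K k e.1 x), e.2))) (l.filter (ok A k e.1))).sum =
            e.2 * (((l.map (fun x => if ok A k e.1 x then
            ways A K N r (k + 1) (ext K k e.1 x) else 0)).sum : ℕ) : R) := by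
          intro l hl
          induction l with
          | nil => simp
          | cons a l ih =>
            have ih' := ih (fun x hx => hl x (by simp [hx]))
            have ha : a < N := hl a (by simp)
            rw [List.filter_cons]
            by_cases hok : ok A k e.1 a = true
            · rw [if_pos hok, List.map_cons, List.sum_cons, ih', List.map_cons, List.sum_cons,
                if_pos hok]
              simp only [Function.comp]
              rw [(norm_spec A K N r (k+1) _ (ext_below K N k _ _ hb ha)).2]
              push_cast; ring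
            · rw [if_neg hok, ih', List.map_cons, List.sum_cons, if_neg hok]
              push_cast; ring
        rw [key (List.range (bnd e.1)) (by intro x hx; have := List.mem_range.1 hx; omega)]
        congr 2
      simp only [] at h1 h2 ⊢
      rw [h1, h2]
      push_cast; ring
  · constructor
    · intro p hp
      unfold stepEntry at hp
      rcases List.mem_cons.1 hp with rfl | hp
      · right; simp [h0]
      · simp only [List.mem_map, List.mem_filter, List.mem_range] at hp
        obtain ⟨x, _, rfl⟩ := hp
        right; exact h0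
    · rw [h0, zero_mul]
      unfold stepEntry val
      rw [h0]
      simp only [zero_mul, List.map_cons, List.sum_cons, List.map_map, zero_add]
      apply List.sum_eq_zero
      intro y hy
      obtain ⟨x, _, rfl⟩ := List.mem_map.1 hy
      simp

theorem step_spec (A K : ℕ → ℕ → Bool) (N r k : ℕ) (L : St R) (hL : Good N L) :
    Good N (step A K (N : R) k L) ∧
      val A K N r (k + 1) (step A K (N : R) k L) = val A K N (r + 1) k L := by
  have key : ∀ (L acc : St R), Good N L → Good N acc →
      Good N (L.foldl (fun acc e => insAll (stepEntry A K (N : R) k e) acc) acc) ∧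
      val A K N r (k + 1) (L.foldl (fun acc e => insAll (stepEntry A K (N : R) k e) acc) acc) =
        val A K N (r + 1) k L + val A K N r (k + 1) acc := by
    intro L
    induction L with
    | nil => intro acc _ h; exact ⟨h, by simp [val]⟩
    | cons e L ih =>
      intro acc hL hacc
      obtain ⟨h1, h2⟩ := stepEntry_spec A K N r k e (hL e (by simp))
      obtain ⟨h3, h4⟩ := insAll_spec A K N r (k+1) _ acc h1 hacc
      obtain ⟨h5, h6⟩ := ih _ (fun x hx => hL x (by simp [hx])) h3
      rw [List.foldl_cons]
      refine ⟨h5, ?_⟩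
      rw [h6, h4, h2]
      simp only [val, List.map_cons, List.sum_cons]
      ring
  obtain ⟨h1, h2⟩ := key L [] hL (fun e he => by simp at he)
  refine ⟨h1, ?_⟩
  unfold step
  rw [h2]; simp [val]

theorem run_spec (A K : ℕ → ℕ → Bool) (N : ℕ) : ∀ (r k : ℕ) (L : St R), Good N L →
    run A K (N : R) r k L = val A K N r k L := by
  intro r
  induction r with
  | zero =>
    intro k L _
    unfold run val ways
    simp
  | succ r ih =>
    intro k L hL
    unfold run
    obtain ⟨h1, h2⟩ := step_spec A K N r k L hL
    rw [ih _ _ h1, h2]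

theorem run_nil (A K : ℕ → ℕ → Bool) (N n : ℕ) :
    run A K (N : R) n 0 [([], 1)] = (ways A K N n 0 [] : R) := by
  rw [run_spec A K N n 0 _ (by intro e he; simp at he; subst he; left; intro p hp; simp at hp)]
  simp [val]

variable {S : Type*} [CommRing S] (φ : R →+* S)

def mapSt (L : St R) : St S := L.map (fun e => (e.1, φ e.2))

theorem mapSt_ins (c : Key) (v : R) (L : St R) :
    mapSt φ (ins c v L) = ins c (φ v) (mapSt φ L) := by
  induction L with
  | nil => rfl
  | cons e L ih =>
    have e1 : mapSt φ (e :: L) = (e.1, φ e.2) :: mapSt φ L := rfl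
    by_cases h : e.1 = c
    · have e2 : ins c v (e :: L) = (c, e.2 + v) :: L := by simp [ins, h]
      rw [e1, e2]
      simp [ins, h, mapSt]
    · have e2 : ins c v (e :: L) = e :: ins c v L := by simp [ins, h]
      have e3 : ins c (φ v) ((e.1, φ e.2) :: mapSt φ L) = (e.1, φ e.2) :: ins c (φ v) (mapSt φ L) := by
        simp [ins, h]
      rw [e1, e2, e3, ← ih]
      rfl

theorem mapSt_insAll (L : St R) : ∀ acc : St R,
    mapSt φ (insAll L acc) = insAll (mapSt φ L) (mapSt φ acc) := by
  induction L with
  | nil => intro acc; rfl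
  | cons e L ih =>
    intro acc
    have : insAll (e :: L) acc = insAll L (ins e.1 e.2 acc) := rfl
    rw [this, ih, mapSt_ins]
    rfl

theorem mapSt_stepEntry (A K : ℕ → ℕ → Bool) (q : R) (k : ℕ) (e : Key × R) :
    mapSt φ (stepEntry A K q k e) = stepEntry A K (φ q) k (e.1, φ e.2) := by
  unfold stepEntry mapSt
  simp [Function.comp_def]

theorem mapSt_step (A K : ℕ → ℕ → Bool) (q : R) (k : ℕ) (L : St R) :
    mapSt φ (step A K q k L) = step A K (φ q) k (mapSt φ L) := by
  have key : ∀ (L acc : St R),
      mapSt φ (L.foldl (fun acc e => insAll (stepEntry A K q k e) acc) acc) =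
      (mapSt φ L).foldl (fun acc e => insAll (stepEntry A K (φ q) k e) acc) (mapSt φ acc) := by
    intro L
    induction L with
    | nil => intro acc; rfl
    | cons e L ih =>
      intro acc
      rw [List.foldl_cons, ih, mapSt_insAll, mapSt_stepEntry]
      rfl
  exact key L []

theorem map_run (A K : ℕ → ℕ → Bool) (q : R) : ∀ (r k : ℕ) (L : St R),
    φ (run A K q r k L) = run A K (φ q) r k (mapSt φ L) := by
  intro r
  induction r with
  | zero =>
    intro k L
    unfold run mapSt
    rw [map_list_sum]
    simp [Function.comp_def]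
  | succ r ih =>
    intro k L
    unfold run
    rw [ih, mapSt_step]

theorem map_run_nil (A K : ℕ → ℕ → Bool) (q : R) (n : ℕ) :
    φ (run A K q n 0 [([], 1)]) = run A K (φ q) n 0 [([], 1)] := by
  rw [map_run]
  simp [mapSt]

end ring

/-! ### connection with colourings -/

def keyOf (K : ℕ → ℕ → Bool) (g : ℕ → ℕ) : ℕ → Key
  | 0 => []
  | k + 1 => ext K k (keyOf K g k) (g k)

theorem keyOf_congr (K : ℕ → ℕ → Bool) (g h : ℕ → ℕ) : ∀ k, (∀ i < k, g i = h i) →
    keyOf K g k = keyOf K h k := by
  intro k
  induction k with
  | zero => intro _; rfl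
  | succ k ih =>
    intro hh
    unfold keyOf
    rw [ih (fun i hi => hh i (by omega)), hh k (by omega)]

theorem mem_keyOf (K : ℕ → ℕ → Bool) (g : ℕ → ℕ) : ∀ k p, p ∈ keyOf K g k →
    p.1 < k ∧ p.2 = g p.1 := by
  intro k
  induction k with
  | zero => intro p hp; simp [keyOf] at hp
  | succ k ih =>
    intro p hp
    unfold keyOf ext at hp
    have := (List.mem_filter.1 hp).1
    rcases List.mem_cons.1 this with rfl | h
    · simp
    · have := ih p h
      exact ⟨by omega, this.2⟩

theorem mem_keyOf_of (A K : ℕ → ℕ → Bool) (n : ℕ)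
    (hK : ∀ k v j, v < n → K k v = false → k < j → j < n → A j v = false) (g : ℕ → ℕ) (v j : ℕ)
    (hj : j < n) (hA : A j v = true) : ∀ k, v < k → k ≤ j → (v, g v) ∈ keyOf K g k := by
  intro k
  induction k with
  | zero => intro h; omega
  | succ k ih =>
    intro hv hkj
    unfold keyOf ext
    rw [List.mem_filter]
    constructor
    · rcases Nat.lt_or_ge v k with h | h
      · exact List.mem_cons_of_mem _ (ih h (by omega))
      · have : v = k := by omega
        subst this; exact List.mem_cons_self
    · by_contra hc
      have hc' : K k v = false := by simpa using hc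
      rw [hK k v j (by omega) hc' (by omega) hj] at hA
      exact absurd hA (by simp)

theorem ok_keyOf (A K : ℕ → ℕ → Bool) (n : ℕ)
    (hK : ∀ k v j, v < n → K k v = false → k < j → j < n → A j v = false) (g : ℕ → ℕ) (k : ℕ)
    (hk : k < n) (x : ℕ) :
    ok A k (keyOf K g k) x = true ↔ ∀ v < k, A k v = true → g v ≠ x := by
  unfold ok
  rw [List.all_eq_true]
  constructor
  · intro h v hv hA
    have := h _ (mem_keyOf_of A K n hK g v k hk hA k hv le_rfl)
    simpa [hA, bne_iff_ne] using this
  · intro h p hp
    obtain ⟨h1, h2⟩ := mem_keyOf K g k p hp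
    by_cases hA : A k p.1 = true
    · have := h p.1 h1 hA
      rw [← h2] at this
      simp [hA, bne_iff_ne, this]
    · simp [hA]

/-- extend a finite colouring to all naturals -/
def hat {k q : ℕ} (g : Fin k → Fin q) (i : ℕ) : ℕ := if h : i < k then (g ⟨i, h⟩ : ℕ) else 0

def Proper (A : ℕ → ℕ → Bool) {k q : ℕ} (g : Fin k → Fin q) : Prop :=
  ∀ i j : Fin k, A i j = true → g i ≠ g j

instance (A : ℕ → ℕ → Bool) {k q : ℕ} (g : Fin k → Fin q) : Decidable (Proper A g) := by
  unfold Proper; infer_instance

def W (A K : ℕ → ℕ → Bool) (q n k : ℕ) : ℕ :=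
  ∑ g : Fin k → Fin q, if Proper A g then ways A K q (n - k) k (keyOf K (hat g) k) else 0

theorem hat_snoc {k q : ℕ} (g : Fin k → Fin q) (x : Fin q) (i : ℕ) (hi : i < k) :
    hat (Fin.snoc (α := fun _ => Fin q) g x) i = hat g i := by
  unfold hat
  rw [dif_pos (by omega : i < k + 1), dif_pos hi]
  congr 1
  have : (⟨i, by omega⟩ : Fin (k + 1)) = Fin.castSucc ⟨i, hi⟩ := rfl
  rw [this, Fin.snoc_castSucc]

theorem hat_snoc_last {k q : ℕ} (g : Fin k → Fin q) (x : Fin q) :
    hat (Fin.snoc (α := fun _ => Fin q) g x) k = x := by
  unfold hat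
  rw [dif_pos (by omega : k < k + 1)]
  congr 1
  have : (⟨k, by omega⟩ : Fin (k + 1)) = Fin.last k := rfl
  rw [this, Fin.snoc_last]

theorem proper_snoc (A : ℕ → ℕ → Bool) (n : ℕ) (hsymm : ∀ i j, i < n → j < n → A i j = A j i)
    (hirr : ∀ i < n, A i i = false) {k q : ℕ} (hk : k < n) (g : Fin k → Fin q) (x : Fin q) :
    Proper A (Fin.snoc (α := fun _ => Fin q) g x) ↔
      Proper A g ∧ ∀ v < k, A k v = true → hat g v ≠ x := by
  constructor
  · intro h
    constructor
    · intro i j hij
      have := h (Fin.castSucc i) (Fin.castSucc j) (by simpa using hij)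
      rwa [Fin.snoc_castSucc, Fin.snoc_castSucc] at this
    · intro v hv hA
      have := h (Fin.last k) (Fin.castSucc ⟨v, hv⟩) (by simpa using hA)
      rw [Fin.snoc_castSucc, Fin.snoc_last] at this
      unfold hat
      rw [dif_pos hv]
      intro hc
      exact this (Fin.ext hc.symm)
  · rintro ⟨h1, h2⟩ i j hij
    have key : ∀ (i : Fin k), A k i = true → x ≠ g i := by
      intro i hi hc
      apply h2 i i.2 hi
      unfold hat
      rw [dif_pos i.2, hc]
    induction i using Fin.lastCases with
    | last =>
      induction j using Fin.lastCases with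
      | last =>
        simp only [Fin.val_last] at hij
        rw [hirr k hk] at hij
        exact absurd hij (by simp)
      | cast j =>
        rw [Fin.snoc_castSucc, Fin.snoc_last]
        exact key j (by simpa using hij)
    | cast i =>
      induction j using Fin.lastCases with
      | last =>
        rw [Fin.snoc_castSucc, Fin.snoc_last]
        refine (key i ?_).symm
        have : A (i : ℕ) k = true := by simpa using hij
        rw [hsymm k i hk (by omega)]
        exact this
      | cast j =>
        rw [Fin.snoc_castSucc, Fin.snoc_castSucc]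
        exact h1 i j (by simpa using hij)

theorem W_succ (A K : ℕ → ℕ → Bool) (n q : ℕ)
    (hsymm : ∀ i j, i < n → j < n → A i j = A j i) (hirr : ∀ i < n, A i i = false)
    (hK : ∀ k v j, v < n → K k v = false → k < j → j < n → A j v = false) (k : ℕ) (hk : k < n) :
    W A K q n k = W A K q n (k + 1) := by
  have e : W A K q n (k + 1) = ∑ p : Fin q × (Fin k → Fin q),
      if Proper A (Fin.snoc (α := fun _ => Fin q) p.2 p.1) then
        ways A K q (n - (k + 1)) (k + 1)
          (keyOf K (hat (Fin.snoc (α := fun _ => Fin q) p.2 p.1)) (k + 1)) else 0 := by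
    unfold W
    exact (Equiv.sum_comp (Fin.snocEquiv (fun _ : Fin (k + 1) => Fin q)) _).symm
  rw [e, Fintype.sum_prod_type_right]
  unfold W
  apply Finset.sum_congr rfl
  intro g _
  by_cases hg : Proper A g
  · rw [if_pos hg]
    have hn : n - k = (n - (k + 1)) + 1 := by omega
    rw [hn, ways, Finset.sum_range]
    apply Finset.sum_congr rfl
    intro x _
    have h1 : keyOf K (hat (Fin.snoc (α := fun _ => Fin q) g x)) (k + 1) =
        ext K k (keyOf K (hat g) k) x := by
      rw [keyOf, hat_snoc_last]
      rw [keyOf_congr K _ (hat g) k (fun i hi => hat_snoc g x i hi)]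
    simp only [proper_snoc A n hsymm hirr hk g x, hg, true_and, h1]
    by_cases h2 : ok A k (keyOf K (hat g) k) (x : ℕ) = true
    · rw [if_pos h2, if_pos ((ok_keyOf A K n hK _ k hk _).1 h2)]
    · rw [if_neg h2, if_neg (fun h => h2 ((ok_keyOf A K n hK _ k hk _).2 h))]
  · rw [if_neg hg]
    symm
    apply Finset.sum_eq_zero
    intro x _
    rw [if_neg]
    rw [proper_snoc A n hsymm hirr hk g x]
    exact fun h => hg h.1

theorem W_zero (A K : ℕ → ℕ → Bool) (n q : ℕ) : W A K q n 0 = ways A K q n 0 [] := by
  unfold W
  rw [Fintype.sum_unique]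
  have h : Proper A (default : Fin 0 → Fin q) := fun i => i.elim0
  rw [if_pos h]
  rfl

theorem W_eq (A K : ℕ → ℕ → Bool) (n q : ℕ)
    (hsymm : ∀ i j, i < n → j < n → A i j = A j i) (hirr : ∀ i < n, A i i = false)
    (hK : ∀ k v j, v < n → K k v = false → k < j → j < n → A j v = false) :
    W A K q n n = ways A K q n 0 [] := by
  have : ∀ k ≤ n, W A K q n k = ways A K q n 0 [] := by
    intro k
    induction k with
    | zero => intro _; exact W_zero A K n q
    | succ k ih =>
      intro hk
      rw [← W_succ A K n q hsymm hirr hK k (by omega)]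
      exact ih (by omega)
  exact this n le_rfl

theorem card_coloring (A K : ℕ → ℕ → Bool) (n q : ℕ) (G : SimpleGraph (Fin n))
    (hG : ∀ i j : Fin n, G.Adj i j ↔ A i j = true)
    (hK : ∀ k v j, v < n → K k v = false → k < j → j < n → A j v = false) :
    Nat.card (G.Coloring (Fin q)) = ways A K q n 0 [] := by
  have hsymm : ∀ i j, i < n → j < n → A i j = A j i := by
    intro i j hi hj
    have h1 := hG ⟨i, hi⟩ ⟨j, hj⟩
    have h2 := hG ⟨j, hj⟩ ⟨i, hi⟩
    rw [SimpleGraph.adj_comm] at h1
    rw [Bool.eq_iff_iff]
    exact h1.symm.trans h2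
  have hirr : ∀ i < n, A i i = false := by
    intro i hi
    have h1 := hG ⟨i, hi⟩ ⟨i, hi⟩
    by_contra hc
    have : A i i = true := by simpa using hc
    exact G.loopless.irrefl _ (h1.2 this)
  rw [← W_eq A K n q hsymm hirr hK]
  unfold W
  have e : (G.Coloring (Fin q)) ≃ {g : Fin n → Fin q // Proper A g} :=
    { toFun := fun C => ⟨fun v => C v, fun i j hij => C.valid ((hG i j).2 hij)⟩
      invFun := fun g => SimpleGraph.Coloring.mk g.1 (fun {v w} h => g.2 v w ((hG v w).1 h))
      left_inv := fun C => by ext v; rfl
      right_inv := fun g => by ext v; rfl }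
  rw [Nat.card_congr e, Nat.card_eq_fintype_card, Fintype.card_subtype]
  rw [Finset.card_filter]
  apply Finset.sum_congr rfl
  intro g _
  simp [ways]


end Pool.Agent.S06080.Tool

open Pool Pool.MP_743ef6_co

namespace Pool.Agent.S06080

open Tool

/-- adjacency masks of a graph with 21 vertices and 25 edges: four core vertices 0,1,2,3, joined by
the edge 01 and by internally disjoint paths of lengths 3 (02), 4 (03), 3 (12), 3 and 4 (13),
3 and 4 (23). -/
def masks : List ℕ := [82, 10753, 328736, 1216768, 33, 20, 129, 320, 136, 1026, 516, 4098, 2056,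
  16386, 40960, 16392, 131076, 65544, 524292, 1310720, 524296]

/-- the last neighbour of each vertex -/
def last : List ℕ := [6, 13, 18, 20, 5, 4, 7, 8, 7, 10, 9, 12, 11, 14, 15, 14, 17, 16, 19, 20, 19]

def A (i j : ℕ) : Bool := (masks.getD i 0).testBit j

def K (k v : ℕ) : Bool := Nat.blt k (last.getD v 0)

theorem A_symm : ∀ i j : Fin 21, A i j = A j i := by decide +kernel

theorem A_irr : ∀ i : Fin 21, A i i = false := by decide +kernel

theorem A_last : ∀ j v : Fin 21, A j v = true → (j : ℕ) ≤ last.getD v 0 := by decide +kernel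

/-- the graph -/
def G : SimpleGraph (Fin 21) where
  Adj i j := A i j = true
  symm := ⟨fun i j h => by rw [← A_symm]; exact h⟩
  loopless := ⟨fun i h => by rw [A_irr] at h; exact absurd h (by simp)⟩

theorem K_spec : ∀ k v j : ℕ, v < 21 → K k v = false → k < j → j < 21 → A j v = false := by
  intro k v j hv hk hkj hj
  by_contra hc
  have hA : A j v = true := by simpa using hc
  have h1 := A_last ⟨j, hj⟩ ⟨v, hv⟩ hA
  have h2 : ¬ k < last.getD v 0 := by
    intro h
    unfold K at hk
    have h3 : Nat.blt k (last.getD v 0) = true := by rw [Nat.blt_eq]; exact h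
    rw [h3] at hk
    exact absurd hk (by simp)
  simp only at h1
  omega

/-- the chromatic polynomial of the graph -/
noncomputable def chrom : Polynomial ℤ := run A K (Polynomial.X : Polynomial ℤ) 21 0 [([], 1)]

theorem chrom_eval (n : ℕ) :
    chrom.eval (n : ℤ) = (Nat.card (G.Coloring (Fin n)) : ℤ) := by
  rw [card_coloring A K 21 n G (fun i j => Iff.rfl) K_spec]
  rw [← run_nil (R := ℤ) A K n 21]
  have h := map_run_nil (Polynomial.evalRingHom (n : ℤ)) A K (Polynomial.X : Polynomial ℤ) 21
  rw [Polynomial.coe_evalRingHom, Polynomial.eval_X] at h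
  exact h

theorem gauss_zero : run A K (⟨0, 1⟩ : GaussianInt) 21 0 [([], 1)] = 0 := by decide +kernel

theorem chrom_I : Polynomial.aeval Complex.I chrom = 0 := by
  have h := map_run_nil ((Polynomial.aeval (R := ℤ) Complex.I).toRingHom) A K
    (Polynomial.X : Polynomial ℤ) 21
  have h2 := map_run_nil GaussianInt.toComplex A K (⟨0, 1⟩ : GaussianInt) 21
  rw [gauss_zero, map_zero] at h2
  have h3 : (Polynomial.aeval (R := ℤ) Complex.I).toRingHom (Polynomial.X : Polynomial ℤ) =
      GaussianInt.toComplex (⟨0, 1⟩ : GaussianInt) := by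
    simp [GaussianInt.toComplex_def]
  rw [h3, ← h2] at h
  exact h

/-- The negation of the preceding statement: For every finite simple graph, its chromatic polynomial (the integer polynomial counting proper n-colourings at each natural n) has no root z with real part 0 and nonzero imaginary part. -/
theorem result :
    ¬ (∀ (V : Type) [Fintype V] (G : SimpleGraph V) (p : Polynomial ℤ),
      (∀ n : ℕ, p.eval (n : ℤ) = (Nat.card (G.Coloring (Fin n)) : ℤ)) →
      ∀ z : ℂ, z.re = 0 → z.im ≠ 0 → Polynomial.aeval z p ≠ 0) := by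
  intro h
  exact h (Fin 21) G chrom chrom_eval Complex.I Complex.I_re (by simp) chrom_I

end Pool.Agent.S06080
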