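import Pool.Statements.S06086
import Mathlib

set_option autoImplicit false
open Pool Pool.MP_74a576_co

namespace Pool.Agent.S06086

section general
variable {V : Type} [Fintype V] [DecidableEq V] (G : SimpleGraph V)

/-- One pebbling step. -/
def Mv (A B : V → ℕ) : Prop :=
  ∃ u v : V, G.Adj u v ∧ 2 ≤ A u ∧
    B = Function.update (Function.update A u (A u - 2)) v (A v + 1)

omit [Fintype V] in
lemma mv_decomp {A B : V → ℕ} (h : Mv G A B) :
    ∃ (C : V → ℕ) (u v : V), G.Adj u v ∧ A = C + Pi.single u 2 ∧ B = C + Pi.single v 1 := by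
  obtain ⟨u, v, huv, h2, hB⟩ := h
  have hne : u ≠ v := G.ne_of_adj huv
  refine ⟨Function.update A u (A u - 2), u, v, huv, ?_, ?_⟩
  · funext w
    by_cases hw : w = u
    · subst hw
      simp
      omega
    · simp [Function.update_of_ne hw, Pi.single_eq_of_ne hw]
  · rw [hB]
    funext w
    by_cases hw : w = v
    · subst hw
      simp [Function.update_of_ne hne.symm]
    · simp [Function.update_of_ne hw, Pi.single_eq_of_ne hw]

omit [Fintype V] in
lemma mv_of (C : V → ℕ) {u v : V} (h : G.Adj u v) :
    Mv G (C + Pi.single u 2) (C + Pi.single v 1) := by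
  have hne : u ≠ v := G.ne_of_adj h
  refine ⟨u, v, h, by simp, ?_⟩
  funext w
  by_cases hw : w = v
  · subst hw
    simp [Pi.single_eq_of_ne hne.symm]
  · by_cases hu : w = u
    · subst hu
      simp [Function.update_of_ne hw, Pi.single_eq_of_ne hw]
    · simp [Function.update_of_ne hw, Function.update_of_ne hu, Pi.single_eq_of_ne hw,
        Pi.single_eq_of_ne hu]

omit [Fintype V] in
lemma reach_edge (C : V → ℕ) {u v : V} (h : G.Adj u v) (q : ℕ) :
    Relation.ReflTransGen (Mv G) (C + Pi.single u (2 * q)) (C + Pi.single v q) := by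
  induction q generalizing C with
  | zero => simpa using Relation.ReflTransGen.refl
  | succ q ih =>
    have h1 : (C + Pi.single u (2 * (q + 1)) : V → ℕ)
        = (C + Pi.single u (2 * q)) + Pi.single u 2 := by
      rw [add_assoc, ← Pi.single_add]
      ring_nf
    have h2 : (C + Pi.single v (q + 1) : V → ℕ)
        = (C + Pi.single v 1) + Pi.single v q := by
      rw [add_assoc, ← Pi.single_add]
      ring_nf
    rw [h1, h2]
    refine Relation.ReflTransGen.head (mv_of G _ h) ?_
    have h3 : (C + Pi.single u (2 * q) + Pi.single v 1 : V → ℕ)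
        = (C + Pi.single v 1) + Pi.single u (2 * q) := by
      abel
    rw [h3]
    exact ih _

omit [Fintype V] in
lemma reach_walk (C : V → ℕ) {u v : V} (p : G.Walk u v) (q : ℕ) :
    Relation.ReflTransGen (Mv G) (C + Pi.single u (2 ^ p.length * q)) (C + Pi.single v q) := by
  induction p generalizing C with
  | nil => simpa using Relation.ReflTransGen.refl
  | cons h p ih =>
    refine Relation.ReflTransGen.trans ?_ (ih C)
    have := reach_edge G C h (2 ^ p.length * q)
    rw [SimpleGraph.Walk.length_cons, pow_succ]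
    convert this using 3
    ring

omit [Fintype V] in
lemma reach_sum (C : V → ℕ) (S : Finset V) (v : V) (j q : ℕ)
    (hS : ∀ u ∈ S, ∃ p : G.Walk u v, p.length = j) :
    Relation.ReflTransGen (Mv G) (C + ∑ u ∈ S, Pi.single u (2 ^ j * q))
      (C + Pi.single v (S.card * q)) := by
  classical
  induction S using Finset.induction_on generalizing C with
  | empty => simpa using Relation.ReflTransGen.refl
  | insert a S ha ih =>
    rw [Finset.sum_insert ha, Finset.card_insert_of_notMem ha]
    obtain ⟨p, hp⟩ := hS a (Finset.mem_insert_self _ _)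
    have h1 := reach_walk G (C + ∑ u ∈ S, Pi.single u (2 ^ j * q)) p q
    rw [hp] at h1
    have h2 := ih (C + Pi.single v q) (fun u hu => hS u (Finset.mem_insert_of_mem hu))
    have e1 : (C + (Pi.single a (2 ^ j * q) + ∑ u ∈ S, Pi.single u (2 ^ j * q)) : V → ℕ)
        = C + ∑ u ∈ S, Pi.single u (2 ^ j * q) + Pi.single a (2 ^ j * q) := by
      abel
    have e2 : (C + ∑ u ∈ S, Pi.single u (2 ^ j * q) + Pi.single v q : V → ℕ)
        = C + Pi.single v q + ∑ u ∈ S, Pi.single u (2 ^ j * q) := by
      abel
    have e3 : (C + Pi.single v ((S.card + 1) * q) : V → ℕ)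
        = C + Pi.single v q + Pi.single v (S.card * q) := by
      rw [add_assoc, ← Pi.single_add]
      ring_nf
    rw [e1, e3]
    refine h1.trans ?_
    rw [e2]
    exact h2

omit [Fintype V] in
lemma potential_bound (Φ : (V → ℕ) → ℕ)
    (hΦ : ∀ (C : V → ℕ) (u v : V), G.Adj u v →
      Φ (C + Pi.single v 1) ≤ Φ (C + Pi.single u 2))
    {A B : V → ℕ} (h : Relation.ReflTransGen (Mv G) A B) : Φ B ≤ Φ A := by
  induction h with
  | refl => exact le_rfl
  | tail _ hbc ih =>
    obtain ⟨C, u, v, huv, e1, e2⟩ := mv_decomp G hbc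
    rw [e2]
    rw [e1] at ih
    exact (hΦ C u v huv).trans ih

lemma lin_add (w : V → ℕ) (C : V → ℕ) (u : V) (q : ℕ) :
    ∑ v, w v * (C + Pi.single u q : V → ℕ) v = ∑ v, w v * C v + w u * q := by
  simp only [Pi.add_apply, mul_add, Finset.sum_add_distrib]
  congr 1
  rw [Finset.sum_eq_single u]
  · simp
  · intro b _ hb
    simp [Pi.single_eq_of_ne hb]
  · simp

end general

lemma sum_le_of_one {ι : Type} [DecidableEq ι] (s : Finset ι) (f g : ι → ℕ) (x0 : ι)
    (hx0 : x0 ∈ s) (a b : ℕ) (h : ∀ x ∈ s, x ≠ x0 → f x ≤ g x) (h0 : f x0 + a ≤ g x0 + b) :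
    ∑ x ∈ s, f x + a ≤ ∑ x ∈ s, g x + b := by
  rw [← Finset.add_sum_erase s f hx0, ← Finset.add_sum_erase s g hx0]
  have : ∑ x ∈ s.erase x0, f x ≤ ∑ x ∈ s.erase x0, g x :=
    Finset.sum_le_sum (fun x hx => h x (Finset.mem_of_mem_erase hx) (Finset.ne_of_mem_erase hx))
  omega

section construction
variable {X Y : Type} [Fintype X] [DecidableEq X] [Fintype Y] [DecidableEq Y] (k : ℕ)

/-- Vertices: centers, hubs, leg vertices. -/
abbrev Vt (X Y : Type) (k : ℕ) : Type := X ⊕ Y ⊕ (Y × Option X × Fin k)

/-- base relation -/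
def rel (Nb : Y → Finset X) : Vt X Y k → Vt X Y k → Prop
  | Sum.inr (Sum.inl y), Sum.inr (Sum.inr (y', _, i)) => y = y' ∧ i.val = 0
  | Sum.inr (Sum.inr (y, o, i)), Sum.inr (Sum.inr (y', o', j)) => y = y' ∧ o = o' ∧ i.val + 1 = j.val
  | Sum.inr (Sum.inr (y, some x, i)), Sum.inl x' => x = x' ∧ x ∈ Nb y ∧ i.val + 1 = k
  | _, _ => False

/-- the graph -/
def gr (Nb : Y → Finset X) : SimpleGraph (Vt X Y k) := SimpleGraph.fromRel (rel k Nb)


omit [Fintype X] [DecidableEq X] [Fintype Y] [DecidableEq Y] in
lemma gr_adj (Nb : Y → Finset X) (a b : Vt X Y k) :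
    (gr k Nb).Adj a b ↔ a ≠ b ∧ (rel k Nb a b ∨ rel k Nb b a) := by
  simp [gr, SimpleGraph.fromRel_adj]

/-- star weights -/
def sg (y0 : Y) (N0 : Finset X) (x : X) : Vt X Y k → ℕ
  | Sum.inl x' => if x' = x ∧ x ∈ N0 then 2 ^ (2 * k + 2) else 0
  | Sum.inr (Sum.inl _) => 0
  | Sum.inr (Sum.inr (y, o, i)) =>
      if o = some x then
        (if y = y0 then 2 ^ (3 * k + 2 - i.val) else if x ∈ N0 then 2 ^ (k + i.val + 2) else 0)
      else 0

/-- linear weights -/
def wt (y0 : Y) : Vt X Y k → ℕ
  | Sum.inl _ => 2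
  | Sum.inr (Sum.inl y) => if y = y0 then 2 ^ (3 * k + 2) else 2 ^ (k + 2)
  | Sum.inr (Sum.inr (y, none, i)) => if y = y0 then 2 ^ (3 * k + 3 + i.val) else 2 ^ (k + 1 - i.val)
  | Sum.inr (Sum.inr (y, some _, i)) => if y = y0 then 2 else 2 ^ (k + 1 - i.val)

/-- the potential -/
def Phi (y0 : Y) (N0 : Finset X) (A : Vt X Y k → ℕ) : ℕ :=
  ∑ x : X, (∑ v, sg k y0 N0 x v * A v - 2 ^ (3 * k + 2)) + ∑ v, wt k y0 v * A v

lemma Phi_step_of_doubling (y0 : Y) (N0 : Finset X) (C : Vt X Y k → ℕ) (u v : Vt X Y k)
    (h1 : ∀ x, sg k y0 N0 x v ≤ sg k y0 N0 x u * 2) (h2 : wt k y0 v ≤ wt k y0 u * 2) :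
    Phi k y0 N0 (C + Pi.single v 1) ≤ Phi k y0 N0 (C + Pi.single u 2) := by
  unfold Phi
  simp only [lin_add]
  apply add_le_add
  · apply Finset.sum_le_sum
    intro x _
    have := h1 x
    omega
  · omega

lemma Phi_step_of_one (y0 : Y) (N0 : Finset X) (C : Vt X Y k → ℕ) (u v : Vt X Y k) (x0 : X)
    (h1 : ∀ x, x ≠ x0 → sg k y0 N0 x v ≤ sg k y0 N0 x u * 2)
    (h2 : ∀ s : ℕ, s + sg k y0 N0 x0 v * 1 - 2 ^ (3 * k + 2) + wt k y0 v * 1 ≤
      s + sg k y0 N0 x0 u * 2 - 2 ^ (3 * k + 2) + wt k y0 u * 2) :
    Phi k y0 N0 (C + Pi.single v 1) ≤ Phi k y0 N0 (C + Pi.single u 2) := by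
  unfold Phi
  simp only [lin_add]
  have := sum_le_of_one (Finset.univ : Finset X)
    (fun x => ∑ v, sg k y0 N0 x v * C v + sg k y0 N0 x v * 1 - 2 ^ (3 * k + 2))
    (fun x => ∑ v, sg k y0 N0 x v * C v + sg k y0 N0 x u * 2 - 2 ^ (3 * k + 2)) x0
    (Finset.mem_univ _) (wt k y0 v * 1) (wt k y0 u * 2)
    (by
      intro x _ hx
      have := h1 x hx
      omega)
    (h2 _)
  omega

lemma two_pow_ge_two (n : ℕ) (h : 1 ≤ n) : 2 ≤ 2 ^ n := by
  calc 2 = 2 ^ 1 := by norm_num
    _ ≤ 2 ^ n := Nat.pow_le_pow_right (by norm_num) h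

lemma Phi_step (Nb : Y → Finset X) (y0 : Y) (C : Vt X Y k → ℕ) (u v : Vt X Y k)
    (h : (gr k Nb).Adj u v) :
    Phi k y0 (Nb y0) (C + Pi.single v 1) ≤ Phi k y0 (Nb y0) (C + Pi.single u 2) := by
  rw [gr_adj] at h
  obtain ⟨-, h | h⟩ := h
  · -- forward direction
    match u, v, h with
    | Sum.inr (Sum.inl y), Sum.inr (Sum.inr (y', none, i)), h =>
      obtain ⟨rfl, hi⟩ := h
      apply Phi_step_of_doubling
      · intro x; simp [sg]
      · by_cases hy : y = y0
        · simp [wt, hy, hi, pow_succ]
        · simp [wt, hy, hi, pow_succ]; omega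
    | Sum.inr (Sum.inl y), Sum.inr (Sum.inr (y', some x0, i)), h =>
      obtain ⟨rfl, hi⟩ := h
      apply Phi_step_of_one k y0 (Nb y0) C _ _ x0
      · intro x hx; simp [sg, hx.symm]
      · intro s
        by_cases hy : y = y0
        · simp only [sg, wt, hy, hi, if_true]
          have := two_pow_ge_two (3 * k + 2) (by omega)
          simp only [Nat.sub_zero]
          omega
        · by_cases hx : x0 ∈ Nb y0
          · simp only [sg, wt, hy, hi, if_true, if_false, hx, pow_succ]
            simp only [Nat.sub_zero, pow_succ]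
            omega
          · simp only [sg, wt, hy, hi, if_true, if_false, hx, pow_succ]
            simp only [Nat.sub_zero, pow_succ]
            omega
    | Sum.inr (Sum.inr (y, o, i)), Sum.inr (Sum.inr (y', o', j)), h =>
      obtain ⟨rfl, rfl, hij⟩ := h
      have hj := j.isLt
      apply Phi_step_of_doubling
      · intro x
        simp only [sg]
        by_cases ho : o = some x
        · by_cases hy : y = y0
          · simp only [ho, hy, if_true]
            have e : 3 * k + 2 - i.val = (3 * k + 2 - j.val) + 1 := by omega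
            rw [e, pow_succ]; omega
          · by_cases hx : x ∈ Nb y0
            · simp only [ho, hy, hx, if_true, if_false]
              rw [← hij, ← pow_succ]
              apply Nat.pow_le_pow_right (by norm_num); omega
            · simp [hy, hx]
        · simp [ho]
      · cases o with
        | none =>
          by_cases hy : y = y0
          · simp only [wt, hy, if_true]
            rw [← pow_succ]; apply le_of_eq; congr 1; omega
          · simp only [wt, hy, if_false]
            have e : k + 1 - i.val = (k + 1 - j.val) + 1 := by omega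
            rw [e, pow_succ]; omega
        | some x =>
          by_cases hy : y = y0
          · simp [wt, hy]
          · simp only [wt, hy, if_false]
            have e : k + 1 - i.val = (k + 1 - j.val) + 1 := by omega
            rw [e, pow_succ]; omega
    | Sum.inr (Sum.inr (y, some x1, i)), Sum.inl x', h =>
      obtain ⟨rfl, hx1, hi⟩ := h
      apply Phi_step_of_doubling
      · intro x
        simp only [sg]
        by_cases hx : x1 = x
        · subst hx
          by_cases hN : x1 ∈ Nb y0
          · by_cases hy : y = y0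
            · simp only [hN, hy, if_true, and_self]
              rw [← pow_succ]
              apply Nat.pow_le_pow_right (by norm_num); omega
            · simp only [hN, hy, if_true, if_false, and_self]
              rw [← pow_succ]
              apply Nat.pow_le_pow_right (by norm_num); omega
          · simp [hN]
        · simp [hx]
      · by_cases hy : y = y0
        · simp [wt, hy]
        · simp only [wt, hy, if_false]
          have : 0 < 2 ^ (k + 1 - i.val) := pow_pos (by norm_num) _
          omega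
  · -- backward direction
    match u, v, h with
    | Sum.inr (Sum.inr (y', none, i)), Sum.inr (Sum.inl y), h =>
      obtain ⟨rfl, hi⟩ := h
      apply Phi_step_of_doubling
      · intro x; simp [sg]
      · by_cases hy : y = y0
        · simp [wt, hy, hi, pow_succ]; omega
        · simp [wt, hy, hi, pow_succ]
    | Sum.inr (Sum.inr (y', some x0, i)), Sum.inr (Sum.inl y), h =>
      obtain ⟨rfl, hi⟩ := h
      apply Phi_step_of_one k y0 (Nb y0) C _ _ x0
      · intro x hx; simp [sg]
      · intro s
        by_cases hy : y = y0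
        · simp only [sg, wt, hy, hi, if_true]
          simp only [Nat.sub_zero]
          omega
        · simp only [sg, wt, hy, hi, if_true, if_false, pow_succ]
          simp only [Nat.sub_zero, pow_succ]
          omega
    | Sum.inr (Sum.inr (y', o', j)), Sum.inr (Sum.inr (y, o, i)), h =>
      obtain ⟨rfl, rfl, hij⟩ := h
      have hj := j.isLt
      apply Phi_step_of_doubling
      · intro x
        simp only [sg]
        by_cases ho : o = some x
        · by_cases hy : y = y0
          · simp only [ho, hy, if_true]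
            have e : 3 * k + 2 - i.val = (3 * k + 2 - j.val) + 1 := by omega
            rw [e, pow_succ]
          · by_cases hx : x ∈ Nb y0
            · simp only [ho, hy, hx, if_true, if_false]
              rw [← pow_succ]
              apply Nat.pow_le_pow_right (by norm_num); omega
            · simp [hy, hx]
        · simp [ho]
      · cases o with
        | none =>
          by_cases hy : y = y0
          · simp only [wt, hy, if_true]
            rw [← pow_succ]
            apply Nat.pow_le_pow_right (by norm_num); omega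
          · simp only [wt, hy, if_false]
            have e : k + 1 - i.val = (k + 1 - j.val) + 1 := by omega
            rw [e, pow_succ]
        | some x =>
          by_cases hy : y = y0
          · simp [wt, hy]
          · simp only [wt, hy, if_false]
            have e : k + 1 - i.val = (k + 1 - j.val) + 1 := by omega
            rw [e, pow_succ]
    | Sum.inl x', Sum.inr (Sum.inr (y, some x1, i)), h =>
      obtain ⟨rfl, hx1, hi⟩ := h
      apply Phi_step_of_doubling
      · intro x
        simp only [sg]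
        by_cases hx : x1 = x
        · subst hx
          by_cases hy : y = y0
          · subst hy
            simp only [hx1, if_true, and_self]
            rw [← pow_succ]
            apply Nat.pow_le_pow_right (by norm_num); omega
          · by_cases hN : x1 ∈ Nb y0
            · simp only [hN, hy, if_true, if_false, and_self]
              rw [← pow_succ]
              apply Nat.pow_le_pow_right (by norm_num); omega
            · simp [hN, hy]
        · simp [hx]
      · by_cases hy : y = y0
        · simp [wt, hy]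
        · simp only [wt, hy, if_false]
          have e : k + 1 - i.val = 2 := by omega
          rw [e]; norm_num


omit [Fintype X] [DecidableEq X] [Fintype Y] [DecidableEq Y] in
lemma walk_leg (Nb : Y → Finset X) (y : Y) (o : Option X) (n : ℕ) :
    ∀ hn : n < k, ∃ p : (gr k Nb).Walk (Sum.inr (Sum.inr (y, o, ⟨n, hn⟩))) (Sum.inr (Sum.inl y)),
      p.length = n + 1 := by
  induction n with
  | zero =>
    intro hn
    have h : (gr k Nb).Adj (Sum.inr (Sum.inr (y, o, ⟨0, hn⟩))) (Sum.inr (Sum.inl y)) := by
      rw [gr_adj]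
      exact ⟨by simp, Or.inr ⟨rfl, rfl⟩⟩
    exact ⟨h.toWalk, by simp⟩
  | succ n ih =>
    intro hn
    obtain ⟨p, hp⟩ := ih (by omega)
    have h : (gr k Nb).Adj (Sum.inr (Sum.inr (y, o, ⟨n + 1, hn⟩)))
        (Sum.inr (Sum.inr (y, o, ⟨n, by omega⟩))) := by
      rw [gr_adj]
      refine ⟨by simp, Or.inr ⟨rfl, rfl, rfl⟩⟩
    exact ⟨SimpleGraph.Walk.cons h p, by simp [hp]⟩

omit [Fintype X] [DecidableEq X] [Fintype Y] [DecidableEq Y] in
lemma walk_cen (Nb : Y → Finset X) (hk : 1 ≤ k) (y : Y) (x : X) (hx : x ∈ Nb y) :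
    ∃ p : (gr k Nb).Walk (Sum.inl x) (Sum.inr (Sum.inl y)), p.length = k + 1 := by
  obtain ⟨p, hp⟩ := walk_leg k Nb y (some x) (k - 1) (by omega)
  have h : (gr k Nb).Adj (Sum.inl x) (Sum.inr (Sum.inr (y, some x, ⟨k - 1, by omega⟩))) := by
    rw [gr_adj]
    refine ⟨by simp, Or.inr ⟨rfl, hx, ?_⟩⟩
    simp only; omega
  exact ⟨SimpleGraph.Walk.cons h p, by simp [hp]; omega⟩

end construction

section main
variable (k : ℕ)

abbrev XX : Type := Fin (2 ^ (2 * k + 1))
abbrev YY : Type := {N : Finset (XX k) // 2 ^ (2 * k) ≤ N.card} × Fin (2 ^ (3 * k))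
abbrev NN : YY k → Finset (XX k) := fun y => y.1.1
abbrev VV : Type := Vt (XX k) (YY k) k

def ystar : YY k := (⟨Finset.univ, by
  rw [Finset.card_univ, Fintype.card_fin]; exact Nat.pow_le_pow_right (by norm_num) (by omega)⟩,
  ⟨0, by positivity⟩)

lemma conn (hk : 1 ≤ k) : (gr k (NN k)).Connected := by
  have hub_reach : ∀ y : YY k, (gr k (NN k)).Reachable (Sum.inr (Sum.inl y))
      (Sum.inr (Sum.inl (ystar k))) := by
    intro y
    have hpos : 0 < (NN k y).card := lt_of_lt_of_le (by positivity) y.1.2
    obtain ⟨x, hx⟩ := Finset.card_pos.mp hpos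
    obtain ⟨p, -⟩ := walk_cen k (NN k) hk y x hx
    obtain ⟨q, -⟩ := walk_cen k (NN k) hk (ystar k) x (Finset.mem_univ x)
    exact ⟨p.reverse.append q⟩
  have all : ∀ v : VV k, (gr k (NN k)).Reachable v (Sum.inr (Sum.inl (ystar k))) := by
    intro v
    match v with
    | Sum.inl x =>
      obtain ⟨q, -⟩ := walk_cen k (NN k) hk (ystar k) x (Finset.mem_univ x)
      exact ⟨q⟩
    | Sum.inr (Sum.inl y) => exact hub_reach y
    | Sum.inr (Sum.inr (y, o, i)) =>
      obtain ⟨p, -⟩ := walk_leg k (NN k) y o i.val i.isLt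
      exact SimpleGraph.Reachable.trans ⟨p⟩ (hub_reach y)
  have : Nonempty (VV k) := ⟨Sum.inr (Sum.inl (ystar k))⟩
  exact ⟨fun u v => (all u).trans (all v).symm⟩

/-- the fractional-type configuration -/
def DD : VV k → ℕ
  | Sum.inl _ => 2 ^ (2 * k + 1)
  | _ => 0

lemma DD_sum : ∑ v, DD k v = 2 ^ (2 * k + 1) * 2 ^ (2 * k + 1) := by
  rw [Fintype.sum_sum_type]
  simp [DD]

lemma DD_solv (hk : 1 ≤ k) (r : VV k) : ∃ D' : VV k → ℕ,
    Relation.ReflTransGen (Mv (gr k (NN k))) (DD k) D' ∧ 2 ^ (2 * k) ≤ D' r := by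
  have hub : ∀ y : YY k, ∃ C : VV k → ℕ, Relation.ReflTransGen (Mv (gr k (NN k))) (DD k)
      (C + Pi.single (Sum.inr (Sum.inl y)) ((NN k y).card * 2 ^ k)) := by
    intro y
    let S : Finset (VV k) := (NN k y).map ⟨Sum.inl, Sum.inl_injective⟩
    have h := reach_sum (gr k (NN k)) (DD k - ∑ u ∈ S, Pi.single u (2 ^ (k + 1) * 2 ^ k)) S
      (Sum.inr (Sum.inl y)) (k + 1) (2 ^ k) (by
        intro u hu
        rw [Finset.mem_map] at hu
        obtain ⟨x, hx, rfl⟩ := hu
        exact walk_cen k (NN k) hk y x hx)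
    refine ⟨DD k - ∑ u ∈ S, Pi.single u (2 ^ (k + 1) * 2 ^ k), ?_⟩
    · have e : (DD k - ∑ u ∈ S, Pi.single u (2 ^ (k + 1) * 2 ^ k)
          + ∑ u ∈ S, Pi.single u (2 ^ (k + 1) * 2 ^ k) : VV k → ℕ) = DD k := by
        funext v
        have hle : (∑ u ∈ S, Pi.single u (2 ^ (k + 1) * 2 ^ k) : VV k → ℕ) v ≤ DD k v := by
          rw [Finset.sum_apply]
          simp only [Pi.single_apply]
          rw [Finset.sum_ite_eq]
          split_ifs with hv
          · rw [Finset.mem_map] at hv
            obtain ⟨x, hx, rfl⟩ := hv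
            simp only [Function.Embedding.coeFn_mk, DD]
            apply le_of_eq
            rw [← pow_add]; congr 1; omega
          · exact Nat.zero_le _
        simp only [Pi.add_apply, Pi.sub_apply]
        exact Nat.sub_add_cancel hle
      rw [e] at h
      have hc : S.card = (NN k y).card := Finset.card_map _
      rw [hc] at h
      exact h
  match r with
  | Sum.inl x =>
    refine ⟨DD k, Relation.ReflTransGen.refl, ?_⟩
    simp only [DD]
    exact Nat.pow_le_pow_right (by norm_num) (by omega)
  | Sum.inr (Sum.inl y) =>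
    obtain ⟨C, hC⟩ := hub y
    refine ⟨_, hC, ?_⟩
    have := y.1.2
    simp only [Pi.add_apply, Pi.single_eq_same]
    have h2 : 1 ≤ 2 ^ k := Nat.one_le_two_pow
    nlinarith
  | Sum.inr (Sum.inr (y, o, i)) =>
    obtain ⟨C, hC⟩ := hub y
    obtain ⟨p, hp⟩ := walk_leg k (NN k) y o i.val i.isLt
    have h := reach_walk (gr k (NN k)) C p.reverse ((NN k y).card * 2 ^ (k - (i.val + 1)))
    rw [SimpleGraph.Walk.length_reverse, hp] at h
    have e : 2 ^ (i.val + 1) * ((NN k y).card * 2 ^ (k - (i.val + 1))) = (NN k y).card * 2 ^ k := by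
      have : 2 ^ k = 2 ^ (i.val + 1) * 2 ^ (k - (i.val + 1)) := by
        rw [← pow_add]; congr 1; omega
      rw [this]; ring
    rw [e] at h
    refine ⟨_, hC.trans h, ?_⟩
    have := y.1.2
    simp only [Pi.add_apply, Pi.single_eq_same]
    have h2 : 1 ≤ 2 ^ (k - (i.val + 1)) := Nat.one_le_two_pow
    nlinarith


/-- the center owning a vertex -/
def own : VV k → Option (XX k)
  | Sum.inl x => some x
  | Sum.inr (Sum.inl _) => none
  | Sum.inr (Sum.inr (_, o, _)) => o

/-- the branch containing a vertex -/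
def brn : VV k → Option (YY k)
  | Sum.inl _ => none
  | Sum.inr (Sum.inl y) => some y
  | Sum.inr (Sum.inr (y, _, _)) => some y

lemma class_sum {V I : Type} [Fintype V] [Fintype I] [DecidableEq I] (f : V → Option I)
    (E : V → ℕ) : ∑ x : I, (∑ v, if f v = some x then E v else 0) ≤ ∑ v, E v := by
  rw [Finset.sum_comm]
  apply Finset.sum_le_sum
  intro v _
  cases hf : f v with
  | none => simp
  | some i => simp

lemma exists_zero_class {V I : Type} [Fintype V] [Fintype I] [DecidableEq I] (f : V → Option I)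
    (E : V → ℕ) {M : ℕ} (g : Fin M → I) (hg : Function.Injective g) (hE : ∑ v, E v < M) :
    ∃ j, ∀ v, f v = some (g j) → E v = 0 := by
  by_contra hcon
  push Not at hcon
  have h1 : ∀ j, 1 ≤ ∑ v, if f v = some (g j) then E v else 0 := by
    intro j
    obtain ⟨v, hv, hne⟩ := hcon j
    have : (if f v = some (g j) then E v else 0) ≤
        ∑ v, if f v = some (g j) then E v else 0 :=
      Finset.single_le_sum (f := fun v => if f v = some (g j) then E v else 0)
        (fun _ _ => Nat.zero_le _) (Finset.mem_univ v)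
    rw [if_pos hv] at this
    omega
  have h2 : ∑ j : Fin M, 1 ≤ ∑ j : Fin M, ∑ v, (if f v = some (g j) then E v else 0) :=
    Finset.sum_le_sum (fun j _ => h1 j)
  have h3 : ∑ j : Fin M, ∑ v, (if f v = some (g j) then E v else 0) ≤
      ∑ x : I, ∑ v, (if f v = some x then E v else 0) := by
    have h5 := Finset.sum_map Finset.univ (⟨g, hg⟩ : Fin M ↪ I)
      (fun x => ∑ v, (if f v = some x then E v else 0))
    simp only [Function.Embedding.coeFn_mk] at h5
    rw [← h5]
    exact Finset.sum_le_sum_of_subset (Finset.subset_univ _)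
  have h4 := class_sum f E
  simp at h2
  omega

lemma lower (hk : 1 ≤ k) (E : VV k → ℕ) (hE : ∑ v, E v < 2 ^ (3 * k)) :
    ∃ r : VV k, ∀ E' : VV k → ℕ, Relation.ReflTransGen (Mv (gr k (NN k))) E E' → E' r = 0 := by
  classical
  -- heavy centers
  let e : XX k → ℕ := fun x => ∑ v, if own k v = some x then E v else 0
  let H : Finset (XX k) := Finset.univ.filter (fun x => 2 ^ k < e x)
  have hH : H.card * 2 ^ k < 2 ^ (2 * k) * 2 ^ k := by
    have h1 : H.card * 2 ^ k ≤ ∑ x ∈ H, e x := by
      rw [← smul_eq_mul]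
      apply Finset.card_nsmul_le_sum
      intro x hx
      exact le_of_lt (Finset.mem_filter.mp hx).2
    have h2 : ∑ x ∈ H, e x ≤ ∑ x, e x := Finset.sum_le_sum_of_subset (Finset.subset_univ _)
    have h3 : ∑ x, e x ≤ ∑ v, E v := class_sum (own k) E
    have h4 : 2 ^ (2 * k) * 2 ^ k = 2 ^ (3 * k) := by rw [← pow_add]; congr 1; omega
    omega
  have hH2 : H.card < 2 ^ (2 * k) := lt_of_mul_lt_mul_right hH (Nat.zero_le _)
  have hcomp : 2 ^ (2 * k) ≤ (Hᶜ).card := by
    rw [Finset.card_compl, Fintype.card_fin, pow_succ]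
    omega
  obtain ⟨j, hj⟩ := exists_zero_class (brn k) E
    (fun j : Fin (2 ^ (3 * k)) => ((⟨Hᶜ, hcomp⟩, j) : YY k))
    (fun a b hab => (Prod.mk.inj hab).2) hE
  set y0 : YY k := (⟨Hᶜ, hcomp⟩, j) with hy0
  refine ⟨Sum.inr (Sum.inr (y0, none, ⟨k - 1, by omega⟩)), ?_⟩
  intro E' hE'
  have hpot := potential_bound (gr k (NN k)) (Phi k y0 (NN k y0))
    (fun C u v huv => Phi_step k (NN k) y0 C u v huv) hE'
  -- initial potential
  have hinit : Phi k y0 (NN k y0) E < 2 ^ (4 * k + 2) := by
    unfold Phi
    have hz : ∑ x : XX k, (∑ v, sg k y0 (NN k y0) x v * E v - 2 ^ (3 * k + 2)) = 0 := by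
      apply Finset.sum_eq_zero
      intro x _
      by_cases hx : x ∈ NN k y0
      · have hx' : e x ≤ 2 ^ k := by
          have : x ∉ H := by
            have : x ∈ Hᶜ := hx
            exact Finset.mem_compl.mp this
          by_contra hlt
          exact this (Finset.mem_filter.mpr ⟨Finset.mem_univ _, by omega⟩)
        have hle : ∑ v, sg k y0 (NN k y0) x v * E v ≤ 2 ^ (2 * k + 2) * e x := by
          rw [Finset.mul_sum]
          apply Finset.sum_le_sum
          intro v _
          match v with
          | Sum.inl x' =>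
            simp only [sg, own]
            by_cases hxx : x' = x
            · simp [hxx, hx]
            · simp [hxx]
          | Sum.inr (Sum.inl y) => simp [sg]
          | Sum.inr (Sum.inr (y, o, i)) =>
            by_cases hy : y = y0
            · have : E (Sum.inr (Sum.inr (y, o, i))) = 0 := hj _ (by simp [brn, hy])
              simp [this]
            · by_cases ho : o = some x
              · simp only [sg, own, ho, hy, hx, if_true, if_false]
                apply Nat.mul_le_mul_right
                have := i.isLt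
                exact Nat.pow_le_pow_right (by norm_num) (by omega)
              · simp [sg, ho]
        have : 2 ^ (2 * k + 2) * e x ≤ 2 ^ (2 * k + 2) * 2 ^ k := Nat.mul_le_mul_left _ hx'
        have h5 : 2 ^ (2 * k + 2) * 2 ^ k = 2 ^ (3 * k + 2) := by
          rw [← pow_add]; congr 1; omega
        omega
      · have : ∑ v, sg k y0 (NN k y0) x v * E v = 0 := by
          apply Finset.sum_eq_zero
          intro v _
          match v with
          | Sum.inl x' => simp [sg, hx]
          | Sum.inr (Sum.inl y) => simp [sg]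
          | Sum.inr (Sum.inr (y, o, i)) =>
            by_cases hy : y = y0
            · have : E (Sum.inr (Sum.inr (y, o, i))) = 0 := hj _ (by simp [brn, hy])
              simp [this]
            · simp [sg, hy, hx]
        rw [this]
        exact Nat.zero_sub _
    have hw : ∑ v, wt k y0 v * E v ≤ 2 ^ (k + 2) * ∑ v, E v := by
      rw [Finset.mul_sum]
      apply Finset.sum_le_sum
      intro v _
      match v with
      | Sum.inl x' =>
        apply Nat.mul_le_mul_right
        simp only [wt]
        exact two_pow_ge_two _ (by omega)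
      | Sum.inr (Sum.inl y) =>
        by_cases hy : y = y0
        · have : E (Sum.inr (Sum.inl y)) = 0 := hj _ (by simp [brn, hy])
          simp [this]
        · simp [wt, hy]
      | Sum.inr (Sum.inr (y, none, i)) =>
        by_cases hy : y = y0
        · have : E (Sum.inr (Sum.inr (y, none, i))) = 0 := hj _ (by simp [brn, hy])
          simp [this]
        · simp only [wt, hy, if_false]
          apply Nat.mul_le_mul_right
          exact Nat.pow_le_pow_right (by norm_num) (by omega)
      | Sum.inr (Sum.inr (y, some x, i)) =>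
        by_cases hy : y = y0
        · have : E (Sum.inr (Sum.inr (y, some x, i))) = 0 := hj _ (by simp [brn, hy])
          simp [this]
        · simp only [wt, hy, if_false]
          apply Nat.mul_le_mul_right
          exact Nat.pow_le_pow_right (by norm_num) (by omega)
    have hS : 2 ^ (k + 2) * ∑ v, E v < 2 ^ (k + 2) * 2 ^ (3 * k) :=
      Nat.mul_lt_mul_of_pos_left hE (by positivity)
    have h6 : 2 ^ (k + 2) * 2 ^ (3 * k) = 2 ^ (4 * k + 2) := by
      rw [← pow_add]; congr 1; omega
    omega
  -- final potential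
  by_contra hne
  have hfin : 2 ^ (4 * k + 2) ≤ Phi k y0 (NN k y0) E' := by
    unfold Phi
    have h1 : wt k y0 (Sum.inr (Sum.inr (y0, none, ⟨k - 1, by omega⟩)) : VV k) *
        E' (Sum.inr (Sum.inr (y0, none, ⟨k - 1, by omega⟩))) ≤ ∑ v, wt k y0 v * E' v :=
      Finset.single_le_sum (f := fun v => wt k y0 v * E' v)
        (fun _ _ => Nat.zero_le _) (Finset.mem_univ _)
    have h2 : wt k y0 (Sum.inr (Sum.inr (y0, none, ⟨k - 1, by omega⟩)) : VV k) = 2 ^ (4 * k + 2) := by
      simp only [wt, if_true]
      congr 1; omega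
    rw [h2] at h1
    have h3 : 1 ≤ E' (Sum.inr (Sum.inr (y0, none, ⟨k - 1, by omega⟩))) := Nat.pos_of_ne_zero hne
    have h4 : 2 ^ (4 * k + 2) * 1 ≤ 2 ^ (4 * k + 2) *
      E' (Sum.inr (Sum.inr (y0, none, ⟨k - 1, by omega⟩))) := Nat.mul_le_mul_left _ h3
    omega
  omega

end main

/-- The negation of the preceding statement: There is a constant c such that for every finite connected graph and every t ≥ 1, t times the optimal pebbling number is at most c times the optimal t-pebbling number, i.e. optimal pebbling number ≤ c · fractional optimal pebbling number. -/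
theorem result :
    ¬ (∃ c : ℕ, ∀ (V : Type) [Fintype V] [DecidableEq V] (G : SimpleGraph V), G.Connected →
      ∀ t : ℕ, 1 ≤ t → ∀ D : V → ℕ,
        (∀ r : V, ∃ D' : V → ℕ,
            Relation.ReflTransGen
              (fun A B : V → ℕ => ∃ u v : V, G.Adj u v ∧ 2 ≤ A u ∧
                B = Function.update (Function.update A u (A u - 2)) v (A v + 1)) D D' ∧
            t ≤ D' r) →
        ∃ E : V → ℕ,
          (∀ r : V, ∃ E' : V → ℕ,
              Relation.ReflTransGen
                (fun A B : V → ℕ => ∃ u v : V, G.Adj u v ∧ 2 ≤ A u ∧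
                  B = Function.update (Function.update A u (A u - 2)) v (A v + 1)) E E' ∧
              1 ≤ E' r) ∧
          t * ∑ v, E v ≤ c * ∑ v, D v) := by
  rintro ⟨c, hc⟩
  have hk : 1 ≤ c + 2 := by omega
  obtain ⟨E, hsolv, hle⟩ := hc (VV (c + 2)) (gr (c + 2) (NN (c + 2))) (conn (c + 2) hk)
    (2 ^ (2 * (c + 2))) Nat.one_le_two_pow (DD (c + 2)) (fun r => DD_solv (c + 2) hk r)
  by_cases hE : ∑ v, E v < 2 ^ (3 * (c + 2))
  · obtain ⟨r, hr⟩ := lower (c + 2) hk E hE
    obtain ⟨E', h1, h2⟩ := hsolv r
    have := hr E' h1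
    omega
  · rw [DD_sum] at hle
    have h1 : 2 ^ (2 * (c + 2)) * 2 ^ (3 * (c + 2)) ≤
        c * (2 ^ (2 * (c + 2) + 1) * 2 ^ (2 * (c + 2) + 1)) :=
      le_trans (Nat.mul_le_mul_left _ (by omega)) hle
    have h2 : 2 ^ (2 * (c + 2)) * 2 ^ (3 * (c + 2)) =
        2 ^ c * (2 ^ (2 * (c + 2) + 1) * 2 ^ (2 * (c + 2) + 1)) := by
      rw [← pow_add, ← pow_add, ← pow_add]
      congr 1; omega
    rw [h2] at h1
    have h3 : 2 ^ c ≤ c := Nat.le_of_mul_le_mul_right h1 (by positivity)
    have h4 := Nat.lt_two_pow_self (n := c)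
    omega

end Pool.Agent.S06086

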