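import Pool.Statements.S06096
import Pool.Agent.Helper447.CSRef

set_option autoImplicit false
open Pool Pool.MP_7600d1_co
open Pool.Agent.Helper447.CSRef

namespace Pool.Agent.S06096

/-- The negation of the preceding statement: For every d there are finitely many centrally symmetric d-polytopes such that every centrally symmetric d-polytope P has a boundary homeomorphism onto one of them under which each proper face of that one is the image of a union of proper faces of P. -/
theorem result :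
    ¬ (∀ d : ℕ, ∃ (n : ℕ) (Q : Fin n → Set (EuclideanSpace ℝ (Fin d))),
      (∀ i, (∃ S : Finset (EuclideanSpace ℝ (Fin d)), Q i = convexHull ℝ (S : Set (EuclideanSpace ℝ (Fin d)))) ∧
        (interior (Q i)).Nonempty ∧
        ∃ c : EuclideanSpace ℝ (Fin d), ∀ x ∈ Q i, (2 : ℝ) • c - x ∈ Q i) ∧
      ∀ P : Set (EuclideanSpace ℝ (Fin d)),
        ((∃ S : Finset (EuclideanSpace ℝ (Fin d)), P = convexHull ℝ (S : Set (EuclideanSpace ℝ (Fin d)))) ∧
          (interior P).Nonempty ∧
          ∃ c : EuclideanSpace ℝ (Fin d), ∀ x ∈ P, (2 : ℝ) • c - x ∈ P) →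
        ∃ i : Fin n, ∃ φ : ↥(frontier P) ≃ₜ ↥(frontier (Q i)),
          ∀ F : Set (EuclideanSpace ℝ (Fin d)),
            (F.Nonempty ∧ F ≠ Q i ∧ IsExposed ℝ (Q i) F) →
            ∃ 𝒮 : Set (Set (EuclideanSpace ℝ (Fin d))),
              (∀ G ∈ 𝒮, G.Nonempty ∧ G ≠ P ∧ IsExposed ℝ P G) ∧
              ∀ x : ↥(frontier P), ((x : EuclideanSpace ℝ (Fin d)) ∈ ⋃₀ 𝒮 ↔
                ((φ x : EuclideanSpace ℝ (Fin d)) ∈ F))) := by
  intro hall
  obtain ⟨n, Q, hQ, href⟩ := hall 4
  choose hQ1 hQ2 hQ3 using hQ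
  choose S hS using hQ1
  -- choose `M` larger than the number of vertices of every `Q i`
  set M : ℕ := 1 + ∑ i : Fin n, (S i).card with hM
  have hMcard : ∀ i, (S i).card < M := by
    intro i
    have := Finset.single_le_sum (f := fun i => (S i).card) (fun _ _ => Nat.zero_le _)
      (Finset.mem_univ i)
    have h2 : (S i).card ≤ ∑ i : Fin n, (S i).card := this
    omega
  have hM1 : 1 ≤ M := by omega
  obtain ⟨i, φ, hφ⟩ := href (poly (nn M))
    ⟨poly_eq_convexHull _ (poly_compact M hM1), ⟨0, zero_mem_interior M⟩, 0, poly_symm M⟩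
  obtain ⟨c, hc⟩ := hQ3 i
  have hQc : Convex ℝ (Q i) := by rw [hS i]; exact convex_convexHull ℝ _
  have hQcl : IsClosed (Q i) := by
    rw [hS i]; exact ((S i).finite_toSet.isClosed_convexHull (𝕜 := ℝ))
  have hvf : ∀ k : Fin M, vk M k ∈ frontier (poly (nn M)) := by
    intro k
    rw [mem_frontier_poly]
    exact ⟨vk_mem M k, (true, true, ⟨k, by omega⟩),
      (nn_vk M k true true ⟨k, by omega⟩).mpr ⟨rfl, Or.inl rfl⟩⟩
  have hext : ∀ k : Fin M, (φ ⟨vk M k, hvf k⟩ : EuclideanSpace ℝ (Fin 4)) ∈ S i := by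
    intro k
    have h1 := vertex_forced (nn M) (nn_simple M) hQc hQcl (hQ2 i) c hc φ hφ
      ⟨vk M k, hvf k⟩ (fun x _ hx => vk_uniq M k k.2 x hx)
      (fun a b ha hb hab j => vk_meet M k a b ha hb hab j)
    have h2 : (Q i).extremePoints ℝ ⊆ (S i : Set (EuclideanSpace ℝ (Fin 4))) := by
      rw [hS i]; exact extremePoints_convexHull_subset
    exact h2 h1
  -- injectivity
  have hcard : M ≤ (S i).card := by
    have h2 := Finset.card_le_card_of_injOn (s := (Finset.univ : Finset (Fin M))) (t := S i)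
      (fun k : Fin M => (φ ⟨vk M k, hvf k⟩ : EuclideanSpace ℝ (Fin 4)))
      (fun k _ => hext k) (by
        intro a _ b _ hab
        have h3 : (φ ⟨vk M a, hvf a⟩ : EuclideanSpace ℝ (Fin 4)) = φ ⟨vk M b, hvf b⟩ := hab
        have h4 := φ.injective (Subtype.ext h3)
        have h5 : vk M a = vk M b := congrArg Subtype.val h4
        exact Fin.ext (vk_injOn M a b a.2 h5))
    simpa using h2
  exact absurd (hMcard i) (not_lt.mpr hcard)

end Pool.Agent.S06096
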