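import Pool.Statements.S06104
import Pool.Agent.Helper920.Family
import Pool.Agent.Helper920.Op

set_option autoImplicit false
open Pool Pool.MP_766cb7_co

namespace Pool.Agent.S06104

open Set Pool.Agent.Helper920.Family Pool.Agent.Helper920.Op

/-- The negation of the preceding statement: Let f on subsets of S be increasing, monotone, idempotent and have the exchange property, and satisfy (C) and (H) with independent and spanning defined via f. Then some matroid (B-matroid) on S has closure equal to f. -/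
theorem result :
    ¬ (∀ (α : Type) (S : Set α) (f : Set α → Set α),
      (∀ X, X ⊆ S → f X ⊆ S) →
      (∀ X, X ⊆ S → X ⊆ f X) →
      (∀ X Y, X ⊆ Y → Y ⊆ S → f X ⊆ f Y) →
      (∀ X, X ⊆ S → f (f X) = f X) →
      (∀ X, X ⊆ S → ∀ p ∈ S, ∀ q, q ∈ f (insert p X) → q ∉ f X → p ∈ f (insert q X)) →
      (∀ Y, Y ⊆ S → ∀ p ∈ f Y, ∃ U : Set α,
          Minimal (fun W : Set α => W ⊆ Y ∧ p ∈ f W) U ∧
          ∀ x ∈ U, x ∉ f (U \ {x})) →
      (∀ Y, Y ⊆ S → ∀ p ∈ S, p ∉ f Y → ∃ V : Set α,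
          Maximal (fun W : Set α => Y ⊆ W ∧ W ⊆ S ∧ p ∉ f W) V ∧
          f (insert p V) = S) →
      ∃ M : Matroid α, M.E = S ∧ ∀ X, X ⊆ S → M.closure X = f X) := by
  intro H
  obtain ⟨B, hex, hanti, hcomp, hJL, hT, hmid⟩ := exists_family
  have h0 : ∅ ∉ B := by
    intro h
    have h2 : ∅ = JL := hanti ∅ h JL hJL (empty_subset _)
    have h3 : ((0 : ℕ), (0 : Fin 3)) ∈ JL := Or.inl rfl
    rw [← h2] at h3
    exact h3
  obtain ⟨M, hME, hcl⟩ := H (ℕ × Fin 3) univ (op B) (fun _ _ => subset_univ _)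
    (fun X _ => op_ext X) (fun X Y h _ => op_mono h) (fun X _ => op_idem X)
    (by
      intro X _ p _ q hq hq'
      by_cases hpX : p ∈ X
      · exact absurd (by rwa [insert_eq_of_mem hpX] at hq) hq'
      have e : insert p X \ {p} = X := by
        ext x
        simp only [mem_sdiff, mem_insert_iff, mem_singleton_iff]
        constructor
        · rintro ⟨h1 | h1, h2⟩
          · exact absurd h1 h2
          · exact h1
        · intro h
          exact ⟨Or.inr h, fun h' => hpX (h' ▸ h)⟩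
      obtain ⟨a, ha, h⟩ := op_exchange hex {p} (insert p X) q hq (by rwa [e])
      rw [mem_singleton_iff] at ha
      subst ha
      rwa [e] at h)
    (fun Y _ p hp => op_C hanti h0 Y p hp)
    (by
      intro Y _ p _ hp
      obtain ⟨V, hV, hs⟩ := op_H hex hanti hcomp Y p hp
      exact ⟨V, ⟨⟨hV.1.1, subset_univ _, hV.1.2⟩, fun W hW hle => hV.2 ⟨hW.1, hW.2.2⟩ hle⟩, hs⟩)
  have hE : ∀ X : Set (ℕ × Fin 3), X ⊆ M.E := fun X => by rw [hME]; exact subset_univ _
  have hJind : M.Indep J := by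
    rw [Matroid.indep_iff_forall_notMem_closure_sdiff (hE J)]
    intro e he h
    have hne : ¬ ∃ Y' ∈ B, Y' ⊆ J \ {e} := fun ⟨Y, hY, hYJ⟩ =>
      proper_sdiff hanti hJL (show e ∈ JL from Or.inl he)
        ⟨Y, hY, hYJ.trans (sdiff_subset_sdiff_left (fun x hx => Or.inl hx))⟩
    rw [hcl _ (subset_univ _), op_id hne] at h
    exact h.2 rfl
  obtain ⟨I, hI, hJI⟩ := hJind.subset_isBasis_of_subset (X := JK) (fun x hx => Or.inl hx) (hE JK)
  have hIJK : I ⊆ JK := hI.subset
  have hcl2 : M.closure I = M.closure JK := hI.closure_eq_closure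
  have hJK : ∃ Y ∈ B, Y ⊆ JK := ⟨T univ, hT univ infinite_univ, by
    rintro x (hx | hx)
    · exact Or.inl hx.1
    · exact Or.inr hx.1⟩
  rw [hcl _ (subset_univ _), hcl _ (subset_univ _), op_top hJK] at hcl2
  have hlast : ((0 : ℕ), (2 : Fin 3)) ∉ I := by
    intro h
    rcases hIJK h with h | h
    · exact absurd h (show ¬ ((2 : Fin 3) = 0) by decide)
    · exact absurd h (show ¬ ((2 : Fin 3) = 1) by decide)
  have hIB : ∃ Y ∈ B, Y ⊆ I := by
    by_contra hc
    rw [op_id hc] at hcl2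
    exact hlast (hcl2 ▸ mem_univ _)
  obtain ⟨Y, hY, hYI⟩ := hIB
  have hIY : I ⊆ Y := by
    intro x hx
    by_contra hxY
    have h1 := (Matroid.indep_iff_forall_notMem_closure_sdiff (hE I)).1 hI.indep hx
    rw [hcl _ (subset_univ _), op_top (show ∃ Y' ∈ B, Y' ⊆ I \ {x} from
      ⟨Y, hY, fun y hy => ⟨hYI hy, fun h => hxY (h ▸ hy)⟩⟩)] at h1
    exact h1 trivial
  have : Y = I := Subset.antisymm hYI hIY
  exact hmid I hJI hIJK (this ▸ hY)

end Pool.Agent.S06104
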