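import Pool.Statements.S06129
import Pool.Agent.Helper340.TwoCol.Numer

set_option autoImplicit false
open Pool Pool.MP_78797b_co

namespace Pool.Agent.S06129

/-- For every ε>0 and large N, for any q ≤ (2−ε)log₂N and any red/blue colouring of K_q, first-player Red can ensure that after all edges of K_N are claimed, some q vertices carry exactly that colouring. -/
theorem result :
    ∀ ε : ℝ, 0 < ε → ∃ N₀ : ℕ, ∀ N : ℕ, N₀ ≤ N → ∀ q : ℕ,
      (q : ℝ) ≤ (2 - ε) * Real.logb 2 (N : ℝ) →
      ∀ G : SimpleGraph (Fin q), ∃ σ : List (Fin N × Fin N) → Fin N × Fin N,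
        ∀ m : ℕ → Fin N × Fin N,
          (∀ k < N.choose 2, (Even k → m k = σ ((List.range k).map m)) ∧
              (¬ Even k → (m k).1 ≠ (m k).2 ∧
                ∀ j < k, m j ≠ m k ∧ m j ≠ (m k).swap)) →
          (∀ k < N.choose 2, (m k).1 ≠ (m k).2 ∧
                ∀ j < k, m j ≠ m k ∧ m j ≠ (m k).swap) ∧
          ∃ f : Fin q ↪ Fin N, ∀ i j : Fin q, i ≠ j →
            (G.Adj i j ↔ ∃ k < N.choose 2, Even k ∧
              (m k = (f i, f j) ∨ m k = (f j, f i))) := by
  intro ε hε
  exact Pool.Agent.Helper340.TwoNumer.eventually_ok ε hε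

end Pool.Agent.S06129
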