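import Pool.Statements.S06137

set_option autoImplicit false
open Pool Pool.MP_79384d_co

namespace Pool.Agent.S06137

open Matrix

/-- the conference Seidel matrix of order 6 plus the identity (integer entries) -/
def Cmat : List (List ℤ) :=
  [[1, 1, 1, 1, 1, 1],
   [1, 1, 1, -1, -1, 1],
   [1, 1, 1, 1, -1, -1],
   [1, -1, 1, 1, 1, -1],
   [1, -1, -1, 1, 1, 1],
   [1, 1, -1, -1, 1, 1]]

def centry (a b : ℕ) : ℤ := ((Cmat.getD a []).getD b 0)

/-- the integer Seidel matrix of order 18 -/
def M (i j : Fin 18) : ℤ :=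
  centry (i.val / 3) (j.val / 3) - (if i = j then 1 else 0)

/-- the real version -/
noncomputable def S : Matrix (Fin 18) (Fin 18) ℝ := Matrix.of fun i j => (M i j : ℝ)

lemma M_symm : ∀ i j, M i j = M j i := by decide +kernel

lemma M_diag : ∀ i, M i i = 0 := by decide +kernel

lemma M_off : ∀ i j, i ≠ j → M i j = 1 ∨ M i j = -1 := by decide +kernel

def M1 (i j : Fin 18) : ℤ := M i j + if i = j then 1 else 0
def M4 (i j : Fin 18) : ℤ := M i j - if i = j then 4 else 0

lemma M_poly_entry : ∀ i j, (∑ k, (∑ l, M1 i l * M l k) * M4 k j) = 41 * M1 i j := by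
  decide +kernel

lemma S_apply (i j : Fin 18) : S i j = (M i j : ℝ) := rfl

lemma S1_eq : S + 1 = Matrix.of fun i j => (M1 i j : ℝ) := by
  ext i j
  simp only [Matrix.add_apply, S_apply, Matrix.one_apply, Matrix.of_apply, M1]
  split_ifs <;> push_cast <;> ring

lemma S4_eq : S - (4 : ℝ) • (1 : Matrix (Fin 18) (Fin 18) ℝ) = Matrix.of fun i j => (M4 i j : ℝ) := by
  ext i j
  simp only [Matrix.sub_apply, Matrix.smul_apply, S_apply, Matrix.one_apply, Matrix.of_apply, M4,
    smul_eq_mul]
  split_ifs <;> push_cast <;> ring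

lemma S_poly : (S + 1) * S * (S - (4 : ℝ) • (1 : Matrix (Fin 18) (Fin 18) ℝ)) = (41 : ℝ) • (S + 1) := by
  rw [S1_eq, S4_eq]
  ext i j
  have h := M_poly_entry i j
  have h' : ((∑ k, (∑ l, M1 i l * M l k) * M4 k j : ℤ) : ℝ) = ((41 * M1 i j : ℤ) : ℝ) := by
    exact_mod_cast h
  push_cast at h'
  simp only [Matrix.mul_apply, Matrix.smul_apply, Matrix.of_apply, S_apply, smul_eq_mul]
  exact h'

lemma eig_poly {x : ℝ} {v : Fin 18 → ℝ} (hv : v ≠ 0) (h : S *ᵥ v = x • v) :
    (x + 1) * (x ^ 2 - 4 * x - 41) = 0 := by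
  have h1 : ((S + 1) * S * (S - (4 : ℝ) • (1 : Matrix (Fin 18) (Fin 18) ℝ))) *ᵥ v
      = ((x + 1) * x * (x - 4)) • v := by
    rw [← Matrix.mulVec_mulVec, ← Matrix.mulVec_mulVec]
    have e1 : (S - (4 : ℝ) • (1 : Matrix (Fin 18) (Fin 18) ℝ)) *ᵥ v = (x - 4) • v := by
      rw [Matrix.sub_mulVec, h, Matrix.smul_mulVec, Matrix.one_mulVec, sub_smul]
    rw [e1, Matrix.mulVec_smul, Matrix.mulVec_smul, h, Matrix.mulVec_smul, Matrix.add_mulVec, h,
      Matrix.one_mulVec]
    ext i
    simp only [Pi.smul_apply, Pi.add_apply, smul_eq_mul]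
    ring
  have h2 : ((41 : ℝ) • (S + 1)) *ᵥ v = (41 * (x + 1)) • v := by
    rw [Matrix.smul_mulVec, Matrix.add_mulVec, h, Matrix.one_mulVec]
    ext i
    simp only [Pi.smul_apply, Pi.add_apply, smul_eq_mul]
    ring
  rw [S_poly, h2] at h1
  obtain ⟨i, hi⟩ := Function.ne_iff.mp hv
  have h3 := congrFun h1 i
  simp only [Pi.smul_apply, smul_eq_mul] at h3
  have h4 : ((x + 1) * (x ^ 2 - 4 * x - 41)) * v i = 0 := by linear_combination -h3
  rcases mul_eq_zero.mp h4 with h5 | h5
  · exact h5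
  · exact absurd h5 hi

lemma root_iff (x : ℝ) : S.charpoly.IsRoot x ↔ ∃ v : Fin 18 → ℝ, v ≠ 0 ∧ S *ᵥ v = x • v := by
  rw [Polynomial.IsRoot.def, Matrix.eval_charpoly, ← Matrix.exists_mulVec_eq_zero_iff]
  constructor
  · rintro ⟨v, hv, h⟩
    refine ⟨v, hv, ?_⟩
    rw [Matrix.sub_mulVec] at h
    have : (Matrix.scalar (Fin 18) x) *ᵥ v = x • v := by
      ext i
      simp [Matrix.mulVec_diagonal]
    rw [this] at h
    exact (sub_eq_zero.mp h).symm
  · rintro ⟨v, hv, h⟩
    refine ⟨v, hv, ?_⟩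
    rw [Matrix.sub_mulVec]
    have : (Matrix.scalar (Fin 18) x) *ᵥ v = x • v := by
      ext i
      simp [Matrix.mulVec_diagonal]
    rw [this, h, sub_self]

/-- eigenvector for `-1` -/
def v0 (i : Fin 18) : ℤ := if i = 0 then 1 else if i = 1 then -1 else 0

lemma v0_eq : ∀ i, (∑ j, M i j * v0 j) = - v0 i := by decide +kernel

/-- eigenvectors for `2 ± 3 √5` have the form `a + b √5` -/
def va (i : Fin 18) : ℤ := if i.val < 3 then 0 else 1
def vb (i : Fin 18) : ℤ := if i.val < 3 then 1 else 0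

lemma va_eq : ∀ i, (∑ j, M i j * va j) = 2 * va i + 15 * vb i := by decide +kernel
lemma vb_eq : ∀ i, (∑ j, M i j * vb j) = 3 * va i + 2 * vb i := by decide +kernel

lemma eig_irr (r : ℝ) (hr : r ^ 2 = 5) : ∃ v : Fin 18 → ℝ, v ≠ 0 ∧ S *ᵥ v = (2 + 3 * r) • v := by
  refine ⟨fun i => (va i : ℝ) + r * (vb i : ℝ), ?_, ?_⟩
  · intro h
    have := congrFun h 5
    have e1 : va 5 = 1 := by decide
    have e2 : vb 5 = 0 := by decide
    simp only [e1, e2, Pi.zero_apply] at this
    norm_num at this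
  · ext i
    simp only [Matrix.mulVec, dotProduct, S_apply, Pi.smul_apply, smul_eq_mul]
    have h1 : ((∑ j, M i j * va j : ℤ) : ℝ) = ((2 * va i + 15 * vb i : ℤ) : ℝ) := by
      exact_mod_cast va_eq i
    have h2 : ((∑ j, M i j * vb j : ℤ) : ℝ) = ((3 * va i + 2 * vb i : ℤ) : ℝ) := by
      exact_mod_cast vb_eq i
    push_cast at h1 h2
    have h3 : ∑ j, (M i j : ℝ) * ((va j : ℝ) + r * (vb j : ℝ))
        = ∑ j, (M i j : ℝ) * (va j : ℝ) + r * ∑ j, (M i j : ℝ) * (vb j : ℝ) := by
      rw [Finset.mul_sum, ← Finset.sum_add_distrib]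
      exact Finset.sum_congr rfl fun j _ => by ring
    rw [h3, h1, h2]
    linear_combination (-3 * (vb i : ℝ)) * hr

lemma eig_neg : ∃ v : Fin 18 → ℝ, v ≠ 0 ∧ S *ᵥ v = (-1 : ℝ) • v := by
  refine ⟨fun i => (v0 i : ℝ), ?_, ?_⟩
  · intro h
    have := congrFun h 0
    have e1 : v0 0 = 1 := by decide
    simp only [e1, Pi.zero_apply] at this
    norm_num at this
  · ext i
    simp only [Matrix.mulVec, dotProduct, S_apply, Pi.smul_apply, smul_eq_mul]
    have h1 : ((∑ j, M i j * v0 j : ℤ) : ℝ) = ((- v0 i : ℤ) : ℝ) := by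
      exact_mod_cast v0_eq i
    push_cast at h1
    rw [h1]
    ring

lemma isRoot_iff (x : ℝ) : S.charpoly.IsRoot x ↔
    x = -1 ∨ x = 2 + 3 * √5 ∨ x = 2 + 3 * (-√5) := by
  have h5 : (√5 : ℝ) ^ 2 = 5 := Real.sq_sqrt (by norm_num)
  rw [root_iff]
  constructor
  · rintro ⟨v, hv, h⟩
    have h1 := eig_poly hv h
    rcases mul_eq_zero.mp h1 with h2 | h2
    · left; linarith
    · right
      have h3 : (x - (2 + 3 * √5)) * (x - (2 + 3 * (-√5))) = 0 := by
        linear_combination h2 - 9 * h5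
      rcases mul_eq_zero.mp h3 with h4 | h4
      · left; linarith
      · right; linarith
  · rintro (h | h | h)
    · rw [h]; exact eig_neg
    · rw [h]; exact eig_irr _ h5
    · rw [h]; exact eig_irr _ (by rw [neg_sq]; exact h5)

/-- weights extracting the first block sum -/
def W (i : Fin 18) : ℤ := if i.val = 0 then -1 else if i.val % 3 = 0 then 1 else 0

lemma W_eq : ∀ j, (∑ i, W i * M1 i j) = if j.val < 3 then 4 else 0 := by decide +kernel

/-- There is a Seidel matrix (symmetric, zero diagonal, ±1 off diagonal) of order at least 14 with exactly three distinct eigenvalues such that no ±1 switching of it has constant row sums, i.e. its switching class contains no regular graph. -/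
theorem result :
    ∃ n : ℕ, 14 ≤ n ∧ ∃ S : Matrix (Fin n) (Fin n) ℝ,
      S.IsSymm ∧ (∀ i, S i i = 0) ∧
      (∀ i j, i ≠ j → S i j = 1 ∨ S i j = -1) ∧
      S.charpoly.roots.toFinset.card = 3 ∧
      ∀ s : Fin n → ℝ, (∀ i, s i = 1 ∨ s i = -1) →
        ¬ ∃ c : ℝ, ∀ i, ∑ j, s i * S i j * s j = c := by
  refine ⟨18, by norm_num, S, ?_, ?_, ?_, ?_, ?_⟩
  · ext i j
    rw [Matrix.transpose_apply, S_apply, S_apply, M_symm]
  · intro i
    rw [S_apply, M_diag]; norm_num
  · intro i j hij
    rw [S_apply]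
    rcases M_off i j hij with h | h
    · left; rw [h]; norm_num
    · right; rw [h]; norm_num
  · have hpos : (0 : ℝ) < √5 := Real.sqrt_pos.mpr (by norm_num)
    have h5 : (√5 : ℝ) ^ 2 = 5 := Real.sq_sqrt (by norm_num)
    have hset : S.charpoly.roots.toFinset = {-1, 2 + 3 * √5, 2 + 3 * (-√5)} := by
      ext x
      rw [Multiset.mem_toFinset, Polynomial.mem_roots (Matrix.charpoly_monic S).ne_zero, isRoot_iff]
      simp only [Finset.mem_insert, Finset.mem_singleton]
    rw [hset]
    rw [Finset.card_insert_of_notMem, Finset.card_insert_of_notMem, Finset.card_singleton]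
    · simp only [Finset.mem_singleton]
      intro h; nlinarith
    · simp only [Finset.mem_insert, Finset.mem_singleton, not_or]
      constructor
      · intro h; nlinarith
      · intro h; nlinarith
  · rintro s hs ⟨c, hc⟩
    have hsq : ∀ i, s i * s i = 1 := by
      intro i; rcases hs i with h | h <;> rw [h] <;> norm_num
    have hS : ∀ i, ∑ j, S i j * s j = c * s i := by
      intro i
      have h1 := hc i
      have h2 : ∑ j, s i * S i j * s j = s i * ∑ j, S i j * s j := by
        rw [Finset.mul_sum]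
        exact Finset.sum_congr rfl fun j _ => by ring
      rw [h2] at h1
      calc ∑ j, S i j * s j = (s i * s i) * ∑ j, S i j * s j := by rw [hsq i, one_mul]
        _ = s i * (s i * ∑ j, S i j * s j) := by ring
        _ = c * s i := by rw [h1]; ring
    have hne : s ≠ 0 := by
      intro h
      have := hsq 0
      rw [h] at this
      simp at this
    have hS' : S *ᵥ s = c • s := by
      ext i
      simp only [Matrix.mulVec, dotProduct, Pi.smul_apply, smul_eq_mul]
      exact hS i
    have hp := eig_poly hne hS'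
    -- c is an integer
    choose t ht using fun i => (show ∃ z : ℤ, s i = (z : ℝ) from by
      rcases hs i with h | h
      · exact ⟨1, by rw [h]; norm_num⟩
      · exact ⟨-1, by rw [h]; norm_num⟩)
    have hcint : ∃ z : ℤ, c = (z : ℝ) := by
      refine ⟨∑ j, t 0 * M 0 j * t j, ?_⟩
      rw [← hc 0]
      push_cast
      exact Finset.sum_congr rfl fun j _ => by rw [← ht 0, ← ht j, S_apply]
    obtain ⟨z, hz⟩ := hcint
    have hz1 : c = -1 := by
      rw [hz] at hp ⊢
      have hp' : (z + 1) * (z ^ 2 - 4 * z - 41) = 0 := by exact_mod_cast hp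
      rcases mul_eq_zero.mp hp' with h | h
      · have : z = -1 := by linarith
        rw [this]; norm_num
      · exfalso
        have h1 : (z - 2) ^ 2 = 45 := by linear_combination h
        have h2 : z - 2 < 7 := by nlinarith
        have h3 : -7 < z - 2 := by nlinarith
        generalize z - 2 = w at *
        interval_cases w <;> omega
    rw [hz1] at hS
    -- the first block sum vanishes
    have hM1 : ∀ i, ∑ j, (M1 i j : ℝ) * s j = 0 := by
      intro i
      have h1 : ∑ j, (M1 i j : ℝ) * s j = ∑ j, S i j * s j + ∑ j, (if i = j then 1 else 0) * s j := by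
        rw [← Finset.sum_add_distrib]
        refine Finset.sum_congr rfl fun j _ => ?_
        rw [S_apply, M1]
        split_ifs <;> push_cast <;> ring
      rw [h1, hS i]
      simp
    have hW : ∑ i, (W i : ℝ) * ∑ j, (M1 i j : ℝ) * s j = 0 := by
      refine Finset.sum_eq_zero fun i _ => ?_
      rw [hM1 i, mul_zero]
    have hW2 : ∑ i, (W i : ℝ) * ∑ j, (M1 i j : ℝ) * s j
        = ∑ j, ((∑ i, W i * M1 i j : ℤ) : ℝ) * s j := by
      push_cast
      simp_rw [Finset.mul_sum, Finset.sum_mul]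
      rw [Finset.sum_comm]
      exact Finset.sum_congr rfl fun j _ => Finset.sum_congr rfl fun i _ => by ring
    rw [hW2] at hW
    simp_rw [W_eq] at hW
    have hsum : s 0 + s 1 + s 2 = 0 := by
      have : ∑ j : Fin 18, ((if j.val < 3 then (4 : ℤ) else 0 : ℤ) : ℝ) * s j
          = 4 * (s 0 + s 1 + s 2) := by
        simp [Fin.sum_univ_succ]
        ring
      rw [this] at hW
      linarith
    rcases hs 0 with h0 | h0 <;> rcases hs 1 with h1 | h1 <;> rcases hs 2 with h2 | h2 <;>
      rw [h0, h1, h2] at hsum <;> norm_num at hsum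

end Pool.Agent.S06137
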