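import Pool.Statements.S06163
import Pool.Agent.Helper199.OrePacking

set_option autoImplicit false
open Pool Pool.MP_7c6760_co

namespace Pool.Agent.S06163

/-- For all n-vertex graphs G1, G2, if every edge of G1 and every edge of G2 have product of Ore-degrees below 2n, then some vertex permutation maps G1's edges to non-edges of G2, i.e. the graphs pack. -/
theorem result :
    ∀ (n : ℕ) (G₁ G₂ : SimpleGraph (Fin n)) [DecidableRel G₁.Adj] [DecidableRel G₂.Adj],
      (∀ x y u v : Fin n, G₁.Adj x y → G₂.Adj u v →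
        (G₁.degree x + G₁.degree y) * (G₂.degree u + G₂.degree v) < 2 * n) →
      ∃ σ : Equiv.Perm (Fin n), ∀ a b : Fin n, G₁.Adj a b → ¬ G₂.Adj (σ a) (σ b) := by
  intro n G₁ G₂ _ _ h
  exact Pool.Agent.Helper199.Ore.pack G₁ G₂ (by simpa using h)

end Pool.Agent.S06163
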