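import Pool.Statements.S06166
import Pool.Agent.Helper549.Tri.MainEq

set_option autoImplicit false
open Pool Pool.MP_7c7817_co

namespace Pool.Agent.S06166

/-- The negation of the preceding statement: There is n such that for every N > n, some non-degenerate equilateral triangle in the plane is the union of N non-degenerate, pairwise congruent triangles with pairwise disjoint interiors. -/
theorem result :
    ¬ (∃ n : ℕ, ∀ N : ℕ, n < N →
      ∃ (a : Fin 3 → EuclideanSpace ℝ (Fin 2))
        (t : Fin N → Fin 3 → EuclideanSpace ℝ (Fin 2)),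
        a 0 ≠ a 1 ∧
        dist (a 0) (a 1) = dist (a 1) (a 2) ∧
        dist (a 1) (a 2) = dist (a 2) (a 0) ∧
        (∀ i, AffineIndependent ℝ (t i)) ∧
        (∀ i j : Fin N, ∀ k l : Fin 3, dist (t i k) (t i l) = dist (t j k) (t j l)) ∧
        (⋃ i, convexHull ℝ (Set.range (t i))) = convexHull ℝ (Set.range a) ∧
        (∀ i j : Fin N, i ≠ j →
          Disjoint (interior (convexHull ℝ (Set.range (t i))))
                   (interior (convexHull ℝ (Set.range (t j)))))) := by
  rintro ⟨n, hn⟩
  obtain ⟨N, hNle, hN⟩ := Nat.exists_infinite_primes (max (n + 1) 17)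
  have h1 : n < N := lt_of_lt_of_le (by omega) (le_trans (le_max_left _ _) hNle)
  have h17 : 17 ≤ N := le_trans (le_max_right _ _) hNle
  obtain ⟨a, P, ha, h01, h12, hP, hdist, hU, hD⟩ := hn N h1
  haveI : NeZero N := ⟨by omega⟩
  have hA := Pool.Agent.Helper549.Tri.affineIndependent_of_equilateral a ha h01 h12
  obtain ⟨T, t, τ, ℓ, θ, ρ, h, hlen, hang, hT⟩ :=
    Pool.Agent.Helper549.Tri.Setup.setup a P hA hP
      (fun i => ⟨Equiv.refl _, fun k l => hdist i 0 k l⟩) hU hD
  have hall : ∀ x y : Fin 3, x ≠ y → dist (a x) (a y) = dist (a 0) (a 1) := by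
    intro x y hxy
    fin_cases x <;> fin_cases y <;> first | exact absurd rfl hxy | skip
    · rfl
    · show dist (a 0) (a 2) = _
      rw [dist_comm (a 0) (a 2)]; linarith
    · show dist (a 1) (a 0) = _
      exact dist_comm _ _
    · show dist (a 1) (a 2) = _
      linarith
    · show dist (a 2) (a 0) = _
      linarith
    · show dist (a 2) (a 1) = _
      rw [dist_comm (a 2) (a 1)]; linarith
  have hlT : ∀ k, Pool.Agent.Helper549.Tri.len T k = dist (a 0) (a 1) := by
    intro k
    rw [hT k]
    apply hall
    intro he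
    have := ρ.injective he
    revert this
    fin_cases k <;> decide
  exact Pool.Agent.Helper549.Tri.no_dis_eq hN h17 h (by rw [hlT, hlT]) (by rw [hlT, hlT])
    τ ℓ θ hlen hang

end Pool.Agent.S06166
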