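import Pool.Statements.S06168
import Pool.Agent.Helper998.Removable

set_option autoImplicit false
open Pool Pool.MP_7c85f7_co

namespace Pool.Agent.S06168

open Pool.Agent.Helper998.VecMatroid

/-- The negation of the preceding statement: There is a number t such that every finite nonempty binary matroid in which any two elements share a circuit and every cocircuit has at least t elements has a circuit D whose deletion leaves a matroid where any two elements share a circuit. -/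
theorem result :
    ¬ (∃ t : ℕ, ∀ (α : Type) (M : Matroid α),
      M.E.Finite → M.E.Nonempty →
      (∃ (n : ℕ) (v : α → (Fin n → ZMod 2)),
        ∀ I : Set α, M.Indep I ↔ (I ⊆ M.E ∧ LinearIndepOn (ZMod 2) v I)) →
      (∀ e ∈ M.E, ∀ f ∈ M.E, e ≠ f → ∃ C : Set α, M.IsCircuit C ∧ e ∈ C ∧ f ∈ C) →
      (∀ K : Set α, M.IsCocircuit K → t ≤ K.ncard) →
      ∃ D : Set α, M.IsCircuit D ∧
        ∀ e ∈ (M.restrict (M.E \ D)).E, ∀ f ∈ (M.restrict (M.E \ D)).E, e ≠ f →
          ∃ C : Set α, (M.restrict (M.E \ D)).IsCircuit C ∧ e ∈ C ∧ f ∈ C) := by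
  rintro ⟨t, ht⟩
  obtain ⟨n, m, v, hn, hconn, hcoc, hmeet, htwo⟩ := Pool.Agent.Helper998.Removable.main t
  obtain ⟨D, hD, hrem⟩ := ht (Fin n) (vecMatroid (ZMod 2) v) (Set.toFinite _)
    ⟨⟨0, hn⟩, Set.mem_univ _⟩ ⟨m, v, fun I => by
      rw [vecMatroid_indep]
      exact ⟨fun h => ⟨Set.subset_univ _, h⟩, fun h => h.2⟩⟩
    (fun e _ f _ _ => hconn e f) hcoc
  obtain ⟨e, f, he, hf, hef⟩ := htwo D hD
  obtain ⟨C, hC, -, -⟩ := hrem e ⟨Set.mem_univ _, he⟩ f ⟨Set.mem_univ _, hf⟩ hef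
  rw [Matroid.restrict_isCircuit_iff Set.sdiff_subset] at hC
  obtain ⟨x, hxC, hxD⟩ := hmeet C D hC.1 hD
  exact (hC.2 hxC).2 hxD

end Pool.Agent.S06168
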