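import Pool.Statements.S06191
import Pool.Agent.H305GL.Final

set_option autoImplicit false
open Pool Pool.MP_7eddf1_co

namespace Pool.Agent.S06191

/-- For every n, any sequence of integer triples with coordinates in 1..n has length at most n^(3/2), provided each earlier triple is strictly below each later one in at least two coordinates. -/
theorem result :
    ∀ n m : ℕ, ∀ s : Fin m → (Fin 3 → ℕ),
      (∀ k : Fin m, ∀ i : Fin 3, 1 ≤ s k i ∧ s k i ≤ n) →
      (∀ j k : Fin m, j < k →
        2 ≤ (Finset.univ.filter (fun i : Fin 3 => s j i < s k i)).card) →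
      (m : ℝ) ≤ (n : ℝ) ^ ((3 : ℝ) / 2) := by
  intro n m s h1 h2
  have h := H305GL.gowers_long n m s h1 h2
  have hn : (0:ℝ) ≤ n := Nat.cast_nonneg n
  have h3 : ((n:ℝ) ^ ((3:ℝ) / 2)) ^ 2 = (n:ℝ) ^ 3 := by
    rw [← Real.rpow_natCast, ← Real.rpow_mul hn]
    norm_num
  rw [← h3] at h
  exact (pow_le_pow_iff_left₀ (Nat.cast_nonneg m) (Real.rpow_nonneg hn _) (by norm_num)).1 h

end Pool.Agent.S06191
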