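-- Proof of frozen statement S06237.
import Pool.Statements.S06237
import Pool.Agent.Helper621.Card

set_option autoImplicit false
open Pool Pool.MP_828a2e_co

namespace Pool.Agent.S06237

open Pool.Agent.Helper621

theorem aux (G : Type) [Group G] [Fintype G] (hG : 2 ≤ Fintype.card G) :
    ∃ (V : Type) (_ : Fintype V) (_ : DecidableEq V) (B : Finset (Finset V)),
        (∀ b ∈ B, b.card = 3) ∧
        (∀ x y : V, x ≠ y → ∃! b, b ∈ B ∧ x ∈ b ∧ y ∈ b) ∧
        Fintype.card V ≤ (Fintype.card G) ^ 7 ∧
        ∃ φ : G →* Equiv.Perm V, Function.Injective φ ∧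
          ∀ g : G, ∀ b ∈ B, b.image (⇑(φ g)) ∈ B := by
  classical
  obtain ⟨m, hm1, hm2, z, hz, ι, hι, ψ, k, hk⟩ :=
    exists_frame G (Nat.card G) (by omega)
  let Φ := mkFrame z hz ι hι ψ
  have fin1 : Finite (Col m) := inferInstance
  have fin : Fintype Φ.Label := Fintype.ofFinite _
  obtain ⟨S⟩ := exists_squag Φ.Label k (by rw [← Nat.card_eq_fintype_card]; exact hk)
  let T := Φ.total S (Equiv.refl _)
  refine ⟨Φ.Label ⊕ (G × Lev m), inferInstance, Classical.decEq _, ?_⟩
  let _ : DecidableEq (Φ.Label ⊕ (G × Lev m)) := Classical.decEq _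
  refine ⟨T.blocks, fun b hb => T.card_block hb, fun x y hxy => T.existsUnique_block hxy, ?_,
    Frame.gact _ _, Frame.gact_injective, ?_⟩
  · rw [Fintype.card_sum, Fintype.card_prod, ← Nat.card_eq_fintype_card]
    have h := card_label z hz ι hι ψ
    have h1 : Fintype.card (Lev m) = 2 * (2 * m + 1) := by
      rw [Fintype.card_prod, ZMod.card]
      simp
    rw [h1]
    have h2 : Nat.card G = Fintype.card G := Nat.card_eq_fintype_card
    rw [h2] at h hm1 hm2
    have h3 : Nat.card Φ.Label ≤ 2 * (2 * m + 1) * Fintype.card G := by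
      have : Nat.card Φ.Label = Nat.card (mkFrame z hz ι hι ψ).Label := rfl
      omega
    set n := Fintype.card G
    have h4 : 2 * m + 1 ≤ 5 * n := by omega
    calc Nat.card Φ.Label + n * (2 * (2 * m + 1))
        ≤ 2 * (2 * m + 1) * n + n * (2 * (2 * m + 1)) := by omega
      _ = 4 * n * (2 * m + 1) := by ring
      _ ≤ 4 * n * (5 * n) := Nat.mul_le_mul_left _ h4
      _ = 20 * n ^ 2 := by ring
      _ ≤ n ^ 5 * n ^ 2 := by
          apply Nat.mul_le_mul_right
          calc 20 ≤ 2 ^ 5 := by norm_num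
            _ ≤ n ^ 5 := Nat.pow_le_pow_left hG 5
      _ = n ^ 7 := by ring
  · intro g b hb
    have := T.image_mem_blocks (σ := Frame.gact Φ.Label (Lev m) g) (Φ.gact_op S _ g) hb
    exact this

/-- There is a constant c such that every finite group of order n embeds in the automorphism group of some Steiner triple system on at most n^c points. -/
theorem result :
    ∃ c : ℕ, ∀ (G : Type) [Group G] [Fintype G],
      ∃ (V : Type) (_ : Fintype V) (_ : DecidableEq V) (B : Finset (Finset V)),
        (∀ b ∈ B, b.card = 3) ∧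
        (∀ x y : V, x ≠ y → ∃! b, b ∈ B ∧ x ∈ b ∧ y ∈ b) ∧
        Fintype.card V ≤ (Fintype.card G) ^ c ∧
        ∃ φ : G →* Equiv.Perm V, Function.Injective φ ∧
          ∀ g : G, ∀ b ∈ B, b.image (⇑(φ g)) ∈ B := by
  refine ⟨7, fun G _ _ => ?_⟩
  by_cases hG : 2 ≤ Fintype.card G
  · exact aux G hG
  · have h0 : 0 < Fintype.card G := Fintype.card_pos
    have h1 : Fintype.card G = 1 := by omega
    have hs : Subsingleton G := Fintype.card_le_one_iff_subsingleton.1 h1.le
    refine ⟨Unit, inferInstance, inferInstance, ∅, by simp, ?_, by simp [h1], 1, ?_, by simp⟩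
    · intro x y hxy
      exact absurd (Subsingleton.elim x y) hxy
    · intro a b _
      exact Subsingleton.elim a b

end Pool.Agent.S06237
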