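import Pool.Statements.S06260
import Pool.Agent.Helper40.Comb
import Pool.Agent.Helper40.Num

set_option autoImplicit false
open Pool Pool.MP_839d5d_co

namespace Pool.Agent.S06260

open Pool.Agent.Helper40

/-- The numerical facts used: with `m = 16 ^ j`, `n = 4 m`, `c = m + j`, `d = 15 c + n c`. -/
lemma key_ineq (C : ℝ) : ∃ j : ℕ, 2 ≤ j ∧
    (((15 * (16 ^ j + j) + (4 * 16 ^ j) * (16 ^ j + j) : ℕ) : ℝ) ≤
      (Real.log 2 * ((4 * 16 ^ j : ℕ) : ℝ) ^ 2 -
        ((4 * 16 ^ j : ℕ) : ℝ) * Real.log ((4 * 16 ^ j : ℕ) : ℝ)) / 2 - C * ((4 * 16 ^ j : ℕ) : ℝ)) := by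
  obtain ⟨j0, hj0⟩ := exists_nat_ge |C|
  refine ⟨j0 + 2, by omega, ?_⟩
  set j := j0 + 2 with hj
  have hjC : |C| ≤ (j : ℝ) := by rw [hj]; push_cast; linarith
  have hj2 : (2 : ℝ) ≤ (j : ℝ) := by rw [hj]; push_cast; linarith [(Nat.cast_nonneg j0 : (0:ℝ) ≤ (j0:ℝ))]
  set m : ℝ := (16 : ℝ) ^ j with hm
  have hbern : 1 + 15 * ((j0 : ℝ) + 1) ≤ (16 : ℝ) ^ (j0 + 1) := by
    have := one_add_mul_le_pow (show (-2 : ℝ) ≤ 15 by norm_num) (j0 + 1)
    norm_num at this ⊢
    linarith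
  have hm1 : 240 * (j : ℝ) - 224 ≤ m := by
    have : m = 16 * (16 : ℝ) ^ (j0 + 1) := by rw [hm, hj, pow_succ]; ring
    rw [this, hj]
    push_cast
    nlinarith
  have hmpos : 0 < m := by rw [hm]; positivity
  have hlogm : Real.log (4 * m) ≤ 2 + 3 * (j : ℝ) := by
    have h1 : Real.log (4 * m) = (2 + 4 * (j : ℝ)) * Real.log 2 := by
      have : 4 * m = (2 : ℝ) ^ (2 + 4 * j) := by
        rw [pow_add (2 : ℝ) 2 (4 * j), pow_mul (2 : ℝ) 4 j, hm]; norm_num
      rw [this, Real.log_pow]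
      push_cast; ring
    rw [h1]
    nlinarith [Real.log_two_lt_d9, Real.log_two_gt_d9]
  have hlog2 : (0.693 : ℝ) ≤ Real.log 2 := by linarith [Real.log_two_gt_d9]
  push_cast
  rw [← hm]
  have hCm : C * (4 * m) ≤ 4 * (j : ℝ) * m := by
    have : C ≤ (j : ℝ) := le_trans (le_abs_self C) hjC
    nlinarith
  have hlm : (4 * m) * Real.log (4 * m) ≤ (4 * m) * (2 + 3 * (j : ℝ)) :=
    mul_le_mul_of_nonneg_left hlogm (by positivity)
  have hsq : Real.log 2 * (4 * m) ^ 2 ≥ 0.693 * (4 * m) ^ 2 :=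
    mul_le_mul_of_nonneg_right hlog2 (by positivity)
  have hjm : (j : ℝ) ≤ m / 100 := by nlinarith
  nlinarith [mul_pos hmpos hmpos]


/-- The negation of the preceding statement: There is a constant C such that for all n ≥ 2: Maker wins the Maker-Breaker game on the lines of n^d when d ≥ (n² log 2 − n log n)/2 + Cn, and Breaker wins when d ≤ (n² log 2 − n log n)/2 − Cn. -/
theorem result :
    ¬ (∃ C : ℝ, ∀ n : ℕ, 2 ≤ n → ∀ d : ℕ, ∀ W : Prop,
      (W ↔ ∃ σ : List (Fin d → Fin n) → (Fin d → Fin n),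
        ∀ τ : List (Fin d → Fin n) → (Fin d → Fin n),
          ∃ k : ℕ, ∃ a : Fin d → Fin n, ∃ s : Fin d → Fin 3, (∃ i, s i ≠ 0) ∧
            ∀ t : Fin n,
              (fun i => if s i = 0 then a i else if s i = 1 then t else Fin.rev t) ∈
                  (fun h : List (Fin d → Fin n) =>
                    h ++ [if Even h.length then σ h else τ h])^[k] [] ∧
              Even (List.idxOf
                (fun i => if s i = 0 then a i else if s i = 1 then t else Fin.rev t)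
                ((fun h : List (Fin d → Fin n) =>
                    h ++ [if Even h.length then σ h else τ h])^[k] []))) →
      (((d : ℝ) ≥ (Real.log 2 * (n : ℝ) ^ 2 - (n : ℝ) * Real.log n) / 2 + C * n → W) ∧
       ((d : ℝ) ≤ (Real.log 2 * (n : ℝ) ^ 2 - (n : ℝ) * Real.log n) / 2 - C * n → ¬ W))) := by
  rintro ⟨C, hC⟩
  obtain ⟨j, hj2, hj⟩ := key_ineq C
  have hn : 2 ≤ 4 * 16 ^ j := by
    have : 0 < 16 ^ j := by positivity
    omega
  set n := 4 * 16 ^ j with hndef
  set c := 16 ^ j + j with hcdef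
  obtain ⟨-, h2⟩ := hC n hn (15 * c + n * c) _ Iff.rfl
  refine h2 hj ?_
  have hbig : n * 2 ^ n < 8 * (c + 15 * c).choose (15 * c) := by
    have e1 : (c + 15 * c).choose (15 * c) = (16 * c).choose c := by
      rw [show c + 15 * c = 16 * c by ring]
      rw [← Nat.choose_symm_of_eq_add (show 16 * c = 15 * c + c by ring)]
    rw [e1]
    have e2 := Num.pow_le_choose_mul 16 c
    have e3 : (16 : ℕ) ^ c = 2 ^ n * 16 ^ j := by
      rw [hcdef, hndef, pow_add, pow_mul]
      norm_num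
    rw [e3] at e2
    have e4 : n * 2 ^ n < 8 * (2 ^ n * 16 ^ j) := by
      have h2n : 0 < 2 ^ n := by positivity
      have h16 : 0 < 16 ^ j := by positivity
      have : n < 8 * 16 ^ j := by omega
      calc n * 2 ^ n < (8 * 16 ^ j) * 2 ^ n := Nat.mul_lt_mul_of_pos_right this h2n
        _ = 8 * (2 ^ n * 16 ^ j) := by ring
    omega
  have hc : 0 < c := by
    have : 0 < 16 ^ j := by positivity
    omega
  obtain ⟨σ, hσ⟩ := Comb.comb_win (d := 15 * c + n * c) rfl (show 0 < 15 * c by omega)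
    (show 0 < n by omega) hbig
  refine ⟨σ, fun τ => ?_⟩
  obtain ⟨k, w, ⟨j0, hj0⟩, hw⟩ := hσ τ
  have : NeZero n := ⟨by omega⟩
  refine ⟨k, fun i => (w i).getD 0, fun i => if w i = none then 1 else 0, ⟨j0, by simp [hj0]⟩,
    fun t => ?_⟩
  have hpt : (fun i => if (if w i = none then (1 : Fin 3) else 0) = 0 then (w i).getD 0 else
      if (if w i = none then (1 : Fin 3) else 0) = 1 then t else Fin.rev t) = Comb.pt w t := by
    funext i
    unfold Comb.pt
    cases hwi : w i with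
    | none => simp
    | some k => simp
  rw [hpt]
  exact hw t

end Pool.Agent.S06260
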