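import Pool.Statements.S06263
import Pool.Agent.Helper927.Cube.IND
import Pool.Agent.Helper927.Cube.FIN
import Pool.Agent.Helper927.Cube.N3
import Pool.Agent.Helper927.Cube.BAS
import Pool.Agent.Helper927.Cube.A1
import Pool.Agent.Helper927.Cube.A2
import Pool.Agent.Helper927.Cube.A3
import Pool.Agent.Helper927.Cube.A4
import Pool.Agent.Helper927.Cube.A5
import Pool.Agent.Helper927.Cube.A6
import Pool.Agent.Helper927.Cube.A8

set_option autoImplicit false
open Pool Pool.MP_83e673_co

namespace Pool.Agent.S06263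

/-- There is f : ℕ → ℕ such that, for every positive m, some Cayley graph of (Z/2)^d has chromatic number m exactly when 2^n − f(n) ≤ m ≤ 2^n for some n. -/
theorem result :
    ∃ f : ℕ → ℕ, ∀ m : ℕ, 0 < m →
      ((∃ d : ℕ, ∃ S : Set (Fin d → ZMod 2),
          (SimpleGraph.fromRel (fun x y : Fin d → ZMod 2 => x + y ∈ S)).chromaticNumber
            = (m : ℕ∞)) ↔
        ∃ n : ℕ, 2 ^ n - f n ≤ m ∧ m ≤ 2 ^ n) := by
  have h1 := Pool.Agent.CubeLike.att_one
  have h2 := Pool.Agent.CubeLike.att_two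
  have h4 := Pool.Agent.CubeLike.att_double 2 h2
  have h7 := Pool.Agent.CubeLike.att_seven_of h2
  have h6 := Pool.Agent.CubeLike.att_six_of h1
  have h12 := Pool.Agent.CubeLike.att_double 6 h6
  have h10 := Pool.Agent.CubeLike.att_ten_of h1
  have h19 := Pool.Agent.CubeLike.att_nineteen_of h2
  have h11 := Pool.Agent.CubeLike.att_eleven_of h1
  have h13 := Pool.Agent.CubeLike.att_thirteen_of h2
  have h18 := Pool.Agent.CubeLike.att_eighteen_of h1
  have h35 := Pool.Agent.CubeLike.att_thirtyfive_of h1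
  have h45 := Pool.Agent.CubeLike.att_45_of h12
  have h67 := Pool.Agent.CubeLike.att_67_of h18
  have h25 := Pool.Agent.CubeLike.att_25_of h7
  exact Pool.Agent.CubeLike.final_of
    (fun K hK m hm hm' => Pool.Agent.CubeLike.att_all_of h1 h2 Pool.Agent.CubeLike.att_double
      Pool.Agent.CubeLike.f1 Pool.Agent.CubeLike.f2 Pool.Agent.CubeLike.f3
      Pool.Agent.CubeLike.f4 Pool.Agent.CubeLike.f5 Pool.Agent.CubeLike.f6
      h6 h7 h10 h11 h13 h18 h19 h25 h35 h45 h67 K hK m hm hm')
    h1 h2 h4 Pool.Agent.CubeLike.not_att_three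

end Pool.Agent.S06263
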