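import Pool.Statements.S06267

set_option autoImplicit false
open Pool Pool.MP_84111f_co

namespace Pool.Agent.S06267

namespace PMD

/-- abstract affine structure with directions -/
structure AffS (A D : Type) where
  dir : A → A → D
  LD : D → D → Set D
  symm : ∀ a b, dir a b = dir b a
  ex : ∀ a h, ∃ b, b ≠ a ∧ dir a b = h
  tr3 : ∀ a b c, a ≠ b → a ≠ c → b ≠ c → dir a b = dir a c → dir b c = dir a b
  tri : ∀ a b c, a ≠ b → a ≠ c → dir a b ≠ dir a c → dir b c ∈ LD (dir a b) (dir a c)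
  comp : ∀ a b h1 h2, a ≠ b → h1 ≠ h2 → dir a b ∈ LD h1 h2 → h1 ≠ dir a b → h2 ≠ dir a b →
    ∃ c, c ≠ a ∧ c ≠ b ∧ dir a c = h1 ∧ dir b c = h2
  LDl : ∀ a b, a ∈ LD a b
  LDr : ∀ a b, b ∈ LD a b
  LDeq : ∀ a b c d, a ≠ b → c ≠ d → c ∈ LD a b → d ∈ LD a b → LD c d = LD a b
  exoff : ∀ h1 h2, h1 ≠ h2 → ∃ h3, h3 ∉ LD h1 h2
  two : ∀ h : D, ∃ h', h' ≠ h

namespace AffS

variable {A D : Type} (S : AffS A D)

/-- `x` is off the line `ab` -/
def Off (a b x : A) : Prop := x ≠ a ∧ S.dir a x ≠ S.dir a b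

/-- `y` is the image of `x` under the dilatation with `a ↦ a'`, `b ↦ b'` -/
def Rl (a b a' b' x y : A) : Prop :=
  y ≠ a' ∧ y ≠ b' ∧ S.dir a' y = S.dir a x ∧ S.dir b' y = S.dir b x

variable {S}

lemma uniq {a b c c' : A} (hca : c ≠ a) (hcb : c ≠ b) (hca' : c' ≠ a) (hcb' : c' ≠ b)
    (h : S.dir a c ≠ S.dir b c) (h1 : S.dir a c' = S.dir a c) (h2 : S.dir b c' = S.dir b c) :
    c' = c := by
  by_contra hne
  have e1 := S.tr3 a c' c hca'.symm hca.symm hne h1
  have e2 := S.tr3 b c' c hcb'.symm hcb.symm hne h2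
  apply h
  rw [← h1, ← h2, ← e1, ← e2]

lemma Off.ne_b {a b x : A} (h : S.Off a b x) : x ≠ b := by
  rintro rfl; exact h.2 rfl

lemma Off.dir_b {a b x : A} (hab : a ≠ b) (h : S.Off a b x) : S.dir b x ≠ S.dir a b := by
  intro h1
  apply h.2
  have := S.tr3 b a x hab.symm h.ne_b.symm h.1.symm (by rw [h1, S.symm])
  rw [this, S.symm]

lemma Off.ne_dir {a b x : A} (hab : a ≠ b) (h : S.Off a b x) : S.dir a x ≠ S.dir b x := by
  intro h1
  apply h.2
  have := S.tr3 x a b h.1 h.ne_b hab (by rw [S.symm x a, S.symm x b, h1])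
  rw [this, S.symm]

lemma Off.mem {a b x : A} (hab : a ≠ b) (h : S.Off a b x) :
    S.dir a b ∈ S.LD (S.dir a x) (S.dir b x) := by
  have := S.tri x a b h.1 h.ne_b (by rw [S.symm x a, S.symm x b]; exact h.ne_dir hab)
  rwa [S.symm x a, S.symm x b] at this

lemma Off.swap {a b x : A} (hab : a ≠ b) (h : S.Off a b x) : S.Off b a x :=
  ⟨h.ne_b, by rw [S.symm b a]; exact h.dir_b hab⟩

lemma Rl.swap {a b a' b' x y : A} (h : S.Rl a b a' b' x y) : S.Rl b a b' a' x y :=
  ⟨h.2.1, h.1, h.2.2.2, h.2.2.1⟩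

lemma exists_img {a b a' b' x : A} (hab : a ≠ b) (hab' : a' ≠ b')
    (hd : S.dir a b = S.dir a' b') (hx : S.Off a b x) : ∃ y, S.Rl a b a' b' x y := by
  obtain ⟨c, h1, h2, h3, h4⟩ := S.comp a' b' (S.dir a x) (S.dir b x) hab' (hx.ne_dir hab)
    (by rw [← hd]; exact hx.mem hab) (by rw [← hd]; exact hx.2) (by rw [← hd]; exact hx.dir_b hab)
  exact ⟨c, h1, h2, h3, h4⟩

lemma img_uniq {a b a' b' x y y' : A} (hab : a ≠ b) (hx : S.Off a b x)
    (h : S.Rl a b a' b' x y) (h' : S.Rl a b a' b' x y') : y' = y := by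
  apply uniq h.1 h.2.1 h'.1 h'.2.1
  · rw [h.2.2.1, h.2.2.2]; exact hx.ne_dir hab
  · rw [h.2.2.1, h'.2.2.1]
  · rw [h.2.2.2, h'.2.2.2]

/-- the non coplanar case -/
lemma key {a b a' b' x y x' y' : A} (hab : a ≠ b) (hx : S.Off a b x)
    (hy : S.Off a b y) (hx' : S.Rl a b a' b' x x')
    (hy' : S.Rl a b a' b' y y') (hn : S.dir a y ∉ S.LD (S.dir a b) (S.dir a x)) :
    x' ≠ y' ∧ S.dir x' y' = S.dir x y := by
  have hxm := hx.mem hab
  have hym := hy.mem hab
  have hh : S.dir a x ≠ S.dir a y := by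
    intro h; apply hn; rw [← h]; exact S.LDr _ _
  have hgh : S.dir a b ≠ S.dir a x := hx.2.symm
  have hl1 : S.LD (S.dir a b) (S.dir a x) = S.LD (S.dir a x) (S.dir b x) :=
    S.LDeq _ _ _ _ (hx.ne_dir hab) hgh hxm (S.LDl _ _)
  have hk : S.dir b x ≠ S.dir b y := by
    intro h
    apply hn
    rw [hl1]
    have e1 : S.LD (S.dir a b) (S.dir b x) = S.LD (S.dir a x) (S.dir b x) :=
      S.LDeq _ _ _ _ (hx.ne_dir hab) (hx.dir_b hab).symm hxm (S.LDr _ _)
    have e2 : S.LD (S.dir a b) (S.dir b y) = S.LD (S.dir a y) (S.dir b y) :=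
      S.LDeq _ _ _ _ (hy.ne_dir hab) (hy.dir_b hab).symm hym (S.LDr _ _)
    rw [← e1, h, e2]
    exact S.LDl _ _
  have m1 := S.tri a x y hx.1.symm hy.1.symm hh
  have m2 := S.tri b x y hx.ne_b.symm hy.ne_b.symm hk
  have hne : x' ≠ y' := by
    rintro rfl
    apply hh
    rw [← hx'.2.2.1, hy'.2.2.1]
  have m3 := S.tri a' x' y' hx'.1.symm hy'.1.symm (by rw [hx'.2.2.1, hy'.2.2.1]; exact hh)
  have m4 := S.tri b' x' y' hx'.2.1.symm hy'.2.1.symm (by rw [hx'.2.2.2, hy'.2.2.2]; exact hk)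
  rw [hx'.2.2.1, hy'.2.2.1] at m3
  rw [hx'.2.2.2, hy'.2.2.2] at m4
  refine ⟨hne, ?_⟩
  by_contra hd
  have l1 : S.LD (S.dir x' y') (S.dir x y) = S.LD (S.dir a x) (S.dir a y) :=
    S.LDeq _ _ _ _ hh hd m3 m1
  have l2 : S.LD (S.dir x' y') (S.dir x y) = S.LD (S.dir b x) (S.dir b y) :=
    S.LDeq _ _ _ _ hk hd m4 m2
  have l3 : S.LD (S.dir a x) (S.dir a y) = S.LD (S.dir b x) (S.dir b y) := by rw [← l1, l2]
  have l4 : S.LD (S.dir a x) (S.dir b x) = S.LD (S.dir a x) (S.dir a y) :=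
    S.LDeq _ _ _ _ hh (hx.ne_dir hab) (S.LDl _ _) (by rw [l3]; exact S.LDl _ _)
  apply hn
  rw [hl1, l4]
  exact S.LDr _ _

lemma img_aux {a b a' b' x y x' y' : A} (hab : a ≠ b) (hab' : a' ≠ b')
    (hd : S.dir a b = S.dir a' b') (hx : S.Off a b x)
    (hy : S.Off a b y) (hx' : S.Rl a b a' b' x x')
    (hy' : S.Rl a b a' b' y y') (hh : S.dir a x ≠ S.dir a y) :
    x' ≠ y' ∧ S.dir x' y' = S.dir x y := by
  by_cases hn : S.dir a y ∈ S.LD (S.dir a b) (S.dir a x)
  swap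
  · exact key hab hx hy hx' hy' hn
  obtain ⟨h3, hh3⟩ := S.exoff (S.dir a b) (S.dir a x) hx.2.symm
  obtain ⟨z, hza, hz3⟩ := S.ex a h3
  have hzo : S.Off a b z := ⟨hza, by
    rw [hz3]; rintro rfl; exact hh3 (S.LDl _ _)⟩
  obtain ⟨z', hz'⟩ := exists_img hab hab' hd hzo
  have hxz := key hab hx hzo hx' hz' (by rw [hz3]; exact hh3)
  have hyl : S.LD (S.dir a b) (S.dir a y) = S.LD (S.dir a b) (S.dir a x) :=
    S.LDeq _ _ _ _ hx.2.symm hy.2.symm (S.LDl _ _) hn
  have hyz := key hab hy hzo hy' hz' (by rw [hz3, hyl]; exact hh3)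
  have hx3 : S.dir a x ≠ S.dir a z := by
    rw [hz3]; rintro rfl; exact hh3 (S.LDr _ _)
  have hy3 : S.dir a y ≠ S.dir a z := by
    rw [hz3]; rintro rfl; exact hh3 hn
  have ox : S.Off a z x := ⟨hx.1, hx3⟩
  have oy : S.Off a z y := ⟨hy.1, hy3⟩
  have rx : S.Rl a z a' z' x x' := ⟨hx'.1, hxz.1, hx'.2.2.1, by rw [S.symm, hxz.2, S.symm]⟩
  have ry : S.Rl a z a' z' y y' := ⟨hy'.1, hyz.1, hy'.2.2.1, by rw [S.symm, hyz.2, S.symm]⟩
  apply key hza.symm ox oy rx ry
  intro hm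
  apply hh3
  have e1 : S.LD (S.dir a x) (S.dir a y) = S.LD (S.dir a z) (S.dir a x) :=
    S.LDeq _ _ _ _ hx3.symm hh (S.LDr _ _) hm
  have e2 : S.LD (S.dir a x) (S.dir a y) = S.LD (S.dir a b) (S.dir a x) :=
    S.LDeq _ _ _ _ hx.2.symm hh (S.LDr _ _) hn
  rw [← e2, e1, ← hz3]
  exact S.LDl _ _

lemma img_dir {a b a' b' x y x' y' : A} (hab : a ≠ b) (hab' : a' ≠ b')
    (hd : S.dir a b = S.dir a' b') (hx : S.Off a b x)
    (hy : S.Off a b y) (hxy : x ≠ y) (hx' : S.Rl a b a' b' x x')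
    (hy' : S.Rl a b a' b' y y') :
    x' ≠ y' ∧ S.dir x' y' = S.dir x y := by
  by_cases hh : S.dir a x = S.dir a y
  swap
  · exact img_aux hab hab' hd hx hy hx' hy' hh
  apply img_aux hab.symm hab'.symm (by rw [S.symm, hd, S.symm]) (hx.swap hab) (hy.swap hab)
    hx'.swap hy'.swap
  intro hk
  apply hxy
  exact uniq hy.1 hy.ne_b hx.1 hx.ne_b (hy.ne_dir hab) hh hk

/-- dilatations -/
def Dil (S : AffS A D) (f : A → A) : Prop := ∀ a b, a ≠ b → f a ≠ f b ∧ S.dir (f a) (f b) = S.dir a b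

lemma exists_off (a b : A) : ∃ z, S.Off a b z := by
  obtain ⟨h, hh⟩ := S.two (S.dir a b)
  obtain ⟨z, hz, hz2⟩ := S.ex a h
  exact ⟨z, hz, by rw [hz2]; exact hh⟩

theorem exists_dil {a b a' b' : A} (hab : a ≠ b) (hab' : a' ≠ b')
    (hd : S.dir a b = S.dir a' b') : ∃ f : A → A, Dil S f ∧ f a = a' ∧ f b = b' := by
  classical
  obtain ⟨z, hz⟩ := exists_off (S := S) a b
  obtain ⟨z', hz'⟩ := exists_img hab hab' hd hz
  have hza : a ≠ z := hz.1.symm
  have hza' : a' ≠ z' := hz'.1.symm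
  have hdz : S.dir a z = S.dir a' z' := hz'.2.2.1.symm
  have hch : ∀ x, ∃ y, (x = a → y = a') ∧ (S.Off a b x → S.Rl a b a' b' x y) ∧
      ((x ≠ a ∧ S.dir a x = S.dir a b) → S.Rl a z a' z' x y) := by
    intro x
    by_cases hxa : x = a
    · exact ⟨a', fun _ => rfl, fun h => absurd hxa h.1, fun h => absurd hxa h.1⟩
    by_cases hxo : S.dir a x = S.dir a b
    · have ho : S.Off a z x := ⟨hxa, by rw [hxo]; exact hz.2.symm⟩
      obtain ⟨y, hy⟩ := exists_img hza hza' hdz ho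
      exact ⟨y, fun h => absurd h hxa, fun h => absurd hxo h.2, fun _ => hy⟩
    · have ho : S.Off a b x := ⟨hxa, hxo⟩
      obtain ⟨y, hy⟩ := exists_img hab hab' hd ho
      exact ⟨y, fun h => absurd h hxa, fun _ => hy, fun h => absurd h.2 hxo⟩
  choose f hfa hfo hfn using hch
  have fa : f a = a' := hfa a rfl
  have hA : ∀ x, x ≠ a → f x ≠ a' ∧ S.dir a' (f x) = S.dir a x := by
    intro x hxa
    by_cases hxo : S.dir a x = S.dir a b
    · have := hfn x ⟨hxa, hxo⟩; exact ⟨this.1, this.2.2.1⟩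
    · have := hfo x ⟨hxa, hxo⟩; exact ⟨this.1, this.2.2.1⟩
  have fz : f z = z' := img_uniq hab hz hz' (hfo z hz)
  have hOO : ∀ x y, S.Off a b x → S.Off a b y → x ≠ y →
      f x ≠ f y ∧ S.dir (f x) (f y) = S.dir x y := fun x y hx hy hxy =>
    img_dir hab hab' hd hx hy hxy (hfo x hx) (hfo y hy)
  have hNO1 : ∀ x y, (x ≠ a ∧ S.dir a x = S.dir a b) → S.Off a b y → S.dir a y ≠ S.dir a z →
      f x ≠ f y ∧ S.dir (f x) (f y) = S.dir x y := by
    intro x y hx hy hyz
    have hxy : x ≠ y := by rintro rfl; exact hy.2 hx.2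
    have hyz' : y ≠ z := by rintro rfl; exact hyz rfl
    have ox : S.Off a z x := ⟨hx.1, by rw [hx.2]; exact hz.2.symm⟩
    have oy : S.Off a z y := ⟨hy.1, hyz⟩
    have hzy := hOO z y hz hy hyz'.symm
    rw [fz] at hzy
    have ry : S.Rl a z a' z' y (f y) := ⟨(hA y hy.1).1, hzy.1.symm, (hA y hy.1).2, hzy.2⟩
    exact img_dir hza hza' hdz ox oy hxy (hfn x hx) ry
  have hNO : ∀ x y, (x ≠ a ∧ S.dir a x = S.dir a b) → S.Off a b y →
      f x ≠ f y ∧ S.dir (f x) (f y) = S.dir x y := by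
    intro x y hx hy
    by_cases hyz : S.dir a y = S.dir a z
    swap
    · exact hNO1 x y hx hy hyz
    by_cases hyz' : y = z
    · subst hyz'
      rw [fz]
      have := hfn x hx
      exact ⟨this.2.1, by rw [S.symm, this.2.2.2, S.symm]⟩
    obtain ⟨h3, hh3⟩ := S.exoff (S.dir a b) (S.dir a z) hz.2.symm
    obtain ⟨w, hwa, hw3⟩ := S.ex a h3
    have ow : S.Off a b w := ⟨hwa, by rw [hw3]; rintro rfl; exact hh3 (S.LDl _ _)⟩
    have hwz : S.dir a w ≠ S.dir a z := by rw [hw3]; rintro rfl; exact hh3 (S.LDr _ _)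
    have hxw := hNO1 x w hx ow hwz
    have hwy : w ≠ y := by rintro rfl; exact hwz hyz
    have hwy' := hOO w y ow hy hwy
    have hxy : x ≠ y := by rintro rfl; exact hy.2 hx.2
    have ox : S.Off a w x := ⟨hx.1, by rw [hx.2]; exact ow.2.symm⟩
    have oy : S.Off a w y := ⟨hy.1, by rw [hyz]; exact hwz.symm⟩
    have rx : S.Rl a w a' (f w) x (f x) :=
      ⟨(hA x hx.1).1, hxw.1, (hA x hx.1).2, by rw [S.symm, hxw.2, S.symm]⟩
    have ry : S.Rl a w a' (f w) y (f y) :=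
      ⟨(hA y hy.1).1, hwy'.1.symm, (hA y hy.1).2, hwy'.2⟩
    exact img_dir hwa.symm (hA w hwa).1.symm (hA w hwa).2.symm ox oy hxy rx ry
  have hNN : ∀ x y, (x ≠ a ∧ S.dir a x = S.dir a b) → (y ≠ a ∧ S.dir a y = S.dir a b) → x ≠ y →
      f x ≠ f y ∧ S.dir (f x) (f y) = S.dir x y := by
    intro x y hx hy hxy
    have e1 : S.dir x y = S.dir a b := by
      rw [S.tr3 a x y hx.1.symm hy.1.symm hxy (by rw [hx.2, hy.2]), hx.2]
    have rx := hfn x hx
    have ry := hfn y hy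
    have ox : S.Off a z x := ⟨hx.1, by rw [hx.2]; exact hz.2.symm⟩
    have oy : S.Off a z y := ⟨hy.1, by rw [hy.2]; exact hz.2.symm⟩
    have hne : f x ≠ f y := by
      intro h
      have e2 : S.dir z x = S.dir z y := by rw [← rx.2.2.2, ← ry.2.2.2, h]
      have e3 := S.tr3 z x y ox.ne_b.symm oy.ne_b.symm hxy e2
      have := ox.dir_b hza
      have e4 := S.tr3 x a y hx.1 hxy hy.1.symm (by rw [S.symm, hx.2, e1])
      apply ox.ne_dir hza
      rw [← e3, e1, hx.2]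
    refine ⟨hne, ?_⟩
    rw [S.tr3 a' (f x) (f y) rx.1.symm ry.1.symm hne (by rw [rx.2.2.1, ry.2.2.1, hx.2, hy.2]),
      rx.2.2.1, hx.2, e1]
  refine ⟨f, ?_, fa, ?_⟩
  · intro x y hxy
    by_cases hxa : x = a
    · subst hxa
      rw [fa]
      have := hA y hxy.symm
      exact ⟨this.1.symm, this.2⟩
    by_cases hya : y = a
    · subst hya
      rw [fa]
      have := hA x hxy
      exact ⟨this.1, by rw [S.symm, this.2, S.symm]⟩
    by_cases hxo : S.dir a x = S.dir a b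
    · by_cases hyo : S.dir a y = S.dir a b
      · exact hNN x y ⟨hxa, hxo⟩ ⟨hya, hyo⟩ hxy
      · exact hNO x y ⟨hxa, hxo⟩ ⟨hya, hyo⟩
    · by_cases hyo : S.dir a y = S.dir a b
      · have := hNO y x ⟨hya, hyo⟩ ⟨hxa, hxo⟩
        exact ⟨this.1.symm, by rw [S.symm, this.2, S.symm]⟩
      · exact hOO x y ⟨hxa, hxo⟩ ⟨hya, hyo⟩ hxy
  · have hb : b ≠ a ∧ S.dir a b = S.dir a b := ⟨hab.symm, rfl⟩
    have ob : S.Off a z b := ⟨hab.symm, hz.2.symm⟩
    have rb : S.Rl a z a' z' b b' := ⟨hab'.symm, hz'.2.1.symm, hd.symm, by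
      rw [S.symm, hz'.2.2.2, S.symm]⟩
    exact img_uniq hza ob rb (hfn b hb)

end AffS

end PMD

namespace PMD
namespace AffS

variable {A D : Type} {S : AffS A D}

lemma Dil.inj {f : A → A} (hf : Dil S f) : Function.Injective f := by
  intro x y h; by_contra hne; exact (hf x y hne).1 h

lemma Dil.comp' {f g : A → A} (hf : Dil S f) (hg : Dil S g) : Dil S (fun x => f (g x)) := by
  intro a b hab
  have h1 := hg a b hab
  have h2 := hf _ _ h1.1
  exact ⟨h2.1, by rw [← h1.2]; exact h2.2⟩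

lemma dil_id : Dil S (fun x => x) := fun _ _ hab => ⟨hab, rfl⟩

lemma Dil.eq_off {f g : A → A} (hf : Dil S f) (hg : Dil S g) {a b x : A} (hab : a ≠ b)
    (ha : f a = g a) (hb : f b = g b) (hx : S.Off a b x) : f x = g x := by
  have h1 := hf a x hx.1.symm
  have h2 := hf b x hx.ne_b.symm
  have h3 := hg a x hx.1.symm
  have h4 := hg b x hx.ne_b.symm
  rw [← ha] at h3
  rw [← hb] at h4
  apply uniq (a := f a) (b := f b) (c := g x) (c' := f x) h3.1.symm h4.1.symm h1.1.symm h2.1.symm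
  · rw [h3.2, h4.2]; exact hx.ne_dir hab
  · rw [h1.2, h3.2]
  · rw [h2.2, h4.2]

lemma Dil.eq {f g : A → A} (hf : Dil S f) (hg : Dil S g) {a b : A} (hab : a ≠ b)
    (ha : f a = g a) (hb : f b = g b) (x : A) : f x = g x := by
  by_cases hxa : x = a
  · rw [hxa, ha]
  by_cases hxo : S.dir a x = S.dir a b
  · obtain ⟨z, hz⟩ := exists_off (S := S) a b
    have hz' := hf.eq_off hg hab ha hb hz
    exact hf.eq_off hg hz.1.symm ha hz' ⟨hxa, by rw [hxo]; exact hz.2.symm⟩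
  · exact hf.eq_off hg hab ha hb ⟨hxa, hxo⟩

/-- translations -/
def Tr (S : AffS A D) (f : A → A) : Prop := Dil S f ∧ ((∀ x, f x = x) ∨ (∀ x, f x ≠ x))

lemma dir_case {f : A → A} (hf : Dil S f) (hn : ∀ x, f x ≠ x) {x y : A} (hxy : x ≠ y)
    (h : S.dir x (f x) = S.dir x y) : S.dir y (f y) = S.dir x y := by
  have h1 := hf x y hxy
  by_cases hfy : f x = y
  · rw [← h1.2, hfy]
  · have h2 := S.tr3 x (f x) y (hn x).symm hxy hfy h
    have h3 := S.tr3 (f x) y (f y) hfy h1.1 (hn y).symm (by rw [h2, h1.2, h])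
    rw [h3, h2, h]

lemma dir_const {f : A → A} (hf : Dil S f) (hn : ∀ x, f x ≠ x) (x y : A) :
    S.dir x (f x) = S.dir y (f y) := by
  by_cases hxy : x = y
  · rw [hxy]
  by_cases h0 : S.dir x (f x) = S.dir x y
  · rw [dir_case hf hn hxy h0, h0]
  by_cases h0' : S.dir y (f y) = S.dir y x
  · rw [dir_case hf hn (Ne.symm hxy) h0', h0']
  by_contra hne
  have hfxy : f x ≠ y := by rintro rfl; exact h0 rfl
  have hfyx : f y ≠ x := by intro h; apply h0'; rw [h]
  have hd := hf x y hxy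
  have g1 : S.dir (f x) x ≠ S.dir (f x) y := by
    intro h
    have := S.tr3 (f x) x y (hn x) hfxy hxy h
    apply h0; rw [this, S.symm]
  have m1 := S.tri (f x) x y (hn x) hfxy g1
  have g2 : S.dir x y ≠ S.dir (f x) y := by
    intro h
    have := S.tr3 y x (f x) (Ne.symm hxy) hfxy.symm (hn x).symm (by rw [S.symm y x, h, S.symm])
    apply h0
    rw [this, S.symm]
  have g3 : S.dir y (f x) ≠ S.dir y (f y) := by
    intro h
    have := S.tr3 y (f x) (f y) hfxy.symm (hn y).symm hd.1 h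
    apply g2
    rw [← hd.2, this, S.symm]
  have m2 := S.tri y (f x) (f y) hfxy.symm (hn y).symm g3
  rw [hd.2] at m2
  rw [S.symm (f x) x] at m1 g1
  rw [S.symm y (f x)] at m2 g3
  have l1 := S.LDeq _ _ (S.dir x y) (S.dir (f x) y) g1 g2 m1 (S.LDr _ _)
  have l2 := S.LDeq _ _ (S.dir x y) (S.dir (f x) y) g3 g2 m2 (S.LDl _ _)
  have l3 := S.LDeq _ _ (S.dir x (f x)) (S.dir y (f y)) g1 hne (S.LDl _ _) (by
    rw [← l1, l2]; exact S.LDr _ _)
  have m3 : S.dir x y ∈ S.LD (S.dir x (f x)) (S.dir y (f y)) := by rw [l3]; exact m1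
  obtain ⟨c, hcx, hcy, hc1, hc2⟩ := S.comp x y _ _ hxy hne m3 h0 (by rw [S.symm x y]; exact h0')
  have e1 := dir_case hf hn hcx.symm (by rw [hc1])
  have e2 := dir_case hf hn hcy.symm (by rw [hc2])
  apply hne
  rw [← hc1, ← e1, e2, hc2]

lemma exists_tr (a b : A) : ∃ f : A → A, Tr S f ∧ f a = b := by
  by_cases hab : a = b
  · exact ⟨fun x => x, ⟨dil_id, Or.inl fun _ => rfl⟩, hab⟩
  obtain ⟨c, hc⟩ := exists_off (S := S) a b
  have hbc : b ≠ c := hc.ne_b.symm
  have hm : S.dir b c ∈ S.LD (S.dir a c) (S.dir a b) :=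
    S.tri a c b hc.1.symm hab hc.2 |> fun h => by rwa [S.symm c b] at h
  obtain ⟨d, hdb, hdc, hd1, hd2⟩ := S.comp b c _ _ hbc hc.2 hm
    (by rw [← S.symm c b]
        intro h
        have := hc.ne_dir hab
        apply this; rw [h, S.symm])
    (hc.dir_b hab).symm
  obtain ⟨f, hf, fa, fc⟩ := exists_dil (S := S) hc.1.symm hdb.symm hd1.symm
  refine ⟨f, ⟨hf, Or.inr ?_⟩, fa⟩
  intro p hp
  have hpa : p ≠ a := by rintro rfl; exact hab (by rw [← fa, hp])
  have hpc : p ≠ c := by rintro rfl; exact hdc (by rw [← fc, hp])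
  have hpb : p ≠ b := by
    rintro rfl; exact (hf p a hpa).1 (by rw [fa, hp])
  have hpd : p ≠ d := by
    rintro rfl; exact (hf p c hpc).1 (by rw [fc, hp])
  have e1 := (hf p a hpa).2
  have e2 := (hf p c hpc).2
  rw [hp, fa] at e1
  rw [hp, fc] at e2
  have e3 := S.tr3 p a b hpa hpb hab e1.symm
  have e4 := S.tr3 p c d hpc hpd hdc.symm e2.symm
  have e5 := S.tr3 p a c hpa hpc hc.1.symm (by rw [← e3, ← e4, hd2])
  apply hc.2
  rw [e5, e3]

lemma Tr.eq {f g : A → A} (hf : Tr S f) (hg : Tr S g) {a : A} (ha : f a = g a) (x : A) :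
    f x = g x := by
  rcases hf with ⟨hf, hf' | hf'⟩
  · rcases hg with ⟨hg, hg' | hg'⟩
    · rw [hf', hg']
    · exact absurd (by rw [← ha, hf']) (hg' a)
  rcases hg with ⟨hg, hg' | hg'⟩
  · exact absurd (by rw [ha, hg']) (hf' a)
  have hab : a ≠ f a := (hf' a).symm
  obtain ⟨y, hy⟩ := exists_off (S := S) a (f a)
  have hfy := hf a y hy.1.symm
  have hgy := hg a y hy.1.symm
  have k1 := dir_const hf hf' y a
  have k2 := dir_const hg hg' y a
  rw [← ha] at k2 hgy
  have : f y = g y := by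
    apply uniq (a := y) (b := f a) (c := g y) (c' := f y) (hg' y) hgy.1.symm (hf' y) hfy.1.symm
    · rw [k2, hgy.2]; exact hy.2.symm
    · rw [k1, k2]
    · rw [hfy.2, hgy.2]
  exact hf.eq hg hy.1.symm ha this x

lemma Dil.exists_inv [Finite A] {f : A → A} (hf : Dil S f) :
    ∃ g : A → A, Dil S g ∧ (∀ x, g (f x) = x) ∧ (∀ x, f (g x) = x) := by
  have hs : Function.Surjective f := Finite.surjective_of_injective hf.inj
  choose g hg using hs
  have hg' : ∀ x, g (f x) = x := fun x => hf.inj (hg (f x))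
  refine ⟨g, ?_, hg', hg⟩
  intro a b hab
  have h1 : g a ≠ g b := by
    intro h; apply hab; rw [← hg a, h, hg]
  have := hf _ _ h1
  rw [hg, hg] at this
  exact ⟨h1, this.2.symm⟩

lemma Tr.exists_inv [Finite A] {f : A → A} (hf : Tr S f) :
    ∃ g : A → A, Tr S g ∧ (∀ x, g (f x) = x) ∧ (∀ x, f (g x) = x) := by
  obtain ⟨g, hg, h1, h2⟩ := hf.1.exists_inv
  refine ⟨g, ⟨hg, ?_⟩, h1, h2⟩
  rcases hf.2 with h | h
  · left; intro x; rw [← h (g x), h2]
  · right
    intro x hx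
    apply h (g x)
    rw [h2, hx]

lemma Tr.comp [Finite A] {f g : A → A} (hf : Tr S f) (hg : Tr S g) : Tr S (fun x => f (g x)) := by
  refine ⟨hf.1.comp' hg.1, ?_⟩
  by_cases h : ∀ x, f (g x) ≠ x
  · right; exact h
  left
  push Not at h
  obtain ⟨x, hx⟩ := h
  obtain ⟨g', hg', h1, h2⟩ := hg.exists_inv
  have := hf.eq hg' (a := g x) (by rw [hx, h1])
  intro y
  simp only
  rw [this, h1]

lemma comm_aux {f g : A → A} (hf : Dil S f) (hf' : ∀ x, f x ≠ x) (hg : Dil S g)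
    (hg' : ∀ x, g x ≠ x) (o : A) (h : S.dir o (f o) ≠ S.dir o (g o)) : f (g o) = g (f o) := by
  have a1 := hf o (g o) (hg' o).symm
  have a2 := hg o (f o) (hf' o).symm
  have a3 := dir_const hf hf' (g o) o
  have a4 := dir_const hg hg' (f o) o
  apply uniq (a := f o) (b := g o) (c := g (f o)) (c' := f (g o)) (hg' _) a2.1.symm a1.1.symm (hf' _)
  · rw [a4, a2.2]; exact h.symm
  · rw [a1.2, a4]
  · rw [a3, a2.2]

lemma Tr.comm [Finite A] {f g : A → A} (hf : Tr S f) (hg : Tr S g) (o : A) : f (g o) = g (f o) := by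
  by_cases hfi : ∀ x, f x = x
  · rw [hfi, hfi]
  by_cases hgi : ∀ x, g x = x
  · rw [hgi, hgi]
  have hf' : ∀ x, f x ≠ x := hf.2.resolve_left hfi
  have hg' : ∀ x, g x ≠ x := hg.2.resolve_left hgi
  by_cases h : S.dir o (f o) = S.dir o (g o)
  swap
  · exact comm_aux hf.1 hf' hg.1 hg' o h
  obtain ⟨c, hc⟩ := exists_off (S := S) o (f o)
  obtain ⟨k, hk, hko⟩ := exists_tr (S := S) o c
  have hki : ¬ ∀ x, k x = x := by
    intro hki; apply hc.1; rw [← hko, hki]
  have hk' : ∀ x, k x ≠ x := hk.2.resolve_left hki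
  have hgk := hg.comp hk
  have c1 : ∀ x, f (k x) = k (f x) := by
    intro x
    apply comm_aux hf.1 hf' hk.1 hk'
    rw [dir_const hf.1 hf' x o, dir_const hk.1 hk' x o, hko]
    exact hc.2.symm
  have hgko : g (k o) ≠ o := by
    intro h1
    have h2 := dir_const hg.1 hg' (k o) o
    rw [h1, ← h, hko, S.symm] at h2
    exact hc.2 h2
  have hgki : ¬ ∀ x, g (k x) = x := fun h1 => hgko (h1 o)
  have hgk' : ∀ x, g (k x) ≠ x := hgk.2.resolve_left hgki
  have c2 : ∀ x, f (g (k x)) = g (k (f x)) := by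
    intro x
    apply comm_aux hf.1 hf' hgk.1 hgk'
    rw [dir_const hf.1 hf' x o, dir_const hgk.1 hgk' x o]
    intro h1
    have h2 := dir_const hg.1 hg' (k o) o
    rw [← h] at h2
    have h3 := S.tr3 (g (k o)) (k o) o (hg' _) hgko (hk' o)
      ((S.symm (g (k o)) (k o)).trans (h2.trans (h1.trans (S.symm _ _))))
    apply hc.2
    rw [← hko, S.symm, h3, S.symm, h2]
  obtain ⟨k', -, -, h2⟩ := hk.exists_inv
  have := c2 (k' o)
  rw [h2] at this
  rw [this, ← c1, h2]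

/-- the additive group of the affine structure -/
theorem exists_group [Finite A] (S : AffS A D) (o : A) : ∃ _ : AddCommGroup A,
    (∀ x y z : A, y ≠ z → S.dir (x + y) (x + z) = S.dir y z) ∧
    (∀ f : A → A, Dil S f → f 0 = 0 → ∀ x y, f (x + y) = f x + f y) := by
  classical
  choose t ht hto using fun b => exists_tr (S := S) o b
  have key : ∀ x y, t (t x y) = fun z => t x (t y z) := by
    intro x y
    funext z
    apply (ht (t x y)).eq ((ht x).comp (ht y)) (a := o)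
    rw [hto, hto]
  have hcomm : ∀ x y, t x y = t y x := by
    intro x y
    have := (ht x).comm (ht y) o
    rwa [hto, hto] at this
  have hzero : ∀ y, t o y = y := by
    intro y
    rw [hcomm, hto]
  have hsurj : ∀ x, ∃ y, t x y = o := fun x =>
    (Finite.surjective_of_injective (ht x).1.inj) o
  choose n hn using hsurj
  let i1 : Add A := ⟨fun x y => t x y⟩
  let i2 : Zero A := ⟨o⟩
  let i3 : Neg A := ⟨n⟩
  let G0 : AddGroup A := AddGroup.ofLeftAxioms
    (fun x y z => by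
        show t (t x y) z = t x (t y z)
        rw [key])
    (fun x => hzero x)
    (fun x => by
        show t (n x) x = o
        rw [hcomm, hn])
  let G : AddCommGroup A := { G0 with add_comm := fun x y => hcomm x y }
  refine ⟨G, ?_, ?_⟩
  · intro x y z hyz
    exact ((ht x).1 y z hyz).2
  · intro f hf hf0 x y
    have hf0' : f o = o := hf0
    obtain ⟨g, hg, h1, h2⟩ := hf.exists_inv
    show f (t x y) = t (f x) (f y)
    have hT : Tr S (fun z => f (t x (g z))) := by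
      refine ⟨hf.comp' ((ht x).1.comp' hg), ?_⟩
      rcases (ht x).2 with h | h
      · left; intro z; simp only; rw [h, h2]
      · right
        intro z hz
        apply h (g z)
        apply hf.inj
        rw [h2]; exact hz
    have hgo : g o = o := by
      have := h1 o
      rwa [hf0'] at this
    have := hT.eq (ht (f x)) (a := o) (by
      show f (t x (g o)) = t (f x) o
      rw [hgo, hto, hto]) (f y)
    rw [← this]
    show f (t x y) = f (t x (g (f y)))
    rw [h1]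

end AffS

end PMD

namespace PMD
namespace AffS

section grp

variable {A D : Type} [AddCommGroup A] {S : AffS A D}
  (hT : ∀ x y z : A, y ≠ z → S.dir (x + y) (x + z) = S.dir y z)
  (hH : ∀ f : A → A, Dil S f → f 0 = 0 → ∀ x y, f (x + y) = f x + f y)

include hT in
lemma dir_sub {a b : A} (hab : a ≠ b) : S.dir a b = S.dir 0 (b - a) := by
  have := hT a 0 (b - a) (by intro h; apply hab; rw [eq_comm, sub_eq_zero] at h; exact h.symm)
  rw [← this]
  congr 1 <;> abel

include hT in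
lemma del_neg {v : A} (hv : v ≠ 0) : S.dir 0 (-v) = S.dir 0 v := by
  have := hT v 0 (-v) (by simpa using hv)
  rw [← this]
  rw [add_zero, add_neg_cancel, S.symm]

include hT in
lemma del_add {v w : A} (hv : v ≠ 0) (hw : w ≠ 0) (hvw : v + w ≠ 0)
    (h : S.dir 0 v = S.dir 0 w) : S.dir 0 (v + w) = S.dir 0 v := by
  have hn : -v ≠ w := by
    intro h; apply hvw; rw [← h]; abel
  have h1 := S.tr3 0 (-v) w (by simpa using hv) hw.symm hn (by rw [del_neg hT hv, h])
  rw [dir_sub hT hn, del_neg hT hv] at h1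
  rw [← h1]
  congr 1; abel

include hT in
lemma del_add_mem {v w : A} (hv : v ≠ 0) (hw : w ≠ 0)
    (h : S.dir 0 v ≠ S.dir 0 w) : v + w ≠ 0 ∧ S.dir 0 (v + w) ∈ S.LD (S.dir 0 v) (S.dir 0 w) := by
  have hvw : v + w ≠ 0 := by
    intro h1
    apply h
    have : w = -v := by rw [eq_neg_iff_add_eq_zero, add_comm]; exact h1
    rw [this, del_neg hT hv]
  refine ⟨hvw, ?_⟩
  have hn : -v ≠ w := by
    intro h; apply hvw; rw [← h]; abel
  have h1 := S.tri 0 (-v) w (by simpa using hv) hw.symm (by rw [del_neg hT hv]; exact h)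
  rw [dir_sub hT hn, del_neg hT hv] at h1
  have e : w - -v = v + w := by abel
  rwa [e] at h1

/-- the ring of direction preserving endomorphisms -/
def kR (S : AffS A D) (hT : ∀ x y z : A, y ≠ z → S.dir (x + y) (x + z) = S.dir y z) :
    Subring (AddMonoid.End A) where
  carrier := {σ | ∀ v, v ≠ 0 → σ v ≠ 0 → S.dir 0 (σ v) = S.dir 0 v}
  mul_mem' := by
    intro σ τ hσ hτ v hv hv'
    have h1 : τ v ≠ 0 := by
      intro h; apply hv'; show σ (τ v) = 0; rw [h, map_zero]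
    show S.dir 0 (σ (τ v)) = _
    rw [hσ _ h1 hv', hτ v hv h1]
  one_mem' := fun v _ _ => rfl
  add_mem' := by
    intro σ τ hσ hτ v hv hv'
    show S.dir 0 (σ v + τ v) = _
    have hv'' : σ v + τ v ≠ 0 := hv'
    by_cases h1 : σ v = 0
    · rw [h1, zero_add] at hv'' ⊢
      exact hτ v hv hv''
    by_cases h2 : τ v = 0
    · rw [h2, add_zero]
      exact hσ v hv h1
    rw [del_add hT h1 h2 hv'' (by rw [hσ v hv h1, hτ v hv h2]), hσ v hv h1]
  zero_mem' := fun v _ h => absurd rfl h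
  neg_mem' := by
    intro σ hσ v hv hv'
    have hv'' : -(σ v) ≠ 0 := hv'
    show S.dir 0 (-(σ v)) = _
    have h1 : σ v ≠ 0 := by simpa using hv''
    rw [del_neg hT h1, hσ v hv h1]

include hT in
lemma inj_aux {σ : AddMonoid.End A} (hσ : ∀ v, v ≠ 0 → σ v ≠ 0 → S.dir 0 (σ v) = S.dir 0 v)
    {v w : A} (hv : v ≠ 0) (h0 : σ v = 0) (hd : S.dir 0 v ≠ S.dir 0 w) : σ w = 0 := by
  by_contra hw'
  have hw : w ≠ 0 := by rintro rfl; exact hw' (map_zero σ)
  have hvw : v + w ≠ 0 := (del_add_mem hT hv hw hd).1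
  have h1 : σ (v + w) = σ w := by rw [map_add, h0, zero_add]
  have h2 := hσ (v + w) hvw (by rw [h1]; exact hw')
  rw [h1, hσ w hw hw'] at h2
  apply hd
  have h3 := del_add hT hvw (neg_ne_zero.2 hw) (by simpa using hv) (by
    rw [del_neg hT hw, h2])
  rw [add_neg_cancel_right] at h3
  rw [h3, h2]

include hT in
lemma inj_of_kR {σ : AddMonoid.End A} (hσ : ∀ v, v ≠ 0 → σ v ≠ 0 → S.dir 0 (σ v) = S.dir 0 v)
    {v : A} (hv : v ≠ 0) (h0 : σ v = 0) : σ = 0 := by
  ext w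
  show σ w = 0
  by_cases hd : S.dir 0 v = S.dir 0 w
  swap
  · exact inj_aux hT hσ hv h0 hd
  obtain ⟨h, hh⟩ := S.two (S.dir 0 v)
  obtain ⟨u, hu, hu2⟩ := S.ex 0 h
  have h1 : σ u = 0 := inj_aux hT hσ hv h0 (by rw [hu2]; exact hh.symm)
  exact inj_aux hT hσ hu h1 (by rw [hu2, ← hd]; exact hh)

instance kR_noZeroDivisors : NoZeroDivisors (kR S hT) where
  eq_zero_or_eq_zero_of_mul_eq_zero := by
    rintro ⟨σ, hσ⟩ ⟨τ, hτ⟩ h
    by_cases ht : τ = 0
    · right; exact Subtype.ext ht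
    left
    apply Subtype.ext
    show σ = 0
    have : ∃ v, τ v ≠ 0 := by
      by_contra hc
      push Not at hc
      exact ht (by ext w; exact hc w)
    obtain ⟨v, hv⟩ := this
    have h2 : σ * τ = 0 := congrArg Subtype.val h
    exact inj_of_kR hT hσ hv (by
      have := DFunLike.congr_fun h2 v
      exact this)

lemma exists_ne_zero (S : AffS A D) (d : D) : ∃ v : A, v ≠ 0 ∧ S.dir 0 v = d := S.ex 0 d

instance [Finite A] : Finite (AddMonoid.End A) :=
  Finite.of_injective (fun σ : AddMonoid.End A => (σ : A → A)) DFunLike.coe_injective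

include hH in
lemma exists_scal {v w : A} (hv : v ≠ 0) (hw : w ≠ 0) (h : S.dir 0 v = S.dir 0 w) :
    ∃ σ : kR S hT, (σ : AddMonoid.End A) v = w := by
  obtain ⟨f, hf, f0, fv⟩ := exists_dil (S := S) hv.symm hw.symm h
  have hadd := hH f hf f0
  refine ⟨⟨{ toFun := f, map_zero' := f0, map_add' := hadd }, ?_⟩, fv⟩
  intro u hu hu'
  show S.dir 0 (f u) = S.dir 0 u
  have := (hf 0 u hu.symm).2
  rwa [f0] at this

end grp

/-- coordinatisation -/
theorem coord {A D : Type} [Finite A] (S : AffS A D) (o : A) (d0 : D) :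
    ∃ (K : Type) (_ : Field K) (_ : Finite K) (_ : AddCommGroup A) (_ : Module K A) (w : D → A),
      (∀ h, w h ≠ 0) ∧
      (∀ a b, a ≠ b → ∃ c : K, c ≠ 0 ∧ b - a = c • w (S.dir a b)) ∧
      (∀ v : A, v ≠ 0 → ∃ h, ∃ c : K, c ≠ 0 ∧ v = c • w h) ∧
      (∀ h1 h2, ∀ c : K, w h1 = c • w h2 → h1 = h2) ∧
      (∀ h1 h2 h3, h1 ≠ h2 → (h3 ∈ S.LD h1 h2 ↔ w h3 ∈ Submodule.span K {w h1, w h2})) := by
  classical
  obtain ⟨hG, hT, hH⟩ := exists_group S o
  obtain ⟨v0, hv0, -⟩ := exists_ne_zero S d0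
  have : Nontrivial (kR S hT) := by
    refine ⟨⟨1, 0, ?_⟩⟩
    intro h
    have h2 : (1 : AddMonoid.End A) = 0 := congrArg Subtype.val h
    exact hv0 (by have := DFunLike.congr_fun h2 v0; exact this)
  have : IsDomain (kR S hT) := NoZeroDivisors.to_isDomain _
  have : Finite (kR S hT) := inferInstance
  have hF : IsField (kR S hT) := Finite.isDomain_to_isField _
  let F : Field (kR S hT) := hF.toField
  choose w hw hwd using exists_ne_zero S
  let Mo : Module (kR S hT) A := inferInstance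
  have hsm : ∀ (c : kR S hT) (v : A), c • v = (c : AddMonoid.End A) v := fun c v => rfl
  have hdir : ∀ (c : kR S hT) (v : A), c ≠ 0 → v ≠ 0 → c • v ≠ 0 ∧ S.dir 0 (c • v) = S.dir 0 v := by
    intro c v hc hv
    have h1 : c • v ≠ 0 := by
      intro h
      apply hc
      apply Subtype.ext
      exact inj_of_kR hT c.2 hv h
    exact ⟨h1, c.2 v hv h1⟩
  have hsc : ∀ v : A, v ≠ 0 → ∃ c : kR S hT, c ≠ 0 ∧ v = c • w (S.dir 0 v) := by
    intro v hv
    obtain ⟨σ, hσ⟩ := exists_scal hT hH (hw (S.dir 0 v)) hv (hwd _)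
    refine ⟨σ, ?_, hσ.symm⟩
    rintro rfl
    exact hv hσ.symm
  refine ⟨kR S hT, F, inferInstance, hG, Mo, w, hw, ?_, ?_, ?_, ?_⟩
  · intro a b hab
    have h1 : b - a ≠ 0 := sub_ne_zero.2 hab.symm
    obtain ⟨c, hc, h⟩ := hsc _ h1
    exact ⟨c, hc, by rw [dir_sub hT hab]; exact h⟩
  · intro v hv
    obtain ⟨c, hc, h⟩ := hsc v hv
    exact ⟨_, c, hc, h⟩
  · intro h1 h2 c h
    have hc : c ≠ 0 := by
      rintro rfl
      apply hw h1
      rw [h]; rfl
    have := (hdir c (w h2) hc (hw h2)).2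
    rw [← h, hwd, hwd] at this
    exact this
  · intro h1 h2 h3 h12
    rw [Submodule.mem_span_pair]
    constructor
    · intro h
      by_cases e1 : h3 = h1
      · subst e1
        exact ⟨1, 0, by rw [one_smul, zero_smul, add_zero]⟩
      by_cases e2 : h3 = h2
      · subst e2
        exact ⟨0, 1, by rw [one_smul, zero_smul, zero_add]⟩
      obtain ⟨c, hc0, hcw, hd1, hd2⟩ := S.comp 0 (w h3) h1 h2 (hw h3).symm h12
        (by rw [hwd]; exact h) (by rw [hwd]; exact Ne.symm e1) (by rw [hwd]; exact Ne.symm e2)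
      obtain ⟨s, -, hs⟩ := hsc c hc0
      obtain ⟨t, -, ht⟩ := hsc (w h3 - c) (sub_ne_zero.2 hcw.symm)
      rw [hd1] at hs
      rw [← dir_sub hT hcw, S.symm, hd2] at ht
      refine ⟨s, t, ?_⟩
      rw [← hs, ← ht]; abel
    · rintro ⟨s, t, hst⟩
      by_cases hs : s = 0
      · subst hs
        by_cases ht : t = 0
        · subst ht
          exact absurd (by rw [← hst, zero_smul, zero_smul, add_zero]) (hw h3)
        rw [zero_smul, zero_add] at hst
        have := (hdir t (w h2) ht (hw h2)).2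
        rw [hst, hwd, hwd] at this
        rw [this]; exact S.LDr _ _
      by_cases ht : t = 0
      · subst ht
        rw [zero_smul, add_zero] at hst
        have := (hdir s (w h1) hs (hw h1)).2
        rw [hst, hwd, hwd] at this
        rw [this]; exact S.LDl _ _
      have k1 := hdir s (w h1) hs (hw h1)
      have k2 := hdir t (w h2) ht (hw h2)
      have := (del_add_mem hT k1.1 k2.1 (by rw [k1.2, k2.2, hwd, hwd]; exact h12)).2
      rw [hst, k1.2, k2.2, hwd, hwd, hwd] at this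
      exact this

end AffS

end PMD

namespace PMD

/-- hypotheses on the line function of a finite projective geometry of dimension at least three -/
structure PG (P : Type) (L : P → P → Set P) : Prop where
  hl : ∀ a b, a ∈ L a b ∧ b ∈ L a b
  heq : ∀ a b c d, a ≠ b → c ≠ d → c ∈ L a b → d ∈ L a b → L c d = L a b
  hV : ∀ a b c d p, a ≠ b → c ≠ d → a ≠ c → b ≠ d → p ∈ L a b → p ∈ L c d →
    ∃ q, q ∈ L a c ∧ q ∈ L b d
  h3 : ∀ a b, a ≠ b → ∃ c ∈ L a b, c ≠ a ∧ c ≠ b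
  hNP : ∀ a b c, b ≠ c → ∃ x, ∀ q ∈ L b c, x ∉ L a q
  h2 : ∃ a b : P, a ≠ b

namespace PG

variable {P : Type} {L : P → P → Set P}

/-- subspaces -/
def IsSub (L : P → P → Set P) (H : Set P) : Prop := ∀ a ∈ H, ∀ b ∈ H, a ≠ b → L a b ⊆ H

lemma exists_max [Finite P] (hP : PG P L) : ∃ H : Set P, IsSub L H ∧ H ≠ Set.univ ∧
    ∀ H', IsSub L H' → H' ≠ Set.univ → H ⊆ H' → H' = H := by
  classical
  obtain ⟨a, b, hab⟩ := hP.h2
  have hne : ({H : Set P | IsSub L H ∧ H ≠ Set.univ}).Nonempty := by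
    refine ⟨∅, ?_, ?_⟩
    · intro a ha; exact absurd ha (Set.notMem_empty a)
    · intro h
      have : a ∈ (∅ : Set P) := by rw [h]; trivial
      exact this
  obtain ⟨H, hH⟩ := Set.Finite.exists_maximal (Set.toFinite {H : Set P | IsSub L H ∧ H ≠ Set.univ}) hne
  refine ⟨H, hH.1.1, hH.1.2, ?_⟩
  intro H' h1 h2 h3
  exact le_antisymm (hH.2 ⟨h1, h2⟩ h3) h3

lemma symmL (hP : PG P L) (a b : P) : L a b = L b a := by
  by_cases h : a = b
  · rw [h]
  · exact (hP.heq a b b a h (Ne.symm h) (hP.hl a b).2 (hP.hl a b).1).symm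

lemma meet [Finite P] (hP : PG P L) {H : Set P} (hS : IsSub L H)
    (hmax : ∀ H', IsSub L H' → H' ≠ Set.univ → H ⊆ H' → H' = H) {p x : P} (hp : p ∉ H)
    (hx : x ≠ p) : ∃ h ∈ H, h ∈ L p x := by
  let C : Set P := {x | x = p ∨ ∃ h ∈ H, h ∈ L p x}
  have hCs : IsSub L C := by
    intro x hx y hy hxy z hz
    by_cases hzp : z = p
    · left; exact hzp
    by_cases hzx : z = x
    · rw [hzx]; exact hx
    by_cases hzy : z = y
    · rw [hzy]; exact hy
    by_cases hzH : z ∈ H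
    · right; exact ⟨z, hzH, (hP.hl p z).2⟩
    rcases hx with hx | ⟨h1, h1H, hx⟩
    · subst hx
      rcases hy with hy | ⟨h2, h2H, hy⟩
      · exact absurd hy.symm hxy
      right
      refine ⟨h2, h2H, ?_⟩
      rw [hP.heq x y x z hxy (Ne.symm hzp) (hP.hl x y).1 hz]
      exact hy
    rcases hy with hy | ⟨h2, h2H, hy⟩
    · subst hy
      right
      refine ⟨h1, h1H, ?_⟩
      rw [hP.symmL x y] at hz
      rw [hP.heq y x y z (Ne.symm hxy) (Ne.symm hzp) (hP.hl y x).1 hz]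
      exact hx
    right
    by_cases hxp : x = p
    · subst hxp
      refine ⟨h2, h2H, ?_⟩
      rw [hP.heq x y x z hxy (Ne.symm hzp) (hP.hl x y).1 hz]
      exact hy
    by_cases hyp : y = p
    · subst hyp
      refine ⟨h1, h1H, ?_⟩
      rw [hP.symmL x y] at hz
      rw [hP.heq y x y z (Ne.symm hxy) (Ne.symm hzp) (hP.hl y x).1 hz]
      exact hx
    have hph1 : p ≠ h1 := by rintro rfl; exact hp h1H
    have hph2 : p ≠ h2 := by rintro rfl; exact hp h2H
    have l1 : L p h1 = L p x := hP.heq p x p h1 (Ne.symm hxp) hph1 (hP.hl p x).1 hx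
    have l2 : L p h2 = L p y := hP.heq p y p h2 (Ne.symm hyp) hph2 (hP.hl p y).1 hy
    by_cases h12 : h1 = h2
    · subst h12
      refine ⟨h1, h1H, ?_⟩
      have hxm : x ∈ L p h1 := by rw [l1]; exact (hP.hl p x).2
      have hym : y ∈ L p h1 := by rw [l2]; exact (hP.hl p y).2
      have l3 := hP.heq p h1 x y hph1 hxy hxm hym
      rw [l3] at hz
      rw [hP.heq p h1 p z hph1 (Ne.symm hzp) (hP.hl p h1).1 hz]
      exact (hP.hl p h1).2
    have l4 : L x z = L x y := hP.heq x y x z hxy (Ne.symm hzx) (hP.hl x y).1 hz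
    have hzh2 : z ≠ h2 := by rintro rfl; exact hzH h2H
    obtain ⟨q, hq1, hq2⟩ := hP.hV p h2 x z y hph2 (Ne.symm hzx) (Ne.symm hxp) hzh2.symm
      (by rw [l2]; exact (hP.hl p y).2) (by rw [l4]; exact (hP.hl x y).2)
    obtain ⟨r, hr1, hr2⟩ := hP.hV p h1 z h2 q hph1 hzh2 (Ne.symm hzp) h12
      (by rw [l1]; exact hq1) (by rw [hP.symmL z h2]; exact hq2)
    exact ⟨r, hS h1 h1H h2 h2H h12 hr2, hr1⟩
  have hCu : C = Set.univ := by
    by_contra hne
    have hsub : H ⊆ C := fun h hh => Or.inr ⟨h, hh, (hP.hl p h).2⟩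
    have := hmax C hCs hne hsub
    apply hp
    rw [← this]
    exact Or.inl rfl
  have hxC : x ∈ C := by rw [hCu]; trivial
  rcases hxC with h | h
  · exact absurd h hx
  · exact h

open Classical in
/-- the affine structure -/
theorem exists_aff [Finite P] (hP : PG P L) (H : Set P) (hS : IsSub L H) (hHu : H ≠ Set.univ)
    (hmax : ∀ H', IsSub L H' → H' ≠ Set.univ → H ⊆ H' → H' = H) (d0 : H) :
    ∃ S : AffS {p : P // p ∉ H} {p : P // p ∈ H},
      (∀ a b, a ≠ b → (S.dir a b).1 ∈ L a.1 b.1) ∧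
      (∀ h1 h2 h, h ∈ S.LD h1 h2 ↔ h.1 ∈ L h1.1 h2.1) := by
  have hm : ∀ a b : {p : P // p ∉ H}, a ≠ b → ∃ h : {p : P // p ∈ H}, h.1 ∈ L a.1 b.1 := by
    intro a b hab
    obtain ⟨h, h1, h2⟩ := hP.meet hS hmax a.2 (x := b.1) (by
      intro h; exact hab (Subtype.ext h.symm))
    exact ⟨⟨h, h1⟩, h2⟩
  have hu : ∀ a b : {p : P // p ∉ H}, a ≠ b → ∀ h h' : {p : P // p ∈ H}, h.1 ∈ L a.1 b.1 →
      h'.1 ∈ L a.1 b.1 → h' = h := by
    intro a b hab h h' h1 h2
    by_contra hne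
    have h3 := hP.heq a.1 b.1 h'.1 h.1 (fun h => hab (Subtype.ext h)) (fun h => hne (Subtype.ext h))
      h2 h1
    apply a.2
    apply hS h'.1 h'.2 h.1 h.2 (fun h => hne (Subtype.ext h))
    rw [h3]; exact (hP.hl _ _).1
  let dir : {p : P // p ∉ H} → {p : P // p ∉ H} → {p : P // p ∈ H} := fun a b =>
    if h : a ≠ b then Classical.choose (hm a b h) else d0
  have hd : ∀ a b, a ≠ b → (dir a b).1 ∈ L a.1 b.1 := by
    intro a b hab
    simp only [dir, dif_pos hab]
    exact Classical.choose_spec (hm a b hab)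
  have hdu : ∀ a b, a ≠ b → ∀ h : {p : P // p ∈ H}, h.1 ∈ L a.1 b.1 → dir a b = h := by
    intro a b hab h h1
    exact hu a b hab h _ h1 (hd a b hab)
  have hAH : ∀ (a : {p : P // p ∉ H}) (h : {p : P // p ∈ H}), a.1 ≠ h.1 := by
    intro a h e; apply a.2; rw [e]; exact h.2
  have hLd : ∀ a b, a ≠ b → L a.1 (dir a b).1 = L a.1 b.1 := by
    intro a b hab
    exact hP.heq a.1 b.1 a.1 (dir a b).1 (fun h => hab (Subtype.ext h)) (hAH _ _)
      (hP.hl _ _).1 (hd a b hab)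
  have hnotin : ∀ (a : {p : P // p ∉ H}) (h : {p : P // p ∈ H}) (q : P), q ∈ L a.1 h.1 → q ∈ H →
      q = h.1 := by
    intro a h q hq hqH
    by_contra hne
    have := hP.heq a.1 h.1 q h.1 (hAH a h) hne hq (hP.hl _ _).2
    apply a.2
    apply hS q hqH h.1 h.2 hne
    rw [this]; exact (hP.hl _ _).1
  have hdh : ∀ (a : {p : P // p ∉ H}) (h : {p : P // p ∈ H}) (c : {p : P // p ∉ H}),
      c ≠ a → c.1 ∈ L a.1 h.1 → dir a c = h := by
    intro a h c hca hc
    apply hdu a c hca.symm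
    rw [hP.heq a.1 h.1 a.1 c.1 (hAH a h) (fun h => hca (Subtype.ext h.symm)) (hP.hl _ _).1 hc]
    exact (hP.hl _ _).2
  refine
    ⟨{ dir := dir
       LD := fun h1 h2 => {h | h.1 ∈ L h1.1 h2.1}
       symm := ?_
       ex := ?_
       tr3 := ?_
       tri := ?_
       comp := ?_
       LDl := fun a b => (hP.hl _ _).1
       LDr := fun a b => (hP.hl _ _).2
       LDeq := ?_
       exoff := ?_
       two := ?_ }, hd, fun h1 h2 h => Iff.rfl⟩
  · intro a b
    by_cases hab : a = b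
    · rw [hab]
    · apply hdu a b hab
      rw [hP.symmL]
      exact hd b a (Ne.symm hab)
  · intro a h
    obtain ⟨c, hc, hca, hch⟩ := hP.h3 a.1 h.1 (hAH a h)
    have hcH : c ∉ H := fun hcH => hch (hnotin a h c hc hcH)
    exact ⟨⟨c, hcH⟩, fun h => hca (congrArg Subtype.val h), hdh a h ⟨c, hcH⟩
      (fun h => hca (congrArg Subtype.val h)) hc⟩
  · intro a b c hab hac hbc h
    have h1 := hLd a b hab
    have h2 := hLd a c hac
    rw [h, h2] at h1
    apply hdu b c hbc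
    have hbc' : b.1 ≠ c.1 := fun h => hbc (Subtype.ext h)
    have hab' : a.1 ≠ b.1 := fun h => hab (Subtype.ext h)
    rw [hP.heq a.1 b.1 b.1 c.1 hab' hbc' (hP.hl _ _).2 (by rw [← h1]; exact (hP.hl _ _).2)]
    exact hd a b hab
  · intro a b c hab hac h
    have hbc : b ≠ c := by rintro rfl; exact h rfl
    have hbc' : b.1 ≠ c.1 := fun h => hbc (Subtype.ext h)
    have h' : (dir a b).1 ≠ (dir a c).1 := fun e => h (Subtype.ext e)
    have e1 : L b.1 (dir a b).1 = L a.1 b.1 := 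
      hP.heq a.1 b.1 b.1 (dir a b).1 (fun h => hab (Subtype.ext h)) (hAH _ _)
        (hP.hl _ _).2 (hd a b hab)
    have e2 : L c.1 (dir a c).1 = L a.1 c.1 := 
      hP.heq a.1 c.1 c.1 (dir a c).1 (fun h => hac (Subtype.ext h)) (hAH _ _)
        (hP.hl _ _).2 (hd a c hac)
    obtain ⟨q, hq1, hq2⟩ := hP.hV b.1 (dir a b).1 c.1 (dir a c).1 a.1 (hAH _ _) (hAH _ _) hbc' h'
      (by rw [e1]; exact (hP.hl _ _).1) (by rw [e2]; exact (hP.hl _ _).1)
    have hqH : q ∈ H := hS _ (dir a b).2 _ (dir a c).2 h' hq2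
    have := hdu b c hbc ⟨q, hqH⟩ hq1
    show (dir b c).1 ∈ L (dir a b).1 (dir a c).1
    rw [this]; exact hq2
  · intro a b h1 h2 hab h12 hm h1n h2n
    have hab' : a.1 ≠ b.1 := fun h => hab (Subtype.ext h)
    have h12' : h1.1 ≠ h2.1 := fun h => h12 (Subtype.ext h)
    obtain ⟨q, hq1, hq2⟩ := hP.hV a.1 b.1 h1.1 h2.1 (dir a b).1 hab' h12' (hAH _ _) (hAH _ _)
      (hd a b hab) hm
    have hqH : q ∉ H := by
      intro hqH
      have e1 := hnotin a h1 q hq1 hqH
      have e2 := hnotin b h2 q hq2 hqH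
      exact h12' (e1.symm.trans e2)
    have hqa : (⟨q, hqH⟩ : {p : P // p ∉ H}) ≠ a := by
      intro e
      have : q = a.1 := congrArg Subtype.val e
      subst this
      apply h2n
      have := hdh b h2 a hab hq2
      rw [← this]
      apply hdu b a hab.symm
      rw [hP.symmL]; exact hd a b hab
    have hqb : (⟨q, hqH⟩ : {p : P // p ∉ H}) ≠ b := by
      intro e
      have : q = b.1 := congrArg Subtype.val e
      subst this
      apply h1n
      exact (hdh a h1 b hab.symm hq1).symm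
    exact ⟨⟨q, hqH⟩, hqa, hqb, hdh a h1 _ hqa hq1, hdh b h2 _ hqb hq2⟩
  · intro a b c d hab hcd hc hd
    ext x
    have := hP.heq a.1 b.1 c.1 d.1 (fun h => hab (Subtype.ext h)) (fun h => hcd (Subtype.ext h))
      hc hd
    show x.1 ∈ L c.1 d.1 ↔ x.1 ∈ L a.1 b.1
    rw [this]
  · intro h1 h2 h12
    have h12' : h1.1 ≠ h2.1 := fun h => h12 (Subtype.ext h)
    obtain ⟨p, hp⟩ : ∃ p, p ∉ H := by
      by_contra hc; push Not at hc
      exact hHu (Set.eq_univ_of_forall hc)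
    obtain ⟨x, hx⟩ := hP.hNP p h1.1 h2.1 h12'
    have hxp : x ≠ p := by
      rintro rfl
      exact hx h1.1 (hP.hl _ _).1 (hP.hl _ _).1
    obtain ⟨h, hH, hl⟩ := hP.meet hS hmax hp hxp
    refine ⟨⟨h, hH⟩, ?_⟩
    intro hm
    apply hx h hm
    have hph : p ≠ h := by rintro rfl; exact hp hH
    rw [hP.heq p x p h hxp.symm hph (hP.hl _ _).1 hl]
    exact (hP.hl _ _).2
  · intro h
    obtain ⟨p, hp⟩ : ∃ p, p ∉ H := by
      by_contra hc; push Not at hc
      exact hHu (Set.eq_univ_of_forall hc)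
    have hph : p ≠ h.1 := by rintro rfl; exact hp h.2
    obtain ⟨x, hx⟩ := hP.hNP h.1 p h.1 hph
    have hx' := hx p (hP.hl _ _).1
    have hxp : x ≠ p := by
      rintro rfl
      exact hx' (hP.hl _ _).2
    obtain ⟨h', hH, hl⟩ := hP.meet hS hmax hp hxp
    refine ⟨⟨h', hH⟩, ?_⟩
    rintro rfl
    apply hx'
    rw [hP.symmL, hP.heq p x p h' hxp.symm hph (hP.hl _ _).1 hl]
    exact (hP.hl _ _).2

end PG

end PMD

namespace PMD
namespace PG

variable {P : Type} {L : P → P → Set P}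

theorem proj_coord [Finite P] (hP : PG P L) :
    ∃ (K : Type) (_ : Field K) (_ : Finite K) (W : Type) (_ : AddCommGroup W) (_ : Module K W)
      (_ : Finite W) (v : P → W),
      (∀ p, v p ≠ 0) ∧ (∀ p q, ∀ c : K, v p = c • v q → p = q) ∧
      (∀ p q r, p ≠ q → (r ∈ L p q ↔ v r ∈ Submodule.span K {v p, v q})) ∧
      (∀ u : W, u ≠ 0 → ∃ p, ∃ c : K, u = c • v p) ∧
      (∃ p q, p ≠ q ∧ (L p q).ncard = Nat.card K + 1) := by
  classical
  obtain ⟨H, hS, hHu, hmax⟩ := hP.exists_max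
  obtain ⟨p0, hp0⟩ : ∃ p, p ∉ H := by
    by_contra hc; push Not at hc
    exact hHu (Set.eq_univ_of_forall hc)
  obtain ⟨x0, hx0⟩ : ∃ x, x ≠ p0 := by
    obtain ⟨a, b, hab⟩ := hP.h2
    by_cases h : a = p0
    · exact ⟨b, by rw [← h]; exact hab.symm⟩
    · exact ⟨a, h⟩
  obtain ⟨h0, hh0, -⟩ := hP.meet hS hmax hp0 hx0
  obtain ⟨S, hd, hLD⟩ := hP.exists_aff H hS hHu hmax ⟨h0, hh0⟩
  obtain ⟨K, iK, iKf, iG, iM, w, hw0, hw1, hw2, hw3, hw4⟩ := AffS.coord S ⟨p0, hp0⟩ ⟨h0, hh0⟩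
  have hAH : ∀ (a : {p : P // p ∉ H}) (h : {p : P // p ∈ H}), a.1 ≠ h.1 := by
    intro a h e; apply a.2; rw [e]; exact h.2
  have hnotin : ∀ (a : {p : P // p ∉ H}) (h : {p : P // p ∈ H}) (q : P), q ∈ L a.1 h.1 → q ∈ H →
      q = h.1 := by
    intro a h q hq hqH
    by_contra hne
    have := hP.heq a.1 h.1 q h.1 (hAH a h) hne hq (hP.hl _ _).2
    apply a.2
    apply hS q hqH h.1 h.2 hne
    rw [this]; exact (hP.hl _ _).1
  have hLd : ∀ a b, a ≠ b → L a.1 (S.dir a b).1 = L a.1 b.1 := by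
    intro a b hab
    exact hP.heq a.1 b.1 a.1 (S.dir a b).1 (fun h => hab (Subtype.ext h)) (hAH _ _)
      (hP.hl _ _).1 (hd a b hab)
  have hdh : ∀ (a : {p : P // p ∉ H}) (h : {p : P // p ∈ H}) (c : {p : P // p ∉ H}),
      c ≠ a → c.1 ∈ L a.1 h.1 → S.dir a c = h := by
    intro a h c hca hc
    apply Subtype.ext
    apply hnotin a h _ _ (S.dir a c).2
    rw [← hP.heq a.1 h.1 a.1 c.1 (hAH a h) (fun h => hca (Subtype.ext h.symm)) (hP.hl _ _).1 hc]
    exact hd a c hca.symm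
  let v : P → K × {p : P // p ∉ H} := fun p => if h : p ∈ H then (0, w ⟨p, h⟩) else (1, ⟨p, h⟩)
  have hvH : ∀ h : {p : P // p ∈ H}, v h.1 = (0, w h) := by
    intro h; simp only [v, dif_pos h.2]
  have hvA : ∀ a : {p : P // p ∉ H}, v a.1 = (1, a) := by
    intro a; simp only [v, dif_neg a.2]
  have hAHline : ∀ (a : {p : P // p ∉ H}) (h : {p : P // p ∈ H}) (r : P),
      (r ∈ L a.1 h.1 ↔ v r ∈ Submodule.span K {v a.1, v h.1}) := by
    intro a h r
    rw [Submodule.mem_span_pair, hvH, hvA]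
    constructor
    · intro hr
      by_cases hrH : r ∈ H
      · have := hnotin a h r hr hrH
        subst this
        exact ⟨0, 1, by rw [hvH]; simp⟩
      by_cases hra : (⟨r, hrH⟩ : {p : P // p ∉ H}) = a
      · refine ⟨1, 0, ?_⟩
        rw [hvA ⟨r, hrH⟩, hra]; simp
      have h1 := hdh a h ⟨r, hrH⟩ hra hr
      obtain ⟨c, hc, h2⟩ := hw1 a ⟨r, hrH⟩ (Ne.symm hra)
      rw [h1] at h2
      refine ⟨1, c, ?_⟩
      rw [hvA ⟨r, hrH⟩]
      ext1
      · simp
      · simp only [Prod.smul_mk, Prod.mk_add_mk, one_smul, ← h2]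
        abel
    · rintro ⟨x, y, hxy⟩
      by_cases hrH : r ∈ H
      · rw [hvH ⟨r, hrH⟩] at hxy
        have h1 : x = 0 := by
          have := congrArg Prod.fst hxy
          simpa using this
        subst h1
        have h2 : y • w h = w ⟨r, hrH⟩ := by
          have := congrArg Prod.snd hxy
          simpa using this
        have := hw3 _ _ _ h2.symm
        have h3 : r = h.1 := congrArg Subtype.val this
        rw [h3]; exact (hP.hl _ _).2
      · rw [hvA ⟨r, hrH⟩] at hxy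
        have h1 : x = 1 := by
          have := congrArg Prod.fst hxy
          simpa using this
        subst h1
        have h2 : a + y • w h = ⟨r, hrH⟩ := by
          have := congrArg Prod.snd hxy
          simpa using this
        by_cases hra : a = (⟨r, hrH⟩ : {p : P // p ∉ H})
        · have : r = a.1 := by rw [hra]
          rw [this]; exact (hP.hl _ _).1
        obtain ⟨c, hc, h3⟩ := hw1 a ⟨r, hrH⟩ hra
        have h4 : c • w (S.dir a ⟨r, hrH⟩) = y • w h := by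
          rw [← h3, ← h2]; abel
        have h5 : w (S.dir a ⟨r, hrH⟩) = (c⁻¹ * y) • w h := by
          rw [mul_smul, ← h4, smul_smul, inv_mul_cancel₀ hc, one_smul]
        have h6 := hw3 _ _ _ h5
        have h7 := hLd a ⟨r, hrH⟩ hra
        rw [h6] at h7
        rw [h7]; exact (hP.hl _ _).2
  have hHHline : ∀ (h1 h2 : {p : P // p ∈ H}) (r : P), h1 ≠ h2 →
      (r ∈ L h1.1 h2.1 ↔ v r ∈ Submodule.span K {v h1.1, v h2.1}) := by
    intro h1 h2 r h12
    have h12' : h1.1 ≠ h2.1 := fun h => h12 (Subtype.ext h)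
    by_cases hrH : r ∈ H
    · have := hw4 h1 h2 ⟨r, hrH⟩ h12
      rw [hLD] at this
      rw [this, hvH, hvH, hvH ⟨r, hrH⟩, Submodule.mem_span_pair, Submodule.mem_span_pair]
      constructor
      · rintro ⟨x, y, hxy⟩
        exact ⟨x, y, by rw [← hxy]; simp⟩
      · rintro ⟨x, y, hxy⟩
        refine ⟨x, y, ?_⟩
        have := congrArg Prod.snd hxy
        simpa using this
    · constructor
      · intro h
        exact absurd (hS _ h1.2 _ h2.2 h12' h) hrH
      · intro h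
        rw [Submodule.mem_span_pair, hvH, hvH, hvA ⟨r, hrH⟩] at h
        obtain ⟨x, y, hxy⟩ := h
        have := congrArg Prod.fst hxy
        simp at this
  refine ⟨K, iK, iKf, K × {p : P // p ∉ H}, inferInstance, inferInstance, inferInstance, v,
    ?_, ?_, ?_, ?_, ?_⟩
  · intro p
    by_cases hp : p ∈ H
    · rw [hvH ⟨p, hp⟩]
      intro h
      exact hw0 _ (congrArg Prod.snd h)
    · rw [hvA ⟨p, hp⟩]
      intro h
      exact one_ne_zero (congrArg Prod.fst h)
  · intro p q c h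
    by_cases hp : p ∈ H
    · rw [hvH ⟨p, hp⟩] at h
      by_cases hq : q ∈ H
      · rw [hvH ⟨q, hq⟩] at h
        have h2 : w ⟨p, hp⟩ = c • w ⟨q, hq⟩ := by
          have := congrArg Prod.snd h
          simpa using this
        exact congrArg Subtype.val (hw3 _ _ _ h2)
      · rw [hvA ⟨q, hq⟩] at h
        have h1 : c = 0 := by
          have := congrArg Prod.fst h
          simpa using this.symm
        subst h1
        have h2 : w ⟨p, hp⟩ = 0 := by
          have := congrArg Prod.snd h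
          simpa using this
        exact absurd h2 (hw0 _)
    · rw [hvA ⟨p, hp⟩] at h
      by_cases hq : q ∈ H
      · rw [hvH ⟨q, hq⟩] at h
        have := congrArg Prod.fst h
        simp at this
      · rw [hvA ⟨q, hq⟩] at h
        have h1 : c = 1 := by
          have := congrArg Prod.fst h
          simpa using this.symm
        subst h1
        have h2 := congrArg Prod.snd h
        simp only [one_smul] at h2
        exact congrArg Subtype.val h2
  · intro p q r hpq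
    by_cases hp : p ∈ H
    · by_cases hq : q ∈ H
      · exact hHHline ⟨p, hp⟩ ⟨q, hq⟩ r (fun h => hpq (congrArg Subtype.val h))
      · rw [hP.symmL, Set.pair_comm]
        exact hAHline ⟨q, hq⟩ ⟨p, hp⟩ r
    · by_cases hq : q ∈ H
      · exact hAHline ⟨p, hp⟩ ⟨q, hq⟩ r
      · have hne : (⟨p, hp⟩ : {p : P // p ∉ H}) ≠ ⟨q, hq⟩ := fun h => hpq (congrArg Subtype.val h)
        rw [← hLd _ _ hne, hAHline]
        obtain ⟨c, hc, h3⟩ := hw1 _ _ hne
        have e : Submodule.span K {v p, v (S.dir ⟨p, hp⟩ ⟨q, hq⟩).1} =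
            Submodule.span K {v p, v q} := by
          have e1 : v q = v p + c • v (S.dir ⟨p, hp⟩ ⟨q, hq⟩).1 := by
            rw [hvA ⟨p, hp⟩, hvA ⟨q, hq⟩, hvH]
            ext1
            · simp
            · simp only [Prod.smul_mk, Prod.mk_add_mk, ← h3]
              abel
          have e2 : v (S.dir ⟨p, hp⟩ ⟨q, hq⟩).1 = c⁻¹ • (v q - v p) := by
            rw [e1, add_sub_cancel_left, smul_smul, inv_mul_cancel₀ hc, one_smul]
          apply le_antisymm
          · rw [Submodule.span_le]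
            intro y hy
            rcases hy with rfl | hy
            · exact Submodule.subset_span (by simp)
            · rw [Set.mem_singleton_iff.1 hy, e2]
              exact Submodule.smul_mem _ _ (Submodule.sub_mem _
                (Submodule.subset_span (by simp)) (Submodule.subset_span (by simp)))
          · rw [Submodule.span_le]
            intro y hy
            rcases hy with rfl | hy
            · exact Submodule.subset_span (by simp)
            · rw [Set.mem_singleton_iff.1 hy, e1]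
              exact Submodule.add_mem _ (Submodule.subset_span (by simp))
                (Submodule.smul_mem _ _ (Submodule.subset_span (by simp)))
        show v r ∈ Submodule.span K {v p, v (S.dir ⟨p, hp⟩ ⟨q, hq⟩).1} ↔ _
        rw [e]
  · rintro ⟨t, u⟩ hu
    by_cases ht : t = 0
    · subst ht
      have hu' : u ≠ 0 := by
        rintro rfl; exact hu rfl
      obtain ⟨h, c, hc, h1⟩ := hw2 u hu'
      refine ⟨h.1, c, ?_⟩
      rw [hvH, h1]; simp
    · refine ⟨(t⁻¹ • u : {p : P // p ∉ H}).1, t, ?_⟩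
      rw [hvA]
      ext1
      · simp
      · simp only [Prod.smul_mk, smul_smul, mul_inv_cancel₀ ht, one_smul]
  · let a : {p : P // p ∉ H} := ⟨p0, hp0⟩
    let h : {p : P // p ∈ H} := ⟨h0, hh0⟩
    refine ⟨a.1, h.1, hAH a h, ?_⟩
    let g : K → P := fun c => (a + c • w h : {p : P // p ∉ H}).1
    have hg : Function.Injective g := by
      intro c c' hcc
      have h1 : a + c • w h = a + c' • w h := Subtype.ext hcc
      have h2 : (c - c') • w h = 0 := by
        rw [sub_smul, add_left_cancel h1, sub_self]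
      rcases smul_eq_zero.1 h2 with h3 | h3
      · exact sub_eq_zero.1 h3
      · exact absurd h3 (hw0 h)
    have hset : L a.1 h.1 = insert h.1 (Set.range g) := by
      ext r
      rw [hAHline, Submodule.mem_span_pair, hvA, hvH]
      constructor
      · rintro ⟨x, y, hxy⟩
        by_cases hrH : r ∈ H
        · left
          apply hnotin a h r _ hrH
          rw [hAHline, Submodule.mem_span_pair, hvA, hvH]
          exact ⟨x, y, hxy⟩
        · right
          rw [hvA ⟨r, hrH⟩] at hxy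
          have h1 : x = 1 := by
            have := congrArg Prod.fst hxy
            simpa using this
          subst h1
          have h2 : a + y • w h = ⟨r, hrH⟩ := by
            have := congrArg Prod.snd hxy
            simpa using this
          exact ⟨y, congrArg Subtype.val h2⟩
      · rintro (e | ⟨y, rfl⟩)
        · exact ⟨0, 1, by rw [e, hvH]; simp⟩
        · refine ⟨1, y, ?_⟩
          rw [hvA]; simp
    rw [hset, Set.ncard_insert_of_notMem, Set.ncard_range_of_injective hg]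
    rintro ⟨c, hc⟩
    exact hAH _ h hc

end PG

end PMD

namespace PMD

lemma dio_st {m u z : ℤ} (hm : 1 ≤ m) (hu : 1 ≤ u) (hz : 1 ≤ z)
    (hE : (m+1)*z*(m*(u+1)^2 - u*(z+1)) = m^2*(u+1)^2*u) :
    ∃ s, 0 < s ∧ (u+1)^2*s = (m+1)*z*(z+1) ∧ u*(s+m^2) = m*(m+1)*z := by
  have hcop : IsCoprime u ((u+1)^2) := by
    apply IsCoprime.pow_right
    exact ⟨-1, 1, by ring⟩
  have hdvd : u ∣ m*(m+1)*z := by
    apply hcop.dvd_of_dvd_mul_left
    refine ⟨m^2*(u+1)^2 + (m+1)*z*(z+1), ?_⟩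
    linear_combination hE
  obtain ⟨t, ht⟩ := hdvd
  have h1 : (u+1)^2*(t - m^2) = (m+1)*z*(z+1) := by
    have hu0 : u ≠ 0 := by omega
    apply mul_left_cancel₀ hu0
    linear_combination hE - (u+1)^2 * ht
  refine ⟨t - m^2, ?_, h1, ?_⟩
  · have h2 : 0 < (u+1)^2*(t-m^2) := by rw [h1]; positivity
    exact pos_of_mul_pos_right h2 (by positivity) |> fun h => h
  · linear_combination -ht

lemma dio_quad {m u z s : ℤ} (h1 : (u+1)^2*s = (m+1)*z*(z+1)) (h2 : u*(s+m^2) = m*(m+1)*z) :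
    u^2*(s^2 - m^2*(m-1)*s + m^4) = u*(m*(m+1)*((2*m-1)*s - m^2)) + m^2*(m+1)*s := by
  linear_combination (u*(s+m^2) + m*(m+1)*z + m*(m+1)) * h2 - m^2*(m+1)*h1

lemma dio1 {u s : ℤ} (hu : 2 ≤ u) (hs : 0 < s)
    (h : u^2*(s^2 - 1^2*(1-1)*s + 1^4) = u*(1*(1+1)*((2*1-1)*s - 1^2)) + 1^2*(1+1)*s) : False := by
  nlinarith [mul_pos (by omega : 0 < u) hs, mul_nonneg (by omega : 0 ≤ u - 2) hs.le, sq_nonneg (s-1),
    sq_nonneg (u*s - 1)]

lemma dio2 {u s : ℤ} (hu : 3 ≤ u) (hs : 0 < s)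
    (h : u^2*(s^2 - 2^2*(2-1)*s + 2^4) = u*(2*(2+1)*((2*2-1)*s - 2^2)) + 2^2*(2+1)*s) : False := by
  have h1 : u*(s^2-4*s+16) ≤ 22*s-24 := by
    by_contra hc
    push Not at hc
    nlinarith [mul_pos (by omega : 0 < u) (by linarith : 0 < u*(s^2-4*s+16) - (22*s-24)),
      mul_nonneg (by omega : 0 ≤ u - 3) hs.le]
  have hs8 : s ≤ 8 := by
    by_contra hc
    push Not at hc
    nlinarith [mul_nonneg (by omega : 0 ≤ u - 3) (by nlinarith : 0 ≤ s^2-4*s+16)]
  have hu20 : u ≤ 20 := by nlinarith [sq_nonneg (s-2)]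
  interval_cases s <;> interval_cases u <;> omega

/-- the unique candidate -/
lemma dio_cand {u G H c : ℤ} (hu : 1 ≤ u) (hc : 0 < c) (hcH : c ≤ H)
    (h : u^2*G = u*H + c) : 0 < G ∧ u = H / G + 1 := by
  have hu0 : 0 < u := by omega
  have h1 : H < G * u := by
    by_contra hn
    push Not at hn
    nlinarith [mul_le_mul_of_nonneg_left hn hu0.le]
  have h2 : G * (u - 1) < H := by
    by_contra hn
    push Not at hn
    nlinarith [mul_le_mul_of_nonneg_left hn hu0.le]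
  have hG : 0 < G := by
    by_contra hn
    push Not at hn
    nlinarith
  refine ⟨hG, ?_⟩
  have h3 : H / G < u := by
    apply Int.ediv_lt_of_lt_mul hG
    linarith
  have h4 : u - 1 ≤ H / G := by
    apply Int.le_ediv_of_mul_le hG
    linarith
  omega

lemma dio3 {u s : ℤ} (hu : 4 ≤ u) (hs : 0 < s)
    (h : u^2*(s^2 - 3^2*(3-1)*s + 3^4) = u*(3*(3+1)*((2*3-1)*s - 3^2)) + 3^2*(3+1)*s) : False := by
  have h1 : u*(s-9)^2 ≤ 69*s-108 := by
    by_contra hc
    push Not at hc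
    nlinarith [mul_pos (by omega : 0 < u) (by linarith : 0 < u*(s-9)^2 - (69*s-108)),
      mul_nonneg (by omega : 0 ≤ u - 4) hs.le]
  have hs31 : s ≤ 31 := by
    by_contra hc
    push Not at hc
    nlinarith [mul_nonneg (by omega : 0 ≤ u - 4) (sq_nonneg (s-9))]
  by_cases h5 : s ≤ 4
  · have hu7 : u ≤ 7 := by
      nlinarith [mul_nonneg (by omega : 0 ≤ u) (by nlinarith : 0 ≤ (s-9)^2 - 25)]
    interval_cases s <;> interval_cases u <;> omega
  obtain ⟨hG, hq⟩ := dio_cand (by omega) (by omega) (by omega) h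
  clear hu h1
  subst hq
  push Not at h5
  interval_cases s <;> norm_num at h

lemma dio4 {u s : ℤ} (hu : 5 ≤ u) (hs : 0 < s)
    (h : u^2*(s^2 - 4^2*(4-1)*s + 4^4) = u*(4*(4+1)*((2*4-1)*s - 4^2)) + 4^2*(4+1)*s) : False := by
  have h1 : u*(s^2-48*s+256) ≤ 156*s-320 := by
    by_contra hc
    push Not at hc
    nlinarith [mul_pos (by omega : 0 < u) (by linarith : 0 < u*(s^2-48*s+256) - (156*s-320)),
      mul_nonneg (by omega : 0 ≤ u - 5) hs.le]
  have hs74 : s ≤ 80 := by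
    by_contra hc
    push Not at hc
    nlinarith [mul_nonneg (by omega : 0 ≤ u - 5) (by nlinarith : 0 ≤ s^2-48*s+256)]
  by_cases h5 : s ≤ 5
  · have h6 : s^2-48*s+256 ≥ 41 := by nlinarith
    have hu10 : u ≤ 20 := by nlinarith
    interval_cases s <;> interval_cases u <;> omega
  obtain ⟨hG, hq⟩ := dio_cand (by omega) (by omega) (by omega) h
  clear hu h1
  subst hq
  push Not at h5
  interval_cases s <;> norm_num at h


/-- z is large -/
lemma dio_z {m u z : ℤ} (hm : 2 ≤ m) (hu : m + 1 ≤ u)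
    (hE : (m+1)*z*(m*(u+1)^2 - u*(z+1)) = m^2*(u+1)^2*u) : u + 1 ≤ z := by
  by_contra hc
  push Not at hc
  have hzu : 0 ≤ u - z := by omega
  have h1 : 0 ≤ m*(u+1)^2 - u*(u+z+1) := by
    nlinarith [mul_nonneg (by omega : 0 ≤ m - 2) (sq_nonneg (u+1)), mul_nonneg hzu (by omega : 0 ≤ u)]
  have h2 := mul_nonneg hzu h1
  have h3 : (m+1)*(u*(m*(u+1)^2 - u*(u+1))) < m^2*(u+1)^2*u := by
    have : m^2*(u+1)^2*u - (m+1)*(u*(m*(u+1)^2 - u*(u+1))) = u*(u+1)*(u-m) := by ring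
    have h4 : 0 < u*(u+1)*(u-m) := by
      apply mul_pos (mul_pos (by omega) (by omega)) (by omega)
    linarith
  have h5 : (m+1)*(u*(m*(u+1)^2 - u*(u+1))) - (m+1)*z*(m*(u+1)^2 - u*(z+1)) =
      (m+1)*((u-z)*(m*(u+1)^2 - u*(u+z+1))) := by ring
  have h6 : 0 ≤ (m+1)*((u-z)*(m*(u+1)^2 - u*(u+z+1))) := mul_nonneg (by omega) h2
  linarith

lemma dio_s {m u z s : ℤ} (hm : 2 ≤ m) (hu : m + 1 ≤ u) (hz : u + 1 ≤ z)
    (h1 : (u+1)^2*s = (m+1)*z*(z+1)) : m + 2 ≤ s := by
  by_contra hc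
  push Not at hc
  have h2 : (u+1)^2*s ≤ (u+1)^2*(m+1) := mul_le_mul_of_nonneg_left (by omega) (sq_nonneg _)
  have h3 : (u+1)*(u+2) ≤ z*(z+1) := mul_le_mul hz (by omega) (by omega) (by omega)
  have h4 : (m+1)*((u+1)*(u+2)) ≤ (m+1)*(z*(z+1)) := mul_le_mul_of_nonneg_left h3 (by omega)
  nlinarith

/-- Case A -/
lemma dio_caseA {m u z s : ℤ} (hm : 5 ≤ m) (hu : m + 1 ≤ u) (hs : m + 2 ≤ s)
    (h2 : u*(s+m^2) = m*(m+1)*z)
    (hq : u^2*(s^2 - m^2*(m-1)*s + m^4) = u*(m*(m+1)*((2*m-1)*s - m^2)) + m^2*(m+1)*s)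
    (hA : 2*z ≤ m*u+2*m-1) : False := by
  have hS : 2*s ≤ m^3+m^2-m := by
    have h3 : 2*(u*(s+m^2)) ≤ m*(m+1)*(m*u+2*m-1) := by
      rw [h2]
      have := mul_le_mul_of_nonneg_left hA (by positivity : 0 ≤ m*(m+1))
      linarith
    have h4 : m*(2*m-1)*(m+1) ≤ m*(2*m-1)*u := mul_le_mul_of_nonneg_left hu
      (mul_nonneg (by omega) (by omega))
    have h5 : u*(2*s) ≤ u*(m^3+m^2-m) := by nlinarith
    exact le_of_mul_le_mul_left h5 (by omega)
  have hG : s^2 - m^2*(m-1)*s + m^4 < 0 := by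
    have h3 : 0 ≤ (s - (m+2)) * (m^3+m^2-m - 2*s) := mul_nonneg (by omega) (by omega)
    have h4 : 2*(s^2 - m^2*(m-1)*s + m^4) = -((s - (m+2)) * (m^3+m^2-m - 2*s)) +
      (s*(m^3+m^2-m + 2*(m+2) - 2*m^2*(m-1)) - (m+2)*(m^3+m^2-m) + 2*m^4) := by ring
    have h5 : s*(m^3+m^2-m + 2*(m+2) - 2*m^2*(m-1)) ≤
        (m+2)*(m^3+m^2-m + 2*(m+2) - 2*m^2*(m-1)) := by
      apply mul_le_mul_of_nonpos_right hs
      nlinarith [sq_nonneg (m-5), mul_nonneg (by omega : 0 ≤ m-5) (sq_nonneg m)]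
    have h6 : (m+2)*(m^3+m^2-m + 2*(m+2) - 2*m^2*(m-1)) - (m+2)*(m^3+m^2-m) + 2*m^4 < 0 := by
      nlinarith [sq_nonneg (m-5), mul_nonneg (by omega : 0 ≤ m-5) (sq_nonneg m)]
    linarith
  have h7 : 0 < u*(m*(m+1)*((2*m-1)*s - m^2)) + m^2*(m+1)*s := by
    have h8 : 0 < (2*m-1)*s - m^2 := by nlinarith [mul_le_mul_of_nonneg_left hs (by omega : 0 ≤ 2*m-1)]
    have : 0 < u := by omega
    have : 0 < m := by omega
    have : 0 < s := by omega
    positivity
  have h9 : u^2*(s^2 - m^2*(m-1)*s + m^4) ≤ 0 := mul_nonpos_of_nonneg_of_nonpos (sq_nonneg _) hG.le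
  linarith


lemma dio_y {m u y : ℤ} (hm : 2 ≤ m) (hu : m + 1 ≤ u)
    (hE : (m+1)*(m*u+2*m-1-y)*(u*y+m) = m^2*(u+1)^2*u) : u ≤ y := by
  by_contra hc
  push Not at hc
  have h1 : 0 ≤ u - 1 - y := by omega
  have h2 : 0 ≤ u*(m*u+2*m-1) - m - u*(u-1+y) := by
    nlinarith [mul_nonneg (by omega : 0 ≤ m - 2) (mul_self_nonneg u),
      mul_nonneg h1 (by omega : 0 ≤ u), mul_nonneg (by omega : 0 ≤ m - 2) (by omega : 0 ≤ u)]
  have h3 := mul_nonneg (by omega : 0 ≤ m + 1) (mul_nonneg h1 h2)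
  have h4 : (m+1)*((m-1)*u+2*m)*(u*(u-1)+m) < m^2*(u+1)^2*u := by
    have e : m^2*(u+1)^2*u - (m+1)*((m-1)*u+2*m)*(u*(u-1)+m) =
      (u-m)*(u^2+(m^2-m-1)*u+2*m^2+2*m) := by ring
    have h5 : 0 < (u-m)*(u^2+(m^2-m-1)*u+2*m^2+2*m) := by
      apply mul_pos (by omega)
      have : 0 ≤ (m^2-m-1)*u := mul_nonneg (by nlinarith) (by omega)
      nlinarith
    linarith
  have h6 : (m+1)*((m-1)*u+2*m)*(u*(u-1)+m) - (m+1)*(m*u+2*m-1-y)*(u*y+m) =
      (m+1)*((u - 1 - y)*(u*(m*u+2*m-1) - m - u*(u-1+y))) := by ring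
  linarith

lemma dio_j {m u y : ℤ} (hm : 5 ≤ m) (hu : m + 1 ≤ u)
    (hE : (m+1)*(m*u+2*m-1-y)*(u*y+m) = m^2*(u+1)^2*u) (hB : 2*y ≤ m*u+2*m-1) :
    m*(m+1)*(y-u) < 2*u := by
  by_contra hc
  push Not at hc
  obtain ⟨N, hN⟩ : ∃ N, N = m*(m+1) := ⟨_, rfl⟩
  have hN0 : 0 < N := by rw [hN]; nlinarith
  have hN30 : 30 ≤ N := by rw [hN]; nlinarith
  have hu0 : 0 < u := by omega
  have h1 : 0 ≤ N*y - (N+2)*u := by rw [← hN] at hc; linarith
  have h2 : 0 ≤ u*(N*(m*u+2*m-1)) - m*N - u*(N*y+(N+2)*u) := by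
    have h3 : u*(N*(2*y)) ≤ u*(N*(m*u+2*m-1)) :=
      mul_le_mul_of_nonneg_left (mul_le_mul_of_nonneg_left hB hN0.le) hu0.le
    have h4 : 0 ≤ u^2*(N*(m-5)) := by
      have : 0 ≤ m - 5 := by omega
      positivity
    have h5 : m*N*1 ≤ m*N*u := mul_le_mul_of_nonneg_left (by omega) (by positivity)
    have h6 : 0 ≤ u^2*(N-30) := mul_nonneg (sq_nonneg _) (by omega)
    nlinarith [mul_nonneg hN0.le hu0.le, sq_nonneg u, mul_nonneg (mul_nonneg hN0.le hu0.le) (by omega : 0 ≤ m-5)]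
  have h3 := mul_nonneg (by omega : 0 ≤ m + 1) (mul_nonneg h1 h2)
  have h4 : N^2*(m^2*(u+1)^2*u) < (m+1)*((N*(m*u+2*m-1)-(N+2)*u)*(u^2*(N+2)+m*N)) := by
    have c3 : 0 < (m+1)*(N*(m-4)-4) := by
      apply mul_pos (by omega); nlinarith
    have c2 : 0 < N*(N*(m-1)+2*(2*m^2+m-1)) := by
      apply mul_pos hN0; nlinarith
    have c1 : 0 < N^2*(m^3-m-2-m^2) := by
      apply mul_pos (by positivity)
      nlinarith [mul_nonneg (by omega : 0 ≤ m-5) (sq_nonneg m), sq_nonneg (m-5)]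
    have c0 : 0 < N^2*((m+1)*((2*m-1)*m)) := by
      apply mul_pos (by positivity)
      apply mul_pos (by omega)
      apply mul_pos (by omega) (by omega)
    have e : (m+1)*((N*(m*u+2*m-1)-(N+2)*u)*(u^2*(N+2)+m*N)) - N^2*(m^2*(u+1)^2*u) =
      u^3*((m+1)*(N*(m-4)-4)) + u^2*(N*(N*(m-1)+2*(2*m^2+m-1))) + u*(N^2*(m^3-m-2-m^2)) +
        N^2*((m+1)*((2*m-1)*m)) := by
      rw [hN]; ring
    have : 0 < u^3*((m+1)*(N*(m-4)-4)) + u^2*(N*(N*(m-1)+2*(2*m^2+m-1))) + u*(N^2*(m^3-m-2-m^2)) +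
        N^2*((m+1)*((2*m-1)*m)) := by positivity
    linarith
  have h5 : N^2*((m+1)*(m*u+2*m-1-y)*(u*y+m)) -
      (m+1)*((N*(m*u+2*m-1)-(N+2)*u)*(u^2*(N+2)+m*N)) =
      (m+1)*((N*y - (N+2)*u)*(u*(N*(m*u+2*m-1)) - m*N - u*(N*y+(N+2)*u))) := by ring
  rw [hE] at h5
  linarith

lemma dio_q0 {u B C : ℤ} (hu0 : 0 < u) (h3 : u*u = u*B + C) (h4 : 0 < C) (h5 : C < B) : False := by
  have h6 : B < u := by
    by_contra hc
    push Not at hc
    have := mul_le_mul_of_nonneg_left hc hu0.le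
    linarith
  have h7 := mul_le_mul_of_nonneg_left (by omega : 1 ≤ u - B) hu0.le
  have h8 : u*(u-B) = C := by linear_combination h3
  linarith

lemma dio_cub {u A2 A1 A0 : ℤ} (hu0 : 0 < u) (h : u^3 = A2*u^2 + A1*u + A0) (h1 : 0 < A1)
    (h0 : 0 < A0) : A2 < u := by
  by_contra hc
  push Not at hc
  have h3 : u*u^2 ≤ A2*u^2 := mul_le_mul_of_nonneg_right hc (sq_nonneg _)
  have h4 : 0 < A1*u := mul_pos h1 hu0
  have h5 : u*u^2 = u^3 := by ring
  linarith

lemma dio_j0 {m u q : ℤ} (hm : 5 ≤ m) (hu : m + 1 ≤ u) (hq2 : q = 2*m-1)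
    (hcub : u^3 = ((m+1)*((m-2)*0)+ (m-1))*u^2 + ((m+1)*(m*(m-1)+q*0)-m^2)*u + m*(m+1)*q)
    {c : ℤ} (hc : (m-0)*(m+1-0) = (u+1)*c) : False := by
  have hN0 : 0 < m*(m+1) := by nlinarith
  have hc1 : (u+1)*c = m*(m+1) := by rw [← hc]; ring
  have hc0 : 0 < c := by
    have : 0 < (u+1)*c := by rw [hc1]; exact hN0
    exact pos_of_mul_pos_right this (by omega) |> fun h => h
  have hkc : (u+1)^2 - (m+2)*(u+1) = (m+1)*(m^2-2*m-1+c) := by
    have h0 : (u+1) ≠ 0 := by omega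
    apply mul_left_cancel₀ h0
    rw [hq2] at hcub
    linear_combination hcub - (m+1)*hc1
  have h3 : m*((u+1)-m-2) = c*(m^2-2*m-1+c) := by
    have h0 : (m+1) ≠ 0 := by omega
    apply mul_left_cancel₀ h0
    linear_combination c*hkc - (u+1-(m+2))*hc1
  have h4 : m ∣ c*(c-1) := ⟨(u+1)-m-2 - c*(m-2), by linear_combination -h3⟩
  rcases eq_or_lt_of_le (by omega : 1 ≤ c) with hc2 | hc2
  · subst hc2
    nlinarith
  · have h5 : m ≤ c*(c-1) := Int.le_of_dvd (mul_pos hc0 (by omega)) h4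
    have h6 : m^2*(m+1) - m*(m+2)*c = c^2*(m^2-2*m-1) + c^3 := by
      linear_combination c*h3 - m*hc1
    have hm2 : 0 ≤ m^2-2*m-1 := by nlinarith
    have h7 : (m+c)*(m^2-2*m-1) ≤ c^2*(m^2-2*m-1) := by
      apply mul_le_mul_of_nonneg_right (by linarith [sq c, (by ring : c*(c-1) = c^2 - c)]) hm2
    have h8 : 0 < c^3 := by positivity
    have h9 : 2*(2*m^2-1) ≤ c*(2*m^2-1) := mul_le_mul_of_nonneg_right (by omega) (by nlinarith)
    nlinarith

lemma dio_jm {m u v : ℤ} (hm : 5 ≤ m) (hu0 : 0 < u)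
    (hcub : u^3 = ((m+1)*((m-2)*m)+ (m-1))*u^2 + ((m+1)*(m*(m-1)+(m-1)*m)-m^2)*u + m*(m+1)*(m-1))
    (hv1 : u*v = m*(m+1)*(m-1)) (hA2 : (m+1)*((m-2)*m)+ (m-1) < u) : False := by
  have hj3 : 0 ≤ (m-5)*m^2 := mul_nonneg (by omega) (sq_nonneg _)
  have hj2' : 0 ≤ (m-5)*m := mul_nonneg (by omega) (by omega)
  have hv0 : 0 < v := by
    have : 0 < u*v := by rw [hv1]; exact mul_pos (mul_pos (by omega) (by omega)) (by omega)
    exact pos_of_mul_pos_right this hu0.le |> fun h => h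
  have hv2 : v < 2 := by
    by_contra hc
    push Not at hc
    have := mul_le_mul_of_nonneg_left hc hu0.le
    rw [hv1] at this
    linarith
  have hv3 : v = 1 := by omega
  rw [hv3, mul_one] at hv1
  have h3 : u*(m^2+1) = (2*m^3-m^2-2*m) + 1 := by
    have h0 : u ≠ 0 := by omega
    apply mul_left_cancel₀ h0
    have e1 : u - ((m+1)*((m-2)*m)+ (m-1)) = m^2+1 := by rw [hv1]; ring
    rw [← e1]
    linear_combination hcub - hv1
  rw [hv1] at h3
  have h4 : 0 ≤ (m-5)*m^2*m^2 := mul_nonneg hj3 (sq_nonneg _)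
  have h5 : 0 ≤ (m-5)*m^2*m := mul_nonneg hj3 (by omega)
  linarith

/-- Case B -/
lemma dio_caseB {m u z s : ℤ} (hm : 5 ≤ m) (hu : m + 1 ≤ u)
    (hE : (m+1)*z*(m*(u+1)^2 - u*(z+1)) = m^2*(u+1)^2*u)
    (h2 : u*(s+m^2) = m*(m+1)*z) (hK : (u+1) ∣ z*(z+1))
    (hB : m*u+2*m-1 ≤ 2*z) : False := by
  obtain ⟨y, hy⟩ : ∃ y, y = m*u+2*m-1-z := ⟨_, rfl⟩
  have hzy : z = m*u+2*m-1-y := by omega
  have hEy : (m+1)*(m*u+2*m-1-y)*(u*y+m) = m^2*(u+1)^2*u := by
    rw [← hE, hy]; ring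
  have hyu := dio_y (by omega) hu hEy
  have hj := dio_j hm hu hEy (by omega)
  obtain ⟨j, hj'⟩ : ∃ j, j = y - u := ⟨_, rfl⟩
  obtain ⟨q, hq'⟩ : ∃ q, q = 2*m-1-j := ⟨_, rfl⟩
  rw [← hj'] at hj
  have hj0 : 0 ≤ j := by omega
  have hz : z = (m-1)*u+q := by rw [hzy, hq', hj']; ring
  have hu0 : 0 < u := by omega
  have hN0 : 0 < m*(m+1) := by nlinarith
  have hcub : u^3 = ((m+1)*((m-2)*j)+ (m-1))*u^2 + ((m+1)*(m*(m-1)+q*j)-m^2)*u + m*(m+1)*q := by
    rw [hz] at hE
    have e : j = 2*m-1-q := by omega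
    rw [e]
    linear_combination -hE
  obtain ⟨v, hv⟩ : ∃ v, u*v = m*(m+1)*q := ⟨s+m^2-m*(m+1)*(m-1), by rw [hz] at h2; linear_combination h2⟩
  rcases lt_trichotomy q 0 with hq | hq | hq
  ·
    obtain ⟨J, hJ⟩ : ∃ J, J = -q := ⟨_, rfl⟩
    have hJ0 : 0 < J := by omega
    have hv1 : u*(-v) = m*(m+1)*J := by rw [hJ]; linear_combination -hv
    have hjJ : j = 2*m-1+J := by omega
    have hv2 : -v < 2 := by
      have : u*(-v) < u*2 := by
        rw [hv1]
        rw [hjJ] at hj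
        nlinarith
      exact lt_of_mul_lt_mul_left this hu0.le
    have hv3 : 0 < -v := by
      have : 0 < u*(-v) := by rw [hv1]; positivity
      exact pos_of_mul_pos_right this hu0.le |> fun h => h
    have hv4 : -v = 1 := by omega
    rw [hv4, mul_one] at hv1
    have hzJ : z = J*((m-1)*m*(m+1)-1) := by rw [hz, hv1, hJ]; ring
    have hw : m*(u+1)^2 - u*(z+1) = u*(u+j) + m := by
      rw [hz, hq']; ring
    have hE2 : ((m-1)*m*(m+1)-1)*(u*(u+j)+m) = m^3*(u+1)^2 := by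
      have h0 : (m+1)*J ≠ 0 := by positivity
      apply mul_left_cancel₀ h0
      rw [hw, hzJ] at hE
      have : (m+1)*J*(m^3*(u+1)^2) = m^2*(u+1)^2*(m*(m+1)*J) := by ring
      rw [this, ← hv1, ← hE]; ring
    have hd : (m+1) ∣ 2 := by
      refine ⟨m^4*J*(u+2) + (m^2-m+1) + 1 - ((m-1)*m*(u*(u+j)+m) - m*J*(u+j)), ?_⟩
      have e1 : (u*(u+j)+m) = (m+1)*(m*J*(u+j)) + m := by
        nth_rewrite 1 [hv1]; ring
      have e2 : m^3*(u+1)^2 = m^3 + (m+1)*(m^4*J*(u+2)) := by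
        have : m^3*(u+1)^2 = m^3 + m^3*(u*(u+2)) := by ring
        rw [this]
        nth_rewrite 1 [hv1]; ring
      rw [e2] at hE2
      have e3 : ((m-1)*m*(m+1)-1)*(u*(u+j)+m) = (m+1)*((m-1)*m*(u*(u+j)+m)) - (u*(u+j)+m) := by ring
      rw [e3] at hE2
      linear_combination hE2 + e1
    have := Int.le_of_dvd (by norm_num) hd
    omega
  ·
    subst hq
    have hj1 : j = 2*m-1 := by omega
    have h3 : u*u = u*(2*m^3-3*m^2-2*m+1) + (m^3-m^2-m) := by
      have h0 : u ≠ 0 := by omega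
      apply mul_left_cancel₀ h0
      rw [hj1] at hcub
      linear_combination hcub
    have hm3 : 0 ≤ (m-5)*m^2 := mul_nonneg (by omega) (sq_nonneg _)
    have hm2 : 0 ≤ (m-5)*m := mul_nonneg (by omega) (by omega)
    have h4 : 0 < m^3-m^2-m := by linarith
    have h5 : m^3-m^2-m < 2*m^3-3*m^2-2*m+1 := by linarith
    exact dio_q0 hu0 h3 h4 h5
  ·
    have hj2 : j ≤ 2*m-2 := by omega
    have hqj : 0 ≤ q*j := mul_nonneg hq.le hj0
    have hA1 : 0 < (m+1)*(m*(m-1)+q*j)-m^2 := by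
      nlinarith [mul_nonneg (by omega : 0 ≤ m+1) hqj, mul_nonneg (by omega : 0 ≤ m - 5) (sq_nonneg m)]
    have hA2 : (m+1)*((m-2)*j)+ (m-1) < u := dio_cub hu0 hcub hA1 (mul_pos hN0 hq)
    have hKd : (u+1) ∣ (m-j)*(m+1-j) := by
      have e : z*(z+1) = (m-j)*(m+1-j) + (u+1)*((m-1)*(z + (m+1-j))) := by
        have e1 : z = (m-1)*(u+1) + (m-j) := by rw [hz, hq']; ring
        have e2 : z + 1 = (m-1)*(u+1) + (m+1-j) := by rw [e1]; ring
        calc z*(z+1) = z*((m-1)*(u+1) + (m+1-j)) := by rw [← e2]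
          _ = (m-1)*(u+1)*z + z*(m+1-j) := by ring
          _ = (m-1)*(u+1)*z + ((m-1)*(u+1) + (m-j))*(m+1-j) := by rw [← e1]
          _ = _ := by ring
      rw [e] at hK
      exact (Int.dvd_add_left (Dvd.intro _ rfl)).1 hK
    have hmm : 0 ≤ (m+1)*(m-2) := mul_nonneg (by omega) (by omega)
    rcases lt_trichotomy j m with hjm | hjm | hjm
    · rcases eq_or_lt_of_le hj0 with hj00 | hj00
      ·
        subst hj00
        obtain ⟨c, hc⟩ := hKd
        exact dio_j0 hm hu (by omega) hcub hc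
      ·
        have h3 : 0 < (m-j)*(m+1-j) := mul_pos (by omega) (by omega)
        have h4 := Int.le_of_dvd h3 hKd
        have h5 : (m-j)*(m+1-j) ≤ (m-1)*m := mul_le_mul (by omega) (by omega) (by omega) (by omega)
        have h6 : (m+1)*(m-2)*1 ≤ (m+1)*(m-2)*j := mul_le_mul_of_nonneg_left (by omega) hmm
        linarith
    ·
      have hq2 : q = m - 1 := by omega
      rw [hq2, hjm] at hcub
      rw [hjm] at hA2
      rw [hq2] at hv
      exact dio_jm hm hu0 hcub hv hA2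
    · rcases eq_or_lt_of_le (by omega : m + 1 ≤ j) with hj1 | hj1
      ·
        have hq2 : q = m - 2 := by omega
        have hj3 : 0 ≤ (m-5)*m^2 := mul_nonneg (by omega) (sq_nonneg _)
        have hj2' : 0 ≤ (m-5)*m := mul_nonneg (by omega) (by omega)
        have hv0 : 0 < v := by
          have : 0 < u*v := by rw [hv]; exact mul_pos hN0 (by omega)
          exact pos_of_mul_pos_right this hu0.le |> fun h => h
        have h3 : u*1 ≤ u*v := mul_le_mul_of_nonneg_left (by omega) hu0.le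
        rw [hv, hq2] at h3
        rw [← hj1] at hA2
        linarith
      ·
        have h3 : 0 < (m-j)*(m+1-j) := by
          have : (m-j)*(m+1-j) = (j-m)*(j-m-1) := by ring
          rw [this]
          exact mul_pos (by omega) (by omega)
        have h4 := Int.le_of_dvd h3 hKd
        have h5 : (m-j)*(m+1-j) ≤ (m-1)*m := by
          have : (m-j)*(m+1-j) = (j-m)*(j-m-1) := by ring
          rw [this]
          calc (j-m)*(j-m-1) ≤ (m-1)*(j-m-1) := mul_le_mul_of_nonneg_right (by omega) (by omega)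
            _ ≤ (m-1)*m := mul_le_mul_of_nonneg_left (by omega) (by omega)
        have h6 : (m+1)*(m-2)*1 ≤ (m+1)*(m-2)*j := mul_le_mul_of_nonneg_left (by omega) hmm
        linarith

theorem dio_main {m u z : ℤ} (hm : 1 ≤ m) (hu : m ≤ u) (hz : 1 ≤ z)
    (hE : (m+1)*z*(m*(u+1)^2 - u*(z+1)) = m^2*(u+1)^2*u) (hK : (u+1) ∣ z*(z+1)) : u = m := by
  by_contra hne
  have hu' : m + 1 ≤ u := by omega
  obtain ⟨s, hs, h1, h2⟩ := dio_st hm (by omega) hz hE
  have hq := dio_quad h1 h2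
  rcases le_or_gt m 4 with h4 | h4
  · interval_cases m
    · exact dio1 (by omega) hs hq
    · exact dio2 (by omega) hs hq
    · exact dio3 (by omega) hs hq
    · exact dio4 (by omega) hs hq
  · have hz1 := dio_z (by omega) hu' hE
    have hs1 := dio_s (by omega) hu' hz1 h1
    rcases le_total (2*z) (m*u+2*m-1) with hA | hB
    · exact dio_caseA (by omega) hu' hs1 h2 hq hA
    · exact dio_caseB (by omega) hu' hE h2 hK hB

theorem dio_final {m z : ℤ} (hm : 1 ≤ m)
    (hE : (m+1)*z*(m*(m+1)^2 - m*(z+1)) = m^2*(m+1)^2*m) : z = m ∨ z = m^2 + m := by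
  have h0 : m*(m+1) ≠ 0 := by nlinarith
  have : (z-m)*(z-(m^2+m)) = 0 := by
    apply mul_left_cancel₀ h0
    linear_combination -hE
  rcases mul_eq_zero.1 this with h | h
  · left; omega
  · right; omega

end PMD

namespace PMD

open Finset

section dc

variable {α : Type} [DecidableEq α]

lemma dc (F : Finset α) (B : Finset (Finset α)) :
    ∑ p ∈ F, (B.filter (fun Q => p ∈ Q)).card = ∑ Q ∈ B, (F ∩ Q).card := by
  have := Finset.sum_card_bipartiteAbove_eq_sum_card_bipartiteBelow (s := F) (t := B)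
    (fun p Q => p ∈ Q)
  simp only [Finset.bipartiteAbove, Finset.bipartiteBelow, Finset.filter_mem_eq_inter] at this
  exact this

lemma dcw (F : Finset α) (B : Finset (Finset α)) (g : Finset α → ℕ) :
    ∑ p ∈ F, ∑ Q ∈ B.filter (fun Q => p ∈ Q), g Q = ∑ Q ∈ B, (F ∩ Q).card * g Q := by
  rw [Finset.sum_comm' (s' := fun Q => F ∩ Q) (t' := B)]
  · apply Finset.sum_congr rfl
    intro Q _
    rw [Finset.sum_const, smul_eq_mul]
  · intro p Q
    simp only [mem_filter, mem_inter]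
    tauto

lemma dc1 {S : Finset α} {B : Finset (Finset α)} {k x : ℕ} (hs : ∀ Q ∈ B, Q ⊆ S)
    (hk : ∀ Q ∈ B, Q.card = k)
    (hx : ∀ p ∈ S, ∀ q ∈ S, p ≠ q → (B.filter (fun Q => p ∈ Q ∧ q ∈ Q)).card = x)
    {p : α} (hp : p ∈ S) : (B.filter (fun Q => p ∈ Q)).card * (k - 1) = x * (S.card - 1) := by
  have h1 := dc (S.erase p) (B.filter (fun Q => p ∈ Q))
  have h2 : ∑ q ∈ S.erase p, ((B.filter (fun Q => p ∈ Q)).filter (fun Q => q ∈ Q)).card =
      x * (S.card - 1) := by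
    rw [Finset.sum_congr rfl (g := fun _ => x), Finset.sum_const, card_erase_of_mem hp,
      smul_eq_mul, mul_comm]
    intro q hq
    rw [Finset.filter_filter]
    exact hx p hp q (mem_of_mem_erase hq) (ne_of_mem_erase hq).symm
  have h3 : ∑ Q ∈ B.filter (fun Q => p ∈ Q), (S.erase p ∩ Q).card =
      (B.filter (fun Q => p ∈ Q)).card * (k - 1) := by
    rw [Finset.sum_congr rfl (g := fun _ => k - 1), Finset.sum_const, smul_eq_mul]
    intro Q hQ
    rw [mem_filter] at hQ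
    rw [← hk Q hQ.1, ← card_erase_of_mem hQ.2]
    congr 1
    ext y
    simp only [mem_inter, mem_erase]
    constructor
    · rintro ⟨⟨h1, h2⟩, h3⟩; exact ⟨h1, h3⟩
    · rintro ⟨h1, h3⟩; exact ⟨⟨h1, hs Q hQ.1 h3⟩, h3⟩
  rw [← h3, ← h1, h2]

lemma dc2 {S F : Finset α} {B : Finset (Finset α)} {x : ℕ} (hF : F ⊆ S)
    (hx : ∀ p ∈ S, ∀ q ∈ S, p ≠ q → (B.filter (fun Q => p ∈ Q ∧ q ∈ Q)).card = x) :
    ∑ Q ∈ B, (F ∩ Q).card * ((F ∩ Q).card - 1) = F.card * ((F.card - 1) * x) := by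
  rw [← dcw, Finset.sum_congr rfl (g := fun _ => (F.card - 1) * x), Finset.sum_const, smul_eq_mul]
  intro p hp
  have h1 := dc (F.erase p) (B.filter (fun Q => p ∈ Q))
  have h2 : ∑ q ∈ F.erase p, ((B.filter (fun Q => p ∈ Q)).filter (fun Q => q ∈ Q)).card =
      (F.card - 1) * x := by
    rw [Finset.sum_congr rfl (g := fun _ => x), Finset.sum_const, card_erase_of_mem hp,
      smul_eq_mul]
    intro q hq
    rw [Finset.filter_filter]
    exact hx p (hF hp) q (hF (mem_of_mem_erase hq)) (ne_of_mem_erase hq).symm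
  rw [← h2, h1]
  apply Finset.sum_congr rfl
  intro Q hQ
  rw [mem_filter] at hQ
  rw [Finset.erase_inter, card_erase_of_mem (mem_inter.2 ⟨hp, hQ.2⟩)]

end dc

/-- the combinatorial data -/
structure LS {α : Type} [DecidableEq α] (E : Finset α) (Ls Ps : Finset (Finset α)) (l k : ℕ) :
    Prop where
  lsub : ∀ L ∈ Ls, L ⊆ E
  lcard : ∀ L ∈ Ls, L.card = l
  psub : ∀ Q ∈ Ps, Q ⊆ E
  pcard : ∀ Q ∈ Ps, Q.card = k
  l1 : ∀ a ∈ E, ∀ b ∈ E, a ≠ b → (Ls.filter (fun L => a ∈ L ∧ b ∈ L)).card = 1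
  p1 : ∀ L ∈ Ls, ∀ a ∈ E, a ∉ L → (Ps.filter (fun Q => L ⊆ Q ∧ a ∈ Q)).card = 1
  lp : ∀ L ∈ Ls, ∀ Q ∈ Ps, ∀ a ∈ L, ∀ b ∈ L, a ≠ b → a ∈ Q → b ∈ Q → L ⊆ Q
  pp : ∀ Q ∈ Ps, ∀ F ∈ Ps, Q ≠ F → (Q ∩ F).card = 1 ∨ (Q ∩ F).card = l
  l2 : 2 ≤ l
  lk : l < k
  kv : k < E.card
  pne : Ps.Nonempty

namespace LS

variable {α : Type} [DecidableEq α] {E : Finset α} {Ls Ps : Finset (Finset α)} {l k : ℕ}

/-- lines in a plane -/
lemma pl1 (h : LS E Ls Ps l k) {Q : Finset α} (hQ : Q ∈ Ps) : ∀ a ∈ Q, ∀ b ∈ Q, a ≠ b →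
    ((Ls.filter (fun L => L ⊆ Q)).filter (fun L => a ∈ L ∧ b ∈ L)).card = 1 := by
  intro a ha b hb hab
  rw [← h.l1 a (h.psub Q hQ ha) b (h.psub Q hQ hb) hab]
  congr 1
  ext L
  simp only [mem_filter]
  constructor
  · rintro ⟨⟨h1, h2⟩, h3⟩; exact ⟨h1, h3⟩
  · rintro ⟨h1, h3⟩; exact ⟨⟨h1, h.lp L h1 Q hQ a h3.1 b h3.2 hab ha hb⟩, h3⟩

lemma lines_on (h : LS E Ls Ps l k) {Q : Finset α} (hQ : Q ∈ Ps) {p : α} (hp : p ∈ Q) :
    ((Ls.filter (fun L => L ⊆ Q)).filter (fun L => p ∈ L)).card * (l - 1) = k - 1 := by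
  have := dc1 (S := Q) (B := Ls.filter (fun L => L ⊆ Q)) (k := l) (x := 1)
    (fun L hL => (mem_filter.1 hL).2) (fun L hL => h.lcard L (mem_filter.1 hL).1) (h.pl1 hQ) hp
  rw [this, one_mul, h.pcard Q hQ]

lemma line_uniq (h : LS E Ls Ps l k) {L L' : Finset α} (hL : L ∈ Ls) (hL' : L' ∈ Ls) {a b : α}
    (hab : a ≠ b) (ha : a ∈ L) (hb : b ∈ L) (ha' : a ∈ L') (hb' : b ∈ L') : L = L' := by
  have h1 := h.l1 a (h.lsub L hL ha) b (h.lsub L hL hb) hab
  rw [Finset.card_eq_one] at h1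
  obtain ⟨M, hM⟩ := h1
  have e1 : L ∈ ({M} : Finset (Finset α)) := by rw [← hM]; simp [hL, ha, hb]
  have e2 : L' ∈ ({M} : Finset (Finset α)) := by rw [← hM]; simp [hL', ha', hb']
  rw [mem_singleton] at e1 e2
  rw [e1, e2]

lemma exists_line (h : LS E Ls Ps l k) {a b : α} (ha : a ∈ E) (hb : b ∈ E) (hab : a ≠ b) :
    ∃ L ∈ Ls, a ∈ L ∧ b ∈ L := by
  have h1 := h.l1 a ha b hb hab
  rw [Finset.card_eq_one] at h1
  obtain ⟨M, hM⟩ := h1
  have : M ∈ Ls.filter (fun L => a ∈ L ∧ b ∈ L) := by rw [hM]; simp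
  rw [mem_filter] at this
  exact ⟨M, this.1, this.2⟩

/-- planes through a line -/
lemma planes_on (h : LS E Ls Ps l k) {L : Finset α} (hL : L ∈ Ls) :
    (Ps.filter (fun Q => L ⊆ Q)).card * (k - l) = E.card - l := by
  have h1 := dc (E \ L) (Ps.filter (fun Q => L ⊆ Q))
  have h2 : ∑ p ∈ E \ L, ((Ps.filter (fun Q => L ⊆ Q)).filter (fun Q => p ∈ Q)).card =
      E.card - l := by
    rw [Finset.sum_congr rfl (g := fun _ => 1), Finset.sum_const, smul_eq_mul, mul_one,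
      card_sdiff_of_subset (h.lsub L hL), h.lcard L hL]
    intro q hq
    rw [mem_sdiff] at hq
    rw [Finset.filter_filter]
    exact h.p1 L hL q hq.1 hq.2
  rw [← h2, h1, Finset.sum_congr rfl (g := fun _ => k - l), Finset.sum_const, smul_eq_mul]
  intro Q hQ
  rw [mem_filter] at hQ
  rw [← h.pcard Q hQ.1, ← h.lcard L hL, ← card_sdiff_of_subset hQ.2]
  congr 1
  ext y
  simp only [mem_inter, mem_sdiff]
  constructor
  · rintro ⟨⟨h1, h2⟩, h3⟩; exact ⟨h3, h2⟩
  · rintro ⟨h1, h3⟩; exact ⟨⟨h.psub Q hQ.1 h1, h3⟩, h1⟩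

lemma planes_pair (h : LS E Ls Ps l k) {L : Finset α} (hL : L ∈ Ls) {a b : α} (hab : a ≠ b)
    (ha : a ∈ L) (hb : b ∈ L) :
    (Ps.filter (fun Q => a ∈ Q ∧ b ∈ Q)).card = (Ps.filter (fun Q => L ⊆ Q)).card := by
  congr 1
  ext Q
  simp only [mem_filter]
  constructor
  · rintro ⟨h1, h2⟩; exact ⟨h1, h.lp L hL Q h1 a ha b hb hab h2.1 h2.2⟩
  · rintro ⟨h1, h2⟩; exact ⟨h1, h2 ha, h2 hb⟩

/-- off a line in a plane -/
lemma K_ge (h : LS E Ls Ps l k) {Q L : Finset α} (hQ : Q ∈ Ps) (hL : L ∈ Ls) (hLQ : L ⊆ Q)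
    {p : α} (hp : p ∈ Q) (hpL : p ∉ L) :
    l ≤ ((Ls.filter (fun L => L ⊆ Q)).filter (fun L => p ∈ L)).card ∧
    (((Ls.filter (fun L => L ⊆ Q)).filter (fun L => p ∈ L)).card = l →
      ∀ L' ∈ Ls, L' ⊆ Q → p ∈ L' → (L ∩ L').Nonempty) := by
  set T := (Ls.filter (fun L => L ⊆ Q)).filter (fun L => p ∈ L) with hT
  have h1 := dc L T
  have h2 : ∑ q ∈ L, (T.filter (fun L' => q ∈ L')).card = l := by
    rw [Finset.sum_congr rfl (g := fun _ => 1), Finset.sum_const, smul_eq_mul, mul_one,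
      h.lcard L hL]
    intro q hq
    rw [hT, Finset.filter_filter]
    exact h.pl1 hQ p hp q (hLQ hq) (by rintro rfl; exact hpL hq)
  have h3 : ∀ L' ∈ T, (L ∩ L').card ≤ 1 := by
    intro L' hL'
    rw [hT, mem_filter, mem_filter] at hL'
    rw [Finset.card_le_one]
    intro a ha b hb
    rw [mem_inter] at ha hb
    by_contra hab
    have := h.line_uniq hL hL'.1.1 hab ha.1 hb.1 ha.2 hb.2
    apply hpL
    rw [this]; exact hL'.2
  rw [h2] at h1
  have h4 : ∑ L' ∈ T, (L ∩ L').card ≤ ∑ L' ∈ T, 1 := Finset.sum_le_sum h3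
  have h5 : ∑ L' ∈ T, 1 = T.card := by simp
  refine ⟨by rw [h1, ← h5]; exact h4, ?_⟩
  intro hTl L' hL' hL'Q hpL'
  by_contra hne
  rw [Finset.not_nonempty_iff_eq_empty] at hne
  have hmem : L' ∈ T := by
    rw [hT, mem_filter, mem_filter]; exact ⟨⟨hL', hL'Q⟩, hpL'⟩
  have h6 : ∑ L' ∈ T, (L ∩ L').card < ∑ L' ∈ T, 1 := by
    apply Finset.sum_lt_sum h3
    exact ⟨L', hmem, by rw [hne]; simp⟩
  rw [h5, hTl, ← h1] at h6
  exact lt_irrefl _ h6

end LS

end PMD

namespace PMD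

open Finset

/-- the arithmetic of the parameters -/
lemma params {m u x r b k v : ℤ} (hm : 1 ≤ m) (hu : m ≤ u) (hx : 2 ≤ x)
    (hk : k = 1 + (u+1)*m) (hv : v = (m+1) + x*(k-(m+1)))
    (hr : r*(k-1) = x*(v-1)) (hb : b*k = v*r)
    (h6 : k*(k-1)*(x-1) + (m+1)*(b-1) = (m+1)*(k*(r-1))) :
    u = m ∧ (v = m^3+m^2+m+1 ∨ v = m^4+m^3+m^2+m+1) := by
  obtain ⟨z, hz⟩ : ∃ z, z = x - 1 := ⟨_, rfl⟩
  have hxz : x = z + 1 := by omega
  have hz1 : 1 ≤ z := by omega
  have hv' : v = k + z*m*u := by rw [hv, hk, hxz]; ring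
  have hi : r*(u+1) = x*(1+x*u) := by
    have hm0 : m ≠ 0 := by omega
    apply mul_left_cancel₀ hm0
    have e1 : k - 1 = (u+1)*m := by rw [hk]; ring
    have e2 : v - 1 = m + x*m*u := by rw [hv, hk]; ring
    rw [e1, e2] at hr
    linear_combination hr
  have hE : (m+1)*z*(m*(u+1)^2 - u*(z+1)) = m^2*(u+1)^2*u := by
    have h0 : m*z*u ≠ 0 := by
      have : 0 < m*z*u := mul_pos (mul_pos (by omega) (by omega)) (by omega)
      exact this.ne'
    apply mul_left_cancel₀ h0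
    have key : k*(u+1)*(k*(k-1)*(x-1) + (m+1)*(b-1)) = k*(u+1)*((m+1)*(k*(r-1))) := by rw [h6]
    have e3 : k*(u+1)*(k*(k-1)*(x-1) + (m+1)*(b-1)) = 
        k^2*(u+1)*(k-1)*(x-1) + (m+1)*((b*k)*(u+1) - k*(u+1)) := by ring
    have e4 : k*(u+1)*((m+1)*(k*(r-1))) = (m+1)*(k^2*(r*(u+1) - (u+1))) := by ring
    have e5 : (b*k)*(u+1) = v*(x*(1+x*u)) := by rw [hb, ← hi]; ring
    rw [e3, e4, e5, hi] at key
    rw [hv', hxz, hk] at key
    linear_combination -key
  have hK : (u+1) ∣ z*(z+1) := by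
    refine ⟨(z+1)^2 - r, ?_⟩
    rw [hxz] at hi
    linear_combination hi
  have hum := dio_main hm hu hz1 hE hK
  refine ⟨hum, ?_⟩
  rw [hum] at hE hv' hk
  rcases dio_final hm hE with h | h
  · left; rw [hv', hk, h]; ring
  · right; rw [hv', hk, h]; ring

namespace LS

variable {α : Type} [DecidableEq α] {E : Finset α} {Ls Ps : Finset (Finset α)} {l k : ℕ}

theorem main (h : LS E Ls Ps l k) :
    (∀ Q ∈ Ps, ∀ L ∈ Ls, L ⊆ Q → ∀ L' ∈ Ls, L' ⊆ Q → (L ∩ L').Nonempty) ∧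
    (E.card = (l-1)^3+(l-1)^2+(l-1)+1 ∨ E.card = (l-1)^4+(l-1)^3+(l-1)^2+(l-1)+1) ∧
    k = (l-1)*l + 1 := by
  have hl2 := h.l2
  have hlk := h.lk
  have hkv := h.kv
  obtain ⟨Q0, hQ0⟩ := h.pne
  have hQ0c := h.pcard Q0 hQ0
  obtain ⟨a, ha, b, hb, hab⟩ := Finset.one_lt_card.1 (by omega : 1 < Q0.card)
  obtain ⟨L0, hL0, haL, hbL⟩ := h.exists_line (h.psub Q0 hQ0 ha) (h.psub Q0 hQ0 hb) hab
  have hLQ : L0 ⊆ Q0 := h.lp L0 hL0 Q0 hQ0 a haL b hbL hab ha hb
  obtain ⟨p0, hp0, hp0L⟩ : ∃ p ∈ Q0, p ∉ L0 := by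
    have := h.lcard L0 hL0
    exact Finset.exists_mem_notMem_of_card_lt_card (by omega)
  set K := ((Ls.filter (fun L => L ⊆ Q0)).filter (fun L => p0 ∈ L)).card with hK
  have hKl := h.lines_on hQ0 hp0
  rw [← hK] at hKl
  have hKge := (h.K_ge hQ0 hL0 hLQ hp0 hp0L).1
  rw [← hK] at hKge
  set x := (Ps.filter (fun Q => L0 ⊆ Q)).card with hx
  have hxv := h.planes_on hL0
  rw [← hx] at hxv
  have hxL : ∀ L ∈ Ls, (Ps.filter (fun Q => L ⊆ Q)).card = x := by
    intro L hL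
    have := h.planes_on hL
    rw [← hxv] at this
    exact Nat.eq_of_mul_eq_mul_right (by omega) this
  have hxp : ∀ p ∈ E, ∀ q ∈ E, p ≠ q → (Ps.filter (fun Q => p ∈ Q ∧ q ∈ Q)).card = x := by
    intro p hp q hq hpq
    obtain ⟨L, hL, hpL, hqL⟩ := h.exists_line hp hq hpq
    rw [h.planes_pair hL hpq hpL hqL, hxL L hL]
  set r := (Ps.filter (fun Q => p0 ∈ Q)).card with hr
  have hrp : ∀ p ∈ E, (Ps.filter (fun Q => p ∈ Q)).card * (k - 1) = x * (E.card - 1) := by
    intro p hp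
    exact dc1 h.psub h.pcard hxp hp
  have hp0E := h.psub Q0 hQ0 hp0
  have hr0 := hrp p0 hp0E
  rw [← hr] at hr0
  have hrc : ∀ p ∈ E, (Ps.filter (fun Q => p ∈ Q)).card = r := by
    intro p hp
    have := hrp p hp
    rw [← hr0] at this
    exact Nat.eq_of_mul_eq_mul_right (by omega) this
  have hbk : Ps.card * k = E.card * r := by
    have := dc E Ps
    rw [Finset.sum_congr rfl (g := fun _ => r) hrc, Finset.sum_const, smul_eq_mul] at this
    rw [this, Finset.sum_congr rfl (g := fun _ => k), Finset.sum_const, smul_eq_mul]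
    intro Q hQ
    rw [Finset.inter_eq_right.2 (h.psub Q hQ), h.pcard Q hQ]
  have h6a : ∑ Q ∈ Ps, (Q0 ∩ Q).card = k * r := by
    rw [← dc, Finset.sum_congr rfl (g := fun _ => r), Finset.sum_const, smul_eq_mul, hQ0c]
    intro p hp; exact hrc p (h.psub Q0 hQ0 hp)
  have h6b : ∑ Q ∈ Ps, (Q0 ∩ Q).card * ((Q0 ∩ Q).card - 1) = k * ((k - 1) * x) := by
    rw [dc2 (h.psub Q0 hQ0) hxp, hQ0c]
  have h6c : ∑ Q ∈ Ps.erase Q0, ((Q0 ∩ Q).card * ((Q0 ∩ Q).card - 1) + l) =
      ∑ Q ∈ Ps.erase Q0, l * (Q0 ∩ Q).card := by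
    apply Finset.sum_congr rfl
    intro Q hQ
    rw [mem_erase] at hQ
    rcases h.pp Q0 hQ0 Q hQ.2 hQ.1.symm with h1 | h1
    · rw [h1]; omega
    · rw [h1]
      obtain ⟨m, rfl⟩ : ∃ m, l = m + 1 := ⟨l - 1, by omega⟩
      simp only [Nat.add_sub_cancel]; ring
  rw [Finset.sum_add_distrib, Finset.sum_const, smul_eq_mul, ← Finset.mul_sum,
    card_erase_of_mem hQ0] at h6c
  rw [← Finset.add_sum_erase _ _ hQ0, Finset.inter_self, hQ0c] at h6a h6b
  have hbpos : 1 ≤ Ps.card := Finset.card_pos.2 ⟨Q0, hQ0⟩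
  obtain ⟨m, hm⟩ : ∃ m, l = m + 1 := ⟨l - 1, by omega⟩
  have hx2 : 2 ≤ x := by
    by_contra hc
    have : x = 0 ∨ x = 1 := by omega
    rcases this with h1 | h1 <;> rw [h1] at hxv <;> omega
  have hkz : (k : ℤ) = 1 + (((K : ℤ) - 1) + 1) * m := by
    have : K * m = k - 1 := by rw [← hKl, hm]; rfl
    zify [(by omega : 1 ≤ k)] at this
    linarith
  have hvz : (E.card : ℤ) = ((m : ℤ) + 1) + x * (k - (m + 1)) := by
    rw [hm] at hxv
    zify [(by omega : m + 1 ≤ k), (by omega : m + 1 ≤ E.card)] at hxv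
    linarith
  have hrz : (r : ℤ) * (k - 1) = x * (E.card - 1) := by
    zify [(by omega : 1 ≤ k), (by omega : 1 ≤ E.card)] at hr0
    exact hr0
  have hbz : (Ps.card : ℤ) * k = E.card * r := by exact_mod_cast hbk
  have h6z : (k : ℤ)*(k-1)*(x-1) + (m+1)*(Ps.card-1) = (m+1)*(k*(r-1)) := by
    rw [hm] at h6c
    zify [(by omega : 1 ≤ k), hbpos] at h6a h6b h6c
    have e1 : (∑ i ∈ Ps.erase Q0, ((Q0 ∩ i).card : ℤ)) = k * r - k := by linarith
    have e2 : (∑ i ∈ Ps.erase Q0, ((Q0 ∩ i).card : ℤ) * (((Q0 ∩ i).card - 1 : ℕ) : ℤ)) =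
      k * ((k - 1) * x) - k * (k - 1) := by linarith
    rw [e1, e2] at h6c
    linear_combination h6c
  have hfin := params (m := m) (u := (K:ℤ) - 1) (x := x) (r := r) (b := Ps.card) (k := k)
    (v := E.card) (by omega) (by omega) (by omega) hkz hvz hrz hbz h6z
  have hKm : K = l := by omega
  refine ⟨?_, ?_, ?_⟩
  · intro Q hQ L hL hLQ L' hL' hL'Q
    by_cases hLL : L = L'
    · subst hLL
      rw [Finset.inter_self]
      exact Finset.card_pos.1 (by rw [h.lcard L hL]; omega)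
    obtain ⟨p, hpL', hpL⟩ : ∃ p ∈ L', p ∉ L := by
      by_contra hc
      push Not at hc
      apply hLL
      exact (Finset.eq_of_subset_of_card_le hc (by rw [h.lcard L hL, h.lcard L' hL'])).symm
    have hp := hL'Q hpL'
    apply (h.K_ge hQ hL hLQ hp hpL).2 ?_ L' hL' hL'Q hpL'
    have := h.lines_on hQ hp
    rw [← hKl, hKm] at this
    exact Nat.eq_of_mul_eq_mul_right (by omega) this
  · have hlm : l - 1 = m := by omega
    rw [hlm]
    rcases hfin.2 with h1 | h1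
    · left; exact_mod_cast h1
    · right; exact_mod_cast h1
  · rw [hKm] at hKl
    have : (l - 1) * l = k - 1 := by rw [← hKl, mul_comm]
    omega

end LS

end PMD

namespace PMD
namespace Mat

open Matroid

variable {α : Type} {M : Matroid α}

lemma flat_inter {A B : Set α} (hA : M.IsFlat A) (hB : M.IsFlat B) : M.IsFlat (A ∩ B) := by
  rw [isFlat_iff_closure_eq]
  apply subset_antisymm
  · have h1 := M.closure_subset_closure (Set.inter_subset_left : A ∩ B ⊆ A)
    have h2 := M.closure_subset_closure (Set.inter_subset_right : A ∩ B ⊆ B)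
    rw [hA.closure] at h1
    rw [hB.closure] at h2
    exact Set.subset_inter h1 h2
  · exact M.subset_closure _ (Set.inter_subset_left.trans hA.subset_ground)

lemma flat_eq [M.Finite] {F G : Set α} (hF : M.IsFlat F) (hG : M.IsFlat G) (hFG : F ⊆ G)
    (hr : M.eRk G ≤ M.eRk F) : F = G := by
  have := (M.isRkFinite_set F).closure_eq_closure_of_subset_of_eRk_ge_eRk hFG hr
  rwa [hF.closure, hG.closure] at this

lemma rk1 (h0 : M.IsFlat ∅) {a : α} (ha : a ∈ M.E) : M.eRk {a} = 1 := by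
  have := eRk_insert_eq_add_one (M := M) (e := a) (X := ∅) ⟨ha, by rw [h0.closure]; simp⟩
  simpa using this

lemma rk2 (h0 : M.IsFlat ∅) (h1 : ∀ e ∈ M.E, M.IsFlat {e}) {a b : α} (ha : a ∈ M.E)
    (hb : b ∈ M.E) (hab : a ≠ b) : M.eRk {a, b} = 2 := by
  have := eRk_insert_eq_add_one (M := M) (e := b) (X := {a}) ⟨hb, by
    rw [(h1 a ha).closure]; simpa using hab.symm⟩
  rw [rk1 h0 ha] at this
  rw [Set.pair_comm, this]; rfl

lemma line_eq [M.Finite] (h0 : M.IsFlat ∅) (h1 : ∀ e ∈ M.E, M.IsFlat {e}) {L : Set α}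
    (hL : M.IsFlat L) (hr : M.eRk L = 2) {a b : α} (ha : a ∈ L)
    (hb : b ∈ L) (hab : a ≠ b) : M.closure {a, b} = L := by
  have hs : ({a, b} : Set α) ⊆ L := by
    intro x hx
    rcases hx with rfl | hx
    · exact ha
    · rw [Set.mem_singleton_iff.1 hx]; exact hb
  apply flat_eq (isFlat_closure _) hL
  · have := M.closure_subset_closure hs
    rwa [hL.closure] at this
  · rw [eRk_closure_eq, rk2 h0 h1 (hL.subset_ground ha) (hL.subset_ground hb) hab, hr]

lemma ins_rk {L : Set α} (hL : M.IsFlat L) {n : ℕ∞} (hr : M.eRk L = n) {p : α} (hp : p ∈ M.E)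
    (hpL : p ∉ L) : M.eRk (insert p L) = n + 1 := by
  rw [← hr]
  exact eRk_insert_eq_add_one (M := M) (e := p) (X := L) ⟨hp, by rw [hL.closure]; exact hpL⟩

lemma plane_eq [M.Finite] {L Q : Set α} (hL : M.IsFlat L) (hr : M.eRk L = 2) (hQ : M.IsFlat Q)
    (hrQ : M.eRk Q = 3) {p : α} (hp : p ∈ Q) (hpL : p ∉ L) (hLQ : L ⊆ Q) :
    M.closure (insert p L) = Q := by
  apply flat_eq (isFlat_closure _) hQ
  · have := M.closure_subset_closure (Set.insert_subset hp hLQ)
    rwa [hQ.closure] at this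
  · rw [eRk_closure_eq, ins_rk hL hr (hQ.subset_ground hp) hpL, hrQ]; rfl

/-- rank at most 2 cases -/
lemma rk_cases {X : Set α} (hne : ∃ e ∈ X, M.eRk {e} = 1) (h3 : M.eRk X < 3) :
    M.eRk X = 1 ∨ M.eRk X = 2 := by
  obtain ⟨e, he, hre⟩ := hne
  have h1 : 1 ≤ M.eRk X := by
    rw [← hre]; exact M.eRk_mono (Set.singleton_subset_iff.2 he)
  generalize M.eRk X = y at h1 h3
  have hy : y ≠ ⊤ := by rintro rfl; simp at h3
  obtain ⟨n, rfl⟩ := ENat.ne_top_iff_exists.1 hy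
  have h1' : 1 ≤ n := by exact_mod_cast h1
  have h3' : n < 3 := by exact_mod_cast h3
  interval_cases n
  · left; rfl
  · right; rfl

lemma inter_planes [M.Finite] (h0 : M.IsFlat ∅) (h1 : ∀ e ∈ M.E, M.IsFlat {e})
    {Q F : Set α} (hQ : M.IsFlat Q) (hrQ : M.eRk Q = 3) (hF : M.IsFlat F) (hrF : M.eRk F = 3)
    (hQF : Q ≠ F) (hne : (Q ∩ F).Nonempty) :
    (Q ∩ F).ncard = 1 ∨ (M.IsFlat (Q ∩ F) ∧ M.eRk (Q ∩ F) = 2) := by
  have hfl := flat_inter hQ hF
  obtain ⟨e, he⟩ := hne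
  have heE := hQ.subset_ground he.1
  have h3 : M.eRk (Q ∩ F) < 3 := by
    by_contra hc
    push Not at hc
    apply hQF
    have e1 := flat_eq hfl hQ Set.inter_subset_left (by rw [hrQ]; exact hc)
    have e2 := flat_eq hfl hF Set.inter_subset_right (by rw [hrF]; exact hc)
    rw [← e1]; exact e2
  rcases rk_cases ⟨e, he, rk1 h0 heE⟩ h3 with h | h
  · left
    have := flat_eq (h1 e heE) hfl (Set.singleton_subset_iff.2 he) (by rw [h, rk1 h0 heE])
    rw [← this]; exact Set.ncard_singleton e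
  · right; exact ⟨hfl, h⟩

open Classical in
theorem toLS [M.Finite] (h0 : M.IsFlat ∅) (h1 : ∀ e ∈ M.E, M.IsFlat {e})
    (hP : ∀ F₁ F₂ : Set α, M.IsFlat F₁ → M.IsFlat F₂ → M.eRk F₁ = M.eRk F₂ →
          F₁.ncard = F₂.ncard)
    (h4 : M.eRk M.E = 4)
    (hmeet : ∀ H₁ H₂ : Set α, M.IsFlat H₁ → M.IsFlat H₂ → M.eRk H₁ = 3 → M.eRk H₂ = 3 →
          (H₁ ∩ H₂).Nonempty) :
    ∃ (E : Finset α) (Ls Ps : Finset (Finset α)) (l k : ℕ), LS E Ls Ps l k ∧ (E : Set α) = M.E ∧
      (∀ L : Finset α, L ∈ Ls ↔ M.IsFlat (L : Set α) ∧ M.eRk (L : Set α) = 2) ∧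
      (∀ Q : Finset α, Q ∈ Ps ↔ M.IsFlat (Q : Set α) ∧ M.eRk (Q : Set α) = 3) ∧
      (∀ L : Set α, M.IsFlat L → M.eRk L = 2 → L.ncard = l) ∧
      (∀ Q : Set α, M.IsFlat Q → M.eRk Q = 3 → Q.ncard = k) := by
  have hfin : M.E.Finite := M.ground_finite
  obtain ⟨a, ha, hra⟩ := exists_eRk_insert_eq_add_one_of_lt (M := M) (X := ∅) (Y := M.E)
    (by rw [eRk_empty, h4]; decide)
  rw [eRk_empty] at hra
  obtain ⟨b, hb, hrb⟩ := exists_eRk_insert_eq_add_one_of_lt (M := M) (X := insert a ∅) (Y := M.E)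
    (by rw [hra, h4]; decide)
  rw [hra] at hrb
  obtain ⟨c, hc, hrc⟩ := exists_eRk_insert_eq_add_one_of_lt (M := M) (X := insert b (insert a ∅))
    (Y := M.E) (by rw [hrb, h4]; decide)
  rw [hrb] at hrc
  set L0 := M.closure (insert b (insert a ∅)) with hL0
  set Q0 := M.closure (insert c (insert b (insert a ∅))) with hQ0
  have hL0f : M.IsFlat L0 := isFlat_closure _
  have hQ0f : M.IsFlat Q0 := isFlat_closure _
  have hL0r : M.eRk L0 = 2 := by rw [hL0, eRk_closure_eq, hrb]; rfl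
  have hQ0r : M.eRk Q0 = 3 := by rw [hQ0, eRk_closure_eq, hrc]; rfl
  have hLQ : L0 ⊆ Q0 := M.closure_subset_closure (Set.subset_insert _ _)
  have hLQne : L0 ≠ Q0 := by
    intro h; rw [h, hQ0r] at hL0r; exact absurd hL0r (by decide)
  have hQEne : Q0 ≠ M.E := by
    intro h; rw [h, h4] at hQ0r; exact absurd hQ0r (by decide)
  let E : Finset α := hfin.toFinset
  have hE : (E : Set α) = M.E := hfin.coe_toFinset
  have hmemE : ∀ x, x ∈ E ↔ x ∈ M.E := fun x => by rw [← Finset.mem_coe, hE]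
  let Ls : Finset (Finset α) := E.powerset.filter
    (fun L => M.IsFlat (L : Set α) ∧ M.eRk (L : Set α) = 2)
  let Ps : Finset (Finset α) := E.powerset.filter
    (fun L => M.IsFlat (L : Set α) ∧ M.eRk (L : Set α) = 3)
  have hmem : ∀ L : Finset α, M.IsFlat (L : Set α) → L ∈ E.powerset := by
    intro L hL
    rw [Finset.mem_powerset]
    intro x hx
    rw [hmemE]
    exact hL.subset_ground hx
  have hLs : ∀ L : Finset α, L ∈ Ls ↔ M.IsFlat (L : Set α) ∧ M.eRk (L : Set α) = 2 := by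
    intro L
    simp only [Ls, Finset.mem_filter]
    exact ⟨fun h => h.2, fun h => ⟨hmem L h.1, h⟩⟩
  have hPs : ∀ L : Finset α, L ∈ Ps ↔ M.IsFlat (L : Set α) ∧ M.eRk (L : Set α) = 3 := by
    intro L
    simp only [Ps, Finset.mem_filter]
    exact ⟨fun h => h.2, fun h => ⟨hmem L h.1, h⟩⟩
  have hff : ∀ F : Set α, M.IsFlat F → F.Finite := fun F hF => hfin.subset hF.subset_ground
  have hl : ∀ L : Set α, M.IsFlat L → M.eRk L = 2 → L.ncard = L0.ncard := fun L hL hr =>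
    hP L L0 hL hL0f (by rw [hr, hL0r])
  have hk : ∀ L : Set α, M.IsFlat L → M.eRk L = 3 → L.ncard = Q0.ncard := fun L hL hr =>
    hP L Q0 hL hQ0f (by rw [hr, hQ0r])
  have hab : a ≠ b := by
    rintro rfl; exact hb.2 (by simp)
  refine ⟨E, Ls, Ps, L0.ncard, Q0.ncard, ?_, hE, hLs, hPs, hl, hk⟩
  constructor
  · intro L hL; exact Finset.mem_powerset.1 (hmem L ((hLs L).1 hL).1)
  · intro L hL
    rw [← hl L ((hLs L).1 hL).1 ((hLs L).1 hL).2, Set.ncard_coe_finset]
  · intro L hL; exact Finset.mem_powerset.1 (hmem L ((hPs L).1 hL).1)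
  · intro L hL
    rw [← hk L ((hPs L).1 hL).1 ((hPs L).1 hL).2, Set.ncard_coe_finset]
  ·
    intro a ha b hb hab
    rw [hmemE] at ha hb
    have hs : ({a, b} : Set α) ⊆ M.E := by
      intro x hx
      rcases hx with rfl | hx
      · exact ha
      · rw [Set.mem_singleton_iff.1 hx]; exact hb
    have hcf := hff _ (isFlat_closure (M := M) {a, b})
    rw [Finset.card_eq_one]
    refine ⟨hcf.toFinset, ?_⟩
    ext L
    rw [Finset.mem_filter, Finset.mem_singleton, hLs]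
    constructor
    · rintro ⟨⟨hL1, hL2⟩, haL, hbL⟩
      have := line_eq h0 h1 hL1 hL2 (Finset.mem_coe.2 haL) (Finset.mem_coe.2 hbL) hab
      rw [← Finset.coe_inj, Set.Finite.coe_toFinset, this]
    · rintro rfl
      rw [Set.Finite.coe_toFinset]
      refine ⟨⟨isFlat_closure _, by rw [eRk_closure_eq, rk2 h0 h1 ha hb hab]⟩, ?_, ?_⟩
      · rw [Set.Finite.mem_toFinset]; exact M.subset_closure _ hs (by simp)
      · rw [Set.Finite.mem_toFinset]; exact M.subset_closure _ hs (by simp)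
  ·
    intro L hL a ha haL
    rw [hmemE] at ha
    rw [hLs] at hL
    have hcf := hff _ (isFlat_closure (M := M) (insert a (L : Set α)))
    have hs : insert a (L : Set α) ⊆ M.E := Set.insert_subset ha hL.1.subset_ground
    rw [Finset.card_eq_one]
    refine ⟨hcf.toFinset, ?_⟩
    ext Q
    rw [Finset.mem_filter, Finset.mem_singleton, hPs]
    constructor
    · rintro ⟨⟨hQ1, hQ2⟩, hLQ, haQ⟩
      have := plane_eq hL.1 hL.2 hQ1 hQ2 (Finset.mem_coe.2 haQ)
        (fun h => haL (Finset.mem_coe.1 h)) (Finset.coe_subset.2 hLQ)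
      rw [← Finset.coe_inj, Set.Finite.coe_toFinset, this]
    · rintro rfl
      rw [Set.Finite.coe_toFinset]
      refine ⟨⟨isFlat_closure _, ?_⟩, ?_, ?_⟩
      · rw [eRk_closure_eq, ins_rk hL.1 hL.2 ha (fun h => haL (Finset.mem_coe.1 h))]; rfl
      · intro x hx
        rw [Set.Finite.mem_toFinset]
        exact M.subset_closure _ hs (Set.mem_insert_of_mem _ (Finset.mem_coe.2 hx))
      · rw [Set.Finite.mem_toFinset]; exact M.subset_closure _ hs (Set.mem_insert _ _)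
  ·
    intro L hL Q hQ a haL b hbL hab haQ hbQ
    rw [hLs] at hL
    rw [hPs] at hQ
    rw [← Finset.coe_subset, ← line_eq h0 h1 hL.1 hL.2 (Finset.mem_coe.2 haL) (Finset.mem_coe.2 hbL) hab,
      ← hQ.1.closure]
    apply M.closure_subset_closure
    intro x hx
    rcases hx with rfl | hx
    · exact Finset.mem_coe.2 haQ
    · rw [Set.mem_singleton_iff.1 hx]; exact Finset.mem_coe.2 hbQ
  ·
    intro Q hQ F hF hQF
    rw [hPs] at hQ hF
    have hQF' : (Q : Set α) ≠ (F : Set α) := fun h => hQF (Finset.coe_inj.1 h)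
    have := inter_planes h0 h1 hQ.1 hQ.2 hF.1 hF.2 hQF' (hmeet _ _ hQ.1 hF.1 hQ.2 hF.2)
    rw [← Finset.coe_inter] at this
    rcases this with h | h
    · left; rwa [Set.ncard_coe_finset] at h
    · right
      have h2 := hl _ h.1 h.2
      rwa [Set.ncard_coe_finset] at h2
  ·
    have : ({a, b} : Set α) ⊆ L0 := by
      rw [hL0]
      have e : (insert b (insert a ∅) : Set α) = {a, b} := by
        ext x; simp [or_comm]
      rw [e]
      refine M.subset_closure _ ?_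
      intro x hx
      rcases hx with rfl | hx
      · exact ha.1
      · rw [Set.mem_singleton_iff.1 hx]; exact hb.1
    rw [← Set.ncard_pair hab]
    exact Set.ncard_le_ncard this (hff _ hL0f)
  · exact Set.ncard_lt_ncard (hLQ.ssubset_of_ne hLQne) (hff _ hQ0f)
  · rw [← Set.ncard_coe_finset, hE]
    exact Set.ncard_lt_ncard (hQ0f.subset_ground.ssubset_of_ne hQEne) hfin
  · refine ⟨(hff _ hQ0f).toFinset, ?_⟩
    rw [hPs, Set.Finite.coe_toFinset]
    exact ⟨hQ0f, hQ0r⟩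

end Mat

end PMD

namespace PMD
namespace Mat

open Matroid

variable {α : Type} {M : Matroid α}

/-- the case of lines of size two -/
lemma small_case [M.Finite] (h0 : M.IsFlat ∅) (h1 : ∀ e ∈ M.E, M.IsFlat {e})
    (hl : ∀ L : Set α, M.IsFlat L → M.eRk L = 2 → L.ncard = 2)
    (hk : ∀ Q : Set α, M.IsFlat Q → M.eRk Q = 3 → Q.ncard = 3) :
    ∀ n ≤ 4, ∀ I ⊆ M.E, I.ncard = n → M.Indep I := by
  have hfin : M.E.Finite := M.ground_finite
  intro n
  induction n with
  | zero =>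
    intro _ I hI hn
    have : I = ∅ := (Set.ncard_eq_zero (hfin.subset hI)).1 hn
    rw [this]; exact M.empty_indep
  | succ n ih =>
    intro hn I hI hIn
    have hIf := hfin.subset hI
    obtain ⟨e, he⟩ : I.Nonempty := by
      rw [← Set.ncard_pos hIf]; omega
    have hJ : (I \ {e}).ncard = n := by
      rw [Set.ncard_sdiff_singleton_of_mem he, hIn]; rfl
    have hJE : I \ {e} ⊆ M.E := Set.sdiff_subset.trans hI
    have hJi := ih (by omega) (I \ {e}) hJE hJ
    have hJf := hfin.subset hJE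
    have hrk : M.eRk (I \ {e}) = n := by
      rw [hJi.eRk_eq_encard, ← hJf.cast_ncard_eq, hJ]
    have hcl : M.closure (I \ {e}) = I \ {e} := by
      have hsub := M.subset_closure (I \ {e}) hJE
      have hcf := hfin.subset (M.closure_subset_ground (I \ {e}))
      have hn4 : n < 4 := by omega
      have hcn : (M.closure (I \ {e})).ncard = n := by
        interval_cases n
        · have : I \ {e} = ∅ := (Set.ncard_eq_zero hJf).1 hJ
          rw [this, h0.closure]; simp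
        · obtain ⟨x, hx⟩ := Set.ncard_eq_one.1 hJ
          rw [hx, (h1 x (hJE (by rw [hx]; simp))).closure]; simp
        · apply hl _ (isFlat_closure _)
          rw [eRk_closure_eq, hrk]; rfl
        · apply hk _ (isFlat_closure _)
          rw [eRk_closure_eq, hrk]; rfl
      exact (Set.eq_of_subset_of_ncard_le hsub (by rw [hcn, hJ]) hcf).symm
    have : I = insert e (I \ {e}) := by
      rw [Set.insert_sdiff_singleton, Set.insert_eq_of_mem he]
    rw [this]
    rw [insert_indep_iff]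
    refine ⟨hJi, fun _ => ⟨hI he, ?_⟩⟩
    rw [hcl]; simp

/-- the line function -/
def Lf (M : Matroid α) (a b : {x // x ∈ M.E}) : Set {x // x ∈ M.E} :=
  {c | c.1 ∈ M.closure {a.1, b.1}}

lemma pair_sub {a b : α} {X : Set α} (ha : a ∈ X) (hb : b ∈ X) : ({a, b} : Set α) ⊆ X := by
  intro x hx
  rcases hx with rfl | hx
  · exact ha
  · rw [Set.mem_singleton_iff.1 hx]; exact hb

lemma cl_sub {a b : α} {X : Set α} (hX : M.IsFlat X) (ha : a ∈ X) (hb : b ∈ X) :
    M.closure {a, b} ⊆ X := by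
  have := M.closure_subset_closure (pair_sub ha hb)
  rwa [hX.closure] at this

lemma toPG [M.Finite] (h0 : M.IsFlat ∅) (h1 : ∀ e ∈ M.E, M.IsFlat {e})
    (h4 : M.eRk M.E = 4) {l : ℕ} (hl3 : 3 ≤ l)
    (hl : ∀ L : Set α, M.IsFlat L → M.eRk L = 2 → L.ncard = l)
    (hpp : ∀ Q : Set α, M.IsFlat Q → M.eRk Q = 3 → ∀ L, M.IsFlat L → M.eRk L = 2 → L ⊆ Q →
      ∀ L', M.IsFlat L' → M.eRk L' = 2 → L' ⊆ Q → (L ∩ L').Nonempty) :
    PG {x // x ∈ M.E} (Lf M) := by
  have hfin : M.E.Finite := M.ground_finite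
  have hrk2 : ∀ a b : {x // x ∈ M.E}, a ≠ b → M.eRk {a.1, b.1} = 2 := by
    intro a b hab
    exact rk2 h0 h1 a.2 b.2 (fun h => hab (Subtype.ext h))
  have hclr : ∀ a b : {x // x ∈ M.E}, a ≠ b → M.eRk (M.closure {a.1, b.1}) = 2 := by
    intro a b hab
    rw [eRk_closure_eq, hrk2 a b hab]
  have hlm : ∀ a b : {x // x ∈ M.E}, a.1 ∈ M.closure {a.1, b.1} ∧ b.1 ∈ M.closure {a.1, b.1} := by
    intro a b
    have := M.subset_closure _ (pair_sub a.2 b.2)
    exact ⟨this (by simp), this (by simp)⟩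
  constructor
  · exact hlm
  · intro a b c d hab hcd hc hd
    have := line_eq h0 h1 (isFlat_closure (M := M) {a.1, b.1}) (hclr a b hab) hc hd
      (fun h => hcd (Subtype.ext h))
    ext x
    show x.1 ∈ M.closure {c.1, d.1} ↔ x.1 ∈ M.closure {a.1, b.1}
    rw [this]
  · intro a b c d p hab hcd hac hbd hp1 hp2
    have hp1' : p.1 ∈ M.closure {a.1, b.1} := hp1
    have hp2' : p.1 ∈ M.closure {c.1, d.1} := hp2
    set X := M.closure (M.closure {a.1, b.1} ∪ M.closure {c.1, d.1}) with hX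
    have hXf : M.IsFlat X := isFlat_closure _
    have hsub : M.closure {a.1, b.1} ∪ M.closure {c.1, d.1} ⊆ X := by
      exact M.subset_closure _
        (Set.union_subset (M.closure_subset_ground _) (M.closure_subset_ground _))
    have hXr : M.eRk X ≤ 3 := by
      rw [hX, eRk_closure_eq]
      have h2 := M.eRk_inter_add_eRk_union_le (M.closure {a.1, b.1}) (M.closure {c.1, d.1})
      rw [hclr a b hab, hclr c d hcd] at h2
      have h3 : 1 ≤ M.eRk (M.closure {a.1, b.1} ∩ M.closure {c.1, d.1}) := by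
        rw [← rk1 h0 p.2]
        exact M.eRk_mono (Set.singleton_subset_iff.2 ⟨hp1', hp2'⟩)
      have h5 : 1 + M.eRk (M.closure {a.1, b.1} ∪ M.closure {c.1, d.1}) ≤ 1 + 3 :=
        (add_le_add_left h3 _).trans (h2.trans (by decide))
      exact (ENat.add_le_add_iff_left (by decide)).1 h5
    have haX : a.1 ∈ X := hsub (Or.inl (hlm a b).1)
    have hbX : b.1 ∈ X := hsub (Or.inl (hlm a b).2)
    have hcX : c.1 ∈ X := hsub (Or.inr (hlm c d).1)
    have hdX : d.1 ∈ X := hsub (Or.inr (hlm c d).2)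
    have s1 := cl_sub hXf haX hcX
    have s2 := cl_sub hXf hbX hdX
    have hne : (M.closure {a.1, c.1} ∩ M.closure {b.1, d.1}).Nonempty := by
      rcases hXr.lt_or_eq with h | h
      · have hX2 : M.eRk X ≤ 2 := by
          rcases rk_cases ⟨a.1, haX, rk1 h0 a.2⟩ h with h | h <;> rw [h]; decide
        have e1 := flat_eq (isFlat_closure (M := M) {a.1, c.1}) hXf s1 (by rw [hclr a c hac]; exact hX2)
        rw [e1]
        exact ⟨b.1, hbX, (hlm b d).1⟩
      · exact hpp X hXf h _ (isFlat_closure _) (hclr a c hac) s1 _ (isFlat_closure _)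
          (hclr b d hbd) s2
    obtain ⟨q, hq1, hq2⟩ := hne
    exact ⟨⟨q, (M.closure_subset_ground _) hq1⟩, hq1, hq2⟩
  · intro a b hab
    have hc := hl _ (isFlat_closure (M := M) {a.1, b.1}) (hclr a b hab)
    have hcf := hfin.subset (M.closure_subset_ground {a.1, b.1})
    obtain ⟨c, hc1, hc2⟩ := Set.exists_mem_notMem_of_ncard_lt_ncard
      (s := {a.1, b.1}) (t := M.closure {a.1, b.1}) (by
        rw [hc]
        have := Set.ncard_insert_le a.1 ({b.1} : Set α)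
        rw [Set.ncard_singleton] at this
        omega) (by simp)
    refine ⟨⟨c, (M.closure_subset_ground _) hc1⟩, hc1, ?_, ?_⟩
    · intro h; apply hc2; left; exact congrArg Subtype.val h
    · intro h; apply hc2; right; exact congrArg Subtype.val h
  · intro a b c hbc
    have hr : M.eRk (M.closure (insert a.1 {b.1, c.1})) ≤ 3 := by
      rw [eRk_closure_eq]
      refine (M.eRk_insert_le_add_one _ _).trans ?_
      rw [hrk2 b c hbc]; decide
    have hne : M.closure (insert a.1 {b.1, c.1}) ≠ M.E := by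
      intro h
      rw [h, h4] at hr
      exact absurd hr (by decide)
    obtain ⟨x, hxE, hx⟩ : ∃ x ∈ M.E, x ∉ M.closure (insert a.1 {b.1, c.1}) := by
      by_contra hc
      push Not at hc
      exact hne (subset_antisymm (M.closure_subset_ground _) hc)
    refine ⟨⟨x, hxE⟩, ?_⟩
    intro q hq hxq
    apply hx
    have hsub : insert a.1 {b.1, c.1} ⊆ M.E := Set.insert_subset a.2 (pair_sub b.2 c.2)
    have h5 := M.subset_closure _ hsub
    have h6 : q.1 ∈ M.closure (insert a.1 {b.1, c.1}) :=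
      M.closure_subset_closure (Set.subset_insert _ _) hq
    exact cl_sub (isFlat_closure _) (h5 (Set.mem_insert _ _)) h6 hxq
  · obtain ⟨a, ha, hra⟩ := exists_eRk_insert_eq_add_one_of_lt (M := M) (X := ∅) (Y := M.E)
      (by rw [eRk_empty, h4]; decide)
    rw [eRk_empty] at hra
    obtain ⟨b, hb, hrb⟩ := exists_eRk_insert_eq_add_one_of_lt (M := M) (X := insert a ∅) (Y := M.E)
      (by rw [hra, h4]; decide)
    refine ⟨⟨a, ha.1⟩, ⟨b, hb.1⟩, ?_⟩
    intro h
    have : a = b := congrArg Subtype.val h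
    subst this
    exact hb.2 (by simp)

end Mat

end PMD

namespace PMD
namespace Mat

open Matroid

variable {α : Type} {M : Matroid α}

/-- closure of small independent sets in terms of spans -/
lemma cl_iff [M.Finite] (h0 : M.IsFlat ∅) (h1 : ∀ e ∈ M.E, M.IsFlat {e})
    (hpp : ∀ Q : Set α, M.IsFlat Q → M.eRk Q = 3 → ∀ L, M.IsFlat L → M.eRk L = 2 → L ⊆ Q →
      ∀ L', M.IsFlat L' → M.eRk L' = 2 → L' ⊆ Q → (L ∩ L').Nonempty)
    {K W : Type} [Field K] [AddCommGroup W] [Module K W] (v : α → W)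
    (v1 : ∀ p ∈ M.E, v p ≠ 0) (v2 : ∀ p ∈ M.E, ∀ q ∈ M.E, ∀ c : K, v p = c • v q → p = q)
    (v3 : ∀ p ∈ M.E, ∀ q ∈ M.E, ∀ r ∈ M.E, p ≠ q →
      (r ∈ M.closure {p, q} ↔ v r ∈ Submodule.span K {v p, v q}))
    (v4 : ∀ u : W, u ≠ 0 → ∃ p ∈ M.E, ∃ c : K, u = c • v p)
    {J : Set α} (hJ : M.Indep J) (hJ3 : J.ncard ≤ 3) {e : α} (he : e ∈ M.E) :
    e ∈ M.closure J ↔ v e ∈ Submodule.span K (v '' J) := by
  have hJE := hJ.subset_ground
  have hfin : M.E.Finite := M.ground_finite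
  have hJf := hfin.subset hJE
  have hcases : J.ncard = 0 ∨ J.ncard = 1 ∨ J.ncard = 2 ∨ J.ncard = 3 := by omega
  rcases hcases with h | h | h | h
  · have : J = ∅ := (Set.ncard_eq_zero hJf).1 h
    rw [this, h0.closure]
    simp only [Set.image_empty, Submodule.span_empty, Submodule.mem_bot, Set.mem_empty_iff_false,
      false_iff]
    exact v1 e he
  · obtain ⟨x, hx⟩ := Set.ncard_eq_one.1 h
    have hxE : x ∈ M.E := hJE (by rw [hx]; simp)
    rw [hx, (h1 x hxE).closure, Set.image_singleton, Submodule.mem_span_singleton,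
      Set.mem_singleton_iff]
    constructor
    · rintro rfl; exact ⟨1, one_smul _ _⟩
    · rintro ⟨c, hc⟩; exact v2 e he x hxE c hc.symm
  · obtain ⟨x, y, hxy, hx⟩ := Set.ncard_eq_two.1 h
    have hxE : x ∈ M.E := hJE (by rw [hx]; simp)
    have hyE : y ∈ M.E := hJE (by rw [hx]; simp)
    rw [hx, Set.image_pair]
    exact v3 x hxE y hyE e he hxy
  · obtain ⟨a, b, c, hab, hac, hbc, hx⟩ := Set.ncard_eq_three.1 h
    have haE : a ∈ M.E := hJE (by rw [hx]; simp)
    have hbE : b ∈ M.E := hJE (by rw [hx]; simp)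
    have hcE : c ∈ M.E := hJE (by rw [hx]; simp)
    have hr : M.eRk (M.closure J) = 3 := by
      rw [eRk_closure_eq, hJ.eRk_eq_encard, ← hJf.cast_ncard_eq, h]; rfl
    have hQf : M.IsFlat (M.closure J) := isFlat_closure _
    have hsub := M.subset_closure J hJE
    have haJ : a ∈ M.closure J := hsub (by rw [hx]; simp)
    have hbJ : b ∈ M.closure J := hsub (by rw [hx]; simp)
    have hcJ : c ∈ M.closure J := hsub (by rw [hx]; simp)
    have hbcJ := cl_sub hQf hbJ hcJ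
    have hlbc : M.eRk (M.closure {b, c}) = 2 := by rw [eRk_closure_eq, rk2 h0 h1 hbE hcE hbc]
    have hanot : a ∉ M.closure {b, c} := by
      have := hJ.notMem_closure_sdiff_of_mem (e := a) (by rw [hx]; simp)
      have e1 : J \ {a} = {b, c} := by
        rw [hx]
        ext y
        simp only [Set.mem_sdiff, Set.mem_insert_iff, Set.mem_singleton_iff]
        constructor
        · rintro ⟨rfl | rfl | rfl, h⟩
          · exact absurd rfl h
          · left; rfl
          · right; rfl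
        · rintro (rfl | rfl)
          · exact ⟨Or.inr (Or.inl rfl), hab.symm⟩
          · exact ⟨Or.inr (Or.inr rfl), hac.symm⟩
      rwa [e1] at this
    have him : v '' J = {v a, v b, v c} := by
      rw [hx, Set.image_insert_eq, Set.image_pair]
    rw [him]
    have hva : v a ∈ Submodule.span K {v a, v b, v c} := Submodule.subset_span (by simp)
    have hvb : v b ∈ Submodule.span K {v a, v b, v c} := Submodule.subset_span (by simp)
    have hvc : v c ∈ Submodule.span K {v a, v b, v c} := Submodule.subset_span (by simp)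
    constructor
    · intro heJ
      by_cases hea : e = a
      · rw [hea]; exact hva
      have hae : a ≠ e := Ne.symm hea
      obtain ⟨q, hq1, hq2⟩ := hpp _ hQf hr _ (isFlat_closure (M := M) {a, e})
        (by rw [eRk_closure_eq, rk2 h0 h1 haE he hae]) (cl_sub hQf haJ heJ)
        _ (isFlat_closure (M := M) {b, c}) hlbc hbcJ
      have hqE : q ∈ M.E := M.closure_subset_ground _ hq1
      have hqa : a ≠ q := by rintro rfl; exact hanot hq2
      have e2 : M.closure {a, q} = M.closure {a, e} := by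
        apply line_eq h0 h1 (isFlat_closure _) (by rw [eRk_closure_eq, rk2 h0 h1 haE he hae]) _ hq1 hqa
        exact M.subset_closure _ (pair_sub haE he) (by simp)
      have e3 : e ∈ M.closure {a, q} := by
        rw [e2]; exact M.subset_closure _ (pair_sub haE he) (by simp)
      rw [v3 a haE q hqE e he hqa] at e3
      rw [v3 b hbE c hcE q hqE hbc] at hq2
      have s1 : Submodule.span K {v b, v c} ≤ Submodule.span K {v a, v b, v c} :=
        Submodule.span_mono (Set.subset_insert _ _)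
      have s2 : Submodule.span K {v a, v q} ≤ Submodule.span K {v a, v b, v c} := by
        rw [Submodule.span_le]
        exact pair_sub hva (s1 hq2)
      exact s2 e3
    · intro hve
      rw [Submodule.mem_span_insert] at hve
      obtain ⟨x, u, hu, hve⟩ := hve
      by_cases hu0 : u = 0
      · rw [hu0, add_zero] at hve
        rw [v2 e he a haE x hve]; exact haJ
      obtain ⟨q, hqE, t, htq⟩ := v4 u hu0
      have ht : t ≠ 0 := by
        rintro rfl; apply hu0; rw [htq, zero_smul]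
      have hq : q ∈ M.closure {b, c} := by
        rw [v3 b hbE c hcE q hqE hbc]
        have : v q = t⁻¹ • u := by rw [htq, smul_smul, inv_mul_cancel₀ ht, one_smul]
        rw [this]
        exact Submodule.smul_mem _ _ hu
      have hqa : a ≠ q := by rintro rfl; exact hanot hq
      have : e ∈ M.closure {a, q} := by
        rw [v3 a haE q hqE e he hqa, Submodule.mem_span_pair]
        exact ⟨x, t, by rw [hve, htq]⟩
      exact cl_sub hQf haJ (hbcJ hq) this

lemma indep_iff [M.Finite] (h0 : M.IsFlat ∅) (h1 : ∀ e ∈ M.E, M.IsFlat {e})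
    (hpp : ∀ Q : Set α, M.IsFlat Q → M.eRk Q = 3 → ∀ L, M.IsFlat L → M.eRk L = 2 → L ⊆ Q →
      ∀ L', M.IsFlat L' → M.eRk L' = 2 → L' ⊆ Q → (L ∩ L').Nonempty)
    {K W : Type} [Field K] [AddCommGroup W] [Module K W] (v : α → W)
    (v1 : ∀ p ∈ M.E, v p ≠ 0) (v2 : ∀ p ∈ M.E, ∀ q ∈ M.E, ∀ c : K, v p = c • v q → p = q)
    (v3 : ∀ p ∈ M.E, ∀ q ∈ M.E, ∀ r ∈ M.E, p ≠ q →
      (r ∈ M.closure {p, q} ↔ v r ∈ Submodule.span K {v p, v q}))
    (v4 : ∀ u : W, u ≠ 0 → ∃ p ∈ M.E, ∃ c : K, u = c • v p) :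
    ∀ n ≤ 4, ∀ I ⊆ M.E, I.ncard = n → (M.Indep I ↔ LinearIndepOn K v I) := by
  have hfin : M.E.Finite := M.ground_finite
  intro n
  induction n with
  | zero =>
    intro _ I hI hn
    have : I = ∅ := (Set.ncard_eq_zero (hfin.subset hI)).1 hn
    rw [this]
    exact ⟨fun _ => linearIndepOn_empty K v, fun _ => M.empty_indep⟩
  | succ n ih =>
    intro hn I hI hIn
    have hIf := hfin.subset hI
    obtain ⟨e, he⟩ : I.Nonempty := by
      rw [← Set.ncard_pos hIf]; omega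
    have hJ : (I \ {e}).ncard = n := by
      rw [Set.ncard_sdiff_singleton_of_mem he, hIn]; rfl
    have hJE : I \ {e} ⊆ M.E := Set.sdiff_subset.trans hI
    have hJi := ih (by omega) (I \ {e}) hJE hJ
    have heJ : e ∉ I \ {e} := by simp
    have hIe : I = insert e (I \ {e}) := by
      rw [Set.insert_sdiff_singleton, Set.insert_eq_of_mem he]
    rw [hIe, insert_indep_iff, linearIndepOn_insert heJ, hJi]
    constructor
    · rintro ⟨h2, h3⟩
      refine ⟨h2, ?_⟩
      rw [← cl_iff h0 h1 hpp v v1 v2 v3 v4 (hJi.2 h2) (by omega) (hI he)]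
      exact (h3 heJ).2
    · rintro ⟨h2, h3⟩
      refine ⟨h2, fun _ => ⟨hI he, ?_⟩⟩
      rw [cl_iff h0 h1 hpp v v1 v2 v3 v4 (hJi.2 h2) (by omega) (hI he)]
      exact h3

end Mat

end PMD

namespace PMD
namespace Mat

open Matroid

theorem final (α : Type) (M : Matroid α) (hMf : M.Finite)
    (h0 : M.IsFlat ∅) (h1 : ∀ e ∈ M.E, M.IsFlat {e})
    (hP : ∀ F₁ F₂ : Set α, M.IsFlat F₁ → M.IsFlat F₂ → M.eRk F₁ = M.eRk F₂ →
          F₁.ncard = F₂.ncard)
    (h4 : M.eRk M.E = 4)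
    (hmeet : ∀ H₁ H₂ : Set α, M.IsFlat H₁ → M.IsFlat H₂ → M.eRk H₁ = 3 → M.eRk H₂ = 3 →
          (H₁ ∩ H₂).Nonempty) :
      (((M.E.ncard = 4 ∨ M.E.ncard = 5) ∧ ∀ I ⊆ M.E, I.ncard ≤ 4 → M.Indep I) ∨
      (∃ (K : Type) (_ : Field K) (n : ℕ) (v : α → Fin n → K),
        (n = 4 ∨ n = 5) ∧ (∀ e ∈ M.E, v e ≠ 0) ∧
        (∀ w : Fin n → K, w ≠ 0 → ∃ e ∈ M.E, ∃ c : K, w = c • v e) ∧
        ∀ I ⊆ M.E, (M.Indep I ↔ (I.ncard ≤ 4 ∧ LinearIndependent K (fun x : I => v x))))) := by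
  classical
  have hfin : M.E.Finite := M.ground_finite
  obtain ⟨E, Ls, Ps, l, k, hLS, hE, hLs, hPs, hl, hk⟩ := toLS h0 h1 hP h4 hmeet
  obtain ⟨hmeetL, hcard, hk'⟩ := hLS.main
  have hEc : M.E.ncard = E.card := by rw [← hE, Set.ncard_coe_finset]
  have hpp : ∀ Q : Set α, M.IsFlat Q → M.eRk Q = 3 → ∀ L, M.IsFlat L → M.eRk L = 2 → L ⊆ Q →
      ∀ L', M.IsFlat L' → M.eRk L' = 2 → L' ⊆ Q → (L ∩ L').Nonempty := by
    intro Q hQ hQr L hL hLr hLQ L' hL' hLr' hLQ'
    have fQ := hfin.subset hQ.subset_ground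
    have fL := hfin.subset hL.subset_ground
    have fL' := hfin.subset hL'.subset_ground
    have := hmeetL fQ.toFinset ((hPs _).2 (by rw [Set.Finite.coe_toFinset]; exact ⟨hQ, hQr⟩))
      fL.toFinset ((hLs _).2 (by rw [Set.Finite.coe_toFinset]; exact ⟨hL, hLr⟩))
      (Set.Finite.toFinset_subset_toFinset.2 hLQ)
      fL'.toFinset ((hLs _).2 (by rw [Set.Finite.coe_toFinset]; exact ⟨hL', hLr'⟩))
      (Set.Finite.toFinset_subset_toFinset.2 hLQ')
    obtain ⟨x, hx⟩ := this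
    rw [Finset.mem_inter, Set.Finite.mem_toFinset, Set.Finite.mem_toFinset] at hx
    exact ⟨x, hx⟩
  by_cases hl2 : l = 2
  · left
    subst hl2
    have hk3 : k = 3 := by omega
    subst hk3
    refine ⟨?_, ?_⟩
    · rw [hEc]
      rcases hcard with h | h
      · left; rw [h]; norm_num
      · right; rw [h]; norm_num
    · intro I hI hIc
      exact small_case h0 h1 hl hk I.ncard hIc I hI rfl
  right
  have hl3 : 3 ≤ l := by have := hLS.l2; omega
  have hPG := toPG h0 h1 h4 hl3 hl hpp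
  have : Finite {x // x ∈ M.E} := hfin.to_subtype
  obtain ⟨K, iK, iKf, W, iW, iM, iWf, v, v1, v2, v3, v4, p0, q0, hpq0, hKc⟩ := hPG.proj_coord
  have hKcard : Nat.card K + 1 = l := by
    rw [← hKc, ← hl (M.closure {p0.1, q0.1}) (isFlat_closure _) (by
      rw [eRk_closure_eq, rk2 h0 h1 p0.2 q0.2 (fun h => hpq0 (Subtype.ext h))])]
    have : (Lf M p0 q0) = Subtype.val ⁻¹' (M.closure {p0.1, q0.1}) := rfl
    rw [this, Set.ncard_preimage_of_injective_subset_range Subtype.val_injective]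
    intro x hx
    exact ⟨⟨x, M.closure_subset_ground _ hx⟩, rfl⟩
  let g : {x // x ∈ M.E} → Projectivization K W := fun p => Projectivization.mk K (v p) (v1 p)
  have hg : Function.Bijective g := by
    constructor
    · intro p q hpq
      rw [Projectivization.mk_eq_mk_iff'] at hpq
      obtain ⟨a, ha⟩ := hpq
      exact v2 p q a ha.symm
    · intro y
      induction y using Projectivization.ind with
      | h u hu =>
        obtain ⟨p, c, hc⟩ := v4 u hu
        refine ⟨p, ?_⟩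
        have hc0 : c ≠ 0 := by
          rintro rfl; apply hu; rw [hc, zero_smul]
        rw [Projectivization.mk_eq_mk_iff']
        exact ⟨c⁻¹, by rw [hc, smul_smul, inv_mul_cancel₀ hc0, one_smul]⟩
  have hPc : Nat.card (Projectivization K W) = E.card := by
    rw [← Nat.card_congr (Equiv.ofBijective g hg)]
    rw [← hEc]; rfl
  have hWc := Projectivization.card' K W
  have hWn : Nat.card W = Nat.card K ^ Module.finrank K W := by
    have := Fintype.ofFinite K
    have := Fintype.ofFinite W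
    rw [Nat.card_eq_fintype_card, Nat.card_eq_fintype_card, Module.card_eq_pow_finrank (K := K)]
  rw [hWn, hPc] at hWc
  have hKm : Nat.card K = l - 1 := by omega
  rw [← hKm] at hcard
  have hK2 : 2 ≤ Nat.card K := by omega
  obtain ⟨m, hm⟩ : ∃ m, Nat.card K = m + 1 := ⟨Nat.card K - 1, by omega⟩
  have hn : Module.finrank K W = 4 ∨ Module.finrank K W = 5 := by
    rcases hcard with h | h
    · left
      apply Nat.pow_right_injective hK2
      show Nat.card K ^ Module.finrank K W = Nat.card K ^ 4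
      rw [hWc, h, hm, Nat.add_sub_cancel]; ring
    · right
      apply Nat.pow_right_injective hK2
      show Nat.card K ^ Module.finrank K W = Nat.card K ^ 5
      rw [hWc, h, hm, Nat.add_sub_cancel]; ring
  let V : α → W := fun x => if h : x ∈ M.E then v ⟨x, h⟩ else 0
  have hV : ∀ x (h : x ∈ M.E), V x = v ⟨x, h⟩ := fun x h => by simp only [V, dif_pos h]
  have hind := indep_iff (K := K) h0 h1 hpp V
    (fun p hp => by rw [hV p hp]; exact v1 _)
    (fun p hp q hq c h => by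
      rw [hV p hp, hV q hq] at h; exact congrArg Subtype.val (v2 _ _ c h))
    (fun p hp q hq r hr hpq => by
      rw [hV p hp, hV q hq, hV r hr]
      exact v3 ⟨p, hp⟩ ⟨q, hq⟩ ⟨r, hr⟩ (fun h => hpq (congrArg Subtype.val h)))
    (fun u hu => by
      obtain ⟨p, c, hc⟩ := v4 u hu
      exact ⟨p.1, p.2, c, by rw [hV p.1 p.2]; exact hc⟩)
  let e : W ≃ₗ[K] (Fin (Module.finrank K W) → K) := (Module.finBasis K W).equivFun
  refine ⟨K, iK, Module.finrank K W, fun x => e (V x), hn, ?_, ?_, ?_⟩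
  · intro x hx h
    have : V x = 0 := e.map_eq_zero_iff.1 h
    rw [hV x hx] at this
    exact v1 _ this
  · intro w hw
    have hw' : e.symm w ≠ 0 := fun h => hw (e.symm.map_eq_zero_iff.1 h)
    obtain ⟨p, c, hc⟩ := v4 _ hw'
    refine ⟨p.1, p.2, c, ?_⟩
    show w = c • e (V p.1)
    rw [hV p.1 p.2, ← map_smul]
    show w = e (c • v p)
    rw [← hc, e.apply_symm_apply]
  · intro I hI
    have hIf := hfin.subset hI
    have hli : LinearIndependent K (fun x : I => e (V x)) ↔ LinearIndepOn K V I := by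
      exact LinearMap.linearIndependent_iff (v := fun x : I => V x) e.toLinearMap e.ker
    rw [hli]
    constructor
    · intro h
      have hc : I.ncard ≤ 4 := by
        have h5 := h.encard_le_eRk_of_subset hI
        rw [h4, ← hIf.cast_ncard_eq] at h5
        exact_mod_cast h5
      exact ⟨hc, (hind I.ncard hc I hI rfl).1 h⟩
    · rintro ⟨hc, h⟩
      exact (hind I.ncard hc I hI rfl).2 h

end Mat

end PMD

/-- Every finite simple rank-4 matroid whose same-rank flats have equal sizes and whose hyperplanes pairwise intersect is U(4,4), U(4,5), or the rank-4 truncation of PG(n−1,K) for a field K and n = 4 or 5. -/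
theorem result :
    ∀ (α : Type) (M : Matroid α), M.Finite →
      M.IsFlat ∅ → (∀ e ∈ M.E, M.IsFlat {e}) →
      (∀ F₁ F₂ : Set α, M.IsFlat F₁ → M.IsFlat F₂ → M.eRk F₁ = M.eRk F₂ →
          F₁.ncard = F₂.ncard) →
      M.eRk M.E = 4 →
      (∀ H₁ H₂ : Set α, M.IsFlat H₁ → M.IsFlat H₂ → M.eRk H₁ = 3 → M.eRk H₂ = 3 →
          (H₁ ∩ H₂).Nonempty) →
      (((M.E.ncard = 4 ∨ M.E.ncard = 5) ∧ ∀ I ⊆ M.E, I.ncard ≤ 4 → M.Indep I) ∨
      (∃ (K : Type) (_ : Field K) (n : ℕ) (v : α → Fin n → K),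
        (n = 4 ∨ n = 5) ∧ (∀ e ∈ M.E, v e ≠ 0) ∧
        (∀ w : Fin n → K, w ≠ 0 → ∃ e ∈ M.E, ∃ c : K, w = c • v e) ∧
        ∀ I ⊆ M.E, (M.Indep I ↔ (I.ncard ≤ 4 ∧ LinearIndependent K (fun x : I => v x))))) := by
  intro α M hMf h0 h1 hP h4 hmeet
  exact PMD.Mat.final α M hMf h0 h1 hP h4 hmeet

end Pool.Agent.S06267
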