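import Pool.Statements.S06270

/-!
# `g(n) ≤ (3/4 + o(1)) n²`: the conjectured value `4/5` is wrong

Vertices of `K_n`, `n = 2 q²`, are written `((i₁, i₂), a)` with `i₁, i₂ ∈ [q]` and `a ∈ {0,1}`.
We write `E(K_n) × E(K_n)` as a disjoint union of

* three main families of products, each indexed by a pair of fibres
  `((i₁, i₂), (i₁', i₂'))`, that is `3 q⁴ = (3/4) n²` products, and
* a bounded number of families of products indexed by only three coordinates,
  i.e. `O(q³) = o(n²)` products.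

Which products are used depends only on the order pattern of the coordinates and on the types, so
that the exact covering property is a finite statement about patterns (`pattern_exact`), checked
by the kernel.
-/

set_option autoImplicit false
open Pool Pool.MP_8421da_co

namespace Pool.Agent.S06270

/-! ## The finite pattern data -/

/-- An oriented pair pattern: the two coordinate signs and the two types. -/
abbrev Pat := Fin 3 × Fin 3 × Bool × Bool

/-- The pattern of the reversed pair. -/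
def rv (p : Pat) : Pat := (p.1.rev, p.2.1.rev, p.2.2.2, p.2.2.1)

/-- Reverse the pattern if the flag is set. -/
def fl (x : Bool) (p : Pat) : Pat := cond x (rv p) p

/-- the coordinate sign number `c` of a pattern -/
def ps (c : Bool) (p : Pat) : Fin 3 := cond c p.2.1 p.1

/-- Centre sets of the main families, left side. -/
def mCL (l : Fin 3) (a : Bool) : Bool := Nat.testBit 54 (2 * l.val + a.toNat)
/-- Centre sets of the main families, right side. -/
def mCR (l : Fin 3) (a : Bool) : Bool := Nat.testBit 30 (2 * l.val + a.toNat)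
/-- Neighbour sets of the main families, left side. -/
def mEL (l s1 s2 : Fin 3) (b : Bool) : Bool :=
  Nat.testBit 9013796592945152 (((l.val * 3 + s1.val) * 3 + s2.val) * 2 + b.toNat)
/-- Neighbour sets of the main families, right side. -/
def mER (l s1 s2 : Fin 3) (b : Bool) : Bool :=
  Nat.testBit 5383394426945936 (((l.val * 3 + s1.val) * 3 + s2.val) * 2 + b.toNat)

/-- Label index. -/
def lidx (c : Bool) (k : Fin 3) (a b : Bool) (p : Pat) : Nat :=
  ((((((c.toNat * 3 + k.val) * 2 + a.toNat) * 2 + b.toNat) * 3 + p.1.val) * 3 + p.2.1.val) * 2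
    + p.2.2.1.toNat) * 2 + p.2.2.2.toNat

/-- Which cheap products are used, with the cheap index on the left side. -/
def tabL (c : Bool) (k : Fin 3) (a b : Bool) (p : Pat) : Bool :=
  Nat.testBit 0x70400000111800000274e00000000000000000000000000000000888800000000000000000000000000000000000000000000000000888900000000100000000100000010800000000000000000000000000100000000000000000000000000000000000000000000000000
    (lidx c k a b p)
/-- Which cheap products are used, with the cheap index on the right side. -/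
def tabR (c : Bool) (k : Fin 3) (a b : Bool) (p : Pat) : Bool :=
  Nat.testBit 0x150420000958c20000111800000000000000000000000150420000000000000000000000000000000000000000000000000717e000004a30000004a30000000e00200000000000000000000004a3000000000000000000000000000000000000000000000000000
    (lidx c k a b p)

/-- The kinds of products. -/
abbrev Kind := Fin 3 ⊕ Bool ⊕ Bool

/-- Does the product of the given kind, centred at the first vertices of the two oriented pairs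
with patterns `p`, `p'`, occur? -/
def occ (z : Kind) (p p' : Pat) : Bool :=
  match z with
  | .inl l => (mCL l p.2.2.1 && mEL l p.1 p.2.1 p.2.2.2) &&
      (mCR l p'.2.2.1 && mER l p'.1 p'.2.1 p'.2.2.2)
  | .inr (.inl c) => tabL c (ps c p) p.2.2.1 p.2.2.2 p'
  | .inr (.inr c) => tabR c (ps c p') p'.2.2.1 p'.2.2.2 p

/-- A pattern is nondegenerate if it can come from two distinct vertices. -/
def nondeg (p : Pat) : Bool := !(p.1 == 1 && p.2.1 == 1 && p.2.2.1 == p.2.2.2)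


/-- The exact covering property, at the level of patterns. -/
theorem pattern_exact : ∀ s1 s2 : Fin 3, ∀ a b : Bool, ∀ t1 t2 : Fin 3, ∀ c d : Bool,
    nondeg (s1, s2, a, b) = true → nondeg (t1, t2, c, d) = true →
    ∃ z : Kind × Bool × Bool, occ z.1 (fl z.2.1 (s1, s2, a, b)) (fl z.2.2 (t1, t2, c, d)) = true ∧
      ∀ w : Kind × Bool × Bool,
        occ w.1 (fl w.2.1 (s1, s2, a, b)) (fl w.2.2 (t1, t2, c, d)) = true → w = z := by
  decide +kernel

theorem disjL : ∀ l : Fin 3, ∀ b : Bool, mCL l b = true → mEL l 1 1 b = true → False := by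
  decide +kernel

theorem disjR : ∀ l : Fin 3, ∀ b : Bool, mCR l b = true → mER l 1 1 b = true → False := by
  decide +kernel

theorem tabL_nd : ∀ c : Bool, ∀ k : Fin 3, ∀ a b : Bool, ∀ t1 t2 : Fin 3, ∀ a' b' : Bool,
    tabL c k a b (t1, t2, a', b') = true →
      (k = 1 → a ≠ b) ∧ (t1 = 1 → t2 = 1 → a' ≠ b') := by
  decide +kernel

theorem tabR_nd : ∀ c : Bool, ∀ k : Fin 3, ∀ a b : Bool, ∀ t1 t2 : Fin 3, ∀ a' b' : Bool,
    tabR c k a b (t1, t2, a', b') = true →
      (k = 1 → a ≠ b) ∧ (t1 = 1 → t2 = 1 → a' ≠ b') := by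
  decide +kernel

/-! ## The geometric side -/

/-- Sign of `j - i`: `0` if `j < i`, `1` if `j = i`, `2` if `i < j`. -/
def sg {q : ℕ} (i j : Fin q) : Fin 3 := if j < i then 0 else if j = i then 1 else 2

theorem sg_self {q : ℕ} (i : Fin q) : sg i i = 1 := by simp [sg]

theorem sg_eq_one {q : ℕ} {i j : Fin q} : sg i j = 1 ↔ j = i := by
  unfold sg
  split_ifs with h1 h2
  · simp only [false_iff, Fin.isValue, Fin.reduceEq]
    exact ne_of_lt h1
  · simp [h2]
  · simp [h2]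

theorem sg_rev {q : ℕ} (i j : Fin q) : (sg i j).rev = sg j i := by
  unfold sg
  rcases lt_trichotomy i j with h | h | h
  · rw [if_neg (not_lt.mpr h.le), if_neg (ne_of_gt h), if_pos h]; rfl
  · subst h; simp
  · rw [if_pos h, if_neg (not_lt.mpr h.le), if_neg (ne_of_gt h)]; rfl

/-- Vertices. -/
abbrev V (q : ℕ) := (Fin q × Fin q) × Bool

/-- coordinate number `c` of a vertex -/
def co {q : ℕ} (c : Bool) (x : V q) : Fin q := cond c x.1.2 x.1.1

/-- The pattern of a pair of vertices. -/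
def pat {q : ℕ} (x y : V q) : Pat := (sg x.1.1 y.1.1, sg x.1.2 y.1.2, x.2, y.2)

theorem rv_pat {q : ℕ} (x y : V q) : rv (pat x y) = pat y x := by
  simp [rv, pat, sg_rev]

theorem ps_pat {q : ℕ} (c : Bool) (x y : V q) : ps c (pat x y) = sg (co c x) (co c y) := by
  cases c <;> rfl

theorem nondeg_pat {q : ℕ} {x y : V q} (h : x ≠ y) : nondeg (pat x y) = true := by
  unfold nondeg pat
  simp only [Bool.not_eq_true', Bool.and_eq_false_iff, beq_eq_false_iff_ne, ne_eq, sg_eq_one]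
  by_contra hc
  push Not at hc
  apply h
  obtain ⟨⟨h1, h2⟩, h3⟩ := hc
  exact Prod.ext (Prod.ext h1.symm h2.symm) h3

/-- Labels of the cheap families. -/
abbrev Lab := Bool × (Fin 3 × Bool × Bool) × Pat

/-- Index set of the products. -/
abbrev Idx (q : ℕ) := (Fin 3 × (Fin q × Fin q) × (Fin q × Fin q)) ⊕
  (Lab × Fin q × (Fin q × Fin q)) ⊕ (Lab × (Fin q × Fin q) × Fin q)

/-- First set on the left. -/
def SA {q : ℕ} (i : Idx q) (z : V q) : Prop :=
  match i with
  | .inl (l, f, _) => z.1 = f ∧ mCL l z.2 = true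
  | .inr (.inl ((c, (k, a, b), p), x, _)) => co c z = x ∧ z.2 = a ∧ tabL c k a b p = true
  | .inr (.inr ((c, (k, a, b), p), f, _)) => z.1 = f ∧ z.2 = p.2.2.1 ∧ tabR c k a b p = true

/-- Second set on the left. -/
def SB {q : ℕ} (i : Idx q) (z : V q) : Prop :=
  match i with
  | .inl (l, f, _) => mEL l (sg f.1 z.1.1) (sg f.2 z.1.2) z.2 = true
  | .inr (.inl ((c, (k, a, b), p), x, _)) => sg x (co c z) = k ∧ z.2 = b ∧ tabL c k a b p = true
  | .inr (.inr ((c, (k, a, b), p), f, _)) => sg f.1 z.1.1 = p.1 ∧ sg f.2 z.1.2 = p.2.1 ∧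
      z.2 = p.2.2.2 ∧ tabR c k a b p = true

/-- First set on the right. -/
def SC {q : ℕ} (i : Idx q) (z : V q) : Prop :=
  match i with
  | .inl (l, _, f) => z.1 = f ∧ mCR l z.2 = true
  | .inr (.inl ((c, (k, a, b), p), _, f)) => z.1 = f ∧ z.2 = p.2.2.1 ∧ tabL c k a b p = true
  | .inr (.inr ((c, (k, a, b), p), _, x)) => co c z = x ∧ z.2 = a ∧ tabR c k a b p = true

/-- Second set on the right. -/
def SD {q : ℕ} (i : Idx q) (z : V q) : Prop :=
  match i with
  | .inl (l, _, f) => mER l (sg f.1 z.1.1) (sg f.2 z.1.2) z.2 = true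
  | .inr (.inl ((c, (k, a, b), p), _, f)) => sg f.1 z.1.1 = p.1 ∧ sg f.2 z.1.2 = p.2.1 ∧
      z.2 = p.2.2.2 ∧ tabL c k a b p = true
  | .inr (.inr ((c, (k, a, b), p), _, x)) => sg x (co c z) = k ∧ z.2 = b ∧ tabR c k a b p = true

theorem disj_left {q : ℕ} (i : Idx q) (z : V q) : SA i z → SB i z → False := by
  rcases i with ⟨l, f, f'⟩ | ⟨⟨c, ⟨k, a, b⟩, ⟨t1, t2, a', b'⟩⟩, x, f⟩ |
    ⟨⟨c, ⟨k, a, b⟩, ⟨t1, t2, a', b'⟩⟩, f, x⟩
  · rintro ⟨h1, h2⟩ h3
    simp only [SB, h1, sg_self] at h3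
    exact disjL l z.2 h2 h3
  · rintro ⟨h1, h2, h3⟩ ⟨h4, h5, -⟩
    rw [h1, sg_self] at h4
    exact (tabL_nd c k a b t1 t2 a' b' h3).1 h4.symm (h2.symm.trans h5)
  · rintro ⟨h1, h2, h3⟩ ⟨h4, h5, h6, -⟩
    simp only [h1, sg_self] at h4 h5 h2 h6
    exact (tabR_nd c k a b t1 t2 a' b' h3).2 h4.symm h5.symm (h2.symm.trans h6)

theorem disj_right {q : ℕ} (i : Idx q) (z : V q) : SC i z → SD i z → False := by
  rcases i with ⟨l, f', f⟩ | ⟨⟨c, ⟨k, a, b⟩, ⟨t1, t2, a', b'⟩⟩, x, f⟩ |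
    ⟨⟨c, ⟨k, a, b⟩, ⟨t1, t2, a', b'⟩⟩, f, x⟩
  · rintro ⟨h1, h2⟩ h3
    simp only [SD, h1, sg_self] at h3
    exact disjR l z.2 h2 h3
  · rintro ⟨h1, h2, h3⟩ ⟨h4, h5, h6, -⟩
    simp only [h1, sg_self] at h4 h5 h2 h6
    exact (tabL_nd c k a b t1 t2 a' b' h3).2 h4.symm h5.symm (h2.symm.trans h6)
  · rintro ⟨h1, h2, h3⟩ ⟨h4, h5, -⟩
    rw [h1, sg_self] at h4
    exact (tabR_nd c k a b t1 t2 a' b' h3).1 h4.symm (h2.symm.trans h5)

/-- Oriented covering. -/
def covO {q : ℕ} (i : Idx q) (x y u v : V q) : Prop := (SA i x ∧ SB i y) ∧ (SC i u ∧ SD i v)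

/-- The index of the product of kind `z` centred at `x` and `u`. -/
def idxO {q : ℕ} (z : Kind) (x y u v : V q) : Idx q :=
  match z with
  | .inl l => .inl (l, x.1, u.1)
  | .inr (.inl c) => .inr (.inl ((c, (ps c (pat x y), x.2, y.2), pat u v), co c x, u.1))
  | .inr (.inr c) => .inr (.inr ((c, (ps c (pat u v), u.2, v.2), pat x y), x.1, co c u))

theorem covO_of_occ {q : ℕ} (z : Kind) (x y u v : V q) (h : occ z (pat x y) (pat u v) = true) :
    covO (idxO z x y u v) x y u v := by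
  rcases z with l | c | c
  · simp only [occ, pat, Bool.and_eq_true] at h
    obtain ⟨⟨h1, h2⟩, h3, h4⟩ := h
    exact ⟨⟨⟨rfl, h1⟩, h2⟩, ⟨rfl, h3⟩, h4⟩
  · have h' : tabL c (ps c (pat x y)) x.2 y.2 (pat u v) = true := h
    refine ⟨⟨⟨rfl, rfl, h'⟩, ⟨(ps_pat c x y).symm, rfl, h'⟩⟩, ⟨rfl, rfl, h'⟩, ⟨rfl, rfl, rfl, h'⟩⟩
  · have h' : tabR c (ps c (pat u v)) u.2 v.2 (pat x y) = true := h
    refine ⟨⟨⟨rfl, rfl, h'⟩, ⟨rfl, rfl, rfl, h'⟩⟩, ⟨rfl, rfl, h'⟩, ⟨(ps_pat c u v).symm, rfl, h'⟩⟩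

theorem occ_of_covO {q : ℕ} (i : Idx q) (x y u v : V q) (h : covO i x y u v) :
    ∃ z : Kind, occ z (pat x y) (pat u v) = true ∧ i = idxO z x y u v := by
  rcases i with ⟨l, f, f'⟩ | ⟨⟨c, ⟨k, a, b⟩, ⟨t1, t2, a', b'⟩⟩, t, f⟩ |
    ⟨⟨c, ⟨k, a, b⟩, ⟨t1, t2, a', b'⟩⟩, f, t⟩
  · obtain ⟨⟨⟨h1, h2⟩, h3⟩, ⟨h4, h5⟩, h6⟩ := h
    subst h1 h4
    refine ⟨.inl l, ?_, rfl⟩
    simp only [occ, pat, Bool.and_eq_true]
    exact ⟨⟨h2, h3⟩, h5, h6⟩
  · obtain ⟨⟨⟨h1, h2, h3⟩, ⟨h4, h5, -⟩⟩, ⟨h6, h7, -⟩, ⟨h8, h9, h10, -⟩⟩ := h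
    simp only at h7 h8 h9 h10
    subst h1 h2 h4 h5 h6 h7 h8 h9 h10
    refine ⟨.inr (.inl c), ?_, ?_⟩
    · show tabL c (ps c (pat x y)) x.2 y.2 (pat u v) = true
      rw [ps_pat]; exact h3
    · simp only [idxO, ps_pat]; rfl
  · obtain ⟨⟨⟨h1, h2, h3⟩, ⟨h4, h5, h6, -⟩⟩, ⟨h7, h8, -⟩, ⟨h9, h10, -⟩⟩ := h
    simp only at h2 h4 h5 h6
    subst h1 h2 h4 h5 h6 h7 h8 h9 h10
    refine ⟨.inr (.inr c), ?_, ?_⟩
    · show tabR c (ps c (pat u v)) u.2 v.2 (pat x y) = true
      rw [ps_pat]; exact h3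
    · simp only [idxO, ps_pat]; rfl

/-- Oriented index, with flags for reversing. -/
def idxF {q : ℕ} (w : Kind × Bool × Bool) (x y u v : V q) : Idx q :=
  idxO w.1 (cond w.2.1 y x) (cond w.2.1 x y) (cond w.2.2 v u) (cond w.2.2 u v)

/-- The unoriented covering relation, in the shape of the problem. -/
def cov {q : ℕ} (i : Idx q) (x y u v : V q) : Prop :=
  ((SA i x ∧ SB i y) ∨ (SB i x ∧ SA i y)) ∧ ((SC i u ∧ SD i v) ∨ (SD i u ∧ SC i v))

theorem cov_iff {q : ℕ} (i : Idx q) (x y u v : V q) :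
    cov i x y u v ↔ ∃ s t : Bool,
      covO i (cond s y x) (cond s x y) (cond t v u) (cond t u v) := by
  unfold cov covO
  constructor
  · rintro ⟨h1 | h1, h2 | h2⟩
    · exact ⟨false, false, h1, h2⟩
    · exact ⟨false, true, h1, h2.symm⟩
    · exact ⟨true, false, h1.symm, h2⟩
    · exact ⟨true, true, h1.symm, h2.symm⟩
  · rintro ⟨s, t, h1, h2⟩
    constructor
    · cases s
      · exact Or.inl h1
      · exact Or.inr h1.symm
    · cases t
      · exact Or.inl h2
      · exact Or.inr h2.symm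

theorem pat_cond {q : ℕ} (s : Bool) (x y : V q) :
    pat (cond s y x) (cond s x y) = fl s (pat x y) := by
  cases s
  · rfl
  · exact (rv_pat x y).symm

theorem exists_unique_cov {q : ℕ} (x y u v : V q) (hxy : x ≠ y) (huv : u ≠ v) :
    ∃! i : Idx q, cov i x y u v := by
  obtain ⟨z, hz, hu⟩ := pattern_exact _ _ _ _ _ _ _ _ (nondeg_pat hxy) (nondeg_pat huv)
  refine ⟨idxF z x y u v, ?_, ?_⟩
  · show cov (idxF z x y u v) x y u v
    rw [cov_iff]
    refine ⟨z.2.1, z.2.2, ?_⟩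
    apply covO_of_occ
    rw [pat_cond, pat_cond]
    exact hz
  · intro i hi
    rw [cov_iff] at hi
    obtain ⟨s, t, h⟩ := hi
    obtain ⟨w, hw, rfl⟩ := occ_of_covO i _ _ _ _ h
    rw [pat_cond, pat_cond] at hw
    have := hu (w, s, t) hw
    rw [← this]
    rfl

theorem card_V (q : ℕ) : Fintype.card (V q) = 2 * q ^ 2 := by
  simp [V, Fintype.card_prod]; ring

theorem card_Idx (q : ℕ) : Fintype.card (Idx q) = 3 * q ^ 4 + 1728 * q ^ 3 := by
  simp only [Idx, Lab, Pat, Fintype.card_sum, Fintype.card_prod, Fintype.card_fin,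
    Fintype.card_bool]
  ring

/-- The construction: `g(2 q²) ≤ 3 q⁴ + 1728 q³`. -/
theorem construction (q : ℕ) :
    ∃ A B C D : Fin (3 * q ^ 4 + 1728 * q ^ 3) → Finset (Fin (2 * q ^ 2)),
      (∀ i, Disjoint (A i) (B i) ∧ Disjoint (C i) (D i)) ∧
      ∀ x y u v : Fin (2 * q ^ 2), x ≠ y → u ≠ v →
        ∃! i, ((x ∈ A i ∧ y ∈ B i) ∨ (x ∈ B i ∧ y ∈ A i)) ∧
          ((u ∈ C i ∧ v ∈ D i) ∨ (u ∈ D i ∧ v ∈ C i)) := by
  classical
  let e : Fin (2 * q ^ 2) ≃ V q := (Fintype.equivFinOfCardEq (card_V q)).symm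
  let f : Fin (3 * q ^ 4 + 1728 * q ^ 3) ≃ Idx q := (Fintype.equivFinOfCardEq (card_Idx q)).symm
  refine ⟨fun i => Finset.univ.filter (fun m => SA (f i) (e m)),
    fun i => Finset.univ.filter (fun m => SB (f i) (e m)),
    fun i => Finset.univ.filter (fun m => SC (f i) (e m)),
    fun i => Finset.univ.filter (fun m => SD (f i) (e m)), ?_, ?_⟩
  · intro i
    constructor
    · rw [Finset.disjoint_left]
      intro m h1 h2
      rw [Finset.mem_filter] at h1 h2
      exact disj_left _ _ h1.2 h2.2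
    · rw [Finset.disjoint_left]
      intro m h1 h2
      rw [Finset.mem_filter] at h1 h2
      exact disj_right _ _ h1.2 h2.2
  · intro x y u v hxy huv
    obtain ⟨i, hi, hu⟩ := exists_unique_cov (e x) (e y) (e u) (e v)
      (fun h => hxy (e.injective h)) (fun h => huv (e.injective h))
    simp only [Finset.mem_filter, Finset.mem_univ, true_and]
    refine ⟨f.symm i, ?_, ?_⟩
    · simp only [Equiv.apply_symm_apply]
      exact hi
    · intro j hj
      rw [Equiv.eq_symm_apply]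
      exact hu (f j) hj

/-- The negation of the preceding statement: For every ε>0 and all large n, E(K_n)×E(K_n) can be partitioned into at most (4/5+ε)n² products of complete bipartite edge sets, and every such partition uses at least (4/5−ε)n² parts. -/
theorem result :
    ¬ ((∀ ε : ℝ, 0 < ε → ∃ N : ℕ, ∀ n : ℕ, N ≤ n → ∃ k : ℕ,
      (k : ℝ) ≤ (4 / 5 + ε) * (n : ℝ) ^ 2 ∧
      ∃ A B C D : Fin k → Finset (Fin n),
        (∀ i, Disjoint (A i) (B i) ∧ Disjoint (C i) (D i)) ∧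
        ∀ x y u v : Fin n, x ≠ y → u ≠ v →
          ∃! i : Fin k, ((x ∈ A i ∧ y ∈ B i) ∨ (x ∈ B i ∧ y ∈ A i)) ∧
            ((u ∈ C i ∧ v ∈ D i) ∨ (u ∈ D i ∧ v ∈ C i))) ∧
    (∀ ε : ℝ, 0 < ε → ∃ N : ℕ, ∀ n : ℕ, N ≤ n → ∀ k : ℕ,
      (∃ A B C D : Fin k → Finset (Fin n),
        (∀ i, Disjoint (A i) (B i) ∧ Disjoint (C i) (D i)) ∧
        ∀ x y u v : Fin n, x ≠ y → u ≠ v →
          ∃! i : Fin k, ((x ∈ A i ∧ y ∈ B i) ∨ (x ∈ B i ∧ y ∈ A i)) ∧
            ((u ∈ C i ∧ v ∈ D i) ∨ (u ∈ D i ∧ v ∈ C i))) →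
      (4 / 5 - ε) * (n : ℝ) ^ 2 ≤ (k : ℝ))) := by
  rintro ⟨-, h⟩
  obtain ⟨N, hN⟩ := h (1 / 50) (by norm_num)
  obtain ⟨q, hq1, hq2⟩ : ∃ q : ℕ, N ≤ q ∧ 20000 ≤ q :=
    ⟨max N 20000, le_max_left _ _, le_max_right _ _⟩
  have hNq : N ≤ 2 * q ^ 2 := by nlinarith
  have key := hN (2 * q ^ 2) hNq (3 * q ^ 4 + 1728 * q ^ 3) (construction q)
  have hq0 : (20000 : ℝ) ≤ (q : ℝ) := by exact_mod_cast hq2
  push_cast at key
  have h3 : (0 : ℝ) < (q : ℝ) ^ 3 := by positivity
  nlinarith [mul_le_mul_of_nonneg_left hq0 h3.le]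

end Pool.Agent.S06270
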