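import Pool.Statements.S06272
import Pool.Agent.Helper96.FlowFinal
import Pool.Agent.Helper96.FlowSimple

set_option autoImplicit false
open Pool Pool.MP_84601c_co

namespace Pool.Agent.S06272

/-- The negation of the preceding statement: For every finite graph whose flow polynomial (sum over edge subsets A of (-1)^(∣E∣-∣A∣) x^(∣A∣-∣V∣+components(A))) is not identically zero, every real root of that polynomial is at most 6. -/
theorem result :
    ¬ (∀ (V : Type) [Fintype V] [DecidableEq V] (G : SimpleGraph V) [DecidableRel G.Adj] (x : ℝ),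
      (∑ A ∈ G.edgeFinset.powerset,
          Polynomial.C ((-1 : ℝ) ^ (G.edgeFinset.card - A.card)) *
            Polynomial.X ^ (A.card + Nat.card (SimpleGraph.fromEdgeSet (A : Set (Sym2 V))).ConnectedComponent
              - Fintype.card V)) ≠ 0 →
      (∑ A ∈ G.edgeFinset.powerset,
          Polynomial.C ((-1 : ℝ) ^ (G.edgeFinset.card - A.card)) *
            Polynomial.X ^ (A.card + Nat.card (SimpleGraph.fromEdgeSet (A : Set (Sym2 V))).ConnectedComponent
              - Fintype.card V)).IsRoot x →
      x ≤ 6) := by
  intro h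
  obtain ⟨n, k, src, tgt, Q, hQ, hQ0, x, hx, hx0⟩ := Pool.Agent.Helper96.Flow.exists_multigraph
  let _ : DecidableRel (Pool.Agent.Helper96.Flow.subdiv src tgt).Adj := Classical.decRel _
  have key := Pool.Agent.Helper96.Flow.flowP_subdiv src tgt Q hQ
  refine absurd (h _ (Pool.Agent.Helper96.Flow.subdiv src tgt) x ?_ ?_) (not_le.mpr hx)
  · change Pool.Agent.Helper96.Flow.flowP (Pool.Agent.Helper96.Flow.subdiv src tgt) ≠ 0
    rw [key]
    intro h0
    apply hQ0
    exact Polynomial.map_injective _ (RingHom.injective_int _) (by rw [h0, Polynomial.map_zero])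
  · change (Pool.Agent.Helper96.Flow.flowP (Pool.Agent.Helper96.Flow.subdiv src tgt)).IsRoot x
    rw [key, Polynomial.IsRoot.def, Polynomial.eval_map]
    exact hx0

end Pool.Agent.S06272
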