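import Pool.Statements.S06274

set_option autoImplicit false
open Pool Pool.MP_850f75_co

namespace Pool.Agent.S06274

/-- Neighbourhoods of the 13-vertex counterexample, as bit masks. -/
def maskG : List Nat :=
  [6258, 1925, 6922, 7316, 1257, 5201, 2225, 6490, 2694, 5382, 6714, 1485, 1709]

/-- Neighbourhoods in the complement, as bit masks. -/
def maskC : List Nat :=
  [1932, 6264, 1265, 867, 6918, 2958, 5902, 1573, 5241, 2297, 453, 4658, 2386]

/-- The counterexample graph. -/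
def GG : SimpleGraph (Fin 13) where
  Adj i j := (maskG.getD i.val 0).testBit j.val = true
  symm := ⟨by decide⟩
  loopless := ⟨by decide⟩

instance decGG : DecidableRel GG.Adj := fun i j =>
  inferInstanceAs (Decidable ((maskG.getD i.val 0).testBit j.val = true))

theorem adjC (i j : Fin 13) : GGᶜ.Adj i j ↔ (maskC.getD i.val 0).testBit j.val = true := by
  rw [SimpleGraph.compl_adj]
  revert i j
  decide

/-- Criterion for having no star cutset. -/
theorem noStar (A : SimpleGraph (Fin 13)) (r : Fin 13 → Fin 13) (p : Fin 13 → Fin 13 → Fin 13)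
    (d : Fin 13 → Fin 13 → ℕ)
    (hr : ∀ x, r x ≠ x ∧ ¬ A.Adj x (r x))
    (h : ∀ x u, u ≠ x → u = r x ∨
      (A.Adj u (p x u) ∧ p x u ≠ x ∧ ¬ A.Adj x (p x u) ∧ d x (p x u) < d x u)) :
    ¬ ∃ C : Set (Fin 13), ∃ x ∈ C, (∀ y ∈ C, y ≠ x → A.Adj x y) ∧
      ¬ (A.induce Cᶜ).Preconnected := by
  rintro ⟨C, x, hx, hC, hn⟩
  apply hn
  have hM : ∀ u, u ≠ x → ¬ A.Adj x u → u ∈ Cᶜ := fun u hu hA hc => hA (hC u hc hu)
  have key : ∀ (N : ℕ) (u : Fin 13) (hu : u ∈ Cᶜ), d x u = N →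
      (A.induce Cᶜ).Reachable ⟨u, hu⟩ ⟨r x, hM _ (hr x).1 (hr x).2⟩ := by
    intro N
    induction N using Nat.strong_induction_on with
    | _ N ih =>
      intro u hu hN
      have hux : u ≠ x := fun e => hu (e ▸ hx)
      rcases h x u hux with h1 | ⟨h1, h2, h3, h4⟩
      · subst h1; exact SimpleGraph.Reachable.refl _
      · have hp : p x u ∈ Cᶜ := hM _ h2 h3
        refine SimpleGraph.Reachable.trans (v := ⟨p x u, hp⟩) ?_ (ih _ (hN ▸ h4) _ hp rfl)
        apply SimpleGraph.Adj.reachable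
        exact h1
  intro u v
  exact (key _ u.1 u.2 rfl).trans (key _ v.1 v.2 rfl).symm

def pG : Fin 13 → Fin 13 → Fin 13 := fun x u =>
  (([[0, 2, 0, 2, 3, 10, 7, 3, 2, 2, 3, 2, 2], [4, 0, 3, 0, 3, 4, 4, 3, 11, 12, 3, 3, 3], [0, 0, 0, 4, 0, 0, 0, 4, 7, 10, 4, 0, 0], [0, 0, 1, 0, 0, 0, 0, 1, 1, 1, 1, 0, 0], [1, 0, 1, 2, 0, 12, 11, 1, 1, 1, 1, 2, 2], [1, 0, 1, 2, 3, 0, 7, 1, 1, 1, 1, 2, 2], [1, 0, 1, 2, 3, 10, 0, 1, 1, 1, 1, 2, 2], [0, 0, 9, 2, 0, 0, 0, 0, 2, 10, 5, 0, 0], [0, 0, 3, 4, 0, 0, 0, 3, 0, 10, 4, 0, 0], [0, 0, 3, 4, 0, 0, 0, 4, 7, 0, 3, 0, 0], [0, 0, 8, 2, 0, 0, 0, 6, 7, 2, 0, 0, 0], [1, 0, 1, 4, 5, 12, 4, 1, 1, 1, 1, 0, 9], [1, 0, 1, 4, 6, 4, 11, 1, 1, 1, 1, 8, 0]] : List (List (Fin 13))).getD x.val []).getD u.val 0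

def dG : Fin 13 → Fin 13 → ℕ := fun x u =>
  (([[0, 20, 0, 1, 20, 20, 20, 2, 1, 1, 2, 20, 20], [20, 0, 20, 0, 1, 2, 2, 20, 20, 20, 20, 1, 1], [0, 20, 0, 20, 1, 1, 1, 2, 20, 20, 2, 20, 20], [0, 1, 20, 0, 20, 1, 1, 20, 2, 2, 20, 20, 20], [20, 0, 1, 20, 0, 20, 20, 20, 1, 1, 20, 2, 2], [20, 0, 1, 2, 20, 0, 20, 1, 1, 1, 20, 2, 20], [20, 0, 1, 2, 20, 20, 0, 20, 1, 1, 1, 20, 2], [0, 20, 4, 20, 20, 1, 20, 0, 20, 3, 2, 20, 20], [0, 20, 20, 2, 1, 1, 1, 20, 0, 20, 2, 20, 1], [0, 20, 20, 2, 1, 1, 1, 2, 20, 0, 20, 1, 20], [0, 20, 4, 20, 20, 20, 1, 2, 3, 20, 0, 20, 20], [20, 0, 20, 20, 4, 3, 20, 20, 20, 1, 20, 0, 2], [20, 0, 20, 20, 4, 20, 3, 20, 1, 20, 20, 2, 0]] : List (List ℕ)).getD x.val []).getD u.val 0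

def rG : Fin 13 → Fin 13 := fun x =>
  ([2, 3, 0, 0, 1, 1, 1, 0, 0, 0, 0, 1, 1] : List (Fin 13)).getD x.val 0

def pC : Fin 13 → Fin 13 → Fin 13 := fun x u =>
  (([[0, 0, 4, 1, 1, 1, 1, 5, 4, 4, 6, 1, 1], [0, 0, 0, 0, 2, 2, 2, 0, 0, 0, 0, 9, 8], [3, 0, 0, 1, 1, 1, 1, 9, 3, 3, 8, 1, 1], [2, 4, 0, 0, 2, 2, 2, 2, 4, 4, 2, 4, 4], [0, 3, 0, 0, 0, 3, 3, 0, 0, 0, 0, 5, 6], [0, 4, 0, 0, 12, 0, 10, 0, 0, 0, 0, 4, 6], [0, 4, 0, 0, 11, 7, 0, 0, 0, 0, 0, 5, 4], [3, 0, 4, 1, 1, 1, 1, 0, 3, 3, 6, 1, 1], [2, 0, 7, 1, 1, 1, 1, 9, 0, 11, 2, 1, 1], [2, 0, 10, 1, 1, 1, 1, 2, 12, 0, 8, 1, 1], [3, 0, 4, 1, 1, 1, 1, 5, 3, 3, 0, 1, 1], [0, 3, 0, 0, 2, 2, 2, 0, 0, 0, 0, 0, 6], [0, 3, 0, 0, 2, 2, 2, 0, 0, 0, 0, 5, 0]] : List (List (Fin 13))).getD x.val []).getD u.val 0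

def dC : Fin 13 → Fin 13 → ℕ := fun x u =>
  (([[0, 0, 20, 20, 1, 1, 1, 20, 20, 20, 20, 1, 1], [0, 0, 1, 20, 20, 20, 20, 1, 1, 1, 1, 20, 20], [20, 0, 0, 1, 20, 20, 20, 20, 2, 2, 20, 1, 1], [20, 20, 0, 0, 1, 20, 20, 1, 20, 20, 1, 2, 2], [0, 20, 20, 1, 0, 2, 2, 1, 20, 20, 1, 20, 20], [0, 20, 20, 20, 4, 0, 2, 20, 20, 20, 1, 20, 3], [0, 20, 20, 20, 4, 2, 0, 1, 20, 20, 20, 3, 20], [20, 0, 20, 1, 1, 20, 1, 0, 2, 20, 20, 1, 1], [20, 0, 4, 20, 20, 20, 20, 3, 0, 2, 20, 1, 20], [20, 0, 4, 20, 20, 20, 20, 20, 2, 0, 3, 20, 1], [20, 0, 20, 1, 1, 1, 20, 20, 20, 2, 0, 1, 1], [0, 20, 1, 1, 20, 20, 2, 1, 1, 20, 1, 0, 20], [0, 20, 1, 1, 20, 2, 20, 1, 20, 1, 1, 20, 0]] : List (List ℕ)).getD x.val []).getD u.val 0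

def rC : Fin 13 → Fin 13 := fun x =>
  ([1, 0, 1, 2, 0, 0, 0, 1, 1, 1, 1, 0, 0] : List (Fin 13)).getD x.val 0

theorem starG : ¬ ∃ C : Set (Fin 13), ∃ x ∈ C, (∀ y ∈ C, y ≠ x → GG.Adj x y) ∧
      ¬ (GG.induce Cᶜ).Preconnected := by
  apply noStar GG rG pG dG
  · decide +kernel
  · decide +kernel

theorem starC : ¬ ∃ C : Set (Fin 13), ∃ x ∈ C, (∀ y ∈ C, y ≠ x → GGᶜ.Adj x y) ∧
      ¬ (GGᶜ.induce Cᶜ).Preconnected := by
  apply noStar GGᶜ rC pC dC
  · simp only [adjC]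
    decide +kernel
  · simp only [adjC]
    decide +kernel

/-- Number of elements of a subset of the 13 vertices coded by a bit mask. -/
def pc (m : Nat) : Nat := (List.finRange 13).countP (fun i => m.testBit i.val)

/-- Number of vertices of `m` adjacent to `i`. -/
def dg (mk : List Nat) (m : Nat) (i : Fin 13) : Nat :=
  (List.finRange 13).countP (fun j => m.testBit j.val && (mk.getD i.val 0).testBit j.val)

/-- The finite check. -/
def chk (mk : List Nat) (m : Nat) : Bool :=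
  !((List.finRange 13).all (fun i => !(m.testBit i.val) || dg mk m i == 2)) ||
  (m == 31) || (decide (pc m < 5)) ||
  (decide ((List.finRange 13).countP (fun i => m.testBit i.val && decide (i.val < 5)) < 2)) ||
  ((List.finRange 13).any (fun i => m.testBit i.val && (List.finRange 13).any (fun j =>
    m.testBit j.val && (mk.getD i.val 0).testBit j.val && (List.finRange 13).any (fun k =>
      m.testBit k.val && (mk.getD i.val 0).testBit k.val && (mk.getD j.val 0).testBit k.val))))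

theorem chkG : (List.range 8192).all (chk maskG) = true := by decide +kernel

theorem chkC : (List.range 8192).all (chk maskC) = true := by decide +kernel


theorem ge_five {n : ℕ} (hn : 5 ≤ n) : ∃ k, n = k + 5 := ⟨n - 5, by omega⟩

/-- In an induced cycle every vertex has exactly two neighbours. -/
theorem two_nbrs (A : SimpleGraph (Fin 13)) [DecidableRel A.Adj] (T : Set (Fin 13))
    [DecidablePred (· ∈ T)] (n : ℕ) (hn : 5 ≤ n)
    (e : A.induce T ≃g SimpleGraph.cycleGraph n) (v : Fin 13) (hv : v ∈ T) :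
    (Finset.univ.filter (fun w : Fin 13 => w ∈ T ∧ A.Adj v w)).card = 2 := by
  obtain ⟨k, rfl⟩ := ge_five hn
  set c := e ⟨v, hv⟩ with hc
  set a := e.symm (c + 1) with ha
  set b := e.symm (c - 1) with hb
  have hab : a.1 ≠ b.1 := by
    intro h
    have h2 : a = b := Subtype.ext h
    have h3 : c + 1 = c - 1 := e.symm.injective h2
    have h4 : (1 : Fin (k + 5)) + 1 = 0 := by
      have := congrArg (fun z => z - c + 1) h3
      simpa [add_comm, add_left_comm, add_assoc, sub_eq_add_neg] using this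
    have h5 := congrArg Fin.val h4
    have h6 : (1 : Fin (k + 5)).val = 1 := Fin.val_one (k + 3)
    rw [Fin.val_add, h6, Nat.mod_eq_of_lt (by omega)] at h5
    have h7 : (0 : Fin (k + 5)).val = 0 := rfl
    omega
  have hset : (Finset.univ.filter (fun w : Fin 13 => w ∈ T ∧ A.Adj v w)) = {a.1, b.1} := by
    ext w
    simp only [Finset.mem_filter, Finset.mem_univ, true_and, Finset.mem_insert,
      Finset.mem_singleton]
    constructor
    · rintro ⟨hw, hadj⟩
      have h1 : (A.induce T).Adj ⟨v, hv⟩ ⟨w, hw⟩ := hadj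
      have h2 : (SimpleGraph.cycleGraph (k + 5)).Adj (e ⟨v, hv⟩) (e ⟨w, hw⟩) :=
        e.map_adj_iff.mpr h1
      rw [SimpleGraph.cycleGraph_adj] at h2
      rcases h2 with h2 | h2
      · right
        have : e ⟨w, hw⟩ = c - 1 := by
          rw [hc, ← h2]; abel
        have h3 : (⟨w, hw⟩ : T) = b := by rw [hb, ← this, e.symm_apply_apply]
        exact congrArg Subtype.val h3
      · left
        have : e ⟨w, hw⟩ = c + 1 := by
          rw [hc, ← h2]; abel
        have h3 : (⟨w, hw⟩ : T) = a := by rw [ha, ← this, e.symm_apply_apply]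
        exact congrArg Subtype.val h3
    · rintro (h | h)
      · subst h
        refine ⟨a.2, ?_⟩
        have h1 : (A.induce T).Adj ⟨v, hv⟩ a := by
          rw [← e.map_adj_iff, ha, e.apply_symm_apply, SimpleGraph.cycleGraph_adj]
          right; rw [← hc]; abel
        exact h1
      · subst h
        refine ⟨b.2, ?_⟩
        have h1 : (A.induce T).Adj ⟨v, hv⟩ b := by
          rw [← e.map_adj_iff, hb, e.apply_symm_apply, SimpleGraph.cycleGraph_adj]
          left; rw [← hc]; abel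
        exact h1
  rw [hset, Finset.card_pair hab]

/-- An induced cycle of length at least five has no triangle. -/
theorem no_tri (A : SimpleGraph (Fin 13)) (T : Set (Fin 13)) (n : ℕ) (hn : 5 ≤ n)
    (e : A.induce T ≃g SimpleGraph.cycleGraph n) (u v w : Fin 13) (hu : u ∈ T) (hv : v ∈ T)
    (hw : w ∈ T) (h1 : A.Adj u v) (h2 : A.Adj u w) (h3 : A.Adj v w) : False := by
  obtain ⟨k, rfl⟩ := ge_five hn
  have g1 : (SimpleGraph.cycleGraph (k + 5)).Adj (e ⟨u, hu⟩) (e ⟨v, hv⟩) :=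
    e.map_adj_iff.mpr h1
  have g2 : (SimpleGraph.cycleGraph (k + 5)).Adj (e ⟨u, hu⟩) (e ⟨w, hw⟩) :=
    e.map_adj_iff.mpr h2
  have g3 : (SimpleGraph.cycleGraph (k + 5)).Adj (e ⟨v, hv⟩) (e ⟨w, hw⟩) :=
    e.map_adj_iff.mpr h3
  rw [SimpleGraph.cycleGraph_adj'] at g1 g2 g3
  generalize e ⟨u, hu⟩ = x at *
  generalize e ⟨v, hv⟩ = y at *
  generalize e ⟨w, hw⟩ = z at *
  rcases x with ⟨x, hx⟩
  rcases y with ⟨y, hy⟩
  rcases z with ⟨z, hz⟩
  have key : ∀ a b : ℕ, ∀ (ha : a < k + 5) (hb : b < k + 5),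
      ((⟨a, ha⟩ - ⟨b, hb⟩ : Fin (k + 5)).val = 1) → (a = b + 1 ∨ (b = k + 4 ∧ a = 0)) := by
    intro a b ha hb h
    rw [Fin.sub_def] at h
    simp only at h
    by_cases hab : b ≤ a
    · have : (k + 5 - b + a) = (a - b) + (k + 5) := by omega
      rw [this, Nat.add_mod_right, Nat.mod_eq_of_lt (by omega)] at h
      omega
    · rw [Nat.mod_eq_of_lt (by omega)] at h
      omega
  rcases g1 with g1 | g1 <;> rcases g2 with g2 | g2 <;> rcases g3 with g3 | g3 <;>
    (have q1 := key _ _ _ _ g1; have q2 := key _ _ _ _ g2; have q3 := key _ _ _ _ g3; omega)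

theorem card_ge (A : SimpleGraph (Fin 13)) (T : Set (Fin 13)) [DecidablePred (· ∈ T)]
    (n : ℕ) (hn : 5 ≤ n)
    (e : A.induce T ≃g SimpleGraph.cycleGraph n) :
    5 ≤ (Finset.univ.filter (fun w : Fin 13 => w ∈ T)).card := by
  have h1 : Fintype.card T = n := by
    rw [Fintype.card_congr e.toEquiv, Fintype.card_fin]
  have h2 : Fintype.card T = (Finset.univ.filter (fun w : Fin 13 => w ∈ T)).card :=
    Fintype.card_subtype _
  omega

theorem countP_eq (q : Fin 13 → Bool) :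
    (List.finRange 13).countP q = (Finset.univ.filter (fun i : Fin 13 => q i = true)).card := by
  have h : (Finset.univ.filter (fun i : Fin 13 => q i = true)) =
      ((List.finRange 13).filter q).toFinset := by
    ext i; simp
  rw [h, List.toFinset_card_of_nodup (List.Nodup.filter _ (List.nodup_finRange 13)),
    List.countP_eq_length_filter]

theorem isolated (A : SimpleGraph (Fin 13)) (mk : List Nat)
    (hA : ∀ i j : Fin 13, A.Adj i j ↔ (mk.getD i.val 0).testBit j.val = true)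
    (hchk : (List.range 8192).all (chk mk) = true)
    (T : Set (Fin 13)) (n : ℕ) (hn : 5 ≤ n)
    (e : A.induce T ≃g SimpleGraph.cycleGraph n)
    (hT : 2 ≤ ({v : Fin 13 | v.val < 5} ∩ T).ncard) : T = {v : Fin 13 | v.val < 5} := by
  classical
  set f : Fin 13 → Bool := fun i => decide (i ∈ T) with hf
  set m := Nat.ofBits f with hm
  have hmlt : m < 8192 := Nat.ofBits_lt_two_pow f
  have hbit : ∀ i : Fin 13, m.testBit i.val = true ↔ i ∈ T := by
    intro i
    rw [hm, Nat.testBit_ofBits_lt f i.val i.2]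
    simp [hf]
  clear_value m
  have hc : chk mk m = true := List.all_eq_true.mp hchk m (List.mem_range.mpr hmlt)
  unfold chk at hc
  simp only [Bool.or_eq_true] at hc
  rcases hc with (((hc | hc) | hc) | hc) | hc
  · -- regularity fails
    exfalso
    rw [Bool.not_eq_true', List.all_eq_false] at hc
    obtain ⟨i, _, hi⟩ := hc
    simp only [Bool.or_eq_true, Bool.not_eq_true', not_or, beq_iff_eq] at hi
    obtain ⟨h1, h2⟩ := hi
    have hiT : i ∈ T := (hbit i).mp (by simpa using h1)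
    apply h2
    unfold dg
    rw [countP_eq]
    have := two_nbrs A T n hn e i hiT
    rw [← this]
    refine congrArg Finset.card ?_
    ext w
    simp only [Finset.mem_filter, Finset.mem_univ, true_and, Bool.and_eq_true]
    rw [hbit w, hA i w]
  · rw [beq_iff_eq] at hc
    ext i
    rw [← hbit i, hc]
    revert i
    decide
  · exfalso
    rw [decide_eq_true_eq] at hc
    unfold pc at hc
    rw [countP_eq] at hc
    have := card_ge A T n hn e
    have h2 : (Finset.univ.filter (fun w : Fin 13 => w ∈ T)) =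
        (Finset.univ.filter (fun i : Fin 13 => m.testBit i.val = true)) := by
      ext w
      simp only [Finset.mem_filter, Finset.mem_univ, true_and]
      rw [hbit w]
    rw [h2] at this
    omega
  · exfalso
    rw [decide_eq_true_eq] at hc
    have h3 : ({v : Fin 13 | v.val < 5} ∩ T).ncard =
        (Finset.univ.filter (fun i : Fin 13 => (m.testBit i.val && decide (i.val < 5)) = true)).card := by
      rw [← Set.ncard_coe_finset]
      refine congrArg Set.ncard ?_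
      ext i
      simp only [Set.mem_inter_iff, Set.mem_ofPred_eq, Finset.coe_filter, Finset.mem_univ,
        true_and, Bool.and_eq_true, decide_eq_true_eq]
      rw [hbit i]
      exact and_comm
    rw [countP_eq] at hc
    omega
  · exfalso
    rw [List.any_eq_true] at hc
    obtain ⟨i, _, hi⟩ := hc
    rw [Bool.and_eq_true, List.any_eq_true] at hi
    obtain ⟨hi, j, _, hj⟩ := hi
    rw [Bool.and_eq_true, Bool.and_eq_true, List.any_eq_true] at hj
    obtain ⟨⟨hj1, hj2⟩, k, _, hk⟩ := hj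
    rw [Bool.and_eq_true, Bool.and_eq_true] at hk
    obtain ⟨⟨hk1, hk2⟩, hk3⟩ := hk
    exact no_tri A T n hn e i j k ((hbit i).mp hi) ((hbit j).mp hj1) ((hbit k).mp hk1)
      ((hA i j).mpr hj2) ((hA i k).mpr hk2) ((hA j k).mpr hk3)

def D1 : Set (Fin 13) := {v | v.val < 5}

def D2 : Set (Fin 13) := {v | 5 ≤ v.val ∧ v.val < 11}

def iso1 : GG.induce D1 ≃g SimpleGraph.cycleGraph 5 where
  toFun v := ⟨v.1.val, v.2⟩
  invFun i := ⟨⟨i.val, by omega⟩, i.2⟩
  left_inv v := rfl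
  right_inv i := rfl
  map_rel_iff' := by
    rintro ⟨a, ha⟩ ⟨b, hb⟩
    have h : ∀ a b : Fin 13, ∀ ha : a.val < 5, ∀ hb : b.val < 5,
        ((SimpleGraph.cycleGraph 5).Adj ⟨a.val, ha⟩ ⟨b.val, hb⟩ ↔ GG.Adj a b) := by
      decide +kernel
    exact h a b ha hb

theorem adj2 : ∀ a b : Fin 13, ∀ ha : 5 ≤ a.val ∧ a.val < 11, ∀ hb : 5 ≤ b.val ∧ b.val < 11,
    ((SimpleGraph.cycleGraph 6).Adj ⟨a.val - 5, by omega⟩ ⟨b.val - 5, by omega⟩ ↔
      GG.Adj a b) := by
  decide +kernel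

def iso2 : GG.induce D2 ≃g SimpleGraph.cycleGraph 6 where
  toFun v := ⟨v.1.val - 5, by have := v.2.1; have := v.2.2; omega⟩
  invFun i := ⟨⟨i.val + 5, by omega⟩, by constructor <;> simp; omega⟩
  left_inv v := by
    apply Subtype.ext
    apply Fin.ext
    have := v.2.1
    simp only
    omega
  right_inv i := by
    apply Fin.ext
    simp
  map_rel_iff' := by
    rintro ⟨a, ha⟩ ⟨b, hb⟩
    exact adj2 a b ha hb

/-- The negation of the preceding statement: For every finite graph G with no star cutset in G or its complement, any two holes or antiholes (induced cycles of length at least 5 in G or its complement) are linked by a chain of such sets, consecutive ones sharing at least 2 vertices. -/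
theorem result :
    ¬ (∀ (V : Type) [Fintype V] [DecidableEq V] (G : SimpleGraph V),
      (¬ ∃ C : Set V, ∃ x ∈ C, (∀ y ∈ C, y ≠ x → G.Adj x y) ∧
          ¬ (G.induce Cᶜ).Preconnected) →
      (¬ ∃ C : Set V, ∃ x ∈ C, (∀ y ∈ C, y ≠ x → Gᶜ.Adj x y) ∧
          ¬ (Gᶜ.induce Cᶜ).Preconnected) →
      ∀ D₁ D₂ : Set V,
        (∃ n : ℕ, 5 ≤ n ∧ (Nonempty (G.induce D₁ ≃g SimpleGraph.cycleGraph n) ∨
            Nonempty (Gᶜ.induce D₁ ≃g SimpleGraph.cycleGraph n))) →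
        (∃ n : ℕ, 5 ≤ n ∧ (Nonempty (G.induce D₂ ≃g SimpleGraph.cycleGraph n) ∨
            Nonempty (Gᶜ.induce D₂ ≃g SimpleGraph.cycleGraph n))) →
        Relation.ReflTransGen
          (fun S T : Set V =>
            (∃ n : ℕ, 5 ≤ n ∧ (Nonempty (G.induce S ≃g SimpleGraph.cycleGraph n) ∨
                Nonempty (Gᶜ.induce S ≃g SimpleGraph.cycleGraph n))) ∧
            (∃ n : ℕ, 5 ≤ n ∧ (Nonempty (G.induce T ≃g SimpleGraph.cycleGraph n) ∨
                Nonempty (Gᶜ.induce T ≃g SimpleGraph.cycleGraph n))) ∧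
            2 ≤ (S ∩ T).ncard)
          D₁ D₂) := by
  intro H
  have h := H (Fin 13) GG starG starC D1 D2 ⟨5, le_refl _, Or.inl ⟨iso1⟩⟩
    ⟨6, by norm_num, Or.inl ⟨iso2⟩⟩
  have key : ∀ S : Set (Fin 13), Relation.ReflTransGen
          (fun S T : Set (Fin 13) =>
            (∃ n : ℕ, 5 ≤ n ∧ (Nonempty (GG.induce S ≃g SimpleGraph.cycleGraph n) ∨
                Nonempty (GGᶜ.induce S ≃g SimpleGraph.cycleGraph n))) ∧
            (∃ n : ℕ, 5 ≤ n ∧ (Nonempty (GG.induce T ≃g SimpleGraph.cycleGraph n) ∨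
                Nonempty (GGᶜ.induce T ≃g SimpleGraph.cycleGraph n))) ∧
            2 ≤ (S ∩ T).ncard) D1 S → S = D1 := by
    intro S hS
    induction hS with
    | refl => rfl
    | tail _ hstep ih =>
      subst ih
      obtain ⟨_, ⟨n, hn, hT⟩, hcard⟩ := hstep
      rcases hT with ⟨⟨e⟩⟩ | ⟨⟨e⟩⟩
      · exact isolated GG maskG (fun i j => Iff.rfl) chkG _ n hn e hcard
      · exact isolated GGᶜ maskC adjC chkC _ n hn e hcard
  have h2 : D2 = D1 := key D2 h
  have h3 : (5 : Fin 13) ∈ D2 := ⟨by decide, by decide⟩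
  rw [h2] at h3
  exact absurd (show (5 : Fin 13).val < 5 from h3) (by decide)

end Pool.Agent.S06274
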