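import Pool.Statements.S06280
-- import your own Pool.Agent.* helpers here

set_option autoImplicit false
open Pool Pool.MP_85fffe_co

namespace Pool.Agent.S06280

/-- The injective additive map `(x, y) ↦ x + y√2` from pairs of naturals to the reals. -/
noncomputable def phi (p : ℕ × ℕ) : ℝ := (p.1 : ℝ) + (p.2 : ℝ) * Real.sqrt 2

theorem phi_inj : Function.Injective phi := by
  rintro ⟨x, y⟩ ⟨x', y'⟩ h
  simp only [phi] at h
  by_cases hy : y = y'
  · subst hy
    simp at h
    simp [h]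
  · exfalso
    have hne : ((y' : ℝ) - y) ≠ 0 := by
      intro h0
      apply hy
      have : (y' : ℝ) = y := by linarith
      exact_mod_cast this.symm
    have h2 : Real.sqrt 2 = ((x : ℝ) - x') / (y' - y) := by
      rw [eq_div_iff hne]
      linarith
    exact irrational_sqrt_two ⟨((x : ℚ) - x') / (y' - y), by push_cast; exact h2.symm⟩

theorem phi_add (p q : ℕ × ℕ) : phi p + phi q = phi (p.1 + q.1, p.2 + q.2) := by
  simp only [phi]
  push_cast
  ring

theorem phi_nonneg (p : ℕ × ℕ) : 0 ≤ phi p := by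
  simp only [phi]
  positivity

/-- Lattice points of the pentagon `0 ≤ x ≤ N - a`, `0 ≤ y ≤ N - b`, `x + y ≤ M - c`. -/
def pent (N M a b c : ℕ) : Finset (ℕ × ℕ) :=
  (Finset.range (N + 1) ×ˢ Finset.range (N + 1)).filter
    (fun p => p.1 + a ≤ N ∧ p.2 + b ≤ N ∧ p.1 + p.2 + c ≤ M)

theorem mem_pent (N M a b c : ℕ) (p : ℕ × ℕ) :
    p ∈ pent N M a b c ↔ (p.1 + a ≤ N ∧ p.2 + b ≤ N ∧ p.1 + p.2 + c ≤ M) := by
  simp only [pent, Finset.mem_filter, Finset.mem_product, Finset.mem_range]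
  constructor
  · exact fun h => h.2
  · intro h
    refine ⟨⟨by omega, by omega⟩, h⟩

/-- The real pattern obtained from a pentagon. -/
noncomputable def pat (N M a b c : ℕ) : Finset ℝ := (pent N M a b c).image phi

theorem mem_pat (N M a b c : ℕ) (p : ℕ × ℕ) :
    phi p ∈ pat N M a b c ↔ (p.1 + a ≤ N ∧ p.2 + b ≤ N ∧ p.1 + p.2 + c ≤ M) := by
  rw [pat, Finset.mem_image, ← mem_pent]
  constructor
  · rintro ⟨q, hq, hqp⟩
    rwa [← phi_inj hqp]
  · intro h
    exact ⟨p, h, rfl⟩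

theorem exists_of_mem_pat {N M a b c : ℕ} {r : ℝ} (h : r ∈ pat N M a b c) :
    ∃ p : ℕ × ℕ, phi p = r ∧ (p.1 + a ≤ N ∧ p.2 + b ≤ N ∧ p.1 + p.2 + c ≤ M) := by
  rw [pat, Finset.mem_image] at h
  obtain ⟨q, hq, rfl⟩ := h
  exact ⟨q, rfl, (mem_pent _ _ _ _ _ _).1 hq⟩

/-- Translating a pattern by `phi (s, t)` stays inside `X` when `s ≤ a`, `t ≤ b`, `s + t ≤ c`. -/
theorem translate_sub {N M a b c s t : ℕ} (hs : s ≤ a) (ht : t ≤ b) (hst : s + t ≤ c) :
    (pat N M a b c).image (· + phi (s, t)) ⊆ pat N M 0 0 0 := by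
  intro r hr
  rw [Finset.mem_image] at hr
  obtain ⟨q, hq, rfl⟩ := hr
  obtain ⟨p, rfl, hp⟩ := exists_of_mem_pat hq
  rw [phi_add, mem_pat]
  simp only
  omega

/-- The key maximality statement. -/
theorem maximal {N M a b c : ℕ} (hac : a ≤ c) (hbc : b ≤ c) (hcab : c ≤ a + b)
    (B : Finset ℝ) (hB : pat N M a b c ⊂ B) :
    ¬ (∀ t : ℝ, (pat N M a b c).image (· + t) ⊆ pat N M 0 0 0 →
      B.image (· + t) ⊆ pat N M 0 0 0) := by
  intro h
  obtain ⟨hsub, hnsub⟩ := hB
  apply hnsub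
  intro r hr
  -- first, `r ∈ X`
  have key : ∀ s t : ℕ, s ≤ a → t ≤ b → s + t ≤ c → r + phi (s, t) ∈ pat N M 0 0 0 := by
    intro s t hs ht hst
    exact h (phi (s, t)) (translate_sub hs ht hst) (Finset.mem_image_of_mem _ hr)
  have h0 := key 0 0 (Nat.zero_le _) (Nat.zero_le _) (Nat.zero_le _)
  have hphi0 : phi (0, 0) = 0 := by simp [phi]
  rw [hphi0, add_zero] at h0
  obtain ⟨p, rfl, hp⟩ := exists_of_mem_pat h0
  rw [mem_pat]
  have h1 := key a 0 le_rfl (Nat.zero_le _) (by omega)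
  have h2 := key 0 b (Nat.zero_le _) le_rfl (by omega)
  have h3 := key a (c - a) le_rfl (by omega) (by omega)
  rw [phi_add, mem_pat] at h1 h2 h3
  simp only at h1 h2 h3
  omega

theorem pat_translate_eq {N M a b c a' b' c' : ℕ} {t : ℝ}
    (ha : a ≤ N) (hb : b ≤ N) (hc : c ≤ M) (ha' : a' ≤ N) (hb' : b' ≤ N) (hc' : c' ≤ M)
    (h : pat N M a' b' c' = (pat N M a b c).image (· + t)) : t = 0 := by
  have hphi0 : phi (0, 0) = 0 := by simp [phi]
  have h0 : (0 : ℝ) ∈ pat N M a b c := by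
    rw [← hphi0, mem_pat]
    simp only
    omega
  have h0' : (0 : ℝ) ∈ pat N M a' b' c' := by
    rw [← hphi0, mem_pat]
    simp only
    omega
  have h1 : t ∈ pat N M a' b' c' := by
    rw [h]
    have := Finset.mem_image_of_mem (· + t) h0
    simpa using this
  rw [h, Finset.mem_image] at h0'
  obtain ⟨r, hr, hrt⟩ := h0'
  obtain ⟨p, rfl, -⟩ := exists_of_mem_pat hr
  obtain ⟨q, rfl, -⟩ := exists_of_mem_pat h1
  have e1 := phi_nonneg p
  have e2 := phi_nonneg q
  linarith

/-- The family of patterns, indexed by `i, j, l < K`. -/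
noncomputable def fam (K : ℕ) (u : ℕ × ℕ × ℕ) : Finset ℝ :=
  pat (10 * K) (15 * K) (2 * K + u.1) (2 * K + u.2.1) (3 * K + u.2.2)

theorem fam_inj (K : ℕ) : Set.InjOn (fam K)
    (↑(Finset.range K ×ˢ Finset.range K ×ˢ Finset.range K) : Set (ℕ × ℕ × ℕ)) := by
  have aux : ∀ u v : ℕ × ℕ × ℕ, (u.1 < K ∧ u.2.1 < K ∧ u.2.2 < K) →
      (v.1 < K ∧ v.2.1 < K ∧ v.2.2 < K) → fam K u = fam K v →
      v.1 ≤ u.1 ∧ v.2.1 ≤ u.2.1 ∧ v.2.2 ≤ u.2.2 := by
    intro u v hu hv h
    have k1 : phi (10 * K - (2 * K + u.1), 0) ∈ fam K v := by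
      rw [← h, fam, mem_pat]; simp only; omega
    have k2 : phi (0, 10 * K - (2 * K + u.2.1)) ∈ fam K v := by
      rw [← h, fam, mem_pat]; simp only; omega
    have k3 : phi (10 * K - (2 * K + u.1),
        15 * K - (3 * K + u.2.2) - (10 * K - (2 * K + u.1))) ∈ fam K v := by
      rw [← h, fam, mem_pat]; simp only; omega
    rw [fam, mem_pat] at k1 k2 k3
    simp only at k1 k2 k3
    omega
  intro u hu v hv h
  simp only [Finset.coe_product, Finset.coe_range, Set.mem_prod, Set.mem_Iio] at hu hv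
  have h1 := aux u v hu hv h
  have h2 := aux v u hv hu h.symm
  obtain ⟨u1, u2, u3⟩ := u
  obtain ⟨v1, v2, v3⟩ := v
  simp only at h1 h2
  have e1 : u1 = v1 := by omega
  have e2 : u2 = v2 := by omega
  have e3 : u3 = v3 := by omega
  subst e1 e2 e3
  rfl

theorem card_X (N M : ℕ) : (pat N M 0 0 0).card ≤ (N + 1) * (N + 1) := by
  calc (pat N M 0 0 0).card ≤ (pent N M 0 0 0).card := Finset.card_image_le
    _ ≤ (Finset.range (N + 1) ×ˢ Finset.range (N + 1)).card := Finset.card_filter_le _ _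
    _ = (N + 1) * (N + 1) := by simp

/-- The negation of the preceding statement: There is a constant C such that for every finite set X of n reals, any family of maximally repeated patterns of X, no two of which are translates of each other, has at most C·n members. -/
theorem result :
    ¬ (∃ C : ℕ, ∀ X : Finset ℝ, ∀ S : Finset (Finset ℝ),
      (∀ A ∈ S,
        A.Nonempty ∧ A ⊆ X ∧
        (∃ t : ℝ, t ≠ 0 ∧ A.image (· + t) ⊆ X) ∧
        (∀ B : Finset ℝ, A ⊂ B →
          ¬ (∀ t : ℝ, A.image (· + t) ⊆ X → B.image (· + t) ⊆ X))) →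
      (∀ A ∈ S, ∀ B ∈ S, ∀ t : ℝ, B = A.image (· + t) → A = B) →
      S.card ≤ C * X.card) := by
  rintro ⟨C, hC⟩
  set K : ℕ := 121 * C + 1 with hK
  have h := hC (pat (10 * K) (15 * K) 0 0 0)
    ((Finset.range K ×ˢ Finset.range K ×ˢ Finset.range K).image (fam K)) ?_ ?_
  · rw [Finset.card_image_of_injOn (fam_inj K)] at h
    simp only [Finset.card_product, Finset.card_range] at h
    have h2 := card_X (10 * K) (15 * K)
    have h3 : K * (K * K) ≤ C * ((10 * K + 1) * (10 * K + 1)) :=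
      h.trans (Nat.mul_le_mul_left _ h2)
    have hK1 : 1 ≤ K := by omega
    have h4 : (10 * K + 1) * (10 * K + 1) ≤ 121 * (K * K) := by nlinarith
    have h5 : K * (K * K) ≤ C * (121 * (K * K)) := h3.trans (Nat.mul_le_mul_left _ h4)
    have h6 : 0 < K * K := by positivity
    have h7 : K * (K * K) ≤ (121 * C) * (K * K) := by
      calc K * (K * K) ≤ C * (121 * (K * K)) := h5
        _ = (121 * C) * (K * K) := by ring
    have h8 : K ≤ 121 * C := Nat.le_of_mul_le_mul_right h7 h6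
    omega
  · intro A hA
    rw [Finset.mem_image] at hA
    obtain ⟨u, hu, rfl⟩ := hA
    simp only [Finset.mem_product, Finset.mem_range] at hu
    have hphi0 : phi (0, 0) = 0 := by simp [phi]
    refine ⟨⟨phi (0, 0), ?_⟩, ?_, ⟨phi (1, 0), ?_, ?_⟩, ?_⟩
    · rw [fam, mem_pat]; simp only; omega
    · have := translate_sub (N := 10 * K) (M := 15 * K) (a := 2 * K + u.1) (b := 2 * K + u.2.1)
        (c := 3 * K + u.2.2) (s := 0) (t := 0) (Nat.zero_le _) (Nat.zero_le _) (Nat.zero_le _)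
      rw [hphi0] at this
      simpa [fam] using this
    · simp [phi]
    · exact translate_sub (by omega) (by omega) (by omega)
    · intro B hB
      exact maximal (by omega) (by omega) (by omega) B hB
  · intro A hA B hB t ht
    rw [Finset.mem_image] at hA hB
    obtain ⟨u, hu, rfl⟩ := hA
    obtain ⟨v, hv, rfl⟩ := hB
    simp only [Finset.mem_product, Finset.mem_range] at hu hv
    have ht0 : t = 0 := by
      refine pat_translate_eq (N := 10 * K) (M := 15 * K) ?_ ?_ ?_ ?_ ?_ ?_ ht <;> omega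
    subst ht0
    rw [ht]
    simp

end Pool.Agent.S06280
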