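import Pool.Statements.S06290
import Mathlib

set_option autoImplicit false
open Pool Pool.MP_8697c3_co

namespace Pool.Agent.S06290

/-- points of the counterexample: a position on the extended real line and one of four kinds
(0 minimal points, 1 and 2 the two halves of a split line, 3 maximal points) -/
@[ext] structure Pt where
  pos : EReal
  kind : Fin 4

/-- the comparabilities at one position -/
def rel (i j : Fin 4) : Prop := (i = 0 ∧ j = 2) ∨ (i = 1 ∧ j = 2) ∨ (i = 1 ∧ j = 3)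

/-- the strict order -/
def ltP (p q : Pt) : Prop :=
  (p.pos < q.pos ∧ p.kind ≠ 3 ∧ q.kind ≠ 0) ∨ (p.pos = q.pos ∧ rel p.kind q.kind)

theorem rel_left {i j : Fin 4} (h : rel i j) : i ≠ 3 ∧ i ≠ 2 ∧ j ≠ 0 ∧ j ≠ 1 := by
  unfold rel at h
  rcases h with ⟨rfl, rfl⟩ | ⟨rfl, rfl⟩ | ⟨rfl, rfl⟩ <;> decide

theorem not_rel_rel {i j k : Fin 4} (h : rel i j) (h' : rel j k) : False := by
  unfold rel at h h'
  rcases h with ⟨rfl, rfl⟩ | ⟨rfl, rfl⟩ | ⟨rfl, rfl⟩ <;> simp at h'

theorem ltP_pos {p q : Pt} (h : ltP p q) : p.pos ≤ q.pos := by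
  rcases h with h | h
  · exact h.1.le
  · exact h.1.le

theorem ltP_irrefl (p : Pt) : ¬ ltP p p := by
  rintro (h | h)
  · exact lt_irrefl _ h.1
  · exact not_rel_rel h.2 h.2

theorem ltP_trans {p q r : Pt} (h : ltP p q) (h' : ltP q r) : ltP p r := by
  rcases h with ⟨h1, h2, h3⟩ | ⟨h1, h2⟩
  · rcases h' with ⟨h4, h5, h6⟩ | ⟨h4, h5⟩
    · exact Or.inl ⟨h1.trans h4, h2, h6⟩
    · exact Or.inl ⟨h4 ▸ h1, h2, (rel_left h5).2.2.1⟩
  · rcases h' with ⟨h4, h5, h6⟩ | ⟨h4, h5⟩
    · exact Or.inl ⟨h1 ▸ h4, (rel_left h2).1, h6⟩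
    · exact (not_rel_rel h2 h5).elim

instance : PartialOrder Pt where
  le p q := p = q ∨ ltP p q
  le_refl p := Or.inl rfl
  le_trans p q r := by
    rintro (rfl | h) (rfl | h')
    · exact Or.inl rfl
    · exact Or.inr h'
    · exact Or.inr h
    · exact Or.inr (ltP_trans h h')
  le_antisymm p q := by
    rintro (rfl | h) (h' | h')
    · rfl
    · rfl
    · exact h'.symm
    · exact (ltP_irrefl _ (ltP_trans h h')).elim

theorem le_iff {p q : Pt} : p ≤ q ↔ p = q ∨ ltP p q := Iff.rfl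

theorem le_pos {p q : Pt} (h : p ≤ q) : p.pos ≤ q.pos := by
  rcases h with rfl | h
  · exact le_rfl
  · exact ltP_pos h

instance : Nonempty Pt := ⟨⟨0, 0⟩⟩

theorem exists_lub (c : Set Pt) (hc : IsChain (· ≤ ·) c) (hne : c.Nonempty) :
    ∃ a, IsLUB c a := by
  set s : EReal := sSup (Pt.pos '' c) with hs
  have hle : ∀ p ∈ c, p.pos ≤ s := fun p hp => le_sSup ⟨p, hp, rfl⟩
  by_cases h1 : ∃ p ∈ c, p.pos = s
  · obtain ⟨p, hp, hps⟩ := h1
    by_cases h2 : ∃ q ∈ c, ltP p q
    · obtain ⟨q, hq, hpq⟩ := h2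
      have hq1 : q.pos = s := le_antisymm (hle q hq) (hps ▸ ltP_pos hpq)
      have hrel : rel p.kind q.kind := by
        rcases hpq with h | h
        · exact absurd h.1 (by rw [hps, hq1]; exact lt_irrefl _)
        · exact h.2
      refine ⟨q, IsGreatest.isLUB ⟨hq, ?_⟩⟩
      intro r hr
      rcases hc.total hr hq with h | h
      · exact h
      · rcases h with rfl | h
        · exact le_rfl
        · rcases h with h | h
          · exact absurd (hle r hr) (not_le.2 (hq1 ▸ h.1))
          · exact (not_rel_rel hrel h.2).elim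
    · refine ⟨p, IsGreatest.isLUB ⟨hp, ?_⟩⟩
      intro r hr
      rcases hc.total hr hp with h | h
      · exact h
      · rcases h with rfl | h
        · exact le_rfl
        · exact (h2 ⟨r, hr, h⟩).elim
  · have hlt : ∀ p ∈ c, p.pos < s := fun p hp =>
      lt_of_le_of_ne (hle p hp) (fun h => h1 ⟨p, hp, h⟩)
    refine ⟨⟨s, 1⟩, ?_, ?_⟩
    · intro p hp
      obtain ⟨_, ⟨q, hq, rfl⟩, hpq⟩ := lt_sSup_iff.1 (hlt p hp)
      have hk : p.kind ≠ 3 := by
        rcases hc.total hp hq with h | h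
        · rcases h with rfl | h
          · exact absurd hpq (lt_irrefl _)
          · rcases h with h | h
            · exact h.2.1
            · exact absurd hpq (by rw [h.1]; exact lt_irrefl _)
        · exact absurd hpq (not_lt.2 (le_pos h))
      exact Or.inr (Or.inl ⟨hlt p hp, hk, by simp⟩)
    · intro u hu
      have hsu : s ≤ u.pos := by
        apply sSup_le
        rintro _ ⟨p, hp, rfl⟩
        exact le_pos (hu hp)
      obtain ⟨p, hp⟩ := hne
      have hpu : ltP p u := by
        rcases hu hp with rfl | h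
        · exact absurd (hlt p hp) (not_lt.2 hsu)
        · exact h
      have hk : u.kind ≠ 0 := by
        rcases hpu with h | h
        · exact h.2.2
        · exact (rel_left h.2).2.2.1
      rcases hsu.lt_or_eq with h | h
      · exact Or.inr (Or.inl ⟨h, by simp, hk⟩)
      · by_cases hk1 : u.kind = 1
        · left
          exact Pt.ext h hk1.symm
        · right; right
          refine ⟨h, ?_⟩
          show rel 1 u.kind
          have : ∀ i : Fin 4, i ≠ 0 → i ≠ 1 → rel 1 i := by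
            unfold rel; decide
          exact this _ hk hk1

theorem exists_glb (c : Set Pt) (hc : IsChain (· ≤ ·) c) (hne : c.Nonempty) :
    ∃ a, IsGLB c a := by
  set s : EReal := sInf (Pt.pos '' c) with hs
  have hle : ∀ p ∈ c, s ≤ p.pos := fun p hp => sInf_le ⟨p, hp, rfl⟩
  by_cases h1 : ∃ p ∈ c, p.pos = s
  · obtain ⟨p, hp, hps⟩ := h1
    by_cases h2 : ∃ q ∈ c, ltP q p
    · obtain ⟨q, hq, hpq⟩ := h2
      have hq1 : q.pos = s := le_antisymm (hps ▸ ltP_pos hpq) (hle q hq)
      have hrel : rel q.kind p.kind := by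
        rcases hpq with h | h
        · exact absurd h.1 (by rw [hps, hq1]; exact lt_irrefl _)
        · exact h.2
      refine ⟨q, IsLeast.isGLB ⟨hq, ?_⟩⟩
      intro r hr
      rcases hc.total hq hr with h | h
      · exact h
      · rcases h with rfl | h
        · exact le_rfl
        · rcases h with h | h
          · exact absurd (hle r hr) (not_le.2 (hq1 ▸ h.1))
          · exact (not_rel_rel h.2 hrel).elim
    · refine ⟨p, IsLeast.isGLB ⟨hp, ?_⟩⟩
      intro r hr
      rcases hc.total hp hr with h | h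
      · exact h
      · rcases h with rfl | h
        · exact le_rfl
        · exact (h2 ⟨r, hr, h⟩).elim
  · have hlt : ∀ p ∈ c, s < p.pos := fun p hp =>
      lt_of_le_of_ne (hle p hp) (fun h => h1 ⟨p, hp, h.symm⟩)
    refine ⟨⟨s, 2⟩, ?_, ?_⟩
    · intro p hp
      obtain ⟨_, ⟨q, hq, rfl⟩, hpq⟩ := sInf_lt_iff.1 (hlt p hp)
      have hk : p.kind ≠ 0 := by
        rcases hc.total hq hp with h | h
        · rcases h with rfl | h
          · exact absurd hpq (lt_irrefl _)
          · rcases h with h | h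
            · exact h.2.2
            · exact absurd hpq (by rw [h.1]; exact lt_irrefl _)
        · exact absurd hpq (not_lt.2 (le_pos h))
      exact Or.inr (Or.inl ⟨hlt p hp, by simp, hk⟩)
    · intro u hu
      have hsu : u.pos ≤ s := by
        apply le_sInf
        rintro _ ⟨p, hp, rfl⟩
        exact le_pos (hu hp)
      obtain ⟨p, hp⟩ := hne
      have hpu : ltP u p := by
        rcases hu hp with rfl | h
        · exact absurd (hlt _ hp) (not_lt.2 hsu)
        · exact h
      have hk : u.kind ≠ 3 := by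
        rcases hpu with h | h
        · exact h.2.1
        · exact (rel_left h.2).1
      rcases hsu.lt_or_eq with h | h
      · exact Or.inr (Or.inl ⟨h, hk, by simp⟩)
      · by_cases hk1 : u.kind = 2
        · left
          exact Pt.ext h hk1
        · right; right
          refine ⟨h, ?_⟩
          show rel u.kind 2
          have : ∀ i : Fin 4, i ≠ 3 → i ≠ 2 → rel i 2 := by
            unfold rel; decide
          exact this _ hk hk1

/-- the maximal chain from the minimal point at `u` to the maximal point at `v` -/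
def D (u v : EReal) : Set Pt :=
  {p | p = ⟨u, 0⟩ ∨ p = ⟨v, 3⟩ ∨ p = ⟨u, 2⟩ ∨ p = ⟨v, 1⟩ ∨
    (u < p.pos ∧ p.pos < v ∧ (p.kind = 1 ∨ p.kind = 2))}

/-- two points of kinds 1 and 2 are comparable -/
theorem mid_total {p q : Pt} (hp : p.kind = 1 ∨ p.kind = 2) (hq : q.kind = 1 ∨ q.kind = 2) :
    p ≤ q ∨ q ≤ p := by
  have h3 : ∀ r : Pt, (r.kind = 1 ∨ r.kind = 2) → r.kind ≠ 3 ∧ r.kind ≠ 0 := by
    intro r hr
    rcases hr with h | h <;> rw [h] <;> decide
  rcases lt_trichotomy p.pos q.pos with h | h | h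
  · exact Or.inl (Or.inr (Or.inl ⟨h, (h3 p hp).1, (h3 q hq).2⟩))
  · rcases hp with hp | hp <;> rcases hq with hq | hq
    · exact Or.inl (Or.inl (Pt.ext h (hp.trans hq.symm)))
    · exact Or.inl (Or.inr (Or.inr ⟨h, Or.inr (Or.inl ⟨hp, hq⟩)⟩))
    · exact Or.inr (Or.inr (Or.inr ⟨h.symm, Or.inr (Or.inl ⟨hq, hp⟩)⟩))
    · exact Or.inl (Or.inl (Pt.ext h (hp.trans hq.symm)))
  · exact Or.inr (Or.inr (Or.inl ⟨h, (h3 q hq).1, (h3 p hp).2⟩))

theorem D_cases {u v : EReal} {p : Pt} (huv : u < v) (hp : p ∈ D u v) :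
    p = ⟨u, 0⟩ ∨ p = ⟨v, 3⟩ ∨ (u ≤ p.pos ∧ p.pos ≤ v ∧ (p.kind = 1 ∨ p.kind = 2) ∧
      (⟨u, 0⟩ : Pt) ≤ p ∧ p ≤ ⟨v, 3⟩) := by
  rcases hp with h | h | rfl | rfl | ⟨h1, h2, h3⟩
  · exact Or.inl h
  · exact Or.inr (Or.inl h)
  · exact Or.inr (Or.inr ⟨le_rfl, huv.le, Or.inr rfl,
      Or.inr (Or.inr ⟨rfl, Or.inl ⟨rfl, rfl⟩⟩), Or.inr (Or.inl ⟨huv, by simp, by simp⟩)⟩)
  · exact Or.inr (Or.inr ⟨huv.le, le_rfl, Or.inl rfl,
      Or.inr (Or.inl ⟨huv, by simp, by simp⟩), Or.inr (Or.inr ⟨rfl, Or.inr (Or.inr ⟨rfl, rfl⟩)⟩)⟩)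
  · refine Or.inr (Or.inr ⟨h1.le, h2.le, h3, Or.inr (Or.inl ⟨h1, ?_, ?_⟩),
      Or.inr (Or.inl ⟨h2, ?_, ?_⟩)⟩)
    · simp
    · rcases h3 with h | h <;> rw [h] <;> decide
    · rcases h3 with h | h <;> rw [h] <;> decide
    · simp

theorem D_isMax {u v : EReal} (huv : u < v) : IsMaxChain (· ≤ ·) (D u v) := by
  have hends : (⟨u, 0⟩ : Pt) ≤ ⟨v, 3⟩ := Or.inr (Or.inl ⟨huv, by simp, by simp⟩)
  refine ⟨?_, ?_⟩
  · intro p hp q hq _
    rcases D_cases huv hp with rfl | rfl | ⟨_, _, hk, hl, hr⟩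
    · rcases D_cases huv hq with rfl | rfl | ⟨_, _, hk', hl', hr'⟩
      · exact Or.inl le_rfl
      · exact Or.inl hends
      · exact Or.inl hl'
    · rcases D_cases huv hq with rfl | rfl | ⟨_, _, hk', hl', hr'⟩
      · exact Or.inr hends
      · exact Or.inl le_rfl
      · exact Or.inr hr'
    · rcases D_cases huv hq with rfl | rfl | ⟨_, _, hk', hl', hr'⟩
      · exact Or.inr hl
      · exact Or.inl hr
      · exact mid_total hk hk'
  · intro t ht hsub
    apply Set.Subset.antisymm hsub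
    intro y hy
    have hu : (⟨u, 0⟩ : Pt) ∈ t := hsub (Or.inl rfl)
    have hv : (⟨v, 3⟩ : Pt) ∈ t := hsub (Or.inr (Or.inl rfl))
    have hcase1 : y = ⟨u, 0⟩ ∨ (u < y.pos ∧ y.kind ≠ 0) ∨ (u = y.pos ∧ y.kind = 2) := by
      rcases ht.total hu hy with h | h
      · rcases h with h | h | h
        · exact Or.inl h.symm
        · exact Or.inr (Or.inl ⟨h.1, h.2.2⟩)
        · refine Or.inr (Or.inr ⟨h.1, ?_⟩)
          rcases h.2 with h | h | h
          · exact h.2
          · exact absurd h.1 (by simp)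
          · exact absurd h.1 (by simp)
      · rcases h with h | h | h
        · exact Or.inl h
        · exact absurd rfl h.2.2
        · exact absurd rfl (rel_left h.2).2.2.1
    have hcase2 : y = ⟨v, 3⟩ ∨ (y.pos < v ∧ y.kind ≠ 3) ∨ (y.pos = v ∧ y.kind = 1) := by
      rcases ht.total hy hv with h | h
      · rcases h with h | h | h
        · exact Or.inl h
        · exact Or.inr (Or.inl ⟨h.1, h.2.1⟩)
        · refine Or.inr (Or.inr ⟨h.1, ?_⟩)
          rcases h.2 with h | h | h
          · exact absurd h.2 (by simp)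
          · exact absurd h.2 (by simp)
          · exact h.1
      · rcases h with h | h | h
        · exact Or.inl h.symm
        · exact absurd rfl h.2.1
        · exact absurd rfl (rel_left h.2).1
    rcases hcase1 with h | ⟨h1, h2⟩ | ⟨h1, h2⟩
    · exact Or.inl h
    · rcases hcase2 with h | ⟨h3, h4⟩ | ⟨h3, h4⟩
      · exact Or.inr (Or.inl h)
      · refine Or.inr (Or.inr (Or.inr (Or.inr ⟨h1, h3, ?_⟩)))
        have : ∀ i : Fin 4, i ≠ 0 → i ≠ 3 → i = 1 ∨ i = 2 := by decide
        exact this _ h2 h4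
      · exact Or.inr (Or.inr (Or.inr (Or.inl (Pt.ext h3 h4))))
    · exact Or.inr (Or.inr (Or.inl (Pt.ext h1.symm h2)))

theorem mem_of_comparable {C : Set Pt} (hC : IsMaxChain (· ≤ ·) C) {p : Pt}
    (hp : ∀ s ∈ C, p ≤ s ∨ s ≤ p) : p ∈ C := by
  have hch : IsChain (· ≤ ·) (insert p C) := by
    apply hC.1.insert
    intro b hb _
    exact hp b hb
  rw [hC.2 hch (Set.subset_insert _ _)]
  exact Set.mem_insert _ _

/-- every maximal chain with a point whose position lies strictly between the ends of the line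
contains a whole interval of points of kinds 1 and 2 -/
theorem exists_interval {C : Set Pt} (hC : IsMaxChain (· ≤ ·) C) {q : Pt} (hq : q ∈ C)
    (h1 : ⊥ < q.pos) (h2 : q.pos < ⊤) :
    ∃ u v : EReal, u < v ∧ ∀ p : Pt, u < p.pos → p.pos < v → (p.kind = 1 ∨ p.kind = 2) →
      p ∈ C := by
  have key : ∀ u v : EReal, (∀ s ∈ C, s.kind = 0 → s.pos ≤ u) → (∀ s ∈ C, s.kind = 3 → v ≤ s.pos) →
      ∀ p : Pt, u < p.pos → p.pos < v → (p.kind = 1 ∨ p.kind = 2) → p ∈ C := by
    intro u v hu hv p hup hpv hk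
    apply mem_of_comparable hC
    intro s hs
    have hk3 : p.kind ≠ 3 ∧ p.kind ≠ 0 := by
      rcases hk with h | h <;> rw [h] <;> decide
    have hcases : ∀ i : Fin 4, i = 0 ∨ i = 3 ∨ (i = 1 ∨ i = 2) := by decide
    rcases hcases s.kind with h | h | h
    · right; right; left
      exact ⟨lt_of_le_of_lt (hu s hs h) hup, by rw [h]; decide, hk3.2⟩
    · left; right; left
      exact ⟨lt_of_lt_of_le hpv (hv s hs h), hk3.1, by rw [h]; decide⟩
    · exact mid_total hk h
  have hbot : ∃ u : EReal, u ≤ q.pos ∧ u < ⊤ ∧ (∀ s ∈ C, s.kind = 0 → s.pos ≤ u) ∧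
      (u = ⊥ ∨ ∃ s ∈ C, s.kind = 0 ∧ s.pos = u) := by
    by_cases h : ∃ s ∈ C, s.kind = 0
    · obtain ⟨s, hs, hs0⟩ := h
      have huniq : ∀ s' ∈ C, s'.kind = 0 → s' = s := by
        intro s' hs' hs'0
        rcases hC.1.total hs' hs with h | h
        · rcases h with h | h | h
          · exact h
          · exact absurd hs0 h.2.2
          · exact absurd hs0 (rel_left h.2).2.2.1
        · rcases h with h | h | h
          · exact h.symm
          · exact absurd hs'0 h.2.2
          · exact absurd hs'0 (rel_left h.2).2.2.1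
      have hsq : s.pos ≤ q.pos := by
        rcases hC.1.total hs hq with h | h
        · exact le_pos h
        · rcases h with h | h | h
          · rw [h]
          · exact absurd hs0 h.2.2
          · exact absurd hs0 (rel_left h.2).2.2.1
      exact ⟨s.pos, hsq, lt_of_le_of_lt hsq h2, fun s' hs' h' => by rw [huniq s' hs' h'],
        Or.inr ⟨s, hs, hs0, rfl⟩⟩
    · exact ⟨⊥, bot_le, bot_lt_top, fun s hs hs0 => absurd ⟨s, hs, hs0⟩ h, Or.inl rfl⟩
  have htop : ∃ v : EReal, q.pos ≤ v ∧ ⊥ < v ∧ (∀ s ∈ C, s.kind = 3 → v ≤ s.pos) ∧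
      (v = ⊤ ∨ ∃ s ∈ C, s.kind = 3 ∧ s.pos = v) := by
    by_cases h : ∃ s ∈ C, s.kind = 3
    · obtain ⟨s, hs, hs0⟩ := h
      have huniq : ∀ s' ∈ C, s'.kind = 3 → s' = s := by
        intro s' hs' hs'0
        rcases hC.1.total hs' hs with h | h
        · rcases h with h | h | h
          · exact h
          · exact absurd hs'0 h.2.1
          · exact absurd hs'0 (rel_left h.2).1
        · rcases h with h | h | h
          · exact h.symm
          · exact absurd hs0 h.2.1
          · exact absurd hs0 (rel_left h.2).1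
      have hsq : q.pos ≤ s.pos := by
        rcases hC.1.total hq hs with h | h
        · exact le_pos h
        · rcases h with h | h | h
          · rw [h]
          · exact absurd hs0 h.2.1
          · exact absurd hs0 (rel_left h.2).1
      exact ⟨s.pos, hsq, lt_of_lt_of_le h1 hsq, fun s' hs' h' => by rw [huniq s' hs' h'],
        Or.inr ⟨s, hs, hs0, rfl⟩⟩
    · exact ⟨⊤, le_top, bot_lt_top, fun s hs hs0 => absurd ⟨s, hs, hs0⟩ h, Or.inl rfl⟩
  obtain ⟨u, hu1, hu2, hu3, hu4⟩ := hbot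
  obtain ⟨v, hv1, hv2, hv3, hv4⟩ := htop
  refine ⟨u, v, ?_, key u v hu3 hv3⟩
  rcases hu4 with rfl | ⟨s, hs, hs0, rfl⟩
  · exact hv2
  · rcases hv4 with rfl | ⟨r, hr, hr3, rfl⟩
    · exact hu2
    · rcases hC.1.total hs hr with h | h
      · rcases h with h | h | h
        · rw [h] at hs0
          rw [hs0] at hr3
          exact absurd hr3 (by decide)
        · exact h.1
        · rcases h.2 with h | h | h
          · rw [h.2] at hr3; exact absurd hr3 (by decide)
          · rw [h.2] at hr3; exact absurd hr3 (by decide)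
          · rw [h.1] at hs0; exact absurd hs0 (by decide)
      · rcases h with h | h | h
        · rw [← h] at hs0
          rw [hs0] at hr3
          exact absurd hr3 (by decide)
        · exact absurd hs0 h.2.2
        · exact absurd hs0 (rel_left h.2).2.2.1

/-- The negation of the preceding statement: Every nonempty partial order in which each nonempty chain has a sup and an inf has a cutset A and pairwise disjoint maximal chains F such that each point of A lies in exactly one chain of F and each chain of F contains exactly one point of A. -/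
theorem result :
    ¬ (∀ (P : Type) [PartialOrder P] [Nonempty P],
      (∀ c : Set P, IsChain (· ≤ ·) c → c.Nonempty →
        (∃ a : P, IsLUB c a) ∧ (∃ a : P, IsGLB c a)) →
      ∃ (F : Set (Set P)) (A : Set P),
        (∀ C ∈ F, IsMaxChain (· ≤ ·) C) ∧
        F.PairwiseDisjoint id ∧
        (∀ C : Set P, IsMaxChain (· ≤ ·) C → (A ∩ C).Nonempty) ∧
        (∀ a ∈ A, ∃! C : Set P, C ∈ F ∧ a ∈ C) ∧
        (∀ C ∈ F, ∃! a : P, a ∈ A ∧ a ∈ C)) := by
  intro hall
  obtain ⟨F, A, hF, hdisj, hcut, hA, hCA⟩ := hall Pt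
    (fun c hc hne => ⟨exists_lub c hc hne, exists_glb c hc hne⟩)
  have h01 : (0 : EReal) < 1 := by norm_num
  obtain ⟨q, hqA, hqD⟩ := hcut _ (D_isMax h01)
  obtain ⟨C, ⟨hCF, hqC⟩, -⟩ := hA q hqA
  have hqpos : 0 ≤ q.pos ∧ q.pos ≤ 1 := by
    rcases D_cases h01 hqD with rfl | rfl | ⟨h1, h2, _⟩
    · exact ⟨le_rfl, h01.le⟩
    · exact ⟨h01.le, le_rfl⟩
    · exact ⟨h1, h2⟩
  have hbot : (⊥ : EReal) < q.pos := lt_of_lt_of_le EReal.bot_lt_zero hqpos.1
  have htop : q.pos < (⊤ : EReal) := lt_of_le_of_lt hqpos.2 (by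
    exact_mod_cast EReal.coe_lt_top 1)
  have hCmax := hF C hCF
  obtain ⟨u, v, huv, hint⟩ := exists_interval hCmax hqC hbot htop
  have huniq : ∀ a ∈ A, a ∈ C → a = q := by
    intro a ha haC
    obtain ⟨b, _, hb⟩ := hCA C hCF
    rw [hb a ⟨ha, haC⟩, hb q ⟨hqA, hqC⟩]
  have hsub : ∃ u' v' : EReal, u < u' ∧ u' < v' ∧ v' < v ∧ (q.pos < u' ∨ v' < q.pos) := by
    obtain ⟨m, hum, hmv⟩ := exists_between huv
    rcases le_or_gt q.pos m with h | h
    · obtain ⟨u', h1, h2⟩ := exists_between hmv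
      obtain ⟨v', h3, h4⟩ := exists_between h2
      exact ⟨u', v', hum.trans h1, h3, h4, Or.inl (lt_of_le_of_lt h h1)⟩
    · obtain ⟨v', h1, h2⟩ := exists_between hum
      obtain ⟨u', h3, h4⟩ := exists_between h1
      exact ⟨u', v', h3, h4, h2.trans hmv, Or.inr (h2.trans h)⟩
  obtain ⟨u', v', huu', huv', hvv', hq'⟩ := hsub
  obtain ⟨r, hrA, hrD⟩ := hcut _ (D_isMax huv')
  rcases D_cases huv' hrD with rfl | rfl | ⟨h1, h2, hk, -, -⟩
  · obtain ⟨C', ⟨hC'F, hrC'⟩, -⟩ := hA _ hrA
    have hmem : (⟨u', 2⟩ : Pt) ∈ C' := by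
      apply mem_of_comparable (hF C' hC'F)
      intro s hs
      rcases (hF C' hC'F).1.total hrC' hs with h | h
      · rcases h with rfl | h | h
        · exact Or.inr (Or.inr (Or.inr ⟨rfl, Or.inl ⟨rfl, rfl⟩⟩))
        · exact Or.inl (Or.inr (Or.inl ⟨h.1, by simp, h.2.2⟩))
        · rcases h.2 with h' | h' | h'
          · exact Or.inl (Or.inl (Pt.ext h.1 h'.2.symm))
          · exact absurd h'.1 (by simp)
          · exact absurd h'.1 (by simp)
      · rcases h with rfl | h | h
        · exact Or.inr (Or.inr (Or.inr ⟨rfl, Or.inl ⟨rfl, rfl⟩⟩))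
        · exact absurd rfl h.2.2
        · exact absurd rfl (rel_left h.2).2.2.1
    have hmem2 : (⟨u', 2⟩ : Pt) ∈ C := hint _ huu' (huv'.trans hvv') (Or.inr rfl)
    have hCC : C = C' := by
      by_contra hne
      exact Set.disjoint_left.1 (hdisj hCF hC'F hne) hmem2 hmem
    obtain ⟨y, hy1, hy2⟩ := exists_between huu'
    have hyC : (⟨y, 1⟩ : Pt) ∈ C := hint _ hy1 (hy2.trans (huv'.trans hvv')) (Or.inl rfl)
    rcases hCmax.1.total hyC (hCC ▸ hrC') with h | h
    · rcases h with h | h | h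
      · exact absurd (congrArg Pt.kind h) (by simp)
      · exact absurd rfl h.2.2
      · exact absurd rfl (rel_left h.2).2.2.1
    · exact absurd (le_pos h) (not_le.2 hy2)
  · obtain ⟨C', ⟨hC'F, hrC'⟩, -⟩ := hA _ hrA
    have hmem : (⟨v', 1⟩ : Pt) ∈ C' := by
      apply mem_of_comparable (hF C' hC'F)
      intro s hs
      rcases (hF C' hC'F).1.total hs hrC' with h | h
      · rcases h with rfl | h | h
        · exact Or.inl (Or.inr (Or.inr ⟨rfl, Or.inr (Or.inr ⟨rfl, rfl⟩)⟩))
        · exact Or.inr (Or.inr (Or.inl ⟨h.1, h.2.1, by simp⟩))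
        · rcases h.2 with h' | h' | h'
          · exact absurd h'.2 (by simp)
          · exact absurd h'.2 (by simp)
          · exact Or.inr (Or.inl (Pt.ext h.1 h'.1))
      · rcases h with rfl | h | h
        · exact Or.inl (Or.inr (Or.inr ⟨rfl, Or.inr (Or.inr ⟨rfl, rfl⟩)⟩))
        · exact absurd rfl h.2.1
        · exact absurd rfl (rel_left h.2).1
    have hmem2 : (⟨v', 1⟩ : Pt) ∈ C := hint _ (huu'.trans huv') hvv' (Or.inl rfl)
    have hCC : C = C' := by
      by_contra hne
      exact Set.disjoint_left.1 (hdisj hCF hC'F hne) hmem2 hmem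
    obtain ⟨y, hy1, hy2⟩ := exists_between hvv'
    have hyC : (⟨y, 1⟩ : Pt) ∈ C := hint _ ((huu'.trans huv').trans hy1) hy2 (Or.inl rfl)
    rcases hCmax.1.total (hCC ▸ hrC') hyC with h | h
    · rcases h with h | h | h
      · exact absurd (congrArg Pt.kind h) (by simp)
      · exact absurd rfl h.2.1
      · exact absurd rfl (rel_left h.2).1
    · exact absurd (le_pos h) (not_le.2 hy1)
  · have hrC : r ∈ C := hint r (lt_of_lt_of_le huu' h1) (lt_of_le_of_lt h2 hvv') hk
    have := huniq r hrA hrC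
    subst this
    rcases hq' with h | h
    · exact absurd h1 (not_le.2 h)
    · exact absurd h2 (not_le.2 h)

end Pool.Agent.S06290
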