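import Pool.Statements.S06308

set_option autoImplicit false
open Pool Pool.MP_879572_co

namespace Pool.Agent.S06308

/-- The counterexample in the integers modulo 410: six elements of the subgroup of order ten,
together with one full coset of that subgroup. -/
def A410 : Finset (ZMod 410) :=
  {0, 41, 82, 164, 205, 246, 1, 42, 83, 124, 165, 206, 247, 288, 329, 370}

theorem card_A410 : A410.card = 16 := by decide +kernel

/-- Only 39 residues modulo 410 are sums of three distinct elements of the set. -/
theorem card_sums :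
    ((A410.powersetCard 3).image (fun B : Finset (ZMod 410) => ∑ x ∈ B, x)).card = 39 := by
  decide +kernel

/-- The value `u(410, 16, 3)` is at least 40. -/
theorem forty_le_u :
    40 ≤ sInf ((fun d : ℕ => (3 * ((16 + d - 1) / d) - 2) * d) '' {d : ℕ | d ∣ 410}) := by
  apply le_csInf
  · exact ⟨_, 1, one_dvd _, rfl⟩
  · rintro b ⟨d, hd, rfl⟩
    have hd' : d ∈ Nat.divisors 410 := Nat.mem_divisors.mpr ⟨hd, by norm_num⟩
    have key : ∀ e ∈ Nat.divisors 410, 40 ≤ (3 * ((16 + e - 1) / e) - 2) * e := by
      decide +kernel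
    exact key d hd'

/-- The negation of the preceding statement: For 4 ≤ m ≤ n, the least size of the set of sums of 3 distinct elements of an m-element subset of ℤ_n is min(u(n,m,3), c), where c is 3m−3−gcd(n,m−1), 3m−10, 3m−9 or 3m−8 according to the stated case conditions. -/
theorem result :
    ¬ (∀ n m : ℕ, 4 ≤ m → m ≤ n →
      IsLeast
        {k : ℕ | ∃ A : Finset (ZMod n), A.card = m ∧
            ((A.powersetCard 3).image (fun B : Finset (ZMod n) => ∑ x ∈ B, x)).card = k}
        (min (sInf ((fun d : ℕ => (3 * ((m + d - 1) / d) - 2) * d) '' {d : ℕ | d ∣ n}))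
          (if 8 ≤ Nat.gcd n (m - 1) then 3 * m - 3 - Nat.gcd n (m - 1)
           else if Nat.gcd n (m - 1) = 7
                  ∨ (Nat.gcd n (m - 1) ≤ 5 ∧ 3 ∣ n ∧ 3 ∣ m)
                  ∨ (Nat.gcd n (m - 1) ≤ 5 ∧ (3 * m - 9) ∣ n ∧ 5 ∣ (m - 3))
             then 3 * m - 10
           else if Nat.gcd n (m - 1) = 6 ∨ (m = 6 ∧ 10 ∣ n ∧ ¬ 3 ∣ n)
             then 3 * m - 9
           else 3 * m - 8))) := by
  intro H
  have h1 := (H 410 16 (by norm_num) (by norm_num)).2 ⟨A410, card_A410, card_sums⟩
  have hg : Nat.gcd 410 (16 - 1) = 5 := by norm_num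
  rw [hg] at h1
  norm_num at h1
  have h2 := forty_le_u
  norm_num at h2
  omega

end Pool.Agent.S06308
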