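import Pool.Statements.S06314

set_option autoImplicit false
open Classical
open Pool Pool.MP_880652_co

namespace Pool.Agent.S06314

/-- Row `y` is the bit mask of the strict lower set of the point `y`. -/
def dn : List Nat := [52, 0, 0, 50, 32, 0, 38]

/-- The strict order of the seven point poset: `x` is below `y`. -/
def R (x y : Fin 7) : Bool := (dn.getD y.val 0).testBit x.val

theorem R_irrefl : ∀ x : Fin 7, R x x = false := by decide

theorem R_trans : ∀ x y z : Fin 7, R x y = true → R y z = true → R x z = true := by decide

theorem R_asymm : ∀ x y : Fin 7, R x y = true → R y x = true → False := by decide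

/-- The seven point poset. -/
@[instance_reducible] def PO : PartialOrder (Fin 7) where
  le x y := x = y ∨ R x y = true
  lt x y := R x y = true
  le_refl x := Or.inl rfl
  le_trans x y z h1 h2 := by
    rcases h1 with rfl | h1
    · exact h2
    · rcases h2 with rfl | h2
      · exact Or.inr h1
      · exact Or.inr (R_trans x y z h1 h2)
  lt_iff_le_not_ge x y := by
    constructor
    · intro h
      refine ⟨Or.inr h, ?_⟩
      rintro (h1 | h1)
      · rw [h1, R_irrefl] at h
        exact absurd h (by simp)
      · exact R_asymm x y h h1
    · rintro ⟨h1 | h1, h2⟩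
      · exact absurd (Or.inl h1.symm) h2
      · exact h1
  le_antisymm x y h1 h2 := by
    rcases h1 with h1 | h1
    · exact h1
    · rcases h2 with h2 | h2
      · exact h2.symm
      · exact (R_asymm x y h1 h2).elim

/-- Number of agreeing pairs of an arrangement given as a list. -/
def stat : List (Fin 7) → Nat
  | [] => 0
  | x :: xs => xs.countP (fun y => R x y) + stat xs

theorem cnt4 : (List.permutations' (List.finRange 7)).countP (fun l => stat l == 4) = 792 := by
  decide +kernel

theorem cnt5 : (List.permutations' (List.finRange 7)).countP (fun l => stat l == 5) = 764 := by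
  decide +kernel

theorem cnt6 : (List.permutations' (List.finRange 7)).countP (fun l => stat l == 6) = 792 := by
  decide +kernel

theorem nodup_perms : (List.permutations' (List.finRange 7)).Nodup := by
  have h := List.nodup_permutations (List.finRange 7) (List.nodup_finRange 7)
  exact (List.permutations_perm_permutations' (List.finRange 7)).nodup_iff.mp h

theorem countP_ofFn (P : Fin 7 → Bool) (n : ℕ) : ∀ g : Fin n → Fin 7,
    (List.ofFn g).countP P = ∑ j : Fin n, if (P (g j) = true) then 1 else 0 := by
  induction n with
  | zero => intro g; simp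
  | succ m ihm =>
    intro g
    rw [List.ofFn_succ, List.countP_cons, Fin.sum_univ_succ, ihm, add_comm]

theorem stat_ofFn (n : ℕ) : ∀ f : Fin n → Fin 7,
    stat (List.ofFn f) = ∑ i : Fin n, ∑ j : Fin n, if (R (f i) (f j) = true ∧ i < j) then 1 else 0 := by
  induction n with
  | zero => intro f; simp [stat]
  | succ n ih =>
    intro f
    rw [List.ofFn_succ, stat, ih, Fin.sum_univ_succ, Fin.sum_univ_succ]
    have h0 : (if (R (f 0) (f 0) = true ∧ (0 : Fin (n+1)) < 0) then 1 else 0) = (0 : ℕ) := by simp
    rw [h0, zero_add]
    congr 1
    · rw [countP_ofFn]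
      apply Finset.sum_congr rfl
      intro j _
      simp
    · apply Finset.sum_congr rfl
      intro i _
      rw [Fin.sum_univ_succ]
      simp

/-- The number of agreeing pairs of a bijection is the statistic of its list. -/
theorem stat_eq (N : ℕ) (σ : Fin 7 ≃ Fin N) :
    (Finset.univ.filter (fun p : Fin 7 × Fin 7 => R p.1 p.2 = true ∧ σ p.1 < σ p.2)).card
      = stat (List.ofFn (fun i => σ.symm i)) := by
  rw [stat_ofFn, Finset.card_filter, ← Finset.univ_product_univ, Finset.sum_product]
  rw [← Equiv.sum_comp σ]
  apply Finset.sum_congr rfl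
  intro x _
  rw [← Equiv.sum_comp σ]
  apply Finset.sum_congr rfl
  intro y _
  simp only [Equiv.symm_apply_apply]

theorem count_eq (N : ℕ) (hN : N = 7) (k : ℕ) :
    (Finset.univ.filter (fun σ : Fin 7 ≃ Fin N =>
      (Finset.univ.filter (fun p : Fin 7 × Fin 7 =>
        R p.1 p.2 = true ∧ σ p.1 < σ p.2)).card = k)).card
      = (List.permutations' (List.finRange 7)).countP (fun l => stat l == k) := by
  subst hN
  rw [List.countP_eq_length_filter]
  have hnd : ((List.permutations' (List.finRange 7)).filter (fun l => stat l == k)).Nodup :=
    nodup_perms.filter _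
  rw [← List.toFinset_card_of_nodup hnd]
  refine Finset.card_bij (fun σ _ => List.ofFn (fun i => σ.symm i)) ?_ ?_ ?_
  · intro σ hσ
    rw [Finset.mem_filter] at hσ
    rw [List.mem_toFinset, List.mem_filter]
    refine ⟨?_, ?_⟩
    · rw [List.mem_permutations']
      have h1 : (List.ofFn (fun i => σ.symm i)).Nodup := by
        rw [List.nodup_ofFn]
        exact σ.symm.injective
      refine (List.perm_of_nodup_nodup_toFinset_eq h1 (List.nodup_finRange 7) ?_)
      ext x
      rw [List.mem_toFinset, List.mem_toFinset, List.mem_ofFn]
      constructor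
      · intro _
        exact List.mem_finRange x
      · intro _
        exact ⟨σ x, σ.symm_apply_apply x⟩
    · rw [beq_iff_eq, ← stat_eq]
      exact hσ.2
  · intro σ _ τ _ h
    have h2 := List.ofFn_injective h
    have h3 : σ.symm = τ.symm := by
      apply Equiv.ext
      intro i
      exact congrFun h2 i
    exact Equiv.symm_bijective.injective h3
  · intro l hl
    rw [List.mem_toFinset, List.mem_filter, List.mem_permutations'] at hl
    obtain ⟨hperm, hst⟩ := hl
    have hnl : l.Nodup := hperm.nodup_iff.mpr (List.nodup_finRange 7)
    have hlen : l.length = 7 := by rw [hperm.length_eq, List.length_finRange]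
    have hmem : ∀ x : Fin 7, x ∈ l := fun x => hperm.mem_iff.mpr (List.mem_finRange x)
    let e : Fin l.length ≃ Fin 7 := hnl.getEquivOfForallMemList l hmem
    let τ : Fin 7 ≃ Fin 7 := (finCongr hlen.symm).trans e
    have hl2 : List.ofFn (fun i => τ i) = l := by
      apply List.ext_getElem
      · rw [List.length_ofFn, hlen]
      · intro i h1 h2
        rw [List.getElem_ofFn]
        rfl
    refine ⟨τ.symm, ?_, ?_⟩
    · rw [Finset.mem_filter]
      refine ⟨Finset.mem_univ _, ?_⟩
      rw [stat_eq]
      simp only [Equiv.symm_symm]
      rw [hl2]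
      exact beq_iff_eq.mp hst
    · simp only [Equiv.symm_symm]
      exact hl2

theorem pairs_card :
    (Finset.univ.filter (fun p : Fin 7 × Fin 7 => R p.1 p.2 = true)).card = 10 := by decide

/-- The negation of the preceding statement: For every finite poset with k comparable pairs, let a_i count linear orders of its points agreeing with exactly i comparable pairs; then a_0,…,a_k increases weakly up to some index and decreases weakly after it. -/
theorem result :
    ¬ (∀ (α : Type) [Fintype α] [PartialOrder α] (a : ℕ → ℕ),
      (∀ i : ℕ, a i =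
        (Finset.univ.filter (fun σ : α ≃ Fin (Fintype.card α) =>
          (Finset.univ.filter (fun p : α × α => p.1 < p.2 ∧ σ p.1 < σ p.2)).card = i)).card) →
      ∃ m : ℕ,
        (∀ i j : ℕ, i ≤ j → j ≤ m → a i ≤ a j) ∧
        (∀ i j : ℕ, m ≤ i → i ≤ j →
          j ≤ (Finset.univ.filter (fun p : α × α => p.1 < p.2)).card → a j ≤ a i)) := by
  intro h
  obtain ⟨m, h1, h2⟩ := @h (Fin 7) _ PO
    (fun i => (Finset.univ.filter (fun σ : Fin 7 ≃ Fin (Fintype.card (Fin 7)) =>
      (Finset.univ.filter (fun p : Fin 7 × Fin 7 =>
        R p.1 p.2 = true ∧ σ p.1 < σ p.2)).card = i)).card)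
    (by
      intro i
      refine congrArg Finset.card ?_
      ext σ
      rw [Finset.mem_filter, Finset.mem_filter]
      constructor
      · intro hh
        refine ⟨@Finset.mem_univ _ (_) σ, (congrArg Finset.card ?_).trans hh.2⟩
        ext p
        rw [Finset.mem_filter, Finset.mem_filter]
        exact Iff.rfl
      · intro hh
        refine ⟨@Finset.mem_univ _ (_) σ, (congrArg Finset.card ?_).trans hh.2⟩
        ext p
        rw [Finset.mem_filter, Finset.mem_filter]
        exact Iff.rfl)
  have c4 := count_eq (Fintype.card (Fin 7)) (Fintype.card_fin 7) 4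
  have c5 := count_eq (Fintype.card (Fin 7)) (Fintype.card_fin 7) 5
  have c6 := count_eq (Fintype.card (Fin 7)) (Fintype.card_fin 7) 6
  rw [cnt4] at c4
  rw [cnt5] at c5
  rw [cnt6] at c6
  rcases le_total 5 m with hm | hm
  · have := h1 4 5 (by norm_num) hm
    exact absurd (c4.symm.le.trans (this.trans c5.le)) (by norm_num)
  · have := h2 5 6 hm (by norm_num) (by
      have h10 := pairs_card
      refine le_trans (by norm_num : 6 ≤ 10) (le_of_eq ?_)
      rw [← h10]
      refine congrArg Finset.card ?_
      ext p
      rw [Finset.mem_filter, Finset.mem_filter]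
      exact Iff.rfl)
    exact absurd (c6.symm.le.trans (this.trans c5.le)) (by norm_num)

end Pool.Agent.S06314
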