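import Pool.Statements.S06325
import Pool.Agent.Helper390.EnergyB

set_option autoImplicit false
open Pool Pool.MP_884e45_co

namespace Pool.Agent.S06325

/-- For every finite simple graph, the sum of the positive adjacency eigenvalues (with multiplicity) is at least the larger of the number of positive and the number of negative eigenvalues (with multiplicity). -/
theorem result :
    ∀ (V : Type) [Fintype V] [DecidableEq V] (G : SimpleGraph V) [DecidableRel G.Adj],
      ((max (((G.adjMatrix ℝ).charpoly.roots.filter (fun x => 0 < x)).card)
            (((G.adjMatrix ℝ).charpoly.roots.filter (fun x => x < 0)).card) : ℕ) : ℝ)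
        ≤ ((G.adjMatrix ℝ).charpoly.roots.filter (fun x => 0 < x)).sum := by
  intro V _ _ G _
  exact Pool.Agent.Helper390.Energy.inertia_bound G

end Pool.Agent.S06325
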