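import Pool.Statements.S06327
import Pool.Agent.Helper598.CofactorD

set_option autoImplicit false
open Classical
open Pool Pool.MP_88774e_co

namespace Pool.Agent.S06327

/-- For s≥1, m,n≥2, m+n≥s+2: K_{m,n} has generic C_s^{s-1}-cofactor rank equal to that of the complete graph on its m+n vertices iff mn ≥ (s+1)(m+n) − C(s+2,2). -/
theorem result :
  ∀ s m n : ℕ, 1 ≤ s → 2 ≤ m → 2 ≤ n → s + 2 ≤ m + n →
  ∀ R : SimpleGraph (Fin m ⊕ Fin n) → ((Fin m ⊕ Fin n) → ℝ) → ((Fin m ⊕ Fin n) → ℝ) → ℕ,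
    (∀ (G : SimpleGraph (Fin m ⊕ Fin n)) (x y : (Fin m ⊕ Fin n) → ℝ),
      R G x y = Matrix.rank (Matrix.of fun (e : (Fin m ⊕ Fin n) × (Fin m ⊕ Fin n))
          (c : (Fin m ⊕ Fin n) × Fin (s + 1)) =>
        if G.Adj e.1 e.2 then
          (if c.1 = e.1 then
              (x e.1 - x e.2) ^ (s - (c.2 : ℕ)) * (y e.1 - y e.2) ^ (c.2 : ℕ)
           else if c.1 = e.2 then
              -((x e.1 - x e.2) ^ (s - (c.2 : ℕ)) * (y e.1 - y e.2) ^ (c.2 : ℕ))
           else 0)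
        else (0 : ℝ))) →
    ((∃ x y : (Fin m ⊕ Fin n) → ℝ, ∀ x' y' : (Fin m ⊕ Fin n) → ℝ,
        R ⊤ x' y' ≤ R (completeBipartiteGraph (Fin m) (Fin n)) x y) ↔
      (((s : ℤ) + 1) * ((m : ℤ) + (n : ℤ)) - (((s + 2).choose 2 : ℕ) : ℤ) ≤ (m : ℤ) * (n : ℤ))) := by
  intro s m n hs hm hn hmn R hR
  have hR' : ∀ (G : SimpleGraph (Fin m ⊕ Fin n)) (x y : (Fin m ⊕ Fin n) → ℝ),
      R G x y = (Pool.Agent.Helper598.Cofactor.cofM s G x y).rank := by
    intro G x y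
    rw [hR G x y]
    unfold Pool.Agent.Helper598.Cofactor.cofM
    congr 1
    funext e c
    simp only [Matrix.of_apply]
    congr
  simp only [hR']
  exact Pool.Agent.Helper598.CofactorD.main s m n hs hm hn hmn

end Pool.Agent.S06327
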