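import Pool.Statements.S06330
import Pool.Agent.Helper190.Carb.Main
import Pool.Agent.Helper190.Carb.Geom

set_option autoImplicit false
open MeasureTheory
open Pool Pool.MP_888de5_co

namespace Pool.Agent.S06330

/-- The negation of the preceding statement: There is c>0 such that every nonempty open subset A of the unit square with area α contains the four corners of an axis-parallel rectangle of area at least c·α². -/
theorem result :
    ¬ (∃ c : ℝ, 0 < c ∧ ∀ A : Set (ℝ × ℝ), IsOpen A →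
      A ⊆ Set.Icc (0 : ℝ) 1 ×ˢ Set.Icc (0 : ℝ) 1 → A.Nonempty →
      ∃ x₁ x₂ y₁ y₂ : ℝ, x₁ < x₂ ∧ y₁ < y₂ ∧
        (x₁, y₁) ∈ A ∧ (x₁, y₂) ∈ A ∧ (x₂, y₁) ∈ A ∧ (x₂, y₂) ∈ A ∧
        c * ((volume A).toReal) ^ 2 ≤ (x₂ - x₁) * (y₂ - y₁)) := by
  exact Pool.Agent.Helper190.Carb.geom (fun C _ => Pool.Agent.Helper190.Carb.finite_main C)

end Pool.Agent.S06330
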