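import Pool.Statements.S06332
import Pool.Agent.Helper340.Game

set_option autoImplicit false
open Pool Pool.MP_88b929_co

namespace Pool.Agent.S06332

/-- The negation of the preceding statement: There is a constant C such that for all large N, whenever the two-colour coalition has a winning strategy in the (2:1) game on K_N for a red or white K_q, then q is at most 2 log_3 N − 2 log_3 log_3 N + C. -/
theorem result :
    ¬ (∃ C : ℝ, ∃ N₀ : ℕ, ∀ N : ℕ, N₀ ≤ N → ∀ q : ℕ,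
    (∀ S : Set (Set (Fin N × Fin N) × Set (Fin N × Fin N) × Set (Fin N × Fin N)),
      (∀ R W B : Set (Fin N × Fin N),
        ((∃ e f : Fin N × Fin N, e.1 < e.2 ∧ f.1 < f.2 ∧ e ≠ f ∧ e ∉ R ∧ e ∉ W ∧ e ∉ B ∧
            f ∉ R ∧ f ∉ W ∧ f ∉ B ∧
            ((∃ K : Finset (Fin N), K.card = q ∧
                ∀ x ∈ K, ∀ y ∈ K, x < y → (x, y) ∈ insert e R) ∨
             (∃ K : Finset (Fin N), K.card = q ∧
                ∀ x ∈ K, ∀ y ∈ K, x < y → (x, y) ∈ insert f W) ∨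
             ((∃ g : Fin N × Fin N, g.1 < g.2 ∧ g ∉ R ∧ g ∉ W ∧ g ∉ B ∧ g ≠ e ∧ g ≠ f) ∧
              ∀ g : Fin N × Fin N, g.1 < g.2 → g ∉ R → g ∉ W → g ∉ B → g ≠ e → g ≠ f →
                (insert e R, insert f W, insert g B) ∈ S))) ∨
         (∃ e : Fin N × Fin N, e.1 < e.2 ∧ e ∉ R ∧ e ∉ W ∧ e ∉ B ∧
            (∀ f : Fin N × Fin N, f.1 < f.2 → f ∉ R → f ∉ W → f ∉ B → f = e) ∧
            ((∃ K : Finset (Fin N), K.card = q ∧
                ∀ x ∈ K, ∀ y ∈ K, x < y → (x, y) ∈ insert e R) ∨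
             (∃ K : Finset (Fin N), K.card = q ∧
                ∀ x ∈ K, ∀ y ∈ K, x < y → (x, y) ∈ insert e W)))) →
        (R, W, B) ∈ S) →
      ((∅ : Set (Fin N × Fin N)), (∅ : Set (Fin N × Fin N)), (∅ : Set (Fin N × Fin N))) ∈ S) →
    (q : ℝ) ≤ 2 * Real.logb 3 (N : ℝ) - 2 * Real.logb 3 (Real.logb 3 (N : ℝ)) + C) := by
  rintro ⟨C, N₀, h⟩
  -- eventual inequalities
  have t1 := tendsto_pow_const_div_const_pow_of_one_lt 17 (r := (16 : ℝ)) (by norm_num)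
  have t2 := tendsto_pow_const_div_const_pow_of_one_lt 1 (r := (2 : ℝ)) (by norm_num)
  have t3 := tendsto_pow_const_div_const_pow_of_one_lt 2 (r := (729 / 256 : ℝ)) (by norm_num)
  have c1 : (0 : ℝ) < 1 / (256 * 648 ^ 3 * 6 ^ 17) := by positivity
  have c2 : (0 : ℝ) < 1 / 18 := by norm_num
  have c3 : (0 : ℝ) < 1 / (576 * 9 * (3 : ℝ) ^ C) := by positivity
  have e1 := t1.eventually (gt_mem_nhds c1)
  have e2 := t2.eventually (gt_mem_nhds c2)
  have e3 := t3.eventually (gt_mem_nhds c3)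
  obtain ⟨s, ⟨⟨hs1, hs2⟩, hs3⟩, hs4⟩ :=
    (((e1.and e2).and e3).and (Filter.eventually_ge_atTop (N₀ + 3))).exists
  have hspos : (0 : ℝ) < s := by
    have : 0 < s := by omega
    exact_mod_cast this
  obtain ⟨q, hq⟩ : ∃ q, q = 6 * s - 2 := ⟨_, rfl⟩
  obtain ⟨M, hM⟩ : ∃ M, M = q * 16 ^ s := ⟨_, rfl⟩
  have hqR : (q : ℝ) ≤ 6 * s := by
    have : q ≤ 6 * s := by omega
    exact_mod_cast this
  have h16 : 1 ≤ 16 ^ s := Nat.one_le_pow _ _ (by norm_num)
  have hq3 : 3 ≤ q := by omega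
  have hN : N₀ ≤ 4 * M := by
    have : q ≤ M := by rw [hM]; nlinarith
    omega
  have hwin := h (4 * M) hN q (fun S hS =>
    Pool.Agent.Helper340.Game.wins_param q s M hM hq3 (by omega) (by
      have h2 : (0 : ℝ) < 2 ^ s := by positivity
      rw [pow_one, div_lt_iff₀ h2] at hs2
      have : (18 : ℝ) * s < 2 ^ s := by linarith
      have h3 : 18 * s < 2 ^ s := by exact_mod_cast this
      omega) (by
      have h2 : (0 : ℝ) < 16 ^ s := by positivity
      rw [div_lt_iff₀ h2] at hs1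
      have h3 : (q : ℝ) ^ 17 ≤ (6 * s) ^ 17 := pow_le_pow_left₀ (by positivity) hqR 17
      rw [mul_pow] at h3
      have h4 : (256 * 648 ^ 3 * 6 ^ 17 : ℝ) * (s : ℝ) ^ 17 < 16 ^ s := by
        have h5 := mul_lt_mul_of_pos_left hs1 (show (0 : ℝ) < 256 * 648 ^ 3 * 6 ^ 17 by positivity)
        have h6 : (256 * 648 ^ 3 * 6 ^ 17 : ℝ) * (1 / (256 * 648 ^ 3 * 6 ^ 17) * 16 ^ s) = 16 ^ s := by
          field_simp
        rw [h6] at h5
        exact h5
      nlinarith) S hS)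
  -- numerical contradiction
  have hqpos : (0 : ℝ) < q := by
    have : 0 < q := by omega
    exact_mod_cast this
  have hNval : ((4 * M : ℕ) : ℝ) = 4 * (q * 16 ^ s) := by rw [hM]; push_cast; ring
  rw [hNval] at hwin
  set Nr : ℝ := 4 * (q * 16 ^ s) with hNr
  have h16' : (1 : ℝ) ≤ 16 ^ s := one_le_pow₀ (by norm_num)
  have hNr3 : (3 : ℝ) ≤ Nr := by
    have : (3 : ℝ) ≤ q := by exact_mod_cast hq3
    rw [hNr]; nlinarith
  have hlog1 : (1 : ℝ) ≤ Real.logb 3 Nr := by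
    rw [Real.le_logb_iff_rpow_le (by norm_num) (by linarith)]
    simpa using hNr3
  have hlog2 : 0 ≤ Real.logb 3 (Real.logb 3 Nr) := Real.logb_nonneg (by norm_num) hlog1
  have hfin : (q : ℝ) ≤ 2 * Real.logb 3 Nr + C := by linarith
  have hpow : (3 : ℝ) ^ (q : ℝ) ≤ Nr ^ 2 * 3 ^ C := by
    calc (3 : ℝ) ^ (q : ℝ) ≤ (3 : ℝ) ^ (2 * Real.logb 3 Nr + C) :=
          Real.rpow_le_rpow_of_exponent_le (by norm_num) hfin
      _ = Nr ^ 2 * 3 ^ C := by
          rw [Real.rpow_add (by norm_num), mul_comm 2 (Real.logb 3 Nr), Real.rpow_mul (by norm_num),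
            Real.rpow_logb (by norm_num) (by norm_num) (by linarith)]
          norm_num
  rw [Real.rpow_natCast] at hpow
  have h3q : (3 : ℝ) ^ q * 9 = 729 ^ s := by
    have : q + 2 = 6 * s := by omega
    calc (3 : ℝ) ^ q * 9 = 3 ^ (q + 2) := by rw [pow_add]; norm_num
      _ = 729 ^ s := by rw [this, pow_mul]; norm_num
  have hNr2 : Nr ^ 2 ≤ 576 * (s : ℝ) ^ 2 * 256 ^ s := by
    have h256 : (256 : ℝ) ^ s = (16 ^ s) ^ 2 := by rw [← pow_mul, mul_comm, pow_mul]; norm_num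
    rw [h256, hNr]
    have : (q : ℝ) ^ 2 ≤ (6 * s) ^ 2 := pow_le_pow_left₀ hqpos.le hqR 2
    have hp : (0 : ℝ) ≤ (16 ^ s) ^ 2 := by positivity
    nlinarith [mul_le_mul_of_nonneg_right this hp]
  have h729 : (s : ℝ) ^ 2 * (576 * 9 * 3 ^ C) * 256 ^ s < 729 ^ s := by
    have hr : (0 : ℝ) < (729 / 256) ^ s := by positivity
    rw [div_lt_iff₀ hr] at hs3
    have h5 := mul_lt_mul_of_pos_right hs3 (show (0 : ℝ) < (576 * 9 * 3 ^ C) * 256 ^ s by positivity)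
    have h6 : 1 / (576 * 9 * (3 : ℝ) ^ C) * (729 / 256) ^ s * ((576 * 9 * 3 ^ C) * 256 ^ s) = 729 ^ s := by
      rw [div_pow]
      have : (3 : ℝ) ^ C ≠ 0 := by positivity
      field_simp
    rw [h6] at h5
    linarith
  have hC : (0 : ℝ) < 3 ^ C := by positivity
  have h7 : (3 : ℝ) ^ q * 9 ≤ 576 * (s : ℝ) ^ 2 * 256 ^ s * 3 ^ C * 9 := by
    have := mul_le_mul_of_nonneg_right hNr2 hC.le
    linarith
  rw [h3q] at h7
  linarith

end Pool.Agent.S06332
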