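import Pool.Statements.S06360
import Pool.Agent.Helper378.PD.Final

set_option autoImplicit false
open Pool Pool.MP_8b2bd9_co

namespace Pool.Agent.S06360

/-- The negation of the preceding statement: There is a fixed exponent C such that for every finite set S of positive reals, the plane graph joining points whose distance lies in S has chromatic number at most (∣S∣+1)^C. -/
theorem result :
    ¬ (∃ C : ℕ, ∀ S : Finset ℝ, (∀ s ∈ S, 0 < s) →
      (SimpleGraph.fromRel
          (fun x y : EuclideanSpace ℝ (Fin 2) => dist x y ∈ S)).chromaticNumber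
        ≤ (((S.card + 1) ^ C : ℕ) : ℕ∞)) := by
  rintro ⟨C, hC⟩
  -- exponential beats polynomial
  obtain ⟨J, hJ⟩ : ∃ J : ℕ, (J + 1) ^ C < 2 ^ J := by
    have h1 : Filter.Tendsto (fun n : ℕ => (n : ℝ) ^ C / 2 ^ n) Filter.atTop (nhds 0) :=
      tendsto_pow_const_div_const_pow_of_one_lt C one_lt_two
    have h2 := (h1.comp (Filter.tendsto_add_atTop_nat 1)).eventually
      (gt_mem_nhds (show (0:ℝ) < 1 / 2 by norm_num))
    obtain ⟨J, hJ⟩ := h2.exists
    refine ⟨J, ?_⟩
    have h3 : ((J + 1 : ℕ) : ℝ) ^ C / 2 ^ (J + 1) < 1 / 2 := hJ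
    rw [div_lt_iff₀ (by positivity), pow_succ] at h3
    have h4 : ((J + 1 : ℕ) : ℝ) ^ C < 2 ^ J := by linarith
    exact_mod_cast h4
  obtain ⟨S, hcard, hpos, hlow⟩ := Pool.Agent.Helper378.PD.final J
  have h := hC S hpos
  rw [SimpleGraph.chromaticNumber_le_iff_colorable, hcard] at h
  obtain ⟨col⟩ := h
  have := hlow _ (fun x => col x) (fun x y hxy => col.valid (by
    rw [SimpleGraph.fromRel_adj]
    refine ⟨?_, Or.inl hxy⟩
    rintro rfl
    rw [dist_self] at hxy
    exact lt_irrefl 0 (hpos 0 hxy)))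
  omega

end Pool.Agent.S06360
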