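import Pool.Statements.S06363
import Pool.Agent.Helper903.ES.Main

set_option autoImplicit false
open Pool Pool.MP_8b6985_co

namespace Pool.Agent.S06363

/-- For all n, k: every simple graph on n vertices with more than (k-1)n/2 edges contains a copy of every tree on k+1 vertices, via an injective vertex map that sends tree edges to graph edges. -/
theorem result :
    ∀ (n k : ℕ) (G : SimpleGraph (Fin n)),
      (k - 1) * n < 2 * G.edgeSet.ncard →
      ∀ T : SimpleGraph (Fin (k + 1)), T.IsTree →
        ∃ f : Fin (k + 1) → Fin n, Function.Injective f ∧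
          ∀ a b, T.Adj a b → G.Adj (f a) (f b) := by
  intro n k G h T hT
  classical
  have h' : (k - 1) * Fintype.card (Fin n) < 2 * G.edgeFinset.card := by
    rw [Fintype.card_fin, ← Set.ncard_coe_finset, SimpleGraph.coe_edgeFinset]
    exact h
  obtain ⟨f, hf⟩ := ES903.erdos_sos G k h' T hT (Fintype.card_fin _)
  exact ⟨f, f.injective, hf⟩

end Pool.Agent.S06363
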