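import Pool.Statements.S06382

set_option autoImplicit false
open Pool Pool.MP_8c7c0e_co

namespace Pool.Agent.S06382

open Polynomial Matrix

section Blocks

variable {F : Type} [Field F]

/-- The characteristic polynomial of a block diagonal matrix is the product over the blocks. -/
theorem charpoly_blockDiag {k m : ℕ} (M : Fin k → Matrix (Fin m) (Fin m) F) :
    (blockDiagonal M).charpoly = ∏ i, (M i).charpoly := by
  have h : charmatrix (blockDiagonal M) = blockDiagonal (fun i => charmatrix (M i)) := by
    ext ⟨a, i⟩ ⟨b, j⟩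
    by_cases hij : i = j
    · subst hij
      by_cases hab : a = b
      · subst hab
        simp [blockDiagonal_apply]
      · simp [blockDiagonal_apply, hab]
    · simp [blockDiagonal_apply, hij]
  rw [Matrix.charpoly, h, det_blockDiagonal]
  rfl

/-- Over an infinite field a full two by two matrix realizes every split quadratic. -/
theorem full_two [Infinite F] (a b : F) :
    ∃ M : Matrix (Fin 2) (Fin 2) F, (∀ i j, M i j ≠ 0) ∧
      M.charpoly = (X - C a) * (X - C b) := by
  classical
  obtain ⟨t, ht⟩ := Infinite.exists_notMem_finset ({0, a + b, a, b} : Finset F)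
  simp only [Finset.mem_insert, Finset.mem_singleton, not_or] at ht
  obtain ⟨h0, hab, ha, hb⟩ := ht
  refine ⟨!![t, 1; -((t - a) * (t - b)), a + b - t], ?_, ?_⟩
  · intro i j
    fin_cases i <;> fin_cases j
    · simpa using h0
    · simp
    · simp [sub_eq_zero, ha, hb]
    · simp only [Fin.mk_one, Fin.isValue, of_apply, cons_val', cons_val_one, cons_val_fin_one,
        ne_eq]
      intro h
      exact hab (by linear_combination -h)
  · rw [charpoly_fin_two]
    simp [trace_fin_two, det_fin_two]
    ring

/-- The pattern of the four by four block, with seven nonzero entries. -/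
def P4 : Matrix (Fin 4) (Fin 4) Bool :=
  !![false, true, false, false;
     true, false, true, false;
     false, false, true, true;
     true, false, false, true]

/-- The four by four block with seven nonzero entries. -/
theorem four_block (a b u v : F) :
    (!![0, 1, 0, 0; u, 0, 1, 0; 0, 0, a, 1; v, 0, 0, b] : Matrix (Fin 4) (Fin 4) F).charpoly
      = X ^ 4 - C (a + b) * X ^ 3 + C (a * b - u) * X ^ 2 + C ((a + b) * u) * X
        - C (a * b * u + v) := by
  have h : charmatrix (!![0, 1, 0, 0; u, 0, 1, 0; 0, 0, a, 1; v, 0, 0, b] :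
      Matrix (Fin 4) (Fin 4) F)
      = !![X, -1, 0, 0; -C u, X, -1, 0; 0, 0, X - C a, -1; -C v, 0, 0, X - C b] := by
    ext i j
    fin_cases i <;> fin_cases j <;> simp
  rw [Matrix.charpoly, h, det_succ_row_zero]
  simp [Fin.sum_univ_succ, det_fin_three, Fin.succAbove]
  ring

theorem four_block_pattern (a b u v : F) (ha : a ≠ 0) (hb : b ≠ 0) (hu : u ≠ 0) (hv : v ≠ 0) :
    ∀ i j, ((!![0, 1, 0, 0; u, 0, 1, 0; 0, 0, a, 1; v, 0, 0, b] : Matrix (Fin 4) (Fin 4) F) i j ≠ 0
      ↔ P4 i j = true) := by
  intro i j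
  fin_cases i <;> fin_cases j <;> simp [P4, ha, hb, hu, hv]

/-- Fourfold eigenvalue in characteristic two. -/
theorem four_equal [Infinite F] [CharP F 2] (α : F) :
    ∃ M : Matrix (Fin 4) (Fin 4) F, (∀ i j, (M i j ≠ 0 ↔ P4 i j = true)) ∧
      M.charpoly = (X - C α) * (X - C α) * (X - C α) * (X - C α) := by
  classical
  obtain ⟨s, hs⟩ := Infinite.exists_notMem_finset ({0, α} : Finset F)
  simp only [Finset.mem_insert, Finset.mem_singleton, not_or] at hs
  obtain ⟨h0, hα⟩ := hs
  have h2 : (2 : F) = 0 := CharTwo.two_eq_zero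
  have h2' : (2 : F[X]) = 0 := CharTwo.two_eq_zero
  have hne : s - α ≠ 0 := sub_ne_zero.2 hα
  refine ⟨_, four_block_pattern s s (s ^ 2) ((s - α) ^ 4) h0 h0 (pow_ne_zero _ h0)
    (pow_ne_zero _ hne), ?_⟩
  rw [four_block]
  simp only [map_add, map_mul, map_sub, map_pow]
  linear_combination (X ^ 3 * (2 * C α - C s) + X ^ 2 * (- 3 * C α ^ 2)
    + X * (C s ^ 3 + 2 * C α ^ 3) - C α ^ 4 - C s ^ 4 + 2 * C s ^ 3 * C α
    - 3 * C s ^ 2 * C α ^ 2 + 2 * C s * C α ^ 3) * h2'

/-- Four distinct eigenvalues in characteristic two. -/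
theorem four_distinct [IsAlgClosed F] [CharP F 2] (x y z w : F)
    (hxy : x ≠ y) (hxz : x ≠ z) (hxw : x ≠ w) (hyz : y ≠ z) (hyw : y ≠ w) (hzw : z ≠ w)
    (h1 : x + y + z + w ≠ 0)
    (h3 : x * y * z + x * y * w + x * z * w + y * z * w ≠ 0)
    (h12 : (x + y + z + w) * (x * y + x * z + x * w + y * z + y * w + z * w)
      + (x * y * z + x * y * w + x * z * w + y * z * w) ≠ 0) :
    ∃ M : Matrix (Fin 4) (Fin 4) F, (∀ i j, (M i j ≠ 0 ↔ P4 i j = true)) ∧
      M.charpoly = (X - C x) * (X - C y) * (X - C z) * (X - C w) := by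
  classical
  have h2 : (2 : F) = 0 := CharTwo.two_eq_zero
  set e1 := x + y + z + w with he1
  set e2 := x * y + x * z + x * w + y * z + y * w + z * w with he2
  set e3 := x * y * z + x * y * w + x * z * w + y * z * w with he3
  set e4 := x * y * z * w with he4
  set u := e3 / e1 with hu
  have hu1 : u * e1 = e3 := by rw [hu]; field_simp
  have hu0 : u ≠ 0 := div_ne_zero h3 h1
  -- the two loops are the roots of a quadratic
  obtain ⟨a, ha⟩ := IsAlgClosed.exists_root (X ^ 2 + C e1 * X + C (e2 + u) : F[X]) (by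
    have : (X ^ 2 + C e1 * X + C (e2 + u) : F[X]).degree = 2 := by compute_degree!
    rw [this]; decide)
  have ha' : a ^ 2 + e1 * a + (e2 + u) = 0 := by
    have := ha
    simpa [IsRoot] using this
  have hab : a * (e1 + a) = e2 + u := by linear_combination ha' - (e2 + u) * h2
  have hprod : e2 + u ≠ 0 := by
    intro h
    apply h12
    have : (e2 + u) * e1 = 0 := by rw [h, zero_mul]
    linear_combination this - hu1
  have ha0 : a ≠ 0 := by
    intro h
    apply hprod
    rw [← hab, h]; ring
  have hb0 : e1 + a ≠ 0 := by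
    intro h
    apply hprod
    rw [← hab, h]; ring
  set v := (e2 + u) * u + e4 with hv
  have hv0 : v ≠ 0 := by
    intro h
    have h' : v * e1 ^ 2 = 0 := by rw [h, zero_mul]
    have h'' : (x + y) * (x + z) * (x + w) * (y + z) * (y + w) * (z + w) = 0 := by
      have h4 : (x + y) * (x + z) * (x + w) * (y + z) * (y + w) * (z + w)
          = e1 * e2 * e3 - e3 ^ 2 - e1 ^ 2 * e4 := by
        rw [he1, he2, he3, he4]; ring
      rw [h4]
      have h5 : v * e1 ^ 2 = e2 * e1 * (u * e1) + (u * e1) ^ 2 + e4 * e1 ^ 2 := by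
        rw [hv]; ring
      rw [h5, hu1] at h'
      linear_combination h' - (e3 ^ 2 + e1 ^ 2 * e4) * h2
    simp [CharTwo.add_eq_zero, hxy, hxz, hxw, hyz, hyw, hzw] at h''
  refine ⟨_, four_block_pattern a (e1 + a) u v ha0 hb0 hu0 hv0, ?_⟩
  rw [four_block]
  have c3 : a + (e1 + a) = e1 := by linear_combination a * h2
  have c2 : a * (e1 + a) - u = e2 := by linear_combination hab
  have c1 : e1 * u = - e3 := by linear_combination hu1 + e3 * h2
  have c0 : a * (e1 + a) * u + v = - e4 := by
    rw [hab, hv]; linear_combination ((e2 + u) * u + e4) * h2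
  rw [c3, c2, c1, c0, he1, he2, he3, he4]
  simp only [map_add, map_mul, map_neg]
  ring

/-- Direct sums of full two by two blocks realize every split polynomial of even degree. -/
theorem pairs_block [Infinite F] (k : ℕ) (r : Fin 2 × Fin k → F) :
    ∃ M : Matrix (Fin 2 × Fin k) (Fin 2 × Fin k) F,
      (∀ i j, (M i j ≠ 0 ↔ i.2 = j.2)) ∧ M.charpoly = ∏ i, (X - C (r i)) := by
  choose M hM hM' using fun i : Fin k => full_two (r (0, i)) (r (1, i))
  refine ⟨blockDiagonal M, ?_, ?_⟩
  · rintro ⟨a, i⟩ ⟨b, j⟩
    by_cases hij : i = j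
    · subst hij
      simp [blockDiagonal_apply, hM]
    · simp [blockDiagonal_apply, hij]
  · rw [charpoly_blockDiag, Fintype.prod_prod_type, Fin.prod_univ_two, ← Finset.prod_mul_distrib]
    exact Finset.prod_congr rfl fun i _ => hM' i

/-- A monic split polynomial given by the multiset of its roots, enumerated by any type. -/
theorem enumerate {ι : Type} [Fintype ι] (s : Multiset F) (hs : Multiset.card s = Fintype.card ι) :
    ∃ r : ι → F, (s.map (fun a => X - C a)).prod = ∏ i, (X - C (r i)) := by
  classical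
  obtain ⟨l, rfl⟩ : ∃ l : List F, s = (l : Multiset F) := ⟨s.toList, by simp⟩
  have hl : l.length = Fintype.card ι := by simpa using hs
  let e : ι ≃ Fin l.length := (Fintype.equivFin ι).trans (finCongr hl.symm)
  refine ⟨fun i => l.get (e i), ?_⟩
  rw [Equiv.prod_comp e (fun j => X - C (l.get j))]
  rw [Multiset.map_coe, Multiset.prod_coe, ← List.prod_ofFn]
  congr 1
  apply List.ext_get
  · simp
  · intro n h1 h2
    simp

/-- Among many elements of a field of characteristic two there are four equal ones or four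
distinct ones in general position. -/
theorem choose_four [CharP F 2] [DecidableEq F] (s : Multiset F) (hs : 25 ≤ Multiset.card s) :
    (∃ a, ({a, a, a, a} : Multiset F) ≤ s) ∨
    (∃ x y z w : F, x ≠ y ∧ x ≠ z ∧ x ≠ w ∧ y ≠ z ∧ y ≠ w ∧ z ≠ w ∧
      x + y + z + w ≠ 0 ∧ x * y * z + x * y * w + x * z * w + y * z * w ≠ 0 ∧
      (x + y + z + w) * (x * y + x * z + x * w + y * z + y * w + z * w)
      + (x * y * z + x * y * w + x * z * w + y * z * w) ≠ 0 ∧
      ({x, y, z, w} : Multiset F) ≤ s) := by
  by_cases h : ∃ a, 4 ≤ s.count a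
  · left
    obtain ⟨a, ha⟩ := h
    refine ⟨a, ?_⟩
    have : ({a, a, a, a} : Multiset F) = Multiset.replicate 4 a := rfl
    rw [this]
    exact Multiset.le_count_iff_replicate_le.1 ha
  · right
    push Not at h
    have hcard : Multiset.card s ≤ 3 * s.toFinset.card := by
      rw [← Multiset.toFinset_sum_count_eq]
      calc ∑ a ∈ s.toFinset, s.count a ≤ ∑ a ∈ s.toFinset, 3 :=
            Finset.sum_le_sum fun a _ => by have := h a; omega
        _ = 3 * s.toFinset.card := by simp [mul_comm]
    set T := s.toFinset.erase 0 with hT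
    have hTc : 8 ≤ T.card := by
      have := Finset.pred_card_le_card_erase (s := s.toFinset) (a := (0 : F))
      rw [← hT] at this
      omega
    have hT0 : ∀ t ∈ T, t ≠ 0 := fun t ht => Finset.ne_of_mem_erase ht
    obtain ⟨x, y, z, hx, hy, hz, hxy, hxz, hyz⟩ :
        ∃ x y z, x ∈ T ∧ y ∈ T ∧ z ∈ T ∧ x ≠ y ∧ x ≠ z ∧ y ≠ z := by
      have : 2 < T.card := by omega
      exact Finset.two_lt_card_iff.1 this |>.imp fun a ⟨b, c, h⟩ => ⟨b, c, h⟩
    have hx0 := hT0 x hx
    have hy0 := hT0 y hy
    have hz0 := hT0 z hz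
    have h2 : (2 : F) = 0 := CharTwo.two_eq_zero
    -- the quadratic whose roots are to be avoided
    set q : F[X] := C (x + y + z) * X ^ 2 + C ((x + y + z) ^ 2) * X
      + C ((x + y + z) * (x * y + x * z + y * z) + x * y * z) with hq
    have hq0 : q ≠ 0 := by
      intro h0
      have h1 : q.coeff 0 = 0 := by rw [h0, coeff_zero]
      have h3 : (x + y) * (x + z) * (y + z) = 0 := by
        have h4 : q.coeff 0 = (x + y + z) * (x * y + x * z + y * z) + x * y * z := by
          simp [hq]
        rw [h4] at h1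
        linear_combination h1 - x * y * z * h2
      simp [CharTwo.add_eq_zero, hxy, hxz, hyz] at h3
    have hqr : q.roots.toFinset.card ≤ 2 := by
      calc q.roots.toFinset.card ≤ Multiset.card q.roots := Multiset.toFinset_card_le _
        _ ≤ q.natDegree := q.card_roots'
        _ ≤ 2 := by rw [hq]; compute_degree
    set B : Finset F := ({x, y, z, x + y + z, x * y * z / (x * y + x * z + y * z)} : Finset F)
      ∪ q.roots.toFinset with hB
    have hBc : B.card ≤ 7 := by
      have h5 : ({x, y, z, x + y + z, x * y * z / (x * y + x * z + y * z)} : Finset F).card ≤ 5 :=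
        Finset.card_le_five
      have := Finset.card_union_le
        ({x, y, z, x + y + z, x * y * z / (x * y + x * z + y * z)} : Finset F) q.roots.toFinset
      rw [← hB] at this
      omega
    obtain ⟨w, hwT, hwB⟩ : ∃ w ∈ T, w ∉ B := by
      by_contra hcon
      push Not at hcon
      have := Finset.card_le_card (show T ⊆ B from hcon)
      omega
    simp only [hB, Finset.mem_union, Finset.mem_insert, Finset.mem_singleton,
      Multiset.mem_toFinset, mem_roots hq0, not_or] at hwB
    obtain ⟨⟨hwx, hwy, hwz, hws, hwd⟩, hwq⟩ := hwB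
    refine ⟨x, y, z, w, hxy, hxz, Ne.symm hwx, hyz, Ne.symm hwy, Ne.symm hwz, ?_, ?_, ?_, ?_⟩
    · intro h0
      exact hws ((CharTwo.add_eq_zero.1 h0).symm)
    · intro h0
      by_cases hs2 : x * y + x * z + y * z = 0
      · have : x * y * z = 0 := by linear_combination h0 - w * hs2
        simp [hx0, hy0, hz0] at this
      · apply hwd
        rw [eq_div_iff hs2]
        linear_combination h0 - x * y * z * h2
    · intro h0
      apply hwq
      rw [IsRoot, hq]
      simp only [eval_add, eval_mul, eval_C, eval_pow, eval_X]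
      linear_combination h0 - (w * (x * y + x * z + y * z)) * h2
    · have hsub : ({x, y, z, w} : Multiset F) = ({x, y, z, w} : Finset F).val := by
        rw [Finset.insert_val_of_notMem, Finset.insert_val_of_notMem,
          Finset.insert_val_of_notMem, Finset.singleton_val]
        · rfl
        · simpa using Ne.symm hwz
        · simp [hyz, Ne.symm hwy]
        · simp [hxy, hxz, Ne.symm hwx]
      rw [hsub, Finset.val_le_iff_val_subset]
      intro t ht
      have ht' : t ∈ ({x, y, z, w} : Finset F) := ht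
      have hTs : ∀ t ∈ T, t ∈ s := fun t ht => by
        simpa using Finset.mem_of_mem_erase ht
      simp only [Finset.mem_insert, Finset.mem_singleton] at ht'
      rcases ht' with rfl | rfl | rfl | rfl
      · exact hTs _ hx
      · exact hTs _ hy
      · exact hTs _ hz
      · exact hTs _ hwT

/-- The pattern on the index set of the direct sum. -/
def PS : Fin 4 ⊕ (Fin 2 × Fin 11) → Fin 4 ⊕ (Fin 2 × Fin 11) → Bool
  | Sum.inl i, Sum.inl j => P4 i j
  | Sum.inr i, Sum.inr j => decide (i.2 = j.2)
  | _, _ => false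

/-- The direct sum pattern is spectrally arbitrary in characteristic two over an algebraically
closed field. -/
theorem sum_arbitrary [IsAlgClosed F] [CharP F 2] (p : F[X]) (hp : p.Monic)
    (hd : p.natDegree = 26) :
    ∃ M : Matrix (Fin 4 ⊕ (Fin 2 × Fin 11)) (Fin 4 ⊕ (Fin 2 × Fin 11)) F,
      (∀ i j, (M i j ≠ 0 ↔ PS i j = true)) ∧ M.charpoly = p := by
  classical
  have hsplit : p.Splits := IsAlgClosed.splits p
  have hcard : Multiset.card p.roots = 26 := by
    rw [← hd]; exact (splits_iff_card_roots.1 hsplit)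
  have hprod : (p.roots.map (fun a => X - C a)).prod = p :=
    (hsplit.eq_prod_roots_of_monic hp).symm
  -- it is enough to find four roots realized by the four by four block
  have key : ∀ t : Multiset F, t ≤ p.roots → Multiset.card t = 4 →
      (∃ M : Matrix (Fin 4) (Fin 4) F, (∀ i j, (M i j ≠ 0 ↔ P4 i j = true)) ∧
        M.charpoly = (t.map (fun a => X - C a)).prod) →
      ∃ M : Matrix (Fin 4 ⊕ (Fin 2 × Fin 11)) (Fin 4 ⊕ (Fin 2 × Fin 11)) F,
        (∀ i j, (M i j ≠ 0 ↔ PS i j = true)) ∧ M.charpoly = p := by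
    rintro t ht htc ⟨M, hM, hMc⟩
    have hrest : Multiset.card (p.roots - t) = Fintype.card (Fin 2 × Fin 11) := by
      rw [Multiset.card_sub ht, hcard, htc]; rfl
    obtain ⟨r, hr⟩ := enumerate (ι := Fin 2 × Fin 11) (p.roots - t) hrest
    obtain ⟨N, hN, hNc⟩ := pairs_block 11 r
    refine ⟨fromBlocks M 0 0 N, ?_, ?_⟩
    · rintro (i | i) (j | j)
      · simpa [PS] using hM i j
      · simp [PS]
      · simp [PS]
      · simpa [PS] using hN i j
    · rw [charpoly_fromBlocks_zero₁₂, hMc, hNc, ← hr, ← Multiset.prod_add, ← Multiset.map_add,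
        add_tsub_cancel_of_le ht, hprod]
  rcases choose_four p.roots (by omega) with ⟨a, ha⟩ | ⟨x, y, z, w, hxy, hxz, hxw, hyz, hyw, hzw,
    h1, h3, h12, hle⟩
  · refine key _ ha rfl ?_
    obtain ⟨M, hM, hMc⟩ := four_equal (F := F) a
    exact ⟨M, hM, by rw [hMc]; simp [mul_assoc]⟩
  · refine key _ hle rfl ?_
    obtain ⟨M, hM, hMc⟩ := four_distinct x y z w hxy hxz hxw hyz hyw hzw h1 h3 h12
    exact ⟨M, hM, by rw [hMc]; simp [mul_assoc]⟩

end Blocks

/-- The index equivalence. -/
def idx : Fin 4 ⊕ (Fin 2 × Fin 11) ≃ Fin 26 :=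
  (Equiv.sumCongr (Equiv.refl (Fin 4)) (finProdFinEquiv (m := 2) (n := 11))).trans
    (finSumFinEquiv (m := 4) (n := 22))

/-- The pattern of order 26, with 51 nonzero entries. -/
def P26 : Matrix (Fin 26) (Fin 26) Bool := fun i j => PS (idx.symm i) (idx.symm j)

theorem card_P26 :
    (Finset.univ.filter (fun ij : Fin 26 × Fin 26 => P26 ij.1 ij.2 = true)).card = 51 := by
  decide +kernel

/-- The negation of the preceding statement: For every infinite field of nonzero characteristic, every n×n zero-nonzero pattern such that every monic degree-n polynomial is the characteristic polynomial of some matrix with exactly that pattern has at least 2n nonzero positions. -/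
theorem result :
    ¬ (∀ (F : Type) [Field F] [Infinite F], ringChar F ≠ 0 →
      ∀ (n : ℕ) (P : Matrix (Fin n) (Fin n) Bool),
        (∀ p : Polynomial F, p.Monic → p.natDegree = n →
          ∃ A : Matrix (Fin n) (Fin n) F,
            (∀ i j, (A i j ≠ 0 ↔ P i j = true)) ∧ A.charpoly = p) →
        2 * n ≤ (Finset.univ.filter (fun ij : Fin n × Fin n => P ij.1 ij.2 = true)).card) := by
  intro h
  have : Fact (Nat.Prime 2) := ⟨Nat.prime_two⟩
  have hchar : ringChar (AlgebraicClosure (ZMod 2)) ≠ 0 := by
    rw [ringChar.eq (AlgebraicClosure (ZMod 2)) 2]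
    decide
  have h26 := h (AlgebraicClosure (ZMod 2)) hchar 26 P26 (by
    intro p hp hd
    obtain ⟨M, hM, hMc⟩ := sum_arbitrary p hp hd
    refine ⟨M.reindex idx idx, ?_, ?_⟩
    · intro i j
      exact hM (idx.symm i) (idx.symm j)
    · rw [charpoly_reindex, hMc])
  rw [card_P26] at h26
  omega

end Pool.Agent.S06382
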