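import Pool.Statements.S06396

set_option autoImplicit false
open Pool Pool.MP_8cd7cf_co

namespace Pool.Agent.S06396

/-- index of a copy: colours of the three roots, and a repetition number -/
abbrev Idx := (Fin 3 → Fin 4) × Fin 7

/-- Vertices: three roots; in every copy two hubs and five leaves. -/
inductive Vt
  | root : Fin 3 → Vt
  | hub : Idx → Fin 2 → Vt
  | leaf : Idx → Fin 5 → Vt
  deriving DecidableEq, Fintype

/-- the five hubs seen by a copy: the three roots and its own two hubs -/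
def hubOf (c : Idx) : Fin 5 → Vt :=
  ![Vt.root 0, Vt.root 1, Vt.root 2, Vt.hub c 0, Vt.hub c 1]

/-- colours of the five hubs of a copy -/
def kap (c : Idx) : Fin 5 → ℕ :=
  ![(c.1 0 : ℕ), 4 + (c.1 1 : ℕ), 8 + (c.1 2 : ℕ), 12, 13]

def rel (x y : Vt) : Prop :=
  (∃ i c j, x = Vt.root i ∧ y = Vt.hub c j) ∨
    (∃ c m h, h ≠ m ∧ x = Vt.leaf c m ∧ y = hubOf c h)

def G : SimpleGraph Vt := SimpleGraph.fromRel rel

theorem hubOf_ne_leaf (c : Idx) (h : Fin 5) (c' : Idx) (m : Fin 5) :
    hubOf c h ≠ Vt.leaf c' m := by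
  fin_cases h <;> simp [hubOf]

theorem hubOf_cases (c : Idx) (h : Fin 5) :
    (∃ i, hubOf c h = Vt.root i) ∨ (∃ j, hubOf c h = Vt.hub c j) := by
  fin_cases h <;> simp [hubOf]

theorem leaf_nbr {c : Idx} {m : Fin 5} {y : Vt} (h : G.Adj (Vt.leaf c m) y) :
    ∃ h, h ≠ m ∧ y = hubOf c h := by
  rw [G, SimpleGraph.fromRel_adj] at h
  obtain ⟨_, h | h⟩ := h
  · rcases h with ⟨i, c', j, h1, _⟩ | ⟨c', m', k, hk, h1, h2⟩
    · exact absurd h1 (by simp)
    · simp only [Vt.leaf.injEq] at h1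
      obtain ⟨rfl, rfl⟩ := h1
      exact ⟨k, hk, h2⟩
  · rcases h with ⟨i, c', j, _, h1⟩ | ⟨c', m', k, hk, h1, h2⟩
    · exact absurd h1 (by simp)
    · exact absurd h2.symm (hubOf_ne_leaf _ _ _ _)

theorem adj_leaf {c : Idx} {m h : Fin 5} (hm : h ≠ m) : G.Adj (hubOf c h) (Vt.leaf c m) := by
  rw [G, SimpleGraph.fromRel_adj]
  exact ⟨hubOf_ne_leaf _ _ _ _, Or.inr (Or.inr ⟨c, m, h, hm, rfl, rfl⟩)⟩

theorem adj_root (i : Fin 3) (c : Idx) (j : Fin 2) : G.Adj (Vt.root i) (Vt.hub c j) := by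
  rw [G, SimpleGraph.fromRel_adj]
  exact ⟨by simp, Or.inl (Or.inl ⟨i, c, j, rfl, rfl⟩)⟩

def cp : Vt → Option Idx
  | .root _ => none
  | .hub c _ => some c
  | .leaf c _ => some c

theorem rel_cp {x y : Vt} (h : rel x y) (hx : cp x ≠ none) (hy : cp y ≠ none) : cp x = cp y := by
  rcases h with ⟨i, c', j, rfl, _⟩ | ⟨c', m', k, hk, rfl, rfl⟩
  · exact absurd rfl hx
  · rcases hubOf_cases c' k with ⟨i, hi⟩ | ⟨j, hj⟩
    · rw [hi] at hy; exact absurd rfl hy
    · rw [hj]; rfl

theorem adj_cp {x y : Vt} (h : G.Adj x y) (hx : cp x ≠ none) (hy : cp y ≠ none) :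
    cp x = cp y := by
  rw [G, SimpleGraph.fromRel_adj] at h
  rcases h.2 with h | h
  · exact rel_cp h hx hy
  · exact (rel_cp h hy hx).symm

theorem same_cp {S : Set Vt} (hS : (G.induce S).Connected) (hn : ∀ x ∈ S, cp x ≠ none)
    (x y : S) : cp x = cp y := by
  obtain ⟨p⟩ := hS.preconnected x y
  induction p with
  | nil => rfl
  | cons h p ih => exact (adj_cp h (hn _ (Subtype.mem _)) (hn _ (Subtype.mem _))).trans ih

theorem leaf_only {S : Set Vt} (hS : (G.induce S).Connected) (hn : ∀ x ∈ S, ∃ c m, x = Vt.leaf c m)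
    (x y : S) : x = y := by
  obtain ⟨p⟩ := hS.preconnected x y
  cases p with
  | nil => rfl
  | @cons _ v _ h p =>
    exfalso
    obtain ⟨c, m, hx⟩ := hn _ x.2
    obtain ⟨c', m', hv⟩ := hn _ v.2
    have h' : G.Adj (x : Vt) (v : Vt) := h
    rw [hx] at h'
    obtain ⟨k, _, hk⟩ := leaf_nbr h'
    rw [hv] at hk
    exact hubOf_ne_leaf _ _ _ _ hk.symm

/-- adjacency in `\bar K_3 + K_{1,3}`: 0 = centre of `K_{1,3}`, 4,5,6 its leaves,
1,2,3 = the three vertices of the edgeless graph. -/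
def A (u v : Fin 7) : Bool :=
  decide (u ≠ v) && !(decide (1 ≤ u ∧ u ≤ 3) && decide (1 ≤ v ∧ v ≤ 3)) &&
    !(decide (4 ≤ u) && decide (4 ≤ v))

def Nb (u : Fin 7) : Finset (Fin 7) := Finset.univ.filter (fun w => A u w = true)

theorem A_common : ∀ u v : Fin 7, u ≠ v →
    A u v = true ∨ 4 ≤ (Finset.univ.filter (fun w => A u w = true ∧ A w v = true)).card := by
  decide

theorem A_twin : ∀ u v : Fin 7, u ≠ v → A u v = false → Nb v = Nb u ∧ (Nb u).card = 4 := by
  decide

def third (u v : Fin 7) : Fin 7 := if 4 ≤ u then 15 - u - v else 6 - u - v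

theorem A_third : ∀ u v : Fin 7, u ≠ v → A u v = false →
    third u v ≠ u ∧ third u v ≠ v ∧ Nb (third u v) = Nb u ∧ third u v ∉ Nb u := by
  decide

theorem pig (eta : Fin 5 → Fin 7) (m : Fin 5) (N : Finset (Fin 7)) (hN : N.card = 4)
    (h : ∀ w ∈ N, ∃ k, k ≠ m ∧ eta k = w) :
    (∀ k, k ≠ m → eta k ∈ N) ∧ (∀ k l, k ≠ m → l ≠ m → eta k = eta l → k = l) := by
  classical
  set E : Finset (Fin 5) := Finset.univ.erase m with hE
  have hsub : N ⊆ E.image eta := by
    intro w hw
    obtain ⟨k, hk, hk'⟩ := h w hw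
    exact Finset.mem_image.mpr ⟨k, Finset.mem_erase.mpr ⟨hk, Finset.mem_univ _⟩, hk'⟩
  have hcE : E.card = 4 := by
    rw [hE, Finset.card_erase_of_mem (Finset.mem_univ _)]; simp
  have hle : (E.image eta).card ≤ 4 := hcE ▸ Finset.card_image_le
  have heq : N = E.image eta :=
    Finset.eq_of_subset_of_card_le hsub (by rw [hN]; exact hle)
  have hinj : Set.InjOn eta E := by
    apply Finset.card_image_iff.mp
    rw [← heq, hN, hcE]
  refine ⟨fun k hk => ?_, fun k l hk hl hkl => ?_⟩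
  · have : eta k ∈ E.image eta :=
      Finset.mem_image.mpr ⟨k, Finset.mem_erase.mpr ⟨hk, Finset.mem_univ _⟩, rfl⟩
    rw [← heq] at this
    exact this
  · exact hinj (by simp [hE, hk]) (by simp [hE, hl]) hkl

theorem no_minor (g : Fin 7 → Set Vt) (hc : ∀ u, (G.induce (g u)).Connected)
    (hd : ∀ u v, u ≠ v → Disjoint (g u) (g v))
    (ha : ∀ u v, A u v = true → ∃ x ∈ g u, ∃ y ∈ g v, G.Adj x y) : False := by
  classical
  have own : ∀ x : Vt, ∃ u : Fin 7, ∀ v, x ∈ g v → v = u := by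
    intro x
    by_cases h : ∃ u, x ∈ g u
    · obtain ⟨u, hu⟩ := h
      refine ⟨u, fun v hv => ?_⟩
      by_contra hne
      exact Set.disjoint_left.mp (hd v u hne) hv hu
    · exact ⟨0, fun v hv => absurd ⟨v, hv⟩ h⟩
  choose ow how using own
  have hne : ∀ u, ∃ x, x ∈ g u := fun u => by
    obtain ⟨x⟩ := (hc u).nonempty
    exact ⟨x, x.2⟩
  set Rt : Finset (Fin 7) := Finset.univ.image (fun i : Fin 3 => ow (Vt.root i)) with hRt
  have hRc : Rt.card ≤ 3 := by
    refine le_trans Finset.card_image_le ?_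
    simp
  have hroot : ∀ u, u ∉ Rt → ∀ x ∈ g u, cp x ≠ none := by
    intro u hu x hx hcx
    cases x with
    | root i => exact hu (Finset.mem_image.mpr ⟨i, Finset.mem_univ _, (how _ _ hx).symm⟩)
    | hub c j => simp [cp] at hcx
    | leaf c m => simp [cp] at hcx
  have same1 : ∀ u, u ∉ Rt → ∀ x ∈ g u, ∀ y ∈ g u, cp x = cp y := fun u hu x hx y hy =>
    same_cp (hc u) (hroot u hu) ⟨x, hx⟩ ⟨y, hy⟩
  have same2 : ∀ u v, A u v = true → u ∉ Rt → v ∉ Rt → ∀ x ∈ g u, ∀ y ∈ g v, cp x = cp y := by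
    intro u v huv hu hv x hx y hy
    obtain ⟨x', hx', y', hy', hxy⟩ := ha u v huv
    rw [same1 u hu x hx x' hx', adj_cp hxy (hroot u hu _ hx') (hroot v hv _ hy')]
    exact same1 v hv y' hy' y hy
  have same : ∀ u v, u ∉ Rt → v ∉ Rt → ∀ x ∈ g u, ∀ y ∈ g v, cp x = cp y := by
    intro u v hu hv x hx y hy
    by_cases huv : u = v
    · subst huv; exact same1 u hu x hx y hy
    rcases A_common u v huv with h | h
    · exact same2 u v h hu hv x hx y hy
    · obtain ⟨w, hw, hwR⟩ : ∃ w ∈ Finset.univ.filter (fun w => A u w = true ∧ A w v = true),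
          w ∉ Rt := by
        by_contra hcon
        push Not at hcon
        have := Finset.card_le_card (show Finset.univ.filter
          (fun w => A u w = true ∧ A w v = true) ⊆ Rt from fun w hw => hcon w hw)
        omega
      obtain ⟨z, hz⟩ := hne w
      obtain ⟨h1, h2⟩ := (Finset.mem_filter.mp hw).2
      exact (same2 u w h1 hu hwR x hx z hz).trans (same2 w v h2 hwR hv z hz y hy)
  obtain ⟨u0, hu0⟩ : ∃ u0, u0 ∉ Rt := by
    by_contra hcon
    push Not at hcon
    have := Finset.card_le_card (show (Finset.univ : Finset (Fin 7)) ⊆ Rt from fun w _ => hcon w)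
    simp at this
    omega
  obtain ⟨x0, hx0⟩ := hne u0
  obtain ⟨c, hc0⟩ : ∃ c, cp x0 = some c := Option.ne_none_iff_exists'.mp (hroot u0 hu0 x0 hx0)
  have hcc : ∀ u, u ∉ Rt → ∀ x ∈ g u, cp x = some c := fun u hu x hx => by
    rw [same u u0 hu hu0 x hx x0 hx0, hc0]
  set eta : Fin 5 → Fin 7 := fun h => ow (hubOf c h) with heta
  have key : ∀ u, (∀ h, eta h ≠ u) → ∃ m, Vt.leaf c m ∈ g u ∧
      ∀ w, A u w = true → ∃ h, h ≠ m ∧ eta h = w := by
    intro u hu
    have huR : u ∉ Rt := by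
      intro h
      obtain ⟨i, _, hi⟩ := Finset.mem_image.mp h
      fin_cases i
      · exact hu 0 hi
      · exact hu 1 hi
      · exact hu 2 hi
    have hleaf : ∀ x ∈ g u, ∃ m, x = Vt.leaf c m := by
      intro x hx
      have h1 := hcc u huR x hx
      cases x with
      | root i => simp [cp] at h1
      | hub c' j =>
        simp only [cp, Option.some.injEq] at h1
        subst h1
        exfalso
        fin_cases j
        · exact hu 3 (how _ _ hx).symm
        · exact hu 4 (how _ _ hx).symm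
      | leaf c' m =>
        simp only [cp, Option.some.injEq] at h1
        subst h1
        exact ⟨m, rfl⟩
    obtain ⟨x, hx⟩ := hne u
    obtain ⟨m, rfl⟩ := hleaf x hx
    refine ⟨m, hx, fun w hw => ?_⟩
    obtain ⟨x', hx', y, hy, hxy⟩ := ha u w hw
    have hxx : x' = Vt.leaf c m := by
      have := leaf_only (hc u) (fun x hx => by
        obtain ⟨m, hm⟩ := hleaf x hx
        exact ⟨c, m, hm⟩) ⟨x', hx'⟩ ⟨_, hx⟩
      exact congrArg Subtype.val this
    subst hxx
    obtain ⟨h, hh, rfl⟩ := leaf_nbr hxy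
    exact ⟨h, hh, (how _ _ hy).symm⟩
  have hdist : ∀ u v m m', u ≠ v → Vt.leaf c m ∈ g u → Vt.leaf c m' ∈ g v → m ≠ m' := by
    intro u v m m' huv hu hv hmm
    subst hmm
    exact Set.disjoint_left.mp (hd u v huv) hu hv
  have hcard : (Finset.univ.image eta).card ≤ 5 := by
    refine le_trans Finset.card_image_le ?_
    simp
  have hcompl : 1 < (Finset.univ \ Finset.univ.image eta).card := by
    rw [Finset.card_sdiff_of_subset (Finset.subset_univ _)]
    simp only [Finset.card_univ, Fintype.card_fin]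
    omega
  obtain ⟨u1, hu1, u2, hu2, h12⟩ := Finset.one_lt_card.mp hcompl
  have hnot : ∀ u, u ∈ Finset.univ \ Finset.univ.image eta → ∀ h, eta h ≠ u := by
    intro u hu h hh
    exact (Finset.mem_sdiff.mp hu).2 (Finset.mem_image.mpr ⟨h, Finset.mem_univ _, hh⟩)
  obtain ⟨m1, hm1, hl1⟩ := key u1 (hnot u1 hu1)
  obtain ⟨m2, hm2, hl2⟩ := key u2 (hnot u2 hu2)
  have hm12 := hdist u1 u2 m1 m2 h12 hm1 hm2
  have hA12 : A u1 u2 = false := by
    by_contra hcon
    rw [Bool.not_eq_false] at hcon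
    obtain ⟨h, _, hh⟩ := hl1 u2 hcon
    exact hnot u2 hu2 h hh
  obtain ⟨hN2, hN4⟩ := A_twin u1 u2 h12 hA12
  obtain ⟨h31, h32, hN3, hu3⟩ := A_third u1 u2 h12 hA12
  set u3 := third u1 u2 with hu3def
  have hmem : ∀ u w, w ∈ Nb u → A u w = true := fun u w hw => (Finset.mem_filter.mp hw).2
  obtain ⟨p1, i1⟩ := pig eta m1 (Nb u1) hN4 (fun w hw => hl1 w (hmem u1 w hw))
  obtain ⟨p2, i2⟩ := pig eta m2 (Nb u1) hN4 (fun w hw => hl2 w (hmem u2 w (by rw [hN2]; exact hw)))
  have hall : ∀ k, eta k ∈ Nb u1 := by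
    intro k
    by_cases hk : k = m1
    · exact p2 k (by rw [hk]; exact hm12)
    · exact p1 k hk
  have hout : ∀ h, eta h ≠ u3 := by
    intro h hh
    exact hu3 (hh ▸ hall h)
  obtain ⟨m3, hm3, hl3⟩ := key u3 hout
  obtain ⟨_, i3⟩ := pig eta m3 (Nb u1) hN4 (fun w hw => hl3 w (hmem u3 w (by rw [hN3]; exact hw)))
  have d13 := hdist u1 u3 m1 m3 (Ne.symm h31) hm1 hm3
  have d23 := hdist u2 u3 m2 m3 (Ne.symm h32) hm2 hm3
  -- pigeonhole: eta is not injective
  obtain ⟨k, l, hkl, hekl⟩ : ∃ k l, k ≠ l ∧ eta k = eta l := by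
    obtain ⟨k, _, l, _, hkl, he⟩ := Finset.exists_ne_map_eq_of_card_lt_of_maps_to
      (s := (Finset.univ : Finset (Fin 5))) (t := Nb u1) (f := eta)
      (by rw [hN4]; simp) (by intro k _; exact hall k)
    exact ⟨k, l, hkl, he⟩
  have e4 : k = m1 ∨ l = m1 := by
    by_contra hcon
    push Not at hcon
    exact hkl (i1 k l hcon.1 hcon.2 hekl)
  have e5 : k = m2 ∨ l = m2 := by
    by_contra hcon
    push Not at hcon
    exact hkl (i2 k l hcon.1 hcon.2 hekl)
  have e6 : k = m3 ∨ l = m3 := by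
    by_contra hcon
    push Not at hcon
    exact hkl (i3 k l hcon.1 hcon.2 hekl)
  rcases e4 with h | h <;> rcases e5 with h' | h' <;> rcases e6 with h'' | h'' <;>
    first
    | exact hm12 (h.symm.trans h')
    | exact d13 (h.symm.trans h'')
    | exact d23 (h'.symm.trans h'')

/-! ### The lists -/

theorem kap_inj (c : Idx) : Function.Injective (kap c) := by
  have h0 := (c.1 0).isLt
  have h1 := (c.1 1).isLt
  have h2 := (c.1 2).isLt
  intro a b hab
  fin_cases a <;> fin_cases b <;> simp [kap] at hab ⊢ <;> omega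

/-- the lists of colours, all of size four -/
def L : Vt → Finset ℕ
  | .root i => (Finset.range 4).image (fun t => 4 * (i : ℕ) + t)
  | .hub c j => ({0, 1, 2, j.natAdd 3} : Finset (Fin 5)).image (kap c)
  | .leaf c m => (Finset.univ.erase m).image (kap c)

theorem L_card (v : Vt) : (L v).card = 3 + 1 := by
  cases v with
  | root i =>
    rw [L, Finset.card_image_of_injective _ (fun a b h => by simpa using h)]
    simp
  | hub c j =>
    rw [L, Finset.card_image_of_injective _ (kap_inj c)]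
    fin_cases j <;> decide
  | leaf c m =>
    rw [L, Finset.card_image_of_injective _ (kap_inj c),
      Finset.card_erase_of_mem (Finset.mem_univ _)]
    simp

/-- the claw `K_{1,3}` on `Fin 4` with centre `0` -/
def claw : SimpleGraph (Fin 4) := SimpleGraph.fromRel (fun a _ => a = 0)

instance : DecidableRel claw.Adj := fun a b => by
  unfold claw; infer_instance

theorem claw_adj (a b : Fin 4) : claw.Adj a b ↔ a ≠ b ∧ (a = 0 ∨ b = 0) := by
  rw [claw, SimpleGraph.fromRel_adj]

theorem claw_conn : claw.Connected := by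
  rw [SimpleGraph.connected_iff]
  refine ⟨fun a b => ?_, ⟨0⟩⟩
  have h : ∀ a : Fin 4, claw.Reachable 0 a := by
    intro a
    by_cases ha : a = 0
    · rw [ha]
    · exact SimpleGraph.Adj.reachable ((claw_adj 0 a).mpr ⟨fun h => ha h.symm, Or.inl rfl⟩)
  exact (h a).symm.trans (h b)

theorem conn_singleton (v : Vt) : (G.induce {v}).Connected := by
  rw [SimpleGraph.connected_iff]
  refine ⟨fun a b => ?_, ⟨⟨v, rfl⟩⟩⟩
  have : a = b := Subtype.ext ((Set.mem_singleton_iff.mp a.2).trans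
    (Set.mem_singleton_iff.mp b.2).symm)
  rw [this]

/-- three neighbours of the same colour give a monochromatic claw -/
theorem mono_claw (col : Vt → ℕ) (x y1 y2 y3 : Vt) (h1 : G.Adj x y1) (h2 : G.Adj x y2)
    (h3 : G.Adj x y3) (h12 : y1 ≠ y2) (h13 : y1 ≠ y3) (h23 : y2 ≠ y3)
    (c1 : col y1 = col x) (c2 : col y2 = col x) (c3 : col y3 = col x) :
    ∃ c : ℕ, ∃ f : Fin 4 → Set Vt,
      (∀ u, (G.induce (f u)).Connected) ∧
      (∀ u u', u ≠ u' → Disjoint (f u) (f u')) ∧
      (∀ u u', claw.Adj u u' → ∃ x ∈ f u, ∃ y ∈ f u', G.Adj x y) ∧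
      (∀ u, ∀ x ∈ f u, col x = c) := by
  have n1 := h1.ne
  have n2 := h2.ne
  have n3 := h3.ne
  refine ⟨col x, fun u => {(![x, y1, y2, y3] : Fin 4 → Vt) u}, fun u => conn_singleton _, ?_, ?_, ?_⟩
  · intro u u' huu
    rw [Set.disjoint_singleton]
    fin_cases u <;> fin_cases u' <;>
      first
      | exact absurd rfl huu
      | assumption
      | (apply Ne.symm; assumption)
  · intro u u' huu
    refine ⟨_, rfl, _, rfl, ?_⟩
    rw [claw_adj] at huu
    obtain ⟨hne, h | h⟩ := huu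
    · subst h
      fin_cases u'
      · exact absurd rfl hne
      · exact h1
      · exact h2
      · exact h3
    · subst h
      fin_cases u
      · exact absurd rfl hne
      · exact h1.symm
      · exact h2.symm
      · exact h3.symm
  · intro u z hz
    rw [Set.mem_singleton_iff] at hz
    subst hz
    fin_cases u
    · rfl
    · exact c1
    · exact c2
    · exact c3

theorem always_mono (col : Vt → ℕ) (hcol : ∀ v, col v ∈ L v) :
    ∃ c : ℕ, ∃ f : Fin 4 → Set Vt,
      (∀ u, (G.induce (f u)).Connected) ∧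
      (∀ u u', u ≠ u' → Disjoint (f u) (f u')) ∧
      (∀ u u', claw.Adj u u' → ∃ x ∈ f u, ∃ y ∈ f u', G.Adj x y) ∧
      (∀ u, ∀ x ∈ f u, col x = c) := by
  classical
  -- colours of the roots
  have hr : ∀ i : Fin 3, ∃ t : Fin 4, col (Vt.root i) = 4 * (i : ℕ) + t := by
    intro i
    have := hcol (Vt.root i)
    rw [L] at this
    obtain ⟨t, ht, ht'⟩ := Finset.mem_image.mp this
    exact ⟨⟨t, Finset.mem_range.mp ht⟩, ht'.symm⟩
  choose s hs using hr
  have hs0 : ∀ k, kap (s, k) 0 = col (Vt.root 0) := fun k => by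
    rw [hs 0]; simp [kap]
  have hs1 : ∀ k, kap (s, k) 1 = col (Vt.root 1) := fun k => by
    rw [hs 1]; simp [kap]
  have hs2 : ∀ k, kap (s, k) 2 = col (Vt.root 2) := fun k => by
    rw [hs 2]; simp [kap]
  by_cases hesc : ∀ k : Fin 7, ∃ x : Vt, cp x = some (s, k) ∧
      ∃ i, G.Adj (Vt.root i) x ∧ col x = col (Vt.root i)
  · choose x hx i hi hci using hesc
    obtain ⟨i0, hi0⟩ := Fintype.exists_lt_card_fiber_of_mul_lt_card (n := 2) i (by simp)
    obtain ⟨a, ha, b, hb, c, hc, hab, hac, hbc⟩ := Finset.two_lt_card.mp hi0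
    have hinj : ∀ k l, x k = x l → k = l := by
      intro k l hkl
      have h1 := hx k
      rw [hkl, hx l] at h1
      simpa using h1.symm
    have ha' := (Finset.mem_filter.mp ha).2
    have hb' := (Finset.mem_filter.mp hb).2
    have hc' := (Finset.mem_filter.mp hc).2
    exact mono_claw col (Vt.root i0) (x a) (x b) (x c) (ha' ▸ hi a) (hb' ▸ hi b) (hc' ▸ hi c)
      (fun h => hab (hinj _ _ h)) (fun h => hac (hinj _ _ h)) (fun h => hbc (hinj _ _ h))
      (ha' ▸ hci a) (hb' ▸ hci b) (hc' ▸ hci c)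
  · push Not at hesc
    obtain ⟨k, hk⟩ := hesc
    set c : Idx := (s, k) with hcdef
    -- the two hubs are forced
    have hhub : ∀ j : Fin 2, col (Vt.hub c j) = kap c (j.natAdd 3) := by
      intro j
      have h1 := hcol (Vt.hub c j)
      rw [L] at h1
      obtain ⟨h, hh, hh'⟩ := Finset.mem_image.mp h1
      simp only [Finset.mem_insert, Finset.mem_singleton] at hh
      rcases hh with rfl | rfl | rfl | rfl
      · exact absurd (hh'.symm.trans (hs0 k)) (hk _ rfl 0 (adj_root _ _ _))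
      · exact absurd (hh'.symm.trans (hs1 k)) (hk _ rfl 1 (adj_root _ _ _))
      · exact absurd (hh'.symm.trans (hs2 k)) (hk _ rfl 2 (adj_root _ _ _))
      · exact hh'.symm
    -- every leaf takes the colour of one of the two hubs
    have hleaf : ∀ m : Fin 5, ∃ j : Fin 2, (j.natAdd 3 : Fin 5) ≠ m ∧
        col (Vt.leaf c m) = col (Vt.hub c j) := by
      intro m
      have h1 := hcol (Vt.leaf c m)
      rw [L] at h1
      obtain ⟨h, hh, hh'⟩ := Finset.mem_image.mp h1
      have hm : h ≠ m := (Finset.mem_erase.mp hh).1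
      have hadj := adj_leaf (c := c) hm
      fin_cases h
      · exact absurd (hh'.symm.trans (hs0 k)) (hk _ rfl 0 hadj)
      · exact absurd (hh'.symm.trans (hs1 k)) (hk _ rfl 1 hadj)
      · exact absurd (hh'.symm.trans (hs2 k)) (hk _ rfl 2 hadj)
      · exact ⟨0, hm, by rw [hhub 0]; exact hh'.symm⟩
      · exact ⟨1, hm, by rw [hhub 1]; exact hh'.symm⟩
    choose j hj hcj using hleaf
    obtain ⟨j0, hj0⟩ := Fintype.exists_lt_card_fiber_of_mul_lt_card (n := 2) j (by simp)
    obtain ⟨a, ha, b, hb, d, hd, hab, had, hbd⟩ := Finset.two_lt_card.mp hj0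
    have ha' := (Finset.mem_filter.mp ha).2
    have hb' := (Finset.mem_filter.mp hb).2
    have hd' := (Finset.mem_filter.mp hd).2
    have hub_eq : ∀ j : Fin 2, hubOf c (j.natAdd 3) = Vt.hub c j := by
      intro j; fin_cases j <;> rfl
    have hadj : ∀ m, j m = j0 → G.Adj (Vt.hub c j0) (Vt.leaf c m) := by
      intro m hm
      rw [← hub_eq j0]
      exact adj_leaf (by rw [← hm]; exact hj m)
    exact mono_claw col (Vt.hub c j0) (Vt.leaf c a) (Vt.leaf c b) (Vt.leaf c d)
      (hadj a ha') (hadj b hb') (hadj d hd')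
      (by simpa using hab) (by simpa using had) (by simpa using hbd)
      (by rw [hcj a, ha']) (by rw [hcj b, hb']) (by rw [hcj d, hd'])

/-- The negation of the preceding statement: For r≥1 and connected H with an edge: any finite graph without a minor of r independent vertices joined to H has, for every list assignment with lists of size ≥ r+1, a list colouring in which no colour class contains an H-minor. -/
theorem result :
    ¬ (∀ (r : ℕ), 0 < r →
  ∀ (W : Type) [Fintype W] (H : SimpleGraph W), H.Connected → (∃ a b, H.Adj a b) →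
  ∀ (V : Type) [Fintype V] (G : SimpleGraph V),
    (¬ ∃ (A : Fin r → Set V) (B : W → Set V),
        (∀ i, (G.induce (A i)).Connected) ∧ (∀ w, (G.induce (B w)).Connected) ∧
        (∀ i j, i ≠ j → Disjoint (A i) (A j)) ∧
        (∀ w w', w ≠ w' → Disjoint (B w) (B w')) ∧
        (∀ i w, Disjoint (A i) (B w)) ∧
        (∀ i w, ∃ x ∈ A i, ∃ y ∈ B w, G.Adj x y) ∧
        (∀ w w', H.Adj w w' → ∃ x ∈ B w, ∃ y ∈ B w', G.Adj x y)) →
    ∀ L : V → Finset ℕ, (∀ v, r + 1 ≤ (L v).card) →
    ∃ c : V → ℕ, (∀ v, c v ∈ L v) ∧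
      ∀ k : ℕ, ¬ ∃ B : W → Set V,
        (∀ w, B w ⊆ {v | c v = k}) ∧
        (∀ w, (G.induce (B w)).Connected) ∧
        (∀ w w', w ≠ w' → Disjoint (B w) (B w')) ∧
        (∀ w w', H.Adj w w' → ∃ x ∈ B w, ∃ y ∈ B w', G.Adj x y)) := by
  intro hall
  obtain ⟨col, hcol, hno⟩ := hall 3 (by norm_num) (Fin 4) claw claw_conn
    ⟨0, 1, by rw [claw_adj]; decide⟩ Vt G (by
      rintro ⟨P, Q, hP, hQ, hPP, hQQ, hPQ, hadj, hcl⟩
      refine no_minor ![Q 0, P 0, P 1, P 2, Q 1, Q 2, Q 3] ?_ ?_ ?_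
      · intro u
        fin_cases u
        · exact hQ 0
        · exact hP 0
        · exact hP 1
        · exact hP 2
        · exact hQ 1
        · exact hQ 2
        · exact hQ 3
      · intro u v huv
        fin_cases u <;> fin_cases v <;>
          first
          | exact absurd rfl huv
          | exact hPP _ _ (by decide)
          | exact hQQ _ _ (by decide)
          | exact hPQ _ _
          | exact (hPQ _ _).symm
      · intro u v huv
        have hsymm : ∀ {S T : Set Vt}, (∃ x ∈ S, ∃ y ∈ T, G.Adj x y) →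
            ∃ x ∈ T, ∃ y ∈ S, G.Adj x y := by
          rintro S T ⟨x, hx, y, hy, hxy⟩
          exact ⟨y, hy, x, hx, hxy.symm⟩
        fin_cases u <;> fin_cases v <;>
          first
          | exact absurd huv (by decide)
          | exact hadj _ _
          | exact hsymm (hadj _ _)
          | exact hcl _ _ ((claw_adj _ _).mpr (by decide))) L (fun v => (L_card v).ge)
  obtain ⟨k, f, h1, h2, h3, h4⟩ := always_mono col hcol
  exact hno k ⟨f, fun w x hx => h4 w x hx, h1, h2, h3⟩

end Pool.Agent.S06396
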