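import Pool.Statements.S06418

set_option autoImplicit false
open Pool Pool.MP_8e7993_co

namespace Pool.Agent.S06418

/-- The vertex type: four hubs, and three satellites for each hub. -/
abbrev W : Type := Fin 4 ⊕ (Fin 4 × Fin 3)

/-- Hub `x` dominates exactly its own satellites; a satellite of `y` dominates every hub except `y`. -/
def adjW : W → W → Prop
  | Sum.inl x, Sum.inr (y, _) => x = y
  | Sum.inr (y, _), Sum.inl x => x ≠ y
  | _, _ => False

def D : Digraph W := { Adj := adjW }

theorem adj_ll (x y : Fin 4) : ¬ D.Adj (Sum.inl x) (Sum.inl y) := fun h => h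

theorem adj_rr (x y : Fin 4 × Fin 3) : ¬ D.Adj (Sum.inr x) (Sum.inr y) := fun h => h

theorem adj_lr (x y : Fin 4) (j : Fin 3) : D.Adj (Sum.inl x) (Sum.inr (y, j)) ↔ x = y := Iff.rfl

theorem adj_rl (x y : Fin 4) (j : Fin 3) : D.Adj (Sum.inr (y, j)) (Sum.inl x) ↔ x ≠ y := Iff.rfl

theorem out_degree (v : W) : 3 ≤ Nat.card {w : W // D.Adj v w} := by
  rcases v with x | ⟨y, j⟩
  · have : Function.Injective (fun i : Fin 3 =>
        (⟨Sum.inr (x, i), rfl⟩ : {w : W // D.Adj (Sum.inl x) w})) := by
      intro a b h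
      have h1 := congrArg Subtype.val h
      simpa using h1
    simpa using Nat.card_le_card_of_injective _ this
  · have : Function.Injective (fun i : Fin 3 =>
        (⟨Sum.inl (y.succAbove i), y.succAbove_ne i⟩ : {w : W // D.Adj (Sum.inr (y, j)) w})) := by
      intro a b h
      have h1 := congrArg Subtype.val h
      simpa using h1
    simpa using Nat.card_le_card_of_injective _ this

/-- A chain of five hubs under a transitive irreflexive relation is impossible. -/
theorem no_chain (r : Fin 4 → Fin 4 → Prop) (ht : ∀ a b c, r a b → r b c → r a c)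
    (hi : ∀ a, ¬ r a a) (a b c d e : Fin 4) (h1 : r a b) (h2 : r b c) (h3 : r c d)
    (h4 : r d e) : False := by
  have ne : ∀ x y, r x y → x ≠ y := by
    intro x y hxy he
    subst he
    exact hi _ hxy
  have hac := ht _ _ _ h1 h2
  have had := ht _ _ _ hac h3
  have hae := ht _ _ _ had h4
  have hbd := ht _ _ _ h2 h3
  have hbe := ht _ _ _ hbd h4
  have hce := ht _ _ _ h3 h4
  have n1 := ne _ _ h1
  have n2 := ne _ _ h2
  have n3 := ne _ _ h3
  have n4 := ne _ _ h4
  have n5 := ne _ _ hac
  have n6 := ne _ _ had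
  have n7 := ne _ _ hae
  have n8 := ne _ _ hbd
  have n9 := ne _ _ hbe
  have n10 := ne _ _ hce
  have hinj : Function.Injective (![a, b, c, d, e] : Fin 5 → Fin 4) := by
    intro i j hij
    fin_cases i <;> fin_cases j <;> simp at hij ⊢ <;> first | exact absurd hij (by assumption) | exact absurd hij.symm (by assumption)
  have := Fintype.card_le_of_injective _ hinj
  simp at this

section core

variable (F : Set (W × W))

/-- Arcs of the digraph outside `F`. -/
def R (a b : W) : Prop := D.Adj a b ∧ (a, b) ∉ F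

/-- The segment from a hub `x` back to a satellite of `y ≠ x` passes through the hub `y`. -/
theorem seg_hub (x y : Fin 4) (j : Fin 3) (hne : x ≠ y)
    (h : Relation.TransGen (R F) (Sum.inl x) (Sum.inr (y, j))) :
    Relation.TransGen (R F) (Sum.inl x) (Sum.inl y) ∧
      Relation.TransGen (R F) (Sum.inl y) (Sum.inr (y, j)) := by
  rcases Relation.TransGen.tail'_iff.mp h with ⟨c, hc, hcy⟩
  rcases c with z | w
  · have hz : z = y := hcy.1
    subst hz
    refine ⟨?_, Relation.TransGen.single hcy⟩
    rcases Relation.reflTransGen_iff_eq_or_transGen.mp hc with he | ht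
    · exact absurd (Sum.inl.inj he).symm hne
    · exact ht
  · exact absurd hcy.1 (adj_rr _ _)

/-- The segment from a satellite of `y` back to the hub `y` passes through another hub first. -/
theorem seg_sat (y : Fin 4) (j : Fin 3)
    (h : Relation.TransGen (R F) (Sum.inr (y, j)) (Sum.inl y)) :
    ∃ z, Relation.TransGen (R F) (Sum.inr (y, j)) (Sum.inl z) ∧
      Relation.TransGen (R F) (Sum.inl z) (Sum.inl y) := by
  rcases Relation.TransGen.head'_iff.mp h with ⟨c, hyc, hc⟩
  rcases c with z | w
  · have hz : z ≠ y := hyc.1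
    refine ⟨z, Relation.TransGen.single hyc, ?_⟩
    rcases Relation.reflTransGen_iff_eq_or_transGen.mp hc with he | ht
    · exact absurd (Sum.inl.inj he).symm hz
    · exact ht
  · exact absurd hyc.1 (adj_rr _ _)

/-- Removing one arc from a minimal feedback arc set creates a cycle through that arc, so its head
reaches its tail outside the feedback arc set. -/
theorem back_path
    (hF : Minimal (fun S : Set (W × W) =>
              (∀ e ∈ S, D.Adj e.1 e.2) ∧
              ∀ v : W, ¬ Relation.TransGen (fun a b => D.Adj a b ∧ (a, b) ∉ S) v v) F)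
    (a b : W) (hab : (a, b) ∈ F) : Relation.TransGen (R F) b a := by
  by_contra hcon
  have hnot : ¬ ((∀ e ∈ F \ {(a, b)}, D.Adj e.1 e.2) ∧
      ∀ v : W, ¬ Relation.TransGen (fun c d => D.Adj c d ∧ (c, d) ∉ F \ {(a, b)}) v v) := by
    intro hP
    have hle := hF.2 hP Set.sdiff_subset
    exact (hle hab).2 rfl
  apply hnot
  refine ⟨fun e he => hF.1.1 e he.1, ?_⟩
  -- every arc of the new digraph is an arc of the old one, or is `(a, b)`
  have key : ∀ u v : W, Relation.TransGen (fun c d => D.Adj c d ∧ (c, d) ∉ F \ {(a, b)}) u v →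
      Relation.TransGen (R F) u v ∨
      (Relation.ReflTransGen (R F) u a ∧ Relation.ReflTransGen (R F) b v) := by
    intro u v huv
    induction huv with
    | single h =>
      rename_i c
      by_cases hc : (u, c) ∈ F
      · have : (u, c) = (a, b) := by
          by_contra hne
          exact h.2 ⟨hc, hne⟩
        obtain ⟨rfl, rfl⟩ := Prod.mk.inj this
        exact Or.inr ⟨Relation.ReflTransGen.refl, Relation.ReflTransGen.refl⟩
      · exact Or.inl (Relation.TransGen.single ⟨h.1, hc⟩)
    | tail h1 h ih =>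
      rename_i c d
      by_cases hc : (c, d) ∈ F
      · have hcd : (c, d) = (a, b) := by
          by_contra hne
          exact h.2 ⟨hc, hne⟩
        obtain ⟨rfl, rfl⟩ := Prod.mk.inj hcd
        rcases ih with ih | ih
        · exact Or.inr ⟨ih.to_reflTransGen, Relation.ReflTransGen.refl⟩
        · exact Or.inr ⟨ih.1, Relation.ReflTransGen.refl⟩
      · have hR : R F c d := ⟨h.1, hc⟩
        rcases ih with ih | ih
        · exact Or.inl (ih.tail hR)
        · exact Or.inr ⟨ih.1, ih.2.tail hR⟩
  intro v hv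
  rcases key v v hv with h | ⟨h1, h2⟩
  · exact hF.1.2 v h
  · have h3 : Relation.ReflTransGen (R F) b a := h2.trans h1
    rcases Relation.reflTransGen_iff_eq_or_transGen.mp h3 with he | ht
    · have hadj : D.Adj a b := hF.1.1 _ hab
      rw [he] at hadj
      rcases b with x | x
      · exact adj_ll _ _ hadj
      · exact adj_rr _ _ hadj
    · exact hcon ht

end core

theorem main_lemma (F : Set (W × W))
    (hF : Minimal (fun S : Set (W × W) =>
              (∀ e ∈ S, D.Adj e.1 e.2) ∧
              ∀ v : W, ¬ Relation.TransGen (fun a b => D.Adj a b ∧ (a, b) ∉ S) v v) F)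
    (p0 p1 p2 p3 : W) (h01 : (p0, p1) ∈ F) (h12 : (p1, p2) ∈ F) (h23 : (p2, p3) ∈ F) : False := by
  have b10 := back_path F hF _ _ h01
  have b21 := back_path F hF _ _ h12
  have b32 := back_path F hF _ _ h23
  have a01 : D.Adj p0 p1 := hF.1.1 _ h01
  have a12 : D.Adj p1 p2 := hF.1.1 _ h12
  have a23 : D.Adj p2 p3 := hF.1.1 _ h23
  have chain := no_chain (fun x y => Relation.TransGen (R F) (Sum.inl x) (Sum.inl y))
    (fun a b c h1 h2 => h1.trans h2) (fun a h => hF.1.2 _ h)
  rcases p3 with x3 | ⟨y3, j3⟩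
  · rcases p2 with x2 | ⟨y2, j2⟩
    · exact adj_ll _ _ a23
    rcases p1 with x1 | ⟨y1, j1⟩
    swap
    · exact adj_rr _ _ a12
    rcases p0 with x0 | ⟨y0, j0⟩
    · exact adj_ll _ _ a01
    -- p3 hub, p2 satellite, p1 hub, p0 satellite
    have e1 : x3 ≠ y2 := a23
    have e2 : x1 = y2 := a12
    have e3 : x1 ≠ y0 := a01
    subst e2
    obtain ⟨s1, s2⟩ := seg_hub F x3 x1 j2 e1 b32
    obtain ⟨z, s3, s4⟩ := seg_sat F x1 j2 b21
    obtain ⟨s5, s6⟩ := seg_hub F x1 y0 j0 e3 b10
    exact chain x3 x1 z x1 y0 s1 (s2.trans s3) s4 s5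
  · rcases p2 with x2 | ⟨y2, j2⟩
    swap
    · exact adj_rr _ _ a23
    rcases p1 with x1 | ⟨y1, j1⟩
    · exact adj_ll _ _ a12
    rcases p0 with x0 | ⟨y0, j0⟩
    swap
    · exact adj_rr _ _ a01
    -- p3 satellite, p2 hub, p1 satellite, p0 hub
    have e1 : x2 = y3 := a23
    have e2 : x2 ≠ y1 := a12
    have e3 : x0 = y1 := a01
    subst e1
    subst e3
    obtain ⟨z, s1, s2⟩ := seg_sat F x2 j3 b32
    obtain ⟨s3, s4⟩ := seg_hub F x2 x0 j1 e2 b21
    obtain ⟨w, s5, s6⟩ := seg_sat F x0 j1 b10
    exact chain z x2 x0 w x0 s2 s3 (s4.trans s5) s6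

theorem result :
    ¬ (∀ (V : Type) [Finite V] [Nonempty V] (G : Digraph V),
      (∀ v, ¬ G.Adj v v) →
      ∀ k : ℕ, (∀ v : V, k ≤ Nat.card {w : V // G.Adj v w}) →
        ∃ F : Set (V × V),
          Minimal (fun S : Set (V × V) =>
              (∀ e ∈ S, G.Adj e.1 e.2) ∧
              ∀ v : V, ¬ Relation.TransGen (fun a b => G.Adj a b ∧ (a, b) ∉ S) v v) F ∧
          ∃ p : Fin (k + 1) → V, Function.Injective p ∧
            ∀ i : Fin k, (p i.castSucc, p i.succ) ∈ F) := by
  intro h
  obtain ⟨F, hF, p, -, hp⟩ := h W D (by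
    intro v hv
    rcases v with x | x
    · exact adj_ll _ _ hv
    · exact adj_rr _ _ hv) 3 out_degree
  exact main_lemma F hF (p 0) (p 1) (p 2) (p 3) (hp 0) (hp 1) (hp 2)

end Pool.Agent.S06418
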