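import Pool.Statements.S06422
-- import your own Pool.Agent.* helpers here

set_option autoImplicit false
open Pool Pool.MP_8ed634_co

namespace Pool.Agent.S06422

/-- The subset of the ground set coded by the binary digits of `m`. -/
def toSet (m : ℕ) : Finset (Fin 11) := Finset.univ.filter fun i => m.testBit i.val = true

theorem mem_toSet (m : ℕ) (i : Fin 11) : i ∈ toSet m ↔ m.testBit i.val = true := by
  simp [toSet]

/-- The 36 members of the clutter. -/
def CL : List ℕ :=
  [676, 1792, 1664, 323, 336, 480, 165, 785, 90, 102, 800, 312, 42, 11, 228, 550, 1556, 153, 168,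
   1216, 564, 1094, 281, 7, 1546, 21, 84, 60, 354, 1098, 216, 1161, 771, 1346, 1157, 1542]

/-- The 11 members of the blocker. -/
def YL : List ℕ := [1121, 402, 1292, 658, 1073, 1074, 609, 390, 585, 588, 396]

/-- The 11 members of the core. -/
def core : Finset ℕ := {1792, 1664, 336, 800, 42, 11, 168, 1216, 7, 21, 84}

def Cl : Finset (Finset (Fin 11)) := (CL.map toSet).toFinset

theorem mem_Cl (X : Finset (Fin 11)) : X ∈ Cl ↔ ∃ c ∈ CL, toSet c = X := by
  simp [Cl]

theorem anti_check : ∀ a ∈ CL, ∀ b ∈ CL,
    (∀ i : Fin 11, a.testBit i.val = true → b.testBit i.val = true) → a = b := by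
  decide +kernel

theorem card_check : ∀ a ∈ CL, 3 ≤ (toSet a).card := by decide +kernel

theorem core_sub : ∀ c ∈ core, c ∈ CL := by decide +kernel

theorem core_card : core.card = 11 := by decide +kernel

theorem core_deg : ∀ v : Fin 11, (core.filter fun c => c.testBit v.val = true).card = 3 := by
  decide +kernel

theorem hit_check : ∀ y ∈ YL, ∀ c ∈ CL,
    ∃ i : Fin 11, c.testBit i.val = true ∧ y.testBit i.val = true := by
  decide +kernel

theorem min_check : ∀ y ∈ YL, ∀ i : Fin 11, y.testBit i.val = true →
    ∃ c ∈ CL, ∀ j : Fin 11, c.testBit j.val = true → y.testBit j.val = true → j = i := by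
  decide +kernel

theorem anti : ∀ X ∈ Cl, ∀ Y ∈ Cl, X ⊆ Y → X = Y := by
  intro X hX Y hY h
  obtain ⟨a, ha, rfl⟩ := (mem_Cl X).1 hX
  obtain ⟨b, hb, rfl⟩ := (mem_Cl Y).1 hY
  have : a = b := anti_check a ha b hb fun i hi => (mem_toSet b i).1 (h ((mem_toSet a i).2 hi))
  rw [this]

/-- A set meeting every core member has at least four elements. -/
theorem four_le (B : Finset (Fin 11)) (hB : ∀ X ∈ Cl, (X ∩ B).Nonempty) : 4 ≤ B.card := by
  have h1 : ∑ c ∈ core, 1 ≤ ∑ c ∈ core, (B.filter fun v => c.testBit v.val = true).card := by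
    apply Finset.sum_le_sum
    intro c hc
    have := hB (toSet c) ((mem_Cl _).2 ⟨c, core_sub c hc, rfl⟩)
    obtain ⟨v, hv⟩ := this
    rw [Finset.mem_inter, mem_toSet] at hv
    exact Finset.card_pos.2 ⟨v, Finset.mem_filter.2 ⟨hv.2, hv.1⟩⟩
  have h2 : ∑ c ∈ core, (B.filter fun v => c.testBit v.val = true).card = ∑ v ∈ B, 3 := by
    simp only [Finset.card_filter]
    rw [Finset.sum_comm]
    apply Finset.sum_congr rfl
    intro v _
    rw [← Finset.card_filter]
    exact core_deg v
  rw [h2] at h1
  simp only [Finset.sum_const, smul_eq_mul, mul_one, core_card] at h1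
  omega

theorem blocker (y : ℕ) (hy : y ∈ YL) :
    (∀ X ∈ Cl, (X ∩ toSet y).Nonempty) ∧
      ∀ Z : Finset (Fin 11), Z ⊆ toSet y → (∀ X ∈ Cl, (X ∩ Z).Nonempty) → Z = toSet y := by
  constructor
  · intro X hX
    obtain ⟨c, hc, rfl⟩ := (mem_Cl X).1 hX
    obtain ⟨i, h1, h2⟩ := hit_check y hy c hc
    exact ⟨i, Finset.mem_inter.2 ⟨(mem_toSet c i).2 h1, (mem_toSet y i).2 h2⟩⟩
  · intro Z hZ hh
    apply Finset.Subset.antisymm hZ
    intro i hi
    obtain ⟨c, hc, hj⟩ := min_check y hy i ((mem_toSet y i).1 hi)
    obtain ⟨j, hjj⟩ := hh (toSet c) ((mem_Cl _).2 ⟨c, hc, rfl⟩)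
    rw [Finset.mem_inter, mem_toSet] at hjj
    have := hj j hjj.1 ((mem_toSet y j).1 (hZ hjj.2))
    rw [← this]
    exact hjj.2

/-! ### The search -/

/-- `d` has at most one nonzero binary digit. -/
def le1 (d : ℕ) : Bool := (d &&& (d - 1)) == 0
def le2 (d : ℕ) : Bool := le1 (d &&& (d - 1))
def le3 (d : ℕ) : Bool := le2 (d &&& (d - 1))

def step (x v : ℕ) (L : List (ℕ × ℕ)) : List (ℕ × ℕ) :=
  L.map fun e => if (e.1 &&& x) == 2 ^ v then (e.1, e.2 &&& (e.2 ^^^ 2 ^ v)) else e

/-- Choice of the next entry: `true` marks an entry of the second list. -/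
def best (X Y : List (ℕ × ℕ)) : Option (Bool × (ℕ × ℕ)) :=
  match Y.find? (fun e => le1 e.2) with
  | some e => some (true, e)
  | none => match X.find? (fun e => le1 e.2) with
    | some e => some (false, e)
    | none => match Y.find? (fun e => le2 e.2) with
      | some e => some (true, e)
      | none => match X.find? (fun e => le2 e.2) with
        | some e => some (false, e)
        | none => match Y.find? (fun e => le3 e.2) with
          | some e => some (true, e)
          | none => match X.find? (fun e => le3 e.2) with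
            | some e => some (false, e)
            | none => match Y with
              | e :: _ => some (true, e)
              | [] => match X with
                | e :: _ => some (false, e)
                | [] => none

def search : ℕ → List (ℕ × ℕ) → List (ℕ × ℕ) → Bool
  | 0, _, _ => true
  | fuel + 1, X, Y =>
    if X.any (fun e => e.2 == 0) || Y.any (fun e => e.2 == 0) then false
    else match best X Y with
      | none => true
      | some (true, e) => (List.range 11).any fun v =>
          e.2.testBit v && search fuel (step e.1 v X) (Y.filter fun f => f.1 != e.1)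
      | some (false, e) => (List.range 11).any fun v =>
          e.2.testBit v && search fuel (X.filter fun f => f.1 != e.1) (step e.1 v Y)

theorem best_true {X Y : List (ℕ × ℕ)} {e : ℕ × ℕ} (h : best X Y = some (true, e)) : e ∈ Y := by
  unfold best at h
  split at h
  · next e' he => simp at h; subst h; exact List.mem_of_find?_eq_some he
  · split at h
    · simp at h
    · split at h
      · next e' he => simp at h; subst h; exact List.mem_of_find?_eq_some he
      · split at h
        · simp at h
        · split at h
          · next e' he => simp at h; subst h; exact List.mem_of_find?_eq_some he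
          · split at h
            · simp at h
            · split at h
              · simp at h; subst h; simp
              · split at h
                · simp at h
                · simp at h

theorem best_false {X Y : List (ℕ × ℕ)} {e : ℕ × ℕ} (h : best X Y = some (false, e)) : e ∈ X := by
  unfold best at h
  split at h
  · simp at h
  · split at h
    · next e' he => simp at h; subst h; exact List.mem_of_find?_eq_some he
    · split at h
      · simp at h
      · split at h
        · next e' he => simp at h; subst h; exact List.mem_of_find?_eq_some he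
        · split at h
          · simp at h
          · split at h
            · next e' he => simp at h; subst h; exact List.mem_of_find?_eq_some he
            · split at h
              · simp at h
              · split at h
                · simp at h; subst h; simp
                · simp at h

theorem clr_testBit (d v i : ℕ) (h : i ≠ v) (hd : d.testBit i = true) :
    (d &&& (d ^^^ 2 ^ v)).testBit i = true := by
  rw [Nat.testBit_and, Nat.testBit_xor, Nat.testBit_two_pow_of_ne h.symm, hd]
  rfl

/-- `Good K L P` : every entry of `L` has its name in `K` and its domain contains the value. -/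
def Good (K : List ℕ) (L : List (ℕ × ℕ)) (P : ℕ → ℕ) : Prop :=
  ∀ e ∈ L, e.1 ∈ K ∧ e.2.testBit (P e.1) = true

theorem good_filter {K : List ℕ} {L : List (ℕ × ℕ)} {P : ℕ → ℕ} (h : Good K L P) (x : ℕ) :
    Good K (L.filter fun f => f.1 != x) P := by
  intro e he
  exact h e (List.mem_of_mem_filter he)

theorem good_step {K : List ℕ} {L : List (ℕ × ℕ)} {P : ℕ → ℕ} (h : Good K L P) (x v : ℕ)
    (hx : ∀ y ∈ K, P y = v → (y &&& x) ≠ 2 ^ v) : Good K (step x v L) P := by
  intro e he
  unfold step at he
  obtain ⟨f, hf, rfl⟩ := List.mem_map.1 he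
  obtain ⟨h1, h2⟩ := h f hf
  split
  · next hc =>
    refine ⟨h1, clr_testBit _ _ _ ?_ h2⟩
    intro hv
    exact hx f.1 h1 hv (by simpa using hc)
  · exact ⟨h1, h2⟩

theorem good_any {K : List ℕ} {L : List (ℕ × ℕ)} {P : ℕ → ℕ} (h : Good K L P) :
    L.any (fun e => e.2 == 0) = false := by
  rw [List.any_eq_false]
  intro e he h0
  have h0' : e.2 = 0 := by simpa using h0
  have := (h e he).2
  rw [h0'] at this
  simp at this

theorem search_true (P Q : ℕ → ℕ) (hP : ∀ c ∈ CL, P c < 11) (hQ : ∀ y ∈ YL, Q y < 11)
    (hPQ : ∀ c ∈ CL, ∀ y ∈ YL, P c = Q y → (c &&& y) ≠ 2 ^ P c) :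
    ∀ fuel X Y, Good CL X P → Good YL Y Q → search fuel X Y = true := by
  intro fuel
  induction fuel with
  | zero => intro X Y _ _; rfl
  | succ fuel ih =>
    intro X Y hX hY
    unfold search
    rw [good_any hX, good_any hY]
    simp only [Bool.or_self, Bool.false_eq_true, if_false]
    split
    · rfl
    · next e he =>
      have hm := hY e (best_true he)
      rw [List.any_eq_true]
      refine ⟨Q e.1, List.mem_range.2 (hQ _ hm.1), ?_⟩
      rw [hm.2, Bool.true_and]
      apply ih
      · apply good_step hX
        intro c hc hv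
        have := hPQ c hc e.1 hm.1 hv
        rwa [hv] at this
      · exact good_filter hY _
    · next e he =>
      have hm := hX e (best_false he)
      rw [List.any_eq_true]
      refine ⟨P e.1, List.mem_range.2 (hP _ hm.1), ?_⟩
      rw [hm.2, Bool.true_and]
      apply ih
      · exact good_filter hX _
      · apply good_step hY
        intro y hy hv
        have := hPQ e.1 hm.1 y hy hv.symm
        rwa [Nat.and_comm] at this

theorem search_result :
    search 60 (CL.map fun c => (c, c)) (YL.map fun y => (y, y)) = false := by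
  decide +kernel

theorem card_le_one_of_land {c y v : ℕ} (h : (c &&& y) = 2 ^ v) :
    (toSet c ∩ toSet y).card ≤ 1 := by
  rw [Finset.card_le_one]
  intro a ha b hb
  rw [Finset.mem_inter, mem_toSet, mem_toSet] at ha hb
  have h1 : (c &&& y).testBit a.val = true := by rw [Nat.testBit_and, ha.1, ha.2]; rfl
  have h2 : (c &&& y).testBit b.val = true := by rw [Nat.testBit_and, hb.1, hb.2]; rfl
  rw [h, Nat.testBit_two_pow] at h1 h2
  simp at h1 h2
  exact Fin.ext (h1.symm.trans h2)

/-- The negation of the preceding statement: For every clutter C on a finite set: C is nonideal iff one can pick an element p(X) in each member X and q(Y) in each blocker member Y so that p(X)=q(Y) forces X and Y to share at least two elements. -/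
theorem result :
    ¬ (∀ (n : ℕ) (C : Finset (Finset (Fin n))),
      (∀ X ∈ C, ∀ Y ∈ C, X ⊆ Y → X = Y) →
      ((¬ ∀ w : Fin n → ℝ, (∀ v, 0 ≤ w v) →
          ∀ x : Fin n → ℝ, (∀ v, 0 ≤ x v) → (∀ X ∈ C, 1 ≤ ∑ v ∈ X, x v) →
            ∃ B : Finset (Fin n), (∀ X ∈ C, (X ∩ B).Nonempty) ∧
              ∑ v ∈ B, w v ≤ ∑ v, w v * x v)
        ↔
        ∃ p : Finset (Fin n) → Fin n, ∃ q : Finset (Fin n) → Fin n,
          (∀ X ∈ C, p X ∈ X) ∧
          (∀ Y : Finset (Fin n),
            ((∀ X ∈ C, (X ∩ Y).Nonempty) ∧
              ∀ Z : Finset (Fin n), Z ⊆ Y → (∀ X ∈ C, (X ∩ Z).Nonempty) → Z = Y) →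
            q Y ∈ Y) ∧
          (∀ X ∈ C, ∀ Y : Finset (Fin n),
            ((∀ X' ∈ C, (X' ∩ Y).Nonempty) ∧
              ∀ Z : Finset (Fin n), Z ⊆ Y → (∀ X' ∈ C, (X' ∩ Z).Nonempty) → Z = Y) →
            p X = q Y → 1 < (X ∩ Y).card))) := by
  intro H
  obtain ⟨p, q, hp, hq, hpq⟩ := (H 11 Cl anti).1 (by
    intro hid
    obtain ⟨B, hB, hle⟩ := hid (fun _ => 1) (fun _ => zero_le_one) (fun _ => 1 / 3)
      (fun _ => by norm_num) (by
        intro X hX
        obtain ⟨c, hc, rfl⟩ := (mem_Cl X).1 hX
        have := card_check c hc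
        have h3 : (3 : ℝ) ≤ ((toSet c).card : ℝ) := by exact_mod_cast this
        rw [Finset.sum_const, nsmul_eq_mul]
        linarith)
    have h4 := four_le B hB
    have h4' : (4 : ℝ) ≤ (B.card : ℝ) := by exact_mod_cast h4
    simp only [Finset.sum_const, nsmul_eq_mul, mul_one, one_mul, Finset.card_univ,
      Fintype.card_fin] at hle
    norm_num at hle
    linarith)
  have key := search_true (fun c => (p (toSet c)).val) (fun y => (q (toSet y)).val)
    (fun c _ => (p (toSet c)).isLt) (fun y _ => (q (toSet y)).isLt)
    (by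
      intro c hc y hy h hh
      have h1 := hpq (toSet c) ((mem_Cl _).2 ⟨c, hc, rfl⟩) (toSet y) (blocker y hy) (Fin.ext h)
      have h2 := card_le_one_of_land hh
      omega)
    60 (CL.map fun c => (c, c)) (YL.map fun y => (y, y))
    (by
      intro e he
      obtain ⟨c, hc, rfl⟩ := List.mem_map.1 he
      exact ⟨hc, (mem_toSet c _).1 (hp (toSet c) ((mem_Cl _).2 ⟨c, hc, rfl⟩))⟩)
    (by
      intro e he
      obtain ⟨y, hy, rfl⟩ := List.mem_map.1 he
      exact ⟨hy, (mem_toSet y _).1 (hq (toSet y) (blocker y hy))⟩)
  rw [search_result] at key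
  exact Bool.false_ne_true key

end Pool.Agent.S06422
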