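import Pool.Statements.S06430
import Pool.Agent.Helper514.Main

set_option autoImplicit false
open Pool Pool.MP_8f7fef_co

namespace Pool.Agent.S06430

/-- The negation of the preceding statement: For every d ≥ 3, any two finite sets of integer unit cubes in R^d whose union has boundary homeomorphic to the (d-1)-sphere can be joined by adding or removing one cube at a time, with every intermediate set also having sphere boundary. -/
theorem result :
    ¬ (∀ d : ℕ, 3 ≤ d →
      ∀ P : Finset (Fin d → ℤ) → Prop,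
        (∀ S : Finset (Fin d → ℤ), P S ↔
          Nonempty (↥(frontier (⋃ x ∈ S,
              {y : Fin d → ℝ | ∀ i : Fin d, ((x i : ℤ) : ℝ) ≤ y i ∧ y i ≤ ((x i : ℤ) : ℝ) + 1}))
            ≃ₜ ↥(Metric.sphere (0 : EuclideanSpace ℝ (Fin d)) 1))) →
        ∀ A B : Finset (Fin d → ℤ), P A → P B →
          Relation.ReflTransGen
            (fun X Y : Finset (Fin d → ℤ) => P X ∧ P Y ∧ (symmDiff X Y).card = 1) A B) := by
  intro h
  obtain ⟨g, hT, hR⟩ := Pool.Agent.Helper514.Main.exists_rigid
  let P : Finset (Fin (12 * 12) → ℤ) → Prop := fun S =>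
    Nonempty (↥(frontier (⋃ x ∈ S,
      {y : Fin (12 * 12) → ℝ | ∀ i : Fin (12 * 12), ((x i : ℤ) : ℝ) ≤ y i ∧
        y i ≤ ((x i : ℤ) : ℝ) + 1}))
      ≃ₜ ↥(Metric.sphere (0 : EuclideanSpace ℝ (Fin (12 * 12))) 1))
  obtain ⟨A, B, hA, hB, hAB⟩ := Pool.Agent.Helper514.Main.not_connected g hT hR ⟨0, by norm_num⟩ P
    (fun _ => Iff.rfl)
  exact hAB (h (12 * 12) (by norm_num) P (fun _ => Iff.rfl) A B hA hB)

end Pool.Agent.S06430
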