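import Pool.Statements.S06459
import Pool.Agent.Helper1.CycleMagic4

set_option autoImplicit false
open Pool Pool.MP_933a78_co

namespace Pool.Agent.S06459

/-- For odd n=2t+1≥7 and 5t+4≤j≤7t+5, and for even n=2t≥4 and 5t+2≤j≤7t+1, the n-cycle's vertices and edges can be labeled bijectively by 1..2n so every edge plus its two ends sums to j. -/
theorem result :
    ∀ n t j : ℕ,
      ((n = 2 * t + 1 ∧ 7 ≤ n ∧ 5 * t + 4 ≤ j ∧ j ≤ 7 * t + 5) ∨
       (n = 2 * t ∧ 4 ≤ n ∧ 5 * t + 2 ≤ j ∧ j ≤ 7 * t + 1)) →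
      ∃ f : ZMod n ⊕ ZMod n → ℕ,
        Function.Injective f ∧
        (∀ x, 1 ≤ f x ∧ f x ≤ 2 * n) ∧
        ∀ i : ZMod n, f (Sum.inl i) + f (Sum.inr i) + f (Sum.inl (i + 1)) = j := by
  intro n t j h
  rcases h with ⟨hn, h7, h1, h2⟩ | ⟨hn, h4, h1, h2⟩
  · subst hn
    exact Pool.Agent.Helper1.CycleMagic.has_odd t j (by omega) h1 h2
  · subst hn
    exact Pool.Agent.Helper1.CycleMagic.has_even t j (by omega) h1 h2

end Pool.Agent.S06459
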