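import Pool.Statements.S06462
import Pool.Agent.AdamSimple.Main

set_option autoImplicit false
open Pool Pool.MP_934e1a_co

namespace Pool.Agent.S06462

/-- The negation of the preceding statement: Every loopless digraph without multiple arcs that has a directed cycle has an arc whose reversal strictly lowers the number of directed cycles (cycles counted as arc sets; a reversal may create parallel arcs). -/
theorem result :
    ¬ (∀ (n : ℕ) (E : Finset (Fin n × Fin n)),
    (∀ a ∈ E, a.1 ≠ a.2) →
    (∃ S ⊆ E, S.Nonempty ∧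
      ∀ x : Fin n, (S.filter (fun a => a.1 = x)).card = (S.filter (fun a => a.2 = x)).card) →
    ∃ e ∈ E,
      {S : Finset (Fin n × Fin n) | S ⊆ E ∧ S.Nonempty ∧
        (∀ x : Fin n,
          (S.filter (fun a => (if a = e then a.swap else a).1 = x)).card =
          (S.filter (fun a => (if a = e then a.swap else a).2 = x)).card) ∧
        ∀ T ⊆ S, T.Nonempty →
          (∀ x : Fin n,
            (T.filter (fun a => (if a = e then a.swap else a).1 = x)).card =
            (T.filter (fun a => (if a = e then a.swap else a).2 = x)).card) → T = S}.ncard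
      <
      {S : Finset (Fin n × Fin n) | S ⊆ E ∧ S.Nonempty ∧
        (∀ x : Fin n, (S.filter (fun a => a.1 = x)).card = (S.filter (fun a => a.2 = x)).card) ∧
        ∀ T ⊆ S, T.Nonempty →
          (∀ x : Fin n, (T.filter (fun a => a.1 = x)).card = (T.filter (fun a => a.2 = x)).card) →
          T = S}.ncard) := by
  intro h
  obtain ⟨M, hM⟩ : ∃ M : ℕ, M = 2 ^ 216 := ⟨_, rfl⟩
  haveI : NeZero M := ⟨by rw [hM]; positivity⟩
  obtain ⟨n, hn⟩ : ∃ n : ℕ, n = Fintype.card (AdamSimple.Tag × Fin M) := ⟨_, rfl⟩
  let σ : Fin n ≃ AdamSimple.Tag × Fin M := (finCongr hn).trans (Fintype.equivFin _).symm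
  obtain ⟨S0, hS0⟩ := AdamSimple.has_cycle σ
  obtain ⟨e, he, hlt⟩ := h n (AdamSimple.E σ) (AdamSimple.loopless σ)
    ⟨S0, hS0.1, hS0.2.1, hS0.2.2.1⟩
  exact absurd hlt (not_lt.2 (AdamSimple.no_drop σ hM.ge e he))

end Pool.Agent.S06462
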