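import Pool.Statements.S06476

set_option autoImplicit false
open Pool Pool.MP_93ee52_co

namespace Pool.Agent.S06476

/-- Half of the adjacency relation on 20 vertices. Vertices 0..7 are called a_i, vertices 8..15 are
called b_i, vertices 16, 17 are joined to every a_i, vertices 18, 19 are joined to every b_i, and
a_i is joined to b_i. -/
def rel (u v : Fin (10 * 2)) : Bool :=
  (decide (u.val < 8) && decide (v.val = u.val + 8)) ||
  (decide (u.val < 8) && decide (v.val = 16 ∨ v.val = 17)) ||
  (decide (8 ≤ u.val ∧ u.val < 16) && decide (v.val = 18 ∨ v.val = 19))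

/-- Eight disjoint edges with two hubs attached to each side. -/
def G : SimpleGraph (Fin (10 * 2)) where
  Adj u v := rel u v = true ∨ rel v u = true
  symm := ⟨fun _ _ h => h.symm⟩
  loopless := ⟨by
    intro u h
    revert u
    decide⟩

instance : DecidableRel G.Adj := fun u v =>
  inferInstanceAs (Decidable (rel u v = true ∨ rel v u = true))

/-- A proper 2-colouring. -/
def col (u : Fin (10 * 2)) : Bool :=
  decide (u.val < 8) || decide (18 ≤ u.val)

theorem col_ne : ∀ u v : Fin (10 * 2), G.Adj u v → col u ≠ col v := by
  decide +kernel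

theorem deg : ∀ v : Fin (10 * 2), 3 ≤ G.degree v := by
  decide +kernel

theorem cliqueFree : G.CliqueFree 3 := by
  intro s hs
  rw [SimpleGraph.is3Clique_iff] at hs
  obtain ⟨a, b, c, hab, hac, hbc, -⟩ := hs
  have h1 := col_ne a b hab
  have h2 := col_ne a c hac
  have h3 := col_ne b c hbc
  revert h1 h2 h3
  cases col a <;> cases col b <;> cases col c <;> simp

def av (i : Fin 8) : Fin (10 * 2) := ⟨i.val, by omega⟩
def bv (i : Fin 8) : Fin (10 * 2) := ⟨i.val + 8, by omega⟩

def pick (f : Fin 8 → Bool) (i : Fin 8) : Fin (10 * 2) := if f i then av i else bv i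

/-- The independent set picking one end of each of the eight edges. -/
def S (f : Fin 8 → Bool) : Set (Fin (10 * 2)) := Set.range (pick f)

theorem adj_ab (i : Fin 8) : G.Adj (av i) (bv i) := by
  revert i; decide +kernel

theorem cases_v : ∀ v : Fin (10 * 2), (∃ i, v = av i) ∨ (∃ i, v = bv i) ∨
    (∀ i, G.Adj v (av i)) ∨ (∀ i, G.Adj v (bv i)) := by
  decide +kernel

theorem nadj_aa : ∀ i j : Fin 8, ¬ G.Adj (av i) (av j) := by decide +kernel
theorem nadj_bb : ∀ i j : Fin 8, ¬ G.Adj (bv i) (bv j) := by decide +kernel
theorem nadj_ab : ∀ i j : Fin 8, G.Adj (av i) (bv j) → i = j := by decide +kernel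

theorem av_mem {f : Fin 8 → Bool} {i : Fin 8} : av i ∈ S f ↔ f i = true := by
  constructor
  · rintro ⟨j, hj⟩
    unfold pick at hj
    split_ifs at hj with h
    · have : j = i := by
        have := congrArg Fin.val hj
        simp [av] at this
        exact Fin.ext this
      rw [← this]; exact h
    · exfalso
      have := congrArg Fin.val hj
      simp [av, bv] at this
      have := i.2
      omega
  · intro h
    exact ⟨i, by simp [pick, h]⟩

theorem bv_mem {f : Fin 8 → Bool} {i : Fin 8} : bv i ∈ S f ↔ f i = false := by
  constructor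
  · rintro ⟨j, hj⟩
    unfold pick at hj
    split_ifs at hj with h
    · exfalso
      have := congrArg Fin.val hj
      simp [av, bv] at this
      have := j.2
      omega
    · have : j = i := by
        have := congrArg Fin.val hj
        simp [bv] at this
        exact Fin.ext this
      rw [← this]; simpa using h
  · intro h
    exact ⟨i, by simp [pick, h]⟩

theorem S_maximal (f : Fin 8 → Bool) (h1 : ∃ i, f i = true) (h2 : ∃ i, f i = false) :
    Maximal G.IsIndepSet (S f) := by
  constructor
  · rintro _ ⟨i, rfl⟩ _ ⟨j, rfl⟩ hne hadj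
    have hij : i ≠ j := fun h => hne (by rw [h])
    unfold pick at hadj
    split_ifs at hadj
    · exact nadj_aa _ _ hadj
    · exact hij (nadj_ab _ _ hadj)
    · exact hij (nadj_ab _ _ hadj.symm).symm
    · exact nadj_bb _ _ hadj
  · intro t ht hst v hv
    have key : ∀ w ∈ S f, ¬ G.Adj v w := by
      intro w hw hadj
      exact ht hv (hst hw) hadj.ne hadj
    rcases cases_v v with ⟨i, rfl⟩ | ⟨i, rfl⟩ | h | h
    · rw [av_mem]
      by_contra hf
      exact key (bv i) (bv_mem.2 (by simpa using hf)) (adj_ab i)
    · rw [bv_mem]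
      by_contra hf
      exact key (av i) (av_mem.2 (by simpa using hf)) (adj_ab i).symm
    · obtain ⟨i, hi⟩ := h1
      exact absurd (h i) (key _ (av_mem.2 hi))
    · obtain ⟨i, hi⟩ := h2
      exact absurd (h i) (key _ (bv_mem.2 hi))

theorem S_inj : Function.Injective S := by
  intro f g h
  funext i
  have : (f i = true) ↔ (g i = true) := by rw [← av_mem, ← av_mem, h]
  rw [Bool.eq_iff_iff]; exact this

theorem card_nonconst :
    (Finset.univ.filter (fun f : Fin 8 → Bool => (∃ i, f i = true) ∧ (∃ i, f i = false))).card
      = 254 := by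
  decide +kernel

theorem many : 254 ≤ {s : Set (Fin (10 * 2)) | Maximal G.IsIndepSet s}.ncard := by
  have h : S '' {f : Fin 8 → Bool | (∃ i, f i = true) ∧ (∃ i, f i = false)} ⊆
      {s : Set (Fin (10 * 2)) | Maximal G.IsIndepSet s} := by
    rintro _ ⟨f, ⟨h1, h2⟩, rfl⟩
    exact S_maximal f h1 h2
  have h2 := Set.ncard_le_ncard h (Set.toFinite _)
  rw [Set.ncard_image_of_injective _ S_inj] at h2
  have h3 : {f : Fin 8 → Bool | (∃ i, f i = true) ∧ (∃ i, f i = false)}.ncard = 254 := by
    rw [← card_nonconst, ← Set.ncard_coe_finset]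
    congr 1
    ext f
    simp
  omega

/-- The negation of the preceding statement: For every n, every triangle-free simple graph on 10n vertices in which each vertex has degree at least 3 has at most 15^n maximal independent sets (independent sets maximal under inclusion). -/
theorem result :
    ¬ (∀ (n : ℕ) (G : SimpleGraph (Fin (10 * n))) [DecidableRel G.Adj],
      G.CliqueFree 3 →
      (∀ v : Fin (10 * n), 3 ≤ G.degree v) →
      {s : Set (Fin (10 * n)) | Maximal G.IsIndepSet s}.ncard ≤ 15 ^ n) := by
  intro h
  have h1 := h 2 G cliqueFree deg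
  have h2 := many
  norm_num at h1
  omega

end Pool.Agent.S06476
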