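import Pool.Statements.S06479
import Pool.Agent.Helper606.CritThree

set_option autoImplicit false
open Pool Pool.MP_94944d_co

namespace Pool.Agent.S06479

/-- There is c>0 such that every finite graph G with κ(G−X)=k−∣X∣ for every vertex set X of size at most 3 (κ = vertex connectivity) has at most c·k^(3/2) vertices. -/
theorem result :
    ∃ c : ℝ, 0 < c ∧
      ∀ (k : ℕ) (V : Type) [Fintype V] [DecidableEq V] (G : SimpleGraph V),
        (∀ X : Finset V, X.card ≤ 3 →
          X.card ≤ k ∧
          (k < Fintype.card V ∧
            ∀ S : Finset V, Disjoint S X → S.card < k - X.card →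
              (G.induce (((X ∪ S : Finset V) : Set V)ᶜ)).Connected) ∧
          ¬ (k + 1 < Fintype.card V ∧
            ∀ S : Finset V, Disjoint S X → S.card < k - X.card + 1 →
              (G.induce (((X ∪ S : Finset V) : Set V)ᶜ)).Connected)) →
        (Fintype.card V : ℝ) ≤ c * (k : ℝ) ^ ((3 : ℝ) / 2) := by
  refine ⟨400, by norm_num, ?_⟩
  intro k V _ _ G h
  have h0 := h ∅ (by simp)
  apply Pool.Agent.Helper606.CritThree.real_bound
  apply Pool.Agent.Helper606.CritThree.order_bound (G := G) h0.2.1.1
  · intro S hS
    have := h0.2.1.2 S (Finset.disjoint_empty_right S) (by simpa using hS)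
    rwa [Finset.empty_union] at this
  · intro X hX
    obtain ⟨h1, h2, h3⟩ := h X hX
    refine ⟨h1, ?_⟩
    by_cases hsm : Fintype.card V ≤ k + 1
    · exact Or.inl hsm
    · right
      by_contra hcon
      push Not at hcon
      apply h3
      refine ⟨by omega, ?_⟩
      intro S _ hS
      exact hcon S (by omega)

end Pool.Agent.S06479
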