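import Pool.Statements.S06481
import Pool.Agent.Helper968.AD.Main

set_option autoImplicit false
open Pool Pool.MP_94a669_co

namespace Pool.Agent.S06481

/-- For k ≥ 1, every finite loopless digraph (2-cycles allowed) with more than (k−1)·(number of vertices) arcs contains, as an injective arc-preserving copy, every antidirected tree with k arcs. -/
theorem result :
    ∀ (k : ℕ), 1 ≤ k →
      ∀ (V : Type) [Fintype V] (D : Digraph V),
        (∀ v, ¬ D.Adj v v) →
        (k - 1) * Fintype.card V < Nat.card {p : V × V // D.Adj p.1 p.2} →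
        ∀ (A : Fin (k + 1) → Fin (k + 1) → Prop),
          (SimpleGraph.fromRel A).IsTree →
          (∀ a b c, A a b → ¬ A b c) →
          ∃ f : Fin (k + 1) → V, Function.Injective f ∧
            ∀ a b, A a b → D.Adj (f a) (f b) := by
  intro k _ V _ D hD hcard A hT hA
  classical
  have hχ : ∀ a b, (SimpleGraph.fromRel A).Adj a b →
      decide (∃ c, A b c) = !decide (∃ c, A a c) := by
    intro a b hab
    rw [SimpleGraph.fromRel_adj] at hab
    obtain ⟨-, h | h⟩ := hab
    · have h1 : ∃ c, A a c := ⟨b, h⟩
      have h2 : ¬ ∃ c, A b c := by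
        rintro ⟨c, hc⟩
        exact hA a b c h hc
      simp [h1, h2]
    · have h1 : ∃ c, A b c := ⟨a, h⟩
      have h2 : ¬ ∃ c, A a c := by
        rintro ⟨c, hc⟩
        exact hA b a c h hc
      simp [h1, h2]
  obtain ⟨f, hf, he⟩ := AD968.antidirected D.Adj hD k hcard (SimpleGraph.fromRel A) hT
    (Fintype.card_fin _) (fun a => decide (∃ c, A a c)) hχ
  refine ⟨f, hf, fun a b hab => ?_⟩
  have hne : a ≠ b := by
    rintro rfl
    exact hA a a a hab hab
  have h := he a b (by rw [SimpleGraph.fromRel_adj]; exact ⟨hne, Or.inl hab⟩)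
  have h1 : ∃ c, A a c := ⟨b, hab⟩
  simpa [AD968.Dir, h1] using h

end Pool.Agent.S06481
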