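import Pool.Statements.S06521
-- import your own Pool.Agent.* helpers here

set_option autoImplicit false
open Pool Pool.MP_96d021_co

namespace Pool.Agent.S06521

open Finset

section
set_option linter.unusedSectionVars false
variable {V ι : Type} [Fintype V] [Fintype ι] [DecidableEq V] [DecidableEq ι]

/-- Greedy hitting: `L` points of `U` hit all but a `(1 - b/|U|)^L` fraction of the sets. -/
theorem hitting (U : Finset V) (I : Finset ι) (A : ι → Finset V) (b : ℕ)
    (hA : ∀ i ∈ I, A i ⊆ U) (hb : ∀ i ∈ I, b ≤ (A i).card) (L : ℕ) :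
    ∃ W ⊆ U, W.card ≤ L ∧
      (I.filter (fun i => Disjoint (A i) W)).card * U.card ^ L ≤ I.card * (U.card - b) ^ L := by
  induction L with
  | zero => exact ⟨∅, empty_subset _, by simp, by simp⟩
  | succ L ih =>
    obtain ⟨W, hWU, hWc, hW⟩ := ih
    rcases Nat.eq_zero_or_pos U.card with hU | hU
    · refine ⟨W, hWU, by omega, ?_⟩
      rw [hU]; simp
    set I' := I.filter (fun i => Disjoint (A i) W) with hI'
    have hsum : ∑ x ∈ U, (I'.filter (fun i => x ∈ A i)).card = ∑ i ∈ I', (A i).card := by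
      simp only [Finset.card_filter]
      rw [Finset.sum_comm]
      apply Finset.sum_congr rfl
      intro i hi
      have hi' : i ∈ I := (Finset.mem_filter.mp hi).1
      rw [← Finset.card_filter, Finset.filter_mem_eq_inter, Finset.inter_eq_right.mpr (hA i hi')]
    have hex : ∃ x ∈ U, b * I'.card ≤ (I'.filter (fun i => x ∈ A i)).card * U.card := by
      by_contra hcon
      push Not at hcon
      have h1 : ∑ x ∈ U, (I'.filter (fun i => x ∈ A i)).card * U.card < ∑ x ∈ U, b * I'.card :=
        Finset.sum_lt_sum_of_nonempty (Finset.card_pos.mp hU) hcon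
      rw [← Finset.sum_mul, hsum, Finset.sum_const, smul_eq_mul] at h1
      have h2 : I'.card * b ≤ ∑ i ∈ I', (A i).card := by
        rw [← smul_eq_mul, ← Finset.sum_const]
        exact Finset.sum_le_sum fun i hi => hb i (Finset.mem_filter.mp hi).1
      have h3 : I'.card * b * U.card ≤ (∑ i ∈ I', (A i).card) * U.card := Nat.mul_le_mul_right _ h2
      have h4 : U.card * (b * I'.card) = I'.card * b * U.card := by ring
      omega
    obtain ⟨x, hxU, hx⟩ := hex
    refine ⟨insert x W, Finset.insert_subset hxU hWU, (Finset.card_insert_le _ _).trans (by omega), ?_⟩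
    have hnew : I.filter (fun i => Disjoint (A i) (insert x W)) = I'.filter (fun i => ¬ (x ∈ A i)) := by
      ext i
      simp only [hI', Finset.mem_filter, Finset.disjoint_insert_right]
      tauto
    rw [hnew]
    have hc := Finset.card_filter_add_card_filter_not (s := I') (fun i => x ∈ A i)
    set c := (I'.filter (fun i => x ∈ A i)).card
    set w := (I'.filter (fun i => ¬ (x ∈ A i))).card
    have h5 : w * U.card ≤ I'.card * (U.card - b) := by
      rw [Nat.mul_sub]
      apply Nat.le_sub_of_add_le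
      calc w * U.card + I'.card * b ≤ w * U.card + c * U.card := by
            have : I'.card * b = b * I'.card := by ring
            omega
        _ = I'.card * U.card := by rw [← hc]; ring
    calc w * U.card ^ (L + 1) = (w * U.card) * U.card ^ L := by ring
      _ ≤ (I'.card * (U.card - b)) * U.card ^ L := Nat.mul_le_mul_right _ h5
      _ = (I'.card * U.card ^ L) * (U.card - b) := by ring
      _ ≤ (I.card * (U.card - b) ^ L) * (U.card - b) := Nat.mul_le_mul_right _ hW
      _ = I.card * (U.card - b) ^ (L + 1) := by ring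

theorem pow_aux (m b L : ℕ) : m ^ L * (m + L * b) ≤ (m + b) ^ L * m := by
  induction L with
  | zero => simp
  | succ L ih =>
    calc m ^ (L + 1) * (m + (L + 1) * b) = m ^ L * (m * m + L * (m * b) + m * b) := by ring
      _ ≤ m ^ L * ((m + L * b) * (m + b)) := by
          apply Nat.mul_le_mul_left
          have : (m + L * b) * (m + b) = m * m + L * (m * b) + m * b + L * b * b := by ring
          omega
      _ = (m ^ L * (m + L * b)) * (m + b) := by ring
      _ ≤ ((m + b) ^ L * m) * (m + b) := Nat.mul_le_mul_right _ ih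
      _ = (m + b) ^ (L + 1) * m := by ring

theorem pow_half (n b L : ℕ) (hb : 0 < b) (hbn : b ≤ n) (h : n ≤ b * L) :
    2 * (n - b) ^ L ≤ n ^ L := by
  obtain ⟨m, rfl⟩ := Nat.exists_eq_add_of_le' hbn
  rw [Nat.add_sub_cancel]
  rcases Nat.eq_zero_or_pos m with hm | hm
  · subst hm
    rcases Nat.eq_zero_or_pos L with hL | hL
    · subst hL; omega
    · rw [zero_pow (by omega)]; simp
  · have h1 := pow_aux m b L
    have h2 : m ^ L * (2 * m) ≤ m ^ L * (m + L * b) := by
      apply Nat.mul_le_mul_left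
      have : b * L = L * b := by ring
      omega
    have h3 : (2 * m ^ L) * m ≤ (m + b) ^ L * m := by
      calc (2 * m ^ L) * m = m ^ L * (2 * m) := by ring
        _ ≤ _ := h2.trans h1
    exact Nat.le_of_mul_le_mul_right h3 hm

theorem many_hits (U : Finset V) (e : ι → Finset V) (I : Finset ι) (s d L : ℕ) (hs : 2 * d ≤ s)
    (hs0 : 0 < s) (hI : ∀ i ∈ I, s ≤ (e i ∩ U).card) (hL : U.card ≤ (s - d) * L) :
    ∀ a ≤ d + 1, ∃ W ⊆ U, W.card ≤ a * L ∧ ∃ J ⊆ I, I.card ≤ 2 ^ a * J.card ∧
      ∀ i ∈ J, a ≤ (e i ∩ W).card := by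
  intro a
  induction a with
  | zero => intro _; exact ⟨∅, empty_subset _, by simp, I, Subset.rfl, by simp, by simp⟩
  | succ a ih =>
    intro ha
    obtain ⟨W, hWU, hWc, J, hJI, hJc, hJ⟩ := ih (by omega)
    set J1 := J.filter (fun i => (e i ∩ W).card ≤ a) with hJ1
    set J2 := J.filter (fun i => ¬ ((e i ∩ W).card ≤ a)) with hJ2
    have hJJ : J1.card + J2.card = J.card :=
      Finset.card_filter_add_card_filter_not (s := J) (fun i => (e i ∩ W).card ≤ a)
    set A : ι → Finset V := fun i => (e i ∩ U) \ W with hA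
    have hAU : ∀ i ∈ J1, A i ⊆ U := fun i _ => Finset.sdiff_subset.trans Finset.inter_subset_right
    have hAb : ∀ i ∈ J1, s - d ≤ (A i).card := by
      intro i hi
      have hi1 := Finset.mem_filter.mp hi
      have h1 : (e i ∩ U).card ≤ (A i).card + (e i ∩ W).card := by
        have h2 : e i ∩ U ⊆ A i ∪ (e i ∩ W) := by
          intro x hx
          simp only [hA, Finset.mem_union, Finset.mem_sdiff, Finset.mem_inter] at hx ⊢
          tauto
        exact (Finset.card_le_card h2).trans (Finset.card_union_le _ _)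
      have h3 := hI i (hJI hi1.1)
      omega
    obtain ⟨W', hW'U, hW'c, hW'⟩ := hitting U J1 A (s - d) hAU hAb L
    set H := J1.filter (fun i => Disjoint (A i) W') with hH
    have hhalf : 2 * H.card ≤ J1.card := by
      rcases Finset.eq_empty_or_nonempty J1 with h0 | ⟨i, hi⟩
      · rw [hH, h0]; simp
      · have h1 := hAb i hi
        have h2 := Finset.card_le_card (hAU i hi)
        have h3 : 0 < s - d := by omega
        have h4 := pow_half U.card (s - d) L h3 (h1.trans h2) hL
        have h5 : 0 < U.card ^ L := Nat.pow_pos (by omega)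
        have h6 : (2 * H.card) * U.card ^ L ≤ J1.card * U.card ^ L := by
          calc (2 * H.card) * U.card ^ L = 2 * (H.card * U.card ^ L) := by ring
            _ ≤ 2 * (J1.card * (U.card - (s - d)) ^ L) := Nat.mul_le_mul_left _ hW'
            _ = J1.card * (2 * (U.card - (s - d)) ^ L) := by ring
            _ ≤ J1.card * U.card ^ L := Nat.mul_le_mul_left _ h4
        exact Nat.le_of_mul_le_mul_right h6 h5
    set J1' := J1.filter (fun i => ¬ Disjoint (A i) W') with hJ1'
    have hHH : H.card + J1'.card = J1.card :=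
      Finset.card_filter_add_card_filter_not (s := J1) (fun i => Disjoint (A i) W')
    refine ⟨W ∪ W', Finset.union_subset hWU hW'U, ?_, J2 ∪ J1', ?_, ?_, ?_⟩
    · calc (W ∪ W').card ≤ W.card + W'.card := Finset.card_union_le _ _
        _ ≤ a * L + L := by omega
        _ = (a + 1) * L := by ring
    · apply Finset.union_subset
      · exact (Finset.filter_subset _ _).trans hJI
      · exact ((Finset.filter_subset _ _).trans (Finset.filter_subset _ _)).trans hJI
    · have hdisj : Disjoint J2 J1' := by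
        rw [Finset.disjoint_left]
        intro i h2 h1
        have h1' := (Finset.mem_filter.mp (Finset.mem_filter.mp h1).1).2
        exact (Finset.mem_filter.mp h2).2 h1'
      rw [Finset.card_union_of_disjoint hdisj]
      have h7 : J.card ≤ 2 * (J2.card + J1'.card) := by omega
      calc I.card ≤ 2 ^ a * J.card := hJc
        _ ≤ 2 ^ a * (2 * (J2.card + J1'.card)) := Nat.mul_le_mul_left _ h7
        _ = 2 ^ (a + 1) * (J2.card + J1'.card) := by ring
    · intro i hi
      rcases Finset.mem_union.mp hi with hi | hi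
      · have h1 := (Finset.mem_filter.mp hi).2
        have h2 : e i ∩ W ⊆ e i ∩ (W ∪ W') :=
          Finset.inter_subset_inter_left Finset.subset_union_left
        have h3 := Finset.card_le_card h2
        omega
      · have h1 := Finset.mem_filter.mp hi
        have hiJ : i ∈ J := (Finset.mem_filter.mp h1.1).1
        obtain ⟨x, hxA, hxW'⟩ := Finset.not_disjoint_iff.mp h1.2
        have hxA' : (x ∈ e i ∧ x ∈ U) ∧ x ∉ W := by
          simpa [hA, Finset.mem_sdiff, Finset.mem_inter] using hxA
        have h2 : insert x (e i ∩ W) ⊆ e i ∩ (W ∪ W') := by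
          intro y hy
          rcases Finset.mem_insert.mp hy with rfl | hy
          · simp [hxA'.1.1, hxW']
          · have := Finset.mem_inter.mp hy
            simp [this.1, this.2]
        have h3 := Finset.card_le_card h2
        rw [Finset.card_insert_of_notMem (by simp [hxA'.2])] at h3
        have h4 := hJ i hiJ
        omega

/-- The colourings of `W` (extended by `c0` outside of `W`). -/
def cols (d : ℕ) (W : Finset V) (c0 : Fin d) : Finset (V → Fin d) :=
  Fintype.piFinset (fun x => if x ∈ W then univ else {c0})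

theorem card_cols (d : ℕ) (W : Finset V) (c0 : Fin d) : (cols d W c0).card = d ^ W.card := by
  rw [cols, Fintype.card_piFinset]
  have : ∀ x : V, (if x ∈ W then (univ : Finset (Fin d)) else {c0}).card = if x ∈ W then d else 1 := by
    intro x
    split_ifs <;> simp
  simp only [this]
  rw [Finset.prod_ite, Finset.prod_const, Finset.prod_const_one, mul_one]
  congr 1
  congr 1
  ext x
  simp

theorem kill (e : ι → Finset V) (d : ℕ) (W : Finset V) (c0 : Fin d) (J : Finset ι)
    (hJ : ∀ i ∈ J, d + 1 ≤ (e i ∩ W).card) (p0 : V × V) :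
    ∃ p : ι → V × V, (∀ i ∈ J, (p i).1 ∈ e i ∩ W ∧ (p i).2 ∈ e i ∩ W ∧ (p i).1 ≠ (p i).2) ∧
      ((cols d W c0).filter (fun φ => ∀ i ∈ J, φ (p i).1 ≠ φ (p i).2)).card *
        ((d + 1) * d) ^ J.card ≤ d ^ W.card * ((d + 1) * d - 1) ^ J.card := by
  induction J using Finset.induction_on with
  | empty =>
    refine ⟨fun _ => p0, by simp, ?_⟩
    simp only [Finset.notMem_empty, false_imp_iff, implies_true, Finset.filter_true_of_mem,
      Finset.card_empty, pow_zero, mul_one]
    rw [card_cols]
  | insert i J hi ih =>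
    obtain ⟨p, hp, hcard⟩ := ih (fun j hj => hJ j (Finset.mem_insert_of_mem hj))
    set S1 := (cols d W c0).filter (fun φ => ∀ i ∈ J, φ (p i).1 ≠ φ (p i).2) with hS1
    obtain ⟨T, hTsub, hTcard⟩ := Finset.exists_subset_card_eq (hJ i (Finset.mem_insert_self _ _))
    have hq : T.offDiag.card = (d + 1) * d := by
      rw [Finset.offDiag_card, hTcard]
      have : (d + 1) * (d + 1) = (d + 1) * d + (d + 1) := by ring
      omega
    have hd : 0 < d := Fin.pos c0
    have hcov : S1.card ≤ ∑ xy ∈ T.offDiag, (S1.filter (fun φ => φ xy.1 = φ xy.2)).card := by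
      refine le_trans (Finset.card_le_card ?_) Finset.card_biUnion_le
      intro φ hφ
      have h1 : (univ : Finset (Fin d)).card < T.card := by simp [hTcard]
      obtain ⟨x, hx, y, hy, hxy, hf⟩ := Finset.exists_ne_map_eq_of_card_lt_of_maps_to h1
        (fun x _ => Finset.mem_univ (φ x))
      rw [Finset.mem_biUnion]
      exact ⟨(x, y), Finset.mem_offDiag.mpr ⟨hx, hy, hxy⟩, Finset.mem_filter.mpr ⟨hφ, hf⟩⟩
    have hex : ∃ xy ∈ T.offDiag, S1.card ≤ ((d + 1) * d) * (S1.filter (fun φ => φ xy.1 = φ xy.2)).card := by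
      by_contra hcon
      push Not at hcon
      have hne : T.offDiag.Nonempty := by
        rw [← Finset.card_pos, hq]; positivity
      have h1 : ∑ xy ∈ T.offDiag, ((d + 1) * d) * (S1.filter (fun φ => φ xy.1 = φ xy.2)).card <
          ∑ xy ∈ T.offDiag, S1.card := Finset.sum_lt_sum_of_nonempty hne hcon
      rw [← Finset.mul_sum, Finset.sum_const, hq, smul_eq_mul] at h1
      have h2 := Nat.mul_le_mul_left ((d + 1) * d) hcov
      omega
    obtain ⟨xy, hxy, hle⟩ := hex
    rw [Finset.mem_offDiag] at hxy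
    refine ⟨Function.update p i xy, ?_, ?_⟩
    · intro j hj
      rcases Finset.mem_insert.mp hj with rfl | hj
      · rw [Function.update_self]
        exact ⟨hTsub hxy.1, hTsub hxy.2.1, hxy.2.2⟩
      · have hji : j ≠ i := fun h => hi (h ▸ hj)
        rw [Function.update_of_ne hji]
        exact hp j hj
    · have hset : (cols d W c0).filter (fun φ => ∀ j ∈ insert i J,
          φ (Function.update p i xy j).1 ≠ φ (Function.update p i xy j).2) =
          S1.filter (fun φ => ¬ (φ xy.1 = φ xy.2)) := by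
        ext φ
        simp only [hS1, Finset.mem_filter, Finset.forall_mem_insert, Function.update_self]
        constructor
        · rintro ⟨h1, h2, h3⟩
          refine ⟨⟨h1, fun j hj => ?_⟩, h2⟩
          have hji : j ≠ i := fun h => hi (h ▸ hj)
          have := h3 j hj
          rwa [Function.update_of_ne hji] at this
        · rintro ⟨⟨h1, h3⟩, h2⟩
          refine ⟨h1, h2, fun j hj => ?_⟩
          have hji : j ≠ i := fun h => hi (h ▸ hj)
          rw [Function.update_of_ne hji]
          exact h3 j hj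
      rw [hset, Finset.card_insert_of_notMem hi]
      have hc := Finset.card_filter_add_card_filter_not (s := S1) (fun φ => φ xy.1 = φ xy.2)
      set u := (S1.filter (fun φ => φ xy.1 = φ xy.2)).card
      set v := (S1.filter (fun φ => ¬ (φ xy.1 = φ xy.2))).card
      set q := (d + 1) * d with hqdef
      have hq1 : 1 ≤ q := by rw [hqdef]; exact Nat.mul_pos (by omega) hd
      have h5 : v * q ≤ S1.card * (q - 1) := by
        have e1 : S1.card * q = S1.card * (q - 1) + S1.card := by
          calc S1.card * q = S1.card * ((q - 1) + 1) := by rw [Nat.sub_add_cancel hq1]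
            _ = _ := by ring
        have e2 : S1.card * q = v * q + q * u := by rw [← hc]; ring
        omega
      calc v * q ^ (J.card + 1) = (v * q) * q ^ J.card := by ring
        _ ≤ (S1.card * (q - 1)) * q ^ J.card := Nat.mul_le_mul_right _ h5
        _ = (S1.card * q ^ J.card) * (q - 1) := by ring
        _ ≤ (d ^ W.card * (q - 1) ^ J.card) * (q - 1) := Nat.mul_le_mul_right _ hcard
        _ = d ^ W.card * (q - 1) ^ (J.card + 1) := by ring


/-- Every derived graph has a proper colouring with `d` colours. -/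
def Good (e : ι → Finset V) (d : ℕ) : Prop :=
  ∀ p : ι → V × V, (∀ i, 2 ≤ (e i).card → (p i).1 ∈ e i ∧ (p i).2 ∈ e i ∧ (p i).1 ≠ (p i).2) →
    ∃ φ : V → Fin d, ∀ i, 2 ≤ (e i).card → φ (p i).1 ≠ φ (p i).2

theorem exists_default (e : ι → Finset V) [Nonempty V] : ∃ p : ι → V × V,
    ∀ i, 2 ≤ (e i).card → (p i).1 ∈ e i ∧ (p i).2 ∈ e i ∧ (p i).1 ≠ (p i).2 := by
  have h : ∀ i, ∃ xy : V × V, 2 ≤ (e i).card → xy.1 ∈ e i ∧ xy.2 ∈ e i ∧ xy.1 ≠ xy.2 := by
    intro i
    by_cases hi : 2 ≤ (e i).card
    · obtain ⟨x, hx, y, hy, hxy⟩ := Finset.one_lt_card.mp hi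
      exact ⟨(x, y), fun _ => ⟨hx, hy, hxy⟩⟩
    · obtain ⟨x⟩ := ‹Nonempty V›
      exact ⟨(x, x), fun h => absurd h hi⟩
  choose p hp using h
  exact ⟨p, hp⟩

theorem few_rich (e : ι → Finset V) (d : ℕ) (hd : 0 < d) (hgood : Good e d) (W : Finset V)
    (J : Finset ι) (hJ : ∀ i ∈ J, d + 1 ≤ (e i ∩ W).card) :
    J.card ≤ ((d + 1) * d) * d * W.card := by
  rcases isEmpty_or_nonempty V with hV | hV
  · have : J = ∅ := by
      rw [Finset.eq_empty_iff_forall_notMem]
      intro i hi
      have h1 := hJ i hi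
      have h2 : e i ∩ W = ∅ := Finset.eq_empty_of_isEmpty _
      rw [h2] at h1
      simp at h1
    rw [this]; simp
  obtain ⟨p0, hp0⟩ := exists_default e
  obtain ⟨x0⟩ := hV
  let c0 : Fin d := ⟨0, hd⟩
  obtain ⟨p, hp, hcard⟩ := kill e d W c0 J hJ (x0, x0)
  -- the surviving set is nonempty
  have hne : 0 < ((cols d W c0).filter (fun φ => ∀ i ∈ J, φ (p i).1 ≠ φ (p i).2)).card := by
    rw [Finset.card_pos]
    obtain ⟨φ, hφ⟩ := hgood (fun i => if i ∈ J then p i else p0 i) (by
      intro i hi
      by_cases hiJ : i ∈ J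
      · simp only [hiJ, if_true]
        obtain ⟨h1, h2, h3⟩ := hp i hiJ
        exact ⟨(Finset.mem_inter.mp h1).1, (Finset.mem_inter.mp h2).1, h3⟩
      · simp only [hiJ, if_false]
        exact hp0 i hi)
    refine ⟨fun x => if x ∈ W then φ x else c0, ?_⟩
    rw [Finset.mem_filter]
    constructor
    · rw [cols, Fintype.mem_piFinset]
      intro x
      split_ifs <;> simp
    · intro i hi
      obtain ⟨h1, h2, h3⟩ := hp i hi
      have hc : 2 ≤ (e i).card := by
        have h4 := hJ i hi
        have h5 := Finset.card_le_card (Finset.inter_subset_left (s₁ := e i) (s₂ := W))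
        omega
      have h4 := hφ i hc
      simp only [hi, if_true] at h4
      show (if (p i).1 ∈ W then φ (p i).1 else c0) ≠ (if (p i).2 ∈ W then φ (p i).2 else c0)
      rw [if_pos (Finset.mem_inter.mp h1).2, if_pos (Finset.mem_inter.mp h2).2]
      exact h4
  set q := (d + 1) * d with hq
  have hq2 : 2 ≤ q := by rw [hq]; nlinarith
  have hmain : q ^ J.card ≤ d ^ W.card * (q - 1) ^ J.card := by
    refine le_trans ?_ hcard
    exact Nat.le_mul_of_pos_left _ hne
  by_contra hcon
  push Not at hcon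
  obtain ⟨k, hk⟩ := Nat.exists_eq_add_of_lt hcon
  have h1 : 2 * (q - 1) ^ q ≤ q ^ q := pow_half q 1 q one_pos (by omega) (by omega)
  have h2 : 2 ^ (d * W.card) * (q - 1) ^ (q * d * W.card) ≤ q ^ (q * d * W.card) := by
    have h3 := Nat.pow_le_pow_left h1 (d * W.card)
    rw [mul_pow, ← pow_mul, ← pow_mul, ← mul_assoc] at h3
    exact h3
  have h4 : d ^ W.card ≤ 2 ^ (d * W.card) := by
    rw [pow_mul]
    exact Nat.pow_le_pow_left (Nat.lt_two_pow_self).le _
  have hmain' : q ^ (q * d * W.card) * q ^ (k + 1) ≤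
      d ^ W.card * ((q - 1) ^ (q * d * W.card) * (q - 1) ^ (k + 1)) := by
    rw [← pow_add, ← pow_add]
    have hk' : J.card = q * d * W.card + (k + 1) := hk
    rw [← hk']
    exact hmain
  have h5 : (q - 1) ^ (k + 1) < q ^ (k + 1) := Nat.pow_lt_pow_left (by omega) (by omega)
  have h6 : 0 < 2 ^ (d * W.card) * (q - 1) ^ (q * d * W.card) := by
    apply Nat.mul_pos (Nat.pow_pos (by norm_num)) (Nat.pow_pos (by omega))
  have h7 : q ^ (q * d * W.card) * q ^ (k + 1) ≤ q ^ (q * d * W.card) * (q - 1) ^ (k + 1) := by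
    calc q ^ (q * d * W.card) * q ^ (k + 1)
        ≤ d ^ W.card * ((q - 1) ^ (q * d * W.card) * (q - 1) ^ (k + 1)) := hmain'
      _ = (d ^ W.card * (q - 1) ^ (q * d * W.card)) * (q - 1) ^ (k + 1) := by ring
      _ ≤ (2 ^ (d * W.card) * (q - 1) ^ (q * d * W.card)) * (q - 1) ^ (k + 1) :=
          Nat.mul_le_mul_right _ (Nat.mul_le_mul_right _ h4)
      _ ≤ q ^ (q * d * W.card) * (q - 1) ^ (k + 1) := Nat.mul_le_mul_right _ h2
  have h8 : 0 < q ^ (q * d * W.card) := Nat.pow_pos (by omega)
  have h9 := Nat.le_of_mul_le_mul_left h7 h8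
  omega

/-- The constant in the key lemma. -/
def C (d : ℕ) : ℕ := 2 ^ (d + 1) * (((d + 1) * d) * d * (d + 1)) * 4

theorem key (e : ι → Finset V) (d : ℕ) (hd : 0 < d) (hgood : Good e d) (U : Finset V)
    (s : ℕ) (hs : 2 * d ≤ s) :
    (univ.filter (fun i => s ≤ (e i ∩ U).card)).card * s ≤ C d * U.card := by
  set I := univ.filter (fun i => s ≤ (e i ∩ U).card) with hI
  rcases Finset.eq_empty_or_nonempty I with h0 | ⟨i0, hi0⟩
  · rw [h0]; simp
  have hI' : ∀ i ∈ I, s ≤ (e i ∩ U).card := fun i hi => (Finset.mem_filter.mp hi).2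
  have hsU : s ≤ U.card := (hI' i0 hi0).trans (Finset.card_le_card Finset.inter_subset_right)
  set n := U.card with hn
  set b := s - d with hb
  have hb0 : 0 < b := by omega
  set L := n / b + 1 with hL
  have hbL : n ≤ b * L := by
    have := Nat.div_add_mod n b
    have h2 := Nat.mod_lt n hb0
    rw [hL, Nat.mul_add, mul_one]
    omega
  have hbL2 : b * L ≤ 2 * n := by
    have := Nat.div_add_mod n b
    rw [hL, Nat.mul_add, mul_one]
    omega
  obtain ⟨W, hWU, hWc, J, hJI, hJc, hJ⟩ := many_hits U e I s d L hs (by omega) hI' hbL (d + 1) le_rfl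
  have h1 := few_rich e d hd hgood W J hJ
  have h2 : L * s ≤ 4 * n := by
    have h3 : s ≤ 2 * b := by omega
    calc L * s ≤ L * (2 * b) := Nat.mul_le_mul_left _ h3
      _ = 2 * (b * L) := by ring
      _ ≤ 2 * (2 * n) := Nat.mul_le_mul_left _ hbL2
      _ = 4 * n := by ring
  calc I.card * s ≤ (2 ^ (d + 1) * J.card) * s := Nat.mul_le_mul_right _ hJc
    _ ≤ (2 ^ (d + 1) * (((d + 1) * d) * d * W.card)) * s :=
        Nat.mul_le_mul_right _ (Nat.mul_le_mul_left _ h1)
    _ ≤ (2 ^ (d + 1) * (((d + 1) * d) * d * ((d + 1) * L))) * s :=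
        Nat.mul_le_mul_right _ (Nat.mul_le_mul_left _ (Nat.mul_le_mul_left _ hWc))
    _ = 2 ^ (d + 1) * (((d + 1) * d) * d * (d + 1)) * (L * s) := by ring
    _ ≤ 2 ^ (d + 1) * (((d + 1) * d) * d * (d + 1)) * (4 * n) := Nat.mul_le_mul_left _ h2
    _ = C d * n := by rw [C]; ring

theorem sum_sq (e : ι → Finset V) (d : ℕ) (hd : 0 < d) (hgood : Good e d) (r : ℕ)
    (hr : ∀ i, (e i).card ≤ r) (U : Finset V) :
    ∑ i ∈ univ.filter (fun i => 2 * d ≤ (e i ∩ U).card), (e i ∩ U).card * (e i ∩ U).card ≤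
      2 * C d * r * U.card := by
  set I := univ.filter (fun i => 2 * d ≤ (e i ∩ U).card) with hI
  have har : ∀ i, (e i ∩ U).card ≤ r := fun i =>
    (Finset.card_le_card Finset.inter_subset_left).trans (hr i)
  have hsq : ∀ a : ℕ, ∑ s ∈ range a, (2 * s + 1) = a * a := by
    intro a
    induction a with
    | zero => simp
    | succ a ih => rw [Finset.sum_range_succ, ih]; ring
  have h1 : ∀ i ∈ I, (e i ∩ U).card * (e i ∩ U).card ≤
      ∑ s ∈ range r, if s + 1 ≤ (e i ∩ U).card then 2 * (s + 1) else 0 := by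
    intro i _
    rw [← hsq, ← Finset.sum_filter]
    have h2 : (range r).filter (fun s => s + 1 ≤ (e i ∩ U).card) = range (e i ∩ U).card := by
      ext s
      simp only [Finset.mem_filter, Finset.mem_range]
      have := har i
      omega
    rw [h2]
    exact Finset.sum_le_sum fun s _ => by omega
  have h2 : ∀ s ∈ range r, ∑ i ∈ I, (if s + 1 ≤ (e i ∩ U).card then 2 * (s + 1) else 0) ≤
      2 * C d * U.card := by
    intro s _
    rw [← Finset.sum_filter, Finset.sum_const, smul_eq_mul]
    by_cases hs : 2 * d ≤ s + 1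
    · have h3 := key e d hd hgood U (s + 1) hs
      have h4 : (I.filter (fun i => s + 1 ≤ (e i ∩ U).card)).card ≤
          (univ.filter (fun i => s + 1 ≤ (e i ∩ U).card)).card :=
        Finset.card_le_card (Finset.filter_subset_filter _ (Finset.subset_univ _))
      calc _ ≤ (univ.filter (fun i => s + 1 ≤ (e i ∩ U).card)).card * (2 * (s + 1)) :=
            Nat.mul_le_mul_right _ h4
        _ = 2 * ((univ.filter (fun i => s + 1 ≤ (e i ∩ U).card)).card * (s + 1)) := by ring
        _ ≤ 2 * (C d * U.card) := Nat.mul_le_mul_left _ h3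
        _ = 2 * C d * U.card := by ring
    · have h3 := key e d hd hgood U (2 * d) le_rfl
      rw [← hI] at h3
      have h4 : (I.filter (fun i => s + 1 ≤ (e i ∩ U).card)).card ≤ I.card :=
        Finset.card_le_card (Finset.filter_subset _ _)
      calc _ ≤ I.card * (2 * (s + 1)) := Nat.mul_le_mul_right _ h4
        _ ≤ I.card * (2 * (2 * d)) := Nat.mul_le_mul_left _ (by omega)
        _ = 2 * (I.card * (2 * d)) := by ring
        _ ≤ 2 * (C d * U.card) := Nat.mul_le_mul_left _ h3
        _ = 2 * C d * U.card := by ring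
  calc _ ≤ ∑ i ∈ I, ∑ s ∈ range r, (if s + 1 ≤ (e i ∩ U).card then 2 * (s + 1) else 0) :=
        Finset.sum_le_sum h1
    _ = ∑ s ∈ range r, ∑ i ∈ I, (if s + 1 ≤ (e i ∩ U).card then 2 * (s + 1) else 0) :=
        Finset.sum_comm
    _ ≤ ∑ s ∈ range r, 2 * C d * U.card := Finset.sum_le_sum h2
    _ = 2 * C d * r * U.card := by rw [Finset.sum_const, Finset.card_range, smul_eq_mul]; ring

/-- The neighbours of `x` in `U` through hyperedges meeting `U` in at least `2 d` vertices. -/
def nbrs (e : ι → Finset V) (d : ℕ) (U : Finset V) (x : V) : Finset V :=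
  (univ.filter (fun i => x ∈ e i ∧ 2 * d ≤ (e i ∩ U).card)).biUnion (fun i => e i ∩ U)

theorem exists_vertex (e : ι → Finset V) (d : ℕ) (hd : 0 < d) (hgood : Good e d) (r : ℕ)
    (hr : ∀ i, (e i).card ≤ r) (U : Finset V) (hU : U.Nonempty) :
    ∃ x ∈ U, (nbrs e d U x).card < 2 * C d * r + 1 := by
  by_contra hcon
  push Not at hcon
  have h1 : ∑ x ∈ U, (2 * C d * r + 1) ≤ ∑ x ∈ U, (nbrs e d U x).card := Finset.sum_le_sum hcon
  have h2 : ∀ x ∈ U, (nbrs e d U x).card ≤
      ∑ i ∈ univ.filter (fun i => 2 * d ≤ (e i ∩ U).card), if x ∈ e i then (e i ∩ U).card else 0 := by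
    intro x _
    refine le_trans Finset.card_biUnion_le ?_
    rw [← Finset.sum_filter, Finset.filter_filter]
    apply le_of_eq
    apply Finset.sum_congr _ (fun _ _ => rfl)
    ext i
    simp only [Finset.mem_filter]
    tauto
  have h3 : ∑ x ∈ U, ∑ i ∈ univ.filter (fun i => 2 * d ≤ (e i ∩ U).card),
      (if x ∈ e i then (e i ∩ U).card else 0) =
      ∑ i ∈ univ.filter (fun i => 2 * d ≤ (e i ∩ U).card), (e i ∩ U).card * (e i ∩ U).card := by
    rw [Finset.sum_comm]
    apply Finset.sum_congr rfl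
    intro i _
    rw [← Finset.sum_filter, Finset.sum_const, smul_eq_mul, Finset.filter_mem_eq_inter,
      Finset.inter_comm U (e i)]
  have h4 := sum_sq e d hd hgood r hr U
  have h5 := h1.trans ((Finset.sum_le_sum h2).trans (h3.le.trans h4))
  rw [Finset.sum_const, smul_eq_mul] at h5
  have h6 : 0 < U.card := Finset.card_pos.mpr hU
  have h7 : U.card * (2 * C d * r + 1) = 2 * C d * r * U.card + U.card := by ring
  omega

theorem greedy (e : ι → Finset V) (d : ℕ) (hd : 0 < d) (hgood : Good e d) (r : ℕ)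
    (hr : ∀ i, (e i).card ≤ r) :
    ∀ n : ℕ, ∀ U : Finset V, U.card = n → ∃ c : V → Fin (2 * C d * r + 1), ∀ i, ∃ T ⊆ e i,
      T.card ≤ 2 * d ∧ ∀ x ∈ e i ∩ U, ∀ y ∈ e i ∩ U, x ≠ y → c x = c y → x ∈ T ∧ y ∈ T := by
  intro n
  induction n with
  | zero =>
    intro U hU
    refine ⟨fun _ => 0, fun i => ⟨∅, empty_subset _, by simp, ?_⟩⟩
    intro x hx
    rw [Finset.card_eq_zero.mp hU] at hx
    simp at hx
  | succ n ih =>
    intro U hU
    have hne : U.Nonempty := by rw [← Finset.card_pos]; omega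
    obtain ⟨x, hxU, hx⟩ := exists_vertex e d hd hgood r hr U hne
    obtain ⟨c, hc⟩ := ih (U.erase x) (by rw [Finset.card_erase_of_mem hxU]; omega)
    have hk : ∃ k : Fin (2 * C d * r + 1), k ∉ (nbrs e d U x).image c := by
      by_contra hcon
      push Not at hcon
      have h1 : (univ : Finset (Fin (2 * C d * r + 1))) ⊆ (nbrs e d U x).image c :=
        fun k _ => hcon k
      have h2 := (Finset.card_le_card h1).trans Finset.card_image_le
      rw [Finset.card_univ, Fintype.card_fin] at h2
      omega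
    obtain ⟨k, hk⟩ := hk
    refine ⟨Function.update c x k, fun i => ?_⟩
    obtain ⟨T, hTe, hTc, hT⟩ := hc i
    have hmem : ∀ y ∈ e i ∩ U, y ≠ x → y ∈ e i ∩ U.erase x := by
      intro y hy hyx
      have := Finset.mem_inter.mp hy
      exact Finset.mem_inter.mpr ⟨this.1, Finset.mem_erase.mpr ⟨hyx, this.2⟩⟩
    by_cases hxe : x ∈ e i
    · by_cases hbig : 2 * d ≤ (e i ∩ U).card
      · refine ⟨T, hTe, hTc, ?_⟩
        have hnb : ∀ y ∈ e i ∩ U, c y ≠ k := by
          intro y hy hyk
          apply hk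
          rw [Finset.mem_image]
          refine ⟨y, ?_, hyk⟩
          rw [nbrs, Finset.mem_biUnion]
          exact ⟨i, by simp [hxe, hbig], hy⟩
        intro y hy z hz hyz hcc
        by_cases hyx : y = x
        · subst hyx
          rw [Function.update_self, Function.update_of_ne (Ne.symm hyz)] at hcc
          exact absurd hcc.symm (hnb z hz)
        · by_cases hzx : z = x
          · subst hzx
            rw [Function.update_self, Function.update_of_ne hyx] at hcc
            exact absurd hcc (hnb y hy)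
          · rw [Function.update_of_ne hyx, Function.update_of_ne hzx] at hcc
            exact hT y (hmem y hy hyx) z (hmem z hz hzx) hyz hcc
      · refine ⟨e i ∩ U, Finset.inter_subset_left, by omega, ?_⟩
        intro y hy z hz _ _
        exact ⟨hy, hz⟩
    · refine ⟨T, hTe, hTc, ?_⟩
      intro y hy z hz hyz hcc
      have hyx : y ≠ x := fun h => hxe (h ▸ (Finset.mem_inter.mp hy).1)
      have hzx : z ≠ x := fun h => hxe (h ▸ (Finset.mem_inter.mp hz).1)
      rw [Function.update_of_ne hyx, Function.update_of_ne hzx] at hcc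
      exact hT y (hmem y hy hyx) z (hmem z hz hzx) hyz hcc

theorem label (d : ℕ) (hd : 0 < d) (T : Finset V) (hT : T.card ≤ 2 * d) :
    ∃ g : V → Fin (2 * d), ∀ x ∈ T, ∀ y ∈ T, g x = g y → x = y := by
  refine ⟨fun x => if h : x ∈ T then Fin.castLE hT (T.equivFin ⟨x, h⟩) else ⟨0, by omega⟩, ?_⟩
  intro x hx y hy h
  have h0 : Fin.castLE hT (T.equivFin ⟨x, hx⟩) = Fin.castLE hT (T.equivFin ⟨y, hy⟩) := by
    simpa [hx, hy] using h
  have h1 := T.equivFin.injective (Fin.castLE_injective hT h0)
  exact congrArg Subtype.val h1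

theorem strong (e : ι → Finset V) (d : ℕ) (hd : 0 < d) (hgood : Good e d) (r : ℕ)
    (hr : ∀ i, (e i).card ≤ r) :
    ∃ c : V → Fin (2 * C d * r + 1) × (Fin (2 * d) × Fin (2 * d) → Fin d),
      ∀ i, ∀ x ∈ e i, ∀ y ∈ e i, c x = c y → x = y := by
  rcases isEmpty_or_nonempty V with hV | hV
  · exact ⟨fun x => isEmptyElim x, fun i x => isEmptyElim x⟩
  obtain ⟨p0, hp0⟩ := exists_default e
  obtain ⟨c, hc⟩ := greedy e d hd hgood r hr _ (univ : Finset V) rfl
  choose T hTe hTc hT using hc
  have hg : ∀ i, ∃ g : V → Fin (2 * d), ∀ x ∈ T i, ∀ y ∈ T i, g x = g y → x = y :=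
    fun i => label d hd (T i) (hTc i)
  choose g hg using hg
  -- the pair chosen by the edge `i` for the labels `ab`
  have hpick : ∀ ab : Fin (2 * d) × Fin (2 * d), ∀ i, ∃ xy : V × V,
      (2 ≤ (e i).card → xy.1 ∈ e i ∧ xy.2 ∈ e i ∧ xy.1 ≠ xy.2) ∧
      ∀ x ∈ T i, ∀ y ∈ T i, x ≠ y → g i x = ab.1 → g i y = ab.2 → xy = (x, y) := by
    intro ab i
    by_cases h : ∃ x ∈ T i, ∃ y ∈ T i, x ≠ y ∧ g i x = ab.1 ∧ g i y = ab.2
    · obtain ⟨x, hx, y, hy, hxy, h1, h2⟩ := h
      refine ⟨(x, y), fun _ => ⟨hTe i hx, hTe i hy, hxy⟩, ?_⟩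
      intro x' hx' y' hy' _ h1' h2'
      rw [hg i x hx x' hx' (h1.trans h1'.symm), hg i y hy y' hy' (h2.trans h2'.symm)]
    · refine ⟨p0 i, hp0 i, ?_⟩
      intro x hx y hy hxy h1 h2
      exact absurd ⟨x, hx, y, hy, hxy, h1, h2⟩ h
  choose p hp1 hp2 using hpick
  have hφ : ∀ ab, ∃ φ : V → Fin d, ∀ i, 2 ≤ (e i).card → φ (p ab i).1 ≠ φ (p ab i).2 :=
    fun ab => hgood (p ab) (hp1 ab)
  choose φ hφ using hφ
  refine ⟨fun x => (c x, fun ab => φ ab x), ?_⟩
  intro i x hx y hy hcc
  by_contra hxy
  rw [Prod.mk.injEq] at hcc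
  obtain ⟨hc1, hc2⟩ := hcc
  obtain ⟨hxT, hyT⟩ := hT i x (by simpa using hx) y (by simpa using hy) hxy hc1
  have hcard : 2 ≤ (e i).card := Finset.one_lt_card.mpr ⟨x, hx, y, hy, hxy⟩
  have h1 := hφ (g i x, g i y) i hcard
  rw [hp2 (g i x, g i y) i x hxT y hyT hxy rfl rfl] at h1
  exact h1 (congrFun hc2 (g i x, g i y))

end

/-- There is a positive f such that every finite multi-hypergraph of rank at most r (r ≥ 1) whose derived graphs are all d-colourable has a strong colouring with at most f(d)·r colours. -/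
theorem result :
    ∃ f : ℕ → ℝ, (∀ n, 0 < f n) ∧
      ∀ (V ι : Type) [Fintype V] [Fintype ι] (e : ι → Finset V) (d r : ℕ),
        1 ≤ r → (∀ i, (e i).card ≤ r) →
        (∀ p : ι → V × V,
            (∀ i, 2 ≤ (e i).card →
              (p i).1 ∈ e i ∧ (p i).2 ∈ e i ∧ (p i).1 ≠ (p i).2) →
            (SimpleGraph.fromRel
              (fun u v : V => ∃ i, 2 ≤ (e i).card ∧ p i = (u, v))).Colorable d) →
        ∃ k : ℕ, (k : ℝ) ≤ f d * (r : ℝ) ∧
          ∃ c : V → Fin k, ∀ i, Set.InjOn c ((e i : Finset V) : Set V) := by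
  refine ⟨fun d => (((2 * C d + 1) * d ^ (2 * d * (2 * d)) + 1 : ℕ) : ℝ), fun n => by positivity, ?_⟩
  intro V ι _ _ e d r hr1 hr hcol
  classical
  have hgood : Good e d := by
    intro p hp
    obtain ⟨col⟩ := hcol p hp
    refine ⟨fun x => col x, fun i hi => ?_⟩
    apply col.valid
    rw [SimpleGraph.fromRel_adj]
    exact ⟨(hp i hi).2.2, Or.inl ⟨i, hi, rfl⟩⟩
  rcases Nat.eq_zero_or_pos d with hd | hd
  · subst hd
    have hV : IsEmpty V := by
      by_contra hV
      rw [not_isEmpty_iff] at hV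
      obtain ⟨p0, hp0⟩ := exists_default e
      obtain ⟨φ, _⟩ := hgood p0 hp0
      obtain ⟨x⟩ := hV
      exact Fin.elim0 (φ x)
    refine ⟨0, ?_, fun x => isEmptyElim x, fun i x => isEmptyElim x⟩
    simp only [Nat.cast_zero]
    positivity
  · obtain ⟨c, hc⟩ := strong e d hd hgood r hr
    let E := Fintype.equivFin (Fin (2 * C d * r + 1) × (Fin (2 * d) × Fin (2 * d) → Fin d))
    refine ⟨_, ?_, fun x => E (c x), ?_⟩
    · have hcard : Fintype.card (Fin (2 * C d * r + 1) × (Fin (2 * d) × Fin (2 * d) → Fin d)) =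
          (2 * C d * r + 1) * d ^ (2 * d * (2 * d)) := by
        simp [Fintype.card_prod]
      rw [hcard]
      have h1 : (2 * C d * r + 1) * d ^ (2 * d * (2 * d)) ≤
          ((2 * C d + 1) * d ^ (2 * d * (2 * d)) + 1) * r := by
        have h2 : 2 * C d * r + 1 ≤ (2 * C d + 1) * r := by
          have : (2 * C d + 1) * r = 2 * C d * r + r := by ring
          omega
        calc (2 * C d * r + 1) * d ^ (2 * d * (2 * d)) ≤ ((2 * C d + 1) * r) * d ^ (2 * d * (2 * d)) :=
              Nat.mul_le_mul_right _ h2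
          _ ≤ ((2 * C d + 1) * d ^ (2 * d * (2 * d)) + 1) * r := by
              have : ((2 * C d + 1) * d ^ (2 * d * (2 * d)) + 1) * r =
                  ((2 * C d + 1) * r) * d ^ (2 * d * (2 * d)) + r := by ring
              omega
      show (((2 * C d * r + 1) * d ^ (2 * d * (2 * d)) : ℕ) : ℝ) ≤
        (((2 * C d + 1) * d ^ (2 * d * (2 * d)) + 1 : ℕ) : ℝ) * (r : ℝ)
      exact_mod_cast h1
    · intro i x hx y hy h
      exact hc i x hx y hy (E.injective h)

end Pool.Agent.S06521
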