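import Pool.Statements.S06524
import Pool.Agent.Helper978.DefMinor

set_option autoImplicit false
open Pool Pool.MP_96ee1e_co

namespace Pool.Agent.S06524

open Pool.Agent.Helper978

/-- The negation of the preceding statement: For positive r, s and d at most s−1: every finite graph with no K_{r,s} minor can, for any lists of r+s−1−d colours per vertex, be coloured from the lists so that each vertex has at most d neighbours of its own colour. -/
theorem result :
    ¬ (∀ r s d : ℕ, 0 < r → 0 < s → d ≤ s - 1 →
      ∀ (V : Type) [Fintype V] (G : SimpleGraph V),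
        (¬ ∃ B : Fin r ⊕ Fin s → Set V,
            (∀ i, (G.induce (B i)).Connected) ∧
            (∀ i j, i ≠ j → Disjoint (B i) (B j)) ∧
            (∀ a b, ∃ x ∈ B (Sum.inl a), ∃ y ∈ B (Sum.inr b), G.Adj x y)) →
        ∀ L : V → Finset ℕ, (∀ v, (L v).card = r + s - 1 - d) →
          ∃ c : V → ℕ, (∀ v, c v ∈ L v) ∧
            ∀ v, ({w : V | G.Adj v w ∧ c w = c v} : Set V).ncard ≤ d) := by
  intro hall
  obtain ⟨col, hcol, hno⟩ := hall 4 5 4 (by norm_num) (by norm_num) (by norm_num)
    (DefMinor.Vt 3 (3 * 4 + 1) (fun _ => 2)) (DefMinor.G 3 (3 * 4 + 1) (fun _ => 2)) (by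
      rintro ⟨B, h1, h2, h3⟩
      exact DefMinor.no_minor (s := 5) (by norm_num) (by intro m; norm_num)
        (by intro m m' _; norm_num) B h1 h2 h3)
    DefMinor.L (fun v => DefMinor.L_card v)
  obtain ⟨v, hv⟩ := DefMinor.big_defect (ρ := 3) (d := 4) (t := fun _ => 2) (by simp) col hcol
  exact absurd (hno v) (not_le.mpr hv)

end Pool.Agent.S06524
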