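import Pool.Statements.S06540
import Pool.Agent.Helper636.BwEnd

set_option autoImplicit false
open Pool Pool.MP_97f6bf_co

namespace Pool.Agent.S06540

/-- The negation of the preceding statement: For finite matroids N1, N2 and k ≥ 1 there is n such that every finite matroid with N1- and N2-minors, no proper minor having both, and no U(k,2k)-minor, has a subcubic tree decomposition of width at most n. -/
theorem result :
    ¬ (∀ (β₁ β₂ : Type) (N₁ : Matroid β₁) (N₂ : Matroid β₂), N₁.Finite → N₂.Finite →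
    ∀ k : ℕ, 0 < k → ∃ n : ℕ, ∀ (α : Type) (M : Matroid α), M.Finite →
      (∃ N : Matroid α, N.IsMinor M ∧ ∃ e : ↥N.E ≃ ↥N₁.E, ∀ I : Set ↥N.E,
          N.Indep (Subtype.val '' I) ↔ N₁.Indep (Subtype.val '' (e '' I))) →
      (∃ N : Matroid α, N.IsMinor M ∧ ∃ e : ↥N.E ≃ ↥N₂.E, ∀ I : Set ↥N.E,
          N.Indep (Subtype.val '' I) ↔ N₂.Indep (Subtype.val '' (e '' I))) →
      (∀ M' : Matroid α, M'.IsMinor M → M' ≠ M →
        ¬ ((∃ N : Matroid α, N.IsMinor M' ∧ ∃ e : ↥N.E ≃ ↥N₁.E, ∀ I : Set ↥N.E,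
              N.Indep (Subtype.val '' I) ↔ N₁.Indep (Subtype.val '' (e '' I))) ∧
           (∃ N : Matroid α, N.IsMinor M' ∧ ∃ e : ↥N.E ≃ ↥N₂.E, ∀ I : Set ↥N.E,
              N.Indep (Subtype.val '' I) ↔ N₂.Indep (Subtype.val '' (e '' I))))) →
      ¬ (∃ N : Matroid α, N.IsMinor M ∧ N.E.ncard = 2 * k ∧
          ∀ I ⊆ N.E, N.Indep I ↔ I.ncard ≤ k) →
      ∃ (V : Type) (_ : Finite V) (T : SimpleGraph V),
        T.IsAcyclic ∧ T.Preconnected ∧ (∀ v, (T.neighborSet v).ncard ≤ 3) ∧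
        ∃ f : ↥M.E ≃ {v : V // (T.neighborSet v).ncard ≤ 1},
          ∀ u v : V, T.Adj u v →
            M.eRk {x | ∃ h : x ∈ M.E, (T.deleteEdges {s(u, v)}).Reachable u (f ⟨x, h⟩).1}
              + M.eRk (M.E \ {x | ∃ h : x ∈ M.E,
                  (T.deleteEdges {s(u, v)}).Reachable u (f ⟨x, h⟩).1})
              ≤ M.eRank + (n : ℕ∞)) := by
  intro H
  obtain ⟨w, hw⟩ := H ℕ ℕ (Pool.Agent.Helper636.Bw.sp false).N (Pool.Agent.Helper636.Bw.sp true).N
    (Pool.Agent.Helper636.Bw.sp false).N_finite (Pool.Agent.Helper636.Bw.sp true).N_finite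
    4 (by norm_num)
  have : NeZero (3 * w + 6) := ⟨by omega⟩
  have hm : 2 ≤ 3 * w + 6 := by omega
  obtain ⟨B0, hB0, hB0c, _⟩ := (Pool.Agent.Helper636.Bw.conc (m := 3 * w + 6) hm).exists_B0 true
  exact Pool.Agent.Helper636.Bw.no_decomposition (m := 3 * w + 6) hm (w := w) le_rfl
    (hw _ (Pool.Agent.Helper636.Bw.conc (m := 3 * w + 6) hm).data.M
      (Pool.Agent.Helper636.Bw.conc (m := 3 * w + 6) hm).data.M_finite
      ((Pool.Agent.Helper636.Bw.conc (m := 3 * w + 6) hm).has_minor false)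
      ((Pool.Agent.Helper636.Bw.conc (m := 3 * w + 6) hm).has_minor true)
      ((Pool.Agent.Helper636.Bw.conc (m := 3 * w + 6) hm).minimal)
      (Pool.Agent.Helper636.Bw.no_uniform hB0 hB0c))

end Pool.Agent.S06540
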