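import Pool.Statements.S06550

set_option autoImplicit false
open Pool Pool.MP_987dc0_co

namespace Pool.Agent.S06550

/-! The counterexample: a 3-differential poset with rank sizes 1, 3, 9, 22, 50, ...;
the third power of Young's lattice has 51 elements of rank 4. Up to rank 3 the poset is the
third power of Young's lattice, rank 4 is given by an explicit table, and from rank 5 on we use
the reflection extension. -/

/-- Rank sizes. -/
def e : ℕ → ℕ
  | 0 => 1
  | 1 => 3
  | 2 => 9
  | 3 => 22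
  | 4 => 50
  | (n + 5) => e (n + 3) + 3 * e (n + 4)

/-- Lower covers of the elements of rank `k + 1`, as bit masks. -/
def tab : ℕ → List ℕ
  | 0 => [1, 1, 1]
  | 1 => [1, 1, 2, 2, 4, 4, 3, 5, 6]
  | 2 => [1, 2, 3, 65, 66, 129, 130, 4, 8, 12, 68, 72, 260, 264, 16, 32, 48, 144, 160, 272, 288, 448]
  | _ => [44, 12800, 1638400, 3088, 393280, 2098184, 2097232, 2107392, 2228256, 3407872, 2625536,
      5, 9, 1052672, 81920, 2304, 24, 2560, 4224, 1056768, 8448, 655360, 532480, 262176, 98304,
      1536, 68, 640, 2056, 768, 327680, 1081344, 33, 96, 196608, 6, 18, 540672, 294912, 66, 147456,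
      1152, 5120, 20, 1, 2, 128, 256, 16384, 32768]

def bit (k x y : ℕ) : Bool := ((tab k).getD y 0).testBit x

/-- `c n x y`: element `y` of rank `n + 1` covers element `x` of rank `n`. -/
def c : ℕ → ℕ → ℕ → Bool
  | 0, x, y => bit 0 x y
  | 1, x, y => bit 1 x y
  | 2, x, y => bit 2 x y
  | 3, x, y => bit 3 x y
  | (n + 4), x, y => if y < e (n + 3) then c (n + 3) y x else decide ((y - e (n + 3)) / 3 = x)

def upSet (n x : ℕ) : Finset ℕ := (Finset.range (e (n + 1))).filter (fun z => c n x z = true)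

def downSet (n x : ℕ) : Finset ℕ := (Finset.range (e n)).filter (fun w => c n w x = true)

lemma e_rec (n : ℕ) : e (n + 5) = e (n + 3) + 3 * e (n + 4) := rfl

lemma c_rec (n x y : ℕ) : c (n + 4) x y
    = if y < e (n + 3) then c (n + 3) y x else decide ((y - e (n + 3)) / 3 = x) := rfl

lemma mem_upSet (n x z : ℕ) : z ∈ upSet n x ↔ z < e (n + 1) ∧ c n x z = true := by
  simp [upSet]

lemma mem_downSet (n x z : ℕ) : z ∈ downSet n x ↔ z < e n ∧ c n z x = true := by
  simp [downSet]

/-- In the reflection range the upper covers split. -/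
lemma upSet_rec (n x : ℕ) (hx : x < e (n + 4)) :
    upSet (n + 4) x = downSet (n + 3) x ∪ {e (n + 3) + 3 * x, e (n + 3) + 3 * x + 1,
      e (n + 3) + 3 * x + 2} := by
  ext z
  rw [Finset.mem_union, mem_upSet, mem_downSet, e_rec, c_rec]
  simp only [Finset.mem_insert, Finset.mem_singleton]
  by_cases hz : z < e (n + 3)
  · rw [if_pos hz]
    constructor
    · rintro ⟨_, h⟩
      exact Or.inl ⟨hz, h⟩
    · rintro (⟨_, h⟩ | h)
      · exact ⟨by omega, h⟩
      · omega
  · rw [if_neg hz]
    constructor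
    · rintro ⟨h1, h2⟩
      right
      have h3 := of_decide_eq_true h2
      omega
    · rintro (⟨h, _⟩ | h)
      · exact absurd h hz
      · refine ⟨by omega, decide_eq_true ?_⟩
        omega

lemma disj_rec (n x : ℕ) : Disjoint (downSet (n + 3) x)
    ({e (n + 3) + 3 * x, e (n + 3) + 3 * x + 1, e (n + 3) + 3 * x + 2} : Finset ℕ) := by
  rw [Finset.disjoint_left]
  intro z h1 h2
  rw [mem_downSet] at h1
  simp only [Finset.mem_insert, Finset.mem_singleton] at h2
  omega

lemma card_up : ∀ n x : ℕ, x < e (n + 1) →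
    (upSet (n + 1) x).card = (downSet n x).card + 3
  | 0 => by decide +kernel
  | 1 => by decide +kernel
  | 2 => by decide +kernel
  | (n + 3) => by
    intro x hx
    rw [upSet_rec n x hx, Finset.card_union_of_disjoint (disj_rec n x)]
    congr 1
    rw [Finset.card_insert_of_notMem, Finset.card_insert_of_notMem, Finset.card_singleton]
    · simp
    · simp

lemma card_common : ∀ n x : ℕ, x < e (n + 1) → ∀ y, y < e (n + 1) → x ≠ y →
    (upSet (n + 1) x ∩ upSet (n + 1) y).card = (downSet n x ∩ downSet n y).card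
  | 0 => by decide +kernel
  | 1 => by decide +kernel
  | 2 => by decide +kernel
  | (n + 3) => by
    intro x hx y hy hxy
    congr 1
    rw [upSet_rec n x hx, upSet_rec n y hy]
    ext z
    simp only [mem_downSet, Finset.mem_inter, Finset.mem_union,
      Finset.mem_insert, Finset.mem_singleton]
    constructor
    · rintro ⟨h1 | h1, h2 | h2⟩
      · exact ⟨h1, h2⟩
      · omega
      · omega
      · omega
    · rintro ⟨h1, h2⟩
      exact ⟨Or.inl h1, Or.inl h2⟩

lemma exists_down : ∀ n y : ℕ, y < e (n + 1) → (downSet n y).Nonempty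
  | 0 => by decide +kernel
  | 1 => by decide +kernel
  | 2 => by decide +kernel
  | 3 => by decide +kernel
  | (n + 4) => by
    intro y hy
    rw [e_rec] at hy
    by_cases h : y < e (n + 3)
    · have h1 := card_up (n + 2) y h
      have h2 : (upSet (n + 3) y).Nonempty := by
        rw [← Finset.card_pos, h1]
        omega
      obtain ⟨x, hx⟩ := h2
      rw [mem_upSet] at hx
      refine ⟨x, ?_⟩
      rw [mem_downSet, c_rec, if_pos h]
      exact hx
    · refine ⟨(y - e (n + 3)) / 3, ?_⟩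
      rw [mem_downSet, c_rec, if_neg h]
      exact ⟨by omega, decide_eq_true rfl⟩

/-- Points of the poset. -/
structure Pt : Type where
  n : ℕ
  i : ℕ
  h : i < e n

lemma Pt.eq_of {p q : Pt} (h1 : p.n = q.n) (h2 : p.i = q.i) : p = q := by
  cases p
  cases q
  simp only at h1 h2
  subst h1
  subst h2
  rfl

def Step (p q : Pt) : Prop := q.n = p.n + 1 ∧ c p.n p.i q.i = true

lemma rank_le {p q : Pt} (h : Relation.ReflTransGen Step p q) : p.n ≤ q.n := by
  induction h with
  | refl => exact le_rfl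
  | tail _ h2 ih => rw [h2.1]; omega

lemma eq_of_rank_le {p q : Pt} (h : Relation.ReflTransGen Step p q) (hn : q.n ≤ p.n) :
    p = q := by
  rcases h.cases_head with h1 | ⟨z, h1, h2⟩
  · exact h1
  · have h3 := rank_le h2
    have h4 := h1.1
    omega

instance instPartialOrderPt : PartialOrder Pt where
  le := Relation.ReflTransGen Step
  le_refl := fun _ => Relation.ReflTransGen.refl
  le_trans := fun _ _ _ h1 h2 => Relation.ReflTransGen.trans h1 h2
  le_antisymm := fun _ _ h1 h2 => eq_of_rank_le h1 (rank_le h2)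

lemma rank_lt {p q : Pt} (h : p < q) : p.n < q.n := by
  rcases (rank_le h.le).lt_or_eq with h1 | h1
  · exact h1
  · exact absurd (eq_of_rank_le h.le h1.ge) h.ne

lemma covBy_iff {p q : Pt} : p ⋖ q ↔ Step p q := by
  constructor
  · intro h
    have hle : Relation.ReflTransGen Step p q := h.1.le
    rcases hle.cases_head with h1 | ⟨z, h1, h2⟩
    · exact absurd h1 h.1.ne
    · have hpz : p < z := by
        refine lt_of_le_of_ne (Relation.ReflTransGen.single h1) ?_
        intro h3
        have := h1.1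
        rw [h3] at this
        omega
      have hzq : z = q := by
        by_contra hne
        exact h.2 hpz (lt_of_le_of_ne h2 hne)
      rw [← hzq]
      exact h1
  · intro h
    refine ⟨?_, ?_⟩
    · refine lt_of_le_of_ne (Relation.ReflTransGen.single h) ?_
      intro h3
      have := h.1
      rw [h3] at this
      omega
    · intro z h1 h2
      have h3 := rank_lt h1
      have h4 := rank_lt h2
      have h5 := h.1
      omega

lemma bot_le_aux : ∀ n : ℕ, ∀ p : Pt, p.n = n →
    Relation.ReflTransGen Step (⟨0, 0, by decide⟩ : Pt) p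
  | 0 => by
    intro p hp
    have h1 := p.h
    rw [hp] at h1
    have h2 : p.i < 1 := h1
    have : (⟨0, 0, by decide⟩ : Pt) = p := Pt.eq_of hp.symm (by simp only; omega)
    rw [this]
  | (n + 1) => by
    intro p hp
    have h1 := p.h
    rw [hp] at h1
    obtain ⟨x, hx⟩ := exists_down n p.i h1
    rw [mem_downSet] at hx
    have h2 := bot_le_aux n ⟨n, x, hx.1⟩ rfl
    exact h2.tail ⟨hp, hx.2⟩

instance instOrderBotPt : OrderBot Pt where
  bot := ⟨0, 0, by decide⟩
  bot_le := fun p => bot_le_aux p.n p rfl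

lemma rank_finite (n : ℕ) : {p : Pt | p.n = n}.Finite := by
  apply Set.Finite.subset (Set.finite_range (fun i : Fin (e n) => (⟨n, i.1, i.2⟩ : Pt)))
  intro p hp
  have hp' : p.n = n := hp
  have h1 := p.h
  rw [hp'] at h1
  exact ⟨⟨p.i, h1⟩, Pt.eq_of hp'.symm rfl⟩

lemma rank_ncard (n : ℕ) : {p : Pt | p.n = n}.ncard = e n := by
  have h1 : {p : Pt | p.n = n} = (fun i : Fin (e n) => (⟨n, i.1, i.2⟩ : Pt)) '' Set.univ := by
    ext p
    simp only [Set.mem_ofPred_eq, Set.image_univ, Set.mem_range]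
    constructor
    · intro hp
      have h1 := p.h
      rw [hp] at h1
      exact ⟨⟨p.i, h1⟩, Pt.eq_of hp.symm rfl⟩
    · rintro ⟨i, rfl⟩
      rfl
  rw [h1, Set.ncard_image_of_injective, Set.ncard_univ, Nat.card_fin]
  intro i j hij
  have := congrArg Pt.i hij
  exact Fin.ext this

noncomputable instance instLocallyFiniteOrderPt : LocallyFiniteOrder Pt :=
  LocallyFiniteOrder.ofFiniteIcc (by
    intro a b
    have h : (⋃ n ∈ Finset.range (b.n + 1), {p : Pt | p.n = n}).Finite := by
      apply Set.Finite.biUnion (Finset.finite_toSet _)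
      intro n _
      exact rank_finite n
    apply h.subset
    intro p hp
    have h1 : p.n ≤ b.n := rank_le hp.2
    simp only [Set.mem_iUnion, Finset.mem_range, Set.mem_ofPred_eq]
    exact ⟨p.n, by omega, rfl⟩)

lemma up_ncard (x : Pt) : {z : Pt | x ⋖ z}.ncard = (upSet x.n x.i).card := by
  have hinj : Set.InjOn Pt.i {z : Pt | x ⋖ z} := by
    intro a ha b hb hab
    have h1 := (covBy_iff.mp ha).1
    have h2 := (covBy_iff.mp hb).1
    exact Pt.eq_of (by omega) hab
  rw [← Set.InjOn.ncard_image hinj, ← Set.ncard_coe_finset]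
  congr 1
  ext j
  rw [Finset.mem_coe, mem_upSet]
  constructor
  · rintro ⟨z, hz, rfl⟩
    have h1 := covBy_iff.mp hz
    have h2 := z.h
    rw [h1.1] at h2
    exact ⟨h2, h1.2⟩
  · rintro ⟨h1, h2⟩
    exact ⟨⟨x.n + 1, j, h1⟩, covBy_iff.mpr ⟨rfl, h2⟩, rfl⟩

lemma down_ncard (x : Pt) (n : ℕ) (hn : x.n = n + 1) :
    {z : Pt | z ⋖ x}.ncard = (downSet n x.i).card := by
  have hinj : Set.InjOn Pt.i {z : Pt | z ⋖ x} := by
    intro a ha b hb hab
    have h1 := (covBy_iff.mp ha).1
    have h2 := (covBy_iff.mp hb).1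
    exact Pt.eq_of (by omega) hab
  rw [← Set.InjOn.ncard_image hinj, ← Set.ncard_coe_finset]
  congr 1
  ext j
  rw [Finset.mem_coe, mem_downSet]
  constructor
  · rintro ⟨z, hz, rfl⟩
    have h1 := covBy_iff.mp hz
    have h3 : z.n = n := by have := h1.1; omega
    have h2 := z.h
    have h4 := h1.2
    rw [h3] at h2 h4
    exact ⟨h2, h4⟩
  · rintro ⟨h1, h2⟩
    exact ⟨⟨n, j, h1⟩, covBy_iff.mpr ⟨hn, h2⟩, rfl⟩

lemma up2_ncard (x y : Pt) (hxy : x.n = y.n) :
    {z : Pt | x ⋖ z ∧ y ⋖ z}.ncard = (upSet x.n x.i ∩ upSet x.n y.i).card := by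
  have hinj : Set.InjOn Pt.i {z : Pt | x ⋖ z ∧ y ⋖ z} := by
    intro a ha b hb hab
    have h1 := (covBy_iff.mp ha.1).1
    have h2 := (covBy_iff.mp hb.1).1
    exact Pt.eq_of (by omega) hab
  rw [← Set.InjOn.ncard_image hinj, ← Set.ncard_coe_finset]
  congr 1
  ext j
  rw [Finset.mem_coe, Finset.mem_inter, mem_upSet, mem_upSet]
  constructor
  · rintro ⟨z, hz, rfl⟩
    have h1 := covBy_iff.mp hz.1
    have h1' := covBy_iff.mp hz.2
    have h2 := z.h
    rw [h1.1] at h2
    have h3 := h1'.2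
    rw [← hxy] at h3
    exact ⟨⟨h2, h1.2⟩, ⟨h2, h3⟩⟩
  · rintro ⟨⟨h1, h2⟩, ⟨_, h3⟩⟩
    refine ⟨⟨x.n + 1, j, h1⟩, ⟨covBy_iff.mpr ⟨rfl, h2⟩, covBy_iff.mpr ⟨?_, ?_⟩⟩, rfl⟩
    · simp only
      rw [hxy]
    · simp only
      rw [← hxy]
      exact h3

lemma down2_ncard (x y : Pt) (n : ℕ) (hx : x.n = n + 1) (hy : y.n = n + 1) :
    {z : Pt | z ⋖ x ∧ z ⋖ y}.ncard = (downSet n x.i ∩ downSet n y.i).card := by
  have hinj : Set.InjOn Pt.i {z : Pt | z ⋖ x ∧ z ⋖ y} := by
    intro a ha b hb hab
    have h1 := (covBy_iff.mp ha.1).1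
    have h2 := (covBy_iff.mp hb.1).1
    exact Pt.eq_of (by omega) hab
  rw [← Set.InjOn.ncard_image hinj, ← Set.ncard_coe_finset]
  congr 1
  ext j
  rw [Finset.mem_coe, Finset.mem_inter, mem_downSet, mem_downSet]
  constructor
  · rintro ⟨z, hz, rfl⟩
    have h1 := covBy_iff.mp hz.1
    have h1' := covBy_iff.mp hz.2
    have h3 : z.n = n := by have := h1.1; omega
    have h2 := z.h
    have h4 := h1.2
    have h5 := h1'.2
    rw [h3] at h2 h4 h5
    exact ⟨⟨h2, h4⟩, ⟨h2, h5⟩⟩
  · rintro ⟨⟨h1, h2⟩, ⟨_, h3⟩⟩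
    exact ⟨⟨n, j, h1⟩, ⟨covBy_iff.mpr ⟨hx, h2⟩, covBy_iff.mpr ⟨hy, h3⟩⟩, rfl⟩

lemma cond_up (x : Pt) : {z : Pt | x ⋖ z}.ncard = {z : Pt | z ⋖ x}.ncard + 3 := by
  rw [up_ncard]
  rcases Nat.eq_zero_or_pos x.n with h | h
  · have hempty : {z : Pt | z ⋖ x} = ∅ := by
      ext z
      simp only [Set.mem_ofPred_eq, Set.mem_empty_iff_false, iff_false]
      intro hz
      have := (covBy_iff.mp hz).1
      omega
    have h1 := x.h
    rw [h] at h1
    have h2 : x.i < 1 := h1
    have h3 : x.i = 0 := by omega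
    rw [hempty, Set.ncard_empty, h, h3]
    decide
  · obtain ⟨n, hn⟩ : ∃ n, x.n = n + 1 := ⟨x.n - 1, by omega⟩
    rw [down_ncard x n hn, hn]
    apply card_up
    have := x.h
    rwa [hn] at this

lemma cond_common (x y : Pt) (hxy : x ≠ y) :
    {z : Pt | z ⋖ x ∧ z ⋖ y}.ncard = {z : Pt | x ⋖ z ∧ y ⋖ z}.ncard := by
  by_cases hn : x.n = y.n
  · rcases Nat.eq_zero_or_pos x.n with h | h
    · exfalso
      apply hxy
      have h1 := x.h
      have h2 := y.h
      rw [h] at h1
      rw [← hn, h] at h2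
      have h3 : x.i < 1 := h1
      have h4 : y.i < 1 := h2
      exact Pt.eq_of hn (by omega)
    · obtain ⟨n, hn1⟩ : ∃ n, x.n = n + 1 := ⟨x.n - 1, by omega⟩
      have hn2 : y.n = n + 1 := by omega
      rw [down2_ncard x y n hn1 hn2, up2_ncard x y hn, hn1]
      symm
      apply card_common
      · have := x.h
        rwa [hn1] at this
      · have := y.h
        rwa [hn2] at this
      · intro h3
        exact hxy (Pt.eq_of hn h3)
  · have h1 : {z : Pt | z ⋖ x ∧ z ⋖ y} = ∅ := by
      ext z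
      simp only [Set.mem_ofPred_eq, Set.mem_empty_iff_false, iff_false]
      rintro ⟨ha, hb⟩
      have h1 := (covBy_iff.mp ha).1
      have h2 := (covBy_iff.mp hb).1
      omega
    have h2 : {z : Pt | x ⋖ z ∧ y ⋖ z} = ∅ := by
      ext z
      simp only [Set.mem_ofPred_eq, Set.mem_empty_iff_false, iff_false]
      rintro ⟨ha, hb⟩
      have h1 := (covBy_iff.mp ha).1
      have h2 := (covBy_iff.mp hb).1
      omega
    rw [h1, h2]

def q0 : ℕ → ℕ
  | 0 => 1
  | 1 => 1
  | 2 => 2
  | 3 => 3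
  | 4 => 5
  | _ => 0

lemma young_sum : (∑ f ∈ Finset.Nat.antidiagonalTuple 3 4, ∏ i, q0 (f i)) = 51 := by
  decide +kernel

lemma card_partition_ge (n k : ℕ) (f : Fin k → List ℕ)
    (hf : ∀ i j, (f i : Multiset ℕ) = (f j : Multiset ℕ) → i = j)
    (hsum : ∀ i, (f i).sum = n) (hpos : ∀ i, (f i).all (fun x => decide (0 < x)) = true) :
    k ≤ Fintype.card (Nat.Partition n) := by
  have h := Fintype.card_le_of_injective
    (fun i : Fin k => (⟨(f i : Multiset ℕ), fun {x} hx => by
      have h1 := List.all_eq_true.mp (hpos i) x (by simpa using hx)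
      exact of_decide_eq_true h1, by
      have h1 := hsum i
      simpa using h1⟩ : Nat.Partition n))
    (fun i j hij => hf i j (congrArg Nat.Partition.parts hij))
  rwa [Fintype.card_fin] at h

lemma q0_le : ∀ n : ℕ, q0 n ≤ Fintype.card (Nat.Partition n)
  | 0 => card_partition_ge 0 1 ![[]] (by decide) (by decide) (by decide)
  | 1 => card_partition_ge 1 1 ![[1]] (by decide) (by decide) (by decide)
  | 2 => card_partition_ge 2 2 ![[2], [1, 1]] (by decide) (by decide) (by decide)
  | 3 => card_partition_ge 3 3 ![[3], [2, 1], [1, 1, 1]] (by decide) (by decide) (by decide)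
  | 4 => card_partition_ge 4 5 ![[4], [3, 1], [2, 2], [2, 1, 1], [1, 1, 1, 1]]
      (by decide) (by decide) (by decide)
  | (_ + 5) => Nat.zero_le _

lemma young_count :
    51 ≤ (∑ f ∈ Finset.Nat.antidiagonalTuple 3 4, ∏ i, Fintype.card (Nat.Partition (f i))) := by
  rw [← young_sum]
  apply Finset.sum_le_sum
  intro f _
  apply Finset.prod_le_prod'
  intro i _
  exact q0_le (f i)

/-- The negation of the preceding statement: For every r ≥ 1, every r-differential poset has, in each rank n, at least as many elements as the number of r-tuples of partitions of total size n, i.e. at least the rank-n size of the r-th power of Young's lattice. -/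
theorem result :
    ¬ (∀ (r : ℕ), 0 < r →
      ∀ (P : Type) [PartialOrder P] [OrderBot P] [LocallyFiniteOrder P] (ρ : P → ℕ),
        ρ ⊥ = 0 →
        (∀ x y : P, x ⋖ y → ρ y = ρ x + 1) →
        (∀ n : ℕ, {x : P | ρ x = n}.Finite) →
        (∀ x : P, {z : P | x ⋖ z}.Finite ∧
            {z : P | x ⋖ z}.ncard = {z : P | z ⋖ x}.ncard + r) →
        (∀ x y : P, x ≠ y →
            {z : P | z ⋖ x ∧ z ⋖ y}.ncard = {z : P | x ⋖ z ∧ y ⋖ z}.ncard) →
        ∀ n : ℕ,
          (∑ f ∈ Finset.Nat.antidiagonalTuple r n, ∏ i, Fintype.card (Nat.Partition (f i)))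
            ≤ {x : P | ρ x = n}.ncard) := by
  intro h
  have h1 := h 3 (by norm_num) Pt (fun p => p.n) rfl
    (fun x y hxy => (covBy_iff.mp hxy).1) rank_finite
    (fun x => ⟨(rank_finite (x.n + 1)).subset (fun z hz => (covBy_iff.mp hz).1), cond_up x⟩)
    cond_common 4
  rw [rank_ncard] at h1
  have h2 : e 4 = 50 := rfl
  have h3 := young_count
  omega

end Pool.Agent.S06550
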