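import Pool.Statements.S06572
-- import your own Pool.Agent.* helpers here

set_option autoImplicit false
open Pool Pool.MP_9a9e71_co

/-!
# Vertex-primitive graphs with linearly many endomorphism ranks

Let `A` be the 3 × 3 rook graph (9 vertices, clique number and chromatic number 3) and let
`Gam t` be its co-normal power: the vertices are `t`-tuples of vertices of `A`, and two tuples are
adjacent iff they are adjacent in `A` in at least one coordinate.

* `Gam t` has `9 ^ t` vertices and is vertex-primitive: its automorphism group contains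
  `(S_3 wr S_2) wr S_t` in product action (`trans`, `prim`).
* `A` has a proper colouring `col` by the clique `row`.  If `G_0, G_1, G_2` are any endomorphisms of
  `Gam t` then `(y, w) ↦ (row (col y), G_{col y} w)` is an endomorphism of `Gam (t + 1)`
  (adjacent vertices of `A` have different colours and different colours are adjacent in the
  clique).  Its rank is the sum of the ranks of the three `G_c`.  So the set `E t` of ranks satisfies
  `9 ^ t ∈ E t` and `E t + E t + E t ⊆ E (t + 1)` (`id_mem`, `sum3`).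
* Arithmetic of sumsets: with `6 * K t = 9 ^ t - 3 ^ t` the set `E (t + 2)` contains all numbers
  `9 * 3 ^ t + 6 * v` with `v < 6 * K t` (`mem_E`), so it has at least `9 ^ t - 3 ^ t` elements.

Hence these graphs on `n = 9 ^ (t + 2)` vertices have at least `9 ^ t - 3 ^ t ≥ n / 100`
endomorphism ranks.
-/

namespace Pool.Agent.S06572

namespace NN
abbrev W (t : ℕ) := Fin t → Fin 2 → Fin 3

/-- adjacency of the 3×3 rook graph -/
def A (u v : Fin 2 → Fin 3) : Prop := (u 0 ≠ v 0 ∧ u 1 = v 1) ∨ (u 0 = v 0 ∧ u 1 ≠ v 1)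

/-- co-normal power of the 3×3 rook graph -/
def Gam (t : ℕ) : SimpleGraph (W t) where
  Adj x y := ∃ i, A (x i) (y i)
  symm := ⟨by
    rintro x y ⟨i, h⟩
    refine ⟨i, ?_⟩
    rcases h with ⟨h1, h2⟩ | ⟨h1, h2⟩
    · exact Or.inl ⟨h1.symm, h2.symm⟩
    · exact Or.inr ⟨h1.symm, h2.symm⟩⟩
  loopless := ⟨by
    rintro x ⟨i, h⟩
    rcases h with ⟨h1, h2⟩ | ⟨h1, h2⟩
    · exact h1 rfl
    · exact h2 rfl⟩

section Prim

variable {t : ℕ}

def amap (π : Equiv.Perm (Fin t)) (ε : Equiv.Perm (Fin 2)) (σ : Fin t → Fin 2 → Equiv.Perm (Fin 3))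
    (w : W t) : W t := fun i j => σ i j (w (π i) (ε j))

lemma amap_inj (π : Equiv.Perm (Fin t)) (ε : Equiv.Perm (Fin 2))
    (σ : Fin t → Fin 2 → Equiv.Perm (Fin 3)) : Function.Injective (amap π ε σ) := by
  intro w w' h
  funext i j
  have h1 := congrFun (congrFun h (π.symm i)) (ε.symm j)
  simp only [amap, Equiv.apply_symm_apply] at h1
  exact (σ _ _).injective h1

lemma eps_cases (ε : Equiv.Perm (Fin 2)) : (ε 0 = 0 ∧ ε 1 = 1) ∨ (ε 0 = 1 ∧ ε 1 = 0) := by
  revert ε
  decide

lemma amap_adj (π : Equiv.Perm (Fin t)) (ε : Equiv.Perm (Fin 2))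
    (σ : Fin t → Fin 2 → Equiv.Perm (Fin 3)) (w w' : W t) :
    (Gam t).Adj (amap π ε σ w) (amap π ε σ w') ↔ (Gam t).Adj w w' := by
  have key : ∀ i, A (amap π ε σ w i) (amap π ε σ w' i) ↔ A (w (π i)) (w' (π i)) := by
    intro i
    unfold A amap
    rcases eps_cases ε with ⟨h0, h1⟩ | ⟨h0, h1⟩
    · simp only [h0, h1, ne_eq, EmbeddingLike.apply_eq_iff_eq]
    · simp only [h0, h1, ne_eq, EmbeddingLike.apply_eq_iff_eq]
      tauto
  constructor
  · rintro ⟨i, hi⟩
    exact ⟨π i, (key i).1 hi⟩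
  · rintro ⟨i, hi⟩
    refine ⟨π.symm i, (key _).2 ?_⟩
    rw [Equiv.apply_symm_apply]
    exact hi

noncomputable def aut (π : Equiv.Perm (Fin t)) (ε : Equiv.Perm (Fin 2))
    (σ : Fin t → Fin 2 → Equiv.Perm (Fin 3)) : Gam t ≃g Gam t where
  toEquiv := Equiv.ofBijective (amap π ε σ) (Finite.injective_iff_bijective.1 (amap_inj π ε σ))
  map_rel_iff' := by
    intro a b
    exact amap_adj π ε σ a b

lemma aut_apply (π : Equiv.Perm (Fin t)) (ε : Equiv.Perm (Fin 2))
    (σ : Fin t → Fin 2 → Equiv.Perm (Fin 3)) (w : W t) (i : Fin t) (j : Fin 2) :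
    aut π ε σ w i j = σ i j (w (π i) (ε j)) := rfl

lemma trans (x y : W t) : ∃ φ : Gam t ≃g Gam t, φ x = y := by
  refine ⟨aut 1 1 (fun i j => Equiv.swap (x i j) (y i j)), ?_⟩
  funext i j
  rw [aut_apply]
  simp

/-- change one entry -/
def upd (w : W t) (i : Fin t) (j : Fin 2) (c : Fin 3) : W t :=
  fun a b => if a = i ∧ b = j then c else w a b

variable (B : Set (W t)) (hB : ∀ φ : Gam t ≃g Gam t, (⇑φ) '' B = B ∨ Disjoint ((⇑φ) '' B) B)

include hB

lemma blk (φ : Gam t ≃g Gam t) {x y : W t} (hx : x ∈ B) (hφ : φ x ∈ B) (hy : y ∈ B) : φ y ∈ B := by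
  rcases hB φ with h | h
  · rw [← h]
    exact Set.mem_image_of_mem _ hy
  · exact absurd hφ (Set.disjoint_left.1 h (Set.mem_image_of_mem _ hx))

omit hB in
lemma third (a b : Fin 3) (h : a ≠ b) : ∃ z, z ≠ a ∧ z ≠ b ∧ ∀ c, c = a ∨ c = b ∨ c = z := by
  revert a b
  decide

lemma step1 {x y : W t} (hx : x ∈ B) (hy : y ∈ B) {i : Fin t} {j : Fin 2} (h : x i j ≠ y i j) :
    ∀ c, upd y i j c ∈ B := by
  obtain ⟨z, hz1, hz2, hz⟩ := third _ _ h
  have e1 : upd y i j z ∈ B := by
    have h1 : aut 1 1 (fun a b => if a = i ∧ b = j then Equiv.swap (y i j) z else 1) x = x := by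
      funext a b
      rw [aut_apply]
      by_cases hab : a = i ∧ b = j
      · obtain ⟨rfl, rfl⟩ := hab
        simp [Equiv.swap_apply_of_ne_of_ne h hz1.symm]
      · simp [hab]
    have h2 : aut 1 1 (fun a b => if a = i ∧ b = j then Equiv.swap (y i j) z else 1) y = upd y i j z := by
      funext a b
      rw [aut_apply]
      unfold upd
      by_cases hab : a = i ∧ b = j
      · obtain ⟨rfl, rfl⟩ := hab
        simp
      · simp [hab]
    rw [← h2]
    exact blk B hB _ hx (by rw [h1]; exact hx) hy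
  have e2 : upd y i j (x i j) ∈ B := by
    have h1 : aut 1 1 (fun a b => if a = i ∧ b = j then Equiv.swap z (x i j) else 1) y = y := by
      funext a b
      rw [aut_apply]
      by_cases hab : a = i ∧ b = j
      · obtain ⟨rfl, rfl⟩ := hab
        simp [Equiv.swap_apply_of_ne_of_ne hz2.symm h.symm]
      · simp [hab]
    have h2 : aut 1 1 (fun a b => if a = i ∧ b = j then Equiv.swap z (x i j) else 1) (upd y i j z) =
        upd y i j (x i j) := by
      funext a b
      rw [aut_apply]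
      unfold upd
      by_cases hab : a = i ∧ b = j
      · obtain ⟨rfl, rfl⟩ := hab
        simp
      · simp [hab]
    rw [← h2]
    exact blk B hB _ hy (by rw [h1]; exact hy) e1
  intro c
  rcases hz c with rfl | rfl | rfl
  · exact e2
  · have : upd y i j (y i j) = y := by
      funext a b
      unfold upd
      by_cases hab : a = i ∧ b = j
      · obtain ⟨rfl, rfl⟩ := hab
        simp
      · simp [hab]
    rw [this]; exact hy
  · exact e1

omit hB in
lemma upd_self (y : W t) (i : Fin t) (j : Fin 2) : upd y i j (y i j) = y := by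
  funext a b
  unfold upd
  by_cases hab : a = i ∧ b = j
  · obtain ⟨rfl, rfl⟩ := hab
    simp
  · simp [hab]

omit hB in
lemma upd_same (w : W t) (i : Fin t) (j : Fin 2) (c : Fin 3) : upd w i j c i j = c := by
  simp [upd]

omit hB in
lemma upd_ne (w : W t) (i : Fin t) (j : Fin 2) (c : Fin 3) {a : Fin t} {b : Fin 2}
    (h : ¬ (a = i ∧ b = j)) : upd w i j c a b = w a b := by
  simp [upd, h]

lemma step2 {y : W t} {i : Fin t} {j : Fin 2} (h : ∀ c, upd y i j c ∈ B) (i' : Fin t) (j' : Fin 2)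
    (c : Fin 3) : upd y i' j' c ∈ B := by
  have hy : y ∈ B := by rw [← upd_self y i j]; exact h _
  obtain ⟨φ, hφ⟩ : ∃ φ, φ = aut (Equiv.swap i i') (Equiv.swap j j')
    (fun a b => Equiv.swap (y (Equiv.swap i i' a) (Equiv.swap j j' b)) (y a b)) := ⟨_, rfl⟩
  have h1 : φ y = y := by
    funext a b
    rw [hφ, aut_apply]
    simp
  have h2 : φ (upd y i j (Equiv.swap (y i j) (y i' j') c)) = upd y i' j' c := by
    funext a b
    rw [hφ, aut_apply]
    unfold upd
    by_cases hab : a = i' ∧ b = j'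
    · obtain ⟨rfl, rfl⟩ := hab
      simp
    · have hab' : ¬ (Equiv.swap i i' a = i ∧ Equiv.swap j j' b = j) := by
        rintro ⟨g1, g2⟩
        apply hab
        rw [Equiv.swap_apply_eq_iff, Equiv.swap_apply_left] at g1 g2
        exact ⟨g1, g2⟩
      simp [hab, hab']
  rw [← h2]
  exact blk B hB φ hy (by rw [h1]; exact hy) (h _)

lemma good_all (y : W t) (hy : y ∈ B) (h : ∀ i j c, upd y i j c ∈ B) : ∀ z, z ∈ B := by
  intro z
  obtain ⟨d, hd⟩ : ∃ d, d = (Finset.univ.filter (fun p : Fin t × Fin 2 => y p.1 p.2 ≠ z p.1 p.2)).card :=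
    ⟨_, rfl⟩
  induction d using Nat.strong_induction_on generalizing y with
  | _ d ih =>
    by_cases hyz : y = z
    · rw [← hyz]; exact hy
    · obtain ⟨i, hi⟩ := Function.ne_iff.1 hyz
      obtain ⟨j, hj⟩ := Function.ne_iff.1 hi
      refine ih _ ?_ (upd y i j (z i j)) (h _ _ _) ?_ rfl
      · rw [hd]
        apply Finset.card_lt_card
        rw [Finset.ssubset_iff_of_subset]
        · refine ⟨(i, j), by simpa using hj, ?_⟩
          rw [Finset.mem_filter]
          rintro ⟨_, h1⟩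
          exact h1 (upd_same _ _ _ _)
        · intro p hp
          rw [Finset.mem_filter] at hp ⊢
          refine ⟨hp.1, fun hcon => hp.2 ?_⟩
          by_cases hab : p.1 = i ∧ p.2 = j
          · obtain ⟨a, b⟩ := p
            obtain ⟨h1, h2⟩ := hab
            simp only at h1 h2
            subst h1 h2
            exact upd_same _ _ _ _
          · rw [upd_ne _ _ _ _ hab]
            exact hcon
      · intro i' j' c
        apply step2 B hB (i := i) (j := j)
        intro c'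
        have : upd (upd y i j (z i j)) i j c' = upd y i j c' := by
          funext a b
          unfold upd
          by_cases hab : a = i ∧ b = j <;> simp [hab]
        rw [this]
        exact h _ _ _

lemma prim : B.Subsingleton ∨ B = Set.univ := by
  by_cases hs : B.Subsingleton
  · exact Or.inl hs
  · right
    rw [Set.not_subsingleton_iff] at hs
    obtain ⟨x, hx, y, hy, hxy⟩ := hs
    obtain ⟨i, hi⟩ := Function.ne_iff.1 hxy
    obtain ⟨j, hj⟩ := Function.ne_iff.1 hi
    rw [Set.eq_univ_iff_forall]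
    exact good_all B hB y hy (step2 B hB (step1 B hB hx hy hj))

end Prim

section Rank

/-- the set of endomorphism ranks -/
def E (t : ℕ) : Set ℕ := Set.range (fun φ : Gam t →g Gam t => (Set.range (⇑φ)).ncard)

lemma card_W (t : ℕ) : Nat.card (W t) = 9 ^ t := by
  simp [Nat.card_eq_fintype_card, W]

lemma id_mem (t : ℕ) : 9 ^ t ∈ E t := by
  refine ⟨SimpleGraph.Hom.id, ?_⟩
  show (Set.range (fun x : W t => x)).ncard = 9 ^ t
  rw [Set.range_id', Set.ncard_univ, card_W]

/-- colour of a vertex of the rook graph -/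
def col (u : Fin 2 → Fin 3) : Fin 3 := u 0 + u 1

/-- first row of the rook graph -/
def row (c : Fin 3) : Fin 2 → Fin 3 := ![c, 0]

lemma A_col {u v : Fin 2 → Fin 3} (h : A u v) : col u ≠ col v := by
  unfold col
  rcases h with ⟨h1, h2⟩ | ⟨h1, h2⟩
  · rw [h2]; simpa using h1
  · rw [h1]; simpa using h2

lemma A_row {c d : Fin 3} (h : c ≠ d) : A (row c) (row d) := by
  left
  exact ⟨h, rfl⟩

lemma col_row (c : Fin 3) : col (row c) = c := by
  simp [col, row]

def ff {t : ℕ} (G : Fin 3 → (Gam t →g Gam t)) (w : W (t + 1)) : W (t + 1) :=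
  Fin.cons (row (col (w 0))) (G (col (w 0)) (Fin.tail w))

lemma ff_adj {t : ℕ} (G : Fin 3 → (Gam t →g Gam t)) {x y : W (t + 1)} (h : (Gam (t + 1)).Adj x y) :
    (Gam (t + 1)).Adj (ff G x) (ff G y) := by
  by_cases hc : col (x 0) = col (y 0)
  · obtain ⟨i, hi⟩ := h
    obtain ⟨k, rfl⟩ : ∃ k, i = Fin.succ k := by
      refine Fin.cases (motive := fun i => A (x i) (y i) → ∃ k, i = Fin.succ k) ?_ ?_ i hi
      · intro h0
        exact absurd hc (A_col h0)
      · intro k _
        exact ⟨k, rfl⟩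
    have h1 : (Gam t).Adj (Fin.tail x) (Fin.tail y) := ⟨k, hi⟩
    have h2 := (G (col (x 0))).map_rel h1
    obtain ⟨k', hk'⟩ := h2
    refine ⟨k'.succ, ?_⟩
    unfold ff
    rw [Fin.cons_succ, Fin.cons_succ, ← hc]
    exact hk'
  · refine ⟨0, ?_⟩
    unfold ff
    rw [Fin.cons_zero, Fin.cons_zero]
    exact A_row hc

def F {t : ℕ} (G : Fin 3 → (Gam t →g Gam t)) : Gam (t + 1) →g Gam (t + 1) where
  toFun := ff G
  map_rel' := ff_adj G

lemma range_F {t : ℕ} (G : Fin 3 → (Gam t →g Gam t)) :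
    Set.range (F G) = ⋃ c, (fun v : W t => (Fin.cons (row c) v : W (t + 1))) '' Set.range (G c) := by
  ext z
  simp only [Set.mem_range, Set.mem_iUnion, Set.mem_image, exists_exists_eq_and]
  constructor
  · rintro ⟨w, rfl⟩
    exact ⟨col (w 0), Fin.tail w, rfl⟩
  · rintro ⟨c, v, rfl⟩
    refine ⟨Fin.cons (row c) v, ?_⟩
    show (Fin.cons (row (col (row c))) (G (col (row c)) v) : W (t + 1)) = _
    rw [col_row]

lemma sum3 (t : ℕ) {a b c : ℕ} (ha : a ∈ E t) (hb : b ∈ E t) (hc : c ∈ E t) : a + b + c ∈ E (t + 1) := by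
  obtain ⟨g0, rfl⟩ := ha
  obtain ⟨g1, rfl⟩ := hb
  obtain ⟨g2, rfl⟩ := hc
  refine ⟨F ![g0, g1, g2], ?_⟩
  show (Set.range (F ![g0, g1, g2])).ncard = _
  rw [range_F]
  have hinj : ∀ c : Fin 3, Function.Injective (fun v : W t => (Fin.cons (row c) v : W (t + 1))) := by
    intro c v v' h
    exact Fin.cons_right_injective _ h
  have hdisj : ∀ c d : Fin 3, c ≠ d → ∀ S S' : Set (W t),
      Disjoint ((fun v : W t => (Fin.cons (row c) v : W (t + 1))) '' S)
        ((fun v : W t => (Fin.cons (row d) v : W (t + 1))) '' S') := by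
    intro c d hcd S S'
    rw [Set.disjoint_left]
    rintro _ ⟨v, _, rfl⟩ ⟨v', _, h⟩
    have h0 := congrFun h 0
    simp only [Fin.cons_zero] at h0
    apply hcd
    rw [← col_row c, ← col_row d, h0]
  have e : (⋃ c, (fun v : W t => (Fin.cons (row c) v : W (t + 1))) '' Set.range (![g0, g1, g2] c)) =
      ((fun v : W t => (Fin.cons (row 0) v : W (t + 1))) '' Set.range g0 ∪
      (fun v : W t => (Fin.cons (row 1) v : W (t + 1))) '' Set.range g1) ∪
      (fun v : W t => (Fin.cons (row 2) v : W (t + 1))) '' Set.range g2 := by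
    ext z
    simp only [Set.mem_iUnion, Set.mem_union, Fin.exists_fin_succ, Fin.exists_fin_zero]
    simp
    tauto
  rw [e, Set.ncard_union_eq _ (Set.toFinite _) (Set.toFinite _),
    Set.ncard_union_eq _ (Set.toFinite _) (Set.toFinite _),
    Set.ncard_image_of_injective _ (hinj _), Set.ncard_image_of_injective _ (hinj _),
    Set.ncard_image_of_injective _ (hinj _)]
  · exact hdisj _ _ (by decide) _ _
  · rw [Set.disjoint_union_left]
    exact ⟨hdisj _ _ (by decide) _ _, hdisj _ _ (by decide) _ _⟩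

lemma one_mem : 1 ∈ E 0 := id_mem 0

lemma pow3_mem (t : ℕ) : 3 ^ t ∈ E t := by
  induction t with
  | zero => exact one_mem
  | succ t ih =>
    have := sum3 t ih ih ih
    have e : 3 ^ t + 3 ^ t + 3 ^ t = 3 ^ (t + 1) := by ring
    rwa [e] at this

/-- sums of `k` ranks -/
def R (t : ℕ) : ℕ → ℕ → Prop
  | 0, x => x = 0
  | k + 1, x => ∃ a ∈ E t, ∃ y, R t k y ∧ x = a + y

lemma R_add (t : ℕ) {k l : ℕ} : ∀ {x y : ℕ}, R t k x → R t l y → R t (k + l) (x + y) := by
  induction k with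
  | zero =>
    intro x y hx hy
    obtain rfl : x = 0 := hx
    simpa using hy
  | succ k ih =>
    rintro x y ⟨a, ha, z, hz, rfl⟩ hy
    have e : k + 1 + l = (k + l) + 1 := by omega
    rw [e]
    exact ⟨a, ha, z + y, ih hz hy, by omega⟩

lemma R_rep (t : ℕ) {a : ℕ} (ha : a ∈ E t) (k : ℕ) : R t k (k * a) := by
  induction k with
  | zero => show 0 * a = 0; omega
  | succ k ih => exact ⟨a, ha, k * a, ih, by ring⟩

lemma R_one (t : ℕ) {x : ℕ} (h : R t 1 x) : x ∈ E t := by
  obtain ⟨a, ha, y, hy, rfl⟩ := h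
  obtain rfl : y = 0 := hy
  exact ha

lemma R_step (t : ℕ) (k : ℕ) : ∀ x, R t (3 * k) x → R (t + 1) k x := by
  induction k with
  | zero => intro x h; exact h
  | succ k ih =>
    intro x h
    have e : 3 * (k + 1) = 3 * k + 1 + 1 + 1 := by ring
    rw [e] at h
    obtain ⟨a, ha, y, ⟨b, hb, z, ⟨c, hc, u, hu, rfl⟩, rfl⟩, rfl⟩ := h
    exact ⟨a + b + c, sum3 t ha hb hc, u, ih u hu, by omega⟩

/-- `(9 ^ t - 3 ^ t) / 6` -/
def K : ℕ → ℕ
  | 0 => 0
  | t + 1 => 9 * K t + 3 ^ t

lemma K_eq (t : ℕ) : 9 ^ t = 3 ^ t + 6 * K t := by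
  induction t with
  | zero => rfl
  | succ t ih =>
    show 9 ^ (t + 1) = 3 ^ (t + 1) + 6 * (9 * K t + 3 ^ t)
    rw [pow_succ, ih]
    ring

def PA (t : ℕ) : Prop := ∀ v, v ≤ K t → R t 4 (4 * 3 ^ t + 6 * v)

def PB (t : ℕ) : Prop := ∀ v, v ≤ 3 ^ t → R t 3 (3 * 3 ^ t + 6 * v)

lemma comb {t : ℕ} (hA : PA t) {k j v : ℕ} (hk : j + 4 ≤ k) (hv : v ≤ K t) :
    R t k (k * 3 ^ t + 6 * (j * K t + v)) := by
  obtain ⟨l, rfl⟩ := Nat.exists_eq_add_of_le hk
  have h := R_add t (R_add t (R_rep t (id_mem t) j) (hA v hv)) (R_rep t (pow3_mem t) l)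
  have e : j * 9 ^ t + (4 * 3 ^ t + 6 * v) + l * 3 ^ t =
      (j + 4 + l) * 3 ^ t + 6 * (j * K t + v) := by
    rw [K_eq t]; ring
  rwa [e] at h

lemma cover {t : ℕ} (hA : PA t) {k v : ℕ} (hK : 0 < K t) (hk : 4 ≤ k) (hv : v < (k - 3) * K t) :
    R t k (k * 3 ^ t + 6 * v) := by
  have h1 : v / K t < k - 3 := (Nat.div_lt_iff_lt_mul hK).2 hv
  have h2 : v % K t < K t := Nat.mod_lt _ hK
  have h3 := comb hA (k := k) (j := v / K t) (v := v % K t) (by omega) h2.le
  have e : v / K t * K t + v % K t = v := by rw [mul_comm]; exact Nat.div_add_mod v (K t)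
  rwa [e] at h3

lemma base : PA 2 ∧ PB 2 := by
  have m0 : 9 ∈ E 2 := pow3_mem 2
  have e1 : 9 ∈ E 1 := id_mem 1
  have e0 : 3 ∈ E 1 := pow3_mem 1
  have m1 : 15 ∈ E 2 := sum3 1 e1 e0 e0
  have m2 : 21 ∈ E 2 := sum3 1 e1 e1 e0
  have m3 : 27 ∈ E 2 := sum3 1 e1 e1 e1
  have hm : ∀ a, a ≤ 3 → 9 + 6 * a ∈ E 2 := by
    intro a ha
    interval_cases a
    · exact m0
    · exact m1
    · exact m2
    · exact m3
  have K2 : K 2 = 12 := rfl
  constructor
  · intro v hv
    rw [K2] at hv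
    refine ⟨9 + 6 * (min v 3), hm _ (min_le_right _ _), _,
      ⟨9 + 6 * (min (v - 3) 3), hm _ (min_le_right _ _), _,
      ⟨9 + 6 * (min (v - 6) 3), hm _ (min_le_right _ _), _,
      ⟨9 + 6 * (min (v - 9) 3), hm _ (min_le_right _ _), 0, rfl, rfl⟩, rfl⟩, rfl⟩, ?_⟩
    omega
  · intro v hv
    have h9 : v ≤ 9 := hv
    refine ⟨9 + 6 * (min v 3), hm _ (min_le_right _ _), _,
      ⟨9 + 6 * (min (v - 3) 3), hm _ (min_le_right _ _), _,
      ⟨9 + 6 * (min (v - 6) 3), hm _ (min_le_right _ _), 0, rfl, rfl⟩, rfl⟩, ?_⟩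
    omega

lemma pow_lt (t : ℕ) (ht : 2 ≤ t) : 3 ^ (t + 1) < 6 * K t := by
  have h1 := K_eq t
  have h2 : 9 ^ t = 3 ^ t * 3 ^ t := by rw [← mul_pow]; norm_num
  have h3 : 9 ≤ 3 ^ t := by
    calc 9 = 3 ^ 2 := by norm_num
      _ ≤ 3 ^ t := Nat.pow_le_pow_right (by norm_num) ht
  have h4 : 9 * 3 ^ t ≤ 3 ^ t * 3 ^ t := Nat.mul_le_mul_right _ h3
  have h5 : 3 ^ (t + 1) = 3 * 3 ^ t := by ring
  omega

lemma K_pos (t : ℕ) (ht : 2 ≤ t) : 0 < K t := by
  have := pow_lt t ht
  have h2 : 0 < 3 ^ (t + 1) := by positivity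
  omega

lemma PAB (t : ℕ) (ht : 2 ≤ t) : PA t ∧ PB t := by
  induction t, ht using Nat.le_induction with
  | base => exact base
  | succ t ht ih =>
    obtain ⟨hA, hB⟩ := ih
    have hK := K_pos t ht
    constructor
    · intro v hv
      have hKs : K (t + 1) = 9 * K t + 3 ^ t := rfl
      rw [hKs] at hv
      apply R_step
      have e : 4 * 3 ^ (t + 1) = 12 * 3 ^ t := by ring
      rw [e]
      rcases lt_or_ge v (9 * K t) with h | h
      · exact cover hA hK (by norm_num) h
      · obtain ⟨v', rfl⟩ := Nat.exists_eq_add_of_le h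
        have h1 := R_add t (R_rep t (id_mem t) 9) (hB v' (by omega))
        have e2 : 9 * 9 ^ t + (3 * 3 ^ t + 6 * v') = 12 * 3 ^ t + 6 * (9 * K t + v') := by
          rw [K_eq t]; ring
        rwa [e2] at h1
    · intro v hv
      apply R_step
      have e : 3 * 3 ^ (t + 1) = 9 * 3 ^ t := by ring
      rw [e]
      apply cover hA hK (by norm_num)
      have := pow_lt t ht
      show v < 6 * K t
      omega

lemma mem_E (t : ℕ) (ht : 2 ≤ t) (v : ℕ) (hv : v < 6 * K t) : 9 * 3 ^ t + 6 * v ∈ E (t + 2) := by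
  have h1 : R t 9 (9 * 3 ^ t + 6 * v) := cover (PAB t ht).1 (K_pos t ht) (by norm_num) hv
  have h2 : R (t + 1) 3 (9 * 3 ^ t + 6 * v) := R_step t 3 _ h1
  have h3 : R (t + 2) 1 (9 * 3 ^ t + 6 * v) := R_step (t + 1) 1 _ h2
  exact R_one _ h3

lemma finE (t : ℕ) : (E t).Finite := by
  apply (Set.finite_Iic (9 ^ t)).subset
  rintro _ ⟨φ, rfl⟩
  rw [Set.mem_Iic, ← card_W, ← Set.ncard_univ]
  exact Set.ncard_le_ncard (Set.subset_univ _) (Set.toFinite _)

lemma many (t : ℕ) (ht : 2 ≤ t) : 6 * K t ≤ (E (t + 2)).ncard := by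
  have h1 : ((fun v => 9 * 3 ^ t + 6 * v) '' (Set.Iio (6 * K t))) ⊆ E (t + 2) := by
    rintro _ ⟨v, hv, rfl⟩
    exact mem_E t ht v hv
  have h2 := Set.ncard_le_ncard h1 (finE _)
  rw [Set.ncard_image_of_injective _ (fun a b h => by simpa using h)] at h2
  have h3 : (Set.Iio (6 * K t)).ncard = 6 * K t := by
    rw [← Finset.coe_Iio, Set.ncard_coe_finset, Nat.card_Iio]
  omega

end Rank

section Transfer

theorem final :
    ¬ (∃ f : ℕ → ℕ,
      Filter.Tendsto (fun n : ℕ => (f n : ℝ) / (n : ℝ)) Filter.atTop (nhds 0) ∧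
      ∀ (n : ℕ) (G : SimpleGraph (Fin n)), G ≠ ⊥ →
        (∀ x y : Fin n, ∃ φ : G ≃g G, φ x = y) →
        (∀ B : Set (Fin n),
          (∀ φ : G ≃g G, (⇑φ) '' B = B ∨ Disjoint ((⇑φ) '' B) B) →
            B.Subsingleton ∨ B = Set.univ) →
        (Set.range (fun φ : G →g G => (Set.range (⇑φ)).ncard)).ncard ≤ f n) := by
  rintro ⟨f, hf, H⟩
  have key : ∀ t, 2 ≤ t → 6 * K t ≤ f (9 ^ (t + 2)) := by
    intro t ht
    refine (many t ht).trans ?_
    obtain ⟨e⟩ : Nonempty (W (t + 2) ≃ Fin (9 ^ (t + 2))) := by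
      have h := Fintype.card_eq.1 (show Fintype.card (W (t + 2)) = Fintype.card (Fin (9 ^ (t + 2))) by
        rw [← Nat.card_eq_fintype_card, card_W, Fintype.card_fin])
      exact h
    obtain ⟨G, hG⟩ : ∃ G, G = (Gam (t + 2)).map e.toEmbedding := ⟨_, rfl⟩
    obtain ⟨φ⟩ : Nonempty (Gam (t + 2) ≃g G) := by rw [hG]; exact ⟨SimpleGraph.Iso.map e _⟩
    have hne : G ≠ ⊥ := by
      intro hbot
      have h1 : (Gam (t + 2)).Adj (fun _ => row 0) (fun _ => row 1) := ⟨0, A_row (by decide)⟩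
      have h2 : G.Adj (φ (fun _ => row 0)) (φ (fun _ => row 1)) := (φ.map_adj_iff).2 h1
      have h3 : ∀ x y, ¬ G.Adj x y := by
        intro x y h
        rw [hbot] at h
        exact h
      exact h3 _ _ h2
    have htr : ∀ x y : Fin (9 ^ (t + 2)), ∃ ψ : G ≃g G, ψ x = y := by
      intro x y
      obtain ⟨α, hα⟩ := trans (φ.symm x) (φ.symm y)
      refine ⟨(φ.symm.trans α).trans φ, ?_⟩
      show φ (α (φ.symm x)) = y
      rw [hα]
      exact φ.apply_symm_apply y
    have hpr : ∀ B : Set (Fin (9 ^ (t + 2))),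
          (∀ ψ : G ≃g G, (⇑ψ) '' B = B ∨ Disjoint ((⇑ψ) '' B) B) →
            B.Subsingleton ∨ B = Set.univ := by
      intro B hB
      have hsymm : φ '' (φ.symm '' B) = B := by
        rw [Set.image_image]
        simp
      have h1 := prim (φ.symm '' B) (by
        intro α
        have himg : (⇑((φ.symm.trans α).trans φ)) '' B = φ '' (α '' (φ.symm '' B)) := by
          rw [Set.image_image, Set.image_image]
          rfl
        rcases hB ((φ.symm.trans α).trans φ) with h | h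
        · left
          rw [himg] at h
          apply Set.image_injective.2 φ.injective
          rw [h, hsymm]
        · right
          rw [himg] at h
          rw [← Set.disjoint_image_iff φ.injective, hsymm]
          exact h)
      rcases h1 with h1 | h1
      · left
        exact Set.subsingleton_of_image φ.symm.injective B h1
      · right
        rw [← hsymm, h1, Set.image_univ]
        exact φ.surjective.range_eq
    refine le_trans (le_of_eq ?_) (H _ G hne htr hpr)
    congr 1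
    ext x
    constructor
    · rintro ⟨g, rfl⟩
      refine ⟨(φ.toHom.comp g).comp φ.symm.toHom, ?_⟩
      show (Set.range (fun z => φ (g (φ.symm z)))).ncard = (Set.range g).ncard
      have h1 : Set.range (fun z => φ (g (φ.symm z))) = φ '' Set.range g := by
        ext y
        simp only [Set.mem_range, Set.mem_image, exists_exists_eq_and]
        constructor
        · rintro ⟨z, rfl⟩
          exact ⟨φ.symm z, rfl⟩
        · rintro ⟨w, rfl⟩
          exact ⟨φ w, by simp⟩
      rw [h1, Set.ncard_image_of_injective _ φ.injective]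
    · rintro ⟨g, rfl⟩
      refine ⟨(φ.symm.toHom.comp g).comp φ.toHom, ?_⟩
      show (Set.range (fun z => φ.symm (g (φ z)))).ncard = (Set.range g).ncard
      have h1 : Set.range (fun z => φ.symm (g (φ z))) = φ.symm '' Set.range g := by
        ext y
        simp only [Set.mem_range, Set.mem_image, exists_exists_eq_and]
        constructor
        · rintro ⟨z, rfl⟩
          exact ⟨φ z, rfl⟩
        · rintro ⟨w, rfl⟩
          exact ⟨φ.symm w, by simp⟩
      rw [h1, Set.ncard_image_of_injective _ φ.symm.injective]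
  have h1 := hf.eventually (gt_mem_nhds (show (0 : ℝ) < 1 / 100 by norm_num))
  obtain ⟨N, hN⟩ := Filter.eventually_atTop.1 h1
  have ht : 2 ≤ N + 2 := by omega
  have h2 : N ≤ 9 ^ (N + 2 + 2) := by
    have h3 : N + 2 + 2 < 9 ^ (N + 2 + 2) := Nat.lt_pow_self (by norm_num)
    omega
  have h3 := hN _ h2
  have h4 := key (N + 2) ht
  have h5 := K_eq (N + 2)
  have h6 : 9 * 3 ^ (N + 2) ≤ 9 ^ (N + 2) := by
    have e1 : 9 ^ (N + 2) = 3 ^ (N + 2) * 3 ^ (N + 2) := by rw [← mul_pow]; norm_num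
    have e2 : 9 ≤ 3 ^ (N + 2) := by
      calc 9 = 3 ^ 2 := by norm_num
        _ ≤ 3 ^ (N + 2) := Nat.pow_le_pow_right (by norm_num) ht
    rw [e1]
    exact Nat.mul_le_mul_right _ e2
  have h7 : 9 ^ (N + 2 + 2) ≤ 100 * f (9 ^ (N + 2 + 2)) := by
    have e1 : 9 ^ (N + 2 + 2) = 81 * 9 ^ (N + 2) := by ring
    have e2 : 81 * 9 ^ (N + 2) ≤ 100 * (6 * K (N + 2)) := by omega
    calc 9 ^ (N + 2 + 2) = 81 * 9 ^ (N + 2) := e1
      _ ≤ 100 * (6 * K (N + 2)) := e2
      _ ≤ 100 * f (9 ^ (N + 2 + 2)) := Nat.mul_le_mul_left _ h4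
  have hpos : (0 : ℝ) < ((9 ^ (N + 2 + 2) : ℕ) : ℝ) := by positivity
  rw [div_lt_iff₀ hpos] at h3
  have h8 : ((9 ^ (N + 2 + 2) : ℕ) : ℝ) ≤ 100 * (f (9 ^ (N + 2 + 2)) : ℝ) := by exact_mod_cast h7
  linarith

end Transfer

end NN


/-- The negation of the preceding statement: There is a function f with f(n)/n → 0 such that every non-null finite simple graph on n vertices with vertex-primitive automorphism group has at most f(n) distinct image sizes among its endomorphisms. -/
theorem result :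
    ¬ (∃ f : ℕ → ℕ,
      Filter.Tendsto (fun n : ℕ => (f n : ℝ) / (n : ℝ)) Filter.atTop (nhds 0) ∧
      ∀ (n : ℕ) (G : SimpleGraph (Fin n)), G ≠ ⊥ →
        (∀ x y : Fin n, ∃ φ : G ≃g G, φ x = y) →
        (∀ B : Set (Fin n),
          (∀ φ : G ≃g G, (⇑φ) '' B = B ∨ Disjoint ((⇑φ) '' B) B) →
            B.Subsingleton ∨ B = Set.univ) →
        (Set.range (fun φ : G →g G => (Set.range (⇑φ)).ncard)).ncard ≤ f n) := by
  exact NN.final

end Pool.Agent.S06572
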