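import Pool.Statements.S06574
import Pool.Agent.Helper658.BallCover
import Pool.Agent.Helper658.CountCells

set_option autoImplicit false
open MeasureTheory
open Pool Pool.MP_9ad55e_co

namespace Pool.Agent.S06574

/-- The negation of the preceding statement: In every dimension, any covering of space by convex bodies of diameter at most 1 has lower asymptotic count-per-volume at least the infimum of that quantity over all coverings by balls of diameter 1. -/
theorem result :
    ¬ (∀ d : ℕ, 1 ≤ d → ∀ C : Set (Set (EuclideanSpace ℝ (Fin d))),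
    (∀ K ∈ C, IsCompact K ∧ Convex ℝ K ∧ (interior K).Nonempty ∧ Metric.diam K ≤ 1) →
    ⋃₀ C = Set.univ →
    (⨅ (B : Set (Set (EuclideanSpace ℝ (Fin d))))
        (_ : (∀ S ∈ B, ∃ x : EuclideanSpace ℝ (Fin d), S = Metric.closedBall x (1/2 : ℝ)) ∧
              ⋃₀ B = Set.univ),
      Filter.liminf
        (fun r : ℝ =>
          ((({S ∈ B | S ⊆ Metric.closedBall (0 : EuclideanSpace ℝ (Fin d)) r}.encard : ℕ∞) : ENNReal)) /
            volume (Metric.closedBall (0 : EuclideanSpace ℝ (Fin d)) r))
        Filter.atTop)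
    ≤ Filter.liminf
        (fun r : ℝ =>
          ((({K ∈ C | K ⊆ Metric.closedBall (0 : EuclideanSpace ℝ (Fin d)) r}.encard : ℕ∞) : ENNReal)) /
            volume (Metric.closedBall (0 : EuclideanSpace ℝ (Fin d)) r))
        Filter.atTop) := by
  intro h
  have h2 := h 2 (by norm_num) Pool.Agent.Helper658.Tiling.C (by
    rintro K ⟨i, m, n, rfl⟩
    exact ⟨Pool.Agent.Helper658.Tiling.cell_compact i m n,
      Pool.Agent.Helper658.Tiling.cell_convex i m n,
      Pool.Agent.Helper658.Tiling.cell_interior i m n,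
      Pool.Agent.Helper658.Tiling.cell_diam i m n⟩) (by
    rw [Set.eq_univ_iff_forall]
    intro x
    obtain ⟨i, m, n, hx⟩ := Pool.Agent.Helper658.Tiling.cell_cover x
    exact ⟨_, ⟨i, m, n, rfl⟩, hx⟩)
  have h3 : ENNReal.ofReal 1.53 ≤ ENNReal.ofReal 1.529 := by
    refine le_trans ?_ (h2.trans Pool.Agent.Helper658.Tiling.C_liminf)
    refine le_iInf fun B => le_iInf fun hB => ?_
    exact Pool.Agent.Helper658.ball_cover_liminf B hB.1 hB.2
  rw [ENNReal.ofReal_le_ofReal_iff (by norm_num)] at h3
  norm_num at h3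

end Pool.Agent.S06574
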