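import Pool.Statements.S06575

set_option autoImplicit false
open Pool Pool.MP_9adbbc_co

namespace Pool.Agent.S06575

section helpers

open Finset
open scoped Pointwise

section additive

variable {G : Type} [AddCommGroup G] [Fintype G] [DecidableEq G]

/-- Scherk's theorem. -/
theorem scherk : ∀ (n : ℕ) (A B : Finset G), B.card = n → (0 : G) ∈ A → (0 : G) ∈ B →
    (∀ a ∈ A, ∀ b ∈ B, a + b = 0 → a = 0 ∧ b = 0) → A.card + B.card ≤ (A + B).card + 1 := by
  intro n
  induction n using Nat.strong_induction_on with
  | _ n ih =>
    intro A B hB hA0 hB0 huniq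
    by_cases hBtriv : ∀ b ∈ B, b = 0
    · have : B = {0} := by
        ext b
        simp only [mem_singleton]
        exact ⟨hBtriv b, fun h => h ▸ hB0⟩
      subst this
      simp
    push Not at hBtriv
    obtain ⟨b, hb, hb0⟩ := hBtriv
    -- some a + b' is not in A
    have hex : ∃ a ∈ A, ∃ b' ∈ B, a + b' ∉ A := by
      by_contra hcon
      push Not at hcon
      have hmul : ∀ k : ℕ, k • b ∈ A := by
        intro k
        induction k with
        | zero => simpa using hA0
        | succ k ihk =>
          rw [succ_nsmul]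
          exact hcon _ ihk b hb
      have hpos : 0 < addOrderOf b := addOrderOf_pos b
      have h1 : (addOrderOf b - 1) • b + b = 0 := by
        rw [← succ_nsmul, Nat.sub_add_cancel hpos, addOrderOf_nsmul_eq_zero]
      exact hb0 (huniq _ (hmul _) b hb h1).2
    obtain ⟨a, ha, b', hb', hab⟩ := hex
    set A' := A ∪ B.image (fun y => y + a) with hA'
    set B' := B.filter (fun y => y + a ∈ A) with hB'
    have hB'0 : (0 : G) ∈ B' := by
      rw [hB', mem_filter]
      exact ⟨hB0, by simpa using ha⟩
    have hcard : A'.card + B'.card = A.card + B.card := by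
      have h1 : (B.image (fun y => y + a)).card = B.card :=
        Finset.card_image_of_injective _ (add_left_injective a)
      have h2 : (A ∩ B.image (fun y => y + a)).card = B'.card := by
        have : A ∩ B.image (fun y => y + a) = B'.image (fun y => y + a) := by
          ext z
          simp only [mem_inter, mem_image, hB', mem_filter]
          constructor
          · rintro ⟨hz, y, hy, rfl⟩
            exact ⟨y, ⟨hy, hz⟩, rfl⟩
          · rintro ⟨y, ⟨hy, hz⟩, rfl⟩
            exact ⟨hz, y, hy, rfl⟩
        rw [this]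
        exact Finset.card_image_of_injective _ (add_left_injective a)
      have h3 := Finset.card_union_add_card_inter A (B.image (fun y => y + a))
      rw [h2, h1] at h3
      exact h3
    have hsub : A' + B' ⊆ A + B := by
      intro z hz
      obtain ⟨x, hx, y, hy, rfl⟩ := Finset.mem_add.mp hz
      rw [hB', mem_filter] at hy
      rcases Finset.mem_union.mp hx with hx | hx
      · exact Finset.add_mem_add hx hy.1
      · obtain ⟨b₁, hb₁, rfl⟩ := Finset.mem_image.mp hx
        have : b₁ + a + y = (y + a) + b₁ := by abel
        rw [this]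
        exact Finset.add_mem_add hy.2 hb₁
    have hlt : B'.card < n := by
      rw [← hB]
      apply Finset.card_lt_card
      rw [Finset.ssubset_iff_of_subset (Finset.filter_subset _ _)]
      refine ⟨b', hb', ?_⟩
      rw [mem_filter]
      rintro ⟨_, h⟩
      rw [add_comm] at h
      exact hab h
    have huniq' : ∀ x ∈ A', ∀ y ∈ B', x + y = 0 → x = 0 ∧ y = 0 := by
      intro x hx y hy hxy
      rw [hB', mem_filter] at hy
      rcases Finset.mem_union.mp hx with hx | hx
      · exact huniq x hx y hy.1 hxy
      · obtain ⟨b₁, hb₁, rfl⟩ := Finset.mem_image.mp hx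
        have h1 : (y + a) + b₁ = 0 := by
          rw [← hxy]; abel
        obtain ⟨h2, h3⟩ := huniq _ hy.2 _ hb₁ h1
        have h4 : a + y = 0 := by rw [add_comm]; exact h2
        obtain ⟨h5, h6⟩ := huniq a ha y hy.1 h4
        subst h3 h5 h6
        simp
    have := ih B'.card hlt A' B' rfl (Finset.mem_union_left _ hA0) hB'0 huniq'
    have h2 := Finset.card_le_card hsub
    omega

theorem exists_enum {ι : Type} [DecidableEq ι] (F : Finset ι) :
    ∃ e : ι → ℕ, (∀ i ∈ F, e i < F.card) ∧ Set.InjOn e F := by
  induction F using Finset.induction_on with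
  | empty => exact ⟨fun _ => 0, by simp, by simp⟩
  | insert a F ha ih =>
    obtain ⟨e, h1, h2⟩ := ih
    refine ⟨fun i => if i = a then F.card else e i, ?_, ?_⟩
    · intro i hi
      rw [card_insert_of_notMem ha]
      by_cases hia : i = a
      · simp [hia]
      · have : i ∈ F := by
          rcases mem_insert.mp hi with h | h
          · exact absurd h hia
          · exact h
        have := h1 i this
        simp only [hia, if_false]
        omega
    · intro i hi j hj hij
      simp only [coe_insert, Set.mem_insert_iff, mem_coe] at hi hj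
      by_cases hia : i = a
      · by_cases hja : j = a
        · rw [hia, hja]
        · have hjF : j ∈ F := by
            rcases hj with h | h
            · exact absurd h hja
            · exact h
          simp only [hia, if_true, hja, if_false] at hij
          have := h1 j hjF
          omega
      · have hiF : i ∈ F := by
          rcases hi with h | h
          · exact absurd h hia
          · exact h
        by_cases hja : j = a
        · simp only [hia, if_false, hja, if_true] at hij
          have := h1 i hiF
          omega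
        · have hjF : j ∈ F := by
            rcases hj with h | h
            · exact absurd h hja
            · exact h
          simp only [hia, if_false, hja] at hij
          exact h2 hiF hjF hij

/-- Gao's theorem: a sequence of length at least the order of the group, with multiplicities at
most `h`, has a nonempty zero-sum subsequence of length at most `h`. -/
theorem gao {ι : Type} [DecidableEq ι] (K : AddSubgroup G) (I : Finset ι) (f : ι → G)
    (hK : ∀ i ∈ I, f i ∈ K) (h : ℕ) (hmult : ∀ x, (I.filter (fun i => f i = x)).card ≤ h)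
    (hcard : Nat.card K ≤ I.card) :
    ∃ J ⊆ I, J.Nonempty ∧ J.card ≤ h ∧ ∑ i ∈ J, f i = 0 := by
  by_contra hcon
  push Not at hcon
  -- layers
  have hen : ∀ x : G, ∃ e : ι → ℕ, (∀ i ∈ I.filter (fun i => f i = x), e i
      < (I.filter (fun i => f i = x)).card) ∧ Set.InjOn e (I.filter (fun i => f i = x)) :=
    fun x => exists_enum _
  choose e he1 he2 using hen
  set lay : ι → ℕ := fun i => e (f i) i with hlay
  have hlt : ∀ i ∈ I, lay i < h := by
    intro i hi
    exact lt_of_lt_of_le (he1 (f i) i (by simp [hi])) (hmult _)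
  have hinj : ∀ i ∈ I, ∀ j ∈ I, f i = f j → lay i = lay j → i = j := by
    intro i hi j hj hf hl
    simp only [hlay] at hl
    rw [hf] at hl
    exact he2 (f j) (by simp [hi, hf]) (by simp [hj]) hl
  have h1pos : ∀ i ∈ I, 1 ≤ h := fun i hi => by
    have := hlt i hi
    omega
  have hne : ∀ i ∈ I, f i ≠ 0 := by
    intro i hi h0
    exact hcon {i} (by simpa using hi) (by simp) (by simpa using h1pos i hi) (by simpa using h0)
  set F : ℕ → Finset (Finset ι) := fun j =>
    I.powerset.filter (fun J => (∀ i ∈ J, lay i < j) ∧ ∀ i ∈ J, ∀ i' ∈ J, lay i = lay i' → i = i')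
    with hF
  set S : ℕ → Finset G := fun j => (F j).image (fun J => ∑ i ∈ J, f i) with hS
  have hFcard : ∀ j, ∀ J ∈ F j, J.card ≤ j := by
    intro j J hJ
    simp only [hF, mem_filter, mem_powerset] at hJ
    have : J.card ≤ (range j).card := by
      refine Finset.card_le_card_of_injOn lay ?_ ?_
      · intro i hi
        simpa using hJ.2.1 i hi
      · intro i hi i' hi' hl
        exact hJ.2.2 i hi i' hi' hl
    simpa using this
  have h0S : ∀ j, (0 : G) ∈ S j := by
    intro j
    simp only [hS, mem_image]
    exact ⟨∅, by simp [hF], by simp⟩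
  have key : ∀ j ≤ h, 1 + (I.filter (fun i => lay i < j)).card ≤ (S j).card := by
    intro j
    induction j with
    | zero =>
      intro _
      have : 0 < (S 0).card := Finset.card_pos.mpr ⟨0, h0S 0⟩
      simp only [not_lt_zero, filter_false, card_empty]
      omega
    | succ j ihj =>
      intro hj
      have ih := ihj (by omega)
      set L := I.filter (fun i => lay i = j) with hL
      set B := insert (0 : G) (L.image f) with hB
      have hLinj : Set.InjOn f L := by
        intro i hi i' hi' hf
        simp only [hL, coe_filter, Set.mem_ofPred_eq] at hi hi'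
        exact hinj i hi.1 i' hi'.1 hf (hi.2.trans hi'.2.symm)
      have h0L : (0 : G) ∉ L.image f := by
        intro h0
        obtain ⟨i, hi, hfi⟩ := Finset.mem_image.mp h0
        exact hne i (Finset.mem_of_mem_filter _ hi) hfi
      have hBcard : B.card = L.card + 1 := by
        rw [hB, card_insert_of_notMem h0L, Finset.card_image_of_injOn hLinj]
      have hsub : S j + B ⊆ S (j + 1) := by
        intro z hz
        obtain ⟨x, hx, y, hy, rfl⟩ := Finset.mem_add.mp hz
        simp only [hS, mem_image] at hx ⊢
        obtain ⟨J, hJ, rfl⟩ := hx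
        simp only [hF, mem_filter, mem_powerset] at hJ
        rcases Finset.mem_insert.mp hy with rfl | hy
        · refine ⟨J, ?_, by simp⟩
          simp only [hF, mem_filter, mem_powerset]
          exact ⟨hJ.1, fun i hi => (hJ.2.1 i hi).trans (Nat.lt_succ_self j), hJ.2.2⟩
        · obtain ⟨i₀, hi₀, rfl⟩ := Finset.mem_image.mp hy
          simp only [hL, mem_filter] at hi₀
          have hi₀J : i₀ ∉ J := fun hmem => by
            have := hJ.2.1 i₀ hmem
            omega
          refine ⟨insert i₀ J, ?_, ?_⟩
          · simp only [hF, mem_filter, mem_powerset]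
            refine ⟨?_, ?_, ?_⟩
            · intro i hi
              rcases Finset.mem_insert.mp hi with rfl | hi
              · exact hi₀.1
              · exact hJ.1 hi
            · intro i hi
              rcases Finset.mem_insert.mp hi with rfl | hi
              · omega
              · exact (hJ.2.1 i hi).trans (Nat.lt_succ_self j)
            · intro i hi i' hi' hl
              rcases Finset.mem_insert.mp hi with h3 | h3
              · rcases Finset.mem_insert.mp hi' with h4 | h4
                · rw [h3, h4]
                · have := hJ.2.1 i' h4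
                  rw [h3] at hl
                  omega
              · rcases Finset.mem_insert.mp hi' with h4 | h4
                · have := hJ.2.1 i h3
                  rw [h4] at hl
                  omega
                · exact hJ.2.2 i h3 i' h4 hl
          · rw [Finset.sum_insert hi₀J, add_comm]
      have huniq : ∀ a ∈ S j, ∀ b ∈ B, a + b = 0 → a = 0 ∧ b = 0 := by
        intro a ha b hb hab
        by_cases hb0 : b = 0
        · subst hb0
          exact ⟨by simpa using hab, rfl⟩
        · exfalso
          have hbL : b ∈ L.image f := by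
            rcases Finset.mem_insert.mp hb with h3 | h3
            · exact absurd h3 hb0
            · exact h3
          obtain ⟨i₀, hi₀, rfl⟩ := Finset.mem_image.mp hbL
          simp only [hL, mem_filter] at hi₀
          simp only [hS, mem_image] at ha
          obtain ⟨J, hJ, rfl⟩ := ha
          have hJc := hFcard j J hJ
          simp only [hF, mem_filter, mem_powerset] at hJ
          have hi₀J : i₀ ∉ J := fun hmem => by
            have := hJ.2.1 i₀ hmem
            omega
          refine hcon (insert i₀ J) ?_ (by simp) ?_ ?_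
          · intro i hi
            rcases Finset.mem_insert.mp hi with rfl | hi
            · exact hi₀.1
            · exact hJ.1 hi
          · rw [card_insert_of_notMem hi₀J]
            omega
          · rw [Finset.sum_insert hi₀J, add_comm]
            exact hab
      have hsch := scherk B.card (S j) B rfl (h0S j) (by simp [hB]) huniq
      have hle := Finset.card_le_card hsub
      have hsplit : (I.filter (fun i => lay i < j + 1)).card
          = (I.filter (fun i => lay i < j)).card + L.card := by
        rw [hL, ← Finset.card_union_of_disjoint]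
        · congr 1
          ext i
          simp only [mem_filter, mem_union]
          constructor
          · rintro ⟨h3, h4⟩
            rcases Nat.lt_or_ge (lay i) j with h5 | h5
            · exact Or.inl ⟨h3, h5⟩
            · exact Or.inr ⟨h3, by omega⟩
          · rintro (⟨h3, h4⟩ | ⟨h3, h4⟩)
            · exact ⟨h3, by omega⟩
            · exact ⟨h3, by omega⟩
        · rw [Finset.disjoint_left]
          intro i hi hi'
          simp only [mem_filter] at hi hi'
          omega
      omega
  have hfin := key h le_rfl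
  have hall : I.filter (fun i => lay i < h) = I := by
    rw [Finset.filter_eq_self]
    exact hlt
  rw [hall] at hfin
  have hSK : (S h).card ≤ Nat.card K := by
    have : ((S h : Finset G) : Set G) ⊆ (K : Set G) := by
      intro z hz
      simp only [hS, coe_image, Set.mem_image, mem_coe] at hz
      obtain ⟨J, hJ, rfl⟩ := hz
      simp only [hF, mem_filter, mem_powerset] at hJ
      exact K.sum_mem fun i hi => hK i (hJ.1 hi)
    have h2 := Set.ncard_le_ncard this (Set.toFinite _)
    rw [Set.ncard_coe_finset] at h2
    exact h2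
  omega

theorem fill {ι : Type} [DecidableEq ι] (K : AddSubgroup G) (I : Finset ι) (f : ι → G)
    (hK : ∀ i ∈ I, f i ∈ K) (h : ℕ) (hmult : ∀ x, (I.filter (fun i => f i = x)).card ≤ h)
    (hZ : (I.filter (fun i => f i = 0)).card = h) (l : ℕ)
    (hI : l + Nat.card K ≤ I.card + 1) :
    ∀ (n : ℕ) (X : Finset ι), X ⊆ I.filter (fun i => f i ≠ 0) → X.card ≤ l → l - X.card = n →
      ∃ J ⊆ I, J.card = l ∧ ∑ i ∈ J, f i = ∑ i ∈ X, f i := by
  intro n
  induction n using Nat.strong_induction_on with
  | _ n ih =>
    intro X hX hXl hn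
    have hXI : X ⊆ I := hX.trans (Finset.filter_subset _ _)
    rcases Nat.lt_or_ge h n with hlt | hge
    · -- use a short zero-sum block
      have hsplit : (I.filter (fun i => f i = 0)).card + (I.filter (fun i => f i ≠ 0)).card
          = I.card := Finset.card_filter_add_card_filter_not _
      have hW : (I.filter (fun i => f i ≠ 0) \ X).card
          = (I.filter (fun i => f i ≠ 0)).card - X.card := Finset.card_sdiff_of_subset hX
      obtain ⟨J₀, hJ₀, hne, hcard, hsum⟩ := gao K (I.filter (fun i => f i ≠ 0) \ X) f
        (fun i hi => hK i (Finset.mem_of_mem_filter _ (Finset.mem_sdiff.mp hi).1)) h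
        (fun x => (Finset.card_le_card (Finset.filter_subset_filter _
          (Finset.sdiff_subset.trans (Finset.filter_subset _ _)))).trans (hmult x)) (by omega)
      have hdisj : Disjoint X J₀ := by
        rw [Finset.disjoint_right]
        intro i hi
        exact (Finset.mem_sdiff.mp (hJ₀ hi)).2
      have hpos : 0 < J₀.card := Finset.card_pos.mpr hne
      have hc : (X ∪ J₀).card = X.card + J₀.card := Finset.card_union_of_disjoint hdisj
      obtain ⟨J, hJ, hJc, hJs⟩ := ih (l - (X ∪ J₀).card) (by omega) (X ∪ J₀)
        (Finset.union_subset hX (hJ₀.trans Finset.sdiff_subset)) (by omega) rfl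
      refine ⟨J, hJ, hJc, ?_⟩
      rw [hJs, Finset.sum_union hdisj, hsum, add_zero]
    · obtain ⟨Z, hZs, hZc⟩ := Finset.exists_subset_card_eq
        (show n ≤ (I.filter (fun i => f i = 0)).card by omega)
      have hdisj : Disjoint X Z := by
        rw [Finset.disjoint_left]
        intro i hi hi'
        exact (Finset.mem_filter.mp (hX hi)).2 (Finset.mem_filter.mp (hZs hi')).2
      refine ⟨X ∪ Z, Finset.union_subset hXI (hZs.trans (Finset.filter_subset _ _)), ?_, ?_⟩
      · rw [Finset.card_union_of_disjoint hdisj, hZc]
        omega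
      · rw [Finset.sum_union hdisj]
        have : ∑ i ∈ Z, f i = 0 :=
          Finset.sum_eq_zero fun i hi => (Finset.mem_filter.mp (hZs hi)).2
        rw [this, add_zero]

/-- Subset sums. -/
def Sg {ι : Type} (f : ι → G) (T : Finset ι) : Finset G :=
  T.powerset.image (fun J => ∑ i ∈ J, f i)

theorem mem_Sg {ι : Type} (f : ι → G) (T : Finset ι) (x : G) :
    x ∈ Sg f T ↔ ∃ J ⊆ T, ∑ i ∈ J, f i = x := by
  simp only [Sg, mem_image, mem_powerset]

/-- The stabilizer of a finite set. -/
def stab (S : Finset G) : AddSubgroup G where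
  carrier := {g | ∀ x, x ∈ S → g + x ∈ S}
  zero_mem' := by
    intro x hx
    simpa using hx
  add_mem' := by
    intro a b ha hb x hx
    rw [add_assoc]
    exact ha _ (hb _ hx)
  neg_mem' := by
    intro g hg x hx
    have hmul : ∀ k : ℕ, k • g + x ∈ S := by
      intro k
      induction k with
      | zero => simpa using hx
      | succ k ihk =>
        have : (k + 1) • g + x = g + (k • g + x) := by
          rw [succ_nsmul]
          abel
        rw [this]
        exact hg _ ihk
    have hpos : 0 < addOrderOf g := addOrderOf_pos g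
    have h1 : (addOrderOf g - 1) • g + g = 0 := by
      rw [← succ_nsmul, Nat.sub_add_cancel hpos, addOrderOf_nsmul_eq_zero]
    have h2 : (addOrderOf g - 1) • g = -g := eq_neg_of_add_eq_zero_left h1
    rw [← h2]
    exact hmul _

theorem mem_stab (S : Finset G) (g : G) : g ∈ stab S ↔ ∀ x ∈ S, g + x ∈ S := Iff.rfl

/-- A set closed under adding the subgroup `K`, together with a coset outside of it. -/
theorem card_add_coset (K : AddSubgroup G) (P R : Finset G) (hPR : P ⊆ R)
    (hP : ∀ g ∈ K, ∀ x ∈ P, g + x ∈ P) (y : G) (hy : y ∉ P) (hR : ∀ g ∈ K, g + y ∈ R) :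
    P.card + Nat.card K ≤ R.card := by
  classical
  set C : Finset G := univ.filter (fun x => x - y ∈ K) with hC
  have hCK : C.card = Nat.card K := by
    have h1 : C = (univ.filter (fun x => x ∈ K)).image (fun x => x + y) := by
      ext x
      simp only [hC, mem_filter, mem_univ, true_and, mem_image]
      constructor
      · intro h
        exact ⟨x - y, h, by abel⟩
      · rintro ⟨z, hz, rfl⟩
        simpa using hz
    rw [h1, Finset.card_image_of_injective _ (add_left_injective y)]
    rw [Nat.card_eq_fintype_card, Fintype.card_subtype]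
  have hdisj : Disjoint P C := by
    rw [Finset.disjoint_right]
    intro x hx hxP
    simp only [hC, mem_filter, mem_univ, true_and] at hx
    have := hP _ (K.neg_mem hx) x hxP
    apply hy
    have e : -(x - y) + x = y := by abel
    rwa [e] at this
  have hCR : C ⊆ R := by
    intro x hx
    simp only [hC, mem_filter, mem_univ, true_and] at hx
    have := hR _ hx
    have e : x - y + y = x := by abel
    rwa [e] at this
  rw [← hCK, ← Finset.card_union_of_disjoint hdisj]
  exact Finset.card_le_card (Finset.union_subset hPR hCR)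

theorem sg_lower {ι : Type} [DecidableEq ι] (f : ι → G) (T₁ : Finset ι) (K : AddSubgroup G)
    (hKd : K = stab (Sg f T₁)) [DecidablePred (· ∈ K)] :
    ((T₁.filter (fun i => f i ∉ K)).card + 1) * Nat.card K ≤ (Sg f T₁).card := by
  classical
  -- the K-saturation
  set P : Finset ι → Finset G := fun T => univ.filter (fun x => ∃ y ∈ Sg f T, x - y ∈ K) with hP
  have hPmem : ∀ T x, x ∈ P T ↔ ∃ y ∈ Sg f T, x - y ∈ K := by
    intro T x
    simp [hP]
  have hPK : ∀ T, ∀ g ∈ K, ∀ x ∈ P T, g + x ∈ P T := by
    intro T g hg x hx
    rw [hPmem] at hx ⊢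
    obtain ⟨y, hy, hxy⟩ := hx
    refine ⟨y, hy, ?_⟩
    have : g + x - y = g + (x - y) := by abel
    rw [this]
    exact K.add_mem hg hxy
  have hper : ∀ g ∈ K, ∀ x ∈ Sg f T₁, g + x ∈ Sg f T₁ := by
    intro g hg x hx
    rw [hKd, mem_stab] at hg
    exact hg x hx
  have hPT₁ : P T₁ = Sg f T₁ := by
    ext x
    rw [hPmem]
    constructor
    · rintro ⟨y, hy, hxy⟩
      have := hper _ hxy y hy
      have e : x - y + y = x := by abel
      rwa [e] at this
    · intro hx
      exact ⟨x, hx, by simp⟩
  have key : ∀ T : Finset ι, T ⊆ T₁ →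
      ((T.filter (fun i => f i ∉ K)).card + 1) * Nat.card K ≤ (P T).card := by
    intro T
    induction T using Finset.induction_on with
    | empty =>
      intro _
      have h1 := card_add_coset K ∅ (P ∅) (Finset.empty_subset _) (by simp) 0 (by simp) (by
        intro g hg
        rw [hPmem]
        exact ⟨0, by rw [mem_Sg]; exact ⟨∅, by simp, by simp⟩, by simpa using hg⟩)
      simpa using h1
    | insert i T hiT ih =>
      intro hsub
      have hiT₁ : i ∈ T₁ := hsub (Finset.mem_insert_self _ _)
      have hTT₁ : T ⊆ T₁ := (Finset.subset_insert _ _).trans hsub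
      have ih' := ih hTT₁
      have hmono : P T ⊆ P (insert i T) := by
        intro x hx
        rw [hPmem] at hx ⊢
        obtain ⟨y, hy, hxy⟩ := hx
        refine ⟨y, ?_, hxy⟩
        rw [mem_Sg] at hy ⊢
        obtain ⟨J, hJ, hJs⟩ := hy
        exact ⟨J, hJ.trans (Finset.subset_insert _ _), hJs⟩
      have hadd : ∀ x ∈ P T, f i + x ∈ P (insert i T) := by
        intro x hx
        rw [hPmem] at hx ⊢
        obtain ⟨y, hy, hxy⟩ := hx
        rw [mem_Sg] at hy
        obtain ⟨J, hJ, hJs⟩ := hy
        refine ⟨f i + y, ?_, by simpa using hxy⟩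
        rw [mem_Sg]
        refine ⟨insert i J, Finset.insert_subset_insert _ hJ, ?_⟩
        rw [Finset.sum_insert (fun h => hiT (hJ h)), hJs]
      by_cases hfi : f i ∈ K
      · have : (insert i T).filter (fun i => f i ∉ K) = T.filter (fun i => f i ∉ K) := by
          rw [Finset.filter_insert, if_neg (by simpa using hfi)]
        rw [this]
        exact ih'.trans (Finset.card_le_card hmono)
      · have hcount : ((insert i T).filter (fun i => f i ∉ K)).card
            = (T.filter (fun i => f i ∉ K)).card + 1 := by
          rw [Finset.filter_insert, if_pos hfi, Finset.card_insert_of_notMem]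
          intro h
          exact hiT (Finset.mem_of_mem_filter _ h)
        -- some translate leaves P T
        have hex : ∃ y ∈ P T, f i + y ∉ P T := by
          by_contra hcon
          push Not at hcon
          apply hfi
          rw [hKd, mem_stab]
          intro x hx
          rw [mem_Sg] at hx
          obtain ⟨J, hJ, rfl⟩ := hx
          -- split J
          have hb : ∑ j ∈ J ∩ T, f j ∈ P T := by
            rw [hPmem]
            exact ⟨_, by rw [mem_Sg]; exact ⟨J ∩ T, Finset.inter_subset_right, rfl⟩, by simp⟩
          have hb' := hcon _ hb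
          rw [hPmem] at hb'
          obtain ⟨y, hy, hyK⟩ := hb'
          rw [mem_Sg] at hy
          obtain ⟨J', hJ', rfl⟩ := hy
          have hsum : ∑ j ∈ J, f j = ∑ j ∈ J \ T, f j + ∑ j ∈ J ∩ T, f j := by
            rw [← Finset.sum_sdiff (Finset.inter_subset_left : J ∩ T ⊆ J),
              Finset.sdiff_inter_self_left]
          have hdisj : Disjoint (J \ T) J' := by
            rw [Finset.disjoint_left]
            intro j hj hj'
            exact (Finset.mem_sdiff.mp hj).2 (hJ' hj')
          have h1 : ∑ j ∈ (J \ T) ∪ J', f j ∈ Sg f T₁ := by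
            rw [mem_Sg]
            exact ⟨_, Finset.union_subset (Finset.sdiff_subset.trans hJ) (hJ'.trans hTT₁), rfl⟩
          have h2 := hper _ hyK _ h1
          have e : f i + ∑ j ∈ J ∩ T, f j - ∑ j ∈ J', f j + ∑ j ∈ (J \ T) ∪ J', f j
              = f i + ∑ j ∈ J, f j := by
            rw [Finset.sum_union hdisj, hsum]
            abel
          rwa [e] at h2
        obtain ⟨y, hy, hyn⟩ := hex
        have h3 := card_add_coset K (P T) (P (insert i T)) hmono (hPK T) (f i + y) hyn (by
          intro g hg
          exact hPK _ g hg _ (hadd y hy))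
        rw [hcount]
        calc ((T.filter (fun i => f i ∉ K)).card + 1 + 1) * Nat.card K
            = ((T.filter (fun i => f i ∉ K)).card + 1) * Nat.card K + Nat.card K := by ring
          _ ≤ (P T).card + Nat.card K := Nat.add_le_add_right ih' _
          _ ≤ _ := h3
  have := key T₁ (Finset.Subset.refl _)
  rwa [hPT₁] at this

open Classical in
/-- If the sums of the subsequences of length `l` of a long sequence in a coset of `K` do not
contain all possible values, then almost all the terms lie in a coset of a proper subgroup. -/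
theorem concentrate {ι : Type} (K : AddSubgroup G) (I : Finset ι) (f : ι → G) (a : G)
    (hK : ∀ i ∈ I, f i - a ∈ K) (l : ℕ) (hl : Nat.card K ≤ l + 1)
    (hI : l + Nat.card K ≤ I.card + 1) (t : G) (ht : t - l • a ∈ K)
    (hno : ∀ J ⊆ I, J.card = l → ∑ i ∈ J, f i ≠ t) :
    ∃ K' : AddSubgroup G, K' ≤ K ∧ ∃ a' : G,
      ((I.filter (fun i => f i - a' ∉ K')).card + 2) * Nat.card K' ≤ Nat.card K := by
  have hKpos : 0 < Nat.card K := Nat.card_pos
  -- I is nonempty
  rcases I.eq_empty_or_nonempty with rfl | hne
  · exfalso
    simp only [card_empty] at hI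
    have h0 : l = 0 := by omega
    have h1 : Nat.card K = 1 := by omega
    have h2 : K = ⊥ := AddSubgroup.card_eq_one.mp h1
    subst h0
    apply hno ∅ (Finset.Subset.refl _) rfl
    rw [h2, AddSubgroup.mem_bot, zero_nsmul, sub_zero] at ht
    simp [ht]
  -- a most frequent value
  obtain ⟨i₀, hi₀, hmax⟩ := Finset.exists_max_image I
    (fun i => (I.filter (fun j => f j = f i)).card) hne
  set z := f i₀ with hz
  set f' : ι → G := fun i => f i - z with hf'
  have hf'K : ∀ i ∈ I, f' i ∈ K := by
    intro i hi
    have h1 := K.sub_mem (hK i hi) (hK i₀ hi₀)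
    have e : f i - a - (f i₀ - a) = f i - z := by rw [hz]; abel
    rwa [e] at h1
  set h := (I.filter (fun i => f' i = 0)).card with hh
  have hmult : ∀ x, (I.filter (fun i => f' i = x)).card ≤ h := by
    intro x
    rcases (I.filter (fun i => f' i = x)).eq_empty_or_nonempty with he | ⟨j, hj⟩
    · rw [he]; simp
    · have hjm := Finset.mem_filter.mp hj
      have h1 := hmax j hjm.1
      have e1 : I.filter (fun i => f' i = x) = I.filter (fun i => f i = f j) := by
        ext i
        simp only [mem_filter, hf', and_congr_right_iff]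
        intro _
        have hx : x = f j - z := hjm.2.symm
        rw [hx]
        exact sub_left_inj
      have e2 : I.filter (fun i => f' i = 0) = I.filter (fun i => f i = f i₀) := by
        ext i
        simp only [mem_filter, hf', and_congr_right_iff]
        intro _
        rw [sub_eq_zero]
      rw [hh, e1, e2]
      exact h1
  -- maximal T₁
  set W := I.filter (fun i => f' i ≠ 0) with hW
  obtain ⟨T₁, hT₁, hT₁max⟩ := Finset.exists_max_image
    (W.powerset.filter (fun T => T.card + 1 ≤ (Sg f' T).card)) (fun T => T.card)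
    ⟨∅, by
      rw [mem_filter]
      refine ⟨Finset.empty_mem_powerset _, ?_⟩
      have : 0 < (Sg f' ∅).card := Finset.card_pos.mpr ⟨0, by
        rw [mem_Sg]; exact ⟨∅, by simp, by simp⟩⟩
      simpa using this⟩
  rw [mem_filter, mem_powerset] at hT₁
  obtain ⟨hT₁W, hT₁c⟩ := hT₁
  have hWI : W ⊆ I := Finset.filter_subset _ _
  have hSK : ∀ T ⊆ I, ∀ x ∈ Sg f' T, x ∈ K := by
    intro T hT x hx
    rw [mem_Sg] at hx
    obtain ⟨J, hJ, rfl⟩ := hx
    exact K.sum_mem fun i hi => hf'K i (hT (hJ hi))
  have hScard : ∀ T ⊆ I, (Sg f' T).card ≤ Nat.card K := by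
    intro T hT
    have h1 : ((Sg f' T : Finset G) : Set G) ⊆ (K : Set G) := fun x hx => hSK T hT x hx
    have h2 := Set.ncard_le_ncard h1 (Set.toFinite _)
    rw [Set.ncard_coe_finset] at h2
    exact h2
  have h0S : (0 : G) ∈ Sg f' T₁ := by
    rw [mem_Sg]; exact ⟨∅, by simp, by simp⟩
  set K' := stab (Sg f' T₁) with hK'
  have hK'K : K' ≤ K := by
    intro g hg
    rw [hK', mem_stab] at hg
    have := hg 0 h0S
    rw [add_zero] at this
    exact hSK T₁ (hT₁W.trans hWI) g this
  -- all other terms lie in K'
  have hrest : ∀ i ∈ I, i ∉ T₁ → f' i ∈ K' := by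
    intro i hi hiT
    by_cases hi0 : f' i = 0
    · rw [hi0]; exact K'.zero_mem
    by_contra hcon
    rw [hK', mem_stab] at hcon
    push Not at hcon
    obtain ⟨x, hx, hxn⟩ := hcon
    have hiW : i ∈ W := by rw [hW, mem_filter]; exact ⟨hi, hi0⟩
    have hsub : insert (f' i + x) (Sg f' T₁) ⊆ Sg f' (insert i T₁) := by
      intro y hy
      rcases Finset.mem_insert.mp hy with rfl | hy
      · rw [mem_Sg] at hx ⊢
        obtain ⟨J, hJ, rfl⟩ := hx
        refine ⟨insert i J, Finset.insert_subset_insert _ hJ, ?_⟩
        rw [Finset.sum_insert (fun h => hiT (hJ h))]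
      · rw [mem_Sg] at hy ⊢
        obtain ⟨J, hJ, hJs⟩ := hy
        exact ⟨J, hJ.trans (Finset.subset_insert _ _), hJs⟩
    have hc := Finset.card_le_card hsub
    rw [Finset.card_insert_of_notMem hxn] at hc
    have hins : (insert i T₁).card = T₁.card + 1 := Finset.card_insert_of_notMem hiT
    have := hT₁max (insert i T₁) (by
      rw [mem_filter, mem_powerset]
      exact ⟨Finset.insert_subset hiW hT₁W, by omega⟩)
    omega
  -- not everything is a subset sum
  have hex : ∃ x₀ ∈ K, x₀ ∉ Sg f' T₁ := by
    by_contra hcon
    push Not at hcon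
    have ht' : t - l • z ∈ K := by
      have h1 := K.nsmul_mem (hK i₀ hi₀) l
      have h2 := K.sub_mem ht h1
      have e : t - l • a - l • (f i₀ - a) = t - l • z := by
        rw [hz, smul_sub]; abel
      rwa [e] at h2
    have hmem := hcon _ ht'
    rw [mem_Sg] at hmem
    obtain ⟨X, hX, hXs⟩ := hmem
    have hXc : X.card ≤ l := by
      have h1 := Finset.card_le_card hX
      have h2 := hScard T₁ (hT₁W.trans hWI)
      omega
    obtain ⟨J, hJ, hJc, hJs⟩ := fill K I f' hf'K h hmult rfl l hI _ X (hX.trans hT₁W) hXc rfl
    apply hno J hJ hJc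
    rw [hXs] at hJs
    simp only [hf', Finset.sum_sub_distrib, Finset.sum_const, hJc] at hJs
    exact sub_left_inj.mp hJs
  obtain ⟨x₀, hx₀K, hx₀⟩ := hex
  refine ⟨K', hK'K, z, ?_⟩
  have h1 := sg_lower f' T₁ K' hK'
  have h2 : (Sg f' T₁).card + Nat.card K' ≤ Nat.card K := by
    have hper : ∀ g ∈ K', ∀ x ∈ Sg f' T₁, g + x ∈ Sg f' T₁ := by
      intro g hg x hx
      rw [hK', mem_stab] at hg
      exact hg x hx
    have h3 := card_add_coset K' (Sg f' T₁) (univ.filter (fun x => x ∈ K))
      (fun x hx => by simpa using hSK T₁ (hT₁W.trans hWI) x hx) hper x₀ hx₀ (by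
        intro g hg
        simpa using K.add_mem (hK'K hg) hx₀K)
    refine h3.trans (le_of_eq ?_)
    rw [Nat.card_eq_fintype_card, Fintype.card_subtype]
  have h3 : (I.filter (fun i => f i - z ∉ K')).card ≤ (T₁.filter (fun i => f' i ∉ K')).card := by
    apply Finset.card_le_card
    intro i hi
    rw [mem_filter] at hi ⊢
    refine ⟨?_, hi.2⟩
    by_contra hiT
    exact hi.2 (hrest i hi.1 hiT)
  calc ((I.filter (fun i => f i - z ∉ K')).card + 2) * Nat.card K'
      ≤ ((T₁.filter (fun i => f' i ∉ K')).card + 2) * Nat.card K' :=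
        Nat.mul_le_mul_right _ (Nat.add_le_add_right h3 2)
    _ = ((T₁.filter (fun i => f' i ∉ K')).card + 1) * Nat.card K' + Nat.card K' := by ring
    _ ≤ (Sg f' T₁).card + Nat.card K' := Nat.add_le_add_right h1 _
    _ ≤ _ := h2

end additive

section trees

variable {G : Type} [AddCommGroup G] {V : Type} [DecidableEq V]

/-- `Tr side col W n t`: there is a tree with vertex set `W` and `n` edges, all of them between
vertices of different sides, with colour sum `t`. -/
inductive Tr (side : V → Bool) (col : V → V → G) : Finset V → ℕ → G → Prop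
  | single (v : V) : Tr side col {v} 0 0
  | leaf {W : Finset V} {n : ℕ} {t : G} {u v : V} : Tr side col W n t → u ∈ W → v ∉ W →
      side u ≠ side v → Tr side col (insert v W) (n + 1) (t + col u v)

/-- The colour of the edge joining `j` to the vertex of the hub `u v` on the other side. -/
def fh (side : V → Bool) (col : V → V → G) (u v j : V) : G :=
  if side j = side v then col u j else col v j

variable {side : V → Bool} {col : V → V → G}

theorem fh_symm {u v : V} (huv : side u ≠ side v) (j : V) :
    fh side col v u j = fh side col u v j := by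
  unfold fh
  by_cases h : side j = side v
  · have : side j ≠ side u := fun h' => huv (h'.symm.trans h)
    simp [h, this, Ne.symm huv]
  · have : side j = side u := by
      cases h1 : side j <;> cases h2 : side u <;> cases h3 : side v <;> simp_all
    simp [h, this, huv]

theorem Tr.cast {W : Finset V} {n n' : ℕ} {t t' : G} (h : Tr side col W n t) (hn : n = n')
    (ht : t = t') : Tr side col W n' t' := by
  subst hn ht
  exact h

theorem Tr.add_star {W : Finset V} {n : ℕ} {t : G} (h : Tr side col W n t) {u : V} (hu : u ∈ W)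
    (J : Finset V) (hJW : Disjoint J W) (hJ : ∀ j ∈ J, side u ≠ side j) :
    Tr side col (W ∪ J) (n + J.card) (t + ∑ j ∈ J, col u j) := by
  induction J using Finset.induction_on with
  | empty => simpa using h
  | insert a J ha ih =>
    have h1 := ih (Finset.disjoint_of_subset_left (Finset.subset_insert _ _) hJW)
      (fun j hj => hJ j (Finset.mem_insert_of_mem hj))
    have haW : a ∉ W := Finset.disjoint_left.mp hJW (Finset.mem_insert_self _ _)
    have h2 := Tr.leaf h1 (Finset.mem_union_left _ hu) (v := a) (by
      rw [Finset.mem_union]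
      rintro (h | h)
      · exact haW h
      · exact ha h) (hJ a (Finset.mem_insert_self _ _))
    rw [Finset.union_insert, Finset.card_insert_of_notMem ha, Finset.sum_insert ha]
    refine h2.cast (by ring) (by abel)

theorem Tr.add_leaves {W : Finset V} {n : ℕ} {t : G} (h : Tr side col W n t) {u v : V}
    (hu : u ∈ W) (hv : v ∈ W) (huv : side u ≠ side v)
    (J : Finset V) (hJW : Disjoint J W) :
    Tr side col (W ∪ J) (n + J.card) (t + ∑ j ∈ J, fh side col u v j) := by
  induction J using Finset.induction_on with
  | empty => simpa using h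
  | insert a J ha ih =>
    have h1 := ih (Finset.disjoint_of_subset_left (Finset.subset_insert _ _) hJW)
    have haW : a ∉ W := Finset.disjoint_left.mp hJW (Finset.mem_insert_self _ _)
    have haWJ : a ∉ W ∪ J := by
      rw [Finset.mem_union]
      rintro (h | h)
      · exact haW h
      · exact ha h
    rw [Finset.union_insert, Finset.card_insert_of_notMem ha, Finset.sum_insert ha]
    by_cases hs : side a = side v
    · have h2 := Tr.leaf h1 (Finset.mem_union_left _ hu) haWJ (by rw [hs]; exact huv)
      have e : fh side col u v a = col u a := by simp [fh, hs]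
      rw [e]
      exact h2.cast (by ring) (by abel)
    · have h2 := Tr.leaf h1 (Finset.mem_union_left _ hv) haWJ (fun h' => hs h'.symm)
      have e : fh side col u v a = col v a := by simp [fh, hs]
      rw [e]
      exact h2.cast (by ring) (by abel)

end trees

section block

variable {G : Type} [AddCommGroup G] [Fintype G]

theorem block {ι : Type} [DecidableEq ι] (K : AddSubgroup G) (m : ℕ) (hm : K.index = m)
    (hm1 : 1 ≤ m) (X₀ : Finset ι) (hX₀ : X₀.card = m - 1) (φ : ι → G) (ε : G) (hε : ε ∉ K) :
    ∃ X ⊆ X₀, X.Nonempty ∧ (∑ x ∈ X, φ x ∈ K ∨ ε + ∑ x ∈ X, φ x ∈ K) := by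
  classical
  let e : Fin (m - 1) ≃ X₀ := (Finset.equivFinOfCardEq hX₀).symm
  have einj : Function.Injective (fun l : Fin (m - 1) => (e l : ι)) :=
    Subtype.val_injective.comp e.injective
  let C : ℕ → Finset ι := fun i =>
    (univ.filter (fun l : Fin (m - 1) => (l : ℕ) < i)).image (fun l => (e l : ι))
  have hCmono : ∀ i j, i ≤ j → C i ⊆ C j := by
    intro i j hij
    apply Finset.image_subset_image
    intro l hl
    simp only [mem_filter, mem_univ, true_and] at hl ⊢
    omega
  have hCX : ∀ i, C i ⊆ X₀ := by
    intro i x hx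
    obtain ⟨l, _, rfl⟩ := Finset.mem_image.mp hx
    exact (e l).2
  have hC0 : C 0 = ∅ := by simp [C]
  have hCne : ∀ i j, i < j → j ≤ m - 1 → (C j \ C i).Nonempty := by
    intro i j hij hj
    refine ⟨(e ⟨i, by omega⟩ : ι), ?_⟩
    rw [Finset.mem_sdiff]
    constructor
    · exact Finset.mem_image.mpr ⟨⟨i, by omega⟩, by simpa using hij, rfl⟩
    · intro h
      obtain ⟨l, hl, hle⟩ := Finset.mem_image.mp h
      have := einj hle
      simp only [mem_filter, mem_univ, true_and] at hl
      rw [this] at hl
      simp at hl
  let F : Fin m → G ⧸ K := fun i => ((∑ x ∈ C i, φ x : G) : G ⧸ K)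
  haveI : Fintype (G ⧸ K) := Fintype.ofFinite _
  have hcard : Fintype.card (G ⧸ K) = m := by
    rw [← Nat.card_eq_fintype_card]
    exact hm
  by_cases hinj : Function.Injective F
  · have hbij : Function.Bijective F :=
      (Fintype.bijective_iff_injective_and_card F).2 ⟨hinj, by rw [Fintype.card_fin, hcard]⟩
    obtain ⟨i, hi⟩ := hbij.2 ((-ε : G) : G ⧸ K)
    have hi' : ε + ∑ x ∈ C i, φ x ∈ K := by
      have h1 := (QuotientAddGroup.eq).mp hi
      have h2 := K.neg_mem h1
      have e2 : -(-(∑ x ∈ C i, φ x) + -ε) = ε + ∑ x ∈ C i, φ x := by abel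
      rwa [e2] at h2
    have hi0 : (i : ℕ) ≠ 0 := by
      intro h0
      rw [h0, hC0] at hi'
      simp only [sum_empty, add_zero] at hi'
      exact hε hi'
    refine ⟨C i, hCX _, ?_, Or.inr hi'⟩
    have h3 := hCne 0 i (by omega) (by omega)
    rw [hC0, Finset.sdiff_empty] at h3
    exact h3
  · rw [Function.Injective] at hinj
    push Not at hinj
    obtain ⟨i, j, hij, hne⟩ := hinj
    have hne' : (i : ℕ) ≠ j := fun h => hne (Fin.ext h)
    -- wlog i < j
    have main : ∀ i j : Fin m, (i : ℕ) < j → F i = F j →
        ∃ X ⊆ X₀, X.Nonempty ∧ (∑ x ∈ X, φ x ∈ K ∨ ε + ∑ x ∈ X, φ x ∈ K) := by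
      intro i j hlt hF
      refine ⟨C j \ C i, Finset.sdiff_subset.trans (hCX _), hCne _ _ hlt (by omega), Or.inl ?_⟩
      have h1 := (QuotientAddGroup.eq).mp hF
      have h2 := Finset.sum_sdiff (f := φ) (hCmono i j hlt.le)
      have e2 : -(∑ x ∈ C i, φ x) + ∑ x ∈ C j, φ x = ∑ x ∈ C j \ C i, φ x := by
        rw [← h2]; abel
      rwa [e2] at h1
    rcases Nat.lt_or_gt_of_ne hne' with h | h
    · exact main i j h hij
    · exact main j i h hij.symm

end block

theorem other_side : ∀ b c d : Bool, c ≠ d → b ≠ c → b = d := by decide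

section main

variable {G : Type} [AddCommGroup G] [Fintype G] [DecidableEq G] {V : Type} [DecidableEq V]
  {side : V → Bool} {col : V → V → G}

/-- `Full T K a k m f`: after deleting at most `m` terms of `T`, all the admissible sums of the
values of `f` are realised. -/
def Full (T : Finset V) (K : AddSubgroup G) (a : G) (k m : ℕ) (f : V → G) : Prop :=
  ∀ T' ⊆ T, T.card ≤ T'.card + m → ∀ (l : ℕ) (t : G), k ≤ l + 1 → l + k ≤ T'.card + 1 →
    t - l • a ∈ K → ∃ J ⊆ T', J.card = l ∧ ∑ j ∈ J, f j = t

theorem step3 (s k m : ℕ) (hs : s = m * k) (hk : 2 ≤ k) (hm : 2 ≤ m)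
    (hsG : ∀ g : G, s • g = 0) (hcol : ∀ x y, col x y = col y x)
    (K : AddSubgroup G) (hKm : K.index = m) (a : G) (u v : V) (huv : side u ≠ side v)
    (T : Finset V) (hTu : u ∉ T) (hTv : v ∉ T)
    (hTK : ∀ j ∈ T, fh side col u v j - a ∈ K) (hT : 2 * s ≤ T.card + m)
    (hfull : Full T K a k m (fh side col u v)) (hbad : col u v - a ∉ K)
    (y₀ : V) (hy₀ : y₀ ∈ T) (hy₀s : side y₀ = side v)
    (X₀ : Finset V) (hX₀T : X₀ ⊆ T) (hX₀s : ∀ x ∈ X₀, side x = side u)
    (hX₀c : X₀.card = m - 1) :
    ∃ W, Tr side col W s 0 := by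
  have hmk : m + k ≤ s := by
    rw [hs]
    nlinarith
  obtain ⟨X, hXX₀, hXne, hX⟩ := block K m hKm (by omega) X₀ hX₀c (fun x => col y₀ x - a)
    (col u v - a) hbad
  have hXT : X ⊆ T := hXX₀.trans hX₀T
  have hXc : X.card ≤ m - 1 := by
    rw [← hX₀c]
    exact Finset.card_le_card hXX₀
  have hXpos : 0 < X.card := Finset.card_pos.mpr hXne
  have hXs : ∀ x ∈ X, side x = side u := fun x hx => hX₀s x (hXX₀ hx)
  have hy₀X : y₀ ∉ X := fun h => huv ((hXs y₀ h).symm.trans hy₀s)
  have huy₀ : u ≠ y₀ := fun h => hTu (h ▸ hy₀)
  have hvy₀ : v ≠ y₀ := fun h => hTv (h ▸ hy₀)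
  have huX : u ∉ X := fun h => hTu (hXT h)
  have hvX : v ∉ X := fun h => hTv (hXT h)
  have hsuy : side u ≠ side y₀ := by rw [hy₀s]; exact huv
  -- the remaining leaves
  set T' := T \ (insert y₀ X) with hT'
  have hins : insert y₀ X ⊆ T := Finset.insert_subset hy₀ hXT
  have hT'c : T'.card = T.card - (X.card + 1) := by
    rw [hT', Finset.card_sdiff_of_subset hins, Finset.card_insert_of_notMem hy₀X]
  have hTle : X.card + 1 ≤ T.card := by
    have := Finset.card_le_card hins
    rwa [Finset.card_insert_of_notMem hy₀X] at this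
  have hyK : col u y₀ - a ∈ K := by
    have := hTK y₀ hy₀
    simpa [fh, hy₀s] using this
  have hsum : ∑ x ∈ X, (col y₀ x - a) = ∑ x ∈ X, col y₀ x - X.card • a := by
    rw [Finset.sum_sub_distrib, Finset.sum_const]
  have hdisjT' : ∀ J ⊆ T', u ∉ J ∧ v ∉ J ∧ y₀ ∉ J ∧ Disjoint J X := by
    intro J hJ
    refine ⟨fun h => hTu (Finset.mem_sdiff.mp (hJ h)).1, fun h => hTv (Finset.mem_sdiff.mp (hJ h)).1,
      fun h => (Finset.mem_sdiff.mp (hJ h)).2 (Finset.mem_insert_self _ _), ?_⟩
    rw [Finset.disjoint_left]
    intro x hx hxX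
    exact (Finset.mem_sdiff.mp (hJ hx)).2 (Finset.mem_insert_of_mem hxX)
  rcases hX with hX | hX
  · -- path through one of the vertices of X
    obtain ⟨x₁, hx₁⟩ := hXne
    have hx₁s := hXs x₁ hx₁
    have hx₁K : col x₁ v - a ∈ K := by
      have h1 := hTK x₁ (hXT hx₁)
      have h2 : side x₁ ≠ side v := by rw [hx₁s]; exact huv
      rw [hcol x₁ v]
      simpa [fh, h2] using h1
    have hlK : (-(col u y₀ + ∑ x ∈ X, col y₀ x + col x₁ v)) - (s - X.card - 2) • a ∈ K := by
      have h1 := K.neg_mem (K.add_mem (K.add_mem hyK hX) hx₁K)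
      rw [hsum] at h1
      have e : s • a = (s - X.card - 2) • a + X.card • a + a + a := by
        have : s = (s - X.card - 2) + X.card + 1 + 1 := by omega
        conv_lhs => rw [this]
        rw [add_nsmul, add_nsmul, add_nsmul, one_nsmul]
      rw [hsG] at e
      have e2 : (-(col u y₀ + ∑ x ∈ X, col y₀ x + col x₁ v)) - (s - X.card - 2) • a
          = -(col u y₀ - a + (∑ x ∈ X, col y₀ x - X.card • a) + (col x₁ v - a))
            - ((s - X.card - 2) • a + X.card • a + a + a) := by abel
      rw [e2, ← e, sub_zero]
      exact h1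
    obtain ⟨J, hJ, hJc, hJs⟩ := hfull T' Finset.sdiff_subset (by omega) (s - X.card - 2) _
      (by omega) (by omega) hlK
    obtain ⟨hJu, hJv, hJy, hJX⟩ := hdisjT' J hJ
    have t0 : Tr side col {u} 0 0 := Tr.single u
    have t1 := Tr.leaf t0 (Finset.mem_singleton_self u) (v := y₀)
      (by simpa using huy₀.symm) hsuy
    have t2 := t1.add_star (u := y₀) (Finset.mem_insert_self _ _) X (by
      rw [Finset.disjoint_left]
      intro x hx hx'
      rcases Finset.mem_insert.mp hx' with rfl | hx'
      · exact hy₀X hx
      · rw [Finset.mem_singleton] at hx'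
        exact huX (hx' ▸ hx)) (by
      intro j hj
      rw [hXs j hj, hy₀s]
      exact huv.symm)
    have t3 := Tr.leaf t2 (Finset.mem_union_right _ hx₁) (v := v) (by
      simp only [mem_union, mem_insert, mem_singleton, not_or]
      exact ⟨⟨hvy₀, fun h => huv (by rw [h])⟩, hvX⟩) (by rw [hx₁s]; exact huv)
    have t4 := t3.add_leaves (u := u) (v := v) (by simp) (Finset.mem_insert_self _ _) huv J (by
      rw [Finset.disjoint_left]
      intro x hx hx'
      simp only [mem_insert, mem_union, mem_singleton] at hx'
      rcases hx' with rfl | (rfl | rfl) | hx'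
      · exact hJv hx
      · exact hJy hx
      · exact hJu hx
      · exact (Finset.disjoint_left.mp hJX hx) hx')
    refine ⟨_, t4.cast (by omega) ?_⟩
    rw [hJs]
    abel
  · have hlK : (-(col u v + col u y₀ + ∑ x ∈ X, col y₀ x)) - (s - X.card - 2) • a ∈ K := by
      have h1 := K.neg_mem (K.add_mem hyK hX)
      rw [hsum] at h1
      have e : s • a = (s - X.card - 2) • a + X.card • a + a + a := by
        have : s = (s - X.card - 2) + X.card + 1 + 1 := by omega
        conv_lhs => rw [this]
        rw [add_nsmul, add_nsmul, add_nsmul, one_nsmul]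
      rw [hsG] at e
      have e2 : (-(col u v + col u y₀ + ∑ x ∈ X, col y₀ x)) - (s - X.card - 2) • a
          = -(col u y₀ - a + (col u v - a + (∑ x ∈ X, col y₀ x - X.card • a)))
            - ((s - X.card - 2) • a + X.card • a + a + a) := by abel
      rw [e2, ← e, sub_zero]
      exact h1
    obtain ⟨J, hJ, hJc, hJs⟩ := hfull T' Finset.sdiff_subset (by omega) (s - X.card - 2) _
      (by omega) (by omega) hlK
    obtain ⟨hJu, hJv, hJy, hJX⟩ := hdisjT' J hJ
    have t0 : Tr side col {u} 0 0 := Tr.single u
    have t1 := Tr.leaf t0 (Finset.mem_singleton_self u) (v := v)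
      (by
        rw [Finset.mem_singleton]
        exact fun h => huv (by rw [h])) huv
    have t2 := Tr.leaf t1 (u := u) (by simp) (v := y₀) (by
      simp only [mem_insert, mem_singleton, not_or]
      exact ⟨hvy₀.symm, huy₀.symm⟩) hsuy
    have t3 := t2.add_star (u := y₀) (Finset.mem_insert_self _ _) X (by
      rw [Finset.disjoint_left]
      intro x hx hx'
      simp only [mem_insert, mem_singleton] at hx'
      rcases hx' with rfl | rfl | rfl
      · exact hy₀X hx
      · exact hvX hx
      · exact huX hx) (by
      intro j hj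
      rw [hXs j hj, hy₀s]
      exact huv.symm)
    have t4 := t3.add_leaves (u := u) (v := v) (by simp) (by simp) huv J (by
      rw [Finset.disjoint_left]
      intro x hx hx'
      simp only [mem_insert, mem_union, mem_singleton] at hx'
      rcases hx' with (rfl | rfl | rfl) | hx'
      · exact hJy hx
      · exact hJv hx
      · exact hJu hx
      · exact (Finset.disjoint_left.mp hJX hx) hx')
    refine ⟨_, t4.cast (by omega) ?_⟩
    rw [hJs]
    abel

/-- All the leaves of the hub are on one side. -/
theorem step3_star (s k m : ℕ) (hs : s = m * k) (hk : 2 ≤ k) (hm : 2 ≤ m)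
    (hsG : ∀ g : G, s • g = 0)
    (K : AddSubgroup G) (a : G) (u v : V) (huv : side u ≠ side v)
    (T : Finset V) (hTv : v ∉ T)
    (hTK : ∀ j ∈ T, fh side col u v j - a ∈ K) (hT : 2 * s ≤ T.card + m)
    (hfull : Full T K a k m (fh side col u v))
    (hTs : ∀ x ∈ T, side x = side u) :
    ∃ W, Tr side col W s 0 := by
  have hmk : m + k ≤ s := by
    rw [hs]
    nlinarith
  have hTpos : 0 < T.card := by omega
  obtain ⟨x₁, hx₁⟩ := Finset.card_pos.mp hTpos
  have hfx : ∀ x ∈ T, fh side col u v x = col v x := by
    intro x hx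
    have : side x ≠ side v := by rw [hTs x hx]; exact huv
    simp [fh, this]
  have hx₁K : col v x₁ - a ∈ K := by
    rw [← hfx x₁ hx₁]
    exact hTK x₁ hx₁
  have hlK : (-(col v x₁)) - (s - 1) • a ∈ K := by
    have h1 := K.neg_mem hx₁K
    have e : s • a = (s - 1) • a + a := by
      have : s = (s - 1) + 1 := by omega
      conv_lhs => rw [this]
      rw [add_nsmul, one_nsmul]
    rw [hsG] at e
    have e2 : (-(col v x₁)) - (s - 1) • a = -(col v x₁ - a) - ((s - 1) • a + a) := by abel
    rw [e2, ← e, sub_zero]
    exact h1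
  have hc : (T.erase x₁).card = T.card - 1 := Finset.card_erase_of_mem hx₁
  obtain ⟨J, hJ, hJc, hJs⟩ := hfull (T.erase x₁) (Finset.erase_subset _ _) (by omega) (s - 1) _
    (by omega) (by omega) hlK
  have t0 : Tr side col {v} 0 0 := Tr.single v
  have t1 := Tr.leaf t0 (Finset.mem_singleton_self v) (v := x₁)
    (by
      rw [Finset.mem_singleton]
      exact fun h => hTv (h ▸ hx₁)) (by rw [hTs x₁ hx₁]; exact huv.symm)
  have t2 := t1.add_star (u := v) (by simp) J (by
    rw [Finset.disjoint_left]
    intro x hx hx'
    have hxT := hJ hx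
    rw [Finset.mem_erase] at hxT
    simp only [mem_insert, mem_singleton] at hx'
    rcases hx' with rfl | rfl
    · exact hxT.1 rfl
    · exact hTv hxT.2) (by
    intro j hj
    rw [hTs j (Finset.mem_of_mem_erase (hJ hj))]
    exact huv.symm)
  refine ⟨_, t2.cast (by omega) ?_⟩
  have : ∑ j ∈ J, col v j = ∑ j ∈ J, fh side col u v j :=
    Finset.sum_congr rfl fun j hj => (hfx j (Finset.mem_of_mem_erase (hJ hj))).symm
  rw [this, hJs]
  abel

open Classical in
/-- The structure around an edge `u v` in a colouring without zero-sum trees. -/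
theorem hub_colour [Fintype V] (s : ℕ) (hV : Fintype.card V = 2 * s) (hG : Nat.card G = s)
    (hcol : ∀ x y, col x y = col y x) (hno : ∀ W, ¬ Tr side col W s 0)
    (u v : V) (huv : side u ≠ side v) :
    ∃ a, col u v ≠ a ∧
      s ≤ (univ.filter (fun j => j ≠ u ∧ j ≠ v ∧ fh side col u v j = a)).card := by
  have hspos : 0 < s := by rw [← hG]; exact Nat.card_pos
  have hsG : ∀ g : G, s • g = 0 := by
    intro g
    rw [← hG]
    exact card_nsmul_eq_zero'
  have huv' : u ≠ v := fun h => huv (by rw [h])
  set f := fh side col u v with hf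
  set I : Finset V := univ.filter (fun j => j ≠ u ∧ j ≠ v) with hI
  have hIcard : I.card = 2 * s - 2 := by
    have : I = (univ.erase u).erase v := by
      ext j
      simp only [hI, mem_filter, mem_univ, true_and, mem_erase, and_true]
      tauto
    rw [this, Finset.card_erase_of_mem (by simp [huv'.symm]), Finset.card_erase_of_mem (by simp),
      card_univ, hV]
    omega
  have hIu : u ∉ I := by simp [hI]
  have hIv : v ∉ I := by simp [hI]
  -- no double star
  have hds : ∀ J ⊆ I, J.card = s - 1 → ∑ j ∈ J, f j ≠ -(col u v) := by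
    intro J hJ hJc hJs
    have t0 : Tr side col {u} 0 0 := Tr.single u
    have t1 := Tr.leaf t0 (Finset.mem_singleton_self u) (v := v)
      (by rw [Finset.mem_singleton]; exact huv'.symm) huv
    have t2 := t1.add_leaves (u := u) (v := v) (by simp) (by simp) huv J (by
      rw [Finset.disjoint_left]
      intro x hx hx'
      simp only [mem_insert, mem_singleton] at hx'
      rcases hx' with rfl | rfl
      · exact hIv (hJ hx)
      · exact hIu (hJ hx))
    refine hno _ (t2.cast (by omega) ?_)
    rw [← hf, hJs]
    abel
  -- the subgroups concentrating the leaves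
  set P : AddSubgroup G → Prop := fun K => ∃ a,
    ((I.filter (fun i => f i - a ∉ K)).card + 2) * Nat.card K ≤ s with hP
  have hPex : ∃ n, ∃ K, P K ∧ Nat.card K = n := by
    obtain ⟨K', _, a', h'⟩ := concentrate (⊤ : AddSubgroup G) I f 0 (by simp) (s - 1)
      (by rw [AddSubgroup.card_top, hG]; omega)
      (by rw [AddSubgroup.card_top, hG, hIcard]; omega) (-(col u v)) (by simp) hds
    rw [AddSubgroup.card_top, hG] at h'
    exact ⟨_, K', ⟨a', h'⟩, rfl⟩
  obtain ⟨K, ⟨a, hKa⟩, hKn⟩ := Nat.find_spec hPex
  have hmin : ∀ K', P K' → Nat.card K ≤ Nat.card K' := by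
    intro K' hK'
    rw [hKn]
    exact Nat.find_min' hPex ⟨K', hK', rfl⟩
  set k := Nat.card K with hk
  have hkpos : 0 < k := Nat.card_pos
  set m := K.index with hm
  have hsmk : s = m * k := by
    rw [← hG, hk, hm, mul_comm]
    exact (AddSubgroup.card_mul_index K).symm
  set T := I.filter (fun i => f i - a ∈ K) with hT
  have hout : (I.filter (fun i => f i - a ∉ K)).card + 2 ≤ m := by
    rw [hsmk] at hKa
    exact Nat.le_of_mul_le_mul_right hKa hkpos
  have hm2 : 2 ≤ m := by omega
  have hsplit : T.card + (I.filter (fun i => f i - a ∉ K)).card = I.card :=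
    Finset.card_filter_add_card_filter_not _
  have hTI : T ⊆ I := Finset.filter_subset _ _
  have hTcard : 2 * s ≤ T.card + m := by omega
  have hTK : ∀ j ∈ T, f j - a ∈ K := fun j hj => (Finset.mem_filter.mp hj).2
  have hTu : u ∉ T := fun h => hIu (hTI h)
  have hTv : v ∉ T := fun h => hIv (hTI h)
  have hfull : Full T K a k m f := by
    intro T' hT' hT'c l t hl hlT ht
    by_contra hcon
    push Not at hcon
    obtain ⟨K', hK'K, a', h'⟩ := concentrate K T' f a (fun i hi => hTK i (hT' hi)) l hl hlT t ht
      hcon
    have hk' : 0 < Nat.card K' := Nat.card_pos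
    obtain ⟨m', hm'⟩ : Nat.card K' ∣ Nat.card K := AddSubgroup.card_dvd_of_le hK'K
    rw [← hk] at hm' h'
    have hout' : (T'.filter (fun i => f i - a' ∉ K')).card + 2 ≤ m' := by
      rw [hm', mul_comm (Nat.card K')] at h'
      exact Nat.le_of_mul_le_mul_right h' hk'
    have hPK' : P K' := by
      refine ⟨a', ?_⟩
      have hsub : I.filter (fun i => f i - a' ∉ K') ⊆ I.filter (fun i => f i - a ∉ K) ∪
          ((T \ T') ∪ T'.filter (fun i => f i - a' ∉ K')) := by
        intro i hi
        rw [Finset.mem_filter] at hi
        simp only [mem_union, mem_filter, mem_sdiff]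
        by_cases h1 : f i - a ∈ K
        · by_cases h2 : i ∈ T'
          · exact Or.inr (Or.inr ⟨h2, hi.2⟩)
          · exact Or.inr (Or.inl ⟨Finset.mem_filter.mpr ⟨hi.1, h1⟩, h2⟩)
        · exact Or.inl ⟨hi.1, h1⟩
      have h3 := (Finset.card_le_card hsub).trans (Finset.card_union_le _ _)
      have h4 := Finset.card_union_le (T \ T') (T'.filter (fun i => f i - a' ∉ K'))
      rw [Finset.card_sdiff_of_subset hT'] at h4
      have h5 : (I.filter (fun i => f i - a' ∉ K')).card + 2 ≤ m * m' := by
        have h6 : (I.filter (fun i => f i - a' ∉ K')).card + 2 ≤ 2 * m + m' - 2 := by omega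
        have h7 : 2 * m + m' - 2 ≤ m * m' := by
          obtain ⟨x, hx⟩ : ∃ x, m = x + 2 := ⟨m - 2, by omega⟩
          obtain ⟨y, hy⟩ : ∃ y, m' = y + 2 := ⟨m' - 2, by omega⟩
          rw [hx, hy]
          have : 2 * (x + 2) + (y + 2) - 2 = 2 * x + y + 4 := by omega
          rw [this]
          nlinarith [Nat.zero_le (x * y)]
        exact h6.trans h7
      calc ((I.filter (fun i => f i - a' ∉ K')).card + 2) * Nat.card K'
          ≤ (m * m') * Nat.card K' := Nat.mul_le_mul_right _ h5
        _ = m * (Nat.card K' * m') := by ring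
        _ = s := by rw [← hm', ← hsmk]
    have h8 := hmin K' hPK'
    have h9 : 2 * Nat.card K' ≤ k := by
      refine le_trans ?_ h'
      exact Nat.mul_le_mul_right _ (by omega)
    omega
  -- the colour of the hub
  have hbad : col u v - a ∉ K := by
    intro hin
    have hmk : m + k ≤ s + 1 := by
      rw [hsmk]
      obtain ⟨x, hx⟩ : ∃ x, m = x + 2 := ⟨m - 2, by omega⟩
      obtain ⟨y, hy⟩ : ∃ y, k = y + 1 := ⟨k - 1, by omega⟩
      rw [hx, hy]
      nlinarith [Nat.zero_le (x * y)]
    have hks : k ≤ s := by omega
    have hlK : (-(col u v)) - (s - 1) • a ∈ K := by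
      have h1 := K.neg_mem hin
      have e : s • a = (s - 1) • a + a := by
        have : s = (s - 1) + 1 := by omega
        conv_lhs => rw [this]
        rw [add_nsmul, one_nsmul]
      rw [hsG] at e
      have e2 : (-(col u v)) - (s - 1) • a = -(col u v - a) - ((s - 1) • a + a) := by abel
      rw [e2, ← e, sub_zero]
      exact h1
    obtain ⟨J, hJ, hJc, hJs⟩ := hfull T (Finset.Subset.refl _) (by omega) (s - 1) _
      (by omega) (by omega) hlK
    exact hds J (hJ.trans hTI) hJc hJs
  -- the subgroup is trivial
  have hk1 : k = 1 := by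
    by_contra hne
    have hk2 : 2 ≤ k := by omega
    have hmk2 : 2 * m ≤ s := by
      rw [hsmk]
      nlinarith
    set A₁ := T.filter (fun j => side j = side u) with hA₁
    set B₁ := T.filter (fun j => side j = side v) with hB₁
    have hAB : T.card ≤ A₁.card + B₁.card := by
      have : T ⊆ A₁ ∪ B₁ := by
        intro j hj
        simp only [hA₁, hB₁, mem_union, mem_filter]
        by_cases h : side j = side u
        · exact Or.inl ⟨hj, h⟩
        · exact Or.inr ⟨hj, other_side _ _ _ huv h⟩
      exact (Finset.card_le_card this).trans (Finset.card_union_le _ _)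
    have hfv : ∀ j, fh side col v u j = f j := fun j => fh_symm huv j
    have hfull' : Full T K a k m (fh side col v u) := by
      have : fh side col v u = f := funext hfv
      rw [this]
      exact hfull
    rcases B₁.eq_empty_or_nonempty with hB | ⟨y₀, hy₀⟩
    · obtain ⟨W, hW⟩ := step3_star s k m hsmk hk2 hm2 hsG K a u v huv T hTv hTK hTcard hfull (by
        intro x hx
        by_contra h
        have : x ∈ B₁ := by
          rw [hB₁, mem_filter]
          exact ⟨hx, other_side _ _ _ huv h⟩
        rw [hB] at this
        simp at this)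
      exact hno W hW
    rcases A₁.eq_empty_or_nonempty with hA | ⟨x₀, hx₀⟩
    · obtain ⟨W, hW⟩ := step3_star s k m hsmk hk2 hm2 hsG K a v u huv.symm T hTu
        (fun j hj => by rw [hfv]; exact hTK j hj) hTcard hfull' (by
        intro x hx
        by_contra h
        have : x ∈ A₁ := by
          rw [hA₁, mem_filter]
          exact ⟨hx, other_side _ _ _ huv.symm h⟩
        rw [hA] at this
        simp at this)
      exact hno W hW
    rw [hB₁, mem_filter] at hy₀
    rw [hA₁, mem_filter] at hx₀
    rcases Nat.lt_or_ge A₁.card (m - 1) with hlt | hge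
    · have hge' : m - 1 ≤ B₁.card := by omega
      obtain ⟨X₀, hX₀, hX₀c⟩ := Finset.exists_subset_card_eq hge'
      obtain ⟨W, hW⟩ := step3 s k m hsmk hk2 hm2 hsG hcol K rfl a v u huv.symm T hTv hTu
        (fun j hj => by rw [hfv]; exact hTK j hj) hTcard hfull' (by rw [hcol]; exact hbad)
        x₀ hx₀.1 hx₀.2 X₀ (hX₀.trans (Finset.filter_subset _ _))
        (fun x hx => (Finset.mem_filter.mp (hX₀ hx)).2) hX₀c
      exact hno W hW
    · obtain ⟨X₀, hX₀, hX₀c⟩ := Finset.exists_subset_card_eq hge
      obtain ⟨W, hW⟩ := step3 s k m hsmk hk2 hm2 hsG hcol K rfl a u v huv T hTu hTv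
        hTK hTcard hfull hbad
        y₀ hy₀.1 hy₀.2 X₀ (hX₀.trans (Finset.filter_subset _ _))
        (fun x hx => (Finset.mem_filter.mp (hX₀ hx)).2) hX₀c
      exact hno W hW
  have hKbot : K = ⊥ := AddSubgroup.card_eq_one.mp hk1
  refine ⟨a, ?_, ?_⟩
  · intro h
    apply hbad
    rw [h, sub_self]
    exact K.zero_mem
  · have hms : m = s := by rw [hsmk, hk1, mul_one]
    have hTeq : T = univ.filter (fun j => j ≠ u ∧ j ≠ v ∧ fh side col u v j = a) := by
      ext j
      simp only [hT, hI, mem_filter, mem_univ, true_and, hKbot, AddSubgroup.mem_bot, sub_eq_zero,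
        hf]
      tauto
    rw [← hTeq]
    omega

end main

section count

variable {G : Type} [AddCommGroup G] [Fintype G] [DecidableEq G]

/-- The symmetric edge colouring of the complete bipartite graph. -/
def colOf {α β : Type} (c : α → β → G) : α ⊕ β → α ⊕ β → G
  | Sum.inl x, Sum.inr y => c x y
  | Sum.inr y, Sum.inl x => c x y
  | _, _ => 0

open Classical in
theorem minority {β : Type} [Fintype β] (hβ : 0 < Fintype.card β) (g : β → G) :
    2 * (univ.filter (fun v => ∃ a, g v ≠ a ∧
      Fintype.card β < 2 * (univ.filter (fun y => g y = a)).card)).card < Fintype.card β := by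
  by_cases hex : ∃ a, Fintype.card β < 2 * (univ.filter (fun y => g y = a)).card
  · obtain ⟨a₀, ha₀⟩ := hex
    have hsub : univ.filter (fun v => ∃ a, g v ≠ a ∧
        Fintype.card β < 2 * (univ.filter (fun y => g y = a)).card)
        ⊆ univ.filter (fun v => ¬ g v = a₀) := by
      intro v hv
      simp only [mem_filter, mem_univ, true_and] at hv ⊢
      obtain ⟨a, hva, ha⟩ := hv
      have haa : a = a₀ := by
        by_contra hne
        have hdisj : Disjoint (univ.filter (fun y => g y = a)) (univ.filter (fun y => g y = a₀)) := by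
          rw [Finset.disjoint_left]
          intro y hy hy'
          simp only [mem_filter, mem_univ, true_and] at hy hy'
          exact hne (hy.symm.trans hy')
        have h1 := Finset.card_le_univ
          (univ.filter (fun y => g y = a) ∪ univ.filter (fun y => g y = a₀))
        rw [Finset.card_union_of_disjoint hdisj] at h1
        omega
      rw [← haa]
      exact hva
    have h1 := Finset.card_le_card hsub
    have h2 : (univ.filter (fun v => g v = a₀)).card + (univ.filter (fun v => ¬ g v = a₀)).card
        = Fintype.card β := by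
      rw [Finset.card_filter_add_card_filter_not, card_univ]
    omega
  · have : univ.filter (fun v => ∃ a, g v ≠ a ∧
        Fintype.card β < 2 * (univ.filter (fun y => g y = a)).card) = ∅ := by
      rw [Finset.filter_eq_empty_iff]
      rintro v _ ⟨a, _, ha⟩
      exact hex ⟨a, ha⟩
    rw [this]
    simpa using hβ

open Classical in
theorem main_bip {α β : Type} [Fintype α] [Fintype β] [DecidableEq α] [DecidableEq β]
    (c : α → β → G) (s : ℕ)
    (hα : Odd (Fintype.card α)) (hβ : Odd (Fintype.card β))
    (hs : Fintype.card α + Fintype.card β = 2 * s) (hG : Nat.card G = s) :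
    ∃ W, Tr (V := α ⊕ β) Sum.isLeft (colOf c) W s 0 := by
  by_contra hcon
  push Not at hcon
  have hαpos : 0 < Fintype.card α := hα.pos
  have hβpos : 0 < Fintype.card β := hβ.pos
  have hcol : ∀ x y : α ⊕ β, colOf c x y = colOf c y x := by
    rintro (x | x) (y | y) <;> rfl
  have hV : Fintype.card (α ⊕ β) = 2 * s := by rw [Fintype.card_sum, hs]
  have hmaj : ∀ (u : α) (v : β), ∃ a, c u v ≠ a ∧
      s ≤ (univ.filter (fun y => c u y = a)).card + (univ.filter (fun x => c x v = a)).card := by
    intro u v
    obtain ⟨a, h1, h2⟩ := hub_colour (side := (Sum.isLeft : α ⊕ β → Bool)) (col := colOf c) s hV hG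
      hcol hcon (Sum.inl u) (Sum.inr v) (by simp)
    refine ⟨a, h1, h2.trans ?_⟩
    have hsub : univ.filter (fun j : α ⊕ β => j ≠ Sum.inl u ∧ j ≠ Sum.inr v ∧
        fh Sum.isLeft (colOf c) (Sum.inl u) (Sum.inr v) j = a)
        ⊆ (univ.filter (fun y => c u y = a)).image Sum.inr ∪
          (univ.filter (fun x => c x v = a)).image Sum.inl := by
      rintro (x | y) hj
      · simp only [mem_filter, mem_univ, true_and] at hj
        refine Finset.mem_union_right _ (Finset.mem_image_of_mem _ ?_)
        simpa [fh, colOf] using hj.2.2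
      · simp only [mem_filter, mem_univ, true_and] at hj
        refine Finset.mem_union_left _ (Finset.mem_image_of_mem _ ?_)
        simpa [fh, colOf] using hj.2.2
    refine (Finset.card_le_card hsub).trans ((Finset.card_union_le _ _).trans ?_)
    exact Nat.add_le_add Finset.card_image_le Finset.card_image_le
  -- every edge is a minority edge at one of its ends
  set SA : Finset (α × β) := univ.filter (fun p => ∃ a, c p.1 p.2 ≠ a ∧
    Fintype.card β < 2 * (univ.filter (fun y => c p.1 y = a)).card) with hSA
  set SB : Finset (α × β) := univ.filter (fun p => ∃ a, c p.1 p.2 ≠ a ∧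
    Fintype.card α < 2 * (univ.filter (fun x => c x p.2 = a)).card) with hSB
  have hcover : (univ : Finset (α × β)) ⊆ SA ∪ SB := by
    rintro ⟨u, v⟩ _
    obtain ⟨a, h1, h2⟩ := hmaj u v
    obtain ⟨x, hx⟩ := hα
    obtain ⟨y, hy⟩ := hβ
    rcases Nat.lt_or_ge (Fintype.card β) (2 * (univ.filter (fun y => c u y = a)).card) with h3 | h3
    · exact Finset.mem_union_left _ (by simpa [hSA] using ⟨a, h1, h3⟩)
    · refine Finset.mem_union_right _ ?_
      simp only [hSB, mem_filter, mem_univ, true_and]
      refine ⟨a, h1, ?_⟩
      omega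
  have hSAc : 2 * SA.card < Fintype.card α * Fintype.card β := by
    have h1 : SA.card = ∑ u : α, (univ.filter (fun v => ∃ a, c u v ≠ a ∧
        Fintype.card β < 2 * (univ.filter (fun y => c u y = a)).card)).card := by
      rw [hSA, Finset.card_filter, ← Finset.univ_product_univ, Finset.sum_product]
      refine Finset.sum_congr rfl fun u _ => ?_
      rw [Finset.card_filter]
    rw [h1, Finset.mul_sum]
    have h2 : ∑ u : α, 2 * (univ.filter (fun v => ∃ a, c u v ≠ a ∧
        Fintype.card β < 2 * (univ.filter (fun y => c u y = a)).card)).card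
        < ∑ _u : α, Fintype.card β := by
      apply Finset.sum_lt_sum_of_nonempty
      · rw [← Finset.card_pos, card_univ]
        exact hαpos
      · intro u _
        exact minority hβpos (fun v => c u v)
    simpa using h2
  have hSBc : 2 * SB.card < Fintype.card α * Fintype.card β := by
    have h1 : SB.card = ∑ v : β, (univ.filter (fun u => ∃ a, c u v ≠ a ∧
        Fintype.card α < 2 * (univ.filter (fun x => c x v = a)).card)).card := by
      rw [hSB, Finset.card_filter, ← Finset.univ_product_univ, Finset.sum_product_right]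
      refine Finset.sum_congr rfl fun u _ => ?_
      rw [Finset.card_filter]
    rw [h1, Finset.mul_sum]
    have h2 : ∑ v : β, 2 * (univ.filter (fun u => ∃ a, c u v ≠ a ∧
        Fintype.card α < 2 * (univ.filter (fun x => c x v = a)).card)).card
        < ∑ _v : β, Fintype.card α := by
      apply Finset.sum_lt_sum_of_nonempty
      · rw [← Finset.card_pos, card_univ]
        exact hβpos
      · intro v _
        exact minority hαpos (fun u => c u v)
    rw [mul_comm (Fintype.card α)]
    simpa using h2
  have h1 := (Finset.card_le_card hcover).trans (Finset.card_union_le _ _)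
  rw [card_univ, Fintype.card_prod] at h1
  omega

end count

section transfer

variable {G : Type} [AddCommGroup G]

theorem exists_subgraph {α β α' β' : Type} [DecidableEq α] [DecidableEq β]
    (i : α → α') (hi : Function.Injective i) (j : β → β') (hj : Function.Injective j)
    (c : Sym2 (α' ⊕ β') → G) (W : Finset (α ⊕ β)) (n : ℕ) (t : G)
    (h : Tr (V := α ⊕ β) Sum.isLeft (colOf (fun x y => c s(Sum.inl (i x), Sum.inr (j y)))) W n t) :
    ∃ H : (completeBipartiteGraph α' β').Subgraph, H.verts = Sum.map i j '' (W : Set (α ⊕ β)) ∧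
      H.Connected ∧ W.card = n + 1 ∧ H.edgeSet.Finite ∧ H.edgeSet.ncard = n ∧
      (∑ᶠ e ∈ H.edgeSet, c e) = t := by
  classical
  have hinj : Function.Injective (Sum.map i j) := Sum.map_injective.mpr ⟨hi, hj⟩
  induction h with
  | single v =>
    refine ⟨(completeBipartiteGraph α' β').singletonSubgraph (Sum.map i j v), ?_,
      SimpleGraph.Subgraph.singletonSubgraph_connected, by simp, ?_, ?_, ?_⟩
    · simp
    · simp
    · simp
    · simp
  | @leaf W n t u v h hu hv huv ih =>
    obtain ⟨H, hV, hconn, hcard, hfin, hn, ht⟩ := ih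
    have hadj : (completeBipartiteGraph α' β').Adj (Sum.map i j u) (Sum.map i j v) := by
      rcases u with u | u <;> rcases v with v | v <;> simp_all
    have hcol : colOf (fun x y => c s(Sum.inl (i x), Sum.inr (j y))) u v
        = c s(Sum.map i j u, Sum.map i j v) := by
      rcases u with u | u <;> rcases v with v | v
      · simp at huv
      · rfl
      · simp only [colOf, Sum.map_inl, Sum.map_inr]
        rw [Sym2.eq_swap]
      · simp at huv
    have hvV : Sum.map i j v ∉ H.verts := by
      rw [hV]
      rintro ⟨w, hw, hwv⟩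
      have := hinj hwv
      subst this
      exact hv (by simpa using hw)
    have hnot : s(Sum.map i j u, Sum.map i j v) ∉ H.edgeSet := by
      intro hmem
      rw [SimpleGraph.Subgraph.mem_edgeSet] at hmem
      exact hvV (H.edge_vert hmem.symm)
    have huV : Sum.map i j u ∈ H.verts := by
      rw [hV]
      exact ⟨u, by simpa using hu, rfl⟩
    have hedge : (H ⊔ (completeBipartiteGraph α' β').subgraphOfAdj hadj).edgeSet
        = insert s(Sum.map i j u, Sum.map i j v) H.edgeSet := by
      rw [SimpleGraph.Subgraph.edgeSet_sup, SimpleGraph.edgeSet_subgraphOfAdj, Set.union_singleton]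
    refine ⟨H ⊔ (completeBipartiteGraph α' β').subgraphOfAdj hadj, ?_, ?_, ?_, ?_, ?_, ?_⟩
    · rw [SimpleGraph.Subgraph.verts_sup, SimpleGraph.subgraphOfAdj_verts, hV]
      ext z
      simp only [Set.mem_union, Set.mem_image, Set.mem_insert_iff, Set.mem_singleton_iff,
        coe_insert, mem_coe]
      constructor
      · rintro (⟨w, hw, rfl⟩ | rfl | rfl)
        · exact ⟨w, Or.inr hw, rfl⟩
        · exact ⟨u, Or.inr hu, rfl⟩
        · exact ⟨v, Or.inl rfl, rfl⟩
      · rintro ⟨w, rfl | hw, rfl⟩
        · exact Or.inr (Or.inr rfl)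
        · exact Or.inl ⟨w, hw, rfl⟩
    · refine SimpleGraph.Subgraph.connected_sup hconn.preconnected
        (SimpleGraph.Subgraph.subgraphOfAdj_connected hadj).preconnected ⟨Sum.map i j u, huV, ?_⟩
      simp
    · rw [Finset.card_insert_of_notMem hv, hcard]
    · rw [hedge]
      exact hfin.insert _
    · rw [hedge, Set.ncard_insert_of_notMem hnot hfin, hn]
    · rw [hedge, finsum_mem_insert _ hnot hfin, ht, hcol, add_comm]

theorem isTree_of {V : Type} {G' : SimpleGraph V} (H : G'.Subgraph) (hconn : H.Connected)
    (W : Finset V) (hV : H.verts = W) (n : ℕ) (hW : W.card = n + 1)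
    (hn : H.edgeSet.ncard = n) : H.coe.IsTree := by
  haveI : Finite H.verts := by
    rw [hV]
    exact W.finite_toSet
  rw [SimpleGraph.isTree_iff_connected_and_card]
  refine ⟨hconn.coe, ?_⟩
  have h1 : Nat.card H.coe.edgeSet = n := by
    rw [← hn, ← SimpleGraph.Subgraph.image_coe_edgeSet_coe, Set.ncard_image_of_injective _
      (Sym2.map.injective Subtype.val_injective)]
    rfl
  have h2 : Nat.card H.verts = n + 1 := by
    rw [hV, ← hW]
    simp
  rw [h1, h2]

end transfer

end helpers

/-- For all m,n ≥ 1 with s+1 = ⌈m/2⌉+⌈n/2⌉, every colouring of the edges of K_{m,n} by integers mod s has a subtree with exactly s edges whose colours sum to 0 mod s. -/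
theorem result :
    ∀ m n : ℕ, 1 ≤ m → 1 ≤ n → ∀ s : ℕ, s + 1 = (m + 1) / 2 + (n + 1) / 2 →
      ∀ c : Sym2 (Fin m ⊕ Fin n) → ZMod s,
        ∃ H : (completeBipartiteGraph (Fin m) (Fin n)).Subgraph,
          H.coe.IsTree ∧ H.edgeSet.ncard = s ∧ (∑ᶠ e ∈ H.edgeSet, c e) = 0 := by
  intro m n hm hn s hs c
  have hspos : s ≠ 0 := by omega
  haveI : NeZero s := ⟨hspos⟩
  have hp : 2 * ((m + 1) / 2) - 1 ≤ m := by omega
  have hq : 2 * ((n + 1) / 2) - 1 ≤ n := by omega
  obtain ⟨W, hW⟩ := main_bip (G := ZMod s)
    (α := Fin (2 * ((m + 1) / 2) - 1)) (β := Fin (2 * ((n + 1) / 2) - 1))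
    (fun x y => c s(Sum.inl (Fin.castLE hp x), Sum.inr (Fin.castLE hq y))) s
    (by
      rw [Fintype.card_fin]
      exact ⟨(m + 1) / 2 - 1, by omega⟩)
    (by
      rw [Fintype.card_fin]
      exact ⟨(n + 1) / 2 - 1, by omega⟩)
    (by
      rw [Fintype.card_fin, Fintype.card_fin]
      omega)
    (Nat.card_zmod s)
  obtain ⟨H, hV, hconn, hcard, _, hn', ht⟩ := exists_subgraph (Fin.castLE hp)
    (Fin.castLE_injective hp) (Fin.castLE hq) (Fin.castLE_injective hq) c W s 0 hW
  refine ⟨H, ?_, hn', ht⟩
  have hinj : Function.Injective (Sum.map (Fin.castLE hp) (Fin.castLE hq)) :=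
    Sum.map_injective.mpr ⟨Fin.castLE_injective hp, Fin.castLE_injective hq⟩
  classical
  exact isTree_of H hconn (W.image (Sum.map (Fin.castLE hp) (Fin.castLE hq)))
    (by rw [hV, Finset.coe_image]) s (by rw [Finset.card_image_of_injective _ hinj, hcard]) hn'

end Pool.Agent.S06575
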