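import Pool.Statements.S06591
import Pool.Agent.Helper636.PosFin

set_option autoImplicit false
open Pool Pool.MP_9b7b99_co

namespace Pool.Agent.S06591

/-- Take a homogeneous sum of monomials with nonnegative coefficients, nonnegative real exponents and rational total degree d. If it never vanishes when all variables have positive real part, then its logarithm is concave on the positive orthant. -/
theorem result :
    ∀ (n : ℕ) (S : Finset (Fin n → ℝ)) (c : (Fin n → ℝ) → ℝ) (d : ℚ),
      0 ≤ d →
      (∀ α ∈ S, (∀ i, 0 ≤ α i) ∧ ∑ i, α i = (d : ℝ)) →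
      (∀ α ∈ S, 0 ≤ c α) →
      (∀ z : Fin n → ℂ, (∀ i, 0 < (z i).re) →
        ∑ α ∈ S, (c α : ℂ) * ∏ i, (z i) ^ ((α i : ℂ)) ≠ 0) →
      ConcaveOn ℝ {x : Fin n → ℝ | ∀ i, 0 < x i}
        (fun x => Real.log (∑ α ∈ S, c α * ∏ i, (x i) ^ (α i))) := by
  intro n S c d hd hS hc hne
  rcases hd.eq_or_lt with h0 | h0
  · -- degree zero: the function is constant
    have hα : ∀ α ∈ S, ∀ i, α i = 0 := by
      intro α hα i
      have h1 := (hS α hα).2
      rw [← h0, Rat.cast_zero] at h1
      exact (Finset.sum_eq_zero_iff_of_nonneg (fun i _ => (hS α hα).1 i)).mp h1 i (Finset.mem_univ i)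
    have hconst : ∀ x : Fin n → ℝ, ∑ α ∈ S, c α * ∏ i, (x i) ^ (α i) = ∑ α ∈ S, c α := by
      intro x
      refine Finset.sum_congr rfl fun α hα' => ?_
      have : ∏ i, (x i) ^ (α i) = 1 := Finset.prod_eq_one fun i _ => by
        rw [hα α hα' i, Real.rpow_zero]
      rw [this, mul_one]
    simp only [hconst]
    have hconv : Convex ℝ {x : Fin n → ℝ | ∀ i, 0 < x i} := by
      intro P hP Q hQ s t hs ht hst i
      have h1 : 0 < P i := hP i
      have h2 : 0 < Q i := hQ i
      show 0 < s * P i + t * Q i
      rcases hs.eq_or_lt with h3 | h3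
      · have : t = 1 := by linarith
        subst this; rw [← h3]; linarith
      · have := mul_pos h3 h1
        have := mul_nonneg ht h2.le
        linarith
    exact concaveOn_const _ hconv
  · have hD : Pool.Agent.Helper636.Pos.Dat S c (d : ℝ) := {
      dpos := by exact_mod_cast h0
      nn := fun α hα => (hS α hα).1
      sum := fun α hα => (hS α hα).2
      cnn := hc
      ne := hne }
    exact Pool.Agent.Helper636.Pos.logconc hD

end Pool.Agent.S06591
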