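import Pool.Statements.S06609

set_option autoImplicit false
open scoped BigOperators
open Pool Pool.MP_9cb2a9_co

namespace Pool.Agent.S06609

/-- The recurrence data for the simsun numbers. -/
structure IsA (a : ℕ → ℕ → ℤ) : Prop where
  h01 : a 0 1 = 1
  h12 : a 1 2 = 1
  h0 : ∀ n : ℕ, 1 < n → a 0 n = 0
  hz : ∀ i n : ℕ, n < 2 * i → a i n = 0
  hr : ∀ i n : ℕ, 1 ≤ i → 1 ≤ n →
        a i (n + 1) = (i : ℤ) * a i n + ((n : ℤ) - 2 * (i : ℤ) + 2) * a (i - 1) n

theorem IsA.nonneg {a : ℕ → ℕ → ℤ} (ha : IsA a) : ∀ n i : ℕ, 1 ≤ n → 0 ≤ a i n := by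
  intro n
  induction n with
  | zero => intro i h; omega
  | succ n ih =>
    intro i _
    rcases Nat.eq_zero_or_pos n with hn | hn
    · subst hn
      rcases Nat.eq_zero_or_pos i with hi | hi
      · subst hi
        have := ha.h01
        simp only [Nat.zero_add]
        omega
      · rw [ha.hz i (0 + 1) (by omega)]
    · rcases Nat.eq_zero_or_pos i with hi | hi
      · subst hi
        rw [ha.h0 (n + 1) (by omega)]
      · by_cases h : n + 1 < 2 * i
        · rw [ha.hz i (n + 1) h]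
        · rw [ha.hr i n hi hn]
          have h1 := ih i hn
          have h2 := ih (i - 1) hn
          have h3 : (0 : ℤ) ≤ (n : ℤ) - 2 * (i : ℤ) + 2 := by
            have : (2 * i : ℤ) ≤ n + 1 := by exact_mod_cast (not_lt.mp h)
            linarith
          have h4 : (0 : ℤ) ≤ (i : ℤ) := by positivity
          have h5 := mul_nonneg h4 h1
          have h6 := mul_nonneg h3 h2
          linarith

/-- The sum that appears at level `r` when all signs in the recurrence for `b` are made positive. -/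
def S (a : ℕ → ℕ → ℤ) (r n i : ℕ) : ℤ :=
  if i ≤ n then
    ∑ k ∈ Finset.range (i + 1),
      ((Nat.choose (2 * n - 2 * i + k) k : ℕ) : ℤ) *
        ((Nat.choose (i - k) (i - 2 * r) : ℕ) : ℤ) * a (i - k) (2 * (n - r))
  else 0

/-- The two-step comparison operator. -/
def Z (g : ℕ → ℤ) (n i : ℕ) : ℤ :=
  ((Nat.choose i 2 : ℕ) : ℤ) * g i +
    ((2 * n - 2 * i + 1 : ℕ) : ℤ) * ((i - 1 : ℕ) : ℤ) * g (i - 1) +
    ((Nat.choose (2 * n - 2 * i + 2) 2 : ℕ) : ℤ) * g (i - 2)

theorem Z_mono {g h : ℕ → ℤ} {n i : ℕ} (h0 : g i ≤ h i) (h1 : g (i - 1) ≤ h (i - 1))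
    (h2 : g (i - 2) ≤ h (i - 2)) : Z g n i ≤ Z h n i := by
  unfold Z
  gcongr

theorem arith_gen (j p A0 A1 A2 C1 C2 : ℤ) (hj : 0 ≤ j) (hp : 1 ≤ p)
    (n0 : 0 ≤ A0) (n1 : 0 ≤ A1) (n2 : 0 ≤ A2)
    (c1 : C1 * 2 = (j + 2) * (j + 1)) (c2 : C2 * 2 = (2 * p + 2) * (2 * p + 1)) :
    4 * (C1 * A0 + (2 * p + 1) * (j + 1) * A1 + C2 * A2) ≤
      3 * ((j + 2) * ((j + 2) * A0 + (2 * p) * A1) +
        (2 * p + 1) * ((j + 1) * A1 + (2 * p + 2) * A2)) := by
  have t0 : 0 ≤ (3 * (j + 2) * (j + 2) - C1 * 4) * A0 := by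
    apply mul_nonneg _ n0
    nlinarith
  have t2 : 0 ≤ (3 * ((2 * p + 1) * (2 * p + 2)) - C2 * 4) * A2 := by
    apply mul_nonneg _ n2
    nlinarith
  have t1 : 0 ≤ (3 * ((j + 2) * (2 * p) + (2 * p + 1) * (j + 1)) -
      4 * ((2 * p + 1) * (j + 1))) * A1 := by
    apply mul_nonneg _ n1
    nlinarith [mul_nonneg hj (by linarith : (0 : ℤ) ≤ p)]
  linarith [t0, t1, t2]

theorem arith_top (j A1 A2 B1 B2 C1 : ℤ) (hj : 1 ≤ j) (n3 : 0 ≤ B2) (n4 : 0 ≤ B1)
    (h1 : A1 = B1) (h2 : A2 = j * B1 + 3 * B2) :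
    4 * (C1 * 0 + 1 * (j + 1) * A1 + 1 * A2) ≤
      3 * ((j + 2) * ((j + 2) * 0 + 0 * A1) + 1 * ((j + 1) * A1 + 2 * A2)) := by
  subst h1 h2
  nlinarith [mul_nonneg (by linarith : (0 : ℤ) ≤ j - 1) n4, n3, n4]

theorem two_choose (N : ℕ) : ((Nat.choose (N + 2) 2 : ℕ) : ℤ) * 2 = ((N : ℤ) + 2) * ((N : ℤ) + 1) := by
  have h := Nat.choose_two_right (N + 2)
  have h2 : Nat.choose (N + 2) 2 * 2 = (N + 2) * (N + 1) := by
    rw [h]
    have : 2 ∣ (N + 2) * (N + 2 - 1) := (Nat.even_mul_pred_self (N + 2)).two_dvd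
    rw [Nat.div_mul_cancel this]
    rfl
  exact_mod_cast h2

theorem Z_le {a : ℕ → ℕ → ℤ} (ha : IsA a) {n i : ℕ} (hn : 3 ≤ n) (hi : 2 ≤ i) (hin : i ≤ n) :
    4 * Z (fun l => a l (2 * (n - 1))) n i ≤ 3 * a i (2 * n) := by
  obtain ⟨j, rfl⟩ : ∃ j, i = j + 2 := ⟨i - 2, by omega⟩
  obtain ⟨p, rfl⟩ : ∃ p, n = p + j + 2 := ⟨n - 2 - j, by omega⟩
  have s1 : a (j + 2) (2 * (p + j + 2)) =
      ((j : ℤ) + 2) * a (j + 2) (2 * (p + j + 1) + 1) +
      (2 * (p : ℤ) + 1) * a (j + 1) (2 * (p + j + 1) + 1) := by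
    have e1 : 2 * (p + j + 2) = (2 * (p + j + 1) + 1) + 1 := by ring
    rw [e1, ha.hr (j + 2) (2 * (p + j + 1) + 1) (by omega) (by omega)]
    push_cast
    ring
  have s2 : a (j + 2) (2 * (p + j + 1) + 1) =
      ((j : ℤ) + 2) * a (j + 2) (2 * (p + j + 1)) +
      (2 * (p : ℤ)) * a (j + 1) (2 * (p + j + 1)) := by
    rw [ha.hr (j + 2) (2 * (p + j + 1)) (by omega) (by omega)]
    push_cast
    ring
  have s3 : a (j + 1) (2 * (p + j + 1) + 1) =
      ((j : ℤ) + 1) * a (j + 1) (2 * (p + j + 1)) +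
      (2 * (p : ℤ) + 2) * a j (2 * (p + j + 1)) := by
    rw [ha.hr (j + 1) (2 * (p + j + 1)) (by omega) (by omega)]
    push_cast
    ring
  have n0 := ha.nonneg (2 * (p + j + 1)) (j + 2) (by omega)
  have n1 := ha.nonneg (2 * (p + j + 1)) (j + 1) (by omega)
  have n2 := ha.nonneg (2 * (p + j + 1)) j (by omega)
  have c1 := two_choose j
  have c2 := two_choose (2 * p)
  have zz : Z (fun l => a l (2 * (p + j + 2 - 1))) (p + j + 2) (j + 2) =
      ((Nat.choose (j + 2) 2 : ℕ) : ℤ) * a (j + 2) (2 * (p + j + 1)) +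
      (2 * (p : ℤ) + 1) * ((j : ℤ) + 1) * a (j + 1) (2 * (p + j + 1)) +
      ((Nat.choose (2 * p + 2) 2 : ℕ) : ℤ) * a j (2 * (p + j + 1)) := by
    unfold Z
    have q1 : p + j + 2 - 1 = p + j + 1 := by omega
    have q2 : j + 2 - 1 = j + 1 := by omega
    have q3 : j + 2 - 2 = j := by omega
    have q4 : 2 * (p + j + 2) - 2 * (j + 2) = 2 * p := by omega
    simp only [q1, q2, q3, q4]
    push_cast
    rfl
  rw [zz, s1, s2, s3]
  clear zz s1 s2 s3
  rcases Nat.eq_zero_or_pos p with hp0 | hp0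
  · subst hp0
    have z0 : a (j + 2) (2 * (0 + j + 1)) = 0 := ha.hz _ _ (by omega)
    have e : 2 * (0 + j + 1) = 2 * j + 1 + 1 := by ring
    have z1 : a (j + 1) (2 * (0 + j + 1)) = a j (2 * j + 1) := by
      rw [e, ha.hr (j + 1) (2 * j + 1) (by omega) (by omega),
        ha.hz (j + 1) (2 * j + 1) (by omega)]
      push_cast
      ring
    have z3 : a j (2 * (0 + j + 1)) = (j : ℤ) * a j (2 * j + 1) + 3 * a (j - 1) (2 * j + 1) := by
      rw [e, ha.hr j (2 * j + 1) (by omega) (by omega)]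
      push_cast
      ring
    have n3 := ha.nonneg (2 * j + 1) (j - 1) (by omega)
    have n4 := ha.nonneg (2 * j + 1) j (by omega)
    have hj' : (1 : ℤ) ≤ j := by
      have : 1 ≤ j := by omega
      exact_mod_cast this
    have c2' : ((Nat.choose (2 * 0 + 2) 2 : ℕ) : ℤ) = 1 := by norm_num
    have := arith_top (j : ℤ) _ _ _ _ ((Nat.choose (j + 2) 2 : ℕ) : ℤ) hj' n3 n4 z1 z3
    rw [c2', z0]
    push_cast
    simpa using this
  · have hp' : (1 : ℤ) ≤ p := by exact_mod_cast hp0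
    push_cast at c2
    exact arith_gen (j : ℤ) (p : ℤ) _ _ _ _ _ (by positivity) hp' n0 n1 n2 c1 c2

theorem chooseA (N q : ℕ) (h : q + 4 ≤ N) :
    3 * Nat.choose N q ≤ Nat.choose N 2 * Nat.choose N (q + 2) := by
  obtain ⟨d, rfl⟩ : ∃ d, N = q + 4 + d := ⟨N - (q + 4), by omega⟩
  have e1 := Nat.choose_succ_right_eq (q + 4 + d) q
  have e2 := Nat.choose_succ_right_eq (q + 4 + d) (q + 1)
  have f1 : q + 4 + d - q = d + 4 := by omega
  have f2 : q + 4 + d - (q + 1) = d + 3 := by omega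
  rw [f1] at e1
  rw [f2] at e2
  have e3 : Nat.choose (q + 4 + d) 2 * 2 = (q + 4 + d) * (q + 3 + d) := by
    have := two_choose (q + 2 + d)
    have e : q + 2 + d + 2 = q + 4 + d := by omega
    rw [e] at this
    have h2 : ((Nat.choose (q + 4 + d) 2 * 2 : ℕ) : ℤ) = (((q + 4 + d) * (q + 3 + d) : ℕ) : ℤ) := by
      push_cast at this ⊢
      rw [this]; ring
    exact_mod_cast h2
  generalize Nat.choose (q + 4 + d) q = X at *
  generalize Nat.choose (q + 4 + d) (q + 1) = Y at *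
  generalize Nat.choose (q + 4 + d) (q + 1 + 1) = W at *
  generalize Nat.choose (q + 4 + d) 2 = V at *
  have g1 : (q + 2) * (q + 1) ≤ V * 2 := by
    rw [e3]; nlinarith
  have g2 : W * ((q + 2) * (q + 1)) = X * ((d + 4) * (d + 3)) := by
    calc W * ((q + 2) * (q + 1)) = (W * (q + 1 + 1)) * (q + 1) := by ring
      _ = (Y * (d + 3)) * (q + 1) := by rw [e2]
      _ = (Y * (q + 1)) * (d + 3) := by ring
      _ = (X * (d + 4)) * (d + 3) := by rw [e1]
      _ = X * ((d + 4) * (d + 3)) := by ring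
  have g3 : X * 12 ≤ X * ((d + 4) * (d + 3)) := by
    apply Nat.mul_le_mul_left; nlinarith
  have g4 : W * ((q + 2) * (q + 1)) ≤ W * (V * 2) := Nat.mul_le_mul_left _ g1
  have g5 : W * (V * 2) = 2 * (V * W) := by ring
  omega

theorem chooseB (N q m : ℕ) (hm : 1 ≤ m) (h : q + m ≤ N) (c : ℕ) (hc : q + 1 ≤ c) :
    m * Nat.choose N q ≤ c * Nat.choose N (q + 1) := by
  have e1 := Nat.choose_succ_right_eq N q
  have h1 : (q + 1) * Nat.choose N (q + 1) ≤ c * Nat.choose N (q + 1) := Nat.mul_le_mul_right _ hc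
  have h2 : m * Nat.choose N q ≤ (N - q) * Nat.choose N q := Nat.mul_le_mul_right _ (by omega)
  have h3 : (N - q) * Nat.choose N q = Nat.choose N (q + 1) * (q + 1) := by
    rw [e1]; ring
  have h4 : Nat.choose N (q + 1) * (q + 1) = (q + 1) * Nat.choose N (q + 1) := by ring
  omega

theorem chooseC (P k j q : ℕ) (hq : q + 2 ≤ j) :
    3 * (Nat.choose (P + (k + 2)) (k + 2) * Nat.choose (j - k) q) ≤
      (P + 1) * (j + 1) * (Nat.choose (P + (k + 1)) (k + 1) * Nat.choose (j - k) (q + 1)) +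
      Nat.choose (P + 2) 2 * (Nat.choose (P + 2 + k) k * Nat.choose (j - k) q) := by
  rcases Nat.eq_zero_or_pos k with hk | hk
  · subst hk
    have h1 := chooseB j q 2 (by norm_num) hq (j + 1) (by omega)
    have h2 : Nat.choose (P + 2) 2 * 2 = (P + 2) * (P + 1) := by
      have := two_choose P
      exact_mod_cast this
    simp only [Nat.zero_add, Nat.sub_zero, Nat.add_zero, Nat.choose_zero_right, one_mul,
      Nat.choose_one_right]
    generalize Nat.choose (P + 2) 2 = V at *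
    generalize Nat.choose j q = X at *
    generalize Nat.choose j (q + 1) = Y at *
    have h3 : 2 * (V * X) ≤ (P + 1) * (j + 1) * ((P + 1) * Y) := by
      calc 2 * (V * X) = (V * 2) * X := by ring
        _ = ((P + 2) * (P + 1)) * X := by rw [h2]
        _ ≤ ((2 * (P + 1)) * (P + 1)) * X := by
            apply Nat.mul_le_mul_right
            apply Nat.mul_le_mul_right
            omega
        _ = (P + 1) * (P + 1) * (2 * X) := by ring
        _ ≤ (P + 1) * (P + 1) * ((j + 1) * Y) := Nat.mul_le_mul_left _ h1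
        _ = (P + 1) * (j + 1) * ((P + 1) * Y) := by ring
    have h4 : 3 * (V * X) = 2 * (V * X) + V * X := by ring
    rw [h4]
    exact Nat.add_le_add_right h3 _
  · have h1 : Nat.choose (P + (k + 2)) (k + 2) * Nat.choose (k + 2) k =
        Nat.choose (P + (k + 2)) k * Nat.choose (P + 2) 2 := by
      have := @Nat.choose_mul (P + (k + 2)) (k + 2) k (by omega)
      have e1 : P + (k + 2) - k = P + 2 := by omega
      have e2 : k + 2 - k = 2 := by omega
      rw [this, e1, e2]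
    have h2 : 3 ≤ Nat.choose (k + 2) k := by
      have e : Nat.choose (k + 2) k = Nat.choose (k + 2) 2 := by
        rw [← Nat.choose_symm_add]
      rw [e]
      have := two_choose k
      have h3 : Nat.choose (k + 2) 2 * 2 = (k + 2) * (k + 1) := by exact_mod_cast this
      nlinarith
    have e3 : P + 2 + k = P + (k + 2) := by omega
    rw [e3]
    have h5 : 3 * (Nat.choose (P + (k + 2)) (k + 2) * Nat.choose (j - k) q) ≤
        Nat.choose (P + 2) 2 * (Nat.choose (P + (k + 2)) k * Nat.choose (j - k) q) := by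
      calc 3 * (Nat.choose (P + (k + 2)) (k + 2) * Nat.choose (j - k) q)
          ≤ Nat.choose (k + 2) k * (Nat.choose (P + (k + 2)) (k + 2) * Nat.choose (j - k) q) :=
            Nat.mul_le_mul_right _ h2
        _ = (Nat.choose (P + (k + 2)) (k + 2) * Nat.choose (k + 2) k) * Nat.choose (j - k) q := by
            ring
        _ = (Nat.choose (P + (k + 2)) k * Nat.choose (P + 2) 2) * Nat.choose (j - k) q := by
            rw [h1]
        _ = _ := by ring
    exact le_trans h5 (Nat.le_add_left _ _)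

theorem S_step {a : ℕ → ℕ → ℤ} (ha : IsA a) {r n i : ℕ} (hr : 2 ≤ r) (hi : 2 * r ≤ i)
    (hin : i ≤ n) : 3 * S a r n i ≤ Z (fun l => S a (r - 1) (n - 1) l) n i := by
  obtain ⟨t, rfl⟩ : ∃ t, r = t + 2 := ⟨r - 2, by omega⟩
  obtain ⟨q, rfl⟩ : ∃ q, i = q + 2 * (t + 2) := ⟨i - 2 * (t + 2), by omega⟩
  obtain ⟨p, rfl⟩ : ∃ p, n = p + (q + 2 * (t + 2)) := ⟨n - (q + 2 * (t + 2)), by omega⟩
  obtain ⟨j, hj⟩ : ∃ j, j = q + 2 * t + 2 := ⟨_, rfl⟩
  have ei : q + 2 * (t + 2) = j + 2 := by omega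
  rw [ei]
  have eM : ∀ x : ℕ, x = p + (j + 2) - (t + 2) → x = p + (j + 2) - 1 - (t + 2 - 1) := by
    intro x hx; omega
  obtain ⟨M, hM⟩ : ∃ M, M = p + (j + 2) - (t + 2) := ⟨_, rfl⟩
  have hM1 : p + (j + 2) - 1 - (t + 2 - 1) = M := by omega
  have hMpos : 1 ≤ 2 * M := by omega
  have nn : ∀ l, 0 ≤ a l (2 * M) := fun l => ha.nonneg (2 * M) l hMpos
  -- left side
  have L : S a (t + 2) (p + (j + 2)) (j + 2) =
      (∑ k ∈ Finset.range (j + 1), ((Nat.choose (2 * p + (k + 2)) (k + 2) : ℕ) : ℤ) *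
        ((Nat.choose (j - k) q : ℕ) : ℤ) * a (j - k) (2 * M)) +
      (2 * (p : ℤ) + 1) * ((Nat.choose (j + 1) q : ℕ) : ℤ) * a (j + 1) (2 * M) +
      ((Nat.choose (j + 2) q : ℕ) : ℤ) * a (j + 2) (2 * M) := by
    unfold S
    rw [if_pos (by omega), Finset.sum_range_succ', Finset.sum_range_succ']
    have e1 : 2 * (p + (j + 2)) - 2 * (j + 2) = 2 * p := by omega
    have e2 : j + 2 - 2 * (t + 2) = q := by omega
    rw [e1, e2, ← hM]
    have e3 : ∀ k, j + 2 - (k + 1 + 1) = j - k := by intro k; omega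
    simp only [e3]
    have e4 : j + 2 - (0 + 1) = j + 1 := by omega
    rw [e4]
    simp only [Nat.sub_zero, Nat.add_zero, Nat.choose_zero_right, Nat.cast_one, one_mul,
      Nat.zero_add, Nat.choose_one_right]
    push_cast
    rfl
  have R1 : S a (t + 2 - 1) (p + (j + 2) - 1) (j + 1) =
      (∑ k ∈ Finset.range (j + 1), ((Nat.choose (2 * p + (k + 1)) (k + 1) : ℕ) : ℤ) *
        ((Nat.choose (j - k) (q + 1) : ℕ) : ℤ) * a (j - k) (2 * M)) +
      ((Nat.choose (j + 1) (q + 1) : ℕ) : ℤ) * a (j + 1) (2 * M) := by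
    unfold S
    rw [if_pos (by omega), Finset.sum_range_succ', hM1]
    have e1 : 2 * (p + (j + 2) - 1) - 2 * (j + 1) = 2 * p := by omega
    have e2 : j + 1 - 2 * (t + 2 - 1) = q + 1 := by omega
    rw [e1, e2]
    have e3 : ∀ k, j + 1 - (k + 1) = j - k := by intro k; omega
    simp only [e3]
    simp only [Nat.sub_zero, Nat.add_zero, Nat.choose_zero_right, Nat.cast_one, one_mul]
  have R2 : S a (t + 2 - 1) (p + (j + 2) - 1) j =
      ∑ k ∈ Finset.range (j + 1), ((Nat.choose (2 * p + 2 + k) k : ℕ) : ℤ) *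
        ((Nat.choose (j - k) q : ℕ) : ℤ) * a (j - k) (2 * M) := by
    unfold S
    rw [if_pos (by omega), hM1]
    have e1 : 2 * (p + (j + 2) - 1) - 2 * j = 2 * p + 2 := by omega
    have e2 : j - 2 * (t + 2 - 1) = q := by omega
    rw [e1, e2]
  have R0 : 3 * (((Nat.choose (j + 2) q : ℕ) : ℤ) * a (j + 2) (2 * M)) ≤
      ((Nat.choose (j + 2) 2 : ℕ) : ℤ) * S a (t + 2 - 1) (p + (j + 2) - 1) (j + 2) := by
    rcases Nat.eq_zero_or_pos p with hp | hp
    · have z : a (j + 2) (2 * M) = 0 := ha.hz _ _ (by omega)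
      rw [z]
      unfold S
      rw [if_neg (by omega)]
      simp
    · have e2 : j + 2 - 2 * (t + 2 - 1) = q + 2 := by omega
      have low : ((Nat.choose (j + 2) (q + 2) : ℕ) : ℤ) * a (j + 2) (2 * M) ≤
          S a (t + 2 - 1) (p + (j + 2) - 1) (j + 2) := by
        unfold S
        rw [if_pos (by omega), Finset.sum_range_succ', hM1, e2]
        have pos : 0 ≤ ∑ k ∈ Finset.range (j + 2),
            ((Nat.choose (2 * (p + (j + 2) - 1) - 2 * (j + 2) + (k + 1)) (k + 1) : ℕ) : ℤ) *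
            ((Nat.choose (j + 2 - (k + 1)) (q + 2) : ℕ) : ℤ) * a (j + 2 - (k + 1)) (2 * M) := by
          apply Finset.sum_nonneg
          intro k _
          have := nn (j + 2 - (k + 1))
          positivity
        simp only [Nat.sub_zero, Nat.add_zero, Nat.choose_zero_right, Nat.cast_one, one_mul]
        linarith
      have hc := chooseA (j + 2) q (by omega)
      have hc' : (3 : ℤ) * ((Nat.choose (j + 2) q : ℕ) : ℤ) ≤
          ((Nat.choose (j + 2) 2 : ℕ) : ℤ) * ((Nat.choose (j + 2) (q + 2) : ℕ) : ℤ) := by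
        exact_mod_cast hc
      have h3 := mul_le_mul_of_nonneg_right hc' (nn (j + 2))
      have h4 := mul_le_mul_of_nonneg_left low
        (by positivity : (0 : ℤ) ≤ ((Nat.choose (j + 2) 2 : ℕ) : ℤ))
      calc 3 * (((Nat.choose (j + 2) q : ℕ) : ℤ) * a (j + 2) (2 * M))
          = 3 * ((Nat.choose (j + 2) q : ℕ) : ℤ) * a (j + 2) (2 * M) := by ring
        _ ≤ _ := h3
        _ = ((Nat.choose (j + 2) 2 : ℕ) : ℤ) *
            (((Nat.choose (j + 2) (q + 2) : ℕ) : ℤ) * a (j + 2) (2 * M)) := by ring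
        _ ≤ _ := h4
  have B1 : 3 * ((2 * (p : ℤ) + 1) * ((Nat.choose (j + 1) q : ℕ) : ℤ) * a (j + 1) (2 * M)) ≤
      (2 * (p : ℤ) + 1) * ((j : ℤ) + 1) *
        (((Nat.choose (j + 1) (q + 1) : ℕ) : ℤ) * a (j + 1) (2 * M)) := by
    have hc := chooseB (j + 1) q 3 (by norm_num) (by omega) (j + 1) (by omega)
    have hc' : (3 : ℤ) * ((Nat.choose (j + 1) q : ℕ) : ℤ) ≤
        ((j : ℤ) + 1) * ((Nat.choose (j + 1) (q + 1) : ℕ) : ℤ) := by
      exact_mod_cast hc
    have h3 := mul_le_mul_of_nonneg_left hc' (by positivity : (0 : ℤ) ≤ 2 * (p : ℤ) + 1)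
    have h4 := mul_le_mul_of_nonneg_right h3 (nn (j + 1))
    calc 3 * ((2 * (p : ℤ) + 1) * ((Nat.choose (j + 1) q : ℕ) : ℤ) * a (j + 1) (2 * M))
        = (2 * (p : ℤ) + 1) * (3 * ((Nat.choose (j + 1) q : ℕ) : ℤ)) * a (j + 1) (2 * M) := by ring
      _ ≤ _ := h4
      _ = _ := by ring
  have B2 : 3 * (∑ k ∈ Finset.range (j + 1), ((Nat.choose (2 * p + (k + 2)) (k + 2) : ℕ) : ℤ) *
        ((Nat.choose (j - k) q : ℕ) : ℤ) * a (j - k) (2 * M)) ≤
      (2 * (p : ℤ) + 1) * ((j : ℤ) + 1) *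
        (∑ k ∈ Finset.range (j + 1), ((Nat.choose (2 * p + (k + 1)) (k + 1) : ℕ) : ℤ) *
        ((Nat.choose (j - k) (q + 1) : ℕ) : ℤ) * a (j - k) (2 * M)) +
      ((Nat.choose (2 * p + 2) 2 : ℕ) : ℤ) *
        (∑ k ∈ Finset.range (j + 1), ((Nat.choose (2 * p + 2 + k) k : ℕ) : ℤ) *
        ((Nat.choose (j - k) q : ℕ) : ℤ) * a (j - k) (2 * M)) := by
    rw [Finset.mul_sum, Finset.mul_sum, Finset.mul_sum, ← Finset.sum_add_distrib]
    apply Finset.sum_le_sum
    intro k _
    have hc := chooseC (2 * p) k j q (by omega)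
    have hc' : (3 : ℤ) * (((Nat.choose (2 * p + (k + 2)) (k + 2) : ℕ) : ℤ) *
        ((Nat.choose (j - k) q : ℕ) : ℤ)) ≤
        (2 * (p : ℤ) + 1) * ((j : ℤ) + 1) *
          (((Nat.choose (2 * p + (k + 1)) (k + 1) : ℕ) : ℤ) *
            ((Nat.choose (j - k) (q + 1) : ℕ) : ℤ)) +
        ((Nat.choose (2 * p + 2) 2 : ℕ) : ℤ) *
          (((Nat.choose (2 * p + 2 + k) k : ℕ) : ℤ) * ((Nat.choose (j - k) q : ℕ) : ℤ)) := by
      exact_mod_cast hc
    have h4 := mul_le_mul_of_nonneg_right hc' (nn (j - k))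
    calc 3 * (((Nat.choose (2 * p + (k + 2)) (k + 2) : ℕ) : ℤ) *
          ((Nat.choose (j - k) q : ℕ) : ℤ) * a (j - k) (2 * M))
        = 3 * (((Nat.choose (2 * p + (k + 2)) (k + 2) : ℕ) : ℤ) *
          ((Nat.choose (j - k) q : ℕ) : ℤ)) * a (j - k) (2 * M) := by ring
      _ ≤ _ := h4
      _ = _ := by ring
  have ZZ : Z (fun l => S a (t + 2 - 1) (p + (j + 2) - 1) l) (p + (j + 2)) (j + 2) =
      ((Nat.choose (j + 2) 2 : ℕ) : ℤ) * S a (t + 2 - 1) (p + (j + 2) - 1) (j + 2) +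
      (2 * (p : ℤ) + 1) * ((j : ℤ) + 1) * S a (t + 2 - 1) (p + (j + 2) - 1) (j + 1) +
      ((Nat.choose (2 * p + 2) 2 : ℕ) : ℤ) * S a (t + 2 - 1) (p + (j + 2) - 1) j := by
    unfold Z
    have q2 : j + 2 - 1 = j + 1 := by omega
    have q3 : j + 2 - 2 = j := by omega
    have q4 : 2 * (p + (j + 2)) - 2 * (j + 2) = 2 * p := by omega
    simp only [q2, q3, q4]
    push_cast
    rfl
  rw [ZZ, L, R1, R2]
  linarith [R0, B1, B2]

theorem S_one {a : ℕ → ℕ → ℤ} {n i : ℕ} (hi : 2 ≤ i)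
    (hin : i ≤ n) : S a 1 n i = Z (fun l => a l (2 * (n - 1))) n i := by
  obtain ⟨j, rfl⟩ : ∃ j, i = j + 2 := ⟨i - 2, by omega⟩
  obtain ⟨p, rfl⟩ : ∃ p, n = p + (j + 2) := ⟨n - (j + 2), by omega⟩
  unfold S Z
  rw [if_pos hin, Finset.sum_range_succ', Finset.sum_range_succ', Finset.sum_range_succ']
  have e2 : j + 2 - 2 * 1 = j := by omega
  have e1 : 2 * (p + (j + 2)) - 2 * (j + 2) = 2 * p := by omega
  have q2 : j + 2 - 1 = j + 1 := by omega
  have q3 : j + 2 - 2 = j := by omega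
  rw [e2, e1]
  have z : ∑ k ∈ Finset.range j,
      ((Nat.choose (2 * p + (k + 1 + 1 + 1)) (k + 1 + 1 + 1) : ℕ) : ℤ) *
        ((Nat.choose (j + 2 - (k + 1 + 1 + 1)) j : ℕ) : ℤ) *
        a (j + 2 - (k + 1 + 1 + 1)) (2 * (p + (j + 2) - 1)) = 0 := by
    apply Finset.sum_eq_zero
    intro k hk
    have hk' := Finset.mem_range.mp hk
    have : Nat.choose (j + 2 - (k + 1 + 1 + 1)) j = 0 := Nat.choose_eq_zero_of_lt (by omega)
    rw [this]
    simp
  rw [z]
  have c0 : Nat.choose (j + 2) j = Nat.choose (j + 2) 2 := by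
    rw [← Nat.choose_symm_add]
  simp only [Nat.zero_add, q2, q3, Nat.sub_zero, Nat.add_zero, Nat.choose_zero_right,
    Nat.choose_one_right, Nat.choose_self, Nat.cast_one, c0, Nat.choose_succ_self_right]
  push_cast
  ring

theorem S_le {a : ℕ → ℕ → ℤ} (ha : IsA a) : ∀ r : ℕ, 1 ≤ r → ∀ n i : ℕ, r + 2 ≤ n → 2 * r ≤ i →
    i ≤ n → 4 ^ r * S a r n i ≤ 3 * a i (2 * n) := by
  intro r
  induction r with
  | zero => intro h; omega
  | succ r ih =>
    intro _ n i hn hi hin
    rcases Nat.eq_zero_or_pos r with h0 | h0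
    · subst h0
      rw [Nat.zero_add, pow_one, S_one (by omega) hin]
      exact Z_le ha (by omega) (by omega) hin
    · have h1 := S_step ha (r := r + 1) (n := n) (i := i) (by omega) hi hin
      have e : r + 1 - 1 = r := by omega
      rw [e] at h1
      have key : ∀ l, i - 2 ≤ l → l ≤ i → 4 ^ r * S a r (n - 1) l ≤ 3 * a l (2 * (n - 1)) := by
        intro l hl hl2
        by_cases hln : l ≤ n - 1
        · exact ih h0 (n - 1) l (by omega) (by omega) hln
        · unfold S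
          rw [if_neg hln]
          have := ha.nonneg (2 * (n - 1)) l (by omega)
          simp only [mul_zero]
          linarith
      have h2 : Z (fun l => 4 ^ r * S a r (n - 1) l) n i ≤
          Z (fun l => 3 * a l (2 * (n - 1))) n i := by
        apply Z_mono
        · exact key i (by omega) le_rfl
        · exact key (i - 1) (by omega) (by omega)
        · exact key (i - 2) le_rfl (by omega)
      have h3 : Z (fun l => 4 ^ r * S a r (n - 1) l) n i = 4 ^ r * Z (fun l => S a r (n - 1) l) n i := by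
        unfold Z; ring
      have h4 : Z (fun l => 3 * a l (2 * (n - 1))) n i = 3 * Z (fun l => a l (2 * (n - 1))) n i := by
        unfold Z; ring
      have h5 := Z_le ha (n := n) (i := i) (by omega) (by omega) hin
      rw [h3, h4] at h2
      have h6 : (4 : ℤ) ^ r * (3 * S a (r + 1) n i) ≤ 4 ^ r * Z (fun l => S a r (n - 1) l) n i :=
        mul_le_mul_of_nonneg_left h1 (by positivity)
      have h7 : (4 : ℤ) ^ (r + 1) * S a (r + 1) n i * 3 = 4 * (4 ^ r * (3 * S a (r + 1) n i)) := by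
        ring
      linarith

theorem geo (s : ℕ → ℤ) (A : ℤ) (hA : 0 ≤ A) (R : ℕ)
    (h : ∀ r : ℕ, 1 ≤ r → r ≤ R → 4 ^ r * s r ≤ 3 * A) :
    ∑ r ∈ Finset.Icc 1 R, s r ≤ A := by
  have key : (4 : ℤ) ^ R * ∑ r ∈ Finset.Icc 1 R, s r ≤ (4 ^ R - 1) * A := by
    induction R with
    | zero => simp
    | succ R ih =>
      have h1 := ih (fun r hr1 hr2 => h r hr1 (by omega))
      have h2 := h (R + 1) (by omega) le_rfl
      rw [Finset.sum_Icc_succ_top (by omega)]
      have e : (4 : ℤ) ^ (R + 1) = 4 * 4 ^ R := by ring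
      have e2 : (4 : ℤ) ^ (R + 1) * (∑ r ∈ Finset.Icc 1 R, s r + s (R + 1)) =
          4 * (4 ^ R * ∑ r ∈ Finset.Icc 1 R, s r) + 4 ^ (R + 1) * s (R + 1) := by
        rw [e]; ring
      rw [e2]
      calc 4 * (4 ^ R * ∑ r ∈ Finset.Icc 1 R, s r) + 4 ^ (R + 1) * s (R + 1)
          ≤ 4 * ((4 ^ R - 1) * A) + 3 * A := by linarith
        _ = (4 ^ (R + 1) - 1) * A := by rw [e]; ring
  have h4 : (0 : ℤ) < 4 ^ R := by positivity
  have h5 : (4 : ℤ) ^ R * ∑ r ∈ Finset.Icc 1 R, s r ≤ 4 ^ R * A := by linarith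
  exact le_of_mul_le_mul_left h5 h4

theorem a_two {a : ℕ → ℕ → ℤ} (ha : IsA a) : ∀ m : ℕ, 1 ≤ a 2 (m + 4) := by
  have a1 : ∀ m : ℕ, a 1 (m + 2) = 1 := by
    intro m
    induction m with
    | zero => exact ha.h12
    | succ m ih =>
      rw [ha.hr 1 (m + 2) le_rfl (by omega), ih, ha.h0 (m + 2) (by omega)]
      push_cast; ring
  intro m
  induction m with
  | zero =>
    rw [Nat.zero_add, ha.hr 2 3 (by norm_num) (by norm_num), ha.hz 2 3 (by norm_num)]
    have := a1 1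
    norm_num at this ⊢
    rw [this]
  | succ m ih =>
    rw [ha.hr 2 (m + 4) (by norm_num) (by omega)]
    have := a1 (m + 2)
    have e : 2 - 1 = 1 := rfl
    rw [e]
    have e2 : m + 2 + 2 = m + 4 := by ring
    rw [e2] at this
    rw [this]
    push_cast
    have : (0 : ℤ) ≤ m := by positivity
    linarith

/-- For the integer sequences a_i(n) and b_i(n) fixed by the given recurrences and initial conditions, b_i(n) ≤ a_i(2n) holds for every n and every i with 2 ≤ i ≤ n. -/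
theorem result :
  ∀ a b : ℕ → ℕ → ℤ,
    a 0 1 = 1 → a 1 2 = 1 →
    (∀ n : ℕ, 1 < n → a 0 n = 0) →
    (∀ i n : ℕ, n < 2 * i → a i n = 0) →
    (∀ i n : ℕ, 1 ≤ i → 1 ≤ n →
        a i (n + 1) = (i : ℤ) * a i n + ((n : ℤ) - 2 * (i : ℤ) + 2) * a (i - 1) n) →
    (∀ n : ℕ, 2 ≤ n → b 2 n = 1) →
    (∀ i n : ℕ, ¬ (2 ≤ i ∧ i ≤ n) → b i n = 0) →
    (∀ i n : ℕ, 3 ≤ i → i ≤ n →
        b i n = ∑ k ∈ Finset.range (i + 1),
          ((Nat.choose (2 * n - 2 * i + k) k : ℕ) : ℤ) *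
            ∑ r ∈ Finset.Icc 1 (i / 2),
              (-1 : ℤ) ^ (r - 1) * ((Nat.choose (i - k) (i - 2 * r) : ℕ) : ℤ) * b (i - k) (n - r)) →
    ∀ n i : ℕ, 2 ≤ i → i ≤ n → b i n ≤ a i (2 * n) := by
  intro a b h01 h12 h0 hz hr hb2 hbz hbr
  have ha : IsA a := ⟨h01, h12, h0, hz, hr⟩
  have key : ∀ n : ℕ, ∀ i : ℕ, 2 ≤ i → i ≤ n → |b i n| ≤ a i (2 * n) := by
    intro n
    induction n using Nat.strong_induction_on with
    | _ n ih =>
      intro i hi hin
      rcases Nat.lt_or_ge i 3 with h3 | h3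
      · have : i = 2 := by omega
        subst this
        rw [hb2 n hin]
        have := a_two ha (2 * n - 4)
        have e : 2 * n - 4 + 4 = 2 * n := by omega
        rw [e] at this
        simpa using this
      · have bound : ∀ l m : ℕ, 1 ≤ m → m < n → |b l m| ≤ a l (2 * m) := by
          intro l m hm hmn
          by_cases hl : 2 ≤ l ∧ l ≤ m
          · exact ih m hmn l hl.1 hl.2
          · rw [hbz l m hl, abs_zero]
            exact ha.nonneg (2 * m) l (by omega)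
        rw [hbr i n h3 hin]
        calc |∑ k ∈ Finset.range (i + 1),
              ((Nat.choose (2 * n - 2 * i + k) k : ℕ) : ℤ) *
                ∑ r ∈ Finset.Icc 1 (i / 2),
                  (-1 : ℤ) ^ (r - 1) * ((Nat.choose (i - k) (i - 2 * r) : ℕ) : ℤ) *
                    b (i - k) (n - r)|
            ≤ ∑ k ∈ Finset.range (i + 1),
                |((Nat.choose (2 * n - 2 * i + k) k : ℕ) : ℤ) *
                ∑ r ∈ Finset.Icc 1 (i / 2),
                  (-1 : ℤ) ^ (r - 1) * ((Nat.choose (i - k) (i - 2 * r) : ℕ) : ℤ) *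
                    b (i - k) (n - r)| := Finset.abs_sum_le_sum_abs _ _
          _ ≤ ∑ k ∈ Finset.range (i + 1),
                ((Nat.choose (2 * n - 2 * i + k) k : ℕ) : ℤ) *
                ∑ r ∈ Finset.Icc 1 (i / 2),
                  ((Nat.choose (i - k) (i - 2 * r) : ℕ) : ℤ) * a (i - k) (2 * (n - r)) := by
              apply Finset.sum_le_sum
              intro k _
              rw [abs_mul, abs_of_nonneg (by positivity :
                (0 : ℤ) ≤ ((Nat.choose (2 * n - 2 * i + k) k : ℕ) : ℤ))]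
              apply mul_le_mul_of_nonneg_left _ (by positivity)
              refine le_trans (Finset.abs_sum_le_sum_abs _ _) ?_
              apply Finset.sum_le_sum
              intro r hr'
              have hr'' := Finset.mem_Icc.mp hr'
              rw [abs_mul, abs_mul, abs_pow, abs_neg, abs_one, one_pow, one_mul,
                abs_of_nonneg (by positivity :
                (0 : ℤ) ≤ ((Nat.choose (i - k) (i - 2 * r) : ℕ) : ℤ))]
              apply mul_le_mul_of_nonneg_left _ (by positivity)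
              exact bound (i - k) (n - r) (by omega) (by omega)
          _ = ∑ r ∈ Finset.Icc 1 (i / 2), S a r n i := by
              simp only [Finset.mul_sum]
              rw [Finset.sum_comm]
              apply Finset.sum_congr rfl
              intro r _
              unfold S
              rw [if_pos hin]
              apply Finset.sum_congr rfl
              intro k _
              ring
          _ ≤ a i (2 * n) := by
              apply geo _ _ (ha.nonneg (2 * n) i (by omega))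
              intro r hr1 hr2
              exact S_le ha r hr1 n i (by omega) (by omega) hin
  intro n i hi hin
  exact le_trans (le_abs_self _) (key n i hi hin)

end Pool.Agent.S06609
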