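import Pool.Statements.S06631
import Pool.Agent.Helper715.Fin

set_option autoImplicit false
open Pool Pool.MP_9e8a45_co

namespace Pool.Agent.S06631

/-- For any two full-dimensional convex polytopes in 4-space, every inclusion-preserving bijection between their sets of edges and 2-faces extends to an inclusion-preserving bijection between all their nonempty faces. -/
theorem result :
    ∀ (S T : Finset (EuclideanSpace ℝ (Fin 4))),
      affineSpan ℝ (convexHull ℝ (S : Set (EuclideanSpace ℝ (Fin 4)))) = ⊤ →
      affineSpan ℝ (convexHull ℝ (T : Set (EuclideanSpace ℝ (Fin 4)))) = ⊤ →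
      ∀ φ : {F : Set (EuclideanSpace ℝ (Fin 4)) //
              IsExposed ℝ (convexHull ℝ (S : Set (EuclideanSpace ℝ (Fin 4)))) F ∧ F.Nonempty ∧
              (Module.finrank ℝ (affineSpan ℝ F).direction = 1 ∨
               Module.finrank ℝ (affineSpan ℝ F).direction = 2)} ≃o
            {F : Set (EuclideanSpace ℝ (Fin 4)) //
              IsExposed ℝ (convexHull ℝ (T : Set (EuclideanSpace ℝ (Fin 4)))) F ∧ F.Nonempty ∧
              (Module.finrank ℝ (affineSpan ℝ F).direction = 1 ∨
               Module.finrank ℝ (affineSpan ℝ F).direction = 2)},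
        ∃ ψ : {F : Set (EuclideanSpace ℝ (Fin 4)) //
                IsExposed ℝ (convexHull ℝ (S : Set (EuclideanSpace ℝ (Fin 4)))) F ∧ F.Nonempty} ≃o
              {F : Set (EuclideanSpace ℝ (Fin 4)) //
                IsExposed ℝ (convexHull ℝ (T : Set (EuclideanSpace ℝ (Fin 4)))) F ∧ F.Nonempty},
          ∀ F, (ψ ⟨F.1, F.2.1, F.2.2.1⟩).1 = (φ F).1 := by
  intro S T hS hT φ
  exact Pool.Agent.Helper715.final (by simp) S T hS hT φ

end Pool.Agent.S06631
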