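import Pool.Statements.S06655

set_option autoImplicit false
open Pool Pool.MP_a09f05_co

namespace Pool.Agent.S06655

section Abstract

variable {V C P : Type*} [DecidableEq V] {k : ℕ}

/-- The vertices of index `l` in the edges of colour `s`. -/
def Up (en : Finset V → Fin k → V) (c : Finset V → C) (s : C) (l : Fin k) : Set V :=
  {x | ∃ e : Finset V, e.card = k ∧ c e = s ∧ en e l = x}

/-- Some edge of colour `a` contains two vertices of the same index of the colour `s`. -/
def Inside (en : Finset V → Fin k → V) (c : Finset V → C) (a s : C) : Prop :=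
  ∃ e : Finset V, e.card = k ∧ c e = a ∧ ∃ i j l, i ≠ j ∧ en e i ∈ Up en c s l ∧ en e j ∈ Up en c s l

/-- A hierarchical system of labels compatible with the colouring `c`. -/
structure Sys (en : Finset V → Fin k → V) (c : Finset V → C) (R : ℕ) (A : ℕ → V → P → ℕ)
    (β : C → Fin k → Fin k → P) : Prop where
  hinj : ∀ e, e.card = k → Function.Injective (en e)
  himg : ∀ e, e.card = k → Finset.univ.image (en e) = e
  href : ∀ r x y b, A r x b = A r y b → A 0 x b = A 0 y b
  hsep : ∀ e, e.card = k → ∀ i j, i ≠ j → A 0 (en e i) (β (c e) i j) ≠ A 0 (en e j) (β (c e) i j)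
  htop : ∀ e e', e.card = k → e'.card = k → c e = c e' → ∀ l i j,
    A R (en e l) (β (c e) i j) = A R (en e' l) (β (c e) i j)
  hstep : ∀ r, r < R → ∀ e, e.card = k → ∀ i j b, i ≠ j → A (r+1) (en e i) b = A (r+1) (en e j) b →
      ∀ e', e'.card = k → c e' = c e → ∀ l, A r (en e' l) b = A r (en e l) b

theorem exists_indep {en : Finset V → Fin k → V} {c : Finset V → C} {R : ℕ} {A : ℕ → V → P → ℕ}
    {β : C → Fin k → Fin k → P}
    (h : Sys en c R A β) (F : Finset C) (hF : F.Nonempty) (hc : F.card ≤ R + 1) :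
    ∃ s ∈ F, ∀ a ∈ F, ¬ Inside en c a s := by
  classical
  by_contra hcon
  push Not at hcon
  choose! f hf hin using hcon
  obtain ⟨s0, hs0⟩ := hF
  set g : ℕ → C := fun i => f^[i] s0 with hg
  have hgF : ∀ i, g i ∈ F := by
    intro i
    induction i with
    | zero => simpa [hg] using hs0
    | succ i ih =>
      have : g (i+1) = f (g i) := by simp only [hg, Function.iterate_succ_apply']
      rw [this]; exact hf _ ih
  have hst : ∀ i, Inside en c (g (i+1)) (g i) := by
    intro i
    have : g (i+1) = f (g i) := by simp only [hg, Function.iterate_succ_apply']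
    rw [this]; exact hin _ (hgF i)
  have hpig : ∃ u v, u < v ∧ v ≤ F.card ∧ g u = g v := by
    obtain ⟨u, hu, v, hv, huv, he⟩ := Finset.exists_ne_map_eq_of_card_lt_of_maps_to
      (s := Finset.range (F.card+1)) (t := F) (by simp) (f := g) (fun i _ => hgF i)
    simp only [Finset.mem_range] at hu hv
    rcases lt_or_gt_of_ne huv with h1 | h1
    · exact ⟨u, v, h1, by omega, he⟩
    · exact ⟨v, u, h1, by omega, he.symm⟩
  obtain ⟨u, v, huv, hv, he⟩ := hpig
  obtain ⟨w, rfl⟩ : ∃ w, v = u + w + 1 := ⟨v - u - 1, by omega⟩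
  obtain ⟨e0, he0, hce0, i0, j0, l0, hij0, hx0, hy0⟩ := hst (u+w)
  -- the position that is followed along the cycle
  set b := β (g u) i0 j0 with hb
  have key : ∀ s, s ≤ R → ∀ l, ∀ y ∈ Up en c (g (u+s)) l, ∀ z ∈ Up en c (g (u+s)) l,
      A (R - s) y b = A (R - s) z b := by
    intro s
    induction s with
    | zero =>
      rintro _ l y ⟨e, hek, hce, rfl⟩ z ⟨e', hek', hce', rfl⟩
      have h1 := h.htop e e' hek hek' (hce.trans hce'.symm) l i0 j0
      rw [hce] at h1
      exact h1
    | succ s ih =>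
      rintro hs l y ⟨e, hek, hce, rfl⟩ z ⟨e', hek', hce', rfl⟩
      obtain ⟨e1, he1, hce1, i1, j1, l1, hij1, hx1, hy1⟩ := hst (u+s)
      have e2 := ih (by omega) l1 _ hx1 _ hy1
      have hR : R - s = (R - (s+1)) + 1 := by omega
      rw [hR] at e2
      have h2 := h.hstep (R-(s+1)) (by omega) e1 he1 i1 j1 b hij1 e2
      rw [h2 e hek (hce.trans hce1.symm) l, h2 e' hek' (hce'.trans hce1.symm) l]
  have e1 := key w (by omega) l0 _ hx0 _ hy0
  have e2 := h.href _ _ _ _ e1
  have e3 := h.hsep e0 he0 i0 j0 hij0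
  rw [hce0, ← he] at e3
  exact e3 e2

theorem card_colors {en : Finset V → Fin k → V} {c : Finset V → C} [DecidableEq C] {R : ℕ}
    {A : ℕ → V → P → ℕ} {β : C → Fin k → Fin k → P} (hk : 2 ≤ k) (h : Sys en c R A β) :
    ∀ (p : ℕ) (X : Finset V), X.card = p → ((X.powersetCard k).image c).card ≤ R + 1 →
      (p - 1).choose (k - 1) ≤ ((X.powersetCard k).image c).card := by
  classical
  intro p
  induction p with
  | zero =>
    intro X _ _
    have : (0 - 1).choose (k - 1) = 0 := Nat.choose_eq_zero_of_lt (by omega)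
    rw [this]; exact Nat.zero_le _
  | succ p ih =>
    intro X hX hR
    rcases Nat.lt_or_ge p k with hpk | hpk
    · -- small cases
      rcases Nat.lt_or_ge (p + 1) k with h1 | h1
      · have : (p + 1 - 1).choose (k - 1) = 0 := Nat.choose_eq_zero_of_lt (by omega)
        rw [this]; exact Nat.zero_le _
      · have h2 : p + 1 - 1 = k - 1 := by omega
        rw [h2, Nat.choose_self]
        have h3 : X ∈ X.powersetCard k := Finset.mem_powersetCard.mpr ⟨Finset.Subset.refl _, by omega⟩
        exact Finset.card_pos.mpr ⟨c X, Finset.mem_image_of_mem c h3⟩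
    · -- the main case
      set F := (X.powersetCard k).image c with hF
      -- pair-complete subsets of `F` whose complement consists of colours used once
      let Cov : Finset C → Prop := fun F' => ∀ u ∈ X, ∀ v ∈ X, u ≠ v →
        ∃ e ∈ X.powersetCard k, c e ∈ F' ∧ u ∈ e ∧ v ∈ e
      let One : C → Prop := fun s => ∀ e ∈ X.powersetCard k, ∀ e' ∈ X.powersetCard k,
        c e = s → c e' = s → e = e'
      let Fam : Finset (Finset C) := F.powerset.filter (fun F' => Cov F' ∧ ∀ s ∈ F, s ∉ F' → One s)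
      have hFam : F ∈ Fam := by
        refine Finset.mem_filter.mpr ⟨Finset.mem_powerset_self F, ?_, fun s hs hs' => absurd hs hs'⟩
        intro u hu v hv huv
        have h1 : ({u, v} : Finset V) ⊆ X := by
          intro x hx
          rcases Finset.mem_insert.mp hx with rfl | hx
          · exact hu
          · rw [Finset.mem_singleton.mp hx]; exact hv
        obtain ⟨e, he1, he2, he3⟩ := Finset.exists_subsuperset_card_eq h1
          (by rw [Finset.card_pair huv]; exact hk) (by omega : k ≤ X.card)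
        have he : e ∈ X.powersetCard k := Finset.mem_powersetCard.mpr ⟨he2, he3⟩
        exact ⟨e, he, Finset.mem_image_of_mem c he, he1 (by simp), he1 (by simp)⟩
      obtain ⟨F', hF', hmin⟩ := Finset.exists_min_image Fam Finset.card ⟨F, hFam⟩
      rw [Finset.mem_filter, Finset.mem_powerset] at hF'
      obtain ⟨hsub, hcov, hone⟩ := hF'
      have hXne : ∃ u ∈ X, ∃ v ∈ X, u ≠ v := by
        have : 1 < X.card := by omega
        obtain ⟨u, hu, v, hv, huv⟩ := Finset.one_lt_card.mp this
        exact ⟨u, hu, v, hv, huv⟩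
      have hne : F'.Nonempty := by
        obtain ⟨u, hu, v, hv, huv⟩ := hXne
        obtain ⟨e, _, hce, _⟩ := hcov u hu v hv huv
        exact ⟨_, hce⟩
      obtain ⟨s, hs, hind⟩ := exists_indep h F' hne ((Finset.card_le_card hsub).trans hR)
      have hs1 : One s := by
        intro e he e' he' hce hce'
        have hek := (Finset.mem_powersetCard.mp he).2
        have hek' := (Finset.mem_powersetCard.mp he').2
        have hsubX := (Finset.mem_powersetCard.mp he).1
        have hsubX' := (Finset.mem_powersetCard.mp he').1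
        have hall : ∀ l, en e l = en e' l := by
          intro l
          by_contra hne'
          have hm : ∀ (e : Finset V), e.card = k → ∀ l, en e l ∈ e := by
            intro e hek l
            have := h.himg e hek
            have h1 : en e l ∈ Finset.univ.image (en e) := Finset.mem_image_of_mem _ (Finset.mem_univ l)
            rwa [this] at h1
          obtain ⟨e2, he2, hce2, hu2, hv2⟩ := hcov _ (hsubX (hm e hek l)) _ (hsubX' (hm e' hek' l)) hne'
          have hek2 := (Finset.mem_powersetCard.mp he2).2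
          rw [← h.himg e2 hek2, Finset.mem_image] at hu2 hv2
          obtain ⟨i, _, hi⟩ := hu2
          obtain ⟨j, _, hj⟩ := hv2
          refine hind _ hce2 ⟨e2, hek2, rfl, i, j, l, ?_, ?_, ?_⟩
          · intro hij
            subst hij
            exact hne' (hi.symm.trans hj)
          · exact ⟨e, hek, hce, hi.symm⟩
          · exact ⟨e', hek', hce', hj.symm⟩
        rw [← h.himg e hek, ← h.himg e' hek']
        congr 1
        funext l
        exact hall l
      have hnot : ¬ Cov (F'.erase s) := by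
        intro hcov'
        have h1 : F'.erase s ∈ Fam := by
          refine Finset.mem_filter.mpr ⟨Finset.mem_powerset.mpr
            ((Finset.erase_subset _ _).trans hsub), hcov', ?_⟩
          intro s' hs' hns'
          by_cases hss : s' = s
          · subst hss; exact hs1
          · exact hone s' hs' (fun h2 => hns' (Finset.mem_erase.mpr ⟨hss, h2⟩))
        have h2 := hmin _ h1
        rw [Finset.card_erase_of_mem hs] at h2
        have h3 : 0 < F'.card := Finset.card_pos.mpr hne
        omega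
      simp only [Cov] at hnot
      push Not at hnot
      obtain ⟨u, hu, v, hv, huv, hunc⟩ := hnot
      -- all the edges through `u` and `v` have colours used once
      have honly : ∀ e ∈ X.powersetCard k, u ∈ e → v ∈ e → One (c e) := by
        intro e he hue hve
        by_cases h1 : c e ∈ F'.erase s
        · exact absurd hve (hunc e he h1 hue)
        · by_cases hss : c e = s
          · rw [hss]; exact hs1
          · exact hone _ (Finset.mem_image_of_mem c he)
              (fun h2 => h1 (Finset.mem_erase.mpr ⟨hss, h2⟩))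
      set Y := (X.erase v).erase u with hY
      have huv' : u ∈ X.erase v := Finset.mem_erase.mpr ⟨huv, hu⟩
      have hYcard : Y.card = p - 1 := by
        rw [hY, Finset.card_erase_of_mem huv', Finset.card_erase_of_mem hv, hX]
        omega
      let G : Finset (Finset V) := (Y.powersetCard (k-2)).image (fun Z => insert u (insert v Z))
      have huY : u ∉ Y := Finset.notMem_erase _ _
      have hvY : v ∉ Y := fun h1 => (Finset.notMem_erase v X) (Finset.mem_of_mem_erase h1)
      have hG : ∀ e ∈ G, e ∈ X.powersetCard k ∧ u ∈ e ∧ v ∈ e := by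
        intro e he
        obtain ⟨Z, hZ, rfl⟩ := Finset.mem_image.mp he
        obtain ⟨hZ1, hZ2⟩ := Finset.mem_powersetCard.mp hZ
        refine ⟨Finset.mem_powersetCard.mpr ⟨?_, ?_⟩, by simp, by simp⟩
        · intro x hx
          rcases Finset.mem_insert.mp hx with rfl | hx
          · exact hu
          · rcases Finset.mem_insert.mp hx with rfl | hx
            · exact hv
            · exact Finset.mem_of_mem_erase (Finset.mem_of_mem_erase (hZ1 hx))
        · rw [Finset.card_insert_of_notMem, Finset.card_insert_of_notMem, hZ2]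
          · omega
          · exact fun h1 => hvY (hZ1 h1)
          · intro h1
            rcases Finset.mem_insert.mp h1 with h1 | h1
            · exact huv h1
            · exact huY (hZ1 h1)
      have hGcard : G.card = (p - 1).choose (k - 2) := by
        rw [Finset.card_image_of_injOn, Finset.card_powersetCard, hYcard]
        intro Z hZ Z' hZ' hZZ
        have hZ1 := (Finset.mem_powersetCard.mp (Finset.mem_coe.mp hZ)).1
        have hZ1' := (Finset.mem_powersetCard.mp (Finset.mem_coe.mp hZ')).1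
        ext x
        have h1 : x ∈ insert u (insert v Z) ↔ x ∈ insert u (insert v Z') := by
          have : insert u (insert v Z) = insert u (insert v Z') := hZZ
          rw [this]
        simp only [Finset.mem_insert] at h1
        constructor
        · intro hx
          rcases h1.mp (Or.inr (Or.inr hx)) with h2 | h2 | h2
          · exact absurd (h2 ▸ hZ1 hx) huY
          · exact absurd (h2 ▸ hZ1 hx) hvY
          · exact h2
        · intro hx
          rcases h1.mpr (Or.inr (Or.inr hx)) with h2 | h2 | h2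
          · exact absurd (h2 ▸ hZ1' hx) huY
          · exact absurd (h2 ▸ hZ1' hx) hvY
          · exact h2
      have hGc : (G.image c).card = G.card := by
        apply Finset.card_image_of_injOn
        intro e he e' he' hee
        have h1 := hG e (Finset.mem_coe.mp he)
        have h2 := hG e' (Finset.mem_coe.mp he')
        exact honly e h1.1 h1.2.1 h1.2.2 e h1.1 e' h2.1 rfl hee.symm
      have hsubs : ((X.erase v).powersetCard k).image c ⊆ F :=
        Finset.image_subset_image (Finset.powersetCard_mono (Finset.erase_subset _ _))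
      have hdisj : Disjoint (((X.erase v).powersetCard k).image c) (G.image c) := by
        rw [Finset.disjoint_left]
        intro a ha ha'
        obtain ⟨e, he, rfl⟩ := Finset.mem_image.mp ha
        obtain ⟨e', he', hee⟩ := Finset.mem_image.mp ha'
        have h1 := hG e' he'
        have he2 : e ∈ X.powersetCard k := Finset.powersetCard_mono (Finset.erase_subset _ _) he
        have h3 := honly e' h1.1 h1.2.1 h1.2.2 e' h1.1 e he2 rfl hee.symm
        have h4 : v ∈ e := h3 ▸ h1.2.2
        exact Finset.notMem_erase v X ((Finset.mem_powersetCard.mp he).1 h4)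
      have hGsub : G.image c ⊆ F := by
        apply Finset.image_subset_image
        intro e he
        exact (hG e he).1
      have hih := ih (X.erase v) (by rw [Finset.card_erase_of_mem hv, hX]; omega)
        ((Finset.card_le_card hsubs).trans hR)
      have hfin : (((X.erase v).powersetCard k).image c).card + (G.image c).card ≤ F.card := by
        rw [← Finset.card_union_of_disjoint hdisj]
        exact Finset.card_le_card (Finset.union_subset hsubs hGsub)
      rw [hGc, hGcard] at hfin
      have hpas : (p + 1 - 1).choose (k - 1) = (p - 1).choose (k - 2) + (p - 1).choose (k - 1) := by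
        obtain ⟨q, rfl⟩ : ∃ q, p = q + 1 := ⟨p - 1, by omega⟩
        obtain ⟨j, rfl⟩ : ∃ j, k = j + 2 := ⟨k - 2, by omega⟩
        exact Nat.choose_succ_succ q j
      omega

end Abstract

section Concrete

/-- Pairwise coprime base moduli. -/
def Md (W i : ℕ) : ℕ := (i + 1) * W + 1

theorem Md_coprime {W L : ℕ} (hW : ∀ d, 0 < d → d < L → d ∣ W) {i j : ℕ} (hi : i < L) (hj : j < L)
    (hij : i ≠ j) : Nat.Coprime (Md W i) (Md W j) := by
  by_contra hcon
  rw [Nat.Prime.not_coprime_iff_dvd] at hcon
  obtain ⟨p, hp, h1, h2⟩ := hcon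
  have hpW : ¬ p ∣ W := by
    intro h
    have h3 : p ∣ (i + 1) * W := h.mul_left _
    have h4 : p ∣ 1 := (Nat.dvd_add_right h3).mp h1
    exact hp.one_lt.ne' (Nat.dvd_one.mp h4)
  have key : ∀ a b : ℕ, a < b → b < L → p ∣ Md W a → p ∣ Md W b → False := by
    intro a b hab hb ha hb'
    have h5 : p ∣ Md W b - Md W a := Nat.dvd_sub hb' ha
    have h6 : Md W b - Md W a = (b - a) * W := by
      obtain ⟨e, rfl⟩ := Nat.exists_eq_add_of_lt hab
      unfold Md
      have : a + e + 1 - a = e + 1 := by omega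
      rw [this]
      have h7 : (a + e + 1 + 1) * W + 1 = (e + 1) * W + ((a + 1) * W + 1) := by ring
      rw [h7]
      exact Nat.add_sub_cancel _ _
    rw [h6] at h5
    rcases hp.dvd_mul.mp h5 with h8 | h8
    · have h9 : p ≤ b - a := Nat.le_of_dvd (by omega) h8
      exact hpW (hW p hp.pos (by omega))
    · exact hpW h8
  rcases lt_or_gt_of_ne hij with h | h
  · exact key i j h hj h1 h2
  · exact key j i h hi h2 h1

/-- The modulus of level `r` at the position `b`. -/
def Nm (W B R r b : ℕ) : ℕ := ∏ i ∈ Finset.range (B ^ r), Md W (b * B ^ R + i)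

/-- The label of level `r`. -/
def Lab (W B R : ℕ) {n T : ℕ} (r : ℕ) (x : Fin n) (b : Fin T) : ℕ := (x : ℕ) % Nm W B R r b

theorem Nm_pos (W B R r b : ℕ) : 0 < Nm W B R r b :=
  Finset.prod_pos (fun _ _ => Nat.succ_pos _)

theorem Nm_zero_dvd {W B R : ℕ} (hB : 1 ≤ B) (r b : ℕ) : Nm W B R 0 b ∣ Nm W B R r b := by
  unfold Nm
  apply Finset.prod_dvd_prod_of_subset
  intro i hi
  simp only [Finset.mem_range, pow_zero] at hi ⊢
  have : 1 ≤ B ^ r := Nat.one_le_pow _ _ hB
  omega

theorem le_Md {W m i : ℕ} (hm : m ≤ W) : m ≤ Md W i := by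
  unfold Md
  nlinarith [Nat.zero_le (i * W)]

theorem le_Nm {W B R m : ℕ} (hm : m ≤ W) (r b : ℕ) : m ^ (B ^ r) ≤ Nm W B R r b := by
  unfold Nm
  calc m ^ (B ^ r) = ∏ _i ∈ Finset.range (B ^ r), m := by simp
    _ ≤ _ := Finset.prod_le_prod' (fun i _ => le_Md hm)

theorem Nm_le {W B R M : ℕ} {T : ℕ} (hB : 1 ≤ B) (hM : ∀ i, i < T * B ^ R → Md W i ≤ M) {r b : ℕ}
    (hr : r ≤ R) (hb : b < T) : Nm W B R r b ≤ M ^ (B ^ r) := by
  unfold Nm
  calc _ ≤ ∏ _i ∈ Finset.range (B ^ r), M := by
        apply Finset.prod_le_prod'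
        intro i hi
        apply hM
        rw [Finset.mem_range] at hi
        have h1 : B ^ r ≤ B ^ R := Nat.pow_le_pow_right hB hr
        have h2 : (b + 1) * B ^ R ≤ T * B ^ R := Nat.mul_le_mul_right _ hb
        nlinarith
    _ = _ := by simp

theorem Nm_coprime {W B R T : ℕ} (hB : 1 ≤ B) (hW : ∀ d, 0 < d → d < T * B ^ R → d ∣ W) {r b b' : ℕ}
    (hr : r ≤ R) (hb : b < T) (hb' : b' < T) (hbb : b ≠ b') :
    Nat.Coprime (Nm W B R r b) (Nm W B R r b') := by
  unfold Nm
  apply Nat.Coprime.prod_left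
  intro i hi
  apply Nat.Coprime.prod_right
  intro j hj
  rw [Finset.mem_range] at hi hj
  have h1 : B ^ r ≤ B ^ R := Nat.pow_le_pow_right hB hr
  have h2 : (b + 1) * B ^ R ≤ T * B ^ R := Nat.mul_le_mul_right _ hb
  have h3 : (b' + 1) * B ^ R ≤ T * B ^ R := Nat.mul_le_mul_right _ hb'
  apply Md_coprime hW
  · nlinarith
  · nlinarith
  · intro heq
    rcases lt_or_gt_of_ne hbb with h | h
    · have : (b + 1) * B ^ R ≤ b' * B ^ R := Nat.mul_le_mul_right _ h
      nlinarith
    · have : (b' + 1) * B ^ R ≤ b * B ^ R := Nat.mul_le_mul_right _ h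
      nlinarith

/-- The set of positions of agreement of level `r`. -/
def Ag (W B R : ℕ) {n T : ℕ} (r : ℕ) (x y : Fin n) : Finset (Fin T) :=
  Finset.univ.filter (fun b => Lab W B R r x b = Lab W B R r y b)

theorem card_Ag {W B R n T m : ℕ} (hB : 1 ≤ B) (hW : ∀ d, 0 < d → d < T * B ^ R → d ∣ W)
    (hm : m ≤ W) (hn : n ≤ m ^ T) {r : ℕ} (hr : r ≤ R) {x y : Fin n} (hxy : x < y) :
    B ^ r * (Ag W B R (T := T) r x y).card < T := by
  by_contra hcon
  push Not at hcon
  have hxy' : (x : ℕ) < (y : ℕ) := hxy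
  have hdvd : ∏ b ∈ Ag W B R (T := T) r x y, Nm W B R r b ∣ (y : ℕ) - (x : ℕ) := by
    apply Finset.prod_dvd_of_isRelPrime
    · intro b _ b' _ hbb
      rw [Function.onFun, ← Nat.coprime_iff_isRelPrime]
      exact Nm_coprime hB hW hr b.2 b'.2 (fun h => hbb (Fin.ext h))
    · intro b hb
      have hb2 : Lab W B R r x b = Lab W B R r y b := (Finset.mem_filter.mp hb).2
      exact (Nat.modEq_iff_dvd' hxy'.le).mp hb2
  have h1 : ∏ b ∈ Ag W B R (T := T) r x y, Nm W B R r b ≤ (y : ℕ) - (x : ℕ) :=
    Nat.le_of_dvd (by omega) hdvd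
  have h2 : (m ^ (B ^ r)) ^ (Ag W B R (T := T) r x y).card ≤
      ∏ b ∈ Ag W B R (T := T) r x y, Nm W B R r b := by
    rw [← Finset.prod_const]
    exact Finset.prod_le_prod' (fun b _ => le_Nm hm r b)
  have hm0 : 0 < m := by
    rcases Nat.eq_zero_or_pos m with h0 | h0
    · exfalso
      subst h0
      rcases Nat.eq_zero_or_pos T with hT | hT
      · subst hT
        simp at hn
        have := y.2
        omega
      · rw [zero_pow hT.ne'] at hn
        have := y.2
        omega
    · exact h0
  have h3 : m ^ T ≤ (m ^ (B ^ r)) ^ (Ag W B R (T := T) r x y).card := by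
    rw [← pow_mul]
    exact Nat.pow_le_pow_right hm0 hcon
  have := y.2
  omega

theorem exists_enum {T : ℕ} (hT : 0 < T) (κ : ℕ) (D : Finset (Fin T)) :
    ∃ e : Fin κ → Fin T, D.card ≤ κ → ∀ b ∈ D, ∃ i, e i = b := by
  classical
  by_cases h : D.card ≤ κ
  · refine ⟨fun i => if hi : (i : ℕ) < D.card then (D.equivFin.symm ⟨i, hi⟩ : Fin T) else ⟨0, hT⟩, ?_⟩
    intro _ b hb
    have h1 := (D.equivFin ⟨b, hb⟩).2
    refine ⟨⟨(D.equivFin ⟨b, hb⟩ : ℕ), lt_of_lt_of_le h1 h⟩, ?_⟩
    dsimp only
    rw [dif_pos h1]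
    simp
  · exact ⟨fun _ => ⟨0, hT⟩, fun h' => absurd h' h⟩

theorem exists_sep {W B R n T m : ℕ} (hB : 1 ≤ B) (hW : ∀ d, 0 < d → d < T * B ^ R → d ∣ W)
    (hm : m ≤ W) (hn : n ≤ m ^ T) {x y : Fin n} (hxy : x < y) :
    ∃ b : Fin T, Lab W B R 0 x b ≠ Lab W B R 0 y b := by
  by_contra hcon
  push Not at hcon
  have h1 := card_Ag hB hW hm hn (Nat.zero_le R) hxy
  have h2 : Ag W B R (T := T) 0 x y = Finset.univ := by
    ext b
    simp [Ag, hcon b]
  rw [h2] at h1
  simp at h1

theorem Ag_comm {W B R n T : ℕ} (r : ℕ) (x y : Fin n) :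
    Ag W B R (T := T) r x y = Ag W B R r y x := by
  ext b
  simp only [Ag, Finset.mem_filter, Finset.mem_univ, true_and]
  exact eq_comm

/-- The type of colours. -/
abbrev Col (k T R : ℕ) (σ κ : ℕ → ℕ) : Type :=
  (Fin k → Fin k → Fin T) × (Fin k → Fin k → Fin k → Fin (σ R)) ×
    ((r : Fin R) → Fin k → Fin k → Finset (Fin T) × (Fin (κ r) → Fin k → Fin (σ r)))

theorem card_Col (k T R : ℕ) (σ κ : ℕ → ℕ) :
    Fintype.card (Col k T R σ κ) = (T ^ k) ^ k * ((((σ R) ^ k) ^ k) ^ k *
      ∏ r : Fin R, ((2 ^ T * ((σ r) ^ k) ^ (κ r)) ^ k) ^ k) := by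
  have h1 : Fintype.card (Fin k → Fin k → Fin T) = (T ^ k) ^ k := by
    simp only [Fintype.card_fun, Fintype.card_fin]
  have h2 : Fintype.card (Fin k → Fin k → Fin k → Fin (σ R)) = (((σ R) ^ k) ^ k) ^ k := by
    simp only [Fintype.card_fun, Fintype.card_fin]
  have h3 : Fintype.card ((r : Fin R) → Fin k → Fin k →
      Finset (Fin T) × (Fin (κ r) → Fin k → Fin (σ r))) =
      ∏ r : Fin R, ((2 ^ T * ((σ r) ^ k) ^ (κ r)) ^ k) ^ k := by
    rw [Fintype.card_pi]
    apply Finset.prod_congr rfl
    intro r _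
    simp only [Fintype.card_fun, Fintype.card_fin, Fintype.card_prod, Fintype.card_finset]
  unfold Col
  rw [Fintype.card_prod, Fintype.card_prod, h1, h2, h3]

theorem exists_en {n : ℕ} (hn : 0 < n) (k : ℕ) (e : Finset (Fin n)) :
    ∃ f : Fin k → Fin n, e.card = k →
    Function.Injective f ∧ Finset.univ.image f = e := by
  classical
  by_cases h : e.card = k
  · refine ⟨fun i => e.orderEmbOfFin h i, fun _ => ⟨?_, ?_⟩⟩
    · intro i j hij
      exact (e.orderEmbOfFin h).injective hij
    · ext x
      rw [Finset.mem_image]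
      constructor
      · rintro ⟨i, _, rfl⟩
        exact Finset.orderEmbOfFin_mem e h i
      · intro hx
        have h1 : x ∈ Set.range (e.orderEmbOfFin h) := by
          rw [Finset.range_orderEmbOfFin]
          exact hx
        obtain ⟨i, hi⟩ := h1
        exact ⟨i, Finset.mem_univ i, hi⟩
  · exact ⟨fun _ => ⟨0, hn⟩, fun h' => absurd h' h⟩

/-- The main construction. -/
theorem exists_edge_coloring {k B R n T m : ℕ} (hk : 2 ≤ k) (hB : 1 ≤ B) (hT : T = B ^ (R + 1))
    (hm : 1 ≤ m) (hn0 : 0 < n) (hn : n ≤ m ^ T) :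
    ∃ c : Finset (Fin n) → ℕ,
      (∀ X : Finset (Fin n), (X.card - 1).choose (k - 1) ≤ R + 1 →
        (X.card - 1).choose (k - 1) ≤ ((X.powersetCard k).image c).card) ∧
      ((((Finset.univ : Finset (Fin n)).powersetCard k).image c).card) ≤
        (T ^ k) ^ k * (((2 ^ T) ^ k) ^ k) ^ R *
          (((T * B ^ R) * (T * B ^ R).factorial + 1) * m) ^ (k ^ 3 * (R + 1) * B ^ R) := by
  classical
  have hT0 : 0 < T := by rw [hT]; positivity
  set L := T * B ^ R with hL
  set W := m * L.factorial with hWdef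
  have hW : ∀ d, 0 < d → d < T * B ^ R → d ∣ W := fun d h1 h2 =>
    (Nat.dvd_factorial h1 h2.le).mul_left _
  have hmW : m ≤ W := Nat.le_mul_of_pos_right _ (Nat.factorial_pos _)
  set M := (L * L.factorial + 1) * m with hM
  have hMd : ∀ i, i < T * B ^ R → Md W i ≤ M := by
    intro i hi
    have h1 : (i + 1) * W ≤ L * W := Nat.mul_le_mul_right _ hi
    have h2 : M = L * W + m := by rw [hM, hWdef]; ring
    unfold Md
    omega
  set σ : ℕ → ℕ := fun r => M ^ (B ^ r) with hσ
  set κ : ℕ → ℕ := fun r => B ^ (R - r) with hκ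
  choose e he using fun (r : ℕ) (D : Finset (Fin T)) => exists_enum hT0 (κ r) D
  choose en hen using fun (E : Finset (Fin n)) => exists_en hn0 k E
  have hlab : ∀ (r : ℕ), r ≤ R → ∀ (x : Fin n) (b : Fin T), Lab W B R r x b < σ r := by
    intro r hr x b
    exact lt_of_lt_of_le (Nat.mod_lt _ (Nm_pos _ _ _ _ _)) (Nm_le hB hMd hr b.2)
  have hbeta : ∀ x y : Fin n, ∃ b : Fin T, x ≠ y → Lab W B R 0 x b ≠ Lab W B R 0 y b := by
    intro x y
    by_cases hxy : x = y
    · exact ⟨⟨0, hT0⟩, fun h => absurd hxy h⟩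
    · rcases lt_or_gt_of_ne hxy with h1 | h1
      · obtain ⟨b, hb⟩ := exists_sep hB hW hmW hn h1
        exact ⟨b, fun _ => hb⟩
      · obtain ⟨b, hb⟩ := exists_sep hB hW hmW hn h1
        exact ⟨b, fun _ => hb.symm⟩
  choose bt hbt using hbeta
  have hcardAg : ∀ r, r < R → ∀ x y : Fin n, x ≠ y →
      (Ag W B R (T := T) (r + 1) x y).card ≤ κ r := by
    intro r hr x y hxy
    have h2 : T = B ^ (r + 1) * B ^ (R - r) := by
      rw [hT, ← pow_add]; congr 1; omega
    have h1 : B ^ (r + 1) * (Ag W B R (T := T) (r + 1) x y).card < T := by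
      rcases lt_or_gt_of_ne hxy with h1 | h1
      · exact card_Ag (T := T) hB hW hmW hn (r := r + 1) hr h1
      · rw [Ag_comm]
        exact card_Ag (T := T) hB hW hmW hn (r := r + 1) hr h1
    have h3 : B ^ (r + 1) * (Ag W B R (T := T) (r + 1) x y).card < B ^ (r + 1) * B ^ (R - r) :=
      lt_of_lt_of_eq h1 h2
    exact (Nat.lt_of_mul_lt_mul_left h3).le
  let c : Finset (Fin n) → Col k T R σ κ := fun E =>
    (fun i j => bt (en E i) (en E j),
      fun l i j => ⟨Lab W B R R (en E l) (bt (en E i) (en E j)), hlab R le_rfl _ _⟩,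
      fun r i j => (Ag W B R (r + 1) (en E i) (en E j),
        fun t l => ⟨Lab W B R r (en E l) (e r (Ag W B R (r + 1) (en E i) (en E j)) t),
          hlab r r.2.le _ _⟩))
  have hsys : Sys en c R (fun r x b => Lab W B R r x b) (fun a => a.1) := by
    constructor
    · intro E hE
      exact (hen E hE).1
    · intro E hE
      exact (hen E hE).2
    · intro r x y b h
      exact Nat.ModEq.of_dvd (Nm_zero_dvd hB r b) h
    · intro E hE i j hij
      exact hbt _ _ (fun h => hij ((hen E hE).1 h))
    · intro E E' _ _ hc l i j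
      have h1 : bt (en E i) (en E j) = bt (en E' i) (en E' j) := congrArg (fun a => a.1 i j) hc
      have h2 : Lab W B R R (en E l) (bt (en E i) (en E j)) =
          Lab W B R R (en E' l) (bt (en E' i) (en E' j)) :=
        congrArg (fun a => (a.2.1 l i j : ℕ)) hc
      rw [← h1] at h2
      exact h2
    · intro r hr E hE i j b hij hb E' hE' hc l
      have hne : en E i ≠ en E j := fun h => hij ((hen E hE).1 h)
      have hmem : b ∈ Ag W B R (T := T) (r + 1) (en E i) (en E j) := by
        simp only [Ag, Finset.mem_filter, Finset.mem_univ, true_and]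
        exact hb
      obtain ⟨t, ht⟩ := he r _ (hcardAg r hr _ _ hne) b hmem
      have h0 : (c E').2.2 ⟨r, hr⟩ i j = (c E).2.2 ⟨r, hr⟩ i j := by rw [hc]
      have h1 : Ag W B R (T := T) (r + 1) (en E' i) (en E' j) = Ag W B R (r + 1) (en E i) (en E j) :=
        congrArg (fun a => a.1) h0
      have h2 : Lab W B R r (en E' l) (e r (Ag W B R (r + 1) (en E' i) (en E' j)) t) =
          Lab W B R r (en E l) (e r (Ag W B R (r + 1) (en E i) (en E j)) t) :=
        congrArg (fun a => ((a.2 t l : Fin (σ r)) : ℕ)) h0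
      rw [h1, ht] at h2
      exact h2
  let F := Fintype.equivFin (Col k T R σ κ)
  have hFinj : Function.Injective (fun a => (F a : ℕ)) := fun a b hab =>
    F.injective (Fin.ext hab)
  refine ⟨fun E => (F (c E) : ℕ), ?_, ?_⟩
  · intro X hX
    have h1 : (X.powersetCard k).image (fun E => (F (c E) : ℕ)) =
        ((X.powersetCard k).image c).image (fun a => (F a : ℕ)) := by
      rw [Finset.image_image]; rfl
    rw [h1, Finset.card_image_of_injective _ hFinj]
    rcases Nat.lt_or_ge (R + 1) ((X.powersetCard k).image c).card with h2 | h2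
    · omega
    · exact card_colors hk hsys X.card X rfl h2
  · have h1 : ((((Finset.univ : Finset (Fin n)).powersetCard k).image
        (fun E => (F (c E) : ℕ))).card) ≤ Fintype.card (Col k T R σ κ) := by
      calc _ ≤ (Finset.range (Fintype.card (Col k T R σ κ))).card := by
            apply Finset.card_le_card
            intro a ha
            obtain ⟨E, _, rfl⟩ := Finset.mem_image.mp ha
            exact Finset.mem_range.mpr (F (c E)).2
        _ = _ := Finset.card_range _
    refine h1.trans (le_of_eq ?_)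
    rw [card_Col]
    have h1 : ∀ r : Fin R, ((2 ^ T * ((σ r) ^ k) ^ (κ r)) ^ k) ^ k =
        ((2 ^ T) ^ k) ^ k * M ^ (k ^ 3 * B ^ R) := by
      intro r
      rw [hσ, hκ]
      dsimp only
      rw [mul_pow, mul_pow]
      congr 1
      rw [← pow_mul, ← pow_mul, ← pow_mul, ← pow_mul]
      congr 1
      have h3 : B ^ R = B ^ (r : ℕ) * B ^ (R - r) := by
        rw [← pow_add]; congr 1
        have := r.2
        omega
      rw [h3]
      ring
    rw [Finset.prod_congr rfl (fun r _ => h1 r)]
    rw [Finset.prod_const, Finset.card_univ, Fintype.card_fin, mul_pow]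
    have h2 : σ R = M ^ (B ^ R) := rfl
    rw [h2, ← pow_mul, ← pow_mul, ← pow_mul, ← pow_mul M]
    have h3 : k ^ 3 * (R + 1) * B ^ R = B ^ R * k * k * k + k ^ 3 * B ^ R * R := by ring
    rw [h3, pow_add]
    ring

theorem bound (k : ℕ) (hk : 2 ≤ k) (p B : ℕ) (hB : 1 ≤ B) :
    ∃ C1 : ℕ, ∀ n, 1 ≤ n → ∃ c : Finset (Fin n) → ℕ,
      (∀ X : Finset (Fin n), X.card = p →
        (p - 1).choose (k - 1) ≤ ((X.powersetCard k).image c).card) ∧
      ((((Finset.univ : Finset (Fin n)).powersetCard k).image c).card) ^ B ≤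
        C1 * n ^ (k ^ 3 * ((p - 1).choose (k - 1) + 1)) := by
  set R := (p - 1).choose (k - 1) with hR
  set T := B ^ (R + 1) with hT
  set c0 := (T * B ^ R) * (T * B ^ R).factorial + 1 with hc0
  set a0 := (T ^ k) ^ k * (((2 ^ T) ^ k) ^ k) ^ R with ha0
  set E := k ^ 3 * (R + 1) with hE
  refine ⟨a0 ^ B * c0 ^ (T * E) * (2 ^ T) ^ E, ?_⟩
  intro n hn
  have hT0 : 0 < T := by rw [hT]; positivity
  have hex : ∃ m, n ≤ m ^ T := ⟨n, Nat.le_self_pow hT0.ne' n⟩
  classical
  obtain ⟨m, hm, hmin⟩ : ∃ m, n ≤ m ^ T ∧ ∀ m' < m, ¬ n ≤ m' ^ T :=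
    ⟨Nat.find hex, Nat.find_spec hex, fun m' h => Nat.find_min hex h⟩
  have hm1 : 1 ≤ m := by
    rcases Nat.eq_zero_or_pos m with h0 | h0
    · subst h0
      rw [zero_pow hT0.ne'] at hm
      omega
    · exact h0
  have hmT : m ^ T ≤ 2 ^ T * n := by
    rcases Nat.lt_or_ge m 2 with h2 | h2
    · have : m = 1 := by omega
      subst this
      rw [one_pow]
      exact Nat.mul_pos (by positivity) hn
    · have h3 := hmin (m - 1) (by omega)
      have h4 : m ≤ 2 * (m - 1) := by omega
      calc m ^ T ≤ (2 * (m - 1)) ^ T := Nat.pow_le_pow_left h4 T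
        _ = 2 ^ T * (m - 1) ^ T := mul_pow _ _ _
        _ ≤ 2 ^ T * n := Nat.mul_le_mul_left _ (by omega)
  obtain ⟨c, hc, hk'⟩ := exists_edge_coloring (R := R) hk hB hT hm1 hn hm
  refine ⟨c, ?_, ?_⟩
  · intro X hX
    have h1 := hc X (by rw [hX]; omega)
    rw [hX] at h1
    exact h1
  · have hBT : E * B ^ R * B = T * E := by rw [hT]; ring
    calc _ ≤ (a0 * (c0 * m) ^ (E * B ^ R)) ^ B := Nat.pow_le_pow_left hk' B
      _ = a0 ^ B * c0 ^ (T * E) * (m ^ T) ^ E := by
          rw [mul_pow _ _ B, ← pow_mul _ _ B, hBT, mul_pow c0 m, ← pow_mul m, mul_assoc]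
      _ ≤ a0 ^ B * c0 ^ (T * E) * (2 ^ T * n) ^ E :=
          Nat.mul_le_mul_left _ (Nat.pow_le_pow_left hmT _)
      _ = a0 ^ B * c0 ^ (T * E) * (2 ^ T) ^ E * n ^ E := by
          rw [mul_pow (2 ^ T) n E]; ring

end Concrete

/-- For all k≥2, p≥k+1, ε>0, for all sufficiently large n there is an edge-colouring of K_n^{(k)} with ≤ n^ε colours in which every p-subset sees ≥ C(p-1,k-1) colours, i.e. f_k(n,p,C(p-1,k-1)) = n^{o(1)}. -/
theorem result :
    ∀ k : ℕ, 2 ≤ k → ∀ p : ℕ, k + 1 ≤ p → ∀ ε : ℝ, 0 < ε →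
      ∃ N : ℕ, ∀ n : ℕ, N ≤ n →
        ∃ c : Finset (Fin n) → ℕ,
          ((((Finset.univ : Finset (Fin n)).powersetCard k).image c).card : ℝ) ≤ (n : ℝ) ^ ε ∧
          ∀ S : Finset (Fin n), S.card = p →
            (p - 1).choose (k - 1) ≤ ((S.powersetCard k).image c).card := by
  intro k hk p _ ε hε
  set D := k ^ 3 * ((p - 1).choose (k - 1) + 1) with hD
  obtain ⟨B, hB⟩ : ∃ B : ℕ, ((D + 1 : ℕ) : ℝ) / ε ≤ B := exists_nat_ge _
  have hB1 : 1 ≤ B := by
    rcases Nat.eq_zero_or_pos B with h0 | h0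
    · exfalso
      subst h0
      have h1 : 0 < ((D + 1 : ℕ) : ℝ) / ε := div_pos (by exact_mod_cast Nat.succ_pos D) hε
      simp only [Nat.cast_zero] at hB
      linarith
    · exact h0
  have hBε : ((D + 1 : ℕ) : ℝ) ≤ ε * B := by
    rw [div_le_iff₀ hε] at hB
    linarith
  obtain ⟨C1, hC1⟩ := bound k hk p B hB1
  refine ⟨max 1 C1, ?_⟩
  intro n hn
  have hn1 : 1 ≤ n := le_trans (le_max_left _ _) hn
  have hnC : C1 ≤ n := le_trans (le_max_right _ _) hn
  obtain ⟨c, hc1, hc2⟩ := hC1 n hn1
  refine ⟨c, ?_, hc1⟩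
  set K := (((Finset.univ : Finset (Fin n)).powersetCard k).image c).card with hK
  have h2 : K ^ B ≤ n ^ (D + 1) := by
    calc K ^ B ≤ C1 * n ^ D := hc2
      _ ≤ n * n ^ D := Nat.mul_le_mul_right _ hnC
      _ = n ^ (D + 1) := (pow_succ' n D).symm
  have hnR : (1 : ℝ) ≤ n := by exact_mod_cast hn1
  have h3 : (K : ℝ) ^ B ≤ ((n : ℝ) ^ ε) ^ B := by
    calc (K : ℝ) ^ B ≤ (n : ℝ) ^ (D + 1) := by exact_mod_cast h2
      _ = (n : ℝ) ^ ((D + 1 : ℕ) : ℝ) := (Real.rpow_natCast _ _).symm
      _ ≤ (n : ℝ) ^ (ε * B) := Real.rpow_le_rpow_of_exponent_le hnR hBε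
      _ = ((n : ℝ) ^ ε) ^ B := by
        rw [Real.rpow_mul (by linarith), Real.rpow_natCast]
  exact le_of_pow_le_pow_left₀ (by omega) (Real.rpow_nonneg (by linarith) _) h3

end Pool.Agent.S06655
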