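import Pool.Statements.S06669
import Pool.Agent.H231EC.Final

set_option autoImplicit false
open Pool Pool.MP_a18785_co

namespace Pool.Agent.S06669

/-- For all sufficiently large k, every finite graph in which each nonempty vertex set has a vertex with at most k neighbours inside it, and whose maximum degree is at least 2k−1, has its edges properly colourable with maximum-degree many colours. -/
theorem result :
    ∃ K : ℕ, ∀ k : ℕ, K ≤ k →
      ∀ (V : Type) [Fintype V] [DecidableEq V] (G : SimpleGraph V) [DecidableRel G.Adj],
        (∀ s : Finset V, s.Nonempty → ∃ v ∈ s, (s.filter (fun w => G.Adj v w)).card ≤ k) →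
        2 * k - 1 ≤ G.maxDegree →
        G.lineGraph.Colorable G.maxDegree := by
  exact Pool.Agent.H231EC.final

end Pool.Agent.S06669
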