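import Pool.Statements.S06673
import Pool.Agent.Helper835.LatFinal

set_option autoImplicit false
open Pool Pool.MP_a1dcd4_co

namespace Pool.Agent.S06673

/-- There is a constant c such that every finite group G is isomorphic to the automorphism group of some finite lattice with at most c times ∣G∣ elements. -/
theorem result :
    ∃ c : ℕ, ∀ (G : Type) [Group G] [Finite G],
      ∃ (L : Type) (_ : Lattice L) (_ : Finite L),
        Nat.card L ≤ c * Nat.card G ∧ Nonempty ((L ≃o L) ≃* G) := by
  exact Pool.Agent.Helper835.LatFinal.main

end Pool.Agent.S06673
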