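import Pool.Statements.S06729
import Pool.Agent.Helper801.TFH

set_option autoImplicit false
open Matrix
open Pool Pool.MP_a5e159_co

namespace Pool.Agent.S06729

open Configuration in
/-- a line has a point avoiding two given ones -/
theorem third_point {P L : Type} [Fintype P] [Fintype L] [Membership P L]
    [Configuration.ProjectivePlane P L] (l : L) (x y : P) : ∃ q : P, q ∈ l ∧ q ≠ x ∧ q ≠ y := by
  classical
  by_contra hcon
  push Not at hcon
  have h1 : {p : P | p ∈ l} ⊆ (({x, y} : Finset P) : Set P) := by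
    intro q hq
    by_cases hqx : q = x
    · simp [hqx]
    · simp [hcon q hq hqx]
  have h2 := Set.ncard_le_ncard h1 (Finset.finite_toSet _)
  rw [Pool.Agent.Helper801.TF.Cfg.ncard_line, Set.ncard_coe_finset] at h2
  have h3 : ({x, y} : Finset P).card ≤ 2 := Finset.card_le_two
  have h4 := ProjectivePlane.one_lt_order P L
  omega

open Configuration in
/-- a point has a line avoiding two given ones -/
theorem third_line {P L : Type} [Fintype P] [Fintype L] [Membership P L]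
    [Configuration.ProjectivePlane P L] (p : P) (x y : L) : ∃ l : L, p ∈ l ∧ l ≠ x ∧ l ≠ y := by
  classical
  by_contra hcon
  push Not at hcon
  have h1 : {l : L | p ∈ l} ⊆ (({x, y} : Finset L) : Set L) := by
    intro q hq
    by_cases hqx : q = x
    · simp [hqx]
    · simp [hcon q hq hqx]
  have h2 := Set.ncard_le_ncard h1 (Finset.finite_toSet _)
  have h5 : {l : L | p ∈ l}.ncard = ProjectivePlane.order P L + 1 := by
    rw [← ProjectivePlane.lineCount_eq L p]; rfl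
  rw [h5, Set.ncard_coe_finset] at h2
  have h3 : ({x, y} : Finset L).card ≤ 2 := Finset.card_le_two
  have h4 := ProjectivePlane.one_lt_order P L
  omega

/-- Every finite projective plane of order n with an abelian collineation group of order n(n-1) that fixes two points on a line and a second line through the first point, acting regularly on the remaining points and lines, is isomorphic to PG(2,K) for a finite field K. -/
theorem result :
  ∀ (P L : Type) [Fintype P] [Fintype L] [Membership P L] [Configuration.ProjectivePlane P L]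
    (G : Type) [CommGroup G] [Fintype G] (φ : G →* Equiv.Perm P) (ψ : G →* Equiv.Perm L)
    (a b : P) (l₀ l₁ : L),
    (∀ (g : G) (p : P) (l : L), p ∈ l ↔ (φ g) p ∈ (ψ g) l) →
    a ≠ b → a ∈ l₀ → b ∈ l₀ → a ∈ l₁ → l₁ ≠ l₀ →
    (∀ g : G, (φ g) a = a ∧ (φ g) b = b ∧ (ψ g) l₀ = l₀ ∧ (ψ g) l₁ = l₁) →
    Fintype.card G = Configuration.ProjectivePlane.order P L *
      (Configuration.ProjectivePlane.order P L - 1) →
    (∀ p q : P, p ∉ l₀ → p ∉ l₁ → q ∉ l₀ → q ∉ l₁ → ∃! g : G, (φ g) p = q) →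
    (∀ l m : L, a ∉ l → b ∉ l → a ∉ m → b ∉ m → ∃! g : G, (ψ g) l = m) →
    ∃ (K : Type) (_ : Field K) (_ : Fintype K)
      (e : P ≃ Projectivization K (Fin 3 → K)) (f : L ≃ Projectivization K (Fin 3 → K)),
      ∀ (p : P) (l : L), p ∈ l ↔ dotProduct (e p).rep (f l).rep = 0 := by
  intro P L _ _ _ _ G _ _ φ ψ a b l₀ l₁ hinc hab ha0 hb0 ha1 h10 hfix hcard hregP hregL
  obtain ⟨c, hc0, hca, hcb⟩ := third_point l₀ a b
  obtain ⟨d, hd1, hda, _⟩ := third_point l₁ a a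
  have eqp : ∀ {p q : P} {l m : L}, l ≠ m → p ∈ l → p ∈ m → q ∈ l → q ∈ m → p = q :=
    fun h1 h2 h3 h4 h5 => Pool.Agent.Helper801.TF.Cfg.eqp h1 h2 h3 h4 h5
  have eql : ∀ {p q : P} {l m : L}, p ≠ q → p ∈ l → p ∈ m → q ∈ l → q ∈ m → l = m :=
    fun h1 h2 h3 h4 h5 => Pool.Agent.Helper801.TF.Cfg.eql h1 h2 h3 h4 h5
  have hc1 : c ∉ l₁ := fun h => hca (eqp h10 h hc0 ha1 ha0)
  have hd0 : d ∉ l₀ := fun h => hda (eqp h10 hd1 h ha1 ha0)
  have hcd : c ≠ d := by rintro rfl; exact hc1 hd1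
  obtain ⟨k, hck, hdk⟩ : ∃ k : L, c ∈ k ∧ d ∈ k :=
    ⟨Configuration.HasLines.mkLine hcd, Configuration.HasLines.mkLine_ax hcd⟩
  obtain ⟨p₀, hp₀k, hp₀c, hp₀d⟩ := third_point k c d
  have hk0 : k ≠ l₀ := by rintro rfl; exact hd0 hdk
  have hk1 : k ≠ l₁ := by rintro rfl; exact hc1 hck
  have p00 : p₀ ∉ l₀ := fun h => hp₀c (eqp hk0 hp₀k h hck hc0)
  have p01 : p₀ ∉ l₁ := fun h => hp₀d (eqp hk1 hp₀k h hdk hd1)
  have hpa : p₀ ≠ a := by rintro rfl; exact p00 ha0
  have hpb : p₀ ≠ b := by rintro rfl; exact p00 hb0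
  obtain ⟨la, pla, ala⟩ : ∃ k : L, p₀ ∈ k ∧ a ∈ k :=
    ⟨Configuration.HasLines.mkLine hpa, Configuration.HasLines.mkLine_ax hpa⟩
  obtain ⟨lb, plb, blb⟩ : ∃ k : L, p₀ ∈ k ∧ b ∈ k :=
    ⟨Configuration.HasLines.mkLine hpb, Configuration.HasLines.mkLine_ax hpb⟩
  have hlb1 : lb ≠ l₁ := by rintro rfl; exact p01 plb
  have hlb0 : lb ≠ l₀ := by rintro rfl; exact p00 plb
  obtain ⟨Q₁, Q1b, Q11⟩ : ∃ q : P, q ∈ lb ∧ q ∈ l₁ :=
    ⟨Configuration.HasPoints.mkPoint hlb1, Configuration.HasPoints.mkPoint_ax hlb1⟩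
  obtain ⟨m₀, Q1m, hmlb, hml1⟩ := third_line Q₁ lb l₁
  have alb : a ∉ lb := fun h => hlb0 (eql hab h ha0 blb hb0)
  have hb1 : b ∉ l₁ := fun h => h10 (eql hab ha1 ha0 h hb0)
  have Q1a : Q₁ ≠ a := by rintro rfl; exact alb Q1b
  have Q1b' : Q₁ ≠ b := by rintro rfl; exact hb1 Q11
  have am : a ∉ m₀ := fun h => hml1 (eql Q1a Q1m Q11 h ha1)
  have bm : b ∉ m₀ := fun h => hmlb (eql Q1b' Q1m Q1b h blb)
  have hm0 : m₀ ≠ l₀ := by rintro rfl; exact am ha0
  obtain ⟨Q₀, Q0m, Q00⟩ : ∃ q : P, q ∈ m₀ ∧ q ∈ l₀ :=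
    ⟨Configuration.HasPoints.mkPoint hm0, Configuration.HasPoints.mkPoint_ax hm0⟩
  let C : Pool.Agent.Helper801.TF.Cfg P L G :=
    { φ := φ, ψ := ψ, a := a, b := b, l₀ := l₀, l₁ := l₁, inc := hinc, hab := hab, ha0 := ha0,
      hb0 := hb0, ha1 := ha1, h10 := h10, fa := fun g => (hfix g).1, fb := fun g => (hfix g).2.1,
      f0 := fun g => (hfix g).2.2.1, f1 := fun g => (hfix g).2.2.2, card := hcard, regP := hregP,
      regL := hregL, p₀ := p₀, m₀ := m₀, la := la, lb := lb, Q₀ := Q₀, Q₁ := Q₁, p00 := p00,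
      p01 := p01, am := am, bm := bm, ala := ala, pla := pla, blb := blb, plb := plb, Q1b := Q1b,
      Q11 := Q11, Q1m := Q1m, Q00 := Q00, Q0m := Q0m }
  exact C.main

end Pool.Agent.S06729
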