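import Pool.Statements.S06746
import Pool.Agent.Helper636.SpkEnd

set_option autoImplicit false
open Pool Pool.MP_a6f858_co

namespace Pool.Agent.S06746

/-- The negation of the preceding statement: For every finite matroid M and every r ≤ n there is a bound B such that every finite matroid having minors isomorphic to M and to U_{r,n}, with no proper minor having both, has at most B elements. -/
theorem result :
    ¬ (∀ (M : Matroid ℕ), M.Finite → ∀ r n : ℕ, r ≤ n →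
      ∃ B : ℕ, ∀ N : Matroid ℕ, N.Finite →
        ((∃ N₁ : Matroid ℕ, Matroid.IsMinor N₁ N ∧
            ∃ f : ℕ → ℕ, Set.BijOn f N₁.E M.E ∧
              ∀ I ⊆ N₁.E, (N₁.Indep I ↔ M.Indep (f '' I))) ∧
         (∃ N₂ : Matroid ℕ, Matroid.IsMinor N₂ N ∧ N₂.E.Finite ∧ N₂.E.ncard = n ∧
              ∀ I ⊆ N₂.E, (N₂.Indep I ↔ I.ncard ≤ r)) ∧
         (∀ N' : Matroid ℕ, Matroid.IsMinor N' N → N' ≠ N →
            ¬ ((∃ N₁ : Matroid ℕ, Matroid.IsMinor N₁ N' ∧
                  ∃ f : ℕ → ℕ, Set.BijOn f N₁.E M.E ∧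
                    ∀ I ⊆ N₁.E, (N₁.Indep I ↔ M.Indep (f '' I))) ∧
               (∃ N₂ : Matroid ℕ, Matroid.IsMinor N₂ N' ∧ N₂.E.Finite ∧ N₂.E.ncard = n ∧
                  ∀ I ⊆ N₂.E, (N₂.Indep I ↔ I.ncard ≤ r))))) →
        N.E.ncard ≤ B) := by
  intro H
  obtain ⟨B, hB⟩ := H (Pool.Agent.Helper636.Spk.Sp 5 1 (by norm_num))
    (Pool.Agent.Helper636.Spk.Sp_finite 5 1 (by norm_num)) 3 6 (by norm_num)
  have h1 : 1 ≤ B + 6 := by omega
  have hr6 : 6 ≤ B + 6 := by omega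
  have hmain := hB (Pool.Agent.Helper636.Spk.Sp (B + 6) 0 h1)
    (Pool.Agent.Helper636.Spk.Sp_finite (B + 6) 0 h1)
    ⟨Pool.Agent.Helper636.Spk.exists_m hr6, Pool.Agent.Helper636.Spk.exists_u hr6,
      fun N' hN' hne => Pool.Agent.Helper636.Spk.minimal (by omega) N' hN' hne⟩
  rw [Pool.Agent.Helper636.Spk.Sp_E, Set.ncard_coe_finset, Finset.card_range] at hmain
  omega

end Pool.Agent.S06746
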