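import Pool.Statements.S06766
import Pool.Agent.Helper54.Geo

set_option autoImplicit false
open Pool Pool.MP_a813b7_co

namespace Pool.Agent.S06766

/-- The negation of the preceding statement: For every ε>0 there is N so that for all n≥N (n≥2), any 3n distinct points in the unit square can be split into n triples whose triangles have pairwise disjoint interiors and total area less than ε. -/
theorem result :
    ¬ (∀ ε : ℝ, 0 < ε → ∃ N : ℕ, ∀ n : ℕ, N ≤ n → 2 ≤ n →
      ∀ p : Fin (3 * n) → ℝ × ℝ, Function.Injective p →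
        (∀ k, 0 ≤ (p k).1 ∧ (p k).1 ≤ 1 ∧ 0 ≤ (p k).2 ∧ (p k).2 ≤ 1) →
        ∃ σ : Fin (3 * n) ≃ Fin n × Fin 3,
          (∀ i j : Fin n, i ≠ j →
            Disjoint
              (interior (convexHull ℝ
                ({p (σ.symm (i, 0)), p (σ.symm (i, 1)), p (σ.symm (i, 2))} : Set (ℝ × ℝ))))
              (interior (convexHull ℝ
                ({p (σ.symm (j, 0)), p (σ.symm (j, 1)), p (σ.symm (j, 2))} : Set (ℝ × ℝ))))) ∧
          (∑ i : Fin n,
            |((p (σ.symm (i, 1))).1 - (p (σ.symm (i, 0))).1) *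
                ((p (σ.symm (i, 2))).2 - (p (σ.symm (i, 0))).2) -
              ((p (σ.symm (i, 2))).1 - (p (σ.symm (i, 0))).1) *
                ((p (σ.symm (i, 1))).2 - (p (σ.symm (i, 0))).2)| / 2) < ε) := by
  intro hall
  set δ : ℝ := 1 / 16384 with hδdef
  set ε : ℝ := δ ^ 2 / (25 * (2 * 4 ^ 12)) with hεdef
  have hε : 0 < ε := by positivity
  have hδeq : 25 * ε * (2 * 4 ^ 12) = δ ^ 2 := by
    rw [hεdef]; field_simp
  obtain ⟨N0, hN0⟩ := hall ε hε
  set n : ℕ := max N0 2 with hn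
  have hn2 : 2 ≤ n := le_max_right _ _
  have hnN : N0 ≤ n := le_max_left _ _
  obtain ⟨K, hKge⟩ := exists_nat_ge
    (max (((3 * n : ℕ) : ℝ) / ε) (max (4 * ((3 * n : ℕ) : ℝ) ^ 3) 1))
  have hK1 : ((3 * n : ℕ) : ℝ) / ε ≤ K := (le_max_left _ _).trans hKge
  have hK2 : 4 * ((3 * n : ℕ) : ℝ) ^ 3 ≤ K :=
    (le_max_left _ _).trans ((le_max_right _ _).trans hKge)
  have hK3 : (1 : ℝ) ≤ K := (le_max_right _ _).trans ((le_max_right _ _).trans hKge)
  have hK : 0 < K := by
    have : 1 ≤ K := by exact_mod_cast hK3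
    omega
  have hK' : (0 : ℝ) < K := by linarith
  have hKN : ((3 * n : ℕ) : ℝ) ≤ ε * K := by
    rw [div_le_iff₀ hε] at hK1
    linarith
  have h1 : (16 : ℝ) ^ (3 * n) * δ ^ n ≤ 1 / 4 := by
    rw [pow_mul, ← mul_pow, hδdef]
    have e : ((16 : ℝ) ^ 3 * (1 / 16384)) = 1 / 4 := by norm_num
    rw [e]
    calc ((1 : ℝ) / 4) ^ n ≤ (1 / 4) ^ 1 :=
          pow_le_pow_of_le_one (by norm_num) (by norm_num) (by omega)
      _ = 1 / 4 := by norm_num
  have h2 : ((3 * n : ℕ) : ℝ) ^ 3 / K ≤ 1 / 4 := by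
    rw [div_le_iff₀ hK']
    linarith
  obtain ⟨Y, hGP, hnb⟩ := Pool.Agent.Helper54.Cnt.exists_good (N := 3 * n) (n := n) hK hε hKN
    (by positivity) (by rw [hδdef]; norm_num) hδeq h1 h2
  apply hnb
  have hnpos : (0 : ℝ) < ((3 * n : ℕ) : ℝ) := by
    have : 0 < 3 * n := by omega
    exact_mod_cast this
  obtain ⟨σ, hσ1, hσ2⟩ := hN0 n hnN hn2 (fun k => Pool.Agent.Helper54.Geo.pt Y k)
    (by
      intro a b hab
      have h3 := (Prod.mk.inj hab).1
      have h4 : ((a : ℕ) : ℝ) = ((b : ℕ) : ℝ) := by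
        field_simp at h3
        exact h3
      apply Fin.ext
      exact_mod_cast h4)
    (by
      intro k
      have hk : ((k : ℕ) : ℝ) ≤ ((3 * n : ℕ) : ℝ) := by exact_mod_cast k.2.le
      have hY : ((Y k : ℕ) : ℝ) ≤ (K : ℝ) := by exact_mod_cast (Y k).2.le
      simp only [Pool.Agent.Helper54.Geo.pt, Pool.Agent.Helper54.Cnt.yr]
      refine ⟨by positivity, ?_, by positivity, ?_⟩
      · rw [div_le_one hnpos]; exact hk
      · rw [div_le_one hK']; exact hY)
  exact Pool.Agent.Helper54.Geo.bad_of_partition (by omega) hK Y hGP σ hσ1 hσ2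

end Pool.Agent.S06766
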