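import Pool.Statements.S06768

set_option autoImplicit false
open Pool Pool.MP_a81a70_co

namespace Pool.Agent.S06768

/-- The five linear forms on R^4: the four coordinates and minus their sum. They add up to zero. -/
noncomputable def L (i : Fin 5) : (Fin 4 → ℝ) →ₗ[ℝ] ℝ :=
  Fin.lastCases (-(∑ j : Fin 4, LinearMap.proj j)) (fun j => LinearMap.proj j) i

lemma L_castSucc (j : Fin 4) (x : Fin 4 → ℝ) : L j.castSucc x = x j := by
  simp only [L, Fin.lastCases_castSucc, LinearMap.proj_apply]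

lemma L_last (x : Fin 4 → ℝ) : L (Fin.last 4) x = -(∑ j, x j) := by
  simp only [L, Fin.lastCases_last, LinearMap.neg_apply, LinearMap.sum_apply,
    LinearMap.proj_apply]

lemma sum_L (x : Fin 4 → ℝ) : ∑ i, L i x = 0 := by
  rw [Fin.sum_univ_castSucc]
  simp only [L_castSucc, L_last]
  ring

/-- The point with prescribed values of the forms. -/
def pt (c : Fin 5 → ℝ) : Fin 4 → ℝ := fun j => c j.castSucc

lemma L_pt (c : Fin 5 → ℝ) (hc : ∑ i, c i = 0) (i : Fin 5) : L i (pt c) = c i := by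
  refine Fin.lastCases ?_ (fun j => ?_) i
  · rw [L_last, ← sub_eq_zero]
    rw [Fin.sum_univ_castSucc] at hc
    simp only [pt]
    linarith
  · rw [L_castSucc]
    rfl

/-- The polytope: the central section of the 5-cube. -/
def P : Set (Fin 4 → ℝ) := {x | ∀ i, |L i x| ≤ 1}

lemma L_cont (i : Fin 5) : Continuous (L i) := LinearMap.continuous_of_finiteDimensional _

lemma P_convex : Convex ℝ P := by
  intro x hx y hy a b ha hb hab i
  have h1 := hx i
  have h2 := hy i
  rw [abs_le] at h1 h2 ⊢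
  simp only [map_add, map_smul, smul_eq_mul]
  constructor <;> nlinarith

lemma P_closed : IsClosed P := by
  have : P = ⋂ i, {x | |L i x| ≤ 1} := by
    ext x; simp [P]
  rw [this]
  exact isClosed_iInter fun i => isClosed_le ((L_cont i).abs) continuous_const

lemma P_subset_cube : P ⊆ {x : Fin 4 → ℝ | ∀ i, |x i| ≤ 1} := by
  intro x hx i
  have := hx i.castSucc
  rwa [L_castSucc] at this

lemma P_compact : IsCompact P := by
  apply Metric.isCompact_of_isClosed_isBounded P_closed
  apply (Metric.isBounded_closedBall (x := (0 : Fin 4 → ℝ)) (r := 1)).subset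
  intro x hx
  rw [mem_closedBall_zero_iff, pi_norm_le_iff_of_nonneg zero_le_one]
  intro i
  rw [Real.norm_eq_abs]
  exact P_subset_cube hx i

lemma P_neg {x : Fin 4 → ℝ} (hx : x ∈ P) : -x ∈ P := by
  intro i
  rw [map_neg, abs_neg]
  exact hx i

lemma zero_mem_P : (0 : Fin 4 → ℝ) ∈ P := by
  intro i
  simp

/-- Points with all constraints strict are interior. -/
lemma mem_interior_P {x : Fin 4 → ℝ} (hx : ∀ i, |L i x| < 1) : x ∈ interior P := by
  rw [mem_interior]
  refine ⟨⋂ i, {x | |L i x| < 1}, ?_, ?_, ?_⟩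
  · intro y hy i
    rw [Set.mem_iInter] at hy
    exact (hy i).le
  · exact isOpen_iInter_of_finite fun i => isOpen_lt ((L_cont i).abs) continuous_const
  · rw [Set.mem_iInter]
    exact hx

/-- Moving a point of P in a direction that kills the tight forms. -/
lemma pert {x u : Fin 4 → ℝ} (hx : x ∈ P) (hu : ∀ i, |L i x| = 1 → L i u = 0) :
    ∃ t : ℝ, 0 < t ∧ x + t • u ∈ P ∧ x - t • u ∈ P := by
  have key : ∀ᶠ t : ℝ in nhds 0, ∀ i, |L i (x + t • u)| ≤ 1 := by
    rw [Filter.eventually_all]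
    intro i
    by_cases h : |L i x| = 1
    · refine Filter.Eventually.of_forall fun t => ?_
      rw [map_add, map_smul, hu i h, smul_zero, add_zero]
      exact h.le
    · have hlt : |L i x| < 1 := lt_of_le_of_ne (hx i) h
      have hc : Continuous fun t : ℝ => |L i (x + t • u)| :=
        ((L_cont i).comp (continuous_const.add (continuous_id.smul continuous_const))).abs
      have h0 : |L i (x + (0 : ℝ) • u)| < 1 := by simpa using hlt
      have := hc.continuousAt.eventually_lt (continuousAt_const (y := (1 : ℝ))) h0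
      filter_upwards [this] with t ht using ht.le
  rw [Metric.eventually_nhds_iff] at key
  obtain ⟨ε, hε, h⟩ := key
  refine ⟨ε / 2, by positivity, ?_, ?_⟩
  · apply h
    rw [Real.dist_eq, sub_zero, abs_of_pos (by positivity)]
    linarith
  · have h2 := h (y := -(ε / 2)) (by
      rw [Real.dist_eq, sub_zero, abs_neg, abs_of_pos (by positivity)]
      linarith)
    rw [neg_smul, ← sub_eq_add_neg] at h2
    exact h2

/-- Lemma A: a proper exposed face through a point with exactly one tight form is a facet. -/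
lemma face_eq {F : Set (Fin 4 → ℝ)} (hF : IsExposed ℝ P F) (hFP : F ≠ P) {w : Fin 4 → ℝ}
    (hw : w ∈ F) {i : Fin 5} (hi : |L i w| = 1) (hj : ∀ j, j ≠ i → |L j w| < 1) :
    F = {x ∈ P | L i x = L i w} := by
  obtain ⟨l, hl⟩ := hF ⟨w, hw⟩
  have hwP : w ∈ P := by rw [hl] at hw; exact hw.1
  have hmax : ∀ y ∈ P, l y ≤ l w := by rw [hl] at hw; exact hw.2
  have hLw : L i w ≠ 0 := by
    intro h; rw [h] at hi; simp at hi
  have hLw2 : L i w * L i w = 1 := by
    have := abs_mul_abs_self (L i w)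
    rw [hi] at this; linarith
  have hker : ∀ u, L i u = 0 → l u = 0 := by
    intro u hu
    obtain ⟨t, ht, h1, h2⟩ := pert (x := w) (u := u) hwP (by
      intro k hk
      by_cases hki : k = i
      · rw [hki]; exact hu
      · exact absurd hk (hj k hki).ne)
    have e1 := hmax _ h1
    have e2 := hmax _ h2
    rw [map_add, map_smul, smul_eq_mul] at e1
    rw [map_sub, map_smul, smul_eq_mul] at e2
    have e3 : t * l u ≤ 0 := by linarith
    have e4 : 0 ≤ t * l u := by linarith
    have e5 : t * l u = 0 := le_antisymm e3 e4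
    rcases mul_eq_zero.mp e5 with h | h
    · exact absurd h ht.ne'
    · exact h
  have hform : ∀ x, l x = L i x * L i w * l w := by
    intro x
    have h1 : l (x - (L i x * L i w) • w) = 0 := by
      apply hker
      rw [map_sub, map_smul, smul_eq_mul]
      linear_combination (- L i x) * hLw2
    rw [map_sub, map_smul, smul_eq_mul] at h1
    linarith
  have hpos : 0 ≤ l w := by
    have := hmax 0 zero_mem_P
    simpa using this
  have hne : l w ≠ 0 := by
    intro h0
    apply hFP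
    rw [hl]
    ext x
    constructor
    · exact fun h => h.1
    · intro hx
      refine ⟨hx, fun y _ => ?_⟩
      rw [hform y, hform x, h0]; simp
  have hlt : 0 < l w := lt_of_le_of_ne hpos (Ne.symm hne)
  have hle1 : ∀ y ∈ P, L i y * L i w ≤ 1 := by
    intro y hy
    have h1 : |L i y * L i w| ≤ 1 := by
      rw [abs_mul, hi, mul_one]; exact hy i
    exact (abs_le.mp h1).2
  rw [hl]
  ext x
  constructor
  · rintro ⟨hxP, hx⟩
    refine ⟨hxP, ?_⟩
    have h1 := hx w hwP
    rw [hform x] at h1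
    have h2 : 1 ≤ L i x * L i w := by
      by_contra hcon
      push Not at hcon
      have : L i x * L i w * l w < 1 * l w := mul_lt_mul_of_pos_right hcon hlt
      linarith
    have h3 : L i x * L i w = 1 := le_antisymm (hle1 x hxP) h2
    have h4 : L i x * L i w * L i w = L i w := by rw [h3, one_mul]
    linear_combination h4 - (L i x) * hLw2
  · rintro ⟨hxP, hx⟩
    refine ⟨hxP, fun y hy => ?_⟩
    rw [hform y, hform x, hx, hLw2, one_mul]
    have := mul_le_mul_of_nonneg_right (hle1 y hy) hpos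
    linarith

lemma mem_span_of {F : Set (Fin 4 → ℝ)} {w u : Fin 4 → ℝ} {t : ℝ} (ht : 0 < t)
    (hw : w ∈ F) (hwu : w + t • u ∈ F) : u ∈ vectorSpan ℝ F := by
  have h1 : (w + t • u) -ᵥ w ∈ vectorSpan ℝ F := vsub_mem_vectorSpan ℝ hwu hw
  rw [vsub_eq_sub, add_sub_cancel_left] at h1
  have h2 := (vectorSpan ℝ F).smul_mem t⁻¹ h1
  rwa [smul_smul, inv_mul_cancel₀ ht.ne', one_smul] at h2

lemma vectorSpan_P : vectorSpan ℝ P = ⊤ := by
  rw [eq_top_iff]
  intro u _
  obtain ⟨t, ht, h1, _⟩ := pert (x := 0) (u := u) zero_mem_P (by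
    intro i hi
    simp at hi)
  exact mem_span_of ht zero_mem_P h1

lemma finrank_vectorSpan_P : Module.finrank ℝ (vectorSpan ℝ P) = 4 := by
  rw [vectorSpan_P, finrank_top]
  simp

lemma exists_L (i : Fin 5) (j : Fin 5) (hij : i ≠ j) (a b : ℝ) :
    ∃ x, L i x = a ∧ L j x = b ∧ ∀ k, k ≠ i → k ≠ j → L k x = -(a + b) / 3 := by
  let c : Fin 5 → ℝ := fun k => if k = i then a else if k = j then b else -(a + b) / 3
  have hc : ∑ k, c k = 0 := by
    have h1 : ∀ k, c k = (if k = i then (a + (a + b) / 3) else 0) +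
        (if k = j then (b + (a + b) / 3) else 0) + (-(a + b) / 3) := by
      intro k
      simp only [c]
      by_cases h1 : k = i
      · subst h1
        simp [hij]
        ring
      · by_cases h2 : k = j
        · subst h2
          simp [Ne.symm hij]
          ring
        · simp [h1, h2]
    simp_rw [h1]
    rw [Finset.sum_add_distrib, Finset.sum_add_distrib]
    simp
    ring
  refine ⟨pt c, ?_, ?_, ?_⟩
  · rw [L_pt c hc]; simp [c]
  · rw [L_pt c hc]; simp [c, Ne.symm hij]
  · intro k h1 h2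
    rw [L_pt c hc]; simp [c, h1, h2]

lemma finrank_inf {i j : Fin 5} (hij : i ≠ j) :
    Module.finrank ℝ (LinearMap.ker (L i) ⊓ LinearMap.ker (L j) : Submodule ℝ (Fin 4 → ℝ)) = 2 := by
  have h := LinearMap.finrank_range_add_finrank_ker ((L i).prod (L j))
  have hs : LinearMap.range ((L i).prod (L j)) = ⊤ := by
    rw [LinearMap.range_eq_top]
    rintro ⟨a, b⟩
    obtain ⟨x, h1, h2, _⟩ := exists_L i j hij a b
    exact ⟨x, by simp [h1, h2]⟩
  rw [hs, finrank_top, LinearMap.ker_prod] at h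
  simp at h
  omega

lemma finrank_ker (i : Fin 5) : Module.finrank ℝ (LinearMap.ker (L i)) = 3 := by
  have hne : L i ≠ 0 := by
    intro h0
    obtain ⟨j, hj⟩ : ∃ j : Fin 5, i ≠ j := ⟨i + 1, by fin_cases i <;> decide⟩
    obtain ⟨x, h1, _⟩ := exists_L i j hj 1 0
    rw [h0] at h1
    simp at h1
  have := Module.Dual.finrank_ker_add_one_of_ne_zero (f := L i) hne
  simp at this
  omega

/-- The centre of a facet. -/
lemma exists_centre (i : Fin 5) {s : ℝ} (hs : |s| = 1) :
    ∃ w ∈ P, L i w = s ∧ ∀ j, j ≠ i → |L j w| < 1 := by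
  let c : Fin 5 → ℝ := fun k => if k = i then s else -s / 4
  have hc : ∑ k, c k = 0 := by
    have h1 : ∀ k, c k = (if k = i then (s + s / 4) else 0) + (-s / 4) := by
      intro k
      simp only [c]
      by_cases h1 : k = i
      · subst h1
        simp
        ring
      · simp [h1]
    simp_rw [h1]
    rw [Finset.sum_add_distrib]
    simp
    ring
  have h2 : ∀ j, j ≠ i → |L j (pt c)| < 1 := by
    intro j hj
    rw [L_pt c hc]
    simp only [c, hj, if_false]
    rw [abs_div, abs_neg, hs]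
    norm_num
  have h3 : L i (pt c) = s := by
    rw [L_pt c hc]
    simp [c]
  refine ⟨pt c, ?_, h3, h2⟩
  intro j
  by_cases hj : j = i
  · rw [hj, h3, hs]
  · exact (h2 j hj).le

lemma facet_exposed (i : Fin 5) {s : ℝ} (hs : |s| = 1) :
    IsExposed ℝ P {x ∈ P | L i x = s} := by
  intro _
  have hs2 : s * s = 1 := by
    have := abs_mul_abs_self s
    rw [hs] at this; linarith
  refine ⟨LinearMap.toContinuousLinearMap (s • L i), ?_⟩
  obtain ⟨w, hwP, hwi, _⟩ := exists_centre i hs
  have hle : ∀ y ∈ P, s * L i y ≤ 1 := by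
    intro y hy
    have h1 : |s * L i y| ≤ 1 := by
      rw [abs_mul, hs, one_mul]; exact hy i
    exact (abs_le.mp h1).2
  ext x
  simp only [Set.mem_ofPred_eq, LinearMap.coe_toContinuousLinearMap', LinearMap.smul_apply,
    smul_eq_mul]
  constructor
  · rintro ⟨hx, h⟩
    refine ⟨hx, fun y hy => ?_⟩
    rw [h, hs2]
    exact hle y hy
  · rintro ⟨hx, h⟩
    refine ⟨hx, ?_⟩
    have h1 := h w hwP
    rw [hwi, hs2] at h1
    have h2 := hle x hx
    have h3 : s * L i x = 1 := le_antisymm h2 h1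
    have h4 : s * s * L i x = s := by rw [mul_assoc, h3, mul_one]
    rw [hs2, one_mul] at h4
    exact h4

lemma facet_finrank (i : Fin 5) {s : ℝ} (hs : |s| = 1) :
    Module.finrank ℝ (vectorSpan ℝ {x ∈ P | L i x = s}) = 3 := by
  obtain ⟨w, hwP, hwi, hwj⟩ := exists_centre i hs
  have h1 : vectorSpan ℝ {x ∈ P | L i x = s} = LinearMap.ker (L i) := by
    apply le_antisymm
    · rw [vectorSpan_def, Submodule.span_le]
      rintro _ ⟨x, hx, y, hy, rfl⟩
      simp only [SetLike.mem_coe, LinearMap.mem_ker, vsub_eq_sub, map_sub]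
      rw [hx.2, hy.2, sub_self]
    · intro u hu
      rw [LinearMap.mem_ker] at hu
      obtain ⟨t, ht, h1, _⟩ := pert (x := w) (u := u) hwP (by
        intro k hk
        by_cases hki : k = i
        · rw [hki]; exact hu
        · exact absurd hk (hwj k hki).ne)
      refine mem_span_of (w := w) ht ⟨hwP, hwi⟩ ⟨h1, ?_⟩
      rw [map_add, map_smul, hu, hwi]; simp
  rw [h1, finrank_ker]

/-- A point at which no form is tight exposes nothing but the whole of P. -/
lemma face_eq_P {F : Set (Fin 4 → ℝ)} (hF : IsExposed ℝ P F) {w : Fin 4 → ℝ}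
    (hw : w ∈ F) (hj : ∀ j, |L j w| < 1) : F = P := by
  obtain ⟨l, hl⟩ := hF ⟨w, hw⟩
  have hwP : w ∈ P := by rw [hl] at hw; exact hw.1
  have hmax : ∀ y ∈ P, l y ≤ l w := by rw [hl] at hw; exact hw.2
  have hker : ∀ u, l u = 0 := by
    intro u
    obtain ⟨t, ht, h1, h2⟩ := pert (x := w) (u := u) hwP (by
      intro k hk
      exact absurd hk (hj k).ne)
    have e1 := hmax _ h1
    have e2 := hmax _ h2
    rw [map_add, map_smul, smul_eq_mul] at e1
    rw [map_sub, map_smul, smul_eq_mul] at e2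
    have e3 : t * l u ≤ 0 := by linarith
    have e4 : 0 ≤ t * l u := by linarith
    have e5 : t * l u = 0 := le_antisymm e3 e4
    rcases mul_eq_zero.mp e5 with h | h
    · exact absurd h ht.ne'
    · exact h
  rw [hl]
  ext x
  constructor
  · exact fun h => h.1
  · intro hx
    refine ⟨hx, fun y _ => ?_⟩
    rw [hker, hker]

/-- Lemma B: a face of dimension three contains a point with exactly one tight form. -/
lemma exists_single {F : Set (Fin 4 → ℝ)} (hF : IsExposed ℝ P F) (hne : F.Nonempty)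
    (hdim : Module.finrank ℝ (vectorSpan ℝ F) = 3) :
    ∃ w ∈ F, ∃ i, |L i w| = 1 ∧ ∀ j, j ≠ i → |L j w| < 1 := by
  classical
  have hFP : F ⊆ P := hF.subset
  have hconv : Convex ℝ F := hF.convex P_convex
  obtain ⟨p0, hp0⟩ := hne
  have hch : ∀ i : Fin 5, ∃ p ∈ F, (∃ q ∈ F, |L i q| < 1) → |L i p| < 1 := by
    intro i
    by_cases h : ∃ q ∈ F, |L i q| < 1
    · obtain ⟨q, hq, hq2⟩ := h
      exact ⟨q, hq, fun _ => hq2⟩
    · exact ⟨p0, hp0, fun h' => absurd h' h⟩
  choose p hpF hp using hch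
  set w : Fin 4 → ℝ := ∑ i : Fin 5, (1 / 5 : ℝ) • p i with hwdef
  have hwF : w ∈ F := by
    apply hconv.sum_mem
    · intro i _; norm_num
    · simp
    · intro i _; exact hpF i
  have hLw : ∀ i, L i w = ∑ k, (1 / 5 : ℝ) * L i (p k) := by
    intro i
    rw [hwdef, map_sum]
    simp only [map_smul, smul_eq_mul]
  have hstrict : ∀ i, (∃ q ∈ F, |L i q| < 1) → |L i w| < 1 := by
    intro i hi
    rw [hLw]
    calc |∑ k, (1 / 5 : ℝ) * L i (p k)| ≤ ∑ k, |(1 / 5 : ℝ) * L i (p k)| :=
          Finset.abs_sum_le_sum_abs _ _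
      _ < ∑ k : Fin 5, (1 / 5 : ℝ) := by
          apply Finset.sum_lt_sum
          · intro k _
            rw [abs_mul]
            have := hFP (hpF k) i
            rw [abs_of_pos (by norm_num : (0 : ℝ) < 1 / 5)]
            linarith
          · refine ⟨i, Finset.mem_univ _, ?_⟩
            rw [abs_mul, abs_of_pos (by norm_num : (0 : ℝ) < 1 / 5)]
            have := hp i hi
            linarith
      _ = 1 := by simp
  -- some form is tight on all of F
  have hex : ∃ i, ∀ q ∈ F, |L i q| = 1 := by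
    by_contra hcon
    push Not at hcon
    have : F = P := by
      apply face_eq_P hF hwF
      intro j
      obtain ⟨q, hq, hq1⟩ := hcon j
      exact hstrict j ⟨q, hq, lt_of_le_of_ne (hFP hq j) hq1⟩
    rw [this, finrank_vectorSpan_P] at hdim
    omega
  obtain ⟨i, hi⟩ := hex
  refine ⟨w, hwF, i, hi w hwF, ?_⟩
  intro j hji
  apply hstrict
  by_contra hcon
  push Not at hcon
  have hj : ∀ q ∈ F, |L j q| = 1 := fun q hq => le_antisymm (hFP hq j) (hcon q hq)
  -- the forms i and j are constant on F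
  have hconst : ∀ k, (∀ q ∈ F, |L k q| = 1) → ∀ q ∈ F, ∀ r ∈ F, L k q = L k r := by
    intro k hk q hq r hr
    have h1 := hk q hq
    have h2 := hk r hr
    have hm : (1 / 2 : ℝ) • q + (1 / 2 : ℝ) • r ∈ F :=
      hconv hq hr (by norm_num) (by norm_num) (by norm_num)
    have h3 := hk _ hm
    rw [map_add, map_smul, map_smul, smul_eq_mul, smul_eq_mul] at h3
    rcases eq_or_eq_neg_of_abs_eq h1 with a | a <;> rcases eq_or_eq_neg_of_abs_eq h2 with b | b
    · rw [a, b]
    · rw [a, b] at h3; norm_num at h3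
    · rw [a, b] at h3; norm_num at h3
    · rw [a, b]
  have hle : vectorSpan ℝ F ≤ LinearMap.ker (L i) ⊓ LinearMap.ker (L j) := by
    rw [vectorSpan_def, Submodule.span_le]
    rintro _ ⟨x, hx, y, hy, rfl⟩
    simp only [SetLike.mem_coe, Submodule.mem_inf, LinearMap.mem_ker, vsub_eq_sub, map_sub]
    exact ⟨sub_eq_zero.mpr (hconst i hi x hx y hy), sub_eq_zero.mpr (hconst j hj x hx y hy)⟩
  have := Submodule.finrank_mono hle
  rw [finrank_inf (Ne.symm hji), hdim] at this
  omega

lemma exists_not_tight (v : Fin 4 → ℝ) : ∃ i, |L i v| ≠ 1 := by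
  by_contra hcon
  push Not at hcon
  have h1 : ∀ i, ∃ e : ℤ, L i v = 2 * (e : ℝ) - 1 := by
    intro i
    rcases eq_or_eq_neg_of_abs_eq (hcon i) with a | a
    · exact ⟨1, by rw [a]; norm_num⟩
    · exact ⟨0, by rw [a]; norm_num⟩
  choose e he using h1
  have h2 := sum_L v
  simp_rw [he] at h2
  rw [Finset.sum_sub_distrib, ← Finset.mul_sum] at h2
  simp at h2
  have h3 : (((2 : ℤ) * ∑ i, e i - 5 : ℤ) : ℝ) = 0 := by
    push_cast
    linarith
  have h4 : (2 : ℤ) * ∑ i, e i - 5 = 0 := Int.cast_eq_zero.mp h3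
  omega

lemma ext_two {v : Fin 4 → ℝ} (hv : v ∈ P.extremePoints ℝ) {i j : Fin 5} (hij : i ≠ j)
    (hi : |L i v| ≠ 1) : |L j v| = 1 := by
  by_contra hj
  obtain ⟨u, hu1, hu2, hu3⟩ := exists_L i j hij 1 (-1)
  obtain ⟨hvP, hext⟩ := mem_extremePoints.mp hv
  obtain ⟨t, ht, h1, h2⟩ := pert (x := v) (u := u) hvP (by
    intro k hk
    by_cases hki : k = i
    · rw [hki] at hk; exact absurd hk hi
    · by_cases hkj : k = j
      · rw [hkj] at hk; exact absurd hk hj
      · rw [hu3 k hki hkj]; norm_num)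
  have hmem : v ∈ openSegment ℝ (v + t • u) (v - t • u) := by
    refine ⟨1 / 2, 1 / 2, by norm_num, by norm_num, by norm_num, ?_⟩
    ext k
    simp
    ring
  have h3 := (hext _ h1 _ h2 hmem).1
  have h4 : t • u = 0 := by simpa using h3
  have h5 : L i (t • u) = 0 := by rw [h4, map_zero]
  rw [map_smul, hu1] at h5
  simp at h5
  exact ht.ne' h5

lemma ext_tight {v : Fin 4 → ℝ} (hv : v ∈ P.extremePoints ℝ) :
    ∃ i0, L i0 v = 0 ∧ ∀ j, j ≠ i0 → |L j v| = 1 := by
  obtain ⟨i0, h0⟩ := exists_not_tight v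
  refine ⟨i0, ?_, fun j hj => ext_two hv (Ne.symm hj) h0⟩
  have h1 : ∀ j, j ≠ i0 → ∃ e : ℤ, L j v = e := by
    intro j hj
    rcases eq_or_eq_neg_of_abs_eq (ext_two hv (Ne.symm hj) h0) with a | a
    · exact ⟨1, by rw [a]; norm_num⟩
    · exact ⟨-1, by rw [a]; norm_num⟩
  have h2 : ∃ z : ℤ, L i0 v = z := by
    have h3 := sum_L v
    rw [← Finset.add_sum_erase _ _ (Finset.mem_univ i0)] at h3
    have h4 : ∃ z : ℤ, ∑ x ∈ Finset.univ.erase i0, L x v = z := by
      have : ∀ j : Fin 5, ∃ e : ℤ, j ≠ i0 → L j v = e := by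
        intro j
        by_cases hj : j = i0
        · exact ⟨0, fun h => absurd hj h⟩
        · obtain ⟨e, he⟩ := h1 j hj
          exact ⟨e, fun _ => he⟩
      choose e he using this
      refine ⟨∑ x ∈ Finset.univ.erase i0, e x, ?_⟩
      push_cast
      apply Finset.sum_congr rfl
      intro x hx
      exact he x (Finset.ne_of_mem_erase hx)
    obtain ⟨z, hz⟩ := h4
    refine ⟨-z, ?_⟩
    push_cast
    linarith
  obtain ⟨z, hz⟩ := h2
  have h3 : |L i0 v| < 1 := lt_of_le_of_ne ((mem_extremePoints.mp hv).1 i0) h0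
  rw [hz] at h3 ⊢
  have h4 : |z| < 1 := by exact_mod_cast h3
  have h5 : z = 0 := Int.abs_lt_one_iff.mp h4
  rw [h5]; simp

lemma ext_finite : (P.extremePoints ℝ).Finite := by
  apply (Set.Finite.pi (fun _ : Fin 4 => (Set.toFinite ({-1, 0, 1} : Set ℝ)))).subset
  intro v hv
  obtain ⟨i0, h0, h1⟩ := ext_tight hv
  intro j _
  rw [← L_castSucc j v]
  by_cases hj : j.castSucc = i0
  · rw [hj, h0]; simp
  · rcases eq_or_eq_neg_of_abs_eq (h1 _ hj) with a | a
    · rw [a]; simp
    · rw [a]; simp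

lemma exists_S : ∃ S : Finset (Fin 4 → ℝ), convexHull ℝ (S : Set (Fin 4 → ℝ)) = P := by
  refine ⟨ext_finite.toFinset, ?_⟩
  rw [Set.Finite.coe_toFinset]
  have h1 := closure_convexHull_extremePoints P_compact P_convex
  rw [(ext_finite.isClosed_convexHull ℝ).closure_eq] at h1
  exact h1

lemma facets_ncard {v : Fin 4 → ℝ} (hv : v ∈ P.extremePoints ℝ) :
    {F : Set (Fin 4 → ℝ) | IsExposed ℝ P F ∧ F.Nonempty ∧
      Module.finrank ℝ (vectorSpan ℝ F) = 4 - 1 ∧ v ∈ F}.ncard = 4 := by
  obtain ⟨i0, h0, h1⟩ := ext_tight hv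
  have hvP := (mem_extremePoints.mp hv).1
  have heq : {F : Set (Fin 4 → ℝ) | IsExposed ℝ P F ∧ F.Nonempty ∧
      Module.finrank ℝ (vectorSpan ℝ F) = 4 - 1 ∧ v ∈ F} =
      (fun i : Fin 5 => {x ∈ P | L i x = L i v}) '' {i | i ≠ i0} := by
    ext F
    constructor
    · rintro ⟨hF, hne, hdim, hvF⟩
      obtain ⟨w, hwF, i, hi, hj⟩ := exists_single hF hne hdim
      have hFP : F ≠ P := by
        intro h
        rw [h, finrank_vectorSpan_P] at hdim
        omega
      have h2 := face_eq hF hFP hwF hi hj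
      have h3 : L i v = L i w := by
        rw [h2] at hvF; exact hvF.2
      refine ⟨i, ?_, ?_⟩
      · intro hii
        rw [hii] at h3 hi
        rw [← h3, h0] at hi
        simp at hi
      · simp only
        rw [h2, h3]
    · rintro ⟨i, hi, rfl⟩
      have h2 := h1 i hi
      exact ⟨facet_exposed i h2, ⟨v, hvP, rfl⟩, facet_finrank i h2, hvP, rfl⟩
  rw [heq, Set.InjOn.ncard_image]
  · have : {i : Fin 5 | i ≠ i0} = ((Finset.univ.erase i0 : Finset (Fin 5)) : Set (Fin 5)) := by
      ext i; simp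
    rw [this, Set.ncard_coe_finset, Finset.card_erase_of_mem (Finset.mem_univ _)]
    simp
  · intro i hi j hj hij
    by_contra hne
    obtain ⟨w, hwP, hwi, hwj⟩ := exists_centre i (h1 i hi)
    have hw : w ∈ {x ∈ P | L i x = L i v} := ⟨hwP, hwi⟩
    have hw2 : w ∈ {x ∈ P | L j x = L j v} := by
      have := hij
      simp only at this
      rw [this] at hw
      exact hw
    have h3 := hwj j (Ne.symm hne)
    rw [hw2.2, h1 j hj] at h3
    exact lt_irrefl _ h3

lemma frontier_poly {ι : Type} [Finite ι] (Λ : ι → ((Fin 4 → ℝ) →ₗ[ℝ] ℝ)) (x : Fin 4 → ℝ) :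
    x ∈ frontier {x : Fin 4 → ℝ | ∀ i, |Λ i x| ≤ 1} ↔ (∀ i, |Λ i x| ≤ 1) ∧ ∃ i, |Λ i x| = 1 := by
  have hcont : ∀ i, Continuous (Λ i) := fun i => LinearMap.continuous_of_finiteDimensional _
  have hclosed : IsClosed {x : Fin 4 → ℝ | ∀ i, |Λ i x| ≤ 1} := by
    have : {x : Fin 4 → ℝ | ∀ i, |Λ i x| ≤ 1} = ⋂ i, {x | |Λ i x| ≤ 1} := by
      ext x; simp
    rw [this]
    exact isClosed_iInter fun i => isClosed_le ((hcont i).abs) continuous_const
  rw [hclosed.frontier_eq]
  constructor
  · rintro ⟨h1, h2⟩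
    refine ⟨h1, ?_⟩
    by_contra hcon
    push Not at hcon
    apply h2
    rw [mem_interior]
    refine ⟨⋂ i, {x | |Λ i x| < 1}, ?_, ?_, ?_⟩
    · intro y hy i
      rw [Set.mem_iInter] at hy
      exact (hy i).le
    · exact isOpen_iInter_of_finite fun i => isOpen_lt ((hcont i).abs) continuous_const
    · rw [Set.mem_iInter]
      exact fun i => lt_of_le_of_ne (h1 i) (hcon i)
  · rintro ⟨h1, i, hi⟩
    refine ⟨h1, ?_⟩
    intro hint
    have hc : Continuous fun t : ℝ => x + t • x :=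
      continuous_const.add (continuous_id.smul continuous_const)
    have h0 : x + (0 : ℝ) • x ∈ interior {x : Fin 4 → ℝ | ∀ i, |Λ i x| ≤ 1} := by simpa using hint
    have h2 := hc.continuousAt.eventually (isOpen_interior.mem_nhds h0)
    rw [Metric.eventually_nhds_iff] at h2
    obtain ⟨ε, hε, h⟩ := h2
    have h3 := h (y := ε / 2) (by
      rw [Real.dist_eq, sub_zero, abs_of_pos (by positivity)]
      linarith)
    have h4 := interior_subset h3 i
    rw [map_add, map_smul, smul_eq_mul] at h4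
    have h5 : Λ i x + ε / 2 * Λ i x = (1 + ε / 2) * Λ i x := by ring
    rw [h5, abs_mul, hi, abs_of_pos (by positivity)] at h4
    linarith

lemma mem_frontier_P (x : Fin 4 → ℝ) : x ∈ frontier P ↔ x ∈ P ∧ ∃ i, |L i x| = 1 :=
  frontier_poly L x

/-- The 4-cube. -/
def C : Set (Fin 4 → ℝ) := {x | ∀ i, |x i| ≤ 1}

lemma mem_frontier_C (x : Fin 4 → ℝ) : x ∈ frontier C ↔ x ∈ C ∧ ∃ i, |x i| = 1 :=
  frontier_poly (fun i : Fin 4 => LinearMap.proj i) x

/-- Facets of the cube. -/
def G (i : Fin 4) (s : ℝ) : Set (Fin 4 → ℝ) := {x ∈ C | x i = s}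

lemma centre_G (i : Fin 4) {s : ℝ} (hs : |s| = 1) : Pi.single i s ∈ G i s := by
  refine ⟨?_, by simp⟩
  intro j
  by_cases hj : j = i
  · subst hj; simp [hs]
  · simp [Pi.single_eq_of_ne hj]

lemma G_exposed (i : Fin 4) {s : ℝ} (hs : |s| = 1) : IsExposed ℝ C (G i s) := by
  intro _
  have hs2 : s * s = 1 := by
    have := abs_mul_abs_self s
    rw [hs] at this; linarith
  refine ⟨LinearMap.toContinuousLinearMap (s • LinearMap.proj i), ?_⟩
  have hle : ∀ y ∈ C, s * y i ≤ 1 := by
    intro y hy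
    have h1 : |s * y i| ≤ 1 := by
      rw [abs_mul, hs, one_mul]; exact hy i
    exact (abs_le.mp h1).2
  ext x
  simp only [G, Set.mem_ofPred_eq, LinearMap.coe_toContinuousLinearMap', LinearMap.smul_apply,
    smul_eq_mul, LinearMap.proj_apply]
  constructor
  · rintro ⟨hx, h⟩
    refine ⟨hx, fun y hy => ?_⟩
    rw [h, hs2]
    exact hle y hy
  · rintro ⟨hx, h⟩
    refine ⟨hx, ?_⟩
    have h1 := h _ (centre_G i hs).1
    rw [Pi.single_eq_same, hs2] at h1
    have h2 := hle x hx
    have h3 : s * x i = 1 := le_antisymm h2 h1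
    have h4 : s * s * x i = s := by rw [mul_assoc, h3, mul_one]
    rw [hs2, one_mul] at h4
    exact h4

lemma G_ne_C (i : Fin 4) {s : ℝ} (hs : |s| = 1) : G i s ≠ C := by
  intro h
  have h0 : (0 : Fin 4 → ℝ) ∈ C := by intro j; simp
  rw [← h] at h0
  have h1 : (0 : ℝ) = s := h0.2
  rw [← h1] at hs
  simp at hs

/-- Two facets of P with different forms meet. -/
lemma facets_meet {k m : Fin 5} (hkm : k ≠ m) {a b : ℝ} (ha : |a| = 1) (hb : |b| = 1) :
    ∃ x ∈ P, L k x = a ∧ L m x = b := by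
  obtain ⟨x, h1, h2, h3⟩ := exists_L k m hkm a b
  refine ⟨x, ?_, h1, h2⟩
  intro j
  by_cases hj : j = k
  · rw [hj, h1, ha]
  · by_cases hj2 : j = m
    · rw [hj2, h2, hb]
    · rw [h3 j hj hj2]
      rw [abs_le] at *
      rcases eq_or_eq_neg_of_abs_eq ha with a' | a' <;>
        rcases eq_or_eq_neg_of_abs_eq hb with b' | b' <;> rw [a', b'] <;> norm_num

lemma no_homeo (Q : Set (Fin 4 → ℝ)) (hQ : Q = P)
    (h : (frontier C) ≃ₜ (frontier Q))
    (hh : ∀ G : Set (Fin 4 → ℝ), IsExposed ℝ C G → G.Nonempty → G ≠ C →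
      ∃ 𝓕 : Set (Set (Fin 4 → ℝ)),
        (∀ F ∈ 𝓕, IsExposed ℝ Q F ∧ F.Nonempty ∧ F ≠ Q) ∧
        (fun x => (h x : Fin 4 → ℝ)) '' {x : frontier C | (x : Fin 4 → ℝ) ∈ G} = ⋃₀ 𝓕) :
    False := by
  subst hQ
  -- images of the cube facets
  set B : Fin 4 → ℝ → Set (Fin 4 → ℝ) := fun i s =>
    (fun x => (h x : Fin 4 → ℝ)) '' {x : frontier C | (x : Fin 4 → ℝ) ∈ G i s} with hB
  -- a point of B i s with one tight form spreads to the facet
  have spread : ∀ i s, |s| = 1 → ∀ y ∈ B i s, ∀ k, |L k y| = 1 → (∀ j, j ≠ k → |L j y| < 1) →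
      ∀ x ∈ P, L k x = L k y → x ∈ B i s := by
    intro i s hs y hy k hk hj x hx hxy
    obtain ⟨𝓕, h1, h2⟩ := hh (G i s) (G_exposed i hs) ⟨_, centre_G i hs⟩ (G_ne_C i hs)
    have hy2 : y ∈ ⋃₀ 𝓕 := by rw [← h2]; exact hy
    obtain ⟨F, hF, hyF⟩ := hy2
    obtain ⟨e1, _, e3⟩ := h1 F hF
    have h3 := face_eq e1 e3 hyF hk hj
    have h4 : x ∈ ⋃₀ 𝓕 := ⟨F, hF, by rw [h3]; exact ⟨hx, hxy⟩⟩
    rw [← h2] at h4
    exact h4
  -- the images cover
  have cover : ∀ y ∈ frontier P, ∃ i s, |s| = 1 ∧ y ∈ B i s := by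
    intro y hy
    set x := h.symm ⟨y, hy⟩ with hx
    obtain ⟨hxC, i, hi⟩ := (mem_frontier_C _).mp x.2
    refine ⟨i, (x : Fin 4 → ℝ) i, hi, x, ⟨hxC, rfl⟩, ?_⟩
    simp [hx]
  -- opposite images are disjoint
  have disj : ∀ i y, y ∈ B i 1 → y ∈ B i (-1) → False := by
    rintro i y ⟨x, hx, hxy⟩ ⟨z, hz, hzy⟩
    have h1 : h x = h z := by
      apply Subtype.ext
      simp only at hxy hzy
      rw [hxy, hzy]
    have h2 : x = z := h.injective h1
    rw [h2] at hx
    have e1 : (z : Fin 4 → ℝ) i = 1 := hx.2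
    have e2 : (z : Fin 4 → ℝ) i = -1 := hz.2
    rw [e1] at e2
    norm_num at e2
  -- every image contains a point with one tight form
  have fat : ∀ i s, |s| = 1 → ∃ y ∈ B i s, ∃ k, |L k y| = 1 ∧ ∀ j, j ≠ k → |L j y| < 1 := by
    intro i s hs
    set V : Set (frontier C) := {x | 0 < s * (x : Fin 4 → ℝ) i ∧
      ∀ j, j ≠ i → |(x : Fin 4 → ℝ) j| < 1} with hV
    have hVopen : IsOpen V := by
      have h1 : V = {x : frontier C | 0 < s * (x : Fin 4 → ℝ) i} ∩
          ⋂ j, {x : frontier C | j ≠ i → |(x : Fin 4 → ℝ) j| < 1} := by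
        ext x; simp [hV]
      rw [h1]
      apply IsOpen.inter
      · exact isOpen_lt continuous_const
          (continuous_const.mul ((continuous_apply i).comp continuous_subtype_val))
      · apply isOpen_iInter_of_finite
        intro j
        by_cases hj : j = i
        · have : {x : frontier C | j ≠ i → |(x : Fin 4 → ℝ) j| < 1} = Set.univ := by
            ext x; simp [hj]
          rw [this]; exact isOpen_univ
        · have : {x : frontier C | j ≠ i → |(x : Fin 4 → ℝ) j| < 1} =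
              {x : frontier C | |(x : Fin 4 → ℝ) j| < 1} := by
            ext x; simp [hj]
          rw [this]
          exact isOpen_lt (((continuous_apply j).comp continuous_subtype_val).abs) continuous_const
    have hVsub : V ⊆ {x : frontier C | (x : Fin 4 → ℝ) ∈ G i s} := by
      rintro x ⟨hx1, hx2⟩
      obtain ⟨hxC, j, hj⟩ := (mem_frontier_C _).mp x.2
      have hji : j = i := by
        by_contra hne
        have := hx2 j hne
        rw [hj] at this
        exact lt_irrefl _ this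
      rw [hji] at hj
      refine ⟨hxC, ?_⟩
      rcases eq_or_eq_neg_of_abs_eq hj with a | a <;>
        rcases eq_or_eq_neg_of_abs_eq hs with b | b
      · rw [a, b]
      · rw [a, b] at hx1; norm_num at hx1
      · rw [a, b] at hx1; norm_num at hx1
      · rw [a, b]
    have hc : Pi.single i s ∈ frontier C := by
      rw [mem_frontier_C]
      exact ⟨(centre_G i hs).1, i, by simp [hs]⟩
    have hVne : (⟨Pi.single i s, hc⟩ : frontier C) ∈ V := by
      refine ⟨?_, ?_⟩
      · simp only [Pi.single_eq_same]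
        have := abs_mul_abs_self s
        rw [hs] at this; linarith
      · intro j hj
        simp [Pi.single_eq_of_ne hj]
    have hO : IsOpen (h '' V) := h.isOpenMap V hVopen
    obtain ⟨U, hU, hUV⟩ := isOpen_induced_iff.mp hO
    set y := h ⟨Pi.single i s, hc⟩ with hy
    have hyO : y ∈ h '' V := ⟨_, hVne, rfl⟩
    have hyU : (y : Fin 4 → ℝ) ∈ U := by
      rw [← hUV] at hyO; exact hyO
    obtain ⟨hyP, k, hk⟩ := (mem_frontier_P _).mp y.2
    obtain ⟨w, hwP, hwk, hwj⟩ := exists_centre k hk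
    have hcont : Continuous fun t : ℝ => (1 - t) • (y : Fin 4 → ℝ) + t • w := by fun_prop
    have h0 : (1 - (0 : ℝ)) • (y : Fin 4 → ℝ) + (0 : ℝ) • w ∈ U := by simpa using hyU
    have h2 := hcont.continuousAt.eventually (hU.mem_nhds h0)
    rw [Metric.eventually_nhds_iff] at h2
    obtain ⟨ε, hε, hball⟩ := h2
    set t : ℝ := min (ε / 2) (1 / 2) with ht
    have ht0 : 0 < t := lt_min (by positivity) (by norm_num)
    have ht1 : t ≤ 1 / 2 := min_le_right _ _
    have htε : t < ε := lt_of_le_of_lt (min_le_left _ _) (by linarith)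
    have h3 := hball (y := t) (by rw [Real.dist_eq, sub_zero, abs_of_pos ht0]; exact htε)
    set z : Fin 4 → ℝ := (1 - t) • (y : Fin 4 → ℝ) + t • w with hz
    have hzP : z ∈ P := P_convex hyP hwP (by linarith) ht0.le (by ring)
    have hzk : L k z = L k y := by
      rw [hz, map_add, map_smul, map_smul, hwk, smul_eq_mul, smul_eq_mul]; ring
    have hzj : ∀ j, j ≠ k → |L j z| < 1 := by
      intro j hj
      rw [hz, map_add, map_smul, map_smul, smul_eq_mul, smul_eq_mul]
      calc |(1 - t) * L j y + t * L j w| ≤ |(1 - t) * L j y| + |t * L j w| := abs_add_le _ _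
        _ = (1 - t) * |L j y| + t * |L j w| := by
            rw [abs_mul, abs_mul, abs_of_pos ht0, abs_of_pos (by linarith : (0 : ℝ) < 1 - t)]
        _ < 1 := by
            have e1 := hyP j
            have e2 := hwj j hj
            nlinarith
    have hzf : z ∈ frontier P := by
      rw [mem_frontier_P]
      exact ⟨hzP, k, by rw [hzk, hk]⟩
    have hzO : (⟨z, hzf⟩ : frontier P) ∈ h '' V := by
      rw [← hUV]; exact h3
    obtain ⟨x, hxV, hxz⟩ := hzO
    refine ⟨z, ⟨x, hVsub hxV, ?_⟩, k, by rw [hzk, hk], hzj⟩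
    simp only
    rw [hxz]
  -- the class of the facet L k = 1
  have cls : ∀ k : Fin 5, ∃ i s, |s| = 1 ∧ ∀ x ∈ P, L k x = 1 → x ∈ B i s := by
    intro k
    obtain ⟨w, hwP, hwk, hwj⟩ := exists_centre k (s := 1) (by simp)
    have hk1 : |L k w| = 1 := by rw [hwk]; simp
    obtain ⟨i, s, hs, hwB⟩ := cover w ((mem_frontier_P w).mpr ⟨hwP, k, hk1⟩)
    refine ⟨i, s, hs, fun x hx hxk => ?_⟩
    exact spread i s hs w hwB k hk1 hwj x hx (by rw [hxk, hwk])
  choose f g hg hcl using cls
  obtain ⟨k, m, hkm, hfkm⟩ := Fintype.exists_ne_map_eq_of_card_lt f (by simp)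
  -- no facet of P on the other side can avoid both
  have opp : ∀ i s, |s| = 1 → (∀ x ∈ P, L k x = 1 → x ∈ B i s) →
      (∀ x ∈ P, L m x = 1 → x ∈ B i s) → (∀ y, y ∈ B i s → y ∈ B i (-s) → False) → False := by
    intro i s hs h1 h2 h3
    obtain ⟨y, hyB, n, hn, hnj⟩ := fat i (-s) (by rw [abs_neg, hs])
    have h4 := spread i (-s) (by rw [abs_neg, hs]) y hyB n hn hnj
    by_cases hnk : n = k
    · have hnm : m ≠ n := by rw [hnk]; exact Ne.symm hkm
      obtain ⟨x, hxP, hx1, hx2⟩ := facets_meet hnm (a := 1) (b := L n y) (by simp) hn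
      exact h3 x (h2 x hxP hx1) (h4 x hxP hx2)
    · obtain ⟨x, hxP, hx1, hx2⟩ := facets_meet (Ne.symm hnk) (a := 1) (b := L n y) (by simp) hn
      exact h3 x (h1 x hxP hx1) (h4 x hxP hx2)
  have disj' : ∀ i s, |s| = 1 → ∀ y, y ∈ B i s → y ∈ B i (-s) → False := by
    intro i s hs y h1 h2
    rcases eq_or_eq_neg_of_abs_eq hs with b | b
    · rw [b] at h1 h2
      exact disj i y h1 h2
    · rw [b] at h1 h2
      rw [neg_neg] at h2
      exact disj i y h2 h1
  have hgk := hg k
  have hgm := hg m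
  have hck := hcl k
  have hcm := hcl m
  rw [← hfkm] at hcm
  by_cases hs : g m = g k
  · rw [hs] at hcm
    exact opp (f k) (g k) hgk hck hcm (disj' (f k) (g k) hgk)
  · have hs2 : g m = -g k := by
      rcases eq_or_eq_neg_of_abs_eq hgk with a | a <;>
        rcases eq_or_eq_neg_of_abs_eq hgm with b | b
      · exact absurd (by rw [a, b]) hs
      · rw [a, b]
      · rw [a, b]; norm_num
      · exact absurd (by rw [a, b]) hs
    rw [hs2] at hcm
    obtain ⟨x, hxP, hx1, hx2⟩ := facets_meet hkm (a := 1) (b := 1) (by simp) (by simp)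
    exact disj' (f k) (g k) hgk x (hck x hxP hx1) (hcm x hxP hx2)

/-- The negation of the preceding statement: For every full-dimensional origin-symmetric polytope in R^d whose vertices each lie in exactly d facets, some homeomorphism from the boundary of the cube [-1,1]^d to the boundary of the polytope sends each proper face of the cube onto a union of proper faces of the polytope. -/
theorem result :
    ¬ (∀ (d : ℕ) (S : Finset (Fin d → ℝ)),
      (interior (convexHull ℝ (S : Set (Fin d → ℝ)))).Nonempty →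
      (∀ x ∈ convexHull ℝ (S : Set (Fin d → ℝ)), -x ∈ convexHull ℝ (S : Set (Fin d → ℝ))) →
      (∀ v ∈ (convexHull ℝ (S : Set (Fin d → ℝ))).extremePoints ℝ,
        {F : Set (Fin d → ℝ) | IsExposed ℝ (convexHull ℝ (S : Set (Fin d → ℝ))) F ∧
            F.Nonempty ∧ Module.finrank ℝ (vectorSpan ℝ F) = d - 1 ∧ v ∈ F}.ncard = d) →
      ∃ h : (frontier {x : Fin d → ℝ | ∀ i, |x i| ≤ 1}) ≃ₜ
          (frontier (convexHull ℝ (S : Set (Fin d → ℝ)))),
        ∀ G : Set (Fin d → ℝ), IsExposed ℝ {x : Fin d → ℝ | ∀ i, |x i| ≤ 1} G →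
          G.Nonempty → G ≠ {x : Fin d → ℝ | ∀ i, |x i| ≤ 1} →
          ∃ 𝓕 : Set (Set (Fin d → ℝ)),
            (∀ F ∈ 𝓕, IsExposed ℝ (convexHull ℝ (S : Set (Fin d → ℝ))) F ∧ F.Nonempty ∧
                F ≠ convexHull ℝ (S : Set (Fin d → ℝ))) ∧
            (fun x => (h x : Fin d → ℝ)) ''
                {x : frontier {x : Fin d → ℝ | ∀ i, |x i| ≤ 1} | (x : Fin d → ℝ) ∈ G} = ⋃₀ 𝓕) := by
  intro hmain
  obtain ⟨S, hS⟩ := exists_S
  obtain ⟨h, hh⟩ := hmain 4 S
    (by
      rw [hS]
      exact ⟨0, mem_interior_P (fun i => by simp)⟩)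
    (by
      rw [hS]
      exact fun x hx => P_neg hx)
    (by
      rw [hS]
      exact fun v hv => facets_ncard hv)
  exact no_homeo _ hS h hh

end Pool.Agent.S06768
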