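import Pool.Statements.S06778
import Pool.Agent.Helper912.KRFinal

set_option autoImplicit false
open Pool Pool.MP_a8cbfa_co

namespace Pool.Agent.S06778

/-- The negation of the preceding statement: There is a constant C > 0 such that the average number of antichains of a labelled poset on n points is asymptotically equivalent to C·2^(n/2) as n tends to infinity. -/
theorem result :
    ¬ (∃ C : ℝ, 0 < C ∧ Asymptotics.IsEquivalent Filter.atTop
      (fun n : ℕ =>
        (Nat.card {p : (Fin n → Fin n → Bool) × Finset (Fin n) //
            ((∀ x, p.1 x x = true) ∧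
              (∀ x y, p.1 x y = true → p.1 y x = true → x = y) ∧
              (∀ x y z, p.1 x y = true → p.1 y z = true → p.1 x z = true)) ∧
            (∀ x ∈ p.2, ∀ y ∈ p.2, p.1 x y = true → x = y)} : ℝ) /
        (Nat.card {r : Fin n → Fin n → Bool //
            (∀ x, r x x = true) ∧
              (∀ x y, r x y = true → r y x = true → x = y) ∧
              (∀ x y z, r x y = true → r y z = true → r x z = true)} : ℝ))
      (fun n : ℕ => C * (2 : ℝ) ^ ((n : ℝ) / 2))) := by
  rintro ⟨C, hC, h⟩
  simp only [Pool.Agent.Helper912.card_B, Pool.Agent.Helper912.card_C] at h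
  have h2 : ∀ n : ℕ, (2 : ℝ) ^ ((n : ℝ) / 2) = Pool.Agent.Helper912.s2 ^ n := by
    intro n
    unfold Pool.Agent.Helper912.s2
    rw [Real.sqrt_eq_rpow, ← Real.rpow_natCast, ← Real.rpow_mul (by norm_num)]
    congr 1; ring
  simp only [h2] at h
  have h3 := (Asymptotics.isEquivalent_iff_tendsto_one (by
    filter_upwards with n
    have := Pool.Agent.Helper912.s2_pos
    positivity)).1 h
  exact Pool.Agent.Helper912.no_limit C hC h3

end Pool.Agent.S06778
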