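import Pool.Statements.S06788

set_option autoImplicit false
open Pool Pool.MP_a94970_co

namespace Pool.Agent.S06788

/-- Number of elements of `D` in the dyadic block of level `i` that contains `y`. -/
def cnt (D : Finset ℕ) (i y : ℕ) : ℕ := (D.filter (fun x => x / 2 ^ i = y / 2 ^ i)).card

/-- Total, over the levels `i ≤ L`, of the number of `y` in the level `L` block with index `a`
whose level `i` block contains exactly one element of `D`. -/
def tot (D : Finset ℕ) (L a : ℕ) : ℕ :=
  ∑ i ∈ Finset.range (L + 1),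
    ((Finset.Ico (a * 2 ^ L) ((a + 1) * 2 ^ L)).filter (fun y => cnt D i y = 1)).card

lemma div_eq_of_mem {L a y : ℕ} (hy : y ∈ Finset.Ico (a * 2 ^ L) ((a + 1) * 2 ^ L)) :
    y / 2 ^ L = a := by
  rw [Finset.mem_Ico] at hy
  exact Nat.div_eq_of_lt_le hy.1 hy.2

lemma mem_of_div_eq {L a y : ℕ} (hy : y / 2 ^ L = a) :
    y ∈ Finset.Ico (a * 2 ^ L) ((a + 1) * 2 ^ L) := by
  rw [Finset.mem_Ico]
  have hpos : 0 < 2 ^ L := by positivity
  constructor
  · rw [← hy]; exact Nat.div_mul_le_self y (2 ^ L)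
  · rw [← hy]
    have := Nat.lt_succ_iff.mpr (le_refl (y / 2 ^ L))
    exact (Nat.div_lt_iff_lt_mul hpos).mp this

lemma block_mono {L i x y : ℕ} (hi : i ≤ L) (h : x / 2 ^ i = y / 2 ^ i) :
    x / 2 ^ L = y / 2 ^ L := by
  obtain ⟨k, rfl⟩ := Nat.exists_eq_add_of_le hi
  rw [pow_add, ← Nat.div_div_eq_div_mul, ← Nat.div_div_eq_div_mul, h]

lemma tot_zero {D : Finset ℕ} {L a : ℕ} (h : ∀ x ∈ D, x / 2 ^ L ≠ a) : tot D L a = 0 := by
  unfold tot
  apply Finset.sum_eq_zero
  intro i hi
  rw [Finset.card_eq_zero, Finset.filter_eq_empty_iff]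
  intro y hy hc
  have hy' := div_eq_of_mem hy
  unfold cnt at hc
  obtain ⟨x, hx⟩ := Finset.card_eq_one.mp hc
  have hxm : x ∈ D.filter (fun x => x / 2 ^ i = y / 2 ^ i) := by rw [hx]; simp
  rw [Finset.mem_filter] at hxm
  have hiL : i ≤ L := Nat.lt_succ_iff.mp (Finset.mem_range.mp hi)
  exact h x hxm.1 ((block_mono hiL hxm.2).trans hy')

lemma Ico_split (L a : ℕ) :
    Finset.Ico (a * 2 ^ (L + 1)) ((a + 1) * 2 ^ (L + 1)) =
      Finset.Ico ((2 * a) * 2 ^ L) ((2 * a + 1) * 2 ^ L) ∪
        Finset.Ico ((2 * a + 1) * 2 ^ L) ((2 * a + 1 + 1) * 2 ^ L) := by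
  have h1 : a * 2 ^ (L + 1) = (2 * a) * 2 ^ L := by ring
  have h2 : (a + 1) * 2 ^ (L + 1) = (2 * a + 1 + 1) * 2 ^ L := by ring
  rw [h1, h2, Finset.Ico_union_Ico_eq_Ico]
  · exact Nat.mul_le_mul_right _ (by omega)
  · exact Nat.mul_le_mul_right _ (by omega)

lemma tot_succ (D : Finset ℕ) (L a : ℕ) :
    tot D (L + 1) a = tot D L (2 * a) + tot D L (2 * a + 1) +
      ((Finset.Ico (a * 2 ^ (L + 1)) ((a + 1) * 2 ^ (L + 1))).filter
        (fun y => cnt D (L + 1) y = 1)).card := by
  unfold tot
  rw [Finset.sum_range_succ _ (L + 1), ← Finset.sum_add_distrib]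
  congr 1
  apply Finset.sum_congr rfl
  intro i _
  rw [Ico_split, Finset.filter_union, Finset.card_union_of_disjoint]
  apply Finset.disjoint_filter_filter
  exact Finset.Ico_disjoint_Ico_consecutive _ _ _

lemma tot_le (D : Finset ℕ) (L : ℕ) : ∀ a, tot D L a ≤ 2 * 2 ^ L := by
  induction L with
  | zero =>
    intro a
    unfold tot
    simp only [zero_add, Finset.range_one, Finset.sum_singleton, pow_zero, mul_one]
    refine (Finset.card_filter_le _ _).trans ?_
    simp
  | succ L ih =>
    intro a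
    rw [tot_succ]
    have hcard : ((Finset.Ico (a * 2 ^ (L + 1)) ((a + 1) * 2 ^ (L + 1))).filter
        (fun y => cnt D (L + 1) y = 1)).card ≤ 2 ^ (L + 1) := by
      refine (Finset.card_filter_le _ _).trans ?_
      rw [Nat.card_Ico, add_mul, one_mul, Nat.add_sub_cancel_left]
    by_cases hone : (D.filter (fun x => x / 2 ^ (L + 1) = a)).card = 1
    · -- exactly one element of `D` in the block: one half is empty
      obtain ⟨d, hd⟩ := Finset.card_eq_one.mp hone
      have key : ∀ x ∈ D, x / 2 ^ (L + 1) = a → x = d := by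
        intro x hx hxa
        have : x ∈ D.filter (fun x => x / 2 ^ (L + 1) = a) := Finset.mem_filter.mpr ⟨hx, hxa⟩
        rw [hd] at this
        exact Finset.mem_singleton.mp this
      have hdiv : ∀ x b : ℕ, x / 2 ^ L = 2 * a + b → b < 2 → x / 2 ^ (L + 1) = a := by
        intro x b hx hb
        rw [pow_succ, ← Nat.div_div_eq_div_mul, hx]
        omega
      have hz : tot D L (2 * a) = 0 ∨ tot D L (2 * a + 1) = 0 := by
        by_cases hd0 : d / 2 ^ L = 2 * a
        · right
          apply tot_zero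
          intro x hx hxe
          have h1 := key x hx (hdiv x 1 hxe (by norm_num))
          rw [h1, hd0] at hxe
          omega
        · left
          apply tot_zero
          intro x hx hxe
          have h1 := key x hx (hdiv x 0 (by simpa using hxe) (by norm_num))
          rw [h1] at hxe
          exact hd0 hxe
      have h0 := ih (2 * a)
      have h1 := ih (2 * a + 1)
      have h2 : 2 ^ (L + 1) = 2 * 2 ^ L := by ring
      rcases hz with hz | hz <;> rw [hz] <;> omega
    · have hempty : ((Finset.Ico (a * 2 ^ (L + 1)) ((a + 1) * 2 ^ (L + 1))).filter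
        (fun y => cnt D (L + 1) y = 1)).card = 0 := by
        rw [Finset.card_eq_zero, Finset.filter_eq_empty_iff]
        intro y hy hc
        apply hone
        unfold cnt at hc
        rw [div_eq_of_mem hy] at hc
        exact hc
      have h0 := ih (2 * a)
      have h1 := ih (2 * a + 1)
      have h2 : 2 ^ (L + 1) = 2 * 2 ^ L := by ring
      omega

/-- Vertices: `1024` leaves, and five copies of each pair (level, leaf). -/
abbrev W : Type := Fin 1024 ⊕ (Fin 11 × Fin 1024 × Fin 5)

/-- A leaf `x` is joined to `(i, y, m)` when `x` and `y` lie in the same dyadic block of level `i`. -/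
def adj : W → W → Prop
  | Sum.inl x, Sum.inr p => x.val / 2 ^ p.1.val = p.2.1.val / 2 ^ p.1.val
  | Sum.inr p, Sum.inl x => x.val / 2 ^ p.1.val = p.2.1.val / 2 ^ p.1.val
  | _, _ => False

def gr : SimpleGraph W where
  Adj := adj
  symm := ⟨by
    intro u v h
    cases u <;> cases v <;> simp_all [adj]⟩
  loopless := ⟨by
    intro u h
    cases u <;> simp_all [adj]⟩

lemma gr_connected : gr.Connected := by
  have hub : ∀ v : W, gr.Reachable (Sum.inr (10, 0, 0)) v := by
    have h1 : ∀ x : Fin 1024, gr.Reachable (Sum.inr (10, 0, 0)) (Sum.inl x) := by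
      intro x
      apply SimpleGraph.Adj.reachable
      change x.val / 2 ^ (10 : ℕ) = 0 / 2 ^ (10 : ℕ)
      have hx := x.isLt
      rw [Nat.div_eq_of_lt (by simp)]
      norm_num
    intro v
    rcases v with x | ⟨i, y, m⟩
    · exact h1 x
    · refine (h1 y).trans ?_
      apply SimpleGraph.Adj.reachable
      change y.val / 2 ^ i.val = y.val / 2 ^ i.val
      rfl
  exact SimpleGraph.Connected.mk (fun u v => (hub u).symm.trans (hub v))

lemma sum_cnt (D : Finset ℕ) :
    (∑ p : Fin 11 × Fin 1024 × Fin 5, (if cnt D p.1.val p.2.1.val = 1 then 1 else 0)) ≤ 10240 := by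
  have h := tot_le D 10 0
  have h2 : (∑ p : Fin 11 × Fin 1024 × Fin 5, (if cnt D p.1.val p.2.1.val = 1 then 1 else 0)) =
      5 * tot D 10 0 := by
    unfold tot
    rw [Fintype.sum_prod_type, Finset.mul_sum,
      Fin.sum_univ_eq_sum_range (fun i => ∑ q : Fin 1024 × Fin 5,
        (if cnt D i q.1.val = 1 then 1 else 0)) 11]
    apply Finset.sum_congr rfl
    intro i _
    rw [Fintype.sum_prod_type, Finset.card_filter, Finset.mul_sum,
      Fin.sum_univ_eq_sum_range (fun y => ∑ _m : Fin 5, (if cnt D i y = 1 then 1 else 0)) 1024]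
    rw [Finset.range_eq_Ico]
    apply Finset.sum_congr
    · norm_num
    · intro y _
      simp
  rw [h2]
  omega

/-- The negation of the preceding statement: Every connected finite simple graph on n ≥ 3 vertices has a 0/1/2 labelling where each 0-vertex has exactly one neighbour labelled 2, with total label sum at most 4n/5. -/
theorem result :
    ¬ (∀ (V : Type) [Fintype V] (G : SimpleGraph V),
      G.Connected → 3 ≤ Fintype.card V →
      ∃ f : V → ℕ, (∀ v, f v ≤ 2) ∧
        (∀ v, f v = 0 → ∃! u, G.Adj v u ∧ f u = 2) ∧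
        5 * (∑ v, f v) ≤ 4 * Fintype.card V) := by
  intro h
  obtain ⟨f, -, hf0, hsum⟩ := h W gr gr_connected (by simp)
  set D : Finset ℕ := (Finset.univ.filter (fun x : Fin 1024 => f (Sum.inl x) = 2)).map
    Fin.valEmbedding with hD
  have hmemD : ∀ x : ℕ, x ∈ D ↔ ∃ hx : x < 1024, f (Sum.inl ⟨x, hx⟩) = 2 := by
    intro x
    rw [hD, Finset.mem_map]
    constructor
    · rintro ⟨z, hz, rfl⟩
      exact ⟨z.isLt, (Finset.mem_filter.mp hz).2⟩
    · rintro ⟨hx, hfx⟩
      exact ⟨⟨x, hx⟩, Finset.mem_filter.mpr ⟨Finset.mem_univ _, hfx⟩, rfl⟩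
  have hpt : ∀ p : Fin 11 × Fin 1024 × Fin 5,
      1 ≤ f (Sum.inr p) + (if cnt D p.1.val p.2.1.val = 1 then 1 else 0) := by
    intro p
    by_cases hp : f (Sum.inr p) = 0
    · obtain ⟨u, ⟨hu1, hu2⟩, huniq⟩ := hf0 _ hp
      rcases u with x | q
      · have hc : cnt D p.1.val p.2.1.val = 1 := by
          unfold cnt
          rw [Finset.card_eq_one]
          refine ⟨x.val, ?_⟩
          ext z
          rw [Finset.mem_filter, Finset.mem_singleton, hmemD]
          constructor
          · rintro ⟨⟨hz, hfz⟩, hdiv⟩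
            have hz' : (Sum.inl ⟨z, hz⟩ : W) = Sum.inl x := by
              apply huniq
              exact ⟨hdiv, hfz⟩
            have := Sum.inl.inj hz'
            rw [← this]
          · rintro rfl
            exact ⟨⟨x.isLt, hu2⟩, hu1⟩
        rw [if_pos hc]
        omega
      · exact absurd hu1 (by intro h'; exact h')
    · omega
  have hs1 : ∑ p : Fin 11 × Fin 1024 × Fin 5, 1 ≤
      ∑ p : Fin 11 × Fin 1024 × Fin 5,
        (f (Sum.inr p) + (if cnt D p.1.val p.2.1.val = 1 then 1 else 0)) :=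
    Finset.sum_le_sum (fun p _ => hpt p)
  rw [Finset.sum_add_distrib] at hs1
  have hs2 := sum_cnt D
  have hs3 : ∑ p : Fin 11 × Fin 1024 × Fin 5, 1 = 56320 := by
    simp
  have hs4 : ∑ v : W, f v = ∑ x : Fin 1024, f (Sum.inl x) +
      ∑ p : Fin 11 × Fin 1024 × Fin 5, f (Sum.inr p) := Fintype.sum_sum_type f
  have hcard : Fintype.card W = 57344 := by
    simp
  rw [hcard] at hsum
  omega

end Pool.Agent.S06788
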