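import Pool.Statements.S06792
-- import your own Pool.Agent.* helpers here

set_option autoImplicit false
open Pool Pool.MP_a9902f_co

namespace Pool.Agent.S06792

/-- The left factor. It is a Szabo type factor of the cyclic group of order 900 = 4 * 9 * 25: a product of
subgroups in which three disjoint lines, one in each coordinate direction, have been shifted by one. -/
def R0 : Finset ℕ :=
  {0, 15, 21, 45, 55, 75, 105, 135, 195, 201, 285, 315, 355, 375, 381, 405, 435, 450, 465, 495,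
   561, 585, 615, 645, 655, 735, 741, 765, 795, 825}

/-- The right factor: the box of the x with x mod 4 < 2, x mod 9 < 3, x mod 25 < 5. -/
def S0 : Finset ℕ :=
  (Finset.range 900).filter fun y => y % 4 < 2 ∧ y % 9 < 3 ∧ y % 25 < 5

theorem cover_aux : ∀ v < 900, ∃ r ∈ R0,
    ((v + 900 - r) % 900 % 4 < 2 ∧ (v + 900 - r) % 900 % 9 < 3 ∧ (v + 900 - r) % 900 % 25 < 5) := by
  decide +kernel

theorem R0_lt : ∀ r ∈ R0, r < 900 := by decide

theorem cover : ∀ v < 900, ∃ r ∈ R0, ∃ s ∈ S0, (r + s) % 900 = v := by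
  intro v hv
  obtain ⟨r, hr, h⟩ := cover_aux v hv
  have hr9 := R0_lt r hr
  refine ⟨r, hr, (v + 900 - r) % 900, ?_, ?_⟩
  · exact Finset.mem_filter.2 ⟨Finset.mem_range.2 (Nat.mod_lt _ (by norm_num)), h⟩
  · omega

theorem cardR : R0.card = 30 := by decide +kernel

theorem cardS : S0.card = 30 := by decide +kernel

/-- The sum map from pairs to residues. -/
def f (rs : ℕ × ℕ) : ZMod 900 := ((rs.1 + rs.2 : ℕ) : ZMod 900)

theorem f_surj : ∀ x : ZMod 900, ∃ rs ∈ R0 ×ˢ S0, f rs = x := by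
  intro x
  obtain ⟨r, hr, s, hs, h⟩ := cover x.val (ZMod.val_lt x)
  refine ⟨(r, s), Finset.mem_product.2 ⟨hr, hs⟩, ?_⟩
  unfold f
  have h1 : ((r + s : ℕ) : ZMod 900) = (((r + s) % 900 : ℕ) : ZMod 900) := by
    rw [ZMod.natCast_mod]
  simp only
  rw [h1, h, ZMod.natCast_zmod_val]

theorem f_inj : ∀ a ∈ R0 ×ˢ S0, ∀ b ∈ R0 ×ˢ S0, f a = f b → a = b := by
  have himg : (R0 ×ˢ S0).image f = (Finset.univ : Finset (ZMod 900)) := by
    ext x
    simp only [Finset.mem_image, Finset.mem_univ, iff_true]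
    exact f_surj x
  have hcard : ((R0 ×ˢ S0).image f).card = (R0 ×ˢ S0).card := by
    rw [himg, Finset.card_univ, ZMod.card, Finset.card_product, cardR, cardS]
  have := Finset.card_image_iff.1 hcard
  intro a ha b hb hab
  exact this ha hb hab

/-- The negation of the preceding statement: For coprime p,q ≥ 2 there is no n ≥ 1 and no finite sets R,S of naturals with 0,p,q in R and 0,1 in S such that every residue mod n is r+s mod n for exactly one pair (r,s) in R×S. -/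
theorem result :
    ¬ (∀ p q : ℕ, 2 ≤ p → 2 ≤ q → Nat.Coprime p q →
      ¬ ∃ n : ℕ, 1 ≤ n ∧ ∃ R S : Finset ℕ,
        0 ∈ R ∧ p ∈ R ∧ q ∈ R ∧ 0 ∈ S ∧ 1 ∈ S ∧
        ∀ x : ZMod n, ∃! rs : ℕ × ℕ,
          rs.1 ∈ R ∧ rs.2 ∈ S ∧ (((rs.1 + rs.2 : ℕ)) : ZMod n) = x) := by
  intro H
  refine H 21 55 (by norm_num) (by norm_num) (by decide) ⟨900, by norm_num, R0, S0, ?_, ?_, ?_, ?_, ?_, ?_⟩
  · decide
  · decide
  · decide
  · simp [S0]
  · simp [S0]
  · intro x
    obtain ⟨rs, hrs, hx⟩ := f_surj x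
    refine ⟨rs, ⟨(Finset.mem_product.1 hrs).1, (Finset.mem_product.1 hrs).2, hx⟩, ?_⟩
    rintro y ⟨hy1, hy2, hy3⟩
    refine f_inj y (Finset.mem_product.2 ⟨hy1, hy2⟩) rs hrs ?_
    rw [hx]
    exact hy3

end Pool.Agent.S06792
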