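import Pool.Statements.S06799
import Pool.Agent.H365PP.Main
-- import your own Pool.Agent.* helpers here

set_option autoImplicit false
open Pool Pool.MP_aa3337_co

namespace Pool.Agent.S06799

/-- There is ε>0 such that for every n and every n points in the plane with no three collinear, the straight-line edges can be coloured with at most (1-ε)n colours so that any two crossing edges get different colours. -/
theorem result :
    ∃ ε : ℝ, 0 < ε ∧
      ∀ n : ℕ, ∀ p : Fin n → ℝ × ℝ,
        Function.Injective p →
        (∀ i j l : Fin n, i ≠ j → j ≠ l → i ≠ l → ¬ Collinear ℝ ({p i, p j, p l} : Set (ℝ × ℝ))) →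
        ∃ k : ℕ, (k : ℝ) ≤ (1 - ε) * (n : ℝ) ∧
          ∃ c : Fin n → Fin n → ℕ,
            (∀ i j : Fin n, c i j = c j i) ∧
            (∀ i j : Fin n, i ≠ j → c i j < k) ∧
            (∀ i j a b : Fin n, i ≠ j → i ≠ a → i ≠ b → j ≠ a → j ≠ b → a ≠ b →
              (openSegment ℝ (p i) (p j) ∩ openSegment ℝ (p a) (p b)).Nonempty →
              c i j ≠ c a b) := by
  exact Pool.Agent.H365PP.main_result

end Pool.Agent.S06799
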