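import Pool.Statements.S06809
import Pool.Agent.UFree.Fin

set_option autoImplicit false
open Pool Pool.MP_aadab9_co

namespace Pool.Agent.S06809

/-- There is a constant c such that for every n, any family of subsets of an n-set with no three distinct members A, B, C satisfying A ∪ B = C has at most C(n, ⌊n/2⌋)·(1 + c/n) members. -/
theorem result :
    ∃ c : ℝ, ∀ n : ℕ, ∀ F : Finset (Finset (Fin n)),
      (∀ A ∈ F, ∀ B ∈ F, ∀ C ∈ F, A ≠ B → A ≠ C → B ≠ C → A ∪ B ≠ C) →
      (F.card : ℝ) ≤ (n.choose (n / 2) : ℝ) * (1 + c / (n : ℝ)) := by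
  exact UF.final_bound

end Pool.Agent.S06809
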