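import Pool.Statements.S06814

set_option autoImplicit false
open Pool Pool.MP_abcac9_co

namespace Pool.Agent.S06814

open Finset

/-- Vertices: `m+1` blocks of 30 vertices and one closing unit of 14 vertices. -/
abbrev Vtx (m : ℕ) : Type := (Fin (m + 1) × Fin 30) ⊕ Fin 14

/-- Neighbours inside a block (third entries at 0 and 29 are dummies). -/
def bn : Fin 30 → Fin 3 → Fin 30 :=
  ![![1, 2, 0], ![3, 4, 0], ![5, 6, 0], ![7, 8, 1], ![9, 1, 10], ![11, 12, 2], ![13, 2, 14],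
    ![15, 16, 3], ![17, 3, 18], ![16, 18, 4], ![15, 17, 4], ![19, 20, 5], ![21, 5, 22],
    ![20, 22, 6], ![19, 21, 6], ![23, 10, 7], ![24, 7, 9], ![10, 24, 8], ![8, 9, 23],
    ![25, 14, 11], ![26, 11, 13], ![14, 26, 12], ![12, 13, 25], ![27, 15, 18], ![27, 17, 16],
    ![28, 19, 22], ![28, 21, 20], ![23, 24, 29], ![25, 26, 29], ![27, 28, 0]]

/-- Neighbours inside the closing unit (third entries at 0 and 13 are dummies). -/
def un : Fin 14 → Fin 3 → Fin 14 :=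
  ![![1, 2, 0], ![3, 4, 0], ![5, 0, 6], ![7, 8, 1], ![9, 1, 10], ![8, 10, 2], ![7, 9, 2],
    ![11, 6, 3], ![12, 3, 5], ![6, 12, 4], ![4, 5, 11], ![13, 7, 10], ![13, 9, 8], ![11, 12, 0]]

def prv (m : ℕ) (i : Fin (m + 1)) : Vtx m :=
  Fin.cases (motive := fun _ => Vtx m) (Sum.inr 13) (fun j => Sum.inl (j.castSucc, 29)) i

def nxt (m : ℕ) (i : Fin (m + 1)) : Vtx m :=
  Fin.lastCases (motive := fun _ => Vtx m) (Sum.inr 0) (fun j => Sum.inl (j.succ, 0)) i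

def nbr (m : ℕ) : Vtx m → Fin 3 → Vtx m
  | Sum.inl (i, a), j =>
      if a = 0 ∧ j = 2 then prv m i
      else if a = 29 ∧ j = 2 then nxt m i
      else Sum.inl (i, bn a j)
  | Sum.inr e, j =>
      if e = 0 ∧ j = 2 then Sum.inl (Fin.last m, 29)
      else if e = 13 ∧ j = 2 then Sum.inl (0, 0)
      else Sum.inr (un e j)

lemma prv_zero (m : ℕ) : prv m 0 = Sum.inr 13 := rfl
lemma prv_succ (m : ℕ) (j : Fin m) : prv m j.succ = Sum.inl (j.castSucc, 29) := rfl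
lemma nxt_last (m : ℕ) : nxt m (Fin.last m) = Sum.inr 0 := by simp [nxt]
lemma nxt_castSucc (m : ℕ) (j : Fin m) : nxt m j.castSucc = Sum.inl (j.succ, 0) := by simp [nxt]

lemma bn_symm : ∀ (a : Fin 30) (j : Fin 3), ¬ (a = 0 ∧ j = 2) → ¬ (a = 29 ∧ j = 2) →
    ∃ j' : Fin 3, ¬ (bn a j = 0 ∧ j' = 2) ∧ ¬ (bn a j = 29 ∧ j' = 2) ∧ bn (bn a j) j' = a := by
  decide +kernel

lemma un_symm : ∀ (a : Fin 14) (j : Fin 3), ¬ (a = 0 ∧ j = 2) → ¬ (a = 13 ∧ j = 2) →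
    ∃ j' : Fin 3, ¬ (un a j = 0 ∧ j' = 2) ∧ ¬ (un a j = 13 ∧ j' = 2) ∧ un (un a j) j' = a := by
  decide +kernel

lemma bn_ne : ∀ (a : Fin 30) (j : Fin 3), ¬ (a = 0 ∧ j = 2) → ¬ (a = 29 ∧ j = 2) →
    bn a j ≠ a := by
  decide +kernel

lemma un_ne : ∀ (a : Fin 14) (j : Fin 3), ¬ (a = 0 ∧ j = 2) → ¬ (a = 13 ∧ j = 2) →
    un a j ≠ a := by
  decide +kernel

lemma nbr_symm (m : ℕ) (u : Vtx m) (j : Fin 3) : ∃ j', nbr m (nbr m u j) j' = u := by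
  rcases u with ⟨i, a⟩ | e
  · by_cases h1 : a = 0 ∧ j = 2
    · obtain ⟨rfl, rfl⟩ := h1
      refine ⟨2, ?_⟩
      refine Fin.cases ?_ (fun k => ?_) i
      · simp [nbr, prv_zero]
      · simp [nbr, prv_succ, nxt_castSucc]
    · by_cases h2 : a = 29 ∧ j = 2
      · obtain ⟨rfl, rfl⟩ := h2
        refine ⟨2, ?_⟩
        refine Fin.lastCases ?_ (fun k => ?_) i
        · simp [nbr, nxt_last]
        · simp [nbr, prv_succ, nxt_castSucc]
      · obtain ⟨j', h3, h4, h5⟩ := bn_symm a j h1 h2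
        refine ⟨j', ?_⟩
        simp only [nbr, h1, h2, if_false, h3, h4, h5]
  · by_cases h1 : e = 0 ∧ j = 2
    · obtain ⟨rfl, rfl⟩ := h1
      refine ⟨2, ?_⟩
      simp [nbr, nxt_last]
    · by_cases h2 : e = 13 ∧ j = 2
      · obtain ⟨rfl, rfl⟩ := h2
        refine ⟨2, ?_⟩
        simp [nbr, prv_zero]
      · obtain ⟨j', h3, h4, h5⟩ := un_symm e j h1 h2
        refine ⟨j', ?_⟩
        simp only [nbr, h1, h2, if_false, h3, h4, h5]

lemma nbr_ne (m : ℕ) (u : Vtx m) (j : Fin 3) : nbr m u j ≠ u := by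
  rcases u with ⟨i, a⟩ | e
  · by_cases h1 : a = 0 ∧ j = 2
    · obtain ⟨rfl, rfl⟩ := h1
      refine Fin.cases ?_ (fun k => ?_) i
      · simp [nbr, prv_zero]
      · simp [nbr, prv_succ]
    · by_cases h2 : a = 29 ∧ j = 2
      · obtain ⟨rfl, rfl⟩ := h2
        refine Fin.lastCases ?_ (fun k => ?_) i
        · simp [nbr, nxt_last]
        · simp [nbr, nxt_castSucc]
      · simp only [nbr, h1, h2, if_false]
        intro h
        exact bn_ne a j h1 h2 (by simpa using h)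
  · by_cases h1 : e = 0 ∧ j = 2
    · obtain ⟨rfl, rfl⟩ := h1
      simp [nbr]
    · by_cases h2 : e = 13 ∧ j = 2
      · obtain ⟨rfl, rfl⟩ := h2
        simp [nbr]
      · simp only [nbr, h1, h2, if_false]
        intro h
        exact un_ne e j h1 h2 (by simpa using h)

/-- The ring graph. -/
def Gr (m : ℕ) : SimpleGraph (Vtx m) where
  Adj u v := ∃ j, nbr m u j = v
  symm := ⟨by
    rintro u v ⟨j, rfl⟩
    exact nbr_symm m u j⟩
  loopless := ⟨by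
    rintro u ⟨j, hj⟩
    exact nbr_ne m u j hj⟩

lemma adj_iff (m : ℕ) (u v : Vtx m) : (Gr m).Adj u v ↔ ∃ j, nbr m u j = v := Iff.rfl

lemma bn_inj : ∀ (a : Fin 30) (j j' : Fin 3), ¬ (a = 0 ∧ j = 2) → ¬ (a = 29 ∧ j = 2) →
    ¬ (a = 0 ∧ j' = 2) → ¬ (a = 29 ∧ j' = 2) → bn a j = bn a j' → j = j' := by
  decide +kernel

lemma un_inj : ∀ (a : Fin 14) (j j' : Fin 3), ¬ (a = 0 ∧ j = 2) → ¬ (a = 13 ∧ j = 2) →
    ¬ (a = 0 ∧ j' = 2) → ¬ (a = 13 ∧ j' = 2) → un a j = un a j' → j = j' := by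
  decide +kernel

lemma prv_ne (m : ℕ) (i : Fin (m + 1)) (b : Fin 30) : prv m i ≠ Sum.inl (i, b) := by
  refine Fin.cases ?_ (fun k => ?_) i
  · simp [prv_zero]
  · simp only [prv_succ, ne_eq, Sum.inl.injEq, Prod.mk.injEq, not_and]
    intro h
    exact absurd h (Fin.castSucc_lt_succ).ne

lemma nxt_ne (m : ℕ) (i : Fin (m + 1)) (b : Fin 30) : nxt m i ≠ Sum.inl (i, b) := by
  refine Fin.lastCases ?_ (fun k => ?_) i
  · simp [nxt_last]
  · simp only [nxt_castSucc, ne_eq, Sum.inl.injEq, Prod.mk.injEq, not_and]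
    intro h
    exact absurd h (Fin.castSucc_lt_succ).ne'

lemma nbr_l (m : ℕ) (i : Fin (m + 1)) (a : Fin 30) (j : Fin 3) :
    (a = 0 ∧ j = 2 ∧ nbr m (Sum.inl (i, a)) j = prv m i) ∨
    (a = 29 ∧ j = 2 ∧ nbr m (Sum.inl (i, a)) j = nxt m i) ∨
    (¬ (a = 0 ∧ j = 2) ∧ ¬ (a = 29 ∧ j = 2) ∧
      nbr m (Sum.inl (i, a)) j = Sum.inl (i, bn a j)) := by
  by_cases h1 : a = 0 ∧ j = 2
  · left
    obtain ⟨rfl, rfl⟩ := h1
    simp [nbr]
  · by_cases h2 : a = 29 ∧ j = 2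
    · right; left
      obtain ⟨rfl, rfl⟩ := h2
      simp [nbr]
    · right; right
      refine ⟨h1, h2, ?_⟩
      simp only [nbr, h1, h2, if_false]

lemma nbr_r (m : ℕ) (e : Fin 14) (j : Fin 3) :
    (e = 0 ∧ j = 2 ∧ nbr m (Sum.inr e) j = Sum.inl (Fin.last m, 29)) ∨
    (e = 13 ∧ j = 2 ∧ nbr m (Sum.inr e) j = Sum.inl (0, 0)) ∨
    (¬ (e = 0 ∧ j = 2) ∧ ¬ (e = 13 ∧ j = 2) ∧
      nbr m (Sum.inr e) j = Sum.inr (un e j)) := by
  by_cases h1 : e = 0 ∧ j = 2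
  · left
    obtain ⟨rfl, rfl⟩ := h1
    simp [nbr]
  · by_cases h2 : e = 13 ∧ j = 2
    · right; left
      obtain ⟨rfl, rfl⟩ := h2
      simp [nbr]
    · right; right
      refine ⟨h1, h2, ?_⟩
      simp only [nbr, h1, h2, if_false]

lemma nbr_inj (m : ℕ) (u : Vtx m) : Function.Injective (nbr m u) := by
  intro j j' h
  rcases u with ⟨i, a⟩ | e
  · rcases nbr_l m i a j with ⟨h1, h2, h3⟩ | ⟨h1, h2, h3⟩ | ⟨h1, h2, h3⟩ <;>
    rcases nbr_l m i a j' with ⟨h1', h2', h3'⟩ | ⟨h1', h2', h3'⟩ | ⟨h1', h2', h3'⟩ <;>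
    rw [h3, h3'] at h
    · exact h2.trans h2'.symm
    · exact h2.trans h2'.symm
    · exact absurd h (prv_ne m i _)
    · exact h2.trans h2'.symm
    · exact h2.trans h2'.symm
    · exact absurd h (nxt_ne m i _)
    · exact absurd h.symm (prv_ne m i _)
    · exact absurd h.symm (nxt_ne m i _)
    · simp only [Sum.inl.injEq, Prod.mk.injEq, true_and] at h
      exact bn_inj a j j' h1 h2 h1' h2' h
  · rcases nbr_r m e j with ⟨h1, h2, h3⟩ | ⟨h1, h2, h3⟩ | ⟨h1, h2, h3⟩ <;>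
    rcases nbr_r m e j' with ⟨h1', h2', h3'⟩ | ⟨h1', h2', h3'⟩ | ⟨h1', h2', h3'⟩ <;>
    rw [h3, h3'] at h
    · exact h2.trans h2'.symm
    · exact h2.trans h2'.symm
    · exact absurd h (by simp)
    · exact h2.trans h2'.symm
    · exact h2.trans h2'.symm
    · exact absurd h (by simp)
    · exact absurd h (by simp)
    · exact absurd h (by simp)
    · simp only [Sum.inr.injEq] at h
      exact un_inj e j j' h1 h2 h1' h2' h

lemma three_le_degree (m : ℕ) [DecidableRel (Gr m).Adj] (v : Vtx m) : 3 ≤ (Gr m).degree v := by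
  have h : (univ.image (nbr m v)) ⊆ (Gr m).neighborFinset v := by
    intro w hw
    simp only [mem_image, mem_univ, true_and] at hw
    rw [SimpleGraph.mem_neighborFinset]
    exact hw
  have h2 := card_le_card h
  rw [card_image_of_injective _ (nbr_inj m v)] at h2
  simpa using h2

lemma bn_parent : ∀ a : Fin 30, a ≠ 0 →
    ∃ j : Fin 3, ¬ (a = 0 ∧ j = 2) ∧ ¬ (a = 29 ∧ j = 2) ∧ bn a j < a := by
  decide +kernel

lemma un_parent : ∀ a : Fin 14, a ≠ 0 →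
    ∃ j : Fin 3, ¬ (a = 0 ∧ j = 2) ∧ ¬ (a = 13 ∧ j = 2) ∧ un a j < a := by
  decide +kernel

lemma reach_block (m : ℕ) (i : Fin (m + 1)) (a : Fin 30) :
    (Gr m).Reachable (Sum.inl (i, a)) (Sum.inl (i, 0)) := by
  induction a using WellFoundedLT.induction with
  | ind a ih =>
    by_cases h0 : a = 0
    · rw [h0]
    · obtain ⟨j, h1, h2, h3⟩ := bn_parent a h0
      have hadj : (Gr m).Adj (Sum.inl (i, a)) (Sum.inl (i, bn a j)) :=
        ⟨j, by simp only [nbr, h1, h2, if_false]⟩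
      exact hadj.reachable.trans (ih _ h3)

lemma reach_unit (m : ℕ) (e : Fin 14) :
    (Gr m).Reachable (Sum.inr e) (Sum.inr 0) := by
  induction e using WellFoundedLT.induction with
  | ind a ih =>
    by_cases h0 : a = 0
    · rw [h0]
    · obtain ⟨j, h1, h2, h3⟩ := un_parent a h0
      have hadj : (Gr m).Adj (Sum.inr a) (Sum.inr (un a j)) :=
        ⟨j, by simp only [nbr, h1, h2, if_false]⟩
      exact hadj.reachable.trans (ih _ h3)

lemma reach_zero (m : ℕ) (i : Fin (m + 1)) :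
    (Gr m).Reachable (Sum.inl (i, 0)) (Sum.inl (0, 0)) := by
  induction i using Fin.induction with
  | zero => exact SimpleGraph.Reachable.refl _
  | succ k ih =>
    have hadj : (Gr m).Adj (Sum.inl (k.succ, 0)) (Sum.inl (k.castSucc, 29)) :=
      ⟨2, by simp [nbr, prv_succ]⟩
    exact hadj.reachable.trans ((reach_block m k.castSucc 29).trans ih)

lemma reach_all (m : ℕ) (v : Vtx m) : (Gr m).Reachable v (Sum.inl (0, 0)) := by
  rcases v with ⟨i, a⟩ | e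
  · exact (reach_block m i a).trans (reach_zero m i)
  · have hadj : (Gr m).Adj (Sum.inr 0) (Sum.inl (Fin.last m, 29)) :=
      ⟨2, by simp [nbr]⟩
    exact (reach_unit m e).trans
      (hadj.reachable.trans ((reach_block m _ 29).trans (reach_zero m _)))

lemma connected (m : ℕ) : (Gr m).Connected where
  preconnected := fun u v => (reach_all m u).trans (reach_all m v).symm
  nonempty := ⟨Sum.inl (0, 0)⟩

/-- The key local fact: a Fano plane with one flag removed. -/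
lemma unit_lemma' : ∀ (t0 t1 t2 t3 t4 t5 t6 e : Fin 2),
    t1.val + t3.val + e.val ≤ 1 → t1.val + t2.val + t4.val ≤ 1 →
    t2.val + t3.val + t5.val ≤ 1 → t3.val + t4.val + t6.val ≤ 1 →
    t4.val + t5.val + t0.val ≤ 1 → t5.val + t6.val + t1.val ≤ 1 →
    t6.val + t0.val + t2.val ≤ 1 →
    t1.val + t2.val + t3.val + t4.val + t5.val + t6.val ≤ 1 ∧
    t0.val + t1.val + t2.val + t3.val + t4.val + t5.val + t6.val + e.val ≤ 2 := by
  decide +kernel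

lemma unit_lemma (t0 t1 t2 t3 t4 t5 t6 e : ℕ)
    (h1 : t1 + t3 + e ≤ 1) (h2 : t1 + t2 + t4 ≤ 1)
    (h3 : t2 + t3 + t5 ≤ 1) (h4 : t3 + t4 + t6 ≤ 1)
    (h5 : t4 + t5 + t0 ≤ 1) (h6 : t5 + t6 + t1 ≤ 1)
    (h7 : t6 + t0 + t2 ≤ 1) :
    t1 + t2 + t3 + t4 + t5 + t6 ≤ 1 ∧
    t0 + t1 + t2 + t3 + t4 + t5 + t6 + e ≤ 2 :=
  unit_lemma' ⟨t0, by omega⟩ ⟨t1, by omega⟩ ⟨t2, by omega⟩ ⟨t3, by omega⟩ ⟨t4, by omega⟩
    ⟨t5, by omega⟩ ⟨t6, by omega⟩ ⟨e, by omega⟩ h1 h2 h3 h4 h5 h6 h7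

def capOK (m : ℕ) (t : Vtx m → ℕ) : Prop :=
  ∀ v, t (nbr m v 0) + t (nbr m v 1) + t (nbr m v 2) ≤ 1

/-- Point part of a block. -/
def ptSum (m : ℕ) (t : Vtx m → ℕ) (i : Fin (m + 1)) : ℕ :=
  (t (Sum.inl (i, 1)) + t (Sum.inl (i, 23)) + t (Sum.inl (i, 10)) + t (Sum.inl (i, 24)) + t (Sum.inl (i, 7)) + t (Sum.inl (i, 8)) + t (Sum.inl (i, 9))) +
  (t (Sum.inl (i, 2)) + t (Sum.inl (i, 25)) + t (Sum.inl (i, 14)) + t (Sum.inl (i, 26)) + t (Sum.inl (i, 11)) + t (Sum.inl (i, 12)) + t (Sum.inl (i, 13)))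

/-- Line part of a block. -/
def lnSum (m : ℕ) (t : Vtx m → ℕ) (i : Fin (m + 1)) : ℕ :=
  (t (Sum.inl (i, 27)) + t (Sum.inl (i, 15)) + t (Sum.inl (i, 17)) + t (Sum.inl (i, 16)) + t (Sum.inl (i, 3)) + t (Sum.inl (i, 18)) + t (Sum.inl (i, 4))) +
  (t (Sum.inl (i, 28)) + t (Sum.inl (i, 19)) + t (Sum.inl (i, 21)) + t (Sum.inl (i, 20)) + t (Sum.inl (i, 5)) + t (Sum.inl (i, 22)) + t (Sum.inl (i, 6)))

lemma block_pt (m : ℕ) (t : Vtx m → ℕ) (h : capOK m t) (i : Fin (m + 1)) :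
    ptSum m t i + t (prv m i) ≤ 3 ∧ ptSum m t i + t (Sum.inl (i, 29)) ≤ 3 := by
  have c27 : t (Sum.inl (i, 23)) + t (Sum.inl (i, 24)) + t (Sum.inl (i, 29)) ≤ 1 :=
    h (Sum.inl (i, 27))
  have c15 : t (Sum.inl (i, 23)) + t (Sum.inl (i, 10)) + t (Sum.inl (i, 7)) ≤ 1 :=
    h (Sum.inl (i, 15))
  have c17 : t (Sum.inl (i, 10)) + t (Sum.inl (i, 24)) + t (Sum.inl (i, 8)) ≤ 1 :=
    h (Sum.inl (i, 17))
  have c16 : t (Sum.inl (i, 24)) + t (Sum.inl (i, 7)) + t (Sum.inl (i, 9)) ≤ 1 :=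
    h (Sum.inl (i, 16))
  have c3 : t (Sum.inl (i, 7)) + t (Sum.inl (i, 8)) + t (Sum.inl (i, 1)) ≤ 1 :=
    h (Sum.inl (i, 3))
  have c18 : t (Sum.inl (i, 8)) + t (Sum.inl (i, 9)) + t (Sum.inl (i, 23)) ≤ 1 :=
    h (Sum.inl (i, 18))
  have c4 : t (Sum.inl (i, 9)) + t (Sum.inl (i, 1)) + t (Sum.inl (i, 10)) ≤ 1 :=
    h (Sum.inl (i, 4))
  have c28 : t (Sum.inl (i, 25)) + t (Sum.inl (i, 26)) + t (Sum.inl (i, 29)) ≤ 1 :=
    h (Sum.inl (i, 28))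
  have c19 : t (Sum.inl (i, 25)) + t (Sum.inl (i, 14)) + t (Sum.inl (i, 11)) ≤ 1 :=
    h (Sum.inl (i, 19))
  have c21 : t (Sum.inl (i, 14)) + t (Sum.inl (i, 26)) + t (Sum.inl (i, 12)) ≤ 1 :=
    h (Sum.inl (i, 21))
  have c20 : t (Sum.inl (i, 26)) + t (Sum.inl (i, 11)) + t (Sum.inl (i, 13)) ≤ 1 :=
    h (Sum.inl (i, 20))
  have c5 : t (Sum.inl (i, 11)) + t (Sum.inl (i, 12)) + t (Sum.inl (i, 2)) ≤ 1 :=
    h (Sum.inl (i, 5))
  have c22 : t (Sum.inl (i, 12)) + t (Sum.inl (i, 13)) + t (Sum.inl (i, 25)) ≤ 1 :=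
    h (Sum.inl (i, 22))
  have c6 : t (Sum.inl (i, 13)) + t (Sum.inl (i, 2)) + t (Sum.inl (i, 14)) ≤ 1 :=
    h (Sum.inl (i, 6))
  have c0 : t (Sum.inl (i, 1)) + t (Sum.inl (i, 2)) + t (prv m i) ≤ 1 := h (Sum.inl (i, 0))
  have u0 := unit_lemma (t (Sum.inl (i, 1))) (t (Sum.inl (i, 23))) (t (Sum.inl (i, 10))) (t (Sum.inl (i, 24))) (t (Sum.inl (i, 7))) (t (Sum.inl (i, 8))) (t (Sum.inl (i, 9))) (t (Sum.inl (i, 29)))
    (by omega) (by omega) (by omega) (by omega) (by omega) (by omega) (by omega)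
  have u1 := unit_lemma (t (Sum.inl (i, 2))) (t (Sum.inl (i, 25))) (t (Sum.inl (i, 14))) (t (Sum.inl (i, 26))) (t (Sum.inl (i, 11))) (t (Sum.inl (i, 12))) (t (Sum.inl (i, 13))) (t (Sum.inl (i, 29)))
    (by omega) (by omega) (by omega) (by omega) (by omega) (by omega) (by omega)
  simp only [ptSum]
  omega

lemma block_ln (m : ℕ) (t : Vtx m → ℕ) (h : capOK m t) (i : Fin (m + 1)) :
    lnSum m t i + t (nxt m i) ≤ 3 ∧ lnSum m t i + t (Sum.inl (i, 0)) ≤ 3 := by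
  have c1 : t (Sum.inl (i, 3)) + t (Sum.inl (i, 4)) + t (Sum.inl (i, 0)) ≤ 1 :=
    h (Sum.inl (i, 1))
  have c23 : t (Sum.inl (i, 27)) + t (Sum.inl (i, 15)) + t (Sum.inl (i, 18)) ≤ 1 :=
    h (Sum.inl (i, 23))
  have c10 : t (Sum.inl (i, 15)) + t (Sum.inl (i, 17)) + t (Sum.inl (i, 4)) ≤ 1 :=
    h (Sum.inl (i, 10))
  have c24 : t (Sum.inl (i, 27)) + t (Sum.inl (i, 17)) + t (Sum.inl (i, 16)) ≤ 1 :=
    h (Sum.inl (i, 24))
  have c7 : t (Sum.inl (i, 15)) + t (Sum.inl (i, 16)) + t (Sum.inl (i, 3)) ≤ 1 :=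
    h (Sum.inl (i, 7))
  have c8 : t (Sum.inl (i, 17)) + t (Sum.inl (i, 3)) + t (Sum.inl (i, 18)) ≤ 1 :=
    h (Sum.inl (i, 8))
  have c9 : t (Sum.inl (i, 16)) + t (Sum.inl (i, 18)) + t (Sum.inl (i, 4)) ≤ 1 :=
    h (Sum.inl (i, 9))
  have c2 : t (Sum.inl (i, 5)) + t (Sum.inl (i, 6)) + t (Sum.inl (i, 0)) ≤ 1 :=
    h (Sum.inl (i, 2))
  have c25 : t (Sum.inl (i, 28)) + t (Sum.inl (i, 19)) + t (Sum.inl (i, 22)) ≤ 1 :=
    h (Sum.inl (i, 25))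
  have c14 : t (Sum.inl (i, 19)) + t (Sum.inl (i, 21)) + t (Sum.inl (i, 6)) ≤ 1 :=
    h (Sum.inl (i, 14))
  have c26 : t (Sum.inl (i, 28)) + t (Sum.inl (i, 21)) + t (Sum.inl (i, 20)) ≤ 1 :=
    h (Sum.inl (i, 26))
  have c11 : t (Sum.inl (i, 19)) + t (Sum.inl (i, 20)) + t (Sum.inl (i, 5)) ≤ 1 :=
    h (Sum.inl (i, 11))
  have c12 : t (Sum.inl (i, 21)) + t (Sum.inl (i, 5)) + t (Sum.inl (i, 22)) ≤ 1 :=
    h (Sum.inl (i, 12))
  have c13 : t (Sum.inl (i, 20)) + t (Sum.inl (i, 22)) + t (Sum.inl (i, 6)) ≤ 1 :=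
    h (Sum.inl (i, 13))
  have c29 : t (Sum.inl (i, 27)) + t (Sum.inl (i, 28)) + t (nxt m i) ≤ 1 := h (Sum.inl (i, 29))
  have u0 := unit_lemma (t (Sum.inl (i, 27))) (t (Sum.inl (i, 4))) (t (Sum.inl (i, 18))) (t (Sum.inl (i, 3))) (t (Sum.inl (i, 16))) (t (Sum.inl (i, 17))) (t (Sum.inl (i, 15))) (t (Sum.inl (i, 0)))
    (by omega) (by omega) (by omega) (by omega) (by omega) (by omega) (by omega)
  have u1 := unit_lemma (t (Sum.inl (i, 28))) (t (Sum.inl (i, 6))) (t (Sum.inl (i, 22))) (t (Sum.inl (i, 5))) (t (Sum.inl (i, 20))) (t (Sum.inl (i, 21))) (t (Sum.inl (i, 19))) (t (Sum.inl (i, 0)))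
    (by omega) (by omega) (by omega) (by omega) (by omega) (by omega) (by omega)
  simp only [lnSum]
  omega

def ptE (m : ℕ) (t : Vtx m → ℕ) : ℕ :=
  t (Sum.inr 0) + t (Sum.inr 11) + t (Sum.inr 6) + t (Sum.inr 12) + t (Sum.inr 3) + t (Sum.inr 4) + t (Sum.inr 5)

def lnE (m : ℕ) (t : Vtx m → ℕ) : ℕ :=
  t (Sum.inr 13) + t (Sum.inr 7) + t (Sum.inr 9) + t (Sum.inr 8) + t (Sum.inr 1) + t (Sum.inr 10) + t (Sum.inr 2)

lemma unitE_pt (m : ℕ) (t : Vtx m → ℕ) (h : capOK m t) :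
    ptE m t ≤ 1 + t (Sum.inr 0) ∧ ptE m t + t (Sum.inl (0, 0)) ≤ 2 := by
  have c13 : t (Sum.inr 11) + t (Sum.inr 12) + t (Sum.inl (0, 0)) ≤ 1 := h (Sum.inr 13)
  have c7 : t (Sum.inr 11) + t (Sum.inr 6) + t (Sum.inr 3) ≤ 1 := h (Sum.inr 7)
  have c9 : t (Sum.inr 6) + t (Sum.inr 12) + t (Sum.inr 4) ≤ 1 := h (Sum.inr 9)
  have c8 : t (Sum.inr 12) + t (Sum.inr 3) + t (Sum.inr 5) ≤ 1 := h (Sum.inr 8)
  have c1 : t (Sum.inr 3) + t (Sum.inr 4) + t (Sum.inr 0) ≤ 1 := h (Sum.inr 1)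
  have c10 : t (Sum.inr 4) + t (Sum.inr 5) + t (Sum.inr 11) ≤ 1 := h (Sum.inr 10)
  have c2 : t (Sum.inr 5) + t (Sum.inr 0) + t (Sum.inr 6) ≤ 1 := h (Sum.inr 2)
  have u0 := unit_lemma (t (Sum.inr 0)) (t (Sum.inr 11)) (t (Sum.inr 6)) (t (Sum.inr 12)) (t (Sum.inr 3)) (t (Sum.inr 4)) (t (Sum.inr 5)) (t (Sum.inl (0, 0)))
    (by omega) (by omega) (by omega) (by omega) (by omega) (by omega) (by omega)
  simp only [ptE]
  omega

lemma unitE_ln (m : ℕ) (t : Vtx m → ℕ) (h : capOK m t) :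
    lnE m t ≤ 1 + t (Sum.inr 13) ∧ lnE m t + t (Sum.inl (Fin.last m, 29)) ≤ 2 := by
  have c0 : t (Sum.inr 1) + t (Sum.inr 2) + t (Sum.inl (Fin.last m, 29)) ≤ 1 := h (Sum.inr 0)
  have c11 : t (Sum.inr 13) + t (Sum.inr 7) + t (Sum.inr 10) ≤ 1 := h (Sum.inr 11)
  have c6 : t (Sum.inr 7) + t (Sum.inr 9) + t (Sum.inr 2) ≤ 1 := h (Sum.inr 6)
  have c12 : t (Sum.inr 13) + t (Sum.inr 9) + t (Sum.inr 8) ≤ 1 := h (Sum.inr 12)
  have c3 : t (Sum.inr 7) + t (Sum.inr 8) + t (Sum.inr 1) ≤ 1 := h (Sum.inr 3)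
  have c4 : t (Sum.inr 9) + t (Sum.inr 1) + t (Sum.inr 10) ≤ 1 := h (Sum.inr 4)
  have c5 : t (Sum.inr 8) + t (Sum.inr 10) + t (Sum.inr 2) ≤ 1 := h (Sum.inr 5)
  have u0 := unit_lemma (t (Sum.inr 13)) (t (Sum.inr 2)) (t (Sum.inr 10)) (t (Sum.inr 1)) (t (Sum.inr 8)) (t (Sum.inr 9)) (t (Sum.inr 7)) (t (Sum.inl (Fin.last m, 29)))
    (by omega) (by omega) (by omega) (by omega) (by omega) (by omega) (by omega)
  simp only [lnE]
  omega

lemma sum_prv (m : ℕ) (t : Vtx m → ℕ) :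
    ∑ i, t (prv m i) + t (Sum.inl (Fin.last m, 29)) =
      ∑ i, t (Sum.inl (i, 29)) + t (Sum.inr 13) := by
  rw [Fin.sum_univ_succ, Fin.sum_univ_castSucc (fun i => t (Sum.inl (i, 29)))]
  simp only [prv_zero, prv_succ]
  ring

lemma sum_nxt (m : ℕ) (t : Vtx m → ℕ) :
    ∑ i, t (nxt m i) + t (Sum.inl (0, 0)) =
      ∑ i, t (Sum.inl (i, 0)) + t (Sum.inr 0) := by
  rw [Fin.sum_univ_castSucc, Fin.sum_univ_succ (fun i => t (Sum.inl (i, 0)))]
  simp only [nxt_last, nxt_castSucc]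
  ring

lemma sum30 (f : Fin 30 → ℕ) : ∑ a, f a = f 0 + (f 1 + (f 2 + (f 3 + (f 4 + (f 5 + (f 6 + (f 7 + (f 8 + (f 9 + (f 10 + (f 11 + (f 12 + (f 13 + (f 14 + (f 15 + (f 16 + (f 17 + (f 18 + (f 19 + (f 20 + (f 21 + (f 22 + (f 23 + (f 24 + (f 25 + (f 26 + (f 27 + (f 28 + (f 29 + 0))))))))))))))))))))))))))))) := by
  rw [← List.sum_ofFn]
  rfl

lemma sum14 (f : Fin 14 → ℕ) : ∑ a, f a = f 0 + (f 1 + (f 2 + (f 3 + (f 4 + (f 5 + (f 6 + (f 7 + (f 8 + (f 9 + (f 10 + (f 11 + (f 12 + (f 13 + 0))))))))))))) := by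
  rw [← List.sum_ofFn]
  rfl

lemma sum_block (m : ℕ) (t : Vtx m → ℕ) (i : Fin (m + 1)) :
    ∑ a, t (Sum.inl (i, a)) =
      (ptSum m t i + t (Sum.inl (i, 29))) + (lnSum m t i + t (Sum.inl (i, 0))) := by
  rw [sum30]
  simp only [ptSum, lnSum]
  ring

lemma sum_unit (m : ℕ) (t : Vtx m → ℕ) :
    ∑ e, t (Sum.inr e) = ptE m t + lnE m t := by
  rw [sum14]
  simp only [ptE, lnE]
  ring

lemma total_le (m : ℕ) (t : Vtx m → ℕ) (h : capOK m t) : ∑ v, t v ≤ 6 * (m + 1) + 2 := by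
  rw [Fintype.sum_sum_type, Fintype.sum_prod_type]
  simp only [sum_block, sum_unit]
  have h1 : ∑ i, (ptSum m t i + t (prv m i)) ≤ ∑ _i : Fin (m + 1), 3 :=
    Finset.sum_le_sum fun i _ => (block_pt m t h i).1
  have h2 : ∑ i, (ptSum m t i + t (Sum.inl (i, 29))) ≤ ∑ _i : Fin (m + 1), 3 :=
    Finset.sum_le_sum fun i _ => (block_pt m t h i).2
  have h3 : ∑ i, (lnSum m t i + t (nxt m i)) ≤ ∑ _i : Fin (m + 1), 3 :=
    Finset.sum_le_sum fun i _ => (block_ln m t h i).1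
  have h4 : ∑ i, (lnSum m t i + t (Sum.inl (i, 0))) ≤ ∑ _i : Fin (m + 1), 3 :=
    Finset.sum_le_sum fun i _ => (block_ln m t h i).2
  have h5 := unitE_pt m t h
  have h6 := unitE_ln m t h
  have h7 := sum_prv m t
  have h8 := sum_nxt m t
  simp only [Finset.sum_add_distrib, Finset.sum_const, Finset.card_univ, Fintype.card_fin,
    smul_eq_mul] at h1 h2 h3 h4 h7 h8 ⊢
  omega

lemma cap_of (m : ℕ) [DecidableRel (Gr m).Adj] (S : Finset (Vtx m))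
    (hS : ∀ v, 2 ≤ (S.filter (fun u => (Gr m).Adj v u)).card) :
    capOK m (fun v => if v ∈ S then 0 else 1) := by
  intro v
  have hv := hS v
  have key : ∀ w : Vtx m, ¬ (S.filter (fun u => (Gr m).Adj v u) ⊆ {w}) := by
    intro w hw
    have := Finset.card_le_card hw
    rw [Finset.card_singleton] at this
    omega
  by_cases a0 : nbr m v 0 ∈ S <;> by_cases a1 : nbr m v 1 ∈ S <;> by_cases a2 : nbr m v 2 ∈ S <;>
    simp only [a0, a1, a2, if_true, if_false] <;> try omega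
  all_goals exfalso
  · apply key (nbr m v 0)
    intro u hu
    simp only [Finset.mem_filter, adj_iff] at hu
    obtain ⟨hu, j, rfl⟩ := hu
    fin_cases j <;> simp_all
  · apply key (nbr m v 1)
    intro u hu
    simp only [Finset.mem_filter, adj_iff] at hu
    obtain ⟨hu, j, rfl⟩ := hu
    fin_cases j <;> simp_all
  · apply key (nbr m v 2)
    intro u hu
    simp only [Finset.mem_filter, adj_iff] at hu
    obtain ⟨hu, j, rfl⟩ := hu
    fin_cases j <;> simp_all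
  · apply key (nbr m v 2)
    intro u hu
    simp only [Finset.mem_filter, adj_iff] at hu
    obtain ⟨hu, j, rfl⟩ := hu
    fin_cases j <;> simp_all

theorem result :
    ¬ (∃ N : ℕ, ∀ (V : Type) [Fintype V] [DecidableEq V] (G : SimpleGraph V) [DecidableRel G.Adj],
      N ≤ Fintype.card V → G.Connected → (∀ v : V, 3 ≤ G.degree v) →
        ∃ S : Finset V, (∀ v : V, 2 ≤ (S.filter (fun u => G.Adj v u)).card) ∧
          5 * S.card ≤ 4 * Fintype.card V) := by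
  rintro ⟨N, hN⟩
  classical
  have hcard : Fintype.card (Vtx N) = 30 * (N + 1) + 14 := by
    simp [Fintype.card_sum, Fintype.card_prod]
    ring
  obtain ⟨S, hS, hle⟩ := hN (Vtx N) (Gr N) (by omega) (connected N) (three_le_degree N)
  have h1 := total_le N _ (cap_of N S hS)
  have h2 : ∑ v : Vtx N, (if v ∈ S then 0 else 1) + S.card = Fintype.card (Vtx N) := by
    have h3 : ∑ v : Vtx N, (if v ∈ S then 0 else 1) = (Sᶜ).card := by
      rw [Finset.card_eq_sum_ones, ← Finset.sum_filter_add_sum_filter_not univ (fun v => v ∈ S)]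
      rw [Finset.sum_eq_zero (s := univ.filter (fun v => v ∈ S))
        (by intro x hx; simp only [Finset.mem_filter] at hx; simp [hx.2]), zero_add]
      apply Finset.sum_congr
      · ext x; simp
      · intro x hx
        simp only [Finset.mem_compl] at hx
        simp [hx]
    rw [h3, Finset.card_compl]
    have := Finset.card_le_univ S
    omega
  omega

end Pool.Agent.S06814
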