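import Pool.Statements.S06818
-- import your own Pool.Agent.* helpers here

set_option autoImplicit false
open Pool Pool.MP_abfa3d_co

namespace Pool.Agent.S06818

/-- The four-cycle: two vertices of `Fin 4` are adjacent when their parities differ. -/
def C4 : SimpleGraph (Fin 4) where
  Adj a b := (a.val + b.val) % 2 = 1
  symm := ⟨fun _ _ h => by rw [Nat.add_comm]; exact h⟩
  loopless := ⟨fun a h => by omega⟩

/-- A triangle together with an isolated vertex. -/
def T3 : SimpleGraph (Fin 4) where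
  Adj a b := a ≠ b ∧ a.val < 3 ∧ b.val < 3
  symm := ⟨fun _ _ h => ⟨h.1.symm, h.2.2, h.2.1⟩⟩
  loopless := ⟨fun _ h => h.1 rfl⟩

instance : DecidableRel C4.Adj := fun a b => inferInstanceAs (Decidable ((a.val + b.val) % 2 = 1))

instance : DecidableRel T3.Adj :=
  fun a b => inferInstanceAs (Decidable (a ≠ b ∧ a.val < 3 ∧ b.val < 3))

theorem deg1 : C4.maxDegree = 2 := by decide +kernel
theorem deg2 : T3.maxDegree = 2 := by decide +kernel

theorem key : ∀ σ : Equiv.Perm (Fin 4), ∃ v : Fin 4,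
    2 ≤ (Finset.univ.filter (fun w : Fin 4 => C4.Adj v w ∧ T3.Adj (σ v) (σ w))).card := by
  decide +kernel

/-- The negation of the preceding statement: For n-vertex graphs G1, G2 and real p>0, if n is at least ⌊Δ1/p⌋(Δ2+1)+⌊Δ2/p⌋(Δ1+1−p⌊Δ1/p⌋), then some relabelling of G2 overlaps G1 so that every vertex has fewer than p common edges. -/
theorem result :
    ¬ (∀ (n : ℕ) (p : ℝ), 0 < p →
      ∀ (G₁ G₂ : SimpleGraph (Fin n)) [DecidableRel G₁.Adj] [DecidableRel G₂.Adj],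
        (n : ℝ) ≥
          (⌊(G₁.maxDegree : ℝ) / p⌋ : ℝ) * ((G₂.maxDegree : ℝ) + 1) +
          (⌊(G₂.maxDegree : ℝ) / p⌋ : ℝ) *
            ((G₁.maxDegree : ℝ) + 1 - p * (⌊(G₁.maxDegree : ℝ) / p⌋ : ℝ)) →
        ∃ σ : Equiv.Perm (Fin n), ∀ v : Fin n,
          (((Finset.univ.filter
              (fun w : Fin n => G₁.Adj v w ∧ G₂.Adj (σ v) (σ w))).card : ℕ) : ℝ) < p) := by
  intro h
  have hfl : (⌊((2 : ℕ) : ℝ) / 2⌋ : ℝ) = 1 := by norm_num
  obtain ⟨σ, hσ⟩ := h 4 2 (by norm_num) C4 T3 (by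
    rw [deg1, deg2, hfl]; norm_num)
  obtain ⟨v, hv⟩ := key σ
  have h1 := hσ v
  have h2 : (2 : ℝ) ≤ (((Finset.univ.filter
      (fun w : Fin 4 => C4.Adj v w ∧ T3.Adj (σ v) (σ w))).card : ℕ) : ℝ) := by
    exact_mod_cast hv
  linarith

end Pool.Agent.S06818
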