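import Pool.Statements.S06827
-- import your own Pool.Agent.* helpers here

set_option autoImplicit false
open scoped Pointwise
open Pool Pool.MP_ac90b8_co

namespace Pool.Agent.S06827

/-- the base sequence, perturbed quadratic -/
def xs (K M i : ℤ) : ℤ := K * (2 * M * i + i ^ 2) + i ^ 3

/-- the value attached to a state (d, i) -/
def val (K M : ℤ) (p : ℕ × ℕ) : ℤ := xs K M (p.2 : ℤ) - xs K M ((p.2 : ℤ) - (p.1 : ℤ))

/-- last index of run d -/
def ee (D d : ℕ) : ℕ := 18 * D + d - (16 * D ^ 2 + 18 * D) % (d + 1)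

/-- quotient -/
def qq (D d : ℕ) : ℕ := (16 * D ^ 2 + 18 * D) / (d + 1)

/-- transition -/
def nxt (D : ℕ) (p : ℕ × ℕ) : ℕ × ℕ :=
  if p.2 < ee D p.1 then (p.1, p.2 + 1) else (p.1 + 1, ee D p.1 + 1 - qq D p.1)

lemma facts (D d : ℕ) (hD : 2 ≤ D) (h1 : D ≤ d) (h2 : d ≤ 2 * D) :
    ∃ r : ℕ, r ≤ d ∧ (d + 1) * qq D d + r = 16 * D ^ 2 + 18 * D ∧ ee D d + r = 18 * D + d ∧
      qq D d ≤ 16 * D + 1 ∧ 8 * D + 1 ≤ qq D d := by
  refine ⟨(16 * D ^ 2 + 18 * D) % (d + 1), ?_, ?_, ?_, ?_, ?_⟩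
  · have : (16 * D ^ 2 + 18 * D) % (d + 1) < d + 1 := Nat.mod_lt _ (Nat.succ_pos d)
    omega
  · unfold qq
    exact Nat.div_add_mod _ _
  · unfold ee
    have : (16 * D ^ 2 + 18 * D) % (d + 1) < d + 1 := Nat.mod_lt _ (Nat.succ_pos d)
    omega
  · unfold qq
    have : (16 * D ^ 2 + 18 * D) / (d + 1) < 16 * D + 2 := by
      rw [Nat.div_lt_iff_lt_mul (Nat.succ_pos d)]
      nlinarith
    omega
  · unfold qq
    rw [Nat.le_div_iff_mul_le (Nat.succ_pos d)]
    nlinarith

/-- invariant of the walk -/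
def Inv (D n : ℕ) (p : ℕ × ℕ) : Prop :=
  D ≤ p.1 ∧ 2 * D ≤ p.2 ∧ (p.1 ≤ 2 * D → p.2 ≤ ee D p.1) ∧
    6 * (D : ℤ) * ((p.1 : ℤ) - D) + ((p.2 : ℤ) - 12 * D) ≤ n

lemma inv_bound (D n : ℕ) (p : ℕ × ℕ) (hD : 2 ≤ D) (hn : n < D ^ 2) (h : Inv D n p) :
    p.1 ≤ 2 * D := by
  obtain ⟨h1, h2, h3, h4⟩ := h
  by_contra hcon
  push Not at hcon
  have a1 : (2 * (D : ℤ) + 1) ≤ p.1 := by exact_mod_cast hcon
  have a2 : (2 * (D : ℤ)) ≤ p.2 := by exact_mod_cast h2
  have a3 : (n : ℤ) + 1 ≤ (D : ℤ) ^ 2 := by exact_mod_cast hn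
  have a4 : (2 : ℤ) ≤ D := by exact_mod_cast hD
  nlinarith [mul_le_mul_of_nonneg_left a1 (by linarith : (0 : ℤ) ≤ D)]

lemma inv_step (D n : ℕ) (p : ℕ × ℕ) (hD : 2 ≤ D) (hn : n < D ^ 2) (h : Inv D n p) :
    Inv D (n + 1) (nxt D p) := by
  have hb := inv_bound D n p hD hn h
  obtain ⟨h1, h2, h3, h4⟩ := h
  obtain ⟨r, r1, r2, r3, r4, r5⟩ := facts D p.1 hD h1 hb
  unfold nxt
  split_ifs with hlt
  · refine ⟨h1, by simp only; omega, fun _ => by simp only; omega, ?_⟩
    simp only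
    push_cast
    linarith
  · have he : p.2 = ee D p.1 := le_antisymm (h3 hb) (not_lt.mp hlt)
    have hs : ee D p.1 + 1 - qq D p.1 ≤ 12 * D := by omega
    refine ⟨by simp only; omega, by simp only; omega, ?_, ?_⟩
    · intro h5
      simp only at h5 ⊢
      obtain ⟨r', r1', r2', r3', r4', r5'⟩ := facts D (p.1 + 1) hD (by omega) h5
      omega
    · simp only
      have hs' : ((ee D p.1 + 1 - qq D p.1 : ℕ) : ℤ) ≤ 12 * D := by exact_mod_cast hs
      have he' : (18 * (D : ℤ)) ≤ p.2 := by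
        rw [he]
        have : 18 * D ≤ ee D p.1 := by omega
        exact_mod_cast this
      push_cast
      nlinarith

/-- states of the walk -/
def st (D : ℕ) : ℕ → ℕ × ℕ
  | 0 => (D, 12 * D)
  | n + 1 => nxt D (st D n)

lemma inv_st (D : ℕ) (hD : 2 ≤ D) : ∀ n, n ≤ D ^ 2 → Inv D n (st D n) := by
  intro n
  induction n with
  | zero =>
    intro _
    obtain ⟨r, r1, r2, r3, r4, r5⟩ := facts D D hD le_rfl (by omega)
    refine ⟨le_rfl, by simp only [st]; omega, fun _ => by simp only [st]; omega, ?_⟩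
    simp only [st]
    push_cast
    nlinarith
  | succ n ih =>
    intro hn
    exact inv_step D n (st D n) hD (by omega) (ih (by omega))

/-- exact gap within a run -/
lemma gap_one (K M : ℤ) (d i : ℕ) :
    val K M (d, i + 1) - val K M (d, i) = 2 * K * d + 3 * d * (2 * i + 1 - d) := by
  simp only [val, xs]
  push_cast
  ring

/-- exact gap at a joint -/
lemma gap_two (K : ℤ) (D d : ℕ) (hD : 2 ≤ D) (h1 : D ≤ d) (h2 : d ≤ 2 * D) :
    ∃ C : ℤ, |C| ≤ 20000 * (D : ℤ) ^ 3 ∧
    val K (16 * (D : ℤ) ^ 2) (d + 1, ee D d + 1 - qq D d) - val K (16 * (D : ℤ) ^ 2) (d, ee D d)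
      = K * (2 * d + 1) + C := by
  obtain ⟨r, r1, r2, r3, r4, r5⟩ := facts D d hD h1 h2
  have hsub : ((ee D d + 1 - qq D d : ℕ) : ℤ) = (ee D d : ℤ) + 1 - qq D d := by
    have : qq D d ≤ ee D d + 1 := by omega
    push_cast [Nat.cast_sub this]
    ring
  have c2 : ((d : ℤ) + 1) * qq D d + r = 16 * (D : ℤ) ^ 2 + 18 * D := by exact_mod_cast r2
  have c3 : (ee D d : ℤ) + r = 18 * D + d := by exact_mod_cast r3
  have c1 : (r : ℤ) ≤ d := by exact_mod_cast r1
  have c0 : (0 : ℤ) ≤ r := by positivity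
  have c4 : (qq D d : ℤ) ≤ 16 * D + 1 := by exact_mod_cast r4
  have c5 : 8 * (D : ℤ) + 1 ≤ qq D d := by exact_mod_cast r5
  have cD : (2 : ℤ) ≤ D := by exact_mod_cast hD
  have cd1 : (D : ℤ) ≤ d := by exact_mod_cast h1
  have cd2 : (d : ℤ) ≤ 2 * D := by exact_mod_cast h2
  set e : ℤ := (ee D d : ℤ) with he
  set q : ℤ := (qq D d : ℤ) with hq
  set s : ℤ := e + 1 - q with hs
  refine ⟨(s ^ 3 - (s - (d + 1)) ^ 3) - (e ^ 3 - (e - d) ^ 3), ?_, ?_⟩
  · have s0 : 2 * (D : ℤ) ≤ s := by linarith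
    have s1 : s ≤ 12 * (D : ℤ) := by linarith
    have e0 : 18 * (D : ℤ) ≤ e := by linarith
    have e1 : e ≤ 20 * (D : ℤ) := by linarith
    have A0 : 0 ≤ s := by linarith
    have C0 : 0 ≤ e := by linarith
    have A1 : 0 ≤ s ^ 3 := by positivity
    have A2 : s ^ 3 ≤ (12 * (D : ℤ)) ^ 3 := pow_le_pow_left₀ (by linarith) s1 3
    have B1 : -(D : ℤ) ^ 3 ≤ (s - (d + 1)) ^ 3 := by
      have : -(D : ℤ) ≤ s - (d + 1) := by linarith
      have := Odd.pow_le_pow (n := 3) (by decide) |>.mpr this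
      have h3 : (-(D : ℤ)) ^ 3 = -(D : ℤ) ^ 3 := by ring
      linarith
    have B2 : (s - (d + 1)) ^ 3 ≤ (12 * (D : ℤ)) ^ 3 := by
      have : s - (d + 1) ≤ 12 * (D : ℤ) := by linarith
      exact Odd.pow_le_pow (n := 3) (by decide) |>.mpr this
    have C1 : 0 ≤ e ^ 3 := by positivity
    have C2 : e ^ 3 ≤ (20 * (D : ℤ)) ^ 3 := pow_le_pow_left₀ (by linarith) e1 3
    have E1 : 0 ≤ (e - d) ^ 3 := by
      have : 0 ≤ e - d := by linarith
      positivity
    have E2 : (e - d) ^ 3 ≤ (20 * (D : ℤ)) ^ 3 := pow_le_pow_left₀ (by linarith) (by linarith) 3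
    have D3 : 0 ≤ (D : ℤ) ^ 3 := by positivity
    rw [abs_le]
    constructor
    · nlinarith
    · nlinarith
  · simp only [val, xs]
    rw [hsub]
    have hkey : 2 * (16 * (D : ℤ) ^ 2) + 2 * s * (d + 1) - 2 * e * d - (2 * d + 1) = 2 * d + 1 := by
      have : s = e + 1 - q := rfl
      rw [this]
      nlinarith
    push_cast
    rw [← he]
    have : K * (2 * (d : ℤ) + 1) = K * (2 * (16 * (D : ℤ) ^ 2) + 2 * s * (d + 1) - 2 * e * d - (2 * d + 1)) := by
      rw [hkey]
    rw [this]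
    ring

lemma gap_lt (D n : ℕ) (hD : 2 ≤ D) (hn : n + 1 < D ^ 2) :
    0 < val (100000 * (D : ℤ) ^ 3) (16 * (D : ℤ) ^ 2) (st D (n + 1)) -
        val (100000 * (D : ℤ) ^ 3) (16 * (D : ℤ) ^ 2) (st D n) ∧
    val (100000 * (D : ℤ) ^ 3) (16 * (D : ℤ) ^ 2) (st D (n + 1)) -
        val (100000 * (D : ℤ) ^ 3) (16 * (D : ℤ) ^ 2) (st D n) <
    val (100000 * (D : ℤ) ^ 3) (16 * (D : ℤ) ^ 2) (st D (n + 2)) -
        val (100000 * (D : ℤ) ^ 3) (16 * (D : ℤ) ^ 2) (st D (n + 1)) := by
  have i0 := inv_st D hD n (by omega)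
  have i1 := inv_st D hD (n + 1) (by omega)
  have b0 := inv_bound D n _ hD (by omega) i0
  have b1 := inv_bound D (n + 1) _ hD (by omega) i1
  set K : ℤ := 100000 * (D : ℤ) ^ 3 with hK
  set M : ℤ := 16 * (D : ℤ) ^ 2 with hM
  have e1 : st D (n + 1) = nxt D (st D n) := rfl
  have e2 : st D (n + 2) = nxt D (nxt D (st D n)) := rfl
  rw [e1] at b1 i1
  rw [e1, e2]
  generalize st D n = p at *
  obtain ⟨d, i⟩ := p
  have cD : (2 : ℤ) ≤ D := by exact_mod_cast hD
  have D1 : (D : ℤ) ≤ (D : ℤ) ^ 3 := by nlinarith [sq_nonneg ((D : ℤ) - 1)]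
  have D2 : (D : ℤ) ^ 2 ≤ (D : ℤ) ^ 3 := by nlinarith
  obtain ⟨h1, h2, h3, h4⟩ := i0
  simp only at h1 h2 h3 h4 b0
  have cd1 : (D : ℤ) ≤ d := by exact_mod_cast h1
  have cd2 : (d : ℤ) ≤ 2 * D := by exact_mod_cast b0
  have ci1 : 2 * (D : ℤ) ≤ i := by exact_mod_cast h2
  by_cases c1 : i < ee D d
  · have n1 : nxt D (d, i) = (d, i + 1) := by simp [nxt, c1]
    rw [n1] at i1 b1 ⊢
    obtain ⟨r, r1, r2, r3, r4, r5⟩ := facts D d hD h1 b0
    have ce : (ee D d : ℤ) ≤ 20 * D := by
      have : ee D d ≤ 20 * D := by omega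
      exact_mod_cast this
    have ci : (i : ℤ) + 1 ≤ ee D d := by exact_mod_cast c1
    by_cases c2 : i + 1 < ee D d
    · have n2 : nxt D (d, i + 1) = (d, i + 1 + 1) := by simp [nxt, c2]
      rw [n2, gap_one, gap_one]
      push_cast
      constructor
      · have : 0 ≤ K * d := by positivity
        nlinarith
      · nlinarith
    · have n2 : nxt D (d, i + 1) = (d + 1, ee D d + 1 - qq D d) := by simp [nxt, c2]
      have hi : i + 1 = ee D d := by omega
      obtain ⟨C, hC, hg⟩ := gap_two K D d hD h1 b0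
      rw [n2, gap_one, hi, hg]
      rw [abs_le] at hC
      have hD3 : 0 < (D : ℤ) ^ 3 := by positivity
      have hKd : 0 ≤ K * d := by positivity
      have hlow : 0 ≤ 3 * (d : ℤ) * (2 * i + 1 - d) := by
        apply mul_nonneg
        · positivity
        · linarith
      have hub : 3 * (d : ℤ) * (2 * i + 1 - d) ≤ 3 * (2 * D) * (2 * (20 * D)) := by
        apply mul_le_mul
        · linarith
        · linarith
        · linarith
        · positivity
      have hub2 : 3 * (2 * (D : ℤ)) * (2 * (20 * D)) ≤ 240 * (D : ℤ) ^ 3 := by linarith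
      have hKK : K * (2 * (d : ℤ) + 1) = 2 * K * d + K := by ring
      have hKK2 : 2 * K * d = 2 * (K * d) := by ring
      constructor
      · have hK0 : 0 < K := by rw [hK]; positivity
        have hd0 : (0 : ℤ) < d := by linarith
        have : 0 < K * d := mul_pos hK0 hd0
        linarith
      · rw [hKK]
        linarith [hC.1]
  · have hi : i = ee D d := le_antisymm (h3 b0) (not_lt.mp c1)
    have n1 : nxt D (d, i) = (d + 1, ee D d + 1 - qq D d) := by simp [nxt, c1]
    rw [n1] at i1 b1 ⊢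
    simp only at b1
    obtain ⟨r, r1, r2, r3, r4, r5⟩ := facts D d hD h1 b0
    obtain ⟨r', r1', r2', r3', r4', r5'⟩ := facts D (d + 1) hD (by omega) b1
    have c3 : ee D d + 1 - qq D d < ee D (d + 1) := by omega
    have n2 : nxt D (d + 1, ee D d + 1 - qq D d) = (d + 1, ee D d + 1 - qq D d + 1) := by
      simp [nxt, c3]
    obtain ⟨C, hC, hg⟩ := gap_two K D d hD h1 b0
    rw [n2, hi, hg, gap_one]
    rw [abs_le] at hC
    have hs2 : 2 * (D : ℤ) ≤ ((ee D d + 1 - qq D d : ℕ) : ℤ) := by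
      have : 2 * D ≤ ee D d + 1 - qq D d := by omega
      exact_mod_cast this
    have hd3 : ((d + 1 : ℕ) : ℤ) ≤ 2 * D := by exact_mod_cast b1
    have hpos : 0 ≤ 3 * ((d + 1 : ℕ) : ℤ) * (2 * ((ee D d + 1 - qq D d : ℕ) : ℤ) + 1 - ((d + 1 : ℕ) : ℤ)) := by
      apply mul_nonneg
      · positivity
      · linarith
    have hD3 : 0 < (D : ℤ) ^ 3 := by positivity
    have hKd : 0 ≤ K * d := by positivity
    have hKK : K * (2 * (d : ℤ) + 1) = 2 * (K * d) + K := by ring
    have hKK2 : 2 * K * ((d + 1 : ℕ) : ℤ) = 2 * (K * d) + 2 * K := by push_cast; ring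
    constructor
    · rw [hKK]
      linarith [hC.1]
    · rw [hKK, hKK2]
      linarith [hC.2]

/-- There is c>0 such that for every n some set B of n integers has B+B containing k ≥ c·n² distinct integers a_0,…,a_{k-1} whose consecutive differences are strictly increasing. -/
theorem result :
    ∃ c : ℝ, 0 < c ∧ ∀ n : ℕ, ∃ B : Finset ℤ, B.card = n ∧
      ∃ k : ℕ, ∃ a : ℕ → ℤ, c * (n : ℝ) ^ 2 ≤ (k : ℝ) ∧
        Set.InjOn a (Set.Iio k) ∧
        (∀ i : ℕ, i + 2 < k → a (i + 1) - a i < a (i + 2) - a (i + 1)) ∧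
        (∀ i : ℕ, i < k → a i ∈ B + B) := by
  refine ⟨1 / 6724, by norm_num, ?_⟩
  intro n
  by_cases hn : n < 82
  · rcases Nat.eq_zero_or_pos n with h0 | hpos
    · subst h0
      refine ⟨∅, rfl, 0, fun _ => 0, by norm_num, ?_, ?_, ?_⟩
      · intro x hx
        simp at hx
      · intro i hi
        omega
      · intro i hi
        omega
    · obtain ⟨B, hB⟩ := Infinite.exists_subset_card_eq ℤ n
      have hne : B.Nonempty := by
        rw [← Finset.card_pos]
        omega
      obtain ⟨b, hb⟩ := hne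
      refine ⟨B, hB, 1, fun _ => b + b, ?_, ?_, ?_, ?_⟩
      · have : (n : ℝ) < 82 := by exact_mod_cast hn
        have h0 : (0 : ℝ) ≤ n := by positivity
        have : (n : ℝ) ^ 2 ≤ 82 ^ 2 := pow_le_pow_left₀ h0 this.le 2
        push_cast
        linarith
      · intro x hx y hy _
        simp only [Set.mem_Iio] at hx hy
        omega
      · intro i hi
        omega
      · intro i _
        exact Finset.add_mem_add hb hb
  · push Not at hn
    set D : ℕ := (n - 2) / 40 with hDdef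
    have hD : 2 ≤ D := by omega
    have hn1 : 40 * D + 2 ≤ n := by omega
    have hn2 : n ≤ 40 * D + 41 := by omega
    set K : ℤ := 100000 * (D : ℤ) ^ 3 with hK
    set M : ℤ := 16 * (D : ℤ) ^ 2 with hM
    set X : Finset ℤ := (Finset.range (20 * D + 1)).image (fun i : ℕ => xs K M (i : ℤ)) with hX
    set Y : Finset ℤ := (Finset.range (20 * D + 1)).image (fun i : ℕ => - xs K M (i : ℤ)) with hY
    have hcard : (X ∪ Y).card ≤ n := by
      refine (Finset.card_union_le _ _).trans ?_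
      have h1 : X.card ≤ 20 * D + 1 := by
        refine Finset.card_image_le.trans ?_
        simp
      have h2 : Y.card ≤ 20 * D + 1 := by
        refine Finset.card_image_le.trans ?_
        simp
      omega
    obtain ⟨B, hBs, hB⟩ := Infinite.exists_superset_card_eq (X ∪ Y) n hcard
    refine ⟨B, hB, D ^ 2, fun j => val K M (st D j), ?_, ?_, ?_, ?_⟩
    · have h1 : (n : ℝ) ≤ 40 * D + 41 := by exact_mod_cast hn2
      have h2 : (2 : ℝ) ≤ D := by exact_mod_cast hD
      have h3 : (n : ℝ) ≤ 82 * D := by linarith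
      have h0 : (0 : ℝ) ≤ n := by positivity
      have : (n : ℝ) ^ 2 ≤ (82 * D) ^ 2 := pow_le_pow_left₀ h0 h3 2
      push_cast
      nlinarith
    · -- injectivity from strict monotonicity
      have hstep : ∀ j, j + 1 < D ^ 2 → val K M (st D j) < val K M (st D (j + 1)) := by
        intro j hj
        have := (gap_lt D j hD hj).1
        linarith
      have hmono : ∀ j k : ℕ, k < D ^ 2 → j < k → val K M (st D j) < val K M (st D k) := by
        intro j k
        induction k with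
        | zero => intro _ h; omega
        | succ k ih =>
          intro hk hjk
          rcases Nat.lt_succ_iff_lt_or_eq.mp hjk with h | h
          · exact (ih (by omega) h).trans (hstep k hk)
          · subst h
            exact hstep j hk
      intro x hx y hy hxy
      simp only [Set.mem_Iio] at hx hy
      by_contra hne
      rcases Nat.lt_or_gt_of_ne hne with h | h
      · have := hmono x y hy h
        simp only at hxy
        linarith
      · have := hmono y x hx h
        simp only at hxy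
        linarith
    · intro i hi
      exact (gap_lt D i hD (by omega)).2
    · intro i hi
      have hinv := inv_st D hD i hi.le
      have hb := inv_bound D i _ hD hi hinv
      obtain ⟨h1, h2, h3, h4⟩ := hinv
      obtain ⟨r, r1, r2, r3, r4, r5⟩ := facts D (st D i).1 hD h1 hb
      have h5 := h3 hb
      simp only [val, sub_eq_add_neg]
      apply Finset.add_mem_add
      · apply hBs
        apply Finset.mem_union_left
        rw [hX, Finset.mem_image]
        exact ⟨(st D i).2, by rw [Finset.mem_range]; omega, rfl⟩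
      · apply hBs
        apply Finset.mem_union_right
        rw [hY, Finset.mem_image]
        refine ⟨(st D i).2 - (st D i).1, by rw [Finset.mem_range]; omega, ?_⟩
        have : (((st D i).2 - (st D i).1 : ℕ) : ℤ) = ((st D i).2 : ℤ) + -((st D i).1 : ℤ) := by
          rw [Nat.cast_sub (by omega)]
          ring
        rw [this]

end Pool.Agent.S06827
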