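import Pool.Statements.S06830
import Pool.Agent.Helper419.Rado

set_option autoImplicit false
open MeasureTheory
open Pool Pool.MP_ac9a20_co

namespace Pool.Agent.S06830

open Pool.Agent.Helper419.Rado

open scoped ENNReal

lemma coin (b : Bool) : (PMF.uniformOfFintype Bool).toMeasure {b} = 2⁻¹ := by
  rw [PMF.toMeasure_apply_singleton _ _ (MeasurableSet.singleton b)]
  simp

/-- infinitely many independent disagreement constraints have probability zero -/
lemma meas_zero {ι : Type} (O O' : ℕ → ι) (hO : Function.Injective O) (hO' : Function.Injective O')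
    (hne : ∀ i j, O i ≠ O' j) :
    Measure.infinitePi (fun _ : ι => (PMF.uniformOfFintype Bool).toMeasure)
      {c : ι → Bool | ∀ i, c (O i) ≠ c (O' i)} = 0 := by
  classical
  set μ := Measure.infinitePi (fun _ : ι => (PMF.uniformOfFintype Bool).toMeasure) with hμ
  have key : ∀ k : ℕ, μ {c : ι → Bool | ∀ i, c (O i) ≠ c (O' i)} ≤ (2⁻¹ : ℝ≥0∞) ^ k := by
    intro k
    let s1 : Finset ι := (Finset.univ : Finset (Fin k)).image (fun i : Fin k => O i)
    let s2 : Finset ι := (Finset.univ : Finset (Fin k)).image (fun i : Fin k => O' i)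
    have hs1 : s1.card = k := by
      rw [Finset.card_image_of_injective, Finset.card_univ, Fintype.card_fin]
      exact fun a b h => Fin.ext (hO h)
    have hs2 : s2.card = k := by
      rw [Finset.card_image_of_injective, Finset.card_univ, Fintype.card_fin]
      exact fun a b h => Fin.ext (hO' h)
    have hdisj : Disjoint s1 s2 := by
      rw [Finset.disjoint_left]
      intro a ha hb
      obtain ⟨i, -, hi⟩ := Finset.mem_image.mp ha
      obtain ⟨j, -, hj⟩ := Finset.mem_image.mp hb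
      exact hne _ _ (hi.trans hj.symm)
    let t : (Fin k → Bool) → ι → Set Bool := fun f j =>
      {b | ∀ i : Fin k, (j = O i → b = f i) ∧ (j = O' i → b = !(f i))}
    have ht1 : ∀ f, ∀ j ∈ s1, (PMF.uniformOfFintype Bool).toMeasure (t f j) = 2⁻¹ := by
      intro f j hj
      obtain ⟨i, -, hi⟩ := Finset.mem_image.mp hj
      have : t f j = {f i} := by
        ext b
        simp only [t, Set.mem_ofPred_eq, Set.mem_singleton_iff]
        constructor
        · intro h; exact (h i).1 hi.symm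
        · rintro rfl i'
          refine ⟨fun h => ?_, fun h => ?_⟩
          · have : O i = O i' := by rw [← h]; exact hi
            rw [Fin.ext (hO this)]
          · exact absurd (hi.trans h) (hne _ _)
      rw [this, coin]
    have ht2 : ∀ f, ∀ j ∈ s2, (PMF.uniformOfFintype Bool).toMeasure (t f j) = 2⁻¹ := by
      intro f j hj
      obtain ⟨i, -, hi⟩ := Finset.mem_image.mp hj
      have : t f j = {!(f i)} := by
        ext b
        simp only [t, Set.mem_ofPred_eq, Set.mem_singleton_iff]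
        constructor
        · intro h; exact (h i).2 hi.symm
        · rintro rfl i'
          refine ⟨fun h => ?_, fun h => ?_⟩
          · exact absurd (hi.trans h).symm (hne _ _)
          · have : O' i = O' i' := by rw [← h]; exact hi
            rw [Fin.ext (hO' this)]
      rw [this, coin]
    have hbox : ∀ f, μ (Set.pi (s1 ∪ s2 : Finset ι) (t f)) = (2⁻¹ : ℝ≥0∞) ^ (2 * k) := by
      intro f
      rw [hμ, Measure.infinitePi_pi]
      · rw [Finset.prod_union hdisj, Finset.prod_congr rfl (ht1 f), Finset.prod_congr rfl (ht2 f),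
          Finset.prod_const, Finset.prod_const, hs1, hs2, ← pow_add, two_mul]
      · intro i _
        exact MeasurableSet.of_discrete
    have hsub : {c : ι → Bool | ∀ i, c (O i) ≠ c (O' i)} ⊆
        ⋃ f ∈ (Finset.univ : Finset (Fin k → Bool)), Set.pi (s1 ∪ s2 : Finset ι) (t f) := by
      intro c hc
      simp only [Set.mem_iUnion]
      refine ⟨fun i => c (O i), Finset.mem_univ _, ?_⟩
      intro j _
      simp only [t, Set.mem_ofPred_eq]
      intro i
      refine ⟨fun h => by rw [h], fun h => ?_⟩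
      have := hc i
      rw [h]
      revert this
      cases c (O i) <;> cases c (O' i) <;> simp
    calc μ {c : ι → Bool | ∀ i, c (O i) ≠ c (O' i)}
        ≤ μ (⋃ f ∈ (Finset.univ : Finset (Fin k → Bool)), Set.pi (s1 ∪ s2 : Finset ι) (t f)) :=
          measure_mono hsub
      _ ≤ ∑ f : Fin k → Bool, μ (Set.pi (s1 ∪ s2 : Finset ι) (t f)) :=
          measure_biUnion_finset_le _ _
      _ = (2 : ℝ≥0∞) ^ k * (2⁻¹ : ℝ≥0∞) ^ (2 * k) := by
          rw [Finset.sum_congr rfl (fun f _ => hbox f), Finset.sum_const, Finset.card_univ,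
            Fintype.card_fun, Fintype.card_bool, Fintype.card_fin, nsmul_eq_mul]
          push_cast
          rfl
      _ = (2⁻¹ : ℝ≥0∞) ^ k := by
          rw [two_mul, pow_add, ← mul_assoc, ← mul_pow, ENNReal.mul_inv_cancel (by norm_num) (by norm_num),
            one_pow, one_mul]
  refine le_antisymm (ge_of_tendsto' (ENNReal.tendsto_pow_atTop_nhds_zero_of_lt_one ?_) key) bot_le
  exact ENNReal.inv_lt_one.mpr (by norm_num)

/-- the sort of a vertex -/
def col (z : ℕ) : ℕ := (Nat.unpair (Nat.log2 z)).1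

/-- adjacency: as in the testBit graph, but only pairs meeting sort `0` -/
def adjM (a b : ℕ) : Prop := R.Adj a b ∧ (col a = 0 ∨ col b = 0)

lemma adjM_symm (a b : ℕ) (h : adjM a b) : adjM b a := ⟨h.1.symm, h.2.symm⟩

lemma adjM_irrefl (a : ℕ) : ¬ adjM a a := fun h => h.1.ne rfl

lemma ex_pt (i : ℕ) (U U' : Finset ℕ) (hd : Disjoint U U') (hU : ∀ u ∈ U, i = 0 ∨ col u = 0) :
    ∃ b, b ∉ U ∧ b ∉ U' ∧ col b = i ∧ (∀ u ∈ U, adjM b u) ∧ (∀ u ∈ U', ¬ adjM b u) := by
  obtain ⟨z, h1, h2, h3, h4, h5⟩ := ext_log U U' hd (Nat.pair i ((U ∪ U').sup id + 1)) (by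
    intro x hx
    have h1 : x ≤ (U ∪ U').sup id := Finset.le_sup (f := id) hx
    have h2 := Nat.right_le_pair i ((U ∪ U').sup id + 1)
    omega)
  have hc : col z = i := by
    unfold col
    rw [h3, Nat.unpair_pair]
  exact ⟨z, h1, h2, hc, fun u hu => ⟨h4 u hu, by rw [hc]; exact hU u hu⟩,
    fun u hu h => h5 u hu h.1⟩

/-- the graph `Γ` -/
def GM : SimpleGraph ℕ where
  Adj := adjM
  symm := ⟨fun a b h => adjM_symm a b h⟩
  loopless := ⟨fun a h => adjM_irrefl a h⟩

lemma inv_self (a : Equiv.Perm ℕ) (x : ℕ) : a (a⁻¹ x) = x := by simp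

/-- the group: automorphisms of `Γ` preserving all the sorts -/
def G : Subgroup (Equiv.Perm ℕ) where
  carrier := {g | (∀ x, col (g x) = col x) ∧ ∀ x y, adjM (g x) (g y) ↔ adjM x y}
  one_mem' := ⟨fun _ => rfl, fun _ _ => Iff.rfl⟩
  mul_mem' := fun {a b} ha hb => ⟨fun x => by rw [Equiv.Perm.mul_apply, ha.1, hb.1],
    fun x y => by rw [Equiv.Perm.mul_apply, Equiv.Perm.mul_apply, ha.2, hb.2]⟩
  inv_mem' := fun {a} ha => ⟨fun x => by
      have := ha.1 (a⁻¹ x)
      rw [inv_self] at this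
      exact this.symm,
    fun x y => by
      have := ha.2 (a⁻¹ x) (a⁻¹ y)
      rw [inv_self, inv_self] at this
      exact this.symm⟩

lemma mem_G {g : Equiv.Perm ℕ} : g ∈ G ↔ (∀ x, col (g x) = col x) ∧ ∀ x y, adjM (g x) (g y) ↔ adjM x y :=
  Iff.rfl

lemma stepM : Step col adjM col := fun a U U' hd hU => ex_pt (col a) U U' hd hU

/-- homogeneity for pairs -/
lemma hom_pair {a b a' b' : ℕ} (h1 : col a = col a') (h2 : col b = col b') (h3 : a ≠ b) (h4 : a' ≠ b')
    (h5 : adjM a b ↔ adjM a' b') : ∃ g ∈ G, g a = a' ∧ g b = b' := by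
  classical
  obtain ⟨e, he1, he2, he3⟩ := exists_iso adjM col adjM col adjM_symm adjM_symm adjM_irrefl
    adjM_irrefl (fun a b h => h.2) (fun a b h => h.2) stepM stepM {(a, a'), (b, b')} (by
      refine ⟨?_, ?_⟩
      · intro x hx
        simp only [Finset.mem_insert, Finset.mem_singleton] at hx
        rcases hx with rfl | rfl
        · exact h1
        · exact h2
      · intro x hx y hy
        simp only [Finset.mem_insert, Finset.mem_singleton] at hx hy
        rcases hx with rfl | rfl <;> rcases hy with rfl | rfl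
        · exact ⟨by simp, by simp [adjM_irrefl]⟩
        · exact ⟨⟨fun h => absurd h h3, fun h => absurd h h4⟩, h5⟩
        · exact ⟨⟨fun h => absurd h.symm h3, fun h => absurd h.symm h4⟩,
            ⟨fun h => adjM_symm _ _ (h5.mp (adjM_symm _ _ h)),
             fun h => adjM_symm _ _ (h5.mpr (adjM_symm _ _ h))⟩⟩
        · exact ⟨by simp, by simp [adjM_irrefl]⟩)
  refine ⟨e, ⟨he2, fun x y => (he3 x y).symm⟩, ?_, ?_⟩
  · exact he1 (a, a') (by simp)
  · exact he1 (b, b') (by simp)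

/-- `Γ` is the random graph -/
lemma iso_R : Nonempty (GM ≃g R) := by
  obtain ⟨e, -, -, he3⟩ := exists_iso adjM (fun _ => 0) (fun a b => R.Adj a b) (fun _ => 0) adjM_symm
    (fun a b h => h.symm) adjM_irrefl (fun a h => h.ne rfl) (fun _ _ _ => Or.inl rfl)
    (fun _ _ _ => Or.inl rfl)
    (fun a U U' hd _ => by
      obtain ⟨z, h1, h2, h3, h4, h5⟩ := ext_log U U' hd ((U ∪ U').sup id + 1) (by
        intro x hx
        have h1 : x ≤ (U ∪ U').sup id := Finset.le_sup (f := id) hx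
        omega)
      exact ⟨z, h1, h2, rfl, h4, h5⟩)
    (fun a U U' hd _ => by
      obtain ⟨z, h1, h2, h3, h4, h5⟩ := ex_pt 0 U U' hd (fun _ _ => Or.inl rfl)
      exact ⟨z, h1, h2, rfl, h4, h5⟩) ∅ ⟨by simp, by simp⟩
  exact ⟨⟨e, fun {a b} => (he3 a b).symm⟩⟩

/-- the type of orbits of `G` on 2-subsets, as in the frozen statement -/
abbrev Orb : Type := {S : Set (Sym2 ℕ) // ∃ e : Sym2 ℕ, ¬ e.IsDiag ∧
            S = {e' : Sym2 ℕ | ∃ g ∈ G, Sym2.map (⇑g) e = e'}}

/-- the orbit of a pair -/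
def orb (e : Sym2 ℕ) (he : ¬ e.IsDiag) : Orb := ⟨{e' | ∃ g ∈ G, Sym2.map (⇑g) e = e'}, e, he, rfl⟩

lemma mem_orb_self (e : Sym2 ℕ) (he : ¬ e.IsDiag) : e ∈ (orb e he).1 :=
  ⟨1, G.one_mem, by
    have : (⇑(1 : Equiv.Perm ℕ)) = id := rfl
    rw [this, Sym2.map_id]; rfl⟩

lemma orb_eq {e e' : Sym2 ℕ} (he : ¬ e.IsDiag) (he' : ¬ e'.IsDiag)
    (h : ∃ g ∈ G, Sym2.map (⇑g) e = e') : orb e he = orb e' he' := by
  obtain ⟨g, hg, rfl⟩ := h
  apply Subtype.ext
  ext x
  constructor
  · rintro ⟨k, hk, rfl⟩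
    refine ⟨k * g⁻¹, G.mul_mem hk (G.inv_mem hg), ?_⟩
    rw [Sym2.map_map]
    congr 1
    ext y
    simp
  · rintro ⟨k, hk, rfl⟩
    refine ⟨k * g, G.mul_mem hk hg, ?_⟩
    rw [Sym2.map_map]
    rfl

lemma eq_orb (S : Orb) (e : Sym2 ℕ) (he : ¬ e.IsDiag) (h : e ∈ S.1) : S = orb e he := by
  obtain ⟨T, e0, he0, rfl⟩ := S
  exact orb_eq he0 he h

/-- the graph attached to a colouring of the orbits -/
abbrev GC (c : Orb → Bool) : SimpleGraph ℕ :=
  SimpleGraph.fromRel (fun x y : ℕ => ∃ S : Orb, s(x, y) ∈ S.1 ∧ c S = true)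

lemma nd {x y : ℕ} (h : x ≠ y) : ¬ (s(x, y) : Sym2 ℕ).IsDiag := by
  rw [Sym2.mk_isDiag_iff]; exact h

lemma GC_adj (c : Orb → Bool) {x y : ℕ} (h : x ≠ y) :
    (GC c).Adj x y ↔ c (orb s(x, y) (nd h)) = true := by
  rw [SimpleGraph.fromRel_adj]
  constructor
  · rintro ⟨-, ⟨S, hS, hc⟩ | ⟨S, hS, hc⟩⟩
    · rw [← eq_orb S _ (nd h) hS]; exact hc
    · rw [Sym2.eq_swap] at hS
      rw [← eq_orb S _ (nd h) hS]; exact hc
  · intro hc
    exact ⟨h, Or.inl ⟨_, mem_orb_self _ _, hc⟩⟩

lemma exists_data (i : ℕ) : ∃ x y z z' : ℕ, col x = i + 1 ∧ col y = i + 1 ∧ x ≠ y ∧ col z = 0 ∧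
    col z' = 0 ∧ adjM x z ∧ ¬ adjM x z' := by
  obtain ⟨x, -, -, hx, -, -⟩ := ex_pt (i + 1) ∅ ∅ (by simp) (by simp)
  obtain ⟨y, -, hy1, hy, -, -⟩ := ex_pt (i + 1) ∅ {x} (by simp) (by simp)
  obtain ⟨z, -, -, hz, hz1, -⟩ := ex_pt 0 {x} ∅ (by simp) (by simp)
  obtain ⟨z', -, -, hz', -, hz1'⟩ := ex_pt 0 ∅ {x} (by simp) (by simp)
  refine ⟨x, y, z, z', hx, hy, ?_, hz, hz', ?_, ?_⟩
  · rintro rfl; exact hy1 (by simp)
  · exact adjM_symm _ _ (hz1 x (by simp))
  · exact fun h => hz1' x (by simp) (adjM_symm _ _ h)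

/-- two pairs of vertices with the same `G`-orbit have the same sorts and adjacency -/
lemma orb_inj {x z x' z' : ℕ} (h : x ≠ z) (h' : x' ≠ z') (hz : col z = 0) (hz' : col z' = 0)
    (hx : col x ≠ 0) (hx' : col x' ≠ 0) (he : orb s(x, z) (nd h) = orb s(x', z') (nd h')) :
    col x = col x' ∧ (adjM x z ↔ adjM x' z') := by
  have h1 : s(x', z') ∈ (orb s(x, z) (nd h)).1 := by
    rw [he]; exact mem_orb_self _ _
  obtain ⟨g, hg, hgz⟩ := h1
  rw [Sym2.map_mk, Sym2.eq_iff] at hgz
  rcases hgz with ⟨h2, h3⟩ | ⟨h2, h3⟩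
  · refine ⟨?_, ?_⟩
    · rw [← h2, hg.1]
    · rw [← h2, ← h3, hg.2]
  · exfalso
    apply hx
    rw [← hg.1 x, h2, hz']

/-- The negation of the preceding statement: For every permutation group G on a countable set: some G-invariant graph is isomorphic to the Rado graph iff flipping an independent fair coin per G-orbit on 2-subsets gives a graph isomorphic to the Rado graph with positive probability. -/
theorem result :
    ¬ (∀ (Ω : Type) [Countable Ω] (G : Subgroup (Equiv.Perm Ω)),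
    (∃ Γ : SimpleGraph Ω, (∀ g ∈ G, ∀ x y : Ω, Γ.Adj (g x) (g y) ↔ Γ.Adj x y) ∧
        Nonempty (Γ ≃g SimpleGraph.fromRel (fun i j : ℕ => Nat.testBit j i = true))) ↔
    (Measure.infinitePi
        (fun _ : {S : Set (Sym2 Ω) // ∃ e : Sym2 Ω, ¬ e.IsDiag ∧
            S = {e' : Sym2 Ω | ∃ g ∈ G, Sym2.map (⇑g) e = e'}} =>
          (PMF.uniformOfFintype Bool).toMeasure))
      {c : {S : Set (Sym2 Ω) // ∃ e : Sym2 Ω, ¬ e.IsDiag ∧
            S = {e' : Sym2 Ω | ∃ g ∈ G, Sym2.map (⇑g) e = e'}} → Bool |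
        Nonempty (SimpleGraph.fromRel
            (fun x y : Ω => ∃ S : {S : Set (Sym2 Ω) // ∃ e : Sym2 Ω, ¬ e.IsDiag ∧
                S = {e' : Sym2 Ω | ∃ g ∈ G, Sym2.map (⇑g) e = e'}},
              s(x, y) ∈ S.1 ∧ c S = true)
          ≃g SimpleGraph.fromRel (fun i j : ℕ => Nat.testBit j i = true))} > 0) := by
  intro hall
  have h0 := (hall ℕ G).mp ⟨GM, fun g hg x y => hg.2 x y, iso_R⟩
  revert h0
  rw [gt_iff_lt, imp_false, not_lt, nonpos_iff_eq_zero]
  choose x y z z' hx hy hxy hz hz' hadj hnadj using exists_data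
  have nxz : ∀ i, x i ≠ z i := fun i h => by
    have h1 := hx i; rw [h, hz i] at h1; omega
  have nxz' : ∀ i, x i ≠ z' i := fun i h => by
    have h1 := hx i; rw [h, hz' i] at h1; omega
  let O : ℕ → Orb := fun i => orb s(x i, z i) (nd (nxz i))
  let O' : ℕ → Orb := fun i => orb s(x i, z' i) (nd (nxz' i))
  have hcx : ∀ i, col (x i) ≠ 0 := fun i => by rw [hx i]; omega
  have hO : Function.Injective O := by
    intro i j hij
    have := (orb_inj (nxz i) (nxz j) (hz i) (hz j) (hcx i) (hcx j) hij).1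
    rw [hx i, hx j] at this
    omega
  have hO' : Function.Injective O' := by
    intro i j hij
    have := (orb_inj (nxz' i) (nxz' j) (hz' i) (hz' j) (hcx i) (hcx j) hij).1
    rw [hx i, hx j] at this
    omega
  have hne : ∀ i j, O i ≠ O' j := by
    intro i j hij
    have := (orb_inj (nxz i) (nxz' j) (hz i) (hz' j) (hcx i) (hcx j) hij).2
    exact hnadj j (this.mp (hadj i))
  refine measure_mono_null ?_ (meas_zero O O' hO hO' hne)
  rintro c ⟨φ⟩ i hc
  -- the pair `x i, y i` cannot be separated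
  have horb : ∀ (w : ℕ) (v : ℕ), col w = i + 1 → col v = 0 → (h : w ≠ v) →
      c (orb s(w, v) (nd h)) = c (O i) := by
    intro w v hw hv h
    by_cases ha : adjM w v
    · obtain ⟨g, hg, h1, h2⟩ := hom_pair (a := w) (b := v) (a' := x i) (b' := z i)
        (by rw [hw, hx i]) (by rw [hv, hz i]) h (nxz i) (by simp [ha, hadj i])
      congr 1
      exact orb_eq _ _ ⟨g, hg, by rw [Sym2.map_mk]; simp only [h1, h2]⟩
    · obtain ⟨g, hg, h1, h2⟩ := hom_pair (a := w) (b := v) (a' := x i) (b' := z' i)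
        (by rw [hw, hx i]) (by rw [hv, hz' i]) h (nxz' i) (by simp [ha, hnadj i])
      rw [hc]
      congr 1
      exact orb_eq _ _ ⟨g, hg, by rw [Sym2.map_mk]; simp only [h1, h2]⟩
  have hsep : ∀ v, v ≠ x i → v ≠ y i → ((GC c).Adj (x i) v ↔ (GC c).Adj (y i) v) := by
    intro v hvx hvy
    rw [GC_adj c hvx.symm, GC_adj c hvy.symm]
    by_cases hv : col v = 0
    · rw [horb (x i) v (hx i) hv hvx.symm, horb (y i) v (hy i) hv hvy.symm]
    · obtain ⟨g, hg, h1, h2⟩ := hom_pair (a := x i) (b := v) (a' := y i) (b' := v)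
        (by rw [hx i, hy i]) rfl hvx.symm hvy.symm (by
          constructor
          · intro h
            rcases h.2 with h | h
            · exact absurd h (hcx i)
            · exact absurd h hv
          · intro h
            rcases h.2 with h | h
            · rw [hy i] at h; omega
            · exact absurd h hv)
      have : orb s(x i, v) (nd hvx.symm) = orb s(y i, v) (nd hvy.symm) :=
        orb_eq _ _ ⟨g, hg, by rw [Sym2.map_mk]; simp only [h1, h2]⟩
      rw [this]
  have hφ : φ (x i) ≠ φ (y i) := fun h => hxy i (φ.injective h)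
  obtain ⟨w, hw1, hw2, -, hw4, hw5⟩ := ext_log {φ (x i)} {φ (y i)} (by simpa using hφ)
    (φ (x i) + φ (y i) + 1) (by
      intro a ha
      simp only [Finset.mem_union, Finset.mem_singleton] at ha
      rcases ha with rfl | rfl <;> omega)
  have e1 : φ (φ.symm w) = w := φ.apply_symm_apply w
  have hw1' : φ.symm w ≠ x i := fun h => hw1 (by rw [← h, e1]; simp)
  have hw2' : φ.symm w ≠ y i := fun h => hw2 (by rw [← h, e1]; simp)
  have h4 := hw4 (φ (x i)) (by simp)
  have h5 := hw5 (φ (y i)) (by simp)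
  have h6 := hsep (φ.symm w) hw1' hw2'
  have h7 : (GC c).Adj (x i) (φ.symm w) := by
    rw [← φ.map_adj_iff, e1]; exact h4.symm
  have h8 := h6.mp h7
  rw [← φ.map_adj_iff, e1] at h8
  exact h5 h8.symm

end Pool.Agent.S06830
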