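import Pool.Statements.S06834
import Pool.Agent.Helper835.Counter2

set_option autoImplicit false
open Pool Pool.MP_acd137_co

namespace Pool.Agent.S06834

/-- The negation of the preceding statement: For any sequence of finite groups of orders tending to infinity: if the largest prime-power element order is o(∣G∣), then some graph with automorphism group isomorphic to G has o(∣G∣) vertices. -/
theorem result :
    ¬ (∀ (G : ℕ → Type) [∀ n, Group (G n)] [∀ n, Fintype (G n)],
      Filter.Tendsto (fun n => Fintype.card (G n)) Filter.atTop Filter.atTop →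
      (∀ δ : ℝ, 0 < δ → ∃ N : ℕ, ∀ n ≥ N, ∀ g : G n,
          IsPrimePow (orderOf g) → (orderOf g : ℝ) ≤ δ * (Fintype.card (G n) : ℝ)) →
      ∀ ε : ℝ, 0 < ε → ∃ N : ℕ, ∀ n ≥ N, ∃ k : ℕ, ∃ Γ : SimpleGraph (Fin k),
          Nonempty ((Γ ≃g Γ) ≃* G n) ∧ (k : ℝ) ≤ ε * (Fintype.card (G n) : ℝ)) := by
  intro h
  choose G hG hF h1 h2 h3 using fun n : ℕ =>
    Pool.Agent.Helper835.Counter.exists_group (n + 2) (by omega)
  obtain ⟨N, hN⟩ := h G (by
    apply Filter.tendsto_atTop_mono (f := fun n : ℕ => n) _ Filter.tendsto_id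
    intro n
    have := h1 n
    omega) (by
    intro δ hδ
    obtain ⟨N, hN⟩ := exists_nat_gt (1 / δ)
    refine ⟨N, fun n hn g hg => ?_⟩
    have h4 := h2 n g hg
    have h5 : (orderOf g : ℝ) * 2 ^ (n + 2) ≤ (Fintype.card (G n) : ℝ) := by exact_mod_cast h4
    have h6 : 1 / δ ≤ 2 ^ (n + 2) := by
      have h7 : (n : ℝ) < 2 ^ n := by exact_mod_cast Nat.lt_two_pow_self
      have h8 : (2 : ℝ) ^ n ≤ 2 ^ (n + 2) := pow_le_pow_right₀ (by norm_num) (by omega)
      have h9 : (N : ℝ) ≤ n := by exact_mod_cast hn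
      linarith
    have h7 : 1 ≤ δ * 2 ^ (n + 2) := by
      rw [div_le_iff₀ hδ] at h6
      linarith
    have h8 : (0 : ℝ) ≤ orderOf g := Nat.cast_nonneg _
    calc (orderOf g : ℝ) ≤ orderOf g * (δ * 2 ^ (n + 2)) := le_mul_of_one_le_right h8 h7
      _ = δ * (orderOf g * 2 ^ (n + 2)) := by ring
      _ ≤ δ * (Fintype.card (G n) : ℝ) := mul_le_mul_of_nonneg_left h5 hδ.le) (1 / 3) (by norm_num)
  obtain ⟨k, Γ, hΓ, hk⟩ := hN N le_rfl
  have h4 := h3 N k Γ hΓ
  have h5 : (Fintype.card (G N) : ℝ) ≤ 2 * k := by exact_mod_cast h4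
  have h6 : 0 < Fintype.card (G N) := Fintype.card_pos
  have h7 : (0 : ℝ) < Fintype.card (G N) := by exact_mod_cast h6
  linarith

end Pool.Agent.S06834
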