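import Pool.Statements.S06836

set_option autoImplicit false
open Pool Pool.MP_acdd82_co

namespace Pool.Agent.S06836

/-- a space spanned by an independent family indexed by `I` has dimension the size of `I` -/
theorem finrank_image {α K W : Type} [Finite α] [Field K] [AddCommGroup W] [Module K W]
    (v : α → W) (I : Set α) (hI : LinearIndepOn K v I) :
    Module.finrank K (Submodule.span K (v '' I)) = I.ncard := by
  classical
  have : Fintype I := Fintype.ofFinite I
  have h := finrank_span_eq_card (R := K) (b := fun x : I => v x) hI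
  rw [Set.image_eq_range, h, ← Nat.card_eq_fintype_card, Nat.card_coe_set_eq]

/-- the augmentation property for linearly independent subfamilies -/
theorem aug {α K W : Type} [Finite α] [Field K] [AddCommGroup W] [Module K W]
    (v : α → W) (I J : Set α) (hI : LinearIndepOn K v I) (hJ : LinearIndepOn K v J)
    (h : I.ncard < J.ncard) : ∃ e ∈ J, e ∉ I ∧ LinearIndepOn K v (insert e I) := by
  by_contra hcon
  push Not at hcon
  have hsub : Submodule.span K (v '' J) ≤ Submodule.span K (v '' I) := by
    rw [Submodule.span_le]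
    rintro _ ⟨e, he, rfl⟩
    by_cases heI : e ∈ I
    · exact Submodule.subset_span (Set.mem_image_of_mem v heI)
    · by_contra hn
      exact hcon e he heI (hI.insert hn)
  have : FiniteDimensional K (Submodule.span K (v '' I)) :=
    FiniteDimensional.span_of_finite K ((Set.toFinite I).image v)
  have h1 := Submodule.finrank_mono hsub
  rw [finrank_image v I hI, finrank_image v J hJ] at h1
  omega

/-- the matroid of a finite family of vectors -/
noncomputable def lin {α : Type} (K : Type) {W : Type} [Finite α] [Field K] [AddCommGroup W]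
    [Module K W] (v : α → W) : Matroid α :=
  (IndepMatroid.ofFinite (E := Set.univ) Set.finite_univ (fun I => LinearIndepOn K v I)
    (linearIndepOn_empty K v) (fun _ _ hJ hIJ => hJ.mono hIJ)
    (fun I J hI hJ h => aug v I J hI hJ h) (fun I _ => Set.subset_univ I)).matroid

theorem lin_indep {α K W : Type} [Finite α] [Field K] [AddCommGroup W] [Module K W]
    (v : α → W) (I : Set α) : (lin K v).Indep I ↔ LinearIndepOn K v I := Iff.rfl

/-- The 12 elements are edges of the complete graph on four vertices with multiplicities,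
given by their binary vectors. -/
def vec : Fin 12 → (Fin 3 → ZMod 2) :=
  ![![1,0,0], ![1,0,0], ![0,1,1], ![0,1,1], ![0,1,0], ![0,1,0], ![1,0,1], ![1,0,1],
    ![0,0,1], ![0,0,1], ![0,0,1], ![1,1,0]]

theorem indep_iff (I : Finset (Fin 12)) :
    (lin (ZMod 2) vec).Indep (I : Set (Fin 12)) ↔
      ∀ g : Fin 12 → ZMod 2, (∑ i ∈ I, g i • vec i = 0) → ∀ i ∈ I, g i = 0 := by
  rw [lin_indep, linearIndepOn_finset_iff]

/-- in an independent set no nonempty subset sums to zero -/
theorem indep_sum (I J : Finset (Fin 12)) (hI : (lin (ZMod 2) vec).Indep (I : Set (Fin 12)))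
    (hJ : J ⊆ I) (hne : J.Nonempty) : ∑ i ∈ J, vec i ≠ 0 := by
  intro hs
  have hJi : (lin (ZMod 2) vec).Indep (J : Set (Fin 12)) := hI.subset (by exact_mod_cast hJ)
  rw [indep_iff] at hJi
  obtain ⟨x, hx⟩ := hne
  have := hJi (fun _ => 1) (by simpa using hs) x hx
  exact absurd this (by decide)

theorem card_le (I : Set (Fin 12)) (hI : (lin (ZMod 2) vec).Indep I) : I.ncard ≤ 3 := by
  rw [lin_indep] at hI
  rw [← finrank_image vec I hI]
  have := Submodule.finrank_le (Submodule.span (ZMod 2) (vec '' I))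
  simpa using this

theorem base_of (I : Finset (Fin 12)) (hc : I.card = 3)
    (hI : (lin (ZMod 2) vec).Indep (I : Set (Fin 12))) :
    (lin (ZMod 2) vec).IsBase (I : Set (Fin 12)) := by
  apply hI.isBase_of_maximal
  intro J hJ hIJ
  apply Set.eq_of_subset_of_ncard_le hIJ _ (Set.toFinite J)
  rw [Set.ncard_coe_finset, hc]
  exact card_le J hJ

theorem b0 : (lin (ZMod 2) vec).IsBase (({0, 4, 8} : Finset (Fin 12)) : Set (Fin 12)) := by
  apply base_of _ (by decide)
  rw [indep_iff]
  intro g hg
  have e0 := congrFun hg 0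
  have e1 := congrFun hg 1
  have e2 := congrFun hg 2
  simp [vec, Finset.sum_insert, Fin.ext_iff] at e0 e1 e2
  intro i hi
  simp at hi
  rcases hi with rfl | rfl | rfl <;> simp_all

theorem b1 : (lin (ZMod 2) vec).IsBase (({2, 6, 9} : Finset (Fin 12)) : Set (Fin 12)) := by
  apply base_of _ (by decide)
  rw [indep_iff]
  intro g hg
  have e0 := congrFun hg 0
  have e1 := congrFun hg 1
  have e2 := congrFun hg 2
  simp [vec, Finset.sum_insert, Fin.ext_iff] at e0 e1 e2
  intro i hi
  simp at hi
  rcases hi with rfl | rfl | rfl <;> simp_all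

theorem b2 : (lin (ZMod 2) vec).IsBase (({1, 3, 10} : Finset (Fin 12)) : Set (Fin 12)) := by
  apply base_of _ (by decide)
  rw [indep_iff]
  intro g hg
  have e0 := congrFun hg 0
  have e1 := congrFun hg 1
  have e2 := congrFun hg 2
  simp [vec, Finset.sum_insert, Fin.ext_iff] at e0 e1 e2
  intro i hi
  simp at hi
  rcases hi with rfl | rfl | rfl <;> simp_all

theorem b3 : (lin (ZMod 2) vec).IsBase (({5, 7, 11} : Finset (Fin 12)) : Set (Fin 12)) := by
  apply base_of _ (by decide)
  rw [indep_iff]
  intro g hg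
  have e0 := congrFun hg 0
  have e1 := congrFun hg 1
  have e2 := congrFun hg 2
  simp [vec, Finset.sum_insert, Fin.ext_iff] at e0 e1 e2
  intro i hi
  simp at hi
  rcases hi with rfl | rfl | rfl <;> simp_all

/-- two disjoint four-cycles: 0, 1 against 2, 3 and 4, 5 against 6, 7 -/
def gr : SimpleGraph (Fin 12) where
  Adj a b := (a.val < 2 ∧ 2 ≤ b.val ∧ b.val < 4) ∨ (b.val < 2 ∧ 2 ≤ a.val ∧ a.val < 4) ∨
    (4 ≤ a.val ∧ a.val < 6 ∧ 6 ≤ b.val ∧ b.val < 8) ∨
    (4 ≤ b.val ∧ b.val < 6 ∧ 6 ≤ a.val ∧ a.val < 8)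
  symm := ⟨fun a b h => by omega⟩
  loopless := ⟨fun a h => by omega⟩

instance : DecidableRel gr.Adj := fun a b => by
  unfold gr; dsimp only; infer_instance

theorem gr_deg : gr.maxDegree = 2 := by decide +kernel

theorem no_bases (C : Fin 4 → Finset (Fin 12)) (hc : ∀ i, (C i).card = 3)
    (hs : ∀ i, ∀ J ⊆ C i, J.Nonempty → ∑ x ∈ J, vec x ≠ 0)
    (hg : ∀ i, ∀ x ∈ C i, ∀ y ∈ C i, ¬ gr.Adj x y)
    (hd : ∀ i j, i ≠ j → Disjoint (C i) (C j)) : False := by
  have hun : Finset.univ.biUnion C = Finset.univ := by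
    apply Finset.eq_univ_of_card
    rw [Finset.card_biUnion (fun i _ j _ hij => hd i j hij)]
    simp [hc]
  have hsum : ∀ X : Finset (Fin 12), ∑ i, (C i ∩ X).card = X.card := by
    intro X
    rw [← Finset.card_biUnion]
    · congr 1
      rw [← Finset.biUnion_inter, hun, Finset.univ_inter]
    · intro i _ j _ hij
      exact Finset.disjoint_of_subset_left Finset.inter_subset_left
        (Finset.disjoint_of_subset_right Finset.inter_subset_left (hd i j hij))
  have hp : ∀ i, (C i ∩ {0, 1, 2, 3}).card ≤ 1 := by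
    intro i
    rw [Finset.card_le_one]
    intro x hx y hy
    rw [Finset.mem_inter] at hx hy
    by_contra hne
    have h1 := hs i {x, y} (by
      intro z hz
      rw [Finset.mem_insert, Finset.mem_singleton] at hz
      rcases hz with rfl | rfl
      · exact hx.1
      · exact hy.1) (by simp)
    rw [Finset.sum_pair hne] at h1
    have h2 := hg i x hx.1 y hy.1
    have h3 : ∀ x y : Fin 12, x ∈ ({0, 1, 2, 3} : Finset (Fin 12)) →
        y ∈ ({0, 1, 2, 3} : Finset (Fin 12)) → ¬ gr.Adj x y → vec x + vec y = 0 := by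
      decide +kernel
    exact h1 (h3 x y hx.2 hy.2 h2)
  have hq : ∀ i, (C i ∩ {4, 5, 6, 7}).card ≤ 1 := by
    intro i
    rw [Finset.card_le_one]
    intro x hx y hy
    rw [Finset.mem_inter] at hx hy
    by_contra hne
    have h1 := hs i {x, y} (by
      intro z hz
      rw [Finset.mem_insert, Finset.mem_singleton] at hz
      rcases hz with rfl | rfl
      · exact hx.1
      · exact hy.1) (by simp)
    rw [Finset.sum_pair hne] at h1
    have h2 := hg i x hx.1 y hy.1
    have h3 : ∀ x y : Fin 12, x ∈ ({4, 5, 6, 7} : Finset (Fin 12)) →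
        y ∈ ({4, 5, 6, 7} : Finset (Fin 12)) → ¬ gr.Adj x y → vec x + vec y = 0 := by
      decide +kernel
    exact h1 (h3 x y hx.2 hy.2 h2)
  have hsplit : ∀ i, (C i ∩ {0, 1, 2, 3}).card + (C i ∩ {4, 5, 6, 7}).card +
      (C i ∩ {8, 9, 10, 11}).card = 3 := by
    intro i
    rw [← hc i, ← Finset.card_union_of_disjoint, ← Finset.card_union_of_disjoint]
    · congr 1
      rw [← Finset.inter_union_distrib_left, ← Finset.inter_union_distrib_left]
      have : ({0, 1, 2, 3} ∪ {4, 5, 6, 7} ∪ {8, 9, 10, 11} : Finset (Fin 12)) = Finset.univ := by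
        decide
      rw [this, Finset.inter_univ]
    · rw [← Finset.inter_union_distrib_left]
      exact Finset.disjoint_of_subset_left Finset.inter_subset_right
        (Finset.disjoint_of_subset_right Finset.inter_subset_right (by decide))
    · exact Finset.disjoint_of_subset_left Finset.inter_subset_right
        (Finset.disjoint_of_subset_right Finset.inter_subset_right (by decide))
  have sP := hsum {0, 1, 2, 3}
  have sQ := hsum {4, 5, 6, 7}
  have sR := hsum {2, 3, 6, 7, 11}
  rw [Fin.sum_univ_four] at sP sQ sR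
  have cP : ({0, 1, 2, 3} : Finset (Fin 12)).card = 4 := by decide
  have cQ : ({4, 5, 6, 7} : Finset (Fin 12)).card = 4 := by decide
  have cR : ({2, 3, 6, 7, 11} : Finset (Fin 12)).card = 5 := by decide
  rw [cP] at sP
  rw [cQ] at sQ
  rw [cR] at sR
  have hP : ∀ i, (C i ∩ {0, 1, 2, 3}).card = 1 := by
    have := hp 0; have := hp 1; have := hp 2; have := hp 3
    intro i; fin_cases i <;> simp only [] <;> first | (show (C 0 ∩ _).card = 1; omega) | (show (C 1 ∩ _).card = 1; omega) | (show (C 2 ∩ _).card = 1; omega) | (show (C 3 ∩ _).card = 1; omega)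
  have hQ : ∀ i, (C i ∩ {4, 5, 6, 7}).card = 1 := by
    have := hq 0; have := hq 1; have := hq 2; have := hq 3
    intro i; fin_cases i <;> simp only [] <;> first | (show (C 0 ∩ _).card = 1; omega) | (show (C 1 ∩ _).card = 1; omega) | (show (C 2 ∩ _).card = 1; omega) | (show (C 3 ∩ _).card = 1; omega)
  have hpar : ∀ i, (C i ∩ {2, 3, 6, 7, 11}).card % 2 = 0 := by
    intro i
    have h8 : (C i ∩ {8, 9, 10, 11}).card = 1 := by
      have := hsplit i; have := hP i; have := hQ i; omega
    obtain ⟨x, hx⟩ := Finset.card_eq_one.mp (hP i)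
    obtain ⟨y, hy⟩ := Finset.card_eq_one.mp (hQ i)
    obtain ⟨z, hz⟩ := Finset.card_eq_one.mp h8
    have hx' : x ∈ C i ∩ {0, 1, 2, 3} := by rw [hx]; simp
    have hy' : y ∈ C i ∩ {4, 5, 6, 7} := by rw [hy]; simp
    have hz' : z ∈ C i ∩ {8, 9, 10, 11} := by rw [hz]; simp
    rw [Finset.mem_inter] at hx' hy' hz'
    have hC : C i = {x, y, z} := by
      have : C i = (C i ∩ {0, 1, 2, 3}) ∪ (C i ∩ {4, 5, 6, 7}) ∪ (C i ∩ {8, 9, 10, 11}) := by
        rw [← Finset.inter_union_distrib_left, ← Finset.inter_union_distrib_left]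
        have : ({0, 1, 2, 3} ∪ {4, 5, 6, 7} ∪ {8, 9, 10, 11} : Finset (Fin 12)) =
          Finset.univ := by decide
        rw [this, Finset.inter_univ]
      rw [this, hx, hy, hz]
      ext w; simp
    have h1 := hs i (C i) (Finset.Subset.refl _) ⟨x, hx'.1⟩
    rw [hC] at h1 ⊢
    have key : ∀ x ∈ ({0, 1, 2, 3} : Finset (Fin 12)), ∀ y ∈ ({4, 5, 6, 7} : Finset (Fin 12)),
        ∀ z ∈ ({8, 9, 10, 11} : Finset (Fin 12)), ∑ w ∈ {x, y, z}, vec w ≠ 0 →
        (({x, y, z} : Finset (Fin 12)) ∩ {2, 3, 6, 7, 11}).card % 2 = 0 := by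
      decide +kernel
    exact key x hx'.2 y hy'.2 z hz'.2 h1
  have := hpar 0; have := hpar 1; have := hpar 2; have := hpar 3
  omega

/-- The negation of the preceding statement: For a finite graph G of maximum degree Δ ≥ 2 and a matroid on its vertices, if the matroid has k ≥ 2Δ pairwise disjoint bases, then it has k pairwise disjoint bases each of which is an independent set of G. -/
theorem result :
    ¬ (∀ (V : Type) [Fintype V] [DecidableEq V] (G : SimpleGraph V) [DecidableRel G.Adj]
      (M : Matroid V), M.E = Set.univ → 2 ≤ G.maxDegree →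
      ∀ k : ℕ, 2 * G.maxDegree ≤ k →
        (∃ B : Fin k → Set V, (∀ i, M.IsBase (B i)) ∧
            Pairwise (fun i j => Disjoint (B i) (B j))) →
        ∃ B : Fin k → Set V, (∀ i, M.IsBase (B i) ∧ G.IsIndepSet (B i)) ∧
            Pairwise (fun i j => Disjoint (B i) (B j))) := by
  intro H
  classical
  let D : Fin 4 → Finset (Fin 12) := ![{0, 4, 8}, {2, 6, 9}, {1, 3, 10}, {5, 7, 11}]
  have hD : ∀ i, (lin (ZMod 2) vec).IsBase ((D i : Finset (Fin 12)) : Set (Fin 12)) := by
    intro i
    fin_cases i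
    · exact b0
    · exact b1
    · exact b2
    · exact b3
  have hDd : ∀ i j : Fin 4, i ≠ j → Disjoint (D i) (D j) := by decide
  obtain ⟨B, hB, hdis⟩ := H (Fin 12) gr (lin (ZMod 2) vec) rfl (by rw [gr_deg]) 4
    (by rw [gr_deg]) ⟨fun i => (D i : Set (Fin 12)), hD, fun i j hij => by
      exact Finset.disjoint_coe.mpr (hDd i j hij)⟩
  have hcoe : ∀ i, (((B i).toFinset : Finset (Fin 12)) : Set (Fin 12)) = B i := by
    intro i; simp
  apply no_bases (fun i => (B i).toFinset)
  · intro i
    have h1 := (hB i).1.ncard_eq_ncard_of_isBase b0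
    rw [Set.ncard_coe_finset] at h1
    rw [← Set.ncard_coe_finset, hcoe, h1]
    decide
  · intro i J hJ hne
    apply indep_sum (B i).toFinset J _ hJ hne
    rw [hcoe]
    exact (hB i).1.indep
  · intro i x hx y hy hadj
    have hx' : x ∈ B i := by simpa using hx
    have hy' : y ∈ B i := by simpa using hy
    exact (hB i).2 hx' hy' hadj.ne hadj
  · intro i j hij
    have h1 : Disjoint (B i) (B j) := hdis hij
    rw [← hcoe i, ← hcoe j] at h1
    exact Finset.disjoint_coe.mp h1

end Pool.Agent.S06836
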