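import Pool.Statements.S06837
-- import your own Pool.Agent.* helpers here

set_option autoImplicit false
open Pool Pool.MP_acfcdd_co

namespace Pool.Agent.S06837

namespace LC

section PartB
open Real


structure Pt where
  v : ℝ
  u : ℝ
  e : ℝ
  a : ℝ
  hvu : v ≤ u

theorem Pt.ext' {p q : Pt} (h1 : p.v = q.v) (h2 : p.u = q.u) (h3 : p.e = q.e) (h4 : p.a = q.a) :
    p = q := by
  cases p; cases q; simp_all

/-- size of the interval -/
noncomputable def sz (p : Pt) : ℝ := 1 + (p.u - p.v)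

/-- size of the hull of two intervals -/
noncomputable def jn (p q : Pt) : ℝ := 1 + (max p.u q.u - min p.v q.v)

theorem one_le_sz (p : Pt) : 1 ≤ sz p := by
  unfold sz; linarith [p.hvu]

theorem sz_pos (p : Pt) : 0 < sz p := lt_of_lt_of_le one_pos (one_le_sz p)

theorem sz_le_jn_left (p q : Pt) : sz p ≤ jn p q := by
  unfold sz jn
  linarith [le_max_left p.u q.u, min_le_left p.v q.v]

theorem sz_le_jn_right (p q : Pt) : sz q ≤ jn p q := by
  unfold sz jn
  linarith [le_max_right p.u q.u, min_le_right p.v q.v]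

theorem one_le_jn (p q : Pt) : 1 ≤ jn p q := (one_le_sz p).trans (sz_le_jn_left p q)

theorem jn_pos (p q : Pt) : 0 < jn p q := lt_of_lt_of_le one_pos (one_le_jn p q)

theorem jn_comm (p q : Pt) : jn p q = jn q p := by
  unfold jn; rw [max_comm, min_comm]

theorem jn_self (p : Pt) : jn p p = sz p := by
  unfold jn sz; simp

theorem jn_mul (p q r : Pt) : jn p r * sz q ≤ jn p q * jn q r := by
  have h1 : jn p r ≤ jn p q + jn q r - sz q := by
    unfold jn sz
    have := q.hvu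
    rcases le_total p.u r.u with h | h <;> rcases le_total p.v r.v with h' | h'
    · rw [max_eq_right h, min_eq_left h']
      linarith [le_max_left p.u q.u, le_max_right p.u q.u, min_le_left p.v q.v, min_le_right p.v q.v, le_max_left q.u r.u, le_max_right q.u r.u, min_le_left q.v r.v, min_le_right q.v r.v]
    · rw [max_eq_right h, min_eq_right h']
      linarith [le_max_left p.u q.u, le_max_right p.u q.u, min_le_left p.v q.v, min_le_right p.v q.v, le_max_left q.u r.u, le_max_right q.u r.u, min_le_left q.v r.v, min_le_right q.v r.v]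
    · rw [max_eq_left h, min_eq_left h']
      linarith [le_max_left p.u q.u, le_max_right p.u q.u, min_le_left p.v q.v, min_le_right p.v q.v, le_max_left q.u r.u, le_max_right q.u r.u, min_le_left q.v r.v, min_le_right q.v r.v]
    · rw [max_eq_left h, min_eq_right h']
      linarith [le_max_left p.u q.u, le_max_right p.u q.u, min_le_left p.v q.v, min_le_right p.v q.v, le_max_left q.u r.u, le_max_right q.u r.u, min_le_left q.v r.v, min_le_right q.v r.v]
  have h2 := sz_le_jn_right p q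
  have h3 := sz_le_jn_left q r
  have h4 := sz_pos q
  nlinarith [mul_nonneg (sub_nonneg.2 h2) (sub_nonneg.2 h3)]

/-- interval part of the distance -/
noncomputable def di (p q : Pt) : ℝ := 2 * log (jn p q) - log (sz p) - log (sz q)

theorem di_nonneg (p q : Pt) : 0 ≤ di p q := by
  unfold di
  have h1 := Real.log_le_log (sz_pos p) (sz_le_jn_left p q)
  have h2 := Real.log_le_log (sz_pos q) (sz_le_jn_right p q)
  linarith

theorem di_ge (p q : Pt) : log (sz p) - log (sz q) ≤ di p q := by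
  unfold di
  have h1 := Real.log_le_log (sz_pos p) (sz_le_jn_left p q)
  linarith

theorem di_comm (p q : Pt) : di p q = di q p := by
  unfold di; rw [jn_comm]; ring

theorem di_self (p : Pt) : di p p = 0 := by
  unfold di; rw [jn_self]; ring

theorem di_triangle (p q r : Pt) : di p r ≤ di p q + di q r := by
  unfold di
  have h := Real.log_le_log (mul_pos (jn_pos p r) (sz_pos q)) (jn_mul p q r)
  rw [Real.log_mul (jn_pos p r).ne' (sz_pos q).ne', Real.log_mul (jn_pos p q).ne' (jn_pos q r).ne'] at h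
  linarith

theorem di_eq_zero {p q : Pt} (h : di p q ≤ 0) : p.v = q.v ∧ p.u = q.u := by
  unfold di at h
  have h1 := Real.log_le_log (sz_pos p) (sz_le_jn_left p q)
  have h2 := Real.log_le_log (sz_pos q) (sz_le_jn_right p q)
  have e1 : log (sz p) = log (jn p q) := by linarith
  have e2 : log (sz q) = log (jn p q) := by linarith
  have e1' := Real.log_injOn_pos (Set.mem_Ioi.2 (sz_pos p)) (Set.mem_Ioi.2 (jn_pos p q)) e1
  have e2' := Real.log_injOn_pos (Set.mem_Ioi.2 (sz_pos q)) (Set.mem_Ioi.2 (jn_pos p q)) e2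
  unfold sz jn at e1' e2'
  constructor <;>
  linarith [le_max_left p.u q.u, le_max_right p.u q.u, min_le_left p.v q.v, min_le_right p.v q.v]

noncomputable def dd (p q : Pt) : ℝ := max (di p q + |p.e - q.e|) (|p.a - q.a| / 4)

noncomputable instance : MetricSpace Pt where
  dist := dd
  dist_self p := by
    show dd p p = 0
    unfold dd; rw [di_self]; simp
  dist_comm p q := by
    show dd p q = dd q p
    unfold dd; rw [di_comm, abs_sub_comm, abs_sub_comm p.a]
  dist_triangle p q r := by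
    show dd p r ≤ dd p q + dd q r
    unfold dd
    have h1 := di_triangle p q r
    have h2 : |p.e - r.e| ≤ |p.e - q.e| + |q.e - r.e| := abs_sub_le _ _ _
    have h3 : |p.a - r.a| ≤ |p.a - q.a| + |q.a - r.a| := abs_sub_le _ _ _
    apply max_le
    · linarith [le_max_left (di p q + |p.e - q.e|) (|p.a - q.a| / 4), le_max_left (di q r + |q.e - r.e|) (|q.a - r.a| / 4)]
    · linarith [le_max_right (di p q + |p.e - q.e|) (|p.a - q.a| / 4), le_max_right (di q r + |q.e - r.e|) (|q.a - r.a| / 4)]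
  eq_of_dist_eq_zero {p q} h := by
    change dd p q = 0 at h
    unfold dd at h
    have h1 := le_max_left (di p q + |p.e - q.e|) (|p.a - q.a| / 4)
    have h2 := le_max_right (di p q + |p.e - q.e|) (|p.a - q.a| / 4)
    rw [h] at h1 h2
    have h3 := di_nonneg p q
    have h4 := abs_nonneg (p.e - q.e)
    have h5 := abs_nonneg (p.a - q.a)
    obtain ⟨h6, h7⟩ := di_eq_zero (p := p) (q := q) (by linarith)
    have h8 : p.e - q.e = 0 := abs_eq_zero.1 (by linarith)
    have h9 : p.a - q.a = 0 := abs_eq_zero.1 (by linarith)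
    exact Pt.ext' h6 h7 (by linarith) (by linarith)

theorem dist_def (p q : Pt) : dist p q = max (di p q + |p.e - q.e|) (|p.a - q.a| / 4) := rfl

theorem di_le_dist (p q : Pt) : di p q + |p.e - q.e| ≤ dist p q := le_max_left _ _

theorem lab_le_dist (p q : Pt) : |p.a - q.a| / 4 ≤ dist p q := le_max_right _ _

/-- the level -/
noncomputable def lv (p : Pt) : ℝ := log (sz p) + p.e

theorem lv_sub_le (p q : Pt) : lv p - lv q ≤ dist p q := by
  have h1 := di_ge p q
  have h2 := di_le_dist p q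
  have h3 := le_abs_self (p.e - q.e)
  unfold lv; linarith

theorem di_nested {p q : Pt} (h1 : p.v ≤ q.v) (h2 : q.u ≤ p.u) :
    di p q = log (sz p) - log (sz q) := by
  have : jn p q = sz p := by
    unfold jn sz; rw [max_eq_left h2, min_eq_left h1]
  unfold di; rw [this]; ring

/-- nested points with label control -/
theorem dist_nested_le {p q : Pt} {d : ℝ} (h1 : p.v ≤ q.v) (h2 : q.u ≤ p.u) (h3 : q.e ≤ p.e)
    (h4 : lv p - lv q ≤ d) (h5 : |p.a - q.a| ≤ 4 * d) : dist p q ≤ d := by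
  rw [dist_def, di_nested h1 h2, abs_of_nonneg (by linarith : 0 ≤ p.e - q.e)]
  unfold lv at h4
  apply max_le <;> linarith


/-! ### the range of a lower player -/

noncomputable def rt (t : ℝ) (c : Pt) : ℝ := sqrt (sz c * exp (-t))

noncomputable def klo (t : ℝ) (c : Pt) : ℝ := c.u - 4 * rt t c + 1

noncomputable def khi (t : ℝ) (c : Pt) : ℝ := c.v + 4 * rt t c - 1

theorem rt_nonneg (t : ℝ) (c : Pt) : 0 ≤ rt t c := sqrt_nonneg _

theorem rt_pos (t : ℝ) (c : Pt) : 0 < rt t c := sqrt_pos.2 (mul_pos (sz_pos c) (exp_pos _))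

theorem rt_sq (t : ℝ) (c : Pt) : rt t c ^ 2 = sz c * exp (-t) :=
  sq_sqrt (mul_pos (sz_pos c) (exp_pos _)).le

theorem rt_sq' (t : ℝ) (c : Pt) : rt t c ^ 2 * exp t = sz c := by
  rw [rt_sq, mul_assoc, ← exp_add]; simp

theorem k_size (t : ℝ) (c : Pt) : 1 + (khi t c - klo t c) = 8 * rt t c - rt t c ^ 2 * exp t := by
  rw [rt_sq']; unfold khi klo sz; ring

theorem k_nested {t t' : ℝ} {c c' : Pt} (hd : dist c c' ≤ t' - t)
    (h16 : sz c' * exp t' ≤ 16) : klo t c ≤ klo t' c' ∧ khi t' c' ≤ khi t c := by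
  set A := rt t c with hA
  set B := rt t' c' with hB
  have hA2 : A ^ 2 * exp t = sz c := rt_sq' t c
  have hB2 : B ^ 2 * exp t' = sz c' := rt_sq' t' c'
  have hA0 : 0 < A := rt_pos t c
  have hB0 : 0 < B := rt_pos t' c'
  have het := exp_pos t
  have het' := exp_pos t'
  set J := jn c c' with hJ
  have hJ0 : 0 < J := jn_pos c c'
  have hdi : di c c' ≤ t' - t := by
    have := di_le_dist c c'
    have := abs_nonneg (c.e - c'.e)
    linarith
  have hJ2 : J ^ 2 ≤ (A * B * exp t') ^ 2 := by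
    have h1 : log (J ^ 2) ≤ log (sz c * sz c' * exp (t' - t)) := by
      rw [Real.log_mul (mul_pos (sz_pos c) (sz_pos c')).ne' (exp_pos _).ne', Real.log_mul (sz_pos c).ne' (sz_pos c').ne',
        Real.log_exp, Real.log_pow]
      unfold di at hdi
      push_cast
      linarith
    have h2 := (Real.log_le_log_iff (by positivity) (mul_pos (mul_pos (sz_pos c) (sz_pos c')) (exp_pos _))).1 h1
    have h3 : sz c * sz c' * exp (t' - t) = (A * B * exp t') ^ 2 := by
      rw [← hA2, ← hB2, exp_sub]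
      field_simp
    rw [h3] at h2
    exact h2
  have hJ3 : J ≤ A * B * exp t' := by
    have := abs_le_of_sq_le_sq' hJ2 (by positivity)
    exact this.2
  have hBt : B * exp t' ≤ 4 := by
    have h1 : (B * exp t') ^ 2 ≤ 4 ^ 2 := by
      have : (B * exp t') ^ 2 = sz c' * exp t' := by rw [← hB2]; ring
      rw [this]; linarith
    exact (abs_le_of_sq_le_sq' h1 (by norm_num)).2
  have hJr : sz c' ≤ J := sz_le_jn_right c c'
  have hAB : B ≤ A := by
    have h1 : B * (B * exp t') ≤ A * (B * exp t') := by nlinarith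
    exact le_of_mul_le_mul_right h1 (by positivity)
  have hkey : J - sz c' ≤ 4 * (A - B) := by
    have h1 : J - sz c' ≤ B * exp t' * (A - B) := by rw [← hB2]; nlinarith
    nlinarith
  have e1 : sz c' + (c.u - c'.u) ≤ J := by
    rw [hJ]; unfold jn sz
    linarith [le_max_left c.u c'.u, min_le_right c.v c'.v]
  have e2 : sz c' + (c'.v - c.v) ≤ J := by
    rw [hJ]; unfold jn sz
    linarith [le_max_right c.u c'.u, min_le_left c.v c'.v]
  constructor
  · unfold klo; linarith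
  · unfold khi; linarith

/-! ### the playing field -/

/-- legal points -/
def Legal (A : Set (ℝ × ℝ)) (p : Pt) : Prop :=
  (p.e = 0 ∧ p.a = 0 ∧ p.u - p.v ≤ 5) ∨
  (p.u - p.v = 5 ∧ 0 < p.e ∧ p.e < log (4 / 3)) ∨
  (p.u - p.v = 5 ∧ p.e = log (4 / 3) ∧ (p.v, p.a) ∈ A) ∨
  (5 < p.u - p.v ∧ p.e = log (4 / 3))

theorem log43_pos : 0 < log (4 / 3 : ℝ) := Real.log_pos (by norm_num)

theorem legal_low {A : Set (ℝ × ℝ)} {p : Pt} (h : Legal A p) (hl : lv p ≤ log 6) :
    p.e = 0 ∧ p.a = 0 ∧ p.u - p.v ≤ 5 := by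
  rcases h with h | h | h | h
  · exact h
  · exfalso
    have : sz p = 6 := by unfold sz; linarith
    unfold lv at hl; rw [this] at hl; linarith
  · exfalso
    have : sz p = 6 := by unfold sz; linarith
    unfold lv at hl; rw [this] at hl; linarith [log43_pos]
  · exfalso
    have : (6 : ℝ) ≤ sz p := by unfold sz; linarith
    have := Real.log_le_log (by norm_num) this
    unfold lv at hl; linarith [log43_pos]

theorem log8_eq : log 8 = log 6 + log (4 / 3 : ℝ) := by
  rw [← Real.log_mul (by norm_num) (by norm_num)]; norm_num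

theorem legal_gate {A : Set (ℝ × ℝ)} {p : Pt} (h : Legal A p) (hl : lv p = log 8) :
    p.u - p.v = 5 ∧ p.e = log (4 / 3) ∧ (p.v, p.a) ∈ A := by
  rw [log8_eq] at hl
  rcases h with h | h | h | h
  · exfalso
    have h1 : sz p ≤ 6 := by unfold sz; linarith
    have := Real.log_le_log (sz_pos p) h1
    unfold lv at hl; rw [h.1] at hl; linarith [log43_pos]
  · exfalso
    have : sz p = 6 := by unfold sz; linarith
    unfold lv at hl; rw [this] at hl; linarith
  · exact h
  · exfalso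
    have h1 : (6 : ℝ) < sz p := by unfold sz; linarith
    have := Real.log_lt_log (by norm_num) h1
    unfold lv at hl; rw [h.2] at hl; linarith


end PartB

section PartC

open Cardinal

theorem bernstein {ι β : Type} (P Q : ι → Set β) (c : Cardinal.{0}) (hc : ℵ₀ ≤ c) (hι : #ι ≤ c)
    (hP : ∀ i, c ≤ #(P i)) (hQ : ∀ i, c ≤ #(Q i)) :
    ∃ A : Set β, ∀ i, (∃ p ∈ P i, p ∉ A) ∧ (∃ q ∈ Q i, q ∈ A) := by
  classical
  obtain ⟨r, wo, hr⟩ := Cardinal.exists_ord_eq ι
  have hsmall : ∀ i : ι, #{ j // r j i } < c := by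
    intro i
    have h := Cardinal.card_typein_lt (r := r) i hr
    rw [Ordinal.card_typein] at h
    exact lt_of_lt_of_le h hι
  have hex : ∀ (i : ι) (prev : ∀ j, r j i → β × β), ∃ pq : β × β,
      pq.1 ∈ P i ∧ pq.2 ∈ Q i ∧ pq.1 ≠ pq.2 ∧
      ∀ j (hj : r j i), pq.1 ≠ (prev j hj).1 ∧ pq.1 ≠ (prev j hj).2 ∧
        pq.2 ≠ (prev j hj).1 ∧ pq.2 ≠ (prev j hj).2 := by
    intro i prev
    set S1 : Set β := Set.range (fun x : { j // r j i } => (prev x.1 x.2).1) with hS1
    set S2 : Set β := Set.range (fun x : { j // r j i } => (prev x.1 x.2).2) with hS2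
    have h1 : #S1 < c := lt_of_le_of_lt Cardinal.mk_range_le (hsmall i)
    have h2 : #S2 < c := lt_of_le_of_lt Cardinal.mk_range_le (hsmall i)
    have h12 : #(S1 ∪ S2 : Set β) < c :=
      lt_of_le_of_lt (Cardinal.mk_union_le _ _) (Cardinal.add_lt_of_lt hc h1 h2)
    obtain ⟨p, hp1, hp2⟩ := Cardinal.sdiff_nonempty_of_mk_lt_mk (lt_of_lt_of_le h12 (hP i))
    have h3 : #(S1 ∪ S2 ∪ {p} : Set β) < c :=
      lt_of_le_of_lt (Cardinal.mk_union_le _ _) (Cardinal.add_lt_of_lt hc h12 (by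
        rw [Cardinal.mk_singleton]; exact lt_of_lt_of_le Cardinal.one_lt_aleph0 hc))
    obtain ⟨q, hq1, hq2⟩ := Cardinal.sdiff_nonempty_of_mk_lt_mk (lt_of_lt_of_le h3 (hQ i))
    refine ⟨(p, q), hp1, hq1, ?_, ?_⟩
    · intro h
      apply hq2
      right
      exact h.symm
    · intro j hj
      refine ⟨?_, ?_, ?_, ?_⟩
      · intro h; apply hp2; left; exact ⟨⟨j, hj⟩, h.symm⟩
      · intro h; apply hp2; right; exact ⟨⟨j, hj⟩, h.symm⟩
      · intro h; apply hq2; left; left; exact ⟨⟨j, hj⟩, h.symm⟩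
      · intro h; apply hq2; left; right; exact ⟨⟨j, hj⟩, h.symm⟩
  choose step hstep using hex
  have wf : WellFounded r := wo.wf
  let F : ι → β × β := wf.fix step
  have hF : ∀ i, F i = step i (fun j _ => F j) := fun i => wf.fix_eq step i
  have hF1 : ∀ i, (F i).1 ∈ P i := fun i => by rw [hF]; exact (hstep i _).1
  have hF2 : ∀ i, (F i).2 ∈ Q i := fun i => by rw [hF]; exact (hstep i _).2.1
  have hF3 : ∀ i, (F i).1 ≠ (F i).2 := fun i => by
    have := (hstep i (fun j _ => F j)).2.2.1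
    rw [← hF] at this; exact this
  have hF4 : ∀ i j, r j i → (F i).1 ≠ (F j).2 ∧ (F i).2 ≠ (F j).1 := fun i j hj => by
    have := (hstep i (fun j _ => F j)).2.2.2 j hj
    rw [← hF] at this
    exact ⟨this.2.1, this.2.2.1⟩
  refine ⟨Set.range (fun i => (F i).2), fun i => ⟨⟨(F i).1, hF1 i, ?_⟩, ⟨(F i).2, hF2 i, ⟨i, rfl⟩⟩⟩⟩
  rintro ⟨j, hj⟩
  simp only at hj
  rcases trichotomous_of r i j with h | h | h
  · exact (hF4 j i h).2 hj
  · subst h; exact hF3 i hj.symm
  · exact (hF4 i j h).1 hj.symm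

/-- the first n entries -/
def pre (b : ℕ → Bool) (n : ℕ) : List Bool := (List.range n).map b

theorem pre_succ (b : ℕ → Bool) (n : ℕ) : pre b (n + 1) = pre b n ++ [b n] := by
  unfold pre; rw [List.range_succ, List.map_append]; rfl

theorem pre_length (b : ℕ → Bool) (n : ℕ) : (pre b n).length = n := by
  unfold pre; simp

open Classical in
noncomputable def LL (W : List Bool → ℝ) (b : ℕ → Bool) : ℝ :=
  if h : ∃ L, Filter.Tendsto (fun n => W (pre b n)) Filter.atTop (nhds L) then h.choose else 0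

theorem LL_eq {W : List Bool → ℝ} {b : ℕ → Bool} {L : ℝ}
    (h : Filter.Tendsto (fun n => W (pre b n)) Filter.atTop (nhds L)) : LL W b = L := by
  have h' : ∃ L, Filter.Tendsto (fun n => W (pre b n)) Filter.atTop (nhds L) := ⟨L, h⟩
  unfold LL
  rw [dif_pos h']
  exact tendsto_nhds_unique h'.choose_spec h

theorem ac_set (x y : (ℕ → Bool) → ℝ) (hx : Function.Injective x) (hy : Function.Injective y) :
    ∃ A : Set (ℝ × ℝ), ∀ W : List Bool → ℝ,
      (∃ b, (x b, LL W b) ∉ A) ∧ (∃ b, (LL W b, y b) ∈ A) := by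
  have c1 : #(List Bool → ℝ) ≤ 𝔠 := by
    have h1 : #(List Bool) = ℵ₀ := Cardinal.mk_list_eq_aleph0 _
    rw [← Cardinal.power_def, h1, Cardinal.mk_real, Cardinal.continuum_power_aleph0]
  have c0 : #(ℕ → Bool) = 𝔠 := by
    rw [← Cardinal.power_def, Cardinal.mk_bool, Cardinal.mk_nat, Cardinal.two_power_aleph0]
  have c2 : ∀ W : List Bool → ℝ, 𝔠 ≤ #(Set.range (fun b => (x b, LL W b)) : Set (ℝ × ℝ)) := by
    intro W
    rw [Cardinal.mk_range_eq, c0]
    intro b b' h
    exact hx (congrArg Prod.fst h)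
  have c3 : ∀ W : List Bool → ℝ, 𝔠 ≤ #(Set.range (fun b => (LL W b, y b)) : Set (ℝ × ℝ)) := by
    intro W
    rw [Cardinal.mk_range_eq, c0]
    intro b b' h
    exact hy (congrArg Prod.snd h)
  obtain ⟨A, hA⟩ := bernstein (ι := List Bool → ℝ) (β := ℝ × ℝ)
    (fun W => Set.range (fun b => (x b, LL W b))) (fun W => Set.range (fun b => (LL W b, y b)))
    𝔠 Cardinal.aleph0_le_continuum c1 c2 c3
  refine ⟨A, fun W => ?_⟩
  obtain ⟨⟨p, ⟨b, hb⟩, hp⟩, ⟨q, ⟨b', hb'⟩, hq⟩⟩ := hA W
  exact ⟨⟨b, by simp only at hb; rw [hb]; exact hp⟩, ⟨b', by simp only at hb'; rw [hb']; exact hq⟩⟩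


end PartC

section PartD
open Real


/-! ### general facts on unit speed paths -/

section Paths
variable {X : Type} [MetricSpace X]

theorem lip_of {f : NNReal → X} (h : ∀ s t : NNReal, s ≤ t → dist (f s) (f t) ≤ (t : ℝ) - s) :
    LipschitzWith 1 f := by
  apply LipschitzWith.of_dist_le_mul
  intro s t
  rw [NNReal.coe_one, one_mul, NNReal.dist_eq]
  rcases le_total s t with hst | hst
  · have h1 := h s t hst
    rw [abs_sub_comm, abs_of_nonneg (sub_nonneg.2 (NNReal.coe_le_coe.2 hst))]; exact h1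
  · have h1 := h t s hst
    rw [dist_comm, abs_of_nonneg (sub_nonneg.2 (NNReal.coe_le_coe.2 hst))]; exact h1

theorem of_lip {f : NNReal → X} (h : LipschitzWith 1 f) {s t : NNReal} (hst : s ≤ t) :
    dist (f s) (f t) ≤ (t : ℝ) - s := by
  have h1 := h.dist_le_mul s t
  rw [NNReal.coe_one, one_mul, NNReal.dist_eq, abs_sub_comm,
    abs_of_nonneg (sub_nonneg.2 (NNReal.coe_le_coe.2 hst))] at h1
  exact h1

open Classical in
noncomputable def glue (F G : NNReal → X) (τ : NNReal) : NNReal → X :=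
  fun t => if t ≤ τ then F t else G t

omit [MetricSpace X] in
theorem glue_le {F G : NNReal → X} {τ t : NNReal} (h : t ≤ τ) : glue F G τ t = F t := by
  unfold glue; rw [if_pos h]

omit [MetricSpace X] in
theorem glue_ge {F G : NNReal → X} {τ t : NNReal} (h : τ ≤ t) (he : F τ = G τ) :
    glue F G τ t = G t := by
  unfold glue
  by_cases h' : t ≤ τ
  · rw [if_pos h']
    have : t = τ := le_antisymm h' h
    rw [this, he]
  · rw [if_neg h']

theorem glue_lip {F G : NNReal → X} {τ : NNReal} (hF : LipschitzWith 1 F)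
    (hG : ∀ s t : NNReal, τ ≤ s → s ≤ t → dist (G s) (G t) ≤ (t : ℝ) - s) (h : F τ = G τ) :
    LipschitzWith 1 (glue F G τ) := by
  apply lip_of
  intro s t hst
  rcases le_total t τ with h1 | h1
  · rw [glue_le h1, glue_le (hst.trans h1)]
    exact of_lip hF hst
  · rcases le_total s τ with h2 | h2
    · rw [glue_le h2, glue_ge h1 h]
      have e1 := of_lip hF h2
      have e2 := hG τ t le_rfl h1
      have e3 := dist_triangle (F s) (F τ) (G t)
      rw [h] at e3 e1
      linarith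
    · rw [glue_ge h1 h, glue_ge h2 h]
      exact hG s t h2 hst

open Filter Topology in
theorem limit_path (F : ℕ → NNReal → X) (t : ℕ → NNReal) (p : X)
    (hF : ∀ n, LipschitzWith 1 (F n)) (hmono : Monotone t)
    (hagree : ∀ n, ∀ s ≤ t n, F (n + 1) s = F n s)
    (hconst : ∀ n, ∀ s, t n ≤ s → F n s = F n (t n))
    (hp : Tendsto (fun n => F n (t n)) atTop (𝓝 p)) :
    ∃ G : NNReal → X, LipschitzWith 1 G ∧ (∀ n, ∀ s ≤ t n, G s = F n s) ∧
      (∀ s, (∀ n, t n ≤ s) → G s = p) := by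
  classical
  have hag : ∀ n m, n ≤ m → ∀ s ≤ t n, F m s = F n s := by
    intro n m hnm
    induction m, hnm using Nat.le_induction with
    | base => intro s _; rfl
    | succ m hm ih =>
      intro s hs
      rw [hagree m s (hs.trans (hmono hm)), ih s hs]
  let G : NNReal → X := fun s => if h : ∃ N, s ≤ t N then F (Nat.find h) s else p
  have hG1 : ∀ n, ∀ s ≤ t n, G s = F n s := by
    intro n s hs
    have h : ∃ N, s ≤ t N := ⟨n, hs⟩
    have h1 : G s = F (Nat.find h) s := dif_pos h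
    rw [h1]
    exact (hag _ n (Nat.find_min' h hs) s (Nat.find_spec h)).symm
  have hG2 : ∀ s, Tendsto (fun n => F n s) atTop (𝓝 (G s)) := by
    intro s
    by_cases h : ∃ N, s ≤ t N
    · obtain ⟨N, hN⟩ := h
      rw [hG1 N s hN]
      apply tendsto_const_nhds.congr'
      filter_upwards [eventually_ge_atTop N] with m hm
      exact (hag N m hm s hN).symm
    · have h1 : G s = p := dif_neg h
      rw [h1]
      push Not at h
      refine hp.congr (fun n => ?_)
      exact (hconst n s (h n).le).symm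
  refine ⟨G, ?_, hG1, ?_⟩
  · apply lip_of
    intro s s' hs
    have h1 : Tendsto (fun n => dist (F n s) (F n s')) atTop (𝓝 (dist (G s) (G s'))) :=
      (hG2 s).dist (hG2 s')
    exact le_of_tendsto h1 (Eventually.of_forall (fun n => of_lip (hF n) hs))
  · intro s hs
    have h1 : Tendsto (fun n => F n s) atTop (𝓝 p) := hp.congr (fun n => (hconst n s (hs n)).symm)
    exact tendsto_nhds_unique (hG2 s) h1

end Paths

/-! ### the binary expansion functions -/

noncomputable def rr (n : ℕ) : ℝ := 1 - (1 / 3) ^ n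

theorem rr_zero : rr 0 = 0 := by unfold rr; norm_num

theorem rr_succ_sub (n : ℕ) : rr (n + 1) - rr n = 2 / 3 * (1 / 3) ^ n := by
  unfold rr; rw [pow_succ]; ring

theorem rr_mono : Monotone rr := by
  apply monotone_nat_of_le_succ
  intro n
  have := rr_succ_sub n
  have h : (0 : ℝ) < (1 / 3) ^ n := by positivity
  linarith

theorem rr_lt_one (n : ℕ) : rr n < 1 := by
  unfold rr
  have h : (0 : ℝ) < (1 / 3) ^ n := by positivity
  linarith

theorem rr_nonneg (n : ℕ) : 0 ≤ rr n := by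
  rw [← rr_zero]; exact rr_mono (Nat.zero_le n)

open Filter Topology in
theorem rr_tendsto : Tendsto rr atTop (𝓝 1) := by
  have h : Tendsto (fun n : ℕ => (1 : ℝ) - (1 / 3) ^ n) atTop (𝓝 (1 - 0)) :=
    (tendsto_pow_atTop_nhds_zero_of_lt_one (by norm_num) (by norm_num)).const_sub 1
  rw [sub_zero] at h
  exact h

noncomputable def cc (n : ℕ) (r : ℝ) : ℝ := min r (rr (n + 1)) - min r (rr n)

theorem cc_nonneg (n : ℕ) (r : ℝ) : 0 ≤ cc n r :=
  sub_nonneg.2 (min_le_min_left r (rr_mono (Nat.le_succ n)))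

theorem cc_mono (n : ℕ) {r r' : ℝ} (h : r ≤ r') : cc n r ≤ cc n r' := by
  have h1 : rr n ≤ rr (n + 1) := rr_mono (Nat.le_succ n)
  unfold cc
  rcases le_total r (rr n) with a | a <;> rcases le_total r (rr (n + 1)) with b | b <;>
  rcases le_total r' (rr n) with c | c <;> rcases le_total r' (rr (n + 1)) with d | d <;>
  simp only [min_eq_left, min_eq_right, a, b, c, d] <;> linarith

theorem cc_le (n : ℕ) (r : ℝ) : cc n r ≤ 2 / 3 * (1 / 3) ^ n := by
  rw [← rr_succ_sub]
  have h1 : rr n ≤ rr (n + 1) := rr_mono (Nat.le_succ n)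
  unfold cc
  rcases le_total r (rr n) with a | a <;> rcases le_total r (rr (n + 1)) with b | b <;>
  simp only [min_eq_left, min_eq_right, a, b] <;> linarith

theorem geo_summable : Summable (fun n : ℕ => (2 / 3 : ℝ) * (1 / 3) ^ n) :=
  (summable_geometric_of_lt_one (by norm_num) (by norm_num)).mul_left _

theorem cc_summable (r : ℝ) : Summable (fun n => cc n r) :=
  Summable.of_nonneg_of_le (fun n => cc_nonneg n r) (fun n => cc_le n r) geo_summable

noncomputable def tm (b : ℕ → Bool) (r : ℝ) (n : ℕ) : ℝ := cond (b n) (cc n r) 0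

theorem tm_nonneg (b : ℕ → Bool) (r : ℝ) (n : ℕ) : 0 ≤ tm b r n := by
  unfold tm; cases b n
  · exact le_rfl
  · exact cc_nonneg n r

theorem tm_le (b : ℕ → Bool) (r : ℝ) (n : ℕ) : tm b r n ≤ cc n r := by
  unfold tm; cases b n
  · exact cc_nonneg n r
  · exact le_rfl

theorem tm_summable (b : ℕ → Bool) (r : ℝ) : Summable (tm b r) :=
  Summable.of_nonneg_of_le (tm_nonneg b r) (tm_le b r) (cc_summable r)

noncomputable def xi (b : ℕ → Bool) (r : ℝ) : ℝ := ∑' n, tm b r n

theorem xi_mono (b : ℕ → Bool) {r r' : ℝ} (h : r ≤ r') : xi b r ≤ xi b r' := by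
  apply (tm_summable b r).tsum_le_tsum _ (tm_summable b r')
  intro n
  unfold tm; cases b n
  · exact le_rfl
  · exact cc_mono n h

open Filter Topology in
theorem cc_tsum {r : ℝ} (h0 : 0 ≤ r) (h1 : r ≤ 1) : ∑' n, cc n r = r := by
  have h2 := (cc_summable r).hasSum.tendsto_sum_nat
  have h3 : ∀ n, ∑ i ∈ Finset.range n, cc i r = min r (rr n) := by
    intro n
    have := Finset.sum_range_sub (fun i => min r (rr i)) n
    simp only [rr_zero, min_eq_right h0, sub_zero] at this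
    exact this
  have h4 : Tendsto (fun n => min r (rr n)) atTop (𝓝 (min r 1)) := tendsto_const_nhds.min rr_tendsto
  rw [min_eq_left h1] at h4
  have h5 : Tendsto (fun n => ∑ i ∈ Finset.range n, cc i r) atTop (𝓝 r) := by
    simp only [h3]; exact h4
  exact tendsto_nhds_unique h2 h5

theorem xi_add (b : ℕ → Bool) {r : ℝ} (h0 : 0 ≤ r) (h1 : r ≤ 1) :
    xi b r + xi (fun n => !b n) r = r := by
  unfold xi
  rw [← (tm_summable b r).tsum_add (tm_summable _ r)]
  conv_rhs => rw [← cc_tsum h0 h1]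
  congr 1
  ext n
  unfold tm; cases h : b n <;> simp [h]

theorem xi_sub_mono (b : ℕ → Bool) {r r' : ℝ} (h0 : 0 ≤ r) (h : r ≤ r') (h1 : r' ≤ 1) :
    r - xi b r ≤ r' - xi b r' := by
  have e1 := xi_add b h0 (h.trans h1)
  have e2 := xi_add b (h0.trans h) h1
  have e3 := xi_mono (fun n => !b n) h
  linarith

theorem xi_zero (b : ℕ → Bool) : xi b 0 = 0 := by
  have e1 := xi_add b (le_refl (0:ℝ)) zero_le_one
  have h : ∀ b : ℕ → Bool, 0 ≤ xi b 0 := fun b => tsum_nonneg (tm_nonneg b 0)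
  have := h b
  have := h (fun n => !b n)
  linarith

theorem xi_congr {b b' : ℕ → Bool} {N : ℕ} (h : ∀ n < N, b n = b' n) {r : ℝ} (hr : r ≤ rr N) :
    xi b r = xi b' r := by
  unfold xi
  congr 1
  ext n
  by_cases hn : n < N
  · unfold tm; rw [h n hn]
  · have h1 : r ≤ rr n := hr.trans (rr_mono (not_lt.1 hn))
    have h2 : r ≤ rr (n + 1) := h1.trans (rr_mono (Nat.le_succ n))
    have h3 : cc n r = 0 := by unfold cc; rw [min_eq_left h1, min_eq_left h2]; ring
    unfold tm; rw [h3]; cases b n <;> cases b' n <;> rfl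

theorem xi_one (b : ℕ → Bool) : xi b 1 = 2 / 3 * Cardinal.cantorFunction (1 / 3) b := by
  unfold xi Cardinal.cantorFunction
  rw [← tsum_mul_left]
  congr 1
  ext n
  have h3 : cc n 1 = 2 / 3 * (1 / 3) ^ n := by
    rw [← rr_succ_sub]; unfold cc
    rw [min_eq_right (rr_lt_one _).le, min_eq_right (rr_lt_one _).le]
  unfold tm Cardinal.cantorFunctionAux
  rw [h3]
  cases b n <;> simp

theorem xi_one_inj : Function.Injective (fun b => xi b 1) := by
  intro b b' h
  simp only [xi_one] at h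
  exact Cardinal.cantorFunction_injective (c := 1 / 3) (by norm_num) (by norm_num) (by linarith)


end PartD

section PartE
open Real


/-! ### the space and the extreme Christian paths -/

abbrev XX (A : Set (ℝ × ℝ)) : Type := { p : Pt // Legal A p }

theorem log2_nn : (0 : ℝ) ≤ log 2 := Real.log_nonneg (by norm_num)
theorem log4_nn : (0 : ℝ) ≤ log 4 := Real.log_nonneg (by norm_num)
theorem log16_nn : (0 : ℝ) ≤ log 16 := Real.log_nonneg (by norm_num)

noncomputable def Tg : NNReal := ⟨log 2, log2_nn⟩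
noncomputable def Th : NNReal := ⟨log 4, log4_nn⟩
noncomputable def TT : NNReal := ⟨log 16, log16_nn⟩

theorem coe_Tg : (Tg : ℝ) = log 2 := rfl
theorem coe_Th : (Th : ℝ) = log 4 := rfl
theorem coe_TT : (TT : ℝ) = log 16 := rfl

theorem l4 : log (4 : ℝ) = 2 * log 2 := by
  rw [show (4 : ℝ) = 2 ^ 2 by norm_num, Real.log_pow]; norm_num
theorem l8 : log (8 : ℝ) = 3 * log 2 := by
  rw [show (8 : ℝ) = 2 ^ 3 by norm_num, Real.log_pow]; norm_num
theorem l16 : log (16 : ℝ) = 4 * log 2 := by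
  rw [show (16 : ℝ) = 2 ^ 4 by norm_num, Real.log_pow]; norm_num
theorem l2pos : 0 < log (2 : ℝ) := Real.log_pos (by norm_num)

def yPt : Pt := ⟨0, 0, 0, 0, le_rfl⟩
noncomputable def xPt : Pt := ⟨-11 / 2, 11 / 2, log (4 / 3), 0, by norm_num⟩

def y0 (A : Set (ℝ × ℝ)) : XX A := ⟨yPt, Or.inl ⟨rfl, rfl, by simp [yPt]⟩⟩
noncomputable def x0 (A : Set (ℝ × ℝ)) : XX A :=
  ⟨xPt, Or.inr (Or.inr (Or.inr ⟨by simp [xPt]; norm_num, rfl⟩))⟩

theorem lv_x0 : lv xPt = log 16 := by
  unfold lv sz xPt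
  simp only
  rw [← Real.log_mul (by norm_num) (by norm_num)]
  norm_num

theorem lv_y0 : lv yPt = 0 := by
  unfold lv sz yPt; simp

noncomputable def ru (t : ℝ) : ℝ := min (exp t - 1) 3

theorem ru_nonneg {t : ℝ} (h : 0 ≤ t) : 0 ≤ ru t := by
  unfold ru
  apply le_min _ (by norm_num)
  have := Real.add_one_le_exp t
  linarith

theorem ru_le (t : ℝ) : ru t ≤ 3 := min_le_right _ _

theorem ru_mono {s t : ℝ} (h : s ≤ t) : ru s ≤ ru t :=
  min_le_min_right _ (by linarith [Real.exp_le_exp.2 h])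

theorem log_ru (t : ℝ) : log (1 + ru t) = min t (log 4) := by
  unfold ru
  rcases le_total t (log 4) with h | h
  · have h1 : exp t ≤ 4 := by
      rw [← Real.exp_log (show (0:ℝ) < 4 by norm_num)]; exact Real.exp_le_exp.2 h
    rw [min_eq_left h, min_eq_left (by linarith)]
    rw [add_sub_cancel, Real.log_exp]
  · have h1 : 4 ≤ exp t := by
      rw [← Real.exp_log (show (0:ℝ) < 4 by norm_num)]; exact Real.exp_le_exp.2 h
    rw [min_eq_right h, min_eq_right (by linarith)]
    norm_num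

noncomputable def upP (m : ℝ → ℝ) (t : NNReal) : Pt :=
  ⟨-m (ru t), ru t - m (ru t), 0, 0, by have : 0 ≤ ru (t : ℝ) := ru_nonneg t.2; linarith⟩

theorem upP_legal (A : Set (ℝ × ℝ)) (m : ℝ → ℝ) (t : NNReal) : Legal A (upP m t) := by
  left
  refine ⟨rfl, rfl, ?_⟩
  unfold upP; simp only
  have := ru_le t
  linarith

theorem lv_upP (m : ℝ → ℝ) (t : NNReal) : lv (upP m t) = min (t : ℝ) (log 4) := by
  rw [← log_ru]; unfold lv sz upP; simp only; rw [add_zero]; congr 1; ring

def Good (m : ℝ → ℝ) : Prop := ∀ r r' : ℝ, 0 ≤ r → r ≤ r' → m r ≤ m r' ∧ r - m r ≤ r' - m r'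

theorem upP_dist {m : ℝ → ℝ} (hm : Good m) {s t : NNReal} (h : s ≤ t) :
    dist (upP m s) (upP m t) ≤ (t : ℝ) - s := by
  have h' : (s : ℝ) ≤ t := NNReal.coe_le_coe.2 h
  have hr := ru_mono h'
  obtain ⟨h1, h2⟩ := hm (ru s) (ru t) (ru_nonneg s.2) hr
  rw [dist_comm]
  apply dist_nested_le
  · unfold upP; simp only; linarith
  · unfold upP; simp only; linarith
  · unfold upP; simp only; exact le_rfl
  · rw [lv_upP, lv_upP]
    rcases le_total (t : ℝ) (log 4) with a | a <;> rcases le_total (s : ℝ) (log 4) with b | b <;>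
    simp only [min_eq_left, min_eq_right, a, b] <;> linarith
  · unfold upP; simp only [sub_self, abs_zero]; linarith

noncomputable def zd (t : ℝ) : ℝ := max 1 (min 4 (16 * exp (-t)))

theorem one_le_zd (t : ℝ) : 1 ≤ zd t := le_max_left _ _
theorem zd_le (t : ℝ) : zd t ≤ 4 := max_le (by norm_num) (min_le_left _ _)

theorem log_zd (t : ℝ) : log (zd t) = max 0 (min (log 4) (log 16 - t)) := by
  have h0 : log (16 * exp (-t)) = log 16 - t := by
    rw [Real.log_mul (by norm_num) (exp_pos _).ne', Real.log_exp]; ring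
  have hp : 0 < 16 * exp (-t) := by positivity
  have h1 : log (min 4 (16 * exp (-t))) = min (log 4) (log 16 - t) := by
    rcases le_total 4 (16 * exp (-t)) with h | h
    · have := Real.log_le_log (by norm_num) h
      rw [min_eq_left h, min_eq_left (by linarith)]
    · have := Real.log_le_log hp h
      rw [min_eq_right h, min_eq_right (by linarith), h0]
  unfold zd
  rw [← h1]
  have hq : 0 < min 4 (16 * exp (-t)) := lt_min (by norm_num) hp
  rcases le_total 1 (min 4 (16 * exp (-t))) with h | h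
  · rw [max_eq_right h, max_eq_right (Real.log_nonneg h)]
  · rw [max_eq_left h, max_eq_left (Real.log_nonpos hq.le h), Real.log_one]

theorem log_zd_anti {s t : ℝ} (h : s ≤ t) : log (zd t) ≤ log (zd s) := by
  rw [log_zd, log_zd]
  exact max_le_max le_rfl (min_le_min le_rfl (by linarith))

theorem log_zd_lip {s t : ℝ} (h : s ≤ t) : log (zd s) - log (zd t) ≤ t - s := by
  rw [log_zd, log_zd]
  rcases le_total (log 4) (log 16 - s) with a | a <;> rcases le_total (log 4) (log 16 - t) with b | b <;>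
  simp only [min_eq_left, min_eq_right, a, b]
  · linarith
  · rcases le_total 0 (log 16 - t) with c | c
    · rw [max_eq_right c, max_eq_right log4_nn]; linarith
    · rw [max_eq_left c, max_eq_right log4_nn]; linarith
  · rcases le_total 0 (log 16 - s) with c | c
    · rw [max_eq_right c, max_eq_right log4_nn]; linarith
    · rw [max_eq_left c, max_eq_right log4_nn]; linarith [log4_nn]
  · rcases le_total 0 (log 16 - s) with c | c <;> rcases le_total 0 (log 16 - t) with d | d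
    · rw [max_eq_right c, max_eq_right d]; linarith
    · rw [max_eq_right c, max_eq_left d]; linarith
    · rw [max_eq_left c, max_eq_right d]; linarith
    · rw [max_eq_left c, max_eq_left d]; linarith

theorem zd_anti {s t : ℝ} (h : s ≤ t) : zd t ≤ zd s := by
  have h1 := log_zd_anti h
  exact (Real.log_le_log_iff (by linarith [one_le_zd t]) (by linarith [one_le_zd s])).1 h1

/-- shrinking to a fixed right end point -/
noncomputable def dnR (p : ℝ) (t : NNReal) : Pt :=
  ⟨p - (zd t - 1), p, 0, 0, by linarith [one_le_zd t]⟩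

/-- shrinking to a fixed left end point -/
noncomputable def dnL (p : ℝ) (t : NNReal) : Pt :=
  ⟨p, p + (zd t - 1), 0, 0, by linarith [one_le_zd t]⟩

theorem dnR_legal (A : Set (ℝ × ℝ)) (p : ℝ) (t : NNReal) : Legal A (dnR p t) := by
  left; refine ⟨rfl, rfl, ?_⟩; unfold dnR; simp only; linarith [zd_le t]

theorem dnL_legal (A : Set (ℝ × ℝ)) (p : ℝ) (t : NNReal) : Legal A (dnL p t) := by
  left; refine ⟨rfl, rfl, ?_⟩; unfold dnL; simp only; linarith [zd_le t]

theorem lv_dnR (p : ℝ) (t : NNReal) : lv (dnR p t) = log (zd t) := by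
  unfold lv sz dnR; simp only; rw [add_zero]; congr 1; ring

theorem lv_dnL (p : ℝ) (t : NNReal) : lv (dnL p t) = log (zd t) := by
  unfold lv sz dnL; simp only; rw [add_zero]; congr 1; ring

theorem dnR_dist (p : ℝ) {s t : NNReal} (h : s ≤ t) : dist (dnR p s) (dnR p t) ≤ (t : ℝ) - s := by
  have h' : (s : ℝ) ≤ t := NNReal.coe_le_coe.2 h
  have hz := zd_anti h'
  apply dist_nested_le
  · unfold dnR; simp only; linarith
  · unfold dnR; simp only; exact le_rfl
  · unfold dnR; simp only; exact le_rfl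
  · rw [lv_dnR, lv_dnR]; exact log_zd_lip h'
  · unfold dnR; simp only [sub_self, abs_zero]; linarith

theorem dnL_dist (p : ℝ) {s t : NNReal} (h : s ≤ t) : dist (dnL p s) (dnL p t) ≤ (t : ℝ) - s := by
  have h' : (s : ℝ) ≤ t := NNReal.coe_le_coe.2 h
  have hz := zd_anti h'
  apply dist_nested_le
  · unfold dnL; simp only; exact le_rfl
  · unfold dnL; simp only; linarith
  · unfold dnL; simp only; exact le_rfl
  · rw [lv_dnL, lv_dnL]; exact log_zd_lip h'
  · unfold dnL; simp only [sub_self, abs_zero]; linarith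

noncomputable def mR (b : ℕ → Bool) (r : ℝ) : ℝ := xi b (min r 1)
noncomputable def mL (b : ℕ → Bool) (r : ℝ) : ℝ := xi b (min r 1) + max (r - 1) 0

theorem mR_good (b : ℕ → Bool) : Good (mR b) := by
  intro r r' h0 h
  have h1 : min r 1 ≤ min r' 1 := min_le_min_right _ h
  have h2 := xi_mono b h1
  have h3 := xi_sub_mono b (le_min h0 zero_le_one) h1 (min_le_right _ _)
  refine ⟨h2, ?_⟩
  unfold mR
  have h4 : r - min r 1 ≤ r' - min r' 1 := by
    rcases le_total r 1 with a | a <;> rcases le_total r' 1 with c | c <;>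
    simp only [min_eq_left, min_eq_right, a, c] <;> linarith
  linarith

theorem mL_good (b : ℕ → Bool) : Good (mL b) := by
  intro r r' h0 h
  have h1 : min r 1 ≤ min r' 1 := min_le_min_right _ h
  have h2 := xi_mono b h1
  have h3 := xi_sub_mono b (le_min h0 zero_le_one) h1 (min_le_right _ _)
  have h5 : max (r - 1) 0 ≤ max (r' - 1) 0 := max_le_max_right _ (by linarith)
  have h4 : ∀ r : ℝ, r = min r 1 + max (r - 1) 0 := by
    intro r
    rcases le_total r 1 with a | a
    · rw [min_eq_left a, max_eq_right (by linarith)]; ring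
    · rw [min_eq_right a, max_eq_left (by linarith)]; ring
  unfold mL
  refine ⟨by linarith, ?_⟩
  have e1 := h4 r
  have e2 := h4 r'
  linarith

noncomputable def gR (A : Set (ℝ × ℝ)) (b : ℕ → Bool) : NNReal → XX A :=
  glue (fun t => ⟨upP (mR b) t, upP_legal A _ t⟩) (fun t => ⟨dnR (3 - xi b 1) t, dnR_legal A _ t⟩) Th

noncomputable def gL (A : Set (ℝ × ℝ)) (b : ℕ → Bool) : NNReal → XX A :=
  glue (fun t => ⟨upP (mL b) t, upP_legal A _ t⟩) (fun t => ⟨dnL (-2 - xi b 1) t, dnL_legal A _ t⟩) Th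

theorem ru_Th : ru Th = 3 := by
  unfold ru; rw [coe_Th, Real.exp_log (by norm_num)]; norm_num

theorem zd_Th : zd Th = 4 := by
  unfold zd
  rw [coe_Th, Real.exp_neg, Real.exp_log (by norm_num)]; norm_num

theorem gR_join (A : Set (ℝ × ℝ)) (b : ℕ → Bool) :
    (⟨upP (mR b) Th, upP_legal A _ Th⟩ : XX A) = ⟨dnR (3 - xi b 1) Th, dnR_legal A _ Th⟩ := by
  apply Subtype.ext
  apply Pt.ext' <;> unfold upP dnR mR <;> simp only [ru_Th, zd_Th] <;> norm_num

theorem gL_join (A : Set (ℝ × ℝ)) (b : ℕ → Bool) :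
    (⟨upP (mL b) Th, upP_legal A _ Th⟩ : XX A) = ⟨dnL (-2 - xi b 1) Th, dnL_legal A _ Th⟩ := by
  apply Subtype.ext
  apply Pt.ext' <;> unfold upP dnL mL <;> simp only [ru_Th, zd_Th] <;> norm_num <;> ring

theorem gR_lip (A : Set (ℝ × ℝ)) (b : ℕ → Bool) : LipschitzWith 1 (gR A b) := by
  apply glue_lip
  · exact lip_of (fun s t h => upP_dist (mR_good b) h)
  · exact fun s t _ h => dnR_dist _ h
  · exact gR_join A b

theorem gL_lip (A : Set (ℝ × ℝ)) (b : ℕ → Bool) : LipschitzWith 1 (gL A b) := by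
  apply glue_lip
  · exact lip_of (fun s t h => upP_dist (mL_good b) h)
  · exact fun s t _ h => dnL_dist _ h
  · exact gL_join A b

theorem ru_zero : ru (0 : NNReal) = 0 := by
  unfold ru; simp

theorem gR_zero (A : Set (ℝ × ℝ)) (b : ℕ → Bool) : gR A b 0 = y0 A := by
  unfold gR; rw [glue_le zero_le]
  apply Subtype.ext
  show upP (mR b) 0 = yPt
  apply Pt.ext' <;> unfold upP yPt mR <;> simp only [ru_zero] <;> simp [xi_zero]

theorem gL_zero (A : Set (ℝ × ℝ)) (b : ℕ → Bool) : gL A b 0 = y0 A := by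
  unfold gL; rw [glue_le zero_le]
  apply Subtype.ext
  show upP (mL b) 0 = yPt
  apply Pt.ext' <;> unfold upP yPt mL <;> simp only [ru_zero] <;> simp [xi_zero]

theorem Tg_le_Th : Tg ≤ Th := by
  rw [← NNReal.coe_le_coe, coe_Tg, coe_Th, l4]; linarith [l2pos]

theorem gR_eq_gL (A : Set (ℝ × ℝ)) (b : ℕ → Bool) {t : NNReal} (h : t ≤ Tg) :
    gR A b t = gL A b t := by
  unfold gR gL
  rw [glue_le (h.trans Tg_le_Th), glue_le (h.trans Tg_le_Th)]
  have h1 : ru t ≤ 1 := by
    unfold ru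
    have : exp (t : ℝ) ≤ 2 := by
      rw [← Real.exp_log (show (0:ℝ) < 2 by norm_num)]
      exact Real.exp_le_exp.2 (NNReal.coe_le_coe.2 h)
    exact (min_le_left _ _).trans (by linarith)
  apply Subtype.ext
  show upP (mR b) t = upP (mL b) t
  have h2 : mL b (ru t) = mR b (ru t) := by
    unfold mL mR; rw [max_eq_right (by linarith)]; ring
  apply Pt.ext' <;> unfold upP <;> simp only [h2]

theorem gR_congr (A : Set (ℝ × ℝ)) {b b' : ℕ → Bool} {N : ℕ} (hb : ∀ n < N, b n = b' n)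
    {t : NNReal} (h : exp (t : ℝ) ≤ 1 + rr N) : gR A b t = gR A b' t := by
  have h2 : t ≤ Th := by
    rw [← NNReal.coe_le_coe, coe_Th, Real.le_log_iff_exp_le (by norm_num)]
    linarith [rr_lt_one N]
  unfold gR
  rw [glue_le h2, glue_le h2]
  apply Subtype.ext
  show upP (mR b) t = upP (mR b') t
  have h3 : ru t ≤ rr N := by
    unfold ru; exact (min_le_left _ _).trans (by linarith)
  have h4 : mR b (ru t) = mR b' (ru t) := by
    unfold mR; exact xi_congr hb ((min_le_left _ _).trans h3)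
  apply Pt.ext' <;> unfold upP <;> simp only [h4]

theorem gR_low (A : Set (ℝ × ℝ)) (b : ℕ → Bool) {t : NNReal} (h : t ≤ Th) :
    lv (gR A b t).1 = t := by
  unfold gR; rw [glue_le h]
  show lv (upP (mR b) t) = t
  have h' : (t : ℝ) ≤ log 4 := NNReal.coe_le_coe.2 h
  rw [lv_upP, min_eq_left h']

theorem gL_low (A : Set (ℝ × ℝ)) (b : ℕ → Bool) {t : NNReal} (h : t ≤ Th) :
    lv (gL A b t).1 = t := by
  unfold gL; rw [glue_le h]
  show lv (upP (mL b) t) = t
  have h' : (t : ℝ) ≤ log 4 := NNReal.coe_le_coe.2 h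
  rw [lv_upP, min_eq_left h']

theorem log_zd_mid {t : NNReal} (h1 : Th ≤ t) (h2 : t ≤ TT) : log (zd t) = log 16 - t := by
  have h1' : log 4 ≤ (t : ℝ) := NNReal.coe_le_coe.2 h1
  have h2' : (t : ℝ) ≤ log 16 := NNReal.coe_le_coe.2 h2
  rw [log_zd, min_eq_right, max_eq_right]
  · linarith
  · rw [l16, l4] at *; linarith

theorem gR_high (A : Set (ℝ × ℝ)) (b : ℕ → Bool) {t : NNReal} (h1 : Th ≤ t) (h2 : t ≤ TT) :
    lv (gR A b t).1 = log 16 - t ∧ (gR A b t).1.v ≤ 3 - xi b 1 ∧ 3 - xi b 1 ≤ (gR A b t).1.u := by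
  unfold gR; rw [glue_ge h1 (gR_join A b)]
  refine ⟨?_, ?_, ?_⟩
  · show lv (dnR _ t) = _
    rw [lv_dnR, log_zd_mid h1 h2]
  · show (dnR _ t).v ≤ _
    unfold dnR; simp only; linarith [one_le_zd t]
  · show _ ≤ (dnR _ t).u
    unfold dnR; simp only; exact le_rfl

theorem gL_high (A : Set (ℝ × ℝ)) (b : ℕ → Bool) {t : NNReal} (h1 : Th ≤ t) (h2 : t ≤ TT) :
    lv (gL A b t).1 = log 16 - t ∧ (gL A b t).1.v ≤ -2 - xi b 1 ∧ -2 - xi b 1 ≤ (gL A b t).1.u := by
  unfold gL; rw [glue_ge h1 (gL_join A b)]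
  refine ⟨?_, ?_, ?_⟩
  · show lv (dnL _ t) = _
    rw [lv_dnL, log_zd_mid h1 h2]
  · show (dnL _ t).v ≤ _
    unfold dnL; simp only; exact le_rfl
  · show _ ≤ (dnL _ t).u
    unfold dnL; simp only; linarith [one_le_zd t]

/-- a captured extreme path forces the Lion through a legal gate covering the end point -/
theorem capture {A : Set (ℝ × ℝ)} {f g : NNReal → XX A} {p : ℝ} (hf : LipschitzWith 1 f)
    (hf0 : f 0 = x0 A) (hlow : ∀ t ≤ Th, lv (g t).1 = t)
    (hhigh : ∀ t, Th ≤ t → t ≤ TT → lv (g t).1 = log 16 - t ∧ (g t).1.v ≤ p ∧ p ≤ (g t).1.u)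
    {s : NNReal} (hs : s ≤ TT) (hc : f s = g s) :
    (f Tg).1.u - (f Tg).1.v = 5 ∧ ((f Tg).1.v, (f Tg).1.a) ∈ A ∧ (f Tg).1.v ≤ p ∧ p ≤ (f Tg).1.u := by
  have hlow' : ∀ t : NNReal, log 16 - t ≤ lv (f t).1 := by
    intro t
    have h1 := of_lip hf (s := 0) (t := t) zero_le
    have h2 := lv_sub_le (f 0).1 (f t).1
    have h3 : dist (f 0).1 (f t).1 = dist (f 0) (f t) := rfl
    have h4 : lv (f 0).1 = log 16 := by rw [hf0]; exact lv_x0
    rw [h3, h4] at h2
    rw [NNReal.coe_zero] at h1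
    linarith
  have hsT : Th ≤ s := by
    by_contra hcon
    push Not at hcon
    have h1 := hlow s hcon.le
    have h2 := hlow' s
    rw [hc, h1] at h2
    have h3 : (s : ℝ) < log 4 := NNReal.coe_lt_coe.2 hcon
    rw [l16] at h2; rw [l4] at h3; linarith
  obtain ⟨e1, e2, e3⟩ := hhigh s hsT hs
  have hsg : Tg ≤ s := Tg_le_Th.trans hsT
  have hd := of_lip hf hsg
  have hd' : dist (f Tg).1 (f s).1 = dist (f Tg) (f s) := rfl
  have hlv : lv (f Tg).1 = log 8 := by
    apply le_antisymm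
    · have h2 := lv_sub_le (f Tg).1 (f s).1
      rw [hd', hc, e1] at h2
      rw [hc] at hd
      rw [coe_Tg] at hd
      rw [l8]; rw [l16] at h2; linarith
    · have := hlow' Tg
      rw [coe_Tg, l16] at this
      rw [l8]; linarith
  obtain ⟨k1, k2, k3⟩ := legal_gate (f Tg).2 hlv
  have hdi := di_le_dist (f Tg).1 (f s).1
  rw [hd'] at hdi
  rw [hc] at hdi hd
  have hszf : sz (f Tg).1 = 6 := by unfold sz; linarith
  have hgl : log (sz (g s).1) + (g s).1.e = log 16 - s := e1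
  have habs := le_abs_self ((f Tg).1.e - (g s).1.e)
  unfold di at hdi
  rw [hszf] at hdi
  rw [k2] at habs hdi
  rw [coe_Tg] at hd
  have h8 := log8_eq
  have hj : log (jn (f Tg).1 (g s).1) ≤ log 6 := by
    rw [l16] at hgl; rw [l8] at h8; linarith
  have hj' := (Real.log_le_log_iff (jn_pos _ _) (by norm_num)).1 hj
  unfold jn at hj'
  have m1 := le_max_left (f Tg).1.u (g s).1.u
  have m2 := le_max_right (f Tg).1.u (g s).1.u
  have m3 := min_le_left (f Tg).1.v (g s).1.v
  have m4 := min_le_right (f Tg).1.v (g s).1.v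
  refine ⟨k1, k3, by linarith, by linarith⟩


end PartE

section PartF
open Real


theorem exp_tau_nn (n : ℕ) : 0 ≤ log (1 + rr n) := Real.log_nonneg (by linarith [rr_nonneg n])

noncomputable def tau (n : ℕ) : NNReal := ⟨log (1 + rr n), exp_tau_nn n⟩

theorem coe_tau (n : ℕ) : (tau n : ℝ) = log (1 + rr n) := rfl

theorem exp_tau (n : ℕ) : exp (tau n : ℝ) = 1 + rr n := by
  rw [coe_tau, Real.exp_log (by linarith [rr_nonneg n])]

open Filter Topology in
theorem tau_tendsto : Tendsto (fun n => (tau n : ℝ)) atTop (𝓝 (Tg : ℝ)) := by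
  have h : Tendsto (fun n => log (1 + rr n)) atTop (𝓝 (log (1 + 1))) :=
    (rr_tendsto.const_add 1).log (by norm_num)
  rw [show (1 : ℝ) + 1 = 2 by norm_num] at h
  exact h

/-- the sequence given by a finite list followed by false -/
def ext (l : List Bool) (n : ℕ) : Bool := l.getD n false

theorem ext_pre (b : ℕ → Bool) (N n : ℕ) (h : n < N) : ext (pre b N) n = b n := by
  unfold ext pre
  rw [List.getD_eq_getElem _ _ (by simpa using h)]
  simp

open Filter Topology in
/-- the Lion has no winning strategy -/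
theorem no_lion {A : Set (ℝ × ℝ)}
    (hA : ∀ W : List Bool → ℝ, ∃ b, (-2 - xi b 1, LL W b) ∉ A)
    (Ψ : (NNReal → XX A) → (NNReal → XX A))
    (h1 : ∀ g : NNReal → XX A, LipschitzWith 1 g → g 0 = y0 A →
          LipschitzWith 1 (Ψ g) ∧ Ψ g 0 = x0 A)
    (h2 : ∀ g g' : NNReal → XX A, LipschitzWith 1 g → g 0 = y0 A →
          LipschitzWith 1 g' → g' 0 = y0 A →
          ∀ t : NNReal, (∀ s ≤ t, g s = g' s) → Ψ g t = Ψ g' t)
    (h3 : ∀ g : NNReal → XX A, LipschitzWith 1 g → g 0 = y0 A →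
          ∃ t ≤ TT, Ψ g t = g t) : False := by
  obtain ⟨b, hb⟩ := hA (fun l => (Ψ (gR A (ext l)) (tau l.length)).1.a)
  have hlim : LL (fun l => (Ψ (gR A (ext l)) (tau l.length)).1.a) b = (Ψ (gR A b) Tg).1.a := by
    apply LL_eq
    have e1 : ∀ n, (Ψ (gR A (ext (pre b n))) (tau (pre b n).length)).1.a = (Ψ (gR A b) (tau n)).1.a := by
      intro n
      rw [pre_length]
      rw [h2 (gR A (ext (pre b n))) (gR A b) (gR_lip A _) (gR_zero A _) (gR_lip A _) (gR_zero A _) (tau n)]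
      intro s hs
      apply gR_congr A (N := n) (fun k hk => ext_pre b n k hk)
      rw [← exp_tau]
      exact Real.exp_le_exp.2 (NNReal.coe_le_coe.2 hs)
    simp only [e1]
    rw [tendsto_iff_dist_tendsto_zero]
    have hL := (h1 (gR A b) (gR_lip A b) (gR_zero A b)).1
    have e2 : Tendsto (fun n => 4 * dist (tau n) Tg) atTop (𝓝 (4 * 0)) := by
      apply Tendsto.const_mul
      have h5 : Tendsto tau atTop (𝓝 Tg) := by
        rw [← NNReal.tendsto_coe]; exact tau_tendsto
      rw [← dist_self Tg]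
      exact h5.dist tendsto_const_nhds
    rw [mul_zero] at e2
    apply squeeze_zero (fun n => dist_nonneg) _ e2
    intro n
    have e3 := lab_le_dist (Ψ (gR A b) (tau n)).1 (Ψ (gR A b) Tg).1
    have e4 : dist (Ψ (gR A b) (tau n)).1 (Ψ (gR A b) Tg).1 = dist (Ψ (gR A b) (tau n)) (Ψ (gR A b) Tg) := rfl
    have e5 := hL.dist_le_mul (tau n) Tg
    rw [NNReal.coe_one, one_mul] at e5
    rw [e4] at e3
    rw [Real.dist_eq]
    linarith
  obtain ⟨s, hs, hsc⟩ := h3 (gR A b) (gR_lip A b) (gR_zero A b)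
  obtain ⟨s', hs', hsc'⟩ := h3 (gL A b) (gL_lip A b) (gL_zero A b)
  obtain ⟨fl, f0⟩ := h1 (gR A b) (gR_lip A b) (gR_zero A b)
  obtain ⟨fl', f0'⟩ := h1 (gL A b) (gL_lip A b) (gL_zero A b)
  have c1 := capture fl f0 (fun t ht => gR_low A b ht) (fun t ha hb' => gR_high A b ha hb') hs hsc
  have c2 := capture fl' f0' (fun t ht => gL_low A b ht) (fun t ha hb' => gL_high A b ha hb') hs' hsc'
  have heq : Ψ (gR A b) Tg = Ψ (gL A b) Tg :=
    h2 _ _ (gR_lip A b) (gR_zero A b) (gL_lip A b) (gL_zero A b) Tg (fun s hs => gR_eq_gL A b hs)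
  rw [← heq] at c2
  obtain ⟨k1, k2, k3, k4⟩ := c1
  obtain ⟨_, _, k5, k6⟩ := c2
  have hv : (Ψ (gR A b) Tg).1.v = -2 - xi b 1 := by linarith
  rw [hv] at k2
  apply hb
  rw [hlim]
  exact k2


end PartF

section PartG
open Real


/-! ### shrinking segments -/

noncomputable def cl (θ : ℝ) : ℝ := max 0 (min θ 1)

theorem cl_nonneg (θ : ℝ) : 0 ≤ cl θ := le_max_left _ _
theorem cl_le_one (θ : ℝ) : cl θ ≤ 1 := max_le zero_le_one (min_le_right _ _)
theorem cl_mono {θ θ' : ℝ} (h : θ ≤ θ') : cl θ ≤ cl θ' :=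
  max_le_max le_rfl (min_le_min h le_rfl)
theorem cl_of {θ : ℝ} (h0 : 0 ≤ θ) (h1 : θ ≤ 1) : cl θ = θ := by
  unfold cl; rw [min_eq_left h1, max_eq_right h0]
theorem cl_zero : cl 0 = 0 := cl_of le_rfl zero_le_one
theorem cl_of_one_le {θ : ℝ} (h : 1 ≤ θ) : cl θ = 1 := by
  unfold cl; rw [min_eq_right h, max_eq_right zero_le_one]
theorem cl_lip {θ θ' : ℝ} (h : θ ≤ θ') : cl θ' - cl θ ≤ θ' - θ := by
  unfold cl
  rcases le_total θ 1 with a | a <;> rcases le_total θ' 1 with b | b <;>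
  rcases le_total 0 θ with c | c <;> rcases le_total 0 θ' with d | d <;>
  simp only [min_eq_left, min_eq_right, max_eq_left, max_eq_right, a, b, c, d, zero_le_one] <;> linarith

noncomputable def sg (P Q : Pt) (θ : ℝ) : Pt where
  v := P.v + (Q.v - P.v) * cl θ
  u := P.u - (P.u - Q.u) * cl θ
  e := P.e
  a := P.a + (Q.a - P.a) * cl θ
  hvu := by
    have h1 := P.hvu
    have h2 := Q.hvu
    nlinarith [cl_nonneg θ, cl_le_one θ]

theorem sz_sg (P Q : Pt) (θ : ℝ) : sz (sg P Q θ) = sz P - (sz P - sz Q) * cl θ := by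
  unfold sz sg; simp only; ring

theorem sg_zero (P Q : Pt) : sg P Q 0 = P := by
  apply Pt.ext' <;> unfold sg <;> simp [cl_zero]

theorem sg_one (P Q : Pt) {θ : ℝ} (h : 1 ≤ θ) (he : Q.e = P.e) : sg P Q θ = Q := by
  apply Pt.ext' <;> unfold sg <;> simp [cl_of_one_le h, he]

/-- the time parameter of a segment -/
noncomputable def pr (E E' : ℝ) (t : ℝ) : ℝ := (E - exp (-t)) / (E - E')

theorem pr_mono {E E' : ℝ} (h : E' < E) {s t : ℝ} (hst : s ≤ t) : pr E E' s ≤ pr E E' t := by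
  unfold pr
  apply div_le_div_of_nonneg_right _ (by linarith)
  have := Real.exp_le_exp.2 (show -t ≤ -s by linarith)
  linarith

theorem pr_lip {E E' : ℝ} (h : E' < E) {s t : ℝ} (hst : s ≤ t) (hs : exp (-s) ≤ E) :
    cl (pr E E' t) - cl (pr E E' s) ≤ E * (t - s) / (E - E') := by
  have hden : 0 < E - E' := by linarith
  have h1 := cl_lip (pr_mono h hst)
  have h2 : pr E E' t - pr E E' s = (exp (-s) - exp (-t)) / (E - E') := by unfold pr; ring
  have h3 : exp (-s) - exp (-t) ≤ E * (t - s) := by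
    have e1 : exp (-t) = exp (-s) * exp (-(t - s)) := by
      rw [← Real.exp_add]; congr 1; ring
    have e2 := Real.add_one_le_exp (-(t - s))
    have e3 : exp (-s) * (1 - exp (-(t - s))) ≤ exp (-s) * (t - s) :=
      mul_le_mul_of_nonneg_left (by linarith) (exp_pos _).le
    have e4 : exp (-s) * (t - s) ≤ E * (t - s) := mul_le_mul_of_nonneg_right hs (by linarith)
    rw [e1]; linarith
  have h4 := div_le_div_of_nonneg_right h3 hden.le
  linarith

theorem sz_pr {P Q : Pt} {E E' κ : ℝ} (h : E' < E) (hP : sz P = κ * E) (hQ : sz Q = κ * E')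
    {t : ℝ} (h1 : E' ≤ exp (-t)) (h2 : exp (-t) ≤ E) : sz (sg P Q (pr E E' t)) = κ * exp (-t) := by
  have hden : 0 < E - E' := by linarith
  have h3 : 0 ≤ pr E E' t := div_nonneg (by linarith) hden.le
  have h4 : pr E E' t ≤ 1 := by unfold pr; rw [div_le_one hden]; linarith
  rw [sz_sg, cl_of h3 h4, hP, hQ]
  unfold pr
  field_simp
  ring

theorem sz_pr_lip {P Q : Pt} {E E' κ : ℝ} (hκ : 0 < κ) (hE' : 0 < E') (h : E' < E)
    (hP : sz P = κ * E) (hQ : sz Q = κ * E')
    {s t : ℝ} (hst : s ≤ t) (hs : exp (-s) ≤ E) :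
    sz (sg P Q (pr E E' s)) ≤ sz (sg P Q (pr E E' t)) * exp (t - s) := by
  have hden : 0 < E - E' := by linarith
  have hxy : exp (-t) ≤ exp (-s) := Real.exp_le_exp.2 (by linarith)
  have h3 : exp (-s) = exp (-t) * exp (t - s) := by
    rw [← Real.exp_add]; congr 1; ring
  have hexp1 : 1 ≤ exp (t - s) := Real.one_le_exp (by linarith)
  have hbig : ∀ r : ℝ, exp (-r) ≤ E' → sz (sg P Q (pr E E' r)) = κ * E' := by
    intro r hr
    have h4 : 1 ≤ pr E E' r := by unfold pr; rw [le_div_iff₀ hden]; linarith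
    rw [sz_sg, cl_of_one_le h4, hQ]; ring
  rcases le_total E' (exp (-t)) with hy | hy
  · rw [sz_pr h hP hQ hy (hxy.trans hs), sz_pr h hP hQ (hy.trans hxy) hs, mul_assoc, ← h3]
  · rw [hbig t hy]
    rcases le_total E' (exp (-s)) with hx | hx
    · rw [sz_pr h hP hQ hx hs, h3, mul_assoc]
      exact mul_le_mul_of_nonneg_left (mul_le_mul_of_nonneg_right hy (exp_pos _).le) hκ.le
    · rw [hbig s hx]
      have := mul_pos hκ hE'
      nlinarith

theorem sg_dist {P Q : Pt} {E E' κ : ℝ} (hκ : 0 < κ) (hE' : 0 < E') (h : E' < E)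
    (hP : sz P = κ * E) (hQ : sz Q = κ * E') (hv : P.v ≤ Q.v) (hu : Q.u ≤ P.u)
    (ha : |Q.a - P.a| * E ≤ 4 * (E - E'))
    {s t : ℝ} (hst : s ≤ t) (hs : exp (-s) ≤ E) :
    dist (sg P Q (pr E E' s)) (sg P Q (pr E E' t)) ≤ t - s := by
  have hden : 0 < E - E' := by linarith
  have hc := cl_mono (pr_mono h hst)
  apply dist_nested_le
  · unfold sg; simp only; nlinarith
  · unfold sg; simp only; nlinarith
  · unfold sg; simp only; exact le_rfl
  · have h7 := Real.log_le_log (sz_pos _) (sz_pr_lip hκ hE' h hP hQ hst hs)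
    rw [Real.log_mul (sz_pos _).ne' (exp_pos _).ne', Real.log_exp] at h7
    have hlv : ∀ θ, lv (sg P Q θ) = log (sz (sg P Q θ)) + P.e := by
      intro θ; unfold lv; rfl
    rw [hlv, hlv]
    linarith
  · have e1 : (sg P Q (pr E E' s)).a - (sg P Q (pr E E' t)).a
        = (Q.a - P.a) * (cl (pr E E' s) - cl (pr E E' t)) := by
      unfold sg; simp only; ring
    rw [e1, abs_mul, abs_sub_comm (cl _), abs_of_nonneg (sub_nonneg.2 hc)]
    have h8 := pr_lip h hst hs
    have h9 : |Q.a - P.a| * (E * (t - s) / (E - E')) ≤ 4 * (t - s) := by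
      rw [← mul_div_assoc, div_le_iff₀ hden]
      have := mul_le_mul_of_nonneg_right ha (sub_nonneg.2 hst)
      linarith
    exact (mul_le_mul_of_nonneg_left h8 (abs_nonneg _)).trans h9

theorem exists_seg (P Q : Pt) (τ τ' : NNReal) (κ : ℝ) (hκ : 0 < κ) (hτ : τ ≤ τ')
    (hP : sz P = κ * exp (-(τ : ℝ))) (hQ : sz Q = κ * exp (-(τ' : ℝ)))
    (hv : P.v ≤ Q.v) (hu : Q.u ≤ P.u) (he : Q.e = P.e)
    (ha : |Q.a - P.a| * exp (-(τ : ℝ)) ≤ 4 * (exp (-(τ : ℝ)) - exp (-(τ' : ℝ)))) :
    ∃ σ : NNReal → Pt, σ τ = P ∧ (∀ t, τ' ≤ t → σ t = Q) ∧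
      (∀ s t : NNReal, τ ≤ s → s ≤ t → dist (σ s) (σ t) ≤ (t : ℝ) - s) ∧
      (∀ t, (σ t).e = P.e ∧ sz Q ≤ sz (σ t) ∧ sz (σ t) ≤ sz P ∧
        (P.a = 0 → Q.a = 0 → (σ t).a = 0)) := by
  have hτ' : (τ : ℝ) ≤ τ' := NNReal.coe_le_coe.2 hτ
  have hEE : exp (-(τ' : ℝ)) ≤ exp (-(τ : ℝ)) := Real.exp_le_exp.2 (by linarith)
  rcases hEE.lt_or_eq with hlt | heq
  · refine ⟨fun t => sg P Q (pr (exp (-(τ : ℝ))) (exp (-(τ' : ℝ))) t), ?_, ?_, ?_, ?_⟩
    · simp only
      have : pr (exp (-(τ : ℝ))) (exp (-(τ' : ℝ))) (τ : ℝ) = 0 := by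
        unfold pr; rw [sub_self, zero_div]
      rw [this, sg_zero]
    · intro t ht
      apply sg_one _ _ _ he
      unfold pr
      rw [le_div_iff₀ (by linarith), one_mul]
      have : exp (-(t : ℝ)) ≤ exp (-(τ' : ℝ)) := Real.exp_le_exp.2 (by
        have := NNReal.coe_le_coe.2 ht; linarith)
      linarith
    · intro s t hs hst
      exact sg_dist hκ (exp_pos _) hlt hP hQ hv hu ha (NNReal.coe_le_coe.2 hst)
        (Real.exp_le_exp.2 (by have := NNReal.coe_le_coe.2 hs; linarith))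
    · intro t
      have hPQ : sz Q ≤ sz P := by unfold sz; linarith
      have c0 := cl_nonneg (pr (exp (-(τ : ℝ))) (exp (-(τ' : ℝ))) t)
      have c1 := cl_le_one (pr (exp (-(τ : ℝ))) (exp (-(τ' : ℝ))) t)
      refine ⟨rfl, ?_, ?_, ?_⟩
      · simp only; rw [sz_sg]; nlinarith
      · simp only; rw [sz_sg]; nlinarith
      · intro h1 h2
        unfold sg; simp only; rw [h1, h2]; ring
  · have hsz : sz P = sz Q := by rw [hP, hQ, heq]
    have hPQ : P = Q := by
      unfold sz at hsz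
      have h1 : P.v = Q.v := by linarith
      have h2 : P.u = Q.u := by linarith
      have h3 : |Q.a - P.a| ≤ 0 := by
        rw [heq, sub_self, mul_zero] at ha
        by_contra hcon
        push Not at hcon
        have := mul_pos hcon (exp_pos (-(τ : ℝ)))
        linarith
      have h4 : Q.a - P.a = 0 := abs_eq_zero.1 (le_antisymm h3 (abs_nonneg _))
      exact Pt.ext' h1 h2 he.symm (by linarith)
    refine ⟨fun _ => P, rfl, fun t _ => hPQ, ?_, ?_⟩
    · intro s t _ hst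
      simp only [dist_self]
      have hst' : (s : ℝ) ≤ t := NNReal.coe_le_coe.2 hst
      linarith
    · intro t
      exact ⟨rfl, by simp only; rw [hsz], le_rfl, fun h _ => h⟩

theorem extend {A : Set (ℝ × ℝ)} (F : NNReal → XX A) (hF : LipschitzWith 1 F) (τ τ' : NNReal)
    (κ : ℝ) (hκ : 0 < κ) (hτ : τ ≤ τ') (Q : Pt)
    (hP : sz (F τ).1 = κ * exp (-(τ : ℝ))) (hQ : sz Q = κ * exp (-(τ' : ℝ)))
    (hv : (F τ).1.v ≤ Q.v) (hu : Q.u ≤ (F τ).1.u) (he : Q.e = (F τ).1.e)
    (ha : |Q.a - (F τ).1.a| * exp (-(τ : ℝ)) ≤ 4 * (exp (-(τ : ℝ)) - exp (-(τ' : ℝ))))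
    (hleg : ∀ p : Pt, p.e = (F τ).1.e → sz Q ≤ sz p → sz p ≤ sz (F τ).1 →
      ((F τ).1.a = 0 → Q.a = 0 → p.a = 0) → Legal A p) :
    ∃ F' : NNReal → XX A, LipschitzWith 1 F' ∧ (∀ t ≤ τ, F' t = F t) ∧
      (∀ t, τ' ≤ t → (F' t).1 = Q) := by
  obtain ⟨σ, h1, h2, h3, h4⟩ := exists_seg (F τ).1 Q τ τ' κ hκ hτ hP hQ hv hu he ha
  have hl : ∀ t, Legal A (σ t) := fun t => hleg _ (h4 t).1 (h4 t).2.1 (h4 t).2.2.1 (h4 t).2.2.2
  have hj : F τ = (⟨σ τ, hl τ⟩ : XX A) := Subtype.ext h1.symm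
  refine ⟨glue F (fun t => ⟨σ t, hl t⟩) τ, ?_, ?_, ?_⟩
  · exact glue_lip hF (fun s t hs hst => h3 s t hs hst) hj
  · intro t ht; exact glue_le ht
  · intro t ht
    rw [glue_ge (hτ.trans ht) hj]
    exact h2 t ht


end PartG

section PartH
open Real


/-! ### the time schedule before the gate -/

noncomputable def qq : ℕ → ℝ
  | 0 => 1
  | n + 1 => 12 / (8 - qq n)

theorem qq_succ (n : ℕ) : qq (n + 1) = 12 / (8 - qq n) := rfl

theorem qq_bd (n : ℕ) : 1 ≤ qq n ∧ qq n < 2 ∧ (2 / 7) ^ n ≤ 2 - qq n ∧ 2 - qq n ≤ (1 / 3) ^ n := by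
  induction n with
  | zero => simp only [qq, pow_zero]; norm_num
  | succ n ih =>
    obtain ⟨h1, h2, h3, h4⟩ := ih
    have h8 : 0 < 8 - qq n := by linarith
    have e : 2 - qq (n + 1) = 2 * (2 - qq n) / (8 - qq n) := by
      rw [qq_succ]; field_simp; ring
    have e1 : 2 / 7 * (2 - qq n) ≤ 2 - qq (n + 1) := by
      rw [e, le_div_iff₀ h8]; nlinarith
    have e2 : 2 - qq (n + 1) ≤ 1 / 3 * (2 - qq n) := by
      rw [e, div_le_iff₀ h8]; nlinarith
    have e3 : 0 < (2 / 7 : ℝ) ^ n := by positivity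
    refine ⟨by linarith, by linarith, ?_, ?_⟩
    · rw [pow_succ]; linarith
    · rw [pow_succ]; linarith

theorem qq_pos (n : ℕ) : 0 < qq n := by linarith [(qq_bd n).1]

theorem qq_mono_step (n : ℕ) : qq n ≤ qq (n + 1) := by
  obtain ⟨h1, h2, h3, h4⟩ := qq_bd n
  rw [qq_succ, le_div_iff₀ (by linarith)]
  nlinarith

theorem qq_nn (n : ℕ) : 0 ≤ log (qq n) := Real.log_nonneg (qq_bd n).1

noncomputable def tn (n : ℕ) : NNReal := ⟨log (qq n), qq_nn n⟩

theorem coe_tn (n : ℕ) : (tn n : ℝ) = log (qq n) := rfl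

theorem exp_tn (n : ℕ) : exp (tn n : ℝ) = qq n := by rw [coe_tn, Real.exp_log (qq_pos n)]

theorem exp_neg_tn (n : ℕ) : exp (-(tn n : ℝ)) = 1 / qq n := by
  rw [Real.exp_neg, exp_tn, one_div]

theorem tn_mono_step (n : ℕ) : tn n ≤ tn (n + 1) := by
  rw [← NNReal.coe_le_coe, coe_tn, coe_tn]
  exact Real.log_le_log (qq_pos n) (qq_mono_step n)

theorem tn_mono : Monotone tn := monotone_nat_of_le_succ tn_mono_step

theorem tn_le (n : ℕ) : tn n ≤ Tg := by
  rw [← NNReal.coe_le_coe, coe_tn, coe_Tg]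
  exact Real.log_le_log (qq_pos n) (qq_bd n).2.1.le

theorem tn_zero : tn 0 = 0 := by
  rw [← NNReal.coe_inj, coe_tn, NNReal.coe_zero]; simp [qq]

open Filter Topology in
theorem qq_tendsto : Tendsto qq atTop (𝓝 2) := by
  have h : Tendsto (fun n : ℕ => (1 / 3 : ℝ) ^ n) atTop (𝓝 0) :=
    tendsto_pow_atTop_nhds_zero_of_lt_one (by norm_num) (by norm_num)
  have h2 : Tendsto (fun n => 2 - qq n) atTop (𝓝 0) := by
    apply squeeze_zero _ (fun n => (qq_bd n).2.2.2) h
    intro n; linarith [(qq_bd n).2.1]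
  have h3 := h2.const_sub 2
  simpa using h3

/-! ### Christian strategies -/

def Valid (A : Set (ℝ × ℝ)) (Φ : (NNReal → XX A) → (NNReal → XX A)) : Prop :=
  (∀ f : NNReal → XX A, LipschitzWith 1 f → f 0 = x0 A →
          LipschitzWith 1 (Φ f) ∧ Φ f 0 = y0 A) ∧
  (∀ f f' : NNReal → XX A, LipschitzWith 1 f → f 0 = x0 A →
          LipschitzWith 1 f' → f' 0 = x0 A →
          ∀ t : NNReal, (∀ s ≤ t, f s = f' s) → Φ f t = Φ f' t)

theorem g_lv {A : Set (ℝ × ℝ)} {g : NNReal → XX A} (hg : LipschitzWith 1 g) (h0 : g 0 = y0 A)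
    (t : NNReal) : lv (g t).1 ≤ t := by
  have h1 := of_lip hg (s := 0) (t := t) zero_le
  have h2 := lv_sub_le (g t).1 (g 0).1
  have h3 : dist (g t).1 (g 0).1 = dist (g 0) (g t) := dist_comm _ _
  have h4 : lv (g 0).1 = 0 := by rw [h0]; exact lv_y0
  rw [h3, h4] at h2
  rw [NNReal.coe_zero] at h1
  linarith

theorem g_low {A : Set (ℝ × ℝ)} {g : NNReal → XX A} (hg : LipschitzWith 1 g) (h0 : g 0 = y0 A)
    {t : NNReal} (ht : (t : ℝ) ≤ log 6) : (g t).1.e = 0 ∧ (g t).1.a = 0 ∧ sz (g t).1 ≤ exp t := by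
  have h1 := g_lv hg h0 t
  obtain ⟨h2, h3, h4⟩ := legal_low (g t).2 (h1.trans ht)
  refine ⟨h2, h3, ?_⟩
  unfold lv at h1
  rw [h2, add_zero] at h1
  rwa [Real.log_le_iff_le_exp (sz_pos _)] at h1

theorem k_pre {t : ℝ} {c : Pt} (h1 : sz c ≤ exp t) (h2 : exp t ≤ 4) :
    khi t c - klo t c ≤ 7 - exp t := by
  have h3 := k_size t c
  have h4 := rt_sq' t c
  have h5 := rt_nonneg t c
  have h6 : rt t c ^ 2 ≤ 1 := by
    by_contra hcon
    push Not at hcon
    have := mul_lt_mul_of_pos_right hcon (exp_pos t)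
    linarith
  have h7 : rt t c ≤ 1 := by nlinarith
  nlinarith [mul_nonneg (sub_nonneg.2 h7) (show 0 ≤ 8 - exp t * (1 + rt t c) by nlinarith)]

noncomputable def dl (n : ℕ) : ℝ := (1 / 4) ^ n / 2

structure St (A : Set (ℝ × ℝ)) where
  F : NNReal → XX A
  n : ℕ
  v : ℝ
  a : ℝ

structure Inv {A : Set (ℝ × ℝ)} (Φ : (NNReal → XX A) → (NNReal → XX A)) (s : St A) : Prop where
  lip : LipschitzWith 1 s.F
  zero : s.F 0 = x0 A
  const : ∀ t, tn s.n ≤ t → s.F t = s.F (tn s.n)
  pv : (s.F (tn s.n)).1.v = s.v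
  pu : (s.F (tn s.n)).1.u = s.v + 12 / qq s.n - 1
  pe : (s.F (tn s.n)).1.e = log (4 / 3)
  pa : (s.F (tn s.n)).1.a = s.a
  lo : s.v ≤ klo (tn s.n) (Φ s.F (tn s.n)).1
  hi : khi (tn s.n) (Φ s.F (tn s.n)).1 ≤ s.v + 12 / qq s.n - 1

structure Nxt {A : Set (ℝ × ℝ)} (s s' : St A) (b : Bool) : Prop where
  n' : s'.n = s.n + 1
  agree : ∀ t ≤ tn s.n, s'.F t = s.F t
  vle : s.v ≤ s'.v
  ule : s'.v + 12 / qq s'.n ≤ s.v + 12 / qq s.n
  a' : s'.a = s.a + cond b (dl s.n) 0

theorem step {A : Set (ℝ × ℝ)} {Φ : (NNReal → XX A) → (NNReal → XX A)} (hΦ : Valid A Φ)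
    (s : { s : St A // Inv Φ s }) (b : Bool) :
    ∃ s' : { s : St A // Inv Φ s }, Nxt s.1 s'.1 b := by
  obtain ⟨⟨F, n, v, a⟩, ⟨lip, zero, const, pv, pu, pe, pa, lo, hi⟩⟩ := s
  simp only at lip zero const pv pu pe pa lo hi
  obtain ⟨q1, q2, q3, q4⟩ := qq_bd n
  obtain ⟨r1, r2, r3, r4⟩ := qq_bd (n + 1)
  have hqq := qq_mono_step n
  have hgl := (hΦ.1 F lip zero).1
  have hg0 := (hΦ.1 F lip zero).2
  set c := (Φ F (tn n)).1 with hc
  have htn6 : ∀ m, (tn m : ℝ) ≤ log 6 := by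
    intro m
    have h1 : (tn m : ℝ) ≤ log 2 := NNReal.coe_le_coe.2 (tn_le m)
    exact h1.trans (Real.log_le_log (by norm_num) (by norm_num))
  obtain ⟨c1, c2, c3⟩ := g_low hgl hg0 (htn6 n)
  rw [← hc, exp_tn] at c3
  have hK : khi (tn n) c - klo (tn n) c ≤ 7 - qq n := by
    have := k_pre (t := tn n) (c := c) (by rw [exp_tn]; exact c3) (by rw [exp_tn]; linarith)
    rwa [exp_tn] at this
  have h12 : 12 / qq (n + 1) = 8 - qq n := by
    rw [qq_succ]; field_simp
  have h12' : 8 - qq n ≤ 12 / qq n := by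
    rw [le_div_iff₀ (by linarith)]; nlinarith
  set v' := max v (khi (tn n) c - (7 - qq n)) with hv'
  have hv1 : v ≤ v' := le_max_left _ _
  have hv2 : khi (tn n) c - (7 - qq n) ≤ v' := le_max_right _ _
  have hv3 : v' + 12 / qq (n + 1) ≤ v + 12 / qq n := by
    rw [h12]
    have : v' ≤ v + 12 / qq n - (8 - qq n) := max_le (by linarith) (by linarith)
    linarith
  have hv4 : v' ≤ klo (tn n) c := max_le lo (by linarith)
  set a' := a + cond b (dl n) 0 with ha'
  let Q : Pt := ⟨v', v' + 12 / qq (n + 1) - 1, log (4 / 3), a', by rw [h12]; linarith⟩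
  have hQs : sz Q = 12 / qq (n + 1) := by unfold sz; simp only [Q]; ring
  have hPs : sz (F (tn n)).1 = 12 / qq n := by unfold sz; rw [pv, pu]; ring
  obtain ⟨F', f1, f2, f3⟩ := extend F lip (tn n) (tn (n + 1)) 12 (by norm_num) (tn_mono_step n) Q
    (by rw [exp_neg_tn, hPs]; ring) (by rw [exp_neg_tn, hQs]; ring) (by rw [pv]; exact hv1)
    (by rw [pu]; simp only [Q]; linarith) (by rw [pe]) (by
      rw [exp_neg_tn, exp_neg_tn, pa]
      have e1 : |Q.a - a| ≤ dl n := by
        simp only [Q, a', add_sub_cancel_left]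
        cases b
        · simp only [cond_false, abs_zero]; unfold dl; positivity
        · simp only [cond_true]; rw [abs_of_nonneg]; unfold dl; positivity
      have e2 : dl n ≤ 1 / 2 * (2 - qq n) := by
        unfold dl
        have : (1 / 4 : ℝ) ^ n ≤ (2 / 7) ^ n := pow_le_pow_left₀ (by norm_num) (by norm_num) n
        linarith
      have e3 : |Q.a - a| * (1 / qq n) ≤ 1 / 2 * (2 - qq n) * (1 / qq n) :=
        mul_le_mul_of_nonneg_right (e1.trans e2) (by positivity)
      refine e3.trans ?_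
      have e4 : 4 * (1 / qq n - 1 / qq (n + 1)) = (2 - qq n) * (6 - qq n) / (3 * qq n) := by
        have h5 : 1 / qq (n + 1) = (8 - qq n) / 12 := by rw [← h12]; ring
        rw [h5]; field_simp; ring
      rw [e4, mul_one_div, div_le_div_iff₀ (by linarith) (by linarith)]
      have : 0 ≤ qq n * (2 - qq n) := by nlinarith
      nlinarith [mul_nonneg this (show 0 ≤ 9 / 2 - qq n by linarith)]) (by
      intro p hp1 hp2 _ _
      right; right; right
      rw [pe] at hp1
      refine ⟨?_, hp1⟩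
      rw [hQs, h12] at hp2
      unfold sz at hp2
      linarith)
  have hF'0 : F' 0 = x0 A := by rw [f2 0 zero_le]; exact zero
  have hag : Φ F' (tn n) = Φ F (tn n) :=
    hΦ.2 F' F f1 hF'0 lip zero (tn n) f2
  have hgl' := (hΦ.1 F' f1 hF'0).1
  have hg0' := (hΦ.1 F' f1 hF'0).2
  set c' := (Φ F' (tn (n + 1))).1 with hc'
  obtain ⟨d1, d2, d3⟩ := g_low hgl' hg0' (htn6 (n + 1))
  rw [← hc', exp_tn] at d3
  have hdist : dist c c' ≤ (tn (n + 1) : ℝ) - tn n := by
    have := of_lip hgl' (tn_mono_step n)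
    rw [hag] at this
    exact this
  obtain ⟨n1, n2⟩ := k_nested hdist (by rw [exp_tn]; nlinarith)
  have hF' : (F' (tn (n + 1))).1 = Q := f3 _ le_rfl
  refine ⟨⟨⟨F', n + 1, v', a'⟩, ⟨f1, hF'0, ?_, ?_, ?_, ?_, ?_, ?_, ?_⟩⟩,
    ⟨rfl, f2, hv1, hv3, rfl⟩⟩
  · intro t ht
    exact Subtype.ext ((f3 t ht).trans hF'.symm)
  · show (F' (tn (n + 1))).1.v = v'
    rw [hF']
  · show (F' (tn (n + 1))).1.u = _
    rw [hF']
  · show (F' (tn (n + 1))).1.e = _
    rw [hF']
  · show (F' (tn (n + 1))).1.a = _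
    rw [hF']
  · show v' ≤ klo (tn (n + 1)) c'
    linarith
  · show khi (tn (n + 1)) c' ≤ v' + 12 / qq (n + 1) - 1
    rw [h12]; linarith

theorem init {A : Set (ℝ × ℝ)} {Φ : (NNReal → XX A) → (NNReal → XX A)} (hΦ : Valid A Φ) :
    Inv Φ ⟨fun _ => x0 A, 0, -11 / 2, 0⟩ := by
  have hl : LipschitzWith 1 (fun _ : NNReal => x0 A) := LipschitzWith.const' _
  have hy : Φ (fun _ => x0 A) 0 = y0 A := (hΦ.1 _ hl rfl).2
  have hr : rt 0 yPt = 1 := by unfold rt sz yPt; simp
  refine ⟨hl, rfl, fun t _ => rfl, rfl, ?_, rfl, rfl, ?_, ?_⟩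
  · show xPt.u = _
    unfold xPt; simp only [qq]; norm_num
  · show -11 / 2 ≤ klo (tn 0) (Φ (fun _ => x0 A) (tn 0)).1
    rw [tn_zero, hy, NNReal.coe_zero]
    show -11 / 2 ≤ klo 0 yPt
    unfold klo; rw [hr]; unfold yPt; norm_num
  · show khi (tn 0) (Φ (fun _ => x0 A) (tn 0)).1 ≤ _
    rw [tn_zero, hy, NNReal.coe_zero]
    show khi 0 yPt ≤ _
    unfold khi; rw [hr]; unfold yPt; simp only [qq]; norm_num


end PartH

section PartI
open Real


open Filter Topology

noncomputable def ylab (α : ℕ → Bool) : ℝ := 1 / 2 * Cardinal.cantorFunction (1 / 4) α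

theorem ylab_inj : Function.Injective ylab := by
  intro b b' h
  unfold ylab at h
  exact Cardinal.cantorFunction_injective (c := 1 / 4) (by norm_num) (by norm_num) (by linarith)

theorem dl_eq (α : ℕ → Bool) (n : ℕ) :
    (cond (α n) (dl n) 0 : ℝ) = 1 / 2 * Cardinal.cantorFunctionAux (1 / 4) α n := by
  unfold dl Cardinal.cantorFunctionAux
  cases α n <;> simp; ring

theorem dl_hasSum (α : ℕ → Bool) : HasSum (fun n => (cond (α n) (dl n) 0 : ℝ)) (ylab α) := by
  simp only [dl_eq]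
  unfold ylab Cardinal.cantorFunction
  exact (Cardinal.summable_cantor_function α (by norm_num) (by norm_num)).hasSum.mul_left _

theorem ylab_nonneg (α : ℕ → Bool) : 0 ≤ ylab α := by
  apply (dl_hasSum α).nonneg
  intro n; cases α n
  · exact le_rfl
  · show 0 ≤ dl n
    unfold dl; positivity

theorem ylab_le (α : ℕ → Bool) : ylab α ≤ 2 / 3 := by
  have h1 : HasSum (fun n : ℕ => 1 / 2 * (1 / 4 : ℝ) ^ n) (1 / 2 * (1 - 1 / 4)⁻¹) :=
    (hasSum_geometric_of_lt_one (by norm_num) (by norm_num)).mul_left _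
  have h2 : (1 / 2 : ℝ) * (1 - 1 / 4)⁻¹ = 2 / 3 := by norm_num
  rw [h2] at h1
  apply hasSum_le _ (dl_hasSum α) h1
  intro n
  show (cond (α n) (dl n) 0 : ℝ) ≤ 1 / 2 * (1 / 4 : ℝ) ^ n
  have : dl n = 1 / 2 * (1 / 4 : ℝ) ^ n := by unfold dl; ring
  rw [← this]
  cases α n
  · show 0 ≤ dl n
    unfold dl; positivity
  · exact le_rfl

theorem t1_nn : (0 : ℝ) ≤ log (8 / 3) := Real.log_nonneg (by norm_num)
noncomputable def T1 : NNReal := ⟨log (8 / 3), t1_nn⟩
theorem coe_T1 : (T1 : ℝ) = log (8 / 3) := rfl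

theorem l83 : log (8 / 3 : ℝ) = log 2 + log (4 / 3) := by
  rw [← Real.log_mul (by norm_num) (by norm_num)]; norm_num

theorem log43_ge : (1 : ℝ) / 4 ≤ log (4 / 3) := by
  have := Real.one_sub_inv_le_log_of_pos (show (0:ℝ) < 4 / 3 by norm_num)
  norm_num at this ⊢
  linarith

noncomputable def re (t : ℝ) : ℝ := max 0 (min (log (4 / 3)) (log (8 / 3) - t))

theorem re_nonneg (t : ℝ) : 0 ≤ re t := le_max_left _ _
theorem re_le (t : ℝ) : re t ≤ log (4 / 3) := max_le log43_pos.le (min_le_left _ _)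
theorem re_anti {s t : ℝ} (h : s ≤ t) : re t ≤ re s :=
  max_le_max le_rfl (min_le_min le_rfl (by linarith))
theorem re_lip {s t : ℝ} (h : s ≤ t) : re s - re t ≤ t - s := by
  have := log43_pos
  unfold re
  rcases le_total (log (4 / 3)) (log (8 / 3) - s) with a | a <;>
  rcases le_total (log (4 / 3)) (log (8 / 3) - t) with b | b <;>
  rcases le_total 0 (log (8 / 3) - s) with c | c <;>
  rcases le_total 0 (log (8 / 3) - t) with d | d <;>
  simp only [min_eq_left, min_eq_right, max_eq_left, max_eq_right, a, b, c, d, this.le] <;> linarith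

/-- the road below a gate -/
noncomputable def road (v y : ℝ) (t : ℝ) : Pt :=
  ⟨v, v + 5, re t, y * (re t / log (4 / 3)), by linarith⟩

theorem road_legal {A : Set (ℝ × ℝ)} {v y : ℝ} (h : (v, y) ∈ A) (t : ℝ) : Legal A (road v y t) := by
  have h0 := re_nonneg t
  have h1 := re_le t
  have hp := log43_pos
  rcases h0.lt_or_eq with a | a
  · rcases h1.lt_or_eq with b | b
    · right; left
      refine ⟨?_, a, b⟩
      unfold road; simp only; ring
    · right; right; left
      refine ⟨?_, b, ?_⟩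
      · unfold road; simp only; ring
      · unfold road; simp only; rw [b, div_self hp.ne', mul_one]; exact h
  · left
    refine ⟨a.symm, ?_, ?_⟩
    · unfold road; simp only; rw [← a]; simp
    · unfold road; simp only; linarith

theorem road_dist (v : ℝ) {y : ℝ} (hy0 : 0 ≤ y) (hy : y ≤ 2 / 3) {s t : ℝ} (h : s ≤ t) :
    dist (road v y s) (road v y t) ≤ t - s := by
  have h1 := re_anti h
  have h2 := re_lip h
  have hp := log43_ge
  have hp' := log43_pos
  apply dist_nested_le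
  · exact le_rfl
  · exact le_rfl
  · exact h1
  · unfold lv sz road; simp only; linarith
  · unfold road; simp only
    have e1 : y * (re s / log (4 / 3)) - y * (re t / log (4 / 3)) = y * (re s - re t) / log (4 / 3) := by ring
    rw [e1, abs_of_nonneg (div_nonneg (mul_nonneg hy0 (by linarith)) hp'.le), div_le_iff₀ hp']
    nlinarith [mul_le_mul_of_nonneg_right hy (sub_nonneg.2 h1)]

/-- the state at the end of the road -/
structure Inv2 {A : Set (ℝ × ℝ)} (Φ : (NNReal → XX A) → (NNReal → XX A))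
    (F : NNReal → XX A) (s : NNReal) : Prop where
  lip : LipschitzWith 1 F
  zero : F 0 = x0 A
  const : ∀ t, s ≤ t → F t = F s
  ge : T1 ≤ s
  pe : (F s).1.e = 0
  pa : (F s).1.a = 0
  ps : sz (F s).1 = 16 * exp (-(s : ℝ))
  lo : (F s).1.v ≤ klo s (Φ F s).1
  hi : khi s (Φ F s).1 ≤ (F s).1.u
  ce : (Φ F s).1.e = 0
  ca : (Φ F s).1.a = 0
  cs : sz (Φ F s).1 * exp (s : ℝ) ≤ 16

theorem reach_road {A : Set (ℝ × ℝ)} (hA : ∀ W : List Bool → ℝ, ∃ b, (LL W b, ylab b) ∈ A)
    {Φ : (NNReal → XX A) → (NNReal → XX A)} (hΦ : Valid A Φ) :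
    ∃ F : NNReal → XX A, Inv2 Φ F T1 := by
  choose nx hnx using step hΦ
  let s0 : { s : St A // Inv Φ s } := ⟨⟨fun _ => x0 A, 0, -11 / 2, 0⟩, init hΦ⟩
  let S : List Bool → { s : St A // Inv Φ s } := fun l => l.foldl nx s0
  obtain ⟨α, hα⟩ := hA (fun l => (S l).1.v)
  let z : ℕ → { s : St A // Inv Φ s } := fun n => S (pre α n)
  have hz : ∀ n, Nxt (z n).1 (z (n + 1)).1 (α n) := by
    intro n
    have : z (n + 1) = nx (z n) (α n) := by
      show S (pre α (n + 1)) = nx (S (pre α n)) (α n)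
      rw [pre_succ]
      simp only [S, List.foldl_append, List.foldl_cons, List.foldl_nil]
    rw [this]
    exact hnx _ _
  have hz0 : z 0 = s0 := by
    show S (pre α 0) = s0
    unfold pre; simp [S]
  have hn : ∀ n, (z n).1.n = n := by
    intro n
    induction n with
    | zero => rw [hz0]
    | succ n ih => rw [(hz n).n', ih]
  have hI : ∀ n, Inv Φ (z n).1 := fun n => (z n).2
  -- monotone bounded
  have hvm : Monotone (fun n => (z n).1.v) := monotone_nat_of_le_succ (fun n => (hz n).vle)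
  have hua : Antitone (fun n => (z n).1.v + 12 / qq n) := by
    apply antitone_nat_of_succ_le
    intro n
    have := (hz n).ule
    rw [hn, hn] at this
    exact this
  have hub : ∀ n, (z n).1.v ≤ 13 / 2 := by
    intro n
    have h1 := hua (Nat.zero_le n)
    simp only [hz0, s0, qq] at h1
    have : 0 < 12 / qq n := div_pos (by norm_num) (qq_pos n)
    linarith
  have hbdd : BddAbove (Set.range (fun n => (z n).1.v)) := ⟨13 / 2, by rintro _ ⟨n, rfl⟩; exact hub n⟩
  set vi := ⨆ n, (z n).1.v with hvi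
  have hvt : Tendsto (fun n => (z n).1.v) atTop (𝓝 vi) := tendsto_atTop_ciSup hvm hbdd
  have hLL : LL (fun l => (S l).1.v) α = vi := LL_eq hvt
  rw [hLL] at hα
  have hvle : ∀ n, (z n).1.v ≤ vi := fun n => le_ciSup hbdd n
  have hut : Tendsto (fun n => (z n).1.v + 12 / qq n) atTop (𝓝 (vi + 12 / 2)) :=
    hvt.add (Tendsto.div tendsto_const_nhds qq_tendsto (by norm_num))
  have hule : ∀ n, vi + 6 ≤ (z n).1.v + 12 / qq n := by
    intro n
    have := hua.le_of_tendsto hut n
    linarith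
  have ha : ∀ n, (z n).1.a = ∑ i ∈ Finset.range n, (cond (α i) (dl i) 0 : ℝ) := by
    intro n
    induction n with
    | zero => rw [hz0]; simp [s0]
    | succ n ih => rw [(hz n).a', hn, ih, Finset.sum_range_succ]
  have hat : Tendsto (fun n => (z n).1.a) atTop (𝓝 (ylab α)) := by
    simp only [ha]
    exact (dl_hasSum α).tendsto_sum_nat
  -- the gate
  let G0 : XX A := ⟨road vi (ylab α) (log 2), road_legal hα _⟩
  have hre2 : re (log 2) = log (4 / 3) := by
    unfold re; rw [l83]; rw [min_eq_left (by linarith), max_eq_right log43_pos.le]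
  have hG0a : G0.1.a = ylab α := by
    show ylab α * (re (log 2) / log (4 / 3)) = _
    rw [hre2, div_self log43_pos.ne', mul_one]
  have hG0e : G0.1.e = log (4 / 3) := hre2
  have hpt : ∀ n, dist ((z n).1.F (tn n)) G0 ≤ (log 2 - log (qq n)) + |(z n).1.a - ylab α| := by
    intro n
    have hi := hI n
    have pv := hi.pv
    have pu := hi.pu
    have pe := hi.pe
    have pa := hi.pa
    rw [hn] at pv pu pe pa
    have h2 : 0 ≤ log 2 - log (qq n) := by
      have := Real.log_le_log (qq_pos n) (qq_bd n).2.1.le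
      linarith
    have h3 := abs_nonneg ((z n).1.a - ylab α)
    show dist ((z n).1.F (tn n)).1 G0.1 ≤ _
    apply dist_nested_le
    · rw [pv]; exact hvle n
    · rw [pu]
      show vi + 5 ≤ _
      have := hule n; linarith
    · rw [pe, hG0e]
    · unfold lv
      rw [pe, hG0e]
      have e1 : sz ((z n).1.F (tn n)).1 = 12 / qq n := by unfold sz; rw [pv, pu]; ring
      have e2 : sz G0.1 = 6 := by
        show 1 + (vi + 5 - vi) = 6
        ring
      rw [e1, e2, Real.log_div (by norm_num) (qq_pos n).ne']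
      have e3 : log (12 : ℝ) = log 6 + log 2 := by
        rw [← Real.log_mul (by norm_num) (by norm_num)]; norm_num
      rw [e3]; linarith
    · rw [pa, hG0a]; linarith
  have hlim : Tendsto (fun n => (z n).1.F (tn n)) atTop (𝓝 G0) := by
    rw [tendsto_iff_dist_tendsto_zero]
    apply squeeze_zero (fun n => dist_nonneg) hpt
    have e1 : Tendsto (fun n => log 2 - log (qq n)) atTop (𝓝 (log 2 - log 2)) :=
      (qq_tendsto.log (by norm_num)).const_sub _
    have e2 : Tendsto (fun n => |(z n).1.a - ylab α|) atTop (𝓝 |ylab α - ylab α|) :=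
      (hat.sub_const _).abs
    have e3 := e1.add e2
    simpa using e3
  obtain ⟨G1, g1, g2, g3⟩ := limit_path (fun n => (z n).1.F) tn G0 (fun n => (hI n).lip) tn_mono
    (fun n s hs => (hz n).agree s (by rw [hn]; exact hs))
    (fun n s hs => by
      have := (hI n).const s (by rw [hn]; exact hs)
      rw [hn] at this
      exact this) hlim
  have hG1g : G1 Tg = G0 := g3 Tg tn_le
  -- the road
  let σ : NNReal → XX A := fun t => ⟨road vi (ylab α) t, road_legal hα _⟩
  have hj : G1 Tg = σ Tg := hG1g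
  set G2 := glue G1 σ Tg with hG2
  have hTgT1 : Tg ≤ T1 := by
    rw [← NNReal.coe_le_coe, coe_Tg, coe_T1]
    exact Real.log_le_log (by norm_num) (by norm_num)
  have hG2l : LipschitzWith 1 G2 := by
    apply glue_lip g1 _ hj
    intro s t _ hst
    exact road_dist vi (ylab_nonneg α) (ylab_le α) (NNReal.coe_le_coe.2 hst)
  have hre0 : ∀ t : NNReal, T1 ≤ t → re t = 0 := by
    intro t ht
    have h' : log (8 / 3) ≤ (t : ℝ) := NNReal.coe_le_coe.2 ht
    have := log43_pos
    unfold re; rw [min_eq_right (by linarith), max_eq_left (by linarith)]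
  have hG2v : ∀ t : NNReal, T1 ≤ t → G2 t = σ t := fun t ht => glue_ge (hTgT1.trans ht) hj
  have hσc : ∀ t : NNReal, T1 ≤ t → σ t = σ T1 := by
    intro t ht
    apply Subtype.ext
    show road _ _ _ = road _ _ _
    unfold road
    apply Pt.ext' <;> simp only [hre0 t ht, hre0 T1 le_rfl]
  have hG2n : ∀ n, ∀ t ≤ tn n, G2 t = (z n).1.F t := by
    intro n t ht
    rw [hG2, glue_le (ht.trans (tn_le n))]
    exact g2 n t ht
  have hG20 : G2 0 = x0 A := by
    rw [hG2n 0 0 zero_le]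
    exact (hI 0).zero
  have hgl := (hΦ.1 G2 hG2l hG20).1
  have hg0 := (hΦ.1 G2 hG2l hG20).2
  have hT16 : (T1 : ℝ) ≤ log 6 := by
    rw [coe_T1]; exact Real.log_le_log (by norm_num) (by norm_num)
  obtain ⟨c1, c2, c3⟩ := g_low hgl hg0 hT16
  have hexpT1 : exp (T1 : ℝ) = 8 / 3 := by rw [coe_T1, Real.exp_log (by norm_num)]
  have h16 : sz (Φ G2 T1).1 * exp (T1 : ℝ) ≤ 16 := by
    rw [hexpT1] at c3 ⊢; linarith
  have hk : ∀ n, (z n).1.v ≤ klo T1 (Φ G2 T1).1 ∧ khi T1 (Φ G2 T1).1 ≤ (z n).1.v + 12 / qq n - 1 := by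
    intro n
    have hag : Φ G2 (tn n) = Φ (z n).1.F (tn n) :=
      hΦ.2 G2 (z n).1.F hG2l hG20 (hI n).lip (hI n).zero (tn n) (hG2n n)
    have hd : dist (Φ (z n).1.F (tn n)).1 (Φ G2 T1).1 ≤ (T1 : ℝ) - tn n := by
      have := of_lip hgl ((tn_le n).trans hTgT1)
      rw [hag] at this
      exact this
    obtain ⟨n1, n2⟩ := k_nested hd h16
    have lo := (hI n).lo
    have hi := (hI n).hi
    rw [hn] at lo hi
    exact ⟨lo.trans n1, n2.trans hi⟩
  have hlo : vi ≤ klo T1 (Φ G2 T1).1 := ciSup_le (fun n => (hk n).1)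
  have hhi : khi T1 (Φ G2 T1).1 ≤ vi + 5 := by
    have h1 : ∀ n, khi T1 (Φ G2 T1).1 + 1 ≤ (z n).1.v + 12 / qq n := fun n => by
      have := (hk n).2; linarith
    have := ge_of_tendsto' hut h1
    linarith
  refine ⟨G2, ⟨hG2l, hG20, ?_, le_rfl, ?_, ?_, ?_, ?_, ?_, c1, c2, h16⟩⟩
  · intro t ht
    rw [hG2v t ht, hG2v T1 le_rfl, hσc t ht]
  · rw [hG2v T1 le_rfl]
    show re T1 = 0
    exact hre0 T1 le_rfl
  · rw [hG2v T1 le_rfl]
    show ylab α * (re T1 / log (4 / 3)) = 0
    rw [hre0 T1 le_rfl]; simp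
  · rw [hG2v T1 le_rfl]
    show 1 + (vi + 5 - vi) = _
    rw [Real.exp_neg, hexpT1]; norm_num
  · rw [hG2v T1 le_rfl]
    exact hlo
  · rw [hG2v T1 le_rfl]
    exact hhi


end PartI

section PartJ
open Real


open Filter Topology

structure Nx2 {A : Set (ℝ × ℝ)} (Φ : (NNReal → XX A) → (NNReal → XX A))
    (F F' : NNReal → XX A) (s s' : NNReal) : Prop where
  le : s ≤ s'
  agree : ∀ t ≤ s, F' t = F t
  pv : (F' s').1.v = klo s (Φ F s).1
  pu : (F' s').1.u = khi s (Φ F s).1
  eq : exp (s' : ℝ) * (8 * rt s (Φ F s).1 - rt s (Φ F s).1 ^ 2 * exp (s : ℝ)) = 16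

theorem step2 {A : Set (ℝ × ℝ)} {Φ : (NNReal → XX A) → (NNReal → XX A)} (hΦ : Valid A Φ)
    (x : { x : (NNReal → XX A) × NNReal // Inv2 Φ x.1 x.2 }) :
    ∃ x' : { x : (NNReal → XX A) × NNReal // Inv2 Φ x.1 x.2 }, Nx2 Φ x.1.1 x'.1.1 x.1.2 x'.1.2 := by
  obtain ⟨⟨F, s⟩, ⟨lip, zero, const, ge, pe, pa, ps, lo, hi, ce, ca, cs⟩⟩ := x
  simp only at lip zero const ge pe pa ps lo hi ce ca cs
  have hgl := (hΦ.1 F lip zero).1
  have hg0 := (hΦ.1 F lip zero).2
  set c := (Φ F s).1 with hc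
  set R := rt s c with hR
  set z := exp (s : ℝ) with hz
  have hz0 : 0 < z := exp_pos _
  have hR0 : 0 < R := rt_pos _ _
  have hRz : R ^ 2 * z = sz c := rt_sq' _ _
  have hsc : 1 ≤ sz c := one_le_sz c
  have hRz4 : R * z ≤ 4 := by
    have h1 : (R * z) ^ 2 ≤ 4 ^ 2 := by
      have : (R * z) ^ 2 = sz c * z := by rw [← hRz]; ring
      rw [this]; linarith
    exact (abs_le_of_sq_le_sq' h1 (by norm_num)).2
  have hzneg : exp (-(s : ℝ)) = 1 / z := by rw [Real.exp_neg, one_div]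
  have hz16 : z ≤ 16 := by
    have h1 := one_le_sz (F s).1
    rw [ps, hzneg, mul_one_div, le_div_iff₀ hz0] at h1
    linarith
  have hz83 : 8 / 3 ≤ z := by
    have h1 : log (8 / 3) ≤ (s : ℝ) := NNReal.coe_le_coe.2 ge
    rwa [Real.log_le_iff_le_exp (by norm_num)] at h1
  have hR4 : 1 / 4 ≤ R := by
    by_contra hcon
    push Not at hcon
    have h1 : R ^ 2 < (1 / 4) ^ 2 := by nlinarith
    nlinarith
  set D := 8 * R - R ^ 2 * z with hD
  have hDR : 4 * R ≤ D := by rw [hD]; nlinarith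
  have hD1 : 1 ≤ D := by linarith
  have hDz : D * z ≤ 16 := by rw [hD]; nlinarith [sq_nonneg (4 - R * z)]
  have hksz : 1 + (khi s c - klo s c) = D := k_size _ _
  have hz'1 : z ≤ 16 / D := by rw [le_div_iff₀ (by linarith)]; linarith
  have hz'0 : 0 ≤ log (16 / D) := Real.log_nonneg (by linarith)
  let s' : NNReal := ⟨log (16 / D), hz'0⟩
  have hs'c : (s' : ℝ) = log (16 / D) := rfl
  have hexps' : exp (s' : ℝ) = 16 / D := by rw [hs'c, Real.exp_log (by linarith)]
  have hexpns' : exp (-(s' : ℝ)) = D / 16 := by rw [Real.exp_neg, hexps', inv_div]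
  have hss' : s ≤ s' := by
    rw [← NNReal.coe_le_coe, hs'c, Real.le_log_iff_exp_le (by linarith)]
    exact hz'1
  let Q : Pt := ⟨klo s c, khi s c, 0, 0, by linarith⟩
  have hQs : sz Q = D := hksz
  have hPs : sz (F s).1 = 16 / z := by rw [ps, hzneg]; ring
  obtain ⟨F', f1, f2, f3⟩ := extend F lip s s' 16 (by norm_num) hss' Q ps
    (by rw [hexpns', hQs]; ring) lo hi (by rw [pe]) (by
      rw [pa]
      show |(0:ℝ) - 0| * _ ≤ _
      rw [sub_self, abs_zero, zero_mul]
      have h1 : exp (-(s' : ℝ)) ≤ exp (-(s : ℝ)) :=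
        Real.exp_le_exp.2 (by have := NNReal.coe_le_coe.2 hss'; linarith)
      linarith) (by
      intro p hp1 _ hp3 hp4
      left
      rw [pe] at hp1
      refine ⟨hp1, hp4 pa rfl, ?_⟩
      rw [hPs] at hp3
      have h1 : 16 / z ≤ 6 := by rw [div_le_iff₀ hz0]; linarith
      unfold sz at hp3
      linarith)
  have hF'0 : F' 0 = x0 A := by rw [f2 0 zero_le]; exact zero
  have hag : Φ F' s = Φ F s := hΦ.2 F' F f1 hF'0 lip zero s f2
  have hgl' := (hΦ.1 F' f1 hF'0).1
  set c' := (Φ F' s').1 with hc'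
  have hdist : dist c c' ≤ (s' : ℝ) - s := by
    have := of_lip hgl' hss'
    rw [hag] at this
    exact this
  have hlvc : lv c = log (sz c) := by unfold lv; rw [ce]; ring
  have hRz' : R * (16 / D) ≤ 4 := by
    rw [← mul_div_assoc, div_le_iff₀ (by linarith)]; linarith
  have hlvc' : lv c' ≤ log 16 - s' := by
    have h1 := lv_sub_le c' c
    rw [dist_comm] at h1
    have h2 : log (sz c * (16 / D) * (16 / D)) ≤ log (16 * z) := by
      apply Real.log_le_log (by positivity)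
      rw [← hRz]
      have h3 : (R * (16 / D)) ^ 2 ≤ 4 ^ 2 := by
        apply pow_le_pow_left₀ _ hRz'
        positivity
      nlinarith
    rw [Real.log_mul (by positivity) (by positivity), Real.log_mul (by positivity) (by positivity),
      Real.log_mul (by norm_num) hz0.ne', hz, Real.log_exp] at h2
    rw [← hs'c] at h2
    linarith
  have hT1 : log 16 - (s' : ℝ) ≤ log 6 := by
    have h1 : log (8 / 3) ≤ (s' : ℝ) := NNReal.coe_le_coe.2 (ge.trans hss')
    have h2 : log (16 : ℝ) = log 6 + log (8 / 3) := by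
      rw [← Real.log_mul (by norm_num) (by norm_num)]; norm_num
    linarith
  obtain ⟨d1, d2, d3⟩ := legal_low (Φ F' s').2 (hlvc'.trans hT1)
  have hsz' : sz c' * exp (s' : ℝ) ≤ 16 := by
    have h1 : log (sz c') ≤ log 16 - s' := by
      have : lv c' = log (sz c') := by unfold lv; rw [d1]; ring
      linarith
    have h2 : log (sz c' * exp (s' : ℝ)) ≤ log 16 := by
      rw [Real.log_mul (sz_pos _).ne' (exp_pos _).ne', Real.log_exp]; linarith
    exact (Real.log_le_log_iff (mul_pos (sz_pos _) (exp_pos _)) (by norm_num)).1 h2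
  obtain ⟨n1, n2⟩ := k_nested hdist hsz'
  have hF' : (F' s').1 = Q := f3 _ le_rfl
  refine ⟨⟨(F', s'), ⟨f1, hF'0, ?_, ge.trans hss', ?_, ?_, ?_, ?_, ?_, d1, d2, hsz'⟩⟩,
    ⟨hss', f2, ?_, ?_, ?_⟩⟩
  · intro t ht
    exact Subtype.ext ((f3 t ht).trans hF'.symm)
  · show (F' s').1.e = 0
    rw [hF']
  · show (F' s').1.a = 0
    rw [hF']
  · show sz (F' s').1 = 16 * exp (-(s' : ℝ))
    rw [hF', hQs, hexpns']; ring
  · show (F' s').1.v ≤ klo s' c'
    rw [hF']; exact n1
  · show khi s' c' ≤ (F' s').1.u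
    rw [hF']; exact n2
  · show (F' s').1.v = klo s c
    rw [hF']
  · show (F' s').1.u = khi s c
    rw [hF']
  · show exp (s' : ℝ) * D = 16
    rw [hexps']; field_simp

/-- For every Christian strategy some Lion path catches it by time `TT`. -/
theorem lion_beats {A : Set (ℝ × ℝ)} (hA : ∀ W : List Bool → ℝ, ∃ b, (LL W b, ylab b) ∈ A)
    {Φ : (NNReal → XX A) → (NNReal → XX A)} (hΦ : Valid A Φ) :
    ∃ f : NNReal → XX A, LipschitzWith 1 f ∧ f 0 = x0 A ∧ ∃ t ≤ TT, Φ f t = f t := by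
  obtain ⟨F0, hF0⟩ := reach_road hA hΦ
  choose nx hnx using step2 hΦ
  let z0 : { x : (NNReal → XX A) × NNReal // Inv2 Φ x.1 x.2 } := ⟨(F0, T1), hF0⟩
  let z : ℕ → { x : (NNReal → XX A) × NNReal // Inv2 Φ x.1 x.2 } := fun k => nx^[k] z0
  have hz : ∀ k, Nx2 Φ (z k).1.1 (z (k + 1)).1.1 (z k).1.2 (z (k + 1)).1.2 := by
    intro k
    have : z (k + 1) = nx (z k) := Function.iterate_succ_apply' nx k z0
    rw [this]
    exact hnx _
  let F : ℕ → NNReal → XX A := fun k => (z k).1.1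
  let s : ℕ → NNReal := fun k => (z k).1.2
  have hI : ∀ k, Inv2 Φ (F k) (s k) := fun k => (z k).2
  have hN : ∀ k, Nx2 Φ (F k) (F (k + 1)) (s k) (s (k + 1)) := hz
  clear_value z
  have hsm : Monotone s := monotone_nat_of_le_succ (fun k => (hN k).le)
  have hs16 : ∀ k, s k ≤ TT := by
    intro k
    have h1 := one_le_sz (F k (s k)).1
    rw [(hI k).ps, Real.exp_neg, ← div_eq_mul_inv, le_div_iff₀ (exp_pos _), one_mul] at h1
    rw [← NNReal.coe_le_coe, coe_TT, Real.le_log_iff_exp_le (by norm_num)]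
    exact h1
  have hbs : BddAbove (Set.range s) := ⟨TT, by rintro _ ⟨k, rfl⟩; exact hs16 k⟩
  set si := ⨆ k, s k with hsi
  have hst : Tendsto s atTop (𝓝 si) := tendsto_atTop_ciSup hsm hbs
  have hsile : ∀ k, s k ≤ si := fun k => le_ciSup hbs k
  have hsiT : si ≤ TT := ciSup_le hs16
  have hstR : Tendsto (fun k => (s k : ℝ)) atTop (𝓝 (si : ℝ)) := NNReal.tendsto_coe.2 hst
  -- the end points of the Lion's intervals
  have hv1 : ∀ k, (F k (s k)).1.v ≤ (F (k + 1) (s (k + 1))).1.v := by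
    intro k; rw [(hN k).pv]; exact (hI k).lo
  have hu1 : ∀ k, (F (k + 1) (s (k + 1))).1.u ≤ (F k (s k)).1.u := by
    intro k; rw [(hN k).pu]; exact (hI k).hi
  have hvm : Monotone (fun k => (F k (s k)).1.v) := monotone_nat_of_le_succ hv1
  have hum : Antitone (fun k => (F k (s k)).1.u) := antitone_nat_of_succ_le hu1
  have hvb : ∀ k, (F k (s k)).1.v ≤ (F 0 (s 0)).1.u := fun k =>
    ((F k (s k)).1.hvu).trans (hum (Nat.zero_le k))
  have hub : ∀ k, (F 0 (s 0)).1.v ≤ (F k (s k)).1.u := fun k =>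
    (hvm (Nat.zero_le k)).trans ((F k (s k)).1.hvu)
  have hbv : BddAbove (Set.range (fun k => (F k (s k)).1.v)) :=
    ⟨(F 0 (s 0)).1.u, by rintro _ ⟨k, rfl⟩; exact hvb k⟩
  have hbu : BddBelow (Set.range (fun k => (F k (s k)).1.u)) :=
    ⟨(F 0 (s 0)).1.v, by rintro _ ⟨k, rfl⟩; exact hub k⟩
  set vi := ⨆ k, (F k (s k)).1.v with hvi
  set ui := ⨅ k, (F k (s k)).1.u with hui
  have hvt : Tendsto (fun k => (F k (s k)).1.v) atTop (𝓝 vi) := tendsto_atTop_ciSup hvm hbv
  have hut : Tendsto (fun k => (F k (s k)).1.u) atTop (𝓝 ui) := tendsto_atTop_ciInf hum hbu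
  have hvui : vi ≤ ui := le_of_tendsto_of_tendsto' hvt hut (fun k => (F k (s k)).1.hvu)
  have hszeq : 1 + (ui - vi) = 16 * exp (-(si : ℝ)) := by
    have h1 : Tendsto (fun k => sz (F k (s k)).1) atTop (𝓝 (1 + (ui - vi))) :=
      (hut.sub hvt).const_add 1
    have h2 : Tendsto (fun k => sz (F k (s k)).1) atTop (𝓝 (16 * exp (-(si : ℝ)))) := by
      have h3 : (fun k => sz (F k (s k)).1) = fun k => 16 * exp (-(s k : ℝ)) := by
        ext k; exact (hI k).ps
      rw [h3]
      exact ((Real.continuous_exp.tendsto _).comp hstR.neg).const_mul 16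
    exact tendsto_nhds_unique h1 h2
  let P : Pt := ⟨vi, ui, 0, 0, hvui⟩
  have hPs : sz P = 16 * exp (-(si : ℝ)) := hszeq
  have hT1si : T1 ≤ si := (hI 0).ge.trans (hsile 0)
  have hP6 : ui - vi ≤ 5 := by
    have h1 : 8 / 3 ≤ exp (si : ℝ) := by
      have h2 : log (8 / 3) ≤ (si : ℝ) := NNReal.coe_le_coe.2 hT1si
      rwa [Real.log_le_iff_le_exp (by norm_num)] at h2
    have h3 : 16 * exp (-(si : ℝ)) ≤ 6 := by
      rw [Real.exp_neg, ← div_eq_mul_inv, div_le_iff₀ (exp_pos _)]; linarith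
    linarith
  let PX : XX A := ⟨P, Or.inl ⟨rfl, rfl, hP6⟩⟩
  have hlvF : ∀ k, lv (F k (s k)).1 = log 16 - s k := by
    intro k
    unfold lv
    rw [(hI k).pe, (hI k).ps, Real.log_mul (by norm_num) (exp_pos _).ne', Real.log_exp]; ring
  have hlvP : lv P = log 16 - si := by
    unfold lv
    rw [hPs, Real.log_mul (by norm_num) (exp_pos _).ne', Real.log_exp]
    simp only [P]; ring
  have hdP : ∀ k, dist (F k (s k)) PX ≤ (si : ℝ) - s k := by
    intro k
    show dist (F k (s k)).1 P ≤ _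
    have h0 : (s k : ℝ) ≤ si := NNReal.coe_le_coe.2 (hsile k)
    apply dist_nested_le
    · exact le_ciSup hbv k
    · exact ciInf_le hbu k
    · rw [(hI k).pe]
    · rw [hlvF, hlvP]; linarith
    · rw [(hI k).pa]
      show |(0:ℝ) - 0| ≤ _
      rw [sub_self, abs_zero]; linarith
  have hlimP : Tendsto (fun k => F k (s k)) atTop (𝓝 PX) := by
    rw [tendsto_iff_dist_tendsto_zero]
    apply squeeze_zero (fun n => dist_nonneg) hdP
    have := hstR.const_sub (si : ℝ)
    simpa using this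
  obtain ⟨G, g1, g2, g3⟩ := limit_path F s PX (fun k => (hI k).lip) hsm (fun k t ht => (hN k).agree t ht)
    (fun k t ht => (hI k).const t ht) hlimP
  have hG0 : G 0 = x0 A := by rw [g2 0 0 zero_le]; exact (hI 0).zero
  have hgl := (hΦ.1 G g1 hG0).1
  have hgs : ∀ k, Φ G (s k) = Φ (F k) (s k) := fun k =>
    hΦ.2 G (F k) g1 hG0 (hI k).lip (hI k).zero (s k) (g2 k)
  refine ⟨G, g1, hG0, si, hsiT, ?_⟩
  rw [g3 si hsile]
  -- the gap between the Lion's next interval and the Christian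
  set w : ℕ → ℝ := fun k => rt (s k) (Φ (F k) (s k)).1 * exp (s k : ℝ) with hw
  have hw0 : ∀ k, 0 < w k := fun k => mul_pos (rt_pos _ _) (exp_pos _)
  have hwsq : ∀ k, w k ^ 2 = sz (Φ (F k) (s k)).1 * exp (s k : ℝ) := by
    intro k
    rw [← rt_sq' (s k) (Φ (F k) (s k)).1]; simp only [hw]; ring
  have hw4 : ∀ k, w k ≤ 4 := by
    intro k
    have h1 : w k ^ 2 ≤ 4 ^ 2 := by rw [hwsq]; linarith [(hI k).cs]
    exact (abs_le_of_sq_le_sq' h1 (by norm_num)).2
  have hweq : ∀ k, (4 - w k) ^ 2 = 16 * (1 - exp (-((s (k + 1) : ℝ) - s k))) := by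
    intro k
    have h1 := (hN k).eq
    have h2 : exp (-((s (k + 1) : ℝ) - s k)) = exp (s k : ℝ) / exp (s (k + 1) : ℝ) := by
      rw [← Real.exp_sub]; congr 1; ring
    rw [h2]
    have h3 : 16 * (exp (s k : ℝ) / exp (s (k + 1) : ℝ)) = w k * (8 - w k) := by
      rw [← mul_div_assoc, div_eq_iff (exp_pos _).ne', ← h1]
      simp only [hw]; ring
    linarith
  have hwlim : Tendsto w atTop (𝓝 4) := by
    have h1 : Tendsto (fun k => 16 * (1 - exp (-((s (k + 1) : ℝ) - s k)))) atTop (𝓝 (16 * (1 - exp (-((si : ℝ) - si))))) := by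
      have h2 : Tendsto (fun k => (s (k + 1) : ℝ) - s k) atTop (𝓝 ((si : ℝ) - si)) :=
        ((tendsto_add_atTop_iff_nat 1).2 hstR).sub hstR
      exact (((Real.continuous_exp.tendsto _).comp h2.neg).const_sub 1).const_mul 16
    have h3 : 16 * (1 - exp (-((si : ℝ) - si))) = 0 := by simp
    rw [h3] at h1
    have h4 : Tendsto (fun k => sqrt ((4 - w k) ^ 2)) atTop (𝓝 (sqrt 0)) := by
      have h5 : (fun k => sqrt ((4 - w k) ^ 2)) = fun k => sqrt (16 * (1 - exp (-((s (k + 1) : ℝ) - s k)))) := by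
        ext k; rw [hweq]
      rw [h5]
      exact h1.sqrt
    have h6 : (fun k => sqrt ((4 - w k) ^ 2)) = fun k => 4 - w k := by
      ext k; exact Real.sqrt_sq (by linarith [hw4 k])
    rw [h6, Real.sqrt_zero] at h4
    have h7 := h4.const_sub 4
    simpa using h7
  have hgap : ∀ k, dist (F (k + 1) (s (k + 1))) (Φ (F k) (s k)) ≤ 2 * (log 4 - log (w k)) := by
    intro k
    show dist (F (k + 1) (s (k + 1))).1 (Φ (F k) (s k)).1 ≤ _
    set c := (Φ (F k) (s k)).1 with hc
    have hcs := (hI k).cs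
    have hR0 : 0 < rt (s k) c := rt_pos _ _
    have h4R : sz c ≤ 4 * rt (s k) c := by
      have h1 := rt_sq' (s k) c
      have h2 : rt (s k) c * exp (s k : ℝ) ≤ 4 := hw4 k
      nlinarith
    have hlw := Real.log_le_log (hw0 k) (hw4 k)
    apply dist_nested_le
    · rw [(hN k).pv]
      show klo (s k) c ≤ c.v
      unfold klo; unfold sz at h4R; linarith
    · rw [(hN k).pu]
      show c.u ≤ khi (s k) c
      unfold khi; unfold sz at h4R; linarith
    · rw [(hI (k + 1)).pe, (hI k).ce]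
    · rw [hlvF]
      have h1 : lv c = log (sz c) := by unfold lv; rw [(hI k).ce]; ring
      rw [h1]
      have h2 : 2 * log (w k) = log (sz c) + s k := by
        have h3 : log (w k ^ 2) = log (sz c * exp (s k : ℝ)) := by rw [hwsq]
        rw [Real.log_pow, Real.log_mul (sz_pos _).ne' (exp_pos _).ne', Real.log_exp] at h3
        exact_mod_cast h3
      have h4 : (s k : ℝ) ≤ s (k + 1) := NNReal.coe_le_coe.2 (hN k).le
      rw [l16]
      have := l4
      linarith
    · rw [(hI (k + 1)).pa, (hI k).ca, sub_self, abs_zero]; linarith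
  have hgaplim : Tendsto (fun k => dist (F (k + 1) (s (k + 1))) (Φ (F k) (s k))) atTop (𝓝 0) := by
    apply squeeze_zero (fun n => dist_nonneg) hgap
    have h1 : Tendsto (fun k => 2 * (log 4 - log (w k))) atTop (𝓝 (2 * (log 4 - log 4))) :=
      ((hwlim.log (by norm_num)).const_sub _).const_mul 2
    simpa using h1
  have hA1 : Tendsto (fun k => F (k + 1) (s (k + 1))) atTop (𝓝 PX) :=
    (tendsto_add_atTop_iff_nat (f := fun k => F k (s k)) 1).2 hlimP
  have hA2 : Tendsto (fun k => Φ (F k) (s k)) atTop (𝓝 (Φ G si)) := by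
    have h1 : Tendsto (fun k => Φ G (s k)) atTop (𝓝 (Φ G si)) :=
      (hgl.continuous.tendsto si).comp hst
    simpa only [hgs] using h1
  have hA3 := hA1.dist hA2
  have hA4 := tendsto_nhds_unique hA3 hgaplim
  exact (dist_eq_zero.1 hA4).symm


end PartJ

section PartK
open Real


theorem exists_A : ∃ A : Set (ℝ × ℝ), ∀ W : List Bool → ℝ,
    (∃ b, (-2 - xi b 1, LL W b) ∉ A) ∧ (∃ b, (LL W b, ylab b) ∈ A) := by
  apply ac_set (fun b => -2 - xi b 1) ylab _ ylab_inj
  intro b b' h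
  simp only at h
  exact xi_one_inj (by simp only; linarith)

theorem path_xy {A : Set (ℝ × ℝ)} (hA : ∀ W : List Bool → ℝ, ∃ b, (LL W b, ylab b) ∈ A) :
    Nonempty (Path (x0 A) (y0 A)) := by
  have hv : Valid A (fun _ _ => y0 A) :=
    ⟨fun f _ _ => ⟨LipschitzWith.const' _, rfl⟩, fun f f' _ _ _ _ t _ => rfl⟩
  obtain ⟨f, hf, hf0, t, _, hft⟩ := lion_beats hA hv
  refine ⟨{ toFun := fun s => f (Real.toNNReal s * t), continuous_toFun := ?_, source' := ?_, target' := ?_ }⟩
  · exact hf.continuous.comp ((continuous_real_toNNReal.comp continuous_subtype_val).mul continuous_const)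
  · simp [hf0]
  · simp [← hft]

theorem main :
  ∃ (X : Type) (_ : MetricSpace X) (x₀ y₀ : X) (T : NNReal),
    Nonempty (Path x₀ y₀) ∧
    (¬ ∃ Φ : (NNReal → X) → (NNReal → X),
        (∀ f : NNReal → X, LipschitzWith 1 f → f 0 = x₀ →
          LipschitzWith 1 (Φ f) ∧ Φ f 0 = y₀) ∧
        (∀ f f' : NNReal → X, LipschitzWith 1 f → f 0 = x₀ →
          LipschitzWith 1 f' → f' 0 = x₀ →
          ∀ t : NNReal, (∀ s ≤ t, f s = f' s) → Φ f t = Φ f' t) ∧
        (∀ f : NNReal → X, LipschitzWith 1 f → f 0 = x₀ →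
          ∀ t ≤ T, Φ f t ≠ f t)) ∧
    (¬ ∃ Ψ : (NNReal → X) → (NNReal → X),
        (∀ g : NNReal → X, LipschitzWith 1 g → g 0 = y₀ →
          LipschitzWith 1 (Ψ g) ∧ Ψ g 0 = x₀) ∧
        (∀ g g' : NNReal → X, LipschitzWith 1 g → g 0 = y₀ →
          LipschitzWith 1 g' → g' 0 = y₀ →
          ∀ t : NNReal, (∀ s ≤ t, g s = g' s) → Ψ g t = Ψ g' t) ∧
        (∀ g : NNReal → X, LipschitzWith 1 g → g 0 = y₀ →
          ∃ t ≤ T, Ψ g t = g t)) := by
  obtain ⟨A, hA⟩ := exists_A
  refine ⟨XX A, inferInstance, x0 A, y0 A, TT, path_xy (fun W => (hA W).2), ?_, ?_⟩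
  · rintro ⟨Φ, h1, h2, h3⟩
    obtain ⟨f, hf, hf0, t, ht, hft⟩ := lion_beats (fun W => (hA W).2) (Φ := Φ) ⟨h1, h2⟩
    exact h3 f hf hf0 t ht hft
  · rintro ⟨Ψ, h1, h2, h3⟩
    exact no_lion (fun W => (hA W).1) Ψ h1 h2 h3


end PartK

end LC

/-- There is a metric space with Lion and Christian starting points joined by a path, and a time T, such that in the game up to time T with speed-1 paths, neither a no-lookahead Christian strategy avoiding capture nor a no-lookahead Lion strategy forcing capture exists. -/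
theorem result :
  ∃ (X : Type) (_ : MetricSpace X) (x₀ y₀ : X) (T : NNReal),
    Nonempty (Path x₀ y₀) ∧
    (¬ ∃ Φ : (NNReal → X) → (NNReal → X),
        (∀ f : NNReal → X, LipschitzWith 1 f → f 0 = x₀ →
          LipschitzWith 1 (Φ f) ∧ Φ f 0 = y₀) ∧
        (∀ f f' : NNReal → X, LipschitzWith 1 f → f 0 = x₀ →
          LipschitzWith 1 f' → f' 0 = x₀ →
          ∀ t : NNReal, (∀ s ≤ t, f s = f' s) → Φ f t = Φ f' t) ∧
        (∀ f : NNReal → X, LipschitzWith 1 f → f 0 = x₀ →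
          ∀ t ≤ T, Φ f t ≠ f t)) ∧
    (¬ ∃ Ψ : (NNReal → X) → (NNReal → X),
        (∀ g : NNReal → X, LipschitzWith 1 g → g 0 = y₀ →
          LipschitzWith 1 (Ψ g) ∧ Ψ g 0 = x₀) ∧
        (∀ g g' : NNReal → X, LipschitzWith 1 g → g 0 = y₀ →
          LipschitzWith 1 g' → g' 0 = y₀ →
          ∀ t : NNReal, (∀ s ≤ t, g s = g' s) → Ψ g t = Ψ g' t) ∧
        (∀ g : NNReal → X, LipschitzWith 1 g → g 0 = y₀ →
          ∃ t ≤ T, Ψ g t = g t)) := by
  exact LC.main

end Pool.Agent.S06837
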