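import Pool.Statements.S06846

set_option autoImplicit false
open Pool Pool.MP_ad5ca6_co

namespace Pool.Agent.S06846

/-- Arcs of the digraph on 12 vertices: vertex `i` lies in column `i / 2`; columns are arranged
cyclically, every vertex points to both vertices of the next column, and the even vertex of each
column points to the odd one. -/
def arc (i j : Fin 12) : Bool :=
  (j.val / 2 == (i.val / 2 + 1) % 6) || (i.val % 2 == 0 && j.val == i.val + 1)

/-- The adjacency matrix. -/
def M : Matrix (Fin 12) (Fin 12) ℂ := fun i j => if arc i j then 1 else 0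

/-- The column of a vertex. -/
def col (i : Fin 12) : ZMod 6 := ((i.val / 2 : ℕ) : ZMod 6)

/-- Number of columns crossed by an arc. -/
def cross (i j : Fin 12) : ℕ := if i.val / 2 = j.val / 2 then 0 else 1

theorem arc_col : ∀ i j : Fin 12, arc i j = true → col j = col i + (cross i j : ZMod 6) := by
  decide +kernel

theorem arc_parity : ∀ i j : Fin 12, arc i j = true → cross i j = 0 →
    i.val % 2 = 0 ∧ j.val % 2 = 1 := by
  decide +kernel

theorem arc_of_M {i j : Fin 12} (h : M i j = 1) : arc i j = true := by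
  by_contra hc
  simp [M, hc] at h

theorem no_short_cycle (m : ℕ) (h2 : 2 ≤ m) (h5 : m ≤ 5) (v : Fin m → Fin 12)
    (h : ∀ i : Fin m, M (v i) (v (finRotate m i)) = 1) : False := by
  have harc : ∀ i, arc (v i) (v (finRotate m i)) = true := fun i => arc_of_M (h i)
  have hsum : ∑ i : Fin m, (cross (v i) (v (finRotate m i)) : ZMod 6) = 0 := by
    have h1 : ∀ i : Fin m, (cross (v i) (v (finRotate m i)) : ZMod 6) =
        col (v (finRotate m i)) - col (v i) := by
      intro i
      rw [arc_col _ _ (harc i)]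
      ring
    rw [Finset.sum_congr rfl (fun i _ => h1 i), Finset.sum_sub_distrib,
      Equiv.sum_comp (finRotate m) (fun i => col (v i)), sub_self]
  have hle : ∑ i : Fin m, cross (v i) (v (finRotate m i)) ≤ 5 := by
    calc ∑ i : Fin m, cross (v i) (v (finRotate m i)) ≤ ∑ _i : Fin m, 1 := by
          refine Finset.sum_le_sum (fun i _ => ?_)
          unfold cross
          split <;> omega
      _ = m := by simp
      _ ≤ 5 := h5
  have hzero : ∑ i : Fin m, cross (v i) (v (finRotate m i)) = 0 := by
    have hd : (6 : ℕ) ∣ ∑ i : Fin m, cross (v i) (v (finRotate m i)) := by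
      rw [← ZMod.natCast_eq_zero_iff]
      push_cast
      exact hsum
    obtain ⟨q, hq⟩ := hd
    omega
  have hall : ∀ i : Fin m, cross (v i) (v (finRotate m i)) = 0 := by
    intro i
    exact (Finset.sum_eq_zero_iff.1 hzero) i (Finset.mem_univ i)
  have i0 : Fin m := ⟨0, by omega⟩
  have h1 := arc_parity _ _ (harc i0) (hall i0)
  have h3 := arc_parity _ _ (harc (finRotate m i0)) (hall (finRotate m i0))
  omega

/-- The Perron eigenvector. -/
noncomputable def x : Fin 12 → ℂ := fun i => if i.val % 2 = 0 then ((Real.sqrt 2 : ℝ) : ℂ) else 1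

theorem sqrt_sq : ((Real.sqrt 2 : ℝ) : ℂ) * ((Real.sqrt 2 : ℝ) : ℂ) = 2 := by
  rw [← Complex.ofReal_mul, Real.mul_self_sqrt (by norm_num)]
  norm_num

theorem eig : M.mulVec x = (1 + ((Real.sqrt 2 : ℝ) : ℂ)) • x := by
  funext i
  have hs := sqrt_sq
  simp only [Matrix.mulVec, dotProduct, Pi.smul_apply, smul_eq_mul]
  fin_cases i <;>
    simp [Fin.sum_univ_succ, M, arc, x] <;>
    first
      | linear_combination (-1 : ℂ) * hs
      | ring1

theorem mem_spectrum : (1 + ((Real.sqrt 2 : ℝ) : ℂ)) ∈ spectrum ℂ M := by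
  rw [spectrum.mem_iff, Matrix.isUnit_iff_isUnit_det, isUnit_iff_ne_zero, not_not]
  refine Matrix.exists_mulVec_eq_zero_iff.1 ⟨x, ?_, ?_⟩
  · intro h
    have := congrFun h 1
    simp [x] at this
  · rw [Matrix.sub_mulVec, eig, Algebra.algebraMap_eq_smul_one, Matrix.smul_mulVec, Matrix.one_mulVec,
      sub_self]

theorem norm_bound : ((12 : ℕ) : ℝ) / ((5 : ℕ) : ℝ) ≤ ‖(1 + ((Real.sqrt 2 : ℝ) : ℂ))‖ := by
  have h1 : (1 + ((Real.sqrt 2 : ℝ) : ℂ)) = (((1 + Real.sqrt 2) : ℝ) : ℂ) := by push_cast; rfl
  have h0 : 0 ≤ 1 + Real.sqrt 2 := by positivity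
  rw [h1, Complex.norm_real, Real.norm_of_nonneg h0]
  have h2 : (7 : ℝ) / 5 ≤ Real.sqrt 2 := by
    apply Real.le_sqrt_of_sq_le
    norm_num
  push_cast
  linarith

/-- The negation of the preceding statement: For every positive integer k and every n-vertex digraph with 0/1 adjacency matrix and zero diagonal, if some eigenvalue has modulus at least n/k, then the digraph has a directed cycle of length between 2 and k. -/
theorem result :
    ¬ (∀ (n k : ℕ), 0 < k →
      ∀ (A : Matrix (Fin n) (Fin n) ℂ),
        (∀ i j, A i j = 0 ∨ A i j = 1) →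
        (∀ i, A i i = 0) →
        (∃ μ ∈ spectrum ℂ A, (n : ℝ) / (k : ℝ) ≤ ‖μ‖) →
        ∃ m : ℕ, 2 ≤ m ∧ m ≤ k ∧
          ∃ v : Fin m → Fin n, Function.Injective v ∧
            ∀ i : Fin m, A (v i) (v (finRotate m i)) = 1) := by
  intro H
  obtain ⟨m, h2, h5, v, -, hv⟩ := H 12 5 (by norm_num) M
    (by
      intro i j
      by_cases h : arc i j = true
      · right; simp [M, h]
      · left; simp [M, h])
    (by
      intro i
      have h : ∀ i : Fin 12, arc i i = false := by decide +kernel
      simp [M, h i])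
    ⟨_, mem_spectrum, norm_bound⟩
  exact no_short_cycle m h2 h5 v hv

end Pool.Agent.S06846
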