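import Pool.Statements.S06862

set_option autoImplicit false
open Pool Pool.MP_aea48c_co

namespace Pool.Agent.S06862

section core

open Finset

/-- weight of an optional element -/
def wt {E : Type} (x : ℝ) (o : Option E) : ℝ := if o.isSome then x else 1

/-- the sets on which `σ` is injective, with weight `x ^ card`, are bounded by the product -/
theorem transversal_sum {E : Type} [Fintype E] [DecidableEq E] {M : ℕ} (σ : E → Fin M) (x : ℝ)
    (hx : 0 ≤ x) :
    ∑ T ∈ (univ : Finset (Finset E)).filter (fun T => ∀ a ∈ T, ∀ b ∈ T, σ a = σ b → a = b),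
      x ^ T.card ≤ ∏ v : Fin M, (1 + x * ((univ.filter (fun e => σ e = v)).card : ℝ)) := by
  classical
  set F := (univ : Finset (Finset E)).filter (fun T => ∀ a ∈ T, ∀ b ∈ T, σ a = σ b → a = b)
    with hF
  -- the encoding
  let h : Finset E → Fin M → Option E := fun T v =>
    if hv : ∃ e ∈ T, σ e = v then some hv.choose else none
  have hsome : ∀ T ∈ F, ∀ e ∈ T, h T (σ e) = some e := by
    intro T hT e he
    have hT' := (mem_filter.1 hT).2
    have hv : ∃ e' ∈ T, σ e' = σ e := ⟨e, he, rfl⟩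
    simp only [h, dif_pos hv]
    congr 1
    exact hT' _ hv.choose_spec.1 _ he hv.choose_spec.2
  have hmem : ∀ T : Finset E, ∀ v e, h T v = some e → e ∈ T ∧ σ e = v := by
    intro T v e hh
    by_cases hv : ∃ e' ∈ T, σ e' = v
    · simp only [h, dif_pos hv, Option.some.injEq] at hh
      rw [← hh]
      exact hv.choose_spec
    · simp only [h, dif_neg hv] at hh
      cases hh
  have hinj : Set.InjOn h (F : Set (Finset E)) := by
    intro T hT T' hT' heq
    ext e
    constructor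
    · intro he
      have := hsome T hT e he
      rw [heq] at this
      exact (hmem _ _ _ this).1
    · intro he
      have := hsome T' hT' e he
      rw [← heq] at this
      exact (hmem _ _ _ this).1
  have hw : ∀ T ∈ F, x ^ T.card = ∏ v : Fin M, wt x (h T v) := by
    intro T hT
    have hT' := (mem_filter.1 hT).2
    have h1 : ∏ v : Fin M, wt x (h T v) = ∏ v ∈ T.image σ, x := by
      rw [← Finset.prod_subset (subset_univ (T.image σ))]
      · refine Finset.prod_congr rfl (fun v hv => ?_)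
        obtain ⟨e, he, rfl⟩ := mem_image.1 hv
        rw [hsome T hT e he]
        simp [wt]
      · intro v _ hv
        have : h T v = none := by
          by_contra hne
          obtain ⟨e, he⟩ := Option.ne_none_iff_exists'.1 hne
          obtain ⟨h1, h2⟩ := hmem _ _ _ he
          exact hv (mem_image.2 ⟨e, h1, h2⟩)
        rw [this]
        simp [wt]
    rw [h1, Finset.prod_const, Finset.card_image_of_injOn]
    intro a ha b hb hab
    exact hT' a ha b hb hab
  calc ∑ T ∈ F, x ^ T.card = ∑ T ∈ F, ∏ v : Fin M, wt x (h T v) := Finset.sum_congr rfl hw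
    _ = ∑ p ∈ F.image h, ∏ v : Fin M, wt x (p v) := by
        rw [Finset.sum_image]
        intro a ha b hb hab
        exact hinj ha hb hab
    _ ≤ ∑ p ∈ Fintype.piFinset (fun v : Fin M => insertNone (univ.filter (fun e => σ e = v))),
        ∏ v : Fin M, wt x (p v) := by
        apply Finset.sum_le_sum_of_subset_of_nonneg
        · intro p hp
          obtain ⟨T, _, rfl⟩ := mem_image.1 hp
          rw [Fintype.mem_piFinset]
          intro v
          rw [mem_insertNone]
          intro e he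
          exact mem_filter.2 ⟨mem_univ _, (hmem _ _ _ he).2⟩
        · intro p _ _
          apply Finset.prod_nonneg
          intro v _
          unfold wt
          split_ifs <;> linarith
    _ = ∏ v : Fin M, ∑ o ∈ insertNone (univ.filter (fun e => σ e = v)), wt x o := by
        rw [Finset.prod_univ_sum]
    _ = ∏ v : Fin M, (1 + x * ((univ.filter (fun e => σ e = v)).card : ℝ)) := by
        refine Finset.prod_congr rfl (fun v _ => ?_)
        rw [Finset.sum_insertNone]
        simp [wt, mul_comm]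

/-- arithmetic and geometric means, in product form -/
theorem prod_bound {M : ℕ} (y : Fin M → ℝ) (hy : ∀ v, 0 ≤ y v) (θ : ℝ) (hθ : 0 < θ)
    (hsum : ∑ v, y v = θ * M) : ∏ v, (1 + y v) ≤ (1 + θ) ^ M := by
  have h1 : ∀ v, 1 + y v ≤ (1 + θ) * Real.exp ((y v - θ) / (1 + θ)) := by
    intro v
    have := Real.add_one_le_exp ((y v - θ) / (1 + θ))
    have h2 : 1 + y v = (1 + θ) * ((y v - θ) / (1 + θ) + 1) := by
      field_simp
      ring
    rw [h2]
    exact mul_le_mul_of_nonneg_left this (by linarith)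
  calc ∏ v, (1 + y v) ≤ ∏ v, (1 + θ) * Real.exp ((y v - θ) / (1 + θ)) :=
        Finset.prod_le_prod (fun v _ => by linarith [hy v]) (fun v _ => h1 v)
    _ = (1 + θ) ^ M * Real.exp (∑ v, (y v - θ) / (1 + θ)) := by
        rw [Finset.prod_mul_distrib, ← Real.exp_sum]
        simp
    _ = (1 + θ) ^ M := by
        rw [← Finset.sum_div, Finset.sum_sub_distrib, hsum]
        simp [mul_comm]

/-- total weight of all subsets -/
theorem total_weight {E : Type} [Fintype E] [DecidableEq E] (x : ℝ) :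
    ∑ T : Finset E, x ^ T.card = (1 + x) ^ (Fintype.card E) := by
  have := Finset.sum_pow_mul_eq_add_pow x 1 (univ : Finset E)
  simp only [one_pow, mul_one, Finset.powerset_univ, Finset.card_univ] at this
  rw [this, add_comm]

/-- The averaging step: `n = k^2`, labels at most `s`, `M` classes. -/
theorem averaging (k s M m0 : ℕ) (θ : ℝ) (hk : 0 < k) (hθ : 0 < θ) (hM : 2 * s < M)
    (hθM : θ * M = (k : ℝ) ^ 3)
    (hall : ∀ T : Finset (Fin (k ^ 2) × Fin (k ^ 2)), T.card ≤ m0 →
      ∃ f : (Fin (k ^ 2) ⊕ Fin (k ^ 2)) → Fin (s + 1), ∀ a ∈ T, ∀ b ∈ T,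
        (f (Sum.inl a.1) : ℕ) + f (Sum.inr a.2) = f (Sum.inl b.1) + f (Sum.inr b.2) → a = b) :
    (1 + 1 / (k : ℝ)) ^ (k ^ 4) ≤ (1 / 2) ^ m0 * (1 + 2 * (1 / (k : ℝ))) ^ (k ^ 4) +
      ((s : ℝ) + 1) ^ (2 * k ^ 2) * (1 + θ) ^ M := by
  classical
  set E := Fin (k ^ 2) × Fin (k ^ 2) with hE
  set x : ℝ := 1 / (k : ℝ) with hx
  have hk' : (0 : ℝ) < k := by exact_mod_cast hk
  have hx0 : 0 < x := by positivity
  have hcard : Fintype.card E = k ^ 4 := by
    simp only [hE, Fintype.card_prod, Fintype.card_fin]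
    ring
  let σ : ((Fin (k ^ 2) ⊕ Fin (k ^ 2)) → Fin (s + 1)) → E → Fin M := fun f e =>
    ⟨(f (Sum.inl e.1) : ℕ) + f (Sum.inr e.2), by
      have h1 := (f (Sum.inl e.1)).2
      have h2 := (f (Sum.inr e.2)).2
      omega⟩
  let Tr : ((Fin (k ^ 2) ⊕ Fin (k ^ 2)) → Fin (s + 1)) → Finset (Finset E) := fun f =>
    (univ : Finset (Finset E)).filter (fun T => ∀ a ∈ T, ∀ b ∈ T, σ f a = σ f b → a = b)
  have htot := total_weight (E := E) x
  have htot2 := total_weight (E := E) (2 * x)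
  rw [hcard] at htot htot2
  rw [← htot, ← htot2]
  -- split by size
  have hsplit : ∑ T : Finset E, x ^ T.card ≤
      ∑ T : Finset E, ((1 / 2) ^ m0 * (2 * x) ^ T.card) +
      ∑ f : ((Fin (k ^ 2) ⊕ Fin (k ^ 2)) → Fin (s + 1)), ∑ T ∈ Tr f, x ^ T.card := by
    have hpt : ∀ T : Finset E, x ^ T.card ≤ (1 / 2) ^ m0 * (2 * x) ^ T.card +
        ∑ f : ((Fin (k ^ 2) ⊕ Fin (k ^ 2)) → Fin (s + 1)), (if T ∈ Tr f then x ^ T.card else 0) := by
      intro T
      have hnn : 0 ≤ ∑ f : ((Fin (k ^ 2) ⊕ Fin (k ^ 2)) → Fin (s + 1)),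
          (if T ∈ Tr f then x ^ T.card else 0) := by
        apply Finset.sum_nonneg
        intro f _
        split_ifs <;> positivity
      rcases le_total T.card m0 with hT | hT
      · obtain ⟨f, hf⟩ := hall T hT
        have hmem : T ∈ Tr f := by
          refine mem_filter.2 ⟨mem_univ _, fun a ha b hb hab => hf a ha b hb ?_⟩
          exact congrArg Fin.val hab
        have h1 : (if T ∈ Tr f then x ^ T.card else 0) ≤
            ∑ f : ((Fin (k ^ 2) ⊕ Fin (k ^ 2)) → Fin (s + 1)),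
              (if T ∈ Tr f then x ^ T.card else 0) :=
          Finset.single_le_sum (f := fun f => if T ∈ Tr f then x ^ T.card else 0)
            (fun f _ => by split_ifs <;> positivity) (mem_univ f)
        rw [if_pos hmem] at h1
        have : 0 ≤ (1 / 2 : ℝ) ^ m0 * (2 * x) ^ T.card := by positivity
        linarith
      · have h1 : x ^ T.card ≤ (1 / 2) ^ m0 * (2 * x) ^ T.card := by
          rw [mul_pow, ← mul_assoc]
          have h2 : (1 : ℝ) ≤ (1 / 2) ^ m0 * 2 ^ T.card := by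
            obtain ⟨d, hd⟩ := Nat.exists_eq_add_of_le hT
            rw [hd, pow_add, ← mul_assoc, ← mul_pow]
            norm_num
            exact one_le_pow₀ (by norm_num)
          nlinarith [pow_pos hx0 T.card]
        linarith
    refine (Finset.sum_le_sum (fun T _ => hpt T)).trans ?_
    rw [Finset.sum_add_distrib]
    gcongr
    rw [Finset.sum_comm]
    refine Finset.sum_le_sum (fun f _ => ?_)
    rw [← Finset.sum_filter]
    simp
  refine hsplit.trans ?_
  rw [← Finset.mul_sum]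
  gcongr
  -- each labelling
  have hf : ∀ f : ((Fin (k ^ 2) ⊕ Fin (k ^ 2)) → Fin (s + 1)),
      ∑ T ∈ Tr f, x ^ T.card ≤ (1 + θ) ^ M := by
    intro f
    refine (transversal_sum (σ f) x hx0.le).trans ?_
    apply prod_bound (fun v => x * ((univ.filter (fun e => σ f e = v)).card : ℝ))
      (fun v => by positivity) θ hθ
    rw [← Finset.mul_sum, hθM]
    have h1 : ∑ v : Fin M, ((univ.filter (fun e => σ f e = v)).card : ℝ) = (k : ℝ) ^ 4 := by
      rw [← Nat.cast_sum, ← Finset.card_eq_sum_card_fiberwise (f := σ f) (s := (univ : Finset E))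
        (t := univ) (fun _ _ => by simp), Finset.card_univ, hcard]
      push_cast
      rfl
    rw [h1, hx]
    field_simp
  refine (Finset.sum_le_sum (fun f _ => hf f)).trans ?_
  rw [Finset.sum_const, nsmul_eq_mul]
  gcongr
  rw [Finset.card_univ, Fintype.card_fun, Fintype.card_fin, Fintype.card_sum, Fintype.card_fin]
  push_cast
  rw [two_mul]


/-- the numerical contradiction -/
theorem numeric (c : ℕ) (hc : 0 < c) : ∃ k : ℕ, 0 < k ∧
    (1 / 2) ^ (2 * k ^ 3) * (1 + 2 * (1 / (k : ℝ))) ^ (k ^ 4) +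
      (((c * (2 * k ^ 3) : ℕ) : ℝ) + 1) ^ (2 * k ^ 2) * (1 + 1 / (5 * (c : ℝ))) ^ (5 * c * k ^ 3) <
    (1 + 1 / (k : ℝ)) ^ (k ^ 4) := by
  have hc' : (0 : ℝ) < c := by exact_mod_cast hc
  have hc1 : (1 : ℝ) ≤ c := by exact_mod_cast hc
  set γ : ℝ := (1 + 1 / (5 * (c : ℝ))) ^ (5 * c) with hγ
  set γ' : ℝ := (1 + 1 / (10 * (c : ℝ))) ^ (10 * c) with hγ'
  have hγ0 : 0 < γ := by positivity
  have hγ'0 : 0 < γ' := by positivity
  have hlt : γ < γ' := by
    have e : γ' = ((1 + 1 / (10 * (c : ℝ))) ^ 2) ^ (5 * c) := by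
      rw [hγ', ← pow_mul]
      congr 1
      ring
    rw [e, hγ]
    apply pow_lt_pow_left₀ _ (by positivity) (by omega)
    have : (1 + 1 / (10 * (c : ℝ))) ^ 2 = 1 + 1 / (5 * c) + 1 / (100 * c ^ 2) := by
      field_simp
      ring
    rw [this]
    have : 0 < 1 / (100 * (c : ℝ) ^ 2) := by positivity
    linarith
  set r : ℝ := γ / γ' with hr
  have hr0 : 0 < r := by positivity
  have hr1 : r < 1 := (div_lt_one hγ'0).2 hlt
  have hlim : Filter.Tendsto (fun k : ℕ => 9 * (c : ℝ) ^ 2 * ((k : ℝ) ^ 6 * r ^ k))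
      Filter.atTop (nhds 0) := by
    have h1 := (tendsto_pow_const_mul_const_pow_of_abs_lt_one 6
      (show |r| < 1 by rw [abs_of_pos hr0]; exact hr1)).const_mul (9 * (c : ℝ) ^ 2)
    simpa using h1
  obtain ⟨K, hK⟩ := Filter.eventually_atTop.1
    ((hlim.eventually (gt_mem_nhds (show (0 : ℝ) < 1 / 2 by norm_num))))
  set k : ℕ := 10 * c * (K + 1) with hk
  have hkpos : 0 < k := by positivity
  have hkK : K ≤ k := by
    rw [hk]
    nlinarith
  have hk10 : 10 ≤ k := by
    rw [hk]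
    nlinarith
  have hsmall := hK k hkK
  have hk' : (0 : ℝ) < k := by exact_mod_cast hkpos
  refine ⟨k, hkpos, ?_⟩
  set A : ℝ := (1 + 1 / (k : ℝ)) ^ k with hA
  have hA0 : 0 < A := by positivity
  -- upper bound for A
  have hA3 : A < 3 := by
    have h1 : A ≤ Real.exp 1 := by
      have h2 : 1 + 1 / (k : ℝ) ≤ Real.exp (1 / k) := by
        have := Real.add_one_le_exp (1 / (k : ℝ))
        linarith
      calc A ≤ (Real.exp (1 / k)) ^ k := pow_le_pow_left₀ (by positivity) h2 k
        _ = Real.exp 1 := by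
          rw [← Real.exp_nat_mul]
          congr 1
          field_simp
    exact h1.trans_lt (Real.exp_one_lt_d9.trans (by norm_num))
  -- lower bound for A
  have hAγ : γ' ≤ A := by
    have e : A = ((1 + 1 / (k : ℝ)) ^ (K + 1)) ^ (10 * c) := by
      rw [hA, ← pow_mul]
      congr 1
      rw [hk]
      ring
    rw [e, hγ']
    apply pow_le_pow_left₀ (by positivity)
    have hb := one_add_mul_le_pow (a := 1 / (k : ℝ)) (by
      have : 0 < 1 / (k : ℝ) := by positivity
      linarith) (K + 1)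
    refine le_trans (le_of_eq ?_) hb
    rw [hk]
    push_cast
    field_simp
  -- powers
  have hpow : (1 + 1 / (k : ℝ)) ^ (k ^ 4) = A ^ (k ^ 3) := by
    rw [hA, ← pow_mul]
    congr 1
    ring
  have hpow2 : (1 + 2 * (1 / (k : ℝ))) ^ (k ^ 4) ≤ A ^ (k ^ 3) * A ^ (k ^ 3) := by
    rw [← hpow, ← mul_pow]
    apply pow_le_pow_left₀ (by positivity)
    have : 0 < 1 / (k : ℝ) := by positivity
    nlinarith
  have hpow3 : (1 + 1 / (5 * (c : ℝ))) ^ (5 * c * k ^ 3) = γ ^ (k ^ 3) := by
    rw [hγ, ← pow_mul]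
  rw [hpow, hpow3]
  have hAk : 0 < A ^ (k ^ 3) := by positivity
  have hk3 : 3 ≤ k ^ 3 := by
    calc 3 ≤ k := by omega
      _ ≤ k ^ 3 := Nat.le_self_pow (by norm_num) k
  have first : (1 / 2) ^ (2 * k ^ 3) * (1 + 2 * (1 / (k : ℝ))) ^ (k ^ 4) ≤
      (27 / 64) * A ^ (k ^ 3) := by
    calc (1 / 2) ^ (2 * k ^ 3) * (1 + 2 * (1 / (k : ℝ))) ^ (k ^ 4) ≤
        (1 / 2) ^ (2 * k ^ 3) * (A ^ (k ^ 3) * A ^ (k ^ 3)) := by gcongr
      _ = (A / 4) ^ (k ^ 3) * A ^ (k ^ 3) := by
          rw [pow_mul, show ((1 : ℝ) / 2) ^ 2 = 1 / 4 by norm_num, ← mul_assoc, ← mul_pow,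
            show (1 : ℝ) / 4 * A = A / 4 by ring]
      _ ≤ (3 / 4) ^ (k ^ 3) * A ^ (k ^ 3) := by gcongr
      _ ≤ (3 / 4) ^ 3 * A ^ (k ^ 3) := by
          have := pow_le_pow_of_le_one (show (0 : ℝ) ≤ 3 / 4 by norm_num) (by norm_num) hk3
          gcongr
      _ = (27 / 64) * A ^ (k ^ 3) := by norm_num
  have second : (((c * (2 * k ^ 3) : ℕ) : ℝ) + 1) ^ (2 * k ^ 2) * γ ^ (k ^ 3) ≤
      (1 / 2) * A ^ (k ^ 3) := by
    have h1 : (((c * (2 * k ^ 3) : ℕ) : ℝ) + 1) ≤ 3 * c * k ^ 3 := by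
      push_cast
      have : (1 : ℝ) ≤ c * k ^ 3 := by
        have : (1 : ℝ) ≤ (k : ℝ) ^ 3 := one_le_pow₀ (by exact_mod_cast hkpos)
        nlinarith
      nlinarith
    have h2 : γ ^ (k ^ 3) = r ^ (k ^ 3) * γ' ^ (k ^ 3) := by
      rw [← mul_pow, hr]
      congr 1
      field_simp
    calc (((c * (2 * k ^ 3) : ℕ) : ℝ) + 1) ^ (2 * k ^ 2) * γ ^ (k ^ 3) ≤
        (3 * c * k ^ 3) ^ (2 * k ^ 2) * (r ^ (k ^ 3) * A ^ (k ^ 3)) := by
          rw [h2]
          gcongr
      _ = (9 * (c : ℝ) ^ 2 * ((k : ℝ) ^ 6 * r ^ k)) ^ (k ^ 2) * A ^ (k ^ 3) := by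
          rw [← mul_assoc]
          congr 1
          rw [pow_mul, show k ^ 3 = k * k ^ 2 by ring, pow_mul r k, ← mul_pow]
          congr 1
          ring
      _ ≤ (1 / 2) ^ (k ^ 2) * A ^ (k ^ 3) := by
          gcongr
      _ ≤ (1 / 2) ^ 1 * A ^ (k ^ 3) := by
          have := pow_le_pow_of_le_one (show (0 : ℝ) ≤ 1 / 2 by norm_num) (by norm_num)
            (show 1 ≤ k ^ 2 from Nat.one_le_pow _ _ hkpos)
          gcongr
      _ = (1 / 2) * A ^ (k ^ 3) := by norm_num
  linarith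

end core

/-- the bipartite graph with edge set `T` -/
def Gr {n : ℕ} (T : Finset (Fin n × Fin n)) : SimpleGraph (Fin n ⊕ Fin n) where
  Adj u v := match u, v with
    | Sum.inl a, Sum.inr b => (a, b) ∈ T
    | Sum.inr b, Sum.inl a => (a, b) ∈ T
    | _, _ => False
  symm := ⟨by
    rintro (x | s) (y | t) h <;> exact h⟩
  loopless := ⟨by
    rintro (x | s) h <;> exact h⟩

theorem Gr_edges {n : ℕ} (T : Finset (Fin n × Fin n)) :
    (Gr T).edgeSet = (fun e : Fin n × Fin n => s(Sum.inl e.1, Sum.inr e.2)) '' (T : Set _) := by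
  ext e
  induction e with
  | _ u v =>
    rw [SimpleGraph.mem_edgeSet]
    constructor
    · intro h
      rcases u with a | a <;> rcases v with b | b
      · exact h.elim
      · exact ⟨(a, b), h, rfl⟩
      · exact ⟨(b, a), h, Sym2.eq_swap⟩
      · exact h.elim
    · rintro ⟨⟨a, b⟩, hab, he⟩
      rw [Sym2.eq_iff] at he
      rcases he with ⟨h1, h2⟩ | ⟨h1, h2⟩
      · subst h1 h2
        exact hab
      · subst h1 h2
        exact hab

theorem result :
    ¬ (∃ c : ℕ, ∀ (V : Type) [Fintype V] (G : SimpleGraph V),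
      0 < Nat.card G.edgeSet →
      ∃ f : V → ℕ, (∀ v, 0 < f v) ∧ (∀ v, f v ≤ c * Nat.card G.edgeSet) ∧
        ∀ a b x y : V, G.Adj a b → G.Adj x y → f a + f b = f x + f y →
          s(a, b) = s(x, y)) := by
  rintro ⟨c0, h⟩
  set c := c0 + 1 with hc
  obtain ⟨k, hk, hnum⟩ := numeric c (Nat.succ_pos _)
  have hc' : (0 : ℝ) < c := by rw [hc]; positivity
  have hall : ∀ T : Finset (Fin (k ^ 2) × Fin (k ^ 2)), T.card ≤ 2 * k ^ 3 →
      ∃ f : (Fin (k ^ 2) ⊕ Fin (k ^ 2)) → Fin (c * (2 * k ^ 3) + 1), ∀ a ∈ T, ∀ b ∈ T,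
        (f (Sum.inl a.1) : ℕ) + f (Sum.inr a.2) = f (Sum.inl b.1) + f (Sum.inr b.2) → a = b := by
    intro T hT
    rcases T.eq_empty_or_nonempty with rfl | hne
    · exact ⟨fun _ => 0, by simp⟩
    · have hfin : (Gr T).edgeSet.Finite := Set.toFinite _
      have hnonempty : (Gr T).edgeSet.Nonempty := by
        rw [Gr_edges]
        exact (Finset.coe_nonempty.2 hne).image _
      have hpos : 0 < Nat.card (Gr T).edgeSet := by
        rw [Nat.card_coe_set_eq]
        exact (Set.ncard_pos hfin).2 hnonempty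
      have hle : Nat.card (Gr T).edgeSet ≤ T.card := by
        rw [Nat.card_coe_set_eq, Gr_edges]
        refine (Set.ncard_image_le (Set.toFinite _)).trans ?_
        rw [Set.ncard_coe_finset]
      obtain ⟨f, _, hf1, hf2⟩ := h _ (Gr T) hpos
      have hb : ∀ v, f v < c * (2 * k ^ 3) + 1 := by
        intro v
        have h1 := hf1 v
        have h2 : c0 * Nat.card (Gr T).edgeSet ≤ c * (2 * k ^ 3) :=
          Nat.mul_le_mul (by omega) (hle.trans hT)
        omega
      refine ⟨fun v => ⟨f v, hb v⟩, ?_⟩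
      rintro ⟨a1, a2⟩ ha ⟨b1, b2⟩ hb' hab
      have := hf2 (Sum.inl a1) (Sum.inr a2) (Sum.inl b1) (Sum.inr b2) ha hb' hab
      rw [Sym2.eq_iff] at this
      rcases this with ⟨h1, h2⟩ | ⟨h1, h2⟩
      · rw [Sum.inl_injective h1, Sum.inr_injective h2]
      · cases h1
  have havg := averaging k (c * (2 * k ^ 3)) (5 * c * k ^ 3) (2 * k ^ 3) (1 / (5 * (c : ℝ))) hk
    (by positivity) (by
      have : 0 < c * k ^ 3 := by positivity
      nlinarith) (by push_cast; field_simp) hall
  exact absurd havg (not_le.2 hnum)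

end Pool.Agent.S06862
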