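import Mathlib
import Pool.Statements.S06876

set_option autoImplicit false
open Pool Pool.MP_af70e5_co

namespace Pool.Agent.S06876

section MF

set_option linter.unusedSectionVars false
set_option linter.unusedSimpArgs false

open Finset

/-! ### Pseudo-metrics and boundaries -/

/-- integer valued pseudo-metric -/
structure IsPM {V : Type} (ρ : V → V → ℤ) : Prop where
  self : ∀ a, ρ a a = 0
  symm : ∀ a b, ρ a b = ρ b a
  tri : ∀ a b c, ρ a c ≤ ρ a b + ρ b c

lemma IsPM.nonneg {V : Type} {ρ : V → V → ℤ} (h : IsPM ρ) (a b : V) : 0 ≤ ρ a b := by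
  have h1 := h.tri a b a
  rw [h.self, h.symm b a] at h1
  omega

section Boundary

variable {V E : Type} [DecidableEq V] [DecidableEq E] (s t : E → V)

/-- the degree of `v` in the edge set `C` -/
def bd (C : Finset E) (v : V) : ℕ :=
  ∑ e ∈ C, ((if s e = v then 1 else 0) + (if t e = v then 1 else 0))

lemma bd_eq (C : Finset E) (v : V) :
    (C.filter (fun e => s e = v)).card + (C.filter (fun e => t e = v)).card = bd s t C v := by
  unfold bd
  rw [Finset.sum_add_distrib, Finset.card_filter, Finset.card_filter]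

lemma bd_erase (C : Finset E) (e : E) (he : e ∈ C) (v : V) :
    bd s t C v = ((if s e = v then 1 else 0) + (if t e = v then 1 else 0)) +
      bd s t (C.erase e) v := by
  unfold bd
  exact (Finset.add_sum_erase C (fun e => ((if s e = v then 1 else 0) +
    (if t e = v then 1 else 0))) he).symm

lemma bd_sdiff (C D : Finset E) (h : D ⊆ C) (v : V) :
    bd s t C v = bd s t D v + bd s t (C \ D) v := by
  unfold bd
  rw [add_comm, Finset.sum_sdiff h]

lemma path_le (ρ : V → V → ℤ) (hρ : IsPM ρ) : ∀ (n : ℕ) (D : Finset E), D.card = n →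
    ∀ u v : V, (∀ x, Even (bd s t D x + (if u = x then 1 else 0) + (if v = x then 1 else 0))) →
    ρ u v ≤ ∑ e ∈ D, ρ (s e) (t e) := by
  intro n
  induction n with
  | zero =>
    intro D hD u v h
    rw [Finset.card_eq_zero] at hD
    subst hD
    have h1 := h u
    rw [if_pos rfl] at h1
    by_cases huv : v = u
    · rw [huv, hρ.self]
      simp
    · rw [if_neg huv] at h1
      simp [bd] at h1
  | succ n ih =>
    intro D hD u v h
    by_cases huv : v = u
    · rw [huv, hρ.self]
      exact Finset.sum_nonneg (fun e _ => hρ.nonneg _ _)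
    have h1 := h u
    rw [if_pos rfl, if_neg huv] at h1
    have hex : ∃ e ∈ D, ¬ Even ((if s e = u then 1 else 0) + (if t e = u then 1 else 0)) := by
      by_contra hc
      push Not at hc
      have h2 : Even (bd s t D u) := Finset.even_sum _ hc
      rw [Nat.even_iff] at h1 h2
      omega
    obtain ⟨e, he, hodd⟩ := hex
    have hcard : (D.erase e).card = n := by
      rw [Finset.card_erase_of_mem he, hD]
      rfl
    rw [← Finset.add_sum_erase D _ he]
    by_cases hs : s e = u
    · by_cases ht : t e = u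
      · rw [if_pos hs, if_pos ht] at hodd
        exact absurd (by decide) hodd
      · have h3 := ih (D.erase e) hcard (t e) v (by
          intro x
          have h4 := h x
          rw [bd_erase s t D e he x, hs] at h4
          rw [Nat.even_iff] at h4 ⊢
          omega)
        have h5 := hρ.tri u (t e) v
        rw [hs]
        omega
    · by_cases ht : t e = u
      · have h3 := ih (D.erase e) hcard (s e) v (by
          intro x
          have h4 := h x
          rw [bd_erase s t D e he x, ht] at h4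
          rw [Nat.even_iff] at h4 ⊢
          omega)
        have h5 := hρ.tri u (s e) v
        rw [ht, hρ.symm (s e) u]
        omega
      · rw [if_neg hs, if_neg ht] at hodd
        exact absurd (by decide) hodd

/-- a circuit through exactly one edge `r` of `R` -/
lemma circuit_le (ρ : V → V → ℤ) (hρ : IsPM ρ) (C : Finset E)
    (hC : ∀ v, Even (bd s t C v)) (Rp : E → Prop) [DecidablePred Rp]
    (h1 : (C.filter Rp).card = 1) :
    ∑ r ∈ C.filter Rp, ρ (s r) (t r) ≤ ∑ e ∈ C.filter (fun e => ¬ Rp e), ρ (s e) (t e) := by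
  obtain ⟨r, hr⟩ := Finset.card_eq_one.mp h1
  have hrm : r ∈ C.filter Rp := by rw [hr]; exact Finset.mem_singleton_self r
  have hrC : r ∈ C := (Finset.mem_filter.mp hrm).1
  have hre : C.filter (fun e => ¬ Rp e) = C.erase r := by
    ext e
    rw [Finset.mem_filter, Finset.mem_erase]
    constructor
    · rintro ⟨h2, h3⟩
      refine ⟨?_, h2⟩
      rintro rfl
      exact h3 (Finset.mem_filter.mp hrm).2
    · rintro ⟨h2, h3⟩
      refine ⟨h3, fun h4 => h2 ?_⟩
      have : e ∈ C.filter Rp := Finset.mem_filter.mpr ⟨h3, h4⟩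
      rw [hr] at this
      exact Finset.mem_singleton.mp this
  rw [hr, Finset.sum_singleton, hre]
  apply path_le s t ρ hρ _ _ rfl
  intro x
  have h2 := hC x
  rw [bd_erase s t C r hrC x] at h2
  rw [Nat.even_iff] at h2 ⊢
  omega

end Boundary

section Frac

variable {V E : Type} [DecidableEq V] [Fintype E] [DecidableEq E] (s t : E → V)

/-- a fractional packing forces every metric inequality -/
lemma frac_metric (Rp : E → Prop) [DecidablePred Rp] (w : Finset E → ℝ) (h0 : ∀ C, 0 ≤ w C)
    (hC : ∀ C, w C ≠ 0 → (∀ v, Even (bd s t C v)) ∧ (C.filter Rp).card = 1)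
    (h1 : ∀ e, Rp e → (∑ C : Finset E, if e ∈ C then w C else 0) = 1)
    (h2 : ∀ e, ¬ Rp e → (∑ C : Finset E, if e ∈ C then w C else 0) ≤ 1)
    (ρ : V → V → ℤ) (hρ : IsPM ρ) :
    ∑ r ∈ univ.filter Rp, ρ (s r) (t r) ≤ ∑ e ∈ univ.filter (fun e => ¬ Rp e), ρ (s e) (t e) := by
  have key : ∀ (Q : E → Prop) [DecidablePred Q],
      ∑ r ∈ univ.filter Q, (ρ (s r) (t r) : ℝ) * (∑ C : Finset E, if r ∈ C then w C else 0) =
      ∑ C : Finset E, w C * ((∑ r ∈ C.filter Q, ρ (s r) (t r) : ℤ) : ℝ) := by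
    intro Q _
    simp_rw [Finset.mul_sum]
    rw [Finset.sum_comm]
    refine Finset.sum_congr rfl (fun C _ => ?_)
    push_cast
    rw [Finset.mul_sum]
    have hsub : C.filter Q ⊆ univ.filter Q := Finset.filter_subset_filter _ (Finset.subset_univ _)
    rw [← Finset.sum_subset hsub]
    · refine Finset.sum_congr rfl (fun r hr => ?_)
      rw [if_pos (Finset.mem_filter.mp hr).1]
      ring
    · intro r hr hn
      have : r ∉ C := fun h => hn (Finset.mem_filter.mpr ⟨h, (Finset.mem_filter.mp hr).2⟩)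
      rw [if_neg this, mul_zero]
  have e1 : ((∑ r ∈ univ.filter Rp, ρ (s r) (t r) : ℤ) : ℝ) =
      ∑ C : Finset E, w C * ((∑ r ∈ C.filter Rp, ρ (s r) (t r) : ℤ) : ℝ) := by
    rw [← key Rp]
    push_cast
    refine Finset.sum_congr rfl (fun r hr => ?_)
    rw [h1 r (Finset.mem_filter.mp hr).2, mul_one]
  have e2 : ∑ C : Finset E, w C * ((∑ r ∈ C.filter (fun e => ¬ Rp e), ρ (s r) (t r) : ℤ) : ℝ) ≤
      ((∑ e ∈ univ.filter (fun e => ¬ Rp e), ρ (s e) (t e) : ℤ) : ℝ) := by
    rw [← key (fun e => ¬ Rp e)]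
    push_cast
    refine Finset.sum_le_sum (fun r hr => ?_)
    have h3 := h2 r (Finset.mem_filter.mp hr).2
    have h4 : (0 : ℝ) ≤ (ρ (s r) (t r) : ℝ) := by exact_mod_cast hρ.nonneg _ _
    nlinarith
  have e3 : ∑ C : Finset E, w C * ((∑ r ∈ C.filter Rp, ρ (s r) (t r) : ℤ) : ℝ) ≤
      ∑ C : Finset E, w C * ((∑ r ∈ C.filter (fun e => ¬ Rp e), ρ (s r) (t r) : ℤ) : ℝ) := by
    refine Finset.sum_le_sum (fun C _ => ?_)
    by_cases hw : w C = 0
    · rw [hw, zero_mul, zero_mul]
    · obtain ⟨h3, h4⟩ := hC C hw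
      have h5 := circuit_le s t ρ hρ C h3 Rp h4
      have h6 : ((∑ r ∈ C.filter Rp, ρ (s r) (t r) : ℤ) : ℝ) ≤
        ((∑ r ∈ C.filter (fun e => ¬ Rp e), ρ (s r) (t r) : ℤ) : ℝ) := by exact_mod_cast h5
      exact mul_le_mul_of_nonneg_left h6 (h0 C)
  have := e1.trans_le (e3.trans e2)
  exact_mod_cast this

end Frac

/-! ### Routing -/

section Route

variable {V S D : Type} [DecidableEq V] [DecidableEq S]

/-- the demands can be routed by pairwise disjoint sets of supply edges -/
def Routable (sS tS : S → V) (sD tD : D → V) : Prop :=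
  ∃ P : D → Finset S, (∀ i j, i ≠ j → Disjoint (P i) (P j)) ∧
    ∀ i x, Even (bd sS tS (P i) x + (if sD i = x then 1 else 0) + (if tD i = x then 1 else 0))

/-- extend a function to an option type -/
def oe {X Y : Type} (f : X → Y) (y : Y) : Option X → Y
  | none => y
  | some x => f x

lemma bd_eraseNone (sS tS : S → V) (a b : V) (X : Finset (Option S)) (x : V) :
    bd (oe sS a) (oe tS b) X x =
      (if none ∈ X then ((if a = x then 1 else 0) + (if b = x then 1 else 0)) else 0) +
      bd sS tS (Finset.eraseNone X) x := by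
  unfold bd
  have h1 : ∑ e ∈ Finset.eraseNone X, ((if sS e = x then 1 else 0) + (if tS e = x then 1 else 0)) =
      ∑ e ∈ X.erase none, ((if oe sS a e = x then 1 else 0) + (if oe tS b e = x then 1 else 0)) := by
    rw [← Finset.map_some_eraseNone, Finset.sum_map]
    rfl
  rw [h1]
  by_cases h : none ∈ X
  · rw [if_pos h, ← Finset.add_sum_erase X _ h]
    rfl
  · rw [if_neg h, Finset.erase_eq_of_notMem h, zero_add]

lemma routable_step (sS tS : S → V) (sD tD : D → V) (a b c : V)
    (h : Routable (oe sS a) (oe tS b) (oe (oe sD a) c) (oe (oe tD c) b)) :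
    Routable sS tS sD tD := by
  obtain ⟨P, hd, he⟩ := h
  have hdis : ∀ i j, i ≠ j → Disjoint (Finset.eraseNone (P i)) (Finset.eraseNone (P j)) := by
    intro i j hij
    rw [Finset.disjoint_left]
    intro e h1 h2
    rw [Finset.mem_eraseNone] at h1 h2
    exact (Finset.disjoint_left.mp (hd i j hij)) h1 h2
  have hnone : ∀ i j, i ≠ j → none ∈ P i → none ∉ P j := by
    intro i j hij h1 h2
    exact (Finset.disjoint_left.mp (hd i j hij)) h1 h2
  refine ⟨fun i => if none ∈ P (some (some i)) then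
    Finset.eraseNone (P (some (some i))) ∪ (Finset.eraseNone (P none) ∪
      Finset.eraseNone (P (some none))) else Finset.eraseNone (P (some (some i))), ?_, ?_⟩
  · intro i j hij
    have hij' : (some (some i) : Option (Option D)) ≠ some (some j) := by
      intro h; exact hij (by simpa using h)
    by_cases h1 : none ∈ P (some (some i))
    · have h2 := hnone _ _ hij' h1
      simp only [if_pos h1, if_neg h2]
      rw [Finset.disjoint_union_left, Finset.disjoint_union_left]
      exact ⟨hdis _ _ hij', hdis _ _ (by simp), hdis _ _ (by simp)⟩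
    · by_cases h2 : none ∈ P (some (some j))
      · simp only [if_neg h1, if_pos h2]
        rw [Finset.disjoint_union_right, Finset.disjoint_union_right]
        exact ⟨hdis _ _ hij', hdis _ _ (by simp), hdis _ _ (by simp)⟩
      · simp only [if_neg h1, if_neg h2]
        exact hdis _ _ hij'
  · intro i x
    have h0 : Even (bd (oe sS a) (oe tS b) (P (some (some i))) x + (if sD i = x then 1 else 0) +
      (if tD i = x then 1 else 0)) := he (some (some i)) x
    have hA : Even (bd (oe sS a) (oe tS b) (P none) x + (if c = x then 1 else 0) +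
      (if b = x then 1 else 0)) := he none x
    have hB : Even (bd (oe sS a) (oe tS b) (P (some none)) x + (if a = x then 1 else 0) +
      (if c = x then 1 else 0)) := he (some none) x
    rw [bd_eraseNone] at h0 hA hB
    by_cases h1 : none ∈ P (some (some i))
    · have hn1 : none ∉ P none := hnone _ _ (by simp) h1
      have hn2 : none ∉ P (some none) := hnone _ _ (by simp) h1
      rw [if_pos h1] at h0
      rw [if_neg hn1] at hA
      rw [if_neg hn2] at hB
      simp only [if_pos h1]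
      have hu : bd sS tS (Finset.eraseNone (P (some (some i))) ∪ (Finset.eraseNone (P none) ∪
          Finset.eraseNone (P (some none)))) x = bd sS tS (Finset.eraseNone (P (some (some i)))) x +
          (bd sS tS (Finset.eraseNone (P none)) x +
          bd sS tS (Finset.eraseNone (P (some none))) x) := by
        unfold bd
        rw [Finset.sum_union, Finset.sum_union]
        · exact hdis _ _ (by simp)
        · rw [Finset.disjoint_union_right]
          exact ⟨hdis _ _ (by simp), hdis _ _ (by simp)⟩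
      rw [hu]
      rw [Nat.even_iff] at h0 hA hB ⊢
      omega
    · rw [if_neg h1] at h0
      simp only [if_neg h1]
      rw [Nat.even_iff] at h0 ⊢
      omega

end Route

section Vec

variable {V : Type} [DecidableEq V]

/-- the unit vector of the pair `p q` -/
def eV (p q : V) : V → V → ℤ := fun z w => if (z = p ∧ w = q) ∨ (z = q ∧ w = p) then 1 else 0

lemma eV_comm (p q : V) : eV p q = eV q p := by
  funext z w
  unfold eV
  congr 1
  exact propext or_comm

lemma eV_symm (p q z w : V) : eV p q z w = eV p q w z := by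
  unfold eV
  congr 1
  apply propext
  tauto

/-- the triangle vector: demand `a b`, supply `a c` and `b c` -/
def tri (a b c : V) : V → V → ℤ := fun z w => eV a c z w + eV b c z w - eV a b z w

/-- nonnegative vectors plus nonnegative integer combinations of triangle vectors -/
inductive Pack : (V → V → ℤ) → Prop
  | base (x : V → V → ℤ) : (∀ a b, a ≠ b → 0 ≤ x a b) → Pack x
  | step (x : V → V → ℤ) (a b c : V) : a ≠ b → a ≠ c → b ≠ c →
      Pack (fun z w => x z w - tri a b c z w) → Pack x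

/-- number of edges with the ends `a`, `b` -/
def cnt {S : Type} [Fintype S] (s t : S → V) (a b : V) : ℤ := ∑ e, eV (s e) (t e) a b

lemma cnt_eq {S : Type} [Fintype S] (s t : S → V) (a b : V) :
    cnt s t a b = (Fintype.card {e : S // s(s e, t e) = s(a, b)} : ℤ) := by
  unfold cnt eV
  rw [Fintype.card_subtype, Finset.card_filter]
  push_cast
  refine Finset.sum_congr rfl (fun e _ => ?_)
  congr 1
  apply propext
  rw [Sym2.eq_iff]
  constructor
  · rintro (⟨h1, h2⟩ | ⟨h1, h2⟩)
    · exact Or.inl ⟨h1.symm, h2.symm⟩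
    · exact Or.inr ⟨h2.symm, h1.symm⟩
  · rintro (⟨h1, h2⟩ | ⟨h1, h2⟩)
    · exact Or.inl ⟨h1.symm, h2.symm⟩
    · exact Or.inr ⟨h2.symm, h1.symm⟩

lemma base_routable (S D : Type) [Fintype S] [DecidableEq S] [Fintype D] (sS tS : S → V)
    (sD tD : D → V) (hloop : ∀ i, sD i ≠ tD i)
    (h : ∀ a b, a ≠ b → cnt sD tD a b ≤ cnt sS tS a b) : Routable sS tS sD tD := by
  classical
  have H : ∀ p : Sym2 V, ¬ p.IsDiag →
      Nonempty ({i : D // s(sD i, tD i) = p} ↪ {e : S // s(sS e, tS e) = p}) := by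
    intro p
    induction p using Sym2.ind with
    | _ a b =>
      intro hp
      rw [Sym2.mk_isDiag_iff] at hp
      have h1 := h a b hp
      rw [cnt_eq, cnt_eq] at h1
      exact Function.Embedding.nonempty_of_card_le (by exact_mod_cast h1)
  have g : ∀ p : Sym2 V, ¬ p.IsDiag →
      ({i : D // s(sD i, tD i) = p} ↪ {e : S // s(sS e, tS e) = p}) :=
    fun p hp => Classical.choice (H p hp)
  have hd : ∀ i, ¬ (s(sD i, tD i)).IsDiag := fun i => by
    rw [Sym2.mk_isDiag_iff]; exact hloop i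
  have hσ : ∀ i, ∀ p (hp : ¬ p.IsDiag) (hi : s(sD i, tD i) = p),
      (g p hp ⟨i, hi⟩).1 = (g _ (hd i) ⟨i, rfl⟩).1 := by
    intro i p hp hi
    subst hi
    rfl
  refine ⟨fun i => {(g _ (hd i) ⟨i, rfl⟩).1}, ?_, ?_⟩
  · intro i j hij
    rw [Finset.disjoint_singleton]
    intro heq
    apply hij
    have hi := (g _ (hd i) ⟨i, rfl⟩).2
    have hj := (g _ (hd j) ⟨j, rfl⟩).2
    have hp : s(sD j, tD j) = s(sD i, tD i) := by
      rw [← hi, ← hj, heq]
    have h1 := hσ j _ (hd i) hp
    have h2 : (g _ (hd i) ⟨i, rfl⟩) = (g _ (hd i) ⟨j, hp⟩) := by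
      apply Subtype.ext
      rw [h1]
      exact heq
    have h3 := (g _ (hd i)).injective h2
    exact congrArg Subtype.val h3
  · intro i x
    have hi := (g _ (hd i) ⟨i, rfl⟩).2
    set e := (g _ (hd i) ⟨i, rfl⟩).1 with he
    unfold bd
    rw [Finset.sum_singleton]
    rw [Sym2.eq_iff] at hi
    rcases hi with ⟨h1, h2⟩ | ⟨h1, h2⟩
    · rw [h1, h2, Nat.even_iff]
      omega
    · rw [h1, h2, Nat.even_iff]
      omega

theorem pack_routable {x : V → V → ℤ} (h : Pack x) : ∀ (S D : Type) [Fintype S] [DecidableEq S]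
    [Fintype D] (sS tS : S → V) (sD tD : D → V), (∀ i, sD i ≠ tD i) →
    (∀ a b, a ≠ b → cnt sS tS a b - cnt sD tD a b = x a b) → Routable sS tS sD tD := by
  induction h with
  | base x hx =>
    intro S D _ _ _ sS tS sD tD hl hc
    apply base_routable S D sS tS sD tD hl
    intro a b hab
    have h1 := hc a b hab
    have h2 := hx a b hab
    omega
  | step x a b c hab hac hbc _ ih =>
    intro S D _ _ _ sS tS sD tD hl hc
    apply routable_step sS tS sD tD a b c
    apply ih (Option S) (Option (Option D))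
    · intro i
      rcases i with _ | i
      · exact fun h => hbc h.symm
      · rcases i with _ | i
        · exact hac
        · exact hl i
    · intro p q hpq
      have h1 := hc p q hpq
      unfold cnt at h1 ⊢
      rw [Fintype.sum_option, Fintype.sum_option, Fintype.sum_option]
      simp only [oe, tri]
      rw [eV_comm c b]
      linarith

end Vec

/-! ### Circuits and packings -/

section Circuits

variable {V E : Type} [DecidableEq V] [DecidableEq E] (s t : E → V)

/-- minimal nonempty even edge sets -/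
def IsC (C : Finset E) : Prop :=
  C.Nonempty ∧ (∀ v : V, Even ((C.filter (fun e => s e = v)).card +
    (C.filter (fun e => t e = v)).card)) ∧
  ∀ D : Finset E, D ⊆ C → D.Nonempty → (∀ v : V, Even ((D.filter (fun e => s e = v)).card +
    (D.filter (fun e => t e = v)).card)) → D = C

lemma exists_circuit (C : Finset E) (hC : ∀ v, Even (bd s t C v)) (r : E) (hr : r ∈ C) :
    ∃ C' ⊆ C, r ∈ C' ∧ IsC s t C' := by
  classical
  set F : Finset (Finset E) := C.powerset.filter (fun D => r ∈ D ∧ ∀ v, Even (bd s t D v)) with hF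
  have hne : F.Nonempty := ⟨C, by
    rw [hF, Finset.mem_filter, Finset.mem_powerset]
    exact ⟨Finset.Subset.refl C, hr, hC⟩⟩
  obtain ⟨C', hC', hmin⟩ := Finset.exists_min_image F Finset.card hne
  rw [hF, Finset.mem_filter, Finset.mem_powerset] at hC'
  obtain ⟨hsub, hrC', hev⟩ := hC'
  refine ⟨C', hsub, hrC', ⟨r, hrC'⟩, ?_, ?_⟩
  · intro v
    rw [bd_eq]
    exact hev v
  · intro D hD hDne hDev
    have hDev' : ∀ v, Even (bd s t D v) := by
      intro v
      rw [← bd_eq]
      exact hDev v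
    by_cases hrD : r ∈ D
    · have h1 := hmin D (by
        rw [hF, Finset.mem_filter, Finset.mem_powerset]
        exact ⟨hD.trans hsub, hrD, hDev'⟩)
      exact Finset.eq_of_subset_of_card_le hD h1
    · exfalso
      have h1 := hmin (C' \ D) (by
        rw [hF, Finset.mem_filter, Finset.mem_powerset]
        refine ⟨Finset.sdiff_subset.trans hsub, ?_, ?_⟩
        · rw [Finset.mem_sdiff]
          exact ⟨hrC', hrD⟩
        · intro v
          have h2 := hev v
          rw [bd_sdiff s t C' D hD v] at h2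
          have h3 := hDev' v
          rw [Nat.even_iff] at h2 h3 ⊢
          omega)
      rw [Finset.card_sdiff_of_subset hD] at h1
      have h2 := Finset.card_pos.mpr hDne
      have h3 := Finset.card_le_card hD
      omega

variable [Fintype E]

/-- an integer packing from a routing -/
lemma routable_int (Rp : E → Prop) [DecidablePred Rp]
    (h : Routable (fun e : {e // ¬ Rp e} => s e.1) (fun e : {e // ¬ Rp e} => t e.1)
      (fun e : {e // Rp e} => s e.1) (fun e : {e // Rp e} => t e.1)) :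
    ∃ f : E → Finset E, (∀ r, Rp r → IsC s t (f r) ∧ (f r).filter Rp = {r}) ∧
      ∀ r₁ r₂, Rp r₁ → Rp r₂ → r₁ ≠ r₂ → Disjoint (f r₁) (f r₂) := by
  obtain ⟨P, hd, he⟩ := h
  set Q : {e // Rp e} → Finset E := fun r => (P r).map (Function.Embedding.subtype _) with hQ
  have hQR : ∀ r, ∀ e ∈ Q r, ¬ Rp e := by
    intro r e he
    rw [hQ] at he
    simp only [Finset.mem_map] at he
    obtain ⟨a, _, rfl⟩ := he
    exact a.2
  have hQd : ∀ i j, i ≠ j → Disjoint (Q i) (Q j) := by
    intro i j hij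
    rw [hQ]
    rw [Finset.disjoint_map]
    exact hd i j hij
  have hbd : ∀ r x, bd s t (Q r) x = bd (fun e : {e // ¬ Rp e} => s e.1)
      (fun e : {e // ¬ Rp e} => t e.1) (P r) x := by
    intro r x
    unfold bd
    rw [hQ]
    simp only [Finset.sum_map]
    rfl
  have hex : ∀ r : {e // Rp e}, ∃ C' ⊆ insert r.1 (Q r), r.1 ∈ C' ∧ IsC s t C' := by
    intro r
    apply exists_circuit
    · intro v
      have hn : r.1 ∉ Q r := fun h => hQR r _ h r.2
      have h1 : Even (bd (fun e : {e // ¬ Rp e} => s e.1) (fun e : {e // ¬ Rp e} => t e.1) (P r) v +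
        (if s r.1 = v then 1 else 0) + (if t r.1 = v then 1 else 0)) := he r v
      rw [← hbd] at h1
      unfold bd at h1 ⊢
      rw [Finset.sum_insert hn]
      rw [Nat.even_iff] at h1 ⊢
      omega
    · exact Finset.mem_insert_self _ _
  choose f hf1 hf2 hf3 using hex
  refine ⟨fun e => if h : Rp e then f ⟨e, h⟩ else ∅, ?_, ?_⟩
  · intro r hr
    simp only [dif_pos hr]
    refine ⟨hf3 _, ?_⟩
    ext e
    rw [Finset.mem_filter, Finset.mem_singleton]
    constructor
    · rintro ⟨h1, h2⟩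
      have h3 := hf1 ⟨r, hr⟩ h1
      rw [Finset.mem_insert] at h3
      rcases h3 with h3 | h3
      · exact h3
      · exact absurd h2 (hQR _ _ h3)
    · rintro rfl
      exact ⟨hf2 ⟨e, hr⟩, hr⟩
  · intro r₁ r₂ h1 h2 h12
    simp only [dif_pos h1, dif_pos h2]
    refine Finset.disjoint_of_subset_left (hf1 _) (Finset.disjoint_of_subset_right (hf1 _) ?_)
    rw [Finset.disjoint_insert_left, Finset.disjoint_insert_right]
    have hne : (⟨r₁, h1⟩ : {e // Rp e}) ≠ ⟨r₂, h2⟩ := fun h => h12 (congrArg Subtype.val h)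
    refine ⟨?_, ?_, hQd _ _ hne⟩
    · rw [Finset.mem_insert]
      rintro (h | h)
      · exact h12 h
      · exact hQR _ _ h h1
    · intro h
      exact hQR _ _ h h2

/-- an integer packing is a fractional packing -/
lemma int_frac (Rp : E → Prop) [DecidablePred Rp] (f : E → Finset E)
    (hf : ∀ r, Rp r → IsC s t (f r) ∧ (f r).filter Rp = {r})
    (hd : ∀ r₁ r₂, Rp r₁ → Rp r₂ → r₁ ≠ r₂ → Disjoint (f r₁) (f r₂)) :
    ∃ w : Finset E → ℝ, (∀ C, 0 ≤ w C) ∧ (∀ C, w C ≠ 0 → IsC s t C ∧ (C.filter Rp).card = 1) ∧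
      (∀ e, Rp e → (∑ C : Finset E, if e ∈ C then w C else 0) = 1) ∧
      (∀ e, ¬ Rp e → (∑ C : Finset E, if e ∈ C then w C else 0) ≤ 1) := by
  have hsum : ∀ e, (∑ C : Finset E, if e ∈ C then
      (∑ r ∈ univ.filter Rp, if f r = C then (1 : ℝ) else 0) else 0) =
      ∑ r ∈ univ.filter Rp, if e ∈ f r then (1 : ℝ) else 0 := by
    intro e
    have h1 : ∀ C : Finset E, (if e ∈ C then
      (∑ r ∈ univ.filter Rp, if f r = C then (1 : ℝ) else 0) else 0) =
      ∑ r ∈ univ.filter Rp, if f r = C then (if e ∈ f r then (1 : ℝ) else 0) else 0 := by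
      intro C
      by_cases h : e ∈ C
      · rw [if_pos h]
        refine Finset.sum_congr rfl (fun r _ => ?_)
        by_cases h2 : f r = C
        · rw [if_pos h2, if_pos h2, h2, if_pos h]
        · rw [if_neg h2, if_neg h2]
      · rw [if_neg h]
        symm
        apply Finset.sum_eq_zero
        intro r _
        by_cases h2 : f r = C
        · rw [if_pos h2, h2, if_neg h]
        · rw [if_neg h2]
    rw [Finset.sum_congr rfl (fun C _ => h1 C), Finset.sum_comm]
    refine Finset.sum_congr rfl (fun r _ => ?_)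
    rw [Finset.sum_ite_eq, if_pos (Finset.mem_univ _)]
  refine ⟨fun C => ∑ r ∈ univ.filter Rp, if f r = C then (1 : ℝ) else 0, ?_, ?_, ?_, ?_⟩
  · intro C
    apply Finset.sum_nonneg
    intro r _
    split_ifs <;> norm_num
  · intro C hC
    obtain ⟨r, hr, h1⟩ := Finset.exists_ne_zero_of_sum_ne_zero hC
    have h2 : f r = C := by
      by_contra h
      exact h1 (if_neg h)
    have h3 := hf r (Finset.mem_filter.mp hr).2
    rw [h2] at h3
    refine ⟨h3.1, ?_⟩
    rw [h3.2, Finset.card_singleton]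
  · intro e he
    rw [hsum e, Finset.sum_eq_single e]
    · have h3 := (hf e he).2
      have h4 : e ∈ (f e).filter Rp := by
        rw [h3]
        exact Finset.mem_singleton_self e
      rw [if_pos (Finset.mem_filter.mp h4).1]
    · intro r hr hne
      rw [if_neg]
      intro h4
      have h5 : e ∈ (f r).filter Rp := Finset.mem_filter.mpr ⟨h4, he⟩
      rw [(hf r (Finset.mem_filter.mp hr).2).2, Finset.mem_singleton] at h5
      exact hne h5.symm
    · intro h
      exact absurd (Finset.mem_filter.mpr ⟨Finset.mem_univ _, he⟩) h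
  · intro e he
    rw [hsum e]
    by_cases hex : ∃ r ∈ univ.filter Rp, e ∈ f r
    · obtain ⟨r, hr, h1⟩ := hex
      rw [Finset.sum_eq_single r]
      · rw [if_pos h1]
      · intro r' hr' hne
        rw [if_neg]
        intro h2
        have h3 := hd r' r (Finset.mem_filter.mp hr').2 (Finset.mem_filter.mp hr).2 hne
        exact (Finset.disjoint_left.mp h3) h2 h1
      · intro h
        exact absurd hr h
    · rw [Finset.sum_eq_zero]
      · norm_num
      · intro r hr
        rw [if_neg]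
        intro h
        exact hex ⟨r, hr, h⟩

end Circuits

section Alg

variable {V : Type} [Fintype V] [DecidableEq V]

/-- the pairing of a vector with a function on pairs -/
def dot (x ρ : V → V → ℤ) : ℤ := ∑ z, ∑ w, x z w * ρ z w

lemma dot_sub_smul (x y ρ : V → V → ℤ) (n : ℤ) :
    dot (fun z w => x z w - n * y z w) ρ = dot x ρ - n * dot y ρ := by
  unfold dot
  rw [Finset.mul_sum, ← Finset.sum_sub_distrib]
  refine Finset.sum_congr rfl (fun z _ => ?_)
  rw [Finset.mul_sum, ← Finset.sum_sub_distrib]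
  refine Finset.sum_congr rfl (fun w _ => ?_)
  ring

lemma eV_split (p q : V) (h : p ≠ q) (z w : V) :
    eV p q z w = (if z = p then (if w = q then 1 else 0) else 0) +
      (if z = q then (if w = p then 1 else 0) else 0) := by
  unfold eV
  by_cases h1 : z = p
  · by_cases h2 : w = q
    · have h3 : ¬ z = q := fun h4 => h (h1.symm.trans h4)
      simp [h1, h2, h]
    · have h3 : ¬ z = q := fun h4 => h (h1.symm.trans h4)
      simp [h1, h2, h]
  · by_cases h2 : z = q
    · simp [h2, h.symm]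
    · simp [h1, h2]

lemma dot_eV (p q : V) (h : p ≠ q) (ρ : V → V → ℤ) (hs : ∀ a b, ρ a b = ρ b a) :
    dot (eV p q) ρ = 2 * ρ p q := by
  unfold dot
  simp_rw [eV_split p q h, add_mul, Finset.sum_add_distrib, ite_mul, zero_mul, one_mul]
  simp
  rw [hs q p]
  ring

lemma dot_tri (a b c : V) (hab : a ≠ b) (hac : a ≠ c) (hbc : b ≠ c) (ρ : V → V → ℤ)
    (hs : ∀ a b, ρ a b = ρ b a) : dot (tri a b c) ρ = 2 * (ρ a c + ρ b c - ρ a b) := by
  have h1 : dot (tri a b c) ρ = dot (eV a c) ρ + dot (eV b c) ρ - dot (eV a b) ρ := by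
    unfold dot tri
    simp_rw [sub_mul, add_mul, Finset.sum_sub_distrib, Finset.sum_add_distrib]
  rw [h1, dot_eV a c hac ρ hs, dot_eV b c hbc ρ hs, dot_eV a b hab ρ hs]
  ring

lemma row_eV (p q : V) (h : p ≠ q) (z : V) :
    ∑ w, eV p q z w = (if z = p then 1 else 0) + (if z = q then 1 else 0) := by
  simp_rw [eV_split p q h, Finset.sum_add_distrib]
  by_cases h1 : z = p
  · by_cases h2 : z = q
    · exact absurd (h1.symm.trans h2) h
    · simp [h1, h]
  · by_cases h2 : z = q
    · simp [h2, h.symm]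
    · simp [h1, h2]

lemma pack_mul (a b c : V) (hab : a ≠ b) (hac : a ≠ c) (hbc : b ≠ c) (n : ℕ) :
    ∀ x : V → V → ℤ, Pack (fun z w => x z w - (n : ℤ) * tri a b c z w) → Pack x := by
  induction n with
  | zero =>
    intro x h
    have : (fun z w => x z w - ((0 : ℕ) : ℤ) * tri a b c z w) = x := by
      funext z w
      push_cast
      ring
    rwa [this] at h
  | succ n ih =>
    intro x h
    apply ih
    apply Pack.step _ a b c hab hac hbc
    have : (fun z w => x z w - ((n : ℕ) : ℤ) * tri a b c z w - tri a b c z w) =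
        (fun z w => x z w - ((n + 1 : ℕ) : ℤ) * tri a b c z w) := by
      funext z w
      push_cast
      ring
    rw [this]
    exact h

lemma pack_mul' (a b c : V) (hab : a ≠ b) (hac : a ≠ c) (hbc : b ≠ c) (n : ℤ) (hn : 0 ≤ n)
    (x : V → V → ℤ) (h : Pack (fun z w => x z w - n * tri a b c z w)) : Pack x := by
  obtain ⟨m, rfl⟩ := Int.eq_ofNat_of_zero_le hn
  exact pack_mul a b c hab hac hbc m x h

structure Ok (x : V → V → ℤ) : Prop where
  symm : ∀ z w, x z w = x w z
  diag : ∀ z, x z z = 0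
  par : ∀ z, Even (∑ w, x z w)

lemma tri_symm (a b c z w : V) : tri a b c z w = tri a b c w z := by
  unfold tri
  rw [eV_symm a c, eV_symm b c, eV_symm a b]

lemma eV_diag (p q : V) (h : p ≠ q) (z : V) : eV p q z z = 0 := by
  unfold eV
  rw [if_neg]
  rintro (⟨h1, h2⟩ | ⟨h1, h2⟩)
  · exact h (h1.symm.trans h2)
  · exact h (h2.symm.trans h1)

lemma Ok.sub_tri {x : V → V → ℤ} (h : Ok x) (n : ℤ) (a b c : V) (hab : a ≠ b) (hac : a ≠ c)
    (hbc : b ≠ c) : Ok (fun z w => x z w - n * tri a b c z w) := by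
  refine ⟨?_, ?_, ?_⟩
  · intro z w
    rw [h.symm z w, tri_symm a b c z w]
  · intro z
    show x z z - n * tri a b c z z = 0
    unfold tri
    rw [h.diag, eV_diag a c hac, eV_diag b c hbc, eV_diag a b hab]
    ring
  · intro z
    have h1 : ∑ w, tri a b c z w = 2 * (if z = c then 1 else 0) := by
      unfold tri
      rw [Finset.sum_sub_distrib, Finset.sum_add_distrib, row_eV a c hac, row_eV b c hbc,
        row_eV a b hab]
      ring
    have h2 : ∑ w, (x z w - n * tri a b c z w) = ∑ w, x z w - 2 * (n * (if z = c then 1 else 0)) := by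
      rw [Finset.sum_sub_distrib, ← Finset.mul_sum, h1]
      ring
    show Even (∑ w, (x z w - n * tri a b c z w))
    rw [h2]
    exact (h.par z).sub (even_two_mul _)

/-- subtract `n` triangle vectors -/
def st (x : V → V → ℤ) (n : ℤ) (a b c : V) : V → V → ℤ := fun z w => x z w - n * tri a b c z w

lemma Ok.st {x : V → V → ℤ} (h : Ok x) (n : ℤ) {a b c : V} (hab : a ≠ b) (hac : a ≠ c)
    (hbc : b ≠ c) : Ok (st x n a b c) := h.sub_tri n a b c hab hac hbc

lemma dot_st (x ρ : V → V → ℤ) (hs : ∀ a b, ρ a b = ρ b a) (n : ℤ) {a b c : V} (hab : a ≠ b)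
    (hac : a ≠ c) (hbc : b ≠ c) :
    dot (st x n a b c) ρ = dot x ρ - n * (2 * (ρ a c + ρ b c - ρ a b)) := by
  unfold st
  rw [dot_sub_smul, dot_tri a b c hab hac hbc ρ hs]

lemma pack_st {x : V → V → ℤ} {n : ℤ} (hn : 0 ≤ n) {a b c : V} (hab : a ≠ b) (hac : a ≠ c)
    (hbc : b ≠ c) (h : Pack (st x n a b c)) : Pack x :=
  pack_mul' a b c hab hac hbc n hn x h

lemma tri_off {a b c z w : V} (h : tri a b c z w ≠ 0) :
    (z = a ∨ z = b ∨ z = c) ∧ (w = a ∨ w = b ∨ w = c) := by
  unfold tri eV at h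
  by_contra hc
  apply h
  have h1 : ¬ ((z = a ∧ w = c) ∨ (z = c ∧ w = a)) := by tauto
  have h2 : ¬ ((z = b ∧ w = c) ∨ (z = c ∧ w = b)) := by tauto
  have h3 : ¬ ((z = a ∧ w = b) ∨ (z = b ∧ w = a)) := by tauto
  rw [if_neg h1, if_neg h2, if_neg h3]
  rfl

lemma st_off {x : V → V → ℤ} {n : ℤ} {a b c z w : V} (h : st x n a b c z w ≠ x z w) :
    (z = a ∨ z = b ∨ z = c) ∧ (w = a ∨ w = b ∨ w = c) := by
  apply tri_off
  intro h0
  apply h
  unfold st
  rw [h0]
  ring

/-- classes of test functions closed under the three kinds of one point extensions -/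
structure TC (T : (V → V → ℤ) → Prop) : Prop where
  symm : ∀ ρ, T ρ → ∀ a b, ρ a b = ρ b a
  star : ∀ v, T (fun z w => if decide (z = v) = decide (w = v) then 0 else 1)
  center : ∀ ρ, T ρ → ∀ v a b c : V, v ≠ a → v ≠ b → v ≠ c → a ≠ b → a ≠ c → b ≠ c →
    ∃ ρ', T ρ' ∧ (∀ z w, z ≠ v → w ≠ v → ρ' z w = 2 * ρ z w) ∧
      ρ' v a = ρ a b + ρ a c - ρ b c ∧ ρ' v b = ρ a b + ρ b c - ρ a c ∧
      ρ' v c = ρ a c + ρ b c - ρ a b
  anti : ∀ ρ, T ρ → ∀ v a b c : V, v ≠ a → v ≠ b → v ≠ c → a ≠ b → a ≠ c → b ≠ c →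
    ∃ ρ', T ρ' ∧ (∀ z w, z ≠ v → w ≠ v → ρ' z w = 2 * ρ z w) ∧
      ρ' v a = ρ a b + ρ a c + ρ b c ∧ ρ' v b = ρ b c + ρ a c - ρ a b ∧
      ρ' v c = ρ b c + ρ a b - ρ a c
  place : ∀ ρ, T ρ → ∀ v a b c : V, v ≠ a → v ≠ b → v ≠ c → a ≠ b → a ≠ c → b ≠ c →
    ∃ ρ', T ρ' ∧ (∀ z w, z ≠ v → w ≠ v → ρ' z w = 2 * ρ z w) ∧
      ρ' v a = 0 ∧ ρ' v b = 2 * ρ a b ∧ ρ' v c = 2 * ρ a c

def FeasT (T : (V → V → ℤ) → Prop) (x : V → V → ℤ) : Prop := ∀ ρ, T ρ → 0 ≤ dot x ρ

lemma dot_off (x ρ ρ' : V → V → ℤ) (v : V) (h1 : ∀ z, x v z = 0) (h2 : ∀ z, x z v = 0)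
    (h3 : ∀ z w, z ≠ v → w ≠ v → ρ' z w = 2 * ρ z w) : dot x ρ' = 2 * dot x ρ := by
  unfold dot
  rw [Finset.mul_sum]
  refine Finset.sum_congr rfl (fun z _ => ?_)
  rw [Finset.mul_sum]
  refine Finset.sum_congr rfl (fun w _ => ?_)
  by_cases hz : z = v
  · rw [hz, h1]
    ring
  · by_cases hw : w = v
    · rw [hw, h2]
      ring
    · rw [h3 z w hz hw]
      ring

/-- the outcome of removing the vertex `v` with neighbours `a b c` -/
def Res (T : (V → V → ℤ) → Prop) (x : V → V → ℤ) (v a b c : V) (y : V → V → ℤ) : Prop :=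
  Ok y ∧ FeasT T y ∧ (∀ z, y v z = 0) ∧
    (∀ z w, z ≠ v → w ≠ v → y z w ≠ x z w → (z = a ∨ z = b ∨ z = c) ∧ (w = a ∨ w = b ∨ w = c)) ∧
    (Pack y → Pack x)

lemma res_of {T : (V → V → ℤ) → Prop} {x : V → V → ℤ}
    (hF : FeasT T x) (v a b c : V) (y : V → V → ℤ) (hy : Ok y) (hrow : ∀ z, y v z = 0)
    (hext : ∀ ρ, T ρ → ∃ ρ', T ρ' ∧ (∀ z w, z ≠ v → w ≠ v → ρ' z w = 2 * ρ z w) ∧
      dot y ρ' = dot x ρ')
    (hin : ∀ z w, z ≠ v → w ≠ v → y z w ≠ x z w →
      (z = a ∨ z = b ∨ z = c) ∧ (w = a ∨ w = b ∨ w = c))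
    (hp : Pack y → Pack x) : Res T x v a b c y := by
  refine ⟨hy, ?_, hrow, hin, hp⟩
  intro ρ hρ
  obtain ⟨ρ', hρ', hoff, he⟩ := hext ρ hρ
  have h1 := hF ρ' hρ'
  have h2 := dot_off y ρ ρ' v hrow (fun z => by rw [hy.symm]; exact hrow z) hoff
  rw [← he, h2] at h1
  omega

lemma res_center {T : (V → V → ℤ) → Prop} (hT : TC T) {x : V → V → ℤ} (hx : Ok x)
    (hF : FeasT T x) (v a b c : V) (hva : v ≠ a) (hvb : v ≠ b) (hvc : v ≠ c) (hab : a ≠ b)
    (hac : a ≠ c) (hbc : b ≠ c) (hz : ∀ z, z ≠ a → z ≠ b → z ≠ c → x v z = 0)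
    (n1 n2 n3 : ℤ) (h1 : 0 ≤ n1) (h2 : 0 ≤ n2) (h3 : 0 ≤ n3) (ha : x v a = n1 + n2)
    (hb : x v b = n1 + n3) (hc : x v c = n2 + n3) : ∃ y, Res T x v a b c y := by
  refine ⟨st (st (st x n1 a b v) n2 a c v) n3 b c v, res_of hF v a b c _ ?_ ?_ ?_ ?_ ?_⟩
  · exact ((hx.st n1 hab hva.symm hvb.symm).st n2 hac hva.symm hvc.symm).st n3 hbc hvb.symm
      hvc.symm
  · intro z
    show x v z - n1 * tri a b v v z - n2 * tri a c v v z - n3 * tri b c v v z = 0
    by_cases hza : z = a
    · subst hza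
      simp [tri, eV, hva, hva.symm, hvb, hvc, hab, hac, ha]
    by_cases hzb : z = b
    · subst hzb
      simp [tri, eV, hva, hvb, hvb.symm, hvc, hab.symm, hbc, hb]
    by_cases hzc : z = c
    · subst hzc
      simp [tri, eV, hva, hvb, hvc, hvc.symm, hac.symm, hbc.symm, hc]
    rw [hz z hza hzb hzc]
    simp [tri, eV, hva, hvb, hvc, hza, hzb, hzc]
  · intro ρ hρ
    obtain ⟨ρ', hρ', hoff, e1, e2, e3⟩ := hT.center ρ hρ v a b c hva hvb hvc hab hac hbc
    have hs := hT.symm ρ' hρ'
    refine ⟨ρ', hρ', hoff, ?_⟩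
    rw [dot_st _ _ hs _ hbc hvb.symm hvc.symm, dot_st _ _ hs _ hac hva.symm hvc.symm,
      dot_st _ _ hs _ hab hva.symm hvb.symm, hs a v, hs b v, hs c v, e1, e2, e3,
      hoff a b hva.symm hvb.symm, hoff a c hva.symm hvc.symm, hoff b c hvb.symm hvc.symm]
    ring
  · intro z w hzv hwv h
    by_cases g3 : st (st (st x n1 a b v) n2 a c v) n3 b c v z w = st (st x n1 a b v) n2 a c v z w
    · by_cases g2 : st (st x n1 a b v) n2 a c v z w = st x n1 a b v z w
      · have g1 : st x n1 a b v z w ≠ x z w := by rw [g3, g2] at h; exact h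
        have := st_off g1
        tauto
      · have := st_off g2
        tauto
    · have := st_off g3
      tauto
  · intro hp
    exact pack_st h1 hab hva.symm hvb.symm (pack_st h2 hac hva.symm hvc.symm
      (pack_st h3 hbc hvb.symm hvc.symm hp))

lemma res_anti {T : (V → V → ℤ) → Prop} (hT : TC T) {x : V → V → ℤ} (hx : Ok x)
    (hF : FeasT T x) (v a b c : V) (hva : v ≠ a) (hvb : v ≠ b) (hvc : v ≠ c) (hab : a ≠ b)
    (hac : a ≠ c) (hbc : b ≠ c) (hz : ∀ z, z ≠ a → z ≠ b → z ≠ c → x v z = 0)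
    (n1 n2 n3 : ℤ) (h1 : 0 ≤ n1) (h2 : 0 ≤ n2) (h3 : 0 ≤ n3) (ha : x v a = - n1 - n2)
    (hb : x v b = n1 + n3) (hc : x v c = n2 + n3) : ∃ y, Res T x v a b c y := by
  refine ⟨st (st (st x n1 v a b) n2 v a c) n3 b c v, res_of hF v a b c _ ?_ ?_ ?_ ?_ ?_⟩
  · exact ((hx.st n1 hva hvb hab).st n2 hva hvc hac).st n3 hbc hvb.symm hvc.symm
  · intro z
    show x v z - n1 * tri v a b v z - n2 * tri v a c v z - n3 * tri b c v v z = 0
    by_cases hza : z = a
    · subst hza
      simp [tri, eV, hva, hvb, hvc, hab, hac, ha]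
      ring
    by_cases hzb : z = b
    · subst hzb
      simp [tri, eV, hva, hvb, hvb.symm, hvc, hab.symm, hbc, hb]
    by_cases hzc : z = c
    · subst hzc
      simp [tri, eV, hva, hvb, hvc, hvc.symm, hac.symm, hbc.symm, hc]
    rw [hz z hza hzb hzc]
    simp [tri, eV, hva, hvb, hvc, hza, hzb, hzc]
  · intro ρ hρ
    obtain ⟨ρ', hρ', hoff, e1, e2, e3⟩ := hT.anti ρ hρ v a b c hva hvb hvc hab hac hbc
    have hs := hT.symm ρ' hρ'
    refine ⟨ρ', hρ', hoff, ?_⟩
    rw [dot_st _ _ hs _ hbc hvb.symm hvc.symm, dot_st _ _ hs _ hva hvc hac,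
      dot_st _ _ hs _ hva hvb hab, hs b v, hs c v, e1, e2, e3,
      hoff a b hva.symm hvb.symm, hoff a c hva.symm hvc.symm, hoff b c hvb.symm hvc.symm]
    ring
  · intro z w hzv hwv h
    by_cases g3 : st (st (st x n1 v a b) n2 v a c) n3 b c v z w = st (st x n1 v a b) n2 v a c z w
    · by_cases g2 : st (st x n1 v a b) n2 v a c z w = st x n1 v a b z w
      · have g1 : st x n1 v a b z w ≠ x z w := by rw [g3, g2] at h; exact h
        have := st_off g1
        tauto
      · have := st_off g2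
        tauto
    · have := st_off g3
      tauto
  · intro hp
    exact pack_st h1 hva hvb hab (pack_st h2 hva hvc hac
      (pack_st h3 hbc hvb.symm hvc.symm hp))

lemma res_place {T : (V → V → ℤ) → Prop} (hT : TC T) {x : V → V → ℤ} (hx : Ok x)
    (hF : FeasT T x) (v a b c : V) (hva : v ≠ a) (hvb : v ≠ b) (hvc : v ≠ c) (hab : a ≠ b)
    (hac : a ≠ c) (hbc : b ≠ c) (hz : ∀ z, z ≠ a → z ≠ b → z ≠ c → x v z = 0)
    (n1 n2 n3 n4 : ℤ) (h1 : 0 ≤ n1) (h2 : 0 ≤ n2) (h3 : 0 ≤ n3) (h4 : 0 ≤ n4)
    (ha : x v a = n1 + n2 + n3 + n4)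
    (hb : x v b = n1 - n2) (hc : x v c = n3 - n4) : ∃ y, Res T x v a b c y := by
  refine ⟨st (st (st (st x n1 a b v) n2 v b a) n3 a c v) n4 v c a,
    res_of hF v a b c _ ?_ ?_ ?_ ?_ ?_⟩
  · exact (((hx.st n1 hab hva.symm hvb.symm).st n2 hvb hva hab.symm).st n3 hac hva.symm
      hvc.symm).st n4 hvc hva hac.symm
  · intro z
    show x v z - n1 * tri a b v v z - n2 * tri v b a v z - n3 * tri a c v v z -
      n4 * tri v c a v z = 0
    by_cases hza : z = a
    · subst hza
      simp [tri, eV, hva, hva.symm, hvb, hvc, hab, hac, ha]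
      ring
    by_cases hzb : z = b
    · subst hzb
      simp [tri, eV, hva, hvb, hvb.symm, hvc, hab.symm, hbc, hb]
    by_cases hzc : z = c
    · subst hzc
      simp [tri, eV, hva, hvb, hvc, hvc.symm, hac.symm, hbc.symm, hc]
    rw [hz z hza hzb hzc]
    simp [tri, eV, hva, hvb, hvc, hza, hzb, hzc]
  · intro ρ hρ
    obtain ⟨ρ', hρ', hoff, e1, e2, e3⟩ := hT.place ρ hρ v a b c hva hvb hvc hab hac hbc
    have hs := hT.symm ρ' hρ'
    refine ⟨ρ', hρ', hoff, ?_⟩
    rw [dot_st _ _ hs _ hvc hva hac.symm, dot_st _ _ hs _ hac hva.symm hvc.symm,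
      dot_st _ _ hs _ hvb hva hab.symm, dot_st _ _ hs _ hab hva.symm hvb.symm, hs a v, hs b v,
      hs c v, hs b a, hs c a, e1, e2, e3,
      hoff a b hva.symm hvb.symm, hoff a c hva.symm hvc.symm]
    ring
  · intro z w hzv hwv h
    by_cases g4 : st (st (st (st x n1 a b v) n2 v b a) n3 a c v) n4 v c a z w =
      st (st (st x n1 a b v) n2 v b a) n3 a c v z w
    · by_cases g3 : st (st (st x n1 a b v) n2 v b a) n3 a c v z w =
        st (st x n1 a b v) n2 v b a z w
      · by_cases g2 : st (st x n1 a b v) n2 v b a z w = st x n1 a b v z w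
        · have g1 : st x n1 a b v z w ≠ x z w := by rw [g4, g3, g2] at h; exact h
          have := st_off g1
          tauto
        · have := st_off g2
          tauto
      · have := st_off g3
        tauto
    · have := st_off g4
      tauto
  · intro hp
    exact pack_st h1 hab hva.symm hvb.symm (pack_st h2 hvb hva hab.symm
      (pack_st h3 hac hva.symm hvc.symm (pack_st h4 hvc hva hac.symm hp)))

lemma Res.perm1 {T : (V → V → ℤ) → Prop} {x y : V → V → ℤ} {v a b c : V}
    (h : Res T x v a b c y) : Res T x v b a c y := by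
  obtain ⟨h1, h2, h3, h4, h5⟩ := h
  refine ⟨h1, h2, h3, ?_, h5⟩
  intro z w hz hw hne
  have := h4 z w hz hw hne
  tauto

lemma Res.perm2 {T : (V → V → ℤ) → Prop} {x y : V → V → ℤ} {v a b c : V}
    (h : Res T x v a b c y) : Res T x v c b a y := by
  obtain ⟨h1, h2, h3, h4, h5⟩ := h
  refine ⟨h1, h2, h3, ?_, h5⟩
  intro z w hz hw hne
  have := h4 z w hz hw hne
  tauto

lemma star_sum {x : V → V → ℤ} (v a b c : V) (hab : a ≠ b)
    (hac : a ≠ c) (hbc : b ≠ c) (hz : ∀ z, z ≠ a → z ≠ b → z ≠ c → x v z = 0) :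
    ∑ w, x v w = x v a + x v b + x v c := by
  have h1 : ∑ w, x v w = ∑ w ∈ ({a, b, c} : Finset V), x v w := by
    symm
    apply Finset.sum_subset (Finset.subset_univ _)
    intro w _ hw
    simp only [Finset.mem_insert, Finset.mem_singleton, not_or] at hw
    exact hz w hw.1 hw.2.1 hw.2.2
  rw [h1, Finset.sum_insert (by simp [hab, hac]), Finset.sum_insert (by simp [hbc]),
    Finset.sum_singleton]
  ring

lemma dot_star {x : V → V → ℤ} (hx : Ok x) (v : V) :
    dot x (fun z w => if decide (z = v) = decide (w = v) then 0 else 1) = 2 * ∑ w, x v w := by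
  unfold dot
  have h1 : ∀ z w, x z w * (if decide (z = v) = decide (w = v) then (0 : ℤ) else 1) =
      (if z = v then x v w else 0) + (if w = v then x v z else 0) -
      2 * (if z = v then (if w = v then x v v else 0) else 0) := by
    intro z w
    by_cases h1 : z = v
    · by_cases h2 : w = v
      · simp [h1, h2]
        ring
      · simp [h1, h2]
    · by_cases h2 : w = v
      · simp [h1, h2, hx.symm z v]
      · simp [h1, h2]
  simp_rw [h1, Finset.sum_sub_distrib, Finset.sum_add_distrib, ← Finset.mul_sum]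
  simp [hx.diag]
  ring

/-- removal of a vertex with at most three neighbours -/
theorem deg3 {T : (V → V → ℤ) → Prop} (hT : TC T) {x : V → V → ℤ} (hx : Ok x)
    (hF : FeasT T x) (v a b c : V) (hva : v ≠ a) (hvb : v ≠ b) (hvc : v ≠ c) (hab : a ≠ b)
    (hac : a ≠ c) (hbc : b ≠ c) (hz : ∀ z, z ≠ a → z ≠ b → z ≠ c → x v z = 0) :
    ∃ y, Res T x v a b c y := by
  have hsum := star_sum v a b c hab hac hbc hz
  have hpar := hx.par v
  have hst := hF _ (hT.star v)
  rw [dot_star hx v, hsum] at hst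
  rw [hsum] at hpar
  obtain ⟨m, hm⟩ := hpar
  by_cases hc : x v a ≤ x v b + x v c ∧ x v b ≤ x v a + x v c ∧ x v c ≤ x v a + x v b
  · exact res_center hT hx hF v a b c hva hvb hvc hab hac hbc hz (m - x v c) (m - x v b)
      (m - x v a) (by omega) (by omega) (by omega) (by omega) (by omega) (by omega)
  by_cases hA : x v c + x v a ≤ x v b ∧ x v b + x v a ≤ x v c
  · exact res_anti hT hx hF v a b c hva hvb hvc hab hac hbc hz (m - x v c - x v a)
      (m - x v b - x v a) m (by omega) (by omega) (by omega) (by omega) (by omega) (by omega)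
  by_cases hB : x v c + x v b ≤ x v a ∧ x v a + x v b ≤ x v c
  · obtain ⟨y, hy⟩ := res_anti hT hx hF v b a c hvb hva hvc hab.symm hbc hac
      (fun z h1 h2 h3 => hz z h2 h1 h3) (m - x v c - x v b)
      (m - x v a - x v b) m (by omega) (by omega) (by omega) (by omega) (by omega) (by omega)
    exact ⟨y, hy.perm1⟩
  by_cases hC : x v b + x v c ≤ x v a ∧ x v a + x v c ≤ x v b
  · obtain ⟨y, hy⟩ := res_anti hT hx hF v c b a hvc hvb hva hbc.symm hac.symm hab.symm
      (fun z h1 h2 h3 => hz z h3 h2 h1) (m - x v a - x v c)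
      (m - x v b - x v c) m (by omega) (by omega) (by omega) (by omega) (by omega) (by omega)
    exact ⟨y, hy.perm2⟩
  by_cases pA : x v b + x v c ≤ x v a ∧ x v b - x v c ≤ x v a ∧ - x v b + x v c ≤ x v a ∧
    - x v b - x v c ≤ x v a
  · by_cases hs : 0 ≤ x v c
    · exact res_place hT hx hF v a b c hva hvb hvc hab hac hbc hz (m - x v c)
        (m - x v b - x v c) (x v c) 0 (by omega) (by omega) (by omega) (by omega) (by omega)
        (by omega) (by omega)
    · exact res_place hT hx hF v a b c hva hvb hvc hab hac hbc hz m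
        (m - x v b) 0 (- x v c) (by omega) (by omega) (by omega) (by omega) (by omega)
        (by omega) (by omega)
  by_cases pB : x v a + x v c ≤ x v b ∧ x v a - x v c ≤ x v b ∧ - x v a + x v c ≤ x v b ∧
    - x v a - x v c ≤ x v b
  · by_cases hs : 0 ≤ x v c
    · obtain ⟨y, hy⟩ := res_place hT hx hF v b a c hvb hva hvc hab.symm hbc hac
        (fun z h1 h2 h3 => hz z h2 h1 h3) (m - x v c)
        (m - x v a - x v c) (x v c) 0 (by omega) (by omega) (by omega) (by omega) (by omega)
        (by omega) (by omega)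
      exact ⟨y, hy.perm1⟩
    · obtain ⟨y, hy⟩ := res_place hT hx hF v b a c hvb hva hvc hab.symm hbc hac
        (fun z h1 h2 h3 => hz z h2 h1 h3) m
        (m - x v a) 0 (- x v c) (by omega) (by omega) (by omega) (by omega) (by omega)
        (by omega) (by omega)
      exact ⟨y, hy.perm1⟩
  by_cases pC : x v a + x v b ≤ x v c ∧ x v a - x v b ≤ x v c ∧ - x v a + x v b ≤ x v c ∧
    - x v a - x v b ≤ x v c
  · by_cases hs : 0 ≤ x v a
    · obtain ⟨y, hy⟩ := res_place hT hx hF v c b a hvc hvb hva hbc.symm hac.symm hab.symm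
        (fun z h1 h2 h3 => hz z h3 h2 h1) (m - x v a)
        (m - x v b - x v a) (x v a) 0 (by omega) (by omega) (by omega) (by omega) (by omega)
        (by omega) (by omega)
      exact ⟨y, hy.perm2⟩
    · obtain ⟨y, hy⟩ := res_place hT hx hF v c b a hvc hvb hva hbc.symm hac.symm hab.symm
        (fun z h1 h2 h3 => hz z h3 h2 h1) m
        (m - x v b) 0 (- x v a) (by omega) (by omega) (by omega) (by omega) (by omega)
        (by omega) (by omega)
      exact ⟨y, hy.perm2⟩
  exfalso
  omega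

end Alg

section Classes

variable {V : Type} [Fintype V] [DecidableEq V]

lemma ext_pm (ρ : V → V → ℤ) (hρ : IsPM ρ) (v a b c : V) (hva : v ≠ a) (hvb : v ≠ b)
    (hvc : v ≠ c) (ha hb hc : ℤ) (pa : 0 ≤ ha) (pb : 0 ≤ hb) (pc : 0 ≤ hc)
    (ab1 : ha ≤ hb + 2 * ρ a b) (ab2 : hb ≤ ha + 2 * ρ a b) (ab3 : 2 * ρ a b ≤ ha + hb)
    (ac1 : ha ≤ hc + 2 * ρ a c) (ac2 : hc ≤ ha + 2 * ρ a c) (ac3 : 2 * ρ a c ≤ ha + hc)
    (bc1 : hb ≤ hc + 2 * ρ b c) (bc2 : hc ≤ hb + 2 * ρ b c) (bc3 : 2 * ρ b c ≤ hb + hc) :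
    ∃ ρ', IsPM ρ' ∧ (∀ z w, z ≠ v → w ≠ v → ρ' z w = 2 * ρ z w) ∧
      ρ' v a = ha ∧ ρ' v b = hb ∧ ρ' v c = hc := by
  obtain ⟨h, hh⟩ : ∃ h : V → ℤ, ∀ z, h z = min (ha + 2 * ρ a z) (min (hb + 2 * ρ b z)
    (hc + 2 * ρ c z)) := ⟨_, fun _ => rfl⟩
  have hnn : ∀ z, 0 ≤ h z := by
    intro z
    have h1 := hρ.nonneg a z
    have h2 := hρ.nonneg b z
    have h3 := hρ.nonneg c z
    rw [hh]
    omega
  have hlip : ∀ z w, h z ≤ h w + 2 * ρ w z := by
    intro z w
    have h1 := hρ.tri a w z
    have h2 := hρ.tri b w z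
    have h3 := hρ.tri c w z
    rw [hh, hh]
    omega
  have hsum : ∀ z w, 2 * ρ z w ≤ h z + h w := by
    intro z w
    have sz : ∀ i j, ρ z w ≤ ρ i z + ρ i j + ρ j w := by
      intro i j
      have h1 := hρ.tri z i w
      have h2 := hρ.tri i j w
      rw [hρ.symm z i] at h1
      omega
    have q1 := sz a a
    have q2 := sz a b
    have q3 := sz a c
    have q4 := sz b a
    have q5 := sz b b
    have q6 := sz b c
    have q7 := sz c a
    have q8 := sz c b
    have q9 := sz c c
    rw [hρ.self] at q1 q5 q9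
    rw [hρ.symm b a] at q4
    rw [hρ.symm c a] at q7
    rw [hρ.symm c b] at q8
    rw [hh, hh]
    omega
  refine ⟨fun z w => if z = v then (if w = v then 0 else h w) else (if w = v then h z else
    2 * ρ z w), ⟨?_, ?_, ?_⟩, ?_, ?_, ?_, ?_⟩
  · intro z
    by_cases h1 : z = v
    · simp [h1]
    · simp [h1, hρ.self]
  · intro z w
    by_cases h1 : z = v
    · by_cases h2 : w = v
      · simp [h1, h2]
      · simp [h1, h2]
    · by_cases h2 : w = v
      · simp [h1, h2]
      · simp [h1, h2, hρ.symm z w]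
  · intro x y z
    by_cases h1 : x = v
    · by_cases h2 : y = v
      · by_cases h3 : z = v
        · simp [h1, h2, h3]
        · simp [h1, h2, h3]
      · by_cases h3 : z = v
        · have := hnn y
          simp only [h1, h2, h3, if_true, if_false]
          omega
        · have := hlip z y
          simp only [h1, h2, h3, if_true, if_false]
          omega
    · by_cases h2 : y = v
      · by_cases h3 : z = v
        · simp [h1, h2, h3]
        · have := hsum x z
          simp only [h1, h2, h3, if_true, if_false]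
          omega
      · by_cases h3 : z = v
        · have := hlip x y
          rw [hρ.symm y x] at this
          simp only [h1, h2, h3, if_true, if_false]
          omega
        · have := hρ.tri x y z
          simp only [h1, h2, h3, if_false]
          omega
  · intro z w hz hw
    simp [hz, hw]
  · simp only [if_true, if_neg hva.symm]
    rw [hh, hρ.self, hρ.symm b a, hρ.symm c a]
    omega
  · simp only [if_true, if_neg hvb.symm]
    rw [hh, hρ.self, hρ.symm c b]
    omega
  · simp only [if_true, if_neg hvc.symm]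
    rw [hh, hρ.self]
    omega

lemma cut_pm {U : Type} (X : U → Bool) (k : ℤ) (hk : 0 ≤ k) :
    IsPM (fun z w : U => if X z = X w then 0 else k) := by
  refine ⟨?_, ?_, ?_⟩
  · intro a
    simp
  · intro a b
    cases X a <;> cases X b <;> simp
  · intro a b c
    cases X a <;> cases X b <;> cases X c <;> simp <;> omega

theorem tc_pm : TC (fun ρ : V → V → ℤ => IsPM ρ) := by
  refine ⟨fun ρ h => h.symm, ?_, ?_, ?_, ?_⟩
  · intro v
    exact cut_pm (fun z => decide (z = v)) 1 (by norm_num)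
  · intro ρ hρ v a b c hva hvb hvc hab hac hbc
    have t1 := hρ.tri a b c
    have t2 := hρ.tri a c b
    have t3 := hρ.tri b a c
    have s1 := hρ.symm b a
    have s2 := hρ.symm c a
    have s3 := hρ.symm c b
    exact ext_pm ρ hρ v a b c hva hvb hvc _ _ _ (by omega) (by omega) (by omega) (by omega)
      (by omega) (by omega) (by omega) (by omega) (by omega) (by omega) (by omega) (by omega)
  · intro ρ hρ v a b c hva hvb hvc hab hac hbc
    have t1 := hρ.tri a b c
    have t2 := hρ.tri a c b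
    have t3 := hρ.tri b a c
    have s1 := hρ.symm b a
    have s2 := hρ.symm c a
    have s3 := hρ.symm c b
    have n1 := hρ.nonneg a b
    have n2 := hρ.nonneg a c
    have n3 := hρ.nonneg b c
    exact ext_pm ρ hρ v a b c hva hvb hvc _ _ _ (by omega) (by omega) (by omega) (by omega)
      (by omega) (by omega) (by omega) (by omega) (by omega) (by omega) (by omega) (by omega)
  · intro ρ hρ v a b c hva hvb hvc hab hac hbc
    have t1 := hρ.tri a b c
    have t2 := hρ.tri a c b
    have t3 := hρ.tri b a c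
    have s1 := hρ.symm b a
    have s2 := hρ.symm c a
    have s3 := hρ.symm c b
    have n1 := hρ.nonneg a b
    have n2 := hρ.nonneg a c
    have n3 := hρ.nonneg b c
    exact ext_pm ρ hρ v a b c hva hvb hvc _ _ _ (by omega) (by omega) (by omega) (by omega)
      (by omega) (by omega) (by omega) (by omega) (by omega) (by omega) (by omega) (by omega)

/-- multiples of cut functions -/
def IsCut (ρ : V → V → ℤ) : Prop :=
  ∃ (k : ℤ) (X : V → Bool), 0 ≤ k ∧ ρ = fun z w => if X z = X w then 0 else k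

theorem tc_cut : TC (fun ρ : V → V → ℤ => IsCut ρ) := by
  refine ⟨?_, ?_, ?_, ?_, ?_⟩
  · rintro ρ ⟨k, X, hk, rfl⟩ a b
    exact (cut_pm X k hk).symm a b
  · intro v
    exact ⟨1, fun z => decide (z = v), by norm_num, rfl⟩
  · rintro ρ ⟨k, X, hk, rfl⟩ v a b c hva hvb hvc hab hac hbc
    refine ⟨_, ⟨2 * k, fun z => if z = v then (if X b = X c then X b else X a) else X z,
      by omega, rfl⟩, ?_, ?_, ?_, ?_⟩
    · intro z w hz hw
      simp only [if_neg hz, if_neg hw]
      split_ifs <;> ring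
    all_goals
      simp only [if_true, if_neg hva.symm, if_neg hvb.symm, if_neg hvc.symm]
      cases X a <;> cases X b <;> cases X c <;> simp <;> try ring
  · rintro ρ ⟨k, X, hk, rfl⟩ v a b c hva hvb hvc hab hac hbc
    refine ⟨_, ⟨2 * k, fun z => if z = v then (if X b = X c then X b else !(X a)) else X z,
      by omega, rfl⟩, ?_, ?_, ?_, ?_⟩
    · intro z w hz hw
      simp only [if_neg hz, if_neg hw]
      split_ifs <;> ring
    all_goals
      simp only [if_true, if_neg hva.symm, if_neg hvb.symm, if_neg hvc.symm]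
      cases X a <;> cases X b <;> cases X c <;> simp <;> try ring
  · rintro ρ ⟨k, X, hk, rfl⟩ v a b c hva hvb hvc hab hac hbc
    refine ⟨_, ⟨2 * k, fun z => if z = v then X a else X z,
      by omega, rfl⟩, ?_, ?_, ?_, ?_⟩
    · intro z w hz hw
      simp only [if_neg hz, if_neg hw]
      split_ifs <;> ring
    all_goals
      simp only [if_true, if_neg hva.symm, if_neg hvb.symm, if_neg hvc.symm] <;>
      cases X a <;> cases X b <;> cases X c <;> simp

end Classes

section Stages

variable {V : Type} [Fintype V] [DecidableEq V]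

lemma dot_scale (x ρ : V → V → ℤ) (k : ℤ) : dot x (fun z w => k * ρ z w) = k * dot x ρ := by
  unfold dot
  rw [Finset.mul_sum]
  refine Finset.sum_congr rfl (fun z _ => ?_)
  rw [Finset.mul_sum]
  refine Finset.sum_congr rfl (fun w _ => ?_)
  ring

lemma cutfeas_of (x : V → V → ℤ)
    (h : ∀ X : V → Bool, 0 ≤ dot x (fun z w => if X z = X w then 0 else 1)) :
    FeasT (fun ρ => IsCut ρ) x := by
  rintro ρ ⟨k, X, hk, rfl⟩
  have h1 : (fun z w : V => if X z = X w then (0 : ℤ) else k) =
      fun z w => k * (fun z w : V => if X z = X w then (0 : ℤ) else 1) z w := by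
    funext z w
    show (if X z = X w then (0 : ℤ) else k) = k * (if X z = X w then (0 : ℤ) else 1)
    split_ifs <;> ring
  rw [h1, dot_scale]
  exact mul_nonneg hk (h X)

lemma star_nonneg {T : (V → V → ℤ) → Prop} (hT : TC T) {x : V → V → ℤ} (hx : Ok x)
    (hF : FeasT T x) (v : V) : 0 ≤ ∑ w, x v w := by
  have h := hF _ (hT.star v)
  rw [dot_star hx v] at h
  omega

lemma pack_base3 {x : V → V → ℤ} (hx : Ok x) (a b c : V)
    (hs : ∀ z w, x z w ≠ 0 → (z = a ∨ z = b ∨ z = c) ∧ (w = a ∨ w = b ∨ w = c))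
    (h1 : 0 ≤ x a b) (h2 : 0 ≤ x a c) (h3 : 0 ≤ x b c) : Pack x := by
  apply Pack.base
  intro z w hzw
  by_cases h0 : x z w = 0
  · rw [h0]
  · obtain ⟨g1, g2⟩ := hs z w h0
    have s1 := hx.symm b a
    have s2 := hx.symm c a
    have s3 := hx.symm c b
    rcases g1 with rfl | rfl | rfl <;> rcases g2 with rfl | rfl | rfl <;>
      first | exact absurd rfl hzw | omega

lemma k3aux {x : V → V → ℤ} (hx : Ok x) (hF : FeasT (fun ρ => IsCut ρ) x) (a b c : V)
    (hab : a ≠ b) (hac : a ≠ c) (hbc : b ≠ c)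
    (hs : ∀ z w, x z w ≠ 0 → (z = a ∨ z = b ∨ z = c) ∧ (w = a ∨ w = b ∨ w = c))
    (hneg : x a b ≤ 0) : Pack x := by
  have ra := star_nonneg tc_cut hx hF a
  have rb := star_nonneg tc_cut hx hF b
  have za : ∀ z, z ≠ a → z ≠ b → z ≠ c → x a z = 0 := by
    intro z h1 h2 h3
    by_contra h0
    have := (hs a z h0).2
    tauto
  have zb : ∀ z, z ≠ a → z ≠ b → z ≠ c → x b z = 0 := by
    intro z h1 h2 h3
    by_contra h0
    have := (hs b z h0).2
    tauto
  rw [star_sum a a b c hab hac hbc za, hx.diag] at ra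
  rw [star_sum b a b c hab hac hbc zb, hx.diag, hx.symm b a] at rb
  apply pack_st (n := - x a b) (by omega) hab hac hbc
  have hy := hx.st (- x a b) hab hac hbc
  apply pack_base3 hy a b c
  · intro z w h0
    by_cases h1 : st x (- x a b) a b c z w = x z w
    · rw [h1] at h0
      exact hs z w h0
    · exact st_off h1
  · show 0 ≤ x a b - (- x a b) * tri a b c a b
    have : tri a b c a b = -1 := by
      simp [tri, eV, hab, hab.symm, hac, hbc]
    rw [this]
    omega
  · show 0 ≤ x a c - (- x a b) * tri a b c a c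
    have : tri a b c a c = 1 := by
      simp [tri, eV, hab, hac, hbc.symm]
    rw [this]
    omega
  · show 0 ≤ x b c - (- x a b) * tri a b c b c
    have : tri a b c b c = 1 := by
      simp [tri, eV, hab.symm, hac.symm, hbc]
    rw [this]
    omega

theorem k3 {x : V → V → ℤ} (hx : Ok x) (hF : FeasT (fun ρ => IsCut ρ) x) (a b c : V)
    (hab : a ≠ b) (hac : a ≠ c) (hbc : b ≠ c)
    (hs : ∀ z w, x z w ≠ 0 → (z = a ∨ z = b ∨ z = c) ∧ (w = a ∨ w = b ∨ w = c)) : Pack x := by
  by_cases h1 : x a b ≤ 0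
  · exact k3aux hx hF a b c hab hac hbc hs h1
  by_cases h2 : x a c ≤ 0
  · refine k3aux hx hF a c b hac hab hbc.symm ?_ h2
    intro z w h0
    have := hs z w h0
    tauto
  by_cases h3 : x b c ≤ 0
  · refine k3aux hx hF b c a hbc hab.symm hac.symm ?_ h3
    intro z w h0
    have := hs z w h0
    tauto
  exact pack_base3 hx a b c hs (by omega) (by omega) (by omega)

theorem k4 {x : V → V → ℤ} (hx : Ok x) (hF : FeasT (fun ρ => IsCut ρ) x) (v a b c : V)
    (hva : v ≠ a) (hvb : v ≠ b) (hvc : v ≠ c) (hab : a ≠ b) (hac : a ≠ c) (hbc : b ≠ c)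
    (hs : ∀ z w, x z w ≠ 0 → (z = v ∨ z = a ∨ z = b ∨ z = c) ∧
      (w = v ∨ w = a ∨ w = b ∨ w = c)) : Pack x := by
  obtain ⟨y, hy, hFy, hrow, hin, hp⟩ := deg3 tc_cut hx hF v a b c hva hvb hvc hab hac hbc (by
    intro z h1 h2 h3
    by_contra h0
    have h4 := (hs v z h0).2
    have h5 : z = v := by tauto
    rw [h5, hx.diag] at h0
    exact h0 rfl)
  apply hp
  apply k3 hy hFy a b c hab hac hbc
  intro z w h0
  have hzv : z ≠ v := by
    rintro rfl
    exact h0 (hrow w)
  have hwv : w ≠ v := by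
    rintro rfl
    rw [hy.symm] at h0
    exact h0 (hrow z)
  by_cases h1 : y z w = x z w
  · rw [h1] at h0
    have := hs z w h0
    tauto
  · exact hin z w hzv hwv h1

lemma dot_five {x : V → V → ℤ} (hx : Ok x) (u v a b c : V) (huv : u ≠ v) (hua : u ≠ a)
    (hub : u ≠ b) (huc : u ≠ c)
    (hva : v ≠ a) (hvb : v ≠ b) (hvc : v ≠ c) (hab : a ≠ b) (hac : a ≠ c) (hbc : b ≠ c)
    (hs : ∀ z w, x z w ≠ 0 → (z = u ∨ z = v ∨ z = a ∨ z = b ∨ z = c))
    (ρ : V → V → ℤ) (hρ : ∀ z w, ρ z w = ρ w z) :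
    dot x ρ = 2 * (x u v * ρ u v + x u a * ρ u a + x u b * ρ u b + x u c * ρ u c +
      x v a * ρ v a + x v b * ρ v b + x v c * ρ v c + x a b * ρ a b + x a c * ρ a c +
      x b c * ρ b c) := by
  have hW : ∀ f : V → ℤ, (∀ z, z ∉ ({u, v, a, b, c} : Finset V) → f z = 0) →
      ∑ z, f z = f u + f v + f a + f b + f c := by
    intro f hf
    rw [← Finset.sum_subset (Finset.subset_univ ({u, v, a, b, c} : Finset V))
      (fun z _ hz => hf z hz)]
    rw [Finset.sum_insert (by simp [huv, hua, hub, huc]), Finset.sum_insert (by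
      simp [hva, hvb, hvc]), Finset.sum_insert (by simp [hab, hac]), Finset.sum_insert (by
      simp [hbc]), Finset.sum_singleton]
    ring
  have hz0 : ∀ z, z ∉ ({u, v, a, b, c} : Finset V) → ∀ w, x z w = 0 := by
    intro z hz w
    by_contra h0
    have h1 := hs z w h0
    simp only [Finset.mem_insert, Finset.mem_singleton] at hz
    exact hz h1
  have hin : ∀ z, ∑ w, x z w * ρ z w = x z u * ρ z u + x z v * ρ z v + x z a * ρ z a +
      x z b * ρ z b + x z c * ρ z c := by
    intro z
    apply hW (fun w => x z w * ρ z w)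
    intro w hw
    show x z w * ρ z w = 0
    rw [hx.symm z w, hz0 w hw z, zero_mul]
  unfold dot
  rw [hW (fun z => ∑ w, x z w * ρ z w)]
  · simp only [hin]
    rw [hx.diag u, hx.diag v, hx.diag a, hx.diag b, hx.diag c, hx.symm v u, hx.symm a u,
      hx.symm b u, hx.symm c u, hx.symm a v, hx.symm b v, hx.symm c v, hx.symm b a, hx.symm c a,
      hx.symm c b, hρ v u, hρ a u, hρ b u, hρ c u, hρ a v, hρ b v, hρ c v, hρ b a, hρ c a, hρ c b]
    ring
  · intro z hz
    apply Finset.sum_eq_zero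
    intro w _
    rw [hz0 z hz w, zero_mul]

lemma row_five {x : V → V → ℤ} (hx : Ok x) (u v a b c : V) (huv : u ≠ v) (hua : u ≠ a)
    (hub : u ≠ b) (huc : u ≠ c)
    (hva : v ≠ a) (hvb : v ≠ b) (hvc : v ≠ c) (hab : a ≠ b) (hac : a ≠ c) (hbc : b ≠ c)
    (hs : ∀ z w, x z w ≠ 0 → (z = u ∨ z = v ∨ z = a ∨ z = b ∨ z = c)) (z : V) :
    ∑ w, x z w = x z u + x z v + x z a + x z b + x z c := by
  rw [← Finset.sum_subset (Finset.subset_univ ({u, v, a, b, c} : Finset V))
      (fun w _ hw => ?_)]
  · rw [Finset.sum_insert (by simp [huv, hua, hub, huc]), Finset.sum_insert (by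
      simp [hva, hvb, hvc]), Finset.sum_insert (by simp [hab, hac]), Finset.sum_insert (by
      simp [hbc]), Finset.sum_singleton]
    ring
  · by_contra h0
    rw [hx.symm] at h0
    have h1 := hs w z h0
    simp only [Finset.mem_insert, Finset.mem_singleton] at hw
    exact hw h1

/-- the metric of the complete bipartite graph with the colour classes given by `P` -/
def kmet (P : Fin 5 → Bool) (i j : Fin 5) : ℤ := if i = j then 0 else if P i = P j then 2 else 1

lemma box (d c1 c2 c3 c12 c13 c23 : ℤ) (hd : 0 ≤ d) (h1 : 0 ≤ c1) (h2 : 0 ≤ c2) (h3 : 0 ≤ c3)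
    (h12 : 0 ≤ c12) (h13 : 0 ≤ c13) (h23 : 0 ≤ c23) (g1 : d ≤ c1 + c23) (g2 : d ≤ c2 + c13)
    (g3 : d ≤ c3 + c12) (e1 : d ≤ c12 + c13) (e2 : d ≤ c12 + c23) (e3 : d ≤ c13 + c23)
    (f : 2 * d ≤ c12 + c13 + c23) (k : d ≤ c1 + c2 + c3) :
    ∃ s1 s2 s3 : ℤ, 0 ≤ s1 ∧ 0 ≤ s2 ∧ 0 ≤ s3 ∧ s1 + s2 + s3 = d ∧ s1 ≤ c1 ∧ s2 ≤ c2 ∧ s3 ≤ c3 ∧
      s1 + s2 ≤ c12 ∧ s1 + s3 ≤ c13 ∧ s2 + s3 ≤ c23 := by
  obtain ⟨s1, hs1⟩ : ∃ s1 : ℤ, s1 = max (max 0 (d - c23)) (d - min c2 d - min c3 d) := ⟨_, rfl⟩
  obtain ⟨s2, hs2⟩ : ∃ s2 : ℤ, s2 = max (max 0 (d - c13)) (d - s1 - min c3 d) := ⟨_, rfl⟩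
  refine ⟨s1, s2, d - s1 - s2, ?_, ?_, ?_, ?_, ?_, ?_, ?_, ?_, ?_, ?_⟩ <;> omega

end Stages

section K5

variable {V : Type} [Fintype V] [DecidableEq V]

lemma five_ineq {x : V → V → ℤ} (hx : Ok x) (hF : FeasT (fun ρ => IsPM ρ) x) (u v a b c : V)
    (huv : u ≠ v) (hua : u ≠ a) (hub : u ≠ b) (huc : u ≠ c)
    (hva : v ≠ a) (hvb : v ≠ b) (hvc : v ≠ c) (hab : a ≠ b) (hac : a ≠ c) (hbc : b ≠ c)
    (hs : ∀ z w, x z w ≠ 0 → (z = u ∨ z = v ∨ z = a ∨ z = b ∨ z = c))
    (M : Fin 5 → Fin 5 → ℤ) (hM : IsPM M) :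
    0 ≤ x u v * M 0 1 + x u a * M 0 2 + x u b * M 0 3 + x u c * M 0 4 +
      x v a * M 1 2 + x v b * M 1 3 + x v c * M 1 4 + x a b * M 2 3 + x a c * M 2 4 +
      x b c * M 3 4 := by
  obtain ⟨π, hπ⟩ : ∃ π : V → Fin 5, ∀ z, π z = if z = v then 1 else if z = a then 2 else
    if z = b then 3 else if z = c then 4 else 0 := ⟨_, fun _ => rfl⟩
  have hu : π u = 0 := by rw [hπ, if_neg huv, if_neg hua, if_neg hub, if_neg huc]
  have hv : π v = 1 := by rw [hπ, if_pos rfl]
  have ha : π a = 2 := by rw [hπ, if_neg hva.symm, if_pos rfl]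
  have hb : π b = 3 := by rw [hπ, if_neg hvb.symm, if_neg hab.symm, if_pos rfl]
  have hc : π c = 4 := by rw [hπ, if_neg hvc.symm, if_neg hac.symm, if_neg hbc.symm, if_pos rfl]
  have hρ : IsPM (fun z w => M (π z) (π w)) :=
    ⟨fun z => hM.self _, fun z w => hM.symm _ _, fun z w y => hM.tri _ _ _⟩
  have h := hF _ hρ
  rw [dot_five hx u v a b c huv hua hub huc hva hvb hvc hab hac hbc hs _ hρ.symm] at h
  simp only [hu, hv, ha, hb, hc] at h
  omega

lemma k5tail {x : V → V → ℤ} (hx : Ok x) (hF : FeasT (fun ρ => IsCut ρ) x) (u v a b c : V)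
    (hua : u ≠ a) (hub : u ≠ b) (huc : u ≠ c)
    (hva : v ≠ a) (hvb : v ≠ b) (hvc : v ≠ c) (hab : a ≠ b) (hac : a ≠ c) (hbc : b ≠ c)
    (hs : ∀ z w, x z w ≠ 0 → (z = u ∨ z = v ∨ z = a ∨ z = b ∨ z = c)) (h0uv : x u v = 0) :
    Pack x := by
  obtain ⟨y, hy', hFy, hrow, hin, hp⟩ := deg3 tc_cut hx hF u a b c hua hub huc hab hac hbc (by
    intro z h1 h2 h3
    by_contra h0
    rw [hx.symm] at h0
    have h4 := hs z u h0
    rcases h4 with rfl | rfl | h4
    · exact h0 (hx.diag z)
    · rw [hx.symm] at h0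
      exact h0 h0uv
    · rcases h4 with h4 | h4 | h4
      · exact h1 h4
      · exact h2 h4
      · exact h3 h4)
  apply hp
  apply k4 hy' hFy v a b c hva hvb hvc hab hac hbc
  have h1side : ∀ z w, y z w ≠ 0 → (z = v ∨ z = a ∨ z = b ∨ z = c) := by
    intro z w h0
    have hzu : z ≠ u := by
      rintro rfl
      exact h0 (hrow w)
    have hwu : w ≠ u := by
      rintro rfl
      rw [hy'.symm] at h0
      exact h0 (hrow z)
    by_cases h1 : y z w = x z w
    · rw [h1] at h0
      exact (hs z w h0).resolve_left hzu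
    · exact Or.inr (hin z w hzu hwu h1).1
  intro z w h0
  refine ⟨h1side z w h0, h1side w z ?_⟩
  rw [hy'.symm]
  exact h0

lemma st_supp {x : V → V → ℤ} (u v a b c : V)
    (hs : ∀ z w, x z w ≠ 0 → (z = u ∨ z = v ∨ z = a ∨ z = b ∨ z = c)) (n : ℤ) (k : V)
    (hk : k = a ∨ k = b ∨ k = c) :
    ∀ z w, st x n u v k z w ≠ 0 → (z = u ∨ z = v ∨ z = a ∨ z = b ∨ z = c) := by
  intro z w h
  by_cases g : st x n u v k z w = x z w
  · rw [g] at h
    exact hs z w h
  · rcases (st_off g).1 with h1 | h1 | h1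
    · exact Or.inl h1
    · exact Or.inr (Or.inl h1)
    · rw [h1]
      exact Or.inr (Or.inr hk)

lemma split_exists {x : V → V → ℤ} (hx : Ok x) (hF : FeasT (fun ρ => IsPM ρ) x) (u v a b c : V)
    (huv : u ≠ v) (hua : u ≠ a) (hub : u ≠ b) (huc : u ≠ c)
    (hva : v ≠ a) (hvb : v ≠ b) (hvc : v ≠ c) (hab : a ≠ b) (hac : a ≠ c) (hbc : b ≠ c)
    (hs : ∀ z w, x z w ≠ 0 → (z = u ∨ z = v ∨ z = a ∨ z = b ∨ z = c)) (hneg : x u v < 0) :
    ∃ s1 s2 s3 : ℤ, 0 ≤ s1 ∧ 0 ≤ s2 ∧ 0 ≤ s3 ∧ s1 + s2 + s3 = - x u v ∧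
      2 * s1 ≤ x u a + x v a + x a b + x a c ∧ 2 * s2 ≤ x u b + x v b + x a b + x b c ∧
      2 * s3 ≤ x u c + x v c + x a c + x b c ∧
      2 * (s1 + s2) ≤ x u a + x v a + x a c + x u b + x v b + x b c ∧
      2 * (s1 + s3) ≤ x u a + x v a + x a b + x u c + x v c + x b c ∧
      2 * (s2 + s3) ≤ x u b + x v b + x a b + x u c + x v c + x a c ∧
      2 * (s1 + s2 + s3) ≤ x u a + x v a + x u b + x v b + x u c + x v c ∧
      (∀ X : Fin 5 → Bool, 0 ≤ x u v * (if X 0 = X 1 then 0 else 1) +
        x u a * (if X 0 = X 2 then 0 else 1) + x u b * (if X 0 = X 3 then 0 else 1) +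
        x u c * (if X 0 = X 4 then 0 else 1) + x v a * (if X 1 = X 2 then 0 else 1) +
        x v b * (if X 1 = X 3 then 0 else 1) + x v c * (if X 1 = X 4 then 0 else 1) +
        x a b * (if X 2 = X 3 then 0 else 1) + x a c * (if X 2 = X 4 then 0 else 1) +
        x b c * (if X 3 = X 4 then 0 else 1)) := by
  have F := five_ineq hx hF u v a b c huv hua hub huc hva hvb hvc hab hac hbc hs
  have C := fun (X : Fin 5 → Bool) => F (fun i j => if X i = X j then 0 else 1)
    (cut_pm X 1 (by norm_num))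
  have cu := C ![true, false, false, false, false]
  have cv := C ![false, true, false, false, false]
  have ca := C ![false, false, true, false, false]
  have cb := C ![false, false, false, true, false]
  have cc := C ![false, false, false, false, true]
  have cuv := C ![true, true, false, false, false]
  have cua := C ![true, false, true, false, false]
  have cub := C ![true, false, false, true, false]
  have cuc := C ![true, false, false, false, true]
  have cva := C ![false, true, true, false, false]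
  have cvb := C ![false, true, false, true, false]
  have cvc := C ![false, true, false, false, true]
  have cab := C ![false, false, true, true, false]
  have cac := C ![false, false, true, false, true]
  have cbc := C ![false, false, false, true, true]
  have kuv := F (kmet ![true, true, false, false, false])
    ⟨by decide, by decide, by decide⟩
  have kab := F (kmet ![false, false, true, true, false])
    ⟨by decide, by decide, by decide⟩
  have kac := F (kmet ![false, false, true, false, true])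
    ⟨by decide, by decide, by decide⟩
  have kbc := F (kmet ![false, false, false, true, true])
    ⟨by decide, by decide, by decide⟩
  simp [kmet] at cu cv ca cb cc cuv cua cub cuc cva cvb cvc cab cac cbc
  simp [kmet] at kuv kab kac kbc
  have row := row_five hx u v a b c huv hua hub huc hva hvb hvc hab hac hbc hs
  obtain ⟨ra, hra⟩ := hx.par a
  obtain ⟨rb, hrb⟩ := hx.par b
  obtain ⟨rc, hrc⟩ := hx.par c
  rw [row, hx.diag, hx.symm a u, hx.symm a v] at hra
  rw [row, hx.diag, hx.symm b u, hx.symm b v, hx.symm b a] at hrb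
  rw [row, hx.diag, hx.symm c u, hx.symm c v, hx.symm c a, hx.symm c b] at hrc
  clear F row hs hF hx
  obtain ⟨s1, s2, s3, p1, p2, p3, hsum, b1, b2, b3, b12, b13, b23⟩ := box (- x u v) ra rb rc
    (ra + rb - x a b) (ra + rc - x a c) (rb + rc - x b c) (by omega) (by omega) (by omega)
    (by omega) (by omega) (by omega) (by omega) (by omega) (by omega) (by omega) (by omega)
    (by omega) (by omega) (by omega) (by omega)
  exact ⟨s1, s2, s3, p1, p2, p3, hsum, by omega, by omega, by omega, by omega, by omega,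
    by omega, by omega, C⟩

theorem k5neg {x : V → V → ℤ} (hx : Ok x) (hF : FeasT (fun ρ => IsPM ρ) x) (u v a b c : V)
    (huv : u ≠ v) (hua : u ≠ a) (hub : u ≠ b) (huc : u ≠ c)
    (hva : v ≠ a) (hvb : v ≠ b) (hvc : v ≠ c) (hab : a ≠ b) (hac : a ≠ c) (hbc : b ≠ c)
    (hs : ∀ z w, x z w ≠ 0 → (z = u ∨ z = v ∨ z = a ∨ z = b ∨ z = c)) (hneg : x u v < 0) :
    Pack x := by
  obtain ⟨s1, s2, s3, p1, p2, p3, hsum, b1, b2, b3, b12, b13, b23, b123, C⟩ :=
    split_exists hx hF u v a b c huv hua hub huc hva hvb hvc hab hac hbc hs hneg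
  apply pack_st p1 huv hua hva
  apply pack_st p2 huv hub hvb
  apply pack_st p3 huv huc hvc
  have hy : Ok (st (st (st x s1 u v a) s2 u v b) s3 u v c) :=
    ((hx.st s1 huv hua hva).st s2 huv hub hvb).st s3 huv huc hvc
  have hoff := st_supp u v a b c (st_supp u v a b c (st_supp u v a b c hs s1 a (Or.inl rfl))
    s2 b (Or.inr (Or.inl rfl))) s3 c (Or.inr (Or.inr rfl))
  have huv0 : st (st (st x s1 u v a) s2 u v b) s3 u v c u v = 0 := by
    show x u v - s1 * tri u v a u v - s2 * tri u v b u v - s3 * tri u v c u v = 0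
    have t1 : tri u v a u v = -1 := by simp [tri, eV, huv, huv.symm, hua, hva]
    have t2 : tri u v b u v = -1 := by simp [tri, eV, huv, huv.symm, hub, hvb]
    have t3 : tri u v c u v = -1 := by simp [tri, eV, huv, huv.symm, huc, hvc]
    rw [t1, t2, t3]
    omega
  refine k5tail hy ?_ u v a b c hua hub huc hva hvb hvc hab hac hbc hoff huv0
  apply cutfeas_of
  intro X
  have hsym : ∀ z w : V, (if X z = X w then (0 : ℤ) else 1) = (if X w = X z then 0 else 1) := by
    intro z w
    cases X z <;> cases X w <;> simp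
  have hX := C ![X u, X v, X a, X b, X c]
  rw [dot_st _ _ hsym _ huv huc hvc, dot_st _ _ hsym _ huv hub hvb,
    dot_st _ _ hsym _ huv hua hva,
    dot_five hx u v a b c huv hua hub huc hva hvb hvc hab hac hbc hs _ hsym]
  clear C hs hF hx hy hoff huv0 hsym
  generalize X u = Xu at *
  generalize X v = Xv at *
  generalize X a = Xa at *
  generalize X b = Xb at *
  generalize X c = Xc at *
  revert hX
  cases Xu <;> cases Xv <;> cases Xa <;> cases Xb <;> cases Xc <;> simp <;> omega

theorem k5 {x : V → V → ℤ} (hx : Ok x) (hF : FeasT (fun ρ => IsPM ρ) x) (W : Finset V)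
    (hW : W.card = 5) (hs : ∀ z w, x z w ≠ 0 → z ∈ W) : Pack x := by
  by_cases hall : ∀ p q, p ≠ q → 0 ≤ x p q
  · exact Pack.base x hall
  · push Not at hall
    obtain ⟨p, q, hpq, hneg⟩ := hall
    have hp : p ∈ W := hs p q (by omega)
    have hq : q ∈ W := hs q p (by rw [hx.symm]; omega)
    have hq' : q ∈ W.erase p := Finset.mem_erase.mpr ⟨hpq.symm, hq⟩
    have hcard : ((W.erase p).erase q).card = 3 := by
      rw [Finset.card_erase_of_mem hq', Finset.card_erase_of_mem hp, hW]
    obtain ⟨a, b, c, hab, hac, hbc, hset⟩ := Finset.card_eq_three.mp hcard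
    have ha : a ∈ (W.erase p).erase q := by rw [hset]; simp
    have hb : b ∈ (W.erase p).erase q := by rw [hset]; simp
    have hc : c ∈ (W.erase p).erase q := by rw [hset]; simp
    rw [Finset.mem_erase, Finset.mem_erase] at ha hb hc
    apply k5neg hx hF p q a b c hpq ha.2.1.symm hb.2.1.symm hc.2.1.symm ha.1.symm hb.1.symm
      hc.1.symm hab hac hbc _ hneg
    intro z w h0
    have hz := hs z w h0
    by_cases h1 : z = p
    · exact Or.inl h1
    by_cases h2 : z = q
    · exact Or.inr (Or.inl h2)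
    have h3 : z ∈ (W.erase p).erase q := by
      rw [Finset.mem_erase, Finset.mem_erase]
      exact ⟨h2, h1, hz⟩
    rw [hset] at h3
    simp only [Finset.mem_insert, Finset.mem_singleton] at h3
    tauto

end K5

/-! ### The graph with 7 vertices and 14 edges -/

def sG : Fin 14 → Fin 7 := ![3, 2, 0, 0, 4, 1, 0, 4, 2, 1, 3, 0, 2, 1]

def tG : Fin 14 → Fin 7 := ![6, 4, 2, 6, 5, 5, 5, 6, 3, 3, 5, 4, 6, 4]

/-- adjacency of the graph -/
def adjG (z w : Fin 7) : Bool :=
  decide (∃ i : Fin 14, (sG i = z ∧ tG i = w) ∨ (sG i = w ∧ tG i = z))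

lemma adjG_one : ∀ z : Fin 7, adjG 1 z = true → z = 3 ∨ z = 4 ∨ z = 5 := by decide

lemma adjG_five : ∀ z : Fin 7, adjG 5 z = true → z = 1 ∨ z = 0 ∨ z = 3 ∨ z = 4 := by decide

lemma adjG_all : ∀ z w : Fin 7, z ≠ 1 → z ≠ 5 → z ∈ ({0, 2, 3, 4, 6} : Finset (Fin 7)) := by
  decide

theorem core {x : Fin 7 → Fin 7 → ℤ} (hx : Ok x) (hF : FeasT (fun ρ => IsPM ρ) x)
    (hs : ∀ z w, x z w ≠ 0 → adjG z w = true) : Pack x := by
  obtain ⟨y, hy, hFy, hrow, hin, hp⟩ := deg3 tc_pm hx hF 1 3 4 5 (by decide) (by decide)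
    (by decide) (by decide) (by decide) (by decide) (by
      intro z h1 h2 h3
      by_contra h0
      rcases adjG_one z (hs 1 z h0) with h | h | h
      · exact h1 h
      · exact h2 h
      · exact h3 h)
  apply hp
  have hy1 : ∀ z w, y z w ≠ 0 → z ≠ 1 := by
    rintro z w h0 rfl
    exact h0 (hrow w)
  have hy2 : ∀ z w, y z w ≠ 0 → w ≠ 1 := by
    intro z w h0
    rw [hy.symm] at h0
    exact hy1 w z h0
  obtain ⟨y2, hy2', hFy2, hrow2, hin2, hp2⟩ := deg3 tc_pm hy hFy 5 0 3 4 (by decide) (by decide)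
    (by decide) (by decide) (by decide) (by decide) (by
      intro z h1 h2 h3
      by_contra h0
      have hz1 := hy2 5 z h0
      by_cases h : y 5 z = x 5 z
      · rw [h] at h0
        rcases adjG_five z (hs 5 z h0) with h | h | h | h
        · exact hz1 h
        · exact h1 h
        · exact h2 h
        · exact h3 h
      · rcases (hin 5 z (by decide) hz1 h).2 with h | h | h
        · exact h2 h
        · exact h3 h
        · rw [h, hy.diag] at h0
          exact h0 rfl)
  apply hp2
  apply k5 hy2' hFy2 {0, 2, 3, 4, 6} (by decide)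
  intro z w h0
  have hz5 : z ≠ 5 := by
    rintro rfl
    exact h0 (hrow2 w)
  have hw5 : w ≠ 5 := by
    rintro rfl
    rw [hy2'.symm] at h0
    exact h0 (hrow2 z)
  have hz1 : z ≠ 1 := by
    by_cases h : y2 z w = y z w
    · rw [h] at h0
      exact hy1 z w h0
    · have := (hin2 z w hz5 hw5 h).1
      rintro rfl
      revert this
      decide
  exact adjG_all z w hz1 hz5

section Translate

variable {E : Type} [Fintype E] [DecidableEq E] (s t : E → Fin 7)

lemma sG_ne_tG : ∀ i : Fin 14, sG i ≠ tG i := by decide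

/-- in every eulerian extension a fractional packing gives an integer packing -/
theorem frac_int (φ : E → Fin 14) (hs : ∀ e, s e = sG (φ e)) (ht : ∀ e, t e = tG (φ e))
    (heul : ∀ v, Even (bd s t univ v)) (Rp : E → Prop) [DecidablePred Rp]
    (w : Finset E → ℝ) (h0 : ∀ C, 0 ≤ w C)
    (hC : ∀ C, w C ≠ 0 → (∀ v, Even (bd s t C v)) ∧ (C.filter Rp).card = 1)
    (h1 : ∀ e, Rp e → (∑ C : Finset E, if e ∈ C then w C else 0) = 1)
    (h2 : ∀ e, ¬ Rp e → (∑ C : Finset E, if e ∈ C then w C else 0) ≤ 1) :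
    ∃ f : E → Finset E, (∀ r, Rp r → IsC s t (f r) ∧ (f r).filter Rp = {r}) ∧
      ∀ r₁ r₂, Rp r₁ → Rp r₂ → r₁ ≠ r₂ → Disjoint (f r₁) (f r₂) := by
  have hne : ∀ e, s e ≠ t e := by
    intro e
    rw [hs, ht]
    exact sG_ne_tG _
  apply routable_int
  obtain ⟨x, hxd⟩ : ∃ x : Fin 7 → Fin 7 → ℤ, ∀ z w, x z w =
    ∑ e, (if Rp e then (-1 : ℤ) else 1) * eV (s e) (t e) z w := ⟨_, fun _ _ => rfl⟩
  have hok : Ok x := by
    refine ⟨?_, ?_, ?_⟩
    · intro z w
      rw [hxd, hxd]
      exact Finset.sum_congr rfl (fun e _ => by rw [eV_symm])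
    · intro z
      rw [hxd]
      apply Finset.sum_eq_zero
      intro e _
      rw [eV_diag _ _ (hne e), mul_zero]
    · intro z
      have e1 : ∑ w, x z w = ∑ e, (if Rp e then (-1 : ℤ) else 1) *
          ((if z = s e then 1 else 0) + (if z = t e then 1 else 0)) := by
        simp_rw [hxd]
        rw [Finset.sum_comm]
        refine Finset.sum_congr rfl (fun e _ => ?_)
        rw [← Finset.mul_sum, row_eV _ _ (hne e)]
      have e2 : ((bd s t univ z : ℕ) : ℤ) = ∑ e,
          ((if z = s e then (1 : ℤ) else 0) + (if z = t e then 1 else 0)) := by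
        unfold bd
        push_cast
        refine Finset.sum_congr rfl (fun e _ => ?_)
        congr 1
        · exact if_congr eq_comm rfl rfl
        · exact if_congr eq_comm rfl rfl
      have e3 : ∑ w, x z w = ((bd s t univ z : ℕ) : ℤ) - 2 * ∑ e, (if Rp e then
          ((if z = s e then (1 : ℤ) else 0) + (if z = t e then 1 else 0)) else 0) := by
        rw [e1, e2, Finset.mul_sum, ← Finset.sum_sub_distrib]
        refine Finset.sum_congr rfl (fun e _ => ?_)
        by_cases h : Rp e
        · rw [if_pos h, if_pos h]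
          ring
        · rw [if_neg h, if_neg h]
          ring
      rw [e3]
      have h4 : Even ((bd s t univ z : ℕ) : ℤ) := by exact_mod_cast heul z
      exact h4.sub (even_two_mul _)
  have hfeas : FeasT (fun ρ => IsPM ρ) x := by
    intro ρ hρ
    have hm := frac_metric s t Rp w h0 hC h1 h2 ρ hρ
    have e1 : dot x ρ = ∑ e, (if Rp e then (-1 : ℤ) else 1) * (2 * ρ (s e) (t e)) := by
      unfold dot
      simp_rw [hxd, Finset.sum_mul]
      have h3 : ∀ z : Fin 7, ∑ w, ∑ e, (if Rp e then (-1 : ℤ) else 1) * eV (s e) (t e) z w * ρ z w =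
          ∑ e, ∑ w, (if Rp e then (-1 : ℤ) else 1) * eV (s e) (t e) z w * ρ z w := fun z =>
        Finset.sum_comm
      simp_rw [h3]
      rw [Finset.sum_comm]
      refine Finset.sum_congr rfl (fun e _ => ?_)
      rw [← dot_eV _ _ (hne e) ρ hρ.symm]
      unfold dot
      rw [Finset.mul_sum]
      refine Finset.sum_congr rfl (fun z _ => ?_)
      rw [Finset.mul_sum]
      refine Finset.sum_congr rfl (fun w _ => ?_)
      ring
    have e2 : dot x ρ = 2 * (∑ e ∈ univ.filter (fun e => ¬ Rp e), ρ (s e) (t e) -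
        ∑ r ∈ univ.filter Rp, ρ (s r) (t r)) := by
      rw [e1, Finset.sum_filter, Finset.sum_filter, ← Finset.sum_sub_distrib, Finset.mul_sum]
      refine Finset.sum_congr rfl (fun e _ => ?_)
      by_cases h : Rp e
      · simp only [h, not_true, if_true, if_false]
        ring
      · simp only [h, not_false_iff, if_true, if_false]
        ring
    rw [e2]
    omega
  have hsupp : ∀ z w, x z w ≠ 0 → adjG z w = true := by
    intro z w h
    rw [hxd] at h
    obtain ⟨e, _, he⟩ := Finset.exists_ne_zero_of_sum_ne_zero h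
    have h3 : eV (s e) (t e) z w ≠ 0 := right_ne_zero_of_mul he
    unfold eV at h3
    have h4 : (z = s e ∧ w = t e) ∨ (z = t e ∧ w = s e) := by
      by_contra hc
      exact h3 (if_neg hc)
    unfold adjG
    rw [decide_eq_true_iff]
    refine ⟨φ e, ?_⟩
    rw [← hs, ← ht]
    rcases h4 with ⟨h5, h6⟩ | ⟨h5, h6⟩
    · exact Or.inl ⟨h5.symm, h6.symm⟩
    · exact Or.inr ⟨h6.symm, h5.symm⟩
  apply pack_routable (core hok hfeas hsupp)
  · intro i
    exact hne i.1
  · intro a b _
    unfold cnt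
    rw [hxd]
    have e1 : ∑ e : {e // ¬ Rp e}, eV (s e.1) (t e.1) a b =
        ∑ e ∈ univ.filter (fun e => ¬ Rp e), eV (s e) (t e) a b := by
      rw [Finset.sum_subtype (univ.filter (fun e => ¬ Rp e)) (p := fun e => ¬ Rp e)]
      intro e
      simp
    have e2 : ∑ e : {e // Rp e}, eV (s e.1) (t e.1) a b =
        ∑ e ∈ univ.filter Rp, eV (s e) (t e) a b := by
      rw [Finset.sum_subtype (univ.filter Rp) (p := Rp)]
      intro e
      simp
    rw [e1, e2, Finset.sum_filter, Finset.sum_filter, ← Finset.sum_sub_distrib]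
    refine Finset.sum_congr rfl (fun e _ => ?_)
    by_cases h : Rp e
    · simp only [h, not_true, if_true, if_false]
      ring
    · simp only [h, not_false_iff, if_true, if_false]
      ring

end Translate

/-! ### Distances -/

section Dist

variable {V E : Type} [DecidableEq E] (s t : E → V) (A : E → Prop) (l : E → ENat)

/-- adjacency through an edge of `P` -/
def adjP (P : Finset E) (a b : V) : Prop := ∃ x ∈ P, (s x = a ∧ t x = b) ∨ (s x = b ∧ t x = a)

/-- the distance function -/
noncomputable def dst (u v : V) : ENat :=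
  ⨅ (P : Finset E) (_ : (∀ x ∈ P, A x) ∧ Relation.ReflTransGen (adjP s t P) u v), ∑ x ∈ P, l x

lemma dst_le (u v : V) (P : Finset E) (h1 : ∀ x ∈ P, A x)
    (h2 : Relation.ReflTransGen (adjP s t P) u v) : dst s t A l u v ≤ ∑ x ∈ P, l x :=
  iInf₂_le P ⟨h1, h2⟩

lemma dst_min (u v : V) (h : dst s t A l u v ≠ ⊤) : ∃ P : Finset E, (∀ x ∈ P, A x) ∧
    Relation.ReflTransGen (adjP s t P) u v ∧ ∑ x ∈ P, l x = dst s t A l u v := by
  by_contra hc
  push Not at hc
  have h1 : dst s t A l u v + 1 ≤ dst s t A l u v := by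
    conv_rhs => unfold dst
    refine le_iInf₂ (fun P hP => ?_)
    have h2 := hc P hP.1 hP.2
    have h3 := dst_le s t A l u v P hP.1 hP.2
    exact Order.add_one_le_of_lt (lt_of_le_of_ne h3 (Ne.symm h2))
  obtain ⟨n, hn⟩ := ENat.ne_top_iff_exists.mp h
  rw [← hn] at h1
  have h2 : n + 1 ≤ n := by exact_mod_cast h1
  omega

lemma adjP_symm (P : Finset E) (a b : V) (h : adjP s t P a b) : adjP s t P b a := by
  obtain ⟨x, hx, h1⟩ := h
  exact ⟨x, hx, h1.symm⟩

lemma rtg_symm (P : Finset E) (a b : V) (h : Relation.ReflTransGen (adjP s t P) a b) :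
    Relation.ReflTransGen (adjP s t P) b a := by
  induction h with
  | refl => exact Relation.ReflTransGen.refl
  | tail _ h2 ih => exact Relation.ReflTransGen.head (adjP_symm s t P _ _ h2) ih

lemma rtg_mono (P Q : Finset E) (h : P ⊆ Q) (a b : V)
    (h1 : Relation.ReflTransGen (adjP s t P) a b) : Relation.ReflTransGen (adjP s t Q) a b := by
  induction h1 with
  | refl => exact Relation.ReflTransGen.refl
  | tail _ h3 ih =>
    obtain ⟨x, hx, h2⟩ := h3
    exact ih.tail ⟨x, h hx, h2⟩

lemma dst_self (u : V) : dst s t A l u u = 0 := by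
  have h := dst_le s t A l u u ∅ (by simp) Relation.ReflTransGen.refl
  rw [Finset.sum_empty] at h
  exact le_antisymm h zero_le

lemma dst_symm (u v : V) : dst s t A l u v = dst s t A l v u := by
  have h : ∀ a b, dst s t A l a b ≤ dst s t A l b a := by
    intro a b
    conv_rhs => unfold dst
    exact le_iInf₂ (fun P hP => dst_le s t A l a b P hP.1 (rtg_symm s t P _ _ hP.2))
  exact le_antisymm (h u v) (h v u)

lemma dst_tri (u v w : V) : dst s t A l u w ≤ dst s t A l u v + dst s t A l v w := by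
  by_cases h1 : dst s t A l u v = ⊤
  · rw [h1, top_add]
    exact le_top
  by_cases h2 : dst s t A l v w = ⊤
  · rw [h2, add_top]
    exact le_top
  obtain ⟨P, p1, p2, p3⟩ := dst_min s t A l u v h1
  obtain ⟨Q, q1, q2, q3⟩ := dst_min s t A l v w h2
  rw [← p3, ← q3]
  refine le_trans (dst_le s t A l u w (P ∪ Q) ?_ ?_) ?_
  · intro x hx
    rcases Finset.mem_union.mp hx with h | h
    · exact p1 x h
    · exact q1 x h
  · exact (rtg_mono s t P _ Finset.subset_union_left _ _ p2).trans
      (rtg_mono s t Q _ Finset.subset_union_right _ _ q2)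
  · rw [← Finset.sum_union_inter]
    exact le_self_add

lemma dst_edge (x : E) (hx : A x) : dst s t A l (s x) (t x) ≤ l x := by
  have h := dst_le s t A l (s x) (t x) {x} (by simpa using hx)
    (Relation.ReflTransGen.single ⟨x, Finset.mem_singleton_self x, Or.inl ⟨rfl, rfl⟩⟩)
  rwa [Finset.sum_singleton] at h

/-- a vertex `p` all of whose finite edges lead to `q` -/
lemma dst_leaf [DecidableEq V] (p q r : V) (hpq : p ≠ q) (hpr : p ≠ r)
    (h : ∀ x, A x → l x ≠ ⊤ → (s x = p → t x = q) ∧ (t x = p → s x = q)) :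
    dst s t A l p q + dst s t A l q r ≤ dst s t A l p r := by
  by_cases h1 : dst s t A l p r = ⊤
  · rw [h1]
    exact le_top
  obtain ⟨P, p1, p2, p3⟩ := dst_min s t A l p r h1
  rw [← p3] at h1 ⊢
  have hfin : ∀ x ∈ P, l x ≠ ⊤ := by
    intro x hx htop
    apply h1
    rw [eq_top_iff, ← htop]
    exact Finset.single_le_sum (fun _ _ => zero_le) hx
  have hP : ∀ x ∈ P, (s x = p → t x = q) ∧ (t x = p → s x = q) :=
    fun x hx => h x (p1 x hx) (hfin x hx)
  set P' := P.filter (fun x => s x ≠ p ∧ t x ≠ p) with hP'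
  have hclaim : ∀ z, Relation.ReflTransGen (adjP s t P) p z →
      z = p ∨ Relation.ReflTransGen (adjP s t P') q z := by
    intro z hz
    induction hz with
    | refl => exact Or.inl rfl
    | @tail b c _ h3 ih =>
      obtain ⟨x, hx, h4⟩ := h3
      by_cases hcp : c = p
      · exact Or.inl hcp
      by_cases hbp : b = p
      · right
        have hcq : c = q := by
          rcases h4 with ⟨h5, h6⟩ | ⟨h5, h6⟩
          · rw [← h6]
            exact (hP x hx).1 (h5.trans hbp)
          · rw [← h5]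
            exact (hP x hx).2 (h6.trans hbp)
        rw [hcq]
      · rcases ih with ih | ih
        · exact absurd ih hbp
        · right
          refine ih.tail ⟨x, ?_, h4⟩
          rw [hP', Finset.mem_filter]
          refine ⟨hx, ?_⟩
          rcases h4 with ⟨h5, h6⟩ | ⟨h5, h6⟩
          · rw [h5, h6]
            exact ⟨hbp, hcp⟩
          · rw [h5, h6]
            exact ⟨hcp, hbp⟩
  have hqr : Relation.ReflTransGen (adjP s t P') q r :=
    (hclaim r p2).resolve_left (fun h => hpr h.symm)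
  rcases Relation.ReflTransGen.cases_head p2 with h2 | ⟨c, ⟨f, hf, h4⟩, _⟩
  · exact absurd h2 hpr
  have hf' : f ∉ P' := by
    rw [hP', Finset.mem_filter]
    rintro ⟨_, h5, h6⟩
    rcases h4 with ⟨h7, _⟩ | ⟨_, h7⟩
    · exact h5 h7
    · exact h6 h7
  have hins : insert f P' ⊆ P := by
    intro x hx
    rcases Finset.mem_insert.mp hx with h5 | h5
    · rw [h5]
      exact hf
    · rw [hP'] at h5
      exact (Finset.mem_filter.mp h5).1
  have hsum : l f + ∑ x ∈ P', l x ≤ ∑ x ∈ P, l x := by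
    rw [← Finset.sum_insert hf']
    exact Finset.sum_le_sum_of_subset hins
  refine le_trans (add_le_add ?_ ?_) hsum
  · have h5 := dst_edge s t A l f (p1 f hf)
    rcases h4 with ⟨h6, _⟩ | ⟨_, h6⟩
    · rw [h6, (hP f hf).1 h6] at h5
      exact h5
    · rw [h6, (hP f hf).2 h6, dst_symm] at h5
      exact h5
  · apply dst_le s t A l q r P' _ hqr
    intro x hx
    rw [hP'] at hx
    exact p1 x (Finset.mem_filter.mp hx).1

end Dist

/-! ### The bad extension -/

/-- the copies: 29 edges -/
def φB : Fin 29 → Fin 14 :=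
  ![0, 0, 1, 1, 2, 2, 3, 3, 4, 4, 4, 5, 6, 6, 7, 7, 8, 8, 9, 9, 10, 10, 11, 11, 12, 12, 13, 13, 13]

def RB : Finset (Fin 14) := {10, 11, 12, 13}

/-- the violating metric -/
def ρB (i j : Fin 7) : ℤ :=
  (![![0, 3, 1, 2, 2, 1, 1], ![3, 0, 2, 1, 3, 2, 2], ![1, 2, 0, 1, 1, 2, 2],
    ![2, 1, 1, 0, 2, 3, 1], ![2, 3, 1, 2, 0, 1, 1], ![1, 2, 2, 3, 1, 0, 2],
    ![1, 2, 2, 1, 1, 2, 0]] : Fin 7 → Fin 7 → ℤ) i j

lemma ρB_pm : IsPM ρB := ⟨by decide, by decide, by decide +kernel⟩

lemma ρB_sum : ¬ (∑ r ∈ univ.filter (fun e => φB e ∈ RB), ρB (sG (φB r)) (tG (φB r)) ≤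
    ∑ e ∈ univ.filter (fun e => ¬ φB e ∈ RB), ρB (sG (φB e)) (tG (φB e))) := by
  decide +kernel

lemma surjB : Function.Surjective φB := by
  intro i
  revert i
  decide

lemma eulB : ∀ v : Fin 7, Even ((univ.filter (fun e => sG (φB e) = v)).card +
    (univ.filter (fun e => tG (φB e) = v)).card) := by
  decide +kernel

/-- no integer packing for the bad extension -/
lemma noIntB : ¬ ∃ f : Fin 29 → Finset (Fin 29),
    (∀ r, φB r ∈ RB → IsC (fun e => sG (φB e)) (fun e => tG (φB e)) (f r) ∧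
      (f r).filter (fun e => φB e ∈ RB) = {r}) ∧
    ∀ r₁ r₂, φB r₁ ∈ RB → φB r₂ ∈ RB → r₁ ≠ r₂ → Disjoint (f r₁) (f r₂) := by
  rintro ⟨f, h1, h2⟩
  obtain ⟨w, w0, w1, w2, w3⟩ := int_frac (fun e => sG (φB e)) (fun e => tG (φB e))
    (fun e => φB e ∈ RB) f h1 h2
  apply ρB_sum
  refine frac_metric (fun e => sG (φB e)) (fun e => tG (φB e)) (fun e => φB e ∈ RB) w w0 ?_ w2 w3
    ρB ρB_pm
  intro C hC
  obtain ⟨h3, h4⟩ := w1 C hC
  refine ⟨fun v => ?_, h4⟩
  rw [← bd_eq]
  exact h3.2.1 v

/-- the inequality for all distance functions of a zero-one-infinity length -/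
lemma ineqB (l : Fin 29 → ENat) (hl : ∀ e, l e = 0 ∨ l e = 1 ∨ l e = ⊤) :
    ∑ r ∈ univ.filter (fun e => φB e ∈ RB),
      dst (fun e => sG (φB e)) (fun e => tG (φB e)) (fun e => φB e ∉ RB) l (sG (φB r)) (tG (φB r)) ≤
    ∑ r ∈ univ.filter (fun e => φB e ∉ RB),
      dst (fun e => sG (φB e)) (fun e => tG (φB e)) (fun e => φB e ∉ RB) l (sG (φB r))
        (tG (φB r)) := by
  set D := dst (fun e => sG (φB e)) (fun e => tG (φB e)) (fun e => φB e ∉ RB) l with hD
  have hL : ∑ r ∈ univ.filter (fun e => φB e ∈ RB), D (sG (φB r)) (tG (φB r)) =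
      D 3 5 + (D 3 5 + (D 0 4 + (D 0 4 + (D 2 6 + (D 2 6 + (D 1 4 + (D 1 4 + D 1 4))))))) := by
    rw [show univ.filter (fun e => φB e ∈ RB) =
      ({20, 21, 22, 23, 24, 25, 26, 27, 28} : Finset (Fin 29)) from by decide +kernel]
    rw [Finset.sum_insert (by decide), Finset.sum_insert (by decide),
      Finset.sum_insert (by decide), Finset.sum_insert (by decide), Finset.sum_insert (by decide),
      Finset.sum_insert (by decide), Finset.sum_insert (by decide), Finset.sum_insert (by decide),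
      Finset.sum_singleton]
    rfl
  have hR : ∑ r ∈ univ.filter (fun e => φB e ∉ RB), D (sG (φB r)) (tG (φB r)) =
      D 3 6 + (D 3 6 + (D 2 4 + (D 2 4 + (D 0 2 + (D 0 2 + (D 0 6 + (D 0 6 + (D 4 5 + (D 4 5 +
      (D 4 5 + (D 1 5 + (D 0 5 + (D 0 5 + (D 4 6 + (D 4 6 + (D 2 3 + (D 2 3 + (D 1 3 +
      D 1 3)))))))))))))))))) := by
    rw [show univ.filter (fun e => φB e ∉ RB) =
      ({0, 1, 2, 3, 4, 5, 6, 7, 8, 9, 10, 11, 12, 13, 14, 15, 16, 17, 18, 19} :
      Finset (Fin 29)) from by decide +kernel]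
    rw [Finset.sum_insert (by decide), Finset.sum_insert (by decide),
      Finset.sum_insert (by decide), Finset.sum_insert (by decide), Finset.sum_insert (by decide),
      Finset.sum_insert (by decide), Finset.sum_insert (by decide), Finset.sum_insert (by decide),
      Finset.sum_insert (by decide), Finset.sum_insert (by decide), Finset.sum_insert (by decide),
      Finset.sum_insert (by decide), Finset.sum_insert (by decide), Finset.sum_insert (by decide),
      Finset.sum_insert (by decide), Finset.sum_insert (by decide), Finset.sum_insert (by decide),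
      Finset.sum_insert (by decide), Finset.sum_insert (by decide), Finset.sum_singleton]
    rfl
  rw [hL, hR]
  have hself : ∀ u, D u u = 0 := dst_self _ _ _ _
  have hsymm : ∀ u v, D u v = D v u := dst_symm _ _ _ _
  have htri : ∀ u v w, D u w ≤ D u v + D v w := dst_tri _ _ _ _
  by_cases hfin : D 3 6 ≠ ⊤ ∧ D 2 4 ≠ ⊤ ∧ D 0 2 ≠ ⊤ ∧ D 0 6 ≠ ⊤ ∧ D 4 5 ≠ ⊤ ∧ D 1 5 ≠ ⊤ ∧
    D 0 5 ≠ ⊤ ∧ D 4 6 ≠ ⊤ ∧ D 2 3 ≠ ⊤ ∧ D 1 3 ≠ ⊤
  · obtain ⟨f36, f24, f02, f06, f45, f15, f05, f46, f23, f13⟩ := hfin
    have hadd : ∀ u v w, D u v ≠ ⊤ → D v w ≠ ⊤ → D u w ≠ ⊤ := by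
      intro u v w h1 h2 h3
      have h4 := htri u v w
      rw [h3, top_le_iff, ENat.add_eq_top] at h4
      rcases h4 with h4 | h4
      · exact h1 h4
      · exact h2 h4
    have f03 := hadd 0 2 3 f02 f23
    have f04 := hadd 0 2 4 f02 f24
    have f01 : D 0 1 ≠ ⊤ := hadd 0 3 1 f03 (by rw [hsymm]; exact f13)
    have f0 : ∀ v, D 0 v ≠ ⊤ := by
      intro v
      fin_cases v
      · show D 0 0 ≠ ⊤
        rw [hself]
        exact ENat.zero_ne_top
      · exact f01
      · exact f02
      · exact f03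
      · exact f04
      · exact f05
      · exact f06
    have fall : ∀ u v, D u v ≠ ⊤ := by
      intro u v
      exact hadd u 0 v (by rw [hsymm]; exact f0 u) (f0 v)
    obtain ⟨d, hd⟩ : ∃ d : Fin 7 → Fin 7 → ℕ, ∀ u v, D u v = (d u v : ENat) :=
      ⟨fun u v => (D u v).toNat, fun u v => (ENat.natCast_toNat (fall u v)).symm⟩
    have dsymm : ∀ u v, d u v = d v u := by
      intro u v
      have h := hsymm u v
      rw [hd, hd] at h
      exact_mod_cast h
    have dtri : ∀ u v w, d u w ≤ d u v + d v w := by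
      intro u v w
      have h := htri u v w
      rw [hd, hd, hd] at h
      exact_mod_cast h
    have hcase : d 1 5 ≤ 1 ∨ d 1 3 + d 3 5 ≤ d 1 5 := by
      by_cases h11 : l 11 = ⊤
      · right
        have h := dst_leaf (fun e => sG (φB e)) (fun e => tG (φB e)) (fun e => φB e ∉ RB) l
          1 3 5 (by decide) (by decide) (by
            intro x hx hlx
            have h1 : x ≠ 11 := by
              rintro rfl
              exact hlx h11
            clear hlx
            revert x
            decide +kernel)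
        rw [← hD, hd, hd, hd] at h
        exact_mod_cast h
      · left
        have h := dst_edge (fun e => sG (φB e)) (fun e => tG (φB e)) (fun e => φB e ∉ RB) l
          11 (by decide)
        have h1 : l 11 ≤ 1 := by
          rcases hl 11 with h2 | h2 | h2
          · rw [h2]
            exact zero_le
          · rw [h2]
          · exact absurd h2 h11
        have h3 : D 1 5 ≤ 1 := le_trans h h1
        rw [hd] at h3
        exact_mod_cast h3
    simp only [hd]
    norm_cast
    have s1 := dsymm 5 4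
    have s2 := dsymm 2 0
    have s3 := dsymm 3 2
    have s4 := dsymm 6 4
    have s5 := dsymm 6 3
    have s6 := dsymm 5 2
    have s7 := dsymm 3 0
    have s8 := dsymm 3 1
    rcases hcase with h15 | h15
    · rcases Nat.eq_zero_or_pos (d 1 3) with h13 | h13
      · have t1 := dtri 0 5 4
        have t2 := dtri 1 3 2
        have t3 := dtri 1 2 4
        have t4 := dtri 1 3 4
        have t5 := dtri 2 0 6
        have t6 := dtri 3 6 4
        have t7 := dtri 3 1 5
        have t8 := dtri 3 4 5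
        omega
      · have t1 := dtri 0 6 3
        have t2 := dtri 0 2 4
        have t3 := dtri 0 6 4
        have t4 := dtri 1 5 4
        have t5 := dtri 2 0 5
        have t6 := dtri 2 3 6
        have t7 := dtri 2 4 6
        have t8 := dtri 3 0 5
        have t9 := dtri 3 2 5
        omega
    · have t1 := dtri 0 5 4
      have t2 := dtri 1 3 4
      have t3 := dtri 2 4 5
      have t4 := dtri 2 0 6
      have t5 := dtri 3 2 4
      have t6 := dtri 3 6 4
      have t7 := dtri 3 2 5
      omega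
  · have hor : D 3 6 = ⊤ ∨ D 2 4 = ⊤ ∨ D 0 2 = ⊤ ∨ D 0 6 = ⊤ ∨ D 4 5 = ⊤ ∨ D 1 5 = ⊤ ∨
        D 0 5 = ⊤ ∨ D 4 6 = ⊤ ∨ D 2 3 = ⊤ ∨ D 1 3 = ⊤ := by
      by_contra hc
      push Not at hc
      exact hfin hc
    refine le_trans le_top (le_of_eq ?_)
    rcases hor with h | h | h | h | h | h | h | h | h | h <;> simp [h]

end MF

/-- The negation of the preceding statement: For every finite multigraph G: fractional packing of one-R-edge circuits implies an integer packing, for all R and eulerian parallel-copy additions, iff integer packing is equivalent to the even 0-1-∞ distance inequality, for all of them. -/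
theorem result :
    ¬ (∀ (V E : Type) [Fintype V] [DecidableEq V] [Fintype E] [DecidableEq E] (s t : E → V),
    (∀ (R : Finset E) (E' : Type) [Fintype E'] [DecidableEq E'] (φ : E' → E),
      Function.Surjective φ →
      (∀ v : V, Even ((Finset.univ.filter (fun e => s (φ e) = v)).card
          + (Finset.univ.filter (fun e => t (φ e) = v)).card)) →
      ((∃ f : E' → Finset E',
          (∀ r, φ r ∈ R →
            ((f r).Nonempty ∧
              (∀ v : V, Even (((f r).filter (fun e => s (φ e) = v)).card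
                + ((f r).filter (fun e => t (φ e) = v)).card)) ∧
              ∀ D : Finset E', D ⊆ f r → D.Nonempty →
                (∀ v : V, Even ((D.filter (fun e => s (φ e) = v)).card
                  + (D.filter (fun e => t (φ e) = v)).card)) → D = f r) ∧
            (f r).filter (fun e => φ e ∈ R) = {r}) ∧
          ∀ r₁ r₂, φ r₁ ∈ R → φ r₂ ∈ R → r₁ ≠ r₂ → Disjoint (f r₁) (f r₂))
        ↔
        (∃ w : Finset E' → ℝ,
          (∀ C, 0 ≤ w C) ∧
          (∀ C, w C ≠ 0 →
            (C.Nonempty ∧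
              (∀ v : V, Even ((C.filter (fun e => s (φ e) = v)).card
                + (C.filter (fun e => t (φ e) = v)).card)) ∧
              ∀ D : Finset E', D ⊆ C → D.Nonempty →
                (∀ v : V, Even ((D.filter (fun e => s (φ e) = v)).card
                  + (D.filter (fun e => t (φ e) = v)).card)) → D = C) ∧
            (C.filter (fun e => φ e ∈ R)).card = 1) ∧
          (∀ e, φ e ∈ R → (∑ C : Finset E', if e ∈ C then w C else 0) = 1) ∧
          (∀ e, φ e ∉ R → (∑ C : Finset E', if e ∈ C then w C else 0) ≤ 1))))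
    ↔
    (∀ (R : Finset E) (E' : Type) [Fintype E'] [DecidableEq E'] (φ : E' → E),
      Function.Surjective φ →
      (∀ v : V, Even ((Finset.univ.filter (fun e => s (φ e) = v)).card
          + (Finset.univ.filter (fun e => t (φ e) = v)).card)) →
      ((∃ f : E' → Finset E',
          (∀ r, φ r ∈ R →
            ((f r).Nonempty ∧
              (∀ v : V, Even (((f r).filter (fun e => s (φ e) = v)).card
                + ((f r).filter (fun e => t (φ e) = v)).card)) ∧
              ∀ D : Finset E', D ⊆ f r → D.Nonempty →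
                (∀ v : V, Even ((D.filter (fun e => s (φ e) = v)).card
                  + (D.filter (fun e => t (φ e) = v)).card)) → D = f r) ∧
            (f r).filter (fun e => φ e ∈ R) = {r}) ∧
          ∀ r₁ r₂, φ r₁ ∈ R → φ r₂ ∈ R → r₁ ≠ r₂ → Disjoint (f r₁) (f r₂))
        ↔
        (∀ l : E' → ENat,
          (∀ e, l e = 0 ∨ l e = 1 ∨ l e = ⊤) →
          (∀ C : Finset E',
            (C.Nonempty ∧
              (∀ v : V, Even ((C.filter (fun e => s (φ e) = v)).card
                + (C.filter (fun e => t (φ e) = v)).card)) ∧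
              ∀ D : Finset E', D ⊆ C → D.Nonempty →
                (∀ v : V, Even ((D.filter (fun e => s (φ e) = v)).card
                  + (D.filter (fun e => t (φ e) = v)).card)) → D = C) →
            (∀ e ∈ C, φ e ∉ R) → Even (∑ e ∈ C, l e)) →
          (∑ r ∈ Finset.univ.filter (fun e => φ e ∈ R),
              (⨅ (P : Finset E') (_ : (∀ x ∈ P, φ x ∉ R) ∧
                  Relation.ReflTransGen
                    (fun a b => ∃ x ∈ P, (s (φ x) = a ∧ t (φ x) = b) ∨ (s (φ x) = b ∧ t (φ x) = a))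
                    (s (φ r)) (t (φ r))), ∑ x ∈ P, l x))
            ≤
          (∑ r ∈ Finset.univ.filter (fun e => φ e ∉ R),
              (⨅ (P : Finset E') (_ : (∀ x ∈ P, φ x ∉ R) ∧
                  Relation.ReflTransGen
                    (fun a b => ∃ x ∈ P, (s (φ x) = a ∧ t (φ x) = b) ∨ (s (φ x) = b ∧ t (φ x) = a))
                    (s (φ r)) (t (φ r))), ∑ x ∈ P, l x)))))) := by
  intro h
  have hA := (h (Fin 7) (Fin 14) sG tG).mp (by
    intro R E' _ _ φ _ heul
    constructor
    · rintro ⟨f, h1, h2⟩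
      exact int_frac (fun e => sG (φ e)) (fun e => tG (φ e)) (fun e => φ e ∈ R) f h1 h2
    · rintro ⟨w, w0, w1, w2, w3⟩
      refine frac_int (fun e => sG (φ e)) (fun e => tG (φ e)) φ (fun _ => rfl) (fun _ => rfl) ?_
        (fun e => φ e ∈ R) w w0 ?_ w2 w3
      · intro v
        rw [← bd_eq]
        exact heul v
      · intro C hC
        obtain ⟨h3, h4⟩ := w1 C hC
        refine ⟨fun v => ?_, h4⟩
        rw [← bd_eq]
        exact h3.2.1 v)
  have hB := hA RB (Fin 29) φB surjB eulB
  exact noIntB (hB.mpr (fun l hl _ => ineqB l hl))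

end Pool.Agent.S06876
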