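import Pool.Statements.S06877
-- import your own Pool.Agent.* helpers here

set_option autoImplicit false
open Pool Pool.MP_afadd1_co

namespace Pool.Agent.S06877


open Matrix Finset

abbrev R4 := Matrix (Fin 4) (Fin 4) ℤ


/-- n-dimensional Hadamard arrays on an index type. -/
def HD (B : Type) [Fintype B] [DecidableEq B] (n : ℕ) : Prop :=
  ∃ A : (Fin n → B) → ℤ, (∀ i, A i = 1 ∨ A i = -1) ∧
    ∀ (l : Fin n) (x y : B), (∑ i : Fin n → B, A (Function.update i l x) * A (Function.update i l y)) =
      if x = y then (Fintype.card B : ℤ) ^ n else 0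

lemma HD.congr {B C : Type} [Fintype B] [DecidableEq B] [Fintype C] [DecidableEq C] {n : ℕ}
    (e : B ≃ C) (h : HD B n) : HD C n := by
  obtain ⟨A, hA, hA2⟩ := h
  refine ⟨fun i => A (fun j => e.symm (i j)), fun i => hA _, ?_⟩
  intro l x y
  have key : ∀ (i : Fin n → C) (z : C), (fun j => e.symm (Function.update i l z j)) =
      Function.update (fun j => e.symm (i j)) l (e.symm z) := by
    intro i z
    funext j
    by_cases hj : j = l
    · subst hj; simp
    · simp [hj]
  simp only [key]
  rw [Fintype.sum_equiv (Equiv.arrowCongr (Equiv.refl (Fin n)) e.symm)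
    (fun i : Fin n → C => A (Function.update (fun j => e.symm (i j)) l (e.symm x)) *
      A (Function.update (fun j => e.symm (i j)) l (e.symm y)))
    (fun i : Fin n → B => A (Function.update i l (e.symm x)) * A (Function.update i l (e.symm y)))
    (by intro i; rfl)]
  rw [hA2, Fintype.card_congr e]
  by_cases hxy : x = y
  · subst hxy; simp
  · simp [hxy]

section step

variable {B : Type} [Fintype B] [DecidableEq B]

lemma sum_cons {m : ℕ} {M : Type} [AddCommMonoid M] (f : (Fin (m + 1) → B) → M) :
    ∑ i : Fin (m + 1) → B, f i = ∑ b : B, ∑ r : Fin m → B, f (Fin.cons b r) := by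
  rw [← Fintype.sum_prod_type']
  exact (Fintype.sum_equiv (Fin.consEquiv (fun _ => B)) _ _ (by intro x; rfl)).symm

lemma upd_cons_zero {m : ℕ} (b v : B) (r : Fin m → B) :
    Function.update (Fin.cons b r : Fin (m + 1) → B) 0 v = Fin.cons v r := by
  exact Fin.update_cons_zero (α := fun _ => B) b r v

lemma HD.step [AddCommGroup B] {m : ℕ} (hB : 0 < Fintype.card B) (h : HD B (m + 1)) : HD B (m + 2) := by
  obtain ⟨A', hA, hA2⟩ := h
  have hc : (Fintype.card B : ℤ) ≠ 0 := by exact_mod_cast hB.ne'
  -- slice form in direction zero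
  have hU : ∀ u v : B, (∑ r : Fin m → B, A' (Fin.cons u r) * A' (Fin.cons v r)) =
      if u = v then (Fintype.card B : ℤ) ^ m else 0 := by
    intro u v
    have h1 := hA2 0 u v
    rw [sum_cons] at h1
    simp only [upd_cons_zero] at h1
    rw [Finset.sum_const, Finset.card_univ, nsmul_eq_mul] at h1
    apply mul_left_cancel₀ hc
    rw [h1]
    split_ifs
    · ring
    · ring
  refine ⟨fun i => A' (Function.update (Fin.tail i) 0 (i 0 + i 1)), fun i => hA _, ?_⟩
  intro l x y
  refine Fin.cases ?_ (fun j => ?_) l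
  · -- direction zero
    rw [sum_cons]
    simp only [upd_cons_zero, Fin.tail_cons]
    have e1 : ∀ (z : B) (r : Fin (m + 1) → B), ((Fin.cons z r : Fin (m + 2) → B) 1) = r 0 := by
      intro z r; rfl
    simp only [e1, Fin.cons_zero]
    rw [Finset.sum_const, Finset.card_univ, nsmul_eq_mul, sum_cons]
    simp only [upd_cons_zero, Fin.cons_zero]
    have : ∀ b : B, (∑ r : Fin m → B, A' (Fin.cons (x + b) r) * A' (Fin.cons (y + b) r)) =
        if x = y then (Fintype.card B : ℤ) ^ m else 0 := by
      intro b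
      rw [hU]
      simp
    simp only [this]
    rw [Finset.sum_const, Finset.card_univ, nsmul_eq_mul]
    split_ifs
    · ring
    · ring
  · by_cases hj : j = 0
    · subst hj
      rw [sum_cons]
      have e2 : ∀ (b z : B) (r : Fin (m + 1) → B),
          Function.update (Fin.tail (Function.update (Fin.cons b r : Fin (m + 2) → B) (Fin.succ 0) z)) 0
            ((Function.update (Fin.cons b r : Fin (m + 2) → B) (Fin.succ 0) z) 0 +
             (Function.update (Fin.cons b r : Fin (m + 2) → B) (Fin.succ 0) z) 1) =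
            Function.update r 0 (b + z) := by
        intro b z r
        rw [Fin.tail_update_succ, Fin.tail_cons, Function.update_idem]
        congr 1
      simp only [e2]
      have : ∀ b : B, (∑ r : Fin (m + 1) → B, A' (Function.update r 0 (b + x)) *
          A' (Function.update r 0 (b + y))) = if x = y then (Fintype.card B : ℤ) ^ (m + 1) else 0 := by
        intro b
        rw [hA2]
        simp
      simp only [this]
      rw [Finset.sum_const, Finset.card_univ, nsmul_eq_mul]
      split_ifs
      · ring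
      · ring
    · rw [sum_cons]
      have e3 : ∀ (b z : B) (r : Fin (m + 1) → B),
          Function.update (Fin.tail (Function.update (Fin.cons b r : Fin (m + 2) → B) (Fin.succ j) z)) 0
            ((Function.update (Fin.cons b r : Fin (m + 2) → B) (Fin.succ j) z) 0 +
             (Function.update (Fin.cons b r : Fin (m + 2) → B) (Fin.succ j) z) 1) =
            Function.update (Function.update r 0 (b + r 0)) j z := by
        intro b z r
        rw [Fin.tail_update_succ, Fin.tail_cons, Function.update_comm hj]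
        have h0 : (Function.update (Fin.cons b r : Fin (m + 2) → B) (Fin.succ j) z) 0 = b := by
          rw [Function.update_of_ne (Fin.succ_ne_zero j).symm]; rfl
        have h1 : (Function.update (Fin.cons b r : Fin (m + 2) → B) (Fin.succ j) z) 1 = r 0 := by
          have : (1 : Fin (m + 2)) ≠ Fin.succ j := by
            intro hh
            apply hj
            have : Fin.succ j = Fin.succ (0 : Fin (m + 1)) := by rw [← hh]; rfl
            exact Fin.succ_injective _ this
          rw [Function.update_of_ne this]; rfl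
        rw [h0, h1]
      simp only [e3]
      rw [Finset.sum_comm]
      have e4 : ∀ r : Fin (m + 1) → B,
          (∑ b : B, A' (Function.update (Function.update r 0 (b + r 0)) j x) *
            A' (Function.update (Function.update r 0 (b + r 0)) j y)) =
          ∑ b : B, A' (Function.update (Function.update r 0 b) j x) *
            A' (Function.update (Function.update r 0 b) j y) := by
        intro r
        exact Fintype.sum_equiv (Equiv.addRight (r 0)) _ _ (by intro b; rfl)
      simp only [e4]
      rw [Finset.sum_comm]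
      have e5 : ∀ b : B, (∑ r : Fin (m + 1) → B, A' (Function.update (Function.update r 0 b) j x) *
            A' (Function.update (Function.update r 0 b) j y)) =
          (Fintype.card B : ℤ) * ∑ r : Fin m → B, A' (Function.update (Fin.cons b r) j x) *
            A' (Function.update (Fin.cons b r) j y) := by
        intro b
        rw [sum_cons]
        simp only [upd_cons_zero]
        rw [Finset.sum_const, Finset.card_univ, nsmul_eq_mul]
      simp only [e5]
      rw [← Finset.mul_sum]
      have h6 := hA2 j x y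
      rw [sum_cons] at h6
      rw [h6]
      split_ifs
      · ring
      · ring

end step



/-- every row of the matrix has exactly one nonzero entry, and that entry is a sign. -/
def RSU (M : Matrix (Fin 4) (Fin 4) ℤ) : Prop :=
  ∀ a, ∃ (v : Fin 4) (e : ℤ), (e = 1 ∨ e = -1) ∧ ∀ v', M a v' = if v' = v then e else 0

lemma RSU.one : RSU 1 := by
  intro a
  refine ⟨a, 1, Or.inl rfl, ?_⟩
  intro v'
  rw [Matrix.one_apply]
  by_cases h : a = v'
  · subst h; simp
  · rw [if_neg h, if_neg (Ne.symm h)]

lemma RSU.mul {M N : Matrix (Fin 4) (Fin 4) ℤ} (hM : RSU M) (hN : RSU N) : RSU (M * N) := by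
  intro a
  obtain ⟨v, e, he, hv⟩ := hM a
  obtain ⟨w, f, hf, hw⟩ := hN v
  refine ⟨w, e * f, ?_, ?_⟩
  · rcases he with rfl | rfl <;> rcases hf with rfl | rfl <;> simp
  · intro v'
    rw [Matrix.mul_apply]
    simp only [hv, ite_mul, zero_mul]
    rw [Finset.sum_ite_eq' Finset.univ v]
    simp only [Finset.mem_univ, if_true, hw]
    split_ifs <;> simp

/-- frame arrays -/
def FA (I : Type) [Fintype I] [DecidableEq I] : Prop :=
  ∃ M : (Fin 4 → I) → Matrix (Fin 4) (Fin 4) ℤ, (∀ x, RSU (M x)) ∧
    ∀ (l : Fin 4) (s s' : I),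
      (∑ x : Fin 4 → I, M (Function.update x l s) * (M (Function.update x l s'))ᵀ) =
        if s = s' then ((Fintype.card I : ℤ) ^ 4) • (1 : Matrix (Fin 4) (Fin 4) ℤ) else 0

lemma FA.congr {I J : Type} [Fintype I] [DecidableEq I] [Fintype J] [DecidableEq J]
    (e : I ≃ J) (h : FA I) : FA J := by
  obtain ⟨A, hA, hA2⟩ := h
  refine ⟨fun i => A (fun j => e.symm (i j)), fun i => hA _, ?_⟩
  intro l x y
  have key : ∀ (i : Fin 4 → J) (z : J), (fun j => e.symm (Function.update i l z j)) =
      Function.update (fun j => e.symm (i j)) l (e.symm z) := by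
    intro i z
    funext j
    by_cases hj : j = l
    · subst hj; simp
    · simp [hj]
  simp only [key]
  rw [Fintype.sum_equiv (Equiv.arrowCongr (Equiv.refl (Fin 4)) e.symm)
    (fun i : Fin 4 → J => A (Function.update (fun j => e.symm (i j)) l (e.symm x)) *
      (A (Function.update (fun j => e.symm (i j)) l (e.symm y)))ᵀ)
    (fun i : Fin 4 → I => A (Function.update i l (e.symm x)) * (A (Function.update i l (e.symm y)))ᵀ)
    (by intro i; rfl)]
  rw [hA2, Fintype.card_congr e]
  by_cases hxy : x = y
  · subst hxy; simp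
  · simp [hxy]

lemma FA.prod {I J : Type} [Fintype I] [DecidableEq I] [Fintype J] [DecidableEq J]
    (hI : FA I) (hJ : FA J) : FA (I × J) := by
  obtain ⟨M, hM, hM2⟩ := hI
  obtain ⟨N, hN, hN2⟩ := hJ
  refine ⟨fun x => M (fun j => (x j).1) * N (fun j => (x j).2), fun x => (hM _).mul (hN _), ?_⟩
  intro l s s'
  have k1 : ∀ (x : Fin 4 → I × J) (z : I × J), (fun j => (Function.update x l z j).1) =
      Function.update (fun j => (x j).1) l z.1 := by
    intro i z
    funext j
    by_cases hj : j = l
    · subst hj; simp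
    · simp [hj]
  have k2 : ∀ (x : Fin 4 → I × J) (z : I × J), (fun j => (Function.update x l z j).2) =
      Function.update (fun j => (x j).2) l z.2 := by
    intro i z
    funext j
    by_cases hj : j = l
    · subst hj; simp
    · simp [hj]
  simp only [k1, k2]
  rw [Fintype.sum_equiv (Equiv.arrowProdEquivProdArrow (Fin 4) (fun _ => I) (fun _ => J))
    (fun x : Fin 4 → I × J => M (Function.update (fun j => (x j).1) l s.1) *
        N (Function.update (fun j => (x j).2) l s.2) *
        (M (Function.update (fun j => (x j).1) l s'.1) *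
        N (Function.update (fun j => (x j).2) l s'.2))ᵀ)
    (fun x : (Fin 4 → I) × (Fin 4 → J) => M (Function.update x.1 l s.1) *
        N (Function.update x.2 l s.2) *
        (M (Function.update x.1 l s'.1) *
        N (Function.update x.2 l s'.2))ᵀ)
    (by intro i; rfl)]
  rw [Fintype.sum_prod_type]
  have k3 : ∀ x : Fin 4 → I, (∑ y : Fin 4 → J, M (Function.update x l s.1) *
        N (Function.update y l s.2) *
        (M (Function.update x l s'.1) *
        N (Function.update y l s'.2))ᵀ) =
      M (Function.update x l s.1) * (∑ y : Fin 4 → J, N (Function.update y l s.2) *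
        (N (Function.update y l s'.2))ᵀ) * (M (Function.update x l s'.1))ᵀ := by
    intro x
    rw [Finset.mul_sum, Finset.sum_mul]
    apply Finset.sum_congr rfl
    intro y _
    rw [Matrix.transpose_mul]
    simp only [Matrix.mul_assoc]
  simp only [k3, hN2]
  by_cases h2 : s.2 = s'.2
  · simp only [h2, if_true]
    have k4 : ∀ x : Fin 4 → I, M (Function.update x l s.1) *
        (((Fintype.card J : ℤ) ^ 4) • (1 : Matrix (Fin 4) (Fin 4) ℤ)) * (M (Function.update x l s'.1))ᵀ =
        ((Fintype.card J : ℤ) ^ 4) • (M (Function.update x l s.1) * (M (Function.update x l s'.1))ᵀ) := by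
      intro x
      rw [Matrix.mul_smul, Matrix.mul_one, Matrix.smul_mul]
    simp only [k4]
    rw [← Finset.smul_sum, hM2]
    by_cases h1 : s.1 = s'.1
    · have : s = s' := Prod.ext h1 h2
      rw [if_pos h1, if_pos this, smul_smul, Fintype.card_prod]
      congr 1
      push_cast
      ring
    · have : s ≠ s' := fun h => h1 (by rw [h])
      rw [if_neg h1, if_neg this, smul_zero]
  · have : s ≠ s' := fun h => h2 (by rw [h])
    simp [h2, this]

lemma FA.fin_zero : FA (Fin 0) := by
  refine ⟨fun _ => 1, fun _ => RSU.one, ?_⟩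
  intro l s
  exact s.elim0

lemma FA.fin_one : FA (Fin 1) := by
  refine ⟨fun _ => 1, fun _ => RSU.one, ?_⟩
  intro l s s'
  have : s = s' := Subsingleton.elim _ _
  rw [if_pos this]
  simp

lemma rsu_smul_one {e : ℤ} (he : e = 1 ∨ e = -1) : RSU (e • (1 : Matrix (Fin 4) (Fin 4) ℤ)) := by
  intro a
  refine ⟨a, e, he, ?_⟩
  intro v'
  rw [Matrix.smul_apply, Matrix.one_apply]
  by_cases h : a = v'
  · subst h; simp
  · rw [if_neg h, if_neg (Ne.symm h)]; simp

/-- explicit coordinates on four-fold arrays -/
def e4 (α : Type) : (Fin 4 → α) ≃ α × α × α × α where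
  toFun x := (x 0, x 1, x 2, x 3)
  invFun t := ![t.1, t.2.1, t.2.2.1, t.2.2.2]
  left_inv := by
    intro x
    funext j
    fin_cases j <;> rfl
  right_inv := by
    intro t
    rfl

lemma sum4 {α M : Type} [Fintype α] [AddCommMonoid M] (f : (Fin 4 → α) → M) :
    ∑ x : Fin 4 → α, f x = ∑ a : α, ∑ b : α, ∑ c : α, ∑ d : α, f ![a, b, c, d] := by
  rw [Fintype.sum_equiv (e4 α) f (fun t => f ![t.1, t.2.1, t.2.2.1, t.2.2.2])
    (by intro x; congr 1; funext j; fin_cases j <;> rfl)]
  simp only [Fintype.sum_prod_type]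

lemma u0 {α : Type} (a b c d s : α) : Function.update (![a, b, c, d] : Fin 4 → α) 0 s = ![s, b, c, d] := by
  funext j; fin_cases j <;> rfl
lemma u1 {α : Type} (a b c d s : α) : Function.update (![a, b, c, d] : Fin 4 → α) 1 s = ![a, s, c, d] := by
  funext j; fin_cases j <;> rfl
lemma u2 {α : Type} (a b c d s : α) : Function.update (![a, b, c, d] : Fin 4 → α) 2 s = ![a, b, s, d] := by
  funext j; fin_cases j <;> rfl
lemma u3 {α : Type} (a b c d s : α) : Function.update (![a, b, c, d] : Fin 4 → α) 3 s = ![a, b, c, s] := by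
  funext j; fin_cases j <;> rfl

def sg (b : Bool) : ℤ := if b then -1 else 1

lemma sg_mul_self (b : Bool) : sg b * sg b = 1 := by cases b <;> rfl

lemma FA.bool : FA Bool := by
  refine ⟨fun x => (sg (x 0 && x 2) * sg (x 1 && x 3)) • 1, fun x => rsu_smul_one ?_, ?_⟩
  · cases (x 0 && x 2) <;> cases (x 1 && x 3) <;> simp [sg]
  · intro l s s'
    have h : ∀ p q : ℤ, (p • (1 : Matrix (Fin 4) (Fin 4) ℤ)) * (q • (1 : Matrix (Fin 4) (Fin 4) ℤ))ᵀ =
        (p * q) • 1 := by
      intro p q
      rw [Matrix.transpose_smul, Matrix.transpose_one, Matrix.smul_mul, Matrix.one_mul, smul_smul]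
    simp only [h]
    rw [← Finset.sum_smul]
    have h2 : (∑ x : Fin 4 → Bool, (sg ((Function.update x l s) 0 && (Function.update x l s) 2) *
        sg ((Function.update x l s) 1 && (Function.update x l s) 3)) *
        (sg ((Function.update x l s') 0 && (Function.update x l s') 2) *
        sg ((Function.update x l s') 1 && (Function.update x l s') 3))) =
        if s = s' then (16 : ℤ) else 0 := by
      rw [sum4]
      fin_cases l <;> cases s <;> cases s' <;> simp [u0, u1, u2, u3, sg]
    rw [h2]
    split_ifs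
    · simp
    · simp


/-- rows of the order four Hadamard matrix, columns indexed by two bits -/
def Hd (v : Fin 4) (p q : Bool) : ℤ := ![1, sg p, sg q, sg p * sg q] v

lemma Hd_sign (v : Fin 4) (p q : Bool) : Hd v p q = 1 ∨ Hd v p q = -1 := by
  fin_cases v <;> cases p <;> cases q <;> simp [Hd, sg]

lemma hadamard_sum (u v : Fin 4 → ℤ) :
    (∑ p : Bool, ∑ q : Bool, (∑ n, u n * Hd n p q) * (∑ n, v n * Hd n p q)) = 4 * ∑ n, u n * v n := by
  simp only [Fin.sum_univ_four, Fintype.sum_bool, Hd, sg]
  simp
  ring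

/-- sign pattern on four bits -/
def bs (b : Fin 4 → Bool) : ℤ := sg (b 0 && b 2) * sg (b 1 && b 3)

lemma bs_mul_self (b : Fin 4 → Bool) : bs b * bs b = 1 := by
  have h1 := sg_mul_self (b 0 && b 2)
  have h2 := sg_mul_self (b 1 && b 3)
  unfold bs
  calc _ = (sg (b 0 && b 2) * sg (b 0 && b 2)) * (sg (b 1 && b 3) * sg (b 1 && b 3)) := by ring
    _ = 1 := by rw [h1, h2]; rfl

lemma bits_ne (K : Bool → Bool → Bool → Bool → ℤ) (l : Fin 4) (a a' : Bool) (h : a ≠ a') :
    (∑ b : Fin 4 → Bool, bs (Function.update b l a) * bs (Function.update b l a') *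
      K (xor ((Function.update b l a) 0) ((Function.update b l a) 1))
        (xor ((Function.update b l a) 2) ((Function.update b l a) 3))
        (xor ((Function.update b l a') 0) ((Function.update b l a') 1))
        (xor ((Function.update b l a') 2) ((Function.update b l a') 3))) = 0 := by
  rw [sum4]
  fin_cases l <;> cases a <;> cases a' <;> simp_all [u0, u1, u2, u3, sg, bs] <;> ring

lemma bits_eq (K : Bool → Bool → ℤ) (l : Fin 4) (a : Bool) :
    (∑ b : Fin 4 → Bool, 
      K (xor ((Function.update b l a) 0) ((Function.update b l a) 1))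
        (xor ((Function.update b l a) 2) ((Function.update b l a) 3))) =
      4 * ∑ p : Bool, ∑ q : Bool, K p q := by
  rw [sum4]
  fin_cases l <;> cases a <;> simp [u0, u1, u2, u3] <;> ring

lemma HD_of_FA {I : Type} [Fintype I] [DecidableEq I] (h : FA I) : HD (Bool × I) 4 := by
  obtain ⟨M, hM, hM2⟩ := h
  let F : (Fin 4 → I) → Bool → Bool → ℤ := fun x p q => ∑ n, M x 0 n * Hd n p q
  have hF : ∀ x p q, F x p q = 1 ∨ F x p q = -1 := by
    intro x p q
    obtain ⟨v, e, he, hv⟩ := hM x 0
    have : F x p q = e * Hd v p q := by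
      change (∑ n, M x 0 n * Hd n p q) = _
      simp only [hv, ite_mul, zero_mul]
      rw [Finset.sum_ite_eq' Finset.univ v]
      simp
    rw [this]
    rcases he with rfl | rfl <;> rcases Hd_sign v p q with h | h <;> rw [h] <;> simp
  refine ⟨fun x => bs (fun j => (x j).1) * F (fun j => (x j).2) (xor (x 0).1 (x 1).1) (xor (x 2).1 (x 3).1), ?_, ?_⟩
  · intro x
    have h1 : bs (fun j => (x j).1) = 1 ∨ bs (fun j => (x j).1) = -1 := by
      have := bs_mul_self (fun j => (x j).1)
      exact mul_self_eq_one_iff.mp this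
    have h2 := hF (fun j => (x j).2) (xor (x 0).1 (x 1).1) (xor (x 2).1 (x 3).1)
    change bs (fun j => (x j).1) * F (fun j => (x j).2) (xor (x 0).1 (x 1).1) (xor (x 2).1 (x 3).1) = 1 ∨
      bs (fun j => (x j).1) * F (fun j => (x j).2) (xor (x 0).1 (x 1).1) (xor (x 2).1 (x 3).1) = -1
    generalize bs (fun j => (x j).1) = a at *
    generalize F (fun j => (x j).2) (xor (x 0).1 (x 1).1) (xor (x 2).1 (x 3).1) = b at *
    rcases h1 with rfl | rfl <;> rcases h2 with rfl | rfl <;> simp
  · intro l s s'
    have k1 : ∀ (x : Fin 4 → Bool × I) (z : Bool × I), (fun j => (Function.update x l z j).1) =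
        Function.update (fun j => (x j).1) l z.1 := by
      intro i z
      funext j
      by_cases hj : j = l
      · subst hj; simp
      · simp [hj]
    have k2 : ∀ (x : Fin 4 → Bool × I) (z : Bool × I), (fun j => (Function.update x l z j).2) =
        Function.update (fun j => (x j).2) l z.2 := by
      intro i z
      funext j
      by_cases hj : j = l
      · subst hj; simp
      · simp [hj]
    have k1' : ∀ (x : Fin 4 → Bool × I) (z : Bool × I) (j : Fin 4), (Function.update x l z j).1 =
        Function.update (fun j => (x j).1) l z.1 j := by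
      intro x z j
      exact congrFun (k1 x z) j
    simp only [k2, k1']
    rw [Fintype.sum_equiv (Equiv.arrowProdEquivProdArrow (Fin 4) (fun _ => Bool) (fun _ => I)) _
      (fun x : (Fin 4 → Bool) × (Fin 4 → I) =>
        (bs (fun j => Function.update x.1 l s.1 j) * F (Function.update x.2 l s.2)
          (xor (Function.update x.1 l s.1 0) (Function.update x.1 l s.1 1))
          (xor (Function.update x.1 l s.1 2) (Function.update x.1 l s.1 3))) *
        (bs (fun j => Function.update x.1 l s'.1 j) * F (Function.update x.2 l s'.2)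
          (xor (Function.update x.1 l s'.1 0) (Function.update x.1 l s'.1 1))
          (xor (Function.update x.1 l s'.1 2) (Function.update x.1 l s'.1 3))))
      (by intro i; rfl)]
    rw [Fintype.sum_prod_type]
    let K : Bool → Bool → Bool → Bool → ℤ := fun p q p' q' =>
      ∑ x : Fin 4 → I, F (Function.update x l s.2) p q * F (Function.update x l s'.2) p' q'
    have k3 : ∀ b : Fin 4 → Bool, (∑ y : Fin 4 → I, (bs (fun j => Function.update b l s.1 j) * F (Function.update y l s.2)
          (xor (Function.update b l s.1 0) (Function.update b l s.1 1))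
          (xor (Function.update b l s.1 2) (Function.update b l s.1 3))) *
        (bs (fun j => Function.update b l s'.1 j) * F (Function.update y l s'.2)
          (xor (Function.update b l s'.1 0) (Function.update b l s'.1 1))
          (xor (Function.update b l s'.1 2) (Function.update b l s'.1 3)))) =
        bs (Function.update b l s.1) * bs (Function.update b l s'.1) *
        K (xor (Function.update b l s.1 0) (Function.update b l s.1 1))
          (xor (Function.update b l s.1 2) (Function.update b l s.1 3))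
          (xor (Function.update b l s'.1 0) (Function.update b l s'.1 1))
          (xor (Function.update b l s'.1 2) (Function.update b l s'.1 3)) := by
      intro b
      change _ = _ * ∑ x : Fin 4 → I, _
      rw [Finset.mul_sum]
      apply Finset.sum_congr rfl
      intro y _
      ring
    simp only [k3]
    by_cases h1 : s.1 = s'.1
    · rw [← h1]
      simp only [bs_mul_self, one_mul]
      rw [bits_eq (fun p q => K p q p q) l s.1]
      have k5 : (∑ p : Bool, ∑ q : Bool, K p q p q) =
          4 * ∑ x : Fin 4 → I, ∑ n, M (Function.update x l s.2) 0 n * M (Function.update x l s'.2) 0 n := by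
        rw [Finset.mul_sum]
        simp only [K]
        simp_rw [Finset.sum_comm (s := (Finset.univ : Finset Bool)) (t := (Finset.univ : Finset (Fin 4 → I)))]
        apply Finset.sum_congr rfl
        intro x _
        exact hadamard_sum _ _
      rw [k5]
      have k6 : (∑ x : Fin 4 → I, ∑ n, M (Function.update x l s.2) 0 n * M (Function.update x l s'.2) 0 n) =
          (∑ x : Fin 4 → I, M (Function.update x l s.2) * (M (Function.update x l s'.2))ᵀ) 0 0 := by
        rw [Matrix.sum_apply]
        apply Finset.sum_congr rfl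
        intro x _
        rw [Matrix.mul_apply]
        rfl
      rw [k6, hM2]
      by_cases h2 : s.2 = s'.2
      · have : s = s' := Prod.ext h1 h2
        rw [if_pos h2, if_pos this]
        simp
        ring
      · have : s ≠ s' := fun h => h2 (by rw [h])
        rw [if_neg h2, if_neg this]
        simp
    · have : s ≠ s' := fun h => h1 (by rw [h])
      rw [if_neg this]
      exact bits_ne K l s.1 s'.1 h1


section frame
variable {F : Type} [Field F] [Fintype F] [DecidableEq F]

/-- periodic correlation -/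
def CC (f : F → R4) (c : F) : R4 := ∑ w, f w * (f (w + c))ᵀ

lemma sum_CC (f : F → R4) : ∑ c, CC f c = (∑ w, f w) * (∑ w, f w)ᵀ := by
  unfold CC
  rw [Finset.sum_comm, Finset.sum_mul]
  apply Finset.sum_congr rfl
  intro w _
  rw [← Finset.mul_sum]
  congr 1
  rw [Matrix.transpose_sum]
  exact Fintype.sum_equiv (Equiv.addLeft w) _ _ (by intro c; rfl)

lemma CC_zero (f : F → R4) : CC f 0 = ∑ w, f w * (f w)ᵀ := by
  unfold CC
  simp

/-- the two dimensional array -/
def XX (A : R4) (f : Bool → F → R4) (chi : F → Bool) (z y : F) : R4 :=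
  if y = 0 then (if z = 0 then 1 else A) else f (chi y) (z * y)

lemma T0 (A : R4) (hA1 : A * Aᵀ = 1) (hA2 : Aᵀ = -A) (d : F) :
    (∑ z : F, (if z = 0 then (1 : R4) else A) * (if z + d = 0 then (1 : R4) else A)ᵀ) =
      if d = 0 then (Fintype.card F : ℤ) • (1 : R4) else ((Fintype.card F : ℤ) - 2) • (1 : R4) := by
  have h : ∀ z : F, (if z = 0 then (1 : R4) else A) * (if z + d = 0 then (1 : R4) else A)ᵀ =
      1 + (if z = 0 then (-A - 1) else 0) + (if z = -d then (A - 1) else 0) +
        (if z = 0 then (if d = 0 then 2 else 0) else 0) := by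
    intro z
    have e1 : (z + d = 0) = (z = -d) := by rw [eq_neg_iff_add_eq_zero]
    simp only [e1]
    by_cases h1 : z = 0
    · subst h1
      by_cases h2 : d = 0
      · subst h2
        simp only [add_zero, neg_zero, if_true, Matrix.transpose_one, Matrix.mul_one]
        have : (2 : R4) = 1 + 1 := by norm_num
        rw [this]
        abel
      · have h3 : ¬ ((0 : F) = -d) := by
          intro h; apply h2; rw [← neg_eq_zero, ← h]
        simp [h2, hA2]
    · by_cases h2 : z = -d
      · simp [h1, h2]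
        have h4 : d ≠ 0 := by
          intro h; apply h1; rw [h2, h, neg_zero]
        simp [h4]
      · simp [h1, h2, hA1]
  simp only [h]
  rw [Finset.sum_add_distrib, Finset.sum_add_distrib, Finset.sum_add_distrib]
  simp only [Finset.sum_ite_eq', Finset.mem_univ, if_true]
  rw [Finset.sum_const, Finset.card_univ]
  by_cases h2 : d = 0
  · simp only [h2, if_true]
    rw [← natCast_zsmul]
    have : (2 : R4) = 1 + 1 := by norm_num
    rw [this]
    abel
  · simp only [h2, if_false]
    rw [sub_smul, ← natCast_zsmul]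
    have : (2 : ℤ) • (1 : R4) = 1 + 1 := by rw [two_smul]
    rw [this]
    abel

lemma rows (A : R4) (f : Bool → F → R4) (chi : F → Bool)
    (hchi : ∀ y, y ≠ 0 → chi (-y) = !(chi y))
    (hA1 : A * Aᵀ = 1) (hA2 : Aᵀ = -A)
    (hP : (∑ w, f true w * (f true w)ᵀ) + (∑ w, f false w * (f false w)ᵀ) =
      (2 * (Fintype.card F : ℤ)) • (1 : R4))
    (hS : (∑ w, f true w) * (∑ w, f true w)ᵀ + (∑ w, f false w) * (∑ w, f false w)ᵀ =
      (4 : ℤ) • (1 : R4))
    (hE : ∀ c, CC (f true) c + CC (f false) (-c) = CC (f true) (-c) + CC (f false) c) (d : F) :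
    (∑ y : F, ∑ z : F, XX A f chi z y * (XX A f chi (z + d) y)ᵀ) =
      if d = 0 then ((Fintype.card F : ℤ) ^ 2) • (1 : R4) else 0 := by
  classical
  -- inner sums
  have hin : ∀ y : F, (∑ z : F, XX A f chi z y * (XX A f chi (z + d) y)ᵀ) =
      (if y = 0 then (if d = 0 then (Fintype.card F : ℤ) • (1 : R4) else ((Fintype.card F : ℤ) - 2) • (1 : R4)) else 0)
      + (if y = 0 then 0 else CC (f (chi y)) (d * y)) := by
    intro y
    by_cases hy : y = 0
    · subst hy
      simp only [XX, if_true, add_zero]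
      exact T0 A hA1 hA2 d
    · simp only [XX, hy, if_false, zero_add]
      unfold CC
      exact Fintype.sum_equiv (Equiv.mulRight₀ y hy) _ _ (by
        intro z
        change _ = f (chi y) (z * y) * (f (chi y) (z * y + d * y))ᵀ
        rw [add_mul])
  simp only [hin]
  rw [Finset.sum_add_distrib]
  simp only [Finset.sum_ite_eq', Finset.mem_univ, if_true]
  set g : F → R4 := fun y => if y = 0 then 0 else CC (f (chi y)) (d * y) with hg
  set G : F → R4 := fun c => CC (f true) c + CC (f false) (-c) with hG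
  have hGn : ∀ c, G (-c) = G c := by
    intro c
    simp only [hG, neg_neg]
    exact (hE c).symm
  have hgg : ∀ y, g y + g (-y) = G (d * y) - (if y = 0 then G 0 else 0) := by
    intro y
    by_cases hy : y = 0
    · subst hy; simp [hg]
    · have hy' : -y ≠ 0 := neg_ne_zero.mpr hy
      simp only [hg, hy, hy', if_false, sub_zero]
      rw [hchi y hy]
      have e : d * -y = -(d * y) := by ring
      rw [e]
      cases hb : chi y
      · -- false
        rw [← hGn (d * y)]
        simp only [hG, neg_neg, Bool.not_false]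
        abel
      · simp only [hG, Bool.not_true]
  have h2 : (∑ y, g y) + (∑ y, g y) = (∑ y, G (d * y)) - G 0 := by
    have e1 : (∑ y, g y) = ∑ y, g (-y) := (Fintype.sum_equiv (Equiv.neg F) _ _ (by intro y; simp)).symm
    have e2 : (∑ y, g y) + (∑ y, g y) = (∑ y, g y) + ∑ y, g (-y) := by rw [← e1]
    rw [e2, ← Finset.sum_add_distrib]
    simp only [hgg]
    rw [Finset.sum_sub_distrib]
    simp only [Finset.sum_ite_eq', Finset.mem_univ, if_true]
  have hG0 : G 0 = (2 * (Fintype.card F : ℤ)) • (1 : R4) := by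
    simp only [hG, neg_zero, CC_zero]
    exact hP
  have hGs : (∑ c, G c) = (4 : ℤ) • (1 : R4) := by
    simp only [hG]
    rw [Finset.sum_add_distrib, sum_CC]
    have : (∑ c, CC (f false) (-c)) = ∑ c, CC (f false) c :=
      Fintype.sum_equiv (Equiv.neg F) _ _ (by intro y; simp)
    rw [this, sum_CC]
    exact hS
  have fin : ∀ T U : R4, T + T = U + U → T = U := by
    intro T U h
    ext i j
    have := congrFun (congrFun h i) j
    simp only [Matrix.add_apply] at this
    omega
  apply fin
  by_cases hd : d = 0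
  · subst hd
    simp only [zero_mul, if_true] at *
    rw [Finset.sum_const, Finset.card_univ, ← natCast_zsmul] at h2
    have : ∀ P Q : R4, (P + Q) + (P + Q) = (P + P) + (Q + Q) := by intro P Q; abel
    rw [this, h2, hG0, smul_smul]
    rw [← add_smul, ← sub_smul, ← add_smul, ← add_smul]
    congr 1
    ring
  · simp only [hd, if_false]
    have e3 : (∑ y, G (d * y)) = ∑ c, G c :=
      Fintype.sum_equiv (Equiv.mulLeft₀ d hd) _ _ (by intro y; simp)
    rw [e3, hGs, hG0] at h2
    have : ∀ P Q : R4, (P + Q) + (P + Q) = (P + P) + (Q + Q) := by intro P Q; abel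
    rw [this, h2, ← add_smul, ← sub_smul, ← add_smul]
    rw [add_zero]
    have : ((Fintype.card F : ℤ) - 2 + ((Fintype.card F : ℤ) - 2) + (4 - 2 * (Fintype.card F : ℤ))) = 0 := by ring
    rw [this, zero_smul]

end frame

lemma FA_of_rows {F : Type} [AddCommGroup F] [Fintype F] [DecidableEq F] (X : F → F → R4)
    (hX : ∀ z y, RSU (X z y))
    (hr : ∀ d, (∑ y : F, ∑ z : F, X z y * (X (z + d) y)ᵀ) =
      if d = 0 then ((Fintype.card F : ℤ) ^ 2) • (1 : R4) else 0)
    (hc : ∀ d, (∑ z : F, ∑ y : F, X z y * (X z (y + d))ᵀ) =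
      if d = 0 then ((Fintype.card F : ℤ) ^ 2) • (1 : R4) else 0) : FA F := by
  refine ⟨fun x => X (x 0 + x 1) (x 2 + x 3), fun x => hX _ _, ?_⟩
  intro l s s'
  have sl : ∀ (c : F) (g : F → R4), (∑ b : F, g (c + b)) = ∑ b : F, g b := by
    intro c g
    exact Fintype.sum_equiv (Equiv.addLeft c) _ _ (by intro b; rfl)
  have sr : ∀ (c : F) (g : F → R4), (∑ b : F, g (b + c)) = ∑ b : F, g b := by
    intro c g
    exact Fintype.sum_equiv (Equiv.addRight c) _ _ (by intro b; rfl)
  have sc : ∀ (v : R4), (∑ _b : F, v) = (Fintype.card F : ℤ) • v := by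
    intro v
    rw [Finset.sum_const, Finset.card_univ, natCast_zsmul]
  have hss : (s' - s = 0) = (s = s') := by
    rw [sub_eq_zero]; exact propext ⟨fun h => h.symm, fun h => h.symm⟩
  have key : ∀ v : R4, v = (if s' - s = 0 then ((Fintype.card F : ℤ) ^ 2) • (1 : R4) else 0) →
      (Fintype.card F : ℤ) • (Fintype.card F : ℤ) • v =
        if s = s' then ((Fintype.card F : ℤ) ^ 4) • (1 : R4) else 0 := by
    intro v hv
    rw [hv]
    simp only [hss]
    by_cases h : s = s'
    · simp only [h, if_true, smul_smul]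
      congr 1
      ring
    · simp only [h, if_false, smul_zero]
  rw [sum4]
  fin_cases l
  · have e : ∀ a b c d : F, (fun x : Fin 4 → F => X (x 0 + x 1) (x 2 + x 3)) (Function.update ![a, b, c, d] 0 s) *
        ((fun x : Fin 4 → F => X (x 0 + x 1) (x 2 + x 3)) (Function.update ![a, b, c, d] 0 s'))ᵀ =
        X (s + b) (c + d) * (X ((s + b) + (s' - s)) (c + d))ᵀ := by
      intro a b c d
      rw [u0, u0]
      have : s + b + (s' - s) = s' + b := by abel
      rw [this]
      rfl
    have e' : (∑ a : F, ∑ b : F, ∑ c : F, ∑ d : F, (fun x : Fin 4 → F => X (x 0 + x 1) (x 2 + x 3)) (Function.update ![a, b, c, d] 0 s) *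
        ((fun x : Fin 4 → F => X (x 0 + x 1) (x 2 + x 3)) (Function.update ![a, b, c, d] 0 s'))ᵀ) =
        (Fintype.card F : ℤ) • (Fintype.card F : ℤ) • (∑ y : F, ∑ z : F, X z y * (X (z + (s' - s)) y)ᵀ) := by
      simp only [e]
      rw [sc]
      congr 1
      have h1 : ∀ b c : F, (∑ d : F, X (s + b) (c + d) * (X ((s + b) + (s' - s)) (c + d))ᵀ) =
          ∑ y : F, X (s + b) y * (X ((s + b) + (s' - s)) y)ᵀ := by
        intro b c
        exact sl c (fun y => X (s + b) y * (X ((s + b) + (s' - s)) y)ᵀ)
      simp only [h1, sc]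
      rw [← Finset.smul_sum]
      congr 1
      rw [Finset.sum_comm]
      apply Finset.sum_congr rfl
      intro y _
      exact sl s (fun z => X z y * (X (z + (s' - s)) y)ᵀ)
    exact e'.trans (key _ (hr _))
  · have e : ∀ a b c d : F, (fun x : Fin 4 → F => X (x 0 + x 1) (x 2 + x 3)) (Function.update ![a, b, c, d] 1 s) *
        ((fun x : Fin 4 → F => X (x 0 + x 1) (x 2 + x 3)) (Function.update ![a, b, c, d] 1 s'))ᵀ =
        X (a + s) (c + d) * (X ((a + s) + (s' - s)) (c + d))ᵀ := by
      intro a b c d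
      rw [u1, u1]
      have : a + s + (s' - s) = a + s' := by abel
      rw [this]
      rfl
    have e' : (∑ a : F, ∑ b : F, ∑ c : F, ∑ d : F, (fun x : Fin 4 → F => X (x 0 + x 1) (x 2 + x 3)) (Function.update ![a, b, c, d] 1 s) *
        ((fun x : Fin 4 → F => X (x 0 + x 1) (x 2 + x 3)) (Function.update ![a, b, c, d] 1 s'))ᵀ) =
        (Fintype.card F : ℤ) • (Fintype.card F : ℤ) • (∑ y : F, ∑ z : F, X z y * (X (z + (s' - s)) y)ᵀ) := by
      simp only [e]
      have h1 : ∀ a c : F, (∑ d : F, X (a + s) (c + d) * (X ((a + s) + (s' - s)) (c + d))ᵀ) =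
          ∑ y : F, X (a + s) y * (X ((a + s) + (s' - s)) y)ᵀ := by
        intro b c
        exact sl c (fun y => X (b + s) y * (X ((b + s) + (s' - s)) y)ᵀ)
      simp only [h1, sc]
      rw [← Finset.smul_sum, ← Finset.smul_sum]
      congr 2
      rw [Finset.sum_comm]
      apply Finset.sum_congr rfl
      intro y _
      exact sr s (fun z => X z y * (X (z + (s' - s)) y)ᵀ)
    exact e'.trans (key _ (hr _))
  · have e : ∀ a b c d : F, (fun x : Fin 4 → F => X (x 0 + x 1) (x 2 + x 3)) (Function.update ![a, b, c, d] 2 s) *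
        ((fun x : Fin 4 → F => X (x 0 + x 1) (x 2 + x 3)) (Function.update ![a, b, c, d] 2 s'))ᵀ =
        X (a + b) (s + d) * (X (a + b) ((s + d) + (s' - s)))ᵀ := by
      intro a b c d
      rw [u2, u2]
      have : s + d + (s' - s) = s' + d := by abel
      rw [this]
      rfl
    have e' : (∑ a : F, ∑ b : F, ∑ c : F, ∑ d : F, (fun x : Fin 4 → F => X (x 0 + x 1) (x 2 + x 3)) (Function.update ![a, b, c, d] 2 s) *
        ((fun x : Fin 4 → F => X (x 0 + x 1) (x 2 + x 3)) (Function.update ![a, b, c, d] 2 s'))ᵀ) =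
        (Fintype.card F : ℤ) • (Fintype.card F : ℤ) • (∑ z : F, ∑ y : F, X z y * (X z (y + (s' - s)))ᵀ) := by
      simp only [e]
      have h1 : ∀ a b : F, (∑ d : F, X (a + b) (s + d) * (X (a + b) ((s + d) + (s' - s)))ᵀ) =
          ∑ y : F, X (a + b) y * (X (a + b) (y + (s' - s)))ᵀ := by
        intro a b
        exact sl s (fun y => X (a + b) y * (X (a + b) (y + (s' - s)))ᵀ)
      have h2 : ∀ a : F, (∑ b : F, ∑ y : F, X (a + b) y * (X (a + b) (y + (s' - s)))ᵀ) =
          ∑ z : F, ∑ y : F, X z y * (X z (y + (s' - s)))ᵀ := by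
        intro a
        exact sl a (fun z => ∑ y : F, X z y * (X z (y + (s' - s)))ᵀ)
      simp only [h1, sc, ← Finset.smul_sum, h2]
    exact e'.trans (key _ (hc _))
  · have e : ∀ a b c d : F, (fun x : Fin 4 → F => X (x 0 + x 1) (x 2 + x 3)) (Function.update ![a, b, c, d] 3 s) *
        ((fun x : Fin 4 → F => X (x 0 + x 1) (x 2 + x 3)) (Function.update ![a, b, c, d] 3 s'))ᵀ =
        X (a + b) (c + s) * (X (a + b) ((c + s) + (s' - s)))ᵀ := by
      intro a b c d
      rw [u3, u3]
      have : c + s + (s' - s) = c + s' := by abel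
      rw [this]
      rfl
    have e' : (∑ a : F, ∑ b : F, ∑ c : F, ∑ d : F, (fun x : Fin 4 → F => X (x 0 + x 1) (x 2 + x 3)) (Function.update ![a, b, c, d] 3 s) *
        ((fun x : Fin 4 → F => X (x 0 + x 1) (x 2 + x 3)) (Function.update ![a, b, c, d] 3 s'))ᵀ) =
        (Fintype.card F : ℤ) • (Fintype.card F : ℤ) • (∑ z : F, ∑ y : F, X z y * (X z (y + (s' - s)))ᵀ) := by
      simp only [e, sc]
      have h1 : ∀ a b : F, (∑ c : F, X (a + b) (c + s) * (X (a + b) ((c + s) + (s' - s)))ᵀ) =
          ∑ y : F, X (a + b) y * (X (a + b) (y + (s' - s)))ᵀ := by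
        intro a b
        exact sr s (fun y => X (a + b) y * (X (a + b) (y + (s' - s)))ᵀ)
      have h2 : ∀ a : F, (∑ b : F, ∑ y : F, X (a + b) y * (X (a + b) (y + (s' - s)))ᵀ) =
          ∑ z : F, ∑ y : F, X z y * (X z (y + (s' - s)))ᵀ := by
        intro a
        exact sl a (fun z => ∑ y : F, X z y * (X z (y + (s' - s)))ᵀ)
      simp only [← Finset.smul_sum, h1, h2, sc]
    exact e'.trans (key _ (hc _))

/-- assembly from a half system and a pair of functions. -/
lemma FA_of_pair {F : Type} [Field F] [Fintype F] [DecidableEq F] (A : R4) (f : Bool → F → R4)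
    (chi : F → Bool) (hchi : ∀ y, y ≠ 0 → chi (-y) = !(chi y))
    (hA0 : RSU A) (hf : ∀ b w, RSU (f b w))
    (hA1 : A * Aᵀ = 1) (hA2 : Aᵀ = -A)
    (hf0 : ∀ b, f b 0 = A) (hf1 : ∀ w, w ≠ 1 → f true w = f false w)
    (hP : (∑ w, f true w * (f true w)ᵀ) + (∑ w, f false w * (f false w)ᵀ) =
      (2 * (Fintype.card F : ℤ)) • (1 : R4))
    (hS : (∑ w, f true w) * (∑ w, f true w)ᵀ + (∑ w, f false w) * (∑ w, f false w)ᵀ =
      (4 : ℤ) • (1 : R4))
    (hE : ∀ c, CC (f true) c + CC (f false) (-c) = CC (f true) (-c) + CC (f false) c) : FA F := by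
  have hsym : ∀ z y : F, XX A f chi z y = XX A f (fun u => chi u⁻¹) y z := by
    intro z y
    unfold XX
    by_cases hy : y = 0
    · subst hy
      by_cases hz : z = 0
      · subst hz; simp
      · simp [hz, hf0]
    · by_cases hz : z = 0
      · subst hz; simp [hy, hf0]
      · simp only [hy, hz, if_false]
        rw [mul_comm y z]
        by_cases h1 : z * y = 1
        · have : z⁻¹ = y := (eq_inv_of_mul_eq_one_right h1).symm
          rw [this]
        · have : ∀ b : Bool, f b (z * y) = f false (z * y) := by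
            intro b; cases b
            · rfl
            · exact hf1 _ h1
          rw [this, this (chi z⁻¹)]
  have hchi' : ∀ y : F, y ≠ 0 → chi (-y)⁻¹ = !(chi y⁻¹) := by
    intro y hy
    rw [inv_neg]
    exact hchi _ (inv_ne_zero hy)
  apply FA_of_rows (XX A f chi)
  · intro z y
    unfold XX
    split_ifs
    · exact RSU.one
    · exact hA0
    · exact hf _ _
  · intro d
    exact rows A f chi hchi hA1 hA2 hP hS hE d
  · intro d
    have := rows A f (fun u => chi u⁻¹) hchi' hA1 hA2 hP hS hE d
    rw [← this]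
    apply Finset.sum_congr rfl
    intro z _
    apply Finset.sum_congr rfl
    intro y _
    rw [hsym z y, hsym z (y + d)]


/-- half system of a prime field -/
def chiP (p : ℕ) (y : ZMod p) : Bool := decide (y.val ≤ p / 2)

lemma chiP_neg (p : ℕ) [Fact p.Prime] (hp : p ≠ 2) (y : ZMod p) (hy : y ≠ 0) :
    chiP p (-y) = !(chiP p y) := by
  have hpp : p.Prime := Fact.out
  have hodd : p % 2 = 1 := Nat.Prime.eq_two_or_odd hpp |>.resolve_left hp
  have h1 : (-y).val = p - y.val := by
    rw [ZMod.neg_val, if_neg hy]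
  have h2 : y.val < p := ZMod.val_lt y
  have h3 : y.val ≠ 0 := by rwa [Ne, ZMod.val_eq_zero]
  unfold chiP
  rw [h1]
  by_cases h : y.val ≤ p / 2
  · have : ¬ (p - y.val ≤ p / 2) := by omega
    simp [h, this]
  · have : p - y.val ≤ p / 2 := by omega
    simp [h, this]

/-- even filler signs -/
def fe (p : ℕ) (x : ZMod p) : ℤ := if x.val ≤ p / 2 then (-1) ^ x.val else (-1) ^ (p - x.val)

lemma fe_sign (p : ℕ) (x : ZMod p) : fe p x = 1 ∨ fe p x = -1 := by
  unfold fe
  split_ifs
  · exact neg_one_pow_eq_or ℤ _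
  · exact neg_one_pow_eq_or ℤ _

lemma fe_neg (p : ℕ) [Fact p.Prime] (hp : p ≠ 2) (x : ZMod p) : fe p (-x) = fe p x := by
  by_cases hx : x = 0
  · subst hx; simp
  · have hpp : p.Prime := Fact.out
    have hodd : p % 2 = 1 := Nat.Prime.eq_two_or_odd hpp |>.resolve_left hp
    have h1 : (-x).val = p - x.val := by
      rw [ZMod.neg_val, if_neg hx]
    have h2 : x.val < p := ZMod.val_lt x
    have h3 : x.val ≠ 0 := by rwa [Ne, ZMod.val_eq_zero]
    unfold fe
    rw [h1]
    by_cases h : x.val ≤ p / 2
    · have : ¬ (p - x.val ≤ p / 2) := by omega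
      rw [if_pos h, if_neg this]
      congr 1
      omega
    · have : p - x.val ≤ p / 2 := by omega
      rw [if_neg h, if_pos this]

lemma fe_sum (p : ℕ) [Fact p.Prime] (hp : p ≠ 2) : (∑ x : ZMod p, fe p x) = (-1) ^ (p / 2) := by
  have hpp : p.Prime := Fact.out
  have hodd : p % 2 = 1 := Nat.Prime.eq_two_or_odd hpp |>.resolve_left hp
  obtain ⟨h, hh⟩ : ∃ h, p = 2 * h + 1 := ⟨p / 2, by omega⟩
  have hp2 : p / 2 = h := by omega
  have e1 : (∑ x : ZMod p, fe p x) = ∑ v ∈ Finset.range p, (if v ≤ h then (-1 : ℤ) ^ v else (-1) ^ (p - v)) := by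
    rw [Finset.sum_bij (fun (x : ZMod p) _ => x.val)]
    · intro a _
      exact Finset.mem_range.mpr (ZMod.val_lt a)
    · intro a _ b _ hab
      exact ZMod.val_injective p hab
    · intro b hb
      refine ⟨(b : ZMod p), Finset.mem_univ _, ?_⟩
      exact ZMod.val_natCast_of_lt (Finset.mem_range.mp hb)
    · intro a _
      unfold fe
      rw [hp2]
  rw [e1, hp2]
  have e2 : Finset.range p = Finset.range ((h + 1) + h) := by congr 1; omega
  rw [e2, Finset.sum_range_add]
  have e3 : (∑ v ∈ Finset.range (h + 1), (if v ≤ h then (-1 : ℤ) ^ v else (-1) ^ (p - v))) =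
      ∑ v ∈ Finset.range (h + 1), (-1 : ℤ) ^ v := by
    apply Finset.sum_congr rfl
    intro v hv
    have := Finset.mem_range.mp hv
    rw [if_pos (by omega)]
  have e4 : (∑ v ∈ Finset.range h, (if (h + 1) + v ≤ h then (-1 : ℤ) ^ ((h + 1) + v) else (-1) ^ (p - ((h + 1) + v)))) =
      ∑ v ∈ Finset.range h, (-1 : ℤ) ^ (h - v) := by
    apply Finset.sum_congr rfl
    intro v hv
    have := Finset.mem_range.mp hv
    rw [if_neg (by omega)]
    congr 1
    omega
  rw [e3, e4]
  have e5 : (∑ v ∈ Finset.range h, (-1 : ℤ) ^ (h - v)) = -∑ v ∈ Finset.range h, (-1 : ℤ) ^ v := by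
    rw [← Finset.sum_range_reflect (fun v => (-1 : ℤ) ^ v) h, ← Finset.sum_neg_distrib]
    apply Finset.sum_congr rfl
    intro v hv
    have := Finset.mem_range.mp hv
    have : h - v = (h - 1 - v) + 1 := by omega
    rw [this, pow_succ]
    ring
  rw [e5, Finset.sum_range_succ]
  ring

lemma fe_zero (p : ℕ) : fe p 0 = 1 := by
  unfold fe
  simp

lemma fe_one (p : ℕ) [Fact p.Prime] (hp : p ≠ 2) : fe p 1 = -1 := by
  have hpp : p.Prime := Fact.out
  have h2 := hpp.two_le
  have : (1 : ZMod p).val = 1 := by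
    haveI : Fact (1 < p) := ⟨hpp.one_lt⟩
    exact ZMod.val_one p
  unfold fe
  rw [this, if_pos (by omega)]
  norm_num

lemma fe_two (p : ℕ) [Fact p.Prime] (hp : 5 ≤ p) : fe p 2 = 1 := by
  have : (2 : ZMod p).val = 2 := by
    have h : ((2 : ℕ) : ZMod p) = 2 := by norm_num
    rw [← h]
    exact ZMod.val_natCast_of_lt (by omega)
  unfold fe
  rw [this, if_pos (by omega)]
  norm_num


/-- row monomial matrix from positions and signs -/
def mk4 (v : Fin 4 → Fin 4) (e : Fin 4 → Bool) : R4 :=
  Matrix.of (fun a n => if n = v a then sg (e a) else 0)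

lemma mk4_rsu (v : Fin 4 → Fin 4) (e : Fin 4 → Bool) : RSU (mk4 v e) := by
  intro a
  refine ⟨v a, sg (e a), ?_, ?_⟩
  · cases e a <;> simp [sg]
  · intro v'
    rfl

section corr
variable {F : Type} [Field F] [Fintype F] [DecidableEq F]

lemma CC_shift (g : F → R4) (s c : F) : CC (fun w => g (w - s)) c = CC g c := by
  unfold CC
  refine Fintype.sum_equiv (Equiv.subRight s) _ _ ?_
  intro w
  change g (w - s) * (g (w + c - s))ᵀ = g (w - s) * (g (w - s + c))ᵀ
  have : w + c - s = w - s + c := by ring
  rw [this]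

lemma CC_diff (g k : F → R4) (W : R4) (h : ∀ x, k x = g x - (if x = 0 then W else 0)) (c : F) :
    CC k c = CC g c - W * (g c)ᵀ - g (-c) * Wᵀ + (if c = 0 then W * Wᵀ else 0) := by
  unfold CC
  have e : ∀ w, k w * (k (w + c))ᵀ = g w * (g (w + c))ᵀ - (if w = 0 then W * (g c)ᵀ else 0) -
      (if w = -c then g (-c) * Wᵀ else 0) + (if w = 0 then (if c = 0 then W * Wᵀ else 0) else 0) := by
    intro w
    rw [h w, h (w + c)]
    have e1 : (w + c = 0) = (w = -c) := by rw [eq_neg_iff_add_eq_zero]
    simp only [e1]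
    by_cases h1 : w = 0
    · subst h1
      by_cases h2 : c = 0
      · subst h2
        simp only [neg_zero, if_true, add_zero, Matrix.transpose_sub]
        noncomm_ring
      · have h3 : ¬ ((0 : F) = -c) := by
          intro h; apply h2; rw [← neg_eq_zero, ← h]
        simp only [h2, h3, if_true, if_false, zero_add, sub_zero]
        noncomm_ring
    · by_cases h2 : w = -c
      · subst h2
        simp only [h1, if_true, if_false, sub_zero, Matrix.transpose_sub]
        noncomm_ring
      · simp only [h1, h2, if_false, sub_zero, add_zero]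
  simp only [e]
  rw [Finset.sum_add_distrib, Finset.sum_sub_distrib, Finset.sum_sub_distrib]
  simp only [Finset.sum_ite_eq', Finset.mem_univ, if_true]

lemma hE_of (g k : F → R4) (W : R4) (h : ∀ x, k x = g x - (if x = 0 then W else 0))
    (hW : ∀ c, W * (g c - g (-c))ᵀ = (g c - g (-c)) * Wᵀ) (c : F) :
    CC g c + CC k (-c) = CC g (-c) + CC k c := by
  rw [CC_diff g k W h c, CC_diff g k W h (-c)]
  have h1 := hW c
  rw [Matrix.transpose_sub, Matrix.mul_sub, Matrix.sub_mul] at h1
  have h2 : (if -c = 0 then W * Wᵀ else (0 : R4)) = if c = 0 then W * Wᵀ else 0 := by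
    simp only [neg_eq_zero]
  rw [h2, neg_neg]
  have h3 : W * (g c)ᵀ = g c * Wᵀ - g (-c) * Wᵀ + W * (g (-c))ᵀ := by
    rw [← h1]; abel
  rw [h3]
  abel

end corr

/-- the profile around the special point -/
def phi (p : ℕ) (AB C0 A C1 D1 : R4) (x : ZMod p) : R4 :=
  if x = 0 then AB else if x = 1 then C0 else if x = -1 then A else if x = 2 then C1
  else if x = -2 then D1 else fe p x • (1 : R4)

section distinct
variable (p : ℕ) [Fact p.Prime]

lemma small_ne (hp : 5 ≤ p) (n : ℕ) (h0 : 0 < n) (h5 : n < 5) : ((n : ℕ) : ZMod p) ≠ 0 := by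
  intro h
  rw [ZMod.natCast_eq_zero_iff] at h
  have := Nat.le_of_dvd h0 h
  omega

lemma phi_decomp (hp : 5 ≤ p) {M : Type} [AddCommGroup M] (T : R4 → M) (AB C0 A C1 D1 : R4) (x : ZMod p) :
    T (phi p AB C0 A C1 D1 x) = T (fe p x • (1 : R4)) + (if x = 0 then (T AB - T 1) else 0) +
      (if x = 1 then (T C0 - T (-1)) else 0) + (if x = -1 then (T A - T (-1)) else 0) +
      (if x = 2 then (T C1 - T 1) else 0) + (if x = -2 then (T D1 - T 1) else 0) := by
  have hp2 : p ≠ 2 := by omega
  have n1 : (1 : ZMod p) ≠ 0 := by simpa using small_ne p hp 1 (by norm_num) (by norm_num)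
  have n2 : (2 : ZMod p) ≠ 0 := by simpa using small_ne p hp 2 (by norm_num) (by norm_num)
  have n3 : (3 : ZMod p) ≠ 0 := by simpa using small_ne p hp 3 (by norm_num) (by norm_num)
  have n4 : (4 : ZMod p) ≠ 0 := by simpa using small_ne p hp 4 (by norm_num) (by norm_num)
  have a1 : (-1 : ZMod p) ≠ 0 := neg_ne_zero.mpr n1
  have a2 : (-2 : ZMod p) ≠ 0 := neg_ne_zero.mpr n2
  have a3 : (-1 : ZMod p) ≠ 1 := by
    intro h; apply n2
    linear_combination -h
  have a4 : (2 : ZMod p) ≠ 1 := by
    intro h; apply n1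
    linear_combination h
  have a5 : (2 : ZMod p) ≠ -1 := by
    intro h; apply n3
    linear_combination h
  have a6 : (-2 : ZMod p) ≠ 1 := by
    intro h; apply n3
    linear_combination -h
  have a7 : (-2 : ZMod p) ≠ -1 := by
    intro h; apply n1
    linear_combination -h
  have a8 : (-2 : ZMod p) ≠ 2 := by
    intro h; apply n4
    linear_combination -h
  have f0 : fe p 0 • (1 : R4) = 1 := by rw [fe_zero, one_smul]
  have f1 : fe p 1 • (1 : R4) = -1 := by rw [fe_one p hp2, neg_smul, one_smul]
  have f1' : fe p (-1) • (1 : R4) = -1 := by rw [fe_neg p hp2, f1]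
  have f2 : fe p 2 • (1 : R4) = 1 := by rw [fe_two p hp, one_smul]
  have f2' : fe p (-2) • (1 : R4) = 1 := by rw [fe_neg p hp2, f2]
  unfold phi
  by_cases h0 : x = 0
  · subst h0
    simp only [n1.symm, n2.symm, a1.symm, a2.symm, if_true, if_false, f0]
    abel
  · by_cases h1 : x = 1
    · subst h1
      simp only [n1, a3.symm, a4.symm, a6.symm, if_true, if_false, f1]
      abel
    · by_cases h2 : x = -1
      · subst h2
        simp only [a1, a3, a5.symm, a7.symm, if_true, if_false, f1']
        abel
      · by_cases h3 : x = 2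
        · subst h3
          simp only [n2, a4, a5, a8.symm, if_true, if_false, f2]
          abel
        · by_cases h4 : x = -2
          · subst h4
            simp only [a2, a6, a7, a8, if_true, if_false, f2']
            abel
          · simp only [h0, h1, h2, h3, h4, if_false]
            abel

lemma phi_sum (hp : 5 ≤ p) (AB C0 A C1 D1 : R4) :
    (∑ x : ZMod p, phi p AB C0 A C1 D1 x) = ((-1 : ℤ) ^ (p / 2)) • (1 : R4) + (AB - 1) + (C0 + 1) + (A + 1) +
      (C1 - 1) + (D1 - 1) := by
  have h := fun x => phi_decomp p hp (fun M : R4 => M) AB C0 A C1 D1 x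
  simp only [h]
  simp only [Finset.sum_add_distrib, Finset.sum_ite_eq', Finset.mem_univ, if_true, sub_neg_eq_add]
  rw [← Finset.sum_smul, fe_sum p (by omega)]

lemma phi_norm (hp : 5 ≤ p) (AB C0 A C1 D1 : R4) :
    (∑ x : ZMod p, phi p AB C0 A C1 D1 x * (phi p AB C0 A C1 D1 x)ᵀ) = (p : ℤ) • (1 : R4) +
      (AB * ABᵀ - 1) + (C0 * C0ᵀ - 1) + (A * Aᵀ - 1) + (C1 * C1ᵀ - 1) + (D1 * D1ᵀ - 1) := by
  have h := fun x => phi_decomp p hp (fun M : R4 => M * Mᵀ) AB C0 A C1 D1 x
  simp only [h]
  simp only [Finset.sum_add_distrib, Finset.sum_ite_eq', Finset.mem_univ, if_true]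
  have e1 : ∀ x : ZMod p, fe p x • (1 : R4) * (fe p x • (1 : R4))ᵀ = 1 := by
    intro x
    rw [Matrix.transpose_smul, Matrix.transpose_one, Matrix.smul_mul, Matrix.one_mul, smul_smul]
    rcases fe_sign p x with h | h <;> rw [h] <;> simp
  simp only [e1]
  rw [Finset.sum_const, Finset.card_univ, ZMod.card, ← natCast_zsmul]
  have e2 : (1 : R4) * (1 : R4)ᵀ = 1 := by rw [Matrix.transpose_one, Matrix.one_mul]
  have e3 : (-1 : R4) * (-1 : R4)ᵀ = 1 := by rw [Matrix.transpose_neg, Matrix.transpose_one]; noncomm_ring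
  rw [e2, e3]

end distinct

lemma phi_rsu (p : ℕ) {AB C0 A C1 D1 : R4} (h1 : RSU AB) (h2 : RSU C0) (h3 : RSU A) (h4 : RSU C1)
    (h5 : RSU D1) (x : ZMod p) : RSU (phi p AB C0 A C1 D1 x) := by
  unfold phi
  split_ifs
  · exact h1
  · exact h2
  · exact h3
  · exact h4
  · exact h5
  · exact rsu_smul_one (fe_sign p x)

/-- prime fields of order at least five, from a verified core. -/
lemma FA_of_core (p : ℕ) [Fact p.Prime] (hp : 5 ≤ p) (Al Be C0 A C1 D1 : R4)
    (r1 : RSU Al) (r2 : RSU Be) (r3 : RSU C0) (r4 : RSU A) (r5 : RSU C1) (r6 : RSU D1)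
    (hA1 : A * Aᵀ = 1) (hA2 : Aᵀ = -A)
    (hP : (Al * Alᵀ - 1) + (Be * Beᵀ - 1) + ((C0 * C0ᵀ - 1) + (C1 * C1ᵀ - 1) + (D1 * D1ᵀ - 1)) +
      ((C0 * C0ᵀ - 1) + (C1 * C1ᵀ - 1) + (D1 * D1ᵀ - 1)) = 0)
    (hS : ∀ S : Bool → R4, (∀ b, S b = ((-1 : ℤ) ^ (p / 2)) • (1 : R4) + ((if b then Al else Be) - 1) +
      (C0 + 1) + (A + 1) + (C1 - 1) + (D1 - 1)) →
      S true * (S true)ᵀ + S false * (S false)ᵀ = (4 : ℤ) • (1 : R4))
    (hW1 : (Al - Be) * (C0 - A)ᵀ = (C0 - A) * (Al - Be)ᵀ)
    (hW2 : (Al - Be) * (C1 - D1)ᵀ = (C1 - D1) * (Al - Be)ᵀ) : FA (ZMod p) := by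
  have hp2 : p ≠ 2 := by omega
  let f : Bool → ZMod p → R4 := fun b w => phi p (if b then Al else Be) C0 A C1 D1 (w - 1)
  have n1 : (1 : ZMod p) ≠ 0 := by simpa using small_ne p hp 1 (by norm_num) (by norm_num)
  have n2 : (2 : ZMod p) ≠ 0 := by simpa using small_ne p hp 2 (by norm_num) (by norm_num)
  have n3 : (3 : ZMod p) ≠ 0 := by simpa using small_ne p hp 3 (by norm_num) (by norm_num)
  have n4 : (4 : ZMod p) ≠ 0 := by simpa using small_ne p hp 4 (by norm_num) (by norm_num)
  have a1 : (-1 : ZMod p) ≠ 0 := neg_ne_zero.mpr n1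
  have a2 : (-2 : ZMod p) ≠ 0 := neg_ne_zero.mpr n2
  have a3 : (-1 : ZMod p) ≠ 1 := by
    intro h; apply n2
    linear_combination -h
  have a4 : (2 : ZMod p) ≠ 1 := by
    intro h; apply n1
    linear_combination h
  have a5 : (2 : ZMod p) ≠ -1 := by
    intro h; apply n3
    linear_combination h
  have a6 : (-2 : ZMod p) ≠ 1 := by
    intro h; apply n3
    linear_combination -h
  have a7 : (-2 : ZMod p) ≠ -1 := by
    intro h; apply n1
    linear_combination -h
  have a8 : (-2 : ZMod p) ≠ 2 := by
    intro h; apply n4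
    linear_combination -h
  have hshift : ∀ (T : R4 → R4) (b : Bool), (∑ w : ZMod p, T (f b w)) =
      ∑ x : ZMod p, T (phi p (if b then Al else Be) C0 A C1 D1 x) := by
    intro T b
    exact Fintype.sum_equiv (Equiv.subRight (1 : ZMod p)) _ _ (by intro w; rfl)
  refine FA_of_pair A f (chiP p) (chiP_neg p hp2) r4 ?_ hA1 hA2 ?_ ?_ ?_ ?_ ?_
  · intro b w
    cases b
    · exact phi_rsu p r2 r3 r4 r5 r6 _
    · exact phi_rsu p r1 r3 r4 r5 r6 _
  · intro b
    change phi p (if b then Al else Be) C0 A C1 D1 (0 - 1) = A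
    rw [zero_sub]
    unfold phi
    rw [if_neg a1, if_neg a3, if_pos rfl]
  · intro w hw
    change phi p (if true then Al else Be) C0 A C1 D1 (w - 1) = phi p (if false then Al else Be) C0 A C1 D1 (w - 1)
    have : w - 1 ≠ 0 := sub_ne_zero.mpr hw
    unfold phi
    rw [if_neg this, if_neg this]
  · rw [hshift (fun M => M * Mᵀ) true, hshift (fun M => M * Mᵀ) false, ZMod.card]
    rw [phi_norm p hp, phi_norm p hp, hA1]
    simp only [if_true, Bool.false_eq_true, if_false]
    have e : (2 * (p : ℤ)) • (1 : R4) = (p : ℤ) • (1 : R4) + (p : ℤ) • (1 : R4) := by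
      rw [← add_smul]; congr 1; ring
    rw [e]
    have h0 := hP
    have e2 : (p : ℤ) • (1 : R4) + (Al * Alᵀ - 1) + (C0 * C0ᵀ - 1) + (1 - 1) + (C1 * C1ᵀ - 1) + (D1 * D1ᵀ - 1) +
        ((p : ℤ) • (1 : R4) + (Be * Beᵀ - 1) + (C0 * C0ᵀ - 1) + (1 - 1) + (C1 * C1ᵀ - 1) + (D1 * D1ᵀ - 1)) =
        (p : ℤ) • (1 : R4) + (p : ℤ) • (1 : R4) + ((Al * Alᵀ - 1) + (Be * Beᵀ - 1) +
        ((C0 * C0ᵀ - 1) + (C1 * C1ᵀ - 1) + (D1 * D1ᵀ - 1)) +
      ((C0 * C0ᵀ - 1) + (C1 * C1ᵀ - 1) + (D1 * D1ᵀ - 1))) := by
      abel
    rw [e2, hP, add_zero]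
  · rw [hshift (fun M => M) true, hshift (fun M => M) false]
    apply hS (fun b => ∑ x : ZMod p, phi p (if b then Al else Be) C0 A C1 D1 x)
    intro b
    exact phi_sum p hp _ C0 A C1 D1
  · intro c
    have s1 : ∀ (b : Bool) (c : ZMod p), CC (f b) c = CC (phi p (if b then Al else Be) C0 A C1 D1) c := by
      intro b c
      exact CC_shift (phi p (if b then Al else Be) C0 A C1 D1) 1 c
    rw [s1, s1, s1, s1]
    simp only [if_true, Bool.false_eq_true, if_false]
    apply hE_of _ _ (Al - Be)
    · intro x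
      by_cases hx : x = 0
      · subst hx
        unfold phi
        simp
      · unfold phi
        rw [if_neg hx, if_neg hx, if_neg hx, sub_zero]
    · intro c
      by_cases h0 : c = 0
      · subst h0
        simp
      · by_cases h1 : c = 1
        · subst h1
          have e1 : phi p Al C0 A C1 D1 1 = C0 := by
            unfold phi
            rw [if_neg n1, if_pos rfl]
          have e2 : phi p Al C0 A C1 D1 (-1) = A := by
            unfold phi
            rw [if_neg a1, if_neg a3, if_pos rfl]
          rw [e1, e2]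
          exact hW1
        · by_cases h2 : c = -1
          · subst h2
            have e1 : phi p Al C0 A C1 D1 1 = C0 := by
              unfold phi
              rw [if_neg n1, if_pos rfl]
            have e2 : phi p Al C0 A C1 D1 (-1) = A := by
              unfold phi
              rw [if_neg a1, if_neg a3, if_pos rfl]
            rw [neg_neg, e1, e2]
            have e3 : A - C0 = -(C0 - A) := by abel
            rw [e3, Matrix.transpose_neg, Matrix.mul_neg, Matrix.neg_mul, hW1]
          · have g2 : phi p Al C0 A C1 D1 2 = C1 := by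
              unfold phi
              rw [if_neg n2, if_neg a4, if_neg a5, if_pos rfl]
            have g2' : phi p Al C0 A C1 D1 (-2) = D1 := by
              unfold phi
              rw [if_neg a2, if_neg a6, if_neg a7, if_neg a8, if_pos rfl]
            by_cases h3 : c = 2
            · subst h3
              rw [g2, g2']
              exact hW2
            · by_cases h4 : c = -2
              · subst h4
                rw [neg_neg, g2, g2']
                have e3 : D1 - C1 = -(C1 - D1) := by abel
                rw [e3, Matrix.transpose_neg, Matrix.mul_neg, Matrix.neg_mul, hW2]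
              · have m0 : -c ≠ 0 := neg_ne_zero.mpr h0
                have m1 : -c ≠ 1 := fun h => h2 (by rw [← h, neg_neg])
                have m2 : -c ≠ -1 := fun h => h1 (neg_injective h)
                have m3 : -c ≠ 2 := fun h => h4 (by rw [← h, neg_neg])
                have m4 : -c ≠ -2 := fun h => h3 (neg_injective h)
                have : phi p Al C0 A C1 D1 (-c) = phi p Al C0 A C1 D1 c := by
                  unfold phi
                  rw [if_neg m0, if_neg m1, if_neg m2, if_neg m3, if_neg m4,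
                    if_neg h0, if_neg h1, if_neg h2, if_neg h3, if_neg h4, fe_neg p hp2]
                rw [this, sub_self, Matrix.transpose_zero, Matrix.mul_zero, Matrix.zero_mul]


lemma FA_three : FA (ZMod 3) := by
  refine FA_of_pair (mk4 ![1, 0, 3, 2] ![true, false, true, false])
    (fun b w => if w = 1 then (if b then mk4 ![0, 2, 3, 2] ![false, true, false, true] else
      mk4 ![1, 0, 2, 0] ![false, true, true, false]) else if w = 0 then
      (mk4 ![1, 0, 3, 2] ![true, false, true, false]) else mk4 ![2, 3, 0, 1] ![false, false, false, false])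
    (chiP 3) (chiP_neg 3 (by norm_num)) (mk4_rsu _ _) ?_ ?_ ?_ ?_ ?_ ?_ ?_ ?_
  · intro b w
    split_ifs
    · exact mk4_rsu _ _
    · exact mk4_rsu _ _
    · exact mk4_rsu _ _
    · exact mk4_rsu _ _
  · decide +kernel
  · decide +kernel
  · decide +kernel
  · decide +kernel
  · decide +kernel
  · decide +kernel
  · unfold CC
    decide +kernel

lemma FA_three_mod_four (p : ℕ) [Fact p.Prime] (hp : 5 ≤ p) (h : p % 4 = 3) : FA (ZMod p) := by
  have hpow : (-1 : ℤ) ^ (p / 2) = -1 := by
    apply Odd.neg_one_pow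
    rw [Nat.odd_iff]
    omega
  refine FA_of_core p hp (mk4 ![0, 2, 3, 2] ![false, true, false, true])
    (mk4 ![1, 0, 2, 0] ![false, true, true, false]) (mk4 ![2, 3, 0, 1] ![false, false, false, false])
    (mk4 ![1, 0, 3, 2] ![true, false, true, false]) 1 1 (mk4_rsu _ _) (mk4_rsu _ _) (mk4_rsu _ _)
    (mk4_rsu _ _) RSU.one RSU.one ?_ ?_ ?_ ?_ ?_ ?_
  · decide +kernel
  · decide +kernel
  · decide +kernel
  · intro S hS
    rw [hS true, hS false, hpow]
    decide +kernel
  · decide +kernel
  · decide +kernel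

lemma FA_one_mod_four (p : ℕ) [Fact p.Prime] (hp : 5 ≤ p) (h : p % 4 = 1) : FA (ZMod p) := by
  have hpow : (-1 : ℤ) ^ (p / 2) = 1 := by
    apply Even.neg_one_pow
    rw [Nat.even_iff]
    omega
  refine FA_of_core p hp (mk4 ![0, 1, 2, 3] ![true, true, false, false])
    (mk4 ![1, 0, 3, 2] ![false, true, true, false]) (mk4 ![3, 2, 1, 0] ![false, false, true, true])
    (mk4 ![3, 2, 1, 0] ![true, true, false, false])
    (mk4 ![0, 3, 3, 1] ![false, false, false, true])
    (mk4 ![2, 0, 0, 3] ![false, false, true, true]) (mk4_rsu _ _) (mk4_rsu _ _) (mk4_rsu _ _)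
    (mk4_rsu _ _) (mk4_rsu _ _) (mk4_rsu _ _) ?_ ?_ ?_ ?_ ?_ ?_
  · decide +kernel
  · decide +kernel
  · decide +kernel
  · intro S hS
    rw [hS true, hS false, hpow]
    decide +kernel
  · decide +kernel
  · decide +kernel

lemma FA_prime (p : ℕ) (hp : p.Prime) : FA (Fin p) := by
  rcases hp.eq_two_or_odd with rfl | hodd
  · exact FA.congr (Fintype.equivOfCardEq (by simp)) FA.bool
  · haveI : Fact p.Prime := ⟨hp⟩
    haveI : NeZero p := ⟨hp.ne_zero⟩
    have h3 : FA (ZMod p) := by
      by_cases h5 : 5 ≤ p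
      · have : p % 4 = 1 ∨ p % 4 = 3 := by omega
        rcases this with h | h
        · exact FA_one_mod_four p h5 h
        · exact FA_three_mod_four p h5 h
      · have h2 := hp.two_le
        have : p = 3 := by omega
        subst this
        exact FA_three
    exact FA.congr (Fintype.equivOfCardEq (by rw [ZMod.card, Fintype.card_fin])) h3

lemma FA_all (t : ℕ) : FA (Fin t) := by
  induction t using Nat.recOnMul with
  | zero => exact FA.fin_zero
  | one => exact FA.fin_one
  | prime p hp => exact FA_prime p hp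
  | mul a b ha hb => exact FA.congr finProdFinEquiv (ha.prod hb)

lemma HD_all (t : ℕ) (ht : 1 ≤ t) [NeZero (2 * t)] (n : ℕ) (hn : 4 ≤ n) : HD (ZMod (2 * t)) n := by
  induction n, hn using Nat.le_induction with
  | base =>
    exact HD.congr (Fintype.equivOfCardEq (by
      rw [Fintype.card_prod, ZMod.card, Fintype.card_fin, Fintype.card_bool])) (HD_of_FA (FA_all t))
  | succ n hn ih =>
    obtain ⟨m, rfl⟩ : ∃ m, n = m + 1 := ⟨n - 1, by omega⟩
    exact HD.step (by rw [ZMod.card]; omega) ih


/-- For every n ≥ 4 and t ≥ 1 there is an n-dimensional ±1 array of side 2t in which, for every direction, any two distinct parallel (n−1)-dimensional slices have inner product 0 and each slice has squared norm (2t)^(n−1). -/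
theorem result :
    ∀ n : ℕ, 4 ≤ n → ∀ t : ℕ, 1 ≤ t →
      ∃ A : (Fin n → Fin (2 * t)) → ℤ,
        (∀ i, A i = 1 ∨ A i = -1) ∧
        ∀ l : Fin n, ∀ x y : Fin (2 * t),
          (∑ i : Fin n → Fin (2 * t),
              A (Function.update i l x) * A (Function.update i l y)) =
            if x = y then ((2 * t : ℕ) : ℤ) ^ n else 0 := by
  intro n hn t ht
  haveI : NeZero (2 * t) := ⟨by omega⟩
  have h : HD (Fin (2 * t)) n :=
    HD.congr (Fintype.equivOfCardEq (by rw [ZMod.card, Fintype.card_fin])) (HD_all t ht n hn)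
  obtain ⟨A, h1, h2⟩ := h
  refine ⟨A, h1, ?_⟩
  intro l x y
  rw [h2 l x y, Fintype.card_fin]

end Pool.Agent.S06877
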