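-- Negation of the conjectured bounds for the m-th touching number: counterexample in the plane,
-- K an octagon, T a large square grid of translates.
import Pool.Statements.S06880
import Pool.Agent.Helper260.OctPlane

set_option autoImplicit false
open Pool Pool.MP_afcf11_co

namespace Pool.Agent.S06880

open Pool.Agent.Helper260.OctPlane

/-- Euclidean plane -/
abbrev E : Type := EuclideanSpace ℝ (Fin 2)

/-- The octagon `|z₀| ≤ 2, |z₁| ≤ 2, |z₀| + |z₁| ≤ 3`. -/
def K : Set E := {z | |z 0| ≤ 2 ∧ |z 1| ≤ 2 ∧ |z 0| + |z 1| ≤ 3}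

theorem K_convex : Convex ℝ K := by
  intro x hx y hy a b ha hb hab
  obtain ⟨hx1, hx2, hx3⟩ := hx
  obtain ⟨hy1, hy2, hy3⟩ := hy
  have e0 : |(a • x + b • y) 0| ≤ a * |x 0| + b * |y 0| := by
    have : (a • x + b • y) 0 = a * x 0 + b * y 0 := by simp
    rw [this]
    refine (abs_add_le _ _).trans ?_
    rw [abs_mul, abs_mul, abs_of_nonneg ha, abs_of_nonneg hb]
  have e1 : |(a • x + b • y) 1| ≤ a * |x 1| + b * |y 1| := by
    have : (a • x + b • y) 1 = a * x 1 + b * y 1 := by simp
    rw [this]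
    refine (abs_add_le _ _).trans ?_
    rw [abs_mul, abs_mul, abs_of_nonneg ha, abs_of_nonneg hb]
  refine ⟨?_, ?_, ?_⟩
  · calc |(a • x + b • y) 0| ≤ a * |x 0| + b * |y 0| := e0
      _ ≤ a * 2 + b * 2 := by gcongr
      _ = 2 := by rw [← add_mul, hab]; ring
  · calc |(a • x + b • y) 1| ≤ a * |x 1| + b * |y 1| := e1
      _ ≤ a * 2 + b * 2 := by gcongr
      _ = 2 := by rw [← add_mul, hab]; ring
  · calc |(a • x + b • y) 0| + |(a • x + b • y) 1|
        ≤ (a * |x 0| + b * |y 0|) + (a * |x 1| + b * |y 1|) := add_le_add e0 e1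
      _ = a * (|x 0| + |x 1|) + b * (|y 0| + |y 1|) := by ring
      _ ≤ a * 3 + b * 3 := by gcongr
      _ = 3 := by rw [← add_mul, hab]; ring

theorem cont_coord (i : Fin 2) : Continuous (fun z : E => z i) := by
  fun_prop

theorem K_closed : IsClosed K := by
  have h0 : Continuous (fun z : E => |z 0|) := (cont_coord 0).abs
  have h1 : Continuous (fun z : E => |z 1|) := (cont_coord 1).abs
  exact (isClosed_le h0 continuous_const).inter
    ((isClosed_le h1 continuous_const).inter (isClosed_le (h0.add h1) continuous_const))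

theorem K_compact : IsCompact K := by
  apply Metric.isCompact_of_isClosed_isBounded K_closed
  rw [isBounded_iff_forall_norm_le]
  refine ⟨3, ?_⟩
  rintro z ⟨h0, h1, h2⟩
  rw [EuclideanSpace.norm_eq, Real.sqrt_le_left (by norm_num)]
  simp only [Fin.sum_univ_two, Real.norm_eq_abs]
  nlinarith [abs_nonneg (z 0), abs_nonneg (z 1)]

theorem K_interior : (interior K).Nonempty := by
  have hopen : IsOpen {z : E | |z 0| < 1 ∧ |z 1| < 1} := by
    have h0 : Continuous (fun z : E => |z 0|) := (cont_coord 0).abs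
    have h1 : Continuous (fun z : E => |z 1|) := (cont_coord 1).abs
    exact (isOpen_lt h0 continuous_const).inter (isOpen_lt h1 continuous_const)
  refine ⟨0, ?_⟩
  rw [mem_interior]
  refine ⟨_, ?_, hopen, ?_⟩
  · rintro z ⟨h0, h1⟩
    exact ⟨by linarith, by linarith, by linarith⟩
  · simp

/-- if a linear functional separates the two translates, their interiors are disjoint -/
theorem interior_disj (x y : E) (s0 s1 c : ℝ) (hc : 0 < c)
    (hK : ∀ z ∈ K, |s0 * z 0 + s1 * z 1| ≤ c)
    (hxy : s0 * (x 0 - y 0) + s1 * (x 1 - y 1) = 2 * c) :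
    interior ((fun z => x + z) '' K) ∩ interior ((fun z => y + z) '' K) = ∅ := by
  rw [Set.eq_empty_iff_forall_notMem]
  intro z hz
  have key : ∀ w ∈ interior ((fun z => x + z) '' K) ∩ interior ((fun z => y + z) '' K),
      s0 * w 0 + s1 * w 1 = s0 * x 0 + s1 * x 1 - c := by
    rintro w ⟨hw1, hw2⟩
    obtain ⟨k1, hk1, e1⟩ := interior_subset hw1
    obtain ⟨k2, hk2, e2⟩ := interior_subset hw2
    have a1 := abs_le.mp (hK k1 hk1)
    have a2 := abs_le.mp (hK k2 hk2)
    have w0 : w 0 = x 0 + k1 0 := by rw [← e1]; simp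
    have w1 : w 1 = x 1 + k1 1 := by rw [← e1]; simp
    have w0' : w 0 = y 0 + k2 0 := by rw [← e2]; simp
    have w1' : w 1 = y 1 + k2 1 := by rw [← e2]; simp
    have f1 : s0 * w 0 + s1 * w 1 = s0 * x 0 + s1 * x 1 + (s0 * k1 0 + s1 * k1 1) := by
      rw [w0, w1]; ring
    have f2 : s0 * w 0 + s1 * w 1 = s0 * y 0 + s1 * y 1 + (s0 * k2 0 + s1 * k2 1) := by
      rw [w0', w1']; ring
    linarith [a1.1, a1.2, a2.1, a2.2]
  have hopen : IsOpen (interior ((fun z => x + z) '' K) ∩ interior ((fun z => y + z) '' K)) :=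
    isOpen_interior.inter isOpen_interior
  have hcont : Continuous (fun t : ℝ => z + t • (x - y)) := by fun_prop
  have hnhds : ∀ᶠ t in nhds (0 : ℝ), z + t • (x - y) ∈
      interior ((fun z => x + z) '' K) ∩ interior ((fun z => y + z) '' K) := by
    apply hcont.continuousAt.eventually_mem
    apply hopen.mem_nhds
    simpa using hz
  obtain ⟨ε, hε, hball⟩ := Metric.eventually_nhds_iff.mp hnhds
  have ht : dist (ε / 2) 0 < ε := by
    rw [Real.dist_eq, sub_zero, abs_of_pos (by linarith)]; linarith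
  have h1 := key _ (hball ht)
  have h0 := key z hz
  have e0 : (z + (ε / 2) • (x - y)) 0 = z 0 + ε / 2 * (x 0 - y 0) := by simp
  have e1 : (z + (ε / 2) • (x - y)) 1 = z 1 + ε / 2 * (x 1 - y 1) := by simp
  rw [e0, e1] at h1
  have : s0 * (z 0 + ε / 2 * (x 0 - y 0)) + s1 * (z 1 + ε / 2 * (x 1 - y 1)) =
      (s0 * z 0 + s1 * z 1) + ε / 2 * (s0 * (x 0 - y 0) + s1 * (x 1 - y 1)) := by ring
  rw [this, hxy, h0] at h1
  have : 0 < ε / 2 * (2 * c) := by positivity
  linarith

/-- integer points -/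
noncomputable def emb (p : ℤ × ℤ) : E := !₂[(p.1 : ℝ), (p.2 : ℝ)]

theorem emb_zero (p : ℤ × ℤ) : emb p 0 = (p.1 : ℝ) := by simp [emb]

theorem emb_one (p : ℤ × ℤ) : emb p 1 = (p.2 : ℝ) := by simp [emb]

theorem emb_injective : Function.Injective emb := by
  intro p q h
  have h0 : emb p 0 = emb q 0 := by rw [h]
  have h1 : emb p 1 = emb q 1 := by rw [h]
  rw [emb_zero, emb_zero] at h0
  rw [emb_one, emb_one] at h1
  exact Prod.ext (Int.cast_injective h0) (Int.cast_injective h1)

theorem touch (p q : ℤ × ℤ) (h : isD (p.1 - q.1) (p.2 - q.2)) :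
    emb p ≠ emb q ∧ ((fun z => emb p + z) '' K ∩ (fun z => emb q + z) '' K).Nonempty ∧
      interior ((fun z => emb p + z) '' K) ∩ interior ((fun z => emb q + z) '' K) = ∅ := by
  obtain ⟨h1, h2, h3, h4⟩ := h
  set a : ℤ := p.1 - q.1 with ha
  set b : ℤ := p.2 - q.2 with hb
  have haR : ((p.1 : ℝ) - q.1) = (a : ℝ) := by rw [ha]; push_cast; ring
  have hbR : ((p.2 : ℝ) - q.2) = (b : ℝ) := by rw [hb]; push_cast; ring
  have h1R : |(a : ℝ)| ≤ 4 := by exact_mod_cast h1
  have h2R : |(b : ℝ)| ≤ 4 := by exact_mod_cast h2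
  have h3R : |(a : ℝ)| + |(b : ℝ)| ≤ 6 := by exact_mod_cast h3
  have hcK : ∀ s : ℝ, |s| = 1 / 2 → (!₂[s * (a : ℝ), s * (b : ℝ)] : E) ∈ K := by
    intro s hs
    refine ⟨?_, ?_, ?_⟩
    · show |s * (a : ℝ)| ≤ 2
      rw [abs_mul, hs]; linarith
    · show |s * (b : ℝ)| ≤ 2
      rw [abs_mul, hs]; linarith
    · show |s * (a : ℝ)| + |s * (b : ℝ)| ≤ 3
      rw [abs_mul, abs_mul, hs]; linarith
  refine ⟨?_, ?_, ?_⟩
  · intro heq
    have hpq := emb_injective heq
    rw [hpq] at ha hb
    have ha0 : a = 0 := by rw [ha]; ring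
    have hb0 : b = 0 := by rw [hb]; ring
    rw [ha0, hb0] at h4
    simp at h4
  · refine ⟨emb p + !₂[(-(1 / 2)) * (a : ℝ), (-(1 / 2)) * (b : ℝ)], ⟨_, hcK _ (by norm_num), rfl⟩,
      ⟨!₂[(1 / 2) * (a : ℝ), (1 / 2) * (b : ℝ)], hcK _ (by norm_num), ?_⟩⟩
    ext i
    fin_cases i
    · show emb q 0 + (1 / 2) * (a : ℝ) = emb p 0 + (-(1 / 2)) * (a : ℝ)
      rw [emb_zero, emb_zero]; linarith
    · show emb q 1 + (1 / 2) * (b : ℝ) = emb p 1 + (-(1 / 2)) * (b : ℝ)
      rw [emb_one, emb_one]; linarith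
  · -- the separating functional
    have sgn : ∀ t : ℤ, ∃ s : ℝ, |s| ≤ 1 ∧ s * (t : ℝ) = |(t : ℝ)| := by
      intro t
      rcases le_total 0 (t : ℝ) with ht | ht
      · exact ⟨1, by norm_num, by rw [abs_of_nonneg ht]; ring⟩
      · exact ⟨-1, by norm_num, by rw [abs_of_nonpos ht]; ring⟩
    obtain ⟨s, hs, hsa⟩ := sgn a
    obtain ⟨t, ht, htb⟩ := sgn b
    have bound0 : ∀ z : E, |s * z 0| ≤ |z 0| := by
      intro z; rw [abs_mul]; exact mul_le_of_le_one_left (abs_nonneg _) hs
    have bound1 : ∀ z : E, |t * z 1| ≤ |z 1| := by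
      intro z; rw [abs_mul]; exact mul_le_of_le_one_left (abs_nonneg _) ht
    rcases h4 with h4 | h4 | h4
    · have h4R : |(a : ℝ)| = 4 := by exact_mod_cast h4
      apply interior_disj _ _ s 0 2 (by norm_num)
      · rintro z ⟨z0, z1, z2⟩
        rw [zero_mul, add_zero]
        exact (bound0 z).trans z0
      · rw [emb_zero, emb_zero, haR, hsa, h4R]; ring
    · have h4R : |(b : ℝ)| = 4 := by exact_mod_cast h4
      apply interior_disj _ _ 0 t 2 (by norm_num)
      · rintro z ⟨z0, z1, z2⟩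
        rw [zero_mul, zero_add]
        exact (bound1 z).trans z1
      · rw [emb_one, emb_one, hbR, htb, h4R]; ring
    · have h4R : |(a : ℝ)| + |(b : ℝ)| = 6 := by exact_mod_cast h4
      apply interior_disj _ _ s t 3 (by norm_num)
      · rintro z ⟨z0, z1, z2⟩
        exact (abs_add_le _ _).trans ((add_le_add (bound0 z) (bound1 z)).trans z2)
      · rw [emb_zero, emb_zero, emb_one, emb_one, haR, hbR, hsa, htb, h4R]; ring

/-- the square grid of integer points -/
noncomputable def grid (N : ℕ) : Finset (ℤ × ℤ) :=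
  Finset.Ico (0 : ℤ) N ×ˢ Finset.Ico (0 : ℤ) N

theorem grid_card (N : ℕ) : (grid N).card = N ^ 2 := by
  unfold grid
  rw [Finset.card_product, Int.card_Ico]
  have : ((N : ℤ) - 0).toNat = N := by omega
  rw [this]
  ring

theorem exists_params : ∃ N m : ℕ, 2 < m ∧ 83 * (N + 12) ^ 2 < 333 * m ∧ (m - 1) * 2 ^ 2 < N ^ 2 :=
  ⟨10000, 25000000, by norm_num, by norm_num, by norm_num⟩

/-- The negation of the preceding statement: For d ≥ 2, m > 2 and every convex body K in R^d: some set of at least (m−1)(d+1) translates has two touching members among any m, and every such set has at most (m−1)2^d translates. -/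
theorem result :
    ¬ (∀ (d m : ℕ), 2 ≤ d → 2 < m →
      ∀ K : Set (EuclideanSpace ℝ (Fin d)), Convex ℝ K → IsCompact K → (interior K).Nonempty →
        (∃ T : Finset (EuclideanSpace ℝ (Fin d)), (m - 1) * (d + 1) ≤ T.card ∧
          ∀ S ⊆ T, S.card = m → ∃ x ∈ S, ∃ y ∈ S, x ≠ y ∧
            ((fun z => x + z) '' K ∩ (fun z => y + z) '' K).Nonempty ∧
            interior ((fun z => x + z) '' K) ∩ interior ((fun z => y + z) '' K) = ∅) ∧
        (∀ T : Finset (EuclideanSpace ℝ (Fin d)),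
          (∀ S ⊆ T, S.card = m → ∃ x ∈ S, ∃ y ∈ S, x ≠ y ∧
            ((fun z => x + z) '' K ∩ (fun z => y + z) '' K).Nonempty ∧
            interior ((fun z => x + z) '' K) ∩ interior ((fun z => y + z) '' K) = ∅) →
          T.card ≤ (m - 1) * 2 ^ d)) := by
  classical
  intro H
  obtain ⟨N, m, hm, hN1, hN2⟩ := exists_params
  have h := (H 2 m le_rfl hm K K_convex K_compact K_interior).2 ((grid N).image emb) ?_
  · rw [Finset.card_image_of_injective _ emb_injective, grid_card] at h
    omega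
  · intro S hS hScard
    by_contra hno
    set A : Finset (ℤ × ℤ) := (grid N).filter (fun p => emb p ∈ S) with hA
    have himg : A.image emb = S := by
      ext z
      rw [Finset.mem_image]
      constructor
      · rintro ⟨p, hp, rfl⟩
        rw [hA, Finset.mem_filter] at hp
        exact hp.2
      · intro hz
        obtain ⟨p, hp, rfl⟩ := Finset.mem_image.mp (hS hz)
        exact ⟨p, by rw [hA, Finset.mem_filter]; exact ⟨hp, hz⟩, rfl⟩
    have hAcard : A.card = m := by
      rw [← hScard, ← himg, Finset.card_image_of_injective _ emb_injective]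
    have hmem : ∀ p ∈ A, emb p ∈ S := by
      intro p hp
      rw [hA, Finset.mem_filter] at hp
      exact hp.2
    have hind : IndepZ (A : Set (ℤ × ℤ)) := by
      intro p hp q hq hD
      apply hno
      obtain ⟨t1, t2, t3⟩ := touch p q hD
      exact ⟨emb p, hmem p hp, emb q, hmem q hq, t1, t2, t3⟩
    have hbox : ∀ p ∈ A, 0 ≤ p.1 ∧ p.1 < (N : ℤ) ∧ 0 ≤ p.2 ∧ p.2 < (N : ℤ) := by
      intro p hp
      rw [hA, Finset.mem_filter] at hp
      have := hp.1
      unfold grid at this
      rw [Finset.mem_product, Finset.mem_Ico, Finset.mem_Ico] at this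
      exact ⟨this.1.1, this.1.2, this.2.1, this.2.2⟩
    have := average A N hbox hind
    rw [hAcard] at this
    omega

end Pool.Agent.S06880
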