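import Pool.Statements.S06893

set_option autoImplicit false
open Pool Pool.MP_b0e7a9_co

namespace Pool.Agent.S06893

open Finset
open scoped InnerProductSpace

section general

variable {ι : Type*} [Fintype ι] [DecidableEq ι] {E : Type*} [NormedAddCommGroup E]
  [InnerProductSpace ℝ E]

omit [DecidableEq ι] in
theorem var_eq (w : ι → ℝ) (h1 : ∑ i, w i = 1) (p : ι → E) :
    ∑ i, w i * ‖p i - ∑ j, w j • p j‖ ^ 2
      = ∑ i, w i * ‖p i‖ ^ 2 - ‖∑ j, w j • p j‖ ^ 2 := by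
  set x := ∑ j, w j • p j with hx
  have h2 : ∀ i, w i * ‖p i - x‖ ^ 2
      = w i * ‖p i‖ ^ 2 - 2 * (w i * ⟪p i, x⟫_ℝ) + w i * ‖x‖ ^ 2 := by
    intro i
    rw [norm_sub_sq_real]
    ring
  have h3 : ∑ i, w i * ⟪p i, x⟫_ℝ = ‖x‖ ^ 2 := by
    rw [← real_inner_self_eq_norm_sq]
    have : ∑ i, w i * ⟪p i, x⟫_ℝ = ⟪∑ j, w j • p j, x⟫_ℝ := by
      rw [sum_inner]
      refine Finset.sum_congr rfl fun i _ => ?_
      rw [real_inner_smul_left]
    rw [this]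
  rw [Finset.sum_congr rfl fun i _ => h2 i, Finset.sum_add_distrib, Finset.sum_sub_distrib,
    ← Finset.mul_sum, ← Finset.sum_mul, h1, h3]
  ring

omit [DecidableEq ι] in
theorem var_nonneg (w : ι → ℝ) (h0 : ∀ i, 0 ≤ w i) (h1 : ∑ i, w i = 1) (p : ι → E) :
    0 ≤ ∑ i, w i * ‖p i‖ ^ 2 - ‖∑ j, w j • p j‖ ^ 2 := by
  rw [← var_eq w h1 p]
  exact Finset.sum_nonneg fun i _ => mul_nonneg (h0 i) (sq_nonneg _)

/-- The space of admissible weight changes on a face. -/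
def tang (S : Finset ι) : Submodule ℝ (ι → ℝ) where
  carrier := {c | (∀ i, i ∉ S → c i = 0) ∧ ∑ i, c i = 0}
  add_mem' := by
    rintro a b ⟨ha, ha'⟩ ⟨hb, hb'⟩
    refine ⟨fun i hi => ?_, ?_⟩
    · simp [ha i hi, hb i hi]
    · simp [Finset.sum_add_distrib, ha', hb']
  zero_mem' := by simp
  smul_mem' := by
    rintro r a ⟨ha, ha'⟩
    refine ⟨fun i hi => ?_, ?_⟩
    · simp [ha i hi]
    · simp [← Finset.mul_sum, ha']

omit [DecidableEq ι] in
theorem exists_dual (p : ι → E) (hp : AffineIndependent ℝ p) (S : Finset ι) :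
    ∃ (U : Submodule ℝ E) (C : U →ₗ[ℝ] (ι → ℝ)), FiniteDimensional ℝ U ∧
      (∀ v : U, (∀ i, i ∉ S → C v i = 0) ∧ ∑ i, C v i = 0 ∧ ∑ i, C v i • p i = (v : E)) ∧
      (∀ c : ι → ℝ, (∀ i, i ∉ S → c i = 0) → ∑ i, c i = 0 →
        ∃ v : U, (v : E) = ∑ i, c i • p i ∧ C v = c) := by
  classical
  let L : (ι → ℝ) →ₗ[ℝ] E := Fintype.linearCombination ℝ p
  have hL : ∀ c, L c = ∑ i, c i • p i := fun c => Fintype.linearCombination_apply ℝ p c
  let T := tang S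
  let LT : T →ₗ[ℝ] E := L.domRestrict T
  have hinj : Function.Injective LT := by
    rw [← LinearMap.ker_eq_bot, LinearMap.ker_eq_bot']
    rintro ⟨c, hc⟩ h
    have h' : ∑ i, c i • p i = 0 := by
      rw [← hL]
      exact h
    have h3 := (affineIndependent_iff.mp hp) Finset.univ c hc.2 h'
    apply Subtype.ext
    funext i
    exact h3 i (Finset.mem_univ i)
  let e := LinearEquiv.ofInjective LT hinj
  let C : (LinearMap.range LT) →ₗ[ℝ] (ι → ℝ) := T.subtype ∘ₗ e.symm.toLinearMap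
  refine ⟨LinearMap.range LT, C, inferInstance, ?_, ?_⟩
  · intro v
    have hv : e (e.symm v) = v := e.apply_symm_apply v
    have hmem := (e.symm v).2
    refine ⟨hmem.1, hmem.2, ?_⟩
    have h4 : ((e (e.symm v) : LinearMap.range LT) : E) = LT (e.symm v) := by
      rw [LinearEquiv.ofInjective_apply]
    rw [hv] at h4
    rw [h4]
    exact (hL _).symm
  · intro c hc hc'
    let t : T := ⟨c, hc, hc'⟩
    refine ⟨e t, ?_, ?_⟩
    · rw [LinearEquiv.ofInjective_apply]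
      exact hL c
    · show ((e.symm (e t) : T) : ι → ℝ) = c
      rw [e.symm_apply_apply]

theorem sdual (p : ι → E) (hp : AffineIndependent ℝ p) (S : Finset ι) (D : ℕ)
    (hS : S.card = D + 1) (α : ι → ℝ)
    (hb : ∀ u : ι → ℝ, (∀ i, 0 ≤ u i) → (∀ i, i ∉ S → u i = 0) → ∑ i, u i = 1 →
      (∃ i ∈ S, u i = 0) → ∑ i, u i * α i ≤ ‖∑ i, u i • p i‖ ^ 2)
    (w : ι → ℝ) (hw0 : ∀ i, 0 ≤ w i) (hwS : ∀ i, i ∉ S → w i = 0) (hw1 : ∑ i, w i = 1) :
    (D : ℝ) ^ 2 * (∑ i, w i * α i - ‖∑ i, w i • p i‖ ^ 2)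
      ≤ ∑ i, w i * ‖p i‖ ^ 2 - ‖∑ i, w i • p i‖ ^ 2 := by
  classical
  have hV := var_eq w hw1 p
  have hV0 := var_nonneg w hw0 hw1 p
  set x := ∑ i, w i • p i with hx
  set F := ∑ i, w i * α i - ‖x‖ ^ 2 with hFdef
  rcases le_or_gt F 0 with hF | hF
  · have : (D : ℝ) ^ 2 * F ≤ 0 := mul_nonpos_of_nonneg_of_nonpos (sq_nonneg _) hF
    linarith
  have hwpos : ∀ i ∈ S, 0 < w i := by
    intro i hi
    rcases (hw0 i).lt_or_eq with h | h
    · exact h
    · exfalso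
      have := hb w hw0 hwS hw1 ⟨i, hi, h.symm⟩
      rw [← hx] at this
      linarith
  obtain ⟨U, C, hfin, hC1, hC2⟩ := exists_dual p hp S
  have := hfin
  have : CompleteSpace U := FiniteDimensional.complete ℝ U
  let fβ : ι → (U →ₗ[ℝ] ℝ) := fun i => (LinearMap.proj i) ∘ₗ C
  let β : ι → U := fun i =>
    (InnerProductSpace.toDual ℝ U).symm (LinearMap.toContinuousLinearMap (fβ i))
  have hβ : ∀ i (v : U), ⟪β i, v⟫_ℝ = C v i := by
    intro i v
    simp only [β, InnerProductSpace.toDual_symm_apply]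
    rfl
  let fx : U →ₗ[ℝ] ℝ := (innerₛₗ ℝ x) ∘ₗ U.subtype
  have hfx : ∀ v : U, fx v = ⟪x, (v : E)⟫_ℝ := fun v => rfl
  let g : U →ₗ[ℝ] ℝ := (1 / 2 : ℝ) • (∑ i, α i • fβ i) - fx
  let ζ : U := (InnerProductSpace.toDual ℝ U).symm (LinearMap.toContinuousLinearMap g)
  have hζ : ∀ v : U, 2 * ⟪ζ, v⟫_ℝ = ∑ i, α i * C v i - 2 * ⟪x, (v : E)⟫_ℝ := by
    intro v
    have h1 : ⟪ζ, v⟫_ℝ = g v := by
      simp only [ζ, InnerProductSpace.toDual_symm_apply]
      rfl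
    have h2 : g v = (1 / 2 : ℝ) * (∑ i, α i * C v i) - ⟪x, (v : E)⟫_ℝ := by
      simp only [g, LinearMap.sub_apply, LinearMap.smul_apply, LinearMap.sum_apply, smul_eq_mul,
        hfx]
      rfl
    rw [h1, h2]
    ring
  have hsum : ∀ v : U, ∑ i, (w i + C v i) = 1 := by
    intro v
    rw [Finset.sum_add_distrib, hw1, (hC1 v).2.1]
    ring
  have hpt : ∀ v : U, ∑ i, (w i + C v i) • p i = x + (v : E) := by
    intro v
    simp_rw [add_smul]
    rw [Finset.sum_add_distrib, (hC1 v).2.2]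
  have hf : ∀ v : U, ∑ i, (w i + C v i) * α i - ‖∑ i, (w i + C v i) • p i‖ ^ 2
      = F + 2 * ⟪ζ, v⟫_ℝ - ‖v‖ ^ 2 := by
    intro v
    rw [hpt, norm_add_sq_real, hζ]
    simp_rw [add_mul]
    rw [Finset.sum_add_distrib, hFdef]
    have : ∑ i, C v i * α i = ∑ i, α i * C v i := Finset.sum_congr rfl fun i _ => mul_comm _ _
    rw [this]
    have : ‖v‖ = ‖(v : E)‖ := rfl
    rw [this]
    ring
  have hbd : ∀ v : U, (∀ i, 0 ≤ w i + C v i) → (∃ i ∈ S, w i + C v i = 0) →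
      F + 2 * ⟪ζ, v⟫_ℝ - ‖v‖ ^ 2 ≤ 0 := by
    intro v h1 h2
    rw [← hf v]
    have := hb (fun i => w i + C v i) h1
      (fun i hi => by simp only [hwS i hi, (hC1 v).1 i hi, add_zero]) (hsum v) h2
    linarith
  have hA : ∀ v : U, 0 < F + 2 * ⟪ζ, v⟫_ℝ - ‖v‖ ^ 2 → ∀ i ∈ S, 0 < w i + C v i := by
    intro v hv i0 hi0
    by_contra hneg
    push Not at hneg
    have hwi0 := hwpos i0 hi0
    have hci0 : C v i0 < 0 := by linarith
    obtain ⟨j, hj, hjmin⟩ := (S.filter (fun i => C v i < 0)).exists_min_image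
      (fun i => w i / (-C v i)) ⟨i0, by simp [hi0, hci0]⟩
    rw [Finset.mem_filter] at hj
    obtain ⟨hjS, hjneg⟩ := hj
    have hjpos : 0 < -C v j := by linarith
    set t := w j / (-C v j) with ht
    have ht0 : 0 < t := div_pos (hwpos j hjS) hjpos
    have ht1 : t ≤ 1 := by
      refine (hjmin i0 (by simp [hi0, hci0])).trans ?_
      rw [div_le_one (by linarith)]
      linarith
    have hCt : ∀ i, C (t • v) i = t * C v i := by
      intro i
      rw [map_smul]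
      rfl
    have h1 : ∀ i, 0 ≤ w i + C (t • v) i := by
      intro i
      rw [hCt]
      by_cases hi : i ∈ S
      · rcases lt_or_ge (C v i) 0 with h | h
        · have h2 := hjmin i (by simp [hi, h])
          have h3 : t ≤ w i / (-C v i) := h2
          rw [le_div_iff₀ (by linarith)] at h3
          nlinarith
        · have := hw0 i
          positivity
      · rw [hwS i hi, (hC1 v).1 i hi]
        simp
    have h2 : w j + C (t • v) j = 0 := by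
      rw [hCt, ht]
      have hne : C v j ≠ 0 := hjneg.ne
      rw [div_neg, neg_mul, div_mul_cancel₀ _ hne]
      ring
    have h3 := hbd (t • v) h1 ⟨j, hjS, h2⟩
    rw [real_inner_smul_right, norm_smul, mul_pow, Real.norm_eq_abs, sq_abs] at h3
    have h4 : 0 ≤ t * (1 - t) * ‖v‖ ^ 2 :=
      mul_nonneg (mul_nonneg ht0.le (by linarith)) (sq_nonneg _)
    nlinarith [mul_pos ht0 hv, mul_nonneg (sub_nonneg.mpr ht1) hF.le]
  set r := Real.sqrt (F + ‖ζ‖ ^ 2) with hr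
  have hr2 : r ^ 2 = F + ‖ζ‖ ^ 2 := Real.sq_sqrt (by positivity)
  have hr0 : 0 < r := Real.sqrt_pos.mpr (by positivity)
  have hζr : ‖ζ‖ ≤ r := by
    apply Real.le_sqrt_of_sq_le
    linarith
  have hQ : ∀ i ∈ S, 0 < w i + ⟪β i, ζ⟫_ℝ := by
    intro i hi
    rw [hβ]
    apply hA ζ _ i hi
    rw [real_inner_self_eq_norm_sq]
    nlinarith [sq_nonneg ‖ζ‖]
  have hB : ∀ i ∈ S, r * ‖β i‖ ≤ w i + ⟪β i, ζ⟫_ℝ := by
    intro i hi
    by_contra h
    push Not at h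
    have hq := hQ i hi
    have hβpos : 0 < ‖β i‖ := by
      by_contra h0
      have : ‖β i‖ = 0 := le_antisymm (not_lt.mp h0) (norm_nonneg _)
      rw [this] at h
      linarith
    set Q := w i + ⟪β i, ζ⟫_ℝ with hQdef
    set s := Q / ‖β i‖ with hs
    have hs0 : 0 < s := div_pos hq hβpos
    have hsr : s < r := by
      rw [hs, div_lt_iff₀ hβpos]
      exact h
    have hv : 0 < F + 2 * ⟪ζ, ζ - (s / ‖β i‖) • β i⟫_ℝ - ‖ζ - (s / ‖β i‖) • β i‖ ^ 2 := by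
      have h1 : ‖ζ - (s / ‖β i‖) • β i‖ ^ 2
          = ‖ζ‖ ^ 2 - 2 * ((s / ‖β i‖) * ⟪ζ, β i⟫_ℝ) + s ^ 2 := by
        rw [norm_sub_sq_real, real_inner_smul_right, norm_smul, mul_pow, Real.norm_eq_abs, sq_abs]
        field_simp
      rw [h1, inner_sub_right, real_inner_self_eq_norm_sq, real_inner_smul_right]
      nlinarith
    have h2 := hA _ hv i hi
    rw [← hβ, inner_sub_right, real_inner_smul_right, real_inner_self_eq_norm_sq] at h2
    have h3 : s / ‖β i‖ * ‖β i‖ ^ 2 = Q := by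
      rw [hs]
      field_simp
    rw [h3] at h2
    linarith
  have hCc : ∀ i ∈ S, F * ‖β i‖ ^ 2 / w i ≤ r * ‖β i‖ + ⟪β i, ζ⟫_ℝ := by
    intro i hi
    have hwi := hwpos i hi
    have h1 := hB i hi
    have h2 : |⟪β i, ζ⟫_ℝ| ≤ ‖β i‖ * ‖ζ‖ := abs_real_inner_le_norm _ _
    have h3 : ‖β i‖ * ‖ζ‖ ≤ ‖β i‖ * r := mul_le_mul_of_nonneg_left hζr (norm_nonneg _)
    have h4 := abs_le.mp (h2.trans h3)
    have h5 : 0 ≤ r * ‖β i‖ + ⟪β i, ζ⟫_ℝ := by linarith [h4.1]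
    have h6 : ⟪β i, ζ⟫_ℝ ^ 2 ≤ (‖β i‖ * ‖ζ‖) ^ 2 := by
      rw [← sq_abs]
      exact pow_le_pow_left₀ (abs_nonneg _) h2 2
    rw [div_le_iff₀ hwi]
    have h7 : (r * ‖β i‖ - ⟪β i, ζ⟫_ℝ) * (r * ‖β i‖ + ⟪β i, ζ⟫_ℝ)
        ≤ w i * (r * ‖β i‖ + ⟪β i, ζ⟫_ℝ) :=
      mul_le_mul_of_nonneg_right (by linarith) h5
    nlinarith
  have hCζ : ∑ i ∈ S, ⟪β i, ζ⟫_ℝ = 0 := by
    have h1 : ∑ i ∈ S, ⟪β i, ζ⟫_ℝ = ∑ i, C ζ i := by
      rw [Finset.sum_congr rfl fun i _ => hβ i ζ]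
      exact Finset.sum_subset (Finset.subset_univ S) fun i _ hi => (hC1 ζ).1 i hi
    rw [h1, (hC1 ζ).2.1]
  have hwSum : ∑ i ∈ S, w i = 1 := by
    rw [← hw1]
    exact Finset.sum_subset (Finset.subset_univ S) fun i _ hi => hwS i hi
  have hP : ∑ i ∈ S, F * ‖β i‖ ^ 2 / w i ≤ 1 := by
    calc ∑ i ∈ S, F * ‖β i‖ ^ 2 / w i ≤ ∑ i ∈ S, (r * ‖β i‖ + ⟪β i, ζ⟫_ℝ) :=
          Finset.sum_le_sum hCc
      _ = ∑ i ∈ S, r * ‖β i‖ := by rw [Finset.sum_add_distrib, hCζ, add_zero]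
      _ ≤ ∑ i ∈ S, (w i + ⟪β i, ζ⟫_ℝ) := Finset.sum_le_sum hB
      _ = 1 := by rw [Finset.sum_add_distrib, hCζ, add_zero, hwSum]
  have hD' : ∀ i ∈ S, 2 * (D * F) * (1 - w i) - D ^ 2 * F * (F * ‖β i‖ ^ 2 / w i)
      ≤ w i * ‖p i - x‖ ^ 2 := by
    intro i hi
    have hwi := hwpos i hi
    obtain ⟨v, hv, hCv⟩ := hC2 (fun j => (if j = i then 1 else 0) - w j)
      (fun j hj => by
        have : j ≠ i := fun h => hj (h ▸ hi)
        simp [this, hwS j hj])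
      (by rw [Finset.sum_sub_distrib, hw1]; simp)
    have hv' : (v : E) = p i - x := by
      rw [hv]
      simp_rw [sub_smul]
      rw [Finset.sum_sub_distrib, ← hx]
      simp
    have h1 : ⟪β i, v⟫_ℝ = 1 - w i := by
      rw [hβ, hCv]
      simp
    rw [← hv']
    have h2 : 0 ≤ w i * ‖v - (D * F / w i) • β i‖ ^ 2 := mul_nonneg hwi.le (sq_nonneg _)
    rw [norm_sub_sq_real, real_inner_smul_right, real_inner_comm, h1, norm_smul, mul_pow,
      Real.norm_eq_abs, sq_abs] at h2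
    have h3 : w i * (‖v‖ ^ 2 - 2 * (D * F / w i * (1 - w i)) + (D * F / w i) ^ 2 * ‖β i‖ ^ 2)
        = w i * ‖v‖ ^ 2 - (2 * (D * F) * (1 - w i) - D ^ 2 * F * (F * ‖β i‖ ^ 2 / w i)) := by
      field_simp
      ring
    rw [h3] at h2
    have h4 : ‖v‖ = ‖(v : E)‖ := rfl
    rw [← h4]
    linarith
  have hVS : ∑ i ∈ S, w i * ‖p i - x‖ ^ 2 = ∑ i, w i * ‖p i - x‖ ^ 2 :=
    Finset.sum_subset (Finset.subset_univ S) fun i _ hi => by rw [hwS i hi, zero_mul]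
  have hfin2 := Finset.sum_le_sum hD'
  rw [hVS, hV, Finset.sum_sub_distrib, ← Finset.mul_sum, ← Finset.mul_sum,
    Finset.sum_sub_distrib, hwSum] at hfin2
  have hcard : ∑ _i ∈ S, (1 : ℝ) = D + 1 := by
    rw [Finset.sum_const, hS]
    simp
  rw [hcard] at hfin2
  have h8 : (D : ℝ) ^ 2 * F * ∑ i ∈ S, F * ‖β i‖ ^ 2 / w i ≤ (D : ℝ) ^ 2 * F * 1 :=
    mul_le_mul_of_nonneg_left hP (by positivity)
  nlinarith

/-- Power of a point of a face of dimension `e` with respect to a ball that misses all faces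
of dimension `k`. -/
theorem power_le (p : ι → E) (hp : AffineIndependent ℝ p) (k : ℕ) (hk : 1 ≤ k) (m : E) (q : ℝ)
    (H : ∀ u : ι → ℝ, (∀ i, 0 ≤ u i) → ∑ i, u i = 1 →
      (∃ s : Finset ι, s.card = k + 1 ∧ ∀ i, i ∉ s → u i = 0) →
      q ≤ ‖∑ i, u i • p i - m‖ ^ 2) :
    ∀ e : ℕ, ∀ S : Finset ι, S.card = k + e + 1 → ∀ w : ι → ℝ, (∀ i, 0 ≤ w i) →
      (∀ i, i ∉ S → w i = 0) → ∑ i, w i = 1 →
      q - ‖∑ i, w i • p i - m‖ ^ 2
        ≤ (e : ℝ) / (((k : ℝ) + e) * (k + 1))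
          * (∑ i, w i * ‖p i‖ ^ 2 - ‖∑ i, w i • p i‖ ^ 2) := by
  have hk' : (1 : ℝ) ≤ k := by exact_mod_cast hk
  intro e
  induction e with
  | zero =>
    intro S hS w hw0 hwS hw1
    have := H w hw0 hw1 ⟨S, by simpa using hS, hwS⟩
    simp only [Nat.cast_zero, zero_div, zero_mul]
    linarith
  | succ e ih =>
    intro S hS w hw0 hwS hw1
    have he : (0 : ℝ) ≤ e := Nat.cast_nonneg e
    set θ : ℝ := (e : ℝ) / (((k : ℝ) + e) * (k + 1)) with hθ
    have hθ1 : 1 - θ = k * (k + e + 1) / (((k : ℝ) + e) * (k + 1)) := by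
      rw [hθ]
      have h1 : ((k : ℝ) + e) ≠ 0 := by positivity
      have h2 : ((k : ℝ) + 1) ≠ 0 := by positivity
      field_simp
      ring
    have hθpos : 0 < 1 - θ := by
      rw [hθ1]
      positivity
    have key : ∀ u : ι → ℝ, ∑ i, u i = 1 →
        (1 - θ) * (∑ i, u i * ((q + 2 * ⟪p i, m⟫_ℝ - ‖m‖ ^ 2 - θ * ‖p i‖ ^ 2) / (1 - θ))
          - ‖∑ i, u i • p i‖ ^ 2)
        = q - ‖∑ i, u i • p i - m‖ ^ 2
          - θ * (∑ i, u i * ‖p i‖ ^ 2 - ‖∑ i, u i • p i‖ ^ 2) := by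
      intro u hu
      have h1 : ∀ i, u i * ((q + 2 * ⟪p i, m⟫_ℝ - ‖m‖ ^ 2 - θ * ‖p i‖ ^ 2) / (1 - θ))
          = (1 / (1 - θ)) * (u i * (q - ‖m‖ ^ 2) + 2 * (u i * ⟪p i, m⟫_ℝ)
              - θ * (u i * ‖p i‖ ^ 2)) := by
        intro i
        field_simp
        ring
      have h2 : ∑ i, u i * ⟪p i, m⟫_ℝ = ⟪∑ j, u j • p j, m⟫_ℝ := by
        rw [sum_inner]
        refine Finset.sum_congr rfl fun i _ => ?_
        rw [real_inner_smul_left]
      rw [Finset.sum_congr rfl fun i _ => h1 i, ← Finset.mul_sum, Finset.sum_sub_distrib,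
        Finset.sum_add_distrib, ← Finset.sum_mul, ← Finset.mul_sum, ← Finset.mul_sum, hu, h2,
        norm_sub_sq_real]
      field_simp
      ring
    have hb : ∀ u : ι → ℝ, (∀ i, 0 ≤ u i) → (∀ i, i ∉ S → u i = 0) → ∑ i, u i = 1 →
        (∃ i ∈ S, u i = 0) →
        ∑ i, u i * ((q + 2 * ⟪p i, m⟫_ℝ - ‖m‖ ^ 2 - θ * ‖p i‖ ^ 2) / (1 - θ))
          ≤ ‖∑ i, u i • p i‖ ^ 2 := by
      rintro u hu0 huS hu1 ⟨j, hj, huj⟩
      have h1 := ih (S.erase j) (by rw [Finset.card_erase_of_mem hj, hS]; omega) u hu0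
        (fun i hi => by
          by_cases hij : i = j
          · rw [hij, huj]
          · exact huS i fun h => hi (Finset.mem_erase.mpr ⟨hij, h⟩)) hu1
      have h2 := key u hu1
      have h3 : (1 - θ) * (∑ i, u i *
          ((q + 2 * ⟪p i, m⟫_ℝ - ‖m‖ ^ 2 - θ * ‖p i‖ ^ 2) / (1 - θ))
          - ‖∑ i, u i • p i‖ ^ 2) ≤ 0 := by
        rw [h2]
        linarith
      by_contra h4
      push Not at h4
      have := mul_pos hθpos (sub_pos.mpr h4)
      linarith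
    have hmain := sdual p hp S (k + e + 1) (by rw [hS]; ring) _ hb w hw0 hwS hw1
    have hkey := key w hw1
    set V := ∑ i, w i * ‖p i‖ ^ 2 - ‖∑ i, w i • p i‖ ^ 2 with hVdef
    set X := ∑ i, w i * ((q + 2 * ⟪p i, m⟫_ℝ - ‖m‖ ^ 2 - θ * ‖p i‖ ^ 2) / (1 - θ))
      - ‖∑ i, w i • p i‖ ^ 2 with hX
    have hcast : (((k + e + 1 : ℕ) : ℝ)) = k + e + 1 := by push_cast; ring
    rw [hcast] at hmain
    have hpos : (0 : ℝ) < (k + e + 1) ^ 2 := by positivity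
    have hX2 : X ≤ V / (k + e + 1) ^ 2 := by
      rw [le_div_iff₀ hpos]
      linarith
    have h5 : q - ‖∑ i, w i • p i - m‖ ^ 2 = (1 - θ) * X + θ * V := by linarith
    rw [h5]
    have h6 : (1 - θ) * X ≤ (1 - θ) * (V / (k + e + 1) ^ 2) :=
      mul_le_mul_of_nonneg_left hX2 hθpos.le
    have h7 : (1 - θ) * (V / (k + e + 1) ^ 2) + θ * V
        = ((e + 1 : ℕ) : ℝ) / (((k : ℝ) + ((e + 1 : ℕ) : ℝ)) * (k + 1)) * V := by
      rw [hθ1, hθ]
      push_cast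
      have h1 : ((k : ℝ) + e) ≠ 0 := by positivity
      have h2 : ((k : ℝ) + 1) ≠ 0 := by positivity
      have h3 : ((k : ℝ) + e + 1) ≠ 0 := by positivity
      have h4 : ((k : ℝ) + (e + 1)) ≠ 0 := by positivity
      field_simp
      ring
    linarith

end general

/-- For a nondegenerate d-simplex with vertices in the closed unit ball, 0 ≤ k < d, and x in the simplex: if the open ball of radius ρ at x misses every k-face, then ρ ≤ sqrt((d-k)/(d(k+1))). -/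
theorem result :
    ∀ (d k : ℕ), 0 < d → k < d →
    ∀ (p : Fin (d + 1) → EuclideanSpace ℝ (Fin d)), AffineIndependent ℝ p →
    (∀ i, ‖p i‖ ≤ 1) →
    ∀ (x : EuclideanSpace ℝ (Fin d)), x ∈ convexHull ℝ (Set.range p) →
    ∀ ρ : ℝ,
      Disjoint (Metric.ball x ρ)
        (⋃ (s : Finset (Fin (d + 1))) (_ : s.card = k + 1), convexHull ℝ (p '' (s : Set (Fin (d + 1))))) →
      ρ ≤ Real.sqrt (((d : ℝ) - (k : ℝ)) / ((d : ℝ) * ((k : ℝ) + 1))) := by
  intro d k hd hkd p hp hp1 x hx ρ hdis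
  rcases le_or_gt ρ 0 with hρ | hρ
  · exact hρ.trans (Real.sqrt_nonneg _)

  obtain ⟨w, hw0, hw1, hwx⟩ : ∃ w : Fin (d + 1) → ℝ, (∀ i, 0 ≤ w i) ∧ ∑ i, w i = 1 ∧
      ∑ i, w i • p i = x := by
    have h1 : Set.range p = (Fintype.linearCombination ℝ p) ''
        (Set.range fun i j : Fin (d + 1) => if i = j then (1 : ℝ) else 0) := by
      ext y
      constructor
      · rintro ⟨i, rfl⟩
        refine ⟨_, ⟨i, rfl⟩, ?_⟩
        rw [Fintype.linearCombination_apply]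
        simp
      · rintro ⟨_, ⟨i, rfl⟩, rfl⟩
        refine ⟨i, ?_⟩
        rw [Fintype.linearCombination_apply]
        simp
    rw [h1, ← LinearMap.image_convexHull] at hx
    obtain ⟨w, hw, rfl⟩ := hx
    rw [convexHull_basis_eq_stdSimplex] at hw
    exact ⟨w, hw.1, hw.2, (Fintype.linearCombination_apply ℝ p w).symm⟩
  have hmiss : ∀ u : Fin (d + 1) → ℝ, (∀ i, 0 ≤ u i) → ∑ i, u i = 1 →
      (∃ s : Finset (Fin (d + 1)), s.card = k + 1 ∧ ∀ i, i ∉ s → u i = 0) →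
      ρ ^ 2 ≤ ‖∑ i, u i • p i - x‖ ^ 2 := by
    rintro u hu0 hu1 ⟨s, hs, hsu⟩
    have hmem : ∑ i, u i • p i ∈ convexHull ℝ (p '' (s : Set (Fin (d + 1)))) := by
      have h1 : ∑ i, u i • p i = ∑ i ∈ s, u i • p i :=
        (Finset.sum_subset (Finset.subset_univ s) fun i _ hi => by rw [hsu i hi, zero_smul]).symm
      have h2 : ∑ i ∈ s, u i = 1 := by
        rw [← hu1]
        exact Finset.sum_subset (Finset.subset_univ s) fun i _ hi => hsu i hi
      rw [h1]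
      exact (convex_convexHull ℝ _).sum_mem (fun i _ => hu0 i) h2
        fun i hi => subset_convexHull ℝ _ ⟨i, hi, rfl⟩
    have hnot : ∑ i, u i • p i ∉ Metric.ball x ρ := fun h =>
      Set.disjoint_left.mp hdis h (Set.mem_iUnion.mpr ⟨s, Set.mem_iUnion.mpr ⟨hs, hmem⟩⟩)
    rw [Metric.mem_ball, dist_eq_norm, not_lt] at hnot
    exact pow_le_pow_left₀ hρ.le hnot 2
  have hV : ∑ i, w i * ‖p i‖ ^ 2 - ‖∑ i, w i • p i‖ ^ 2 ≤ 1 := by
    have h1 : ∑ i, w i * ‖p i‖ ^ 2 ≤ ∑ i, w i := by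
      refine Finset.sum_le_sum fun i _ => ?_
      have : ‖p i‖ ^ 2 ≤ 1 := pow_le_one₀ (norm_nonneg _) (hp1 i)
      nlinarith [hw0 i]
    nlinarith [sq_nonneg ‖∑ i, w i • p i‖]
  have hd' : (0 : ℝ) < d := by exact_mod_cast hd
  have hkd' : (k : ℝ) < d := by exact_mod_cast hkd
  have hθ0 : 0 ≤ ((d : ℝ) - (k : ℝ)) / ((d : ℝ) * ((k : ℝ) + 1)) := by
    apply div_nonneg
    · linarith
    · positivity
  apply Real.le_sqrt_of_sq_le
  have hfinal : ρ ^ 2 - ‖∑ i, w i • p i - x‖ ^ 2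
      ≤ ((d : ℝ) - (k : ℝ)) / ((d : ℝ) * ((k : ℝ) + 1))
        * (∑ i, w i * ‖p i‖ ^ 2 - ‖∑ i, w i • p i‖ ^ 2) := by
    rcases Nat.eq_zero_or_pos k with hk0 | hkpos
    · subst hk0
      have h1 : ((d : ℝ) - ((0 : ℕ) : ℝ)) / ((d : ℝ) * (((0 : ℕ) : ℝ) + 1)) = 1 := by
        push_cast
        field_simp
        ring
      rw [h1, one_mul, hwx, ← hwx, ← var_eq w hw1 p]
      have h2 : ∀ i, w i * ρ ^ 2 ≤ w i * ‖p i - ∑ j, w j • p j‖ ^ 2 := by
        intro i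
        refine mul_le_mul_of_nonneg_left ?_ (hw0 i)
        have := hmiss (fun j => if j = i then 1 else 0) (fun j => by positivity) (by simp)
          ⟨{i}, by simp, fun j hj => by simp at hj; simp [hj]⟩
        rw [hwx]
        simpa using this
      have h3 := Finset.sum_le_sum fun i (_ : i ∈ (Finset.univ : Finset (Fin (d + 1)))) => h2 i
      rw [← Finset.sum_mul, hw1, one_mul] at h3
      simpa using h3
    · have h1 := power_le p hp k hkpos x (ρ ^ 2) hmiss (d - k) Finset.univ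
        (by rw [Finset.card_univ, Fintype.card_fin]; omega) w hw0 (fun i hi => by simp at hi) hw1
      have h2 : ((d - k : ℕ) : ℝ) = d - k := by
        rw [Nat.cast_sub hkd.le]
      rw [h2] at h1
      have h3 : (k : ℝ) + (d - k) = d := by ring
      rw [h3] at h1
      exact h1
  rw [hwx, sub_self, norm_zero] at hfinal
  rw [hwx] at hV
  nlinarith [mul_le_mul_of_nonneg_left hV hθ0]

end Pool.Agent.S06893
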