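import Pool.Statements.S06903
import Pool.Agent.Helper644.FC7

set_option autoImplicit false
open Pool Pool.MP_b1882c_co

namespace Pool.Agent.S06903

/-- No finite set of points and lines in the Euclidean plane, with 5 lines through each point and 5 points on each line, has an isometric symmetry group with exactly 3 orbits on points and exactly 3 orbits on lines. -/
theorem result :
    ∀ (P : Set (EuclideanSpace ℝ (Fin 2)))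
      (Ls : Set (AffineSubspace ℝ (EuclideanSpace ℝ (Fin 2))))
      (G : Set (EuclideanSpace ℝ (Fin 2) ≃ᵢ EuclideanSpace ℝ (Fin 2))),
      P.Finite → Ls.Finite →
      (∀ L ∈ Ls, Module.finrank ℝ L.direction = 1) →
      (∀ p ∈ P, {L ∈ Ls | p ∈ L}.ncard = 5) →
      (∀ L ∈ Ls, {p ∈ P | p ∈ L}.ncard = 5) →
      (∀ g : EuclideanSpace ℝ (Fin 2) ≃ᵢ EuclideanSpace ℝ (Fin 2),
        g ∈ G ↔ ((⇑g) '' P = P ∧
          ∀ L ∈ Ls, ∃ M ∈ Ls, (⇑g) '' (L : Set (EuclideanSpace ℝ (Fin 2))) =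
            (M : Set (EuclideanSpace ℝ (Fin 2))))) →
      ¬ ((∃ p₁ ∈ P, ∃ p₂ ∈ P, ∃ p₃ ∈ P,
            (¬ ∃ g : EuclideanSpace ℝ (Fin 2) ≃ᵢ EuclideanSpace ℝ (Fin 2),
                g ∈ G ∧ g p₁ = p₂) ∧
            (¬ ∃ g : EuclideanSpace ℝ (Fin 2) ≃ᵢ EuclideanSpace ℝ (Fin 2),
                g ∈ G ∧ g p₁ = p₃) ∧
            (¬ ∃ g : EuclideanSpace ℝ (Fin 2) ≃ᵢ EuclideanSpace ℝ (Fin 2),
                g ∈ G ∧ g p₂ = p₃) ∧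
            ∀ p ∈ P, ∃ g : EuclideanSpace ℝ (Fin 2) ≃ᵢ EuclideanSpace ℝ (Fin 2),
                g ∈ G ∧ (g p₁ = p ∨ g p₂ = p ∨ g p₃ = p)) ∧
         (∃ L₁ ∈ Ls, ∃ L₂ ∈ Ls, ∃ L₃ ∈ Ls,
            (¬ ∃ g : EuclideanSpace ℝ (Fin 2) ≃ᵢ EuclideanSpace ℝ (Fin 2),
                g ∈ G ∧ (⇑g) '' (L₁ : Set (EuclideanSpace ℝ (Fin 2))) =
                  (L₂ : Set (EuclideanSpace ℝ (Fin 2)))) ∧
            (¬ ∃ g : EuclideanSpace ℝ (Fin 2) ≃ᵢ EuclideanSpace ℝ (Fin 2),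
                g ∈ G ∧ (⇑g) '' (L₁ : Set (EuclideanSpace ℝ (Fin 2))) =
                  (L₃ : Set (EuclideanSpace ℝ (Fin 2)))) ∧
            (¬ ∃ g : EuclideanSpace ℝ (Fin 2) ≃ᵢ EuclideanSpace ℝ (Fin 2),
                g ∈ G ∧ (⇑g) '' (L₂ : Set (EuclideanSpace ℝ (Fin 2))) =
                  (L₃ : Set (EuclideanSpace ℝ (Fin 2)))) ∧
            ∀ L ∈ Ls, ∃ g : EuclideanSpace ℝ (Fin 2) ≃ᵢ EuclideanSpace ℝ (Fin 2),
              g ∈ G ∧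
              ((⇑g) '' (L₁ : Set (EuclideanSpace ℝ (Fin 2))) =
                  (L : Set (EuclideanSpace ℝ (Fin 2))) ∨
               (⇑g) '' (L₂ : Set (EuclideanSpace ℝ (Fin 2))) =
                  (L : Set (EuclideanSpace ℝ (Fin 2))) ∨
               (⇑g) '' (L₃ : Set (EuclideanSpace ℝ (Fin 2))) =
                  (L : Set (EuclideanSpace ℝ (Fin 2)))))) := by
  intro P Ls G h1 h2 h3 h4 h5 h6 ⟨⟨p₁, hp₁, p₂, hp₂, p₃, hp₃, _, _, _, hp⟩,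
    ⟨L₁, hL₁, L₂, hL₂, L₃, hL₃, _, _, _, hL⟩⟩
  exact Pool.Agent.Helper644.FC.transfer Pool.Agent.Helper644.FC.geom P Ls G h1 h2 h3 h4 h5 h6
    ⟨⟨p₁, hp₁, p₂, hp₂, p₃, hp₃, hp⟩, ⟨L₁, hL₁, L₂, hL₂, L₃, hL₃, hL⟩⟩

end Pool.Agent.S06903
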