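import Pool.Statements.S06906

set_option autoImplicit false
open Pool Pool.MP_b1b35b_co

namespace Pool.Agent.S06906

def nrmL : List (List ℤ) :=
  [[2, 2, -2, -1],
   [1, 2, 1, 0],
   [2, -2, 2, 1],
   [1, 0, -2, -2],
   [-1, 0, 0, -2],
   [-1, 1, 1, -1],
   [-2, 1, 2, 0],
   [-2, 0, 2, 1],
   [-2, -2, 1, 2],
   [1, -1, -1, 0],
   [1, -1, 0, -1],
   [-1, 0, 0, 1]]

def numL : List (List ℤ) :=
  [[2, 1, 2, -4],
   [1, 3, 2, -5],
   [1, 2, 5, 2],
   [2, 4, 3, 11],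
   [5, 1, -6, 14],
   [2, -1, -1, 0],
   [1, -3, -1, -1],
   [2, 0, 1, -2],
   [5, 1, 4, -7],
   [4, 1, 4, -7],
   [-1, -4, -1, -2],
   [-1, -9, -3, -3],
   [-1, 3, 0, -1],
   [-3, 3, -2, -1],
   [-1, -1, 1, -1],
   [-2, -4, 5, -4],
   [1, -1, 8, -7],
   [2, 1, 7, -5],
   [-3, -1, -9, 4],
   [-1, 0, -1, 0],
   [-5, 1, -3, 0],
   [-2, 1, -1, 1],
   [0, 1, 0, 2],
   [2, 2, -1, 7],
   [2, 1, -2, 6],
   [0, 0, -1, 1],
   [7, 1, 5, -8],
   [6, 5, -4, 18],
   [-6, 13, -5, 9],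
   [-2, 1, -2, 0],
   [-4, -1, -13, 6],
   [-6, 4, -5, 0],
   [5, 1, 10, -11],
   [7, 1, 10, -13],
   [-2, 5, -1, 5],
   [-5, -10, 11, -9],
   [-1, -5, 1, -3],
   [0, -4, -1, -1]]

def denL : List ℤ :=
  [6, 9, 10, 13, 10, 4, 5, 4, 11, 10, 5, 11, 5, 5, 3, 10, 13, 11, 7, 1, 5, 3, 2, 5, 
   4, 1, 14, 12, 15, 2, 10, 6, 17, 19, 7, 23, 7, 5]

def facL : List (List ℕ) :=
  [[0, 1, 3, 4],
   [0, 1, 4, 5],
   [1, 2, 6, 7],
   [1, 2, 7, 8],
   [0, 2, 8, 9],
   [0, 2, 3, 9],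
   [2, 3, 9, 10],
   [0, 2, 3, 10],
   [0, 1, 3, 10],
   [1, 3, 4, 10],
   [3, 4, 8, 10],
   [3, 8, 9, 10],
   [0, 1, 5, 6],
   [0, 4, 5, 6],
   [4, 6, 7, 8],
   [2, 4, 6, 7],
   [2, 4, 5, 6],
   [1, 2, 5, 6],
   [3, 8, 9, 11],
   [3, 4, 8, 11],
   [4, 6, 8, 11],
   [6, 7, 8, 11],
   [1, 7, 8, 11],
   [1, 2, 8, 11],
   [0, 2, 8, 11],
   [0, 8, 9, 11],
   [0, 1, 2, 10],
   [0, 1, 2, 11],
   [0, 1, 6, 11],
   [0, 3, 4, 11],
   [0, 3, 9, 11],
   [0, 4, 6, 11],
   [1, 2, 4, 5],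
   [1, 2, 4, 10],
   [1, 6, 7, 11],
   [2, 4, 7, 8],
   [2, 4, 8, 10],
   [2, 8, 9, 10]]

def nbrL : List (List ℕ) :=
  [[9, 29, 1, 8],
   [32, 13, 12, 0],
   [15, 34, 3, 17],
   [35, 22, 23, 2],
   [37, 25, 5, 24],
   [6, 30, 4, 7],
   [11, 37, 7, 5],
   [6, 8, 26, 5],
   [9, 7, 26, 0],
   [10, 33, 8, 0],
   [36, 11, 9, 19],
   [37, 6, 10, 18],
   [17, 13, 28, 1],
   [16, 12, 31, 1],
   [21, 35, 20, 15],
   [14, 2, 35, 16],
   [13, 17, 15, 32],
   [16, 12, 2, 32],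
   [25, 30, 19, 11],
   [20, 18, 29, 10],
   [21, 19, 31, 14],
   [22, 20, 34, 14],
   [21, 23, 34, 3],
   [24, 22, 27, 3],
   [23, 25, 27, 4],
   [18, 30, 24, 4],
   [33, 7, 8, 27],
   [23, 24, 28, 26],
   [34, 31, 27, 12],
   [19, 31, 30, 0],
   [18, 25, 29, 5],
   [20, 28, 29, 13],
   [16, 1, 17, 33],
   [36, 9, 26, 32],
   [21, 22, 28, 2],
   [14, 3, 36, 15],
   [10, 37, 33, 35],
   [11, 6, 36, 4]]

def inv0L : List (List ℤ) :=
  [[-8, 8, 12, -8],
   [-2, 8, 7, -12],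
   [4, 3, -2, -3],
   [6, 4, -8, 2],
   [5, 5, 0, 0],
   [6, 6, 0, 0],
   [4, 5, -2, -6],
   [2, 2, 0, 0],
   [6, -2, -7, 8],
   [4, 2, -6, 8],
   [-2, -6, -4, 8],
   [-5, -4, 6, 2],
   [-3, 5, 3, -7],
   [-2, -5, 12, -8],
   [1, -8, 10, -4],
   [4, -4, 8, -12],
   [2, -5, 12, -8],
   [5, 3, 3, -7],
   [-3, -2, 4, -2],
   [0, -4, 0, -8],
   [-5, 0, 0, -10],
   [-4, 5, -2, -1],
   [4, -4, 4, -4],
   [-2, 4, -6, 8],
   [2, 2, 0, 0],
   [3, 4, -2, -5],
   [7, 0, 7, 0],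
   [6, 0, 6, 0],
   [-3, 6, -6, -3],
   [0, 0, -2, -4],
   [2, -4, 4, -6],
   [0, -6, 0, -12],
   [8, 2, 7, -12],
   [4, -2, -7, 12],
   [2, -4, 3, -3],
   [8, -6, -4, -8],
   [2, -5, -4, 4],
   [5, -5, 5, -5]]

def inv1L : List (List ℤ) :=
  [[8, -2, -9, 5],
   [3, -3, -6, 9],
   [8, -4, -4, 4],
   [12, -5, -3, 4],
   [9, 1, 4, -12],
   [7, -1, -4, -8],
   [3, 5, -4, -7],
   [4, -4, -8, 8],
   [-1, 4, 3, -5],
   [6, 3, 1, -8],
   [-3, 1, -6, -8],
   [-1, -3, -1, -4],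
   [4, 0, -4, 6],
   [2, 0, -2, 3],
   [-2, 7, -8, 2],
   [-2, -8, 16, -14],
   [-2, -8, 14, -5],
   [8, -4, -4, 2],
   [-1, -3, -1, 4],
   [-3, 1, -6, 8],
   [-2, 3, -6, 8],
   [-1, 2, -2, 2],
   [1, 1, -3, 5],
   [3, -1, -1, 3],
   [-3, 1, -8, 12],
   [1, 1, -1, -1],
   [1, 8, -3, -4],
   [1, 8, -3, 4],
   [4, 2, 3, 4],
   [3, -3, 2, 1],
   [3, -1, -4, 1],
   [6, -2, 6, 2],
   [5, -3, -2, 1],
   [6, -3, -1, -1],
   [2, 3, -4, 4],
   [-7, -12, 15, -16],
   [3, 3, -6, -15],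
   [1, -5, -3, -9]]

def inv2L : List (List ℤ) :=
  [[-8, 8, 6, -2],
   [-4, 7, 5, -6],
   [0, 5, 10, -5],
   [-4, 6, 14, -10],
   [-4, 4, -4, -8],
   [-1, 7, 4, -16],
   [1, 0, -3, 1],
   [3, -5, -12, 16],
   [-4, 5, 1, 2],
   [4, -8, 4, 8],
   [-12, 4, -4, 8],
   [-4, -1, -4, 6],
   [-5, 5, 5, -5],
   [-3, -5, 13, -7],
   [2, -10, 14, -5],
   [5, 0, 10, -5],
   [3, -1, 5, 1],
   [1, 5, 5, 3],
   [-2, 1, -2, -6],
   [-6, 2, 0, -8],
   [-4, 6, 3, -14],
   [-2, 4, -1, -2],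
   [2, 2, 2, -6],
   [6, -2, 8, -14],
   [-6, 2, -8, 8],
   [2, 3, -2, -4],
   [-9, 12, -1, 8],
   [-8, 8, 0, -8],
   [-5, 5, 0, -5],
   [0, -3, 1, -4],
   [-1, -3, -2, -7],
   [-3, -5, 6, -13],
   [-1, 4, -3, 10],
   [3, 8, 9, -10],
   [1, -2, 5, -5],
   [10, 4, 18, -10],
   [12, 12, -3, -18],
   [4, 0, -12, 4]]

def inv3L : List (List ℤ) :=
  [[4, -4, -6, -2],
   [1, -4, -8, 6],
   [8, -4, -24, 24],
   [20, -4, -18, 24],
   [16, 4, 16, -8],
   [4, -4, -16, 16],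
   [1, 0, 2, -4],
   [-2, 6, 8, -16],
   [7, -6, -10, 2],
   [-2, -1, -7, -4],
   [1, -7, 2, -4],
   [-4, -1, 7, -5],
   [2, 0, -12, 8],
   [1, 0, -6, 4],
   [-2, 4, -5, 2],
   [-2, -8, -4, 6],
   [-1, -4, -6, 4],
   [4, -2, -24, 12],
   [-3, -2, 4, 5],
   [0, -4, 0, 4],
   [-5, 0, 0, 5],
   [-4, 5, -2, 2],
   [4, -4, 4, 4],
   [-2, 4, -6, 18],
   [2, 2, 0, 8],
   [3, 4, -2, -4],
   [6, -8, 10, -24],
   [6, 0, 6, 24],
   [-3, 6, -6, 12],
   [0, 0, -2, 2],
   [2, -4, 4, 4],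
   [0, -6, 0, 6],
   [-4, -1, -12, 6],
   [-2, 1, -6, -6],
   [2, -4, 3, 4],
   [-4, -20, 2, 4],
   [-1, -8, 2, -2],
   [4, 0, 8, -16]]

def detL : List ℤ :=
  [12, 9, 20, 26, 20, 24, 5, 8, 11, 20, 20, 11, 10, 5, 3, 20, 13, 22, 7, 12, 15, 3, 
   8, 10, 8, 1, 28, 24, 15, 6, 10, 18, 17, 19, 7, 46, 21, 20]

def posL : List (List ℤ) :=
  [[18, 10],
   [12, 11],
   [5, 14],
   [0, 11],
   [10, 0],
   [11, 1],
   [12, 1],
   [13, 0],
   [18, 9],
   [13, 9],
   [10, 10],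
   [11, 6],
   [11, 16],
   [10, 16],
   [9, 12],
   [8, 13],
   [9, 17],
   [8, 20],
   [10, 5],
   [9, 6],
   [6, 10],
   [6, 11],
   [2, 10],
   [4, 6],
   [5, 2],
   [4, 10]]

def adjL : List ℕ :=
  [536871682, 4294979585, 17180033032, 34372321284, 137489285152, 1073742032, 
   137438955680, 67109216, 67109505, 8589935873, 68720003584, 137439216704, 
   268574722, 2147553282, 34362916864, 34359820292, 4295139328, 4295036932, 
   1107822592, 538182656, 2150121472, 17185128448, 17190354952, 155189256, 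
   176160784, 1090781200, 8724152704, 360710144, 19461574656, 3221749761, 570687520, 
   806363136, 8590131202, 73081553408, 274726916, 68719525896, 180388627456, 
   68719478864]

def nrm (k : Fin 12) (r : Fin 4) : ℤ := (nrmL.getD k.val []).getD r.val 0
def num (i : Fin 38) (r : Fin 4) : ℤ := (numL.getD i.val []).getD r.val 0
def den (i : Fin 38) : ℤ := denL.getD i.val 1
def fac (i : Fin 38) (m : Fin 4) : Fin 12 := Fin.ofNat 12 ((facL.getD i.val []).getD m.val 0)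
def nbr (i : Fin 38) (m : Fin 4) : Fin 38 := Fin.ofNat 38 ((nbrL.getD i.val []).getD m.val 0)
def invRow (r : Fin 4) : List (List ℤ) :=
  if r.val = 0 then inv0L else if r.val = 1 then inv1L else if r.val = 2 then inv2L else inv3L
def inv (i : Fin 38) (r m : Fin 4) : ℤ := ((invRow r).getD i.val []).getD m.val 0
def det (i : Fin 38) : ℤ := detL.getD i.val 0
def px (i : Fin 38) : ℤ := (posL.getD i.val []).getD 0 0
def py (i : Fin 38) : ℤ := (posL.getD i.val []).getD 1 0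
def adjM (i : ℕ) : ℕ := adjL.getD i 0

def dot (k : Fin 12) (i : Fin 38) : ℤ :=
  nrm k 0 * num i 0 + nrm k 1 * num i 1 + nrm k 2 * num i 2 + nrm k 3 * num i 3

theorem den_pos : ∀ i : Fin 38, 0 < den i := by decide +kernel
theorem det_ne : ∀ i : Fin 38, det i ≠ 0 := by decide +kernel
theorem dot_le : ∀ (k : Fin 12) (i : Fin 38), dot k i ≤ den i := by decide +kernel
theorem dot_fac : ∀ (i : Fin 38) (m : Fin 4), dot (fac i m) i = den i := by decide +kernel
theorem dot_nbr : ∀ (i : Fin 38) (m m' : Fin 4), m' ≠ m →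
    dot (fac i m') (nbr i m) = den (nbr i m) := by decide +kernel
theorem dot_nbr_lt : ∀ (i : Fin 38) (m : Fin 4),
    dot (fac i m) (nbr i m) < den (nbr i m) := by decide +kernel
theorem inv_mul : ∀ (i : Fin 38) (r s : Fin 4),
    inv i r 0 * nrm (fac i 0) s + inv i r 1 * nrm (fac i 1) s
      + inv i r 2 * nrm (fac i 2) s + inv i r 3 * nrm (fac i 3) s
      = if r = s then det i else 0 := by decide +kernel
theorem common3 : ∀ (i : Fin 38) (m : Fin 4) (j : Fin 38),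
    (∀ m' : Fin 4, m' ≠ m → dot (fac i m') j = den j) → j = i ∨ j = nbr i m := by decide +kernel
theorem common4 : ∀ (i j : Fin 38),
    (∀ m : Fin 4, dot (fac i m) j = den j) → j = i := by decide +kernel
theorem nbr_ne : ∀ (i : Fin 38) (m : Fin 4), nbr i m ≠ i := by decide +kernel
theorem nbr_inj : ∀ (i : Fin 38) (m m' : Fin 4), nbr i m = nbr i m' → m = m' := by decide +kernel
theorem nbr_symm : ∀ (i : Fin 38) (m : Fin 4), ∃ m' : Fin 4, nbr (nbr i m) m' = i := by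
  decide +kernel
theorem adjM_iff : ∀ (i j : Fin 38), ((adjM i.val).testBit j.val = true) ↔
    ∃ m : Fin 4, nbr i m = j := by decide +kernel
theorem degW : ∀ i : Fin 38, i.val < 26 →
    (Finset.univ.filter (fun m : Fin 4 => (nbr i m).val < 26)).card = 3 := by decide +kernel
def ori (i j k : Fin 38) : ℤ := (px j - px i) * (py k - py i) - (py j - py i) * (px k - px i)

theorem ori_ne : ∀ i : Fin 38, i.val < 26 → ∀ m : Fin 4, (nbr i m).val < 26 →
    ∀ k : Fin 38, k.val < 26 → k ≠ i → k ≠ nbr i m → ori i (nbr i m) k ≠ 0 := by decide +kernel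

theorem ori_sep : ∀ i : Fin 38, i.val < 26 → ∀ m : Fin 4, (nbr i m).val < 26 → i < nbr i m →
    ∀ k : Fin 38, k.val < 26 → ∀ m' : Fin 4, (nbr k m').val < 26 → k < nbr k m' →
    i ≠ k → i ≠ nbr k m' → nbr i m ≠ k → nbr i m ≠ nbr k m' →
    0 < ori i (nbr i m) k * ori i (nbr i m) (nbr k m') ∨
    0 < ori k (nbr k m') i * ori k (nbr k m') (nbr i m) := by decide +kernel

theorem pos_inj : ∀ i j : Fin 38, i.val < 26 → j.val < 26 → px i = px j → py i = py j → i = j := by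
  decide +kernel
def wmask : ℕ := 2 ^ 26 - 1
def cmask : ℕ := (2 ^ 38 - 1) - (2 ^ 26 - 1)

def grow (L : List ℕ) (R : ℕ) : ℕ :=
  L.foldr (fun i acc => if R.testBit i then adjM i ||| acc else acc) 0

def reach (L : List ℕ) (P : ℕ) : ℕ → ℕ → ℕ
  | 0, R => R
  | n + 1, R => if (R ||| (P &&& grow L R)) = R then R else reach L P n (R ||| (P &&& grow L R))

def del (a b : ℕ) : ℕ := (wmask &&& (wmask ^^^ (2 ^ a))) &&& (wmask ^^^ (2 ^ b))

def seed (a b : ℕ) : ℕ :=
  if a ≠ 0 ∧ b ≠ 0 then 0 else if a ≠ 1 ∧ b ≠ 1 then 1 else 2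

def lw : List ℕ :=
  [0, 1, 2, 3, 4, 5, 6, 7, 8, 9, 10, 11, 12, 13, 14, 15, 16, 17, 18, 19, 20, 21, 22, 23, 24, 25]
def lc : List ℕ := [26, 27, 28, 29, 30, 31, 32, 33, 34, 35, 36, 37]

theorem chk_c : reach lc cmask 12 (2 ^ 26) = cmask := by decide +kernel
theorem chk_w : reach lw wmask 20 1 = wmask := by decide +kernel
theorem chk_del : ∀ a b : Fin 26, a ≤ b →
    reach lw (del a.val b.val) 20 (2 ^ (seed a.val b.val)) = del a.val b.val := by
  decide +kernel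
abbrev E4 := EuclideanSpace ℝ (Fin 4)

noncomputable def vtx (i : Fin 38) : E4 := WithLp.toLp 2 (fun r => (num i r : ℝ) / (den i : ℝ))

noncomputable def ell (k : Fin 12) : E4 →L[ℝ] ℝ :=
  ∑ r : Fin 4, (nrm k r : ℝ) • (EuclideanSpace.proj r : E4 →L[ℝ] ℝ)

theorem ell_apply (k : Fin 12) (x : E4) :
    ell k x = (nrm k 0 : ℝ) * x 0 + (nrm k 1 : ℝ) * x 1 + (nrm k 2 : ℝ) * x 2
      + (nrm k 3 : ℝ) * x 3 := by
  simp [ell, Fin.sum_univ_four]

theorem den_pos' (i : Fin 38) : (0 : ℝ) < den i := by exact_mod_cast den_pos i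

theorem ell_vtx (k : Fin 12) (i : Fin 38) : ell k (vtx i) = (dot k i : ℝ) / (den i : ℝ) := by
  have h := (den_pos' i).ne'
  rw [ell_apply]
  simp only [vtx, dot]
  push_cast
  field_simp

theorem ell_le (k : Fin 12) (i : Fin 38) : ell k (vtx i) ≤ 1 := by
  rw [ell_vtx, div_le_one (den_pos' i)]
  exact_mod_cast dot_le k i

theorem ell_eq_iff (k : Fin 12) (i : Fin 38) : ell k (vtx i) = 1 ↔ dot k i = den i := by
  rw [ell_vtx, div_eq_one_iff_eq (den_pos' i).ne']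
  exact_mod_cast Iff.rfl

theorem ell_lt_iff (k : Fin 12) (i : Fin 38) : ell k (vtx i) < 1 ↔ dot k i < den i := by
  rw [ell_vtx, div_lt_one (den_pos' i)]
  exact_mod_cast Iff.rfl

theorem vtx_inj : Function.Injective vtx := by
  intro i j h
  refine (common4 i j fun m => ?_).symm
  rw [← ell_eq_iff, ← h, ell_eq_iff]
  exact dot_fac i m

theorem face_hull (S : Finset E4) (l : E4 →L[ℝ] ℝ) (c : ℝ) (h : ∀ y ∈ S, l y ≤ c) :
    {x | x ∈ convexHull ℝ (S : Set E4) ∧ l x = c} = convexHull ℝ {y | y ∈ S ∧ l y = c} := by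
  classical
  apply Set.Subset.antisymm
  · rintro x ⟨hx, hlx⟩
    rw [Finset.mem_convexHull'] at hx
    obtain ⟨w, hw0, hw1, hwx⟩ := hx
    have hsum : ∑ y ∈ S, w y * (c - l y) = 0 := by
      have h1 : ∑ y ∈ S, w y * (c - l y) = (∑ y ∈ S, w y) * c - l (∑ y ∈ S, w y • y) := by
        rw [map_sum, Finset.sum_mul, ← Finset.sum_sub_distrib]
        refine Finset.sum_congr rfl fun y _ => ?_
        rw [map_smul, smul_eq_mul]
        ring
      rw [h1, hw1, hwx, hlx]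
      ring
    have hz := (Finset.sum_eq_zero_iff_of_nonneg (fun y hy =>
      mul_nonneg (hw0 y hy) (sub_nonneg.2 (h y hy)))).1 hsum
    have hset : {y | y ∈ S ∧ l y = c} = ((S.filter fun y => l y = c : Finset E4) : Set E4) := by
      ext y; simp
    rw [hset, Finset.mem_convexHull']
    have hw' : ∀ y ∈ S, ¬ (l y = c) → w y = 0 := by
      intro y hy hne
      have := hz y hy
      rcases mul_eq_zero.1 this with h0 | h0
      · exact h0
      · exact absurd (by linarith) hne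
    refine ⟨w, fun y hy => hw0 y (Finset.mem_filter.1 hy).1, ?_, ?_⟩
    · rw [← hw1, Finset.sum_filter]
      refine Finset.sum_congr rfl fun y hy => ?_
      split_ifs with h1
      · rfl
      · exact (hw' y hy h1).symm
    · rw [← hwx, Finset.sum_filter]
      refine Finset.sum_congr rfl fun y hy => ?_
      split_ifs with h1
      · rfl
      · rw [hw' y hy h1, zero_smul]
  · apply convexHull_min
    · rintro y ⟨hy, hl⟩
      exact ⟨subset_convexHull ℝ _ (by exact_mod_cast hy), hl⟩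
    · have h1 : Convex ℝ (convexHull ℝ (S : Set E4)) := convex_convexHull ℝ _
      have h2 : Convex ℝ {x | l x = c} := by
        intro x hx y hy a b ha hb hab
        simp only [Set.mem_ofPred_eq] at hx hy ⊢
        rw [map_add, map_smul, map_smul, hx, hy, smul_eq_mul, smul_eq_mul, ← add_mul, hab, one_mul]
      exact h1.inter h2

noncomputable def Sv : Finset E4 := by
  classical exact Finset.univ.image vtx

theorem mem_Sv (x : E4) : x ∈ Sv ↔ ∃ i, vtx i = x := by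
  classical
  simp [Sv]

theorem coe_Sv : (Sv : Set E4) = Set.range vtx := by
  ext x
  rw [Finset.mem_coe, mem_Sv]
  rfl

theorem vtx_mem (i : Fin 38) : vtx i ∈ convexHull ℝ (Sv : Set E4) :=
  subset_convexHull ℝ _ (by rw [coe_Sv]; exact ⟨i, rfl⟩)

theorem hull_le (l : E4 →L[ℝ] ℝ) (c : ℝ) (h : ∀ i, l (vtx i) ≤ c) :
    ∀ x ∈ convexHull ℝ (Sv : Set E4), l x ≤ c := by
  have hsub : convexHull ℝ (Sv : Set E4) ⊆ {x | l x ≤ c} := by
    apply convexHull_min
    · rw [coe_Sv]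
      rintro _ ⟨i, rfl⟩
      exact h i
    · exact convex_halfSpace_le l.isLinear c
  exact hsub

noncomputable def l4 (i : Fin 38) : E4 →L[ℝ] ℝ := ∑ m : Fin 4, ell (fac i m)
noncomputable def l3 (i : Fin 38) (m : Fin 4) : E4 →L[ℝ] ℝ :=
  ∑ m' ∈ Finset.univ.erase m, ell (fac i m')

theorem l4_le (i j : Fin 38) : l4 i (vtx j) ≤ 4 := by
  have : l4 i (vtx j) ≤ ∑ m : Fin 4, (1 : ℝ) := by
    rw [l4, sum_apply]
    exact Finset.sum_le_sum fun m _ => ell_le _ _
  simpa using this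

theorem l4_eq (i j : Fin 38) : l4 i (vtx j) = 4 ↔ j = i := by
  have hs : l4 i (vtx j) = ∑ m : Fin 4, ell (fac i m) (vtx j) := by
    rw [l4, sum_apply]
  have h4 : (4 : ℝ) = ∑ m : Fin 4, (1 : ℝ) := by simp
  rw [hs, h4, Finset.sum_eq_sum_iff_of_le (fun m _ => ell_le _ _)]
  constructor
  · intro h
    apply common4
    intro m
    rw [← ell_eq_iff]
    exact h m (Finset.mem_univ _)
  · rintro rfl m _
    rw [ell_eq_iff]
    exact dot_fac _ m

theorem l3_le (i : Fin 38) (m : Fin 4) (j : Fin 38) : l3 i m (vtx j) ≤ 3 := by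
  have : l3 i m (vtx j) ≤ ∑ m' ∈ Finset.univ.erase m, (1 : ℝ) := by
    rw [l3, sum_apply]
    exact Finset.sum_le_sum fun m _ => ell_le _ _
  simpa using this

theorem l3_eq (i : Fin 38) (m : Fin 4) (j : Fin 38) :
    l3 i m (vtx j) = 3 ↔ j = i ∨ j = nbr i m := by
  have hs : l3 i m (vtx j) = ∑ m' ∈ Finset.univ.erase m, ell (fac i m') (vtx j) := by
    rw [l3, sum_apply]
  have h4 : (3 : ℝ) = ∑ m' ∈ (Finset.univ : Finset (Fin 4)).erase m, (1 : ℝ) := by simp
  rw [hs, h4, Finset.sum_eq_sum_iff_of_le (fun m _ => ell_le _ _)]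
  constructor
  · intro h
    apply common3
    intro m' hm'
    rw [← ell_eq_iff]
    exact h m' (Finset.mem_erase.2 ⟨hm', Finset.mem_univ _⟩)
  · intro h m' hm'
    rw [ell_eq_iff]
    rcases h with rfl | rfl
    · exact dot_fac _ _
    · exact dot_nbr i m m' (Finset.mem_erase.1 hm').1

theorem face4 (i : Fin 38) : {x | x ∈ convexHull ℝ (Sv : Set E4) ∧ l4 i x = 4} = {vtx i} := by
  rw [face_hull Sv (l4 i) 4 (by
    intro y hy
    obtain ⟨j, rfl⟩ := (mem_Sv y).1 hy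
    exact l4_le i j)]
  have : {y | y ∈ Sv ∧ l4 i y = 4} = {vtx i} := by
    ext y
    simp only [Set.mem_ofPred_eq, Set.mem_singleton_iff]
    constructor
    · rintro ⟨hy, h⟩
      obtain ⟨j, rfl⟩ := (mem_Sv y).1 hy
      rw [(l4_eq i j).1 h]
    · rintro rfl
      exact ⟨(mem_Sv _).2 ⟨i, rfl⟩, (l4_eq i i).2 rfl⟩
  rw [this, convexHull_singleton]

theorem face3 (i : Fin 38) (m : Fin 4) :
    {x | x ∈ convexHull ℝ (Sv : Set E4) ∧ l3 i m x = 3} = segment ℝ (vtx i) (vtx (nbr i m)) := by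
  rw [face_hull Sv (l3 i m) 3 (by
    intro y hy
    obtain ⟨j, rfl⟩ := (mem_Sv y).1 hy
    exact l3_le i m j)]
  have : {y | y ∈ Sv ∧ l3 i m y = 3} = {vtx i, vtx (nbr i m)} := by
    ext y
    simp only [Set.mem_ofPred_eq, Set.mem_insert_iff, Set.mem_singleton_iff]
    constructor
    · rintro ⟨hy, h⟩
      obtain ⟨j, rfl⟩ := (mem_Sv y).1 hy
      rcases (l3_eq i m j).1 h with h | h
      · left; rw [h]
      · right; rw [h]
    · rintro (rfl | rfl)
      · exact ⟨(mem_Sv _).2 ⟨i, rfl⟩, (l3_eq i m i).2 (Or.inl rfl)⟩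
      · exact ⟨(mem_Sv _).2 ⟨nbr i m, rfl⟩, (l3_eq i m _).2 (Or.inr rfl)⟩
  rw [this, convexHull_pair]

theorem vtx_ext (i : Fin 38) : vtx i ∈ Set.extremePoints ℝ (convexHull ℝ (Sv : Set E4)) := by
  rw [mem_extremePoints]
  refine ⟨vtx_mem i, ?_⟩
  intro x₁ h₁ x₂ h₂ hseg
  obtain ⟨a, b, ha, hb, hab, hx⟩ := hseg
  have e1 := hull_le (l4 i) 4 (l4_le i) x₁ h₁
  have e2 := hull_le (l4 i) 4 (l4_le i) x₂ h₂
  have e3 : a * l4 i x₁ + b * l4 i x₂ = 4 := by
    have := congrArg (l4 i) hx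
    rw [map_add, map_smul, map_smul, smul_eq_mul, smul_eq_mul] at this
    rw [this]
    exact (l4_eq i i).2 rfl
  have e4 : l4 i x₁ = 4 := by nlinarith
  have e5 : l4 i x₂ = 4 := by nlinarith
  have m1 : x₁ ∈ ({vtx i} : Set E4) := by rw [← face4 i]; exact ⟨h₁, e4⟩
  have m2 : x₂ ∈ ({vtx i} : Set E4) := by rw [← face4 i]; exact ⟨h₂, e5⟩
  exact ⟨m1, m2⟩

theorem ext_iff (x : E4) :
    x ∈ Set.extremePoints ℝ (convexHull ℝ (Sv : Set E4)) ↔ ∃ i, vtx i = x := by
  constructor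
  · intro hx
    have := extremePoints_convexHull_subset hx
    rw [coe_Sv] at this
    exact this
  · rintro ⟨i, rfl⟩
    exact vtx_ext i

theorem ell_inj (i : Fin 38) (w : E4) (h : ∀ m, ell (fac i m) w = 0) : w = 0 := by
  have key : ∀ r : Fin 4, (det i : ℝ) * w r = 0 := by
    intro r
    have e : (det i : ℝ) * w r = (inv i r 0 : ℝ) * ell (fac i 0) w + (inv i r 1 : ℝ) * ell (fac i 1) w
        + (inv i r 2 : ℝ) * ell (fac i 2) w + (inv i r 3 : ℝ) * ell (fac i 3) w := by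
      have hs : ∀ s : Fin 4, (inv i r 0 : ℝ) * nrm (fac i 0) s + (inv i r 1 : ℝ) * nrm (fac i 1) s
          + (inv i r 2 : ℝ) * nrm (fac i 2) s + (inv i r 3 : ℝ) * nrm (fac i 3) s
          = if r = s then (det i : ℝ) else 0 := by
        intro s
        have := inv_mul i r s
        exact_mod_cast this
      have h0 := hs 0
      have h1 := hs 1
      have h2 := hs 2
      have h3 := hs 3
      simp only [ell_apply]
      have : (det i : ℝ) * w r = (if r = 0 then (det i : ℝ) else 0) * w 0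
          + (if r = 1 then (det i : ℝ) else 0) * w 1 + (if r = 2 then (det i : ℝ) else 0) * w 2
          + (if r = 3 then (det i : ℝ) else 0) * w 3 := by
        fin_cases r <;> simp
      rw [this, ← h0, ← h1, ← h2, ← h3]
      ring
    rw [e, h 0, h 1, h 2, h 3]
    ring
  ext r
  have hd : (det i : ℝ) ≠ 0 := by exact_mod_cast det_ne i
  have := key r
  simpa [hd] using this

noncomputable def lam (i : Fin 38) (w : E4) (m : Fin 4) : ℝ :=
  ell (fac i m) w / (ell (fac i m) (vtx (nbr i m)) - 1)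

theorem cone_id (i : Fin 38) (w : E4) :
    w = ∑ m : Fin 4, lam i w m • (vtx (nbr i m) - vtx i) := by
  rw [← sub_eq_zero]
  apply ell_inj i
  intro m'
  rw [map_sub, map_sum]
  have : ∀ m : Fin 4, ell (fac i m') (lam i w m • (vtx (nbr i m) - vtx i))
      = if m = m' then ell (fac i m') w else 0 := by
    intro m
    rw [map_smul, map_sub, smul_eq_mul, (ell_eq_iff _ _).2 (dot_fac i m')]
    split_ifs with h
    · subst h
      have hne : ell (fac i m) (vtx (nbr i m)) - 1 ≠ 0 := by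
        have := (ell_lt_iff _ _).2 (dot_nbr_lt i m)
        linarith
      rw [lam, div_mul_cancel₀ _ hne]
    · rw [(ell_eq_iff _ _).2 (dot_nbr i m m' (Ne.symm h))]
      ring
  simp [this]

theorem lam_nonneg (i j : Fin 38) (m : Fin 4) : 0 ≤ lam i (vtx j - vtx i) m := by
  unfold lam
  apply div_nonneg_of_nonpos
  · rw [map_sub, (ell_eq_iff _ _).2 (dot_fac i m)]
    have := ell_le (fac i m) j
    linarith
  · have := (ell_lt_iff _ _).2 (dot_nbr_lt i m)
    linarith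

theorem adj_of_face (i j : Fin 38) (hij : i ≠ j) (l : E4 →L[ℝ] ℝ) (c : ℝ)
    (hle : ∀ x ∈ convexHull ℝ (Sv : Set E4), l x ≤ c)
    (hf : {x | x ∈ convexHull ℝ (Sv : Set E4) ∧ l x = c} = segment ℝ (vtx i) (vtx j)) :
    ∃ m, nbr i m = j := by
  have hi : l (vtx i) = c := by
    have : vtx i ∈ segment ℝ (vtx i) (vtx j) := left_mem_segment _ _ _
    rw [← hf] at this
    exact this.2
  have hj : l (vtx j) = c := by
    have : vtx j ∈ segment ℝ (vtx i) (vtx j) := right_mem_segment _ _ _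
    rw [← hf] at this
    exact this.2
  have hid := cone_id i (vtx j - vtx i)
  have hsum : ∑ m : Fin 4, lam i (vtx j - vtx i) m * (c - l (vtx (nbr i m))) = 0 := by
    have h1 := congrArg l hid
    rw [map_sub, map_sum, hi, hj, sub_self] at h1
    have h2 : ∑ m : Fin 4, lam i (vtx j - vtx i) m * (c - l (vtx (nbr i m)))
        = - ∑ m : Fin 4, l (lam i (vtx j - vtx i) m • (vtx (nbr i m) - vtx i)) := by
      rw [← Finset.sum_neg_distrib]
      refine Finset.sum_congr rfl fun m _ => ?_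
      rw [map_smul, map_sub, smul_eq_mul, hi]
      ring
    rw [h2, ← h1, neg_zero]
  have hz := (Finset.sum_eq_zero_iff_of_nonneg (fun m _ =>
    mul_nonneg (lam_nonneg i j m) (sub_nonneg.2 (hle _ (vtx_mem _))))).1 hsum
  have hex : ∃ m, lam i (vtx j - vtx i) m ≠ 0 := by
    by_contra hcon
    push Not at hcon
    rw [Finset.sum_eq_zero (fun m _ => by rw [hcon m, zero_smul])] at hid
    exact hij (vtx_inj (sub_eq_zero.1 hid).symm)
  obtain ⟨m, hm⟩ := hex
  refine ⟨m, ?_⟩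
  have hlm : l (vtx (nbr i m)) = c := by
    rcases mul_eq_zero.1 (hz m (Finset.mem_univ _)) with h | h
    · exact absurd h hm
    · linarith
  have hmem : vtx (nbr i m) ∈ segment ℝ (vtx i) (vtx j) := by
    rw [← hf]
    exact ⟨vtx_mem _, hlm⟩
  have hext := vtx_ext (nbr i m)
  rw [mem_extremePoints_iff_forall_segment] at hext
  rcases hext.2 _ (vtx_mem i) _ (vtx_mem j) hmem with h | h
  · exact absurd (vtx_inj h).symm (nbr_ne i m)
  · exact (vtx_inj h).symm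
def gr : SimpleGraph (Fin 38) where
  Adj i j := ∃ m, nbr i m = j
  symm := ⟨by
    rintro i j ⟨m, rfl⟩
    exact nbr_symm i m⟩
  loopless := ⟨by
    rintro i ⟨m, h⟩
    exact nbr_ne i m h⟩

abbrev XP := ↥(Set.extremePoints ℝ (convexHull ℝ (Sv : Set E4)))

noncomputable def ev : Fin 38 ≃ XP :=
  Equiv.ofBijective (fun i => (⟨vtx i, vtx_ext i⟩ : XP)) ⟨by
    intro i j h
    exact vtx_inj (congrArg Subtype.val h), by
    rintro ⟨x, hx⟩
    obtain ⟨i, hi⟩ := (ext_iff x).1 hx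
    exact ⟨i, Subtype.ext hi⟩⟩

theorem ev_val (i : Fin 38) : ((ev i : XP) : E4) = vtx i := rfl

theorem val_eq (u : XP) : (u : E4) = vtx (ev.symm u) := by
  rw [← ev_val, Equiv.apply_symm_apply]

noncomputable def GP : SimpleGraph XP := gr.comap ev.symm

theorem GP_adj (u v : XP) : GP.Adj u v ↔ ∃ m, nbr (ev.symm u) m = ev.symm v := Iff.rfl

theorem GP_adj' (i j : Fin 38) : GP.Adj (ev i) (ev j) ↔ ∃ m, nbr i m = j := by
  rw [GP_adj, Equiv.symm_apply_apply, Equiv.symm_apply_apply]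

theorem GP_spec (u v : XP) : GP.Adj u v ↔ (u ≠ v ∧ ∃ (l : E4 →L[ℝ] ℝ) (c : ℝ),
    (∀ x ∈ convexHull ℝ (Sv : Set E4), l x ≤ c) ∧
    {x | x ∈ convexHull ℝ (Sv : Set E4) ∧ l x = c} = segment ℝ (u : E4) (v : E4)) := by
  constructor
  · intro h
    obtain ⟨m, hm⟩ := (GP_adj u v).1 h
    refine ⟨h.ne, l3 (ev.symm u) m, 3, hull_le _ _ (l3_le _ _), ?_⟩
    rw [face3, hm, ← val_eq, ← val_eq]
  · rintro ⟨hne, l, c, hle, hf⟩
    rw [GP_adj]
    rw [val_eq u, val_eq v] at hf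
    exact adj_of_face _ _ (fun h => hne (ev.symm.injective h)) l c hle hf

theorem GP_deg (v : XP) : (GP.neighborSet v).ncard = 4 := by
  have : GP.neighborSet v = (fun m : Fin 4 => ev (nbr (ev.symm v) m)) '' Set.univ := by
    ext w
    rw [SimpleGraph.mem_neighborSet, GP_adj]
    simp only [Set.image_univ, Set.mem_range]
    constructor
    · rintro ⟨m, hm⟩
      exact ⟨m, by rw [hm, Equiv.apply_symm_apply]⟩
    · rintro ⟨m, hm⟩
      exact ⟨m, by rw [← hm, Equiv.symm_apply_apply]⟩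
  rw [this, Set.ncard_image_of_injective, Set.ncard_univ, Nat.card_eq_fintype_card,
    Fintype.card_fin]
  intro m m' h
  exact nbr_inj _ m m' (ev.injective h)

noncomputable def WP : Set XP := {x | (ev.symm x).val < 26}

theorem mem_WP (i : Fin 38) : ev i ∈ WP ↔ i.val < 26 := by
  change (ev.symm (ev i)).val < 26 ↔ _
  rw [Equiv.symm_apply_apply]

theorem WP_deg (v : XP) (hv : v ∈ WP) : {w | w ∈ WP ∧ GP.Adj v w}.ncard = 3 := by
  have : {w | w ∈ WP ∧ GP.Adj v w}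
      = (fun m : Fin 4 => ev (nbr (ev.symm v) m)) ''
        ((Finset.univ.filter (fun m : Fin 4 => (nbr (ev.symm v) m).val < 26) : Finset (Fin 4)) :
          Set (Fin 4)) := by
    ext w
    constructor
    · rintro ⟨hw, h⟩
      obtain ⟨m, hm⟩ := (GP_adj v w).1 h
      refine ⟨m, ?_, ?_⟩
      · rw [Finset.mem_coe, Finset.mem_filter, hm]
        exact ⟨Finset.mem_univ _, hw⟩
      · change ev (nbr (ev.symm v) m) = w
        rw [hm, Equiv.apply_symm_apply]
    · rintro ⟨m, hm, rfl⟩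
      rw [Finset.mem_coe, Finset.mem_filter] at hm
      refine ⟨(mem_WP _).2 hm.2, ?_⟩
      rw [GP_adj]
      exact ⟨m, by rw [Equiv.symm_apply_apply]⟩
  rw [this, Set.ncard_image_of_injective, Set.ncard_coe_finset]
  · exact degW _ hv
  · intro m m' h
    exact nbr_inj _ m m' (ev.injective h)

theorem grow_spec (L : List ℕ) (R j : ℕ) (h : (grow L R).testBit j = true) :
    ∃ i ∈ L, R.testBit i = true ∧ (adjM i).testBit j = true := by
  induction L with
  | nil => simp [grow] at h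
  | cons a t ih =>
    have h' : (if R.testBit a then adjM a ||| grow t R else grow t R).testBit j = true := h
    split_ifs at h' with ha
    · rw [Nat.testBit_or, Bool.or_eq_true] at h'
      rcases h' with h' | h'
      · exact ⟨a, List.mem_cons_self, ha, h'⟩
      · obtain ⟨i, hi, h1⟩ := ih h'
        exact ⟨i, List.mem_cons_of_mem _ hi, h1⟩
    · obtain ⟨i, hi, h1⟩ := ih h'
      exact ⟨i, List.mem_cons_of_mem _ hi, h1⟩

theorem reach_spec (L : List ℕ) (P : ℕ) (hL : ∀ i ∈ L, i < 38) (A : Set XP)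
    (hA : ∀ i : Fin 38, ev i ∈ A ↔ P.testBit i.val = true) (u : A) :
    ∀ (n R : ℕ), (∀ i : Fin 38, R.testBit i.val = true →
        ∃ h : ev i ∈ A, (GP.induce A).Reachable u ⟨ev i, h⟩) →
      ∀ i : Fin 38, (reach L P n R).testBit i.val = true →
        ∃ h : ev i ∈ A, (GP.induce A).Reachable u ⟨ev i, h⟩ := by
  intro n
  induction n with
  | zero =>
    intro R h i hi
    exact h i hi
  | succ n ih =>
    intro R h i hi
    rw [reach] at hi
    split_ifs at hi with hc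
    · exact h i hi
    · refine ih _ ?_ i hi
      intro j hj
      rw [Nat.testBit_or, Bool.or_eq_true, Nat.testBit_and, Bool.and_eq_true] at hj
      rcases hj with hj | ⟨hP, hg⟩
      · exact h j hj
      · obtain ⟨k, hk, hR, hadj⟩ := grow_spec L R j.val hg
        obtain ⟨hk1, hreach⟩ := h ⟨k, hL k hk⟩ hR
        have hjA : ev j ∈ A := (hA j).2 hP
        refine ⟨hjA, hreach.trans (SimpleGraph.Adj.reachable ?_)⟩
        change GP.Adj (ev ⟨k, hL k hk⟩) (ev j)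
        rw [GP_adj']
        exact (adjM_iff ⟨k, hL k hk⟩ j).1 hadj

theorem conn_of_reach (L : List ℕ) (P n : ℕ) (s : Fin 38) (hL : ∀ i ∈ L, i < 38) (A : Set XP)
    (hA : ∀ i : Fin 38, ev i ∈ A ↔ P.testBit i.val = true) (hs : P.testBit s.val = true)
    (hr : reach L P n (2 ^ s.val) = P) : (GP.induce A).Connected := by
  have hu : ev s ∈ A := (hA s).2 hs
  rw [SimpleGraph.connected_iff_exists_forall_reachable]
  refine ⟨⟨ev s, hu⟩, ?_⟩
  rintro ⟨w, hw⟩
  obtain ⟨i, rfl⟩ := ev.surjective w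
  have := reach_spec L P hL A hA ⟨ev s, hu⟩ n (2 ^ s.val) (by
    intro j hj
    rw [Nat.testBit_two_pow, decide_eq_true_eq] at hj
    have : s = j := Fin.ext hj
    subst this
    exact ⟨hu, SimpleGraph.Reachable.refl _⟩) i (by rw [hr]; exact (hA i).1 hw)
  exact this.2

theorem lw_lt : ∀ i ∈ lw, i < 38 := by decide
theorem lc_lt : ∀ i ∈ lc, i < 38 := by decide

theorem cmask_bit : ∀ i : Fin 38, ¬ (i.val < 26) ↔ cmask.testBit i.val = true := by decide +kernel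
theorem wmask_bit : ∀ i : Fin 38, i.val < 26 ↔ wmask.testBit i.val = true := by decide +kernel

theorem del_bit (a b : ℕ) (i : Fin 38) :
    (del a b).testBit i.val = true ↔ (i.val < 26 ∧ i.val ≠ a ∧ i.val ≠ b) := by
  have h : (del a b).testBit i.val
      = ((wmask.testBit i.val && (wmask.testBit i.val ^^ decide (a = i.val)))
        && (wmask.testBit i.val ^^ decide (b = i.val))) := by
    rw [del, Nat.testBit_and, Nat.testBit_and, Nat.testBit_xor, Nat.testBit_xor,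
      Nat.testBit_two_pow, Nat.testBit_two_pow]
  rw [wmask_bit, h]
  generalize wmask.testBit i.val = w
  by_cases h1 : a = i.val <;> by_cases h2 : b = i.val <;> cases w <;>
    simp [h1, h2, eq_comm]

theorem seed_lt (a b : ℕ) : seed a b < 26 ∧ seed a b ≠ a ∧ seed a b ≠ b := by
  unfold seed
  split_ifs <;> omega

theorem conn_compl : (GP.induce WPᶜ).Connected := by
  refine conn_of_reach lc cmask 12 26 lc_lt _ ?_ (by decide +kernel) chk_c
  intro i
  rw [Set.mem_compl_iff, mem_WP]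
  exact cmask_bit i

theorem conn_W : (GP.induce WP).Connected := by
  refine conn_of_reach lw wmask 20 0 lw_lt _ ?_ (by decide +kernel) chk_w
  intro i
  rw [mem_WP]
  exact wmask_bit i

theorem conn_del_le (i j : ℕ) (hi : i < 26) (hj : j < 26) (hij : i ≤ j) (A : Set XP)
    (hA : ∀ k : Fin 38, ev k ∈ A ↔ (k.val < 26 ∧ k.val ≠ i ∧ k.val ≠ j)) :
    (GP.induce A).Connected := by
  have hs := seed_lt i j
  have hs' : seed i j < 38 := by omega
  refine conn_of_reach lw (del i j) 20 ⟨seed i j, hs'⟩ lw_lt _ ?_ ?_ ?_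
  · intro k
    rw [hA, del_bit]
  · rw [del_bit]
    exact hs
  · exact chk_del ⟨i, hi⟩ ⟨j, hj⟩ hij

theorem conn_del (i j : ℕ) (hi : i < 26) (hj : j < 26) (A : Set XP)
    (hA : ∀ k : Fin 38, ev k ∈ A ↔ (k.val < 26 ∧ k.val ≠ i ∧ k.val ≠ j)) :
    (GP.induce A).Connected := by
  rcases le_total i j with h | h
  · exact conn_del_le i j hi hj h A hA
  · refine conn_del_le j i hj hi h A ?_
    intro k
    rw [hA]
    tauto

theorem conn3 (X : Set XP) (hX : X ⊆ WP) (hc : X.ncard ≤ 2) : (GP.induce (WP \ X)).Connected := by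
  have : Finite XP := Finite.of_equiv _ ev
  have hfin : X.Finite := Set.toFinite X
  have h3 : X.ncard = 0 ∨ X.ncard = 1 ∨ X.ncard = 2 := by omega
  rcases h3 with h | h | h
  · rw [Set.ncard_eq_zero hfin] at h
    subst h
    rw [Set.sdiff_empty]
    exact conn_W
  · obtain ⟨x, rfl⟩ := Set.ncard_eq_one.1 h
    obtain ⟨i, rfl⟩ := ev.surjective x
    have hi : i.val < 26 := (mem_WP i).1 (hX rfl)
    refine conn_del i.val i.val hi hi _ ?_
    intro k
    rw [Set.mem_sdiff, mem_WP, Set.mem_singleton_iff, ev.injective.eq_iff, Fin.ext_iff]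
    tauto
  · obtain ⟨x, y, -, rfl⟩ := Set.ncard_eq_two.1 h
    obtain ⟨i, rfl⟩ := ev.surjective x
    obtain ⟨j, rfl⟩ := ev.surjective y
    have hi : i.val < 26 := (mem_WP i).1 (hX (Or.inl rfl))
    have hj : j.val < 26 := (mem_WP j).1 (hX (Or.inr rfl))
    refine conn_del i.val j.val hi hj _ ?_
    intro k
    rw [Set.mem_sdiff, mem_WP, Set.mem_insert_iff, Set.mem_singleton_iff, ev.injective.eq_iff,
      ev.injective.eq_iff, Fin.ext_iff, Fin.ext_iff]
    tauto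
noncomputable def pt (i : Fin 38) : ℝ × ℝ := ((px i : ℝ), (py i : ℝ))

noncomputable def fp (w : ↥WP) : ℝ × ℝ := pt (ev.symm w.1)

theorem idx_lt (w : ↥WP) : (ev.symm w.1).val < 26 := w.2

theorem idx_inj (u v : ↥WP) (h : ev.symm u.1 = ev.symm v.1) : u = v :=
  Subtype.ext (ev.symm.injective h)

theorem fp_inj : Function.Injective fp := by
  intro u v h
  apply idx_inj
  have h1 : (px (ev.symm u.1) : ℝ) = px (ev.symm v.1) := congrArg Prod.fst h
  have h2 : (py (ev.symm u.1) : ℝ) = py (ev.symm v.1) := congrArg Prod.snd h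
  exact pos_inj _ _ (idx_lt u) (idx_lt v) (by exact_mod_cast h1) (by exact_mod_cast h2)

noncomputable def segPath (a b : ℝ × ℝ) : Path a b where
  toFun t := ((1 - (t : ℝ)) * a.1 + (t : ℝ) * b.1, (1 - (t : ℝ)) * a.2 + (t : ℝ) * b.2)
  continuous_toFun := by fun_prop
  source' := by simp
  target' := by simp

theorem segPath_fst (a b : ℝ × ℝ) (t : unitInterval) :
    (segPath a b t).1 = (1 - (t : ℝ)) * a.1 + (t : ℝ) * b.1 := rfl
theorem segPath_snd (a b : ℝ × ℝ) (t : unitInterval) :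
    (segPath a b t).2 = (1 - (t : ℝ)) * a.2 + (t : ℝ) * b.2 := rfl

theorem segPath_inj (a b : ℝ × ℝ) (h : a ≠ b) : Function.Injective (segPath a b) := by
  intro s t hst
  have h1 : (1 - (s : ℝ)) * a.1 + (s : ℝ) * b.1 = (1 - (t : ℝ)) * a.1 + (t : ℝ) * b.1 :=
    congrArg Prod.fst hst
  have h2 : (1 - (s : ℝ)) * a.2 + (s : ℝ) * b.2 = (1 - (t : ℝ)) * a.2 + (t : ℝ) * b.2 :=
    congrArg Prod.snd hst
  apply Subtype.ext
  by_contra hne
  have hne' : (s : ℝ) - t ≠ 0 := sub_ne_zero.2 hne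
  apply h
  have e1 : ((s : ℝ) - t) * (b.1 - a.1) = 0 := by linarith
  have e2 : ((s : ℝ) - t) * (b.2 - a.2) = 0 := by linarith
  have f1 := (mul_eq_zero.1 e1).resolve_left hne'
  have f2 := (mul_eq_zero.1 e2).resolve_left hne'
  exact Prod.ext (by linarith) (by linarith)

def oriR (p q r : ℝ × ℝ) : ℝ := (q.1 - p.1) * (r.2 - p.2) - (q.2 - p.2) * (r.1 - p.1)

theorem oriR_pt (i j k : Fin 38) : oriR (pt i) (pt j) (pt k) = (ori i j k : ℝ) := by
  simp only [oriR, pt, ori]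
  push_cast
  ring

theorem oriR_on (a b : ℝ × ℝ) (t : unitInterval) : oriR a b (segPath a b t) = 0 := by
  rw [oriR, segPath_fst, segPath_snd]
  ring

theorem oriR_aff (a b c d : ℝ × ℝ) (t : unitInterval) :
    oriR a b (segPath c d t) = (1 - (t : ℝ)) * oriR a b c + (t : ℝ) * oriR a b d := by
  rw [oriR, segPath_fst, segPath_snd, oriR, oriR]
  ring

theorem no_cross (a b c d : ℝ × ℝ) (s t : unitInterval)
    (h : 0 < oriR a b c * oriR a b d) : segPath a b s ≠ segPath c d t := by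
  intro he
  have h1 := oriR_on a b s
  rw [he, oriR_aff] at h1
  have t0 := t.2.1
  have t1 := t.2.2
  rcases mul_pos_iff.1 h with ⟨hc, hd⟩ | ⟨hc, hd⟩
  · nlinarith [mul_nonneg (sub_nonneg.2 t1) hc.le, mul_nonneg t0 hd.le]
  · nlinarith [mul_nonneg (sub_nonneg.2 t1) (neg_nonneg.2 hc.le), mul_nonneg t0 (neg_nonneg.2 hd.le)]

/-- Two segments from a common point, not collinear, meet only there. -/
theorem share (a b d : ℝ × ℝ) (s t : unitInterval) (h : oriR a b d ≠ 0)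
    (he : segPath a b s = segPath a d t) : segPath a b s = a := by
  have h1 : (1 - (s : ℝ)) * a.1 + (s : ℝ) * b.1 = (1 - (t : ℝ)) * a.1 + (t : ℝ) * d.1 :=
    congrArg Prod.fst he
  have h2 : (1 - (s : ℝ)) * a.2 + (s : ℝ) * b.2 = (1 - (t : ℝ)) * a.2 + (t : ℝ) * d.2 :=
    congrArg Prod.snd he
  have e1 : (s : ℝ) * (b.1 - a.1) = t * (d.1 - a.1) := by linarith
  have e2 : (s : ℝ) * (b.2 - a.2) = t * (d.2 - a.2) := by linarith
  have e3 : (s : ℝ) * oriR a b d = 0 := by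
    unfold oriR
    calc (s : ℝ) * ((b.1 - a.1) * (d.2 - a.2) - (b.2 - a.2) * (d.1 - a.1))
        = ((s : ℝ) * (b.1 - a.1)) * (d.2 - a.2) - ((s : ℝ) * (b.2 - a.2)) * (d.1 - a.1) := by ring
      _ = 0 := by rw [e1, e2]; ring
  have hs : (s : ℝ) = 0 := (mul_eq_zero.1 e3).resolve_right h
  apply Prod.ext
  · rw [segPath_fst, hs]; ring
  · rw [segPath_snd, hs]; ring

theorem segPath_symm (a b : ℝ × ℝ) (t : unitInterval) :
    segPath a b t = segPath b a (unitInterval.symm t) := by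
  apply Prod.ext
  · rw [segPath_fst, segPath_fst, unitInterval.coe_symm_eq]; ring
  · rw [segPath_snd, segPath_snd, unitInterval.coe_symm_eq]; ring

theorem ori_ne' (u v w : ↥WP) (h : GP.Adj u.1 v.1) (h1 : w ≠ u) (h2 : w ≠ v) :
    oriR (fp u) (fp v) (fp w) ≠ 0 := by
  obtain ⟨m, hm⟩ := (GP_adj _ _).1 h
  have := ori_ne (ev.symm u.1) (idx_lt u) m (by rw [hm]; exact idx_lt v) (ev.symm w.1) (idx_lt w)
    (fun e => h1 (idx_inj _ _ e)) (by rw [hm]; exact fun e => h2 (idx_inj _ _ e))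
  rw [hm] at this
  rw [fp, fp, fp, oriR_pt]
  exact_mod_cast this

theorem sep_lt (u v u' v' : ↥WP) (h : GP.Adj u.1 v.1) (h' : GP.Adj u'.1 v'.1)
    (hlt : ev.symm u.1 < ev.symm v.1) (hlt' : ev.symm u'.1 < ev.symm v'.1)
    (h1 : u ≠ u') (h2 : u ≠ v') (h3 : v ≠ u') (h4 : v ≠ v') (a b : unitInterval) :
    segPath (fp u) (fp v) a ≠ segPath (fp u') (fp v') b := by
  obtain ⟨m, hm⟩ := (GP_adj _ _).1 h
  obtain ⟨m', hm'⟩ := (GP_adj _ _).1 h'
  have := ori_sep (ev.symm u.1) (idx_lt u) m (by rw [hm]; exact idx_lt v) (by rw [hm]; exact hlt)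
    (ev.symm u'.1) (idx_lt u') m' (by rw [hm']; exact idx_lt v') (by rw [hm']; exact hlt')
    (fun e => h1 (idx_inj _ _ e)) (by rw [hm']; exact fun e => h2 (idx_inj _ _ e))
    (by rw [hm]; exact fun e => h3 (idx_inj _ _ e))
    (by rw [hm, hm']; exact fun e => h4 (idx_inj _ _ e))
  rw [hm, hm'] at this
  rcases this with h | h
  · refine no_cross _ _ _ _ a b ?_
    rw [fp, fp, fp, fp, oriR_pt, oriR_pt]
    exact_mod_cast h
  · refine (no_cross _ _ _ _ b a ?_).symm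
    rw [fp, fp, fp, fp, oriR_pt, oriR_pt]
    exact_mod_cast h

theorem sep (u v u' v' : ↥WP) (h : GP.Adj u.1 v.1) (h' : GP.Adj u'.1 v'.1)
    (h1 : u ≠ u') (h2 : u ≠ v') (h3 : v ≠ u') (h4 : v ≠ v') (a b : unitInterval) :
    segPath (fp u) (fp v) a ≠ segPath (fp u') (fp v') b := by
  have hne : ev.symm u.1 ≠ ev.symm v.1 := fun e => h.ne (ev.symm.injective e)
  have hne' : ev.symm u'.1 ≠ ev.symm v'.1 := fun e => h'.ne (ev.symm.injective e)
  rcases lt_or_gt_of_ne hne with k | k <;> rcases lt_or_gt_of_ne hne' with k' | k'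
  · exact sep_lt u v u' v' h h' k k' h1 h2 h3 h4 a b
  · rw [segPath_symm (fp u')]
    exact sep_lt u v v' u' h h'.symm k k' h2 h1 h4 h3 a _
  · rw [segPath_symm (fp u)]
    exact sep_lt v u u' v' h.symm h' k k' h3 h4 h1 h2 _ b
  · rw [segPath_symm (fp u), segPath_symm (fp u')]
    exact sep_lt v u v' u' h.symm h'.symm k k' h4 h3 h2 h1 _ _

theorem planar : ∃ f : ↥WP → ℝ × ℝ, Function.Injective f ∧
    ∃ γ : ∀ u v : ↥WP, Path (f u) (f v),
      (∀ u v : ↥WP, GP.Adj u.1 v.1 → Function.Injective (γ u v)) ∧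
      (∀ u v w : ↥WP, GP.Adj u.1 v.1 → ∀ t, γ u v t = f w → w = u ∨ w = v) ∧
      (∀ u v u' v' : ↥WP, GP.Adj u.1 v.1 → GP.Adj u'.1 v'.1 → s(u, v) ≠ s(u', v') →
        ∀ a b, γ u v a = γ u' v' b →
          ∃ w : ↥WP, (w = u ∨ w = v) ∧ (w = u' ∨ w = v') ∧ γ u v a = f w) := by
  refine ⟨fp, fp_inj, fun u v => segPath (fp u) (fp v), ?_, ?_, ?_⟩
  · intro u v h
    apply segPath_inj
    intro e
    exact h.ne (congrArg Subtype.val (fp_inj e))
  · intro u v w h t ht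
    by_contra hcon
    rw [not_or] at hcon
    apply ori_ne' u v w h hcon.1 hcon.2
    rw [← ht]
    exact oriR_on _ _ _
  · intro u v u' v' h h' hne a b hab
    have hab' : segPath (fp u) (fp v) a = segPath (fp u') (fp v') b := hab
    change ∃ w : ↥WP, (w = u ∨ w = v) ∧ (w = u' ∨ w = v') ∧ segPath (fp u) (fp v) a = fp w
    by_cases h1 : u = u'
    · subst h1
      have hv : v' ≠ v := by rintro rfl; exact hne rfl
      have hv2 : v' ≠ u := fun e => h'.ne (congrArg Subtype.val e.symm)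
      exact ⟨u, Or.inl rfl, Or.inl rfl, share _ _ _ a b (ori_ne' u v v' h hv2 hv) hab'⟩
    by_cases h2 : u = v'
    · subst h2
      have hv : u' ≠ v := by rintro rfl; exact hne Sym2.eq_swap
      have hv2 : u' ≠ u := fun e => h1 e.symm
      rw [segPath_symm (fp u')] at hab'
      exact ⟨u, Or.inl rfl, Or.inr rfl, share _ _ _ a _ (ori_ne' u v u' h hv2 hv) hab'⟩
    by_cases h3 : v = u'
    · subst h3
      have hv : v' ≠ u := fun e => h2 e.symm
      have hv2 : v' ≠ v := fun e => h'.ne (congrArg Subtype.val e.symm)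
      rw [segPath_symm (fp u)] at hab' ⊢
      exact ⟨v, Or.inr rfl, Or.inl rfl, share _ _ _ _ b (ori_ne' v u v' h.symm hv2 hv) hab'⟩
    by_cases h4 : v = v'
    · subst h4
      have hv : u' ≠ u := fun e => h1 e.symm
      have hv2 : u' ≠ v := fun e => h3 e.symm
      rw [segPath_symm (fp u)] at hab' ⊢
      rw [segPath_symm (fp u')] at hab'
      exact ⟨v, Or.inr rfl, Or.inr rfl, share _ _ _ _ _ (ori_ne' v u u' h.symm hv2 hv) hab'⟩
    exact absurd hab' (sep u v u' v' h h' h1 h2 h3 h4 a b)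

theorem WP_card : 4 ≤ WP.ncard := by
  have : Finite XP := Finite.of_equiv _ ev
  have hsub : (fun i : Fin 4 => ev ⟨i.val, by omega⟩) '' Set.univ ⊆ WP := by
    rintro _ ⟨i, -, rfl⟩
    rw [mem_WP]
    have := i.isLt
    change i.val < 26
    omega
  have h1 := Set.ncard_le_ncard hsub (Set.toFinite _)
  rw [Set.ncard_image_of_injective, Set.ncard_univ, Nat.card_eq_fintype_card,
    Fintype.card_fin] at h1
  · exact h1
  · intro i j h
    have := congrArg Fin.val (ev.injective h)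
    exact Fin.ext this

theorem aff_dep : (3 : ℝ) • vtx 28 = (2 : ℝ) • vtx 2 + (3 : ℝ) • vtx 6 - (2 : ℝ) • vtx 9
    - (3 : ℝ) • vtx 10 + (3 : ℝ) • vtx 13 := by
  ext r
  have key : ∀ r : Fin 4, (3 : ℝ) * ((num 28 r : ℝ) / (den 28 : ℝ))
      = 2 * ((num 2 r : ℝ) / (den 2 : ℝ)) + 3 * ((num 6 r : ℝ) / (den 6 : ℝ))
        - 2 * ((num 9 r : ℝ) / (den 9 : ℝ)) - 3 * ((num 10 r : ℝ) / (den 10 : ℝ))
        + 3 * ((num 13 r : ℝ) / (den 13 : ℝ)) := by
    have d : den 28 = 15 ∧ den 2 = 10 ∧ den 6 = 5 ∧ den 9 = 10 ∧ den 10 = 5 ∧ den 13 = 5 := by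
      decide +kernel
    have n : ∀ r : Fin 4, num 28 r = num 2 r + 3 * num 6 r - num 9 r
        - 3 * num 10 r + 3 * num 13 r := by decide +kernel
    intro r
    have nr : (num 28 r : ℝ) = (num 2 r : ℝ) + 3 * (num 6 r : ℝ)
        - (num 9 r : ℝ) - 3 * (num 10 r : ℝ) + 3 * (num 13 r : ℝ) := by
      exact_mod_cast n r
    rw [d.1, d.2.1, d.2.2.1, d.2.2.2.1, d.2.2.2.2.1, d.2.2.2.2.2]
    push_cast
    linarith
  simpa [vtx] using key r

theorem int_nonempty : (interior (convexHull ℝ (Sv : Set E4))).Nonempty := by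
  rw [interior_convexHull_nonempty_iff_affineSpan_eq_top]
  have hne : ((affineSpan ℝ (Sv : Set E4) : AffineSubspace ℝ E4) : Set E4).Nonempty :=
    ⟨vtx 0, subset_affineSpan ℝ _ (by rw [coe_Sv]; exact ⟨0, rfl⟩)⟩
  rw [← AffineSubspace.direction_eq_top_iff_of_nonempty hne, direction_affineSpan, eq_top_iff]
  intro w _
  rw [cone_id 0 w]
  refine Submodule.sum_mem _ fun m _ => Submodule.smul_mem _ _ ?_
  refine vsub_mem_vectorSpan ℝ ?_ ?_
  · rw [coe_Sv]; exact ⟨_, rfl⟩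
  · rw [coe_Sv]; exact ⟨_, rfl⟩

/-- The vertex set `WP` is not the set of vertices on a supporting hyperplane cutting out a
three dimensional face. -/
theorem not_facet : ¬ ∃ (l : E4 →L[ℝ] ℝ) (c : ℝ),
    (∀ x ∈ convexHull ℝ (Sv : Set E4), l x ≤ c) ∧
    Module.finrank ℝ (affineSpan ℝ
      {x | x ∈ convexHull ℝ (Sv : Set E4) ∧ l x = c}).direction = 3 ∧
    ∀ v : XP, v ∈ WP ↔ l (v : E4) = c := by
  rintro ⟨l, c, -, -, hW⟩
  have hin : ∀ i : Fin 38, i.val < 26 ↔ l (vtx i) = c := by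
    intro i
    rw [← mem_WP, hW, ev_val]
  have h28 : ¬ ((28 : Fin 38).val < 26) := by decide
  apply h28
  rw [hin]
  have h := congrArg l aff_dep
  simp only [map_add, map_sub, map_smul, smul_eq_mul] at h
  rw [(hin 2).1 (by decide), (hin 6).1 (by decide), (hin 9).1 (by decide),
    (hin 10).1 (by decide), (hin 13).1 (by decide)] at h
  linarith

/-- The negation of the preceding statement: For every simple 4-polytope, a vertex set spans a facet iff its induced subgraph has non-separating vertex set, is 3-regular, 3-connected and planar. -/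
theorem result :
    ¬ (∀ (S : Finset (EuclideanSpace ℝ (Fin 4))),
    (interior (convexHull ℝ (S : Set (EuclideanSpace ℝ (Fin 4))))).Nonempty →
    ∀ (G : SimpleGraph ↥(Set.extremePoints ℝ (convexHull ℝ (S : Set (EuclideanSpace ℝ (Fin 4)))))),
      (∀ u v, G.Adj u v ↔ (u ≠ v ∧ ∃ (l : EuclideanSpace ℝ (Fin 4) →L[ℝ] ℝ) (c : ℝ),
          (∀ x ∈ convexHull ℝ (S : Set (EuclideanSpace ℝ (Fin 4))), l x ≤ c) ∧
          {x | x ∈ convexHull ℝ (S : Set (EuclideanSpace ℝ (Fin 4))) ∧ l x = c}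
            = segment ℝ (u : EuclideanSpace ℝ (Fin 4)) (v : EuclideanSpace ℝ (Fin 4)))) →
      (∀ v, (G.neighborSet v).ncard = 4) →
      ∀ W : Set ↥(Set.extremePoints ℝ (convexHull ℝ (S : Set (EuclideanSpace ℝ (Fin 4))))),
        ((∃ (l : EuclideanSpace ℝ (Fin 4) →L[ℝ] ℝ) (c : ℝ),
            (∀ x ∈ convexHull ℝ (S : Set (EuclideanSpace ℝ (Fin 4))), l x ≤ c) ∧
            Module.finrank ℝ (affineSpan ℝ
              {x | x ∈ convexHull ℝ (S : Set (EuclideanSpace ℝ (Fin 4))) ∧ l x = c}).direction = 3 ∧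
            W = {v | l (v : EuclideanSpace ℝ (Fin 4)) = c}) ↔
          ((G.induce Wᶜ).Connected ∧
           (∀ v ∈ W, {w | w ∈ W ∧ G.Adj v w}.ncard = 3) ∧
           4 ≤ W.ncard ∧
           (∀ X ⊆ W, X.ncard ≤ 2 → (G.induce (W \ X)).Connected) ∧
           (∃ f : ↥W → ℝ × ℝ, Function.Injective f ∧
             ∃ γ : ∀ u v : ↥W, Path (f u) (f v),
               (∀ u v : ↥W, G.Adj u.1 v.1 → Function.Injective (γ u v)) ∧
               (∀ u v w : ↥W, G.Adj u.1 v.1 → ∀ t, γ u v t = f w → w = u ∨ w = v) ∧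
               (∀ u v u' v' : ↥W, G.Adj u.1 v.1 → G.Adj u'.1 v'.1 → s(u, v) ≠ s(u', v') →
                 ∀ a b, γ u v a = γ u' v' b →
                   ∃ w : ↥W, (w = u ∨ w = v) ∧ (w = u' ∨ w = v') ∧ γ u v a = f w))))) := by
  intro hall
  have h := hall Sv int_nonempty GP GP_spec GP_deg WP
  apply not_facet
  obtain ⟨l, c, hle, hdim, hW⟩ := h.2 ⟨conn_compl, WP_deg, WP_card, conn3, planar⟩
  refine ⟨l, c, hle, hdim, fun v => ⟨fun hv => ?_, fun hv => ?_⟩⟩
  · have : (v : E4) ∈ Subtype.val '' WP := ⟨v, hv, rfl⟩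
    rw [hW] at this
    exact this
  · have : (v : E4) ∈ {y : E4 | l y = c} := hv
    rw [← hW] at this
    obtain ⟨w, hw, hwv⟩ := this
    rw [← Subtype.ext hwv]
    exact hw

end Pool.Agent.S06906
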