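import Pool.Statements.S06914

set_option autoImplicit false
open Pool Pool.MP_b23e6d_co

namespace Pool.Agent.S06914

/-- Vertex type: path vertices `w (i,j)`, pendant vertices `x (i,j)`, dominating vertices `u j`. -/
abbrev V (m : ℕ) : Type := (Fin m × Fin m) ⊕ ((Fin m × Fin m) ⊕ Fin m)

/-- Adjacency: rows of the `w` are paths, `x (i,j)` hangs at `w (i,j)`, and `u j` is joined to
every `w`, every other `u` and every `x (i,j')` with `j' ≤ j`. -/
def adjV {m : ℕ} : V m → V m → Prop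
  | .inl p, .inl q => p.1 = q.1 ∧ (p.2.val + 1 = q.2.val ∨ q.2.val + 1 = p.2.val)
  | .inl p, .inr (.inl q) => p = q
  | .inr (.inl p), .inl q => q = p
  | .inl _, .inr (.inr _) => True
  | .inr (.inr _), .inl _ => True
  | .inr (.inl _), .inr (.inl _) => False
  | .inr (.inl p), .inr (.inr j) => p.2 ≤ j
  | .inr (.inr j), .inr (.inl p) => p.2 ≤ j
  | .inr (.inr j), .inr (.inr j') => j ≠ j'

/-- The graph. -/
def Gam (m : ℕ) : SimpleGraph (V m) where
  Adj := adjV
  symm := ⟨by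
    rintro (p | p | j) (q | q | j') h <;> simp only [adjV] at h ⊢
    · exact ⟨h.1.symm, h.2.symm⟩
    · exact h
    · exact h
    · exact h
    · exact h
    · exact h.symm⟩
  loopless := ⟨by
    rintro (p | p | j) h <;> simp only [adjV] at h
    · omega
    · exact h rfl⟩

/-- Rank of a vertex in the order of construction. -/
def rk {m : ℕ} : V m → ℕ
  | .inl p => p.2.val
  | .inr (.inl p) => m + 2 * p.2.val
  | .inr (.inr j) => m + 2 * j.val + 1

lemma key {m : ℕ} (v : V m) :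
    (∀ v', rk v' ≤ rk v → v' ≠ v → (Gam m).Adj v v') ∨
    (∃ p, ∀ v', rk v' ≤ rk v → (Gam m).Adj v v' → v' = p) := by
  rcases v with ⟨i, j⟩ | ⟨i, j⟩ | j
  · right
    refine ⟨.inl (i, ⟨j.val - 1, by omega⟩), ?_⟩
    rintro (⟨i', j'⟩ | ⟨i', j'⟩ | j') hr ha
    · simp only [Gam, adjV, rk] at hr ha
      obtain ⟨h1, h2⟩ := ha
      subst h1
      congr 2
      ext
      simp only
      omega
    · simp only [rk] at hr
      omega
    · simp only [rk] at hr
      omega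
  · right
    refine ⟨.inl (i, j), ?_⟩
    rintro (⟨i', j'⟩ | ⟨i', j'⟩ | j') hr ha
    · simp only [Gam, adjV] at ha
      rw [ha]
    · simp only [Gam, adjV] at ha
    · simp only [Gam, adjV, rk, Fin.le_def] at hr ha
      omega
  · left
    rintro (⟨i', j'⟩ | ⟨i', j'⟩ | j') hr hne
    · simp only [Gam, adjV]
    · simp only [Gam, adjV, rk, Fin.le_def] at hr ⊢
      omega
    · simp only [Gam, adjV]
      intro h
      exact hne (by rw [h])

/-- No graph embedded in `Gam m` is both 2-connected and prime. -/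
lemma not_two_connected_prime {n m : ℕ} (G : SimpleGraph (Fin n)) (φ : G ↪g Gam m)
    (h1 : 3 ≤ n ∧ G.Connected ∧ ∀ v : Fin n, (G.induce {w | w ≠ v}).Connected)
    (h2 : 3 ≤ n ∧ ∀ M : Set (Fin n),
      (∀ x, x ∉ M → ∀ y ∈ M, ∀ z ∈ M, (G.Adj x y ↔ G.Adj x z)) →
      M.Subsingleton ∨ M = Set.univ) : False := by
  obtain ⟨hn, hc, hcv⟩ := h1
  obtain ⟨-, hM⟩ := h2
  have : NeZero n := ⟨by omega⟩
  obtain ⟨v, -, hv⟩ := Finset.exists_max_image (Finset.univ : Finset (Fin n))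
    (fun a => rk (φ a)) ⟨0, Finset.mem_univ _⟩
  have hv' : ∀ a, rk (φ a) ≤ rk (φ v) := fun a => hv a (Finset.mem_univ _)
  rcases key (φ v) with h | ⟨p, hp⟩
  · have hdom : ∀ a, a ≠ v → G.Adj v a := by
      intro a ha
      rw [← φ.map_adj_iff]
      exact h _ (hv' a) (fun he => ha (φ.injective he))
    have := hM {a | a ≠ v} (by
      intro x hx y hy z hz
      simp only [Set.mem_ofPred_eq, ne_eq, not_not] at hx
      subst hx
      exact ⟨fun _ => hdom z hz, fun _ => hdom y hy⟩)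
    rcases this with hs | hu
    · -- two distinct vertices different from v
      have hcard : 1 < (Finset.univ.erase v).card := by
        rw [Finset.card_erase_of_mem (Finset.mem_univ _), Finset.card_univ, Fintype.card_fin]
        omega
      obtain ⟨a, ha, b, hb, hab⟩ := Finset.one_lt_card.mp hcard
      exact hab (hs (by simpa using ha) (by simpa using hb))
    · have : v ∈ ({a | a ≠ v} : Set (Fin n)) := by rw [hu]; trivial
      exact this rfl
  · -- v has at most one neighbour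
    have hone : ∀ a b, G.Adj v a → G.Adj v b → a = b := by
      intro a b ha hb
      apply φ.injective
      rw [hp _ (hv' a) (φ.map_adj_iff.mpr ha), hp _ (hv' b) (φ.map_adj_iff.mpr hb)]
    have hcard : 0 < (Finset.univ.erase v).card := by
      rw [Finset.card_erase_of_mem (Finset.mem_univ _), Finset.card_univ, Fintype.card_fin]
      omega
    obtain ⟨c, hc'⟩ := Finset.card_pos.mp hcard
    have hcv' : c ≠ v := by simpa using hc'
    -- v has a neighbour since G is connected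
    obtain ⟨a, ha⟩ : ∃ a, G.Adj v a := by
      have : Nontrivial (Fin n) := ⟨⟨c, v, hcv'⟩⟩
      exact hc.preconnected.exists_adj_of_nontrivial v
    have hav : v ≠ a := ha.ne
    -- another vertex d different from v and a
    have hcard2 : 0 < ((Finset.univ.erase v).erase a).card := by
      rw [Finset.card_erase_of_mem (by simpa using hav.symm),
        Finset.card_erase_of_mem (Finset.mem_univ _), Finset.card_univ, Fintype.card_fin]
      omega
    obtain ⟨d, hd⟩ := Finset.card_pos.mp hcard2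
    have hda : d ≠ a := by simp at hd; exact hd.1
    have hdv : d ≠ v := by simp at hd; exact hd.2
    have hconn := hcv a
    have : Nontrivial ({w | w ≠ a} : Set (Fin n)) :=
      ⟨⟨⟨d, hda⟩, ⟨v, hav⟩, fun h => hdv (congrArg Subtype.val h)⟩⟩
    obtain ⟨b, hb⟩ := hconn.preconnected.exists_adj_of_nontrivial ⟨v, hav⟩
    have hb' : G.Adj v b.1 := hb
    exact b.2 (hone _ _ hb' ha)


/-- Pigeonhole form of the bound on the number of neighbourhood types. -/
lemma types_bound {k m : ℕ} (A : Set (V m)) (f : V m → Fin k)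
    (hf : ∀ a ∈ A, ∀ a' ∈ A, f a = f a' → ∀ b, b ∉ A → ((Gam m).Adj a b ↔ (Gam m).Adj a' b))
    (T : Finset (Fin m)) (g : Fin m → V m) (hg : ∀ i ∈ T, g i ∈ A)
    (hd : ∀ i ∈ T, ∀ i' ∈ T, i < i' →
      ∃ b, b ∉ A ∧ ¬ ((Gam m).Adj (g i) b ↔ (Gam m).Adj (g i') b)) : T.card ≤ k := by
  have hinj : Set.InjOn (fun i => f (g i)) T := by
    intro i hi i' hi' h
    by_contra hne
    rcases lt_or_gt_of_ne hne with hlt | hlt
    · obtain ⟨b, hb, hb'⟩ := hd i hi i' hi' hlt
      exact hb' (hf _ (hg i hi) _ (hg i' hi') h b hb)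
    · obtain ⟨b, hb, hb'⟩ := hd i' hi' i hi hlt
      exact hb' (hf _ (hg i' hi') _ (hg i hi) h.symm b hb)
  have := Finset.card_le_card_of_injOn (t := (Finset.univ : Finset (Fin k))) (fun i => f (g i))
    (fun i _ => Finset.mem_univ _) hinj
  simpa using this

/-- A discrete crossing argument in a row. -/
lemma crossing {m : ℕ} (A : Set (V m)) (i : Fin m) (j j' : Fin m)
    (h1 : (Sum.inl (i, j) : V m) ∈ A) (h2 : (Sum.inl (i, j') : V m) ∉ A) :
    ∃ c d : Fin m, (c.val + 1 = d.val ∨ d.val + 1 = c.val) ∧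
      (Sum.inl (i, c) : V m) ∈ A ∧ (Sum.inl (i, d) : V m) ∉ A := by
  by_contra hcon
  push Not at hcon
  -- membership is constant along the row
  have hstep : ∀ c d : Fin m, c.val + 1 = d.val →
      ((Sum.inl (i, c) : V m) ∈ A ↔ (Sum.inl (i, d) : V m) ∈ A) := by
    intro c d hcd
    exact ⟨fun h => hcon c d (Or.inl hcd) h, fun h => hcon d c (Or.inr hcd) h⟩
  have hall : ∀ (s : ℕ) (hs : s < m), ((Sum.inl (i, ⟨s, hs⟩) : V m) ∈ A ↔
      (Sum.inl (i, ⟨0, by omega⟩) : V m) ∈ A) := by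
    intro s
    induction s with
    | zero => intro hs; exact Iff.rfl
    | succ s ih =>
      intro hs
      rw [← ih (by omega)]
      exact (hstep ⟨s, by omega⟩ ⟨s + 1, hs⟩ rfl).symm
  exact h2 ((hall j'.val j'.isLt).mpr ((hall j.val j.isLt).mp h1))

open Classical in
lemma no_cut {k m : ℕ} (hm : m = 4 * k + 4) (A : Set (V m)) (f : V m → Fin k)
    (hf : ∀ a ∈ A, ∀ a' ∈ A, f a = f a' → ∀ b, b ∉ A → ((Gam m).Adj a b ↔ (Gam m).Adj a' b))
    (h1 : (Finset.univ.filter (fun p : Fin m × Fin m => (Sum.inl p : V m) ∈ A)).card ≤ m * m / 2)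
    (h2 : m * m / 2 <
      2 * (Finset.univ.filter (fun p : Fin m × Fin m => (Sum.inl p : V m) ∈ A)).card) :
    False := by
  -- rows meeting A, rows meeting the complement
  set RA : Finset (Fin m) := Finset.univ.filter (fun i => ∃ j, (Sum.inl (i, j) : V m) ∈ A) with hRA
  set RB : Finset (Fin m) := Finset.univ.filter (fun i => ∃ j, (Sum.inl (i, j) : V m) ∉ A) with hRB
  -- few mixed rows
  have hmix : (RA ∩ RB).card ≤ k := by
    have hex : ∀ i : Fin m, ∃ c d : Fin m, i ∈ RA ∩ RB →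
        (c.val + 1 = d.val ∨ d.val + 1 = c.val) ∧
        (Sum.inl (i, c) : V m) ∈ A ∧ (Sum.inl (i, d) : V m) ∉ A := by
      intro i
      by_cases hi : i ∈ RA ∩ RB
      · rw [Finset.mem_inter, hRA, hRB, Finset.mem_filter, Finset.mem_filter] at hi
        obtain ⟨⟨-, j, hj⟩, ⟨-, j', hj'⟩⟩ := hi
        obtain ⟨c, d, h⟩ := crossing A i j j' hj hj'
        exact ⟨c, d, fun _ => h⟩
      · exact ⟨i, i, fun h => absurd h hi⟩
    choose c d hcd using hex
    apply types_bound A f hf (RA ∩ RB) (fun i => Sum.inl (i, c i))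
    · intro i hi
      exact (hcd i hi).2.1
    · intro i hi i' hi' hlt
      refine ⟨Sum.inl (i, d i), (hcd i hi).2.2, ?_⟩
      have hn : ¬ (Gam m).Adj (Sum.inl (i', c i')) (Sum.inl (i, d i)) := by
        intro h
        simp only [Gam, adjV] at h
        exact (ne_of_gt hlt) h.1
      have hy : (Gam m).Adj (Sum.inl (i, c i)) (Sum.inl (i, d i)) := by
        simp only [Gam, adjV]
        exact ⟨trivial, (hcd i hi).1⟩
      intro h
      exact hn (h.mp hy)
  -- counting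
  have hmm : m * m / 2 = (2 * k + 2) * m := by
    have : m * m = 2 * ((2 * k + 2) * m) := by
      calc m * m = (4 * k + 4) * m := by rw [← hm]
        _ = 2 * ((2 * k + 2) * m) := by ring
    omega
  have hmpos : 0 < m := by omega
  have hcA : (Finset.univ.filter (fun p : Fin m × Fin m => (Sum.inl p : V m) ∈ A)).card ≤
      RA.card * m := by
    have hsub : Finset.univ.filter (fun p : Fin m × Fin m => (Sum.inl p : V m) ∈ A) ⊆
        RA ×ˢ (Finset.univ : Finset (Fin m)) := by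
      rintro ⟨i, j⟩ hp
      simp only [Finset.mem_filter, Finset.mem_univ, true_and] at hp
      simp only [Finset.mem_product, Finset.mem_univ, and_true, hRA, Finset.mem_filter, true_and]
      exact ⟨j, hp⟩
    have := Finset.card_le_card hsub
    simpa [Finset.card_product] using this
  have hcB : (Finset.univ.filter (fun p : Fin m × Fin m => ¬ (Sum.inl p : V m) ∈ A)).card ≤
      RB.card * m := by
    have hsub : Finset.univ.filter (fun p : Fin m × Fin m => ¬ (Sum.inl p : V m) ∈ A) ⊆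
        RB ×ˢ (Finset.univ : Finset (Fin m)) := by
      rintro ⟨i, j⟩ hp
      simp only [Finset.mem_filter, Finset.mem_univ, true_and] at hp
      simp only [Finset.mem_product, Finset.mem_univ, and_true, hRB, Finset.mem_filter, true_and]
      exact ⟨j, hp⟩
    have := Finset.card_le_card hsub
    simpa [Finset.card_product] using this
  have hsum : (Finset.univ.filter (fun p : Fin m × Fin m => (Sum.inl p : V m) ∈ A)).card +
      (Finset.univ.filter (fun p : Fin m × Fin m => ¬ (Sum.inl p : V m) ∈ A)).card = m * m := by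
    rw [Finset.card_filter_add_card_filter_not]
    simp
  have hmm2 : m * m = 2 * ((2 * k + 2) * m) := by
    calc m * m = (4 * k + 4) * m := by rw [← hm]
      _ = 2 * ((2 * k + 2) * m) := by ring
  have hRAk : k < RA.card := by
    by_contra hle
    have hle' : RA.card ≤ k := not_lt.mp hle
    have h3 : RA.card * m ≤ k * m := Nat.mul_le_mul_right m hle'
    have h4 : (2 * k + 2) * m = 2 * (k * m) + 2 * m := by ring
    omega
  have hRBk : k < RB.card := by
    by_contra hle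
    have hle' : RB.card ≤ k := not_lt.mp hle
    have h3 : RB.card * m ≤ k * m := Nat.mul_le_mul_right m hle'
    have h4 : (2 * k + 2) * m = 2 * (k * m) + 2 * m := by ring
    omega
  -- a row inside A
  obtain ⟨iA, hiA, hiA'⟩ : ∃ i ∈ RA, i ∉ RA ∩ RB := by
    by_contra hcon
    push Not at hcon
    have : RA.card ≤ (RA ∩ RB).card := Finset.card_le_card hcon
    omega
  obtain ⟨iB, hiB, hiB'⟩ : ∃ i ∈ RB, i ∉ RA ∩ RB := by
    by_contra hcon
    push Not at hcon
    have : RB.card ≤ (RA ∩ RB).card := Finset.card_le_card hcon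
    omega
  have hA : ∀ j, (Sum.inl (iA, j) : V m) ∈ A := by
    intro j
    by_contra hj
    apply hiA'
    rw [Finset.mem_inter]
    refine ⟨hiA, ?_⟩
    simp only [hRB, Finset.mem_filter, Finset.mem_univ, true_and]
    exact ⟨j, hj⟩
  have hB : ∀ j, (Sum.inl (iB, j) : V m) ∉ A := by
    intro j hj
    apply hiB'
    rw [Finset.mem_inter]
    refine ⟨?_, hiB⟩
    simp only [hRA, Finset.mem_filter, Finset.mem_univ, true_and]
    exact ⟨j, hj⟩
  -- pendant vertices on the wrong side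
  have hXA : (Finset.univ.filter
      (fun j : Fin m => (Sum.inr (Sum.inl (iA, j)) : V m) ∉ A)).card ≤ k := by
    apply types_bound A f hf _ (fun j => Sum.inl (iA, j))
    · intro j _
      exact hA j
    · intro j hj j' _ hlt
      simp only [Finset.mem_filter, Finset.mem_univ, true_and] at hj
      refine ⟨_, hj, ?_⟩
      simp only [Gam, adjV, true_iff]
      intro h
      rw [Prod.mk.injEq] at h
      exact (ne_of_gt hlt) h.2
  have hXB : (Finset.univ.filter
      (fun j : Fin m => (Sum.inr (Sum.inl (iB, j)) : V m) ∈ A)).card ≤ k := by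
    apply types_bound A f hf _ (fun j => Sum.inr (Sum.inl (iB, j)))
    · intro j hj
      simpa only [Finset.mem_filter, Finset.mem_univ, true_and] using hj
    · intro j _ j' _ hlt
      refine ⟨_, hB j, ?_⟩
      simp only [Gam, adjV, true_iff]
      intro h
      rw [Prod.mk.injEq] at h
      exact (ne_of_lt hlt) h.2
  have hUA : (Finset.univ.filter
      (fun j : Fin m => (Sum.inr (Sum.inl (iB, j)) : V m) ∉ A ∧
        (Sum.inr (Sum.inr j) : V m) ∈ A)).card ≤ k := by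
    apply types_bound A f hf _ (fun j => Sum.inr (Sum.inr j))
    · intro j hj
      simp only [Finset.mem_filter, Finset.mem_univ, true_and] at hj
      exact hj.2
    · intro j hj j' hj' hlt
      simp only [Finset.mem_filter, Finset.mem_univ, true_and] at hj'
      refine ⟨_, hj'.1, ?_⟩
      simp only [Gam, adjV]
      intro h
      exact absurd (h.mpr le_rfl) (not_le.mpr hlt)
  have hUB : (Finset.univ.filter
      (fun j : Fin m => (Sum.inr (Sum.inl (iA, j)) : V m) ∈ A ∧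
        (Sum.inr (Sum.inr j) : V m) ∉ A)).card ≤ k := by
    apply types_bound A f hf _ (fun j => Sum.inr (Sum.inl (iA, j)))
    · intro j hj
      simp only [Finset.mem_filter, Finset.mem_univ, true_and] at hj
      exact hj.1
    · intro j hj j' hj' hlt
      simp only [Finset.mem_filter, Finset.mem_univ, true_and] at hj
      refine ⟨_, hj.2, ?_⟩
      simp only [Gam, adjV]
      intro h
      exact absurd (h.mp le_rfl) (not_le.mpr hlt)
  have hcover : (Finset.univ : Finset (Fin m)) ⊆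
      ((Finset.univ.filter (fun j : Fin m => (Sum.inr (Sum.inl (iA, j)) : V m) ∉ A)) ∪
       (Finset.univ.filter (fun j : Fin m => (Sum.inr (Sum.inl (iB, j)) : V m) ∈ A))) ∪
      ((Finset.univ.filter (fun j : Fin m => (Sum.inr (Sum.inl (iB, j)) : V m) ∉ A ∧
        (Sum.inr (Sum.inr j) : V m) ∈ A)) ∪
       (Finset.univ.filter (fun j : Fin m => (Sum.inr (Sum.inl (iA, j)) : V m) ∈ A ∧
        (Sum.inr (Sum.inr j) : V m) ∉ A))) := by
    intro j _
    simp only [Finset.mem_union, Finset.mem_filter, Finset.mem_univ, true_and]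
    tauto
  have hc := Finset.card_le_card hcover
  rw [Finset.card_univ, Fintype.card_fin] at hc
  have h5 := Finset.card_union_le
    ((Finset.univ.filter (fun j : Fin m => (Sum.inr (Sum.inl (iA, j)) : V m) ∉ A)) ∪
       (Finset.univ.filter (fun j : Fin m => (Sum.inr (Sum.inl (iB, j)) : V m) ∈ A)))
    ((Finset.univ.filter (fun j : Fin m => (Sum.inr (Sum.inl (iB, j)) : V m) ∉ A ∧
        (Sum.inr (Sum.inr j) : V m) ∈ A)) ∪
       (Finset.univ.filter (fun j : Fin m => (Sum.inr (Sum.inl (iA, j)) : V m) ∈ A ∧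
        (Sum.inr (Sum.inr j) : V m) ∉ A)))
  have h6 := Finset.card_union_le
    (Finset.univ.filter (fun j : Fin m => (Sum.inr (Sum.inl (iA, j)) : V m) ∉ A))
    (Finset.univ.filter (fun j : Fin m => (Sum.inr (Sum.inl (iB, j)) : V m) ∈ A))
  have h7 := Finset.card_union_le
    (Finset.univ.filter (fun j : Fin m => (Sum.inr (Sum.inl (iB, j)) : V m) ∉ A ∧
        (Sum.inr (Sum.inr j) : V m) ∈ A))
    (Finset.univ.filter (fun j : Fin m => (Sum.inr (Sum.inl (iA, j)) : V m) ∈ A ∧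
        (Sum.inr (Sum.inr j) : V m) ∉ A))
  omega

/-- The property of labelled graphs that every graph built with `k` labels has: a cut that
splits the set `W` in a balanced way and has at most `k` neighbourhood types. -/
def Cuttable (k t : ℕ) (W : Finset ℕ) (S : Finset ℕ) (H : SimpleGraph ℕ) (l : ℕ → Fin k) : Prop :=
  (∀ a b, H.Adj a b → a ∈ S ∧ b ∈ S) ∧
  (t < (S ∩ W).card → ∃ A, A ⊆ S ∧ (A ∩ W).card ≤ t ∧ t < 2 * (A ∩ W).card ∧
    ∃ f : ℕ → Fin k, ∀ a ∈ A, ∀ a' ∈ A, f a = f a' →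
      l a = l a' ∧ ∀ b ∈ S, b ∉ A → (H.Adj a b ↔ H.Adj a' b))

lemma cuttable_small {k t : ℕ} (ht : 1 ≤ t) (W S : Finset ℕ) (hS : S.card ≤ 1)
    (l : ℕ → Fin k) : Cuttable k t W S ⊥ l := by
  refine ⟨fun a b h => absurd h (by simp), fun h => ?_⟩
  have := Finset.card_le_card (Finset.inter_subset_left (s₁ := S) (s₂ := W))
  omega

lemma cuttable_union_left {k t : ℕ} (W S₁ S₂ : Finset ℕ) (H₁ H₂ : SimpleGraph ℕ)
    (l : ℕ → Fin k) (l₁ : ℕ → Fin k) (hl : ∀ v ∈ S₁, l v = l₁ v)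
    (s₁ : ∀ a b, H₁.Adj a b → a ∈ S₁ ∧ b ∈ S₁) (s₂ : ∀ a b, H₂.Adj a b → a ∈ S₂ ∧ b ∈ S₂)
    (hd : Disjoint S₁ S₂)
    (h : ∃ A, A ⊆ S₁ ∧ (A ∩ W).card ≤ t ∧ t < 2 * (A ∩ W).card ∧
      ∃ f : ℕ → Fin k, ∀ a ∈ A, ∀ a' ∈ A, f a = f a' →
      l₁ a = l₁ a' ∧ ∀ b ∈ S₁, b ∉ A → (H₁.Adj a b ↔ H₁.Adj a' b)) :
    ∃ A, A ⊆ S₁ ∪ S₂ ∧ (A ∩ W).card ≤ t ∧ t < 2 * (A ∩ W).card ∧
      ∃ f : ℕ → Fin k, ∀ a ∈ A, ∀ a' ∈ A, f a = f a' →
      l a = l a' ∧ ∀ b ∈ S₁ ∪ S₂, b ∉ A → ((H₁ ⊔ H₂).Adj a b ↔ (H₁ ⊔ H₂).Adj a' b) := by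
  obtain ⟨A, hA, h1, h2, f, hf⟩ := h
  refine ⟨A, hA.trans Finset.subset_union_left, h1, h2, f, ?_⟩
  intro a ha a' ha' hff
  obtain ⟨h3, h4⟩ := hf a ha a' ha' hff
  refine ⟨by rw [hl a (hA ha), hl a' (hA ha'), h3], ?_⟩
  intro b hb hbA
  have hna : ∀ c ∈ A, ∀ d, ¬ H₂.Adj c d := fun c hc d hcd =>
    (Finset.disjoint_left.mp hd) (hA hc) (s₂ c d hcd).1
  simp only [SimpleGraph.sup_adj, hna a ha b, hna a' ha' b, or_false]
  by_cases hb1 : b ∈ S₁
  · exact h4 b hb1 hbA
  · exact ⟨fun h => absurd (s₁ _ _ h).2 hb1, fun h => absurd (s₁ _ _ h).2 hb1⟩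

lemma cuttable_whole {k t : ℕ} (W S₁ : Finset ℕ) (H₁ : SimpleGraph ℕ)
    (l₁ : ℕ → Fin k) (h1 : (S₁ ∩ W).card ≤ t) (h2 : t < 2 * (S₁ ∩ W).card) :
    ∃ A, A ⊆ S₁ ∧ (A ∩ W).card ≤ t ∧ t < 2 * (A ∩ W).card ∧
      ∃ f : ℕ → Fin k, ∀ a ∈ A, ∀ a' ∈ A, f a = f a' →
      l₁ a = l₁ a' ∧ ∀ b ∈ S₁, b ∉ A → (H₁.Adj a b ↔ H₁.Adj a' b) := by
  refine ⟨S₁, Finset.Subset.refl _, h1, h2, l₁, ?_⟩
  intro a _ a' _ h
  exact ⟨h, fun b hb hb' => absurd hb hb'⟩

lemma cuttable_union {k t : ℕ} (W S₁ S₂ : Finset ℕ) (H₁ H₂ : SimpleGraph ℕ)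
    (l₁ l₂ : ℕ → Fin k) (h₁ : Cuttable k t W S₁ H₁ l₁) (h₂ : Cuttable k t W S₂ H₂ l₂)
    (hd : Disjoint S₁ S₂) :
    Cuttable k t W (S₁ ∪ S₂) (H₁ ⊔ H₂) (fun v => if v ∈ S₁ then l₁ v else l₂ v) := by
  obtain ⟨s₁, c₁⟩ := h₁
  obtain ⟨s₂, c₂⟩ := h₂
  refine ⟨?_, ?_⟩
  · intro a b hab
    rw [SimpleGraph.sup_adj] at hab
    rcases hab with h | h
    · exact ⟨Finset.mem_union_left _ (s₁ _ _ h).1, Finset.mem_union_left _ (s₁ _ _ h).2⟩
    · exact ⟨Finset.mem_union_right _ (s₂ _ _ h).1, Finset.mem_union_right _ (s₂ _ _ h).2⟩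
  intro ht
  have hl1 : ∀ v ∈ S₁, (if v ∈ S₁ then l₁ v else l₂ v) = l₁ v := fun v hv => if_pos hv
  have hl2 : ∀ v ∈ S₂, (if v ∈ S₁ then l₁ v else l₂ v) = l₂ v := fun v hv =>
    if_neg (fun h => (Finset.disjoint_left.mp hd) h hv)
  have hcard : ((S₁ ∪ S₂) ∩ W).card = (S₁ ∩ W).card + (S₂ ∩ W).card := by
    rw [Finset.union_inter_distrib_right, Finset.card_union_of_disjoint]
    exact Finset.disjoint_of_subset_left Finset.inter_subset_left
      (Finset.disjoint_of_subset_right Finset.inter_subset_left hd)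
  have left : (∃ A, A ⊆ S₁ ∧ (A ∩ W).card ≤ t ∧ t < 2 * (A ∩ W).card ∧
      ∃ f : ℕ → Fin k, ∀ a ∈ A, ∀ a' ∈ A, f a = f a' →
      l₁ a = l₁ a' ∧ ∀ b ∈ S₁, b ∉ A → (H₁.Adj a b ↔ H₁.Adj a' b)) → _ :=
    cuttable_union_left W S₁ S₂ H₁ H₂ (fun v => if v ∈ S₁ then l₁ v else l₂ v) l₁ hl1 s₁ s₂ hd
  have right : (∃ A, A ⊆ S₂ ∧ (A ∩ W).card ≤ t ∧ t < 2 * (A ∩ W).card ∧
      ∃ f : ℕ → Fin k, ∀ a ∈ A, ∀ a' ∈ A, f a = f a' →
      l₂ a = l₂ a' ∧ ∀ b ∈ S₂, b ∉ A → (H₂.Adj a b ↔ H₂.Adj a' b)) → _ :=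
    cuttable_union_left W S₂ S₁ H₂ H₁ (fun v => if v ∈ S₁ then l₁ v else l₂ v) l₂ hl2 s₂ s₁ hd.symm
  rw [Finset.union_comm S₂ S₁, sup_comm H₂ H₁] at right
  by_cases b1 : t < (S₁ ∩ W).card
  · exact left (c₁ b1)
  by_cases b2 : t < (S₂ ∩ W).card
  · exact right (c₂ b2)
  by_cases b3 : (S₂ ∩ W).card ≤ (S₁ ∩ W).card
  · exact left (cuttable_whole W S₁ H₁ l₁ (by omega) (by omega))
  · exact right (cuttable_whole W S₂ H₂ l₂ (by omega) (by omega))

lemma cuttable_join {k t : ℕ} (W S : Finset ℕ) (H : SimpleGraph ℕ)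
    (l : ℕ → Fin k) (a b : Fin k) (h : Cuttable k t W S H l) :
    Cuttable k t W S (H ⊔ SimpleGraph.fromRel
                  (fun u v => u ∈ S ∧ v ∈ S ∧ l u = a ∧ l v = b)) l := by
  obtain ⟨s, c⟩ := h
  refine ⟨?_, ?_⟩
  · intro u v huv
    rw [SimpleGraph.sup_adj, SimpleGraph.fromRel_adj] at huv
    rcases huv with h | ⟨-, h | h⟩
    · exact s _ _ h
    · exact ⟨h.1, h.2.1⟩
    · exact ⟨h.2.1, h.1⟩
  intro ht
  obtain ⟨A, hA, h1, h2, f, hf⟩ := c ht
  refine ⟨A, hA, h1, h2, f, ?_⟩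
  intro u hu v hv huv
  obtain ⟨h3, h4⟩ := hf u hu v hv huv
  refine ⟨h3, ?_⟩
  intro w hw hwA
  have hne : u ≠ w := fun h => hwA (h ▸ hu)
  have hne' : v ≠ w := fun h => hwA (h ▸ hv)
  rw [SimpleGraph.sup_adj, SimpleGraph.fromRel_adj, SimpleGraph.sup_adj,
    SimpleGraph.fromRel_adj, h4 w hw hwA, h3]
  have hu' := hA hu
  have hv' := hA hv
  simp only [hne, hne', hu', hv', hw, ne_eq, not_false_eq_true, true_and]

lemma cuttable_relabel {k t : ℕ} (W S : Finset ℕ) (H : SimpleGraph ℕ)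
    (l : ℕ → Fin k) (a b : Fin k) (h : Cuttable k t W S H l) :
    Cuttable k t W S H (fun v => if l v = a then b else l v) := by
  obtain ⟨s, c⟩ := h
  refine ⟨s, ?_⟩
  intro ht
  obtain ⟨A, hA, h1, h2, f, hf⟩ := c ht
  refine ⟨A, hA, h1, h2, f, ?_⟩
  intro u hu v hv huv
  obtain ⟨h3, h4⟩ := hf u hu v hv huv
  refine ⟨?_, h4⟩
  simp only [h3]

/-- The negation of the preceding statement: For every hereditary class of finite graphs: if some k bounds the clique-width (via k-label expressions) of all its 2-connected prime members, then some k bounds the clique-width of every graph in the class. -/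
theorem result :
    ¬ (∀ 𝒢 : (n : ℕ) → SimpleGraph (Fin n) → Prop,
      (∀ (n m : ℕ) (G : SimpleGraph (Fin n)) (H : SimpleGraph (Fin m)),
          Nonempty (SimpleGraph.Embedding H G) → 𝒢 n G → 𝒢 m H) →
      (∃ k : ℕ, ∀ (n : ℕ) (G : SimpleGraph (Fin n)), 𝒢 n G →
          (3 ≤ n ∧ G.Connected ∧ ∀ v : Fin n, (G.induce {w | w ≠ v}).Connected) →
          (3 ≤ n ∧ ∀ M : Set (Fin n),
              (∀ x, x ∉ M → ∀ y ∈ M, ∀ z ∈ M, (G.Adj x y ↔ G.Adj x z)) →
              M.Subsingleton ∨ M = Set.univ) →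
          ∃ ℓ : ℕ → Fin k, ∀ P : Finset ℕ → SimpleGraph ℕ → (ℕ → Fin k) → Prop,
            ((∀ ℓ₀ : ℕ → Fin k, P ∅ ⊥ ℓ₀) ∧
             (∀ (i : ℕ) (ℓ₀ : ℕ → Fin k), P {i} ⊥ ℓ₀) ∧
             (∀ (S₁ S₂ : Finset ℕ) (H₁ H₂ : SimpleGraph ℕ) (ℓ₁ ℓ₂ : ℕ → Fin k),
                P S₁ H₁ ℓ₁ → P S₂ H₂ ℓ₂ → Disjoint S₁ S₂ →
                P (S₁ ∪ S₂) (H₁ ⊔ H₂) (fun v => if v ∈ S₁ then ℓ₁ v else ℓ₂ v)) ∧
             (∀ (S : Finset ℕ) (H : SimpleGraph ℕ) (ℓ₀ : ℕ → Fin k) (a b : Fin k),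
                a ≠ b → P S H ℓ₀ →
                P S (H ⊔ SimpleGraph.fromRel
                  (fun u v => u ∈ S ∧ v ∈ S ∧ ℓ₀ u = a ∧ ℓ₀ v = b)) ℓ₀) ∧
             (∀ (S : Finset ℕ) (H : SimpleGraph ℕ) (ℓ₀ : ℕ → Fin k) (a b : Fin k),
                P S H ℓ₀ → P S H (fun v => if ℓ₀ v = a then b else ℓ₀ v))) →
            P (Finset.range n) (G.map Fin.valEmbedding) ℓ) →
      (∃ k : ℕ, ∀ (n : ℕ) (G : SimpleGraph (Fin n)), 𝒢 n G →
          ∃ ℓ : ℕ → Fin k, ∀ P : Finset ℕ → SimpleGraph ℕ → (ℕ → Fin k) → Prop,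
            ((∀ ℓ₀ : ℕ → Fin k, P ∅ ⊥ ℓ₀) ∧
             (∀ (i : ℕ) (ℓ₀ : ℕ → Fin k), P {i} ⊥ ℓ₀) ∧
             (∀ (S₁ S₂ : Finset ℕ) (H₁ H₂ : SimpleGraph ℕ) (ℓ₁ ℓ₂ : ℕ → Fin k),
                P S₁ H₁ ℓ₁ → P S₂ H₂ ℓ₂ → Disjoint S₁ S₂ →
                P (S₁ ∪ S₂) (H₁ ⊔ H₂) (fun v => if v ∈ S₁ then ℓ₁ v else ℓ₂ v)) ∧
             (∀ (S : Finset ℕ) (H : SimpleGraph ℕ) (ℓ₀ : ℕ → Fin k) (a b : Fin k),
                a ≠ b → P S H ℓ₀ →
                P S (H ⊔ SimpleGraph.fromRel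
                  (fun u v => u ∈ S ∧ v ∈ S ∧ ℓ₀ u = a ∧ ℓ₀ v = b)) ℓ₀) ∧
             (∀ (S : Finset ℕ) (H : SimpleGraph ℕ) (ℓ₀ : ℕ → Fin k) (a b : Fin k),
                P S H ℓ₀ → P S H (fun v => if ℓ₀ v = a then b else ℓ₀ v))) →
            P (Finset.range n) (G.map Fin.valEmbedding) ℓ)) := by
  intro hmain
  have hk := hmain (fun n G => ∃ m, Nonempty (G ↪g Gam m)) ?_ ⟨0, ?_⟩
  · obtain ⟨k, hk⟩ := hk
    set m := 4 * k + 4 with hm
    -- transport of the graph to `Fin n`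
    let e : V m ≃ Fin (Fintype.card (V m)) := Fintype.equivFin (V m)
    let G : SimpleGraph (Fin (Fintype.card (V m))) := (Gam m).comap e.symm
    have hG : ∃ m', Nonempty (G ↪g Gam m') :=
      ⟨m, ⟨(SimpleGraph.Iso.comap e.symm (Gam m)).toEmbedding⟩⟩
    obtain ⟨l, hl⟩ := hk _ G hG
    let code : V m → ℕ := fun v => (e v).val
    have hcode : Function.Injective code := fun a b h => e.injective (Fin.ext h)
    let W : Finset ℕ := (Finset.univ : Finset (Fin m × Fin m)).image (fun p => code (Sum.inl p))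
    have ht : 1 ≤ m * m / 2 := by
      have : 2 ≤ m * m := by nlinarith
      omega
    obtain ⟨-, hcut⟩ := hl (Cuttable k (m * m / 2) W)
      ⟨fun l₀ => cuttable_small ht W ∅ (by simp) l₀,
       fun i l₀ => cuttable_small ht W {i} (by simp) l₀,
       fun S₁ S₂ H₁ H₂ l₁ l₂ h₁ h₂ hd => cuttable_union W S₁ S₂ H₁ H₂ l₁ l₂ h₁ h₂ hd,
       fun S H l₀ a b _ h => cuttable_join W S H l₀ a b h,
       fun S H l₀ a b h => cuttable_relabel W S H l₀ a b h⟩
    have hinj : Function.Injective (fun p : Fin m × Fin m => code (Sum.inl p)) :=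
      fun p q h => Sum.inl_injective (hcode h)
    have hWcard : W.card = m * m := by
      rw [Finset.card_image_of_injective _ hinj]
      simp
    have hWS : Finset.range (Fintype.card (V m)) ∩ W = W := by
      apply Finset.inter_eq_right.mpr
      intro x hx
      obtain ⟨p, -, rfl⟩ := Finset.mem_image.mp hx
      exact Finset.mem_range.mpr (e _).isLt
    obtain ⟨A, hA, h1, h2, f, hf⟩ := hcut (by rw [hWS, hWcard]; omega)
    have hcardeq : (A ∩ W).card = (Finset.univ.filter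
        (fun p : Fin m × Fin m => (Sum.inl p : V m) ∈ {v : V m | code v ∈ A})).card := by
      rw [← Finset.card_image_of_injective _ hinj]
      congr 1
      ext x
      simp only [W, Finset.mem_inter, Finset.mem_image, Finset.mem_univ, true_and,
        Finset.mem_filter, Set.mem_ofPred_eq]
      constructor
      · rintro ⟨hx, p, rfl⟩
        exact ⟨p, hx, rfl⟩
      · rintro ⟨p, hp, rfl⟩
        exact ⟨hp, p, rfl⟩
    have hadj : ∀ a b : V m, (G.map Fin.valEmbedding).Adj (code a) (code b) ↔ (Gam m).Adj a b := by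
      intro a b
      have : (G.map Fin.valEmbedding).Adj (Fin.valEmbedding (e a)) (Fin.valEmbedding (e b)) ↔
          G.Adj (e a) (e b) := SimpleGraph.map_adj_apply
      rw [show code a = Fin.valEmbedding (e a) from rfl, show code b = Fin.valEmbedding (e b) from rfl,
        this]
      simp [G]
    refine no_cut (k := k) hm {v : V m | code v ∈ A} (fun v => f (code v)) ?_ ?_ ?_
    · intro a ha a' ha' haa b hb
      rw [← hadj, ← hadj]
      exact (hf _ ha _ ha' haa).2 _ (Finset.mem_range.mpr (e _).isLt) hb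
    · rw [hcardeq] at h1
      convert h1
    · rw [hcardeq] at h2
      convert h2
  · rintro n n' G H ⟨φ⟩ ⟨m, ⟨ψ⟩⟩
    exact ⟨m, ⟨φ.trans ψ⟩⟩
  · rintro n G ⟨m, ⟨φ⟩⟩ h1 h2
    exact (not_two_connected_prime G φ h1 h2).elim

end Pool.Agent.S06914
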