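import Pool.Statements.S06916

set_option autoImplicit false
open Pool Pool.MP_b245d9_co

namespace Pool.Agent.S06916

/-- The 34 arcs of the orientation. -/
def arcs : List (ℕ × ℕ) :=
  [(1, 0), (1, 5), (2, 0), (2, 1), (2, 4), (2, 5), (3, 0), (3, 1), (3, 4), (3, 6), (3, 7),
   (3, 9), (3, 10), (4, 0), (4, 5), (4, 7), (4, 11), (6, 1), (6, 5), (6, 7), (6, 9), (6, 11),
   (7, 5), (7, 11), (8, 0), (8, 2), (8, 5), (8, 7), (8, 9), (8, 10), (8, 11), (9, 0),
   (10, 5), (10, 9)]

/-- `arcB u v` is true when `(u, v)` is an arc. -/
def arcB (u v : ℕ) : Bool := arcs.contains (u, v)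

/-- Adjacency in the underlying graph. -/
def adjB (u v : ℕ) : Bool := arcB u v || arcB v u

/-- The colour class of a vertex in the unique 4-colouring. -/
def cls (i : Fin 12) : Fin 4 := ![2, 1, 0, 3, 1, 3, 2, 0, 1, 0, 2, 3] i

/-- The counterexample graph. -/
def G : SimpleGraph (Fin 12) where
  Adj u v := adjB u v = true
  symm := by
    constructor
    intro u v h
    simp only [adjB, Bool.or_eq_true] at *
    exact h.symm
  loopless := by
    constructor
    intro v
    revert v
    decide +kernel

/-- one extension step of the list of proper colourings of the first `k` vertices -/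
def okStep (l : List (Fin 4)) (k : ℕ) (a : Fin 4) : Bool :=
  l.zipIdx.all (fun p => !(adjB k p.2 && p.1 == a))

def step (k : ℕ) (P : List (List (Fin 4))) : List (List (Fin 4)) :=
  P.flatMap (fun l => (([0, 1, 2, 3] : List (Fin 4)).filter (fun a => okStep l k a)).map
    (fun a => l ++ [a]))

def cols : ℕ → List (List (Fin 4))
  | 0 => [[]]
  | (k + 1) => step k (cols k)

theorem mem_cols (c : ℕ → Fin 4) (n : ℕ)
    (hc : ∀ i j, i < n → j < n → adjB i j = true → c i ≠ c j) :
    ∀ k, k ≤ n → (List.range k).map c ∈ cols k := by
  intro k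
  induction k with
  | zero => intro _; simp [cols]
  | succ k ih =>
    intro hk
    have h1 := ih (by omega)
    rw [List.range_succ, List.map_append, List.map_singleton]
    simp only [cols, step, List.mem_flatMap]
    refine ⟨_, h1, ?_⟩
    rw [List.mem_map]
    refine ⟨c k, ?_, rfl⟩
    rw [List.mem_filter]
    refine ⟨?_, ?_⟩
    · generalize c k = a
      revert a
      decide
    · unfold okStep
      rw [List.all_eq_true]
      rintro ⟨b, j⟩ hb
      rw [List.mem_zipIdx_iff_getElem?] at hb
      simp only [List.getElem?_map, Option.map_eq_some_iff] at hb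
      obtain ⟨m, hm, hb⟩ := hb
      rw [List.getElem?_eq_some_iff] at hm
      obtain ⟨hlt, hm⟩ := hm
      simp only [List.length_range] at hlt
      simp only [List.getElem_range] at hm
      subst hm
      simp only [Bool.not_eq_true', Bool.and_eq_false_iff, beq_eq_false_iff_ne]
      by_cases hadj : adjB k j = true
      · right
        rw [← hb]
        exact (hc k j (by omega) (by omega) hadj).symm
      · left
        simpa using hadj

/-- the check applied to each proper colouring -/
def good (l : List (Fin 4)) : Bool :=
  ((List.finRange 12).all fun i => (List.finRange 12).all fun j =>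
    !(cls i == cls j) || (l.getD i.val 0 == l.getD j.val 0)) && l.contains 3

theorem cols_good : ∀ l ∈ cols 12, good l = true := by
  decide +kernel

theorem coloring_good (c : G.Coloring (Fin 4)) :
    (∀ i j : Fin 12, cls i = cls j → c i = c j) ∧ ∃ i, c i = 3 := by
  classical
  let c' : ℕ → Fin 4 := fun i => if h : i < 12 then c ⟨i, h⟩ else 0
  have hc' : ∀ i : Fin 12, c' i.val = c i := by
    intro i
    simp [c']
  have hmem := mem_cols c' 12 (by
    intro i j hi hj hadj
    have h1 := hc' ⟨i, hi⟩
    have h2 := hc' ⟨j, hj⟩
    simp only at h1 h2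
    rw [h1, h2]
    apply c.valid
    exact hadj) 12 le_rfl
  have hg := cols_good _ hmem
  simp only [good, Bool.and_eq_true, List.all_eq_true] at hg
  obtain ⟨hg1, hg2⟩ := hg
  have hget : ∀ i : Fin 12, ((List.range 12).map c').getD i.val 0 = c i := by
    intro i
    rw [← hc' i]
    rw [List.getD_eq_getElem?_getD, List.getElem?_map, List.getElem?_range i.isLt]
    rfl
  constructor
  · intro i j hij
    have := hg1 i (List.mem_finRange i) j (List.mem_finRange j)
    rw [hget, hget] at this
    simp only [Bool.or_eq_true, Bool.not_eq_true', beq_eq_false_iff_ne, beq_iff_eq] at this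
    rcases this with h | h
    · exact absurd hij h
    · exact h
  · rw [List.contains_iff_mem, List.mem_map] at hg2
    obtain ⟨i, hi, hi3⟩ := hg2
    rw [List.mem_range] at hi
    exact ⟨⟨i, hi⟩, by rw [← hc' ⟨i, hi⟩]; exact hi3⟩

theorem no_path : ∀ a b c d : Fin 12, arcB a b = true → arcB b c = true → arcB c d = true →
    cls a = cls c ∨ cls b = cls d ∨ cls a = cls d := by
  decide +kernel

/-- The explicit 4-colouring. -/
def col : G.Coloring (Fin 4) := SimpleGraph.Coloring.mk cls (by
  intro u v
  change adjB u v = true → _
  revert u v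
  decide +kernel)

theorem chrom : G.chromaticNumber = 4 := by
  have h : G.chromaticNumber = ((3 : ℕ) + 1 : ℕ) := by
    rw [Nat.cast_add, Nat.cast_one]
    rw [SimpleGraph.chromaticNumber_eq_iff_colorable_not_colorable]
    refine ⟨⟨col⟩, ?_⟩
    rintro ⟨c3⟩
    let c4 : G.Coloring (Fin 4) := SimpleGraph.Coloring.mk (fun v => (c3 v).castSucc) (by
      intro u v huv h
      exact c3.valid huv (Fin.castSucc_injective _ h))
    obtain ⟨i, hi⟩ := (coloring_good c4).2
    have : (c3 i).castSucc = (3 : Fin 4) := hi
    have h2 := congrArg Fin.val this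
    simp at h2
    have := (c3 i).isLt
    omega
  rw [h]
  rfl

/-- The negation of the preceding statement: For every finite graph with chromatic number 4 and every orientation of it, there is a directed path on 4 vertices and a proper 4-colouring giving the path's vertices 4 distinct colours. -/
theorem result :
    ¬ (∀ (V : Type) [Fintype V] (G : SimpleGraph V),
      G.chromaticNumber = 4 →
      ∀ D : V → V → Prop,
        (∀ u v, D u v → G.Adj u v) →
        (∀ u v, G.Adj u v → (D u v ↔ ¬ D v u)) →
        ∃ (p : Fin 4 → V) (c : G.Coloring (Fin 4)),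
          (∀ i : Fin 3, D (p i.castSucc) (p i.succ)) ∧
          Function.Injective (fun i => c (p i))) := by
  intro H
  obtain ⟨p, c, hp, hinj⟩ := H (Fin 12) G chrom (fun u v => arcB u v = true)
    (by
      intro u v h
      change adjB u v = true
      simp [adjB, h])
    (by
      intro u v
      change adjB u v = true → (arcB u v = true ↔ ¬ arcB v u = true)
      revert u v
      decide +kernel)
  have h0 := hp 0
  have h1 := hp 1
  have h2 := hp 2
  simp only [Fin.castSucc_zero, Fin.succ_zero_eq_one] at h0
  have e1 : (1 : Fin 3).castSucc = (1 : Fin 4) := rfl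
  have e2 : (1 : Fin 3).succ = (2 : Fin 4) := rfl
  have e3 : (2 : Fin 3).castSucc = (2 : Fin 4) := rfl
  have e4 : (2 : Fin 3).succ = (3 : Fin 4) := rfl
  rw [e1, e2] at h1
  rw [e3, e4] at h2
  have hc := (coloring_good c).1
  rcases no_path (p 0) (p 1) (p 2) (p 3) h0 h1 h2 with h | h | h
  · have := hinj (a₁ := 0) (a₂ := 2) (hc _ _ h)
    exact absurd this (by decide)
  · have := hinj (a₁ := 1) (a₂ := 3) (hc _ _ h)
    exact absurd this (by decide)
  · have := hinj (a₁ := 0) (a₂ := 3) (hc _ _ h)
    exact absurd this (by decide)

end Pool.Agent.S06916
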