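import Pool.Statements.S06935
import Pool.Agent.Helper266.SD3

set_option autoImplicit false
open N3e647761
open scoped Pointwise
open Pool Pool.MP_b3aa1a_co

namespace Pool.Agent.S06935

/-- log(1+√2)/log 2 < sSup_{A : Finset ℤ} log∣A−A∣/log∣A+A∣ (degenerate A give value 0, harmless since sup ≥ 1 and the set is bounded by 4/3) -/
theorem result :
    (Real.log (1 + Real.sqrt 2) / Real.log 2) < C3e := by
  obtain ⟨A, hA⟩ := Pool.Agent.Helper266.SD.exists_set
  exact hA.trans_le (le_csSup Pool.Agent.Helper266.SD.bdd ⟨A, rfl⟩)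

end Pool.Agent.S06935
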