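import Pool.Statements.S06943
import Pool.Agent.Helper221.Template
import Pool.Agent.Helper221.Final

set_option autoImplicit false
open Pool Pool.MP_b4ba96_co

namespace Pool.Agent.S06943

open Finset Pool.Agent.Helper221.Build

/-- The non-asymptotic requirements on one graph. -/
def Good (n : ℕ) (G : SimpleGraph (Fin n)) : Prop :=
  G.CliqueFree 4 ∧ (∀ v : Fin n, 1 ≤ (G.neighborSet v).ncard) ∧
    (∀ d : ℕ, {v : Fin n | (G.neighborSet v).ncard = d}.ncard ≤ 4) ∧
    (∃ d : ℕ, {v : Fin n | (G.neighborSet v).ncard = d}.ncard = 4)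

lemma transfer {V : Type} [Fintype V] [DecidableEq V] (n : ℕ) (hn : Fintype.card V = n) (G : SimpleGraph V) (B : ℕ)
    (h1 : G.CliqueFree 4) (h2 : ∀ v, 1 ≤ (G.neighborSet v).ncard)
    (h3 : ∀ d, {v | (G.neighborSet v).ncard = d}.ncard ≤ 4) (h4 : ∃ d, {v | (G.neighborSet v).ncard = d}.ncard = 4)
    (h5 : ∀ T : Finset V, (∀ x ∈ T, ∀ y ∈ T, ¬ G.Adj x y) → T.card ≤ B) :
    ∃ G' : SimpleGraph (Fin n), Good n G' ∧ G'.indepNum ≤ B := by
  let e : V ≃ Fin n := (Fintype.equivFin V).trans (finCongr hn)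
  let G' : SimpleGraph (Fin n) := G.comap e.symm
  have hns : ∀ a : Fin n, G'.neighborSet a = e '' (G.neighborSet (e.symm a)) := by
    intro a
    ext b
    simp only [SimpleGraph.mem_neighborSet, Set.mem_image, G', SimpleGraph.comap_adj]
    constructor
    · intro h
      exact ⟨e.symm b, h, by simp⟩
    · rintro ⟨c, hc, rfl⟩
      simpa using hc
  have hnc : ∀ a : Fin n, (G'.neighborSet a).ncard = (G.neighborSet (e.symm a)).ncard := by
    intro a
    rw [hns, Set.ncard_image_of_injective _ e.injective]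
  have hdc : ∀ d, {a : Fin n | (G'.neighborSet a).ncard = d}.ncard = {v | (G.neighborSet v).ncard = d}.ncard := by
    intro d
    have : {a : Fin n | (G'.neighborSet a).ncard = d} = e '' {v | (G.neighborSet v).ncard = d} := by
      ext a
      constructor
      · intro ha
        refine ⟨e.symm a, ?_, by simp⟩
        have ha' : (G'.neighborSet a).ncard = d := ha
        rw [hnc] at ha'
        exact ha'
      · rintro ⟨v, hv, rfl⟩
        show (G'.neighborSet (e v)).ncard = d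
        rw [hnc]
        simpa using hv
    rw [this, Set.ncard_image_of_injective _ e.injective]
  refine ⟨G', ⟨?_, ?_, ?_, ?_⟩, ?_⟩
  · exact SimpleGraph.CliqueFree.comap ⟨(SimpleGraph.Embedding.comap e.symm.toEmbedding G).toCopy⟩ h1
  · intro a
    rw [hnc]
    exact h2 _
  · intro d
    rw [hdc]
    exact h3 d
  · obtain ⟨d, hd⟩ := h4
    exact ⟨d, by rw [hdc]; exact hd⟩
  · obtain ⟨s, hs⟩ := SimpleGraph.exists_isNIndepSet_indepNum (G := G')
    have hcard : s.card = G'.indepNum := hs.card_eq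
    have hind := hs.isIndepSet
    rw [← hcard]
    have h6 := h5 (s.image e.symm) (by
      intro x hx y hy hxy
      rw [Finset.mem_image] at hx hy
      obtain ⟨a, ha, rfl⟩ := hx
      obtain ⟨b, hb, rfl⟩ := hy
      have hab : G'.Adj a b := hxy
      exact hind (Finset.mem_coe.mpr ha) (Finset.mem_coe.mpr hb) hab.ne hab)
    rwa [Finset.card_image_of_injective _ e.symm.injective] at h6

lemma row_real (ε q m M K P i d ι h2 : ℝ) (hε0 : 0 ≤ ε) (hMR : M = m * q)
    (hK : 10 * q + 10 * (ε * M) + 13 ≤ K) (hP1 : 5 * P ≤ 4 * K) (hP2 : 4 * K ≤ 5 * P + 4)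
    (e1 : 2 * h2 ≤ q + q * i) (e2 : q * i ≤ 2 * h2 + 1) (hi0 : 0 ≤ i) (him : i ≤ m)
    (d1 : 2 * d ≤ q) (d2 : (1 - ε) * q ≤ 2 * d) (d3 : ι ≤ ε * q) (hι0 : 0 ≤ ι) (hm0 : 0 ≤ m) (hq : 0 ≤ q) :
    7 * K ≤ 10 * (P + h2 - (m * ι + i * d)) ∧ 20 * (P + h2 - (m * ι + i * d)) ≤ 17 * K := by
  have f1 : m * ι ≤ ε * M := by
    calc m * ι ≤ m * (ε * q) := mul_le_mul_of_nonneg_left d3 hm0
      _ = ε * M := by rw [hMR]; ring
  have f1' : 0 ≤ m * ι := mul_nonneg hm0 hι0
  have f2 : i * (2 * d) ≤ i * q := mul_le_mul_of_nonneg_left d1 hi0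
  have f3 : i * ((1 - ε) * q) ≤ i * (2 * d) := mul_le_mul_of_nonneg_left d2 hi0
  have f4 : i * q * ε ≤ ε * M := by
    have : i * q ≤ m * q := mul_le_mul_of_nonneg_right him hq
    calc i * q * ε ≤ m * q * ε := mul_le_mul_of_nonneg_right this hε0
      _ = ε * M := by rw [hMR]; ring
  have f5 : i * ((1 - ε) * q) = i * q - i * q * ε := by ring
  have f6 : i * (2 * d) = 2 * (i * d) := by ring
  have f7 : q * i = i * q := by ring
  rw [f5, f6] at f3
  rw [f6] at f2
  rw [f7] at e1 e2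
  constructor
  · linarith
  · linarith

theorem exists_good (δ : ℝ) (hδ : 0 < δ) :
    ∃ N0 : ℕ, ∀ n ≥ N0, ∃ G : SimpleGraph (Fin n), Good n G ∧ (G.indepNum : ℝ) ≤ δ * n := by
  classical
  set ε : ℝ := min (δ / 50) (1 / 1000) with hε
  have hε0 : 0 < ε := lt_min (by positivity) (by norm_num)
  have hε1 : ε ≤ 1 / 1000 := min_le_right _ _
  have hεδ : ε ≤ δ / 50 := min_le_left _ _
  obtain ⟨q, I, D, hq, hIs, hDs, hIi, T1, T2, T3, T4a, T4b, T5⟩ :=
    Pool.Agent.Helper221.Template.template ε hε0 (by linarith)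
  set c0 : ℝ := 2 + 80 * ε with hc0
  have hc0a : 2 < c0 := by linarith
  have hc0b : c0 ≤ 3 := by linarith
  obtain ⟨N0, hN0⟩ : ∃ N0 : ℕ, 3 * (100 * q + 200) / ε ≤ (N0 : ℝ) := exists_nat_ge _
  refine ⟨N0, fun n hn => ?_⟩
  have hnR : 3 * (100 * q + 200) / ε ≤ (n : ℝ) := hN0.trans (by exact_mod_cast hn)
  have hqR : (1 : ℝ) ≤ q := by exact_mod_cast hq
  set x : ℝ := n / c0 with hx
  have hxn : x * c0 = n := by rw [hx]; field_simp
  have hx3 : (100 * q + 200 : ℝ) ≤ ε * x := by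
    rw [div_le_iff₀ hε0] at hnR
    have h1 : (n : ℝ) ≤ 3 * x := by
      rw [← hxn]
      have : 0 ≤ x := by positivity
      nlinarith
    nlinarith
  have hx0 : 0 ≤ x := by positivity
  have hxx : (100 * q + 200 : ℝ) ≤ x := by nlinarith
  -- m
  set m : ℕ := ⌊x / q⌋₊ with hm
  have hm1 : (m : ℝ) ≤ x / q := Nat.floor_le (by positivity)
  have hm2 : x / q < m + 1 := Nat.lt_floor_add_one _
  have hM1 : (m : ℝ) * q ≤ x := by
    rw [le_div_iff₀ (by linarith)] at hm1; exact hm1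
  have hM2 : x - q < (m : ℝ) * q := by
    rw [div_lt_iff₀ (by linarith)] at hm2; linarith
  set M : ℕ := m * q with hM
  have hMR : ((M : ℕ) : ℝ) = (m : ℝ) * q := by rw [hM]; push_cast; ring
  rw [← hMR] at hM1 hM2
  have h2M : 2 * M ≤ n := by
    have : (2 : ℝ) * M ≤ n := by
      rw [← hxn]; nlinarith
    exact_mod_cast this
  set K : ℕ := (n - 2 * M) / 4 with hK
  set ρ : ℕ := (n - 2 * M) % 4 with hρ
  have hρ3 : ρ ≤ 3 := by omega
  have hn4 : n = 2 * M + 4 * K + ρ := by omega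
  have hn4R : (n : ℝ) = 2 * M + 4 * K + ρ := by exact_mod_cast hn4
  have hρR : (ρ : ℝ) ≤ 3 := by exact_mod_cast hρ3
  have hρ0 : (0 : ℝ) ≤ ρ := Nat.cast_nonneg _
  -- lower bound for K
  have hKlow : 20 * (ε * x) - 3 / 4 ≤ (K : ℝ) := by
    have : x * c0 = 2 * x + 80 * (ε * x) := by rw [hc0]; ring
    linarith
  have hKup : 4 * (K : ℝ) ≤ 80 * (ε * x) + 2 * q := by
    have : x * c0 = 2 * x + 80 * (ε * x) := by rw [hc0]; ring
    linarith
  have hεM : ε * (M : ℝ) ≤ ε * x := mul_le_mul_of_nonneg_left hM1 hε0.le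
  have hKbig : 10 * (q : ℝ) + 10 * (ε * M) + 13 ≤ K := by linarith
  have hKM : 100 * (K : ℝ) ≤ 9 * M := by
    have h1 : ε * x ≤ x / 1000 := by nlinarith
    linarith
  have hM100 : (100 : ℝ) ≤ M := by linarith
  set P : ℕ := 4 * K / 5 with hP
  have hP1 : 5 * P ≤ 4 * K := by omega
  have hP2 : 4 * K ≤ 5 * P + 4 := by omega
  have hP1R : 5 * (P : ℝ) ≤ 4 * K := by exact_mod_cast hP1
  have hP2R : 4 * (K : ℝ) ≤ 5 * P + 4 := by exact_mod_cast hP2
  have hK2 : 13 ≤ K := by
    have : (13 : ℝ) ≤ K := by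
      have : 0 ≤ ε * (M : ℝ) := by positivity
      linarith
    exact_mod_cast this
  -- rows
  let base : Fin m × Fin q → ℕ := fun s =>
    m * (Finset.univ.filter (fun y => I s.2 y)).card + s.1.val * (Finset.univ.filter (fun y => D s.2 y)).card
  have hbase : ∀ s : Fin m × Fin q, 7 * (K : ℝ) ≤ 10 * ((P : ℝ) + ((finProdFinEquiv s).val / 2 : ℕ) - base s) ∧
      20 * ((P : ℝ) + ((finProdFinEquiv s).val / 2 : ℕ) - base s) ≤ 17 * K := by
    intro s
    have hidx : (finProdFinEquiv s).val = s.2.val + q * s.1.val := rfl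
    have e1 : 2 * ((finProdFinEquiv s).val / 2) ≤ q + q * s.1.val := by
      rw [hidx]; have := s.2.2; omega
    have e2 : q * s.1.val ≤ 2 * ((finProdFinEquiv s).val / 2) + 1 := by
      rw [hidx]; omega
    have e1R : 2 * (((finProdFinEquiv s).val / 2 : ℕ) : ℝ) ≤ q + q * s.1.val := by exact_mod_cast e1
    have e2R : (q : ℝ) * s.1.val ≤ 2 * (((finProdFinEquiv s).val / 2 : ℕ) : ℝ) + 1 := by exact_mod_cast e2
    have him : (s.1.val : ℝ) ≤ m := by exact_mod_cast s.1.2.le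
    have d1 : 2 * ((Finset.univ.filter (fun y => D s.2 y)).card : ℝ) ≤ q := by exact_mod_cast T4a s.2
    have hbR : (base s : ℝ) = m * ((Finset.univ.filter (fun y => I s.2 y)).card : ℝ) +
        s.1.val * ((Finset.univ.filter (fun y => D s.2 y)).card : ℝ) := by
      simp only [base]; push_cast; ring
    rw [hbR]
    exact row_real ε q m M K P s.1.val _ _ _ hε0.le hMR hKbig hP1R hP2R e1R e2R (Nat.cast_nonneg _) him d1
      (T4b s.2) (T5 s.2) (Nat.cast_nonneg _) (Nat.cast_nonneg _) (Nat.cast_nonneg _)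
  have hbase2 : ∀ s, base s ≤ P + (finProdFinEquiv s).val / 2 := by
    intro s
    have := (hbase s).1
    have hK0 : (0 : ℝ) ≤ K := Nat.cast_nonneg _
    have h2 : (base s : ℝ) ≤ (P : ℝ) + ((finProdFinEquiv s).val / 2 : ℕ) := by linarith
    exact_mod_cast h2
  let r : Fin m × Fin q → ℕ := fun s => P + (finProdFinEquiv s).val / 2 - base s
  have hrR : ∀ s, (r s : ℝ) = (P : ℝ) + ((finProdFinEquiv s).val / 2 : ℕ) - base s := by
    intro s
    simp only [r]
    rw [Nat.cast_sub (hbase2 s)]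
    push_cast; ring
  have h7 : ∀ s, 7 * K ≤ 10 * r s := by
    intro s
    have := (hbase s).1
    rw [← hrR] at this
    exact_mod_cast this
  have h17 : ∀ s, 20 * r s ≤ 17 * K := by
    intro s
    have := (hbase s).2
    rw [← hrR] at this
    exact_mod_cast this
  have hr : ∀ s, m * (Finset.univ.filter (fun y => I s.2 y)).card + s.1.val * (Finset.univ.filter (fun y => D s.2 y)).card +
      r s = P + (finProdFinEquiv s).val / 2 := by
    intro s
    have := hbase2 s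
    simp only [r, base] at *
    omega
  have hS : ∀ S : Finset (Fin q), (∀ x ∈ S, ∀ y ∈ S, ¬ I x y) → S.card ≤ ⌊ε * q⌋₊ := by
    intro S hSi
    apply Nat.le_floor
    by_contra hcon
    push Not at hcon
    obtain ⟨x, hx, y, hy, hxy⟩ := T3 S hcon.le
    exact hSi x hx y hy hxy
  obtain ⟨G, g1, g2, g3, g4, g5⟩ := Pool.Agent.Helper221.Final.construct q m K ρ P ⌊ε * q⌋₊ I D hIs hDs hIi T1 T2 hS r hr h7 h17
    (by have := hKM; rw [hM] at this; exact_mod_cast this) (by exact_mod_cast hM100) hρ3 (by omega) (by omega) (by omega)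
  have hcardV : Fintype.card (Vt m q K ρ) = n := by
    simp only [Vt, Fintype.card_sum, Fintype.card_prod, Fintype.card_bool, Fintype.card_fin]
    omega
  obtain ⟨G', hG', hind⟩ := transfer n hcardV G _ g1 g2 g3 g4 g5
  refine ⟨G', hG', ?_⟩
  have hind' : (G'.indepNum : ℝ) ≤ 2 * (m * ⌊ε * q⌋₊) + 4 * K + ρ := by exact_mod_cast hind
  have hfl : ((⌊ε * q⌋₊ : ℕ) : ℝ) ≤ ε * q := Nat.floor_le (by positivity)
  have hm0 : (0 : ℝ) ≤ m := Nat.cast_nonneg _
  have h8 : (m : ℝ) * ⌊ε * q⌋₊ ≤ ε * M := by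
    calc (m : ℝ) * ⌊ε * q⌋₊ ≤ m * (ε * q) := mul_le_mul_of_nonneg_left hfl hm0
      _ = ε * M := by rw [hMR]; ring
  have hxn2 : 2 * x ≤ n := by
    rw [← hxn]
    have h9 : x * 2 ≤ x * c0 := mul_le_mul_of_nonneg_left hc0a.le hx0
    linarith
  have hεxn : 2 * (ε * x) ≤ ε * n := by
    have h9 := mul_le_mul_of_nonneg_left hxn2 hε0.le
    linarith
  calc (G'.indepNum : ℝ) ≤ 2 * (m * ⌊ε * q⌋₊) + 4 * K + ρ := hind'
    _ ≤ 50 * (ε * n) := by linarith
    _ ≤ δ * n := by
      have h9 : 50 * ε ≤ δ := by linarith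
      have hn0 : (0 : ℝ) ≤ n := Nat.cast_nonneg _
      have h10 := mul_le_mul_of_nonneg_right h9 hn0
      linarith

/-- There are graphs G_n on n vertices such that, for all large n, G_n is K4-free, has no isolated vertex, and its most repeated degree occurs exactly 4 times, with independence number divided by n tending to 0. -/
theorem result :
    ∃ N : ℕ, ∃ G : (n : ℕ) → SimpleGraph (Fin n),
      (∀ n ≥ N,
        (G n).CliqueFree 4 ∧
        (∀ v : Fin n, 1 ≤ ((G n).neighborSet v).ncard) ∧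
        (∀ d : ℕ, {v : Fin n | ((G n).neighborSet v).ncard = d}.ncard ≤ 4) ∧
        (∃ d : ℕ, {v : Fin n | ((G n).neighborSet v).ncard = d}.ncard = 4)) ∧
      Filter.Tendsto (fun n : ℕ => ((G n).indepNum : ℝ) / (n : ℝ)) Filter.atTop (nhds 0) := by
  classical
  -- choose a good graph with the least independence number
  have hchoose : ∀ n : ℕ, ∃ G : SimpleGraph (Fin n), (∃ G' : SimpleGraph (Fin n), Good n G') →
      (Good n G ∧ ∀ G' : SimpleGraph (Fin n), Good n G' → G.indepNum ≤ G'.indepNum) := by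
    intro n
    by_cases h : ∃ G' : SimpleGraph (Fin n), Good n G'
    · have hne : ∃ k : ℕ, ∃ G' : SimpleGraph (Fin n), Good n G' ∧ G'.indepNum = k := by
        obtain ⟨G', hG'⟩ := h
        exact ⟨_, G', hG', rfl⟩
      obtain ⟨G, hG, hGk⟩ := Nat.find_spec hne
      refine ⟨G, fun _ => ⟨hG, fun G' hG' => ?_⟩⟩
      rw [hGk]
      exact Nat.find_min' hne ⟨G', hG', rfl⟩
    · exact ⟨⊥, fun h' => absurd h' h⟩
  choose G hG using hchoose
  obtain ⟨N, hN⟩ := exists_good 1 one_pos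
  refine ⟨N, G, ?_, ?_⟩
  · intro n hn
    obtain ⟨G', hG', _⟩ := hN n hn
    exact (hG n ⟨G', hG'⟩).1
  · rw [Metric.tendsto_atTop]
    intro δ hδ
    obtain ⟨N', hN'⟩ := exists_good (δ / 2) (by positivity)
    refine ⟨max N' 1, fun n hn => ?_⟩
    have hn1 : N' ≤ n := le_trans (le_max_left _ _) hn
    have hn2 : 1 ≤ n := le_trans (le_max_right _ _) hn
    have hnR : (0 : ℝ) < n := by exact_mod_cast hn2
    obtain ⟨G', hG', hind⟩ := hN' n hn1
    have hle := (hG n ⟨G', hG'⟩).2 G' hG'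
    have hleR : ((G n).indepNum : ℝ) ≤ (G'.indepNum : ℝ) := by exact_mod_cast hle
    rw [Real.dist_eq, sub_zero, abs_of_nonneg (by positivity)]
    rw [div_lt_iff₀ hnR]
    nlinarith

end Pool.Agent.S06943
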