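import Pool.Statements.S06946

set_option autoImplicit false
open Pool Pool.MP_b4c394_co

namespace Pool.Agent.S06946

/-- The independent sets of the sparse paving matroid of rank 6 with circuit-hyperplanes `F c`. -/
def Ind (F : Fin 7 → Finset (Fin 12)) (I : Set (Fin 12)) : Prop :=
  I.ncard ≤ 6 ∧ ∀ c, I ≠ (F c : Set (Fin 12))

/-- The families for which `Ind` gives a matroid. -/
def Good (F : Fin 7 → Finset (Fin 12)) : Prop :=
  (∀ c, (F c).card = 6) ∧ ∀ c c', c ≠ c' → (F c ∩ F c').card ≤ 4

theorem ind_empty {F : Fin 7 → Finset (Fin 12)} (hF : Good F) : Ind F ∅ := by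
  refine ⟨by simp, fun c h => ?_⟩
  have h1 := hF.1 c
  have h2 : (F c : Set (Fin 12)).ncard = 6 := by rw [Set.ncard_coe_finset, h1]
  rw [← h] at h2
  simp at h2

theorem ind_subset {F : Fin 7 → Finset (Fin 12)} (hF : Good F) {I J : Set (Fin 12)}
    (hJ : Ind F J) (hIJ : I ⊆ J) : Ind F I := by
  refine ⟨(Set.ncard_le_ncard hIJ (Set.toFinite _)).trans hJ.1, fun c h => ?_⟩
  have h1 := hF.1 c
  have h2 : I.ncard = 6 := by rw [h, Set.ncard_coe_finset, h1]
  have h3 : I = J := Set.eq_of_subset_of_ncard_le hIJ (by rw [h2]; exact hJ.1) (Set.toFinite _)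
  exact hJ.2 c (h3 ▸ h)

theorem ind_aug {F : Fin 7 → Finset (Fin 12)} (hF : Good F) {I J : Set (Fin 12)}
    (_hI : Ind F I) (hJ : Ind F J) (h : I.ncard < J.ncard) :
    ∃ e ∈ J, e ∉ I ∧ Ind F (insert e I) := by
  by_contra hcon
  push Not at hcon
  have hne : (J \ I).Nonempty := by
    rw [Set.nonempty_iff_ne_empty]
    intro h0
    rw [Set.sdiff_eq_empty] at h0
    have := Set.ncard_le_ncard h0 (Set.toFinite _)
    omega
  have key : ∀ e ∈ J, e ∉ I → ∃ c, insert e I = (F c : Set (Fin 12)) := by
    intro e heJ heI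
    by_contra hc
    push Not at hc
    refine hcon e heJ heI ⟨?_, hc⟩
    rw [Set.ncard_insert_of_notMem heI (Set.toFinite _)]
    have := hJ.1
    omega
  obtain ⟨e, heJ, heI⟩ := hne
  obtain ⟨c, hHe⟩ := key e heJ heI
  have hIcard : I.ncard = 5 := by
    have h1 := Set.ncard_insert_of_notMem heI (Set.toFinite _)
    rw [hHe, Set.ncard_coe_finset, hF.1 c] at h1
    omega
  have hJcard : J.ncard = 6 := by
    have := hJ.1
    omega
  by_cases hsub : J ⊆ insert e I
  · have h3 : J = insert e I := by
      apply Set.eq_of_subset_of_ncard_le hsub _ (Set.toFinite _)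
      rw [Set.ncard_insert_of_notMem heI (Set.toFinite _)]
      omega
    exact hJ.2 c (h3.trans hHe)
  · rw [Set.not_subset] at hsub
    obtain ⟨f, hfJ, hf⟩ := hsub
    rw [Set.mem_insert_iff, not_or] at hf
    obtain ⟨c', hHf⟩ := key f hfJ hf.2
    have hne' : c ≠ c' := by
      rintro rfl
      rw [← hHf] at hHe
      have : e ∈ insert f I := by
        rw [← hHe]
        exact Set.mem_insert _ _
      rcases this with h' | h'
      · exact hf.1 h'.symm
      · exact heI h'
    have h4 := hF.2 c c' hne'
    have h5 : I ⊆ ((F c ∩ F c' : Finset (Fin 12)) : Set (Fin 12)) := by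
      rw [Finset.coe_inter, ← hHe, ← hHf]
      exact Set.subset_inter (Set.subset_insert _ _) (Set.subset_insert _ _)
    have h6 := Set.ncard_le_ncard h5 (Set.toFinite _)
    rw [Set.ncard_coe_finset] at h6
    omega

/-- The sparse paving matroid with circuit-hyperplanes `F`. -/
def mat (F : Fin 7 → Finset (Fin 12)) (hF : Good F) : Matroid (Fin 12) :=
  (IndepMatroid.ofFinite (E := Set.univ) Set.finite_univ (Ind F) (ind_empty hF)
    (fun _ _ hJ hIJ => ind_subset hF hJ hIJ) (fun _ _ hI hJ h => ind_aug hF hI hJ h)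
    (fun _ _ => Set.subset_univ _)).matroid

theorem mat_indep {F : Fin 7 → Finset (Fin 12)} {hF : Good F} {I : Set (Fin 12)} :
    (mat F hF).Indep I ↔ Ind F I := Iff.rfl

theorem mat_E {F : Fin 7 → Finset (Fin 12)} {hF : Good F} : (mat F hF).E = Set.univ := rfl

def maskM : Fin 7 → Nat := ![1386, 1429, 1621, 2409, 2457, 2714, 2726]

def maskN : Fin 7 → Nat := ![1638, 1689, 1369, 2729, 2389, 2454, 2474]

/-- The circuit-hyperplanes of the first matroid. -/
def FM (c : Fin 7) : Finset (Fin 12) := Finset.univ.filter (fun x => (maskM c).testBit x)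

/-- The circuit-hyperplanes of the second matroid. -/
def FN (c : Fin 7) : Finset (Fin 12) := Finset.univ.filter (fun x => (maskN c).testBit x)

theorem goodM : Good FM := by
  unfold Good
  decide +kernel

theorem goodN : Good FN := by
  unfold Good
  decide +kernel

/-- Row `e` maps the members of `FM` containing `e` onto those of `FN` containing `e`. -/
def tab : Fin 12 → Fin 12 → Fin 12 :=
  ![![0, 1, 7, 6, 3, 2, 11, 10, 4, 5, 9, 8],
    ![0, 1, 3, 2, 4, 5, 6, 7, 9, 8, 10, 11],
    ![4, 5, 2, 3, 8, 9, 0, 1, 7, 6, 11, 10],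
    ![9, 8, 2, 3, 5, 4, 10, 11, 0, 1, 6, 7],
    ![0, 1, 3, 2, 4, 5, 9, 8, 6, 7, 10, 11],
    ![0, 1, 2, 3, 4, 5, 7, 6, 11, 10, 8, 9],
    ![2, 3, 1, 0, 5, 4, 6, 7, 8, 9, 10, 11],
    ![0, 1, 4, 5, 3, 2, 6, 7, 9, 8, 10, 11],
    ![4, 5, 10, 11, 0, 1, 7, 6, 8, 9, 3, 2],
    ![1, 0, 5, 4, 10, 11, 2, 3, 8, 9, 6, 7],
    ![0, 1, 3, 2, 4, 5, 6, 7, 9, 8, 10, 11],
    ![3, 2, 6, 7, 1, 0, 9, 8, 5, 4, 10, 11]]

/-- The partner of an element. -/
def bar : Fin 12 → Fin 12 := ![1, 0, 3, 2, 5, 4, 7, 6, 9, 8, 11, 10]

theorem tab_inj : ∀ e a b : Fin 12, tab e a = tab e b → a = b := by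
  decide +kernel

theorem tab_fix : ∀ e : Fin 12, tab e e = e := by
  decide +kernel

theorem tab_fix_bar : ∀ e : Fin 12, tab (bar e) e = e := by
  decide +kernel

theorem con_fwd : ∀ e : Fin 12, ∀ c, e ∈ FM c →
    ∃ c', ∀ x, (tab e x ∈ FN c' ↔ x ∈ FM c) := by
  decide +kernel

theorem con_bwd : ∀ e : Fin 12, ∀ c', e ∈ FN c' →
    ∃ c, ∀ x, (tab e x ∈ FN c' ↔ x ∈ FM c) := by
  decide +kernel

theorem del_fwd : ∀ e : Fin 12, ∀ c, e ∉ FM c →
    ∃ c', ∀ x, (tab (bar e) x ∈ FN c' ↔ x ∈ FM c) := by
  decide +kernel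

theorem del_bwd : ∀ e : Fin 12, ∀ c', e ∉ FN c' →
    ∃ c, ∀ x, (tab (bar e) x ∈ FN c' ↔ x ∈ FM c) := by
  decide +kernel

theorem few : ∀ c, (Finset.univ.filter (fun c' => (FN c ∩ FN c').card = 4)).card ≤ 2 := by
  decide +kernel

theorem many : ∀ c ∈ ({1, 3, 5} : Finset (Fin 7)), (FM 4 ∩ FM c).card = 4 := by
  decide +kernel

/-- If `f` is a bijection carrying membership in `A` to membership in `B`, then `f '' A = B`. -/
theorem image_eq {f : Fin 12 → Fin 12} (hf : Function.Injective f) {A B : Finset (Fin 12)}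
    (h : ∀ x, (f x ∈ B ↔ x ∈ A)) : f '' (A : Set (Fin 12)) = (B : Set (Fin 12)) := by
  have hs : Function.Surjective f := Finite.surjective_of_injective hf
  ext y
  obtain ⟨x, rfl⟩ := hs y
  rw [hf.mem_set_image]
  simp only [Finset.mem_coe]
  exact (h x).symm

theorem bijOn_of {f : Fin 12 → Fin 12} (hf : Function.Injective f) {e : Fin 12} (he : f e = e) :
    Set.BijOn f (Set.univ \ {e}) (Set.univ \ {e}) := by
  have hs : Function.Surjective f := Finite.surjective_of_injective hf
  refine ⟨?_, hf.injOn, ?_⟩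
  · rintro x ⟨-, hx⟩
    refine ⟨Set.mem_univ _, fun h => hx ?_⟩
    exact hf (h.trans he.symm)
  · rintro y ⟨-, hy⟩
    obtain ⟨x, rfl⟩ := hs y
    refine ⟨x, ⟨Set.mem_univ _, fun h => hy ?_⟩, rfl⟩
    have hx : x = e := h
    rw [hx, he]
    rfl

theorem main_del (e : Fin 12) (I : Set (Fin 12)) (heI : e ∉ I) :
    Ind FM I ↔ Ind FN (tab (bar e) '' I) := by
  have hinj : Function.Injective (tab (bar e)) := fun a b h => tab_inj _ a b h
  unfold Ind
  rw [Set.ncard_image_of_injective _ hinj]
  refine and_congr_right fun _ => ?_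
  constructor
  · intro h c' hI
    have heH : e ∉ FN c' := by
      intro h1
      have h2 : e ∈ tab (bar e) '' I := by
        rw [hI]
        exact_mod_cast h1
      obtain ⟨x, hx, hxe⟩ := h2
      have : x = e := hinj (hxe.trans (tab_fix_bar e).symm)
      exact heI (this ▸ hx)
    obtain ⟨c, hc⟩ := del_bwd e c' heH
    apply h c
    rw [← image_eq hinj hc] at hI
    exact hinj.image_injective hI
  · intro h c hI
    have heH : e ∉ FM c := by
      intro h1
      apply heI
      rw [hI]
      exact_mod_cast h1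
    obtain ⟨c', hc⟩ := del_fwd e c heH
    apply h c'
    rw [← image_eq hinj hc, hI]

theorem main_con (e : Fin 12) (I : Set (Fin 12)) :
    Ind FM (insert e I) ↔ Ind FN (insert e (tab e '' I)) := by
  have hinj : Function.Injective (tab e) := fun a b h => tab_inj _ a b h
  have himg : insert e (tab e '' I) = tab e '' (insert e I) := by
    rw [Set.image_insert_eq, tab_fix]
  rw [himg]
  unfold Ind
  rw [Set.ncard_image_of_injective _ hinj]
  refine and_congr_right fun _ => ?_
  constructor
  · intro h c' hI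
    have heH : e ∈ FN c' := by
      have h2 : e ∈ (FN c' : Set (Fin 12)) := by
        rw [← hI]
        exact ⟨e, Set.mem_insert _ _, tab_fix e⟩
      exact_mod_cast h2
    obtain ⟨c, hc⟩ := con_bwd e c' heH
    apply h c
    rw [← image_eq hinj hc] at hI
    exact hinj.image_injective hI
  · intro h c hI
    have heH : e ∈ FM c := by
      have h2 : e ∈ (FM c : Set (Fin 12)) := by
        rw [← hI]
        exact Set.mem_insert _ _
      exact_mod_cast h2
    obtain ⟨c', hc⟩ := con_fwd e c heH
    apply h c'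
    rw [← image_eq hinj hc, hI]

/-- The negation of the preceding statement: Every finite matroid M with at least two elements is minor reconstructible: any matroid N on the same ground set with N\e isomorphic to M\e and N/e isomorphic to M/e for every element e is isomorphic to M. -/
theorem result :
    ¬ (∀ (α : Type) (M N : Matroid α), M.Finite → N.E = M.E → 2 ≤ M.E.ncard →
      (∀ e ∈ M.E,
        (∃ f : α → α, Set.BijOn f (M.delete {e}).E (N.delete {e}).E ∧
          ∀ I ⊆ (M.delete {e}).E, ((M.delete {e}).Indep I ↔ (N.delete {e}).Indep (f '' I))) ∧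
        (∃ f : α → α, Set.BijOn f (M.contract {e}).E (N.contract {e}).E ∧
          ∀ I ⊆ (M.contract {e}).E, ((M.contract {e}).Indep I ↔ (N.contract {e}).Indep (f '' I)))) →
      ∃ f : α → α, Set.BijOn f M.E N.E ∧ ∀ I ⊆ M.E, (M.Indep I ↔ N.Indep (f '' I))) := by
  intro hall
  have hfin : (mat FM goodM).Finite := ⟨Set.toFinite _⟩
  have h2 : 2 ≤ (mat FM goodM).E.ncard := by
    rw [mat_E, Set.ncard_univ]
    simp
  refine absurd (hall (Fin 12) (mat FM goodM) (mat FN goodN) hfin rfl h2 ?_) ?_
  · -- the decks agree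
    intro e _
    constructor
    · refine ⟨tab (bar e), ?_, ?_⟩
      · rw [Matroid.delete_ground, Matroid.delete_ground, mat_E, mat_E]
        exact bijOn_of (fun a b h => tab_inj _ a b h) (tab_fix_bar e)
      · intro I hI
        have heI : e ∉ I := fun h => (hI h).2 rfl
        have heI' : e ∉ tab (bar e) '' I := by
          rintro ⟨x, hx, hxe⟩
          have : x = e := tab_inj _ _ _ (hxe.trans (tab_fix_bar e).symm)
          exact heI (this ▸ hx)
        rw [Matroid.delete_indep_iff, Matroid.delete_indep_iff, mat_indep, mat_indep,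
          Set.disjoint_singleton_right, Set.disjoint_singleton_right]
        simp only [heI, heI', not_false_eq_true, and_true]
        exact main_del e I heI
    · refine ⟨tab e, ?_, ?_⟩
      · rw [Matroid.contract_ground, Matroid.contract_ground, mat_E, mat_E]
        exact bijOn_of (fun a b h => tab_inj _ a b h) (tab_fix e)
      · intro I hI
        have heI : e ∉ I := fun h => (hI h).2 rfl
        have heI' : e ∉ tab e '' I := by
          rintro ⟨x, hx, hxe⟩
          have : x = e := tab_inj _ _ _ (hxe.trans (tab_fix e).symm)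
          exact heI (this ▸ hx)
        have hnl : ∀ (F : Fin 7 → Finset (Fin 12)) (hF : Good F), (mat F hF).IsNonloop e := by
          intro F hF
          rw [← Matroid.indep_singleton, mat_indep]
          refine ⟨by simp, fun c h => ?_⟩
          have h1 := hF.1 c
          have h2 : (F c : Set (Fin 12)).ncard = 6 := by rw [Set.ncard_coe_finset, h1]
          rw [← h, Set.ncard_singleton] at h2
          omega
        rw [(hnl FM goodM).contractElem_indep_iff, (hnl FN goodN).contractElem_indep_iff,
          mat_indep, mat_indep]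
        simp only [heI, heI', not_false_eq_true, true_and]
        exact main_con e I
  · -- no isomorphism
    rintro ⟨f, hf, hiso⟩
    rw [mat_E, mat_E] at hf
    have hinj : Function.Injective f := Set.injOn_univ.1 hf.injOn
    have hmap : ∀ c, ∃ c', (FM c).image f = FN c' := by
      intro c
      have h1 : ¬ Ind FM (FM c : Set (Fin 12)) := fun h => h.2 c rfl
      rw [← mat_indep (hF := goodM), hiso _ (Set.subset_univ _), mat_indep] at h1
      unfold Ind at h1
      rw [Set.ncard_image_of_injective _ hinj, Set.ncard_coe_finset, goodM.1 c] at h1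
      simp only [le_refl, true_and, not_forall, not_not] at h1
      obtain ⟨c', h2⟩ := h1
      refine ⟨c', ?_⟩
      apply Finset.coe_injective
      rw [Finset.coe_image, h2]
    choose g hg using hmap
    have hcard : ∀ a b : Fin 7, (FN (g a) ∩ FN (g b)).card = (FM a ∩ FM b).card := by
      intro a b
      rw [← hg, ← hg, ← Finset.image_inter _ _ hinj, Finset.card_image_of_injective _ hinj]
    have hginj : Function.Injective g := by
      intro a b hab
      by_contra hne
      have h1 := hcard a b
      rw [hab, Finset.inter_self, goodN.1] at h1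
      have h2 := goodM.2 a b hne
      omega
    have hfew := few (g 4)
    have hsub : ({1, 3, 5} : Finset (Fin 7)).image g ⊆
        Finset.univ.filter (fun c' => (FN (g 4) ∩ FN c').card = 4) := by
      intro b hb
      rw [Finset.mem_image] at hb
      obtain ⟨a, ha, rfl⟩ := hb
      rw [Finset.mem_filter]
      exact ⟨Finset.mem_univ _, by rw [hcard]; exact many a ha⟩
    have hc3 : (({1, 3, 5} : Finset (Fin 7)).image g).card = 3 := by
      rw [Finset.card_image_of_injective _ hginj]
      decide
    have := Finset.card_le_card hsub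
    omega

end Pool.Agent.S06946
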