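import Pool.Statements.S06970

set_option autoImplicit false
open Pool Pool.MP_b67a76_co

namespace Pool.Agent.S06970

/-- ambient space over the field with two elements, of dimension `m + 1` -/
abbrev Amb (m : ℕ) := (Fin m → ZMod 2) × ZMod 2

/-- ground set: affine points `inl x`, and the circuit `inr none, inr (some i)` at infinity -/
abbrev Gr (m : ℕ) := (Fin m → ZMod 2) ⊕ Option (Fin m)

/-- the vector of an element -/
def vec (m : ℕ) : Gr m → Amb m
  | Sum.inl x => (x, 1)
  | Sum.inr none => (fun _ => 1, 0)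
  | Sum.inr (some i) => (Pi.single i 1, 0)

/-- the circuit-hyperplane -/
def HH (m : ℕ) : Set (Gr m) := Set.range Sum.inr

/-- linear independence in the binary matroid -/
abbrev LI (m : ℕ) (I : Set (Gr m)) : Prop := LinearIndepOn (ZMod 2) (vec m) I

lemma ncard_HH (m : ℕ) : (HH m).ncard = m + 1 := by
  unfold HH
  rw [← Set.image_univ, Set.ncard_image_of_injective _ Sum.inr_injective, Set.ncard_univ]
  simp

lemma finrank_Amb (m : ℕ) : Module.finrank (ZMod 2) (Amb m) = m + 1 := by
  simp [Amb]

lemma finrank_span {m : ℕ} {I : Set (Gr m)} (hI : LI m I) :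
    Module.finrank (ZMod 2) (Submodule.span (ZMod 2) (vec m '' I)) = I.ncard := by
  classical
  have h := finrank_span_eq_card (R := ZMod 2) (b := fun x : I => vec m x) hI
  have h2 : Set.range (fun x : I => vec m x) = vec m '' I := by
    ext y; simp
  rw [h2] at h
  rw [h, Set.ncard_eq_toFinset_card', Set.toFinset_card]

lemma ncard_le {m : ℕ} {I : Set (Gr m)} (hI : LI m I) : I.ncard ≤ m + 1 := by
  rw [← finrank_span hI, ← finrank_Amb m]
  exact Submodule.finrank_le _

lemma aug {m : ℕ} {I J : Set (Gr m)} (hI : LI m I) (hJ : LI m J) (h : I.ncard < J.ncard) :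
    ∃ e ∈ J, e ∉ I ∧ LI m (insert e I) := by
  by_contra hcon
  push Not at hcon
  have h1 : Submodule.span (ZMod 2) (vec m '' J) ≤ Submodule.span (ZMod 2) (vec m '' I) := by
    rw [Submodule.span_le]
    rintro _ ⟨e, he, rfl⟩
    by_cases heI : e ∈ I
    · exact Submodule.subset_span ⟨e, heI, rfl⟩
    · have := hcon e he heI
      by_contra hn
      exact this ((linearIndepOn_insert heI).2 ⟨hI, hn⟩)
  have h2 := Submodule.finrank_mono h1
  rw [finrank_span hI, finrank_span hJ] at h2
  omega

lemma span_HH (m : ℕ) (x : Fin m → ZMod 2) :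
    ((x, 0) : Amb m) ∈ Submodule.span (ZMod 2) (vec m '' HH m) := by
  have h : ((x, 0) : Amb m) = ∑ i, x i • vec m (Sum.inr (some i)) := by
    ext j
    · simp [vec, Prod.fst_sum, Finset.sum_apply, Pi.single_apply]
    · simp [vec, Prod.snd_sum]
  rw [h]
  refine Submodule.sum_mem _ fun i _ => Submodule.smul_mem _ _ (Submodule.subset_span ?_)
  exact ⟨_, ⟨some i, rfl⟩, rfl⟩

lemma span_HH_insert {m : ℕ} (x : Fin m → ZMod 2) (S : Submodule (ZMod 2) (Amb m))
    (hS : vec m '' HH m ⊆ S) (hx : ((x, 1) : Amb m) ∈ S) : S = ⊤ := by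
  rw [eq_top_iff]
  rintro ⟨y, t⟩ -
  have h1 : ((y - t • x, 0) : Amb m) ∈ S :=
    (Submodule.span_le.2 hS) (span_HH m _)
  have h2 : ((y, t) : Amb m) = (y - t • x, 0) + t • (x, 1) := by
    ext <;> simp
  rw [h2]
  exact S.add_mem h1 (S.smul_mem _ hx)

/-- proper subsets of the circuit are independent -/
lemma LI_proper {m : ℕ} {I : Set (Gr m)} (hI : I ⊆ HH m) (hne : I ≠ HH m) : LI m I := by
  classical
  obtain ⟨e, heH, heI⟩ : ∃ e ∈ HH m, e ∉ I := by
    by_contra hcon
    push Not at hcon
    exact hne (Set.Subset.antisymm hI hcon)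
  obtain ⟨e, rfl⟩ := heH
  rw [LI, linearIndepOn_iff]
  intro l hl h0
  have hinl : ∀ x, l (Sum.inl x) = 0 := by
    intro x
    by_contra hx
    have : (Sum.inl x : Gr m) ∈ I := (Finsupp.mem_supported _ _).1 hl (by simpa using hx)
    obtain ⟨y, hy⟩ := hI this
    cases hy
  have he0 : l (Sum.inr e) = 0 := by
    by_contra hx
    exact heI ((Finsupp.mem_supported _ _).1 hl (by simpa using hx))
  rw [Finsupp.linearCombination_apply, Finsupp.sum_fintype _ _ (by simp), Fintype.sum_sum_type,
    Fintype.sum_option] at h0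
  simp only [hinl, zero_smul, Finset.sum_const_zero, zero_add] at h0
  have h1 : ∀ j, l (Sum.inr none) + l (Sum.inr (some j)) = 0 := by
    intro j
    have := congrFun (congrArg Prod.fst h0) j
    simpa [vec, Prod.fst_sum, Finset.sum_apply, Pi.single_apply] using this
  have h2 : l (Sum.inr none) = 0 := by
    rcases e with _ | j
    · exact he0
    · have := h1 j
      rwa [he0, add_zero] at this
  ext x
  rcases x with x | x | x
  · exact hinl x
  · exact h2
  · have := h1 x
    rwa [h2, zero_add] at this

/-- independence predicate of the relaxation -/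
def Ind (m : ℕ) (I : Set (Gr m)) : Prop := LI m I ∨ I = HH m

lemma ncard_le' {m : ℕ} {I : Set (Gr m)} (hI : Ind m I) : I.ncard ≤ m + 1 := by
  rcases hI with h | rfl
  · exact ncard_le h
  · exact (ncard_HH m).le

/-- the relaxed matroid -/
noncomputable def Rel (m : ℕ) : Matroid (Gr m) :=
  (IndepMatroid.ofFinite (E := Set.univ) (Set.toFinite _) (Ind m)
    (Or.inl (linearIndepOn_empty _ _))
    (by
      rintro I J (hJ | rfl) hIJ
      · exact Or.inl (hJ.mono hIJ)
      · by_cases h : I = HH m
        · exact Or.inr h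
        · exact Or.inl (LI_proper hIJ h))
    (by
      rintro I J (hI | rfl) (hJ | rfl) hlt
      · obtain ⟨e, h1, h2, h3⟩ := aug hI hJ hlt
        exact ⟨e, h1, h2, Or.inl h3⟩
      · by_cases hsub : I ⊆ HH m
        · have hne : ∃ e ∈ HH m, e ∉ I := by
            by_contra hcon
            push Not at hcon
            have := Set.Subset.antisymm hsub hcon
            rw [this] at hlt
            exact lt_irrefl _ hlt
          obtain ⟨e, he1, he2⟩ := hne
          refine ⟨e, he1, he2, ?_⟩
          have h3 : insert e I ⊆ HH m := Set.insert_subset he1 hsub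
          by_cases h4 : insert e I = HH m
          · exact Or.inr h4
          · exact Or.inl (LI_proper h3 h4)
        · by_contra hcon
          push Not at hcon
          obtain ⟨a, haI, haH⟩ := Set.not_subset.1 hsub
          have h1 : vec m '' HH m ⊆ Submodule.span (ZMod 2) (vec m '' I) := by
            rintro _ ⟨e, he, rfl⟩
            by_cases heI : e ∈ I
            · exact Submodule.subset_span ⟨e, heI, rfl⟩
            · by_contra hn
              exact hcon e he heI (Or.inl ((linearIndepOn_insert heI).2 ⟨hI, hn⟩))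
          rcases a with x | b
          · have h2 : ((x, 1) : Amb m) ∈ Submodule.span (ZMod 2) (vec m '' I) :=
              Submodule.subset_span ⟨_, haI, rfl⟩
            have h3 := span_HH_insert x _ h1 h2
            have h4 := finrank_span hI
            rw [h3, finrank_top, finrank_Amb] at h4
            rw [ncard_HH] at hlt
            omega
          · exact haH ⟨b, rfl⟩
      · have := ncard_le hJ
        rw [ncard_HH] at hlt
        omega
      · exact absurd hlt (lt_irrefl _))
    (fun I _ => Set.subset_univ _)).matroid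

lemma Rel_E (m : ℕ) : (Rel m).E = Set.univ := rfl

lemma Rel_indep {m : ℕ} {I : Set (Gr m)} : (Rel m).Indep I ↔ Ind m I := by
  rfl

lemma isBase_of_ncard {m : ℕ} {B : Set (Gr m)} (hB : Ind m B) (hc : B.ncard = m + 1) :
    (Rel m).IsBase B := by
  rw [Matroid.isBase_iff_maximal_indep]
  refine ⟨hB, fun J hJ hBJ => ?_⟩
  have h1 := ncard_le' (Rel_indep.1 hJ)
  have h2 := Set.eq_of_subset_of_ncard_le hBJ (by omega) (Set.toFinite _)
  exact h2.symm.le

lemma spanning_of_span {m : ℕ} {X : Set (Gr m)}
    (hX : Submodule.span (ZMod 2) (vec m '' X) = ⊤) : (Rel m).Spanning X := by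
  obtain ⟨B, hB1, -, hB2, hB3⟩ := exists_linearIndepOn_extension
    (linearIndepOn_empty (ZMod 2) (vec m)) (Set.empty_subset X)
  have h1 : Submodule.span (ZMod 2) (vec m '' B) = ⊤ := by
    rw [eq_top_iff, ← hX]
    exact Submodule.span_le.2 hB2
  have h2 := finrank_span hB3
  rw [h1, finrank_top, finrank_Amb] at h2
  have h3 := isBase_of_ncard (Or.inl hB3) h2.symm
  exact h3.spanning.superset hB1 (Set.subset_univ _)

lemma zmod2_cases (a : ZMod 2) : a = 0 ∨ a = 1 := by
  revert a
  decide

/-- the relaxation is round -/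
lemma round (m : ℕ) (X Y : Set (Gr m)) (hXY : X ∪ Y = Set.univ) :
    (Rel m).Spanning X ∨ (Rel m).Spanning Y := by
  by_contra hcon
  push Not at hcon
  obtain ⟨hX, hY⟩ := hcon
  have key : ∀ X Y : Set (Gr m), X ∪ Y = Set.univ →
      ∀ f g : Amb m →ₗ[ZMod 2] ZMod 2, f ≠ 0 → g ≠ 0 → (∀ e ∈ X, f (vec m e) = 0) →
      (∀ e ∈ Y, g (vec m e) = 0) → f (0, 1) = 0 → False := by
    intro X Y hXY f g hf hg hfX hgY h01
    have hE : ∀ e, f (vec m e) = 0 ∨ g (vec m e) = 0 := by
      intro e
      have : e ∈ X ∪ Y := by rw [hXY]; trivial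
      rcases this with h | h
      · exact Or.inl (hfX e h)
      · exact Or.inr (hgY e h)
    -- some coordinate vector is not in the kernel of `f`
    obtain ⟨i, hi⟩ : ∃ i : Fin m, f (Pi.single i 1, 0) ≠ 0 := by
      by_contra hcon
      push Not at hcon
      apply hf
      have hker : LinearMap.ker f = ⊤ := by
        apply span_HH_insert 0
        · rintro _ ⟨e, ⟨b, rfl⟩, rfl⟩
          have hsub : vec m (Sum.inr b) ∈ Submodule.span (ZMod 2)
              (Set.range fun i : Fin m => ((Pi.single i 1, 0) : Amb m)) := by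
            have hb : ∃ x, vec m (Sum.inr b) = ((x, 0) : Amb m) := by
              rcases b with _ | b
              · exact ⟨_, rfl⟩
              · exact ⟨_, rfl⟩
            obtain ⟨x, hx⟩ := hb
            rw [hx]
            have h : ((x, 0) : Amb m) = ∑ i, x i • ((Pi.single i 1, 0) : Amb m) := by
              ext j
              · simp [Prod.fst_sum, Finset.sum_apply, Pi.single_apply]
              · simp [Prod.snd_sum]
            rw [h]
            exact Submodule.sum_mem _ fun i _ => Submodule.smul_mem _ _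
              (Submodule.subset_span ⟨i, rfl⟩)
          refine (Submodule.span_le.2 ?_ : _ ≤ LinearMap.ker f) hsub
          rintro _ ⟨i, rfl⟩
          exact hcon i
        · exact h01
      exact LinearMap.ker_eq_top.1 hker
    have hi1 : f (Pi.single i 1, 0) = 1 := by
      rcases zmod2_cases (f (Pi.single i 1, 0)) with h | h
      · exact absurd h hi
      · exact h
    have hgi : g (Pi.single i 1, 0) = 0 := by
      rcases hE (Sum.inr (some i)) with h | h
      · exact absurd h hi
      · exact h
    have hg01 : g (0, 1) = 0 := by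
      rcases hE (Sum.inl (Pi.single i 1)) with h | h
      · exfalso
        have h2 : vec m (Sum.inl (Pi.single i 1)) = ((Pi.single i 1, 0) : Amb m) + (0, 1) := by
          simp [vec]
        rw [h2, map_add, h01, hi1] at h
        simp at h
      · have h2 : vec m (Sum.inl (Pi.single i 1)) = ((Pi.single i 1, 0) : Amb m) + (0, 1) := by
          simp [vec]
        rw [h2, map_add, hgi, zero_add] at h
        exact h
    have hgy : ∀ y : Fin m → ZMod 2, g (y, 0) = 0 := by
      intro y
      by_contra hy
      have hy1 : g (y, 0) = 1 := by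
        rcases zmod2_cases (g (y, 0)) with h | h
        · exact absurd h hy
        · exact h
      have e1 : ∀ z : Fin m → ZMod 2, f (z, 1) = f (z, 0) := by
        intro z
        have : ((z, 1) : Amb m) = (z, 0) + (0, 1) := by simp
        rw [this, map_add, h01, add_zero]
      have e2 : ∀ z : Fin m → ZMod 2, g (z, 1) = g (z, 0) := by
        intro z
        have : ((z, 1) : Amb m) = (z, 0) + (0, 1) := by simp
        rw [this, map_add, hg01, add_zero]
      have hfy : f (y, 0) = 0 := by
        rcases hE (Sum.inl y) with h | h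
        · change f (y, 1) = 0 at h
          rw [e1] at h
          exact h
        · change g (y, 1) = 0 at h
          rw [e2] at h
          exact absurd h hy
      have e3 : ((Pi.single i 1 + y, 0) : Amb m) = (Pi.single i 1, 0) + (y, 0) := by simp
      rcases hE (Sum.inl (Pi.single i 1 + y)) with h | h
      · change f (Pi.single i 1 + y, 1) = 0 at h
        rw [e1, e3, map_add, hi1, hfy] at h
        simp at h
      · change g (Pi.single i 1 + y, 1) = 0 at h
        rw [e2, e3, map_add, hgi, hy1] at h
        simp at h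
    apply hg
    refine LinearMap.ext fun z => ?_
    rcases z with ⟨y, t⟩
    have e4 : ((y, t) : Amb m) = (y, 0) + t • (0, 1) := by simp
    rw [e4, map_add, map_smul, hgy, hg01]
    simp
  have hX' : Submodule.span (ZMod 2) (vec m '' X) < ⊤ := by
    rw [lt_top_iff_ne_top]
    exact fun h => hX (spanning_of_span h)
  have hY' : Submodule.span (ZMod 2) (vec m '' Y) < ⊤ := by
    rw [lt_top_iff_ne_top]
    exact fun h => hY (spanning_of_span h)
  obtain ⟨f, hf, hfX⟩ := Submodule.exists_le_ker_of_lt_top _ hX'
  obtain ⟨g, hg, hgY⟩ := Submodule.exists_le_ker_of_lt_top _ hY'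
  have hfX' : ∀ e ∈ X, f (vec m e) = 0 := fun e he => hfX (Submodule.subset_span ⟨e, he, rfl⟩)
  have hgY' : ∀ e ∈ Y, g (vec m e) = 0 := fun e he => hgY (Submodule.subset_span ⟨e, he, rfl⟩)
  have hE : f (0, 1) = 0 ∨ g (0, 1) = 0 := by
    have : (Sum.inl 0 : Gr m) ∈ X ∪ Y := by rw [hXY]; trivial
    rcases this with h | h
    · exact Or.inl (hfX' _ h)
    · exact Or.inr (hgY' _ h)
  rcases hE with h | h
  · exact key X Y hXY f g hf hg hfX' hgY' h
  · exact key Y X (by rw [Set.union_comm]; exact hXY) g f hg hf hgY' hfX' h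

lemma key3 {ι V : Type*} [AddCommGroup V] [Module (ZMod 2) V] (v : ι → V) (C : Set ι) {a b c : ι}
    (hc : c ∉ insert a (insert b C))
    (hab : LinearIndepOn (ZMod 2) v (insert a (insert b C)))
    (hca : LinearIndepOn (ZMod 2) v (insert c (insert a C)))
    (hcb : LinearIndepOn (ZMod 2) v (insert c (insert b C)))
    (habc : ¬ LinearIndepOn (ZMod 2) v (insert c (insert a (insert b C)))) :
    ∃ w ∈ Submodule.span (ZMod 2) (v '' C), v c = v a + v b + w := by
  rw [linearIndepOn_insert hc] at habc
  have h1 : v c ∈ Submodule.span (ZMod 2) (v '' insert a (insert b C)) := by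
    by_contra h
    exact habc ⟨hab, h⟩
  have hca' : c ∉ insert a C := fun h => hc (by
    rcases h with h | h
    · exact Or.inl h
    · exact Or.inr (Or.inr h))
  have hcb' : c ∉ insert b C := fun h => hc (Or.inr h)
  rw [linearIndepOn_insert hca'] at hca
  rw [linearIndepOn_insert hcb'] at hcb
  rw [Set.image_insert_eq, Set.image_insert_eq, Submodule.mem_span_insert] at h1
  obtain ⟨α, z, hz, h2⟩ := h1
  obtain ⟨β, w, hw, rfl⟩ := Submodule.mem_span_insert.1 hz
  refine ⟨w, hw, ?_⟩
  have hα : α = 1 := by
    rcases zmod2_cases α with h | h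
    · exfalso
      apply hcb.2
      rw [h2, h, zero_smul, zero_add, Set.image_insert_eq]
      exact hz
    · exact h
  have hβ : β = 1 := by
    rcases zmod2_cases β with h | h
    · exfalso
      apply hca.2
      rw [h2, h, zero_smul, zero_add, Set.image_insert_eq]
      exact Submodule.mem_span_insert.2 ⟨α, w, hw, rfl⟩
    · exact h
  rw [h2, hα, hβ, one_smul, one_smul, add_assoc]

/-- a binary representation cannot contain a four point line -/
lemma noU24 {ι V : Type*} [AddCommGroup V] [Module (ZMod 2) V] (v : ι → V) (C : Set ι)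
    {a b c d : ι} (hc : c ∉ insert a (insert b C)) (hd : d ∉ insert a (insert b C)) (hcd : d ≠ c)
    (hab : LinearIndepOn (ZMod 2) v (insert a (insert b C)))
    (hca : LinearIndepOn (ZMod 2) v (insert c (insert a C)))
    (hcb : LinearIndepOn (ZMod 2) v (insert c (insert b C)))
    (hda : LinearIndepOn (ZMod 2) v (insert d (insert a C)))
    (hdb : LinearIndepOn (ZMod 2) v (insert d (insert b C)))
    (hdc : LinearIndepOn (ZMod 2) v (insert d (insert c C)))
    (habc : ¬ LinearIndepOn (ZMod 2) v (insert c (insert a (insert b C))))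
    (habd : ¬ LinearIndepOn (ZMod 2) v (insert d (insert a (insert b C)))) : False := by
  obtain ⟨w1, hw1, h1⟩ := key3 v C hc hab hca hcb habc
  obtain ⟨w2, hw2, h2⟩ := key3 v C hd hab hda hdb habd
  have hdc' : d ∉ insert c C := by
    rintro (h | h)
    · exact hcd h
    · exact hd (Or.inr (Or.inr h))
  rw [linearIndepOn_insert hdc'] at hdc
  apply hdc.2
  have h3 : v d = v c + (w2 - w1) := by rw [h1, h2]; abel
  rw [h3, Set.image_insert_eq]
  exact Submodule.add_mem _ (Submodule.subset_span (Set.mem_insert _ _))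
    (Submodule.span_mono (Set.subset_insert _ _) (Submodule.sub_mem _ hw2 hw1))

/-- no five point line minor -/
lemma noU25 (m : ℕ) : ¬ ∃ N : Matroid (Gr m), Matroid.IsMinor N (Rel m) ∧ N.E.ncard = 2 ^ 2 + 1 ∧
    ∀ I : Set (Gr m), I ⊆ N.E → (N.Indep I ↔ I.ncard ≤ 2) := by
  rintro ⟨N, hN, hcard, hind⟩
  obtain ⟨C, D, -, -, -, rfl⟩ := hN.exists_eq_contract_delete_disjoint
  obtain ⟨K, hK⟩ := (Rel m).exists_isBasis C (Set.subset_univ _)
  have hE : (((Rel m).contract C).delete D).E = (Set.univ \ C) \ D := rfl
  -- translate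
  have hind' : ∀ I : Set (Gr m), I ⊆ (((Rel m).contract C).delete D).E → (Ind m (I ∪ K) ↔ I.ncard ≤ 2) := by
    intro I hI
    rw [← hind I hI, Matroid.delete_indep_iff, hK.contract_indep_iff, Rel_indep]
    have h1 : Disjoint C I := Set.disjoint_left.2 fun x hx hxI => (hI hxI).1.2 hx
    have h2 : Disjoint I D := Set.disjoint_left.2 fun x hx hxI => (hI hx).2 hxI
    rw [and_iff_left h2, and_iff_left h1]
  have hKE : ∀ x ∈ (((Rel m).contract C).delete D).E, x ∉ K := fun x hx hxK => hx.1.2 (hK.subset hxK)
  generalize (((Rel m).contract C).delete D).E = E at *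
  -- remove at most one bad element
  obtain ⟨p, hp⟩ : ∃ p : Gr m, ∀ x y : Gr m, x ∈ E → y ∈ E → x ≠ y → x ≠ p → y ≠ p →
      LI m (insert x (insert y K)) := by
    by_cases hb : ∃ x y : Gr m, x ∈ E ∧ y ∈ E ∧ x ≠ y ∧ insert x (insert y K) = HH m
    · obtain ⟨x, y, hx, hy, hxy, hb⟩ := hb
      refine ⟨x, fun x' y' hx' hy' hxy' hxp hyp => ?_⟩
      have h1 : Ind m ({x', y'} ∪ K) := by
        rw [hind' _ (Set.insert_subset hx' (Set.singleton_subset_iff.2 hy')), Set.ncard_pair hxy']
      have h2 : ({x', y'} ∪ K : Set (Gr m)) = insert x' (insert y' K) := by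
        ext z; simp [or_assoc]
      rw [h2] at h1
      rcases h1 with h1 | h1
      · exact h1
      · exfalso
        have : x ∈ insert x' (insert y' K) := by
          rw [h1, ← hb]; exact Set.mem_insert _ _
        rcases this with h | h | h
        · exact hxp h.symm
        · exact hyp h.symm
        · exact hKE x hx h
    · push Not at hb
      obtain ⟨p, -⟩ : ∃ p, p ∈ E := by
        by_contra hcon
        push Not at hcon
        have : E = ∅ := Set.eq_empty_iff_forall_notMem.2 hcon
        rw [this] at hcard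
        simp at hcard
      refine ⟨p, fun x' y' hx' hy' hxy' _ _ => ?_⟩
      have h1 : Ind m ({x', y'} ∪ K) := by
        rw [hind' _ (Set.insert_subset hx' (Set.singleton_subset_iff.2 hy')), Set.ncard_pair hxy']
      have h2 : ({x', y'} ∪ K : Set (Gr m)) = insert x' (insert y' K) := by
        ext z; simp [or_assoc]
      rw [h2] at h1
      rcases h1 with h1 | h1
      · exact h1
      · exact absurd h1 (hb x' y' hx' hy' hxy')
  have hcard4 : 4 ≤ (E \ {p}).ncard := by
    have := Set.ncard_sdiff_singleton_add_one (s := E) (a := p)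
    have h2 := Set.ncard_le_ncard_sdiff_add_ncard E {p}
    rw [Set.ncard_singleton] at h2
    omega
  obtain ⟨T, hT, hTc⟩ := Set.exists_subset_card_eq hcard4
  obtain ⟨a, b, c, d, hab, hac, had, hbc, hbd, hcd, rfl⟩ := Set.ncard_eq_four.1 hTc
  have ha := hT (show a ∈ ({a, b, c, d} : Set (Gr m)) by simp)
  have hb := hT (show b ∈ ({a, b, c, d} : Set (Gr m)) by simp)
  have hc := hT (show c ∈ ({a, b, c, d} : Set (Gr m)) by simp)
  have hd := hT (show d ∈ ({a, b, c, d} : Set (Gr m)) by simp)
  have htrip : ∀ x y z : Gr m, x ∈ E → y ∈ E → z ∈ E → x ≠ y → x ≠ z → y ≠ z →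
      ¬ LI m (insert z (insert x (insert y K))) := by
    intro x y z hx hy hz hxy hxz hyz h
    have h1 : ({z, x, y} ∪ K : Set (Gr m)) = insert z (insert x (insert y K)) := by
      ext w; simp [or_assoc]
    have h2 : Ind m ({z, x, y} ∪ K) := Or.inl (by rw [h1]; exact h)
    rw [hind' _ (by
      intro w hw
      rcases hw with rfl | rfl | rfl
      · exact hz
      · exact hx
      · exact hy)] at h2
    have h3 : ({z, x, y} : Set (Gr m)).ncard = 3 :=
      Set.ncard_eq_three.2 ⟨z, x, y, hxz.symm, hyz.symm, hxy, rfl⟩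
    omega
  refine noU24 (vec m) K (a := a) (b := b) (c := c) (d := d) ?_ ?_ hcd.symm
    (hp a b ha.1 hb.1 hab ha.2 hb.2) (hp c a hc.1 ha.1 hac.symm hc.2 ha.2)
    (hp c b hc.1 hb.1 hbc.symm hc.2 hb.2) (hp d a hd.1 ha.1 had.symm hd.2 ha.2)
    (hp d b hd.1 hb.1 hbd.symm hd.2 hb.2) (hp d c hd.1 hc.1 hcd.symm hd.2 hc.2)
    (htrip a b c ha.1 hb.1 hc.1 hab hac hbc) (htrip a b d ha.1 hb.1 hd.1 hab had hbd)
  · rintro (h | h | h)
    · exact hac h.symm
    · exact hbc h.symm
    · exact hKE c hc.1 h
  · rintro (h | h | h)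
    · exact had h.symm
    · exact hbd h.symm
    · exact hKE d hd.1 h

/-- the relaxation is not binary -/
lemma nonrep (m : ℕ) (hm : 0 < m) (n : ℕ) (v : Gr m → Fin n → ZMod 2)
    (hv : ∀ I : Set (Gr m), (Rel m).Indep I ↔
      (I ⊆ (Rel m).E ∧ LinearIndependent (ZMod 2) (fun x : I => v (x : Gr m)))) : False := by
  classical
  have hv' : ∀ I : Set (Gr m), LinearIndepOn (ZMod 2) v I ↔ Ind m I := by
    intro I
    rw [← Rel_indep, hv I]
    exact ⟨fun h => ⟨Set.subset_univ _, h⟩, fun h => h.2⟩
  -- the contracted set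
  let i0 : Fin m := ⟨0, hm⟩
  let K : Set (Gr m) := HH m \ {Sum.inr none, Sum.inr (some i0)}
  let a : Gr m := Sum.inl 0
  let b : Gr m := Sum.inl (Pi.single i0 1)
  let c : Gr m := Sum.inr (some i0)
  let d : Gr m := Sum.inr none
  have hcK : c ∉ K := fun h => h.2 (Or.inr rfl)
  have hdK : d ∉ K := fun h => h.2 (Or.inl rfl)
  have haK : a ∉ K := fun h => by
    obtain ⟨y, hy⟩ := h.1
    exact Sum.inr_ne_inl hy
  have hbK : b ∉ K := fun h => by
    obtain ⟨y, hy⟩ := h.1
    exact Sum.inr_ne_inl hy
  have hab : a ≠ b := by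
    intro h
    have h1 := congrFun (Sum.inl_injective h) i0
    simp at h1
  have hac : a ≠ c := Sum.inl_ne_inr
  have had : a ≠ d := Sum.inl_ne_inr
  have hbc : b ≠ c := Sum.inl_ne_inr
  have hbd : b ≠ d := Sum.inl_ne_inr
  have hcd : c ≠ d := fun h => by
    have h1 := Sum.inr_injective h
    simp at h1
  have hKH : K ⊆ HH m := Set.sdiff_subset
  have hfull : insert d (insert c K) = HH m := by
    ext x
    simp only [K, c, d, Set.mem_insert_iff, Set.mem_sdiff, Set.mem_singleton_iff, HH]
    constructor
    · rintro (h | h | h)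
      · rw [h]; exact ⟨none, rfl⟩
      · rw [h]; exact ⟨some i0, rfl⟩
      · exact h.1
    · intro h
      tauto
  have hcH : insert c K ⊆ HH m := by rw [← hfull]; exact Set.subset_insert _ _
  have hdH : insert d K ⊆ HH m := by
    rw [← hfull]; exact Set.insert_subset_insert (Set.subset_insert _ _)
  have hcLI : LI m (insert c K) := by
    apply LI_proper hcH
    intro h
    have : d ∈ insert c K := by rw [h, ← hfull]; exact Set.mem_insert _ _
    rcases this with h | h
    · exact hcd h.symm
    · exact hdK h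
  have hdLI : LI m (insert d K) := by
    apply LI_proper hdH
    intro h
    have : c ∈ insert d K := by rw [h, ← hfull]; exact Or.inr (Set.mem_insert _ _)
    rcases this with h | h
    · exact hcd h
    · exact hcK h
  have hsnd : ∀ S : Set (Gr m), S ⊆ HH m → ∀ w ∈ Submodule.span (ZMod 2) (vec m '' S),
      w.2 = 0 := by
    intro S hS w hw
    have : Submodule.span (ZMod 2) (vec m '' S) ≤
        LinearMap.ker (LinearMap.snd (ZMod 2) (Fin m → ZMod 2) (ZMod 2)) := by
      rw [Submodule.span_le]
      rintro _ ⟨e, he, rfl⟩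
      obtain ⟨y, rfl⟩ := hS he
      rcases y with _ | y
      · rfl
      · rfl
    exact this hw
  have haS : ∀ S : Set (Gr m), S ⊆ HH m → LI m S → LI m (insert a S) := by
    intro S hS hLI
    have ha' : a ∉ S := fun h => by
      obtain ⟨y, hy⟩ := hS h
      exact Sum.inr_ne_inl hy
    rw [LI, linearIndepOn_insert ha']
    refine ⟨hLI, fun h => ?_⟩
    have := hsnd S hS _ h
    simp [vec, a] at this
  have hbS : ∀ S : Set (Gr m), S ⊆ HH m → LI m S → LI m (insert b S) := by
    intro S hS hLI
    have hb' : b ∉ S := fun h => by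
      obtain ⟨y, hy⟩ := hS h
      exact Sum.inr_ne_inl hy
    rw [LI, linearIndepOn_insert hb']
    refine ⟨hLI, fun h => ?_⟩
    have := hsnd S hS _ h
    simp [vec, b] at this
  have hKLI : LI m K := hcLI.mono (Set.subset_insert _ _)
  have habLI : LI m (insert a (insert b K)) := by
    have h1 : a ∉ insert b K := by
      rintro (h | h)
      · exact hab h
      · exact haK h
    rw [LI, linearIndepOn_insert h1]
    refine ⟨hbS K hKH hKLI, fun h => ?_⟩
    rw [Set.image_insert_eq, Submodule.mem_span_insert] at h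
    obtain ⟨α, w, hw, hw2⟩ := h
    have h2 := congrArg Prod.snd hw2
    have h3 := hsnd K hKH w hw
    simp only [vec, a, b, Prod.snd_add, Prod.smul_snd, h3, smul_eq_mul, mul_one, add_zero] at h2
    have h4 : vec m c = - w := by
      have h5 : vec m c = vec m b - vec m a := by
        simp [vec, a, b, c]
      rw [h5, hw2, ← h2, one_smul]
      abel
    have h6 := (linearIndepOn_insert hcK).1 hcLI
    apply h6.2
    rw [h4]
    exact Submodule.neg_mem _ hw
  have hKc : K.ncard + 2 = m + 1 := by
    rw [← ncard_HH m, ← hfull, Set.ncard_insert_of_notMem, Set.ncard_insert_of_notMem hcK]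
    rintro (h | h)
    · exact hcd h.symm
    · exact hdK h
  have habK : (insert a (insert b K)).ncard = K.ncard + 2 := by
    rw [Set.ncard_insert_of_notMem, Set.ncard_insert_of_notMem hbK]
    rintro (h | h)
    · exact hab h
    · exact haK h
  have hc4 : c ∉ insert a (insert b K) := by
    rintro (h | h | h)
    · exact hac h.symm
    · exact hbc h.symm
    · exact hcK h
  have hd4 : d ∉ insert a (insert b K) := by
    rintro (h | h | h)
    · exact had h.symm
    · exact hbd h.symm
    · exact hdK h
  refine noU24 v K (a := a) (b := b) (c := c) (d := d) hc4 hd4 hcd.symm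
    ((hv' _).2 (Or.inl habLI)) ((hv' _).2 (Or.inl ?_)) ((hv' _).2 (Or.inl ?_))
    ((hv' _).2 (Or.inl ?_)) ((hv' _).2 (Or.inl ?_)) ((hv' _).2 (Or.inr hfull)) ?_ ?_
  · rw [Set.insert_comm]; exact haS _ hcH hcLI
  · rw [Set.insert_comm]; exact hbS _ hcH hcLI
  · rw [Set.insert_comm]; exact haS _ hdH hdLI
  · rw [Set.insert_comm]; exact hbS _ hdH hdLI
  · intro h
    have h1 := ncard_le' ((hv' _).1 h)
    rw [Set.ncard_insert_of_notMem hc4, habK] at h1
    omega
  · intro h
    have h1 := ncard_le' ((hv' _).1 h)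
    rw [Set.ncard_insert_of_notMem hd4, habK] at h1
    omega

/-- the projective geometry minor -/
lemma pgMinor (m : ℕ) (hm : 0 < m) : ∃ N : Matroid (Gr m), Matroid.IsMinor N (Rel m) ∧
    ∃ g : Gr m → Projectivization (ZMod 2) (Fin m → ZMod 2), Set.BijOn g N.E Set.univ ∧
      ∀ I : Set (Gr m), N.Indep I ↔
        (I ⊆ N.E ∧ LinearIndependent (ZMod 2) (fun x : I => (g (x : Gr m)).rep)) := by
  classical
  let a : Gr m := Sum.inl 0
  refine ⟨((Rel m).contract {a}).delete (HH m), ⟨{a}, HH m, rfl⟩, ?_⟩
  have hne : (Pi.single ⟨0, hm⟩ 1 : Fin m → ZMod 2) ≠ 0 := by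
    intro h
    have := congrFun h ⟨0, hm⟩
    simp at this
  let p0 : Projectivization (ZMod 2) (Fin m → ZMod 2) := Projectivization.mk _ _ hne
  let g : Gr m → Projectivization (ZMod 2) (Fin m → ZMod 2) := fun e =>
    match e with
    | Sum.inl x => if h : x ≠ 0 then Projectivization.mk _ x h else p0
    | Sum.inr _ => p0
  have hrep : ∀ x : Fin m → ZMod 2, x ≠ 0 → (g (Sum.inl x)).rep = x := by
    intro x hx
    have h1 : g (Sum.inl x) = Projectivization.mk _ x hx := by simp [g, hx]
    rw [h1]
    obtain ⟨u, hu⟩ := Projectivization.exists_smul_eq_mk_rep (ZMod 2) x hx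
    have hu1 : u = 1 := Subsingleton.elim _ _
    rw [← hu, hu1, one_smul]
  have hE : (((Rel m).contract {a}).delete (HH m)).E = (Set.univ \ {a}) \ HH m := rfl
  have hmemE : ∀ e, e ∈ (((Rel m).contract {a}).delete (HH m)).E ↔
      ∃ x : Fin m → ZMod 2, x ≠ 0 ∧ e = Sum.inl x := by
    intro e
    rw [hE]
    rcases e with x | y
    · simp [HH, a]
    · simp [HH]
  refine ⟨g, ⟨fun _ _ => trivial, ?_, ?_⟩, ?_⟩
  · intro e he f hf hef
    obtain ⟨x, hx, rfl⟩ := (hmemE e).1 he
    obtain ⟨y, hy, rfl⟩ := (hmemE f).1 hf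
    have h1 := congrArg Projectivization.rep hef
    rw [hrep x hx, hrep y hy] at h1
    rw [h1]
  · rintro q -
    refine ⟨Sum.inl q.rep, (hmemE _).2 ⟨_, q.rep_nonzero, rfl⟩, ?_⟩
    have h1 : g (Sum.inl q.rep) = Projectivization.mk _ q.rep q.rep_nonzero := by
      simp [g, q.rep_nonzero]
    rw [h1, Projectivization.mk_rep]
  · intro I
    have haI : (Rel m).Indep {a} := Or.inl (by
      rw [LI, linearIndepOn_singleton_iff]
      intro h
      have := congrArg Prod.snd h
      simp [vec, a] at this)
    rw [Matroid.delete_indep_iff, haI.contract_indep_iff, Rel_indep]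
    let P := LinearMap.fst (ZMod 2) (Fin m → ZMod 2) (ZMod 2)
    have hfam : I ⊆ (((Rel m).contract {a}).delete (HH m)).E →
        (fun x : I => (g (x : Gr m)).rep) = fun x : I => P (vec m (x : Gr m)) := by
      intro hIE
      funext x
      obtain ⟨y, hy, hxy⟩ := (hmemE x).1 (hIE x.2)
      rw [hxy, hrep y hy]
      rfl
    have hva : vec m a = (0, 1) := rfl
    have hva0 : vec m a ≠ 0 := by
      intro h
      have := congrArg Prod.snd h
      simp [hva] at this
    constructor
    · rintro ⟨⟨h1, h2⟩, h3⟩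
      have hIE : I ⊆ (((Rel m).contract {a}).delete (HH m)).E := by
        intro e he
        rw [hE]
        refine ⟨⟨trivial, ?_⟩, Set.disjoint_left.1 h3 he⟩
        exact Set.disjoint_left.1 h1 he
      refine ⟨hIE, ?_⟩
      have haI' : a ∉ I := fun h => Set.disjoint_left.1 h1 h rfl
      have h4 : LI m (insert a I) := by
        rw [Set.insert_eq, Set.union_comm]
        rcases h2 with h2 | h2
        · exact h2
        · exfalso
          have : a ∈ HH m := by rw [← h2]; exact Or.inr rfl
          obtain ⟨y, hy⟩ := this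
          exact Sum.inr_ne_inl hy
      rw [LI, linearIndepOn_insert haI'] at h4
      rw [hfam hIE]
      refine LinearIndependent.map (v := fun x : I => vec m (x : Gr m)) h4.1 (f := P) ?_
      rw [Submodule.disjoint_def]
      intro z hz1 hz2
      have hr : Set.range (fun x : I => vec m (x : Gr m)) = vec m '' I := by
        ext y; simp
      rw [hr] at hz1
      have hz3 : z.1 = 0 := hz2
      rcases zmod2_cases z.2 with h | h
      · exact Prod.ext hz3 h
      · exfalso
        apply h4.2
        have : vec m a = z := by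
          rw [hva]; exact Prod.ext hz3.symm h.symm
        rw [this]
        exact hz1
    · rintro ⟨hIE, h⟩
      rw [hfam hIE] at h
      have haI' : a ∉ I := fun h' => (hIE h').1.2 rfl
      have hdj : Disjoint I {a} := Set.disjoint_singleton_right.2 haI'
      have hdj2 : Disjoint I (HH m) := Set.disjoint_left.2 fun x hx => (hIE hx).2
      refine ⟨⟨hdj, Or.inl ?_⟩, hdj2⟩
      have hu : I ∪ {a} = insert a I := by rw [Set.insert_eq, Set.union_comm]
      rw [hu, LI, linearIndepOn_insert haI']
      have hPI : LinearIndepOn (ZMod 2) (P ∘ vec m) I := h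
      refine ⟨LinearIndependent.of_comp P hPI, fun hmem => ?_⟩
      rw [Finsupp.mem_span_image_iff_linearCombination] at hmem
      obtain ⟨l, hl, hl2⟩ := hmem
      have h5 : Finsupp.linearCombination (ZMod 2) (P ∘ vec m) l = 0 := by
        rw [← Finsupp.apply_linearCombination, hl2, hva]
        rfl
      have h6 := linearIndepOn_iff.1 hPI l hl h5
      rw [h6, map_zero] at hl2
      exact hva0 hl2.symm

/-- The negation of the preceding statement: For each prime power q there is m>0 such that every finite round matroid (ground set not covered by two non-spanning sets) having a PG(m-1,q)-minor and no U(2,q^2+1)-minor is representable over the field with q elements. -/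
theorem result :
    ¬ (∀ q : ℕ, IsPrimePow q → ∃ m : ℕ, 0 < m ∧
      ∀ (F : Type) [Field F] [Fintype F], Fintype.card F = q →
      ∀ (α : Type) (M : Matroid α), M.E.Finite →
        (∀ X Y : Set α, X ⊆ M.E → Y ⊆ M.E → X ∪ Y = M.E → M.Spanning X ∨ M.Spanning Y) →
        (∃ N : Matroid α, Matroid.IsMinor N M ∧
          ∃ g : α → Projectivization F (Fin m → F), Set.BijOn g N.E Set.univ ∧
            ∀ I : Set α, N.Indep I ↔ (I ⊆ N.E ∧ LinearIndependent F (fun x : I => (g (x : α)).rep))) →
        (¬ ∃ N : Matroid α, Matroid.IsMinor N M ∧ N.E.ncard = q ^ 2 + 1 ∧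
          ∀ I : Set α, I ⊆ N.E → (N.Indep I ↔ I.ncard ≤ 2)) →
        ∃ (n : ℕ) (v : α → Fin n → F), ∀ I : Set α,
          M.Indep I ↔ (I ⊆ M.E ∧ LinearIndependent F (fun x : I => v (x : α)))) := by
  intro H
  obtain ⟨m, hm, hM⟩ := H 2 Nat.prime_two.isPrimePow
  obtain ⟨n, v, hv⟩ := hM (ZMod 2) (ZMod.card 2) (Gr m) (Rel m) (Set.toFinite _)
    (fun X Y _ _ hXY => round m X Y hXY) (pgMinor m hm) (noU25 m)
  exact nonrep m hm n v hv

end Pool.Agent.S06970
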