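import Pool.Statements.S06982
import Pool.Agent.Helper532.SeparatedConfig
-- import your own Pool.Agent.* helpers here

set_option autoImplicit false
open Pool Pool.MP_b71966_co

namespace Pool.Agent.S06982

open Pool.Agent.Helper532.Separated

/-- many lattice points of `[0,m)^(D+3)` on one sphere -/
lemma exists_sphere (D k : ℕ) (hk : 0 < k) : ∃ r : ℕ, ((D + 3) * k) ^ D * k ≤
    (Finset.univ.filter (fun a : Fin (D + 3) → Fin ((D + 3) * k) => ∑ i, (a i : ℕ) ^ 2 = r)).card := by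
  classical
  have hm : 0 < (D + 3) * k := by positivity
  have := Finset.exists_le_card_fiber_of_mul_le_card_of_maps_to
    (s := (Finset.univ : Finset (Fin (D + 3) → Fin ((D + 3) * k))))
    (t := Finset.range ((D + 3) * ((D + 3) * k) ^ 2))
    (f := fun a : Fin (D + 3) → Fin ((D + 3) * k) => ∑ i, (a i : ℕ) ^ 2)
    (n := ((D + 3) * k) ^ D * k) ?_ ?_ ?_
  · obtain ⟨r, _, hr⟩ := this
    exact ⟨r, hr⟩
  · intro a _
    rw [Finset.mem_range]
    have h1 : ∑ i, (a i : ℕ) ^ 2 < ∑ _i : Fin (D + 3), ((D + 3) * k) ^ 2 := by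
      apply Finset.sum_lt_sum_of_nonempty Finset.univ_nonempty
      intro i _
      exact Nat.pow_lt_pow_left (a i).2 two_ne_zero
    simpa using h1
  · rw [Finset.nonempty_range_iff]
    positivity
  · rw [Finset.card_range, Finset.card_univ, Fintype.card_fun, Fintype.card_fin, Fintype.card_fin]
    apply le_of_eq
    ring

lemma numeric (K N n : ℕ) (hK : 0 < K) (c : ℝ) (hc : 1 / (K : ℝ) ≤ c)
    (hn : ((4 * K + 1 + 3) * (4 ^ ((4 * K + 1 + 3) * K) * (N + 1))) ^ (4 * K + 1) *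
      (4 ^ ((4 * K + 1 + 3) * K) * (N + 1)) ≤ n) :
    (4 * (((4 * K + 1 + 3) * (4 ^ ((4 * K + 1 + 3) * K) * (N + 1)) : ℕ) : ℝ)) ^ (4 * K + 1 + 3) ≤
      (n : ℝ) ^ (1 + c) := by
  set d := 4 * K + 1 + 3 with hd
  set k := 4 ^ (d * K) * (N + 1) with hk
  set m := d * k with hm
  have hkpos : 0 < k := by positivity
  have hdpos : 0 < d := by omega
  have hmpos : 0 < m := by positivity
  have hmk : 4 ^ (d * K) ≤ m := by
    calc 4 ^ (d * K) = 4 ^ (d * K) * 1 := by ring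
      _ ≤ 4 ^ (d * K) * (N + 1) := Nat.mul_le_mul_left _ (by omega)
      _ = 1 * k := by rw [one_mul]
      _ ≤ d * k := Nat.mul_le_mul_right _ hdpos
  have hn0 : m ^ (4 * K + 1) ≤ n := le_trans (Nat.le_mul_of_pos_right _ hkpos) hn
  have hn1 : 1 ≤ n := le_trans (Nat.one_le_pow _ _ hmpos) hn0
  have hnat : ((4 * m) ^ d) ^ K ≤ n ^ (K + 1) := by
    calc ((4 * m) ^ d) ^ K = 4 ^ (d * K) * m ^ (d * K) := by rw [← pow_mul, mul_pow]
      _ ≤ m ^ (K + 1) * m ^ (d * K) := by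
        apply Nat.mul_le_mul_right
        calc 4 ^ (d * K) ≤ m := hmk
          _ = m ^ 1 := (pow_one m).symm
          _ ≤ m ^ (K + 1) := Nat.pow_le_pow_right hmpos (by omega)
      _ = (m ^ (4 * K + 1)) ^ (K + 1) := by
        rw [← pow_add, ← pow_mul]
        congr 1
        rw [hd]; ring
      _ ≤ n ^ (K + 1) := Nat.pow_le_pow_left hn0 _
  have hreal : (((4 * (m : ℝ)) ^ d) ^ K) ≤ (n : ℝ) ^ (K + 1) := by exact_mod_cast hnat
  have h1 : (4 * (m : ℝ)) ^ d = (((4 * (m : ℝ)) ^ d) ^ K) ^ ((K : ℝ)⁻¹) :=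
    (Real.pow_rpow_inv_natCast (by positivity) hK.ne').symm
  rw [h1]
  calc (((4 * (m : ℝ)) ^ d) ^ K) ^ ((K : ℝ)⁻¹) ≤ ((n : ℝ) ^ (K + 1)) ^ ((K : ℝ)⁻¹) :=
        Real.rpow_le_rpow (by positivity) hreal (by positivity)
    _ = (n : ℝ) ^ (((K + 1 : ℕ) : ℝ) * (K : ℝ)⁻¹) := by
        rw [← Real.rpow_natCast, ← Real.rpow_mul (by positivity)]
    _ ≤ (n : ℝ) ^ (1 + c) := by
        apply Real.rpow_le_rpow_of_exponent_le (by exact_mod_cast hn1)
        have hK' : (K : ℝ) ≠ 0 := by exact_mod_cast hK.ne'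
        have : (((K + 1 : ℕ) : ℝ) * (K : ℝ)⁻¹) = 1 + 1 / (K : ℝ) := by
          push_cast
          field_simp
        rw [this]
        linarith

/-- The negation of the preceding statement: There is c>0 such that, for all large n, any n plane points with no three collinear, no four concyclic, all distances at least 1 and distinct distances differing by at least 1, have two points farther apart than n^(1+c). -/
theorem result :
    ¬ (∃ c : ℝ, 0 < c ∧ ∃ N : ℕ, ∀ n : ℕ, N ≤ n →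
      ∀ p : Fin n → EuclideanSpace ℝ (Fin 2),
        (∀ i j k : Fin n, i ≠ j → i ≠ k → j ≠ k →
          ¬ Collinear ℝ ({p i, p j, p k} : Set (EuclideanSpace ℝ (Fin 2)))) →
        (∀ i j k l : Fin n, i ≠ j → i ≠ k → i ≠ l → j ≠ k → j ≠ l → k ≠ l →
          ¬ EuclideanGeometry.Concyclic
              ({p i, p j, p k, p l} : Set (EuclideanSpace ℝ (Fin 2)))) →
        (∀ i j : Fin n, i ≠ j → 1 ≤ dist (p i) (p j)) →
        (∀ i j k l : Fin n, i ≠ j → k ≠ l →
          dist (p i) (p j) ≠ dist (p k) (p l) →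
          1 ≤ |dist (p i) (p j) - dist (p k) (p l)|) →
        ∃ i j : Fin n, (n : ℝ) ^ (1 + c) < dist (p i) (p j)) := by
  classical
  rintro ⟨c, hc, N, h⟩
  obtain ⟨K', hK'⟩ := exists_nat_one_div_lt hc
  obtain ⟨K, hK, hKc⟩ : ∃ K : ℕ, 0 < K ∧ 1 / (K : ℝ) ≤ c :=
    ⟨K' + 1, Nat.succ_pos _, by push_cast; exact hK'.le⟩
  have hkpos : 0 < 4 ^ ((4 * K + 1 + 3) * K) * (N + 1) := by positivity
  obtain ⟨r, hr⟩ := exists_sphere (4 * K + 1) (4 ^ ((4 * K + 1 + 3) * K) * (N + 1)) hkpos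
  set m := (4 * K + 1 + 3) * (4 ^ ((4 * K + 1 + 3) * K) * (N + 1)) with hm
  set S := Finset.univ.filter (fun a : Fin (4 * K + 1 + 3) → Fin m => ∑ i, (a i : ℕ) ^ 2 = r) with hS
  have hmpos : 0 < m := by positivity
  have hNn : N ≤ S.card := by
    calc N ≤ 1 * (1 * (N + 1)) := by omega
      _ ≤ m ^ (4 * K + 1) * (4 ^ ((4 * K + 1 + 3) * K) * (N + 1)) := by
        apply Nat.mul_le_mul (Nat.one_le_pow _ _ hmpos)
        exact Nat.mul_le_mul_right _ (Nat.one_le_pow _ _ (by norm_num))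
      _ ≤ S.card := hr
  have hSr : ∀ a ∈ S, ∑ i, (a i : ℕ) ^ 2 = r := by
    intro a ha
    exact (Finset.mem_filter.1 ha).2
  obtain ⟨p, hp1, hp2, hp3, hp4, hp5⟩ := config S r hSr
  let e : Fin S.card → (Fin (4 * K + 1 + 3) → Fin m) := fun i => (S.equivFin.symm i : _)
  have heS : ∀ i, e i ∈ S := fun i => (S.equivFin.symm i).2
  have hei : ∀ i j, i ≠ j → e i ≠ e j := by
    intro i j hij h'
    apply hij
    exact S.equivFin.symm.injective (Subtype.ext h')
  obtain ⟨i, j, hij⟩ := h S.card hNn (fun i => p (e i))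
    (fun i j k h1 h2 h3 => hp1 _ (heS i) _ (heS j) _ (heS k) (hei _ _ h1) (hei _ _ h2) (hei _ _ h3))
    (fun i j k l h1 h2 h3 h4 h5 h6 hcc => hp2 _ (heS i) _ (heS j) _ (heS k) _ (heS l) (hei _ _ h1)
      (hei _ _ h2) (hei _ _ h3) (hei _ _ h4) (hei _ _ h5) (hei _ _ h6) hcc.1)
    (fun i j h1 => hp3 _ (heS i) _ (heS j) (hei _ _ h1))
    (fun i j k l _ _ h3 => hp4 _ (heS i) _ (heS j) _ (heS k) _ (heS l) h3)
  have h1 := hp5 _ (heS i) _ (heS j)
  have h2 := numeric K N S.card hK c hKc hr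
  exact absurd (lt_of_lt_of_le hij (h1.trans h2)) (lt_irrefl _)

end Pool.Agent.S06982
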