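import Pool.Statements.S06984
import Pool.Agent.Helper590.ChFinal

set_option autoImplicit false
open Pool Pool.MP_b725e3_co

namespace Pool.Agent.S06984

open Pool.Agent.Helper590.IrGen Pool.Agent.Helper590.Chain

/-- The negation of the preceding statement: There is a bound N such that every finite graph with ir not equal to γ on some induced subgraph, but ir = γ on every proper induced subgraph, has at most N vertices. Hence there are only finitely many minimally (ir,γ)-imperfect graphs up to isomorphism. -/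
theorem result :
    ¬ (∃ N : ℕ, ∀ n : ℕ, ∀ G : SimpleGraph (Fin n),
      (¬ ∀ U : Finset (Fin n),
          sInf {k : ℕ | ∃ S : Finset (Fin n), S ⊆ U ∧
              (∀ v ∈ S, ∃ w ∈ U, (w = v ∨ G.Adj v w) ∧
                  ∀ u ∈ S, u ≠ v → ¬ (w = u ∨ G.Adj u w)) ∧
              (∀ x ∈ U, x ∉ S → ¬ ∀ v ∈ insert x S, ∃ w ∈ U, (w = v ∨ G.Adj v w) ∧
                  ∀ u ∈ insert x S, u ≠ v → ¬ (w = u ∨ G.Adj u w)) ∧
              S.card = k}
          = sInf {k : ℕ | ∃ S : Finset (Fin n), S ⊆ U ∧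
              (∀ v ∈ U, v ∈ S ∨ ∃ s ∈ S, G.Adj s v) ∧ S.card = k}) ∧
      (∀ U : Finset (Fin n), U ≠ Finset.univ →
          sInf {k : ℕ | ∃ S : Finset (Fin n), S ⊆ U ∧
              (∀ v ∈ S, ∃ w ∈ U, (w = v ∨ G.Adj v w) ∧
                  ∀ u ∈ S, u ≠ v → ¬ (w = u ∨ G.Adj u w)) ∧
              (∀ x ∈ U, x ∉ S → ¬ ∀ v ∈ insert x S, ∃ w ∈ U, (w = v ∨ G.Adj v w) ∧
                  ∀ u ∈ insert x S, u ≠ v → ¬ (w = u ∨ G.Adj u w)) ∧
              S.card = k}
          = sInf {k : ℕ | ∃ S : Finset (Fin n), S ⊆ U ∧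
              (∀ v ∈ U, v ∈ S ∨ ∃ s ∈ S, G.Adj s v) ∧ S.card = k})
      → n ≤ N) := by
  rintro ⟨N, hN⟩
  have hM2 : 2 ≤ N + 2 := by omega
  have key := hN (6 * (N + 2 + 1)) (GM (N + 2)) ⟨?_, ?_⟩
  · omega
  · intro hall
    have h := hall Finset.univ
    rw [fz_set, fz_dom] at h
    obtain ⟨D, hD, hc, _⟩ := dom_min (GM (N + 2)) Finset.univ
    have h1 := dm_lower (N + 2) (by omega) D hD
    have h2 : sInf {k : ℕ | ∃ S, MX (GM (N + 2)) Finset.univ S ∧ S.card = k} ≤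
        (T0 (N + 2)).card := Nat.sInf_le ⟨_, T0_mx (N + 2) (by omega), rfl⟩
    have h3 := T0_card (N + 2)
    omega
  · intro U hU
    rw [fz_set, fz_dom]
    apply le_antisymm (ir_le _ _)
    obtain ⟨T, hT, hTc⟩ := ir_att (GM (N + 2)) U
    obtain ⟨D, hD, hDc⟩ := mx_good (N + 2) hM2 U T hT hU
    rw [← hTc]
    exact le_trans (Nat.sInf_le ⟨D, hD, rfl⟩) hDc

end Pool.Agent.S06984
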