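import Pool.Statements.S07001

/-!
r-mean colourings: bounded partition into monochromatic cycles.

Strategy.
* P1, P2: basic tools (partition predicate Cov, minimum degree subgraphs, long cycles, cycles of controlled length).
* P3: a local colouring of a nearly complete graph has many monochromatic triangles, and a triangle dense subgraph.
* P4: the lifting theorem (Hall) and Posa's theorem with bounded independence number.
* P5: long monochromatic cycles, the greedy step, the absorber.
* P6: two-coloured graphs of almost full minimum degree.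
* P7, P8: Lemma C. A small set B can be partitioned together with a subset of A, if all of A is local
  and the total number of colours used between the vertices of B and A is small compared with A.
  Two random vertices of A decide the target colours.
* P9: the main theorem; P10: conversion to the frozen statement.
-/

set_option autoImplicit false
set_option linter.unusedSectionVars false
set_option linter.unusedVariables false
open Pool Pool.MP_b89653_co

namespace Pool.Agent.S07001

namespace MeanCyc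

open Finset

section P1

variable {V : Type} [DecidableEq V]

/-- colour class graph -/
def cg (G : SimpleGraph V) (col : Sym2 V → ℕ) (k : ℕ) : SimpleGraph V where
  Adj a b := G.Adj a b ∧ col s(a, b) = k
  symm := ⟨fun a b h => ⟨h.1.symm, by rw [Sym2.eq_swap]; exact h.2⟩⟩
  loopless := ⟨fun a h => G.loopless.irrefl a h.1⟩

/-- closed chain -/
def Cyc (H : SimpleGraph V) (L : List V) : Prop :=
  L.Nodup ∧ (L.length ≤ 1 ∨ ∃ x l, L = x :: l ∧ List.IsChain H.Adj (x :: (l ++ [x])))

/-- U is partitioned by at most k monochromatic cycles -/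
def Cov (G : SimpleGraph V) (col : Sym2 V → ℕ) (U : Finset V) (k : ℕ) : Prop :=
  ∃ 𝒞 : List (List V), 𝒞.length ≤ k ∧ (∀ C ∈ 𝒞, ∃ i, Cyc (cg G col i) C) ∧
    𝒞.flatten.Nodup ∧ ∀ v, v ∈ 𝒞.flatten ↔ v ∈ U

lemma Cov.mono {G : SimpleGraph V} {col : Sym2 V → ℕ} {U : Finset V} {k k' : ℕ}
    (h : Cov G col U k) (hk : k ≤ k') : Cov G col U k' := by
  obtain ⟨C, h1, h2, h3, h4⟩ := h
  exact ⟨C, h1.trans hk, h2, h3, h4⟩

lemma Cov.union {G : SimpleGraph V} {col : Sym2 V → ℕ} {U U' : Finset V} {k k' : ℕ}
    (h : Cov G col U k) (h' : Cov G col U' k') (hd : Disjoint U U') :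
    Cov G col (U ∪ U') (k + k') := by
  obtain ⟨C, h1, h2, h3, h4⟩ := h
  obtain ⟨C', h1', h2', h3', h4'⟩ := h'
  refine ⟨C ++ C', by rw [List.length_append]; omega, ?_, ?_, ?_⟩
  · intro D hD
    rcases List.mem_append.1 hD with hD | hD
    · exact h2 D hD
    · exact h2' D hD
  · rw [List.flatten_append, List.nodup_append]
    refine ⟨h3, h3', ?_⟩
    intro a ha b hb hab
    subst hab
    exact Finset.disjoint_left.1 hd ((h4 a).1 ha) ((h4' a).1 hb)
  · intro v
    rw [List.flatten_append, List.mem_append, h4, h4', Finset.mem_union]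

lemma Cov.empty (G : SimpleGraph V) (col : Sym2 V → ℕ) (k : ℕ) : Cov G col ∅ k :=
  ⟨[], by simp, by simp, by simp, by simp⟩

lemma Cov.of_cyc {G : SimpleGraph V} {col : Sym2 V → ℕ} {L : List V} {i : ℕ}
    (h : Cyc (cg G col i) L) : Cov G col L.toFinset 1 :=
  ⟨[L], by simp, by simpa using ⟨i, h⟩, by simpa using h.1, by simp⟩

lemma Cov.single (G : SimpleGraph V) (col : Sym2 V → ℕ) (v : V) : Cov G col {v} 1 := by
  have : Cyc (cg G col 0) [v] := ⟨by simp, Or.inl (by simp)⟩
  simpa using Cov.of_cyc this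

lemma Cov.card (G : SimpleGraph V) (col : Sym2 V → ℕ) (U : Finset V) : Cov G col U U.card := by
  induction U using Finset.induction_on with
  | empty => exact Cov.empty _ _ _
  | insert a s ha ih =>
    rw [Finset.card_insert_of_notMem ha, Finset.insert_eq, add_comm]
    exact (Cov.single G col a).union ih (by simpa using ha)

/-- degree inside a set -/
noncomputable def dU (H : SimpleGraph V) (U : Finset V) (v : V) : ℕ := by
  classical exact (U.filter (fun u => H.Adj v u)).card

lemma minDegSub {W : Type} [DecidableEq W] (H : SimpleGraph W) (d : ℕ) :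
    ∀ (n : ℕ) (U : Finset W), U.card = n → U.Nonempty →
      2 * d * U.card ≤ ∑ v ∈ U, dU H U v →
      ∃ U' ⊆ U, U'.Nonempty ∧ ∀ v ∈ U', d ≤ dU H U' v := by
  classical
  intro n
  induction n with
  | zero => intro U hU hne; rw [Finset.card_eq_zero] at hU; subst hU; simp at hne
  | succ n ih =>
    intro U hU hne hsum
    by_cases hall : ∀ v ∈ U, d ≤ dU H U v
    · exact ⟨U, subset_rfl, hne, hall⟩
    push Not at hall
    obtain ⟨v, hv, hvd⟩ := hall
    -- remove v
    have hcard : (U.erase v).card = n := by rw [Finset.card_erase_of_mem hv, hU]; rfl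
    have hdeg : ∀ u ∈ U.erase v, dU H U u = dU H (U.erase v) u + (if H.Adj u v then 1 else 0) := by
      intro u hu
      have : U.filter (fun w => H.Adj u w) =
          (U.erase v).filter (fun w => H.Adj u w) ∪ (if H.Adj u v then {v} else ∅) := by
        ext w
        by_cases hw : w = v
        · subst hw
          by_cases h : H.Adj u w <;> simp [h, hv]
        · by_cases h : H.Adj u v <;> simp [h, hw]
      have h2 : Disjoint ((U.erase v).filter (fun w => H.Adj u w)) (if H.Adj u v then {v} else ∅) := by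
        by_cases h : H.Adj u v <;> simp [h]
      unfold dU
      rw [this, Finset.card_union_of_disjoint h2]
      by_cases h : H.Adj u v <;> simp [h]
    have hsplit : ∑ u ∈ U, dU H U u = dU H U v + ∑ u ∈ U.erase v, dU H U u :=
      (Finset.add_sum_erase U _ hv).symm
    have h3 : ∑ u ∈ U.erase v, dU H U u = ∑ u ∈ U.erase v, dU H (U.erase v) u +
        ∑ u ∈ U.erase v, (if H.Adj u v then 1 else 0) := by
      rw [← Finset.sum_add_distrib]
      exact Finset.sum_congr rfl hdeg
    have h4 : ∑ u ∈ U.erase v, (if H.Adj u v then 1 else 0) ≤ dU H U v := by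
      rw [← Finset.card_filter]
      unfold dU
      apply Finset.card_le_card
      intro u hu
      rw [Finset.mem_filter] at hu ⊢
      exact ⟨Finset.mem_of_mem_erase hu.1, hu.2.symm⟩
    have h5 : 2 * d * n ≤ ∑ u ∈ U.erase v, dU H (U.erase v) u := by
      rw [hU] at hsum
      have : 2 * d * (n + 1) = 2 * d * n + 2 * d := by ring
      omega
    rcases Finset.eq_empty_or_nonempty (U.erase v) with he | hne'
    · -- U = {v}
      exfalso
      have hz : dU H U v = 0 := by
        unfold dU
        rw [Finset.card_eq_zero, Finset.filter_eq_empty_iff]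
        intro u hu hadj
        have : u ∈ U.erase v := Finset.mem_erase.2 ⟨fun h => by subst h; exact H.loopless.irrefl _ hadj, hu⟩
        rw [he] at this
        simp at this
      rw [hsplit, he, hz] at hsum
      rw [hU] at hsum
      simp at hsum
      omega
    · obtain ⟨U', hU', hne'', hmin⟩ := ih (U.erase v) hcard hne' (by rw [hcard]; exact h5)
      exact ⟨U', hU'.trans (Finset.erase_subset _ _), hne'', hmin⟩

end P1

section P2

variable {V : Type} [DecidableEq V]

lemma seg (H : SimpleGraph V) (v : V) (l : List V) (hnd : (v :: l).Nodup)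
    (hch : List.IsChain H.Adj (v :: l)) (i j : ℕ) (hij : i ≤ j) (hj : j < l.length)
    (hvi : H.Adj v (l[i]'(lt_of_le_of_lt hij hj))) (hvj : H.Adj v l[j]) :
    Cyc H (v :: ((l.drop i).take (j - i + 1))) := by
  have hlen : ((l.drop i).take (j - i + 1)).length = j - i + 1 := by
    rw [List.length_take, List.length_drop]; omega
  have hsub : ((l.drop i).take (j - i + 1)).Sublist l :=
    (List.take_sublist _ _).trans (List.drop_sublist _ _)
  have hnd' := List.nodup_cons.1 hnd
  refine ⟨List.nodup_cons.2 ⟨fun h => hnd'.1 (hsub.subset h), hnd'.2.sublist hsub⟩, Or.inr ⟨v, _, rfl, ?_⟩⟩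
  have hS : List.IsChain H.Adj ((l.drop i).take (j - i + 1)) :=
    ((List.isChain_cons.1 hch).2.drop i).take _
  have hne : (l.drop i).take (j - i + 1) ≠ [] := by
    intro h; rw [h] at hlen; simp at hlen
  rw [List.isChain_cons]
  constructor
  · intro y hy
    rw [List.head?_append, List.head?_take] at hy
    simp only [Nat.add_eq_zero_iff, one_ne_zero, and_false, ↓reduceIte, List.head?_drop] at hy
    rw [List.getElem?_eq_getElem (lt_of_le_of_lt hij hj)] at hy
    simp only [Option.some_or, Option.mem_def, Option.some.injEq] at hy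
    rw [← hy]; exact hvi
  · rw [List.isChain_append]
    refine ⟨hS, by simp, ?_⟩
    intro x hx y hy
    simp only [List.head?_cons, Option.mem_def, Option.some.injEq] at hy
    subst hy
    rw [Option.mem_def, List.getLast?_eq_getElem?, hlen] at hx
    simp only [add_tsub_cancel_right] at hx
    rw [List.getElem?_take, if_pos (by omega), List.getElem?_drop] at hx
    have : i + (j - i) = j := by omega
    rw [this, List.getElem?_eq_getElem hj] at hx
    simp only [Option.some.injEq] at hx
    rw [← hx]; exact hvj.symm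

/-- a longest path starts at a vertex all of whose neighbours are on it -/
lemma longest (H : SimpleGraph V) (U : Finset V) (hU : U.Nonempty) :
    ∃ v l, (v :: l).Nodup ∧ (∀ x ∈ v :: l, x ∈ U) ∧ List.IsChain H.Adj (v :: l) ∧
      ∀ u ∈ U, H.Adj v u → u ∈ l := by
  classical
  let P : ℕ → Prop := fun n => ∃ L : List V, L.Nodup ∧ (∀ x ∈ L, x ∈ U) ∧
    List.IsChain H.Adj L ∧ L.length = n
  have hb : ∀ n, P n → n ≤ U.card := by
    rintro n ⟨L, h1, h2, h3, rfl⟩
    rw [← List.toFinset_card_of_nodup h1]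
    exact Finset.card_le_card (fun x hx => h2 x (List.mem_toFinset.1 hx))
  obtain ⟨u0, hu0⟩ := hU
  have h1 : P 1 := ⟨[u0], by simp, by simpa using hu0, by simp, rfl⟩
  have hg := Nat.findGreatest_spec (P := P) (hb 1 h1) h1
  have hmax : ∀ m, P m → m ≤ Nat.findGreatest P U.card := fun m hm => Nat.le_findGreatest (hb m hm) hm
  obtain ⟨L, g1, g2, g3, g4⟩ := hg
  have hpos := hmax 1 h1
  rcases L with _ | ⟨v, l⟩
  · simp at g4; omega
  refine ⟨v, l, g1, g2, g3, ?_⟩
  intro u hu hadj
  by_contra hul
  have hne : u ≠ v := fun h => by subst h; exact H.loopless.irrefl _ hadj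
  have : P ((v :: l).length + 1) := by
    refine ⟨u :: v :: l, ?_, ?_, ?_, by simp⟩
    · rw [List.nodup_cons]
      refine ⟨?_, g1⟩
      rw [List.mem_cons]; push Not; exact ⟨hne, hul⟩
    · intro x hx
      rcases List.mem_cons.1 hx with rfl | hx
      · exact hu
      · exact g2 x hx
    · rw [List.isChain_cons]
      refine ⟨?_, g3⟩
      intro y hy
      simp only [List.head?_cons, Option.mem_def, Option.some.injEq] at hy
      rw [← hy]; exact hadj.symm
  have := hmax _ this
  omega

/-- a vertex and all its neighbours in U lie on a cycle inside U -/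
lemma cycNbrs (H : SimpleGraph V) (U : Finset V) (hU : U.Nonempty) :
    ∃ v ∈ U, ∃ C : List V, Cyc H C ∧ v ∈ C ∧ (∀ x ∈ C, x ∈ U) ∧ ∀ u ∈ U, H.Adj v u → u ∈ C := by
  classical
  obtain ⟨v, l, h1, h2, h3, h4⟩ := longest H U hU
  have hv : v ∈ U := h2 v (by simp)
  by_cases hn : ∃ u ∈ U, H.Adj v u
  · -- max index
    let J := (Finset.range l.length).filter (fun j => ∃ h : j < l.length, H.Adj v (l[j]))
    have hJ : J.Nonempty := by
      obtain ⟨u, hu, hadj⟩ := hn
      obtain ⟨j, hj, hju⟩ := List.getElem_of_mem (h4 u hu hadj)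
      exact ⟨j, by simp only [J, Finset.mem_filter, Finset.mem_range]; exact ⟨hj, hj, by rw [hju]; exact hadj⟩⟩
    have hjm := Finset.max'_mem J hJ
    set j := J.max' hJ with hjdef
    simp only [J, Finset.mem_filter, Finset.mem_range] at hjm
    obtain ⟨hj, _, hadj⟩ := hjm
    have h0 : H.Adj v (l[0]'(by omega)) := by
      have := List.isChain_cons.1 h3
      apply this.1
      rw [Option.mem_def, List.head?_eq_getElem?, List.getElem?_eq_getElem (by omega)]
    have hs := seg H v l h1 h3 0 j (Nat.zero_le _) hj h0 hadj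
    refine ⟨v, hv, _, hs, by simp, ?_, ?_⟩
    · intro x hx
      rcases List.mem_cons.1 hx with rfl | hx
      · exact hv
      · apply h2
        exact List.mem_cons_of_mem _ (List.mem_of_mem_drop (List.mem_of_mem_take hx))
    · intro u hu hadj'
      obtain ⟨i, hi, hiu⟩ := List.getElem_of_mem (h4 u hu hadj')
      have : i ≤ j := by
        apply Finset.le_max'
        simp only [J, Finset.mem_filter, Finset.mem_range]
        exact ⟨hi, hi, by rw [hiu]; exact hadj'⟩
      apply List.mem_cons_of_mem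
      rw [← hiu, List.drop_zero, List.mem_iff_getElem]
      exact ⟨i, by rw [List.length_take]; omega, by rw [List.getElem_take]⟩
  · push Not at hn
    exact ⟨v, hv, [v], ⟨by simp, Or.inl (by simp)⟩, by simp, by simpa using hv,
      fun u hu hadj => absurd hadj (hn u hu)⟩

/-- long cycle from minimum degree -/
lemma cycLong (H : SimpleGraph V) (U : Finset V) (hU : U.Nonempty) (d : ℕ)
    (hd : ∀ v ∈ U, d ≤ dU H U v) :
    ∃ C : List V, Cyc H C ∧ (∀ x ∈ C, x ∈ U) ∧ d + 1 ≤ C.length := by
  classical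
  obtain ⟨v, hv, C, h1, h2, h3, h4⟩ := cycNbrs H U hU
  refine ⟨C, h1, h3, ?_⟩
  have := hd v hv
  have h5 : dU H U v + 1 ≤ C.toFinset.card := by
    unfold dU
    rw [← Finset.card_insert_of_notMem (a := v)]
    · apply Finset.card_le_card
      intro x hx
      rw [Finset.mem_insert, Finset.mem_filter] at hx
      rw [List.mem_toFinset]
      rcases hx with rfl | ⟨hx, hadj⟩
      · exact h2
      · exact h4 x hx hadj
    · rw [Finset.mem_filter]
      intro h; exact H.loopless.irrefl _ h.2
  rw [List.toFinset_card_of_nodup h1.1] at h5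
  omega

/-- cycle of controlled length -/
lemma cycWindow (H : SimpleGraph V) (U : Finset V) (hU : U.Nonempty) (d w s : ℕ) (hw : 0 < w)
    (hd : ∀ v ∈ U, d ≤ dU H U v) (hs : s * (U.card / w + 1) < d) :
    ∃ C : List V, Cyc H C ∧ (∀ x ∈ C, x ∈ U) ∧ s + 2 ≤ C.length ∧ C.length ≤ w + 1 := by
  classical
  obtain ⟨v, l, h1, h2, h3, h4⟩ := longest H U hU
  have hv : v ∈ U := h2 v (by simp)
  let J := (Finset.range l.length).filter (fun j => ∃ h : j < l.length, H.Adj v (l[j]))
  have hJc : d ≤ J.card := by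
    refine (hd v hv).trans ?_
    unfold dU
    have hsub : U.filter (fun u => H.Adj v u) ⊆ J.image (fun j => l.getD j v) := by
      intro u hu
      rw [Finset.mem_filter] at hu
      obtain ⟨j, hj, hju⟩ := List.getElem_of_mem (h4 u hu.1 hu.2)
      rw [Finset.mem_image]
      refine ⟨j, ?_, ?_⟩
      · simp only [J, Finset.mem_filter, Finset.mem_range]
        exact ⟨hj, hj, by rw [hju]; exact hu.2⟩
      · rw [List.getD_eq_getElem _ _ hj, hju]
    exact (Finset.card_le_card hsub).trans Finset.card_image_le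
  have hllen : l.length ≤ U.card := by
    rw [← List.toFinset_card_of_nodup (List.nodup_cons.1 h1).2]
    exact Finset.card_le_card (fun x hx => h2 x (List.mem_cons_of_mem _ (List.mem_toFinset.1 hx)))
  -- pigeonhole
  have hmap : ∀ j ∈ J, j / w ∈ Finset.range (U.card / w + 1) := by
    intro j hj
    simp only [J, Finset.mem_filter, Finset.mem_range] at hj
    rw [Finset.mem_range]
    have : j / w ≤ U.card / w := Nat.div_le_div_right (by omega)
    omega
  obtain ⟨q, hq, hqc⟩ := Finset.exists_lt_card_fiber_of_mul_lt_card_of_maps_to (n := s) hmap (by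
    rw [Finset.card_range]
    calc (U.card / w + 1) * s = s * (U.card / w + 1) := by ring
      _ < J.card := by omega)
  set F := J.filter (fun j => j / w = q) with hF
  have hFne : F.Nonempty := by rw [← Finset.card_pos]; omega
  have hmin := Finset.min'_mem F hFne
  have hmax := Finset.max'_mem F hFne
  set i := F.min' hFne
  set j := F.max' hFne
  have hijle : i ≤ j := Finset.min'_le _ _ hmax
  simp only [hF, J, Finset.mem_filter, Finset.mem_range] at hmin hmax
  obtain ⟨⟨hi, _, hvi⟩, hiq⟩ := hmin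
  obtain ⟨⟨hj, _, hvj⟩, hjq⟩ := hmax
  have hsg := seg H v l h1 h3 i j hijle hj hvi hvj
  have hlen : (v :: ((l.drop i).take (j - i + 1))).length = j - i + 2 := by
    rw [List.length_cons, List.length_take, List.length_drop]; omega
  refine ⟨_, hsg, ?_, ?_, ?_⟩
  · intro x hx
    rcases List.mem_cons.1 hx with rfl | hx
    · exact hv
    · apply h2
      exact List.mem_cons_of_mem _ (List.mem_of_mem_drop (List.mem_of_mem_take hx))
  · rw [hlen]
    -- F ⊆ [i, j]
    have : F ⊆ Finset.Icc i j := by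
      intro x hx
      rw [Finset.mem_Icc]
      exact ⟨Finset.min'_le _ _ hx, Finset.le_max' _ _ hx⟩
    have := Finset.card_le_card this
    rw [Nat.card_Icc] at this
    omega
  · rw [hlen]
    have e1 := Nat.div_add_mod i w
    have e2 := Nat.div_add_mod j w
    have e3 := Nat.mod_lt i hw
    have e4 := Nat.mod_lt j hw
    rw [hiq] at e1
    rw [hjq] at e2
    omega

end P2

section P3

open scoped Classical in
/-- monochromatic triangle predicate -/
def Tri {V : Type} (G : SimpleGraph V) (col : Sym2 V → ℕ) (x y z : V) : Prop :=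
  G.Adj x y ∧ G.Adj y z ∧ G.Adj x z ∧ col s(x, y) = col s(y, z) ∧ col s(x, y) = col s(x, z)

section
variable {V : Type} [Fintype V] [DecidableEq V]

open scoped Classical in
noncomputable def TT (G : SimpleGraph V) (col : Sym2 V → ℕ) : ℕ :=
  ((univ : Finset (V × V × V)).filter (fun t => Tri G col t.1 t.2.1 t.2.2)).card

open scoped Classical in
noncomputable def EE (G : SimpleGraph V) : ℕ :=
  ((univ : Finset (V × V)).filter (fun t => G.Adj t.1 t.2)).card

open scoped Classical in
noncomputable def cod (G : SimpleGraph V) (col : Sym2 V → ℕ) (x y : V) : Finset V :=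
  univ.filter (fun z => G.Adj x z ∧ G.Adj y z ∧ col s(x, z) = col s(x, y) ∧ col s(y, z) = col s(x, y))

lemma triDense (G : SimpleGraph V) (col : Sym2 V → ℕ) (m : ℕ) (h : 3 * m * EE G < TT G col) :
    ∃ H : SimpleGraph V, H ≤ G ∧ (∃ x y, H.Adj x y) ∧
      ∀ x y, H.Adj x y → m ≤ (cod H col x y).card := by
  classical
  obtain ⟨H, hH, hmin⟩ := (wellFounded_lt (α := SimpleGraph V)).has_min
    {H : SimpleGraph V | H ≤ G ∧ 3 * m * EE H < TT H col} ⟨G, le_refl G, h⟩
  refine ⟨H, hH.1, ?_, ?_⟩
  · have hpos : 0 < TT H col := lt_of_le_of_lt (Nat.zero_le _) hH.2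
    unfold TT at hpos
    rw [Finset.card_pos] at hpos
    obtain ⟨t, ht⟩ := hpos
    rw [Finset.mem_filter] at ht
    exact ⟨t.1, t.2.1, ht.2.1⟩
  · intro p q hpq
    by_contra hlt
    push Not at hlt
    -- remove the edge p q
    obtain ⟨H', hH'⟩ : ∃ H' : SimpleGraph V, ∀ x y, H'.Adj x y ↔ (H.Adj x y ∧ s(x, y) ≠ s(p, q)) :=
      ⟨{ Adj := fun x y => H.Adj x y ∧ s(x, y) ≠ s(p, q)
         symm := ⟨fun x y hxy => ⟨hxy.1.symm, by rw [Sym2.eq_swap]; exact hxy.2⟩⟩
         loopless := ⟨fun x hx => H.loopless.irrefl x hx.1⟩ }, fun x y => Iff.rfl⟩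
    have hle : H' ≤ H := fun x y hxy => ((hH' x y).1 hxy).1
    have hlt' : H' < H := by
      refine lt_of_le_of_ne hle ?_
      intro heq
      have : H'.Adj p q := by rw [heq]; exact hpq
      exact ((hH' _ _).1 this).2 rfl
    have hne : p ≠ q := hpq.ne
    have hE : EE H' + 2 ≤ EE H := by
      unfold EE
      have hd : Disjoint ((univ : Finset (V × V)).filter (fun t => H'.Adj t.1 t.2)) {(p, q), (q, p)} := by
        rw [Finset.disjoint_left]
        intro t ht ht'
        rw [Finset.mem_filter] at ht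
        simp only [Finset.mem_insert, Finset.mem_singleton] at ht'
        rcases ht' with rfl | rfl
        · exact ((hH' _ _).1 ht.2).2 rfl
        · exact ((hH' _ _).1 ht.2).2 Sym2.eq_swap
      have hc : ({(p, q), (q, p)} : Finset (V × V)).card = 2 := by
        rw [Finset.card_insert_of_notMem, Finset.card_singleton]
        simp only [Finset.mem_singleton, Prod.mk.injEq, not_and]
        intro h1; exact absurd h1 hne
      rw [← hc, ← Finset.card_union_of_disjoint hd]
      apply Finset.card_le_card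
      intro t ht
      rw [Finset.mem_union] at ht
      rw [Finset.mem_filter]
      refine ⟨Finset.mem_univ _, ?_⟩
      rcases ht with ht | ht
      · exact ((hH' _ _).1 (Finset.mem_filter.1 ht).2).1
      · simp only [Finset.mem_insert, Finset.mem_singleton] at ht
        rcases ht with rfl | rfl
        · exact hpq
        · exact hpq.symm
    have hT : TT H col ≤ TT H' col + 6 * (cod H col p q).card := by
      unfold TT
      set Z := cod H col p q
      have hsub : (univ : Finset (V × V × V)).filter (fun t => Tri H col t.1 t.2.1 t.2.2) ⊆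
          (univ : Finset (V × V × V)).filter (fun t => Tri H' col t.1 t.2.1 t.2.2) ∪
          (Z.image (fun z => (p, q, z)) ∪ (Z.image (fun z => (q, p, z)) ∪
          (Z.image (fun z => (z, p, q)) ∪ (Z.image (fun z => (z, q, p)) ∪
          (Z.image (fun z => (p, z, q)) ∪ Z.image (fun z => (q, z, p))))))) := by
        rintro ⟨x, y, z⟩ ht
        rw [Finset.mem_filter] at ht
        obtain ⟨-, h1, h2, h3, h4, h5⟩ := ht
        simp only at h1 h2 h3 h4 h5
        simp only [Finset.mem_union, Finset.mem_filter, Finset.mem_univ, true_and, Finset.mem_image,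
          Prod.mk.injEq]
        by_cases e1 : s(x, y) = s(p, q)
        · right
          rw [Sym2.eq_iff] at e1
          rcases e1 with ⟨rfl, rfl⟩ | ⟨rfl, rfl⟩
          · left
            refine ⟨z, ?_, rfl, rfl, rfl⟩
            simp only [Z, cod, Finset.mem_filter, Finset.mem_univ, true_and]
            exact ⟨h3, h2, h5.symm, h4.symm⟩
          · right; left
            refine ⟨z, ?_, rfl, rfl, rfl⟩
            simp only [Z, cod, Finset.mem_filter, Finset.mem_univ, true_and]
            refine ⟨h2, h3, ?_, ?_⟩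
            · rw [← h4, Sym2.eq_swap]
            · rw [← h5, Sym2.eq_swap]
        · by_cases e2 : s(y, z) = s(p, q)
          · right
            rw [Sym2.eq_iff] at e2
            rcases e2 with ⟨rfl, rfl⟩ | ⟨rfl, rfl⟩
            · right; right; left
              refine ⟨x, ?_, rfl, rfl, rfl⟩
              simp only [Z, cod, Finset.mem_filter, Finset.mem_univ, true_and]
              refine ⟨h1.symm, h3.symm, ?_, ?_⟩
              · rw [← h4, Sym2.eq_swap]
              · rw [← h4, h5, Sym2.eq_swap]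
            · right; right; right; left
              refine ⟨x, ?_, rfl, rfl, rfl⟩
              simp only [Z, cod, Finset.mem_filter, Finset.mem_univ, true_and]
              refine ⟨h3.symm, h1.symm, ?_, ?_⟩
              · rw [Sym2.eq_swap, ← h5, h4, Sym2.eq_swap]
              · rw [Sym2.eq_swap, h4, Sym2.eq_swap]
          · by_cases e3 : s(x, z) = s(p, q)
            · right
              rw [Sym2.eq_iff] at e3
              rcases e3 with ⟨rfl, rfl⟩ | ⟨rfl, rfl⟩
              · right; right; right; right; left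
                refine ⟨y, ?_, rfl, rfl, rfl⟩
                simp only [Z, cod, Finset.mem_filter, Finset.mem_univ, true_and]
                refine ⟨h1, h2.symm, h5, ?_⟩
                rw [← h5, h4, Sym2.eq_swap]
              · right; right; right; right; right
                refine ⟨y, ?_, rfl, rfl, rfl⟩
                simp only [Z, cod, Finset.mem_filter, Finset.mem_univ, true_and]
                refine ⟨h2.symm, h1, ?_, ?_⟩
                · rw [Sym2.eq_swap, ← h4, h5, Sym2.eq_swap]
                · rw [h5, Sym2.eq_swap]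
            · left
              exact ⟨(hH' _ _).2 ⟨h1, e1⟩, (hH' _ _).2 ⟨h2, e2⟩, (hH' _ _).2 ⟨h3, e3⟩, h4, h5⟩
      refine (Finset.card_le_card hsub).trans ?_
      refine (Finset.card_union_le _ _).trans ?_
      have c1 : (Z.image (fun z => (p, q, z))).card ≤ Z.card := Finset.card_image_le
      have c2 : (Z.image (fun z => (q, p, z))).card ≤ Z.card := Finset.card_image_le
      have c3 : (Z.image (fun z => (z, p, q))).card ≤ Z.card := Finset.card_image_le
      have c4 : (Z.image (fun z => (z, q, p))).card ≤ Z.card := Finset.card_image_le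
      have c5 : (Z.image (fun z => (p, z, q))).card ≤ Z.card := Finset.card_image_le
      have c6 : (Z.image (fun z => (q, z, p))).card ≤ Z.card := Finset.card_image_le
      have u1 := Finset.card_union_le (Z.image (fun z => (p, z, q))) (Z.image (fun z => (q, z, p)))
      have u2 := Finset.card_union_le (Z.image (fun z => (z, q, p)))
        (Z.image (fun z => (p, z, q)) ∪ Z.image (fun z => (q, z, p)))
      have u3 := Finset.card_union_le (Z.image (fun z => (z, p, q))) (Z.image (fun z => (z, q, p)) ∪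
        (Z.image (fun z => (p, z, q)) ∪ Z.image (fun z => (q, z, p))))
      have u4 := Finset.card_union_le (Z.image (fun z => (q, p, z))) (Z.image (fun z => (z, p, q)) ∪
        (Z.image (fun z => (z, q, p)) ∪
        (Z.image (fun z => (p, z, q)) ∪ Z.image (fun z => (q, z, p)))))
      have u5 := Finset.card_union_le (Z.image (fun z => (p, q, z))) (Z.image (fun z => (q, p, z)) ∪
        (Z.image (fun z => (z, p, q)) ∪
        (Z.image (fun z => (z, q, p)) ∪
        (Z.image (fun z => (p, z, q)) ∪ Z.image (fun z => (q, z, p))))))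
      omega
    have hmem : H' ∈ {H : SimpleGraph V | H ≤ G ∧ 3 * m * EE H < TT H col} := by
      refine ⟨hle.trans hH.1, ?_⟩
      have h1 : 3 * m * (EE H' + 2) ≤ 3 * m * EE H := Nat.mul_le_mul_left _ hE
      have h2 := hH.2
      have h3 : 3 * m * (EE H' + 2) = 3 * m * EE H' + 6 * m := by ring
      omega
    exact hmin H' hmem hlt'

end

/-- triangle supersaturation for local colourings of almost complete graphs -/
theorem triCount (ℓ : ℕ) : ∃ ξ τ : ℝ, 0 < ξ ∧ 0 < τ ∧ ∀ (V : Type) [DecidableEq V]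
    (G : SimpleGraph V) (col : Sym2 V → ℕ) (U : Finset V), U.Nonempty →
    (open Classical in (((U ×ˢ U).filter (fun t => ¬ G.Adj t.1 t.2)).card : ℝ)) ≤ ξ * (U.card : ℝ) ^ 2 →
    (∀ v ∈ U, (open Classical in ((U.filter (fun u => G.Adj v u)).image (fun u => col s(v, u))).card) ≤ ℓ) →
    τ * (U.card : ℝ) ^ 3 ≤
      (open Classical in (((U ×ˢ U ×ˢ U).filter (fun t => Tri G col t.1 t.2.1 t.2.2)).card : ℝ)) := by
  classical
  induction ℓ with
  | zero =>
    refine ⟨1 / 2, 1, by norm_num, by norm_num, ?_⟩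
    intro V _ G col U hU hmiss hloc
    exfalso
    have hall : ∀ v ∈ U, ∀ u ∈ U, ¬ G.Adj v u := by
      intro v hv u hu hadj
      have := hloc v hv
      rw [Nat.le_zero, Finset.card_eq_zero, Finset.image_eq_empty, Finset.filter_eq_empty_iff] at this
      exact this hu hadj
    have hfull : (U ×ˢ U).filter (fun t => ¬ G.Adj t.1 t.2) = U ×ˢ U := by
      rw [Finset.filter_eq_self]
      intro t ht
      rw [Finset.mem_product] at ht
      exact hall _ ht.1 _ ht.2
    have hmiss' : ((U ×ˢ U).card : ℝ) ≤ 1 / 2 * (U.card : ℝ) ^ 2 := by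
      rw [← hfull]
      convert hmiss using 3
    rw [Finset.card_product] at hmiss'
    push_cast at hmiss'
    have : (0 : ℝ) < U.card := by exact_mod_cast hU.card_pos
    nlinarith
  | succ ℓ ih =>
    obtain ⟨ξ0, τ0, hξ0, hτ0, ih⟩ := ih
    have hL : (0 : ℝ) < (ℓ + 1 : ℝ) := by positivity
    set ξ : ℝ := min (1 / 4) (ξ0 / (8 * (ℓ + 1 : ℝ) ^ 2)) with hξdef
    have hξ : 0 < ξ := by rw [hξdef]; positivity
    have hξ1 : ξ ≤ 1 / 4 := min_le_left _ _
    have hξ2 : ξ * (8 * (ℓ + 1 : ℝ) ^ 2) ≤ ξ0 := by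
      have : ξ ≤ ξ0 / (8 * (ℓ + 1 : ℝ) ^ 2) := min_le_right _ _
      rwa [le_div_iff₀ (by positivity)] at this
    set τ : ℝ := min (ξ / 2) (τ0 / (8 * (ℓ + 1 : ℝ) ^ 3)) with hτdef
    have hτ : 0 < τ := by rw [hτdef]; positivity
    have hτ1 : τ ≤ ξ / 2 := min_le_left _ _
    have hτ2 : τ * (8 * (ℓ + 1 : ℝ) ^ 3) ≤ τ0 := by
      have : τ ≤ τ0 / (8 * (ℓ + 1 : ℝ) ^ 3) := min_le_right _ _
      rwa [le_div_iff₀ (by positivity)] at this
    refine ⟨ξ, τ, hξ, hτ, ?_⟩
    intro V _ G col U hU hmiss hloc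
    by_contra hcon
    push Not at hcon
    set n : ℝ := (U.card : ℝ) with hn
    have hnpos : 0 < n := by rw [hn]; exact_mod_cast hU.card_pos
    -- local quantities
    let t : V → ℕ := fun v => ((U ×ˢ U).filter (fun p => Tri G col v p.1 p.2)).card
    let μ : V → ℕ := fun v => (U.filter (fun u => ¬ G.Adj v u)).card
    have ht : (((U ×ˢ U ×ˢ U).filter (fun t => Tri G col t.1 t.2.1 t.2.2)).card : ℝ) = ∑ v ∈ U, (t v : ℝ) := by
      rw [← Nat.cast_sum]
      congr 1
      rw [Finset.card_filter, Finset.sum_product]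
      apply Finset.sum_congr rfl
      intro v hv
      simp only [t]
      rw [Finset.card_filter]
    have hμ : (((U ×ˢ U).filter (fun t => ¬ G.Adj t.1 t.2)).card : ℝ) = ∑ v ∈ U, (μ v : ℝ) := by
      rw [← Nat.cast_sum]
      congr 1
      rw [Finset.card_filter, Finset.sum_product]
      apply Finset.sum_congr rfl
      intro v hv
      simp only [μ]
      rw [Finset.card_filter]
    have hmiss0 : ∑ v ∈ U, (μ v : ℝ) ≤ ξ * n ^ 2 := by rw [← hμ]; convert hmiss using 3
    have hcon0 : ∑ v ∈ U, (t v : ℝ) < τ * n ^ 3 := by rw [← ht]; convert hcon using 3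
    -- choose v
    obtain ⟨v, hv, hvlt⟩ : ∃ v ∈ U, (t v : ℝ) / (ξ * n ^ 2) + 2 * (μ v : ℝ) / n < 1 := by
      by_contra hno
      push Not at hno
      have h1 : ∑ v ∈ U, (1 : ℝ) ≤ ∑ v ∈ U, ((t v : ℝ) / (ξ * n ^ 2) + 2 * (μ v : ℝ) / n) :=
        Finset.sum_le_sum hno
      rw [Finset.sum_add_distrib, ← Finset.sum_div, ← Finset.sum_div, ← Finset.mul_sum] at h1
      simp only [Finset.sum_const, nsmul_eq_mul, mul_one] at h1
      rw [← hn] at h1
      have h2 : (∑ v ∈ U, (t v : ℝ)) / (ξ * n ^ 2) < n / 2 := by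
        rw [div_lt_iff₀ (by positivity)]
        have : τ * n ^ 3 ≤ n / 2 * (ξ * n ^ 2) := by
          have : τ * n ^ 3 ≤ ξ / 2 * n ^ 3 := mul_le_mul_of_nonneg_right hτ1 (by positivity)
          nlinarith
        linarith
      have h3 : 2 * (∑ v ∈ U, (μ v : ℝ)) / n ≤ n / 2 := by
        rw [div_le_iff₀ hnpos]
        nlinarith
      linarith
    have hvt : (t v : ℝ) < ξ * n ^ 2 := by
      have h1 : (t v : ℝ) / (ξ * n ^ 2) < 1 := by
        have : 0 ≤ 2 * (μ v : ℝ) / n := by positivity
        linarith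
      rwa [div_lt_one (by positivity)] at h1
    have hvμ : 2 * (μ v : ℝ) < n := by
      have h1 : 2 * (μ v : ℝ) / n < 1 := by
        have : 0 ≤ (t v : ℝ) / (ξ * n ^ 2) := by positivity
        linarith
      rwa [div_lt_one hnpos] at h1
    set N := U.filter (fun u => G.Adj v u) with hNdef
    have hNc : (N.card : ℝ) + μ v = n := by
      rw [hn, ← Nat.cast_add]
      congr 1
      exact Finset.card_filter_add_card_filter_not _
    have hNbig : n < 2 * (N.card : ℝ) := by linarith
    have hNne : N.Nonempty := by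
      rw [← Finset.card_pos]
      have : (0 : ℝ) < N.card := by linarith
      exact_mod_cast this
    -- majority colour
    set Cs := N.image (fun u => col s(v, u)) with hCs
    have hCsc : Cs.card ≤ ℓ + 1 := by
      have := hloc v hv
      convert this using 2
    obtain ⟨c, hc, hcc⟩ := Finset.exists_le_card_fiber_of_nsmul_le_card_of_maps_to
      (s := N) (t := Cs) (f := fun u => col s(v, u)) (b := (N.card : ℝ) / (ℓ + 1))
      (fun u hu => Finset.mem_image_of_mem _ hu) (hNne.image _) (by
        rw [nsmul_eq_mul]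
        have h1 : (Cs.card : ℝ) ≤ (ℓ + 1 : ℝ) := by exact_mod_cast hCsc
        have h2 : (0 : ℝ) ≤ (N.card : ℝ) / (ℓ + 1) := by positivity
        calc (Cs.card : ℝ) * ((N.card : ℝ) / (ℓ + 1)) ≤ (ℓ + 1 : ℝ) * ((N.card : ℝ) / (ℓ + 1)) :=
              mul_le_mul_of_nonneg_right h1 h2
          _ = N.card := by field_simp)
    set U1 := N.filter (fun u => col s(v, u) = c) with hU1
    have hU1U : ∀ u ∈ U1, u ∈ U ∧ G.Adj v u ∧ col s(v, u) = c := by
      intro u hu
      rw [hU1, Finset.mem_filter, hNdef, Finset.mem_filter] at hu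
      exact ⟨hu.1.1, hu.1.2, hu.2⟩
    have hU1big : n < 2 * (ℓ + 1) * (U1.card : ℝ) := by
      have : (N.card : ℝ) ≤ (ℓ + 1) * (U1.card : ℝ) := by
        rw [div_le_iff₀ hL] at hcc
        linarith
      nlinarith
    have hU1ne : U1.Nonempty := by
      rw [← Finset.card_pos]
      by_contra h0
      have : U1.card = 0 := by omega
      rw [this] at hU1big
      simp at hU1big
      linarith
    obtain ⟨G1, hG1⟩ : ∃ G1 : SimpleGraph V, ∀ x y, G1.Adj x y ↔ (G.Adj x y ∧ col s(x, y) ≠ c) :=
      ⟨{ Adj := fun x y => G.Adj x y ∧ col s(x, y) ≠ c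
         symm := ⟨fun x y hxy => ⟨hxy.1.symm, by rw [Sym2.eq_swap]; exact hxy.2⟩⟩
         loopless := ⟨fun x hx => G.loopless.irrefl x hx.1⟩ }, fun x y => Iff.rfl⟩
    have hmiss1 : (((U1 ×ˢ U1).filter (fun t => ¬ G1.Adj t.1 t.2)).card : ℝ) ≤ ξ0 * (U1.card : ℝ) ^ 2 := by
      have h1 : ((U1 ×ˢ U1).filter (fun t => ¬ G1.Adj t.1 t.2)).card ≤
          ((U ×ˢ U).filter (fun t => ¬ G.Adj t.1 t.2)).card + t v := by
        refine le_trans (Finset.card_le_card ?_) (Finset.card_union_le _ _)
        rintro ⟨x, y⟩ hxy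
        rw [Finset.mem_filter, Finset.mem_product] at hxy
        obtain ⟨⟨hx, hy⟩, hnadj⟩ := hxy
        simp only at hx hy hnadj
        obtain ⟨hx1, hx2, hx3⟩ := hU1U x hx
        obtain ⟨hy1, hy2, hy3⟩ := hU1U y hy
        rw [Finset.mem_union, Finset.mem_filter, Finset.mem_filter, Finset.mem_product]
        by_cases hadj : G.Adj x y
        · right
          refine ⟨⟨hx1, hy1⟩, ?_⟩
          have hcol : col s(x, y) = c := by
            by_contra hne
            exact hnadj ((hG1 _ _).2 ⟨hadj, hne⟩)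
          exact ⟨hx2, hadj, hy2, by simp only; rw [hx3, hcol], by simp only; rw [hx3, hy3]⟩
        · left
          exact ⟨⟨hx1, hy1⟩, hadj⟩
      have h2 : (((U1 ×ˢ U1).filter (fun t => ¬ G1.Adj t.1 t.2)).card : ℝ) ≤ ξ * n ^ 2 + ξ * n ^ 2 := by
        have : (((U1 ×ˢ U1).filter (fun t => ¬ G1.Adj t.1 t.2)).card : ℝ) ≤
          (((U ×ˢ U).filter (fun t => ¬ G.Adj t.1 t.2)).card : ℝ) + t v := by exact_mod_cast h1
        rw [hμ] at this
        linarith
      refine h2.trans ?_
      have h3 : n ^ 2 ≤ (2 * (ℓ + 1) * (U1.card : ℝ)) ^ 2 := by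
        apply pow_le_pow_left₀ hnpos.le hU1big.le
      have h4 : ξ * n ^ 2 + ξ * n ^ 2 ≤ 2 * ξ * (2 * (ℓ + 1) * (U1.card : ℝ)) ^ 2 := by
        have := mul_le_mul_of_nonneg_left h3 (by positivity : 0 ≤ 2 * ξ)
        linarith
      refine h4.trans ?_
      have h5 : 2 * ξ * (2 * (ℓ + 1) * (U1.card : ℝ)) ^ 2 = ξ * (8 * (ℓ + 1 : ℝ) ^ 2) * (U1.card : ℝ) ^ 2 := by ring
      rw [h5]
      exact mul_le_mul_of_nonneg_right hξ2 (by positivity)
    have hloc1 : ∀ u ∈ U1, ((U1.filter (fun w => G1.Adj u w)).image (fun w => col s(u, w))).card ≤ ℓ := by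
      intro u hu
      obtain ⟨hu1, hu2, hu3⟩ := hU1U u hu
      have hl : ((U.filter (fun w => G.Adj u w)).image (fun w => col s(u, w))).card ≤ ℓ + 1 := by
        have := hloc u hu1
        convert this using 2
      have hcmem : c ∈ (U.filter (fun w => G.Adj u w)).image (fun w => col s(u, w)) := by
        rw [Finset.mem_image]
        exact ⟨v, Finset.mem_filter.2 ⟨hv, hu2.symm⟩, by rw [Sym2.eq_swap]; exact hu3⟩
      have hsub : (U1.filter (fun w => G1.Adj u w)).image (fun w => col s(u, w)) ⊆
          ((U.filter (fun w => G.Adj u w)).image (fun w => col s(u, w))).erase c := by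
        intro k hk
        rw [Finset.mem_image] at hk
        obtain ⟨w, hw, rfl⟩ := hk
        rw [Finset.mem_filter] at hw
        rw [Finset.mem_erase, Finset.mem_image]
        have hw2 := (hG1 _ _).1 hw.2
        exact ⟨hw2.2, w, Finset.mem_filter.2 ⟨(hU1U w hw.1).1, hw2.1⟩, rfl⟩
      have := Finset.card_le_card hsub
      rw [Finset.card_erase_of_mem hcmem] at this
      omega
    have hfin := ih V G1 col U1 hU1ne (by convert hmiss1 using 3) (by
      intro u hu
      have := hloc1 u hu
      convert this using 2)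
    have hTle : ((U1 ×ˢ U1 ×ˢ U1).filter (fun t => Tri G1 col t.1 t.2.1 t.2.2)).card ≤
        ((U ×ˢ U ×ˢ U).filter (fun t => Tri G col t.1 t.2.1 t.2.2)).card := by
      apply Finset.card_le_card
      rintro ⟨x, y, z⟩ hxyz
      simp only [Finset.mem_filter, Finset.mem_product] at hxyz ⊢
      obtain ⟨⟨hx, hy, hz⟩, h1, h2, h3, h4, h5⟩ := hxyz
      exact ⟨⟨(hU1U x hx).1, (hU1U y hy).1, (hU1U z hz).1⟩, ((hG1 _ _).1 h1).1, ((hG1 _ _).1 h2).1,
        ((hG1 _ _).1 h3).1, h4, h5⟩
    have hTle' : (((U1 ×ˢ U1 ×ˢ U1).filter (fun t => Tri G1 col t.1 t.2.1 t.2.2)).card : ℝ) ≤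
        (((U ×ˢ U ×ˢ U).filter (fun t => Tri G col t.1 t.2.1 t.2.2)).card : ℝ) := by exact_mod_cast hTle
    have h6 : τ0 * (U1.card : ℝ) ^ 3 ≤
        (((U1 ×ˢ U1 ×ˢ U1).filter (fun t => Tri G1 col t.1 t.2.1 t.2.2)).card : ℝ) := by
      convert hfin using 3
    have h7 : τ * n ^ 3 ≤ τ0 * (U1.card : ℝ) ^ 3 := by
      have h3 : n ^ 3 ≤ (2 * (ℓ + 1) * (U1.card : ℝ)) ^ 3 := pow_le_pow_left₀ hnpos.le hU1big.le 3
      have h4 : τ * n ^ 3 ≤ τ * (2 * (ℓ + 1) * (U1.card : ℝ)) ^ 3 := mul_le_mul_of_nonneg_left h3 hτ.le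
      have h5 : τ * (2 * (ℓ + 1) * (U1.card : ℝ)) ^ 3 = τ * (8 * (ℓ + 1 : ℝ) ^ 3) * (U1.card : ℝ) ^ 3 := by ring
      rw [h5] at h4
      exact h4.trans (mul_le_mul_of_nonneg_right hτ2 (by positivity))
    rw [ht] at hTle'
    linarith

end P3

section P4

variable {V : Type} [DecidableEq V]

lemma Cyc.imp {H H' : SimpleGraph V} (h : ∀ x y, H.Adj x y → H'.Adj x y) {C : List V} (hC : Cyc H C) :
    Cyc H' C := by
  refine ⟨hC.1, ?_⟩
  rcases hC.2 with h1 | ⟨x, l, rfl, hch⟩
  · exact Or.inl h1
  · exact Or.inr ⟨x, l, rfl, hch.imp (fun a b => h a b)⟩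

lemma succFn (C : List V) (hnd : C.Nodup) (x : V) (l : List V) (hC : C = x :: l) :
    ∃ s : V → V, (∀ p ∈ C, s p ∈ C) ∧ (∀ p ∈ C, ∀ q ∈ C, s p = s q → p = q) ∧
      ∀ Q : V → V → Prop, List.IsChain Q (C ++ [x]) ↔ ∀ p ∈ C, Q p (s p) := by
  have hlen : 0 < C.length := by rw [hC]; simp
  have hidx : ∀ p ∈ C, C.idxOf p < C.length := fun p hp => List.idxOf_lt_length_of_mem hp
  refine ⟨fun p => C.getD ((C.idxOf p + 1) % C.length) p, ?_, ?_, ?_⟩
  · intro p hp
    simp only
    rw [List.getD_eq_getElem _ _ (Nat.mod_lt _ hlen)]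
    exact List.getElem_mem _
  · intro p hp q hq h
    simp only at h
    rw [List.getD_eq_getElem _ _ (Nat.mod_lt _ hlen), List.getD_eq_getElem _ _ (Nat.mod_lt _ hlen)] at h
    have h2 := (List.Nodup.getElem_inj_iff hnd).1 h
    have hp' := hidx p hp
    have hq' := hidx q hq
    have h3 : C.idxOf p = C.idxOf q := by
      rcases Nat.lt_or_ge (C.idxOf p + 1) C.length with h1 | h1
      · rcases Nat.lt_or_ge (C.idxOf q + 1) C.length with h4 | h4
        · rw [Nat.mod_eq_of_lt h1, Nat.mod_eq_of_lt h4] at h2; omega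
        · have : C.idxOf q + 1 = C.length := by omega
          rw [Nat.mod_eq_of_lt h1, this, Nat.mod_self] at h2; omega
      · have e1 : C.idxOf p + 1 = C.length := by omega
        rcases Nat.lt_or_ge (C.idxOf q + 1) C.length with h4 | h4
        · rw [Nat.mod_eq_of_lt h4, e1, Nat.mod_self] at h2; omega
        · omega
    have h4 : C[C.idxOf p]'hp' = C[C.idxOf q]'hq' := by simp only [h3]
    rwa [List.getElem_idxOf, List.getElem_idxOf] at h4
  · intro Q
    rw [List.isChain_iff_getElem]
    have hx : C[0]'hlen = x := by simp [hC]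
    constructor
    · intro h p hp
      have hp' := hidx p hp
      have h1 := h (C.idxOf p) (by simp; omega)
      rw [List.getElem_append_left hp', List.getElem_idxOf] at h1
      simp only
      rw [List.getD_eq_getElem _ _ (Nat.mod_lt _ hlen)]
      rcases Nat.lt_or_ge (C.idxOf p + 1) C.length with h2 | h2
      · rw [List.getElem_append_left h2] at h1
        simp only [Nat.mod_eq_of_lt h2]
        exact h1
      · have h3 : C.idxOf p + 1 = C.length := by omega
        rw [List.getElem_append_right h2] at h1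
        simp only [h3, Nat.mod_self, hx]
        simpa using h1
    · intro h i hi
      simp only [List.length_append, List.length_cons, List.length_nil, zero_add, add_lt_add_iff_right] at hi
      rw [List.getElem_append_left hi]
      have h1 := h (C[i]) (List.getElem_mem _)
      simp only at h1
      rw [List.getD_eq_getElem _ _ (Nat.mod_lt _ hlen)] at h1
      have h2 : C.idxOf (C[i]) = i := List.Nodup.idxOf_getElem hnd i hi
      simp only [h2] at h1
      rcases Nat.lt_or_ge (i + 1) C.length with h3 | h3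
      · rw [List.getElem_append_left h3]
        simp only [Nat.mod_eq_of_lt h3] at h1
        exact h1
      · have h4 : i + 1 = C.length := by omega
        rw [List.getElem_append_right h3]
        simp only [h4, Nat.mod_self, hx] at h1
        simpa [h4] using h1

/-- insertion of f b after b, for those b with P b -/
def weave (P : V → Prop) [DecidablePred P] (f : V → V) (l : List V) : List V :=
  l.flatMap (fun b => if P b then [b, f b] else [b])

lemma weave_cons (P : V → Prop) [DecidablePred P] (f : V → V) (a : V) (l : List V) :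
    weave P f (a :: l) = a :: ((if P a then [f a] else []) ++ weave P f l) := by
  unfold weave
  rw [List.flatMap_cons]
  by_cases h : P a <;> simp [h]

lemma weave_head (P : V → Prop) [DecidablePred P] (f : V → V) (l : List V) (y : V) :
    (weave P f l ++ [y]).head? = (l ++ [y]).head? := by
  cases l with
  | nil => simp [weave]
  | cons a l => rw [weave_cons]; simp

lemma weave_chain (P : V → Prop) [DecidablePred P] (f : V → V) (R : V → V → Prop) :
    ∀ (l : List V) (y : V),
      List.IsChain (fun p q => (¬ P p → R p q) ∧ (P p → R p (f p) ∧ R (f p) q)) (l ++ [y]) →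
      List.IsChain R (weave P f l ++ [y]) := by
  intro l y
  induction l with
  | nil => intro _; simp [weave]
  | cons a l ih =>
    intro h
    rw [List.cons_append, List.isChain_cons] at h
    have h2 := ih h.2
    rw [weave_cons]
    by_cases hP : P a
    · simp only [hP, if_true, List.cons_append, List.nil_append]
      rw [List.isChain_cons, List.isChain_cons]
      have hne : (l ++ [y]).head? ≠ none := by simp
      obtain ⟨z, hz⟩ := Option.ne_none_iff_exists'.1 hne
      have h3 := h.1 z hz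
      refine ⟨?_, ?_, h2⟩
      · intro w hw
        simp only [List.head?_cons, Option.mem_def, Option.some.injEq] at hw
        rw [← hw]; exact (h3.2 hP).1
      · intro w hw
        rw [weave_head, hz] at hw
        simp only [Option.mem_def, Option.some.injEq] at hw
        rw [← hw]; exact (h3.2 hP).2
    · simp only [hP, if_false, List.nil_append, List.cons_append]
      rw [List.isChain_cons]
      refine ⟨?_, h2⟩
      intro w hw
      rw [weave_head] at hw
      exact (h.1 w hw).1 hP

lemma weave_mem (P : V → Prop) [DecidablePred P] (f : V → V) (l : List V) (v : V) :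
    v ∈ weave P f l ↔ v ∈ l ∨ ∃ b ∈ l, P b ∧ v = f b := by
  unfold weave
  rw [List.mem_flatMap]
  constructor
  · rintro ⟨b, hb, hv⟩
    by_cases hP : P b
    · simp only [hP, if_true, List.mem_cons, List.not_mem_nil, or_false] at hv
      rcases hv with rfl | rfl
      · exact Or.inl hb
      · exact Or.inr ⟨b, hb, hP, rfl⟩
    · simp only [hP, if_false, List.mem_cons, List.not_mem_nil, or_false] at hv
      subst hv; exact Or.inl hb
  · rintro (hv | ⟨b, hb, hP, rfl⟩)
    · refine ⟨v, hv, ?_⟩
      by_cases hP : P v <;> simp [hP]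
    · exact ⟨b, hb, by simp [hP]⟩

lemma weave_nodup (P : V → Prop) [DecidablePred P] (f : V → V) (l : List V) (hl : l.Nodup)
    (hinj : ∀ b ∈ l, ∀ b' ∈ l, P b → P b' → f b = f b' → b = b')
    (hdis : ∀ b ∈ l, P b → f b ∉ l) : (weave P f l).Nodup := by
  unfold weave
  rw [List.nodup_flatMap]
  constructor
  · intro b hb
    by_cases hP : P b
    · simp only [hP, if_true]
      rw [List.nodup_cons]
      refine ⟨?_, by simp⟩
      simp only [List.mem_cons, List.not_mem_nil, or_false]
      intro h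
      exact hdis b hb hP (by rw [← h]; exact hb)
    · simp [hP]
  · refine List.Pairwise.imp_of_mem (R := fun a b => a ≠ b) ?_ hl
    intro a b ha hb hab
    rw [Function.onFun, List.disjoint_left]
    intro z hz hz'
    by_cases hPa : P a
    · by_cases hPb : P b
      · simp only [hPa, hPb, if_true, List.mem_cons, List.not_mem_nil, or_false] at hz hz'
        rcases hz with rfl | rfl
        · rcases hz' with rfl | hz'
          · exact hab rfl
          · exact hdis b hb hPb (by rw [← hz']; exact ha)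
        · rcases hz' with hz' | hz'
          · exact hdis a ha hPa (by rw [hz']; exact hb)
          · exact hab (hinj a ha b hb hPa hPb hz')
      · simp only [hPa, hPb, if_true, if_false, List.mem_cons, List.not_mem_nil, or_false] at hz hz'
        subst hz'
        rcases hz with rfl | rfl
        · exact hab rfl
        · exact hdis a ha hPa hb
    · by_cases hPb : P b
      · simp only [hPa, hPb, if_true, if_false, List.mem_cons, List.not_mem_nil, or_false] at hz hz'
        subst hz
        rcases hz' with rfl | rfl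
        · exact hab rfl
        · exact hdis b hb hPb ha
      · simp only [hPa, hPb, if_false, List.mem_cons, List.not_mem_nil, or_false] at hz hz'
        subst hz
        exact hab hz'

lemma weave_flatten (P : V → Prop) [DecidablePred P] (f : V → V) (𝒞 : List (List V)) :
    (𝒞.map (fun C => weave P f C)).flatten = weave P f 𝒞.flatten := by
  induction 𝒞 with
  | nil => rfl
  | cons a l ih =>
    rw [List.map_cons, List.flatten_cons, ih, List.flatten_cons]
    unfold weave
    rw [List.flatMap_append]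

lemma chain_const {α : Type} (t : V → α) : ∀ (l : List V) (x : V),
    List.IsChain (fun p q => t p = t q) (x :: l) → ∀ p ∈ x :: l, t p = t x := by
  intro l
  induction l with
  | nil => intro x _ p hp; simp at hp; rw [hp]
  | cons a l ih =>
    intro x h p hp
    rw [List.isChain_cons] at h
    have h1 : t x = t a := h.1 a (by simp)
    rcases List.mem_cons.1 hp with rfl | hp
    · rfl
    · rw [ih a h.2 p hp, h1]

theorem lift (G G0 : SimpleGraph V) (col col0 : Sym2 V → ℕ) (A B : Finset V) (hAB : Disjoint A B)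
    (k : ℕ) (hcov : Cov G0 col0 B k) (Cand : ℕ → V → V → Finset V) (τ : ℕ → V → ℕ) (Y : V → ℕ)
    (hCand : ∀ i p q, p ∈ B → q ∈ B → (cg G0 col0 i).Adj p q → Cand i p q ⊆ A ∧ τ i p = τ i q ∧
      (∀ a ∈ Cand i p q, (G.Adj p a ∧ col s(p, a) = τ i p) ∧ (G.Adj a q ∧ col s(a, q) = τ i p)) ∧
      min (Y p) (Y q) ≤ (Cand i p q).card)
    (hY : ∀ M, 2 * (B.filter (fun b => Y b ≤ M)).card ≤ M) :
    ∃ D ⊆ A, D.card ≤ B.card ∧ Cov G col (B ∪ D) k := by
  classical
  obtain ⟨𝒞, hk, hcyc, hnd, hmem⟩ := hcov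
  -- colour of a cycle
  have hι : ∃ ι : List V → ℕ, ∀ C ∈ 𝒞, Cyc (cg G0 col0 (ι C)) C := by
    choose ι hι using hcyc
    refine ⟨fun C => if h : C ∈ 𝒞 then ι C h else 0, ?_⟩
    intro C hC
    simp only [hC, dif_pos]
    exact hι C hC
  obtain ⟨ι, hι⟩ := hι
  have hσ : ∃ σ : List V → V → V, ∀ C ∈ 𝒞, ∀ x l, C = x :: l →
      (∀ p ∈ C, σ C p ∈ C) ∧ (∀ p ∈ C, ∀ q ∈ C, σ C p = σ C q → p = q) ∧
      ∀ Q : V → V → Prop, List.IsChain Q (C ++ [x]) ↔ ∀ p ∈ C, Q p (σ C p) := by
    have : ∀ C : List V, ∃ s : V → V, C ∈ 𝒞 → ∀ x l, C = x :: l →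
      (∀ p ∈ C, s p ∈ C) ∧ (∀ p ∈ C, ∀ q ∈ C, s p = s q → p = q) ∧
      ∀ Q : V → V → Prop, List.IsChain Q (C ++ [x]) ↔ ∀ p ∈ C, Q p (s p) := by
      intro C
      rcases C with _ | ⟨x, l⟩
      · exact ⟨id, fun _ x l h => by simp at h⟩
      · by_cases hC : (x :: l) ∈ 𝒞
        · obtain ⟨s, h1, h2, h3⟩ := succFn (x :: l) (hι _ hC).1 x l rfl
          refine ⟨s, fun _ x' l' h => ?_⟩
          rw [List.cons.injEq] at h
          obtain ⟨rfl, rfl⟩ := h
          exact ⟨h1, h2, h3⟩
        · exact ⟨id, fun h => absurd h hC⟩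
    choose σ hσ using this
    exact ⟨σ, hσ⟩
  obtain ⟨σ, hσ⟩ := hσ
  have hκ : ∃ κ : V → List V, ∀ b ∈ B, κ b ∈ 𝒞 ∧ b ∈ κ b := by
    have : ∀ b : V, ∃ C : List V, b ∈ B → C ∈ 𝒞 ∧ b ∈ C := by
      intro b
      by_cases hb : b ∈ B
      · obtain ⟨C, hC, hbC⟩ := List.mem_flatten.1 ((hmem b).2 hb)
        exact ⟨C, fun _ => ⟨hC, hbC⟩⟩
      · exact ⟨[], fun h => absurd h hb⟩
    choose κ hκ using this
    exact ⟨κ, hκ⟩
  obtain ⟨κ, hκ⟩ := hκ
  have hCB : ∀ C ∈ 𝒞, ∀ b ∈ C, b ∈ B := fun C hC b hb => (hmem b).1 (List.mem_flatten.2 ⟨C, hC, hb⟩)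
  have huniq : ∀ C ∈ 𝒞, ∀ b ∈ C, κ b = C := by
    intro C hC b hb
    by_contra hne
    have hb' := hκ b (hCB C hC b hb)
    have hp := (List.nodup_flatten.1 hnd).2
    have : Std.Symm (List.Disjoint (α := V)) := ⟨fun a b h => h.symm⟩
    have := hp.forall hb'.1 hC (fun h => hne h)
    exact this hb'.2 hb
  -- index set
  set I : Finset V := B.filter (fun b => 2 ≤ (κ b).length) with hI
  have hIB : ∀ b ∈ I, b ∈ B ∧ 2 ≤ (κ b).length := fun b hb => by rw [hI, Finset.mem_filter] at hb; exact hb
  let s : V → V := fun b => σ (κ b) b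
  have hs : ∀ b ∈ I, s b ∈ κ b ∧ (cg G0 col0 (ι (κ b))).Adj b (s b) := by
    intro b hb
    obtain ⟨hbB, hlen⟩ := hIB b hb
    obtain ⟨hC, hbC⟩ := hκ b hbB
    rcases (hι _ hC).2 with h1 | ⟨x, l, hx, hch⟩
    · omega
    · obtain ⟨g1, g2, g3⟩ := hσ _ hC x l hx
      refine ⟨g1 b hbC, ?_⟩
      have : List.IsChain (cg G0 col0 (ι (κ b))).Adj (κ b ++ [x]) := by
        have e : x :: (l ++ [x]) = κ b ++ [x] := by rw [hx]; rfl
        rw [e] at hch; exact hch
      exact (g3 _).1 this b hbC
  have hsI : ∀ b ∈ I, s b ∈ B ∧ κ (s b) = κ b := by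
    intro b hb
    have h1 := hκ b (hIB b hb).1
    exact ⟨hCB _ h1.1 _ (hs b hb).1, huniq _ h1.1 _ (hs b hb).1⟩
  have hsinj : ∀ b ∈ I, ∀ b' ∈ I, s b = s b' → b = b' := by
    intro b hb b' hb' h
    have e : κ b = κ b' := by rw [← (hsI b hb).2, ← (hsI b' hb').2, h]
    have h1 := hκ b (hIB b hb).1
    have h2 := hκ b' (hIB b' hb').1
    rcases hx : κ b with _ | ⟨x, l⟩
    · have := h1.2; rw [hx] at this; simp at this
    · obtain ⟨g1, g2, g3⟩ := hσ _ h1.1 x l hx
      refine g2 b h1.2 b' (by rw [e]; exact h2.2) ?_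
      simp only [s] at h
      rw [h, e]
  let t : I → Finset V := fun b => Cand (ι (κ b)) b (s b)
  have ht : ∀ b : I, t b ⊆ A ∧ min (Y b) (Y (s b)) ≤ (t b).card := by
    intro b
    have := hCand (ι (κ b)) b (s b) (hIB b b.2).1 (hsI b b.2).1 (hs b b.2).2
    exact ⟨this.1, this.2.2.2⟩
  -- Hall
  have hHall : ∀ S : Finset I, S.card ≤ (S.biUnion t).card := by
    intro S
    rcases S.eq_empty_or_nonempty with rfl | hSne
    · simp
    obtain ⟨b0, hb0, hmax⟩ := Finset.exists_max_image S (fun b => (t b).card) hSne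
    set M := (t b0).card with hM
    have h1 : S.card ≤ 2 * (B.filter (fun b => Y b ≤ M)).card := by
      have hsub : S ⊆ S.filter (fun b => Y b ≤ M) ∪ S.filter (fun b => Y (s b) ≤ M) := by
        intro b hb
        have h2 := (ht b).2
        have h3 := hmax b hb
        rw [Finset.mem_union, Finset.mem_filter, Finset.mem_filter]
        rcases min_le_iff.1 (h2.trans h3) with h4 | h4
        · exact Or.inl ⟨hb, h4⟩
        · exact Or.inr ⟨hb, h4⟩
      have h4 : (S.filter (fun b : I => Y b ≤ M)).card ≤ (B.filter (fun b => Y b ≤ M)).card := by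
        apply Finset.card_le_card_of_injOn (fun b : I => (b : V))
        · intro b hb
          rw [Finset.mem_coe, Finset.mem_filter] at hb
          rw [Finset.mem_coe, Finset.mem_filter]
          exact ⟨(hIB b b.2).1, hb.2⟩
        · intro b _ b' _ h
          exact Subtype.ext h
      have h5 : (S.filter (fun b : I => Y (s b) ≤ M)).card ≤ (B.filter (fun b => Y b ≤ M)).card := by
        apply Finset.card_le_card_of_injOn (fun b : I => s b)
        · intro b hb
          rw [Finset.mem_coe, Finset.mem_filter] at hb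
          rw [Finset.mem_coe, Finset.mem_filter]
          exact ⟨(hsI b b.2).1, hb.2⟩
        · intro b _ b' _ h
          exact Subtype.ext (hsinj b b.2 b' b'.2 h)
      have h6 := (Finset.card_le_card hsub).trans (Finset.card_union_le _ _)
      omega
    have h2 := h1.trans (hY M)
    refine h2.trans ?_
    rw [hM]
    exact Finset.card_le_card (Finset.subset_biUnion_of_mem t hb0)
  obtain ⟨f, hfinj, hf⟩ := (Finset.all_card_le_biUnion_card_iff_exists_injective t).1 hHall
  let f' : V → V := fun b => if h : b ∈ I then f ⟨b, h⟩ else b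
  have hf' : ∀ b (h : b ∈ I), f' b = f ⟨b, h⟩ := fun b h => by simp only [f', h, dif_pos]
  have hf'A : ∀ b ∈ I, f' b ∈ A := fun b hb => by rw [hf' b hb]; exact (ht _).1 (hf _)
  have hf'inj : ∀ b ∈ I, ∀ b' ∈ I, f' b = f' b' → b = b' := by
    intro b hb b' hb' h
    rw [hf' b hb, hf' b' hb'] at h
    have := hfinj h
    rw [Subtype.mk.injEq] at this
    exact this
  refine ⟨I.image f', ?_, ?_, ?_⟩
  · intro a ha
    obtain ⟨b, hb, rfl⟩ := Finset.mem_image.1 ha
    exact hf'A b hb
  · exact Finset.card_image_le.trans (Finset.card_le_card (Finset.filter_subset _ _))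
  · refine ⟨𝒞.map (fun C => weave (fun b => b ∈ I) f' C), by simpa using hk, ?_, ?_, ?_⟩
    · intro C' hC'
      obtain ⟨C, hC, rfl⟩ := List.mem_map.1 hC'
      have hnodup : (weave (fun b => b ∈ I) f' C).Nodup := by
        apply weave_nodup
        · exact (hι C hC).1
        · intro b _ b' _ h1 h2 h3; exact hf'inj b h1 b' h2 h3
        · intro b _ hb hmemC
          exact Finset.disjoint_left.1 hAB (hf'A b hb) (hCB C hC _ hmemC)
      rcases (hι C hC).2 with h1 | ⟨x, l, hx, hch⟩
      · refine ⟨0, hnodup, Or.inl ?_⟩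
        rcases C with _ | ⟨x, _ | ⟨y, l⟩⟩
        · simp [weave]
        · have : x ∉ I := by
            intro hxI
            have h2 := (hIB x hxI).2
            rw [huniq _ hC x (by simp)] at h2
            simp at h2
          rw [weave_cons, if_neg this]
          simp [weave]
        · simp at h1
      · obtain ⟨g1, g2, g3⟩ := hσ _ hC x l hx
        have hch' : List.IsChain (cg G0 col0 (ι C)).Adj (C ++ [x]) := by
          have e : x :: (l ++ [x]) = C ++ [x] := by rw [hx]; rfl
          rw [e] at hch; exact hch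
        have hadj := (g3 _).1 hch'
        by_cases hl : l = []
        · -- impossible loop
          exfalso
          subst hl
          have := hadj x (by rw [hx]; simp)
          have h2 := g1 x (by rw [hx]; simp)
          rw [hx] at h2
          simp only [List.mem_cons, List.not_mem_nil, or_false] at h2
          rw [← hx] at h2
          rw [h2] at this
          exact (cg G0 col0 (ι C)).loopless.irrefl _ this
        have hlen : 2 ≤ C.length := by
          rw [hx, List.length_cons]
          have := List.length_pos_of_ne_nil hl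
          omega
        have hCI : ∀ b ∈ C, b ∈ I := by
          intro b hb
          rw [hI, Finset.mem_filter]
          exact ⟨hCB C hC b hb, by rw [huniq C hC b hb]; exact hlen⟩
        have hprop : ∀ p ∈ C, τ (ι C) p = τ (ι C) (σ C p) ∧
            ((G.Adj p (f' p) ∧ col s(p, f' p) = τ (ι C) p) ∧
              (G.Adj (f' p) (σ C p) ∧ col s(f' p, σ C p) = τ (ι C) p)) := by
          intro p hp
          have h1 := hCand (ι C) p (σ C p) (hCB C hC p hp) (hCB C hC _ (g1 p hp)) (hadj p hp)
          refine ⟨h1.2.1, h1.2.2.1 (f' p) ?_⟩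
          rw [hf' p (hCI p hp)]
          have h2 := hf ⟨p, hCI p hp⟩
          simp only [t, s] at h2
          rw [huniq C hC p hp] at h2
          exact h2
        have hconst : ∀ p ∈ C, τ (ι C) p = τ (ι C) x := by
          have h1 : List.IsChain (fun p q => τ (ι C) p = τ (ι C) q) (C ++ [x]) :=
            (g3 _).2 (fun p hp => (hprop p hp).1)
          have e : C ++ [x] = x :: (l ++ [x]) := by rw [hx]; rfl
          rw [e] at h1
          intro p hp
          refine chain_const (τ (ι C)) _ x h1 p ?_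
          rw [hx] at hp
          rcases List.mem_cons.1 hp with rfl | hp
          · simp
          · exact List.mem_cons_of_mem _ (List.mem_append_left _ hp)
        refine ⟨τ (ι C) x, hnodup, Or.inr ?_⟩
        have hw : List.IsChain (cg G col (τ (ι C) x)).Adj (weave (fun b => b ∈ I) f' C ++ [x]) := by
          apply weave_chain
          rw [g3]
          intro p hp
          refine ⟨fun h => absurd (hCI p hp) h, fun _ => ?_⟩
          have h1 := (hprop p hp).2
          have h2 := hconst p hp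
          rw [h2] at h1
          exact ⟨h1.1, h1.2⟩
        rw [hx, weave_cons, List.cons_append] at hw
        rw [hx, weave_cons]
        exact ⟨x, _, rfl, hw⟩
    · have e := weave_flatten (fun b => b ∈ I) f' 𝒞
      rw [e]
      apply weave_nodup
      · exact hnd
      · intro b _ b' _ h1 h2 h3; exact hf'inj b h1 b' h2 h3
      · intro b _ hb hmemC
        exact Finset.disjoint_left.1 hAB (hf'A b hb) ((hmem _).1 hmemC)
    · have e := weave_flatten (fun b => b ∈ I) f' 𝒞
      intro v
      rw [e, weave_mem, hmem, Finset.mem_union, Finset.mem_image]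
      constructor
      · rintro (h | ⟨b, _, hb, rfl⟩)
        · exact Or.inl h
        · exact Or.inr ⟨b, hb, rfl⟩
      · rintro (h | ⟨b, hb, rfl⟩)
        · exact Or.inl h
        · exact Or.inr ⟨b, (hmem b).2 (hIB b hb).1, hb, rfl⟩

/-- Posa -/
theorem posa (G0 : SimpleGraph V) : ∀ (α : ℕ) (B : Finset V),
    (∀ I ⊆ B, (∀ x ∈ I, ∀ y ∈ I, ¬ G0.Adj x y) → I.card ≤ α) → Cov G0 (fun _ => 0) B α := by
  intro α
  induction α with
  | zero =>
    intro B hB
    have : B = ∅ := by
      by_contra hne
      obtain ⟨x, hx⟩ := Finset.nonempty_iff_ne_empty.2 hne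
      have := hB {x} (by simpa using hx) (by
        intro a ha b hb
        rw [Finset.mem_singleton] at ha hb
        subst ha; subst hb
        exact G0.loopless.irrefl _)
      simp at this
    rw [this]; exact Cov.empty _ _ _
  | succ α ih =>
    intro B hB
    rcases B.eq_empty_or_nonempty with rfl | hne
    · exact Cov.empty _ _ _
    obtain ⟨v, hv, C, h1, h2, h3, h4⟩ := cycNbrs G0 B hne
    have hrest : Cov G0 (fun _ => 0) (B \ C.toFinset) α := by
      apply ih
      intro I hI hind
      have hvI : v ∉ I := by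
        intro hvI
        have := hI hvI
        rw [Finset.mem_sdiff] at this
        exact this.2 (List.mem_toFinset.2 h2)
      have hIB : ∀ x ∈ I, x ∈ B ∧ x ∉ C := by
        intro x hx
        have := hI hx
        rw [Finset.mem_sdiff, List.mem_toFinset] at this
        exact this
      have := hB (insert v I) (by
        intro x hx
        rcases Finset.mem_insert.1 hx with rfl | hx
        · exact hv
        · exact (hIB x hx).1) (by
        intro x hx y hy
        rcases Finset.mem_insert.1 hx with hx2 | hx2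
        · rcases Finset.mem_insert.1 hy with hy2 | hy2
          · rw [hx2, hy2]; exact G0.loopless.irrefl _
          · rw [hx2]; intro hadj; exact (hIB y hy2).2 (h4 y (hIB y hy2).1 hadj)
        · rcases Finset.mem_insert.1 hy with hy2 | hy2
          · rw [hy2]; intro hadj; exact (hIB x hx2).2 (h4 x (hIB x hx2).1 hadj.symm)
          · exact hind x hx2 y hy2)
      rw [Finset.card_insert_of_notMem hvI] at this
      omega
    have hC : Cov G0 (fun _ => 0) C.toFinset 1 := by
      have hle : ∀ x y, G0.Adj x y → (cg G0 (fun _ => 0) 0).Adj x y := fun x y h => ⟨h, rfl⟩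
      have : Cyc (cg G0 (fun _ => 0) 0) C := h1.imp hle
      exact Cov.of_cyc this
    have hu := hrest.union hC Finset.sdiff_disjoint
    have e : (B \ C.toFinset) ∪ C.toFinset = B := by
      rw [Finset.sdiff_union_self_eq_union, Finset.union_eq_left]
      intro x hx
      exact h3 x (List.mem_toFinset.1 hx)
    rw [e] at hu
    exact hu

end P4

section P5

section
variable {V : Type} [DecidableEq V]

/-- colours seen by v inside U -/
noncomputable def seen (G : SimpleGraph V) (col : Sym2 V → ℕ) (U : Finset V) (v : V) : Finset ℕ := by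
  classical exact (U.filter (fun u => G.Adj v u)).image (fun u => col s(v, u))

lemma mem_seen {G : SimpleGraph V} {col : Sym2 V → ℕ} {U : Finset V} {v : V} {k : ℕ} :
    k ∈ seen G col U v ↔ ∃ u ∈ U, G.Adj v u ∧ col s(v, u) = k := by
  classical
  unfold seen
  rw [Finset.mem_image]
  constructor
  · rintro ⟨u, hu, rfl⟩
    rw [Finset.mem_filter] at hu
    exact ⟨u, hu.1, hu.2, rfl⟩
  · rintro ⟨u, h1, h2, rfl⟩
    exact ⟨u, Finset.mem_filter.2 ⟨h1, h2⟩, rfl⟩

lemma longMono (G : SimpleGraph V) (col : Sym2 V → ℕ) (U : Finset V) (K M d : ℕ)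
    (hK : ∑ v ∈ U, (seen G col U v).card ≤ K) (hM : M ≤ ∑ v ∈ U, dU G U v)
    (hM0 : 0 < M) (hd : 2 * d * K ≤ M) :
    ∃ (C : List V) (i : ℕ), Cyc (cg G col i) C ∧ (∀ x ∈ C, x ∈ U) ∧ d + 1 ≤ C.length := by
  classical
  obtain ⟨W, hW⟩ : ∃ W : SimpleGraph (V × ℕ), ∀ x y, W.Adj x y ↔
      (x.2 = y.2 ∧ G.Adj x.1 y.1 ∧ col s(x.1, y.1) = x.2) :=
    ⟨{ Adj := fun x y => x.2 = y.2 ∧ G.Adj x.1 y.1 ∧ col s(x.1, y.1) = x.2
       symm := ⟨fun x y h => ⟨h.1.symm, h.2.1.symm, by rw [Sym2.eq_swap, h.2.2, h.1]⟩⟩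
       loopless := ⟨fun x h => G.loopless.irrefl _ h.2.1⟩ }, fun x y => Iff.rfl⟩
  set X : Finset (V × ℕ) := U.biUnion (fun v => (seen G col U v).image (fun k => (v, k))) with hX
  have hXm : ∀ v k, (v, k) ∈ X ↔ v ∈ U ∧ k ∈ seen G col U v := by
    intro v k
    rw [hX, Finset.mem_biUnion]
    constructor
    · rintro ⟨w, hw, hk⟩
      rw [Finset.mem_image] at hk
      obtain ⟨k', hk', he⟩ := hk
      rw [Prod.mk.injEq] at he
      obtain ⟨rfl, rfl⟩ := he
      exact ⟨hw, hk'⟩
    · rintro ⟨hv, hk⟩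
      exact ⟨v, hv, Finset.mem_image.2 ⟨k, hk, rfl⟩⟩
  have hdisj : (U : Set V).PairwiseDisjoint (fun v => (seen G col U v).image (fun k => (v, k))) := by
    intro v _ w _ hvw
    rw [Function.onFun, Finset.disjoint_left]
    intro x hx hx'
    rw [Finset.mem_image] at hx hx'
    obtain ⟨k, _, rfl⟩ := hx
    obtain ⟨k', _, he⟩ := hx'
    rw [Prod.mk.injEq] at he
    exact hvw he.1.symm
  have hXc : X.card ≤ K := by
    refine le_trans ?_ hK
    rw [hX, Finset.card_biUnion hdisj]
    apply Finset.sum_le_sum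
    intro v _
    exact Finset.card_image_le
  have hsum : ∑ v ∈ U, dU G U v ≤ ∑ x ∈ X, dU W X x := by
    rw [hX, Finset.sum_biUnion hdisj, ← hX]
    apply Finset.sum_le_sum
    intro v hv
    rw [Finset.sum_image (fun a _ b _ h => by simpa using h)]
    -- dU G U v = sum over colours
    have h1 : dU G U v = ∑ k ∈ seen G col U v, ((U.filter (fun u => G.Adj v u)).filter (fun u => col s(v, u) = k)).card := by
      unfold dU
      apply Finset.card_eq_sum_card_fiberwise
      intro u hu
      rw [Finset.mem_coe, Finset.mem_filter] at hu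
      rw [Finset.mem_coe, mem_seen]
      exact ⟨u, hu.1, hu.2, rfl⟩
    rw [h1]
    apply Finset.sum_le_sum
    intro k hk
    unfold dU
    apply Finset.card_le_card_of_injOn (fun u => (u, k))
    · intro u hu
      rw [Finset.mem_coe, Finset.mem_filter, Finset.mem_filter] at hu
      rw [Finset.mem_coe, Finset.mem_filter, hXm, hW]
      refine ⟨⟨hu.1.1, ?_⟩, rfl, hu.1.2, hu.2⟩
      rw [mem_seen]
      exact ⟨v, hv, hu.1.2.symm, by rw [Sym2.eq_swap]; exact hu.2⟩
    · intro u _ u' _ h
      simpa using h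
  have hXne : X.Nonempty := by
    by_contra hne
    rw [Finset.not_nonempty_iff_eq_empty] at hne
    rw [hne] at hsum
    simp only [Finset.sum_empty] at hsum
    omega
  obtain ⟨U', hU', hne, hmin⟩ := minDegSub W d X.card X rfl hXne (by
    calc 2 * d * X.card ≤ 2 * d * K := Nat.mul_le_mul_left _ hXc
      _ ≤ M := hd
      _ ≤ _ := hM.trans hsum)
  obtain ⟨⟨v0, k0⟩, hv0⟩ := hne
  set U2 := U.filter (fun v => (v, k0) ∈ U') with hU2
  have hv0U : v0 ∈ U := ((hXm _ _).1 (hU' hv0)).1
  obtain ⟨C, h1, h2, h3⟩ := cycLong (cg G col k0) U2 ⟨v0, Finset.mem_filter.2 ⟨hv0U, hv0⟩⟩ d (by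
    intro v hv
    rw [hU2, Finset.mem_filter] at hv
    refine (hmin _ hv.2).trans ?_
    unfold dU
    apply Finset.card_le_card_of_injOn (fun x => x.1)
    · intro x hx
      rw [Finset.mem_coe, Finset.mem_filter, hW] at hx
      obtain ⟨hx1, hx2, hx3, hx4⟩ := hx
      rw [Finset.mem_coe, Finset.mem_filter, hU2, Finset.mem_filter]
      simp only at hx2 hx3 hx4
      have hx5 : (x.1, k0) = x := by rw [hx2]
      refine ⟨⟨((hXm x.1 x.2).1 (hU' hx1)).1, by rw [hx5]; exact hx1⟩, hx3, hx4⟩
    · intro x hx y hy h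
      rw [Finset.mem_coe, Finset.mem_filter, hW] at hx hy
      simp only at h
      exact Prod.ext h (by rw [← hx.2.1, ← hy.2.1]))
  exact ⟨C, k0, h1, fun x hx => (Finset.mem_filter.1 (h2 x hx)).1, h3⟩

lemma greedy (G : SimpleGraph V) (col : Sym2 V → ℕ) (g : ℕ) (hg : 0 < g) : ∀ (n : ℕ) (U : Finset V),
    U.card ≤ n → ∃ B ⊆ U, ∃ k, k * g + B.card ≤ U.card ∧ Cov G col (U \ B) k ∧
      ∀ C i, Cyc (cg G col i) C → (∀ x ∈ C, x ∈ B) → C.length < g := by
  intro n
  induction n with
  | zero =>
    intro U hU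
    have : U = ∅ := Finset.card_eq_zero.1 (by omega)
    subst this
    refine ⟨∅, subset_rfl, 0, by simp, by simpa using Cov.empty G col 0, ?_⟩
    intro C i _ hC
    rcases C with _ | ⟨x, l⟩
    · simpa using hg
    · have := hC x (by simp)
      simp at this
  | succ n ih =>
    intro U hU
    by_cases hex : ∃ C i, Cyc (cg G col i) C ∧ (∀ x ∈ C, x ∈ U) ∧ g ≤ C.length
    · obtain ⟨C, i, h1, h2, h3⟩ := hex
      have hCU : C.toFinset ⊆ U := fun x hx => h2 x (List.mem_toFinset.1 hx)
      have hCc : C.toFinset.card = C.length := List.toFinset_card_of_nodup h1.1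
      have hc : (U \ C.toFinset).card + C.length = U.card := by
        rw [← hCc]; exact Finset.card_sdiff_add_card_eq_card hCU
      obtain ⟨B, hB, k, hk, hcov, hno⟩ := ih (U \ C.toFinset) (by omega)
      refine ⟨B, hB.trans Finset.sdiff_subset, k + 1, ?_, ?_, hno⟩
      · rw [Nat.add_mul, one_mul]; omega
      · have hu := hcov.union (Cov.of_cyc h1) (by
          rw [Finset.disjoint_left]
          intro x hx hx'
          rw [Finset.mem_sdiff, Finset.mem_sdiff] at hx
          exact hx.1.2 hx')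
        have e : (U \ C.toFinset) \ B ∪ C.toFinset = U \ B := by
          ext x
          simp only [Finset.mem_union, Finset.mem_sdiff]
          constructor
          · rintro (⟨⟨a, b⟩, c⟩ | a)
            · exact ⟨a, c⟩
            · refine ⟨hCU a, fun hxB => ?_⟩
              have := hB hxB
              rw [Finset.mem_sdiff] at this
              exact this.2 a
          · rintro ⟨a, b⟩
            by_cases hx : x ∈ C.toFinset
            · exact Or.inr hx
            · exact Or.inl ⟨⟨a, hx⟩, b⟩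
        rw [e] at hu
        exact hu
    · push Not at hex
      refine ⟨U, subset_rfl, 0, by simp, by simpa using Cov.empty G col 0, ?_⟩
      intro C i h1 h2
      exact hex C i h1 h2

end

/-- the absorbing structure -/
theorem absorber (ℓ : ℕ) : ∃ ξ δ : ℝ, 0 < ξ ∧ 0 < δ ∧ ∃ N : ℕ, ∀ (V : Type) [Fintype V] [DecidableEq V]
    (G : SimpleGraph V) (col : Sym2 V → ℕ) (U : Finset V), N ≤ U.card →
    (open Classical in (((U ×ˢ U).filter (fun t => ¬ G.Adj t.1 t.2)).card : ℝ)) ≤ ξ * (U.card : ℝ) ^ 2 →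
    (∀ v ∈ U, (seen G col U v).card ≤ ℓ) →
    ∃ A Q : Finset V, A ⊆ U ∧ Q ⊆ U ∧ Disjoint A Q ∧ δ * (U.card : ℝ) ≤ A.card ∧
      ∀ D ⊆ A, Cov G col (Q ∪ (A \ D)) 1 := by
  classical
  obtain ⟨ξ, τ0, hξ, hτ0, htri⟩ := triCount ℓ
  set τ : ℝ := min τ0 1 with hτdef
  have hτ : 0 < τ := by rw [hτdef]; positivity
  have hτ1 : τ ≤ 1 := min_le_right _ _
  have hτ2 : τ ≤ τ0 := min_le_left _ _
  refine ⟨ξ, τ ^ 2 / 5000, hξ, by positivity, ⌈1000 / τ⌉₊ + 1, ?_⟩
  intro V _ _ G col U hN hmiss hloc
  set n : ℝ := (U.card : ℝ) with hn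
  have hnbig : 1000 / τ < n := by
    have h1 : (1000 / τ : ℝ) ≤ ⌈1000 / τ⌉₊ := Nat.le_ceil _
    have h2 : ((⌈1000 / τ⌉₊ + 1 : ℕ) : ℝ) ≤ n := by rw [hn]; exact_mod_cast hN
    push_cast at h2
    linarith
  have hτn : 1000 < τ * n := by rw [div_lt_iff₀ hτ] at hnbig; linarith
  have hnpos : 0 < n := by
    by_contra h
    push Not at h
    nlinarith
  have hUne : U.Nonempty := by
    rw [← Finset.card_pos]
    have : (0 : ℝ) < U.card := hnpos
    exact_mod_cast this
  have hT := htri V G col U hUne hmiss (by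
    intro v hv
    have := hloc v hv
    unfold seen at this
    exact this)
  -- graph induced on U
  obtain ⟨G', hG'⟩ : ∃ G' : SimpleGraph V, ∀ x y, G'.Adj x y ↔ (G.Adj x y ∧ x ∈ U ∧ y ∈ U) :=
    ⟨{ Adj := fun x y => G.Adj x y ∧ x ∈ U ∧ y ∈ U
       symm := ⟨fun x y h => ⟨h.1.symm, h.2.2, h.2.1⟩⟩
       loopless := ⟨fun x h => G.loopless.irrefl x h.1⟩ }, fun x y => Iff.rfl⟩
  have hTT : τ * n ^ 3 ≤ (TT G' col : ℝ) := by
    have h1 : ((U ×ˢ U ×ˢ U).filter (fun t => Tri G col t.1 t.2.1 t.2.2)).card ≤ TT G' col := by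
      unfold TT
      apply Finset.card_le_card
      rintro ⟨x, y, z⟩ ht
      simp only [Finset.mem_filter, Finset.mem_product, Finset.mem_univ, true_and] at ht ⊢
      obtain ⟨⟨hx, hy, hz⟩, h1, h2, h3, h4, h5⟩ := ht
      exact ⟨(hG' _ _).2 ⟨h1, hx, hy⟩, (hG' _ _).2 ⟨h2, hy, hz⟩, (hG' _ _).2 ⟨h3, hx, hz⟩, h4, h5⟩
    have h2 : (((U ×ˢ U ×ˢ U).filter (fun t => Tri G col t.1 t.2.1 t.2.2)).card : ℝ) ≤ (TT G' col : ℝ) := by
      exact_mod_cast h1
    have h3 : τ * n ^ 3 ≤ τ0 * n ^ 3 := mul_le_mul_of_nonneg_right hτ2 (by positivity)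
    exact h3.trans (hT.trans h2)
  have hEE : (EE G' : ℝ) ≤ n ^ 2 := by
    have h1 : EE G' ≤ (U ×ˢ U).card := by
      unfold EE
      apply Finset.card_le_card
      rintro ⟨x, y⟩ ht
      simp only [Finset.mem_filter, Finset.mem_product, Finset.mem_univ, true_and] at ht ⊢
      exact ((hG' _ _).1 ht).2
    rw [Finset.card_product] at h1
    rw [hn, pow_two]
    exact_mod_cast h1
  set m : ℕ := ⌊τ * n / 4⌋₊ with hm
  have hm1 : (m : ℝ) ≤ τ * n / 4 := Nat.floor_le (by positivity)
  have hm2 : τ * n / 4 - 1 < m := by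
    have := Nat.lt_floor_add_one (τ * n / 4)
    linarith
  have hm3 : τ * n / 5 < m := by linarith
  have hm200 : 200 < (m : ℝ) := by linarith
  obtain ⟨H, hHG, ⟨x0, y0, hxy0⟩, hcod⟩ := triDense G' col m (by
    have h1 : (3 * m * EE G' : ℝ) < TT G' col := by
      have h2 : (3 * m * EE G' : ℝ) ≤ 3 * (τ * n / 4) * n ^ 2 := by
        have h3 : (3 * m : ℝ) ≤ 3 * (τ * n / 4) := by linarith
        exact mul_le_mul h3 hEE (by positivity) (by positivity)
      have h4 : 3 * (τ * n / 4) * n ^ 2 < τ * n ^ 3 := by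
        have : 0 < τ * n ^ 3 := by positivity
        nlinarith
      linarith
    exact_mod_cast h1)
  set i := col s(x0, y0) with hi
  set Hi := cg H col i with hHi
  have hHiU : ∀ x y, Hi.Adj x y → x ∈ U ∧ y ∈ U ∧ G.Adj x y ∧ col s(x, y) = i ∧ H.Adj x y := by
    intro x y h
    have h1 := (hG' x y).1 (hHG h.1)
    exact ⟨h1.2.1, h1.2.2, h1.1, h.2, h.1⟩
  set U' := U.filter (fun v => ∃ u, Hi.Adj v u) with hU'
  have hU'ne : U'.Nonempty := by
    have : Hi.Adj x0 y0 := ⟨hxy0, rfl⟩
    exact ⟨x0, Finset.mem_filter.2 ⟨(hHiU _ _ this).1, y0, this⟩⟩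
  have hcodHi : ∀ x y, Hi.Adj x y → ∀ z ∈ cod H col x y, Hi.Adj x z ∧ Hi.Adj z y := by
    intro x y hxy z hz
    unfold cod at hz
    rw [Finset.mem_filter] at hz
    obtain ⟨-, h1, h2, h3, h4⟩ := hz
    have h5 := (hHiU _ _ hxy).2.2.2.1
    exact ⟨⟨h1, by rw [h3, h5]⟩, ⟨h2.symm, by rw [Sym2.eq_swap, h4, h5]⟩⟩
  have hdeg : ∀ v ∈ U', m ≤ dU Hi U' v := by
    intro v hv
    obtain ⟨hvU, u, hvu⟩ := Finset.mem_filter.1 hv
    refine (hcod v u (hHiU _ _ hvu).2.2.2.2).trans ?_
    unfold dU
    apply Finset.card_le_card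
    intro z hz
    have h1 := hcodHi v u hvu z hz
    rw [Finset.mem_filter, hU', Finset.mem_filter]
    exact ⟨⟨(hHiU _ _ h1.1).2.1, v, h1.1.symm⟩, h1.1⟩
  set w : ℕ := m / 4 with hw
  have hwpos : 0 < w := by
    have : 200 < m := by exact_mod_cast hm200
    omega
  have hw1 : (m : ℝ) / 5 ≤ w := by
    have h1 : m ≤ 5 * w := by
      have : 200 < m := by exact_mod_cast hm200
      omega
    have : (m : ℝ) ≤ 5 * w := by exact_mod_cast h1
    linarith
  set s : ℕ := ⌊τ * m / 200⌋₊ with hs
  have hs1 : (s : ℝ) ≤ τ * m / 200 := Nat.floor_le (by positivity)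
  have hs2 : τ * m / 200 < s + 1 := Nat.lt_floor_add_one _
  obtain ⟨C, hCcyc, hCU, hClo, hCup⟩ := cycWindow Hi U' hU'ne m w s hwpos hdeg (by
    have h1 : ((U'.card / w : ℕ) : ℝ) ≤ 25 / τ := by
      have h2 : ((U'.card / w : ℕ) : ℝ) ≤ (U'.card : ℝ) / w := Nat.cast_div_le
      have h3 : (U'.card : ℝ) ≤ n := by
        rw [hn]; exact_mod_cast Finset.card_le_card (Finset.filter_subset _ _)
      have h4 : (U'.card : ℝ) / w ≤ n / (m / 5) := by
        apply div_le_div₀ hnpos.le h3 (by linarith) hw1
      have h5 : n / (m / 5) ≤ 25 / τ := by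
        rw [div_le_div_iff₀ (by linarith) hτ]
        nlinarith
      exact h2.trans (h4.trans h5)
    have h6 : ((s * (U'.card / w + 1) : ℕ) : ℝ) < m := by
      push_cast
      have h7 : (s : ℝ) * (((U'.card / w : ℕ) : ℝ) + 1) ≤ (τ * m / 200) * (25 / τ + 1) := by
        apply mul_le_mul hs1 (by linarith) (by positivity) (by positivity)
      have h8 : (τ * m / 200) * (25 / τ + 1) = m * (25 + τ) / 200 := by
        field_simp
      rw [h8] at h7
      have h9 : (m : ℝ) * (25 + τ) / 200 < m := by
        rw [div_lt_iff₀ (by norm_num)]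
        nlinarith
      linarith
    exact_mod_cast h6)
  -- apexes
  have hClen2 : 2 ≤ C.length := by omega
  obtain ⟨x, l, hx, hch⟩ : ∃ x l, C = x :: l ∧ List.IsChain Hi.Adj (x :: (l ++ [x])) := by
    rcases hCcyc.2 with h | h
    · omega
    · exact h
  obtain ⟨σ, hσ1, hσ2, hσ3⟩ := succFn C hCcyc.1 x l hx
  have hadj : ∀ p ∈ C, Hi.Adj p (σ p) := by
    have : List.IsChain Hi.Adj (C ++ [x]) := by
      have e : x :: (l ++ [x]) = C ++ [x] := by rw [hx]; rfl
      rw [e] at hch; exact hch
    exact (hσ3 _).1 this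
  let t : {p // p ∈ C.toFinset} → Finset V := fun p => cod H col p.1 (σ p.1) \ C.toFinset
  have hCc : C.toFinset.card = C.length := List.toFinset_card_of_nodup hCcyc.1
  have htc : ∀ p, C.length ≤ (t p).card := by
    intro p
    have h1 := hcod p.1 (σ p.1) (hHiU _ _ (hadj p.1 (List.mem_toFinset.1 p.2))).2.2.2.2
    have h2 := Finset.le_card_sdiff C.toFinset (cod H col p.1 (σ p.1))
    rw [hCc] at h2
    have h3 : C.length ≤ w + 1 := hCup
    have h4 : 200 < m := by exact_mod_cast hm200
    simp only [t]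
    omega
  obtain ⟨f, hfinj, hf⟩ := (Finset.all_card_le_biUnion_card_iff_exists_injective t).1 (by
    intro S
    rcases S.eq_empty_or_nonempty with rfl | ⟨p, hp⟩
    · simp
    have h1 : S.card ≤ C.length := by
      have := Finset.card_le_univ S
      rw [Fintype.card_coe, hCc] at this
      exact this
    exact h1.trans ((htc p).trans (Finset.card_le_card (Finset.subset_biUnion_of_mem t hp))))
  let f' : V → V := fun b => if h : b ∈ C.toFinset then f ⟨b, h⟩ else b
  have hf' : ∀ b (h : b ∈ C.toFinset), f' b = f ⟨b, h⟩ := fun b h => by simp only [f', h, dif_pos]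
  have hf'2 : ∀ b ∈ C, f' b ∈ cod H col b (σ b) ∧ f' b ∉ C := by
    intro b hb
    have h1 := List.mem_toFinset.2 hb
    have h2 := hf ⟨b, h1⟩
    rw [← hf' b h1] at h2
    simp only [t] at h2
    rw [Finset.mem_sdiff, List.mem_toFinset] at h2
    exact h2
  have hf'inj : ∀ b ∈ C, ∀ b' ∈ C, f' b = f' b' → b = b' := by
    intro b hb b' hb' h
    rw [hf' b (List.mem_toFinset.2 hb), hf' b' (List.mem_toFinset.2 hb')] at h
    have := hfinj h
    rw [Subtype.mk.injEq] at this
    exact this
  refine ⟨C.toFinset.image f', C.toFinset, ?_, ?_, ?_, ?_, ?_⟩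
  · intro a ha
    obtain ⟨b, hb, rfl⟩ := Finset.mem_image.1 ha
    have hb' := List.mem_toFinset.1 hb
    exact (hHiU _ _ (hcodHi _ _ (hadj b hb') _ (hf'2 b hb').1).1).2.1
  · intro a ha
    exact (Finset.mem_filter.1 (hCU a (List.mem_toFinset.1 ha))).1
  · rw [Finset.disjoint_left]
    intro a ha ha'
    obtain ⟨b, hb, rfl⟩ := Finset.mem_image.1 ha
    exact (hf'2 b (List.mem_toFinset.1 hb)).2 (List.mem_toFinset.1 ha')
  · rw [Finset.card_image_of_injOn (by
      intro b hb b' hb' h
      exact hf'inj b (List.mem_toFinset.1 hb) b' (List.mem_toFinset.1 hb') h), hCc]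
    have h1 : ((s : ℝ) + 2) ≤ C.length := by exact_mod_cast hClo
    have h2 : τ ^ 2 / 5000 * n ≤ τ * m / 200 := by
      have : τ * (τ * n / 5) ≤ τ * m := mul_le_mul_of_nonneg_left hm3.le hτ.le
      nlinarith
    linarith
  · intro D hD
    have hcyc : Cyc (cg G col i) (weave (fun b => f' b ∉ D) f' C) := by
      refine ⟨weave_nodup _ _ _ hCcyc.1 (fun b hb b' hb' _ _ h => hf'inj b hb b' hb' h)
        (fun b hb _ => (hf'2 b hb).2), Or.inr ?_⟩
      have hw : List.IsChain (cg G col i).Adj (weave (fun b => f' b ∉ D) f' C ++ [x]) := by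
        apply weave_chain
        rw [hσ3]
        intro p hp
        have h1 := hadj p hp
        have h2 := hcodHi _ _ h1 _ (hf'2 p hp).1
        have conv : ∀ a b, Hi.Adj a b → (cg G col i).Adj a b := fun a b h =>
          ⟨(hHiU _ _ h).2.2.1, h.2⟩
        exact ⟨fun _ => conv _ _ h1, fun _ => ⟨conv _ _ h2.1, conv _ _ h2.2⟩⟩
      rw [hx, weave_cons, List.cons_append] at hw
      rw [hx, weave_cons]
      exact ⟨x, _, rfl, hw⟩
    have hcov := Cov.of_cyc hcyc
    have e : (weave (fun b => f' b ∉ D) f' C).toFinset = C.toFinset ∪ (C.toFinset.image f' \ D) := by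
      ext v
      rw [List.mem_toFinset, weave_mem, Finset.mem_union, Finset.mem_sdiff, List.mem_toFinset, Finset.mem_image]
      constructor
      · rintro (h | ⟨b, hb, hbD, rfl⟩)
        · exact Or.inl h
        · exact Or.inr ⟨⟨b, List.mem_toFinset.2 hb, rfl⟩, hbD⟩
      · rintro (h | ⟨⟨b, hb, rfl⟩, hbD⟩)
        · exact Or.inl h
        · exact Or.inr ⟨b, List.mem_toFinset.1 hb, hbD, rfl⟩
    rw [e] at hcov
    exact hcov

end P5

section P6

lemma indepBound {V : Type} [DecidableEq V] (A S : Finset V) (N : V → Finset V) (hA : A.Nonempty)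
    (hN : ∀ b ∈ S, N b ⊆ A ∧ A.card ≤ 4 * (N b).card)
    (hS : ∀ b ∈ S, ∀ b' ∈ S, b ≠ b' → 28 * (N b ∩ N b').card < A.card) : S.card ≤ 7 := by
  classical
  by_contra hcon
  push Not at hcon
  obtain ⟨T, hTS, hT⟩ := Finset.exists_subset_card_eq (show 8 ≤ S.card by omega)
  have hApos : 0 < A.card := hA.card_pos
  let x : V → ℕ := fun a => ∑ b ∈ T, (if a ∈ N b then 1 else 0)
  have hx1 : ∑ a ∈ A, x a = ∑ b ∈ T, (N b).card := by
    simp only [x]
    rw [Finset.sum_comm]
    apply Finset.sum_congr rfl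
    intro b hb
    rw [← Finset.card_filter]
    congr 1
    ext a
    rw [Finset.mem_filter]
    exact ⟨fun h => h.2, fun h => ⟨(hN b (hTS hb)).1 h, h⟩⟩
  have hx2 : ∑ a ∈ A, x a * x a = ∑ b ∈ T, ∑ b' ∈ T, (N b ∩ N b').card := by
    simp only [x, Finset.sum_mul_sum]
    rw [Finset.sum_comm]
    apply Finset.sum_congr rfl
    intro b hb
    rw [Finset.sum_comm]
    apply Finset.sum_congr rfl
    intro b' hb'
    have : ∀ a, (if a ∈ N b then 1 else 0) * (if a ∈ N b' then 1 else 0) =
        (if a ∈ N b ∩ N b' then 1 else 0) := by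
      intro a
      by_cases h1 : a ∈ N b <;> by_cases h2 : a ∈ N b' <;> simp [h1, h2]
    simp only [this]
    rw [← Finset.card_filter]
    congr 1
    ext a
    rw [Finset.mem_filter]
    exact ⟨fun h => h.2, fun h => ⟨(hN b (hTS hb)).1 (Finset.mem_inter.1 h).1, h⟩⟩
  have hx3 : 3 * ∑ a ∈ A, x a ≤ ∑ a ∈ A, x a * x a + 2 * A.card := by
    have : 2 * A.card = ∑ a ∈ A, 2 := by rw [Finset.sum_const, smul_eq_mul, mul_comm]
    rw [this, ← Finset.sum_add_distrib, Finset.mul_sum]
    apply Finset.sum_le_sum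
    intro a _
    rcases Nat.lt_or_ge (x a) 2 with h | h
    · interval_cases (x a) <;> norm_num
    · nlinarith
  have hx4 : ∀ b ∈ T, 28 * ∑ b' ∈ T, (N b ∩ N b').card < 28 * (N b).card + 7 * A.card := by
    intro b hb
    rw [← Finset.add_sum_erase T _ hb, Finset.inter_self, mul_add, Finset.mul_sum]
    have hc : (T.erase b).card = 7 := by rw [Finset.card_erase_of_mem hb, hT]
    have hne : (T.erase b).Nonempty := by rw [← Finset.card_pos, hc]; norm_num
    have : ∑ b' ∈ T.erase b, 28 * (N b ∩ N b').card < ∑ b' ∈ T.erase b, A.card := by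
      apply Finset.sum_lt_sum_of_nonempty hne
      intro b' hb'
      rw [Finset.mem_erase] at hb'
      exact hS b (hTS hb) b' (hTS hb'.2) (Ne.symm hb'.1)
    rw [Finset.sum_const, hc, smul_eq_mul] at this
    omega
  have hTne : T.Nonempty := by rw [← Finset.card_pos, hT]; norm_num
  have hx5 : 28 * ∑ a ∈ A, x a * x a < 28 * (∑ a ∈ A, x a) + 56 * A.card := by
    rw [hx2, hx1, Finset.mul_sum]
    calc ∑ b ∈ T, 28 * ∑ b' ∈ T, (N b ∩ N b').card < ∑ b ∈ T, (28 * (N b).card + 7 * A.card) :=
          Finset.sum_lt_sum_of_nonempty hTne hx4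
      _ = _ := by
          rw [Finset.sum_add_distrib, Finset.sum_const, hT, smul_eq_mul, Finset.mul_sum]
          ring
  have hx6 : 8 * A.card ≤ 4 * ∑ a ∈ A, x a := by
    rw [hx1, Finset.mul_sum]
    calc 8 * A.card = ∑ b ∈ T, A.card := by rw [Finset.sum_const, hT, smul_eq_mul]
      _ ≤ _ := Finset.sum_le_sum (fun b hb => (hN b (hTS hb)).2)
  omega

theorem egp2 : ∃ η : ℝ, 0 < η ∧ ∃ F : ℕ, ∀ (V : Type) [Fintype V] [DecidableEq V]
    (G : SimpleGraph V) (col : Sym2 V → ℕ) (U : Finset V), (∀ e, col e < 2) →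
    (∀ u ∈ U, (open Classical in (((U.filter (fun v => v ≠ u ∧ ¬ G.Adj u v)).card : ℝ)) ≤ η * U.card)) →
    Cov G col U F := by
  classical
  obtain ⟨ξ, δ, hξ, hδ, N, habs⟩ := absorber 2
  set ε : ℝ := min δ 1 / 120 with hε
  have hε0 : 0 < ε := by rw [hε]; positivity
  have hεδ : 120 * ε ≤ δ := by rw [hε]; have := min_le_left δ 1; linarith
  have hε1 : 120 * ε ≤ 1 := by rw [hε]; have := min_le_right δ 1; linarith
  set η : ℝ := min (ξ / 2) (ε / 4) with hη
  have hη0 : 0 < η := by rw [hη]; positivity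
  have hη1 : η ≤ ξ / 2 := min_le_left _ _
  have hη2 : η ≤ ε / 4 := min_le_right _ _
  set N0 : ℕ := max N (max ⌈2 / ξ⌉₊ ⌈16 / ε⌉₊) with hN0
  refine ⟨η, hη0, max N0 (⌈16 / ε⌉₊ + 15), ?_⟩
  intro V _ _ G col U hcol hmiss
  rcases Nat.lt_or_ge U.card N0 with hsmall | hbig
  · exact (Cov.card G col U).mono (by omega)
  refine Cov.mono ?_ (le_max_right _ _)
  set n : ℝ := (U.card : ℝ) with hn
  have hnξ : 2 / ξ ≤ n := by
    have h1 : (2 / ξ : ℝ) ≤ ⌈2 / ξ⌉₊ := Nat.le_ceil _
    have h2 : ((⌈2 / ξ⌉₊ : ℕ) : ℝ) ≤ n := by rw [hn]; exact_mod_cast (by omega : ⌈2 / ξ⌉₊ ≤ U.card)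
    linarith
  have hnε : 16 / ε ≤ n := by
    have h1 : (16 / ε : ℝ) ≤ ⌈16 / ε⌉₊ := Nat.le_ceil _
    have h2 : ((⌈16 / ε⌉₊ : ℕ) : ℝ) ≤ n := by rw [hn]; exact_mod_cast (by omega : ⌈16 / ε⌉₊ ≤ U.card)
    linarith
  have hnξ' : 2 ≤ ξ * n := by rw [div_le_iff₀ hξ] at hnξ; linarith
  have hnε' : 16 ≤ ε * n := by rw [div_le_iff₀ hε0] at hnε; linarith
  have hnpos : 0 < n := by
    by_contra h
    push Not at h
    nlinarith
  -- absorber
  obtain ⟨A, Q, hAU, hQU, hAQ, hAc, hab⟩ := habs V G col U (by omega) (by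
    have h1 : ((U ×ˢ U).filter (fun t => ¬ G.Adj t.1 t.2)).card ≤
        ∑ u ∈ U, ((U.filter (fun v => v ≠ u ∧ ¬ G.Adj u v)).card + 1) := by
      have h2 : ((U ×ˢ U).filter (fun t => ¬ G.Adj t.1 t.2)).card =
          ∑ u ∈ U, (U.filter (fun v => ¬ G.Adj u v)).card := by
        rw [Finset.card_filter, Finset.sum_product]
        apply Finset.sum_congr rfl
        intro u _
        rw [Finset.card_filter]
      rw [h2]
      apply Finset.sum_le_sum
      intro u hu
      have h3 : U.filter (fun v => ¬ G.Adj u v) ⊆ (U.filter (fun v => v ≠ u ∧ ¬ G.Adj u v)) ∪ {u} := by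
        intro v hv
        rw [Finset.mem_filter] at hv
        rw [Finset.mem_union, Finset.mem_filter, Finset.mem_singleton]
        by_cases h : v = u
        · exact Or.inr h
        · exact Or.inl ⟨hv.1, h, hv.2⟩
      refine (Finset.card_le_card h3).trans ((Finset.card_union_le _ _).trans ?_)
      simp
    have h4 : (((U ×ˢ U).filter (fun t => ¬ G.Adj t.1 t.2)).card : ℝ) ≤
        ∑ u ∈ U, (((U.filter (fun v => v ≠ u ∧ ¬ G.Adj u v)).card : ℝ) + 1) := by
      exact_mod_cast h1
    have h5 : ∑ u ∈ U, (((U.filter (fun v => v ≠ u ∧ ¬ G.Adj u v)).card : ℝ) + 1) ≤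
        ∑ u ∈ U, (η * n + 1) := by
      apply Finset.sum_le_sum
      intro u hu
      have := hmiss u hu
      linarith
    rw [Finset.sum_const, nsmul_eq_mul] at h5
    have h6 : n * (η * n + 1) ≤ ξ * n ^ 2 := by
      have h7 : η * n ≤ ξ / 2 * n := mul_le_mul_of_nonneg_right hη1 hnpos.le
      have h8 : n * (η * n + 1) ≤ n * (ξ / 2 * n + ξ * n / 2) := by
        apply mul_le_mul_of_nonneg_left _ hnpos.le
        linarith
      nlinarith
    exact h4.trans (h5.trans h6)) (by
    intro v hv
    have : seen G col U v ⊆ Finset.range 2 := by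
      intro k hk
      rw [mem_seen] at hk
      obtain ⟨u, _, _, rfl⟩ := hk
      exact Finset.mem_range.2 (hcol _)
    simpa using Finset.card_le_card this)
  -- greedy
  set g : ℕ := ⌊ε * n / 8⌋₊ with hg
  have hg1 : (g : ℝ) ≤ ε * n / 8 := Nat.floor_le (by positivity)
  have hg2 : ε * n / 16 ≤ g := by
    have := Nat.lt_floor_add_one (ε * n / 8)
    rw [← hg] at this
    linarith
  have hgpos : 0 < g := by
    have : (0 : ℝ) < g := by linarith
    exact_mod_cast this
  obtain ⟨B, hBU, k, hk, hcovk, hno⟩ := greedy G col g hgpos (U \ (A ∪ Q)).card (U \ (A ∪ Q)) le_rfl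
  have hBU' : B ⊆ U := hBU.trans Finset.sdiff_subset
  have hU1 : (U \ (A ∪ Q)).card ≤ U.card := Finset.card_le_card Finset.sdiff_subset
  have hkb : k ≤ ⌈16 / ε⌉₊ := by
    have h1 : (k * g : ℕ) ≤ U.card := by omega
    have h2 : (k : ℝ) * g ≤ n := by rw [hn]; exact_mod_cast h1
    have h3 : (k : ℝ) * (ε * n / 16) ≤ n := (mul_le_mul_of_nonneg_left hg2 (by positivity)).trans h2
    have h4 : (k : ℝ) ≤ 16 / ε := by
      rw [le_div_iff₀ hε0]
      by_contra h
      push Not at h
      nlinarith
    have h5 : (k : ℝ) ≤ ⌈16 / ε⌉₊ := h4.trans (Nat.le_ceil _)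
    exact_mod_cast h5
  -- degrees
  have hdegB : ∀ (W : Finset V), W ⊆ U → ∀ b ∈ U, (W.card : ℝ) ≤ (W.filter (fun v => G.Adj b v)).card + 1 + η * n := by
    intro W hW b hb
    have h1 : W ⊆ (W.filter (fun v => G.Adj b v)) ∪ {b} ∪ (U.filter (fun v => v ≠ b ∧ ¬ G.Adj b v)) := by
      intro v hv
      simp only [Finset.mem_union, Finset.mem_filter, Finset.mem_singleton]
      by_cases h : v = b
      · exact Or.inl (Or.inr h)
      · by_cases h' : G.Adj b v
        · exact Or.inl (Or.inl ⟨hv, h'⟩)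
        · exact Or.inr ⟨hW hv, h, h'⟩
    have h2 := (Finset.card_le_card h1).trans (Finset.card_union_le _ _)
    have h3 := Finset.card_union_le (W.filter (fun v => G.Adj b v)) {b}
    rw [Finset.card_singleton] at h3
    have h4 : W.card ≤ (W.filter (fun v => G.Adj b v)).card + 1 + (U.filter (fun v => v ≠ b ∧ ¬ G.Adj b v)).card := by
      omega
    have h5 : (W.card : ℝ) ≤ (W.filter (fun v => G.Adj b v)).card + 1 + (U.filter (fun v => v ≠ b ∧ ¬ G.Adj b v)).card := by
      exact_mod_cast h4
    have := hmiss b hb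
    linarith
  have hBsmall : (B.card : ℝ) < ε * n := by
    by_contra hcon
    push Not at hcon
    set d := B.card / 8 with hd
    have hd1 : 8 * d ≤ B.card := Nat.mul_div_le _ _
    have hd2 : B.card < 8 * d + 8 := by omega
    have hB16 : (16 : ℝ) ≤ B.card := by linarith
    have hB16' : 16 ≤ B.card := by exact_mod_cast hB16
    have hdpos : 0 < d := by omega
    obtain ⟨C, i, hC1, hC2, hC3⟩ := longMono G col B (2 * B.card) (2 * d * (2 * B.card)) d (by
        calc ∑ v ∈ B, (seen G col B v).card ≤ ∑ v ∈ B, 2 := by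
              apply Finset.sum_le_sum
              intro v _
              have : seen G col B v ⊆ Finset.range 2 := by
                intro k hk
                rw [mem_seen] at hk
                obtain ⟨u, _, _, rfl⟩ := hk
                exact Finset.mem_range.2 (hcol _)
              simpa using Finset.card_le_card this
          _ = _ := by rw [Finset.sum_const, smul_eq_mul, mul_comm]) (by
        calc 2 * d * (2 * B.card) = ∑ v ∈ B, 4 * d := by rw [Finset.sum_const, smul_eq_mul]; ring
          _ ≤ _ := by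
            apply Finset.sum_le_sum
            intro v hv
            unfold dU
            have h1 := hdegB B hBU' v (hBU' hv)
            have h2 : η * n ≤ ε / 4 * n := mul_le_mul_of_nonneg_right hη2 hnpos.le
            have h3 : ((4 * d : ℕ) : ℝ) ≤ B.card / 2 := by
              have : ((8 * d : ℕ) : ℝ) ≤ B.card := by exact_mod_cast hd1
              push_cast at this ⊢
              linarith
            have h4 : ((4 * d : ℕ) : ℝ) ≤ (B.filter (fun u => G.Adj v u)).card := by
              linarith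
            exact_mod_cast h4) (by positivity) le_rfl
    have h1 := hno C i hC1 hC2
    have h2 : (g : ℝ) ≤ B.card / 8 := by linarith
    have h3 : (B.card : ℝ) < 8 * d + 8 := by exact_mod_cast hd2
    have h4 : (g : ℝ) < d + 1 := by linarith
    have h5 : g < d + 1 := by exact_mod_cast h4
    omega
  -- majority colours
  have hAn : (A.card : ℝ) ≤ n := by rw [hn]; exact_mod_cast Finset.card_le_card hAU
  have hApos : 0 < (A.card : ℝ) := lt_of_lt_of_le (by positivity) hAc
  have hAne : A.Nonempty := by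
    rw [← Finset.card_pos]; exact_mod_cast hApos
  have hmaj : ∀ b : V, ∃ i : ℕ, i < 2 ∧ (b ∈ U → b ∉ A →
      A.card ≤ 4 * (A.filter (fun a => G.Adj b a ∧ col s(b, a) = i)).card) := by
    intro b
    by_cases hb : b ∈ U
    · have h1 := hdegB A hAU b hb
      have h2 : (A.filter (fun a => G.Adj b a)).card =
          (A.filter (fun a => G.Adj b a ∧ col s(b, a) = 0)).card +
          (A.filter (fun a => G.Adj b a ∧ col s(b, a) = 1)).card := by
        rw [← Finset.card_union_of_disjoint]
        · congr 1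
          ext a
          simp only [Finset.mem_union, Finset.mem_filter]
          have := hcol s(b, a)
          constructor
          · rintro ⟨h, h'⟩
            rcases (by omega : col s(b, a) = 0 ∨ col s(b, a) = 1) with h3 | h3
            · exact Or.inl ⟨h, h', h3⟩
            · exact Or.inr ⟨h, h', h3⟩
          · rintro (⟨h, h', _⟩ | ⟨h, h', _⟩) <;> exact ⟨h, h'⟩
        · rw [Finset.disjoint_left]
          intro a ha ha'
          rw [Finset.mem_filter] at ha ha'
          omega
      have h3 : (A.card : ℝ) ≤ 2 * (A.filter (fun a => G.Adj b a)).card := by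
        have h4 : η * n ≤ ε / 4 * n := mul_le_mul_of_nonneg_right hη2 hnpos.le
        have h5 : 120 * ε * n ≤ δ * n := mul_le_mul_of_nonneg_right hεδ hnpos.le
        linarith
      have h4 : A.card ≤ 2 * (A.filter (fun a => G.Adj b a)).card := by exact_mod_cast h3
      rcases Nat.le_total (A.filter (fun a => G.Adj b a ∧ col s(b, a) = 1)).card
        (A.filter (fun a => G.Adj b a ∧ col s(b, a) = 0)).card with h5 | h5
      · exact ⟨0, by norm_num, fun _ _ => by omega⟩
      · exact ⟨1, by norm_num, fun _ _ => by omega⟩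
    · exact ⟨0, by norm_num, fun h => absurd h hb⟩
  choose i hi2 hi using hmaj
  let Nb : V → Finset V := fun b => A.filter (fun a => G.Adj b a ∧ col s(b, a) = i b)
  have hBA : ∀ b ∈ B, b ∈ U ∧ b ∉ A ∧ b ∉ Q := by
    intro b hb
    have := hBU hb
    rw [Finset.mem_sdiff, Finset.mem_union] at this
    exact ⟨this.1, fun h => this.2 (Or.inl h), fun h => this.2 (Or.inr h)⟩
  have hNb : ∀ b ∈ B, Nb b ⊆ A ∧ A.card ≤ 4 * (Nb b).card := by
    intro b hb
    exact ⟨Finset.filter_subset _ _, hi b (hBA b hb).1 (hBA b hb).2.1⟩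
  obtain ⟨G0, hG0⟩ : ∃ G0 : SimpleGraph V, ∀ x y, G0.Adj x y ↔
      (x ≠ y ∧ i x = i y ∧ A.card ≤ 28 * (Nb x ∩ Nb y).card) :=
    ⟨{ Adj := fun x y => x ≠ y ∧ i x = i y ∧ A.card ≤ 28 * (Nb x ∩ Nb y).card
       symm := ⟨fun x y h => ⟨h.1.symm, h.2.1.symm, by rw [Finset.inter_comm]; exact h.2.2⟩⟩
       loopless := ⟨fun x h => h.1 rfl⟩ }, fun x y => Iff.rfl⟩
  have hcov0 : Cov G0 (fun _ => 0) B 14 := by
    apply posa
    intro I hI hind
    have h1 : ∀ c : ℕ, (I.filter (fun b => i b = c)).card ≤ 7 := by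
      intro c
      apply indepBound A _ Nb hAne
      · intro b hb
        exact hNb b (hI (Finset.mem_filter.1 hb).1)
      · intro b hb b' hb' hne
        rw [Finset.mem_filter] at hb hb'
        have := hind b hb.1 b' hb'.1
        rw [hG0] at this
        by_contra hcon
        push Not at hcon
        exact this ⟨hne, by rw [hb.2, hb'.2], hcon⟩
    have h2 : I ⊆ (I.filter (fun b => i b = 0)) ∪ (I.filter (fun b => i b = 1)) := by
      intro b hb
      rw [Finset.mem_union, Finset.mem_filter, Finset.mem_filter]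
      have := hi2 b
      rcases (by omega : i b = 0 ∨ i b = 1) with h3 | h3
      · exact Or.inl ⟨hb, h3⟩
      · exact Or.inr ⟨hb, h3⟩
    have h3 := (Finset.card_le_card h2).trans (Finset.card_union_le _ _)
    have h4 := h1 0
    have h5 := h1 1
    omega
  have hdisAB : Disjoint A B := by
    rw [Finset.disjoint_left]
    intro a ha hb
    exact (hBA a hb).2.1 ha
  obtain ⟨D, hDA, hDc, hcovD⟩ := lift G G0 col (fun _ => 0) A B hdisAB 14 hcov0
    (fun _ p q => Nb p ∩ Nb q) (fun _ p => i p) (fun _ => A.card / 28) (by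
      intro j p q hp hq hadj
      have h1 := (hG0 p q).1 hadj.1
      refine ⟨Finset.inter_subset_left.trans (hNb p hp).1, h1.2.1, ?_, ?_⟩
      · intro a ha
        rw [Finset.mem_inter, Finset.mem_filter, Finset.mem_filter] at ha
        refine ⟨ha.1.2, ha.2.2.1.symm, ?_⟩
        rw [Sym2.eq_swap, ha.2.2.2]
        exact h1.2.1.symm
      · simp only [min_self]
        omega) (by
      intro M
      by_cases hM : A.card / 28 ≤ M
      · have h1 : (B.filter (fun b => A.card / 28 ≤ M)).card ≤ B.card :=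
          Finset.card_le_card (Finset.filter_subset _ _)
        have h2 : 56 * (B.card : ℝ) ≤ A.card := by
          have h3 : 120 * ε * n ≤ δ * n := mul_le_mul_of_nonneg_right hεδ hnpos.le
          have : 0 < ε * n := by positivity
          linarith
        have h3 : 56 * B.card ≤ A.card := by exact_mod_cast h2
        omega
      · simp [hM])
  have hfin := (hcovk.union hcovD (by
      rw [Finset.disjoint_left]
      intro x hx hx'
      rw [Finset.mem_sdiff, Finset.mem_sdiff, Finset.mem_union] at hx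
      rw [Finset.mem_union] at hx'
      rcases hx' with h | h
      · exact hx.2 h
      · exact hx.1.2 (Or.inl (hDA h)))).union (hab D hDA) (by
      rw [Finset.disjoint_left]
      intro x hx hx'
      rw [Finset.mem_union, Finset.mem_sdiff, Finset.mem_sdiff, Finset.mem_union, Finset.mem_union] at hx
      rw [Finset.mem_union, Finset.mem_sdiff] at hx'
      rcases hx with h | h | h
      · rcases hx' with h' | h'
        · exact h.1.2 (Or.inr h')
        · exact h.1.2 (Or.inl h'.1)
      · rcases hx' with h' | h'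
        · exact (hBA x h).2.2 h'
        · exact (hBA x h).2.1 h'.1
      · rcases hx' with h' | h'
        · exact Finset.disjoint_left.1 hAQ (hDA h) h'
        · exact h'.2 h)
  have e : ((U \ (A ∪ Q)) \ B ∪ (B ∪ D)) ∪ (Q ∪ A \ D) = U := by
    ext x
    simp only [Finset.mem_union, Finset.mem_sdiff]
    constructor
    · rintro ((h | h | h) | h | h)
      · exact h.1.1
      · exact hBU' h
      · exact hAU (hDA h)
      · exact hQU h
      · exact hAU h.1
    · intro hx
      by_cases h1 : x ∈ A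
      · by_cases h2 : x ∈ D
        · exact Or.inl (Or.inr (Or.inr h2))
        · exact Or.inr (Or.inr ⟨h1, h2⟩)
      · by_cases h2 : x ∈ Q
        · exact Or.inr (Or.inl h2)
        · by_cases h3 : x ∈ B
          · exact Or.inl (Or.inr (Or.inl h3))
          · exact Or.inl (Or.inl ⟨⟨hx, fun h => h.elim h1 h2⟩, h3⟩)
  rw [e] at hfin
  exact hfin.mono (by omega)

end P6

section P7

lemma sumInvFiber {α : Type} [DecidableEq α] (S : Finset α) (f : α → ℕ) :
    ∑ a ∈ S, (1 : ℝ) / ((S.filter (fun x => f x = f a)).card : ℝ) = ((S.image f).card : ℝ) := by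
  rw [← Finset.sum_fiberwise_of_maps_to (s := S) (t := S.image f) (g := f)
    (fun a ha => Finset.mem_image_of_mem f ha)]
  rw [Finset.card_eq_sum_ones]
  push_cast
  apply Finset.sum_congr rfl
  intro k hk
  obtain ⟨a0, ha0, rfl⟩ := Finset.mem_image.1 hk
  have h1 : ∀ a ∈ S.filter (fun a => f a = f a0), (1 : ℝ) / ((S.filter (fun x => f x = f a)).card : ℝ) =
      1 / ((S.filter (fun x => f x = f a0)).card : ℝ) := by
    intro a ha
    rw [(Finset.mem_filter.1 ha).2]
  rw [Finset.sum_congr rfl h1, Finset.sum_const, nsmul_eq_mul, mul_one_div, div_self]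
  have : 0 < (S.filter (fun x => f x = f a0)).card :=
    Finset.card_pos.2 ⟨a0, Finset.mem_filter.2 ⟨ha0, rfl⟩⟩
  exact_mod_cast this.ne'

lemma Cov.fibers {V α : Type} [DecidableEq V] [DecidableEq α] (G : SimpleGraph V) (col : Sym2 V → ℕ)
    (B : Finset V) (f : V → α) (F : ℕ)
    (h : ∀ s, Cov G col (B.filter (fun b => f b = s)) F) : Cov G col B ((B.image f).card * F) := by
  have key : ∀ T : Finset α, Cov G col (B.filter (fun b => f b ∈ T)) (T.card * F) := by
    intro T
    induction T using Finset.induction_on with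
    | empty =>
      have : B.filter (fun b => f b ∈ (∅ : Finset α)) = ∅ := by simp
      rw [this]
      exact Cov.empty _ _ _
    | insert s T hs ih =>
      have e : B.filter (fun b => f b ∈ insert s T) =
          B.filter (fun b => f b ∈ T) ∪ B.filter (fun b => f b = s) := by
        ext b
        simp only [Finset.mem_filter, Finset.mem_union, Finset.mem_insert]
        tauto
      rw [e, Finset.card_insert_of_notMem hs, add_mul, one_mul]
      apply ih.union (h s)
      rw [Finset.disjoint_left]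
      intro b hb hb'
      rw [Finset.mem_filter] at hb hb'
      rw [hb'.2] at hb
      exact hs hb.2
  have e : B.filter (fun b => f b ∈ B.image f) = B := by
    rw [Finset.filter_eq_self]
    intro b hb
    exact Finset.mem_image_of_mem f hb
  have := key (B.image f)
  rw [e] at this
  exact this

/-- number of vertices agreeing with a on both b and b' -/
def ww {V : Type} (col : Sym2 V → ℕ) (A : Finset V) (b b' a : V) : ℕ :=
  (A.filter (fun x => col s(x, b) = col s(a, b) ∧ col s(x, b') = col s(a, b'))).card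

lemma ww_comm {V : Type} (col : Sym2 V → ℕ) (A : Finset V) (b b' a : V) :
    ww col A b b' a = ww col A b' b a := by
  unfold ww
  congr 1
  apply Finset.filter_congr
  intro x _
  exact and_comm

lemma ww_pos {V : Type} (col : Sym2 V → ℕ) (A : Finset V) (b b' a : V) (ha : a ∈ A) :
    0 < ww col A b b' a := by
  unfold ww
  exact Finset.card_pos.2 ⟨a, Finset.mem_filter.2 ⟨ha, rfl, rfl⟩⟩

lemma avg1 {V : Type} [DecidableEq V] (col : Sym2 V → ℕ) (A : Finset V) (b b' : V) :
    ∑ a ∈ A, (if col s(a, b) = col s(a, b') then (1 : ℝ) / (ww col A b b' a : ℝ) else 0) ≤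
      ((A.image (fun a => col s(a, b))).card : ℝ) := by
  rw [← Finset.sum_filter]
  set S := A.filter (fun a => col s(a, b) = col s(a, b')) with hS
  have h1 : ∀ a ∈ S, (1 : ℝ) / (ww col A b b' a : ℝ) =
      (1 : ℝ) / ((S.filter (fun x => col s(x, b) = col s(a, b))).card : ℝ) := by
    intro a ha
    rw [hS, Finset.mem_filter] at ha
    unfold ww
    congr 3
    ext x
    rw [hS, Finset.mem_filter, Finset.mem_filter, Finset.mem_filter]
    constructor
    · rintro ⟨hx, h2, h3⟩
      exact ⟨⟨hx, by rw [h2, h3, ha.2]⟩, h2⟩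
    · rintro ⟨⟨hx, h2⟩, h3⟩
      exact ⟨hx, h3, by rw [← h2, h3, ha.2]⟩
  rw [Finset.sum_congr rfl h1, sumInvFiber S (fun x => col s(x, b))]
  have : (S.image (fun x => col s(x, b))).card ≤ (A.image (fun a => col s(a, b))).card :=
    Finset.card_le_card (Finset.image_subset_image (Finset.filter_subset _ _))
  exact_mod_cast this

lemma avg2 {V : Type} [DecidableEq V] (col : Sym2 V → ℕ) (A B : Finset V) (hA : A.Nonempty) (ρ : ℝ)
    (hρ : 0 ≤ ρ)
    (hsum : ∑ b ∈ B, ((A.image (fun a => col s(a, b))).card : ℝ) ≤ ρ * A.card) :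
    ∃ a₁ ∈ A, ∃ a₂ ∈ A, ∑ b ∈ B, ∑ b' ∈ B,
      (if col s(a₁, b) = col s(a₁, b') ∧ col s(a₂, b) = col s(a₂, b') then
        (1 : ℝ) / ((max (ww col A b b' a₁) (ww col A b b' a₂) : ℕ) : ℝ) ^ 2 else 0) ≤ ρ ^ 2 := by
  set Z : V → V → ℝ := fun a₁ a₂ => ∑ b ∈ B, ∑ b' ∈ B,
      (if col s(a₁, b) = col s(a₁, b') ∧ col s(a₂, b) = col s(a₂, b') then
        (1 : ℝ) / ((max (ww col A b b' a₁) (ww col A b b' a₂) : ℕ) : ℝ) ^ 2 else 0) with hZ
  set p : V → ℝ := fun b => ((A.image (fun a => col s(a, b))).card : ℝ) with hp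
  set S : V → V → V → ℝ := fun b b' a =>
    (if col s(a, b) = col s(a, b') then (1 : ℝ) / (ww col A b b' a : ℝ) else 0) with hS
  have hS0 : ∀ b b' a, 0 ≤ S b b' a := by
    intro b b' a
    simp only [hS]
    split_ifs <;> positivity
  have h1 : ∀ a₁ ∈ A, ∀ a₂ ∈ A, ∀ b b', (if col s(a₁, b) = col s(a₁, b') ∧ col s(a₂, b) = col s(a₂, b') then
        (1 : ℝ) / ((max (ww col A b b' a₁) (ww col A b b' a₂) : ℕ) : ℝ) ^ 2 else 0) ≤ S b b' a₁ * S b b' a₂ := by
    intro a₁ ha₁ a₂ ha₂ b b'
    split_ifs with h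
    · simp only [hS, h.1, h.2, if_true]
      have w1 : (0 : ℝ) < ww col A b b' a₁ := by exact_mod_cast ww_pos col A b b' a₁ ha₁
      have w2 : (0 : ℝ) < ww col A b b' a₂ := by exact_mod_cast ww_pos col A b b' a₂ ha₂
      rw [div_mul_div_comm, one_mul]
      apply one_div_le_one_div_of_le (by positivity)
      push_cast
      rw [pow_two]
      apply mul_le_mul (le_max_left _ _) (le_max_right _ _) w2.le
      exact le_trans w1.le (le_max_left _ _)
    · exact mul_nonneg (hS0 _ _ _) (hS0 _ _ _)
  have h2 : ∑ a₁ ∈ A, ∑ a₂ ∈ A, Z a₁ a₂ ≤ ∑ b ∈ B, ∑ b' ∈ B, p b * p b' := by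
    calc ∑ a₁ ∈ A, ∑ a₂ ∈ A, Z a₁ a₂ ≤ ∑ a₁ ∈ A, ∑ a₂ ∈ A, ∑ b ∈ B, ∑ b' ∈ B, S b b' a₁ * S b b' a₂ := by
          apply Finset.sum_le_sum
          intro a₁ ha₁
          apply Finset.sum_le_sum
          intro a₂ ha₂
          simp only [hZ]
          apply Finset.sum_le_sum
          intro b _
          apply Finset.sum_le_sum
          intro b' _
          exact h1 a₁ ha₁ a₂ ha₂ b b'
      _ = ∑ b ∈ B, ∑ b' ∈ B, (∑ a₁ ∈ A, S b b' a₁) * (∑ a₂ ∈ A, S b b' a₂) := by
          have e1 : ∀ a₁ ∈ A, ∑ a₂ ∈ A, ∑ b ∈ B, ∑ b' ∈ B, S b b' a₁ * S b b' a₂ =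
              ∑ b ∈ B, ∑ b' ∈ B, ∑ a₂ ∈ A, S b b' a₁ * S b b' a₂ := by
            intro a₁ _
            rw [Finset.sum_comm]
            apply Finset.sum_congr rfl
            intro b _
            rw [Finset.sum_comm]
          rw [Finset.sum_congr rfl e1, Finset.sum_comm]
          apply Finset.sum_congr rfl
          intro b _
          rw [Finset.sum_comm]
          apply Finset.sum_congr rfl
          intro b' _
          rw [Finset.sum_mul_sum]
      _ ≤ _ := by
          apply Finset.sum_le_sum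
          intro b _
          apply Finset.sum_le_sum
          intro b' _
          have g1 : ∑ a ∈ A, S b b' a ≤ p b := avg1 col A b b'
          have g2 : ∑ a ∈ A, S b b' a ≤ p b' := by
            have e : ∀ a ∈ A, S b b' a = S b' b a := by
              intro a _
              simp only [hS]
              rw [ww_comm]
              by_cases h : col s(a, b) = col s(a, b')
              · simp [h]
              · simp [h, Ne.symm h]
            rw [Finset.sum_congr rfl e]
            exact avg1 col A b' b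
          exact mul_le_mul g1 g2 (Finset.sum_nonneg (fun a _ => hS0 _ _ _)) (by simp only [hp]; positivity)
  have h3 : ∑ b ∈ B, ∑ b' ∈ B, p b * p b' = (∑ b ∈ B, p b) ^ 2 := by
    rw [pow_two, Finset.sum_mul_sum]
  have h4 : (∑ b ∈ B, p b) ^ 2 ≤ (ρ * A.card) ^ 2 := by
    apply pow_le_pow_left₀ _ hsum
    exact Finset.sum_nonneg (fun b _ => Nat.cast_nonneg _)
  have h5 : ∑ a₁ ∈ A, ∑ a₂ ∈ A, Z a₁ a₂ ≤ ∑ a₁ ∈ A, ∑ a₂ ∈ A, ρ ^ 2 := by
    refine h2.trans (h3.le.trans (h4.trans (le_of_eq ?_)))
    simp only [Finset.sum_const, nsmul_eq_mul]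
    ring
  obtain ⟨a₁, ha₁, h6⟩ := Finset.exists_le_of_sum_le hA h5
  obtain ⟨a₂, ha₂, h7⟩ := Finset.exists_le_of_sum_le hA h6
  exact ⟨a₁, ha₁, a₂, ha₂, h7⟩

end P7

section P8

theorem lemmaC (ℓ : ℕ) (hℓ : 0 < ℓ) : ∃ ρ : ℝ, 0 < ρ ∧ ∃ F : ℕ, ∀ (V : Type) [Fintype V] [DecidableEq V]
    (col : Sym2 V → ℕ) (A B : Finset V), Disjoint A B → A.Nonempty →
    (∀ a ∈ A, (B.image (fun b => col s(a, b))).card ≤ ℓ) →
    (∑ b ∈ B, ((A.image (fun a => col s(a, b))).card : ℝ) ≤ ρ * A.card) →
    ∃ D ⊆ A, D.card ≤ B.card ∧ Cov ⊤ col (B ∪ D) F := by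
  classical
  obtain ⟨η, hη, F2, hegp⟩ := egp2
  have hℓR : (0 : ℝ) < ℓ := by exact_mod_cast hℓ
  set ρ : ℝ := min (1 / 2) (Real.sqrt η / (8 * ℓ)) with hρ
  have hρ0 : 0 < ρ := by
    rw [hρ]
    have := Real.sqrt_pos.2 hη
    positivity
  have hρ1 : ρ ≤ 1 / 2 := min_le_left _ _
  have hρ2 : ρ ^ 2 ≤ η / (64 * ℓ ^ 2) := by
    have h1 : ρ ≤ Real.sqrt η / (8 * ℓ) := min_le_right _ _
    have h2 : ρ ^ 2 ≤ (Real.sqrt η / (8 * ℓ)) ^ 2 := pow_le_pow_left₀ hρ0.le h1 2
    have h3 : (Real.sqrt η / (8 * ℓ)) ^ 2 = η / (64 * ℓ ^ 2) := by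
      rw [div_pow, Real.sq_sqrt hη.le, mul_pow]
      norm_num
    rw [h3] at h2
    exact h2
  refine ⟨ρ, hρ0, ℓ * ℓ * F2, ?_⟩
  intro V _ _ col A B hAB hA hloc hsum
  obtain ⟨a₁, ha₁, a₂, ha₂, hZ⟩ := avg2 col A B hA ρ hρ0.le hsum
  let W : V → V → ℕ := fun b b' => max (ww col A b b' a₁) (ww col A b b' a₂)
  have hWcomm : ∀ b b', W b b' = W b' b := by
    intro b b'
    simp only [W]
    rw [ww_comm col A b b' a₁, ww_comm col A b b' a₂]
  have hWpos : ∀ b b', 0 < W b b' := fun b b' =>
    lt_of_lt_of_le (ww_pos col A b b' a₁ ha₁) (le_max_left _ _)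
  let sg : V → ℕ × ℕ := fun b => (col s(a₁, b), col s(a₂, b))
  let cl : V → Finset V := fun b => B.filter (fun b' => sg b' = sg b)
  let bad : ℕ → V → Finset V := fun y b => (cl b).filter (fun b' => W b b' < y)
  let P : V → ℕ → Prop := fun b y => ((bad y b).card : ℝ) ≤ η * (cl b).card
  let Y : V → ℕ := fun b => Nat.findGreatest (P b) A.card
  have hPY : ∀ b, P b (Y b) := by
    intro b
    apply Nat.findGreatest_spec (P := P b) (Nat.zero_le A.card)
    show ((bad 0 b).card : ℝ) ≤ η * (cl b).card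
    have : bad 0 b = ∅ := by simp [bad]
    rw [this]
    simp only [Finset.card_empty, Nat.cast_zero]
    positivity
  have hYfail : ∀ b M, Y b ≤ M → M < A.card → ¬ P b (M + 1) := by
    intro b M h1 h2
    exact Nat.findGreatest_is_greatest (P := P b) (Nat.lt_succ_of_le h1) h2
  have hclasses : (B.image sg).card ≤ ℓ * ℓ := by
    have h1 : B.image sg ⊆ (B.image (fun b => col s(a₁, b))) ×ˢ (B.image (fun b => col s(a₂, b))) := by
      intro s hs
      obtain ⟨b, hb, rfl⟩ := Finset.mem_image.1 hs
      rw [Finset.mem_product]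
      exact ⟨Finset.mem_image_of_mem _ hb, Finset.mem_image_of_mem _ hb⟩
    refine (Finset.card_le_card h1).trans ?_
    rw [Finset.card_product]
    exact Nat.mul_le_mul (hloc a₁ ha₁) (hloc a₂ ha₂)
  -- counting
  have hN : ∀ y : ℕ, 0 < y → 4 * (B.filter (fun b => ¬ P b y)).card ≤ y := by
    intro y hy
    have hyR : (0 : ℝ) < y := by exact_mod_cast hy
    set Ny := B.filter (fun b => ¬ P b y) with hNy
    set sm := Ny.filter (fun b => 8 * (ℓ * ℓ) * (cl b).card ≤ y) with hsm
    set la := Ny.filter (fun b => ¬ (8 * (ℓ * ℓ) * (cl b).card ≤ y)) with hla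
    have hsplit : sm.card + la.card = Ny.card := Finset.card_filter_add_card_filter_not _
    have hsmall : 8 * sm.card ≤ y := by
      have h1 : sm.card = ∑ s ∈ B.image sg, (sm.filter (fun b => sg b = s)).card := by
        apply Finset.card_eq_sum_card_fiberwise
        intro b hb
        rw [Finset.mem_coe] at hb ⊢
        exact Finset.mem_image_of_mem _ (Finset.mem_filter.1 (Finset.mem_filter.1 hb).1).1
      have h2 : ∀ s ∈ B.image sg, 8 * (ℓ * ℓ) * (sm.filter (fun b => sg b = s)).card ≤ y := by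
        intro s _
        rcases (sm.filter (fun b => sg b = s)).eq_empty_or_nonempty with h | ⟨b, hb⟩
        · rw [h]; simp
        · rw [Finset.mem_filter] at hb
          refine le_trans (Nat.mul_le_mul_left _ (Finset.card_le_card ?_)) (Finset.mem_filter.1 hb.1).2
          intro x hx
          rw [Finset.mem_filter] at hx
          exact Finset.mem_filter.2 ⟨(Finset.mem_filter.1 (Finset.mem_filter.1 hx.1).1).1, by rw [hx.2, hb.2]⟩
      have h3 : 8 * (ℓ * ℓ) * sm.card ≤ (ℓ * ℓ) * y := by
        calc 8 * (ℓ * ℓ) * sm.card = ∑ s ∈ B.image sg, 8 * (ℓ * ℓ) * (sm.filter (fun b => sg b = s)).card := by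
              rw [← Finset.mul_sum, ← h1]
          _ ≤ ∑ s ∈ B.image sg, y := Finset.sum_le_sum h2
          _ = (B.image sg).card * y := by rw [Finset.sum_const, smul_eq_mul]
          _ ≤ _ := Nat.mul_le_mul_right _ hclasses
      have h4 : (ℓ * ℓ) * (8 * sm.card) ≤ (ℓ * ℓ) * y := by
        calc (ℓ * ℓ) * (8 * sm.card) = 8 * (ℓ * ℓ) * sm.card := by ring
          _ ≤ _ := h3
      exact Nat.le_of_mul_le_mul_left h4 (by positivity)
    have hlarge : (8 : ℝ) * la.card ≤ y := by
      -- total number of bad pairs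
      have h1 : ∑ b ∈ B, ((bad y b).card : ℝ) ≤ y ^ 2 * ρ ^ 2 := by
        have h2 : ∑ b ∈ B, ((bad y b).card : ℝ) * (1 / (y : ℝ) ^ 2) ≤ ρ ^ 2 := by
          refine le_trans ?_ hZ
          apply Finset.sum_le_sum
          intro b hb
          have e : ((bad y b).card : ℝ) * (1 / (y : ℝ) ^ 2) = ∑ b' ∈ B,
              (if (sg b' = sg b ∧ W b b' < y) then (1 / (y : ℝ) ^ 2) else 0) := by
            rw [← Finset.sum_filter, Finset.sum_const, nsmul_eq_mul]
            congr 3
            simp only [bad, cl]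
            rw [Finset.filter_filter]
          rw [e]
          apply Finset.sum_le_sum
          intro b' hb'
          by_cases h3 : sg b' = sg b ∧ W b b' < y
          · rw [if_pos h3]
            have h4 : col s(a₁, b) = col s(a₁, b') ∧ col s(a₂, b) = col s(a₂, b') := by
              have := h3.1
              simp only [sg, Prod.mk.injEq] at this
              exact ⟨this.1.symm, this.2.symm⟩
            rw [if_pos h4]
            have h5 : (0 : ℝ) < (W b b' : ℝ) := by exact_mod_cast hWpos b b'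
            have h6 : (W b b' : ℝ) ≤ y := by exact_mod_cast h3.2.le
            exact one_div_le_one_div_of_le (by positivity) (pow_le_pow_left₀ h5.le h6 2)
          · rw [if_neg h3]
            split_ifs
            · positivity
            · exact le_rfl
        rw [← Finset.sum_mul, mul_one_div, div_le_iff₀ (by positivity)] at h2
        linarith
      have h2 : ∀ b ∈ la, η * y / (8 * ℓ ^ 2) ≤ ((bad y b).card : ℝ) := by
        intro b hb
        rw [hla, Finset.mem_filter] at hb
        obtain ⟨hb1, hb2⟩ := hb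
        have hb3 := (Finset.mem_filter.1 hb1).2
        simp only [P] at hb3
        push Not at hb2 hb3
        have h3 : (y : ℝ) < 8 * (ℓ * ℓ) * (cl b).card := by exact_mod_cast hb2
        have h4 : η * y / (8 * ℓ ^ 2) ≤ η * (cl b).card := by
          rw [div_le_iff₀ (by positivity)]
          have : η * y ≤ η * (8 * (ℓ * ℓ) * (cl b).card) := mul_le_mul_of_nonneg_left h3.le hη.le
          linarith
        exact h4.trans hb3.le
      have h3 : (la.card : ℝ) * (η * y / (8 * ℓ ^ 2)) ≤ y ^ 2 * ρ ^ 2 := by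
        calc (la.card : ℝ) * (η * y / (8 * ℓ ^ 2)) = ∑ b ∈ la, η * y / (8 * ℓ ^ 2) := by
              rw [Finset.sum_const, nsmul_eq_mul]
          _ ≤ ∑ b ∈ la, ((bad y b).card : ℝ) := Finset.sum_le_sum h2
          _ ≤ ∑ b ∈ B, ((bad y b).card : ℝ) := by
              apply Finset.sum_le_sum_of_subset_of_nonneg
              · intro b hb
                exact (Finset.mem_filter.1 (Finset.mem_filter.1 hb).1).1
              · intro b _ _
                exact Nat.cast_nonneg _
          _ ≤ _ := h1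
      have h4 : y ^ 2 * ρ ^ 2 ≤ (y : ℝ) ^ 2 * (η / (64 * ℓ ^ 2)) := mul_le_mul_of_nonneg_left hρ2 (by positivity)
      have h5 : (la.card : ℝ) * (η * y / (8 * ℓ ^ 2)) ≤ (y / 8) * (η * y / (8 * ℓ ^ 2)) := by
        refine h3.trans (h4.trans (le_of_eq ?_))
        field_simp
        norm_num
      have h6 : (la.card : ℝ) ≤ y / 8 := le_of_mul_le_mul_right h5 (by positivity)
      linarith
    have hlarge' : 8 * la.card ≤ y := by exact_mod_cast hlarge
    omega
  have hY : ∀ M, 2 * (B.filter (fun b => Y b ≤ M)).card ≤ M := by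
    intro M
    rcases Nat.lt_or_ge M A.card with hM | hM
    · have h1 := hN (M + 1) (by omega)
      have h2 : (B.filter (fun b => Y b ≤ M)).card ≤ (B.filter (fun b => ¬ P b (M + 1))).card := by
        apply Finset.card_le_card
        intro b hb
        rw [Finset.mem_filter] at hb ⊢
        exact ⟨hb.1, hYfail b M hb.2 hM⟩
      omega
    · have h1 : (B.card : ℝ) ≤ ρ * A.card := by
        refine le_trans ?_ hsum
        calc (B.card : ℝ) = ∑ b ∈ B, (1 : ℝ) := by rw [Finset.sum_const, nsmul_eq_mul, mul_one]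
          _ ≤ _ := by
            apply Finset.sum_le_sum
            intro b _
            have : 0 < (A.image (fun a => col s(a, b))).card := Finset.card_pos.2 (hA.image _)
            exact_mod_cast this
      have h2 : (2 : ℝ) * B.card ≤ A.card := by
        have : ρ * A.card ≤ 1 / 2 * A.card := mul_le_mul_of_nonneg_right hρ1 (by positivity)
        linarith
      have h3 : 2 * B.card ≤ A.card := by exact_mod_cast h2
      have h4 : (B.filter (fun b => Y b ≤ M)).card ≤ B.card := Finset.card_le_card (Finset.filter_subset _ _)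
      omega
  -- auxiliary graph
  obtain ⟨G0, hG0⟩ : ∃ G0 : SimpleGraph V, ∀ x y, G0.Adj x y ↔
      (x ≠ y ∧ sg x = sg y ∧ min (Y x) (Y y) ≤ W x y) :=
    ⟨{ Adj := fun x y => x ≠ y ∧ sg x = sg y ∧ min (Y x) (Y y) ≤ W x y
       symm := ⟨fun x y h => ⟨h.1.symm, h.2.1.symm, by rw [min_comm, hWcomm]; exact h.2.2⟩⟩
       loopless := ⟨fun x h => h.1 rfl⟩ }, fun x y => Iff.rfl⟩
  obtain ⟨col0, hcol0⟩ : ∃ col0 : Sym2 V → ℕ, ∀ x y, col0 s(x, y) =
      (if ww col A x y a₂ ≤ ww col A x y a₁ then 0 else 1) :=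
    ⟨Sym2.lift ⟨fun x y => if ww col A x y a₂ ≤ ww col A x y a₁ then 0 else 1, by
      intro x y
      simp only
      rw [ww_comm col A x y a₂, ww_comm col A x y a₁]⟩, fun x y => rfl⟩
  have hcol02 : ∀ e, col0 e < 2 := by
    intro e
    induction e with
    | _ x y =>
      rw [hcol0]
      split_ifs <;> norm_num
  have hcov0 : Cov G0 col0 B ((B.image sg).card * F2) := by
    apply Cov.fibers
    intro s
    apply hegp V G0 col0 _ hcol02
    intro u hu
    rw [Finset.mem_filter] at hu
    have e : cl u = B.filter (fun b => sg b = s) := by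
      simp only [cl]
      rw [hu.2]
    have h1 := hPY u
    simp only [P] at h1
    rw [e] at h1
    refine le_trans ?_ h1
    have h2 : ((B.filter (fun b => sg b = s)).filter (fun v => v ≠ u ∧ ¬ G0.Adj u v)).card ≤
        (bad (Y u) u).card := by
      apply Finset.card_le_card
      intro v hv
      rw [Finset.mem_filter] at hv
      simp only [bad]
      rw [Finset.mem_filter, e]
      refine ⟨hv.1, ?_⟩
      by_contra hcon
      push Not at hcon
      apply hv.2.2
      rw [hG0]
      exact ⟨hv.2.1.symm, by rw [hu.2, (Finset.mem_filter.1 hv.1).2], (min_le_left _ _).trans hcon⟩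
    exact_mod_cast h2
  have hne : ∀ p ∈ B, ∀ a ∈ A, (⊤ : SimpleGraph V).Adj p a := by
    intro p hp a ha
    rw [SimpleGraph.top_adj]
    intro h
    subst h
    exact Finset.disjoint_left.1 hAB ha hp
  obtain ⟨D, hD1, hD2, hD3⟩ := lift ⊤ G0 col col0 A B hAB _ hcov0
    (fun i p q => A.filter (fun x => col s(x, p) = col s((if i = 0 then a₁ else a₂), p) ∧
      col s(x, q) = col s((if i = 0 then a₁ else a₂), q)))
    (fun i p => col s((if i = 0 then a₁ else a₂), p)) Y (by
      intro i p q hp hq hadj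
      have h1 := (hG0 p q).1 hadj.1
      have h2 := hadj.2
      rw [hcol0] at h2
      have h3 : sg p = sg q := h1.2.1
      simp only [sg, Prod.mk.injEq] at h3
      have hsame : col s((if i = 0 then a₁ else a₂), p) = col s((if i = 0 then a₁ else a₂), q) := by
        split_ifs
        · exact h3.1
        · exact h3.2
      refine ⟨Finset.filter_subset _ _, hsame, ?_, ?_⟩
      · intro a ha
        rw [Finset.mem_filter] at ha
        refine ⟨⟨hne p hp a ha.1, ?_⟩, (hne q hq a ha.1).symm, ?_⟩
        · rw [Sym2.eq_swap]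
          exact ha.2.1
        · rw [ha.2.2]
          exact hsame.symm
      · refine h1.2.2.trans (le_of_eq ?_)
        show W p q = _
        simp only [W]
        by_cases h4 : ww col A p q a₂ ≤ ww col A p q a₁
        · rw [if_pos h4] at h2
          subst h2
          rw [max_eq_left h4]
          simp only [if_true]
          rfl
        · rw [if_neg h4] at h2
          subst h2
          rw [max_eq_right (by omega)]
          simp only [one_ne_zero, if_false]
          rfl) hY
  exact ⟨D, hD1, hD2, hD3.mono (Nat.mul_le_mul_right _ hclasses)⟩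

end P8

section P9

lemma groups {V : Type} [Fintype V] [DecidableEq V] (ℓ F : ℕ) (ρ : ℝ) (hρ : 0 < ρ) (col : Sym2 V → ℕ)
    (hC : ∀ (A B : Finset V), Disjoint A B → A.Nonempty →
      (∀ a ∈ A, (B.image (fun b => col s(a, b))).card ≤ ℓ) →
      (∑ b ∈ B, ((A.image (fun a => col s(a, b))).card : ℝ) ≤ ρ * A.card) →
      ∃ D ⊆ A, D.card ≤ B.card ∧ Cov ⊤ col (B ∪ D) F)
    (A : Finset V) (hA : A.Nonempty) (p : V → ℕ)
    (hp : ∀ b, b ∉ A → (A.image (fun a => col s(a, b))).card ≤ p b)
    (hloc : ∀ a ∈ A, ∀ S, Disjoint A S → (S.image (fun b => col s(a, b))).card ≤ ℓ) :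
    ∀ (j : ℕ) (A1 B1 : Finset V), A1 ⊆ A → Disjoint A B1 →
      (∑ b ∈ B1, (p b : ℝ) ≤ j * (ρ * A.card / 2)) → (A.card : ℝ) / 2 + B1.card ≤ A1.card →
      ∃ D ⊆ A1, D.card ≤ B1.card ∧ Cov ⊤ col (B1 ∪ D) ((j + 1) * (F + 1)) := by
  classical
  have hApos : (0 : ℝ) < A.card := by exact_mod_cast hA.card_pos
  -- one step
  have hone : ∀ (A1 S : Finset V), A1 ⊆ A → Disjoint A S → (∑ b ∈ S, (p b : ℝ) ≤ ρ * A.card / 2) →
      (A.card : ℝ) / 2 ≤ A1.card → ∃ D ⊆ A1, D.card ≤ S.card ∧ Cov ⊤ col (S ∪ D) F := by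
    intro A1 S hA1 hAS hs hc
    have hA1pos : (0 : ℝ) < A1.card := by linarith
    apply hC A1 S (Finset.disjoint_of_subset_left hA1 hAS)
    · rw [← Finset.card_pos]
      exact_mod_cast hA1pos
    · intro a ha
      exact hloc a (hA1 ha) S hAS
    · have h1 : ∑ b ∈ S, ((A1.image (fun a => col s(a, b))).card : ℝ) ≤ ∑ b ∈ S, (p b : ℝ) := by
        apply Finset.sum_le_sum
        intro b hb
        have h2 : (A1.image (fun a => col s(a, b))).card ≤ (A.image (fun a => col s(a, b))).card :=
          Finset.card_le_card (Finset.image_subset_image hA1)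
        have h3 := hp b (fun h => Finset.disjoint_left.1 hAS h hb)
        exact_mod_cast h2.trans h3
      have h2 : ρ * (A.card / 2) ≤ ρ * A1.card := mul_le_mul_of_nonneg_left hc hρ.le
      linarith
  intro j
  induction j with
  | zero =>
    intro A1 B1 hA1 hAB hs hc
    obtain ⟨D, h1, h2, h3⟩ := hone A1 B1 hA1 hAB (by
      rw [Nat.cast_zero, zero_mul] at hs
      have : 0 ≤ ρ * A.card / 2 := by positivity
      linarith) (by
      have : (0 : ℝ) ≤ B1.card := Nat.cast_nonneg _
      linarith)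
    exact ⟨D, h1, h2, h3.mono (by omega)⟩
  | succ j ih =>
    intro A1 B1 hA1 hAB hs hc
    have hB1 : (0 : ℝ) ≤ B1.card := Nat.cast_nonneg _
    by_cases hle : ∑ b ∈ B1, (p b : ℝ) ≤ ρ * A.card / 2
    · obtain ⟨D, h1, h2, h3⟩ := hone A1 B1 hA1 hAB hle (by linarith)
      refine ⟨D, h1, h2, h3.mono ?_⟩
      calc F ≤ 1 * (F + 1) := by omega
        _ ≤ (j + 1 + 1) * (F + 1) := Nat.mul_le_mul_right _ (by omega)
    -- maximal group
    obtain ⟨S, hS, hmax⟩ := Finset.exists_max_image
      (B1.powerset.filter (fun S => ∑ b ∈ S, (p b : ℝ) ≤ ρ * A.card / 2)) (fun S => S.card)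
      ⟨∅, by
        rw [Finset.mem_filter]
        refine ⟨Finset.empty_mem_powerset _, ?_⟩
        rw [Finset.sum_empty]
        positivity⟩
    rw [Finset.mem_filter, Finset.mem_powerset] at hS
    obtain ⟨hSB, hSs⟩ := hS
    have hSne : S ≠ B1 := fun h => hle (by rw [← h]; exact hSs)
    obtain ⟨b, hbB, hbS⟩ := Finset.exists_of_ssubset (Finset.ssubset_iff_subset_ne.2 ⟨hSB, hSne⟩)
    have hbig : ρ * A.card / 2 < ∑ x ∈ insert b S, (p x : ℝ) := by
      by_contra hcon
      push Not at hcon
      have := hmax (insert b S) (by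
        rw [Finset.mem_filter, Finset.mem_powerset]
        exact ⟨Finset.insert_subset hbB hSB, hcon⟩)
      rw [Finset.card_insert_of_notMem hbS] at this
      omega
    have hinsB : insert b S ⊆ B1 := Finset.insert_subset hbB hSB
    have hcS : S.card + 1 ≤ B1.card := by
      rw [← Finset.card_insert_of_notMem hbS]
      exact Finset.card_le_card hinsB
    obtain ⟨D, hD1, hD2, hD3⟩ := hone A1 S hA1 (Finset.disjoint_of_subset_right hSB hAB) hSs (by linarith)
    have hcB : (B1 \ insert b S).card + (S.card + 1) = B1.card := by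
      rw [← Finset.card_insert_of_notMem hbS]
      exact Finset.card_sdiff_add_card_eq_card hinsB
    have hcA : (A1 \ D).card + D.card = A1.card := Finset.card_sdiff_add_card_eq_card hD1
    obtain ⟨D', hD1', hD2', hD3'⟩ := ih (A1 \ D) (B1 \ insert b S) (Finset.sdiff_subset.trans hA1)
      (Finset.disjoint_of_subset_right Finset.sdiff_subset hAB) (by
        have h1 : ∑ x ∈ B1 \ insert b S, (p x : ℝ) + ∑ x ∈ insert b S, (p x : ℝ) = ∑ x ∈ B1, (p x : ℝ) :=
          Finset.sum_sdiff hinsB
        push_cast at hs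
        nlinarith) (by
        have h1 : ((B1 \ insert b S).card : ℝ) + (S.card + 1) = B1.card := by exact_mod_cast hcB
        have h2 : ((A1 \ D).card : ℝ) + D.card = A1.card := by exact_mod_cast hcA
        have h3 : (D.card : ℝ) ≤ S.card := by exact_mod_cast hD2
        linarith)
    refine ⟨D ∪ D', Finset.union_subset hD1 (hD1'.trans Finset.sdiff_subset), ?_, ?_⟩
    · have := Finset.card_union_le D D'
      omega
    · have hA1B : ∀ x ∈ A1, x ∉ B1 := fun x hx hx' => Finset.disjoint_left.1 hAB (hA1 hx) hx'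
      have hu := (hD3.union (Cov.single ⊤ col b) (by
        rw [Finset.disjoint_singleton_right, Finset.mem_union]
        rintro (h | h)
        · exact hbS h
        · exact hA1B b (hD1 h) hbB)).union hD3' (by
        rw [Finset.disjoint_left]
        intro x hx hx'
        rw [Finset.mem_union, Finset.mem_union, Finset.mem_singleton] at hx
        rw [Finset.mem_union, Finset.mem_sdiff, Finset.mem_insert] at hx'
        rcases hx with (h | h) | h
        · rcases hx' with h' | h'
          · exact h'.2 (Or.inr h)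
          · exact hA1B x (Finset.mem_sdiff.1 (hD1' h')).1 (hSB h)
        · rcases hx' with h' | h'
          · exact hA1B x (hD1 h) h'.1
          · exact (Finset.mem_sdiff.1 (hD1' h')).2 h
        · rcases hx' with h' | h'
          · exact h'.2 (Or.inl h)
          · exact hA1B x (Finset.mem_sdiff.1 (hD1' h')).1 (by rw [h]; exact hbB))
      have e : (S ∪ D ∪ {b}) ∪ (B1 \ insert b S ∪ D') = B1 ∪ (D ∪ D') := by
        ext x
        simp only [Finset.mem_union, Finset.mem_sdiff, Finset.mem_insert, Finset.mem_singleton]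
        constructor
        · rintro (((h | h) | h) | (h | h))
          · exact Or.inl (hSB h)
          · exact Or.inr (Or.inl h)
          · exact Or.inl (by rw [h]; exact hbB)
          · exact Or.inl h.1
          · exact Or.inr (Or.inr h)
        · rintro (h | h | h)
          · by_cases h1 : x = b
            · exact Or.inl (Or.inr h1)
            · by_cases h2 : x ∈ S
              · exact Or.inl (Or.inl (Or.inl h2))
              · exact Or.inr (Or.inl ⟨h, fun h3 => h3.elim h1 h2⟩)
          · exact Or.inl (Or.inl (Or.inr h))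
          · exact Or.inr (Or.inr h)
      rw [e] at hu
      refine hu.mono (le_of_eq ?_)
      ring

theorem mainCov (r : ℕ) (hr : 0 < r) : ∃ m : ℕ, ∀ (V : Type) [Fintype V] [DecidableEq V] (col : Sym2 V → ℕ),
    (∑ v : V, ((Finset.univ.erase v).image (fun u => col s(v, u))).card ≤ r * Fintype.card V) →
    Cov ⊤ col Finset.univ m := by
  classical
  obtain ⟨ξ, δ, hξ, hδ, N, habs⟩ := absorber (4 * r)
  obtain ⟨ρ, hρ, F, hC⟩ := lemmaC (4 * r) (by omega)
  have hrR : (0 : ℝ) < r := by exact_mod_cast hr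
  set ε : ℝ := min δ 1 / 4 with hε
  have hε0 : 0 < ε := by rw [hε]; positivity
  have hεδ : 4 * ε ≤ δ := by rw [hε]; have := min_le_left δ 1; linarith
  have hε1 : 4 * ε ≤ 1 := by rw [hε]; have := min_le_right δ 1; linarith
  set N0 : ℕ := max (2 * N) (max ⌈2 / ξ⌉₊ (max ⌈8 * r / ε ^ 2⌉₊ ⌈2 / ε⌉₊)) with hN0
  set J : ℕ := ⌈8 * r / (3 * ρ * δ)⌉₊ with hJ
  refine ⟨max N0 (⌈8 * r / ε ^ 2⌉₊ + (J + 1) * (F + 1) + 1), ?_⟩
  intro V _ _ col hcol
  rcases Nat.lt_or_ge (Fintype.card V) N0 with hsmall | hbig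
  · refine (Cov.card ⊤ col Finset.univ).mono ?_
    rw [Finset.card_univ]
    omega
  refine Cov.mono ?_ (le_max_right _ _)
  set n : ℝ := (Fintype.card V : ℝ) with hn
  have hN0' : ∀ x : ℝ, ⌈x⌉₊ ≤ N0 → x ≤ n := by
    intro x hx
    have h1 : x ≤ ⌈x⌉₊ := Nat.le_ceil _
    have h2 : ((⌈x⌉₊ : ℕ) : ℝ) ≤ n := by rw [hn]; exact_mod_cast hx.trans hbig
    linarith
  have hnξ : 2 / ξ ≤ n := hN0' _ (by omega)
  have hnr : 8 * r / ε ^ 2 ≤ n := hN0' _ (by omega)
  have hnε : 2 / ε ≤ n := hN0' _ (by omega)
  have hnξ' : 2 ≤ ξ * n := by rw [div_le_iff₀ hξ] at hnξ; linarith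
  have hnr' : 8 * r ≤ ε ^ 2 * n := by rw [div_le_iff₀ (by positivity)] at hnr; linarith
  have hnε' : 2 ≤ ε * n := by rw [div_le_iff₀ hε0] at hnε; linarith
  have hnpos : 0 < n := by
    by_contra h
    push Not at h
    nlinarith
  set p : V → ℕ := fun v => ((Finset.univ.erase v).image (fun u => col s(v, u))).card with hp
  have hsee : ∀ (W : Finset V) (v : V), (seen ⊤ col W v).card ≤ p v := by
    intro W v
    apply Finset.card_le_card
    intro k hk
    rw [mem_seen] at hk
    obtain ⟨u, _, h1, rfl⟩ := hk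
    rw [SimpleGraph.top_adj] at h1
    exact Finset.mem_image.2 ⟨u, Finset.mem_erase.2 ⟨h1.symm, Finset.mem_univ _⟩, rfl⟩
  -- low vertices
  set L : Finset V := Finset.univ.filter (fun v => p v ≤ 4 * r) with hL
  have hLc : 3 * Fintype.card V ≤ 4 * L.card := by
    have h1 : (Finset.univ.filter (fun v => ¬ (p v ≤ 4 * r))).card * (4 * r) ≤ r * Fintype.card V := by
      calc (Finset.univ.filter (fun v => ¬ (p v ≤ 4 * r))).card * (4 * r) =
            ∑ v ∈ Finset.univ.filter (fun v => ¬ (p v ≤ 4 * r)), 4 * r := by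
            rw [Finset.sum_const, smul_eq_mul]
        _ ≤ ∑ v ∈ Finset.univ.filter (fun v => ¬ (p v ≤ 4 * r)), p v := by
            apply Finset.sum_le_sum
            intro v hv
            rw [Finset.mem_filter] at hv
            omega
        _ ≤ ∑ v, p v := Finset.sum_le_sum_of_subset (Finset.filter_subset _ _)
        _ ≤ _ := hcol
    have h2 : L.card + (Finset.univ.filter (fun v => ¬ (p v ≤ 4 * r))).card = Fintype.card V := by
      rw [hL, Finset.card_filter_add_card_filter_not, Finset.card_univ]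
    have h3 : 4 * (Finset.univ.filter (fun v => ¬ (p v ≤ 4 * r))).card ≤ Fintype.card V := by
      apply Nat.le_of_mul_le_mul_left (c := r) _ hr
      calc r * (4 * (Finset.univ.filter (fun v => ¬ (p v ≤ 4 * r))).card) =
          (Finset.univ.filter (fun v => ¬ (p v ≤ 4 * r))).card * (4 * r) := by ring
        _ ≤ _ := h1
    omega
  have hLR : 3 * n ≤ 4 * (L.card : ℝ) := by rw [hn]; exact_mod_cast hLc
  obtain ⟨A, Q, hAL, hQL, hAQ, hAc, hab⟩ := habs V ⊤ col L (by omega) (by
    have h1 : ((L ×ˢ L).filter (fun t => ¬ (⊤ : SimpleGraph V).Adj t.1 t.2)).card ≤ L.card := by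
      apply Finset.card_le_card_of_injOn (fun t => t.1)
      · intro t ht
        rw [Finset.mem_coe, Finset.mem_filter, Finset.mem_product] at ht
        exact ht.1.1
      · intro t ht t' ht' h
        rw [Finset.mem_coe, Finset.mem_filter, SimpleGraph.top_adj, not_not] at ht ht'
        simp only at h
        exact Prod.ext h (by rw [← ht.2, ← ht'.2, h])
    have h2 : (((L ×ˢ L).filter (fun t => ¬ (⊤ : SimpleGraph V).Adj t.1 t.2)).card : ℝ) ≤ L.card := by
      exact_mod_cast h1
    have h3 : 1 ≤ ξ * L.card := by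
      have : ξ * (3 * n) ≤ ξ * (4 * L.card) := mul_le_mul_of_nonneg_left hLR hξ.le
      linarith
    have h4 : (0 : ℝ) ≤ L.card := Nat.cast_nonneg _
    have h5 : (((L ×ˢ L).filter (fun t => ¬ (⊤ : SimpleGraph V).Adj t.1 t.2)).card : ℝ) ≤
        ξ * (L.card : ℝ) ^ 2 := by
      nlinarith
    convert h5) (by
    intro v hv
    exact (hsee L v).trans (Finset.mem_filter.1 hv).2)
  have hAR : 3 * δ * n ≤ 4 * (A.card : ℝ) := by
    have : δ * (3 * n) ≤ δ * (4 * L.card) := mul_le_mul_of_nonneg_left hLR hδ.le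
    linarith
  have hApos : (0 : ℝ) < A.card := by
    have : 0 < δ * n := by positivity
    linarith
  have hAne : A.Nonempty := by
    rw [← Finset.card_pos]
    exact_mod_cast hApos
  -- greedy
  set g : ℕ := ⌊ε ^ 2 * n / (4 * r)⌋₊ with hg
  have hg1 : (g : ℝ) ≤ ε ^ 2 * n / (4 * r) := Nat.floor_le (by positivity)
  have hgr : (g : ℝ) * (4 * r) ≤ ε ^ 2 * n := by rwa [le_div_iff₀ (by positivity)] at hg1
  have hg2 : ε ^ 2 * n ≤ g * (8 * r) := by
    have h1 := Nat.lt_floor_add_one (ε ^ 2 * n / (4 * r))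
    rw [← hg, div_lt_iff₀ (by positivity)] at h1
    nlinarith
  have hgpos : 0 < g := by
    have : (0 : ℝ) < g := by
      by_contra h
      push Not at h
      nlinarith
    exact_mod_cast this
  obtain ⟨B, hBU, k, hk, hcovk, hno⟩ := greedy ⊤ col g hgpos
    (Finset.univ \ (A ∪ Q)).card (Finset.univ \ (A ∪ Q)) le_rfl
  have hU1 : (Finset.univ \ (A ∪ Q)).card ≤ Fintype.card V := by
    rw [← Finset.card_univ]
    exact Finset.card_le_card Finset.sdiff_subset
  have hkb : k ≤ ⌈8 * r / ε ^ 2⌉₊ := by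
    have h1 : (k * g : ℕ) ≤ Fintype.card V := by omega
    have h2 : (k : ℝ) * g ≤ n := by rw [hn]; exact_mod_cast h1
    have h4 : (k : ℝ) ≤ 8 * r / ε ^ 2 := by
      rw [le_div_iff₀ (by positivity)]
      have h5 : (k : ℝ) * (ε ^ 2 * n) ≤ k * (g * (8 * r)) := mul_le_mul_of_nonneg_left hg2 (by positivity)
      have h6 : (k * g : ℝ) * (8 * r) ≤ n * (8 * r) := mul_le_mul_of_nonneg_right h2 (by positivity)
      have h7 : ((k : ℝ) * ε ^ 2) * n ≤ (8 * r) * n := by nlinarith
      exact le_of_mul_le_mul_right h7 hnpos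
    have h5 : (k : ℝ) ≤ ⌈8 * r / ε ^ 2⌉₊ := h4.trans (Nat.le_ceil _)
    exact_mod_cast h5
  have hBsmall : (B.card : ℝ) < ε * n := by
    by_contra hcon
    push Not at hcon
    have hB2 : (2 : ℝ) ≤ B.card := hnε'.trans hcon
    have hB2' : 2 ≤ B.card := by exact_mod_cast hB2
    have hdeg : ∑ v ∈ B, dU ⊤ B v = B.card * (B.card - 1) := by
      obtain ⟨T, hT⟩ : ∃ T : SimpleGraph V, T = ⊤ := ⟨⊤, rfl⟩
      rw [← hT, ← smul_eq_mul, ← Finset.sum_const]
      apply Finset.sum_congr rfl
      intro v hv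
      unfold dU
      rw [← Finset.card_erase_of_mem hv]
      congr 1
      ext u
      rw [Finset.mem_filter, Finset.mem_erase, hT, SimpleGraph.top_adj]
      exact ⟨fun h => ⟨h.2.symm, h.1⟩, fun h => ⟨h.2, h.1.symm⟩⟩
    obtain ⟨C, i, hC1, hC2, hC3⟩ := longMono ⊤ col B (r * Fintype.card V) (B.card * (B.card - 1)) g (by
        calc ∑ v ∈ B, (seen ⊤ col B v).card ≤ ∑ v ∈ B, p v := Finset.sum_le_sum (fun v _ => hsee B v)
          _ ≤ ∑ v, p v := Finset.sum_le_sum_of_subset (Finset.subset_univ _)
          _ ≤ _ := hcol) hdeg.ge (by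
        apply Nat.mul_pos
        · omega
        · omega) (by
        have h1 : ((2 * g * (r * Fintype.card V) : ℕ) : ℝ) ≤ ((B.card * (B.card - 1) : ℕ) : ℝ) := by
          rw [Nat.cast_mul B.card (B.card - 1), Nat.cast_sub (by omega : 1 ≤ B.card)]
          push_cast
          rw [← hn]
          have h2 : (2 : ℝ) * g * (r * n) = (g * (4 * r)) * n / 2 := by ring
          have h3 : (g * (4 * r)) * n / 2 ≤ (ε ^ 2 * n) * n / 2 := by
            have := mul_le_mul_of_nonneg_right hgr hnpos.le
            linarith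
          have h4 : (ε * n) * (ε * n) ≤ (B.card : ℝ) * B.card :=
            mul_le_mul hcon hcon (by positivity) (by positivity)
          have h5 : (B.card : ℝ) / 2 ≤ B.card - 1 := by linarith
          have h6 : (B.card : ℝ) * (B.card / 2) ≤ B.card * (B.card - 1) :=
            mul_le_mul_of_nonneg_left h5 (by positivity)
          nlinarith
        exact_mod_cast h1)
    have h1 := hno C i hC1 hC2
    omega
  have hBA : ∀ b ∈ B, b ∉ A ∧ b ∉ Q := by
    intro b hb
    have := hBU hb
    rw [Finset.mem_sdiff, Finset.mem_union] at this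
    exact ⟨fun h => this.2 (Or.inl h), fun h => this.2 (Or.inr h)⟩
  have hdisAB : Disjoint A B := by
    rw [Finset.disjoint_left]
    intro a ha hb
    exact (hBA a hb).1 ha
  obtain ⟨D, hDA, hDc, hcovD⟩ := groups (4 * r) F ρ hρ col (hC V col) A hAne p (by
      intro b hb
      simp only [hp]
      apply Finset.card_le_card
      intro k hk
      obtain ⟨a, ha, rfl⟩ := Finset.mem_image.1 hk
      refine Finset.mem_image.2 ⟨a, Finset.mem_erase.2 ⟨fun h => hb (by rw [← h]; exact ha), Finset.mem_univ _⟩, ?_⟩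
      rw [Sym2.eq_swap]) (by
      intro a ha S hAS
      have h1 : p a ≤ 4 * r := (Finset.mem_filter.1 (hAL ha)).2
      refine le_trans ?_ h1
      simp only [hp]
      apply Finset.card_le_card
      intro k hk
      obtain ⟨b, hb, rfl⟩ := Finset.mem_image.1 hk
      exact Finset.mem_image.2 ⟨b, Finset.mem_erase.2 ⟨fun h => Finset.disjoint_left.1 hAS ha (by rw [← h]; exact hb),
        Finset.mem_univ _⟩, rfl⟩) J A B subset_rfl hdisAB (by
      have h1 : ∑ b ∈ B, (p b : ℝ) ≤ r * n := by
        have h2 : ∑ b ∈ B, p b ≤ r * Fintype.card V :=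
          (Finset.sum_le_sum_of_subset (Finset.subset_univ _)).trans hcol
        rw [hn]
        exact_mod_cast h2
      have h2 : 8 * r / (3 * ρ * δ) ≤ J := Nat.le_ceil _
      rw [div_le_iff₀ (by positivity)] at h2
      have h3 : (J : ℝ) * ρ * (3 * δ * n) ≤ J * ρ * (4 * A.card) := mul_le_mul_of_nonneg_left hAR (by positivity)
      have h4 : 8 * r * n ≤ (J * (3 * ρ * δ)) * n := mul_le_mul_of_nonneg_right h2 hnpos.le
      nlinarith) (by
      have h1 : 4 * ε * n ≤ δ * n := mul_le_mul_of_nonneg_right hεδ hnpos.le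
      have : 0 < ε * n := by positivity
      linarith)
  have hfin := (hcovk.union hcovD (by
      rw [Finset.disjoint_left]
      intro x hx hx'
      rw [Finset.mem_sdiff, Finset.mem_sdiff, Finset.mem_union] at hx
      rw [Finset.mem_union] at hx'
      rcases hx' with h | h
      · exact hx.2 h
      · exact hx.1.2 (Or.inl (hDA h)))).union (hab D hDA) (by
      rw [Finset.disjoint_left]
      intro x hx hx'
      rw [Finset.mem_union, Finset.mem_sdiff, Finset.mem_sdiff, Finset.mem_union, Finset.mem_union] at hx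
      rw [Finset.mem_union, Finset.mem_sdiff] at hx'
      rcases hx with h | h | h
      · rcases hx' with h' | h'
        · exact h.1.2 (Or.inr h')
        · exact h.1.2 (Or.inl h'.1)
      · rcases hx' with h' | h'
        · exact (hBA x h).2 h'
        · exact (hBA x h).1 h'.1
      · rcases hx' with h' | h'
        · exact Finset.disjoint_left.1 hAQ (hDA h) h'
        · exact h'.2 h)
  have e : ((Finset.univ \ (A ∪ Q)) \ B ∪ (B ∪ D)) ∪ (Q ∪ A \ D) = (Finset.univ : Finset V) := by
    rw [Finset.eq_univ_iff_forall]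
    intro x
    simp only [Finset.mem_union, Finset.mem_sdiff, Finset.mem_univ, true_and]
    by_cases h1 : x ∈ A
    · by_cases h2 : x ∈ D
      · exact Or.inl (Or.inr (Or.inr h2))
      · exact Or.inr (Or.inr ⟨h1, h2⟩)
    · by_cases h2 : x ∈ Q
      · exact Or.inr (Or.inl h2)
      · by_cases h3 : x ∈ B
        · exact Or.inl (Or.inr (Or.inl h3))
        · exact Or.inl (Or.inl ⟨fun h => h.elim h1 h2, h3⟩)
  rw [e] at hfin
  exact hfin.mono (by omega)

end P9

section P10

lemma cycConv {V : Type} [DecidableEq V] (H : SimpleGraph V) (L : List V) (hL : Cyc H L) (i : ℕ) (a b : V)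
    (ha : L[i]? = some a) (hb : L[(i + 1) % L.length]? = some b) (hab : a ≠ b) : H.Adj a b := by
  obtain ⟨hi, ha'⟩ := List.getElem?_eq_some_iff.1 ha
  obtain ⟨hj, hb'⟩ := List.getElem?_eq_some_iff.1 hb
  rcases hL.2 with h | ⟨x, l, hx, hch⟩
  · exfalso
    have h1 : L.length = 1 := by omega
    apply hab
    rw [← ha', ← hb']
    congr 1
    rw [h1, Nat.mod_one]
    omega
  · have e : x :: (l ++ [x]) = L ++ [x] := by rw [hx]; rfl
    rw [e, List.isChain_iff_getElem] at hch
    have h1 := hch i (by rw [List.length_append, List.length_singleton]; omega)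
    have h2 : (L ++ [x])[i]'(by rw [List.length_append]; omega) = a := by
      rw [List.getElem_append_left hi]; exact ha'
    have h3 : (L ++ [x])[i + 1]'(by rw [List.length_append, List.length_singleton]; omega) = b := by
      rcases Nat.lt_or_ge (i + 1) L.length with h4 | h4
      · rw [List.getElem_append_left h4, ← hb']
        congr 1
        rw [Nat.mod_eq_of_lt h4]
      · have h5 : i + 1 = L.length := by omega
        rw [List.getElem_append_right h4, ← hb']
        have h6 : (i + 1) % L.length = 0 := by rw [h5, Nat.mod_self]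
        have h7 : L[0]'(by omega) = x := by subst hx; rfl
        have h8 : L[(i + 1) % L.length]'hj = L[0]'(by omega) := by
          congr 1
        rw [h8, h7]
        simp
    rw [h2, h3] at h1
    exact h1

theorem final : ∀ r : ℕ, ∃ m : ℕ, ∀ n : ℕ, ∀ c : Fin n → Fin n → ℕ,
      (∀ u v, c u v = c v u) →
      (∑ v : Fin n, ((Finset.univ.erase v).image (c v)).card ≤ r * n) →
      ∃ k : ℕ, k ≤ m ∧ ∃ C : Fin k → List (Fin n),
        (∀ j : Fin k, (C j).Nodup ∧
          ∃ col : ℕ, ∀ i : ℕ, ∀ a b : Fin n,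
            (C j)[i]? = some a →
            (C j)[(i + 1) % (C j).length]? = some b →
            a ≠ b → c a b = col) ∧
        (∀ v : Fin n, ∃! j : Fin k, v ∈ C j) := by
  intro r
  obtain ⟨m, hm⟩ := mainCov (r + 1) (Nat.succ_pos r)
  refine ⟨m, ?_⟩
  intro n c hc hsum
  set col : Sym2 (Fin n) → ℕ := Sym2.lift ⟨c, hc⟩ with hcol
  have hcolv : ∀ u v, col s(u, v) = c u v := fun u v => rfl
  obtain ⟨𝒞, h1, h2, h3, h4⟩ := hm (Fin n) col (by
    rw [Fintype.card_fin]
    have e : ∀ v : Fin n, (fun u => col s(v, u)) = c v := fun v => rfl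
    simp only [e]
    refine hsum.trans ?_
    exact Nat.mul_le_mul_right _ (Nat.le_succ r))
  refine ⟨𝒞.length, h1, fun j => 𝒞[j], ?_, ?_⟩
  · intro j
    obtain ⟨i, hi⟩ := h2 𝒞[j] (List.getElem_mem _)
    refine ⟨hi.1, i, ?_⟩
    intro idx a b ha hb hab
    exact (cycConv _ _ hi idx a b ha hb hab).2
  · intro v
    obtain ⟨C, hC, hv⟩ := List.mem_flatten.1 ((h4 v).2 (Finset.mem_univ v))
    obtain ⟨j, hj, rfl⟩ := List.getElem_of_mem hC
    refine ⟨⟨j, hj⟩, hv, ?_⟩
    intro j' hj'
    have hp := (List.nodup_flatten.1 h3).2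
    rw [List.pairwise_iff_getElem] at hp
    by_contra hne
    have hne' : (j' : ℕ) ≠ j := fun h => hne (Fin.ext h)
    rcases lt_or_gt_of_ne hne' with h | h
    · exact hp j' j j'.2 hj h hj' hv
    · exact hp j j' hj j'.2 h hv hj'

end P10

end MeanCyc

/-- For every r there is m such that every edge colouring of K_n whose vertices see on average at most r colours admits a partition of the vertices into at most m monochromatic cycles (empty, single vertex, single edge allowed). -/
theorem result :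
    ∀ r : ℕ, ∃ m : ℕ, ∀ n : ℕ, ∀ c : Fin n → Fin n → ℕ,
      (∀ u v, c u v = c v u) →
      (∑ v : Fin n, ((Finset.univ.erase v).image (c v)).card ≤ r * n) →
      ∃ k : ℕ, k ≤ m ∧ ∃ C : Fin k → List (Fin n),
        (∀ j : Fin k, (C j).Nodup ∧
          ∃ col : ℕ, ∀ i : ℕ, ∀ a b : Fin n,
            (C j)[i]? = some a →
            (C j)[(i + 1) % (C j).length]? = some b →
            a ≠ b → c a b = col) ∧
        (∀ v : Fin n, ∃! j : Fin k, v ∈ C j) := by
  exact MeanCyc.final

end Pool.Agent.S07001
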