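import Pool.Statements.S07013
import Pool.Agent.Helper243.BoxK3

set_option autoImplicit false
open Pool Pool.MP_b918dd_co

namespace Pool.Agent.S07013

/-- For every finite simple cubic graph G with no bridge, the Cartesian product of G with K_3 has a 1-factorization: perfect matchings such that each edge lies in exactly one of them. -/
theorem result :
    ∀ (V : Type) [Fintype V] [DecidableEq V] (G : SimpleGraph V) [DecidableRel G.Adj],
      G.IsRegularOfDegree 3 →
      (∀ e : Sym2 V, ¬ G.IsBridge e) →
      ∃ (k : ℕ) (M : Fin k → (SimpleGraph.boxProd G (⊤ : SimpleGraph (Fin 3))).Subgraph),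
        (∀ i, (M i).IsPerfectMatching) ∧
        ∀ e ∈ (SimpleGraph.boxProd G (⊤ : SimpleGraph (Fin 3))).edgeSet,
          ∃! i, e ∈ (M i).edgeSet := by
  intro V _ _ G _ hreg hbr
  refine Pool.Agent.Helper243.BoxK3.one_factorization G hreg ?_
  intro u v _
  by_contra h
  exact hbr s(u, v) h

end Pool.Agent.S07013
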