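import Pool.Statements.S07022
import Pool.Agent.Helper256.Purdy
-- import your own Pool.Agent.* helpers here

set_option autoImplicit false
open Pool Pool.MP_b98776_co

namespace Pool.Agent.S07022

/-- The negation of the preceding statement: There is N such that for every set of at least N points in 3-space that is not coplanar, does not lie on two lines, and does not become coplanar after removing one point, the number of planes it spans is at least the number of lines it spans. -/
theorem result :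
    ¬ (∃ N : ℕ, ∀ S : Finset (EuclideanSpace ℝ (Fin 3)),
      N ≤ S.card →
      ¬ Coplanar ℝ (S : Set (EuclideanSpace ℝ (Fin 3))) →
      ¬ (∃ a b c d : EuclideanSpace ℝ (Fin 3),
          (S : Set (EuclideanSpace ℝ (Fin 3))) ⊆
            (affineSpan ℝ ({a, b} : Set (EuclideanSpace ℝ (Fin 3))) : Set (EuclideanSpace ℝ (Fin 3))) ∪
            (affineSpan ℝ ({c, d} : Set (EuclideanSpace ℝ (Fin 3))) : Set (EuclideanSpace ℝ (Fin 3)))) →
      ¬ (∃ x ∈ S, Coplanar ℝ ((S.erase x : Finset (EuclideanSpace ℝ (Fin 3))) : Set (EuclideanSpace ℝ (Fin 3)))) →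
      {L : AffineSubspace ℝ (EuclideanSpace ℝ (Fin 3)) |
          ∃ a ∈ S, ∃ b ∈ S, a ≠ b ∧
            L = affineSpan ℝ ({a, b} : Set (EuclideanSpace ℝ (Fin 3)))}.ncard ≤
      {P : AffineSubspace ℝ (EuclideanSpace ℝ (Fin 3)) |
          ∃ a ∈ S, ∃ b ∈ S, ∃ c ∈ S,
            ¬ Collinear ℝ ({a, b, c} : Set (EuclideanSpace ℝ (Fin 3))) ∧
            P = affineSpan ℝ ({a, b, c} : Set (EuclideanSpace ℝ (Fin 3)))}.ncard) := by
  open Pool.Agent.Helper256.Purdy in
  classical
  rintro ⟨N, hN⟩
  have hn : 5 ≤ N + 71 := by omega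
  have hcard : N ≤ (S (N + 71)).card := le_trans (by omega) (card_S (N + 71))
  have hne : ∀ p ∈ S (N + 71), ((S (N + 71)).erase p).Nonempty := by
    intro p hp
    rw [← Finset.card_pos, Finset.card_erase_of_mem hp]
    have := card_S (N + 71)
    omega
  have key := hN (S (N + 71)) hcard (not_coplanar _ hn)
    (fun ⟨a, b, c, d, h⟩ => not_two_lines _ hn a b c d h)
    (fun ⟨p, hp, hcp⟩ => not_coplanar_of_subset _ hn p _ (hne p hp) (by
      intro v hv
      by_cases hvp : v = p
      · left; exact hvp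
      · right; exact Finset.mem_coe.2 (Finset.mem_erase.2 ⟨hvp, hv⟩)) hcp)
  have hsub : {P : AffineSubspace ℝ (EuclideanSpace ℝ (Fin 3)) |
          ∃ a ∈ S (N + 71), ∃ b ∈ S (N + 71), ∃ c ∈ S (N + 71),
            ¬ Collinear ℝ ({a, b, c} : Set (EuclideanSpace ℝ (Fin 3))) ∧
            P = affineSpan ℝ ({a, b, c} : Set (EuclideanSpace ℝ (Fin 3)))} ⊆
              planes (S (N + 71)) := by
    rintro P ⟨a, ha, b, hb, c, hc, hnc, rfl⟩
    refine ⟨⟨{a, b, c}, ?_, rfl⟩, finrank_plane hnc⟩
    rintro v (rfl | rfl | rfl) <;> assumption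
  have hpf : (planes (S (N + 71))).Finite := (F (N + 71)).finite_toSet.subset (planes_subset _)
  have h1 := (Set.ncard_le_ncard hsub hpf).trans (ncard_planes (N + 71))
  have h3 : 6 * (N + 71) ≤ {L : AffineSubspace ℝ (EuclideanSpace ℝ (Fin 3)) |
          ∃ a ∈ S (N + 71), ∃ b ∈ S (N + 71), a ≠ b ∧
            L = affineSpan ℝ ({a, b} : Set (EuclideanSpace ℝ (Fin 3)))}.ncard := by
    apply ncard_lines
    · apply Set.Finite.subset (((S (N + 71)) ×ˢ (S (N + 71))).image
        (fun p => affineSpan ℝ ({p.1, p.2} : Set E3))).finite_toSet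
      rintro L ⟨a, ha, b, hb, _, rfl⟩
      rw [Finset.mem_coe, Finset.mem_image]
      exact ⟨(a, b), Finset.mem_product.2 ⟨ha, hb⟩, rfl⟩
    · intro i j hi hj
      exact ⟨x i, x_mem hi, u j, u_mem hj, x_ne_u i j, rfl⟩
  have h4 := h3.trans (key.trans h1)
  omega

end Pool.Agent.S07022
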