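import Pool.Statements.S07034
import Pool.Agent.Helper915.Scc

set_option autoImplicit false
open Classical
open Pool Pool.MP_ba3dea_co

namespace Pool.Agent.S07034

/-- The negation of the preceding statement: Every finite 3-vertex-connected simple graph has a cycle cover of minimum total length in which each edge lies in at most two of the cycles. -/
theorem result :
    ¬ (∀ (V : Type) [Fintype V] (G : SimpleGraph V),
      (3 < Fintype.card V ∧
        ∀ S : Finset V, S.card < 3 → (G.induce ((↑S : Set V)ᶜ)).Connected) →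
      ∃ F : List (Σ u : V, G.Walk u u),
        ((∀ c ∈ F, c.2.IsCycle) ∧
          ∀ e ∈ G.edgeSet, ∃ c ∈ F, e ∈ c.2.edges) ∧
        (∀ F' : List (Σ u : V, G.Walk u u),
          ((∀ c ∈ F', c.2.IsCycle) ∧
            ∀ e ∈ G.edgeSet, ∃ c ∈ F', e ∈ c.2.edges) →
          (F.map (fun c => c.2.length)).sum ≤ (F'.map (fun c => c.2.length)).sum) ∧
        ∀ e ∈ G.edgeSet, F.countP (fun c => decide (e ∈ c.2.edges)) ≤ 2) := by
  intro h
  obtain ⟨F, ⟨hF, hcov⟩, hmin, hmult⟩ := h (Fin 26) Pool.Agent.Helper915.Scc.G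
    Pool.Agent.Helper915.Scc.G_three_connected
  have h54 : (F.map (fun c => c.2.length)).sum ≤ 54 := by
    have h1 := hmin Pool.Agent.Helper915.Scc.fam
      ⟨Pool.Agent.Helper915.Scc.fam_cycles, Pool.Agent.Helper915.Scc.fam_covers⟩
    rw [Pool.Agent.Helper915.Scc.fam_length] at h1
    exact h1
  refine Pool.Agent.Helper915.Scc.main F hF ?_ h54
  intro e he
  have he' : e ∈ Pool.Agent.Helper915.Scc.G.edgeSet :=
    (Pool.Agent.Helper915.Scc.mem_edgeSet_iff e).2 he
  constructor
  · obtain ⟨c, hc, hec⟩ := hcov e he'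
    unfold Pool.Agent.Helper915.Walks.cov
    exact List.countP_pos_iff.2 ⟨c, hc, by simpa using hec⟩
  · have h2 := hmult e he'
    unfold Pool.Agent.Helper915.Walks.cov
    convert h2

end Pool.Agent.S07034
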