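import Pool.Statements.S07039
import Pool.Agent.Helper433.Main

set_option autoImplicit false
open Pool Pool.MP_ba5def_co

namespace Pool.Agent.S07039

/-- For every n ≥ 3 and ε > 0, for all large d, any finite set of at least 2^(εd) points in Euclidean d-space contains n points whose pairwise distances are all different. -/
theorem result :
    ∀ n : ℕ, 3 ≤ n → ∀ ε : ℝ, 0 < ε → ∃ D : ℕ, ∀ d : ℕ, D ≤ d →
      ∀ S : Finset (EuclideanSpace ℝ (Fin d)),
        (2 : ℝ) ^ (ε * (d : ℝ)) ≤ (S.card : ℝ) →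
        ∃ T : Finset (EuclideanSpace ℝ (Fin d)), T ⊆ S ∧ T.card = n ∧
          ∀ a ∈ T, ∀ b ∈ T, ∀ c ∈ T, ∀ e ∈ T, a ≠ b → c ≠ e →
            dist a b = dist c e → (a = c ∧ b = e) ∨ (a = e ∧ b = c) := by
  intro n _ ε hε
  obtain ⟨D, hD⟩ := Pool.Agent.Helper433.main_thm n ε hε
  refine ⟨D, fun d hd S hS => ?_⟩
  obtain ⟨T, hT, hTc, hTR⟩ := hD d hd S hS
  exact ⟨T, hT, hTc, hTR⟩

end Pool.Agent.S07039
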