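import Pool.Statements.S07041

set_option autoImplicit false
open Pool Pool.MP_ba7882_co

namespace Pool.Agent.S07041



section Core

variable {α : Type} [DecidableEq α]

/-- `g` is positively skew-supermodular on the subsets of `S`. -/
def PSS (S : Finset α) (g : Finset α → ℤ) : Prop :=
  ∀ X ⊆ S, ∀ Y ⊆ S, 0 < g X → 0 < g Y →
    g X + g Y ≤ g (X ∩ Y) + g (X ∪ Y) ∨ g X + g Y ≤ g (X \ Y) + g (Y \ X)

/-- number of elements of `X` of height at least `t` -/
def upc (h : α → ℕ) (t : ℕ) (X : Finset α) : ℤ := ∑ x ∈ X, if t ≤ h x then (1 : ℤ) else 0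

/-- the height function `h` is admissible for `g` -/
def OK (S : Finset α) (g : Finset α → ℤ) (h : α → ℕ) : Prop :=
  ∀ X ⊆ S, ∀ t : ℕ, g X ≤ t + upc h t X

lemma upc_nonneg (h : α → ℕ) (t : ℕ) (X : Finset α) : 0 ≤ upc h t X :=
  Finset.sum_nonneg (fun x _ => by split_ifs <;> simp)

lemma upc_split (h : α → ℕ) (t : ℕ) (X Y : Finset α) :
    upc h t X = upc h t (X ∩ Y) + upc h t (X \ Y) :=
  (Finset.sum_inter_add_sum_sdiff X Y _).symm

lemma upc_union (h : α → ℕ) (t : ℕ) (X Y : Finset α) :
    upc h t (X ∪ Y) = upc h t Y + upc h t (X \ Y) := by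
  unfold upc
  rw [← Finset.sdiff_union_self_eq_union, Finset.sum_union Finset.sdiff_disjoint, add_comm]

lemma upc_anti (h : α → ℕ) {t u : ℕ} (htu : t ≤ u) (X : Finset α) : upc h u X ≤ upc h t X := by
  apply Finset.sum_le_sum
  intro x _
  split_ifs <;> first | omega | norm_num

lemma upc_mono (h : α → ℕ) (t : ℕ) {X Y : Finset α} (hXY : X ⊆ Y) : upc h t X ≤ upc h t Y := by
  apply Finset.sum_le_sum_of_subset_of_nonneg hXY
  intro x _ _
  split_ifs <;> simp

lemma one_le_upc (h : α → ℕ) {t : ℕ} {X : Finset α} {x : α} (hx : x ∈ X) (ht : t ≤ h x) :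
    1 ≤ upc h t X := by
  have := upc_mono h t (Finset.singleton_subset_iff.mpr hx)
  have h2 : upc h t {x} = 1 := by rw [upc, Finset.sum_singleton, if_pos ht]
  linarith

lemma pos_of_tight {g : Finset α → ℤ} {h : α → ℕ} {X : Finset α} {t : ℕ} (hX : X.Nonempty)
    (ht : g X = t + upc h t X) : 0 < g X := by
  obtain ⟨x, hx⟩ := hX
  rcases Nat.eq_zero_or_pos t with h0 | h0
  · subst h0
    have := one_le_upc h hx (Nat.zero_le (h x))
    rw [ht]; push_cast; linarith
  · have := upc_nonneg h t X
    rw [ht]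
    have : (0 : ℤ) < t := by exact_mod_cast h0
    linarith

lemma cross {S : Finset α} {g : Finset α → ℤ} {h : α → ℕ} (hp : PSS S g) (hok : OK S g h)
    {X Y : Finset α} (hX : X ⊆ S) (hY : Y ⊆ S) {t u : ℕ} (htu : t ≤ u)
    (nX : X.Nonempty) (nY : Y.Nonempty)
    (tX : g X = t + upc h t X) (tY : g Y = u + upc h u Y) :
    ((∀ x ∈ X \ Y, t ≤ h x → u ≤ h x) ∧ g (X ∩ Y) = t + upc h t (X ∩ Y) ∧
      g (X ∪ Y) = u + upc h u (X ∪ Y)) ∨
    ((∀ x ∈ X ∩ Y, h x < t) ∧ g (X \ Y) = t + upc h t (X \ Y) ∧
      g (Y \ X) = u + upc h u (Y \ X)) := by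
  have a1 := hok (X ∩ Y) (Finset.inter_subset_left.trans hX) t
  have a2 := hok (X ∪ Y) (Finset.union_subset hX hY) u
  have b1 := hok (X \ Y) (Finset.sdiff_subset.trans hX) t
  have b2 := hok (Y \ X) (Finset.sdiff_subset.trans hY) u
  have c1 := upc_split h t X Y
  have c2 := upc_union h u X Y
  have c3 := upc_anti h htu (X \ Y)
  have c4 := upc_split h u Y X
  have c5 := upc_nonneg h t (X ∩ Y)
  have c6 := upc_nonneg h u (Y ∩ X)
  rcases hp X hX Y hY (pos_of_tight nX tX) (pos_of_tight nY tY) with hA | hB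
  · left
    have e : upc h u (X \ Y) = upc h t (X \ Y) := by linarith
    refine ⟨?_, by linarith, by linarith⟩
    intro x hx hxt
    by_contra hlt
    have : upc h u (X \ Y) < upc h t (X \ Y) := by
      apply Finset.sum_lt_sum
      · intro y _
        split_ifs <;> first | omega | simp
      · refine ⟨x, hx, ?_⟩
        rw [if_neg hlt, if_pos hxt]
        norm_num
    linarith
  · right
    have e1 : upc h t (X ∩ Y) = 0 := by linarith
    refine ⟨?_, by linarith, by linarith⟩
    intro x hx
    by_contra hlt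
    have := one_le_upc h hx (not_lt.mp hlt)
    linarith

/-- the structure of a minimal admissible height function -/
structure Lam (S : Finset α) (g : Finset α → ℤ) (h : α → ℕ) (M : α → Finset α) : Prop where
  pss : PSS S g
  ok : OK S g h
  sub : ∀ s ∈ S, M s ⊆ S
  mem : ∀ s ∈ S, s ∈ M s
  tight : ∀ s ∈ S, g (M s) = h s + upc h (h s) (M s)
  min : ∀ s ∈ S, ∀ X ⊆ M s, s ∈ X → g X = h s + upc h (h s) X → X = M s

variable {S : Finset α} {g : Finset α → ℤ} {h : α → ℕ} {M : α → Finset α}

lemma Lam.sub_of_tight (L : Lam S g h M) {s : α} (hs : s ∈ S) {X : Finset α} (hX : X ⊆ S)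
    (hsX : s ∈ X) {u : ℕ} (hu : h s ≤ u) (tX : g X = u + upc h u X) : M s ⊆ X := by
  rcases cross L.pss L.ok (L.sub s hs) hX hu ⟨s, L.mem s hs⟩ ⟨s, hsX⟩ (L.tight s hs) tX with
    ⟨_, h2, _⟩ | ⟨h1, _, _⟩
  · have := L.min s hs (M s ∩ X) Finset.inter_subset_left
      (Finset.mem_inter.mpr ⟨L.mem s hs, hsX⟩) h2
    exact Finset.inter_eq_left.mp this
  · have := h1 s (Finset.mem_inter.mpr ⟨L.mem s hs, hsX⟩)
    omega

lemma Lam.not_two (L : Lam S g h M) {X : Finset α} (hX : X ⊆ S) {t : ℕ}
    (tX : g X = t + upc h t X) {s s' : α} (hs : s ∈ X) (hs' : s' ∈ X) (hne : s ≠ s')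
    (h1 : h s = t) (h2 : h s' = t) : False := by
  have a := L.ok X hX (t + 1)
  have b : upc h (t + 1) X + 2 ≤ upc h t X := by
    have e : upc h t X - upc h (t + 1) X =
        ∑ x ∈ X, ((if t ≤ h x then (1 : ℤ) else 0) - (if t + 1 ≤ h x then (1 : ℤ) else 0)) := by
      unfold upc
      rw [Finset.sum_sub_distrib]
    have f : ∑ x ∈ ({s, s'} : Finset α),
        ((if t ≤ h x then (1 : ℤ) else 0) - (if t + 1 ≤ h x then (1 : ℤ) else 0)) ≤
        ∑ x ∈ X, ((if t ≤ h x then (1 : ℤ) else 0) - (if t + 1 ≤ h x then (1 : ℤ) else 0)) := by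
      apply Finset.sum_le_sum_of_subset_of_nonneg
      · intro x hx
        simp only [Finset.mem_insert, Finset.mem_singleton] at hx
        rcases hx with rfl | rfl <;> assumption
      · intro x _ _
        split_ifs <;> first | omega | simp
    have f2 : ∑ x ∈ ({s, s'} : Finset α),
        ((if t ≤ h x then (1 : ℤ) else 0) - (if t + 1 ≤ h x then (1 : ℤ) else 0)) = 2 := by
      rw [Finset.sum_pair hne, h1, h2, if_pos le_rfl, if_neg (by omega)]
      norm_num
    linarith
  push_cast at a
  linarith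

lemma Lam.levels (L : Lam S g h M) {t : ℕ} : ∀ {X : Finset α}, X ⊆ S →
    g X = t + upc h t X → ∀ j < t, ∃ x ∈ X, h x = j := by
  induction t with
  | zero => intro X _ _ j hj; omega
  | succ t ih =>
    intro X hX tX j hj
    have a := L.ok X hX t
    have key : ∃ x ∈ X, h x = t := by
      by_contra hno
      push Not at hno
      have : upc h t X = upc h (t + 1) X := by
        apply Finset.sum_congr rfl
        intro x hx
        have := hno x hx
        split_ifs <;> first | omega | rfl
      push_cast at tX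
      linarith
    rcases Nat.lt_succ_iff_lt_or_eq.mp hj with hj' | hj'
    · obtain ⟨x, hx, hxt⟩ := key
      have hMX : M x ⊆ X := L.sub_of_tight (hX hx) hX hx (by omega) tX
      have hT := L.tight x (hX hx)
      rw [hxt] at hT
      obtain ⟨y, hy, hyj⟩ := ih (L.sub x (hX hx)) hT j hj'
      exact ⟨y, hMX hy, hyj⟩
    · subst hj'
      exact key

lemma Lam.laminar (L : Lam S g h M) {s s' : α} (hs : s ∈ S) (hs' : s' ∈ S) (hne : s ≠ s')
    (hle : h s ≤ h s') {x : α} (hx : x ∈ M s) (hx' : x ∈ M s') : s ∈ M s' ∧ h s < h s' := by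
  rcases cross L.pss L.ok (L.sub s hs) (L.sub s' hs') hle ⟨x, hx⟩ ⟨x, hx'⟩ (L.tight s hs)
    (L.tight s' hs') with ⟨h1, h2, h3⟩ | ⟨h1, h2, h3⟩
  · rcases hle.lt_or_eq with hlt | heq
    · refine ⟨?_, hlt⟩
      by_contra hn
      have := h1 s (Finset.mem_sdiff.mpr ⟨L.mem s hs, hn⟩) le_rfl
      omega
    · exact (L.not_two (Finset.union_subset (L.sub s hs) (L.sub s' hs')) h3
        (Finset.mem_union_left _ (L.mem s hs)) (Finset.mem_union_right _ (L.mem s' hs')) hne
        heq rfl).elim
  · exfalso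
    by_cases hsm : s ∈ M s'
    · have := h1 s (Finset.mem_inter.mpr ⟨L.mem s hs, hsm⟩)
      omega
    · have := L.min s hs (M s \ M s') Finset.sdiff_subset
        (Finset.mem_sdiff.mpr ⟨L.mem s hs, hsm⟩) h2
      have hx2 : x ∈ M s \ M s' := by rw [this]; exact hx
      exact (Finset.mem_sdiff.mp hx2).2 hx'

/-- the order given by the laminar structure -/
def Prec (h : α → ℕ) (M : α → Finset α) (z s : α) : Prop := z ∈ M s ∧ h z < h s

lemma Lam.trans (L : Lam S g h M) {x y z : α} (hy : y ∈ S) (hz : z ∈ S)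
    (h1 : Prec h M x y) (h2 : Prec h M y z) : Prec h M x z := by
  have : M y ⊆ M z := L.sub_of_tight hy (L.sub z hz) h2.1 h2.2.le (L.tight z hz)
  exact ⟨this h1.1, h1.2.trans h2.2⟩

lemma Lam.claimC (L : Lam S g h M) {Z : Finset α} (hZS : Z ⊆ S)
    (hZ : ∀ z ∈ Z, ∀ z' ∈ Z, ¬ Prec h M z z') (n : ℕ) :
    ∀ (X : Finset α) (t : ℕ) (W : Finset α), X ⊆ S → W.card = n → W ⊆ Z → W ⊆ X →
      (∀ w ∈ W, t ≤ h w) → (∀ w ∈ W, ∃ j < t, ∀ x ∈ X, x ∈ M w → h x ≠ j) →
      g X + n ≤ t + upc h t X := by
  induction n with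
  | zero =>
    intro X t W hX _ _ _ _ _
    have := L.ok X hX t
    push_cast
    linarith
  | succ n ih =>
    intro X t W hX hWn hWZ hWX hWt hWj
    have hWne : W.Nonempty := Finset.card_pos.mp (by omega)
    obtain ⟨z, hz, hzmin⟩ := Finset.exists_min_image W h hWne
    have hzZ := hWZ hz
    have hzS := hZS hzZ
    have hzX := hWX hz
    -- disjointness of the sets `M w`
    have hdis : ∀ w ∈ W, w ≠ z → ∀ x, x ∈ M w → x ∈ M z → False := by
      intro w hw hwz x hxw hxz
      have := L.laminar hzS (hZS (hWZ hw)) (Ne.symm hwz) (hzmin w hw) hxz hxw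
      exact hZ z hzZ w (hWZ hw) this
    by_cases hpos : 0 < g X
    · have tY := L.tight z hzS
      have hYS := L.sub z hzS
      have hYpos := pos_of_tight ⟨z, L.mem z hzS⟩ tY
      have hcard : (W.erase z).card = n := by
        rw [Finset.card_erase_of_mem hz]; omega
      rcases L.pss X hX (M z) hYS hpos hYpos with hA | hB
      · -- union case
        have i1 : g (X ∩ M z) ≤ t + upc h t (X ∩ M z) - 1 := by
          have a := L.ok (X ∩ M z) (Finset.inter_subset_left.trans hX) t
          rcases a.lt_or_eq with a | a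
          · linarith
          · exfalso
            obtain ⟨j, hj, hjx⟩ := hWj z hz
            obtain ⟨x, hx, hxj⟩ := L.levels (Finset.inter_subset_left.trans hX) a j hj
            rw [Finset.mem_inter] at hx
            exact hjx x hx.1 hx.2 hxj
        have i2 := ih (X ∪ M z) (h z) (W.erase z) (Finset.union_subset hX hYS) hcard
          ((Finset.erase_subset _ _).trans hWZ)
          (((Finset.erase_subset _ _).trans hWX).trans Finset.subset_union_left)
          (fun w hw => hzmin w (Finset.mem_of_mem_erase hw))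
          (by
            intro w hw
            obtain ⟨hw1, hw2⟩ := Finset.mem_erase.mp hw
            obtain ⟨j, hj, hjx⟩ := hWj w hw2
            refine ⟨j, lt_of_lt_of_le hj (hWt z hz), ?_⟩
            intro x hx hxw
            rcases Finset.mem_union.mp hx with hx | hx
            · exact hjx x hx hxw
            · exact (hdis w hw2 hw1 x hxw hx).elim)
        have c1 := upc_split h t X (M z)
        have c2 := upc_union h (h z) X (M z)
        have c3 := upc_anti h (hWt z hz) (X \ M z)
        push_cast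
        linarith
      · -- difference case
        have i1 := L.ok (M z \ X) (Finset.sdiff_subset.trans hYS) (h z)
        have i2 := ih (X \ M z) t (W.erase z) (Finset.sdiff_subset.trans hX) hcard
          ((Finset.erase_subset _ _).trans hWZ)
          (by
            intro w hw
            obtain ⟨hw1, hw2⟩ := Finset.mem_erase.mp hw
            rw [Finset.mem_sdiff]
            exact ⟨hWX hw2, fun hwz => hdis w hw2 hw1 w (L.mem w (hZS (hWZ hw2))) hwz⟩)
          (fun w hw => hWt w (Finset.mem_of_mem_erase hw))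
          (by
            intro w hw
            obtain ⟨hw1, hw2⟩ := Finset.mem_erase.mp hw
            obtain ⟨j, hj, hjx⟩ := hWj w hw2
            exact ⟨j, hj, fun x hx hxw => hjx x (Finset.mem_sdiff.mp hx).1 hxw⟩)
        have c1 := upc_split h t X (M z)
        have c2 := upc_split h (h z) (M z) X
        have c3 : 1 ≤ upc h (h z) (M z ∩ X) :=
          one_le_upc h (Finset.mem_inter.mpr ⟨L.mem z hzS, hzX⟩) le_rfl
        have c4 := upc_nonneg h t (X ∩ M z)
        push_cast
        linarith
    · have : (W.card : ℤ) ≤ upc h t X := by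
        have e : (W.card : ℤ) = upc h t W := by
          unfold upc
          rw [Finset.sum_congr rfl (fun x hx => if_pos (hWt x hx))]
          simp
        rw [e]
        exact upc_mono h t hWX
      rw [hWn] at this
      push_cast at this ⊢
      have : (0 : ℤ) ≤ t := by positivity
      linarith

/-- the upper closure of `Z` -/
def UpC (h : α → ℕ) (M : α → Finset α) (Z : Finset α) (x : α) : Prop :=
  x ∈ Z ∨ ∃ z ∈ Z, Prec h M z x

open Classical in
lemma Lam.packing (L : Lam S g h M) {Z : Finset α} (hZS : Z ⊆ S)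
    (hZ : ∀ z ∈ Z, ∀ z' ∈ Z, ¬ Prec h M z z') (X : Finset α) (hX : X ⊆ S) (t : ℕ) :
    g X + upc h (t + 1) (X ∩ Z) ≤ (t + 1 : ℕ) + upc h (t + 1) X +
      (X.filter (fun x => h x = t ∧ ¬ UpC h M Z x)).card := by
  set A := (X ∩ Z).filter (fun z => t + 1 ≤ h z) with hA
  set W := A.filter (fun z => ∀ x ∈ X, x ∈ M z → h x ≠ t) with hW
  set V := A.filter (fun z => ¬ ∀ x ∈ X, x ∈ M z → h x ≠ t) with hV
  have hAc : upc h (t + 1) (X ∩ Z) = (A.card : ℤ) := by
    unfold upc
    rw [hA, Finset.card_filter]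
    push_cast
    rfl
  have hsum : W.card + V.card = A.card := Finset.card_filter_add_card_filter_not _
  have h1 := L.claimC hZS hZ W.card X (t + 1) W hX rfl
    (fun w hw => (Finset.mem_inter.mp (Finset.mem_filter.mp (Finset.mem_filter.mp hw).1).1).2)
    (fun w hw => (Finset.mem_inter.mp (Finset.mem_filter.mp (Finset.mem_filter.mp hw).1).1).1)
    (fun w hw => (Finset.mem_filter.mp (Finset.mem_filter.mp hw).1).2)
    (fun w hw => ⟨t, Nat.lt_succ_self t, (Finset.mem_filter.mp hw).2⟩)
  have h2 : V.card ≤ (X.filter (fun x => h x = t ∧ ¬ UpC h M Z x)).card := by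
    have hex : ∀ z ∈ V, ∃ x, x ∈ X ∧ x ∈ M z ∧ h x = t := by
      intro z hz
      have := (Finset.mem_filter.mp hz).2
      push Not at this
      obtain ⟨x, hx1, hx2, hx3⟩ := this
      exact ⟨x, hx1, hx2, hx3⟩
    choose! f hf using hex
    apply Finset.card_le_card_of_injOn f
    · intro z hz
      have hzA := (Finset.mem_filter.mp (Finset.mem_coe.mp hz)).1
      have hzZ := (Finset.mem_inter.mp (Finset.mem_filter.mp hzA).1).2
      have hzh := (Finset.mem_filter.mp hzA).2
      obtain ⟨a1, a2, a3⟩ := hf z hz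
      rw [Finset.mem_coe, Finset.mem_filter]
      refine ⟨a1, a3, ?_⟩
      have hp : Prec h M (f z) z := ⟨a2, by omega⟩
      rintro (hu | ⟨z', hz', hu⟩)
      · exact hZ _ hu z hzZ hp
      · exact hZ z' hz' z hzZ (L.trans (hX a1) (hZS hzZ) hu hp)
    · intro z hz z' hz' heq
      by_contra hne
      have hzA := (Finset.mem_filter.mp (Finset.mem_coe.mp hz)).1
      have hzZ := (Finset.mem_inter.mp (Finset.mem_filter.mp hzA).1).2
      have hzA' := (Finset.mem_filter.mp (Finset.mem_coe.mp hz')).1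
      have hzZ' := (Finset.mem_inter.mp (Finset.mem_filter.mp hzA').1).2
      obtain ⟨a1, a2, a3⟩ := hf z hz
      obtain ⟨b1, b2, b3⟩ := hf z' hz'
      rw [← heq] at b2
      rcases le_total (h z) (h z') with hle | hle
      · exact hZ z hzZ z' hzZ' (L.laminar (hZS hzZ) (hZS hzZ') hne hle a2 b2)
      · exact hZ z' hzZ' z hzZ (L.laminar (hZS hzZ') (hZS hzZ) (Ne.symm hne) hle b2 a2)
  rw [hAc, ← hsum]
  push_cast at h1 ⊢
  have h2' : (V.card : ℤ) ≤ ((X.filter (fun x => h x = t ∧ ¬ UpC h M Z x)).card : ℤ) := by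
    exact_mod_cast h2
  linarith

lemma Lam.hitting (L : Lam S g h M) {Z : Finset α} (hZS : Z ⊆ S) (X : Finset α) (hX : X ⊆ S)
    (t : ℕ) (hXZ : ∀ x ∈ X, x ∉ Z) (hU : ∀ x ∈ X, h x = t → UpC h M Z x) :
    g X ≤ t + upc h (t + 1) X := by
  have a := L.ok X hX (t + 1)
  rcases a.lt_or_eq with a | a
  · push_cast at a
    linarith
  · exfalso
    obtain ⟨x, hx, hxt⟩ := L.levels hX a t (Nat.lt_succ_self t)
    rcases hU x hx hxt with hu | ⟨z, hz, hzx⟩
    · exact hXZ x hx hu
    · have : M x ⊆ X := L.sub_of_tight (hX hx) hX hx (by omega) a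
      exact hXZ z (this hzx.1) hz

/-- the residual function -/
noncomputable def res (g : Finset α → ℤ) (Z : Finset α) (δ : Finset α → ℤ) (X : Finset α) : ℤ :=
  Z.powerset.sup' ⟨∅, Finset.empty_mem_powerset Z⟩ (fun W => g (X ∪ W) - δ W)

lemma le_res (g : Finset α → ℤ) (Z : Finset α) (δ : Finset α → ℤ) (X : Finset α)
    {W : Finset α} (hW : W ⊆ Z) : g (X ∪ W) - δ W ≤ res g Z δ X :=
  Finset.le_sup' (fun W => g (X ∪ W) - δ W) (Finset.mem_powerset.mpr hW)

lemma exists_res (g : Finset α → ℤ) (Z : Finset α) (δ : Finset α → ℤ) (X : Finset α) :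
    ∃ W ⊆ Z, res g Z δ X = g (X ∪ W) - δ W := by
  obtain ⟨W, hW, h⟩ := Finset.exists_mem_eq_sup' (⟨∅, Finset.empty_mem_powerset Z⟩ :
    Z.powerset.Nonempty) (fun W => g (X ∪ W) - δ W)
  exact ⟨W, Finset.mem_powerset.mp hW, h⟩

lemma PSS.res (hg : PSS S g) {Z : Finset α} (hZ : Z ⊆ S) (δ : Finset α → ℤ)
    (h0 : ∀ W, 0 ≤ δ W) (h1 : ∀ W W', δ (W ∩ W') + δ (W ∪ W') ≤ δ W + δ W')
    (h2 : ∀ W W', δ (W \ W') + δ (W' \ W) ≤ δ W + δ W') :
    PSS (S \ Z) (S07041.res g Z δ) := by
  intro X hX Y hY pX pY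
  obtain ⟨W, hW, eW⟩ := exists_res g Z δ X
  obtain ⟨W', hW', eW'⟩ := exists_res g Z δ Y
  have dX : ∀ x ∈ X, x ∉ Z := fun x hx => (Finset.mem_sdiff.mp (hX hx)).2
  have dY : ∀ x ∈ Y, x ∉ Z := fun x hx => (Finset.mem_sdiff.mp (hY hx)).2
  have sX : X ∪ W ⊆ S := Finset.union_subset (hX.trans Finset.sdiff_subset) (hW.trans hZ)
  have sY : Y ∪ W' ⊆ S := Finset.union_subset (hY.trans Finset.sdiff_subset) (hW'.trans hZ)
  have p1 : 0 < g (X ∪ W) := by have := h0 W; linarith
  have p2 : 0 < g (Y ∪ W') := by have := h0 W'; linarith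
  rcases hg _ sX _ sY p1 p2 with hA | hB
  · left
    have e1 : (X ∪ W) ∩ (Y ∪ W') = (X ∩ Y) ∪ (W ∩ W') := by
      ext x
      simp only [Finset.mem_inter, Finset.mem_union]
      constructor
      · rintro ⟨a | a, b | b⟩
        · exact Or.inl ⟨a, b⟩
        · exact (dX x a (hW' b)).elim
        · exact (dY x b (hW a)).elim
        · exact Or.inr ⟨a, b⟩
      · rintro (⟨a, b⟩ | ⟨a, b⟩)
        · exact ⟨Or.inl a, Or.inl b⟩
        · exact ⟨Or.inr a, Or.inr b⟩
    have e2 : (X ∪ W) ∪ (Y ∪ W') = (X ∪ Y) ∪ (W ∪ W') := by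
      ext x
      simp only [Finset.mem_union]
      tauto
    rw [e1, e2] at hA
    have l1 := le_res g Z δ (X ∩ Y) (Finset.inter_subset_left.trans hW : W ∩ W' ⊆ Z)
    have l2 := le_res g Z δ (X ∪ Y) (Finset.union_subset hW hW')
    have := h1 W W'
    linarith
  · right
    have e1 : (X ∪ W) \ (Y ∪ W') = (X \ Y) ∪ (W \ W') := by
      ext x
      simp only [Finset.mem_sdiff, Finset.mem_union]
      constructor
      · rintro ⟨a | a, b⟩
        · exact Or.inl ⟨a, fun c => b (Or.inl c)⟩
        · exact Or.inr ⟨a, fun c => b (Or.inr c)⟩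
      · rintro (⟨a, b⟩ | ⟨a, b⟩)
        · refine ⟨Or.inl a, ?_⟩
          rintro (c | c)
          · exact b c
          · exact dX x a (hW' c)
        · refine ⟨Or.inr a, ?_⟩
          rintro (c | c)
          · exact dY x c (hW a)
          · exact b c
    have e2 : (Y ∪ W') \ (X ∪ W) = (Y \ X) ∪ (W' \ W) := by
      ext x
      simp only [Finset.mem_sdiff, Finset.mem_union]
      constructor
      · rintro ⟨a | a, b⟩
        · exact Or.inl ⟨a, fun c => b (Or.inl c)⟩
        · exact Or.inr ⟨a, fun c => b (Or.inr c)⟩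
      · rintro (⟨a, b⟩ | ⟨a, b⟩)
        · refine ⟨Or.inl a, ?_⟩
          rintro (c | c)
          · exact b c
          · exact dY x a (hW c)
        · refine ⟨Or.inr a, ?_⟩
          rintro (c | c)
          · exact dX x c (hW' a)
          · exact b c
    rw [e1, e2] at hB
    have l1 := le_res g Z δ (X \ Y) (Finset.sdiff_subset.trans hW : W \ W' ⊆ Z)
    have l2 := le_res g Z δ (Y \ X) (Finset.sdiff_subset.trans hW' : W' \ W ⊆ Z)
    have := h2 W W'
    linarith

/-- the cost of using a new colour on `W` -/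
def one (W : Finset α) : ℤ := if W = ∅ then 0 else 1

lemma one_nonneg (W : Finset α) : 0 ≤ one W := by unfold one; split_ifs <;> norm_num

lemma one_inter_union (W W' : Finset α) : one (W ∩ W') + one (W ∪ W') ≤ one W + one W' := by
  unfold one
  by_cases h1 : W = ∅
  · subst h1; simp
  · by_cases h2 : W' = ∅
    · subst h2; simp
    · rw [if_neg h1, if_neg h2]
      split_ifs <;> norm_num

lemma one_sdiff (W W' : Finset α) : one (W \ W') + one (W' \ W) ≤ one W + one W' := by
  unfold one
  by_cases h1 : W = ∅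
  · subst h1; simp
  · by_cases h2 : W' = ∅
    · subst h2; simp
    · rw [if_neg h1, if_neg h2]
      split_ifs <;> norm_num

/-- lowering the heights above `Z` keeps admissibility for the residual function -/
lemma Lam.residual (L : Lam S g h M) {Z : Finset α} (hZS : Z ⊆ S)
    (hZ : ∀ z ∈ Z, ∀ z' ∈ Z, ¬ Prec h M z z') (h' : α → ℕ)
    (hh1 : ∀ x ∈ S \ Z, h x ≤ h' x + 1)
    (hh2 : ∀ x ∈ S \ Z, (¬ ∃ z ∈ Z, Prec h M z x) → h x ≤ h' x) :
    OK (S \ Z) (S07041.res g Z one) h' := by
  classical
  intro X hX t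
  have hXS : X ⊆ S := hX.trans Finset.sdiff_subset
  have dX : ∀ x ∈ X, x ∉ Z := fun x hx => (Finset.mem_sdiff.mp (hX hx)).2
  obtain ⟨W, hW, eW⟩ := exists_res g Z one X
  rw [eW]
  set N := X.filter (fun x => h x = t ∧ ¬ UpC h M Z x) with hN
  have key : upc h (t + 1) X + N.card ≤ upc h' t X := by
    rw [hN, Finset.card_filter]
    push_cast
    unfold upc
    rw [← Finset.sum_add_distrib]
    apply Finset.sum_le_sum
    intro x hx
    by_cases hxt : h x = t ∧ ¬ UpC h M Z x
    · have h3 : h x ≤ h' x := hh2 x (hX hx) (fun hz => hxt.2 (Or.inr hz))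
      rw [if_pos hxt, if_neg (by omega), if_pos (by omega)]
      norm_num
    · rw [if_neg hxt]
      have h4 := hh1 x (hX hx)
      by_cases h5 : t + 1 ≤ h x
      · rw [if_pos h5, if_pos (by omega)]
        norm_num
      · rw [if_neg h5]
        split_ifs <;> norm_num
  by_cases hWe : W = ∅
  · subst hWe
    rw [Finset.union_empty]
    have : one (∅ : Finset α) = 0 := by simp [one]
    rw [this, sub_zero]
    by_cases hNe : N = ∅
    · have hU : ∀ x ∈ X, h x = t → UpC h M Z x := by
        intro x hx hxt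
        by_contra hn
        have : x ∈ N := Finset.mem_filter.mpr ⟨hx, hxt, hn⟩
        rw [hNe] at this
        exact Finset.notMem_empty x this
      have := L.hitting hZS X hXS t dX hU
      have hc : (0 : ℤ) ≤ N.card := by positivity
      linarith
    · have hc : 1 ≤ (N.card : ℤ) := by
        have := Finset.card_pos.mpr (Finset.nonempty_iff_ne_empty.mpr hNe)
        exact_mod_cast this
      have := L.ok X hXS (t + 1)
      push_cast at this
      linarith
  · have h1 : one W = 1 := by simp [one, hWe]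
    rw [h1]
    have hp := L.packing hZS hZ (X ∪ W) (Finset.union_subset hXS (hW.trans hZS)) t
    have e1 : (X ∪ W) ∩ Z = W := by
      ext x
      simp only [Finset.mem_inter, Finset.mem_union]
      constructor
      · rintro ⟨a | a, b⟩
        · exact (dX x a b).elim
        · exact a
      · intro a
        exact ⟨Or.inr a, hW a⟩
    have e2 : (X ∪ W).filter (fun x => h x = t ∧ ¬ UpC h M Z x) = N := by
      ext x
      simp only [hN, Finset.mem_filter, Finset.mem_union]
      constructor
      · rintro ⟨a | a, b⟩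
        · exact ⟨a, b⟩
        · exact (b.2 (Or.inl (hW a))).elim
      · rintro ⟨a, b⟩
        exact ⟨Or.inl a, b⟩
    have e3 : W \ X = W := by
      apply Finset.sdiff_eq_self_of_disjoint
      rw [Finset.disjoint_left]
      intro x hx hx'
      exact dX x hx' (hW hx)
    have e4 := upc_union h (t + 1) W X
    rw [Finset.union_comm, e3] at e4
    rw [e1, e2, e4] at hp
    push_cast at hp
    linarith

lemma exists_lam (hp : PSS S g) (hsing : ∀ s ∈ S, 1 ≤ g {s}) (n : ℕ) :
    ∀ h : α → ℕ, ∑ s ∈ S, h s = n → OK S g h →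
      ∃ (h' : α → ℕ) (M : α → Finset α), (∀ s, h' s ≤ h s) ∧ Lam S g h' M := by
  induction n using Nat.strong_induction_on with
  | _ n ih =>
    intro h hn hok
    by_cases hP : ∀ s ∈ S, ∃ X, X ⊆ S ∧ s ∈ X ∧ g X = h s + upc h (h s) X
    · have hex : ∀ s ∈ S, ∃ X, (X ⊆ S ∧ s ∈ X ∧ g X = h s + upc h (h s) X) ∧
          ∀ Y ⊆ X, s ∈ Y → g Y = h s + upc h (h s) Y → Y = X := by
        intro s hs
        have hne : (S.powerset.filter (fun X => s ∈ X ∧ g X = h s + upc h (h s) X)).Nonempty := by
          obtain ⟨X, h1, h2, h3⟩ := hP s hs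
          exact ⟨X, Finset.mem_filter.mpr ⟨Finset.mem_powerset.mpr h1, h2, h3⟩⟩
        obtain ⟨X, hX, hmin⟩ := Finset.exists_min_image _ Finset.card hne
        rw [Finset.mem_filter, Finset.mem_powerset] at hX
        refine ⟨X, hX, ?_⟩
        intro Y hYX hsY hY
        have := hmin Y (Finset.mem_filter.mpr
          ⟨Finset.mem_powerset.mpr (hYX.trans hX.1), hsY, hY⟩)
        exact Finset.eq_of_subset_of_card_le hYX this
      choose! M hM using hex
      exact ⟨h, M, fun s => le_rfl, ⟨hp, hok, fun s hs => (hM s hs).1.1, fun s hs => (hM s hs).1.2.1,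
        fun s hs => (hM s hs).1.2.2, fun s hs => (hM s hs).2⟩⟩
    · push Not at hP
      obtain ⟨s, hs, hno⟩ := hP
      have hpos : 1 ≤ h s := by
        by_contra h0
        have h0' : h s = 0 := by omega
        apply hno {s} (Finset.singleton_subset_iff.mpr hs) (Finset.mem_singleton_self s)
        have a := hok {s} (Finset.singleton_subset_iff.mpr hs) 0
        have b := hsing s hs
        rw [h0']
        have e : upc h 0 {s} = 1 := by
          rw [upc, Finset.sum_singleton, if_pos (Nat.zero_le _)]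
        rw [e] at a ⊢
        push_cast at a ⊢
        linarith
      set k : α → ℕ := Function.update h s (h s - 1) with hk
      have ks : k s = h s - 1 := by rw [hk, Function.update_self]
      have kn : ∀ x, x ≠ s → k x = h x := by
        intro x hx
        rw [hk, Function.update_of_ne hx]
      have kle : ∀ x, k x ≤ h x := by
        intro x
        by_cases hx : x = s
        · rw [hx, ks]; omega
        · rw [kn x hx]
      have hsum : ∑ x ∈ S, k x < n := by
        rw [← hn]
        apply Finset.sum_lt_sum (fun x _ => kle x)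
        exact ⟨s, hs, by rw [ks]; omega⟩
      have kok : OK S g k := by
        intro X hX t
        by_cases hc : s ∈ X ∧ t = h s
        · obtain ⟨hsX, ht⟩ := hc
          have a := lt_of_le_of_ne (hok X hX t) (by rw [ht]; exact hno X hX hsX)
          have b : upc h t X ≤ upc k t X + 1 := by
            unfold upc
            rw [← Finset.sum_erase_add X (fun x => if t ≤ h x then (1 : ℤ) else 0) hsX,
              ← Finset.sum_erase_add X (fun x => if t ≤ k x then (1 : ℤ) else 0) hsX]
            have : ∑ x ∈ X.erase s, (if t ≤ h x then (1 : ℤ) else 0) =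
                ∑ x ∈ X.erase s, (if t ≤ k x then (1 : ℤ) else 0) := by
              apply Finset.sum_congr rfl
              intro x hx
              rw [kn x (Finset.ne_of_mem_erase hx)]
            rw [this]
            have c : (if t ≤ h s then (1 : ℤ) else 0) ≤ 1 := by split_ifs <;> norm_num
            have d : (0 : ℤ) ≤ (if t ≤ k s then (1 : ℤ) else 0) := by split_ifs <;> norm_num
            linarith
          linarith
        · have b : upc h t X = upc k t X := by
            unfold upc
            apply Finset.sum_congr rfl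
            intro x hx
            by_cases hxs : x = s
            · subst hxs
              rw [ks]
              have : t ≠ h x := fun ht => hc ⟨hx, ht⟩
              split_ifs <;> first | rfl | omega
            · rw [kn x hxs]
          rw [← b]
          exact hok X hX t
      obtain ⟨h', M, a, b⟩ := ih _ hsum k rfl kok
      exact ⟨h', M, fun x => (a x).trans (kle x), b⟩

/-- kernels of two transitive relations -/
lemma kernel (T : Finset α) (r₁ r₂ : α → α → Prop) (h₁ h₂ : α → ℕ)
    (hr₁ : ∀ a b, r₁ a b → h₁ a < h₁ b) (hr₂ : ∀ a b, r₂ a b → h₂ a < h₂ b)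
    (t₁ : ∀ a b c, a ∈ T → b ∈ T → c ∈ T → r₁ a b → r₁ b c → r₁ a c)
    (t₂ : ∀ a b c, a ∈ T → b ∈ T → c ∈ T → r₂ a b → r₂ b c → r₂ a c) :
    ∃ Z ⊆ T, (∀ z ∈ Z, ∀ z' ∈ Z, ¬ r₁ z z') ∧ (∀ z ∈ Z, ∀ z' ∈ Z, ¬ r₂ z z') ∧
      ∀ s ∈ T, s ∉ Z → (∃ z ∈ Z, r₁ z s) ∨ (∃ z ∈ Z, r₂ z s) := by
  classical
  let B : Set α → Set α := fun A => {s | s ∈ T ∧ ¬ ∃ a ∈ A, r₁ a s}
  let F : Set α →o Set α :=
    { toFun := fun A => {s | s ∈ T ∧ ¬ ∃ b ∈ B A, r₂ b s}
      monotone' := by
        intro A A' hAA' s hs
        refine ⟨hs.1, ?_⟩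
        rintro ⟨b, hb, hbs⟩
        apply hs.2
        refine ⟨b, ⟨hb.1, ?_⟩, hbs⟩
        rintro ⟨a, ha, hab⟩
        exact hb.2 ⟨a, hAA' ha, hab⟩ }
  set A : Set α := OrderHom.lfp F with hA
  have hfix : F A = A := OrderHom.map_lfp F
  have memA : ∀ s, s ∈ A ↔ s ∈ T ∧ ¬ ∃ b ∈ B A, r₂ b s := by
    intro s
    conv_lhs => rw [← hfix]
    rfl
  have memB : ∀ s, s ∈ B A ↔ s ∈ T ∧ ¬ ∃ a ∈ A, r₁ a s := fun s => Iff.rfl
  refine ⟨T.filter (fun s => s ∈ A ∧ s ∈ B A), Finset.filter_subset _ _, ?_, ?_, ?_⟩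
  · intro z hz z' hz' hr
    rw [Finset.mem_filter] at hz hz'
    exact hz'.2.2.2 ⟨z, hz.2.1, hr⟩
  · intro z hz z' hz' hr
    rw [Finset.mem_filter] at hz hz'
    exact ((memA z').mp hz'.2.1).2 ⟨z, hz.2.2, hr⟩
  · intro s hs hsZ
    have hor : s ∉ A ∨ s ∉ B A := by
      by_contra hcon
      push Not at hcon
      exact hsZ (Finset.mem_filter.mpr ⟨hs, hcon⟩)
    rcases hor with hn | hn
    · right
      rw [memA] at hn
      push Not at hn
      obtain ⟨b, hb, hbs⟩ := hn hs
      have hne : (T.filter (fun x => x ∈ B A ∧ r₂ x s)).Nonempty :=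
        ⟨b, Finset.mem_filter.mpr ⟨hb.1, hb, hbs⟩⟩
      obtain ⟨m, hm, hmin⟩ := Finset.exists_min_image _ h₂ hne
      rw [Finset.mem_filter] at hm
      refine ⟨m, Finset.mem_filter.mpr ⟨hm.1, ?_, hm.2.1⟩, hm.2.2⟩
      rw [memA]
      refine ⟨hm.1, ?_⟩
      rintro ⟨b', hb', hbm⟩
      have := hmin b' (Finset.mem_filter.mpr ⟨hb'.1, hb', t₂ _ _ _ hb'.1 hm.1 hs hbm hm.2.2⟩)
      have := hr₂ _ _ hbm
      omega
    · left
      rw [memB] at hn
      push Not at hn
      obtain ⟨a, ha, has⟩ := hn hs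
      have haT : a ∈ T := ((memA a).mp ha).1
      have hne : (T.filter (fun x => x ∈ A ∧ r₁ x s)).Nonempty :=
        ⟨a, Finset.mem_filter.mpr ⟨haT, ha, has⟩⟩
      obtain ⟨m, hm, hmin⟩ := Finset.exists_min_image _ h₁ hne
      rw [Finset.mem_filter] at hm
      refine ⟨m, Finset.mem_filter.mpr ⟨hm.1, hm.2.1, ?_⟩, hm.2.2⟩
      rw [memB]
      refine ⟨hm.1, ?_⟩
      rintro ⟨a', ha', ham⟩
      have haT' : a' ∈ T := ((memA a').mp ha').1
      have := hmin a' (Finset.mem_filter.mpr ⟨haT', ha', t₁ _ _ _ haT' hm.1 hs ham hm.2.2⟩)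
      have := hr₁ _ _ ham
      omega

lemma extend_color (g : Finset α → ℤ) {S Z : Finset α} (c0 : ℕ) (c' : α → ℕ)
    (hc0 : ∀ x ∈ S \ Z, c' x ≠ c0)
    (hg : ∀ X ⊆ S \ Z, S07041.res g Z one X ≤ (X.image c').card) (X : Finset α) (hX : X ⊆ S) :
    g X ≤ (X.image (fun x => if x ∈ Z then c0 else c' x)).card := by
  have hX' : X \ Z ⊆ S \ Z := Finset.sdiff_subset_sdiff hX le_rfl
  have h1 := hg (X \ Z) hX'
  have h2 := le_res g Z one (X \ Z) (Finset.inter_subset_right : X ∩ Z ⊆ Z)
  rw [Finset.sdiff_union_inter] at h2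
  have e1 : (X \ Z).image (fun x => if x ∈ Z then c0 else c' x) = (X \ Z).image c' := by
    apply Finset.image_congr
    intro x hx
    rw [Finset.mem_coe, Finset.mem_sdiff] at hx
    simp [hx.2]
  by_cases hW : X ∩ Z = ∅
  · have h3 : one (X ∩ Z) = 0 := by simp [one, hW]
    have h4 : X \ Z = X := by
      apply Finset.sdiff_eq_self_of_disjoint
      rw [Finset.disjoint_iff_inter_eq_empty]
      exact hW
    rw [h4] at h1 h2 e1
    rw [e1]
    linarith
  · have h3 : one (X ∩ Z) = 1 := by simp [one, hW]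
    have h5 : insert c0 ((X \ Z).image c') ⊆ X.image (fun x => if x ∈ Z then c0 else c' x) := by
      intro y hy
      rw [Finset.mem_insert] at hy
      rcases hy with rfl | hy
      · obtain ⟨x, hx⟩ := Finset.nonempty_iff_ne_empty.mpr hW
        rw [Finset.mem_inter] at hx
        exact Finset.mem_image.mpr ⟨x, hx.1, by simp [hx.2]⟩
      · rw [← e1] at hy
        exact Finset.image_subset_image Finset.sdiff_subset hy
    have h6 : c0 ∉ (X \ Z).image c' := by
      intro hmem
      obtain ⟨x, hx, hxc⟩ := Finset.mem_image.mp hmem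
      exact hc0 x (hX' hx) hxc
    have h7 := Finset.card_le_card h5
    rw [Finset.card_insert_of_notMem h6] at h7
    have h8 : (((X \ Z).image c').card : ℤ) + 1 ≤
        ((X.image (fun x => if x ∈ Z then c0 else c' x)).card : ℤ) := by exact_mod_cast h7
    linarith

theorem star (S : Finset α) : ∀ (g₁ g₂ : Finset α → ℤ) (h₁ h₂ : α → ℕ) (L : α → Finset ℕ),
    PSS S g₁ → PSS S g₂ → OK S g₁ h₁ → OK S g₂ h₂ →
    (∀ s ∈ S, 1 ≤ g₁ {s}) → (∀ s ∈ S, 1 ≤ g₂ {s}) →
    (∀ s ∈ S, h₁ s + h₂ s < (L s).card) →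
    ∃ c : α → ℕ, (∀ s ∈ S, c s ∈ L s) ∧ (∀ X ⊆ S, g₁ X ≤ (X.image c).card) ∧
      (∀ X ⊆ S, g₂ X ≤ (X.image c).card) := by
  classical
  induction S using Finset.strongInduction with
  | _ S ih =>
    intro g₁ g₂ h₁ h₂ L p₁ p₂ o₁ o₂ s₁ s₂ hL
    rcases S.eq_empty_or_nonempty with hS | ⟨s0, hs0⟩
    · subst hS
      refine ⟨fun _ => 0, by simp, ?_, ?_⟩
      · intro X hX
        have := o₁ X hX 0
        rw [Finset.subset_empty] at hX
        subst hX
        simpa [upc] using this
      · intro X hX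
        have := o₂ X hX 0
        rw [Finset.subset_empty] at hX
        subst hX
        simpa [upc] using this
    · obtain ⟨k₁, M₁, hk₁, L₁⟩ := exists_lam p₁ s₁ _ h₁ rfl o₁
      obtain ⟨k₂, M₂, hk₂, L₂⟩ := exists_lam p₂ s₂ _ h₂ rfl o₂
      have hcard : 0 < (L s0).card := by have := hL s0 hs0; omega
      obtain ⟨c0, hc0⟩ := Finset.card_pos.mp hcard
      set T := S.filter (fun s => c0 ∈ L s) with hT
      have hTS : T ⊆ S := Finset.filter_subset _ _
      obtain ⟨Z, hZT, hZ₁, hZ₂, hdom⟩ := kernel T (Prec k₁ M₁) (Prec k₂ M₂) k₁ k₂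
        (fun a b hab => hab.2) (fun a b hab => hab.2)
        (fun a b c _ hb hc => L₁.trans (hTS hb) (hTS hc))
        (fun a b c _ hb hc => L₂.trans (hTS hb) (hTS hc))
      have hZS : Z ⊆ S := hZT.trans hTS
      have hs0T : s0 ∈ T := Finset.mem_filter.mpr ⟨hs0, hc0⟩
      have hZne : Z.Nonempty := by
        by_cases hz : s0 ∈ Z
        · exact ⟨s0, hz⟩
        · rcases hdom s0 hs0T hz with ⟨z, hz, _⟩ | ⟨z, hz, _⟩ <;> exact ⟨z, hz⟩
      have hss : S \ Z ⊂ S := by
        refine Finset.ssubset_iff_subset_ne.mpr ⟨Finset.sdiff_subset, ?_⟩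
        intro heq
        obtain ⟨z, hz⟩ := hZne
        have : z ∈ S \ Z := by rw [heq]; exact hZS hz
        exact (Finset.mem_sdiff.mp this).2 hz
      set d₁ : α → ℕ := fun x => if ∃ z ∈ Z, Prec k₁ M₁ z x then k₁ x - 1 else k₁ x with hd₁
      set d₂ : α → ℕ := fun x => if ∃ z ∈ Z, Prec k₂ M₂ z x then k₂ x - 1 else k₂ x with hd₂
      have r₁ := L₁.residual hZS hZ₁ d₁
        (by intro x _; rw [hd₁]; dsimp only; split_ifs <;> omega)
        (by intro x _ hx; rw [hd₁]; dsimp only; rw [if_neg hx])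
      have r₂ := L₂.residual hZS hZ₂ d₂
        (by intro x _; rw [hd₂]; dsimp only; split_ifs <;> omega)
        (by intro x _ hx; rw [hd₂]; dsimp only; rw [if_neg hx])
      have q₁ := p₁.res hZS one one_nonneg one_inter_union one_sdiff
      have q₂ := p₂.res hZS one one_nonneg one_inter_union one_sdiff
      have hone : one (∅ : Finset α) = 0 := by simp [one]
      obtain ⟨c', hc1, hc2, hc3⟩ := ih (S \ Z) hss (S07041.res g₁ Z one) (S07041.res g₂ Z one) d₁ d₂
        (fun x => (L x).erase c0) q₁ q₂ r₁ r₂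
        (by
          intro s hs
          have a := le_res g₁ Z one {s} (Finset.empty_subset Z)
          rw [Finset.union_empty, hone, sub_zero] at a
          exact (s₁ s (Finset.mem_sdiff.mp hs).1).trans a)
        (by
          intro s hs
          have a := le_res g₂ Z one {s} (Finset.empty_subset Z)
          rw [Finset.union_empty, hone, sub_zero] at a
          exact (s₂ s (Finset.mem_sdiff.mp hs).1).trans a)
        (by
          intro s hs
          obtain ⟨hsS, hsZ⟩ := Finset.mem_sdiff.mp hs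
          have a := hL s hsS
          have b₁ := hk₁ s
          have b₂ := hk₂ s
          have e₁ : d₁ s ≤ k₁ s := by rw [hd₁]; dsimp only; split_ifs <;> omega
          have e₂ : d₂ s ≤ k₂ s := by rw [hd₂]; dsimp only; split_ifs <;> omega
          by_cases hc : c0 ∈ L s
          · rw [Finset.card_erase_of_mem hc]
            rcases hdom s (Finset.mem_filter.mpr ⟨hsS, hc⟩) hsZ with hz | hz
            · have e3 : d₁ s = k₁ s - 1 := by rw [hd₁]; dsimp only; rw [if_pos hz]
              obtain ⟨z, _, hz⟩ := hz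
              have := hz.2
              omega
            · have e3 : d₂ s = k₂ s - 1 := by rw [hd₂]; dsimp only; rw [if_pos hz]
              obtain ⟨z, _, hz⟩ := hz
              have := hz.2
              omega
          · rw [Finset.erase_eq_of_notMem hc]
            omega)
      refine ⟨fun x => if x ∈ Z then c0 else c' x, ?_, ?_, ?_⟩
      · intro s hs
        by_cases hz : s ∈ Z
        · simp only [hz, if_true]
          exact (Finset.mem_filter.mp (hZT hz)).2
        · simp only [hz, if_false]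
          exact Finset.mem_of_mem_erase (hc1 s (Finset.mem_sdiff.mpr ⟨hs, hz⟩))
      · exact extend_color g₁ c0 c' (fun x hx => Finset.ne_of_mem_erase (hc1 x hx)) hc2
      · exact extend_color g₂ c0 c' (fun x hx => Finset.ne_of_mem_erase (hc1 x hx)) hc3

/-- `Rep q X v`: some family of pairwise disjoint subsets of `X` with positive values has
total value `v` -/
inductive Rep (q : Finset α → ℤ) : Finset α → ℤ → Prop
  | nil (X : Finset α) : Rep q X 0
  | cons (X Y : Finset α) (v : ℤ) : Y ⊆ X → 0 < q Y → Rep q (X \ Y) v → Rep q X (q Y + v)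

lemma Rep.nonneg {q : Finset α → ℤ} {X : Finset α} {v : ℤ} (hr : Rep q X v) : 0 ≤ v := by
  induction hr with
  | nil X => exact le_rfl
  | cons X Y v _ hq _ ih => linarith

lemma Rep.mono {q : Finset α → ℤ} {X : Finset α} {v : ℤ} (hr : Rep q X v) :
    ∀ X', X ⊆ X' → Rep q X' v := by
  induction hr with
  | nil X => intro X' _; exact Rep.nil X'
  | cons X Y v hYX hq _ ih =>
    intro X' hX'
    exact Rep.cons X' Y v (hYX.trans hX') hq (ih _ (Finset.sdiff_subset_sdiff hX' le_rfl))

lemma Rep.union {q : Finset α → ℤ} {X : Finset α} {v : ℤ} (hr : Rep q X v) :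
    ∀ (Y : Finset α) (w : ℤ), Rep q Y w → Disjoint X Y → Rep q (X ∪ Y) (v + w) := by
  induction hr with
  | nil X =>
    intro Y w hY _
    rw [zero_add]
    exact hY.mono _ Finset.subset_union_right
  | cons X U v hUX hq _ ih =>
    intro Y w hY hd
    have h1 := ih Y w hY (hd.mono_left Finset.sdiff_subset)
    have h2 : (X \ U) ∪ Y = (X ∪ Y) \ U := by
      rw [Finset.union_sdiff_distrib]
      congr 1
      symm
      apply Finset.sdiff_eq_self_of_disjoint
      exact (hd.mono_left hUX).symm
    rw [h2] at h1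
    rw [add_assoc]
    exact Rep.cons _ U _ (hUX.trans Finset.subset_union_left) hq h1

lemma Rep.bound {q : Finset α → ℤ} {m c : ℤ} {X : Finset α} {v : ℤ} (hr : Rep q X v) :
    (∀ Y ⊆ X, q Y * m ≤ c * Y.card) → 0 ≤ c → v * m ≤ c * X.card := by
  induction hr with
  | nil X => intro _ hc; rw [zero_mul]; positivity
  | cons X Y v hYX hq _ ih =>
    intro hb hc
    have h1 := hb Y hYX
    have h2 := ih (fun U hU => hb U (hU.trans Finset.sdiff_subset)) hc
    have h3 : ((X \ Y).card : ℤ) + Y.card = X.card := by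
      exact_mod_cast Finset.card_sdiff_add_card_eq_card hYX
    rw [← h3]
    linarith

lemma Rep.single {q : Finset α → ℤ} (X Y : Finset α) (hYX : Y ⊆ X) (hq : 0 < q Y) :
    Rep q X (q Y) := by
  have := Rep.cons X Y 0 hYX hq (Rep.nil _)
  rwa [add_zero] at this

lemma rep_single_cross {q : Finset α → ℤ} (hp : PSS S q) {W : Finset α} {b : ℤ}
    (hr : Rep q W b) : ∀ X : Finset α, W ⊆ S → X ⊆ S → 0 < q X →
      ∃ c d, Rep q (X ∩ W) c ∧ Rep q (X ∪ W) d ∧ q X + b ≤ c + d := by
  induction hr with
  | nil W =>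
    intro X hW hX hq
    exact ⟨0, q X, Rep.nil _, Rep.single _ _ Finset.subset_union_left hq, by linarith⟩
  | cons W Y b hYW hqY hr ih =>
    intro X hW hX hq
    have hYS : Y ⊆ S := hYW.trans hW
    have hWY : W \ Y ⊆ S := Finset.sdiff_subset.trans hW
    rcases hp X hX Y hYS hq hqY with hA | hB
    · by_cases h1 : 0 < q (X ∪ Y)
      · obtain ⟨c', d', rc, rd, hle⟩ := ih (X ∪ Y) hWY (Finset.union_subset hX hYS) h1
        have e1 : (X ∪ Y) ∩ (W \ Y) = (X ∩ W) \ (X ∩ Y) := by
          ext x
          simp only [Finset.mem_inter, Finset.mem_union, Finset.mem_sdiff]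
          tauto
        have e2 : (X ∪ Y) ∪ (W \ Y) ⊆ X ∪ W := by
          intro x hx
          simp only [Finset.mem_union, Finset.mem_sdiff] at hx ⊢
          rcases hx with (hx | hx) | hx
          · exact Or.inl hx
          · exact Or.inr (hYW hx)
          · exact Or.inr hx.1
        have rd' := rd.mono _ e2
        rw [e1] at rc
        by_cases h2 : 0 < q (X ∩ Y)
        · refine ⟨q (X ∩ Y) + c', d', Rep.cons _ _ _ ?_ h2 rc, rd', by linarith⟩
          exact Finset.inter_subset_inter le_rfl hYW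
        · refine ⟨c', d', rc.mono _ Finset.sdiff_subset, rd', by linarith⟩
      · have h2 : 0 < q (X ∩ Y) := by linarith
        refine ⟨q (X ∩ Y), b, Rep.single _ _ (Finset.inter_subset_inter le_rfl hYW) h2,
          hr.mono _ (Finset.sdiff_subset.trans Finset.subset_union_right), by linarith⟩
    · by_cases h1 : 0 < q (X \ Y)
      · obtain ⟨c', d', rc, rd, hle⟩ := ih (X \ Y) hWY (Finset.sdiff_subset.trans hX) h1
        have e1 : (X \ Y) ∩ (W \ Y) ⊆ X ∩ W := by
          intro x hx
          simp only [Finset.mem_inter, Finset.mem_sdiff] at hx ⊢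
          tauto
        have e2 : (X \ Y) ∪ (W \ Y) ⊆ (X ∪ W) \ (Y \ X) := by
          intro x hx
          simp only [Finset.mem_union, Finset.mem_sdiff] at hx ⊢
          tauto
        have rc' := rc.mono _ e1
        have rd' := rd.mono _ e2
        by_cases h2 : 0 < q (Y \ X)
        · refine ⟨c', q (Y \ X) + d', rc', Rep.cons _ _ _ ?_ h2 rd', by linarith⟩
          exact (Finset.sdiff_subset.trans hYW).trans Finset.subset_union_right
        · exact ⟨c', d', rc', rd'.mono _ Finset.sdiff_subset, by linarith⟩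
      · have h2 : 0 < q (Y \ X) := by linarith
        refine ⟨0, q (Y \ X) + b, Rep.nil _, Rep.cons _ _ _ ?_ h2 (hr.mono _ ?_), by linarith⟩
        · exact (Finset.sdiff_subset.trans hYW).trans Finset.subset_union_right
        · intro x hx
          simp only [Finset.mem_union, Finset.mem_sdiff] at hx ⊢
          tauto

lemma rep_cross {q : Finset α → ℤ} (hp : PSS S q) {U : Finset α} {a : ℤ}
    (hr : Rep q U a) : ∀ (V : Finset α) (b : ℤ), U ⊆ S → V ⊆ S → Rep q V b →
      ∃ c d, Rep q (U ∩ V) c ∧ Rep q (U ∪ V) d ∧ a + b ≤ c + d := by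
  induction hr with
  | nil U =>
    intro V b _ _ hV
    exact ⟨0, b, Rep.nil _, hV.mono _ Finset.subset_union_right, by linarith⟩
  | cons U Y a hYU hqY hr ih =>
    intro V b hU hV rV
    obtain ⟨c', d', rc, rd, hle⟩ := ih V b (Finset.sdiff_subset.trans hU) hV rV
    obtain ⟨c'', d'', rc', rd', hle'⟩ := rep_single_cross hp rd Y
      (Finset.union_subset (Finset.sdiff_subset.trans hU) hV) (hYU.trans hU) hqY
    have hdisj : Disjoint ((U \ Y) ∩ V) (Y ∩ ((U \ Y) ∪ V)) := by
      rw [Finset.disjoint_left]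
      intro x hx hx'
      simp only [Finset.mem_union, Finset.mem_sdiff, Finset.mem_inter] at hx hx'
      tauto
    have r1 := rc.union _ _ rc' hdisj
    have e1 : (U \ Y) ∩ V ∪ Y ∩ ((U \ Y) ∪ V) ⊆ U ∩ V := by
      intro x hx
      simp only [Finset.mem_union, Finset.mem_sdiff, Finset.mem_inter] at hx ⊢
      rcases hx with hx | ⟨hx, hx' | hx'⟩
      · exact ⟨hx.1.1, hx.2⟩
      · exact (hx'.2 hx).elim
      · exact ⟨hYU hx, hx'⟩
    have e2 : Y ∪ ((U \ Y) ∪ V) ⊆ U ∪ V := by
      intro x hx
      simp only [Finset.mem_union, Finset.mem_sdiff] at hx ⊢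
      rcases hx with hx | hx | hx
      · exact Or.inl (hYU hx)
      · exact Or.inl hx.1
      · exact Or.inr hx
    exact ⟨c' + c'', d'', r1.mono _ e1, rd'.mono _ e2, by linarith⟩

/-- the largest value of a disjoint family -/
noncomputable def hat (q : Finset α → ℤ) (X : Finset α) : ℤ := sSup {v | Rep q X v}

lemma hat_bdd {q : Finset α → ℤ} (hq : ∀ X ⊆ S, q X ≤ X.card) {X : Finset α} (hX : X ⊆ S) :
    BddAbove {v | Rep q X v} := by
  refine ⟨X.card, ?_⟩
  intro v hv
  have := Rep.bound (m := 1) (c := 1) hv (fun Y hY => by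
    have := hq Y (hY.trans hX)
    linarith) (by norm_num)
  linarith

lemma le_hat {q : Finset α → ℤ} (hq : ∀ X ⊆ S, q X ≤ X.card) {X : Finset α} (hX : X ⊆ S)
    {v : ℤ} (hv : Rep q X v) : v ≤ hat q X :=
  le_csSup (hat_bdd hq hX) hv

lemma rep_hat {q : Finset α → ℤ} (hq : ∀ X ⊆ S, q X ≤ X.card) {X : Finset α} (hX : X ⊆ S) :
    Rep q X (hat q X) :=
  Int.csSup_mem ⟨0, Rep.nil X⟩ (hat_bdd hq hX)

lemma hat_super {q : Finset α → ℤ} (hp : PSS S q) (hq : ∀ X ⊆ S, q X ≤ X.card)
    {X Y : Finset α} (hX : X ⊆ S) (hY : Y ⊆ S) :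
    hat q X + hat q Y ≤ hat q (X ∩ Y) + hat q (X ∪ Y) := by
  obtain ⟨c, d, hc, hd, hle⟩ := rep_cross hp (rep_hat hq hX) Y _ hX hY (rep_hat hq hY)
  have h1 := le_hat hq (Finset.inter_subset_left.trans hX) hc
  have h2 := le_hat hq (Finset.union_subset hX hY) hd
  linarith

lemma hat_empty {q : Finset α → ℤ} (hq : ∀ X ⊆ S, q X ≤ X.card) : hat q ∅ = 0 := by
  have h1 := le_hat hq (Finset.empty_subset S) (Rep.nil ∅)
  have h2 := Rep.bound (m := 1) (c := 1) (rep_hat hq (Finset.empty_subset S)) (fun Y hY => by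
    have := hq Y (hY.trans (Finset.empty_subset S))
    linarith) (by norm_num)
  simp at h2
  linarith

/-- discrete separation -/
lemma sandwich (S : Finset α) : ∀ (p b : Finset α → ℤ), p ∅ = 0 → b ∅ = 0 →
    (∀ X ⊆ S, p X ≤ b X) →
    (∀ X ⊆ S, ∀ Y ⊆ S, p X + p Y ≤ p (X ∩ Y) + p (X ∪ Y)) →
    (∀ X ⊆ S, ∀ Y ⊆ S, b (X ∩ Y) + b (X ∪ Y) ≤ b X + b Y) →
    ∃ m : α → ℤ, ∀ X ⊆ S, p X ≤ ∑ x ∈ X, m x ∧ ∑ x ∈ X, m x ≤ b X := by
  induction S using Finset.induction_on with
  | empty =>
    intro p b hp hb _ _ _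
    refine ⟨fun _ => 0, ?_⟩
    intro X hX
    rw [Finset.subset_empty] at hX
    subst hX
    simp [hp, hb]
  | insert s S hs ih =>
    intro p b hp0 hb0 hpb hsup hsub
    have hSi : ∀ {X}, X ⊆ S → X ⊆ insert s S := fun hX => hX.trans (Finset.subset_insert s S)
    have hii : ∀ {X}, X ⊆ S → insert s X ⊆ insert s S := fun hX => Finset.insert_subset_insert s hX
    set a : ℤ := S.powerset.sup' ⟨∅, Finset.empty_mem_powerset S⟩
      (fun X => p (insert s X) - b X) with ha
    have ha1 : ∀ X ⊆ S, p (insert s X) - b X ≤ a := fun X hX =>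
      Finset.le_sup' (fun X => p (insert s X) - b X) (Finset.mem_powerset.mpr hX)
    have i1 : ∀ {X Y : Finset α}, X ⊆ S → Y ⊆ S → insert s X ∩ Y = X ∩ Y := by
      intro X Y _ hY
      ext x
      simp only [Finset.mem_inter, Finset.mem_insert]
      constructor
      · rintro ⟨rfl | h1, h2⟩
        · exact (hs (hY h2)).elim
        · exact ⟨h1, h2⟩
      · rintro ⟨h1, h2⟩
        exact ⟨Or.inr h1, h2⟩
    have ha2 : ∀ Y ⊆ S, a ≤ b (insert s Y) - p Y := by
      intro Y hY
      obtain ⟨X, hX, hXa⟩ := Finset.exists_mem_eq_sup' (⟨∅, Finset.empty_mem_powerset S⟩ :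
        S.powerset.Nonempty) (fun X => p (insert s X) - b X)
      rw [Finset.mem_powerset] at hX
      rw [ha, hXa]
      have h1 := hsup (insert s X) (hii hX) Y (hSi hY)
      have h2 := hsub X (hSi hX) (insert s Y) (hii hY)
      have h3 := hpb (X ∩ Y) (hSi (Finset.inter_subset_left.trans hX))
      have h4 := hpb (insert s (X ∪ Y)) (hii (Finset.union_subset hX hY))
      rw [i1 hX hY, Finset.insert_union] at h1
      rw [Finset.inter_comm, i1 hY hX, Finset.inter_comm, Finset.union_insert] at h2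
      linarith
    obtain ⟨m, hm⟩ := ih (fun X => max (p X) (p (insert s X) - a))
      (fun X => min (b X) (b (insert s X) - a))
      (by
        have := ha1 ∅ (Finset.empty_subset S)
        simp only [hp0, hb0] at this ⊢
        apply max_eq_left
        linarith)
      (by
        have := ha2 ∅ (Finset.empty_subset S)
        simp only [hp0, hb0] at this ⊢
        apply min_eq_left
        linarith)
      (by
        intro X hX
        have h1 := hpb X (hSi hX)
        have h2 := hpb (insert s X) (hii hX)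
        have h3 := ha1 X hX
        have h4 := ha2 X hX
        refine max_le (le_min ?_ ?_) (le_min ?_ ?_) <;> linarith)
      (by
        intro X hX Y hY
        have h1 := hsup X (hSi hX) Y (hSi hY)
        have h2 := hsup (insert s X) (hii hX) Y (hSi hY)
        have h3 := hsup X (hSi hX) (insert s Y) (hii hY)
        have h4 := hsup (insert s X) (hii hX) (insert s Y) (hii hY)
        rw [i1 hX hY, Finset.insert_union] at h2
        rw [Finset.inter_comm, i1 hY hX, Finset.inter_comm, Finset.union_insert] at h3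
        rw [← Finset.insert_inter_distrib, Finset.insert_union, Finset.union_insert,
          Finset.insert_idem] at h4
        have a1 := le_max_left (p (X ∩ Y)) (p (insert s (X ∩ Y)) - a)
        have a2 := le_max_right (p (X ∩ Y)) (p (insert s (X ∩ Y)) - a)
        have a3 := le_max_left (p (X ∪ Y)) (p (insert s (X ∪ Y)) - a)
        have a4 := le_max_right (p (X ∪ Y)) (p (insert s (X ∪ Y)) - a)
        rcases max_cases (p X) (p (insert s X) - a) with ⟨e1, _⟩ | ⟨e1, _⟩ <;>
        rcases max_cases (p Y) (p (insert s Y) - a) with ⟨e2, _⟩ | ⟨e2, _⟩ <;>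
        rw [e1, e2] <;> linarith)
      (by
        intro X hX Y hY
        have h1 := hsub X (hSi hX) Y (hSi hY)
        have h2 := hsub (insert s X) (hii hX) Y (hSi hY)
        have h3 := hsub X (hSi hX) (insert s Y) (hii hY)
        have h4 := hsub (insert s X) (hii hX) (insert s Y) (hii hY)
        rw [i1 hX hY, Finset.insert_union] at h2
        rw [Finset.inter_comm, i1 hY hX, Finset.inter_comm, Finset.union_insert] at h3
        rw [← Finset.insert_inter_distrib, Finset.insert_union, Finset.union_insert,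
          Finset.insert_idem] at h4
        have a1 := min_le_left (b (X ∩ Y)) (b (insert s (X ∩ Y)) - a)
        have a2 := min_le_right (b (X ∩ Y)) (b (insert s (X ∩ Y)) - a)
        have a3 := min_le_left (b (X ∪ Y)) (b (insert s (X ∪ Y)) - a)
        have a4 := min_le_right (b (X ∪ Y)) (b (insert s (X ∪ Y)) - a)
        rcases min_cases (b X) (b (insert s X) - a) with ⟨e1, _⟩ | ⟨e1, _⟩ <;>
        rcases min_cases (b Y) (b (insert s Y) - a) with ⟨e2, _⟩ | ⟨e2, _⟩ <;>
        rw [e1, e2] <;> linarith)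
    refine ⟨Function.update m s a, ?_⟩
    intro X hX
    have hoff : ∀ U : Finset α, s ∉ U → ∑ x ∈ U, Function.update m s a x = ∑ x ∈ U, m x := by
      intro U hU
      apply Finset.sum_congr rfl
      intro x hx
      rw [Function.update_of_ne]
      rintro rfl
      exact hU hx
    by_cases hsX : s ∈ X
    · have hXe : X.erase s ⊆ S := by
        intro x hx
        obtain ⟨h1, h2⟩ := Finset.mem_erase.mp hx
        rcases Finset.mem_insert.mp (hX h2) with h3 | h3
        · exact (h1 h3).elim
        · exact h3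
      have h1 := hm (X.erase s) hXe
      have h2 : insert s (X.erase s) = X := Finset.insert_erase hsX
      rw [← Finset.sum_erase_add X _ hsX, hoff _ (Finset.notMem_erase s X), Function.update_self]
      rw [h2] at h1
      have h3 := le_max_right (p (X.erase s)) (p X - a)
      have h4 := min_le_right (b (X.erase s)) (b X - a)
      constructor <;> linarith
    · have hXS : X ⊆ S := by
        intro x hx
        rcases Finset.mem_insert.mp (hX hx) with h3 | h3
        · subst h3; exact (hsX hx).elim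
        · exact h3
      have h1 := hm X hXS
      rw [hoff X hsX]
      have h3 := le_max_left (p X) (p (insert s X) - a)
      have h4 := min_le_left (b X) (b (insert s X) - a)
      constructor <;> linarith

lemma card_eq_upc_zero (h : α → ℕ) (X : Finset α) : (X.card : ℤ) = upc h 0 X := by
  simp [upc]

/-- a set `A` splitting the two requirements -/
lemma split {g₁ g₂ : Finset α → ℤ} (p₁ : PSS S g₁) (p₂ : PSS S g₂) (k : ℕ)
    (c₁ : ∀ X ⊆ S, g₁ X ≤ X.card ∧ g₁ X ≤ k + 1) (c₂ : ∀ X ⊆ S, g₂ X ≤ X.card ∧ g₂ X ≤ k + 1) :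
    ∃ A ⊆ S, ∀ X ⊆ S, g₁ X - 1 ≤ (X ∩ A).card ∧ g₂ X - k ≤ (X \ A).card := by
  classical
  have hk : (0 : ℤ) ≤ k := by positivity
  have P₁ : PSS S (fun X => g₁ X - 1) := by
    intro X hX Y hY h1 h2
    rcases p₁ X hX Y hY (by linarith) (by linarith) with h | h
    · left; linarith
    · right; linarith
  have P₂ : PSS S (fun X => g₂ X - k) := by
    intro X hX Y hY h1 h2
    rcases p₂ X hX Y hY (by linarith) (by linarith) with h | h
    · left; linarith
    · right; linarith
  have q₁ : ∀ X ⊆ S, (fun X => g₁ X - 1) X ≤ X.card := by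
    intro X hX
    have := (c₁ X hX).1
    dsimp only
    linarith
  have q₂ : ∀ X ⊆ S, (fun X => g₂ X - (k : ℤ)) X ≤ X.card := by
    intro X hX
    have := (c₂ X hX).1
    dsimp only
    linarith
  have b₁ : ∀ X ⊆ S, hat (fun X => g₁ X - 1) X * (k + 1) ≤ k * X.card := by
    intro X hX
    apply Rep.bound (rep_hat q₁ hX) _ hk
    intro Y hY
    obtain ⟨h1, h2⟩ := c₁ Y (hY.trans hX)
    rcases le_total ((Y.card : ℤ)) k with h | h
    · nlinarith
    · rcases h.lt_or_eq with h | h
      · nlinarith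
      · nlinarith
  have b₂ : ∀ X ⊆ S, hat (fun X => g₂ X - (k : ℤ)) X * (k + 1) ≤ 1 * X.card := by
    intro X hX
    apply Rep.bound (rep_hat q₂ hX) _ (by norm_num)
    intro Y hY
    obtain ⟨h1, h2⟩ := c₂ Y (hY.trans hX)
    have h3 : (0 : ℤ) ≤ Y.card := by positivity
    rcases le_or_gt ((Y.card : ℤ)) k with h | h
    · have : g₂ Y - k ≤ 0 := by linarith
      nlinarith
    · have : g₂ Y - k ≤ 1 := by linarith
      nlinarith
  obtain ⟨m, hm⟩ := sandwich S (hat (fun X => g₁ X - 1))
    (fun X => X.card - hat (fun X => g₂ X - (k : ℤ)) X) (hat_empty q₁)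
    (by simp [hat_empty q₂])
    (by
      intro X hX
      have h1 := b₁ X hX
      have h2 := b₂ X hX
      have h3 : (hat (fun X => g₁ X - 1) X + hat (fun X => g₂ X - (k : ℤ)) X) * (k + 1) ≤
        X.card * (k + 1) := by linarith
      have h4 := le_of_mul_le_mul_right h3 (by linarith)
      linarith)
    (fun X hX Y hY => hat_super P₁ q₁ hX hY)
    (by
      intro X hX Y hY
      have h1 := hat_super P₂ q₂ hX hY
      have h2 : ((X ∩ Y).card : ℤ) + (X ∪ Y).card = X.card + Y.card := by
        have := Finset.card_inter_add_card_union X Y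
        exact_mod_cast this
      linarith)
  have m0 : ∀ s ∈ S, 0 ≤ m s ∧ m s ≤ 1 := by
    intro s hs
    have hsS : {s} ⊆ S := Finset.singleton_subset_iff.mpr hs
    obtain ⟨h1, h2⟩ := hm {s} hsS
    rw [Finset.sum_singleton] at h1 h2
    have h3 := le_hat q₁ hsS (Rep.nil {s})
    have h4 := le_hat q₂ hsS (Rep.nil {s})
    rw [Finset.card_singleton] at h2
    push_cast at h2
    constructor <;> linarith
  refine ⟨S.filter (fun s => m s = 1), Finset.filter_subset _ _, ?_⟩
  intro X hX
  have e : ∑ x ∈ X, m x = ((X ∩ S.filter (fun s => m s = 1)).card : ℤ) := by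
    have e1 : X ∩ S.filter (fun s => m s = 1) = X.filter (fun s => m s = 1) := by
      ext x
      simp only [Finset.mem_inter, Finset.mem_filter]
      constructor
      · rintro ⟨a, _, b⟩
        exact ⟨a, b⟩
      · rintro ⟨a, b⟩
        exact ⟨a, hX a, b⟩
    rw [e1, Finset.card_filter]
    push_cast
    apply Finset.sum_congr rfl
    intro x hx
    obtain ⟨h1, h2⟩ := m0 x (hX hx)
    split_ifs with h3
    · exact h3
    · omega
  obtain ⟨h1, h2⟩ := hm X hX
  have e2 : ((X \ S.filter (fun s => m s = 1)).card : ℤ) +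
      ((X ∩ S.filter (fun s => m s = 1)).card : ℤ) = X.card := by
    exact_mod_cast Finset.card_sdiff_add_card_inter X _
  have n1 : g₁ X - 1 ≤ hat (fun X => g₁ X - 1) X := by
    by_cases hpos : 0 < g₁ X - 1
    · exact le_hat q₁ hX (Rep.single (q := fun X => g₁ X - 1) X X le_rfl hpos)
    · have := le_hat q₁ hX (Rep.nil X)
      linarith
  have n2 : g₂ X - k ≤ hat (fun X => g₂ X - (k : ℤ)) X := by
    by_cases hpos : 0 < g₂ X - k
    · exact le_hat q₂ hX (Rep.single (q := fun X => g₂ X - (k : ℤ)) X X le_rfl hpos)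
    · have := le_hat q₂ hX (Rep.nil X)
      linarith
  constructor <;> linarith

lemma heights (k : ℕ) : ∀ (S : Finset α) (g₁ g₂ : Finset α → ℤ), PSS S g₁ → PSS S g₂ →
    (∀ X ⊆ S, g₁ X ≤ X.card ∧ g₁ X ≤ k + 1) → (∀ X ⊆ S, g₂ X ≤ X.card ∧ g₂ X ≤ k + 1) →
    ∃ h : α → ℕ, (∀ s ∈ S, h s ≤ k) ∧ OK S g₁ h ∧ OK S g₂ (fun s => k - h s) := by
  classical
  induction k with
  | zero =>
    intro S g₁ g₂ _ _ c₁ c₂
    refine ⟨fun _ => 0, fun _ _ => le_rfl, ?_, ?_⟩
    · intro X hX t
      obtain ⟨h1, h2⟩ := c₁ X hX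
      rcases Nat.eq_zero_or_pos t with h0 | h0
      · subst h0
        rw [← card_eq_upc_zero]
        push_cast
        linarith
      · have h3 := upc_nonneg (fun _ : α => 0) t X
        have h4 : (1 : ℤ) ≤ t := by exact_mod_cast h0
        push_cast at h2
        linarith
    · intro X hX t
      obtain ⟨h1, h2⟩ := c₂ X hX
      rcases Nat.eq_zero_or_pos t with h0 | h0
      · subst h0
        rw [← card_eq_upc_zero]
        push_cast
        linarith
      · have h3 := upc_nonneg (fun _ : α => 0 - 0) t X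
        have h4 : (1 : ℤ) ≤ t := by exact_mod_cast h0
        push_cast at h2
        linarith
  | succ k ih =>
    intro S g₁ g₂ p₁ p₂ c₁ c₂
    obtain ⟨A, hAS, hA⟩ := split p₁ p₂ (k + 1) (by push_cast at c₁ ⊢; exact c₁)
      (by push_cast at c₂ ⊢; exact c₂)
    set B := S \ A with hB
    have hBS : B ⊆ S := Finset.sdiff_subset
    have hSB : S \ B = A := by
      rw [hB, Finset.sdiff_sdiff_eq_self hAS]
    have q₁ := p₁.res hBS (fun _ => 1) (fun _ => by norm_num) (fun _ _ => le_rfl)
      (fun _ _ => le_rfl)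
    have q₂ := p₂.res hBS (fun W => (W.card : ℤ)) (fun _ => by positivity)
      (by
        intro W W'
        have := Finset.card_inter_add_card_union W W'
        have h2 : ((W ∩ W').card : ℤ) + (W ∪ W').card = W.card + W'.card := by exact_mod_cast this
        linarith)
      (by
        intro W W'
        have h1 : ((W \ W').card : ℤ) ≤ W.card := by
          exact_mod_cast Finset.card_le_card Finset.sdiff_subset
        have h2 : ((W' \ W).card : ℤ) ≤ W'.card := by
          exact_mod_cast Finset.card_le_card Finset.sdiff_subset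
        linarith)
    have e1 : ∀ X ⊆ S \ B, ∀ W ⊆ B, (X ∪ W) ∩ A = X := by
      intro X hX W hW
      rw [hSB] at hX
      ext x
      simp only [Finset.mem_inter, Finset.mem_union]
      constructor
      · rintro ⟨a | a, b⟩
        · exact a
        · exact ((Finset.mem_sdiff.mp (hW a)).2 b).elim
      · intro a
        exact ⟨Or.inl a, hX a⟩
    have e2 : ∀ X ⊆ S \ B, ∀ W ⊆ B, (X ∪ W) \ A = W := by
      intro X hX W hW
      rw [hSB] at hX
      ext x
      simp only [Finset.mem_sdiff, Finset.mem_union]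
      constructor
      · rintro ⟨a | a, b⟩
        · exact (b (hX a)).elim
        · exact a
      · intro a
        exact ⟨Or.inr a, (Finset.mem_sdiff.mp (hW a)).2⟩
    have e3 : ∀ X ⊆ S \ B, ∀ W ⊆ B, X ∪ W ⊆ S := by
      intro X hX W hW
      exact Finset.union_subset (hX.trans Finset.sdiff_subset) (hW.trans hBS)
    obtain ⟨h', hk', o₁, o₂⟩ := ih (S \ B) _ _ q₁ q₂
      (by
        intro X hX
        obtain ⟨W, hW, eW⟩ := exists_res g₁ B (fun _ => 1) X
        rw [eW]
        have h1 := (hA _ (e3 X hX W hW)).1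
        rw [e1 X hX W hW] at h1
        have h2 := (c₁ _ (e3 X hX W hW)).2
        push_cast at h2
        constructor <;> linarith)
      (by
        intro X hX
        obtain ⟨W, hW, eW⟩ := exists_res g₂ B (fun W => (W.card : ℤ)) X
        rw [eW]
        have h1 := (hA _ (e3 X hX W hW)).2
        rw [e2 X hX W hW] at h1
        have h2 := (c₂ _ (e3 X hX W hW)).1
        have h3 : ((X ∪ W).card : ℤ) ≤ X.card + W.card := by
          exact_mod_cast Finset.card_union_le X W
        push_cast at h1
        constructor <;> linarith)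
    set h : α → ℕ := fun s => if s ∈ B then 0 else h' s + 1 with hh
    refine ⟨h, ?_, ?_, ?_⟩
    · intro s hs
      rw [hh]
      dsimp only
      split_ifs with hsB
      · omega
      · have := hk' s (Finset.mem_sdiff.mpr ⟨hs, hsB⟩)
        omega
    · intro X hX t
      rcases Nat.eq_zero_or_pos t with h0 | h0
      · subst h0
        rw [← card_eq_upc_zero]
        have := (c₁ X hX).1
        push_cast
        linarith
      · obtain ⟨t, rfl⟩ := Nat.exists_eq_succ_of_ne_zero (Nat.pos_iff_ne_zero.mp h0)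
        have hXB : X \ B ⊆ S \ B := Finset.sdiff_subset_sdiff hX le_rfl
        have h1 := o₁ (X \ B) hXB t
        have h2 := le_res g₁ B (fun _ => 1) (X \ B) (Finset.inter_subset_right : X ∩ B ⊆ B)
        rw [Finset.sdiff_union_inter] at h2
        have h3 : upc h' t (X \ B) ≤ upc h (t + 1) X := by
          refine le_trans ?_ (upc_mono h (t + 1) (Finset.sdiff_subset : X \ B ⊆ X))
          apply le_of_eq
          unfold upc
          apply Finset.sum_congr rfl
          intro x hx
          have hxB := (Finset.mem_sdiff.mp hx).2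
          have hx1 : h x = h' x + 1 := if_neg hxB
          split_ifs <;> first | rfl | omega
        simp only [Nat.succ_eq_add_one]
        push_cast
        linarith
    · intro X hX t
      rcases le_or_gt t (k + 1) with ht | ht
      · have hXB : X \ B ⊆ S \ B := Finset.sdiff_subset_sdiff hX le_rfl
        have h1 := o₂ (X \ B) hXB t
        have h2 := le_res g₂ B (fun W => (W.card : ℤ)) (X \ B)
          (Finset.inter_subset_right : X ∩ B ⊆ B)
        rw [Finset.sdiff_union_inter] at h2
        have h3 := upc_split (fun s => k + 1 - h s) t X B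
        have h4 : upc (fun s => k + 1 - h s) t (X ∩ B) = ((X ∩ B).card : ℤ) := by
          unfold upc
          rw [Finset.sum_congr rfl (fun x hx => if_pos ?_)]
          · simp
          · have hxB := (Finset.mem_inter.mp hx).2
            rw [hh]
            dsimp only
            rw [if_pos hxB]
            omega
        have h5 : upc (fun s => k + 1 - h s) t (X \ B) = upc (fun s => k - h' s) t (X \ B) := by
          unfold upc
          apply Finset.sum_congr rfl
          intro x hx
          have hxB := (Finset.mem_sdiff.mp hx).2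
          have hx1 : h x = h' x + 1 := if_neg hxB
          dsimp only
          split_ifs <;> first | rfl | omega
        linarith
      · have h1 := (c₂ X hX).2
        have h2 := upc_nonneg (fun s => k + 1 - h s) t X
        have h3 : ((k : ℤ) + 1 + 1) ≤ t := by exact_mod_cast ht
        push_cast at h1
        linarith

/-- making singletons positive -/
def plus (p : Finset α → ℤ) (X : Finset α) : ℤ := if X.card = 1 then max (p X) 1 else p X

lemma le_plus (p : Finset α → ℤ) (X : Finset α) : p X ≤ plus p X := by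
  unfold plus
  split_ifs
  · exact le_max_left _ _
  · exact le_rfl

lemma pss_plus {p : Finset α → ℤ}
    (hp : ∀ X Y : Finset α, p X + p Y ≤ p (X ∩ Y) + p (X ∪ Y) ∨
      p X + p Y ≤ p (X \ Y) + p (Y \ X)) (S : Finset α) : PSS S (plus p) := by
  intro X _ Y _ _ _
  by_cases hX : X.card = 1
  · obtain ⟨x, rfl⟩ := Finset.card_eq_one.mp hX
    by_cases hx : x ∈ Y
    · left
      have h1 : ({x} : Finset α) ∩ Y = {x} := Finset.singleton_inter_of_mem hx
      have h2 : ({x} : Finset α) ∪ Y = Y := Finset.union_eq_right.mpr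
        (Finset.singleton_subset_iff.mpr hx)
      rw [h1, h2]
    · right
      have hd : Disjoint ({x} : Finset α) Y := Finset.disjoint_singleton_left.mpr hx
      rw [Finset.sdiff_eq_self_of_disjoint hd, Finset.sdiff_eq_self_of_disjoint hd.symm]
  · by_cases hY : Y.card = 1
    · obtain ⟨y, rfl⟩ := Finset.card_eq_one.mp hY
      by_cases hy : y ∈ X
      · left
        have h1 : X ∩ {y} = {y} := Finset.inter_singleton_of_mem hy
        have h2 : X ∪ {y} = X := Finset.union_eq_left.mpr
          (Finset.singleton_subset_iff.mpr hy)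
        rw [h1, h2, add_comm]
      · right
        have hd : Disjoint X ({y} : Finset α) := Finset.disjoint_singleton_right.mpr hy
        rw [Finset.sdiff_eq_self_of_disjoint hd, Finset.sdiff_eq_self_of_disjoint hd.symm]
    · have eX : plus p X = p X := if_neg hX
      have eY : plus p Y = p Y := if_neg hY
      rw [eX, eY]
      rcases hp X Y with h | h
      · left
        have h1 := le_plus p (X ∩ Y)
        have h2 := le_plus p (X ∪ Y)
        linarith
      · right
        have h1 := le_plus p (X \ Y)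
        have h2 := le_plus p (Y \ X)
        linarith

end Core

/-- Given two integer skew-supermodular functions on subsets of a finite set S, bounded by min(∣X∣,k) with k≥1, and lists of k distinct positive integers per element, some list-respecting colouring of S uses at least max(p1(X),p2(X)) colours on every subset X. -/
theorem result :
    ∀ (S : Type) [Fintype S] [DecidableEq S] (k : ℕ) (p₁ p₂ : Finset S → ℤ) (L : S → Finset ℕ),
      0 < k →
      (∀ X Y : Finset S,
        p₁ X + p₁ Y ≤ p₁ (X ∩ Y) + p₁ (X ∪ Y) ∨ p₁ X + p₁ Y ≤ p₁ (X \ Y) + p₁ (Y \ X)) →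
      (∀ X Y : Finset S,
        p₂ X + p₂ Y ≤ p₂ (X ∩ Y) + p₂ (X ∪ Y) ∨ p₂ X + p₂ Y ≤ p₂ (X \ Y) + p₂ (Y \ X)) →
      (∀ X : Finset S, max (p₁ X) (p₂ X) ≤ min (X.card : ℤ) (k : ℤ)) →
      (∀ s : S, (L s).card = k ∧ 0 ∉ L s) →
      ∃ c : S → ℕ, (∀ s : S, c s ∈ L s) ∧
        ∀ X : Finset S, max (p₁ X) (p₂ X) ≤ ((X.image c).card : ℤ) := by
  intro S _ _ k p₁ p₂ L hk hp₁ hp₂ hle hL
  obtain ⟨k, rfl⟩ := Nat.exists_eq_succ_of_ne_zero (Nat.pos_iff_ne_zero.mp hk)
  have bound : ∀ (p : Finset S → ℤ), (∀ X : Finset S, p X ≤ X.card ∧ p X ≤ (k : ℤ) + 1) →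
      ∀ X ⊆ (Finset.univ : Finset S), plus p X ≤ X.card ∧ plus p X ≤ (k : ℤ) + 1 := by
    intro p hp X _
    obtain ⟨h1, h2⟩ := hp X
    unfold plus
    split_ifs with h3
    · constructor
      · exact max_le h1 (by rw [h3]; norm_num)
      · exact max_le h2 (by have : (0 : ℤ) ≤ k := by positivity
                            linarith)
    · exact ⟨h1, h2⟩
  have b₁ := bound p₁ (fun X => by
    have := (le_max_left (p₁ X) (p₂ X)).trans (hle X)
    have h1 := this.trans (min_le_left _ _)
    have h2 := this.trans (min_le_right _ _)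
    push_cast at h2
    exact ⟨h1, h2⟩)
  have b₂ := bound p₂ (fun X => by
    have := (le_max_right (p₁ X) (p₂ X)).trans (hle X)
    have h1 := this.trans (min_le_left _ _)
    have h2 := this.trans (min_le_right _ _)
    push_cast at h2
    exact ⟨h1, h2⟩)
  have P₁ := pss_plus hp₁ Finset.univ
  have P₂ := pss_plus hp₂ Finset.univ
  obtain ⟨h, hh, o₁, o₂⟩ := heights k Finset.univ (plus p₁) (plus p₂) P₁ P₂ b₁ b₂
  obtain ⟨c, c1, c2, c3⟩ := star Finset.univ (plus p₁) (plus p₂) h (fun s => k - h s) L P₁ P₂ o₁ o₂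
    (fun s _ => by simp [plus]) (fun s _ => by simp [plus])
    (fun s hs => by
      have a1 := hh s hs
      have a2 := (hL s).1
      omega)
  refine ⟨c, fun s => c1 s (Finset.mem_univ s), ?_⟩
  intro X
  exact max_le ((le_plus p₁ X).trans (c2 X (Finset.subset_univ X)))
    ((le_plus p₂ X).trans (c3 X (Finset.subset_univ X)))

end Pool.Agent.S07041
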