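import Pool.Statements.S07052

set_option autoImplicit false
open Pool Pool.MP_bb01b3_co

namespace Pool.Agent.S07052

/-- The graph `H`: four triangles through the vertex `0` (with further vertices `12`, `34`, `56`, `78`)
and one more vertex `9` adjacent to `7` and `8`. -/
def H0 : SimpleGraph (Fin 10) :=
  SimpleGraph.fromRel (fun a b => (a = 0 ∧ b ≠ 9) ∨
    (a.val % 2 = 1 ∧ b.val = a.val + 1 ∧ a.val < 8) ∨ (a = 9 ∧ (b = 7 ∨ b = 8)))

instance : DecidableRel H0.Adj := by
  unfold H0; infer_instance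

lemma H0_chrom : H0.chromaticNumber = ((2 + 1 : ℕ) : ℕ∞) := by
  apply le_antisymm
  · apply SimpleGraph.Colorable.chromaticNumber_le
    refine ⟨SimpleGraph.Coloring.mk
      (fun a : Fin 10 => (![0, 1, 2, 1, 2, 1, 2, 1, 2, 0] : Fin 10 → Fin 3) a) ?_⟩
    decide
  · have hc : H0.IsClique (({0, 1, 2} : Finset (Fin 10)) : Set (Fin 10)) := by
      rw [SimpleGraph.isClique_iff]
      intro a ha b hb hab
      simp only [Finset.coe_insert, Finset.coe_singleton, Set.mem_insert_iff,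
        Set.mem_singleton_iff] at ha hb
      rcases ha with rfl | rfl | rfl <;> rcases hb with rfl | rfl | rfl <;>
        first | exact absurd rfl hab | decide
    have := hc.card_le_chromaticNumber
    simpa using this

/-- The graph `(M ∪ E_t) ∇ T_{p-1}((p-1)t)`. -/
def J (p : ℕ) {m : ℕ} (M : SimpleGraph (Fin m)) (t : ℕ) : SimpleGraph (Fin m ⊕ (Fin p × Fin t)) :=
  SimpleGraph.fromRel (fun x y : Fin m ⊕ (Fin p × Fin t) =>
        Sum.elim (fun a => Sum.elim (fun b => M.Adj a b) (fun q => q.1.val ≠ 0) y)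
          (fun q => Sum.elim (fun _ => q.1.val ≠ 0) (fun q' => q.1 ≠ q'.1) y) x)

lemma J_ll (p : ℕ) {m : ℕ} (M : SimpleGraph (Fin m)) (t : ℕ) (a b : Fin m) :
    (J p M t).Adj (Sum.inl a) (Sum.inl b) ↔ M.Adj a b := by
  simp only [J, SimpleGraph.fromRel_adj, Sum.elim_inl]
  constructor
  · rintro ⟨_, h | h⟩
    · exact h
    · exact h.symm
  · intro h
    exact ⟨fun e => h.ne (Sum.inl_injective e), Or.inl h⟩

lemma J_lr (p : ℕ) {m : ℕ} (M : SimpleGraph (Fin m)) (t : ℕ) (a : Fin m) (q : Fin p × Fin t) :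
    (J p M t).Adj (Sum.inl a) (Sum.inr q) ↔ q.1.val ≠ 0 := by
  simp [J, SimpleGraph.fromRel_adj]

lemma J_rl (p : ℕ) {m : ℕ} (M : SimpleGraph (Fin m)) (t : ℕ) (a : Fin m) (q : Fin p × Fin t) :
    (J p M t).Adj (Sum.inr q) (Sum.inl a) ↔ q.1.val ≠ 0 := by
  simp [J, SimpleGraph.fromRel_adj]

lemma J_rr (p : ℕ) {m : ℕ} (M : SimpleGraph (Fin m)) (t : ℕ) (q q' : Fin p × Fin t) :
    (J p M t).Adj (Sum.inr q) (Sum.inr q') ↔ q.1 ≠ q'.1 := by
  simp only [J, SimpleGraph.fromRel_adj, Sum.elim_inr]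
  constructor
  · rintro ⟨_, h | h⟩
    · exact h
    · exact h.symm
  · intro h
    exact ⟨fun e => h (by rw [Sum.inr_injective e]), Or.inl h⟩

instance instDecJ (p : ℕ) {m : ℕ} (M : SimpleGraph (Fin m)) [DecidableRel M.Adj] (t : ℕ) :
    DecidableRel (J p M t).Adj := fun x y =>
  match x, y with
  | Sum.inl a, Sum.inl b => decidable_of_iff _ (J_ll p M t a b).symm
  | Sum.inl a, Sum.inr q => decidable_of_iff _ (J_lr p M t a q).symm
  | Sum.inr q, Sum.inl a => decidable_of_iff _ (J_rl p M t a q).symm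
  | Sum.inr q, Sum.inr q' => decidable_of_iff _ (J_rr p M t q q').symm

/-- The decomposition property. -/
def Dec (m : ℕ) (M : SimpleGraph (Fin m)) : Prop := ∃ t : ℕ, H0.IsContained (J 2 M t)

/-- The minimal members. -/
def Mem (m : ℕ) (M : SimpleGraph (Fin m)) : Prop := Dec m M ∧
      ∀ (m' : ℕ) (M' : SimpleGraph (Fin m')), M'.IsContained M → Dec m' M' → M.IsContained M'

/-- every vertex of `H0` is missed by a triangle -/
lemma H0_tri : ∀ u : Fin 10, ∃ a b c : Fin 10, H0.Adj a b ∧ H0.Adj b c ∧ H0.Adj a c ∧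
    a ≠ u ∧ b ≠ u ∧ c ≠ u := by
  decide

/-- class function -/
def cl {m t : ℕ} : Fin m ⊕ (Fin 2 × Fin t) → Bool
  | Sum.inl _ => false
  | Sum.inr q => decide (q.1.val = 1)

lemma J_same {m t : ℕ} (M : SimpleGraph (Fin m)) (x y : Fin m ⊕ (Fin 2 × Fin t))
    (h : (J 2 M t).Adj x y) (hc : cl x = cl y) :
    ∃ a b : Fin m, x = Sum.inl a ∧ y = Sum.inl b ∧ M.Adj a b := by
  rcases x with a | q <;> rcases y with b | q'
  · exact ⟨a, b, rfl, rfl, (J_ll _ _ _ _ _).1 h⟩
  · rw [J_lr] at h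
    simp only [cl] at hc
    have := q'.1.isLt
    have h3 : ¬ (q'.1.val = 1) := by
      intro h4; simp [h4] at hc
    omega
  · rw [J_rl] at h
    simp only [cl] at hc
    have := q.1.isLt
    have h3 : ¬ (q.1.val = 1) := by
      intro h4; simp [h4] at hc
    omega
  · rw [J_rr] at h
    simp only [cl] at hc
    exfalso
    apply h
    ext
    have h1 := q.1.isLt
    have h2 := q'.1.isLt
    by_cases h3 : q.1.val = 1 <;> by_cases h4 : q'.1.val = 1 <;> (simp [h3, h4] at hc ⊢; try omega)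

/-- No member of the decomposition class is covered by at most one vertex. -/
lemma no_star {m : ℕ} (M : SimpleGraph (Fin m)) (hD : Dec m M) (S : Finset (Fin m))
    (hS : ∀ a b, M.Adj a b → a ∈ S ∨ b ∈ S) : 2 ≤ S.card := by
  by_contra hlt
  have hle : S.card ≤ 1 := by omega
  obtain ⟨t, ⟨f⟩⟩ := hD
  -- a vertex u of H0 such that all others are mapped outside S
  have hu : ∃ u : Fin 10, ∀ a : Fin 10, a ≠ u → ∀ s ∈ S, f a ≠ Sum.inl s := by
    by_cases hex : ∃ u : Fin 10, ∃ s ∈ S, f u = Sum.inl s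
    · obtain ⟨u, s, hs, hus⟩ := hex
      refine ⟨u, fun a ha s' hs' has' => ha ?_⟩
      have : s = s' := Finset.card_le_one.1 hle s hs s' hs'
      subst this
      exact f.injective (has'.trans hus.symm)
    · push Not at hex
      exact ⟨0, fun a _ s hs => hex a s hs⟩
  obtain ⟨u, hu⟩ := hu
  obtain ⟨a, b, c, hab, hbc, hac, hau, hbu, hcu⟩ := H0_tri u
  have key : ∀ x y : Fin 10, H0.Adj x y → x ≠ u → y ≠ u → cl (f x) ≠ cl (f y) := by
    intro x y hxy hxu hyu hc
    obtain ⟨a', b', h1, h2, h3⟩ := J_same M (f x) (f y) (f.toHom.map_adj hxy) hc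
    rcases hS a' b' h3 with h4 | h4
    · exact hu x hxu a' h4 h1
    · exact hu y hyu b' h4 h2
  have k1 := key a b hab hau hbu
  have k2 := key b c hbc hbu hcu
  have k3 := key a c hac hau hcu
  revert k1 k2 k3
  cases cl (f a) <;> cases cl (f b) <;> cases cl (f c) <;> simp


lemma copy_back {m : ℕ} (M M' : SimpleGraph (Fin m)) (h : M'.IsContained M)
    (he : M.edgeSet.ncard ≤ M'.edgeSet.ncard) : M.IsContained M' := by
  obtain ⟨f⟩ := h
  have hbij : Function.Bijective f.toEmbedding :=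
    (Finite.injective_iff_bijective).1 f.toEmbedding.injective
  let e : Fin m ≃ Fin m := Equiv.ofBijective _ hbij
  have hle : M'.map e ≤ M := by
    change M'.map e.toEmbedding ≤ M
    rw [SimpleGraph.map_le_iff_le_comap]
    intro a b hab
    exact f.toHom.map_adj hab
  have hcard : (M'.map e).edgeSet.ncard = M'.edgeSet.ncard := by
    have := SimpleGraph.edgeSet_map e.toEmbedding M'
    rw [show (M'.map e) = M'.map e.toEmbedding from rfl, this]
    exact Set.ncard_image_of_injective _ (e.toEmbedding.sym2Map).injective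
  have heq : (M'.map e).edgeSet = M.edgeSet := by
    apply Set.eq_of_subset_of_ncard_le
    · exact SimpleGraph.edgeSet_mono hle
    · rw [hcard]; exact he
    · exact Set.toFinite _
  have : M'.map e = M := SimpleGraph.edgeSet_inj.1 heq
  rw [← this]
  exact (SimpleGraph.Iso.map e M').symm.isContained

lemma contained_card {m m' : ℕ} (M : SimpleGraph (Fin m)) (M' : SimpleGraph (Fin m'))
    (h : M'.IsContained M) : m' ≤ m ∧ M'.edgeSet.ncard ≤ M.edgeSet.ncard := by
  obtain ⟨f⟩ := h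
  constructor
  · have := Fintype.card_le_of_injective _ f.injective
    simpa using this
  · have h1 : (M'.map f.toEmbedding).edgeSet ⊆ M.edgeSet := by
      apply SimpleGraph.edgeSet_mono
      rw [SimpleGraph.map_le_iff_le_comap]
      intro a b hab
      exact f.toHom.map_adj hab
    have h2 := Set.ncard_le_ncard h1 (Set.toFinite _)
    rw [SimpleGraph.edgeSet_map, Set.ncard_image_of_injective _
      (f.toEmbedding.sym2Map).injective] at h2
    exact h2

lemma exists_mem (N : ℕ) : ∀ (m : ℕ) (M : SimpleGraph (Fin m)), m + M.edgeSet.ncard ≤ N →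
    Dec m M → ∃ (m' : ℕ) (M' : SimpleGraph (Fin m')), Mem m' M' ∧ M'.IsContained M := by
  induction N with
  | zero =>
    intro m M hN hD
    exfalso
    have hm : m = 0 := by omega
    subst hm
    have := no_star M hD ∅ (fun a => a.elim0)
    simp at this
  | succ N ih =>
    intro m M hN hD
    by_cases hM : Mem m M
    · exact ⟨m, M, hM, ⟨SimpleGraph.Copy.id M⟩⟩
    · have : ∃ (m' : ℕ) (M' : SimpleGraph (Fin m')), M'.IsContained M ∧ Dec m' M' ∧
        ¬ M.IsContained M' := by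
        by_contra hcon
        push Not at hcon
        exact hM ⟨hD, fun m' M' h1 h2 => hcon m' M' h1 h2⟩
      obtain ⟨m', M', h1, h2, h3⟩ := this
      obtain ⟨hc1, hc2⟩ := contained_card M M' h1
      have hlt : m' + M'.edgeSet.ncard < m + M.edgeSet.ncard := by
        by_contra hge
        have hm : m' = m := by omega
        subst hm
        exact h3 (copy_back M M' h1 (by omega))
      obtain ⟨m'', M'', h4, h5⟩ := ih m' M' (by omega) h2
      exact ⟨m'', M'', h4, h5.trans h1⟩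

/-- The matching with four edges. -/
def M4 : SimpleGraph (Fin 8) := SimpleGraph.fromRel (fun a b => a.val / 2 = b.val / 2)

instance : DecidableRel M4.Adj := by
  unfold M4; infer_instance

lemma Dec_M4 : Dec 8 M4 := by
  refine ⟨2, ⟨⟨⟨![Sum.inr (1, 0), Sum.inl 0, Sum.inl 1, Sum.inl 2, Sum.inl 3, Sum.inl 4,
    Sum.inl 5, Sum.inl 6, Sum.inl 7, Sum.inr (1, 1)], ?_⟩, ?_⟩⟩⟩
  · have : ∀ a b : Fin 10, H0.Adj a b → (J 2 M4 2).Adj
      ((![Sum.inr (1, 0), Sum.inl 0, Sum.inl 1, Sum.inl 2, Sum.inl 3, Sum.inl 4,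
        Sum.inl 5, Sum.inl 6, Sum.inl 7, Sum.inr (1, 1)] : Fin 10 → Fin 8 ⊕ (Fin 2 × Fin 2)) a)
      ((![Sum.inr (1, 0), Sum.inl 0, Sum.inl 1, Sum.inl 2, Sum.inl 3, Sum.inl 4,
        Sum.inl 5, Sum.inl 6, Sum.inl 7, Sum.inr (1, 1)] : Fin 10 → Fin 8 ⊕ (Fin 2 × Fin 2)) b) := by
      decide
    exact fun {a b} hab => this a b hab
  · decide

/-- The spider. -/
def M0 : SimpleGraph (Fin 6) := SimpleGraph.fromRel
  (fun a b => (a.val = 0 ∧ b.val < 5) ∨ (a.val = 4 ∧ b.val = 5))

instance : DecidableRel M0.Adj := by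
  unfold M0; infer_instance

lemma Dec_M0 : Dec 6 M0 := by
  refine ⟨4, ⟨⟨⟨![Sum.inl 0, Sum.inr (1, 0), Sum.inl 1, Sum.inr (1, 1), Sum.inl 2,
    Sum.inr (1, 2), Sum.inl 3, Sum.inr (1, 3), Sum.inl 4, Sum.inl 5], ?_⟩, ?_⟩⟩⟩
  · have : ∀ a b : Fin 10, H0.Adj a b → (J 2 M0 4).Adj
      ((![Sum.inl 0, Sum.inr (1, 0), Sum.inl 1, Sum.inr (1, 1), Sum.inl 2,
        Sum.inr (1, 2), Sum.inl 3, Sum.inr (1, 3), Sum.inl 4, Sum.inl 5] :
          Fin 10 → Fin 6 ⊕ (Fin 2 × Fin 4)) a)
      ((![Sum.inl 0, Sum.inr (1, 0), Sum.inl 1, Sum.inr (1, 1), Sum.inl 2,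
        Sum.inr (1, 2), Sum.inl 3, Sum.inr (1, 3), Sum.inl 4, Sum.inl 5] :
          Fin 10 → Fin 6 ⊕ (Fin 2 × Fin 4)) b) := by
      decide
    exact fun {a b} hab => this a b hab
  · decide


/-- moving an isolated vertex of `M'` to the edgeless part -/
lemma Dec_remove {k : ℕ} (M' : SimpleGraph (Fin (k + 1))) (v : Fin (k + 1))
    (hv : ∀ w, ¬ M'.Adj v w) (hD : Dec (k + 1) M') : Dec k (M'.comap v.succAbove) := by
  obtain ⟨t, ⟨g⟩⟩ := hD
  refine ⟨t + 1, ⟨SimpleGraph.Copy.comp ?_ g⟩⟩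
  let φ : Fin (k + 1) ⊕ (Fin 2 × Fin t) → Fin k ⊕ (Fin 2 × Fin (t + 1)) := fun x =>
    Sum.elim (fun a => Option.elim (finSuccEquiv' v a) (Sum.inr (0, Fin.last t)) Sum.inl)
      (fun q => Sum.inr (q.1, q.2.castSucc)) x
  have φv : φ (Sum.inl v) = Sum.inr (0, Fin.last t) := by
    simp [φ]
  have φa : ∀ i : Fin k, φ (Sum.inl (v.succAbove i)) = Sum.inl i := by
    intro i; simp [φ]
  have φr : ∀ q : Fin 2 × Fin t, φ (Sum.inr q) = Sum.inr (q.1, q.2.castSucc) := by
    intro q; simp [φ]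
  have hcases : ∀ a : Fin (k + 1), a = v ∨ ∃ i, a = v.succAbove i := by
    intro a
    by_cases h : a = v
    · exact Or.inl h
    · obtain ⟨i, hi⟩ := Fin.exists_succAbove_eq h
      exact Or.inr ⟨i, hi.symm⟩
  refine ⟨⟨φ, ?_⟩, ?_⟩
  · intro x y hxy
    rcases x with a | q <;> rcases y with b | q'
    · rw [J_ll] at hxy
      rcases hcases a with rfl | ⟨i, rfl⟩
      · exact absurd hxy (hv b)
      · rcases hcases b with rfl | ⟨j, rfl⟩
        · exact absurd hxy.symm (hv _)
        · rw [φa, φa, J_ll]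
          exact hxy
    · rw [J_lr] at hxy
      rcases hcases a with rfl | ⟨i, rfl⟩
      · rw [φv, φr, J_rr]
        intro h
        apply hxy
        have := congrArg Fin.val h
        simpa using this.symm
      · rw [φa, φr, J_lr]
        exact hxy
    · rw [J_rl] at hxy
      rcases hcases b with rfl | ⟨i, rfl⟩
      · rw [φv, φr, J_rr]
        intro h
        apply hxy
        have := congrArg Fin.val h
        simpa using this
      · rw [φa, φr, J_rl]
        exact hxy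
    · rw [J_rr] at hxy
      rw [φr, φr, J_rr]
      exact hxy
  · intro x y hxy
    change φ x = φ y at hxy
    rcases x with a | q <;> rcases y with b | q'
    · rcases hcases a with rfl | ⟨i, rfl⟩ <;> rcases hcases b with rfl | ⟨j, rfl⟩
      · rfl
      · rw [φv, φa] at hxy; cases hxy
      · rw [φv, φa] at hxy; cases hxy
      · rw [φa, φa] at hxy
        rw [Sum.inl_injective hxy]
    · rcases hcases a with rfl | ⟨i, rfl⟩
      · rw [φv, φr] at hxy
        have h1 := Sum.inr_injective hxy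
        have h2 := congrArg (fun z => z.2.val) h1
        simp at h2
        have := q'.2.isLt
        omega
      · rw [φa, φr] at hxy; cases hxy
    · rcases hcases b with rfl | ⟨i, rfl⟩
      · rw [φv, φr] at hxy
        have h1 := Sum.inr_injective hxy
        have h2 := congrArg (fun z => z.2.val) h1
        simp at h2
        have := q.2.isLt
        omega
      · rw [φa, φr] at hxy; cases hxy
    · rw [φr, φr] at hxy
      have h1 := Sum.inr_injective hxy
      rw [Prod.mk.injEq] at h1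
      obtain ⟨h2, h3⟩ := h1
      have h4 := Fin.castSucc_injective _ h3
      exact congrArg Sum.inr (Prod.ext h2 h4)

lemma comap_succAbove_contained {k : ℕ} (M' : SimpleGraph (Fin (k + 1))) (v : Fin (k + 1)) :
    (M'.comap v.succAbove).IsContained M' :=
  ⟨⟨⟨v.succAbove, fun h => h⟩, Fin.succAbove_right_injective⟩⟩

lemma matching_mem : ∃ (m : ℕ) (M : SimpleGraph (Fin m)), Mem m M ∧ ∀ v, ∃! w, M.Adj v w := by
  obtain ⟨m', M', hMem, ⟨f⟩⟩ := exists_mem _ 8 M4 le_rfl Dec_M4
  refine ⟨m', M', hMem, fun v => ?_⟩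
  have hex : ∃ w, M'.Adj v w := by
    by_contra hcon
    push Not at hcon
    cases m' with
    | zero => exact v.elim0
    | succ k =>
      have hD := Dec_remove M' v hcon hMem.1
      have hc := hMem.2 k _ (comap_succAbove_contained M' v) hD
      have := (contained_card _ _ hc).1
      omega
  obtain ⟨w, hw⟩ := hex
  refine ⟨w, hw, fun w' hw' => ?_⟩
  have h1 := f.toHom.map_adj hw
  have h2 := f.toHom.map_adj hw'
  apply f.injective
  have h3 : ∀ a b c : Fin 8, M4.Adj a b → M4.Adj a c → c = b := by decide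
  exact h3 _ _ _ h1 h2

/-- from a member of the decomposition class to a minimal one, keeping coverings -/
lemma spider_mem : ∃ (m : ℕ) (M : SimpleGraph (Fin m)) (S : Finset (Fin m)), Mem m M ∧
      (∀ a b, M.Adj a b → a ∈ S ∨ b ∈ S) ∧ (∀ a ∈ S, ∀ b ∈ S, ¬ M.Adj a b) ∧ S.card = 2 := by
  obtain ⟨m', M', hMem, ⟨f⟩⟩ := exists_mem _ 6 M0 le_rfl Dec_M0
  let S : Finset (Fin m') := Finset.univ.filter (fun a => f.toHom a = 0 ∨ f.toHom a = 5)
  have hcov : ∀ a b, M'.Adj a b → a ∈ S ∨ b ∈ S := by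
    intro a b hab
    have h1 := f.toHom.map_adj hab
    have h3 : ∀ a b : Fin 6, M0.Adj a b → (a = 0 ∨ a = 5) ∨ (b = 0 ∨ b = 5) := by decide
    simpa [S] using h3 _ _ h1
  have hind : ∀ a ∈ S, ∀ b ∈ S, ¬ M'.Adj a b := by
    intro a ha b hb hab
    have h1 := f.toHom.map_adj hab
    have h3 : ∀ a b : Fin 6, (a = 0 ∨ a = 5) → (b = 0 ∨ b = 5) → ¬ M0.Adj a b := by decide
    simp only [S, Finset.mem_filter, Finset.mem_univ, true_and] at ha hb
    exact h3 _ _ ha hb h1
  have hle : S.card ≤ 2 := by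
    have : S.card ≤ ({0, 5} : Finset (Fin 6)).card := by
      apply Finset.card_le_card_of_injOn f.toHom
      · intro a ha
        simp only [S, Finset.coe_filter, Finset.mem_univ, true_and, Set.mem_ofPred_eq] at ha
        simpa using ha
      · exact f.injective.injOn
    simpa using this
  exact ⟨m', M', S, hMem, hcov, hind, le_antisymm hle (no_star M' hMem.1 S hcov)⟩

lemma gamma_least : IsLeast {k : ℕ | ∃ (m : ℕ) (M : SimpleGraph (Fin m)) (S : Finset (Fin m)),
      Mem m M ∧ (∀ a b, M.Adj a b → a ∈ S ∨ b ∈ S) ∧ (∀ a ∈ S, ∀ b ∈ S, ¬ M.Adj a b) ∧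
      S.card = k} 2 := by
  refine ⟨spider_mem, ?_⟩
  rintro k ⟨m, M, S, hM, hcov, _, rfl⟩
  exact no_star M hM.1 S hcov

lemma beta_least : IsLeast {k : ℕ | ∃ (m : ℕ) (M : SimpleGraph (Fin m)) (S : Finset (Fin m)),
      Mem m M ∧ (∀ a b, M.Adj a b → a ∈ S ∨ b ∈ S) ∧ S.card = k} 2 := by
  constructor
  · obtain ⟨m, M, S, h1, h2, _, h4⟩ := spider_mem
    exact ⟨m, M, S, h1, h2, h4⟩
  · rintro k ⟨m, M, S, hM, hcov, rfl⟩
    exact no_star M hM.1 S hcov


/-- The join of two graphs. -/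
def Jn {k l : ℕ} (H1 : SimpleGraph (Fin k)) (H2 : SimpleGraph (Fin l)) :
    SimpleGraph (Fin k ⊕ Fin l) :=
  SimpleGraph.fromRel (fun x y : Fin k ⊕ Fin l =>
        Sum.elim (fun a => Sum.elim (fun b => H1.Adj a b) (fun _ => True) y)
          (fun a => Sum.elim (fun _ => True) (fun b => H2.Adj a b) y) x)

lemma Jn_ll {k l : ℕ} (H1 : SimpleGraph (Fin k)) (H2 : SimpleGraph (Fin l)) (a b : Fin k) :
    (Jn H1 H2).Adj (Sum.inl a) (Sum.inl b) ↔ H1.Adj a b := by
  simp only [Jn, SimpleGraph.fromRel_adj, Sum.elim_inl]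
  constructor
  · rintro ⟨_, h | h⟩
    · exact h
    · exact h.symm
  · intro h
    exact ⟨fun e => h.ne (Sum.inl_injective e), Or.inl h⟩

lemma Jn_lr {k l : ℕ} (H1 : SimpleGraph (Fin k)) (H2 : SimpleGraph (Fin l)) (a : Fin k)
    (b : Fin l) : (Jn H1 H2).Adj (Sum.inl a) (Sum.inr b) := by
  simp [Jn, SimpleGraph.fromRel_adj]

lemma Jn_rl {k l : ℕ} (H1 : SimpleGraph (Fin k)) (H2 : SimpleGraph (Fin l)) (a : Fin k)
    (b : Fin l) : (Jn H1 H2).Adj (Sum.inr b) (Sum.inl a) := (Jn_lr H1 H2 a b).symm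

lemma Jn_rr {k l : ℕ} (H1 : SimpleGraph (Fin k)) (H2 : SimpleGraph (Fin l)) (a b : Fin l) :
    (Jn H1 H2).Adj (Sum.inr a) (Sum.inr b) ↔ H2.Adj a b := by
  simp only [Jn, SimpleGraph.fromRel_adj, Sum.elim_inr]
  constructor
  · rintro ⟨_, h | h⟩
    · exact h
    · exact h.symm
  · intro h
    exact ⟨fun e => h.ne (Sum.inr_injective e), Or.inl h⟩

lemma H0_edges : ∀ i j : Fin 10, H0.Adj i j → (i = 0 ∧ j ≠ 0 ∧ j ≠ 9) ∨ (j = 0 ∧ i ≠ 0 ∧ i ≠ 9) ∨
    (i = 1 ∧ j = 2) ∨ (i = 2 ∧ j = 1) ∨ (i = 3 ∧ j = 4) ∨ (i = 4 ∧ j = 3) ∨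
    (i = 5 ∧ j = 6) ∨ (i = 6 ∧ j = 5) ∨ (i = 7 ∧ j = 8) ∨ (i = 8 ∧ j = 7) ∨
    (i = 9 ∧ j = 7) ∨ (i = 7 ∧ j = 9) ∨ (i = 9 ∧ j = 8) ∨ (i = 8 ∧ j = 9) := by
  decide

lemma embed_H0 {W : Type*} (G : SimpleGraph W) (f : Fin 10 → W) (hf : Function.Injective f)
    (h0 : ∀ j : Fin 10, j ≠ 0 → j ≠ 9 → G.Adj (f 0) (f j))
    (h12 : G.Adj (f 1) (f 2)) (h34 : G.Adj (f 3) (f 4)) (h56 : G.Adj (f 5) (f 6))
    (h78 : G.Adj (f 7) (f 8)) (h97 : G.Adj (f 9) (f 7)) (h98 : G.Adj (f 9) (f 8)) :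
    H0.IsContained G := by
  refine ⟨⟨⟨f, ?_⟩, hf⟩⟩
  intro i j hij
  rcases H0_edges i j hij with ⟨rfl, h1, h2⟩ | ⟨rfl, h1, h2⟩ | ⟨rfl, rfl⟩ | ⟨rfl, rfl⟩ |
    ⟨rfl, rfl⟩ | ⟨rfl, rfl⟩ | ⟨rfl, rfl⟩ | ⟨rfl, rfl⟩ | ⟨rfl, rfl⟩ | ⟨rfl, rfl⟩ | ⟨rfl, rfl⟩ |
    ⟨rfl, rfl⟩ | ⟨rfl, rfl⟩ | ⟨rfl, rfl⟩
  · exact h0 j h1 h2
  · exact (h0 i h1 h2).symm
  · exact h12
  · exact h12.symm
  · exact h34
  · exact h34.symm
  · exact h56
  · exact h56.symm
  · exact h78
  · exact h78.symm
  · exact h97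
  · exact h97.symm
  · exact h98
  · exact h98.symm

/-- many vertices of each parity outside a small set -/
lemma many_par {l K : ℕ} (ε : ℕ) (hε : ε < 2) (hl : 2 * K + 2 ≤ l) (D : Finset (Fin l))
    (hD : D.card + 4 ≤ K) :
    4 ≤ ((Finset.univ.filter (fun v : Fin l => v.val % 2 = ε)) \ D).card := by
  have h1 : K ≤ (Finset.univ.filter (fun v : Fin l => v.val % 2 = ε)).card := by
    have : (Finset.range K).card ≤
        (Finset.univ.filter (fun v : Fin l => v.val % 2 = ε)).card := by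
      apply Finset.card_le_card_of_injOn
        (fun i => if h : 2 * i + ε < l then (⟨2 * i + ε, h⟩ : Fin l) else ⟨0, by omega⟩)
      · intro i hi
        have hi' : i < K := by simpa using hi
        have h : 2 * i + ε < l := by omega
        simp only [h, dif_pos, Finset.coe_filter, Finset.mem_univ, true_and, Set.mem_ofPred_eq]
        omega
      · intro i hi j hj hij
        have hi' : i < K := by simpa using hi
        have hj' : j < K := by simpa using hj
        have h : 2 * i + ε < l := by omega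
        have h' : 2 * j + ε < l := by omega
        simp only [h, h', dif_pos, Fin.mk.injEq] at hij
        omega
    simpa using this
  have h2 := Finset.le_card_sdiff D (Finset.univ.filter (fun v : Fin l => v.val % 2 = ε))
  omega

lemma H2_le {l C : ℕ} (hl : 2 * (2 * C + 6) + 2 ≤ l) (H1 : SimpleGraph (Fin 1))
    (H2 : SimpleGraph (Fin l))
    (hs : (symmDiff H2.edgeSet (SimpleGraph.turanGraph l 2).edgeSet).ncard ≤ C)
    (hfree : ¬ H0.IsContained (Jn H1 H2)) : H2 ≤ SimpleGraph.turanGraph l 2 := by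
  classical
  by_contra hcon
  have : ∃ x y : Fin l, H2.Adj x y ∧ ¬ (SimpleGraph.turanGraph l 2).Adj x y := by
    by_contra h
    push Not at h
    exact hcon (fun x y hxy => h x y hxy)
  obtain ⟨x, y, hxy, hnxy⟩ := this
  have hpar : x.val % 2 = y.val % 2 := by
    by_contra h
    exact hnxy h
  apply hfree
  -- the set of disturbed vertices
  let S := (Set.toFinite (symmDiff H2.edgeSet (SimpleGraph.turanGraph l 2).edgeSet)).toFinset
  have hScard : S.card ≤ C := by
    rw [← Set.ncard_eq_toFinset_card]; exact hs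
  let D : Finset (Fin l) := S.biUnion Sym2.toFinset
  have hDcard : D.card ≤ 2 * C := by
    have h1 : D.card ≤ S.card * 2 := by
      apply Finset.card_biUnion_le_card_mul
      intro e _
      rw [Sym2.card_toFinset]
      split_ifs <;> omega
    omega
  have hDadj : ∀ v ∉ D, ∀ w, H2.Adj v w ↔ (SimpleGraph.turanGraph l 2).Adj v w := by
    intro v hv w
    have h1 : s(v, w) ∉ S := by
      intro h
      apply hv
      simp only [D, Finset.mem_biUnion]
      exact ⟨s(v, w), h, by simp⟩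
    simp only [S, Set.Finite.mem_toFinset, Set.mem_symmDiff, SimpleGraph.mem_edgeSet] at h1
    tauto
  let D' : Finset (Fin l) := D ∪ {x, y}
  have hD'card : D'.card ≤ 2 * C + 2 := by
    have h1 := Finset.card_union_le D {x, y}
    have h2 : ({x, y} : Finset (Fin l)).card ≤ 2 := Finset.card_le_two
    simp only [D']
    omega
  have hadj : ∀ v ∉ D', ∀ w, v.val % 2 ≠ w.val % 2 → H2.Adj v w := by
    intro v hv w hvw
    have : v ∉ D := fun h => hv (Finset.mem_union_left _ h)
    exact (hDadj v this w).2 hvw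
  have c0 := many_par (K := 2 * C + 6) 0 (by norm_num) hl D' (by omega)
  have c1 := many_par (K := 2 * C + 6) 1 (by norm_num) hl D' (by omega)
  let g0 := Finset.orderEmbOfCardLe _ c0
  let g1 := Finset.orderEmbOfCardLe _ c1
  have g0m : ∀ i, (g0 i).val % 2 = 0 ∧ g0 i ∉ D' := by
    intro i
    have := Finset.orderEmbOfCardLe_mem _ c0 i
    rw [Finset.mem_sdiff, Finset.mem_filter] at this
    exact ⟨this.1.2, this.2⟩
  have g1m : ∀ i, (g1 i).val % 2 = 1 ∧ g1 i ∉ D' := by
    intro i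
    have := Finset.orderEmbOfCardLe_mem _ c1 i
    rw [Finset.mem_sdiff, Finset.mem_filter] at this
    exact ⟨this.1.2, this.2⟩
  have hz : ∃ z : Fin l, z.val % 2 ≠ x.val % 2 ∧ z ∉ D' ∧ (∀ i : Fin 4, i ≠ 3 → z ≠ g0 i) ∧
      (∀ i : Fin 4, i ≠ 3 → z ≠ g1 i) := by
    rcases Nat.mod_two_eq_zero_or_one x.val with hx | hx
    · refine ⟨g1 3, by rw [(g1m 3).1, hx]; decide, (g1m 3).2, ?_, ?_⟩
      · intro i _ h
        have h1 := (g0m i).1
        rw [← h, (g1m 3).1] at h1
        omega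
      · intro i hi h
        exact hi (g1.injective h.symm)
    · refine ⟨g0 3, by rw [(g0m 3).1, hx]; decide, (g0m 3).2, ?_, ?_⟩
      · intro i hi h
        exact hi (g0.injective h.symm)
      · intro i _ h
        have h1 := (g1m i).1
        rw [← h, (g0m 3).1] at h1
        omega
  obtain ⟨z, hzp, hzD, hz0, hz1⟩ := hz
  have hxD : x ∈ D' := by simp [D']
  have hyD : y ∈ D' := by simp [D']
  have ne0x : ∀ i, g0 i ≠ x := fun i h => (g0m i).2 (h ▸ hxD)
  have ne0y : ∀ i, g0 i ≠ y := fun i h => (g0m i).2 (h ▸ hyD)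
  have ne1x : ∀ i, g1 i ≠ x := fun i h => (g1m i).2 (h ▸ hxD)
  have ne1y : ∀ i, g1 i ≠ y := fun i h => (g1m i).2 (h ▸ hyD)
  have nezx : z ≠ x := fun h => hzD (h ▸ hxD)
  have nezy : z ≠ y := fun h => hzD (h ▸ hyD)
  have ne01 : ∀ i j, g0 i ≠ g1 j := by
    intro i j h
    have h1 := (g0m i).1
    rw [h, (g1m j).1] at h1
    omega
  have nexy : x ≠ y := hxy.ne
  let f : Fin 10 → Fin 1 ⊕ Fin l := ![Sum.inl 0, Sum.inr (g0 0), Sum.inr (g1 0), Sum.inr (g0 1),
    Sum.inr (g1 1), Sum.inr (g0 2), Sum.inr (g1 2), Sum.inr x, Sum.inr z, Sum.inr y]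
  have hz00 := hz0 0 (by decide)
  have hz01 := hz0 1 (by decide)
  have hz02 := hz0 2 (by decide)
  have hz10 := hz1 0 (by decide)
  have hz11 := hz1 1 (by decide)
  have hz12 := hz1 2 (by decide)
  apply embed_H0 (Jn H1 H2) f
  · intro i j hij
    fin_cases i <;> fin_cases j <;>
      first
      | rfl
      | (exfalso
         simp [f, ne0x, ne0y, ne1x, ne1y, nezx, nezy, ne01, nexy, nexy.symm,
           hz00, hz01, hz02, hz10, hz11, hz12, (ne0x _).symm, (ne0y _).symm,
           (ne1x _).symm, (ne1y _).symm, nezx.symm, nezy.symm, (ne01 _ _).symm,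
           hz00.symm, hz01.symm, hz02.symm, hz10.symm, hz11.symm, hz12.symm] at hij)
  · intro j hj0 hj9
    fin_cases j
    · exact absurd rfl hj0
    · exact Jn_lr _ _ _ _
    · exact Jn_lr _ _ _ _
    · exact Jn_lr _ _ _ _
    · exact Jn_lr _ _ _ _
    · exact Jn_lr _ _ _ _
    · exact Jn_lr _ _ _ _
    · exact Jn_lr _ _ _ _
    · exact Jn_lr _ _ _ _
    · exact absurd rfl hj9
  · exact (Jn_rr _ _ _ _).2 (hadj _ (g0m 0).2 _ (by rw [(g0m 0).1, (g1m 0).1]; decide))
  · exact (Jn_rr _ _ _ _).2 (hadj _ (g0m 1).2 _ (by rw [(g0m 1).1, (g1m 1).1]; decide))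
  · exact (Jn_rr _ _ _ _).2 (hadj _ (g0m 2).2 _ (by rw [(g0m 2).1, (g1m 2).1]; decide))
  · exact (Jn_rr _ _ _ _).2 (hadj _ hzD _ hzp).symm
  · exact (Jn_rr _ _ _ _).2 hxy.symm
  · exact (Jn_rr _ _ _ _).2 (hadj _ hzD _ (by rw [← hpar]; exact hzp)).symm


/-- membership in the four special vertices `0, 2, 4, 6` of the even class -/
def inW {l : ℕ} : Fin 1 ⊕ Fin l → Prop :=
  Sum.elim (fun _ => False) (fun b => b.val % 2 = 0 ∧ b.val < 8)

/-- The better graph: the vertex `inl 0` is joined to everything except the four special vertices,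
and the four special vertices are made into a clique. -/
def Gp (l : ℕ) : SimpleGraph (Fin 1 ⊕ Fin l) where
  Adj x y := Sum.elim
    (fun _ => Sum.elim (fun _ => False) (fun b => ¬ (b.val % 2 = 0 ∧ b.val < 8)) y)
    (fun a => Sum.elim (fun _ => ¬ (a.val % 2 = 0 ∧ a.val < 8))
      (fun b => a.val % 2 ≠ b.val % 2 ∨ (a ≠ b ∧ (a.val % 2 = 0 ∧ a.val < 8) ∧
        (b.val % 2 = 0 ∧ b.val < 8))) y) x
  symm := ⟨by
    rintro (a | a) (b | b) h
    · exact h
    · exact h
    · exact h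
    · simp only [Sum.elim_inr] at h ⊢
      rcases h with h | ⟨h1, h2, h3⟩
      · exact Or.inl h.symm
      · exact Or.inr ⟨h1.symm, h3, h2⟩⟩
  loopless := ⟨by
    rintro (a | a) h
    · exact h
    · simp at h⟩

lemma Gp_ll {l : ℕ} (a b : Fin 1) : ¬ (Gp l).Adj (Sum.inl a) (Sum.inl b) := fun h => h

lemma Gp_lr {l : ℕ} (a : Fin 1) (b : Fin l) :
    (Gp l).Adj (Sum.inl a) (Sum.inr b) ↔ ¬ (b.val % 2 = 0 ∧ b.val < 8) := Iff.rfl

lemma Gp_rl {l : ℕ} (a : Fin 1) (b : Fin l) :
    (Gp l).Adj (Sum.inr b) (Sum.inl a) ↔ ¬ (b.val % 2 = 0 ∧ b.val < 8) := Iff.rfl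

lemma Gp_rr {l : ℕ} (a b : Fin l) :
    (Gp l).Adj (Sum.inr a) (Sum.inr b) ↔ (a.val % 2 ≠ b.val % 2 ∨
      (a ≠ b ∧ (a.val % 2 = 0 ∧ a.val < 8) ∧ (b.val % 2 = 0 ∧ b.val < 8))) := Iff.rfl

lemma five {l : ℕ} (f : Fin 10 → Fin 1 ⊕ Fin l) (hf : Function.Injective f)
    (s : Finset (Fin 10)) (hs : 5 ≤ s.card) (h : ∀ i ∈ s, inW (f i)) : False := by
  have h1 : s.card ≤ ({0, 2, 4, 6} : Finset ℕ).card := by
    apply Finset.card_le_card_of_injOn (fun i => Sum.elim (fun _ => 0) (fun b => b.val) (f i))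
    · intro i hi
      have := h i hi
      rcases hfi : f i with a | a
      · rw [hfi] at this; exact this.elim
      · rw [hfi] at this
        simp only [inW, Sum.elim_inr] at this
        simp only [hfi, Sum.elim_inr, Finset.coe_insert, Finset.coe_singleton,
          Set.mem_insert_iff, Set.mem_singleton_iff]
        omega
    · intro i hi j hj hij
      have h1 := h i hi
      have h2 := h j hj
      apply hf
      rcases hfi : f i with a | a
      · rw [hfi] at h1; exact h1.elim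
      · rcases hfj : f j with b | b
        · rw [hfj] at h2; exact h2.elim
        · simp only [hfi, hfj, Sum.elim_inr] at hij
          rw [Fin.ext hij]
  have h2 : ({0, 2, 4, 6} : Finset ℕ).card = 4 := by decide
  omega

/-- indices of the outer vertices of the triangles through `0` that avoid `u` -/
def Tu (u : Fin 10) : Finset (Fin 10) :=
  Finset.univ.filter (fun i => 1 ≤ i.val ∧ i.val ≤ 8 ∧ ¬ ((i.val + 1) / 2 = (u.val + 1) / 2))

lemma Tu_card : ∀ u, 5 ≤ (Tu u).card := by decide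

lemma Tu_spec : ∀ u i, i ∈ Tu u → ∃ j, H0.Adj i j ∧ H0.Adj 0 i ∧ H0.Adj 0 j ∧ i ≠ u ∧ j ≠ u := by
  decide

lemma Gp_free (l : ℕ) : ¬ H0.IsContained (Gp l) := by
  rintro ⟨f⟩
  have hinj := f.injective
  have hadj : ∀ i j, H0.Adj i j → (Gp l).Adj (f.toHom i) (f.toHom j) :=
    fun i j h => f.toHom.map_adj h
  generalize f.toHom = g at hinj hadj
  -- an index carrying the exceptional vertex
  have hu : ∃ u : Fin 10, ∀ i, i ≠ u → ∃ b, g i = Sum.inr b := by
    by_cases hex : ∃ u : Fin 10, g u = Sum.inl 0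
    · obtain ⟨u, hu⟩ := hex
      refine ⟨u, fun i hi => ?_⟩
      rcases hgi : g i with a | a
      · exact absurd (hinj (by rw [hgi, hu, Subsingleton.elim a 0])) hi
      · exact ⟨a, rfl⟩
    · push Not at hex
      refine ⟨0, fun i _ => ?_⟩
      rcases hgi : g i with a | a
      · exact absurd (by rw [hgi, Subsingleton.elim a 0]) (hex i)
      · exact ⟨a, rfl⟩
  obtain ⟨u, hu⟩ := hu
  rcases h0 : g 0 with a | a
  · -- the centre is the exceptional vertex
    have hr : ∀ i, i ≠ 0 → ∃ b, g i = Sum.inr b := by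
      intro i hi
      rcases hgi : g i with c | c
      · exact absurd (hinj (by rw [hgi, h0, Subsingleton.elim a c])) hi
      · exact ⟨c, rfl⟩
    obtain ⟨x, hx⟩ := hr 7 (by decide)
    obtain ⟨z, hz⟩ := hr 8 (by decide)
    obtain ⟨y, hy⟩ := hr 9 (by decide)
    have e1 := hadj 0 7 (by decide)
    have e2 := hadj 0 8 (by decide)
    have e3 := hadj 7 8 (by decide)
    have e4 := hadj 7 9 (by decide)
    have e5 := hadj 8 9 (by decide)
    rw [h0, hx, Gp_lr] at e1
    rw [h0, hz, Gp_lr] at e2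
    rw [hx, hz, Gp_rr] at e3
    rw [hx, hy, Gp_rr] at e4
    rw [hz, hy, Gp_rr] at e5
    omega
  · by_cases hW : a.val % 2 = 0 ∧ a.val < 8
    · -- the centre is one of the four special vertices
      have hpair : ∀ i j, H0.Adj 0 i → H0.Adj 0 j → H0.Adj i j → inW (g i) ∨ inW (g j) := by
        intro i j h1 h2 h3
        have e1 := hadj _ _ h1
        have e2 := hadj _ _ h2
        have e3 := hadj _ _ h3
        rw [h0] at e1 e2
        rcases hgi : g i with b | b
        · rw [hgi, Gp_rl] at e1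
          exact absurd hW e1
        · rcases hgj : g j with c | c
          · rw [hgj, Gp_rl] at e2
            exact absurd hW e2
          · rw [hgi, Gp_rr] at e1
            rw [hgj, Gp_rr] at e2
            rw [hgi, hgj, Gp_rr] at e3
            simp only [inW, Sum.elim_inr]
            omega
      have w0 : inW (g 0) := by rw [h0]; exact hW
      rcases hpair 1 2 (by decide) (by decide) (by decide) with h1 | h1 <;>
      rcases hpair 3 4 (by decide) (by decide) (by decide) with h2 | h2 <;>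
      rcases hpair 5 6 (by decide) (by decide) (by decide) with h3 | h3 <;>
      rcases hpair 7 8 (by decide) (by decide) (by decide) with h4 | h4
      · exact five g hinj {0, 1, 3, 5, 7} (by decide) (by simp [w0, h1, h2, h3, h4])
      · exact five g hinj {0, 1, 3, 5, 8} (by decide) (by simp [w0, h1, h2, h3, h4])
      · exact five g hinj {0, 1, 3, 6, 7} (by decide) (by simp [w0, h1, h2, h3, h4])
      · exact five g hinj {0, 1, 3, 6, 8} (by decide) (by simp [w0, h1, h2, h3, h4])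
      · exact five g hinj {0, 1, 4, 5, 7} (by decide) (by simp [w0, h1, h2, h3, h4])
      · exact five g hinj {0, 1, 4, 5, 8} (by decide) (by simp [w0, h1, h2, h3, h4])
      · exact five g hinj {0, 1, 4, 6, 7} (by decide) (by simp [w0, h1, h2, h3, h4])
      · exact five g hinj {0, 1, 4, 6, 8} (by decide) (by simp [w0, h1, h2, h3, h4])
      · exact five g hinj {0, 2, 3, 5, 7} (by decide) (by simp [w0, h1, h2, h3, h4])
      · exact five g hinj {0, 2, 3, 5, 8} (by decide) (by simp [w0, h1, h2, h3, h4])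
      · exact five g hinj {0, 2, 3, 6, 7} (by decide) (by simp [w0, h1, h2, h3, h4])
      · exact five g hinj {0, 2, 3, 6, 8} (by decide) (by simp [w0, h1, h2, h3, h4])
      · exact five g hinj {0, 2, 4, 5, 7} (by decide) (by simp [w0, h1, h2, h3, h4])
      · exact five g hinj {0, 2, 4, 5, 8} (by decide) (by simp [w0, h1, h2, h3, h4])
      · exact five g hinj {0, 2, 4, 6, 7} (by decide) (by simp [w0, h1, h2, h3, h4])
      · exact five g hinj {0, 2, 4, 6, 8} (by decide) (by simp [w0, h1, h2, h3, h4])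
    · -- the centre is an ordinary vertex
      apply five g hinj (Tu u) (Tu_card u)
      intro i hi
      obtain ⟨j, h1, h2, h3, h4, h5⟩ := Tu_spec u i hi
      obtain ⟨b, hb⟩ := hu i h4
      obtain ⟨c, hc⟩ := hu j h5
      have e1 := hadj _ _ h1
      have e2 := hadj _ _ h2
      have e3 := hadj _ _ h3
      rw [hb, hc, Gp_rr] at e1
      rw [h0, hb, Gp_rr] at e2
      rw [h0, hc, Gp_rr] at e3
      rw [hb]
      simp only [inW, Sum.elim_inr]
      omega

/-- the four special vertices -/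
def w4 {l : ℕ} (hl : 8 ≤ l) (i : Fin 4) : Fin 1 ⊕ Fin l := Sum.inr ⟨2 * i.val, by omega⟩

lemma w4_inj {l : ℕ} (hl : 8 ≤ l) : Function.Injective (w4 hl) := by
  intro i j hij
  have := Sum.inr_injective hij
  rw [Fin.mk.injEq] at this
  ext
  omega

lemma Gp_card {l : ℕ} (hl : 8 ≤ l) :
    (Jn (⊥ : SimpleGraph (Fin 1)) (SimpleGraph.turanGraph l 2)).edgeSet.ncard + 2 ≤
      (Gp l).edgeSet.ncard := by
  classical
  let J0 := Jn (⊥ : SimpleGraph (Fin 1)) (SimpleGraph.turanGraph l 2)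
  let Q : Set (Sym2 (Fin 1 ⊕ Fin l)) := Sym2.map (w4 hl) '' (⊤ : SimpleGraph (Fin 4)).edgeSet
  let R : Set (Sym2 (Fin 1 ⊕ Fin l)) :=
    (fun i : Fin 4 => s(Sum.inl 0, w4 hl i)) '' (Set.univ : Set (Fin 4))
  have hQ : Q.ncard = 6 := by
    have h1 : Q.ncard = ((⊤ : SimpleGraph (Fin 4)).edgeSet).ncard :=
      Set.ncard_image_of_injective _ (Sym2.map.injective (w4_inj hl))
    rw [h1, Set.ncard_eq_toFinset_card']
    decide
  have hR : R.ncard ≤ 4 := by
    have h1 : R.ncard ≤ (Set.univ : Set (Fin 4)).ncard := Set.ncard_image_le (Set.toFinite _)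
    simpa using h1
  have hdisj : Disjoint J0.edgeSet Q := by
    rw [Set.disjoint_left]
    rintro e he ⟨e', he', rfl⟩
    induction e' with
    | h i j =>
      rw [Sym2.map_mk] at he
      have := (SimpleGraph.mem_edgeSet _).1 he
      change (Jn _ _).Adj (Sum.inr _) (Sum.inr _) at this
      rw [Jn_rr] at this
      change (2 * i.val) % 2 ≠ (2 * j.val) % 2 at this
      omega
  have hsub : J0.edgeSet ∪ Q ⊆ (Gp l).edgeSet ∪ R := by
    rintro e (he | ⟨e', he', rfl⟩)
    · induction e with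
      | h x y =>
        have he' : J0.Adj x y := he
        have key : ∀ (a : Fin 1) (b : Fin l), (b.val % 2 = 0 ∧ b.val < 8) →
            s((Sum.inl a : Fin 1 ⊕ Fin l), Sum.inr b) ∈ R := by
          intro a b hb
          refine ⟨⟨b.val / 2, by omega⟩, Set.mem_univ _, ?_⟩
          have h1 : w4 hl ⟨b.val / 2, by omega⟩ = Sum.inr b := by
            unfold w4
            congr 1
            ext
            simp only
            omega
          simp only [h1, Subsingleton.elim a 0]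
        rcases x with a | a <;> rcases y with b | b
        · rw [Jn_ll] at he'
          exact absurd he' (by simp)
        · by_cases hb : b.val % 2 = 0 ∧ b.val < 8
          · exact Or.inr (key a b hb)
          · exact Or.inl ((SimpleGraph.mem_edgeSet _).2 ((Gp_lr a b).2 hb))
        · by_cases hb : a.val % 2 = 0 ∧ a.val < 8
          · right
            rw [Sym2.eq_swap]
            exact key b a hb
          · exact Or.inl ((SimpleGraph.mem_edgeSet _).2 ((Gp_rl b a).2 hb))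
        · rw [Jn_rr] at he'
          exact Or.inl ((SimpleGraph.mem_edgeSet _).2 ((Gp_rr a b).2 (Or.inl he')))
    · left
      induction e' with
      | h i j =>
        have hij : i ≠ j := he'
        rw [Sym2.map_mk]
        apply (SimpleGraph.mem_edgeSet _).2
        change (Gp l).Adj (Sum.inr _) (Sum.inr _)
        rw [Gp_rr]
        right
        refine ⟨?_, ?_, ?_⟩
        · intro h
          rw [Fin.mk.injEq] at h
          apply hij
          ext
          omega
        · simp only; omega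
        · simp only; omega
  have h1 := Set.ncard_le_ncard hsub (Set.toFinite _)
  rw [Set.ncard_union_eq hdisj (Set.toFinite _) (Set.toFinite _), hQ] at h1
  have h2 := Set.ncard_union_le (Gp l).edgeSet R
  change J0.edgeSet.ncard + 2 ≤ _
  omega

/-- The negation of the preceding statement: For every graph H with chromatic number p+1, p≥2, whose decomposition family contains a matching: there is C so that for all large n, some H-extremal n-vertex graph is a join of a B(H)-extremal graph on γ−1 vertices with a graph within C edges of T_p(n−γ+1). -/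
theorem result :
    ¬ (∀ (h p : ℕ) (H : SimpleGraph (Fin h)), H.chromaticNumber = ((p + 1 : ℕ) : ℕ∞) → 2 ≤ p →
  ∀ Dec : (m : ℕ) → SimpleGraph (Fin m) → Prop,
    (∀ (m : ℕ) (M : SimpleGraph (Fin m)), Dec m M ↔ ∃ t : ℕ, H.IsContained
      (SimpleGraph.fromRel (fun x y : Fin m ⊕ (Fin p × Fin t) =>
        Sum.elim (fun a => Sum.elim (fun b => M.Adj a b) (fun q => q.1.val ≠ 0) y)
          (fun q => Sum.elim (fun _ => q.1.val ≠ 0) (fun q' => q.1 ≠ q'.1) y) x))) →
  ∀ Mem : (m : ℕ) → SimpleGraph (Fin m) → Prop,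
    (∀ (m : ℕ) (M : SimpleGraph (Fin m)), Mem m M ↔ (Dec m M ∧
      ∀ (m' : ℕ) (M' : SimpleGraph (Fin m')), M'.IsContained M → Dec m' M' → M.IsContained M')) →
  (∃ (m : ℕ) (M : SimpleGraph (Fin m)), Mem m M ∧ ∀ v, ∃! w, M.Adj v w) →
  ∀ γ β : ℕ,
    IsLeast {k : ℕ | ∃ (m : ℕ) (M : SimpleGraph (Fin m)) (S : Finset (Fin m)), Mem m M ∧
      (∀ a b, M.Adj a b → a ∈ S ∨ b ∈ S) ∧ (∀ a ∈ S, ∀ b ∈ S, ¬ M.Adj a b) ∧ S.card = k} γ →
    IsLeast {k : ℕ | ∃ (m : ℕ) (M : SimpleGraph (Fin m)) (S : Finset (Fin m)), Mem m M ∧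
      (∀ a b, M.Adj a b → a ∈ S ∨ b ∈ S) ∧ S.card = k} β →
  ∀ BF : SimpleGraph (Fin (γ - 1)) → Prop,
    (∀ G : SimpleGraph (Fin (γ - 1)), BF G ↔
      ((β = γ → ¬ (⊤ : SimpleGraph (Fin γ)).IsContained G) ∧
       (β ≠ γ → ∀ (m : ℕ) (M : SimpleGraph (Fin m)) (S : Finset (Fin m)), Mem m M →
          (∀ a b, M.Adj a b → a ∈ S ∨ b ∈ S) → S.card < γ →
          ¬ (M.induce (S : Set (Fin m))).IsContained G))) →
  ∃ C N : ℕ, ∀ n ≥ N, ∃ (H1 : SimpleGraph (Fin (γ - 1))) (H2 : SimpleGraph (Fin (n - γ + 1))),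
    BF H1 ∧ (∀ G : SimpleGraph (Fin (γ - 1)), BF G → G.edgeSet.ncard ≤ H1.edgeSet.ncard) ∧
    (symmDiff H2.edgeSet (SimpleGraph.turanGraph (n - γ + 1) p).edgeSet).ncard ≤ C ∧
    ¬ H.IsContained (SimpleGraph.fromRel (fun x y : Fin (γ - 1) ⊕ Fin (n - γ + 1) =>
        Sum.elim (fun a => Sum.elim (fun b => H1.Adj a b) (fun _ => True) y)
          (fun a => Sum.elim (fun _ => True) (fun b => H2.Adj a b) y) x)) ∧
    ∀ G : SimpleGraph (Fin n), ¬ H.IsContained G → G.edgeSet.ncard ≤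
      (SimpleGraph.fromRel (fun x y : Fin (γ - 1) ⊕ Fin (n - γ + 1) =>
        Sum.elim (fun a => Sum.elim (fun b => H1.Adj a b) (fun _ => True) y)
          (fun a => Sum.elim (fun _ => True) (fun b => H2.Adj a b) y) x)).edgeSet.ncard) := by
  intro hall
  obtain ⟨C, N, hN⟩ := hall 10 2 H0 H0_chrom le_rfl Dec (fun _ _ => Iff.rfl) Mem
    (fun _ _ => Iff.rfl) matching_mem 2 2 gamma_least beta_least
    (fun G : SimpleGraph (Fin (2 - 1)) =>
      (((2 : ℕ) = 2 → ¬ (⊤ : SimpleGraph (Fin 2)).IsContained G) ∧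
       ((2 : ℕ) ≠ 2 → ∀ (m : ℕ) (M : SimpleGraph (Fin m)) (S : Finset (Fin m)), Mem m M →
          (∀ a b, M.Adj a b → a ∈ S ∨ b ∈ S) → S.card < 2 →
          ¬ (M.induce (S : Set (Fin m))).IsContained G))) (fun _ => Iff.rfl)
  obtain ⟨H1, H2, _, _, hs, hfree, hopt⟩ := hN (N + (2 * (2 * C + 6) + 10)) (by omega)
  have hl : 2 * (2 * C + 6) + 2 ≤ N + (2 * (2 * C + 6) + 10) - 2 + 1 := by omega
  have hn : 1 + (N + (2 * (2 * C + 6) + 10) - 2 + 1) = N + (2 * (2 * C + 6) + 10) := by omega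
  generalize N + (2 * (2 * C + 6) + 10) = n at *
  generalize n - 2 + 1 = l at *
  have hle := H2_le hl H1 H2 hs hfree
  -- transport `Gp l` to `Fin n`
  let e : Fin 1 ⊕ Fin l ≃ Fin n := finSumFinEquiv.trans (finCongr hn)
  let G' : SimpleGraph (Fin n) := (Gp l).map e
  have iso : Gp l ≃g G' := SimpleGraph.Iso.map e (Gp l)
  have hG'free : ¬ H0.IsContained G' := by
    intro h
    exact Gp_free l (h.trans iso.symm.isContained)
  have h1 := hopt G' hG'free
  have h2 : G'.edgeSet.ncard = (Gp l).edgeSet.ncard := by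
    exact (Nat.card_congr iso.mapEdgeSet).symm
  have h3 : (Jn H1 H2).edgeSet.ncard ≤
      (Jn (⊥ : SimpleGraph (Fin 1)) (SimpleGraph.turanGraph l 2)).edgeSet.ncard := by
    apply Set.ncard_le_ncard _ (Set.toFinite _)
    apply SimpleGraph.edgeSet_mono
    intro x y hxy
    rcases x with a | a <;> rcases y with b | b
    · rw [Jn_ll] at hxy
      have ha := a.isLt
      have hb := b.isLt
      exact absurd (Fin.ext (by omega)) hxy.ne
    · exact Jn_lr _ _ _ _
    · exact Jn_rl _ _ _ _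
    · rw [Jn_rr] at hxy ⊢
      exact hle hxy
  have h4 := Gp_card (l := l) (by omega)
  have h5 : G'.edgeSet.ncard ≤ (Jn H1 H2).edgeSet.ncard := h1
  omega

end Pool.Agent.S07052
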