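import Pool.Statements.S07054
import Pool.Agent.Helper998.VecMatroid

set_option autoImplicit false
open Pool Pool.MP_bb0839_co

namespace Pool.Agent.S07054

open Pool.Agent.Helper998.VecMatroid

/-- The number of ones among the lowest `n` binary digits. -/
def pc : Nat → Nat → Nat
  | 0, _ => 0
  | n + 1, m => m % 2 + pc n (m / 2)

/-- The vector of the lowest `n` binary digits. -/
def vec (n m : Nat) : Fin n → ZMod 2 := fun i => if m.testBit i then 1 else 0

theorem vec_surj (n : Nat) (x : Fin n → ZMod 2) : ∃ m < 2 ^ n, x = vec n m := by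
  refine ⟨Nat.ofBits (fun i => decide (x i = 1)), Nat.ofBits_lt_two_pow _, ?_⟩
  funext i
  simp only [vec]
  rw [Nat.testBit_ofBits_lt _ _ i.2]
  have h : x i = 0 ∨ x i = 1 := by
    generalize x i = z
    revert z
    decide
  rcases h with h | h <;> simp [h]

theorem pc_eq (n m : Nat) : pc n m = ∑ i : Fin n, if m.testBit i then 1 else 0 := by
  induction n generalizing m with
  | zero => simp [pc]
  | succ n ih =>
    rw [pc, ih, Fin.sum_univ_succ]
    congr 1
    · simp only [Fin.val_zero, Nat.testBit_zero]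
      rcases Nat.mod_two_eq_zero_or_one m with h | h <;> simp [h]
    · apply Finset.sum_congr rfl
      intro i _
      simp only [Fin.val_succ, Nat.testBit_succ]

theorem sum_vec (n m : Nat) : ∑ i, vec n m i = (pc n m : ZMod 2) := by
  rw [pc_eq]
  push_cast
  rfl

theorem vec_mul (n a b : Nat) (i : Fin n) : vec n a i * vec n b i = vec n (a &&& b) i := by
  simp only [vec, Nat.testBit_and]
  by_cases h1 : a.testBit i <;> by_cases h2 : b.testBit i <;> simp [h1, h2]

theorem vec_xor (n a b : Nat) : vec n (a ^^^ b) = vec n a + vec n b := by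
  funext i
  simp only [vec, Nat.testBit_xor, Pi.add_apply]
  by_cases h1 : a.testBit i <;> by_cases h2 : b.testBit i <;> simp [h1, h2]
  decide

theorem vec_zero (n : Nat) : vec n 0 = 0 := by
  funext i
  simp [vec]

theorem natCast_ne_zero_iff (a : Nat) : ((a : ZMod 2) ≠ 0) ↔ a % 2 = 1 := by
  rw [Ne, ZMod.natCast_eq_zero_iff_even, Nat.even_iff]
  omega

def colM : Fin 13 → Nat := ![37, 19, 47, 30, 61, 54, 32, 16, 8, 8, 4, 2, 1]

def colN : Fin 13 → Nat := ![50, 39, 13, 27, 53, 10, 32, 16, 16, 8, 4, 2, 1]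

/-- The vectors of the family with columns `col`. -/
def fam (col : Fin 13 → Nat) (x : Fin 13) : Fin 6 → ZMod 2 := vec 6 (col x)

/-- The sum of the rows selected by the binary digits of `m`. -/
def comb : List Nat → Nat → Nat
  | [], _ => 0
  | r :: rs, m => (if m % 2 = 1 then r else 0) ^^^ comb rs (m / 2)

def WM (m : Nat) : Nat := comb [4119, 2094, 1085, 796, 186, 117] m

def WN (m : Nat) : Nat := comb [4126, 2091, 1046, 556, 409, 83] m

def msL : List Nat := [
    36, 7, 18, 21, 33, 1, 2, 5, 6, 8, 12, 16,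
    19, 20, 26, 32, 35, 49, 50, 3, 4, 9, 10, 17,
    22, 24, 34, 38, 40, 43, 44, 48, 52, 57, 62, 11,
    15, 25, 29, 39, 42, 45, 53, 56, 13, 14, 28, 31]

def nsL : List Nat := [
    5, 4, 32, 36, 8, 9, 14, 13, 10, 16, 27, 46,
    41, 42, 48, 2, 1, 33, 34, 3, 11, 18, 22, 35,
    43, 50, 7, 12, 30, 17, 21, 39, 44, 49, 53, 24,
    20, 56, 52, 6, 28, 19, 38, 60, 25, 26, 57, 58]

def PL : List Nat := [
    682277475725403, 2887900688744853, 2923083007602873,
    3033033505510293, 2652603027660843, 3557500574610753,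
    1885145999315973, 3494828907253803, 3018740946056208,
    781235789246613, 1227850258985223, 1339787947107093,
    3547606010802768, 2845018914043458, 708593112062613,
    2751560787640608, 3459645071958363, 3459645072081243,
    2728469868579363, 3582791225975568, 1790585467388688,
    3314510333628993, 1326735823311648, 3564100032614913,
    1631158154834433, 3459855891502338, 2748261178429968,
    3564100047479568, 1227854537191683, 3529923590374293,
    1737950324076633, 2572340924819028, 3582791225910273,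
    3557501625762453, 1348582715306073, 2677816735457808,
    2963401918710933, 2748261178975233, 3035160000869013,
    3278227274634768, 3566370776360208, 3495928453500978,
    3318907611464193, 3575240418791508, 3581691982725378,
    3581691982529313, 3285995492888643, 3263858326787073]

def TL : List Nat := [
    15690897421, 34380899140, 1715525636, 57130856516, 12704552968,
    34582147329, 41896956064, 29884516353, 11278651524, 41947365453,
    4520678069, 53724893301, 57902385985, 11513375172, 54047495181,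
    2218917960, 8057277121, 8560594241, 61325078664, 34498169729,
    4517270176, 29139271746, 41904111797, 57835290881, 5255536714,
    8926022977, 16647303240, 42987532545, 29209662133, 16657697345,
    44690314080, 51560690504, 36964417665, 17406472449, 37563002997,
    2169617288, 34389812036, 3147149384, 42108096580, 46192122114,
    20949246209, 15922231297, 67398357058, 50366361729, 34435154049,
    34442494081, 14761857282, 2088649538]

def SL : List Nat := [
    2296068420, 34498944400, 2291406048, 46310104450, 2282088772,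
    34498946945, 1218392208, 2284960065, 17323004086, 4434234754,
    65914670468, 60277863426, 48463628161, 52757008694, 21513567677,
    4429514754, 17328261441, 16254519617, 21609509053, 34498170241,
    1221725572, 5155049538, 4890255504, 46306176001, 24833819394,
    20745044481, 17314530242, 65640080385, 66138530308, 17369419137,
    1234582916, 43084232528, 36648534145, 9131797889, 23883787650,
    33101961232, 34868043152, 22129534978, 23056883074, 50608132176,
    17808236801, 2776326657, 28067553346, 23504650369, 35161964673,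
    34893529217, 53143412804, 61396209760]

def ms (i : Fin 48) : Nat := msL.getD i 0

def ns (i : Fin 48) : Nat := nsL.getD i 0

/-- The permutation used for hyperplane `i`. -/
def perm (i : Fin 48) (x : Fin 13) : Fin 13 := Fin.ofNat 13 ((PL.getD i 0 >>> (4 * x.val)) % 16)

/-- Apply the linear map encoded by `t`. -/
def app (t x : Nat) : Nat :=
  (if x.testBit 0 then t % 64 else 0) ^^^ ((if x.testBit 1 then (t >>> 6) % 64 else 0) ^^^
  ((if x.testBit 2 then (t >>> 12) % 64 else 0) ^^^ ((if x.testBit 3 then (t >>> 18) % 64 else 0) ^^^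
  ((if x.testBit 4 then (t >>> 24) % 64 else 0) ^^^ (if x.testBit 5 then (t >>> 30) % 64 else 0)))))

theorem hWM : ∀ m < 64, ∀ j : Fin 13, pc 6 (colM j &&& m) % 2 = 1 ↔ (WM m).testBit j := by
  decide +kernel

theorem hWN : ∀ m < 64, ∀ j : Fin 13, pc 6 (colN j &&& m) % 2 = 1 ↔ (WN m).testBit j := by
  decide +kernel

theorem ltM : ∀ m < 64, WM m < 2 ^ 13 := by
  decide +kernel

theorem ltN : ∀ m < 64, WN m < 2 ^ 13 := by
  decide +kernel

theorem neM : ∀ m < 64, m ≠ 0 → WM m ≠ 0 := by
  decide +kernel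

theorem neN : ∀ m < 64, m ≠ 0 → WN m ≠ 0 := by
  decide +kernel

theorem msok : ∀ i, ms i < 64 ∧ ms i ≠ 0 := by
  decide +kernel

theorem nsok : ∀ i, ns i < 64 ∧ ns i ≠ 0 := by
  decide +kernel

theorem h1M : ∀ m < 64, m ≠ 0 → (∃ i, ms i = m) ∨
    ∃ i, WM (ms i) &&& WM m = WM (ms i) ∧ WM (ms i) ≠ WM m := by
  decide +kernel

theorem h1N : ∀ m < 64, m ≠ 0 → (∃ i, ns i = m) ∨
    ∃ i, WN (ns i) &&& WN m = WN (ns i) ∧ WN (ns i) ≠ WN m := by
  decide +kernel

theorem h2M : ∀ i, ∀ m < 64, m ≠ 0 → WM m &&& WM (ms i) = WM m → WM m = WM (ms i) := by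
  decide +kernel

theorem h2N : ∀ i, ∀ m < 64, m ≠ 0 → WN m &&& WN (ns i) = WN m → WN m = WN (ns i) := by
  decide +kernel

theorem injM : ∀ i j, WM (ms i) = WM (ms j) → i = j := by
  decide +kernel

theorem injN : ∀ i j, WN (ns i) = WN (ns j) → i = j := by
  decide +kernel

theorem perm_inj : ∀ i x y, perm i x = perm i y → x = y := by
  decide +kernel

theorem perm_hyp : ∀ i x, ((WN (ns i)).testBit (perm i x) ↔ (WM (ms i)).testBit x) := by
  decide +kernel

theorem perm_lin : ∀ i : Fin 48, ∀ x : Fin 13, (WM (ms i)).testBit x = false →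
    app (TL.getD i 0) (colM x) = colN (perm i x) := by
  decide +kernel

theorem app_inv : ∀ i : Fin 48, ∀ x < 64, app (SL.getD i 0) (app (TL.getD i 0) x) = x := by
  decide +kernel

/-- The linear map encoded by `t`. -/
def lin (t : Nat) : (Fin 6 → ZMod 2) →ₗ[ZMod 2] (Fin 6 → ZMod 2) where
  toFun := fun x => ∑ b : Fin 6, x b • vec 6 ((t >>> (6 * b.val)) % 64)
  map_add' := fun x y => by
    simp only [Pi.add_apply, add_smul, Finset.sum_add_distrib]
  map_smul' := fun r x => by
    simp only [Pi.smul_apply, smul_eq_mul, mul_smul, RingHom.id_apply, Finset.smul_sum]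

theorem smul_vec (x : Nat) (b : Fin 6) (g : Nat) :
    vec 6 x b • vec 6 g = vec 6 (if x.testBit b then g else 0) := by
  by_cases h : x.testBit b
  · simp [vec, h]
  · simp only [vec, h]
    funext i
    simp [vec]

theorem lin_vec (t x : Nat) : lin t (vec 6 x) = vec 6 (app t x) := by
  have h : lin t (vec 6 x) = ∑ b : Fin 6, vec 6 x b • vec 6 ((t >>> (6 * b.val)) % 64) := rfl
  rw [h]
  simp only [smul_vec, Fin.sum_univ_six, app, vec_xor]
  simp [add_assoc]

theorem lin_inj (i : Fin 48) : Function.Injective (lin (TL.getD i 0)) := by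
  apply Function.LeftInverse.injective (g := lin (SL.getD i 0))
  intro x
  obtain ⟨m, hm, rfl⟩ := vec_surj 6 x
  rw [lin_vec, lin_vec, app_inv i m hm]

theorem perm_injective (i : Fin 48) : Function.Injective (perm i) := fun x y h => perm_inj i x y h

/-- Hyperplane `i` of the first matroid. -/
def HM (i : Fin 48) : Set (Fin 13) := {x | (WM (ms i)).testBit x = false}

/-- Hyperplane `i` of the second matroid. -/
def HN (i : Fin 48) : Set (Fin 13) := {x | (WN (ns i)).testBit x = false}

theorem perm_mem (i : Fin 48) (x : Fin 13) : perm i x ∈ HN i ↔ x ∈ HM i := by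
  have h := perm_hyp i x
  simp only [HM, HN, Set.mem_ofPred_eq]
  cases h1 : (WN (ns i)).testBit (perm i x) <;> cases h2 : (WM (ms i)).testBit x <;> simp_all

abbrev M0 : Matroid (Fin 13) := vecMatroid (ZMod 2) (fam colM)

abbrev N0 : Matroid (Fin 13) := vecMatroid (ZMod 2) (fam colN)

theorem indep_perm (i : Fin 48) (J : Set (Fin 13)) (hJ : J ⊆ HM i) :
    M0.Indep J ↔ N0.Indep (perm i '' J) := by
  rw [vecMatroid_indep, vecMatroid_indep]
  rw [← (LinearMap.linearIndepOn_iff_of_injOn (lin (TL.getD i 0)) (lin_inj i).injOn)]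
  let e : Fin 13 ≃ Fin 13 :=
    Equiv.ofBijective (perm i) (Finite.injective_iff_bijective.1 (perm_injective i))
  have he : perm i '' J = e '' J := rfl
  rw [he, ← linearIndepOn_equiv e]
  have h : Set.EqOn (lin (TL.getD i 0) ∘ fam colM) (fam colN ∘ e) J := by
    intro x hx
    change lin (TL.getD i 0) (vec 6 (colM x)) = vec 6 (colN (perm i x))
    rw [lin_vec, perm_lin i x (hJ hx)]
  exact linearIndepOn_congr h

/-- Functionals evaluated on the family. -/
theorem dual_eval (col : Fin 13 → Nat) (f : Module.Dual (ZMod 2) (Fin 6 → ZMod 2)) :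
    ∃ m < 64, ∀ j, (f (fam col j) ≠ 0 ↔ pc 6 (col j &&& m) % 2 = 1) := by
  obtain ⟨m, hm, hx⟩ := vec_surj 6 (fun b => f (Pi.single b 1))
  refine ⟨m, hm, fun j => ?_⟩
  have h1 : fam col j = ∑ b, fam col j b • (Pi.single b (1 : ZMod 2) : Fin 6 → ZMod 2) := by
    funext k
    simp [Finset.sum_apply, Pi.single_apply]
  rw [h1, map_sum]
  have h2 : ∀ b, f (fam col j b • (Pi.single b (1 : ZMod 2) : Fin 6 → ZMod 2)) =
      vec 6 (col j &&& m) b := by
    intro b
    rw [map_smul, smul_eq_mul, ← vec_mul, ← hx]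
    rfl
  simp only [h2]
  rw [sum_vec, natCast_ne_zero_iff]

theorem exists_dual (col : Fin 13 → Nat) (m : Nat) :
    ∃ f : Module.Dual (ZMod 2) (Fin 6 → ZMod 2),
      ∀ j, (f (fam col j) ≠ 0 ↔ pc 6 (col j &&& m) % 2 = 1) := by
  refine ⟨∑ b, vec 6 m b • (LinearMap.proj b : (Fin 6 → ZMod 2) →ₗ[ZMod 2] ZMod 2), fun j => ?_⟩
  rw [← natCast_ne_zero_iff, ← sum_vec]
  simp only [LinearMap.sum_apply, LinearMap.smul_apply, LinearMap.proj_apply, smul_eq_mul, fam]
  simp only [mul_comm (vec 6 m _), vec_mul]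

theorem and_eq_of {a b : Nat} (ha : a < 2 ^ 13)
    (h : ∀ j : Fin 13, a.testBit j = true → b.testBit j = true) : a &&& b = a := by
  apply Nat.eq_of_testBit_eq
  intro j
  rw [Nat.testBit_and]
  by_cases hj : j < 13
  · have := h ⟨j, hj⟩
    simp only at this
    cases h1 : a.testBit j
    · simp
    · simp [this h1]
  · have : a.testBit j = false := by
      apply Nat.testBit_lt_two_pow
      exact lt_of_lt_of_le ha (Nat.pow_le_pow_right (by norm_num) (by omega))
    simp [this]

theorem eq_of_bits {a b : Nat} (ha : a < 2 ^ 13) (hb : b < 2 ^ 13)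
    (h : ∀ j : Fin 13, (a.testBit j = true ↔ b.testBit j = true)) : a = b := by
  have h1 := and_eq_of ha (fun j => (h j).1)
  have h2 := and_eq_of hb (fun j => (h j).2)
  rw [Nat.and_comm] at h2
  rw [← h1, h2]

theorem cocirc_iff (col : Fin 13 → Nat) (W : Nat → Nat) (c : Fin 48 → Nat)
    (hW : ∀ m < 64, ∀ j : Fin 13, pc 6 (col j &&& m) % 2 = 1 ↔ (W m).testBit j)
    (hlt : ∀ m < 64, W m < 2 ^ 13) (hne : ∀ m < 64, m ≠ 0 → W m ≠ 0)
    (hc : ∀ i, c i < 64 ∧ c i ≠ 0) (hW0 : W 0 = 0)
    (h1 : ∀ m < 64, m ≠ 0 → (∃ i, c i = m) ∨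
      ∃ i, W (c i) &&& W m = W (c i) ∧ W (c i) ≠ W m)
    (h2 : ∀ i, ∀ m < 64, m ≠ 0 → W m &&& W (c i) = W m → W m = W (c i))
    (K : Set (Fin 13)) :
    (vecMatroid (ZMod 2) (fam col)).IsCocircuit K ↔
      ∃ i, K = {j : Fin 13 | (W (c i)).testBit j = true} := by
  have hback : ∀ i, (vecMatroid (ZMod 2) (fam col)).IsCocircuit
      {j : Fin 13 | (W (c i)).testBit j = true} := by
    intro i
    obtain ⟨f, hf⟩ := exists_dual col (c i)
    have hset : {j : Fin 13 | (W (c i)).testBit j = true} = {j | f (fam col j) ≠ 0} := by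
      ext j
      simp only [Set.mem_ofPred_eq]
      rw [hf j, hW _ (hc i).1]
    rw [hset]
    apply isCocircuit_of_minimal
    · by_contra hcon
      push Not at hcon
      apply hne _ (hc i).1 (hc i).2
      apply eq_of_bits (hlt _ (hc i).1) (by norm_num)
      intro j
      rw [← hW _ (hc i).1, ← hf j]
      simp [hcon j]
    · intro g hg hgf j hj
      obtain ⟨m, hm, hmj⟩ := dual_eval col g
      have hm0 : m ≠ 0 := by
        rintro rfl
        obtain ⟨k, hk⟩ := hg
        rw [hmj k, hW 0 (by norm_num), hW0] at hk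
        simp at hk
      have hsub : W m &&& W (c i) = W m := by
        apply and_eq_of (hlt m hm)
        intro k hk
        rw [← hW m hm, ← hmj k] at hk
        have := hgf k hk
        rw [hf k, hW _ (hc i).1] at this
        exact this
      have heq := h2 i m hm hm0 hsub
      rw [hmj j, hW m hm, heq, ← hW _ (hc i).1, ← hf j]
      exact hj
  constructor
  · intro hK
    obtain ⟨f, ⟨k, hk⟩, rfl⟩ := exists_of_isCocircuit _ hK
    obtain ⟨m, hm, hmj⟩ := dual_eval col f
    have hset : {j | f (fam col j) ≠ 0} = {j : Fin 13 | (W m).testBit j = true} := by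
      ext j
      simp only [Set.mem_ofPred_eq]
      rw [hmj j, hW m hm]
    have hm0 : m ≠ 0 := by
      rintro rfl
      rw [hmj k, hW 0 (by norm_num), hW0] at hk
      simp at hk
    rcases h1 m hm hm0 with ⟨i, rfl⟩ | ⟨i, hi1, hi2⟩
    · exact ⟨i, hset⟩
    · exfalso
      apply hi2
      have hsub : {j : Fin 13 | (W (c i)).testBit j = true} ⊆ {j | f (fam col j) ≠ 0} := by
        rw [hset]
        intro j hj
        simp only [Set.mem_ofPred_eq] at hj ⊢
        rw [← hi1, Nat.testBit_and, Bool.and_eq_true] at hj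
        exact hj.2
      have heq := (hback i).eq_of_subset_isCircuit hK hsub
      rw [hset] at heq
      apply eq_of_bits (hlt _ (hc i).1) (hlt m hm)
      intro j
      exact Set.ext_iff.1 heq j
  · rintro ⟨i, rfl⟩
    exact hback i

theorem cocircM (K : Set (Fin 13)) :
    M0.IsCocircuit K ↔ ∃ i, K = {j : Fin 13 | (WM (ms i)).testBit j = true} :=
  cocirc_iff colM WM ms hWM ltM neM msok (by decide +kernel) h1M h2M K

theorem cocircN (K : Set (Fin 13)) :
    N0.IsCocircuit K ↔ ∃ i, K = {j : Fin 13 | (WN (ns i)).testBit j = true} :=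
  cocirc_iff colN WN ns hWN ltN neN nsok (by decide +kernel) h1N h2N K

theorem isCircuit_map {α β : Type} (M : Matroid α) (f : α ↪ β) (C : Set β) :
    (M.mapEmbedding f).IsCircuit C ↔ ∃ C₀, M.IsCircuit C₀ ∧ C = f '' C₀ := by
  rw [Matroid.isCircuit_iff]
  have hdep : ∀ D, (M.mapEmbedding f).Dep D ↔ ∃ D₀, M.Dep D₀ ∧ D = f '' D₀ :=
    fun D => Matroid.map_dep_iff
  constructor
  · rintro ⟨h1, h2⟩
    obtain ⟨C₀, hC₀, rfl⟩ := (hdep C).1 h1
    refine ⟨C₀, ?_, rfl⟩
    rw [Matroid.isCircuit_iff]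
    refine ⟨hC₀, fun D hD hDC => ?_⟩
    have := h2 ((hdep _).2 ⟨D, hD, rfl⟩) (Set.image_mono hDC)
    exact f.injective.image_injective this
  · rintro ⟨C₀, hC₀, rfl⟩
    rw [Matroid.isCircuit_iff] at hC₀
    refine ⟨(hdep _).2 ⟨C₀, hC₀.1, rfl⟩, fun D hD hDC => ?_⟩
    obtain ⟨D₀, hD₀, rfl⟩ := (hdep D).1 hD
    rw [Set.image_subset_image_iff f.injective] at hDC
    rw [hC₀.2 hD₀ hDC]

theorem isCocircuit_map {α β : Type} (M : Matroid α) (f : α ↪ β) (C : Set β) :
    (M.mapEmbedding f).IsCocircuit C ↔ ∃ C₀, M.IsCocircuit C₀ ∧ C = f '' C₀ := by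
  have h : (M.mapEmbedding f)✶ = M✶.mapEmbedding f := Matroid.map_dual
  rw [Matroid.isCocircuit_def, h, isCircuit_map]

abbrev M : Matroid ℕ := M0.mapEmbedding Fin.valEmbedding

abbrev N : Matroid ℕ := N0.mapEmbedding Fin.valEmbedding

theorem ground_eq {P : Matroid (Fin 13)} (hP : P.E = Set.univ) :
    (P.mapEmbedding Fin.valEmbedding).E = Fin.val '' (Set.univ : Set (Fin 13)) := by
  rw [Matroid.mapEmbedding_ground_eq, hP]
  rfl

theorem hyp_iff {P : Matroid (Fin 13)} (hP : P.E = Set.univ) (H : Set ℕ) :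
    (H ⊆ (P.mapEmbedding Fin.valEmbedding).E ∧
      (P.mapEmbedding Fin.valEmbedding).IsCocircuit ((P.mapEmbedding Fin.valEmbedding).E \ H)) ↔
      ∃ K, P.IsCocircuit K ∧ H = Fin.val '' Kᶜ := by
  rw [isCocircuit_map, ground_eq hP]
  constructor
  · rintro ⟨hH, K, hK, h⟩
    refine ⟨K, hK, ?_⟩
    have h1 : H = Fin.val '' (Set.univ : Set (Fin 13)) \ (Fin.val '' (Set.univ : Set (Fin 13)) \ H) := by
      rw [Set.sdiff_sdiff_right_self, Set.inter_eq_right.2 hH]
    rw [h1, h]
    change _ \ (Fin.val '' K) = _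
    rw [← Set.image_sdiff Fin.val_injective, Set.compl_eq_univ_sdiff]
  · rintro ⟨K, hK, rfl⟩
    refine ⟨Set.image_mono (Set.subset_univ _), K, hK, ?_⟩
    change _ = Fin.val '' K
    rw [← Set.image_sdiff Fin.val_injective, ← Set.compl_eq_univ_sdiff, compl_compl]

theorem hypM_iff (H : Set ℕ) : (H ⊆ M.E ∧ M.IsCocircuit (M.E \ H)) ↔ ∃ i, H = Fin.val '' HM i := by
  rw [hyp_iff rfl]
  constructor
  · rintro ⟨K, hK, rfl⟩
    obtain ⟨i, rfl⟩ := (cocircM K).1 hK
    refine ⟨i, ?_⟩
    congr 1
    ext x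
    simp [HM]
  · rintro ⟨i, rfl⟩
    refine ⟨_, (cocircM _).2 ⟨i, rfl⟩, ?_⟩
    congr 1
    ext x
    simp [HM]

theorem hypN_iff (H : Set ℕ) : (H ⊆ N.E ∧ N.IsCocircuit (N.E \ H)) ↔ ∃ i, H = Fin.val '' HN i := by
  rw [hyp_iff rfl]
  constructor
  · rintro ⟨K, hK, rfl⟩
    obtain ⟨i, rfl⟩ := (cocircN K).1 hK
    refine ⟨i, ?_⟩
    congr 1
    ext x
    simp [HN]
  · rintro ⟨i, rfl⟩
    refine ⟨_, (cocircN _).2 ⟨i, rfl⟩, ?_⟩
    congr 1
    ext x
    simp [HN]

theorem HM_inj : Function.Injective HM := by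
  intro i j h
  apply injM
  apply eq_of_bits (ltM _ (msok i).1) (ltM _ (msok j).1)
  intro x
  have := Set.ext_iff.1 h x
  simp only [HM, Set.mem_ofPred_eq] at this
  cases h1 : (WM (ms i)).testBit x <;> cases h2 : (WM (ms j)).testBit x <;> simp_all

theorem HN_inj : Function.Injective HN := by
  intro i j h
  apply injN
  apply eq_of_bits (ltN _ (nsok i).1) (ltN _ (nsok j).1)
  intro x
  have := Set.ext_iff.1 h x
  simp only [HN, Set.mem_ofPred_eq] at this
  cases h1 : (WN (ns i)).testBit x <;> cases h2 : (WN (ns j)).testBit x <;> simp_all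

noncomputable def eqM : Fin 48 ≃ {H : Set ℕ // H ⊆ M.E ∧ M.IsCocircuit (M.E \ H)} :=
  Equiv.ofBijective (fun i => ⟨Fin.val '' HM i, (hypM_iff _).2 ⟨i, rfl⟩⟩) (by
    constructor
    · intro i j h
      simp only [Subtype.mk.injEq] at h
      exact HM_inj (Fin.val_injective.image_injective h)
    · rintro ⟨H, hH⟩
      obtain ⟨i, rfl⟩ := (hypM_iff H).1 hH
      exact ⟨i, rfl⟩)

noncomputable def eqN : Fin 48 ≃ {H : Set ℕ // H ⊆ N.E ∧ N.IsCocircuit (N.E \ H)} :=
  Equiv.ofBijective (fun i => ⟨Fin.val '' HN i, (hypN_iff _).2 ⟨i, rfl⟩⟩) (by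
    constructor
    · intro i j h
      simp only [Subtype.mk.injEq] at h
      exact HN_inj (Fin.val_injective.image_injective h)
    · rintro ⟨H, hH⟩
      obtain ⟨i, rfl⟩ := (hypN_iff H).1 hH
      exact ⟨i, rfl⟩)

/-- The permutation `perm i` acting on natural numbers below 13. -/
def liftP (i : Fin 48) (n : ℕ) : ℕ := if h : n < 13 then (perm i ⟨n, h⟩).val else n

theorem liftP_val (i : Fin 48) (x : Fin 13) : liftP i x.val = (perm i x).val := by
  simp [liftP]

theorem liftP_bij (i : Fin 48) : Set.BijOn (liftP i) (Fin.val '' HM i) (Fin.val '' HN i) := by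
  refine ⟨?_, ?_, ?_⟩
  · rintro _ ⟨x, hx, rfl⟩
    exact ⟨perm i x, (perm_mem i x).2 hx, (liftP_val i x).symm⟩
  · rintro _ ⟨x, _, rfl⟩ _ ⟨y, _, rfl⟩ h
    rw [liftP_val, liftP_val] at h
    rw [perm_injective i (Fin.val_injective h)]
  · rintro _ ⟨y, hy, rfl⟩
    obtain ⟨x, rfl⟩ := (Finite.injective_iff_surjective.1 (perm_injective i)) y
    exact ⟨x.val, ⟨x, (perm_mem i x).1 hy, rfl⟩, liftP_val i x⟩

theorem map_indep {P : Matroid (Fin 13)} (_hP : P.E = Set.univ) (J : Set (Fin 13)) :
    (P.mapEmbedding Fin.valEmbedding).Indep (Fin.val '' J) ↔ P.Indep J := by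
  rw [Matroid.mapEmbedding_indep_iff]
  have h1 : (Fin.valEmbedding : Fin 13 ↪ ℕ) ⁻¹' (Fin.val '' J) = J :=
    Set.preimage_image_eq J Fin.val_injective
  rw [h1]
  refine ⟨fun h => h.1, fun h => ⟨h, ?_⟩⟩
  rintro _ ⟨x, _, rfl⟩
  exact ⟨x, rfl⟩

theorem deck (i : Fin 48) :
    ∃ e : ↥(Fin.val '' HM i) ≃ ↥(Fin.val '' HN i), ∀ I : Set ↥(Fin.val '' HM i),
      (M.restrict (Fin.val '' HM i)).Indep (Subtype.val '' I) ↔
        (N.restrict (Fin.val '' HN i)).Indep (Subtype.val '' (e '' I)) := by
  refine ⟨(liftP_bij i).equiv _, fun I => ?_⟩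
  have h1 : (Subtype.val '' (((liftP_bij i).equiv _) '' I) : Set ℕ) =
      liftP i '' (Subtype.val '' I) := by
    rw [Set.image_image, Set.image_image]
    rfl
  have h2 : (Subtype.val '' I : Set ℕ) ⊆ Fin.val '' HM i := by
    rintro _ ⟨x, _, rfl⟩
    exact x.2
  obtain ⟨J, hJ, hJI⟩ := Set.subset_image_iff.1 h2
  rw [h1, Matroid.restrict_indep_iff, Matroid.restrict_indep_iff]
  have h3 : liftP i '' (Subtype.val '' I) ⊆ Fin.val '' HN i :=
    (Set.image_mono h2).trans (liftP_bij i).mapsTo.image_subset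
  simp only [h2, h3, and_true]
  rw [← hJI]
  have h4 : liftP i '' (Fin.val '' J) = Fin.val '' (perm i '' J) := by
    rw [Set.image_image, Set.image_image]
    exact Set.image_congr fun x _ => liftP_val i x
  rw [h4, map_indep rfl, map_indep rfl]
  exact indep_perm i J hJ

theorem even_inter0 (col : Fin 13 → Nat) {C K : Set (Fin 13)}
    (hC : (vecMatroid (ZMod 2) (fam col)).IsCircuit C)
    (hK : (vecMatroid (ZMod 2) (fam col)).IsCocircuit K) : Even (C ∩ K).ncard := by
  classical
  obtain ⟨c, hc, hrel, rfl⟩ := exists_of_isCircuit (fam col) hC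
  obtain ⟨f, hf, rfl⟩ := exists_of_isCocircuit (fam col) hK
  have h1 := congrArg f hrel
  rw [map_zero, map_sum] at h1
  simp only [map_smul, smul_eq_mul] at h1
  have h2 : Function.support c ∩ {i | f (fam col i) ≠ 0} =
      ((Finset.univ.filter (fun i => c i * f (fam col i) = 1) : Finset (Fin 13)) : Set (Fin 13)) := by
    ext i
    simp only [Set.mem_inter_iff, Function.mem_support, Set.mem_ofPred_eq, Finset.coe_filter,
      Finset.mem_univ, true_and]
    generalize c i = x
    generalize f (fam col i) = y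
    revert x y
    decide
  rw [h2, Set.ncard_coe_finset, ← ZMod.natCast_eq_zero_iff_even, Finset.card_filter]
  push_cast
  refine Eq.trans (Finset.sum_congr rfl fun i _ => ?_) h1
  have h : c i * f (fam col i) = 0 ∨ c i * f (fam col i) = 1 := by
    generalize c i * f (fam col i) = z
    revert z
    decide
  rcases h with h | h
  · simp [h]
  · simp [h]

theorem even_inter {C K : Set ℕ} (hC : M.IsCircuit C) (hK : M.IsCocircuit K) :
    Even (C ∩ K).ncard := by
  obtain ⟨C₀, hC₀, rfl⟩ := (isCircuit_map _ _ _).1 hC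
  obtain ⟨K₀, hK₀, rfl⟩ := (isCocircuit_map _ _ _).1 hK
  rw [← Set.image_inter (Fin.valEmbedding.injective),
    Set.ncard_image_of_injective _ (Fin.valEmbedding.injective)]
  exact even_inter0 colM hC₀ hK₀

/-- Four vectors whose only linear relation is that their sum vanishes form a circuit. -/
theorem circ4 (col : Fin 13 → Nat) (a b c d : Fin 13) (hab : a ≠ b) (hac : a ≠ c) (had : a ≠ d)
    (hbc : b ≠ c) (hbd : b ≠ d) (hcd : c ≠ d)
    (h1 : fam col a + fam col b + fam col c + fam col d = 0)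
    (h2 : ∀ p q r s : ZMod 2, p • fam col a + q • fam col b + r • fam col c + s • fam col d = 0 →
      (p = 0 ∧ q = 0 ∧ r = 0 ∧ s = 0) ∨ (p = 1 ∧ q = 1 ∧ r = 1 ∧ s = 1)) :
    (vecMatroid (ZMod 2) (fam col)).IsCircuit ({a, b, c, d} : Finset (Fin 13)) := by
  have hsum : ∀ x : Fin 13 → ZMod 2, Function.support x ⊆ (({a, b, c, d} : Finset (Fin 13)) : Set (Fin 13)) →
      ∑ i, x i • fam col i = x a • fam col a + x b • fam col b + x c • fam col c + x d • fam col d := by
    intro x hx
    have h3 : ∑ i, x i • fam col i = ∑ i ∈ ({a, b, c, d} : Finset (Fin 13)), x i • fam col i := by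
      symm
      apply Finset.sum_subset (Finset.subset_univ _)
      intro i _ hi
      have : x i = 0 := by
        by_contra hne
        exact hi (by exact_mod_cast hx hne)
      rw [this, zero_smul]
    rw [h3, Finset.sum_insert (by simp [hab, hac, had]), Finset.sum_insert (by simp [hbc, hbd]),
      Finset.sum_insert (by simp [hcd]), Finset.sum_singleton]
    simp only [add_assoc]
  let x : Fin 13 → ZMod 2 := fun i => if i ∈ ({a, b, c, d} : Finset (Fin 13)) then 1 else 0
  have hxs : Function.support x = (({a, b, c, d} : Finset (Fin 13)) : Set (Fin 13)) := by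
    ext i
    by_cases hi : i ∈ ({a, b, c, d} : Finset (Fin 13))
    · simp only [Function.mem_support, x, if_pos hi, Finset.mem_coe]
      simp [hi]
    · simp only [Function.mem_support, x, if_neg hi, Finset.mem_coe]
      simp [hi]
  rw [← hxs]
  apply isCircuit_of_minimal
  · intro h0
    have := congrFun h0 a
    simp [x] at this
  · rw [IsRel, hsum x hxs.subset]
    simp only [x, Finset.mem_insert, Finset.mem_singleton, true_or, or_true, if_true, one_smul]
    exact h1
  · intro y hy hrel hsub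
    rw [hxs] at hsub ⊢
    rw [IsRel, hsum y hsub] at hrel
    rcases h2 _ _ _ _ hrel with ⟨ha, hb, hc, hd⟩ | ⟨ha, hb, hc, hd⟩
    · exfalso
      apply hy
      funext i
      by_contra hne
      have hi := hsub hne
      simp only [Finset.coe_insert, Finset.coe_singleton, Set.mem_insert_iff,
        Set.mem_singleton_iff] at hi
      rcases hi with rfl | rfl | rfl | rfl
      · exact hne ha
      · exact hne hb
      · exact hne hc
      · exact hne hd
    · intro i hi
      simp only [Finset.coe_insert, Finset.coe_singleton, Set.mem_insert_iff,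
        Set.mem_singleton_iff] at hi
      rw [Function.mem_support]
      rcases hi with rfl | rfl | rfl | rfl
      · rw [ha]; decide
      · rw [hb]; decide
      · rw [hc]; decide
      · rw [hd]; decide

/-- Five circuits of the first matroid through the element 0, without the element 0. -/
def tri : Fin 5 → Fin 13 × Fin 13 × Fin 13 :=
  ![(4, 7, 8), (4, 7, 9), (2, 8, 11), (2, 9, 11), (6, 10, 12)]

theorem tri_ok : ∀ t : Fin 5, (0 : Fin 13) ≠ (tri t).1 ∧ (0 : Fin 13) ≠ (tri t).2.1 ∧
    (0 : Fin 13) ≠ (tri t).2.2 ∧ (tri t).1 ≠ (tri t).2.1 ∧ (tri t).1 ≠ (tri t).2.2 ∧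
    (tri t).2.1 ≠ (tri t).2.2 := by
  decide +kernel

theorem tri_sum : ∀ t : Fin 5, fam colM 0 + fam colM (tri t).1 + fam colM (tri t).2.1 +
    fam colM (tri t).2.2 = 0 := by
  decide +kernel

theorem tri_ind : ∀ t : Fin 5, ∀ p q r s : ZMod 2, p • fam colM 0 + q • fam colM (tri t).1 +
    r • fam colM (tri t).2.1 + s • fam colM (tri t).2.2 = 0 →
      (p = 0 ∧ q = 0 ∧ r = 0 ∧ s = 0) ∨ (p = 1 ∧ q = 1 ∧ r = 1 ∧ s = 1) := by
  decide +kernel

/-- The circuit with index `t`. -/
def qd (t : Fin 5) : Finset (Fin 13) := {0, (tri t).1, (tri t).2.1, (tri t).2.2}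

theorem qd_inj : ∀ s t : Fin 5, qd s = qd t → s = t := by
  decide +kernel

theorem qd_circ (t : Fin 5) : M0.IsCircuit (qd t) := by
  obtain ⟨h1, h2, h3, h4, h5, h6⟩ := tri_ok t
  exact circ4 colM 0 _ _ _ h1 h2 h3 h4 h5 h6 (tri_sum t) (tri_ind t)

/-- The four-element circuits of the second matroid. -/
def LN : List (Finset (Fin 13)) :=
  [{0, 2, 4, 5}, {0, 1, 4, 6}, {1, 2, 5, 6}, {1, 4, 7, 11}, {0, 6, 7, 11}, {1, 4, 8, 11},
    {0, 6, 8, 11}, {3, 5, 7, 12}, {3, 5, 8, 12}, {2, 9, 10, 12}]

theorem LN_all : ∀ y a b c : Fin 13, colN y ^^^ (colN a ^^^ (colN b ^^^ colN c)) = 0 →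
    y ≠ a → y ≠ b → y ≠ c → a ≠ b → a ≠ c → b ≠ c → ({y, a, b, c} : Finset (Fin 13)) ∈ LN := by
  decide +kernel

theorem LN_few : ∀ y : Fin 13, (LN.filter (fun s => decide (y ∈ s))).length ≤ 4 := by
  decide +kernel

theorem xor_lt : ∀ y a b c : Fin 13, colN y ^^^ (colN a ^^^ (colN b ^^^ colN c)) < 64 := by
  have h : ∀ x, colN x < 2 ^ 6 := by decide +kernel
  intro y a b c
  exact Nat.xor_lt_two_pow (h y) (Nat.xor_lt_two_pow (h a) (Nat.xor_lt_two_pow (h b) (h c)))

theorem vec_eq_zero {m : Nat} (hm : m < 64) (h : vec 6 m = 0) : m = 0 := by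
  apply eq_of_bits (a := m) (b := 0) (lt_trans hm (by norm_num)) (by norm_num)
  intro j
  by_cases hj : j.val < 6
  · have := congrFun h ⟨j.val, hj⟩
    simp only [vec, Pi.zero_apply] at this
    cases h1 : m.testBit j
    · simp
    · simp [h1] at this
  · have : m.testBit j = false := by
      apply Nat.testBit_lt_two_pow
      exact lt_of_lt_of_le hm (Nat.pow_le_pow_right (n := 2) (by norm_num) (by omega : 6 ≤ j.val))
    simp [this]

/-- A four-element circuit of the second matroid has zero sum. -/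
theorem sum_of_circ {y a b c : Fin 13} (hya : y ≠ a) (hyb : y ≠ b) (hyc : y ≠ c) (hab : a ≠ b)
    (hac : a ≠ c) (hbc : b ≠ c) (h : N0.IsCircuit ({y, a, b, c} : Finset (Fin 13))) :
    ({y, a, b, c} : Finset (Fin 13)) ∈ LN := by
  obtain ⟨x, hx, hrel, hs⟩ := exists_of_isCircuit (fam colN) h
  have hone : ∀ i ∈ ({y, a, b, c} : Finset (Fin 13)), x i = 1 := by
    intro i hi
    have h1 : x i ≠ 0 := by
      rw [← Function.mem_support, hs]
      exact_mod_cast hi
    have h2 : x i = 0 ∨ x i = 1 := by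
      generalize x i = z
      revert z
      decide
    exact h2.resolve_left h1
  have hsum : ∑ i, x i • fam colN i = ∑ i ∈ ({y, a, b, c} : Finset (Fin 13)), fam colN i := by
    rw [← Finset.sum_subset (Finset.subset_univ ({y, a, b, c} : Finset (Fin 13)))]
    · refine Finset.sum_congr rfl fun i hi => ?_
      rw [hone i hi, one_smul]
    · intro i _ hi
      have : x i = 0 := by
        by_contra hne
        have h3 : i ∈ Function.support x := hne
        rw [hs] at h3
        exact hi (by exact_mod_cast h3)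
      rw [this, zero_smul]
  rw [IsRel, hsum, Finset.sum_insert (by simp [hya, hyb, hyc]),
    Finset.sum_insert (by simp [hab, hac]), Finset.sum_insert (by simp [hbc]),
    Finset.sum_singleton] at hrel
  simp only [fam, ← vec_xor] at hrel
  exact LN_all y a b c (vec_eq_zero (xor_lt y a b c) hrel) hya hyb hyc hab hac hbc

theorem no_iso (g : Fin 13 → Fin 13) (hg : Function.Injective g)
    (h : ∀ J : Set (Fin 13), M0.Indep J ↔ N0.Indep (g '' J)) : False := by
  have hcirc : ∀ C : Set (Fin 13), M0.IsCircuit C → N0.IsCircuit (g '' C) := by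
    intro C hC
    rw [Matroid.isCircuit_iff_dep_forall_sdiff_singleton_indep] at hC ⊢
    refine ⟨?_, ?_⟩
    · rw [Matroid.dep_iff]
      refine ⟨?_, Set.subset_univ _⟩
      rw [← h]
      exact hC.1.not_indep
    · rintro _ ⟨e, he, rfl⟩
      rw [← Set.image_singleton, ← Set.image_sdiff hg, ← h]
      exact hC.2 e he
  have hmem : ∀ t : Fin 5, (qd t).image g ∈ LN.filter (fun s => decide (g 0 ∈ s)) := by
    intro t
    obtain ⟨h1, h2, h3, h4, h5, h6⟩ := tri_ok t
    have himg : (qd t).image g = {g 0, g (tri t).1, g (tri t).2.1, g (tri t).2.2} := by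
      simp [qd, Finset.image_insert]
    rw [List.mem_filter]
    refine ⟨?_, ?_⟩
    · rw [himg]
      apply sum_of_circ (hg.ne h1) (hg.ne h2) (hg.ne h3) (hg.ne h4) (hg.ne h5) (hg.ne h6)
      rw [← himg, Finset.coe_image]
      exact hcirc _ (qd_circ t)
    · rw [himg]
      simp
  have hsub : (Finset.univ : Finset (Fin 5)).image (fun t => (qd t).image g) ⊆
      (LN.filter (fun s => decide (g 0 ∈ s))).toFinset := by
    intro s hs
    rw [Finset.mem_image] at hs
    obtain ⟨t, -, rfl⟩ := hs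
    exact List.mem_toFinset.2 (hmem t)
  have hcard := Finset.card_le_card hsub
  rw [Finset.card_image_of_injective _
    (fun s t hst => qd_inj s t (Finset.image_injective hg hst))] at hcard
  have h1 := List.toFinset_card_le (LN.filter (fun s => decide (g 0 ∈ s)))
  have h2 := LN_few (g 0)
  simp only [Finset.card_univ, Fintype.card_fin] at hcard
  omega

theorem rank_ge : 2 ≤ M.eRank := by
  have h1 : M0.Indep {11, 12} := by
    rw [vecMatroid_indep, linearIndepOn_pair_iff]
    · intro c hc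
      have h2 := congrFun hc 0
      revert h2
      revert c
      decide +kernel
    · decide
    · decide +kernel
  have h2 : M.Indep (Fin.val '' ({11, 12} : Set (Fin 13))) := (map_indep rfl _).2 h1
  have h3 := h2.encard_le_eRank
  rw [Fin.val_injective.encard_image, Set.encard_pair (by decide)] at h3
  exact h3

/-- The negation of the preceding statement: Let M be a finite binary matroid (circuits meet cocircuits evenly) of rank at least 2, and N a finite matroid. If some bijection between their hyperplanes has isomorphic restrictions on each hyperplane, then M and N are isomorphic. -/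
theorem result :
    ¬ (∀ (M N : Matroid ℕ), M.Finite → N.Finite → 2 ≤ M.eRank →
    (∀ C D : Set ℕ, M.IsCircuit C → M.IsCocircuit D → Even (C ∩ D).ncard) →
    ∀ α : {H : Set ℕ // H ⊆ M.E ∧ M.IsCocircuit (M.E \ H)} ≃
          {H : Set ℕ // H ⊆ N.E ∧ N.IsCocircuit (N.E \ H)},
      (∀ H : {H : Set ℕ // H ⊆ M.E ∧ M.IsCocircuit (M.E \ H)},
        ∃ e : ↥H.1 ≃ ↥(α H).1, ∀ I : Set ↥H.1,
          (M.restrict H.1).Indep (Subtype.val '' I) ↔
            (N.restrict (α H).1).Indep (Subtype.val '' (e '' I))) →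
      ∃ e : ↥M.E ≃ ↥N.E, ∀ I : Set ↥M.E,
        M.Indep (Subtype.val '' I) ↔ N.Indep (Subtype.val '' (e '' I))) := by
  intro hall
  have hME : M.E = Fin.val '' (Set.univ : Set (Fin 13)) := ground_eq rfl
  have hNE : N.E = Fin.val '' (Set.univ : Set (Fin 13)) := ground_eq rfl
  have hMf : M.Finite := ⟨by rw [hME]; exact Set.toFinite _⟩
  have hNf : N.Finite := ⟨by rw [hNE]; exact Set.toFinite _⟩
  obtain ⟨e, he⟩ := hall M N hMf hNf rank_ge (fun C D hC hD => even_inter hC hD)
    (eqM.symm.trans eqN) (by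
      intro H
      obtain ⟨i, rfl⟩ := eqM.surjective H
      rw [Equiv.trans_apply, Equiv.symm_apply_apply]
      exact deck i)
  have hmemM : ∀ x : Fin 13, x.val ∈ M.E := fun x => by
    rw [hME]
    exact ⟨x, Set.mem_univ _, rfl⟩
  have hlt : ∀ x : Fin 13, (e ⟨x.val, hmemM x⟩).1 < 13 := by
    intro x
    have h1 : (e ⟨x.val, hmemM x⟩).1 ∈ Fin.val '' (Set.univ : Set (Fin 13)) :=
      hNE.subset (e ⟨x.val, hmemM x⟩).2
    obtain ⟨y, -, hy⟩ := h1
    rw [← hy]
    exact y.2
  let g : Fin 13 → Fin 13 := fun x => ⟨(e ⟨x.val, hmemM x⟩).1, hlt x⟩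
  have hg : Function.Injective g := by
    intro x y hxy
    have h1 : (e ⟨x.val, hmemM x⟩).1 = (e ⟨y.val, hmemM y⟩).1 := congrArg Fin.val hxy
    have h2 := e.injective (Subtype.ext h1)
    exact Fin.val_injective (congrArg Subtype.val h2)
  refine no_iso g hg fun J => ?_
  let I : Set ↥M.E := {y | ∃ x ∈ J, x.val = y.1}
  have hI : (Subtype.val '' I : Set ℕ) = Fin.val '' J := by
    ext n
    constructor
    · rintro ⟨y, ⟨x, hx, hxy⟩, rfl⟩
      exact ⟨x, hx, hxy⟩
    · rintro ⟨x, hx, rfl⟩
      exact ⟨⟨x.val, hmemM x⟩, ⟨x, hx, rfl⟩, rfl⟩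
  have hI2 : (Subtype.val '' (e '' I) : Set ℕ) = Fin.val '' (g '' J) := by
    ext n
    constructor
    · rintro ⟨_, ⟨⟨y, hy⟩, ⟨x, hx, rfl⟩, rfl⟩, rfl⟩
      exact ⟨g x, ⟨x, hx, rfl⟩, rfl⟩
    · rintro ⟨_, ⟨x, hx, rfl⟩, rfl⟩
      exact ⟨e ⟨x.val, hmemM x⟩, ⟨⟨x.val, hmemM x⟩, ⟨x, hx, rfl⟩, rfl⟩, rfl⟩
  have h1 := he I
  rw [hI, hI2] at h1
  rw [← map_indep (P := M0) rfl, ← map_indep (P := N0) rfl]
  exact h1

end Pool.Agent.S07054
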