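import Pool.Statements.S07074

set_option autoImplicit false
open Pool Pool.MP_bc372c_co

namespace Pool.Agent.S07074

/-- cyclic pattern of a triple i < j < k from the bits of ij, jk, ik -/
def cyc (x y z : Bool) : Bool := (x == y) && (x != z)

theorem key : ∀ b01 b02 b03 b04 b05 b12 b13 b14 b15 b23 b24 b25 b34 b35 b45 : Bool,
    ((!cyc b01 b12 b02 && !cyc b34 b45 b35) || (!cyc b01 b13 b03 && !cyc b24 b45 b25) ||
     (!cyc b01 b14 b04 && !cyc b23 b35 b25) || (!cyc b01 b15 b05 && !cyc b23 b34 b24) ||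
     (!cyc b02 b23 b03 && !cyc b14 b45 b15) || (!cyc b02 b24 b04 && !cyc b13 b35 b15) ||
     (!cyc b02 b25 b05 && !cyc b13 b34 b14) || (!cyc b03 b34 b04 && !cyc b12 b25 b15) ||
     (!cyc b03 b35 b05 && !cyc b12 b24 b14) || (!cyc b04 b45 b05 && !cyc b12 b23 b13)) = true := by
  decide +kernel

theorem no_cycle {V : Type} (R : V → V → Prop) (hirr : ∀ v, ¬ R v v)
    (htr : ∀ a b c, R a b → R b c → R a c) (v : V) : ¬ Relation.TransGen R v v := by
  intro h
  have : ∀ a b, Relation.TransGen R a b → R a b := by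
    intro a b hab
    induction hab with
    | single h => exact h
    | tail _ h2 ih => exact htr _ _ _ ih h2
  exact hirr v (this v v h)

/-- a non-cyclic triple of a tournament is transitive -/
theorem triple_trans {V : Type} (t : V → V → Prop) (hirr : ∀ v, ¬ t v v)
    (has : ∀ u v, t u v → ¬ t v u) (i j k : V)
    (hij : t i j ∨ t j i) (hjk : t j k ∨ t k j) (hik : t i k ∨ t k i)
    (h1 : ¬ (t i j ∧ t j k ∧ t k i)) (h2 : ¬ (t i k ∧ t k j ∧ t j i))
    (a b d : V) (ha : a = i ∨ a = j ∨ a = k) (hb : b = i ∨ b = j ∨ b = k)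
    (hd : d = i ∨ d = j ∨ d = k) (hab : t a b) (hbd : t b d) : t a d := by
  rcases ha with ha | ha | ha <;> rcases hb with hb | hb | hb <;>
    rcases hd with hd | hd | hd <;> rw [ha] at hab ⊢ <;> rw [hb] at hab hbd <;>
    rw [hd] at hbd ⊢
  all_goals first
    | exact absurd hab (hirr _)
    | exact absurd hbd (hirr _)
    | exact absurd hbd (has _ _ hab)
    | exact hik.elim id (fun h => absurd ⟨hab, hbd, h⟩ h1)
    | exact hij.elim id (fun h => absurd ⟨hab, hbd, h⟩ h2)
    | exact hij.symm.elim id (fun h => absurd ⟨h, hab, hbd⟩ h1)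
    | exact hjk.elim id (fun h => absurd ⟨hbd, h, hab⟩ h2)
    | exact hjk.symm.elim id (fun h => absurd ⟨hbd, h, hab⟩ h1)
    | exact hik.symm.elim id (fun h => absurd ⟨h, hab, hbd⟩ h2)

theorem from_part (t : Fin 6 → Fin 6 → Prop) (hirr : ∀ v, ¬ t v v)
    (has : ∀ u v, t u v → ¬ t v u) (htot : ∀ u v, u ≠ v → t u v ∨ t v u)
    (i j k l m n : Fin 6)
    (hcov : ∀ x : Fin 6, (x = i ∨ x = j ∨ x = k) ∨ (x = l ∨ x = m ∨ x = n))
    (h1 : i ≠ j ∧ j ≠ k ∧ i ≠ k) (h2 : l ≠ m ∧ m ≠ n ∧ l ≠ n)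
    (hc1 : ¬ (t i j ∧ t j k ∧ t k i) ∧ ¬ (t i k ∧ t k j ∧ t j i))
    (hc2 : ¬ (t l m ∧ t m n ∧ t n l) ∧ ¬ (t l n ∧ t n m ∧ t m l)) :
    ∃ c : Fin 6 → Fin 2, ∀ a b d, c a = c b → c b = c d → t a b → t b d → t a d := by
  classical
  refine ⟨fun x => if x = i ∨ x = j ∨ x = k then 0 else 1, ?_⟩
  intro a b d hab hbd tab tbd
  by_cases hb : b = i ∨ b = j ∨ b = k
  · have ha : a = i ∨ a = j ∨ a = k := by
      by_contra hna
      simp only [hb, hna, if_true, if_false] at hab
      exact absurd hab (by decide)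
    have hd : d = i ∨ d = j ∨ d = k := by
      by_contra hnd
      simp only [hb, hnd, if_true, if_false] at hbd
      exact absurd hbd (by decide)
    exact triple_trans t hirr has i j k (htot _ _ h1.1) (htot _ _ h1.2.1) (htot _ _ h1.2.2)
      hc1.1 hc1.2 a b d ha hb hd tab tbd
  · have ha : ¬ (a = i ∨ a = j ∨ a = k) := by
      intro hna
      simp only [hb, hna, if_true, if_false] at hab
      exact absurd hab (by decide)
    have hd : ¬ (d = i ∨ d = j ∨ d = k) := by
      intro hnd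
      simp only [hb, hnd, if_true, if_false] at hbd
      exact absurd hbd (by decide)
    exact triple_trans t hirr has l m n (htot _ _ h2.1) (htot _ _ h2.2.1) (htot _ _ h2.2.2)
      hc2.1 hc2.2 a b d ((hcov a).resolve_left ha) ((hcov b).resolve_left hb)
      ((hcov d).resolve_left hd) tab tbd

open Classical in
theorem cyc_false {V : Type} (t : V → V → Prop)
    (i j k : V) (hij : t j i ↔ ¬ t i j) (hjk : t k j ↔ ¬ t j k) (hik : t k i ↔ ¬ t i k)
    (h : cyc (decide (t i j)) (decide (t j k)) (decide (t i k)) = false) :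
    ¬ (t i j ∧ t j k ∧ t k i) ∧ ¬ (t i k ∧ t k j ∧ t j i) := by
  by_cases p : t i j <;> by_cases q : t j k <;> by_cases r : t i k <;>
    simp [cyc, p, q, r, hij, hjk, hik] at h ⊢

open Classical in
theorem six_tournament (t : Fin 6 → Fin 6 → Prop) (hirr : ∀ v, ¬ t v v)
    (has : ∀ u v, t u v → ¬ t v u) (htot : ∀ u v, u ≠ v → t u v ∨ t v u) :
    ∃ c : Fin 6 → Fin 2, ∀ a b d, c a = c b → c b = c d → t a b → t b d → t a d := by
  have hn : ∀ u v, u ≠ v → (t v u ↔ ¬ t u v) := by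
    intro u v huv
    constructor
    · exact fun h => has _ _ h
    · exact fun h => (htot u v huv).resolve_left h
  have K := key (decide (t 0 1)) (decide (t 0 2)) (decide (t 0 3)) (decide (t 0 4))
    (decide (t 0 5)) (decide (t 1 2)) (decide (t 1 3)) (decide (t 1 4)) (decide (t 1 5))
    (decide (t 2 3)) (decide (t 2 4)) (decide (t 2 5)) (decide (t 3 4)) (decide (t 3 5))
    (decide (t 4 5))
  have F : ∀ i j k l m n : Fin 6,
      (∀ x : Fin 6, (x = i ∨ x = j ∨ x = k) ∨ (x = l ∨ x = m ∨ x = n)) →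
      (i ≠ j ∧ j ≠ k ∧ i ≠ k) → (l ≠ m ∧ m ≠ n ∧ l ≠ n) →
      cyc (decide (t i j)) (decide (t j k)) (decide (t i k)) = false →
      cyc (decide (t l m)) (decide (t m n)) (decide (t l n)) = false →
      ∃ c : Fin 6 → Fin 2, ∀ a b d, c a = c b → c b = c d → t a b → t b d → t a d := by
    intro i j k l m n hcov h1 h2 c1 c2
    exact from_part t hirr has htot i j k l m n hcov h1 h2
      (cyc_false t i j k (hn _ _ h1.1) (hn _ _ h1.2.1) (hn _ _ h1.2.2) c1)
      (cyc_false t l m n (hn _ _ h2.1) (hn _ _ h2.2.1) (hn _ _ h2.2.2) c2)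
  simp only [Bool.or_eq_true, Bool.and_eq_true, Bool.not_eq_true'] at K
  rcases K with ((((((((⟨h, h'⟩ | ⟨h, h'⟩) | ⟨h, h'⟩) | ⟨h, h'⟩) | ⟨h, h'⟩) | ⟨h, h'⟩) | ⟨h, h'⟩) |
    ⟨h, h'⟩) | ⟨h, h'⟩) | ⟨h, h'⟩
  · exact F 0 1 2 3 4 5 (by decide) (by decide) (by decide) h h'
  · exact F 0 1 3 2 4 5 (by decide) (by decide) (by decide) h h'
  · exact F 0 1 4 2 3 5 (by decide) (by decide) (by decide) h h'
  · exact F 0 1 5 2 3 4 (by decide) (by decide) (by decide) h h'
  · exact F 0 2 3 1 4 5 (by decide) (by decide) (by decide) h h'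
  · exact F 0 2 4 1 3 5 (by decide) (by decide) (by decide) h h'
  · exact F 0 2 5 1 3 4 (by decide) (by decide) (by decide) h h'
  · exact F 0 3 4 1 2 5 (by decide) (by decide) (by decide) h h'
  · exact F 0 3 5 1 2 4 (by decide) (by decide) (by decide) h h'
  · exact F 0 4 5 1 2 3 (by decide) (by decide) (by decide) h h'

theorem six (s : Fin 6 → Fin 6 → Prop) (hirr : ∀ v, ¬ s v v)
    (has : ∀ u v, s u v → ¬ s v u) :
    ∃ c : Fin 6 → Fin 2, ∀ v, ¬ Relation.TransGen (fun a b => s a b ∧ c a = c b) v v := by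
  classical
  let t : Fin 6 → Fin 6 → Prop := fun u v => s u v ∨ (¬ s v u ∧ u < v)
  have tirr : ∀ v, ¬ t v v := by
    rintro v (h | ⟨_, h⟩)
    · exact hirr v h
    · exact lt_irrefl v h
  have tas : ∀ u v, t u v → ¬ t v u := by
    rintro u v (h | ⟨h1, h2⟩) (h' | ⟨h1', h2'⟩)
    · exact has _ _ h h'
    · exact h1' h
    · exact h1 h'
    · exact lt_asymm h2 h2'
  have ttot : ∀ u v, u ≠ v → t u v ∨ t v u := by
    intro u v huv
    by_cases h1 : s u v
    · exact Or.inl (Or.inl h1)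
    · by_cases h2 : s v u
      · exact Or.inr (Or.inl h2)
      · rcases lt_or_gt_of_ne huv with h | h
        · exact Or.inl (Or.inr ⟨h2, h⟩)
        · exact Or.inr (Or.inr ⟨h1, h⟩)
  obtain ⟨c, hc⟩ := six_tournament t tirr tas ttot
  refine ⟨c, ?_⟩
  intro v hv
  have h1 : Relation.TransGen (fun a b => t a b ∧ c a = c b) v v := by
    exact hv.lift (p := fun a b => t a b ∧ c a = c b) id
      (fun a b h => ⟨Or.inl h.1, h.2⟩)
  refine no_cycle (fun a b => t a b ∧ c a = c b) (fun w h => tirr w h.1) ?_ v h1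
  rintro a b d ⟨h, h'⟩ ⟨g, g'⟩
  exact ⟨hc a b d h' g' h g, h'.trans g'⟩

theorem small (n : ℕ) (hn : n < 7) (s : Fin n → Fin n → Prop) (hirr : ∀ v, ¬ s v v)
    (has : ∀ u v, s u v → ¬ s v u) :
    ∃ c : Fin n → Fin 2, ∀ v, ¬ Relation.TransGen (fun a b => s a b ∧ c a = c b) v v := by
  have hn6 : n ≤ 6 := by omega
  let e : Fin n → Fin 6 := Fin.castLE hn6
  have he : Function.Injective e := Fin.castLE_injective hn6
  let S : Fin 6 → Fin 6 → Prop := fun u v => ∃ a b, e a = u ∧ e b = v ∧ s a b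
  obtain ⟨c, hc⟩ := six S
    (by
      rintro v ⟨a, b, ha, hb, h⟩
      have : a = b := he (ha.trans hb.symm)
      subst this
      exact hirr a h)
    (by
      rintro u v ⟨a, b, ha, hb, h⟩ ⟨a', b', ha', hb', h'⟩
      have h1 : b = a' := he (hb.trans ha'.symm)
      have h2 : a = b' := he (ha.trans hb'.symm)
      subst h1
      subst h2
      exact has _ _ h h')
  refine ⟨fun x => c (e x), ?_⟩
  intro v hv
  apply hc (e v)
  exact hv.lift e (fun a b h => ⟨⟨a, b, rfl, rfl, h.1⟩, h.2⟩)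

/-- the arcs of the counterexample -/
def arcs : List (Fin 7 × Fin 7) :=
  [(0, 2), (0, 4), (0, 5), (1, 0), (1, 3), (1, 4), (2, 1), (2, 4), (2, 5), (3, 0), (3, 2), (3, 6),
   (4, 3), (4, 5), (4, 6), (5, 1), (5, 3), (5, 6), (6, 1), (6, 2)]

def D (u v : Fin 7) : Prop := (u, v) ∈ arcs

instance : DecidableRel D := fun u v => inferInstanceAs (Decidable ((u, v) ∈ arcs))

theorem D_mono : ∀ c : Fin 7 → Fin 2, ∃ a b d, c a = c b ∧ c b = c d ∧ D a b ∧ D b d ∧ D d a := by
  decide +kernel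

theorem no_cycle_rank {V : Type} (R : V → V → Prop) (ρ : V → ℕ) (h : ∀ a b, R a b → ρ a < ρ b)
    (v : V) : ¬ Relation.TransGen R v v := by
  intro hv
  have : ∀ a b, Relation.TransGen R a b → ρ a < ρ b := by
    intro a b hab
    induction hab with
    | single h' => exact h _ _ h'
    | tail _ h2 ih => exact lt_trans ih (h _ _ h2)
  exact lt_irrefl _ (this v v hv)

def col : Fin 7 → Fin 3 := ![0, 0, 1, 0, 1, 1, 2]
def rk : Fin 7 → ℕ := ![2, 0, 0, 1, 1, 2, 0]

theorem D_three : ∀ a b : Fin 7, D a b ∧ col a = col b → rk a < rk b := by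
  decide +kernel

/-- The negation of the preceding statement: For every m, any oriented graph with dichromatic number exactly m, such that no oriented graph with fewer vertices has dichromatic number m, is a tournament: every two distinct vertices are joined by an arc. -/
theorem result :
    ¬ (∀ (m n : ℕ) (r : Fin n → Fin n → Prop),
      (∀ u, ¬ r u u) →
      (∀ u v, r u v → ¬ r v u) →
      (∃ c : Fin n → Fin m, ∀ v, ¬ Relation.TransGen (fun a b => r a b ∧ c a = c b) v v) →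
      (¬ ∃ c : Fin n → Fin (m - 1), ∀ v, ¬ Relation.TransGen (fun a b => r a b ∧ c a = c b) v v) →
      (∀ n' : ℕ, n' < n → ∀ s : Fin n' → Fin n' → Prop,
        (∀ u, ¬ s u u) →
        (∀ u v, s u v → ¬ s v u) →
        (∃ c : Fin n' → Fin m, ∀ v, ¬ Relation.TransGen (fun a b => s a b ∧ c a = c b) v v) →
        (∃ c : Fin n' → Fin (m - 1), ∀ v, ¬ Relation.TransGen (fun a b => s a b ∧ c a = c b) v v)) →
      ∀ u v, u ≠ v → r u v ∨ r v u) := by
  intro H
  have h := H 3 7 D (by decide +kernel) (by decide +kernel)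
    ⟨col, no_cycle_rank _ rk D_three⟩
    (by
      rintro ⟨c, hc⟩
      obtain ⟨a, b, d, h1, h2, h3, h4, h5⟩ := D_mono c
      exact hc a (((Relation.TransGen.single ⟨h3, h1⟩).tail ⟨h4, h2⟩).tail
        ⟨h5, (h1.trans h2).symm⟩))
    (by
      intro n' hn' s hi ha _
      exact small n' hn' s hi ha)
    0 6 (by decide)
  revert h
  decide +kernel

end Pool.Agent.S07074
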