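import Pool.Statements.S07076
-- import your own Pool.Agent.* helpers here

set_option autoImplicit false
open Pool Pool.MP_bc6ab1_co

namespace Pool.Agent.S07076

/-- A complete 6-arc of PG(2,7). -/
def v1 : Fin 6 → Fin 3 → ZMod 7 :=
  ![![1,0,0],![0,1,0],![0,0,1],![1,1,1],![1,2,3],![1,3,4]]

/-- An incomplete 6-arc of PG(2,7): it extends by `(1,5,6)`. -/
def v2 : Fin 6 → Fin 3 → ZMod 7 :=
  ![![1,0,0],![0,1,0],![0,0,1],![1,1,1],![1,2,3],![1,3,2]]

def det3 (a b c : Fin 3 → ZMod 7) : ZMod 7 :=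
  a 0 * (b 1 * c 2 - b 2 * c 1) - a 1 * (b 0 * c 2 - b 2 * c 0) + a 2 * (b 0 * c 1 - b 1 * c 0)

instance : Fact (Nat.Prime 7) := ⟨by norm_num⟩

lemma indep_of_det (a b c : Fin 3 → ZMod 7) (h : det3 a b c ≠ 0) :
    LinearIndependent (ZMod 7) ![a, b, c] := by
  have h2 : (Matrix.of ![a, b, c]).det ≠ 0 := by
    rw [Matrix.det_fin_three]
    simp only [Matrix.of_apply, Matrix.cons_val_zero, Matrix.cons_val_one, Matrix.cons_val]
    intro h3
    apply h
    rw [← h3]
    unfold det3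
    ring
  exact Matrix.linearIndependent_rows_of_det_ne_zero h2

lemma linIndepOn_iff (v : Fin 6 → Fin 3 → ZMod 7)
    (hv : ∀ a b c : Fin 6, a ≠ b → a ≠ c → b ≠ c → det3 (v a) (v b) (v c) ≠ 0)
    (I : Set (Fin 6)) : I.encard ≤ 3 ↔ LinearIndepOn (ZMod 7) v I := by
  constructor
  · intro hI
    obtain ⟨J, hIJ, -, hJ⟩ := Set.exists_superset_subset_encard_eq (s := I) (t := Set.univ)
      (k := 3) (Set.subset_univ I) hI (by rw [Set.encard_univ]; simp; norm_num)
    obtain ⟨a, b, c, hab, hac, hbc, rfl⟩ := Set.encard_eq_three.1 hJ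
    have h1 := indep_of_det _ _ _ (hv a b c hab hac hbc)
    have hinj : Function.Injective ![a, b, c] := by
      intro i j hij
      fin_cases i <;> fin_cases j <;> simp_all
    have h2 : (v ∘ ![a, b, c]) = ![v a, v b, v c] := by
      ext i
      fin_cases i <;> rfl
    rw [← h2, ← linearIndepOn_range_iff hinj] at h1
    refine h1.mono ?_
    intro x hx
    have := hIJ hx
    rcases this with rfl | rfl | rfl
    · exact ⟨0, rfl⟩
    · exact ⟨1, rfl⟩
    · exact ⟨2, rfl⟩
  · intro h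
    classical
    have : Fintype I := Fintype.ofFinite I
    have h1 := LinearIndependent.fintype_card_le_finrank h
    rw [Module.finrank_fin_fun] at h1
    rw [Set.encard_eq_coe_toFinset_card, Set.toFinset_card]
    exact_mod_cast h1

/-- The uniform matroid `U_{3,6}` on `Fin 6`. -/
noncomputable def U : Matroid (Fin 6) :=
  (IndepMatroid.ofFinite (E := Set.univ) Set.finite_univ (fun I => I.encard ≤ 3)
    (by simp)
    (fun I J hJ hIJ => (Set.encard_le_encard hIJ).trans hJ)
    (by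
      intro I J _ hJ hIJ
      obtain ⟨e, heJ, heI⟩ := Set.exists_mem_notMem_of_ncard_lt_ncard hIJ
      refine ⟨e, heJ, heI, ?_⟩
      rw [Set.encard_insert_of_notMem heI]
      have h1 : I.encard < J.encard := by
        rw [← (Set.toFinite I).cast_ncard_eq, ← (Set.toFinite J).cast_ncard_eq]
        exact_mod_cast hIJ
      exact (Order.add_one_le_of_lt h1).trans hJ)
    (fun I _ => Set.subset_univ I)).matroid

lemma U_indep (I : Set (Fin 6)) : U.Indep I ↔ I.encard ≤ 3 := Iff.rfl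

lemma U_ground : U.E = Set.univ := rfl

lemma U_loopless : U.Loopless := by
  rw [Matroid.loopless_iff_forall_isNonloop]
  intro e _
  rw [← Matroid.indep_singleton, U_indep, Set.encard_singleton]
  norm_num

lemma pair_eRk (a b : Fin 6) (hab : a ≠ b) : U.eRk {a, b} = ((2 : ℕ) : ℕ∞) := by
  have h : U.Indep {a, b} := by
    rw [U_indep, Set.encard_pair hab]; norm_num
  rw [h.eRk_eq_encard, Set.encard_pair hab]
  norm_num

lemma pair_isFlat (a b : Fin 6) (hab : a ≠ b) : U.IsFlat {a, b} := by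
  have h : U.Indep {a, b} := by
    rw [U_indep, Set.encard_pair hab]; norm_num
  rw [Matroid.isFlat_iff_closure_eq]
  refine subset_antisymm ?_ (U.subset_closure _ (Set.subset_univ _))
  intro x hx
  by_contra hx2
  have h3 : U.Indep (insert x {a, b}) := by
    rw [U_indep, Set.encard_insert_of_notMem hx2, Set.encard_pair hab]; norm_num
  rw [h.mem_closure_iff_of_notMem hx2] at hx
  exact hx.not_indep h3

lemma hv1 : ∀ a b c : Fin 6, a ≠ b → a ≠ c → b ≠ c → det3 (v1 a) (v1 b) (v1 c) ≠ 0 := by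
  decide

lemma hv2 : ∀ a b c : Fin 6, a ≠ b → a ≠ c → b ≠ c → det3 (v2 a) (v2 b) (v2 c) ≠ 0 := by
  decide

/-- The values of an alternating bilinear form on `F^3`. -/
def form (p : Fin 3 → ZMod 7) (a b : Fin 3 → ZMod 7) : ZMod 7 := det3 p a b

/-- Every point of the plane is on a secant of `v1`. -/
lemma cover : ∀ x y z : ZMod 7, ∃ a b : Fin 6, a ≠ b ∧ det3 ![x, y, z] (v1 a) (v1 b) = 0 := by
  decide

lemma not_cover : ∀ a b : Fin 6, a ≠ b → det3 ![1, 5, 6] (v2 a) (v2 b) ≠ 0 := by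
  decide

lemma alt_swap (L : (Fin 3 → ZMod 7) [⋀^Fin 2]→ₗ[ZMod 7] ZMod 7) (u w : Fin 3 → ZMod 7) :
    L ![w, u] = - L ![u, w] := by
  have h := L.map_swap ![u, w] (i := 0) (j := 1) (by decide)
  rw [← h]
  congr 1
  ext i
  fin_cases i <;> rfl

lemma alt_self (L : (Fin 3 → ZMod 7) [⋀^Fin 2]→ₗ[ZMod 7] ZMod 7) (u : Fin 3 → ZMod 7) :
    L ![u, u] = 0 :=
  L.map_eq_zero_of_eq ![u, u] (i := 0) (j := 1) rfl (by decide)

lemma alt_left (L : (Fin 3 → ZMod 7) [⋀^Fin 2]→ₗ[ZMod 7] ZMod 7) (u w : Fin 3 → ZMod 7) :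
    L ![u, w] = u 0 * L ![Pi.single 0 1, w] + u 1 * L ![Pi.single 1 1, w]
      + u 2 * L ![Pi.single 2 1, w] := by
  have h : u = u 0 • Pi.single 0 1 + u 1 • Pi.single 1 1 + u 2 • Pi.single 2 1 := by
    ext i
    fin_cases i <;> simp
  conv_lhs => rw [h]
  rw [L.map_vecCons_add, L.map_vecCons_add, L.map_vecCons_smul, L.map_vecCons_smul,
    L.map_vecCons_smul]
  rfl

/-- An alternating bilinear form on `F^3` is `det3 p`. -/
lemma alt_eq (L : (Fin 3 → ZMod 7) [⋀^Fin 2]→ₗ[ZMod 7] ZMod 7) (u w : Fin 3 → ZMod 7) :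
    L ![u, w] = det3 ![L ![Pi.single 1 1, Pi.single 2 1], - L ![Pi.single 0 1, Pi.single 2 1],
      L ![Pi.single 0 1, Pi.single 1 1]] u w := by
  rw [alt_left, alt_swap L w (Pi.single 0 1), alt_swap L w (Pi.single 1 1),
    alt_swap L w (Pi.single 2 1), alt_left L w (Pi.single 0 1), alt_left L w (Pi.single 1 1),
    alt_left L w (Pi.single 2 1), alt_self, alt_self, alt_self,
    alt_swap L (Pi.single 0 1) (Pi.single 1 1), alt_swap L (Pi.single 0 1) (Pi.single 2 1),
    alt_swap L (Pi.single 1 1) (Pi.single 2 1)]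
  simp only [det3, Matrix.cons_val_zero, Matrix.cons_val_one, Matrix.cons_val]
  ring

lemma inj_pair (a b : Fin 6) (hab : a ≠ b) : Function.Injective ![a, b] := by
  intro i j hij
  fin_cases i <;> fin_cases j <;> simp_all

/-- The form `det3 p` as an alternating map. -/
noncomputable def mkForm (p : Fin 3 → ZMod 7) : (Fin 3 → ZMod 7) [⋀^Fin 2]→ₗ[ZMod 7] ZMod 7 where
  toFun v := det3 p (v 0) (v 1)
  map_update_add' := by
    intro _ m i x y
    fin_cases i
    · simp [det3]; ring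
    · simp [det3]; ring
  map_update_smul' := by
    intro _ m i c x
    fin_cases i
    · simp [det3]; ring
    · simp [det3]; ring
  map_eq_zero_of_eq' := by
    intro v i j h hij
    have h2 : v 0 = v 1 := by
      fin_cases i <;> fin_cases j <;> simp_all
    simp only [det3, h2]
    ring

/-- The negation of the preceding statement: For any loopless matroid with two linear representations over the same finite field and any k ≥ 2, for every c, c alternating k-forms separating all rank-k flats exist for one representation iff they exist for the other. -/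
theorem result :
    ¬ (∀ (F : Type) [Field F] [Fintype F] (n : ℕ) (M : Matroid (Fin n)),
      M.E = Set.univ → M.Loopless →
      ∀ (k : ℕ), 2 ≤ k →
      ∀ (d₁ d₂ : ℕ) (φ₁ : Fin n → (Fin d₁ → F)) (φ₂ : Fin n → (Fin d₂ → F)),
        (∀ I : Set (Fin n), M.Indep I ↔ LinearIndepOn F φ₁ I) →
        (∀ I : Set (Fin n), M.Indep I ↔ LinearIndepOn F φ₂ I) →
        ∀ c : ℕ,
          (∃ L : Fin c → ((Fin d₁ → F) [⋀^Fin k]→ₗ[F] F),
              ∀ X : Set (Fin n), M.IsFlat X → M.eRk X = (k : ℕ∞) →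
                ∃ i : Fin c, ∃ e : Fin k → Fin n,
                  Function.Injective e ∧ M.IsBasis (Set.range e) X ∧ L i (φ₁ ∘ e) ≠ 0) ↔
          (∃ L : Fin c → ((Fin d₂ → F) [⋀^Fin k]→ₗ[F] F),
              ∀ X : Set (Fin n), M.IsFlat X → M.eRk X = (k : ℕ∞) →
                ∃ i : Fin c, ∃ e : Fin k → Fin n,
                  Function.Injective e ∧ M.IsBasis (Set.range e) X ∧ L i (φ₂ ∘ e) ≠ 0)) := by
  intro H
  have key := H (ZMod 7) 6 U U_ground U_loopless 2 le_rfl 3 3 v1 v2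
    (fun I => (U_indep I).trans (linIndepOn_iff v1 hv1 I))
    (fun I => (U_indep I).trans (linIndepOn_iff v2 hv2 I)) 1
  have h2 : ∃ L : Fin 1 → ((Fin 3 → ZMod 7) [⋀^Fin 2]→ₗ[ZMod 7] ZMod 7),
              ∀ X : Set (Fin 6), U.IsFlat X → U.eRk X = ((2 : ℕ) : ℕ∞) →
                ∃ i : Fin 1, ∃ e : Fin 2 → Fin 6,
                  Function.Injective e ∧ U.IsBasis (Set.range e) X ∧ L i (v2 ∘ e) ≠ 0 := by
    refine ⟨fun _ => mkForm ![1, 5, 6], ?_⟩
    intro X _ hX
    obtain ⟨I, hI⟩ := U.exists_isBasis X (Set.subset_univ X)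
    have hc : I.encard = 2 := by
      rw [hI.encard_eq_eRk, hX]; rfl
    obtain ⟨a, b, hab, rfl⟩ := Set.encard_eq_two.1 hc
    refine ⟨0, ![a, b], ?_, ?_, ?_⟩
    · exact inj_pair a b hab
    · have hr : Set.range ![a, b] = {a, b} := by
        rw [Matrix.range_cons, Matrix.range_cons, Matrix.range_empty, Set.union_empty]
        rfl
      rw [hr]
      exact hI
    · exact not_cover a b hab
  obtain ⟨L, hL⟩ := key.2 h2
  obtain ⟨a, b, hab, h0⟩ := cover (L 0 ![Pi.single 1 1, Pi.single 2 1])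
    (- L 0 ![Pi.single 0 1, Pi.single 2 1]) (L 0 ![Pi.single 0 1, Pi.single 1 1])
  rw [← alt_eq] at h0
  obtain ⟨i, e, he, hbas, hne⟩ := hL {a, b} (pair_isFlat a b hab) (pair_eRk a b hab)
  have hi : i = 0 := Subsingleton.elim _ _
  subst hi
  have hsub := hbas.subset
  have e0 : e 0 ∈ ({a, b} : Set (Fin 6)) := hsub ⟨0, rfl⟩
  have e1 : e 1 ∈ ({a, b} : Set (Fin 6)) := hsub ⟨1, rfl⟩
  have hne01 : e 0 ≠ e 1 := fun h => by simpa using he h
  apply hne
  have hcomp : v1 ∘ e = ![v1 (e 0), v1 (e 1)] := by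
    ext i
    fin_cases i <;> rfl
  rw [hcomp]
  rcases e0 with h | h <;> rcases e1 with h' | h'
  · exact absurd (h.trans h'.symm) hne01
  · rw [h, h', h0]
  · rw [h, h', alt_swap, h0, neg_zero]
  · exact absurd (h.trans h'.symm) hne01

end Pool.Agent.S07076
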