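import Pool.Statements.S07081
import Pool.Agent.Helper235.Multipack

set_option autoImplicit false
open Pool Pool.MP_bcf3b3_co

namespace Pool.Agent.S07081

/-- Every finite connected graph has a dominating broadcast and a multipacking such that the broadcast cost is at most twice the multipacking size, i.e. broadcast domination number ≤ 2 × multipacking number. -/
theorem result :
    ∀ (V : Type) [Fintype V] (G : SimpleGraph V), G.Connected →
      ∃ (f : V → ℕ) (S : Finset V),
        (∀ u : V, ∃ v : V, 0 < f v ∧ G.dist u v ≤ f v) ∧
        (∀ v : V, ∀ r : ℕ, 1 ≤ r → (S.filter (fun u => G.dist v u ≤ r)).card ≤ r) ∧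
        ∑ v, f v ≤ 2 * S.card := by
  intro V _ G hG
  exact Pool.Agent.Helper235.Multipack.main G hG

end Pool.Agent.S07081
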