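import Pool.Statements.S07095
import Pool.Agent.Helper843.SphC

set_option autoImplicit false
open scoped MeasureTheory
open Pool Pool.MP_bdc619_co

namespace Pool.Agent.S07095

open MeasureTheory Set
open scoped ENNReal
open Pool.Agent.Helper843
open Pool.Agent.Helper843.SphA (Sp muSp_lt_top muSp_pos isClosed_Sp)

abbrev E := EuclideanSpace ℝ (Fin 3)

/-- twelve integer vectors of squared length two -/
def vv : Fin 12 → Fin 3 → ℤ :=
  ![![1, 1, 0], ![1, -1, 0], ![-1, 1, 0], ![-1, -1, 0],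
    ![1, 0, 1], ![1, 0, -1], ![-1, 0, 1], ![-1, 0, -1],
    ![0, 1, 1], ![0, 1, -1], ![0, -1, 1], ![0, -1, -1]]

noncomputable def pp (i : Fin 12) : E := (Real.sqrt 2)⁻¹ • WithLp.toLp 2 (fun j => (vv i j : ℝ))

lemma vv_norm : ∀ i, vv i 0 * vv i 0 + vv i 1 * vv i 1 + vv i 2 * vv i 2 = 2 := by decide

lemma vv_inner : ∀ i j, i ≠ j → vv i 0 * vv j 0 + vv i 1 * vv j 1 + vv i 2 * vv j 2 ≤ 1 := by decide

lemma pp_inner (i j : Fin 12) : inner ℝ (pp i) (pp j)
    = ((vv i 0 * vv j 0 + vv i 1 * vv j 1 + vv i 2 * vv j 2 : ℤ) : ℝ) / 2 := by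
  unfold pp
  rw [real_inner_smul_left, real_inner_smul_right, PiLp.inner_apply, Fin.sum_univ_three]
  have h2 : (Real.sqrt 2)⁻¹ * (Real.sqrt 2)⁻¹ = 1 / 2 := by
    rw [← mul_inv, Real.mul_self_sqrt (by norm_num)]; norm_num
  rw [← mul_assoc, h2]
  simp only [RCLike.inner_apply, conj_trivial]
  push_cast
  ring

lemma pp_norm (i : Fin 12) : ‖pp i‖ = 1 := by
  have h : ‖pp i‖ ^ 2 = 1 := by
    rw [← real_inner_self_eq_norm_sq, pp_inner, vv_norm]; norm_num
  have h0 := norm_nonneg (pp i)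
  nlinarith

lemma pp_inner_le (i j : Fin 12) (hij : i ≠ j) : inner ℝ (pp i) (pp j) ≤ 1 / 2 := by
  rw [pp_inner]
  have : ((vv i 0 * vv j 0 + vv i 1 * vv j 1 + vv i 2 * vv j 2 : ℤ) : ℝ) ≤ 1 := by
    exact_mod_cast vv_inner i j hij
  linarith

/-- disjoint caps of radius pi/6 have centres with inner product at most 1/2 -/
lemma inner_le_of_disjoint (u v : E) (hu : ‖u‖ = 1) (hv : ‖v‖ = 1)
    (hd : Disjoint {x : E | ‖x‖ = 1 ∧ InnerProductGeometry.angle u x < Real.pi / 6}
      {x : E | ‖x‖ = 1 ∧ InnerProductGeometry.angle v x < Real.pi / 6}) :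
    inner ℝ u v ≤ 1 / 2 := by
  by_contra hc
  push Not at hc
  set c : ℝ := inner ℝ u v with hcdef
  have hn2 : ‖u + v‖ ^ 2 = 2 + 2 * c := by
    rw [norm_add_sq_real, hu, hv]; ring
  have hnpos : 0 < ‖u + v‖ := by
    have := norm_nonneg (u + v)
    rcases this.eq_or_lt with h | h
    · rw [← h] at hn2; nlinarith
    · exact h
  set w : E := ‖u + v‖⁻¹ • (u + v) with hw
  have hwn : ‖w‖ = 1 := by
    rw [hw, norm_smul, norm_inv, norm_norm, inv_mul_cancel₀ hnpos.ne']
  have hgt : Real.sqrt 3 / 2 < ‖u + v‖ / 2 := by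
    have h3 : Real.sqrt 3 < ‖u + v‖ := by
      rw [Real.sqrt_lt' hnpos, hn2]; linarith
    linarith
  have hval : ‖u + v‖⁻¹ * (1 + c) = ‖u + v‖ / 2 := by
    have : 1 + c = ‖u + v‖ ^ 2 / 2 := by rw [hn2]; ring
    rw [this]
    field_simp
  have huw : inner ℝ u w = ‖u + v‖ / 2 := by
    rw [hw, real_inner_smul_right, inner_add_right, real_inner_self_eq_norm_sq, hu, one_pow, hval]
  have hvw : inner ℝ v w = ‖u + v‖ / 2 := by
    rw [hw, real_inner_smul_right, inner_add_right, real_inner_self_eq_norm_sq, hv, one_pow,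
      real_inner_comm, ← hcdef, add_comm c 1, hval]
  have h1 : InnerProductGeometry.angle u w < Real.pi / 6 := by
    rw [SphC.cos_lt_iff u w hu _ (by positivity) (by linarith [Real.pi_pos]), Real.cos_pi_div_six,
      hwn, div_one, huw]
    exact hgt
  have h2 : InnerProductGeometry.angle v w < Real.pi / 6 := by
    rw [SphC.cos_lt_iff v w hv _ (by positivity) (by linarith [Real.pi_pos]), Real.cos_pi_div_six,
      hwn, div_one, hvw]
    exact hgt
  exact Set.disjoint_left.1 hd ⟨hwn, h1⟩ ⟨hwn, h2⟩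

lemma card_bound (T : Finset E) (hT : ∀ u ∈ T, ‖u‖ = 1)
    (hTT : ∀ u ∈ T, ∀ v ∈ T, u ≠ v → inner ℝ u v ≤ 1 / 2) (L : E ≃ₗᵢ[ℝ] E) :
    T.card + (Finset.univ.filter (fun i => ∀ u ∈ T, inner ℝ u (L (pp i)) ≤ 1 / 2)).card ≤ 12 := by
  classical
  set A : Finset (Fin 12) := Finset.univ.filter (fun i => ∀ u ∈ T, inner ℝ u (L (pp i)) ≤ 1 / 2) with hA
  have h := Kiss.kissing (ι := T ⊕ A) (Sum.elim (fun u => (u : E)) (fun i => L (pp i))) ?_ ?_
  · simpa using h
  · rintro (u | i)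
    · exact hT u u.2
    · show ‖L (pp i)‖ = 1
      rw [LinearIsometryEquiv.norm_map, pp_norm]
  · rintro (u | i) (v | j) hne
    · exact hTT u u.2 v v.2 (fun h => hne (by rw [Subtype.ext h]))
    · exact (Finset.mem_filter.1 j.2).2 u u.2
    · show inner ℝ (L (pp i)) (v : E) ≤ 1 / 2
      rw [real_inner_comm]
      exact (Finset.mem_filter.1 i.2).2 v v.2
    · show inner ℝ (L (pp i)) (L (pp j)) ≤ 1 / 2
      rw [LinearIsometryEquiv.inner_map_map]
      exact pp_inner_le i j (fun h => hne (by rw [Subtype.ext h]))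

lemma area_bound (T : Finset E) (hT : ∀ u ∈ T, ‖u‖ = 1)
    (hTT : ∀ u ∈ T, ∀ v ∈ T, u ≠ v → inner ℝ u v ≤ 1 / 2) :
    (T.card : ℝ) / 12 * (μH[2] Sp).toReal
      ≤ (μH[2] (⋃ u ∈ T, {x : E | ‖x‖ = 1 ∧ InnerProductGeometry.angle u x < Real.pi / 3})).toReal := by
  classical
  set U : Set E := ⋃ u ∈ T, {x : E | ‖x‖ = 1 ∧ InnerProductGeometry.angle u x < Real.pi / 3} with hU
  set W : Set E := {x : E | ∀ u ∈ T, inner ℝ u x ≤ 1 / 2} with hW
  have hWc : IsClosed W := by
    have : W = ⋂ u ∈ T, {x : E | inner ℝ u x ≤ 1 / 2} := by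
      ext x; simp [hW]
    rw [this]
    exact isClosed_biInter fun u _ => isClosed_le (continuous_const.inner continuous_id) continuous_const
  have hc0 := card_bound T hT hTT (LinearIsometryEquiv.refl ℝ E)
  have ht : T.card ≤ 12 := by omega
  have havg := SphB.averaging SphC.finrankE 2 Sp rfl muSp_lt_top W hWc.measurableSet pp pp_norm
    ((12 - T.card : ℕ) : ℝ≥0∞) (by
      intro L
      have e1 : ∑ i, W.indicator (fun _ => (1 : ℝ≥0∞)) (L (pp i))
          = ((Finset.univ.filter (fun i => ∀ u ∈ T, inner ℝ u (L (pp i)) ≤ 1 / 2)).card : ℝ≥0∞) := by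
        rw [Finset.card_filter]
        push_cast
        refine Finset.sum_congr rfl fun i _ => ?_
        by_cases h : ∀ u ∈ T, inner ℝ u (L (pp i)) ≤ 1 / 2
        · rw [if_pos h, indicator_of_mem (show L (pp i) ∈ W from h)]
        · rw [if_neg h, indicator_of_notMem (show L (pp i) ∉ W from h)]
      rw [e1]
      have := card_bound T hT hTT L
      exact_mod_cast (by omega : (Finset.univ.filter (fun i => ∀ u ∈ T, inner ℝ u (L (pp i)) ≤ 1 / 2)).card ≤ 12 - T.card))
  have hcover : Sp ⊆ (W ∩ Sp) ∪ U := by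
    intro x hx
    by_cases hxW : x ∈ W
    · exact Or.inl ⟨hxW, hx⟩
    · right
      have : ∃ u ∈ T, 1 / 2 < inner ℝ u x := by
        by_contra hc
        push Not at hc
        exact hxW hc
      obtain ⟨u, huT, hux⟩ := this
      rw [hU]
      refine mem_biUnion huT ⟨hx, ?_⟩
      rw [SphC.cos_lt_iff u x (hT u huT) _ (by positivity) (by linarith [Real.pi_pos]),
        Real.cos_pi_div_three, show ‖x‖ = 1 from hx, div_one]
      exact hux
  have hUsub : U ⊆ Sp := by
    rw [hU]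
    exact iUnion₂_subset fun u _ x hx => hx.1
  have hUt : μH[2] U ≠ ⊤ := ((measure_mono hUsub).trans_lt muSp_lt_top).ne
  have hWt : μH[2] (W ∩ Sp) ≠ ⊤ := ((measure_mono inter_subset_right).trans_lt muSp_lt_top).ne
  have h1 : (μH[2] Sp).toReal ≤ (μH[2] (W ∩ Sp)).toReal + (μH[2] U).toReal := by
    rw [← ENNReal.toReal_add hWt hUt]
    exact ENNReal.toReal_mono (ENNReal.add_ne_top.2 ⟨hWt, hUt⟩)
      ((measure_mono hcover).trans (measure_union_le _ _))
  have h2 : 12 * (μH[2] (W ∩ Sp)).toReal ≤ (12 - (T.card : ℝ)) * (μH[2] Sp).toReal := by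
    have := ENNReal.toReal_mono (ENNReal.mul_ne_top (ENNReal.natCast_ne_top _) muSp_lt_top.ne) havg
    rw [ENNReal.toReal_mul, ENNReal.toReal_mul, ENNReal.toReal_natCast, ENNReal.toReal_natCast,
      Fintype.card_fin, Nat.cast_sub ht] at this
    exact_mod_cast this
  linarith

/-- For finitely many unit vectors in 3-space whose open spherical caps of angular radius π/6 are pairwise disjoint, the total area of these caps divided by the area of the union of the radius-π/3 caps is at most 6(1-√3/2). -/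
theorem result :
    ∀ T : Finset (EuclideanSpace ℝ (Fin 3)),
      (∀ u ∈ T, ‖u‖ = 1) →
      (↑T : Set (EuclideanSpace ℝ (Fin 3))).PairwiseDisjoint
        (fun u => {x : EuclideanSpace ℝ (Fin 3) |
          ‖x‖ = 1 ∧ InnerProductGeometry.angle u x < Real.pi / 6}) →
      (∑ u ∈ T, (μH[2] {x : EuclideanSpace ℝ (Fin 3) |
          ‖x‖ = 1 ∧ InnerProductGeometry.angle u x < Real.pi / 6}).toReal)
        / (μH[2] (⋃ u ∈ T, {x : EuclideanSpace ℝ (Fin 3) |
          ‖x‖ = 1 ∧ InnerProductGeometry.angle u x < Real.pi / 3})).toReal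
        ≤ 6 * (1 - Real.sqrt 3 / 2) := by
  intro T hT hdisj
  have hTT : ∀ u ∈ T, ∀ v ∈ T, u ≠ v → inner ℝ u v ≤ 1 / 2 := fun u hu v hv huv =>
    inner_le_of_disjoint u v (hT u hu) (hT v hv) (hdisj hu hv huv)
  have hb := area_bound T hT hTT
  have ha : 0 < (μH[2] Sp).toReal := ENNReal.toReal_pos muSp_pos.ne' muSp_lt_top.ne
  rw [Finset.sum_congr rfl fun u hu => SphC.cap_area u (hT u hu), Finset.sum_const, nsmul_eq_mul]
  set a : ℝ := (μH[2] Sp).toReal with hadef
  set b : ℝ := (μH[2] (⋃ u ∈ T, {x : EuclideanSpace ℝ (Fin 3) |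
          ‖x‖ = 1 ∧ InnerProductGeometry.angle u x < Real.pi / 3})).toReal with hbdef
  have hs : Real.sqrt 3 ≤ 2 := by
    rw [Real.sqrt_le_left (by norm_num)]; norm_num
  rcases Nat.eq_zero_or_pos T.card with h0 | h0
  · rw [h0]
    simp only [Nat.cast_zero, zero_mul, zero_div]
    linarith
  · have ht : (0 : ℝ) < (T.card : ℝ) := by exact_mod_cast h0
    have hbpos : 0 < b := lt_of_lt_of_le (by positivity) hb
    rw [div_le_iff₀ hbpos]
    have hk : 0 ≤ 1 - Real.sqrt 3 / 2 := by linarith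
    have := mul_le_mul_of_nonneg_left hb hk
    linarith

end Pool.Agent.S07095
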