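-- Proof of statement S07112.
import Pool.Statements.S07112
import Pool.Agent.Helper36.S2Final
import Pool.Agent.Helper36.HalfTurn

set_option autoImplicit false
open Pool Pool.MP_be97b2_co

namespace Pool.Agent.S07112

/-- The negation of the preceding statement: For n,r ≥ 2, every measurable r-coloring of the unit n-sphere has a measurable monochromatic subset invariant under some nonidentity orientation-preserving involutive isometry, of normalized measure at least 1/r^2. -/
theorem result :
    ¬ (∀ n r : ℕ, 1 < n → 1 < r →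
    ∀ c : EuclideanSpace ℝ (Fin (n+1)) → Fin r, Measurable c →
      ∃ (i : Fin r)
        (g : EuclideanSpace ℝ (Fin (n+1)) ≃ₗᵢ[ℝ] EuclideanSpace ℝ (Fin (n+1)))
        (A : Set (EuclideanSpace ℝ (Fin (n+1)))),
        g ≠ LinearIsometryEquiv.refl ℝ (EuclideanSpace ℝ (Fin (n+1))) ∧
        (∀ x, g (g x) = x) ∧
        LinearMap.det (g.toLinearEquiv : EuclideanSpace ℝ (Fin (n+1)) →ₗ[ℝ] EuclideanSpace ℝ (Fin (n+1))) = 1 ∧
        MeasurableSet A ∧
        A ⊆ Metric.sphere (0 : EuclideanSpace ℝ (Fin (n+1))) 1 ∧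
        (∀ x ∈ A, c x = i) ∧
        g '' A = A ∧
        ((r : ENNReal) ^ 2)⁻¹ ≤
          ((MeasureTheory.volume : MeasureTheory.Measure (EuclideanSpace ℝ (Fin (n+1)))).toSphere Set.univ)⁻¹ *
          (MeasureTheory.volume : MeasureTheory.Measure (EuclideanSpace ℝ (Fin (n+1)))).toSphere (Subtype.val ⁻¹' A)) := by
  intro H
  obtain ⟨c, hc, hcc⟩ := Pool.Agent.Helper36.S2Cert.exists_colouring
  obtain ⟨i, g, A, hne, hinv, hdet, hA, hAS, hAi, hgA, hmu⟩ :=
    H 2 2 (by norm_num) (by norm_num) (fun x => if c x = true then 1 else 0)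
      (Measurable.ite (hc (measurableSet_singleton true)) measurable_const measurable_const)
  obtain ⟨n, hn, hgn⟩ := Pool.Agent.Helper36.HalfTurn.half_turn g hne hinv hdet
  have := Pool.Agent.Helper36.SphMeas.sph_prob (d := 3) (by norm_num)
  -- the colour as a Bool
  obtain ⟨b, hb⟩ : ∃ b : Bool, ∀ x, (if c x = true then (1 : Fin 2) else 0) = i → c x = b := by
    by_cases hi : i = 1
    · refine ⟨true, fun x hx => ?_⟩
      by_contra h
      rw [if_neg h, hi] at hx
      exact absurd hx (by decide)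
    · refine ⟨false, fun x hx => ?_⟩
      by_contra h
      have h' : c x = true := by simpa using h
      rw [if_pos h'] at hx
      exact hi hx.symm
  have hsub : A ⊆ {x | c x = b ∧ c (Pool.Agent.Helper36.RealizeSph.sig n x) = b} := by
    intro x hx
    refine ⟨hb x (hAi x hx), hb _ ?_⟩
    have : g x ∈ A := by rw [← hgA]; exact ⟨x, hx, rfl⟩
    rw [hgn] at this
    exact hAi _ this
  have h1 : Pool.Agent.Helper36.SphMeas.sph 3 A < ENNReal.ofReal (1 / 4) := by
    refine lt_of_le_of_lt (MeasureTheory.measure_mono hsub) ?_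
    have h2 := hcc n hn b
    rw [MeasureTheory.measureReal_def] at h2
    exact (ENNReal.lt_ofReal_iff_toReal_lt (MeasureTheory.measure_ne_top _ _)).2 h2
  rw [Pool.Agent.Helper36.SphMeas.sph_apply hA] at h1
  have h3 : ENNReal.ofReal (1 / 4) = (((2 : ℕ) : ENNReal) ^ 2)⁻¹ := by
    rw [one_div, ENNReal.ofReal_inv_of_pos (by norm_num)]
    congr 1
    rw [show (4 : ℝ) = ((2 : ℕ) : ℝ) ^ 2 by norm_num, ENNReal.ofReal_pow (by positivity),
      ENNReal.ofReal_natCast]
  rw [h3] at h1
  exact absurd hmu (not_le.2 h1)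

end Pool.Agent.S07112
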