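import Pool.Statements.S07113
-- import your own Pool.Agent.* helpers here

set_option autoImplicit false
open Classical
open Pool Pool.MP_bea7cd_co

namespace Pool.Agent.S07113

/-
Construction.  Put `ρ = 1/2`, `δ = 1/100` and, for `l = 1,2,3`, let `a_l = arccos (cos (l δ) / 2 - 3/8)`.
Let `X = { i δ + j (a₂-a₁) + m (a₃-a₁) : 0 ≤ i < 25, j,m ∈ {0,1} }` (100 reals in `[0,1/4]`).
The 400 points are
  * `(1, x)`, `(1, π + a₁ + x)` on the unit circle,
  * `(1/2, a₁ + x)`, `(1/2, π + x)` on the circle of radius `1/2`       (polar coordinates, `x ∈ X`).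
They are in strictly convex position, and the three distances `√(5/4 + cos (l δ))` occur
484, 418 and 402 times.
-/

/-- the point with polar coordinates `(r, φ)` -/
noncomputable def pt (r φ : ℝ) : EuclideanSpace ℝ (Fin 2) := !₂[r * Real.cos φ, r * Real.sin φ]

lemma pt_zero (r φ : ℝ) : pt r φ 0 = r * Real.cos φ := by simp [pt]
lemma pt_one (r φ : ℝ) : pt r φ 1 = r * Real.sin φ := by simp [pt]

lemma dist_pt (r s φ ψ : ℝ) :
    dist (pt r φ) (pt s ψ) = Real.sqrt (r ^ 2 + s ^ 2 - 2 * r * s * Real.cos (φ - ψ)) := by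
  rw [EuclideanSpace.dist_eq]
  congr 1
  simp only [Fin.sum_univ_two, pt_zero, pt_one, Real.dist_eq, sq_abs, Real.cos_sub]
  have h1 := Real.sin_sq_add_cos_sq φ
  have h2 := Real.sin_sq_add_cos_sq ψ
  linear_combination (r ^ 2) * h1 + (s ^ 2) * h2

/-- the parameter `δ` -/
noncomputable def δ : ℝ := 1 / 100

/-- `t l = cos (a l)` -/
noncomputable def t (l : ℕ) : ℝ := Real.cos (l * δ) / 2 - 3 / 8

noncomputable def a (l : ℕ) : ℝ := Real.arccos (t l)

lemma t_le (l : ℕ) : t l ≤ 1 / 8 := by
  have := Real.cos_le_one (l * δ)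
  unfold t; linarith

lemma t_ge (l : ℕ) : -7 / 8 ≤ t l := by
  have := Real.neg_one_le_cos (l * δ)
  unfold t; linarith

lemma cos_a (l : ℕ) : Real.cos (a l) = t l := by
  unfold a
  exact Real.cos_arccos (by have := t_ge l; linarith) (by have := t_le l; linarith)

lemma cos_lt {l m : ℕ} (h : l < m) (hm : m ≤ 3) : Real.cos (m * δ) < Real.cos (l * δ) := by
  apply Real.cos_lt_cos_of_nonneg_of_le_pi
  · unfold δ; positivity
  · have h3 : (m : ℝ) ≤ 3 := by exact_mod_cast hm
    have := Real.pi_gt_three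
    unfold δ; linarith
  · have : (l : ℝ) < m := by exact_mod_cast h
    unfold δ; linarith

lemma t_lt {l m : ℕ} (h : l < m) (hm : m ≤ 3) : t m < t l := by
  have := cos_lt h hm
  unfold t; linarith

lemma a_lt {l m : ℕ} (h : l < m) (hm : m ≤ 3) : a l < a m := by
  unfold a
  apply Real.strictAntiOn_arccos
  · constructor
    · have := t_ge m; linarith
    · have := t_le m; linarith
  · constructor
    · have := t_ge l; linarith
    · have := t_le l; linarith
  · exact t_lt h hm

lemma t_one_ge : 1 / 10 ≤ t 1 := by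
  have h := Real.one_sub_sq_div_two_le_cos (x := ((1 : ℕ) : ℝ) * δ)
  unfold t
  have h2 : (((1 : ℕ) : ℝ) * δ) ^ 2 = 1 / 10000 := by unfold δ; norm_num
  rw [h2] at h
  linarith

lemma sin_a_one : 9 / 10 ≤ Real.sin (a 1) := by
  have h1 := Real.sin_sq_add_cos_sq (a 1)
  have h2 : 0 ≤ Real.sin (a 1) := Real.sin_nonneg_of_nonneg_of_le_pi (Real.arccos_nonneg _) (Real.arccos_le_pi _)
  rw [cos_a] at h1
  have h3 := t_le 1
  have h4 := t_one_ge
  by_contra hc
  push Not at hc
  nlinarith

noncomputable def e2 : ℝ := a 2 - a 1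
noncomputable def e3 : ℝ := a 3 - a 1

lemma e2_pos : 0 < e2 := by have := a_lt (l := 1) (m := 2) (by norm_num) (by norm_num); unfold e2; linarith
lemma e2_lt_e3 : e2 < e3 := by
  have := a_lt (l := 2) (m := 3) (by norm_num) (by norm_num); unfold e2 e3; linarith

lemma e3_lt : e3 < δ / 2 := by
  by_contra hc
  push Not at hc
  have h1 : a 1 + δ / 2 ≤ a 3 := by unfold e3 at hc; linarith
  have h2 : Real.cos (a 3) ≤ Real.cos (a 1 + δ / 2) := by
    apply Real.cos_le_cos_of_nonneg_of_le_pi _ (Real.arccos_le_pi _) h1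
    have := Real.arccos_nonneg (t 1)
    unfold a δ; linarith
  rw [cos_a, Real.cos_add, cos_a] at h2
  have h3 := t_one_ge
  have h4 := sin_a_one
  have h5 : Real.cos (δ / 2) ≤ 1 := Real.cos_le_one _
  have h6 : 4 / 1000 < Real.sin (δ / 2) := by
    have := Real.sin_gt_sub_cube (x := δ / 2) (by unfold δ; norm_num)
    unfold δ at this ⊢
    norm_num at this ⊢
    linarith
  have h7 : 1 - (((3 : ℕ) : ℝ) * δ) ^ 2 / 2 ≤ Real.cos (((3 : ℕ) : ℝ) * δ) :=
    Real.one_sub_sq_div_two_le_cos
  have h8 : (((3 : ℕ) : ℝ) * δ) ^ 2 = 9 / 10000 := by unfold δ; norm_num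
  rw [h8] at h7
  have h9 : t 1 - t 3 ≤ 1 / 1000 := by
    have h10 := Real.cos_le_one (((1 : ℕ) : ℝ) * δ)
    have h11 : t 1 = Real.cos (((1 : ℕ) : ℝ) * δ) / 2 - 3 / 8 := rfl
    have h12 : t 3 = Real.cos (((3 : ℕ) : ℝ) * δ) / 2 - 3 / 8 := rfl
    rw [h11, h12]
    generalize Real.cos (((1 : ℕ) : ℝ) * δ) = A at *
    generalize Real.cos (((3 : ℕ) : ℝ) * δ) = B at *
    linarith
  nlinarith

lemma δ_val : δ = 1 / 100 := rfl

/-! ### the index set -/

def fam (k : Fin 400) : ℕ := k.val / 100
def ii (k : Fin 400) : ℕ := (k.val % 100) / 4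
def jj (k : Fin 400) : ℕ := (k.val / 2) % 2
def mm (k : Fin 400) : ℕ := k.val % 2

lemma fam_lt (k : Fin 400) : fam k < 4 := by unfold fam; omega
lemma ii_lt (k : Fin 400) : ii k ≤ 24 := by unfold ii; omega
lemma jj_lt (k : Fin 400) : jj k < 2 := by unfold jj; omega
lemma mm_lt (k : Fin 400) : mm k < 2 := by unfold mm; omega

lemma idx_ext {k k' : Fin 400} (h1 : fam k = fam k') (h2 : ii k = ii k') (h3 : jj k = jj k')
    (h4 : mm k = mm k') : k = k' := by
  unfold fam at h1; unfold ii at h2; unfold jj at h3; unfold mm at h4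
  apply Fin.ext
  omega

noncomputable def x (k : Fin 400) : ℝ := ii k * δ + jj k * e2 + mm k * e3

lemma x_mem (k : Fin 400) : 0 ≤ x k ∧ x k ≤ 1 / 4 := by
  have h1 : ((ii k : ℕ) : ℝ) ≤ 24 := by exact_mod_cast ii_lt k
  have h2 : ((jj k : ℕ) : ℝ) ≤ 1 := by exact_mod_cast Nat.lt_succ_iff.mp (jj_lt k)
  have h3 : ((mm k : ℕ) : ℝ) ≤ 1 := by exact_mod_cast Nat.lt_succ_iff.mp (mm_lt k)
  have g1 : (0 : ℝ) ≤ ii k := Nat.cast_nonneg _
  have g2 : (0 : ℝ) ≤ jj k := Nat.cast_nonneg _
  have g3 : (0 : ℝ) ≤ mm k := Nat.cast_nonneg _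
  have p1 := e2_pos
  have p2 := e2_lt_e3
  have p3 := e3_lt
  have hd := δ_val
  rw [hd] at p3
  unfold x
  rw [hd]
  constructor
  · have : 0 ≤ (jj k : ℝ) * e2 := mul_nonneg g2 p1.le
    have : 0 ≤ (mm k : ℝ) * e3 := mul_nonneg g3 (by linarith)
    linarith
  · have : (jj k : ℝ) * e2 ≤ 1 * e2 := mul_le_mul_of_nonneg_right h2 p1.le
    have : (mm k : ℝ) * e3 ≤ 1 * e3 := mul_le_mul_of_nonneg_right h3 (by linarith)
    linarith

lemma w_abs (k k' : Fin 400) : |x k' - x k| ≤ 1 / 4 := by
  have h1 := x_mem k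
  have h2 := x_mem k'
  rw [abs_le]; constructor <;> linarith

lemma x_inj {k k' : Fin 400} (h : x k = x k') : ii k = ii k' ∧ jj k = jj k' ∧ mm k = mm k' := by
  have p1 := e2_pos
  have p2 := e2_lt_e3
  have p3 := e3_lt
  have hd := δ_val
  unfold x at h
  have hj := jj_lt k
  have hj' := jj_lt k'
  have hm := mm_lt k
  have hm' := mm_lt k'
  have key : ii k = ii k' := by
    by_contra hne
    rcases Nat.lt_or_gt_of_ne hne with hlt | hgt
    · have h1 : (ii k : ℝ) + 1 ≤ ii k' := by exact_mod_cast hlt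
      have h2 : (ii k : ℝ) * δ + δ ≤ ii k' * δ := by rw [hd]; linarith
      interval_cases (jj k) <;> interval_cases (jj k') <;> interval_cases (mm k) <;>
        interval_cases (mm k') <;> push_cast at h <;> linarith
    · have h1 : (ii k' : ℝ) + 1 ≤ ii k := by exact_mod_cast hgt
      have h2 : (ii k' : ℝ) * δ + δ ≤ ii k * δ := by rw [hd]; linarith
      interval_cases (jj k) <;> interval_cases (jj k') <;> interval_cases (mm k) <;>
        interval_cases (mm k') <;> push_cast at h <;> linarith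
  refine ⟨key, ?_⟩
  rw [key] at h
  interval_cases hA : (jj k) <;> interval_cases hB : (jj k') <;> interval_cases hC : (mm k) <;>
    interval_cases hD : (mm k') <;> first | exact ⟨rfl, rfl⟩ | (exfalso; push_cast at h; linarith)

/-- radius -/
noncomputable def rr (k : Fin 400) : ℝ := if fam k ≤ 1 then 1 else 1 / 2

/-- angle -/
noncomputable def ph (k : Fin 400) : ℝ :=
  if fam k = 0 then x k else if fam k = 1 then Real.pi + a 1 + x k else
  if fam k = 2 then a 1 + x k else Real.pi + x k

noncomputable def F (k : Fin 400) : EuclideanSpace ℝ (Fin 2) := pt (rr k) (ph k)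

lemma cos_small {w : ℝ} (hw : |w| ≤ 1 / 4) : 0 < Real.cos w := by
  apply Real.cos_pos_of_mem_Ioo
  have := Real.pi_gt_three
  rw [abs_le] at hw
  constructor <;> linarith

lemma cos_lt_one_of {w : ℝ} (hw : |w| ≤ 1 / 4) (h0 : w ≠ 0) : Real.cos w < 1 := by
  rcases lt_or_eq_of_le (Real.cos_le_one w) with h | h
  · exact h
  · exfalso
    have hpi := Real.pi_gt_three
    rw [abs_le] at hw
    have := (Real.cos_eq_one_iff_of_lt_of_lt (x := w) (by linarith) (by linarith)).mp h
    exact h0 this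

lemma cos_mid {w : ℝ} (hw : |w| ≤ 1 / 4) : |Real.cos (a 1 + w)| < 1 / 2 := by
  rw [Real.cos_add, cos_a]
  have h1 := t_le 1
  have h2 := t_one_ge
  have h3 : |Real.sin w| ≤ |w| := Real.abs_sin_le_abs
  have h4 : |t 1 * Real.cos w| ≤ 1 / 8 := by
    rw [abs_mul]
    have : |Real.cos w| ≤ 1 := Real.abs_cos_le_one w
    have h5 : |t 1| ≤ 1 / 8 := by rw [abs_le]; constructor <;> linarith
    nlinarith [abs_nonneg (t 1), abs_nonneg (Real.cos w)]
  have h6 : |Real.sin (a 1) * Real.sin w| ≤ 1 / 4 := by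
    rw [abs_mul]
    have : |Real.sin (a 1)| ≤ 1 := Real.abs_sin_le_one (a 1)
    nlinarith [abs_nonneg (Real.sin (a 1)), abs_nonneg (Real.sin w)]
  have h7 := abs_sub (t 1 * Real.cos w) (Real.sin (a 1) * Real.sin w)
  linarith

lemma fam_cases (k : Fin 400) : fam k = 0 ∨ fam k = 1 ∨ fam k = 2 ∨ fam k = 3 := by
  have := fam_lt k; omega

/-- the key separation: each point is the unique maximiser of the linear functional in its own
direction -/
lemma sep {k k' : Fin 400} (hne : k ≠ k') : rr k' * Real.cos (ph k' - ph k) < rr k := by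
  have hw := w_abs k k'
  have hw' : |x k - x k'| ≤ 1 / 4 := w_abs k' k
  have hxne : fam k = fam k' → x k' - x k ≠ 0 := by
    intro hf h0
    have h1 : x k = x k' := by linarith
    obtain ⟨h2, h3, h4⟩ := x_inj h1
    exact hne (idx_ext hf h2 h3 h4)
  have c1 := cos_small hw
  have m1 := abs_lt.mp (cos_mid hw)
  have m2 := abs_lt.mp (cos_mid hw')
  have l1 := Real.cos_le_one (ph k' - ph k)
  rcases fam_cases k with h | h | h | h <;> rcases fam_cases k' with h' | h' | h' | h'
  · -- 0 0
    have := cos_lt_one_of hw (hxne (by rw [h, h']))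
    simp only [rr, ph, h, h']; norm_num
    exact this
  · -- 0 1
    have e : Real.pi + a 1 + x k' - x k = (a 1 + (x k' - x k)) + Real.pi := by ring
    simp only [rr, ph, h, h']; norm_num
    rw [e, Real.cos_add_pi]; linarith
  · -- 0 2
    simp only [rr, h, h']; norm_num; linarith
  · simp only [rr, h, h']; norm_num; linarith
  · -- 1 0
    have e : x k' - (Real.pi + a 1 + x k) = -((a 1 + (x k - x k')) + Real.pi) := by ring
    simp only [rr, ph, h, h']; norm_num
    rw [e, Real.cos_neg, Real.cos_add_pi]; linarith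
  · -- 1 1
    have := cos_lt_one_of hw (hxne (by rw [h, h']))
    have e : Real.pi + a 1 + x k' - (Real.pi + a 1 + x k) = x k' - x k := by ring
    simp only [rr, ph, h, h']; norm_num
    exact this
  · simp only [rr, h, h']; norm_num; linarith
  · simp only [rr, h, h']; norm_num; linarith
  · -- 2 0
    have e : x k' - (a 1 + x k) = -(a 1 + (x k - x k')) := by ring
    simp only [rr, ph, h, h']; norm_num
    rw [e, Real.cos_neg]; linarith
  · -- 2 1
    have e : Real.pi + a 1 + x k' - (a 1 + x k) = (x k' - x k) + Real.pi := by ring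
    simp only [rr, ph, h, h']; norm_num
    rw [e, Real.cos_add_pi]; linarith
  · -- 2 2
    have := cos_lt_one_of hw (hxne (by rw [h, h']))
    have e : a 1 + x k' - (a 1 + x k) = x k' - x k := by ring
    simp only [rr, ph, h, h']; norm_num
    linarith
  · -- 2 3
    have e : Real.pi + x k' - (a 1 + x k) = -((a 1 + (x k - x k')) - Real.pi) := by ring
    simp only [rr, ph, h, h']; norm_num
    rw [e, Real.cos_neg, Real.cos_sub_pi]; linarith
  · -- 3 0
    have e : x k' - (Real.pi + x k) = (x k' - x k) - Real.pi := by ring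
    simp only [rr, ph, h, h']; norm_num
    rw [e, Real.cos_sub_pi]; linarith
  · -- 3 1
    have e : Real.pi + a 1 + x k' - (Real.pi + x k) = a 1 + (x k' - x k) := by ring
    simp only [rr, ph, h, h']; norm_num
    rw [e]; linarith
  · -- 3 2
    have e : a 1 + x k' - (Real.pi + x k) = (a 1 + (x k' - x k)) - Real.pi := by ring
    simp only [rr, ph, h, h']; norm_num
    rw [e, Real.cos_sub_pi]; linarith
  · -- 3 3
    have := cos_lt_one_of hw (hxne (by rw [h, h']))
    have e : Real.pi + x k' - (Real.pi + x k) = x k' - x k := by ring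
    simp only [rr, ph, h, h']; norm_num
    linarith

/-- linear functional in direction `φ` -/
noncomputable def lf (φ : ℝ) (p : EuclideanSpace ℝ (Fin 2)) : ℝ := Real.cos φ * p 0 + Real.sin φ * p 1

lemma lf_pt (φ r ψ : ℝ) : lf φ (pt r ψ) = r * Real.cos (ψ - φ) := by
  unfold lf; rw [pt_zero, pt_one, Real.cos_sub]; ring

lemma lf_self (k : Fin 400) : lf (ph k) (F k) = rr k := by
  unfold F; rw [lf_pt]; simp

lemma lf_lt {k k' : Fin 400} (h : k ≠ k') : lf (ph k) (F k') < lf (ph k) (F k) := by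
  rw [lf_self]; unfold F; rw [lf_pt]; exact sep h

lemma F_inj : Function.Injective F := by
  intro k k' h
  by_contra hne
  have := lf_lt hne
  rw [h] at this
  exact lt_irrefl _ this

/-! ### distances -/

noncomputable def D (l : ℕ) : ℝ := Real.sqrt (5 / 4 + Real.cos (l * δ))

def eRel (l : ℕ) (k k' : Fin 400) : Bool :=
  (ii k == ii k') &&
    (if l = 1 then (jj k == jj k') && (mm k == mm k')
     else if l = 2 then (mm k == mm k') && ((jj k == 0) && (jj k' == 1))
     else (jj k == jj k') && ((mm k == 0) && (mm k' == 1)))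

def cRel (l : ℕ) (k k' : Fin 400) : Bool :=
  (jj k == jj k') && (mm k == mm k') && ((ii k' == ii k + l) || (ii k == ii k' + l))

def q (l : ℕ) (k k' : Fin 400) : Bool :=
  ((fam k == 0) && (fam k' == 1) && eRel l k k') ||
  ((fam k == 1) && (fam k' == 0) && eRel l k' k) ||
  ((fam k + fam k' == 3) && cRel l k k')

lemma eRel_sound {l : ℕ} (hl : l = 1 ∨ l = 2 ∨ l = 3) {k k' : Fin 400} (h : eRel l k k' = true) :
    a 1 + (x k' - x k) = a l := by
  unfold eRel at h
  rcases hl with rfl | rfl | rfl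
  · simp at h
    obtain ⟨h1, h2, h3⟩ := h
    unfold x; rw [h1, h2, h3]; ring
  · simp at h
    obtain ⟨h1, h2, h3, h4⟩ := h
    unfold x; rw [h1, h2, h3, h4]; push_cast; unfold e2; ring
  · simp at h
    obtain ⟨h1, h2, h3, h4⟩ := h
    unfold x; rw [h1, h2, h3, h4]; push_cast; unfold e3; ring

lemma cRel_sound {l : ℕ} {k k' : Fin 400} (h : cRel l k k' = true) :
    Real.cos (x k' - x k) = Real.cos (l * δ) := by
  unfold cRel at h
  simp at h
  obtain ⟨⟨h1, h2⟩, h3 | h3⟩ := h
  · have : x k' - x k = l * δ := by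
      unfold x; rw [h1, h2, h3]; push_cast; ring
    rw [this]
  · have : x k' - x k = -(l * δ) := by
      unfold x; rw [h1, h2, h3]; push_cast; ring
    rw [this, Real.cos_neg]

lemma dist_F (k k' : Fin 400) : dist (F k) (F k') =
    Real.sqrt (rr k ^ 2 + rr k' ^ 2 - 2 * rr k * rr k' * Real.cos (ph k - ph k')) := dist_pt _ _ _ _

lemma dist_AA {l : ℕ} (hl : l = 1 ∨ l = 2 ∨ l = 3) {k k' : Fin 400} (h0 : fam k = 0)
    (h1 : fam k' = 1) (h : eRel l k k' = true) : dist (F k) (F k') = D l := by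
  have e : x k - (Real.pi + a 1 + x k') = -((a 1 + (x k' - x k)) + Real.pi) := by ring
  rw [dist_F]
  unfold D
  congr 1
  simp only [rr, ph, h0, h1]; norm_num
  rw [e, eRel_sound hl h, Real.cos_neg, Real.cos_add_pi, cos_a]
  unfold t; ring

lemma dist_AB {l : ℕ} {k k' : Fin 400} (hf : fam k + fam k' = 3) (h : cRel l k k' = true) :
    dist (F k) (F k') = D l := by
  have hc := cRel_sound h
  have hc' : Real.cos (x k - x k') = Real.cos (l * δ) := by
    rw [← hc, ← Real.cos_neg]; congr 1; ring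
  rw [dist_F]
  unfold D
  congr 1
  rcases fam_cases k with h0 | h0 | h0 | h0
  · have h1 : fam k' = 3 := by omega
    have e : x k - (Real.pi + x k') = (x k - x k') - Real.pi := by ring
    simp only [rr, ph, h0, h1]; norm_num
    rw [e, Real.cos_sub_pi, hc']; ring
  · have h1 : fam k' = 2 := by omega
    have e : Real.pi + a 1 + x k - (a 1 + x k') = (x k - x k') + Real.pi := by ring
    simp only [rr, ph, h0, h1]; norm_num
    rw [e, Real.cos_add_pi, hc']; ring
  · have h1 : fam k' = 1 := by omega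
    have e : a 1 + x k - (Real.pi + a 1 + x k') = (x k - x k') - Real.pi := by ring
    simp only [rr, ph, h0, h1]; norm_num
    rw [e, Real.cos_sub_pi, hc']; ring
  · have h1 : fam k' = 0 := by omega
    have e : Real.pi + x k - x k' = (x k - x k') + Real.pi := by ring
    simp only [rr, ph, h0, h1]; norm_num
    rw [e, Real.cos_add_pi, hc']; ring

lemma q_sound {l : ℕ} (hl : l = 1 ∨ l = 2 ∨ l = 3) {k k' : Fin 400} (h : q l k k' = true) :
    k ≠ k' ∧ dist (F k) (F k') = D l := by
  unfold q at h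
  simp only [Bool.or_eq_true, Bool.and_eq_true, beq_iff_eq] at h
  rcases h with (⟨⟨h0, h1⟩, h2⟩ | ⟨⟨h0, h1⟩, h2⟩) | ⟨h0, h2⟩
  · refine ⟨?_, dist_AA hl h0 h1 h2⟩
    rintro rfl; omega
  · refine ⟨?_, ?_⟩
    · rintro rfl; omega
    · rw [dist_comm]; exact dist_AA hl h1 h0 h2
  · refine ⟨?_, dist_AB h0 h2⟩
    rintro rfl; omega

/-! ### counting: from every vertex `k` there are three moves -/

/-- target of move `s` in class `l` (only meaningful if `val l s k`) -/
def tgt (l : ℕ) (s : Fin 3) (k : Fin 400) : Fin 400 :=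
  Fin.ofNat 400
    (if s = 0 then 100 * (3 - fam k) + 4 * (ii k + l) + 2 * jj k + mm k
     else if s = 1 then 100 * (3 - fam k) + 4 * (ii k - l) + 2 * jj k + mm k
     else
      let c := if l = 1 then 100 else if l = 2 then 102 else 101
      if fam k = 0 then k.val + c else k.val - c)

def val (l : ℕ) (s : Fin 3) (k : Fin 400) : Bool :=
  if s = 0 then decide (ii k + l ≤ 24)
  else if s = 1 then decide (l ≤ ii k)
  else if fam k = 0 then
    (if l = 1 then true else if l = 2 then jj k == 0 else mm k == 0)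
  else if fam k = 1 then
    (if l = 1 then true else if l = 2 then jj k == 1 else mm k == 1)
  else false

def T (l : ℕ) : Finset (Fin 400 × Fin 3) := Finset.univ.filter (fun p => val l p.2 p.1 = true)

set_option maxRecDepth 100000 in
lemma chk1 : (∀ l : Fin 4, 1 ≤ l.val → ∀ k : Fin 400, ∀ s : Fin 3, val l.val s k = true →
    q l.val k (tgt l.val s k) = true) := by
  decide +kernel

set_option maxRecDepth 100000 in
lemma chk2 : (∀ l : Fin 4, 1 ≤ l.val → ∀ k : Fin 400, ∀ s s' : Fin 3, val l.val s k = true →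
    val l.val s' k = true → tgt l.val s k = tgt l.val s' k → s = s') := by
  decide +kernel

set_option maxRecDepth 100000 in
lemma cardT : ∀ l : Fin 4, 1 ≤ l.val → 800 < (T l.val).card := by
  unfold T
  decide +kernel

set_option linter.constructorNameAsVariable false in
lemma mem_T {l : ℕ} {p : Fin 400 × Fin 3} (h : p ∈ T l) : val l p.2 p.1 = true := by
  unfold T at h
  simp only [Finset.mem_filter, Finset.mem_univ, true_and] at h
  exact h

attribute [irreducible] T tgt q val

noncomputable def S : Finset (EuclideanSpace ℝ (Fin 2)) := Finset.univ.map ⟨F, F_inj⟩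

lemma mem_S (p : EuclideanSpace ℝ (Fin 2)) : p ∈ S ↔ ∃ k, F k = p := by
  unfold S; simp

lemma card_S : S.card = 400 := by
  unfold S; simp

attribute [irreducible] S F D

lemma count (l : Fin 4) (hl : 1 ≤ l.val) :
    800 < (S.offDiag.filter (fun pq => dist pq.1 pq.2 = D l.val)).card := by
  have hl' : l.val = 1 ∨ l.val = 2 ∨ l.val = 3 := by have := l.isLt; omega
  refine lt_of_lt_of_le (cardT l hl) ?_
  apply Finset.card_le_card_of_injOn (fun p => (F p.1, F (tgt l.val p.2 p.1)))
  · intro p hp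
    have hv : val l.val p.2 p.1 = true := mem_T (Finset.mem_coe.mp hp)
    have hq := q_sound hl' (chk1 l hl p.1 p.2 hv)
    rw [Finset.mem_coe, Finset.mem_filter, Finset.mem_offDiag]
    refine ⟨⟨(mem_S _).mpr ⟨_, rfl⟩, (mem_S _).mpr ⟨_, rfl⟩, ?_⟩, hq.2⟩
    intro h
    exact hq.1 (F_inj h)
  · intro p hp p' hp' h
    have hv : val l.val p.2 p.1 = true := mem_T (Finset.mem_coe.mp hp)
    have hv' : val l.val p'.2 p'.1 = true := mem_T (Finset.mem_coe.mp hp')
    simp only [Prod.mk.injEq] at h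
    have h1 : p.1 = p'.1 := F_inj h.1
    have h2 := F_inj h.2
    rw [h1] at h2 hv
    exact Prod.ext h1 (chk2 l hl p'.1 p.2 p'.2 hv hv' h2)

lemma D_lt {l m : ℕ} (h : l < m) (hm : m ≤ 3) : D m < D l := by
  unfold D
  apply Real.sqrt_lt_sqrt
  · have := Real.neg_one_le_cos (m * δ); linarith
  · have := cos_lt h hm; linarith

lemma convex_pos : ∀ p ∈ S, p ∉ convexHull ℝ ((S : Set (EuclideanSpace ℝ (Fin 2))) \ {p}) := by
  intro p hp hmem
  obtain ⟨k, rfl⟩ := (mem_S p).mp hp
  have hsub : ((S : Set (EuclideanSpace ℝ (Fin 2))) \ {F k}) ⊆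
      {z | lf (ph k) z < lf (ph k) (F k)} := by
    rintro z ⟨hz, hne⟩
    obtain ⟨k', rfl⟩ := (mem_S z).mp (Finset.mem_coe.mp hz)
    have hkk : k ≠ k' := by
      rintro rfl; exact hne rfl
    exact lf_lt hkk
  have hconv : Convex ℝ {z : EuclideanSpace ℝ (Fin 2) | lf (ph k) z < lf (ph k) (F k)} := by
    apply convex_halfSpace_lt
    constructor
    · intro u v; unfold lf; simp; ring
    · intro c u; unfold lf; simp; ring
  have h2 : lf (ph k) (F k) < lf (ph k) (F k) := convexHull_min hsub hconv hmem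
  exact lt_irrefl _ h2

/-- For some n there is a set of n points in the plane in strictly convex position with three distinct distances, each realized by more than n unordered pairs of the points. Equivalently, the third most frequent distance occurs more than n times. -/
theorem result :
    ∃ n : ℕ, ∃ S : Finset (EuclideanSpace ℝ (Fin 2)),
      S.card = n ∧
      (∀ p ∈ S, p ∉ convexHull ℝ ((S : Set (EuclideanSpace ℝ (Fin 2))) \ {p})) ∧
      ∃ d₁ d₂ d₃ : ℝ, d₁ ≠ d₂ ∧ d₁ ≠ d₃ ∧ d₂ ≠ d₃ ∧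
        2 * n < (S.offDiag.filter (fun pq => dist pq.1 pq.2 = d₁)).card ∧
        2 * n < (S.offDiag.filter (fun pq => dist pq.1 pq.2 = d₂)).card ∧
        2 * n < (S.offDiag.filter (fun pq => dist pq.1 pq.2 = d₃)).card := by
  refine ⟨400, S, card_S, convex_pos, D 1, D 2, D 3, ?_, ?_, ?_, ?_, ?_, ?_⟩
  · exact (D_lt (by norm_num) (by norm_num)).ne'
  · exact (D_lt (by norm_num) (by norm_num)).ne'
  · exact (D_lt (by norm_num) (by norm_num)).ne'
  · exact count 1 (by decide)
  · exact count 2 (by decide)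
  · exact count 3 (by decide)

end Pool.Agent.S07113
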