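import Pool.Statements.S07115
import Pool.Agent.Helper868.FTX.Main

set_option autoImplicit false
open Pool Pool.MP_bec39b_co

namespace Pool.Agent.S07115

/-- For every n ≥ 1 the subsets of an n-set can be listed starting from the empty set, with consecutive sets differing by one element, such that a set appearing after one of its proper supersets appears immediately after it. -/
theorem result :
    ∀ n : ℕ, 1 ≤ n →
      ∃ A : Fin (2 ^ n) ≃ Finset (Fin n),
        (∀ i : Fin (2 ^ n), i.val = 0 → A i = ∅) ∧
        (∀ i j : Fin (2 ^ n), j.val = i.val + 1 →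
            (A i ⊂ A j ∨ A j ⊂ A i) ∧ (symmDiff (A i) (A j)).card = 1) ∧
        (∀ i j : Fin (2 ^ n), A i ⊂ A j → j < i → i.val = j.val + 1) :=
  Pool.Agent.Helper868.FTX.main

end Pool.Agent.S07115
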