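import Pool.Statements.S07146

set_option autoImplicit false
open Pool Pool.MP_c0cbcd_co

namespace Pool.Agent.S07146

/-
Counterexample.  Atoms (finite impartial games)
  a = {0},  b = {0, a},  c = {a, b, a + 2b},  d = {b, a + b + c}.
A position is a vector of multiplicities.  The normal-play Grundy values of a, b, c, d are 1, 2, 0, 0.
Misere P-positions (a, b, c, d now denote multiplicities):
  b = c = d = 0 : a odd
  c = 1         : a + d odd and b odd
  otherwise     : a + d even and b even.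
Hence c + d and a + c are indistinguishable, but have Grundy values 0 and 1.
-/

/-- positions: multiplicities of the four atoms -/
abbrev Pos : Type := ℕ × ℕ × ℕ × ℕ

/-- the move relation: `mv K G` says that `K` is an option of `G` -/
def mv (K G : Pos) : Prop :=
  (G.1 = K.1 + 1 ∧ G.2.1 = K.2.1 ∧ G.2.2.1 = K.2.2.1 ∧ G.2.2.2 = K.2.2.2) ∨
  (G.1 = K.1 ∧ G.2.1 = K.2.1 + 1 ∧ G.2.2.1 = K.2.2.1 ∧ G.2.2.2 = K.2.2.2) ∨
  (G.1 + 1 = K.1 ∧ G.2.1 = K.2.1 + 1 ∧ G.2.2.1 = K.2.2.1 ∧ G.2.2.2 = K.2.2.2) ∨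
  (G.1 + 1 = K.1 ∧ G.2.1 = K.2.1 ∧ G.2.2.1 = K.2.2.1 + 1 ∧ G.2.2.2 = K.2.2.2) ∨
  (G.1 = K.1 ∧ G.2.1 + 1 = K.2.1 ∧ G.2.2.1 = K.2.2.1 + 1 ∧ G.2.2.2 = K.2.2.2) ∨
  (G.1 + 1 = K.1 ∧ G.2.1 + 2 = K.2.1 ∧ G.2.2.1 = K.2.2.1 + 1 ∧ G.2.2.2 = K.2.2.2) ∨
  (G.1 = K.1 ∧ G.2.1 + 1 = K.2.1 ∧ G.2.2.1 = K.2.2.1 ∧ G.2.2.2 = K.2.2.2 + 1) ∨
  (G.1 + 1 = K.1 ∧ G.2.1 + 1 = K.2.1 ∧ G.2.2.1 + 1 = K.2.2.1 ∧ G.2.2.2 = K.2.2.2 + 1)

theorem m1 (a b c d : ℕ) (h : 0 < a) : mv (a - 1, b, c, d) (a, b, c, d) := by
  refine Or.inl ?_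
  dsimp only
  omega
theorem m2 (a b c d : ℕ) (h : 0 < b) : mv (a, b - 1, c, d) (a, b, c, d) := by
  refine Or.inr (Or.inl ?_)
  dsimp only
  omega
theorem m3 (a b c d : ℕ) (h : 0 < b) : mv (a + 1, b - 1, c, d) (a, b, c, d) := by
  refine Or.inr (Or.inr (Or.inl ?_))
  dsimp only
  omega
theorem m4 (a b c d : ℕ) (h : 0 < c) : mv (a + 1, b, c - 1, d) (a, b, c, d) := by
  refine Or.inr (Or.inr (Or.inr (Or.inl ?_)))
  dsimp only
  omega
theorem m5 (a b c d : ℕ) (h : 0 < c) : mv (a, b + 1, c - 1, d) (a, b, c, d) := by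
  refine Or.inr (Or.inr (Or.inr (Or.inr (Or.inl ?_))))
  dsimp only
  omega
theorem m6 (a b c d : ℕ) (h : 0 < c) : mv (a + 1, b + 2, c - 1, d) (a, b, c, d) := by
  refine Or.inr (Or.inr (Or.inr (Or.inr (Or.inr (Or.inl ?_)))))
  dsimp only
  omega
theorem m7 (a b c d : ℕ) (h : 0 < d) : mv (a, b + 1, c, d - 1) (a, b, c, d) := by
  refine Or.inr (Or.inr (Or.inr (Or.inr (Or.inr (Or.inr (Or.inl ?_))))))
  dsimp only
  omega
theorem m8 (a b c d : ℕ) (h : 0 < d) : mv (a + 1, b + 1, c + 1, d - 1) (a, b, c, d) := by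
  refine Or.inr (Or.inr (Or.inr (Or.inr (Or.inr (Or.inr (Or.inr ?_))))))
  dsimp only
  omega

/-- misere P-positions -/
def PP (G : Pos) : Prop :=
  (G.2.1 = 0 ∧ G.2.2.1 = 0 ∧ G.2.2.2 = 0 ∧ G.1 % 2 = 1) ∨
  (G.2.2.1 = 1 ∧ (G.1 + G.2.2.2) % 2 = 1 ∧ G.2.1 % 2 = 1) ∨
  (¬ (G.2.1 = 0 ∧ G.2.2.1 = 0 ∧ G.2.2.2 = 0) ∧ G.2.2.1 ≠ 1 ∧
    (G.1 + G.2.2.2) % 2 = 0 ∧ G.2.1 % 2 = 0)

/-- Grundy values -/
def gr (G : Pos) : ℕ := G.1 % 2 + 2 * (G.2.1 % 2)

theorem mv_finite (G : Pos) : Set.Finite {K : Pos | mv K G} := by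
  apply Set.Finite.subset
    (Set.finite_Icc ((0, 0, 0, 0) : Pos) (G.1 + 1, G.2.1 + 2, G.2.2.1 + 1, G.2.2.2))
  intro K hK
  obtain ⟨k1, k2, k3, k4⟩ := K
  have hK' : mv (k1, k2, k3, k4) G := hK
  simp only [mv] at hK'
  simp only [Set.mem_Icc, Prod.mk_le_mk]
  rcases hK' with h | h | h | h | h | h | h | h <;> omega

theorem mv_wf : WellFounded mv := by
  apply Subrelation.wf (r := InvImage (· < ·)
    (fun G : Pos => G.1 + 2 * G.2.1 + 6 * G.2.2.1 + 10 * G.2.2.2))
  · intro K G h
    simp only [mv] at h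
    simp only [InvImage]
    rcases h with h | h | h | h | h | h | h | h <;> omega
  · exact InvImage.wf _ Nat.lt_wfRel.wf

theorem eq4 {a b c d a' b' c' d' : ℕ} (h1 : a = a') (h2 : b = b') (h3 : c = c') (h4 : d = d') :
    ((a, b, c, d) : Pos) = (a', b', c', d') := by
  subst h1 h2 h3 h4
  rfl

theorem mv_add (G H K : Pos) : mv K (G + H) ↔
    ((∃ G' : Pos, mv G' G ∧ K = G' + H) ∨ (∃ H' : Pos, mv H' H ∧ K = G + H')) := by
  obtain ⟨g1, g2, g3, g4⟩ := G
  obtain ⟨h1, h2, h3, h4⟩ := H
  obtain ⟨k1, k2, k3, k4⟩ := K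
  constructor
  · intro h
    simp only [mv, Prod.mk_add_mk] at h
    rcases h with h | h | h | h | h | h | h | h
    · by_cases hp : 0 < g1
      · exact Or.inl ⟨_, m1 g1 g2 g3 g4 hp, by
        simp only [Prod.mk_add_mk]
        exact eq4 (by omega) (by omega) (by omega) (by omega)⟩
      · exact Or.inr ⟨_, m1 h1 h2 h3 h4 (by omega), by
        simp only [Prod.mk_add_mk]
        exact eq4 (by omega) (by omega) (by omega) (by omega)⟩
    · by_cases hp : 0 < g2
      · exact Or.inl ⟨_, m2 g1 g2 g3 g4 hp, by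
        simp only [Prod.mk_add_mk]
        exact eq4 (by omega) (by omega) (by omega) (by omega)⟩
      · exact Or.inr ⟨_, m2 h1 h2 h3 h4 (by omega), by
        simp only [Prod.mk_add_mk]
        exact eq4 (by omega) (by omega) (by omega) (by omega)⟩
    · by_cases hp : 0 < g2
      · exact Or.inl ⟨_, m3 g1 g2 g3 g4 hp, by
        simp only [Prod.mk_add_mk]
        exact eq4 (by omega) (by omega) (by omega) (by omega)⟩
      · exact Or.inr ⟨_, m3 h1 h2 h3 h4 (by omega), by
        simp only [Prod.mk_add_mk]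
        exact eq4 (by omega) (by omega) (by omega) (by omega)⟩
    · by_cases hp : 0 < g3
      · exact Or.inl ⟨_, m4 g1 g2 g3 g4 hp, by
        simp only [Prod.mk_add_mk]
        exact eq4 (by omega) (by omega) (by omega) (by omega)⟩
      · exact Or.inr ⟨_, m4 h1 h2 h3 h4 (by omega), by
        simp only [Prod.mk_add_mk]
        exact eq4 (by omega) (by omega) (by omega) (by omega)⟩
    · by_cases hp : 0 < g3
      · exact Or.inl ⟨_, m5 g1 g2 g3 g4 hp, by
        simp only [Prod.mk_add_mk]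
        exact eq4 (by omega) (by omega) (by omega) (by omega)⟩
      · exact Or.inr ⟨_, m5 h1 h2 h3 h4 (by omega), by
        simp only [Prod.mk_add_mk]
        exact eq4 (by omega) (by omega) (by omega) (by omega)⟩
    · by_cases hp : 0 < g3
      · exact Or.inl ⟨_, m6 g1 g2 g3 g4 hp, by
        simp only [Prod.mk_add_mk]
        exact eq4 (by omega) (by omega) (by omega) (by omega)⟩
      · exact Or.inr ⟨_, m6 h1 h2 h3 h4 (by omega), by
        simp only [Prod.mk_add_mk]
        exact eq4 (by omega) (by omega) (by omega) (by omega)⟩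
    · by_cases hp : 0 < g4
      · exact Or.inl ⟨_, m7 g1 g2 g3 g4 hp, by
        simp only [Prod.mk_add_mk]
        exact eq4 (by omega) (by omega) (by omega) (by omega)⟩
      · exact Or.inr ⟨_, m7 h1 h2 h3 h4 (by omega), by
        simp only [Prod.mk_add_mk]
        exact eq4 (by omega) (by omega) (by omega) (by omega)⟩
    · by_cases hp : 0 < g4
      · exact Or.inl ⟨_, m8 g1 g2 g3 g4 hp, by
        simp only [Prod.mk_add_mk]
        exact eq4 (by omega) (by omega) (by omega) (by omega)⟩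
      · exact Or.inr ⟨_, m8 h1 h2 h3 h4 (by omega), by
        simp only [Prod.mk_add_mk]
        exact eq4 (by omega) (by omega) (by omega) (by omega)⟩
  · rintro (⟨⟨a, b, c, d⟩, hm, hk⟩ | ⟨⟨a, b, c, d⟩, hm, hk⟩)
    · simp only [Prod.mk_add_mk, Prod.mk.injEq] at hk
      simp only [mv] at hm
      rcases hm with h | h | h | h | h | h | h | h
      · refine (Or.inl ?_)
        simp only [Prod.mk_add_mk]
        omega
      · refine (Or.inr (Or.inl ?_))
        simp only [Prod.mk_add_mk]
        omega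
      · refine (Or.inr (Or.inr (Or.inl ?_)))
        simp only [Prod.mk_add_mk]
        omega
      · refine (Or.inr (Or.inr (Or.inr (Or.inl ?_))))
        simp only [Prod.mk_add_mk]
        omega
      · refine (Or.inr (Or.inr (Or.inr (Or.inr (Or.inl ?_)))))
        simp only [Prod.mk_add_mk]
        omega
      · refine (Or.inr (Or.inr (Or.inr (Or.inr (Or.inr (Or.inl ?_))))))
        simp only [Prod.mk_add_mk]
        omega
      · refine (Or.inr (Or.inr (Or.inr (Or.inr (Or.inr (Or.inr (Or.inl ?_)))))))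
        simp only [Prod.mk_add_mk]
        omega
      · refine (Or.inr (Or.inr (Or.inr (Or.inr (Or.inr (Or.inr (Or.inr ?_)))))))
        simp only [Prod.mk_add_mk]
        omega
    · simp only [Prod.mk_add_mk, Prod.mk.injEq] at hk
      simp only [mv] at hm
      rcases hm with h | h | h | h | h | h | h | h
      · refine (Or.inl ?_)
        simp only [Prod.mk_add_mk]
        omega
      · refine (Or.inr (Or.inl ?_))
        simp only [Prod.mk_add_mk]
        omega
      · refine (Or.inr (Or.inr (Or.inl ?_)))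
        simp only [Prod.mk_add_mk]
        omega
      · refine (Or.inr (Or.inr (Or.inr (Or.inl ?_))))
        simp only [Prod.mk_add_mk]
        omega
      · refine (Or.inr (Or.inr (Or.inr (Or.inr (Or.inl ?_)))))
        simp only [Prod.mk_add_mk]
        omega
      · refine (Or.inr (Or.inr (Or.inr (Or.inr (Or.inr (Or.inl ?_))))))
        simp only [Prod.mk_add_mk]
        omega
      · refine (Or.inr (Or.inr (Or.inr (Or.inr (Or.inr (Or.inr (Or.inl ?_)))))))
        simp only [Prod.mk_add_mk]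
        omega
      · refine (Or.inr (Or.inr (Or.inr (Or.inr (Or.inr (Or.inr (Or.inr ?_)))))))
        simp only [Prod.mk_add_mk]
        omega

theorem pp_of_mv (K G : Pos) (h : mv K G) (hG : PP G) : ¬ PP K := by
  simp only [mv] at h
  simp only [PP] at hG ⊢
  rcases h with h | h | h | h | h | h | h | h <;> omega

theorem ppa {a b c d : ℕ} (hb : b = 0) (hc : c = 0) (hd : d = 0) (ha : a % 2 = 1) :
    PP (a, b, c, d) := Or.inl ⟨hb, hc, hd, ha⟩

theorem pp1 {a b c d : ℕ} (hc : c = 1) (ha : (a + d) % 2 = 1) (hb : b % 2 = 1) :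
    PP (a, b, c, d) := Or.inr (Or.inl ⟨hc, ha, hb⟩)

theorem pp2 {a b c d : ℕ} (h0 : 0 < b + c + d) (hc : c ≠ 1) (ha : (a + d) % 2 = 0)
    (hb : b % 2 = 0) : PP (a, b, c, d) :=
  Or.inr (Or.inr ⟨fun h => by
    have h1 : b = 0 := h.1
    have h2 : c = 0 := h.2.1
    have h3 : d = 0 := h.2.2
    omega, hc, ha, hb⟩)

theorem exists_pp (G : Pos) (hG : ¬ PP G) : (∀ K : Pos, ¬ mv K G) ∨ ∃ K : Pos, mv K G ∧ PP K := by
  obtain ⟨a, b, c, d⟩ := G
  by_cases h0 : a = 0 ∧ b = 0 ∧ c = 0 ∧ d = 0
  · left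
    rintro ⟨k1, k2, k3, k4⟩ h
    simp only [mv] at h
    rcases h with h | h | h | h | h | h | h | h <;> omega
  right
  by_cases hbcd : b = 0 ∧ c = 0 ∧ d = 0
  · have ha : ¬ a % 2 = 1 := fun ha => hG (ppa hbcd.1 hbcd.2.1 hbcd.2.2 ha)
    exact ⟨_, m1 a b c d (by omega), ppa (by omega) (by omega) (by omega) (by omega)⟩
  by_cases hb : b % 2 = 0
  · by_cases hp : (a + d) % 2 = 1
    · by_cases hc0 : c = 0
      · by_cases ha : 0 < a
        · exact ⟨_, m1 a b c d ha, pp2 (by omega) (by omega) (by omega) (by omega)⟩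
        · exact ⟨_, m8 a b c d (by omega), pp1 (by omega) (by omega) (by omega)⟩
      · by_cases hc1 : c = 1
        · by_cases hbd : b = 0 ∧ d = 0
          · exact ⟨_, m6 a b c d (by omega), pp2 (by omega) (by omega) (by omega) (by omega)⟩
          · exact ⟨_, m4 a b c d (by omega), pp2 (by omega) (by omega) (by omega) (by omega)⟩
        · by_cases hc2 : c = 2
          · exact ⟨_, m5 a b c d (by omega), pp1 (by omega) (by omega) (by omega)⟩
          · exact ⟨_, m4 a b c d (by omega), pp2 (by omega) (by omega) (by omega) (by omega)⟩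
    · have hc : c = 1 := by
        by_contra hc
        exact hG (pp2 (by omega) hc (by omega) hb)
      by_cases hbd : b = 0 ∧ d = 0
      · exact ⟨_, m4 a b c d (by omega), ppa (by omega) (by omega) (by omega) (by omega)⟩
      · by_cases hb0 : 0 < b
        · exact ⟨_, m3 a b c d hb0, pp1 (by omega) (by omega) (by omega)⟩
        · exact ⟨_, m7 a b c d (by omega), pp1 (by omega) (by omega) (by omega)⟩
  · by_cases hp : (a + d) % 2 = 1
    · have hc : ¬ c = 1 := fun hc => hG (pp1 hc hp (by omega))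
      by_cases hs : b = 1 ∧ c = 0 ∧ d = 0
      · exact ⟨_, m2 a b c d (by omega), ppa (by omega) (by omega) (by omega) (by omega)⟩
      · exact ⟨_, m3 a b c d (by omega), pp2 (by omega) (by omega) (by omega) (by omega)⟩
    · by_cases hc1 : c = 1
      · exact ⟨_, m5 a b c d (by omega), pp2 (by omega) (by omega) (by omega) (by omega)⟩
      · by_cases hs : b = 1 ∧ c = 0 ∧ d = 0
        · exact ⟨_, m3 a b c d (by omega), ppa (by omega) (by omega) (by omega) (by omega)⟩
        · exact ⟨_, m2 a b c d (by omega), pp2 (by omega) (by omega) (by omega) (by omega)⟩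

theorem pp_shift (X : Pos) : ¬ PP ((0, 0, 1, 1) + X) ↔ ¬ PP ((1, 0, 1, 0) + X) := by
  obtain ⟨a, b, c, d⟩ := X
  have h : PP (0 + a, 0 + b, 1 + c, 1 + d) ↔ PP (1 + a, 0 + b, 1 + c, 0 + d) := by
    simp only [PP]
    by_cases hc : c = 0
    · subst hc
      constructor
      · intro h
        rcases h with h | h | h
        · omega
        · right
          left
          omega
        · omega
      · intro h
        rcases h with h | h | h
        · omega
        · right
          left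
          omega
        · omega
    · constructor
      · intro h
        right
        right
        omega
      · intro h
        right
        right
        omega
  exact not_congr h

theorem gr_ne (K G : Pos) (h : mv K G) : gr K ≠ gr G := by
  simp only [mv] at h
  simp only [gr]
  rcases h with h | h | h | h | h | h | h | h <;> omega

theorem gr_mex (G : Pos) (m : ℕ) (hm : m < gr G) : ∃ K : Pos, mv K G ∧ gr K = m := by
  obtain ⟨a, b, c, d⟩ := G
  simp only [gr] at hm
  by_cases hb : b % 2 = 0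
  · exact ⟨_, m1 a b c d (by omega), by simp only [gr]; omega⟩
  · by_cases ha : a % 2 = 0
    · by_cases h0 : m = 0
      · exact ⟨_, m2 a b c d (by omega), by simp only [gr]; omega⟩
      · exact ⟨_, m3 a b c d (by omega), by simp only [gr]; omega⟩
    · by_cases h0 : m = 0
      · exact ⟨_, m3 a b c d (by omega), by simp only [gr]; omega⟩
      · by_cases h1 : m = 1
        · exact ⟨_, m2 a b c d (by omega), by simp only [gr]; omega⟩
        · exact ⟨_, m1 a b c d (by omega), by simp only [gr]; omega⟩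

/-- The negation of the preceding statement: For every closed set of finite impartial games (closed under options and sums), any two games in it that are misère-indistinguishable modulo the set (same misère outcome when added to every member) have the same normal-play Grundy value. -/
theorem result :
    ¬ (∀ (A : Type) (add : A → A → A) (mv : A → A → Prop),
      (∀ G : A, Set.Finite {K : A | mv K G}) →
      WellFounded mv →
      (∀ G H K : A, mv K (add G H) ↔
          ((∃ G' : A, mv G' G ∧ K = add G' H) ∨ (∃ H' : A, mv H' H ∧ K = add G H'))) →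
      ∀ (N : A → Prop),
        (∀ G : A, N G ↔ ((∀ K : A, ¬ mv K G) ∨ ∃ K : A, mv K G ∧ ¬ N K)) →
      ∀ (g : A → ℕ),
        (∀ G : A, (∀ K : A, mv K G → g K ≠ g G) ∧
          (∀ m : ℕ, m < g G → ∃ K : A, mv K G ∧ g K = m)) →
      ∀ G H : A, (∀ X : A, (N (add G X) ↔ N (add H X))) → g G = g H) := by
  intro h
  have h1 := h Pos (fun G H => G + H) mv mv_finite mv_wf mv_add (fun G => ¬ PP G)
    (by
      intro G
      constructor
      · intro hG
        rcases exists_pp G hG with h2 | ⟨K, hK, hP⟩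
        · exact Or.inl h2
        · exact Or.inr ⟨K, hK, not_not_intro hP⟩
      · rintro (h2 | ⟨K, hK, hP⟩) hG
        · obtain ⟨a, b, c, d⟩ := G
          have hd : ¬ 0 < d := fun hd => h2 _ (m7 a b c d hd)
          have hc : ¬ 0 < c := fun hc => h2 _ (m4 a b c d hc)
          have hb : ¬ 0 < b := fun hb => h2 _ (m2 a b c d hb)
          have ha : ¬ 0 < a := fun ha => h2 _ (m1 a b c d ha)
          simp only [PP] at hG
          omega
        · exact pp_of_mv K G hK hG (not_not.mp hP))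
    gr (fun G => ⟨fun K hK => gr_ne K G hK, gr_mex G⟩)
    (0, 0, 1, 1) (1, 0, 1, 0)
    pp_shift
  simp only [gr] at h1
  omega

end Pool.Agent.S07146
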