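import Pool.Statements.S07158

set_option autoImplicit false
open Pool Pool.MP_c19f90_co

namespace Pool.Agent.S07158

/-- the vector with coordinates x, y, z -/
def v (x y z : ZMod 48) : Fin 3 → ZMod 48 := ![x, y, z]

/-- first coordinates used in the layer (x, 1, 0): all residues except 0 and 24 -/
def L1 : Finset (ZMod 48) := (Finset.univ.erase 0).erase 24
/-- first coordinates used in the layer (x, 0, 1): all residues except 0 and 23 -/
def L2 : Finset (ZMod 48) := (Finset.univ.erase 0).erase 23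

/-- the points outside the two long layers -/
def A3 : Finset (Fin 3 → ZMod 48) :=
  {v 0 1 1, v 1 1 1, v 1 1 (-1), v 0 (-1) 1,
   v 1 0 0, v 2 0 0, v 3 0 0, v 4 0 0, v 24 0 0, v 25 0 0, v 26 0 0, v 27 0 0, v 28 0 0}

/-- the zero-sum-free set with 105 elements -/
def A : Finset (Fin 3 → ZMod 48) :=
  L1.image (fun x => v x 1 0) ∪ (L2.image (fun x => v x 0 1) ∪ A3)

theorem v_inj (x y z x' y' z' : ZMod 48) : v x y z = v x' y' z' ↔ x = x' ∧ y = y' ∧ z = z' := by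
  constructor
  · intro h
    have h0 := congrFun h 0
    have h1 := congrFun h 1
    have h2 := congrFun h 2
    simp only [v] at h0 h1 h2
    exact ⟨by simpa using h0, by simpa using h1, by simpa using h2⟩
  · rintro ⟨rfl, rfl, rfl⟩
    rfl

theorem cardL1 : L1.card = 46 := by
  unfold L1
  rw [Finset.card_erase_of_mem, Finset.card_erase_of_mem, Finset.card_univ, ZMod.card]
  · exact Finset.mem_univ _
  · rw [Finset.mem_erase]
    exact ⟨by decide, Finset.mem_univ _⟩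

theorem cardL2 : L2.card = 46 := by
  unfold L2
  rw [Finset.card_erase_of_mem, Finset.card_erase_of_mem, Finset.card_univ, ZMod.card]
  · exact Finset.mem_univ _
  · rw [Finset.mem_erase]
    exact ⟨by decide, Finset.mem_univ _⟩

theorem sumUniv : ∑ x : ZMod 48, x = 24 := by decide +kernel

theorem sumL1 : ∑ x ∈ L1, x = 0 := by
  have h1 : ∑ x ∈ (Finset.univ.erase (0 : ZMod 48)), x = 24 := by
    have := Finset.add_sum_erase (Finset.univ : Finset (ZMod 48)) (fun x => x) (Finset.mem_univ 0)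
    rw [← sumUniv, ← this, zero_add]
  have h2 : (24 : ZMod 48) ∈ (Finset.univ.erase (0 : ZMod 48)) := by
    rw [Finset.mem_erase]
    exact ⟨by decide, Finset.mem_univ _⟩
  have h3 := Finset.add_sum_erase (Finset.univ.erase (0 : ZMod 48)) (fun x => x) h2
  rw [h1] at h3
  unfold L1
  have h4 : (24 : ZMod 48) + ∑ x ∈ (Finset.univ.erase (0 : ZMod 48)).erase 24, x = 24 + 0 := by
    rw [add_zero]; exact h3
  exact add_left_cancel h4

theorem sumL2 : ∑ x ∈ L2, x = 1 := by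
  have h1 : ∑ x ∈ (Finset.univ.erase (0 : ZMod 48)), x = 24 := by
    have := Finset.add_sum_erase (Finset.univ : Finset (ZMod 48)) (fun x => x) (Finset.mem_univ 0)
    rw [← sumUniv, ← this, zero_add]
  have h2 : (23 : ZMod 48) ∈ (Finset.univ.erase (0 : ZMod 48)) := by
    rw [Finset.mem_erase]
    exact ⟨by decide, Finset.mem_univ _⟩
  have h3 := Finset.add_sum_erase (Finset.univ.erase (0 : ZMod 48)) (fun x => x) h2
  rw [h1] at h3
  unfold L2
  have h4 : (23 : ZMod 48) + ∑ x ∈ (Finset.univ.erase (0 : ZMod 48)).erase 23, x = 23 + 1 := by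
    refine Eq.trans h3 ?_
    decide
  exact add_left_cancel h4

/-- summation over A -/
theorem sumA {M : Type} [AddCommMonoid M] (g : (Fin 3 → ZMod 48) → M) :
    ∑ b ∈ A, g b = ∑ x ∈ L1, g (v x 1 0) + (∑ x ∈ L2, g (v x 0 1) +
      (g (v 0 1 1) + (g (v 1 1 1) + (g (v 1 1 (-1)) + (g (v 0 (-1) 1) +
      (g (v 1 0 0) + (g (v 2 0 0) + (g (v 3 0 0) + (g (v 4 0 0) + (g (v 24 0 0) +
      (g (v 25 0 0) + (g (v 26 0 0) + (g (v 27 0 0) + g (v 28 0 0)))))))))))))) := by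
  have n1 : (1 : ZMod 48) ≠ 0 := by decide
  have n3 : (1 : ZMod 48) ≠ -1 := by decide
  have n5 : (0 : ZMod 48) ≠ 1 := by decide
  have n6 : (0 : ZMod 48) ≠ -1 := by decide
  unfold A
  rw [Finset.sum_union, Finset.sum_union, Finset.sum_image, Finset.sum_image]
  · congr 1
    congr 1
    unfold A3
    rw [Finset.sum_insert, Finset.sum_insert, Finset.sum_insert, Finset.sum_insert,
      Finset.sum_insert, Finset.sum_insert, Finset.sum_insert, Finset.sum_insert,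
      Finset.sum_insert, Finset.sum_insert, Finset.sum_insert, Finset.sum_insert,
      Finset.sum_singleton]
    all_goals
      simp only [Finset.mem_insert, Finset.mem_singleton, v_inj]
      decide
  · intro x _ y _ h
    exact ((v_inj _ _ _ _ _ _).1 h).1
  · intro x _ y _ h
    exact ((v_inj _ _ _ _ _ _).1 h).1
  · rw [Finset.disjoint_left]
    intro w h1 h2
    simp only [Finset.mem_image] at h1
    obtain ⟨x, _, rfl⟩ := h1
    simp only [A3, Finset.mem_insert, Finset.mem_singleton, v_inj, n5, n6, n3, n1,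
      false_and, and_false, or_self] at h2
  · rw [Finset.disjoint_left]
    intro w h1 h2
    simp only [Finset.mem_image] at h1
    obtain ⟨x, _, rfl⟩ := h1
    simp only [A3, Finset.mem_union, Finset.mem_image, Finset.mem_insert,
      Finset.mem_singleton, v_inj, n5, n6, n3, n1,
      false_and, and_false, or_self, exists_false] at h2

theorem cardA : A.card = 105 := by
  rw [Finset.card_eq_sum_ones, sumA, Finset.sum_const, Finset.sum_const, cardL1, cardL2]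
  rfl

/-- the arithmetic of the two layer coordinates -/
theorem arith1 (n1 n2 e1 e2 e3 e4 : ℕ)
    (h1 : n1 ≤ 46) (h2 : n2 ≤ 46) (he1 : e1 ≤ 1) (he2 : e2 ≤ 1) (he3 : e3 ≤ 1) (he4 : e4 ≤ 1)
    (hy : 48 ∣ n1 + e1 + e2 + e3 + 47 * e4)
    (hz : 48 ∣ n2 + e1 + e2 + 47 * e3 + e4) :
    (n1 = 0 ∨ n1 = 46) ∧ (n2 = 0 ∨ n2 = 46) ∧
    ((n1 = 0 ∧ n2 = 0 ∧ e1 = 0 ∧ e2 = 0 ∧ e3 = 0 ∧ e4 = 0) ∨
      (n2 = 0 ∧ 1 ≤ e2 + e3) ∨ (n2 = 46)) := by
  interval_cases e1 <;> interval_cases e2 <;> interval_cases e3 <;> interval_cases e4 <;> omega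

/-- the arithmetic of the first coordinate -/
theorem arith2 (c b1 b2 b3 b4 b5 b6 b7 b8 b9 : ℕ) (hc : c ≤ 3)
    (hb1 : b1 ≤ 1) (hb2 : b2 ≤ 1) (hb3 : b3 ≤ 1) (hb4 : b4 ≤ 1) (hb5 : b5 ≤ 1)
    (hb6 : b6 ≤ 1) (hb7 : b7 ≤ 1) (hb8 : b8 ≤ 1) (hb9 : b9 ≤ 1)
    (hx : 48 ∣ c + (b1 + (2 * b2 + (3 * b3 + (4 * b4 + (24 * b5 + (25 * b6 + (26 * b7 +
        (27 * b8 + 28 * b9))))))))) :
    c = 0 ∧ b1 = 0 ∧ b2 = 0 ∧ b3 = 0 ∧ b4 = 0 ∧
      b5 = 0 ∧ b6 = 0 ∧ b7 = 0 ∧ b8 = 0 ∧ b9 = 0 := by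
  obtain ⟨p, hp⟩ : ∃ p, p = c + b1 + 2 * b2 + 3 * b3 + 4 * b4 + b6 + 2 * b7 + 3 * b8 + 4 * b9 :=
    ⟨_, rfl⟩
  obtain ⟨q, hq⟩ : ∃ q, q = b5 + b6 + b7 + b8 + b9 := ⟨_, rfl⟩
  have hpq : 48 ∣ p + 24 * q := by
    have : c + (b1 + (2 * b2 + (3 * b3 + (4 * b4 + (24 * b5 + (25 * b6 + (26 * b7 +
        (27 * b8 + 28 * b9)))))))) = p + 24 * q := by omega
    rw [this] at hx
    exact hx
  have hp23 : p ≤ 23 := by omega
  have hp0 : p = 0 := by
    clear hp hq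
    omega
  have hb : c = 0 ∧ b1 = 0 ∧ b2 = 0 ∧ b3 = 0 ∧ b4 = 0 ∧ b6 = 0 ∧ b7 = 0 ∧ b8 = 0 ∧ b9 = 0 := by
    clear hpq hq
    refine ⟨?_, ?_, ?_, ?_, ?_, ?_, ?_, ?_, ?_⟩ <;> omega
  obtain ⟨rfl, rfl, rfl, rfl, rfl, rfl, rfl, rfl, rfl⟩ := hb
  subst hp0
  simp only [add_zero] at hq
  subst hq
  refine ⟨rfl, rfl, rfl, rfl, rfl, ?_, rfl, rfl, rfl, rfl⟩
  omega

theorem ind (P : Prop) [Decidable P] : ∃ e : ℕ, e ≤ 1 ∧
    (∀ a : ZMod 48, (if P then a else 0) = (e : ZMod 48) * a) ∧ (if P then 1 else 0 : ℕ) = e := by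
  by_cases h : P
  · exact ⟨1, le_refl _, fun a => by simp [h], by simp [h]⟩
  · exact ⟨0, Nat.zero_le _, fun a => by simp [h], by simp [h]⟩

theorem v0 (x y z : ZMod 48) : v x y z 0 = x := rfl
theorem v1 (x y z : ZMod 48) : v x y z 1 = y := rfl
theorem v2 (x y z : ZMod 48) : v x y z 2 = z := rfl

/-- A is zero-sum-free -/
theorem zsf (B : Finset (Fin 3 → ZMod 48)) (hB : B ⊆ A) (hne : B.Nonempty) :
    ∑ x ∈ B, x ≠ 0 := by
  intro h0
  have hint : A ∩ B = B := Finset.inter_eq_right.mpr hB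
  have hc : ∀ c : Fin 3, ∑ b ∈ A, (if b ∈ B then b c else 0) = 0 := by
    intro c
    rw [Finset.sum_ite_mem, hint, ← Finset.sum_apply, h0]
    rfl
  have hcard : ∑ b ∈ A, (if b ∈ B then 1 else 0 : ℕ) = B.card := by
    rw [Finset.sum_ite_mem, hint, Finset.card_eq_sum_ones]
  have X := hc 0
  have Y := hc 1
  have Z := hc 2
  rw [sumA] at X Y Z hcard
  simp only [v0, v1, v2, ite_self, add_zero, Finset.sum_const_zero, zero_add] at X Y Z
  obtain ⟨e1, he1, E1, F1⟩ := ind (v 0 1 1 ∈ B)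
  obtain ⟨e2, he2, E2, F2⟩ := ind (v 1 1 1 ∈ B)
  obtain ⟨e3, he3, E3, F3⟩ := ind (v 1 1 (-1) ∈ B)
  obtain ⟨e4, he4, E4, F4⟩ := ind (v 0 (-1) 1 ∈ B)
  obtain ⟨b1, hb1, B1, G1⟩ := ind (v 1 0 0 ∈ B)
  obtain ⟨b2, hb2, B2, G2⟩ := ind (v 2 0 0 ∈ B)
  obtain ⟨b3, hb3, B3, G3⟩ := ind (v 3 0 0 ∈ B)
  obtain ⟨b4, hb4, B4, G4⟩ := ind (v 4 0 0 ∈ B)
  obtain ⟨b5, hb5, B5, G5⟩ := ind (v 24 0 0 ∈ B)
  obtain ⟨b6, hb6, B6, G6⟩ := ind (v 25 0 0 ∈ B)
  obtain ⟨b7, hb7, B7, G7⟩ := ind (v 26 0 0 ∈ B)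
  obtain ⟨b8, hb8, B8, G8⟩ := ind (v 27 0 0 ∈ B)
  obtain ⟨b9, hb9, B9, G9⟩ := ind (v 28 0 0 ∈ B)
  rw [F1, F2, F3, F4, G1, G2, G3, G4, G5, G6, G7, G8, G9] at hcard
  simp only [E1, E2, E3, E4, B1, B2, B3, B4, B5, B6, B7, B8, B9] at X Y Z
  have hk1 : ∑ x ∈ L1, (if v x 1 0 ∈ B then 1 else 0 : ℕ)
      = (L1.filter (fun x => v x 1 0 ∈ B)).card := by
    rw [Finset.sum_boole]; rfl
  have hk2 : ∑ x ∈ L2, (if v x 0 1 ∈ B then 1 else 0 : ℕ)
      = (L2.filter (fun x => v x 0 1 ∈ B)).card := by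
    rw [Finset.sum_boole]; rfl
  rw [hk1, hk2] at hcard
  rw [Finset.sum_boole] at Y Z
  rw [← Finset.sum_filter, ← Finset.sum_filter] at X
  have hle1 : (L1.filter (fun x => v x 1 0 ∈ B)).card ≤ 46 := by
    rw [← cardL1]; exact Finset.card_filter_le _ _
  have hle2 : (L2.filter (fun x => v x 0 1 ∈ B)).card ≤ 46 := by
    rw [← cardL2]; exact Finset.card_filter_le _ _
  have hs1 : (L1.filter (fun x => v x 1 0 ∈ B)).card = 0 ∨
      (L1.filter (fun x => v x 1 0 ∈ B)).card = 46 →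
      ∑ x ∈ L1.filter (fun x => v x 1 0 ∈ B), x = 0 := by
    rintro (h | h)
    · rw [Finset.card_eq_zero] at h
      rw [h, Finset.sum_empty]
    · have : L1.filter (fun x => v x 1 0 ∈ B) = L1 :=
        Finset.eq_of_subset_of_card_le (Finset.filter_subset _ _) (by rw [h, cardL1])
      rw [this, sumL1]
  have hs2 : (L2.filter (fun x => v x 0 1 ∈ B)).card = 0 →
      ∑ x ∈ L2.filter (fun x => v x 0 1 ∈ B), x = ((0 : ℕ) : ZMod 48) := by
    intro h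
    rw [Finset.card_eq_zero] at h
    rw [h, Finset.sum_empty, Nat.cast_zero]
  have hs3 : (L2.filter (fun x => v x 0 1 ∈ B)).card = 46 →
      ∑ x ∈ L2.filter (fun x => v x 0 1 ∈ B), x = ((1 : ℕ) : ZMod 48) := by
    intro h
    have : L2.filter (fun x => v x 0 1 ∈ B) = L2 :=
        Finset.eq_of_subset_of_card_le (Finset.filter_subset _ _) (by rw [h, cardL2])
    rw [this, sumL2, Nat.cast_one]
  generalize (L1.filter (fun x => v x 1 0 ∈ B)).card = n1 at *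
  generalize (L2.filter (fun x => v x 0 1 ∈ B)).card = n2 at *
  generalize ∑ x ∈ L1.filter (fun x => v x 1 0 ∈ B), x = s1 at *
  generalize ∑ x ∈ L2.filter (fun x => v x 0 1 ∈ B), x = s2 at *
  have hY : 48 ∣ n1 + e1 + e2 + e3 + 47 * e4 := by
    rw [← ZMod.natCast_eq_zero_iff, ← Y]
    push_cast
    have : (-1 : ZMod 48) = 47 := by decide
    rw [this]
    ring
  have hZ : 48 ∣ n2 + e1 + e2 + 47 * e3 + e4 := by
    rw [← ZMod.natCast_eq_zero_iff, ← Z]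
    push_cast
    have : (-1 : ZMod 48) = 47 := by decide
    rw [this]
    ring
  obtain ⟨hn1, hn2, h3⟩ := arith1 n1 n2 e1 e2 e3 e4 hle1 hle2 he1 he2 he3 he4 hY hZ
  have hs1' := hs1 hn1
  obtain ⟨s, hs, hss⟩ : ∃ s : ℕ, s2 = (s : ZMod 48) ∧ ((n2 = 0 ∧ s = 0) ∨ (n2 = 46 ∧ s = 1)) := by
    rcases hn2 with h | h
    · exact ⟨0, hs2 h, Or.inl ⟨h, rfl⟩⟩
    · exact ⟨1, hs3 h, Or.inr ⟨h, rfl⟩⟩
  have hX : 48 ∣ (s + e2 + e3) + (b1 + (2 * b2 + (3 * b3 + (4 * b4 + (24 * b5 + (25 * b6 +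
      (26 * b7 + (27 * b8 + 28 * b9)))))))) := by
    rw [← ZMod.natCast_eq_zero_iff, ← X, hs1', hs]
    push_cast
    ring
  have hfin := arith2 (s + e2 + e3) b1 b2 b3 b4 b5 b6 b7 b8 b9 (by omega) hb1 hb2 hb3 hb4 hb5
    hb6 hb7 hb8 hb9 hX
  obtain ⟨hc0, rfl, rfl, rfl, rfl, rfl, rfl, rfl, rfl, rfl⟩ := hfin
  have hpos : 0 < B.card := Finset.card_pos.mpr hne
  omega

/-- the negation of the frozen conjecture, through k = 48 and r = 3 -/
theorem result :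
    ¬ (∀ r k : ℕ, 3 ≤ r → 2 ≤ k → ∀ n : ℕ,
      n = (if r = 3 then
              (if k ≤ 3 then 3 * (k - 1)
               else 2 * k + ⌊(Real.sqrt (8 * (k : ℝ) - 31) - 1) / 2⌋₊)
           else
              (if k ≤ r + 1 then r * (k - 1)
               else (r - 1) * k + ⌊(Real.sqrt (8 * ((k : ℝ) - (r : ℝ)) + 1) - 1) / 2⌋₊)) →
      (∃ A : Finset (Fin r → ZMod k), A.card = n ∧
          ∀ B : Finset (Fin r → ZMod k), B ⊆ A → B.Nonempty → ∑ x ∈ B, x ≠ 0) ∧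
      (∀ A : Finset (Fin r → ZMod k),
          (∀ B : Finset (Fin r → ZMod k), B ⊆ A → B.Nonempty → ∑ x ∈ B, x ≠ 0) →
          A.card ≤ n)) := by
  intro h
  have hfl : ⌊(Real.sqrt (8 * ((48 : ℕ) : ℝ) - 31) - 1) / 2⌋₊ = 8 := by
    have h1 : (17 : ℝ) ≤ Real.sqrt (8 * ((48 : ℕ) : ℝ) - 31) := by
      apply Real.le_sqrt_of_sq_le
      norm_num
    have h2 : Real.sqrt (8 * ((48 : ℕ) : ℝ) - 31) < 19 := by
      rw [Real.sqrt_lt' (by norm_num)]
      norm_num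
    generalize Real.sqrt (8 * ((48 : ℕ) : ℝ) - 31) = s at h1 h2 ⊢
    rw [Nat.floor_eq_iff (by linarith)]
    constructor
    · norm_num
      linarith
    · norm_num
      linarith
  have h2 := (h 3 48 (le_refl 3) (by norm_num) 104 (by
    rw [if_pos rfl, if_neg (by norm_num), hfl])).2 A zsf
  rw [cardA] at h2
  omega

end Pool.Agent.S07158
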