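import Pool.Statements.S07166

set_option autoImplicit false
open Pool Pool.MP_c220a4_co

namespace Pool.Agent.S07166

/-- Out-neighbour lists of the example. -/
def nb : Fin 6 → List (Fin 6)
  | 0 => [2, 5]
  | 1 => [2, 3]
  | 2 => [3, 5]
  | 3 => [1, 2, 4, 5]
  | 4 => [0, 1, 3, 5]
  | 5 => [0, 2, 3, 4]

/-- Adjacency of the example. -/
def adj (u v : Fin 6) : Bool := decide (v ∈ nb u)

theorem strong (u v : Fin 6) : Relation.ReflTransGen (fun a b => adj a b = true) u v := by
  have step : ∀ {a b : Fin 6}, adj a b = true →
      Relation.ReflTransGen (fun a b => adj a b = true) a b :=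
    fun h => Relation.ReflTransGen.single h
  have h02 := step (a := 0) (b := 2) (by decide)
  have h12 := step (a := 1) (b := 2) (by decide)
  have h23 := step (a := 2) (b := 3) (by decide)
  have h34 := step (a := 3) (b := 4) (by decide)
  have h35 := step (a := 3) (b := 5) (by decide)
  have h31 := step (a := 3) (b := 1) (by decide)
  have h40 := step (a := 4) (b := 0) (by decide)
  have h53 := step (a := 5) (b := 3) (by decide)
  have h43 := step (a := 4) (b := 3) (by decide)
  have to3 : ∀ u : Fin 6, Relation.ReflTransGen (fun a b => adj a b = true) u 3 := by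
    intro u
    fin_cases u
    · exact h02.trans h23
    · exact h12.trans h23
    · exact h23
    · exact Relation.ReflTransGen.refl
    · exact h43
    · exact h53
  have from3 : ∀ v : Fin 6, Relation.ReflTransGen (fun a b => adj a b = true) 3 v := by
    intro v
    fin_cases v
    · exact h34.trans h40
    · exact h31
    · exact h31.trans h12
    · exact Relation.ReflTransGen.refl
    · exact h34
    · exact h35
  exact (to3 u).trans (from3 v)

/-- Adding one walk step. -/
def walks : ℕ → List (List (Fin 6))
  | 0 => [[0]]
  | k + 1 => (walks k).flatMap (fun l => ((nb (l.headD 0)).filter (fun w => w ∉ l)).map (fun w => w :: l))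

theorem no_cycle (k : ℕ) (g : ℕ → Fin 6) (hk : k ≤ 6) (h0 : g 0 = 0)
    (hstep : ∀ t, adj (g t) (g (t + 1)) = true) (hper : g k = 0)
    (hinj : ∀ s t, s < k → t < k → g s = g t → s = t) (t : ℕ) (ht : t < k) (h1 : g t = 1) :
    False := by
  have hw : ∀ m, m < k → ((List.range (m + 1)).map g).reverse ∈ walks m := by
    intro m
    induction m with
    | zero => intro _; simp [walks, h0]
    | succ m ih =>
      intro hm
      have ih' := ih (by omega)
      unfold walks
      rw [List.mem_flatMap]
      refine ⟨_, ih', ?_⟩
      rw [List.mem_map]
      refine ⟨g (m + 1), ?_, ?_⟩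
      · rw [List.mem_filter]
        constructor
        · have := hstep m
          unfold adj at this
          have h2 := of_decide_eq_true this
          rw [List.range_succ, List.map_append, List.reverse_append]
          simpa using h2
        · rw [decide_eq_true_iff]
          intro hmem
          rw [List.mem_reverse, List.mem_map] at hmem
          obtain ⟨s, hs, hs'⟩ := hmem
          rw [List.mem_range] at hs
          have := hinj s (m + 1) (by omega) hm hs'
          omega
      · rw [List.range_succ (n := m + 1), List.map_append, List.reverse_append]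
        simp
  have hkpos : 0 < k := by omega
  have h2 := hw (k - 1) (by omega)
  have h3 : adj (g (k - 1)) 0 = true := by
    have := hstep (k - 1)
    rwa [Nat.sub_add_cancel hkpos, hper] at this
  have h4 : (1 : Fin 6) ∈ ((List.range (k - 1 + 1)).map g).reverse := by
    rw [List.mem_reverse, List.mem_map]
    exact ⟨t, by rw [List.mem_range]; omega, h1⟩
  have h5 : (((List.range (k - 1 + 1)).map g).reverse).headD 0 = g (k - 1) := by
    rw [List.range_succ, List.map_append, List.reverse_append]
    simp
  have key : ∀ m < 6, ∀ l ∈ walks m, (1 : Fin 6) ∈ l → adj (l.headD 0) 0 = true → False := by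
    decide +kernel
  exact key (k - 1) (by omega) _ h2 h4 (by rw [h5]; exact h3)

/-- The negation of the preceding statement: Every strongly connected loopless digraph on n≥3 vertices satisfying both Nash-Williams conditions on its sorted in/out-degree sequences for all 1≤i<n/2 has, for any two distinct vertices, a directed cycle containing both. -/
theorem result :
    ¬ (∀ (n : ℕ) (A : Fin n → Fin n → Bool),
      3 ≤ n →
      (∀ v, A v v = false) →
      (∀ u v, Relation.ReflTransGen (fun a b => A a b = true) u v) →
      (∀ i : ℕ, 1 ≤ i → 2 * i < n →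
        ((Finset.univ.filter
            (fun v => (Finset.univ.filter (fun w => A v w = true)).card ≤ i)).card < i ∨
         (Finset.univ.filter
            (fun v => (Finset.univ.filter (fun w => A w v = true)).card < n - i)).card < n - i)) →
      (∀ i : ℕ, 1 ≤ i → 2 * i < n →
        ((Finset.univ.filter
            (fun v => (Finset.univ.filter (fun w => A w v = true)).card ≤ i)).card < i ∨
         (Finset.univ.filter
            (fun v => (Finset.univ.filter (fun w => A v w = true)).card < n - i)).card < n - i)) →
      ∀ u v : Fin n, u ≠ v →
        ∃ (k : ℕ) (f : Fin k → Fin n),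
          Function.Injective f ∧
          (∀ j : Fin k, A (f j) (f (finRotate k j)) = true) ∧
          u ∈ Set.range f ∧ v ∈ Set.range f) := by
  intro h
  obtain ⟨k, f, hinj, hstep, ⟨a, ha⟩, ⟨b, hb⟩⟩ := h 6 adj (by norm_num) (by decide) strong
    (by
      intro i hi hi2
      have : i = 1 ∨ i = 2 := by omega
      rcases this with rfl | rfl
      · left; decide
      · right; decide)
    (by
      intro i hi hi2
      have : i = 1 ∨ i = 2 := by omega
      rcases this with rfl | rfl
      · left; decide
      · right; decide)
    0 1 (by decide)
  have hk : k ≤ 6 := by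
    have := Fintype.card_le_of_injective f hinj
    simpa using this
  have hkpos : 0 < k := Fin.pos a
  obtain ⟨m, rfl⟩ : ∃ m, k = m + 1 := ⟨k - 1, by omega⟩
  have hrot : ∀ j : Fin (m + 1), finRotate (m + 1) j = j + 1 := fun j => finRotate_apply j
  have hsucc : ∀ t : ℕ, Fin.ofNat (m + 1) (t + 1) = Fin.ofNat (m + 1) t + 1 := by
    intro t
    apply Fin.ext
    simp [Fin.val_add]
  refine no_cycle (m + 1) (fun t => f (a + Fin.ofNat (m + 1) t)) hk ?_ ?_ ?_ ?_
    ((b - a : Fin (m + 1)) : ℕ) (Fin.is_lt _) ?_
  · have : Fin.ofNat (m + 1) 0 = 0 := rfl
    simp only [this, add_zero, ha]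
  · intro t
    have := hstep (a + Fin.ofNat (m + 1) t)
    rw [hrot, add_assoc, ← hsucc] at this
    exact this
  · have : Fin.ofNat (m + 1) (m + 1) = 0 := by
      apply Fin.ext
      simp
    simp only [this, add_zero, ha]
  · intro s t hs ht hst
    have h1 := hinj hst
    have h2 := add_left_cancel h1
    have h3 := congrArg Fin.val h2
    simp only [Fin.val_ofNat] at h3
    rw [Nat.mod_eq_of_lt hs, Nat.mod_eq_of_lt ht] at h3
    exact h3
  · have : Fin.ofNat (m + 1) ((b - a : Fin (m + 1)) : ℕ) = b - a := by
      apply Fin.ext
      simp
    simp only [this, add_sub_cancel, hb]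

end Pool.Agent.S07166
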