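import Pool.Statements.S07167
import Pool.Agent.Helper611.Sub

set_option autoImplicit false
open Pool Pool.MP_c2297e_co

namespace Pool.Agent.S07167

/-- For every topological subdivision Γ of the (d−1)-simplex on V, and every set S of i ≥ 1 vertices, let Δ be the complex whose facets are the i facets V∖{v}, v in S. Then the i-th h-number of the relative complex Γ/Γ_Δ (faces whose carrier contains S) is strictly positive. -/
theorem result :
  ∀ (d n : ℕ) (Γ : Finset (Finset (Fin n))) (σ : Finset (Fin n) → Finset (Fin d)),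
    (∀ G ∈ Γ, ∀ H : Finset (Fin n), H ⊆ G → H ∈ Γ) →
    σ ∅ = ∅ →
    (∀ G ∈ Γ, ∀ H : Finset (Fin n), H ⊆ G → σ H ⊆ σ G) →
    (∀ F : Finset (Fin d), F.Nonempty →
      ∃ φ : ↥{x : Fin n → ℝ | (∀ j, 0 ≤ x j) ∧ ∑ j, x j = 1 ∧
              ∃ G ∈ Γ, σ G ⊆ F ∧ ∀ j, x j ≠ 0 → j ∈ G} ≃ₜ
            ↥(Metric.closedBall (0 : EuclideanSpace ℝ (Fin (F.card - 1))) 1),
        ∀ G ∈ Γ, G.Nonempty → σ G ⊆ F →
          (σ G = F ↔
            ∀ y : ↥{x : Fin n → ℝ | (∀ j, 0 ≤ x j) ∧ ∑ j, x j = 1 ∧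
              ∃ G ∈ Γ, σ G ⊆ F ∧ ∀ j, x j ≠ 0 → j ∈ G},
              (∀ j, 0 < (y : Fin n → ℝ) j ↔ j ∈ G) →
                ‖(φ y : EuclideanSpace ℝ (Fin (F.card - 1)))‖ < 1)) →
    ∀ S : Finset (Fin d), 1 ≤ S.card →
      0 < ∑ k ∈ Finset.range (S.card + 1),
        (-1 : ℤ) ^ (S.card - k) * ((Nat.choose (d - k) (S.card - k) : ℕ) : ℤ) *
          ((Γ.filter (fun G => G.card = k ∧ S ⊆ σ G)).card : ℤ) := by
  intro d n Γ σ hdown hσe hmono hball S hS
  obtain ⟨v0, hv0⟩ := Finset.card_pos.1 (by omega : 0 < S.card)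
  have hemp : ∅ ∈ Γ := by
    obtain ⟨φ, -⟩ := hball {v0} (Finset.singleton_nonempty v0)
    obtain ⟨-, -, G, hG, -, -⟩ := (φ.symm ⟨0, by simp⟩).2
    exact hdown G hG ∅ (Finset.empty_subset _)
  refine Pool.Agent.Helper611.Sub.main_pos (h := ⟨hdown, hemp, hσe, hmono, ?_, ?_⟩) S hS
  · intro F hF
    obtain ⟨φ, -⟩ := hball F hF
    exact ⟨φ⟩
  · intro x hx
    by_contra hne
    rw [Finset.not_nonempty_iff_eq_empty] at hne
    obtain ⟨φ, hφ⟩ := hball {v0} (Finset.singleton_nonempty v0)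
    have h1 := (hφ {x} hx (Finset.singleton_nonempty x)
      (by rw [hne]; exact Finset.empty_subset _)).2 (by
        intro y _
        have h2 : (φ y : EuclideanSpace ℝ (Fin (({v0} : Finset (Fin d)).card - 1))) = 0 := by
          ext i
          exact absurd i.2 (by simp)
        rw [h2, norm_zero]
        exact one_pos)
    rw [hne] at h1
    exact Finset.singleton_ne_empty v0 h1.symm

end Pool.Agent.S07167
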