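import Pool.Statements.S07180

set_option autoImplicit false
open Pool Pool.MP_c32a86_co

namespace Pool.Agent.S07180

open Finset

/-- Indicator that the colour does not change when `u` is multiplied by the square of `v`. -/
def I {G : Type} [Group G] (f : G → Fin 2) (u v : G) : ℕ :=
  if f u = f (u * v * v) then 1 else 0

/-- Indicator that `x a` and `x b⁻¹ a b` have the same colour. -/
def J {G : Type} [Group G] (f : G → Fin 2) (x a b : G) : ℕ :=
  if f (x * a) = f (x * (b⁻¹ * a * b)) then 1 else 0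

lemma fin2_three (p q r s : Fin 2) (h : p = s) : p = q ∨ q = r ∨ r = s := by
  revert p q r s; decide

lemma fin2_tri (p q r : Fin 2) : p = q ∨ p = r ∨ q = r := by
  revert p q r; decide

lemma J_le {G : Type} [Group G] (f : G → Fin 2) (x a b : G) :
    J f x a b ≤ I f (x * a) a⁻¹ + I f (x * a⁻¹) (a * b⁻¹) + I f (x * (b⁻¹ * a * b⁻¹)) b := by
  unfold J I
  have e1 : x * a * a⁻¹ * a⁻¹ = x * a⁻¹ := by group
  have e2 : x * a⁻¹ * (a * b⁻¹) * (a * b⁻¹) = x * (b⁻¹ * a * b⁻¹) := by group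
  have e3 : x * (b⁻¹ * a * b⁻¹) * b * b = x * (b⁻¹ * a * b) := by group
  rw [e1, e2, e3]
  by_cases h : f (x * a) = f (x * (b⁻¹ * a * b))
  · have := fin2_three _ (f (x * a⁻¹)) (f (x * (b⁻¹ * a * b⁻¹))) _ h
    rw [if_pos h]
    rcases this with h1 | h1 | h1
    · rw [if_pos h1]; omega
    · rw [if_pos h1]; omega
    · rw [if_pos h1]; omega
  · rw [if_neg h]; omega

lemma one_le {G : Type} [Group G] (f : G → Fin 2) (x a b c : G) :
    1 ≤ J f x a b + J f x a c + J f x (b⁻¹ * a * b) (b⁻¹ * c) := by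
  unfold J
  have e1 : x * ((b⁻¹ * c)⁻¹ * (b⁻¹ * a * b) * (b⁻¹ * c)) = x * (c⁻¹ * a * c) := by group
  rw [e1]
  rcases fin2_tri (f (x * a)) (f (x * (b⁻¹ * a * b))) (f (x * (c⁻¹ * a * c))) with h | h | h
  · rw [if_pos h]; omega
  · rw [if_pos h]; omega
  · rw [if_pos h]; omega

lemma sumT_le {G : Type} [Group G] [Fintype G] (f : G → Fin 2) :
    ∑ a : G, ∑ b : G, ∑ x : G, J f x a b ≤ 3 * (Fintype.card G * ∑ v : G, ∑ u : G, I f u v) := by
  have h1 : ∑ a : G, ∑ b : G, ∑ x : G, J f x a b ≤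
      ∑ a : G, ∑ b : G, ∑ x : G, (I f (x * a) a⁻¹ + I f (x * a⁻¹) (a * b⁻¹)
        + I f (x * (b⁻¹ * a * b⁻¹)) b) :=
    Finset.sum_le_sum fun a _ => Finset.sum_le_sum fun b _ => Finset.sum_le_sum fun x _ =>
      J_le f x a b
  refine h1.trans (le_of_eq ?_)
  have key : ∀ a b : G, ∑ x : G, (I f (x * a) a⁻¹ + I f (x * a⁻¹) (a * b⁻¹)
        + I f (x * (b⁻¹ * a * b⁻¹)) b) =
      ∑ u : G, I f u a⁻¹ + ∑ u : G, I f u (a * b⁻¹) + ∑ u : G, I f u b := by
    intro a b
    rw [Finset.sum_add_distrib, Finset.sum_add_distrib]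
    have q1 : ∑ x : G, I f (x * a) a⁻¹ = ∑ u : G, I f u a⁻¹ :=
      Equiv.sum_comp (Equiv.mulRight a) (fun u => I f u a⁻¹)
    have q2 : ∑ x : G, I f (x * a⁻¹) (a * b⁻¹) = ∑ u : G, I f u (a * b⁻¹) :=
      Equiv.sum_comp (Equiv.mulRight a⁻¹) (fun u => I f u (a * b⁻¹))
    have q3 : ∑ x : G, I f (x * (b⁻¹ * a * b⁻¹)) b = ∑ u : G, I f u b :=
      Equiv.sum_comp (Equiv.mulRight (b⁻¹ * a * b⁻¹)) (fun u => I f u b)
    rw [q1, q2, q3]
  simp_rw [key, Finset.sum_add_distrib]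
  have k1 : ∑ a : G, ∑ _b : G, ∑ u : G, I f u a⁻¹ = Fintype.card G * ∑ v : G, ∑ u : G, I f u v := by
    simp only [Finset.sum_const, Finset.card_univ, smul_eq_mul]
    rw [← Finset.mul_sum]
    congr 1
    exact Equiv.sum_comp (Equiv.inv G) (fun v => ∑ u : G, I f u v)
  have k2 : ∑ a : G, ∑ b : G, ∑ u : G, I f u (a * b⁻¹) =
      Fintype.card G * ∑ v : G, ∑ u : G, I f u v := by
    have : ∀ a : G, ∑ b : G, ∑ u : G, I f u (a * b⁻¹) = ∑ v : G, ∑ u : G, I f u v := by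
      intro a
      exact Equiv.sum_comp ((Equiv.inv G).trans (Equiv.mulLeft a)) (fun v => ∑ u : G, I f u v)
    simp [this]
  have k3 : ∑ _a : G, ∑ b : G, ∑ u : G, I f u b =
      Fintype.card G * ∑ v : G, ∑ u : G, I f u v := by
    simp
  rw [k1, k2, k3]; ring

lemma card_le_T {G : Type} [Group G] [Fintype G] (f : G → Fin 2) :
    Fintype.card G ^ 4 ≤ 3 * (Fintype.card G * ∑ a : G, ∑ b : G, ∑ x : G, J f x a b) := by
  have h1 : ∑ _b : G, ∑ _c : G, ∑ _a : G, ∑ _x : G, 1 ≤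
      ∑ b : G, ∑ c : G, ∑ a : G, ∑ x : G,
        (J f x a b + J f x a c + J f x (b⁻¹ * a * b) (b⁻¹ * c)) :=
    Finset.sum_le_sum fun b _ => Finset.sum_le_sum fun c _ => Finset.sum_le_sum fun a _ =>
      Finset.sum_le_sum fun x _ => one_le f x a b c
  have h0 : ∑ _b : G, ∑ _c : G, ∑ _a : G, ∑ _x : G, 1 = Fintype.card G ^ 4 := by
    simp; ring
  rw [h0] at h1
  refine h1.trans (le_of_eq ?_)
  simp_rw [Finset.sum_add_distrib]
  have k1 : ∑ b : G, ∑ _c : G, ∑ a : G, ∑ x : G, J f x a b =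
      Fintype.card G * ∑ a : G, ∑ b : G, ∑ x : G, J f x a b := by
    rw [Finset.sum_comm (s := Finset.univ) (t := Finset.univ) (f := fun a b => ∑ x : G, J f x a b)]
    simp [Finset.mul_sum]
  have k2 : ∑ _b : G, ∑ c : G, ∑ a : G, ∑ x : G, J f x a c =
      Fintype.card G * ∑ a : G, ∑ b : G, ∑ x : G, J f x a b := by
    rw [Finset.sum_comm (s := Finset.univ) (t := Finset.univ) (f := fun a b => ∑ x : G, J f x a b)]
    simp
  have k3 : ∑ b : G, ∑ c : G, ∑ a : G, ∑ x : G, J f x (b⁻¹ * a * b) (b⁻¹ * c) =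
      Fintype.card G * ∑ a : G, ∑ b : G, ∑ x : G, J f x a b := by
    have s1 : ∀ b c : G, ∑ a : G, ∑ x : G, J f x (b⁻¹ * a * b) (b⁻¹ * c) =
        ∑ a : G, ∑ x : G, J f x a (b⁻¹ * c) := by
      intro b c
      exact Equiv.sum_comp ((Equiv.mulLeft b⁻¹).trans (Equiv.mulRight b))
        (fun a => ∑ x : G, J f x a (b⁻¹ * c))
    have s2 : ∀ b : G, ∑ c : G, ∑ a : G, ∑ x : G, J f x a (b⁻¹ * c) =
        ∑ c : G, ∑ a : G, ∑ x : G, J f x a c := by
      intro b
      exact Equiv.sum_comp (Equiv.mulLeft b⁻¹) (fun c => ∑ a : G, ∑ x : G, J f x a c)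
    simp_rw [s1, s2]
    rw [Finset.sum_comm (s := Finset.univ) (t := Finset.univ) (f := fun a b => ∑ x : G, J f x a b)]
    simp
  rw [k1, k2, k3]; ring

/-- For every two-colouring of a finite group, at least a ninth of all pairs `(u, v)`
satisfies that `u` and `u v²` have the same colour. -/
lemma card_sq_le {G : Type} [Group G] [Fintype G] (f : G → Fin 2) :
    Fintype.card G ^ 2 ≤ 9 * ∑ v : G, ∑ u : G, I f u v := by
  have h1 := card_le_T f
  have h2 := sumT_le f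
  have hpos : 0 < Fintype.card G ^ 2 := by
    have : 0 < Fintype.card G := Fintype.card_pos_iff.mpr ⟨1⟩
    positivity
  have h3 : Fintype.card G ^ 2 * Fintype.card G ^ 2 ≤
      Fintype.card G ^ 2 * (9 * ∑ v : G, ∑ u : G, I f u v) := by
    calc Fintype.card G ^ 2 * Fintype.card G ^ 2 = Fintype.card G ^ 4 := by ring
      _ ≤ 3 * (Fintype.card G * ∑ a : G, ∑ b : G, ∑ x : G, J f x a b) := h1
      _ ≤ 3 * (Fintype.card G * (3 * (Fintype.card G * ∑ v : G, ∑ u : G, I f u v))) := by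
          gcongr
      _ = Fintype.card G ^ 2 * (9 * ∑ v : G, ∑ u : G, I f u v) := by ring
  exact Nat.le_of_mul_le_mul_left h3 hpos

lemma sumI_eq {G : Type} [Group G] [Fintype G] (f : G → Fin 2) :
    ∑ v : G, ∑ u : G, I f u v =
      ∑ c : G, ∑ i : Fin 2,
        (Finset.univ.filter (fun x : G => f x = i ∧ f (c * x⁻¹ * c) = i)).card := by
  have h1 : ∀ c : G, ∑ i : Fin 2,
        (Finset.univ.filter (fun x : G => f x = i ∧ f (c * x⁻¹ * c) = i)).card =
      ∑ u : G, I f u (u⁻¹ * c) := by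
    intro c
    simp_rw [Finset.card_filter]
    rw [Finset.sum_comm]
    refine Finset.sum_congr rfl fun u _ => ?_
    unfold I
    have e : u * (u⁻¹ * c) * (u⁻¹ * c) = c * u⁻¹ * c := by group
    rw [e, Fin.sum_univ_two]
    generalize f u = p
    generalize f (c * u⁻¹ * c) = q
    revert p q; decide
  simp_rw [h1]
  rw [Finset.sum_comm, Finset.sum_comm (f := fun c u => I f u (u⁻¹ * c))]
  refine Finset.sum_congr rfl fun u _ => ?_
  exact (Equiv.sum_comp (Equiv.mulLeft u⁻¹) (fun v => I f u v)).symm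

/-- The negation of the preceding statement: For every ε>0 and every r>1 there is a finite group G and an r-coloring of G such that, for every center c and color i, fewer than ε·∣G∣ elements x have both x and c x⁻¹ c of color i. -/
theorem result :
    ¬ (∀ ε : ℝ, 0 < ε → ∀ r : ℕ, 1 < r →
      ∃ (G : Type) (_ : Group G) (_ : Fintype G), ∃ χ : G → Fin r,
        ∀ c : G, ∀ i : Fin r,
          ((Finset.univ.filter (fun x : G => χ x = i ∧ χ (c * x⁻¹ * c) = i)).card : ℝ)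
            < ε * (Fintype.card G : ℝ)) := by
  intro H
  obtain ⟨G, hG, hF, f, hf⟩ := H (1 / 18) (by norm_num) 2 (by norm_num)
  have h1 := card_sq_le f
  rw [sumI_eq f] at h1
  have h2 : (∑ c : G, ∑ i : Fin 2,
      ((Finset.univ.filter (fun x : G => f x = i ∧ f (c * x⁻¹ * c) = i)).card : ℝ)) <
      ∑ _c : G, ∑ _i : Fin 2, (1 / 18 : ℝ) * (Fintype.card G : ℝ) := by
    refine Finset.sum_lt_sum_of_nonempty ⟨1, Finset.mem_univ _⟩ fun c _ => ?_
    exact Finset.sum_lt_sum_of_nonempty ⟨0, Finset.mem_univ _⟩ fun i _ => hf c i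
  have h3 : (∑ _c : G, ∑ _i : Fin 2, (1 / 18 : ℝ) * (Fintype.card G : ℝ)) =
      (Fintype.card G : ℝ) ^ 2 / 9 := by
    simp only [Finset.sum_const, Finset.card_univ, Fintype.card_fin, nsmul_eq_mul]
    push_cast; ring
  rw [h3] at h2
  have h4 : ((Fintype.card G : ℝ)) ^ 2 ≤ 9 * ∑ c : G, ∑ i : Fin 2,
      ((Finset.univ.filter (fun x : G => f x = i ∧ f (c * x⁻¹ * c) = i)).card : ℝ) := by
    exact_mod_cast h1
  linarith

end Pool.Agent.S07180
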