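import Pool.Statements.S07182

set_option autoImplicit false
open scoped Pointwise
open Pool Pool.MP_c36cd3_co

namespace Pool.Agent.S07182

/-- The Euclidean plane. -/
abbrev E := EuclideanSpace ℝ (Fin 2)

/-- A positively homogeneous continuous positive gauge has unit ball homeomorphic to the disk. -/
theorem homeo_of_gauge (g : E → ℝ) (hc : Continuous g)
    (hh : ∀ c : ℝ, 0 ≤ c → ∀ x, g (c • x) = c * g x) (hp : ∀ x, x ≠ 0 → 0 < g x) :
    Nonempty ({x : E | g x ≤ 1} ≃ₜ Metric.closedBall (0 : E) 1) := by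
  have g0 : g 0 = 0 := by
    have := hh 0 le_rfl 0
    simpa using this
  -- lower bound on the unit sphere
  obtain ⟨m, hm, hml⟩ : ∃ m : ℝ, 0 < m ∧ ∀ x, m * ‖x‖ ≤ g x := by
    have hcomp : IsCompact (Metric.sphere (0 : E) 1) := isCompact_sphere _ _
    have hne : (Metric.sphere (0 : E) 1).Nonempty := by
      refine ⟨EuclideanSpace.single 0 1, ?_⟩
      simp
    obtain ⟨z, hz, hzm⟩ := hcomp.exists_isMinOn hne hc.continuousOn
    have hz1 : ‖z‖ = 1 := by simpa using hz
    refine ⟨g z, hp z (by intro h; rw [h] at hz1; simp at hz1), fun x => ?_⟩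
    by_cases hx : x = 0
    · subst hx; simp [g0]
    · have hn : 0 < ‖x‖ := norm_pos_iff.mpr hx
      have hu : (‖x‖⁻¹ • x) ∈ Metric.sphere (0 : E) 1 := by
        simp [norm_smul, hn.ne']
      have h1 := hzm hu
      simp only [Set.mem_ofPred_eq] at h1
      have h2 := hh (‖x‖⁻¹) (by positivity) x
      rw [h2] at h1
      have h3 : g z * ‖x‖ ≤ (‖x‖⁻¹ * g x) * ‖x‖ := by
        exact mul_le_mul_of_nonneg_right h1 hn.le
      calc g z * ‖x‖ ≤ (‖x‖⁻¹ * g x) * ‖x‖ := h3
        _ = g x := by field_simp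
  have gnn : ∀ x, 0 ≤ g x := fun x => le_trans (by positivity) (hml x)
  -- the two maps
  let F : E → E := fun x => (g x / ‖x‖) • x
  let G : E → E := fun y => (‖y‖ / g y) • y
  have nF : ∀ x, ‖F x‖ = g x := by
    intro x
    by_cases hx : x = 0
    · subst hx; simp [F, g0]
    · have hn : 0 < ‖x‖ := norm_pos_iff.mpr hx
      simp only [F, norm_smul, Real.norm_eq_abs, abs_div, abs_norm, abs_of_nonneg (gnn x)]
      field_simp
  have gG : ∀ y, g (G y) = ‖y‖ := by
    intro y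
    by_cases hy : y = 0
    · subst hy; simp [G, g0]
    · have hg := hp y hy
      simp only [G]
      rw [hh _ (by positivity) y]
      field_simp
  have FG : ∀ y, F (G y) = y := by
    intro y
    by_cases hy : y = 0
    · subst hy; simp [F, G]
    · have hg := hp y hy
      have hn : 0 < ‖y‖ := norm_pos_iff.mpr hy
      have h1 : F (G y) = (g (G y) / ‖G y‖) • G y := rfl
      rw [h1, gG y]
      have h2 : ‖G y‖ = ‖y‖ / g y * ‖y‖ := by
        simp only [G, norm_smul, Real.norm_eq_abs, abs_div, abs_norm, abs_of_pos hg]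
      rw [h2]
      simp only [G, smul_smul]
      have : ‖y‖ / (‖y‖ / g y * ‖y‖) * (‖y‖ / g y) = 1 := by field_simp
      rw [this, one_smul]
  have GF : ∀ x, G (F x) = x := by
    intro x
    by_cases hx : x = 0
    · subst hx; simp [F, G]
    · have hg := hp x hx
      have hn : 0 < ‖x‖ := norm_pos_iff.mpr hx
      have h1 : G (F x) = (‖F x‖ / g (F x)) • F x := rfl
      have h2 : g (F x) = g x / ‖x‖ * g x := by
        simp only [F]
        rw [hh _ (by positivity) x]
      rw [h1, nF x, h2]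
      simp only [F, smul_smul]
      have : g x / (g x / ‖x‖ * g x) * (g x / ‖x‖) = 1 := by field_simp
      rw [this, one_smul]
  have cF : Continuous F := by
    rw [continuous_iff_continuousAt]
    intro x
    by_cases hx : x = 0
    · subst hx
      have : F 0 = 0 := by simp [F]
      rw [ContinuousAt, this]
      rw [tendsto_zero_iff_norm_tendsto_zero]
      simp only [nF]
      have := hc.tendsto 0
      rwa [g0] at this
    · have hn : ‖x‖ ≠ 0 := norm_ne_zero_iff.mpr hx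
      exact (hc.continuousAt.div continuousAt_id.norm hn).smul continuousAt_id
  have cG : Continuous G := by
    rw [continuous_iff_continuousAt]
    intro y
    by_cases hy : y = 0
    · subst hy
      have : G 0 = 0 := by simp [G]
      rw [ContinuousAt, this]
      rw [tendsto_zero_iff_norm_tendsto_zero]
      have hb : ∀ y : E, ‖G y‖ ≤ m⁻¹ * ‖y‖ := by
        intro y
        by_cases hy : y = 0
        · subst hy; simp [G]
        · have hg := hp y hy
          have hn : 0 < ‖y‖ := norm_pos_iff.mpr hy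
          simp only [G, norm_smul, Real.norm_eq_abs, abs_div, abs_norm, abs_of_pos hg]
          apply mul_le_mul_of_nonneg_right _ hn.le
          rw [div_le_iff₀ hg]
          calc ‖y‖ = m⁻¹ * (m * ‖y‖) := by field_simp
            _ ≤ m⁻¹ * g y := mul_le_mul_of_nonneg_left (hml y) (by positivity)
      have hlim : Filter.Tendsto (fun y : E => m⁻¹ * ‖y‖) (nhds 0) (nhds 0) := by
        have : Continuous (fun y : E => m⁻¹ * ‖y‖) := by fun_prop
        have h := this.tendsto 0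
        simpa using h
      exact squeeze_zero (fun _ => norm_nonneg _) hb hlim
    · have hg : g y ≠ 0 := (hp y hy).ne'
      exact (continuousAt_id.norm.div hc.continuousAt hg).smul continuousAt_id
  refine ⟨{ toFun := fun x => ⟨F x.1, ?_⟩, invFun := fun y => ⟨G y.1, ?_⟩,
            left_inv := ?_, right_inv := ?_, continuous_toFun := ?_,
            continuous_invFun := ?_ }⟩
  · have := x.2
    simp only [Set.mem_ofPred_eq] at this
    simp [nF, this]
  · have := y.2
    simp only [Metric.mem_closedBall, dist_zero_right] at this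
    simp [gG, this]
  · intro x
    exact Subtype.ext (GF x.1)
  · intro y
    exact Subtype.ext (FG y.1)
  · exact Continuous.subtype_mk (cF.comp continuous_subtype_val) _
  · exact Continuous.subtype_mk (cG.comp continuous_subtype_val) _


/-- A triangle with integer vertices, listed counterclockwise. -/
abbrev Tri := (ℤ × ℤ) × (ℤ × ℤ) × (ℤ × ℤ)

/-- Twice the signed area of an integer triangle. -/
def cz (a b c : ℤ × ℤ) : ℤ := (b.1 - a.1) * (c.2 - a.2) - (b.2 - a.2) * (c.1 - a.1)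

/-- Twice the signed area of a real triangle, in coordinates. -/
def cr (a0 a1 b0 b1 c0 c1 : ℝ) : ℝ := (b0 - a0) * (c1 - a1) - (b1 - a1) * (c0 - a0)

/-- The twelve triangles whose union is the starlike disk. -/
def tris : List Tri :=
  [((39, 13), (-1, 0), (-1, -1)), ((21, 21), (-1, 0), (0, -1)), ((-4, 29), (-1, -1), (1, -1)),
   ((-39, 13), (1, -1), (1, 0)), ((-37, 12), (1, -1), (1, 0)), ((-35, -14), (1, 0), (1, 1)),
   ((-10, -22), (1, 1), (0, 1)), ((9, -29), (1, 1), (-1, 1)), ((36, -4), (-1, 1), (-1, -1)),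
   ((17, -25), (0, 1), (-1, 0)), ((3, 29), (-1, -1), (1, -1)), ((-23, 8), (1, -1), (1, 0))]

/-- The nine translation vectors. -/
def vecs : Finset (ℤ × ℤ) :=
  {(74, 27), (31, 43), (-13, 58), (-56, 38), (-76, -1), (-56, -35), (-13, -51), (32, -37),
    (75, -17)}

/-- The origin lies strictly inside the triangle. -/
def goodT (t : Tri) : Bool :=
  decide (0 < cz t.1 t.2.1 (0, 0)) && decide (0 < cz t.2.1 t.2.2 (0, 0)) &&
    decide (0 < cz t.2.2 t.1 (0, 0)) && decide (0 < cz t.1 t.2.1 t.2.2)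

/-- The line through `p, q` has all vertices of `t`, shifted by `w`, on its right (closed) side. -/
def edgeSep (p q : ℤ × ℤ) (t : Tri) (w : ℤ × ℤ) : Bool :=
  decide (cz p q (t.1 + w) ≤ 0) && decide (cz p q (t.2.1 + w) ≤ 0) &&
    decide (cz p q (t.2.2 + w) ≤ 0)

/-- The triangle `t` and the triangle `t' + w` are separated by a line through an edge. -/
def sepT (t t' : Tri) (w : ℤ × ℤ) : Bool :=
  edgeSep t.1 t.2.1 t' w || edgeSep t.2.1 t.2.2 t' w || edgeSep t.2.2 t.1 t' w ||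
  edgeSep t'.1 t'.2.1 t (-w) || edgeSep t'.2.1 t'.2.2 t (-w) || edgeSep t'.2.2 t'.1 t (-w)

theorem good_all : ∀ t ∈ tris, goodT t = true := by decide

theorem sep_zero : ∀ w ∈ vecs, ∀ t ∈ tris, ∀ t' ∈ tris, sepT t t' w = true := by
  decide +kernel

theorem sep_pair : ∀ v ∈ vecs, ∀ w ∈ vecs, v ≠ w → ∀ t ∈ tris, ∀ t' ∈ tris,
    sepT t t' (w - v) = true := by
  decide +kernel

/-- The open triangle. -/
def inOpen (t : Tri) (x0 x1 : ℝ) : Prop :=
  0 < cr t.1.1 t.1.2 t.2.1.1 t.2.1.2 x0 x1 ∧ 0 < cr t.2.1.1 t.2.1.2 t.2.2.1 t.2.2.2 x0 x1 ∧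
    0 < cr t.2.2.1 t.2.2.2 t.1.1 t.1.2 x0 x1

theorem edgeSep_spec {p q : ℤ × ℤ} {t : Tri} {w : ℤ × ℤ} (h : edgeSep p q t w = true)
    {x0 x1 : ℝ} (hx : inOpen t (x0 - w.1) (x1 - w.2)) : cr p.1 p.2 q.1 q.2 x0 x1 ≤ 0 := by
  obtain ⟨⟨a0, a1⟩, ⟨b0, b1⟩, ⟨c0, c1⟩⟩ := t
  obtain ⟨p0, p1⟩ := p
  obtain ⟨q0, q1⟩ := q
  obtain ⟨w0, w1⟩ := w
  simp only [edgeSep, Bool.and_eq_true, decide_eq_true_eq] at h
  simp only [cz, Prod.mk_add_mk] at h
  obtain ⟨⟨h1, h2⟩, h3⟩ := h
  obtain ⟨k1, k2, k3⟩ := hx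
  simp only [cr] at *
  have h1' : (((q0 : ℝ) - p0) * (a1 + w1 - p1) - (q1 - p1) * (a0 + w0 - p0)) ≤ 0 := by
    exact_mod_cast h1
  have h2' : (((q0 : ℝ) - p0) * (b1 + w1 - p1) - (q1 - p1) * (b0 + w0 - p0)) ≤ 0 := by
    exact_mod_cast h2
  have h3' : (((q0 : ℝ) - p0) * (c1 + w1 - p1) - (q1 - p1) * (c0 + w0 - p0)) ≤ 0 := by
    exact_mod_cast h3
  set A := ((b0 : ℝ) - a0) * (x1 - w1 - a1) - (b1 - a1) * (x0 - w0 - a0) with hA
  set B := ((c0 : ℝ) - b0) * (x1 - w1 - b1) - (c1 - b1) * (x0 - w0 - b0) with hB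
  set C := ((a0 : ℝ) - c0) * (x1 - w1 - c1) - (a1 - c1) * (x0 - w0 - c0) with hC
  have hD : 0 < A + B + C := by linarith
  have key : (A + B + C) * (((q0 : ℝ) - p0) * (x1 - p1) - (q1 - p1) * (x0 - p0)) =
      B * (((q0 : ℝ) - p0) * (a1 + w1 - p1) - (q1 - p1) * (a0 + w0 - p0)) +
      C * (((q0 : ℝ) - p0) * (b1 + w1 - p1) - (q1 - p1) * (b0 + w0 - p0)) +
      A * (((q0 : ℝ) - p0) * (c1 + w1 - p1) - (q1 - p1) * (c0 + w0 - p0)) := by
    rw [hA, hB, hC]; ring
  by_contra hcon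
  push Not at hcon
  have e1 := mul_nonpos_of_nonneg_of_nonpos k2.le h1'
  have e2 := mul_nonpos_of_nonneg_of_nonpos k3.le h2'
  have e3 := mul_nonpos_of_nonneg_of_nonpos k1.le h3'
  have e4 := mul_pos hD hcon
  linarith

theorem sepT_spec {t t' : Tri} {w : ℤ × ℤ} (h : sepT t t' w = true) {x0 x1 : ℝ}
    (hx : inOpen t x0 x1) (hx' : inOpen t' (x0 - w.1) (x1 - w.2)) : False := by
  simp only [sepT, Bool.or_eq_true] at h
  have hneg : inOpen t ((x0 - w.1) - ((-w).1 : ℤ)) ((x1 - w.2) - ((-w).2 : ℤ)) := by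
    simpa using hx
  rcases h with ((((h | h) | h) | h) | h) | h
  · exact absurd (edgeSep_spec h hx') (not_le.mpr hx.1)
  · exact absurd (edgeSep_spec h hx') (not_le.mpr hx.2.1)
  · exact absurd (edgeSep_spec h hx') (not_le.mpr hx.2.2)
  · exact absurd (edgeSep_spec h hneg) (not_le.mpr hx'.1)
  · exact absurd (edgeSep_spec h hneg) (not_le.mpr hx'.2.1)
  · exact absurd (edgeSep_spec h hneg) (not_le.mpr hx'.2.2)

/-- The linear functional equal to 1 on the line through `a, b`. -/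
noncomputable def lin (a b : ℤ × ℤ) (x : E) : ℝ :=
  -(((b.1 : ℝ) - a.1) * x 1 - ((b.2 : ℝ) - a.2) * x 0) / ((a.1 : ℝ) * b.2 - a.2 * b.1)

/-- The gauge of one triangle. -/
noncomputable def gt (t : Tri) (x : E) : ℝ :=
  max (max (lin t.1 t.2.1 x) (lin t.2.1 t.2.2 x)) (lin t.2.2 t.1 x)

/-- Indexed triangles. -/
def tri (i : Fin 12) : Tri := tris.get i

theorem tri_mem (i : Fin 12) : tri i ∈ tris := List.get_mem _ _

/-- The gauge of the star. -/
noncomputable def g (x : E) : ℝ :=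
  (Finset.univ : Finset (Fin 12)).inf' Finset.univ_nonempty (fun i => gt (tri i) x)

theorem lin_cont (a b : ℤ × ℤ) : Continuous (lin a b) := by
  unfold lin
  fun_prop

theorem g_cont : Continuous g := by
  unfold g
  apply Continuous.finset_inf'_apply
  intro i _
  unfold gt
  exact ((lin_cont _ _).max (lin_cont _ _)).max (lin_cont _ _)

theorem lin_smul (a b : ℤ × ℤ) (c : ℝ) (x : E) : lin a b (c • x) = c * lin a b x := by
  simp only [lin, PiLp.smul_apply, smul_eq_mul]
  ring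

theorem gt_smul (t : Tri) (c : ℝ) (hc : 0 ≤ c) (x : E) : gt t (c • x) = c * gt t x := by
  simp only [gt, lin_smul]
  rw [mul_max_of_nonneg _ _ hc, mul_max_of_nonneg _ _ hc]

theorem g_smul (c : ℝ) (hc : 0 ≤ c) (x : E) : g (c • x) = c * g x := by
  unfold g
  apply le_antisymm
  · obtain ⟨i, _, hi⟩ := Finset.exists_mem_eq_inf' (s := (Finset.univ : Finset (Fin 12)))
      Finset.univ_nonempty (fun i => gt (tri i) x)
    rw [hi, ← gt_smul _ c hc]
    exact Finset.inf'_le _ (Finset.mem_univ i)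
  · apply Finset.le_inf'
    intro i _
    rw [gt_smul _ c hc]
    exact mul_le_mul_of_nonneg_left (Finset.inf'_le _ (Finset.mem_univ i)) hc

theorem gt_pos {t : Tri} (ht : goodT t = true) {x : E} (hx : x ≠ 0) : 0 < gt t x := by
  obtain ⟨⟨a0, a1⟩, ⟨b0, b1⟩, ⟨c0, c1⟩⟩ := t
  simp only [goodT, Bool.and_eq_true, decide_eq_true_eq] at ht
  simp only [cz] at ht
  obtain ⟨⟨⟨h1, h2⟩, h3⟩, h4⟩ := ht
  have h1' : 0 < ((a0 : ℝ) * b1 - a1 * b0) := by
    have : 0 < a0 * b1 - a1 * b0 := by linarith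
    exact_mod_cast this
  have h2' : 0 < ((b0 : ℝ) * c1 - b1 * c0) := by
    have : 0 < b0 * c1 - b1 * c0 := by linarith
    exact_mod_cast this
  have h3' : 0 < ((c0 : ℝ) * a1 - c1 * a0) := by
    have : 0 < c0 * a1 - c1 * a0 := by linarith
    exact_mod_cast this
  have h4' : 0 < (((b0 : ℝ) - a0) * (c1 - a1) - (b1 - a1) * (c0 - a0)) := by exact_mod_cast h4
  by_contra hcon
  push Not at hcon
  simp only [gt, lin, max_le_iff] at hcon
  obtain ⟨⟨k1, k2⟩, k3⟩ := hcon
  have k1' : 0 ≤ (((b0 : ℝ) - a0) * x 1 - ((b1 : ℝ) - a1) * x 0) := by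
    by_contra hc
    push Not at hc
    exact absurd k1 (not_le.mpr (div_pos (by linarith) h1'))
  have k2' : 0 ≤ (((c0 : ℝ) - b0) * x 1 - ((c1 : ℝ) - b1) * x 0) := by
    by_contra hc
    push Not at hc
    exact absurd k2 (not_le.mpr (div_pos (by linarith) h2'))
  have k3' : 0 ≤ (((a0 : ℝ) - c0) * x 1 - ((a1 : ℝ) - c1) * x 0) := by
    by_contra hc
    push Not at hc
    exact absurd k3 (not_le.mpr (div_pos (by linarith) h3'))
  have z1 : (((b0 : ℝ) - a0) * x 1 - ((b1 : ℝ) - a1) * x 0) = 0 := by linarith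
  have z3 : (((a0 : ℝ) - c0) * x 1 - ((a1 : ℝ) - c1) * x 0) = 0 := by linarith
  have y0 : (((b0 : ℝ) - a0) * (c1 - a1) - (b1 - a1) * (c0 - a0)) * x 0 = 0 := by
    linear_combination ((b0 : ℝ) - a0) * z3 - ((a0 : ℝ) - c0) * z1
  have y1 : (((b0 : ℝ) - a0) * (c1 - a1) - (b1 - a1) * (c0 - a0)) * x 1 = 0 := by
    linear_combination ((b1 : ℝ) - a1) * z3 - ((a1 : ℝ) - c1) * z1
  have x0 : x 0 = 0 := by
    rcases mul_eq_zero.mp y0 with h | h
    · exact absurd h h4'.ne'
    · exact h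
  have x1 : x 1 = 0 := by
    rcases mul_eq_zero.mp y1 with h | h
    · exact absurd h h4'.ne'
    · exact h
  apply hx
  ext i
  fin_cases i
  · simpa using x0
  · simpa using x1

theorem g_pos (x : E) (hx : x ≠ 0) : 0 < g x := by
  unfold g
  rw [Finset.lt_inf'_iff]
  intro i _
  exact gt_pos (good_all _ (tri_mem i)) hx

theorem lin_lt {a b : ℤ × ℤ} (hab : 0 < cz a b (0, 0)) {x : E} (h : lin a b x < 1) :
    0 < cr a.1 a.2 b.1 b.2 (x 0) (x 1) := by
  obtain ⟨a0, a1⟩ := a
  obtain ⟨b0, b1⟩ := b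
  simp only [cz] at hab
  have h1' : 0 < ((a0 : ℝ) * b1 - a1 * b0) := by
    have : 0 < a0 * b1 - a1 * b0 := by linarith
    exact_mod_cast this
  simp only [lin] at h
  rw [div_lt_iff₀ h1'] at h
  simp only [cr]
  linarith

theorem lin_le {a b : ℤ × ℤ} (hab : 0 < cz a b (0, 0)) {p : ℤ × ℤ} (h : 0 ≤ cz a b p) :
    lin a b (!₂[(p.1 : ℝ), (p.2 : ℝ)]) ≤ 1 := by
  obtain ⟨a0, a1⟩ := a
  obtain ⟨b0, b1⟩ := b
  obtain ⟨p0, p1⟩ := p
  simp only [cz] at hab h
  have h1' : 0 < ((a0 : ℝ) * b1 - a1 * b0) := by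
    have : 0 < a0 * b1 - a1 * b0 := by linarith
    exact_mod_cast this
  have h2' : 0 ≤ (((b0 : ℝ) - a0) * (p1 - a1) - (b1 - a1) * (p0 - a0)) := by exact_mod_cast h
  simp only [lin]
  rw [div_le_iff₀ h1']
  simp
  linarith

/-- The starlike disk. -/
def S : Set E := {x | g x ≤ 1}

theorem interior_S {x : E} (hx : x ∈ interior S) : ∃ t ∈ tris, inOpen t (x 0) (x 1) := by
  have h1 : g x < 1 := by
    have hcont : Filter.Tendsto (fun c : ℝ => c • x) (nhds 1) (nhds x) := by
      have : Continuous (fun c : ℝ => c • x) := by fun_prop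
      simpa using this.tendsto 1
    have hev : ∀ᶠ c : ℝ in nhds 1, c • x ∈ interior S := hcont (isOpen_interior.mem_nhds hx)
    have hev2 : ∀ᶠ c : ℝ in nhdsWithin 1 (Set.Ioi 1), c • x ∈ interior S :=
      hev.filter_mono nhdsWithin_le_nhds
    obtain ⟨c, hc, hc1⟩ := (hev2.and self_mem_nhdsWithin).exists
    have hc1' : 1 < c := hc1
    have h2S : c • x ∈ S := interior_subset hc
    have h2 : g (c • x) ≤ 1 := h2S
    rw [g_smul c (by linarith)] at h2
    by_contra hcon
    push Not at hcon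
    nlinarith
  unfold g at h1
  rw [Finset.inf'_lt_iff] at h1
  obtain ⟨i, _, hi⟩ := h1
  refine ⟨tri i, tri_mem i, ?_⟩
  have hg := good_all _ (tri_mem i)
  simp only [goodT, Bool.and_eq_true, decide_eq_true_eq] at hg
  obtain ⟨⟨⟨g1, g2⟩, g3⟩, _⟩ := hg
  simp only [gt, max_lt_iff] at hi
  exact ⟨lin_lt g1 hi.1.1, lin_lt g2 hi.1.2, lin_lt g3 hi.2⟩

theorem star_S : StarConvex ℝ (0 : E) S := by
  rw [starConvex_zero_iff]
  intro x hx a ha ha1
  simp only [S, Set.mem_ofPred_eq] at hx ⊢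
  rw [g_smul a ha]
  have h0 : 0 ≤ g x := by
    by_cases h : x = 0
    · subst h
      have := g_smul 0 le_rfl 0
      simp only [zero_smul, zero_mul] at this
      rw [this]
    · exact (g_pos x h).le
  nlinarith

/-- The vertex `p` of one of the triangles lies in the closed triangle number `i`. -/
def inTri (i : Fin 12) (p : ℤ × ℤ) : Bool :=
  decide (0 ≤ cz (tri i).1 (tri i).2.1 p) && decide (0 ≤ cz (tri i).2.1 (tri i).2.2 p) &&
    decide (0 ≤ cz (tri i).2.2 (tri i).1 p)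

/-- Embedding of integer points. -/
noncomputable def toE (p : ℤ × ℤ) : E := !₂[(p.1 : ℝ), (p.2 : ℝ)]

theorem mem_S_of {i : Fin 12} {p : ℤ × ℤ} (h : inTri i p = true) : toE p ∈ S := by
  have hg := good_all _ (tri_mem i)
  simp only [goodT, Bool.and_eq_true, decide_eq_true_eq] at hg
  obtain ⟨⟨⟨g1, g2⟩, g3⟩, _⟩ := hg
  simp only [inTri, Bool.and_eq_true, decide_eq_true_eq] at h
  obtain ⟨⟨h1, h2⟩, h3⟩ := h
  simp only [S, Set.mem_ofPred_eq, g]
  refine le_trans (Finset.inf'_le _ (Finset.mem_univ i)) ?_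
  simp only [gt, max_le_iff]
  exact ⟨⟨lin_le g1 h1, lin_le g2 h2⟩, lin_le g3 h3⟩

theorem touch : ∀ v ∈ vecs, ∃ i j : Fin 12,
    inTri i (tri i).1 = true ∧ inTri j (tri j).1 = true ∧ (tri i).1 = v + (tri j).1 := by
  decide +kernel

theorem toE_add (p q : ℤ × ℤ) : toE (p + q) = toE p + toE q := by
  ext i
  fin_cases i <;> simp [toE]

theorem toE_inj : Function.Injective toE := by
  intro p q h
  have h0 := congrFun (congrArg (fun z : E => (z : Fin 2 → ℝ)) h) 0
  have h1 := congrFun (congrArg (fun z : E => (z : Fin 2 → ℝ)) h) 1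
  simp [toE] at h0 h1
  exact Prod.ext h0 h1

theorem mem_interior_vadd {v x : E} (hx : x ∈ interior (v +ᵥ S)) :
    ∃ t ∈ tris, inOpen t (x 0 - v 0) (x 1 - v 1) := by
  rw [interior_vadd] at hx
  rw [Set.mem_vadd_set] at hx
  obtain ⟨y, hy, rfl⟩ := hx
  obtain ⟨t, ht, h⟩ := interior_S hy
  refine ⟨t, ht, ?_⟩
  simpa using h

theorem result :
    ¬ (∀ S : Set (EuclideanSpace ℝ (Fin 2)),
      Nonempty (S ≃ₜ Metric.closedBall (0 : EuclideanSpace ℝ (Fin 2)) 1) →
      (∃ p ∈ S, StarConvex ℝ p S) →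
      ∀ T : Finset (EuclideanSpace ℝ (Fin 2)),
        (∀ v ∈ T, v ≠ 0 ∧ (S ∩ (v +ᵥ S)).Nonempty ∧
            Disjoint (interior S) (interior (v +ᵥ S))) →
        (∀ v ∈ T, ∀ w ∈ T, v ≠ w →
            Disjoint (interior (v +ᵥ S)) (interior (w +ᵥ S))) →
        T.card ≤ 8) := by
  intro H
  classical
  have hT := H S (homeo_of_gauge g g_cont g_smul g_pos)
    ⟨0, by
      have := g_smul 0 le_rfl 0
      simp only [zero_smul, zero_mul] at this
      simp [S, this], star_S⟩ (vecs.image toE) ?_ ?_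
  · rw [Finset.card_image_of_injective _ toE_inj] at hT
    exact absurd hT (by decide)
  · intro v hv
    rw [Finset.mem_image] at hv
    obtain ⟨p, hp, rfl⟩ := hv
    refine ⟨?_, ?_, ?_⟩
    · intro h
      have h0 : toE (0, 0) = 0 := by
        ext i
        fin_cases i <;> simp [toE]
      rw [← h0] at h
      have := toE_inj h
      subst this
      exact absurd hp (by decide)
    · obtain ⟨i, j, hi, hj, hij⟩ := touch p hp
      refine ⟨toE (tri i).1, mem_S_of hi, ?_⟩
      rw [Set.mem_vadd_set]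
      refine ⟨toE (tri j).1, mem_S_of hj, ?_⟩
      rw [hij, toE_add]
      rfl
    · rw [Set.disjoint_left]
      intro x hx hx'
      obtain ⟨t, ht, h⟩ := interior_S hx
      obtain ⟨t', ht', h'⟩ := mem_interior_vadd hx'
      exact sepT_spec (sep_zero p hp t ht t' ht') h (by simpa [toE] using h')
  · intro v hv w hw hvw
    rw [Finset.mem_image] at hv hw
    obtain ⟨p, hp, rfl⟩ := hv
    obtain ⟨q, hq, rfl⟩ := hw
    have hpq : p ≠ q := fun h => hvw (by rw [h])
    rw [Set.disjoint_left]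
    intro x hx hx'
    obtain ⟨t, ht, h⟩ := mem_interior_vadd hx
    obtain ⟨t', ht', h'⟩ := mem_interior_vadd hx'
    refine sepT_spec (sep_pair p hp q hq hpq t ht t' ht') h ?_
    have e0 : (x 0 - (toE p) 0) - (((q - p).1 : ℤ) : ℝ) = x 0 - (toE q) 0 := by
      simp [toE]
    have e1 : (x 1 - (toE p) 1) - (((q - p).2 : ℤ) : ℝ) = x 1 - (toE q) 1 := by
      simp [toE]
    rw [e0, e1]
    exact h'

end Pool.Agent.S07182
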