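import Pool.Statements.S07186
import Pool.Agent.Helper124.SWGrowth

set_option autoImplicit false
open Pool Pool.MP_c3e822_co

namespace Pool.Agent.S07186

/-- The negation of the preceding statement: For any two permutation patterns, the numbers of length-n permutations avoiding each never alternate strictly in the order smaller, larger, smaller (or larger, smaller, larger) at three increasing lengths n. -/
theorem result :
    ¬ (∀ (k l : ℕ) (σ : Equiv.Perm (Fin k)) (τ : Equiv.Perm (Fin l)) (A B : ℕ → ℕ),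
      (∀ n : ℕ, A n = Nat.card {π : Equiv.Perm (Fin n) //
          ¬ ∃ f : Fin k ↪o Fin n, ∀ i j : Fin k, σ i < σ j ↔ π (f i) < π (f j)}) →
      (∀ n : ℕ, B n = Nat.card {π : Equiv.Perm (Fin n) //
          ¬ ∃ f : Fin l ↪o Fin n, ∀ i j : Fin l, τ i < τ j ↔ π (f i) < π (f j)}) →
      ¬ ∃ n₁ n₂ n₃ : ℕ, n₁ < n₂ ∧ n₂ < n₃ ∧
        ((A n₁ < B n₁ ∧ B n₂ < A n₂ ∧ A n₃ < B n₃) ∨
         (B n₁ < A n₁ ∧ A n₂ < B n₂ ∧ B n₃ < A n₃))) := by
  classical
  intro H
  obtain ⟨m, n₁, n₂, n₃, h12, h23, h1, h2, h3⟩ := Pool.Agent.Helper124.SW.double_switch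
  refine H (m * m - 1) (m * m) (1 : Equiv.Perm (Fin (m * m - 1)))
    (Pool.Agent.Helper124.SW.gridPerm m)
    (fun n => Pool.Agent.Helper124.SW.Av n (1 : Equiv.Perm (Fin (m * m - 1))))
    (fun n => Pool.Agent.Helper124.SW.Av n (Pool.Agent.Helper124.SW.gridPerm m))
    (fun n => ?_) (fun n => ?_) ⟨n₁, n₂, n₃, h12, h23, Or.inl ⟨h1, h2, h3⟩⟩
  · unfold Pool.Agent.Helper124.SW.Av
    rw [← Nat.card_eq_fintype_card]
    rfl
  · unfold Pool.Agent.Helper124.SW.Av
    rw [← Nat.card_eq_fintype_card]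
    rfl

end Pool.Agent.S07186
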