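import Pool.Statements.S07196

set_option autoImplicit false
open Pool Pool.MP_c49100_co

namespace Pool.Agent.S07196

/-- All pairs (earlier entry, later entry) of a list: the edges of a complete graph. -/
def pairs {α : Type} : List α → List (α × α)
  | [] => []
  | a :: l => l.map (fun b => (a, b)) ++ pairs l

/-- The number of edges of a complete graph cut by `S` is the product of the two side sizes. -/
theorem countP_pairs {α : Type} [DecidableEq α] (S : Finset α) (l : List α) :
    (pairs l).countP (fun e => decide ((e.1 ∈ S) ≠ (e.2 ∈ S)))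
      = l.countP (fun a => decide (a ∈ S)) * l.countP (fun a => decide (¬ a ∈ S)) := by
  induction l with
  | nil => simp [pairs]
  | cons a l ih =>
    rw [pairs, List.countP_append, ih, List.countP_map, List.countP_cons, List.countP_cons]
    by_cases ha : a ∈ S
    · have h1 : l.countP ((fun e : α × α => decide ((e.1 ∈ S) ≠ (e.2 ∈ S))) ∘ fun b => (a, b))
          = l.countP (fun a => decide (¬ a ∈ S)) := by
        apply List.countP_congr
        intro x _
        simp [ha]
      rw [h1]
      simp [ha]
      ring
    · have h1 : l.countP ((fun e : α × α => decide ((e.1 ∈ S) ≠ (e.2 ∈ S))) ∘ fun b => (a, b))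
          = l.countP (fun a => decide (a ∈ S)) := by
        apply List.countP_congr
        intro x _
        simp [ha]
      rw [h1]
      simp [ha]
      ring

theorem countP_compl {α : Type} [DecidableEq α] (S : Finset α) (l : List α) :
    l.countP (fun a => decide (a ∈ S)) + l.countP (fun a => decide (¬ a ∈ S)) = l.length := by
  induction l with
  | nil => simp
  | cons a l ih =>
    rw [List.countP_cons, List.countP_cons, List.length_cons, ← ih]
    by_cases ha : a ∈ S
    · simp [ha]; ring
    · simp [ha]; ring

/-- The vertices of the first complete graph, on 13 vertices. -/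
def A : List (Fin 20) := (List.finRange 20).take 13

/-- The vertices of the second complete graph, on 7 vertices. -/
def B : List (Fin 20) := (List.finRange 20).drop 13

/-- The disjoint union of complete graphs on 13 and on 7 vertices: 99 edges, maximum cut 54. -/
def G : List (Fin 20 × Fin 20) := pairs A ++ pairs B

theorem G_length : G.length = 99 := by decide +kernel

theorem G_loopless : ∀ e ∈ G, e.1 ≠ e.2 := by decide +kernel

theorem prod_le_A (x y : ℕ) (h : x + y = 13) : x * y ≤ 42 := by
  have hx : x ≤ 13 := by omega
  have hy : y = 13 - x := by omega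
  subst hy
  interval_cases x <;> norm_num

theorem prod_le_B (x y : ℕ) (h : x + y = 7) : x * y ≤ 12 := by
  have hx : x ≤ 7 := by omega
  have hy : y = 7 - x := by omega
  subst hy
  interval_cases x <;> norm_num

theorem G_cut (S : Finset (Fin 20)) :
    G.countP (fun e => decide ((e.1 ∈ S) ≠ (e.2 ∈ S))) ≤ 54 := by
  rw [G, List.countP_append, countP_pairs, countP_pairs]
  have hA := prod_le_A _ _ ((countP_compl S A).trans (by decide +kernel))
  have hB := prod_le_B _ _ ((countP_compl S B).trans (by decide +kernel))
  omega

/-- The negation of the preceding statement: Let f(m) be the least c such that some loopless multigraph with m edges has every cut of size at most c. Then for all n and k<n, f(C(n,2)+k) = min(floor((n+1)^2/4), floor(n^2/4)+f(k)). -/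
theorem result :
    ¬ (∀ f : ℕ → ℕ,
      (∀ m : ℕ, f m = sInf {c : ℕ | ∃ N : ℕ, ∃ E : List (Fin N × Fin N),
          E.length = m ∧ (∀ e ∈ E, e.1 ≠ e.2) ∧
          ∀ S : Finset (Fin N), E.countP (fun e => decide ((e.1 ∈ S) ≠ (e.2 ∈ S))) ≤ c}) →
      ∀ n k : ℕ, k < n →
        f (n.choose 2 + k) = min ((n + 1) ^ 2 / 4) (n ^ 2 / 4 + f k)) := by
  intro H
  obtain ⟨f, hf⟩ : ∃ f : ℕ → ℕ, ∀ m : ℕ, f m = sInf {c : ℕ | ∃ N : ℕ,
      ∃ E : List (Fin N × Fin N), E.length = m ∧ (∀ e ∈ E, e.1 ≠ e.2) ∧
      ∀ S : Finset (Fin N), E.countP (fun e => decide ((e.1 ∈ S) ≠ (e.2 ∈ S))) ≤ c} :=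
    ⟨_, fun _ => rfl⟩
  have key := H f hf
  have h99 : f 99 ≤ 54 := by
    rw [hf]
    apply Nat.sInf_le
    exact ⟨20, G, G_length, G_loopless, G_cut⟩
  have c2 : Nat.choose 2 2 = 1 := by decide
  have c4 : Nat.choose 4 2 = 6 := by decide
  have c14 : Nat.choose 14 2 = 91 := by decide
  have k1 : f 1 = min 2 (1 + f 0) := by
    have h := key 2 0 (by norm_num)
    rw [c2] at h
    exact h
  have k2 : f 2 = min 2 (1 + f 1) := by
    have h := key 2 1 (by norm_num)
    rw [c2] at h
    exact h
  have k8 : f 8 = min 6 (4 + f 2) := by
    have h := key 4 2 (by norm_num)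
    rw [c4] at h
    exact h
  have k99 : f 99 = min 56 (49 + f 8) := by
    have h := key 14 8 (by norm_num)
    rw [c14] at h
    exact h
  omega

end Pool.Agent.S07196
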