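import Pool.Statements.S07216
import Pool.Agent.Helper542.EG.Inst

set_option autoImplicit false
open Pool Pool.MP_c5aac2_co

namespace Pool.Agent.S07216

/-- good reply of Player 2 after the history `h` -/
def Good (σ : List ℤ → Finset ℤ) (U : Finset ℤ) (h : List ℤ) (e : ℤ) : Prop :=
  Even e ∧ e ∉ h.toFinset ∧ (∃ a ∈ σ h, ∃ a' ∈ σ h, a ≤ e ∧ e ≤ a') ∧
    Pool.Agent.Helper542.EG.Inv (U ∪ σ h) (insert e h.toFinset)

open Classical in
/-- state after `n` rounds: numbers of Player 1, history of Player 2 -/
noncomputable def play (σ : List ℤ → Finset ℤ) : ℕ → Finset ℤ × List ℤ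
  | 0 => (∅, [])
  | n+1 =>
    let s := play σ n
    (s.1 ∪ σ s.2, s.2 ++ [if h : ∃ e, Good σ s.1 s.2 e then h.choose else 0])

open Classical in
noncomputable def reply (σ : List ℤ → Finset ℤ) (n : ℕ) : ℤ :=
  if h : ∃ e, Good σ (play σ n).1 (play σ n).2 e then h.choose else 0

theorem play_succ (σ : List ℤ → Finset ℤ) (n : ℕ) :
    play σ (n+1) = ((play σ n).1 ∪ σ (play σ n).2, (play σ n).2 ++ [reply σ n]) := rfl

theorem play_hist (σ : List ℤ → Finset ℤ) (n : ℕ) :
    (play σ n).2 = List.ofFn (fun j : Fin n => reply σ j) := by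
  induction n with
  | zero => simp [play]
  | succ n ih =>
    rw [play_succ, List.ofFn_succ_last, ih]
    simp

theorem play_used (σ : List ℤ → Finset ℤ) (n : ℕ) :
    (play σ n).1 = (Finset.range n).biUnion
      (fun i => σ (List.ofFn (fun j : Fin i => reply σ j))) := by
  induction n with
  | zero => simp [play]
  | succ n ih =>
    rw [play_succ, Finset.range_add_one, Finset.biUnion_insert, ← ih, play_hist]
    exact Finset.union_comm _ _

open Pool.Agent.Helper542.EG in
theorem main_inv (σ : List ℤ → Finset ℤ) (n : ℕ)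
    (hp : ∀ i ≤ n, (σ (List.ofFn (fun j : Fin i => reply σ j))).card = 5000 ∧
      ∀ i' < i, Disjoint (σ (List.ofFn (fun j : Fin i => reply σ j)))
        (σ (List.ofFn (fun j : Fin i' => reply σ j)))) :
    Inv (play σ n).1 (play σ n).2.toFinset ∧
      Good σ (play σ n).1 (play σ n).2 (reply σ n) := by
  induction n with
  | zero =>
    have hinv : Inv (play σ 0).1 (play σ 0).2.toFinset := by
      simpa [play] using Inv_init
    refine ⟨hinv, ?_⟩
    have h0 := (hp 0 le_rfl).1
    have hs : σ (play σ 0).2 = σ (List.ofFn (fun j : Fin 0 => reply σ j)) := by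
      rw [← play_hist]
    have hd : Disjoint (play σ 0).1 (σ (play σ 0).2) := by simp [play]
    obtain ⟨e, h1, h2, h3, h4⟩ := round hinv hd (by rw [hs]; exact h0)
    have hex : ∃ e, Good σ (play σ 0).1 (play σ 0).2 e := ⟨e, h1, h2, h3, h4⟩
    unfold reply
    rw [dif_pos hex]
    exact hex.choose_spec
  | succ n ih =>
    have ih' := ih (fun i hi => hp i (by omega))
    have hinv : Inv (play σ (n+1)).1 (play σ (n+1)).2.toFinset := by
      rw [play_succ]
      have h := ih'.2.2.2.2
      have he : ((play σ n).2 ++ [reply σ n]).toFinset =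
          insert (reply σ n) (play σ n).2.toFinset := by
        ext z; simp [or_comm]
      simpa [he] using h
    refine ⟨hinv, ?_⟩
    have h0 := (hp (n+1) le_rfl).1
    have hs : σ (play σ (n+1)).2 = σ (List.ofFn (fun j : Fin (n+1) => reply σ j)) := by
      rw [← play_hist]
    have hd : Disjoint (play σ (n+1)).1 (σ (play σ (n+1)).2) := by
      rw [play_used, hs, Finset.disjoint_biUnion_left]
      intro i hi
      rw [Finset.mem_range] at hi
      exact ((hp (n+1) le_rfl).2 i hi).symm
    obtain ⟨e, h1, h2, h3, h4⟩ := round hinv hd (by rw [hs]; exact h0)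
    have hex : ∃ e, Good σ (play σ (n+1)).1 (play σ (n+1)).2 e := ⟨e, h1, h2, h3, h4⟩
    unfold reply
    rw [dif_pos hex]
    exact hex.choose_spec

/-- The negation of the preceding statement: For every k at least 4, Player 1 has a strategy of fresh k-sets of integers such that Player 2, who must answer each set with a new even integer between its min and max, is eventually left with no legal answer. -/
theorem result :
    ¬ (∀ k : ℕ, 4 ≤ k →
      ∃ σ : List ℤ → Finset ℤ,
        ∀ b : ℕ → ℤ, ∃ n : ℕ,
          (∀ i ≤ n,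
              (σ (List.ofFn (fun j : Fin i => b j))).card = k ∧
              ∀ i' < i,
                Disjoint (σ (List.ofFn (fun j : Fin i => b j)))
                  (σ (List.ofFn (fun j : Fin i' => b j)))) ∧
          ¬ (Even (b n) ∧
              (∃ a ∈ σ (List.ofFn (fun j : Fin n => b j)),
                ∃ c ∈ σ (List.ofFn (fun j : Fin n => b j)),
                  a ≤ b n ∧ b n ≤ c) ∧
              ∀ i < n, b i ≠ b n)) := by
  intro hall
  obtain ⟨σ, hσ⟩ := hall 5000 (by norm_num)
  obtain ⟨n, hp, hn⟩ := hσ (reply σ)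
  apply hn
  obtain ⟨_, h1, h2, h3, _⟩ := main_inv σ n hp
  rw [play_hist] at h2 h3
  refine ⟨h1, ?_, ?_⟩
  · obtain ⟨a, ha, a', ha', h4, h5⟩ := h3
    exact ⟨a, ha, a', ha', h4, h5⟩
  · intro i hi heq
    apply h2
    rw [List.mem_toFinset, List.mem_ofFn]
    exact ⟨⟨i, hi⟩, heq⟩

end Pool.Agent.S07216
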