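import Pool.Statements.S07218
-- import your own Pool.Agent.* helpers here

set_option autoImplicit false
open Pool Pool.MP_c611ca_co

namespace Pool.Agent.S07218

section general
variable {F : Type*} [AddCommGroup F] [Module ℝ F]

lemma le_of_hull {S : Set F} (l : F →ₗ[ℝ] ℝ) (M : ℝ) (hM : ∀ y ∈ S, l y ≤ M) {x : F}
    (hx : x ∈ convexHull ℝ S) : l x ≤ M := by
  have h : convexHull ℝ S ⊆ {y | l y ≤ M} :=
    convexHull_min (fun y hy => hM y hy) (convex_halfSpace_le l.isLinear M)
  exact h hx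

lemma lt_of_hull {S : Set F} (l : F →ₗ[ℝ] ℝ) (M : ℝ) (hM : ∀ y ∈ S, l y < M) {x : F}
    (hx : x ∈ convexHull ℝ S) : l x < M := by
  have h : convexHull ℝ S ⊆ {y | l y < M} :=
    convexHull_min (fun y hy => hM y hy) (convex_halfSpace_lt l.isLinear M)
  exact h hx

/-- A point of a convex hull where a functional is maximal lies in the hull of the points where
the functional is maximal. -/
lemma mem_face {S : Set F} (l : F →ₗ[ℝ] ℝ) (M : ℝ) (hM : ∀ y ∈ S, l y ≤ M) {x : F}
    (hx : x ∈ convexHull ℝ S) (hl : l x = M) : x ∈ convexHull ℝ {y ∈ S | l y = M} := by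
  set A := {y ∈ S | l y = M} with hA
  set B := {y ∈ S | l y < M} with hB
  have hS : S = A ∪ B := by
    ext y
    simp only [hA, hB, Set.mem_union, Set.mem_ofPred_eq]
    constructor
    · intro hy
      rcases (hM y hy).eq_or_lt with h | h
      · exact Or.inl ⟨hy, h⟩
      · exact Or.inr ⟨hy, h⟩
    · rintro (h | h)
      · exact h.1
      · exact h.1
  rcases A.eq_empty_or_nonempty with hAe | hAn
  · exfalso
    rw [hS, hAe, Set.empty_union] at hx
    have := lt_of_hull l M (fun y hy => hy.2) hx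
    linarith
  rcases B.eq_empty_or_nonempty with hBe | hBn
  · rw [hBe, Set.union_empty] at hS
    rw [← hS]; exact hx
  rw [hS, convexHull_union hAn hBn, mem_convexJoin] at hx
  obtain ⟨a, ha, b, hb, hab⟩ := hx
  obtain ⟨s, t, hs, ht, hst, rfl⟩ := hab
  have hbl := lt_of_hull l M (fun y hy => hy.2) hb
  have hal := le_of_hull l M (fun y hy => hy.2.le) ha
  simp only [map_add, map_smul, smul_eq_mul] at hl
  have ht0 : t = 0 := by
    by_contra hne
    have htpos : 0 < t := lt_of_le_of_ne ht (Ne.symm hne)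
    have q1 := mul_le_mul_of_nonneg_left hal hs
    have q2 := mul_lt_mul_of_pos_left hbl htpos
    have q3 : s * M + t * M = M := by rw [← add_mul, hst, one_mul]
    linarith
  subst ht0
  have hs1 : s = 1 := by linarith
  subst hs1
  simpa using ha

lemma isExtreme_face {S : Set F} (l : F →ₗ[ℝ] ℝ) (M : ℝ) (hM : ∀ y ∈ S, l y ≤ M) :
    IsExtreme ℝ (convexHull ℝ S) (convexHull ℝ {y ∈ S | l y = M}) := by
  refine ⟨convexHull_mono (fun y hy => hy.1), ?_⟩
  intro x1 h1 x2 h2 x hx hseg
  have e1 := le_of_hull l M hM h1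
  have e2 := le_of_hull l M hM h2
  have e : l x = M := by
    apply le_antisymm
    · exact le_of_hull l M (fun y hy => hy.2.le) hx
    · have := le_of_hull (-l) (-M) (S := {y ∈ S | l y = M}) (fun y hy => by
        simp [hy.2]) hx
      simp at this; exact this
  apply mem_face l M hM h1
  obtain ⟨s, t, hs, ht, hst, rfl⟩ := hseg
  simp only [map_add, map_smul, smul_eq_mul] at e
  by_contra hne
  have hlt : l x1 < M := lt_of_le_of_ne e1 hne
  have q1 := mul_lt_mul_of_pos_left hlt hs
  have q2 := mul_le_mul_of_nonneg_left e2 ht.le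
  have q3 : s * M + t * M = M := by rw [← add_mul, hst, one_mul]
  linarith

/-- A segment on which a functional is maximal, and only there, is an extreme segment. -/
lemma isExtreme_segment {S : Set F} (l : F →ₗ[ℝ] ℝ) (M : ℝ) (u v : F) (hu : u ∈ S) (hv : v ∈ S)
    (hlu : l u = M) (hlv : l v = M) (hM : ∀ y ∈ S, y ≠ u → y ≠ v → l y < M) :
    IsExtreme ℝ (convexHull ℝ S) (segment ℝ u v) := by
  have h1 : ∀ y ∈ S, l y ≤ M := by
    intro y hy
    by_cases h : y = u
    · rw [h, hlu]
    by_cases h' : y = v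
    · rw [h', hlv]
    exact (hM y hy h h').le
  have h2 : {y ∈ S | l y = M} = {u, v} := by
    ext y
    simp only [Set.mem_ofPred_eq, Set.mem_insert_iff, Set.mem_singleton_iff]
    constructor
    · rintro ⟨hy, hly⟩
      by_contra hcon
      push Not at hcon
      exact absurd hly (hM y hy hcon.1 hcon.2).ne
    · rintro (rfl | rfl)
      · exact ⟨hu, hlu⟩
      · exact ⟨hv, hlv⟩
  have h3 := isExtreme_face l M h1
  rwa [h2, convexHull_pair] at h3

/-- A point where a functional is uniquely maximal is an extreme point. -/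
lemma mem_extremePoints_hull {S : Set F} (l : F →ₗ[ℝ] ℝ) (M : ℝ) (u : F) (hu : u ∈ S)
    (hlu : l u = M) (hM : ∀ y ∈ S, y ≠ u → l y < M) :
    u ∈ (convexHull ℝ S).extremePoints ℝ := by
  have := isExtreme_segment l M u u hu hu hlu hlu (fun y hy h _ => hM y hy h)
  rw [segment_same] at this
  exact isExtreme_singleton.mp this

end general

/-- Sign of a boolean. -/
def sg (b : Bool) : ℤ := if b then 1 else -1

/-- The twenty three-element subsets of a six-element set, as bit masks. -/
def masks : List ℕ := [7, 11, 13, 14, 19, 21, 22, 25, 26, 28, 35, 37, 38, 41, 42, 44, 49, 50, 52, 56]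

/-- The `j`-th balanced sign vector. -/
def bit (j : Fin 20) (k : Fin 6) : Bool := Nat.testBit (masks.getD j.1 0) k.1

/-- Vertices of the graph: twelve core vertices and twenty additional ones. -/
abbrev Ix := (Fin 6 × Bool) ⊕ Fin 20

/-- Integer coordinates of the six-dimensional polytope. -/
def qZ : Ix → Fin 6 → ℤ
  | .inl x => fun k => if k = x.1 then 5 * sg x.2 else 0
  | .inr s => fun k => sg (bit s k)

/-- Integer coordinates of the five-dimensional polytope. -/
def pZ (x : Fin 6 × Bool) : Fin 5 → ℤ := fun k =>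
  if x.1.1 = k.1 then sg x.2 else if x.1.1 = 5 then - sg x.2 else 0

/-- The adjacency of the graph. -/
def Gam : Ix → Ix → Bool
  | .inl x, .inl y => x.1 != y.1
  | .inl x, .inr s => bit s x.1 == x.2
  | .inr s, .inl x => bit s x.1 == x.2
  | .inr _, .inr _ => false

/-- Integer functional supporting an edge of the six-dimensional polytope. -/
def supp : Ix → Ix → Fin 6 → ℤ
  | .inl x, .inl y => fun k => if k = x.1 then sg x.2 else if k = y.1 then sg y.2 else 0
  | .inl x, .inr s => fun k => if k = x.1 then 5 * sg (bit s k) else 4 * sg (bit s k)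
  | .inr s, .inl x => fun k => if k = x.1 then 5 * sg (bit s k) else 4 * sg (bit s k)
  | .inr _, .inr _ => fun _ => 0

def dot6 (g z : Fin 6 → ℤ) : ℤ :=
  g 0 * z 0 + g 1 * z 1 + g 2 * z 2 + g 3 * z 3 + g 4 * z 4 + g 5 * z 5

def nrm6 (z : Fin 6 → ℤ) : ℤ := |z 0| + |z 1| + |z 2| + |z 3| + |z 4| + |z 5|

/-- weights of a central point on a non-edge -/
def wt : Ix → Ix → ℤ × ℤ
  | .inl _, .inl _ => (1, 1)
  | .inl _, .inr _ => (1, 5)
  | .inr _, .inl _ => (5, 1)
  | .inr _, .inr _ => (1, 1)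

lemma check1a : ∀ x y : Ix, Gam x y = true → dot6 (supp x y) (qZ x) = dot6 (supp x y) (qZ y) := by
  decide +kernel

lemma check1b : ∀ x y z : Ix, Gam x y = true → z ≠ x → z ≠ y →
    dot6 (supp x y) (qZ z) < dot6 (supp x y) (qZ x) := by
  decide +kernel

lemma check2 : ∀ x y : Ix, x ≠ y → Gam x y = false → 0 < (wt x y).1 ∧ 0 < (wt x y).2 ∧
    nrm6 (fun k => (wt x y).1 * qZ x k + (wt x y).2 * qZ y k) < 5 * ((wt x y).1 + (wt x y).2) := by
  decide +kernel

/-- Euclidean space. -/
abbrev Eu (n : ℕ) := EuclideanSpace ℝ (Fin n)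

/-- The point with given integer coordinates. -/
def toE {n : ℕ} (z : Fin n → ℤ) : Eu n := WithLp.toLp 2 (fun k => (z k : ℝ))

@[simp] lemma toE_apply {n : ℕ} (z : Fin n → ℤ) (k : Fin n) : toE z k = (z k : ℝ) := rfl

lemma toE_injective {n : ℕ} : Function.Injective (toE (n := n)) := by
  intro a b h
  funext k
  have := congrArg (fun f : Eu n => f k) h
  simpa using this

/-- The functional with given real coefficients. -/
noncomputable def fn {n : ℕ} (g : Fin n → ℝ) : StrongDual ℝ (Eu n) := ∑ k, g k • EuclideanSpace.proj k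

lemma fn_apply {n : ℕ} (g : Fin n → ℝ) (x : Eu n) : fn g x = ∑ k, g k * x k := by
  simp [fn]

lemma fn6 (g : Fin 6 → ℤ) (z : Fin 6 → ℤ) :
    fn (fun k => (g k : ℝ)) (toE z) = (dot6 g z : ℝ) := by
  rw [fn_apply]
  simp [Fin.sum_univ_six, dot6]

/-- The point of the six-dimensional polytope with index `x`. -/
def qp (x : Ix) : Eu 6 := toE (qZ x)

lemma qZ_inj : Function.Injective qZ := by
  have : ∀ x y : Ix, (∀ k, qZ x k = qZ y k) → x = y := by decide +kernel
  intro x y h
  exact this x y (fun k => congrFun h k)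

lemma qp_inj : Function.Injective qp := toE_injective.comp qZ_inj

/-- The points spanning the six-dimensional polytope. -/
noncomputable def QQ : Finset (Eu 6) := Finset.univ.image qp

lemma mem_QQ {y : Eu 6} : y ∈ (QQ : Set (Eu 6)) ↔ ∃ x, qp x = y := by
  simp [QQ]

lemma q_edge (x y : Ix) (h : Gam x y = true) :
    IsExtreme ℝ (convexHull ℝ (QQ : Set (Eu 6))) (segment ℝ (qp x) (qp y)) := by
  apply isExtreme_segment (fn (fun k => (supp x y k : ℝ))).toLinearMap
    (dot6 (supp x y) (qZ x) : ℝ) (qp x) (qp y) (mem_QQ.mpr ⟨x, rfl⟩) (mem_QQ.mpr ⟨y, rfl⟩)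
  · exact fn6 _ _
  · rw [check1a x y h]
    exact fn6 _ _
  · intro w hw hwx hwy
    obtain ⟨z, rfl⟩ := mem_QQ.mp hw
    have hzx : z ≠ x := fun e => hwx (by rw [e])
    have hzy : z ≠ y := fun e => hwy (by rw [e])
    have := check1b x y z h hzx hzy
    have e : (fn (fun k => (supp x y k : ℝ))).toLinearMap (qp z) = (dot6 (supp x y) (qZ z) : ℝ) :=
      fn6 _ _
    rw [e]
    exact_mod_cast this

/-- own functional for a vertex -/
def vsupp : Ix → Fin 6 → ℤ
  | .inl x => fun k => if k = x.1 then sg x.2 else 0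
  | .inr s => fun k => sg (bit s k)

lemma check3 : ∀ x z : Ix, z ≠ x → dot6 (vsupp x) (qZ z) < dot6 (vsupp x) (qZ x) := by
  decide +kernel

lemma q_vert (x : Ix) : qp x ∈ (convexHull ℝ (QQ : Set (Eu 6))).extremePoints ℝ := by
  apply mem_extremePoints_hull (fn (fun k => (vsupp x k : ℝ))).toLinearMap
    (dot6 (vsupp x) (qZ x) : ℝ) (qp x) (mem_QQ.mpr ⟨x, rfl⟩)
  · exact fn6 _ _
  · intro w hw hwx
    obtain ⟨z, rfl⟩ := mem_QQ.mp hw
    have hzx : z ≠ x := fun e => hwx (by rw [e])
    have e : (fn (fun k => (vsupp x k : ℝ))).toLinearMap (qp z) = (dot6 (vsupp x) (qZ z) : ℝ) :=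
      fn6 _ _
    rw [e]
    exact_mod_cast check3 x z hzx

lemma q_ext_iff (y : Eu 6) :
    y ∈ (convexHull ℝ (QQ : Set (Eu 6))).extremePoints ℝ ↔ ∃ x, qp x = y := by
  constructor
  · intro h
    exact mem_QQ.mp (extremePoints_convexHull_subset h)
  · rintro ⟨x, rfl⟩
    exact q_vert x

/-- The sum of absolute values of the coordinates. -/
noncomputable def nrm (x : Eu 6) : ℝ := ∑ k, |x k|

lemma nrm_toE (z : Fin 6 → ℤ) : nrm (toE z) = (nrm6 z : ℝ) := by
  simp [nrm, nrm6, Fin.sum_univ_six]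

lemma nrm_add (x y : Eu 6) : nrm (x + y) ≤ nrm x + nrm y := by
  unfold nrm
  rw [← Finset.sum_add_distrib]
  apply Finset.sum_le_sum
  intro k _
  simpa using abs_add_le (x k) (y k)

lemma nrm_smul (c : ℝ) (x : Eu 6) : nrm (c • x) = |c| * nrm x := by
  unfold nrm
  rw [Finset.mul_sum]
  apply Finset.sum_congr rfl
  intro k _
  simp [abs_mul]

lemma mem_hull_of_nrm (x : Eu 6) (hx : nrm x ≤ 5) : x ∈ convexHull ℝ (QQ : Set (Eu 6)) := by
  have hpt : ∀ i : Fin 6 × Bool, qp (Sum.inl i) ∈ convexHull ℝ (QQ : Set (Eu 6)) :=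
    fun i => subset_convexHull ℝ _ (mem_QQ.mpr ⟨_, rfl⟩)
  have hsum := (convex_convexHull ℝ (QQ : Set (Eu 6))).sum_mem
    (t := (Finset.univ : Finset (Fin 6 × Bool)))
    (w := fun i => max (sg i.2 * x i.1) 0 / 5 + (1 - nrm x / 5) / 12)
    (z := fun i => qp (Sum.inl i)) ?_ ?_ (fun i _ => hpt i)
  · convert hsum using 1
    ext k
    simp only [Fintype.sum_prod_type, Fintype.sum_bool]
    simp only [WithLp.ofLp_sum, WithLp.ofLp_add, WithLp.ofLp_smul, Finset.sum_apply, Pi.add_apply, Pi.smul_apply, qp, toE_apply, qZ, sg, smul_eq_mul]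
    rw [Finset.sum_eq_single k]
    · simp
      rcases le_total 0 (x k) with h | h
      · rw [max_eq_left h, max_eq_right (by linarith)]; ring
      · rw [max_eq_right h, max_eq_left (by linarith)]; ring
    · intro b _ hb
      simp [hb.symm]
    · simp
  · intro i _
    have h1 : (0 : ℝ) ≤ max (sg i.2 * x i.1) 0 := le_max_right _ _
    have h2 : 0 ≤ (1 - nrm x / 5) / 12 := by linarith
    positivity
  · rw [Finset.sum_add_distrib]
    simp only [Fintype.sum_prod_type, Fintype.sum_bool]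
    have h1 : ∀ k : Fin 6, max ((sg true : ℝ) * x k) 0 / 5 + max ((sg false : ℝ) * x k) 0 / 5
        = |x k| / 5 := by
      intro k
      simp only [sg, if_true, Int.cast_one, one_mul]
      rcases le_total 0 (x k) with h | h
      · rw [max_eq_left h, max_eq_right (by simp; exact h), abs_of_nonneg h]; ring
      · rw [max_eq_right h, max_eq_left (by simp; exact h), abs_of_nonpos h]; simp
    rw [Finset.sum_congr rfl (fun k _ => h1 k), ← Finset.sum_div]
    simp [nrm]
    ring


lemma exists_other : ∀ x y : Ix, ∃ w, w ≠ x ∧ w ≠ y := by decide +kernel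

lemma q_nonedge (x y : Ix) (hne : x ≠ y) (h : Gam x y = false) :
    ¬ IsExtreme ℝ (convexHull ℝ (QQ : Set (Eu 6))) (segment ℝ (qp x) (qp y)) := by
  intro hext
  obtain ⟨ha, hb, hlt⟩ := check2 x y hne h
  set a : ℝ := ((wt x y).1 : ℝ) with haa
  set b : ℝ := ((wt x y).2 : ℝ) with hbb
  have ha' : 0 < a := by rw [haa]; exact_mod_cast ha
  have hb' : 0 < b := by rw [hbb]; exact_mod_cast hb
  set z : Eu 6 := (a / (a + b)) • qp x + (b / (a + b)) • qp y with hz
  have hzseg : z ∈ segment ℝ (qp x) (qp y) :=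
    ⟨a / (a + b), b / (a + b), by positivity, by positivity, by field_simp, rfl⟩
  have hznrm : nrm z < 5 := by
    have e : z = (1 / (a + b)) • toE (fun k => (wt x y).1 * qZ x k + (wt x y).2 * qZ y k) := by
      ext k
      simp only [hz, qp, WithLp.ofLp_add, WithLp.ofLp_smul, Pi.add_apply, Pi.smul_apply,
        toE_apply, smul_eq_mul]
      push_cast
      rw [← haa, ← hbb]
      field_simp
    rw [e, nrm_smul, nrm_toE, abs_of_pos (by positivity)]
    have h2 : ((nrm6 (fun k => (wt x y).1 * qZ x k + (wt x y).2 * qZ y k) : ℤ) : ℝ)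
        < 5 * (a + b) := by
      rw [haa, hbb]; exact_mod_cast hlt
    rw [one_div, inv_mul_lt_iff₀ (by positivity)]
    linarith
  obtain ⟨w, hwx, hwy⟩ := exists_other x y
  have hnn : ∀ u : Eu 6, 0 ≤ nrm u := fun u => Finset.sum_nonneg (fun k _ => abs_nonneg _)
  set e : ℝ := (5 - nrm z) / (nrm z + nrm (qp w) + 1) with he
  have hden : 0 < nrm z + nrm (qp w) + 1 := by
    have := hnn z
    have := hnn (qp w)
    linarith
  have hepos : 0 < e := div_pos (by linarith) hden
  set z' : Eu 6 := z + e • (z - qp w) with hz'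
  have hz'n : nrm z' ≤ 5 := by
    have h1 := nrm_add z (e • (z - qp w))
    rw [nrm_smul, abs_of_pos hepos] at h1
    have h2 := nrm_add z ((-1 : ℝ) • qp w)
    rw [nrm_smul] at h2
    have h3 : z + (-1 : ℝ) • qp w = z - qp w := by module
    rw [h3] at h2
    simp at h2
    have h4 : e * nrm (z - qp w) ≤ e * (nrm z + nrm (qp w) + 1) := by
      apply mul_le_mul_of_nonneg_left _ hepos.le
      linarith
    have h5 : e * (nrm z + nrm (qp w) + 1) = 5 - nrm z := by
      rw [he]; field_simp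
    rw [← hz'] at h1
    linarith
  have hw : qp w ∈ convexHull ℝ (QQ : Set (Eu 6)) := subset_convexHull ℝ _ (mem_QQ.mpr ⟨_, rfl⟩)
  have hopen : z ∈ openSegment ℝ (qp w) z' := by
    refine ⟨e / (1 + e), 1 / (1 + e), by positivity, by positivity, by field_simp; ring, ?_⟩
    rw [hz']
    have : z = ((1 + e) / (1 + e)) • z := by
      rw [div_self (by positivity), one_smul]
    conv_rhs => rw [this]
    module
  have hmem := hext.left_mem_of_mem_openSegment hw (mem_hull_of_nrm z' hz'n) hzseg hopen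
  have hx : qp x ∈ convexHull ℝ (QQ : Set (Eu 6)) := subset_convexHull ℝ _ (mem_QQ.mpr ⟨_, rfl⟩)
  have hy : qp y ∈ convexHull ℝ (QQ : Set (Eu 6)) := subset_convexHull ℝ _ (mem_QQ.mpr ⟨_, rfl⟩)
  rcases (mem_extremePoints_iff_forall_segment.mp (q_vert w)).2 _ hx _ hy hmem with h1 | h1
  · exact hwx (qp_inj h1).symm
  · exact hwy (qp_inj h1).symm

/-- Integer dot product in dimension five. -/
def dot5 (g z : Fin 5 → ℤ) : ℤ := g 0 * z 0 + g 1 * z 1 + g 2 * z 2 + g 3 * z 3 + g 4 * z 4

lemma fn5 (g : Fin 5 → ℤ) (z : Fin 5 → ℤ) :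
    fn (fun k => (g k : ℝ)) (toE z) = (dot5 g z : ℝ) := by
  rw [fn_apply]
  simp [Fin.sum_univ_five, dot5]

/-- The point of the five-dimensional polytope with index `x`. -/
def pp (x : Fin 6 × Bool) : Eu 5 := toE (pZ x)

lemma pZ_inj : Function.Injective pZ := by
  have : ∀ x y : Fin 6 × Bool, (∀ k, pZ x k = pZ y k) → x = y := by decide +kernel
  intro x y h
  exact this x y (fun k => congrFun h k)

lemma pp_inj : Function.Injective pp := toE_injective.comp pZ_inj

/-- The points spanning the five-dimensional polytope. -/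
noncomputable def PP : Finset (Eu 5) := Finset.univ.image pp

lemma mem_PP {y : Eu 5} : y ∈ (PP : Set (Eu 5)) ↔ ∃ x, pp x = y := by
  simp [PP]

/-- Supporting functional of an edge. -/
def psupp (x y : Fin 6 × Bool) : Fin 5 → ℤ := fun k =>
  if k.1 = x.1.1 then 4 * sg x.2 else if k.1 = y.1.1 then 4 * sg y.2 else - (sg x.2 + sg y.2)

lemma pcheck1 : ∀ x y : Fin 6 × Bool, x.1 ≠ y.1 →
    dot5 (psupp x y) (pZ x) = 4 ∧ dot5 (psupp x y) (pZ y) = 4 := by
  decide +kernel

lemma pcheck2 : ∀ x y z : Fin 6 × Bool, x.1 ≠ y.1 → z ≠ x → z ≠ y →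
    dot5 (psupp x y) (pZ z) < 4 := by
  decide +kernel

lemma p_edge (x y : Fin 6 × Bool) (h : x.1 ≠ y.1) :
    IsExtreme ℝ (convexHull ℝ (PP : Set (Eu 5))) (segment ℝ (pp x) (pp y)) := by
  obtain ⟨h1, h2⟩ := pcheck1 x y h
  apply isExtreme_segment (fn (fun k => (psupp x y k : ℝ))).toLinearMap
    4 (pp x) (pp y) (mem_PP.mpr ⟨x, rfl⟩) (mem_PP.mpr ⟨y, rfl⟩)
  · have : (fn (fun k => (psupp x y k : ℝ))).toLinearMap (pp x) = (dot5 (psupp x y) (pZ x) : ℝ) :=
      fn5 _ _
    rw [this, h1]; norm_num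
  · have : (fn (fun k => (psupp x y k : ℝ))).toLinearMap (pp y) = (dot5 (psupp x y) (pZ y) : ℝ) :=
      fn5 _ _
    rw [this, h2]; norm_num
  · intro w hw hwx hwy
    obtain ⟨z, rfl⟩ := mem_PP.mp hw
    have hzx : z ≠ x := fun e => hwx (by rw [e])
    have hzy : z ≠ y := fun e => hwy (by rw [e])
    have := pcheck2 x y z h hzx hzy
    have e : (fn (fun k => (psupp x y k : ℝ))).toLinearMap (pp z) = (dot5 (psupp x y) (pZ z) : ℝ) :=
      fn5 _ _
    rw [e]
    exact_mod_cast this

/-- Supporting functional of a vertex. -/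
def pvsupp (x : Fin 6 × Bool) : Fin 5 → ℤ := fun k => if k.1 = x.1.1 then 5 * sg x.2 else - sg x.2

lemma pcheck3 : ∀ x z : Fin 6 × Bool, z ≠ x → dot5 (pvsupp x) (pZ z) < dot5 (pvsupp x) (pZ x) := by
  decide +kernel

lemma p_vert (x : Fin 6 × Bool) : pp x ∈ (convexHull ℝ (PP : Set (Eu 5))).extremePoints ℝ := by
  apply mem_extremePoints_hull (fn (fun k => (pvsupp x k : ℝ))).toLinearMap
    (dot5 (pvsupp x) (pZ x) : ℝ) (pp x) (mem_PP.mpr ⟨x, rfl⟩)
  · exact fn5 _ _
  · intro w hw hwx
    obtain ⟨z, rfl⟩ := mem_PP.mp hw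
    have hzx : z ≠ x := fun e => hwx (by rw [e])
    have e : (fn (fun k => (pvsupp x k : ℝ))).toLinearMap (pp z) = (dot5 (pvsupp x) (pZ z) : ℝ) :=
      fn5 _ _
    rw [e]
    exact_mod_cast pcheck3 x z hzx

lemma p_ext_iff (y : Eu 5) :
    y ∈ (convexHull ℝ (PP : Set (Eu 5))).extremePoints ℝ ↔ ∃ x, pp x = y := by
  constructor
  · intro h
    exact mem_PP.mp (extremePoints_convexHull_subset h)
  · rintro ⟨x, rfl⟩
    exact p_vert x

lemma pp_neg (x : Fin 6 × Bool) : pp (x.1, !x.2) = - pp x := by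
  have : ∀ x : Fin 6 × Bool, ∀ k, pZ (x.1, !x.2) k = - pZ x k := by decide +kernel
  ext k
  simp [pp, this x k]

lemma pother : ∀ x : Fin 6 × Bool, ∃ w : Fin 6 × Bool, w ≠ x ∧ w ≠ (x.1, !x.2) := by
  decide +kernel

/-- Antipodal vertices do not span an edge. -/
lemma p_nonedge (x y : Fin 6 × Bool) (hne : x ≠ y) (h : x.1 = y.1) :
    ¬ IsExtreme ℝ (convexHull ℝ (PP : Set (Eu 5))) (segment ℝ (pp x) (pp y)) := by
  intro hext
  have hy : y = (x.1, !x.2) := by
    have : ∀ x y : Fin 6 × Bool, x ≠ y → x.1 = y.1 → y = (x.1, !x.2) := by decide +kernel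
    exact this x y hne h
  subst hy
  obtain ⟨w, hwx, hwy⟩ := pother x
  have hmem : ∀ z, pp z ∈ convexHull ℝ (PP : Set (Eu 5)) :=
    fun z => subset_convexHull ℝ _ (mem_PP.mpr ⟨_, rfl⟩)
  have h0 : (0 : Eu 5) ∈ segment ℝ (pp x) (pp (x.1, !x.2)) := by
    refine ⟨1 / 2, 1 / 2, by norm_num, by norm_num, by norm_num, ?_⟩
    rw [pp_neg]; module
  have h1 : (0 : Eu 5) ∈ openSegment ℝ (pp w) (pp (w.1, !w.2)) := by
    refine ⟨1 / 2, 1 / 2, by norm_num, by norm_num, by norm_num, ?_⟩
    rw [pp_neg]; module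
  have h2 := hext.left_mem_of_mem_openSegment (hmem w) (hmem (w.1, !w.2)) h0 h1
  rcases (mem_extremePoints_iff_forall_segment.mp (p_vert w)).2 _ (hmem x) _ (hmem (x.1, !x.2)) h2
    with h3 | h3
  · exact hwx (pp_inj h3).symm
  · exact hwy (pp_inj h3).symm

/-- The facet with sign vector `j`. -/
def Fj (j : Fin 20) : Set (Eu 5) := convexHull ℝ (Set.range (fun i : Fin 6 => pp (i, bit j i)))

/-- Supporting functional of a facet. -/
def fsupp (j : Fin 20) : Fin 5 → ℤ := fun k => sg (bit j k.castSucc)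

lemma fcheck1 : ∀ (j : Fin 20) (x : Fin 6 × Bool),
    dot5 (fsupp j) (pZ x) ≤ 1 ∧ (dot5 (fsupp j) (pZ x) = 1 ↔ bit j x.1 = x.2) := by
  decide +kernel

lemma fval (j : Fin 20) (x : Fin 6 × Bool) :
    (fn (fun k => (fsupp j k : ℝ))) (pp x) = (dot5 (fsupp j) (pZ x) : ℝ) := fn5 _ _

lemma f_le (j : Fin 20) : ∀ y ∈ (PP : Set (Eu 5)),
    (fn (fun k => (fsupp j k : ℝ))).toLinearMap y ≤ 1 := by
  intro y hy
  obtain ⟨x, rfl⟩ := mem_PP.mp hy
  have := (fcheck1 j x).1
  have e : (fn (fun k => (fsupp j k : ℝ))).toLinearMap (pp x) = (dot5 (fsupp j) (pZ x) : ℝ) :=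
    fn5 _ _
  rw [e]
  exact_mod_cast this

lemma f_range (j : Fin 20) : {y ∈ (PP : Set (Eu 5)) |
    (fn (fun k => (fsupp j k : ℝ))).toLinearMap y = 1} =
    Set.range (fun i : Fin 6 => pp (i, bit j i)) := by
  ext y
  simp only [Set.mem_ofPred_eq, Set.mem_range]
  constructor
  · rintro ⟨hy, hv⟩
    obtain ⟨x, rfl⟩ := mem_PP.mp hy
    have e : (fn (fun k => (fsupp j k : ℝ))).toLinearMap (pp x) = (dot5 (fsupp j) (pZ x) : ℝ) :=
      fn5 _ _
    rw [e] at hv
    have hv' : dot5 (fsupp j) (pZ x) = 1 := by exact_mod_cast hv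
    have := (fcheck1 j x).2.mp hv'
    exact ⟨x.1, by rw [this]⟩
  · rintro ⟨i, rfl⟩
    refine ⟨mem_PP.mpr ⟨_, rfl⟩, ?_⟩
    have e : (fn (fun k => (fsupp j k : ℝ))).toLinearMap (pp (i, bit j i)) =
      (dot5 (fsupp j) (pZ (i, bit j i)) : ℝ) := fn5 _ _
    rw [e, (fcheck1 j (i, bit j i)).2.mpr rfl]
    norm_num

lemma f_sub (j : Fin 20) : Fj j ⊆ convexHull ℝ (PP : Set (Eu 5)) := by
  apply convexHull_mono
  rintro _ ⟨i, rfl⟩
  exact mem_PP.mpr ⟨_, rfl⟩

lemma f_one (j : Fin 20) (x : Eu 5) (hx : x ∈ Fj j) :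
    (fn (fun k => (fsupp j k : ℝ))).toLinearMap x = 1 := by
  apply le_antisymm (le_of_hull _ 1 (f_le j) (f_sub j hx))
  have := le_of_hull (-(fn (fun k => (fsupp j k : ℝ))).toLinearMap) (-1)
    (S := Set.range (fun i : Fin 6 => pp (i, bit j i))) (by
      rintro _ ⟨i, rfl⟩
      have e : (fn (fun k => (fsupp j k : ℝ))).toLinearMap (pp (i, bit j i)) =
        (dot5 (fsupp j) (pZ (i, bit j i)) : ℝ) := fn5 _ _
      rw [LinearMap.neg_apply, e, (fcheck1 j (i, bit j i)).2.mpr rfl]
      norm_num) hx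
  rw [LinearMap.neg_apply] at this
  linarith

lemma f_exposed (j : Fin 20) : IsExposed ℝ (convexHull ℝ (PP : Set (Eu 5))) (Fj j) := by
  intro _
  refine ⟨fn (fun k => (fsupp j k : ℝ)), ?_⟩
  ext x
  simp only [Set.mem_ofPred_eq]
  constructor
  · intro hx
    refine ⟨f_sub j hx, fun y hy => ?_⟩
    have h1 := le_of_hull _ 1 (f_le j) hy
    have h2 := f_one j x hx
    simp only [ContinuousLinearMap.coe_coe] at h1 h2
    rw [h2]; exact h1
  · rintro ⟨hx, hmax⟩
    have h0 : pp (0, bit j 0) ∈ Fj j := subset_convexHull ℝ _ ⟨0, rfl⟩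
    have h1 := hmax _ (f_sub j h0)
    have h2 := f_one j _ h0
    have h3 := le_of_hull _ 1 (f_le j) hx
    simp only [ContinuousLinearMap.coe_coe] at h2 h3
    have h4 : (fn (fun k => (fsupp j k : ℝ))).toLinearMap x = 1 := by
      simp only [ContinuousLinearMap.coe_coe]
      linarith
    have h5 := mem_face _ 1 (f_le j) hx h4
    rw [f_range] at h5
    exact h5

lemma f_mem (j : Fin 20) (x : Fin 6 × Bool) : pp x ∈ Fj j ↔ bit j x.1 = x.2 := by
  constructor
  · intro h
    have h1 := f_one j _ h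
    have e : (fn (fun k => (fsupp j k : ℝ))).toLinearMap (pp x) = (dot5 (fsupp j) (pZ x) : ℝ) :=
      fn5 _ _
    rw [e] at h1
    exact (fcheck1 j x).2.mp (by exact_mod_cast h1)
  · intro h
    apply subset_convexHull ℝ _
    exact ⟨x.1, by show pp (x.1, bit j x.1) = pp x; rw [h]⟩

lemma vectorSpan_hull (S : Set (Eu 5)) : vectorSpan ℝ (convexHull ℝ S) = vectorSpan ℝ S := by
  rw [← direction_affineSpan, affineSpan_convexHull, direction_affineSpan]

lemma f_dim (j : Fin 20) : Module.finrank ℝ (vectorSpan ℝ (Fj j)) = 4 := by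
  unfold Fj
  rw [vectorSpan_hull]
  apply le_antisymm
  · have h0 : pp (0, bit j 0) ∈ Set.range (fun i : Fin 6 => pp (i, bit j i)) := ⟨0, rfl⟩
    have h1 : vectorSpan ℝ (Set.range (fun i : Fin 6 => pp (i, bit j i))) ≤
        LinearMap.ker (fn (fun k => (fsupp j k : ℝ))).toLinearMap := by
      rw [vectorSpan_eq_span_vsub_set_right ℝ h0]
      apply Submodule.span_le.mpr
      rintro _ ⟨_, ⟨i, rfl⟩, rfl⟩
      have e1 := f_one j _ (subset_convexHull ℝ _ ⟨i, rfl⟩)
      have e2 := f_one j _ (subset_convexHull ℝ _ h0)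
      simp only [vsub_eq_sub, SetLike.mem_coe, LinearMap.mem_ker, map_sub]
      simp only at e1 e2
      rw [e1, e2]; norm_num
    have h2 : LinearMap.ker (fn (fun k => (fsupp j k : ℝ))).toLinearMap ≠ ⊤ := by
      intro htop
      have e2 := f_one j _ (subset_convexHull ℝ _ h0)
      rw [LinearMap.ker_eq_top.mp htop] at e2
      simp at e2
    have h3 := Submodule.finrank_lt h2
    rw [finrank_euclideanSpace_fin] at h3
    have h4 := Submodule.finrank_mono h1
    omega
  · have hli : LinearIndependent ℝ (fun i : Fin 5 => pp (i.castSucc, bit j i.castSucc)) := by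
      rw [Fintype.linearIndependent_iff]
      intro c hc k
      have h1 := congrArg (fun f : Eu 5 => f k) hc
      simp only [WithLp.ofLp_sum, WithLp.ofLp_smul, Finset.sum_apply, Pi.smul_apply, pp, toE_apply,
        smul_eq_mul] at h1
      rw [Finset.sum_eq_single k] at h1
      · simp [pZ, sg] at h1
        split_ifs at h1 <;> linarith
      · intro b _ hb
        have e1 : (b : ℕ) ≠ (k : ℕ) := fun h => hb (Fin.ext h)
        have e2 : (b : ℕ) ≠ 5 := by omega
        simp [pZ, e1, e2]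
      · simp
    have h1 := hli.affineIndependent.finrank_vectorSpan (n := 4) (by simp)
    have h2 : vectorSpan ℝ (Set.range (fun i : Fin 5 => pp (i.castSucc, bit j i.castSucc))) ≤
        vectorSpan ℝ (Set.range (fun i : Fin 6 => pp (i, bit j i))) := by
      apply vectorSpan_mono
      rintro _ ⟨i, rfl⟩
      exact ⟨i.castSucc, rfl⟩
    have h3 := Submodule.finrank_mono h2
    omega


lemma bal_index : ∀ b : Fin 6 → Bool, sg (b 0) + sg (b 1) + sg (b 2) + sg (b 3) + sg (b 4)
    + sg (b 5) = 0 → ∃ j, ∀ i, b i = bit j i := by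
  decide +kernel

lemma odd_sum : ∀ (k : Fin 6) (b : Fin 6 → Bool),
    (∑ i ∈ Finset.univ.erase k, sg (b i)) ≠ 0 := by
  decide +kernel

lemma sum_pp : ∑ i : Fin 6, pp (i, true) = 0 := by
  ext k
  simp only [WithLp.ofLp_sum, Finset.sum_apply, pp, toE_apply, WithLp.ofLp_zero, Pi.zero_apply]
  have : ∀ k : Fin 5, ∑ i : Fin 6, pZ (i, true) k = 0 := by decide +kernel
  exact_mod_cast this k

lemma vspan_PP : vectorSpan ℝ (PP : Set (Eu 5)) = ⊤ := by
  rw [eq_top_iff]
  intro x _
  have hx : x = ∑ k : Fin 5, (x k / 2) • (pp (k.castSucc, true) -ᵥ pp (k.castSucc, false)) := by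
    ext m
    simp only [vsub_eq_sub, WithLp.ofLp_sum, WithLp.ofLp_smul, WithLp.ofLp_sub, Finset.sum_apply,
      Pi.smul_apply, Pi.sub_apply, pp, toE_apply, smul_eq_mul]
    rw [Finset.sum_eq_single m]
    · simp [pZ, sg]; ring
    · intro b _ hb
      have e1 : (b : ℕ) ≠ (m : ℕ) := fun h => hb (Fin.ext h)
      have e2 : (b : ℕ) ≠ 5 := by omega
      simp [pZ, e1, e2]
    · simp
  rw [hx]
  apply Submodule.sum_mem
  intro k _
  apply Submodule.smul_mem
  exact vsub_mem_vectorSpan ℝ (mem_PP.mpr ⟨_, rfl⟩) (mem_PP.mpr ⟨_, rfl⟩)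

/-- Every facet is one of the twenty. -/
lemma facet_class (F : Set (Eu 5)) (hexp : IsExposed ℝ (convexHull ℝ (PP : Set (Eu 5))) F)
    (hdim : Module.finrank ℝ (vectorSpan ℝ F) = 4) : ∃ j, Fj j = F := by
  classical
  have hne : F.Nonempty := by
    by_contra h
    rw [Set.not_nonempty_iff_eq_empty] at h
    rw [h, vectorSpan_empty] at hdim
    simp at hdim
  obtain ⟨l, hl⟩ := hexp hne
  obtain ⟨x0, hx0⟩ := hne
  set M := l x0 with hM
  have hx0' : x0 ∈ convexHull ℝ (PP : Set (Eu 5)) ∧ ∀ y ∈ convexHull ℝ (PP : Set (Eu 5)), l y ≤ l x0 := by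
    rw [hl] at hx0; exact hx0
  have hmemP : ∀ z, pp z ∈ convexHull ℝ (PP : Set (Eu 5)) :=
    fun z => subset_convexHull ℝ _ (mem_PP.mpr ⟨_, rfl⟩)
  have hle : ∀ y ∈ (PP : Set (Eu 5)), l.toLinearMap y ≤ M :=
    fun y hy => hx0'.2 y (subset_convexHull ℝ _ hy)
  set A : Set (Eu 5) := {y ∈ (PP : Set (Eu 5)) | l.toLinearMap y = M} with hA
  have hFA : F = convexHull ℝ A := by
    apply Set.Subset.antisymm
    · intro x hx
      have hx' : x ∈ convexHull ℝ (PP : Set (Eu 5)) ∧
          ∀ y ∈ convexHull ℝ (PP : Set (Eu 5)), l y ≤ l x := by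
        rw [hl] at hx; exact hx
      have h1 : l x = M := le_antisymm (hx0'.2 x hx'.1) (hx'.2 x0 hx0'.1)
      exact mem_face l.toLinearMap M hle hx'.1 h1
    · intro x hx
      rw [hl]
      have h1 : x ∈ convexHull ℝ (PP : Set (Eu 5)) := convexHull_mono (fun y hy => hy.1) hx
      refine ⟨h1, fun y hy => ?_⟩
      have h2 : -(l x) ≤ -M := by
        have := le_of_hull (-l.toLinearMap) (-M) (S := A) (by
          intro y hy
          rw [LinearMap.neg_apply, hy.2]) hx
        simpa using this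
      have h3 : l y ≤ M := le_of_hull l.toLinearMap M hle hy
      linarith
  -- values on the six basic points
  set g : Fin 6 → ℝ := fun i => l (pp (i, true)) with hg
  have hgsum : ∑ i, g i = 0 := by
    rw [hg, ← map_sum, sum_pp, map_zero]
  have hlv : ∀ x : Fin 6 × Bool, l (pp x) = (sg x.2 : ℝ) * g x.1 := by
    rintro ⟨i, a⟩
    cases a
    · have h1 : pp (i, false) = - pp (i, true) := pp_neg (i, true)
      rw [h1, map_neg]
      simp [sg, hg]
    · simp [sg, hg]
  have hgle : ∀ i, |g i| ≤ M := by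
    intro i
    rw [abs_le']
    constructor
    · exact hle _ (mem_PP.mpr ⟨(i, true), rfl⟩)
    · have := hle _ (mem_PP.mpr ⟨(i, false), rfl⟩)
      simp only [ContinuousLinearMap.coe_coe] at this
      rw [hlv] at this
      simpa [sg] using this
  have hM0 : 0 ≤ M := (abs_nonneg _).trans (hgle 0)
  have hspan : vectorSpan ℝ F = vectorSpan ℝ A := by rw [hFA, vectorSpan_hull]
  have hMpos : 0 < M := by
    rcases hM0.eq_or_lt with h | h
    · exfalso
      have hAP : A = (PP : Set (Eu 5)) := by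
        ext y
        simp only [hA, Set.mem_ofPred_eq, and_iff_left_iff_imp]
        intro hy
        obtain ⟨x, rfl⟩ := mem_PP.mp hy
        have h1 := hgle x.1
        rw [← h] at h1
        have h2 : g x.1 = 0 := abs_eq_zero.mp (le_antisymm h1 (abs_nonneg _))
        simp only [ContinuousLinearMap.coe_coe]
        rw [hlv, h2, mul_zero, ← h]
      rw [hspan, hAP, vspan_PP, finrank_top, finrank_euclideanSpace_fin] at hdim
      omega
    · exact h
  set b : Fin 6 → Bool := fun i => decide (0 < g i) with hb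
  set s : Finset (Fin 6) := Finset.univ.filter (fun i => |g i| = M) with hs
  have hsgn : ∀ i, |g i| = M → g i = (sg (b i) : ℝ) * M := by
    intro i hi
    by_cases hpos : 0 < g i
    · rw [abs_of_pos hpos] at hi
      have hbi : b i = true := by simp [hb, hpos]
      rw [hbi, hi]; simp [sg]
    · rw [abs_of_nonpos (not_lt.mp hpos)] at hi
      have hbi : b i = false := by simp only [hb, decide_eq_false_iff_not]; exact hpos
      rw [hbi]; simp only [sg]; push_cast; simp; linarith
  have hsq : ∀ i, (sg (b i) : ℝ) * sg (b i) = 1 := by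
    intro i
    cases b i <;> simp [sg]
  have hAim : A ⊆ ((s.image (fun i => pp (i, b i)) : Finset (Eu 5)) : Set (Eu 5)) := by
    rintro y ⟨hy, hyM⟩
    obtain ⟨⟨i, a⟩, rfl⟩ := mem_PP.mp hy
    simp only [ContinuousLinearMap.coe_coe] at hyM
    rw [hlv] at hyM
    have h1 : |g i| = M := by
      have := congrArg abs hyM
      rw [abs_mul, abs_of_pos hMpos] at this
      cases a <;> simpa [sg] using this
    have h2 : b i = a := by
      cases a
      · simp [sg] at hyM
        simp only [hb, decide_eq_false_iff_not, not_lt]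
        linarith
      · simp [sg] at hyM
        simp only [hb, decide_eq_true_eq]
        linarith
    simp only [Finset.coe_image, Set.mem_image, Finset.mem_coe]
    exact ⟨i, by simp [hs, h1], by rw [h2]⟩
  have hcard : 5 ≤ s.card := by
    by_contra hcon
    push Not at hcon
    have hsne : s.Nonempty := by
      rw [Finset.nonempty_iff_ne_empty]
      intro he
      have : A ⊆ ∅ := by
        intro y hy
        have := hAim hy
        rw [he] at this
        simp at this
      have hAe : A = ∅ := Set.subset_empty_iff.mp this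
      rw [hspan, hAe, vectorSpan_empty] at hdim
      simp at hdim
    have hpos := Finset.card_pos.mpr hsne
    have h1 := finrank_vectorSpan_image_finset_le ℝ (fun i => pp (i, b i)) s
      (n := s.card - 1) (by omega)
    have h2 := Submodule.finrank_mono (vectorSpan_mono ℝ hAim)
    rw [hspan] at hdim
    omega
  have hall : ∀ i, |g i| = M := by
    by_contra hcon
    push Not at hcon
    obtain ⟨k, hk⟩ := hcon
    have hks : k ∉ s := by simp [hs, hk]
    have hse : s = Finset.univ.erase k := by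
      apply Finset.eq_of_subset_of_card_le
      · intro i hi
        rw [Finset.mem_erase]
        exact ⟨fun h => hks (h ▸ hi), Finset.mem_univ _⟩
      · rw [Finset.card_erase_of_mem (Finset.mem_univ _)]
        simpa using hcard
    have h1 : ∑ i ∈ Finset.univ.erase k, g i + g k = 0 := by
      rw [Finset.sum_erase_add _ _ (Finset.mem_univ k)]; exact hgsum
    have h2 : ∑ i ∈ Finset.univ.erase k, g i =
        ((∑ i ∈ Finset.univ.erase k, sg (b i) : ℤ) : ℝ) * M := by
      push_cast
      rw [Finset.sum_mul]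
      apply Finset.sum_congr rfl
      intro i hi
      rw [← hse] at hi
      exact hsgn i (by simpa [hs] using hi)
    have h3 := odd_sum k b
    have h4 : (1 : ℝ) ≤ |((∑ i ∈ Finset.univ.erase k, sg (b i) : ℤ) : ℝ)| := by
      exact_mod_cast Int.one_le_abs h3
    have h5 : g k = - (((∑ i ∈ Finset.univ.erase k, sg (b i) : ℤ) : ℝ) * M) := by linarith
    have h6 : M ≤ |g k| := by
      rw [h5, abs_neg, abs_mul, abs_of_pos hMpos]
      nlinarith
    exact hk (le_antisymm (hgle k) h6)
  have hbal : sg (b 0) + sg (b 1) + sg (b 2) + sg (b 3) + sg (b 4) + sg (b 5) = 0 := by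
    have h1 : (∑ i, (sg (b i) : ℝ) * M) = 0 := by
      rw [← hgsum]
      exact Finset.sum_congr rfl (fun i _ => (hsgn i (hall i)).symm)
    rw [← Finset.sum_mul] at h1
    have h2 : (∑ i, (sg (b i) : ℝ)) = 0 := (mul_eq_zero.mp h1).resolve_right hMpos.ne'
    rw [Fin.sum_univ_six] at h2
    exact_mod_cast h2
  obtain ⟨j, hj⟩ := bal_index b hbal
  refine ⟨j, ?_⟩
  rw [hFA]
  unfold Fj
  congr 1
  ext y
  constructor
  · rintro ⟨i, rfl⟩
    refine ⟨mem_PP.mpr ⟨_, rfl⟩, ?_⟩
    simp only [ContinuousLinearMap.coe_coe]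
    rw [hlv, hsgn i (hall i), ← hj i, ← mul_assoc, hsq, one_mul]
  · intro hy
    have := hAim hy
    simp only [Finset.coe_image, Set.mem_image, Finset.mem_coe] at this
    obtain ⟨i, _, hi⟩ := this
    exact ⟨i, by rw [← hi, hj i]⟩


lemma vspan_QQ : vectorSpan ℝ (QQ : Set (Eu 6)) = ⊤ := by
  rw [eq_top_iff]
  intro x _
  have hx : x = ∑ k : Fin 6, (x k / 10) • (qp (Sum.inl (k, true)) -ᵥ qp (Sum.inl (k, false))) := by
    ext m
    simp only [vsub_eq_sub, WithLp.ofLp_sum, WithLp.ofLp_smul, WithLp.ofLp_sub, Finset.sum_apply,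
      Pi.smul_apply, Pi.sub_apply, qp, toE_apply, smul_eq_mul]
    rw [Finset.sum_eq_single m]
    · simp [qZ, sg]; ring
    · intro b _ hb
      simp [qZ, hb.symm]
    · simp
  rw [hx]
  apply Submodule.sum_mem
  intro k _
  apply Submodule.smul_mem
  exact vsub_mem_vectorSpan ℝ (mem_QQ.mpr ⟨_, rfl⟩) (mem_QQ.mpr ⟨_, rfl⟩)

lemma aspan_PP : affineSpan ℝ (PP : Set (Eu 5)) = ⊤ := by
  rw [AffineSubspace.affineSpan_eq_top_iff_vectorSpan_eq_top_of_nonempty ℝ _ _
    ⟨pp (0, true), mem_PP.mpr ⟨_, rfl⟩⟩]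
  exact vspan_PP

lemma aspan_QQ : affineSpan ℝ (QQ : Set (Eu 6)) = ⊤ := by
  rw [AffineSubspace.affineSpan_eq_top_iff_vectorSpan_eq_top_of_nonempty ℝ _ _
    ⟨qp (Sum.inl (0, true)), mem_QQ.mpr ⟨_, rfl⟩⟩]
  exact vspan_QQ

lemma Gam_symm : ∀ x y : Ix, Gam x y = Gam y x := by decide +kernel

lemma Gam_irrefl : ∀ x : Ix, Gam x x = false := by decide +kernel

/-- Vertices of the five-dimensional polytope. -/
noncomputable def e1 : Fin 6 × Bool ≃
    ↥(Set.extremePoints ℝ (convexHull ℝ (PP : Set (EuclideanSpace ℝ (Fin 5))))) :=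
  Equiv.ofBijective (fun x => ⟨pp x, p_vert x⟩) ⟨fun x y h => pp_inj (Subtype.ext_iff.mp h), by
    rintro ⟨y, hy⟩
    obtain ⟨x, hx⟩ := (p_ext_iff y).mp hy
    exact ⟨x, Subtype.ext hx⟩⟩

/-- Facets of the five-dimensional polytope. -/
noncomputable def e2 : Fin 20 ≃ {F : Set (EuclideanSpace ℝ (Fin 5)) //
    IsExposed ℝ (convexHull ℝ (PP : Set (EuclideanSpace ℝ (Fin 5)))) F ∧
      Module.finrank ℝ (vectorSpan ℝ F) = 4} :=
  Equiv.ofBijective (fun j => ⟨Fj j, f_exposed j, f_dim j⟩) ⟨by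
    intro j j' h
    have h1 : Fj j = Fj j' := Subtype.ext_iff.mp h
    have h2 : ∀ i, bit j' i = bit j i := by
      intro i
      have := (f_mem j (i, bit j i)).mpr rfl
      rw [h1] at this
      exact (f_mem j' (i, bit j i)).mp this
    have h3 : ∀ j j' : Fin 20, (∀ i, bit j' i = bit j i) → j = j' := by decide +kernel
    exact h3 j j' h2, by
    rintro ⟨F, hF1, hF2⟩
    obtain ⟨j, hj⟩ := facet_class F hF1 hF2
    exact ⟨j, Subtype.ext hj⟩⟩

/-- Vertices of the six-dimensional polytope. -/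
noncomputable def e3 : Ix ≃
    ↥(Set.extremePoints ℝ (convexHull ℝ (QQ : Set (EuclideanSpace ℝ (Fin 6))))) :=
  Equiv.ofBijective (fun x => ⟨qp x, q_vert x⟩) ⟨fun x y h => qp_inj (Subtype.ext_iff.mp h), by
    rintro ⟨y, hy⟩
    obtain ⟨x, hx⟩ := (q_ext_iff y).mp hy
    exact ⟨x, Subtype.ext hx⟩⟩

/-- The edge relation of the six-dimensional polytope. -/
lemma q_adj (x y : Ix) (hne : x ≠ y) :
    IsExtreme ℝ (convexHull ℝ (QQ : Set (Eu 6))) (segment ℝ (qp x) (qp y)) ↔ Gam x y = true := by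
  constructor
  · intro h
    by_contra hg
    rw [Bool.not_eq_true] at hg
    exact q_nonedge x y hne hg h
  · exact q_edge x y

/-- The edge relation of the five-dimensional polytope. -/
lemma p_adj (x y : Fin 6 × Bool) (hne : x ≠ y) :
    IsExtreme ℝ (convexHull ℝ (PP : Set (Eu 5))) (segment ℝ (pp x) (pp y)) ↔ x.1 ≠ y.1 := by
  constructor
  · intro h hg
    exact p_nonedge x y hne hg h
  · exact p_edge x y

/-- The negation of the preceding statement: For every 5-polytope P, if the graph of its Kleetope (P's graph plus one new vertex per facet joined to that facet's vertices) is isomorphic to the graph of some d'-dimensional polytope, then d' = 5. -/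
theorem result :
    ¬ (∀ P : Finset (EuclideanSpace ℝ (Fin 5)),
      affineSpan ℝ (P : Set (EuclideanSpace ℝ (Fin 5))) = ⊤ →
      ∀ d' : ℕ, ∀ Q : Finset (EuclideanSpace ℝ (Fin d')),
        affineSpan ℝ (Q : Set (EuclideanSpace ℝ (Fin d'))) = ⊤ →
        Nonempty
          (SimpleGraph.fromRel
              (fun a b :
                  (↥(Set.extremePoints ℝ (convexHull ℝ (P : Set (EuclideanSpace ℝ (Fin 5))))))
                    ⊕ {F : Set (EuclideanSpace ℝ (Fin 5)) //
                        IsExposed ℝ (convexHull ℝ (P : Set (EuclideanSpace ℝ (Fin 5)))) F ∧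
                          Module.finrank ℝ (vectorSpan ℝ F) = 4} =>
                (∃ u v, a = Sum.inl u ∧ b = Sum.inl v ∧
                    IsExtreme ℝ (convexHull ℝ (P : Set (EuclideanSpace ℝ (Fin 5))))
                      (segment ℝ (u : EuclideanSpace ℝ (Fin 5)) (v : EuclideanSpace ℝ (Fin 5)))) ∨
                (∃ u F, a = Sum.inl u ∧ b = Sum.inr F ∧
                    (u : EuclideanSpace ℝ (Fin 5)) ∈ F.1))
            ≃g SimpleGraph.fromRel
              (fun x y :
                  ↥(Set.extremePoints ℝ (convexHull ℝ (Q : Set (EuclideanSpace ℝ (Fin d'))))) =>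
                IsExtreme ℝ (convexHull ℝ (Q : Set (EuclideanSpace ℝ (Fin d'))))
                  (segment ℝ (x : EuclideanSpace ℝ (Fin d')) (y : EuclideanSpace ℝ (Fin d'))))) →
        d' = 5) := by
  intro H
  have h := H PP aspan_PP 6 QQ aspan_QQ ⟨?_⟩
  · exact absurd h (by norm_num)
  refine ⟨(Equiv.sumCongr e1 e2).symm.trans e3, ?_⟩
  intro a b
  obtain ⟨x, rfl⟩ := (Equiv.sumCongr e1 e2).surjective a
  obtain ⟨y, rfl⟩ := (Equiv.sumCongr e1 e2).surjective b
  simp only [Equiv.trans_apply, Equiv.symm_apply_apply]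
  rw [SimpleGraph.fromRel_adj, SimpleGraph.fromRel_adj]
  have hne : (e3 x ≠ e3 y) ↔ ((Equiv.sumCongr e1 e2) x ≠ (Equiv.sumCongr e1 e2) y) := by
    simp only [ne_eq, EmbeddingLike.apply_eq_iff_eq]
  rw [hne]
  refine and_congr_right (fun hxy => ?_)
  have hxy' : x ≠ y := fun e => hxy (by rw [e])
  have hr1 : (IsExtreme ℝ (convexHull ℝ (QQ : Set (Eu 6))) (segment ℝ (qp x) (qp y)) ∨
      IsExtreme ℝ (convexHull ℝ (QQ : Set (Eu 6))) (segment ℝ (qp y) (qp x))) ↔
      Gam x y = true := by
    rw [q_adj x y hxy', q_adj y x hxy'.symm, Gam_symm y x, or_self]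
  refine hr1.trans ?_
  rcases x with x | x <;> rcases y with y | y
  · -- two old vertices
    have hxy2 : x ≠ y := fun e => hxy' (by rw [e])
    constructor
    · intro hg
      have hg' : x.1 ≠ y.1 := by simpa [Gam] using hg
      exact Or.inl (Or.inl ⟨e1 x, e1 y, rfl, rfl, p_edge x y hg'⟩)
    · intro hg
      have hg' : x.1 ≠ y.1 := by
        rcases hg with (⟨u, v, hu, hv, hs⟩ | ⟨u, F, hu, hv, hs⟩) |
          (⟨u, v, hu, hv, hs⟩ | ⟨u, F, hu, hv, hs⟩)
        · have e1' : e1 x = u := Sum.inl_injective hu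
          have e2' : e1 y = v := Sum.inl_injective hv
          subst e1'; subst e2'
          exact (p_adj x y hxy2).mp hs
        · exact absurd hv (by simp)
        · have e1' : e1 y = u := Sum.inl_injective hu
          have e2' : e1 x = v := Sum.inl_injective hv
          subst e1'; subst e2'
          exact ((p_adj y x hxy2.symm).mp hs).symm
        · exact absurd hv (by simp)
      simpa [Gam] using hg'
  · -- old vertex, facet
    constructor
    · intro hg
      have hg' : bit y x.1 = x.2 := by simpa [Gam] using hg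
      exact Or.inl (Or.inr ⟨e1 x, e2 y, rfl, rfl, (f_mem y x).mpr hg'⟩)
    · intro hg
      have hg' : bit y x.1 = x.2 := by
        rcases hg with (⟨u, v, hu, hv, hs⟩ | ⟨u, F, hu, hv, hs⟩) |
          (⟨u, v, hu, hv, hs⟩ | ⟨u, F, hu, hv, hs⟩)
        · exact absurd hv (by simp)
        · have e1' : e1 x = u := Sum.inl_injective hu
          have e2' : e2 y = F := Sum.inr_injective hv
          subst e1'; subst e2'
          exact (f_mem y x).mp hs
        · exact absurd hu (by simp)
        · exact absurd hu (by simp)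
      simpa [Gam] using hg'
  · -- facet, old vertex
    constructor
    · intro hg
      have hg' : bit x y.1 = y.2 := by simpa [Gam] using hg
      exact Or.inr (Or.inr ⟨e1 y, e2 x, rfl, rfl, (f_mem x y).mpr hg'⟩)
    · intro hg
      have hg' : bit x y.1 = y.2 := by
        rcases hg with (⟨u, v, hu, hv, hs⟩ | ⟨u, F, hu, hv, hs⟩) |
          (⟨u, v, hu, hv, hs⟩ | ⟨u, F, hu, hv, hs⟩)
        · exact absurd hu (by simp)
        · exact absurd hu (by simp)
        · exact absurd hv (by simp)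
        · have e1' : e1 y = u := Sum.inl_injective hu
          have e2' : e2 x = F := Sum.inr_injective hv
          subst e1'; subst e2'
          exact (f_mem x y).mp hs
      simpa [Gam] using hg'
  · -- two facets
    constructor
    · intro hg
      exact absurd hg (by simp [Gam])
    · rintro ((⟨u, v, hu, hv, hs⟩ | ⟨u, F, hu, hv, hs⟩) |
          (⟨u, v, hu, hv, hs⟩ | ⟨u, F, hu, hv, hs⟩))
      · exact absurd hu (by simp)
      · exact absurd hu (by simp)
      · exact absurd hu (by simp)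
      · exact absurd hu (by simp)

end Pool.Agent.S07218
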