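import Pool.Statements.S07236
import Pool.Agent.Helper755.PrimMain

set_option autoImplicit false
open Pool Pool.MP_c7798c_co

namespace Pool.Agent.S07236

/-- The negation of the preceding statement: There is ε>0 such that for all large n, in the primitive-set saturation game on {2..n} with Prolonger moving first, Prolonger can force the final claimed set to have size at least εn. -/
theorem result :
    ¬ (∃ ε : ℝ, 0 < ε ∧ ∃ N : ℕ, ∀ n : ℕ, N ≤ n →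
      ∃ W : Finset ℕ → Prop, W ∅ ∧
        ∀ S : Finset ℕ, W S →
          ((∀ x ∈ Finset.Icc 2 n, ∃ y ∈ S, x ∣ y ∨ y ∣ x) →
              ε * (n : ℝ) ≤ (S.card : ℝ)) ∧
          (Even S.card →
              (∃ x ∈ Finset.Icc 2 n, ∀ y ∈ S, ¬ x ∣ y ∧ ¬ y ∣ x) →
              ∃ x ∈ Finset.Icc 2 n, (∀ y ∈ S, ¬ x ∣ y ∧ ¬ y ∣ x) ∧ W (insert x S)) ∧
          (¬ Even S.card →
              ∀ x ∈ Finset.Icc 2 n, (∀ y ∈ S, ¬ x ∣ y ∧ ¬ y ∣ x) → W (insert x S))) := by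
  rintro ⟨ε, hε, N, hN⟩
  refine Pool.Agent.Helper755.PrimMain.core ε hε N ?_
  intro n hn
  obtain ⟨W, hW0, hW⟩ := hN n hn
  refine ⟨W, ⟨hW0, ?_, ?_⟩, ?_⟩
  · intro S hS he hx
    obtain ⟨x, hx1, hx2⟩ := hx
    obtain ⟨z, hz1, hz2, hz3⟩ := (hW S hS).2.1 he ⟨x, hx1, hx2⟩
    exact ⟨z, ⟨hz1, hz2⟩, hz3⟩
  · intro S hS ho x hx
    exact (hW S hS).2.2 ho x hx.1 hx.2
  · intro S hS hT
    exact (hW S hS).1 hT

end Pool.Agent.S07236
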