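import Pool.Statements.S07259
import Pool.Agent.Helper279.Sau

set_option autoImplicit false
open Pointwise MeasureTheory
open Pool Pool.MP_c8b24c_co

namespace Pool.Agent.S07259

/-- There is an absolute γ>0 so that for all d≥3, convex bodies K, finite translative packings and 0<ϱ<γ: V(C_n+ϱK) ≥ (n−1)V(Z(K))ϱ^(d−1)+V(K)ϱ^d, with equality iff C_n is a segment parallel to a minimal cylinder's generator s, of length (n−1)∣s∣. -/
theorem result :
    ∃ γ : ℝ, 0 < γ ∧
    ∀ d : ℕ, 3 ≤ d →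
    ∀ K : Set (EuclideanSpace ℝ (Fin d)),
      IsCompact K → Convex ℝ K → (interior K).Nonempty →
    ∀ Z : ℝ,
      Z = sInf {r : ℝ | ∃ (A : Set (EuclideanSpace ℝ (Fin d))) (p q : EuclideanSpace ℝ (Fin d)),
        IsCompact A ∧ Convex ℝ A ∧ Module.finrank ℝ (vectorSpan ℝ A) = d - 1 ∧
        K ⊆ A + segment ℝ p q ∧ r = (volume (A + segment ℝ p q)).toReal} →
    ∀ n : ℕ, 1 ≤ n →
    ∀ x : Fin n → EuclideanSpace ℝ (Fin d),
      (∀ i j : Fin n, i ≠ j → Disjoint (interior (x i +ᵥ K)) (interior (x j +ᵥ K))) →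
    ∀ ϱ : ℝ, 0 < ϱ → ϱ < γ →
      ((n : ℝ) - 1) * Z * ϱ ^ (d - 1) + (volume K).toReal * ϱ ^ d
          ≤ (volume (convexHull ℝ (Set.range x) + ϱ • K)).toReal ∧
      ((volume (convexHull ℝ (Set.range x) + ϱ • K)).toReal
          = ((n : ℝ) - 1) * Z * ϱ ^ (d - 1) + (volume K).toReal * ϱ ^ d ↔
        ∃ (A : Set (EuclideanSpace ℝ (Fin d))) (p q : EuclideanSpace ℝ (Fin d)),
          IsCompact A ∧ Convex ℝ A ∧ Module.finrank ℝ (vectorSpan ℝ A) = d - 1 ∧
          K ⊆ A + segment ℝ p q ∧ (volume (A + segment ℝ p q)).toReal = Z ∧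
          ∃ b : EuclideanSpace ℝ (Fin d),
            convexHull ℝ (Set.range x) = segment ℝ b (b + ((n : ℝ) - 1) • (q - p))) := by
  refine ⟨1 / 1024, by norm_num, ?_⟩
  intro d hd K hK hc hi Z hZ n hn x hx r hr hr'
  have hfin : Module.finrank ℝ (EuclideanSpace ℝ (Fin d)) = d := finrank_euclideanSpace_fin
  have hZ' : Z = sInf (Pool.Agent.Helper279.Sau.cylSet volume K) := by
    rw [hZ]
    unfold Pool.Agent.Helper279.Sau.cylSet
    rw [hfin]
    rfl
  have h := Pool.Agent.Helper279.Sau.final (volume : Measure (EuclideanSpace ℝ (Fin d))) hK hc hi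
    (by rw [hfin]; omega) hZ' hn x hx hr hr'
  rw [hfin] at h
  exact h

end Pool.Agent.S07259
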