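import Pool.Statements.S07277

set_option autoImplicit false
open Pool Pool.MP_ca0c4d_co

namespace Pool.Agent.S07277

open Finset

/-- indicator of `x < y` -/
def lt1 {m : ℕ} (x y : Fin m) : ℕ := if x < y then 1 else 0

/-- indicator of `x = last` -/
def isl {m : ℕ} (x : Fin (m + 1)) : ℤ := if x = Fin.last m then 1 else 0

/-- Number of descents of a word. -/
def des {N m : ℕ} (f : Fin (N + 1) → Fin m) : ℕ :=
  ∑ i : Fin N, lt1 (f i.succ) (f i.castSucc)

/-- Number of cyclic descents of a word. -/
def cdes {N m : ℕ} (f : Fin (N + 1) → Fin m) : ℕ :=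
  ∑ i : Fin (N + 1), lt1 (f (i + 1)) (f i)

lemma cdes_eq {N m : ℕ} (f : Fin (N + 1) → Fin m) :
    cdes f = des f + lt1 (f (Fin.last N + 1)) (f (Fin.last N)) := by
  unfold cdes des
  rw [Fin.sum_univ_castSucc]
  congr 1
  apply Finset.sum_congr rfl
  intro i _
  rw [Fin.coeSucc_eq_succ]

/-- rotation of positions -/
def rot {N m : ℕ} (r : Fin (N + 1)) (f : Fin (N + 1) → Fin m) : Fin (N + 1) → Fin m :=
  fun i => f (i + r)

lemma cdes_rot {N m : ℕ} (r : Fin (N + 1)) (f : Fin (N + 1) → Fin m) : cdes (rot r f) = cdes f := by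
  unfold cdes rot
  have := Equiv.sum_comp (Equiv.addRight r) (fun i : Fin (N + 1) => lt1 (f (i + 1)) (f i))
  rw [← this]
  apply Finset.sum_congr rfl
  intro i _
  simp only [Equiv.coe_addRight]
  rw [add_right_comm]

lemma des_rot {N m : ℕ} (r : Fin (N + 1)) (f : Fin (N + 1) → Fin m) :
    cdes f = des (rot r f) + lt1 (f (Fin.last N + r + 1)) (f (Fin.last N + r)) := by
  rw [← cdes_rot r f, cdes_eq]
  simp only [rot]
  rw [add_right_comm]

lemma sum_rot {R : Type*} [CommRing R] {N m : ℕ} (z : R) (f : Fin (N + 1) → Fin m) :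
    ∑ r : Fin (N + 1), z ^ des (rot r f) =
      (cdes f : R) * z ^ (cdes f - 1) + ((N + 1 : ℕ) - (cdes f : R)) * z ^ (cdes f) := by
  have h1 : ∀ r : Fin (N + 1), z ^ des (rot r f) =
      z ^ (cdes f) + ((lt1 (f (Fin.last N + r + 1)) (f (Fin.last N + r)) : ℕ) : R) *
        (z ^ (cdes f - 1) - z ^ (cdes f)) := by
    intro r
    have := des_rot r f
    unfold lt1 at this ⊢
    split_ifs with h
    · rw [if_pos h] at this; rw [this]; simp
    · rw [if_neg h] at this; rw [this]; simp
  rw [Finset.sum_congr rfl (fun s _ => h1 s), Finset.sum_add_distrib, ← Finset.sum_mul,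
    ← Nat.cast_sum]
  have h4 : (∑ r : Fin (N + 1), lt1 (f (Fin.last N + r + 1)) (f (Fin.last N + r))) = cdes f :=
    Equiv.sum_comp (Equiv.addLeft (Fin.last N)) (fun i : Fin (N + 1) => lt1 (f (i + 1)) (f i))
  rw [h4]
  simp only [Finset.sum_const, Finset.card_univ, Fintype.card_fin, nsmul_eq_mul]
  ring

/-- The value shift. -/
def vshift {N m : ℕ} (c : Fin (m + 1)) (f : Fin (N + 1) → Fin (m + 1)) : Fin (N + 1) → Fin (m + 1) :=
  fun i => f i + c

lemma ind_shift {m : ℕ} (a b : Fin (m + 1)) :
    ((lt1 (b + 1) (a + 1) : ℕ) : ℤ) = ((lt1 b a : ℕ) : ℤ) - isl a + isl b := by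
  unfold lt1 isl
  by_cases ha : a = Fin.last m
  · by_cases hb : b = Fin.last m
    · subst ha; subst hb; simp
    · subst ha
      have : b < Fin.last m := Fin.lt_last_iff_ne_last.2 hb
      simp [hb, this]
  · by_cases hb : b = Fin.last m
    · subst hb
      have h1 : ¬ (Fin.last m < a) := not_lt.2 (Fin.le_last a)
      have h2 : (0 : Fin (m + 1)) < a + 1 := by
        rw [Fin.lt_def, Fin.val_add_one_of_lt (Fin.lt_last_iff_ne_last.2 ha)]
        simp
      simp [ha, h1, h2]
    · have hA : (a + 1).val = a.val + 1 := Fin.val_add_one_of_lt (Fin.lt_last_iff_ne_last.2 ha)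
      have hB : (b + 1).val = b.val + 1 := Fin.val_add_one_of_lt (Fin.lt_last_iff_ne_last.2 hb)
      have : (b + 1 < a + 1) ↔ b < a := by
        rw [Fin.lt_def, Fin.lt_def, hA, hB]; omega
      simp [ha, hb, this]

lemma cdes_vshift_one {N m : ℕ} (f : Fin (N + 1) → Fin (m + 1)) : cdes (vshift 1 f) = cdes f := by
  have h : ((cdes (vshift 1 f) : ℕ) : ℤ) = (cdes f : ℤ) := by
    unfold cdes vshift
    push_cast
    rw [Finset.sum_congr rfl (fun i _ => ind_shift (f i) (f (i + 1))), Finset.sum_add_distrib,
      Finset.sum_sub_distrib]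
    have h2 : ∑ i : Fin (N + 1), isl (f (i + 1)) = ∑ i : Fin (N + 1), isl (f i) :=
      Equiv.sum_comp (Equiv.addRight (1 : Fin (N + 1))) (fun i : Fin (N + 1) => isl (f i))
    rw [h2]; ring
  exact_mod_cast h

lemma cdes_vshift {N m : ℕ} (c : Fin (m + 1)) (f : Fin (N + 1) → Fin (m + 1)) :
    cdes (vshift c f) = cdes f := by
  induction c using Fin.induction with
  | zero =>
    have : vshift 0 f = f := by funext i; simp [vshift]
    rw [this]
  | succ c ih =>
    have : vshift c.succ f = vshift 1 (vshift c.castSucc f) := by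
      funext i; simp only [vshift]
      rw [add_assoc, Fin.coeSucc_eq_succ]
    rw [this, cdes_vshift_one, ih]

/-- The number of entries with value less than `k`. -/
def cnt {n m : ℕ} (f : Fin n → Fin m) (k : ℕ) : ℤ :=
  ∑ i : Fin n, if (f i : ℕ) < k then 1 else 0

/-- The parking condition for words with letters in `{0, ..., n}`. -/
def pk {n m : ℕ} (f : Fin n → Fin m) : Prop :=
  ∀ k : ℕ, k ≤ n → k ≤ (Finset.univ.filter (fun i : Fin n => (f i : ℕ) < k)).card

lemma cnt_eq {n m : ℕ} (f : Fin n → Fin m) (k : ℕ) :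
    cnt f k = ((Finset.univ.filter (fun i : Fin n => (f i : ℕ) < k)).card : ℤ) := by
  unfold cnt
  rw [Finset.card_filter]
  push_cast
  rfl

/-- The key function whose unique minimum picks the parking shift. -/
def key {n m : ℕ} (f : Fin n → Fin m) (c : ℕ) : ℤ := ((n : ℤ) + 1) * cnt f c - n * c

lemma cnt_shift1 {n : ℕ} (f : Fin n → Fin (n + 1)) (c : Fin (n + 1)) (k : ℕ)
    (hck : c.val + k ≤ n + 1) :
    cnt (fun i => f i - c) k = cnt f (c.val + k) - cnt f c.val := by
  unfold cnt
  rw [← Finset.sum_sub_distrib]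
  apply Finset.sum_congr rfl
  intro i _
  have hc := c.isLt
  have hf := (f i).isLt
  rcases le_or_gt c (f i) with h | h
  · have e : (f i - c).val = (f i).val - c.val := Fin.sub_val_of_le h
    have h' : c.val ≤ (f i).val := h
    rw [e]
    split_ifs <;> omega
  · have e : (f i - c).val = n + 1 + (f i).val - c.val := Fin.coe_sub_iff_lt.2 h
    have h' : (f i).val < c.val := h
    rw [e]
    split_ifs <;> omega

lemma cnt_shift2 {n : ℕ} (f : Fin n → Fin (n + 1)) (c : Fin (n + 1)) (k : ℕ) (hk : k ≤ n)
    (hck : n + 1 < c.val + k) :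
    cnt (fun i => f i - c) k = n - cnt f c.val + cnt f (c.val + k - (n + 1)) := by
  unfold cnt
  have : (n : ℤ) = ∑ i : Fin n, (1 : ℤ) := by simp
  rw [this, ← Finset.sum_sub_distrib, ← Finset.sum_add_distrib]
  apply Finset.sum_congr rfl
  intro i _
  have hc := c.isLt
  have hf := (f i).isLt
  rcases le_or_gt c (f i) with h | h
  · have e : (f i - c).val = (f i).val - c.val := Fin.sub_val_of_le h
    have h' : c.val ≤ (f i).val := h
    rw [e]
    split_ifs <;> omega
  · have e : (f i - c).val = n + 1 + (f i).val - c.val := Fin.coe_sub_iff_lt.2 h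
    have h' : (f i).val < c.val := h
    rw [e]
    split_ifs <;> omega

lemma cnt_top {n : ℕ} (f : Fin n → Fin (n + 1)) : cnt f (n + 1) = n := by
  unfold cnt
  rw [Finset.sum_congr rfl (fun i _ => if_pos (f i).isLt)]
  simp

lemma cnt_zero {n m : ℕ} (f : Fin n → Fin m) : cnt f 0 = 0 := by
  unfold cnt
  simp

lemma pk_iff_key {n : ℕ} (f : Fin n → Fin (n + 1)) (c : Fin (n + 1)) :
    pk (fun i => f i - c) ↔ ∀ j : ℕ, j ≤ n → key f c.val ≤ key f j := by
  have hpk : pk (fun i => f i - c) ↔ ∀ k : ℕ, k ≤ n → (k : ℤ) ≤ cnt (fun i => f i - c) k := by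
    unfold pk
    constructor
    · intro h k hk
      rw [cnt_eq]
      exact_mod_cast h k hk
    · intro h k hk
      have := h k hk
      rw [cnt_eq] at this
      exact_mod_cast this
  rw [hpk]
  have hc := c.isLt
  constructor
  · intro h j hj
    unfold key
    rcases le_or_gt c.val j with hcj | hcj
    · have h1 := h (j - c.val) (by omega)
      rw [cnt_shift1 f c _ (by omega), Nat.add_sub_cancel' hcj, Nat.cast_sub hcj] at h1
      have : (c.val : ℤ) ≤ j := by exact_mod_cast hcj
      nlinarith
    · have h1 := h (j + (n + 1) - c.val) (by omega)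
      rcases Nat.eq_zero_or_pos j with hj0 | hj0
      · subst hj0
        rw [cnt_shift1 f c _ (by omega)] at h1
        have e1 : c.val + (0 + (n + 1) - c.val) = n + 1 := by omega
        rw [e1, cnt_top] at h1
        have e2 : ((0 + (n + 1) - c.val : ℕ) : ℤ) = (n : ℤ) + 1 - c.val := by omega
        rw [e2] at h1
        rw [cnt_zero]
        have hcn : (c.val : ℤ) ≤ n := by omega
        push_cast
        nlinarith
      · rw [cnt_shift2 f c _ (by omega) (by omega)] at h1
        have e1 : c.val + (j + (n + 1) - c.val) - (n + 1) = j := by omega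
        rw [e1] at h1
        have e2 : ((j + (n + 1) - c.val : ℕ) : ℤ) = (j : ℤ) + ((n : ℤ) + 1) - c.val := by omega
        rw [e2] at h1
        have hcn : (c.val : ℤ) ≤ n := by omega
        have hj' : (0 : ℤ) ≤ j := by omega
        nlinarith
  · intro h k hk
    unfold key at h
    rcases lt_trichotomy (c.val + k) (n + 1) with hlt | heq | hgt
    · rw [cnt_shift1 f c k hlt.le]
      have h1 := h (c.val + k) (by omega)
      by_contra hcon
      push Not at hcon
      push_cast at h1
      have hk' : (k : ℤ) ≤ n := by exact_mod_cast hk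
      nlinarith
    · rw [cnt_shift1 f c k heq.le, heq, cnt_top]
      have h1 := h 0 (Nat.zero_le _)
      rw [cnt_zero] at h1
      by_contra hcon
      push Not at hcon
      push_cast at h1
      have hk' : (k : ℤ) = n + 1 - c.val := by omega
      have hc1 : (1 : ℤ) ≤ c.val := by omega
      nlinarith
    · rw [cnt_shift2 f c k hk hgt]
      have h1 := h (c.val + k - (n + 1)) (by omega)
      by_contra hcon
      push Not at hcon
      have hk' : ((c.val + k - (n + 1) : ℕ) : ℤ) = c.val + k - ((n : ℤ) + 1) := by omega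
      rw [hk'] at h1
      have hk'' : (k : ℤ) ≤ n := by exact_mod_cast hk
      nlinarith

lemma exists_unique_shift {n : ℕ} (f : Fin n → Fin (n + 1)) :
    ∃! c : Fin (n + 1), pk (fun i => f i - c) := by
  obtain ⟨c, -, hc⟩ := Finset.exists_min_image (Finset.univ : Finset (Fin (n + 1)))
    (fun c => key f c.val) ⟨0, Finset.mem_univ _⟩
  refine ⟨c, ?_, ?_⟩
  · show pk (fun i => f i - c)
    rw [pk_iff_key]
    intro j hj
    exact hc ⟨j, by omega⟩ (Finset.mem_univ _)
  · intro d hd
    have hd' : pk (fun i => f i - d) := hd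
    rw [pk_iff_key] at hd'
    have h1 : key f d.val ≤ key f c.val := hd' c.val (by have := c.isLt; omega)
    have h2 : key f c.val ≤ key f d.val := hc d (Finset.mem_univ _)
    have h3 : key f d.val = key f c.val := le_antisymm h1 h2
    unfold key at h3
    have h4 : ((n : ℤ) + 1) * ((cnt f d.val - d.val) - (cnt f c.val - c.val)) = (c.val : ℤ) - d.val := by
      linarith
    have hcl := c.isLt
    have hdl := d.isLt
    set t := (cnt f d.val - d.val) - (cnt f c.val - c.val) with ht
    have ht0 : t = 0 := by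
      rcases lt_trichotomy t 0 with h | h | h
      · exfalso
        have : t ≤ -1 := by omega
        nlinarith
      · exact h
      · exfalso
        have : 1 ≤ t := by omega
        nlinarith
    rw [ht0, mul_zero] at h4
    apply Fin.ext
    omega

open Classical in
/-- The parking words with letters in `{0, ..., n}`, where `n = N + 1`. -/
noncomputable def T (N : ℕ) : Finset (Fin (N + 1) → Fin (N + 2)) :=
  Finset.univ.filter (fun f => pk f)

lemma mem_T {N : ℕ} (f : Fin (N + 1) → Fin (N + 2)) : f ∈ T N ↔ pk f := by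
  simp [T]

lemma pk_rot {N m : ℕ} (r : Fin (N + 1)) (f : Fin (N + 1) → Fin m) : pk (rot r f) ↔ pk f := by
  unfold pk
  have : ∀ k : ℕ, (Finset.univ.filter (fun i : Fin (N + 1) => (rot r f i : ℕ) < k)).card =
      (Finset.univ.filter (fun i : Fin (N + 1) => (f i : ℕ) < k)).card := by
    intro k
    rw [Finset.card_filter, Finset.card_filter]
    exact Equiv.sum_comp (Equiv.addRight r) (fun i : Fin (N + 1) => if (f i : ℕ) < k then 1 else 0)
  constructor
  · intro h k hk; rw [← this k]; exact h k hk
  · intro h k hk; rw [this k]; exact h k hk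

lemma rot_rot {N m : ℕ} (r s : Fin (N + 1)) (f : Fin (N + 1) → Fin m) :
    rot r (rot s f) = rot (r + s) f := by
  funext i; simp only [rot]; rw [add_assoc]

lemma rot_zero {N m : ℕ} (f : Fin (N + 1) → Fin m) : rot 0 f = f := by
  funext i; simp only [rot, add_zero]

section sums

variable {R : Type*} [CommRing R] (z : R)

/-- the rotation average as a function of the cyclic descent number -/
def G {N m : ℕ} (z : R) (f : Fin (N + 1) → Fin m) : R :=
  (cdes f : R) * z ^ (cdes f - 1) + ((N + 1 : ℕ) - (cdes f : R)) * z ^ (cdes f)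

lemma sum_des_eq_G {N m : ℕ} (S : Finset (Fin (N + 1) → Fin m))
    (hS : ∀ r f, f ∈ S → rot r f ∈ S) :
    ((N + 1 : ℕ) : R) * ∑ f ∈ S, z ^ des f = ∑ f ∈ S, G z f := by
  have h1 : ∀ f ∈ S, G z f = ∑ r : Fin (N + 1), z ^ des (rot r f) := fun f _ => (sum_rot z f).symm
  rw [Finset.sum_congr rfl h1, Finset.sum_comm]
  have h2 : ∀ r ∈ (Finset.univ : Finset (Fin (N + 1))),
      ∑ f ∈ S, z ^ des (rot r f) = ∑ f ∈ S, z ^ des f := by
    intro r _
    apply Finset.sum_nbij' (fun f => rot r f) (fun f => rot (-r) f)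
    · intro f hf; exact hS r f hf
    · intro f hf; exact hS (-r) f hf
    · intro f _; rw [rot_rot, neg_add_cancel, rot_zero]
    · intro f _; rw [rot_rot, add_neg_cancel, rot_zero]
    · intro f _; rfl
  rw [Finset.sum_congr rfl h2]
  simp

lemma sum_G_all {N : ℕ} :
    ∑ f : Fin (N + 1) → Fin (N + 2), G z f = ((N + 2 : ℕ) : R) * ∑ f ∈ T N, G z f := by
  classical
  have hG : ∀ (c : Fin (N + 2)) (f : Fin (N + 1) → Fin (N + 2)), G z (fun i => f i - c) = G z f := by
    intro c f
    unfold G
    have : (fun i => f i - c) = vshift (-c) f := by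
      funext i; simp only [vshift]; rw [sub_eq_add_neg]
    rw [this, cdes_vshift]
  have h1 : ∀ f : Fin (N + 1) → Fin (N + 2),
      G z f = ∑ c : Fin (N + 2), if pk (fun i => f i - c) then G z f else 0 := by
    intro f
    obtain ⟨c, hc, hu⟩ := exists_unique_shift f
    rw [Finset.sum_eq_single c]
    · rw [if_pos hc]
    · intro d _ hd
      rw [if_neg]
      intro hpk
      exact hd (hu d hpk)
    · intro h; exact absurd (Finset.mem_univ c) h
  rw [Finset.sum_congr rfl (fun f _ => h1 f), Finset.sum_comm]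
  have h2 : ∀ c ∈ (Finset.univ : Finset (Fin (N + 2))),
      (∑ f : Fin (N + 1) → Fin (N + 2), if pk (fun i => f i - c) then G z f else 0) =
        ∑ f ∈ T N, G z f := by
    intro c _
    have h3 : ∀ f : Fin (N + 1) → Fin (N + 2), (if pk (fun i => f i - c) then G z f else 0) =
        (fun g : Fin (N + 1) → Fin (N + 2) => if pk g then G z g else 0) (fun i => f i - c) := by
      intro f
      simp only [hG]
    rw [Finset.sum_congr rfl (fun f _ => h3 f)]
    have h4 := Equiv.sum_comp (Equiv.subRight (fun _ : Fin (N + 1) => c))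
      (fun g : Fin (N + 1) → Fin (N + 2) => if pk g then G z g else 0)
    have h5 : ∀ f : Fin (N + 1) → Fin (N + 2),
        (Equiv.subRight (fun _ : Fin (N + 1) => c)) f = (fun i => f i - c) := by
      intro f; rfl
    simp only [h5] at h4
    rw [h4, T, Finset.sum_filter]
  rw [Finset.sum_congr rfl h2]
  simp

lemma sum_all_eq {N : ℕ} :
    ((N + 1 : ℕ) : R) * ∑ f : Fin (N + 1) → Fin (N + 2), z ^ des f =
      ((N + 1 : ℕ) : R) * (((N + 2 : ℕ) : R) * ∑ f ∈ T N, z ^ des f) := by
  rw [sum_des_eq_G z Finset.univ (fun _ _ _ => Finset.mem_univ _), sum_G_all,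
    mul_left_comm, sum_des_eq_G z (T N)]
  intro r f hf
  rw [mem_T] at hf ⊢
  rwa [pk_rot]

end sums

/-- The refined generating function, by the first letter, of words counted by descents. -/
def P {m : ℕ} (z : ℂ) : ℕ → Fin m → ℂ
  | 0, _ => 1
  | (N + 1), r => ∑ j : Fin m, z ^ lt1 j r * P z N j

lemma des_cons {N m : ℕ} (r : Fin m) (g : Fin (N + 1) → Fin m) :
    des (Fin.cons r g : Fin (N + 2) → Fin m) = lt1 (g 0) r + des g := by
  unfold des
  rw [Fin.sum_univ_succ]
  rfl

lemma sum_words {m : ℕ} (z : ℂ) (N : ℕ) (F : Fin m → ℂ) :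
    ∑ f : Fin (N + 1) → Fin m, F (f 0) * z ^ des f = ∑ r : Fin m, F r * P z N r := by
  induction N generalizing F with
  | zero =>
    rw [← Equiv.sum_comp (Equiv.funUnique (Fin 1) (Fin m)).symm]
    apply Finset.sum_congr rfl
    intro r _
    simp [des, P]
  | succ N ih =>
    rw [← Equiv.sum_comp (Fin.consEquiv (fun _ : Fin (N + 2) => Fin m)), Fintype.sum_prod_type]
    apply Finset.sum_congr rfl
    intro r _
    have h1 : ∀ g : Fin (N + 1) → Fin m,
        F ((Fin.consEquiv (fun _ : Fin (N + 2) => Fin m)) (r, g) 0) *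
          z ^ des ((Fin.consEquiv (fun _ : Fin (N + 2) => Fin m)) (r, g)) =
        F r * (z ^ lt1 (g 0) r * z ^ des g) := by
      intro g
      have e : (Fin.consEquiv (fun _ : Fin (N + 2) => Fin m)) (r, g) = Fin.cons r g := rfl
      rw [e, des_cons, pow_add]
      rfl
    rw [Finset.sum_congr rfl (fun g _ => h1 g), ← Finset.mul_sum, ih (fun j => z ^ lt1 j r)]
    rfl

lemma sum_words_total {m : ℕ} (z : ℂ) (N : ℕ) :
    ∑ f : Fin (N + 1) → Fin (m + 1), z ^ des f = P z (N + 1) (0 : Fin (m + 1)) := by
  have := sum_words (m := m + 1) z N (fun _ => 1)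
  simp only [one_mul] at this
  rw [this]
  show _ = ∑ j : Fin (m + 1), z ^ lt1 j 0 * P z N j
  apply Finset.sum_congr rfl
  intro j _
  simp [lt1]

/-- The oriented area form. -/
noncomputable def w (a b : ℂ) : ℝ := ((starRingEnd ℂ) a * b).im

lemma w_sum {ι κ : Type*} (s : Finset ι) (t : Finset κ) (a : ι → ℂ) (b : κ → ℂ) :
    w (∑ i ∈ s, a i) (∑ j ∈ t, b j) = ∑ i ∈ s, ∑ j ∈ t, w (a i) (b j) := by
  unfold w
  rw [map_sum, Finset.sum_mul_sum, Complex.im_sum]
  apply Finset.sum_congr rfl
  intro i _
  rw [Complex.im_sum]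

lemma w_zero_left (b : ℂ) : w 0 b = 0 := by simp [w]

lemma w_zero_right (a : ℂ) : w a 0 = 0 := by simp [w]

lemma w_self (a : ℂ) : w a a = 0 := by
  simp [w, Complex.mul_im]; ring

lemma w_mul_mul (z a b : ℂ) : w (z * a) (z * b) = Complex.normSq z * w a b := by
  simp only [w, map_mul, Complex.mul_im, Complex.mul_re, Complex.conj_re, Complex.conj_im,
    Complex.normSq_apply]
  ring

lemma w_mul_self (z a : ℂ) : w a (z * a) = Complex.normSq a * z.im := by
  simp only [w, Complex.mul_im, Complex.mul_re, Complex.conj_re, Complex.conj_im,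
    Complex.normSq_apply]
  ring

lemma w_add_left (a b c : ℂ) : w (a + b) c = w a c + w b c := by
  simp [w, add_mul]

lemma w_add_right (a b c : ℂ) : w a (b + c) = w a b + w a c := by
  simp [w, mul_add]

lemma w_anti (a b : ℂ) : w a b = - w b a := by
  simp only [w, Complex.mul_im, Complex.conj_re, Complex.conj_im]
  ring

/-- The invariant: the arguments of `v 0, v 1, ..., z v 0, z v 1, ...` increase slowly. -/
structure Inv {m : ℕ} (z : ℂ) (v : Fin m → ℂ) : Prop where
  one : ∀ i j, i < j → 0 ≤ w (v i) (v j)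
  two : ∀ i j, i < j → 0 ≤ w (v j) (z * v i)
  ne : ∀ i, v i ≠ 0

lemma Inv.step {m : ℕ} {z : ℂ} (hz : 0 < z.im) {v : Fin m → ℂ} (h : Inv z v) :
    Inv z (fun r => ∑ j : Fin m, z ^ lt1 j r * v j) := by
  -- decomposition
  have key : ∀ r s : Fin m, r < s → ∃ A B : ℂ,
      (∑ j : Fin m, z ^ lt1 j r * v j) = A + B ∧ (∑ j : Fin m, z ^ lt1 j s * v j) = B + z * A ∧
      0 ≤ w A B ∧ 0 ≤ w B (z * A) := by
    intro r s hrs
    refine ⟨∑ j : Fin m, if r ≤ j ∧ j < s then v j else 0,
      ∑ j : Fin m, if j < r then z * v j else if s ≤ j then v j else 0, ?_, ?_, ?_, ?_⟩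
    · rw [← Finset.sum_add_distrib]
      apply Finset.sum_congr rfl
      intro j _
      rcases lt_or_ge j r with h1 | h1
      · have h2 : ¬ (r ≤ j) := not_le.2 h1
        simp [lt1, h1, h2]
      · have h2 : ¬ (j < r) := not_lt.2 h1
        rcases lt_or_ge j s with h3 | h3
        · have h4 : ¬ (s ≤ j) := not_le.2 h3
          simp [lt1, h1, h2, h3, h4]
        · have h4 : ¬ (j < s) := not_lt.2 h3
          simp [lt1, h2, h3, h4]
    · rw [Finset.mul_sum, ← Finset.sum_add_distrib]
      apply Finset.sum_congr rfl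
      intro j _
      rcases lt_or_ge j r with h1 | h1
      · have h2 : ¬ (r ≤ j) := not_le.2 h1
        have h3 : j < s := h1.trans hrs
        simp [lt1, h1, h2, h3]
      · have h2 : ¬ (j < r) := not_lt.2 h1
        rcases lt_or_ge j s with h3 | h3
        · have h4 : ¬ (s ≤ j) := not_le.2 h3
          simp [lt1, h1, h2, h3, h4]
        · have h4 : ¬ (j < s) := not_lt.2 h3
          simp [lt1, h2, h3, h4]
    · rw [w_sum]
      apply Finset.sum_nonneg; intro i _
      apply Finset.sum_nonneg; intro j _
      by_cases hi : r ≤ i ∧ i < s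
      · rw [if_pos hi]
        by_cases h1 : j < r
        · rw [if_pos h1]; exact h.two j i (h1.trans_le hi.1)
        · rw [if_neg h1]
          by_cases h2 : s ≤ j
          · rw [if_pos h2]; exact h.one i j (hi.2.trans_le h2)
          · rw [if_neg h2, w_zero_right]
      · rw [if_neg hi, w_zero_left]
    · rw [Finset.mul_sum, w_sum]
      apply Finset.sum_nonneg; intro i _
      apply Finset.sum_nonneg; intro j _
      by_cases hj : r ≤ j ∧ j < s
      · rw [if_pos hj]
        by_cases h1 : i < r
        · rw [if_pos h1, w_mul_mul]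
          exact mul_nonneg (Complex.normSq_nonneg z) (h.one i j (h1.trans_le hj.1))
        · rw [if_neg h1]
          by_cases h2 : s ≤ i
          · rw [if_pos h2]; exact h.two j i (hj.2.trans_le h2)
          · rw [if_neg h2, w_zero_left]
      · rw [if_neg hj, mul_zero, w_zero_right]
  refine ⟨?_, ?_, ?_⟩
  · intro r s hrs
    obtain ⟨A, B, h1, h2, h3, h4⟩ := key r s hrs
    simp only [h1, h2]
    rw [w_add_left, w_add_right, w_add_right, w_self, w_mul_self]
    have := mul_nonneg (Complex.normSq_nonneg A) hz.le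
    linarith
  · intro r s hrs
    obtain ⟨A, B, h1, h2, h3, h4⟩ := key r s hrs
    simp only [h1, h2]
    rw [mul_add, w_add_left, w_add_right, w_add_right, w_self, w_mul_self, w_mul_mul]
    have := mul_nonneg (Complex.normSq_nonneg B) hz.le
    have := mul_nonneg (Complex.normSq_nonneg z) h3
    linarith
  · intro r hr
    have h1 : w (∑ j : Fin m, z ^ lt1 j r * v j) (z * v r) = 0 := by
      have hr' : (∑ j : Fin m, z ^ lt1 j r * v j) = 0 := hr
      rw [hr', w_zero_left]
    have h2 : w (∑ j : Fin m, z ^ lt1 j r * v j) (z * v r) =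
        ∑ j : Fin m, w (z ^ lt1 j r * v j) (z * v r) := by
      have := w_sum (Finset.univ : Finset (Fin m)) ({0} : Finset ℕ) (fun j => z ^ lt1 j r * v j)
        (fun _ => z * v r)
      simpa using this
    have h3 : ∀ j ∈ (Finset.univ : Finset (Fin m)), 0 ≤ w (z ^ lt1 j r * v j) (z * v r) := by
      intro j _
      rcases lt_trichotomy j r with hj | hj | hj
      · have : lt1 j r = 1 := by simp [lt1, hj]
        rw [this, pow_one, w_mul_mul]
        exact mul_nonneg (Complex.normSq_nonneg z) (h.one j r hj)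
      · subst hj
        have : lt1 j j = 0 := by simp [lt1]
        rw [this, pow_zero, one_mul, w_mul_self]
        exact mul_nonneg (Complex.normSq_nonneg _) hz.le
      · have : lt1 j r = 0 := by simp [lt1, not_lt.2 hj.le]
        rw [this, pow_zero, one_mul]
        exact h.two r j hj
    have h4 : w (z ^ lt1 r r * v r) (z * v r) ≤ ∑ j : Fin m, w (z ^ lt1 j r * v j) (z * v r) :=
      Finset.single_le_sum (f := fun j => w (z ^ lt1 j r * v j) (z * v r)) h3 (Finset.mem_univ r)
    have h5 : 0 < w (z ^ lt1 r r * v r) (z * v r) := by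
      have : lt1 r r = 0 := by simp [lt1]
      rw [this, pow_zero, one_mul, w_mul_self]
      exact mul_pos (Complex.normSq_pos.2 (h.ne r)) hz
    linarith

lemma P_inv {m : ℕ} {z : ℂ} (hz : 0 < z.im) (N : ℕ) : Inv z (P (m := m) z N) := by
  induction N with
  | zero =>
    refine ⟨?_, ?_, ?_⟩
    · intro i j _; simp [P, w]
    · intro i j _; simp [P, w]; exact hz.le
    · intro i; simp [P]
  | succ N ih => exact ih.step hz

lemma sum_T_ne {N : ℕ} {z : ℂ} (hz : 0 < z.im) : ∑ f ∈ T N, z ^ des f ≠ 0 := by
  intro h0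
  have h1 := sum_all_eq z (N := N)
  rw [h0, mul_zero, mul_zero, sum_words_total] at h1
  have h2 : P z (N + 1) (0 : Fin (N + 2)) ≠ 0 := (P_inv hz (N + 1)).ne 0
  have h3 : ((N + 1 : ℕ) : ℂ) ≠ 0 := by exact_mod_cast Nat.succ_ne_zero N
  exact (mul_ne_zero h3 h2) h1

lemma des_eq_card {N m : ℕ} (f : Fin (N + 1) → Fin m) :
    ((Finset.univ : Finset (Fin (N + 1) × Fin (N + 1))).filter
      (fun q => q.2.val = q.1.val + 1 ∧ f q.2 < f q.1)).card = des f := by
  have h1 : des f = ((Finset.univ : Finset (Fin N)).filter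
      (fun i => f i.succ < f i.castSucc)).card := by
    rw [Finset.card_filter]; rfl
  rw [h1]
  symm
  apply Finset.card_bij (fun i _ => (i.castSucc, i.succ))
  · intro i hi
    rw [Finset.mem_filter] at hi ⊢
    exact ⟨Finset.mem_univ _, by simp, hi.2⟩
  · intro i _ j _ hij
    have := congrArg Prod.fst hij
    exact Fin.castSucc_injective _ this
  · rintro ⟨a, b⟩ hab
    rw [Finset.mem_filter] at hab
    obtain ⟨-, h2, h3⟩ := hab
    simp only at h2 h3
    have hb := b.isLt
    have ha : a.val < N := by omega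
    refine ⟨⟨a.val, ha⟩, ?_, ?_⟩
    · rw [Finset.mem_filter]
      refine ⟨Finset.mem_univ _, ?_⟩
      have e1 : (⟨a.val, ha⟩ : Fin N).castSucc = a := Fin.ext rfl
      have e2 : (⟨a.val, ha⟩ : Fin N).succ = b := Fin.ext (by simp [h2])
      rw [e1, e2]; exact h3
    · have e1 : (⟨a.val, ha⟩ : Fin N).castSucc = a := Fin.ext rfl
      have e2 : (⟨a.val, ha⟩ : Fin N).succ = b := Fin.ext (by simp [h2])
      rw [e1, e2]

lemma sum_frozen {R : Type*} [CommRing R] (z : R) (N : ℕ) :
    ∑ f ∈ (Finset.univ : Finset (Fin (N + 1) → Fin (N + 1))).filter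
              (fun f => ∀ k : ℕ, k ≤ N + 1 →
                k ≤ (Finset.univ.filter (fun i : Fin (N + 1) => (f i : ℕ) < k)).card),
        z ^ ((Finset.univ : Finset (Fin (N + 1) × Fin (N + 1))).filter
                (fun q => q.2.val = q.1.val + 1 ∧ f q.2 < f q.1)).card
      = ∑ f ∈ T N, z ^ des f := by
  apply Finset.sum_bij (fun f _ => fun i => (f i).castSucc)
  · intro f hf
    rw [Finset.mem_filter] at hf
    rw [mem_T]
    exact hf.2
  · intro f _ g _ hfg
    funext i
    exact Fin.castSucc_injective _ (congrFun hfg i)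
  · intro g hg
    rw [mem_T] at hg
    have hall : ∀ i, (g i).val < N + 1 := by
      have h1 := hg (N + 1) le_rfl
      have h2 : (Finset.univ.filter (fun i : Fin (N + 1) => (g i : ℕ) < N + 1)) = Finset.univ := by
        apply Finset.eq_univ_of_card
        apply le_antisymm
        · exact Finset.card_le_univ _
        · rw [Fintype.card_fin]; exact h1
      intro i
      have := Finset.mem_univ i
      rw [← h2, Finset.mem_filter] at this
      exact this.2
    refine ⟨fun i => ⟨(g i).val, hall i⟩, ?_, ?_⟩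
    · rw [Finset.mem_filter]
      refine ⟨Finset.mem_univ _, ?_⟩
      intro k hk
      exact hg k hk
    · funext i
      exact Fin.ext rfl
  · intro f _
    rw [des_eq_card]
    rfl

/-- For every n, the polynomial summing z^(number of descents) over all parking functions of length n has only real roots, i.e. its number of real roots with multiplicity equals its degree. -/
theorem result :
    ∀ n : ℕ, ∀ p : Polynomial ℝ,
      p = ∑ f ∈ (Finset.univ : Finset (Fin n → Fin n)).filter
              (fun f => ∀ k : ℕ, k ≤ n →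
                k ≤ (Finset.univ.filter (fun i : Fin n => (f i : ℕ) < k)).card),
            (Polynomial.X : Polynomial ℝ) ^
              ((Finset.univ : Finset (Fin n × Fin n)).filter
                (fun q => q.2.val = q.1.val + 1 ∧ f q.2 < f q.1)).card →
      Multiset.card p.roots = p.natDegree := by
  intro n p hp
  rcases n with _ | N
  · -- the empty word only
    have hp1 : p = 1 := by
      rw [hp]
      rw [Finset.sum_eq_single (fun i : Fin 0 => i)]
      · simp
      · intro f _ hf
        exact absurd (Subsingleton.elim f _) hf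
      · intro h
        exfalso; apply h
        rw [Finset.mem_filter]
        refine ⟨Finset.mem_univ _, ?_⟩
        intro k hk
        interval_cases k
        simp
    rw [hp1]; simp
  · rw [← Polynomial.splits_iff_card_roots]
    rw [sum_frozen] at hp
    have hev : ∀ z : ℂ, (p.map (algebraMap ℝ ℂ)).eval z = ∑ f ∈ T N, z ^ des f := by
      intro z
      rw [hp, Polynomial.map_sum, Polynomial.eval_finsetSum]
      apply Finset.sum_congr rfl
      intro f _
      simp
    have hC : (p.map (algebraMap ℝ ℂ)).Splits := IsAlgClosed.splits _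
    refine Polynomial.Splits.of_splits_map_of_injective (algebraMap ℝ ℂ).injective hC ?_
    intro a ha
    have ha' : (p.map (algebraMap ℝ ℂ)).eval a = 0 := (Polynomial.mem_roots'.1 ha).2
    rw [hev] at ha'
    have him : a.im = 0 := by
      rcases lt_trichotomy a.im 0 with h | h | h
      · exfalso
        have h1 : 0 < ((starRingEnd ℂ) a).im := by simpa using h
        apply sum_T_ne (N := N) h1
        have := congrArg (starRingEnd ℂ) ha'
        rw [map_sum, map_zero] at this
        simpa [map_pow] using this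
      · exact h
      · exfalso; exact sum_T_ne (N := N) h ha'
    refine ⟨a.re, ?_⟩
    apply Complex.ext <;> simp [him]

end Pool.Agent.S07277
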