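import Pool.Statements.S07291
import Pool.Agent.Helper586.FpzMain

set_option autoImplicit false
open Pool Pool.MP_cacb4b_co

namespace Pool.Agent.S07291

/-- For every infinite word over a finite alphabet that is not ultimately periodic, and every K, some prefix cannot be written as a concatenation of at most K palindromes. -/
theorem result :
    ∀ (k : ℕ) (u : ℕ → Fin k),
      ¬ (∃ p N : ℕ, 0 < p ∧ ∀ n ≥ N, u (n + p) = u n) →
      ∀ K : ℕ, ∃ n : ℕ, ¬ ∃ L : List (List (Fin k)),
        L.length ≤ K ∧ (∀ w ∈ L, w.reverse = w) ∧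
        L.flatten = List.ofFn (fun i : Fin n => u i.val) := by
  intro k u hnp K
  by_contra hcon
  push Not at hcon
  apply hnp
  apply Pool.Agent.Helper586.Fpz.ultimately_periodic (u := u) (K := K)
  intro n
  obtain ⟨L, h1, h2, h3⟩ := hcon n
  refine ⟨L, h1, h2, ?_⟩
  rw [h3]
  apply List.ext_getElem
  · simp [Pool.Agent.Helper586.Fpz.seg]
  · intro i hi1 hi2
    simp [Pool.Agent.Helper586.Fpz.seg]

end Pool.Agent.S07291
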