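import Pool.Statements.S07310
import Pool.Agent.Helper837.HortonGp

set_option autoImplicit false
open Pool Pool.MP_cc1856_co

namespace Pool.Agent.S07310

/-- The negation of the preceding statement: For every ε>0, every large enough 2-colored point set in R^3 with no four coplanar points splits into at most ε times its size monochromatic classes whose convex hulls are pairwise disjoint. -/
theorem result :
    ¬ (∀ ε : ℝ, 0 < ε → ∃ N : ℕ, ∀ X : Finset (EuclideanSpace ℝ (Fin 3)), N ≤ X.card →
      (∀ S : Finset (EuclideanSpace ℝ (Fin 3)), S ⊆ X → S.card = 4 →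
        AffineIndependent ℝ (fun p : S => (p : EuclideanSpace ℝ (Fin 3)))) →
      ∀ c : EuclideanSpace ℝ (Fin 3) → Bool,
        ∃ k : ℕ, (k : ℝ) ≤ ε * (X.card : ℝ) ∧
          ∃ f : EuclideanSpace ℝ (Fin 3) → Fin k,
            (∀ x ∈ X, ∀ y ∈ X, f x = f y → c x = c y) ∧
            ∀ i j : Fin k, i ≠ j →
              Disjoint (convexHull ℝ {x | x ∈ X ∧ f x = i})
                       (convexHull ℝ {x | x ∈ X ∧ f x = j})) := by
  classical
  intro H
  obtain ⟨N0, hN0⟩ := H (1 / 162) (by norm_num)
  set N : ℕ := N0 + 1 with hN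
  obtain ⟨x, hinj, hgp, hhole⟩ := Pool.Agent.Helper837.Horton.exists_config N
  -- the doubled point set
  set I : Finset (ℕ × Bool) := Finset.range N ×ˢ Finset.univ with hI
  set X : Finset (EuclideanSpace ℝ (Fin 3)) := I.image (fun a => x a.1 a.2) with hX
  have hinjOn : Set.InjOn (fun a : ℕ × Bool => x a.1 a.2) (I : Set (ℕ × Bool)) := by
    rintro ⟨i, b⟩ hi ⟨j, b'⟩ hj h
    simp only [hI, Finset.coe_product, Set.mem_prod, Finset.mem_coe, Finset.mem_range] at hi hj
    obtain ⟨h1, h2⟩ := hinj i hi.1 j hj.1 b b' h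
    exact Prod.ext h1 h2
  have hXcard : X.card = 2 * N := by
    rw [hX, Finset.card_image_of_injOn hinjOn, hI, Finset.card_product, Finset.card_range]
    simp [mul_comm]
  have hXmem : ∀ y, y ∈ X ↔ ∃ i b, i < N ∧ x i b = y := by
    intro y
    simp only [hX, hI, Finset.mem_image, Finset.mem_product, Finset.mem_range, Finset.mem_univ,
      and_true, Prod.exists]
  -- general position
  have hXgp : ∀ S : Finset (EuclideanSpace ℝ (Fin 3)), S ⊆ X → S.card = 4 →
      AffineIndependent ℝ (fun p : S => (p : EuclideanSpace ℝ (Fin 3))) := by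
    intro S hSX hS4
    have hcard : Fintype.card S = Fintype.card (Fin 4) := by simp [hS4]
    let e : Fin 4 ≃ S := (Fintype.equivOfCardEq hcard).symm
    rw [← affineIndependent_equiv e]
    have hch : ∀ k : Fin 4, ∃ a : Fin N × Bool,
        x a.1 a.2 = ((e k : S) : EuclideanSpace ℝ (Fin 3)) := by
      intro k
      obtain ⟨i, b, hi, hib⟩ := (hXmem _).1 (hSX (e k).2)
      exact ⟨(⟨i, hi⟩, b), hib⟩
    choose β hβ using hch
    have hβinj : Function.Injective β := by
      intro k k' h
      have h1 : ((e k : S) : EuclideanSpace ℝ (Fin 3)) = ((e k' : S) : EuclideanSpace ℝ (Fin 3)) := by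
        rw [← hβ k, ← hβ k', h]
      exact e.injective (Subtype.ext h1)
    have h2 := hgp β hβinj
    have h3 : (fun k => x (β k).1 (β k).2) =
        (fun p : S => (p : EuclideanSpace ℝ (Fin 3))) ∘ e := by
      funext k
      exact hβ k
    rw [h3] at h2
    exact h2
  -- the colouring
  let c : EuclideanSpace ℝ (Fin 3) → Bool := fun y => decide (∃ i < N, x i true = y)
  have hc : ∀ i < N, ∀ b, c (x i b) = b := by
    intro i hi b
    cases b
    · simp only [c, decide_eq_false_iff_not]
      rintro ⟨j, hj, h⟩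
      have := (hinj j hj i hi true false h).2
      exact absurd this (by decide)
    · simp only [c, decide_eq_true_eq]
      exact ⟨i, hi, rfl⟩
  obtain ⟨k, hk, f, hmono, hdisj⟩ := hN0 X (by rw [hXcard]; omega) hXgp c
  -- every part has fewer than 162 points
  have hfib : ∀ a : Fin k, (X.filter (fun y => f y = a)).card ≤ 161 := by
    intro a
    by_contra hcon
    push Not at hcon
    obtain ⟨y0, hy0⟩ : (X.filter (fun y => f y = a)).Nonempty := by
      rw [← Finset.card_pos]; omega
    rw [Finset.mem_filter] at hy0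
    set b := c y0 with hb
    set A : Finset ℕ := (Finset.range N).filter (fun i => f (x i b) = a) with hA
    have hsub : X.filter (fun y => f y = a) ⊆ A.image (fun i => x i b) := by
      intro y hy
      rw [Finset.mem_filter] at hy
      obtain ⟨i, b', hi, rfl⟩ := (hXmem y).1 hy.1
      have h1 : c (x i b') = c y0 := hmono _ hy.1 _ hy0.1 (hy.2.trans hy0.2.symm)
      rw [hc i hi b', ← hb] at h1
      subst h1
      exact Finset.mem_image.2 ⟨i, Finset.mem_filter.2 ⟨Finset.mem_range.2 hi, hy.2⟩, rfl⟩
    have hAcard : 162 ≤ A.card := by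
      have h1 := Finset.card_le_card hsub
      have h2 := Finset.card_image_le (s := A) (f := fun i => x i b)
      omega
    obtain ⟨j, hj, hjmem⟩ := hhole b (!b) A (fun i hi =>
      Finset.mem_range.1 (Finset.mem_filter.1 hi).1) hAcard
    have hjX : x j (!b) ∈ X := (hXmem _).2 ⟨j, !b, hj, rfl⟩
    have hne : a ≠ f (x j (!b)) := by
      intro h
      have h1 : c (x j (!b)) = c y0 := hmono _ hjX _ hy0.1 (h.symm.trans hy0.2.symm)
      rw [hc j hj (!b), ← hb] at h1
      cases b <;> simp at h1
    have hd := hdisj a (f (x j (!b))) hne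
    refine Set.disjoint_left.1 hd ?_ (subset_convexHull ℝ _ ⟨hjX, rfl⟩)
    refine convexHull_mono ?_ hjmem
    rintro _ ⟨i, hi, rfl⟩
    have hi' := Finset.mem_filter.1 (Finset.mem_coe.1 hi)
    exact ⟨(hXmem _).2 ⟨i, b, Finset.mem_range.1 hi'.1, rfl⟩, hi'.2⟩
  -- count
  have hcount : X.card ≤ 161 * k := by
    have h1 := Finset.card_eq_sum_card_fiberwise (f := f) (s := X) (t := Finset.univ)
      (fun _ _ => Finset.mem_coe.2 (Finset.mem_univ _))
    rw [h1]
    calc ∑ a : Fin k, (X.filter (fun y => f y = a)).card ≤ ∑ _a : Fin k, 161 :=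
          Finset.sum_le_sum fun a _ => hfib a
      _ = 161 * k := by simp [mul_comm]
  rw [hXcard] at hcount hk
  have h1 : ((2 * N : ℕ) : ℝ) ≤ 161 * (k : ℝ) := by exact_mod_cast hcount
  have h2 : (0 : ℝ) < ((2 * N : ℕ) : ℝ) := by
    have : 0 < 2 * N := by omega
    exact_mod_cast this
  linarith

end Pool.Agent.S07310
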