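import Pool.Statements.S07330
-- import your own Pool.Agent.* helpers here

set_option autoImplicit false
open Filter
open Pool Pool.MP_cd7f8f_co

namespace Pool.Agent.S07330

/-- The bound on the sum of the `k` largest potentials levels. -/
noncomputable def gbd (Y : ℝ) (K : ℕ) (k : ℕ) : ℝ := (k : ℝ) * Y + (k : ℝ) * (2 * (K : ℝ) - (k : ℝ))

/-- Chooser's invariant, for the level function `y` of the rows. -/
def Inv (n : ℕ) (lam M Y : ℝ) (K : ℕ) (y : Fin n → ℝ) : Prop :=
  (∑ i, Real.exp (lam * y i)) ≤ M ∧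
    ∀ A : Finset (Fin n), A.card < K → ∑ i ∈ A, y i ≤ gbd Y K A.card

theorem inv_mono {n : ℕ} {lam M Y : ℝ} {K : ℕ} {y y' : Fin n → ℝ} (hlam : 0 < lam)
    (h : Inv n lam M Y K y) (hy : ∀ i, y' i ≤ y i) : Inv n lam M Y K y' := by
  refine ⟨le_trans ?_ h.1, fun A hA => le_trans ?_ (h.2 A hA)⟩
  · apply Finset.sum_le_sum
    intro i _
    exact Real.exp_le_exp.mpr (mul_le_mul_of_nonneg_left (hy i) hlam.le)
  · exact Finset.sum_le_sum (fun i _ => hy i)

/-- The subset-sum bound extends to subsets of size exactly `K`. -/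
theorem inv_ext {n : ℕ} {lam M Y : ℝ} {K : ℕ} {y : Fin n → ℝ} (hlam : 0 < lam) (hK : 1 ≤ K)
    (hM : M ≤ K * Real.exp (lam * Y)) (h : Inv n lam M Y K y) :
    ∀ A : Finset (Fin n), A.card ≤ K → ∑ i ∈ A, y i ≤ gbd Y K A.card := by
  intro A hA
  rcases lt_or_eq_of_le hA with hlt | heq
  · exact h.2 A hlt
  · have hex : ∃ l ∈ A, y l ≤ Y := by
      by_contra hcon
      push Not at hcon
      have hne : A.Nonempty := by
        rw [← Finset.card_pos]; omega
      have h1 : ∑ l ∈ A, Real.exp (lam * Y) < ∑ l ∈ A, Real.exp (lam * y l) := by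
        apply Finset.sum_lt_sum_of_nonempty hne
        intro l hl
        exact Real.exp_lt_exp.mpr (mul_lt_mul_of_pos_left (hcon l hl) hlam)
      have h2 : ∑ l ∈ A, Real.exp (lam * y l) ≤ ∑ l, Real.exp (lam * y l) := by
        apply Finset.sum_le_sum_of_subset_of_nonneg (Finset.subset_univ _)
        intro i _ _
        exact (Real.exp_pos _).le
      rw [Finset.sum_const, heq, nsmul_eq_mul] at h1
      linarith [h.1]
    obtain ⟨l, hl, hlY⟩ := hex
    have hsplit : ∑ i ∈ A, y i = y l + ∑ i ∈ A.erase l, y i := (Finset.add_sum_erase A y hl).symm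
    have hcard : (A.erase l).card = K - 1 := by rw [Finset.card_erase_of_mem hl, heq]
    have h3 := h.2 (A.erase l) (by omega)
    rw [hcard] at h3
    rw [hsplit, heq]
    have hc : ((K - 1 : ℕ) : ℝ) = (K : ℝ) - 1 := by
      rw [Nat.cast_sub hK]; simp
    unfold gbd at h3 ⊢
    rw [hc] at h3
    nlinarith

theorem exp_pair (lam a b : ℝ) (hlam : 0 < lam) (hab : a ≤ b) :
    Real.exp (lam * (a + (1 - lam / 2))) + Real.exp (lam * (b - (1 + lam / 2)))
      ≤ Real.exp (lam * a) + Real.exp (lam * b) := by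
  have h1 : Real.exp (lam * (a + (1 - lam / 2)))
      = Real.exp (-(lam ^ 2 / 2)) * (Real.exp (lam * a) * Real.exp lam) := by
    rw [← Real.exp_add, ← Real.exp_add]; congr 1; ring
  have h2 : Real.exp (lam * (b - (1 + lam / 2)))
      = Real.exp (-(lam ^ 2 / 2)) * (Real.exp (lam * b) * Real.exp (-lam)) := by
    rw [← Real.exp_add, ← Real.exp_add]; congr 1; ring
  have hcosh : Real.cosh lam ≤ Real.exp (lam ^ 2 / 2) := Real.cosh_le_exp_half_sq lam
  have huv : Real.exp (lam * a) ≤ Real.exp (lam * b) :=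
    Real.exp_le_exp.mpr (mul_le_mul_of_nonneg_left hab hlam.le)
  have hu : 0 < Real.exp (lam * a) := Real.exp_pos _
  have hv : 0 < Real.exp (lam * b) := Real.exp_pos _
  have hE : Real.exp (-lam) ≤ Real.exp lam := Real.exp_le_exp.mpr (by linarith)
  have h3 : Real.exp (lam * a) * Real.exp lam + Real.exp (lam * b) * Real.exp (-lam)
      ≤ (Real.exp (lam * a) + Real.exp (lam * b)) * Real.cosh lam := by
    rw [Real.cosh_eq]
    nlinarith [mul_nonneg (sub_nonneg.mpr huv) (sub_nonneg.mpr hE)]
  have h4 : Real.exp (-(lam ^ 2 / 2)) * Real.exp (lam ^ 2 / 2) = 1 := by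
    rw [← Real.exp_add]; simp
  rw [h1, h2, ← mul_add]
  calc Real.exp (-(lam ^ 2 / 2)) * (Real.exp (lam * a) * Real.exp lam
          + Real.exp (lam * b) * Real.exp (-lam))
      ≤ Real.exp (-(lam ^ 2 / 2)) *
          ((Real.exp (lam * a) + Real.exp (lam * b)) * Real.exp (lam ^ 2 / 2)) := by
        apply mul_le_mul_of_nonneg_left _ (Real.exp_pos _).le
        exact le_trans h3 (mul_le_mul_of_nonneg_left hcosh (by positivity))
    _ = (Real.exp (lam * a) + Real.exp (lam * b)) *
          (Real.exp (-(lam ^ 2 / 2)) * Real.exp (lam ^ 2 / 2)) := by ring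
    _ = Real.exp (lam * a) + Real.exp (lam * b) := by rw [h4, mul_one]

/-- Chooser's reply to a pair of cells in different rows keeps the invariant. -/
theorem inv_move {n : ℕ} {lam M Y : ℝ} {K : ℕ} {y y' : Fin n → ℝ} (hlam : 0 < lam) (hK : 1 ≤ K)
    (hM : M ≤ K * Real.exp (lam * Y)) (h : Inv n lam M Y K y)
    (i j : Fin n) (hij : i ≠ j) (hle : y i ≤ y j)
    (hi : y' i = y i + (1 - lam / 2)) (hj : y' j = y j - (1 + lam / 2))
    (hrest : ∀ l, l ≠ i → l ≠ j → y' l = y l) : Inv n lam M Y K y' := by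
  constructor
  · have hdiff : ∑ l, (Real.exp (lam * y' l) - Real.exp (lam * y l))
        = (Real.exp (lam * y' i) - Real.exp (lam * y i))
          + (Real.exp (lam * y' j) - Real.exp (lam * y j)) := by
      apply Finset.sum_eq_add i j hij
      · intro c _ hc
        rw [hrest c hc.1 hc.2]; ring
      · intro hni; exact absurd (Finset.mem_univ i) hni
      · intro hnj; exact absurd (Finset.mem_univ j) hnj
    rw [Finset.sum_sub_distrib, hi, hj] at hdiff
    have := exp_pair lam (y i) (y j) hlam hle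
    linarith [h.1]
  · intro A hA
    have hsum : ∑ l ∈ A, y' l = ∑ l ∈ A, y l + (if i ∈ A then (1 - lam / 2) else 0)
        + (if j ∈ A then -(1 + lam / 2) else 0) := by
      have : ∀ l, y' l = y l + (if l = i then (1 - lam / 2) else 0)
          + (if l = j then -(1 + lam / 2) else 0) := by
        intro l
        by_cases h1 : l = i
        · subst h1; simp [hij, hi]
        · by_cases h2 : l = j
          · subst h2; simp [h1, hj]; ring
          · simp [h1, h2, hrest l h1 h2]
      rw [Finset.sum_congr rfl (fun l _ => this l), Finset.sum_add_distrib, Finset.sum_add_distrib]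
      congr 1
      · congr 1
        rw [Finset.sum_ite_eq' A i]
      · rw [Finset.sum_ite_eq' A j]
    have hold := h.2 A hA
    by_cases hiA : i ∈ A
    · by_cases hjA : j ∈ A
      · rw [hsum, if_pos hiA, if_pos hjA]; linarith
      · have hB := inv_ext hlam hK hM h (A.erase i) (by
          rw [Finset.card_erase_of_mem hiA]; omega)
        have hC := inv_ext hlam hK hM h (insert j A) (by
          rw [Finset.card_insert_of_notMem hjA]; omega)
        have hcB : (A.erase i).card + 1 = A.card := Finset.card_erase_add_one hiA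
        rw [Finset.card_insert_of_notMem hjA, Finset.sum_insert hjA] at hC
        have hsB : y i + ∑ l ∈ A.erase i, y l = ∑ l ∈ A, y l := Finset.add_sum_erase A y hiA
        have hcBr : ((A.erase i).card : ℝ) = (A.card : ℝ) - 1 := by
          have : ((A.erase i).card : ℝ) + 1 = (A.card : ℝ) := by exact_mod_cast hcB
          linarith
        rw [hsum, if_pos hiA, if_neg hjA]
        unfold gbd at hB hC ⊢
        rw [hcBr] at hB
        push_cast at hC
        nlinarith
    · rw [hsum, if_neg hiA]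
      by_cases hjA : j ∈ A
      · rw [if_pos hjA]; linarith
      · rw [if_neg hjA]; linarith

/-- number of cells of `P` in row `i`. -/
def rowc {n : ℕ} (P : Finset (Fin n × Fin n)) (i : Fin n) : ℕ :=
  (Finset.filter (fun x : Fin n × Fin n => x.1 = i) P).card

/-- level of row `i` in the position `(P, C)`: Picker's lead plus `lam/2` times the number of
unmarked cells of the row. -/
noncomputable def lev {n : ℕ} (lam : ℝ) (P C : Finset (Fin n × Fin n)) (i : Fin n) : ℝ :=
  ((rowc P i : ℝ) - (rowc C i : ℝ)) + lam / 2 * ((n : ℝ) - (rowc P i : ℝ) - (rowc C i : ℝ))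

theorem rowc_insert {n : ℕ} (P : Finset (Fin n × Fin n)) (a : Fin n × Fin n) (ha : a ∉ P)
    (i : Fin n) : (rowc (insert a P) i : ℝ) = (rowc P i : ℝ) + (if i = a.1 then 1 else 0) := by
  unfold rowc
  rw [Finset.filter_insert]
  by_cases h : a.1 = i
  · rw [if_pos h, Finset.card_insert_of_notMem, if_pos h.symm]
    · push_cast; ring
    · intro h2; exact ha (Finset.mem_filter.mp h2).1
  · rw [if_neg h, if_neg (fun h2 => h h2.symm)]; ring

theorem lev_insert {n : ℕ} (lam : ℝ) (P C : Finset (Fin n × Fin n)) (a b : Fin n × Fin n)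
    (ha : a ∉ P) (hb : b ∉ C) (i : Fin n) :
    lev lam (insert a P) (insert b C) i = lev lam P C i + (if i = a.1 then (1 - lam / 2) else 0)
      - (if i = b.1 then (1 + lam / 2) else 0) := by
  unfold lev
  rw [rowc_insert P a ha i, rowc_insert C b hb i]
  split_ifs <;> ring

theorem rowc_add_le {n : ℕ} (P C : Finset (Fin n × Fin n)) (hd : Disjoint P C) (i : Fin n) :
    rowc P i + rowc C i ≤ n := by
  unfold rowc
  rw [← Finset.card_union_of_disjoint (Finset.disjoint_filter_filter hd), ← Finset.filter_union]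
  calc (Finset.filter (fun x : Fin n × Fin n => x.1 = i) (P ∪ C)).card
      ≤ (Finset.univ.image (fun j : Fin n => (i, j))).card := by
        apply Finset.card_le_card
        intro x hx
        rw [Finset.mem_filter] at hx
        rw [Finset.mem_image]
        exact ⟨x.2, Finset.mem_univ _, by rw [← hx.2]⟩
    _ ≤ (Finset.univ : Finset (Fin n)).card := Finset.card_image_le
    _ = n := by simp

/-- Main game lemma: from a position satisfying the invariant, Picker cannot force a lead `k`
larger than `Y + 2K - 1`. -/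
theorem no_force {n : ℕ} {lam M Y : ℝ} {K : ℕ} (hlam : 0 < lam) (hK : 2 ≤ K)
    (hM : M ≤ K * Real.exp (lam * Y)) (k : ℤ) (hk : Y + (2 * (K : ℝ) - 1) < (k : ℝ))
    (W : Set (Finset (Fin n × Fin n) × Finset (Fin n × Fin n)))
    (hW : ∀ p ∈ W,
            ((p.1 ∪ p.2).card + 2 > n * n ∧
              ∃ i : Fin n, k ≤ ((Finset.filter (fun x : Fin n × Fin n => x.1 = i) p.1).card : ℤ)
                  - ((Finset.filter (fun x : Fin n × Fin n => x.1 = i) p.2).card : ℤ)) ∨
            ∃ a b : Fin n × Fin n, a ≠ b ∧ a ∉ p.1 ∪ p.2 ∧ b ∉ p.1 ∪ p.2 ∧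
              (insert a p.1, insert b p.2) ∈ W ∧ (insert b p.1, insert a p.2) ∈ W) :
    ∀ m : ℕ, ∀ p ∈ W, n * n - (p.1 ∪ p.2).card ≤ m → Disjoint p.1 p.2 →
      Inv n lam M Y K (lev lam p.1 p.2) → False := by
  intro m
  induction m using Nat.strong_induction_on with
  | _ m ih =>
    intro p hp hm hd hinv
    rcases hW p hp with ⟨_, i, hi⟩ | ⟨a, b, hab, ha, hb, h1, h2⟩
    · -- terminal position
      have hA := hinv.2 {i} (by simp; omega)
      rw [Finset.sum_singleton, Finset.card_singleton] at hA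
      have hr := rowc_add_le p.1 p.2 hd i
      have hr' : (0 : ℝ) ≤ (n : ℝ) - (rowc p.1 i : ℝ) - (rowc p.2 i : ℝ) := by
        have : ((rowc p.1 i + rowc p.2 i : ℕ) : ℝ) ≤ (n : ℝ) := by exact_mod_cast hr
        push_cast at this; linarith
      have hi' : (k : ℝ) ≤ (rowc p.1 i : ℝ) - (rowc p.2 i : ℝ) := by
        have : (k : ℤ) ≤ (rowc p.1 i : ℤ) - (rowc p.2 i : ℤ) := hi
        exact_mod_cast this
      unfold lev gbd at hA
      have : 0 ≤ lam / 2 * ((n : ℝ) - (rowc p.1 i : ℝ) - (rowc p.2 i : ℝ)) :=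
        mul_nonneg (by linarith) hr'
      push_cast at hA
      linarith
    · -- Picker offers the cells `a`, `b`
      rw [Finset.mem_union, not_or] at ha hb
      have hcardab : ∀ c d : Fin n × Fin n, c ≠ d → c ∉ p.1 → c ∉ p.2 → d ∉ p.1 → d ∉ p.2 →
          (insert c p.1 ∪ insert d p.2).card = (p.1 ∪ p.2).card + 2 := by
        intro c d hcd hc1 hc2 hd1 hd2
        have : insert c p.1 ∪ insert d p.2 = insert c (insert d (p.1 ∪ p.2)) := by
          ext x; simp only [Finset.mem_union, Finset.mem_insert]; tauto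
        rw [this, Finset.card_insert_of_notMem, Finset.card_insert_of_notMem]
        · simp [hd1, hd2]
        · simp [hcd, hc1, hc2]
      have hdis : ∀ c d : Fin n × Fin n, c ≠ d → c ∉ p.1 → c ∉ p.2 → d ∉ p.1 → d ∉ p.2 →
          Disjoint (insert c p.1) (insert d p.2) := by
        intro c d hcd hc1 hc2 hd1 hd2
        rw [Finset.disjoint_insert_left, Finset.disjoint_insert_right]
        refine ⟨?_, hd1, hd⟩
        simp [hcd, hc2]
      have hle : ∀ S : Finset (Fin n × Fin n), S.card ≤ n * n := by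
        intro S
        calc S.card ≤ (Finset.univ : Finset (Fin n × Fin n)).card :=
              Finset.card_le_card (Finset.subset_univ _)
          _ = n * n := by simp
      by_cases hrow : a.1 = b.1
      · -- both cells in the same row
        have hc := hcardab a b hab ha.1 ha.2 hb.1 hb.2
        have hl := hle (insert a p.1 ∪ insert b p.2)
        refine ih (n * n - (insert a p.1 ∪ insert b p.2).card) ?_ _ h1 le_rfl
          (hdis a b hab ha.1 ha.2 hb.1 hb.2) ?_
        · omega
        · refine inv_mono hlam hinv ?_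
          intro i
          simp only
          rw [lev_insert lam p.1 p.2 a b ha.1 hb.2 i, ← hrow]
          split_ifs <;> linarith
      · rcases le_total (lev lam p.1 p.2 a.1) (lev lam p.1 p.2 b.1) with hcmp | hcmp
        · have hc := hcardab a b hab ha.1 ha.2 hb.1 hb.2
          have hl := hle (insert a p.1 ∪ insert b p.2)
          refine ih (n * n - (insert a p.1 ∪ insert b p.2).card) ?_ _ h1 le_rfl
            (hdis a b hab ha.1 ha.2 hb.1 hb.2) ?_
          · omega
          · refine inv_move hlam (by omega) hM hinv a.1 b.1 hrow hcmp ?_ ?_ ?_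
            · simp only
              rw [lev_insert lam p.1 p.2 a b ha.1 hb.2, if_pos rfl, if_neg hrow]; ring
            · simp only
              rw [lev_insert lam p.1 p.2 a b ha.1 hb.2, if_pos rfl, if_neg (Ne.symm hrow)]; ring
            · intro l hl1 hl2
              simp only
              rw [lev_insert lam p.1 p.2 a b ha.1 hb.2, if_neg hl1, if_neg hl2]; ring
        · have hc := hcardab b a hab.symm hb.1 hb.2 ha.1 ha.2
          have hl := hle (insert b p.1 ∪ insert a p.2)
          refine ih (n * n - (insert b p.1 ∪ insert a p.2).card) ?_ _ h2 le_rfl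
            (hdis b a hab.symm hb.1 hb.2 ha.1 ha.2) ?_
          · omega
          · refine inv_move hlam (by omega) hM hinv b.1 a.1 (Ne.symm hrow) hcmp ?_ ?_ ?_
            · simp only
              rw [lev_insert lam p.1 p.2 b a hb.1 ha.2, if_pos rfl, if_neg (Ne.symm hrow)]; ring
            · simp only
              rw [lev_insert lam p.1 p.2 b a hb.1 ha.2, if_pos rfl, if_neg hrow]; ring
            · intro l hl1 hl2
              simp only
              rw [lev_insert lam p.1 p.2 b a hb.1 ha.2, if_neg hl1, if_neg hl2]; ring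

/-- Upper bound for the lead that Picker can force on the `n × n` board. -/
theorem lead_bound {n : ℕ} (hn : 3 ≤ n) (k : ℤ)
    (hex : ∃ W : Set (Finset (Fin n × Fin n) × Finset (Fin n × Fin n)),
          ((∅ : Finset (Fin n × Fin n)), (∅ : Finset (Fin n × Fin n))) ∈ W ∧
          ∀ p ∈ W,
            ((p.1 ∪ p.2).card + 2 > n * n ∧
              ∃ i : Fin n, k ≤ ((Finset.filter (fun x : Fin n × Fin n => x.1 = i) p.1).card : ℤ)
                  - ((Finset.filter (fun x : Fin n × Fin n => x.1 = i) p.2).card : ℤ)) ∨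
            ∃ a b : Fin n × Fin n, a ≠ b ∧ a ∉ p.1 ∪ p.2 ∧ b ∉ p.1 ∪ p.2 ∧
              (insert a p.1, insert b p.2) ∈ W ∧ (insert b p.1, insert a p.2) ∈ W) :
    (k : ℝ) ≤ Real.sqrt ((n : ℝ) * Real.log n) + 2 * Real.sqrt n + 1 := by
  by_contra hcon
  push Not at hcon
  obtain ⟨W, h0, hW⟩ := hex
  have hnR : (3 : ℝ) ≤ (n : ℝ) := by exact_mod_cast hn
  have hnpos : (0 : ℝ) < n := by linarith
  have hlog : 0 < Real.log n := Real.log_pos (by linarith)
  set lam : ℝ := Real.sqrt (Real.log n / n) with hlamdef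
  set Y : ℝ := Real.sqrt ((n : ℝ) * Real.log n) with hYdef
  have hlam : 0 < lam := Real.sqrt_pos.mpr (by positivity)
  have hlamsq : lam ^ 2 = Real.log n / n := Real.sq_sqrt (by positivity)
  have hlamY : lam * Y = Real.log n := by
    rw [hlamdef, hYdef, ← Real.sqrt_mul (by positivity)]
    have : Real.log n / n * ((n : ℝ) * Real.log n) = (Real.log n) ^ 2 := by
      field_simp
    rw [this, Real.sqrt_sq hlog.le]
  have hlamn : lam * n = Y := by
    have h1 : Y = lam * n := by
      rw [hYdef, hlamdef]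
      rw [show (n : ℝ) * Real.log n = (Real.log n / n) * ((n : ℝ) ^ 2) by field_simp]
      rw [Real.sqrt_mul (by positivity), Real.sqrt_sq hnpos.le]
    exact h1.symm
  set K : ℕ := ⌈Real.sqrt n⌉₊ with hKdef
  have hKge : Real.sqrt n ≤ K := Nat.le_ceil _
  have hKlt : (K : ℝ) < Real.sqrt n + 1 := Nat.ceil_lt_add_one (Real.sqrt_nonneg _)
  have hK2 : 2 ≤ K := by
    have : (1 : ℝ) < K := by
      have h1 : (1 : ℝ) < Real.sqrt n := by
        rw [show (1 : ℝ) = Real.sqrt 1 by simp]
        exact Real.sqrt_lt_sqrt (by norm_num) (by linarith)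
      linarith
    exact_mod_cast this
  have hYnn : 0 ≤ Y := Real.sqrt_nonneg _
  set M : ℝ := (n : ℝ) * Real.exp (Real.log n / 2) with hMdef
  have hM : M ≤ K * Real.exp (lam * Y) := by
    rw [hlamY, Real.exp_log hnpos, hMdef]
    have h1 : Real.exp (Real.log n / 2) = Real.sqrt n := by
      rw [Real.sqrt_eq_rpow, Real.rpow_def_of_pos hnpos]; congr 1; ring
    rw [h1, mul_comm]
    exact mul_le_mul_of_nonneg_right hKge hnpos.le
  have hinit : Inv n lam M Y K (lev lam (∅ : Finset (Fin n × Fin n)) ∅) := by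
    have hlev : ∀ i : Fin n, lev lam (∅ : Finset (Fin n × Fin n)) ∅ i = Y / 2 := by
      intro i
      unfold lev rowc
      simp
      rw [← hlamn]; ring
    constructor
    · have : ∀ i : Fin n, Real.exp (lam * lev lam (∅ : Finset (Fin n × Fin n)) ∅ i)
          = Real.exp (Real.log n / 2) := by
        intro i; rw [hlev i]; congr 1; rw [← hlamY]; ring
      rw [Finset.sum_congr rfl (fun i _ => this i), Finset.sum_const, Finset.card_univ,
        Fintype.card_fin, nsmul_eq_mul]
    · intro A hA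
      rw [Finset.sum_congr rfl (fun i _ => hlev i), Finset.sum_const, nsmul_eq_mul]
      unfold gbd
      have hAK : (A.card : ℝ) ≤ K := by exact_mod_cast hA.le
      have hA0 : (0 : ℝ) ≤ A.card := by positivity
      nlinarith [mul_nonneg hA0 hYnn, mul_nonneg hA0 (sub_nonneg.mpr hAK), mul_nonneg hA0 hA0]
  refine no_force hlam hK2 hM k ?_ W hW (n * n) ((∅ : Finset (Fin n × Fin n)), (∅ : Finset (Fin n × Fin n))) h0 (Nat.sub_le _ _) (by simp) hinit
  linarith

/-- The negation of the preceding statement: In the n×n Picker–Chooser row discrepancy game, the largest row lead (Picker marks minus Chooser marks) Picker can guarantee at game end is (1+o(1))·sqrt(2 n log n) as n grows. -/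
theorem result :
    ¬ (∀ ε : ℝ, ε > 0 → ∀ᶠ n : ℕ in atTop,
      (∃ k : ℤ, (1 - ε) * Real.sqrt (2 * (n : ℝ) * Real.log n) ≤ (k : ℝ) ∧
        ∃ W : Set (Finset (Fin n × Fin n) × Finset (Fin n × Fin n)),
          ((∅ : Finset (Fin n × Fin n)), (∅ : Finset (Fin n × Fin n))) ∈ W ∧
          ∀ p ∈ W,
            ((p.1 ∪ p.2).card + 2 > n * n ∧
              ∃ i : Fin n, k ≤ ((Finset.filter (fun x : Fin n × Fin n => x.1 = i) p.1).card : ℤ)
                  - ((Finset.filter (fun x : Fin n × Fin n => x.1 = i) p.2).card : ℤ)) ∨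
            ∃ a b : Fin n × Fin n, a ≠ b ∧ a ∉ p.1 ∪ p.2 ∧ b ∉ p.1 ∪ p.2 ∧
              (insert a p.1, insert b p.2) ∈ W ∧ (insert b p.1, insert a p.2) ∈ W) ∧
      (∀ k : ℤ,
        (∃ W : Set (Finset (Fin n × Fin n) × Finset (Fin n × Fin n)),
          ((∅ : Finset (Fin n × Fin n)), (∅ : Finset (Fin n × Fin n))) ∈ W ∧
          ∀ p ∈ W,
            ((p.1 ∪ p.2).card + 2 > n * n ∧
              ∃ i : Fin n, k ≤ ((Finset.filter (fun x : Fin n × Fin n => x.1 = i) p.1).card : ℤ)
                  - ((Finset.filter (fun x : Fin n × Fin n => x.1 = i) p.2).card : ℤ)) ∨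
            ∃ a b : Fin n × Fin n, a ≠ b ∧ a ∉ p.1 ∪ p.2 ∧ b ∉ p.1 ∪ p.2 ∧
              (insert a p.1, insert b p.2) ∈ W ∧ (insert b p.1, insert a p.2) ∈ W) →
        (k : ℝ) ≤ (1 + ε) * Real.sqrt (2 * (n : ℝ) * Real.log n))) := by
  intro hall
  have h1 := hall (1 / 10) (by norm_num)
  have hlogt : Tendsto (fun n : ℕ => Real.log (n : ℝ)) atTop atTop :=
    Real.tendsto_log_atTop.comp tendsto_natCast_atTop_atTop
  have h2 : ∀ᶠ n : ℕ in atTop, (400 : ℝ) < Real.log (n : ℝ) := hlogt.eventually_gt_atTop 400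
  have h3 : ∀ᶠ n : ℕ in atTop, 3 ≤ n := eventually_ge_atTop 3
  obtain ⟨n, ⟨⟨k, hk, hW⟩, _⟩, hlog, hn⟩ := (h1.and (h2.and h3)).exists
  have hb := lead_bound hn k hW
  have hnR : (3 : ℝ) ≤ (n : ℝ) := by exact_mod_cast hn
  have hnpos : (0 : ℝ) < n := by linarith
  have hs1 : (1 : ℝ) ≤ Real.sqrt n := by
    rw [show (1 : ℝ) = Real.sqrt 1 by simp]
    exact Real.sqrt_le_sqrt (by linarith)
  have hs2 : Real.sqrt ((n : ℝ) * Real.log n) = Real.sqrt n * Real.sqrt (Real.log n) :=
    Real.sqrt_mul hnpos.le _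
  have hs3 : Real.sqrt (2 * (n : ℝ) * Real.log n) = Real.sqrt 2 * (Real.sqrt n * Real.sqrt (Real.log n)) := by
    rw [mul_assoc, Real.sqrt_mul (by norm_num : (0 : ℝ) ≤ 2), Real.sqrt_mul hnpos.le]
  have hs4 : (20 : ℝ) ≤ Real.sqrt (Real.log n) := by
    rw [show (20 : ℝ) = Real.sqrt 400 by
      rw [show (400 : ℝ) = 20 ^ 2 by norm_num, Real.sqrt_sq (by norm_num)]]
    exact Real.sqrt_le_sqrt hlog.le
  have hs5 : (1.4 : ℝ) ≤ Real.sqrt 2 := by
    apply Real.le_sqrt_of_sq_le; norm_num
  rw [hs3] at hk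
  rw [hs2] at hb
  have hP : 0 ≤ Real.sqrt n * Real.sqrt (Real.log n) := by positivity
  have h5 : (1.4 : ℝ) * (Real.sqrt n * Real.sqrt (Real.log n))
      ≤ Real.sqrt 2 * (Real.sqrt n * Real.sqrt (Real.log n)) :=
    mul_le_mul_of_nonneg_right hs5 hP
  have h6 : 20 * Real.sqrt n ≤ Real.sqrt n * Real.sqrt (Real.log n) := by
    rw [mul_comm]; exact mul_le_mul_of_nonneg_left hs4 (by linarith)
  nlinarith

end Pool.Agent.S07330
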