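import Pool.Statements.S07336
-- import your own Pool.Agent.* helpers here

set_option autoImplicit false
open Pool Pool.MP_cde6cd_co

namespace Pool.Agent.S07336


def chk : (n : ℕ) → (Fin n → Fin n → GaussianInt) → Bool
  | 0, _ => true
  | (n+1), m => decide (0 < (m 0 0).re) && decide ((m 0 0).im = 0) &&
      chk n (fun i j => m 0 0 * m i.succ j.succ - m i.succ 0 * m 0 j.succ)

theorem psd_of_chk : ∀ (n : ℕ) (m : Fin n → Fin n → GaussianInt),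
    (∀ i j, m j i = star (m i j)) → chk n m = true →
    ∀ h : Fin n → ℂ, 0 ≤ (∑ i, ∑ j, (starRingEnd ℂ) (h i) * (m i j : ℂ) * h j).re := by
  intro n
  induction n with
  | zero => intro m _ _ h; simp
  | succ n ih =>
    intro m hm hc h
    simp only [chk, Bool.and_eq_true, decide_eq_true_eq] at hc
    obtain ⟨⟨hp, hi⟩, hc⟩ := hc
    have hherm : ∀ i j : Fin n, (m 0 0 * m j.succ i.succ - m j.succ 0 * m 0 i.succ)
        = star (m 0 0 * m i.succ j.succ - m i.succ 0 * m 0 j.succ) := by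
      intro i j
      rw [star_sub, star_mul, star_mul, ← hm 0 0, ← hm i.succ j.succ, ← hm i.succ 0, ← hm 0 j.succ]
      ring
    have key := ih (fun i j => m 0 0 * m i.succ j.succ - m i.succ 0 * m 0 j.succ) hherm hc
      (fun i => h i.succ)
    have hp0 : GaussianInt.toComplex (m 0 0) = (((m 0 0).re : ℝ) : ℂ) := by
      apply Complex.ext
      · simp
      · rw [← GaussianInt.intCast_im, hi]; simp
    have hpos : (0:ℝ) < ((m 0 0).re : ℝ) := by exact_mod_cast hp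
    have hst : ∀ i : Fin n, GaussianInt.toComplex (m i.succ 0) = (starRingEnd ℂ) (GaussianInt.toComplex (m 0 i.succ)) := by
      intro i
      rw [hm 0 i.succ]
      exact GaussianInt.toComplex_star _
    set p : ℝ := ((m 0 0).re : ℝ) with hpdef
    set β : ℂ := ∑ j : Fin n, GaussianInt.toComplex (m 0 j.succ) * h j.succ with hβ
    set S : ℂ := ∑ i : Fin n, ∑ j : Fin n, (starRingEnd ℂ) (h i.succ) *
      GaussianInt.toComplex (m i.succ j.succ) * h j.succ with hS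
    have e1 : (∑ i, ∑ j, (starRingEnd ℂ) (h i) * GaussianInt.toComplex (m i j) * h j)
        = (starRingEnd ℂ) (h 0) * p * h 0 + (starRingEnd ℂ) (h 0) * β
          + ((starRingEnd ℂ) β * h 0 + S) := by
      rw [Fin.sum_univ_succ]
      simp only [Fin.sum_univ_succ (n := n)]
      rw [Finset.sum_add_distrib, hp0, hβ, hS, Finset.mul_sum, map_sum, Finset.sum_mul]
      congr 1
      · congr 1
        exact Finset.sum_congr rfl fun j _ => by ring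
      · congr 1
        exact Finset.sum_congr rfl fun j _ => by rw [hst, map_mul]; ring
    have e2 : ∑ i : Fin n, ∑ j : Fin n, (starRingEnd ℂ) (h i.succ) *
            GaussianInt.toComplex (m 0 0 * m i.succ j.succ - m i.succ 0 * m 0 j.succ) * h j.succ
          = p * S - (starRingEnd ℂ) β * β := by
      rw [hS, hβ, map_sum, Finset.sum_mul_sum, Finset.mul_sum, ← Finset.sum_sub_distrib]
      refine Finset.sum_congr rfl fun i _ => ?_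
      rw [Finset.mul_sum, ← Finset.sum_sub_distrib]
      refine Finset.sum_congr rfl fun j _ => ?_
      rw [map_sub, map_mul, map_mul, hp0, hst, map_mul]
      ring
    have hid : (p : ℂ) * (∑ i, ∑ j, (starRingEnd ℂ) (h i) * GaussianInt.toComplex (m i j) * h j)
        = (p * h 0 + β) * (starRingEnd ℂ) (p * h 0 + β)
          + ∑ i : Fin n, ∑ j : Fin n, (starRingEnd ℂ) (h i.succ) *
            GaussianInt.toComplex (m 0 0 * m i.succ j.succ - m i.succ 0 * m 0 j.succ) * h j.succ := by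
      rw [e1, e2, map_add, map_mul, Complex.conj_ofReal]
      ring
    have hre := congrArg Complex.re hid
    rw [Complex.re_ofReal_mul, Complex.add_re, Complex.mul_conj, Complex.ofReal_re] at hre
    have h1 : 0 ≤ p * (∑ i, ∑ j, (starRingEnd ℂ) (h i) * GaussianInt.toComplex (m i j) * h j).re := by
      rw [hre]
      exact add_nonneg (Complex.normSq_nonneg _) key
    exact nonneg_of_mul_nonneg_right h1 hpos

def lamz : Fin 4 → GaussianInt := ![⟨4,1⟩, ⟨-2,1⟩, ⟨-2,-4⟩, ⟨-2,-4⟩]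
def ii : Fin 4 → GaussianInt := ![⟨1,0⟩, ⟨0,1⟩, ⟨-1,0⟩, ⟨0,-1⟩]

def Mk (k : Fin 4 → Fin 4) (t u : Fin 4) : GaussianInt :=
  (if t = u then 150 else 0) - ∑ x, star (lamz (t + x) * ii (k x * t)) * (lamz (u + x) * ii (k x * u))

set_option maxRecDepth 100000 in
theorem all_chk : ∀ k0 k1 k2 k3 : Fin 4, chk 4 (Mk ![k0,k1,k2,k3]) = true := by
  decide +kernel

theorem all_chk' (k : Fin 4 → Fin 4) : chk 4 (Mk k) = true := by
  have : k = ![k 0, k 1, k 2, k 3] := by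
    funext i; fin_cases i <;> rfl
  rw [this]; exact all_chk _ _ _ _

theorem Mk_herm (k : Fin 4 → Fin 4) (i j : Fin 4) : Mk k j i = star (Mk k i j) := by
  unfold Mk
  rw [star_sub, star_sum]
  congr 1
  · by_cases h : i = j
    · subst h; simp
    · rw [if_neg h, if_neg (Ne.symm h), star_zero]
  · refine Finset.sum_congr rfl fun x _ => ?_
    simp only [star_mul, star_star]

/-- complex versions -/
noncomputable def lamc (t : Fin 4) : ℂ := GaussianInt.toComplex (lamz t)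
noncomputable def ic (t : Fin 4) : ℂ := GaussianInt.toComplex (ii t)

theorem quad (k : Fin 4 → Fin 4) (h : Fin 4 → ℂ) :
    ∑ x, Complex.normSq (∑ t, lamc (t + x) * ic (k x * t) * h t) ≤ 150 * ∑ t, Complex.normSq (h t) := by
  have key := psd_of_chk 4 (Mk k) (Mk_herm k) (all_chk' k) h
  have e : (∑ i, ∑ j, (starRingEnd ℂ) (h i) * GaussianInt.toComplex (Mk k i j) * h j)
      = ((150 * ∑ t, Complex.normSq (h t) - ∑ x, Complex.normSq (∑ t, lamc (t + x) * ic (k x * t) * h t) : ℝ) : ℂ) := by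
    push_cast
    simp only [Complex.normSq_eq_conj_mul_self]
    have e1 : ∀ i j, (starRingEnd ℂ) (h i) * GaussianInt.toComplex (Mk k i j) * h j
        = (if i = j then 150 * ((starRingEnd ℂ) (h i) * h j) else 0)
          - ∑ x, (starRingEnd ℂ) (lamc (i + x) * ic (k x * i) * h i) * (lamc (j + x) * ic (k x * j) * h j) := by
      intro i j
      unfold Mk lamc ic
      rw [map_sub, mul_sub, sub_mul, map_sum, Finset.mul_sum, Finset.sum_mul]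
      congr 1
      · split_ifs with hij
        · have h150 : GaussianInt.toComplex 150 = 150 := map_ofNat GaussianInt.toComplex 150
          rw [h150]; ring
        · rw [map_zero, mul_zero, zero_mul]
      · refine Finset.sum_congr rfl fun x _ => ?_
        rw [map_mul, GaussianInt.toComplex_star, map_mul, map_mul, map_mul, map_mul, map_mul]
        ring
    have a1 : ∑ i : Fin 4, ∑ j : Fin 4, (if i = j then 150 * ((starRingEnd ℂ) (h i) * h j) else 0)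
        = 150 * ∑ t, (starRingEnd ℂ) (h t) * h t := by
      rw [Finset.mul_sum]
      refine Finset.sum_congr rfl fun i _ => ?_
      rw [Finset.sum_ite_eq Finset.univ i]
      rw [if_pos (Finset.mem_univ i)]
    have a2 : ∑ i : Fin 4, ∑ j : Fin 4, ∑ x : Fin 4,
          (starRingEnd ℂ) (lamc (i + x) * ic (k x * i) * h i) * (lamc (j + x) * ic (k x * j) * h j)
        = ∑ x : Fin 4, (starRingEnd ℂ) (∑ t, lamc (t + x) * ic (k x * t) * h t) *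
            (∑ t, lamc (t + x) * ic (k x * t) * h t) := by
      rw [Finset.sum_congr rfl fun i _ => Finset.sum_comm, Finset.sum_comm]
      refine Finset.sum_congr rfl fun x _ => ?_
      rw [map_sum, Finset.sum_mul_sum]
    simp only [e1, Finset.sum_sub_distrib]
    rw [a1, a2]
  rw [e, Complex.ofReal_re] at key
  linarith


theorem ic0 : ic 0 = 1 := by
  unfold ic ii
  apply Complex.ext
  · exact (GaussianInt.re_toComplex 1 0).trans (by simp)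
  · exact (GaussianInt.im_toComplex 1 0).trans (by simp)
theorem ic1 : ic 1 = Complex.I := by
  unfold ic ii
  apply Complex.ext
  · exact (GaussianInt.re_toComplex 0 1).trans (by simp)
  · exact (GaussianInt.im_toComplex 0 1).trans (by simp)
theorem ic2 : ic 2 = -1 := by
  unfold ic ii
  apply Complex.ext
  · exact (GaussianInt.re_toComplex (-1) 0).trans (by simp)
  · exact (GaussianInt.im_toComplex (-1) 0).trans (by simp)
theorem ic3 : ic 3 = -Complex.I := by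
  unfold ic ii
  apply Complex.ext
  · exact (GaussianInt.re_toComplex 0 (-1)).trans (by simp)
  · exact (GaussianInt.im_toComplex 0 (-1)).trans (by simp)

theorem dft4 (c a b : Fin 4 → ℂ) (M : ℝ) (hM : ∀ k : Fin 4, ‖∑ t, ic (k * t) * c t‖ ≤ M)
    (ha : ∀ y, ‖a y‖ ≤ 1) (hb : ∀ y, ‖b y‖ ≤ 1) :
    ‖∑ x₁ : Fin 4, ∑ x₂ : Fin 4, c (x₁ + x₂) * a x₂ * b x₁‖ ≤ 4 * M := by
  have hM0 : 0 ≤ M := le_trans (norm_nonneg _) (hM 0)
  have hid : 4 * (∑ x₁ : Fin 4, ∑ x₂ : Fin 4, c (x₁ + x₂) * a x₂ * b x₁)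
      = ∑ k : Fin 4, (∑ t, ic (k * t) * c t) * (∑ y, ic (3 * (k * y)) * a y) *
          (∑ y, ic (3 * (k * y)) * b y) := by
    simp only [Fin.sum_univ_four]
    have r1 : (1:Fin 4) * 1 = 1 := rfl
    have r2 : (1:Fin 4) * 2 = 2 := rfl
    have r3 : (1:Fin 4) * 3 = 3 := rfl
    have r4 : (2:Fin 4) * 1 = 2 := rfl
    have r5 : (2:Fin 4) * 2 = 0 := rfl
    have r6 : (2:Fin 4) * 3 = 2 := rfl
    have r7 : (3:Fin 4) * 1 = 3 := rfl
    have r8 : (3:Fin 4) * 2 = 2 := rfl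
    have r9 : (3:Fin 4) * 3 = 1 := rfl
    have s1 : (1:Fin 4) + 1 = 2 := rfl
    have s2 : (1:Fin 4) + 2 = 3 := rfl
    have s3 : (1:Fin 4) + 3 = 0 := rfl
    have s4 : (2:Fin 4) + 1 = 3 := rfl
    have s5 : (2:Fin 4) + 2 = 0 := rfl
    have s6 : (2:Fin 4) + 3 = 1 := rfl
    have s7 : (3:Fin 4) + 1 = 0 := rfl
    have s8 : (3:Fin 4) + 2 = 1 := rfl
    have s9 : (3:Fin 4) + 3 = 2 := rfl
    simp only [mul_zero, zero_mul, zero_add, add_zero, r1, r2, r3, r4, r5, r6, r7, r8, r9,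
      s1, s2, s3, s4, s5, s6, s7, s8, s9, ic0, ic1, ic2, ic3]
    apply Complex.ext
    · simp only [Complex.add_re, Complex.mul_re, Complex.neg_re, Complex.I_re, Complex.I_im,
        Complex.one_re, Complex.one_im, Complex.add_im, Complex.mul_im, Complex.neg_im,
        Complex.re_ofNat, Complex.im_ofNat]
      ring
    · simp only [Complex.add_re, Complex.mul_re, Complex.neg_re, Complex.I_re, Complex.I_im,
        Complex.one_re, Complex.one_im, Complex.add_im, Complex.mul_im, Complex.neg_im,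
        Complex.re_ofNat, Complex.im_ofNat]
      ring
  have pars : ∀ f : Fin 4 → ℂ, (∀ y, ‖f y‖ ≤ 1) →
      ∑ k : Fin 4, ‖∑ y, ic (3 * (k * y)) * f y‖ ^ 2 ≤ 16 := by
    intro f hf
    have e : ∑ k : Fin 4, ‖∑ y, ic (3 * (k * y)) * f y‖ ^ 2 = 4 * ∑ y, ‖f y‖ ^ 2 := by
      simp only [← Complex.normSq_eq_norm_sq]
      simp only [Fin.sum_univ_four]
      have r1 : (1:Fin 4) * 1 = 1 := rfl
      have r2 : (1:Fin 4) * 2 = 2 := rfl
      have r3 : (1:Fin 4) * 3 = 3 := rfl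
      have r4 : (2:Fin 4) * 1 = 2 := rfl
      have r5 : (2:Fin 4) * 2 = 0 := rfl
      have r6 : (2:Fin 4) * 3 = 2 := rfl
      have r7 : (3:Fin 4) * 1 = 3 := rfl
      have r8 : (3:Fin 4) * 2 = 2 := rfl
      have r9 : (3:Fin 4) * 3 = 1 := rfl
      simp only [mul_zero, zero_mul, r1, r2, r3, r4, r5, r6, r7, r8, r9, ic0, ic1, ic2, ic3]
      simp only [Complex.normSq_apply, Complex.add_re, Complex.mul_re, Complex.neg_re, Complex.I_re,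
        Complex.I_im,
        Complex.one_re, Complex.one_im, Complex.add_im, Complex.mul_im, Complex.neg_im]
      ring
    rw [e]
    have : ∀ y, ‖f y‖ ^ 2 ≤ 1 := fun y => by
      have := hf y; have h0 := norm_nonneg (f y); nlinarith
    have h4 : ∑ y : Fin 4, ‖f y‖ ^ 2 ≤ ∑ y : Fin 4, (1:ℝ) := Finset.sum_le_sum fun y _ => this y
    simp at h4
    linarith
  have hA := pars a ha
  have hB := pars b hb
  have h1 : ‖4 * (∑ x₁ : Fin 4, ∑ x₂ : Fin 4, c (x₁ + x₂) * a x₂ * b x₁)‖ ≤ 16 * M := by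
    rw [hid]
    calc ‖∑ k : Fin 4, (∑ t, ic (k * t) * c t) * (∑ y, ic (3 * (k * y)) * a y) *
          (∑ y, ic (3 * (k * y)) * b y)‖
        ≤ ∑ k : Fin 4, ‖(∑ t, ic (k * t) * c t) * (∑ y, ic (3 * (k * y)) * a y) *
          (∑ y, ic (3 * (k * y)) * b y)‖ := norm_sum_le _ _
      _ ≤ ∑ k : Fin 4, M * ((‖∑ y, ic (3 * (k * y)) * a y‖ ^ 2 + ‖∑ y, ic (3 * (k * y)) * b y‖ ^ 2) / 2) := by
          refine Finset.sum_le_sum fun k _ => ?_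
          rw [norm_mul, norm_mul, mul_assoc]
          have h2 : ‖∑ y, ic (3 * (k * y)) * a y‖ * ‖∑ y, ic (3 * (k * y)) * b y‖
              ≤ (‖∑ y, ic (3 * (k * y)) * a y‖ ^ 2 + ‖∑ y, ic (3 * (k * y)) * b y‖ ^ 2) / 2 := by
            nlinarith [sq_nonneg (‖∑ y, ic (3 * (k * y)) * a y‖ - ‖∑ y, ic (3 * (k * y)) * b y‖)]
          exact mul_le_mul (hM k) h2 (by positivity) hM0
      _ = M * ((∑ k : Fin 4, ‖∑ y, ic (3 * (k * y)) * a y‖ ^ 2 + ∑ k : Fin 4, ‖∑ y, ic (3 * (k * y)) * b y‖ ^ 2) / 2) := by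
          rw [← Finset.mul_sum, ← Finset.sum_add_distrib, Finset.sum_div]
      _ ≤ M * 16 := by
          apply mul_le_mul_of_nonneg_left _ hM0
          linarith
      _ = 16 * M := by ring
  rw [norm_mul] at h1
  simp at h1
  linarith

theorem upper (h : Fin 4 → ℂ) (f₁ f₂ : Fin 4 → Fin 4 → ℂ) (h1 : ∀ a b, ‖f₁ a b‖ ≤ 1)
    (h2 : ∀ a b, ‖f₂ a b‖ ≤ 1) (h3 : ∀ a, ‖h a‖ ≤ 1) :
    ‖∑ x₃ : Fin 4, ∑ x₁ : Fin 4, ∑ x₂ : Fin 4, (lamc (x₁ + x₂ + x₃) * h (x₁ + x₂)) * f₁ x₂ x₃ * f₂ x₁ x₃‖ ^ 2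
      ≤ 150 * 16 ^ 2 := by
  have hk : ∀ x : Fin 4, ∃ k : Fin 4, ∀ k' : Fin 4, ‖∑ t, lamc (t + x) * ic (k' * t) * h t‖
      ≤ ‖∑ t, lamc (t + x) * ic (k * t) * h t‖ := by
    intro x
    obtain ⟨k, -, hk⟩ := Finset.exists_max_image Finset.univ
      (fun k' : Fin 4 => ‖∑ t, lamc (t + x) * ic (k' * t) * h t‖) ⟨0, Finset.mem_univ _⟩
    exact ⟨k, fun k' => hk k' (Finset.mem_univ _)⟩
  choose k hk using hk
  have hq := quad k h
  set m : Fin 4 → ℝ := fun x => ‖∑ t, lamc (t + x) * ic (k x * t) * h t‖ with hm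
  have hS : ∀ x₃ : Fin 4, ‖∑ x₁ : Fin 4, ∑ x₂ : Fin 4, (lamc (x₁ + x₂ + x₃) * h (x₁ + x₂)) * f₁ x₂ x₃ * f₂ x₁ x₃‖
      ≤ 4 * m x₃ := by
    intro x₃
    refine dft4 (fun t => lamc (t + x₃) * h t) (fun y => f₁ y x₃) (fun y => f₂ y x₃) (m x₃) ?_
      (fun y => h1 y x₃) (fun y => h2 y x₃)
    intro k'
    refine le_trans (le_of_eq ?_) (hk x₃ k')
    congr 1
    exact Finset.sum_congr rfl fun t _ => by ring
  have hT : ‖∑ x₃ : Fin 4, ∑ x₁ : Fin 4, ∑ x₂ : Fin 4, (lamc (x₁ + x₂ + x₃) * h (x₁ + x₂)) * f₁ x₂ x₃ * f₂ x₁ x₃‖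
      ≤ 4 * ∑ x, m x := by
    refine le_trans (norm_sum_le _ _) ?_
    rw [Finset.mul_sum]
    exact Finset.sum_le_sum fun x _ => hS x
  have hm2 : ∑ x, m x ^ 2 ≤ 600 := by
    have e : ∑ x, m x ^ 2 = ∑ x, Complex.normSq (∑ t, lamc (t + x) * ic (k x * t) * h t) := by
      refine Finset.sum_congr rfl fun x _ => ?_
      rw [hm, Complex.normSq_eq_norm_sq]
    rw [e]
    refine le_trans hq ?_
    have : ∑ t : Fin 4, Complex.normSq (h t) ≤ ∑ t : Fin 4, (1:ℝ) := by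
      refine Finset.sum_le_sum fun t _ => ?_
      rw [Complex.normSq_eq_norm_sq]
      have := h3 t; have h0 := norm_nonneg (h t); nlinarith
    simp at this
    linarith
  have hc : (∑ x, m x) ^ 2 ≤ 4 * ∑ x, m x ^ 2 := by
    have := sq_sum_le_card_mul_sum_sq (s := (Finset.univ : Finset (Fin 4))) (f := m)
    simpa using this
  have hnn : 0 ≤ ‖∑ x₃ : Fin 4, ∑ x₁ : Fin 4, ∑ x₂ : Fin 4, (lamc (x₁ + x₂ + x₃) * h (x₁ + x₂)) * f₁ x₂ x₃ * f₂ x₁ x₃‖ := norm_nonneg _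
  calc _ ≤ (4 * ∑ x, m x) ^ 2 := by gcongr
    _ = 16 * (∑ x, m x) ^ 2 := by ring
    _ ≤ 16 * (4 * 600) := by nlinarith
    _ = 150 * 16 ^ 2 := by norm_num


def F1 : Fin 4 → Fin 4 → GaussianInt := ![![⟨-17,47⟩, ⟨-40,-30⟩, ⟨14,-48⟩, ⟨-14,48⟩],
  ![⟨-14,-48⟩, ⟨48,-14⟩, ⟨40,30⟩, ⟨-30,40⟩], ![⟨0,-50⟩, ⟨-14,-48⟩, ⟨-30,40⟩, ⟨48,-14⟩],
  ![⟨0,-50⟩, ⟨-14,48⟩, ⟨-17,-47⟩, ⟨0,50⟩]]
def F2 : Fin 4 → Fin 4 → GaussianInt := ![![⟨-50,0⟩, ⟨-27,-42⟩, ⟨-47,-17⟩, ⟨47,-17⟩],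
  ![⟨-47,-17⟩, ⟨-14,48⟩, ⟨48,-14⟩, ⟨0,50⟩], ![⟨27,42⟩, ⟨-30,-40⟩, ⟨42,27⟩, ⟨-30,40⟩],
  ![⟨47,17⟩, ⟨-50,0⟩, ⟨42,-27⟩, ⟨47,-17⟩]]
def F3 : Fin 4 → Fin 4 → GaussianInt := ![![⟨40,30⟩, ⟨-30,-40⟩, ⟨50,0⟩, ⟨40,30⟩],
  ![⟨-50,0⟩, ⟨50,0⟩, ⟨47,17⟩, ⟨0,-50⟩], ![⟨50,0⟩, ⟨-48,14⟩, ⟨50,0⟩, ⟨-48,14⟩],
  ![⟨48,-14⟩, ⟨27,42⟩, ⟨47,17⟩, ⟨-48,14⟩]]

theorem F1_le : ∀ a b, (F1 a b).re ^ 2 + (F1 a b).im ^ 2 ≤ 2500 := by decide +kernel
theorem F2_le : ∀ a b, (F2 a b).re ^ 2 + (F2 a b).im ^ 2 ≤ 2500 := by decide +kernel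
theorem F3_le : ∀ a b, (F3 a b).re ^ 2 + (F3 a b).im ^ 2 ≤ 2500 := by decide +kernel

theorem Fval : 24560000 ≤ (∑ x₃ : Fin 4, ∑ x₁ : Fin 4, ∑ x₂ : Fin 4,
    lamz (x₁ + x₂ + x₃) * F1 x₂ x₃ * F2 x₁ x₃ * F3 x₁ x₂).re := by decide +kernel


theorem reindex (c : Fin 4 → ℂ) (K : Fin 4 → Fin 4 → Fin 4 → ℂ) :
    ∑ g : Fin 4, c g * ∑ x₁ : Fin 4, ∑ x₂ : Fin 4, K x₁ x₂ (g - x₁ - x₂)
      = ∑ x₃ : Fin 4, ∑ x₁ : Fin 4, ∑ x₂ : Fin 4, c (x₁ + x₂ + x₃) * K x₁ x₂ x₃ := by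
  have e1 : ∀ x₁ x₂ : Fin 4, ∑ g : Fin 4, c g * K x₁ x₂ (g - x₁ - x₂)
      = ∑ x₃ : Fin 4, c (x₁ + x₂ + x₃) * K x₁ x₂ x₃ := by
    intro x₁ x₂
    rw [← Equiv.sum_comp (Equiv.addLeft (x₁ + x₂)) (fun g => c g * K x₁ x₂ (g - x₁ - x₂))]
    refine Finset.sum_congr rfl fun x₃ _ => ?_
    simp only [Equiv.coe_addLeft]
    rw [show x₁ + x₂ + x₃ - x₁ - x₂ = x₃ by abel]
  calc ∑ g : Fin 4, c g * ∑ x₁ : Fin 4, ∑ x₂ : Fin 4, K x₁ x₂ (g - x₁ - x₂)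
      = ∑ g : Fin 4, ∑ x₁ : Fin 4, ∑ x₂ : Fin 4, c g * K x₁ x₂ (g - x₁ - x₂) := by
        simp only [Finset.mul_sum]
    _ = ∑ x₁ : Fin 4, ∑ x₂ : Fin 4, ∑ g : Fin 4, c g * K x₁ x₂ (g - x₁ - x₂) := by
        rw [Finset.sum_comm]
        exact Finset.sum_congr rfl fun x₁ _ => Finset.sum_comm
    _ = ∑ x₁ : Fin 4, ∑ x₂ : Fin 4, ∑ x₃ : Fin 4, c (x₁ + x₂ + x₃) * K x₁ x₂ x₃ := by
        simp only [e1]
    _ = _ := by
        rw [Finset.sum_congr rfl fun x₁ _ => Finset.sum_comm]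
        rw [Finset.sum_comm]

theorem norm_div50 (z : GaussianInt) (hz : z.re ^ 2 + z.im ^ 2 ≤ 2500) :
    ‖GaussianInt.toComplex z / 50‖ ≤ 1 := by
  rw [norm_div]
  have h1 : ‖GaussianInt.toComplex z‖ ^ 2 ≤ 2500 := by
    rw [← Complex.normSq_eq_norm_sq, Complex.normSq_apply, ← GaussianInt.intCast_re,
      ← GaussianInt.intCast_im]
    have : ((z.re ^ 2 + z.im ^ 2 : ℤ) : ℝ) ≤ 2500 := by exact_mod_cast hz
    push_cast at this
    nlinarith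
  have h2 : ‖GaussianInt.toComplex z‖ ≤ 50 := by
    have h0 := norm_nonneg (GaussianInt.toComplex z)
    nlinarith
  have h3 : ‖(50:ℂ)‖ = 50 := by norm_num
  rw [h3, div_le_one (by norm_num)]
  exact h2

/-- The negation of the preceding statement: For every finite abelian group G, the convex hull of the averages E over x1+x2+x3=g of f1(x2,x3)f2(x1,x3)f3(x1,x2), with complex f_i bounded by 1, equals the convex hull obtained when f3(x1,x2) is replaced by h(x1+x2). -/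
theorem result :
    ¬ (∀ (G : Type) [AddCommGroup G] [Fintype G],
      convexHull ℝ {φ : G → ℂ | ∃ f₁ f₂ f₃ : G → G → ℂ,
          (∀ a b, ‖f₁ a b‖ ≤ 1) ∧ (∀ a b, ‖f₂ a b‖ ≤ 1) ∧ (∀ a b, ‖f₃ a b‖ ≤ 1) ∧
          φ = fun g => ((Fintype.card G : ℂ) ^ 2)⁻¹ *
            ∑ x₁ : G, ∑ x₂ : G, f₁ x₂ (g - x₁ - x₂) * f₂ x₁ (g - x₁ - x₂) * f₃ x₁ x₂}
      = convexHull ℝ {φ : G → ℂ | ∃ f₁ f₂ : G → G → ℂ, ∃ h : G → ℂ,
          (∀ a b, ‖f₁ a b‖ ≤ 1) ∧ (∀ a b, ‖f₂ a b‖ ≤ 1) ∧ (∀ a, ‖h a‖ ≤ 1) ∧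
          φ = fun g => ((Fintype.card G : ℂ) ^ 2)⁻¹ *
            ∑ x₁ : G, ∑ x₂ : G, f₁ x₂ (g - x₁ - x₂) * f₂ x₁ (g - x₁ - x₂) * h (x₁ + x₂)}) := by
  intro H
  have hG := H (Fin 4)
  let g₁ : Fin 4 → Fin 4 → ℂ := fun a b => GaussianInt.toComplex (F1 a b) / 50
  let g₂ : Fin 4 → Fin 4 → ℂ := fun a b => GaussianInt.toComplex (F2 a b) / 50
  let g₃ : Fin 4 → Fin 4 → ℂ := fun a b => GaussianInt.toComplex (F3 a b) / 50
  have hg₁ : ∀ a b, ‖g₁ a b‖ ≤ 1 := fun a b => norm_div50 _ (F1_le a b)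
  have hg₂ : ∀ a b, ‖g₂ a b‖ ≤ 1 := fun a b => norm_div50 _ (F2_le a b)
  have hg₃ : ∀ a b, ‖g₃ a b‖ ≤ 1 := fun a b => norm_div50 _ (F3_le a b)
  let ψ : Fin 4 → ℂ := fun g => ((Fintype.card (Fin 4) : ℂ) ^ 2)⁻¹ *
            ∑ x₁ : Fin 4, ∑ x₂ : Fin 4, g₁ x₂ (g - x₁ - x₂) * g₂ x₁ (g - x₁ - x₂) * g₃ x₁ x₂
  have hψ := subset_convexHull ℝ _ (show ψ ∈ {φ : Fin 4 → ℂ | ∃ f₁ f₂ f₃ : Fin 4 → Fin 4 → ℂ,
          (∀ a b, ‖f₁ a b‖ ≤ 1) ∧ (∀ a b, ‖f₂ a b‖ ≤ 1) ∧ (∀ a b, ‖f₃ a b‖ ≤ 1) ∧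
          φ = fun g => ((Fintype.card (Fin 4) : ℂ) ^ 2)⁻¹ *
            ∑ x₁ : Fin 4, ∑ x₂ : Fin 4, f₁ x₂ (g - x₁ - x₂) * f₂ x₁ (g - x₁ - x₂) * f₃ x₁ x₂}
      from ⟨g₁, g₂, g₃, hg₁, hg₂, hg₃, rfl⟩)
  rw [hG] at hψ
  have hlin : IsLinearMap ℝ (fun φ : Fin 4 → ℂ => (∑ g, lamc g * φ g).re) := by
    constructor
    · intro x y
      simp only [Pi.add_apply, mul_add, Finset.sum_add_distrib, Complex.add_re]
    · intro c x
      simp only [Pi.smul_apply, Complex.real_smul, smul_eq_mul]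
      rw [← Complex.re_ofReal_mul, Finset.mul_sum]
      congr 1
      exact Finset.sum_congr rfl fun i _ => by ring
  have hconv := convex_halfSpace_le hlin (√150)
  have hsub : {φ : Fin 4 → ℂ | ∃ f₁ f₂ : Fin 4 → Fin 4 → ℂ, ∃ h : Fin 4 → ℂ,
          (∀ a b, ‖f₁ a b‖ ≤ 1) ∧ (∀ a b, ‖f₂ a b‖ ≤ 1) ∧ (∀ a, ‖h a‖ ≤ 1) ∧
          φ = fun g => ((Fintype.card (Fin 4) : ℂ) ^ 2)⁻¹ *
            ∑ x₁ : Fin 4, ∑ x₂ : Fin 4, f₁ x₂ (g - x₁ - x₂) * f₂ x₁ (g - x₁ - x₂) * h (x₁ + x₂)}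
      ⊆ {w : Fin 4 → ℂ | (∑ g, lamc g * w g).re ≤ √150} := by
    rintro φ ⟨f₁, f₂, h, h1, h2, h3, rfl⟩
    rw [Set.mem_ofPred_eq]
    have hu := upper h f₁ f₂ h1 h2 h3
    have hr := reindex lamc (fun x₁ x₂ x₃ => f₁ x₂ x₃ * f₂ x₁ x₃ * h (x₁ + x₂))
    have e : ∑ g : Fin 4, lamc g * (((Fintype.card (Fin 4) : ℂ) ^ 2)⁻¹ *
            ∑ x₁ : Fin 4, ∑ x₂ : Fin 4, f₁ x₂ (g - x₁ - x₂) * f₂ x₁ (g - x₁ - x₂) * h (x₁ + x₂))
        = ((16⁻¹ : ℝ) : ℂ) * ∑ x₃ : Fin 4, ∑ x₁ : Fin 4, ∑ x₂ : Fin 4,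
            (lamc (x₁ + x₂ + x₃) * h (x₁ + x₂)) * f₁ x₂ x₃ * f₂ x₁ x₃ := by
      have e2 : ∑ x₃ : Fin 4, ∑ x₁ : Fin 4, ∑ x₂ : Fin 4,
            (lamc (x₁ + x₂ + x₃) * h (x₁ + x₂)) * f₁ x₂ x₃ * f₂ x₁ x₃
          = ∑ x₃ : Fin 4, ∑ x₁ : Fin 4, ∑ x₂ : Fin 4,
            lamc (x₁ + x₂ + x₃) * (f₁ x₂ x₃ * f₂ x₁ x₃ * h (x₁ + x₂)) := by
        refine Finset.sum_congr rfl fun _ _ => Finset.sum_congr rfl fun _ _ =>
          Finset.sum_congr rfl fun _ _ => by ring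
      rw [e2, ← hr, Finset.mul_sum]
      refine Finset.sum_congr rfl fun g _ => ?_
      rw [Fintype.card_fin]
      push_cast
      norm_num
      ring
    rw [e, Complex.re_ofReal_mul]
    have h5 := Complex.re_le_norm (∑ x₃ : Fin 4, ∑ x₁ : Fin 4, ∑ x₂ : Fin 4,
            (lamc (x₁ + x₂ + x₃) * h (x₁ + x₂)) * f₁ x₂ x₃ * f₂ x₁ x₃)
    have h6 : ‖∑ x₃ : Fin 4, ∑ x₁ : Fin 4, ∑ x₂ : Fin 4,
            (lamc (x₁ + x₂ + x₃) * h (x₁ + x₂)) * f₁ x₂ x₃ * f₂ x₁ x₃‖ ≤ √150 * 16 := by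
      rw [show √150 * 16 = √(150 * 16 ^ 2) by
        rw [Real.sqrt_mul (by norm_num), Real.sqrt_sq (by norm_num)]]
      exact Real.le_sqrt_of_sq_le hu
    linarith
  have hψ2 := convexHull_min hsub hconv hψ
  rw [Set.mem_ofPred_eq] at hψ2
  have hr := reindex lamc (fun x₁ x₂ x₃ => g₁ x₂ x₃ * g₂ x₁ x₃ * g₃ x₁ x₂)
  have e : ∑ g : Fin 4, lamc g * ψ g = ((2000000⁻¹ : ℝ) : ℂ) * GaussianInt.toComplex
      (∑ x₃ : Fin 4, ∑ x₁ : Fin 4, ∑ x₂ : Fin 4,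
        lamz (x₁ + x₂ + x₃) * F1 x₂ x₃ * F2 x₁ x₃ * F3 x₁ x₂) := by
    have e3 : ∑ g : Fin 4, lamc g * ψ g = (16:ℂ)⁻¹ * ∑ g : Fin 4, lamc g *
        ∑ x₁ : Fin 4, ∑ x₂ : Fin 4, g₁ x₂ (g - x₁ - x₂) * g₂ x₁ (g - x₁ - x₂) * g₃ x₁ x₂ := by
      rw [Finset.mul_sum]
      refine Finset.sum_congr rfl fun g _ => ?_
      simp only [ψ]
      rw [Fintype.card_fin]
      norm_num
      ring
    rw [e3, hr]
    simp only [map_sum, Finset.mul_sum, map_mul]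
    refine Finset.sum_congr rfl fun x₃ _ => Finset.sum_congr rfl fun x₁ _ =>
          Finset.sum_congr rfl fun x₂ _ => ?_
    simp only [g₁, g₂, g₃, lamc]
    push_cast
    ring
  rw [e, Complex.re_ofReal_mul, ← GaussianInt.intCast_re] at hψ2
  have hv : (24560000 : ℝ) ≤ (((∑ x₃ : Fin 4, ∑ x₁ : Fin 4, ∑ x₂ : Fin 4,
    lamz (x₁ + x₂ + x₃) * F1 x₂ x₃ * F2 x₁ x₃ * F3 x₁ x₂ : GaussianInt).re : ℤ) : ℝ) := by
    exact_mod_cast Fval
  have h7 : √150 < 12.28 := by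
    rw [Real.sqrt_lt' (by norm_num)]
    norm_num
  have h8 : (2000000⁻¹ : ℝ) * 24560000 = 12.28 := by norm_num
  have h9 := mul_le_mul_of_nonneg_left hv (show (0:ℝ) ≤ 2000000⁻¹ by norm_num)
  linarith

end Pool.Agent.S07336
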