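import Pool.Statements.S07337

set_option autoImplicit false
open Pool Pool.MP_cdedfe_co

namespace Pool.Agent.S07337

open Finset

/-- Dependent random choice: among `m` sets of density at least `c` there is a subfamily of size
at least `m c^t - m^2 ε^t` whose members pairwise meet in density more than `ε`. -/
theorem drc {ι α : Type*} [Fintype ι] [DecidableEq ι] [Fintype α] [DecidableEq α] [Nonempty α]
    (A : ι → Finset α) (c ε : ℝ) (hc : 0 ≤ c) (hε : 0 ≤ ε)
    (hA : ∀ i, c * (Fintype.card α : ℝ) ≤ ((A i).card : ℝ)) (t : ℕ) :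
    ∃ I : Finset ι,
      (Fintype.card ι : ℝ) * c ^ t - (Fintype.card ι : ℝ) ^ 2 * ε ^ t ≤ (I.card : ℝ) ∧
      ∀ i ∈ I, ∀ j ∈ I, i ≠ j → ε * (Fintype.card α : ℝ) < ((A i ∩ A j).card : ℝ) := by
  classical
  set n : ℝ := (Fintype.card α : ℝ) with hn
  set m : ℝ := (Fintype.card ι : ℝ) with hm
  have hnpos : 0 < n := by
    rw [hn]; exact_mod_cast Fintype.card_pos
  -- the selected set
  let S : (Fin t → α) → Finset ι := fun x => univ.filter (fun i => ∀ s, x s ∈ A i)
  let B : Finset (ι × ι) :=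
    univ.filter (fun p => p.1 ≠ p.2 ∧ ((A p.1 ∩ A p.2).card : ℝ) ≤ ε * n)
  let T : (Fin t → α) → Finset (ι × ι) := fun x =>
    B.filter (fun p => ∀ s, x s ∈ A p.1 ∩ A p.2)
  have key1 : ∑ x : Fin t → α, ((S x).card : ℝ) = ∑ i : ι, ((A i).card : ℝ) ^ t := by
    have h1 : ∀ x : Fin t → α, ((S x).card : ℝ) =
        ∑ i : ι, (if (∀ s, x s ∈ A i) then (1 : ℝ) else 0) := by
      intro x
      simp [S]
    simp_rw [h1]
    rw [Finset.sum_comm]
    refine Finset.sum_congr rfl ?_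
    intro i _
    have h2 : (Fintype.piFinset (fun _ : Fin t => A i)).card = (A i).card ^ t := by
      simp
    have h3 : (univ.filter (fun x : Fin t → α => ∀ s, x s ∈ A i))
        = Fintype.piFinset (fun _ : Fin t => A i) := by
      ext x; simp
    rw [Finset.sum_boole, h3, h2]
    push_cast; rfl
  have key2 : ∑ x : Fin t → α, ((T x).card : ℝ) = ∑ p ∈ B, ((A p.1 ∩ A p.2).card : ℝ) ^ t := by
    have h1 : ∀ x : Fin t → α, ((T x).card : ℝ) =
        ∑ p ∈ B, (if (∀ s, x s ∈ A p.1 ∩ A p.2) then (1 : ℝ) else 0) := by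
      intro x
      rw [Finset.sum_boole]
    simp_rw [h1]
    rw [Finset.sum_comm]
    refine Finset.sum_congr rfl ?_
    intro p _
    have h2 : (Fintype.piFinset (fun _ : Fin t => A p.1 ∩ A p.2)).card
        = (A p.1 ∩ A p.2).card ^ t := by
      simp
    have h3 : (univ.filter (fun x : Fin t → α => ∀ s, x s ∈ A p.1 ∩ A p.2))
        = Fintype.piFinset (fun _ : Fin t => A p.1 ∩ A p.2) := by
      ext x; simp
    rw [Finset.sum_boole, h3, h2]
    push_cast; rfl
  have low : m * (c * n) ^ t ≤ ∑ x : Fin t → α, ((S x).card : ℝ) := by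
    rw [key1]
    have : ∑ i : ι, (c * n) ^ t ≤ ∑ i : ι, ((A i).card : ℝ) ^ t := by
      refine Finset.sum_le_sum ?_
      intro i _
      exact pow_le_pow_left₀ (by positivity) (hA i) t
    simpa [hm] using this
  have upp : ∑ x : Fin t → α, ((T x).card : ℝ) ≤ m ^ 2 * (ε * n) ^ t := by
    rw [key2]
    have h1 : ∑ p ∈ B, ((A p.1 ∩ A p.2).card : ℝ) ^ t ≤ ∑ p ∈ B, (ε * n) ^ t := by
      refine Finset.sum_le_sum ?_
      intro p hp
      have hp' := (Finset.mem_filter.mp hp).2.2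
      exact pow_le_pow_left₀ (by positivity) hp' t
    have h2 : ∑ p ∈ B, (ε * n) ^ t = (B.card : ℝ) * (ε * n) ^ t := by simp
    have h3 : (B.card : ℝ) ≤ m ^ 2 := by
      have : B.card ≤ Fintype.card (ι × ι) := Finset.card_le_univ B
      rw [Fintype.card_prod] at this
      calc (B.card : ℝ) ≤ ((Fintype.card ι * Fintype.card ι : ℕ) : ℝ) := by exact_mod_cast this
        _ = m ^ 2 := by push_cast; rw [hm]; ring
    calc ∑ p ∈ B, ((A p.1 ∩ A p.2).card : ℝ) ^ t ≤ (B.card : ℝ) * (ε * n) ^ t := by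
            rw [← h2]; exact h1
      _ ≤ m ^ 2 * (ε * n) ^ t := by
            apply mul_le_mul_of_nonneg_right h3 (by positivity)
  -- choose x
  have hex : ∃ x : Fin t → α, m * c ^ t - m ^ 2 * ε ^ t ≤ ((S x).card : ℝ) - ((T x).card : ℝ) := by
    by_contra hcon
    push Not at hcon
    have hlt : ∑ x : Fin t → α, (((S x).card : ℝ) - ((T x).card : ℝ))
        < ∑ x : Fin t → α, (m * c ^ t - m ^ 2 * ε ^ t) := by
      refine Finset.sum_lt_sum_of_nonempty ?_ ?_
      · exact Finset.univ_nonempty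
      · intro x _; exact hcon x
    rw [Finset.sum_sub_distrib] at hlt
    have hcard : ∑ x : Fin t → α, (m * c ^ t - m ^ 2 * ε ^ t)
        = n ^ t * (m * c ^ t - m ^ 2 * ε ^ t) := by
      simp [hn]
      ring
    rw [hcard] at hlt
    have : n ^ t * (m * c ^ t - m ^ 2 * ε ^ t) = m * (c * n) ^ t - m ^ 2 * (ε * n) ^ t := by
      rw [mul_pow, mul_pow]; ring
    linarith
  obtain ⟨x, hx⟩ := hex
  refine ⟨S x \ (T x).image Prod.fst, ?_, ?_⟩
  · have h1 : ((S x \ (T x).image Prod.fst).card : ℝ)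
        ≥ ((S x).card : ℝ) - (((T x).image Prod.fst).card : ℝ) := by
      have := Finset.le_card_sdiff ((T x).image Prod.fst) (S x)
      have h' : (S x).card ≤ (S x \ (T x).image Prod.fst).card + ((T x).image Prod.fst).card := by
        omega
      have h'' : ((S x).card : ℝ) ≤ ((S x \ (T x).image Prod.fst).card : ℝ)
          + (((T x).image Prod.fst).card : ℝ) := by exact_mod_cast h'
      linarith
    have h2 : (((T x).image Prod.fst).card : ℝ) ≤ ((T x).card : ℝ) := by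
      exact_mod_cast Finset.card_image_le
    linarith
  · intro i hi j hj hij
    rw [Finset.mem_sdiff] at hi hj
    by_contra hle
    push Not at hle
    apply hi.2
    rw [Finset.mem_image]
    refine ⟨(i, j), ?_, rfl⟩
    simp only [T, B, Finset.mem_filter, Finset.mem_univ, true_and]
    refine ⟨⟨hij, hle⟩, ?_⟩
    intro s
    rw [Finset.mem_inter]
    have hi' := (Finset.mem_filter.mp hi.1).2 s
    have hj' := (Finset.mem_filter.mp hj.1).2 s
    exact ⟨hi', hj'⟩

/-- For every 0<c<1 there are ε>0 and C>0 such that, for all large n, any n subsets of an n-element set each of size at least cn contain at least C√n of them whose pairwise intersections all exceed εn. -/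
theorem result :
    ∀ c : ℝ, 0 < c → c < 1 →
      ∃ ε : ℝ, 0 < ε ∧ ∃ C : ℝ, 0 < C ∧ ∃ N : ℕ, ∀ n : ℕ, N ≤ n →
        ∀ A : Fin n → Finset (Fin n), (∀ k, c * (n : ℝ) ≤ ((A k).card : ℝ)) →
          ∃ I : Finset (Fin n), C * Real.sqrt (n : ℝ) ≤ (I.card : ℝ) ∧
            ∀ i ∈ I, ∀ j ∈ I, i ≠ j → ε * (n : ℝ) < (((A i ∩ A j).card : ℕ) : ℝ) := by
  intro c hc0 hc1
  refine ⟨c ^ 3, by positivity, c / 4, by positivity, 1, ?_⟩
  intro n hn A hA
  have hnR : (1 : ℝ) ≤ (n : ℝ) := by exact_mod_cast hn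
  have : Nonempty (Fin n) := ⟨⟨0, hn⟩⟩
  -- choose t
  have hc2 : c ^ 2 < 1 := by nlinarith
  have hex : ∃ t : ℕ, (c ^ 2) ^ t ≤ 1 / (2 * (n : ℝ)) := by
    obtain ⟨t, ht⟩ := exists_pow_lt_of_lt_one (show (0 : ℝ) < 1 / (2 * (n : ℝ)) by positivity) hc2
    exact ⟨t, ht.le⟩
  classical
  let t := Nat.find hex
  have ht : (c ^ 2) ^ t ≤ 1 / (2 * (n : ℝ)) := Nat.find_spec hex
  have htpos : 0 < t := by
    rcases Nat.eq_zero_or_pos t with h0 | h0
    · exfalso
      rw [h0, pow_zero] at ht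
      rw [le_div_iff₀ (by positivity)] at ht
      linarith
    · exact h0
  have ht1 : 1 / (2 * (n : ℝ)) < (c ^ 2) ^ (t - 1) := by
    have := Nat.find_min hex (m := t - 1) (by omega)
    push Not at this
    exact this
  have ht2 : c ^ 2 / (2 * (n : ℝ)) < (c ^ t) ^ 2 := by
    have h1 : (c ^ t) ^ 2 = c ^ 2 * (c ^ 2) ^ (t - 1) := by
      rw [← pow_mul, ← pow_mul, ← pow_add]
      congr 1
      omega
    rw [h1]
    have := mul_lt_mul_of_pos_left ht1 (show (0 : ℝ) < c ^ 2 by positivity)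
    calc c ^ 2 / (2 * (n : ℝ)) = c ^ 2 * (1 / (2 * (n : ℝ))) := by ring
      _ < _ := this
  obtain ⟨I, hI1, hI2⟩ := drc A c (c ^ 3) hc0.le (by positivity) (by simpa using hA) t
  refine ⟨I, ?_, ?_⟩
  · refine le_trans ?_ hI1
    simp only [Fintype.card_fin]
    have hct : 0 < c ^ t := by positivity
    have e1 : (n : ℝ) * c ^ t - (n : ℝ) ^ 2 * (c ^ 3) ^ t
        = (n : ℝ) * c ^ t * (1 - (n : ℝ) * (c ^ 2) ^ t) := by
      have : (c ^ 3) ^ t = c ^ t * (c ^ 2) ^ t := by
        rw [← pow_mul, ← pow_mul, ← pow_add]; congr 1; ring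
      rw [this]; ring
    rw [e1]
    have e2 : (n : ℝ) * (c ^ 2) ^ t ≤ 1 / 2 := by
      calc (n : ℝ) * (c ^ 2) ^ t ≤ (n : ℝ) * (1 / (2 * (n : ℝ))) := by
            apply mul_le_mul_of_nonneg_left ht (by positivity)
        _ = 1 / 2 := by field_simp
    have e3 : c / 2 * Real.sqrt (n : ℝ) ≤ (n : ℝ) * c ^ t := by
      have hs : Real.sqrt (n : ℝ) ^ 2 = (n : ℝ) := Real.sq_sqrt (by positivity)
      have hspos : 0 < Real.sqrt (n : ℝ) := Real.sqrt_pos.mpr (by linarith)
      apply le_of_sq_le_sq _ (by positivity)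
      · have h3 : (c / 2 * Real.sqrt (n : ℝ)) ^ 2 = c ^ 2 / 4 * (n : ℝ) := by
          rw [mul_pow, hs]; ring
        rw [h3, mul_pow]
        have h4 : (n : ℝ) ^ 2 * (c ^ 2 / (2 * (n : ℝ))) ≤ (n : ℝ) ^ 2 * (c ^ t) ^ 2 :=
          mul_le_mul_of_nonneg_left ht2.le (by positivity)
        have h5 : (n : ℝ) ^ 2 * (c ^ 2 / (2 * (n : ℝ))) = c ^ 2 / 2 * (n : ℝ) := by
          field_simp
        rw [h5] at h4
        have h6 : c ^ 2 / 4 * (n : ℝ) ≤ c ^ 2 / 2 * (n : ℝ) := by
          apply mul_le_mul_of_nonneg_right _ (by positivity)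
          nlinarith [sq_nonneg c]
        linarith
    have e4 : (n : ℝ) * c ^ t * (1 / 2) ≤ (n : ℝ) * c ^ t * (1 - (n : ℝ) * (c ^ 2) ^ t) := by
      apply mul_le_mul_of_nonneg_left _ (by positivity)
      linarith
    calc c / 4 * Real.sqrt (n : ℝ) = (c / 2 * Real.sqrt (n : ℝ)) * (1 / 2) := by ring
      _ ≤ (n : ℝ) * c ^ t * (1 / 2) := by
          apply mul_le_mul_of_nonneg_right e3 (by norm_num)
      _ ≤ _ := e4
  · intro i hi j hj hij
    have := hI2 i hi j hj hij
    simpa using this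

end Pool.Agent.S07337
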