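import Pool.Statements.S07348
import Pool.Agent.Helper477.Circle

set_option autoImplicit false
open MeasureTheory
open Pool Pool.MP_ced1be_co

namespace Pool.Agent.S07348

/-- The negation of the preceding statement: For any two measurable planar sets of finite area, some open disk or open half-plane contains exactly one third of the area of each set. -/
theorem result :
    ¬ (∀ A₁ A₂ : Set (EuclideanSpace ℝ (Fin 2)),
      MeasurableSet A₁ → MeasurableSet A₂ →
      volume A₁ < ⊤ → volume A₂ < ⊤ →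
      ∃ S : Set (EuclideanSpace ℝ (Fin 2)),
        ((∃ (p : EuclideanSpace ℝ (Fin 2)) (r : ℝ), 0 < r ∧ S = Metric.ball p r) ∨
         (∃ (v : EuclideanSpace ℝ (Fin 2)) (c : ℝ), v ≠ 0 ∧
            S = {x : EuclideanSpace ℝ (Fin 2) | inner ℝ v x < c})) ∧
        volume (A₁ ∩ S) = volume A₁ / 3 ∧
        volume (A₂ ∩ S) = volume A₂ / 3) := by
  intro H
  obtain ⟨S, hS, h1, h2⟩ := H Helper477.Circle.A1 Helper477.Circle.A2
    Helper477.Circle.meas_A1 Helper477.Circle.meas_A2
    (by rw [Helper477.Circle.vol_A1]; exact ENNReal.ofReal_lt_top)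
    (lt_top_iff_ne_top.2 Helper477.Circle.vol_A2_ne_top)
  rcases hS with ⟨p, r, hr, rfl⟩ | ⟨v, c, _, rfl⟩
  · rw [Helper477.Circle.ball_eq p hr] at h1 h2
    exact Helper477.Circle.no_cut _ _ zero_le_one _ h1 h2
  · rw [Helper477.Circle.half_eq v c] at h1 h2
    exact Helper477.Circle.no_cut _ _ le_rfl _ h1 h2

end Pool.Agent.S07348
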