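import Pool.Statements.S07352
import Pool.Agent.Helper167.TorusColor
import Pool.Agent.Helper167.TorusHomeo2

set_option autoImplicit false
open Pool Pool.MP_cf103f_co

namespace Pool.Agent.S07352

/-- The negation of the preceding statement: Every torus-shaped polyhedron in 3-space made of finitely many convex polygons meeting edge-to-edge, with edge-sharing polygons never coplanar, has its faces colourable with 4 colours so that faces sharing an edge get different colours. -/
theorem result :
    ¬ (∀ (n : ℕ) (S : Fin n → Finset (EuclideanSpace ℝ (Fin 3))),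
      (∀ i, Module.finrank ℝ
          (vectorSpan ℝ (convexHull ℝ (S i : Set (EuclideanSpace ℝ (Fin 3))))) = 2) →
      (∀ i j, i ≠ j →
          IsExposed ℝ (convexHull ℝ (S i : Set (EuclideanSpace ℝ (Fin 3))))
            (convexHull ℝ (S i : Set (EuclideanSpace ℝ (Fin 3))) ∩
              convexHull ℝ (S j : Set (EuclideanSpace ℝ (Fin 3)))) ∧
          IsExposed ℝ (convexHull ℝ (S j : Set (EuclideanSpace ℝ (Fin 3))))
            (convexHull ℝ (S i : Set (EuclideanSpace ℝ (Fin 3))) ∩
              convexHull ℝ (S j : Set (EuclideanSpace ℝ (Fin 3)))) ∧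
          Module.finrank ℝ (vectorSpan ℝ
            (convexHull ℝ (S i : Set (EuclideanSpace ℝ (Fin 3))) ∩
              convexHull ℝ (S j : Set (EuclideanSpace ℝ (Fin 3))))) ≤ 1) →
      (∀ i j, i ≠ j →
          Module.finrank ℝ (vectorSpan ℝ
            (convexHull ℝ (S i : Set (EuclideanSpace ℝ (Fin 3))) ∩
              convexHull ℝ (S j : Set (EuclideanSpace ℝ (Fin 3))))) = 1 →
          ¬ Coplanar ℝ (convexHull ℝ (S i : Set (EuclideanSpace ℝ (Fin 3))) ∪
              convexHull ℝ (S j : Set (EuclideanSpace ℝ (Fin 3))))) →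
      Nonempty (↥(⋃ i, convexHull ℝ (S i : Set (EuclideanSpace ℝ (Fin 3)))) ≃ₜ
          (AddCircle (1 : ℝ) × AddCircle (1 : ℝ))) →
      ∃ c : Fin n → Fin 4, ∀ i j, i ≠ j →
          Module.finrank ℝ (vectorSpan ℝ
            (convexHull ℝ (S i : Set (EuclideanSpace ℝ (Fin 3))) ∩
              convexHull ℝ (S j : Set (EuclideanSpace ℝ (Fin 3))))) = 1 →
          c i ≠ c j) := by
  intro H
  obtain ⟨c, hc⟩ := H 15 (fun i => Helper167.Torus.PS (Helper167.Torus.fv i.1))
    (fun i => Helper167.Torus.face_finrank i.1 i.2)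
    (fun i j hij => by
      have hne : i.1 ≠ j.1 := fun h => hij (Fin.ext h)
      refine ⟨Helper167.Torus.face_exposed i.1 j.1 i.2 j.2 hne, ?_, ?_⟩
      · rw [Set.inter_comm]
        exact Helper167.Torus.face_exposed j.1 i.1 j.2 i.2 hne.symm
      · by_cases h2 : (Helper167.Torus.com i.1 j.1).length = 2
        · exact ((Helper167.Torus.inter_finrank i.1 j.1 i.2 j.2 hne).1 h2).le
        · rw [(Helper167.Torus.inter_finrank i.1 j.1 i.2 j.2 hne).2 h2]
          exact Nat.zero_le 1)
    (fun i j hij _ => Helper167.Torus.not_coplanar i.1 j.1 i.2 j.2 (fun h => hij (Fin.ext h)))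
    Helper167.Torus.homeo_UU
  apply Helper167.Torus.no_colouring (fun k => if hk : k < 15 then (c ⟨k, hk⟩).1 else 0)
  · intro i
    split_ifs with hi
    · exact (c ⟨i, hi⟩).2
    · norm_num
  · intro i j hi hj hij ha
    simp only [dif_pos hi, dif_pos hj]
    have ha2 : (Helper167.Torus.com i j).length = 2 := by
      simpa [Helper167.Torus.adj] using ha
    have h := hc ⟨i, hi⟩ ⟨j, hj⟩ (fun h => hij (Fin.mk.inj h))
      ((Helper167.Torus.inter_finrank i j hi hj hij).1 ha2)
    exact fun he => h (Fin.ext he)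

end Pool.Agent.S07352
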