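import Pool.Statements.S07355
import Pool.Agent.Helper613.Cub.Main
import Pool.Agent.Helper613.Cub.k20conn
import Pool.Agent.Helper613.Cub.k21iso
import Pool.Agent.Helper613.Cub.k22real
-- import your own Pool.Agent.* helpers here

set_option autoImplicit false
open Pool Pool.MP_cf447d_co

namespace Pool.Agent.S07355

/-- For every finite simple graph on n ≥ 16 vertices that is 3-regular and stays connected after deleting any at most 2 vertices, its automorphism group has order less than n times 2 to the power n/4. -/
theorem result :
    ∀ (V : Type) [Fintype V] [DecidableEq V] (G : SimpleGraph V) [DecidableRel G.Adj],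
      16 ≤ Fintype.card V →
      G.IsRegularOfDegree 3 →
      (∀ S : Finset V, S.card ≤ 2 → (G.induce ((S : Set V)ᶜ)).Connected) →
      (Nat.card (G ≃g G) : ℝ) < (Fintype.card V : ℝ) * (2 : ℝ) ^ ((Fintype.card V : ℝ) / 4) := by
  intro V _ _ G _ hn hreg hconn
  have hc : Pool.Agent.Helper613.Cub.Cubic G := by
    intro v
    have h1 := hreg v
    rw [← SimpleGraph.card_neighborSet_eq_degree] at h1
    rw [← Nat.card_coe_set_eq, Nat.card_eq_fintype_card]
    exact h1
  have h3 : Pool.Agent.Helper613.Cub.Conn3 G :=
    Pool.Agent.Helper613.Cub.k20conn.conn3_of hconn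
  have hmain := Pool.Agent.Helper613.Cub.Main.main_nat hc h3 hn
  rw [← Pool.Agent.Helper613.Cub.k21iso.card_iso] at hmain
  exact Pool.Agent.Helper613.Cub.k22real.real_of_nat hmain

end Pool.Agent.S07355
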