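import Pool.Statements.S07359
import Pool.Agent.Helper4.Final

set_option autoImplicit false
open scoped Pointwise
open Pool Pool.MP_cf8024_co

namespace Pool.Agent.S07359

/-- For every K>0 there is C such that every nonempty A in F_2^n with ∣A∣ at least (1/2 − K/√n)·2^n has A+A containing a coset x+V of a subspace V of codimension at most C. -/
theorem result :
    ∀ K : ℝ, 0 < K → ∃ C : ℕ, ∀ n : ℕ, ∀ A : Finset (Fin n → ZMod 2),
      A.Nonempty →
      (A.card : ℝ) ≥ (1 / 2 - K / Real.sqrt n) * 2 ^ n →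
      ∃ V : Submodule (ZMod 2) (Fin n → ZMod 2), ∃ x : Fin n → ZMod 2,
        n ≤ Module.finrank (ZMod 2) V + C ∧ ∀ v ∈ V, x + v ∈ A + A := by
  intro K hK
  refine ⟨⌊20000 * K ^ 2⌋₊ + 1, ?_⟩
  intro n A hA hcard
  rcases Nat.eq_zero_or_pos n with hn | hn
  · subst hn
    refine ⟨⊥, 0, by omega, ?_⟩
    intro v hv
    rw [Submodule.mem_bot] at hv
    subst hv
    obtain ⟨a, ha⟩ := hA
    have h0 : (0 : Fin 0 → ZMod 2) + 0 = a + a := Subsingleton.elim _ _
    rw [h0]
    exact Finset.add_mem_add ha ha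
  · have hn' : (0:ℝ) < n := by exact_mod_cast hn
    have hs : 0 < Real.sqrt n := Real.sqrt_pos.2 hn'
    obtain ⟨V, hV, hV2⟩ := Pool.Agent.Helper4.subspace_in_sumset A hA (K / Real.sqrt n)
      (by positivity) hcard (⌊20000 * K ^ 2⌋₊ + 1) (by
        have h1 : 20000 * (K / Real.sqrt n) ^ 2 * n = 20000 * K ^ 2 := by
          rw [div_pow, Real.sq_sqrt hn'.le]; field_simp
        rw [h1]
        push_cast
        exact Nat.lt_floor_add_one (20000 * K ^ 2))
    refine ⟨V, 0, hV, ?_⟩
    intro v hv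
    rw [zero_add]
    exact hV2 v hv

end Pool.Agent.S07359
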