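import Pool.Statements.S07363

set_option autoImplicit false
open Pool Pool.MP_cfb0df_co

namespace Pool.Agent.S07363

/-!
The witness is `k = 2`, `r = 3` and the graph `F` with 27 vertices and 39 edges built from three hubs
`v 0, v 1, v 2`: for each `i` there is an edge `x (i,0) x (i,1)`, and `x (i,0)`, `x (i,1)` are each joined
by three parallel paths of length two to the hubs `v i`, `v (i+1)`.  It contains a cycle of length 15,
so it is not bipartite and hence not Sidorenko.  For a 3-graph `G` let `w` be the codegree weight.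
Sampling each bridge inside its own hyperedge and applying Hoelder's inequality with three functions,
each being attached to one of the three pairs of a hyperedge `xyz`, gives
`t(F, w) >= (E c(x) c(y) c(z))^3`, where `c` is the rooted 4-cycle density, and Jensen's inequality
for the logarithm finishes the proof.
-/

section helpers

open Finset

lemma amgm3 (u v w : ℝ) (hu : 0 ≤ u) (hv : 0 ≤ v) (hw : 0 ≤ w) :
    3 * (u * v * w) ≤ u ^ 3 + v ^ 3 + w ^ 3 := by
  nlinarith [mul_nonneg (add_nonneg (add_nonneg hu hv) hw) (sq_nonneg (u - v)),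
    mul_nonneg (add_nonneg (add_nonneg hu hv) hw) (sq_nonneg (v - w)),
    mul_nonneg (add_nonneg (add_nonneg hu hv) hw) (sq_nonneg (u - w))]

lemma exists_cube_root (X : ℝ) (hX : 0 < X) : ∃ α : ℝ, 0 < α ∧ α ^ 3 = X := by
  refine ⟨X ^ ((1 : ℝ) / 3), Real.rpow_pos_of_pos hX _, ?_⟩
  rw [← Real.rpow_natCast, ← Real.rpow_mul hX.le]
  norm_num

lemma sum_zero_aux {ι : Type*} (t : Finset ι) (s a b : ι → ℝ) (hs : ∀ i ∈ t, 0 ≤ s i)
    (ha : ∀ i ∈ t, 0 ≤ a i) (h0 : ∑ i ∈ t, s i * a i ^ 3 = 0) :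
    ∑ i ∈ t, s i * (a i * b i) = 0 := by
  have h1 := (Finset.sum_eq_zero_iff_of_nonneg
    (fun i hi => mul_nonneg (hs i hi) (pow_nonneg (ha i hi) 3))).1 h0
  apply Finset.sum_eq_zero
  intro i hi
  rcases mul_eq_zero.1 (h1 i hi) with h | h
  · rw [h]; ring
  · have : a i = 0 := by simpa using h
    rw [this]; ring

/-- Hölder's inequality with three functions, in cubed form. -/
lemma holder3 {ι : Type*} (t : Finset ι) (s a b c : ι → ℝ) (hs : ∀ i ∈ t, 0 ≤ s i)
    (ha : ∀ i ∈ t, 0 ≤ a i) (hb : ∀ i ∈ t, 0 ≤ b i) (hc : ∀ i ∈ t, 0 ≤ c i) :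
    (∑ i ∈ t, s i * (a i * b i * c i)) ^ 3 ≤
      (∑ i ∈ t, s i * a i ^ 3) * (∑ i ∈ t, s i * b i ^ 3) * (∑ i ∈ t, s i * c i ^ 3) := by
  have hX : 0 ≤ ∑ i ∈ t, s i * a i ^ 3 :=
    Finset.sum_nonneg fun i hi => mul_nonneg (hs i hi) (pow_nonneg (ha i hi) 3)
  have hY : 0 ≤ ∑ i ∈ t, s i * b i ^ 3 :=
    Finset.sum_nonneg fun i hi => mul_nonneg (hs i hi) (pow_nonneg (hb i hi) 3)
  have hZ : 0 ≤ ∑ i ∈ t, s i * c i ^ 3 :=
    Finset.sum_nonneg fun i hi => mul_nonneg (hs i hi) (pow_nonneg (hc i hi) 3)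
  rcases hX.eq_or_lt with hX0 | hXp
  · have := sum_zero_aux t s a (fun i => b i * c i) hs ha hX0.symm
    have h2 : ∑ i ∈ t, s i * (a i * b i * c i) = 0 := by
      rw [← this]; apply Finset.sum_congr rfl; intro i _; ring
    rw [h2]
    have := mul_nonneg (mul_nonneg hX hY) hZ
    simpa using this
  rcases hY.eq_or_lt with hY0 | hYp
  · have := sum_zero_aux t s b (fun i => a i * c i) hs hb hY0.symm
    have h2 : ∑ i ∈ t, s i * (a i * b i * c i) = 0 := by
      rw [← this]; apply Finset.sum_congr rfl; intro i _; ring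
    rw [h2]
    have := mul_nonneg (mul_nonneg hX hY) hZ
    simpa using this
  rcases hZ.eq_or_lt with hZ0 | hZp
  · have := sum_zero_aux t s c (fun i => a i * b i) hs hc hZ0.symm
    have h2 : ∑ i ∈ t, s i * (a i * b i * c i) = 0 := by
      rw [← this]; apply Finset.sum_congr rfl; intro i _; ring
    rw [h2]
    have := mul_nonneg (mul_nonneg hX hY) hZ
    simpa using this
  obtain ⟨α, hα, hα3⟩ := exists_cube_root _ hXp
  obtain ⟨β, hβ, hβ3⟩ := exists_cube_root _ hYp
  obtain ⟨γ, hγ, hγ3⟩ := exists_cube_root _ hZp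
  have hmain : ∑ i ∈ t, s i * (a i * b i * c i) ≤ α * β * γ := by
    have hterm : ∀ i ∈ t, s i * (a i * b i * c i) ≤
        (α * β * γ / 3) * (s i * a i ^ 3 / α ^ 3 + s i * b i ^ 3 / β ^ 3 + s i * c i ^ 3 / γ ^ 3) := by
      intro i hi
      have h1 := amgm3 (a i / α) (b i / β) (c i / γ) (div_nonneg (ha i hi) hα.le)
        (div_nonneg (hb i hi) hβ.le) (div_nonneg (hc i hi) hγ.le)
      have h2 := mul_le_mul_of_nonneg_left h1 (mul_nonneg (by positivity : 0 ≤ α * β * γ / 3) (hs i hi))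
      calc s i * (a i * b i * c i) = α * β * γ / 3 * s i * (3 * (a i / α * (b i / β) * (c i / γ))) := by
            field_simp
        _ ≤ _ := h2
        _ = _ := by
            rw [div_pow, div_pow, div_pow]; ring
    refine (Finset.sum_le_sum hterm).trans ?_
    rw [← Finset.mul_sum, Finset.sum_add_distrib, Finset.sum_add_distrib, ← Finset.sum_div,
      ← Finset.sum_div, ← Finset.sum_div, ← hα3, ← hβ3, ← hγ3]
    rw [div_self (by positivity), div_self (by positivity), div_self (by positivity)]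
    apply le_of_eq; ring
  have hnn : 0 ≤ ∑ i ∈ t, s i * (a i * b i * c i) :=
    Finset.sum_nonneg fun i hi => mul_nonneg (hs i hi)
      (mul_nonneg (mul_nonneg (ha i hi) (hb i hi)) (hc i hi))
  calc (∑ i ∈ t, s i * (a i * b i * c i)) ^ 3 ≤ (α * β * γ) ^ 3 := pow_le_pow_left₀ hnn hmain 3
    _ = α ^ 3 * β ^ 3 * γ ^ 3 := by ring
    _ = _ := by rw [hα3, hβ3, hγ3]

/-- Jensen's inequality for the logarithm, with nonnegative weights that need not sum to one. -/
lemma sum_mul_log_le {ι : Type*} (t : Finset ι) (p u : ι → ℝ) (hp : ∀ i ∈ t, 0 ≤ p i)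
    (hu : ∀ i ∈ t, 0 < p i → 0 < u i) (hP : 0 < ∑ i ∈ t, p i) :
    ∑ i ∈ t, p i * Real.log (u i) ≤
      (∑ i ∈ t, p i) * Real.log ((∑ i ∈ t, p i * u i) / ∑ i ∈ t, p i) := by
  set P := ∑ i ∈ t, p i with hPdef
  set U := ∑ i ∈ t, p i * u i with hUdef
  have hterm : ∀ i ∈ t, 0 ≤ p i * u i := by
    intro i hi
    rcases (hp i hi).eq_or_lt with h | h
    · rw [← h]; simp
    · exact (mul_pos h (hu i hi h)).le
  have hU : 0 < U := by
    obtain ⟨i, hi, hpi⟩ := Finset.exists_lt_of_sum_lt (s := t) (f := fun _ => (0 : ℝ)) (g := p)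
      (by simpa using hP)
    exact Finset.sum_pos' hterm ⟨i, hi, mul_pos hpi (hu i hi hpi)⟩
  set R := U / P with hR
  have hRpos : 0 < R := div_pos hU hP
  have key : ∀ i ∈ t, p i * Real.log (u i) ≤ p i * Real.log R + (p i * u i / R - p i) := by
    intro i hi
    rcases (hp i hi).eq_or_lt with h | h
    · rw [← h]; simp
    · have hui := hu i hi h
      have h1 : Real.log (u i / R) ≤ u i / R - 1 := Real.log_le_sub_one_of_pos (div_pos hui hRpos)
      rw [Real.log_div hui.ne' hRpos.ne'] at h1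
      have h2 : p i * (Real.log (u i) - Real.log R) ≤ p i * (u i / R - 1) :=
        mul_le_mul_of_nonneg_left h1 h.le
      have h3 : p i * u i / R = p i * (u i / R) := by ring
      rw [h3]
      linarith
  calc ∑ i ∈ t, p i * Real.log (u i)
      ≤ ∑ i ∈ t, (p i * Real.log R + (p i * u i / R - p i)) := Finset.sum_le_sum key
    _ = P * Real.log R + (U / R - P) := by
        rw [Finset.sum_add_distrib, Finset.sum_sub_distrib, ← Finset.sum_mul, ← Finset.sum_div]
    _ = P * Real.log R := by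
        rw [hR]
        field_simp
        ring


section main
variable {V : Type*} [Fintype V] (s : V → V → V → ℝ)

/-- codegree weight of a pair -/
def wt (x y : V) : ℝ := ∑ z, s x y z
/-- degree weight -/
def dg (x : V) : ℝ := ∑ y, wt s x y
/-- number of two-walks -/
def gg (v x : V) : ℝ := ∑ a, wt s v a * wt s a x
/-- rooted four-cycle weight -/
def cc (x : V) : ℝ := ∑ v, gg s v x ^ 2
/-- gadget weight -/
def AA (v v' : V) : ℝ := ∑ x, ∑ y, wt s x y * (gg s v x ^ 3 * gg s v' y ^ 3)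

variable (hs0 : ∀ x y z, 0 ≤ s x y z) (hs1 : ∀ x y z, s x y z = s y x z)
  (hs2 : ∀ x y z, s x y z = s y z x)

include hs0 in
lemma wt_nonneg (x y : V) : 0 ≤ wt s x y := Finset.sum_nonneg fun z _ => hs0 x y z
include hs0 in
lemma dg_nonneg (x : V) : 0 ≤ dg s x := Finset.sum_nonneg fun z _ => wt_nonneg s hs0 x z
include hs0 in
lemma gg_nonneg (v x : V) : 0 ≤ gg s v x :=
  Finset.sum_nonneg fun a _ => mul_nonneg (wt_nonneg s hs0 v a) (wt_nonneg s hs0 a x)
lemma cc_nonneg (x : V) : 0 ≤ cc s x :=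
  Finset.sum_nonneg fun a _ => by positivity
include hs1 in
lemma wt_symm (x y : V) : wt s x y = wt s y x := by
  unfold wt; exact Finset.sum_congr rfl fun z _ => hs1 x y z
include hs0 in
lemma AA_nonneg (v v' : V) : 0 ≤ AA s v v' :=
  Finset.sum_nonneg fun x _ => Finset.sum_nonneg fun y _ => mul_nonneg (wt_nonneg s hs0 x y)
    (mul_nonneg (pow_nonneg (gg_nonneg s hs0 v x) 3) (pow_nonneg (gg_nonneg s hs0 v' y) 3))

lemma AA_eq1 (v v' : V) : AA s v v' =
    ∑ x, ∑ y, ∑ z, s x y z * (gg s v x * gg s v' y) ^ 3 := by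
  unfold AA
  refine Finset.sum_congr rfl fun x _ => Finset.sum_congr rfl fun y _ => ?_
  rw [wt, Finset.sum_mul]
  exact Finset.sum_congr rfl fun z _ => by ring

lemma sum_cyc (F : V → V → V → ℝ) : ∑ x, ∑ y, ∑ z, F y z x = ∑ x, ∑ y, ∑ z, F x y z := by
  rw [Finset.sum_comm]
  refine Finset.sum_congr rfl fun x _ => ?_
  rw [Finset.sum_comm]

include hs2 in
lemma AA_eq2 (v v' : V) : AA s v v' =
    ∑ x, ∑ y, ∑ z, s x y z * (gg s v y * gg s v' z) ^ 3 := by
  rw [AA_eq1, ← sum_cyc]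
  exact Finset.sum_congr rfl fun x _ => Finset.sum_congr rfl fun y _ =>
      Finset.sum_congr rfl fun z _ => by rw [hs2 x y z]

include hs2 in
lemma AA_eq3 (v v' : V) : AA s v v' =
    ∑ x, ∑ y, ∑ z, s x y z * (gg s v z * gg s v' x) ^ 3 := by
  rw [AA_eq2 s hs2, ← sum_cyc]
  exact Finset.sum_congr rfl fun x _ => Finset.sum_congr rfl fun y _ =>
      Finset.sum_congr rfl fun z _ => by rw [hs2 x y z]

/-- triple sums as one sum -/
lemma sum3_eq (F : V → V → V → ℝ) :
    ∑ x, ∑ y, ∑ z, F x y z = ∑ t : V × V × V, F t.1 t.2.1 t.2.2 := by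
  rw [Fintype.sum_prod_type]
  refine Finset.sum_congr rfl fun x _ => ?_
  rw [Fintype.sum_prod_type]

include hs0 hs2 in
/-- Hölder step. -/
lemma holder_step (v1 v2 v3 : V) :
    (∑ x, ∑ y, ∑ z, s x y z * (gg s v1 x ^ 2 * gg s v2 y ^ 2 * gg s v3 z ^ 2)) ^ 3 ≤
      AA s v1 v2 * AA s v2 v3 * AA s v3 v1 := by
  rw [AA_eq1 s v1 v2, AA_eq2 s hs2 v2 v3, AA_eq3 s hs2 v3 v1, sum3_eq, sum3_eq, sum3_eq, sum3_eq]
  have h := holder3 (Finset.univ : Finset (V × V × V)) (fun t => s t.1 t.2.1 t.2.2)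
    (fun t => gg s v1 t.1 * gg s v2 t.2.1) (fun t => gg s v2 t.2.1 * gg s v3 t.2.2)
    (fun t => gg s v3 t.2.2 * gg s v1 t.1) (fun t _ => hs0 _ _ _)
    (fun t _ => mul_nonneg (gg_nonneg s hs0 _ _) (gg_nonneg s hs0 _ _))
    (fun t _ => mul_nonneg (gg_nonneg s hs0 _ _) (gg_nonneg s hs0 _ _))
    (fun t _ => mul_nonneg (gg_nonneg s hs0 _ _) (gg_nonneg s hs0 _ _))
  refine le_trans (le_of_eq ?_) h
  congr 1
  refine Finset.sum_congr rfl fun t _ => ?_
  ring

/-- total weight -/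
def MM : ℝ := ∑ x, dg s x

/-- the cubic functional -/
def KK : ℝ := ∑ x, ∑ y, ∑ z, s x y z * (cc s x * cc s y * cc s z)

/-- hom count of the graph F -/
def ZZ : ℝ := ∑ v1, ∑ v2, ∑ v3, AA s v1 v2 * AA s v2 v3 * AA s v3 v1

include hs0 hs2 in
lemma KK_le : KK s ^ 3 ≤ (Fintype.card V : ℝ) ^ 6 * ZZ s := by
  have hK : KK s = ∑ v : V × V × V,
      (∑ x, ∑ y, ∑ z, s x y z * (gg s v.1 x ^ 2 * gg s v.2.1 y ^ 2 * gg s v.2.2 z ^ 2)) := by
    rw [← sum3_eq (fun v1 v2 v3 =>
      ∑ x, ∑ y, ∑ z, s x y z * (gg s v1 x ^ 2 * gg s v2 y ^ 2 * gg s v3 z ^ 2))]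
    unfold KK
    have : ∀ x y z, s x y z * (cc s x * cc s y * cc s z) =
        ∑ v1, ∑ v2, ∑ v3, s x y z * (gg s v1 x ^ 2 * gg s v2 y ^ 2 * gg s v3 z ^ 2) := by
      intro x y z
      unfold cc
      rw [Finset.sum_mul_sum, Finset.sum_mul, Finset.mul_sum]
      refine Finset.sum_congr rfl fun v1 _ => ?_
      rw [Finset.sum_mul, Finset.mul_sum]
      refine Finset.sum_congr rfl fun v2 _ => ?_
      rw [Finset.mul_sum, Finset.mul_sum]
    simp_rw [this]
    rw [sum3_eq (fun x y z =>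
      ∑ v1, ∑ v2, ∑ v3, s x y z * (gg s v1 x ^ 2 * gg s v2 y ^ 2 * gg s v3 z ^ 2))]
    simp_rw [sum3_eq (fun v1 v2 v3 => s _ _ _ * (gg s v1 _ ^ 2 * gg s v2 _ ^ 2 * gg s v3 _ ^ 2))]
    rw [sum3_eq]
    rw [Finset.sum_comm]
    refine Finset.sum_congr rfl fun v _ => ?_
    rw [sum3_eq]
  have hcard : ((Finset.univ : Finset (V × V × V)).card : ℝ) = (Fintype.card V : ℝ) ^ 3 := by
    rw [Finset.card_univ, Fintype.card_prod, Fintype.card_prod]
    push_cast; ring
  have hnn : ∀ v ∈ (Finset.univ : Finset (V × V × V)), 0 ≤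
      (∑ x, ∑ y, ∑ z, s x y z * (gg s v.1 x ^ 2 * gg s v.2.1 y ^ 2 * gg s v.2.2 z ^ 2)) := by
    intro v _
    refine Finset.sum_nonneg fun x _ => Finset.sum_nonneg fun y _ => Finset.sum_nonneg fun z _ => ?_
    exact mul_nonneg (hs0 _ _ _) (by positivity)
  have hpow := pow_sum_le_card_mul_sum_pow hnn 2
  rw [← hK, hcard] at hpow
  calc KK s ^ 3 ≤ _ := hpow
    _ ≤ ((Fintype.card V : ℝ) ^ 3) ^ 2 * ∑ v : V × V × V,
        (AA s v.1 v.2.1 * AA s v.2.1 v.2.2 * AA s v.2.2 v.1) := by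
        refine mul_le_mul_of_nonneg_left (Finset.sum_le_sum fun v _ => ?_) (by positivity)
        exact holder_step s hs0 hs2 v.1 v.2.1 v.2.2
    _ = (Fintype.card V : ℝ) ^ 6 * ZZ s := by
        rw [ZZ, sum3_eq (fun v1 v2 v3 => AA s v1 v2 * AA s v2 v3 * AA s v3 v1)]
        ring

include hs0 in
/-- Jensen for the degrees: `∑ d log d ≥ M log (M / n)`. -/
lemma jensen_dg (hM : 0 < MM s) :
    MM s * Real.log (MM s / Fintype.card V) ≤ ∑ x, dg s x * Real.log (dg s x) := by
  have hd := dg_nonneg s hs0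
  have h := sum_mul_log_le (Finset.univ : Finset V) (dg s) (fun x => (dg s x)⁻¹)
    (fun x _ => hd x) (fun x _ hx => inv_pos.2 hx) hM
  have hle : ∑ x, dg s x * (dg s x)⁻¹ ≤ Fintype.card V := by
    calc ∑ x, dg s x * (dg s x)⁻¹ ≤ ∑ x : V, (1 : ℝ) := Finset.sum_le_sum fun x _ => mul_inv_le_one
      _ = Fintype.card V := by simp
  have hpos : 0 < ∑ x, dg s x * (dg s x)⁻¹ := by
    obtain ⟨x, hx, hpx⟩ := Finset.exists_lt_of_sum_lt (s := (Finset.univ : Finset V))
      (f := fun _ => (0 : ℝ)) (g := dg s) (by simpa [MM] using hM)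
    exact Finset.sum_pos' (fun i _ => mul_nonneg (hd i) (inv_nonneg.2 (hd i)))
      ⟨x, hx, mul_pos hpx (inv_pos.2 hpx)⟩
  have hn : (0 : ℝ) < Fintype.card V := lt_of_lt_of_le hpos hle
  have h2 : Real.log ((∑ x, dg s x * (dg s x)⁻¹) / ∑ x, dg s x) ≤
      Real.log (Fintype.card V / MM s) := by
    apply Real.log_le_log (div_pos hpos hM)
    exact div_le_div_of_nonneg_right hle hM.le
  have h3 : Real.log (MM s / Fintype.card V) = - Real.log (Fintype.card V / MM s) := by
    rw [← Real.log_inv, inv_div]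
  have h4 : ∑ x, dg s x * Real.log ((dg s x)⁻¹) = - ∑ x, dg s x * Real.log (dg s x) := by
    rw [← Finset.sum_neg_distrib]
    exact Finset.sum_congr rfl fun x _ => by rw [Real.log_inv]; ring
  rw [h4] at h
  rw [h3]
  have h5 := mul_le_mul_of_nonneg_left h2 hM.le
  have h6 : (∑ x, dg s x) = MM s := rfl
  rw [h6] at h h5
  linarith

/-- second degree: number of two-walks ending at `x` with the first vertex weighted by degree -/
def d2 (x : V) : ℝ := ∑ a, wt s x a * dg s a

include hs0 in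
lemma wt_le_dg (x y : V) : wt s x y ≤ dg s x :=
  Finset.single_le_sum (f := fun y => wt s x y) (fun y _ => wt_nonneg s hs0 x y) (Finset.mem_univ y)

include hs0 hs1 in
lemma dg_pos_of_wt_pos {x y : V} (h : 0 < wt s x y) : 0 < dg s y := by
  rw [wt_symm s hs1] at h
  exact lt_of_lt_of_le h (wt_le_dg s hs0 y x)

include hs0 hs1 in
lemma jensen_d2_pt (x : V) :
    dg s x * Real.log (dg s x) + ∑ a, wt s x a * Real.log (dg s a) ≤
      dg s x * Real.log (d2 s x) := by
  rcases (dg_nonneg s hs0 x).eq_or_lt with h | h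
  · have h0 : ∀ a, wt s x a = 0 := by
      intro a
      have := wt_le_dg s hs0 x a
      rw [← h] at this
      exact le_antisymm this (wt_nonneg s hs0 x a)
    rw [← h]
    simp [h0]
  · have hj := sum_mul_log_le (Finset.univ : Finset V) (wt s x) (dg s)
      (fun a _ => wt_nonneg s hs0 x a) (fun a _ ha => dg_pos_of_wt_pos s hs0 hs1 ha) h
    have h6 : (∑ a, wt s x a) = dg s x := rfl
    have h7 : (∑ a, wt s x a * dg s a) = d2 s x := rfl
    rw [h6, h7] at hj
    have hd2 : 0 < d2 s x := by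
      obtain ⟨a, ha, hpa⟩ := Finset.exists_lt_of_sum_lt (s := (Finset.univ : Finset V))
        (f := fun _ => (0 : ℝ)) (g := wt s x) (by simpa [dg] using h)
      exact Finset.sum_pos' (fun i _ => mul_nonneg (wt_nonneg s hs0 x i) (dg_nonneg s hs0 i))
        ⟨a, ha, mul_pos hpa (dg_pos_of_wt_pos s hs0 hs1 hpa)⟩
    rw [Real.log_div hd2.ne' h.ne'] at hj
    linarith

include hs0 hs1 in
lemma jensen_d2 :
    2 * ∑ x, dg s x * Real.log (dg s x) ≤ ∑ x, dg s x * Real.log (d2 s x) := by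
  have h := Finset.sum_le_sum fun x (_ : x ∈ (Finset.univ : Finset V)) => jensen_d2_pt s hs0 hs1 x
  rw [Finset.sum_add_distrib] at h
  have h2 : ∑ x, ∑ a, wt s x a * Real.log (dg s a) = ∑ x, dg s x * Real.log (dg s x) := by
    rw [Finset.sum_comm]
    refine Finset.sum_congr rfl fun a _ => ?_
    rw [← Finset.sum_mul]
    congr 1
    unfold dg
    exact Finset.sum_congr rfl fun x _ => wt_symm s hs1 x a
  rw [h2] at h
  linarith

include hs1 in
lemma d2_sq_le (x : V) : d2 s x ^ 2 ≤ Fintype.card V * cc s x := by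
  have h1 : d2 s x = ∑ v, gg s v x := by
    unfold d2 gg
    rw [Finset.sum_comm]
    refine Finset.sum_congr rfl fun a _ => ?_
    rw [← Finset.sum_mul, mul_comm]
    congr 1
    · unfold dg
      exact Finset.sum_congr rfl fun x _ => wt_symm s hs1 _ _
    · exact wt_symm s hs1 _ _
  rw [h1]
  exact sq_sum_le_card_mul_sum_sq

include hs0 hs1 in
lemma d2_pos {x : V} (h : 0 < dg s x) : 0 < d2 s x := by
  obtain ⟨a, ha, hpa⟩ := Finset.exists_lt_of_sum_lt (s := (Finset.univ : Finset V))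
    (f := fun _ => (0 : ℝ)) (g := wt s x) (by simpa [dg] using h)
  exact Finset.sum_pos' (fun i _ => mul_nonneg (wt_nonneg s hs0 x i) (dg_nonneg s hs0 i))
    ⟨a, ha, mul_pos hpa (dg_pos_of_wt_pos s hs0 hs1 hpa)⟩

include hs0 hs1 in
lemma log_cc (hM : 0 < MM s) :
    MM s * (4 * Real.log (MM s) - 5 * Real.log (Fintype.card V)) ≤
      ∑ x, dg s x * Real.log (cc s x) := by
  have hn : (0 : ℝ) < Fintype.card V := by
    rcases isEmpty_or_nonempty V with h | h
    · simp [MM] at hM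
    · exact_mod_cast Fintype.card_pos
  have hpt : ∀ x, dg s x * (2 * Real.log (d2 s x) - Real.log (Fintype.card V)) ≤
      dg s x * Real.log (cc s x) := by
    intro x
    rcases (dg_nonneg s hs0 x).eq_or_lt with h | h
    · rw [← h]; simp
    · apply mul_le_mul_of_nonneg_left _ h.le
      have hd2 := d2_pos s hs0 hs1 h
      have hle := d2_sq_le s hs1 x
      have hcc : 0 < cc s x := by
        by_contra hcon
        have : cc s x = 0 := le_antisymm (not_lt.1 hcon) (cc_nonneg s x)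
        rw [this] at hle
        have : 0 < d2 s x ^ 2 := by positivity
        linarith
      have h1 := Real.log_le_log (by positivity) hle
      rw [Real.log_pow, Real.log_mul hn.ne' hcc.ne'] at h1
      push_cast at h1
      linarith
  have hsum := Finset.sum_le_sum fun x (_ : x ∈ (Finset.univ : Finset V)) => hpt x
  have h2 : ∑ x, dg s x * (2 * Real.log (d2 s x) - Real.log (Fintype.card V)) =
      2 * (∑ x, dg s x * Real.log (d2 s x)) - MM s * Real.log (Fintype.card V) := by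
    rw [MM, Finset.sum_mul, Finset.mul_sum, ← Finset.sum_sub_distrib]
    exact Finset.sum_congr rfl fun x _ => by ring
  rw [h2] at hsum
  have h3 := jensen_d2 s hs0 hs1
  have h4 := jensen_dg s hs0 hM
  rw [Real.log_div hM.ne' hn.ne'] at h4
  nlinarith

include hs0 hs1 hs2 in
lemma KK_ge (hM : 0 < MM s) :
    MM s ^ 13 ≤ KK s * (Fintype.card V : ℝ) ^ 15 := by
  have hn : (0 : ℝ) < Fintype.card V := by
    rcases isEmpty_or_nonempty V with h | h
    · simp [MM] at hM
    · exact_mod_cast Fintype.card_pos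
  have hdpos : ∀ {x y z : V}, 0 < s x y z → 0 < dg s x := by
    intro x y z h
    have h1 : s x y z ≤ wt s x y :=
      Finset.single_le_sum (f := fun z => s x y z) (fun z _ => hs0 x y z) (Finset.mem_univ z)
    exact lt_of_lt_of_le h (h1.trans (wt_le_dg s hs0 x y))
  have hccpos : ∀ {x : V}, 0 < dg s x → 0 < cc s x := by
    intro x h
    have hd2 := d2_pos s hs0 hs1 h
    have hle := d2_sq_le s hs1 x
    by_contra hcon
    have : cc s x = 0 := le_antisymm (not_lt.1 hcon) (cc_nonneg s x)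
    rw [this] at hle
    have : 0 < d2 s x ^ 2 := by positivity
    linarith
  have hMeq : (∑ t : V × V × V, s t.1 t.2.1 t.2.2) = MM s := by
    rw [← sum3_eq]; rfl
  have hKeq : (∑ t : V × V × V, s t.1 t.2.1 t.2.2 * (cc s t.1 * cc s t.2.1 * cc s t.2.2)) = KK s := by
    rw [← sum3_eq (fun x y z => s x y z * (cc s x * cc s y * cc s z))]; rfl
  have hpos3 : ∀ t : V × V × V, 0 < s t.1 t.2.1 t.2.2 →
      0 < cc s t.1 ∧ 0 < cc s t.2.1 ∧ 0 < cc s t.2.2 := by
    intro t ht
    refine ⟨hccpos (hdpos ht), hccpos ?_, hccpos ?_⟩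
    · have := ht; rw [hs2] at this; exact hdpos this
    · have := ht; rw [hs2, hs2] at this; exact hdpos this
  have hj := sum_mul_log_le (Finset.univ : Finset (V × V × V)) (fun t => s t.1 t.2.1 t.2.2)
    (fun t => cc s t.1 * cc s t.2.1 * cc s t.2.2) (fun t _ => hs0 _ _ _)
    (fun t _ ht => by
      obtain ⟨h1, h2, h3⟩ := hpos3 t ht
      positivity) (by rw [hMeq]; exact hM)
  rw [hMeq, hKeq] at hj
  have hKpos : 0 < KK s := by
    rw [← hKeq]
    obtain ⟨t, ht, hpt⟩ := Finset.exists_lt_of_sum_lt (s := (Finset.univ : Finset (V × V × V)))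
      (f := fun _ => (0 : ℝ)) (g := fun t => s t.1 t.2.1 t.2.2) (by rw [hMeq]; simpa using hM)
    refine Finset.sum_pos' (fun i _ => mul_nonneg (hs0 _ _ _) ?_) ⟨t, ht, mul_pos hpt ?_⟩
    · exact mul_nonneg (mul_nonneg (cc_nonneg s _) (cc_nonneg s _)) (cc_nonneg s _)
    · obtain ⟨h1, h2, h3⟩ := hpos3 t hpt
      positivity
  have hlog : ∑ t : V × V × V, s t.1 t.2.1 t.2.2 * Real.log (cc s t.1 * cc s t.2.1 * cc s t.2.2) =
      3 * ∑ x, dg s x * Real.log (cc s x) := by
    have h1 : ∀ t : V × V × V, s t.1 t.2.1 t.2.2 * Real.log (cc s t.1 * cc s t.2.1 * cc s t.2.2) =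
        s t.1 t.2.1 t.2.2 * Real.log (cc s t.1) + s t.1 t.2.1 t.2.2 * Real.log (cc s t.2.1) +
        s t.1 t.2.1 t.2.2 * Real.log (cc s t.2.2) := by
      intro t
      rcases (hs0 t.1 t.2.1 t.2.2).eq_or_lt with h | h
      · rw [← h]; simp
      · obtain ⟨h1, h2, h3⟩ := hpos3 t h
        rw [Real.log_mul (by positivity) (by positivity), Real.log_mul (by positivity) (by positivity)]
        ring
    simp_rw [h1]
    rw [Finset.sum_add_distrib, Finset.sum_add_distrib]
    have hA : ∑ x, ∑ y, ∑ z, s x y z * Real.log (cc s x) = ∑ x, dg s x * Real.log (cc s x) := by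
      refine Finset.sum_congr rfl fun x _ => ?_
      rw [dg, Finset.sum_mul]
      refine Finset.sum_congr rfl fun y _ => ?_
      rw [wt, Finset.sum_mul]
    have hB : ∑ x, ∑ y, ∑ z, s x y z * Real.log (cc s y) = ∑ x, dg s x * Real.log (cc s x) := by
      rw [← hA, ← sum_cyc (fun x y z => s x y z * Real.log (cc s x))]
      exact Finset.sum_congr rfl fun x _ => Finset.sum_congr rfl fun y _ =>
        Finset.sum_congr rfl fun z _ => by rw [hs2 x y z]
    have hC : ∑ x, ∑ y, ∑ z, s x y z * Real.log (cc s z) = ∑ x, dg s x * Real.log (cc s x) := by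
      rw [← hB, ← sum_cyc (fun x y z => s x y z * Real.log (cc s y))]
      exact Finset.sum_congr rfl fun x _ => Finset.sum_congr rfl fun y _ =>
        Finset.sum_congr rfl fun z _ => by rw [hs2 x y z]
    rw [← sum3_eq (fun x y z => s x y z * Real.log (cc s x)),
      ← sum3_eq (fun x y z => s x y z * Real.log (cc s y)),
      ← sum3_eq (fun x y z => s x y z * Real.log (cc s z)), hA, hB, hC]
    ring
  rw [hlog, Real.log_div hKpos.ne' hM.ne'] at hj
  have hc := log_cc s hs0 hs1 hM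
  have hfin : MM s * (3 * (4 * Real.log (MM s) - 5 * Real.log (Fintype.card V))) ≤
      MM s * (Real.log (KK s) - Real.log (MM s)) := by linarith
  have hfin2 := le_of_mul_le_mul_left hfin hM
  have hfin3 : Real.log (MM s ^ 13) ≤ Real.log (KK s * (Fintype.card V : ℝ) ^ 15) := by
    rw [Real.log_pow, Real.log_mul hKpos.ne' (by positivity), Real.log_pow]
    push_cast
    linarith
  exact (Real.log_le_log_iff (by positivity) (by positivity)).1 hfin3

include hs0 hs1 hs2 in
/-- The main analytic inequality. -/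
theorem main_ineq : MM s ^ 39 ≤ ZZ s * (Fintype.card V : ℝ) ^ 51 := by
  have hM0 : 0 ≤ MM s := Finset.sum_nonneg fun x _ => dg_nonneg s hs0 x
  rcases hM0.eq_or_lt with h | h
  · rw [← h]
    have : 0 ≤ ZZ s := Finset.sum_nonneg fun x _ => Finset.sum_nonneg fun y _ =>
      Finset.sum_nonneg fun z _ => mul_nonneg (mul_nonneg (AA_nonneg s hs0 _ _)
        (AA_nonneg s hs0 _ _)) (AA_nonneg s hs0 _ _)
    simpa using mul_nonneg this (by positivity : (0:ℝ) ≤ (Fintype.card V : ℝ) ^ 51)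
  · have h1 := KK_ge s hs0 hs1 hs2 h
    have h2 := KK_le s hs0 hs2
    calc MM s ^ 39 = (MM s ^ 13) ^ 3 := by ring
      _ ≤ (KK s * (Fintype.card V : ℝ) ^ 15) ^ 3 := pow_le_pow_left₀ (by positivity) h1 3
      _ = KK s ^ 3 * (Fintype.card V : ℝ) ^ 45 := by ring
      _ ≤ ((Fintype.card V : ℝ) ^ 6 * ZZ s) * (Fintype.card V : ℝ) ^ 45 :=
          mul_le_mul_of_nonneg_right h2 (by positivity)
      _ = _ := by ring

end main


section comb

/-- vertices of `F`: three hubs, six ends, eighteen midpoints -/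
abbrev T : Type := Fin 3 ⊕ ((Fin 3 × Fin 2) ⊕ (Fin 3 × Fin 2 × Fin 3))
/-- edges of `F`: three bridges, and the spokes: for each midpoint one edge to its hub and one to its end -/
abbrev E : Type := Fin 3 ⊕ ((Fin 3 × Fin 2 × Fin 3) ⊕ (Fin 3 × Fin 2 × Fin 3))

instance : DecidableEq T := inferInstance
instance : DecidableEq E := inferInstance

/-- the hub to which the end `(i, σ)` is linked -/
def hub (i : Fin 3) (σ : Fin 2) : Fin 3 := if σ = 0 then i else i + 1

/-- first endpoint -/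
def pp : E → T
  | Sum.inl i => Sum.inr (Sum.inl (i, 0))
  | Sum.inr (Sum.inl (i, σ, _)) => Sum.inl (hub i σ)
  | Sum.inr (Sum.inr (i, σ, j)) => Sum.inr (Sum.inr (i, σ, j))
/-- second endpoint -/
def qq : E → T
  | Sum.inl i => Sum.inr (Sum.inl (i, 1))
  | Sum.inr (Sum.inl (i, σ, j)) => Sum.inr (Sum.inr (i, σ, j))
  | Sum.inr (Sum.inr (i, σ, _)) => Sum.inr (Sum.inl (i, σ))

lemma pp_ne_qq : ∀ e : E, pp e ≠ qq e := by decide

lemma pair_inj : ∀ e e' : E, ({pp e, qq e} : Finset T) = {pp e', qq e'} → e = e' := by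
  decide +kernel

variable {V : Type*} [Fintype V]

lemma prod_sum_fn {ι κ : Type*} [Fintype ι] [DecidableEq ι] [Fintype κ] (f : ι → κ → ℝ) :
    ∏ i, ∑ k, f i k = ∑ h : ι → κ, ∏ i, f i (h i) := by
  classical
  rw [Finset.prod_univ_sum, Fintype.piFinset_univ]

lemma sum_fin3 (F : V → V → V → ℝ) :
    ∑ x, ∑ y, ∑ z, F x y z = ∑ v : Fin 3 → V, F (v 0) (v 1) (v 2) := by
  rw [sum3_eq]
  symm
  refine Fintype.sum_equiv (⟨fun v => (v 0, v 1, v 2), fun t => ![t.1, t.2.1, t.2.2], ?_, ?_⟩ :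
    (Fin 3 → V) ≃ V × V × V) _ _ ?_
  · intro v; funext i; fin_cases i <;> rfl
  · intro t; rfl
  · intro v; rfl

lemma sum_fin2 (F : V → V → ℝ) :
    ∑ x, ∑ y, F x y = ∑ v : Fin 2 → V, F (v 0) (v 1) := by
  have h : ∑ x, ∑ y, F x y = ∑ t : V × V, F t.1 t.2 := by rw [Fintype.sum_prod_type]
  rw [h]
  symm
  refine Fintype.sum_equiv (⟨fun v => (v 0, v 1), fun t => ![t.1, t.2], ?_, ?_⟩ :
    (Fin 2 → V) ≃ V × V) _ _ ?_
  · intro v; funext i; fin_cases i <;> rfl
  · intro t; rfl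
  · intro v; rfl

lemma hom_F_eq (s : V → V → V → ℝ) :
    ∑ φ : T → V, ∏ e : E, wt s (φ (pp e)) (φ (qq e)) = ZZ s := by
  classical
  -- left side: split the sum over maps
  have hL : ∑ φ : T → V, ∏ e : E, wt s (φ (pp e)) (φ (qq e)) =
      ∑ v : Fin 3 → V, ∑ x : Fin 3 × Fin 2 → V, ∑ m : Fin 3 × Fin 2 × Fin 3 → V,
        (∏ i, wt s (x (i, 0)) (x (i, 1))) *
        ((∏ t : Fin 3 × Fin 2 × Fin 3, wt s (v (hub t.1 t.2.1)) (m t)) *
         (∏ t : Fin 3 × Fin 2 × Fin 3, wt s (m t) (x (t.1, t.2.1)))) := by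
    rw [← (Equiv.sumArrowEquivProdArrow _ _ V).symm.sum_comp, Fintype.sum_prod_type]
    refine Finset.sum_congr rfl fun v _ => ?_
    rw [← (Equiv.sumArrowEquivProdArrow _ _ V).symm.sum_comp, Fintype.sum_prod_type]
    refine Finset.sum_congr rfl fun x _ => ?_
    refine Finset.sum_congr rfl fun m _ => ?_
    rw [Fintype.prod_sum_type, Fintype.prod_sum_type]
    rfl
  have hR : ZZ s = ∑ v : Fin 3 → V, ∏ i : Fin 3, AA s (v (hub i 0)) (v (hub i 1)) := by
    unfold ZZ
    rw [sum_fin3]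
    refine Finset.sum_congr rfl fun v _ => ?_
    rw [Fin.prod_univ_three]
    rfl
  rw [hL, hR]
  refine Finset.sum_congr rfl fun v _ => ?_
  -- inner
  have h1 : ∀ x : Fin 3 × Fin 2 → V, ∑ m : Fin 3 × Fin 2 × Fin 3 → V,
        (∏ i, wt s (x (i, 0)) (x (i, 1))) *
        ((∏ t : Fin 3 × Fin 2 × Fin 3, wt s (v (hub t.1 t.2.1)) (m t)) *
         (∏ t : Fin 3 × Fin 2 × Fin 3, wt s (m t) (x (t.1, t.2.1)))) =
      ∏ i : Fin 3, (wt s (x (i, 0)) (x (i, 1)) * (gg s (v (hub i 0)) (x (i, 0)) ^ 3 *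
        gg s (v (hub i 1)) (x (i, 1)) ^ 3)) := by
    intro x
    rw [← Finset.mul_sum, Finset.prod_mul_distrib]
    congr 1
    have h2 : ∀ m : Fin 3 × Fin 2 × Fin 3 → V,
        (∏ t : Fin 3 × Fin 2 × Fin 3, wt s (v (hub t.1 t.2.1)) (m t)) *
         (∏ t : Fin 3 × Fin 2 × Fin 3, wt s (m t) (x (t.1, t.2.1))) =
        ∏ t : Fin 3 × Fin 2 × Fin 3, wt s (v (hub t.1 t.2.1)) (m t) * wt s (m t) (x (t.1, t.2.1)) := by
      intro m; rw [Finset.prod_mul_distrib]
    simp_rw [h2]
    rw [← prod_sum_fn (fun (t : Fin 3 × Fin 2 × Fin 3) (a : V) =>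
      wt s (v (hub t.1 t.2.1)) a * wt s a (x (t.1, t.2.1)))]
    rw [Fintype.prod_prod_type]
    refine Finset.prod_congr rfl fun i _ => ?_
    rw [Fintype.prod_prod_type, Fin.prod_univ_two]
    simp only [Finset.prod_const, Finset.card_univ, Fintype.card_fin]
    rfl
  simp_rw [h1]
  have h3 : ∏ i : Fin 3, AA s (v (hub i 0)) (v (hub i 1)) =
      ∑ x : Fin 3 → Fin 2 → V, ∏ i : Fin 3, (wt s (x i 0) (x i 1) *
        (gg s (v (hub i 0)) (x i 0) ^ 3 * gg s (v (hub i 1)) (x i 1) ^ 3)) := by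
    rw [← prod_sum_fn (fun (i : Fin 3) (x : Fin 2 → V) => (wt s (x 0) (x 1) *
        (gg s (v (hub i 0)) (x 0) ^ 3 * gg s (v (hub i 1)) (x 1) ^ 3)))]
    refine Finset.prod_congr rfl fun i _ => ?_
    unfold AA
    rw [sum_fin2]
  rw [h3]
  rw [← (Equiv.curry (Fin 3) (Fin 2) V).symm.sum_comp]
  rfl

end comb


section assemble

/-- indicator of the triples that form an edge of `G` -/
def ind {n : ℕ} (G : Finset (Finset (Fin n))) (x y z : Fin n) : ℝ :=
  if ({x, y, z} : Finset (Fin n)) ∈ G then 1 else 0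

lemma ind_nonneg {n : ℕ} (G : Finset (Finset (Fin n))) (x y z : Fin n) : 0 ≤ ind G x y z := by
  unfold ind; split_ifs <;> norm_num

lemma ind_swap {n : ℕ} (G : Finset (Finset (Fin n))) (x y z : Fin n) :
    ind G x y z = ind G y x z := by
  unfold ind
  rw [show ({x, y, z} : Finset (Fin n)) = {y, x, z} from Finset.insert_comm x y {z}]

lemma ind_cyc {n : ℕ} (G : Finset (Finset (Fin n))) (x y z : Fin n) :
    ind G x y z = ind G y z x := by
  unfold ind
  rw [show ({x, y, z} : Finset (Fin n)) = {y, z, x} by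
    ext t; simp only [Finset.mem_insert, Finset.mem_singleton]; tauto]

/-- the `i`-th edge of `F` as a set of two vertices -/
def edge {a m : ℕ} (τ : T ≃ Fin a) (ε : Fin m ≃ E) (i : Fin m) : Finset (Fin a) :=
  ({pp (ε i), qq (ε i)} : Finset T).image τ

lemma edge_eq {a m : ℕ} (τ : T ≃ Fin a) (ε : Fin m ≃ E) (i : Fin m) :
    edge τ ε i = {τ (pp (ε i)), τ (qq (ε i))} := by
  simp [edge, Finset.image_insert]

lemma edge_card {a m : ℕ} (τ : T ≃ Fin a) (ε : Fin m ≃ E) (i : Fin m) :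
    (edge τ ε i).card = 2 := by
  rw [edge_eq, Finset.card_pair]
  exact fun h => pp_ne_qq _ (τ.injective h)

lemma edge_inj {a m : ℕ} (τ : T ≃ Fin a) (ε : Fin m ≃ E) : Function.Injective (edge τ ε) := by
  intro i j h
  have h2 := Finset.image_injective τ.injective h
  exact ε.injective (pair_inj _ _ h2)

lemma count_eq {n : ℕ} (G : Finset (Finset (Fin n))) {a m : ℕ} (τ : T ≃ Fin a) (ε : Fin m ≃ E) :
    ((Finset.univ.filter (fun f : Fin a ⊕ (Fin m × Fin 1) → Fin n => ∀ i : Fin m,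
      ((edge τ ε i).image (Sum.inl : Fin a → Fin a ⊕ (Fin m × Fin 1)) ∪
        (Finset.univ : Finset (Fin 1)).image
          (fun j : Fin 1 => (Sum.inr (i, j) : Fin a ⊕ (Fin m × Fin 1)))).image f ∈ G)).card : ℝ)
    = ZZ (ind G) := by
  classical
  rw [Finset.card_filter, ← hom_F_eq]
  push_cast
  have h1 : ∀ f : Fin a ⊕ (Fin m × Fin 1) → Fin n,
      (if ∀ i : Fin m, ((edge τ ε i).image (Sum.inl : Fin a → Fin a ⊕ (Fin m × Fin 1)) ∪
        (Finset.univ : Finset (Fin 1)).image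
          (fun j : Fin 1 => (Sum.inr (i, j) : Fin a ⊕ (Fin m × Fin 1)))).image f ∈ G
        then (1 : ℝ) else 0) =
      ∏ i : Fin m, ind G (f (Sum.inl (τ (pp (ε i))))) (f (Sum.inl (τ (qq (ε i)))))
        (f (Sum.inr (i, 0))) := by
    intro f
    unfold ind
    rw [Finset.prod_boole]
    simp only [Finset.mem_univ, true_implies]
    congr 1
    apply propext
    refine forall_congr' fun i => ?_
    rw [edge_eq]
    have : (Finset.univ : Finset (Fin 1)) = {0} := rfl
    rw [this, Finset.image_singleton, Finset.image_insert, Finset.image_singleton,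
      Finset.image_union, Finset.image_insert, Finset.image_singleton, Finset.image_singleton,
      Finset.insert_union, Finset.singleton_union]
  simp_rw [h1]
  rw [← (Equiv.sumArrowEquivProdArrow _ _ (Fin n)).symm.sum_comp, Fintype.sum_prod_type]
  have h2 : ∀ φ : Fin a → Fin n, ∑ ψ : Fin m × Fin 1 → Fin n,
      ∏ i : Fin m, ind G (φ (τ (pp (ε i)))) (φ (τ (qq (ε i)))) (ψ (i, 0)) =
      ∏ i : Fin m, wt (ind G) (φ (τ (pp (ε i)))) (φ (τ (qq (ε i)))) := by
    intro φ
    unfold wt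
    rw [prod_sum_fn (fun (i : Fin m) (z : Fin n) =>
      ind G (φ (τ (pp (ε i)))) (φ (τ (qq (ε i)))) z)]
    rw [← (Equiv.arrowCongr (Equiv.prodUnique (Fin m) (Fin 1)) (Equiv.refl (Fin n))).symm.sum_comp]
    rfl
  have h3 : ∀ φ : Fin a → Fin n, ∑ ψ : Fin m × Fin 1 → Fin n,
      ∏ i : Fin m, ind G ((Equiv.sumArrowEquivProdArrow _ _ (Fin n)).symm (φ, ψ)
        (Sum.inl (τ (pp (ε i))))) ((Equiv.sumArrowEquivProdArrow _ _ (Fin n)).symm (φ, ψ)
        (Sum.inl (τ (qq (ε i))))) ((Equiv.sumArrowEquivProdArrow _ _ (Fin n)).symm (φ, ψ)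
        (Sum.inr (i, 0))) =
      ∏ i : Fin m, wt (ind G) (φ (τ (pp (ε i)))) (φ (τ (qq (ε i)))) := by
    intro φ
    rw [← h2]
    rfl
  simp_rw [h3]
  have h4 : ∀ φ : Fin a → Fin n, ∏ i : Fin m, wt (ind G) (φ (τ (pp (ε i)))) (φ (τ (qq (ε i)))) =
      ∏ e : E, wt (ind G) (φ (τ (pp e))) (φ (τ (qq e))) := by
    intro φ
    exact ε.prod_comp (fun e => wt (ind G) (φ (τ (pp e))) (φ (τ (qq e))))
  simp_rw [h4]
  rw [← (Equiv.arrowCongr τ (Equiv.refl (Fin n))).sum_comp]
  refine Finset.sum_congr rfl fun φ _ => Finset.prod_congr rfl fun e _ => ?_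
  simp [Equiv.arrowCongr]

lemma six_le {n : ℕ} (g : Finset (Fin n)) (hg : g.card = 3) :
    6 ≤ ((Finset.univ : Finset (Fin n × Fin n × Fin n)).filter
      (fun t => ({t.1, t.2.1, t.2.2} : Finset (Fin n)) = g)).card := by
  obtain ⟨a, b, c, hab, hac, hbc, rfl⟩ := Finset.card_eq_three.1 hg
  have hsub : ({(a, b, c), (a, c, b), (b, a, c), (b, c, a), (c, a, b), (c, b, a)} :
      Finset (Fin n × Fin n × Fin n)) ⊆ (Finset.univ : Finset (Fin n × Fin n × Fin n)).filter
      (fun t => ({t.1, t.2.1, t.2.2} : Finset (Fin n)) = {a, b, c}) := by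
    intro t ht
    simp only [Finset.mem_insert, Finset.mem_singleton] at ht
    simp only [Finset.mem_filter, Finset.mem_univ, true_and]
    rcases ht with rfl | rfl | rfl | rfl | rfl | rfl <;>
    · ext u
      simp only [Finset.mem_insert, Finset.mem_singleton] <;> tauto
  refine le_trans (le_of_eq ?_) (Finset.card_le_card hsub)
  have h1 := hab.symm
  have h2 := hac.symm
  have h3 := hbc.symm
  rw [Finset.card_insert_of_notMem, Finset.card_insert_of_notMem, Finset.card_insert_of_notMem,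
    Finset.card_insert_of_notMem, Finset.card_insert_of_notMem, Finset.card_singleton] <;>
  simp [Prod.ext_iff, *]

lemma six_card_le {n : ℕ} (G : Finset (Finset (Fin n))) (hG : ∀ g ∈ G, g.card = 3) :
    ((Nat.factorial 3 * G.card : ℕ) : ℝ) ≤ MM (ind G) := by
  have h1 : MM (ind G) = (((Finset.univ : Finset (Fin n × Fin n × Fin n)).filter
      (fun t => ({t.1, t.2.1, t.2.2} : Finset (Fin n)) ∈ G)).card : ℝ) := by
    unfold MM dg wt
    rw [sum3_eq, Finset.card_filter]
    push_cast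
    rfl
  rw [h1]
  norm_cast
  rw [Finset.card_eq_sum_card_fiberwise (f := fun t : Fin n × Fin n × Fin n =>
    ({t.1, t.2.1, t.2.2} : Finset (Fin n))) (t := G) (by intro t ht; simpa using ht)]
  have h2 : ∀ g ∈ G, 6 ≤ (((Finset.univ : Finset (Fin n × Fin n × Fin n)).filter
      (fun t => ({t.1, t.2.1, t.2.2} : Finset (Fin n)) ∈ G)).filter
      (fun t => ({t.1, t.2.1, t.2.2} : Finset (Fin n)) = g)).card := by
    intro g hg
    refine (six_le g (hG g hg)).trans (Finset.card_le_card ?_)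
    intro t ht
    simp only [Finset.mem_filter, Finset.mem_univ, true_and] at ht ⊢
    exact ⟨ht ▸ hg, ht⟩
  calc Nat.factorial 3 * G.card = ∑ _g ∈ G, 6 := by
        rw [Finset.sum_const, smul_eq_mul, mul_comm]; rfl
    _ ≤ _ := Finset.sum_le_sum h2


end assemble

end helpers

/-- There exist k ≥ 2, r > k and a k-uniform hypergraph H that fails the Sidorenko density inequality for some finite k-graph, while its r-expansion (each edge padded with r−k new degree-one vertices) satisfies the Sidorenko inequality against every finite r-graph. -/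
theorem result :
    ∃ (k r a m : ℕ) (e : Fin m → Finset (Fin a)),
      2 ≤ k ∧ k < r ∧ Function.Injective e ∧ (∀ i, (e i).card = k) ∧
      (¬ ∀ n : ℕ, 0 < n → ∀ G : Finset (Finset (Fin n)), (∀ g ∈ G, g.card = k) →
        (((k.factorial * G.card : ℕ) : ℝ) / (n : ℝ) ^ k) ^ m ≤
          ((Finset.univ.filter
              (fun f : Fin a → Fin n => ∀ i : Fin m, (e i).image f ∈ G)).card : ℝ)
            / (n : ℝ) ^ a) ∧
      (∀ n : ℕ, 0 < n → ∀ G : Finset (Finset (Fin n)), (∀ g ∈ G, g.card = r) →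
        (((r.factorial * G.card : ℕ) : ℝ) / (n : ℝ) ^ r) ^ m ≤
          ((Finset.univ.filter
              (fun f : Fin a ⊕ (Fin m × Fin (r - k)) → Fin n =>
                ∀ i : Fin m,
                  ((e i).image (Sum.inl : Fin a → Fin a ⊕ (Fin m × Fin (r - k))) ∪
                    (Finset.univ : Finset (Fin (r - k))).image
                      (fun j : Fin (r - k) =>
                        (Sum.inr (i, j) : Fin a ⊕ (Fin m × Fin (r - k))))).image f ∈ G)).card : ℝ)
            / (n : ℝ) ^ (a + m * (r - k))) := by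
  have hcT : Fintype.card T = 27 := by decide
  have hcE : Fintype.card E = 39 := by decide
  let τ : T ≃ Fin 27 := Fintype.equivFinOfCardEq hcT
  let ε : Fin 39 ≃ E := (Fintype.equivFinOfCardEq hcE).symm
  refine ⟨2, 3, 27, 39, edge τ ε, le_refl 2, by norm_num, edge_inj τ ε, edge_card τ ε, ?_, ?_⟩
  · intro h
    have h2 := h 2 (by norm_num) {Finset.univ} (by
      intro g hg; rw [Finset.mem_singleton] at hg; rw [hg]; rfl)
    have hempty : (Finset.univ.filter (fun f : Fin 27 → Fin 2 =>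
        ∀ i : Fin 39, (edge τ ε i).image f ∈ ({Finset.univ} : Finset (Finset (Fin 2))))) = ∅ := by
      rw [Finset.filter_eq_empty_iff]
      intro f _ hf
      have hne : ∀ e : E, f (τ (pp e)) ≠ f (τ (qq e)) := by
        intro e he
        have h3 := hf (ε.symm e)
        rw [Finset.mem_singleton, edge_eq, Equiv.apply_symm_apply, Finset.image_insert,
          Finset.image_singleton, he] at h3
        have h4 : (({f (τ (qq e)), f (τ (qq e))} : Finset (Fin 2))).card = 2 := by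
          rw [h3]; rfl
        simp at h4
      have hub_end : ∀ (i : Fin 3) (σ : Fin 2),
          f (τ (Sum.inl (hub i σ))) = f (τ (Sum.inr (Sum.inl (i, σ)))) := by
        intro i σ
        have a1 := hne (Sum.inr (Sum.inl (i, σ, 0)))
        have a2 := hne (Sum.inr (Sum.inr (i, σ, 0)))
        simp only [pp, qq] at a1 a2
        omega
      have bridge : ∀ i : Fin 3, f (τ (Sum.inr (Sum.inl (i, 0)))) ≠ f (τ (Sum.inr (Sum.inl (i, 1)))) := by
        intro i
        exact hne (Sum.inl i)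
      have hh : ∀ i : Fin 3, f (τ (Sum.inl (hub i 0))) ≠ f (τ (Sum.inl (hub i 1))) := by
        intro i
        rw [hub_end, hub_end]
        exact bridge i
      have b0 : f (τ (Sum.inl 0)) ≠ f (τ (Sum.inl 1)) := hh 0
      have b1 : f (τ (Sum.inl 1)) ≠ f (τ (Sum.inl 2)) := hh 1
      have b2 : f (τ (Sum.inl 2)) ≠ f (τ (Sum.inl 0)) := hh 2
      omega
    rw [hempty] at h2
    norm_num [Nat.factorial] at h2
  · intro n hn G hG
    have hcount := count_eq G τ ε
    have hnR : (0 : ℝ) < n := by exact_mod_cast hn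
    have hmain := main_ineq (ind G) (ind_nonneg G) (ind_swap G) (ind_cyc G)
    rw [Fintype.card_fin] at hmain
    have hsix := six_card_le G hG
    show (((Nat.factorial 3 * G.card : ℕ) : ℝ) / (n : ℝ) ^ 3) ^ 39 ≤
      ((Finset.univ.filter (fun f : Fin 27 ⊕ (Fin 39 × Fin 1) → Fin n => ∀ i : Fin 39,
      ((edge τ ε i).image (Sum.inl : Fin 27 → Fin 27 ⊕ (Fin 39 × Fin 1)) ∪
        (Finset.univ : Finset (Fin 1)).image
          (fun j : Fin 1 => (Sum.inr (i, j) : Fin 27 ⊕ (Fin 39 × Fin 1)))).image f ∈ G)).card : ℝ) /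
      (n : ℝ) ^ (27 + 39 * 1)
    rw [hcount, div_pow, ← pow_mul, div_le_div_iff₀ (by positivity) (by positivity)]
    calc ((Nat.factorial 3 * G.card : ℕ) : ℝ) ^ 39 * (n : ℝ) ^ (27 + 39 * 1)
        ≤ MM (ind G) ^ 39 * (n : ℝ) ^ (27 + 39 * 1) :=
          mul_le_mul_of_nonneg_right (pow_le_pow_left₀ (by positivity) hsix 39) (by positivity)
      _ ≤ (ZZ (ind G) * (n : ℝ) ^ 51) * (n : ℝ) ^ (27 + 39 * 1) :=
          mul_le_mul_of_nonneg_right hmain (by positivity)
      _ = ZZ (ind G) * (n : ℝ) ^ (3 * 39) := by rw [mul_assoc, ← pow_add]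


end Pool.Agent.S07363
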