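import Pool.Statements.S07375
import Pool.Agent.Helper852.MainPack

set_option autoImplicit false
open Pool Pool.MP_d03aa7_co

namespace Pool.Agent.S07375

theorem good_aux {n : ℕ} (G : SimpleGraph (Fin n)) (q : ℕ) (α : ℝ) (hα : 0 < α)
    (hn : n ≤ 2 ^ q) (hq : 1 ≤ α * 2 ^ q)
    (h : α ≤ ({K : SimpleGraph (Fin n) | ∃ f : Fin n → Fin n, Function.Injective f ∧
              ∀ u v, G.Adj u v → K.Adj (f u) (f v)}.ncard : ℝ)
            / (Nat.card (SimpleGraph (Fin n)) : ℝ)) :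
    Pool.Agent.Helper852.Cnt.Good q G := by
  classical
  apply Pool.Agent.Helper852.Cnt.good_of_likely G q α hα hn hq
  have h1 : ({K : SimpleGraph (Fin n) | ∃ f : Fin n → Fin n, Function.Injective f ∧
      ∀ u v, G.Adj u v → K.Adj (f u) (f v)}.ncard) = (Pool.Agent.Helper852.Cnt.Cont G).card := by
    rw [← Set.ncard_coe_finset]
    congr 1
    ext K
    simp [Pool.Agent.Helper852.Cnt.Cont]
  rw [h1, Nat.card_eq_fintype_card] at h
  convert h

/-- A logarithm power is eventually small. -/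
theorem log_aux (C : ℕ) : ∃ N : ℕ, ∀ n : ℕ, N ≤ n → (Nat.log 2 n + C) ^ 40 ≤ n := by
  have h1 := tendsto_pow_const_div_const_pow_of_one_lt 40 (by norm_num : (1 : ℝ) < 2)
  have h2 : ∀ᶠ k : ℕ in Filter.atTop, (k : ℝ) ^ 40 / 2 ^ k < 1 / 2 ^ C :=
    h1.eventually (gt_mem_nhds (by positivity))
  obtain ⟨k0, hk0⟩ := Filter.eventually_atTop.mp h2
  refine ⟨2 ^ k0, fun n hn => ?_⟩
  have hn0 : n ≠ 0 := by
    have : 0 < 2 ^ k0 := by positivity
    omega
  have h3 : k0 ≤ Nat.log 2 n := by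
    rw [Nat.le_log_iff_pow_le (by norm_num) hn0]
    exact hn
  have h4 := hk0 (Nat.log 2 n + C) (by omega)
  have h5 : 2 ^ Nat.log 2 n ≤ n := Nat.pow_log_le_self 2 hn0
  have h6 : (((Nat.log 2 n + C : ℕ) : ℝ)) ^ 40 < 2 ^ (Nat.log 2 n) := by
    rw [div_lt_div_iff₀ (by positivity) (by positivity), one_mul, pow_add] at h4
    have h7 : (0 : ℝ) < 2 ^ C := by positivity
    exact lt_of_mul_lt_mul_right h4 h7.le
  have h8 : (Nat.log 2 n + C) ^ 40 < 2 ^ (Nat.log 2 n) := by exact_mod_cast h6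
  omega

/-- For every α>0 there is N such that for all n≥N, any two n-vertex graphs G, H, each contained (as a subgraph, up to relabelling) in G(n,1/2) with probability ≥ α, pack: some vertex permutation maps H's edges to non-edges of G. -/
theorem result :
    ∀ α : ℝ, 0 < α → ∃ N : ℕ, ∀ n : ℕ, N ≤ n → ∀ G H : SimpleGraph (Fin n),
      α ≤ ({K : SimpleGraph (Fin n) | ∃ f : Fin n → Fin n, Function.Injective f ∧
              ∀ u v, G.Adj u v → K.Adj (f u) (f v)}.ncard : ℝ)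
            / (Nat.card (SimpleGraph (Fin n)) : ℝ) →
      α ≤ ({K : SimpleGraph (Fin n) | ∃ f : Fin n → Fin n, Function.Injective f ∧
              ∀ u v, H.Adj u v → K.Adj (f u) (f v)}.ncard : ℝ)
            / (Nat.card (SimpleGraph (Fin n)) : ℝ) →
      ∃ σ : Fin n ≃ Fin n, ∀ u v, H.Adj u v → ¬ G.Adj (σ u) (σ v) := by
  intro α hα
  obtain ⟨c, hc, hc1⟩ : ∃ c : ℕ, 1 / α < (2 : ℝ) ^ c ∧ 1001 ≤ c := by
    obtain ⟨c0, hc0⟩ := pow_unbounded_of_one_lt (1 / α) (by norm_num : (1 : ℝ) < 2)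
    exact ⟨max c0 1001, hc0.trans_le (pow_le_pow_right₀ (by norm_num) (le_max_left _ _)),
      le_max_right _ _⟩
  obtain ⟨N, hN⟩ := log_aux c
  refine ⟨max N 1, fun n hn G H hG hH => ?_⟩
  have hn1 : 1 ≤ n := le_trans (le_max_right _ _) hn
  have hnN : N ≤ n := le_trans (le_max_left _ _) hn
  have h40 := hN n hnN
  have hn2 : n ≤ 2 ^ (Nat.log 2 n + c) := by
    have h1 : n < 2 ^ (Nat.log 2 n + 1) := Nat.lt_pow_succ_log_self (by norm_num) n
    refine h1.le.trans (Nat.pow_le_pow_right (by norm_num) (by omega))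
  have hq : 1 ≤ α * 2 ^ (Nat.log 2 n + c) := by
    have h1 : (1 : ℝ) / α < 2 ^ (Nat.log 2 n + c) := by
      refine hc.trans_le (pow_le_pow_right₀ (by norm_num) (by omega))
    rw [div_lt_iff₀ hα] at h1
    linarith
  have gG := good_aux G _ α hα hn2 hq hG
  have gH := good_aux H _ α hα hn2 hq hH
  exact Pool.Agent.Helper852.Grd.main_pack G H _ gG gH (by omega) h40 _ _ rfl rfl

end Pool.Agent.S07375
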