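import Pool.Statements.S07389
import Pool.Agent.MPd14d18.Main

set_option autoImplicit false
open Pool Pool.MP_d14d18_co

namespace Pool.Agent.S07389

/-- There is a constant C such that for every d and every finite simple graph of max degree ≤ d, any proper pre-colouring of at most d pendant edges with colours from d+C extends to a proper (d+C)-edge-colouring. -/
theorem result :
  ∃ C : ℕ, ∀ (d : ℕ) (V : Type) [Fintype V] [DecidableEq V] (G : SimpleGraph V)
    [DecidableRel G.Adj],
    (∀ v, G.degree v ≤ d) →
    ∀ (P : Finset (Sym2 V)) (c : Sym2 V → ℕ),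
      (∀ e ∈ P, e ∈ G.edgeSet ∧ ∃ u v, e = s(u, v) ∧ G.degree v = 1) →
      P.card ≤ d →
      (∀ e ∈ P, c e < d + C) →
      (∀ u v w, v ≠ w → s(u, v) ∈ P → s(u, w) ∈ P → c s(u, v) ≠ c s(u, w)) →
      ∃ col : Sym2 V → ℕ,
        (∀ e ∈ G.edgeSet, col e < d + C) ∧
        (∀ u v w, G.Adj u v → G.Adj u w → v ≠ w → col s(u, v) ≠ col s(u, w)) ∧
        (∀ e ∈ P, col e = c e) := by
  refine ⟨33, ?_⟩
  intro d V _ _ G _ hG P c hP hPd hc hprop
  classical
  -- the graph without the pre-coloured edges
  let H : SimpleGraph V := SimpleGraph.fromRel (fun u v => G.Adj u v ∧ s(u, v) ∉ P)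
  have hH : ∀ u v, H.Adj u v ↔ G.Adj u v ∧ s(u, v) ∉ P := by
    intro u v
    simp only [H, SimpleGraph.fromRel_adj]
    constructor
    · rintro ⟨_, h | h⟩
      · exact h
      · exact ⟨h.1.symm, by rw [Sym2.eq_swap]; exact h.2⟩
    · intro h
      exact ⟨h.1.ne, Or.inl h⟩
  let F : V → Finset ℕ := fun v => if 2 ≤ G.degree v then (P.filter (fun e => v ∈ e)).image c
    else ∅
  have hPdeg : ∀ e ∈ P, ∀ u v, e = s(u, v) → G.degree u = 1 ∨ G.degree v = 1 := by
    intro e he u v huv
    obtain ⟨_, a, b, hab, hb⟩ := hP e he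
    rw [huv, Sym2.eq_iff] at hab
    rcases hab with ⟨rfl, rfl⟩ | ⟨rfl, rfl⟩
    · exact Or.inr hb
    · exact Or.inl hb
  have hFc : ∀ v, (F v).card ≤ (P.filter (fun e => v ∈ e ∧ 2 ≤ G.degree v)).card := by
    intro v
    by_cases h : 2 ≤ G.degree v
    · simp only [F, if_pos h]
      refine le_trans Finset.card_image_le (Finset.card_le_card ?_)
      intro e he
      rw [Finset.mem_filter] at he ⊢
      exact ⟨he.1, he.2, h⟩
    · simp only [F, if_neg h]
      simp
  have hPv : ∀ v, H.degree v + (P.filter (fun e => v ∈ e)).card = G.degree v := by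
    intro v
    have h1 : (P.filter (fun e => v ∈ e)).card =
        (Finset.univ.filter (fun w => G.Adj v w ∧ s(v, w) ∈ P)).card := by
      symm
      refine Finset.card_bij (fun w _ => s(v, w)) ?_ ?_ ?_
      · intro w hw
        rw [Finset.mem_filter] at hw ⊢
        exact ⟨hw.2.2, Sym2.mem_mk_left v w⟩
      · intro w _ w' _ heq
        rw [Sym2.eq_iff] at heq
        rcases heq with ⟨_, h⟩ | ⟨h1, h2⟩
        · exact h
        · rw [h2, h1]
      · intro e he
        rw [Finset.mem_filter] at he
        obtain ⟨w, hw⟩ := he.2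
        refine ⟨w, ?_, hw.symm⟩
        rw [Finset.mem_filter]
        refine ⟨Finset.mem_univ _, ?_, hw ▸ he.1⟩
        have := (hP e he.1).1
        rw [hw] at this
        exact this
    rw [h1, ← SimpleGraph.card_neighborFinset_eq_degree,
      ← SimpleGraph.card_neighborFinset_eq_degree, ← Finset.card_union_of_disjoint]
    · congr 1
      ext w
      simp only [Finset.mem_union, SimpleGraph.mem_neighborFinset, hH, Finset.mem_filter,
        Finset.mem_univ, true_and]
      by_cases h : s(v, w) ∈ P
      · simp [h]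
      · simp [h]
    · rw [Finset.disjoint_left]
      intro w hw hw'
      rw [SimpleGraph.mem_neighborFinset, hH] at hw
      rw [Finset.mem_filter] at hw'
      exact hw.2 hw'.2.2
  have hdeg : ∀ v, H.degree v + (F v).card ≤ d := by
    intro v
    have h1 := hFc v
    have h2 : (P.filter (fun e => v ∈ e ∧ 2 ≤ G.degree v)).card ≤
        (P.filter (fun e => v ∈ e)).card := by
      apply Finset.card_le_card
      intro e he
      rw [Finset.mem_filter] at he ⊢
      exact ⟨he.1, he.2.1⟩
    have h3 := hPv v
    have h4 := hG v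
    omega
  have hsum : ∑ v, (F v).card ≤ d := by
    refine le_trans ?_ hPd
    calc ∑ v, (F v).card ≤ ∑ v, (P.filter (fun e => v ∈ e ∧ 2 ≤ G.degree v)).card :=
          Finset.sum_le_sum fun v _ => hFc v
      _ = ∑ e ∈ P, (Finset.univ.filter (fun v => v ∈ e ∧ 2 ≤ G.degree v)).card := by
          simp_rw [Finset.card_filter]
          rw [Finset.sum_comm]
      _ ≤ ∑ e ∈ P, 1 := by
          refine Finset.sum_le_sum fun e he => ?_
          rw [Finset.card_le_one]
          intro a ha b hb
          rw [Finset.mem_filter] at ha hb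
          by_contra hab
          have h1 : e = s(a, b) := (Sym2.mem_and_mem_iff hab).mp ⟨ha.2.1, hb.2.1⟩
          rcases hPdeg e he a b h1 with h2 | h2
          · omega
          · omega
      _ = P.card := by simp
  have hF : ∀ v, ∀ k ∈ F v, k < d + 33 := by
    intro v k hk
    by_cases h : 2 ≤ G.degree v
    · simp only [F, if_pos h, Finset.mem_image, Finset.mem_filter] at hk
      obtain ⟨e, he, rfl⟩ := hk
      exact hc e he.1
    · simp only [F, if_neg h] at hk
      exact absurd hk (Finset.notMem_empty _)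
  obtain ⟨φ, hφ1, hφ2, hφ3⟩ := Pool.Agent.MPd14d18.main_HF H F d hdeg hsum hF
  let ψ : Sym2 V → ℕ := Sym2.lift ⟨φ, hφ1⟩
  have hψ : ∀ u v, ψ s(u, v) = φ u v := fun u v => rfl
  refine ⟨fun e => if e ∈ P then c e else ψ e, ?_, ?_, ?_⟩
  · intro e he
    by_cases h : e ∈ P
    · simp only [if_pos h]
      exact hc e h
    · simp only [if_neg h]
      induction e using Sym2.ind with
      | _ u v =>
      rw [hψ]
      exact (hφ2 u v ((hH u v).mpr ⟨he, h⟩)).1
  · intro u v w huv huw hvw
    -- a vertex with two neighbours has degree at least two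
    have hdeg2 : 2 ≤ G.degree u := by
      rw [← SimpleGraph.card_neighborFinset_eq_degree]
      have h1 : ({v, w} : Finset V) ⊆ G.neighborFinset u := by
        intro x hx
        rw [Finset.mem_insert, Finset.mem_singleton] at hx
        rw [SimpleGraph.mem_neighborFinset]
        rcases hx with rfl | rfl
        · exact huv
        · exact huw
      have h2 := Finset.card_le_card h1
      rwa [Finset.card_pair hvw] at h2
    have hmem : ∀ x, s(u, x) ∈ P → c s(u, x) ∈ F u := by
      intro x hx
      simp only [F, if_pos hdeg2, Finset.mem_image, Finset.mem_filter]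
      exact ⟨s(u, x), ⟨hx, Sym2.mem_mk_left u x⟩, rfl⟩
    by_cases h1 : s(u, v) ∈ P
    · by_cases h2 : s(u, w) ∈ P
      · simp only [if_pos h1, if_pos h2]
        exact hprop u v w hvw h1 h2
      · simp only [if_pos h1, if_neg h2, hψ]
        intro heq
        apply (hφ2 u w ((hH u w).mpr ⟨huw, h2⟩)).2
        rw [← heq]
        exact hmem v h1
    · by_cases h2 : s(u, w) ∈ P
      · simp only [if_neg h1, if_pos h2, hψ]
        intro heq
        apply (hφ2 u v ((hH u v).mpr ⟨huv, h1⟩)).2
        rw [heq]
        exact hmem w h2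
      · simp only [if_neg h1, if_neg h2, hψ]
        exact hφ3 u v w ((hH u v).mpr ⟨huv, h1⟩) ((hH u w).mpr ⟨huw, h2⟩) hvw
  · intro e he
    simp only [if_pos he]

end Pool.Agent.S07389
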