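import Pool.Statements.S07406

set_option autoImplicit false
open Pool Pool.MP_d1f9c8_co

namespace Pool.Agent.S07406

/-- A class of finite graphs, given on the vertex sets `Fin n`. -/
abbrev Cls : Type := (n : ℕ) → SimpleGraph (Fin n) → Prop

/-- Closed under subgraphs. -/
def Her (A : Cls) : Prop :=
  ∀ (a b : ℕ) (G : SimpleGraph (Fin a)) (H : SimpleGraph (Fin b)) (f : H →g G),
    Function.Injective f → A a G → A b H

/-- Membership for graphs on an arbitrary vertex type. -/
def Mem {V : Type} (A : Cls) (G : SimpleGraph V) : Prop :=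
  ∃ (r : ℕ) (K : SimpleGraph (Fin r)), A r K ∧ Nonempty (G ≃g K)

theorem mem_finite {V : Type} {A : Cls} {G : SimpleGraph V} (h : Mem A G) : Finite V := by
  obtain ⟨r, K, _, ⟨e⟩⟩ := h
  exact Finite.of_equiv _ e.toEquiv.symm

theorem mem_of_hom {V W : Type} {A : Cls} (hA : Her A) {G : SimpleGraph V} {H : SimpleGraph W}
    (h : Mem A G) (f : H →g G) (hf : Function.Injective f) : Mem A H := by
  have hV : Finite V := mem_finite h
  obtain ⟨r, K, hK, ⟨e⟩⟩ := h
  have hW : Finite W := Finite.of_injective f hf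
  obtain ⟨s, ⟨g⟩⟩ := Finite.exists_equiv_fin W
  let L : SimpleGraph (Fin s) := H.comap g.symm
  let i : L ≃g H := SimpleGraph.Iso.comap g.symm H
  refine ⟨s, L, ?_, ⟨i.symm⟩⟩
  refine hA r s K L ((e.toHom.comp f).comp i.toHom) ?_ hK
  intro x y hxy
  apply i.injective
  apply hf
  apply e.injective
  exact hxy

theorem mem_fin {A : Cls} (hA : Her A) {n : ℕ} (G : SimpleGraph (Fin n)) : Mem A G ↔ A n G := by
  constructor
  · rintro ⟨r, K, hK, ⟨e⟩⟩
    exact hA r n K G e.toHom e.injective hK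
  · intro h
    exact ⟨n, G, h, ⟨SimpleGraph.Iso.refl⟩⟩

theorem mem_iso {V W : Type} {A : Cls} {G : SimpleGraph V} {H : SimpleGraph W}
    (e : H ≃g G) (h : Mem A G) : Mem A H := by
  obtain ⟨r, K, hK, ⟨e'⟩⟩ := h
  exact ⟨r, K, hK, ⟨e.trans e'⟩⟩

/-- `P` is the product of `A` and `B`. -/
def Prd (P A B : Cls) : Prop :=
  ∀ (n : ℕ) (G : SimpleGraph (Fin n)),
    (P n G ↔ ∃ S : Set (Fin n), Mem A (G.induce S) ∧ Mem B (G.induce Sᶜ))

theorem prd_symm {P A B : Cls} (h : Prd P A B) : Prd P B A := by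
  intro n G
  rw [h n G]
  constructor
  · rintro ⟨S, h1, h2⟩
    exact ⟨Sᶜ, h2, by rw [compl_compl]; exact h1⟩
  · rintro ⟨S, h1, h2⟩
    exact ⟨Sᶜ, h2, by rw [compl_compl]; exact h1⟩

/-- The join of two graphs. -/
def join {V W : Type} (K : SimpleGraph V) (L : SimpleGraph W) : SimpleGraph (V ⊕ W) where
  Adj x y := match x, y with
    | Sum.inl a, Sum.inl b => K.Adj a b
    | Sum.inr a, Sum.inr b => L.Adj a b
    | Sum.inl _, Sum.inr _ => True
    | Sum.inr _, Sum.inl _ => True
  symm := by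
    constructor
    rintro (a | a) (b | b) h
    · exact K.symm.symm _ _ h
    · trivial
    · trivial
    · exact L.symm.symm _ _ h
  loopless := by
    constructor
    rintro (a | a) h
    · exact K.loopless.irrefl a h
    · exact L.loopless.irrefl a h

theorem prd_join {P A B : Cls} (hP : Her P) (hA : Her A) (hB : Her B) (h : Prd P A B)
    {V W : Type} {K : SimpleGraph V} {L : SimpleGraph W} (hK : Mem A K) (hL : Mem B L) :
    Mem P (join K L) := by
  have hV := mem_finite hK
  have hW := mem_finite hL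
  obtain ⟨s, ⟨g⟩⟩ := Finite.exists_equiv_fin (V ⊕ W)
  let M : SimpleGraph (Fin s) := (join K L).comap g.symm
  let i : M ≃g join K L := SimpleGraph.Iso.comap g.symm (join K L)
  refine mem_iso i.symm ?_
  rw [mem_fin hP, h]
  refine ⟨{x | (g.symm x).isLeft}, ?_, ?_⟩
  · refine mem_of_hom hA hK (⟨fun x => (g.symm x.1).getLeft x.2, ?_⟩) ?_
    · rintro ⟨x, hx⟩ ⟨y, hy⟩ hxy
      simp only [SimpleGraph.comap_adj, Function.Embedding.subtype_apply] at hxy
      have hxy' : (join K L).Adj (g.symm x) (g.symm y) := hxy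
      change K.Adj ((g.symm x).getLeft hx) ((g.symm y).getLeft hy)
      have hx' : (g.symm x) = Sum.inl ((g.symm x).getLeft hx) := by simp
      have hy' : (g.symm y) = Sum.inl ((g.symm y).getLeft hy) := by simp
      rw [hx', hy'] at hxy'
      exact hxy'
    · rintro ⟨x, hx⟩ ⟨y, hy⟩ hxy
      change (g.symm x).getLeft hx = (g.symm y).getLeft hy at hxy
      have hx' : (g.symm x) = Sum.inl ((g.symm x).getLeft hx) := by simp
      have hy' : (g.symm y) = Sum.inl ((g.symm y).getLeft hy) := by simp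
      apply Subtype.ext
      apply g.symm.injective
      rw [hx', hy', hxy]
  · have key : ∀ x : Fin s, x ∈ ({x | (g.symm x).isLeft} : Set (Fin s))ᶜ → (g.symm x).isRight := by
      intro x hx
      have : ¬ (g.symm x).isLeft = true := hx
      simpa using this
    refine mem_of_hom hB hL (⟨fun x => (g.symm x.1).getRight (key _ x.2), ?_⟩) ?_
    · rintro ⟨x, hx⟩ ⟨y, hy⟩ hxy
      simp only [SimpleGraph.comap_adj, Function.Embedding.subtype_apply] at hxy
      have hxy' : (join K L).Adj (g.symm x) (g.symm y) := hxy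
      change L.Adj ((g.symm x).getRight (key _ hx)) ((g.symm y).getRight (key _ hy))
      have hx' : (g.symm x) = Sum.inr ((g.symm x).getRight (key _ hx)) := by simp
      have hy' : (g.symm y) = Sum.inr ((g.symm y).getRight (key _ hy)) := by simp
      rw [hx', hy'] at hxy'
      exact hxy'
    · rintro ⟨x, hx⟩ ⟨y, hy⟩ hxy
      change (g.symm x).getRight (key _ hx) = (g.symm y).getRight (key _ hy) at hxy
      have hx' : (g.symm x) = Sum.inr ((g.symm x).getRight (key _ hx)) := by simp
      have hy' : (g.symm y) = Sum.inr ((g.symm y).getRight (key _ hy)) := by simp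
      apply Subtype.ext
      apply g.symm.injective
      rw [hx', hy', hxy]

/-- Edgeless graphs and graphs with at most two vertices. -/
def T : Cls := fun n G => (∀ a b, ¬ G.Adj a b) ∨ n ≤ 2

/-- Bipartite graphs and graphs with at most four vertices. -/
def U : Cls := fun n G =>
  (∃ S : Set (Fin n), (∀ a ∈ S, ∀ b ∈ S, ¬ G.Adj a b) ∧ (∀ a ∉ S, ∀ b ∉ S, ¬ G.Adj a b)) ∨ n ≤ 4

theorem le_of_inj {a b : ℕ} (f : Fin b → Fin a) (hf : Function.Injective f) : b ≤ a := by
  simpa using Fintype.card_le_of_injective f hf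

theorem her_T : Her T := by
  intro a b G H f hf h
  rcases h with h | h
  · left
    intro x y hxy
    exact h _ _ (f.map_adj hxy)
  · right
    exact (le_of_inj f hf).trans h

theorem her_U : Her U := by
  intro a b G H f hf h
  rcases h with ⟨S, h1, h2⟩ | h
  · left
    refine ⟨f ⁻¹' S, ?_, ?_⟩
    · intro x hx y hy hxy
      exact h1 _ hx _ hy (f.map_adj hxy)
    · intro x hx y hy hxy
      exact h2 _ hx _ hy (f.map_adj hxy)
  · right
    exact (le_of_inj f hf).trans h

theorem mem_T {V : Type} [Finite V] (G : SimpleGraph V) :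
    Mem T G ↔ (∀ a b, ¬ G.Adj a b) ∨ Nat.card V ≤ 2 := by
  constructor
  · rintro ⟨r, K, hK, ⟨e⟩⟩
    rcases hK with h | h
    · left
      intro a b hab
      exact h _ _ (e.map_adj_iff.2 hab)
    · right
      rw [Nat.card_congr e.toEquiv]
      simpa using h
  · intro h
    obtain ⟨s, ⟨g⟩⟩ := Finite.exists_equiv_fin V
    refine ⟨s, G.comap g.symm, ?_, ⟨(SimpleGraph.Iso.comap g.symm G).symm⟩⟩
    rcases h with h | h
    · left
      intro a b hab
      exact h _ _ hab
    · right
      rw [Nat.card_congr g] at h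
      simpa using h

theorem mem_U {V : Type} [Finite V] (G : SimpleGraph V) :
    Mem U G ↔ (∃ S : Set V, (∀ a ∈ S, ∀ b ∈ S, ¬ G.Adj a b) ∧ (∀ a ∉ S, ∀ b ∉ S, ¬ G.Adj a b)) ∨
      Nat.card V ≤ 4 := by
  constructor
  · rintro ⟨r, K, hK, ⟨e⟩⟩
    rcases hK with ⟨S, h1, h2⟩ | h
    · left
      refine ⟨e ⁻¹' S, ?_, ?_⟩
      · intro a ha b hb hab
        exact h1 _ ha _ hb (e.map_adj_iff.2 hab)
      · intro a ha b hb hab
        exact h2 _ ha _ hb (e.map_adj_iff.2 hab)
    · right
      rw [Nat.card_congr e.toEquiv]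
      simpa using h
  · intro h
    obtain ⟨s, ⟨g⟩⟩ := Finite.exists_equiv_fin V
    refine ⟨s, G.comap g.symm, ?_, ⟨(SimpleGraph.Iso.comap g.symm G).symm⟩⟩
    rcases h with ⟨S, h1, h2⟩ | h
    · left
      refine ⟨g.symm ⁻¹' S, ?_, ?_⟩
      · intro a ha b hb hab
        exact h1 _ ha _ hb hab
      · intro a ha b hb hab
        exact h2 _ ha _ hb hab
    · right
      rw [Nat.card_congr g] at h
      simpa using h

theorem T_edge {V : Type} {G : SimpleGraph V} (h : Mem T G) {a b : V} (hab : G.Adj a b) :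
    Nat.card V ≤ 2 := by
  have := mem_finite h
  rw [mem_T] at h
  rcases h with h | h
  · exact absurd hab (h a b)
  · exact h

theorem U_tri {V : Type} {G : SimpleGraph V} (h : Mem U G) {a b c : V} (hab : G.Adj a b)
    (hbc : G.Adj b c) (hac : G.Adj a c) : Nat.card V ≤ 4 := by
  have := mem_finite h
  rw [mem_U] at h
  rcases h with ⟨S, h1, h2⟩ | h
  · exfalso
    by_cases ha : a ∈ S
    · by_cases hb : b ∈ S
      · exact h1 _ ha _ hb hab
      · by_cases hc : c ∈ S
        · exact h1 _ ha _ hc hac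
        · exact h2 _ hb _ hc hbc
    · by_cases hb : b ∈ S
      · by_cases hc : c ∈ S
        · exact h1 _ hb _ hc hbc
        · exact h2 _ ha _ hc hac
      · exact h2 _ ha _ hb hab
  · exact h

theorem card_sub {n : ℕ} (S : Set (Fin n)) :
    Nat.card S + Nat.card (Sᶜ : Set (Fin n)) = n := by
  have := Set.ncard_add_ncard_compl S
  rw [Nat.card_coe_set_eq, Nat.card_coe_set_eq, this]
  simp

theorem card_join {V W : Type} [Finite V] [Finite W] :
    Nat.card (V ⊕ W) = Nat.card V + Nat.card W := Nat.card_sum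

theorem mem_K1 {A : Cls} (h : A 1 ⊥) : Mem A (⊥ : SimpleGraph (Fin 1)) :=
  ⟨1, ⊥, h, ⟨SimpleGraph.Iso.refl⟩⟩

theorem T_aux {A B : Cls} (hA : Her A) (hB : Her B) (hB1 : B 1 ⊥) (h : Prd T A B)
    {n : ℕ} (S : Set (Fin n)) (hS : 3 ≤ Nat.card S)
    (hm : Mem A ((⊥ : SimpleGraph (Fin n)).induce S)) : False := by
  have hj := prd_join her_T hA hB h hm (mem_K1 hB1)
  obtain ⟨x⟩ : Nonempty S := by
    by_contra hne
    rw [not_nonempty_iff] at hne
    simp at hS
  have := T_edge hj (a := Sum.inl x) (b := Sum.inr 0) trivial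
  rw [card_join] at this
  omega

theorem irr_T {A B : Cls} (hA : Her A) (hB : Her B) (hA1 : A 1 ⊥) (hB1 : B 1 ⊥)
    (h : Prd T A B) : False := by
  have h6 : T 6 ⊥ := Or.inl (by simp)
  obtain ⟨S, h1, h2⟩ := (h 6 ⊥).1 h6
  have hc := card_sub S
  by_cases hS : 3 ≤ Nat.card S
  · exact T_aux hA hB hB1 h S hS h1
  · exact T_aux hB hA hA1 (prd_symm h) Sᶜ (by omega) h2

theorem U_aux {A B : Cls} (hA : Her A) (hB : Her B) (hB1 : B 1 ⊥) (h : Prd U A B)
    {n : ℕ} (S : Set (Fin n)) (hS : 3 ≤ Nat.card S)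
    (hm : Mem A ((⊥ : SimpleGraph (Fin n)).induce S)) : False := by
  -- graphs in `B` have no edges
  have hBe : ∀ {W : Type} {L : SimpleGraph W}, Mem B L → ∀ x y, ¬ L.Adj x y := by
    intro W L hL x y hxy
    have := mem_finite hL
    have hj := prd_join her_U hA hB h hm hL
    obtain ⟨k⟩ : Nonempty S := by
      by_contra hne
      rw [not_nonempty_iff] at hne
      simp at hS
    have := U_tri hj (a := Sum.inl k) (b := Sum.inr x) (c := Sum.inr y) trivial hxy trivial
    rw [card_join] at this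
    have hne : x ≠ y := hxy.ne
    have : 2 ≤ Nat.card W := by
      have : Nontrivial W := ⟨x, y, hne⟩
      exact Finite.one_lt_card
    omega
  -- `A` contains a triangle
  have h4 : U 4 ⊤ := Or.inr le_rfl
  obtain ⟨S', h1, h2⟩ := (h 4 ⊤).1 h4
  have hc := card_sub S'
  have hS'c : Nat.card (S'ᶜ : Set (Fin 4)) ≤ 1 := by
    by_contra hlt
    push Not at hlt
    have : Nontrivial (S'ᶜ : Set (Fin 4)) := Finite.one_lt_card_iff_nontrivial.1 hlt
    obtain ⟨x, y, hxy⟩ := this
    refine hBe h2 x y ?_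
    simp only [SimpleGraph.comap_adj, Function.Embedding.subtype_apply, SimpleGraph.top_adj]
    exact fun h => hxy (Subtype.ext h)
  have hS' : 3 ≤ Nat.card S' := by omega
  obtain ⟨x, y, z, hxy, hxz, hyz⟩ : ∃ x y z : S', x ≠ y ∧ x ≠ z ∧ y ≠ z := by
    have : Fintype S' := Fintype.ofFinite _
    rw [Nat.card_eq_fintype_card] at hS'
    exact Fintype.two_lt_card_iff.1 hS'
  have adj : ∀ u v : S', u ≠ v → ((⊤ : SimpleGraph (Fin 4)).induce S').Adj u v := by
    intro u v huv
    simp only [SimpleGraph.comap_adj, Function.Embedding.subtype_apply, SimpleGraph.top_adj]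
    exact fun h => huv (Subtype.ext h)
  -- graphs in `B` have at most one vertex
  have hB2 : ∀ {W : Type} {L : SimpleGraph W}, Mem B L → Nat.card W ≤ 1 := by
    intro W L hL
    have := mem_finite hL
    have hj := prd_join her_U hA hB h h1 hL
    have := U_tri hj (a := Sum.inl x) (b := Sum.inl y) (c := Sum.inl z)
      (adj _ _ hxy) (adj _ _ hyz) (adj _ _ hxz)
    rw [card_join] at this
    omega
  -- two disjoint edges plus two isolated vertices
  let M : SimpleGraph (Fin 6) := SimpleGraph.fromRel (fun a b => (a = 0 ∧ b = 1) ∨ (a = 2 ∧ b = 3))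
  have hM : U 6 M := by
    left
    refine ⟨{0, 2}, ?_, ?_⟩
    · intro a ha b hb hab
      simp only [M, SimpleGraph.fromRel_adj] at hab
      simp only [Set.mem_insert_iff, Set.mem_singleton_iff] at ha hb
      rcases ha with rfl | rfl <;> rcases hb with rfl | rfl <;> revert hab <;> decide
    · intro a ha b hb hab
      simp only [M, SimpleGraph.fromRel_adj] at hab
      simp only [Set.mem_insert_iff, Set.mem_singleton_iff, not_or] at ha hb
      revert hab ha hb
      revert a b
      decide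
  obtain ⟨R, hR1, hR2⟩ := (h 6 M).1 hM
  have hRc := card_sub R
  have hR3 := hB2 hR2
  have sub : ∀ u v : Fin 6, u ∉ R → v ∉ R → u = v := by
    intro u v hu hv
    have hsub : Subsingleton (Rᶜ : Set (Fin 6)) := Finite.card_le_one_iff_subsingleton.1 hR3
    have := hsub.elim ⟨u, hu⟩ ⟨v, hv⟩
    exact congrArg Subtype.val this
  have hedge : ∃ u v : R, (M.induce R).Adj u v := by
    by_cases h01 : (0 : Fin 6) ∈ R ∧ (1 : Fin 6) ∈ R
    · refine ⟨⟨0, h01.1⟩, ⟨1, h01.2⟩, ?_⟩
      simp [M]
    · have h2R : (2 : Fin 6) ∈ R := by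
        by_contra h2
        apply h01
        constructor
        · by_contra h0
          exact absurd (sub _ _ h2 h0) (by decide)
        · by_contra h0
          exact absurd (sub _ _ h2 h0) (by decide)
      have h3R : (3 : Fin 6) ∈ R := by
        by_contra h2
        apply h01
        constructor
        · by_contra h0
          exact absurd (sub _ _ h2 h0) (by decide)
        · by_contra h0
          exact absurd (sub _ _ h2 h0) (by decide)
      refine ⟨⟨2, h2R⟩, ⟨3, h3R⟩, ?_⟩
      simp [M]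
  obtain ⟨u, v, huv⟩ := hedge
  have hj := prd_join her_U hA hB h hR1 (mem_K1 hB1)
  have := U_tri hj (a := Sum.inl u) (b := Sum.inl v) (c := Sum.inr 0) huv trivial trivial
  rw [card_join] at this
  have : Nat.card (Fin 1) = 1 := by simp
  omega

theorem irr_U {A B : Cls} (hA : Her A) (hB : Her B) (hA1 : A 1 ⊥) (hB1 : B 1 ⊥)
    (h : Prd U A B) : False := by
  have h6 : U 6 ⊥ := Or.inl ⟨∅, by simp, by simp⟩
  obtain ⟨S, h1, h2⟩ := (h 6 ⊥).1 h6
  have hc := card_sub S
  by_cases hS : 3 ≤ Nat.card S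
  · exact U_aux hA hB hB1 h S hS h1
  · exact U_aux hB hA hA1 (prd_symm h) Sᶜ (by omega) h2

theorem T1 : T 1 ⊥ := Or.inr (by norm_num)

theorem U1 : U 1 ⊥ := Or.inr (by norm_num)

/-- Membership of an induced subgraph, at the level of subsets. -/
theorem ind_T {n : ℕ} (G : SimpleGraph (Fin n)) (S : Set (Fin n)) :
    Mem T (G.induce S) ↔ (∀ a ∈ S, ∀ b ∈ S, ¬ G.Adj a b) ∨ S.ncard ≤ 2 := by
  rw [mem_T, Nat.card_coe_set_eq]
  simp

theorem ind_U {n : ℕ} (G : SimpleGraph (Fin n)) (S : Set (Fin n)) :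
    Mem U (G.induce S) ↔ (∃ R : Set (Fin n), (∀ a ∈ S, ∀ b ∈ S, a ∈ R → b ∈ R → ¬ G.Adj a b) ∧
      (∀ a ∈ S, ∀ b ∈ S, a ∉ R → b ∉ R → ¬ G.Adj a b)) ∨ S.ncard ≤ 4 := by
  rw [mem_U, Nat.card_coe_set_eq]
  constructor
  · rintro (⟨R, h1, h2⟩ | h)
    · left
      refine ⟨Subtype.val '' R, ?_, ?_⟩
      · intro a ha b hb haR hbR hab
        obtain ⟨a', ha', rfl⟩ := haR
        obtain ⟨b', hb', rfl⟩ := hbR
        exact h1 a' ha' b' hb' hab
      · intro a ha b hb haR hbR hab
        refine h2 ⟨a, ha⟩ ?_ ⟨b, hb⟩ ?_ hab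
        · intro h
          exact haR ⟨_, h, rfl⟩
        · intro h
          exact hbR ⟨_, h, rfl⟩
    · right
      exact h
  · rintro (⟨R, h1, h2⟩ | h)
    · left
      refine ⟨Subtype.val ⁻¹' R, ?_, ?_⟩
      · intro a ha b hb hab
        exact h1 a a.2 b b.2 ha hb hab
      · intro a ha b hb hab
        exact h2 a a.2 b b.2 ha hb hab
    · right
      exact h

theorem fwd {n : ℕ} (G : SimpleGraph (Fin n)) (S0 S1 S2 : Set (Fin n))
    (hS : ∀ v, v ∉ S0 → v ∈ S1 ∨ v ∈ S2)
    (hsame : ((∀ a ∈ S1, ∀ b ∈ S1, ¬ G.Adj a b) ∧ (∀ a ∈ S2, ∀ b ∈ S2, ¬ G.Adj a b)) ∨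
      (S1.ncard ≤ 2 ∧ S2.ncard ≤ 2)) : Mem U (G.induce S0ᶜ) := by
  rw [ind_U]
  rcases hsame with ⟨ha, hb⟩ | ⟨ha, hb⟩
  · left
    refine ⟨S1, ?_, ?_⟩
    · intro a _ b _ ha1 hb1
      exact ha a ha1 b hb1
    · intro a haS b hbS ha1 hb1
      exact hb a ((hS a haS).resolve_left ha1) b ((hS b hbS).resolve_left hb1)
  · right
    have hsub : S0ᶜ ⊆ S1 ∪ S2 := fun v hv => hS v hv
    calc (S0ᶜ).ncard ≤ (S1 ∪ S2).ncard := Set.ncard_le_ncard hsub (Set.toFinite _)
      _ ≤ S1.ncard + S2.ncard := Set.ncard_union_le _ _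
      _ ≤ 4 := by omega

theorem prod_eq {n : ℕ} (G : SimpleGraph (Fin n)) :
    (∃ c : Fin n → Fin 3, ∀ i : Fin 3, Mem T (G.induce {v | c v = i})) ↔
      (∃ c : Fin n → Fin 2, ∀ j : Fin 2, Mem ((![T, U] : Fin 2 → Cls) j) (G.induce {v | c v = j})) := by
  classical
  constructor
  · rintro ⟨c, hc⟩
    have hc' : ∀ i, (∀ a ∈ {v | c v = i}, ∀ b ∈ {v | c v = i}, ¬ G.Adj a b) ∨
        ({v | c v = i} : Set (Fin n)).ncard ≤ 2 := fun i => (ind_T G _).1 (hc i)
    -- choose two equal types
    obtain ⟨l, p, q, hl, hpq⟩ : ∃ l p q : Fin 3, (∀ x : Fin 3, x ≠ l → x = p ∨ x = q) ∧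
        (((∀ a ∈ {v | c v = p}, ∀ b ∈ {v | c v = p}, ¬ G.Adj a b) ∧
          (∀ a ∈ {v | c v = q}, ∀ b ∈ {v | c v = q}, ¬ G.Adj a b)) ∨
        (({v | c v = p} : Set (Fin n)).ncard ≤ 2 ∧ ({v | c v = q} : Set (Fin n)).ncard ≤ 2)) := by
      rcases hc' 0 with h0 | h0 <;> rcases hc' 1 with h1 | h1 <;> rcases hc' 2 with h2 | h2
      · exact ⟨2, 0, 1, by decide, Or.inl ⟨h0, h1⟩⟩
      · exact ⟨2, 0, 1, by decide, Or.inl ⟨h0, h1⟩⟩
      · exact ⟨1, 0, 2, by decide, Or.inl ⟨h0, h2⟩⟩
      · exact ⟨0, 1, 2, by decide, Or.inr ⟨h1, h2⟩⟩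
      · exact ⟨0, 1, 2, by decide, Or.inl ⟨h1, h2⟩⟩
      · exact ⟨1, 0, 2, by decide, Or.inr ⟨h0, h2⟩⟩
      · exact ⟨2, 0, 1, by decide, Or.inr ⟨h0, h1⟩⟩
      · exact ⟨2, 0, 1, by decide, Or.inr ⟨h0, h1⟩⟩
    refine ⟨fun v => if c v = l then 0 else 1, ?_⟩
    intro j
    fin_cases j
    · have hset : {v | (if c v = l then (0 : Fin 2) else 1) = 0} = {v | c v = l} := by
        ext v
        by_cases h : c v = l <;> simp [h]
      change Mem T (G.induce {v | (if c v = l then (0 : Fin 2) else 1) = 0})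
      rw [hset]
      exact hc l
    · have hset : {v | (if c v = l then (0 : Fin 2) else 1) = 1} = {v | c v = l}ᶜ := by
        ext v
        by_cases h : c v = l <;> simp [h]
      change Mem U (G.induce {v | (if c v = l then (0 : Fin 2) else 1) = 1})
      rw [hset]
      exact fwd G _ {v | c v = p} {v | c v = q} (fun v hv => hl _ hv) hpq
  · rintro ⟨c, hc⟩
    have h0 : Mem T (G.induce {v | c v = 0}) := hc 0
    have h1 : Mem U (G.induce {v | c v = 1}) := hc 1
    rw [ind_U] at h1
    obtain ⟨R, hR1, hR2⟩ : ∃ R : Set (Fin n), Mem T (G.induce {v | c v = 1 ∧ v ∈ R}) ∧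
        Mem T (G.induce {v | c v = 1 ∧ v ∉ R}) := by
      rcases h1 with ⟨R, h1, h2⟩ | h
      · refine ⟨R, ?_, ?_⟩
        · rw [ind_T]
          left
          intro a ha b hb
          exact h1 a ha.1 b hb.1 ha.2 hb.2
        · rw [ind_T]
          left
          intro a ha b hb
          exact h2 a ha.1 b hb.1 ha.2 hb.2
      · by_cases h2 : ({v | c v = 1} : Set (Fin n)).ncard ≤ 2
        · refine ⟨∅, ?_, ?_⟩
          · rw [ind_T]
            right
            simp
          · rw [ind_T]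
            right
            simpa using h2
        · obtain ⟨R, hRs, hRc⟩ := Set.exists_subset_card_eq (s := {v | c v = 1}) (n := 2)
            (by omega)
          refine ⟨R, ?_, ?_⟩
          · rw [ind_T]
            right
            have : {v | c v = 1 ∧ v ∈ R} = R := by
              ext v
              constructor
              · exact fun h => h.2
              · exact fun h => ⟨hRs h, h⟩
            rw [this]
            omega
          · rw [ind_T]
            right
            have : {v | c v = 1 ∧ v ∉ R} = {v | c v = 1} \ R := by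
              ext v
              simp
            rw [this, Set.ncard_sdiff hRs (Set.toFinite _)]
            omega
    refine ⟨fun v => if c v = 0 then 0 else if v ∈ R then 1 else 2, ?_⟩
    intro i
    have hcv : ∀ v, c v ≠ 0 ↔ c v = 1 := by
      intro v
      have : ∀ x : Fin 2, x ≠ 0 ↔ x = 1 := by decide
      exact this _
    fin_cases i
    · have hset : {v | (if c v = 0 then (0 : Fin 3) else if v ∈ R then 1 else 2) = 0} =
          {v | c v = 0} := by
        ext v
        by_cases h : c v = 0 <;> by_cases h' : v ∈ R <;> simp [h, h']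
      change Mem T (G.induce {v | (if c v = 0 then (0 : Fin 3) else if v ∈ R then 1 else 2) = 0})
      rw [hset]
      exact h0
    · have hset : {v | (if c v = 0 then (0 : Fin 3) else if v ∈ R then 1 else 2) = 1} =
          {v | c v = 1 ∧ v ∈ R} := by
        ext v
        by_cases h : c v = 0
        · simp [h]
        · have h1 := (hcv v).1 h
          by_cases h' : v ∈ R <;> simp [h1, h']
      change Mem T (G.induce {v | (if c v = 0 then (0 : Fin 3) else if v ∈ R then 1 else 2) = 1})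
      rw [hset]
      exact hR1
    · have hset : {v | (if c v = 0 then (0 : Fin 3) else if v ∈ R then 1 else 2) = 2} =
          {v | c v = 1 ∧ v ∉ R} := by
        ext v
        by_cases h : c v = 0
        · simp [h]
        · have h1 := (hcv v).1 h
          by_cases h' : v ∈ R <;> simp [h1, h']
      change Mem T (G.induce {v | (if c v = 0 then (0 : Fin 3) else if v ∈ R then 1 else 2) = 2})
      rw [hset]
      exact hR2

/-- The negation of the preceding statement: Among subgraph-closed classes of finite graphs, with product = vertex partition into parts in the factors, any two factorizations of a class into irreducible factors (contain K1, not a product of two such classes) agree up to reordering. -/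
theorem result :
    ¬ (∀ (m k : ℕ) (Ps : Fin m → (n : ℕ) → SimpleGraph (Fin n) → Prop)
      (Qs : Fin k → (n : ℕ) → SimpleGraph (Fin n) → Prop),
      (∀ i : Fin m,
        (∀ (a b : ℕ) (G : SimpleGraph (Fin a)) (H : SimpleGraph (Fin b)) (f : H →g G),
          Function.Injective f → Ps i a G → Ps i b H) ∧
        Ps i 1 ⊥ ∧
        ∀ A B : (n : ℕ) → SimpleGraph (Fin n) → Prop,
          (∀ (a b : ℕ) (G : SimpleGraph (Fin a)) (H : SimpleGraph (Fin b)) (f : H →g G),
            Function.Injective f → A a G → A b H) →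
          (∀ (a b : ℕ) (G : SimpleGraph (Fin a)) (H : SimpleGraph (Fin b)) (f : H →g G),
            Function.Injective f → B a G → B b H) →
          A 1 ⊥ → B 1 ⊥ →
          ¬ ∀ (n : ℕ) (G : SimpleGraph (Fin n)),
            (Ps i n G ↔ ∃ S : Set (Fin n),
              (∃ (r : ℕ) (K : SimpleGraph (Fin r)), A r K ∧ Nonempty (G.induce S ≃g K)) ∧
              (∃ (r : ℕ) (K : SimpleGraph (Fin r)), B r K ∧ Nonempty (G.induce Sᶜ ≃g K)))) →
      (∀ j : Fin k,
        (∀ (a b : ℕ) (G : SimpleGraph (Fin a)) (H : SimpleGraph (Fin b)) (f : H →g G),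
          Function.Injective f → Qs j a G → Qs j b H) ∧
        Qs j 1 ⊥ ∧
        ∀ A B : (n : ℕ) → SimpleGraph (Fin n) → Prop,
          (∀ (a b : ℕ) (G : SimpleGraph (Fin a)) (H : SimpleGraph (Fin b)) (f : H →g G),
            Function.Injective f → A a G → A b H) →
          (∀ (a b : ℕ) (G : SimpleGraph (Fin a)) (H : SimpleGraph (Fin b)) (f : H →g G),
            Function.Injective f → B a G → B b H) →
          A 1 ⊥ → B 1 ⊥ →
          ¬ ∀ (n : ℕ) (G : SimpleGraph (Fin n)),
            (Qs j n G ↔ ∃ S : Set (Fin n),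
              (∃ (r : ℕ) (K : SimpleGraph (Fin r)), A r K ∧ Nonempty (G.induce S ≃g K)) ∧
              (∃ (r : ℕ) (K : SimpleGraph (Fin r)), B r K ∧ Nonempty (G.induce Sᶜ ≃g K)))) →
      (∀ (n : ℕ) (G : SimpleGraph (Fin n)),
        (∃ c : Fin n → Fin m, ∀ i : Fin m, ∃ (r : ℕ) (K : SimpleGraph (Fin r)),
            Ps i r K ∧ Nonempty (G.induce {v | c v = i} ≃g K)) ↔
        (∃ c : Fin n → Fin k, ∀ j : Fin k, ∃ (r : ℕ) (K : SimpleGraph (Fin r)),
            Qs j r K ∧ Nonempty (G.induce {v | c v = j} ≃g K))) →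
      ∃ σ : Fin m ≃ Fin k, ∀ (i : Fin m) (n : ℕ) (G : SimpleGraph (Fin n)),
        (Ps i n G ↔ Qs (σ i) n G)) := by
  intro H
  obtain ⟨σ, _⟩ := H 3 2 (fun _ => T) ![T, U]
    (fun i => ⟨her_T, T1, fun A B hA hB hA1 hB1 h => irr_T hA hB hA1 hB1 h⟩)
    (fun j => by
      fin_cases j
      · exact ⟨her_T, T1, fun A B hA hB hA1 hB1 h => irr_T hA hB hA1 hB1 h⟩
      · exact ⟨her_U, U1, fun A B hA hB hA1 hB1 h => irr_U hA hB hA1 hB1 h⟩)
    (fun n G => prod_eq G)
  have := Fintype.card_congr σ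
  simp at this

end Pool.Agent.S07406
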