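import Pool.Statements.S07431
import Pool.Agent.Helper77.E809.Final
import Pool.Agent.Helper77.E809.K7

set_option autoImplicit false
open Pool Pool.MP_d36a1d_co

namespace Pool.Agent.S07431

open Pool.Agent.Helper77.E809

/-- The clique property passes from closed walks of length `m` to length `m + 2`. -/
theorem kprop_add_two (m : ℕ) (h : KProp m) : KProp (m + 2) := by
  intro ε hε
  obtain ⟨δ, hδ, H⟩ := h ε hε
  refine ⟨δ, hδ, fun n G hG => ?_⟩
  rcases H n G hG with h1 | ⟨Q, h1, h2, h3⟩
  · exact Or.inl h1
  · exact Or.inr ⟨Q, h1, fun e he f hf hne =>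
      Pool.Agent.Helper77.E809.Cycles.CW_add_two G m e f (h2 e he f hf hne), h3⟩

/-- The clique property for all odd lengths at least seven. -/
theorem kprop_all (k : ℕ) : KProp (2 * (k + 3) + 1) := by
  induction k with
  | zero => exact Pool.Agent.Helper77.E809.K7.K7
  | succ k ih => exact kprop_add_two _ ih

/-- For every k ≥ 3, the least number of colours r for which some n-vertex graph with floor(n²/4)+1 edges can be edge-coloured so every (2k+1)-cycle gets all-distinct colours, divided by n²/8, tends to 1 as n grows. -/
theorem result :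
    ∀ k : ℕ, 3 ≤ k →
      Filter.Tendsto
        (fun n : ℕ =>
          ((sInf {r : ℕ | ∃ G : SimpleGraph (Fin n),
              G.edgeSet.ncard = n ^ 2 / 4 + 1 ∧
              ∃ c : Sym2 (Fin n) → Fin r,
                ∀ v : Fin (2 * k + 1) → Fin n, Function.Injective v →
                  (∀ i : Fin (2 * k + 1), G.Adj (v i) (v (i + 1))) →
                  Function.Injective
                    (fun i : Fin (2 * k + 1) => c s(v i, v (i + 1)))} : ℕ) : ℝ)
            / ((n : ℝ) ^ 2 / 8))
        Filter.atTop (nhds (1 : ℝ)) := by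
  intro k hk
  obtain ⟨j, rfl⟩ : ∃ j, k = j + 3 := ⟨k - 3, by omega⟩
  exact Pool.Agent.Helper77.E809.Final.limit_of_K (j + 3) (by omega) (kprop_all j)

end Pool.Agent.S07431
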