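import Pool.Statements.S07451
import Pool.Agent.Helper927.DL770

set_option autoImplicit false
open Pool Pool.MP_d5472a_co

namespace Pool.Agent.S07451

/-- If Γ acts on a Laman graph G by automorphisms and faithfully on the plane as a dihedral group of order 4 or 6, and the fixed-edge trace conditions hold, then every injective symmetric placement of maximal rigidity rank is isostatic. -/
theorem result :
  ∀ (V : Type) [Fintype V] [DecidableEq V] (G : SimpleGraph V) [DecidableRel G.Adj]
    (Γ : Type) [Group Γ] [Fintype Γ]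
    (θ : Γ →* Equiv.Perm V) (τ : Γ →* Matrix.orthogonalGroup (Fin 2) ℝ),
    (∀ (γ : Γ) (u v : V), G.Adj u v ↔ G.Adj (θ γ u) (θ γ v)) →
    Function.Injective τ →
    (Fintype.card Γ = 4 ∨ Fintype.card Γ = 6) →
    (∃ γ : Γ, ((τ γ).1).det = -1) →
    (((Finset.univ.filter (fun x : V × V => G.Adj x.1 x.2)).card : ℤ)
        = 2 * (2 * (Fintype.card V : ℤ) - 3)) →
    (∀ S : Finset V, 2 ≤ S.card →
        (((S ×ˢ S).filter (fun x : V × V => G.Adj x.1 x.2)).card : ℤ)
          ≤ 2 * (2 * (S.card : ℤ) - 3)) →
    (∀ γ : Γ,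
        (((Finset.univ.filter (fun x : V × V => G.Adj x.1 x.2 ∧
            ((θ γ x.1 = x.1 ∧ θ γ x.2 = x.2) ∨ (θ γ x.1 = x.2 ∧ θ γ x.2 = x.1)))).card : ℝ)
          = 2 * (Matrix.trace (τ γ).1
                  * ((Finset.univ.filter (fun v : V => θ γ v = v)).card : ℝ)
                - (Matrix.trace (τ γ).1 + ((τ γ).1).det)))) →
    ∀ p : V → Fin 2 → ℝ, Function.Injective p →
      (∀ (γ : Γ) (v : V), p (θ γ v) = Matrix.mulVec (τ γ).1 (p v)) →
      (∀ q : V → Fin 2 → ℝ, (∀ (γ : Γ) (v : V), q (θ γ v) = Matrix.mulVec (τ γ).1 (q v)) →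
          (Matrix.of (fun (e : V × V) (c : V × Fin 2) =>
              if G.Adj e.1 e.2 then
                (if c.1 = e.1 then q e.1 c.2 - q e.2 c.2
                 else if c.1 = e.2 then q e.2 c.2 - q e.1 c.2 else 0)
              else 0)).rank
            ≤ (Matrix.of (fun (e : V × V) (c : V × Fin 2) =>
              if G.Adj e.1 e.2 then
                (if c.1 = e.1 then p e.1 c.2 - p e.2 c.2
                 else if c.1 = e.2 then p e.2 c.2 - p e.1 c.2 else 0)
              else 0)).rank) →
      2 * (Matrix.of (fun (e : V × V) (c : V × Fin 2) =>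
              if G.Adj e.1 e.2 then
                (if c.1 = e.1 then p e.1 c.2 - p e.2 c.2
                 else if c.1 = e.2 then p e.2 c.2 - p e.1 c.2 else 0)
              else 0)).rank
        = (Finset.univ.filter (fun x : V × V => G.Adj x.1 x.2)).card := by
  exact Pool.Agent.DihLaman.J770.final

end Pool.Agent.S07451
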