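import Pool.Statements.S07457
import Pool.Agent.Helper456.HC.Roots

set_option autoImplicit false
open Pool Pool.MP_d5da3b_co

namespace Pool.Agent.S07457

/-- If 3<k<v and C(v−i,k−i) is even for i=0,1,2,3, the k-subsets of a v-set split into two parts, each containing every 3-subset in exactly C(v−3,k−3)/2 blocks: a halving into two 3-designs. -/
theorem result :
    ∀ v k : ℕ, 3 < k → k < v →
      (∀ i ∈ Finset.range 4, Even ((v - i).choose (k - i))) →
      ∃ B : Finset (Finset (Fin v)),
        B ⊆ Finset.powersetCard k (Finset.univ : Finset (Fin v)) ∧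
        ∀ T : Finset (Fin v), T.card = 3 →
          2 * (B.filter (fun S => T ⊆ S)).card = (v - 3).choose (k - 3) := by
  intro v k hk hkv hE
  have hE' : Pool.Agent.Helper456.HC.E v k := fun i hi =>
    Nat.even_iff.1 (hE i (Finset.mem_range.2 hi))
  obtain ⟨f, hf⟩ := Pool.Agent.Helper456.HC.halving v k hk hkv hE'
  refine ⟨(Finset.powersetCard k (Finset.univ : Finset (Fin v))).filter (fun S => f S = 1),
    Finset.filter_subset _ _, ?_⟩
  intro T hT
  have h1 := hf.null T (by omega)
  set P := (Finset.powersetCard k (Finset.univ : Finset (Fin v))).filter (fun S => T ⊆ S) with hP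
  have h2 : P.card = (v - 3).choose (k - 3) := by
    rw [hP, Pool.Agent.Helper456.HC.card_sup _ _ _ (Finset.subset_univ T) (by omega),
      Finset.card_univ, Fintype.card_fin, hT]
  have h3 : ((Finset.powersetCard k (Finset.univ : Finset (Fin v))).filter
      (fun S => f S = 1)).filter (fun S => T ⊆ S) = P.filter (fun S => f S = 1) := by
    rw [hP, Finset.filter_filter, Finset.filter_filter]
    refine Finset.filter_congr fun S _ => ?_
    tauto
  have h4 : ∑ S ∈ P, f S = 2 * ((P.filter (fun S => f S = 1)).card : ℤ) - P.card := by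
    have h5 : ∀ S ∈ P, f S = 2 * (if f S = 1 then 1 else 0) - 1 := by
      intro S hS
      rw [hP, Finset.mem_filter, Finset.mem_powersetCard] at hS
      rcases hf.sign S hS.1.1 hS.1.2 with h | h
      · rw [h]; norm_num
      · rw [h]; norm_num
    rw [Finset.sum_congr rfl h5, Finset.sum_sub_distrib, ← Finset.mul_sum, Finset.sum_boole,
      Finset.sum_const, nsmul_eq_mul, mul_one]
  rw [h3]
  rw [h4, h2] at h1
  have h6 : (2 : ℤ) * ((P.filter (fun S => f S = 1)).card : ℤ) = ((v - 3).choose (k - 3) : ℤ) := by
    linarith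
  exact_mod_cast h6

end Pool.Agent.S07457
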