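import Pool.Statements.S07477
import Pool.Agent.Helper137.Core

set_option autoImplicit false
open Pool Pool.MP_d7b81d_co

namespace Pool.Agent.S07477

open Finset Module Filter Topology Pool.Agent.Helper137.Core

section Geo

variable {E : Type} [NormedAddCommGroup E] [NormedSpace ℝ E]

/-- The linear map sending weights on `S` to total weight and weighted sum. -/
noncomputable def depMap (S : Finset E) : (S → ℝ) →ₗ[ℝ] ℝ × E where
  toFun y := (∑ i, y i, ∑ i, y i • (i : E))
  map_add' := by
    intro a b
    simp [Finset.sum_add_distrib, add_smul]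
  map_smul' := by
    intro c a
    simp [Finset.mul_sum, Finset.smul_sum, mul_smul]

/-- The space of affine dependencies. -/
noncomputable def dep (S : Finset E) : Submodule ℝ (S → ℝ) := LinearMap.ker (depMap S)

lemma mem_dep (S : Finset E) (y : S → ℝ) :
    y ∈ dep S ↔ ∑ i, y i = 0 ∧ ∑ i, y i • (i : E) = 0 := by
  simp [dep, depMap, Prod.ext_iff]

variable [DecidableEq E]

open Classical in
/-- The points with positive coefficient. -/
noncomputable def posPart (S : Finset E) (y : S → ℝ) : Finset E :=
  (univ.filter (fun i : S => 0 < y i)).image (fun i => (i : E))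

lemma mem_posPart (S : Finset E) (y : S → ℝ) (x : E) :
    x ∈ posPart S y ↔ ∃ i : S, 0 < y i ∧ (i : E) = x := by
  simp [posPart]

lemma posPart_subset (S : Finset E) (y : S → ℝ) : posPart S y ⊆ S := by
  intro x hx
  obtain ⟨i, _, rfl⟩ := (mem_posPart S y x).mp hx
  exact i.2

lemma mem_both (S : Finset E) (y z : S → ℝ) (hz : z ∈ dep S)
    (h1 : ∀ i, 0 < y i → 0 ≤ z i) (h2 : ∀ i, y i ≤ 0 → z i ≤ 0)
    (h3 : ∑ i ∈ univ.filter (fun i : S => 0 < y i), z i = 1) :
    (∑ i ∈ univ.filter (fun i : S => 0 < y i), z i • (i : E)) ∈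
      convexHull ℝ (posPart S y : Set E) ∩ convexHull ℝ ((S \ posPart S y : Finset E) : Set E) := by
  rw [mem_dep] at hz
  obtain ⟨hz1, hz2⟩ := hz
  have split1 := Finset.sum_filter_add_sum_filter_not (univ : Finset S) (fun i => 0 < y i) z
  have split2 := Finset.sum_filter_add_sum_filter_not (univ : Finset S) (fun i => 0 < y i)
    (fun i => z i • (i : E))
  rw [hz1, h3] at split1
  rw [hz2] at split2
  constructor
  · apply (convex_convexHull ℝ _).sum_mem
    · intro i hi
      exact h1 i (mem_filter.mp hi).2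
    · exact h3
    · intro i hi
      apply subset_convexHull
      rw [mem_coe, mem_posPart]
      exact ⟨i, (mem_filter.mp hi).2, rfl⟩
  · have e : (∑ i ∈ univ.filter (fun i : S => 0 < y i), z i • (i : E)) =
        ∑ i ∈ univ.filter (fun i : S => ¬ 0 < y i), (-z i) • (i : E) := by
      simp only [neg_smul, Finset.sum_neg_distrib]
      exact eq_neg_of_add_eq_zero_left split2
    rw [e]
    apply (convex_convexHull ℝ _).sum_mem
    · intro i hi
      have := h2 i (not_lt.mp (mem_filter.mp hi).2)
      linarith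
    · rw [Finset.sum_neg_distrib]
      linarith
    · intro i hi
      apply subset_convexHull
      rw [mem_coe, Finset.mem_sdiff, mem_posPart]
      refine ⟨i.2, ?_⟩
      rintro ⟨j, hj, hji⟩
      have : j = i := Subtype.ext hji
      subst this
      exact (mem_filter.mp hi).2 hj

theorem geo (S : Finset E) (y : S → ℝ) (hg : Good (dep S) y) :
    (convexHull ℝ (posPart S y : Set E) ∩
      convexHull ℝ ((S \ posPart S y : Finset E) : Set E)).Nonempty ∧
    vectorSpan ℝ (convexHull ℝ (posPart S y : Set E)) ≤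
      vectorSpan ℝ (convexHull ℝ (posPart S y : Set E) ∩
        convexHull ℝ ((S \ posPart S y : Finset E) : Set E)) := by
  obtain ⟨hy, ⟨i₀, hi₀⟩, hint⟩ := hg
  set A : Finset S := univ.filter (fun i : S => 0 < y i) with hA
  set s : ℝ := ∑ i ∈ A, y i with hs
  have hspos : 0 < s := by
    apply Finset.sum_pos
    · intro i hi
      exact (mem_filter.mp hi).2
    · exact ⟨i₀, by simp [hA, hi₀]⟩
  set K := convexHull ℝ (posPart S y : Set E) ∩
      convexHull ℝ ((S \ posPart S y : Finset E) : Set E) with hK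
  -- the point q
  set q : E := ∑ i ∈ A, (s⁻¹ • y) i • (i : E) with hq
  have hqK : q ∈ K := by
    apply mem_both S y (s⁻¹ • y) ((dep S).smul_mem _ hy)
    · intro i hi
      simp only [Pi.smul_apply, smul_eq_mul]
      positivity
    · intro i hi
      simp only [Pi.smul_apply, smul_eq_mul]
      exact mul_nonpos_of_nonneg_of_nonpos (by positivity) hi
    · simp only [Pi.smul_apply, smul_eq_mul]
      rw [← Finset.mul_sum]
      exact inv_mul_cancel₀ hspos.ne'
  refine ⟨⟨q, hqK⟩, ?_⟩
  -- every point of A minus q lies in the direction of K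
  have key : ∀ j : S, 0 < y j → (j : E) - q ∈ vectorSpan ℝ K := by
    intro j hj
    obtain ⟨y', hy', hz', hu'⟩ := hint (fun i => if i = j then 1 else 0)
    have hev : ∀ᶠ ε in 𝓝[>] (0 : ℝ), ∀ i : S, y i ≤ 0 →
        (1 - ε) * (s⁻¹ * y i) + ε * y' i ≤ 0 := by
      rw [Filter.eventually_all]
      intro i
      rcases lt_trichotomy (y i) 0 with h | h | h
      · have hcont : Tendsto (fun ε : ℝ => (1 - ε) * (s⁻¹ * y i) + ε * y' i) (𝓝[>] 0)
            (𝓝 ((1 - 0) * (s⁻¹ * y i) + 0 * y' i)) := by
          apply Tendsto.mono_left _ nhdsWithin_le_nhds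
          apply Continuous.tendsto
          fun_prop
        have hneg : (1 - 0) * (s⁻¹ * y i) + 0 * y' i < 0 := by
          have : s⁻¹ * y i < 0 := mul_neg_of_pos_of_neg (by positivity) h
          linarith
        filter_upwards [hcont.eventually (gt_mem_nhds hneg)] with ε hε _
        exact hε.le
      · refine Eventually.of_forall (fun ε _ => ?_)
        rw [h, hz' i h]
        simp
      · refine Eventually.of_forall (fun ε h' => ?_)
        linarith
    have hev1 : ∀ᶠ ε in 𝓝[>] (0 : ℝ), ε < 1 :=
      (gt_mem_nhds (zero_lt_one)).filter_mono nhdsWithin_le_nhds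
    have hev0 : ∀ᶠ ε in 𝓝[>] (0 : ℝ), 0 < ε := eventually_mem_nhdsWithin
    obtain ⟨ε, hε, hε1, hε0⟩ := (hev.and (hev1.and hev0)).exists
    set z : S → ℝ := (1 - ε) • (s⁻¹ • y) + ε • y' with hz
    have hzdep : z ∈ dep S :=
      (dep S).add_mem ((dep S).smul_mem _ ((dep S).smul_mem _ hy)) ((dep S).smul_mem _ hy')
    have hjA : j ∈ A := by simp [hA, hj]
    have hsumy' : ∑ i ∈ A, y' i = 1 := by
      rw [Finset.sum_congr rfl (fun i hi => hu' i (mem_filter.mp hi).2)]
      simp [hjA, hj]
    have hsumy'' : ∑ i ∈ A, y' i • (i : E) = (j : E) := by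
      rw [Finset.sum_congr rfl (fun i hi => by rw [hu' i (mem_filter.mp hi).2])]
      simp [hjA, hj]
    have hzK : (∑ i ∈ A, z i • (i : E)) ∈ K := by
      apply mem_both S y z hzdep
      · intro i hi
        simp only [hz, Pi.add_apply, Pi.smul_apply, smul_eq_mul]
        rw [hu' i hi]
        have h1 : 0 ≤ (1 - ε) * (s⁻¹ * y i) := by
          apply mul_nonneg (by linarith)
          positivity
        have h2 : 0 ≤ ε * (if i = j then 1 else 0) := by
          apply mul_nonneg hε0.le
          split_ifs <;> norm_num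
        linarith
      · intro i hi
        simp only [hz, Pi.add_apply, Pi.smul_apply, smul_eq_mul]
        exact hε i hi
      · simp only [hz, Pi.add_apply, Pi.smul_apply, smul_eq_mul]
        rw [Finset.sum_add_distrib, ← Finset.mul_sum, ← Finset.mul_sum, ← Finset.mul_sum]
        rw [← hA, hsumy', ← hs, inv_mul_cancel₀ hspos.ne']
        ring
    have hzq : (∑ i ∈ A, z i • (i : E)) = (1 - ε) • q + ε • (j : E) := by
      simp only [hz, Pi.add_apply, Pi.smul_apply, add_smul, Finset.sum_add_distrib]
      rw [hq, Finset.smul_sum, ← hsumy'', Finset.smul_sum]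
      simp only [Pi.smul_apply, smul_eq_mul, mul_smul]
    have hdiff : (∑ i ∈ A, z i • (i : E)) -ᵥ q ∈ vectorSpan ℝ K :=
      vsub_mem_vectorSpan ℝ hzK hqK
    rw [hzq] at hdiff
    have e : ((1 - ε) • q + ε • (j : E)) -ᵥ q = ε • ((j : E) - q) := by
      rw [vsub_eq_sub]
      module
    rw [e] at hdiff
    have := (vectorSpan ℝ K).smul_mem ε⁻¹ hdiff
    rwa [smul_smul, inv_mul_cancel₀ hε0.ne', one_smul] at this
  have hspan : vectorSpan ℝ (convexHull ℝ (posPart S y : Set E)) =
      vectorSpan ℝ (posPart S y : Set E) := by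
    rw [← direction_affineSpan, affineSpan_convexHull, direction_affineSpan]
  rw [hspan, vectorSpan_def, Submodule.span_le]
  rintro v ⟨a, ha, b, hb, rfl⟩
  rw [mem_coe, mem_posPart] at ha hb
  obtain ⟨i, hi, rfl⟩ := ha
  obtain ⟨j, hj, rfl⟩ := hb
  have : (i : E) -ᵥ (j : E) = ((i : E) - q) - ((j : E) - q) := by
    rw [vsub_eq_sub]; abel
  simp only [SetLike.mem_coe]
  rw [this]
  exact Submodule.sub_mem _ (key i hi) (key j hj)

end Geo

/-- For every d ≥ 1, any 2d+1 distinct points in R^d split into two nonempty parts whose convex hulls meet, with the intersection's affine dimension at least the smaller of the two hulls' dimensions. -/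
theorem result :
    ∀ d : ℕ, 1 ≤ d →
      ∀ S : Finset (EuclideanSpace ℝ (Fin d)), S.card = 2 * d + 1 →
        ∃ S₁ S₂ : Finset (EuclideanSpace ℝ (Fin d)),
          S₁ ∪ S₂ = S ∧ Disjoint S₁ S₂ ∧ S₁.Nonempty ∧ S₂.Nonempty ∧
          (convexHull ℝ (S₁ : Set (EuclideanSpace ℝ (Fin d))) ∩
            convexHull ℝ (S₂ : Set (EuclideanSpace ℝ (Fin d)))).Nonempty ∧
          min (Module.finrank ℝ
                (vectorSpan ℝ (convexHull ℝ (S₁ : Set (EuclideanSpace ℝ (Fin d))))))
              (Module.finrank ℝ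
                (vectorSpan ℝ (convexHull ℝ (S₂ : Set (EuclideanSpace ℝ (Fin d))))))
            ≤ Module.finrank ℝ
                (vectorSpan ℝ (convexHull ℝ (S₁ : Set (EuclideanSpace ℝ (Fin d))) ∩
                  convexHull ℝ (S₂ : Set (EuclideanSpace ℝ (Fin d))))) := by
  classical
  intro d hd S hS
  have hdim : d ≤ finrank ℝ (dep S) := by
    have h1 := LinearMap.finrank_range_add_finrank_ker (depMap S)
    have h2 : finrank ℝ (LinearMap.range (depMap S)) ≤
        finrank ℝ (ℝ × EuclideanSpace ℝ (Fin d)) := Submodule.finrank_le _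
    rw [Module.finrank_prod, finrank_self, finrank_euclideanSpace_fin] at h2
    have h3 : finrank ℝ (S → ℝ) = 2 * d + 1 := by
      rw [Module.finrank_fintype_fun_eq_card, Fintype.card_coe, hS]
    rw [h3] at h1
    change d ≤ finrank ℝ (LinearMap.ker (depMap S))
    omega
  obtain ⟨y, hy⟩ := core (dep S) (fun y hy => ((mem_dep S y).mp hy).1) (by omega)
    (by rw [Fintype.card_coe, hS]; omega)
  obtain ⟨h1, h2⟩ := geo S y hy
  refine ⟨posPart S y, S \ posPart S y, ?_, disjoint_sdiff, ?_, ?_, h1, ?_⟩
  · exact Finset.union_sdiff_of_subset (posPart_subset S y)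
  · obtain ⟨q, hq, _⟩ := h1
    exact_mod_cast (convexHull_nonempty_iff (𝕜 := ℝ)).mp ⟨q, hq⟩
  · obtain ⟨q, _, hq⟩ := h1
    exact_mod_cast (convexHull_nonempty_iff (𝕜 := ℝ)).mp ⟨q, hq⟩
  · exact (min_le_left _ _).trans (Submodule.finrank_mono h2)

end Pool.Agent.S07477
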