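import Pool.Statements.S07506
-- import your own Pool.Agent.* helpers here

set_option autoImplicit false
open Pool Pool.MP_d96059_co

namespace Pool.Agent.S07506

/-- Adjacency of the counterexample: the complete bipartite graph between 0..4 and 5..9, without the two
edges 3-8 and 4-9, and with the two additional edges 3-4 and 8-9. Its complement is two copies of the
complete graph on five vertices, each without one edge, joined by two edges. -/
def adjB (a b : Fin (2 * 5)) : Bool :=
  (((decide (a.val < 5)) != (decide (b.val < 5))) &&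
    !((a.val == 3 && b.val == 8) || (a.val == 8 && b.val == 3) ||
      (a.val == 4 && b.val == 9) || (a.val == 9 && b.val == 4))) ||
  ((a.val == 3 && b.val == 4) || (a.val == 4 && b.val == 3) ||
    (a.val == 8 && b.val == 9) || (a.val == 9 && b.val == 8))

/-- The counterexample, a 5-regular graph on 10 vertices. -/
def G0 : SimpleGraph (Fin (2 * 5)) where
  Adj a b := adjB a b = true
  symm := ⟨by decide⟩
  loopless := ⟨by decide⟩

instance : DecidableRel G0.Adj := fun a b => inferInstanceAs (Decidable (adjB a b = true))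

theorem G0_regular : G0.IsRegularOfDegree 5 := by
  intro v
  revert v
  decide +kernel

theorem G0_not_bip : ¬ Nonempty (G0 ≃g completeBipartiteGraph (Fin 5) (Fin 5)) := by
  rintro ⟨φ⟩
  have h34 : G0.Adj 3 4 := by decide
  have h35 : G0.Adj 3 5 := by decide
  have h45 : G0.Adj 4 5 := by decide
  have h1 := φ.map_adj_iff.2 h34
  have h2 := φ.map_adj_iff.2 h35
  have h3 := φ.map_adj_iff.2 h45
  generalize φ 3 = x at h1 h2
  generalize φ 4 = y at h1 h3
  generalize φ 5 = z at h2 h3
  rcases x with x | x <;> rcases y with y | y <;> rcases z with z | z <;> simp_all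

/-- In the complement only 3-8 and 4-9 join the two halves. -/
theorem cross_compl : ∀ a b : Fin (2 * 5), a.val < 5 → ¬ b.val < 5 → ¬ adjB a b = true →
    (a = 3 ∧ b = 8) ∨ (a = 4 ∧ b = 9) := by
  decide +kernel

/-- Each perfect matching joins the two halves, as 5 is odd. -/
theorem cross_of_perfect {K : SimpleGraph (Fin (2 * 5))} (M : K.Subgraph)
    (hM : M.IsPerfectMatching) :
    ∃ a b : Fin (2 * 5), a.val < 5 ∧ ¬ b.val < 5 ∧ M.Adj a b := by
  by_contra hcon
  push Not at hcon
  have hex : ∀ v : Fin (2 * 5), ∃! w, M.Adj v w := fun v =>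
    hM.1 (hM.2 v)
  choose f hf using hex
  have hadj : ∀ v, M.Adj v (f v) := fun v => (hf v).1
  have huniq : ∀ v w, M.Adj v w → w = f v := fun v w h => (hf v).2 w h
  have hinv : ∀ v, f (f v) = v := fun v => ((huniq (f v) v (hadj v).symm)).symm
  have hsum : ∑ _x ∈ (Finset.univ.filter fun v : Fin (2 * 5) => v.val < 5), (1 : ZMod 2) = 0 := by
    refine Finset.sum_involution (fun a _ => f a) ?_ ?_ ?_ ?_
    · intro a _
      decide
    · intro a _ _ h
      have := hadj a
      rw [h] at this
      exact this.ne rfl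
    · intro a ha
      simp only [Finset.mem_filter, Finset.mem_univ, true_and] at ha ⊢
      by_contra hb
      exact hcon a (f a) ha (not_lt.1 hb) (hadj a)
    · intro a _
      exact hinv a
  revert hsum
  decide +kernel

/-- The negation of the preceding statement: For n ≥ k ≥ 2, every k-regular graph G on 2n vertices, except G ≅ K_{k,k} with k odd, has a perfect matching F in its complement such that G plus F, and the complement minus F, each split edge-disjointly into perfect matchings. -/
theorem result :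
    ¬ (∀ (n k : ℕ), 2 ≤ k → k ≤ n →
      ∀ (G : SimpleGraph (Fin (2 * n))) [DecidableRel G.Adj],
        G.IsRegularOfDegree k →
        ¬ (Odd k ∧ Nonempty (G ≃g completeBipartiteGraph (Fin k) (Fin k))) →
        ∃ F : Gᶜ.Subgraph, F.IsPerfectMatching ∧
          (∃ m : ℕ, ∃ M : Fin m → (G ⊔ F.spanningCoe).Subgraph,
            (∀ i, (M i).IsPerfectMatching) ∧
            ∀ e ∈ (G ⊔ F.spanningCoe).edgeSet, ∃! i, e ∈ (M i).edgeSet) ∧
          (∃ m : ℕ, ∃ M : Fin m → (Gᶜ \ F.spanningCoe).Subgraph,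
            (∀ i, (M i).IsPerfectMatching) ∧
            ∀ e ∈ (Gᶜ \ F.spanningCoe).edgeSet, ∃! i, e ∈ (M i).edgeSet)) := by
  intro H
  obtain ⟨F, hF, -, m, M, hM, hE⟩ := H 5 5 (by norm_num) le_rfl G0 G0_regular
    (fun h => G0_not_bip h.2)
  -- every edge of the complement without F that joins the two halves is the same edge
  have hone : ∃ p q : Fin (2 * 5), ∀ a b : Fin (2 * 5), a.val < 5 → ¬ b.val < 5 →
      (G0ᶜ \ F.spanningCoe).Adj a b → a = p ∧ b = q := by
    obtain ⟨a, b, ha, hb, hab⟩ := cross_of_perfect F hF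
    have hab' : ¬ adjB a b = true := ((SimpleGraph.compl_adj _ _ _).1 (F.adj_sub hab)).2
    rcases cross_compl a b ha hb hab' with ⟨rfl, rfl⟩ | ⟨rfl, rfl⟩
    · refine ⟨4, 9, fun c d hc hd hcd => ?_⟩
      rw [SimpleGraph.sdiff_adj] at hcd
      have hcd' : ¬ adjB c d = true := ((SimpleGraph.compl_adj _ _ _).1 hcd.1).2
      rcases cross_compl c d hc hd hcd' with ⟨rfl, rfl⟩ | h
      · exact absurd hab hcd.2
      · exact h
    · refine ⟨3, 8, fun c d hc hd hcd => ?_⟩
      rw [SimpleGraph.sdiff_adj] at hcd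
      have hcd' : ¬ adjB c d = true := ((SimpleGraph.compl_adj _ _ _).1 hcd.1).2
      rcases cross_compl c d hc hd hcd' with h | ⟨rfl, rfl⟩
      · exact h
      · exact absurd hab hcd.2
  obtain ⟨p, q, hpq⟩ := hone
  -- hence there is at most one matching
  have hmem : ∀ i, s(p, q) ∈ (M i).edgeSet := by
    intro i
    obtain ⟨a, b, ha, hb, hab⟩ := cross_of_perfect (M i) (hM i)
    obtain ⟨rfl, rfl⟩ := hpq a b ha hb ((M i).adj_sub hab)
    exact hab
  have hall : ∀ i j : Fin m, i = j := by
    intro i j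
    have he : s(p, q) ∈ (G0ᶜ \ F.spanningCoe).edgeSet :=
      (M i).edgeSet_subset (hmem i)
    exact (hE _ he).unique (hmem i) (hmem j)
  -- but vertex 0 has degree 3
  have hfin : ∀ w₁ w₂ : Fin (2 * 5), w₁ ≠ w₂ → (G0ᶜ \ F.spanningCoe).Adj 0 w₁ →
      (G0ᶜ \ F.spanningCoe).Adj 0 w₂ → False := by
    intro w₁ w₂ hne h1 h2
    obtain ⟨i, hi, -⟩ := hE s(0, w₁) h1
    obtain ⟨j, hj, -⟩ := hE s(0, w₂) h2
    obtain rfl := hall i j
    have hu := (hM i).1 ((hM i).2 0)
    exact hne (hu.unique hi hj)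
  have hFu := hF.1 (hF.2 0)
  have c1 : G0ᶜ.Adj 0 1 := by decide
  have c2 : G0ᶜ.Adj 0 2 := by decide
  have c3 : G0ᶜ.Adj 0 3 := by decide
  by_cases f1 : F.Adj 0 1
  · have f2 : ¬ F.Adj 0 2 := fun h => absurd (hFu.unique f1 h) (by decide)
    have f3 : ¬ F.Adj 0 3 := fun h => absurd (hFu.unique f1 h) (by decide)
    exact hfin 2 3 (by decide) ⟨c2, f2⟩ ⟨c3, f3⟩
  · by_cases f2 : F.Adj 0 2
    · have f3 : ¬ F.Adj 0 3 := fun h => absurd (hFu.unique f2 h) (by decide)
      exact hfin 1 3 (by decide) ⟨c1, f1⟩ ⟨c3, f3⟩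
    · exact hfin 1 2 (by decide) ⟨c1, f1⟩ ⟨c2, f2⟩

end Pool.Agent.S07506
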