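import Pool.Statements.S07527
import Pool.Agent.Helper606.CritThree

set_option autoImplicit false
open Pool Pool.MP_dae418_co

namespace Pool.Agent.S07527

/-- There exist l, c>0 and e<2 such that every finite graph in which deleting any set X of at most l vertices leaves connectivity exactly k−∣X∣ has at most c·k^e vertices. -/
theorem result :
    ∃ l : ℕ, ∃ c : ℝ, 0 < c ∧ ∃ e : ℝ, e < 2 ∧
      ∀ (k : ℕ) (V : Type) [Fintype V] [DecidableEq V] (G : SimpleGraph V),
        (∀ X : Finset V, X.card ≤ l →
          X.card ≤ k ∧
          (k - X.card < (Xᶜ).card ∧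
            ∀ S : Finset V, S ⊆ Xᶜ → S.card < k - X.card →
              (G.induce (↑((X ∪ S)ᶜ) : Set V)).Connected) ∧
          ¬ (k - X.card + 1 < (Xᶜ).card ∧
            ∀ S : Finset V, S ⊆ Xᶜ → S.card < k - X.card + 1 →
              (G.induce (↑((X ∪ S)ᶜ) : Set V)).Connected)) →
        (Fintype.card V : ℝ) ≤ c * (k : ℝ) ^ e := by
  refine ⟨3, 400, by norm_num, 3 / 2, by norm_num, ?_⟩
  intro k V _ _ G h
  have h0 := h ∅ (by simp)
  apply Pool.Agent.Helper606.CritThree.real_bound
  have hV : k < Fintype.card V := by simpa using h0.2.1.1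
  apply Pool.Agent.Helper606.CritThree.order_bound (G := G) hV
  · intro S hS
    have := h0.2.1.2 S (by simp) (by simpa using hS)
    rwa [Finset.empty_union, Finset.coe_compl] at this
  · intro X hX
    obtain ⟨h1, h2, h3⟩ := h X hX
    refine ⟨h1, ?_⟩
    by_cases hsm : Fintype.card V ≤ k + 1
    · exact Or.inl hsm
    · right
      by_contra hcon
      push Not at hcon
      apply h3
      refine ⟨?_, ?_⟩
      · rw [Finset.card_compl]
        omega
      · intro S _ hS
        have := hcon S (by omega)
        rwa [Finset.coe_compl]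

end Pool.Agent.S07527
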