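import Pool.Statements.S07530
-- import your own Pool.Agent.* helpers here

set_option autoImplicit false
open Pool Pool.MP_daf6f7_co

namespace Pool.Agent.S07530

/-- The dual hypergraph of the wheel with five spokes: vertices 0..4 are the spokes, 5..9 the rim
edges; the hyperedge `i` consists of the wheel edges at the wheel vertex `i`. -/
def wheelDual : Fin 6 → Finset (Fin 10) :=
  ![{0, 1, 2, 3, 4}, {0, 5, 9}, {1, 6, 5}, {2, 7, 6}, {3, 8, 7}, {4, 9, 8}]

theorem wheelDual_nonempty : ∀ i, (wheelDual i).Nonempty := by decide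

theorem wheelDual_matching : ∀ S : Finset (Fin 6), ∃ M ⊆ S,
    (∀ i ∈ M, ∀ j ∈ M, i ≠ j → Disjoint (wheelDual i) (wheelDual j)) ∧
    S.card ≤ M.card *
      (Finset.univ.sup (fun v : Fin 10 => (S.filter (fun i => v ∈ wheelDual i)).card) + 1) := by
  decide +kernel

theorem wheelDual_sup : Finset.univ.sup
    (fun v : Fin 10 => (Finset.univ.filter (fun i : Fin 6 => v ∈ wheelDual i)).card) = 2 := by
  decide +kernel

theorem wheelDual_no_colouring : ∀ a b c d e f : Fin 3,
    a = b ∨ a = c ∨ a = d ∨ a = e ∨ a = f ∨ b = c ∨ c = d ∨ d = e ∨ e = f ∨ f = b := by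
  decide +kernel

/-- The negation of the preceding statement: For any finite hypergraph (edges may repeat) in which every subfamily of edges has a matching of size at least its edge count divided by its max degree plus one, the edges can be colored with max degree plus one colors so same-colored edges are disjoint. -/
theorem result :
    ¬ (∀ (V : Type) [Fintype V] [DecidableEq V] (m : ℕ) (e : Fin m → Finset V),
    (∀ i, (e i).Nonempty) →
    (∀ S : Finset (Fin m), ∃ M ⊆ S,
        (∀ i ∈ M, ∀ j ∈ M, i ≠ j → Disjoint (e i) (e j)) ∧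
        S.card ≤ M.card *
          (Finset.univ.sup (fun v : V => (S.filter (fun i => v ∈ e i)).card) + 1)) →
    ∃ c : Fin m → Fin (Finset.univ.sup
        (fun v : V => (Finset.univ.filter (fun i : Fin m => v ∈ e i)).card) + 1),
      ∀ i j, i ≠ j → c i = c j → Disjoint (e i) (e j)) := by
  intro h
  obtain ⟨c, hc⟩ := h (Fin 10) 6 wheelDual wheelDual_nonempty wheelDual_matching
  have hlt : ∀ i, (c i).val < 3 := by
    intro i
    exact lt_of_lt_of_eq (c i).isLt (congrArg (fun t => t + 1) wheelDual_sup)
  have key := wheelDual_no_colouring ⟨(c 0).val, hlt 0⟩ ⟨(c 1).val, hlt 1⟩ ⟨(c 2).val, hlt 2⟩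
    ⟨(c 3).val, hlt 3⟩ ⟨(c 4).val, hlt 4⟩ ⟨(c 5).val, hlt 5⟩
  simp only [Fin.mk.injEq] at key
  have hne : ∀ i j : Fin 6, i ≠ j → ¬ Disjoint (wheelDual i) (wheelDual j) →
      (c i).val ≠ (c j).val := by
    intro i j hij hd hv
    exact hd (hc i j hij (Fin.ext hv))
  rcases key with k | k | k | k | k | k | k | k | k | k
  · exact hne 0 1 (by decide) (by decide) k
  · exact hne 0 2 (by decide) (by decide) k
  · exact hne 0 3 (by decide) (by decide) k
  · exact hne 0 4 (by decide) (by decide) k
  · exact hne 0 5 (by decide) (by decide) k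
  · exact hne 1 2 (by decide) (by decide) k
  · exact hne 2 3 (by decide) (by decide) k
  · exact hne 3 4 (by decide) (by decide) k
  · exact hne 4 5 (by decide) (by decide) k
  · exact hne 5 1 (by decide) (by decide) k

end Pool.Agent.S07530
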