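import Pool.Statements.S07531
import Pool.Agent.Helper715.Sal8

set_option autoImplicit false
open Pool Pool.MP_db3372_co

namespace Pool.Agent.S07531

/-- For 0≤r<s<d with m=min(C(s+1,r+1),C(d,s)): every d-polytope's r/s-face incidence graph has ≥m+1 s-faces and stays s-connected after deleting ≤m−1 nodes, and some d-polytope fails this with m+1 in place of m. -/
theorem result :
    ∀ d r s : ℕ, r < s → s < d →
      (∀ P : Set (EuclideanSpace ℝ (Fin d)),
        (∃ S : Finset (EuclideanSpace ℝ (Fin d)), P = convexHull ℝ (S : Set (EuclideanSpace ℝ (Fin d)))) →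
        Module.finrank ℝ (vectorSpan ℝ P) = d →
        (min (Nat.choose (s + 1) (r + 1)) (Nat.choose d s) + 1 ≤
            {F : Set (EuclideanSpace ℝ (Fin d)) |
              F.Nonempty ∧ IsExposed ℝ P F ∧ Module.finrank ℝ (vectorSpan ℝ F) = s}.ncard ∧
          ∀ X : Finset (Set (EuclideanSpace ℝ (Fin d))),
            X.card ≤ min (Nat.choose (s + 1) (r + 1)) (Nat.choose d s) - 1 →
            ∀ A B : Set (EuclideanSpace ℝ (Fin d)),
              (A.Nonempty ∧ IsExposed ℝ P A ∧ Module.finrank ℝ (vectorSpan ℝ A) = s) →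
              (B.Nonempty ∧ IsExposed ℝ P B ∧ Module.finrank ℝ (vectorSpan ℝ B) = s) →
              A ∉ X → B ∉ X →
              (SimpleGraph.fromRel (fun F G : Set (EuclideanSpace ℝ (Fin d)) =>
                F ∉ X ∧ G ∉ X ∧
                (F.Nonempty ∧ IsExposed ℝ P F ∧ Module.finrank ℝ (vectorSpan ℝ F) = r) ∧
                (G.Nonempty ∧ IsExposed ℝ P G ∧ Module.finrank ℝ (vectorSpan ℝ G) = s) ∧
                F ⊆ G)).Reachable A B)) ∧
      (∃ P : Set (EuclideanSpace ℝ (Fin d)),
        (∃ S : Finset (EuclideanSpace ℝ (Fin d)), P = convexHull ℝ (S : Set (EuclideanSpace ℝ (Fin d)))) ∧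
        Module.finrank ℝ (vectorSpan ℝ P) = d ∧
        ¬ (min (Nat.choose (s + 1) (r + 1)) (Nat.choose d s) + 1 + 1 ≤
            {F : Set (EuclideanSpace ℝ (Fin d)) |
              F.Nonempty ∧ IsExposed ℝ P F ∧ Module.finrank ℝ (vectorSpan ℝ F) = s}.ncard ∧
          ∀ X : Finset (Set (EuclideanSpace ℝ (Fin d))),
            X.card ≤ min (Nat.choose (s + 1) (r + 1)) (Nat.choose d s) + 1 - 1 →
            ∀ A B : Set (EuclideanSpace ℝ (Fin d)),
              (A.Nonempty ∧ IsExposed ℝ P A ∧ Module.finrank ℝ (vectorSpan ℝ A) = s) →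
              (B.Nonempty ∧ IsExposed ℝ P B ∧ Module.finrank ℝ (vectorSpan ℝ B) = s) →
              A ∉ X → B ∉ X →
              (SimpleGraph.fromRel (fun F G : Set (EuclideanSpace ℝ (Fin d)) =>
                F ∉ X ∧ G ∉ X ∧
                (F.Nonempty ∧ IsExposed ℝ P F ∧ Module.finrank ℝ (vectorSpan ℝ F) = r) ∧
                (G.Nonempty ∧ IsExposed ℝ P G ∧ Module.finrank ℝ (vectorSpan ℝ G) = s) ∧
                F ⊆ G)).Reachable A B)) := by
  intro d r s hr hs
  have hE : Module.finrank ℝ (EuclideanSpace ℝ (Fin d)) = d := finrank_euclideanSpace_fin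
  constructor
  · rintro P ⟨S, rfl⟩ hfin
    have htop := Pool.Agent.Helper715.span_top_of_finrank S (by rw [hE]; omega)
      (by rw [hE]; exact hfin)
    obtain ⟨C, hC⟩ := Pool.Agent.Helper715.exists_CP S htop
    constructor
    · have h1 := Pool.Agent.Helper715.faces_ge hC s
      rw [hE, Nat.choose_succ_succ'] at h1
      have h2 : 1 ≤ d.choose (s + 1) := Nat.choose_pos (by omega)
      have h3 := min_le_right (Nat.choose (s + 1) (r + 1)) (Nat.choose d s)
      exact le_trans (by omega) h1
    · intro X hX A B hA hB hAX hBX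
      have h1 : 0 < Nat.choose (s + 1) (r + 1) := Nat.choose_pos (by omega)
      have h2 : 0 < Nat.choose d s := Nat.choose_pos (by omega)
      have h3 : 0 < min (Nat.choose (s + 1) (r + 1)) (Nat.choose d s) := lt_min h1 h2
      have h4 := Pool.Agent.Helper715.conn_faces hC hr (by rw [hE]; exact hs) X
        (by rw [hE]; omega) A B hA hB hAX hBX
      exact h4
  · refine ⟨convexHull ℝ (Pool.Agent.Helper715.SS d : Set (EuclideanSpace ℝ (Fin d))),
      ⟨Pool.Agent.Helper715.SS d, rfl⟩, Pool.Agent.Helper715.vs_SS, ?_⟩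
    rintro ⟨_, h⟩
    obtain ⟨X, hX, A, B, hA, hB, hAX, hBX, hn⟩ := Pool.Agent.Helper715.upper d r s hr hs
    exact hn (h X (by omega) A B hA hB hAX hBX)

end Pool.Agent.S07531
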