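import Pool.Statements.S07555
import Pool.Agent.Helper553.DimWidth.Final

set_option autoImplicit false
open scoped Classical
open Filter Topology
open Pool Pool.MP_dd10ca_co

namespace Pool.Agent.S07555

/-- There is ε>0 such that for every p(n) with log n/n ≤ p(n) ≤ 1, the random graph order on n points has dimension at least ε times its width with probability tending to 1. -/
theorem result :
    ∃ ε : ℝ, 0 < ε ∧ ∀ p : ℕ → ℝ,
      (∀ n : ℕ, Real.log (n : ℝ) / (n : ℝ) ≤ p n ∧ p n ≤ 1) →
      Tendsto (fun n : ℕ =>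
        ∑ E ∈ ((Finset.univ.filter (fun e : Fin n × Fin n => e.1 < e.2)).powerset.filter
            (fun E => ∀ d : ℕ, ∀ A : Finset (Fin n),
              (∀ x ∈ A, ∀ y ∈ A, ¬ Relation.TransGen (fun a b => (a, b) ∈ E) x y) →
              (∃ σ : Fin d → Equiv.Perm (Fin n), ∀ x y : Fin n, x ≠ y →
                (Relation.TransGen (fun a b => (a, b) ∈ E) x y ↔ ∀ k : Fin d, σ k x < σ k y)) →
              ε * (A.card : ℝ) ≤ (d : ℝ))),
          p n ^ E.card * (1 - p n) ^
            ((Finset.univ.filter (fun e : Fin n × Fin n => e.1 < e.2)).card - E.card))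
        atTop (𝓝 1) := by
  obtain ⟨ε, hε, H⟩ := DW.final_main
  refine ⟨ε, hε, fun p hp => (H p hp).congr (fun n => ?_)⟩
  unfold DW.Pr DW.Ex DW.XF
  rw [Finset.sum_filter]
  apply Finset.sum_congr rfl
  intro E _
  beta_reduce
  by_cases h : DW.GoodF ε n E
  · rw [if_pos h]
    exact (mul_one _).trans (if_pos h).symm
  · rw [if_neg h]
    exact (mul_zero _).trans (if_neg h).symm

end Pool.Agent.S07555
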