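import Pool.Statements.S07572

set_option autoImplicit false
open Pool Pool.MP_ddc6c3_co

namespace Pool.Agent.S07572

/-- The six affine functionals cutting out a product of two triangles in 4-space. -/
def ell (j : Fin 6) (x : EuclideanSpace ℝ (Fin 4)) : ℝ :=
  match j with
  | 0 => x 0 - 1
  | 1 => x 1 - 1
  | 2 => - x 0 - x 1 - 1
  | 3 => x 2 - 1
  | 4 => x 3 - 1
  | 5 => - x 2 - x 3 - 1

/-- The six apex points. -/
def pt (j : Fin 6) : EuclideanSpace ℝ (Fin 4) :=
  match j with
  | 0 => !₂[6, -3, 0, 0]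
  | 1 => !₂[-3, 6, 0, 0]
  | 2 => !₂[-3, -3, 0, 0]
  | 3 => !₂[0, 0, 6, -3]
  | 4 => !₂[0, 0, -3, 6]
  | 5 => !₂[0, 0, -3, -3]

/-- The member `i` of the configuration drops the constraint `i`. -/
def KK (i : Fin 6) : Set (EuclideanSpace ℝ (Fin 4)) :=
  {x | ∀ j, j ≠ i → ell j x ≤ 0}

lemma ell_continuous (j : Fin 6) : Continuous (ell j) := by
  fin_cases j
  · show Continuous (fun x : EuclideanSpace ℝ (Fin 4) => x 0 - 1)
    fun_prop
  · show Continuous (fun x : EuclideanSpace ℝ (Fin 4) => x 1 - 1)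
    fun_prop
  · show Continuous (fun x : EuclideanSpace ℝ (Fin 4) => - x 0 - x 1 - 1)
    fun_prop
  · show Continuous (fun x : EuclideanSpace ℝ (Fin 4) => x 2 - 1)
    fun_prop
  · show Continuous (fun x : EuclideanSpace ℝ (Fin 4) => x 3 - 1)
    fun_prop
  · show Continuous (fun x : EuclideanSpace ℝ (Fin 4) => - x 2 - x 3 - 1)
    fun_prop

lemma ell_comb (j : Fin 6) (x y : EuclideanSpace ℝ (Fin 4)) (a b : ℝ) (h : a + b = 1) :
    ell j (a • x + b • y) = a * ell j x + b * ell j y := by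
  have hb : b = 1 - a := by linarith
  subst hb
  fin_cases j <;> simp [ell] <;> ring

lemma KK_closed (i : Fin 6) : IsClosed (KK i) := by
  have : KK i = ⋂ j : Fin 6, ⋂ (_ : j ≠ i), {x | ell j x ≤ 0} := by
    ext x; simp [KK]
  rw [this]
  exact isClosed_iInter fun j => isClosed_iInter fun _ =>
    isClosed_le (ell_continuous j) continuous_const

lemma KK_convex (i : Fin 6) : Convex ℝ (KK i) := by
  intro x hx y hy a b ha hb hab j hj
  rw [ell_comb j x y a b hab]
  have h1 := hx j hj
  have h2 := hy j hj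
  nlinarith

lemma inter_eq : (⋂ β, KK β) = {x | ∀ j, ell j x ≤ 0} := by
  ext x
  simp only [Set.mem_iInter, KK, Set.mem_ofPred_eq]
  constructor
  · intro h j
    obtain ⟨i, hi⟩ : ∃ i : Fin 6, j ≠ i := by
      by_cases hj : j = 0
      · exact ⟨1, by rw [hj]; decide⟩
      · exact ⟨0, hj⟩
    exact h i j hi
  · intro h i j _
    exact h j

lemma ell_pt_self (i : Fin 6) : ell i (pt i) = 5 := by
  fin_cases i <;> simp [ell, pt] <;> norm_num

lemma ell_pt_ne (i j : Fin 6) (h : j ≠ i) : -4 ≤ ell j (pt i) ∧ ell j (pt i) ≤ 0 := by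
  fin_cases i <;> fin_cases j <;> first | exact absurd rfl h | (simp [ell, pt]; try norm_num)

lemma pt_mem (i : Fin 6) : pt i ∈ KK i := fun j hj => (ell_pt_ne i j hj).2

lemma pt_not_mem_inter (i : Fin 6) : pt i ∉ ⋂ β, KK β := by
  rw [inter_eq]
  intro h
  have := h i
  rw [ell_pt_self] at this
  linarith

lemma inter_compact : IsCompact (⋂ β, KK β) := by
  apply Metric.isCompact_of_isClosed_isBounded
  · exact isClosed_iInter KK_closed
  · rw [inter_eq]
    refine (Metric.isBounded_closedBall (x := (0 : EuclideanSpace ℝ (Fin 4))) (r := 4)).subset ?_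
    intro x hx
    have h0 := hx 0
    have h1 := hx 1
    have h2 := hx 2
    have h3 := hx 3
    have h4 := hx 4
    have h5 := hx 5
    simp only [ell] at h0 h1 h2 h3 h4 h5
    rw [mem_closedBall_zero_iff, EuclideanSpace.norm_eq]
    rw [Real.sqrt_le_left (by norm_num)]
    simp only [Fin.sum_univ_four, Real.norm_eq_abs, sq_abs]
    nlinarith

lemma inter_interior : (interior (⋂ β, KK β)).Nonempty := by
  refine ⟨0, ?_⟩
  rw [inter_eq, mem_interior]
  refine ⟨{x | ∀ j, ell j x < 0}, ?_, ?_, ?_⟩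
  · intro x hx j
    exact (hx j).le
  · have : {x | ∀ j, ell j x < 0} = ⋂ j : Fin 6, {x | ell j x < 0} := by
      ext x; simp
    rw [this]
    exact isOpen_iInter_of_finite fun j => isOpen_lt (ell_continuous j) continuous_const
  · intro j
    fin_cases j <;> simp [ell]

lemma inter_pair (a b : Fin 6) (h : a ≠ b) : KK a ∩ KK b = ⋂ β, KK β := by
  rw [inter_eq]
  ext x
  simp only [KK, Set.mem_inter_iff, Set.mem_ofPred_eq]
  constructor
  · rintro ⟨ha, hb⟩ j
    by_cases hj : j = a
    · exact hb j (by rw [hj]; exact h)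
    · exact ha j hj
  · intro hx
    exact ⟨fun j _ => hx j, fun j _ => hx j⟩

/-- The negation of the preceding statement: Consider closed convex sets in R^d whose common intersection is a convex body strictly inside each one, and let n ≥ 2 be least such that any n of them intersect in that body. Then their union is a union of at most (d+1)(n-1) closed convex sets. -/
theorem result :
    ¬ (∀ (d n : ℕ) (I : Type) (K : I → Set (EuclideanSpace ℝ (Fin d))),
      (∀ α, IsClosed (K α) ∧ Convex ℝ (K α)) →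
      IsCompact (⋂ β, K β) →
      Convex ℝ (⋂ β, K β) →
      (interior (⋂ β, K β)).Nonempty →
      (∀ α, (⋂ β, K β) ⊂ K α) →
      2 ≤ n →
      (∀ S : Finset I, S.card = n → (⋂ α ∈ S, K α) = ⋂ β, K β) →
      (∀ m : ℕ, (∀ S : Finset I, S.card = m → (⋂ α ∈ S, K α) = ⋂ β, K β) → n ≤ m) →
      ∃ C : Fin ((d + 1) * (n - 1)) → Set (EuclideanSpace ℝ (Fin d)),
        (∀ i, IsClosed (C i) ∧ Convex ℝ (C i)) ∧ (⋃ i, C i) = ⋃ α, K α) := by
  intro H
  obtain ⟨C, hC, hU⟩ := H 4 2 (Fin 6) KK (fun α => ⟨KK_closed α, KK_convex α⟩)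
    inter_compact (convex_iInter KK_convex) inter_interior
    (fun α => by
      refine ⟨Set.iInter_subset _ α, fun h => pt_not_mem_inter α (h (pt_mem α))⟩)
    le_rfl
    (fun S hS => by
      obtain ⟨a, b, hab, rfl⟩ := Finset.card_eq_two.mp hS
      have : (⋂ α ∈ ({a, b} : Finset (Fin 6)), KK α) = KK a ∩ KK b := by
        ext x; simp
      rw [this, inter_pair a b hab])
    (fun m hm => by
      by_contra hlt
      have hm2 : m = 0 ∨ m = 1 := by omega
      rcases hm2 with rfl | rfl
      · have h := hm ∅ rfl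
        apply pt_not_mem_inter 0
        rw [← h]
        simp
      · have h := hm {0} rfl
        apply pt_not_mem_inter 0
        rw [← h]
        simpa using pt_mem 0)
  have hmem : ∀ i : Fin 6, ∃ c : Fin ((4 + 1) * (2 - 1)), pt i ∈ C c := by
    intro i
    have : pt i ∈ ⋃ i, C i := by
      rw [hU]
      exact Set.mem_iUnion.mpr ⟨i, pt_mem i⟩
    exact Set.mem_iUnion.mp this
  choose c hc using hmem
  obtain ⟨i, j, hij, hcij⟩ := Fintype.exists_ne_map_eq_of_card_lt c (by simp)
  have hi := hc i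
  have hj := hc j
  rw [← hcij] at hj
  have hmid : (1 / 2 : ℝ) • pt i + (1 / 2 : ℝ) • pt j ∈ C (c i) :=
    (hC (c i)).2 hi hj (by norm_num) (by norm_num) (by norm_num)
  have hmU : (1 / 2 : ℝ) • pt i + (1 / 2 : ℝ) • pt j ∈ ⋃ α, KK α := by
    rw [← hU]
    exact Set.mem_iUnion.mpr ⟨c i, hmid⟩
  obtain ⟨k, hk⟩ := Set.mem_iUnion.mp hmU
  have e1 : 0 < ell i ((1 / 2 : ℝ) • pt i + (1 / 2 : ℝ) • pt j) := by
    rw [ell_comb i _ _ _ _ (by norm_num), ell_pt_self]
    have := (ell_pt_ne j i hij).1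
    linarith
  have e2 : 0 < ell j ((1 / 2 : ℝ) • pt i + (1 / 2 : ℝ) • pt j) := by
    rw [ell_comb j _ _ _ _ (by norm_num), ell_pt_self]
    have := (ell_pt_ne i j (Ne.symm hij)).1
    linarith
  by_cases hki : k = i
  · have := hk j (by rw [hki]; exact Ne.symm hij)
    linarith
  · have := hk i (fun h => hki h.symm)
    linarith

end Pool.Agent.S07572
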