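import Pool.Statements.S07586
import Pool.Agent.Helper378.Final

set_option autoImplicit false
open Pool Pool.MP_dec67b_co

namespace Pool.Agent.S07586

/-- The negation of the preceding statement: There is c>0 such that for every d≥1, every finite set of points in Euclidean d-space with pairwise distances at least 1 contains a subset of size at least c·(number of points)/d whose pairwise distances all exceed 1. -/
theorem result :
    ¬ (∃ c : ℝ, 0 < c ∧ ∀ d : ℕ, 1 ≤ d →
      ∀ S : Finset (EuclideanSpace ℝ (Fin d)),
        (∀ x ∈ S, ∀ y ∈ S, x ≠ y → 1 ≤ dist x y) →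
        ∃ T ⊆ S, c * (S.card : ℝ) / (d : ℝ) ≤ (T.card : ℝ) ∧
          ∀ x ∈ T, ∀ y ∈ T, x ≠ y → 1 < dist x y) := by
  exact Pool.Agent.Helper378.Final.main

end Pool.Agent.S07586
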