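import Pool.Statements.S07592
-- import your own Pool.Agent.* helpers here

set_option autoImplicit false
open Pool Pool.MP_df0568_co

namespace Pool.Agent.S07592

/-- Points of three-space. -/
abbrev E3 := EuclideanSpace ℝ (Fin 3)

/-- `F` is the vertex set of a facet of the convex hull of `V`. -/
def IsFacet (V F : Finset E3) : Prop :=
  F ⊆ V ∧
    (∃ l : E3 →ₗ[ℝ] ℝ, ∃ c : ℝ, ∀ w ∈ V, l w ≤ c ∧ (l w = c ↔ w ∈ F)) ∧
    Module.finrank ℝ (vectorSpan ℝ (F : Set E3)) = 2

/-- An extreme point is strictly separated from the other points. -/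
lemma exists_height (V : Finset E3) (v : E3)
    (hv : v ∉ convexHull ℝ ((V : Set E3) \ {v})) :
    ∃ h : E3 →ₗ[ℝ] ℝ, ∀ u ∈ V, u ≠ v → 0 < h (u - v) := by
  have hfin : ((V : Set E3) \ {v}).Finite := (Finset.finite_toSet V).subset Set.sdiff_subset
  obtain ⟨f, s, h1, h2⟩ := geometric_hahn_banach_point_closed
    (convex_convexHull ℝ ((V : Set E3) \ {v})) (hfin.isClosed_convexHull ℝ) hv
  refine ⟨f.toLinearMap, fun u hu huv => ?_⟩
  have h3 := h2 u (subset_convexHull ℝ _ ⟨hu, huv⟩)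
  have : f (u - v) = f u - f v := map_sub f u v
  simp only [ContinuousLinearMap.coe_coe]
  rw [this]; linarith

/-- Two distinct points of a planar set, not collinear with `v`, seen by a functional. -/
lemma exists_two (F : Finset E3) (v : E3) (hvF : v ∈ F)
    (hF : Module.finrank ℝ (vectorSpan ℝ (F : Set E3)) = 2) :
    ∃ u0 ∈ F, ∃ u1 ∈ F, ∃ g : E3 →ₗ[ℝ] ℝ, u0 ≠ v ∧ g (u0 - v) = 0 ∧ g (u1 - v) ≠ 0 := by
  have h0 : ∃ u0 ∈ F, u0 ≠ v := by
    by_contra hcon
    push Not at hcon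
    have : (F : Set E3) ⊆ {v} := by
      intro x hx; exact hcon x hx
    have h1 : vectorSpan ℝ (F : Set E3) ≤ vectorSpan ℝ ({v} : Set E3) := vectorSpan_mono ℝ this
    rw [vectorSpan_singleton] at h1
    have h2 : vectorSpan ℝ (F : Set E3) = ⊥ := le_bot_iff.mp h1
    rw [h2] at hF
    simp at hF
  obtain ⟨u0, hu0, hu0v⟩ := h0
  have h1 : ∃ u1 ∈ F, u1 - v ∉ Submodule.span ℝ {u0 - v} := by
    by_contra hcon
    push Not at hcon
    have h2 : vectorSpan ℝ (F : Set E3) ≤ Submodule.span ℝ {u0 - v} := by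
      rw [vectorSpan_eq_span_vsub_set_right ℝ (p := v) (by exact_mod_cast hvF)]
      apply Submodule.span_le.mpr
      rintro _ ⟨x, hx, rfl⟩
      exact hcon x hx
    have h3 := Submodule.finrank_mono h2
    have h4 := finrank_span_singleton (K := ℝ) (v := u0 - v) (sub_ne_zero.mpr hu0v)
    omega
  obtain ⟨u1, hu1, hu1v⟩ := h1
  obtain ⟨g, hg1, hg2⟩ := Submodule.exists_le_ker_of_notMem hu1v
  refine ⟨u0, hu0, u1, hu1, g, hu0v, ?_, hg1⟩
  exact hg2 (Submodule.mem_span_singleton_self _)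

/-- The two extreme rays of a facet at an extreme point. -/
lemma exists_rays (F : Finset E3) (v : E3) (hvF : v ∈ F)
    (hF : Module.finrank ℝ (vectorSpan ℝ (F : Set E3)) = 2)
    (h : E3 →ₗ[ℝ] ℝ) (hh : ∀ u ∈ F, u ≠ v → 0 < h (u - v)) :
    ∃ w1 ∈ F, ∃ w2 ∈ F, ∃ m1 m2 : E3 →ₗ[ℝ] ℝ,
      (∀ u ∈ F, m1 (u - v) ≤ 0) ∧ m1 (w1 - v) = 0 ∧ m1 (w2 - v) < 0 ∧
      (∀ u ∈ F, m2 (u - v) ≤ 0) ∧ m2 (w2 - v) = 0 ∧ m2 (w1 - v) < 0 := by
  obtain ⟨u0, hu0, u1, hu1, g, hu0v, hg0, hg1⟩ := exists_two F v hvF hF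
  have hu1v : u1 ≠ v := by rintro rfl; simp at hg1
  have hS : (F.erase v).Nonempty := ⟨u0, Finset.mem_erase.mpr ⟨hu0v, hu0⟩⟩
  obtain ⟨w1, hw1, hmax⟩ :=
    Finset.exists_max_image (F.erase v) (fun u => g (u - v) / h (u - v)) hS
  obtain ⟨w2, hw2, hmin⟩ :=
    Finset.exists_min_image (F.erase v) (fun u => g (u - v) / h (u - v)) hS
  obtain ⟨hw1v, hw1F⟩ := Finset.mem_erase.mp hw1
  obtain ⟨hw2v, hw2F⟩ := Finset.mem_erase.mp hw2
  have hp1 := hh w1 hw1F hw1v
  have hp2 := hh w2 hw2F hw2v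
  have hpu1 := hh u1 hu1 hu1v
  have e0 := hmax u0 (Finset.mem_erase.mpr ⟨hu0v, hu0⟩)
  have e1 := hmax u1 (Finset.mem_erase.mpr ⟨hu1v, hu1⟩)
  have f0 := hmin u0 (Finset.mem_erase.mpr ⟨hu0v, hu0⟩)
  have f1 := hmin u1 (Finset.mem_erase.mpr ⟨hu1v, hu1⟩)
  simp only [hg0, zero_div] at e0 f0
  have hne : g (u1 - v) / h (u1 - v) ≠ 0 := div_ne_zero hg1 hpu1.ne'
  set r1 := g (w1 - v) / h (w1 - v) with hr1
  set r2 := g (w2 - v) / h (w2 - v) with hr2
  have hlt : r2 < r1 := by
    rcases lt_or_gt_of_ne hne with hlt | hgt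
    · linarith
    · linarith
  have g1 : g (w1 - v) = r1 * h (w1 - v) := by rw [hr1]; field_simp
  have g2 : g (w2 - v) = r2 * h (w2 - v) := by rw [hr2]; field_simp
  refine ⟨w1, hw1F, w2, hw2F, g - r1 • h, r2 • h - g, ?_, ?_, ?_, ?_, ?_, ?_⟩
  · intro u hu
    by_cases huv : u = v
    · subst huv; simp
    · have hpu := hh u hu huv
      have := hmax u (Finset.mem_erase.mpr ⟨huv, hu⟩)
      have h2 : g (u - v) ≤ r1 * h (u - v) := by
        rwa [← div_le_iff₀ hpu]
      simp only [LinearMap.sub_apply, LinearMap.smul_apply, smul_eq_mul]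
      linarith
  · simp only [LinearMap.sub_apply, LinearMap.smul_apply, smul_eq_mul]
    linarith
  · simp only [LinearMap.sub_apply, LinearMap.smul_apply, smul_eq_mul]
    rw [g2]
    nlinarith
  · intro u hu
    by_cases huv : u = v
    · subst huv; simp
    · have hpu := hh u hu huv
      have := hmin u (Finset.mem_erase.mpr ⟨huv, hu⟩)
      have h2 : r2 * h (u - v) ≤ g (u - v) := by
        rwa [← le_div_iff₀ hpu]
      simp only [LinearMap.sub_apply, LinearMap.smul_apply, smul_eq_mul]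
      linarith
  · simp only [LinearMap.sub_apply, LinearMap.smul_apply, smul_eq_mul]
    linarith
  · simp only [LinearMap.sub_apply, LinearMap.smul_apply, smul_eq_mul]
    rw [g1]
    nlinarith

/-- Rotating the plane of a facet about an edge line until it meets another point. -/
lemma gift_wrap (V F : Finset E3) (hV : affineSpan ℝ (V : Set E3) = ⊤) (hF : IsFacet V F)
    (v w w' : E3) (hv : v ∈ F) (hw : w ∈ F) (hw' : w' ∈ F) (m : E3 →ₗ[ℝ] ℝ)
    (hm : ∀ u ∈ F, m (u - v) ≤ 0) (hmw : m (w - v) = 0) (hmw' : m (w' - v) < 0)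
    (hwv : w ≠ v) :
    ∃ F', IsFacet V F' ∧ v ∈ F' ∧ w ∈ F' ∧ w' ∉ F' := by
  classical
  obtain ⟨hFV, ⟨l, c, hl⟩, hF2⟩ := hF
  have hlv : l v = c := (hl v (hFV hv)).2.mpr hv
  have hlw : l w = c := (hl w (hFV hw)).2.mpr hw
  have hlw' : l w' = c := (hl w' (hFV hw')).2.mpr hw'
  have hvs : vectorSpan ℝ (V : Set E3) = ⊤ := by
    have := direction_affineSpan ℝ (V : Set E3)
    rw [← this, hV, AffineSubspace.direction_top]
  -- some point of `V` is off the plane of `F`
  have hne : (V \ F).Nonempty := by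
    rw [Finset.sdiff_nonempty]
    intro hVF
    have : (V : Set E3) ⊆ (F : Set E3) := by exact_mod_cast hVF
    have h1 := vectorSpan_mono ℝ this
    rw [hvs] at h1
    have h2 : vectorSpan ℝ (F : Set E3) = ⊤ := top_le_iff.mp h1
    rw [h2, finrank_top, finrank_euclideanSpace_fin] at hF2
    omega
  obtain ⟨u0, hu0, hmax⟩ :=
    Finset.exists_max_image (V \ F) (fun u => m (u - v) / (c - l u)) hne
  obtain ⟨hu0V, hu0F⟩ := Finset.mem_sdiff.mp hu0
  set t := m (u0 - v) / (c - l u0) with ht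
  have hpos : ∀ u ∈ V, u ∉ F → 0 < c - l u := by
    intro u hu huF
    have := hl u hu
    have h2 : l u ≠ c := fun h => huF (this.2.mp h)
    have h3 := lt_of_le_of_ne this.1 h2
    linarith
  have hp0 := hpos u0 hu0V hu0F
  set L : E3 →ₗ[ℝ] ℝ := m + t • l with hL
  have hLv : ∀ u, L u - L v = m (u - v) - t * (c - l u) := by
    intro u
    simp only [hL, LinearMap.add_apply, LinearMap.smul_apply, smul_eq_mul, map_sub, hlv]
    ring
  have hLle : ∀ u ∈ V, L u ≤ L v := by
    intro u hu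
    have h1 := hLv u
    by_cases huF : u ∈ F
    · have h2 : l u = c := (hl u hu).2.mpr huF
      have h3 := hm u huF
      rw [h2] at h1
      linarith
    · have hpu := hpos u hu huF
      have h2 := hmax u (Finset.mem_sdiff.mpr ⟨hu, huF⟩)
      have h3 : m (u - v) ≤ t * (c - l u) := by
        rwa [← div_le_iff₀ hpu]
      linarith
  have hLw : L w = L v := by
    have h1 := hLv w
    rw [hmw, hlw] at h1
    linarith
  have hLw' : L w' < L v := by
    have h1 := hLv w'
    rw [hlw'] at h1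
    linarith
  have hLu0 : L u0 = L v := by
    have h1 := hLv u0
    have h2 : m (u0 - v) = t * (c - l u0) := by rw [ht]; field_simp
    rw [h2] at h1
    linarith
  refine ⟨V.filter (fun u => L u = L v), ⟨Finset.filter_subset _ _, ⟨L, L v, ?_⟩, ?_⟩, ?_, ?_, ?_⟩
  · intro u hu
    refine ⟨hLle u hu, ?_⟩
    simp [hu]
  · -- the new facet is two-dimensional
    have hvm : v ∈ (V.filter (fun u => L u = L v) : Finset E3) := by
      simp [hFV hv]
    have hwm : w ∈ (V.filter (fun u => L u = L v) : Finset E3) := by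
      simp [hFV hw, hLw]
    have hum : u0 ∈ (V.filter (fun u => L u = L v) : Finset E3) := by
      simp [hu0V, hLu0]
    apply le_antisymm
    · have h1 : vectorSpan ℝ ((V.filter (fun u => L u = L v) : Finset E3) : Set E3)
          ≤ LinearMap.ker L := by
        rw [vectorSpan_eq_span_vsub_set_right ℝ (p := v) (by exact_mod_cast hvm)]
        apply Submodule.span_le.mpr
        rintro _ ⟨x, hx, rfl⟩
        have hx' : x ∈ V ∧ L x = L v := by simpa using hx
        simp [LinearMap.mem_ker, hx'.2]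
      have h2 : LinearMap.ker L < ⊤ := by
        rw [lt_top_iff_ne_top]
        intro htop
        have : L = 0 := LinearMap.ker_eq_top.mp htop
        rw [this] at hLw'
        simp at hLw'
      have h3 := Submodule.finrank_lt (s := LinearMap.ker L) h2.ne
      rw [finrank_euclideanSpace_fin] at h3
      have h4 := Submodule.finrank_mono h1
      omega
    · have hli : LinearIndependent ℝ ![w - v, u0 - v] := by
        rw [LinearIndependent.pair_iff]
        intro s r hsr
        have h1 : l (s • (w - v) + r • (u0 - v)) = 0 := by rw [hsr]; simp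
        simp only [map_add, map_smul, map_sub, smul_eq_mul, hlv, hlw] at h1
        have hr : r = 0 := by
          have : r * (l u0 - c) = 0 := by linarith
          rcases mul_eq_zero.mp this with h | h
          · exact h
          · exfalso; linarith
        subst hr
        simp only [zero_smul, add_zero] at hsr
        rcases smul_eq_zero.mp hsr with h | h
        · exact ⟨h, rfl⟩
        · exact absurd (sub_eq_zero.mp h) hwv
      have h1 := finrank_span_eq_card hli
      have h2 : Submodule.span ℝ (Set.range ![w - v, u0 - v]) ≤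
          vectorSpan ℝ ((V.filter (fun u => L u = L v) : Finset E3) : Set E3) := by
        apply Submodule.span_le.mpr
        rintro _ ⟨i, rfl⟩
        fin_cases i
        · exact vsub_mem_vectorSpan ℝ (by exact_mod_cast hwm) (by exact_mod_cast hvm)
        · exact vsub_mem_vectorSpan ℝ (by exact_mod_cast hum) (by exact_mod_cast hvm)
      have h3 := Submodule.finrank_mono h2
      rw [h1] at h3
      simpa using h3
  · simp [hFV hv]
  · simp [hFV hw, hLw]
  · simp only [Finset.mem_filter, not_and]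
    intro _
    exact hLw'.ne

/-- In a set with exactly three elements, three distinct elements are all of them. -/
lemma mem_three {α : Type*} {S : Set α} (hS : S.ncard = 3) {x y z t : α} (hx : x ∈ S)
    (hy : y ∈ S) (hz : z ∈ S) (hxy : x ≠ y) (hxz : x ≠ z) (hyz : y ≠ z) (ht : t ∈ S) :
    t = x ∨ t = y ∨ t = z := by
  have hfin : S.Finite := Set.finite_of_ncard_ne_zero (by omega)
  have hsub : ({x, y, z} : Set α) ⊆ S := by
    intro a ha
    rcases ha with rfl | rfl | rfl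
    · exact hx
    · exact hy
    · exact hz
  have h3 : ({x, y, z} : Set α).ncard = 3 :=
    Set.ncard_eq_three.mpr ⟨x, y, z, hxy, hxz, hyz, rfl⟩
  have heq : ({x, y, z} : Set α) = S := Set.eq_of_subset_of_ncard_le hsub (by omega) hfin
  rw [← heq] at ht
  simpa using ht

/-- The two neighbouring facets of a triangle at one of its vertices. -/
lemma tri_nbrs (V : Finset E3) (hV : affineSpan ℝ (V : Set E3) = ⊤)
    (hext : ∀ v ∈ V, v ∉ convexHull ℝ ((V : Set E3) \ {v})) (v a b : E3)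
    (hT : IsFacet V {v, a, b}) :
    (∃ F, IsFacet V F ∧ v ∈ F ∧ a ∈ F ∧ b ∉ F) ∧ (∃ F, IsFacet V F ∧ v ∈ F ∧ b ∈ F ∧ a ∉ F) := by
  have hvT : v ∈ ({v, a, b} : Finset E3) := by simp
  have hvV : v ∈ V := hT.1 hvT
  obtain ⟨h, hh⟩ := exists_height V v (hext v hvV)
  obtain ⟨w1, hw1, w2, hw2, m1, m2, h1, h1w1, h1w2, h2, h2w2, h2w1⟩ :=
    exists_rays {v, a, b} v hvT hT.2.2 h (fun u hu => hh u (hT.1 hu))
  have hw1v : w1 ≠ v := by rintro rfl; simp at h2w1
  have hw2v : w2 ≠ v := by rintro rfl; simp at h1w2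
  have hw12 : w1 ≠ w2 := by rintro rfl; linarith
  obtain ⟨F1, hF1, hvF1, hwF1, hw'F1⟩ :=
    gift_wrap V {v, a, b} hV hT v w1 w2 hvT hw1 hw2 m1 h1 h1w1 h1w2 hw1v
  obtain ⟨F2, hF2, hvF2, hwF2, hw'F2⟩ :=
    gift_wrap V {v, a, b} hV hT v w2 w1 hvT hw2 hw1 m2 h2 h2w2 h2w1 hw2v
  have e1 : w1 = a ∨ w1 = b := by
    simp only [Finset.mem_insert, Finset.mem_singleton] at hw1
    tauto
  have e2 : w2 = a ∨ w2 = b := by
    simp only [Finset.mem_insert, Finset.mem_singleton] at hw2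
    tauto
  rcases e1 with rfl | rfl
  · rcases e2 with rfl | rfl
    · exact absurd rfl hw12
    · exact ⟨⟨F1, hF1, hvF1, hwF1, hw'F1⟩, ⟨F2, hF2, hvF2, hwF2, hw'F2⟩⟩
  · rcases e2 with rfl | rfl
    · exact ⟨⟨F2, hF2, hvF2, hwF2, hw'F2⟩, ⟨F1, hF1, hvF1, hwF1, hw'F1⟩⟩
    · exact absurd rfl hw12

/-- Two triangles at a simple vertex share an edge. -/
lemma common_edge (V : Finset E3) (hV : affineSpan ℝ (V : Set E3) = ⊤)
    (hext : ∀ v ∈ V, v ∉ convexHull ℝ ((V : Set E3) \ {v})) (v : E3)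
    (h3 : {F : Finset E3 | IsFacet V F ∧ v ∈ F}.ncard = 3) (T1 T2 : Finset E3)
    (hT1 : IsFacet V T1) (hT2 : IsFacet V T2) (hc1 : T1.card = 3) (hv1 : v ∈ T1) (hv2 : v ∈ T2)
    (hne : T1 ≠ T2) : ∃ a, a ≠ v ∧ a ∈ T1 ∧ a ∈ T2 := by
  classical
  obtain ⟨a, b, hab, hT1e⟩ : ∃ a b, (v ≠ a ∧ v ≠ b ∧ a ≠ b) ∧ T1 = {v, a, b} := by
    have hc : (T1.erase v).card = 2 := by rw [Finset.card_erase_of_mem hv1, hc1]
    obtain ⟨a, b, hab, he⟩ := Finset.card_eq_two.mp hc
    have hva : a ∈ T1.erase v := by rw [he]; simp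
    have hvb : b ∈ T1.erase v := by rw [he]; simp
    refine ⟨a, b, ⟨(Finset.ne_of_mem_erase hva).symm, (Finset.ne_of_mem_erase hvb).symm, hab⟩, ?_⟩
    rw [← he, Finset.insert_erase hv1]
  subst hT1e
  obtain ⟨hva, hvb, hab⟩ := hab
  obtain ⟨⟨F1, hF1, hvF1, haF1, hbF1⟩, ⟨F2, hF2, hvF2, hbF2, haF2⟩⟩ := tri_nbrs V hV hext v a b hT1
  have n1 : ({v, a, b} : Finset E3) ≠ F1 := by rintro rfl; simp at hbF1
  have n2 : ({v, a, b} : Finset E3) ≠ F2 := by rintro rfl; simp at haF2
  have n3 : F1 ≠ F2 := by rintro rfl; exact haF2 haF1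
  rcases mem_three h3 (x := {v, a, b}) (y := F1) (z := F2) (t := T2) ⟨hT1, hv1⟩ ⟨hF1, hvF1⟩
    ⟨hF2, hvF2⟩ n1 n2 n3 ⟨hT2, hv2⟩ with h | h | h
  · exact absurd h.symm hne
  · exact ⟨a, hva.symm, by simp, by rw [h]; exact haF1⟩
  · exact ⟨b, hvb.symm, by simp, by rw [h]; exact hbF2⟩

/-- The third facet at a simple vertex lying on two triangles. -/
lemma third_facet (V : Finset E3) (hV : affineSpan ℝ (V : Set E3) = ⊤)
    (hext : ∀ v ∈ V, v ∉ convexHull ℝ ((V : Set E3) \ {v})) (v a b c : E3)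
    (h3 : {F : Finset E3 | IsFacet V F ∧ v ∈ F}.ncard = 3)
    (hT1 : IsFacet V {v, a, b}) (hT2 : IsFacet V {v, a, c})
    (hcT1 : c ∉ ({v, a, b} : Finset E3)) :
    ∃ G, IsFacet V G ∧ v ∈ G ∧ b ∈ G ∧ c ∈ G ∧ a ∉ G := by
  classical
  obtain ⟨⟨F1, hF1, hvF1, haF1, hbF1⟩, ⟨F2, hF2, hvF2, hbF2, haF2⟩⟩ := tri_nbrs V hV hext v a b hT1
  have n1 : ({v, a, b} : Finset E3) ≠ F1 := by rintro rfl; simp at hbF1
  have n2 : ({v, a, b} : Finset E3) ≠ F2 := by rintro rfl; simp at haF2
  have n3 : F1 ≠ F2 := by rintro rfl; exact haF2 haF1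
  have e1 : ({v, a, c} : Finset E3) = F1 := by
    rcases mem_three h3 (x := {v, a, b}) (y := F1) (z := F2) (t := {v, a, c}) ⟨hT1, by simp⟩
      ⟨hF1, hvF1⟩ ⟨hF2, hvF2⟩ n1 n2 n3 ⟨hT2, by simp⟩ with h | h | h
    · exfalso; apply hcT1; rw [← h]; simp
    · exact h
    · exfalso; apply haF2; rw [← h]; simp
  obtain ⟨-, ⟨H, hH, hvH, hcH, haH⟩⟩ := tri_nbrs V hV hext v a c hT2
  have e2 : H = F2 := by
    rcases mem_three h3 (x := {v, a, b}) (y := F1) (z := F2) (t := H) ⟨hT1, by simp⟩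
      ⟨hF1, hvF1⟩ ⟨hF2, hvF2⟩ n1 n2 n3 ⟨hH, hvH⟩ with h | h | h
    · exfalso; apply haH; rw [h]; simp
    · exfalso; apply haH; rw [h]; exact haF1
    · exact h
  subst e2
  exact ⟨H, hH, hvH, hbF2, hcH, haH⟩

/-- If two triangles meet, the polytope is a tetrahedron. -/
lemma tetra (V : Finset E3) (hV : affineSpan ℝ (V : Set E3) = ⊤)
    (hext : ∀ v ∈ V, v ∉ convexHull ℝ ((V : Set E3) \ {v}))
    (hsimple : ∀ v ∈ V, {F : Finset E3 | IsFacet V F ∧ v ∈ F}.ncard = 3)
    (T1 T2 : Finset E3) (hT1 : IsFacet V T1) (hT2 : IsFacet V T2) (hc1 : T1.card = 3)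
    (hc2 : T2.card = 3) (hne : T1 ≠ T2) (v : E3) (hv1 : v ∈ T1) (hv2 : v ∈ T2) :
    V.card ≤ 4 := by
  classical
  have hvV : v ∈ V := hT1.1 hv1
  obtain ⟨a, hav, ha1, ha2⟩ :=
    common_edge V hV hext v (hsimple v hvV) T1 T2 hT1 hT2 hc1 hv1 hv2 hne
  have haV : a ∈ V := hT1.1 ha1
  -- name the third vertices
  have hthird : ∀ T : Finset E3, T.card = 3 → v ∈ T → a ∈ T → ∃ b, b ≠ v ∧ b ≠ a ∧ T = {v, a, b} := by
    intro T hT hv ha
    have hc : ((T.erase v).erase a).card = 1 := by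
      rw [Finset.card_erase_of_mem (Finset.mem_erase.mpr ⟨hav, ha⟩),
        Finset.card_erase_of_mem hv, hT]
    obtain ⟨b, hb⟩ := Finset.card_eq_one.mp hc
    have hbm : b ∈ (T.erase v).erase a := by rw [hb]; simp
    refine ⟨b, ?_, ?_, ?_⟩
    · exact Finset.ne_of_mem_erase (Finset.mem_of_mem_erase hbm)
    · exact Finset.ne_of_mem_erase hbm
    · rw [← hb, Finset.insert_erase (Finset.mem_erase.mpr ⟨hav, ha⟩), Finset.insert_erase hv]
  obtain ⟨b, hbv, hba, rfl⟩ := hthird T1 hc1 hv1 ha1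
  obtain ⟨c, hcv, hca, rfl⟩ := hthird T2 hc2 hv2 ha2
  have hcb : c ≠ b := by rintro rfl; exact hne rfl
  have hcT1 : c ∉ ({v, a, b} : Finset E3) := by simp [hcv, hca, hcb]
  have hbT2 : b ∉ ({v, a, c} : Finset E3) := by simp [hbv, hba, hcb.symm]
  obtain ⟨G, hG, hvG, hbG, hcG, haG⟩ :=
    third_facet V hV hext v a b c (hsimple v hvV) hT1 hT2 hcT1
  have hT1' : IsFacet V {a, v, b} := by
    have : ({a, v, b} : Finset E3) = {v, a, b} := Finset.insert_comm a v {b}
    rw [this]; exact hT1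
  have hT2' : IsFacet V {a, v, c} := by
    have : ({a, v, c} : Finset E3) = {v, a, c} := Finset.insert_comm a v {c}
    rw [this]; exact hT2
  obtain ⟨H, hH, haH, hbH, hcH, hvH⟩ :=
    third_facet V hV hext a v b c (hsimple a haV) hT1' hT2' (by simp [hcv, hca, hcb])
  obtain ⟨hsub1, ⟨l1, c1, hl1⟩, -⟩ := hT1
  obtain ⟨hsub2, ⟨l2, c2, hl2⟩, -⟩ := hT2
  obtain ⟨hsub3, ⟨l3, c3, hl3⟩, -⟩ := hG
  obtain ⟨hsub4, ⟨l4, c4, hl4⟩, -⟩ := hH
  have hbV : b ∈ V := hsub1 (by simp)
  have hcV : c ∈ V := hsub2 (by simp)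
  -- values of the four functionals
  have l1v : l1 v = c1 := (hl1 v hvV).2.mpr (by simp)
  have l1a : l1 a = c1 := (hl1 a haV).2.mpr (by simp)
  have l1b : l1 b = c1 := (hl1 b hbV).2.mpr (by simp)
  have l1c : l1 c < c1 := lt_of_le_of_ne (hl1 c hcV).1 (fun h => hcT1 ((hl1 c hcV).2.mp h))
  have l2v : l2 v = c2 := (hl2 v hvV).2.mpr (by simp)
  have l2a : l2 a = c2 := (hl2 a haV).2.mpr (by simp)
  have l2c : l2 c = c2 := (hl2 c hcV).2.mpr (by simp)
  have l2b : l2 b < c2 := lt_of_le_of_ne (hl2 b hbV).1 (fun h => hbT2 ((hl2 b hbV).2.mp h))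
  have l3v : l3 v = c3 := (hl3 v hvV).2.mpr hvG
  have l3b : l3 b = c3 := (hl3 b hbV).2.mpr hbG
  have l3c : l3 c = c3 := (hl3 c hcV).2.mpr hcG
  have l3a : l3 a < c3 := lt_of_le_of_ne (hl3 a haV).1 (fun h => haG ((hl3 a haV).2.mp h))
  have l4a : l4 a = c4 := (hl4 a haV).2.mpr haH
  have l4b : l4 b = c4 := (hl4 b hbV).2.mpr hbH
  have l4c : l4 c = c4 := (hl4 c hcV).2.mpr hcH
  have l4v : l4 v < c4 := lt_of_le_of_ne (hl4 v hvV).1 (fun h => hvH ((hl4 v hvV).2.mp h))
  -- the three edge directions at `v` form a basis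
  have hli : LinearIndependent ℝ ![a - v, b - v, c - v] := by
    rw [Fintype.linearIndependent_iff]
    intro g hg
    simp only [Fin.sum_univ_three, Matrix.cons_val_zero, Matrix.cons_val_one,
      Matrix.cons_val] at hg
    have k1 : l1 (g 0 • (a - v) + g 1 • (b - v) + g 2 • (c - v)) = 0 := by rw [hg]; simp
    have k2 : l2 (g 0 • (a - v) + g 1 • (b - v) + g 2 • (c - v)) = 0 := by rw [hg]; simp
    have k3 : l3 (g 0 • (a - v) + g 1 • (b - v) + g 2 • (c - v)) = 0 := by rw [hg]; simp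
    simp only [map_add, map_smul, map_sub, smul_eq_mul, l1v, l1a, l1b, l2v, l2a, l2c, l3v, l3b,
      l3c, sub_self, mul_zero, zero_add, add_zero] at k1 k2 k3
    have z0 : g 0 = 0 := by
      rcases mul_eq_zero.mp k3 with h | h
      · exact h
      · exfalso; linarith
    have z1 : g 1 = 0 := by
      rcases mul_eq_zero.mp k2 with h | h
      · exact h
      · exfalso; linarith
    have z2 : g 2 = 0 := by
      rcases mul_eq_zero.mp k1 with h | h
      · exact h
      · exfalso; linarith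
    intro i
    fin_cases i
    · exact z0
    · exact z1
    · exact z2
  have hspan : Submodule.span ℝ (Set.range ![a - v, b - v, c - v]) = ⊤ := by
    apply LinearIndependent.span_eq_top_of_card_eq_finrank hli
    rw [finrank_euclideanSpace_fin]; simp
  have hVsub : V ⊆ {v, a, b, c} := by
    intro u hu
    by_contra hunot
    have hmem : u - v ∈ Submodule.span ℝ (Set.range ![a - v, b - v, c - v]) := by
      rw [hspan]; trivial
    obtain ⟨g, hg⟩ := (Submodule.mem_span_range_iff_exists_fun ℝ).mp hmem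
    simp only [Fin.sum_univ_three, Matrix.cons_val_zero, Matrix.cons_val_one,
      Matrix.cons_val] at hg
    have hu' : u = v + (g 0 • (a - v) + g 1 • (b - v) + g 2 • (c - v)) := by
      rw [hg]; simp
    have k1 : l1 u ≤ c1 := (hl1 u hu).1
    have k2 : l2 u ≤ c2 := (hl2 u hu).1
    have k3 : l3 u ≤ c3 := (hl3 u hu).1
    have k4 : l4 u ≤ c4 := (hl4 u hu).1
    rw [hu'] at k1 k2 k3 k4
    simp only [map_add, map_smul, map_sub, smul_eq_mul, l1v, l1a, l1b, l2v, l2a, l2c, l3v, l3b,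
      l3c, l4a, l4b, l4c, sub_self, mul_zero, zero_add, add_zero] at k1 k2 k3 k4
    have p0 : 0 ≤ g 0 := by nlinarith
    have p1 : 0 ≤ g 1 := by nlinarith
    have p2 : 0 ≤ g 2 := by nlinarith
    have ps : g 0 + g 1 + g 2 ≤ 1 := by nlinarith
    have hconv : u ∈ convexHull ℝ ({v, a, b, c} : Set E3) := by
      have hx : u = (1 - g 0 - g 1 - g 2) • v + g 0 • a + g 1 • b + g 2 • c := by
        rw [hu']; module
      have hcv := convex_convexHull ℝ ({v, a, b, c} : Set E3)
      have m1 : v ∈ convexHull ℝ ({v, a, b, c} : Set E3) := subset_convexHull ℝ _ (by simp)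
      have m2 : a ∈ convexHull ℝ ({v, a, b, c} : Set E3) := subset_convexHull ℝ _ (by simp)
      have m3 : b ∈ convexHull ℝ ({v, a, b, c} : Set E3) := subset_convexHull ℝ _ (by simp)
      have m4 : c ∈ convexHull ℝ ({v, a, b, c} : Set E3) := subset_convexHull ℝ _ (by simp)
      have := hcv.sum_mem (t := (Finset.univ : Finset (Fin 4)))
        (w := ![1 - g 0 - g 1 - g 2, g 0, g 1, g 2]) (z := ![v, a, b, c]) (by
          intro i _
          fin_cases i
          · simp only [Fin.zero_eta, Matrix.cons_val_zero]; linarith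
          · exact p0
          · exact p1
          · exact p2) (by
          simp only [Fin.sum_univ_four, Matrix.cons_val_zero, Matrix.cons_val_one,
            Matrix.cons_val]
          ring) (by
          intro i _
          fin_cases i
          · exact m1
          · exact m2
          · exact m3
          · exact m4)
      simp only [Fin.sum_univ_four, Matrix.cons_val_zero, Matrix.cons_val_one,
            Matrix.cons_val] at this
      rw [hx]; exact this
    apply hext u hu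
    apply convexHull_mono _ hconv
    intro x hx
    refine ⟨?_, ?_⟩
    · rcases hx with rfl | rfl | rfl | rfl
      · exact hvV
      · exact haV
      · exact hbV
      · exact hcV
    · rintro rfl
      apply hunot
      simpa using hx
  calc V.card ≤ ({v, a, b, c} : Finset E3).card := Finset.card_le_card hVsub
    _ ≤ 4 := Finset.card_le_four

/-- Double counting: triangles of a simple polytope with more than four vertices are disjoint,
so three times their number is at most the number of vertices. -/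
lemma triangle_bound (V : Finset E3) (hV : affineSpan ℝ (V : Set E3) = ⊤)
    (hext : ∀ v ∈ V, v ∉ convexHull ℝ ((V : Set E3) \ {v}))
    (hsimple : ∀ v ∈ V, {F : Finset E3 | IsFacet V F ∧ v ∈ F}.ncard = 3) (h4 : 4 < V.card) :
    3 * {F : Finset E3 | IsFacet V F ∧ F.card = 3}.ncard ≤ V.card := by
  classical
  set 𝓣 : Finset (Finset E3) := V.powerset.filter (fun F => IsFacet V F ∧ F.card = 3) with h𝓣
  have h1 : {F : Finset E3 | IsFacet V F ∧ F.card = 3} = (𝓣 : Set (Finset E3)) := by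
    ext F
    simp only [h𝓣, Set.mem_ofPred_eq, Finset.coe_filter, Finset.mem_powerset]
    exact ⟨fun h => ⟨h.1.1, h⟩, fun h => h.2⟩
  rw [h1, Set.ncard_coe_finset]
  have hdisj : ∀ T1 ∈ 𝓣, ∀ T2 ∈ 𝓣, T1 ≠ T2 → Disjoint (id T1) (id T2) := by
    intro T1 hT1 T2 hT2 hne
    rw [Finset.disjoint_left]
    intro v hv1 hv2
    have t1 := (Finset.mem_filter.mp hT1).2
    have t2 := (Finset.mem_filter.mp hT2).2
    have := tetra V hV hext hsimple T1 T2 t1.1 t2.1 t1.2 t2.2 hne v hv1 hv2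
    omega
  have hsub : 𝓣.biUnion id ⊆ V := by
    intro v hv
    obtain ⟨T, hT, hvT⟩ := Finset.mem_biUnion.mp hv
    exact (Finset.mem_filter.mp hT).2.1.1 hvT
  have hcard := Finset.card_biUnion hdisj
  have hsum : ∑ T ∈ 𝓣, (id T).card = 𝓣.card * 3 := by
    apply Finset.sum_const_nat
    intro T hT
    exact (Finset.mem_filter.mp hT).2.2
  have := Finset.card_le_card hsub
  omega

/-- Double counting of incidences between vertices and facets. -/
lemma incidences (V : Finset E3)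
    (hsimple : ∀ v ∈ V, {F : Finset E3 | IsFacet V F ∧ v ∈ F}.ncard = 3)
    (K : Finset ℕ) (q : ℕ → ℕ)
    (hq : ∀ k, {F : Finset E3 | IsFacet V F ∧ F.card = k}.ncard = q k)
    (hK : ∀ k, k ∉ K → q k = 0) :
    3 * V.card = ∑ k ∈ K, q k * k := by
  classical
  set 𝓕 : Finset (Finset E3) := V.powerset.filter (fun F => IsFacet V F) with h𝓕
  have hmem : ∀ F, F ∈ 𝓕 ↔ IsFacet V F := by
    intro F
    simp only [h𝓕, Finset.mem_filter, Finset.mem_powerset]
    exact ⟨fun h => h.2, fun h => ⟨h.1, h⟩⟩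
  have hS : ∀ v ∈ V, (𝓕.filter (fun F => v ∈ F)).card = 3 := by
    intro v hv
    refine Eq.trans ?_ (hsimple v hv)
    rw [← Set.ncard_coe_finset]
    congr 1
    ext F
    simp [hmem]
  have hC : ∀ k, (𝓕.filter (fun F => F.card = k)).card = q k := by
    intro k
    rw [← hq k, ← Set.ncard_coe_finset]
    congr 1
    ext F
    simp [hmem]
  have hmaps : ∀ F ∈ 𝓕, F.card ∈ K := by
    intro F hF
    by_contra hcon
    have h0 := hC F.card
    rw [hK _ hcon, Finset.card_eq_zero] at h0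
    have : F ∈ 𝓕.filter (fun G => G.card = F.card) := by simp [hF]
    rw [h0] at this
    simp at this
  have h1 := Finset.sum_card_bipartiteAbove_eq_sum_card_bipartiteBelow
    (s := V) (t := 𝓕) (fun (v : E3) (F : Finset E3) => v ∈ F)
  have h2 : ∑ v ∈ V, (𝓕.bipartiteAbove (fun (v : E3) (F : Finset E3) => v ∈ F) v).card
      = V.card * 3 := by
    apply Finset.sum_const_nat
    intro v hv
    exact hS v hv
  have h3 : ∑ F ∈ 𝓕, (V.bipartiteBelow (fun (v : E3) (F : Finset E3) => v ∈ F) F).card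
      = ∑ F ∈ 𝓕, F.card := by
    apply Finset.sum_congr rfl
    intro F hF
    congr 1
    ext v
    simp only [Finset.mem_bipartiteBelow]
    exact ⟨fun h => h.2, fun h => ⟨((hmem F).mp hF).1 h, h⟩⟩
  have h4 : ∑ k ∈ K, ∑ F ∈ 𝓕 with F.card = k, F.card = ∑ F ∈ 𝓕, F.card :=
    Finset.sum_fiberwise_of_maps_to hmaps _
  have h5 : ∑ k ∈ K, ∑ F ∈ 𝓕 with F.card = k, F.card = ∑ k ∈ K, q k * k := by
    apply Finset.sum_congr rfl
    intro k _
    rw [← hC k]
    apply Finset.sum_const_nat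
    intro F hF
    exact (Finset.mem_filter.mp hF).2
  rw [h2, h3, ← h4, h5] at h1
  omega

/-- The negation of the preceding statement: Any finitely supported p_k (3≤k≠6, k≤N) with sum of (6−k)p_k = 12 is realized as the k-gonal facet counts of some simple convex 3-polytope, with p_6 hexagons where p_6 is less than the largest k having p_k nonzero. -/
theorem result :
    ¬ (∀ (N : ℕ) (p : ℕ → ℕ),
    (∑ k ∈ (Finset.Icc 3 N).filter (fun k => k ≠ 6), ((6 : ℤ) - (k : ℤ)) * (p k : ℤ)) = 12 →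
    ∃ p6 : ℕ, (∃ k : ℕ, 3 ≤ k ∧ k ≤ N ∧ k ≠ 6 ∧ p k ≠ 0 ∧ p6 < k) ∧
      ∃ V : Finset (EuclideanSpace ℝ (Fin 3)),
        affineSpan ℝ (V : Set (EuclideanSpace ℝ (Fin 3))) = ⊤ ∧
        (∀ v ∈ V, v ∉ convexHull ℝ ((V : Set (EuclideanSpace ℝ (Fin 3))) \ {v})) ∧
        (∀ v ∈ V,
          {F : Finset (EuclideanSpace ℝ (Fin 3)) |
            F ⊆ V ∧
            (∃ l : EuclideanSpace ℝ (Fin 3) →ₗ[ℝ] ℝ, ∃ c : ℝ,
              ∀ w ∈ V, l w ≤ c ∧ (l w = c ↔ w ∈ F)) ∧
            Module.finrank ℝ (vectorSpan ℝ (F : Set (EuclideanSpace ℝ (Fin 3)))) = 2 ∧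
            v ∈ F}.ncard = 3) ∧
        (∀ k : ℕ,
          {F : Finset (EuclideanSpace ℝ (Fin 3)) |
            F ⊆ V ∧
            (∃ l : EuclideanSpace ℝ (Fin 3) →ₗ[ℝ] ℝ, ∃ c : ℝ,
              ∀ w ∈ V, l w ≤ c ∧ (l w = c ↔ w ∈ F)) ∧
            Module.finrank ℝ (vectorSpan ℝ (F : Set (EuclideanSpace ℝ (Fin 3)))) = 2 ∧
            F.card = k}.ncard =
          (if 3 ≤ k ∧ k ≤ N ∧ k ≠ 6 then p k else if k = 6 then p6 else 0))) := by
  intro H
  obtain ⟨p6, ⟨k0, hk3, hkN, hk6, hpk, hlt⟩, V, hV, hext, hsimple, hcount⟩ :=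
    H 60 (fun k => if k = 3 then 130 else if k = 60 then 7 else 0) (by decide +kernel)
  have hp6 : p6 < 60 := by
    by_contra hcon
    have : k0 = 60 := by
      by_contra h60
      have h3 : k0 ≠ 3 := by omega
      simp [h3, h60] at hpk
    omega
  have hsimple' : ∀ v ∈ V, {F : Finset E3 | IsFacet V F ∧ v ∈ F}.ncard = 3 := by
    intro v hv
    refine Eq.trans ?_ (hsimple v hv)
    congr 1
    ext F
    simp only [IsFacet, Set.mem_ofPred_eq, and_assoc]
  have hcount' : ∀ k, {F : Finset E3 | IsFacet V F ∧ F.card = k}.ncard =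
      (if k = 3 then 130 else if k = 60 then 7 else if k = 6 then p6 else 0) := by
    intro k
    have h1 := hcount k
    have h2 : {F : Finset E3 | IsFacet V F ∧ F.card = k} =
        {F : Finset E3 | F ⊆ V ∧
            (∃ l : E3 →ₗ[ℝ] ℝ, ∃ c : ℝ, ∀ w ∈ V, l w ≤ c ∧ (l w = c ↔ w ∈ F)) ∧
            Module.finrank ℝ (vectorSpan ℝ (F : Set E3)) = 2 ∧ F.card = k} := by
      ext F
      simp only [IsFacet, Set.mem_ofPred_eq, and_assoc]
    rw [h2, h1]
    by_cases e3 : k = 3
    · subst e3; simp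
    by_cases e60 : k = 60
    · subst e60; simp
    by_cases e6 : k = 6
    · subst e6; simp
    simp [e3, e60, e6]
  have hinc := incidences V hsimple' {3, 6, 60} _ hcount' (by
    intro k hk
    simp only [Finset.mem_insert, Finset.mem_singleton, not_or] at hk
    simp [hk.1, hk.2.1, hk.2.2])
  have hsum : ∑ k ∈ ({3, 6, 60} : Finset ℕ),
      (if k = 3 then 130 else if k = 60 then 7 else if k = 6 then p6 else 0) * k
      = 810 + 6 * p6 := by
    rw [Finset.sum_insert (by decide), Finset.sum_insert (by decide), Finset.sum_singleton]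
    norm_num
    ring
  rw [hsum] at hinc
  have htri := triangle_bound V hV hext hsimple' (by omega)
  rw [hcount' 3] at htri
  simp only [if_true] at htri
  omega

end Pool.Agent.S07592
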