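import Pool.Statements.S07593
import Pool.Agent.Helper660.FU.Limit

set_option autoImplicit false
open Pool Pool.MP_df5da3_co

namespace Pool.Agent.S07593

/-- Let f(n) be the least m such that every 3-uniform hypergraph on n vertices with at least m edges has two different pairs of disjoint edges with the same union. Then f(n) divided by (n choose 2) tends to 1. -/
theorem result :
    Filter.Tendsto
      (fun n : ℕ =>
        ((sInf {m : ℕ | ∀ H : Finset (Finset (Fin n)),
            (∀ e ∈ H, e.card = 3) → m ≤ H.card →
            ∃ A ∈ H, ∃ B ∈ H, ∃ C ∈ H, ∃ D ∈ H,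
              Disjoint A B ∧ Disjoint C D ∧ A ∪ B = C ∪ D ∧ A ≠ C ∧ A ≠ D} : ℕ) : ℝ)
          / ((n.choose 2 : ℕ) : ℝ))
      Filter.atTop (nhds 1) := by
  exact Pool.Agent.Helper660.FU.limit_one

end Pool.Agent.S07593
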