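import Mathlib
import Pool.Statements.S07595
-- import your own Pool.Agent.* helpers here

set_option autoImplicit false
open Pool Pool.MP_dfaab1_co

namespace Pool.Agent.S07595

/-- no square of `V` inside the window of the first `n` letters -/
def SFn (V : ℕ → Fin 3) (n : ℕ) : Prop :=
  ∀ i p, 0 < p → i + 2 * p ≤ n → ∃ k < p, V (i + k) ≠ V (i + p + k)

/-- squarefree infinite word -/
def SF (V : ℕ → Fin 3) : Prop := ∀ i p, 0 < p → ∃ k < p, V (i + k) ≠ V (i + p + k)

/-! ### The Thue-Morse word and its ternary difference word -/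

def tmAux : ℕ → ℕ → Bool
  | 0, _ => false
  | k + 1, n => xor (n % 2 == 1) (tmAux k (n / 2))

def tm (n : ℕ) : Bool := tmAux n n

theorem tmAux_zero (k : ℕ) : tmAux k 0 = false := by
  induction k with
  | zero => rfl
  | succ k ih => simp [tmAux, ih]

theorem tmAux_stable : ∀ n k k' : ℕ, n ≤ k → n ≤ k' → tmAux k n = tmAux k' n := by
  intro n
  induction n using Nat.strong_induction_on with
  | _ n ih =>
    intro k k' h h'
    rcases Nat.eq_zero_or_pos n with h0 | h0
    · subst h0; rw [tmAux_zero, tmAux_zero]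
    · obtain ⟨k1, rfl⟩ : ∃ k1, k = k1 + 1 := ⟨k - 1, by omega⟩
      obtain ⟨k1', rfl⟩ : ∃ k1', k' = k1' + 1 := ⟨k' - 1, by omega⟩
      simp only [tmAux]
      rw [ih (n / 2) (by omega) k1 k1' (by omega) (by omega)]

theorem tm_even (n : ℕ) : tm (2 * n) = tm n := by
  rcases Nat.eq_zero_or_pos n with h0 | h0
  · subst h0; rfl
  · unfold tm
    obtain ⟨k, hk⟩ : ∃ k, 2 * n = k + 1 := ⟨2 * n - 1, by omega⟩
    rw [show tmAux (2 * n) (2 * n) = tmAux (k + 1) (2 * n) from by rw [hk]]
    simp only [tmAux]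
    have h1 : 2 * n % 2 = 0 := by omega
    have h2 : 2 * n / 2 = n := by omega
    rw [h1, h2, tmAux_stable n k n (by omega) le_rfl]
    simp

theorem tm_odd (n : ℕ) : tm (2 * n + 1) = !tm n := by
  unfold tm
  simp only [tmAux]
  have h1 : (2 * n + 1) % 2 = 1 := by omega
  have h2 : (2 * n + 1) / 2 = n := by omega
  rw [h1, h2, tmAux_stable n (2 * n) n (by omega) le_rfl]
  simp

/-- equal neighbours start at odd positions -/
theorem tm_pair_odd {j : ℕ} (h : tm j = tm (j + 1)) : j % 2 = 1 := by
  by_contra hj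
  obtain ⟨m, rfl⟩ : ∃ m, j = 2 * m := ⟨j / 2, by omega⟩
  rw [tm_even, tm_odd] at h
  simp at h

theorem tm_overlap_free : ∀ p : ℕ, 0 < p → ∀ i, ¬ (∀ k ≤ p, tm (i + k) = tm (i + p + k)) := by
  intro p
  induction p using Nat.strong_induction_on with
  | _ p ih =>
    intro hp i h
    rcases Nat.even_or_odd' p with ⟨q, hq | hq⟩
    · -- even period
      refine ih q (by omega) (by omega) (i / 2) ?_
      intro k hk
      have h1 := h (2 * k) (by omega)
      rcases Nat.even_or_odd' i with ⟨m, hm | hm⟩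
      · have e1 : i + 2 * k = 2 * (i / 2 + k) := by omega
        have e2 : i + p + 2 * k = 2 * (i / 2 + q + k) := by omega
        rw [e1, e2, tm_even, tm_even] at h1
        exact h1
      · have e1 : i + 2 * k = 2 * (i / 2 + k) + 1 := by omega
        have e2 : i + p + 2 * k = 2 * (i / 2 + q + k) + 1 := by omega
        rw [e1, e2, tm_odd, tm_odd] at h1
        simpa using h1
    · -- odd period
      by_cases hex : ∃ j, i ≤ j ∧ j < i + p ∧ tm j = tm (j + 1)
      · obtain ⟨j, hj1, hj2, hj3⟩ := hex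
        have o1 := tm_pair_odd hj3
        have a1 := h (j - i) (by omega)
        have a2 := h (j + 1 - i) (by omega)
        have e1 : i + (j - i) = j := by omega
        have e2 : i + p + (j - i) = j + p := by omega
        have e3 : i + (j + 1 - i) = j + 1 := by omega
        have e4 : i + p + (j + 1 - i) = j + p + 1 := by omega
        rw [e1, e2] at a1
        rw [e3, e4] at a2
        have o2 := tm_pair_odd (j := j + p) (by rw [← a1, ← a2]; exact hj3)
        omega
      · push Not at hex
        have alt : ∀ k ≤ p, tm (i + k) = xor (tm i) (k % 2 == 1) := by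
          intro k
          induction k with
          | zero => intro _; simp
          | succ k ihk =>
            intro hk
            have h1 := ihk (by omega)
            have h2 := hex (i + k) (by omega) (by omega)
            have h3 : tm (i + (k + 1)) = !tm (i + k) := by
              have e : i + (k + 1) = i + k + 1 := by omega
              rw [e]
              cases hA : tm (i + k) <;> cases hB : tm (i + k + 1) <;> simp_all
            rw [h3, h1]
            rcases Nat.mod_two_eq_zero_or_one k with h4 | h4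
            · have h5 : (k + 1) % 2 = 1 := by omega
              rw [h4, h5]; cases tm i <;> rfl
            · have h5 : (k + 1) % 2 = 0 := by omega
              rw [h4, h5]; cases tm i <;> rfl
        have h1 := alt p le_rfl
        have h2 := h 0 (by omega)
        have h3 : p % 2 = 1 := by omega
        simp only [add_zero] at h2
        rw [← h2, h3] at h1
        clear h2 alt hex h ih
        revert h1
        cases tm i <;> decide

/-- difference of two Thue-Morse letters -/
def df (a b : Bool) : Fin 3 := if a = b then 1 else if b then 2 else 0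

/-- the hub word -/
def T (i : ℕ) : Fin 3 := df (tm (i + 6)) (tm (i + 7))

theorem df_inj {a b c d : Bool} (h : df a b = df c d) : (xor a c) = (xor b d) := by
  revert h; cases a <;> cases b <;> cases c <;> cases d <;> decide

theorem T_sf : SF T := by
  intro i p hp
  by_contra hcon
  push Not at hcon
  have hx : ∀ k ≤ p, xor (tm (i + 6 + k)) (tm (i + 6 + p + k)) = xor (tm (i + 6)) (tm (i + 6 + p)) := by
    intro k
    induction k with
    | zero => intro _; simp
    | succ k ih =>
      intro hk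
      have h1 := ih (by omega)
      have h2 := hcon k (by omega)
      unfold T at h2
      have h3 := df_inj h2
      have e1 : i + k + 6 = i + 6 + k := by omega
      have e2 : i + p + k + 6 = i + 6 + p + k := by omega
      have e3 : i + k + 7 = i + 6 + (k + 1) := by omega
      have e4 : i + p + k + 7 = i + 6 + p + (k + 1) := by omega
      rw [e1, e2, e3, e4] at h3
      rw [← h3, h1]
  cases hc : xor (tm (i + 6)) (tm (i + 6 + p)) with
  | false =>
    refine tm_overlap_free p hp (i + 6) ?_
    intro k hk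
    have := hx k hk
    rw [hc] at this
    revert this
    cases tm (i + 6 + k) <;> cases tm (i + 6 + p + k) <;> simp
  | true =>
    have hT : ∀ k < p, tm (i + 6 + k) = tm (i + 6 + (k + 1)) := by
      intro k hk
      have h1 := hx k (by omega)
      have h2 := hx (k + 1) (by omega)
      have h3 := hcon k hk
      rw [hc] at h1 h2
      unfold T at h3
      have e1 : i + k + 6 = i + 6 + k := by omega
      have e2 : i + p + k + 6 = i + 6 + p + k := by omega
      have e3 : i + k + 7 = i + 6 + (k + 1) := by omega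
      have e4 : i + p + k + 7 = i + 6 + p + (k + 1) := by omega
      rw [e1, e2, e3, e4] at h3
      revert h1 h2 h3
      cases tm (i + 6 + k) <;> cases tm (i + 6 + p + k) <;> cases tm (i + 6 + (k + 1)) <;>
        cases tm (i + 6 + p + (k + 1)) <;> decide
    have hT2 : ∀ k ≤ p, tm (i + 6 + k) = tm (i + 6) := by
      intro k
      induction k with
      | zero => intro _; simp
      | succ k ih => intro hk; rw [← hT k (by omega), ih (by omega)]
    have h1 := hx 0 (by omega)
    have h2 := hT2 p le_rfl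
    rw [hc] at h1
    simp only [add_zero] at h1
    rw [h2] at h1
    simp at h1

theorem T_nof (i : ℕ) : ¬ (T i = 0 ∧ T (i + 1) = 1 ∧ T (i + 2) = 0) := by
  unfold T
  have e1 : i + 1 + 6 = i + 7 := by omega
  have e2 : i + 1 + 7 = i + 8 := by omega
  have e3 : i + 2 + 6 = i + 8 := by omega
  have e4 : i + 2 + 7 = i + 9 := by omega
  rw [e1, e2, e3, e4]
  cases tm (i + 6) <;> cases tm (i + 7) <;> cases tm (i + 8) <;> cases tm (i + 9) <;> decide

theorem T_nog (i : ℕ) : ¬ (T i = 2 ∧ T (i + 1) = 1 ∧ T (i + 2) = 2) := by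
  unfold T
  have e1 : i + 1 + 6 = i + 7 := by omega
  have e2 : i + 1 + 7 = i + 8 := by omega
  have e3 : i + 2 + 6 = i + 8 := by omega
  have e4 : i + 2 + 7 = i + 9 := by omega
  rw [e1, e2, e3, e4]
  cases tm (i + 6) <;> cases tm (i + 7) <;> cases tm (i + 8) <;> cases tm (i + 9) <;> decide

theorem T_vals : (List.range 20).map T = [2,1,0,1,2,0,2,1,0,2,0,1,2,0,2,1,0,1,2,1] := by
  decide +kernel


theorem SFn_of_SF {V : ℕ → Fin 3} (h : SF V) (n : ℕ) : SFn V n := fun i p hp _ => h i p hp

theorem SFn_mono {V : ℕ → Fin 3} {m n : ℕ} (h : SFn V n) (hmn : m ≤ n) : SFn V m :=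
  fun i p hp hi => h i p hp (by omega)

theorem T0 : T 0 = 2 := by decide +kernel
theorem T1 : T 1 = 1 := by decide +kernel
theorem T2 : T 2 = 0 := by decide +kernel
theorem T3 : T 3 = 1 := by decide +kernel
theorem T4 : T 4 = 2 := by decide +kernel
theorem T5 : T 5 = 0 := by decide +kernel
theorem T6 : T 6 = 2 := by decide +kernel
theorem T7 : T 7 = 1 := by decide +kernel
theorem T8 : T 8 = 0 := by decide +kernel

/-- `0` followed by `T 0, T 1, ...` -/
theorem three_cases (x : Fin 3) : x = 0 ∨ x = 1 ∨ x = 2 := by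
  revert x; decide

theorem forceA {V : ℕ → Fin 3} {n : ℕ} (hV : SFn V n) {j : ℕ} (hj : j + 6 ≤ n)
    (h1 : V (j + 1) = 1) (h2 : V (j + 2) = 0) (h3 : V (j + 3) = 2) (h4 : V (j + 4) = 1)
    (h5 : V (j + 5) = 0) : V j = 0 := by
  rcases three_cases (V j) with h | h | h
  · exact h
  · obtain ⟨k, hk, hne⟩ := hV j 1 (by omega) (by omega)
    interval_cases k
    simp only [add_zero] at hne
    exact absurd (h.trans h1.symm) hne
  · obtain ⟨k, hk, hne⟩ := hV j 3 (by omega) (by omega)
    interval_cases k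
    · simp only [add_zero] at hne
      exact absurd (h.trans h3.symm) hne
    · exact absurd (h1.trans h4.symm) hne
    · exact absurd (h2.trans h5.symm) hne

theorem forceB {V : ℕ → Fin 3} {n : ℕ} (hV : SFn V n) {j : ℕ} (hj : j + 12 ≤ n)
    (h2 : V (j + 2) = 0) (hT : ∀ k < 9, V (j + 3 + k) = T k) : V (j + 1) = 1 := by
  have a0 := hT 0 (by omega)
  have a1 := hT 1 (by omega)
  have a2 := hT 2 (by omega)
  have a3 := hT 3 (by omega)
  have a4 := hT 4 (by omega)
  have a5 := hT 5 (by omega)
  have a6 := hT 6 (by omega)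
  have a7 := hT 7 (by omega)
  have a8 := hT 8 (by omega)
  rw [T0] at a0
  rw [T1] at a1
  rw [T2] at a2
  rw [T3] at a3
  rw [T4] at a4
  rw [T5] at a5
  rw [T6] at a6
  rw [T7] at a7
  rw [T8] at a8
  simp only [add_assoc] at a0 a1 a2 a3 a4 a5 a6 a7 a8
  norm_num at a0 a1 a2 a3 a4 a5 a6 a7 a8
  rcases three_cases (V (j + 1)) with h | h | h
  · obtain ⟨k, hk, hne⟩ := hV (j + 1) 1 (by omega) (by omega)
    interval_cases k
    simp only [add_zero] at hne
    exact absurd (h.trans h2.symm) hne
  · exact h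
  · exfalso
    rcases three_cases (V j) with h' | h' | h'
    · obtain ⟨k, hk, hne⟩ := hV j 2 (by omega) (by omega)
      interval_cases k
      · simp only [add_zero] at hne
        exact absurd (h'.trans h2.symm) hne
      · exact absurd (h.trans a0.symm) hne
    · obtain ⟨k, hk, hne⟩ := hV j 6 (by omega) (by omega)
      interval_cases k
      · simp only [add_zero] at hne
        exact absurd (h'.trans a3.symm) hne
      · exact absurd (h.trans a4.symm) hne
      · exact absurd (h2.trans a5.symm) hne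
      · exact absurd (a0.trans a6.symm) hne
      · exact absurd (a1.trans a7.symm) hne
      · exact absurd (a2.trans a8.symm) hne
    · obtain ⟨k, hk, hne⟩ := hV j 1 (by omega) (by omega)
      interval_cases k
      simp only [add_zero] at hne
      exact absurd (h'.trans h.symm) hne

/-- `V` is `... 0 1 0 T` with the marker `0 1 0` at position `r` -/
structure Hub (V : ℕ → Fin 3) (r : ℕ) : Prop where
  m0 : V r = 0
  m1 : V (r + 1) = 1
  m2 : V (r + 2) = 0
  tail : ∀ i, V (r + 3 + i) = T i

theorem Hub.tail' {V : ℕ → Fin 3} {r : ℕ} (h : Hub V r) {i : ℕ} (hi : r + 3 ≤ i) :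
    V i = T (i - (r + 3)) := by
  have := h.tail (i - (r + 3))
  rwa [show r + 3 + (i - (r + 3)) = i from by omega] at this

theorem marker_free {V : ℕ → Fin 3} {r : ℕ} (h : Hub V r) {i : ℕ} (hi : r + 3 ≤ i) :
    ¬ (V i = 0 ∧ V (i + 1) = 1 ∧ V (i + 2) = 0) := by
  rw [h.tail' hi, h.tail' (show r + 3 ≤ i + 1 by omega), h.tail' (show r + 3 ≤ i + 2 by omega)]
  have := T_nof (i - (r + 3))
  rwa [show i + 1 - (r + 3) = i - (r + 3) + 1 from by omega,
    show i + 2 - (r + 3) = i - (r + 3) + 2 from by omega]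

theorem T_vals' : ∀ k < 20, T k = ([2,1,0,1,2,0,2,1,0,2,0,1,2,0,2,1,0,1,2,1] : List (Fin 3)).getD k 0 := by
  decide +kernel

/-- no square starts at or after the marker -/
theorem hub_tail_sf {V : ℕ → Fin 3} {r : ℕ} (h : Hub V r) {i p : ℕ} (hi : r ≤ i) (hp : 0 < p) :
    ∃ k < p, V (i + k) ≠ V (i + p + k) := by
  by_contra hcon
  push Not at hcon
  have hT : SFn T (2 * p + 100) := SFn_of_SF T_sf _
  rcases Nat.lt_or_ge i (r + 3) with h3 | h3
  · obtain rfl | rfl | rfl : i = r ∨ i = r + 1 ∨ i = r + 2 := by omega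
    · -- start at the marker
      rcases Nat.lt_or_ge p 3 with hp3 | hp3
      · interval_cases p
        · have := hcon 0 (by omega)
          rw [add_zero, add_zero, h.m0, h.m1] at this
          exact absurd this (by decide)
        · have := hcon 1 (by omega)
          rw [h.m1, show i + 2 + 1 = i + 3 + 0 from rfl, h.tail, T0] at this
          exact absurd this (by decide)
      · refine marker_free h (i := i + p) (by omega) ⟨?_, ?_, ?_⟩
        · have := hcon 0 (by omega)
          rw [add_zero, add_zero, h.m0] at this; exact this.symm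
        · have := hcon 1 (by omega)
          rw [h.m1] at this; exact this.symm
        · have := hcon 2 (by omega)
          rw [h.m2] at this; exact this.symm
    · -- start at the second marker letter
      have b0 : ∀ k, k + 2 < p → T (p - 2 + 2 + k) = T k := by
        intro k hk
        have := hcon (k + 2) hk
        rw [show r + 1 + (k + 2) = r + 3 + k from by omega, h.tail,
          show r + 1 + p + (k + 2) = r + 3 + (p - 2 + 2 + k) from by omega, h.tail] at this
        exact this.symm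
      rcases Nat.lt_or_ge p 11 with hp3 | hp3
      · have key : ∀ k < p, V (r + 1 + k) = V (r + 1 + p + k) := hcon
        have v0 : V (r + 1 + 0) = 1 := h.m1
        have v1 : V (r + 1 + 1) = 0 := h.m2
        have v : ∀ k < 20, V (r + 1 + (k + 2)) = ([2,1,0,1,2,0,2,1,0,2,0,1,2,0,2,1,0,1,2,1] : List (Fin 3)).getD k 0 := by
          intro k hk
          rw [show r + 1 + (k + 2) = r + 3 + k from by omega, h.tail, T_vals' k hk]
        have w : ∀ k < 22, V (r + 1 + k) = ([1,0,2,1,0,1,2,0,2,1,0,2,0,1,2,0,2,1,0,1,2,1] : List (Fin 3)).getD k 0 := by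
          intro k hk
          rcases Nat.lt_or_ge k 2 with h2 | h2
          · interval_cases k
            · exact v0
            · exact v1
          · obtain ⟨k', rfl⟩ : ∃ k', k = k' + 2 := ⟨k - 2, by omega⟩
            rw [v k' (by omega)]; rfl
        have key2 : ∀ k < p, ([1,0,2,1,0,1,2,0,2,1,0,2,0,1,2,0,2,1,0,1,2,1] : List (Fin 3)).getD k 0 =
            ([1,0,2,1,0,1,2,0,2,1,0,2,0,1,2,0,2,1,0,1,2,1] : List (Fin 3)).getD (p + k) 0 := by
          intro k hk
          rw [← w k (by omega), ← w (p + k) (by omega), key k hk, add_assoc]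
        have : ∀ p < 11, 0 < p → ¬ ∀ k < p, ([1,0,2,1,0,1,2,0,2,1,0,2,0,1,2,0,2,1,0,1,2,1] : List (Fin 3)).getD k 0 =
            ([1,0,2,1,0,1,2,0,2,1,0,2,0,1,2,0,2,1,0,1,2,1] : List (Fin 3)).getD (p + k) 0 := by
          decide
        exact this p hp3 hp key2
      · have c0 : T (p - 3 + 1) = 1 := by
          have := hcon 0 (by omega)
          rw [add_zero, add_zero, h.m1, show r + 1 + p = r + 3 + (p - 3 + 1) from by omega,
            h.tail] at this
          exact this.symm
        have c1 : T (p - 3 + 2) = 0 := by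
          have := hcon 1 (by omega)
          rw [show r + 1 + 1 = r + 2 from rfl, h.m2,
            show r + 1 + p + 1 = r + 3 + (p - 3 + 2) from by omega, h.tail] at this
          exact this.symm
        have c2 : ∀ k < 9, T (p - 3 + 3 + k) = T k := by
          intro k hk
          have := b0 k (by omega)
          rwa [show p - 2 + 2 + k = p - 3 + 3 + k from by omega] at this
        have d0 := forceA hT (j := p - 3) (by omega) c0 c1 (by rw [show p - 3 + 3 = p - 3 + 3 + 0 from rfl, c2 0 (by omega), T0])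
          (by rw [show p - 3 + 4 = p - 3 + 3 + 1 from rfl, c2 1 (by omega), T1])
          (by rw [show p - 3 + 5 = p - 3 + 3 + 2 from rfl, c2 2 (by omega), T2])
        exact T_nof _ ⟨d0, c0, c1⟩
    · -- start at the third marker letter
      have b0 : ∀ k, k + 1 < p → T (p - 3 + 3 + k) = T k := by
        intro k hk
        have := hcon (k + 1) hk
        rcases Nat.lt_or_ge p 3 with hp3 | hp3
        · interval_cases p
          · omega
          · obtain rfl : k = 0 := by omega
            exfalso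
            have e0 := hcon 0 (by omega)
            rw [add_zero, add_zero, h.m2, show r + 2 + 2 = r + 3 + 1 from rfl, h.tail, T1] at e0
            exact absurd e0 (by decide)
        · rw [show r + 2 + (k + 1) = r + 3 + k from by omega, h.tail,
            show r + 2 + p + (k + 1) = r + 3 + (p - 3 + 3 + k) from by omega, h.tail] at this
          exact this.symm
      rcases Nat.lt_or_ge p 11 with hp3 | hp3
      · have v0 : V (r + 2 + 0) = 0 := h.m2
        have w : ∀ k < 21, V (r + 2 + k) = ([0,2,1,0,1,2,0,2,1,0,2,0,1,2,0,2,1,0,1,2,1] : List (Fin 3)).getD k 0 := by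
          intro k hk
          rcases Nat.lt_or_ge k 1 with h2 | h2
          · interval_cases k
            exact v0
          · obtain ⟨k', rfl⟩ : ∃ k', k = k' + 1 := ⟨k - 1, by omega⟩
            rw [show r + 2 + (k' + 1) = r + 3 + k' from by omega, h.tail, T_vals' k' (by omega)]; rfl
        have key2 : ∀ k < p, ([0,2,1,0,1,2,0,2,1,0,2,0,1,2,0,2,1,0,1,2,1] : List (Fin 3)).getD k 0 =
            ([0,2,1,0,1,2,0,2,1,0,2,0,1,2,0,2,1,0,1,2,1] : List (Fin 3)).getD (p + k) 0 := by
          intro k hk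
          rw [← w k (by omega), ← w (p + k) (by omega), hcon k hk, add_assoc]
        have : ∀ p < 11, 0 < p → ¬ ∀ k < p, ([0,2,1,0,1,2,0,2,1,0,2,0,1,2,0,2,1,0,1,2,1] : List (Fin 3)).getD k 0 =
            ([0,2,1,0,1,2,0,2,1,0,2,0,1,2,0,2,1,0,1,2,1] : List (Fin 3)).getD (p + k) 0 := by
          decide
        exact this p hp3 hp key2
      · have c1 : T (p - 3 + 2) = 0 := by
          have := hcon 0 (by omega)
          rw [add_zero, add_zero, h.m2, show r + 2 + p = r + 3 + (p - 3 + 2) from by omega,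
            h.tail] at this
          exact this.symm
        have c2 : ∀ k < 9, T (p - 3 + 3 + k) = T k := fun k hk => b0 k (by omega)
        have c0 : T (p - 3 + 1) = 1 := forceB hT (j := p - 3) (by omega) c1 c2
        have d0 := forceA hT (j := p - 3) (by omega) c0 c1 (by rw [show p - 3 + 3 = p - 3 + 3 + 0 from rfl, c2 0 (by omega), T0])
          (by rw [show p - 3 + 4 = p - 3 + 3 + 1 from rfl, c2 1 (by omega), T1])
          (by rw [show p - 3 + 5 = p - 3 + 3 + 2 from rfl, c2 2 (by omega), T2])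
        exact T_nof _ ⟨d0, c0, c1⟩
  · obtain ⟨k, hk, hne⟩ := T_sf (i - (r + 3)) p hp
    apply hne
    have := hcon k hk
    rw [h.tail' (show r + 3 ≤ i + k by omega), h.tail' (show r + 3 ≤ i + p + k by omega)] at this
    rwa [show i + k - (r + 3) = i - (r + 3) + k from by omega,
      show i + p + k - (r + 3) = i - (r + 3) + p + k from by omega] at this

/-- the switching lemma -/
theorem lemS {V : ℕ → Fin 3} {r J : ℕ} (hub : Hub V r) (hJ : 9 ≤ J) (hfin : SFn V (r + 3 + J))
    (h3 : ∀ s < r, V s = 0 → V (s + 1) = 1 → V (s + 2) = 0 →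
      ∃ k, V (s + 3 + k) ≠ T k ∧ (k ≤ J ∨ k + 3 + 2 * s < r))
    (h4 : ∀ e, e = 1 ∨ e = 2 → ∃ k, e + k < r + 1 ∧ V (e + k) ≠ T k) : SF V := by
  intro i p hp
  rcases Nat.lt_or_ge i r with hir | hir
  swap
  · exact hub_tail_sf hub hir hp
  rcases Nat.lt_or_ge (r + 3 + J) (i + 2 * p) with hlong | hshort
  swap
  · exact hfin i p hp hshort
  by_contra hcon
  push Not at hcon
  have eqv : ∀ j, i ≤ j → j < i + p → V j = V (j + p) := by
    intro j h1 h2
    have := hcon (j - i) (by omega)
    rwa [show i + (j - i) = j from by omega, show i + p + (j - i) = j + p from by omega] at this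
  have hpos : r + 3 ≤ i + p ∨ i + p ≤ r ∨ i + p = r + 1 ∨ i + p = r + 2 := by omega
  rcases hpos with ha | hb | hc | hc
  · refine marker_free hub (i := r + p) (by omega) ⟨?_, ?_, ?_⟩
    · rw [← eqv r (by omega) (by omega), hub.m0]
    · rw [show r + p + 1 = r + 1 + p from by omega, ← eqv (r + 1) (by omega) (by omega), hub.m1]
    · rw [show r + p + 2 = r + 2 + p from by omega, ← eqv (r + 2) (by omega) (by omega), hub.m2]
  · obtain ⟨k, hk1, hk2⟩ := h3 (r - p) (by omega)
      (by rw [eqv (r - p) (by omega) (by omega), show r - p + p = r from by omega, hub.m0])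
      (by rw [eqv (r - p + 1) (by omega) (by omega), show r - p + 1 + p = r + 1 from by omega, hub.m1])
      (by rw [eqv (r - p + 2) (by omega) (by omega), show r - p + 2 + p = r + 2 from by omega, hub.m2])
    apply hk1
    rw [eqv (r - p + 3 + k) (by omega) (by omega), show r - p + 3 + k + p = r + 3 + k from by omega,
      hub.tail]
  · -- second half starts at the second marker letter
    have v0 : V i = 1 := by
      rw [eqv i (by omega) (by omega), hc, hub.m1]
    have v1 : V (i + 1) = 0 := by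
      rw [eqv (i + 1) (by omega) (by omega), show i + 1 + p = r + 2 from by omega, hub.m2]
    have vT : ∀ k, i + 2 + k < i + p → V (i + 2 + k) = T k := by
      intro k hk
      rw [eqv (i + 2 + k) (by omega) (by omega), show i + 2 + k + p = r + 3 + k from by omega,
        hub.tail]
    rcases Nat.eq_zero_or_pos i with h0 | h0
    · subst h0
      obtain ⟨k, hk1, hk2⟩ := h4 2 (Or.inr rfl)
      apply hk2
      have := vT k (by omega)
      rwa [show 0 + 2 + k = 2 + k from by omega] at this
    · obtain ⟨s, rfl⟩ : ∃ s, i = s + 1 := ⟨i - 1, by omega⟩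
      have d0 : V s = 0 := forceA hfin (j := s) (by omega) v0 v1
        (by rw [show s + 3 = s + 1 + 2 + 0 from rfl, vT 0 (by omega), T0])
        (by rw [show s + 4 = s + 1 + 2 + 1 from rfl, vT 1 (by omega), T1])
        (by rw [show s + 5 = s + 1 + 2 + 2 from rfl, vT 2 (by omega), T2])
      obtain ⟨k, hk1, hk2⟩ := h3 s (by omega) d0 v0 v1
      apply hk1
      rw [show s + 3 + k = s + 1 + 2 + k from by omega]
      exact vT k (by omega)
  · -- second half starts at the third marker letter
    have v0 : V i = 0 := by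
      rw [eqv i (by omega) (by omega), hc, hub.m2]
    have vT : ∀ k, i + 1 + k < i + p → V (i + 1 + k) = T k := by
      intro k hk
      rw [eqv (i + 1 + k) (by omega) (by omega), show i + 1 + k + p = r + 3 + k from by omega,
        hub.tail]
    have hcase : i = 0 ∨ i = 1 ∨ 2 ≤ i := by omega
    rcases hcase with h0 | h0 | h0
    · subst h0
      obtain ⟨k, hk1, hk2⟩ := h4 1 (Or.inl rfl)
      apply hk2
      have := vT k (by omega)
      rwa [show 0 + 1 + k = 1 + k from by omega] at this
    · subst h0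
      obtain ⟨k, hk1, hk2⟩ := h4 2 (Or.inr rfl)
      apply hk2
      have := vT k (by omega)
      rwa [show 1 + 1 + k = 2 + k from by omega] at this
    · obtain ⟨s, rfl⟩ : ∃ s, i = s + 2 := ⟨i - 2, by omega⟩
      have vT9 : ∀ k < 9, V (s + 3 + k) = T k := by
        intro k hk
        rw [show s + 3 + k = s + 2 + 1 + k from by omega]
        exact vT k (by omega)
      have d1 : V (s + 1) = 1 := forceB hfin (j := s) (by omega) v0 vT9
      have d0 : V s = 0 := forceA hfin (j := s) (by omega) d1 v0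
        (by rw [show s + 3 = s + 3 + 0 from rfl, vT9 0 (by omega), T0])
        (by rw [show s + 4 = s + 3 + 1 from rfl, vT9 1 (by omega), T1])
        (by rw [show s + 5 = s + 3 + 2 from rfl, vT9 2 (by omega), T2])
      obtain ⟨k, hk1, hk2⟩ := h3 s (by omega) d0 d1 v0
      apply hk1
      rw [show s + 3 + k = s + 2 + 1 + k from by omega]
      exact vT k (by omega)


/-- `W` reads `0 1 0 (T 0) ... (T (m-1))` at position `s` -/
def mk (W : ℕ → Fin 3) (s m : ℕ) : Prop :=
  W s = 0 ∧ W (s + 1) = 1 ∧ W (s + 2) = 0 ∧ ∀ k < m, W (s + 3 + k) = T k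

/-- there is a squarefree word which agrees with `W` on the first `N` letters and ends in the hub -/
def Goal (W : ℕ → Fin 3) (N : ℕ) : Prop :=
  ∃ V r, SF V ∧ Hub V r ∧ ∀ i < N, V i = W i

theorem bound_exists (κ : ℕ → ℕ) (N : ℕ) : ∃ B, ∀ s < N, κ s < B := by
  induction N with
  | zero => exact ⟨0, fun s hs => absurd hs (by omega)⟩
  | succ N ih =>
    obtain ⟨B, hB⟩ := ih
    refine ⟨max B (κ N + 1), fun s hs => ?_⟩
    rcases Nat.lt_or_ge s N with h | h
    · exact lt_of_lt_of_le (hB s h) (le_max_left _ _)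
    · obtain rfl : s = N := by omega
      exact lt_of_lt_of_le (by omega) (le_max_right _ _)

theorem lemE0 {W : ℕ → Fin 3} (hW : SF W) (hNT : ∀ s, ∃ k, W (s + k) ≠ T k) (N N1 : ℕ) :
    ∃ B0, ∀ r ≥ B0, ∀ m ≥ 9, mk W r m → (∀ s, N1 ≤ s → s < r → ¬ mk W s (m + 1)) →
      N ≤ r + 3 + m → Goal W N := by
  choose κ hκ using hNT
  obtain ⟨B, hB⟩ := bound_exists (fun s => κ (s + 3) + 3 + 2 * s) N1
  refine ⟨B + κ 1 + κ 2 + 3, ?_⟩
  intro r hr m hm hmk hno hN
  obtain ⟨w0, w1, w2, wT⟩ := hmk
  set V : ℕ → Fin 3 := fun i => if i < r + 3 then W i else T (i - (r + 3)) with hV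
  have V1 : ∀ i, i < r + 3 + m → V i = W i := by
    intro i hi
    simp only [hV]
    split_ifs with h
    · rfl
    · have := wT (i - (r + 3)) (by omega)
      rw [show r + 3 + (i - (r + 3)) = i from by omega] at this
      exact this.symm
  have hub : Hub V r := by
    refine ⟨?_, ?_, ?_, ?_⟩
    · rw [V1 _ (by omega), w0]
    · rw [V1 _ (by omega), w1]
    · rw [V1 _ (by omega), w2]
    · intro i
      simp only [hV]
      rw [if_neg (by omega)]
      congr 1
      omega
  refine ⟨V, r, ?_, hub, fun i hi => V1 i (by omega)⟩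
  refine lemS hub hm ?_ ?_ ?_
  · intro i p hp hi
    obtain ⟨k, hk, hne⟩ := hW i p hp
    refine ⟨k, hk, ?_⟩
    rw [V1 _ (by omega), V1 _ (by omega)]
    exact hne
  · intro s hs f0 f1 f2
    rcases Nat.lt_or_ge s N1 with h | h
    · refine ⟨κ (s + 3), ?_, Or.inr ?_⟩
      · have h2 := hB s h
        rw [V1 _ (by omega)]
        exact hκ (s + 3)
      · have h2 := hB s h
        omega
    · have h2 := hno s h hs
      rw [V1 _ (by omega)] at f0 f1 f2
      unfold mk at h2
      push Not at h2
      obtain ⟨k, hk, hne⟩ := h2 f0 f1 f2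
      exact ⟨k, by rw [V1 _ (by omega)]; exact hne, Or.inl (by omega)⟩
  · intro e he
    refine ⟨κ e, ?_, ?_⟩
    · rcases he with rfl | rfl <;> omega
    · rw [V1 _ (by rcases he with rfl | rfl <;> omega)]
      exact hκ e

theorem lemE {W : ℕ → Fin 3} (hW : SF W) (hrec : ∀ N', ∃ s ≥ N', mk W s 9) (N : ℕ) : Goal W N := by
  have hNT : ∀ s, ∃ k, W (s + k) ≠ T k := by
    intro s
    by_contra hcon
    push Not at hcon
    obtain ⟨i, hi, h0, h1, h2, -⟩ := hrec s
    refine T_nof (i - s) ⟨?_, ?_, ?_⟩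
    · rw [← hcon, show s + (i - s) = i from by omega, h0]
    · rw [← hcon, show s + (i - s + 1) = i + 1 from by omega, h1]
    · rw [← hcon, show s + (i - s + 2) = i + 2 from by omega, h2]
  by_cases hall : ∀ m, ∀ N', ∃ r ≥ N', mk W r m
  · obtain ⟨B0, hB0⟩ := lemE0 hW hNT N 0
    choose κ hκ using hNT
    obtain ⟨C, hC⟩ := bound_exists (fun s => κ (s + 3)) B0
    set m := max (max 9 N) C with hm
    have hex : ∃ r, mk W r m := by
      obtain ⟨r, -, hr⟩ := hall m 0
      exact ⟨r, hr⟩
    classical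
    have hr := Nat.find_spec hex
    have hmin : ∀ s < Nat.find hex, ¬ mk W s m := fun s hs => Nat.find_min hex hs
    refine hB0 (Nat.find hex) ?_ m (by omega) hr ?_ (by omega)
    · by_contra hlt
      push Not at hlt
      have h1 := hC _ hlt
      exact hκ (Nat.find hex + 3) (hr.2.2.2 _ (by omega))
    · intro s _ hs hmk
      exact hmin s hs ⟨hmk.1, hmk.2.1, hmk.2.2.1, fun k hk => hmk.2.2.2 k (by omega)⟩
  · push Not at hall
    classical
    have hm := Nat.find_spec hall
    have hmin : ∀ m < Nat.find hall, ∀ N', ∃ r ≥ N', mk W r m := by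
      intro m h
      have := Nat.find_min hall h
      push Not at this
      exact this
    set m := Nat.find hall with hmdef
    have hm9 : 9 < m := by
      by_contra hle
      push Not at hle
      obtain ⟨N', hN'⟩ := hm
      obtain ⟨s, hs, hmk⟩ := hrec N'
      exact hN' s hs ⟨hmk.1, hmk.2.1, hmk.2.2.1, fun k hk => hmk.2.2.2 k (by omega)⟩
    obtain ⟨N1, hN1⟩ := hm
    obtain ⟨B0, hB0⟩ := lemE0 hW hNT N N1
    obtain ⟨r, hr, hmk⟩ := hmin (m - 1) (by omega) (max B0 N)
    refine hB0 r (by omega) (m - 1) (by omega) hmk ?_ (by omega)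
    intro s hs _
    rw [show m - 1 + 1 = m from by omega]
    exact hN1 s hs

theorem lemD {W : ℕ → Fin 3} (hW : SF W) (hNH : ∀ s, ¬ ∀ m, mk W s m) (N1 : ℕ)
    (hg : ∀ s ≥ N1, ¬ mk W s 9) (x : ℕ → Fin 3) (M L U : ℕ) (hM : 11 ≤ M) (hL : 1 ≤ L)
    (hU : U ≤ M) (c1 : SFn x (M + L)) (c2 : mk x (M + L - 12) 9)
    (c3 : ∀ s < M + L - 12, ¬ mk x s 9)
    (c4 : ∀ p, M - U + 2 ≤ p → p < U + L → ∃ j ≤ M - U, x j ≠ x (j + p))
    (N0 : ℕ) (c5 : ∀ i ≥ N0, ¬ ∀ j ≤ U, W (i + j) = x (M - U + j))
    (htail : (∀ e, e = 1 ∨ e = 2 → ∃ k, W (e + k) ≠ T k) ∨ 12 ≤ L)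
    (hv : ∀ N', ∃ a ≥ N', ∀ j < M, W (a + j) = x j) (N : ℕ) : Goal W N := by
  have hex : ∀ s, ∃ k, (W s = 0 → W (s + 1) = 1 → W (s + 2) = 0 → W (s + 3 + k) ≠ T k) := by
    intro s
    by_contra hcon
    push Not at hcon
    apply hNH s
    intro m
    obtain ⟨h0, h1, h2, -⟩ := hcon 0
    exact ⟨h0, h1, h2, fun k _ => (hcon k).2.2.2⟩
  choose κ hκ using hex
  have hex2 : ∀ e, ∃ k, (∀ k, W (e + k) = T k) ∨ W (e + k) ≠ T k := by
    intro e
    by_cases h : ∀ k, W (e + k) = T k
    · exact ⟨0, Or.inl h⟩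
    · push Not at h
      obtain ⟨k, hk⟩ := h
      exact ⟨k, Or.inr hk⟩
  choose lam hlam using hex2
  obtain ⟨B, hB⟩ := bound_exists (fun s => κ s + 3 + 2 * s) N1
  obtain ⟨a, ha, hav⟩ := hv (N + (2 * U + 2 * N0 + L + 1) + B + 2 * N1 + lam 1 + lam 2 + N0 + U + 20)
  set V : ℕ → Fin 3 := fun i => if i < a then W i else if i < a + (M + L) then x (i - a)
    else T (i - (a + (M + L) - 9)) with hV
  have V2 : ∀ j < M + L, V (a + j) = x j := by
    intro j hj
    simp only [hV]
    rw [if_neg (by omega), if_pos (by omega)]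
    congr 1
    omega
  have V1 : ∀ i < a + M, V i = W i := by
    intro i hi
    rcases Nat.lt_or_ge i a with h | h
    · simp only [hV]
      rw [if_pos h]
    · have := V2 (i - a) (by omega)
      rw [show a + (i - a) = i from by omega] at this
      rw [this, ← hav (i - a) (by omega), show a + (i - a) = i from by omega]
  have V3 : ∀ i, a + (M + L) ≤ i → V i = T (i - (a + (M + L) - 9)) := by
    intro i hi
    simp only [hV]
    rw [if_neg (by omega), if_neg (by omega)]
  obtain ⟨x0, x1, x2, xT⟩ := c2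
  have hub : Hub V (a + (M + L - 12)) := by
    refine ⟨?_, ?_, ?_, ?_⟩
    · rw [V2 _ (by omega), x0]
    · rw [add_assoc, V2 _ (by omega), x1]
    · rw [add_assoc, V2 _ (by omega), x2]
    · intro i
      rcases Nat.lt_or_ge i 9 with h | h
      · rw [show a + (M + L - 12) + 3 + i = a + (M + L - 12 + 3 + i) from by omega,
          V2 _ (by omega), xT i h]
      · rw [V3 _ (by omega)]
        congr 1
        omega
  refine ⟨V, a + (M + L - 12), ?_, hub, fun i hi => V1 i (by omega)⟩
  refine lemS hub (J := 9) le_rfl ?_ ?_ ?_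
  · -- the finite part is squarefree
    intro i p hp hi
    have hi' : i + 2 * p ≤ a + (M + L) := by omega
    by_contra hcon
    push Not at hcon
    have eqv : ∀ j, i ≤ j → j < i + p → V j = V (j + p) := by
      intro j h1 h2
      have := hcon (j - i) (by omega)
      rwa [show i + (j - i) = j from by omega, show i + p + (j - i) = j + p from by omega] at this
    rcases Nat.lt_or_ge i a with h | h
    swap
    · obtain ⟨k, hk, hne⟩ := c1 (i - a) p hp (by omega)
      apply hne
      have := hcon k hk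
      rw [show i + k = a + (i - a + k) from by omega, V2 _ (by omega),
        show i + p + k = a + (i - a + p + k) from by omega, V2 _ (by omega)] at this
      exact this
    rcases Nat.lt_or_ge (a + M) (i + 2 * p) with h2 | h2
    swap
    · obtain ⟨k, hk, hne⟩ := hW i p hp
      apply hne
      have := hcon k hk
      rwa [V1 _ (by omega), V1 _ (by omega)] at this
    rcases Nat.lt_or_ge (a + M - U) (i + p) with h3 | h3
    · obtain ⟨j, hj, hne⟩ := c4 p (by omega) (by omega)
      apply hne
      have := eqv (a + j) (by omega) (by omega)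
      rwa [V2 _ (by omega), show a + j + p = a + (j + p) from by omega, V2 _ (by omega)] at this
    · have key : ∀ j ≤ U, W (a + M - U - p + j) = x (M - U + j) := by
        intro j hj
        rw [← V1 _ (by omega), eqv _ (by omega) (by omega),
          show a + M - U - p + j + p = a + (M - U + j) from by omega, V2 _ (by omega)]
      rcases Nat.lt_or_ge (a + M - U - p) N0 with h4 | h4
      · omega
      · exact c5 _ h4 key
  · intro s hs f0 f1 f2
    rcases Nat.lt_or_ge s N1 with h | h
    · have h2 := hB s h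
      refine ⟨κ s, ?_, Or.inr (by omega)⟩
      rw [V1 _ (by omega)] at f0 f1 f2 ⊢
      exact hκ s f0 f1 f2
    · by_contra hcon
      push Not at hcon
      have hk9 : ∀ k < 9, V (s + 3 + k) = T k := by
        intro k hk
        by_contra hne
        have := hcon k hne
        omega
      rcases Nat.lt_or_ge (a + M) (s + 12) with h5 | h5
      · refine c3 (s - a) (by omega) ⟨?_, ?_, ?_, ?_⟩
        · rw [← V2 _ (by omega), show a + (s - a) = s from by omega, f0]
        · rw [← V2 _ (by omega), show a + (s - a + 1) = s + 1 from by omega, f1]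
        · rw [← V2 _ (by omega), show a + (s - a + 2) = s + 2 from by omega, f2]
        · intro k hk
          rw [← V2 _ (by omega), show a + (s - a + 3 + k) = s + 3 + k from by omega, hk9 k hk]
      · refine hg s h ⟨?_, ?_, ?_, ?_⟩
        · rw [← V1 _ (by omega), f0]
        · rw [← V1 _ (by omega), f1]
        · rw [← V1 _ (by omega), f2]
        · intro k hk
          rw [← V1 _ (by omega), hk9 k hk]
  · intro e he
    have hle : lam e ≤ lam 1 + lam 2 := by rcases he with rfl | rfl <;> omega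
    rcases hlam e with hall | hne
    · rcases htail with ht | ht
      · obtain ⟨k, hk⟩ := ht e he
        exact absurd (hall k) hk
      · refine ⟨a + M - e, by rcases he with rfl | rfl <;> omega, ?_⟩
        intro heq
        have he2 : e + (a + M - e) = a + M := by rcases he with rfl | rfl <;> omega
        rw [he2, V2 _ (by omega)] at heq
        have h1 := hall (a + M - e)
        rw [he2, ← heq] at h1
        refine c5 (a + M - U) (by omega) ?_
        intro j hj
        rcases Nat.lt_or_ge j U with h2 | h2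
        · rw [show a + M - U + j = a + (M - U + j) from by omega, hav _ (by omega)]
        · obtain rfl : j = U := by omega
          rw [show a + M - j + j = a + M from by omega, h1]
          congr 1
          omega
    · refine ⟨lam e, by rcases he with rfl | rfl <;> omega, ?_⟩
      rw [V1 _ (by rcases he with rfl | rfl <;> omega)]
      exact hne


theorem tm_block (k : ℕ) : ∀ m r, r < 2 ^ k → tm (2 ^ k * m + r) = xor (tm m) (tm r) := by
  induction k with
  | zero =>
    intro m r hr
    obtain rfl : r = 0 := by simpa using hr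
    simp [tm, tmAux]
  | succ k ih =>
    intro m r hr
    rw [pow_succ] at hr
    have e0 : 2 ^ (k + 1) * m = 2 * (2 ^ k * m) := by rw [pow_succ]; ring
    rcases Nat.even_or_odd' r with ⟨q, rfl | rfl⟩
    · rw [e0, ← mul_add, tm_even, tm_even, ih m q (by omega)]
    · rw [e0, show 2 * (2 ^ k * m) + (2 * q + 1) = 2 * (2 ^ k * m + q) + 1 from by ring, tm_odd,
        tm_odd, ih m q (by omega)]
      cases tm m <;> cases tm q <;> rfl

theorem T_block {m i : ℕ} (hm : tm m = false) (hi : i < 25) : T (32 * m + i) = T i := by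
  unfold T
  rw [show 32 * m + i + 6 = 2 ^ 5 * m + (i + 6) from by omega,
    show 32 * m + i + 7 = 2 ^ 5 * m + (i + 7) from by omega,
    tm_block 5 m (i + 6) (by norm_num; omega), tm_block 5 m (i + 7) (by norm_num; omega), hm]
  simp

theorem tm_false_unbounded (N : ℕ) : ∃ m ≥ N, tm m = false := by
  cases h : tm N with
  | false => exact ⟨2 * N, by omega, by rw [tm_even, h]⟩
  | true => exact ⟨2 * N + 1, by omega, by rw [tm_odd, h]; rfl⟩

/-- the explicit word used when `W` is a short word followed by the hub -/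
def xs0 : List (Fin 3) := [0,2,1,0,2,0,1,2,0,2,1,2,0,1,0,2,1,0,1,2,0,2,1,0]

theorem special {W : ℕ → Fin 3} (hW : SF W) {e : ℕ} (he : e = 1 ∨ e = 2)
    (hT : ∀ k, W (e + k) = T k) (N : ℕ) : Goal W N := by
  have nomark : ∀ s, ¬ (W s = 0 ∧ W (s + 1) = 1 ∧ W (s + 2) = 0) := by
    rintro s ⟨h0, h1, h2⟩
    rcases Nat.lt_or_ge s e with h | h
    · have t0 := hT 0
      rw [T0] at t0
      rcases he with rfl | rfl
      · obtain rfl : s = 0 := by omega
        rw [show 0 + 1 = 1 + 0 from rfl, t0] at h1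
        exact absurd h1 (by decide)
      · have : s = 0 ∨ s = 1 := by omega
        rcases this with rfl | rfl
        · rw [show 0 + 2 = 2 + 0 from rfl, t0] at h2
          exact absurd h2 (by decide)
        · rw [show 1 + 1 = 2 + 0 from rfl, t0] at h1
          exact absurd h1 (by decide)
    · refine T_nof (s - e) ⟨?_, ?_, ?_⟩
      · rw [← hT, show e + (s - e) = s from by omega, h0]
      · rw [← hT, show e + (s - e + 1) = s + 1 from by omega, h1]
      · rw [← hT, show e + (s - e + 2) = s + 2 from by omega, h2]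
  refine lemD hW (fun s h => ?_) 0 (fun s _ h => nomark s ⟨h.1, h.2.1, h.2.2.1⟩)
    (fun j => xs0.getD j 0) 11 13 2 (by norm_num) (by norm_num) (by norm_num) ?_ ?_ ?_ ?_ 2 ?_
    (Or.inr (by norm_num)) ?_ N
  · have := h 0
    exact nomark s ⟨this.1, this.2.1, this.2.2.1⟩
  · have : ∀ i < 25, ∀ p < 13, 0 < p → i + 2 * p ≤ 24 →
        ∃ k < p, xs0.getD (i + k) 0 ≠ xs0.getD (i + p + k) 0 := by decide +kernel
    intro i p hp hi
    exact this i (by omega) p (by omega) hp hi
  · refine ⟨by decide, by decide, by decide, ?_⟩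
    decide +kernel
  · intro s hs h
    have : ∀ s < 12, ¬ (xs0.getD s 0 = 0 ∧ xs0.getD (s + 1) 0 = 1 ∧ xs0.getD (s + 2) 0 = 0 ∧
        ∀ k < 9, xs0.getD (s + 3 + k) 0 = T k) := by decide +kernel
    exact this s hs h
  · have : ∀ p < 15, 11 ≤ p → ∃ j ≤ 9, xs0.getD j 0 ≠ xs0.getD (j + p) 0 := by decide +kernel
    intro p h1 h2
    exact this p (by omega) (by omega)
  · intro i hi h
    have h0 := h 0 (by omega)
    have h1 := h 1 (by omega)
    have h2 := h 2 (by omega)
    refine T_nog (i - e) ⟨?_, ?_, ?_⟩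
    · rw [← hT, show e + (i - e) = i from by rcases he with rfl | rfl <;> omega]
      exact h0
    · rw [← hT, show e + (i - e + 1) = i + 1 from by rcases he with rfl | rfl <;> omega]
      exact h1
    · rw [← hT, show e + (i - e + 2) = i + 2 from by rcases he with rfl | rfl <;> omega]
      exact h2
  · intro N'
    obtain ⟨m, hm, hm2⟩ := tm_false_unbounded N'
    refine ⟨e + (32 * m + 5), by omega, fun j hj => ?_⟩
    rw [show e + (32 * m + 5) + j = e + (32 * m + (5 + j)) from by omega, hT,
      T_block hm2 (by omega)]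
    have : ∀ j < 11, T (5 + j) = xs0.getD j 0 := by decide +kernel
    exact this j hj


/-! ### words, recurrence, and the finite certificate -/

def occ (W : ℕ → Fin 3) (w : List (Fin 3)) (i : ℕ) : Prop :=
  ∀ j < w.length, W (i + j) = w.getD j 0

def Rec (W : ℕ → Fin 3) (w : List (Fin 3)) : Prop := ∀ N, ∃ i ≥ N, occ W w i

theorem getD_append_left' (l1 l2 : List (Fin 3)) {j : ℕ} (h : j < l1.length) :
    (l1 ++ l2).getD j 0 = l1.getD j 0 := by
  rw [List.getD_append _ _ _ _ h]

theorem getD_append_right' (l1 l2 : List (Fin 3)) (j : ℕ) :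
    (l1 ++ l2).getD (l1.length + j) 0 = l2.getD j 0 := by
  rw [List.getD_append_right _ _ _ _ (by omega)]
  congr 1
  omega

theorem occ_left {W : ℕ → Fin 3} {l1 l2 : List (Fin 3)} {i : ℕ} (h : occ W (l1 ++ l2) i) :
    occ W l1 i := by
  intro j hj
  rw [h j (by rw [List.length_append]; omega), getD_append_left' _ _ hj]

theorem occ_right {W : ℕ → Fin 3} {l1 l2 : List (Fin 3)} {i : ℕ} (h : occ W (l1 ++ l2) i) :
    occ W l2 (i + l1.length) := by
  intro j hj
  rw [add_assoc, h (l1.length + j) (by rw [List.length_append]; omega), getD_append_right']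

theorem Rec_mid {W : ℕ → Fin 3} {l1 k l2 : List (Fin 3)} (h : Rec W (l1 ++ k ++ l2)) : Rec W k := by
  intro N
  obtain ⟨i, hi, ho⟩ := h N
  exact ⟨i + l1.length, by omega, occ_right (occ_left ho)⟩

theorem Rec_nil (W : ℕ → Fin 3) : Rec W [] := fun N => ⟨N, le_rfl, fun j hj => absurd hj (by simp)⟩

/-- pigeonhole on a letter -/
theorem pigeon {P : Fin 3 → ℕ → Prop} (h : ∀ c, ∃ N, ∀ i ≥ N, ¬ P c i) :
    ∃ N, ∀ i ≥ N, ∀ c, ¬ P c i := by
  choose f hf using h
  refine ⟨f 0 + f 1 + f 2, fun i hi c => ?_⟩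
  rcases three_cases c with rfl | rfl | rfl
  · exact hf 0 i (by omega)
  · exact hf 1 i (by omega)
  · exact hf 2 i (by omega)

theorem not_Rec {W : ℕ → Fin 3} {w : List (Fin 3)} : ¬ Rec W w ↔ ∃ N, ∀ i ≥ N, ¬ occ W w i := by
  unfold Rec
  push Not
  rfl

theorem right_step {W : ℕ → Fin 3} {v : List (Fin 3)} (h : ∀ c, ¬ Rec W (v ++ [c])) : ¬ Rec W v := by
  obtain ⟨N, hN⟩ := pigeon (P := fun c i => occ W (v ++ [c]) i) (fun c => not_Rec.mp (h c))
  rw [not_Rec]
  refine ⟨N, fun i hi ho => hN i hi (W (i + v.length)) ?_⟩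
  intro j hj
  rw [List.length_append, List.length_singleton] at hj
  rcases Nat.lt_or_ge j v.length with h2 | h2
  · rw [getD_append_left' _ _ h2, ho j h2]
  · obtain rfl : j = v.length := by omega
    have := getD_append_right' v [W (i + v.length)] 0
    rw [add_zero] at this
    rw [this]; rfl

theorem left_step {W : ℕ → Fin 3} {v : List (Fin 3)} (h : ∀ c, ¬ Rec W (c :: v)) : ¬ Rec W v := by
  obtain ⟨N, hN⟩ := pigeon (P := fun c i => occ W (c :: v) i) (fun c => not_Rec.mp (h c))
  rw [not_Rec]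
  refine ⟨N + 1, fun i hi ho => hN (i - 1) (by omega) (W (i - 1)) ?_⟩
  intro j hj
  rcases Nat.eq_zero_or_pos j with h2 | h2
  · subst h2; simp
  · obtain ⟨j', rfl⟩ : ∃ j', j = j' + 1 := ⟨j - 1, by omega⟩
    rw [List.length_cons] at hj
    rw [show i - 1 + (j' + 1) = i + j' from by omega, ho j' (by omega), List.getD_cons_succ]

/-! Boolean tests -/

def prefEq : ℕ → List (Fin 3) → List (Fin 3) → Bool
  | 0, _, _ => true
  | _ + 1, [], _ => false
  | _ + 1, _ :: _, [] => false
  | p + 1, a :: l, b :: m => a == b && prefEq p l m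

theorem prefEq_iff : ∀ (p : ℕ) (l m : List (Fin 3)), prefEq p l m = true ↔
    p ≤ l.length ∧ p ≤ m.length ∧ ∀ k < p, l.getD k 0 = m.getD k 0 := by
  intro p
  induction p with
  | zero => intro l m; simp [prefEq]
  | succ p ih =>
    intro l m
    cases l with
    | nil => simp [prefEq]
    | cons a l =>
      cases m with
      | nil => simp [prefEq]
      | cons b m =>
        rw [prefEq, Bool.and_eq_true, ih, beq_iff_eq]
        constructor
        · rintro ⟨rfl, h1, h2, h3⟩
          refine ⟨by simpa using h1, by simpa using h2, fun k hk => ?_⟩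
          cases k with
          | zero => rfl
          | succ k => rw [List.getD_cons_succ, List.getD_cons_succ]; exact h3 k (by omega)
        · rintro ⟨h1, h2, h3⟩
          refine ⟨?_, by simpa using h1, by simpa using h2, fun k hk => ?_⟩
          · have := h3 0 (by omega)
            simpa using this
          · have := h3 (k + 1) (by omega)
            rwa [List.getD_cons_succ, List.getD_cons_succ] at this

def startSqAux (l : List (Fin 3)) : ℕ → List (Fin 3) → Bool
  | _, [] => false
  | p, b :: m => prefEq p l (b :: m) || startSqAux l (p + 1) m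

theorem startSqAux_iff (l : List (Fin 3)) : ∀ (r : List (Fin 3)) (p : ℕ),
    startSqAux l p r = true ↔ ∃ j < r.length, prefEq (p + j) l (r.drop j) = true := by
  intro r
  induction r with
  | nil => intro p; simp [startSqAux]
  | cons b m ih =>
    intro p
    rw [startSqAux, Bool.or_eq_true, ih]
    constructor
    · rintro (h | ⟨j, hj, h⟩)
      · exact ⟨0, by simp, by simpa using h⟩
      · refine ⟨j + 1, by simpa using hj, ?_⟩
        rw [List.drop_succ_cons, show p + (j + 1) = p + 1 + j from by omega]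
        exact h
    · rintro ⟨j, hj, h⟩
      cases j with
      | zero => left; simpa using h
      | succ j =>
        right
        refine ⟨j, by simpa using hj, ?_⟩
        rwa [List.drop_succ_cons, show p + (j + 1) = p + 1 + j from by omega] at h

def startSq : List (Fin 3) → Bool
  | [] => false
  | a :: m => startSqAux (a :: m) 1 m

theorem startSq_iff (l : List (Fin 3)) : startSq l = true ↔
    ∃ p, 0 < p ∧ 2 * p ≤ l.length ∧ ∀ k < p, l.getD k 0 = l.getD (p + k) 0 := by
  cases l with
  | nil =>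
    simp only [startSq, Bool.false_eq_true, false_iff, not_exists]
    rintro p ⟨h1, h2, -⟩
    simp at h2
    omega
  | cons a m =>
    rw [startSq, startSqAux_iff]
    constructor
    · rintro ⟨j, hj, h⟩
      rw [prefEq_iff] at h
      obtain ⟨h1, h2, h3⟩ := h
      rw [List.length_drop] at h2
      refine ⟨1 + j, by omega, by rw [List.length_cons]; omega, fun k hk => ?_⟩
      rw [h3 k hk]
      have : (m.drop j).getD k 0 = m.getD (j + k) 0 := by
        simp [List.getD_eq_getElem?_getD, List.getElem?_drop]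
      rw [this, show 1 + j + k = (j + k) + 1 from by omega, List.getD_cons_succ]
    · rintro ⟨p, hp, h2, h3⟩
      rw [List.length_cons] at h2
      refine ⟨p - 1, by omega, ?_⟩
      rw [prefEq_iff]
      refine ⟨by rw [List.length_cons]; omega, by rw [List.length_drop]; omega, fun k hk => ?_⟩
      rw [h3 k (by omega)]
      have : (m.drop (p - 1)).getD k 0 = m.getD (p - 1 + k) 0 := by
        simp [List.getD_eq_getElem?_getD, List.getElem?_drop]
      rw [this, show p + k = (p - 1 + k) + 1 from by omega, List.getD_cons_succ]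

def hasSq : List (Fin 3) → Bool
  | [] => false
  | a :: l => startSq (a :: l) || hasSq l

theorem hasSq_iff (l : List (Fin 3)) : hasSq l = true ↔
    ∃ i p, 0 < p ∧ i + 2 * p ≤ l.length ∧ ∀ k < p, l.getD (i + k) 0 = l.getD (i + p + k) 0 := by
  induction l with
  | nil =>
    simp only [hasSq, Bool.false_eq_true, false_iff, not_exists]
    rintro i p ⟨h1, h2, -⟩
    simp at h2
    omega
  | cons a l ih =>
    rw [hasSq, Bool.or_eq_true, ih, startSq_iff]
    constructor
    · rintro (⟨p, hp, h2, h3⟩ | ⟨i, p, hp, h2, h3⟩)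
      · exact ⟨0, p, hp, by omega, fun k hk => by simpa using h3 k hk⟩
      · refine ⟨i + 1, p, hp, by rw [List.length_cons]; omega, fun k hk => ?_⟩
        rw [show i + 1 + k = i + k + 1 from by omega,
          show i + 1 + p + k = i + p + k + 1 from by omega, List.getD_cons_succ,
          List.getD_cons_succ]
        exact h3 k hk
    · rintro ⟨i, p, hp, h2, h3⟩
      cases i with
      | zero => left; exact ⟨p, hp, by omega, fun k hk => by simpa using h3 k hk⟩
      | succ i =>
        right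
        rw [List.length_cons] at h2
        refine ⟨i, p, hp, by omega, fun k hk => ?_⟩
        have := h3 k hk
        rwa [show i + 1 + k = i + k + 1 from by omega,
          show i + 1 + p + k = i + p + k + 1 from by omega, List.getD_cons_succ,
          List.getD_cons_succ] at this

theorem not_Rec_of_hasSq {W : ℕ → Fin 3} (hW : SF W) {v : List (Fin 3)} (h : hasSq v = true) :
    ¬ Rec W v := by
  rw [hasSq_iff] at h
  obtain ⟨i, p, hp, h2, h3⟩ := h
  intro hrec
  obtain ⟨a, -, ho⟩ := hrec 0
  obtain ⟨k, hk, hne⟩ := hW (a + i) p hp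
  apply hne
  rw [show a + i + k = a + (i + k) from by omega, show a + i + p + k = a + (i + p + k) from by omega,
    ho _ (by omega), ho _ (by omega)]
  exact h3 k hk

def g0 : List (Fin 3) := [0,1,0,2,1,0,1,2,0,2,1,0]

/-- the word `g0` does not occur except possibly as a suffix -/
def gfree : List (Fin 3) → Bool
  | [] => true
  | a :: l => (decide (l.length < 12) || !(prefEq 12 g0 (a :: l))) && gfree l

theorem mk_iff (x : ℕ → Fin 3) (s : ℕ) : mk x s 9 ↔ ∀ j < 12, x (s + j) = g0.getD j 0 := by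
  constructor
  · rintro ⟨h0, h1, h2, h3⟩ j hj
    rcases Nat.lt_or_ge j 3 with h | h
    · interval_cases j
      · exact h0
      · exact h1
      · exact h2
    · have := h3 (j - 3) (by omega)
      rw [show s + 3 + (j - 3) = s + j from by omega] at this
      rw [this]
      have hh : ∀ j < 12, 3 ≤ j → T (j - 3) = g0.getD j 0 := by decide +kernel
      exact hh j hj h
  · intro h
    refine ⟨h 0 (by omega), h 1 (by omega), h 2 (by omega), fun k hk => ?_⟩
    rw [show s + 3 + k = s + (k + 3) from by omega, h (k + 3) (by omega)]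
    have hh : ∀ k < 9, g0.getD (k + 3) 0 = T k := by decide +kernel
    exact hh k hk

theorem gfree_spec : ∀ (l : List (Fin 3)), gfree l = true →
    ∀ s, s + 12 < l.length → ¬ mk (fun j => l.getD j 0) s 9 := by
  intro l
  induction l with
  | nil => intro _ s hs; simp at hs
  | cons a l ih =>
    intro h s hs hmk
    rw [gfree, Bool.and_eq_true, Bool.or_eq_true] at h
    rw [List.length_cons] at hs
    cases s with
    | zero =>
      rcases h.1 with h1 | h1
      · simp at h1; omega
      · rw [Bool.not_eq_true', ← Bool.not_eq_true, prefEq_iff] at h1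
        apply h1
        refine ⟨le_rfl, by rw [List.length_cons]; omega, fun k hk => ?_⟩
        have := (mk_iff _ _).mp hmk k hk
        simp only [zero_add] at this
        exact this.symm
    | succ s =>
      refine ih h.2 s (by omega) ?_
      rw [mk_iff] at hmk ⊢
      intro j hj
      have := hmk j hj
      rwa [show s + 1 + j = s + j + 1 from by omega, List.getD_cons_succ] at this

/-- `k` starts the list `l` -/
def starts : List (Fin 3) → List (Fin 3) → Bool
  | [], _ => true
  | _ :: _, [] => false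
  | a :: k, b :: l => a == b && starts k l

theorem starts_spec : ∀ (k l : List (Fin 3)), starts k l = true → ∃ t, l = k ++ t := by
  intro k
  induction k with
  | nil => intro l _; exact ⟨l, rfl⟩
  | cons a k ih =>
    intro l h
    cases l with
    | nil => simp [starts] at h
    | cons b l =>
      rw [starts, Bool.and_eq_true, beq_iff_eq] at h
      obtain ⟨rfl, h2⟩ := h
      obtain ⟨t, rfl⟩ := ih l h2
      exact ⟨t, rfl⟩

def inside (k : List (Fin 3)) : List (Fin 3) → Bool
  | [] => starts k []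
  | a :: l => starts k (a :: l) || inside k l

theorem inside_spec (k : List (Fin 3)) : ∀ (l : List (Fin 3)), inside k l = true →
    ∃ s t, l = s ++ k ++ t := by
  intro l
  induction l with
  | nil =>
    intro h
    obtain ⟨t, ht⟩ := starts_spec _ _ h
    exact ⟨[], t, by simpa using ht⟩
  | cons a l ih =>
    intro h
    rw [inside, Bool.or_eq_true] at h
    rcases h with h | h
    · obtain ⟨t, ht⟩ := starts_spec _ _ h
      exact ⟨[], t, by simpa using ht⟩
    · obtain ⟨s, t, rfl⟩ := ih h
      exact ⟨a :: s, t, by simp⟩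

/-- `k` ends the list `l` -/
def ends (k : List (Fin 3)) : List (Fin 3) → Bool
  | [] => decide (k = [])
  | a :: l => decide (k = a :: l) || ends k l

theorem ends_spec (k : List (Fin 3)) : ∀ (l : List (Fin 3)), ends k l = true → ∃ s, l = s ++ k := by
  intro l
  induction l with
  | nil =>
    intro h
    rw [ends, decide_eq_true_eq] at h
    exact ⟨[], by rw [h]; rfl⟩
  | cons a l ih =>
    intro h
    rw [ends, Bool.or_eq_true, decide_eq_true_eq] at h
    rcases h with h | h
    · exact ⟨[], by rw [h]; rfl⟩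
    · obtain ⟨s, rfl⟩ := ih h
      exact ⟨a :: s, rfl⟩

inductive Cert
  | S
  | K
  | D (t : List (Fin 3))
  | R (a b c : Cert)
  | L (a b c : Cert)

open Cert

def condB (x : List (Fin 3)) (M L U : ℕ) : Bool :=
  decide (11 ≤ M) && decide (1 ≤ L) && decide (U ≤ M) && !(hasSq x) &&
    prefEq 12 g0 (x.drop (M + L - 12)) && gfree x &&
    (List.range (U + L)).all (fun p => decide (p < M - U + 2) || !(prefEq (M - U + 1) x (x.drop p)))

def check (ks : List (List (Fin 3))) : List (Fin 3) → Cert → Bool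
  | v, .S => hasSq v
  | v, .K => ks.any (fun k => inside k v)
  | v, .D t => ks.any (fun k => ends k (v ++ t.take 1) && condB (v ++ t) v.length t.length (k.length - 1))
  | v, .R a b c => check ks (v ++ [0]) a && check ks (v ++ [1]) b && check ks (v ++ [2]) c
  | v, .L a b c => check ks (0 :: v) a && check ks (1 :: v) b && check ks (2 :: v) c

def checkAll : List (List (Fin 3)) → List (List (Fin 3) × Cert) → Bool
  | ks, [] => ks.any (fun k => decide (k = []))
  | ks, (v, c) :: rest => check ks v c && checkAll (v :: ks) rest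

theorem condB_spec {x : List (Fin 3)} {M L U : ℕ} (hx : x.length = M + L) (h : condB x M L U = true) :
    11 ≤ M ∧ 1 ≤ L ∧ U ≤ M ∧ SFn (fun j => x.getD j 0) (M + L) ∧
    mk (fun j => x.getD j 0) (M + L - 12) 9 ∧
    (∀ s < M + L - 12, ¬ mk (fun j => x.getD j 0) s 9) ∧
    (∀ p, M - U + 2 ≤ p → p < U + L → ∃ j ≤ M - U, x.getD j 0 ≠ x.getD (j + p) 0) := by
  unfold condB at h
  simp only [Bool.and_eq_true, decide_eq_true_eq, Bool.not_eq_true'] at h
  obtain ⟨⟨⟨⟨⟨⟨h1, h2⟩, h3⟩, h4⟩, h5⟩, h6⟩, h7⟩ := h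
  have hdrop : ∀ d j, (x.drop d).getD j 0 = x.getD (d + j) 0 := by
    intro d j
    simp [List.getD_eq_getElem?_getD, List.getElem?_drop]
  refine ⟨h1, h2, h3, ?_, ?_, ?_, ?_⟩
  · intro i p hp hi
    by_contra hcon
    push Not at hcon
    rw [← Bool.not_eq_true, hasSq_iff] at h4
    exact h4 ⟨i, p, hp, by omega, hcon⟩
  · rw [mk_iff]
    rw [prefEq_iff] at h5
    intro j hj
    rw [h5.2.2 j hj, hdrop]
  · intro s hs
    exact gfree_spec x h6 s (by omega)
  · intro p hp1 hp2
    rw [List.all_eq_true] at h7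
    have h8 := h7 p (List.mem_range.mpr hp2)
    rw [Bool.or_eq_true, decide_eq_true_eq, Bool.not_eq_true'] at h8
    rcases h8 with h8 | h8
    · omega
    · rw [← Bool.not_eq_true, prefEq_iff] at h8
      by_contra hcon
      push Not at hcon
      apply h8
      refine ⟨by omega, by rw [List.length_drop]; omega, fun k hk => ?_⟩
      rw [hdrop, hcon k (by omega), add_comm]

theorem check_sound {W : ℕ → Fin 3} (hW : SF W) (hNH : ∀ s, ¬ ∀ m, mk W s m) (N1 : ℕ)
    (hg : ∀ s ≥ N1, ¬ mk W s 9) (htail : ∀ e, e = 1 ∨ e = 2 → ∃ k, W (e + k) ≠ T k)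
    (N : ℕ) (hGoal : ¬ Goal W N) (ks : List (List (Fin 3))) (hK : ∀ k ∈ ks, ¬ Rec W k) :
    ∀ (c : Cert) (v : List (Fin 3)), check ks v c = true → ¬ Rec W v := by
  intro c
  induction c with
  | S =>
    intro v h
    exact not_Rec_of_hasSq hW h
  | K =>
    intro v h hrec
    rw [check, List.any_eq_true] at h
    obtain ⟨k, hk, hin⟩ := h
    obtain ⟨s, t, rfl⟩ := inside_spec _ _ hin
    exact hK k hk (Rec_mid hrec)
  | D t =>
    intro v h hrec
    rw [check, List.any_eq_true] at h
    obtain ⟨k, hk, hin⟩ := h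
    rw [Bool.and_eq_true] at hin
    obtain ⟨hend, hcond⟩ := hin
    obtain ⟨s, hs⟩ := ends_spec _ _ hend
    have hkr := hK k hk
    have hk0 : k ≠ [] := by
      rintro rfl
      exact hkr (Rec_nil W)
    have hkl : 1 ≤ k.length := by
      rcases Nat.eq_zero_or_pos k.length with h0 | h0
      · exact absurd (List.length_eq_zero_iff.mp h0) hk0
      · exact h0
    obtain ⟨c1, c2, c3, c4, c5, c6, c7⟩ := condB_spec (by rw [List.length_append]) hcond
    have htl : (t.take 1).length = 1 := by rw [List.length_take]; omega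
    have hsl : s.length + k.length = v.length + 1 := by
      have := congrArg List.length hs
      rw [List.length_append, List.length_append, htl] at this
      omega
    obtain ⟨N0, hN0⟩ := not_Rec.mp hkr
    apply hGoal
    refine lemD hW hNH N1 hg (fun j => (v ++ t).getD j 0) v.length t.length (k.length - 1)
      c1 c2 c3 c4 c5 c6 c7 N0 ?_ (Or.inl htail) ?_ N
    · intro i hi hall
      refine hN0 i hi ?_
      intro j hj
      rw [hall j (by omega)]
      have e1 : v.length - (k.length - 1) + j = s.length + j := by omega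
      rw [e1]
      have e2 : (v ++ t).getD (s.length + j) 0 = (v ++ t.take 1).getD (s.length + j) 0 := by
        rcases Nat.lt_or_ge (s.length + j) v.length with h | h
        · rw [getD_append_left' _ _ h, getD_append_left' _ _ h]
        · have e3 : s.length + j = v.length + 0 := by omega
          rw [e3, getD_append_right', getD_append_right']
          cases t with
          | nil => simp at c2
          | cons a t => simp
      rw [e2, hs, getD_append_right']
    · intro N'
      obtain ⟨a, ha, ho⟩ := hrec N'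
      refine ⟨a, ha, fun j hj => ?_⟩
      rw [ho j hj]
      exact (getD_append_left' _ _ hj).symm
  | R a b c iha ihb ihc =>
    intro v h
    rw [check, Bool.and_eq_true, Bool.and_eq_true] at h
    apply right_step
    intro x
    rcases three_cases x with rfl | rfl | rfl
    · exact iha _ h.1.1
    · exact ihb _ h.1.2
    · exact ihc _ h.2
  | L a b c iha ihb ihc =>
    intro v h
    rw [check, Bool.and_eq_true, Bool.and_eq_true] at h
    apply left_step
    intro x
    rcases three_cases x with rfl | rfl | rfl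
    · exact iha _ h.1.1
    · exact ihb _ h.1.2
    · exact ihc _ h.2

theorem checkAll_sound {W : ℕ → Fin 3} (hW : SF W) (hNH : ∀ s, ¬ ∀ m, mk W s m) (N1 : ℕ)
    (hg : ∀ s ≥ N1, ¬ mk W s 9) (htail : ∀ e, e = 1 ∨ e = 2 → ∃ k, W (e + k) ≠ T k)
    (N : ℕ) (hGoal : ¬ Goal W N) : ∀ (L : List (List (Fin 3) × Cert)) (ks : List (List (Fin 3))),
    (∀ k ∈ ks, ¬ Rec W k) → checkAll ks L = true → False := by
  intro L
  induction L with
  | nil =>
    intro ks hK h
    rw [checkAll, List.any_eq_true] at h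
    obtain ⟨k, hk, hk2⟩ := h
    rw [decide_eq_true_eq] at hk2
    subst hk2
    exact hK _ hk (Rec_nil W)
  | cons p L ih =>
    obtain ⟨v, c⟩ := p
    intro ks hK h
    rw [checkAll, Bool.and_eq_true] at h
    refine ih (v :: ks) ?_ h.2
    intro k hk
    rcases List.mem_cons.mp hk with rfl | hk
    · exact check_sound hW hNH N1 hg htail N hGoal ks hK c _ h.1
    · exact hK k hk

def certData : List (List (Fin 3) × Cert) := [
  ([1,0,2,1,0,1,2,0,2,1,0], (L K S S)),
  ([0,2,1,0,1,2,0,2,1,0], (L S K (L S S S))),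
  ([1,0,2,1,0,1,2,0,2,1], (L (D [0]) S S)),
  ([1,0,2,1,0,1,2,0,2], (R S K S)),
  ([2,0,1,0,2,1,0,1,2,0], (L (D [2,1,0]) (D [2,1,0]) S)),
  ([0,1,2,0,1,0,2,1,0,1,2], (L S (L S S (L (L S (L S S S) (D [0,2,1,0])) (D [0,2,1,0]) S)) S)),
  ([1,0,2,0,1,0,2,1,0,1,2], (L S S (D [0,2,1,0]))),
  ([2,1,2,0,1,0,2,1,0,1,2], (D [0,2,1,0])),
  ([2,0,1,0,2,1,0,1,2], (L (L S K S) (L K S K) S)),
  ([0,1,2,0,1,0,2,1,0,1], (R S S K)),
  ([1,0,2,0,1,0,2,1,0,1], (R S S K)),
  ([2,1,2,0,1,0,2,1,0,1], (R S S K)),
  ([1,0,2,1,2,0,1,0,2,1,0], (R S K S)),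
  ([2,0,2,1,2,0,1,0,2,1,0], (R S K S)),
  ([2,1,0,1,2,0,1,0,2,1,0], (R S K S)),
  ([1,0,2,1,0,1,2], (L (L S S K) S S)),
  ([0,1,2,0,1,0,2,1,0], (R S K S)),
  ([1,0,2,0,1,0,2,1,0], (R S K S)),
  ([0,2,1,0,2,0,1,0,2,1], (L S S (L S (L (L S (L S S (L K (D [0,1,2,0,2,1,0]) S)) (D [0,1,2,0,2,1,0])) S (D [0,1,2,0,2,1,0])) S))),
  ([1,0,2,1,2,0,1,0,2,1], (R K S (R S S S))),
  ([1,2,1,0,2,0,1,0,2,1], (L (D [0,1,2,0,2,1,0]) S S)),
  ([2,0,2,1,2,0,1,0,2,1], (L S (L (L S (L S S (L (L S K (D [0,1,2,0,2,1,0])) (D [0,1,2,0,2,1,0]) S)) (D [0,1,2,0,2,1,0])) S S) S)),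
  ([2,1,0,1,2,0,1,0,2,1], (L (L S K (L S (L (L S (L S S S) (D [0,1,2,0,2,1,0])) S (D [0,1,2,0,2,1,0])) S)) (D [0,1,2,0,2,1,0]) S)),
  ([0,1,2,0,2,1,2,0,1,0,2], (L S (L S S (L (L S K (D [1,0,1,2,0,2,1,0])) (D [1,0,1,2,0,2,1,0]) S)) (D [1,0,1,2,0,2,1,0]))),
  ([0,1,2,1,0,1,2,0,1,0,2], (L S S (D [1,0,1,2,0,2,1,0]))),
  ([1,0,1,2,1,0,2,0,1,0,2], (R S K S)),
  ([1,2,0,2,1,0,2,0,1,0,2], (R S K S)),
  ([1,2,1,0,2,1,2,0,1,0,2], (D [1,0,1,2,0,2,1,0])),
  ([2,0,1,0,2,1,2,0,1,0,2], (L (L S (L S S (L K K S)) S) S S)),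
  ([2,0,1,2,1,0,2,0,1,0,2], (R S K S)),
  ([2,0,2,1,0,1,2,0,1,0,2], (L S (L (L S (L S S S) (D [1,0,1,2,0,2,1,0])) S (D [1,0,1,2,0,2,1,0])) S)),
  ([1,0,2,1,0,1], (R S S K)),
  ([1,0,2,0,1,0,2,1], (L S S (L K K S))),
  ([1,0,2,1,2,0,1,0,2], (L (L S S K) S (L S K S))),
  ([2,0,2,1,2,0,1,0,2], (L S (L K S S) S)),
  ([2,1,0,1,2,0,1,0,2], (L (L S K K) (L K S S) S)),
  ([0,1,2,0,2,1,2,0,1,0], (R S S K)),
  ([0,1,2,1,0,1,2,0,1,0], (R S S K)),
  ([1,0,1,2,1,0,2,0,1,0], (R S S K)),
  ([1,2,0,2,1,0,2,0,1,0], (R S S K)),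
  ([1,2,1,0,2,1,2,0,1,0], (R S S K)),
  ([2,0,1,2,1,0,2,0,1,0], (R S S K)),
  ([2,0,2,1,0,1,2,0,1,0], (R S S K)),
  ([0,1,2,0,2,1,0,1,2,0,1], (R K S S)),
  ([0,2,0,1,2,0,2,1,2,0,1], (D [0,2,1,0,1,2,0,2,1,0])),
  ([0,2,1,0,1,2,1,0,2,0,1], (L S K (L S (L (L S (L S S (L S (D [0,2,1,0,1,2,0,2,1,0]) S)) (D [0,2,1,0,1,2,0,2,1,0])) S (D [0,2,1,0,1,2,0,2,1,0])) S))),
  ([0,2,1,2,0,2,1,0,2,0,1], (L S (L (L S S (L (L S K S) (D [0,2,1,0,1,2,0,2,1,0]) S)) S (D [0,2,1,0,1,2,0,2,1,0])) S)),
  ([1,0,1,2,1,0,2,1,2,0,1], (L S S (L (L S K (D [0,2,1,0,1,2,0,2,1,0])) S S))),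
  ([1,0,2,0,1,2,1,0,2,0,1], (R K S S)),
  ([2,0,1,2,0,2,1,0,2,0,1], (L (L S (L (D [0,2,1,0,1,2,0,2,1,0]) S (L (R K S S) (D [0,2,1,0,1,2,0,2,1,0]) S)) S) S S)),
  ([2,0,1,2,1,0,2,1,2,0,1], (L (D [0,2,1,0,1,2,0,2,1,0]) (L S S (R K S (R S (R S S S) S))) S)),
  ([2,1,0,1,2,0,2,1,2,0,1], (L (L S K (L S (L S S (D [0,2,1,0,1,2,0,2,1,0])) S)) (D [0,2,1,0,1,2,0,2,1,0]) S)),
  ([2,1,2,0,1,2,1,0,2,0,1], (D [0,2,1,0,1,2,0,2,1,0])),
  ([2,1,2,0,2,1,0,1,2,0,1], (D [0,2,1,0,1,2,0,2,1,0])),
  ([1,0,2,1,0], (R S K S)),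
  ([0,1,2,0,1,0,2], (L S (L S S K) S)),
  ([1,0,2,0,1,0,2], (R S K S)),
  ([2,1,2,0,1,0,2], (L (L S K K) S S)),
  ([0,2,1,0,2,0,1,0], (R S S K)),
  ([1,2,1,0,2,0,1,0], (R S S K)),
  ([0,1,2,0,2,1,2,0,1], (L S (L S S K) (L K S S))),
  ([0,1,2,1,0,1,2,0,1], (R K S S)),
  ([0,2,1,0,1,2,0,2,1], (R K S (R (R S K S) S S))),
  ([1,2,1,0,2,1,2,0,1], (L (L S K K) S S)),
  ([0,1,2,0,2,1,0,1,2,0], (R S K (R S S S))),
  ([0,2,0,1,2,1,0,1,2,0], (L S (D [1,0,2,1,0,1,2,0,2,1,0]) S)),
  ([0,2,1,0,1,2,1,0,2,0], (R S K S)),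
  ([0,2,1,2,0,2,1,0,2,0], (R S K S)),
  ([1,0,1,2,1,0,2,1,2,0], (L S S (L (L S K (D [1,0,2,1,0,1,2,0,2,1,0])) S S))),
  ([1,0,2,0,1,2,1,0,2,0], (R S K S)),
  ([1,2,0,1,2,1,0,1,2,0], (L S S (D [1,0,2,1,0,1,2,0,2,1,0]))),
  ([1,2,0,2,1,0,1,2,0,2], (R S K S)),
  ([2,0,1,2,0,2,1,0,2,0], (R S K S)),
  ([2,0,1,2,1,0,2,1,2,0], (L (D [1,0,2,1,0,1,2,0,2,1,0]) (L S S (L (L S (L (D [1,0,2,1,0,1,2,0,2,1,0]) S (L S S S)) (D [1,0,2,1,0,1,2,0,2,1,0])) S S)) S)),
  ([2,1,2,0,1,2,1,0,2,0], (R S K S)),
  ([2,1,2,0,1,2,1,0,2,1], (R S S (R K S S))),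
  ([2,1,2,0,2,1,0,1,2,0], (R S K K)),
  ([0,2,1,0,1,2,1,0,2,1,2], (R K S S)),
  ([0,2,1,2,0,1,2,1,0,1,2], (R K S S)),
  ([1,0,2,1,2,0,1,2,1,0,2], (R K K S)),
  ([1,0,2,1,2,0,2,1,0,1,2], (R K (R (R S S (R K (R S S K) S)) S S) S)),
  ([1,2,0,2,1,0,1,2,1,0,2], (R K (R S S K) S)),
  ([0,1,2,0,1,0], (R S S K)),
  ([1,0,2,0,1,0], (R S S K)),
  ([2,1,2,0,1,0], (R S S K)),
  ([1,0,2,1,2,0,1], (R K S (R S (R (R S (R S S K) K) S S) S))),
  ([0,1,2,0,2,1,2,0], (R S K S)),
  ([2,0,1,2,1,0,2,1], (R S S (R K S S))),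
  ([0,1,2,0,2,1,0,1,2], (R K (R (R S S K) S S) S)),
  ([0,2,0,1,2,0,2,1,2], (R K S S)),
  ([0,2,0,1,2,1,0,1,2], (R K S S)),
  ([0,2,1,2,0,2,1,0,2], (R K S S)),
  ([1,0,2,0,1,2,1,0,2], (R K K S)),
  ([1,2,0,1,2,1,0,1,2], (R K S S)),
  ([2,0,1,2,0,2,1,0,2], (R K S S)),
  ([2,1,2,0,1,2,1,0,2], (R K K S)),
  ([0,1,0,2,0,1,2,0,2,1], (R (R S (R S S K) K) S K)),
  ([0,1,0,2,0,1,2,1,0,1], (R S S K)),
  ([0,2,0,1,2,0,2,1,0,1], (R S S K)),
  ([0,2,1,0,2,0,1,2,1,0], (R S (R S S K) K)),
  ([1,0,2,0,1,2,0,2,1,0], (R S K K)),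
  ([1,0,2,1,2,0,2,1,0,1], (R S S K)),
  ([1,2,1,0,2,0,1,2,1,0], (R S (R S S K) K)),
  ([2,1,0,2,0,1,2,0,2,1], (R K S K)),
  ([0,1,2,1,0,2,0,1,2,0,2], (R S K S)),
  ([1,0,2,1], (R K S (R (R S K (R S (R (R S K K) S S) S)) S S))),
  ([0,1,2,0,1], (R K S S)),
  ([2,1,2,0,1], (R K S (R S (R (R S (R S S K) K) S S) S))),
  ([0,1,0,2,0,1], (R K S (R (R S S (R S K S)) (R (R S K K) S S) S))),
  ([0,1,2,1,0,2], (R (R S (R K S (R (R S S K) (R K S S) S)) S) K S)),
  ([0,2,0,1,2,0], (R S S (R S (R (R S K K) S K) S))),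
  ([2,0,2,1,0,2], (R (R S (R K S (R K (R K S S) S)) S) S S)),
  ([0,1,2,0,2,1,0], (R S (R S S K) K)),
  ([0,1,2,0,2,1,2], (R K S S)),
  ([0,2,0,1,2,1,0], (R S (R S S K) K)),
  ([2,1,0,1,2,1,0], (R S S K)),
  ([2,1,2,0,2,1,2], (R S S S)),
  ([0,1,0], (R S S (R (R S K S) K S))),
  ([1,0,2], (R (R S (R K S (R K (R K S S) S)) S) K S)),
  ([0,1,2,0], (R S K (R S (R K S K) S))),
  ([0,2,1,0], (R S (R S S (R K (R K S S) S)) K)),
  ([1,2,1,0], (R S (R S S (R K (R S S S) S)) K)),
  ([2,1,2,0], (R S K (R S (R K S K) S))),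
  ([0,1], (R K S (R K (R K S S) S))),
  ([0,2], (R (R S K S) (R K S (R K S S)) S)),
  ([1,2,1], (R K S S)),
  ([0], (R S K K)),
  ([1], (R K S (R K K S))),
  ([2], (R K K S)),
  ([], (R K K K))]

theorem certData_ok : checkAll [g0] certData = true := by decide +kernel

theorem goal_all {W : ℕ → Fin 3} (hW : SF W) (N : ℕ) : Goal W N := by
  by_contra hGoal
  have hNH : ∀ s, ¬ ∀ m, mk W s m := by
    intro s h
    apply hGoal
    refine ⟨W, s, hW, ⟨(h 0).1, (h 0).2.1, (h 0).2.2.1, fun i => ?_⟩, fun i _ => rfl⟩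
    exact (h (i + 1)).2.2.2 i (by omega)
  have htail : ∀ e, e = 1 ∨ e = 2 → ∃ k, W (e + k) ≠ T k := by
    intro e he
    by_contra hcon
    push Not at hcon
    exact hGoal (special hW he hcon N)
  have hg : ∃ N1, ∀ s ≥ N1, ¬ mk W s 9 := by
    by_contra hcon
    push Not at hcon
    exact hGoal (lemE hW hcon N)
  obtain ⟨N1, hN1⟩ := hg
  refine checkAll_sound hW hNH N1 hN1 htail N hGoal certData [g0] ?_ certData_ok
  intro k hk
  obtain rfl : k = g0 := by simpa using hk
  rw [not_Rec]
  refine ⟨N1, fun i hi ho => hN1 i hi ?_⟩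
  rw [mk_iff]
  intro j hj
  exact ho j hj


/-! ### from finite extendable words to infinite words -/

/-- a list without squares -/
def LSF (w : List (Fin 3)) : Prop := ∀ a u b : List (Fin 3), u ≠ [] → w ≠ a ++ u ++ u ++ b

theorem LSF_iff (w : List (Fin 3)) : LSF w ↔
    ∀ i p, 0 < p → i + 2 * p ≤ w.length → ∃ k < p, w.getD (i + k) 0 ≠ w.getD (i + p + k) 0 := by
  constructor
  · intro h i p hp hi
    by_contra hcon
    push Not at hcon
    refine h (w.take i) ((w.drop i).take p) (w.drop (i + 2 * p)) ?_ ?_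
    · intro h0
      have := congrArg List.length h0
      rw [List.length_take, List.length_drop] at this
      simp only [List.length_nil] at this
      omega
    · have e1 : (w.drop i).take p = (w.drop (i + p)).take p := by
        apply List.ext_getElem
        · rw [List.length_take, List.length_take, List.length_drop, List.length_drop]; omega
        · intro k h1 h2
          rw [List.length_take, List.length_drop] at h1
          rw [List.getElem_take, List.getElem_take, List.getElem_drop, List.getElem_drop]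
          have := hcon k (by omega)
          rw [List.getD_eq_getElem _ _ (by omega), List.getD_eq_getElem _ _ (by omega)] at this
          exact this
      have e2 : w = w.take i ++ w.drop i := (List.take_append_drop i w).symm
      have e3 : w.drop i = (w.drop i).take p ++ w.drop (i + p) := by
        conv_lhs => rw [← List.take_append_drop p (w.drop i)]
        rw [List.drop_drop]
      have e4 : w.drop (i + p) = (w.drop (i + p)).take p ++ w.drop (i + 2 * p) := by
        conv_lhs => rw [← List.take_append_drop p (w.drop (i + p))]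
        rw [List.drop_drop, show i + p + p = i + 2 * p from by ring]
      conv_lhs => rw [e2, e3, e4, ← e1]
      simp only [List.append_assoc]
  · rintro h a u b hu rfl
    have hu1 : 0 < u.length := List.length_pos_iff.mpr hu
    obtain ⟨k, hk, hne⟩ := h a.length u.length hu1 (by
      rw [List.length_append, List.length_append, List.length_append]; omega)
    apply hne
    have e1 : (a ++ u ++ u ++ b).getD (a.length + k) 0 = u.getD k 0 := by
      rw [List.append_assoc, List.append_assoc, getD_append_right', getD_append_left' _ _ hk]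
    have e2 : (a ++ u ++ u ++ b).getD (a.length + u.length + k) 0 = u.getD k 0 := by
      rw [List.append_assoc, show a.length + u.length = (a ++ u).length from by
        rw [List.length_append], getD_append_right', getD_append_left' _ _ hk]
    rw [e1, e2]

theorem LSF_left {u v : List (Fin 3)} (h : LSF (u ++ v)) : LSF u := by
  rintro a x b hx rfl
  exact h a x (b ++ v) hx (by simp)

theorem LSF_reverse {u : List (Fin 3)} (h : LSF u) : LSF u.reverse := by
  intro a x b hx he
  refine h b.reverse x.reverse a.reverse (by simpa using hx) ?_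
  have := congrArg List.reverse he
  rw [List.reverse_reverse] at this
  rw [this]
  simp

def Ext (w : List (Fin 3)) : Prop := {x : List (Fin 3) | LSF (w ++ x)}.Infinite

theorem Ext_step {w : List (Fin 3)} (h : Ext w) : ∃ c, Ext (w ++ [c]) := by
  by_contra hcon
  push Not at hcon
  unfold Ext at hcon h
  simp only [Set.not_infinite] at hcon
  apply h
  have hsub : {x : List (Fin 3) | LSF (w ++ x)} ⊆ {[]} ∪ ⋃ c : Fin 3,
      (fun x => c :: x) '' {x : List (Fin 3) | LSF (w ++ [c] ++ x)} := by
    intro x hx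
    cases x with
    | nil => left; rfl
    | cons c x =>
      right
      rw [Set.mem_iUnion]
      refine ⟨c, x, ?_, rfl⟩
      simpa using hx
  refine Set.Finite.subset ?_ hsub
  refine Set.Finite.union (Set.finite_singleton _) (Set.finite_iUnion fun c => ?_)
  exact (hcon c).image _

theorem exists_infinite {w : List (Fin 3)} (h : Ext w) :
    ∃ W : ℕ → Fin 3, SF W ∧ ∀ i < w.length, W i = w.getD i 0 := by
  classical
  choose f hf using fun w : {w : List (Fin 3) // Ext w} => Ext_step w.2
  let g : ℕ → {w : List (Fin 3) // Ext w} := fun n =>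
    Nat.rec ⟨w, h⟩ (fun _ v => ⟨v.1 ++ [f v], hf v⟩) n
  have g0' : (g 0).1 = w := rfl
  have gs : ∀ n, (g (n + 1)).1 = (g n).1 ++ [f (g n)] := fun n => rfl
  have glen : ∀ n, (g n).1.length = w.length + n := by
    intro n
    induction n with
    | zero => rw [g0']; rfl
    | succ n ih => rw [gs, List.length_append, ih]; simp; omega
  have gmono : ∀ n m, ∀ i < w.length + n, (g (n + m)).1.getD i 0 = (g n).1.getD i 0 := by
    intro n m
    induction m with
    | zero => intro i _; rfl
    | succ m ih =>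
      intro i hi
      rw [← add_assoc, gs, getD_append_left' _ _ (by rw [glen]; omega), ih i hi]
  have gW : ∀ n, ∀ i < w.length + n, (g (i + 1)).1.getD i 0 = (g n).1.getD i 0 := by
    intro n i hi
    rcases Nat.le_total n (i + 1) with h1 | h1
    · obtain ⟨m, hm⟩ := Nat.exists_eq_add_of_le h1
      rw [hm, gmono n m i hi]
    · obtain ⟨m, hm⟩ := Nat.exists_eq_add_of_le h1
      rw [hm, gmono (i + 1) m i (by omega)]
  have gsf : ∀ n, LSF (g n).1 := by
    intro n
    obtain ⟨x, hx⟩ := (g n).2.nonempty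
    exact LSF_left hx
  refine ⟨fun i => (g (i + 1)).1.getD i 0, ?_, ?_⟩
  · intro i p hp
    have h1 := (LSF_iff _).mp (gsf (i + 2 * p)) i p hp (by rw [glen]; omega)
    obtain ⟨k, hk, hne⟩ := h1
    refine ⟨k, hk, ?_⟩
    show (g (i + k + 1)).1.getD (i + k) 0 ≠ (g (i + p + k + 1)).1.getD (i + p + k) 0
    rw [gW (i + 2 * p) (i + k) (by omega), gW (i + 2 * p) (i + p + k) (by omega)]
    exact hne
  · intro i hi
    show (g (i + 1)).1.getD i 0 = w.getD i 0
    rw [gW 0 i (by omega), g0']

/-! ### long mirror-symmetric beginnings of the hub -/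

theorem tm_mirror (m : ℕ) : ∀ i < 2 ^ m, tm (2 ^ m - 1 - i) = xor (tm i) (decide (m % 2 = 1)) := by
  induction m with
  | zero =>
    intro i hi
    obtain rfl : i = 0 := by simpa using hi
    decide
  | succ m ih =>
    intro i hi
    rw [pow_succ] at hi
    have hpar : decide ((m + 1) % 2 = 1) = !decide (m % 2 = 1) := by
      rcases Nat.mod_two_eq_zero_or_one m with h | h
      · rw [h, show (m + 1) % 2 = 1 from by omega]; decide
      · rw [h, show (m + 1) % 2 = 0 from by omega]; decide
    rw [hpar]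
    rcases Nat.even_or_odd' i with ⟨q, rfl | rfl⟩
    · have e : 2 ^ (m + 1) - 1 - 2 * q = 2 * (2 ^ m - 1 - q) + 1 := by rw [pow_succ]; omega
      rw [e, tm_odd, tm_even, ih q (by omega)]
      cases tm q <;> cases decide (m % 2 = 1) <;> rfl
    · have e : 2 ^ (m + 1) - 1 - (2 * q + 1) = 2 * (2 ^ m - 1 - q) := by rw [pow_succ]; omega
      rw [e, tm_odd, tm_even, ih q (by omega)]
      cases tm q <;> cases decide (m % 2 = 1) <;> rfl

theorem df_mirror (a b : Bool) : df (!b) (!a) = df a b := by
  cases a <;> cases b <;> decide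

theorem T_mirror {m : ℕ} (hm : m % 2 = 1) {i : ℕ} (hi : i + 13 < 2 ^ m) :
    T (2 ^ m - 13 - 1 - i) = T i := by
  unfold T
  have e1 : 2 ^ m - 13 - 1 - i + 6 = 2 ^ m - 1 - (i + 7) := by omega
  have e2 : 2 ^ m - 13 - 1 - i + 7 = 2 ^ m - 1 - (i + 6) := by omega
  rw [e1, e2, tm_mirror m _ (by omega), tm_mirror m _ (by omega), hm]
  simp only [decide_true, Bool.xor_true]
  exact df_mirror _ _

theorem exists_mirror (B : ℕ) : ∃ l ≥ B, ∀ i < l, T (l - 1 - i) = T i := by
  refine ⟨2 ^ (2 * (B + 13) + 1) - 13, ?_, ?_⟩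
  · have h1 : 2 * (B + 13) + 1 < 2 ^ (2 * (B + 13) + 1) := Nat.lt_two_pow_self
    omega
  · intro i hi
    exact T_mirror (m := 2 * (B + 13) + 1) (by omega) (by omega)

theorem T_no_return {p : ℕ} (hp : 3 ≤ p) (h0 : T (p - 1) = 0) (h : ∀ k < 9, T (p + k) = T k) :
    False := by
  have hT : SFn T (p + 100) := SFn_of_SF T_sf _
  obtain ⟨j, rfl⟩ : ∃ j, p = j + 3 := ⟨p - 3, by omega⟩
  have h0' : T (j + 2) = 0 := h0
  have d1 : T (j + 1) = 1 := forceB hT (j := j) (by omega) h0' h
  have d0 : T j = 0 := forceA hT (j := j) (by omega) d1 h0'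
    (by rw [show j + 3 = j + 3 + 0 from rfl, h 0 (by omega), T0])
    (by rw [show j + 4 = j + 3 + 1 from rfl, h 1 (by omega), T1])
    (by rw [show j + 5 = j + 3 + 2 from rfl, h 2 (by omega), T2])
  exact T_nof j ⟨d0, d1, h0'⟩

/-! ### joining two words at the hub -/

theorem join {V1 V2 : ℕ → Fin 3} {r1 r2 : ℕ} (s1 : SF V1) (h1 : Hub V1 r1) (s2 : SF V2)
    (h2 : Hub V2 r2) {l : ℕ} (hl : ∀ i < l, T (l - 1 - i) = T i) (hl30 : 30 ≤ l)
    (hl2 : r1 + r2 + 6 < l) {Y : ℕ → Fin 3} (hY1 : ∀ i < r1 + 3 + l, Y i = V1 i)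
    (hY2 : ∀ i, r1 + 3 + l ≤ i → i < r1 + 3 + l + (r2 + 3) →
      Y i = V2 (r1 + 3 + l + (r2 + 3) - 1 - i)) :
    SFn Y (r1 + 3 + l + (r2 + 3)) := by
  have hY3 : ∀ i, r1 + 3 ≤ i → i < r1 + 3 + l → Y i = T (i - (r1 + 3)) := by
    intro i hi1 hi2
    rw [hY1 i hi2, h1.tail' hi1]
  have hY2' : ∀ i, r1 + 3 ≤ i → i < r1 + 3 + l + (r2 + 3) →
      Y i = V2 (r1 + 3 + l + (r2 + 3) - 1 - i) := by
    intro i hi1 hi2
    rcases Nat.lt_or_ge i (r1 + 3 + l) with h | h
    · rw [hY3 i hi1 h, h2.tail' (by omega), ← hl _ (by omega)]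
      congr 1
      omega
    · exact hY2 i h hi2
  intro i p hp hi
  by_contra hcon
  push Not at hcon
  have eqv : ∀ j, i ≤ j → j < i + p → Y j = Y (j + p) := by
    intro j h1 h2
    have := hcon (j - i) (by omega)
    rwa [show i + (j - i) = j from by omega, show i + p + (j - i) = j + p from by omega] at this
  -- inside the first word
  rcases Nat.lt_or_ge (r1 + 3 + l) (i + 2 * p) with hA | hA
  swap
  · obtain ⟨k, hk, hne⟩ := s1 i p hp
    apply hne
    have := hcon k hk
    rwa [hY1 _ (by omega), hY1 _ (by omega)] at this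
  -- inside the second word
  rcases Nat.lt_or_ge i (r1 + 3) with hB | hB
  swap
  · obtain ⟨k, hk, hne⟩ := s2 (r1 + 3 + l + (r2 + 3) - i - 2 * p) p hp
    apply hne
    have := hcon (p - 1 - k) (by omega)
    rw [hY2' _ (by omega) (by omega), hY2' _ (by omega) (by omega)] at this
    rw [show r1 + 3 + l + (r2 + 3) - i - 2 * p + k =
      r1 + 3 + l + (r2 + 3) - 1 - (i + p + (p - 1 - k)) from by omega, ← this]
    congr 1
    omega
  have hpl : p < l := by omega
  -- left marker
  have m0 : Y r1 = 0 := by rw [hY1 _ (by omega), h1.m0]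
  have m1 : Y (r1 + 1) = 1 := by rw [hY1 _ (by omega), h1.m1]
  have m2 : Y (r1 + 2) = 0 := by rw [hY1 _ (by omega), h1.m2]
  have n0 : Y (r1 + 3 + l) = 0 := by
    rw [hY2 _ (by omega) (by omega),
      show r1 + 3 + l + (r2 + 3) - 1 - (r1 + 3 + l) = r2 + 2 from by omega, h2.m2]
  have n1 : Y (r1 + 3 + l + 1) = 1 := by
    rw [hY2 _ (by omega) (by omega),
      show r1 + 3 + l + (r2 + 3) - 1 - (r1 + 3 + l + 1) = r2 + 1 from by omega, h2.m1]
  have n2 : Y (r1 + 3 + l + 2) = 0 := by
    rw [hY2 _ (by omega) (by omega),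
      show r1 + 3 + l + (r2 + 3) - 1 - (r1 + 3 + l + 2) = r2 from by omega, h2.m0]
  have nomark : ∀ s, r1 < s → s < r1 + 3 + l → ¬ (Y s = 0 ∧ Y (s + 1) = 1 ∧ Y (s + 2) = 0) := by
    rintro s hs1 hs2 ⟨a0, a1, a2⟩
    rcases Nat.lt_or_ge s (r1 + 3) with h | h
    · have : s = r1 + 1 ∨ s = r1 + 2 := by omega
      rcases this with rfl | rfl
      · rw [m1] at a0
        exact absurd a0 (by decide)
      · rw [hY3 _ (by omega) (by omega), show r1 + 2 + 1 - (r1 + 3) = 0 from by omega, T0] at a1
        exact absurd a1 (by decide)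
    · rcases Nat.lt_or_ge (r1 + 3 + l) (s + 3) with h' | h'
      · have : s = r1 + 3 + l - 1 ∨ s = r1 + 3 + l - 2 := by omega
        rcases this with h3 | h3
        · rw [hY3 _ (by omega) (by omega), h3,
            show r1 + 3 + l - 1 - (r1 + 3) = l - 1 - 0 from by omega, hl 0 (by omega), T0] at a0
          exact absurd a0 (by decide)
        · rw [hY3 _ (by omega) (by omega), h3,
            show r1 + 3 + l - 2 - (r1 + 3) = l - 1 - 1 from by omega, hl 1 (by omega), T1] at a0
          exact absurd a0 (by decide)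
      · rw [hY3 _ (by omega) (by omega)] at a0 a1 a2
        refine T_nof (s - (r1 + 3)) ⟨a0, ?_, ?_⟩
        · rw [← a1]; congr 1; omega
        · rw [← a2]; congr 1; omega
  have hip1 : r1 + 3 ≤ i + p := by omega
  have hip2 : i + p ≤ r1 + 3 + l := by omega
  have hi1 : r1 + 1 ≤ i := by
    by_contra hlt
    push Not at hlt
    refine nomark (r1 + p) (by omega) (by omega) ⟨?_, ?_, ?_⟩
    · rw [← eqv r1 (by omega) (by omega), m0]
    · rw [show r1 + p + 1 = r1 + 1 + p from by omega, ← eqv (r1 + 1) (by omega) (by omega), m1]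
    · rw [show r1 + p + 2 = r1 + 2 + p from by omega, ← eqv (r1 + 2) (by omega) (by omega), m2]
  have hi2 : i + 2 * p ≤ r1 + 3 + l + 2 := by
    by_contra hlt
    push Not at hlt
    refine nomark (r1 + 3 + l - p) (by omega) (by omega) ⟨?_, ?_, ?_⟩
    · rw [eqv _ (by omega) (by omega), show r1 + 3 + l - p + p = r1 + 3 + l from by omega, n0]
    · rw [eqv _ (by omega) (by omega), show r1 + 3 + l - p + 1 + p = r1 + 3 + l + 1 from by omega,
        n1]
    · rw [eqv _ (by omega) (by omega), show r1 + 3 + l - p + 2 + p = r1 + 3 + l + 2 from by omega,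
        n2]
  refine T_no_return (p := p) (by omega) ?_ ?_
  · have := eqv (r1 + 2) (by omega) (by omega)
    rw [m2, hY3 _ (by omega) (by omega)] at this
    rw [this]
    congr 1
    omega
  · intro k hk
    have := eqv (r1 + 3 + k) (by omega) (by omega)
    rw [hY3 _ (by omega) (by omega), hY3 _ (by omega) (by omega)] at this
    rw [show p + k = r1 + 3 + k + p - (r1 + 3) from by omega, ← this]
    congr 1
    omega

theorem bridge (w y : List (Fin 3)) (hw : Ext w)
    (hy : {x : List (Fin 3) | LSF (x ++ y)}.Infinite) : ∃ z, LSF (w ++ z ++ y) := by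
  have hy' : Ext y.reverse := by
    have h1 := hy.image (f := List.reverse) (Function.Injective.injOn List.reverse_injective)
    refine h1.mono ?_
    rintro _ ⟨x, hx, rfl⟩
    have := LSF_reverse hx
    rw [List.reverse_append] at this
    exact this
  obtain ⟨W1, sW1, hW1⟩ := exists_infinite hw
  obtain ⟨W2, sW2, hW2⟩ := exists_infinite hy'
  obtain ⟨V1, r1, s1, h1, hV1⟩ := goal_all sW1 w.length
  obtain ⟨V2, r2, s2, h2, hV2⟩ := goal_all sW2 y.length
  obtain ⟨l, hlB, hl⟩ := exists_mirror (30 + (r1 + r2 + 7) + w.length + y.length)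
  set N := r1 + 3 + l + (r2 + 3) with hN
  set Y : ℕ → Fin 3 := fun i => if i < r1 + 3 + l then V1 i else V2 (N - 1 - i) with hY
  have hY1 : ∀ i < r1 + 3 + l, Y i = V1 i := by
    intro i hi
    simp only [hY]
    rw [if_pos hi]
  have hY2 : ∀ i, r1 + 3 + l ≤ i → i < r1 + 3 + l + (r2 + 3) →
      Y i = V2 (r1 + 3 + l + (r2 + 3) - 1 - i) := by
    intro i hi1 _
    simp only [hY]
    rw [if_neg (by omega)]
  have hY2' : ∀ i, r1 + 3 ≤ i → i < N → Y i = V2 (N - 1 - i) := by
    intro i hi1 hi2
    rcases Nat.lt_or_ge i (r1 + 3 + l) with h | h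
    · rw [hY1 i h, h1.tail' hi1, h2.tail' (by omega), ← hl _ (by omega)]
      congr 1
      omega
    · exact hY2 i h hi2
  have hsf := join s1 h1 s2 h2 hl (by omega) (by omega) hY1 hY2
  set z : List (Fin 3) := (List.range (N - w.length - y.length)).map (fun j => Y (w.length + j))
    with hz
  have hzl : z.length = N - w.length - y.length := by rw [hz]; simp
  have hget : ∀ i < N, (w ++ z ++ y).getD i 0 = Y i := by
    intro i hi
    rcases Nat.lt_or_ge i w.length with ha | ha
    · rw [List.append_assoc, getD_append_left' _ _ ha, hY1 i (by omega), hV1 i ha, hW1 i ha]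
    · rcases Nat.lt_or_ge i (w.length + z.length) with hb | hb
      · have e : i = w.length + (i - w.length) := by omega
        rw [List.append_assoc, e, getD_append_right', getD_append_left' _ _ (by omega)]
        rw [hz, List.getD_eq_getElem _ _ (by simp; omega)]
        simp
      · have e : i = (w ++ z).length + (i - (w ++ z).length) := by
          rw [List.length_append]; omega
        rw [List.length_append] at e
        have e' : i = (w ++ z).length + (i - (w.length + z.length)) := by
          rw [List.length_append]; omega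
        conv_lhs => rw [e']
        rw [getD_append_right', hY2' i (by omega) hi, hV2 _ (by omega),
          hW2 _ (by rw [List.length_reverse]; omega),
          List.getD_eq_getElem _ _ (by omega),
          List.getD_eq_getElem _ _ (by rw [List.length_reverse]; omega), List.getElem_reverse]
        congr 1
        omega
  refine ⟨z, ?_⟩
  rw [LSF_iff]
  intro i p hp hi
  have hlen : (w ++ z ++ y).length = N := by
    rw [List.length_append, List.length_append]; omega
  rw [hlen] at hi
  obtain ⟨k, hk, hne⟩ := hsf i p hp hi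
  refine ⟨k, hk, ?_⟩
  rw [hget _ (by omega), hget _ (by omega)]
  exact hne

/-- For ternary words w, y: if infinitely many x make wx squarefree and infinitely many x make xy squarefree, then some word z makes wzy squarefree (no factor uu with u nonempty). -/
theorem result :
    ∀ w y : List (Fin 3),
      {x : List (Fin 3) | ∀ a u b : List (Fin 3), u ≠ [] → w ++ x ≠ a ++ u ++ u ++ b}.Infinite →
      {x : List (Fin 3) | ∀ a u b : List (Fin 3), u ≠ [] → x ++ y ≠ a ++ u ++ u ++ b}.Infinite →
      ∃ z : List (Fin 3), ∀ a u b : List (Fin 3), u ≠ [] → w ++ z ++ y ≠ a ++ u ++ u ++ b := by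
  intro w y hw hy
  exact bridge w y hw hy

end Pool.Agent.S07595
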