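import Pool.Statements.S07601
import Pool.Agent.Helper431.Moser3

set_option autoImplicit false
open Pool Pool.MP_e032b8_co

namespace Pool.Agent.S07601

/-- For every k at least 3 and every c > 0, for all large n there is a set of at least c·k^n/√n points in {0,…,k−1}^n such that no k of them lie on one real line. -/
theorem result :
    ∀ k : ℕ, 3 ≤ k → ∀ c : ℝ, 0 < c → ∃ N : ℕ, ∀ n : ℕ, N ≤ n →
      ∃ S : Finset (Fin n → Fin k),
        c * (k : ℝ) ^ n / Real.sqrt (n : ℝ) ≤ (S.card : ℝ) ∧
        ∀ T : Finset (Fin n → Fin k), T ⊆ S → T.card = k →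
          ¬ Collinear ℝ ((fun (x : Fin n → Fin k) (i : Fin n) => (((x i : ℕ)) : ℝ)) ''
              (T : Set (Fin n → Fin k))) := by
  intro k hk c hc
  exact Pool.Agent.Helper431.Moser.lineFree hk c hc

end Pool.Agent.S07601
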