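import Pool.Statements.S07623
import Pool.Agent.Helper999.GraphC

set_option autoImplicit false
open Pool Pool.MP_e19d8e_co

namespace Pool.Agent.S07623

open Pool.Agent.Helper999 Cardinal

theorem induce_connected {V : Type} (X : SimpleGraph V) (S : Set V) (hS : Cn X S) :
    (X.induce S).Connected := by
  obtain ⟨⟨x, hx⟩, h⟩ := hS
  have : Nonempty S := ⟨⟨x, hx⟩⟩
  refine ⟨?_⟩
  intro u v
  have h1 : ∀ w (hw : w ∈ S), Rch X S u.1 w → (X.induce S).Reachable u ⟨w, hw⟩ := by
    intro w hw hr
    induction hr with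
    | refl => exact SimpleGraph.Reachable.refl _
    | @tail a b _ hab ih =>
      exact (ih hab.2.1).trans (SimpleGraph.Adj.reachable (by simpa using hab.1))
  exact h1 v.1 v.2 (h u.1 u.2 v.1 v.2)

/-- If a class of graphs is closed under taking subgraphs of contractions (connected fibres), and every group is the automorphism group of some member, then the class contains every graph. -/
theorem result :
    ∀ (C : ∀ (V : Type), SimpleGraph V → Prop),
      (∀ (V : Type) (X : SimpleGraph V), C V X →
        ∀ (U : Type) (Y : SimpleGraph U),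
          (∃ (W : Type) (Z : SimpleGraph W) (f : V → W),
            (∀ a b : W, Z.Adj a b ↔ (a ≠ b ∧ ∃ x y : V, X.Adj x y ∧ f x = a ∧ f y = b)) ∧
            (∀ w : W, (X.induce (f ⁻¹' {w})).Connected) ∧
            ∃ g : U → W, Function.Injective g ∧ ∀ a b : U, Y.Adj a b → Z.Adj (g a) (g b)) →
          C U Y) →
      (∀ (G : Type) [Group G], ∃ (V : Type) (X : SimpleGraph V), C V X ∧ Nonempty (G ≃* (X ≃g X))) →
      ∀ (V : Type) (X : SimpleGraph V), C V X := by
  intro C hcl huniv U₀ Y
  classical
  let κ : Cardinal.{0} := Order.succ (max #U₀ ℵ₀)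
  have hκ : κ.IsRegular := Cardinal.isRegular_succ (le_max_right _ _)
  have hκ0 : ℵ₀ < κ := (le_max_right _ _).trans_lt (Order.lt_succ _)
  have hU₀ : #U₀ ≤ κ := (le_max_left _ _).trans (Order.le_succ _)
  obtain ⟨Γ, hΓ, hN⟩ := exists_nice κ hκ
  obtain ⟨V, X, hCX, ⟨e⟩⟩ := huniv Γ
  have hNA : Nice κ (X ≃g X) := hN.of_mulEquiv e
  let act : MulAction (X ≃g X) V :=
    { smul := fun g v => g v
      one_smul := fun _ => rfl
      mul_smul := fun _ _ _ => rfl }
  have hact : ∀ (g : X ≃g X) (v : V), g • v = g v := fun _ _ => rfl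
  obtain ⟨b, hb1, hb2⟩ := full_minor (X := X) (A := X ≃g X) hκ hκ0 hNA
    (fun g u v huv => by rw [hact, hact]; exact g.map_adj_iff.2 huv)
    (fun σ h1 h2 => by
      refine ⟨⟨σ, ?_⟩, fun v => rfl⟩
      intro u v
      constructor
      · intro h
        have := h2 _ _ h
        simpa using this
      · exact h1 u v)
    (fun g hg => by
      ext v
      exact hg v) U₀ hU₀
  -- the contraction
  have hbi : ∀ i j x, x ∈ b i → x ∈ b j → i = j := by
    intro i j x hi hj
    by_contra hij
    exact Set.disjoint_left.1 (hb2 i j hij).1 hi hj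
  let s : Setoid V :=
    { r := fun u v => u = v ∨ ∃ i, u ∈ b i ∧ v ∈ b i
      iseqv :=
        { refl := fun u => Or.inl rfl
          symm := by
            rintro u v (rfl | ⟨i, h1, h2⟩)
            · exact Or.inl rfl
            · exact Or.inr ⟨i, h2, h1⟩
          trans := by
            rintro u v w (rfl | ⟨i, h1, h2⟩) (rfl | ⟨j, h3, h4⟩)
            · exact Or.inl rfl
            · exact Or.inr ⟨j, h3, h4⟩
            · exact Or.inr ⟨i, h1, h2⟩
            · have := hbi i j v h2 h3
              subst this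
              exact Or.inr ⟨i, h1, h4⟩ } }
  let f : V → Quotient s := Quotient.mk s
  have hf : ∀ u v, f u = f v ↔ (u = v ∨ ∃ i, u ∈ b i ∧ v ∈ b i) := fun u v => Quotient.eq
  let Z : SimpleGraph (Quotient s) :=
    { Adj := fun a c => a ≠ c ∧ ∃ x y : V, X.Adj x y ∧ f x = a ∧ f y = c
      symm := ⟨fun a c h => ⟨h.1.symm, by
        obtain ⟨x, y, hxy, h1, h2⟩ := h.2
        exact ⟨y, x, hxy.symm, h2, h1⟩⟩⟩
      loopless := ⟨fun a h => h.1 rfl⟩ }
  refine hcl V X hCX U₀ Y ⟨Quotient s, Z, f, fun _ _ => Iff.rfl, ?_, ?_⟩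
  · intro w
    apply induce_connected
    obtain ⟨x, rfl⟩ := Quotient.exists_rep w
    by_cases hx : ∃ i, x ∈ b i
    · obtain ⟨i, hi⟩ := hx
      have : f ⁻¹' {(Quotient.mk s x)} = b i := by
        ext y
        change f y = f x ↔ y ∈ b i
        rw [hf]
        constructor
        · rintro (rfl | ⟨j, h1, h2⟩)
          · exact hi
          · rw [hbi i j x hi h2]; exact h1
        · intro hy
          exact Or.inr ⟨i, hy, hi⟩
      rw [this]
      exact hb1 i
    · have : f ⁻¹' {(Quotient.mk s x)} = {x} := by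
        ext y
        change f y = f x ↔ y = x
        rw [hf]
        constructor
        · rintro (rfl | ⟨j, h1, h2⟩)
          · rfl
          · exact absurd ⟨j, h2⟩ hx
        · intro hy
          exact Or.inl hy
      rw [this]
      refine ⟨Set.singleton_nonempty x, ?_⟩
      rintro u rfl v rfl
      exact Rch.refl _
  · choose p hp using fun i => (hb1 i).1
    refine ⟨fun i => f (p i), ?_, ?_⟩
    · intro i j hij
      rcases (hf _ _).1 hij with h | ⟨k, h1, h2⟩
      · have h3 := hp i
        rw [h] at h3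
        exact hbi i j _ h3 (hp j)
      · exact (hbi i k _ (hp i) h1).trans (hbi k j _ h2 (hp j))
    · intro i j hij
      have hne : i ≠ j := hij.ne
      obtain ⟨hd, u, hu, v, hv, huv⟩ := hb2 i j hne
      refine ⟨?_, u, v, huv, ?_, ?_⟩
      · intro heq
        rcases (hf _ _).1 heq with h | ⟨k, h1, h2⟩
        · have h3 := hp i
          rw [h] at h3
          exact hne (hbi i j _ h3 (hp j))
        · exact hne ((hbi i k _ (hp i) h1).trans (hbi k j _ h2 (hp j)))
      · exact (hf _ _).2 (Or.inr ⟨i, hu, hp i⟩)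
      · exact (hf _ _).2 (Or.inr ⟨j, hv, hp j⟩)

end Pool.Agent.S07623
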