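import Pool.Statements.S07636
-- import your own Pool.Agent.* helpers here
import Pool.Agent.Helper274.CoverL

set_option autoImplicit false
open Classical
open Pool Pool.MP_e20aca_co

namespace Pool.Agent.S07636

theorem floor_rpow_half (p : ℕ) : ⌊(p : ℝ) ^ (1 / 2 : ℝ)⌋₊ = Nat.sqrt p := by
  rw [← Real.sqrt_eq_rpow]
  exact Real.nat_floor_real_sqrt_eq_nat_sqrt

theorem floor_le (C : ℝ) (hC : 1 < C) (p : ℕ) (hp : 1 ≤ p) :
    ⌊C * (p : ℝ) ^ (1 - 1 / 2 : ℝ)⌋₊ ≤ ⌈2 * C⌉₊ * Nat.sqrt p := by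
  have h1 : (1 - 1 / 2 : ℝ) = 1 / 2 := by norm_num
  rw [h1, ← Real.sqrt_eq_rpow]
  have h2 : Real.sqrt p ≤ Nat.sqrt p + 1 := by
    apply Real.sqrt_le_iff.mpr
    refine ⟨by positivity, ?_⟩
    have : p < (Nat.sqrt p + 1) * (Nat.sqrt p + 1) := Nat.lt_succ_sqrt p
    have h : (p:ℝ) < ((Nat.sqrt p : ℝ) + 1) * ((Nat.sqrt p : ℝ) + 1) := by exact_mod_cast this
    nlinarith
  have h3 : (1:ℝ) ≤ Nat.sqrt p := by
    have : 0 < Nat.sqrt p := Nat.sqrt_pos.mpr hp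
    exact_mod_cast this
  have h4 : C * Real.sqrt p ≤ ((⌈2 * C⌉₊ * Nat.sqrt p : ℕ) : ℝ) := by
    push_cast
    have h5 := Nat.le_ceil (2 * C)
    calc C * Real.sqrt p ≤ C * (Nat.sqrt p + 1) := by gcongr
      _ ≤ C * (2 * Nat.sqrt p) := by gcongr; linarith
      _ = (2 * C) * Nat.sqrt p := by ring
      _ ≤ _ := by gcongr
  exact Nat.floor_le_of_le h4

/-- The negation of the preceding statement: For every θ in (0,1/2] there is C>1 such that, over primes p, the fraction of ⌊p^θ⌋-subsets A of Z/pZ for which at most ⌊C p^(1−θ)⌋ translates of A cover Z/pZ tends to 1. -/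
theorem result :
    ¬ (∀ θ : ℝ, 0 < θ → θ ≤ 1 / 2 →
      ∃ C : ℝ, 1 < C ∧
        ∀ ε : ℝ, 0 < ε → ∃ N : ℕ, ∀ p : ℕ, N ≤ p → p.Prime →
          1 - ε <
            (((Finset.univ : Finset (Finset (Fin p))).filter
                (fun A => A.card = ⌊(p : ℝ) ^ θ⌋₊ ∧
                  ∃ T : Finset (Fin p), T.card ≤ ⌊C * (p : ℝ) ^ (1 - θ)⌋₊ ∧
                    ∀ x : Fin p, ∃ t ∈ T, ∃ a ∈ A, t + a = x)).card : ℝ) /
              ((p.choose ⌊(p : ℝ) ^ θ⌋₊ : ℕ) : ℝ)) := by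
  intro h
  obtain ⟨C, hC, hCε⟩ := h (1 / 2) (by norm_num) le_rfl
  obtain ⟨N, hN⟩ := hCε (1 / 2) (by norm_num)
  have hK : 1 ≤ ⌈2 * C⌉₊ := Nat.one_le_ceil_iff.mpr (by linarith)
  obtain ⟨N', hN'⟩ := Filter.eventually_atTop.mp
    (Pool.Agent.Helper274.Cover.coverable_card_le ⌈2 * C⌉₊ hK (1 / 2) (by norm_num))
  obtain ⟨p, hpge, hp⟩ := Nat.exists_infinite_primes (max N N')
  have h1 := hN p ((le_max_left _ _).trans hpge) hp
  have : NeZero p := ⟨hp.ne_zero⟩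
  have h2 := hN' p ((le_max_right _ _).trans hpge) (Fin p) (Fintype.card_fin p)
  rw [floor_rpow_half] at h1
  have hchoose : (0:ℝ) < (p.choose (Nat.sqrt p) : ℕ) := by
    exact_mod_cast Nat.choose_pos (Nat.sqrt_le_self p)
  rw [lt_div_iff₀ hchoose] at h1
  have h3 : (((Finset.univ : Finset (Finset (Fin p))).filter
      (fun A => A.card = Nat.sqrt p ∧
        ∃ T : Finset (Fin p), T.card ≤ ⌊C * (p : ℝ) ^ (1 - 1 / 2 : ℝ)⌋₊ ∧
          ∀ x : Fin p, ∃ t ∈ T, ∃ a ∈ A, t + a = x)).card : ℝ) ≤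
      ((Pool.Agent.Helper274.Cover.coverable (Fin p) ⌈2 * C⌉₊).card : ℝ) := by
    norm_cast
    apply Finset.card_le_card
    intro A hA
    unfold Pool.Agent.Helper274.Cover.coverable
    simp only [Finset.mem_filter, Finset.mem_univ, true_and, Fintype.card_fin] at hA ⊢
    obtain ⟨hA1, T, hT, hcov⟩ := hA
    exact ⟨hA1, T, hT.trans (floor_le C hC p hp.one_lt.le), hcov⟩
  have h4 : ((1:ℝ) - 1 / 2) * ((p.choose (Nat.sqrt p) : ℕ) : ℝ) =
      1 / 2 * ((p.choose (Nat.sqrt p) : ℕ) : ℝ) := by norm_num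
  linarith

end Pool.Agent.S07636
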