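import Pool.Statements.S07646

set_option autoImplicit false

namespace Pool.Agent.S07646.Chn

open Finset

/-- Gram matrix entries of the chain (up to the common factor). -/
def gram (e : ℕ → ℤ) (i j : ℕ) : ℤ :=
  if i = j then e i else if i + 1 = j ∨ j + 1 = i then -3 else 0

/-- The chain data: weights `e` prime to `3` and a bounded positive solution `a`. -/
structure Dat (e : ℕ → ℤ) (a : ℕ → ℝ) : Prop where
  cop : ∀ i, ¬ (3 : ℤ) ∣ e i
  le8 : ∀ i, e i ≤ 8
  one : ∀ i, 1 ≤ a i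
  twenty : ∀ i, a i ≤ 20
  z : (e 0 : ℝ) * a 0 = 3 * a 1
  s : ∀ i, (e (i + 1) : ℝ) * a (i + 1) = 3 * (a i + a (i + 2))

/-- The tridiagonal operator. -/
def op (e : ℕ → ℤ) (b : ℕ → ℤ) : ℕ → ℤ
  | 0 => e 0 * b 0 - 3 * b 1
  | (i + 1) => e (i + 1) * b (i + 1) - 3 * b i - 3 * b (i + 2)

theorem norm_sq {e : ℕ → ℤ} {C : ℤ} (K : ℕ) (X : ℕ → ℕ → ℤ) (w : ℕ → ℝ) (n : ℕ)
    (hG : ∀ i, i ≤ n → ∀ j, j ≤ n → ∑ k ∈ range K, X i k * X j k = C * gram e i j) :
    ∑ k ∈ range K, (∑ i ∈ range (n + 1), w i * (X i k : ℝ)) ^ 2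
      = C * (∑ i ∈ range (n + 1), (e i : ℝ) * w i ^ 2 - 6 * ∑ i ∈ range n, w i * w (i + 1)) := by
  induction n with
  | zero =>
    have h := hG 0 le_rfl 0 le_rfl
    have h' : ∑ k ∈ range K, ((X 0 k : ℝ) * X 0 k) = C * e 0 := by
      have := congrArg (fun z : ℤ => (z : ℝ)) h
      simpa [gram] using this
    simp only [zero_add, sum_range_one, range_zero, sum_empty, mul_zero, sub_zero]
    calc ∑ k ∈ range K, (w 0 * (X 0 k : ℝ)) ^ 2
        = w 0 ^ 2 * ∑ k ∈ range K, ((X 0 k : ℝ) * X 0 k) := by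
          rw [mul_sum]; exact sum_congr rfl fun k _ => by ring
      _ = _ := by rw [h']; ring
  | succ n ih =>
    have ih' := ih (fun i hi j hj => hG i (by omega) j (by omega))
    have hnn : ∑ k ∈ range K, ((X (n + 1) k : ℝ) * X (n + 1) k) = C * e (n + 1) := by
      have := congrArg (fun z : ℤ => (z : ℝ)) (hG (n + 1) le_rfl (n + 1) le_rfl)
      simpa [gram] using this
    have hcross : ∑ k ∈ range K, (∑ i ∈ range (n + 1), w i * (X i k : ℝ)) * (X (n + 1) k : ℝ)
        = C * (-3 * w n) := by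
      calc ∑ k ∈ range K, (∑ i ∈ range (n + 1), w i * (X i k : ℝ)) * (X (n + 1) k : ℝ)
          = ∑ i ∈ range (n + 1), w i * ∑ k ∈ range K, ((X i k : ℝ) * X (n + 1) k) := by
            simp_rw [sum_mul, mul_sum]
            rw [sum_comm]
            exact sum_congr rfl fun i _ => sum_congr rfl fun k _ => by ring
        _ = ∑ i ∈ range (n + 1), w i * ((C : ℝ) * (gram e i (n + 1) : ℤ)) := by
            refine sum_congr rfl fun i hi => ?_
            have hi' := mem_range.mp hi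
            have := congrArg (fun z : ℤ => (z : ℝ)) (hG i (by omega) (n + 1) le_rfl)
            simp only [Int.cast_sum, Int.cast_mul] at this
            rw [this]
        _ = w n * ((C : ℝ) * (gram e n (n + 1) : ℤ)) := by
            rw [sum_range_succ, sum_eq_zero, zero_add]
            intro i hi
            have hi' := mem_range.mp hi
            have : gram e i (n + 1) = 0 := by
              unfold gram
              rw [if_neg (by omega), if_neg (by omega)]
            rw [this]; simp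
        _ = _ := by
            have : gram e n (n + 1) = -3 := by
              unfold gram
              rw [if_neg (by omega), if_pos (Or.inl rfl)]
            rw [this]; push_cast; ring
    calc ∑ k ∈ range K, (∑ i ∈ range (n + 1 + 1), w i * (X i k : ℝ)) ^ 2
        = ∑ k ∈ range K, (∑ i ∈ range (n + 1), w i * (X i k : ℝ)) ^ 2
          + 2 * w (n + 1) * (∑ k ∈ range K, (∑ i ∈ range (n + 1), w i * (X i k : ℝ)) * (X (n + 1) k : ℝ))
          + w (n + 1) ^ 2 * ∑ k ∈ range K, ((X (n + 1) k : ℝ) * X (n + 1) k) := by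
          rw [mul_sum, mul_sum, ← sum_add_distrib, ← sum_add_distrib]
          refine sum_congr rfl fun k _ => ?_
          rw [sum_range_succ _ (n + 1)]
          ring
      _ = _ := by
          rw [ih', hcross, hnn, sum_range_succ _ (n + 1),
            sum_range_succ (fun i => w i * w (i + 1)) n]
          ring

/-- Single coordinate bound. -/
theorem coord_sq {e : ℕ → ℤ} {C : ℤ} (K : ℕ) (X : ℕ → ℕ → ℤ) (w : ℕ → ℝ) (n : ℕ)
    (hG : ∀ i, i ≤ n → ∀ j, j ≤ n → ∑ k ∈ range K, X i k * X j k = C * gram e i j)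
    (k : ℕ) (hk : k < K) :
    (∑ i ∈ range (n + 1), w i * (X i k : ℝ)) ^ 2
      ≤ C * (∑ i ∈ range (n + 1), (e i : ℝ) * w i ^ 2 - 6 * ∑ i ∈ range n, w i * w (i + 1)) := by
  rw [← norm_sq K X w n hG]
  exact single_le_sum (f := fun k => (∑ i ∈ range (n + 1), w i * (X i k : ℝ)) ^ 2)
    (fun k _ => sq_nonneg _) (mem_range.mpr hk)

/-- Ground state transform. -/
theorem energy {e : ℕ → ℤ} {a : ℕ → ℝ} (hd : Dat e a) (h : ℕ → ℝ) (n : ℕ) :
    ∑ i ∈ range (n + 1), (e i : ℝ) * (a i * h i) ^ 2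
        - 6 * ∑ i ∈ range n, (a i * h i) * (a (i + 1) * h (i + 1))
      = 3 * ∑ i ∈ range n, a i * a (i + 1) * (h i - h (i + 1)) ^ 2
        + 3 * (a n * a (n + 1) * h n ^ 2) := by
  induction n with
  | zero =>
    simp only [zero_add, sum_range_one, range_zero, sum_empty, mul_zero, sub_zero]
    have := hd.z
    linear_combination (a 0 * h 0 ^ 2) * this
  | succ n ih =>
    have := hd.s n
    rw [sum_range_succ _ (n + 1),
      sum_range_succ (fun i => (a i * h i) * (a (i + 1) * h (i + 1))) n,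
      sum_range_succ (fun i => a i * a (i + 1) * (h i - h (i + 1)) ^ 2) n]
    linear_combination ih + (a (n + 1) * h (n + 1) ^ 2) * this

/-- The property of the columns used below. -/
def Col (e : ℕ → ℤ) (C : ℤ) (y : ℕ → ℤ) : Prop :=
  ∀ (w : ℕ → ℝ) (n : ℕ), (∑ i ∈ range (n + 1), w i * (y i : ℝ)) ^ 2
    ≤ C * (∑ i ∈ range (n + 1), (e i : ℝ) * w i ^ 2 - 6 * ∑ i ∈ range n, w i * w (i + 1))

theorem col_sq {e : ℕ → ℤ} {a : ℕ → ℝ} (hd : Dat e a) {C : ℤ} (hC : 0 < C) {y : ℕ → ℤ}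
    (hy : Col e C y) (n : ℕ) : ∑ i ∈ range (n + 1), y i ^ 2 ≤ 14 * C := by
  have hC' : (0 : ℝ) < C := by exact_mod_cast hC
  have h := hy (fun i => (y i : ℝ)) n
  set S : ℝ := ∑ i ∈ range (n + 1), (y i : ℝ) ^ 2 with hS
  have hS0 : 0 ≤ S := sum_nonneg fun i _ => sq_nonneg _
  have h1 : ∑ i ∈ range (n + 1), (y i : ℝ) * (y i : ℝ) = S :=
    sum_congr rfl fun i _ => by ring
  have h2 : ∑ i ∈ range (n + 1), (e i : ℝ) * (y i : ℝ) ^ 2 ≤ 8 * S := by
    rw [hS, mul_sum]
    refine sum_le_sum fun i _ => ?_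
    have : (e i : ℝ) ≤ 8 := by exact_mod_cast hd.le8 i
    exact mul_le_mul_of_nonneg_right this (sq_nonneg _)
  have h3 : -(2 * ∑ i ∈ range n, (y i : ℝ) * (y (i + 1) : ℝ)) ≤ 2 * S := by
    have hA : ∑ i ∈ range n, (y i : ℝ) ^ 2 ≤ S := by
      rw [hS, sum_range_succ]
      have := sq_nonneg (y n : ℝ)
      linarith
    have hB : ∑ i ∈ range n, (y (i + 1) : ℝ) ^ 2 ≤ S := by
      rw [hS, sum_range_succ']
      have := sq_nonneg (y 0 : ℝ)
      linarith
    have hsum : -(2 * ∑ i ∈ range n, (y i : ℝ) * (y (i + 1) : ℝ))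
        ≤ ∑ i ∈ range n, (y i : ℝ) ^ 2 + ∑ i ∈ range n, (y (i + 1) : ℝ) ^ 2 := by
      rw [mul_sum, ← sum_neg_distrib, ← sum_add_distrib]
      refine sum_le_sum fun i _ => ?_
      nlinarith [sq_nonneg ((y i : ℝ) + (y (i + 1) : ℝ))]
    linarith
  rw [h1] at h
  have h4 : S ^ 2 ≤ C * (14 * S) := by
    refine h.trans (mul_le_mul_of_nonneg_left ?_ hC'.le)
    linarith
  have h5 : S ≤ 14 * C := by
    by_contra hcon
    push Not at hcon
    nlinarith
  have h6 : ((∑ i ∈ range (n + 1), y i ^ 2 : ℤ) : ℝ) ≤ ((14 * C : ℤ) : ℝ) := by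
    push_cast
    exact h5
  exact_mod_cast h6

/-- At most `14 C` indices carry a nonzero entry. -/
theorem col_card {e : ℕ → ℤ} {a : ℕ → ℝ} (hd : Dat e a) {C : ℤ} (hC : 0 < C) {y : ℕ → ℤ}
    (hy : Col e C y) (s : Finset ℕ) (hs : ∀ i ∈ s, y i ≠ 0) : (s.card : ℤ) ≤ 14 * C := by
  obtain ⟨n, hn⟩ : ∃ n, ∀ i ∈ s, i ≤ n := ⟨s.sup id, fun i hi => le_sup (f := id) hi⟩
  calc (s.card : ℤ) = ∑ i ∈ s, (1 : ℤ) := by simp
    _ ≤ ∑ i ∈ s, y i ^ 2 := by
        refine sum_le_sum fun i hi => ?_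
        have := hs i hi
        have h2 : 0 < y i ^ 2 := by positivity
        omega
    _ ≤ ∑ i ∈ range (n + 1), y i ^ 2 := by
        refine sum_le_sum_of_subset_of_nonneg ?_ (fun i _ _ => sq_nonneg _)
        intro i hi
        exact mem_range.mpr (by have := hn i hi; omega)
    _ ≤ 14 * C := col_sq hd hC hy n

theorem col_fin {e : ℕ → ℤ} {a : ℕ → ℝ} (hd : Dat e a) {C : ℤ} (hC : 0 < C) {y : ℕ → ℤ}
    (hy : Col e C y) : ∃ n, ∀ i, n ≤ i → y i = 0 := by
  have hfin : {i | y i ≠ 0}.Finite := by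
    by_contra hinf
    obtain ⟨t, ht, htc⟩ := Set.Infinite.exists_subset_card_eq hinf ((14 * C).toNat + 1)
    have := col_card hd hC hy t (fun i hi => ht hi)
    rw [htc] at this
    omega
  obtain ⟨n, hn⟩ := hfin.bddAbove
  refine ⟨n + 1, fun i hi => ?_⟩
  by_contra h
  have := hn h
  omega

theorem orth {e : ℕ → ℤ} {a : ℕ → ℝ} (hd : Dat e a) {C : ℤ} (hC : 0 < C) {y : ℕ → ℤ}
    (hy : Col e C y) (n₀ : ℕ) (h0 : ∀ i, n₀ ≤ i → y i = 0) :
    ∑ i ∈ range n₀, a i * (y i : ℝ) = 0 := by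
  have hC' : (0 : ℝ) < C := by exact_mod_cast hC
  set T : ℝ := ∑ i ∈ range n₀, a i * (y i : ℝ) with hT
  set S : ℝ := ∑ i ∈ range n₀, (i : ℝ) * (a i * (y i : ℝ)) with hS
  have key : ∀ n, n₀ ≤ n + 1 → (((n : ℝ) + 1) * T - S) ^ 2 ≤ C * (1200 * ((n : ℝ) + 1)) := by
    intro n hn
    obtain ⟨g, hg⟩ : ∃ g : ℕ → ℝ, ∀ i, g i = (n : ℝ) + 1 - i := ⟨_, fun _ => rfl⟩
    have h := hy (fun i => a i * g i) n
    rw [energy hd g n] at h
    have hL : ∑ i ∈ range (n + 1), a i * g i * (y i : ℝ) = ((n : ℝ) + 1) * T - S := by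
      rw [hT, hS, mul_sum, ← sum_sub_distrib]
      symm
      apply sum_subset_zero_on_sdiff
      · intro i hi; exact mem_range.mpr (by have := mem_range.mp hi; omega)
      · intro i hi
        have : n₀ ≤ i := by
          have := (mem_sdiff.mp hi).2
          rw [mem_range] at this; omega
        rw [h0 i this]; simp
      · intro i _; rw [hg]; ring
    rw [hL] at h
    refine h.trans (mul_le_mul_of_nonneg_left ?_ hC'.le)
    have hb : ∀ i, a i * a (i + 1) ≤ 400 := by
      intro i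
      have h1 := hd.one i
      have h2 := hd.twenty i
      have h3 := hd.one (i + 1)
      have h4 := hd.twenty (i + 1)
      nlinarith
    have h1 : ∑ i ∈ range n, a i * a (i + 1) * (g i - g (i + 1)) ^ 2 ≤ 400 * n := by
      calc ∑ i ∈ range n, a i * a (i + 1) * (g i - g (i + 1)) ^ 2
          ≤ ∑ i ∈ range n, (400 : ℝ) := by
            refine sum_le_sum fun i _ => ?_
            have := hb i
            rw [hg, hg]
            push_cast
            nlinarith
        _ = 400 * n := by rw [sum_const, card_range, nsmul_eq_mul]; ring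
    have h2 : a n * a (n + 1) * g n ^ 2 ≤ 400 := by
      have := hb n
      rw [hg]
      nlinarith
    linarith
  by_contra hne
  have hT2 : 0 < T ^ 2 := by positivity
  obtain ⟨m, hm⟩ := exists_nat_gt ((C * 1200 + 2 * T * S) / T ^ 2)
  have hk := key (m + n₀) (by omega)
  have hm' : C * 1200 + 2 * T * S < m * T ^ 2 := by
    rwa [div_lt_iff₀ hT2] at hm
  push_cast at hk
  have hpos : (0 : ℝ) < (m : ℝ) + n₀ + 1 := by positivity
  have h1 : ((m : ℝ) + n₀ + 1) * (((m : ℝ) + n₀ + 1) * T ^ 2) ≤ ((m : ℝ) + n₀ + 1) * (C * 1200 + 2 * T * S) := by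
    nlinarith [sq_nonneg S]
  have h2 := le_of_mul_le_mul_left h1 hpos
  have h3 : (m : ℝ) * T ^ 2 ≤ ((m : ℝ) + n₀ + 1) * T ^ 2 := by
    apply mul_le_mul_of_nonneg_right _ hT2.le
    have : (0 : ℝ) ≤ n₀ := by positivity
    linarith
  linarith

theorem exists_left (e : ℕ → ℤ) : ∀ (n : ℕ) (p q : ℤ) (y : ℕ → ℤ), ∃ b : ℕ → ℤ,
    b n = 3 ^ n * p ∧ b (n + 1) = 3 ^ n * q ∧ ∀ i, i < n → op e b (i + 1) = 3 ^ n * y (i + 1)
  | 0, p, q, y => ⟨fun i => if i = 0 then p else q, by simp, by simp, by simp⟩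
  | (n + 1), p, q, y => by
    obtain ⟨b, h1, h2, h3⟩ := exists_left e n (e (n + 1) * p - 3 * q - y (n + 1)) (3 * p)
      (fun i => 3 * y i)
    refine ⟨Function.update b (n + 2) (3 ^ (n + 1) * q), ?_, ?_, ?_⟩
    · rw [Function.update_of_ne (by omega), h2]; ring
    · rw [Function.update_self]
    · intro i hi
      rcases Nat.lt_or_ge i n with hin | hin
      · have := h3 i hin
        simp only [op] at this ⊢
        rw [Function.update_of_ne (a := i + 1) (by omega), Function.update_of_ne (a := i) (by omega),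
          Function.update_of_ne (a := i + 2) (by omega), this]
        ring
      · obtain rfl : i = n := by omega
        simp only [op]
        rw [Function.update_self, Function.update_of_ne (a := i + 1) (by omega),
          Function.update_of_ne (a := i) (by omega), h1, h2]
        ring

theorem green {e : ℕ → ℤ} {a : ℕ → ℝ} (hd : Dat e a) (b : ℕ → ℤ) (n : ℕ) :
    ∑ i ∈ range (n + 1), a i * ((op e b i : ℤ) : ℝ)
      = 3 * (a (n + 1) * b n - a n * b (n + 1)) := by
  induction n with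
  | zero =>
    have := hd.z
    simp only [zero_add, sum_range_one, op]
    push_cast
    linear_combination (b 0 : ℝ) * this
  | succ n ih =>
    have := hd.s n
    rw [sum_range_succ, ih]
    simp only [op]
    push_cast
    linear_combination (b (n + 1) : ℝ) * this

theorem dvd_of_op {e : ℕ → ℤ} {a : ℕ → ℝ} (hd : Dat e a) {b : ℕ → ℤ} {i : ℕ} {m : ℤ}
    (h : op e b i = 3 * m) : (3 : ℤ) ∣ b i := by
  have hp : Prime (3 : ℤ) := Int.prime_three
  have h1 : (3 : ℤ) ∣ e i * b i := by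
    cases i with
    | zero =>
      simp only [op] at h
      exact ⟨m + b 1, by linarith⟩
    | succ i =>
      simp only [op] at h
      exact ⟨m + b i + b (i + 2), by linarith⟩
  rcases hp.dvd_or_dvd h1 with h2 | h2
  · exact absurd h2 (hd.cop i)
  · exact h2

theorem descend {e : ℕ → ℤ} {a : ℕ → ℝ} (hd : Dat e a) (y : ℕ → ℤ) : ∀ (s : ℕ) (B : ℕ → ℤ),
    (∀ i, op e B i = 3 ^ s * y i) → ∃ b : ℕ → ℤ, (∀ i, B i = 0 → b i = 0) ∧ ∀ i, op e b i = y i
  | 0, B, h => ⟨B, fun _ h => h, fun i => by rw [h i]; simp⟩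
  | (s + 1), B, h => by
    have h3 : ∀ i, ∃ c, B i = 3 * c := fun i => dvd_of_op hd (m := 3 ^ s * y i) (by rw [h i]; ring)
    choose B' hB' using h3
    have h4 : ∀ i, op e B' i = 3 ^ s * y i := by
      intro i
      have h5 := h i
      have h6 : op e B i = 3 * op e B' i := by
        cases i with
        | zero => simp only [op, hB']; ring
        | succ i => simp only [op, hB']; ring
      have : 3 * op e B' i = 3 * (3 ^ s * y i) := by rw [← h6, h5]; ring
      linarith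
    obtain ⟨b, hb1, hb2⟩ := descend hd y s B' h4
    refine ⟨b, fun i hi => hb1 i ?_, hb2⟩
    have := hB' i
    omega

theorem exists_b {e : ℕ → ℤ} {a : ℕ → ℝ} (hd : Dat e a) (y : ℕ → ℤ) (n : ℕ)
    (h0 : ∀ i, n ≤ i → y i = 0) (ho : ∑ i ∈ range n, a i * (y i : ℝ) = 0) :
    ∃ b : ℕ → ℤ, (∀ i, n ≤ i → b i = 0) ∧ ∀ i, op e b i = y i := by
  obtain ⟨B, h1, h2, h3⟩ := exists_left e n 0 0 y
  rw [mul_zero] at h1 h2
  obtain ⟨B', hB'⟩ : ∃ B' : ℕ → ℤ, ∀ i, B' i = if i ≤ n + 1 then B i else 0 := ⟨_, fun _ => rfl⟩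
  have hz : ∀ i, n ≤ i → B' i = 0 := by
    intro i hi
    rw [hB']
    split_ifs with h
    · rcases Nat.lt_or_ge i (n + 1) with h4 | h4
      · obtain rfl : i = n := by omega
        exact h1
      · obtain rfl : i = n + 1 := by omega
        exact h2
    · rfl
  have hs : ∀ i, op e B' (i + 1) = 3 ^ n * y (i + 1) := by
    intro i
    rcases Nat.lt_or_ge i n with h | h
    · rw [← h3 i h]
      simp only [op]
      rw [hB', hB', hB', if_pos (by omega), if_pos (by omega), if_pos (by omega)]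
    · simp only [op]
      rw [hz (i + 1) (by omega), hz i h, hz (i + 2) (by omega), h0 _ (by omega)]
      simp
  have hz0 : op e B' 0 = 3 ^ n * y 0 := by
    have hg := green hd B' n
    rw [hz n le_rfl, hz (n + 1) (by omega), sum_range_succ'] at hg
    have ho' : ∑ i ∈ range (n + 1), a i * (y i : ℝ) = 0 := by
      rw [sum_range_succ, ho, h0 n le_rfl]; simp
    rw [sum_range_succ'] at ho'
    have h5 : ∑ i ∈ range n, a (i + 1) * ((op e B' (i + 1) : ℤ) : ℝ)
        = 3 ^ n * ∑ i ∈ range n, a (i + 1) * (y (i + 1) : ℝ) := by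
      rw [mul_sum]
      refine sum_congr rfl fun i _ => ?_
      rw [hs i]; push_cast; ring
    rw [h5] at hg
    have h6 : a 0 * ((op e B' 0 : ℤ) : ℝ) = a 0 * (3 ^ n * y 0) := by
      simp only [Int.cast_zero, mul_zero, sub_zero] at hg
      linear_combination hg - 3 ^ n * ho'
    have ha : a 0 ≠ 0 := by have := hd.one 0; linarith
    have h7 := mul_left_cancel₀ ha h6
    exact_mod_cast h7
  have hall : ∀ i, op e B' i = 3 ^ n * y i := by
    intro i
    cases i with
    | zero => exact hz0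
    | succ i => exact hs i
  obtain ⟨b, hb1, hb2⟩ := descend hd y n B' hall
  exact ⟨b, fun i hi => hb1 i (hz i hi), hb2⟩

theorem uniq {e : ℕ → ℤ} (b : ℕ → ℤ) (n : ℕ) (hb : ∀ i, n ≤ i → b i = 0)
    (h : ∀ i, op e b i = 0) : ∀ i, b i = 0 := by
  have key : ∀ m, m ≤ n → ∀ i, n - m ≤ i → b i = 0 := by
    intro m
    induction m with
    | zero => intro _ i hi; exact hb i (by omega)
    | succ m ih =>
      intro hm i hi
      rcases Nat.lt_or_ge i (n - m) with h1 | h1
      · have h2 := h (i + 1)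
        simp only [op] at h2
        rw [ih (by omega) (i + 1) (by omega), ih (by omega) (i + 2) (by omega)] at h2
        omega
      · exact ih (by omega) i h1
  intro i
  exact key n le_rfl i (by omega)

theorem pow_dvd {e : ℕ → ℤ} {a : ℕ → ℝ} (hd : Dat e a) (b : ℕ → ℤ) : ∀ (r c : ℕ),
    (∀ j, c ≤ j + r → j ≤ c + r → op e b j = 0) → (3 : ℤ) ^ (r + 1) ∣ b c
  | 0, c, h => by
    rw [zero_add, pow_one]
    exact dvd_of_op hd (m := 0) (by rw [h c (by omega) (by omega)]; simp)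
  | (r + 1), c, h => by
    have h1 : (3 : ℤ) ^ (r + 1) ∣ b (c + 1) :=
      pow_dvd hd b r (c + 1) fun j h1 h2 => h j (by omega) (by omega)
    have hc : (3 : ℤ) ^ (r + 2) ∣ e c * b c := by
      have h0 := h c (by omega) (by omega)
      cases c with
      | zero =>
        simp only [op] at h0
        have : e 0 * b 0 = 3 * b 1 := by linarith
        rw [this]
        obtain ⟨m, hm⟩ := h1
        rw [zero_add] at hm
        exact ⟨m, by rw [hm]; ring⟩
      | succ c =>
        have h2 : (3 : ℤ) ^ (r + 1) ∣ b c :=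
          pow_dvd hd b r c fun j h1 h2 => h j (by omega) (by omega)
        simp only [op] at h0
        have : e (c + 1) * b (c + 1) = 3 * (b c + b (c + 2)) := by linarith
        rw [this]
        obtain ⟨m, hm⟩ := h1
        obtain ⟨m', hm'⟩ := h2
        rw [show c + 1 + 1 = c + 2 from rfl] at hm
        exact ⟨m' + m, by rw [hm, hm']; ring⟩
    have hcop : IsCoprime ((3 : ℤ) ^ (r + 2)) (e c) := by
      apply IsCoprime.pow_left
      exact (Int.prime_three.coprime_iff_not_dvd).mpr (hd.cop c)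
    exact hcop.dvd_of_dvd_mul_left hc

theorem pair_sum {e : ℕ → ℤ} (b : ℕ → ℤ) (n : ℕ) :
    ∑ i ∈ range (n + 1), b i * op e b i
      = ∑ i ∈ range (n + 1), e i * b i ^ 2 - 6 * ∑ i ∈ range n, b i * b (i + 1)
        - 3 * (b n * b (n + 1)) := by
  induction n with
  | zero => simp only [zero_add, sum_range_one, range_zero, sum_empty, op]; ring
  | succ n ih =>
    rw [sum_range_succ, ih, sum_range_succ (fun i => e i * b i ^ 2) (n + 1),
      sum_range_succ (fun i => b i * b (i + 1)) n]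
    simp only [op]
    ring

/-- Energy of the potential of a column. -/
theorem pot_energy {e : ℕ → ℤ} {a : ℕ → ℝ} (hd : Dat e a) {C : ℤ} (hC : 0 < C) {y : ℕ → ℤ}
    (hy : Col e C y) (b : ℕ → ℤ) (n : ℕ) (hb : ∀ i, n ≤ i → b i = 0)
    (hop : ∀ i, op e b i = y i) (N : ℕ) :
    ∑ i ∈ range N, ((b i : ℝ) / a i - (b (i + 1) : ℝ) / a (i + 1)) ^ 2 ≤ C / 3 := by
  have hC' : (0 : ℝ) < C := by exact_mod_cast hC
  have hpos : ∀ i, 0 < a i := fun i => by have := hd.one i; linarith
  obtain ⟨h, hh⟩ : ∃ h : ℕ → ℝ, ∀ i, h i = (b i : ℝ) / a i := ⟨_, fun _ => rfl⟩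
  have hbh : ∀ i, (b i : ℝ) = a i * h i := fun i => by
    rw [hh]; field_simp [(hpos i).ne']
  obtain ⟨M, hM1, hM2⟩ : ∃ M, n ≤ M ∧ N ≤ M := ⟨max n N, le_max_left _ _, le_max_right _ _⟩
  set F : ℝ := ∑ i ∈ range (M + 1), (e i : ℝ) * (b i : ℝ) ^ 2
    - 6 * ∑ i ∈ range M, (b i : ℝ) * (b (i + 1) : ℝ) with hF
  have h1 : ∑ i ∈ range (M + 1), (b i : ℝ) * (y i : ℝ) = F := by
    have h2 := pair_sum (e := e) b M
    rw [hb M hM1] at h2
    have h3 := congrArg (fun z : ℤ => (z : ℝ)) h2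
    simp only [hop] at h3
    push_cast at h3
    rw [h3, hF]
    simp
  have h2 := hy (fun i => (b i : ℝ)) M
  rw [h1] at h2
  have hFC : F ≤ C := by
    rcases le_or_gt F 0 with h3 | h3
    · linarith
    · have : F * F ≤ C * F := by rw [← sq]; exact h2
      exact le_of_mul_le_mul_right this h3
  have h3 : F = 3 * ∑ i ∈ range M, a i * a (i + 1) * (h i - h (i + 1)) ^ 2 := by
    have h4 := energy hd h M
    have h5 : h M = 0 := by rw [hh, hb M hM1]; simp
    rw [h5] at h4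
    rw [hF]
    simp only [hbh]
    rw [h4]
    ring
  have h4 : ∑ i ∈ range N, (h i - h (i + 1)) ^ 2
      ≤ ∑ i ∈ range M, a i * a (i + 1) * (h i - h (i + 1)) ^ 2 := by
    calc ∑ i ∈ range N, (h i - h (i + 1)) ^ 2
        ≤ ∑ i ∈ range M, (h i - h (i + 1)) ^ 2 :=
          sum_le_sum_of_subset_of_nonneg (range_subset_range.mpr hM2) (fun i _ _ => sq_nonneg _)
      _ ≤ _ := by
          refine sum_le_sum fun i _ => ?_
          have h5 := hd.one i
          have h6 := hd.one (i + 1)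
          have h7 : 1 ≤ a i * a (i + 1) := by nlinarith
          nlinarith [sq_nonneg (h i - h (i + 1))]
  simp only [← hh]
  linarith

theorem pot_diff {e : ℕ → ℤ} {a : ℕ → ℝ} (hd : Dat e a) {C : ℤ} (hC : 0 < C) {y : ℕ → ℤ}
    (hy : Col e C y) (b : ℕ → ℤ) (n : ℕ) (hb : ∀ i, n ≤ i → b i = 0)
    (hop : ∀ i, op e b i = y i) (c : ℕ) :
    ((b 0 : ℝ) / a 0 - (b c : ℝ) / a c) ^ 2 ≤ c * C / 3 := by
  have h1 := pot_energy hd hC hy b n hb hop c
  have h2 : ∑ i ∈ range c, ((b i : ℝ) / a i - (b (i + 1) : ℝ) / a (i + 1))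
      = (b 0 : ℝ) / a 0 - (b c : ℝ) / a c :=
    sum_range_sub' (fun i => (b i : ℝ) / a i) c
  rw [← h2]
  refine (sq_sum_le_card_mul_sum_sq).trans ?_
  rw [card_range]
  calc (c : ℝ) * ∑ i ∈ range c, ((b i : ℝ) / a i - (b (i + 1) : ℝ) / a (i + 1)) ^ 2
      ≤ (c : ℝ) * (C / 3) := mul_le_mul_of_nonneg_left h1 (by positivity)
    _ = _ := by ring

/-- There is a zero window of the column close to `0`. -/
theorem window {e : ℕ → ℤ} {a : ℕ → ℝ} (hd : Dat e a) {C : ℤ} (hC : 0 < C) {y : ℕ → ℤ}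
    (hy : Col e C y) (r : ℕ) :
    ∃ c, c ≤ ((14 * C).toNat + 1) * (2 * r + 1) ∧ ∀ j, c ≤ j + r → j ≤ c + r → y j = 0 := by
  by_contra hcon
  push Not at hcon
  have h1 : ∀ t : ℕ, t ≤ (14 * C).toNat → ∃ j, j / (2 * r + 1) = t ∧ y j ≠ 0 := by
    intro t ht
    obtain ⟨j, hj1, hj2, hj3⟩ := hcon (t * (2 * r + 1) + r) (by nlinarith)
    refine ⟨j, ?_, hj3⟩
    rw [Nat.div_eq_iff (by omega)]
    constructor
    · omega
    · omega
  choose! f hf1 hf2 using h1
  have hinj : Set.InjOn f (range ((14 * C).toNat + 1)) := by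
    intro s hs t ht hst
    have hs' := mem_range.mp hs
    have ht' := mem_range.mp ht
    rw [← hf1 s (by omega), ← hf1 t (by omega), hst]
  have := col_card hd hC hy ((range ((14 * C).toNat + 1)).image f) (by
    intro i hi
    obtain ⟨t, ht, rfl⟩ := mem_image.mp hi
    have ht' := mem_range.mp ht
    exact hf2 t (by omega))
  rw [card_image_of_injOn hinj, card_range] at this
  omega

/-- If the potential at `0` is large then it is exponentially large. -/
theorem pot_step {e : ℕ → ℤ} {a : ℕ → ℝ} (hd : Dat e a) {C : ℤ} (hC : 0 < C) {y : ℕ → ℤ}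
    (hy : Col e C y) (b : ℕ → ℤ) (n : ℕ) (hb : ∀ i, n ≤ i → b i = 0)
    (hop : ∀ i, op e b i = y i) (r : ℕ)
    (hr : (4 / 3 * C * ((14 * C).toNat + 1)) * (2 * r + 1) ≤ ((b 0 : ℝ) / a 0) ^ 2) :
    (9 : ℝ) ^ (r + 1) ≤ 900 * ((b 0 : ℝ) / a 0) ^ 2 := by
  have hC' : (0 : ℝ) < C := by exact_mod_cast hC
  obtain ⟨c, hc1, hc2⟩ := window hd hC hy r
  have h1 := pot_diff hd hC hy b n hb hop c
  have h2 : (3 : ℤ) ^ (r + 1) ∣ b c := pow_dvd hd b r c fun j hj1 hj2 => by
    rw [hop]; exact hc2 j hj1 hj2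
  set h0 : ℝ := (b 0 : ℝ) / a 0 with hh0
  have hac : 0 < a c := by have := hd.one c; linarith
  obtain ⟨hc, hhc⟩ : ∃ hc : ℝ, hc = (b c : ℝ) / a c := ⟨_, rfl⟩
  rw [← hhc] at h1
  have hc1' : (c : ℝ) ≤ ((14 * C).toNat + 1) * (2 * r + 1) := by exact_mod_cast hc1
  have h3 : (h0 - hc) ^ 2 ≤ (h0 / 2) ^ 2 := by
    have : (c : ℝ) * C ≤ ((14 * C).toNat + 1) * (2 * r + 1) * C :=
      mul_le_mul_of_nonneg_right hc1' hC'.le
    nlinarith
  have h4 : |h0 - hc| ≤ |h0| / 2 := by
    have := sq_le_sq.mp h3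
    rwa [abs_div, abs_two] at this
  have hpos : 0 < h0 ^ 2 := by
    refine lt_of_lt_of_le ?_ hr
    positivity
  have h0ne : 0 < |h0| := abs_pos.mpr (by intro h; rw [h] at hpos; simp at hpos)
  have hcle : |hc| ≤ 3 / 2 * |h0| := by
    have := abs_sub_abs_le_abs_sub hc h0
    rw [abs_sub_comm] at this
    linarith
  have hcge : 0 < |hc| := by
    have := abs_sub_abs_le_abs_sub h0 hc
    linarith
  have hbc : (b c : ℝ) = a c * hc := by rw [hhc]; field_simp
  have hbcne : b c ≠ 0 := by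
    intro h
    rw [h, Int.cast_zero] at hbc
    have : hc = 0 := by
      rcases mul_eq_zero.mp hbc.symm with h | h
      · exact absurd h hac.ne'
      · exact h
    rw [this] at hcge
    simp at hcge
  have h5 : (3 : ℤ) ^ (r + 1) ≤ |b c| :=
    Int.le_of_dvd (abs_pos.mpr hbcne) ((dvd_abs _ _).mpr h2)
  have h6 : (3 : ℝ) ^ (r + 1) ≤ |(b c : ℝ)| := by exact_mod_cast h5
  have h7 : |(b c : ℝ)| ≤ 30 * |h0| := by
    rw [hbc, abs_mul, abs_of_pos hac]
    have := hd.twenty c
    nlinarith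
  have h8 : (3 : ℝ) ^ (r + 1) ≤ 30 * |h0| := h6.trans h7
  calc (9 : ℝ) ^ (r + 1) = ((3 : ℝ) ^ (r + 1)) ^ 2 := by
        rw [← pow_mul, mul_comm, pow_mul]; norm_num
    _ ≤ (30 * |h0|) ^ 2 := pow_le_pow_left₀ (by positivity) h8 2
    _ = 900 * h0 ^ 2 := by rw [mul_pow, sq_abs]; norm_num

/-- Uniform bound for the potential at `0`. -/
theorem pot_bound (C : ℤ) (hC : 0 < C) : ∃ D : ℝ, ∀ (e : ℕ → ℤ) (a : ℕ → ℝ), Dat e a →
    ∀ y : ℕ → ℤ, Col e C y → ∀ (b : ℕ → ℤ) (n : ℕ), (∀ i, n ≤ i → b i = 0) →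
    (∀ i, op e b i = y i) → ((b 0 : ℝ) / a 0) ^ 2 ≤ D := by
  have hC' : (0 : ℝ) < C := by exact_mod_cast hC
  set κ : ℝ := 4 / 3 * C * ((14 * C).toNat + 1) with hκ
  have hκ0 : 0 < κ := by positivity
  obtain ⟨r₀, hr₀⟩ := pow_unbounded_of_one_lt (900 * κ) (by norm_num : (1 : ℝ) < 3)
  refine ⟨κ * (2 * r₀ + 1), ?_⟩
  intro e a hd y hy b n hb hop
  by_contra hcon
  push Not at hcon
  set h0 : ℝ := (b 0 : ℝ) / a 0 with hh0
  have key : ∀ r : ℕ, r₀ ≤ r → κ * (2 * r + 1) ≤ h0 ^ 2 := by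
    intro r hr
    induction r, hr using Nat.le_induction with
    | base => exact hcon.le
    | succ r hr ih =>
      have h1 := pot_step hd hC hy b n hb hop r (by rw [← hκ]; exact ih)
      rw [← hh0] at h1
      have h2 : (1 : ℝ) + ((r + 1 : ℕ) : ℝ) * 2 ≤ (1 + 2) ^ (r + 1) :=
        one_add_mul_le_pow (by norm_num) (r + 1)
      have h3 : (3 : ℝ) ^ r₀ ≤ 3 ^ (r + 1) := pow_le_pow_right₀ (by norm_num) (by omega)
      have h4 : (9 : ℝ) ^ (r + 1) = 3 ^ (r + 1) * 3 ^ (r + 1) := by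
        rw [← mul_pow]; norm_num
      rw [show (1 + 2 : ℝ) = 3 by norm_num] at h2
      have h5 : 900 * κ * (1 + ((r + 1 : ℕ) : ℝ) * 2) ≤ 9 ^ (r + 1) := by
        rw [h4]
        apply mul_le_mul (by linarith) h2 (by positivity) (by positivity)
      push_cast at h5 ⊢
      nlinarith
  obtain ⟨m, hm⟩ := exists_nat_gt (h0 ^ 2 / κ)
  have h1 := key (m + r₀) (by omega)
  rw [div_lt_iff₀ hκ0] at hm
  push_cast at h1
  have : (0 : ℝ) ≤ r₀ := by positivity
  have : (0 : ℝ) ≤ m := by positivity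
  nlinarith

/-- Uniform localisation: if the potential does not vanish at `0`, the column has a nonzero
entry at a bounded place. -/
theorem near (C : ℤ) (hC : 0 < C) : ∃ m : ℕ, ∀ (e : ℕ → ℤ) (a : ℕ → ℝ), Dat e a →
    ∀ y : ℕ → ℤ, Col e C y → ∀ (b : ℕ → ℤ) (n : ℕ), (∀ i, n ≤ i → b i = 0) →
    (∀ i, op e b i = y i) → b 0 ≠ 0 → ∃ j, j ≤ m ∧ y j ≠ 0 := by
  obtain ⟨D, hD⟩ := pot_bound C hC
  obtain ⟨m, hm⟩ := pow_unbounded_of_one_lt (400 * D) (by norm_num : (1 : ℝ) < 3)
  refine ⟨m, ?_⟩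
  intro e a hd y hy b n hb hop hb0
  by_contra hcon
  push Not at hcon
  have h1 : (3 : ℤ) ^ (m + 1) ∣ b 0 := pow_dvd hd b m 0 fun j _ hj => by
    rw [hop]; exact hcon j (by omega)
  have h2 : (3 : ℤ) ^ (m + 1) ≤ |b 0| :=
    Int.le_of_dvd (abs_pos.mpr hb0) ((dvd_abs _ _).mpr h1)
  have h3 : (3 : ℝ) ^ (m + 1) ≤ |(b 0 : ℝ)| := by exact_mod_cast h2
  have h4 := hD e a hd y hy b n hb hop
  have ha : 0 < a 0 := by have := hd.one 0; linarith
  have h5 : (b 0 : ℝ) ^ 2 ≤ 400 * D := by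
    rw [div_pow, div_le_iff₀ (by positivity)] at h4
    have h6 : a 0 ^ 2 ≤ 400 := by
      have := hd.twenty 0
      nlinarith
    have h7 : 0 ≤ D := by
      by_contra h8
      push Not at h8
      have := sq_nonneg (b 0 : ℝ)
      have : 0 < a 0 ^ 2 := by positivity
      nlinarith
    nlinarith
  have h6 : (1 : ℝ) ≤ |(b 0 : ℝ)| := by
    have : (1 : ℝ) ≤ 3 ^ (m + 1) := one_le_pow₀ (by norm_num)
    linarith
  have h7 : |(b 0 : ℝ)| ≤ (b 0 : ℝ) ^ 2 := by
    rw [← sq_abs]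
    nlinarith
  have h8 : (3 : ℝ) ^ m ≤ 3 ^ (m + 1) := pow_le_pow_right₀ (by norm_num) (by omega)
  linarith

theorem op_sum {e : ℕ → ℤ} (s : Finset ℕ) (f : ℕ → ℕ → ℤ) (i : ℕ) :
    op e (fun i => ∑ k ∈ s, f k i) i = ∑ k ∈ s, op e (f k) i := by
  cases i with
  | zero => simp only [op, mul_sum, sum_sub_distrib]
  | succ i => simp only [op, mul_sum, sum_sub_distrib]

theorem op_mul {e : ℕ → ℤ} (f : ℕ → ℤ) (x : ℤ) (i : ℕ) :
    op e (fun i => f i * x) i = op e f i * x := by
  cases i with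
  | zero => simp only [op]; ring
  | succ i => simp only [op]; ring

theorem op_sub {e : ℕ → ℤ} (f g : ℕ → ℤ) (i : ℕ) :
    op e (fun i => f i - g i) i = op e f i - op e g i := by
  cases i with
  | zero => simp only [op]; ring
  | succ i => simp only [op]; ring

theorem op_delta {e : ℕ → ℤ} (C : ℤ) (j i : ℕ) :
    op e (fun i => if i = j then C else 0) i = C * gram e i j := by
  cases i with
  | zero =>
    simp only [op, gram]
    rcases Nat.lt_or_ge j 2 with h | h
    · interval_cases j <;> simp <;> ring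
    · rw [if_neg (by omega), if_neg (by omega), if_neg (by omega), if_neg (by omega)]; ring
  | succ i =>
    simp only [op, gram]
    by_cases h1 : i + 1 = j
    · rw [if_pos h1, if_neg (by omega), if_neg (by omega), if_pos h1]; ring
    · rw [if_neg h1, if_neg h1]
      by_cases h2 : i = j
      · rw [if_pos h2, if_neg (by omega), if_pos (by omega)]; ring
      · rw [if_neg h2]
        by_cases h3 : i + 2 = j
        · rw [if_pos h3, if_pos (by omega)]; ring
        · rw [if_neg h3, if_neg (by omega)]; ring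

/-- **Main theorem on infinite chains.** -/
theorem no_chain {e : ℕ → ℤ} {a : ℕ → ℝ} (hd : Dat e a) {C : ℤ} (hC : 0 < C) (X : ℕ → ℕ → ℤ)
    (L : ℕ → ℕ) (hL : Monotone L) (hX : ∀ i k, L i ≤ k → X i k = 0)
    (hG : ∀ n i j, i ≤ n → j ≤ n → ∑ k ∈ range (L n), X i k * X j k = C * gram e i j) :
    False := by
  have hcol : ∀ k, Col e C (fun i => X i k) := by
    intro k w n
    rcases Nat.lt_or_ge k (L n) with h | h
    · exact coord_sq (L n) X w n (fun i hi j hj => hG n i j hi hj) k h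
    · rw [← norm_sq (L n) X w n (fun i hi j hj => hG n i j hi hj)]
      have h1 : ∑ i ∈ range (n + 1), w i * (X i k : ℝ) = 0 := by
        refine sum_eq_zero fun i hi => ?_
        have hi' := mem_range.mp hi
        rw [hX i k ((hL (by omega)).trans h)]
        simp
      rw [h1]
      simp only [ne_eq, OfNat.ofNat_ne_zero, not_false_eq_true, zero_pow]
      exact sum_nonneg fun k _ => sq_nonneg _
  have hfin : ∀ k, ∃ n, (∀ i, n ≤ i → X i k = 0) ∧ ∃ b : ℕ → ℤ, (∀ i, n ≤ i → b i = 0) ∧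
      ∀ i, op e b i = X i k := by
    intro k
    obtain ⟨n, hn⟩ := col_fin hd hC (hcol k)
    exact ⟨n, hn, exists_b hd (fun i => X i k) n hn (orth hd hC (hcol k) n hn)⟩
  choose n hn b hb hop using hfin
  obtain ⟨m, hm⟩ := near C hC
  have hbz : ∀ k, L m ≤ k → b k 0 = 0 := by
    intro k hk
    by_contra h
    obtain ⟨j, hj1, hj2⟩ := hm e a hd _ (hcol k) (b k) (n k) (hb k) (hop k) h
    exact hj2 (hX j k ((hL hj1).trans hk))
  have hz : ∀ j, ∑ k ∈ range (L j), b k 0 * X j k = if j = 0 then C else 0 := by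
    intro j
    obtain ⟨N, hN1, hN2⟩ : ∃ N, j < N ∧ ∀ k ∈ range (L j), n k ≤ N :=
      ⟨max (j + 1) ((range (L j)).sup n), lt_of_lt_of_le (Nat.lt_succ_self j) (le_max_left _ _),
        fun k hk => (le_sup hk).trans (le_max_right _ _)⟩
    have h := uniq (e := e) (fun i => (∑ k ∈ range (L j), b k i * X j k) - if i = j then C else 0) N
      (by
        intro i hi
        have h1 : ∑ k ∈ range (L j), b k i * X j k = 0 := by
          refine sum_eq_zero fun k hk => ?_
          rw [hb k i ((hN2 k hk).trans hi)]; simp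
        simp only [h1]
        rw [if_neg (by omega)]; simp)
      (by
        intro i
        rw [op_sub, op_sum, op_delta]
        have h1 : ∑ k ∈ range (L j), op e (fun i => b k i * X j k) i
            = ∑ k ∈ range (L j), X i k * X j k := by
          refine sum_congr rfl fun k _ => ?_
          rw [op_mul, hop]
        have h2 : ∑ k ∈ range (L j), X i k * X j k = ∑ k ∈ range (L (max i j)), X i k * X j k := by
          apply sum_subset (range_subset_range.mpr (hL (le_max_right _ _)))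
          intro k _ hk
          rw [mem_range, not_lt] at hk
          rw [hX j k hk, mul_zero]
        rw [h1, h2, hG _ _ _ (le_max_left _ _) (le_max_right _ _), sub_self])
      0
    rw [sub_eq_zero] at h
    rw [h]
    by_cases hj : j = 0
    · rw [if_pos hj, if_pos hj.symm]
    · rw [if_neg hj, if_neg (fun h => hj h.symm)]
  have hz' : ∀ j, ∑ k ∈ range (L m), b k 0 * X j k = if j = 0 then C else 0 := by
    intro j
    rw [← hz j]
    have h1 : ∑ k ∈ range (L m), b k 0 * X j k = ∑ k ∈ range (max (L m) (L j)), b k 0 * X j k := by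
      apply sum_subset (range_subset_range.mpr (le_max_left _ _))
      intro k _ hk
      rw [mem_range, not_lt] at hk
      rw [hbz k hk, zero_mul]
    have h2 : ∑ k ∈ range (L j), b k 0 * X j k = ∑ k ∈ range (max (L m) (L j)), b k 0 * X j k := by
      apply sum_subset (range_subset_range.mpr (le_max_right _ _))
      intro k _ hk
      rw [mem_range, not_lt] at hk
      rw [hX j k hk, mul_zero]
    rw [h1, h2]
  obtain ⟨J, hJ1, hJ2⟩ : ∃ J, 0 < J ∧ ∀ k ∈ range (L m), n k ≤ J :=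
    ⟨max 1 ((range (L m)).sup n), lt_of_lt_of_le Nat.one_pos (le_max_left _ _),
      fun k hk => (le_sup hk).trans (le_max_right _ _)⟩
  have e1 : ∑ j ∈ range J, a j * ((∑ k ∈ range (L m), b k 0 * X j k : ℤ) : ℝ) = a 0 * C := by
    rw [sum_eq_single 0]
    · rw [hz' 0]; simp
    · intro j _ hj
      rw [hz' j, if_neg hj]; simp
    · intro h
      exact absurd (mem_range.mpr hJ1) h
  have e2 : ∑ j ∈ range J, a j * ((∑ k ∈ range (L m), b k 0 * X j k : ℤ) : ℝ) = 0 := by
    push_cast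
    simp_rw [mul_sum]
    rw [sum_comm]
    refine sum_eq_zero fun k hk => ?_
    have h1 := orth hd hC (hcol k) J (fun i hi => hn k i ((hJ2 k hk).trans hi))
    calc ∑ j ∈ range J, a j * ((b k 0 : ℝ) * (X j k : ℝ))
        = (b k 0 : ℝ) * ∑ j ∈ range J, a j * (X j k : ℝ) := by
          rw [mul_sum]; exact sum_congr rfl fun j _ => by ring
      _ = 0 := by rw [h1, mul_zero]
  rw [e1] at e2
  have h1 : 0 < a 0 := by have := hd.one 0; linarith
  have h2 : (0 : ℝ) < C := by exact_mod_cast hC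
  have : 0 < a 0 * C := mul_pos h1 h2
  linarith

end Pool.Agent.S07646.Chn

namespace Pool.Agent.S07646.Ctl

open Pool.Agent.S07646.Chn

/-- Admissible values of the weights. -/
def Adm (e : ℤ) : Prop := e = 1 ∨ e = 2 ∨ e = 4 ∨ e = 5 ∨ e = 7 ∨ e = 8

/-- The invariant region. -/
def Ok (p : ℝ × ℝ) : Prop :=
  1 ≤ p.1 ∧ p.1 ≤ 20 ∧ 7 * p.1 + 8 ≤ 15 * p.2 ∧ p.2 ≤ 20 ∧
    (4 * p.2 - 3 * p.1 ≤ 60 ∨ 7 * p.2 + 8 ≤ 10 * p.2 - 15 * p.1)

theorem step (p : ℝ × ℝ) (h : Ok p) : ∃ e : ℤ, Adm e ∧ Ok (p.2, (e : ℝ) / 3 * p.2 - p.1) := by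
  obtain ⟨x, y⟩ := p
  obtain ⟨h1, h2, h3, h4, h5⟩ := h
  simp only at h1 h2 h3 h4 h5
  have fin : ∀ e : ℤ, Adm e → 7 * y + 8 ≤ 15 * ((e : ℝ) / 3 * y - x) → (e : ℝ) / 3 * y - x ≤ 20 →
      (e : ℝ) ≤ 8 → Ok (y, (e : ℝ) / 3 * y - x) := by
    intro e _ ha hb hc
    refine ⟨by simp only; linarith, h4, ha, hb, Or.inl ?_⟩
    simp only
    have hy : 0 < y := by linarith
    have : (e : ℝ) / 3 * y ≤ 8 / 3 * y := by
      apply mul_le_mul_of_nonneg_right _ hy.le
      linarith
    linarith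
  rcases le_or_gt (8 / 3 * y - x) 20 with h8 | h8
  · exact ⟨8, by simp [Adm], fin 8 (by simp [Adm]) (by push_cast; linarith) (by push_cast; linarith)
      (by norm_num)⟩
  rcases le_or_gt (7 / 3 * y - x) 20 with h7 | h7
  · exact ⟨7, by simp [Adm], fin 7 (by simp [Adm]) (by push_cast; linarith) (by push_cast; linarith)
      (by norm_num)⟩
  rcases le_or_gt (5 / 3 * y - x) 20 with h6 | h6
  · exact ⟨5, by simp [Adm], fin 5 (by simp [Adm]) (by push_cast; linarith) (by push_cast; linarith)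
      (by norm_num)⟩
  rcases le_or_gt (4 / 3 * y - x) 20 with h9 | h9
  · exact ⟨4, by simp [Adm], fin 4 (by simp [Adm]) (by push_cast; linarith) (by push_cast; linarith)
      (by norm_num)⟩
  rcases le_or_gt (2 / 3 * y - x) 20 with h10 | h10
  · refine ⟨2, by simp [Adm], fin 2 (by simp [Adm]) ?_ (by push_cast; linarith)
      (by norm_num)⟩
    push_cast
    rcases h5 with h5 | h5
    · linarith
    · linarith
  · exact ⟨1, by simp [Adm], fin 1 (by simp [Adm]) (by push_cast; linarith) (by push_cast; linarith)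
      (by norm_num)⟩

theorem exists_dat : ∃ (e : ℕ → ℤ) (a : ℕ → ℝ), Dat e a ∧ e 0 = 4 ∧ ∀ i, Adm (e i) := by
  choose! f hf1 hf2 using step
  obtain ⟨s, hs⟩ : ∃ s : ℕ → ℝ × ℝ, s = fun n =>
      Nat.rec (3, 4) (fun _ p => (p.2, (f p : ℝ) / 3 * p.2 - p.1)) n := ⟨_, rfl⟩
  have hs0 : s 0 = (3, 4) := congrFun hs 0
  have hs1 : ∀ n, s (n + 1) = ((s n).2, (f (s n) : ℝ) / 3 * (s n).2 - (s n).1) := by
    intro n; exact congrFun hs (n + 1) |>.trans (by rw [hs])
  have hok : ∀ n, Ok (s n) := by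
    intro n
    induction n with
    | zero => rw [hs0]; refine ⟨?_, ?_, ?_, ?_, Or.inl ?_⟩ <;> norm_num
    | succ n ih => rw [hs1]; exact hf2 _ ih
  obtain ⟨e, he⟩ : ∃ e : ℕ → ℤ, ∀ i, e i = if i = 0 then 4 else f (s (i - 1)) := ⟨_, fun _ => rfl⟩
  have hadm : ∀ i, Adm (e i) := by
    intro i
    rw [he]
    split_ifs with h
    · simp [Adm]
    · exact hf1 _ (hok _)
  refine ⟨e, fun i => (s i).1, ?_, by rw [he]; simp, hadm⟩
  constructor
  · intro i
    rcases hadm i with h | h | h | h | h | h <;> rw [h] <;> decide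
  · intro i
    rcases hadm i with h | h | h | h | h | h <;> rw [h] <;> decide
  · intro i; exact (hok i).1
  · intro i; exact (hok i).2.1
  · rw [he, hs1 0, hs0]; norm_num
  · intro i
    rw [he, if_neg (by omega), hs1 (i + 1), hs1 i]
    simp only [Nat.add_sub_cancel]
    ring

end Pool.Agent.S07646.Ctl

namespace Pool.Agent.S07646.Cpt

open Finset Filter Pool.Agent.S07646.Chn

/-- Relabelling of the coordinates by first appearance. -/
theorem relabel {e : ℕ → ℤ} (he : ∀ i, e i ≤ 8) {C : ℤ} (hC : 0 < C) (n m : ℕ)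
    (Y : ℕ → Fin m → ℤ) (hY : ∀ i j, i ≤ n → j ≤ n → ∑ k, Y i k * Y j k = C * gram e i j) :
    ∃ X : ℕ → ℕ → ℤ, (∀ i k, (8 * C).toNat * (i + 1) ≤ k → X i k = 0) ∧
      (∀ i k, X i k ∈ Set.Icc (-(8 * C)) (8 * C)) ∧
      ∀ N i j, i ≤ N → j ≤ N → N ≤ n →
        ∑ k ∈ range ((8 * C).toNat * (N + 1)), X i k * X j k = C * gram e i j := by
  classical
  have hsq : ∀ i, i ≤ n → ∑ k, Y i k ^ 2 ≤ 8 * C := by
    intro i hi
    have h1 : ∑ k, Y i k ^ 2 = C * e i := by
      have := hY i i hi hi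
      simp only [gram, if_true] at this
      rw [← this]
      exact sum_congr rfl fun k _ => by ring
    rw [h1]
    have := he i
    nlinarith
  have hsupp : ∀ i, i ≤ n → ((univ.filter fun k => Y i k ≠ 0).card : ℤ) ≤ 8 * C := by
    intro i hi
    calc ((univ.filter fun k => Y i k ≠ 0).card : ℤ) = ∑ k ∈ univ.filter (fun k => Y i k ≠ 0), (1 : ℤ) := by
          simp
      _ ≤ ∑ k ∈ univ.filter (fun k => Y i k ≠ 0), Y i k ^ 2 := by
          refine sum_le_sum fun k hk => ?_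
          have := (mem_filter.mp hk).2
          have h2 : 0 < Y i k ^ 2 := by positivity
          omega
      _ ≤ ∑ k, Y i k ^ 2 :=
          sum_le_sum_of_subset_of_nonneg (filter_subset _ _) (fun i _ _ => sq_nonneg _)
      _ ≤ 8 * C := hsq i hi
  have hbd : ∀ i, i ≤ n → ∀ k, Y i k ∈ Set.Icc (-(8 * C)) (8 * C) := by
    intro i hi k
    have h1 : Y i k ^ 2 ≤ 8 * C :=
      (single_le_sum (f := fun k => Y i k ^ 2) (fun k _ => sq_nonneg _) (mem_univ k)).trans (hsq i hi)
    have h2 : |Y i k| ≤ Y i k ^ 2 := by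
      rw [← sq_abs]
      rcases eq_or_lt_of_le (abs_nonneg (Y i k)) with h | h
      · rw [← h]; simp
      · nlinarith
    exact abs_le.mp (h2.trans h1)
  obtain ⟨f, hf⟩ : ∃ f : Fin m → ℕ, ∀ k, f k = if h : ∃ i, i ≤ n ∧ Y i k ≠ 0 then Nat.find h else n + 1 :=
    ⟨_, fun _ => rfl⟩
  have hf1 : ∀ k i, i ≤ n → Y i k ≠ 0 → f k ≤ i := by
    intro k i hi hk
    rw [hf, dif_pos ⟨i, hi, hk⟩]
    exact Nat.find_min' _ ⟨hi, hk⟩
  have hf2 : ∀ k i, i ≤ n → f k ≤ i → ∃ l, l ≤ i ∧ Y l k ≠ 0 := by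
    intro k i hi hk
    rw [hf] at hk
    split_ifs at hk with h
    · exact ⟨_, hk, (Nat.find_spec h).2⟩
    · omega
  set σ := Tuple.sort f with hσ
  have hmono : Monotone (f ∘ σ) := Tuple.monotone_sort f
  have hpos : ∀ i (k : Fin m), i ≤ n → Y i (σ k) ≠ 0 → (k : ℕ) < (8 * C).toNat * (i + 1) := by
    intro i k hi hk
    have h1 : (Finset.Iic k).image σ ⊆ (range (i + 1)).biUnion fun l => univ.filter fun k => Y l k ≠ 0 := by
      intro q hq
      obtain ⟨k', hk', rfl⟩ := mem_image.mp hq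
      have h2 : f (σ k') ≤ i := (hmono (mem_Iic.mp hk')).trans (hf1 _ i hi hk)
      obtain ⟨l, hl1, hl2⟩ := hf2 _ i hi h2
      exact mem_biUnion.mpr ⟨l, mem_range.mpr (by omega), mem_filter.mpr ⟨mem_univ _, hl2⟩⟩
    have h2 := card_le_card h1
    rw [card_image_of_injective _ σ.injective, Fin.card_Iic] at h2
    have h3 : ((range (i + 1)).biUnion fun l => univ.filter fun k => Y l k ≠ 0).card
        ≤ ∑ l ∈ range (i + 1), (8 * C).toNat := by
      refine card_biUnion_le.trans (sum_le_sum fun l hl => ?_)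
      have := hsupp l (by have := mem_range.mp hl; omega)
      omega
    rw [sum_const, card_range, smul_eq_mul] at h3
    have : (8 * C).toNat * (i + 1) = (i + 1) * (8 * C).toNat := mul_comm _ _
    omega
  obtain ⟨X, hX⟩ : ∃ X : ℕ → ℕ → ℤ, ∀ i k, X i k =
      if h : i ≤ n ∧ k < m then Y i (σ ⟨k, h.2⟩) else 0 := ⟨_, fun _ _ => rfl⟩
  have hX0 : ∀ i k, (8 * C).toNat * (i + 1) ≤ k → X i k = 0 := by
    intro i k hk
    rw [hX]
    split_ifs with h
    · by_contra hne
      have := hpos i ⟨k, h.2⟩ h.1 hne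
      simp only at this
      omega
    · rfl
  refine ⟨X, hX0, ?_, ?_⟩
  · intro i k
    rw [hX]
    split_ifs with h
    · exact hbd i h.1 _
    · constructor <;> omega
  · intro N i j hi hj hN
    have hmz : ∀ k, m ≤ k → X i k = 0 := by
      intro k hk
      rw [hX, dif_neg (by omega)]
    set K := (8 * C).toNat * (N + 1) with hK
    have h1 : ∑ k ∈ range K, X i k * X j k = ∑ k ∈ range (max K m), X i k * X j k := by
      apply sum_subset (range_subset_range.mpr (le_max_left _ _))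
      intro k _ hk
      rw [mem_range, not_lt] at hk
      rw [hX0 i k ((Nat.mul_le_mul_left _ (by omega)).trans hk), zero_mul]
    have h2 : ∑ k ∈ range m, X i k * X j k = ∑ k ∈ range (max K m), X i k * X j k := by
      apply sum_subset (range_subset_range.mpr (le_max_right _ _))
      intro k _ hk
      rw [mem_range, not_lt] at hk
      rw [hmz k hk, zero_mul]
    rw [h1, ← h2, sum_range]
    have h3 : ∑ k : Fin m, X i k * X j k = ∑ k : Fin m, Y i (σ k) * Y j (σ k) := by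
      refine sum_congr rfl fun k _ => ?_
      rw [hX, hX, dif_pos ⟨by omega, k.2⟩, dif_pos ⟨by omega, k.2⟩]
    rw [h3, Equiv.sum_comp σ (fun k => Y i k * Y j k)]
    exact hY i j (by omega) (by omega)

/-- Compactness: finite windows of bounded representations give an infinite one. -/
theorem compact {e : ℕ → ℤ} (he : ∀ i, e i ≤ 8) {C : ℤ} (hC : 0 < C)
    (h : ∀ n, ∃ (m : ℕ) (Y : ℕ → Fin m → ℤ),
      ∀ i j, i ≤ n → j ≤ n → ∑ k, Y i k * Y j k = C * gram e i j) :
    ∃ X : ℕ → ℕ → ℤ, (∀ i k, (8 * C).toNat * (i + 1) ≤ k → X i k = 0) ∧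
      ∀ N i j, i ≤ N → j ≤ N →
        ∑ k ∈ range ((8 * C).toNat * (N + 1)), X i k * X j k = C * gram e i j := by
  choose m Y hY using h
  choose Z hZ1 hZ2 hZ3 using fun n => relabel he hC n (m n) (Y n) (hY n)
  have hlim : ∀ i k, ∃ v : ℤ, ∀ᶠ n in hyperfilter ℕ, Z n i k = v := by
    intro i k
    have h1 : ∀ᶠ n in hyperfilter ℕ, ∃ v ∈ Set.Icc (-(8 * C)) (8 * C), Z n i k = v :=
      Eventually.of_forall fun n => ⟨_, hZ2 n i k, rfl⟩
    rw [Ultrafilter.eventually_exists_mem_iff (Set.finite_Icc _ _)] at h1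
    obtain ⟨v, _, hv⟩ := h1
    exact ⟨v, hv⟩
  choose X hX using hlim
  refine ⟨X, ?_, ?_⟩
  · intro i k hk
    have h1 := hX i k
    have h2 : ∀ᶠ _n : ℕ in (hyperfilter ℕ : Filter ℕ), X i k = 0 := by
      filter_upwards [h1] with n hn
      rw [← hn]; exact hZ1 n i k hk
    obtain ⟨_, h3⟩ := h2.exists
    exact h3
  · intro N i j hi hj
    have h1 : ∀ᶠ n in hyperfilter ℕ, ∀ k ∈ range ((8 * C).toNat * (N + 1)),
        Z n i k = X i k ∧ Z n j k = X j k := by
      rw [eventually_all_finset]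
      intro k _
      exact (hX i k).and (hX j k)
    have h2 : ∀ᶠ n in hyperfilter ℕ, N ≤ n :=
      Nat.hyperfilter_le_atTop (eventually_ge_atTop N)
    obtain ⟨n, hn1, hn2⟩ := (h1.and h2).exists
    rw [← hZ3 n N i j hi hj hn2]
    refine sum_congr rfl fun k hk => ?_
    rw [(hn1 k hk).1, (hn1 k hk).2]

end Pool.Agent.S07646.Cpt

namespace Pool.Agent.S07646.Trn

open Finset

/-- Transport of the integrability hypothesis to an arbitrary finite vertex type. -/
theorem transport {c : ℕ}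
    (H : ∀ (n : ℕ) (G : SimpleGraph (Fin n)) [DecidableRel G.Adj],
        (G.adjMatrix ℝ + (3 : ℝ) • (1 : Matrix (Fin n) (Fin n) ℝ)).PosSemidef →
        ∀ k : ℤ,
          (G.adjMatrix ℝ - (k : ℝ) • (1 : Matrix (Fin n) (Fin n) ℝ)).PosSemidef →
          ¬ (G.adjMatrix ℝ - ((k : ℝ) + 1) • (1 : Matrix (Fin n) (Fin n) ℝ)).PosSemidef →
          ∃ (m : ℕ) (N : Matrix (Fin n) (Fin m) ℤ),
            (c : ℤ) • (G.adjMatrix ℤ - k • (1 : Matrix (Fin n) (Fin n) ℤ)) = N * N.transpose)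
    {V : Type} [Fintype V] [DecidableEq V] (adj : V → V → Prop) [DecidableRel adj]
    (hs : ∀ u v, adj u v → adj v u) (hl : ∀ v, ¬ adj v v)
    (h3 : ∀ x : V → ℝ, 0 ≤ ∑ u, ∑ v, x u * x v * ((if adj u v then 1 else 0) + if u = v then 3 else 0))
    (h2 : ∃ x : V → ℝ, ∑ u, ∑ v, x u * x v * ((if adj u v then 1 else 0) + if u = v then 2 else 0) < 0) :
    ∃ (m : ℕ) (N : V → Fin m → ℤ), ∀ u v,
      ∑ k, N u k * N v k = c * ((if adj u v then 1 else 0) + if u = v then 3 else 0) := by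
  classical
  obtain ⟨φ⟩ : Nonempty (V ≃ Fin (Fintype.card V)) := ⟨Fintype.equivFin V⟩
  let G : SimpleGraph (Fin (Fintype.card V)) :=
    { Adj := fun a b => adj (φ.symm a) (φ.symm b)
      symm := ⟨fun a b h => hs _ _ h⟩
      loopless := ⟨fun a h => hl _ h⟩ }
  have hGadj : ∀ a b, G.Adj a b ↔ adj (φ.symm a) (φ.symm b) := fun _ _ => Iff.rfl
  have hA : ∀ a b, G.adjMatrix ℝ a b = if adj (φ.symm a) (φ.symm b) then 1 else 0 := by
    intro a b
    rw [SimpleGraph.adjMatrix_apply]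
  have hAZ : ∀ a b, G.adjMatrix ℤ a b = if adj (φ.symm a) (φ.symm b) then 1 else 0 := by
    intro a b
    rw [SimpleGraph.adjMatrix_apply]
  have hherm : ∀ t : ℝ, (G.adjMatrix ℝ + t • (1 : Matrix (Fin (Fintype.card V)) (Fin (Fintype.card V)) ℝ)).IsHermitian := by
    intro t
    ext a b
    simp only [Matrix.conjTranspose_apply, Matrix.add_apply, hA,
      Matrix.smul_apply, Matrix.one_apply, smul_eq_mul, star_trivial]
    by_cases h : a = b
    · subst h; rfl
    · have hba : ¬ b = a := fun h' => h h'.symm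
      rw [if_neg h, if_neg hba]
      by_cases h' : adj (φ.symm a) (φ.symm b)
      · rw [if_pos h', if_pos (hs _ _ h')]
      · rw [if_neg h', if_neg (fun h'' => h' (hs _ _ h''))]
  have hquad : ∀ (t : ℝ) (x : Fin (Fintype.card V) → ℝ),
      star x ⬝ᵥ ((G.adjMatrix ℝ + t • (1 : Matrix (Fin (Fintype.card V)) (Fin (Fintype.card V)) ℝ)).mulVec x)
        = ∑ u, ∑ v, x (φ u) * x (φ v) * ((if adj u v then 1 else 0) + if u = v then t else 0) := by
    intro t x
    simp only [dotProduct, Matrix.mulVec, star_trivial, mul_sum, Matrix.add_apply,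
      hA, Matrix.smul_apply, Matrix.one_apply, smul_eq_mul]
    rw [← Equiv.sum_comp φ]
    refine sum_congr rfl fun u _ => ?_
    rw [← Equiv.sum_comp φ]
    refine sum_congr rfl fun v _ => ?_
    simp only [Equiv.symm_apply_apply, φ.injective.eq_iff]
    split_ifs <;> ring
  have hm3 : G.adjMatrix ℝ - ((-3 : ℤ) : ℝ) • (1 : Matrix (Fin (Fintype.card V)) (Fin (Fintype.card V)) ℝ)
      = G.adjMatrix ℝ + (3 : ℝ) • 1 := by
    push_cast
    rw [neg_smul, sub_neg_eq_add]
  have hm2 : G.adjMatrix ℝ - (((-3 : ℤ) : ℝ) + 1) • (1 : Matrix (Fin (Fintype.card V)) (Fin (Fintype.card V)) ℝ)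
      = G.adjMatrix ℝ + (2 : ℝ) • 1 := by
    push_cast
    rw [show (-3 + 1 : ℝ) = -2 by norm_num, neg_smul, sub_neg_eq_add]
  have hP : (G.adjMatrix ℝ + (3 : ℝ) • (1 : Matrix (Fin (Fintype.card V)) (Fin (Fintype.card V)) ℝ)).PosSemidef := by
    apply Matrix.PosSemidef.of_dotProduct_mulVec_nonneg (hherm 3)
    intro x
    rw [hquad]
    exact h3 (fun u => x (φ u))
  have hN : ¬ (G.adjMatrix ℝ + (2 : ℝ) • (1 : Matrix (Fin (Fintype.card V)) (Fin (Fintype.card V)) ℝ)).PosSemidef := by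
    intro h
    obtain ⟨x, hx⟩ := h2
    have h4 := h.dotProduct_mulVec_nonneg (fun a => x (φ.symm a))
    rw [hquad] at h4
    simp only [Equiv.symm_apply_apply] at h4
    linarith
  obtain ⟨m, N, hNN⟩ := H (Fintype.card V) G hP (-3) (by rw [hm3]; exact hP) (by rw [hm2]; exact hN)
  refine ⟨m, fun u k => N (φ u) k, fun u v => ?_⟩
  have h5 := congrFun (congrFun hNN (φ u)) (φ v)
  rw [Matrix.mul_apply] at h5
  simp only [Matrix.transpose_apply, Matrix.smul_apply, Matrix.sub_apply,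
    hAZ, Matrix.one_apply, smul_eq_mul, Equiv.symm_apply_apply,
    φ.injective.eq_iff] at h5
  rw [← h5]
  split_ifs <;> simp

end Pool.Agent.S07646.Trn

namespace Pool.Agent.S07646.Cat

open Finset Pool.Agent.S07646.Chn Pool.Agent.S07646.Ctl Pool.Agent.S07646.Trn

/-- Indices of the leaves attached to a spine vertex. -/
def leaf (κ : ℕ) (j : Fin 9) : Prop := j ≠ 0 ∧ j.val ≤ κ

instance (κ : ℕ) (j : Fin 9) : Decidable (leaf κ j) := by unfold leaf; infer_instance

/-- Adjacency in a star. -/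
def sadj (κ : ℕ) (j j' : Fin 9) : Prop := (j = 0 ∧ leaf κ j') ∨ (j' = 0 ∧ leaf κ j)

instance (κ : ℕ) (j j' : Fin 9) : Decidable (sadj κ j j') := by unfold sadj; infer_instance

/-- Adjacency in the caterpillar (with some isolated vertices). -/
def adj (κ : ℕ → ℕ) (n : ℕ) (p q : Fin (n + 1) × Fin 9) : Prop :=
  (p.1 = q.1 ∧ sadj (κ p.1) p.2 q.2) ∨
    (p.2 = 0 ∧ q.2 = 0 ∧ (p.1.val + 1 = q.1.val ∨ q.1.val + 1 = p.1.val))

instance (κ : ℕ → ℕ) (n : ℕ) : DecidableRel (adj κ n) := fun p q => by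
  unfold adj; infer_instance

theorem sadj_symm {κ : ℕ} {j j' : Fin 9} (h : sadj κ j j') : sadj κ j' j := Or.symm h

theorem sadj_irrefl {κ : ℕ} {j : Fin 9} : ¬ sadj κ j j := by
  rintro (⟨h1, h2⟩ | ⟨h1, h2⟩) <;> exact h2.1 h1

theorem adj_symm (κ : ℕ → ℕ) (n : ℕ) (p q : Fin (n + 1) × Fin 9) (h : adj κ n p q) :
    adj κ n q p := by
  rcases h with ⟨h1, h2⟩ | ⟨h1, h2, h3⟩
  · left
    refine ⟨h1.symm, ?_⟩
    rw [← h1]
    exact sadj_symm h2
  · exact Or.inr ⟨h2, h1, h3.symm⟩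

theorem adj_irrefl (κ : ℕ → ℕ) (n : ℕ) (p : Fin (n + 1) × Fin 9) : ¬ adj κ n p p := by
  rintro (⟨_, h2⟩ | ⟨_, _, h3⟩)
  · exact sadj_irrefl h2
  · omega

/-- Matrix entry of `A + t I` in block form. -/
def sent {R : Type} [CommRing R] (κ : ℕ) (t : R) (j j' : Fin 9) : R :=
  (if sadj κ j j' then 1 else 0) + if j = j' then t else 0

/-- Neighbouring spine indices. -/
def nb (i i' : ℕ) : Prop := i + 1 = i' ∨ i' + 1 = i

instance (i i' : ℕ) : Decidable (nb i i') := by unfold nb; infer_instance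

theorem entry {R : Type} [CommRing R] (κ : ℕ → ℕ) (n : ℕ) (t : R) (p q : Fin (n + 1) × Fin 9) :
    ((if adj κ n p q then 1 else 0) + if p = q then t else 0)
      = (if p.1.val = q.1.val then sent (κ p.1) t p.2 q.2 else 0)
        + if nb p.1 q.1 then (if p.2 = 0 then (if q.2 = 0 then 1 else 0) else 0) else 0 := by
  obtain ⟨i, j⟩ := p
  obtain ⟨i', j'⟩ := q
  simp only [adj, Prod.mk.injEq, nb]
  by_cases h : i = i'
  · subst h
    simp [sent]
  · have h1 : ¬ ((i : ℕ) = i') := fun h' => h (Fin.ext h')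
    simp only [h, h1, false_and, false_or, if_false, zero_add, add_zero]
    by_cases h2 : (i : ℕ) + 1 = i' ∨ (i' : ℕ) + 1 = i
    · by_cases h3 : j = 0 <;> by_cases h4 : j' = 0 <;> simp [h2, h3, h4]
    · simp [h2]

theorem double_sum {R : Type} [CommRing R] (κ : ℕ → ℕ) (n : ℕ) (t : R) (g : ℕ → Fin 9 → R) :
    ∑ p : Fin (n + 1) × Fin 9, ∑ q : Fin (n + 1) × Fin 9, g p.1 p.2 * g q.1 q.2 *
        ((if adj κ n p q then 1 else 0) + if p = q then t else 0)
      = ∑ i ∈ range (n + 1), (∑ j, ∑ j', g i j * g i j' * sent (κ i) t j j')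
        + ∑ i ∈ range (n + 1), ∑ i' ∈ range (n + 1), if nb i i' then g i 0 * g i' 0 else 0 := by
  simp_rw [entry, mul_add, sum_add_distrib]
  congr 1
  · rw [Fintype.sum_prod_type, sum_range]
    refine sum_congr rfl fun i _ => sum_congr rfl fun j _ => ?_
    rw [Fintype.sum_prod_type, sum_eq_single i]
    · simp
    · intro i' _ hi'
      have : ¬ ((i : ℕ) = i') := fun h => hi' (Fin.ext h.symm)
      simp [this]
    · intro h; exact absurd (mem_univ _) h
  · rw [Fintype.sum_prod_type, sum_range]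
    refine sum_congr rfl fun i _ => ?_
    rw [sum_eq_single 0]
    · rw [Fintype.sum_prod_type, sum_range]
      refine sum_congr rfl fun i' _ => ?_
      rw [sum_eq_single 0]
      · by_cases h : nb i i' <;> simp [h]
      · intro j' _ hj'
        simp [hj']
      · intro h; exact absurd (mem_univ _) h
    · intro j _ hj
      refine sum_eq_zero fun q _ => ?_
      simp [hj]
    · intro h; exact absurd (mem_univ _) h

theorem path_sum {R : Type} [CommRing R] (z : ℕ → R) (n : ℕ) :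
    ∑ i ∈ range (n + 1), ∑ i' ∈ range (n + 1), (if nb i i' then z i * z i' else 0)
      = 2 * ∑ i ∈ range n, z i * z (i + 1) := by
  induction n with
  | zero => simp [nb]
  | succ n ih =>
    rw [sum_range_succ]
    simp_rw [sum_range_succ _ (n + 1)]
    rw [sum_add_distrib, ih, sum_range_succ (fun i => z i * z (i + 1)) n]
    have h1 : ∑ i ∈ range (n + 1), (if nb i (n + 1) then z i * z (n + 1) else 0) = z n * z (n + 1) := by
      rw [sum_range_succ, sum_eq_zero, zero_add, if_pos (show nb n (n + 1) from Or.inl rfl)]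
      intro i hi
      have := mem_range.mp hi
      rw [if_neg (by unfold nb; omega)]
    have h2 : ∑ i' ∈ range (n + 1), (if nb (n + 1) i' then z (n + 1) * z i' else 0) = z n * z (n + 1) := by
      rw [sum_range_succ, sum_eq_zero, zero_add, if_pos (show nb (n + 1) n from Or.inr rfl), mul_comm]
      intro i hi
      have := mem_range.mp hi
      rw [if_neg (by unfold nb; omega)]
    rw [h1, h2, if_neg (by unfold nb; omega)]
    ring

/-- Number of leaves. -/
def kap (e : ℕ → ℤ) (i : ℕ) : ℕ := (9 - e i).toNat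

theorem star_sum {R : Type} [CommRing R] (κ : ℕ) (t : R) (g : Fin 9 → R) :
    ∑ j, ∑ j', g j * g j' * sent κ t j j'
      = ∑ j, (t * g j ^ 2 + if leaf κ j then 2 * g 0 * g j else 0) := by
  have h1 : ∀ j j', g j * g j' * sent κ t j j' =
      (if j = 0 then (if leaf κ j' then g 0 * g j' else 0) else 0)
      + (if j' = 0 then (if leaf κ j then g 0 * g j else 0) else 0)
      + (if j = j' then t * g j ^ 2 else 0) := by
    intro j j'
    unfold sent sadj
    by_cases h : j = j'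
    · subst h
      by_cases h0 : j = 0
      · subst h0
        have : ¬ leaf κ 0 := fun h => h.1 rfl
        simp [this]; ring
      · simp [h0]; ring
    · by_cases h0 : j = 0
      · subst h0
        have : ¬ leaf κ 0 := fun h => h.1 rfl
        have h2 : ¬ j' = 0 := fun h' => h h'.symm
        simp [h, h2]
      · by_cases h2 : j' = 0
        · subst h2
          simp [h0, mul_comm]
        · simp [h, h0, h2]
  simp_rw [h1, sum_add_distrib]
  have e1 : ∑ j : Fin 9, ∑ j' : Fin 9, (if j = 0 then (if leaf κ j' then g 0 * g j' else 0) else 0)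
      = ∑ j' : Fin 9, (if leaf κ j' then g 0 * g j' else 0) := by
    rw [sum_eq_single 0]
    · simp
    · intro j _ hj; simp [hj]
    · intro h; exact absurd (mem_univ _) h
  have e2 : ∑ j : Fin 9, ∑ j' : Fin 9, (if j' = 0 then (if leaf κ j then g 0 * g j else 0) else 0)
      = ∑ j : Fin 9, (if leaf κ j then g 0 * g j else 0) := by
    refine sum_congr rfl fun j _ => ?_
    rw [sum_ite_eq' univ 0]
    simp
  have e3 : ∑ j : Fin 9, ∑ j' : Fin 9, (if j = j' then t * g j ^ 2 else 0)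
      = ∑ j : Fin 9, t * g j ^ 2 := by
    refine sum_congr rfl fun j _ => ?_
    rw [sum_ite_eq univ j]
    simp
  have e4 : ∑ j : Fin 9, (if leaf κ j then 2 * g 0 * g j else 0)
      = ∑ j : Fin 9, (if leaf κ j then g 0 * g j else 0) + ∑ j : Fin 9, (if leaf κ j then g 0 * g j else 0) := by
    rw [← sum_add_distrib]
    refine sum_congr rfl fun j _ => ?_
    split_ifs <;> ring
  rw [e1, e2, e3, e4]
  ring

theorem leaf_count {e : ℤ} (he : Adm e) :
    ∑ j : Fin 9, (if leaf (9 - e).toNat j then (1 : ℤ) else 0) = 9 - e := by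
  rcases he with rfl | rfl | rfl | rfl | rfl | rfl <;> decide

theorem star_bound {e : ℤ} (he : Adm e) (y : Fin 9 → ℝ) :
    (e : ℝ) / 3 * y 0 ^ 2 ≤ ∑ j, ∑ j', y j * y j' * sent (9 - e).toNat (3 : ℝ) j j' := by
  rw [star_sum]
  have h1 : ∀ j, (if j = 0 then 3 * y 0 ^ 2 else 0) - (if leaf (9 - e).toNat j then (1 : ℝ) else 0) * (y 0 ^ 2 / 3)
      ≤ 3 * y j ^ 2 + if leaf (9 - e).toNat j then 2 * y 0 * y j else 0 := by
    intro j
    by_cases h0 : j = 0
    · subst h0
      have : ¬ leaf (9 - e).toNat 0 := fun h => h.1 rfl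
      simp [this]
    · by_cases hl : leaf (9 - e).toNat j
      · simp only [h0, hl, if_false, if_true]
        nlinarith [sq_nonneg (y j + y 0 / 3)]
      · simp only [h0, hl, if_false]
        nlinarith [sq_nonneg (y j)]
  refine le_trans (le_of_eq ?_) (sum_le_sum fun j _ => h1 j)
  rw [sum_sub_distrib, sum_ite_eq' univ 0, ← sum_mul]
  have h2 : ∑ j : Fin 9, (if leaf (9 - e).toNat j then (1 : ℝ) else 0) = 9 - e := by
    have := congrArg (fun z : ℤ => (z : ℝ)) (leaf_count he)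
    push_cast at this
    exact this
  rw [h2]
  simp
  ring

/-- Weights of the combination eliminating the leaves. -/
def om (κ : ℕ) (j : Fin 9) : ℤ := if j = 0 then 3 else if leaf κ j then -1 else 0

theorem star_gram {e : ℤ} (he : Adm e) :
    ∑ j, ∑ j', om (9 - e).toNat j * om (9 - e).toNat j' * sent (9 - e).toNat (3 : ℤ) j j' = 3 * e := by
  rw [star_sum]
  rcases he with rfl | rfl | rfl | rfl | rfl | rfl <;> decide

theorem psd {e : ℕ → ℤ} {a : ℕ → ℝ} (hd : Dat e a) (hadm : ∀ i, Adm (e i)) (n : ℕ)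
    (x : Fin (n + 1) × Fin 9 → ℝ) :
    0 ≤ ∑ p, ∑ q, x p * x q * ((if adj (kap e) n p q then 1 else 0) + if p = q then 3 else 0) := by
  obtain ⟨g, hg⟩ : ∃ g : ℕ → Fin 9 → ℝ, ∀ i j, g i j = if h : i < n + 1 then x (⟨i, h⟩, j) else 0 :=
    ⟨_, fun _ _ => rfl⟩
  have hx : ∀ p, x p = g p.1 p.2 := fun p => by rw [hg, dif_pos p.1.2]
  simp_rw [hx]
  rw [double_sum, path_sum (fun i => g i 0)]
  have h1 : ∑ i ∈ range (n + 1), (e i : ℝ) / 3 * g i 0 ^ 2
      ≤ ∑ i ∈ range (n + 1), ∑ j, ∑ j', g i j * g i j' * sent (kap e i) (3 : ℝ) j j' :=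
    sum_le_sum fun i _ => star_bound (hadm i) (g i)
  obtain ⟨h, hh⟩ : ∃ h : ℕ → ℝ, ∀ i, h i = (-1) ^ i * g i 0 / a i := ⟨_, fun _ => rfl⟩
  have hpos : ∀ i, 0 < a i := fun i => by have := hd.one i; linarith
  have hah : ∀ i, a i * h i = (-1) ^ i * g i 0 := fun i => by
    rw [hh]; field_simp [(hpos i).ne']
  have h2 := energy hd h n
  have h3 : 0 ≤ 3 * ∑ i ∈ range n, a i * a (i + 1) * (h i - h (i + 1)) ^ 2
        + 3 * (a n * a (n + 1) * h n ^ 2) := by
    have : 0 ≤ ∑ i ∈ range n, a i * a (i + 1) * (h i - h (i + 1)) ^ 2 :=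
      sum_nonneg fun i _ => mul_nonneg (mul_pos (hpos _) (hpos _)).le (sq_nonneg _)
    have h4 : 0 ≤ a n * a (n + 1) * h n ^ 2 := mul_nonneg (mul_pos (hpos _) (hpos _)).le (sq_nonneg _)
    linarith
  rw [← h2] at h3
  simp only [hah] at h3
  have h4 : ∑ i ∈ range (n + 1), (e i : ℝ) * ((-1) ^ i * g i 0) ^ 2
      = 3 * ∑ i ∈ range (n + 1), (e i : ℝ) / 3 * g i 0 ^ 2 := by
    rw [mul_sum]
    refine sum_congr rfl fun i _ => ?_
    have : ((-1 : ℝ) ^ i) ^ 2 = 1 := by rw [← pow_mul, mul_comm, pow_mul]; simp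
    rw [mul_pow, this]; ring
  have h5 : ∑ i ∈ range n, ((-1 : ℝ) ^ i * g i 0) * ((-1) ^ (i + 1) * g (i + 1) 0)
      = - ∑ i ∈ range n, g i 0 * g (i + 1) 0 := by
    rw [← sum_neg_distrib]
    refine sum_congr rfl fun i _ => ?_
    have : ((-1 : ℝ) ^ i) * (-1) ^ (i + 1) = -1 := by
      rw [← pow_add, show i + (i + 1) = 2 * i + 1 by ring, pow_succ, pow_mul]; simp
    linear_combination (g i 0 * g (i + 1) 0) * this
  rw [h4, h5] at h3
  linarith

theorem neg {e : ℕ → ℤ} (h0 : e 0 = 4) (n : ℕ) : ∃ x : Fin (n + 1) × Fin 9 → ℝ,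
    ∑ p, ∑ q, x p * x q * ((if adj (kap e) n p q then 1 else 0) + if p = q then 2 else 0) < 0 := by
  obtain ⟨g, hg⟩ : ∃ g : ℕ → Fin 9 → ℝ, ∀ i j, g i j =
      if i = 0 then (if j = 0 then -2 else if leaf 5 j then 1 else 0) else 0 := ⟨_, fun _ _ => rfl⟩
  refine ⟨fun p => g p.1 p.2, ?_⟩
  rw [double_sum, path_sum (fun i => g i 0)]
  have h1 : ∑ i ∈ range n, g i 0 * g (i + 1) 0 = 0 := by
    refine sum_eq_zero fun i _ => ?_
    rw [hg (i + 1)]; simp
  rw [h1, sum_eq_single 0]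
  · rw [star_sum]
    have hk : kap e 0 = 5 := by unfold kap; rw [h0]; rfl
    rw [hk]
    simp only [hg, if_true]
    have h2 : ∀ j : Fin 9, ((2 : ℝ) * (if j = 0 then -2 else if leaf 5 j then 1 else 0) ^ 2 +
        if leaf 5 j then 2 * (-2) * (if j = 0 then -2 else if leaf 5 j then 1 else 0) else 0)
        = (((2 : ℤ) * (if j = 0 then -2 else if leaf 5 j then 1 else 0) ^ 2 +
        if leaf 5 j then 2 * (-2) * (if j = 0 then -2 else if leaf 5 j then 1 else 0) else 0 : ℤ) : ℝ) := by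
      intro j
      split_ifs <;> push_cast <;> ring
    rw [sum_congr rfl fun j _ => h2 j, ← Int.cast_sum]
    have h3 : ∑ j : Fin 9, ((2 : ℤ) * (if j = 0 then -2 else if leaf 5 j then 1 else 0) ^ 2 +
        if leaf 5 j then 2 * (-2) * (if j = 0 then -2 else if leaf 5 j then 1 else 0) else 0) = -2 := by
      decide
    rw [h3]
    norm_num
  · intro i _ hi
    refine sum_eq_zero fun j _ => sum_eq_zero fun j' _ => ?_
    rw [hg, if_neg hi]; simp
  · intro h; exact absurd (mem_range.mpr (Nat.succ_pos n)) h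

theorem window {e : ℕ → ℤ} (hadm : ∀ i, Adm (e i)) (c n m : ℕ)
    (N : Fin (n + 1) × Fin 9 → Fin m → ℤ)
    (hN : ∀ u v, ∑ k, N u k * N v k
      = c * ((if adj (kap e) n u v then 1 else 0) + if u = v then 3 else 0)) :
    ∃ Y : ℕ → Fin m → ℤ, ∀ i j, i ≤ n → j ≤ n → ∑ k, Y i k * Y j k = (3 * c) * gram e i j := by
  obtain ⟨g, hg⟩ : ∃ g : ℕ → Fin 9 → Fin m → ℤ, ∀ i j k,
      g i j k = if h : i < n + 1 then N (⟨i, h⟩, j) k else 0 := ⟨_, fun _ _ _ => rfl⟩
  refine ⟨fun i k => (-1) ^ i * ∑ j, om (kap e i) j * g i j k, ?_⟩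
  intro i i' hi hi'
  have hgg : ∀ j j', ∑ k, g i j k * g i' j' k = c * ((if i = i' then sent (kap e i) 3 j j' else 0)
        + if nb i i' then (if j = 0 then (if j' = 0 then 1 else 0) else 0) else 0) := by
    intro j j'
    have h1 := hN (⟨i, by omega⟩, j) (⟨i', by omega⟩, j')
    rw [entry] at h1
    simp only at h1
    rw [← h1]
    refine sum_congr rfl fun k _ => ?_
    rw [hg, hg, dif_pos (show i < n + 1 by omega), dif_pos (show i' < n + 1 by omega)]
  have h1 : ∑ k, ((-1) ^ i * ∑ j, om (kap e i) j * g i j k) * ((-1) ^ i' * ∑ j, om (kap e i') j * g i' j k)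
      = (-1) ^ (i + i') * ∑ j, ∑ j', om (kap e i) j * om (kap e i') j' * ∑ k, g i j k * g i' j' k := by
    calc ∑ k, ((-1) ^ i * ∑ j, om (kap e i) j * g i j k) * ((-1) ^ i' * ∑ j, om (kap e i') j * g i' j k)
        = ∑ k, (-1) ^ (i + i') * ∑ j, ∑ j', om (kap e i) j * om (kap e i') j' * (g i j k * g i' j' k) := by
          refine sum_congr rfl fun k _ => ?_
          rw [mul_mul_mul_comm, ← pow_add, sum_mul_sum]
          congr 1
          exact sum_congr rfl fun j _ => sum_congr rfl fun j' _ => by ring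
      _ = _ := by
          rw [← mul_sum, sum_comm]
          congr 1
          refine sum_congr rfl fun j _ => ?_
          rw [sum_comm]
          exact sum_congr rfl fun j' _ => by rw [mul_sum]
  simp only
  rw [h1]
  simp_rw [hgg]
  by_cases hii : i = i'
  · subst hii
    have h2 : ¬ nb i i := by unfold nb; omega
    simp only [h2, if_true, if_false, add_zero, gram]
    have h3 : ∑ j, ∑ j', om (kap e i) j * om (kap e i) j' * ((c : ℤ) * sent (kap e i) 3 j j')
        = c * (3 * e i) := by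
      rw [← star_gram (hadm i), mul_sum]
      refine sum_congr rfl fun j _ => ?_
      rw [mul_sum]
      refine sum_congr rfl fun j' _ => ?_
      simp only [kap]
      ring
    rw [h3, ← two_mul, pow_mul]
    ring
  · by_cases h2 : nb i i'
    · simp only [h2, hii, if_true, if_false, zero_add, gram]
      rw [if_pos (show i + 1 = i' ∨ i' + 1 = i from h2)]
      have h3 : ∑ j, ∑ j', om (kap e i) j * om (kap e i') j' * ((c : ℤ) * (if j = 0 then (if j' = 0 then 1 else 0) else 0))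
          = c * 9 := by
        rw [sum_eq_single 0]
        · rw [sum_eq_single 0]
          · simp [om]; ring
          · intro j' _ hj'; simp [hj']
          · intro h; exact absurd (mem_univ _) h
        · intro j _ hj; simp [hj]
        · intro h; exact absurd (mem_univ _) h
      rw [h3]
      have h4 : ((-1 : ℤ)) ^ (i + i') = -1 := by
        rcases h2 with h2 | h2
        · rw [← h2, show i + (i + 1) = 2 * i + 1 by ring, pow_succ, pow_mul]; simp
        · rw [← h2, show i' + 1 + i' = 2 * i' + 1 by ring, pow_succ, pow_mul]; simp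
      rw [h4]
      ring
    · simp only [h2, hii, if_false, add_zero, gram]
      rw [if_neg (show ¬ (i + 1 = i' ∨ i' + 1 = i) from h2)]
      simp

/-- No constant `c` works for all graphs with smallest eigenvalue at least `-3`. -/
theorem main {c : ℕ} (hc : 0 < c)
    (H : ∀ (n : ℕ) (G : SimpleGraph (Fin n)) [DecidableRel G.Adj],
        (G.adjMatrix ℝ + (3 : ℝ) • (1 : Matrix (Fin n) (Fin n) ℝ)).PosSemidef →
        ∀ k : ℤ,
          (G.adjMatrix ℝ - (k : ℝ) • (1 : Matrix (Fin n) (Fin n) ℝ)).PosSemidef →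
          ¬ (G.adjMatrix ℝ - ((k : ℝ) + 1) • (1 : Matrix (Fin n) (Fin n) ℝ)).PosSemidef →
          ∃ (m : ℕ) (N : Matrix (Fin n) (Fin m) ℤ),
            (c : ℤ) • (G.adjMatrix ℤ - k • (1 : Matrix (Fin n) (Fin n) ℤ)) = N * N.transpose) :
    False := by
  obtain ⟨e, a, hd, h0, hadm⟩ := exists_dat
  have hC : (0 : ℤ) < 3 * c := by omega
  have hwin : ∀ n, ∃ (m : ℕ) (Y : ℕ → Fin m → ℤ),
      ∀ i j, i ≤ n → j ≤ n → ∑ k, Y i k * Y j k = (3 * c : ℤ) * gram e i j := by
    intro n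
    obtain ⟨m, N, hN⟩ := transport H (adj (kap e) n) (adj_symm _ n) (adj_irrefl _ n)
      (psd hd hadm n) (neg h0 n)
    obtain ⟨Y, hY⟩ := window hadm c n m N hN
    exact ⟨m, Y, hY⟩
  obtain ⟨X, hX1, hX2⟩ := Cpt.compact hd.le8 hC hwin
  exact no_chain hd hC X (fun i => (8 * (3 * (c : ℤ))).toNat * (i + 1))
    (fun i j hij => Nat.mul_le_mul_left _ (by omega)) hX1 hX2

end Pool.Agent.S07646.Cat

open Pool Pool.MP_e25938_co

namespace Pool.Agent.S07646

/-- The negation of the preceding statement: There is a positive integer c such that for every finite simple graph with adjacency matrix A and smallest eigenvalue at least −3, with k the floor of that smallest eigenvalue, c(A − kI) equals N Nᵀ for some integer matrix N. -/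
theorem result :
    ¬ (∃ c : ℕ, 0 < c ∧
      ∀ (n : ℕ) (G : SimpleGraph (Fin n)) [DecidableRel G.Adj],
        (G.adjMatrix ℝ + (3 : ℝ) • (1 : Matrix (Fin n) (Fin n) ℝ)).PosSemidef →
        ∀ k : ℤ,
          (G.adjMatrix ℝ - (k : ℝ) • (1 : Matrix (Fin n) (Fin n) ℝ)).PosSemidef →
          ¬ (G.adjMatrix ℝ - ((k : ℝ) + 1) • (1 : Matrix (Fin n) (Fin n) ℝ)).PosSemidef →
          ∃ (m : ℕ) (N : Matrix (Fin n) (Fin m) ℤ),
            (c : ℤ) • (G.adjMatrix ℤ - k • (1 : Matrix (Fin n) (Fin n) ℤ)) = N * N.transpose) := by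
  rintro ⟨c, hc, H⟩
  exact Pool.Agent.S07646.Cat.main hc H

end Pool.Agent.S07646
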