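import Pool.Statements.S07656
-- import your own Pool.Agent.* helpers here

set_option autoImplicit false
open Pool Pool.MP_e2b918_co

namespace Pool.Agent.S07656

/-- adjacency rows of the graph, as bit masks -/
def rows : List ℕ :=
  [7194, 1737, 4968, 2343, 7329, 1692, 4998, 2418, 4812, 2406, 6195, 1689, 1365]

/-- Boolean adjacency -/
def adjB (u v : Fin 13) : Bool := (rows.getD u.val 0).testBit v.val

/-- the graph on 13 vertices -/
def G : SimpleGraph (Fin 13) where
  Adj u v := adjB u v = true
  symm := ⟨by decide +kernel⟩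
  loopless := ⟨by decide +kernel⟩

instance : DecidableRel G.Adj := fun u v => inferInstanceAs (Decidable (adjB u v = true))

/-- backtracking check over all maps extending `acc` that turn `A` into its negation -/
def chk (P : List (Fin 13 × Fin 13) → Bool) : List (Fin 13) → List (Fin 13 × Fin 13) → Bool
  | [], acc => P acc
  | v :: vs, acc =>
    (List.finRange 13).all fun w =>
      !(acc.all fun p => (adjB p.1 v == !(adjB p.2 w)) && !(decide (p.2 = w))) ||
        chk P vs ((v, w) :: acc)

/-- the association list of `σ` built by the search -/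
def fin (σ : Fin 13 → Fin 13) : List (Fin 13) → List (Fin 13 × Fin 13) → List (Fin 13 × Fin 13)
  | [], acc => acc
  | v :: vs, acc => fin σ vs ((v, σ v) :: acc)

theorem chk_sound (P : List (Fin 13 × Fin 13) → Bool) (σ : Fin 13 → Fin 13)
    (hσ : ∀ u v, u ≠ v → (adjB u v = !(adjB (σ u) (σ v))) ∧ σ u ≠ σ v) :
    ∀ (vs : List (Fin 13)) (acc : List (Fin 13 × Fin 13)),
      (∀ p ∈ acc, p.2 = σ p.1) → (∀ p ∈ acc, p.1 ∉ vs) → vs.Nodup →
      chk P vs acc = true → P (fin σ vs acc) = true := by
  intro vs
  induction vs with
  | nil => intro acc _ _ _ h; simpa [chk, fin] using h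
  | cons v vs ih =>
    intro acc h1 h2 h3 h
    rw [chk, List.all_eq_true] at h
    have hw := h (σ v) (List.mem_finRange _)
    rw [Bool.or_eq_true] at hw
    have hcompat : (acc.all fun p => (adjB p.1 v == !(adjB p.2 (σ v))) && !(decide (p.2 = σ v))) = true := by
      rw [List.all_eq_true]
      intro p hp
      have hpv : p.1 ≠ v := by
        intro e
        exact h2 p hp (by simp [e])
      obtain ⟨ha, hb⟩ := hσ p.1 v hpv
      have e := h1 p hp
      rw [e]
      simp [← ha, hb]
    rw [hcompat] at hw
    have hw' : chk P vs ((v, σ v) :: acc) = true := by simpa using hw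
    have := ih ((v, σ v) :: acc) ?_ ?_ (List.nodup_cons.mp h3).2 hw'
    · simpa [fin] using this
    · intro p hp
      rcases List.mem_cons.mp hp with rfl | hp
      · rfl
      · exact h1 p hp
    · intro p hp
      rcases List.mem_cons.mp hp with rfl | hp
      · exact (List.nodup_cons.mp h3).1
      · intro hmem
        exact h2 p hp (List.mem_cons_of_mem _ hmem)

/-- evaluation of an association list -/
def ev (acc : List (Fin 13 × Fin 13)) (x : Fin 13) : Fin 13 := (acc.lookup x).getD x

/-- some vertex is moved and does not return after four steps -/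
def bad (acc : List (Fin 13 × Fin 13)) : Bool :=
  (List.finRange 13).any fun x =>
    !(decide (ev acc x = x)) && !(decide (ev acc (ev acc (ev acc (ev acc x))) = x))

theorem chk_true : chk bad (List.finRange 13) [] = true := by decide +kernel

theorem ev_fin (σ : Fin 13 → Fin 13) (x : Fin 13) : ev (fin σ (List.finRange 13) []) x = σ x := by
  have h : List.finRange 13 = [0, 1, 2, 3, 4, 5, 6, 7, 8, 9, 10, 11, 12] := by decide
  rw [h]
  fin_cases x <;> rfl

/-- an explicit isomorphism onto the complement -/
def perm : Fin 13 → Fin 13 := ![1, 2, 3, 4, 5, 6, 7, 0, 9, 10, 11, 8, 12]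

/-- its inverse -/
def permInv : Fin 13 → Fin 13 := ![7, 0, 1, 2, 3, 4, 5, 6, 11, 8, 9, 10, 12]

/-- The negation of the preceding statement: Every finite regular self-complementary graph has an isomorphism onto its complement whose permutation of the vertices has at most one fixed point, with every other vertex lying on a cycle of length exactly 4. -/
theorem result :
    ¬ (∀ (V : Type) [Fintype V] [DecidableEq V] (G : SimpleGraph V) [DecidableRel G.Adj],
      (∃ d : ℕ, G.IsRegularOfDegree d) →
      Nonempty (G ≃g Gᶜ) →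
      ∃ σ : G ≃g Gᶜ,
        (∀ u v : V, σ u = u → σ v = v → u = v) ∧
        (∀ v : V, σ v ≠ v → σ (σ v) ≠ v ∧ σ (σ (σ (σ v))) = v)) := by
  intro H
  have hreg : ∃ d : ℕ, G.IsRegularOfDegree d := by
    refine ⟨6, ?_⟩
    unfold SimpleGraph.IsRegularOfDegree
    decide +kernel
  have hsc : Nonempty (G ≃g Gᶜ) := by
    refine ⟨⟨⟨perm, permInv, by decide +kernel, by decide +kernel⟩, ?_⟩⟩
    intro a b
    revert a b
    decide +kernel
  obtain ⟨σ, _, h4⟩ := H (Fin 13) G hreg hsc
  have hσ : ∀ u v, u ≠ v → (adjB u v = !(adjB (σ u) (σ v))) ∧ σ u ≠ σ v := by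
    intro u v huv
    have hne : σ u ≠ σ v := fun e => huv (σ.injective e)
    refine ⟨?_, hne⟩
    have h := σ.map_rel_iff (a := u) (b := v)
    rw [SimpleGraph.compl_adj] at h
    have h' : (¬ (adjB (σ u) (σ v) = true)) ↔ (adjB u v = true) := by
      constructor
      · intro hh; exact h.mp ⟨hne, hh⟩
      · intro hh; exact (h.mpr hh).2
    cases h1 : adjB u v <;> cases h2 : adjB (σ u) (σ v) <;> simp_all
  have hb := chk_sound bad σ hσ (List.finRange 13) [] (by simp) (by simp) (List.nodup_finRange 13) chk_true
  rw [bad, List.any_eq_true] at hb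
  obtain ⟨x, _, hx⟩ := hb
  simp only [ev_fin] at hx
  simp only [Bool.and_eq_true, Bool.not_eq_true', decide_eq_false_iff_not] at hx
  exact hx.2 (h4 x hx.1).2

end Pool.Agent.S07656
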