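import Pool.Statements.S07660
-- import your own Pool.Agent.* helpers here

set_option autoImplicit false
set_option linter.unusedSectionVars false
set_option linter.unusedVariables false
open Pool Pool.MP_e385a0_co

namespace Pool.Agent.S07660

abbrev PT (G : Type) := Fin 3 ⊕ (G × {p : Fin 3 × Fin 3 // p.1 < p.2})

/-- vertex support -/
def V {G : Type} (e : PT G) : Finset (Fin 3) :=
  Sum.elim (fun i => ({i} : Finset (Fin 3)))
    (fun x => ({x.2.1.1, x.2.1.2} : Finset (Fin 3))) e

def Comp {G : Type} [Group G] (φ : Fin 3 → G) (e : PT G) : Prop :=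
  Sum.elim (fun _ => False) (fun x => x.1 = φ x.2.1.1 * (φ x.2.1.2)⁻¹) e

def FI {G : Type} [Group G] (S : Set (PT G)) : Prop :=
  ∀ T : Finset (PT G),
            (↑T ⊆ S) → T.Nonempty →
              (T.card ≤ (T.biUnion (fun e => Sum.elim (fun i => ({i} : Finset (Fin 3)))
                  (fun x => ({x.2.1.1, x.2.1.2} : Finset (Fin 3))) e)).card ∧
               (((∀ i : Fin 3, Sum.inl i ∉ T) ∧
                  ∃ φ : Fin 3 → G, ∀ x : G × {p : Fin 3 × Fin 3 // p.1 < p.2},
                    Sum.inr x ∈ T → x.1 = φ x.2.1.1 * (φ x.2.1.2)⁻¹) →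
                T.card + 1 ≤ (T.biUnion (fun e => Sum.elim (fun i => ({i} : Finset (Fin 3)))
                  (fun x => ({x.2.1.1, x.2.1.2} : Finset (Fin 3))) e)).card))

def Col {G : Type} [Group G] (u v w : PT G) : Prop :=
  (∃ k, k ∉ V u ∧ k ∉ V v ∧ k ∉ V w) ∨ (∃ φ : Fin 3 → G, Comp φ u ∧ Comp φ v ∧ Comp φ w)

variable {G : Type} [Group G]

lemma FI_iff (S : Set (PT G)) : FI S ↔ ∀ T : Finset (PT G), ↑T ⊆ S → T.Nonempty →
    (T.card ≤ (T.biUnion V).card ∧ ((∃ φ : Fin 3 → G, ∀ u ∈ T, Comp φ u) →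
      T.card + 1 ≤ (T.biUnion V).card)) := by
  unfold FI
  refine forall_congr' fun T => forall_congr' fun hT => forall_congr' fun hn => ?_
  have hV : (T.biUnion (fun e => Sum.elim (fun i => ({i} : Finset (Fin 3)))
                  (fun x => ({x.2.1.1, x.2.1.2} : Finset (Fin 3))) e)) = T.biUnion V := rfl
  rw [hV]
  refine and_congr Iff.rfl ?_
  refine imp_congr ?_ Iff.rfl
  constructor
  · rintro ⟨h1, φ, h2⟩
    refine ⟨φ, ?_⟩
    rintro (i | x) hu
    · exact absurd hu (h1 i)
    · exact h2 x hu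
  · rintro ⟨φ, h⟩
    refine ⟨fun i hi => ?_, φ, fun x hx => ?_⟩
    · exact h _ hi
    · exact h _ hx

lemma V_card_pos (u : PT G) : 1 ≤ (V u).card := by
  rcases u with i | ⟨g, ⟨⟨i, j⟩, h⟩⟩
  · simp [V]
  · simp only [V, Sum.elim_inr]
    exact Finset.card_pos.mpr ⟨i, by simp⟩

lemma V_card_comp {φ : Fin 3 → G} {u : PT G} (h : Comp φ u) : (V u).card = 2 := by
  rcases u with i | ⟨g, ⟨⟨i, j⟩, hij⟩⟩
  · exact absurd h (by simp [Comp])
  · simp only [V, Sum.elim_inr]
    exact Finset.card_pair (ne_of_lt hij)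

lemma V_pair (u v : PT G) (huv : u ≠ v) : 2 ≤ (V u ∪ V v).card := by
  rcases u with i | ⟨g, ⟨⟨i, j⟩, hij⟩⟩
  · rcases v with i' | ⟨g', ⟨⟨i', j'⟩, hij'⟩⟩
    · have : i ≠ i' := fun h => huv (by rw [h])
      simp only [V, Sum.elim_inl]
      have : ({i} ∪ {i'} : Finset (Fin 3)) = {i, i'} := rfl
      rw [this, Finset.card_pair ‹i ≠ i'›]
    · refine le_trans ?_ (Finset.card_le_card (Finset.subset_union_right))
      simp only [V, Sum.elim_inr]
      rw [Finset.card_pair (ne_of_lt hij')]
  · refine le_trans ?_ (Finset.card_le_card (Finset.subset_union_left))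
    simp only [V, Sum.elim_inr]
    rw [Finset.card_pair (ne_of_lt hij)]

lemma pairs_cases (p : {p : Fin 3 × Fin 3 // p.1 < p.2}) :
    p = ⟨(0, 1), by decide⟩ ∨ p = ⟨(0, 2), by decide⟩ ∨ p = ⟨(1, 2), by decide⟩ := by
  revert p; decide

lemma third_pair (p q r r' : {p : Fin 3 × Fin 3 // p.1 < p.2}) (h1 : p ≠ q) (h2 : r ≠ p)
    (h3 : r ≠ q) (h4 : r' ≠ p) (h5 : r' ≠ q) : r = r' := by
  rcases pairs_cases p with rfl | rfl | rfl <;> rcases pairs_cases q with rfl | rfl | rfl <;>
    rcases pairs_cases r with rfl | rfl | rfl <;> rcases pairs_cases r' with rfl | rfl | rfl <;>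
    first
    | rfl
    | exact absurd rfl h1
    | exact absurd rfl h2
    | exact absurd rfl h3
    | exact absurd rfl h4
    | exact absurd rfl h5

lemma V_comp_pair {φ : Fin 3 → G} {u v : PT G} (hu : Comp φ u) (hv : Comp φ v) (huv : u ≠ v) :
    V u ∪ V v = Finset.univ := by
  rcases u with i | ⟨g, p⟩
  · exact absurd hu (by simp [Comp])
  · rcases v with i' | ⟨g', q⟩
    · exact absurd hv (by simp [Comp])
    · simp only [Comp, Sum.elim_inr] at hu hv
      by_cases hpq : p = q
      · subst hpq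
        exact absurd (by rw [hu, hv]) huv
      · simp only [V, Sum.elim_inr]
        clear hu hv huv
        revert p q
        decide

/-- uniqueness of the third point of a transversal line -/
lemma comp_unique {φ ψ : Fin 3 → G} {u v e e' : PT G} (hu : Comp φ u) (hv : Comp φ v)
    (he : Comp φ e) (hu' : Comp ψ u) (hv' : Comp ψ v) (he' : Comp ψ e') (huv : u ≠ v)
    (heu : e ≠ u) (hev : e ≠ v) (heu' : e' ≠ u) (hev' : e' ≠ v) : e = e' := by
  rcases u with i | ⟨g, p⟩
  · exact absurd hu (by simp [Comp])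
  rcases v with i | ⟨h, q⟩
  · exact absurd hv (by simp [Comp])
  rcases e with i | ⟨k, r⟩
  · exact absurd he (by simp [Comp])
  rcases e' with i | ⟨k', r'⟩
  · exact absurd he' (by simp [Comp])
  simp only [Comp, Sum.elim_inr] at hu hv he hu' hv' he'
  have h1 : p ≠ q := by
    rintro rfl; exact huv (by rw [hu, hv])
  have h2 : r ≠ p := by
    rintro rfl; exact heu (by rw [hu, he])
  have h3 : r ≠ q := by
    rintro rfl; exact hev (by rw [hv, he])
  have h4 : r' ≠ p := by
    rintro rfl; exact heu' (by rw [hu', he'])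
  have h5 : r' ≠ q := by
    rintro rfl; exact hev' (by rw [hv', he'])
  have h6 : r = r' := by
    exact third_pair p q r r' h1 h2 h3 h4 h5
  subst h6
  have key : k = k' := by
    rw [he, he']
    clear he he' huv heu hev heu' hev'
    subst hu hv
    rcases pairs_cases p with rfl | rfl | rfl <;> rcases pairs_cases q with rfl | rfl | rfl <;>
      rcases pairs_cases r with rfl | rfl | rfl <;>
      first
      | exact absurd rfl h1
      | exact absurd rfl h2
      | exact absurd rfl h3
      | (simp only at hu' hv' ⊢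
         have e1 := hu'
         have e2 := hv'
         first
         | (calc _ = (φ 0 * (φ 1)⁻¹) * (φ 1 * (φ 2)⁻¹) := by group
              _ = _ := by rw [hu', hv']; group)
         | (calc _ = (φ 0 * (φ 1)⁻¹) * (φ 1 * (φ 2)⁻¹) := by group
              _ = _ := by rw [hv', hu']; group)
         | (calc _ = (φ 0 * (φ 2)⁻¹) * (φ 1 * (φ 2)⁻¹)⁻¹ := by group
              _ = _ := by rw [hu', hv']; group)
         | (calc _ = (φ 0 * (φ 2)⁻¹) * (φ 1 * (φ 2)⁻¹)⁻¹ := by group
              _ = _ := by rw [hv', hu']; group)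
         | (calc _ = (φ 0 * (φ 1)⁻¹)⁻¹ * (φ 0 * (φ 2)⁻¹) := by group
              _ = _ := by rw [hu', hv']; group)
         | (calc _ = (φ 0 * (φ 1)⁻¹)⁻¹ * (φ 0 * (φ 2)⁻¹) := by group
              _ = _ := by rw [hv', hu']; group))
  rw [key]


lemma two_line {u v : PT G} (huv : u ≠ v) {k k' : Fin 3} (h1 : k ∉ V u) (h2 : k ∉ V v)
    (h3 : k' ∉ V u) (h4 : k' ∉ V v) : k = k' := by
  by_contra hne
  have hsub : V u ∪ V v ⊆ ({k, k'} : Finset (Fin 3))ᶜ := by
    intro i hi
    simp only [Finset.mem_compl, Finset.mem_insert, Finset.mem_singleton]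
    rintro (rfl | rfl) <;> rcases Finset.mem_union.mp hi with h | h <;> contradiction
  have h5 := Finset.card_le_card hsub
  rw [Finset.card_compl, Finset.card_pair hne] at h5
  have h6 := V_pair u v huv
  simp only [Fintype.card_fin] at h5
  omega

lemma Col_swap {u v w : PT G} (h : Col u v w) : Col v u w := by
  rcases h with ⟨k, h1, h2, h3⟩ | ⟨φ, h1, h2, h3⟩
  · exact Or.inl ⟨k, h2, h1, h3⟩
  · exact Or.inr ⟨φ, h2, h1, h3⟩

lemma Col_rot {u v w : PT G} (h : Col u v w) : Col v w u := by
  rcases h with ⟨k, h1, h2, h3⟩ | ⟨φ, h1, h2, h3⟩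
  · exact Or.inl ⟨k, h2, h3, h1⟩
  · exact Or.inr ⟨φ, h2, h3, h1⟩

lemma FI_iff' (S : Set (PT G)) : FI S ↔ (∀ T : Finset (PT G), ↑T ⊆ S → T.card ≤ 3) ∧
    (∀ u ∈ S, ∀ v ∈ S, ∀ w ∈ S, u ≠ v → u ≠ w → v ≠ w → ¬ Col u v w) := by
  classical
  rw [FI_iff]
  constructor
  · intro h
    constructor
    · intro T hT
      rcases T.eq_empty_or_nonempty with rfl | hn
      · simp
      · refine le_trans (h T hT hn).1 ?_
        exact le_trans (Finset.card_le_univ _) (by simp)
    · intro u hu v hv w hw huv huw hvw hcol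
      have hT : (↑({u, v, w} : Finset (PT G)) : Set (PT G)) ⊆ S := by
        intro x hx
        simp only [Finset.coe_insert, Finset.coe_singleton, Set.mem_insert_iff,
          Set.mem_singleton_iff] at hx
        rcases hx with rfl | rfl | rfl <;> assumption
      have hc : ({u, v, w} : Finset (PT G)).card = 3 := by
        rw [Finset.card_eq_three]; exact ⟨u, v, w, huv, huw, hvw, rfl⟩
      have hh := h {u, v, w} hT ⟨u, by simp⟩
      rw [hc] at hh
      rcases hcol with ⟨k, h1, h2, h3⟩ | ⟨φ, h1, h2, h3⟩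
      · have hsub : ({u, v, w} : Finset (PT G)).biUnion V ⊆ ({k} : Finset (Fin 3))ᶜ := by
          intro i hi
          simp only [Finset.mem_biUnion, Finset.mem_insert, Finset.mem_singleton] at hi
          simp only [Finset.mem_compl, Finset.mem_singleton]
          rintro rfl
          obtain ⟨a, (rfl | rfl | rfl), ha⟩ := hi <;> contradiction
        have h5 := Finset.card_le_card hsub
        rw [Finset.card_compl, Finset.card_singleton] at h5
        simp only [Fintype.card_fin] at h5
        omega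
      · have h6 := hh.2 ⟨φ, by
          intro x hx
          simp only [Finset.mem_insert, Finset.mem_singleton] at hx
          rcases hx with rfl | rfl | rfl <;> assumption⟩
        have h7 : (({u, v, w} : Finset (PT G)).biUnion V).card ≤ 3 :=
          le_trans (Finset.card_le_univ _) (by simp)
        omega
  · rintro ⟨hc, hcol⟩ T hT hn
    have h3 := hc T hT
    have h0 : 1 ≤ T.card := Finset.card_pos.mpr hn
    have hcases : T.card = 1 ∨ T.card = 2 ∨ T.card = 3 := by omega
    rcases hcases with h | h | h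
    · obtain ⟨u, rfl⟩ := Finset.card_eq_one.mp h
      rw [Finset.singleton_biUnion, Finset.card_singleton]
      refine ⟨V_card_pos u, ?_⟩
      rintro ⟨φ, hφ⟩
      rw [V_card_comp (hφ u (by simp))]
    · obtain ⟨u, v, huv, rfl⟩ := Finset.card_eq_two.mp h
      rw [Finset.card_pair huv, Finset.biUnion_insert, Finset.singleton_biUnion]
      refine ⟨V_pair u v huv, ?_⟩
      rintro ⟨φ, hφ⟩
      rw [V_comp_pair (hφ u (by simp)) (hφ v (by simp)) huv]
      simp
    · obtain ⟨u, v, w, huv, huw, hvw, rfl⟩ := Finset.card_eq_three.mp h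
      have hu : u ∈ S := hT (by simp)
      have hv : v ∈ S := hT (by simp)
      have hw : w ∈ S := hT (by simp)
      have hnc := hcol u hu v hv w hw huv huw hvw
      rw [h]
      constructor
      · have huniv : ({u, v, w} : Finset (PT G)).biUnion V = Finset.univ := by
          ext k
          simp only [Finset.mem_univ, iff_true]
          by_contra hk
          apply hnc
          left
          refine ⟨k, ?_, ?_, ?_⟩ <;>
          · intro hk'
            apply hk
            simp only [Finset.mem_biUnion, Finset.mem_insert, Finset.mem_singleton]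
            first
            | exact ⟨u, Or.inl rfl, hk'⟩
            | exact ⟨v, Or.inr (Or.inl rfl), hk'⟩
            | exact ⟨w, Or.inr (Or.inr rfl), hk'⟩
        rw [huniv]; simp
      · rintro ⟨φ, hφ⟩
        exact absurd (Or.inr ⟨φ, hφ u (by simp), hφ v (by simp), hφ w (by simp)⟩) hnc

lemma FI_small {S : Set (PT G)} (hS : S.Finite) (h : S.ncard ≤ 2) : FI S := by
  classical
  rw [FI_iff']
  constructor
  · intro T hT
    have := Set.ncard_le_ncard hT hS
    rw [Set.ncard_coe_finset] at this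
    omega
  · intro u hu v hv w hw huv huw hvw _
    have hT : (↑({u, v, w} : Finset (PT G)) : Set (PT G)) ⊆ S := by
      intro x hx
      simp only [Finset.coe_insert, Finset.coe_singleton, Set.mem_insert_iff,
        Set.mem_singleton_iff] at hx
      rcases hx with rfl | rfl | rfl <;> assumption
    have hc : ({u, v, w} : Finset (PT G)).card = 3 := by
      rw [Finset.card_eq_three]; exact ⟨u, v, w, huv, huw, hvw, rfl⟩
    have := Set.ncard_le_ncard hT hS
    rw [Set.ncard_coe_finset] at this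
    omega

lemma FI_triple {u v w : PT G} (huv : u ≠ v) (huw : u ≠ w) (hvw : v ≠ w) :
    FI ({u, v, w} : Set (PT G)) ↔ ¬ Col u v w := by
  classical
  rw [FI_iff']
  constructor
  · intro h
    exact h.2 u (by simp) v (by simp) w (by simp) huv huw hvw
  · intro h
    constructor
    · intro T hT
      have h1 : T ⊆ ({u, v, w} : Finset (PT G)) := by
        intro x hx
        have := hT hx
        simpa using this
      exact le_trans (Finset.card_le_card h1) Finset.card_le_three
    · intro a ha b hb c hc hab hac hbc hcol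
      simp only [Set.mem_insert_iff, Set.mem_singleton_iff] at ha hb hc
      apply h
      rcases ha with rfl | rfl | rfl <;> rcases hb with rfl | rfl | rfl <;>
        rcases hc with rfl | rfl | rfl <;>
      first
      | exact absurd rfl hab
      | exact absurd rfl hac
      | exact absurd rfl hbc
      | exact hcol
      | exact Col_rot hcol
      | exact Col_rot (Col_rot hcol)
      | exact Col_swap hcol
      | exact Col_rot (Col_swap hcol)
      | exact Col_rot (Col_rot (Col_swap hcol))

lemma line_ext {u v e : PT G} (huv : u ≠ v) {k : Fin 3} (hu : k ∉ V u) (hv : k ∉ V v)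
    (h : Col e u v) : k ∉ V e := by
  rcases h with ⟨k', h1, h2, h3⟩ | ⟨φ, h1, h2, h3⟩
  · rw [two_line huv hu hv h2 h3]; exact h1
  · have := V_comp_pair h2 h3 huv
    have hk : k ∈ V u ∪ V v := by rw [this]; simp
    rcases Finset.mem_union.mp hk with h | h <;> contradiction

lemma aug {S S' : Set (PT G)} (hS : S.Finite) (hS' : S'.Finite) (h : FI S) (h' : FI S')
    (hlt : S.ncard < S'.ncard) : ∃ e ∈ S', e ∉ S ∧ FI (insert e S) := by
  classical
  have h3 : S'.ncard ≤ 3 := by
    have := ((FI_iff' S').mp h').1 hS'.toFinset (by simp)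
    rwa [← Set.ncard_eq_toFinset_card S' hS'] at this
  by_cases hs : S.ncard ≤ 1
  · obtain ⟨e, he, he'⟩ := Set.exists_mem_notMem_of_ncard_lt_ncard hlt hS
    refine ⟨e, he, he', FI_small (hS.insert e) ?_⟩
    rw [Set.ncard_insert_of_notMem he' hS]
    omega
  · have h2 : S.ncard = 2 := by omega
    have h3' : S'.ncard = 3 := by omega
    obtain ⟨u, v, huv, rfl⟩ := Set.ncard_eq_two.mp h2
    obtain ⟨x, y, z, hxy, hxz, hyz, rfl⟩ := Set.ncard_eq_three.mp h3'
    by_contra hcon
    push Not at hcon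
    have key : ∀ e ∈ ({x, y, z} : Set (PT G)), e ≠ u → e ≠ v → Col e u v := by
      intro e he heu hev
      have h1 := hcon e he (by simp [heu, hev])
      rw [FI_triple heu hev huv] at h1
      exact not_not.mp h1
    have hnc := (FI_triple hxy hxz hyz).mp h'
    by_cases hk : ∃ k, k ∉ V u ∧ k ∉ V v
    · obtain ⟨k, hku, hkv⟩ := hk
      have hall : ∀ e ∈ ({x, y, z} : Set (PT G)), k ∉ V e := by
        intro e he
        by_cases heu : e = u
        · rw [heu]; exact hku
        by_cases hev : e = v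
        · rw [hev]; exact hkv
        exact line_ext huv hku hkv (key e he heu hev)
      exact hnc (Or.inl ⟨k, hall x (by simp), hall y (by simp), hall z (by simp)⟩)
    · push Not at hk
      have key2 : ∀ e ∈ ({x, y, z} : Set (PT G)), e ≠ u → e ≠ v →
          ∃ φ : Fin 3 → G, Comp φ e ∧ Comp φ u ∧ Comp φ v := by
        intro e he heu hev
        rcases key e he heu hev with ⟨k, h1, h2, h3⟩ | h
        · exact absurd (hk k h2) h3
        · exact h
      have uniq : ∀ e ∈ ({x, y, z} : Set (PT G)), ∀ e' ∈ ({x, y, z} : Set (PT G)),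
          e ≠ u → e ≠ v → e' ≠ u → e' ≠ v → e = e' := by
        intro e he e' he' h1 h2 h3 h4
        obtain ⟨φ, a1, a2, a3⟩ := key2 e he h1 h2
        obtain ⟨ψ, b1, b2, b3⟩ := key2 e' he' h3 h4
        exact comp_unique a2 a3 a1 b2 b3 b1 huv h1 h2 h3 h4
      have hx : x ∈ ({x, y, z} : Set (PT G)) := by simp
      have hy : y ∈ ({x, y, z} : Set (PT G)) := by simp
      have hz : z ∈ ({x, y, z} : Set (PT G)) := by simp
      by_cases hxu : x = u
      · by_cases hyv : y = v
        · have h5 : z ≠ u := fun h => hxz (by rw [hxu, h])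
          have h6 : z ≠ v := fun h => hyz (by rw [hyv, h])
          have := key z hz h5 h6
          rw [← hxu, ← hyv] at this
          exact hnc (Col_rot this)
        · have h5 : y ≠ u := fun h => hxy (by rw [hxu, h])
          have h6 : z ≠ u := fun h => hxz (by rw [hxu, h])
          by_cases hzv : z = v
          · have := key y hy h5 hyv
            rw [← hxu, ← hzv] at this
            exact hnc (Col_swap this)
          · exact hyz (uniq y hy z hz h5 hyv h6 hzv)
      · by_cases hxv : x = v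
        · have h5 : y ≠ v := fun h => hxy (by rw [hxv, h])
          have h6 : z ≠ v := fun h => hxz (by rw [hxv, h])
          by_cases hyu : y = u
          · have h7 : z ≠ u := fun h => hyz (by rw [hyu, h])
            have := key z hz h7 h6
            rw [← hxv, ← hyu] at this
            exact hnc (Col_swap (Col_rot this))
          · by_cases hzu : z = u
            · have := key y hy hyu h5
              rw [← hxv, ← hzu] at this
              exact hnc (Col_rot (Col_rot this))
            · exact hyz (uniq y hy z hz hyu h5 hzu h6)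
        · by_cases hyu : y = u
          · by_cases hzv : z = v
            · have := key x hx hxu hxv
              rw [← hyu, ← hzv] at this
              exact hnc this
            · have h7 : z ≠ u := fun h => hyz (by rw [hyu, h])
              exact hxz (uniq x hx z hz hxu hxv h7 hzv)
          · by_cases hyv : y = v
            · by_cases hzu : z = u
              · have := key x hx hxu hxv
                rw [← hyv, ← hzu] at this
                exact hnc (Col_swap (Col_rot (Col_rot this)))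
              · have h7 : z ≠ v := fun h => hyz (by rw [hyv, h])
                exact hxz (uniq x hx z hz hxu hxv hzu h7)
            · exact hxy (uniq x hx y hy hxu hxv hyu hyv)

lemma FI_mono {S S' : Set (PT G)} (h : FI S') (hs : S ⊆ S') : FI S :=
  fun T hT hn => h T (hT.trans hs) hn

noncomputable def Mat {n : ℕ} (f : Fin n → PT G) (hf : Function.Injective f) : Matroid (Fin n) :=
  (IndepMatroid.ofFinite (E := Set.univ) (Set.toFinite _) (fun I => FI (f '' I))
    (by
      show FI (f '' ∅)
      rw [Set.image_empty]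
      exact FI_small Set.finite_empty (by simp))
    (fun I J hJ hIJ => FI_mono hJ (Set.image_mono hIJ))
    (by
      intro I J hI hJ hlt
      have h1 : (f '' I).ncard < (f '' J).ncard := by
        rwa [Set.ncard_image_of_injective _ hf, Set.ncard_image_of_injective _ hf]
      obtain ⟨e, he, he', hFI⟩ := aug (Set.toFinite _) (Set.toFinite _) hI hJ h1
      obtain ⟨i, hi, rfl⟩ := he
      refine ⟨i, hi, fun h => he' ⟨i, h, rfl⟩, ?_⟩
      rw [Set.image_insert_eq]
      exact hFI)
    (fun I _ => Set.subset_univ _)).matroid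

lemma Mat_E {n : ℕ} (f : Fin n → PT G) (hf : Function.Injective f) :
    (Mat f hf).E = Set.univ := rfl

lemma Mat_indep {n : ℕ} (f : Fin n → PT G) (hf : Function.Injective f) (I : Set (Fin n)) :
    (Mat f hf).Indep I ↔ FI (f '' I) := by
  unfold Mat
  simp

/-- four points with all triples collinear lie on a coordinate line -/
lemma line4 {u v w x : PT G} (huv : u ≠ v) (huw : u ≠ w) (hvw : v ≠ w) (hux : u ≠ x)
    (hvx : v ≠ x) (hwx : w ≠ x) (h1 : Col w u v) (h2 : Col x u v) :
    ∃ k, k ∉ V u ∧ k ∉ V v := by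
  rcases h1 with ⟨k, a1, a2, a3⟩ | ⟨φ, a1, a2, a3⟩
  · exact ⟨k, a2, a3⟩
  · rcases h2 with ⟨k, b1, b2, b3⟩ | ⟨ψ, b1, b2, b3⟩
    · exact ⟨k, b2, b3⟩
    · exact absurd (comp_unique a2 a3 a1 b2 b3 b1 huv huw.symm hvw.symm hux.symm hvx.symm) hwx


def dg (i : Fin 3) (u : PT G) : G :=
  Sum.elim (fun _ => 1) (fun x => if x.2.1.1 = i then x.1 else x.1⁻¹) u

lemma comp_dg {i j : Fin 3} (hij : i ≠ j) {u : PT G} (hu : V u = {i, j}) (φ : Fin 3 → G) :
    Comp φ u ↔ dg i u = φ i * (φ j)⁻¹ := by
  rcases u with a | ⟨g, ⟨⟨p, q⟩, hpq⟩⟩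
  · exfalso
    have h1 : (V (Sum.inl a : PT G)).card = 1 := by simp [V]
    rw [hu, Finset.card_pair hij] at h1
    omega
  · simp only [V, Sum.elim_inr] at hu
    have hpq' : p ≠ q := ne_of_lt hpq
    have hp : p = i ∨ p = j := by
      have : p ∈ ({i, j} : Finset (Fin 3)) := by rw [← hu]; simp
      simpa using this
    have hq : q = i ∨ q = j := by
      have : q ∈ ({i, j} : Finset (Fin 3)) := by rw [← hu]; simp
      simpa using this
    simp only [Comp, dg, Sum.elim_inr]
    rcases hp with rfl | rfl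
    · rcases hq with rfl | rfl
      · exact absurd rfl hpq'
      · simp
    · rcases hq with rfl | rfl
      · rw [if_neg hpq']
        rw [inv_eq_iff_eq_inv]
        rw [mul_inv_rev, inv_inv]
      · exact absurd rfl hpq'

lemma transversal {i j k : Fin 3} (hij : i ≠ j) (hjk : j ≠ k) (hik : i ≠ k) {u v w : PT G}
    (hu : V u = {i, j}) (hv : V v = {j, k}) (hw : V w = {i, k}) :
    Col u v w ↔ dg i u * dg j v = dg i w := by
  constructor
  · rintro (⟨m, h1, h2, h3⟩ | ⟨φ, h1, h2, h3⟩)
    · exfalso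
      rw [hu] at h1
      rw [hv] at h2
      simp only [Finset.mem_insert, Finset.mem_singleton, not_or] at h1 h2
      have : ∀ i j k m : Fin 3, i ≠ j → j ≠ k → i ≠ k → m ≠ i → m ≠ j → m ≠ k → False := by
        decide
      exact this i j k m hij hjk hik h1.1 h1.2 h2.2
    · rw [comp_dg hij hu] at h1
      rw [comp_dg hjk hv] at h2
      rw [comp_dg hik hw] at h3
      rw [h1, h2, h3]; group
  · intro h
    right
    refine ⟨fun m => if m = i then dg i u * dg j v else if m = j then dg j v else 1, ?_, ?_, ?_⟩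
    · rw [comp_dg hij hu]
      simp [hij.symm]
    · rw [comp_dg hjk hv]
      simp [hij.symm, hjk.symm, hik.symm]
    · rw [comp_dg hik hw]
      simp [hik.symm, hjk.symm, h]

lemma finite_contra (H : Type) [Group H] [Finite H] (A B C T : H) (h1 : B * B = C)
    (h2 : B * A = A * C) (h3 : T * C = C * T) : T * B = B * T := by
  have hC : C = A⁻¹ * B * A := by
    rw [mul_assoc, h2]; group
  have ho : orderOf C = orderOf B := by
    have h := orderOf_injective (MulAut.conj A⁻¹).toMonoidHom (MulAut.conj A⁻¹).injective B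
    simp only [MulEquiv.toMonoidHom_eq_coe, MonoidHom.coe_coe, MulAut.conj_apply, inv_inv] at h
    rw [hC]
    exact h
  have hB2 : B ^ 2 = C := by rw [pow_two, h1]
  have hpos : 0 < orderOf B := orderOf_pos B
  have h4 : orderOf (B ^ 2) = orderOf B / Nat.gcd (orderOf B) 2 := orderOf_pow B
  rw [hB2, ho] at h4
  have hg : Nat.gcd (orderOf B) 2 = 1 := by
    have h5 : Nat.gcd (orderOf B) 2 ≠ 0 := by
      intro h; rw [Nat.gcd_eq_zero_iff] at h; omega
    by_contra h6
    have h7 : 2 ≤ Nat.gcd (orderOf B) 2 := by omega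
    have := Nat.div_lt_self hpos h7
    omega
  obtain ⟨m, hm⟩ := exists_pow_eq_self_of_coprime (x := B) (n := 2) (by
    rw [Nat.Coprime, Nat.gcd_comm]; exact hg)
  rw [hB2] at hm
  have hc : Commute T C := h3
  have := hc.pow_right m
  rw [hm] at this
  exact this


abbrev Om := ℤ × ℕ
abbrev A0 := Equiv.Perm Om

def pa : A0 where
  toFun x := (x.1 / 2, 2 * x.2 + (x.1 % 2).toNat)
  invFun x := (2 * x.1 + (x.2 : ℤ) % 2, x.2 / 2)
  left_inv := by
    rintro ⟨n, k⟩
    ext
    · simp only; omega
    · simp only; omega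
  right_inv := by
    rintro ⟨n, k⟩
    ext
    · simp only; omega
    · simp only; omega

def pb : A0 where
  toFun x := (x.1 + 1, x.2)
  invFun x := (x.1 - 1, x.2)
  left_inv := by rintro ⟨n, k⟩; simp
  right_inv := by rintro ⟨n, k⟩; simp

def pt : A0 where
  toFun x := (if x.1 % 2 = 0 then x.1 + 2 else x.1, x.2)
  invFun x := (if x.1 % 2 = 0 then x.1 - 2 else x.1, x.2)
  left_inv := by
    rintro ⟨n, k⟩
    ext
    · simp only; split_ifs <;> omega
    · rfl
  right_inv := by
    rintro ⟨n, k⟩
    ext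
    · simp only; split_ifs <;> omega
    · rfl

lemma rel1 : pb * pa = pa * (pb * pb) := by
  ext ⟨n, k⟩
  · simp only [pa, pb, Equiv.Perm.mul_apply, Equiv.coe_fn_mk]; omega
  · simp only [pa, pb, Equiv.Perm.mul_apply, Equiv.coe_fn_mk]; omega

lemma rel2 : pt * (pb * pb) = (pb * pb) * pt := by
  ext ⟨n, k⟩
  · simp only [pt, pb, Equiv.Perm.mul_apply, Equiv.coe_fn_mk]; split_ifs <;> omega
  · simp only [pt, pb, Equiv.Perm.mul_apply, Equiv.coe_fn_mk]

def test (g : A0) : (ℤ × ℕ) × (ℤ × ℕ) := (g (0, 0), g (1, 0))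

def p01 : {p : Fin 3 × Fin 3 // p.1 < p.2} := ⟨(0, 1), by decide⟩
def p02 : {p : Fin 3 × Fin 3 // p.1 < p.2} := ⟨(0, 2), by decide⟩
def p12 : {p : Fin 3 × Fin 3 // p.1 < p.2} := ⟨(1, 2), by decide⟩

def ff : Fin 20 → PT A0 :=
  ![Sum.inl 0, Sum.inl 1, Sum.inl 2,
    Sum.inr (1, p01), Sum.inr (pa, p01), Sum.inr (pb, p01), Sum.inr (pb * pb, p01), Sum.inr (pt, p01),
    Sum.inr (1, p12), Sum.inr (pa, p12), Sum.inr (pb, p12), Sum.inr (pb * pb, p12), Sum.inr (pt, p12),
    Sum.inr (pa, p02), Sum.inr (pb, p02), Sum.inr (pb * pb, p02), Sum.inr (pt, p02),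
    Sum.inr (pb * pa, p02), Sum.inr (pt * (pb * pb), p02), Sum.inr (pt * pb, p02)]

lemma ff_inj : Function.Injective ff := by
  have h : Function.Injective (fun i => Sum.map (id : Fin 3 → Fin 3) (Prod.map test id) (ff i)) := by
    decide
  intro i j hij
  apply h
  simp only [hij]


lemma internal_V {i j k : Fin 3} (hij : i ≠ j) (hik : i ≠ k) (hjk : j ≠ k) {u : PT G}
    (hk : k ∉ V u) (hi : u ≠ Sum.inl i) (hj : u ≠ Sum.inl j) : V u = {i, j} := by
  have hcases : ∀ i j k m : Fin 3, i ≠ j → i ≠ k → j ≠ k → m ≠ k → m = i ∨ m = j := by decide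
  rcases u with a | ⟨g, ⟨⟨p, q⟩, hpq⟩⟩
  · exfalso
    have ha : a ≠ k := by
      rintro rfl; apply hk; simp [V]
    rcases hcases i j k a hij hik hjk ha with rfl | rfl
    · exact hi rfl
    · exact hj rfl
  · simp only [V, Sum.elim_inr] at hk ⊢
    simp only [Finset.mem_insert, Finset.mem_singleton, not_or] at hk
    have hpq' : p ≠ q := ne_of_lt hpq
    rcases hcases i j k p hij hik hjk (fun h => hk.1 h.symm) with rfl | rfl
    · rcases hcases p j k q hij hik hjk (fun h => hk.2 h.symm) with rfl | rfl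
      · exact absurd rfl hpq'
      · rfl
    · rcases hcases i p k q hij hik hjk (fun h => hk.2 h.symm) with rfl | rfl
      · exact Finset.pair_comm _ _
      · exact absurd rfl hpq'

lemma joint_V {i j k : Fin 3} (hij : i ≠ j) (hik : i ≠ k) (hjk : j ≠ k) {u : PT G}
    (hj : j ∉ V u) (hk : k ∉ V u) : u = Sum.inl i := by
  have hcases' : ∀ i j k m : Fin 3, i ≠ j → i ≠ k → j ≠ k → (m ≠ j ∧ m ≠ k) → m = i := by decide
  have hcases : ∀ i j k m : Fin 3, i ≠ j → i ≠ k → j ≠ k → m ≠ j → m ≠ k → m = i :=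
    fun i j k m h1 h2 h3 h4 h5 => hcases' i j k m h1 h2 h3 ⟨h4, h5⟩
  rcases u with a | ⟨g, ⟨⟨p, q⟩, hpq⟩⟩
  · have ha : a ≠ k := by
      rintro rfl; apply hk; simp [V]
    have ha' : a ≠ j := by
      rintro rfl; apply hj; simp [V]
    rw [hcases i j k a hij hik hjk ha' ha]
  · exfalso
    simp only [V, Sum.elim_inr] at hk hj
    simp only [Finset.mem_insert, Finset.mem_singleton, not_or] at hk hj
    have h1 := hcases i j k p hij hik hjk (fun h => hj.1 h.symm) (fun h => hk.1 h.symm)
    have h2 := hcases i j k q hij hik hjk (fun h => hj.2 h.symm) (fun h => hk.2 h.symm)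
    exact (ne_of_lt hpq) (h1.trans h2.symm)

/-- The negation of the preceding statement: If a finite matroid embeds in the rank-r Dowling geometry over some infinite group, encoded as a gain-graph frame matroid, then it also embeds in the rank-r Dowling geometry over some finite group. -/
theorem result :
    ¬ (∀ (n r : ℕ) (M : Matroid (Fin n)) (A : Type) [Group A], Infinite A →
      (∃ f : Fin n → Fin r ⊕ (A × {p : Fin r × Fin r // p.1 < p.2}),
        Set.InjOn f M.E ∧
        ∀ X ⊆ M.E, (M.Indep X ↔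
          ∀ T : Finset (Fin r ⊕ (A × {p : Fin r × Fin r // p.1 < p.2})),
            (↑T ⊆ f '' X) → T.Nonempty →
              (T.card ≤ (T.biUnion (fun e => Sum.elim (fun i => ({i} : Finset (Fin r)))
                  (fun x => ({x.2.1.1, x.2.1.2} : Finset (Fin r))) e)).card ∧
               (((∀ i : Fin r, Sum.inl i ∉ T) ∧
                  ∃ φ : Fin r → A, ∀ x : A × {p : Fin r × Fin r // p.1 < p.2},
                    Sum.inr x ∈ T → x.1 = φ x.2.1.1 * (φ x.2.1.2)⁻¹) →
                T.card + 1 ≤ (T.biUnion (fun e => Sum.elim (fun i => ({i} : Finset (Fin r)))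
                  (fun x => ({x.2.1.1, x.2.1.2} : Finset (Fin r))) e)).card)))) →
      ∃ (A' : Type) (_ : Group A'), Finite A' ∧
        ∃ f : Fin n → Fin r ⊕ (A' × {p : Fin r × Fin r // p.1 < p.2}),
          Set.InjOn f M.E ∧
          ∀ X ⊆ M.E, (M.Indep X ↔
            ∀ T : Finset (Fin r ⊕ (A' × {p : Fin r × Fin r // p.1 < p.2})),
              (↑T ⊆ f '' X) → T.Nonempty →
                (T.card ≤ (T.biUnion (fun e => Sum.elim (fun i => ({i} : Finset (Fin r)))
                    (fun x => ({x.2.1.1, x.2.1.2} : Finset (Fin r))) e)).card ∧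
                 (((∀ i : Fin r, Sum.inl i ∉ T) ∧
                    ∃ φ : Fin r → A', ∀ x : A' × {p : Fin r × Fin r // p.1 < p.2},
                      Sum.inr x ∈ T → x.1 = φ x.2.1.1 * (φ x.2.1.2)⁻¹) →
                  T.card + 1 ≤ (T.biUnion (fun e => Sum.elim (fun i => ({i} : Finset (Fin r)))
                    (fun x => ({x.2.1.1, x.2.1.2} : Finset (Fin r))) e)).card)))) := by
  intro h
  obtain ⟨H, hg, hfin, f', hinj, hind⟩ := h 20 3 (Mat ff ff_inj) A0 inferInstance
    ⟨ff, ff_inj.injOn, fun X _ => Mat_indep ff ff_inj X⟩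
  have hind' : ∀ X : Set (Fin 20), FI (ff '' X) ↔ FI (f' '' X) := by
    intro X
    rw [← Mat_indep ff ff_inj X]
    exact hind X (Set.subset_univ _)
  have hinj' : Function.Injective f' := Set.injOn_univ.mp hinj
  have hcol : ∀ i j k : Fin 20, i ≠ j → i ≠ k → j ≠ k →
      (Col (ff i) (ff j) (ff k) ↔ Col (f' i) (f' j) (f' k)) := by
    intro i j k hij hik hjk
    have h1 := hind' {i, j, k}
    rw [Set.image_insert_eq, Set.image_insert_eq, Set.image_singleton, Set.image_insert_eq,
      Set.image_insert_eq, Set.image_singleton, FI_triple (ff_inj.ne hij) (ff_inj.ne hik)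
      (ff_inj.ne hjk), FI_triple (hinj'.ne hij) (hinj'.ne hik) (hinj'.ne hjk)] at h1
    exact not_iff_not.mp h1
  have C01 : ∀ p : Fin 20, V (ff p) = {0, 1} → p ≠ 0 → p ≠ 1 → Col (f' p) (f' 0) (f' 1) := by
    intro p hp h0 h1
    rw [← hcol p 0 1 h0 h1 (by decide)]
    exact Or.inl ⟨2, by rw [hp]; decide, by decide, by decide⟩
  have C12 : ∀ p : Fin 20, V (ff p) = {1, 2} → p ≠ 1 → p ≠ 2 → Col (f' p) (f' 1) (f' 2) := by
    intro p hp h0 h1
    rw [← hcol p 1 2 h0 h1 (by decide)]
    exact Or.inl ⟨0, by rw [hp]; decide, by decide, by decide⟩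
  have C02 : ∀ p : Fin 20, V (ff p) = {0, 2} → p ≠ 0 → p ≠ 2 → Col (f' p) (f' 0) (f' 2) := by
    intro p hp h0 h1
    rw [← hcol p 0 2 h0 h1 (by decide)]
    exact Or.inl ⟨1, by rw [hp]; decide, by decide, by decide⟩
  obtain ⟨k2, k20, k21⟩ := line4 (hinj'.ne (show (0 : Fin 20) ≠ 1 by decide))
    (hinj'.ne (show (0 : Fin 20) ≠ 3 by decide)) (hinj'.ne (show (1 : Fin 20) ≠ 3 by decide))
    (hinj'.ne (show (0 : Fin 20) ≠ 4 by decide)) (hinj'.ne (show (1 : Fin 20) ≠ 4 by decide))
    (hinj'.ne (show (3 : Fin 20) ≠ 4 by decide))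
    (C01 3 (by decide) (by decide) (by decide)) (C01 4 (by decide) (by decide) (by decide))
  obtain ⟨k0, k01, k02⟩ := line4 (hinj'.ne (show (1 : Fin 20) ≠ 2 by decide))
    (hinj'.ne (show (1 : Fin 20) ≠ 8 by decide)) (hinj'.ne (show (2 : Fin 20) ≠ 8 by decide))
    (hinj'.ne (show (1 : Fin 20) ≠ 9 by decide)) (hinj'.ne (show (2 : Fin 20) ≠ 9 by decide))
    (hinj'.ne (show (8 : Fin 20) ≠ 9 by decide))
    (C12 8 (by decide) (by decide) (by decide)) (C12 9 (by decide) (by decide) (by decide))
  obtain ⟨k1, k10, k12⟩ := line4 (hinj'.ne (show (0 : Fin 20) ≠ 2 by decide))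
    (hinj'.ne (show (0 : Fin 20) ≠ 13 by decide)) (hinj'.ne (show (2 : Fin 20) ≠ 13 by decide))
    (hinj'.ne (show (0 : Fin 20) ≠ 14 by decide)) (hinj'.ne (show (2 : Fin 20) ≠ 14 by decide))
    (hinj'.ne (show (13 : Fin 20) ≠ 14 by decide))
    (C02 13 (by decide) (by decide) (by decide)) (C02 14 (by decide) (by decide) (by decide))
  have hnc : ¬ Col (f' 0) (f' 1) (f' 2) := by
    rw [← hcol 0 1 2 (by decide) (by decide) (by decide)]
    rintro (⟨k, a, b, c⟩ | ⟨φ, a, b, c⟩)
    · revert k; decide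
    · exact a
  have d01 : k0 ≠ k1 := by
    rintro rfl; exact hnc (Or.inl ⟨k0, k10, k01, k02⟩)
  have d02 : k0 ≠ k2 := by
    rintro rfl; exact hnc (Or.inl ⟨k0, k20, k01, k02⟩)
  have d12 : k1 ≠ k2 := by
    rintro rfl; exact hnc (Or.inl ⟨k1, k10, k21, k12⟩)
  have e0 : f' 0 = Sum.inl k0 := joint_V d01 d02 d12 k10 k20
  have e1 : f' 1 = Sum.inl k1 := joint_V d01.symm d12 d02 k01 k21
  have e2 : f' 2 = Sum.inl k2 := joint_V d02.symm d12.symm d01 k02 k12
  have V01 : ∀ p : Fin 20, V (ff p) = {0, 1} → V (f' p) = {k0, k1} := by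
    intro p hp
    have h0 : p ≠ 0 := by rintro rfl; revert hp; decide
    have h1 : p ≠ 1 := by rintro rfl; revert hp; decide
    refine internal_V d01 d02 d12 (line_ext (hinj'.ne (by decide)) k20 k21 (C01 p hp h0 h1)) ?_ ?_
    · rw [← e0]; exact hinj'.ne h0
    · rw [← e1]; exact hinj'.ne h1
  have V12 : ∀ p : Fin 20, V (ff p) = {1, 2} → V (f' p) = {k1, k2} := by
    intro p hp
    have h0 : p ≠ 1 := by rintro rfl; revert hp; decide
    have h1 : p ≠ 2 := by rintro rfl; revert hp; decide
    refine internal_V d12 d01.symm d02.symm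
      (line_ext (hinj'.ne (by decide)) k01 k02 (C12 p hp h0 h1)) ?_ ?_
    · rw [← e1]; exact hinj'.ne h0
    · rw [← e2]; exact hinj'.ne h1
  have V02 : ∀ p : Fin 20, V (ff p) = {0, 2} → V (f' p) = {k0, k2} := by
    intro p hp
    have h0 : p ≠ 0 := by rintro rfl; revert hp; decide
    have h1 : p ≠ 2 := by rintro rfl; revert hp; decide
    refine internal_V d02 d01 d12.symm
      (line_ext (hinj'.ne (by decide)) k10 k12 (C02 p hp h0 h1)) ?_ ?_
    · rw [← e0]; exact hinj'.ne h0
    · rw [← e2]; exact hinj'.ne h1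
  have R : ∀ p q s : Fin 20, V (ff p) = {0, 1} → V (ff q) = {1, 2} → V (ff s) = {0, 2} →
      (dg 0 (ff p) * dg 1 (ff q) = dg 0 (ff s) ↔ dg k0 (f' p) * dg k1 (f' q) = dg k0 (f' s)) := by
    intro p q s hp hq hs
    have hpq : p ≠ q := by
      rintro rfl; rw [hp] at hq; revert hq; decide
    have hps : p ≠ s := by
      rintro rfl; rw [hp] at hs; revert hs; decide
    have hqs : q ≠ s := by
      rintro rfl; rw [hq] at hs; revert hs; decide
    rw [← transversal (i := 0) (j := 1) (k := 2) (by decide) (by decide) (by decide) hp hq hs,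
      ← transversal d01 d12 d02 (V01 p hp) (V12 q hq) (V02 s hs)]
    exact hcol p q s hpq hps hqs
  have r1 := (R 3 9 13 (by decide) (by decide) (by decide)).mp (by simp [ff, dg, p01, p12, p02])
  have r2 := (R 4 8 13 (by decide) (by decide) (by decide)).mp (by simp [ff, dg, p01, p12, p02])
  have r3 := (R 3 10 14 (by decide) (by decide) (by decide)).mp (by simp [ff, dg, p01, p12, p02])
  have r4 := (R 5 8 14 (by decide) (by decide) (by decide)).mp (by simp [ff, dg, p01, p12, p02])
  have r5 := (R 3 11 15 (by decide) (by decide) (by decide)).mp (by simp [ff, dg, p01, p12, p02])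
  have r6 := (R 6 8 15 (by decide) (by decide) (by decide)).mp (by simp [ff, dg, p01, p12, p02])
  have r7 := (R 3 12 16 (by decide) (by decide) (by decide)).mp (by simp [ff, dg, p01, p12, p02])
  have r8 := (R 7 8 16 (by decide) (by decide) (by decide)).mp (by simp [ff, dg, p01, p12, p02])
  have r9 := (R 5 10 15 (by decide) (by decide) (by decide)).mp (by simp [ff, dg, p01, p12, p02])
  have r10 := (R 5 9 17 (by decide) (by decide) (by decide)).mp (by simp [ff, dg, p01, p12, p02])
  have r11 := (R 4 11 17 (by decide) (by decide) (by decide)).mp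
    (by simpa [ff, dg, p01, p12, p02] using rel1.symm)
  have r12 := (R 7 11 18 (by decide) (by decide) (by decide)).mp (by simp [ff, dg, p01, p12, p02])
  have r13 := (R 6 12 18 (by decide) (by decide) (by decide)).mp
    (by simpa [ff, dg, p01, p12, p02] using rel2.symm)
  have r14 := (R 7 10 19 (by decide) (by decide) (by decide)).mp (by simp [ff, dg, p01, p12, p02])
  have r15 : ¬ (dg k0 (f' 5) * dg k1 (f' 12) = dg k0 (f' 19)) := by
    rw [← R 5 12 19 (by decide) (by decide) (by decide)]
    intro h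
    have h1 : pb * pt = pt * pb := by simpa [ff, dg, p01, p12, p02] using h
    have h2 := congrArg (fun g : A0 => (g (0, 0)).1) h1
    revert h2
    decide
  apply r15
  have Ya : dg k1 (f' 9) = (dg k0 (f' 3))⁻¹ * dg k0 (f' 4) * dg k1 (f' 8) := by
    rw [mul_assoc, r2, ← r1]; group
  have Yb : dg k1 (f' 10) = (dg k0 (f' 3))⁻¹ * dg k0 (f' 5) * dg k1 (f' 8) := by
    rw [mul_assoc, r4, ← r3]; group
  have Yc : dg k1 (f' 11) = (dg k0 (f' 3))⁻¹ * dg k0 (f' 6) * dg k1 (f' 8) := by
    rw [mul_assoc, r6, ← r5]; group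
  have Yt : dg k1 (f' 12) = (dg k0 (f' 3))⁻¹ * dg k0 (f' 7) * dg k1 (f' 8) := by
    rw [mul_assoc, r8, ← r7]; group
  have hB := finite_contra H ((dg k0 (f' 3))⁻¹ * dg k0 (f' 4)) ((dg k0 (f' 3))⁻¹ * dg k0 (f' 5))
    ((dg k0 (f' 3))⁻¹ * dg k0 (f' 6)) ((dg k0 (f' 3))⁻¹ * dg k0 (f' 7))
    (by
      rw [Yb, ← r6] at r9
      have h1 : dg k0 (f' 5) * ((dg k0 (f' 3))⁻¹ * dg k0 (f' 5)) = dg k0 (f' 6) := by
        apply mul_right_cancel (b := dg k1 (f' 8))
        rw [← r9]; simp only [mul_assoc]
      rw [mul_assoc, h1])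
    (by
      rw [← r10, Ya, Yc] at r11
      have h1 : dg k0 (f' 5) * ((dg k0 (f' 3))⁻¹ * dg k0 (f' 4)) =
          dg k0 (f' 4) * ((dg k0 (f' 3))⁻¹ * dg k0 (f' 6)) := by
        apply mul_right_cancel (b := dg k1 (f' 8))
        simp only [mul_assoc] at r11 ⊢
        exact r11.symm
      rw [mul_assoc, h1, mul_assoc])
    (by
      rw [← r12, Yc, Yt] at r13
      have h1 : dg k0 (f' 7) * ((dg k0 (f' 3))⁻¹ * dg k0 (f' 6)) =
          dg k0 (f' 6) * ((dg k0 (f' 3))⁻¹ * dg k0 (f' 7)) := by
        apply mul_right_cancel (b := dg k1 (f' 8))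
        simp only [mul_assoc] at r13 ⊢
        exact r13.symm
      rw [mul_assoc, h1, mul_assoc])
  rw [← r14, Yb, Yt]
  have h2 : dg k0 (f' 7) * ((dg k0 (f' 3))⁻¹ * dg k0 (f' 5)) =
      dg k0 (f' 5) * ((dg k0 (f' 3))⁻¹ * dg k0 (f' 7)) := by
    apply mul_left_cancel (a := (dg k0 (f' 3))⁻¹)
    simp only [mul_assoc] at hB ⊢
    exact hB
  have h3 := congrArg (fun g => g * dg k1 (f' 8)) h2
  simp only [mul_assoc] at h3 ⊢
  exact h3.symm

end Pool.Agent.S07660
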