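import Pool.Statements.S07671

set_option autoImplicit false
open Pool Pool.MP_e446a7_co

namespace Pool.Agent.S07671

/-- Autocorrelation on `ZMod N`. -/
lemma shift_sum {N : ℕ} [NeZero N] (g : ZMod N → ℤ) (p q : ZMod N) :
    ∑ x : ZMod N, g (x + p) * g (x + q) = ∑ x : ZMod N, g x * g (x + (q - p)) := by
  rw [← Equiv.sum_comp (Equiv.addRight p) (fun x => g x * g (x + (q - p)))]
  apply Finset.sum_congr rfl
  intro x _
  simp only [Equiv.coe_addRight]
  congr 2
  ring

lemma sq_sum {N : ℕ} [NeZero N] (g : ZMod N → ℤ) (m : ℕ) (c : ZMod N) :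
    ∑ x : ZMod N, (∑ i ∈ Finset.range m, g (x + (i : ZMod N) * c)) ^ 2
      = ∑ i ∈ Finset.range m, ∑ j ∈ Finset.range m,
          ∑ x : ZMod N, g x * g (x + ((j : ZMod N) - (i : ZMod N)) * c) := by
  have h1 : ∀ x : ZMod N, (∑ i ∈ Finset.range m, g (x + (i : ZMod N) * c)) ^ 2
      = ∑ i ∈ Finset.range m, ∑ j ∈ Finset.range m,
          g (x + (i : ZMod N) * c) * g (x + (j : ZMod N) * c) := by
    intro x
    rw [sq, Finset.sum_mul_sum]
  simp_rw [h1]
  rw [Finset.sum_comm]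
  apply Finset.sum_congr rfl
  intro i _
  rw [Finset.sum_comm]
  apply Finset.sum_congr rfl
  intro j _
  rw [shift_sum]
  apply Finset.sum_congr rfl
  intro x _
  congr 2
  ring

/-- The main positivity: the weighted average over differences is at least the diagonal part. -/
lemma total_lower {N : ℕ} [NeZero N] (g : ZMod N → ℤ) (hg : ∀ x, g x ^ 2 = 1) (k D : ℕ) :
    (k : ℤ) * (D : ℤ) ^ 2 * (N : ℤ) ≤
      ∑ u ∈ Finset.range D, ∑ v ∈ Finset.range D,
        ∑ x : ZMod N, (∑ i ∈ Finset.range k, g (x + (i : ZMod N) * ((u : ZMod N) - (v : ZMod N)))) ^ 2 := by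
  have h1 : ∑ u ∈ Finset.range D, ∑ v ∈ Finset.range D,
        ∑ x : ZMod N, (∑ i ∈ Finset.range k, g (x + (i : ZMod N) * ((u : ZMod N) - (v : ZMod N)))) ^ 2
      = ∑ i ∈ Finset.range k, ∑ j ∈ Finset.range k,
          ∑ x : ZMod N, (∑ u ∈ Finset.range D, g (x + (u : ZMod N) * ((j : ZMod N) - (i : ZMod N)))) ^ 2 := by
    simp_rw [sq_sum]
    calc ∑ u ∈ Finset.range D, ∑ v ∈ Finset.range D, ∑ i ∈ Finset.range k, ∑ j ∈ Finset.range k,
          ∑ x : ZMod N, g x * g (x + ((j : ZMod N) - (i : ZMod N)) * ((u : ZMod N) - (v : ZMod N)))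
        = ∑ v ∈ Finset.range D, ∑ u ∈ Finset.range D, ∑ i ∈ Finset.range k, ∑ j ∈ Finset.range k,
          ∑ x : ZMod N, g x * g (x + ((j : ZMod N) - (i : ZMod N)) * ((u : ZMod N) - (v : ZMod N))) :=
          Finset.sum_comm
      _ = ∑ v ∈ Finset.range D, ∑ i ∈ Finset.range k, ∑ u ∈ Finset.range D, ∑ j ∈ Finset.range k,
          ∑ x : ZMod N, g x * g (x + ((j : ZMod N) - (i : ZMod N)) * ((u : ZMod N) - (v : ZMod N))) :=
          Finset.sum_congr rfl (fun v _ => Finset.sum_comm)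
      _ = ∑ i ∈ Finset.range k, ∑ v ∈ Finset.range D, ∑ u ∈ Finset.range D, ∑ j ∈ Finset.range k,
          ∑ x : ZMod N, g x * g (x + ((j : ZMod N) - (i : ZMod N)) * ((u : ZMod N) - (v : ZMod N))) :=
          Finset.sum_comm
      _ = ∑ i ∈ Finset.range k, ∑ v ∈ Finset.range D, ∑ j ∈ Finset.range k, ∑ u ∈ Finset.range D,
          ∑ x : ZMod N, g x * g (x + ((j : ZMod N) - (i : ZMod N)) * ((u : ZMod N) - (v : ZMod N))) :=
          Finset.sum_congr rfl (fun i _ => Finset.sum_congr rfl (fun v _ => Finset.sum_comm))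
      _ = ∑ i ∈ Finset.range k, ∑ j ∈ Finset.range k, ∑ v ∈ Finset.range D, ∑ u ∈ Finset.range D,
          ∑ x : ZMod N, g x * g (x + ((j : ZMod N) - (i : ZMod N)) * ((u : ZMod N) - (v : ZMod N))) :=
          Finset.sum_congr rfl (fun i _ => Finset.sum_comm)
      _ = _ := by
          apply Finset.sum_congr rfl; intro i _
          apply Finset.sum_congr rfl; intro j _
          apply Finset.sum_congr rfl; intro v _
          apply Finset.sum_congr rfl; intro u _
          apply Finset.sum_congr rfl; intro x _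
          congr 2
          ring
  rw [h1]
  have h2 : ∀ i ∈ Finset.range k, (D : ℤ) ^ 2 * (N : ℤ) ≤ ∑ j ∈ Finset.range k,
          ∑ x : ZMod N, (∑ u ∈ Finset.range D, g (x + (u : ZMod N) * ((j : ZMod N) - (i : ZMod N)))) ^ 2 := by
    intro i hi
    have h3 : ∑ x : ZMod N, (∑ u ∈ Finset.range D, g (x + (u : ZMod N) * ((i : ZMod N) - (i : ZMod N)))) ^ 2
        = (D : ℤ) ^ 2 * (N : ℤ) := by
      simp only [sub_self, mul_zero, add_zero, Finset.sum_const, Finset.card_range, nsmul_eq_mul,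
        mul_pow, hg, mul_one, Finset.card_univ, ZMod.card]
      ring
    rw [← h3]
    exact Finset.single_le_sum
      (f := fun j : ℕ => ∑ x : ZMod N, (∑ u ∈ Finset.range D, g (x + (u : ZMod N) * ((j : ZMod N) - (i : ZMod N)))) ^ 2)
      (fun j _ => Finset.sum_nonneg (fun x _ => sq_nonneg _)) hi
  calc (k : ℤ) * (D : ℤ) ^ 2 * (N : ℤ) = ∑ i ∈ Finset.range k, (D : ℤ) ^ 2 * (N : ℤ) := by
        simp only [Finset.sum_const, Finset.card_range, nsmul_eq_mul]; ring
    _ ≤ _ := Finset.sum_le_sum h2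

/-- bound for a single positive difference. -/
lemma single_upper {N : ℕ} [NeZero N] (f : ℕ → ℤ) (hf : ∀ n, f n = 1 ∨ f n = -1) (k d : ℕ)
    (hk : 1 ≤ k) (hd : 1 ≤ d)
    (H : ∀ a : ℕ, 1 ≤ a → a + (k - 1) * d ≤ N → (∑ i ∈ Finset.range k, f (a + i * d)) ^ 2 ≤ (k : ℤ) - 1) :
    ∑ x : ZMod N, (∑ i ∈ Finset.range k, f ((x + (i : ZMod N) * (d : ZMod N)).val + 1)) ^ 2
      ≤ (N : ℤ) * ((k : ℤ) - 1) + (k : ℤ) ^ 3 * (d : ℤ) := by
  -- split
  have hbound : ∀ x : ZMod N, (∑ i ∈ Finset.range k, f ((x + (i : ZMod N) * (d : ZMod N)).val + 1)) ^ 2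
      ≤ ((k : ℤ) - 1) + (if N ≤ x.val + (k - 1) * d then (k : ℤ) ^ 2 else 0) := by
    intro x
    split_ifs with hx
    · have h1 : |∑ i ∈ Finset.range k, f ((x + (i : ZMod N) * (d : ZMod N)).val + 1)| ≤ (k : ℤ) := by
        calc |∑ i ∈ Finset.range k, f ((x + (i : ZMod N) * (d : ZMod N)).val + 1)|
            ≤ ∑ i ∈ Finset.range k, |f ((x + (i : ZMod N) * (d : ZMod N)).val + 1)| :=
              Finset.abs_sum_le_sum_abs _ _
          _ ≤ ∑ i ∈ Finset.range k, (1 : ℤ) := by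
              apply Finset.sum_le_sum
              intro i _
              rcases hf ((x + (i : ZMod N) * (d : ZMod N)).val + 1) with h | h <;> simp [h]
          _ = (k : ℤ) := by simp
      have h2 : (∑ i ∈ Finset.range k, f ((x + (i : ZMod N) * (d : ZMod N)).val + 1)) ^ 2 ≤ (k : ℤ) ^ 2 := by
        rw [← sq_abs]
        exact pow_le_pow_left₀ (abs_nonneg _) h1 2
      have h3 : (1 : ℤ) ≤ (k : ℤ) := by exact_mod_cast hk
      linarith
    · push Not at hx
      have h1 : ∀ i ∈ Finset.range k, f ((x + (i : ZMod N) * (d : ZMod N)).val + 1)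
          = f ((x.val + 1) + i * d) := by
        intro i hi
        have hi' : i ≤ k - 1 := by
          have := Finset.mem_range.mp hi
          omega
        have h4 : x.val + i * d < N := lt_of_le_of_lt (Nat.add_le_add_left (Nat.mul_le_mul_right d hi') _) hx
        have h5 : (x + (i : ZMod N) * (d : ZMod N)).val = x.val + i * d := by
          have h6 : x + (i : ZMod N) * (d : ZMod N) = ((x.val + i * d : ℕ) : ZMod N) := by
            push_cast
            rw [ZMod.natCast_zmod_val]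
          rw [h6, ZMod.val_natCast_of_lt h4]
        rw [h5]
        congr 1
        ring
      rw [Finset.sum_congr rfl h1]
      have h7 := H (x.val + 1) (by omega) (by omega)
      linarith
  have hcard : (Finset.univ.filter (fun x : ZMod N => N ≤ x.val + (k - 1) * d)).card ≤ k * d := by
    have h1 : (Finset.univ.filter (fun x : ZMod N => N ≤ x.val + (k - 1) * d)).card
        = ((Finset.univ.filter (fun x : ZMod N => N ≤ x.val + (k - 1) * d)).image ZMod.val).card := by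
      rw [Finset.card_image_of_injective _ (ZMod.val_injective N)]
    rw [h1]
    calc ((Finset.univ.filter (fun x : ZMod N => N ≤ x.val + (k - 1) * d)).image ZMod.val).card
        ≤ (Finset.Ico (N - (k - 1) * d) N).card := by
          apply Finset.card_le_card
          intro y hy
          simp only [Finset.mem_image, Finset.mem_filter, Finset.mem_univ, true_and] at hy
          obtain ⟨x, hx, rfl⟩ := hy
          have := ZMod.val_lt x
          simp only [Finset.mem_Ico]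
          omega
      _ ≤ (k - 1) * d := by
          rw [Nat.card_Ico]; omega
      _ ≤ k * d := Nat.mul_le_mul_right d (Nat.sub_le k 1)
  calc ∑ x : ZMod N, (∑ i ∈ Finset.range k, f ((x + (i : ZMod N) * (d : ZMod N)).val + 1)) ^ 2
      ≤ ∑ x : ZMod N, (((k : ℤ) - 1) + (if N ≤ x.val + (k - 1) * d then (k : ℤ) ^ 2 else 0)) :=
        Finset.sum_le_sum (fun x _ => hbound x)
    _ = (N : ℤ) * ((k : ℤ) - 1) + ((Finset.univ.filter (fun x : ZMod N => N ≤ x.val + (k - 1) * d)).card : ℤ) * (k : ℤ) ^ 2 := by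
        rw [Finset.sum_add_distrib, ← Finset.sum_filter]
        simp [Finset.card_univ, ZMod.card]
        ring
    _ ≤ (N : ℤ) * ((k : ℤ) - 1) + ((k : ℤ) * (d : ℤ)) * (k : ℤ) ^ 2 := by
        have : ((Finset.univ.filter (fun x : ZMod N => N ≤ x.val + (k - 1) * d)).card : ℤ) ≤ (k : ℤ) * (d : ℤ) := by
          exact_mod_cast hcard
        have h2 : (0 : ℤ) ≤ (k : ℤ) ^ 2 := sq_nonneg _
        nlinarith [mul_le_mul_of_nonneg_right this h2]
    _ = _ := by ring

/-- reflection: negative differences. -/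
lemma reflect {N : ℕ} [NeZero N] (g : ZMod N → ℤ) (k : ℕ) (c : ZMod N) :
    ∑ x : ZMod N, (∑ i ∈ Finset.range k, g (x + (i : ZMod N) * (-c))) ^ 2
      = ∑ x : ZMod N, (∑ i ∈ Finset.range k, g (x + (i : ZMod N) * c)) ^ 2 := by
  rw [sq_sum, sq_sum, Finset.sum_comm]
  apply Finset.sum_congr rfl; intro i _
  apply Finset.sum_congr rfl; intro j _
  apply Finset.sum_congr rfl; intro x _
  congr 2
  ring

/-- The polynomial bound `N(k, √k) ≤ 4 k^5`. -/
theorem poly_bound (k : ℕ) (hk : 1 ≤ k) (f : ℕ → ℤ) (hf : ∀ n, f n = 1 ∨ f n = -1) :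
    ∃ a d : ℕ, 1 ≤ a ∧ 1 ≤ d ∧ a + (k - 1) * d ≤ 4 * k ^ 5 ∧
      (k : ℤ) ≤ (∑ i ∈ Finset.range k, f (a + i * d)) ^ 2 := by
  by_contra hcon
  push Not at hcon
  set N : ℕ := 4 * k ^ 5 with hN
  have hNpos : 0 < N := by positivity
  have : NeZero N := ⟨hNpos.ne'⟩
  set D : ℕ := 2 * k ^ 2 with hD
  set g : ZMod N → ℤ := fun x => f (x.val + 1) with hg
  have hg1 : ∀ x, g x ^ 2 = 1 := by
    intro x
    rcases hf (x.val + 1) with h | h <;> simp [hg, h]
  have hlow := total_lower g hg1 k D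
  have hH : ∀ d : ℕ, 1 ≤ d → ∀ a : ℕ, 1 ≤ a → a + (k - 1) * d ≤ N →
      (∑ i ∈ Finset.range k, f (a + i * d)) ^ 2 ≤ (k : ℤ) - 1 := by
    intro d hd a ha hle
    have := hcon a d ha hd hle
    linarith
  -- upper bound for each pair (u, v)
  have hpair : ∀ u ∈ Finset.range D, ∀ v ∈ Finset.range D,
      ∑ x : ZMod N, (∑ i ∈ Finset.range k, g (x + (i : ZMod N) * ((u : ZMod N) - (v : ZMod N)))) ^ 2
        ≤ (if u = v then (k : ℤ) ^ 2 * N else 0) +
          (if u = v then 0 else ((N : ℤ) * ((k : ℤ) - 1) + (k : ℤ) ^ 3 * (D : ℤ))) := by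
    intro u hu v hv
    have hu' := Finset.mem_range.mp hu
    have hv' := Finset.mem_range.mp hv
    rcases lt_trichotomy u v with huv | huv | huv
    · have h1 : ((u : ZMod N) - (v : ZMod N)) = -(((v - u : ℕ) : ZMod N)) := by
        rw [Nat.cast_sub huv.le]; ring
      rw [h1, reflect]
      have h2 := single_upper (N := N) f hf k (v - u) hk (by omega) (hH (v - u) (by omega))
      have h3 : (((v - u : ℕ)) : ℤ) ≤ (D : ℤ) := by
        have : v - u ≤ D := by omega
        exact_mod_cast this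
      have h4 : (k : ℤ) ^ 3 * (((v - u : ℕ)) : ℤ) ≤ (k : ℤ) ^ 3 * (D : ℤ) :=
        mul_le_mul_of_nonneg_left h3 (by positivity)
      simp only [huv.ne, if_false, zero_add]
      linarith
    · subst huv
      simp only [sub_self, mul_zero, add_zero, if_true]
      apply le_of_eq
      simp only [Finset.sum_const, Finset.card_range, nsmul_eq_mul, mul_pow, hg1, mul_one,
        Finset.card_univ, ZMod.card]
      ring
    · have h1 : ((u : ZMod N) - (v : ZMod N)) = (((u - v : ℕ) : ZMod N)) := by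
        rw [Nat.cast_sub huv.le]
      rw [h1]
      have h2 := single_upper (N := N) f hf k (u - v) hk (by omega) (hH (u - v) (by omega))
      have h3 : (((u - v : ℕ)) : ℤ) ≤ (D : ℤ) := by
        have : u - v ≤ D := by omega
        exact_mod_cast this
      have h4 : (k : ℤ) ^ 3 * (((u - v : ℕ)) : ℤ) ≤ (k : ℤ) ^ 3 * (D : ℤ) :=
        mul_le_mul_of_nonneg_left h3 (by positivity)
      simp only [huv.ne', if_false, zero_add]
      linarith
  have hup : ∑ u ∈ Finset.range D, ∑ v ∈ Finset.range D,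
        ∑ x : ZMod N, (∑ i ∈ Finset.range k, g (x + (i : ZMod N) * ((u : ZMod N) - (v : ZMod N)))) ^ 2
      ≤ (D : ℤ) * ((k : ℤ) ^ 2 * N + ((D : ℤ) - 1) * ((N : ℤ) * ((k : ℤ) - 1) + (k : ℤ) ^ 3 * (D : ℤ))) := by
    calc _ ≤ ∑ u ∈ Finset.range D, ∑ v ∈ Finset.range D, ((if u = v then (k : ℤ) ^ 2 * N else 0) +
          (if u = v then 0 else ((N : ℤ) * ((k : ℤ) - 1) + (k : ℤ) ^ 3 * (D : ℤ)))) :=
          Finset.sum_le_sum (fun u hu => Finset.sum_le_sum (fun v hv => hpair u hu v hv))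
      _ = ∑ u ∈ Finset.range D, ((k : ℤ) ^ 2 * N + ((D : ℤ) - 1) * ((N : ℤ) * ((k : ℤ) - 1) + (k : ℤ) ^ 3 * (D : ℤ))) := by
          apply Finset.sum_congr rfl
          intro u hu
          have e1 : ∀ v ∈ Finset.range D, ((if u = v then (k : ℤ) ^ 2 * N else 0) +
            (if u = v then 0 else ((N : ℤ) * ((k : ℤ) - 1) + (k : ℤ) ^ 3 * (D : ℤ))))
            = (if u = v then (k : ℤ) ^ 2 * N - ((N : ℤ) * ((k : ℤ) - 1) + (k : ℤ) ^ 3 * (D : ℤ)) else 0)
              + ((N : ℤ) * ((k : ℤ) - 1) + (k : ℤ) ^ 3 * (D : ℤ)) := by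
            intro v _
            split_ifs <;> ring
          rw [Finset.sum_congr rfl e1, Finset.sum_add_distrib, Finset.sum_ite_eq, if_pos hu]
          simp only [Finset.sum_const, Finset.card_range, nsmul_eq_mul]
          ring
      _ = _ := by
          simp only [Finset.sum_const, Finset.card_range, nsmul_eq_mul]
  have hfin := le_trans hlow hup
  have hkz : (1 : ℤ) ≤ (k : ℤ) := by exact_mod_cast hk
  have hDz : (D : ℤ) = 2 * (k : ℤ) ^ 2 := by rw [hD]; push_cast; ring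
  have hNz : (N : ℤ) = 4 * (k : ℤ) ^ 5 := by rw [hN]; push_cast; ring
  rw [hDz, hNz] at hfin
  generalize (k : ℤ) = K at hfin hkz
  -- k D² N ≤ D (k² N + (D-1)(N(k-1) + k³ D))
  have hfac : (2 * K ^ 2) * (K ^ 2 * (4 * K ^ 5) + (2 * K ^ 2 - 1) * (4 * K ^ 5 * (K - 1) + K ^ 3 * (2 * K ^ 2)))
      - K * (2 * K ^ 2) ^ 2 * (4 * K ^ 5) = 2 * K ^ 7 * (2 * K ^ 0 * (1 - 2 * K)) := by ring
  have hneg : 2 * K ^ 7 * (2 * K ^ 0 * (1 - 2 * K)) < 0 := by
    have h7 : 0 < K ^ 7 := by positivity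
    have : (2 * K ^ 0 * (1 - 2 * K)) < 0 := by simp; linarith
    exact mul_neg_of_pos_of_neg (by positivity) this
  linarith

theorem result :
    ∃ C : ℝ, 1 < C ∧ ∀ k : ℕ, 1 ≤ k →
      ∀ f : ℕ → ℤ, (∀ n, f n = 1 ∨ f n = -1) →
        ∃ a d : ℕ, 1 ≤ a ∧ 1 ≤ d ∧
          (((a + (k - 1) * d : ℕ)) : ℝ) ≤ C ^ k ∧
          Real.sqrt (k : ℝ) ≤ ((|∑ i ∈ Finset.range k, f (a + i * d)| : ℤ) : ℝ) := by
  refine ⟨128, by norm_num, ?_⟩
  intro k hk f hf
  obtain ⟨a, d, ha, hd, hle, hs⟩ := poly_bound k hk f hf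
  refine ⟨a, d, ha, hd, ?_, ?_⟩
  · have h1 : 4 * k ^ 5 ≤ 128 ^ k := by
      have hk2 : k ≤ 2 ^ k := Nat.lt_two_pow_self.le
      calc 4 * k ^ 5 ≤ 4 ^ k * (2 ^ k) ^ 5 := by
            apply Nat.mul_le_mul
            · calc 4 = 4 ^ 1 := by norm_num
                _ ≤ 4 ^ k := Nat.pow_le_pow_right (by norm_num) hk
            · exact Nat.pow_le_pow_left hk2 5
        _ = 128 ^ k := by
            rw [← pow_mul, mul_comm k 5, pow_mul, ← mul_pow]
            norm_num
    have h2 : a + (k - 1) * d ≤ 128 ^ k := le_trans hle h1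
    exact_mod_cast h2
  · apply Real.sqrt_le_iff.mpr
    constructor
    · exact_mod_cast abs_nonneg _
    · have h3 : (k : ℤ) ≤ |∑ i ∈ Finset.range k, f (a + i * d)| ^ 2 := by
        rw [sq_abs]; exact hs
      exact_mod_cast h3

end Pool.Agent.S07671
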