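import Pool.Statements.S07679
-- import your own Pool.Agent.* helpers here

set_option autoImplicit false
open Pool Pool.MP_e4b521_co

namespace Pool.Agent.S07679

/-!
The conjecture of Alon, Balogh, Bollobas and Szabo is proved.  Twice the cost of a vertex set `S`
is `2|S| + sum over w outside S of (2 - number of neighbours of w in S)` (truncated subtraction);
`game_bound` shows that Minimizer can guarantee a dominating set of size at most half of it, and
`main_comb` is the resulting purely graph theoretic inequality.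
-/

section Helpers

open Finset Classical

section Game
variable {V : Type} [Fintype V] [DecidableEq V]

/-- number of neighbours of `w` in `S` -/
noncomputable def ia (G : SimpleGraph V) (S : Finset V) (w : V) : ℕ :=
  (S.filter (fun v => G.Adj w v)).card

/-- twice the cost of the set `S` -/
noncomputable def cost2 (G : SimpleGraph V) (S : Finset V) : ℕ :=
  2 * S.card + ∑ w ∈ Sᶜ, (2 - ia G S w)

/-- number of free edges from `w` to `S` -/
noncomputable def fr (G : SimpleGraph V) (S : Finset V) (A : Finset (V × V)) (w : V) : ℕ :=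
  (S.filter (fun s => G.Adj w s ∧ (s, w) ∉ A ∧ (w, s) ∉ A)).card

/-- `w` is dominated from `S` -/
def dm (S : Finset V) (A : Finset (V × V)) (w : V) : Prop := ∃ s ∈ S, (s, w) ∈ A

noncomputable def val (G : SimpleGraph V) (S : Finset V) (A : Finset (V × V)) (w : V) : ℕ :=
  if dm S A w then 0 else 2 - fr G S A w

noncomputable def Phi (G : SimpleGraph V) (S : Finset V) (A : Finset (V × V)) : ℕ :=
  ∑ w ∈ Sᶜ, val G S A w

lemma Phi_empty (G : SimpleGraph V) (S : Finset V) :
    Phi G S ∅ = ∑ w ∈ Sᶜ, (2 - ia G S w) := by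
  unfold Phi
  apply Finset.sum_congr rfl
  intro w _
  unfold val fr dm ia
  simp

lemma val_le_of_ne (G : SimpleGraph V) (S : Finset V) (A : Finset (V × V)) (u v w : V)
    (hwu : w ≠ u) : val G S (insert (u, v) A) w ≤ val G S A w := by
  unfold val
  by_cases h1 : dm S (insert (u, v) A) w
  · rw [if_pos h1]; exact Nat.zero_le _
  · rw [if_neg h1]
    have h2 : ¬ dm S A w := by
      rintro ⟨s, hs, hsA⟩
      exact h1 ⟨s, hs, Finset.mem_insert_of_mem hsA⟩
    rw [if_neg h2]
    have h3 : fr G S A w ≤ fr G S (insert (u, v) A) w := by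
      unfold fr
      apply Finset.card_le_card
      intro s hs
      rw [Finset.mem_filter] at hs ⊢
      refine ⟨hs.1, hs.2.1, ?_, ?_⟩
      · intro hmem
        exact h1 ⟨s, hs.1, hmem⟩
      · intro hmem
        rw [Finset.mem_insert] at hmem
        rcases hmem with hmem | hmem
        · exact hwu (Prod.mk.inj hmem).1
        · exact hs.2.2.2 hmem
    omega

lemma val_eq_of_notMem (G : SimpleGraph V) (S : Finset V) (A : Finset (V × V)) (u v : V)
    (huv : u ≠ v) (hv : v ∉ S) : val G S (insert (u, v) A) u ≤ val G S A u := by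
  unfold val
  by_cases h1 : dm S (insert (u, v) A) u
  · rw [if_pos h1]; exact Nat.zero_le _
  · rw [if_neg h1]
    have h2 : ¬ dm S A u := by
      rintro ⟨s, hs, hsA⟩
      exact h1 ⟨s, hs, Finset.mem_insert_of_mem hsA⟩
    rw [if_neg h2]
    have h3 : fr G S A u ≤ fr G S (insert (u, v) A) u := by
      unfold fr
      apply Finset.card_le_card
      intro s hs
      rw [Finset.mem_filter] at hs ⊢
      refine ⟨hs.1, hs.2.1, ?_, ?_⟩
      · intro hmem
        exact h1 ⟨s, hs.1, hmem⟩
      · intro hmem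
        rw [Finset.mem_insert] at hmem
        rcases hmem with hmem | hmem
        · have := (Prod.mk.inj hmem).2
          exact hv (this ▸ hs.1)
        · exact hs.2.2.2 hmem
    omega

lemma val_le_add_one (G : SimpleGraph V) (S : Finset V) (A : Finset (V × V)) (u v : V) :
    val G S (insert (u, v) A) u ≤ val G S A u + 1 := by
  unfold val
  by_cases h1 : dm S (insert (u, v) A) u
  · rw [if_pos h1]; exact Nat.zero_le _
  · rw [if_neg h1]
    have h2 : ¬ dm S A u := by
      rintro ⟨s, hs, hsA⟩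
      exact h1 ⟨s, hs, Finset.mem_insert_of_mem hsA⟩
    rw [if_neg h2]
    have h3 : fr G S A u ≤ fr G S (insert (u, v) A) u + 1 := by
      unfold fr
      have : (S.filter (fun s => G.Adj u s ∧ (s, u) ∉ A ∧ (u, s) ∉ A)) ⊆
          insert v (S.filter (fun s => G.Adj u s ∧ (s, u) ∉ insert (u, v) A ∧
            (u, s) ∉ insert (u, v) A)) := by
        intro s hs
        rw [Finset.mem_filter] at hs
        by_cases hsv : s = v
        · rw [hsv]; exact Finset.mem_insert_self _ _
        · apply Finset.mem_insert_of_mem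
          rw [Finset.mem_filter]
          refine ⟨hs.1, hs.2.1, ?_, ?_⟩
          · intro hmem
            exact h1 ⟨s, hs.1, hmem⟩
          · intro hmem
            rw [Finset.mem_insert] at hmem
            rcases hmem with hmem | hmem
            · exact hsv (Prod.mk.inj hmem).2
            · exact hs.2.2.2 hmem
      exact (Finset.card_le_card this).trans (Finset.card_insert_le _ _)
    omega

lemma Phi_le_add_one (G : SimpleGraph V) (S : Finset V) (A : Finset (V × V)) (u v : V) :
    Phi G S (insert (u, v) A) ≤ Phi G S A + 1 := by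
  unfold Phi
  by_cases hu : u ∈ Sᶜ
  · rw [← Finset.add_sum_erase _ _ hu, ← Finset.add_sum_erase _ _ hu]
    have h1 := val_le_add_one G S A u v
    have h2 : ∑ x ∈ (Sᶜ).erase u, val G S (insert (u, v) A) x ≤
        ∑ x ∈ (Sᶜ).erase u, val G S A x := by
      apply Finset.sum_le_sum
      intro x hx
      exact val_le_of_ne G S A u v x (Finset.ne_of_mem_erase hx)
    omega
  · have h2 : ∑ x ∈ Sᶜ, val G S (insert (u, v) A) x ≤ ∑ x ∈ Sᶜ, val G S A x := by
      apply Finset.sum_le_sum
      intro x hx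
      exact val_le_of_ne G S A u v x (fun h => hu (h ▸ hx))
    omega

lemma Phi_le_of (G : SimpleGraph V) (S : Finset V) (A : Finset (V × V)) (u v : V) (huv : u ≠ v)
    (h : u ∈ S ∨ v ∉ S ∨ dm S A u) :
    Phi G S (insert (u, v) A) ≤ Phi G S A := by
  unfold Phi
  apply Finset.sum_le_sum
  intro x hx
  by_cases hxu : x = u
  · subst hxu
    rcases h with h | h | h
    · exact absurd h (Finset.mem_compl.mp hx)
    · exact val_eq_of_notMem G S A x v huv h
    · have : dm S (insert (x, v) A) x := by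
        obtain ⟨s, hs, hsA⟩ := h
        exact ⟨s, hs, Finset.mem_insert_of_mem hsA⟩
      unfold val
      rw [if_pos this]; exact Nat.zero_le _
  · exact val_le_of_ne G S A u v x hxu

/-- dominating a vertex kills its value -/
lemma Phi_dom (G : SimpleGraph V) (S : Finset V) (A : Finset (V × V)) (s w : V) (hs : s ∈ S)
    (hw : w ∉ S) : Phi G S (insert (s, w) A) + val G S A w ≤ Phi G S A := by
  unfold Phi
  have hw' : w ∈ Sᶜ := Finset.mem_compl.mpr hw
  rw [← Finset.add_sum_erase _ _ hw', ← Finset.add_sum_erase _ _ hw']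
  have h1 : val G S (insert (s, w) A) w = 0 := by
    unfold val
    rw [if_pos ⟨s, hs, Finset.mem_insert_self _ _⟩]
  have h2 : ∑ x ∈ (Sᶜ).erase w, val G S (insert (s, w) A) x ≤
      ∑ x ∈ (Sᶜ).erase w, val G S A x := by
    apply Finset.sum_le_sum
    intro x hx
    apply val_le_of_ne G S A s w x
    intro h
    have := Finset.mem_of_mem_erase hx
    rw [h, Finset.mem_compl] at this
    exact this hs
  omega

lemma exists_free_of_fr (G : SimpleGraph V) (S : Finset V) (A : Finset (V × V)) (w : V)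
    (h : 0 < fr G S A w) : ∃ s ∈ S, G.Adj w s ∧ (s, w) ∉ A ∧ (w, s) ∉ A := by
  unfold fr at h
  obtain ⟨s, hs⟩ := Finset.card_pos.mp h
  rw [Finset.mem_filter] at hs
  exact ⟨s, hs.1, hs.2⟩

/-- Minimizer's reply -/
lemma min_move (G : SimpleGraph V) (S : Finset V) (A : Finset (V × V)) (K : ℕ)
    (hK : Phi G S A ≤ 2 * K + 1)
    (hnf : ¬ ∀ u v : V, G.Adj u v → (u, v) ∈ A ∨ (v, u) ∈ A) :
    ∃ u v : V, G.Adj u v ∧ (u, v) ∉ A ∧ (v, u) ∉ A ∧ Phi G S (insert (u, v) A) ≤ 2 * K := by
  by_cases h1 : ∃ w ∈ Sᶜ, val G S A w = 1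
  · obtain ⟨w, hw, hval⟩ := h1
    have hwS := Finset.mem_compl.mp hw
    have hfr : 0 < fr G S A w := by
      unfold val at hval
      split_ifs at hval
      omega
    obtain ⟨s, hs, hadj, h2, h3⟩ := exists_free_of_fr G S A w hfr
    refine ⟨s, w, hadj.symm, h2, h3, ?_⟩
    have := Phi_dom G S A s w hs hwS
    omega
  · push Not at h1
    have hval2 : ∀ w ∈ Sᶜ, val G S A w = 0 ∨ val G S A w = 2 := by
      intro w hw
      have := h1 w hw
      have h2 : val G S A w ≤ 2 := by
        unfold val; split_ifs <;> omega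
      omega
    have heven : Even (Phi G S A) := by
      unfold Phi
      apply Finset.even_sum
      intro w hw
      rcases hval2 w hw with h | h <;> rw [h] <;> decide
    have hK' : Phi G S A ≤ 2 * K := by
      obtain ⟨r, hr⟩ := heven
      omega
    by_cases h2 : ∃ w ∈ Sᶜ, ¬ dm S A w ∧ 0 < fr G S A w
    · obtain ⟨w, hw, hdm, hfr⟩ := h2
      have hwS := Finset.mem_compl.mp hw
      obtain ⟨s, hs, hadj, h2, h3⟩ := exists_free_of_fr G S A w hfr
      refine ⟨s, w, hadj.symm, h2, h3, ?_⟩
      have := Phi_dom G S A s w hs hwS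
      omega
    · push Not at h2 hnf
      obtain ⟨u, v, hadj, huv, hvu⟩ := hnf
      refine ⟨u, v, hadj, huv, hvu, ?_⟩
      refine (Phi_le_of G S A u v hadj.ne ?_).trans hK'
      by_cases hu : u ∈ S
      · exact Or.inl hu
      · by_cases hv : v ∈ S
        · right; right
          by_contra hdm
          have := h2 u (Finset.mem_compl.mpr hu) hdm
          have hpos : 0 < fr G S A u := by
            unfold fr
            apply Finset.card_pos.mpr
            exact ⟨v, by rw [Finset.mem_filter]; exact ⟨hv, hadj, hvu, huv⟩⟩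
          omega
        · exact Or.inr (Or.inl hv)

/-- the strategy bound -/
theorem game_bound (G : SimpleGraph V) (S : Finset V) :
    ∃ P : Set (Finset (V × V)), (∅ : Finset (V × V)) ∈ P ∧ ∀ A ∈ P,
      ((∀ u v : V, G.Adj u v → (u, v) ∈ A ∨ (v, u) ∈ A) →
          ∃ T : Finset V, T.card ≤ cost2 G S / 2 ∧ ∀ v : V, v ∉ T → ∃ u ∈ T, (u, v) ∈ A) ∧
      ((¬ ∀ u v : V, G.Adj u v → (u, v) ∈ A ∨ (v, u) ∈ A) → Even A.card →
          ∃ u v : V, G.Adj u v ∧ (u, v) ∉ A ∧ (v, u) ∉ A ∧ insert (u, v) A ∈ P) ∧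
      ((¬ ∀ u v : V, G.Adj u v → (u, v) ∈ A ∨ (v, u) ∈ A) → Odd A.card →
          ∀ u v : V, G.Adj u v → (u, v) ∉ A → (v, u) ∉ A → insert (u, v) A ∈ P) := by
  set K := (∑ w ∈ Sᶜ, (2 - ia G S w)) / 2 with hK
  have hcost : cost2 G S / 2 = S.card + K := by
    unfold cost2; omega
  refine ⟨{A | (Even A.card → Phi G S A ≤ 2 * K + 1) ∧ (Odd A.card → Phi G S A ≤ 2 * K)},
    ?_, ?_⟩
  · constructor
    · intro _
      rw [Phi_empty]; omega
    · intro h
      simp at h
  · rintro A ⟨hE, hO⟩
    have hbound : Phi G S A ≤ 2 * K + 1 := by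
      rcases Nat.even_or_odd A.card with h | h
      · exact hE h
      · exact (hO h).trans (Nat.le_succ _)
    refine ⟨?_, ?_, ?_⟩
    · intro hfull
      set L : Finset V := (Sᶜ).filter (fun w => ¬ dm S A w) with hL
      have hLcard : 2 * L.card ≤ Phi G S A := by
        have h1 : ∑ w ∈ L, 2 ≤ ∑ w ∈ L, val G S A w := by
          apply Finset.sum_le_sum
          intro w hw
          rw [hL, Finset.mem_filter] at hw
          have hfr0 : fr G S A w = 0 := by
            unfold fr
            rw [Finset.card_eq_zero, Finset.filter_eq_empty_iff]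
            rintro s _ ⟨hadj, h2, h3⟩
            rcases hfull w s hadj with h | h
            · exact h3 h
            · exact h2 h
          unfold val
          rw [if_neg hw.2, hfr0]
        have h2 : ∑ w ∈ L, val G S A w ≤ Phi G S A := by
          unfold Phi
          exact Finset.sum_le_sum_of_subset (Finset.filter_subset _ _)
        rw [Finset.sum_const, smul_eq_mul] at h1
        omega
      refine ⟨S ∪ L, ?_, ?_⟩
      · have := Finset.card_union_le S L
        rw [hcost]; omega
      · intro v hv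
        rw [Finset.mem_union, not_or] at hv
        have hdm : dm S A v := by
          by_contra hdm
          exact hv.2 (by rw [hL, Finset.mem_filter]; exact ⟨Finset.mem_compl.mpr hv.1, hdm⟩)
        obtain ⟨s, hs, hsA⟩ := hdm
        exact ⟨s, Finset.mem_union_left _ hs, hsA⟩
    · intro hnf heven
      obtain ⟨u, v, hadj, huv, hvu, hPhi⟩ := min_move G S A K hbound hnf
      refine ⟨u, v, hadj, huv, hvu, ?_, ?_⟩
      · intro _; exact hPhi.trans (Nat.le_succ _)
      · intro _; exact hPhi
    · intro hnf hodd u v hadj huv hvu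
      refine ⟨?_, ?_⟩
      · intro _
        exact (Phi_le_add_one G S A u v).trans (by have := hO hodd; omega)
      · intro h
        rw [Finset.card_insert_of_notMem huv] at h
        exact absurd h (by rw [Nat.not_odd_iff_even]; exact hodd.add_one)

end Game

section Base
variable {V : Type} [Fintype V] [DecidableEq V]

/-- the minimum of `cost2` -/
noncomputable def mc (G : SimpleGraph V) : ℕ := sInf (Set.range (cost2 G))

lemma exists_mc (G : SimpleGraph V) : ∃ S, cost2 G S = mc G :=
  Nat.sInf_mem (Set.range_nonempty _)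

lemma mc_le (G : SimpleGraph V) (S : Finset V) : mc G ≤ cost2 G S := Nat.sInf_le ⟨S, rfl⟩

/-- indicator of adjacency -/
noncomputable def ad (G : SimpleGraph V) (u v : V) : ℕ := if G.Adj u v then 1 else 0

/-- degree -/
noncomputable def dg (G : SimpleGraph V) (w : V) : ℕ := ia G univ w

omit [Fintype V] [DecidableEq V] in
lemma ad_symm (G : SimpleGraph V) (u v : V) : ad G u v = ad G v u := by
  unfold ad; simp only [G.adj_comm]

omit [Fintype V] [DecidableEq V] in
lemma ad_self (G : SimpleGraph V) (u : V) : ad G u u = 0 := by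
  unfold ad; simp

omit [Fintype V] [DecidableEq V] in
lemma ad_le (G : SimpleGraph V) (u v : V) : ad G u v ≤ 1 := by
  unfold ad; split_ifs <;> omega

omit [Fintype V] [DecidableEq V] in
lemma ia_eq (G : SimpleGraph V) (S : Finset V) (w : V) : ia G S w = ∑ v ∈ S, ad G w v := by
  unfold ia ad; rw [Finset.card_filter]

omit [Fintype V] [DecidableEq V] in
lemma ia_mono (G : SimpleGraph V) {S T : Finset V} (h : S ⊆ T) (w : V) : ia G S w ≤ ia G T w := by
  unfold ia; exact Finset.card_le_card (Finset.filter_subset_filter _ h)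

lemma ia_le_dg (G : SimpleGraph V) (S : Finset V) (w : V) : ia G S w ≤ dg G w :=
  ia_mono G (Finset.subset_univ S) w

omit [Fintype V] [DecidableEq V] in
lemma ia_graph_mono {G T : SimpleGraph V} (h : T ≤ G) (S : Finset V) (w : V) :
    ia T S w ≤ ia G S w := by
  unfold ia
  apply Finset.card_le_card
  intro v hv
  rw [Finset.mem_filter] at hv ⊢
  exact ⟨hv.1, h hv.2⟩

lemma cost2_graph_mono {G T : SimpleGraph V} (h : T ≤ G) (S : Finset V) :
    cost2 G S ≤ cost2 T S := by
  unfold cost2
  apply Nat.add_le_add_left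
  apply Finset.sum_le_sum
  intro w _
  have := ia_graph_mono h S w
  omega

omit [Fintype V] in
lemma ia_union (G : SimpleGraph V) {S T : Finset V} (h : Disjoint S T) (w : V) :
    ia G (S ∪ T) w = ia G S w + ia G T w := by
  rw [ia_eq, ia_eq, ia_eq, Finset.sum_union h]

lemma ia_add_compl (G : SimpleGraph V) (S : Finset V) (w : V) :
    ia G S w + ia G Sᶜ w = dg G w := by
  unfold dg
  rw [← ia_union G disjoint_compl_right, Finset.union_compl]

/-- double counting -/
lemma ia_double (G : SimpleGraph V) (X Y : Finset V) :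
    ∑ w ∈ X, ia G Y w = ∑ y ∈ Y, ia G X y := by
  simp_rw [ia_eq]
  rw [Finset.sum_comm]
  apply Finset.sum_congr rfl
  intro y _
  apply Finset.sum_congr rfl
  intro x _
  exact ad_symm G _ _

omit [Fintype V] [DecidableEq V] in
lemma ad_compl (G : SimpleGraph V) {u v : V} (h : u ≠ v) : ad G u v + ad Gᶜ u v = 1 := by
  unfold ad
  by_cases h1 : G.Adj u v
  · have h2 : ¬ Gᶜ.Adj u v := by
      rw [SimpleGraph.compl_adj]; tauto
    rw [if_pos h1, if_neg h2]
  · have h2 : Gᶜ.Adj u v := by
      rw [SimpleGraph.compl_adj]; exact ⟨h, h1⟩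
    rw [if_neg h1, if_pos h2]

omit [Fintype V] in
lemma ia_compl (G : SimpleGraph V) (S : Finset V) {w : V} (hw : w ∉ S) :
    ia G S w + ia Gᶜ S w = S.card := by
  rw [ia_eq, ia_eq, ← Finset.sum_add_distrib, Finset.card_eq_sum_ones]
  apply Finset.sum_congr rfl
  intro v hv
  exact ad_compl G (fun h => hw (h ▸ hv))

lemma dg_erase (G : SimpleGraph V) (w : V) : ia G (univ.erase w) w = dg G w := by
  unfold dg
  rw [ia_eq, ia_eq, ← Finset.add_sum_erase univ _ (Finset.mem_univ w), ad_self, zero_add]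

lemma dg_compl (G : SimpleGraph V) (w : V) : dg G w + dg Gᶜ w + 1 = Fintype.card V := by
  rw [← dg_erase G w, ← dg_erase Gᶜ w, ia_compl G _ (Finset.notMem_erase w _),
    Finset.card_erase_of_mem (Finset.mem_univ w), Finset.card_univ]
  have : 0 < Fintype.card V := Fintype.card_pos_iff.mpr ⟨w⟩
  omega

omit [Fintype V] [DecidableEq V] in
lemma cross {G : SimpleGraph V} (hG : G.Connected) (X : Set V) {u v : V} (hu : u ∈ X)
    (hv : v ∉ X) : ∃ a b, G.Adj a b ∧ a ∈ X ∧ b ∉ X := by
  obtain ⟨p⟩ := hG.preconnected u v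
  obtain ⟨d, _, h1, h2⟩ := p.exists_boundary_dart X hu hv
  exact ⟨d.fst, d.snd, d.adj, h1, h2⟩

lemma dg_pos {G : SimpleGraph V} (hG : G.Connected) (hn : 2 ≤ Fintype.card V) (w : V) :
    1 ≤ dg G w := by
  obtain ⟨v, hv⟩ : ∃ v, v ≠ w := by
    have : 1 < Fintype.card V := hn
    exact Fintype.exists_ne_of_one_lt_card this w
  obtain ⟨a, b, hab, ha, hb⟩ := cross hG {w} (Set.mem_singleton w) (by simpa using hv)
  rw [Set.mem_singleton_iff] at ha
  subst ha
  unfold dg ia
  apply Finset.card_pos.mpr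
  exact ⟨b, by rw [Finset.mem_filter]; exact ⟨Finset.mem_univ _, hab⟩⟩

/-- T0: connected graphs -/
lemma T0 {G : SimpleGraph V} (hG : G.Connected) (hn : 3 ≤ Fintype.card V) :
    3 * mc G ≤ 4 * Fintype.card V := by
  obtain ⟨T, hTG, hT⟩ := hG.exists_isTree_le
  have hTc := hT.connected
  have hdpos := fun w => dg_pos hTc (by omega) w
  set L : Finset V := univ.filter (fun w => dg T w ≤ 1) with hL
  obtain ⟨χ⟩ := hT.colorable_two
  set A : Finset V := univ.filter (fun w => χ w = 0) with hA
  set n := Fintype.card V with hnn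
  have hside : ∀ (X : Finset V), (∀ w ∉ X, ∀ v, T.Adj w v → v ∈ X) →
      cost2 T X ≤ 2 * X.card + (L ∩ Xᶜ).card := by
    intro X hX
    unfold cost2
    apply Nat.add_le_add_left
    have h1 : ∀ w ∈ Xᶜ, 2 - ia T X w ≤ if w ∈ L then 1 else 0 := by
      intro w hw
      rw [Finset.mem_compl] at hw
      have e : ia T X w = dg T w := by
        unfold dg ia
        congr 1
        ext v
        simp only [Finset.mem_filter, Finset.mem_univ, true_and]
        exact ⟨fun h => h.2, fun h => ⟨hX w hw v h, h⟩⟩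
      rw [e]
      have := hdpos w
      split_ifs with h
      · omega
      · rw [hL, Finset.mem_filter] at h
        push Not at h
        have := h (Finset.mem_univ _)
        omega
    refine (Finset.sum_le_sum h1).trans ?_
    rw [← Finset.card_filter]
    apply Finset.card_le_card
    intro w hw
    rw [Finset.mem_filter] at hw
    exact Finset.mem_inter.mpr ⟨hw.2, hw.1⟩
  have hA1 : cost2 T A ≤ 2 * A.card + (L ∩ Aᶜ).card := by
    apply hside
    intro w hw v hwv
    rw [hA, Finset.mem_filter] at hw ⊢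
    refine ⟨Finset.mem_univ _, ?_⟩
    have h1 := χ.valid hwv
    have h2 : χ w ≠ 0 := fun h => hw ⟨Finset.mem_univ _, h⟩
    omega
  have hA2 : cost2 T Aᶜ ≤ 2 * Aᶜ.card + (L ∩ Aᶜᶜ).card := by
    apply hside
    intro w hw v hwv
    rw [Finset.mem_compl, not_not, hA, Finset.mem_filter] at hw
    rw [Finset.mem_compl, hA, Finset.mem_filter]
    intro hv
    have h1 := χ.valid hwv
    exact h1 (hw.2.trans hv.2.symm)
  have hA3 : cost2 T Lᶜ ≤ 2 * Lᶜ.card + L.card := by
    unfold cost2
    apply Nat.add_le_add_left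
    rw [compl_compl, Finset.card_eq_sum_ones]
    apply Finset.sum_le_sum
    intro w hw
    suffices h : 1 ≤ ia T Lᶜ w by omega
    unfold ia
    apply Finset.card_pos.mpr
    -- the neighbour of the leaf `w`
    obtain ⟨x, hx⟩ : ∃ x, T.Adj w x := by
      have := hdpos w
      unfold dg ia at this
      obtain ⟨x, hx⟩ := Finset.card_pos.mp this
      exact ⟨x, (Finset.mem_filter.mp hx).2⟩
    refine ⟨x, ?_⟩
    rw [Finset.mem_filter]
    refine ⟨?_, hx⟩
    rw [Finset.mem_compl]
    intro hxL
    -- then `{w, x}` would be a component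
    obtain ⟨z, hz⟩ : ∃ z, z ∉ ({w, x} : Finset V) := by
      by_contra hcon
      push Not at hcon
      have : (univ : Finset V) ⊆ {w, x} := fun z _ => hcon z
      have := Finset.card_le_card this
      rw [Finset.card_univ] at this
      have h2 := Finset.card_le_two (a := w) (b := x)
      omega
    obtain ⟨a, b, hab, ha, hb⟩ := cross hTc (({w, x} : Finset V) : Set V)
      (by simp : w ∈ (({w, x} : Finset V) : Set V)) (by simpa using hz)
    have hleaf : ∀ y ∈ L, ∀ p q, T.Adj y p → T.Adj y q → p = q := by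
      intro y hy p q hp hq
      rw [hL, Finset.mem_filter] at hy
      have := hy.2
      unfold dg ia at this
      rw [Finset.card_le_one] at this
      exact this p (by simpa using hp) q (by simpa using hq)
    simp only [Finset.coe_insert, Finset.coe_singleton, Set.mem_insert_iff,
      Set.mem_singleton_iff, not_or] at ha hb
    rcases ha with ha | ha
    · subst ha
      exact hb.2 (hleaf a hw b x hab hx)
    · subst ha
      exact hb.1 (hleaf a hxL b w hab hx.symm)
  have hm1 := (mc_le G A).trans ((cost2_graph_mono hTG A).trans hA1)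
  have hm2 := (mc_le G Aᶜ).trans ((cost2_graph_mono hTG Aᶜ).trans hA2)
  have hm3 := (mc_le G Lᶜ).trans ((cost2_graph_mono hTG Lᶜ).trans hA3)
  have e1 : A.card + Aᶜ.card = n := by
    rw [Finset.card_add_card_compl]
  have e2 : L.card + Lᶜ.card = n := by
    rw [Finset.card_add_card_compl]
  have e3 : (L ∩ Aᶜ).card + (L ∩ Aᶜᶜ).card = L.card := by
    rw [compl_compl, ← Finset.card_union_of_disjoint]
    · congr 1
      ext v
      simp only [Finset.mem_union, Finset.mem_inter, Finset.mem_compl]
      tauto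
    · rw [Finset.disjoint_left]
      intro v hv hv'
      rw [Finset.mem_inter] at hv hv'
      exact (Finset.mem_compl.mp hv.2) hv'.2
  omega

/-- T1: a maximum cut inside `R` -/
lemma maxcut (G : SimpleGraph V) (R : Finset V) : ∃ P ⊆ R,
    (∀ w ∈ P, ia G P w ≤ ia G (R \ P) w) ∧ (∀ w ∈ R \ P, ia G (R \ P) w ≤ ia G P w) := by
  obtain ⟨P, hP, hmax⟩ := Finset.exists_max_image R.powerset
    (fun P => ∑ w ∈ P, ia G (R \ P) w) ⟨∅, Finset.empty_mem_powerset R⟩
  rw [Finset.mem_powerset] at hP
  refine ⟨P, hP, ?_, ?_⟩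
  · intro w hw
    have h1 := hmax (P.erase w) (Finset.mem_powerset.mpr ((Finset.erase_subset _ _).trans hP))
    have hR : R \ P.erase w = insert w (R \ P) := by
      ext v
      simp only [Finset.mem_sdiff, Finset.mem_erase, Finset.mem_insert, not_and, not_not]
      constructor
      · rintro ⟨hvR, h⟩
        by_cases hvw : v = w
        · exact Or.inl hvw
        · exact Or.inr ⟨hvR, fun hvP => (h hvw) hvP⟩
      · rintro (h | ⟨h1, h2⟩)
        · subst h; exact ⟨hP hw, fun h => absurd rfl h⟩
        · exact ⟨h1, fun _ => h2⟩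
    have h2 : ∀ x, ia G (insert w (R \ P)) x = ad G x w + ia G (R \ P) x := by
      intro x
      rw [ia_eq, ia_eq, Finset.sum_insert]
      simp [hw]
    simp only [hR, h2, Finset.sum_add_distrib] at h1
    have h3 : ∑ x ∈ P.erase w, ad G x w = ia G P w := by
      rw [ia_eq, ← Finset.add_sum_erase P _ hw, ad_self, zero_add]
      exact Finset.sum_congr rfl (fun x _ => ad_symm G x w)
    rw [h3, ← Finset.add_sum_erase P _ hw] at h1
    omega
  · intro w hw
    rw [Finset.mem_sdiff] at hw
    have h1 := hmax (insert w P) (Finset.mem_powerset.mpr (by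
      intro v hv
      rw [Finset.mem_insert] at hv
      rcases hv with hv | hv
      · exact hv ▸ hw.1
      · exact hP hv))
    have hR : R \ insert w P = (R \ P).erase w := by
      ext v
      simp only [Finset.mem_sdiff, Finset.mem_erase, Finset.mem_insert, not_or]
      tauto
    have hwm : w ∈ R \ P := Finset.mem_sdiff.mpr hw
    have h2 : ∀ x, ia G (R \ P) x = ad G x w + ia G ((R \ P).erase w) x := by
      intro x
      rw [ia_eq, ia_eq, Finset.add_sum_erase _ _ hwm]
    simp only [hR] at h1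
    rw [Finset.sum_insert hw.2] at h1
    have h3 : ∑ x ∈ P, ia G (R \ P) x = ia G P w + ∑ x ∈ P, ia G ((R \ P).erase w) x := by
      simp_rw [h2]
      rw [Finset.sum_add_distrib, ia_eq]
      congr 1
      exact Finset.sum_congr rfl (fun x _ => ad_symm G x w)
    rw [h3] at h1
    have h4 := h2 w
    rw [ad_self, zero_add] at h4
    omega

/-- the number of vertices of degree at most two -/
noncomputable def L2 (G : SimpleGraph V) : Finset V := univ.filter (fun w => dg G w ≤ 2)

/-- T1 -/
lemma T1 (G : SimpleGraph V) (hd : ∀ w, 1 ≤ dg G w) :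
    2 * mc G ≤ 2 * Fintype.card V + (L2 G).card := by
  obtain ⟨P, _, h1, h2⟩ := maxcut G univ
  have hc : univ \ P = Pᶜ := (Finset.compl_eq_univ_sdiff P).symm
  rw [hc] at h1 h2
  have hA : ∀ w ∈ Pᶜ, 2 - ia G P w ≤ if w ∈ L2 G then 1 else 0 := by
    intro w hw
    have := h2 w hw
    have h3 := ia_add_compl G P w
    have h4 := hd w
    split_ifs with h
    · omega
    · have : ¬ dg G w ≤ 2 := fun h5 => h (by unfold L2; simpa using h5)
      omega
  have hB : ∀ w ∈ P, 2 - ia G Pᶜ w ≤ if w ∈ L2 G then 1 else 0 := by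
    intro w hw
    have := h1 w hw
    have h3 := ia_add_compl G P w
    have h4 := hd w
    split_ifs with h
    · omega
    · have : ¬ dg G w ≤ 2 := fun h5 => h (by unfold L2; simpa using h5)
      omega
  have e1 := mc_le G P
  have e2 := mc_le G Pᶜ
  unfold cost2 at e1 e2
  rw [compl_compl] at e2
  have e3 := Finset.sum_le_sum hA
  have e4 := Finset.sum_le_sum hB
  have e5 : (∑ w ∈ Pᶜ, if w ∈ L2 G then 1 else 0) + (∑ w ∈ P, if w ∈ L2 G then 1 else 0)
      = (L2 G).card := by
    rw [Finset.sum_compl_add_sum, ← Finset.card_filter]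
    congr 1
    ext w; simp
  have e6 := Finset.card_add_card_compl P
  omega

end Base

section Pair
variable {V : Type} [Fintype V] [DecidableEq V]

lemma sum_ad (G : SimpleGraph V) (a : V) : ∑ w, ad G a w = dg G a := by
  unfold dg; rw [ia_eq]

lemma sum_compl_ad (G : SimpleGraph V) (X : Finset V) (a : V) :
    ∑ w ∈ Xᶜ, ad G a w + ∑ w ∈ X, ad G a w = dg G a := by
  rw [Finset.sum_compl_add_sum, sum_ad]

/-- T2 -/
lemma T2 (G : SimpleGraph V) {a b : V} (hab : a ≠ b) :
    mc Gᶜ + 2 * ad G a b ≤ 4 + dg G a + dg G b := by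
  have h1 := mc_le Gᶜ {a, b}
  unfold cost2 at h1
  rw [Finset.card_pair hab] at h1
  have h2 : ∑ w ∈ ({a, b} : Finset V)ᶜ, (2 - ia Gᶜ {a, b} w) =
      ∑ w ∈ ({a, b} : Finset V)ᶜ, ad G a w + ∑ w ∈ ({a, b} : Finset V)ᶜ, ad G b w := by
    rw [← Finset.sum_add_distrib]
    apply Finset.sum_congr rfl
    intro w hw
    rw [Finset.mem_compl] at hw
    have h3 := ia_compl G {a, b} hw
    rw [Finset.card_pair hab] at h3
    have h4 : ia G {a, b} w = ad G a w + ad G b w := by
      rw [ia_eq, Finset.sum_pair hab, ad_symm G w a, ad_symm G w b]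
    omega
  have h3 := sum_compl_ad G {a, b} a
  have h4 := sum_compl_ad G {a, b} b
  rw [Finset.sum_pair hab, ad_self] at h3 h4
  have h5 := ad_symm G a b
  omega

/-- the union of the two neighbourhoods -/
noncomputable def UU (G : SimpleGraph V) (a b : V) : Finset V :=
  univ.filter (fun w => G.Adj a w ∨ G.Adj b w)

/-- the number of elements of `UU` missed by `c` -/
noncomputable def miss (G : SimpleGraph V) (a b c : V) : ℕ :=
  ((UU G a b).filter (fun w => w ≠ c ∧ ¬ G.Adj c w)).card

/-- T4 -/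
lemma T4 (G : SimpleGraph V) {a b c : V} (hab : a ≠ b) (hca : c ≠ a) (hcb : c ≠ b)
    (hadj : ¬ G.Adj a b) :
    mc Gᶜ + miss G a b c + ad G a c + ad G b c ≤ 6 + dg G a + dg G b := by
  set X : Finset V := {a, b, c} with hX
  have hcard : X.card = 3 := by
    rw [hX, Finset.card_eq_three]
    exact ⟨a, b, c, hab, hca.symm, hcb.symm, rfl⟩
  have hsum : ∀ f : V → ℕ, ∑ w ∈ X, f w = f a + f b + f c := by
    intro f
    rw [hX, Finset.sum_insert, Finset.sum_pair hcb.symm]
    · ring
    · simp [hab, hca.symm]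
  have h1 := mc_le Gᶜ X
  unfold cost2 at h1
  rw [hcard] at h1
  have hpt : ∀ w ∈ Xᶜ, (2 - ia Gᶜ X w) +
      (if w ∈ UU G a b ∧ (w ≠ c ∧ ¬ G.Adj c w) then 1 else 0) = ad G a w + ad G b w := by
    intro w hw
    rw [Finset.mem_compl] at hw
    have h3 := ia_compl G X hw
    rw [hcard] at h3
    have h4 : ia G X w = ad G a w + ad G b w + ad G c w := by
      rw [ia_eq, hsum, ad_symm G w a, ad_symm G w b, ad_symm G w c]
    have hwc : w ≠ c := by
      rintro rfl
      apply hw
      rw [hX]; simp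
    have hU : w ∈ UU G a b ↔ (G.Adj a w ∨ G.Adj b w) := by
      unfold UU; simp
    simp only [hU]
    unfold ad at h4 ⊢
    by_cases ha : G.Adj a w <;> by_cases hb : G.Adj b w <;> by_cases hc : G.Adj c w <;>
      simp only [ha, hb, hc, hwc, if_true, if_false, true_or, or_true, or_self, false_or,
        not_true_eq_false, not_false_eq_true, and_true, and_false, ne_eq] at h4 ⊢ <;> omega
  have h5 := Finset.sum_congr rfl hpt
  rw [Finset.sum_add_distrib, Finset.sum_add_distrib] at h5
  have hmiss : miss G a b c =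
      ∑ w ∈ Xᶜ, (if w ∈ UU G a b ∧ (w ≠ c ∧ ¬ G.Adj c w) then 1 else 0) := by
    unfold miss
    rw [← Finset.card_filter]
    congr 1
    ext w
    simp only [Finset.mem_filter, Finset.mem_compl]
    constructor
    · rintro ⟨hxU, hp⟩
      refine ⟨?_, hxU, hp⟩
      intro hxX
      unfold UU at hxU
      rw [Finset.mem_filter] at hxU
      rw [hX] at hxX
      simp only [Finset.mem_insert, Finset.mem_singleton] at hxX
      rcases hxX with h | h | h
      · subst h
        rcases hxU.2 with h | h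
        · exact absurd h (G.irrefl)
        · exact absurd h.symm hadj
      · subst h
        rcases hxU.2 with h | h
        · exact absurd h hadj
        · exact absurd h (G.irrefl)
      · exact hp.1 h
    · rintro ⟨_, hxU, hp⟩
      exact ⟨hxU, hp⟩
  have h6 := sum_compl_ad G X a
  have h7 := sum_compl_ad G X b
  rw [hsum, ad_self] at h6 h7
  have h8 : ad G a b = 0 := by unfold ad; rw [if_neg hadj]
  have h9 : ad G b a = 0 := by rw [ad_symm]; exact h8
  omega

/-- the neighbourhood -/
noncomputable def nb (G : SimpleGraph V) (a : V) : Finset V := univ.filter (fun w => G.Adj a w)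

lemma mem_nb (G : SimpleGraph V) (a w : V) : w ∈ nb G a ↔ G.Adj a w := by
  unfold nb; simp

lemma card_nb (G : SimpleGraph V) (a : V) : (nb G a).card = dg G a := rfl

lemma UU_eq (G : SimpleGraph V) (a b : V) : UU G a b = nb G a ∪ nb G b := by
  ext w; unfold UU; simp [mem_nb]

lemma ia_eq_inter (G : SimpleGraph V) (S : Finset V) (w : V) : ia G S w = (nb G w ∩ S).card := by
  unfold ia
  congr 1
  ext v
  simp only [Finset.mem_filter, Finset.mem_inter, mem_nb]
  tauto

/-- T4': a set inside `UU` dominates well -/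
lemma T4S (G : SimpleGraph V) {a b : V} (hab : a ≠ b) (hadj : ¬ G.Adj a b) (m : ℕ) (hm2 : 2 ≤ m)
    (hm : ∀ c, c ≠ a → c ≠ b → miss G a b c ≤ m) (hU : m + 2 ≤ (UU G a b).card) :
    mc G ≤ 2 * (m + 2) + (2 - dg G a) + (2 - dg G b) := by
  obtain ⟨A', hA', hA'c⟩ := Finset.exists_subset_card_eq
    (show min 2 (dg G a) ≤ (nb G a).card by rw [card_nb]; exact min_le_right _ _)
  obtain ⟨B', hB', hB'c⟩ := Finset.exists_subset_card_eq
    (show min 2 (dg G b) ≤ (nb G b).card by rw [card_nb]; exact min_le_right _ _)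
  have hAB : A' ∪ B' ⊆ UU G a b := by
    rw [UU_eq]; exact Finset.union_subset_union hA' hB'
  have hABc : (A' ∪ B').card ≤ m + 2 := by
    have := Finset.card_union_le A' B'
    omega
  obtain ⟨S, hS1, hS2, hSc⟩ := Finset.exists_subsuperset_card_eq hAB hABc hU
  have ha : a ∉ UU G a b := by
    unfold UU
    simp only [Finset.mem_filter, Finset.mem_univ, true_and, SimpleGraph.irrefl, false_or]
    exact fun h => hadj h.symm
  have hb : b ∉ UU G a b := by
    unfold UU
    simp only [Finset.mem_filter, Finset.mem_univ, true_and, SimpleGraph.irrefl, or_false]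
    exact hadj
  have haS : a ∈ Sᶜ := Finset.mem_compl.mpr (fun h => ha (hS2 h))
  have hbS : b ∈ (Sᶜ).erase a :=
    Finset.mem_erase.mpr ⟨hab.symm, Finset.mem_compl.mpr (fun h => hb (hS2 h))⟩
  refine (mc_le G S).trans ?_
  unfold cost2
  rw [hSc, ← Finset.add_sum_erase _ _ haS, ← Finset.add_sum_erase _ _ hbS]
  have h0 : ∑ w ∈ ((Sᶜ).erase a).erase b, (2 - ia G S w) = 0 := by
    apply Finset.sum_eq_zero
    intro w hw
    rw [Finset.mem_erase, Finset.mem_erase, Finset.mem_compl] at hw
    obtain ⟨hwb, hwa, hwS⟩ := hw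
    have h1 := hm w hwa hwb
    have h2 : S ⊆ (nb G w ∩ S) ∪ (UU G a b).filter (fun v => v ≠ w ∧ ¬ G.Adj w v) := by
      intro v hv
      rw [Finset.mem_union, Finset.mem_inter, mem_nb, Finset.mem_filter]
      by_cases h : G.Adj w v
      · exact Or.inl ⟨h, hv⟩
      · exact Or.inr ⟨hS2 hv, fun h' => hwS (h' ▸ hv), h⟩
    have h3 := (Finset.card_le_card h2).trans (Finset.card_union_le _ _)
    rw [← ia_eq_inter, hSc] at h3
    unfold miss at h1
    omega
  have h1 : min 2 (dg G a) ≤ ia G S a := by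
    rw [← hA'c, ia_eq_inter]
    apply Finset.card_le_card
    exact Finset.subset_inter hA' (Finset.subset_union_left.trans hS1)
  have h2 : min 2 (dg G b) ≤ ia G S b := by
    rw [← hB'c, ia_eq_inter]
    apply Finset.card_le_card
    exact Finset.subset_inter hB' (Finset.subset_union_right.trans hS1)
  omega

end Pair

section Beta
variable {V : Type} [Fintype V] [DecidableEq V]

lemma mem_L2 (G : SimpleGraph V) (w : V) : w ∈ L2 G ↔ dg G w ≤ 2 := by
  unfold L2; simp

lemma ad_one {G : SimpleGraph V} {u v : V} (h : G.Adj u v) : ad G u v = 1 := by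
  unfold ad; rw [if_pos h]

lemma ad_zero {G : SimpleGraph V} {u v : V} (h : ¬ G.Adj u v) : ad G u v = 0 := by
  unfold ad; rw [if_neg h]

/-- number of neighbours of `c` in `UU` -/
lemma ia_UU (G : SimpleGraph V) (a b c : V) :
    ((UU G a b).erase c).card ≤ ia G ((UU G a b).erase c) c + miss G a b c := by
  rw [ia_eq_inter]
  unfold miss
  refine (Finset.card_le_card ?_).trans (Finset.card_union_le _ _)
  intro v hv
  rw [Finset.mem_erase] at hv
  rw [Finset.mem_union, Finset.mem_inter, mem_nb, Finset.mem_filter, Finset.mem_erase]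
  by_cases h : G.Adj c v
  · exact Or.inl ⟨h, hv⟩
  · exact Or.inr ⟨hv.2, hv.1, h⟩

/-- B1 -/
lemma B1 {G : SimpleGraph V} (h8' : 8 ≤ mc Gᶜ) {a b : V} (ha : a ∈ L2 G) (hb : b ∈ L2 G)
    (hab : a ≠ b) : dg G a = 2 ∧ dg G b = 2 ∧ ¬ G.Adj a b ∧ mc Gᶜ = 8 := by
  have h1 := T2 G hab
  rw [mem_L2] at ha hb
  refine ⟨by omega, by omega, ?_, by omega⟩
  intro h
  rw [ad_one h] at h1
  omega

/-- B2 -/
lemma B2 {G : SimpleGraph V} (h8' : 8 ≤ mc Gᶜ) {a b c : V} (ha : a ∈ L2 G) (hb : b ∈ L2 G)
    (hab : a ≠ b) (hca : c ≠ a) (hcb : c ≠ b) : miss G a b c + ad G a c + ad G b c ≤ 2 := by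
  obtain ⟨h1, h2, h3, h4⟩ := B1 h8' ha hb hab
  have := T4 G hab hca hcb h3
  omega

/-- case (i): disjoint neighbourhoods -/
lemma beta_disj {G : SimpleGraph V} (h8 : 8 ≤ mc G) (h8' : 8 ≤ mc Gᶜ) {a b : V}
    (ha : a ∈ L2 G) (hb : b ∈ L2 G) (hab : a ≠ b) (hdis : Disjoint (nb G a) (nb G b)) :
    mc G ≤ 8 ∧ 8 ≤ Fintype.card V := by
  obtain ⟨da, db, hadj, h4⟩ := B1 h8' ha hb hab
  have hUc : (UU G a b).card = 4 := by
    rw [UU_eq, Finset.card_union_of_disjoint hdis, card_nb, card_nb, da, db]
  have hmiss : ∀ c, c ≠ a → c ≠ b → miss G a b c ≤ 2 := by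
    intro c hca hcb
    have := B2 h8' ha hb hab hca hcb
    omega
  refine ⟨?_, ?_⟩
  · have := T4S G hab hadj 2 le_rfl hmiss (by omega)
    omega
  · by_contra hn
    push Not at hn
    have haU : a ∉ UU G a b := by
      unfold UU
      simp only [Finset.mem_filter, Finset.mem_univ, true_and, SimpleGraph.irrefl, false_or]
      exact fun h => hadj h.symm
    have hbU : b ∉ UU G a b := by
      unfold UU
      simp only [Finset.mem_filter, Finset.mem_univ, true_and, SimpleGraph.irrefl, or_false]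
      exact hadj
    set U := UU G a b with hU
    set W : Finset V := univ \ (insert a (insert b U)) with hW
    have hWc : W.card ≤ 1 := by
      rw [hW, Finset.card_sdiff_of_subset (Finset.subset_univ _), Finset.card_univ,
        Finset.card_insert_of_notMem, Finset.card_insert_of_notMem hbU, hUc]
      · omega
      · rw [Finset.mem_insert, not_or]; exact ⟨hab, haU⟩
    have hUne : U.Nonempty := Finset.card_pos.mp (by omega)
    -- choose y
    obtain ⟨y, hyU, hy⟩ : ∃ y ∈ U, ∀ x ∈ W, 2 ≤ ia G (U.erase y) x := by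
      by_cases hWe : W = ∅
      · obtain ⟨y, hy⟩ := hUne
        exact ⟨y, hy, by rw [hWe]; simp⟩
      · obtain ⟨x, hx⟩ := Finset.nonempty_iff_ne_empty.mpr hWe
        have hWx : ∀ x' ∈ W, x' = x := fun x' hx' => Finset.card_le_one.mp hWc x' hx' x hx
        have hx' := hx
        rw [hW, Finset.mem_sdiff, Finset.mem_insert, Finset.mem_insert, not_or, not_or] at hx'
        obtain ⟨-, hxa, hxb, hxU⟩ := hx'
        have h1 := ia_UU G a b x
        rw [← hU, Finset.erase_eq_of_notMem hxU, hUc] at h1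
        have h2 := hmiss x hxa hxb
        by_cases hall : ∀ y ∈ U, G.Adj x y
        · obtain ⟨y, hy⟩ := hUne
          refine ⟨y, hy, ?_⟩
          intro x' hx'
          rw [hWx x' hx']
          have h3 : ia G U x = 4 := by
            unfold ia
            rw [Finset.filter_true_of_mem hall, hUc]
          rw [ia_eq, ← Finset.add_sum_erase _ _ hy, ← ia_eq] at h3
          have := ad_le G x y
          omega
        · push Not at hall
          obtain ⟨y, hy, hxy⟩ := hall
          refine ⟨y, hy, ?_⟩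
          intro x' hx'
          rw [hWx x' hx']
          have h3 := ia_eq G U x
          rw [← Finset.add_sum_erase _ _ hy, ← ia_eq, ad_zero hxy] at h3
          omega
    have hya : y ≠ a := fun h => haU (h ▸ hyU)
    have hyb : y ≠ b := fun h => hbU (h ▸ hyU)
    have hyadj : ad G a y + ad G b y = 1 := by
      have hyU' := hyU
      rw [hU, UU_eq, Finset.mem_union, mem_nb, mem_nb] at hyU'
      rw [Finset.disjoint_left] at hdis
      rcases hyU' with h | h
      · have : ¬ G.Adj b y := fun h' => hdis ((mem_nb _ _ _).mpr h) ((mem_nb _ _ _).mpr h')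
        rw [ad_one h, ad_zero this]
      · have : ¬ G.Adj a y := fun h' => hdis ((mem_nb _ _ _).mpr h') ((mem_nb _ _ _).mpr h)
        rw [ad_one h, ad_zero this]
    have hy1 : 2 ≤ ia G (U.erase y) y := by
      have h1 := ia_UU G a b y
      rw [← hU, Finset.card_erase_of_mem hyU, hUc] at h1
      have h2 := B2 h8' ha hb hab hya hyb
      omega
    have hcost := mc_le G (U.erase y)
    unfold cost2 at hcost
    rw [Finset.card_erase_of_mem hyU, hUc] at hcost
    have hS : (U.erase y)ᶜ = insert y (insert a (insert b W)) := by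
      ext v
      simp only [Finset.mem_compl, Finset.mem_erase, Finset.mem_insert, hW, Finset.mem_sdiff,
        Finset.mem_univ, true_and]
      constructor
      · intro h
        by_cases h1 : v = y
        · exact Or.inl h1
        · have h2 : v ∉ U := fun h3 => h ⟨h1, h3⟩
          by_cases h3 : v = a
          · exact Or.inr (Or.inl h3)
          · by_cases h4 : v = b
            · exact Or.inr (Or.inr (Or.inl h4))
            · right; right; right
              rintro (h5 | h5 | h5)
              · exact h3 h5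
              · exact h4 h5
              · exact h2 h5
      · rintro (h | h | h | h)
        · rintro ⟨h1, _⟩; exact h1 h
        · rintro ⟨_, h1⟩; exact haU (h ▸ h1)
        · rintro ⟨_, h1⟩; exact hbU (h ▸ h1)
        · rintro ⟨_, h1⟩; exact h (Or.inr (Or.inr h1))
    have hyW : y ∉ W := by
      rw [hW, Finset.mem_sdiff]; push Not; intro _
      exact Finset.mem_insert_of_mem (Finset.mem_insert_of_mem hyU)
    have haW : a ∉ W := by
      rw [hW, Finset.mem_sdiff]; push Not; intro _
      exact Finset.mem_insert_self _ _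
    have hbW : b ∉ W := by
      rw [hW, Finset.mem_sdiff]; push Not; intro _
      exact Finset.mem_insert_of_mem (Finset.mem_insert_self _ _)
    rw [hS, Finset.sum_insert (by simp [hya, hyb, hyW]), Finset.sum_insert (by simp [hab, haW]),
      Finset.sum_insert hbW] at hcost
    have hW0 : ∑ x ∈ W, (2 - ia G (U.erase y) x) = 0 := by
      apply Finset.sum_eq_zero
      intro x hx
      have := hy x hx
      omega
    -- neighbours of a, b in U
    have hnbU : ∀ v, nb G v ⊆ U → ia G U v = dg G v := by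
      intro v hv
      rw [ia_eq_inter, Finset.inter_eq_left.mpr hv, card_nb]
    have hia : ia G U a = 2 := by
      rw [hnbU a (by rw [hU, UU_eq]; exact Finset.subset_union_left), da]
    have hib : ia G U b = 2 := by
      rw [hnbU b (by rw [hU, UU_eq]; exact Finset.subset_union_right), db]
    rw [ia_eq, ← Finset.add_sum_erase _ _ hyU, ← ia_eq] at hia hib
    omega

lemma comp_aux (X L R P Q : Finset V) (hR : R = (X ∪ L)ᶜ) (hXL : Disjoint X L) (hPR : P ⊆ R)
    (hQ : Q = R \ P) : (X ∪ P)ᶜ = Q ∪ L := by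
  ext v
  rw [Finset.mem_compl, Finset.mem_union, Finset.mem_union, hQ, Finset.mem_sdiff, not_or]
  have h1 : v ∈ R ↔ (v ∉ X ∧ v ∉ L) := by
    rw [hR, Finset.mem_compl, Finset.mem_union, not_or]
  constructor
  · rintro ⟨h2, h3⟩
    by_cases h4 : v ∈ L
    · exact Or.inr h4
    · exact Or.inl ⟨h1.mpr ⟨h2, h4⟩, h3⟩
  · rintro (⟨h2, h3⟩ | h2)
    · exact ⟨(h1.mp h2).1, h3⟩
    · exact ⟨fun h3 => Finset.disjoint_left.mp hXL h3 h2, fun h3 => (h1.mp (hPR h3)).2 h2⟩

/-- case (ii): a common neighbour -/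
lemma beta_star {G : SimpleGraph V} (h8' : 8 ≤ mc Gᶜ) (hL : 2 ≤ (L2 G).card) (u : V)
    (hu : ∀ a ∈ L2 G, G.Adj a u) : mc G ≤ Fintype.card V := by
  set L := L2 G with hLdef
  have hother : ∀ a ∈ L, ∃ b ∈ L, b ≠ a := by
    intro a ha
    obtain ⟨b, hb, hne⟩ := Finset.exists_mem_ne (by omega : 1 < L.card) a
    exact ⟨b, hb, hne⟩
  have hd2 : ∀ a ∈ L, dg G a = 2 := by
    intro a ha
    obtain ⟨b, hb, hne⟩ := hother a ha
    exact (B1 h8' ha hb hne.symm).1
  have hind : ∀ a ∈ L, ∀ b ∈ L, ¬ G.Adj a b := by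
    intro a ha b hb
    by_cases h : a = b
    · subst h; exact G.irrefl
    · exact (B1 h8' ha hb h).2.2.1
  have huL : u ∉ L := by
    intro h
    obtain ⟨b, hb, hne⟩ := hother u h
    exact hind b hb u h (hu b hb)
  -- partners are adjacent to u
  have hpart : ∀ a ∈ L, ∀ v, G.Adj a v → v ≠ u → G.Adj u v := by
    intro a ha v hav hvu
    obtain ⟨b, hb, hne⟩ := hother a ha
    have hua : u ≠ a := fun h => huL (h ▸ ha)
    have hub : u ≠ b := fun h => huL (h ▸ hb)
    have h1 := B2 h8' ha hb hne.symm hua hub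
    rw [ad_one (hu a ha), ad_one (hu b hb)] at h1
    by_contra hcon
    have h2 : 0 < miss G a b u := by
      unfold miss
      apply Finset.card_pos.mpr
      refine ⟨v, ?_⟩
      rw [Finset.mem_filter]
      unfold UU
      rw [Finset.mem_filter]
      exact ⟨⟨Finset.mem_univ _, Or.inl hav⟩, hvu, hcon⟩
    omega
  have hiaL0 : ∀ a ∈ L, ia G L a = 0 := by
    intro a ha
    unfold ia
    rw [Finset.card_eq_zero, Finset.filter_eq_empty_iff]
    exact fun b hb => hind a ha b hb
  set V2 : Finset V := univ.filter (fun v => v ∉ L ∧ v ≠ u ∧ 2 ≤ ia G L v) with hV2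
  have huV2 : u ∉ V2 := by rw [hV2]; simp
  set X : Finset V := insert u V2 with hX
  have hXc : X.card = V2.card + 1 := by rw [hX, Finset.card_insert_of_notMem huV2]
  have hXL : Disjoint X L := by
    rw [Finset.disjoint_left]
    intro v hv
    rw [hX, Finset.mem_insert] at hv
    rcases hv with h | h
    · exact h ▸ huL
    · rw [hV2, Finset.mem_filter] at h; exact h.2.1
  set R : Finset V := (X ∪ L)ᶜ with hR
  have hRc : R.card + X.card + L.card = Fintype.card V := by
    have h1 := Finset.card_compl_add_card (X ∪ L)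
    rw [← hR, Finset.card_union_of_disjoint hXL] at h1
    omega
  obtain ⟨P, hPR, hP, hQ⟩ := maxcut G R
  set Q := R \ P with hQdef
  have hPQ : Disjoint P Q := Finset.disjoint_sdiff
  have hPQu : P ∪ Q = R := Finset.union_sdiff_of_subset hPR
  have hPQc : P.card + Q.card = R.card := by
    rw [← hPQu, Finset.card_union_of_disjoint hPQ]
  have hRX : Disjoint R (X ∪ L) := by rw [hR]; exact disjoint_compl_left
  have hXP : Disjoint X P := by
    rw [Finset.disjoint_left]; intro v hv hv'
    exact (Finset.disjoint_left.mp hRX) (hPR hv') (Finset.mem_union_left _ hv)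
  have hXQ : Disjoint X Q := by
    rw [Finset.disjoint_left]; intro v hv hv'
    exact (Finset.disjoint_left.mp hRX) (Finset.sdiff_subset hv') (Finset.mem_union_left _ hv)
  have htot : ∀ v, ia G X v + ia G P v + ia G Q v + ia G L v = dg G v := by
    intro v
    have h1 := ia_add_compl G (X ∪ L) v
    rw [← hR, ← hPQu, ia_union G hXL, ia_union G hPQ] at h1
    omega
  have hR2 : ∀ w ∈ R, 3 ≤ dg G w ∧ ia G L w ≤ 1 ∧ (ia G L w = 1 → 1 ≤ ia G X w) := by
    intro w hw
    rw [hR, Finset.mem_compl, Finset.mem_union, not_or] at hw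
    refine ⟨?_, ?_, ?_⟩
    · by_contra h
      exact hw.2 (by rw [hLdef, mem_L2]; omega)
    · by_contra h
      apply hw.1
      rw [hX, Finset.mem_insert]
      by_cases hwu : w = u
      · exact Or.inl hwu
      · right
        rw [hV2, Finset.mem_filter]
        exact ⟨Finset.mem_univ _, hw.2, hwu, by omega⟩
    · intro h
      have h1 : 0 < ia G L w := by omega
      unfold ia at h1
      obtain ⟨a, ha⟩ := Finset.card_pos.mp h1
      rw [Finset.mem_filter] at ha
      have hwu : w ≠ u := by
        rintro rfl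
        exact hw.1 (by rw [hX]; exact Finset.mem_insert_self _ _)
      have h2 := hpart a ha.1 w ha.2.symm hwu
      unfold ia
      apply Finset.card_pos.mpr
      exact ⟨u, by rw [Finset.mem_filter]; exact ⟨by rw [hX]; exact Finset.mem_insert_self _ _, h2.symm⟩⟩
  -- costs
  have hc1 := mc_le G (X ∪ P)
  have hc2 := mc_le G (X ∪ Q)
  unfold cost2 at hc1 hc2
  have hcomp1 : (X ∪ P)ᶜ = Q ∪ L := comp_aux X L R P Q hR hXL hPR hQdef
  have hcomp2 : (X ∪ Q)ᶜ = P ∪ L := comp_aux X L R Q P hR hXL Finset.sdiff_subset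
    (by rw [hQdef, Finset.sdiff_sdiff_eq_self hPR])
  have hQL : Disjoint Q L := by
    rw [Finset.disjoint_left]; intro v hv hv'
    exact (Finset.disjoint_left.mp hRX) (Finset.sdiff_subset hv) (Finset.mem_union_right _ hv')
  have hPL : Disjoint P L := by
    rw [Finset.disjoint_left]; intro v hv hv'
    exact (Finset.disjoint_left.mp hRX) (hPR hv) (Finset.mem_union_right _ hv')
  rw [hcomp1, Finset.sum_union hQL, Finset.card_union_of_disjoint hXP] at hc1
  rw [hcomp2, Finset.sum_union hPL, Finset.card_union_of_disjoint hXQ] at hc2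
  have z1 : ∑ w ∈ Q, (2 - ia G (X ∪ P) w) = 0 := by
    apply Finset.sum_eq_zero
    intro w hw
    have h1 := hQ w hw
    have h2 := hR2 w (Finset.sdiff_subset hw)
    have h3 := htot w
    rw [ia_union G hXP]
    by_cases h : ia G L w = 1
    · have := h2.2.2 h
      omega
    · omega
  have z2 : ∑ w ∈ P, (2 - ia G (X ∪ Q) w) = 0 := by
    apply Finset.sum_eq_zero
    intro w hw
    have h1 := hP w hw
    have h2 := hR2 w (hPR hw)
    have h3 := htot w
    rw [ia_union G hXQ]
    by_cases h : ia G L w = 1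
    · have := h2.2.2 h
      omega
    · omega
  have z3 : (∑ w ∈ L, (2 - ia G (X ∪ P) w)) + (∑ w ∈ L, (2 - ia G (X ∪ Q) w)) +
      ∑ w ∈ L, ia G V2 w ≤ L.card := by
    rw [← Finset.sum_add_distrib, ← Finset.sum_add_distrib, Finset.card_eq_sum_ones]
    apply Finset.sum_le_sum
    intro w hw
    have h1 := htot w
    have h2 := hd2 w hw
    have h3 := hiaL0 w hw
    have h4 : ia G X w = 1 + ia G V2 w := by
      rw [hX, ia_eq, Finset.sum_insert huV2, ad_one (hu w hw), ← ia_eq]
    rw [ia_union G hXP, ia_union G hXQ]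
    omega
  have z4 : 2 * V2.card ≤ ∑ w ∈ L, ia G V2 w := by
    rw [ia_double]
    rw [mul_comm, ← smul_eq_mul, ← Finset.sum_const]
    apply Finset.sum_le_sum
    intro v hv
    rw [hV2, Finset.mem_filter] at hv
    exact hv.2.2.2
  omega

/-- (β) -/
lemma beta {G : SimpleGraph V} (h8 : 8 ≤ mc G) (h8' : 8 ≤ mc Gᶜ) (hL : 2 ≤ (L2 G).card) :
    mc Gᶜ = 8 ∧ (mc G ≤ Fintype.card V ∨ (mc G ≤ 8 ∧ 8 ≤ Fintype.card V)) := by
  set L := L2 G with hLdef
  have hother : ∀ a ∈ L, ∃ b ∈ L, b ≠ a := by
    intro a ha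
    obtain ⟨b, hb, hne⟩ := Finset.exists_mem_ne (by omega : 1 < L.card) a
    exact ⟨b, hb, hne⟩
  have hd2 : ∀ a ∈ L, dg G a = 2 := by
    intro a ha
    obtain ⟨b, hb, hne⟩ := hother a ha
    exact (B1 h8' ha hb hne.symm).1
  have hind : ∀ a ∈ L, ∀ b ∈ L, ¬ G.Adj a b := by
    intro a ha b hb
    by_cases h : a = b
    · subst h; exact G.irrefl
    · exact (B1 h8' ha hb h).2.2.1
  obtain ⟨a0, ha0⟩ := Finset.card_pos.mp (by omega : 0 < L.card)
  have hmc8 : mc Gᶜ = 8 := by
    obtain ⟨b, hb, hne⟩ := hother a0 ha0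
    exact (B1 h8' ha0 hb hne.symm).2.2.2
  refine ⟨hmc8, ?_⟩
  by_cases hdis : ∃ a ∈ L, ∃ b ∈ L, a ≠ b ∧ Disjoint (nb G a) (nb G b)
  · obtain ⟨a, ha, b, hb, hab, hd⟩ := hdis
    exact Or.inr (beta_disj h8 h8' ha hb hab hd)
  push Not at hdis
  by_cases hst : ∃ u, ∀ a ∈ L, G.Adj a u
  · obtain ⟨u, hu⟩ := hst
    exact Or.inl (beta_star h8' hL u hu)
  push Not at hst
  left
  -- triangle
  have hinter : ∀ a ∈ L, ∀ b ∈ L, a ≠ b → ∃ v, G.Adj a v ∧ G.Adj b v := by
    intro a ha b hb hab
    have := hdis a ha b hb hab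
    rw [Finset.not_disjoint_iff] at this
    obtain ⟨v, h1, h2⟩ := this
    exact ⟨v, (mem_nb _ _ _).mp h1, (mem_nb _ _ _).mp h2⟩
  have hnb2 : ∀ a ∈ L, (nb G a).card = 2 := fun a ha => by rw [card_nb]; exact hd2 a ha
  have hpair : ∀ a ∈ L, ∀ x y, x ≠ y → G.Adj a x → G.Adj a y → nb G a = {x, y} := by
    intro a ha x y hxy hx hy
    symm
    apply Finset.eq_of_subset_of_card_le
    · intro v hv
      rw [Finset.mem_insert, Finset.mem_singleton] at hv
      rcases hv with rfl | rfl
      · exact (mem_nb _ _ _).mpr hx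
      · exact (mem_nb _ _ _).mpr hy
    · rw [hnb2 a ha, Finset.card_pair hxy]
  obtain ⟨x, y, hxy, hNa⟩ := Finset.card_eq_two.mp (hnb2 a0 ha0)
  have hax : G.Adj a0 x := (mem_nb _ _ _).mp (by rw [hNa]; simp)
  have hay : G.Adj a0 y := (mem_nb _ _ _).mp (by rw [hNa]; simp)
  obtain ⟨b, hb, hbx⟩ := hst x
  have hba : b ≠ a0 := by rintro rfl; exact hbx hax
  have hby : G.Adj b y := by
    obtain ⟨v, h1, h2⟩ := hinter a0 ha0 b hb hba.symm
    have : v ∈ nb G a0 := (mem_nb _ _ _).mpr h1
    rw [hNa, Finset.mem_insert, Finset.mem_singleton] at this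
    rcases this with rfl | rfl
    · exact absurd h2 hbx
    · exact h2
  obtain ⟨c, hc, hcy⟩ := hst y
  have hca : c ≠ a0 := by rintro rfl; exact hcy hay
  have hcb : c ≠ b := by rintro rfl; exact hcy hby
  have hcx : G.Adj c x := by
    obtain ⟨v, h1, h2⟩ := hinter a0 ha0 c hc hca.symm
    have : v ∈ nb G a0 := (mem_nb _ _ _).mpr h1
    rw [hNa, Finset.mem_insert, Finset.mem_singleton] at this
    rcases this with rfl | rfl
    · exact h2
    · exact absurd h2 hcy
  obtain ⟨z, hbz, hcz⟩ := hinter b hb c hc hcb.symm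
  have hzx : z ≠ x := by rintro rfl; exact hbx hbz
  have hzy : z ≠ y := by rintro rfl; exact hcy hcz
  have hNb : nb G b = {y, z} := hpair b hb y z hzy.symm hby hbz
  have hNc : nb G c = {x, z} := hpair c hc x z hzx.symm hcx hcz
  set S : Finset V := {x, y, z} with hS
  have hSc : S.card = 3 := by
    rw [hS, Finset.card_eq_three]
    exact ⟨x, y, z, hxy, hzx.symm, hzy.symm, rfl⟩
  have hUS : UU G a0 b = S := by
    rw [UU_eq, hNa, hNb, hS]
    ext v
    simp only [Finset.mem_union, Finset.mem_insert, Finset.mem_singleton]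
    tauto
  have hSL : Disjoint S L := by
    rw [Finset.disjoint_left]
    intro v hv hvL
    rw [hS] at hv
    simp only [Finset.mem_insert, Finset.mem_singleton] at hv
    rcases hv with rfl | rfl | rfl
    · exact hind a0 ha0 v hvL hax
    · exact hind a0 ha0 v hvL hay
    · exact hind b hb v hvL hbz
  have hLc : 3 ≤ L.card := by
    have : ({a0, b, c} : Finset V) ⊆ L := by
      intro v hv
      simp only [Finset.mem_insert, Finset.mem_singleton] at hv
      rcases hv with rfl | rfl | rfl <;> assumption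
    have h3 : ({a0, b, c} : Finset V).card = 3 := by
      rw [Finset.card_eq_three]
      exact ⟨a0, b, c, hba.symm, hca.symm, hcb.symm, rfl⟩
    rw [← h3]
    exact Finset.card_le_card this
  have hcost := mc_le G S
  unfold cost2 at hcost
  rw [hSc] at hcost
  have hpt : ∀ w ∈ Sᶜ, 2 - ia G S w ≤ if w ∉ L then 1 else 0 := by
    intro w hw
    rw [Finset.mem_compl] at hw
    by_cases hwL : w ∈ L
    · rw [if_neg (not_not.mpr hwL)]
      -- `w` has at least two neighbours in S
      have hhit : ∀ d ∈ L, nb G d ⊆ S → ∃ v ∈ nb G w, v ∈ nb G d := by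
        intro d hd hdS
        by_cases hwd : w = d
        · subst hwd
          obtain ⟨v, hv⟩ := Finset.card_pos.mp (by rw [hnb2 w hwL]; omega : 0 < (nb G w).card)
          exact ⟨v, hv, hv⟩
        · obtain ⟨v, h1, h2⟩ := hinter w hwL d hd hwd
          exact ⟨v, (mem_nb _ _ _).mpr h1, (mem_nb _ _ _).mpr h2⟩
      obtain ⟨p, hp, hp'⟩ := hhit a0 ha0 (by rw [hNa, hS]; intro v; simp; tauto)
      obtain ⟨q, hq, hq'⟩ := hhit b hb (by rw [hNb, hS]; intro v; simp; tauto)
      obtain ⟨r, hr, hr'⟩ := hhit c hc (by rw [hNc, hS]; intro v; simp; tauto)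
      rw [hNa, Finset.mem_insert, Finset.mem_singleton] at hp'
      rw [hNb, Finset.mem_insert, Finset.mem_singleton] at hq'
      rw [hNc, Finset.mem_insert, Finset.mem_singleton] at hr'
      have hge : 2 ≤ ia G S w := by
        rw [ia_eq_inter]
        have key : ∀ s t, s ≠ t → s ∈ nb G w → t ∈ nb G w → s ∈ S → t ∈ S →
            2 ≤ (nb G w ∩ S).card := by
          intro s t hst hs ht hs' ht'
          rw [← Finset.card_pair hst]
          apply Finset.card_le_card
          intro v hv
          rw [Finset.mem_insert, Finset.mem_singleton] at hv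
          rcases hv with rfl | rfl
          · exact Finset.mem_inter.mpr ⟨hs, hs'⟩
          · exact Finset.mem_inter.mpr ⟨ht, ht'⟩
        have hxS : x ∈ S := by rw [hS]; simp
        have hyS : y ∈ S := by rw [hS]; simp
        have hzS : z ∈ S := by rw [hS]; simp
        rcases hp' with rfl | rfl
        · rcases hq' with rfl | rfl
          · exact key _ _ hxy hp hq hxS hyS
          · exact key _ _ hzx hq hp hzS hxS
        · rcases hr' with rfl | rfl
          · exact key _ _ hxy hr hp hxS hyS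
          · exact key _ _ hzy hr hp hzS hyS
      omega
    · rw [if_pos hwL]
      have hwa : w ≠ a0 := by rintro rfl; exact hwL ha0
      have hwb : w ≠ b := by rintro rfl; exact hwL hb
      have h1 := ia_UU G a0 b w
      rw [hUS, Finset.erase_eq_of_notMem hw, hSc] at h1
      have h2 := B2 h8' ha0 hb hba.symm hwa hwb
      omega
  have h5 := Finset.sum_le_sum hpt
  rw [← Finset.card_filter] at h5
  have h6 : (Sᶜ.filter (fun w => w ∉ L)).card + S.card + L.card = Fintype.card V := by
    have : Sᶜ.filter (fun w => w ∉ L) = (S ∪ L)ᶜ := by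
      ext v; simp
    rw [this, add_assoc, ← Finset.card_union_of_disjoint hSL, Finset.card_compl_add_card]
  omega

end Beta

section Avg
variable {V : Type} [Fintype V] [DecidableEq V]

lemma card_inter_eq (A B : Finset V) (hAB : Disjoint A B) (k i : ℕ) (hi : i ≤ k) :
    (((A ∪ B).powersetCard k).filter (fun S => (A ∩ S).card = i)).card =
      A.card.choose i * B.card.choose (k - i) := by
  rw [← Finset.card_powersetCard, ← Finset.card_powersetCard, ← Finset.card_product]
  apply Finset.card_bij' (fun S _ => (A ∩ S, B ∩ S)) (fun p _ => p.1 ∪ p.2)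
  · intro S hS
    rw [Finset.mem_filter, Finset.mem_powersetCard] at hS
    obtain ⟨⟨h1, h2⟩, h3⟩ := hS
    rw [Finset.mem_product, Finset.mem_powersetCard, Finset.mem_powersetCard]
    refine ⟨⟨Finset.inter_subset_left, h3⟩, Finset.inter_subset_left, ?_⟩
    have h4 : (A ∩ S) ∪ (B ∩ S) = S := by
      rw [← Finset.union_inter_distrib_right]
      exact Finset.inter_eq_right.mpr h1
    have h5 : Disjoint (A ∩ S) (B ∩ S) :=
      Finset.disjoint_of_subset_left Finset.inter_subset_left
        (Finset.disjoint_of_subset_right Finset.inter_subset_left hAB)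
    have h6 := Finset.card_union_of_disjoint h5
    rw [h4] at h6
    show (B ∩ S).card = k - i
    omega
  · rintro ⟨X, Y⟩ hp
    rw [Finset.mem_product, Finset.mem_powersetCard, Finset.mem_powersetCard] at hp
    obtain ⟨⟨h1, h2⟩, h3, h4⟩ := hp
    simp only at h1 h2 h3 h4 ⊢
    have hXY : Disjoint X Y :=
      Finset.disjoint_of_subset_left h1 (Finset.disjoint_of_subset_right h3 hAB)
    rw [Finset.mem_filter, Finset.mem_powersetCard]
    refine ⟨⟨Finset.union_subset_union h1 h3, ?_⟩, ?_⟩
    · rw [Finset.card_union_of_disjoint hXY]; omega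
    · have : A ∩ (X ∪ Y) = X := by
        rw [Finset.inter_union_distrib_left, Finset.inter_eq_right.mpr h1,
          Finset.disjoint_iff_inter_eq_empty.mp (Finset.disjoint_of_subset_right h3 hAB),
          Finset.union_empty]
      rw [this]; exact h2
  · intro S hS
    rw [Finset.mem_filter, Finset.mem_powersetCard] at hS
    simp only
    rw [← Finset.union_inter_distrib_right]
    exact Finset.inter_eq_right.mpr hS.1.1
  · rintro ⟨X, Y⟩ hp
    rw [Finset.mem_product, Finset.mem_powersetCard, Finset.mem_powersetCard] at hp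
    obtain ⟨⟨h1, h2⟩, h3, h4⟩ := hp
    simp only at h1 h2 h3 h4 ⊢
    have e1 : A ∩ (X ∪ Y) = X := by
      rw [Finset.inter_union_distrib_left, Finset.inter_eq_right.mpr h1,
        Finset.disjoint_iff_inter_eq_empty.mp (Finset.disjoint_of_subset_right h3 hAB),
        Finset.union_empty]
    have e2 : B ∩ (X ∪ Y) = Y := by
      rw [Finset.inter_union_distrib_left, Finset.inter_eq_right.mpr h3,
        Finset.disjoint_iff_inter_eq_empty.mp
          (Finset.disjoint_of_subset_right h1 hAB.symm), Finset.empty_union]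
    rw [e1, e2]

/-- sum of the local costs -/
def om (k d e : ℕ) : ℕ :=
  2 * d.choose k + 2 * e.choose k + d * e.choose (k - 1) + e * d.choose (k - 1)

lemma local_sum (G : SimpleGraph V) (k : ℕ) (hk : 4 ≤ k) (w : V) :
    ∑ S ∈ (univ.erase w).powersetCard k, ((2 - ia G S w) + (2 - ia Gᶜ S w)) =
      om k (dg G w) (dg Gᶜ w) := by
  set A := nb G w with hA
  set B := (univ.erase w) \ A with hB
  have hAB : Disjoint A B := Finset.disjoint_sdiff
  have hAu : A ⊆ univ.erase w := by
    intro v hv
    rw [hA, mem_nb] at hv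
    exact Finset.mem_erase.mpr ⟨hv.ne', Finset.mem_univ v⟩
  have hABu : A ∪ B = univ.erase w := Finset.union_sdiff_of_subset hAu
  have hAc : A.card = dg G w := rfl
  have hBc : B.card = dg Gᶜ w := by
    have h1 := Finset.card_union_of_disjoint hAB
    rw [hABu, Finset.card_erase_of_mem (Finset.mem_univ w), Finset.card_univ] at h1
    have h2 := dg_compl G w
    omega
  have hcount : ∀ i, i ≤ k →
      (((univ.erase w).powersetCard k).filter (fun S => ia G S w = i)).card =
      (dg G w).choose i * (dg Gᶜ w).choose (k - i) := by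
    intro i hi
    rw [← hAc, ← hBc, ← card_inter_eq A B hAB k i hi, hABu]
    congr 1
    apply Finset.filter_congr
    intro S _
    rw [ia_eq_inter]
  have hpt : ∀ S ∈ (univ.erase w).powersetCard k, (2 - ia G S w) + (2 - ia Gᶜ S w) =
      2 * (if ia G S w = 0 then 1 else 0) + (if ia G S w = 1 then 1 else 0) +
      (if ia G S w = k - 1 then 1 else 0) + 2 * (if ia G S w = k then 1 else 0) := by
    intro S hS
    rw [Finset.mem_powersetCard] at hS
    have hw : w ∉ S := fun h => (Finset.mem_erase.mp (hS.1 h)).1 rfl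
    have h1 := ia_compl G S hw
    rw [hS.2] at h1
    split_ifs <;> omega
  rw [Finset.sum_congr rfl hpt, Finset.sum_add_distrib, Finset.sum_add_distrib,
    Finset.sum_add_distrib, ← Finset.mul_sum, ← Finset.mul_sum, ← Finset.card_filter,
    ← Finset.card_filter, ← Finset.card_filter, ← Finset.card_filter,
    hcount 0 (by omega), hcount 1 (by omega), hcount (k - 1) (by omega), hcount k le_rfl]
  unfold om
  have e1 : k - (k - 1) = 1 := by omega
  rw [e1, Nat.sub_self, Nat.choose_zero_right, Nat.choose_zero_right, Nat.choose_one_right,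
    Nat.choose_one_right, Nat.sub_zero]
  ring

/-- T3 -/
lemma T3 (G : SimpleGraph V) (k : ℕ) (hk : 4 ≤ k) :
    (mc G + mc Gᶜ) * (Fintype.card V).choose k ≤
      4 * k * (Fintype.card V).choose k + ∑ w, om k (dg G w) (dg Gᶜ w) := by
  have h1 : ∑ S ∈ (univ : Finset V).powersetCard k, (mc G + mc Gᶜ) ≤
      ∑ S ∈ (univ : Finset V).powersetCard k, (cost2 G S + cost2 Gᶜ S) := by
    apply Finset.sum_le_sum
    intro S _
    exact Nat.add_le_add (mc_le G S) (mc_le Gᶜ S)
  rw [Finset.sum_const, smul_eq_mul, Finset.card_powersetCard, Finset.card_univ] at h1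
  have h2 : ∑ S ∈ (univ : Finset V).powersetCard k, (cost2 G S + cost2 Gᶜ S) =
      ∑ S ∈ (univ : Finset V).powersetCard k,
        (4 * k + ∑ w ∈ Sᶜ, ((2 - ia G S w) + (2 - ia Gᶜ S w))) := by
    apply Finset.sum_congr rfl
    intro S hS
    rw [Finset.mem_powersetCard] at hS
    unfold cost2
    rw [hS.2, Finset.sum_add_distrib]
    ring
  have h3 : ∑ S ∈ (univ : Finset V).powersetCard k,
        ∑ w ∈ Sᶜ, ((2 - ia G S w) + (2 - ia Gᶜ S w)) =
      ∑ w, ∑ S ∈ (univ.erase w).powersetCard k, ((2 - ia G S w) + (2 - ia Gᶜ S w)) := by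
    apply Finset.sum_comm'
    intro S w
    simp only [Finset.mem_powersetCard, Finset.mem_compl, Finset.mem_univ, and_true,
      Finset.subset_univ, true_and]
    constructor
    · rintro ⟨h1, h2⟩
      exact ⟨fun v hv => Finset.mem_erase.mpr ⟨fun h => h2 (h ▸ hv), Finset.mem_univ v⟩, h1⟩
    · rintro ⟨h1, h2⟩
      exact ⟨h2, fun h => (Finset.mem_erase.mp (h1 h)).1 rfl⟩
  rw [h2, Finset.sum_add_distrib, h3, Finset.sum_const, smul_eq_mul, Finset.card_powersetCard,
    Finset.card_univ] at h1
  simp_rw [local_sum G k hk] at h1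
  calc (mc G + mc Gᶜ) * (Fintype.card V).choose k
      = (Fintype.card V).choose k * (mc G + mc Gᶜ) := by ring
    _ ≤ _ := h1
    _ = _ := by ring

/-- scaled local cost -/
def W (n k d : ℕ) : ℕ :=
  2 * d.descFactorial k + 2 * (n - 1 - d).descFactorial k +
    k * d * (n - 1 - d).descFactorial (k - 1) + k * (n - 1 - d) * d.descFactorial (k - 1)

lemma W_eq (n k d e : ℕ) (hk : 1 ≤ k) (h : d + e + 1 = n) : W n k d = k.factorial * om k d e := by
  have he : n - 1 - d = e := by omega
  unfold W om
  rw [he]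
  obtain ⟨j, rfl⟩ : ∃ j, k = j + 1 := ⟨k - 1, by omega⟩
  simp only [Nat.add_sub_cancel]
  rw [Nat.descFactorial_eq_factorial_mul_choose, Nat.descFactorial_eq_factorial_mul_choose,
    Nat.descFactorial_eq_factorial_mul_choose, Nat.descFactorial_eq_factorial_mul_choose,
    Nat.factorial_succ]
  ring

/-- T3, scaled -/
lemma T3' (G : SimpleGraph V) (k : ℕ) (hk : 4 ≤ k) :
    (mc G + mc Gᶜ) * (Fintype.card V).descFactorial k ≤
      4 * k * (Fintype.card V).descFactorial k + ∑ w, W (Fintype.card V) k (dg G w) := by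
  have h := Nat.mul_le_mul_left k.factorial (T3 G k hk)
  rw [Nat.descFactorial_eq_factorial_mul_choose]
  have h2 : ∑ w, W (Fintype.card V) k (dg G w) =
      k.factorial * ∑ w, om k (dg G w) (dg Gᶜ w) := by
    rw [Finset.mul_sum]
    apply Finset.sum_congr rfl
    intro w _
    exact W_eq _ _ _ _ (by omega) (dg_compl G w)
  rw [h2]
  calc (mc G + mc Gᶜ) * (k.factorial * (Fintype.card V).choose k)
      = k.factorial * ((mc G + mc Gᶜ) * (Fintype.card V).choose k) := by ring
    _ ≤ _ := h
    _ = _ := by ring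

/-- conclusion from the average -/
lemma T3_concl (G : SimpleGraph V) (k b : ℕ) (hk : 4 ≤ k) (hkn : k ≤ Fintype.card V)
    (hkb : 2 * k ≤ b + 1)
    (h : ∑ w, W (Fintype.card V) k (dg G w) <
      (Fintype.card V).descFactorial k * (2 * (b + 1 - 2 * k))) :
    mc G / 2 + mc Gᶜ / 2 ≤ b := by
  have h1 := T3' G k hk
  have h2 : (mc G + mc Gᶜ) * (Fintype.card V).descFactorial k <
      (2 * (b + 1)) * (Fintype.card V).descFactorial k := by
    refine lt_of_le_of_lt h1 ?_
    have : 2 * (b + 1) = 4 * k + 2 * (b + 1 - 2 * k) := by omega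
    rw [this, add_mul]
    apply Nat.add_lt_add_left
    rw [mul_comm (2 * (b + 1 - 2 * k))]
    exact h
  have h3 := lt_of_mul_lt_mul_right h2 (Nat.zero_le _)
  omega

lemma sum_lem {X : Finset V} (f : V → ℕ) (c B : ℕ) (hX : X.Nonempty)
    (h : ∀ w ∈ X, X.card * f w + c < B) : ∑ w ∈ X, f w + c < B := by
  obtain ⟨w0, hw0, hmax⟩ := Finset.exists_max_image X f hX
  have h1 : ∑ w ∈ X, f w ≤ X.card * f w0 := by
    have := Finset.sum_le_card_nsmul X f (f w0) hmax
    rwa [smul_eq_mul] at this
  have := h w0 hw0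
  omega

/-- the numerical conditions -/
structure Chk (n k lo M B : ℕ) : Prop where
  c1 : ∀ d, lo ≤ d → d + lo + 1 ≤ n → (n - 1) * W n k d + M < B
  c2 : ∀ d, lo + 1 ≤ d → d + lo + 2 ≤ n → (n - 2) * W n k d + 2 * M < B
  c3 : ∀ d, 1 ≤ d → d + 2 ≤ n → W n k d ≤ M

lemma alpha_num (G : SimpleGraph V) (k lo M B : ℕ) (hn : 4 ≤ Fintype.card V)
    (hc : Chk (Fintype.card V) k lo M B)
    (hd : ∀ w, 1 ≤ dg G w) (he : ∀ w, 1 ≤ dg Gᶜ w)
    (hp : ∀ a b, a ≠ b → 2 * lo ≤ dg G a + dg G b)
    (hq : ∀ a b, a ≠ b → 2 * lo ≤ dg Gᶜ a + dg Gᶜ b) :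
    ∑ w, W (Fintype.card V) k (dg G w) < B := by
  set n := Fintype.card V with hnn
  have hsum : ∀ w, dg G w + dg Gᶜ w + 1 = n := fun w => dg_compl G w
  have hM : ∀ w, W n k (dg G w) ≤ M := by
    intro w
    have h1 := hd w
    have h2 := he w
    have h3 := hsum w
    exact hc.c3 _ h1 (by omega)
  have caseB : ∀ a, (∀ w, w ≠ a → lo ≤ dg G w ∧ lo ≤ dg Gᶜ w) →
      ∑ w, W n k (dg G w) < B := by
    intro a ha
    rw [← Finset.add_sum_erase univ _ (Finset.mem_univ a)]
    have hcard : (univ.erase a : Finset V).card = n - 1 := by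
      rw [Finset.card_erase_of_mem (Finset.mem_univ a), Finset.card_univ]
    have h1 := sum_lem (X := univ.erase a) (fun w => W n k (dg G w)) M B
      (Finset.card_pos.mp (by omega)) (by
        intro w hw
        rw [hcard]
        have h2 := ha w (Finset.ne_of_mem_erase hw)
        have h3 := hsum w
        exact hc.c1 _ h2.1 (by omega))
    have h2 := hM a
    omega
  have hne : ∀ a : V, ∃ b, b ≠ a := fun a => Fintype.exists_ne_of_one_lt_card (by omega) a
  by_cases hEG : ∃ a, dg G a < lo
  · obtain ⟨a, ha⟩ := hEG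
    by_cases hEH : ∃ b, dg Gᶜ b < lo
    · obtain ⟨b, hb⟩ := hEH
      by_cases hab : a = b
      · subst hab
        apply caseB a
        intro w hw
        have h1 := hp w a hw
        have h2 := hq w a hw
        omega
      · -- two exceptional vertices
        rw [← Finset.add_sum_erase univ _ (Finset.mem_univ a),
          ← Finset.add_sum_erase (univ.erase a) _
            (Finset.mem_erase.mpr ⟨Ne.symm hab, Finset.mem_univ b⟩)]
        have hcard : ((univ.erase a).erase b : Finset V).card = n - 2 := by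
          rw [Finset.card_erase_of_mem (Finset.mem_erase.mpr ⟨Ne.symm hab, Finset.mem_univ b⟩),
            Finset.card_erase_of_mem (Finset.mem_univ a), Finset.card_univ]
          omega
        have h1 := sum_lem (X := (univ.erase a).erase b) (fun w => W n k (dg G w)) (2 * M) B
          (Finset.card_pos.mp (by omega)) (by
            intro w hw
            rw [hcard]
            rw [Finset.mem_erase, Finset.mem_erase] at hw
            have h2 := hp w a hw.2.1
            have h3 := hq w b hw.1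
            have h4 := hsum w
            exact hc.c2 _ (by omega) (by omega))
        have h2 := hM a
        have h3 := hM b
        omega
    · push Not at hEH
      apply caseB a
      intro w hw
      have h1 := hp w a hw
      have h2 := hEH w
      omega
  · push Not at hEG
    by_cases hEH : ∃ b, dg Gᶜ b < lo
    · obtain ⟨b, hb⟩ := hEH
      apply caseB b
      intro w hw
      have h1 := hq w b hw
      have h2 := hEG w
      omega
    · push Not at hEH
      obtain ⟨a⟩ : Nonempty V := Fintype.card_pos_iff.mp (by omega)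
      exact caseB a (fun w _ => ⟨hEG w, hEH w⟩)

end Avg

/-- boolean version of the numerical conditions -/
def chkb (n k lo M B : ℕ) : Bool :=
  (List.range (n + 1)).all (fun d =>
    (decide (d < lo) || decide (n < d + lo + 1) || decide ((n - 1) * W n k d + M < B)) &&
    (decide (d < lo + 1) || decide (n < d + lo + 2) || decide ((n - 2) * W n k d + 2 * M < B)) &&
    (decide (d < 1) || decide (n < d + 2) || decide (W n k d ≤ M)))

lemma chk_of_chkb {n k lo M B : ℕ} (h : chkb n k lo M B = true) : Chk n k lo M B := by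
  unfold chkb at h
  rw [List.all_eq_true] at h
  simp only [List.mem_range, Bool.and_eq_true, Bool.or_eq_true, decide_eq_true_eq] at h
  refine ⟨?_, ?_, ?_⟩
  · intro d h1 h2
    have := (h d (by omega)).1.1
    rcases this with (h3 | h3) | h3
    · omega
    · omega
    · exact h3
  · intro d h1 h2
    have := (h d (by omega)).1.2
    rcases this with (h3 | h3) | h3
    · omega
    · omega
    · exact h3
  · intro d h1 h2
    have := (h d (by omega)).2
    rcases this with (h3 | h3) | h3
    · omega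
    · omega
    · exact h3

/-- the chosen size of the random set -/
def kk (n : ℕ) : ℕ := if n ≤ 15 then 4 else 5

/-- the bound -/
def bd (n : ℕ) : ℕ := 2 * n / 3 + 3

/-- the threshold -/
def lo (n : ℕ) : ℕ := bd n - n / 2 - 1

lemma finite_all : ((List.range 100).all (fun n => decide (n < 12) || decide (n = 16) ||
    (chkb n (kk n) (lo n) (W n (kk n) 1)
      (n.descFactorial (kk n) * (2 * (bd n + 1 - 2 * kk n)))))) = true := by
  decide +kernel

lemma finite_chk (n : ℕ) (h1 : 12 ≤ n) (h2 : n < 100) (h3 : n ≠ 16) :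
    Chk n (kk n) (lo n) (W n (kk n) 1) (n.descFactorial (kk n) * (2 * (bd n + 1 - 2 * kk n))) := by
  apply chk_of_chkb
  have := finite_all
  rw [List.all_eq_true] at this
  have h4 := this n (List.mem_range.mpr h2)
  simp only [Bool.or_eq_true, decide_eq_true_eq] at h4
  rcases h4 with (h | h) | h
  · omega
  · omega
  · exact h

lemma chk16 : Chk 16 4 5 (W 16 4 1) ((16 : ℕ).descFactorial 4 * (2 * (13 + 1 - 2 * 4))) := by
  apply chk_of_chkb
  decide +kernel

lemma desc_ratio (m N k : ℕ) (h : m ≤ N) :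
    m.descFactorial k * N ^ k ≤ N.descFactorial k * m ^ k := by
  induction k with
  | zero => simp
  | succ k ih =>
    rw [Nat.descFactorial_succ, Nat.descFactorial_succ, pow_succ, pow_succ]
    have h1 : (m - k) * N ≤ (N - k) * m := by
      rcases Nat.lt_or_ge m k with h2 | h2
      · rw [Nat.sub_eq_zero_of_le h2.le, zero_mul]; exact Nat.zero_le _
      · rw [Nat.sub_mul, Nat.sub_mul, mul_comm m N]
        exact Nat.sub_le_sub_left (Nat.mul_le_mul_left k h) _
    calc (m - k) * m.descFactorial k * (N ^ k * N)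
        = (m.descFactorial k * N ^ k) * ((m - k) * N) := by ring
      _ ≤ (N.descFactorial k * m ^ k) * ((N - k) * m) := Nat.mul_le_mul ih h1
      _ = _ := by ring

lemma desc_ratio_real (m N k : ℕ) (h : m ≤ N) (hN : 0 < N) :
    (m.descFactorial k : ℝ) ≤ N.descFactorial k * ((m : ℝ) / N) ^ k := by
  have h1 := desc_ratio m N k h
  have hN' : (0:ℝ) < N := by exact_mod_cast hN
  have h2 : (m.descFactorial k : ℝ) * (N:ℝ) ^ k ≤ N.descFactorial k * (m:ℝ) ^ k := by
    exact_mod_cast h1
  rw [div_pow, mul_div_assoc', le_div_iff₀ (by positivity)]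
  exact h2

lemma bracket1 (x y : ℝ) (hx : 1 / 6 ≤ x) (hy : 1 / 6 ≤ y) (hxy : x + y = 1) :
    2 * x ^ 12 + 2 * y ^ 12 + 27 / 2 * (x * y ^ 11) + 27 / 2 * (y * x ^ 11) ≤ 774 / 1000 := by
  wlog h : x ≤ y with H
  · have := H y x hy hx (by linarith) (by linarith)
    linarith
  have hx1 : x ≤ 1 / 2 := by linarith
  have hy1 : y ≤ 5 / 6 := by linarith
  have hx0 : 0 ≤ x := by linarith
  have hy0 : 0 ≤ y := by linarith
  have hxy4 : x * y ≤ 1 / 4 := by nlinarith [sq_nonneg (x - y)]
  have hxy0 : 0 ≤ x * y := mul_nonneg hx0 hy0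
  have a1 : x ^ 10 ≤ (1 / 2) ^ 10 := pow_le_pow_left₀ hx0 hx1 10
  have a2 : x ^ 12 ≤ (1 / 2) ^ 12 := pow_le_pow_left₀ hx0 hx1 12
  have a3 : y ^ 10 ≤ (5 / 6) ^ 10 := pow_le_pow_left₀ hy0 hy1 10
  have a4 : y ^ 12 ≤ (5 / 6) ^ 12 := pow_le_pow_left₀ hy0 hy1 12
  have b1 : x * y ^ 11 ≤ 1 / 4 * (5 / 6) ^ 10 := by
    calc x * y ^ 11 = (x * y) * y ^ 10 := by ring
      _ ≤ _ := mul_le_mul hxy4 a3 (by positivity) (by norm_num)
  have b2 : y * x ^ 11 ≤ 1 / 4 * (1 / 2) ^ 10 := by
    calc y * x ^ 11 = (x * y) * x ^ 10 := by ring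
      _ ≤ _ := mul_le_mul hxy4 a1 (by positivity) (by norm_num)
  norm_num at a1 a2 a3 a4 b1 b2 ⊢
  linarith

lemma bracket2 (x y : ℝ) (hx : 0 ≤ x) (hy : 0 ≤ y) (hxy : x + y = 1) :
    2 * x ^ 12 + 2 * y ^ 12 + 27 / 2 * (x * y ^ 11) + 27 / 2 * (y * x ^ 11) ≤ 6 := by
  have hx1 : x ≤ 1 := by linarith
  have hy1 : y ≤ 1 := by linarith
  have hxy4 : x * y ≤ 1 / 4 := by nlinarith [sq_nonneg (x - y)]
  have hxy0 : 0 ≤ x * y := mul_nonneg hx hy
  have a1 : x ^ 10 ≤ x := by
    calc x ^ 10 ≤ x ^ 1 := pow_le_pow_of_le_one hx hx1 (by norm_num)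
      _ = x := pow_one x
  have a2 : x ^ 12 ≤ x := by
    calc x ^ 12 ≤ x ^ 1 := pow_le_pow_of_le_one hx hx1 (by norm_num)
      _ = x := pow_one x
  have a3 : y ^ 10 ≤ y := by
    calc y ^ 10 ≤ y ^ 1 := pow_le_pow_of_le_one hy hy1 (by norm_num)
      _ = y := pow_one y
  have a4 : y ^ 12 ≤ y := by
    calc y ^ 12 ≤ y ^ 1 := pow_le_pow_of_le_one hy hy1 (by norm_num)
      _ = y := pow_one y
  have b1 : x * y ^ 11 ≤ 1 / 4 * y := by
    calc x * y ^ 11 = (x * y) * y ^ 10 := by ring
      _ ≤ _ := mul_le_mul hxy4 a3 (by positivity) (by norm_num)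
  have b2 : y * x ^ 11 ≤ 1 / 4 * x := by
    calc y * x ^ 11 = (x * y) * x ^ 10 := by ring
      _ ≤ _ := mul_le_mul hxy4 a1 (by positivity) (by norm_num)
  linarith

lemma W_bound (n d : ℕ) (hn : 100 ≤ n) (hd : d + 1 ≤ n) :
    (W n 12 d : ℝ) ≤ ((n - 1 : ℕ).descFactorial 12 : ℝ) *
      (2 * ((d : ℝ) / (n - 1 : ℕ)) ^ 12 + 2 * (((n - 1 - d : ℕ) : ℝ) / (n - 1 : ℕ)) ^ 12 +
        27 / 2 * (((d : ℝ) / (n - 1 : ℕ)) * (((n - 1 - d : ℕ) : ℝ) / (n - 1 : ℕ)) ^ 11) +
        27 / 2 * ((((n - 1 - d : ℕ) : ℝ) / (n - 1 : ℕ)) * ((d : ℝ) / (n - 1 : ℕ)) ^ 11)) := by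
  set N := n - 1 with hN
  set e := N - d with he
  have hde : d + e = N := by omega
  have hN99 : 99 ≤ N := by omega
  have hN0 : 0 < N := by omega
  have hNr : (99:ℝ) ≤ N := by exact_mod_cast hN99
  have r1 := desc_ratio_real d N 12 (by omega) hN0
  have r2 := desc_ratio_real e N 12 (by omega) hN0
  have r3 := desc_ratio_real d N 11 (by omega) hN0
  have r4 := desc_ratio_real e N 11 (by omega) hN0
  set x : ℝ := (d : ℝ) / N with hx
  set y : ℝ := (e : ℝ) / N with hy
  have hx0 : 0 ≤ x := by positivity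
  have hy0 : 0 ≤ y := by positivity
  have hdx : (d : ℝ) = x * N := by rw [hx]; field_simp
  have hey : (e : ℝ) = y * N := by rw [hy]; field_simp
  have hF : (N.descFactorial 12 : ℝ) = ((N : ℝ) - 11) * N.descFactorial 11 := by
    rw [Nat.descFactorial_succ]
    push_cast [show 11 ≤ N by omega]
    ring
  have hF11 : (0:ℝ) ≤ N.descFactorial 11 := by positivity
  have hkey : 12 * (N : ℝ) * N.descFactorial 11 ≤ 27 / 2 * N.descFactorial 12 := by
    rw [hF]
    nlinarith
  have hW : (W n 12 d : ℝ) = 2 * d.descFactorial 12 + 2 * e.descFactorial 12 +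
      12 * d * e.descFactorial 11 + 12 * e * d.descFactorial 11 := by
    unfold W
    rw [← hN, ← he]
    push_cast
    norm_num
  rw [hW]
  have t3 : 12 * (d : ℝ) * e.descFactorial 11 ≤
      N.descFactorial 12 * (27 / 2 * (x * y ^ 11)) := by
    calc 12 * (d : ℝ) * e.descFactorial 11 ≤ 12 * (d : ℝ) * (N.descFactorial 11 * y ^ 11) := by
          apply mul_le_mul_of_nonneg_left r4; positivity
      _ = (12 * (N : ℝ) * N.descFactorial 11) * (x * y ^ 11) := by rw [hdx]; ring
      _ ≤ (27 / 2 * N.descFactorial 12) * (x * y ^ 11) := by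
          apply mul_le_mul_of_nonneg_right hkey; positivity
      _ = _ := by ring
  have t4 : 12 * (e : ℝ) * d.descFactorial 11 ≤
      N.descFactorial 12 * (27 / 2 * (y * x ^ 11)) := by
    calc 12 * (e : ℝ) * d.descFactorial 11 ≤ 12 * (e : ℝ) * (N.descFactorial 11 * x ^ 11) := by
          apply mul_le_mul_of_nonneg_left r3; positivity
      _ = (12 * (N : ℝ) * N.descFactorial 11) * (y * x ^ 11) := by rw [hey]; ring
      _ ≤ (27 / 2 * N.descFactorial 12) * (y * x ^ 11) := by
          apply mul_le_mul_of_nonneg_right hkey; positivity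
      _ = _ := by ring
  calc 2 * (d.descFactorial 12 : ℝ) + 2 * e.descFactorial 12 +
      12 * d * e.descFactorial 11 + 12 * e * d.descFactorial 11
      ≤ 2 * (N.descFactorial 12 * x ^ 12) + 2 * (N.descFactorial 12 * y ^ 12) +
        N.descFactorial 12 * (27 / 2 * (x * y ^ 11)) +
        N.descFactorial 12 * (27 / 2 * (y * x ^ 11)) := by linarith
    _ = _ := by ring

lemma large_chk (n : ℕ) (hn : 100 ≤ n) :
    Chk n 12 (lo n) (6 * (n - 1).descFactorial 12)
      (n.descFactorial 12 * (2 * (bd n + 1 - 2 * 12))) := by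
  have hlo : n + 5 ≤ 6 * lo n := by unfold lo bd; omega
  have hb : 2 * n ≤ 3 * (bd n + 1 - 2 * 12) + 62 := by unfold bd; omega
  set N := n - 1 with hN
  have hNn : (n : ℝ) = N + 1 := by
    have : n = N + 1 := by omega
    rw [this]; push_cast; rfl
  have hN99 : 99 ≤ N := by omega
  have hNr : (99:ℝ) ≤ N := by exact_mod_cast hN99
  have hN0 : (0:ℝ) < N := by linarith
  set F : ℝ := (N.descFactorial 12 : ℝ) with hF
  have hFpos : 0 < F := by
    rw [hF]
    have : 0 < N.descFactorial 12 := Nat.descFactorial_pos.mpr (by omega)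
    exact_mod_cast this
  have hmono : F ≤ (n.descFactorial 12 : ℝ) := by
    rw [hF]
    have : N.descFactorial 12 ≤ n.descFactorial 12 := Nat.descFactorial_le 12 (by omega)
    exact_mod_cast this
  have hbr : (2 * (n:ℝ) - 62) / 3 ≤ ((bd n + 1 - 2 * 12 : ℕ) : ℝ) := by
    have : (2 * (n:ℝ)) ≤ 3 * ((bd n + 1 - 2 * 12 : ℕ) : ℝ) + 62 := by exact_mod_cast hb
    linarith
  have hB : F * (2 * ((2 * (n:ℝ) - 62) / 3)) ≤
      ((n.descFactorial 12 * (2 * (bd n + 1 - 2 * 12)) : ℕ) : ℝ) := by
    push_cast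
    apply mul_le_mul hmono _ _ (by positivity)
    · apply mul_le_mul_of_nonneg_left _ (by norm_num)
      exact hbr
    · have : (0:ℝ) ≤ 2 * (n:ℝ) - 62 := by rw [hNn]; linarith
      positivity
  have hfrac : ∀ d, d + 1 ≤ n → (d : ℝ) / N + ((N - d : ℕ) : ℝ) / N = 1 := by
    intro d hd
    have h1 : ((N - d : ℕ) : ℝ) = (N : ℝ) - d := by
      rw [Nat.cast_sub (by omega)]
    rw [h1]; field_simp; ring
  have hmain : ∀ d, lo n ≤ d → d + lo n + 1 ≤ n → (W n 12 d : ℝ) ≤ F * (774 / 1000) := by
    intro d h1 h2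
    refine (W_bound n d hn (by omega)).trans ?_
    apply mul_le_mul_of_nonneg_left _ hFpos.le
    apply bracket1 _ _ _ _ (hfrac d (by omega))
    · rw [le_div_iff₀ hN0]
      have : N ≤ 6 * d := by omega
      have : (N:ℝ) ≤ 6 * d := by exact_mod_cast this
      linarith
    · rw [le_div_iff₀ hN0]
      have : N ≤ 6 * (N - d) := by omega
      have : (N:ℝ) ≤ 6 * ((N - d : ℕ) : ℝ) := by exact_mod_cast this
      linarith
  refine ⟨?_, ?_, ?_⟩
  · intro d h1 h2
    have h3 := hmain d h1 h2
    have h4 : ((((n - 1) * W n 12 d + 6 * N.descFactorial 12 : ℕ)) : ℝ) <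
        ((n.descFactorial 12 * (2 * (bd n + 1 - 2 * 12)) : ℕ) : ℝ) := by
      refine lt_of_lt_of_le ?_ hB
      rw [← hN]
      push_cast
      rw [← hF, hNn]
      nlinarith
    exact_mod_cast h4
  · intro d h1 h2
    have h3 := hmain d (by omega) (by omega)
    have h4 : ((((n - 2) * W n 12 d + 2 * (6 * N.descFactorial 12) : ℕ)) : ℝ) <
        ((n.descFactorial 12 * (2 * (bd n + 1 - 2 * 12)) : ℕ) : ℝ) := by
      refine lt_of_lt_of_le ?_ hB
      have : n - 2 = N - 1 := by omega
      rw [this]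
      push_cast [show 1 ≤ N by omega]
      rw [← hF, hNn]
      nlinarith
    exact_mod_cast h4
  · intro d h1 h2
    have h3 : (W n 12 d : ℝ) ≤ F * 6 := by
      refine (W_bound n d hn (by omega)).trans ?_
      apply mul_le_mul_of_nonneg_left _ hFpos.le
      exact bracket2 _ _ (by positivity) (by positivity) (hfrac d (by omega))
    have h4 : ((W n 12 d : ℕ) : ℝ) ≤ ((6 * N.descFactorial 12 : ℕ) : ℝ) := by
      push_cast
      rw [← hF]; linarith
    exact_mod_cast h4

section Ten
variable {V : Type} [Fintype V] [DecidableEq V]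

lemma nb_sub_UU_left (G : SimpleGraph V) (a b : V) : nb G a ⊆ UU G a b := by
  rw [UU_eq]; exact Finset.subset_union_left

lemma nb_sub_UU_right (G : SimpleGraph V) (a b : V) : nb G b ⊆ UU G a b := by
  rw [UU_eq]; exact Finset.subset_union_right

/-- the first reduction for ten vertices -/
lemma ten_pair {G : SimpleGraph V} (h10 : 10 ≤ mc G) (h10' : 10 ≤ mc Gᶜ)
    (hd : ∀ w, 1 ≤ dg G w) {a b : V} (hab : a ≠ b) (hD : dg G a + dg G b ≤ 6) :
    ¬ G.Adj a b ∧ dg G a = 3 ∧ dg G b = 3 ∧ nb G a = UU G a b ∧ nb G b = UU G a b ∧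
      (UU G a b).card = 3 ∧
      ∀ c, c ≠ a → c ≠ b → miss G a b c ≤ 2 := by
  have h2 := T2 G hab
  have hadj : ¬ G.Adj a b := by
    intro h
    rw [ad_one h] at h2
    omega
  rw [ad_zero hadj] at h2
  have hmiss : ∀ c, c ≠ a → c ≠ b → miss G a b c ≤ 2 := by
    intro c hca hcb
    have := T4 G hab hca hcb hadj
    omega
  have ha1 := hd a
  have hb1 := hd b
  have hU3 : (UU G a b).card ≤ 3 := by
    by_contra hcon
    have := T4S G hab hadj 2 le_rfl hmiss (by omega)
    omega
  have c1 := Finset.card_le_card (nb_sub_UU_left G a b)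
  have c2 := Finset.card_le_card (nb_sub_UU_right G a b)
  rw [card_nb] at c1 c2
  refine ⟨hadj, by omega, by omega, ?_, ?_, by omega, hmiss⟩
  · apply Finset.eq_of_subset_of_card_le (nb_sub_UU_left G a b)
    rw [card_nb]; omega
  · apply Finset.eq_of_subset_of_card_le (nb_sub_UU_right G a b)
    rw [card_nb]; omega

lemma ten_lem {G : SimpleGraph V} (hn : Fintype.card V = 10) (h10 : 10 ≤ mc G)
    (h10' : 10 ≤ mc Gᶜ) (hd : ∀ w, 1 ≤ dg G w) {a b : V} (hab : a ≠ b) :
    7 ≤ dg G a + dg G b := by
  by_contra hcon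
  obtain ⟨hadj, da, db, hNa, hNb, hUc, hmiss⟩ := ten_pair h10 h10' hd hab (by omega)
  set U := UU G a b with hU
  have haU : a ∉ U := by
    rw [← hNa, mem_nb]; exact G.irrefl
  have hbU : b ∉ U := by
    rw [← hNb, mem_nb]; exact G.irrefl
  have haadj : ∀ v, G.Adj a v ↔ v ∈ U := fun v => by rw [← hNa, mem_nb]
  have hbadj : ∀ v, G.Adj b v ↔ v ∈ U := fun v => by rw [← hNb, mem_nb]
  set R : Finset V := (insert a (insert b U))ᶜ with hR
  have hRc : R.card = 5 := by
    rw [hR, Finset.card_compl, Finset.card_insert_of_notMem, Finset.card_insert_of_notMem hbU,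
      hUc, hn]
    rw [Finset.mem_insert, not_or]; exact ⟨hab, haU⟩
  have hmemR : ∀ v, v ∈ R ↔ v ≠ a ∧ v ≠ b ∧ v ∉ U := by
    intro v
    rw [hR, Finset.mem_compl, Finset.mem_insert, Finset.mem_insert, not_or, not_or]
  have hiaa : ia G U a = 3 := by
    rw [ia_eq_inter, hNa, Finset.inter_self, hUc]
  have hiab : ia G U b = 3 := by
    rw [ia_eq_inter, hNb, Finset.inter_self, hUc]
  set R1 : Finset V := R.filter (fun x => ia G U x = 1) with hR1
  have hU1 : ∀ x ∈ R, 1 ≤ ia G U x := by
    intro x hx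
    rw [hmemR] at hx
    have h1 := ia_UU G a b x
    rw [← hU, Finset.erase_eq_of_notMem hx.2.2, hUc] at h1
    have h2 := hmiss x hx.1 hx.2.1
    omega
  have hUcompl : Uᶜ = insert a (insert b R) := by
    ext v
    rw [Finset.mem_compl, Finset.mem_insert, Finset.mem_insert, hmemR]
    constructor
    · intro h
      by_cases h1 : v = a
      · exact Or.inl h1
      · by_cases h2 : v = b
        · exact Or.inr (Or.inl h2)
        · exact Or.inr (Or.inr ⟨h1, h2, h⟩)
    · rintro (h | h | h)
      · exact h ▸ haU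
      · exact h ▸ hbU
      · exact h.2.2
  have haR : a ∉ R := by rw [hmemR]; simp
  have hbR : b ∉ R := by rw [hmemR]; simp
  have hR1c : 4 ≤ R1.card := by
    have h1 := mc_le G U
    unfold cost2 at h1
    rw [hUc, hUcompl, Finset.sum_insert (by simp [hab, haR]), Finset.sum_insert hbR, hiaa,
      hiab] at h1
    have h2 : ∑ x ∈ R, (2 - ia G U x) ≤ ∑ x ∈ R, (if ia G U x = 1 then 1 else 0) := by
      apply Finset.sum_le_sum
      intro x hx
      have := hU1 x hx
      split_ifs <;> omega
    rw [← Finset.card_filter, ← hR1] at h2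
    omega
  -- degrees in R1
  have hdeg : ∀ r ∈ R, dg G r = ia G U r + ia G R r := by
    intro r hr
    have h1 := ia_add_compl G U r
    rw [hUcompl, ia_eq G (insert a (insert b R)), Finset.sum_insert (by simp [hab, haR]),
      Finset.sum_insert hbR, ← ia_eq] at h1
    rw [hmemR] at hr
    have h2 : ad G r a = 0 := ad_zero (fun h => hr.2.2 ((haadj r).mp h.symm))
    have h3 : ad G r b = 0 := ad_zero (fun h => hr.2.2 ((hbadj r).mp h.symm))
    omega
  have hR1sub : R1 ⊆ R := Finset.filter_subset _ _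
  have hnon : ∀ r ∈ R, 2 ≤ ((R1.erase r).filter (fun x => ¬ G.Adj r x)).card := by
    intro r hr
    have hrU : r ∉ U := ((hmemR r).mp hr).2.2
    have h1 := mc_le G (insert r U)
    unfold cost2 at h1
    have hcompl : (insert r U)ᶜ = insert a (insert b (R.erase r)) := by
      ext v
      rw [Finset.mem_compl, Finset.mem_insert, not_or, ← Finset.mem_compl, hUcompl,
        Finset.mem_insert, Finset.mem_insert, Finset.mem_insert, Finset.mem_insert,
        Finset.mem_erase]
      have hra : r ≠ a := ((hmemR r).mp hr).1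
      have hrb : r ≠ b := ((hmemR r).mp hr).2.1
      constructor
      · rintro ⟨h1, h2 | h2 | h2⟩
        · exact Or.inl h2
        · exact Or.inr (Or.inl h2)
        · exact Or.inr (Or.inr ⟨h1, h2⟩)
      · rintro (h | h | h)
        · exact ⟨fun h' => hra (h'.symm.trans h), Or.inl h⟩
        · exact ⟨fun h' => hrb (h'.symm.trans h), Or.inr (Or.inl h)⟩
        · exact ⟨h.1, Or.inr (Or.inr h.2)⟩
    have hia : ∀ v, ia G (insert r U) v = ad G v r + ia G U v := by
      intro v
      rw [ia_eq, Finset.sum_insert hrU, ← ia_eq]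
    rw [Finset.card_insert_of_notMem hrU, hUc, hcompl,
      Finset.sum_insert (by simp [hab, haR]), Finset.sum_insert (by simp [hbR]), hia, hia,
      hiaa, hiab] at h1
    have h2 : ∑ x ∈ R.erase r, (2 - ia G (insert r U) x) ≤
        ∑ x ∈ R.erase r, (if ia G U x = 1 ∧ ¬ G.Adj r x then 1 else 0) := by
      apply Finset.sum_le_sum
      intro x hx
      have h3 := hU1 x (Finset.mem_of_mem_erase hx)
      rw [hia, ad_symm]
      by_cases h4 : G.Adj r x
      · rw [ad_one h4]; omega
      · rw [ad_zero h4]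
        by_cases h5 : ia G U x = 1
        · rw [if_pos ⟨h5, h4⟩]; omega
        · rw [if_neg (fun h => h5 h.1)]; omega
    rw [← Finset.card_filter] at h2
    have h3 : (R.erase r).filter (fun x => ia G U x = 1 ∧ ¬ G.Adj r x) =
        (R1.erase r).filter (fun x => ¬ G.Adj r x) := by
      ext v
      simp only [hR1, Finset.mem_filter, Finset.mem_erase]
      tauto
    rw [h3] at h2
    omega
  have hle3 : ∀ r ∈ R1, dg G r ≤ 3 := by
    intro r hr
    have hrR := hR1sub hr
    have h1 := hdeg r hrR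
    have h2 : ia G U r = 1 := by
      rw [hR1, Finset.mem_filter] at hr; exact hr.2
    have h3 := hnon r hrR
    have h4 : ia G R r + ((R1.erase r).filter (fun x => ¬ G.Adj r x)).card ≤ (R.erase r).card := by
      unfold ia
      rw [← Finset.card_union_of_disjoint]
      · apply Finset.card_le_card
        intro v hv
        rw [Finset.mem_union, Finset.mem_filter, Finset.mem_filter, Finset.mem_erase] at hv
        rw [Finset.mem_erase]
        rcases hv with hv | hv
        · exact ⟨hv.2.ne', hv.1⟩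
        · exact ⟨hv.1.1, hR1sub hv.1.2⟩
      · rw [Finset.disjoint_left]
        intro v hv hv'
        rw [Finset.mem_filter] at hv hv'
        exact hv'.2 hv.2
    rw [Finset.card_erase_of_mem hrR, hRc] at h4
    omega
  -- pick r in R1
  obtain ⟨r, hr⟩ := Finset.card_pos.mp (by omega : 0 < R1.card)
  have hindep : ∀ x ∈ R1, x ≠ r → ¬ G.Adj r x ∧ dg G r = 3 := by
    intro x hx hxr
    have h1 := hle3 r hr
    have h2 := hle3 x hx
    obtain ⟨h3, h4, -⟩ := ten_pair h10 h10' hd hxr.symm (by omega)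
    exact ⟨h3, h4⟩
  obtain ⟨x, hx, hxr⟩ := Finset.exists_mem_ne (by omega : 1 < R1.card) r
  have hd3 := (hindep x hx hxr).2
  have hrR := hR1sub hr
  have h1 := hdeg r hrR
  have h2 : ia G U r = 1 := by
    rw [hR1, Finset.mem_filter] at hr; exact hr.2
  have h3 : ia G R r ≤ (R \ R1).card := by
    unfold ia
    apply Finset.card_le_card
    intro v hv
    rw [Finset.mem_filter] at hv
    rw [Finset.mem_sdiff]
    refine ⟨hv.1, fun hv1 => ?_⟩
    by_cases hvr : v = r
    · subst hvr; exact G.irrefl hv.2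
    · exact (hindep v hv1 hvr).1 hv.2
  have h4 := Finset.card_sdiff_add_card_eq_card hR1sub
  omega

/-- ten vertices -/
lemma ten {G : SimpleGraph V} (hn : Fintype.card V = 10) (h10 : 10 ≤ mc G)
    (h10' : 10 ≤ mc Gᶜ) (hd : ∀ w, 1 ≤ dg G w) (he : ∀ w, 1 ≤ dg Gᶜ w) :
    mc G / 2 + mc Gᶜ / 2 ≤ 9 := by
  have hp : ∀ a b, a ≠ b → 7 ≤ dg G a + dg G b := fun a b hab => ten_lem hn h10 h10' hd hab
  have hq : ∀ a b, a ≠ b → 7 ≤ dg Gᶜ a + dg Gᶜ b := by
    intro a b hab
    apply ten_lem (G := Gᶜ) hn h10' _ he hab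
    rw [compl_compl]; exact h10
  have hsum : ∀ w, dg G w + dg Gᶜ w + 1 = 10 := fun w => by rw [← hn]; exact dg_compl G w
  apply T3_concl G 4 9 le_rfl (by omega) (by omega)
  rw [hn]
  have hW : ∀ w, (dg G w = 2 → W 10 4 (dg G w) = 3360) ∧ (dg G w = 3 → W 10 4 (dg G w) = 2304) ∧
      (dg G w = 4 → W 10 4 (dg G w) = 1728) ∧ (dg G w = 5 → W 10 4 (dg G w) = 1728) ∧
      (dg G w = 6 → W 10 4 (dg G w) = 2304) ∧ (dg G w = 7 → W 10 4 (dg G w) = 3360) := by
    intro w
    refine ⟨?_, ?_, ?_, ?_, ?_, ?_⟩ <;> intro h <;> rw [h] <;> decide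
  have hB : (10 : ℕ).descFactorial 4 * (2 * (9 + 1 - 2 * 4)) = 20160 := by decide
  rw [hB]
  -- exceptional degrees are at least two
  have hge2 : ∀ w, 2 ≤ dg G w := by
    intro w
    by_contra hcon
    -- all others have degree at least six
    have h1 : ∀ v, v ≠ w → dg Gᶜ v ≤ 3 := by
      intro v hv
      have h2 := hp v w hv
      have h3 := hsum v
      omega
    obtain ⟨x, hx, y, hy, hxy⟩ := Finset.one_lt_card.mp
      (by rw [Finset.card_erase_of_mem (Finset.mem_univ w), Finset.card_univ]; omega :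
        1 < (univ.erase w : Finset V).card)
    have h2 := h1 x (Finset.ne_of_mem_erase hx)
    have h3 := h1 y (Finset.ne_of_mem_erase hy)
    have h4 := hq x y hxy
    omega
  have hge2' : ∀ w, 2 ≤ dg Gᶜ w := by
    intro w
    by_contra hcon
    have h1 : ∀ v, v ≠ w → dg G v ≤ 3 := by
      intro v hv
      have h2 := hq v w hv
      have h3 := hsum v
      omega
    obtain ⟨x, hx, y, hy, hxy⟩ := Finset.one_lt_card.mp
      (by rw [Finset.card_erase_of_mem (Finset.mem_univ w), Finset.card_univ]; omega :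
        1 < (univ.erase w : Finset V).card)
    have h2 := h1 x (Finset.ne_of_mem_erase hx)
    have h3 := h1 y (Finset.ne_of_mem_erase hy)
    have h4 := hp x y hxy
    omega
  have hMax : ∀ w, W 10 4 (dg G w) ≤ 3360 := by
    intro w
    have h1 := hge2 w
    have h2 := hge2' w
    have h3 := hsum w
    obtain ⟨w2, w3, w4, w5, w6, w7⟩ := hW w
    have : dg G w = 2 ∨ dg G w = 3 ∨ dg G w = 4 ∨ dg G w = 5 ∨ dg G w = 6 ∨ dg G w = 7 := by
      omega
    rcases this with h | h | h | h | h | h
    · rw [w2 h]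
    · rw [w3 h]; omega
    · rw [w4 h]; omega
    · rw [w5 h]; omega
    · rw [w6 h]; omega
    · rw [w7 h]
  have hmid : ∀ w, 4 ≤ dg G w → 4 ≤ dg Gᶜ w → W 10 4 (dg G w) = 1728 := by
    intro w h1 h2
    have h3 := hsum w
    obtain ⟨w2, w3, w4, w5, w6, w7⟩ := hW w
    have : dg G w = 4 ∨ dg G w = 5 := by omega
    rcases this with h | h
    · exact w4 h
    · exact w5 h
  have caseB : ∀ a, (∀ w, w ≠ a → 4 ≤ dg G w ∧ 4 ≤ dg Gᶜ w) →
      ∑ w, W 10 4 (dg G w) < 20160 := by
    intro a ha
    rw [← Finset.add_sum_erase univ _ (Finset.mem_univ a)]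
    have h1 : ∑ w ∈ univ.erase a, W 10 4 (dg G w) = ∑ w ∈ univ.erase a, 1728 := by
      apply Finset.sum_congr rfl
      intro w hw
      have := ha w (Finset.ne_of_mem_erase hw)
      exact hmid w this.1 this.2
    rw [h1, Finset.sum_const, smul_eq_mul, Finset.card_erase_of_mem (Finset.mem_univ a),
      Finset.card_univ, hn]
    have := hMax a
    omega
  by_cases hEG : ∃ a, dg G a < 4
  · obtain ⟨a, ha⟩ := hEG
    by_cases hEH : ∃ b, dg Gᶜ b < 4
    · obtain ⟨b, hb⟩ := hEH
      have hab : a ≠ b := by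
        rintro rfl
        have := hsum a
        omega
      rw [← Finset.add_sum_erase univ _ (Finset.mem_univ a),
        ← Finset.add_sum_erase (univ.erase a) _
          (Finset.mem_erase.mpr ⟨Ne.symm hab, Finset.mem_univ b⟩)]
      have hcard : ((univ.erase a).erase b : Finset V).card = 8 := by
        rw [Finset.card_erase_of_mem (Finset.mem_erase.mpr ⟨Ne.symm hab, Finset.mem_univ b⟩),
          Finset.card_erase_of_mem (Finset.mem_univ a), Finset.card_univ, hn]
      have h1 : ∑ w ∈ (univ.erase a).erase b, W 10 4 (dg G w) =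
          ∑ w ∈ (univ.erase a).erase b, 1728 := by
        apply Finset.sum_congr rfl
        intro w hw
        rw [Finset.mem_erase, Finset.mem_erase] at hw
        have h2 := hp w a hw.2.1
        have h3 := hq w b hw.1
        exact hmid w (by omega) (by omega)
      rw [h1, Finset.sum_const, smul_eq_mul, hcard]
      -- not both exceptional vertices have degree two
      have hnot : ¬ (dg G a = 2 ∧ dg Gᶜ b = 2) := by
        rintro ⟨h2, h3⟩
        obtain ⟨w, hw⟩ := Finset.card_pos.mp (by omega :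
          0 < ((univ.erase a).erase b : Finset V).card)
        rw [Finset.mem_erase, Finset.mem_erase] at hw
        have h4 := hp w a hw.2.1
        have h5 := hq w b hw.1
        have h6 := hsum w
        omega
      have ha2 := hge2 a
      have hb2 := hge2' b
      have hb3 := hsum b
      have wa : W 10 4 (dg G a) = 3360 ∧ dg G a = 2 ∨ W 10 4 (dg G a) = 2304 ∧ dg G a = 3 := by
        have : dg G a = 2 ∨ dg G a = 3 := by omega
        rcases this with h | h
        · exact Or.inl ⟨(hW a).1 h, h⟩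
        · exact Or.inr ⟨(hW a).2.1 h, h⟩
      have wb : W 10 4 (dg G b) = 3360 ∧ dg Gᶜ b = 2 ∨
          W 10 4 (dg G b) = 2304 ∧ dg Gᶜ b = 3 := by
        have : dg G b = 7 ∨ dg G b = 6 := by omega
        rcases this with h | h
        · exact Or.inl ⟨(hW b).2.2.2.2.2 h, by omega⟩
        · exact Or.inr ⟨(hW b).2.2.2.2.1 h, by omega⟩
      rcases wa with wa | wa <;> rcases wb with wb | wb
      · exact absurd ⟨wa.2, wb.2⟩ hnot
      · omega
      · omega
      · omega
    · push Not at hEH
      apply caseB a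
      intro w hw
      have h1 := hp w a hw
      have h2 := hEH w
      omega
  · push Not at hEG
    by_cases hEH : ∃ b, dg Gᶜ b < 4
    · obtain ⟨b, hb⟩ := hEH
      apply caseB b
      intro w hw
      have h1 := hq w b hw
      have h2 := hEG w
      omega
    · push Not at hEH
      obtain ⟨a⟩ : Nonempty V := Fintype.card_pos_iff.mp (by omega)
      exact caseB a (fun w _ => ⟨hEG w, hEH w⟩)

end Ten

section Main
variable {V : Type} [Fintype V] [DecidableEq V]

lemma sixteen_pair {G : SimpleGraph V} (h12 : 12 ≤ mc G) (h12' : 12 ≤ mc Gᶜ)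
    (hd : ∀ w, 1 ≤ dg G w) {a b : V} (hab : a ≠ b) : 2 * 5 ≤ dg G a + dg G b := by
  by_contra hcon
  have h2 := T2 G hab
  have hadj : ¬ G.Adj a b := by
    intro h
    rw [ad_one h] at h2
    omega
  rw [ad_zero hadj] at h2
  have hmiss : ∀ c, c ≠ a → c ≠ b → miss G a b c ≤ dg G a + dg G b - 6 := by
    intro c hca hcb
    have := T4 G hab hca hcb hadj
    omega
  have hU : (UU G a b).card + (nb G a ∩ nb G b).card = dg G a + dg G b := by
    rw [UU_eq, Finset.card_union_add_card_inter, card_nb, card_nb]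
  have c1 := Finset.card_le_card (Finset.inter_subset_left (s₁ := nb G a) (s₂ := nb G b))
  have c2 := Finset.card_le_card (Finset.inter_subset_right (s₁ := nb G a) (s₂ := nb G b))
  rw [card_nb] at c1 c2
  have ha1 := hd a
  have hb1 := hd b
  have := T4S G hab hadj (dg G a + dg G b - 6) (by omega) hmiss (by omega)
  omega

/-- both graphs have at most one vertex of degree at most two -/
lemma alpha_case {G : SimpleGraph V} (hd : ∀ w, 1 ≤ dg G w) (he : ∀ w, 1 ≤ dg Gᶜ w)
    (hn8 : 8 ≤ mc G) (hL : (L2 G).card ≤ 1) (hL' : (L2 Gᶜ).card ≤ 1) :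
    mc G / 2 + mc Gᶜ / 2 ≤ bd (Fintype.card V) := by
  have t1 := T1 G hd
  have t2 := T1 Gᶜ he
  set n := Fintype.card V with hn
  have hmG : mc G ≤ n := by omega
  have hmH : mc Gᶜ ≤ n := by omega
  by_cases h1 : mc G ≤ 2 * (bd n - n / 2) + 1
  · unfold bd at h1 ⊢; omega
  by_cases h2 : mc Gᶜ ≤ 2 * (bd n - n / 2) + 1
  · unfold bd at h2 ⊢; omega
  push Not at h1 h2
  have hn10 : n = 10 ∨ 12 ≤ n := by
    unfold bd at h1; omega
  have hp : ∀ a b, a ≠ b → 2 * lo n ≤ dg G a + dg G b := by
    intro a b hab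
    have := T2 G hab
    unfold lo
    omega
  have hq : ∀ a b, a ≠ b → 2 * lo n ≤ dg Gᶜ a + dg Gᶜ b := by
    intro a b hab
    have := T2 Gᶜ hab
    rw [compl_compl] at this
    unfold lo
    omega
  rcases hn10 with h10 | h12
  · have hb : bd n = 9 := by rw [h10]; rfl
    rw [hb]
    apply ten (by rw [← hn]; exact h10) _ _ hd he
    · rw [h10] at h1; unfold bd at h1; omega
    · rw [h10] at h2; unfold bd at h2; omega
  · by_cases h16 : n = 16
    · have hb : bd n = 13 := by rw [h16]; rfl
      rw [hb]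
      have h1' : 12 ≤ mc G := by rw [h16] at h1; unfold bd at h1; omega
      have h2' : 12 ≤ mc Gᶜ := by rw [h16] at h2; unfold bd at h2; omega
      apply T3_concl G 4 13 le_rfl (by omega) (by omega)
      rw [← hn]
      have hchk := chk16
      rw [← h16] at hchk
      have := alpha_num G 4 5 (W n 4 1) (n.descFactorial 4 * (2 * (13 + 1 - 2 * 4))) (by omega)
        hchk hd he (fun a b hab => sixteen_pair h1' h2' hd hab)
        (fun a b hab => sixteen_pair (G := Gᶜ) h2' (by rw [compl_compl]; exact h1') he hab)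
      exact this
    · by_cases h100 : n < 100
      · have hkk : kk n = 4 ∨ kk n = 5 := by unfold kk; split_ifs <;> simp
        have hbd : 10 ≤ bd n := by unfold bd; omega
        apply T3_concl G (kk n) (bd n) (by omega) (by omega) (by omega)
        exact alpha_num G (kk n) (lo n) _ _ (by omega) (finite_chk n h12 h100 h16) hd he hp hq
      · push Not at h100
        have hbd : 23 ≤ bd n := by unfold bd; omega
        apply T3_concl G 12 (bd n) (by omega) (by omega) (by omega)
        exact alpha_num G 12 (lo n) _ _ (by omega) (large_chk n h100) hd he hp hq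

/-- the combinatorial main theorem -/
theorem main_comb (G : SimpleGraph V) (hG : G.Connected) (hH : Gᶜ.Connected) :
    mc G / 2 + mc Gᶜ / 2 ≤ 2 * Fintype.card V / 3 + 3 := by
  by_cases hn : Fintype.card V < 3
  · have h1 := mc_le G univ
    have h2 := mc_le Gᶜ univ
    unfold cost2 at h1 h2
    rw [Finset.compl_univ, Finset.sum_empty, Finset.card_univ] at h1 h2
    omega
  push Not at hn
  have t0 := T0 hG hn
  have t0' := T0 hH hn
  by_cases h1 : mc Gᶜ ≤ 7
  · omega
  by_cases h2 : mc G ≤ 7
  · omega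
  push Not at h1 h2
  by_cases hL : 2 ≤ (L2 G).card
  · obtain ⟨h3, h4⟩ := beta h2 h1 hL
    rcases h4 with h4 | h4
    · omega
    · omega
  by_cases hL' : 2 ≤ (L2 Gᶜ).card
  · obtain ⟨h3, h4⟩ := beta (G := Gᶜ) h1 (by rw [compl_compl]; exact h2) hL'
    rw [compl_compl] at h3
    rcases h4 with h4 | h4
    · omega
    · omega
  exact alpha_case (fun w => dg_pos hG (by omega) w) (fun w => dg_pos hH (by omega) w) h2
    (by omega) (by omega)

end Main

/-- both bounds for a pair of graphs -/
lemma pair_bound {V : Type} [Fintype V] [DecidableEq V] (G : SimpleGraph V)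
    (hG : G.Connected) (hH : Gᶜ.Connected) :
    3 * (mc G / 2 + mc Gᶜ / 2) ≤ 2 * Fintype.card V + 9 := by
  have := main_comb G hG hH
  omega

end Helpers

/-- If a graph G on n vertices and its complement are both connected, the oriented game domination numbers (Minimizer first) of G and of its complement sum to at most 2n/3 + 3. -/
theorem result :
  ∀ (V : Type) [Fintype V] [DecidableEq V] (G : SimpleGraph V),
    G.Connected → Gᶜ.Connected →
    ∀ F : SimpleGraph V → ℕ → Prop,
      (∀ (H : SimpleGraph V) (k : ℕ), F H k ↔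
        ∃ P : Set (Finset (V × V)), (∅ : Finset (V × V)) ∈ P ∧ ∀ A ∈ P,
          ((∀ u v : V, H.Adj u v → (u, v) ∈ A ∨ (v, u) ∈ A) →
              ∃ S : Finset V, S.card ≤ k ∧ ∀ v : V, v ∉ S → ∃ u ∈ S, (u, v) ∈ A) ∧
          ((¬ ∀ u v : V, H.Adj u v → (u, v) ∈ A ∨ (v, u) ∈ A) → Even A.card →
              ∃ u v : V, H.Adj u v ∧ (u, v) ∉ A ∧ (v, u) ∉ A ∧ insert (u, v) A ∈ P) ∧
          ((¬ ∀ u v : V, H.Adj u v → (u, v) ∈ A ∨ (v, u) ∈ A) → Odd A.card →
              ∀ u v : V, H.Adj u v → (u, v) ∉ A → (v, u) ∉ A → insert (u, v) A ∈ P)) →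
      ∃ k₁ k₂ : ℕ, F G k₁ ∧ F Gᶜ k₂ ∧ 3 * (k₁ + k₂) ≤ 2 * Fintype.card V + 9 := by
  intro V _ _ G hG hH F hF
  obtain ⟨S, hS⟩ := exists_mc G
  obtain ⟨T, hT⟩ := exists_mc Gᶜ
  refine ⟨mc G / 2, mc Gᶜ / 2, ?_, ?_, pair_bound G hG hH⟩
  · rw [hF, ← hS]
    exact game_bound G S
  · rw [hF, ← hT]
    exact game_bound Gᶜ T

end Pool.Agent.S07679
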