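-- Proof of statement S07685.
import Pool.Statements.S07685

set_option autoImplicit false
open Pool Pool.MP_e5126b_co

namespace Pool.Agent.S07685

section aux

variable {G : Type} [Group G] [Fintype G]

/-- squaring is injective in a group of odd order -/
theorem sq_inj (hodd : Odd (Fintype.card G)) {a b : G} (h : a * a = b * b) : a = b := by
  obtain ⟨m, hm⟩ := hodd
  have key : ∀ x : G, x = (x * x) ^ (m + 1) := by
    intro x
    have h1 : x ^ (2 * m + 1) = 1 := by
      rw [← hm]; exact pow_card_eq_one
    calc x = x ^ (2 * m + 1) * x := by rw [h1, one_mul]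
      _ = x ^ (2 * (m + 1)) := by rw [← pow_succ]; congr 1
      _ = (x * x) ^ (m + 1) := by rw [pow_mul, pow_two]
  rw [key a, key b, h]

/-- reflection in g -/
def rfl' (g x : G) : G := g * x⁻¹ * g

theorem rfl'_invol (g x : G) : rfl' g (rfl' g x) = x := by
  simp [rfl', mul_assoc]

theorem rfl'_fixed (hodd : Odd (Fintype.card G)) {g x : G} (h : rfl' g x = x) : x = g := by
  have h1 : (x⁻¹ * g) * (x⁻¹ * g) = 1 * 1 := by
    have : g * x⁻¹ * g = x := h
    calc (x⁻¹ * g) * (x⁻¹ * g) = x⁻¹ * (g * x⁻¹ * g) := by group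
      _ = x⁻¹ * x := by rw [this]
      _ = 1 * 1 := by simp
  have h2 := sq_inj hodd h1
  have : g = x := by
    calc g = x * (x⁻¹ * g) := by group
      _ = x := by rw [h2, mul_one]
  exact this.symm

theorem rfl'_inj_left (hodd : Odd (Fintype.card G)) (x : G) :
    Function.Injective (fun g : G => rfl' g x) := by
  intro g h hgh
  have hgh' : g * x⁻¹ * g = h * x⁻¹ * h := hgh
  have h1 : (x⁻¹ * g) * (x⁻¹ * g) = (x⁻¹ * h) * (x⁻¹ * h) := by
    calc (x⁻¹ * g) * (x⁻¹ * g) = x⁻¹ * (g * x⁻¹ * g) := by group
      _ = x⁻¹ * (h * x⁻¹ * h) := by rw [hgh']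
      _ = (x⁻¹ * h) * (x⁻¹ * h) := by group
  exact mul_left_cancel (sq_inj hodd h1)

open Classical in
/-- the largest subset of the colour class i symmetric about g -/
noncomputable def sym {r : ℕ} (χ : G → Fin r) (i : Fin r) (g : G) : Finset G :=
  Finset.univ.filter (fun x => χ x = i ∧ χ (rfl' g x) = i)

theorem mem_sym {r : ℕ} (χ : G → Fin r) (i : Fin r) (g x : G) :
    x ∈ sym χ i g ↔ χ x = i ∧ χ (rfl' g x) = i := by
  simp [sym]

theorem even_sym (hodd : Odd (Fintype.card G)) {r : ℕ} (χ : G → Fin r) (i : Fin r) (g : G)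
    (hg : χ g ≠ i) : Even (sym χ i g).card := by
  have h0 : ∑ _x ∈ sym χ i g, (1 : ZMod 2) = 0 := by
    refine Finset.sum_involution (fun x _ => rfl' g x) ?_ ?_ ?_ ?_
    · intro a _; decide
    · intro a ha _ hfix
      have := rfl'_fixed hodd hfix
      rw [mem_sym] at ha
      exact hg (this ▸ ha.1)
    · intro a ha
      rw [mem_sym] at ha ⊢
      exact ⟨ha.2, by rw [rfl'_invol]; exact ha.1⟩
    · intro a _; exact rfl'_invol g a
  rw [Finset.sum_const, nsmul_eq_mul, mul_one] at h0
  rw [ZMod.natCast_eq_zero_iff] at h0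
  exact even_iff_two_dvd.mpr h0

open Classical in
theorem sum_sym (hodd : Odd (Fintype.card G)) {r : ℕ} (χ : G → Fin r) (i : Fin r) :
    ∑ g : G, (sym χ i g).card = (Finset.univ.filter (fun x => χ x = i)).card ^ 2 := by
  have h1 : ∀ g : G, (sym χ i g).card =
      ∑ x : G, if (χ x = i ∧ χ (rfl' g x) = i) then 1 else 0 := by
    intro g; rw [sym, Finset.card_filter]
  simp_rw [h1]
  rw [Finset.sum_comm]
  have h2 : ∀ x : G, ∑ g : G, (if (χ x = i ∧ χ (rfl' g x) = i) then 1 else 0) =
      if χ x = i then (Finset.univ.filter (fun y => χ y = i)).card else 0 := by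
    intro x
    by_cases hx : χ x = i
    · simp only [hx, true_and, if_true]
      rw [Finset.card_filter]
      exact (Function.Bijective.sum_comp
        ((Finite.injective_iff_bijective).mp (rfl'_inj_left hodd x))
        (fun y => if χ y = i then 1 else 0))
    · simp [hx]
  simp_rw [h2]
  rw [← Finset.sum_filter, Finset.sum_const, smul_eq_mul, pow_two]

end aux

/-- For every finite group of odd order, every r > 1 and every r-coloring, some one-colored set A with A = gA⁻¹g for some g has more than ∣G∣/r² elements. -/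
theorem result :
    ∀ (G : Type) [Group G] [Fintype G], Odd (Fintype.card G) →
      ∀ r : ℕ, 1 < r → ∀ χ : G → Fin r,
        ∃ (A : Finset G) (g : G) (c : Fin r),
          (∀ a ∈ A, χ a = c) ∧
          (∀ x : G, x ∈ A ↔ g * x⁻¹ * g ∈ A) ∧
          (1 : ℝ) / ((r : ℝ) ^ 2) < (A.card : ℝ) / (Fintype.card G : ℝ) := by
  classical
  intro G _ _ hodd r hr χ
  by_contra hcon
  have hnpos : 0 < Fintype.card G := Fintype.card_pos
  have hrpos : 0 < r := by omega
  -- every symmetric set is small
  have hsmall : ∀ (i : Fin r) (g : G), (sym χ i g).card * r ^ 2 ≤ Fintype.card G := by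
    intro i g
    by_contra hlt
    push Not at hlt
    apply hcon
    refine ⟨sym χ i g, g, i, fun a ha => ((mem_sym χ i g a).mp ha).1, ?_, ?_⟩
    · intro x
      have hx : g * x⁻¹ * g = rfl' g x := rfl
      rw [hx, mem_sym, mem_sym, rfl'_invol]
      exact and_comm
    · rw [div_lt_div_iff₀ (by positivity) (by positivity)]
      have : ((Fintype.card G : ℕ) : ℝ) < (((sym χ i g).card * r ^ 2 : ℕ) : ℝ) := by
        exact_mod_cast hlt
      push_cast at this
      linarith
  -- a popular colour
  obtain ⟨i, hi⟩ : ∃ i : Fin r,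
      Fintype.card G ≤ (Finset.univ.filter (fun x => χ x = i)).card * r := by
    by_contra hno
    push Not at hno
    have h1 : Fintype.card G = ∑ i : Fin r, (Finset.univ.filter (fun x => χ x = i)).card := by
      rw [← Finset.card_univ]
      exact Finset.card_eq_sum_card_fiberwise (fun x _ => Finset.mem_coe.mpr (Finset.mem_univ (χ x)))
    have h2 : ∑ i : Fin r, (Finset.univ.filter (fun x => χ x = i)).card * r
        < ∑ _i : Fin r, Fintype.card G := by
      apply Finset.sum_lt_sum_of_nonempty
      · exact ⟨⟨0, hrpos⟩, Finset.mem_univ _⟩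
      · intro j _; exact hno j
    rw [← Finset.sum_mul, ← h1, Finset.sum_const, Finset.card_univ, Fintype.card_fin,
      smul_eq_mul, mul_comm] at h2
    exact lt_irrefl _ h2
  set a := (Finset.univ.filter (fun x => χ x = i)).card with ha
  have hsum := sum_sym hodd χ i
  rw [← ha] at hsum
  have hle : ∑ g : G, (sym χ i g).card * r ^ 2 ≤ ∑ _g : G, Fintype.card G :=
    Finset.sum_le_sum (fun g _ => hsmall i g)
  have htot : ∑ g : G, (sym χ i g).card * r ^ 2 = (a * r) ^ 2 := by
    rw [← Finset.sum_mul, hsum]; ring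
  have htot2 : ∑ _g : G, Fintype.card G = (Fintype.card G) ^ 2 := by
    rw [Finset.sum_const, Finset.card_univ, smul_eq_mul, pow_two]
  have har : a * r = Fintype.card G := by
    apply le_antisymm _ hi
    rw [htot, htot2] at hle
    exact (Nat.pow_le_pow_iff_left (by norm_num)).mp hle
  -- every count is exactly card / r^2
  have heq : ∀ g : G, (sym χ i g).card * r ^ 2 = Fintype.card G := by
    have hs : ∑ g : G, (sym χ i g).card * r ^ 2 = ∑ _g : G, Fintype.card G := by
      rw [htot, htot2, har]
    intro g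
    exact (Finset.sum_eq_sum_iff_of_le (fun g _ => hsmall i g)).mp hs g (Finset.mem_univ g)
  obtain ⟨g, hg⟩ : ∃ g : G, χ g ≠ i := by
    by_contra hall
    push Not at hall
    have : a = Fintype.card G := by
      rw [ha, Finset.filter_true_of_mem (fun x _ => hall x), Finset.card_univ]
    rw [this] at har
    have : Fintype.card G * 1 < Fintype.card G * r := Nat.mul_lt_mul_of_pos_left hr hnpos
    omega
  have hev := even_sym hodd χ i g hg
  have := heq g
  have h3 : Even (Fintype.card G) := by
    rw [← this]; exact hev.mul_right _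
  exact (Nat.not_even_iff_odd.mpr hodd) h3

end Pool.Agent.S07685
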