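import Pool.Statements.S07696

set_option autoImplicit false
open Pool Pool.MP_e67bad_co

namespace Pool.Agent.S07696

/-- The integer hyperplane coefficients (5, 15, 21, 24). -/
def av : Fin 4 → ℤ := ![5, 15, 21, 24]

lemma cast_sum (x : Fin 4 → ℤ) :
    (∑ i, ((av i : ℤ) : ℝ) * (x i : ℝ) = 0) ↔ (5 * x 0 + 15 * x 1 + 21 * x 2 + 24 * x 3 = 0) := by
  rw [Fin.sum_univ_four]
  simp only [av, Matrix.cons_val_zero, Matrix.cons_val_one, Matrix.cons_val]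
  constructor
  · intro h
    have : ((5 * x 0 + 15 * x 1 + 21 * x 2 + 24 * x 3 : ℤ) : ℝ) = 0 := by
      push_cast
      push_cast at h
      linarith
    exact_mod_cast this
  · intro h
    have : ((5 * x 0 + 15 * x 1 + 21 * x 2 + 24 * x 3 : ℤ) : ℝ) = 0 := by
      rw [h]; norm_num
    push_cast at this
    push_cast
    linarith

/-- The 19 solutions in the box. -/
def sols : Finset (Fin 4 → ℤ) :=
  {![-3, -2, 1, 1], ![-3, -1, -2, 3], ![-3, 0, 3, -2], ![-3, 1, 0, 0], ![-3, 2, -3, 2], ![-3, 3, 2, -3],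
   ![0, -3, 1, 1], ![0, -2, -2, 3], ![0, -1, 3, -2], ![0, 0, 0, 0], ![0, 1, -3, 2], ![0, 2, 2, -3],
   ![0, 3, -1, -1], ![3, -3, -2, 3], ![3, -2, 3, -2], ![3, -1, 0, 0], ![3, 0, -3, 2], ![3, 1, 2, -3],
   ![3, 2, -1, -1]}

lemma sols_card : sols.card = 19 := by decide +kernel

lemma sols_spec : ∀ x ∈ sols, (∀ i, -3 ≤ x i ∧ x i ≤ 3) ∧ 5 * x 0 + 15 * x 1 + 21 * x 2 + 24 * x 3 = 0 := by
  decide +kernel

lemma trivial_only (x0 x1 x2 x3 : ℤ) (h0 : |x0| ≤ 2) (h1 : |x1| ≤ 2) (h2 : |x2| ≤ 2) (h3 : |x3| ≤ 2)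
    (h : 5 * x0 + 15 * x1 + 21 * x2 + 24 * x3 = 0) : x0 = 0 ∧ x1 = 0 ∧ x2 = 0 ∧ x3 = 0 := by
  rw [abs_le] at h0 h1 h2 h3
  obtain ⟨h0a, h0b⟩ := h0
  obtain ⟨h1a, h1b⟩ := h1
  obtain ⟨h2a, h2b⟩ := h2
  obtain ⟨h3a, h3b⟩ := h3
  have e0 : x0 = 0 := by omega
  subst e0
  interval_cases x3 <;> interval_cases x2 <;> omega

lemma value_four : ((1 + Real.sqrt 2) ^ 4 + (1 - Real.sqrt 2) ^ 4) / 2 = 17 := by
  have h : Real.sqrt 2 ^ 2 = 2 := Real.sq_sqrt (by norm_num)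
  have h4 : Real.sqrt 2 ^ 4 = 4 := by
    calc Real.sqrt 2 ^ 4 = (Real.sqrt 2 ^ 2) ^ 2 := by ring
      _ = 4 := by rw [h]; norm_num
  calc ((1 + Real.sqrt 2) ^ 4 + (1 - Real.sqrt 2) ^ 4) / 2
      = 1 + 6 * Real.sqrt 2 ^ 2 + Real.sqrt 2 ^ 4 := by ring
    _ = 17 := by rw [h, h4]; norm_num

/-- The negation of the preceding statement: For k≥2 and n≥1, over nonzero real a where no nonzero integer vector with entries in [-k,k] satisfies a·x=0, the max number of integer x with entries in [-(k+1),k+1] and a·x=0 is ((1+√2)^n+(1-√2)^n)/2. -/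
theorem result :
    ¬ (∀ k : ℕ, 2 ≤ k → ∀ n : ℕ, 1 ≤ n →
      (∃ a : Fin n → ℝ, a ≠ 0 ∧
          (∀ x : Fin n → ℤ, (∀ i, |x i| ≤ (k : ℤ)) →
              ∑ i, a i * (x i : ℝ) = 0 → x = 0) ∧
          (((Fintype.piFinset fun _ : Fin n => Finset.Icc (-((k : ℤ) + 1)) ((k : ℤ) + 1)).filter
              (fun x => ∑ i, a i * (x i : ℝ) = 0)).card : ℝ)
            = ((1 + Real.sqrt 2) ^ n + (1 - Real.sqrt 2) ^ n) / 2) ∧
      (∀ a : Fin n → ℝ, a ≠ 0 →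
          (∀ x : Fin n → ℤ, (∀ i, |x i| ≤ (k : ℤ)) →
              ∑ i, a i * (x i : ℝ) = 0 → x = 0) →
          (((Fintype.piFinset fun _ : Fin n => Finset.Icc (-((k : ℤ) + 1)) ((k : ℤ) + 1)).filter
              (fun x => ∑ i, a i * (x i : ℝ) = 0)).card : ℝ)
            ≤ ((1 + Real.sqrt 2) ^ n + (1 - Real.sqrt 2) ^ n) / 2)) := by
  intro H
  have H2 := (H 2 le_rfl 4 (by norm_num)).2 (fun i => ((av i : ℤ) : ℝ)) ?_ ?_
  · rw [value_four] at H2
    have hsub : sols ⊆ ((Fintype.piFinset fun _ : Fin 4 => Finset.Icc (-(((2 : ℕ) : ℤ) + 1)) (((2 : ℕ) : ℤ) + 1)).filter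
              (fun x => ∑ i, ((av i : ℤ) : ℝ) * (x i : ℝ) = 0)) := by
      intro x hx
      obtain ⟨h1, h2⟩ := sols_spec x hx
      rw [Finset.mem_filter, Fintype.mem_piFinset]
      refine ⟨?_, (cast_sum x).mpr h2⟩
      intro i
      rw [Finset.mem_Icc]
      have := h1 i
      constructor
      · push_cast; linarith [this.1]
      · push_cast; linarith [this.2]
    have hc := Finset.card_le_card hsub
    rw [sols_card] at hc
    have hc' : (19 : ℝ) ≤ (((Fintype.piFinset fun _ : Fin 4 => Finset.Icc (-(((2 : ℕ) : ℤ) + 1)) (((2 : ℕ) : ℤ) + 1)).filter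
              (fun x => ∑ i, ((av i : ℤ) : ℝ) * (x i : ℝ) = 0)).card : ℝ) := by
      exact_mod_cast hc
    linarith
  · intro h
    have h1 := congrFun h 0
    simp [av] at h1
  · intro x hx h
    have h2 := (cast_sum x).mp h
    have h3 : ∀ i, |x i| ≤ 2 := fun i => by simpa using hx i
    obtain ⟨e0, e1, e2, e3⟩ := trivial_only (x 0) (x 1) (x 2) (x 3) (h3 0) (h3 1) (h3 2) (h3 3) h2
    funext i
    fin_cases i
    · exact e0
    · exact e1
    · exact e2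
    · exact e3

end Pool.Agent.S07696
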