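import Pool.Statements.S07708
import Pool.Agent.Helper777.PP.Final

set_option autoImplicit false
open Pool Pool.MP_e73c56_co

namespace Pool.Agent.S07708

/-- The negation of the preceding statement: The power series whose n-th coefficient counts plane partitions of n satisfies a nontrivial polynomial equation over ℚ in t and finitely many of its derivatives, i.e. it is D-algebraic. -/
theorem result :
    ¬ (∃ Q : MvPolynomial ℕ ℚ, Q ≠ 0 ∧
      MvPolynomial.aeval
        (fun i : ℕ =>
          if i = 0 then (PowerSeries.X : PowerSeries ℚ)
          else (⇑(PowerSeries.derivative ℚ))^[i - 1]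
            (PowerSeries.mk (fun n : ℕ =>
              ((Set.ncard {f : Fin n → Fin n → ℕ |
                  (∀ i j k : Fin n, i ≤ k → f k j ≤ f i j) ∧
                  (∀ i j k : Fin n, j ≤ k → f i k ≤ f i j) ∧
                  (∑ i, ∑ j, f i j) = n} : ℕ) : ℚ))))
        Q = 0) :=
  Pool.PlanePD.final

end Pool.Agent.S07708
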