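import Pool.Statements.S07715
import Pool.Agent.Helper607.Tutte.Glue

set_option autoImplicit false
open Pool Pool.MP_e8163c_co

namespace Pool.Agent.S07715

/-- For every multigraph whose cycle matroid has a graphic dual (i.e. a planar graph), with d the dimension of its binary bicycle space, the k-th derivative of T(M;x,x) at x=-1 is divisible by 2^(d-k) for all k from 0 to d. -/
theorem result :
  ∀ (n m : ℕ) (s t : Fin m → Fin n),
    (∃ (n' : ℕ) (s' t' : Fin m → Fin n'),
      LinearMap.range (Matrix.mulVecLin (Matrix.transpose (Matrix.of fun (i : Fin n') (j : Fin m) =>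
          (if s' j = i then (1 : ZMod 2) else 0) + (if t' j = i then (1 : ZMod 2) else 0)))) =
      LinearMap.ker (Matrix.mulVecLin (Matrix.of fun (i : Fin n) (j : Fin m) =>
          (if s j = i then (1 : ZMod 2) else 0) + (if t j = i then (1 : ZMod 2) else 0)))) →
    ∀ (r : Finset (Fin m) → ℕ),
      (∀ A : Finset (Fin m), r A = Module.finrank (ZMod 2)
        (Submodule.span (ZMod 2) ((fun (j : Fin m) (i : Fin n) =>
          (if s j = i then (1 : ZMod 2) else 0) + (if t j = i then (1 : ZMod 2) else 0)) ''
            (A : Set (Fin m))))) →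
    ∀ d : ℕ, d = Module.finrank (ZMod 2)
        ↥(LinearMap.range (Matrix.mulVecLin (Matrix.transpose (Matrix.of fun (i : Fin n) (j : Fin m) =>
            (if s j = i then (1 : ZMod 2) else 0) + (if t j = i then (1 : ZMod 2) else 0)))) ⊓
          LinearMap.ker (Matrix.mulVecLin (Matrix.of fun (i : Fin n) (j : Fin m) =>
            (if s j = i then (1 : ZMod 2) else 0) + (if t j = i then (1 : ZMod 2) else 0)))) →
    ∀ k : ℕ, k ≤ d →
      (2 : ℤ) ^ (d - k) ∣ Polynomial.eval (-1 : ℤ)
        (Nat.iterate (fun p : Polynomial ℤ => Polynomial.derivative p) k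
          (∑ A : Finset (Fin m),
            (Polynomial.X - 1 : Polynomial ℤ) ^ (r Finset.univ - r A) *
              (Polynomial.X - 1 : Polynomial ℤ) ^ (A.card - r A))) := by
  exact Pool.Agent.Helper607.Tutte.Frozen.frozen_of
    fun E _ _ D hD => Pool.Agent.Helper607.Tutte.planar_code E D hD

end Pool.Agent.S07715
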