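import Pool.Statements.S07717
import Pool.Agent.Helper46.E.Final

set_option autoImplicit false
open Pool Pool.MP_e84969_co

namespace Pool.Agent.S07717

/-- For every finite field of order q=p^k>3, the number of isomorphism classes of F-representable matroids on n elements is asymptotic to the sum over j≤n of Gaussian binomials [n,j]_q divided by n!·k·(q−1)^(n−1). -/
theorem result :
  ∀ (F : Type) [Field F] [Fintype F] (p k : ℕ), p.Prime → 0 < k →
    Fintype.card F = p ^ k → 3 < p ^ k →
    Asymptotics.IsEquivalent Filter.atTop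
      (fun n : ℕ => ((Nat.card (Quot (fun M N : {M : Matroid (Fin n) // M.E = Set.univ ∧
          ∃ (r : ℕ) (v : Fin n → Fin r → F), ∀ I : Set (Fin n),
            (M.Indep I ↔ LinearIndependent F (fun i : I => v i.1))} =>
          ∃ σ : Equiv.Perm (Fin n), ∀ I : Set (Fin n), (M.1.Indep I ↔ N.1.Indep (σ '' I))))) : ℝ))
      (fun n : ℕ => (∑ j ∈ Finset.range (n + 1), ∏ i ∈ Finset.range j,
          ((((p ^ k : ℕ) : ℝ) ^ (n - i) - 1) / (((p ^ k : ℕ) : ℝ) ^ (i + 1) - 1))) /
        ((n.factorial : ℝ) * (k : ℝ) * (((p ^ k : ℕ) : ℝ) - 1) ^ (n - 1))) := by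
  intro F _ _ p k hp hk hcard h3
  have h1 : Nat.card (F ≃+* F) = k :=
    Pool.Agent.Helper46.E.Mon.card_aut p k hp (by rw [Nat.card_eq_fintype_card, hcard]) hk
  have h2 := Pool.Agent.Helper46.E.asym (F := F) (by rw [hcard]; omega) k h1 hk
  rw [hcard] at h2
  exact h2

end Pool.Agent.S07717
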