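import Pool.Statements.S07728

set_option autoImplicit false
open Pool Pool.MP_e962e1_co

namespace Pool.Agent.S07728

open Submodule Module

/-- the vector over GF(2) whose coordinates are the binary digits of `c` -/
def vec (c : ℕ) : Fin 6 → ZMod 2 := fun i => if c.testBit i then 1 else 0

lemma vec_xor (a b : ℕ) : vec (a ^^^ b) = vec a + vec b := by
  funext i
  simp only [vec, Nat.testBit_xor, Pi.add_apply]
  cases a.testBit i <;> cases b.testBit i <;> decide

/-- codes of the 21 points -/
def codes : List ℕ :=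
  [1, 2, 3, 4, 5, 6, 7, 8, 9, 10, 11, 13, 14, 15, 16, 28, 32, 34, 36, 44, 48]

/-- the point set -/
def pts : Finset (Fin 6 → ZMod 2) := (codes.map vec).toFinset

lemma mem_sup_span {U : Submodule (ZMod 2) (Fin 6 → ZMod 2)} {v e : Fin 6 → ZMod 2} :
    v ∈ U ⊔ span (ZMod 2) {e} ↔ v ∈ U ∨ v + e ∈ U := by
  constructor
  · intro h
    rw [Submodule.mem_sup] at h
    obtain ⟨y, hy, z, hz, rfl⟩ := h
    rw [Submodule.mem_span_singleton] at hz
    obtain ⟨a, rfl⟩ := hz
    have h01 : ∀ a : ZMod 2, a = 0 ∨ a = 1 := by decide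
    rcases h01 a with rfl | rfl
    · left; simpa using hy
    · right
      have : y + (1 : ZMod 2) • e + e = y := by
        funext i
        simp only [Pi.add_apply, one_smul]
        have h2 : ∀ x y : ZMod 2, x + y + y = x := by decide
        exact h2 _ _
      rw [this]; exact hy
  · intro h
    rcases h with h | h
    · exact (le_sup_left : U ≤ U ⊔ span (ZMod 2) {e}) h
    · have : v = (v + e) + e := by
        funext i
        simp only [Pi.add_apply]
        have h2 : ∀ x y : ZMod 2, x = x + y + y := by decide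
        exact h2 _ _
      rw [this]
      exact add_mem ((le_sup_left : U ≤ U ⊔ span (ZMod 2) {e}) h)
        ((le_sup_right : span (ZMod 2) {e} ≤ U ⊔ span (ZMod 2) {e}) (mem_span_singleton_self e))

lemma finrank_sup_span {U : Submodule (ZMod 2) (Fin 6 → ZMod 2)} {e : Fin 6 → ZMod 2}
    (he : e ∉ U) : finrank (ZMod 2) ↥(U ⊔ span (ZMod 2) {e}) = finrank (ZMod 2) ↥U + 1 := by
  have h := Submodule.finrank_sup_add_finrank_inf_eq U (span (ZMod 2) {e})
  have hne : e ≠ 0 := by
    rintro rfl; exact he U.zero_mem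
  rw [finrank_span_singleton hne] at h
  have hinf : U ⊓ span (ZMod 2) {e} = ⊥ := by
    rw [eq_bot_iff]
    rintro x ⟨hx1, hx2⟩
    rw [SetLike.mem_coe, Submodule.mem_span_singleton] at hx2
    obtain ⟨a, rfl⟩ := hx2
    have h01 : ∀ a : ZMod 2, a = 0 ∨ a = 1 := by decide
    rcases h01 a with rfl | rfl
    · simp
    · exfalso; apply he; simpa using hx1
  rw [hinf, finrank_bot] at h
  omega

/-- recursive form of the alternating sum over subsets -/
noncomputable def sem (φ : ℕ → Polynomial ℤ) : List (Fin 6 → ZMod 2) →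
    Submodule (ZMod 2) (Fin 6 → ZMod 2) → Polynomial ℤ
  | [], U => φ (finrank (ZMod 2) U)
  | e :: l, U => sem φ l U - sem φ l (U ⊔ span (ZMod 2) {e})

lemma sum_eq_sem (φ : ℕ → Polynomial ℤ) (l : List (Fin 6 → ZMod 2)) (hl : l.Nodup) :
    ∀ U : Submodule (ZMod 2) (Fin 6 → ZMod 2),
    ∑ X ∈ l.toFinset.powerset, (-1 : Polynomial ℤ) ^ X.card *
      φ (finrank (ZMod 2) ↥(U ⊔ span (ZMod 2) (X : Set (Fin 6 → ZMod 2)))) = sem φ l U := by
  induction l with
  | nil =>
    intro U
    have h0 : U ⊔ span (ZMod 2) ((∅ : Finset (Fin 6 → ZMod 2)) : Set (Fin 6 → ZMod 2)) = U := by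
      simp
    simp only [List.toFinset_nil, Finset.powerset_empty, Finset.sum_singleton, Finset.card_empty,
      pow_zero, one_mul, sem]
    rw [h0]
  | cons e l ih =>
    intro U
    have hn := List.nodup_cons.1 hl
    have he : e ∉ l.toFinset := by simpa using hn.1
    rw [List.toFinset_cons, Finset.sum_powerset_insert he, ih hn.2 U, sem,
      ← ih hn.2 (U ⊔ span (ZMod 2) {e}), sub_eq_add_neg, ← Finset.sum_neg_distrib]
    congr 1
    apply Finset.sum_congr rfl
    intro X hX
    have heX : e ∉ X := fun h => he (Finset.mem_powerset.1 hX h)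
    rw [Finset.card_insert_of_notMem heX, Finset.coe_insert, Submodule.span_insert, ← sup_assoc]
    ring

/-- evaluation of a coefficient list with alternating signs -/
noncomputable def ev (φ : ℕ → Polynomial ℤ) : List ℕ → ℕ → Polynomial ℤ
  | [], _ => 0
  | w :: ws, d => (w : Polynomial ℤ) * φ d - ev φ ws (d + 1)

/-- pointwise addition of coefficient lists -/
def addL : List ℕ → List ℕ → List ℕ
  | [], b => b
  | x :: a, [] => x :: a
  | x :: a, y :: b => (x + y) :: addL a b

lemma ev_addL (φ : ℕ → Polynomial ℤ) (a : List ℕ) : ∀ (b : List ℕ) (d : ℕ),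
    ev φ (addL a b) d = ev φ a d + ev φ b d := by
  induction a with
  | nil => intro b d; simp [addL, ev]
  | cons x a ih =>
    intro b d
    cases b with
    | nil => simp [addL, ev]
    | cons y b =>
      simp only [addL, ev, ih]
      push_cast
      ring

/-- shift of a 64 bit mask -/
def sw (A s m : ℕ) : ℕ := ((m &&& A) <<< s) ||| ((m >>> s) &&& A)

/-- one conditional step of a translation -/
def st (A s j m e : ℕ) : ℕ := bif e.testBit j then sw A s m else m

/-- translation of a subset of GF(2)^6, given by its mask, by the vector with code `e` -/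
def xsh (m e : ℕ) : ℕ :=
  st 4294967295 32 5 (st 281470681808895 16 4 (st 71777214294589695 8 3
    (st 1085102592571150095 4 2 (st 3689348814741910323 2 1
      (st 6148914691236517205 1 0 m e) e) e) e) e) e

lemma sw0 (m v : ℕ) (hv : v < 64) : (sw 6148914691236517205 1 m).testBit v = m.testBit (v ^^^ 1) := by
  simp only [sw, Nat.testBit_or, Nat.testBit_and, Nat.testBit_shiftLeft, Nat.testBit_shiftRight]
  interval_cases v <;> simp [Nat.testBit]
lemma sw1 (m v : ℕ) (hv : v < 64) : (sw 3689348814741910323 2 m).testBit v = m.testBit (v ^^^ 2) := by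
  simp only [sw, Nat.testBit_or, Nat.testBit_and, Nat.testBit_shiftLeft, Nat.testBit_shiftRight]
  interval_cases v <;> simp [Nat.testBit]
lemma sw2 (m v : ℕ) (hv : v < 64) : (sw 1085102592571150095 4 m).testBit v = m.testBit (v ^^^ 4) := by
  simp only [sw, Nat.testBit_or, Nat.testBit_and, Nat.testBit_shiftLeft, Nat.testBit_shiftRight]
  interval_cases v <;> simp [Nat.testBit]
lemma sw3 (m v : ℕ) (hv : v < 64) : (sw 71777214294589695 8 m).testBit v = m.testBit (v ^^^ 8) := by
  simp only [sw, Nat.testBit_or, Nat.testBit_and, Nat.testBit_shiftLeft, Nat.testBit_shiftRight]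
  interval_cases v <;> simp [Nat.testBit]
lemma sw4 (m v : ℕ) (hv : v < 64) : (sw 281470681808895 16 m).testBit v = m.testBit (v ^^^ 16) := by
  simp only [sw, Nat.testBit_or, Nat.testBit_and, Nat.testBit_shiftLeft, Nat.testBit_shiftRight]
  interval_cases v <;> simp [Nat.testBit]
lemma sw5 (m v : ℕ) (hv : v < 64) : (sw 4294967295 32 m).testBit v = m.testBit (v ^^^ 32) := by
  simp only [sw, Nat.testBit_or, Nat.testBit_and, Nat.testBit_shiftLeft, Nat.testBit_shiftRight]
  interval_cases v <;> simp [Nat.testBit]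

lemma xor_lt {a b : ℕ} (ha : a < 64) (hb : b < 64) : a ^^^ b < 64 :=
  Nat.xor_lt_two_pow (n := 6) ha hb

lemma st_gen (A s j k m e v : ℕ)
    (h : ∀ m v : ℕ, v < 64 → (sw A s m).testBit v = m.testBit (v ^^^ k)) (hv : v < 64) :
    (st A s j m e).testBit v = m.testBit (v ^^^ (bif e.testBit j then k else 0)) := by
  unfold st
  cases e.testBit j
  · simp
  · simpa using h m v hv

lemma digits (e : ℕ) (he : e < 64) :
    (bif e.testBit 5 then 32 else 0) ^^^ ((bif e.testBit 4 then 16 else 0) ^^^
      ((bif e.testBit 3 then 8 else 0) ^^^ ((bif e.testBit 2 then 4 else 0) ^^^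
        ((bif e.testBit 1 then 2 else 0) ^^^ (bif e.testBit 0 then 1 else 0))))) = e := by
  revert e; decide

lemma bif_lt (b : Bool) (k : ℕ) (hk : k < 64) : (bif b then k else 0) < 64 := by
  cases b <;> simp [hk]

lemma xsh_testBit (m e v : ℕ) (he : e < 64) (hv : v < 64) :
    (xsh m e).testBit v = m.testBit (v ^^^ e) := by
  unfold xsh
  have b5 := bif_lt (e.testBit 5) 32 (by norm_num)
  have b4 := bif_lt (e.testBit 4) 16 (by norm_num)
  have b3 := bif_lt (e.testBit 3) 8 (by norm_num)
  have b2 := bif_lt (e.testBit 2) 4 (by norm_num)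
  have b1 := bif_lt (e.testBit 1) 2 (by norm_num)
  have h5 := xor_lt hv b5
  have h4 := xor_lt h5 b4
  have h3 := xor_lt h4 b3
  have h2 := xor_lt h3 b2
  have h1 := xor_lt h2 b1
  rw [st_gen _ _ _ 32 _ _ _ sw5 hv, st_gen _ _ _ 16 _ _ _ sw4 h5, st_gen _ _ _ 8 _ _ _ sw3 h4,
    st_gen _ _ _ 4 _ _ _ sw2 h3, st_gen _ _ _ 2 _ _ _ sw1 h2, st_gen _ _ _ 1 _ _ _ sw0 h1]
  congr 1
  conv_rhs => rw [← digits e he]
  simp only [Nat.xor_assoc]

/-- mask of the subspace spanned by the old subspace and `e` -/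
def ext (m e : ℕ) : ℕ := m ||| xsh m e

/-- counts of the broken circuit free subsets, by size -/
def cnt : List ℕ → ℕ → List ℕ
  | [], _ => [1]
  | e :: l, m => bif m.testBit e then [] else addL (cnt l m) (0 :: cnt l (ext m e))

/-- `m` is the mask of `U` -/
def Rep (m : ℕ) (U : Submodule (ZMod 2) (Fin 6 → ZMod 2)) : Prop :=
  ∀ v < 64, (m.testBit v = true ↔ vec v ∈ U)

lemma rep_ext {m e : ℕ} {U : Submodule (ZMod 2) (Fin 6 → ZMod 2)} (he : e < 64)
    (h : Rep m U) : Rep (ext m e) (U ⊔ span (ZMod 2) {vec e}) := by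
  intro v hv
  rw [ext, Nat.testBit_or, xsh_testBit m e v he hv, Bool.or_eq_true, mem_sup_span, h v hv,
    h _ (xor_lt hv he), vec_xor]

lemma rep_bot : Rep 1 ⊥ := by
  intro v hv
  have h1 : vec v = 0 ↔ v = 0 := by
    revert v; decide
  rw [Submodule.mem_bot, h1]
  revert v; decide

lemma sem_eq_ev (φ : ℕ → Polynomial ℤ) (l : List ℕ) (hl : ∀ e ∈ l, e < 64) :
    ∀ (m : ℕ) (U : Submodule (ZMod 2) (Fin 6 → ZMod 2)), Rep m U →
    sem φ (l.map vec) U = ev φ (cnt l m) (finrank (ZMod 2) U) := by
  induction l with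
  | nil => intro m U _; simp [sem, cnt, ev]
  | cons e l ih =>
    intro m U h
    have he : e < 64 := hl e (by simp)
    have hl' : ∀ e ∈ l, e < 64 := fun x hx => hl x (by simp [hx])
    rw [List.map_cons, sem, cnt]
    cases hb : m.testBit e with
    | true =>
      have hm : vec e ∈ U := (h e he).1 hb
      have hU : U ⊔ span (ZMod 2) {vec e} = U := by
        rw [sup_eq_left, Submodule.span_singleton_le_iff_mem]; exact hm
      rw [hU]
      simp [ev]
    | false =>
      have hm : vec e ∉ U := fun hm => by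
        have := (h e he).2 hm
        rw [hb] at this
        exact Bool.false_ne_true this
      rw [cond_false, ev_addL, ih hl' m U h, ih hl' _ _ (rep_ext he h), finrank_sup_span hm]
      simp [ev, sub_eq_add_neg]

set_option maxRecDepth 100000 in
lemma cnt_codes : cnt codes 1 = [1, 21, 175, 735, 1624, 1764, 720] := by
  decide +kernel

lemma codes_lt : ∀ e ∈ codes, e < 64 := by decide

lemma map_nodup : (codes.map vec).Nodup := by decide

lemma span_pts : span (ZMod 2) (pts : Set (Fin 6 → ZMod 2)) = ⊤ := by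
  rw [eq_top_iff]
  intro v _
  have hb : ∀ i : Fin 6, Pi.single i (1 : ZMod 2) ∈ pts := by decide
  have hv : v = ∑ i, v i • (Pi.single i (1 : ZMod 2) : Fin 6 → ZMod 2) := by
    funext j
    simp [Finset.sum_apply, Pi.single_apply]
  rw [hv]
  exact Submodule.sum_mem _ fun i _ => Submodule.smul_mem _ _ (subset_span (hb i))

lemma finrank_span_pts :
    finrank (ZMod 2) ↥(span (ZMod 2) (pts : Set (Fin 6 → ZMod 2))) = 6 := by
  rw [span_pts, finrank_top]
  simp

lemma charpoly :
    (∑ X ∈ pts.powerset, (-1 : Polynomial ℤ) ^ X.card *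
          Polynomial.X ^ (Module.finrank (ZMod 2)
              ↥(Submodule.span (ZMod 2) (pts : Set (Fin 6 → ZMod 2))) -
            Module.finrank (ZMod 2)
              ↥(Submodule.span (ZMod 2) (X : Set (Fin 6 → ZMod 2)))))
        = ∏ i ∈ Finset.range 6, (Polynomial.X - Polynomial.C ((i : ℤ) + 1)) := by
  rw [finrank_span_pts]
  have h := sum_eq_sem (fun d => Polynomial.X ^ (6 - d)) (codes.map vec) map_nodup ⊥
  rw [sem_eq_ev _ codes codes_lt 1 ⊥ rep_bot, cnt_codes, finrank_bot] at h
  have h' : (∑ X ∈ pts.powerset, (-1 : Polynomial ℤ) ^ X.card *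
          Polynomial.X ^ (6 - Module.finrank (ZMod 2)
              ↥(Submodule.span (ZMod 2) (X : Set (Fin 6 → ZMod 2)))))
       = ∑ X ∈ (codes.map vec).toFinset.powerset, (-1 : Polynomial ℤ) ^ X.card *
      Polynomial.X ^ (6 - finrank (ZMod 2) ↥(⊥ ⊔ span (ZMod 2) (X : Set (Fin 6 → ZMod 2)))) := by
    apply Finset.sum_congr rfl
    intro X _
    rw [bot_sup_eq]
  rw [h', h]
  simp only [ev, Finset.prod_range_succ, Finset.prod_range_zero]
  simp only [Nat.cast_ofNat, Nat.cast_one, Nat.cast_zero, Polynomial.C_add, Polynomial.C_1,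
    map_ofNat, map_zero]
  norm_num
  ring

lemma no_modular_hyperplane : ∀ a : Fin 6 → ZMod 2, a ≠ 0 →
    ∃ x ∈ pts, ∃ y ∈ pts, x ≠ y ∧ ∑ i, a i * x i = 1 ∧ ∑ i, a i * y i = 1 ∧ x + y ∉ pts := by
  decide +kernel

/-- The negation of the preceding statement: For any finite set S of nonzero vectors over GF(2), if its matroid's characteristic polynomial equals (x−1)(x−2)⋯(x−n), then there is a maximal chain of flats of ranks 0,1,…,n, each modular, ending at span S; that is, the matroid is supersolvable. -/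
theorem result :
    ¬ (∀ (m : ℕ) (S : Finset (Fin m → ZMod 2)), (0 : Fin m → ZMod 2) ∉ S →
    ∀ n : ℕ,
      (∑ X ∈ S.powerset, (-1 : Polynomial ℤ) ^ X.card *
          Polynomial.X ^ (Module.finrank (ZMod 2)
              ↥(Submodule.span (ZMod 2) (S : Set (Fin m → ZMod 2))) -
            Module.finrank (ZMod 2)
              ↥(Submodule.span (ZMod 2) (X : Set (Fin m → ZMod 2)))))
        = ∏ i ∈ Finset.range n, (Polynomial.X - Polynomial.C ((i : ℤ) + 1)) →
      ∃ W : ℕ → Submodule (ZMod 2) (Fin m → ZMod 2),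
        (∀ i, i ≤ n → Module.finrank (ZMod 2) ↥(W i) = i) ∧
        (∀ i, i < n → W i ≤ W (i + 1)) ∧
        W n = Submodule.span (ZMod 2) (S : Set (Fin m → ZMod 2)) ∧
        (∀ i, i ≤ n →
          Submodule.span (ZMod 2)
            ((S : Set (Fin m → ZMod 2)) ∩ (W i : Set (Fin m → ZMod 2))) = W i) ∧
        (∀ i, i ≤ n → ∀ U : Submodule (ZMod 2) (Fin m → ZMod 2),
          Submodule.span (ZMod 2)
            ((S : Set (Fin m → ZMod 2)) ∩ (U : Set (Fin m → ZMod 2))) = U →
          Module.finrank (ZMod 2) ↥(W i) + Module.finrank (ZMod 2) ↥U =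
            Module.finrank (ZMod 2) ↥(W i ⊔ U) +
            Module.finrank (ZMod 2)
              ↥(Submodule.span (ZMod 2)
                ((S : Set (Fin m → ZMod 2)) ∩ (W i : Set (Fin m → ZMod 2)) ∩
                  (U : Set (Fin m → ZMod 2)))))) := by
  intro H
  have h0 : (0 : Fin 6 → ZMod 2) ∉ pts := by decide
  obtain ⟨W, hr, -, -, -, hmod⟩ := H 6 pts h0 6 charpoly
  have h5 : finrank (ZMod 2) ↥(W 5) = 5 := hr 5 (by norm_num)
  have hlt : W 5 < ⊤ := by
    rw [lt_top_iff_ne_top]
    intro h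
    rw [h, finrank_top] at h5
    simp at h5
  obtain ⟨f, hf0, hf⟩ := Submodule.exists_le_ker_of_lt_top (W 5) hlt
  -- coordinates of the functional
  set a : Fin 6 → ZMod 2 := fun i => f (Pi.single i 1) with ha
  have hfa : ∀ v : Fin 6 → ZMod 2, f v = ∑ i, a i * v i := by
    intro v
    have hv : v = ∑ i, v i • (Pi.single i (1 : ZMod 2) : Fin 6 → ZMod 2) := by
      funext j
      simp [Finset.sum_apply, Pi.single_apply]
    conv_lhs => rw [hv]
    rw [map_sum]
    apply Finset.sum_congr rfl
    intro i _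
    rw [map_smul, smul_eq_mul, mul_comm]
  have ha0 : a ≠ 0 := by
    intro h
    apply hf0
    ext i
    simpa [ha] using congrFun h i
  obtain ⟨x, hx, y, hy, hxy, hax, hay, hxyS⟩ := no_modular_hyperplane a ha0
  have hfx : f x = 1 := by rw [hfa, hax]
  have hfy : f y = 1 := by rw [hfa, hay]
  have hxW : x ∉ W 5 := fun h => by
    have := hf h
    rw [LinearMap.mem_ker, hfx] at this
    exact one_ne_zero this
  have hU : span (ZMod 2) ((pts : Set (Fin 6 → ZMod 2)) ∩
      ((span (ZMod 2) {x} ⊔ span (ZMod 2) {y} : Submodule (ZMod 2) (Fin 6 → ZMod 2)) :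
        Set (Fin 6 → ZMod 2))) = span (ZMod 2) {x} ⊔ span (ZMod 2) {y} := by
    apply le_antisymm
    · rw [Submodule.span_le]
      exact fun z hz => hz.2
    · apply sup_le
      · rw [Submodule.span_singleton_le_iff_mem]
        exact subset_span ⟨hx, (le_sup_left : span (ZMod 2) {x} ≤ _) (mem_span_singleton_self x)⟩
      · rw [Submodule.span_singleton_le_iff_mem]
        exact subset_span ⟨hy, (le_sup_right : span (ZMod 2) {y} ≤ _) (mem_span_singleton_self y)⟩
  have hM := hmod 5 (by norm_num) _ hU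
  have hx0 : x ≠ 0 := by rintro rfl; exact h0 hx
  have hy0 : y ≠ 0 := by rintro rfl; exact h0 hy
  have hyx : y ∉ span (ZMod 2) {x} := by
    rw [Submodule.mem_span_singleton]
    rintro ⟨c, hc⟩
    have h01 : ∀ c : ZMod 2, c = 0 ∨ c = 1 := by decide
    rcases h01 c with rfl | rfl
    · apply hy0; rw [← hc, zero_smul]
    · apply hxy; rw [← hc, one_smul]
  have hrU : finrank (ZMod 2) ↥(span (ZMod 2) {x} ⊔ span (ZMod 2) {y}) = 2 := by
    rw [finrank_sup_span hyx, finrank_span_singleton hx0]
  have hle : finrank (ZMod 2) ↥(W 5 ⊔ (span (ZMod 2) {x} ⊔ span (ZMod 2) {y})) ≤ 6 := by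
    have := Submodule.finrank_le (W 5 ⊔ (span (ZMod 2) {x} ⊔ span (ZMod 2) {y}))
    simpa using this
  have hge : 6 ≤ finrank (ZMod 2) ↥(W 5 ⊔ (span (ZMod 2) {x} ⊔ span (ZMod 2) {y})) := by
    have h1 : finrank (ZMod 2) ↥(W 5 ⊔ span (ZMod 2) {x}) = 6 := by
      rw [finrank_sup_span hxW, h5]
    refine h1.symm.le.trans (Submodule.finrank_mono ?_)
    rw [← sup_assoc]
    exact le_sup_left
  have hempty : (pts : Set (Fin 6 → ZMod 2)) ∩ (W 5 : Set (Fin 6 → ZMod 2)) ∩
      ((span (ZMod 2) {x} ⊔ span (ZMod 2) {y} : Submodule (ZMod 2) (Fin 6 → ZMod 2)) :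
        Set (Fin 6 → ZMod 2)) = ∅ := by
    rw [Set.eq_empty_iff_forall_notMem]
    rintro z ⟨⟨hz1, hz2⟩, hz3⟩
    have hfz : f z = 0 := by
      have := hf hz2
      rwa [LinearMap.mem_ker] at this
    have hz0 : z ≠ 0 := by rintro rfl; exact h0 hz1
    rw [SetLike.mem_coe, mem_sup_span] at hz3
    have h01 : ∀ c : ZMod 2, c = 0 ∨ c = 1 := by decide
    rcases hz3 with h | h
    · rw [Submodule.mem_span_singleton] at h
      obtain ⟨c, rfl⟩ := h
      rcases h01 c with rfl | rfl
      · apply hz0; rw [zero_smul]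
      · rw [one_smul, hfx] at hfz
        exact one_ne_zero hfz
    · rw [Submodule.mem_span_singleton] at h
      obtain ⟨c, hc⟩ := h
      have h2 : ∀ x y z : ZMod 2, x = y + z → y = x + z := by decide
      have hz : z = c • x + y := by
        funext i
        exact h2 _ _ _ (congrFun hc i)
      rcases h01 c with rfl | rfl
      · rw [zero_smul, zero_add] at hz
        rw [hz, hfy] at hfz
        exact one_ne_zero hfz
      · rw [one_smul] at hz
        rw [hz] at hz1
        exact hxyS hz1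
  rw [hempty, Submodule.span_empty, finrank_bot, h5, hrU] at hM
  omega

end Pool.Agent.S07728
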