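import Pool.Statements.S07731
import Pool.Agent.Helper390.EnergyA

set_option autoImplicit false
open Pool Pool.MP_e96874_co

namespace Pool.Agent.S07731

/-- For every finite simple graph on n vertices with independence number α, the sum of the positive eigenvalues of its adjacency matrix, counted with multiplicity, is at least n − α. -/
theorem result :
    ∀ (V : Type) [Fintype V] [DecidableEq V] (G : SimpleGraph V) [DecidableRel G.Adj]
      (s : Finset V),
      G.IsIndepSet (s : Set V) →
      (∀ t : Finset V, G.IsIndepSet (t : Set V) → t.card ≤ s.card) →
      (Fintype.card V : ℝ) - (s.card : ℝ) ≤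
        (((G.adjMatrix ℝ).charpoly.roots).filter (fun x : ℝ => 0 < x)).sum := by
  intro V _ _ G _ s _ hs
  exact Pool.Agent.Helper390.Energy.energy_bound G s hs

end Pool.Agent.S07731
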