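import Pool.Statements.S07754
import Pool.Agent.Helper199.PmmsCheck
-- import your own Pool.Agent.* helpers here

set_option autoImplicit false
open Pool Pool.MP_eb89b3_co

namespace Pool.Agent.S07754

/-- The negation of the preceding statement: For any n ≥ 1 agents with additive nonnegative values over finitely many goods, some complete allocation gives each agent i, versus each other j, at least the worse part of every two-way split of their combined bundles. -/
theorem result :
    ¬ (∀ (n m : ℕ) (v : Fin n → Fin m → ℝ), 0 < n → (∀ i g, 0 ≤ v i g) →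
      ∃ A : Fin m → Fin n, ∀ i j : Fin n, i ≠ j →
        ∀ T : Finset (Fin m),
          T ⊆ Finset.univ.filter (fun g => A g = i ∨ A g = j) →
          min (∑ g ∈ T, v i g)
              (∑ g ∈ (Finset.univ.filter (fun g => A g = i ∨ A g = j)) \ T, v i g)
            ≤ ∑ g ∈ Finset.univ.filter (fun g => A g = i), v i g) := by
  intro h
  obtain ⟨A, hA⟩ := h 3 9
    (fun i g => ((![Pool.Agent.Helper199.Pmms.w0, Pool.Agent.Helper199.Pmms.w1,
      Pool.Agent.Helper199.Pmms.w2] i g : ℕ) : ℝ)) (by norm_num) (fun i g => Nat.cast_nonneg _)
  obtain ⟨i, j, hij, T, hT, hlt⟩ := Pool.Agent.Helper199.Pmms.no_pmms A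
  exact absurd (hA i j hij T hT) (not_le.2 hlt)

end Pool.Agent.S07754
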