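import Pool.Statements.S07758

set_option autoImplicit false

namespace Pool.Agent.Helper634.RandomSubset

open MeasureTheory ProbabilityTheory

noncomputable abbrev coin (G : Type) : Measure (G → Bool) :=
  Measure.infinitePi (fun _ : G => (PMF.uniformOfFintype Bool).toMeasure)

lemma coin_singleton (b : Bool) : (PMF.uniformOfFintype Bool).toMeasure {b} = 1 / 2 := by
  rw [PMF.toMeasure_uniformOfFintype_apply _ (by measurability)]
  simp

/-- pattern event -/
def pat {G ι : Type} (c : ι → G) (p : ι → Bool) : Set (G → Bool) := {f | ∀ i, f (c i) = p i}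

lemma measurableSet_pat {G ι : Type} [Finite ι] (c : ι → G) (p : ι → Bool) :
    MeasurableSet (pat c p) := by
  have : pat c p = ⋂ i, (fun f : G → Bool => f (c i)) ⁻¹' {p i} := by
    ext f; simp [pat]
  rw [this]
  refine MeasurableSet.iInter fun i => ?_
  exact measurable_pi_apply (c i) (MeasurableSet.singleton _)

lemma measure_pat {G ι : Type} [Fintype ι] (c : ι → G) (hc : Function.Injective c) (p : ι → Bool) :
    coin G (pat c p) = (1 / 2) ^ (Fintype.card ι) := by
  classical
  let t : G → Set Bool := fun g => {b | ∀ i, c i = g → b = p i}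
  have ht : ∀ i, t (c i) = {p i} := by
    intro i
    ext b
    simp only [t, Set.mem_ofPred_eq, Set.mem_singleton_iff]
    constructor
    · intro h; exact h i rfl
    · intro h j hj; rw [hc hj]; exact h
  have h1 : pat c p = Set.pi ((Finset.univ.image c : Finset G) : Set G) t := by
    ext f
    simp only [pat, Set.mem_ofPred_eq, Set.mem_pi, Finset.coe_image, Finset.coe_univ,
      Set.image_univ, Set.mem_range, forall_exists_index, forall_apply_eq_imp_iff, ht,
      Set.mem_singleton_iff]
  rw [h1, coin, Measure.infinitePi_pi _ (fun _ _ => by measurability),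
    Finset.prod_image (fun _ _ _ _ h => hc h)]
  simp [ht, coin_singleton]

lemma indep_pat {G ι : Type} [Fintype ι] (c : ℕ → ι → G)
    (hc : Function.Injective (fun x : ℕ × ι => c x.1 x.2)) (p : ι → Bool) :
    iIndepSet (fun n => pat (c n) p) (coin G) := by
  classical
  rw [iIndepSet_iff_meas_biInter (fun n => measurableSet_pat _ _)]
  intro s
  have hn : ∀ n, Function.Injective (c n) := by
    intro n i j hij
    have := @hc (n, i) (n, j) hij
    simpa using this
  have e : (⋂ n ∈ s, pat (c n) p) = pat (fun x : s × ι => c x.1 x.2) (fun x => p x.2) := by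
    ext f
    simp [pat]
  rw [e, measure_pat]
  · simp only [measure_pat _ (hn _), Finset.prod_const, Fintype.card_prod, Fintype.card_coe]
    rw [← pow_mul, mul_comm]
  · rintro ⟨⟨a, ha⟩, i⟩ ⟨⟨b, hb⟩, j⟩ h
    have := @hc (a, i) (b, j) h
    simp at this
    simp [this]

lemma ae_exists_pat {G ι : Type} [Fintype ι] (c : ℕ → ι → G)
    (hc : Function.Injective (fun x : ℕ × ι => c x.1 x.2)) (p : ι → Bool) :
    ∀ᵐ f ∂(coin G), ∃ n, f ∈ pat (c n) p := by
  have hn : ∀ n, Function.Injective (c n) := by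
    intro n i j hij
    have := @hc (n, i) (n, j) hij
    simpa using this
  have h := measure_limsup_eq_one (μ := coin G) (s := fun n => pat (c n) p)
    (fun n => measurableSet_pat _ _) (indep_pat c hc p) (by
      simp only [measure_pat _ (hn _)]
      exact ENNReal.tsum_const_eq_top_of_ne_zero (by simp))
  have h2 : ∀ᵐ f ∂(coin G), f ∈ Filter.limsup (fun n => pat (c n) p) Filter.atTop := by
    rw [← prob_compl_eq_zero_iff] at h
    · exact h
    · exact MeasurableSet.measurableSet_limsup (fun n => measurableSet_pat _ _)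
  filter_upwards [h2] with f hf
  rw [Filter.mem_limsup_iff_frequently_mem] at hf
  exact hf.exists


/-- the countable vector space over the field with two elements -/
abbrev V : Type := ℕ →₀ ZMod 2

structure Good (f : V → Bool) (W : AddSubgroup V) (φ : V → V) : Prop where
  fin : (W : Set V).Finite
  map : ∀ x ∈ W, φ x ∈ W
  inv : ∀ x ∈ W, φ (φ x) = x
  add : ∀ x ∈ W, ∀ y ∈ W, φ (x + y) = φ x + φ y
  col : ∀ x ∈ W, f (φ x) = f x

lemma zmod2_cases (a : ZMod 2) : a = 0 ∨ a = 1 := by
  revert a; decide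

lemma uniq (W : AddSubgroup V) (e w : V) (he : e ∉ W) (hw : w ∉ W) (hew : e + w ∉ W)
    (x x' : V) (hx : x ∈ W) (hx' : x' ∈ W) (a a' b b' : ZMod 2)
    (h : x + a • e + b • w = x' + a' • e + b' • w) : x = x' ∧ a = a' ∧ b = b' := by
  have h1 : (a' - a) • e + (b' - b) • w = x - x' := by
    rw [sub_smul, sub_smul]
    have : x = x' + a' • e + b' • w - b • w - a • e := by
      rw [← h]; abel
    rw [this]; abel
  have h2 : (a' - a) • e + (b' - b) • w ∈ W := by
    rw [h1]; exact W.sub_mem hx hx'
  rcases zmod2_cases (a' - a) with ha | ha <;> rcases zmod2_cases (b' - b) with hb | hb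
  · rw [ha, hb] at h1
    refine ⟨?_, ?_, ?_⟩
    · simp at h1
      exact (sub_eq_zero.mp h1.symm)
    · exact (sub_eq_zero.mp ha).symm
    · exact (sub_eq_zero.mp hb).symm
  · rw [ha, hb] at h2; simp at h2; exact absurd h2 hw
  · rw [ha, hb] at h2; simp at h2; exact absurd h2 he
  · rw [ha, hb] at h2; simp at h2; exact absurd h2 hew

/-- the subgroup generated by `W` and two further vectors -/
def ext2 (W : AddSubgroup V) (e w : V) : AddSubgroup V where
  carrier := {y | ∃ x ∈ W, ∃ a b : ZMod 2, y = x + a • e + b • w}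
  zero_mem' := ⟨0, W.zero_mem, 0, 0, by simp⟩
  add_mem' := by
    rintro _ _ ⟨x, hx, a, b, rfl⟩ ⟨x', hx', a', b', rfl⟩
    refine ⟨x + x', W.add_mem hx hx', a + a', b + b', ?_⟩
    rw [add_smul, add_smul]; abel
  neg_mem' := by
    rintro _ ⟨x, hx, a, b, rfl⟩
    refine ⟨-x, W.neg_mem hx, -a, -b, ?_⟩
    rw [neg_smul, neg_smul]; abel

lemma mem_ext2 {W : AddSubgroup V} {e w y : V} :
    y ∈ ext2 W e w ↔ ∃ x ∈ W, ∃ a b : ZMod 2, y = x + a • e + b • w := Iff.rfl

open Classical in
noncomputable def extFun (W : AddSubgroup V) (e w : V) (φ : V → V) (y : V) : V :=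
  if h : ∃ t : V × ZMod 2 × ZMod 2, t.1 ∈ W ∧ y = t.1 + t.2.1 • e + t.2.2 • w then
    φ h.choose.1 + h.choose.2.1 • w + h.choose.2.2 • e else y

lemma extFun_eq (W : AddSubgroup V) (e w : V) (he : e ∉ W) (hw : w ∉ W) (hew : e + w ∉ W)
    (φ : V → V) (x : V) (hx : x ∈ W) (a b : ZMod 2) :
    extFun W e w φ (x + a • e + b • w) = φ x + a • w + b • e := by
  have h : ∃ t : V × ZMod 2 × ZMod 2, t.1 ∈ W ∧ x + a • e + b • w = t.1 + t.2.1 • e + t.2.2 • w :=
    ⟨(x, a, b), hx, rfl⟩
  unfold extFun
  rw [dif_pos h]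
  have hs := h.choose_spec
  obtain ⟨h1, h2, h3⟩ := uniq W e w he hw hew _ _ hx hs.1 _ _ _ _ hs.2
  rw [← h1, ← h2, ← h3]

lemma extend {f : V → Bool} {W : AddSubgroup V} {φ : V → V} (hG : Good f W φ) (e w : V)
    (he : e ∉ W) (hw : w ∉ W) (hew : e + w ∉ W)
    (h1 : ∀ x ∈ W, f (φ x + w) = f (x + e)) (h2 : ∀ x ∈ W, f (x + e + w) = false) :
    Good f (ext2 W e w) (extFun W e w φ) := by
  have key := extFun_eq W e w he hw hew φ
  refine ⟨?_, ?_, ?_, ?_, ?_⟩
  · have : ((ext2 W e w : AddSubgroup V) : Set V) ⊆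
        (fun t : V × ZMod 2 × ZMod 2 => t.1 + t.2.1 • e + t.2.2 • w) ''
          ((W : Set V) ×ˢ (Set.univ : Set (ZMod 2 × ZMod 2))) := by
      rintro y ⟨x, hx, a, b, rfl⟩
      exact ⟨(x, a, b), by simpa using hx, rfl⟩
    exact ((hG.fin.prod Set.finite_univ).image _).subset this
  · rintro _ ⟨x, hx, a, b, rfl⟩
    rw [key x hx]
    exact ⟨φ x, hG.map x hx, b, a, by abel⟩
  · rintro _ ⟨x, hx, a, b, rfl⟩
    rw [key x hx]
    have : φ x + a • w + b • e = φ x + b • e + a • w := by abel
    rw [this, key (φ x) (hG.map x hx), hG.inv x hx]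
    abel
  · rintro _ ⟨x, hx, a, b, rfl⟩ _ ⟨x', hx', a', b', rfl⟩
    have : x + a • e + b • w + (x' + a' • e + b' • w) =
        (x + x') + (a + a') • e + (b + b') • w := by
      rw [add_smul, add_smul]; abel
    rw [this, key _ (W.add_mem hx hx'), key x hx, key x' hx', hG.add x hx x' hx',
      add_smul, add_smul]
    abel
  · rintro _ ⟨x, hx, a, b, rfl⟩
    rw [key x hx]
    rcases zmod2_cases a with rfl | rfl <;> rcases zmod2_cases b with rfl | rfl
    · simpa using hG.col x hx
    · have := h1 (φ x) (hG.map x hx)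
      rw [hG.inv x hx] at this
      simpa using this.symm
    · simpa using h1 x hx
    · have e1 : f (φ x + (1 : ZMod 2) • w + (1 : ZMod 2) • e) = false := by
        have := h2 (φ x) (hG.map x hx)
        rw [← this]
        congr 1
        simp
        abel
      have e2 : f (x + (1 : ZMod 2) • e + (1 : ZMod 2) • w) = false := by
        simpa using h2 x hx
      rw [e1, e2]


/-- the extension property of a colouring -/
def Ext (f : V → Bool) : Prop :=
  ∀ (W : AddSubgroup V), (W : Set V).Finite → ∀ e : V, e ∉ W → ∀ p : V → Bool,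
    ∃ w : V, w ∉ W ∧ e + w ∉ W ∧ (∀ x ∈ W, f (x + w) = p x) ∧ ∀ x ∈ W, f (x + e + w) = false

lemma ae_ext_one (W : Finset V) (e : V) (he : ∀ x ∈ W, ∀ y ∈ W, x - y ≠ e) (P : Finset V) :
    ∀ᵐ f ∂(coin V), ∃ w : V, w ∉ W ∧ e + w ∉ W ∧ (∀ x ∈ W, f (x + w) = decide (x ∈ P)) ∧
      ∀ x ∈ W, f (x + e + w) = false := by
  classical
  obtain ⟨N, hN⟩ : ∃ N : ℕ, ∀ x ∈ insert e W, ∀ n ≥ N, x n = 0 := by
    obtain ⟨N, hN⟩ := Finset.exists_nat_subset_range ((insert e W).biUnion Finsupp.support)
    refine ⟨N, fun x hx n hn => ?_⟩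
    by_contra hne
    have : n ∈ Finset.range N := hN (Finset.mem_biUnion.mpr ⟨x, hx, Finsupp.mem_support_iff.mpr hne⟩)
    simp at this
    omega
  have hNe : ∀ n ≥ N, e n = 0 := hN e (Finset.mem_insert_self _ _)
  have hNW : ∀ x ∈ W, ∀ n ≥ N, x n = 0 := fun x hx => hN x (Finset.mem_insert_of_mem hx)
  let c : ℕ → (W × Bool) → V := fun n t =>
    t.1.1 + (if t.2 then e else 0) + Finsupp.single (N + n) 1
  have hc : Function.Injective (fun x : ℕ × (W × Bool) => c x.1 x.2) := by
    rintro ⟨n, ⟨x, hx⟩, b⟩ ⟨m, ⟨y, hy⟩, d⟩ h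
    simp only [c] at h
    have hnm : n = m := by
      by_contra hne
      have h1 := DFunLike.congr_fun h (N + m)
      have a1 : x (N + m) = 0 := hNW x hx _ (by omega)
      have a2 : y (N + m) = 0 := hNW y hy _ (by omega)
      have a3 : e (N + m) = 0 := hNe _ (by omega)
      have h1' : n = m := by
        cases b <;> cases d <;> simpa [Finsupp.single_apply, a1, a2, a3] using h1
      exact hne h1'
    subst hnm
    have h2 := add_right_cancel h
    cases b <;> cases d <;> simp at h2
    · simp [h2]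
    · exfalso
      exact he x hx y hy (by rw [h2]; abel)
    · exfalso
      exact he y hy x hx (by rw [← h2]; abel)
    · simp [h2]
  have h := ae_exists_pat c hc (fun t => if t.2 then false else decide (t.1.1 ∈ P))
  filter_upwards [h] with f hf
  obtain ⟨n, hn⟩ := hf
  refine ⟨Finsupp.single (N + n) 1, ?_, ?_, ?_, ?_⟩
  · intro hmem
    have := hNW _ hmem (N + n) (by omega)
    simp at this
  · intro hmem
    have := hNW _ hmem (N + n) (by omega)
    simp [hNe (N + n) (by omega)] at this
  · intro x hx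
    have := hn (⟨x, hx⟩, false)
    simpa [c] using this
  · intro x hx
    have := hn (⟨x, hx⟩, true)
    simpa [c] using this

lemma ae_ext : ∀ᵐ f ∂(coin V), Ext f := by
  classical
  have h : ∀ᵐ f ∂(coin V), ∀ (W : Finset V) (e : V) (P : Finset V),
      (∀ x ∈ W, ∀ y ∈ W, x - y ≠ e) →
      ∃ w : V, w ∉ W ∧ e + w ∉ W ∧ (∀ x ∈ W, f (x + w) = decide (x ∈ P)) ∧
      ∀ x ∈ W, f (x + e + w) = false := by
    rw [ae_all_iff]; intro W
    rw [ae_all_iff]; intro e
    rw [ae_all_iff]; intro P
    by_cases he : (∀ x ∈ W, ∀ y ∈ W, x - y ≠ e)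
    · filter_upwards [ae_ext_one W e he P] with f hf
      intro _
      exact hf
    · filter_upwards with f
      intro h
      exact absurd h he
  filter_upwards [h] with f hf
  intro W hW e he p
  obtain ⟨w, h1, h2, h3, h4⟩ := hf hW.toFinset e (hW.toFinset.filter (fun x => p x = true)) (by
    intro x hx y hy hxy
    simp at hx hy
    exact he (hxy ▸ W.sub_mem hx hy))
  refine ⟨w, by simpa using h1, by simpa using h2, ?_, ?_⟩
  · intro x hx
    have := h3 x (by simpa using hx)
    rw [this]
    simp [hx]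
  · intro x hx
    exact h4 x (by simpa using hx)

/-- one step of the construction -/
lemma step {f : V → Bool} (hf : Ext f) {W : AddSubgroup V} {φ : V → V} (hG : Good f W φ) (e : V) :
    ∃ W' φ', Good f W' φ' ∧ W ≤ W' ∧ e ∈ W' ∧ (∀ x ∈ W, φ' x = φ x) ∧ (e ∉ W → φ' e ≠ e) := by
  by_cases he : e ∈ W
  · exact ⟨W, φ, hG, le_rfl, he, fun _ _ => rfl, fun h => absurd he h⟩
  · obtain ⟨w, hw, hew, h1, h2⟩ := hf W hG.fin e he (fun y => f (φ y + e))
    have h1' : ∀ x ∈ W, f (φ x + w) = f (x + e) := by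
      intro x hx
      rw [h1 (φ x) (hG.map x hx), hG.inv x hx]
    refine ⟨ext2 W e w, extFun W e w φ, extend hG e w he hw hew h1' h2, ?_, ?_, ?_, ?_⟩
    · intro x hx
      exact ⟨x, hx, 0, 0, by simp⟩
    · exact ⟨0, W.zero_mem, 1, 0, by simp⟩
    · intro x hx
      have := extFun_eq W e w he hw hew φ x hx 0 0
      simpa using this
    · intro _ h
      have := extFun_eq W e w he hw hew φ 0 W.zero_mem 1 0
      have h0 : φ 0 = 0 := by
        have := hG.add 0 W.zero_mem 0 W.zero_mem
        simpa using this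
      simp [h0] at this
      rw [this] at h
      apply hew
      rw [← h]
      have : w + w = 0 := by
        have : (2 : ZMod 2) • w = 0 := by
          have : (2 : ZMod 2) = 0 := by decide
          rw [this, zero_smul]
        rw [← this, two_smul]
      rw [this]
      exact W.zero_mem

lemma good_bot (f : V → Bool) : Good f ⊥ id := by
  refine ⟨?_, ?_, ?_, ?_, ?_⟩ <;> simp

/-- an extension property colouring has a nontrivial invariant automorphism -/
lemma exists_aut {f : V → Bool} (hf : Ext f) :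
    ∃ φ : V ≃+ V, (∃ e, φ e ≠ e) ∧ ∀ x, f (φ x) = f x := by
  classical
  obtain ⟨v, hv⟩ := exists_surjective_nat V
  choose! nW nφ hstep using (fun (t : AddSubgroup V × (V → V)) (e : V) (h : Good f t.1 t.2) =>
    step hf h e)
  let s : ℕ → AddSubgroup V × (V → V) := fun n =>
    Nat.rec (nW (⊥, id) (Finsupp.single 0 1), nφ (⊥, id) (Finsupp.single 0 1))
      (fun k t => (nW t (v k), nφ t (v k))) n
  have hs0 : s 0 = (nW (⊥, id) (Finsupp.single 0 1), nφ (⊥, id) (Finsupp.single 0 1)) := rfl
  have hs1 : ∀ n, s (n + 1) = (nW (s n) (v n), nφ (s n) (v n)) := fun n => rfl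
  have hgood : ∀ n, Good f (s n).1 (s n).2 := by
    intro n
    induction n with
    | zero => rw [hs0]; exact (hstep (⊥, id) _ (good_bot f)).1
    | succ n ih => rw [hs1]; exact (hstep (s n) _ ih).1
  have hmono1 : ∀ n, (s n).1 ≤ (s (n + 1)).1 := by
    intro n; rw [hs1]; exact (hstep (s n) _ (hgood n)).2.1
  have hmono : Monotone (fun n => (s n).1) := monotone_nat_of_le_succ hmono1
  have hval1 : ∀ n, ∀ x ∈ (s n).1, (s (n + 1)).2 x = (s n).2 x := by
    intro n; rw [hs1]; exact (hstep (s n) _ (hgood n)).2.2.2.1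
  have hval : ∀ n m, n ≤ m → ∀ x ∈ (s n).1, (s m).2 x = (s n).2 x := by
    intro n m hnm
    induction m, hnm using Nat.le_induction with
    | base => intro x _; rfl
    | succ m hm ih =>
      intro x hx
      rw [hval1 m x (hmono hm hx), ih x hx]
  have hmem : ∀ n, v n ∈ (s (n + 1)).1 := by
    intro n; rw [hs1]; exact (hstep (s n) _ (hgood n)).2.2.1
  have hex : ∀ x : V, ∃ n, x ∈ (s n).1 := by
    intro x
    obtain ⟨n, rfl⟩ := hv x
    exact ⟨n + 1, hmem n⟩
  choose N hN using hex
  let φ : V → V := fun x => (s (N x)).2 x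
  have hφ : ∀ n x, x ∈ (s n).1 → φ x = (s n).2 x := by
    intro n x hx
    rcases le_total n (N x) with h | h
    · exact hval _ _ h x hx
    · exact (hval _ _ h x (hN x)).symm
  have hinv : ∀ x, φ (φ x) = x := by
    intro x
    have h1 := hφ _ x (hN x)
    have h2 := (hgood (N x)).map x (hN x)
    rw [h1, hφ _ _ h2, (hgood (N x)).inv x (hN x)]
  have hadd : ∀ x y, φ (x + y) = φ x + φ y := by
    intro x y
    have hx : x ∈ (s (max (N x) (N y))).1 := hmono (le_max_left _ _) (hN x)
    have hy : y ∈ (s (max (N x) (N y))).1 := hmono (le_max_right _ _) (hN y)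
    rw [hφ _ x hx, hφ _ y hy, hφ _ _ (AddSubgroup.add_mem _ hx hy)]
    exact (hgood _).add x hx y hy
  refine ⟨{ toFun := φ, invFun := φ, left_inv := hinv, right_inv := hinv, map_add' := hadd }, ?_, ?_⟩
  · refine ⟨Finsupp.single 0 1, ?_⟩
    have h0 := hstep (⊥, id) (Finsupp.single 0 1) (good_bot f)
    have h1 : (Finsupp.single 0 1 : V) ∈ (s 0).1 := h0.2.2.1
    change φ _ ≠ _
    rw [hφ 0 _ h1]
    exact h0.2.2.2.2 (by simp)
  · intro x
    change f (φ x) = f x
    rw [hφ _ x (hN x)]
    exact (hgood _).col x (hN x)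

theorem not_null :
    (coin (Multiplicative V)) {f : Multiplicative V → Bool |
      ∃ φ : MulAut (Multiplicative V), φ ≠ 1 ∧ ∀ g, f (φ g) = f g} ≠ 0 := by
  intro h
  have h1 : ∀ᵐ f ∂(coin (Multiplicative V)), ¬ ∃ φ : MulAut (Multiplicative V), φ ≠ 1 ∧
      ∀ g, f (φ g) = f g := by
    rw [ae_iff]
    simpa using h
  have h2 : ∀ᵐ f ∂(coin (Multiplicative V)), ∃ φ : MulAut (Multiplicative V), φ ≠ 1 ∧
      ∀ g, f (φ g) = f g := by
    have h3 : ∀ᵐ f ∂(coin (Multiplicative V)), Ext f := ae_ext
    filter_upwards [h3] with f hf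
    obtain ⟨φ, ⟨e, he⟩, hφ⟩ := exists_aut hf
    refine ⟨AddEquiv.toMultiplicative φ, ?_, hφ⟩
    intro h
    apply he
    have := DFunLike.congr_fun h (Multiplicative.ofAdd e)
    exact this
  have h3 : ∀ᵐ f ∂(coin (Multiplicative V)), False := by
    filter_upwards [h1, h2] with f a b using a b
  have h4 := h3.exists
  obtain ⟨_, hh⟩ := h4
  exact hh


end Pool.Agent.Helper634.RandomSubset

open MeasureTheory
open Pool Pool.MP_ebd703_co

namespace Pool.Agent.S07758

/-- The negation of the preceding statement: For every countably infinite group G, picking each element independently with probability 1/2 gives, with probability zero, a subset fixed setwise by some non-identity automorphism of G. -/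
theorem result :
    ¬ (∀ (G : Type) [Group G] [Countable G] [Infinite G],
      Measure.infinitePi (fun _ : G => (PMF.uniformOfFintype Bool).toMeasure)
        {f : G → Bool | ∃ φ : MulAut G, φ ≠ 1 ∧ ∀ g : G, f (φ g) = f g} = 0) := by
  intro h
  haveI : Countable (Multiplicative Pool.Agent.Helper634.RandomSubset.V) :=
    (inferInstance : Countable Pool.Agent.Helper634.RandomSubset.V)
  haveI : Infinite (Multiplicative Pool.Agent.Helper634.RandomSubset.V) :=
    (inferInstance : Infinite Pool.Agent.Helper634.RandomSubset.V)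
  exact Pool.Agent.Helper634.RandomSubset.not_null
    (h (Multiplicative Pool.Agent.Helper634.RandomSubset.V))

end Pool.Agent.S07758
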