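import Pool.Statements.S07772

set_option autoImplicit false
open Pool Pool.MP_ed2cb0_co

namespace Pool.Agent.S07772

/-- adjacency table of a graph on nine vertices, row by row as bit masks -/
def row : Fin 9 → ℕ
  | 0 => 2^2 + 2^3 + 2^4 + 2^5 + 2^8
  | 1 => 2^2 + 2^3 + 2^5 + 2^6 + 2^7
  | 2 => 2^0 + 2^1 + 2^3 + 2^6
  | 3 => 2^0 + 2^1 + 2^2 + 2^8
  | 4 => 2^0 + 2^5 + 2^6 + 2^7 + 2^8
  | 5 => 2^0 + 2^1 + 2^4 + 2^7 + 2^8
  | 6 => 2^1 + 2^2 + 2^4 + 2^7 + 2^8
  | 7 => 2^1 + 2^4 + 2^5 + 2^6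
  | 8 => 2^0 + 2^3 + 2^4 + 2^5 + 2^6

def adjB (a b : Fin 9) : Bool := (row a).testBit b.val

/-- the graph -/
def G : SimpleGraph (Fin 9) where
  Adj a b := adjB a b = true
  symm := ⟨by decide⟩
  loopless := ⟨by decide⟩

instance : DecidableRel G.Adj := fun a b => inferInstanceAs (Decidable (adjB a b = true))

/-- irredundant sets, spelled as in the statement -/
def irr (S : Finset (Fin 9)) : Prop :=
  ∀ v ∈ S, ∃ w, (w = v ∨ G.Adj v w) ∧ ∀ u ∈ S, u ≠ v → ¬ (w = u ∨ G.Adj u w)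

instance : DecidablePred irr := fun S => by unfold irr; infer_instance

/-- the eight irredundant triples, in the order of the path -/
def sets : Fin 8 → Finset (Fin 9)
  | 0 => {0, 4, 5}
  | 1 => {0, 5, 8}
  | 2 => {3, 5, 8}
  | 3 => {3, 5, 6}
  | 4 => {1, 3, 6}
  | 5 => {1, 2, 6}
  | 6 => {2, 6, 7}
  | 7 => {2, 7, 8}

lemma sets_card : ∀ i, (sets i).card = 3 := by decide
lemma sets_irr : ∀ i, irr (sets i) := by decide +kernel
lemma irr_le : ∀ T : Finset (Fin 9), irr T → T.card ≤ 3 := by decide +kernel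
lemma irr_eq : ∀ T : Finset (Fin 9), irr T → 3 ≤ T.card → ∃ i, sets i = T := by decide +kernel
lemma sets_inj : ∀ i j, sets i = sets j → i = j := by decide +kernel

/-- the slide relation, spelled as in the statement -/
def slide (D E : Finset (Fin 9)) : Prop :=
  ∃ u v : Fin 9, D \ E = {u} ∧ E \ D = {v} ∧ G.Adj u v

instance : DecidableRel slide := fun D D' => by unfold slide; infer_instance

lemma key : ∀ i j : Fin 8,
    (sets i ≠ sets j ∧ (slide (sets i) (sets j) ∨ slide (sets j) (sets i))) ↔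
      (i.val + 1 = j.val ∨ j.val + 1 = i.val) := by decide +kernel

/-- the vertices of the slide graph -/
abbrev V := {D : Finset (Fin 9) //
            (∀ v ∈ D, ∃ w : Fin 9, (w = v ∨ G.Adj v w) ∧
                ∀ u ∈ D, u ≠ v → ¬ (w = u ∨ G.Adj u w)) ∧
            ∀ F : Finset (Fin 9),
              (∀ v ∈ F, ∃ w : Fin 9, (w = v ∨ G.Adj v w) ∧
                  ∀ u ∈ F, u ≠ v → ¬ (w = u ∨ G.Adj u w)) →
              F.card ≤ D.card}

/-- the map from the path to the slide graph -/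
def toV (i : Fin 8) : V :=
  ⟨sets i, sets_irr i, fun T hT => by
    rw [sets_card i]
    exact irr_le T hT⟩

lemma toV_bij : Function.Bijective toV := by
  constructor
  · intro i j h
    exact sets_inj i j (congrArg Subtype.val h)
  · rintro ⟨T, h1, h2⟩
    have h3 : 3 ≤ T.card := by
      have := h2 (sets 0) (sets_irr 0)
      rwa [sets_card 0] at this
    obtain ⟨i, hi⟩ := irr_eq T h1 h3
    exact ⟨i, Subtype.ext hi⟩

/-- In a product of two complete graphs with at least two vertices each, no vertex has exactly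
one neighbour. -/
lemma prod_nbr {m k : ℕ} (hm : 2 ≤ m) (hk : 2 ≤ k) (x : Fin m × Fin k) :
    ∃ y z : Fin m × Fin k, y ≠ z ∧
      (SimpleGraph.boxProd (⊤ : SimpleGraph (Fin m)) (⊤ : SimpleGraph (Fin k))).Adj x y ∧
      (SimpleGraph.boxProd (⊤ : SimpleGraph (Fin m)) (⊤ : SimpleGraph (Fin k))).Adj x z := by
  have : Nontrivial (Fin m) := Fin.nontrivial_iff_two_le.mpr hm
  have : Nontrivial (Fin k) := Fin.nontrivial_iff_two_le.mpr hk
  obtain ⟨a, ha⟩ := exists_ne x.1
  obtain ⟨b, hb⟩ := exists_ne x.2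
  refine ⟨(a, x.2), (x.1, b), ?_, ?_, ?_⟩
  · intro h
    exact ha (congrArg Prod.fst h)
  · rw [SimpleGraph.boxProd_adj]
    exact Or.inl ⟨fun h => ha h.symm, rfl⟩
  · rw [SimpleGraph.boxProd_adj]
    exact Or.inr ⟨fun h => hb h.symm, rfl⟩

/-- The negation of the preceding statement: Every finite connected claw-free graph isomorphic to the slide IR-graph of some finite graph G is isomorphic to a complete graph or to K_m □ K_k with m, k ≥ 2. -/
theorem result :
    ¬ (∀ (n : ℕ) (H : SimpleGraph (Fin n)), H.Connected →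
    (∀ a b c d : Fin n, H.Adj a b → H.Adj a c → H.Adj a d → b ≠ c → b ≠ d → c ≠ d →
        H.Adj b c ∨ H.Adj b d ∨ H.Adj c d) →
    (∃ (p : ℕ) (G : SimpleGraph (Fin p)),
      Nonempty (H ≃g SimpleGraph.fromRel
        (fun (D E : {D : Finset (Fin p) //
            (∀ v ∈ D, ∃ w : Fin p, (w = v ∨ G.Adj v w) ∧
                ∀ u ∈ D, u ≠ v → ¬ (w = u ∨ G.Adj u w)) ∧
            ∀ F : Finset (Fin p),
              (∀ v ∈ F, ∃ w : Fin p, (w = v ∨ G.Adj v w) ∧
                  ∀ u ∈ F, u ≠ v → ¬ (w = u ∨ G.Adj u w)) →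
              F.card ≤ D.card}) =>
          ∃ u v : Fin p, D.1 \ E.1 = {u} ∧ E.1 \ D.1 = {v} ∧ G.Adj u v))) →
    (∃ k : ℕ, Nonempty (H ≃g (⊤ : SimpleGraph (Fin k)))) ∨
    (∃ m k : ℕ, 2 ≤ m ∧ 2 ≤ k ∧
      Nonempty (H ≃g SimpleGraph.boxProd (⊤ : SimpleGraph (Fin m)) (⊤ : SimpleGraph (Fin k))))) := by
  intro HH
  have h8 : (SimpleGraph.pathGraph 8).Connected := SimpleGraph.pathGraph_connected 7
  have hcf : ∀ a b c d : Fin 8, (SimpleGraph.pathGraph 8).Adj a b →
      (SimpleGraph.pathGraph 8).Adj a c → (SimpleGraph.pathGraph 8).Adj a d →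
      b ≠ c → b ≠ d → c ≠ d →
        (SimpleGraph.pathGraph 8).Adj b c ∨ (SimpleGraph.pathGraph 8).Adj b d ∨
          (SimpleGraph.pathGraph 8).Adj c d := by
    intro a b c d
    simp only [SimpleGraph.pathGraph_adj]
    intro h1 h2 h3 h4 h5 h6
    exfalso
    have h4' : b.val ≠ c.val := fun h => h4 (Fin.ext h)
    have h5' : b.val ≠ d.val := fun h => h5 (Fin.ext h)
    have h6' : c.val ≠ d.val := fun h => h6 (Fin.ext h)
    omega
  have hiso : Nonempty (SimpleGraph.pathGraph 8 ≃g SimpleGraph.fromRel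
        (fun (D E : V) =>
          ∃ u v : Fin 9, D.1 \ E.1 = {u} ∧ E.1 \ D.1 = {v} ∧ G.Adj u v)) := by
    refine ⟨Equiv.ofBijective toV toV_bij, ?_⟩
    intro i j
    rw [SimpleGraph.fromRel_adj, SimpleGraph.pathGraph_adj, ← key i j]
    constructor
    · rintro ⟨h1, h2⟩
      refine ⟨fun h => h1 (Subtype.ext h), h2⟩
    · rintro ⟨h1, h2⟩
      refine ⟨fun h => h1 (congrArg Subtype.val h), h2⟩
  rcases HH 8 (SimpleGraph.pathGraph 8) h8 hcf ⟨9, G, hiso⟩ with ⟨k, ⟨e⟩⟩ | ⟨m, k, hm, hk, ⟨e⟩⟩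
  · have h1 : (⊤ : SimpleGraph (Fin k)).Adj (e 0) (e 2) := by
      intro h
      exact absurd (e.injective h) (by decide)
    have h2 : (SimpleGraph.pathGraph 8).Adj 0 2 := e.map_adj_iff.mp h1
    rw [SimpleGraph.pathGraph_adj] at h2
    revert h2
    decide
  · obtain ⟨y, z, hyz, hy, hz⟩ := prod_nbr hm hk (e 0)
    have huniq : ∀ w, (SimpleGraph.boxProd (⊤ : SimpleGraph (Fin m))
        (⊤ : SimpleGraph (Fin k))).Adj (e 0) w → e.symm w = 1 := by
      intro w hw
      have h2 : (SimpleGraph.pathGraph 8).Adj 0 (e.symm w) := by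
        apply e.map_adj_iff.mp
        rwa [e.apply_symm_apply]
      rw [SimpleGraph.pathGraph_adj] at h2
      have h3 : (0 : Fin 8).val = 0 := rfl
      apply Fin.ext
      have h4 : (1 : Fin 8).val = 1 := rfl
      omega
    exact hyz (e.symm.injective ((huniq y hy).trans (huniq z hz).symm))

end Pool.Agent.S07772
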