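import Pool.Statements.S07782

set_option autoImplicit false
open Pool Pool.MP_ee26cf_co

namespace Pool.Agent.S07782

open Finset

section General

variable {V : Type} [Fintype V] [DecidableEq V]

/-- The partitions of the vertex set into `k` nonempty independent sets. -/
def IndParts (G : SimpleGraph V) (k : ℕ) : Set (Finpartition (Finset.univ : Finset V)) :=
  {P | P.parts.card = k ∧ ∀ s ∈ P.parts, G.IsIndepSet (↑s : Set V)}

/-- The partition into the colour classes of a surjective colouring. -/
def colPart {k : ℕ} (f : V → Fin k) (hf : Function.Surjective f) :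
    Finpartition (Finset.univ : Finset V) :=
  Finpartition.ofExistsUnique
    (Finset.univ.image (fun c => Finset.univ.filter (fun v => f v = c)))
    (fun p _ => Finset.subset_univ p)
    (by
      intro a _
      refine ⟨Finset.univ.filter (fun v => f v = f a), ?_, ?_⟩
      · simp
      · intro t ht
        simp only [mem_image, mem_univ, true_and] at ht
        obtain ⟨⟨c, rfl⟩, h2⟩ := ht
        simp only [mem_filter, mem_univ, true_and] at h2
        rw [h2])
    (by
      intro h
      simp only [mem_image, mem_univ, true_and] at h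
      obtain ⟨c, hc⟩ := h
      obtain ⟨v, hv⟩ := hf c
      have : v ∈ (∅ : Finset V) := by rw [← hc]; simp [hv]
      simp at this)

theorem mem_colPart {k : ℕ} (f : V → Fin k) (hf : Function.Surjective f) (t : Finset V) :
    t ∈ (colPart f hf).parts ↔ ∃ c, Finset.univ.filter (fun v => f v = c) = t := by
  unfold colPart
  simp [Finpartition.ofExistsUnique]

theorem card_colPart {k : ℕ} (f : V → Fin k) (hf : Function.Surjective f) :
    (colPart f hf).parts.card = k := by
  have : (colPart f hf).parts =
      Finset.univ.image (fun c => Finset.univ.filter (fun v => f v = c)) := by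
    ext t
    rw [mem_colPart]
    simp
  rw [this, Finset.card_image_of_injective, Finset.card_univ, Fintype.card_fin]
  intro c d h
  obtain ⟨v, hv⟩ := hf c
  have h1 : v ∈ Finset.univ.filter (fun v => f v = c) := by simp [hv]
  have h : Finset.univ.filter (fun v => f v = c) = Finset.univ.filter (fun v => f v = d) := h
  rw [h] at h1
  simp only [mem_filter, mem_univ, true_and] at h1
  rw [← hv, h1]

theorem lower (G : SimpleGraph V) (k : ℕ) (R : Fin k → V) (F : Finset (V → Fin k))
    (hp : ∀ f ∈ F, ∀ u v, G.Adj u v → f u ≠ f v) (hR : ∀ f ∈ F, ∀ c, f (R c) = c) :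
    F.card ≤ (IndParts G k).ncard := by
  classical
  have hs : ∀ f ∈ F, Function.Surjective f := fun f hf c => ⟨R c, hR f hf c⟩
  rw [← Set.ncard_coe_finset]
  refine Set.ncard_le_ncard_of_injOn
    (fun f => if h : Function.Surjective f then colPart f h else ⊥) ?_ ?_ (Set.toFinite _)
  · intro f hf
    have hf' : f ∈ F := hf
    have h1 := hs f hf'
    show (if h : Function.Surjective f then colPart f h else ⊥) ∈ IndParts G k
    rw [dif_pos h1]
    refine ⟨card_colPart f h1, ?_⟩
    intro s hs'
    rw [mem_colPart] at hs'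
    obtain ⟨c, rfl⟩ := hs'
    intro u hu v hv _ hadj
    simp only [coe_filter, mem_univ, true_and, Set.mem_ofPred_eq] at hu hv
    exact hp f hf' u v hadj (hu.trans hv.symm)
  · intro f hf g hg hfg
    have hf' : f ∈ F := hf
    have hg' : g ∈ F := hg
    have hfg' : (if h : Function.Surjective f then colPart f h else ⊥) =
      (if h : Function.Surjective g then colPart g h else ⊥) := hfg
    rw [dif_pos (hs f hf'), dif_pos (hs g hg')] at hfg'
    funext v
    have h1 : Finset.univ.filter (fun w => f w = f v) ∈ (colPart f (hs f hf')).parts := by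
      rw [mem_colPart]; exact ⟨_, rfl⟩
    rw [hfg', mem_colPart] at h1
    obtain ⟨d, hd⟩ := h1
    have h2 : R (f v) ∈ Finset.univ.filter (fun w => f w = f v) := by
      simp [hR f hf' (f v)]
    rw [← hd] at h2
    simp only [mem_filter, mem_univ, true_and] at h2
    rw [hR g hg'] at h2
    have h3 : v ∈ Finset.univ.filter (fun w => f w = f v) := by simp
    rw [← hd] at h3
    simp only [mem_filter, mem_univ, true_and] at h3
    rw [h3, h2]

/-- The colouring attached to a partition into `k` parts. -/
noncomputable def toCol {k : ℕ} (P : Finpartition (Finset.univ : Finset V))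
    (hP : P.parts.card = k) (v : V) : Fin k :=
  (Finset.equivFinOfCardEq hP) ⟨P.part v, (P.part_mem).2 (Finset.mem_univ v)⟩

theorem toCol_eq_iff {k : ℕ} (P : Finpartition (Finset.univ : Finset V))
    (hP : P.parts.card = k) (u v : V) :
    toCol P hP u = toCol P hP v ↔ P.part u = P.part v := by
  unfold toCol
  rw [(Finset.equivFinOfCardEq hP).injective.eq_iff, Subtype.mk.injEq]

theorem upper (G : SimpleGraph V) (k : ℕ) (F : Finset (V → Fin k))
    (hF : ∀ f : V → Fin k, (∀ u v, G.Adj u v → f u ≠ f v) → f ∈ F) :
    (IndParts G k).ncard ≤ F.card := by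
  classical
  have hmem : ∀ P : IndParts G k, toCol P.1 P.2.1 ∈ F := by
    rintro ⟨P, hP⟩
    apply hF
    intro u v hadj h
    rw [toCol_eq_iff] at h
    have h1 : P.part u ∈ P.parts := (P.part_mem).2 (Finset.mem_univ u)
    have h2 := hP.2 _ h1
    have hu : u ∈ (↑(P.part u) : Set V) := by
      simp
    have hv : v ∈ (↑(P.part u) : Set V) := by
      rw [h]; simp
    exact h2 hu hv hadj.ne hadj
  have hcard : Nat.card (IndParts G k) ≤ Nat.card (F : Set (V → Fin k)) := by
    refine Nat.card_le_card_of_injective
      (fun P : IndParts G k => (⟨toCol P.1 P.2.1, hmem P⟩ : (F : Set (V → Fin k)))) ?_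
    rintro ⟨P, hP⟩ ⟨Q, hQ⟩ h
    simp only [Subtype.mk.injEq] at h
    have key : ∀ u v, P.part u = P.part v ↔ Q.part u = Q.part v := by
      intro u v
      rw [← toCol_eq_iff P hP.1, ← toCol_eq_iff Q hQ.1, h]
    have part_eq : ∀ u, P.part u = Q.part u := by
      intro u
      ext v
      have e1 := P.mem_part_iff_part_eq_part (Finset.mem_univ v) (Finset.mem_univ u)
      have e2 := Q.mem_part_iff_part_eq_part (Finset.mem_univ v) (Finset.mem_univ u)
      rw [e1, e2]
      exact key v u
    apply Subtype.ext
    apply Finpartition.ext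
    ext t
    constructor
    · intro ht
      obtain ⟨u, hu⟩ := P.nonempty_of_mem_parts ht
      have := P.part_eq_of_mem ht hu
      rw [← this, part_eq]
      exact (Q.part_mem).2 (Finset.mem_univ u)
    · intro ht
      obtain ⟨u, hu⟩ := Q.nonempty_of_mem_parts ht
      have := Q.part_eq_of_mem ht hu
      rw [← this, ← part_eq]
      exact (P.part_mem).2 (Finset.mem_univ u)
  rw [Nat.card_coe_set_eq, Nat.card_coe_set_eq, Set.ncard_coe_finset] at hcard
  exact hcard

end General

section Example

/-- Vertices: three central classes of 150 vertices and three outer classes of 100 vertices. -/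
abbrev W : Type := (Fin 3 × Fin 150) ⊕ (Fin 3 × Fin 100)

/-- Central vertices of distinct classes are adjacent; an outer vertex of class `i` is adjacent to
the central vertices of the classes different from `i`; outer vertices are never adjacent. -/
def adj : W → W → Prop
  | Sum.inl a, Sum.inl b => a.1 ≠ b.1
  | Sum.inl a, Sum.inr b => a.1 ≠ b.1
  | Sum.inr a, Sum.inl b => a.1 ≠ b.1
  | Sum.inr _, Sum.inr _ => False

/-- The blow-up of the 3-sun. -/
def G : SimpleGraph W where
  Adj := adj
  symm := ⟨by
    rintro (a | a) (b | b) h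
    · exact fun h' => h h'.symm
    · exact fun h' => h h'.symm
    · exact fun h' => h h'.symm
    · exact h⟩
  loopless := ⟨by
    rintro (a | a) h
    · exact h rfl
    · exact h⟩

/-- A family of colourings given by lists disjoint along edges. -/
theorem lower' (k : ℕ) (R : Fin k → W) (B : W → Finset (Fin k))
    (hp : ∀ u v, adj u v → Disjoint (B u) (B v)) (hR : ∀ c, B (R c) = {c}) :
    ∏ v, (B v).card ≤ (IndParts G k).ncard := by
  classical
  rw [← Fintype.card_piFinset]
  apply lower G k R
  · intro f hf u v huv h
    rw [Fintype.mem_piFinset] at hf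
    have h1 := hf u
    have h2 := hf v
    rw [← h] at h2
    exact (Finset.disjoint_left.1 (hp u v huv)) h1 h2
  · intro f hf c
    rw [Fintype.mem_piFinset] at hf
    have h1 := hf (R c)
    rw [hR] at h1
    simpa using h1

/-- Lists for four colours. -/
def B4 : W → Finset (Fin 4)
  | Sum.inl a => {Fin.castSucc a.1}
  | Sum.inr a => if a = (0, 0) then {3} else {Fin.castSucc a.1, 3}

/-- Lists for five colours. -/
def B5 : W → Finset (Fin 5)
  | Sum.inl a => {Fin.castSucc (Fin.castSucc a.1)}
  | Sum.inr a => if a = (0, 0) then {3} else {4}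

/-- Lists for six colours. -/
def B6 : W → Finset (Fin 6)
  | Sum.inl a => if a.2 = 0 then {⟨2 * a.1.1, by omega⟩} else
      if a.2 = 1 then {⟨2 * a.1.1 + 1, by omega⟩} else
        {⟨2 * a.1.1, by omega⟩, ⟨2 * a.1.1 + 1, by omega⟩}
  | Sum.inr a => {⟨2 * a.1.1, by omega⟩, ⟨2 * a.1.1 + 1, by omega⟩}

theorem b4_lower : 2 ^ 299 ≤ (IndParts G 4).ncard := by
  have h := lower' 4 (fun c => if h : c.1 < 3 then Sum.inl (⟨c.1, h⟩, 0) else Sum.inr (0, 0)) B4
    (by
      have key : ∀ i j : Fin 3, i ≠ j →
        Disjoint ({Fin.castSucc i} : Finset (Fin 4)) {Fin.castSucc j} ∧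
        Disjoint ({Fin.castSucc i} : Finset (Fin 4)) {3} ∧
        Disjoint ({Fin.castSucc i} : Finset (Fin 4)) {Fin.castSucc j, 3} := by decide
      rintro (a | a) (b | b) h
      · exact (key _ _ h).1
      · show Disjoint _ (if b = (0, 0) then {3} else {Fin.castSucc b.1, 3})
        split_ifs
        · exact (key _ _ h).2.1
        · exact (key _ _ h).2.2
      · show Disjoint (if a = (0, 0) then {3} else {Fin.castSucc a.1, 3}) _
        split_ifs
        · exact (key _ _ (Ne.symm h)).2.1.symm
        · exact (key _ _ (Ne.symm h)).2.2.symm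
      · exact absurd h id)
    (by
      intro c
      fin_cases c <;> rfl)
  refine le_trans ?_ h
  rw [Fintype.prod_sum_type]
  have e1 : ∀ a : Fin 3 × Fin 150, (B4 (Sum.inl a)).card = 1 := fun a => rfl
  have e2 : ∀ a : Fin 3 × Fin 100, (B4 (Sum.inr a)).card = if a = (0, 0) then 1 else 2 := by
    rintro ⟨a, b⟩
    show (if (a, b) = (0, 0) then ({3} : Finset (Fin 4)) else {Fin.castSucc a, 3}).card = _
    split_ifs
    · rfl
    · fin_cases a <;> rfl
  simp only [e1, e2]
  rw [Finset.prod_const_one, one_mul, Finset.prod_ite, Finset.prod_const_one, one_mul,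
    Finset.prod_const, Finset.filter_ne', Finset.card_erase_of_mem (Finset.mem_univ _)]
  simp

theorem b5_pos : 0 < (IndParts G 5).ncard := by
  have h := lower' 5 (fun c => if h : c.1 < 3 then Sum.inl (⟨c.1, h⟩, 0) else
      if c.1 = 3 then Sum.inr (0, 0) else Sum.inr (0, 1)) B5
    (by
      have key : ∀ i j : Fin 3, i ≠ j →
        Disjoint ({Fin.castSucc (Fin.castSucc i)} : Finset (Fin 5)) {Fin.castSucc (Fin.castSucc j)} ∧
        Disjoint ({Fin.castSucc (Fin.castSucc i)} : Finset (Fin 5)) {3} ∧
        Disjoint ({Fin.castSucc (Fin.castSucc i)} : Finset (Fin 5)) {4} := by decide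
      rintro (a | a) (b | b) h
      · exact (key _ _ h).1
      · show Disjoint _ (if b = (0, 0) then {3} else {4})
        split_ifs
        · exact (key _ _ h).2.1
        · exact (key _ _ h).2.2
      · show Disjoint (if a = (0, 0) then {3} else {4}) _
        split_ifs
        · exact (key _ _ (Ne.symm h)).2.1.symm
        · exact (key _ _ (Ne.symm h)).2.2.symm
      · exact absurd h id)
    (by
      intro c
      fin_cases c <;> rfl)
  refine lt_of_lt_of_le ?_ h
  apply Finset.prod_pos
  rintro (a | a) _
  · exact Nat.one_pos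
  · show 0 < (if a = (0, 0) then ({3} : Finset (Fin 5)) else {4}).card
    split_ifs <;> exact Nat.one_pos

theorem b6_lower : 2 ^ 744 ≤ (IndParts G 6).ncard := by
  have h := lower' 6 (fun c => if c.1 % 2 = 0 then Sum.inl (⟨c.1 / 2, by omega⟩, 0) else
      Sum.inl (⟨c.1 / 2, by omega⟩, 1)) B6
    (by
      have key : ∀ i j : Fin 3, i ≠ j →
        Disjoint ({⟨2 * i.1, by omega⟩, ⟨2 * i.1 + 1, by omega⟩} : Finset (Fin 6))
          {⟨2 * j.1, by omega⟩, ⟨2 * j.1 + 1, by omega⟩} := by decide
      have sub : ∀ u : W, B6 u ⊆ (match u with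
        | Sum.inl a => ({⟨2 * a.1.1, by omega⟩, ⟨2 * a.1.1 + 1, by omega⟩} : Finset (Fin 6))
        | Sum.inr a => ({⟨2 * a.1.1, by omega⟩, ⟨2 * a.1.1 + 1, by omega⟩} : Finset (Fin 6))) := by
        rintro (a | a)
        · show (if a.2 = 0 then _ else _ : Finset (Fin 6)) ⊆ (_ : Finset (Fin 6))
          split_ifs
          · simp
          · simp
          · exact subset_rfl
        · exact subset_rfl
      rintro (a | a) (b | b) h
      · exact Disjoint.mono (sub _) (sub _) (key _ _ h)
      · exact Disjoint.mono (sub _) (sub _) (key _ _ h)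
      · exact Disjoint.mono (sub _) (sub _) (key _ _ h)
      · exact absurd h id)
    (by
      intro c
      fin_cases c <;> rfl)
  refine le_trans ?_ h
  rw [Fintype.prod_sum_type]
  have e1 : ∀ a : Fin 3 × Fin 150, (B6 (Sum.inl a)).card =
      if a.2 = 0 then 1 else if a.2 = 1 then 1 else 2 := by
    rintro ⟨a, b⟩
    show (if b = 0 then _ else _ : Finset (Fin 6)).card = if b = 0 then _ else _
    split_ifs
    · rfl
    · rfl
    · fin_cases a <;> rfl
  have e2 : ∀ a : Fin 3 × Fin 100, (B6 (Sum.inr a)).card = 2 := by
    rintro ⟨a, b⟩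
    fin_cases a <;> rfl
  simp only [e1, e2]
  rw [Fintype.prod_prod_type]
  simp only [Finset.prod_const, Finset.card_univ, Fintype.card_prod, Fintype.card_fin]
  have e3 : (∏ x : Fin 150, if x = 0 then 1 else if x = 1 then 1 else 2) = 2 ^ 148 := by
    decide +kernel
  have e4 : (∏ _x : Fin 3, ∏ x : Fin 150, if x = 0 then 1 else if x = 1 then 1 else 2) =
      (2 ^ 148) ^ 3 := by
    rw [Finset.prod_const, e3]
    rfl
  refine le_of_eq_of_le ?_ (Nat.mul_le_mul_right _ (le_of_eq e4.symm))
  decide +kernel

theorem count5 (T : Fin 5 → Option (Fin 3)) :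
    ∏ i : Fin 3, ((Finset.univ.filter (fun c => T c = some i)).card ^ 3 *
      (Finset.univ.filter (fun c => T c = none ∨ T c = some i)).card ^ 2) ≤ 1152 := by
  classical
  have h1 : ∀ i : Fin 3, (Finset.univ.filter (fun c => T c = none ∨ T c = some i)).card =
      (Finset.univ.filter (fun c => T c = none)).card +
      (Finset.univ.filter (fun c => T c = some i)).card := by
    intro i
    rw [Finset.filter_or, Finset.card_union_of_disjoint]
    rw [Finset.disjoint_filter]
    intro c _ h h'
    rw [h] at h'
    exact absurd h' (by simp)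
  have h2 : (Finset.univ.filter (fun c => T c = none)).card +
      ((Finset.univ.filter (fun c => T c = some 0)).card +
      (Finset.univ.filter (fun c => T c = some 1)).card +
      (Finset.univ.filter (fun c => T c = some 2)).card) = 5 := by
    have h3 := Finset.card_eq_sum_card_fiberwise (f := T) (s := Finset.univ)
      (t := (Finset.univ : Finset (Option (Fin 3)))) (fun _ _ => by simp)
    rw [Fintype.sum_option, Fin.sum_univ_three] at h3
    rw [← h3]
    rfl
  rw [Fin.prod_univ_three, h1, h1, h1]
  generalize (Finset.univ.filter (fun c => T c = none)).card = d at *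
  generalize (Finset.univ.filter (fun c => T c = some 0)).card = x at *
  generalize (Finset.univ.filter (fun c => T c = some 1)).card = y at *
  generalize (Finset.univ.filter (fun c => T c = some 2)).card = z at *
  have key : ∀ x ∈ Finset.range 6, ∀ y ∈ Finset.range 6, ∀ z ∈ Finset.range 6,
      ∀ d ∈ Finset.range 6, d + (x + y + z) = 5 →
      x ^ 3 * (d + x) ^ 2 * (y ^ 3 * (d + y) ^ 2) * (z ^ 3 * (d + z) ^ 2) ≤ 1152 := by
    decide +kernel
  exact key x (Finset.mem_range.2 (by omega)) y (Finset.mem_range.2 (by omega)) z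
    (Finset.mem_range.2 (by omega)) d (Finset.mem_range.2 (by omega)) h2

theorem b5_upper : (IndParts G 5).ncard ≤ 4 ^ 5 * 1152 ^ 50 := by
  classical
  let A : (Fin 5 → Option (Fin 3)) → W → Finset (Fin 5) := fun T v =>
    match v with
    | Sum.inl a => Finset.univ.filter (fun c => T c = some a.1)
    | Sum.inr a => Finset.univ.filter (fun c => T c = none ∨ T c = some a.1)
  refine le_trans (upper G 5 ((Finset.univ : Finset (Fin 5 → Option (Fin 3))).biUnion
    (fun T => Fintype.piFinset (A T))) ?_) ?_
  · intro f hf
    rw [Finset.mem_biUnion]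
    refine ⟨fun c => if h : ∃ a, f (Sum.inl a) = c then some (Classical.choose h).1 else none,
      Finset.mem_univ _, ?_⟩
    rw [Fintype.mem_piFinset]
    rintro (a | a)
    · simp only [A, Finset.mem_filter, Finset.mem_univ, true_and]
      have h : ∃ b, f (Sum.inl b) = f (Sum.inl a) := ⟨a, rfl⟩
      rw [dif_pos h]
      have h2 := Classical.choose_spec h
      by_contra hne
      exact hf (Sum.inl (Classical.choose h)) (Sum.inl a)
        (fun h3 => hne (congrArg some h3)) h2
    · simp only [A, Finset.mem_filter, Finset.mem_univ, true_and]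
      by_cases h : ∃ b, f (Sum.inl b) = f (Sum.inr a)
      · right
        rw [dif_pos h]
        have h2 := Classical.choose_spec h
        by_contra hne
        exact hf (Sum.inl (Classical.choose h)) (Sum.inr a)
          (fun h3 => hne (congrArg some h3)) h2
      · left
        rw [dif_neg h]
  · refine le_trans Finset.card_biUnion_le ?_
    refine le_trans (Finset.sum_le_card_nsmul _ _ (1152 ^ 50) ?_) ?_
    · intro T _
      rw [Fintype.card_piFinset, Fintype.prod_sum_type, Fintype.prod_prod_type,
        Fintype.prod_prod_type]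
      simp only [A, Finset.prod_const, Finset.card_univ, Fintype.card_fin]
      rw [← Finset.prod_mul_distrib]
      have h2 := Nat.pow_le_pow_left (count5 T) 50
      refine le_trans (le_of_eq ?_) h2
      rw [← Finset.prod_pow]
      apply Finset.prod_congr rfl
      intro i _
      rw [mul_pow, ← pow_mul, ← pow_mul]
    · simp

end Example

/-- The negation of the preceding statement: For every finite graph, let b_j count partitions of the vertex set into j nonempty independent sets (its coefficients in the complete-graph basis); then b_j·b_{j+2} < b_{j+1}^2 whenever b_{j+1} > 0. -/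
theorem result :
    ¬ (∀ (V : Type) [Fintype V] [DecidableEq V] (G : SimpleGraph V) (b : ℕ → ℕ),
      (∀ j : ℕ, b j =
        {P : Finpartition (Finset.univ : Finset V) |
          P.parts.card = j ∧ ∀ s ∈ P.parts, G.IsIndepSet (↑s : Set V)}.ncard) →
      ∀ j : ℕ, 0 < b (j + 1) → b j * b (j + 2) < b (j + 1) ^ 2) := by
  intro H
  have h := H W G (fun j => (IndParts G j).ncard) (fun j => rfl) 4 b5_pos
  have h1 : (2 : ℕ) ^ 299 * 2 ^ 744 ≤ (IndParts G 4).ncard * (IndParts G 6).ncard :=
    Nat.mul_le_mul b4_lower b6_lower
  have h2 : (IndParts G 5).ncard ^ 2 ≤ (4 ^ 5 * 1152 ^ 50) ^ 2 :=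
    Nat.pow_le_pow_left b5_upper 2
  have h3 : ((4 : ℕ) ^ 5 * 1152 ^ 50) ^ 2 ≤ 2 ^ 299 * 2 ^ 744 := by decide +kernel
  exact absurd (lt_of_lt_of_le h (h2.trans (h3.trans h1))) (lt_irrefl _)

end Pool.Agent.S07782
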