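import Pool.Statements.S07793
import Pool.Agent.Helper969.MR7

set_option autoImplicit false
open Pool Pool.MP_ef1b96_co

namespace Pool.Agent.S07793

open Pool.Agent.Helper969.MR in
theorem of_spec (r n : ℕ) (h : SpecN r n) :
    ∃ A B : Fin r → Fin n → Fin n,
      (∀ i, Function.Injective (A i)) ∧
      (∀ j, Function.Injective (fun i => A i j)) ∧
      (∀ i, Function.Injective (B i)) ∧
      (∀ j, Function.Injective (fun i => B i j)) ∧
      Function.Injective (fun p : Fin r × Fin n => (A p.1 p.2, B p.1 p.2)) ∧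
      ¬ ∃ a b : Fin n → Fin n,
          Function.Injective a ∧ Function.Injective b ∧
          (∀ i j, a j ≠ A i j ∧ b j ≠ B i j) ∧
          (∀ i j j', (a j, b j) ≠ (A i j', B i j')) := by
  obtain ⟨T, hT, hne⟩ := h
  have m0 : ∀ t ∈ T, t 0 < r := by
    intro t ht; simpa [sets] using hT.mem t ht 0
  have m1 : ∀ t ∈ T, ∀ g, g ≠ 0 → t g < n := by
    intro t ht g hg; simpa [sets, hg] using hT.mem t ht g
  have hc : ∀ (i : Fin r) (j : Fin n), ∃ t ∈ T, t 0 = i.val ∧ t 1 = j.val := by
    intro i j
    exact hT.cov i.val (by simp [sets]) j.val (by simp [sets])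
  choose τ h1 h2 h3 using hc
  refine ⟨fun i j => ⟨τ i j 2, m1 _ (h1 i j) 2 (by decide)⟩,
    fun i j => ⟨τ i j 3, m1 _ (h1 i j) 3 (by decide)⟩, ?_, ?_, ?_, ?_, ?_, ?_⟩
  · intro i j j' h
    simp only [Fin.mk.injEq] at h
    have e := hT.ind _ (h1 i j) _ (h1 i j') 0 2 (by decide) (by rw [h2, h2]) h
    have e1 := h3 i j
    rw [e, h3] at e1
    exact Fin.ext e1.symm
  · intro j i i' h
    simp only [Fin.mk.injEq] at h
    have e := hT.ind _ (h1 i j) _ (h1 i' j) 1 2 (by decide) (by rw [h3, h3]) h
    have e1 := h2 i j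
    rw [e, h2] at e1
    exact Fin.ext e1.symm
  · intro i j j' h
    simp only [Fin.mk.injEq] at h
    have e := hT.ind _ (h1 i j) _ (h1 i j') 0 3 (by decide) (by rw [h2, h2]) h
    have e1 := h3 i j
    rw [e, h3] at e1
    exact Fin.ext e1.symm
  · intro j i i' h
    simp only [Fin.mk.injEq] at h
    have e := hT.ind _ (h1 i j) _ (h1 i' j) 1 3 (by decide) (by rw [h3, h3]) h
    have e1 := h2 i j
    rw [e, h2] at e1
    exact Fin.ext e1.symm
  · rintro ⟨i, j⟩ ⟨i', j'⟩ h
    simp only [Prod.mk.injEq, Fin.mk.injEq] at h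
    have e := hT.ind _ (h1 i j) _ (h1 i' j') 2 3 (by decide) h.1 h.2
    have e1 := h2 i j
    have e2 := h3 i j
    rw [e, h2] at e1
    rw [e, h3] at e2
    exact Prod.ext (Fin.ext e1.symm) (Fin.ext e2.symm)
  · rintro ⟨a, b, ha, hb, hcol, hpair⟩
    apply hne
    have key : ∀ t ∈ T, ∀ (hi : t 0 < r) (hj : t 1 < n), t = τ ⟨t 0, hi⟩ ⟨t 1, hj⟩ := by
      intro t ht hi hj
      exact hT.ind _ ht _ (h1 _ _) 0 1 (by decide) (by rw [h2]) (by rw [h3])
    refine ⟨fun k => if hk : k < n then (a ⟨k, hk⟩).val else 0,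
      fun k => if hk : k < n then (b ⟨k, hk⟩).val else 0, ?_, ?_, ?_, ?_, ?_⟩
    · intro j hj
      have hj' : j < n := by simpa [sets] using hj
      simp [hj', sets]
    · intro j hj
      have hj' : j < n := by simpa [sets] using hj
      simp [hj', sets]
    · intro j hj j' hj' e
      have h4 : j < n := by simpa [sets] using hj
      have h5 : j' < n := by simpa [sets] using hj'
      simp only [h4, h5, dif_pos] at e
      have := ha (Fin.ext e)
      simpa using this
    · intro j hj j' hj' e
      have h4 : j < n := by simpa [sets] using hj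
      have h5 : j' < n := by simpa [sets] using hj'
      simp only [h4, h5, dif_pos] at e
      have := hb (Fin.ext e)
      simpa using this
    · intro j hj t ht
      have h4 : j < n := by simpa [sets] using hj
      have hi := m0 t ht
      have h5 := m1 t ht 1 (by decide)
      have hk := key t ht hi h5
      simp only [h4, dif_pos]
      refine ⟨?_, ?_, ?_⟩
      · rintro ⟨e1, e2⟩
        subst e1
        apply (hcol ⟨t 0, hi⟩ ⟨t 1, h5⟩).1
        apply Fin.ext
        rw [← e2]
        exact congrFun hk 2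
      · rintro ⟨e1, e2⟩
        subst e1
        apply (hcol ⟨t 0, hi⟩ ⟨t 1, h5⟩).2
        apply Fin.ext
        rw [← e2]
        exact congrFun hk 3
      · rintro ⟨e1, e2⟩
        apply hpair ⟨t 0, hi⟩ ⟨j, h4⟩ ⟨t 1, h5⟩
        apply Prod.ext
        · apply Fin.ext
          rw [← e1]
          exact congrFun hk 2
        · apply Fin.ext
          rw [← e2]
          exact congrFun hk 3

/-- There is N such that for every n ≥ N and every r with n/3 < r < n, some pair of orthogonal r×n latin rectangles on n symbols cannot be extended by one new row each to an orthogonal pair of (r+1)×n latin rectangles. -/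
theorem result : ∃ N : ℕ, ∀ n : ℕ, N ≤ n → ∀ r : ℕ, n < 3 * r → r < n →
    ∃ A B : Fin r → Fin n → Fin n,
      (∀ i, Function.Injective (A i)) ∧
      (∀ j, Function.Injective (fun i => A i j)) ∧
      (∀ i, Function.Injective (B i)) ∧
      (∀ j, Function.Injective (fun i => B i j)) ∧
      Function.Injective (fun p : Fin r × Fin n => (A p.1 p.2, B p.1 p.2)) ∧
      ¬ ∃ a b : Fin n → Fin n,
          Function.Injective a ∧ Function.Injective b ∧
          (∀ i j, a j ≠ A i j ∧ b j ≠ B i j) ∧
          (∀ i j j', (a j, b j) ≠ (A i j', B i j')) := by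
  refine ⟨1000, ?_⟩
  intro n hn r h1 h2
  exact of_spec r n (Pool.Agent.Helper969.MR.main n r hn h1 h2)

end Pool.Agent.S07793
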