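import Pool.Statements.S07816
import Pool.Agent.Helper541.OTC.Final

set_option autoImplicit false
open Pool Pool.MP_f02039_co

namespace Pool.Agent.S07816

/-- The negation of the preceding statement: For k in {1,2} and s≥2, except (k,s)=(1,2),(2,2),(1,3): the group presented by the {3,3,3,4,3} Coxeter relations plus (ρ1στσ)^s (k=1) or (ρ1στ)^(2s) (k=2) is infinite, its generators are nontrivial, and it has the intersection property. -/
theorem result :
    ¬ (∀ (k s : ℕ), (k = 1 ∨ k = 2) → 2 ≤ s → ¬ (k = 1 ∧ s = 2) → ¬ (k = 2 ∧ s = 2) →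
    ¬ (k = 1 ∧ s = 3) →
  ∀ (σ τ : FreeGroup (Fin 6)),
    σ = FreeGroup.of (2 : Fin 6) * FreeGroup.of (3 : Fin 6) * FreeGroup.of (4 : Fin 6) *
          FreeGroup.of (3 : Fin 6) * FreeGroup.of (2 : Fin 6) →
    τ = FreeGroup.of (5 : Fin 6) * FreeGroup.of (4 : Fin 6) * FreeGroup.of (3 : Fin 6) *
          FreeGroup.of (4 : Fin 6) * FreeGroup.of (5 : Fin 6) →
  ∀ (R : Set (FreeGroup (Fin 6))),
    R = {w | ∃ i j : Fin 6, w = (FreeGroup.of i * FreeGroup.of j) ^
          (if i = j then (1 : ℕ) else
            if (i.val + 1 = j.val ∨ j.val + 1 = i.val) then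
              (if min i.val j.val = 3 then (4 : ℕ) else 3)
            else 2)} ∪
        {if k = 1 then (FreeGroup.of (1 : Fin 6) * σ * τ * σ) ^ s
         else (FreeGroup.of (1 : Fin 6) * σ * τ) ^ (2 * s)} →
    Infinite (PresentedGroup R) ∧
    (∀ i : Fin 6, (PresentedGroup.of i : PresentedGroup R) ≠ 1) ∧
    ∀ I J : Set (Fin 6),
      Subgroup.closure ((PresentedGroup.of : Fin 6 → PresentedGroup R) '' I) ⊓
        Subgroup.closure ((PresentedGroup.of : Fin 6 → PresentedGroup R) '' J) =
      Subgroup.closure ((PresentedGroup.of : Fin 6 → PresentedGroup R) '' (I ∩ J))) := by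
  intro H
  have H1 := (H 2 3 (Or.inr rfl) (by norm_num) (by norm_num) (by norm_num) (by norm_num)
    _ _ rfl rfl _ rfl).1
  set σ : FreeGroup (Fin 6) := FreeGroup.of (2 : Fin 6) * FreeGroup.of (3 : Fin 6) *
    FreeGroup.of (4 : Fin 6) * FreeGroup.of (3 : Fin 6) * FreeGroup.of (2 : Fin 6) with hσ
  set τ : FreeGroup (Fin 6) := FreeGroup.of (5 : Fin 6) * FreeGroup.of (4 : Fin 6) *
    FreeGroup.of (3 : Fin 6) * FreeGroup.of (4 : Fin 6) * FreeGroup.of (5 : Fin 6) with hτ
  set R : Set (FreeGroup (Fin 6)) := {w | ∃ i j : Fin 6, w = (FreeGroup.of i * FreeGroup.of j) ^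
          (if i = j then (1 : ℕ) else
            if (i.val + 1 = j.val ∨ j.val + 1 = i.val) then
              (if min i.val j.val = 3 then (4 : ℕ) else 3)
            else 2)} ∪
        {if (2 : ℕ) = 1 then (FreeGroup.of (1 : Fin 6) * σ * τ * σ) ^ 3
         else (FreeGroup.of (1 : Fin 6) * σ * τ) ^ (2 * 3)} with hR
  let r : Fin 6 → PresentedGroup R := PresentedGroup.of
  have hrel : ∀ i j : Fin 6, (r i * r j) ^ (if i = j then (1 : ℕ) else
            if (i.val + 1 = j.val ∨ j.val + 1 = i.val) then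
              (if min i.val j.val = 3 then (4 : ℕ) else 3)
            else 2) = 1 := by
    intro i j
    have hm : (FreeGroup.of i * FreeGroup.of j) ^
          (if i = j then (1 : ℕ) else
            if (i.val + 1 = j.val ∨ j.val + 1 = i.val) then
              (if min i.val j.val = 3 then (4 : ℕ) else 3)
            else 2) ∈ R := Or.inl ⟨i, j, rfl⟩
    have := PresentedGroup.one_of_mem hm
    rw [map_pow, map_mul] at this
    exact this
  have hlast : (r 1 * (r 2 * r 3 * r 4 * r 3 * r 2) * (r 5 * r 4 * r 3 * r 4 * r 5)) ^ 6 = 1 := by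
    have hm : (FreeGroup.of (1 : Fin 6) * σ * τ) ^ (2 * 3) ∈ R := by
      refine Or.inr ?_
      rw [Set.mem_singleton_iff, if_neg (by norm_num)]
    have := PresentedGroup.one_of_mem hm
    simp only [map_pow, map_mul, hσ, hτ] at this
    exact this
  have sq : ∀ i : Fin 6, r i * r i = 1 := fun i => by simpa using hrel i i
  have cm : ∀ i j : Fin 6, i ≠ j → ¬ (i.val + 1 = j.val ∨ j.val + 1 = i.val) →
      r i * r j = r j * r i := by
    intro i j h1 h2
    have := hrel i j
    rw [if_neg h1, if_neg h2, pow_two] at this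
    have e := eq_inv_of_mul_eq_one_left this
    rw [e, mul_inv_rev, inv_eq_of_mul_eq_one_left (sq i), inv_eq_of_mul_eq_one_left (sq j)]
  have br : ∀ i j : Fin 6, i ≠ j → (i.val + 1 = j.val ∨ j.val + 1 = i.val) →
      min i.val j.val ≠ 3 → r i * r j * r i = r j * r i * r j := by
    intro i j h1 h2 h3
    have := hrel i j
    rw [if_neg h1, if_pos h2, if_neg h3] at this
    have e0 : (r i * r j * r i) * (r j * r i * r j) = 1 := by
      rw [← this]; simp only [pow_succ, pow_zero, one_mul, mul_assoc]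
    have e := eq_inv_of_mul_eq_one_left e0
    rw [e]
    simp only [mul_inv_rev, inv_eq_of_mul_eq_one_left (sq i), inv_eq_of_mul_eq_one_left (sq j),
      mul_assoc]
  have br4 : r 3 * r 4 * r 3 * r 4 = r 4 * r 3 * r 4 * r 3 := by
    have := hrel 3 4
    have e1 : (if (3 : Fin 6) = 4 then (1 : ℕ) else
            if ((3 : Fin 6).val + 1 = (4 : Fin 6).val ∨ (4 : Fin 6).val + 1 = (3 : Fin 6).val) then
              (if min (3 : Fin 6).val (4 : Fin 6).val = 3 then (4 : ℕ) else 3)
            else 2) = 4 := by decide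
    rw [e1] at this
    have e0 : (r 3 * r 4 * r 3 * r 4) * (r 3 * r 4 * r 3 * r 4) = 1 := by
      rw [← this]; simp only [pow_succ, pow_zero, one_mul, mul_assoc]
    have e := eq_inv_of_mul_eq_one_left e0
    rw [e]
    simp only [mul_inv_rev, inv_eq_of_mul_eq_one_left (sq 3), inv_eq_of_mul_eq_one_left (sq 4),
      mul_assoc]
  have hgen : Subgroup.closure ({r 0, r 1, r 2, r 3, r 4, r 5} : Set (PresentedGroup R)) = ⊤ := by
    rw [eq_top_iff, ← PresentedGroup.closure_range_of, Subgroup.closure_le]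
    rintro _ ⟨i, rfl⟩
    apply Subgroup.subset_closure
    fin_cases i <;> simp [r]
  have hfin : Finite (PresentedGroup R) :=
    Pool.Agent.Helper541.OTC.finite_main (r 0) (r 1) (r 2) (r 3) (r 4) (r 5) (sq 0) (sq 1) (sq 2)
      (sq 3) (sq 4) (sq 5) (br 0 1 (by decide) (by decide) (by decide))
      (br 1 2 (by decide) (by decide) (by decide)) (br 2 3 (by decide) (by decide) (by decide))
      (br 4 5 (by decide) (by decide) (by decide)) br4
      (cm 0 2 (by decide) (by decide)) (cm 0 3 (by decide) (by decide))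
      (cm 0 4 (by decide) (by decide)) (cm 0 5 (by decide) (by decide))
      (cm 1 3 (by decide) (by decide)) (cm 1 4 (by decide) (by decide))
      (cm 1 5 (by decide) (by decide)) (cm 2 4 (by decide) (by decide))
      (cm 2 5 (by decide) (by decide)) (cm 3 5 (by decide) (by decide)) hlast hgen
  exact not_finite_iff_infinite.2 H1 hfin

end Pool.Agent.S07816
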