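import Pool.Statements.S07818

set_option autoImplicit false
open Pool Pool.MP_f027b3_co

namespace Pool.Agent.S07818

/-- The ring Z/(2t+7). -/
abbrev Z (t : ℕ) := ZMod (2 * t + 7)

/-- Vertices: (i, none) on the long cycle, (i, some b) the two extra vertices attached to
i and i+3. -/
abbrev V (t : ℕ) := Z t × Option Bool

/-- The adjacency relation. -/
def adjB {t : ℕ} : V t → V t → Prop
  | (i, none), (j, none) => j = i + 1 ∨ i = j + 1
  | (i, none), (j, some _) => i = j ∨ i = j + 3
  | (j, some _), (i, none) => i = j ∨ i = j + 3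
  | (_, some _), (_, some _) => False

lemma val_succ {t : ℕ} (k : Z t) :
    (k + 1).val = if k.val + 1 = 2 * t + 7 then 0 else k.val + 1 := by
  have h1 : (1 : Z t).val = 1 := by
    rw [ZMod.val_one_eq_one_mod]
    exact Nat.mod_eq_of_lt (by omega)
  rw [ZMod.val_add, h1]
  have hk := ZMod.val_lt k
  split_ifs with h
  · rw [h]; exact Nat.mod_self _
  · exact Nat.mod_eq_of_lt (by omega)

lemma small_ne {t : ℕ} (m : ℕ) (h0 : 0 < m) (h6 : m ≤ 6) : ((m : ℕ) : Z t) ≠ 0 := by
  intro h
  rw [ZMod.natCast_eq_zero_iff] at h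
  have := Nat.le_of_dvd h0 h
  omega

lemma ne1 {t : ℕ} : (1 : Z t) ≠ 0 := by
  have := small_ne (t := t) 1 (by norm_num) (by norm_num)
  simpa using this
lemma ne2 {t : ℕ} : (2 : Z t) ≠ 0 := by
  have := small_ne (t := t) 2 (by norm_num) (by norm_num)
  simpa using this
lemma ne3 {t : ℕ} : (3 : Z t) ≠ 0 := by
  have := small_ne (t := t) 3 (by norm_num) (by norm_num)
  simpa using this
lemma ne4 {t : ℕ} : (4 : Z t) ≠ 0 := by
  have := small_ne (t := t) 4 (by norm_num) (by norm_num)
  simpa using this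
lemma ne5 {t : ℕ} : (5 : Z t) ≠ 0 := by
  have := small_ne (t := t) 5 (by norm_num) (by norm_num)
  simpa using this
lemma ne6 {t : ℕ} : (6 : Z t) ≠ 0 := by
  have := small_ne (t := t) 6 (by norm_num) (by norm_num)
  simpa using this

/-- The graph. -/
def G (t : ℕ) : SimpleGraph (V t) where
  Adj := adjB
  symm := by
    refine ⟨?_⟩
    rintro ⟨i, (_ | a)⟩ ⟨j, (_ | b)⟩ h
    · exact h.symm
    · exact h
    · exact h
    · exact h
  loopless := by
    refine ⟨?_⟩
    rintro ⟨i, (_ | a)⟩ h
    · rcases h with h | h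
      · exact ne1 (t := t) (by linear_combination -h)
      · exact ne1 (t := t) (by linear_combination -h)
    · exact h

/-- labels of the long cycle -/
def g {t : ℕ} (k : Z t) : ℤ :=
  if k.val % 2 = 1 ∨ k.val = 0 then (k.val : ℤ) else (2 * t + 7 : ℤ) + k.val

lemma g_nonneg {t : ℕ} (k : Z t) : 0 ≤ g k := by
  unfold g
  split_ifs <;> omega

lemma g_lt {t : ℕ} (k : Z t) : g k < 2 * (2 * t + 7) := by
  have hk := ZMod.val_lt k
  unfold g
  split_ifs <;> omega

lemma g_inj {t : ℕ} (j k : Z t) (h : g j = g k) : j = k := by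
  have hk := ZMod.val_lt k
  have hj := ZMod.val_lt j
  apply ZMod.val_injective
  unfold g at h
  split_ifs at h <;> omega

lemma g_inc {t : ℕ} (k : Z t) (h1 : g k < g (k + 1)) (h2 : g (k + 1) < g (k + 1 + 1)) :
    k = 0 := by
  rw [← ZMod.val_eq_zero]
  have hk := ZMod.val_lt k
  have e1 := val_succ k
  have e2 := val_succ (k + 1)
  unfold g at h1 h2
  split_ifs at e1 e2 <;> split_ifs at h1 h2 <;> omega

lemma g_dec {t : ℕ} (k : Z t) (h1 : g (k + 1) < g k) (h2 : g (k + 1 + 1) < g (k + 1)) :
    False := by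
  have hk := ZMod.val_lt k
  have e1 := val_succ k
  have e2 := val_succ (k + 1)
  unfold g at h1 h2
  split_ifs at e1 e2 <;> split_ifs at h1 h2 <;> omega

/-- low base -/
def lb {t : ℕ} (j : Z t) (b : Bool) : Z t := if b then j + 3 else j
/-- high base -/
def hb {t : ℕ} (j : Z t) (b : Bool) : Z t := if b then j else j + 3

def low {t : ℕ} (j : Z t) (b : Bool) : ℤ := -1 - (2 * (j.val : ℤ) + if b then 1 else 0)
def high {t : ℕ} (j : Z t) (b : Bool) : ℤ :=
  2 * (2 * t + 7) + (2 * (j.val : ℤ) + if b then 1 else 0)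

lemma low_neg {t : ℕ} (j : Z t) (b : Bool) : low j b < 0 := by
  unfold low; split_ifs <;> omega
lemma high_ge {t : ℕ} (j : Z t) (b : Bool) : 2 * (2 * t + 7) ≤ high j b := by
  unfold high; split_ifs <;> omega
lemma low_inj {t : ℕ} (j k : Z t) (b c : Bool) (h : low j b = low k c) : j = k ∧ b = c := by
  unfold low at h
  rcases b with _ | _ <;> rcases c with _ | _ <;>
    simp only [Bool.false_eq_true, if_false, if_true] at h
  · exact ⟨ZMod.val_injective _ (by omega), rfl⟩
  · exfalso; omega
  · exfalso; omega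
  · exact ⟨ZMod.val_injective _ (by omega), rfl⟩
lemma high_inj {t : ℕ} (j k : Z t) (b c : Bool) (h : high j b = high k c) : j = k ∧ b = c := by
  unfold high at h
  rcases b with _ | _ <;> rcases c with _ | _ <;>
    simp only [Bool.false_eq_true, if_false, if_true] at h
  · exact ⟨ZMod.val_injective _ (by omega), rfl⟩
  · exfalso; omega
  · exfalso; omega
  · exact ⟨ZMod.val_injective _ (by omega), rfl⟩

lemma lb_ne_hb {t : ℕ} (j : Z t) (b : Bool) : lb j b ≠ hb j b := by
  unfold lb hb
  intro h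
  cases b <;> simp at h
  · exact ne3 h
  · exact ne3 h

/-- the labeling -/
def F {t : ℕ} : V t → V t → ℤ
  | (i, none), (j, none) => if j = i + 1 then g i else if i = j + 1 then g j else 0
  | (i, none), (j, some b) => if i = lb j b then low j b else high j b
  | (j, some b), (i, none) => if i = lb j b then low j b else high j b
  | (_, some _), (_, some _) => 0

lemma F_symm {t : ℕ} (x y : V t) : F x y = F y x := by
  obtain ⟨i, (_ | a)⟩ := x <;> obtain ⟨j, (_ | b)⟩ := y
  · simp only [F]
    by_cases h1 : j = i + 1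
    · by_cases h2 : i = j + 1
      · exfalso
        exact ne2 (t := t) (by linear_combination -h1 - h2)
      · rw [if_pos h1, if_neg h2, if_pos h1]
    · by_cases h2 : i = j + 1
      · rw [if_neg h1, if_pos h2, if_pos h2]
      · rw [if_neg h1, if_neg h2, if_neg h1, if_neg h2]
  · rfl
  · rfl
  · rfl

lemma F_base {t : ℕ} (i : Z t) : F (i, none) (i + 1, none) = g i := by
  simp [F]
lemma F_low {t : ℕ} (j : Z t) (b : Bool) : F (lb j b, none) (j, some b) = low j b := by
  simp [F]
lemma F_high {t : ℕ} (j : Z t) (b : Bool) : F (hb j b, none) (j, some b) = high j b := by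
  simp only [F]
  rw [if_neg (lb_ne_hb j b).symm]

lemma lh {t : ℕ} {i j : Z t} (b : Bool) (h : i = j ∨ i = j + 3) : i = lb j b ∨ i = hb j b := by
  unfold lb hb
  cases b <;> simp <;> tauto

/-- all edges -/
lemma edge_cases {t : ℕ} {x y : V t} (h : (G t).Adj x y) :
    (∃ i : Z t, F x y = g i ∧
      ((x = (i, none) ∧ y = (i + 1, none)) ∨ (y = (i, none) ∧ x = (i + 1, none)))) ∨
    (∃ (j : Z t) (b : Bool), F x y = low j b ∧
      ((x = (lb j b, none) ∧ y = (j, some b)) ∨ (y = (lb j b, none) ∧ x = (j, some b)))) ∨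
    (∃ (j : Z t) (b : Bool), F x y = high j b ∧
      ((x = (hb j b, none) ∧ y = (j, some b)) ∨ (y = (hb j b, none) ∧ x = (j, some b)))) := by
  obtain ⟨i, (_ | a)⟩ := x <;> obtain ⟨j, (_ | b)⟩ := y
  · left
    rcases h with h | h
    · subst h
      exact ⟨i, F_base i, Or.inl ⟨rfl, rfl⟩⟩
    · subst h
      exact ⟨j, by rw [F_symm]; exact F_base j, Or.inr ⟨rfl, rfl⟩⟩
  · right
    rcases lh b h with h | h
    · subst h
      exact Or.inl ⟨j, b, F_low j b, Or.inl ⟨rfl, rfl⟩⟩
    · subst h
      exact Or.inr ⟨j, b, F_high j b, Or.inl ⟨rfl, rfl⟩⟩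
  · right
    rcases lh a h with h | h
    · subst h
      exact Or.inl ⟨i, a, by rw [F_symm]; exact F_low i a, Or.inr ⟨rfl, rfl⟩⟩
    · subst h
      exact Or.inr ⟨i, a, by rw [F_symm]; exact F_high i a, Or.inr ⟨rfl, rfl⟩⟩
  · exact h.elim

lemma F_inj {t : ℕ} {x y z w : V t} (h1 : (G t).Adj x y) (h2 : (G t).Adj z w)
    (h : F x y = F z w) : (x = z ∧ y = w) ∨ (x = w ∧ y = z) := by
  rcases edge_cases h1 with ⟨i, e1, k1⟩ | ⟨i, b, e1, k1⟩ | ⟨i, b, e1, k1⟩ <;>
  rcases edge_cases h2 with ⟨j, e2, k2⟩ | ⟨j, c, e2, k2⟩ | ⟨j, c, e2, k2⟩ <;>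
  rw [e1, e2] at h
  · have := g_inj _ _ h
    subst this
    rcases k1 with ⟨rfl, rfl⟩ | ⟨rfl, rfl⟩ <;> rcases k2 with ⟨rfl, rfl⟩ | ⟨rfl, rfl⟩ <;> simp
  · have := g_nonneg i; have := low_neg j c; omega
  · have := g_lt i; have := high_ge j c; omega
  · have := g_nonneg j; have := low_neg i b; omega
  · obtain ⟨rfl, rfl⟩ := low_inj _ _ _ _ h
    rcases k1 with ⟨rfl, rfl⟩ | ⟨rfl, rfl⟩ <;> rcases k2 with ⟨rfl, rfl⟩ | ⟨rfl, rfl⟩ <;> simp
  · have := low_neg i b; have := high_ge j c; omega
  · have := g_lt j; have := high_ge i b; omega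
  · have := low_neg j c; have := high_ge i b; omega
  · obtain ⟨rfl, rfl⟩ := high_inj _ _ _ _ h
    rcases k1 with ⟨rfl, rfl⟩ | ⟨rfl, rfl⟩ <;> rcases k2 with ⟨rfl, rfl⟩ | ⟨rfl, rfl⟩ <;> simp


/-- cyclic sequences -/
structure Cyc {W : Type*} (A : W → W → Prop) (l : ℕ) (c : ℤ → W) : Prop where
  len : 3 ≤ l
  per : ∀ k, c (k + l) = c k
  adj : ∀ k, A (c k) (c (k + 1))
  inj : ∀ j k, c j = c k → (l : ℤ) ∣ j - k

/-- local maximum at position k -/
def LM {W : Type*} {R : Type*} [LT R] (f : W → W → R) (c : ℤ → W) (k : ℤ) : Prop :=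
  f (c (k - 1)) (c k) < f (c k) (c (k + 1)) ∧
  f (c (k + 1)) (c (k + 1 + 1)) < f (c k) (c (k + 1))

section cyc
variable {W : Type*} {A : W → W → Prop} {l : ℕ} {c : ℤ → W}

lemma Cyc.per_mul (h : Cyc A l c) (m k : ℤ) : c (k + m * l) = c k := by
  have hp : Function.Periodic c (l : ℤ) := h.per
  exact hp.int_mul m k

lemma Cyc.of_dvd (h : Cyc A l c) {j k : ℤ} (hd : (l : ℤ) ∣ j - k) : c j = c k := by
  obtain ⟨m, hm⟩ := hd
  have : j = k + m * l := by rw [mul_comm] at hm; linarith
  rw [this]
  exact h.per_mul m k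

lemma Cyc.shift (h : Cyc A l c) (s : ℤ) : Cyc A l (fun k => c (k + s)) where
  len := h.len
  per := by
    intro k
    show c (k + l + s) = c (k + s)
    have := h.per (k + s)
    rw [← this]; congr 1; ring
  adj := by
    intro k
    show A (c (k + s)) (c (k + 1 + s))
    have := h.adj (k + s)
    rw [show k + 1 + s = k + s + 1 by ring]
    exact this
  inj := by
    intro j k hjk
    have := h.inj _ _ hjk
    rwa [show j + s - (k + s) = j - k by ring] at this

lemma Cyc.rev (h : Cyc A l c) (hs : ∀ x y, A x y → A y x) : Cyc A l (fun k => c (1 - k)) where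
  len := h.len
  per := by
    intro k
    show c (1 - (k + l)) = c (1 - k)
    have := h.per (1 - (k + l))
    rw [← this]; congr 1; ring
  adj := by
    intro k
    show A (c (1 - k)) (c (1 - (k + 1)))
    have := hs _ _ (h.adj (1 - (k + 1)))
    rwa [show 1 - (k + 1) + 1 = 1 - k by ring] at this
  inj := by
    intro j k hjk
    have := h.inj _ _ hjk
    rw [show 1 - j - (1 - k) = -(j - k) by ring] at this
    exact (dvd_neg.mp this)

lemma Cyc.ne1 (h : Cyc A l c) (k : ℤ) : c k ≠ c (k + 1) := by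
  intro e
  have := h.inj _ _ e.symm
  rw [show k + 1 - k = 1 by ring] at this
  have h2 := Int.le_of_dvd (by norm_num) this
  have := h.len
  omega

lemma Cyc.ne2 (h : Cyc A l c) (k : ℤ) : c k ≠ c (k + 1 + 1) := by
  intro e
  have := h.inj _ _ e.symm
  rw [show k + 1 + 1 - k = 2 by ring] at this
  have h2 := Int.le_of_dvd (by norm_num) this
  have := h.len
  omega

lemma Cyc.ndvd (_h : Cyc A l c) (k : ℤ) (h1 : 1 ≤ k) (h2 : k + 1 ≤ l) : ¬ (l : ℤ) ∣ k := by
  intro e
  have h2 := Int.le_of_dvd (by omega) e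
  omega

end cyc

section core
variable {t : ℕ} {A : V t → V t → Prop} {l : ℕ} {c : ℤ → V t}

lemma gad_nbrs {j : Z t} {b : Bool} {x : V t} (h : (G t).Adj (j, some b) x) :
    x = (lb j b, none) ∨ x = (hb j b, none) := by
  obtain ⟨i, (_ | a)⟩ := x
  · rcases lh b h with h | h
    · left; rw [h]
    · right; rw [h]
  · exact h.elim

lemma gad_two {j : Z t} {b : Bool} {x y : V t} (hx : (G t).Adj x (j, some b))
    (hy : (G t).Adj (j, some b) y) (hne : x ≠ y) :
    (x = (lb j b, none) ∧ y = (hb j b, none)) ∨ (x = (hb j b, none) ∧ y = (lb j b, none)) := by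
  rcases gad_nbrs hx.symm with h1 | h1 <;> rcases gad_nbrs hy with h2 | h2
  · exact absurd (h1.trans h2.symm) hne
  · exact Or.inl ⟨h1, h2⟩
  · exact Or.inr ⟨h1, h2⟩
  · exact absurd (h1.trans h2.symm) hne

lemma gad_uniq {j k : Z t} {b d : Bool} (h1 : lb j b = lb k d) (h2 : hb j b = hb k d) :
    j = k ∧ b = d := by
  unfold lb at h1
  unfold hb at h2
  rcases b with _ | _ <;> rcases d with _ | _ <;>
    simp only [Bool.false_eq_true, if_false, if_true] at h1 h2
  · exact ⟨h1, rfl⟩
  · exact absurd (show (6 : Z t) = 0 by linear_combination h2 - h1) ne6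
  · exact absurd (show (6 : Z t) = 0 by linear_combination h1 - h2) ne6
  · exact ⟨h2, rfl⟩

lemma triple {x0 x1 x2 x3 : Z t} (h01 : (G t).Adj (x0, none) (x1, none))
    (h12 : (G t).Adj (x1, none) (x2, none)) (h23 : (G t).Adj (x2, none) (x3, none))
    (n02 : x0 ≠ x2) (n13 : x1 ≠ x3)
    (f1 : F (x0, none) (x1, none) < F (x1, none) (x2, none))
    (f2 : F (x1, none) (x2, none) < F (x2, none) (x3, none)) :
    x0 = 0 ∧ x1 = 1 ∧ x2 = 2 ∧ x3 = 3 := by
  have h01' : x1 = x0 + 1 ∨ x0 = x1 + 1 := h01
  have h12' : x2 = x1 + 1 ∨ x1 = x2 + 1 := h12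
  have h23' : x3 = x2 + 1 ∨ x2 = x3 + 1 := h23
  rcases h01' with h | h
  · rcases h12' with h' | h'
    · rcases h23' with h'' | h''
      · subst h
        subst h'
        subst h''
        rw [F_base, F_base] at f1
        rw [F_base, F_base] at f2
        have := g_inc _ f1 f2
        subst this
        refine ⟨rfl, by ring, by ring, by ring⟩
      · exact absurd (by rw [h'] at h''; exact add_right_cancel h'') n13
    · exact absurd (by rw [h] at h'; exact add_right_cancel h') n02
  · rcases h12' with h' | h'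
    · exact absurd (by rw [h, h']) n02
    · rcases h23' with h'' | h''
      · exact absurd (by rw [h', h'']) n13
      · exfalso
        subst h
        subst h'
        subst h''
        rw [F_symm, F_base, F_symm, F_base] at f1
        rw [F_symm, F_base, F_symm, F_base] at f2
        exact g_dec _ f2 f1

lemma quad {x0 x1 x2 x3 x4 : Z t} (h01 : (G t).Adj (x0, none) (x1, none))
    (h12 : (G t).Adj (x1, none) (x2, none)) (h23 : (G t).Adj (x2, none) (x3, none))
    (h34 : (G t).Adj (x3, none) (x4, none))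
    (n02 : x0 ≠ x2) (n13 : x1 ≠ x3) (n24 : x2 ≠ x4)
    (f1 : F (x0, none) (x1, none) < F (x1, none) (x2, none))
    (f2 : F (x1, none) (x2, none) < F (x2, none) (x3, none))
    (f3 : F (x2, none) (x3, none) < F (x3, none) (x4, none)) : False := by
  have a := triple h01 h12 h23 n02 n13 f1 f2
  have b := triple h12 h23 h34 n13 n24 f2 f3
  exact ne1 (t := t) (a.2.1.symm.trans b.1)


lemma step_ne (hA : ∀ x y, A x y → (G t).Adj x y) (hc : Cyc A l c) (k : ℤ) :
    F (c k) (c (k + 1)) ≠ F (c (k + 1)) (c (k + 1 + 1)) := by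
  intro e
  rcases F_inj (hA _ _ (hc.adj k)) (hA _ _ (hc.adj (k + 1))) e with h | h
  · exact hc.ne1 k h.1
  · exact hc.ne2 k h.1

lemma up (hA : ∀ x y, A x y → (G t).Adj x y) (hc : Cyc A l c)
    (hN : ∀ k, LM F c k → (l : ℤ) ∣ k) (k : ℤ) (h1 : 0 ≤ k) (h2 : k + 1 + 1 ≤ l)
    (hlt : F (c k) (c (k + 1)) < F (c (k + 1)) (c (k + 1 + 1))) :
    F (c (k + 1)) (c (k + 1 + 1)) < F (c (k + 1 + 1)) (c (k + 1 + 1 + 1)) := by
  by_contra hcon
  have hne := step_ne hA hc (k + 1)
  have hlt2 : F (c (k + 1 + 1)) (c (k + 1 + 1 + 1)) < F (c (k + 1)) (c (k + 1 + 1)) :=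
    lt_of_le_of_ne (not_lt.mp hcon) hne.symm
  apply hc.ndvd (k + 1) (by omega) h2
  apply hN
  refine ⟨?_, hlt2⟩
  rw [show k + 1 - 1 = k by ring]
  exact hlt

lemma drop (hA : ∀ x y, A x y → (G t).Adj x y) (hc : Cyc A l c) (k : ℤ) {j : Z t} {b : Bool}
    (hk : c (k + 1) = (j, some b)) (h0 : 0 ≤ F (c k) (c (k + 1))) :
    F (c (k + 1)) (c (k + 1 + 1)) < 0 := by
  have a1 := hA _ _ (hc.adj k)
  have a2 := hA _ _ (hc.adj (k + 1))
  have n := hc.ne2 k
  rw [hk] at a1 a2 h0 ⊢
  rcases gad_two a1 a2 n with ⟨e1, _⟩ | ⟨_, e2⟩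
  · rw [e1, F_low] at h0
    exact absurd h0 (not_le.mpr (low_neg j b))
  · rw [e2, F_symm, F_low]
    exact low_neg j b

lemma rise (hA : ∀ x y, A x y → (G t).Adj x y) (hc : Cyc A l c) (k : ℤ) {j : Z t} {b : Bool}
    (hk : c (k + 1) = (j, some b)) (h0 : F (c k) (c (k + 1)) < 0) :
    c k = (lb j b, none) ∧ c (k + 1 + 1) = (hb j b, none) ∧
      2 * (2 * (t : ℤ) + 7) ≤ F (c (k + 1)) (c (k + 1 + 1)) := by
  have a1 := hA _ _ (hc.adj k)
  have a2 := hA _ _ (hc.adj (k + 1))
  have n := hc.ne2 k
  rw [hk] at a1 a2 h0 ⊢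
  rcases gad_two a1 a2 n with ⟨e1, e2⟩ | ⟨e1, _⟩
  · refine ⟨e1, e2, ?_⟩
    rw [e2, F_symm, F_high]
    exact high_ge j b
  · rw [e1, F_high] at h0
    have := high_ge j b
    omega

lemma base_nonneg {x y : Z t} (h : (G t).Adj (x, none) (y, none)) :
    0 ≤ F (x, none) (y, none) := by
  rcases h with h | h
  · subst h; rw [F_base]; exact g_nonneg _
  · subst h; rw [F_symm, F_base]; exact g_nonneg _

/-- after a rising nonnegative step no extra vertex follows -/
lemma no_gad (hA : ∀ x y, A x y → (G t).Adj x y) (hc : Cyc A l c)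
    (hN : ∀ k, LM F c k → (l : ℤ) ∣ k) (k : ℤ) (h1 : 0 ≤ k) (h2 : k + 1 + 1 ≤ l)
    {j : Z t} {b : Bool} (hk : c (k + 1 + 1) = (j, some b))
    (h0 : 0 ≤ F (c k) (c (k + 1)))
    (hlt : F (c k) (c (k + 1)) < F (c (k + 1)) (c (k + 1 + 1))) : False := by
  have u := up hA hc hN k h1 h2 hlt
  have d := drop hA hc (k + 1) hk (le_trans h0 hlt.le)
  omega

lemma lbhb_nadj {j : Z t} {b : Bool} : ¬ (G t).Adj (lb j b, none) (hb j b, none) := by
  intro h
  have h' : hb j b = lb j b + 1 ∨ lb j b = hb j b + 1 := h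
  unfold lb hb at h'
  rcases b with _ | _ <;> simp only [Bool.false_eq_true, if_false, if_true] at h'
  · rcases h' with h | h
    · exact ne2 (t := t) (by linear_combination h)
    · exact ne4 (t := t) (by linear_combination -h)
  · rcases h' with h | h
    · exact ne4 (t := t) (by linear_combination -h)
    · exact ne2 (t := t) (by linear_combination h)

lemma lbhb_ndist2 {j x : Z t} {b : Bool} (h1 : (G t).Adj (lb j b, none) (x, none))
    (h2 : (G t).Adj (x, none) (hb j b, none)) : False := by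
  have h1' : x = lb j b + 1 ∨ lb j b = x + 1 := h1
  have h2' : hb j b = x + 1 ∨ x = hb j b + 1 := h2
  unfold lb at h1'
  unfold hb at h2'
  rcases b with _ | _ <;> simp only [Bool.false_eq_true, if_false, if_true] at h1' h2'
  · rcases h1' with h | h <;> rcases h2' with h' | h'
    · exact ne1 (t := t) (by linear_combination h' + h)
    · exact ne3 (t := t) (by linear_combination h - h')
    · exact ne3 (t := t) (by linear_combination h' - h)
    · exact ne5 (t := t) (by linear_combination -h - h')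
  · rcases h1' with h | h <;> rcases h2' with h' | h'
    · exact ne5 (t := t) (by linear_combination -h - h')
    · exact ne3 (t := t) (by linear_combination h' - h)
    · exact ne3 (t := t) (by linear_combination h - h')
    · exact ne1 (t := t) (by linear_combination h' + h)


lemma core1 (hA : ∀ x y, A x y → (G t).Adj x y) (hs : ∀ x y, A x y → A y x)
    (hmiss : ¬ (A (0, none) (1, none) ∧ A (0, none) (0, some false) ∧
      A (3, none) (0, some false)))
    (hc : Cyc A l c) (hN : ∀ k, LM F c k → (l : ℤ) ∣ k) {j : Z t} {b : Bool}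
    (h0 : c 0 = (hb j b, none)) (h1 : c 1 = (j, some b)) : False := by
  have hl := hc.len
  have hper : c (l : ℤ) = c 0 := by
    have := hc.per 0
    rwa [zero_add] at this
  -- values at the first steps
  have F0 : F (c 0) (c 1) = high j b := by rw [h0, h1, F_high]
  have a0 := hA _ _ (hc.adj 0)
  have a1 := hA _ _ (hc.adj 1)
  have n0 := hc.ne2 0
  have n1 := hc.ne2 1
  have n2 := hc.ne2 2
  have n3 := hc.ne2 3
  have n4 := hc.ne2 4
  norm_num at a0 a1 n0 n1 n2 n3 n4
  have h2 : c 2 = (lb j b, none) := by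
    rw [h1] at a0 a1
    rcases gad_two a0 a1 n0 with ⟨e1, _⟩ | ⟨_, e2⟩
    · exfalso
      rw [h0] at e1
      exact lb_ne_hb j b (Prod.ext_iff.mp e1).1.symm
    · exact e2
  have F1 : F (c 1) (c 2) < 0 := by rw [h1, h2, F_symm, F_low]; exact low_neg j b
  have a2 := hA _ _ (hc.adj 2)
  have a3 := hA _ _ (hc.adj 3)
  have a4 := hA _ _ (hc.adj 4)
  have a5 := hA _ _ (hc.adj 5)
  norm_num at a2 a3 a4 a5
  have U1 := up hA hc hN 1 (by norm_num)
  have U2 := up hA hc hN 2 (by norm_num)
  have U3 := up hA hc hN 3 (by norm_num)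
  have U4 := up hA hc hN 4 (by norm_num)
  norm_num at U1 U2 U3 U4
  rcases h3 : c 3 with ⟨x3, (_ | b3)⟩
  · -- base
    have hl4 : 4 ≤ l := by
      rcases Nat.lt_or_ge 3 l with h | h
      · exact h
      · exfalso
        have : l = 3 := by omega
        subst this
        have e : c 3 = c 0 := by simpa using hper
        rw [h2, e, h0] at a2
        exact lbhb_nadj a2
    have P2 : 0 ≤ F (c 2) (c 3) := by
      rw [h2, h3] at a2 ⊢
      exact base_nonneg a2
    have L2 : F (c 2) (c 3) < F (c 3) (c 4) := U1 (by omega) (by omega)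
    rcases h4 : c 4 with ⟨x4, (_ | b4)⟩
    · have hl5 : 5 ≤ l := by
        rcases Nat.lt_or_ge 4 l with h | h
        · exact h
        · exfalso
          have : l = 4 := by omega
          subst this
          have e : c 4 = c 0 := by simpa using hper
          rw [h2, h3] at a2
          rw [h3, e, h0] at a3
          exact lbhb_ndist2 a2 a3
      have L3 : F (c 3) (c 4) < F (c 4) (c 5) := U2 (by omega) L2
      rcases h5 : c 5 with ⟨x5, (_ | b5)⟩
      · -- triple
        have T : lb j b = 0 ∧ x3 = 1 ∧ x4 = 2 ∧ x5 = 3 := by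
          rw [h2, h3] at a2
          rw [h3, h4] at a3
          rw [h4, h5] at a4
          rw [h2, h3, h4] at L2
          rw [h3, h4, h5] at L3
          refine triple a2 a3 a4 ?_ ?_ L2 L3
          · intro e
            apply n2
            rw [h2, h4, e]
          · intro e
            apply n3
            rw [h3, h5, e]
        obtain ⟨T1, T2, T3, T4⟩ := T
        rcases Nat.lt_or_ge 5 l with h | h
        · have L4 : F (c 4) (c 5) < F (c 5) (c 6) := U3 (by omega) L3
          rcases h6 : c 6 with ⟨x6, (_ | b6)⟩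
          · rw [h3, h4] at a3
            rw [h4, h5] at a4
            rw [h5, h6] at a5
            rw [h3, h4, h5] at L3
            rw [h4, h5, h6] at L4
            have := triple a3 a4 a5 (fun e => n3 (by rw [h3, h5, e]))
              (fun e => n4 (by rw [h4, h6, e])) L3 L4
            rw [T2] at this
            exact ne1 this.1
          · refine no_gad hA hc hN 4 (by norm_num) (by omega) (j := x6) (b := b6)
              (by norm_num; exact h6) ?_ (by norm_num; exact L4)
            norm_num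
            linarith
        · have : l = 5 := by omega
          subst this
          have e : c 5 = c 0 := by simpa using hper
          rw [h5, h0] at e
          have e' : x5 = hb j b := (Prod.ext_iff.mp e).1
          rw [T4] at e'
          have key : j = 0 ∧ b = false := by
            apply gad_uniq (b := b) (d := false)
            · rw [T1]; rfl
            · rw [← e']; simp [hb]
          obtain ⟨rfl, rfl⟩ := key
          apply hmiss
          have b0 := hc.adj 0
          have b1 := hc.adj 1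
          have b2 := hc.adj 2
          norm_num at b0 b1 b2
          rw [h0, h1, ← e'] at b0
          rw [h1, h2, T1] at b1
          rw [h2, h3, T1, T2] at b2
          exact ⟨b2, hs _ _ b1, b0⟩
      · refine no_gad hA hc hN 3 (by norm_num) (by omega) (j := x5) (b := b5)
          (by norm_num; exact h5) ?_ (by norm_num; exact L3)
        norm_num
        linarith
    · refine no_gad hA hc hN 2 (by norm_num) (by omega) (j := x4) (b := b4)
        (by norm_num; exact h4) ?_ (by norm_num; exact L2)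
      norm_num
      linarith
  · -- extra vertex
    have hl4 : 4 ≤ l := by
      rcases Nat.lt_or_ge 3 l with h | h
      · exact h
      · exfalso
        have : l = 3 := by omega
        subst this
        have e : c 3 = c 0 := by simpa using hper
        rw [h3, h0] at e
        exact absurd (Prod.ext_iff.mp e).2 (by simp)
    rcases lt_or_ge (F (c 2) (c 3)) 0 with hneg | hpos
    · have R := rise hA hc 2 (j := x3) (b := b3) (by norm_num; exact h3)
        (by norm_num; exact hneg)
      norm_num at R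
      obtain ⟨R1, R2, R3⟩ := R
      have L3 : F (c 2) (c 3) < F (c 3) (c 4) := by omega
      rcases Nat.lt_or_ge 4 l with h | h
      · have L4 : F (c 3) (c 4) < F (c 4) (c 5) := U2 (by omega) L3
        rcases h5 : c 5 with ⟨x5, (_ | b5)⟩
        · have M : 2 * (2 * (t : ℤ) + 7) < F (c 4) (c 5) := by omega
          rw [R2, h5] at a4 M
          rcases a4 with h' | h'
          · rw [h', F_base] at M
            have := g_lt (hb x3 b3)
            omega
          · rw [F_symm (hb x3 b3, none), h', F_base] at M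
            have := g_lt x5
            omega
        · refine no_gad hA hc hN 3 (by norm_num) (by omega) (j := x5) (b := b5)
            (by norm_num; exact h5) ?_ (by norm_num; exact L4)
          norm_num
          omega
      · have : l = 4 := by omega
        subst this
        have e : c 4 = c 0 := by simpa using hper
        rw [R2, h0] at e
        rw [h2] at R1
        have e1 := (Prod.ext_iff.mp e).1
        have e2 := (Prod.ext_iff.mp R1).1
        obtain ⟨k1, k2⟩ := gad_uniq e2 e1.symm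
        apply n1
        rw [h1, h3, k1, k2]
    · have D := drop hA hc 2 (j := x3) (b := b3) (by norm_num; exact h3)
        (by norm_num; exact hpos)
      norm_num at D
      have := U1 (by omega) (by omega)
      omega


lemma core2 (hA : ∀ x y, A x y → (G t).Adj x y)
    (hc : Cyc A l c) (hN : ∀ k, LM F c k → (l : ℤ) ∣ k)
    (hb0 : ∀ k, ∃ x : Z t, c k = (x, none)) (h01 : F (c 1) (c 2) < F (c 0) (c 1)) : False := by
  have hl := hc.len
  have hper : c (l : ℤ) = c 0 := by
    have := hc.per 0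
    rwa [zero_add] at this
  obtain ⟨x0, h0⟩ := hb0 0
  obtain ⟨x1, h1⟩ := hb0 1
  obtain ⟨x2, h2⟩ := hb0 2
  obtain ⟨x3, h3⟩ := hb0 3
  obtain ⟨x4, h4⟩ := hb0 4
  obtain ⟨x5, h5⟩ := hb0 5
  obtain ⟨x6, h6⟩ := hb0 6
  have a0 := hA _ _ (hc.adj 0)
  have a1 := hA _ _ (hc.adj 1)
  have a2 := hA _ _ (hc.adj 2)
  have a3 := hA _ _ (hc.adj 3)
  have a4 := hA _ _ (hc.adj 4)
  have a5 := hA _ _ (hc.adj 5)
  have n0 := hc.ne2 0
  have n1 := hc.ne2 1
  have n2 := hc.ne2 2
  have n3 := hc.ne2 3
  have n4 := hc.ne2 4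
  have q2 := step_ne hA hc 2
  norm_num at a0 a1 a2 a3 a4 a5 n0 n1 n2 n3 n4 q2
  have U1 := up hA hc hN 1 (by norm_num)
  have U2 := up hA hc hN 2 (by norm_num)
  have U3 := up hA hc hN 3 (by norm_num)
  norm_num at U1 U2 U3
  have q1 := step_ne hA hc 1
  norm_num at q1
  rw [h0, h1] at a0
  rw [h1, h2] at a1
  rw [h2, h3] at a2
  rw [h3, h4] at a3
  rw [h4, h5] at a4
  rw [h5, h6] at a5
  have m0 : x0 ≠ x2 := fun e => n0 (by rw [h0, h2, e])
  have m1 : x1 ≠ x3 := fun e => n1 (by rw [h1, h3, e])
  have m2 : x2 ≠ x4 := fun e => n2 (by rw [h2, h4, e])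
  have m3 : x3 ≠ x5 := fun e => n3 (by rw [h3, h5, e])
  have m4 : x4 ≠ x6 := fun e => n4 (by rw [h4, h6, e])
  have d0 : x1 = x0 + 1 ∨ x0 = x1 + 1 := a0
  have d1 : x2 = x1 + 1 ∨ x1 = x2 + 1 := a1
  have d2 : x3 = x2 + 1 ∨ x2 = x3 + 1 := a2
  have d3 : x4 = x3 + 1 ∨ x3 = x4 + 1 := a3
  have hl4 : 4 ≤ l := by
    rcases Nat.lt_or_ge 3 l with h | h
    · exact h
    · exfalso
      have : l = 3 := by omega
      subst this
      have e : c 3 = c 0 := by simpa using hper
      rw [h3, h0] at e
      have e' : x3 = x0 := (Prod.ext_iff.mp e).1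
      rcases d0 with d | d <;> rcases d1 with d' | d' <;> rcases d2 with d'' | d''
      · exact ne3 (t := t) (by linear_combination e' - d - d' - d'')
      · exact m1 (by linear_combination d'' - d')
      · exact m0 (by linear_combination d' - d)
      · exact m0 (by linear_combination d' - d)
      · exact m0 (by linear_combination d - d')
      · exact m0 (by linear_combination d - d')
      · exact m1 (by linear_combination d' - d'')
      · exact ne3 (t := t) (by linear_combination -e' - d - d' - d'')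
  have hl5 : 5 ≤ l := by
    rcases Nat.lt_or_ge 4 l with h | h
    · exact h
    · exfalso
      have : l = 4 := by omega
      subst this
      have e : c 4 = c 0 := by simpa using hper
      rw [h4, h0] at e
      have e' : x4 = x0 := (Prod.ext_iff.mp e).1
      rcases d0 with d | d <;> rcases d1 with d' | d' <;> rcases d2 with d'' | d'' <;>
        rcases d3 with d3 | d3
      · exact ne4 (t := t) (by linear_combination e' - d - d' - d'' - d3)
      · exact m2 (by linear_combination d3 - d'')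
      · exact m1 (by linear_combination d'' - d')
      · exact m1 (by linear_combination d'' - d')
      · exact m0 (by linear_combination d' - d)
      · exact m0 (by linear_combination d' - d)
      · exact m0 (by linear_combination d' - d)
      · exact m0 (by linear_combination d' - d)
      · exact m0 (by linear_combination d - d')
      · exact m0 (by linear_combination d - d')
      · exact m0 (by linear_combination d - d')
      · exact m0 (by linear_combination d - d')
      · exact m1 (by linear_combination d' - d'')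
      · exact m1 (by linear_combination d' - d'')
      · exact m2 (by linear_combination d'' - d3)
      · exact ne4 (t := t) (by linear_combination -e' - d - d' - d'' - d3)
  rcases lt_or_ge (F (c 2) (c 3)) (F (c 3) (c 4)) with h | h
  · have L3 := U2 (by omega) h
    have L4 := U3 (by omega) L3
    rw [h2, h3, h4] at h
    rw [h3, h4, h5] at L3
    rw [h4, h5, h6] at L4
    exact quad a2 a3 a4 a5 m2 m3 m4 h L3 L4
  · have h' : F (c 3) (c 4) < F (c 2) (c 3) := lt_of_le_of_ne h (fun e => q2 e.symm)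
    have k1 : F (c 2) (c 3) < F (c 1) (c 2) := by
      rcases lt_or_ge (F (c 1) (c 2)) (F (c 2) (c 3)) with g1 | g1
      · exact absurd (U1 (by omega) g1) (not_lt.mpr h)
      · exact lt_of_le_of_ne g1 (fun e => q1 e.symm)
    rw [h2, h3, h4, F_symm (x3, none), F_symm (x2, none)] at h'
    rw [h1, h2, h3, F_symm (x2, none), F_symm (x1, none)] at k1
    rw [h0, h1, h2, F_symm (x1, none), F_symm (x0, none)] at h01
    exact quad a3.symm a2.symm a1.symm a0.symm m2.symm m1.symm m0.symm h' k1 h01

/-- the main statement: all cyclic sequences avoiding one of three special edges have two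
local maxima -/
theorem two_max (hA : ∀ x y, A x y → (G t).Adj x y) (hs : ∀ x y, A x y → A y x)
    (hmiss : ¬ (A (0, none) (1, none) ∧ A (0, none) (0, some false) ∧
      A (3, none) (0, some false)))
    (hc : Cyc A l c) : ∃ j k, ¬ (l : ℤ) ∣ j - k ∧ LM F c j ∧ LM F c k := by
  by_contra hno
  push Not at hno
  -- a maximal position
  obtain ⟨k0, hk0⟩ : ∃ k0 : ℤ, ∀ k, F (c k) (c (k + 1)) ≤ F (c k0) (c (k0 + 1)) := by
    have hl := hc.len
    obtain ⟨m, _, hm⟩ := Finset.exists_max_image (Finset.range l)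
      (fun i : ℕ => F (c (i : ℤ)) (c ((i : ℤ) + 1))) ⟨0, by simp; omega⟩
    refine ⟨(m : ℤ), fun k => ?_⟩
    have hpos : (0 : ℤ) < l := by omega
    have h1 := Int.emod_nonneg k hpos.ne'
    have h2 := Int.emod_lt_of_pos k hpos
    have hd : (l : ℤ) ∣ k - k % l := Int.dvd_self_sub_emod
    have e1 : c k = c (k % l) := hc.of_dvd hd
    have e2 : c (k + 1) = c (k % l + 1) := by
      apply hc.of_dvd
      rwa [show k + 1 - (k % l + 1) = k - k % l by ring]
    have := hm (k % l).toNat (by simp; omega)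
    simp only [Int.toNat_of_nonneg h1] at this
    rw [e1, e2]
    exact this
  have hstrict : ∀ k, F (c (k + 1)) (c (k + 1 + 1)) ≠ F (c k) (c (k + 1)) :=
    fun k => (step_ne hA hc k).symm
  have hLM0 : LM F c k0 := by
    constructor
    · have h1 := hk0 (k0 - 1)
      have h2 := hstrict (k0 - 1)
      rw [show k0 - 1 + 1 = k0 by ring] at h1 h2
      exact lt_of_le_of_ne h1 h2.symm
    · exact lt_of_le_of_ne (hk0 (k0 + 1)) (hstrict k0)
  -- shifted sequence
  have hc' := hc.shift k0
  set c' : ℤ → V t := fun k => c (k + k0) with hcdef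
  have hmax : ∀ k, F (c' k) (c' (k + 1)) ≤ F (c' 0) (c' 1) := by
    intro k
    have := hk0 (k + k0)
    simp only [hcdef]
    rw [show k + 1 + k0 = k + k0 + 1 by ring, show (0 : ℤ) + k0 = k0 by ring,
      show (1 : ℤ) + k0 = k0 + 1 by ring]
    exact this
  have hN : ∀ k, LM F c' k → (l : ℤ) ∣ k := by
    intro k hk
    by_contra hnd
    apply hno (k + k0) k0
    · rwa [show k + k0 - k0 = k by ring]
    · obtain ⟨p, q⟩ := hk
      simp only [hcdef] at p q
      rw [show k - 1 + k0 = k + k0 - 1 by ring, show k + 1 + k0 = k + k0 + 1 by ring] at p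
      rw [show k + 1 + 1 + k0 = k + k0 + 1 + 1 by ring,
        show k + 1 + k0 = k + k0 + 1 by ring] at q
      exact ⟨p, q⟩
    · exact hLM0
  have h01 : F (c' 1) (c' 2) < F (c' 0) (c' 1) := by
    have := step_ne hA hc' 0
    have h2 := hmax 1
    norm_num at this h2
    exact lt_of_le_of_ne h2 (fun e => this e.symm)
  by_cases hg : ∃ k j b, c' k = (j, some b)
  · obtain ⟨k, j, b, hk⟩ := hg
    have hbig : 2 * (2 * (t : ℤ) + 7) ≤ F (c' 0) (c' 1) := by
      have a1 := hA _ _ (hc'.adj (k - 1))
      have a2 := hA _ _ (hc'.adj k)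
      have n := hc'.ne2 (k - 1)
      have m1 := hmax (k - 1)
      have m2 := hmax k
      rw [show k - 1 + 1 = k by ring] at a1 n m1
      rw [hk] at a1 a2 m1 m2
      rcases gad_two a1 a2 n with ⟨_, e2⟩ | ⟨e1, _⟩
      · rw [e2, F_symm, F_high] at m2
        exact le_trans (high_ge j b) m2
      · rw [e1, F_high] at m1
        exact le_trans (high_ge j b) m1
    have a0 := hA _ _ (hc'.adj 0)
    rw [zero_add] at a0
    rcases edge_cases a0 with ⟨i, e, _⟩ | ⟨i, d, e, _⟩ | ⟨i, d, _, h⟩
    · rw [e] at hbig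
      have := g_lt i
      omega
    · rw [e] at hbig
      have := low_neg i d
      omega
    · rcases h with ⟨h0, h1⟩ | ⟨h1, h0⟩
      · exact core1 hA hs hmiss hc' hN h0 h1
      · have hr := hc'.rev hs
        apply core1 hA hs hmiss hr (j := i) (b := d)
        · intro k hk
          have : LM F c' (-k) := by
            obtain ⟨p, q⟩ := hk
            simp only at p q
            rw [show 1 - (k - 1) = -k + 1 + 1 by ring, show 1 - k = -k + 1 by ring,
              show 1 - (k + 1) = -k by ring] at p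
            rw [show 1 - k = -k + 1 by ring, show 1 - (k + 1 + 1) = -k - 1 by ring,
              show 1 - (k + 1) = -k by ring] at q
            constructor
            · rw [F_symm (c' (-k - 1)) (c' (-k)), F_symm (c' (-k)) (c' (-k + 1))]
              exact q
            · rw [F_symm (c' (-k)) (c' (-k + 1)), F_symm (c' (-k + 1)) (c' (-k + 1 + 1))]
              exact p
          exact (dvd_neg.mp (hN _ this))
        · simpa using h1
        · simpa using h0
  · push Not at hg
    refine core2 hA hc' hN (fun k => ?_) h01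
    rcases h : c' k with ⟨x, (_ | b)⟩
    · exact ⟨x, rfl⟩
    · exact absurd h (hg k x b)


end core

section bridge
variable {W : Type*}

lemma LM.congr {R : Type*} [LT R] {A : W → W → Prop} {l : ℕ} {c : ℤ → W} {f : W → W → R}
    (hc : Cyc A l c) {j k : ℤ} (hd : (l : ℤ) ∣ j - k) (h : LM f c j) : LM f c k := by
  have e0 : c j = c k := hc.of_dvd hd
  have e1 : c (j + 1) = c (k + 1) := hc.of_dvd (by rwa [show j + 1 - (k + 1) = j - k by ring])
  have e2 : c (j + 1 + 1) = c (k + 1 + 1) :=
    hc.of_dvd (by rwa [show j + 1 + 1 - (k + 1 + 1) = j - k by ring])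
  have e3 : c (j - 1) = c (k - 1) := hc.of_dvd (by rwa [show j - 1 - (k - 1) = j - k by ring])
  unfold LM at h ⊢
  rw [← e0, ← e1, ← e2, ← e3]
  exact h

/-- cyclic sequence of a closed walk -/
def seqOf {H : SimpleGraph W} {u : W} (p : H.Walk u u) : ℤ → W :=
  fun k => p.getVert (k % (p.length : ℤ)).toNat

lemma seqOf_nat {H : SimpleGraph W} {u : W} (p : H.Walk u u) (m : ℕ) :
    seqOf p (m : ℤ) = p.getVert (m % p.length) := by
  unfold seqOf
  rw [← Int.natCast_mod, Int.toNat_natCast]

lemma seqOf_succ {H : SimpleGraph W} {u : W} (p : H.Walk u u) (hl : 3 ≤ p.length) (m : ℕ) :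
    p.getVert (m % p.length + 1) = seqOf p ((m : ℤ) + 1) := by
  have hlt : m % p.length < p.length := Nat.mod_lt _ (by omega)
  have h1 : 1 % p.length = 1 := Nat.mod_eq_of_lt (by omega)
  rw [show ((m : ℤ) + 1) = ((m + 1 : ℕ) : ℤ) by push_cast; ring, seqOf_nat, Nat.add_mod, h1]
  rcases Nat.lt_or_ge (m % p.length + 1) p.length with h | h
  · rw [Nat.mod_eq_of_lt h]
  · have e : m % p.length + 1 = p.length := by omega
    rw [e, Nat.mod_self, SimpleGraph.Walk.getVert_length, SimpleGraph.Walk.getVert_zero]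

lemma seqOf_cyc {H : SimpleGraph W} {u : W} (p : H.Walk u u) (hp : p.IsCycle) :
    Cyc H.Adj p.length (seqOf p) := by
  have hl := hp.three_le_length
  have hpos : (0 : ℤ) < p.length := by omega
  refine ⟨hl, ?_, ?_, ?_⟩
  · intro k
    unfold seqOf
    rw [Int.add_emod_right]
  · intro k
    have h1 := Int.emod_nonneg k hpos.ne'
    have h2 := Int.emod_lt_of_pos k hpos
    have e1 : seqOf p k = p.getVert (k % (p.length : ℤ)).toNat := rfl
    have e2 : seqOf p (k + 1) = p.getVert ((k % (p.length : ℤ)).toNat + 1) := by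
      have := seqOf_succ p hl (k % (p.length : ℤ)).toNat
      rw [Nat.mod_eq_of_lt (by omega)] at this
      rw [this, Int.toNat_of_nonneg h1]
      unfold seqOf
      rw [Int.emod_add_emod]
    rw [e1, e2]
    exact p.adj_getVert_succ (by omega)
  · intro j k hjk
    have h1 := Int.emod_nonneg k hpos.ne'
    have h2 := Int.emod_lt_of_pos k hpos
    have h3 := Int.emod_nonneg j hpos.ne'
    have h4 := Int.emod_lt_of_pos j hpos
    have : (j % (p.length : ℤ)).toNat = (k % (p.length : ℤ)).toNat :=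
      hp.getVert_injOn' (by simp; omega) (by simp; omega) hjk
    have e : j % (p.length : ℤ) = k % (p.length : ℤ) := by omega
    exact Int.dvd_of_emod_eq_zero (Int.emod_eq_emod_iff_emod_sub_eq_zero.mp e)

theorem good_of_cyc (H : SimpleGraph W) (f : W → W → ℝ)
    (h : ∀ (l : ℕ) (c : ℤ → W), Cyc H.Adj l c →
      ∃ j k, ¬ (l : ℤ) ∣ j - k ∧ LM f c j ∧ LM f c k) (u : W) (p : H.Walk u u)
    (hp : p.IsCycle) :
    ∃ i j : ℕ, i < p.length ∧ j < p.length ∧ i ≠ j ∧
      f (p.getVert ((i + 1) % p.length)) (p.getVert ((i + 1) % p.length + 1)) <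
        f (p.getVert i) (p.getVert (i + 1)) ∧
      f (p.getVert ((i + p.length - 1) % p.length))
          (p.getVert ((i + p.length - 1) % p.length + 1)) <
        f (p.getVert i) (p.getVert (i + 1)) ∧
      f (p.getVert ((j + 1) % p.length)) (p.getVert ((j + 1) % p.length + 1)) <
        f (p.getVert j) (p.getVert (j + 1)) ∧
      f (p.getVert ((j + p.length - 1) % p.length))
          (p.getVert ((j + p.length - 1) % p.length + 1)) <
        f (p.getVert j) (p.getVert (j + 1)) := by
  have hc := seqOf_cyc p hp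
  have hl := hp.three_le_length
  have hpos : (0 : ℤ) < p.length := by omega
  obtain ⟨j, k, hjk, hj, hk⟩ := h _ _ hc
  have key : ∀ j : ℤ, LM f (seqOf p) j → ∃ i : ℕ, (i : ℤ) = j % p.length ∧ i < p.length ∧
      f (p.getVert ((i + 1) % p.length)) (p.getVert ((i + 1) % p.length + 1)) <
        f (p.getVert i) (p.getVert (i + 1)) ∧
      f (p.getVert ((i + p.length - 1) % p.length))
          (p.getVert ((i + p.length - 1) % p.length + 1)) <
        f (p.getVert i) (p.getVert (i + 1)) := by
    intro j hj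
    have h1 := Int.emod_nonneg j hpos.ne'
    have h2 := Int.emod_lt_of_pos j hpos
    obtain ⟨i, hi⟩ := Int.eq_ofNat_of_zero_le h1
    have hil : i < p.length := by omega
    have hj' : LM f (seqOf p) (i : ℤ) := by
      apply LM.congr hc _ hj
      rw [← hi]
      exact Int.dvd_self_sub_emod
    refine ⟨i, hi.symm, hil, ?_, ?_⟩
    · have a := hj'.2
      rw [seqOf_succ p hl (i + 1)]
      have e1 : p.getVert ((i + 1) % p.length) = seqOf p ((i : ℤ) + 1) := by
        rw [← seqOf_nat]; push_cast; rfl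
      have e2 : p.getVert i = seqOf p (i : ℤ) := by
        rw [seqOf_nat, Nat.mod_eq_of_lt hil]
      have e3 : p.getVert (i + 1) = seqOf p ((i : ℤ) + 1) := by
        rw [← seqOf_succ p hl, Nat.mod_eq_of_lt hil]
      rw [e1, e2, e3]
      push_cast
      exact a
    · have a := hj'.1
      rw [seqOf_succ p hl (i + p.length - 1)]
      have e1 : p.getVert ((i + p.length - 1) % p.length) = seqOf p ((i : ℤ) - 1) := by
        rw [← seqOf_nat]
        apply hc.of_dvd
        rw [show ((i + p.length - 1 : ℕ) : ℤ) - ((i : ℤ) - 1) = p.length by omega]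
      have e2 : p.getVert i = seqOf p (i : ℤ) := by
        rw [seqOf_nat, Nat.mod_eq_of_lt hil]
      have e3 : p.getVert (i + 1) = seqOf p ((i : ℤ) + 1) := by
        rw [← seqOf_succ p hl, Nat.mod_eq_of_lt hil]
      have e4 : seqOf p (((i + p.length - 1 : ℕ) : ℤ) + 1) = seqOf p (i : ℤ) := by
        apply hc.of_dvd
        rw [show ((i + p.length - 1 : ℕ) : ℤ) + 1 - (i : ℤ) = p.length by omega]
      rw [e1, e2, e3, e4]
      exact a
  obtain ⟨i1, q1, r1, s1, t1⟩ := key j hj
  obtain ⟨i2, q2, r2, s2, t2⟩ := key k hk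
  refine ⟨i1, i2, r1, r2, ?_, s1, t1, s2, t2⟩
  rintro rfl
  apply hjk
  exact Int.dvd_of_emod_eq_zero (Int.emod_eq_emod_iff_emod_sub_eq_zero.mp (q1.symm.trans q2))


/-- every cycle has two local maxima -/
def Good (K : SimpleGraph W) (f : W → W → ℝ) : Prop :=
  ∀ (u : W) (p : K.Walk u u), p.IsCycle →
    ∃ i j : ℕ, i < p.length ∧ j < p.length ∧ i ≠ j ∧
      f (p.getVert ((i + 1) % p.length)) (p.getVert ((i + 1) % p.length + 1)) <
        f (p.getVert i) (p.getVert (i + 1)) ∧
      f (p.getVert ((i + p.length - 1) % p.length))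
          (p.getVert ((i + p.length - 1) % p.length + 1)) <
        f (p.getVert i) (p.getVert (i + 1)) ∧
      f (p.getVert ((j + 1) % p.length)) (p.getVert ((j + 1) % p.length + 1)) <
        f (p.getVert j) (p.getVert (j + 1)) ∧
      f (p.getVert ((j + p.length - 1) % p.length))
          (p.getVert ((j + p.length - 1) % p.length + 1)) <
        f (p.getVert j) (p.getVert (j + 1))

lemma cyc4 {K : SimpleGraph W} {f : W → W → ℝ} (hg : Good K f) {a b c d : W}
    (hab : K.Adj a b) (hbc : K.Adj b c) (hcd : K.Adj c d) (hda : K.Adj d a)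
    (hac : a ≠ c) (hbd : b ≠ d) :
    ¬ (f b c < f a b ∧ f c d < f d a) ∧ ¬ (f a b < f b c ∧ f d a < f c d) := by
  let p : K.Walk a a := .cons hab (.cons hbc (.cons hcd (.cons hda .nil)))
  have hp : p.IsCycle := by
    simp only [p, SimpleGraph.Walk.cons_isCycle_iff, SimpleGraph.Walk.cons_isPath_iff,
      SimpleGraph.Walk.support_cons, SimpleGraph.Walk.support_nil, SimpleGraph.Walk.edges_cons,
      SimpleGraph.Walk.edges_nil, SimpleGraph.Walk.IsPath.nil, List.mem_cons,
      List.not_mem_nil, Sym2.eq_iff]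
    have h1 := hab.ne
    have h2 := hbc.ne
    have h3 := hcd.ne
    have h4 := hda.ne
    tauto
  obtain ⟨i, j, hi, hj, hij, h1, h2, h3, h4⟩ := hg a p hp
  have v0 : p.getVert 0 = a := rfl
  have v1 : p.getVert 1 = b := rfl
  have v2 : p.getVert 2 = c := rfl
  have v3 : p.getVert 3 = d := rfl
  have v4 : p.getVert 4 = a := rfl
  have hl : p.length = 4 := rfl
  rw [hl] at hi hj h1 h2 h3 h4
  interval_cases i <;> interval_cases j <;> first
    | exact absurd rfl hij
    | (norm_num [v0, v1, v2, v3, v4] at h1 h2 h3 h4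
       constructor <;> rintro ⟨e1, e2⟩ <;> linarith)

lemma cyc5 {K : SimpleGraph W} {f : W → W → ℝ} (hg : Good K f) {a b c d e : W}
    (hab : K.Adj a b) (hbc : K.Adj b c) (hcd : K.Adj c d) (hde : K.Adj d e) (hea : K.Adj e a)
    (hac : a ≠ c) (had : a ≠ d) (hbd : b ≠ d) (hbe : b ≠ e) (hce : c ≠ e) :
    (f a b < f b c → f b c < f c d → f d e < f e a) ∧
    (f b c < f a b → f c d < f b c → f e a < f d e) := by
  let p : K.Walk a a := .cons hab (.cons hbc (.cons hcd (.cons hde (.cons hea .nil))))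
  have hp : p.IsCycle := by
    simp only [p, SimpleGraph.Walk.cons_isCycle_iff, SimpleGraph.Walk.cons_isPath_iff,
      SimpleGraph.Walk.support_cons, SimpleGraph.Walk.support_nil, SimpleGraph.Walk.edges_cons,
      SimpleGraph.Walk.edges_nil, SimpleGraph.Walk.IsPath.nil, List.mem_cons,
      List.not_mem_nil, Sym2.eq_iff]
    have h1 := hab.ne
    have h2 := hbc.ne
    have h3 := hcd.ne
    have h4 := hde.ne
    have h5 := hea.ne
    tauto
  obtain ⟨i, j, hi, hj, hij, h1, h2, h3, h4⟩ := hg a p hp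
  have v0 : p.getVert 0 = a := rfl
  have v1 : p.getVert 1 = b := rfl
  have v2 : p.getVert 2 = c := rfl
  have v3 : p.getVert 3 = d := rfl
  have v4 : p.getVert 4 = e := rfl
  have v5 : p.getVert 5 = a := rfl
  have hl : p.length = 5 := rfl
  rw [hl] at hi hj h1 h2 h3 h4
  interval_cases i <;> interval_cases j <;> first
    | exact absurd rfl hij
    | (norm_num [v0, v1, v2, v3, v4, v5] at h1 h2 h3 h4
       constructor <;> intro e1 e2 <;> linarith)

lemma nonmono {K : SimpleGraph W} {f : W → W → ℝ} (hs : ∀ a b, f a b = f b a) (hg : Good K f)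
    {x0 x1 x2 x3 p q : W}
    (h01 : K.Adj x0 x1) (h12 : K.Adj x1 x2) (h23 : K.Adj x2 x3)
    (p0 : K.Adj x0 p) (p3 : K.Adj x3 p) (q0 : K.Adj x0 q) (q3 : K.Adj x3 q)
    (n02 : x0 ≠ x2) (n03 : x0 ≠ x3) (n13 : x1 ≠ x3)
    (np1 : x1 ≠ p) (np2 : x2 ≠ p) (nq1 : x1 ≠ q) (nq2 : x2 ≠ q) (npq : p ≠ q) :
    ¬ (f x0 x1 < f x1 x2 ∧ f x1 x2 < f x2 x3) ∧ ¬ (f x1 x2 < f x0 x1 ∧ f x2 x3 < f x1 x2) := by
  have P := cyc5 hg h01 h12 h23 p3 p0.symm n02 n03 n13 np1 np2
  have Q := cyc5 hg h01 h12 h23 q3 q0.symm n02 n03 n13 nq1 nq2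
  have R := cyc4 hg p0 p3.symm q3 q0.symm n03 npq
  constructor
  · rintro ⟨e1, e2⟩
    have a := P.1 e1 e2
    have b := Q.1 e1 e2
    exact R.1 ⟨by rw [hs p x3, hs x0 p]; exact a, b⟩
  · rintro ⟨e1, e2⟩
    have a := P.2 e1 e2
    have b := Q.2 e1 e2
    exact R.2 ⟨by rw [hs x0 p, hs p x3]; exact a, b⟩


end bridge

section final
variable {t : ℕ}

lemma Z_two_ne (k : Z t) : k ≠ k + 1 + 1 := by
  intro h
  exact ne2 (t := t) (by linear_combination -h)
lemma Z_one_ne (k : Z t) : k ≠ k + 1 := by
  intro h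
  exact ne1 (t := t) (by linear_combination -h)
lemma Z_three_ne (k : Z t) : k ≠ k + 1 + 1 + 1 := by
  intro h
  exact ne3 (t := t) (by linear_combination -h)

/-- the graph has no good labeling -/
theorem no_good {W : Type*} (E : W ≃ V t) (f : W → W → ℝ) (hs : ∀ a b, f a b = f b a)
    (hinj : ∀ x y z w : W, ((G t).comap E).Adj x y → ((G t).comap E).Adj z w →
      f x y = f z w → (x = z ∧ y = w) ∨ (x = w ∧ y = z))
    (hg : Good ((G t).comap E) f) : False := by
  set v : Z t → W := fun i => E.symm (i, none) with hv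
  have adj : ∀ a b : V t, (G t).Adj a b → ((G t).comap E).Adj (E.symm a) (E.symm b) := by
    intro a b h
    simpa using h
  have hne : ∀ a b : V t, a ≠ b → E.symm a ≠ E.symm b := fun a b h e => h (E.symm.injective e)
  have hstep : ∀ i : Z t, (G t).Adj (i, none) (i + 1, none) := fun i => Or.inl rfl
  have key : ∀ i : Z t,
      ¬ (f (v i) (v (i + 1)) < f (v (i + 1)) (v (i + 1 + 1)) ∧
        f (v (i + 1)) (v (i + 1 + 1)) < f (v (i + 1 + 1)) (v (i + 1 + 1 + 1))) ∧
      ¬ (f (v (i + 1)) (v (i + 1 + 1)) < f (v i) (v (i + 1)) ∧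
        f (v (i + 1 + 1)) (v (i + 1 + 1 + 1)) < f (v (i + 1)) (v (i + 1 + 1))) := by
    intro i
    have h3 : i + 1 + 1 + 1 = i + 3 := by ring
    apply nonmono hs hg (p := E.symm (i, some false)) (q := E.symm (i, some true))
    · exact adj _ _ (hstep i)
    · exact adj _ _ (hstep (i + 1))
    · exact adj _ _ (hstep (i + 1 + 1))
    · exact adj _ _ (Or.inl rfl)
    · exact adj _ _ (Or.inr h3)
    · exact adj _ _ (Or.inl rfl)
    · exact adj _ _ (Or.inr h3)
    · exact hne _ _ (fun e => Z_two_ne i (Prod.ext_iff.mp e).1)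
    · exact hne _ _ (fun e => Z_three_ne i (Prod.ext_iff.mp e).1)
    · exact hne _ _ (fun e => Z_two_ne (i + 1) (Prod.ext_iff.mp e).1)
    · exact hne _ _ (fun e => by simpa using (Prod.ext_iff.mp e).2)
    · exact hne _ _ (fun e => by simpa using (Prod.ext_iff.mp e).2)
    · exact hne _ _ (fun e => by simpa using (Prod.ext_iff.mp e).2)
    · exact hne _ _ (fun e => by simpa using (Prod.ext_iff.mp e).2)
    · exact hne _ _ (fun e => by simpa using (Prod.ext_iff.mp e).2)
  have hdiff : ∀ i : Z t, f (v i) (v (i + 1)) ≠ f (v (i + 1)) (v (i + 1 + 1)) := by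
    intro i e
    rcases hinj _ _ _ _ (adj _ _ (hstep i)) (adj _ _ (hstep (i + 1))) e with h | h
    · exact hne _ _ (fun e => Z_one_ne i (Prod.ext_iff.mp e).1) h.1
    · exact hne _ _ (fun e => Z_two_ne i (Prod.ext_iff.mp e).1) h.1
  have halt : ∀ i : Z t, (f (v (i + 1)) (v (i + 1 + 1)) < f (v (i + 1 + 1)) (v (i + 1 + 1 + 1))) ↔
      ¬ (f (v i) (v (i + 1)) < f (v (i + 1)) (v (i + 1 + 1))) := by
    intro i
    obtain ⟨k1, k2⟩ := key i
    have d1 := hdiff i
    have d2 := hdiff (i + 1)
    constructor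
    · intro h h'
      exact k1 ⟨h', h⟩
    · intro h
      by_contra h'
      exact k2 ⟨lt_of_le_of_ne (not_lt.mp h) d1.symm, lt_of_le_of_ne (not_lt.mp h') d2.symm⟩
  set P : ℕ → Prop := fun m => f (v (m : Z t)) (v ((m : Z t) + 1)) <
    f (v ((m : Z t) + 1)) (v ((m : Z t) + 1 + 1)) with hP
  have hP1 : ∀ m, P (m + 1) ↔ ¬ P m := by
    intro m
    have := halt (m : Z t)
    simp only [hP]
    push_cast
    exact this
  have hP2 : ∀ m, P (2 * m) ↔ P 0 := by
    intro m
    induction m with
    | zero => rfl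
    | succ m ih =>
      rw [show 2 * (m + 1) = 2 * m + 1 + 1 by ring, hP1, hP1, not_not]
      exact ih
  have hP3 : P (2 * t + 7) ↔ P 0 := by
    have e : ((2 * t + 7 : ℕ) : Z t) = 0 := ZMod.natCast_self _
    simp only [hP]
    rw [e]
    simp
  have h4 := hP1 (2 * (t + 3))
  rw [show 2 * (t + 3) + 1 = 2 * t + 7 by ring, hP3, hP2] at h4
  tauto

/-- few edges -/
theorem edge_count {W : Type*} [Finite W] (E : W ≃ V t) :
    ((G t).comap E).edgeSet.ncard ≤ 5 * (2 * t + 7) := by
  let φ : Z t × Option (Bool × Bool) → Sym2 W := fun x => match x with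
    | (i, none) => s(E.symm (i, none), E.symm (i + 1, none))
    | (i, some (b, false)) => s(E.symm (i, none), E.symm (i, some b))
    | (i, some (b, true)) => s(E.symm (i + 3, none), E.symm (i, some b))
  have hsub : ((G t).comap E).edgeSet ⊆ φ '' Set.univ := by
    intro e
    induction e using Sym2.ind with
    | _ x y =>
    intro h
    rw [SimpleGraph.mem_edgeSet, SimpleGraph.comap_adj] at h
    obtain ⟨a, rfl⟩ := E.symm.surjective x
    obtain ⟨b, rfl⟩ := E.symm.surjective y
    rw [E.apply_symm_apply, E.apply_symm_apply] at h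
    obtain ⟨i, (_ | c)⟩ := a <;> obtain ⟨j, (_ | d)⟩ := b
    · rcases h with h | h
      · exact ⟨(i, none), trivial, by simp only [φ]; rw [h]⟩
      · exact ⟨(j, none), trivial, by simp only [φ]; rw [h, Sym2.eq_swap]⟩
    · rcases h with h | h
      · exact ⟨(j, some (d, false)), trivial, by simp only [φ]; rw [h]⟩
      · exact ⟨(j, some (d, true)), trivial, by simp only [φ]; rw [h]⟩
    · rcases h with h | h
      · exact ⟨(i, some (c, false)), trivial, by simp only [φ]; rw [h, Sym2.eq_swap]⟩
      · exact ⟨(i, some (c, true)), trivial, by simp only [φ]; rw [h, Sym2.eq_swap]⟩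
    · exact h.elim
  calc ((G t).comap E).edgeSet.ncard ≤ (φ '' Set.univ).ncard :=
        Set.ncard_le_ncard hsub (Set.toFinite _)
    _ ≤ (Set.univ : Set (Z t × Option (Bool × Bool))).ncard := Set.ncard_image_le (Set.toFinite _)
    _ = 5 * (2 * t + 7) := by
        rw [Set.ncard_univ, Nat.card_eq_fintype_card]
        simp [ZMod.card]
        ring

/-- rotations and swaps -/
def rot (s : Z t) (d : Bool) : V t → V t := fun v => (v.1 + s, v.2.map (xor d))

lemma rot_inj (s : Z t) (d : Bool) : Function.Injective (rot s d) := by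
  rintro ⟨i, (_ | a)⟩ ⟨j, (_ | b)⟩ h <;> simp [rot] at h ⊢
  · exact h
  · exact h

lemma rot_adj (s : Z t) (d : Bool) {x y : V t} (h : (G t).Adj x y) :
    (G t).Adj (rot s d x) (rot s d y) := by
  obtain ⟨i, (_ | a)⟩ := x <;> obtain ⟨j, (_ | b)⟩ := y
  · rcases h with h | h
    · left; rw [h]; simp; ring
    · right; rw [h]; simp; ring
  · rcases h with h | h
    · left; rw [h]
    · right; rw [h]; simp; ring
  · rcases h with h | h
    · left; rw [h]
    · right; rw [h]; simp; ring
  · exact h.elim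

lemma special {x y : V t} (h : (G t).Adj x y) : ∃ (s : Z t) (d : Bool),
    ((rot s d x = (0, none) ∧ rot s d y = (1, none)) ∨
      (rot s d y = (0, none) ∧ rot s d x = (1, none))) ∨
    ((rot s d x = (0, none) ∧ rot s d y = (0, some false)) ∨
      (rot s d y = (0, none) ∧ rot s d x = (0, some false))) ∨
    ((rot s d x = (3, none) ∧ rot s d y = (0, some false)) ∨
      (rot s d y = (3, none) ∧ rot s d x = (0, some false))) := by
  obtain ⟨i, (_ | a)⟩ := x <;> obtain ⟨j, (_ | b)⟩ := y
  · rcases h with h | h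
    · exact ⟨-i, false, Or.inl (Or.inl (by simp [rot, h]))⟩
    · exact ⟨-j, false, Or.inl (Or.inr (by simp [rot, h]))⟩
  · rcases h with h | h
    · exact ⟨-j, b, Or.inr (Or.inl (Or.inl (by simp [rot, h])))⟩
    · exact ⟨-j, b, Or.inr (Or.inr (Or.inl (by simp [rot, h])))⟩
  · rcases h with h | h
    · exact ⟨-i, a, Or.inr (Or.inl (Or.inr (by simp [rot, h])))⟩
    · exact ⟨-i, a, Or.inr (Or.inr (Or.inr (by simp [rot, h])))⟩
  · exact h.elim

/-- proper spanning subgraphs have good labelings -/
theorem sub_good {W : Type*} (E : W ≃ V t) (H : SimpleGraph W) (hH : H < (G t).comap E) :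
    ∃ f : W → W → ℝ, (∀ a b, f a b = f b a) ∧
      (∀ x y z w : W, H.Adj x y → H.Adj z w → f x y = f z w →
        (x = z ∧ y = w) ∨ (x = w ∧ y = z)) ∧ Good H f := by
  have hle := hH.le
  obtain ⟨x, y, hxy, hnxy⟩ : ∃ x y, ((G t).comap E).Adj x y ∧ ¬ H.Adj x y := by
    by_contra hcon
    push Not at hcon
    exact hH.not_ge (fun x y h => hcon x y h)
  obtain ⟨s, d, hsp⟩ := special (t := t) (x := E x) (y := E y) hxy
  set ψ : W → V t := fun w => rot s d (E w) with hψ
  have hψinj : Function.Injective ψ := (rot_inj s d).comp E.injective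
  have hψadj : ∀ a b, H.Adj a b → (G t).Adj (ψ a) (ψ b) :=
    fun a b h => rot_adj s d (hle h)
  refine ⟨fun a b => ((F (ψ a) (ψ b) : ℤ) : ℝ), ?_, ?_, ?_⟩
  · intro a b
    show ((F (ψ a) (ψ b) : ℤ) : ℝ) = ((F (ψ b) (ψ a) : ℤ) : ℝ)
    rw [F_symm]
  · intro a b c e h1 h2 h
    have h' : F (ψ a) (ψ b) = F (ψ c) (ψ e) := by
      have h3 : ((F (ψ a) (ψ b) : ℤ) : ℝ) = ((F (ψ c) (ψ e) : ℤ) : ℝ) := h
      exact_mod_cast h3
    rcases F_inj (hψadj _ _ h1) (hψadj _ _ h2) h' with ⟨p, q⟩ | ⟨p, q⟩
    · exact Or.inl ⟨hψinj p, hψinj q⟩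
    · exact Or.inr ⟨hψinj p, hψinj q⟩
  · intro u0 p0 hp0
    refine good_of_cyc H (fun a b => ((F (ψ a) (ψ b) : ℤ) : ℝ)) ?_ u0 p0 hp0
    intro l c hc
    set A : V t → V t → Prop := fun a b => ∃ u w, H.Adj u w ∧ ψ u = a ∧ ψ w = b with hAdef
    have hA : ∀ a b, A a b → (G t).Adj a b := by
      rintro a b ⟨u, w, h, rfl, rfl⟩
      exact hψadj _ _ h
    have hAs : ∀ a b, A a b → A b a := by
      rintro a b ⟨u, w, h, rfl, rfl⟩
      exact ⟨w, u, h.symm, rfl, rfl⟩
    have hAback : ∀ u w, A (ψ u) (ψ w) → H.Adj u w := by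
      rintro u w ⟨u', w', h, h1, h2⟩
      rwa [← hψinj h1, ← hψinj h2]
    have hc' : Cyc A l (fun k => ψ (c k)) := by
      refine ⟨hc.len, ?_, ?_, ?_⟩
      · intro k
        show ψ (c (k + l)) = ψ (c k)
        rw [hc.per]
      · intro k
        exact ⟨_, _, hc.adj k, rfl, rfl⟩
      · intro j k h
        exact hc.inj j k (hψinj h)
    have hmiss : ¬ (A (0, none) (1, none) ∧ A (0, none) (0, some false) ∧
        A (3, none) (0, some false)) := by
      rintro ⟨m1, m2, m3⟩
      rcases hsp with ((⟨e1, e2⟩ | ⟨e1, e2⟩) | (⟨e1, e2⟩ | ⟨e1, e2⟩) | (⟨e1, e2⟩ | ⟨e1, e2⟩))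
      · rw [← e1, ← e2] at m1
        exact hnxy (hAback _ _ m1)
      · rw [← e1, ← e2] at m1
        exact hnxy (hAback _ _ m1).symm
      · rw [← e1, ← e2] at m2
        exact hnxy (hAback _ _ m2)
      · rw [← e1, ← e2] at m2
        exact hnxy (hAback _ _ m2).symm
      · rw [← e1, ← e2] at m3
        exact hnxy (hAback _ _ m3)
      · rw [← e1, ← e2] at m3
        exact hnxy (hAback _ _ m3).symm
    obtain ⟨j, k, hjk, hj, hk⟩ := two_max hA hAs hmiss hc'
    exact ⟨j, k, hjk, ⟨Int.cast_lt.mpr hj.1, Int.cast_lt.mpr hj.2⟩,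
      ⟨Int.cast_lt.mpr hk.1, Int.cast_lt.mpr hk.2⟩⟩

end final


/-- The negation of the preceding statement: For each c<4 there is N such that every graph with no isolated vertex, no good edge labeling, good labelings on all proper spanning subgraphs, and average degree below c has at most N vertices. -/
theorem result :
    ¬ (∀ c : ℝ, c < 4 → ∃ N : ℕ, ∀ (n : ℕ) (G : SimpleGraph (Fin n)),
      (∀ v : Fin n, ∃ w : Fin n, G.Adj v w) →
      (¬ ∃ f : Fin n → Fin n → ℝ, (∀ a b : Fin n, f a b = f b a) ∧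
          (∀ x y z w : Fin n, G.Adj x y → G.Adj z w → f x y = f z w →
              (x = z ∧ y = w) ∨ (x = w ∧ y = z)) ∧
          ∀ (u : Fin n) (p : G.Walk u u), p.IsCycle →
            ∃ i j : ℕ, i < p.length ∧ j < p.length ∧ i ≠ j ∧
              f (p.getVert ((i + 1) % p.length)) (p.getVert ((i + 1) % p.length + 1)) <
                f (p.getVert i) (p.getVert (i + 1)) ∧
              f (p.getVert ((i + p.length - 1) % p.length))
                  (p.getVert ((i + p.length - 1) % p.length + 1)) <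
                f (p.getVert i) (p.getVert (i + 1)) ∧
              f (p.getVert ((j + 1) % p.length)) (p.getVert ((j + 1) % p.length + 1)) <
                f (p.getVert j) (p.getVert (j + 1)) ∧
              f (p.getVert ((j + p.length - 1) % p.length))
                  (p.getVert ((j + p.length - 1) % p.length + 1)) <
                f (p.getVert j) (p.getVert (j + 1))) →
      (∀ H : SimpleGraph (Fin n), H < G →
        ∃ f : Fin n → Fin n → ℝ, (∀ a b : Fin n, f a b = f b a) ∧
          (∀ x y z w : Fin n, H.Adj x y → H.Adj z w → f x y = f z w →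
              (x = z ∧ y = w) ∨ (x = w ∧ y = z)) ∧
          ∀ (u : Fin n) (p : H.Walk u u), p.IsCycle →
            ∃ i j : ℕ, i < p.length ∧ j < p.length ∧ i ≠ j ∧
              f (p.getVert ((i + 1) % p.length)) (p.getVert ((i + 1) % p.length + 1)) <
                f (p.getVert i) (p.getVert (i + 1)) ∧
              f (p.getVert ((i + p.length - 1) % p.length))
                  (p.getVert ((i + p.length - 1) % p.length + 1)) <
                f (p.getVert i) (p.getVert (i + 1)) ∧
              f (p.getVert ((j + 1) % p.length)) (p.getVert ((j + 1) % p.length + 1)) <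
                f (p.getVert j) (p.getVert (j + 1)) ∧
              f (p.getVert ((j + p.length - 1) % p.length))
                  (p.getVert ((j + p.length - 1) % p.length + 1)) <
                f (p.getVert j) (p.getVert (j + 1))) →
      2 * (G.edgeSet.ncard : ℝ) < c * (n : ℝ) → n ≤ N) := by
  intro hall
  obtain ⟨N, hN⟩ := hall (7 / 2) (by norm_num)
  let E : Fin (Fintype.card (V N)) ≃ V N := (Fintype.equivFin (V N)).symm
  have hcard : Fintype.card (V N) = (2 * N + 7) * 3 := by
    simp [V, ZMod.card]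
  have hfin := hN (Fintype.card (V N)) ((G N).comap E) ?_ ?_ ?_ ?_
  · omega
  · intro v
    rcases h : E v with ⟨i, (_ | b)⟩
    · refine ⟨E.symm (i + 1, none), ?_⟩
      rw [SimpleGraph.comap_adj, E.apply_symm_apply, h]
      exact Or.inl rfl
    · refine ⟨E.symm (i, none), ?_⟩
      rw [SimpleGraph.comap_adj, E.apply_symm_apply, h]
      exact Or.inl rfl
  · rintro ⟨f, hs, hinj, hg⟩
    exact no_good E f hs hinj hg
  · intro H hH
    exact sub_good E H hH
  · have h1 := edge_count E
    have h2 : (((G N).comap E).edgeSet.ncard : ℝ) ≤ ((5 * (2 * N + 7) : ℕ) : ℝ) := by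
      exact_mod_cast h1
    have h3 : (0 : ℝ) ≤ (N : ℝ) := Nat.cast_nonneg N
    have h4 : ((Fintype.card (V N) : ℕ) : ℝ) = (((2 * N + 7) * 3 : ℕ) : ℝ) := by rw [hcard]
    rw [h4]
    push_cast at h2 ⊢
    linarith

end Pool.Agent.S07818
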