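import Pool.Statements.S07838

set_option autoImplicit false
open Pool Pool.MP_f13a95_co

namespace Pool.Agent.S07838

/-- a rapidly increasing sequence -/
def sq (k : ℕ) : ℤ := Nat.rec 1 (fun k s => (s + (k + 1)) ^ 2 + (k + 1) + 1) k

lemma sq_zero : sq 0 = 1 := rfl
lemma sq_succ (k : ℕ) : sq (k + 1) = (sq k + (k + 1)) ^ 2 + (k + 1) + 1 := rfl

lemma sq_pos (k : ℕ) : 1 ≤ sq k := by
  induction k with
  | zero => rw [sq_zero]
  | succ k ih =>
    rw [sq_succ]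
    have : (0 : ℤ) ≤ (sq k + (k + 1)) ^ 2 := sq_nonneg _
    have : (0 : ℤ) ≤ k := Nat.cast_nonneg _
    linarith

lemma sq_lt_succ (k : ℕ) : sq k + k ≤ sq (k + 1) := by
  rw [sq_succ]
  have h1 := sq_pos k
  have h2 : (0 : ℤ) ≤ k := Nat.cast_nonneg _
  nlinarith

lemma sq_mono {i j : ℕ} (h : i ≤ j) : sq i + i ≤ sq j + j := by
  induction j with
  | zero =>
    have : i = 0 := by omega
    subst this; exact le_rfl
  | succ j ih =>
    rcases Nat.lt_or_ge j i with h1 | h1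
    · have : i = j + 1 := by omega
      subst this; exact le_rfl
    · refine (ih h1).trans ?_
      have := sq_lt_succ j
      push_cast
      have h2 : (0 : ℤ) ≤ j := Nat.cast_nonneg _
      linarith

noncomputable def rho (x : ℝ) : ℝ := x - round x

lemma rho_step (x β : ℝ) (h1 : |rho x| < 1 / 4) (h2 : |rho (x + β)| < 1 / 4) :
    rho (x + β) = rho x + rho β := by
  have h3 : |β - ((round (x + β) - round x : ℤ) : ℝ)| < 1 / 2 := by
    have e1 : β - ((round (x + β) - round x : ℤ) : ℝ) = rho (x + β) - rho x := by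
      unfold rho; push_cast; ring
    rw [e1]
    rw [abs_lt] at h1 h2 ⊢
    constructor <;> linarith [h1.1, h1.2, h2.1, h2.2]
  have h4 : round β = round (x + β) - round x := by
    rw [abs_lt] at h3
    rw [round_eq, Int.floor_eq_iff]
    constructor <;> linarith [h3.1, h3.2]
  unfold rho
  rw [h4]; push_cast; ring

lemma rho_iter (x β : ℝ) (S : ℕ) (h : ∀ i : ℕ, i ≤ S → |rho (x + i * β)| < 1 / 4) :
    ∀ i : ℕ, i ≤ S → rho (x + i * β) = rho x + i * rho β := by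
  intro i
  induction i with
  | zero => intro _; simp
  | succ i ih =>
    intro hi
    have h1 := ih (by omega)
    have h2 := rho_step (x + i * β) β (h i (by omega)) (by
      have := h (i + 1) hi
      have e : x + ((i + 1 : ℕ) : ℝ) * β = x + i * β + β := by push_cast; ring
      rwa [e] at this)
    have e : x + ((i + 1 : ℕ) : ℝ) * β = x + i * β + β := by push_cast; ring
    rw [e, h2, h1]; push_cast; ring

lemma exists_S (α : ℝ) (hα : Irrational α) (q : ℕ) (hq : 0 < q) :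
    ∃ S : ℕ, ∀ S' : ℕ, S ≤ S' → ∀ x : ℤ, ¬ ∀ i : ℕ, i ≤ S' → |rho (((x + i * q : ℤ) : ℝ) * α)| < 1 / 4 := by
  have hne : rho (q * α) ≠ 0 := by
    intro h
    unfold rho at h
    have h1 : (q : ℝ) * α = ((round ((q : ℝ) * α) : ℤ) : ℝ) := by linarith
    have h2 : Irrational ((q : ℝ) * α) := hα.natCast_mul hq.ne'
    exact h2.ne_int _ h1
  obtain ⟨S, hS⟩ := exists_nat_gt (1 / (2 * |rho (q * α)|))
  refine ⟨S, fun S' hSS' x hcon => ?_⟩
  have hpos : 0 < |rho (q * α)| := abs_pos.mpr hne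
  have e : ∀ i : ℕ, ((x + i * q : ℤ) : ℝ) * α = (x : ℝ) * α + i * (q * α) := by
    intro i; push_cast; ring
  simp only [e] at hcon
  have h1 := rho_iter _ _ S' hcon S' le_rfl
  have h2 := hcon S' le_rfl
  have h3 := hcon 0 (Nat.zero_le _)
  simp only [Nat.cast_zero, zero_mul, add_zero] at h3
  have h4 : |(S' : ℝ) * rho (q * α)| < 1 / 2 := by
    have : (S' : ℝ) * rho (q * α) = rho (x * α + S' * (q * α)) - rho (x * α) := by
      rw [h1]; ring
    rw [this]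
    rw [abs_lt] at h2 h3 ⊢
    constructor <;> linarith [h2.1, h2.2, h3.1, h3.2]
  rw [abs_mul, abs_of_nonneg (Nat.cast_nonneg _)] at h4
  rw [div_lt_iff₀ (by positivity)] at hS
  have h5 : (S : ℝ) ≤ S' := by exact_mod_cast hSS'
  nlinarith

/-- sparse thick set intersected with a Bohr neighbourhood -/
def Bset (par : ℕ) : Set ℤ :=
  {n | ∃ i : ℕ, i % 2 = par ∧ sq i ≤ n ∧ n ≤ sq i + i ∧ |rho ((n : ℝ) * √2)| < 1 / 4}

structure Dec (n : ℤ) (k : ℕ) (x y : ℤ) : Prop where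
  eq : n = x * y
  x1 : sq (k + 1) ≤ x
  x2 : x ≤ sq (k + 1) + (k + 1)
  y1 : 1 ≤ y
  y2 : y ≤ sq k + k
  bohr : |rho ((x : ℝ) * √2)| < 1 / 4

lemma exists_dec (b c : ℤ) (hb : b ∈ Bset 0) (hc : c ∈ Bset 1) :
    ∃ (k : ℕ) (x y : ℤ), Dec (b * c) k x y := by
  obtain ⟨i, hi, b1, b2, b3⟩ := hb
  obtain ⟨j, hj, c1, c2, c3⟩ := hc
  have hi1 := sq_pos i
  have hj1 := sq_pos j
  rcases Nat.lt_trichotomy i j with h | h | h
  · obtain ⟨k, rfl⟩ : ∃ k, j = k + 1 := ⟨j - 1, by omega⟩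
    have := sq_mono (show i ≤ k by omega)
    exact ⟨k, c, b, ⟨mul_comm _ _, c1, by push_cast at c2; exact c2, by linarith, by linarith, c3⟩⟩
  · omega
  · obtain ⟨k, rfl⟩ : ∃ k, i = k + 1 := ⟨i - 1, by omega⟩
    have := sq_mono (show j ≤ k by omega)
    exact ⟨k, b, c, ⟨rfl, b1, by push_cast at b2; exact b2, by linarith, by linarith, b3⟩⟩

lemma Dec.le {n : ℤ} {k : ℕ} {x y : ℤ} (h : Dec n k x y) {m : ℕ} (hm : k + 1 ≤ m) :
    n ≤ (sq m + m) ^ 2 := by
  have a1 := sq_mono hm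
  have a2 := sq_mono (show k ≤ m by omega)
  have a3 := h.x1
  have a4 := h.x2
  have a5 := h.y1
  have a6 := h.y2
  have a7 := sq_pos (k + 1)
  rw [h.eq, pow_two]
  push_cast at a1
  exact mul_le_mul (by linarith) (by linarith) (by linarith) (by linarith)

lemma Dec.ge {n : ℤ} {k : ℕ} {x y : ℤ} (h : Dec n k x y) : sq (k + 1) ≤ n := by
  have a3 := h.x1
  have a5 := h.y1
  have a7 := sq_pos (k + 1)
  rw [h.eq]
  nlinarith

lemma Dec.pos {n : ℤ} {k : ℕ} {x y : ℤ} (h : Dec n k x y) : 1 ≤ n :=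
  (sq_pos _).trans h.ge

lemma Dec.large {n : ℤ} {k : ℕ} {x y : ℤ} (h : Dec n k x y) {m : ℕ} (hn : (sq m + m) ^ 2 < n) :
    m ≤ k := by
  by_contra hcon
  have := h.le (show k + 1 ≤ m by omega)
  linarith

lemma Dec.step {n m : ℤ} {k k' : ℕ} {x y x' y' : ℤ} (h : Dec n k x y) (h' : Dec (n + m) k' x' y')
    (hm : 0 < m) (hmk : m ≤ k') : k = k' ∧ y = y' := by
  have hk : k = k' := by
    rcases Nat.lt_trichotomy k k' with c | c | c
    · exfalso
      have a1 := h.le (show k + 1 ≤ k' by omega)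
      have a2 := h'.ge
      rw [sq_succ] at a2
      have a3 := sq_pos k'
      have a4 : (0 : ℤ) ≤ k' := Nat.cast_nonneg _
      nlinarith
    · exact c
    · exfalso
      have a1 := h'.le (show k' + 1 ≤ k by omega)
      have a2 := h.ge
      rw [sq_succ] at a2
      have a3 := sq_pos k
      have a4 : (0 : ℤ) ≤ k := Nat.cast_nonneg _
      nlinarith
  subst hk
  refine ⟨rfl, ?_⟩
  have a4 : (0 : ℤ) ≤ k := Nat.cast_nonneg _
  have s1 := sq_pos k
  have s2 := sq_succ k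
  have e := h.eq
  have e' := h'.eq
  have x1 := h.x1
  have x2 := h.x2
  have y1 := h.y1
  have y2 := h.y2
  have x1' := h'.x1
  have x2' := h'.x2
  have y1' := h'.y1
  have y2' := h'.y2
  have s3 : ((k : ℤ) + 1) * (sq k + k) ≤ (sq k + (k + 1)) ^ 2 := by nlinarith
  rcases lt_trichotomy y y' with c | c | c
  · exfalso
    have c' : y + 1 ≤ y' := c
    have t1 : sq (k + 1) * (y + 1) ≤ x' * y' :=
      mul_le_mul x1' c' (by linarith) (by linarith [sq_pos (k + 1)])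
    have t2 : x * y ≤ (sq (k + 1) + (k + 1)) * y := mul_le_mul_of_nonneg_right x2 (by linarith)
    have t3 : ((k : ℤ) + 1) * y ≤ (k + 1) * (sq k + k) :=
      mul_le_mul_of_nonneg_left y2 (by linarith)
    nlinarith
  · exact c
  · exfalso
    have c' : y' + 1 ≤ y := c
    have t1 : sq (k + 1) * (y' + 1) ≤ x * y :=
      mul_le_mul x1 c' (by linarith) (by linarith [sq_pos (k + 1)])
    have t2 : x' * y' ≤ (sq (k + 1) + (k + 1)) * y' := mul_le_mul_of_nonneg_right x2' (by linarith)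
    have t3 : ((k : ℤ) + 1) * y' ≤ (k + 1) * (sq k + k) :=
      mul_le_mul_of_nonneg_left y2' (by linarith)
    nlinarith

lemma thick (par : ℕ) (hpar : par < 2) (L : ℕ) :
    ∃ a : ℤ, ∀ k : ℕ, k < L → a + (k : ℤ) ∈ {n : ℤ | ∃ i : ℕ, i % 2 = par ∧ sq i ≤ n ∧ n ≤ sq i + i} := by
  refine ⟨sq (2 * L + par), fun k hk => ⟨2 * L + par, by omega, ?_, ?_⟩⟩
  · have : (0 : ℤ) ≤ k := Nat.cast_nonneg _
    linarith
  · have : (k : ℤ) ≤ ((2 * L + par : ℕ) : ℤ) := by exact_mod_cast (by omega)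
    linarith

lemma hyp (par : ℕ) (hpar : par < 2) :
    ∃ (d : ℕ) (α : Fin d → ℝ) (ε : ℝ) (n₀ : ℤ) (T : Set ℤ), 0 < ε ∧
        (∀ L : ℕ, ∃ a : ℤ, ∀ k : ℕ, k < L → a + (k : ℤ) ∈ T) ∧
        ∀ n ∈ T, (∀ i : Fin d,
          |((n - n₀ : ℤ) : ℝ) * α i - (round (((n - n₀ : ℤ) : ℝ) * α i) : ℝ)| < ε) →
            n ∈ Bset par := by
  refine ⟨1, fun _ => √2, 1 / 4, 0, _, by norm_num, thick par hpar, ?_⟩
  rintro n ⟨i, h1, h2, h3⟩ h4
  have h5 := h4 0
  rw [sub_zero] at h5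
  exact ⟨i, h1, h2, h3, h5⟩

/-- The negation of the preceding statement: Suppose each of B and D contains the intersection of a translated Bohr neighbourhood with a set containing arbitrarily long intervals. Then the product set B·D contains (r + mℤ) ∩ T for some m ≥ 1, some r, and some T containing arbitrarily long intervals. -/
theorem result :
    ¬ (∀ B D : Set ℤ,
      (∃ (d : ℕ) (α : Fin d → ℝ) (ε : ℝ) (n₀ : ℤ) (T : Set ℤ), 0 < ε ∧
        (∀ L : ℕ, ∃ a : ℤ, ∀ k : ℕ, k < L → a + (k : ℤ) ∈ T) ∧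
        ∀ n ∈ T, (∀ i : Fin d,
          |((n - n₀ : ℤ) : ℝ) * α i - (round (((n - n₀ : ℤ) : ℝ) * α i) : ℝ)| < ε) → n ∈ B) →
      (∃ (d : ℕ) (α : Fin d → ℝ) (ε : ℝ) (n₀ : ℤ) (T : Set ℤ), 0 < ε ∧
        (∀ L : ℕ, ∃ a : ℤ, ∀ k : ℕ, k < L → a + (k : ℤ) ∈ T) ∧
        ∀ n ∈ T, (∀ i : Fin d,
          |((n - n₀ : ℤ) : ℝ) * α i - (round (((n - n₀ : ℤ) : ℝ) * α i) : ℝ)| < ε) → n ∈ D) →
      ∃ (m r : ℤ) (T : Set ℤ), 0 < m ∧
        (∀ L : ℕ, ∃ a : ℤ, ∀ k : ℕ, k < L → a + (k : ℤ) ∈ T) ∧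
        ∀ n ∈ T, n ≡ r [ZMOD m] → ∃ b ∈ B, ∃ c ∈ D, n = b * c) := by
  intro H
  obtain ⟨m, r, T, hm, hT, hTr⟩ := H (Bset 0) (Bset 1) (hyp 0 (by norm_num)) (hyp 1 (by norm_num))
  obtain ⟨mn, rfl⟩ : ∃ mn : ℕ, m = mn := ⟨m.toNat, (Int.toNat_of_nonneg hm.le).symm⟩
  have hmn : 0 < mn := by exact_mod_cast hm
  -- the length of progressions
  have hS : ∃ S : ℕ, 1 ≤ S ∧ ∀ q : ℕ, 0 < q → q ≤ mn → ∀ x : ℤ,
      ¬ ∀ i : ℕ, i ≤ S → |rho (((x + i * q : ℤ) : ℝ) * √2)| < 1 / 4 := by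
    have h1 : ∀ q : ℕ, ∃ S : ℕ, 0 < q → ∀ S' : ℕ, S ≤ S' → ∀ x : ℤ,
        ¬ ∀ i : ℕ, i ≤ S' → |rho (((x + i * q : ℤ) : ℝ) * √2)| < 1 / 4 := by
      intro q
      rcases Nat.eq_zero_or_pos q with h | h
      · exact ⟨0, fun h' => by omega⟩
      · obtain ⟨S, hS⟩ := exists_S (√2) irrational_sqrt_two q h
        exact ⟨S, fun _ => hS⟩
    choose S hS using h1
    refine ⟨∑ q ∈ Finset.range (mn + 1), S q + 1, by omega, fun q hq hqm x => hS q hq _ ?_ x⟩
    exact (Finset.single_le_sum (f := S) (fun _ _ => Nat.zero_le _)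
      (Finset.mem_range.mpr (by omega))).trans (Nat.le_succ _)
  obtain ⟨S, hS1, hS⟩ := hS
  -- a far away bound
  set C : ℕ := ((sq mn + mn) ^ 2).toNat with hC
  have hCi : (C : ℤ) = (sq mn + mn) ^ 2 := Int.toNat_of_nonneg (sq_nonneg _)
  obtain ⟨a, ha⟩ := hT ((C + S + 2) * mn)
  set n₁ : ℤ := a + (r - a) % mn with hn₁
  have hmod0 : 0 ≤ (r - a) % (mn : ℤ) := Int.emod_nonneg _ (by omega)
  have hmod1 : (r - a) % (mn : ℤ) < mn := Int.emod_lt_of_pos _ hm
  have hmem : ∀ j : ℕ, j ≤ C + S → ∃ (k : ℕ) (x y : ℤ), Dec (n₁ + j * mn) k x y := by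
    intro j hj
    have h1 : n₁ + j * mn ∈ T := by
      have := ha (((r - a) % mn).toNat + j * mn) (by
        have : ((r - a) % (mn : ℤ)).toNat < mn := by omega
        calc ((r - a) % (mn : ℤ)).toNat + j * mn < mn + j * mn := by omega
          _ ≤ (C + S + 2) * mn := by nlinarith)
      have e : a + ((((r - a) % (mn : ℤ)).toNat + j * mn : ℕ) : ℤ) = n₁ + j * mn := by
        push_cast
        rw [Int.toNat_of_nonneg hmod0, hn₁]; ring
      rwa [e] at this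
    have h2 : n₁ + j * mn ≡ r [ZMOD mn] := by
      have e1 : n₁ ≡ r [ZMOD mn] := by
        have : (r - a) % mn ≡ r - a [ZMOD mn] := Int.mod_modEq _ _
        have := (Int.ModEq.refl a (n := (mn : ℤ))).add this
        rw [hn₁]
        have e : a + (r - a) = r := by ring
        rwa [e] at this
      have e2 : (j : ℤ) * mn ≡ 0 [ZMOD mn] := Int.modEq_zero_iff_dvd.mpr (Dvd.intro_left _ rfl)
      have := e1.add e2
      rwa [add_zero] at this
    obtain ⟨b, hb, c, hc, hbc⟩ := hTr _ h1 h2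
    rw [hbc]
    exact exists_dec b c hb hc
  have hn₁pos : 1 ≤ n₁ := by
    obtain ⟨k, x, y, h⟩ := hmem 0 (Nat.zero_le _)
    have := h.pos
    simpa using this
  have hdec : ∀ i : ℕ, ∃ (k : ℕ) (x y : ℤ), i ≤ S → Dec (n₁ + C * mn + i * mn) k x y := by
    intro i
    by_cases hi : i ≤ S
    · obtain ⟨k, x, y, h⟩ := hmem (C + i) (by omega)
      refine ⟨k, x, y, fun _ => ?_⟩
      have e : n₁ + ((C + i : ℕ) : ℤ) * mn = n₁ + C * mn + i * mn := by push_cast; ring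
      rwa [e] at h
    · exact ⟨0, 0, 0, fun h => absurd h hi⟩
  choose k x y hk using hdec
  have hbig : ∀ i : ℕ, i ≤ S → mn ≤ k i := by
    intro i hi
    apply (hk i hi).large
    rw [← hCi]
    have h1 : (C : ℤ) ≤ C * mn := by nlinarith [Nat.cast_nonneg (α := ℤ) C]
    have h2 : (0 : ℤ) ≤ i * mn := by positivity
    linarith
  have hstep : ∀ i : ℕ, i + 1 ≤ S → k i = k (i + 1) ∧ y i = y (i + 1) := by
    intro i hi
    have h1 := hk i (by omega)
    have h2 := hk (i + 1) hi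
    have e : n₁ + C * mn + ((i + 1 : ℕ) : ℤ) * mn = n₁ + C * mn + i * mn + mn := by
      push_cast; ring
    rw [e] at h2
    exact h1.step h2 hm (by exact_mod_cast hbig (i + 1) hi)
  have hy : ∀ i : ℕ, i ≤ S → y i = y 0 := by
    intro i
    induction i with
    | zero => intro _; rfl
    | succ i ih =>
      intro hi
      rw [← (hstep i hi).2]
      exact ih (by omega)
  have hy1 : 1 ≤ y 0 := (hk 0 (Nat.zero_le _)).y1
  have hxy : ∀ i : ℕ, i ≤ S → x i * y 0 = x 0 * y 0 + i * mn := by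
    intro i hi
    have h1 := (hk i hi).eq
    have h2 := (hk 0 (Nat.zero_le _)).eq
    rw [hy i hi] at h1
    rw [← h1, ← h2]; push_cast; ring
  have hdvd : (x 1 - x 0) * y 0 = mn := by
    have := hxy 1 hS1
    push_cast at this
    linarith
  set q : ℤ := x 1 - x 0 with hq
  have hqpos : 0 < q := by
    by_contra hcon
    push Not at hcon
    nlinarith
  obtain ⟨qn, hqn⟩ : ∃ qn : ℕ, q = qn := ⟨q.toNat, (Int.toNat_of_nonneg hqpos.le).symm⟩
  have hqm : q ≤ mn := by nlinarith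
  apply hS qn (by omega) (by omega) (x 0)
  intro i hi
  have h1 : x i = x 0 + i * qn := by
    have h2 := hxy i hi
    have h3 : x i * y 0 = (x 0 + i * qn) * y 0 := by
      rw [h2, ← hdvd, ← hqn]; ring
    exact mul_right_cancel₀ (by omega) h3
  rw [← h1]
  exact (hk i hi).bohr

end Pool.Agent.S07838
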