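import Pool.Statements.S07882

set_option autoImplicit false
open MeasureTheory
open Pool Pool.MP_f4f539_co

namespace Pool.Agent.S07882


abbrev E (d : ℕ) := EuclideanSpace ℝ (Fin d)

/-- A metric projection onto a compact convex set. -/
structure IsProj {d : ℕ} (K : Set (E d)) (pr : E d → E d) : Prop where
  mem : ∀ x, pr x ∈ K
  inner_le : ∀ x, ∀ w ∈ K, inner ℝ (x - pr x) (w - pr x) ≤ 0
  infDist_eq : ∀ x, Metric.infDist x K = ‖x - pr x‖

lemma exists_proj {d : ℕ} {K : Set (E d)} (hK : IsCompact K) (hc : Convex ℝ K)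
    (hne : K.Nonempty) : ∃ pr : E d → E d, IsProj K pr := by
  have h : ∀ x : E d, ∃ y ∈ K, Metric.infDist x K = dist x y :=
    fun x => hK.exists_infDist_eq_dist hne x
  choose pr hpr hd using h
  refine ⟨pr, hpr, ?_, fun x => by rw [hd x, dist_eq_norm]⟩
  intro x
  rw [← norm_eq_iInf_iff_real_inner_le_zero hc (hpr x)]
  have := hd x
  rw [Metric.infDist_eq_iInf] at this
  rw [dist_eq_norm] at this
  rw [← this]
  simp only [dist_eq_norm]

lemma IsProj.firm {d : ℕ} {K : Set (E d)} {pr : E d → E d} (h : IsProj K pr) (x y : E d) :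
    ‖pr x - pr y‖ ^ 2 ≤ inner ℝ (pr x - pr y) (x - y) := by
  have h1 := h.inner_le x (pr y) (h.mem y)
  have h2 := h.inner_le y (pr x) (h.mem x)
  have e : inner ℝ (pr x - pr y) (x - y) - ‖pr x - pr y‖ ^ 2
      = -(inner ℝ (x - pr x) (pr y - pr x)) - inner ℝ (y - pr y) (pr x - pr y) := by
    rw [← real_inner_self_eq_norm_sq]
    simp only [inner_sub_left, inner_sub_right]
    rw [real_inner_comm x (pr x), real_inner_comm x (pr y), real_inner_comm y (pr x),
      real_inner_comm y (pr y), real_inner_comm (pr x) (pr y)]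
    ring
  linarith

lemma IsProj.lip {d : ℕ} {K : Set (E d)} {pr : E d → E d} (h : IsProj K pr) (x y : E d) :
    ‖pr x - pr y‖ ≤ ‖x - y‖ := by
  have h1 := h.firm x y
  have h2 := real_inner_le_norm (pr x - pr y) (x - y)
  by_cases h0 : ‖pr x - pr y‖ = 0
  · rw [h0]; exact norm_nonneg _
  · have hpos : 0 < ‖pr x - pr y‖ := lt_of_le_of_ne (norm_nonneg _) (Ne.symm h0)
    have : ‖pr x - pr y‖ * ‖pr x - pr y‖ ≤ ‖pr x - pr y‖ * ‖x - y‖ := by
      rw [← sq]; linarith
    exact le_of_mul_le_mul_left this hpos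

lemma IsProj.unique {d : ℕ} {K : Set (E d)} {pr : E d → E d} (h : IsProj K pr) (x y : E d)
    (hy : y ∈ K) (hxy : ∀ w ∈ K, inner ℝ (x - y) (w - y) ≤ 0) : pr x = y := by
  have h1 := h.inner_le x y hy
  have h2 := hxy (pr x) (h.mem x)
  have e : inner ℝ (x - pr x) (y - pr x) + inner ℝ (x - y) (pr x - y) = ‖pr x - y‖ ^ 2 := by
    rw [← real_inner_self_eq_norm_sq]
    simp only [inner_sub_left, inner_sub_right]
    rw [real_inner_comm y (pr x)]
    ring
  have h3 : ‖pr x - y‖ ^ 2 ≤ 0 := by linarith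
  have h4 : ‖pr x - y‖ = 0 := by
    have := sq_nonneg ‖pr x - y‖
    exact pow_eq_zero_iff (two_ne_zero) |>.1 (le_antisymm h3 this)
  exact sub_eq_zero.1 (norm_eq_zero.1 h4)

/-- The dilation of the distance to `K` along the projection rays. -/
def dil {d : ℕ} (pr : E d → E d) (l : ℝ) (x : E d) : E d := l • x + (1 - l) • pr x

lemma dil_sub {d : ℕ} (pr : E d → E d) (l : ℝ) (x : E d) :
    dil pr l x - pr x = l • (x - pr x) := by
  unfold dil
  module

lemma IsProj.pr_dil {d : ℕ} {K : Set (E d)} {pr : E d → E d} (h : IsProj K pr) {l : ℝ}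
    (hl : 0 ≤ l) (x : E d) : pr (dil pr l x) = pr x := by
  apply h.unique _ _ (h.mem x)
  intro w hw
  rw [dil_sub, real_inner_smul_left]
  exact mul_nonpos_of_nonneg_of_nonpos hl (h.inner_le x w hw)

lemma IsProj.dil_dil {d : ℕ} {K : Set (E d)} {pr : E d → E d} (h : IsProj K pr) {l : ℝ}
    (hl : 0 < l) (x : E d) : dil pr l⁻¹ (dil pr l x) = x := by
  have h1 := h.pr_dil hl.le x
  unfold dil at *
  rw [h1, smul_add, smul_smul, smul_smul, inv_mul_cancel₀ hl.ne', one_smul, add_assoc, ← add_smul]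
  have : l⁻¹ * (1 - l) + (1 - l⁻¹) = 0 := by field_simp; ring
  rw [this, zero_smul, add_zero]

lemma IsProj.dil_injective {d : ℕ} {K : Set (E d)} {pr : E d → E d} (h : IsProj K pr) {l : ℝ}
    (hl : 0 < l) : Function.Injective (dil pr l) :=
  Function.LeftInverse.injective (h.dil_dil hl)

lemma IsProj.infDist_dil {d : ℕ} {K : Set (E d)} {pr : E d → E d} (h : IsProj K pr) {l : ℝ}
    (hl : 0 ≤ l) (x : E d) : Metric.infDist (dil pr l x) K = l * Metric.infDist x K := by
  rw [h.infDist_eq, h.infDist_eq, h.pr_dil hl, dil_sub, norm_smul, Real.norm_of_nonneg hl]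

lemma mem_cth {d : ℕ} {K : Set (E d)} (hne : K.Nonempty) {e : ℝ} (he : 0 ≤ e) (x : E d) :
    x ∈ Metric.cthickening e K ↔ Metric.infDist x K ≤ e := by
  rw [Metric.mem_cthickening_iff, Metric.infDist]
  rw [ENNReal.le_ofReal_iff_toReal_le (Metric.infEDist_ne_top hne) he]

lemma IsProj.image_dil {d : ℕ} {K : Set (E d)} {pr : E d → E d} (h : IsProj K pr)
    (hne : K.Nonempty) {l : ℝ}
    (hl : 0 < l) : dil pr l '' (Metric.cthickening 1 K) = Metric.cthickening l K := by
  ext y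
  constructor
  · rintro ⟨x, hx, rfl⟩
    rw [mem_cth hne zero_le_one] at hx
    rw [mem_cth hne hl.le, h.infDist_dil hl.le]
    calc l * Metric.infDist x K ≤ l * 1 := mul_le_mul_of_nonneg_left hx hl.le
      _ = l := mul_one l
  · intro hy
    rw [mem_cth hne hl.le] at hy
    refine ⟨dil pr l⁻¹ y, ?_, ?_⟩
    · rw [mem_cth hne zero_le_one, h.infDist_dil (inv_nonneg.2 hl.le)]
      rw [inv_mul_le_iff₀ hl, mul_one]
      exact hy
    · have := h.dil_dil (inv_pos.2 hl) y
      rwa [inv_inv] at this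

lemma IsProj.lipschitz {d : ℕ} {K : Set (E d)} {pr : E d → E d} (h : IsProj K pr) :
    LipschitzWith 1 pr := by
  apply LipschitzWith.of_dist_le_mul
  intro x y
  rw [dist_eq_norm, dist_eq_norm]
  simpa using h.lip x y

lemma IsProj.dil_lipschitz {d : ℕ} {K : Set (E d)} {pr : E d → E d} (h : IsProj K pr) (l : ℝ) :
    ∃ C : NNReal, LipschitzWith C (dil pr l) := by
  have h1 : LipschitzWith (‖l‖₊ * 1) (fun x : E d => l • x) :=
    (lipschitzWith_smul l).comp LipschitzWith.id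
  have h2 : LipschitzWith (‖1 - l‖₊ * 1) (fun x : E d => (1 - l) • pr x) :=
    (lipschitzWith_smul (1 - l)).comp h.lipschitz
  exact ⟨_, h1.add h2⟩

/-- Lipschitz images of Lebesgue null sets are null. -/
lemma null_image {d : ℕ} {f : E d → E d} {C : NNReal} (hf : LipschitzWith C f) {s : Set (E d)}
    (hs : volume s = 0) : volume (f '' s) = 0 := by
  have ac1 : (volume : Measure (E d)) ≪ Measure.hausdorffMeasure (Module.finrank ℝ (E d)) :=
    Measure.absolutelyContinuous_isAddHaarMeasure _ _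
  have ac2 : (Measure.hausdorffMeasure (Module.finrank ℝ (E d)) : Measure (E d)) ≪ volume :=
    Measure.absolutelyContinuous_isAddHaarMeasure _ _
  apply ac1
  have h0 : (Measure.hausdorffMeasure (Module.finrank ℝ (E d)) : Measure (E d)) s = 0 := ac2 hs
  have h1 := hf.hausdorffMeasure_image_le (d := (Module.finrank ℝ (E d) : ℝ)) (by positivity) s
  rw [h0, mul_zero] at h1
  exact nonpos_iff_eq_zero.1 h1


lemma IsProj.fderiv_firm {d : ℕ} {K : Set (E d)} {pr : E d → E d} (h : IsProj K pr) {x : E d}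
    (hx : DifferentiableAt ℝ pr x) (v : E d) :
    ‖fderiv ℝ pr x v‖ ^ 2 ≤ inner ℝ (fderiv ℝ pr x v) v := by
  have h1 : HasDerivAt (fun t : ℝ => pr (x + t • v)) (fderiv ℝ pr x v) 0 := by
    have := hx.hasFDerivAt.hasLineDerivAt v
    exact this
  rw [hasDerivAt_iff_tendsto_slope_zero] at h1
  simp only [zero_add, zero_smul, add_zero] at h1
  have hn : Filter.Tendsto (fun t : ℝ => ‖t⁻¹ • (pr (x + t • v) - pr x)‖ ^ 2)
      (nhdsWithin 0 {0}ᶜ) (nhds (‖fderiv ℝ pr x v‖ ^ 2)) := (h1.norm).pow 2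
  have hi : Filter.Tendsto (fun t : ℝ => inner ℝ (t⁻¹ • (pr (x + t • v) - pr x)) v)
      (nhdsWithin 0 {0}ᶜ) (nhds (inner ℝ (fderiv ℝ pr x v) v)) :=
    h1.inner tendsto_const_nhds
  refine le_of_tendsto_of_tendsto hn hi ?_
  filter_upwards [self_mem_nhdsWithin] with t ht
  have ht' : t ≠ 0 := ht
  have hf := h.firm (x + t • v) x
  rw [add_sub_cancel_left, inner_smul_right] at hf
  rw [norm_smul, mul_pow, real_inner_smul_left, norm_inv, Real.norm_eq_abs, inv_pow, sq_abs]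
  have h2 : 0 < (t ^ 2)⁻¹ := by positivity
  calc (t ^ 2)⁻¹ * ‖pr (x + t • v) - pr x‖ ^ 2
      ≤ (t ^ 2)⁻¹ * (t * inner ℝ (pr (x + t • v) - pr x) v) :=
        mul_le_mul_of_nonneg_left hf h2.le
    _ = t⁻¹ * inner ℝ (pr (x + t • v) - pr x) v := by
        field_simp

/-- determinant polynomial of `l • 1 + (1 - l) • A` in `l`. -/
noncomputable def detPoly {d : ℕ} (A : E d →L[ℝ] E d) : Polynomial ℝ :=
  Matrix.det ((Polynomial.X : Polynomial ℝ) •
      (1 - LinearMap.toMatrix (EuclideanSpace.basisFun (Fin d) ℝ).toBasis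
        (EuclideanSpace.basisFun (Fin d) ℝ).toBasis (A : E d →ₗ[ℝ] E d)).map Polynomial.C
    + (LinearMap.toMatrix (EuclideanSpace.basisFun (Fin d) ℝ).toBasis
        (EuclideanSpace.basisFun (Fin d) ℝ).toBasis (A : E d →ₗ[ℝ] E d)).map Polynomial.C)

lemma detPoly_natDegree {d : ℕ} (A : E d →L[ℝ] E d) : (detPoly A).natDegree ≤ d := by
  have := Polynomial.natDegree_det_X_add_C_le
    (1 - LinearMap.toMatrix (EuclideanSpace.basisFun (Fin d) ℝ).toBasis
        (EuclideanSpace.basisFun (Fin d) ℝ).toBasis (A : E d →ₗ[ℝ] E d))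
    (LinearMap.toMatrix (EuclideanSpace.basisFun (Fin d) ℝ).toBasis
        (EuclideanSpace.basisFun (Fin d) ℝ).toBasis (A : E d →ₗ[ℝ] E d))
  rw [Fintype.card_fin] at this
  exact this

lemma detPoly_eval {d : ℕ} (A : E d →L[ℝ] E d) (l : ℝ) :
    (detPoly A).eval l = (l • ContinuousLinearMap.id ℝ (E d) + (1 - l) • A).det := by
  unfold detPoly
  rw [← Polynomial.coe_evalRingHom, RingHom.map_det]
  rw [ContinuousLinearMap.det, ← LinearMap.det_toMatrix
    (EuclideanSpace.basisFun (Fin d) ℝ).toBasis]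
  congr 1
  ext i j
  simp [RingHom.mapMatrix_apply, Matrix.map_apply, LinearMap.toMatrix_apply, Matrix.one_apply]
  split_ifs
  · simp only [Polynomial.eval_one]; ring
  · simp only [Polynomial.eval_zero]; ring


lemma det_ne {d : ℕ} (A : E d →L[ℝ] E d) (hA : ∀ v, ‖A v‖ ^ 2 ≤ inner ℝ (A v) v) {l : ℝ}
    (hl : 0 < l) : (l • ContinuousLinearMap.id ℝ (E d) + (1 - l) • A).det ≠ 0 := by
  have hA1 : ∀ v, inner ℝ (A v) v ≤ ‖v‖ ^ 2 := by
    intro v
    have h1 := hA v
    have h2 := real_inner_le_norm (A v) v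
    have h3 : ‖A v‖ ≤ ‖v‖ := by
      by_cases h0 : ‖A v‖ = 0
      · rw [h0]; exact norm_nonneg _
      · have hpos : 0 < ‖A v‖ := lt_of_le_of_ne (norm_nonneg _) (Ne.symm h0)
        have : ‖A v‖ * ‖A v‖ ≤ ‖A v‖ * ‖v‖ := by rw [← sq]; linarith
        exact le_of_mul_le_mul_left this hpos
    calc inner ℝ (A v) v ≤ ‖A v‖ * ‖v‖ := h2
      _ ≤ ‖v‖ * ‖v‖ := mul_le_mul_of_nonneg_right h3 (norm_nonneg _)
      _ = ‖v‖ ^ 2 := (sq _).symm
  have hA0 : ∀ v, 0 ≤ inner ℝ (A v) v := fun v => le_trans (sq_nonneg _) (hA v)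
  have hinj : Function.Injective
      ((l • ContinuousLinearMap.id ℝ (E d) + (1 - l) • A : E d →L[ℝ] E d) : E d →ₗ[ℝ] E d) := by
    rw [← LinearMap.ker_eq_bot, LinearMap.ker_eq_bot']
    intro v hv
    have hv' : l • v + (1 - l) • A v = 0 := by simpa using hv
    have h1 : inner ℝ (l • v + (1 - l) • A v) v = 0 := by rw [hv', inner_zero_left]
    rw [inner_add_left, real_inner_smul_left, real_inner_smul_left,
      real_inner_self_eq_norm_sq] at h1
    have h2 := hA1 v
    have h3 := hA0 v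
    have h4 : ‖v‖ ^ 2 ≤ 0 := by
      rcases le_total l 1 with h | h
      · have : 0 ≤ (1 - l) * inner ℝ (A v) v := mul_nonneg (by linarith) h3
        have h5 : l * ‖v‖ ^ 2 ≤ 0 := by linarith
        by_contra hc
        push Not at hc
        have := mul_pos hl hc
        linarith
      · have : (l - 1) * inner ℝ (A v) v ≤ (l - 1) * ‖v‖ ^ 2 :=
          mul_le_mul_of_nonneg_left h2 (by linarith)
        nlinarith
    have h5 : ‖v‖ = 0 := pow_eq_zero_iff (two_ne_zero) |>.1 (le_antisymm h4 (sq_nonneg _))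
    exact norm_eq_zero.1 h5
  rw [ContinuousLinearMap.det]
  have hu : IsUnit ((l • ContinuousLinearMap.id ℝ (E d) + (1 - l) • A : E d →L[ℝ] E d) :
      E d →ₗ[ℝ] E d) := by
    rw [LinearMap.isUnit_iff_ker_eq_bot, LinearMap.ker_eq_bot]
    exact hinj
  exact ((LinearMap.isUnit_iff_isUnit_det _).1 hu).ne_zero

lemma det_pos {d : ℕ} (A : E d →L[ℝ] E d) (hA : ∀ v, ‖A v‖ ^ 2 ≤ inner ℝ (A v) v) {l : ℝ}
    (hl : 0 < l) : 0 < (detPoly A).eval l := by
  by_contra hc
  push Not at hc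
  have h1 : (detPoly A).eval 1 = 1 := by
    rw [detPoly_eval]
    simp [ContinuousLinearMap.det]
  have hcont : ContinuousOn (fun t : ℝ => (detPoly A).eval t) (Set.uIcc l 1) :=
    (Polynomial.continuous _).continuousOn
  have := intermediate_value_uIcc hcont
  have h0 : (0 : ℝ) ∈ Set.uIcc ((detPoly A).eval l) ((detPoly A).eval 1) := by
    rw [h1, Set.mem_uIcc]
    left
    exact ⟨hc, zero_le_one⟩
  obtain ⟨t, ht, ht0⟩ := this h0
  have htpos : 0 < t := by
    rw [Set.mem_uIcc] at ht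
    rcases ht with ht | ht <;> linarith [ht.1]
  have := det_ne A hA htpos
  rw [← detPoly_eval] at this
  exact this ht0

/-- The Steiner formula: the volume of the closed parallel bodies is a polynomial. -/
theorem steiner {d : ℕ} {K : Set (E d)} (hK : IsCompact K) (hc : Convex ℝ K)
    (hne : K.Nonempty) : ∃ a : ℕ → ℝ, ∀ l : ℝ, 0 < l →
      (volume (Metric.cthickening l K)).toReal = ∑ j ∈ Finset.range (d + 1), a j * l ^ j := by
  obtain ⟨pr, h⟩ := exists_proj hK hc hne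
  set C1 : Set (E d) := Metric.cthickening 1 K with hC1
  set D : Set (E d) := {x | DifferentiableAt ℝ pr x} with hD
  set s : Set (E d) := C1 ∩ D with hs
  have hsm : MeasurableSet s :=
    (Metric.isClosed_cthickening.measurableSet).inter (measurableSet_of_differentiableAt ℝ pr)
  have hnull : volume (C1 \ s) = 0 := by
    have h1 : ∀ᵐ x ∂(volume : Measure (E d)), DifferentiableAt ℝ pr x :=
      h.lipschitz.ae_differentiableAt
    have h2 : volume Dᶜ = 0 := h1
    refine measure_mono_null ?_ h2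
    intro x hx
    simp only [hs, Set.mem_sdiff, Set.mem_inter_iff, not_and] at hx
    exact hx.2 hx.1
  have hvol : ∀ l : ℝ, 0 < l → volume (Metric.cthickening l K) =
      ∫⁻ x in s, ENNReal.ofReal ((detPoly (fderiv ℝ pr x)).eval l) := by
    intro l hl
    obtain ⟨C, hC⟩ := h.dil_lipschitz l
    have e1 : volume (Metric.cthickening l K) = volume (dil pr l '' s) := by
      rw [← h.image_dil hne hl]
      apply le_antisymm
      · have : dil pr l '' (Metric.cthickening 1 K) ⊆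
            dil pr l '' s ∪ dil pr l '' (C1 \ s) := by
          rw [← Set.image_union]
          apply Set.image_mono
          intro x hx
          by_cases hxs : x ∈ s
          · exact Or.inl hxs
          · exact Or.inr ⟨hx, hxs⟩
        refine (measure_mono this).trans ((measure_union_le _ _).trans ?_)
        rw [null_image hC hnull, add_zero]
      · exact measure_mono (Set.image_mono Set.inter_subset_left)
    rw [e1, ← lintegral_abs_det_fderiv_eq_addHaar_image volume hsm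
      (f' := fun x => l • ContinuousLinearMap.id ℝ (E d) + (1 - l) • fderiv ℝ pr x)]
    · apply setLIntegral_congr_fun hsm
      intro x hx
      have hx2 : DifferentiableAt ℝ pr x := hx.2
      simp only
      rw [← detPoly_eval, abs_of_pos (det_pos _ (h.fderiv_firm hx2) hl)]
    · intro x hx
      have hx2 : DifferentiableAt ℝ pr x := hx.2
      apply HasFDerivAt.hasFDerivWithinAt
      exact ((hasFDerivAt_id x).const_smul l).add (hx2.hasFDerivAt.const_smul (1 - l))
    · exact (h.dil_injective hl).injOn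
  have hfin : ∀ l : ℝ, volume (Metric.cthickening l K) < ⊤ := fun l =>
    hK.isBounded.cthickening.measure_lt_top
  have hmeas : ∀ l : ℝ, Measurable fun x : E d => (detPoly (fderiv ℝ pr x)).eval l := by
    intro l
    simp only [detPoly_eval]
    exact ContinuousLinearMap.continuous_det.measurable.comp
      (((measurable_fderiv ℝ pr).const_smul (1 - l)).const_add _)
  have hnonneg : ∀ l : ℝ, 0 < l →
      0 ≤ᵐ[volume.restrict s] fun x : E d => (detPoly (fderiv ℝ pr x)).eval l := by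
    intro l hl
    rw [Filter.EventuallyLE, ae_restrict_iff' hsm]
    filter_upwards with x hx
    exact (det_pos _ (h.fderiv_firm hx.2) hl).le
  have hint : ∀ l : ℝ, 0 < l →
      Integrable (fun x : E d => (detPoly (fderiv ℝ pr x)).eval l) (volume.restrict s) := by
    intro l hl
    refine ⟨(hmeas l).aestronglyMeasurable, ?_⟩
    rw [hasFiniteIntegral_iff_ofReal (hnonneg l hl), ← hvol l hl]
    exact hfin l
  have hval : ∀ l : ℝ, 0 < l → (volume (Metric.cthickening l K)).toReal =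
      ∫ x in s, (detPoly (fderiv ℝ pr x)).eval l := by
    intro l hl
    rw [hvol l hl, integral_eq_lintegral_of_nonneg_ae (hnonneg l hl)
      (hmeas l).aestronglyMeasurable]
  -- Lagrange interpolation at the nodes 1, 2, ..., d + 1
  set v : ℕ → ℝ := fun i => (i : ℝ) + 1 with hv
  have hvs : Set.InjOn v (Finset.range (d + 1)) := by
    intro i _ j _ hij
    simp only [hv] at hij
    exact_mod_cast add_right_cancel hij
  have hvpos : ∀ i, 0 < v i := fun i => by simp only [hv]; positivity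
  set P : Polynomial ℝ := Lagrange.interpolate (Finset.range (d + 1)) v
    (fun i => (volume (Metric.cthickening (v i) K)).toReal) with hP
  have hPdeg : P.natDegree < d + 1 := by
    have h1 := Lagrange.degree_interpolate_lt
      (fun i => (volume (Metric.cthickening (v i) K)).toReal) hvs
    rw [Finset.card_range] at h1
    rcases eq_or_ne P 0 with h0 | h0
    · rw [h0]; simp
    · exact (Polynomial.natDegree_lt_iff_degree_lt h0).2 h1
  refine ⟨fun j => P.coeff j, fun l hl => ?_⟩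
  rw [← Polynomial.eval_eq_sum_range' hPdeg, hval l hl]
  have hpt : ∀ x : E d, (detPoly (fderiv ℝ pr x)).eval l =
      ∑ i ∈ Finset.range (d + 1), (detPoly (fderiv ℝ pr x)).eval (v i) *
        (Lagrange.basis (Finset.range (d + 1)) v i).eval l := by
    intro x
    have hdeg : (detPoly (fderiv ℝ pr x)).degree < (Finset.range (d + 1)).card := by
      rw [Finset.card_range]
      refine lt_of_le_of_lt (Polynomial.degree_le_natDegree) ?_
      exact_mod_cast Nat.lt_succ_of_le (detPoly_natDegree _)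
    have := Lagrange.eq_interpolate hvs hdeg
    conv_lhs => rw [this]
    rw [Lagrange.interpolate_apply, Polynomial.eval_finsetSum]
    simp [Polynomial.eval_mul, Polynomial.eval_C]
  simp only [hpt]
  rw [integral_finsetSum]
  · rw [hP, Lagrange.interpolate_apply, Polynomial.eval_finsetSum]
    apply Finset.sum_congr rfl
    intro i _
    rw [Polynomial.eval_mul, Polynomial.eval_C, hval _ (hvpos i), integral_mul_const]
  · intro i _
    exact (hint _ (hvpos i)).mul_const _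



abbrev E3 := EuclideanSpace ℝ (Fin 3)

/-- The closed capsule of radius `e` around the segment from `(al,0,0)` to `(be,0,0)`. -/
def cap (al be e : ℝ) : Set E3 :=
  {x | x 1 ^ 2 + x 2 ^ 2 ≤ e ^ 2 ∧ al - √(e ^ 2 - (x 1 ^ 2 + x 2 ^ 2)) ≤ x 0 ∧
    x 0 ≤ be + √(e ^ 2 - (x 1 ^ 2 + x 2 ^ 2))}

def capP (al be e : ℝ) : Set (ℝ × (Fin 2 → ℝ)) :=
  {z | z.2 0 ^ 2 + z.2 1 ^ 2 ≤ e ^ 2 ∧ al - √(e ^ 2 - (z.2 0 ^ 2 + z.2 1 ^ 2)) ≤ z.1 ∧
    z.1 ≤ be + √(e ^ 2 - (z.2 0 ^ 2 + z.2 1 ^ 2))}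

def disc (e : ℝ) : Set (Fin 2 → ℝ) := {y | y 0 ^ 2 + y 1 ^ 2 ≤ e ^ 2}

lemma isClosed_cap (al be e : ℝ) : IsClosed (cap al be e) := by
  have h : cap al be e = {x : E3 | x 1 ^ 2 + x 2 ^ 2 ≤ e ^ 2} ∩
      ({x : E3 | al - √(e ^ 2 - (x 1 ^ 2 + x 2 ^ 2)) ≤ x 0} ∩
      {x : E3 | x 0 ≤ be + √(e ^ 2 - (x 1 ^ 2 + x 2 ^ 2))}) := rfl
  rw [h]
  exact (isClosed_le (by fun_prop) (by fun_prop)).inter
    ((isClosed_le (by fun_prop) (by fun_prop)).inter (isClosed_le (by fun_prop) (by fun_prop)))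

lemma isClosed_capP (al be e : ℝ) : IsClosed (capP al be e) := by
  have h : capP al be e = {z : ℝ × (Fin 2 → ℝ) | z.2 0 ^ 2 + z.2 1 ^ 2 ≤ e ^ 2} ∩
      ({z : ℝ × (Fin 2 → ℝ) | al - √(e ^ 2 - (z.2 0 ^ 2 + z.2 1 ^ 2)) ≤ z.1} ∩
      {z : ℝ × (Fin 2 → ℝ) | z.1 ≤ be + √(e ^ 2 - (z.2 0 ^ 2 + z.2 1 ^ 2))}) := rfl
  rw [h]
  exact (isClosed_le (by fun_prop) (by fun_prop)).inter
    ((isClosed_le (by fun_prop) (by fun_prop)).inter (isClosed_le (by fun_prop) (by fun_prop)))

lemma isClosed_disc (e : ℝ) : IsClosed (disc e) := by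
  unfold disc
  exact isClosed_le (by fun_prop) (by fun_prop)

lemma vol_cap_eq (al be e : ℝ) : volume (cap al be e) = volume (capP al be e) := by
  have h1 := (PiLp.volume_preserving_toLp (Fin 3)).measure_preimage
    (isClosed_cap al be e).measurableSet.nullMeasurableSet
  have h2 := (volume_preserving_piFinSuccAbove (fun _ : Fin 3 => ℝ) 0).measure_preimage
    (isClosed_capP al be e).measurableSet.nullMeasurableSet
  rw [← h1, ← h2]
  rfl

lemma vol_disc (e : ℝ) (he : 0 ≤ e) : volume (disc e) = ENNReal.ofReal (Real.pi * e ^ 2) := by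
  have h1 := (PiLp.volume_preserving_toLp (Fin 2)).measure_preimage
    (Metric.isClosed_closedBall (x := (0 : EuclideanSpace ℝ (Fin 2))) (ε := e)).measurableSet.nullMeasurableSet
  rw [EuclideanSpace.volume_closedBall_fin_two] at h1
  rw [← ENNReal.ofReal_pow he, ← ENNReal.ofReal_mul (by positivity)] at h1
  rw [mul_comm Real.pi, ← h1]
  congr 1
  ext y
  simp only [disc, Set.mem_ofPred_eq, Set.mem_preimage, Metric.mem_closedBall, dist_zero_right]
  rw [EuclideanSpace.norm_eq, Real.sqrt_le_left he]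
  simp [Fin.sum_univ_two]

lemma vol_capP (al be e : ℝ) (hab : al ≤ be) : volume (capP al be e) =
    ∫⁻ y in disc e, (ENNReal.ofReal (be - al) +
      ENNReal.ofReal (2 * √(e ^ 2 - (y 0 ^ 2 + y 1 ^ 2)))) := by
  rw [show (volume : Measure (ℝ × (Fin 2 → ℝ))) = (volume : Measure ℝ).prod volume from rfl]
  rw [Measure.prod_apply_symm (isClosed_capP al be e).measurableSet]
  rw [← lintegral_indicator (isClosed_disc e).measurableSet]
  apply lintegral_congr
  intro y
  by_cases hy : y ∈ disc e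
  · rw [Set.indicator_of_mem hy]
    have : (fun t : ℝ => (t, y)) ⁻¹' capP al be e =
        Set.Icc (al - √(e ^ 2 - (y 0 ^ 2 + y 1 ^ 2))) (be + √(e ^ 2 - (y 0 ^ 2 + y 1 ^ 2))) := by
      ext t
      simp only [Set.mem_preimage, capP, Set.mem_ofPred_eq, Set.mem_Icc]
      exact ⟨fun h => h.2, fun h => ⟨hy, h⟩⟩
    rw [this, Real.volume_Icc, ← ENNReal.ofReal_add (by linarith) (by positivity)]
    congr 1
    ring
  · rw [Set.indicator_of_notMem hy]
    have : (fun t : ℝ => (t, y)) ⁻¹' capP al be e = ∅ := by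
      ext t
      simp only [Set.mem_preimage, capP, Set.mem_ofPred_eq, Set.mem_empty_iff_false, iff_false]
      intro h
      exact hy h.1
    rw [this, measure_empty]

lemma cap_zero (e : ℝ) (he : 0 ≤ e) : cap 0 0 e = Metric.closedBall 0 e := by
  ext x
  simp only [cap, Set.mem_ofPred_eq, Metric.mem_closedBall, dist_zero_right]
  rw [EuclideanSpace.norm_eq, Real.sqrt_le_left he]
  simp only [Fin.sum_univ_three, Real.norm_eq_abs, sq_abs, zero_sub, zero_add]
  constructor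
  · rintro ⟨h1, h2, h3⟩
    have h4 : |x 0| ≤ √(e ^ 2 - (x 1 ^ 2 + x 2 ^ 2)) := abs_le.2 ⟨h2, h3⟩
    have h5 : 0 ≤ e ^ 2 - (x 1 ^ 2 + x 2 ^ 2) := by linarith
    have h6 : |x 0| ^ 2 ≤ e ^ 2 - (x 1 ^ 2 + x 2 ^ 2) := by
      rw [← Real.sq_sqrt h5]
      exact pow_le_pow_left₀ (abs_nonneg _) h4 2
    rw [sq_abs] at h6
    linarith
  · intro h
    have h0 := sq_nonneg (x 0)
    refine ⟨by linarith, ?_⟩
    have : |x 0| ≤ √(e ^ 2 - (x 1 ^ 2 + x 2 ^ 2)) := by
      apply Real.abs_le_sqrt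
      linarith
    exact abs_le.1 this

lemma vol_cap (al be e : ℝ) (hab : al ≤ be) (he : 0 ≤ e) : volume (cap al be e) =
    ENNReal.ofReal (4 / 3 * Real.pi * e ^ 3 + (be - al) * Real.pi * e ^ 2) := by
  have hm : Measurable fun y : Fin 2 → ℝ =>
      ENNReal.ofReal (2 * √(e ^ 2 - (y 0 ^ 2 + y 1 ^ 2))) := by
    apply ENNReal.measurable_ofReal.comp
    exact Continuous.measurable (by fun_prop)
  have h0 := vol_capP 0 0 e le_rfl
  rw [← vol_cap_eq, cap_zero e he, EuclideanSpace.volume_closedBall_fin_three] at h0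
  rw [lintegral_add_right _ hm] at h0
  simp only [sub_self, ENNReal.ofReal_zero, lintegral_zero, zero_add] at h0
  rw [vol_cap_eq, vol_capP al be e hab, lintegral_add_right _ hm, ← h0]
  rw [setLIntegral_const, vol_disc e he, ← ENNReal.ofReal_pow he,
    ← ENNReal.ofReal_mul (pow_nonneg he 3), ← ENNReal.ofReal_mul (sub_nonneg.2 hab),
    ← ENNReal.ofReal_add (mul_nonneg (by linarith) (by positivity)) (by positivity)]
  congr 1
  ring


/-! ### The two configurations -/

def vec (a b c : ℝ) : E3 := !₂[a, b, c]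

@[simp] lemma vec_0 (a b c : ℝ) : vec a b c 0 = a := rfl
@[simp] lemma vec_1 (a b c : ℝ) : vec a b c 1 = b := rfl
@[simp] lemma vec_2 (a b c : ℝ) : vec a b c 2 = c := rfl

lemma dist_sq3 (x y : E3) :
    dist x y ^ 2 = (x 0 - y 0) ^ 2 + (x 1 - y 1) ^ 2 + (x 2 - y 2) ^ 2 := by
  rw [EuclideanSpace.dist_eq, Real.sq_sqrt (by positivity)]
  simp [Fin.sum_univ_three, Real.dist_eq, sq_abs]

lemma dist_le_iff3 (x y : E3) (r : ℝ) (hr : 0 ≤ r) :
    dist x y ≤ r ↔ (x 0 - y 0) ^ 2 + (x 1 - y 1) ^ 2 + (x 2 - y 2) ^ 2 ≤ r ^ 2 := by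
  rw [← dist_sq3]
  constructor
  · intro h
    exact pow_le_pow_left₀ dist_nonneg h 2
  · intro h
    exact (pow_le_pow_iff_left₀ dist_nonneg hr two_ne_zero).1 h

lemma mem_cap_of_dist {al be e s : ℝ} (he : 0 ≤ e) (h1 : al ≤ s) (h2 : s ≤ be) {x : E3}
    (hx : dist x (vec s 0 0) ≤ e) : x ∈ cap al be e := by
  rw [dist_le_iff3 _ _ _ he] at hx
  simp only [vec_0, vec_1, vec_2, sub_zero] at hx
  have h0 := sq_nonneg (x 0 - s)
  have h3 : |x 0 - s| ≤ √(e ^ 2 - (x 1 ^ 2 + x 2 ^ 2)) := by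
    apply Real.abs_le_sqrt
    linarith
  rw [abs_le] at h3
  refine ⟨by linarith, ?_, ?_⟩ <;> linarith [h3.1, h3.2]

lemma exists_of_mem_cap {al be e : ℝ} (hab : al ≤ be) (he : 0 ≤ e) {x : E3}
    (hx : x ∈ cap al be e) : ∃ s, al ≤ s ∧ s ≤ be ∧ dist x (vec s 0 0) ≤ e := by
  obtain ⟨h1, h2, h3⟩ := hx
  have h5 : 0 ≤ e ^ 2 - (x 1 ^ 2 + x 2 ^ 2) := by linarith
  set w := √(e ^ 2 - (x 1 ^ 2 + x 2 ^ 2)) with hw
  have hw0 : 0 ≤ w := Real.sqrt_nonneg _
  have hw2 : w ^ 2 = e ^ 2 - (x 1 ^ 2 + x 2 ^ 2) := Real.sq_sqrt h5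
  rcases le_total (x 0) al with h | h
  · refine ⟨al, le_rfl, hab, ?_⟩
    rw [dist_le_iff3 _ _ _ he]
    simp only [vec_0, vec_1, vec_2, sub_zero]
    nlinarith
  · rcases le_total be (x 0) with h' | h'
    · refine ⟨be, hab, le_rfl, ?_⟩
      rw [dist_le_iff3 _ _ _ he]
      simp only [vec_0, vec_1, vec_2, sub_zero]
      nlinarith
    · refine ⟨x 0, h, h', ?_⟩
      rw [dist_le_iff3 _ _ _ he]
      simp only [vec_0, vec_1, vec_2, sub_zero, sub_self]
      nlinarith

/-- The radius: `r ^ 2 = 1025 ^ 2 + 1`. -/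
noncomputable def rad : ℝ := √(1025 ^ 2 + 1)

lemma rad_pos : 0 < rad := Real.sqrt_pos.2 (by norm_num)

lemma rad_sq : rad ^ 2 = 1025 ^ 2 + 1 := Real.sq_sqrt (by norm_num)

def pp : Fin 4 → E3 := ![vec 0 0 1025, vec 0 0 (-1025), vec 0 1025 0, vec 0 (-1025) 0]

def qq : Fin 4 → E3 := ![vec 0 0 1025, vec 0 0 (-1025), vec 0 1025 0, vec 225 (-1000) 0]

lemma contraction : ∀ i j, dist (qq i) (qq j) ≤ dist (pp i) (pp j) := by
  intro i j
  rw [← pow_le_pow_iff_left₀ dist_nonneg dist_nonneg two_ne_zero, dist_sq3, dist_sq3]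
  fin_cases i <;> fin_cases j <;> norm_num [pp, qq]

/-- The two ball polyhedra. -/
def PP : Set E3 := ⋂ i, Metric.closedBall (pp i) rad

def QQ : Set E3 := ⋂ i, Metric.closedBall (qq i) rad

lemma mem_PP (x : E3) : x ∈ PP ↔
    (x 0 ^ 2 + x 1 ^ 2 + (x 2 - 1025) ^ 2 ≤ 1025 ^ 2 + 1 ∧
     x 0 ^ 2 + x 1 ^ 2 + (x 2 + 1025) ^ 2 ≤ 1025 ^ 2 + 1) ∧
    (x 0 ^ 2 + (x 1 - 1025) ^ 2 + x 2 ^ 2 ≤ 1025 ^ 2 + 1 ∧
     x 0 ^ 2 + (x 1 + 1025) ^ 2 + x 2 ^ 2 ≤ 1025 ^ 2 + 1) := by
  simp only [PP, Set.mem_iInter, Metric.mem_closedBall, dist_le_iff3 _ _ _ rad_pos.le, rad_sq]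
  rw [Fin.forall_fin_succ, Fin.forall_fin_succ, Fin.forall_fin_succ, Fin.forall_fin_succ]
  simp [pp, and_assoc]

lemma mem_QQ (x : E3) : x ∈ QQ ↔
    (x 0 ^ 2 + x 1 ^ 2 + (x 2 - 1025) ^ 2 ≤ 1025 ^ 2 + 1 ∧
     x 0 ^ 2 + x 1 ^ 2 + (x 2 + 1025) ^ 2 ≤ 1025 ^ 2 + 1) ∧
    (x 0 ^ 2 + (x 1 - 1025) ^ 2 + x 2 ^ 2 ≤ 1025 ^ 2 + 1 ∧
     (x 0 - 225) ^ 2 + (x 1 + 1000) ^ 2 + x 2 ^ 2 ≤ 1025 ^ 2 + 1) := by
  simp only [QQ, Set.mem_iInter, Metric.mem_closedBall, dist_le_iff3 _ _ _ rad_pos.le, rad_sq]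
  rw [Fin.forall_fin_succ, Fin.forall_fin_succ, Fin.forall_fin_succ, Fin.forall_fin_succ]
  simp [qq, and_assoc]

lemma body_props (c : Fin 4 → E3) : IsCompact (⋂ i, Metric.closedBall (c i) rad) ∧
    Convex ℝ (⋂ i, Metric.closedBall (c i) rad) := by
  constructor
  · have hcl : IsClosed (⋂ i, Metric.closedBall (c i) rad) :=
      isClosed_iInter fun i => Metric.isClosed_closedBall
    exact (isCompact_closedBall (c 0) rad).of_isClosed_subset hcl (Set.iInter_subset _ 0)
  · exact convex_iInter fun i => convex_closedBall _ _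

lemma axis_mem_PP {s : ℝ} (h1 : -1 ≤ s) (h2 : s ≤ 1) : vec s 0 0 ∈ PP := by
  rw [mem_PP]
  simp only [vec_0, vec_1, vec_2]
  have : s ^ 2 ≤ 1 := by nlinarith
  refine ⟨⟨?_, ?_⟩, ?_, ?_⟩ <;> nlinarith

lemma zero_mem_QQ : vec 0 0 0 ∈ QQ := by
  rw [mem_QQ]
  simp only [vec_0, vec_1, vec_2]
  norm_num

lemma PP_near {x : E3} (hx : x ∈ PP) : dist x (vec 0 0 0) ≤ 1 := by
  rw [mem_PP] at hx
  obtain ⟨⟨h1, h2⟩, h3, h4⟩ := hx
  rw [dist_le_iff3 _ _ _ zero_le_one]
  simp only [vec_0, vec_1, vec_2, sub_zero]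
  nlinarith

lemma QQ_near {x : E3} (hx : x ∈ QQ) : ∃ s, 0 ≤ s ∧ s ≤ 1 ∧ dist x (vec s 0 0) ≤ 0.226 := by
  rw [mem_QQ] at hx
  obtain ⟨⟨h1, h2⟩, h3, h4⟩ := hx
  have n0 := sq_nonneg (x 0)
  have n1 := sq_nonneg (x 1)
  have n2 := sq_nonneg (x 2)
  have hn : x 0 ^ 2 + x 1 ^ 2 + x 2 ^ 2 ≤ 1 := by linarith
  have a2 : x 2 ≤ 1 / 2050 := by linarith
  have a2' : -(1 / 2050) ≤ x 2 := by linarith
  have a1 : -(1 / 2050) ≤ x 1 := by linarith
  have a3 : 1000 * x 1 ≤ 225 * x 0 + 1 / 2 := by linarith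
  have a0 : x 0 ≤ 1 := by
    have : x 0 ^ 2 ≤ 1 := by linarith
    exact (abs_le_one_iff_mul_self_le_one.2 (by rw [← sq]; exact this) |> abs_le.1).2
  have a0' : -(0.0044 : ℝ) ≤ x 0 := by linarith
  have a1' : x 1 ≤ 0.2255 := by linarith
  have b2 : x 2 ^ 2 ≤ (1 / 2050) ^ 2 := sq_le_sq' a2' a2
  have b1 : x 1 ^ 2 ≤ 0.2255 ^ 2 := sq_le_sq' (by linarith) a1'
  rcases le_total 0 (x 0) with h | h
  · refine ⟨x 0, h, a0, ?_⟩
    rw [dist_le_iff3 _ _ _ (by norm_num)]
    simp only [vec_0, vec_1, vec_2, sub_zero, sub_self]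
    norm_num at b1 b2 ⊢
    linarith
  · refine ⟨0, le_rfl, zero_le_one, ?_⟩
    rw [dist_le_iff3 _ _ _ (by norm_num)]
    simp only [vec_0, vec_1, vec_2, sub_zero]
    have b0 : x 0 ^ 2 ≤ 0.0044 ^ 2 := sq_le_sq' a0' (by linarith)
    norm_num at b0 b1 b2 ⊢
    linarith

lemma vol_PP_lower {e : ℝ} (he : 0 < e) :
    4 / 3 * Real.pi * e ^ 3 + 2 * Real.pi * e ^ 2 ≤
      (volume (Metric.cthickening e PP)).toReal := by
  have hfin : volume (Metric.cthickening e PP) < ⊤ :=
    (body_props pp).1.isBounded.cthickening.measure_lt_top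
  have hsub : cap (-1) 1 e ⊆ Metric.cthickening e PP := by
    intro x hx
    obtain ⟨s, h1, h2, h3⟩ := exists_of_mem_cap (by norm_num) he.le hx
    exact Metric.mem_cthickening_of_dist_le x (vec s 0 0) e PP (axis_mem_PP h1 h2) h3
  have h := measure_mono (μ := volume) hsub
  rw [vol_cap _ _ _ (by norm_num) he.le] at h
  have h2 := ENNReal.toReal_mono hfin.ne h
  rw [ENNReal.toReal_ofReal (by have := Real.pi_pos; positivity)] at h2
  linarith

lemma mem_near {K : Set E3} (hK : IsCompact K) {e : ℝ} (he : 0 ≤ e)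
    {x : E3} (hx : x ∈ Metric.cthickening e K) : ∃ y ∈ K, dist x y ≤ e := by
  rw [hK.cthickening_eq_biUnion_closedBall he] at hx
  simpa using hx

lemma vol_PP_upper {e : ℝ} (he : 0 < e) :
    (volume (Metric.cthickening e PP)).toReal ≤ 4 / 3 * Real.pi * (e + 1) ^ 3 := by
  have hsub : Metric.cthickening e PP ⊆ cap 0 0 (e + 1) := by
    intro x hx
    obtain ⟨y, hy, hxy⟩ := mem_near (body_props pp).1 he.le hx
    apply mem_cap_of_dist (by linarith) le_rfl le_rfl
    exact (dist_triangle x y _).trans (add_le_add hxy (PP_near hy))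
  have h := measure_mono (μ := volume) hsub
  rw [vol_cap _ _ _ le_rfl (by linarith)] at h
  have h2 := ENNReal.toReal_mono ENNReal.ofReal_ne_top h
  rw [ENNReal.toReal_ofReal (by have := Real.pi_pos; positivity)] at h2
  linarith

lemma vol_QQ_upper {e : ℝ} (he : 0 < e) :
    (volume (Metric.cthickening e QQ)).toReal ≤
      4 / 3 * Real.pi * (e + 0.226) ^ 3 + Real.pi * (e + 0.226) ^ 2 := by
  have hsub : Metric.cthickening e QQ ⊆ cap 0 1 (e + 0.226) := by
    intro x hx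
    obtain ⟨y, hy, hxy⟩ := mem_near (body_props qq).1 he.le hx
    obtain ⟨s, h1, h2, h3⟩ := QQ_near hy
    apply mem_cap_of_dist (by linarith) h1 h2
    exact (dist_triangle x y _).trans (add_le_add hxy h3)
  have h := measure_mono (μ := volume) hsub
  rw [vol_cap _ _ _ zero_le_one (by linarith)] at h
  have h2 := ENNReal.toReal_mono ENNReal.ofReal_ne_top h
  rw [ENNReal.toReal_ofReal (by have := Real.pi_pos; positivity)] at h2
  linarith

lemma vol_QQ_lower {e : ℝ} (he : 0 < e) :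
    4 / 3 * Real.pi * e ^ 3 ≤ (volume (Metric.cthickening e QQ)).toReal := by
  have hfin : volume (Metric.cthickening e QQ) < ⊤ :=
    (body_props qq).1.isBounded.cthickening.measure_lt_top
  have hsub : cap 0 0 e ⊆ Metric.cthickening e QQ := by
    intro x hx
    obtain ⟨s, h1, h2, h3⟩ := exists_of_mem_cap le_rfl he.le hx
    have : s = 0 := le_antisymm h2 h1
    subst this
    exact Metric.mem_cthickening_of_dist_le x (vec 0 0 0) e QQ zero_mem_QQ h3
  have h := measure_mono (μ := volume) hsub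
  rw [vol_cap _ _ _ le_rfl he.le] at h
  have h2 := ENNReal.toReal_mono hfin.ne h
  rw [ENNReal.toReal_ofReal (by have := Real.pi_pos; positivity)] at h2
  linarith

lemma lead3 {c0 c1 c2 c3 : ℝ} (h : ∀ e : ℝ, 0 < e → 0 ≤ c0 + c1 * e + c2 * e ^ 2 + c3 * e ^ 3) :
    0 ≤ c3 := by
  by_contra hc
  push Not at hc
  set S := |c0| + |c1| + |c2| with hS
  have hS0 : 0 ≤ S := by positivity
  set e := 1 + S / (-c3) with he
  have hd : 0 ≤ S / (-c3) := div_nonneg hS0 (by linarith)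
  have he1 : 1 ≤ e := by linarith
  have h1 := h e (by linarith)
  have hce : c3 * e = c3 - S := by
    rw [he, div_neg, mul_add, mul_neg, mul_div_cancel₀ _ hc.ne, mul_one]
    ring
  have i0 : c0 ≤ |c0| * e ^ 2 := by
    have : 1 ≤ e ^ 2 := one_le_pow₀ he1
    nlinarith [le_abs_self c0, abs_nonneg c0]
  have i1 : c1 * e ≤ |c1| * e ^ 2 := by
    have : e ≤ e ^ 2 := by nlinarith
    nlinarith [le_abs_self c1, abs_nonneg c1]
  have i2 : c2 * e ^ 2 ≤ |c2| * e ^ 2 := by
    have : 0 ≤ e ^ 2 := by positivity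
    nlinarith [le_abs_self c2, abs_nonneg c2]
  have i3 : c3 * e ^ 3 = (c3 - S) * e ^ 2 := by rw [← hce]; ring
  have : 0 < e ^ 2 := by positivity
  nlinarith

lemma lead2 {c0 c1 c2 : ℝ} (h : ∀ e : ℝ, 0 < e → 0 ≤ c0 + c1 * e + c2 * e ^ 2) : 0 ≤ c2 := by
  apply lead3 (c0 := 0) (c1 := c0) (c2 := c1) (c3 := c2)
  intro e he
  have := mul_nonneg he.le (h e he)
  nlinarith

/-- The negation of the preceding statement: Points q contracting points p in d-space, for radius r>0 and 1≤k≤d: the ε^(d-k) Steiner coefficient (κ_(d-k)·V_k) of the ball intersection ∩B(p_i,r) is at most that of ∩B(q_i,r). -/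
theorem result :
    ¬ (∀ (d k N : ℕ) (r : ℝ), 1 ≤ k → k ≤ d → 1 < N → 0 < r →
      ∀ p q : Fin N → EuclideanSpace ℝ (Fin d),
        (∀ i j, dist (q i) (q j) ≤ dist (p i) (p j)) →
        ∀ a b : ℕ → ℝ,
          (∀ ε : ℝ, 0 < ε →
            (volume (Metric.cthickening ε (⋂ i, Metric.closedBall (p i) r))).toReal
              = ∑ j ∈ Finset.range (d + 1), a j * ε ^ j) →
          (∀ ε : ℝ, 0 < ε →
            (volume (Metric.cthickening ε (⋂ i, Metric.closedBall (q i) r))).toReal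
              = ∑ j ∈ Finset.range (d + 1), b j * ε ^ j) →
          a (d - k) ≤ b (d - k)) := by
  intro H
  obtain ⟨a, ha⟩ := steiner (body_props pp).1 (body_props pp).2 ⟨_, axis_mem_PP (s := 0)
    (by norm_num) (by norm_num)⟩
  obtain ⟨b, hb⟩ := steiner (body_props qq).1 (body_props qq).2 ⟨_, zero_mem_QQ⟩
  have key := H 3 1 4 rad (by norm_num) (by norm_num) (by norm_num) rad_pos pp qq contraction
    a b ha hb
  have key' : a 2 ≤ b 2 := key
  have ha' : ∀ e : ℝ, 0 < e → (volume (Metric.cthickening e PP)).toReal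
      = a 0 + a 1 * e + a 2 * e ^ 2 + a 3 * e ^ 3 := by
    intro e he
    have h1 := ha e he
    rw [Finset.sum_range_succ, Finset.sum_range_succ, Finset.sum_range_succ,
      Finset.sum_range_succ, Finset.sum_range_zero] at h1
    rw [PP, h1]
    ring
  have hb' : ∀ e : ℝ, 0 < e → (volume (Metric.cthickening e QQ)).toReal
      = b 0 + b 1 * e + b 2 * e ^ 2 + b 3 * e ^ 3 := by
    intro e he
    have h1 := hb e he
    rw [Finset.sum_range_succ, Finset.sum_range_succ, Finset.sum_range_succ,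
      Finset.sum_range_succ, Finset.sum_range_zero] at h1
    rw [QQ, h1]
    ring
  have A3 : 0 ≤ 4 / 3 * Real.pi - a 3 := by
    apply lead3 (c0 := 4 / 3 * Real.pi - a 0) (c1 := 4 * Real.pi - a 1)
      (c2 := 4 * Real.pi - a 2)
    intro e he
    have h1 := vol_PP_upper he
    rw [ha' e he] at h1
    nlinarith
  have B3 : 0 ≤ b 3 - 4 / 3 * Real.pi := by
    apply lead3 (c0 := b 0) (c1 := b 1) (c2 := b 2)
    intro e he
    have h1 := vol_QQ_lower he
    rw [hb' e he] at h1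
    nlinarith
  have C2 : 0 ≤ a 2 - b 2 - (1 - 4 * 0.226) * Real.pi := by
    apply lead2 (c0 := a 0 - b 0 + 4 / 3 * Real.pi * 0.226 ^ 3 + Real.pi * 0.226 ^ 2)
      (c1 := a 1 - b 1 + 4 * Real.pi * 0.226 ^ 2 + 2 * Real.pi * 0.226)
    intro e he
    have h1 := vol_PP_lower he
    have h2 := vol_QQ_upper he
    rw [ha' e he] at h1
    rw [hb' e he] at h2
    have h3 : 0 ≤ (b 3 - a 3) * e ^ 3 := mul_nonneg (by linarith) (by positivity)
    nlinarith
  have hpi := Real.pi_pos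
  nlinarith

end Pool.Agent.S07882
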