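import Pool.Statements.S07915

set_option autoImplicit false
open Pool Pool.MP_f6f5a0_co

namespace Pool.Agent.S07915.LS

open Finset

/-- The character of the real line with period one. -/
noncomputable def e (t : ℝ) : ℂ := Complex.exp (((2 * Real.pi * t : ℝ) : ℂ) * Complex.I)

lemma e_add (s t : ℝ) : e (s + t) = e s * e t := by
  unfold e
  rw [← Complex.exp_add]
  congr 1
  push_cast
  ring

lemma e_zero : e 0 = 1 := by simp [e]

lemma e_sum {ι : Type*} (s : Finset ι) (f : ι → ℝ) : e (∑ i ∈ s, f i) = ∏ i ∈ s, e (f i) := by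
  classical
  induction s using Finset.induction_on with
  | empty => simp [e_zero]
  | insert a s ha ih => rw [Finset.sum_insert ha, Finset.prod_insert ha, e_add, ih]

lemma e_nat_mul (n : ℕ) (x : ℝ) : e (n * x) = e x ^ n := by
  have := e_sum (Finset.range n) (fun _ => x)
  simpa using this

lemma e_eq_one_iff (x : ℝ) : e x = 1 ↔ ∃ n : ℤ, x = n := by
  unfold e
  rw [Complex.exp_eq_one_iff]
  constructor
  · rintro ⟨n, hn⟩
    refine ⟨n, ?_⟩
    have h2 : ((2 * Real.pi * x : ℝ) : ℂ) * Complex.I = ((2 * Real.pi * n : ℝ) : ℂ) * Complex.I := by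
      rw [hn]; push_cast; ring
    have h3 : ((2 * Real.pi * x : ℝ) : ℂ) = ((2 * Real.pi * n : ℝ) : ℂ) :=
      mul_right_cancel₀ Complex.I_ne_zero h2
    have h4 : 2 * Real.pi * x = 2 * Real.pi * n := by exact_mod_cast h3
    have := Real.pi_pos
    exact mul_left_cancel₀ (by positivity) h4
  · rintro ⟨n, rfl⟩
    refine ⟨n, ?_⟩
    push_cast; ring

lemma e_int (n : ℤ) : e n = 1 := (e_eq_one_iff _).2 ⟨n, rfl⟩

lemma e_re (t : ℝ) : (e t).re = Real.cos (2 * Real.pi * t) := by
  unfold e; exact Complex.exp_ofReal_mul_I_re _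

lemma e_im (t : ℝ) : (e t).im = Real.sin (2 * Real.pi * t) := by
  unfold e; exact Complex.exp_ofReal_mul_I_im _

lemma sum_e_zero (Q : ℕ) (hQ : 0 < Q) (n : ℤ) (h : ¬ (Q : ℤ) ∣ n) :
    ∑ t : Fin Q, e (((t : ℕ) : ℝ) * n / Q) = 0 := by
  have h1 : ∀ t : Fin Q, e (((t : ℕ) : ℝ) * n / Q) = e ((n : ℝ) / Q) ^ (t : ℕ) := by
    intro t
    rw [← e_nat_mul, mul_div_assoc]
  simp_rw [h1]
  rw [Fin.sum_univ_eq_sum_range (fun i => e ((n : ℝ) / Q) ^ i) Q]
  have hne : e ((n : ℝ) / Q) ≠ 1 := by
    intro h2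
    rw [e_eq_one_iff] at h2
    obtain ⟨m, hm⟩ := h2
    apply h
    refine ⟨m, ?_⟩
    have hQ' : (Q : ℝ) ≠ 0 := by positivity
    field_simp at hm
    have : (n : ℝ) = ((Q * m : ℤ) : ℝ) := by push_cast; linarith
    exact_mod_cast this
  rw [geom_sum_eq hne]
  have : e ((n : ℝ) / Q) ^ Q = 1 := by
    rw [← e_nat_mul]
    have hQ' : (Q : ℝ) ≠ 0 := by positivity
    rw [mul_div_cancel₀ _ hQ']
    exact e_int n
  rw [this]; simp

/-- The Fourier identity: if no choice function has balanced total modulo `Q`,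
the sum of all the products vanishes. -/
theorem fourier {J C ι : Type*} [Fintype J] [DecidableEq J] [Fintype C] [Fintype ι]
    [DecidableEq ι] (Q : ℕ) (hQ : 0 < Q) (M : J → C → ι → ℤ)
    (h : ∀ g : J → C, ∃ i, ¬ (Q : ℤ) ∣ ∑ j, M j (g j) i) :
    ∑ τ : ι → Fin Q, ∏ j, ∑ c, e (∑ i, ((τ i : ℕ) : ℝ) * M j c i / Q) = 0 := by
  have key : ∀ τ : ι → Fin Q, (∏ j, ∑ c, e (∑ i, ((τ i : ℕ) : ℝ) * M j c i / Q))
      = ∑ g : J → C, ∏ i, e (((τ i : ℕ) : ℝ) * ((∑ j, M j (g j) i : ℤ) : ℝ) / Q) := by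
    intro τ
    rw [Finset.prod_univ_sum, Fintype.piFinset_univ]
    refine Finset.sum_congr rfl fun g _ => ?_
    rw [← e_sum, ← e_sum, Finset.sum_comm]
    congr 1
    refine Finset.sum_congr rfl fun i _ => ?_
    push_cast
    rw [Finset.mul_sum, Finset.sum_div]
  simp_rw [key]
  rw [Finset.sum_comm]
  refine Finset.sum_eq_zero fun g _ => ?_
  obtain ⟨i, hi⟩ := h g
  have h2 := Finset.prod_univ_sum (fun _ : ι => (Finset.univ : Finset (Fin Q)))
    (fun (i : ι) (t : Fin Q) => e (((t : ℕ) : ℝ) * ((∑ j, M j (g j) i : ℤ) : ℝ) / Q))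
  rw [Fintype.piFinset_univ] at h2
  rw [← h2]
  exact Finset.prod_eq_zero (Finset.mem_univ i) (sum_e_zero Q hQ _ hi)

/-- Final contradiction scheme. -/
lemma sum_ne_zero_of_near {T : Type*} [Fintype T] [DecidableEq T] (φ : T → ℂ) (near : T → Prop)
    (t0 : T) (h0 : φ t0 = 1) (hnear : ∀ t, near t → 0 ≤ (φ t).re) (δ : ℝ) (hδ0 : 0 < δ)
    (hfar : ∀ t, ¬ near t → ‖φ t‖ ≤ δ) (hδ : Fintype.card T * δ ≤ 1) :
    ∑ t, φ t ≠ 0 := by
  intro hs
  have h1 : (∑ t, φ t).re = ∑ t, (φ t).re := Complex.re_sum _ _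
  rw [hs] at h1
  have h2 : ∀ t, (if t = t0 then 1 + δ else 0) - δ ≤ (φ t).re := by
    intro t
    by_cases ht : t = t0
    · subst ht; simp [h0]
    · simp only [ht, if_false]
      by_cases hn : near t
      · have := hnear t hn; linarith
      · have := hfar t hn
        have h3 := Complex.abs_re_le_norm (φ t)
        have h4 := neg_abs_le (φ t).re
        linarith
  have h3 := Finset.sum_le_sum (s := Finset.univ) fun t _ => h2 t
  rw [← h1, Finset.sum_sub_distrib] at h3
  simp only [Finset.sum_ite_eq', Finset.mem_univ, if_true, Finset.sum_const, Finset.card_univ,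
    nsmul_eq_mul, Complex.zero_re] at h3
  linarith

/-- `1 - cos (2 pi t)`. -/
noncomputable def s (t : ℝ) : ℝ := 1 - Real.cos (2 * Real.pi * t)

lemma s_nonneg (t : ℝ) : 0 ≤ s t := by
  unfold s; linarith [Real.cos_le_one (2 * Real.pi * t)]

lemma norm_three_le (x y : ℝ) :
    ‖(e x + e y + e (-x - y)) / 3‖ ≤ Real.exp (-((s (x - y) + s (2 * x + y)) / 9)) := by
  have hsq : ‖(e x + e y + e (-x - y)) / 3‖ ^ 2
      = (3 + 2 * (Real.cos (2 * Real.pi * (x - y)) + Real.cos (2 * Real.pi * (2 * x + y))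
        + Real.cos (2 * Real.pi * (x + 2 * y)))) / 9 := by
    rw [norm_div, div_pow, ← Complex.normSq_eq_norm_sq, Complex.normSq_apply]
    simp only [Complex.add_re, Complex.add_im, e_re, e_im]
    have e1 : 2 * Real.pi * (x - y) = 2 * Real.pi * x - 2 * Real.pi * y := by ring
    have e2 : 2 * Real.pi * (2 * x + y) = 2 * Real.pi * x - 2 * Real.pi * (-x - y) := by ring
    have e3 : 2 * Real.pi * (x + 2 * y) = 2 * Real.pi * y - 2 * Real.pi * (-x - y) := by ring
    rw [e1, e2, e3, Real.cos_sub, Real.cos_sub, Real.cos_sub]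
    have p1 := Real.sin_sq_add_cos_sq (2 * Real.pi * x)
    have p2 := Real.sin_sq_add_cos_sq (2 * Real.pi * y)
    have p3 := Real.sin_sq_add_cos_sq (2 * Real.pi * (-x - y))
    have h3 : ‖(3 : ℂ)‖ ^ 2 = 9 := by norm_num
    rw [h3]
    linear_combination (1 / 9 : ℝ) * (p1 + p2 + p3)
  have hle : ‖(e x + e y + e (-x - y)) / 3‖ ^ 2
      ≤ (Real.exp (-((s (x - y) + s (2 * x + y)) / 9))) ^ 2 := by
    rw [hsq, ← Real.exp_nat_mul]
    have h1 := Real.cos_le_one (2 * Real.pi * (x + 2 * y))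
    have h2 := Real.add_one_le_exp (((2 : ℕ) : ℝ) * -((s (x - y) + s (2 * x + y)) / 9))
    refine le_trans ?_ h2
    unfold s
    push_cast
    linarith
  exact le_of_sq_le_sq hle (Real.exp_pos _).le
where
  le_of_sq_le_sq {a b : ℝ} (h : a ^ 2 ≤ b ^ 2) (hb : 0 ≤ b) : a ≤ b := by
    exact abs_le_of_sq_le_sq' h hb |>.2

lemma s_lower (t : ℝ) : 8 * (t - round t) ^ 2 ≤ s t := by
  have h1 : |t - round t| ≤ 1 / 2 := abs_sub_round t
  have h2 : s t = 1 - Real.cos (2 * Real.pi * (t - round t)) := by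
    unfold s
    congr 1
    have : 2 * Real.pi * (t - round t) = 2 * Real.pi * t - (round t : ℤ) * (2 * Real.pi) := by
      push_cast; ring
    rw [this, Real.cos_sub_int_mul_two_pi]
  rw [h2]
  have h3 : |2 * Real.pi * (t - round t)| ≤ Real.pi := by
    rw [abs_mul, abs_of_pos (by positivity : (0:ℝ) < 2 * Real.pi)]
    have := Real.pi_pos
    nlinarith
  have h4 := Real.cos_le_one_sub_mul_cos_sq h3
  have h5 : 2 / Real.pi ^ 2 * (2 * Real.pi * (t - round t)) ^ 2 = 8 * (t - round t) ^ 2 := by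
    have := Real.pi_pos.ne'
    field_simp
    ring
  linarith

/-- The local factor. -/
noncomputable def G (a b : ℝ) : ℂ := (e ((a + b) / 3) + e ((b - 2 * a) / 3) + e ((a - 2 * b) / 3)) / 3

lemma G_im (a b η : ℝ) (ha : |a| ≤ η) (hb : |b| ≤ η) :
    |(G a b).im| ≤ 14 * η * (a ^ 2 + b ^ 2) := by
  have him : (G a b).im = (Real.sin (2 * Real.pi * ((a + b) / 3))
      + Real.sin (2 * Real.pi * ((b - 2 * a) / 3)) + Real.sin (2 * Real.pi * ((a - 2 * b) / 3))) / 3 := by
    unfold G
    have : (3 : ℂ) = ((3 : ℝ) : ℂ) := by norm_num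
    rw [this, Complex.div_ofReal_im]
    simp only [Complex.add_im, e_im]
  have hη : 0 ≤ η := le_trans (abs_nonneg _) ha
  obtain ⟨ha1, ha2⟩ := abs_le.1 ha
  obtain ⟨hb1, hb2⟩ := abs_le.1 hb
  have hc : ∀ p : ℝ, |p| ≤ η → |2 * Real.pi * p - Real.sin (2 * Real.pi * p)| ≤ 42 * η * p ^ 2 := by
    intro p hp
    have h1 := Real.abs_sub_sin_le (2 * Real.pi * p)
    refine h1.trans ?_
    have h2 : |2 * Real.pi * p| ^ 3 / 6 = 8 * Real.pi ^ 3 / 6 * (|p| * p ^ 2) := by
      rw [abs_mul, abs_of_pos (by positivity : (0:ℝ) < 2 * Real.pi), ← sq_abs p]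
      ring
    rw [h2]
    have h3 : 8 * Real.pi ^ 3 / 6 ≤ 42 := by
      have h4 := Real.pi_lt_d2
      have h5 := Real.pi_pos
      have h6 : Real.pi ^ 3 ≤ (3.15 : ℝ) ^ 3 := pow_le_pow_left₀ h5.le h4.le 3
      norm_num at h6 ⊢
      linarith
    have h7 : |p| * p ^ 2 ≤ η * p ^ 2 := mul_le_mul_of_nonneg_right hp (sq_nonneg p)
    have h8 : 0 ≤ |p| * p ^ 2 := by positivity
    calc 8 * Real.pi ^ 3 / 6 * (|p| * p ^ 2) ≤ 42 * (|p| * p ^ 2) :=
          mul_le_mul_of_nonneg_right h3 h8
      _ ≤ 42 * (η * p ^ 2) := by linarith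
      _ = 42 * η * p ^ 2 := by ring
  have q1 := hc ((a + b) / 3) (by rw [abs_le]; constructor <;> linarith)
  have q2 := hc ((b - 2 * a) / 3) (by rw [abs_le]; constructor <;> linarith)
  have q3 := hc ((a - 2 * b) / 3) (by rw [abs_le]; constructor <;> linarith)
  rw [him]
  rw [abs_le] at q1 q2 q3 ⊢
  have hkey : η * ((a + b) / 3) ^ 2 + η * ((b - 2 * a) / 3) ^ 2 + η * ((a - 2 * b) / 3) ^ 2
      ≤ η * (a ^ 2 + b ^ 2) := by
    have : ((a + b) / 3) ^ 2 + ((b - 2 * a) / 3) ^ 2 + ((a - 2 * b) / 3) ^ 2 ≤ a ^ 2 + b ^ 2 := by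
      nlinarith [sq_nonneg (a + b)]
    nlinarith
  have hsum : 2 * Real.pi * ((a + b) / 3) + 2 * Real.pi * ((b - 2 * a) / 3)
      + 2 * Real.pi * ((a - 2 * b) / 3) = 0 := by ring
  constructor <;> nlinarith

lemma G_re (a b η : ℝ) (hη : η ≤ 1 / 100) (ha : |a| ≤ η) (hb : |b| ≤ η) : 1 / 2 ≤ (G a b).re := by
  have hre : (G a b).re = (Real.cos (2 * Real.pi * ((a + b) / 3))
      + Real.cos (2 * Real.pi * ((b - 2 * a) / 3)) + Real.cos (2 * Real.pi * ((a - 2 * b) / 3))) / 3 := by
    unfold G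
    have : (3 : ℂ) = ((3 : ℝ) : ℂ) := by norm_num
    rw [this, Complex.div_ofReal_re]
    simp only [Complex.add_re, e_re]
  obtain ⟨ha1, ha2⟩ := abs_le.1 ha
  obtain ⟨hb1, hb2⟩ := abs_le.1 hb
  have hc : ∀ p : ℝ, |p| ≤ 1 / 100 → 1 / 2 ≤ Real.cos (2 * Real.pi * p) := by
    intro p hp
    have h1 : 1 - (2 * Real.pi * p) ^ 2 / 2 ≤ Real.cos (2 * Real.pi * p) :=
      Real.one_sub_sq_div_two_le_cos
    have h4 := Real.pi_lt_d2
    have h5 := Real.pi_pos
    have h6 : Real.pi ^ 2 ≤ (3.15 : ℝ) ^ 2 := pow_le_pow_left₀ h5.le h4.le 2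
    have h7 : p ^ 2 ≤ (1 / 100) ^ 2 := by
      rw [← sq_abs p]; exact pow_le_pow_left₀ (abs_nonneg _) hp 2
    have h8 : Real.pi ^ 2 * p ^ 2 ≤ (3.15 : ℝ) ^ 2 * (1 / 100) ^ 2 :=
      mul_le_mul h6 h7 (sq_nonneg _) (by positivity)
    have h9 : (2 * Real.pi * p) ^ 2 / 2 = 2 * (Real.pi ^ 2 * p ^ 2) := by ring
    rw [h9] at h1
    norm_num at h8
    linarith
  have q1 := hc ((a + b) / 3) (by rw [abs_le]; constructor <;> linarith)
  have q2 := hc ((b - 2 * a) / 3) (by rw [abs_le]; constructor <;> linarith)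
  have q3 := hc ((a - 2 * b) / 3) (by rw [abs_le]; constructor <;> linarith)
  rw [hre]
  linarith

/-- Product of complex numbers of small total argument has positive real part. -/
lemma prod_re_pos {J : Type*} (K : Finset J) (z : J → ℂ) (hre : ∀ j ∈ K, 1 / 2 ≤ (z j).re)
    (hsum : ∑ j ∈ K, |(z j).im| ≤ 1 / 4) : 0 < (∏ j ∈ K, z j).re := by
  have hz : ∀ j ∈ K, z j = ((z j).re : ℂ) * (1 + ((((z j).im / (z j).re : ℝ) : ℂ) * Complex.I)) := by
    intro j hj
    have h1 : (z j).re ≠ 0 := by have := hre j hj; intro h; rw [h] at this; norm_num at this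
    apply Complex.ext
    · simp
    · simp [mul_div_cancel₀ _ h1]
  rw [Finset.prod_congr rfl hz, Finset.prod_mul_distrib, ← Complex.ofReal_prod, Complex.re_ofReal_mul]
  have hpos : 0 < ∏ j ∈ K, (z j).re := Finset.prod_pos fun j hj => by have := hre j hj; linarith
  refine mul_pos hpos ?_
  have h2 := Finset.norm_prod_one_add_sub_one_le K (fun j => ((((z j).im / (z j).re : ℝ) : ℂ) * Complex.I))
  have h3 : ∑ j ∈ K, ‖((((z j).im / (z j).re : ℝ) : ℂ) * Complex.I)‖ ≤ 1 / 2 := by
    calc ∑ j ∈ K, ‖((((z j).im / (z j).re : ℝ) : ℂ) * Complex.I)‖ ≤ ∑ j ∈ K, 2 * |(z j).im| := by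
          refine Finset.sum_le_sum fun j hj => ?_
          rw [norm_mul, Complex.norm_I, mul_one, Complex.norm_real, Real.norm_eq_abs, abs_div]
          have := hre j hj
          have h4 : |(z j).re| = (z j).re := abs_of_nonneg (by linarith)
          rw [h4, div_le_iff₀ (by linarith)]
          nlinarith [abs_nonneg (z j).im]
      _ = 2 * ∑ j ∈ K, |(z j).im| := by rw [Finset.mul_sum]
      _ ≤ 1 / 2 := by linarith
  have h5 : Real.exp (1 / 2) - 1 < 1 := by
    have h6 := Real.exp_one_lt_d9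
    have h7 : Real.exp (1 / 2) ^ 2 = Real.exp 1 := by
      rw [← Real.exp_nat_mul]; norm_num
    have h8 := Real.exp_pos (1 / 2)
    nlinarith
  have h6 : ‖∏ j ∈ K, (1 + ((((z j).im / (z j).re : ℝ) : ℂ) * Complex.I)) - 1‖ < 1 := by
    refine lt_of_le_of_lt h2 (lt_of_le_of_lt ?_ h5)
    have := Real.exp_le_exp.2 h3
    linarith
  have h7 := Complex.abs_re_le_norm (∏ j ∈ K, (1 + ((((z j).im / (z j).re : ℝ) : ℂ) * Complex.I)) - 1)
  rw [Complex.sub_re, Complex.one_re] at h7
  have h8 := neg_abs_le ((∏ j ∈ K, (1 + ((((z j).im / (z j).re : ℝ) : ℂ) * Complex.I))).re - 1)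
  linarith

/-- The sum of a two variable function over all ordered pairs of a set. -/
def dsum {V A : Type*} [AddCommMonoid A] (U : V → V → A) (S : Finset V) : A :=
  ∑ a ∈ S, ∑ b ∈ S, U a b

section spread

variable {V A : Type*} [DecidableEq V]

lemma dsum_insert [AddCommGroup A] (U : V → V → A) (R : Finset V) (a : V) (ha : a ∉ R) :
    dsum U (insert a R) = dsum U R + U a a + ∑ c ∈ R, (U a c + U c a) := by
  unfold dsum
  rw [Finset.sum_insert ha, Finset.sum_insert ha]
  have : ∀ c ∈ R, ∑ b ∈ insert a R, U c b = U c a + ∑ b ∈ R, U c b := by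
    intro c _; rw [Finset.sum_insert ha]
  rw [Finset.sum_congr rfl this, Finset.sum_add_distrib, Finset.sum_add_distrib]
  abel

variable [SeminormedAddCommGroup A] [Fintype V]

/-- If `t` is nearly constant on a set, its sums over equinumerous subsets are close. -/
lemma norm_sum_sub_sum_le (t : V → A) (δ : ℝ) (R R' : Finset V) (hc : R.card = R'.card)
    (h : ∀ c ∈ R, ∀ c' ∈ R', ‖t c - t c'‖ ≤ δ) :
    ‖∑ c ∈ R, t c - ∑ c ∈ R', t c‖ ≤ R.card * δ := by
  have f := Finset.equivOfCardEq hc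
  have h1 : ∑ c ∈ R', t c = ∑ c : R, t (f c : V) := by
    rw [← Finset.sum_coe_sort R' t]
    exact (Equiv.sum_comp f (fun c : R' => t (c : V))).symm
  rw [h1, ← Finset.sum_coe_sort R t, ← Finset.sum_sub_distrib]
  refine (norm_sum_le _ _).trans ?_
  have : ∀ c ∈ (Finset.univ : Finset R), ‖t (c : V) - t (f c : V)‖ ≤ δ := fun c _ =>
    h c c.2 (f c) (f c).2
  refine (Finset.sum_le_sum this).trans ?_
  simp

/-- From few bad sets, find a set of size `k - 2` for which all four extensions are good. -/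
lemma exists_good (k : ℕ) (bad : Finset (Finset V))
    (hbad : 4 * bad.card < (Fintype.card V - 4).choose (k - 2))
    (a b c d : V) (hab : a ≠ b) (hac : a ≠ c) (had : a ≠ d) (hbc : b ≠ c) (hbd : b ≠ d)
    (hcd : c ≠ d) :
    ∃ R : Finset V, R.card = k - 2 ∧ a ∉ R ∧ b ∉ R ∧ c ∉ R ∧ d ∉ R ∧
      insert a (insert c R) ∉ bad ∧ insert a (insert d R) ∉ bad ∧
      insert b (insert c R) ∉ bad ∧ insert b (insert d R) ∉ bad := by
  classical
  set W : Finset V := Finset.univ \ {a, b, c, d} with hW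
  have hWc : W.card = Fintype.card V - 4 := by
    rw [hW, Finset.card_sdiff_of_subset (Finset.subset_univ _), Finset.card_univ]
    congr 1
    rw [Finset.card_insert_of_notMem, Finset.card_insert_of_notMem, Finset.card_insert_of_notMem,
      Finset.card_singleton]
    · simpa using hcd
    · simp only [Finset.mem_insert, Finset.mem_singleton, not_or]; exact ⟨hbc, hbd⟩
    · simp only [Finset.mem_insert, Finset.mem_singleton, not_or]; exact ⟨hab, hac, had⟩
  set P := W.powersetCard (k - 2) with hP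
  have hPc : P.card = (Fintype.card V - 4).choose (k - 2) := by
    rw [hP, Finset.card_powersetCard, hWc]
  have hmem : ∀ R ∈ P, a ∉ R ∧ b ∉ R ∧ c ∉ R ∧ d ∉ R := by
    intro R hR
    rw [hP, Finset.mem_powersetCard] at hR
    have h1 := hR.1
    refine ⟨fun h => ?_, fun h => ?_, fun h => ?_, fun h => ?_⟩ <;>
    · have := h1 h
      simp [hW] at this
  -- counting one kind of failure
  have hcount : ∀ p q : V, p ≠ q → (∀ R ∈ P, p ∉ R ∧ q ∉ R) →
      (P.filter (fun R => insert p (insert q R) ∈ bad)).card ≤ bad.card := by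
    intro p q hpq hpR
    refine Finset.card_le_card_of_injOn (fun R => insert p (insert q R)) ?_ ?_
    · intro R hR
      simp only [Finset.coe_filter, Set.mem_ofPred_eq] at hR
      exact hR.2
    · intro R hR R' hR' heq
      simp only [Finset.coe_filter, Set.mem_ofPred_eq] at hR hR'
      have h1 := hpR R hR.1
      have h2 := hpR R' hR'.1
      simp only at heq
      ext x
      have h3 : x ∈ insert p (insert q R) ↔ x ∈ insert p (insert q R') := by rw [heq]
      simp only [Finset.mem_insert] at h3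
      by_cases hxp : x = p
      · subst hxp; exact ⟨fun h => absurd h h1.1, fun h => absurd h h2.1⟩
      · by_cases hxq : x = q
        · subst hxq; exact ⟨fun h => absurd h h1.2, fun h => absurd h h2.2⟩
        · simpa [hxp, hxq] using h3
  by_contra hcon
  push Not at hcon
  have hcover : P ⊆ (P.filter (fun R => insert a (insert c R) ∈ bad)) ∪
      (P.filter (fun R => insert a (insert d R) ∈ bad)) ∪
      (P.filter (fun R => insert b (insert c R) ∈ bad)) ∪
      (P.filter (fun R => insert b (insert d R) ∈ bad)) := by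
    intro R hR
    have h1 := hmem R hR
    have h2 : R.card = k - 2 := by
      rw [hP, Finset.mem_powersetCard] at hR; exact hR.2
    have h3 := hcon R h2 h1.1 h1.2.1 h1.2.2.1 h1.2.2.2
    simp only [Finset.mem_union, Finset.mem_filter]
    by_cases g1 : insert a (insert c R) ∈ bad
    · exact Or.inl (Or.inl (Or.inl ⟨hR, g1⟩))
    by_cases g2 : insert a (insert d R) ∈ bad
    · exact Or.inl (Or.inl (Or.inr ⟨hR, g2⟩))
    by_cases g3 : insert b (insert c R) ∈ bad
    · exact Or.inl (Or.inr ⟨hR, g3⟩)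
    exact Or.inr ⟨hR, h3 g1 g2 g3⟩
  have hle := Finset.card_le_card hcover
  have u1 := Finset.card_union_le ((P.filter (fun R => insert a (insert c R) ∈ bad)) ∪
      (P.filter (fun R => insert a (insert d R) ∈ bad)) ∪
      (P.filter (fun R => insert b (insert c R) ∈ bad))) (P.filter (fun R => insert b (insert d R) ∈ bad))
  have u2 := Finset.card_union_le ((P.filter (fun R => insert a (insert c R) ∈ bad)) ∪
      (P.filter (fun R => insert a (insert d R) ∈ bad)))
      (P.filter (fun R => insert b (insert c R) ∈ bad))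
  have u3 := Finset.card_union_le ((P.filter (fun R => insert a (insert c R) ∈ bad)))
      (P.filter (fun R => insert a (insert d R) ∈ bad))
  have c1 := hcount a c hac (fun R hR => ⟨(hmem R hR).1, (hmem R hR).2.2.1⟩)
  have c2 := hcount a d had (fun R hR => ⟨(hmem R hR).1, (hmem R hR).2.2.2⟩)
  have c3 := hcount b c hbc (fun R hR => ⟨(hmem R hR).2.1, (hmem R hR).2.2.1⟩)
  have c4 := hcount b d hbd (fun R hR => ⟨(hmem R hR).2.1, (hmem R hR).2.2.2⟩)
  omega

/-- Second differences are small. -/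
theorem second_diff (k : ℕ) (hk : 2 ≤ k) (hV : 4 ≤ Fintype.card V) (bad : Finset (Finset V))
    (hbad : 4 * bad.card < (Fintype.card V - 4).choose (k - 2)) (U : V → V → A) (ε : ℝ)
    (hε : ∀ S : Finset V, S.card = k → S ∉ bad → ‖dsum U S‖ ≤ ε) :
    ∀ a b c d : V, a ≠ b → a ≠ c → a ≠ d → b ≠ c → b ≠ d →
      ‖((U a c + U c a) - (U b c + U c b)) - ((U a d + U d a) - (U b d + U d b))‖ ≤ 4 * ε := by
  classical
  intro a b c d hab hac had hbc hbd
  by_cases hcd : c = d
  · subst hcd
    rw [sub_self, norm_zero]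
    obtain ⟨x, y, hx⟩ : ∃ x y : V, x ≠ a ∧ x ≠ b ∧ y ≠ a ∧ y ≠ b ∧ x ≠ y := by
      have h1 : 2 ≤ (Finset.univ \ {a, b} : Finset V).card := by
        rw [Finset.card_sdiff_of_subset (Finset.subset_univ _), Finset.card_univ,
          Finset.card_pair hab]
        omega
      obtain ⟨x, hx, y, hy, hxy⟩ := Finset.one_lt_card.1 h1
      refine ⟨x, y, ?_⟩
      simp at hx hy
      exact ⟨hx.1, hx.2, hy.1, hy.2, hxy⟩
    obtain ⟨R, hRc, ha, hb, hc, hd, g1, -⟩ := exists_good k bad hbad a b x y hab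
      (Ne.symm hx.1) (Ne.symm hx.2.2.1) (Ne.symm hx.2.1) (Ne.symm hx.2.2.2.1) hx.2.2.2.2
    have h2 := hε (insert a (insert x R)) (by
      rw [Finset.card_insert_of_notMem, Finset.card_insert_of_notMem hc, hRc]
      · omega
      · simp only [Finset.mem_insert, not_or]; exact ⟨Ne.symm hx.1, ha⟩) g1
    have := norm_nonneg (dsum U (insert a (insert x R)))
    linarith
  · obtain ⟨R, hRc, ha, hb, hc, hd, g1, g2, g3, g4⟩ :=
      exists_good k bad hbad a b c d hab hac had hbc hbd hcd
    have card_ins : ∀ p q : V, p ≠ q → p ∉ R → q ∉ R → (insert p (insert q R)).card = k := by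
      intro p q hpq hp hq
      rw [Finset.card_insert_of_notMem, Finset.card_insert_of_notMem hq, hRc]
      · omega
      · simp only [Finset.mem_insert, not_or]; exact ⟨hpq, hp⟩
    have e1 := hε _ (card_ins a c hac ha hc) g1
    have e2 := hε _ (card_ins a d had ha hd) g2
    have e3 := hε _ (card_ins b c hbc hb hc) g3
    have e4 := hε _ (card_ins b d hbd hb hd) g4
    have ins : ∀ p q : V, p ≠ q → p ∉ R → q ∉ R →
        dsum U (insert p (insert q R)) = dsum U R + (U q q + ∑ c ∈ R, (U q c + U c q)) +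
          (U p p + ∑ c ∈ R, (U p c + U c p)) + (U p q + U q p) := by
      intro p q hpq hp hq
      rw [dsum_insert U (insert q R) p (by simp only [Finset.mem_insert, not_or]; exact ⟨hpq, hp⟩),
        dsum_insert U R q hq, Finset.sum_insert hq]
      abel
    have hid : ((U a c + U c a) - (U b c + U c b)) - ((U a d + U d a) - (U b d + U d b))
        = dsum U (insert a (insert c R)) - dsum U (insert a (insert d R))
          - dsum U (insert b (insert c R)) + dsum U (insert b (insert d R)) := by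
      rw [ins a c hac ha hc, ins a d had ha hd, ins b c hbc hb hc, ins b d hbd hb hd]
      abel
    rw [hid]
    have n1 := norm_add_le (dsum U (insert a (insert c R)) - dsum U (insert a (insert d R))
          - dsum U (insert b (insert c R))) (dsum U (insert b (insert d R)))
    have n2 := norm_sub_le (dsum U (insert a (insert c R)) - dsum U (insert a (insert d R)))
      (dsum U (insert b (insert c R)))
    have n3 := norm_sub_le (dsum U (insert a (insert c R))) (dsum U (insert a (insert d R)))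
    linarith

/-- The spread lemma: if all but few `k`-sets have small double sum, all of them do. -/
theorem spread (k : ℕ) (hk : 2 ≤ k) (hV : 4 ≤ Fintype.card V) (bad : Finset (Finset V))
    (hbad : 4 * bad.card < (Fintype.card V - 4).choose (k - 2)) (U : V → V → A) (ε : ℝ)
    (hε : ∀ S : Finset V, S.card = k → S ∉ bad → ‖dsum U S‖ ≤ ε) :
    ∀ S : Finset V, S.card = k → ‖dsum U S‖ ≤ 5 * (k : ℝ) ^ 2 * ε := by
  classical
  have hD := second_diff k hk hV bad hbad U ε hε
  -- first differences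
  have hF : ∀ a b : V, a ≠ b → ∀ R : Finset V, R.card = k - 1 → a ∉ R → b ∉ R →
      ‖dsum U (insert a R) - dsum U (insert b R)‖ ≤ 4 * k * ε := by
    intro a b hab R hRc haR hbR
    obtain ⟨x, y, hx⟩ : ∃ x y : V, x ≠ a ∧ x ≠ b ∧ y ≠ a ∧ y ≠ b ∧ x ≠ y := by
      have h1 : 2 ≤ (Finset.univ \ {a, b} : Finset V).card := by
        rw [Finset.card_sdiff_of_subset (Finset.subset_univ _), Finset.card_univ,
          Finset.card_pair hab]
        omega
      obtain ⟨x, hx, y, hy, hxy⟩ := Finset.one_lt_card.1 h1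
      refine ⟨x, y, ?_⟩
      simp at hx hy
      exact ⟨hx.1, hx.2, hy.1, hy.2, hxy⟩
    obtain ⟨R', hR'c, ha, hb, hc, hd, g1, -, g3, -⟩ := exists_good k bad hbad a b x y hab
      (Ne.symm hx.1) (Ne.symm hx.2.2.1) (Ne.symm hx.2.1) (Ne.symm hx.2.2.2.1) hx.2.2.2.2
    set R0 := insert x R' with hR0
    have hR0c : R0.card = k - 1 := by
      rw [hR0, Finset.card_insert_of_notMem hc, hR'c]; omega
    have ha0 : a ∉ R0 := by
      rw [hR0]; simp only [Finset.mem_insert, not_or]; exact ⟨Ne.symm hx.1, ha⟩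
    have hb0 : b ∉ R0 := by
      rw [hR0]; simp only [Finset.mem_insert, not_or]; exact ⟨Ne.symm hx.2.1, hb⟩
    have e1 := hε (insert a R0) (by rw [Finset.card_insert_of_notMem ha0, hR0c]; omega) g1
    have e2 := hε (insert b R0) (by rw [Finset.card_insert_of_notMem hb0, hR0c]; omega) g3
    have hid : dsum U (insert a R) - dsum U (insert b R)
        = (dsum U (insert a R0) - dsum U (insert b R0)) +
          (∑ c ∈ R, ((U a c + U c a) - (U b c + U c b)) -
            ∑ c ∈ R0, ((U a c + U c a) - (U b c + U c b))) := by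
      rw [dsum_insert U R a haR, dsum_insert U R b hbR, dsum_insert U R0 a ha0,
        dsum_insert U R0 b hb0, Finset.sum_sub_distrib, Finset.sum_sub_distrib]
      abel
    rw [hid]
    have n1 := norm_sum_sub_sum_le (fun c => (U a c + U c a) - (U b c + U c b)) (4 * ε) R R0
      (by rw [hRc, hR0c]) (by
        intro c hcR c' hcR0
        exact hD a b c c' hab (fun h => haR (h ▸ hcR)) (fun h => ha0 (h ▸ hcR0))
          (fun h => hbR (h ▸ hcR)) (fun h => hb0 (h ▸ hcR0)))
    rw [hRc] at n1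
    have n2 := norm_add_le (dsum U (insert a R0) - dsum U (insert b R0))
          (∑ c ∈ R, ((U a c + U c a) - (U b c + U c b)) -
            ∑ c ∈ R0, ((U a c + U c a) - (U b c + U c b)))
    have n3 := norm_sub_le (dsum U (insert a R0)) (dsum U (insert b R0))
    have hk1 : ((k - 1 : ℕ) : ℝ) = (k : ℝ) - 1 := by
      rw [Nat.cast_sub (by omega)]; simp
    rw [hk1] at n1
    have hε0 : 0 ≤ ε := le_trans (norm_nonneg _) e1
    nlinarith
  -- a good set to start from
  obtain ⟨S0, hS0c, hS0⟩ : ∃ S0 : Finset V, S0.card = k ∧ S0 ∉ bad := by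
    obtain ⟨T, hT⟩ : ∃ T : Finset V, T.card = 4 := by
      obtain ⟨T, -, hT⟩ := Finset.exists_subset_card_eq (s := (Finset.univ : Finset V)) (n := 4)
        (by rw [Finset.card_univ]; exact hV)
      exact ⟨T, hT⟩
    obtain ⟨a, b, c, d, hab, hac, had, hbc, hbd, hcd, -⟩ := Finset.card_eq_four.1 hT
    obtain ⟨R, hRc, ha, hb, hc, hd, g1, -⟩ := exists_good k bad hbad a b c d hab hac had hbc hbd hcd
    refine ⟨insert a (insert c R), ?_, g1⟩
    rw [Finset.card_insert_of_notMem, Finset.card_insert_of_notMem hc, hRc]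
    · omega
    · simp only [Finset.mem_insert, not_or]; exact ⟨hac, ha⟩
  have hS0n := hε S0 hS0c hS0
  have hε0 : 0 ≤ ε := le_trans (norm_nonneg _) hS0n
  -- chain of exchanges
  have hchain : ∀ n : ℕ, ∀ S : Finset V, S.card = k → (S \ S0).card = n →
      ‖dsum U S‖ ≤ ε + n * (4 * k * ε) := by
    intro n
    induction n with
    | zero =>
      intro S hS hn
      have h1 : S ⊆ S0 := by
        rw [Finset.card_eq_zero] at hn
        exact Finset.sdiff_eq_empty_iff_subset.1 hn
      have h2 : S = S0 := Finset.eq_of_subset_of_card_le h1 (by rw [hS, hS0c])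
      subst h2
      simpa using hS0n
    | succ n ih =>
      intro S hS hn
      obtain ⟨a, ha⟩ : (S \ S0).Nonempty := by
        rw [← Finset.card_pos, hn]; omega
      have hcard2 : (S0 \ S).card = n + 1 := by
        rw [Finset.card_sdiff_comm (by rw [hS0c, hS]), hn]
      obtain ⟨b, hb⟩ : (S0 \ S).Nonempty := by
        rw [← Finset.card_pos, hcard2]; omega
      rw [Finset.mem_sdiff] at ha hb
      have hab : a ≠ b := fun h => hb.2 (h ▸ ha.1)
      set R := S.erase a with hR
      have hRc : R.card = k - 1 := by rw [hR, Finset.card_erase_of_mem ha.1, hS]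
      have haR : a ∉ R := Finset.notMem_erase a S
      have hbR : b ∉ R := fun h => hb.2 (Finset.mem_of_mem_erase h)
      have hins : insert a R = S := Finset.insert_erase ha.1
      have h1 := hF a b hab R hRc haR hbR
      rw [hins] at h1
      have h2 := ih (insert b R) (by rw [Finset.card_insert_of_notMem hbR, hRc]; omega) (by
        have : insert b R \ S0 = (S \ S0).erase a := by
          ext x
          simp only [hR, Finset.mem_sdiff, Finset.mem_insert, Finset.mem_erase]
          constructor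
          · rintro ⟨h | h, h'⟩
            · subst h; exact absurd hb.1 h'
            · exact ⟨h.1, h.2, h'⟩
          · rintro ⟨h, h', h''⟩
            exact ⟨Or.inr ⟨h, h'⟩, h''⟩
        rw [this, Finset.card_erase_of_mem (Finset.mem_sdiff.2 ha), hn]; rfl)
      have h3 : ‖dsum U S‖ ≤ ‖dsum U S - dsum U (insert b R)‖ + ‖dsum U (insert b R)‖ := by
        have := norm_add_le (dsum U S - dsum U (insert b R)) (dsum U (insert b R))
        simpa using this
      push_cast
      linarith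
  intro S hS
  have h1 := hchain _ S hS rfl
  have h2 : (S \ S0).card ≤ k := by
    rw [← hS]; exact Finset.card_le_card Finset.sdiff_subset
  have h3 : ((S \ S0).card : ℝ) ≤ k := by exact_mod_cast h2
  have hk' : (2 : ℝ) ≤ k := by exact_mod_cast hk
  have h4 : ((S \ S0).card : ℝ) * (4 * k * ε) ≤ k * (4 * k * ε) :=
    mul_le_mul_of_nonneg_right h3 (by positivity)
  nlinarith [mul_nonneg (mul_nonneg (by linarith : (0:ℝ) ≤ k) (by linarith : (0:ℝ) ≤ k - 1)) hε0]

end spread

section rounding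

/-- Distance to the nearest integer. -/
noncomputable def nr (x : ℝ) : ℝ := ‖(x : UnitAddCircle)‖

lemma nr_eq (x : ℝ) : nr x = |x - round x| := UnitAddCircle.norm_eq

lemma nr_nonneg (x : ℝ) : 0 ≤ nr x := norm_nonneg _

lemma nr_zero : nr 0 = 0 := by rw [nr_eq]; simp

lemma nr_add (x y : ℝ) : nr (x + y) ≤ nr x + nr y := by
  unfold nr; rw [AddCircle.coe_add]; exact norm_add_le _ _

lemma nr_sub (x y : ℝ) : nr (x - y) ≤ nr x + nr y := by
  unfold nr; rw [AddCircle.coe_sub]; exact norm_sub_le _ _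

lemma nr_sum {ι : Type*} (s : Finset ι) (f : ι → ℝ) : nr (∑ i ∈ s, f i) ≤ ∑ i ∈ s, nr (f i) := by
  classical
  induction s using Finset.induction_on with
  | empty => simp [nr_zero]
  | insert a s ha ih =>
    rw [Finset.sum_insert ha, Finset.sum_insert ha]
    exact (nr_add _ _).trans (by linarith)

lemma nr_le_of_int (x : ℝ) (n : ℤ) (δ : ℝ) (h : |x - n| ≤ δ) : nr x ≤ δ := by
  rw [nr_eq]; exact (round_le x n).trans h

lemma coe_sum_circle {ι : Type*} (s : Finset ι) (f : ι → ℝ) :
    ((∑ i ∈ s, f i : ℝ) : UnitAddCircle) = ∑ i ∈ s, (f i : UnitAddCircle) := by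
  classical
  induction s using Finset.induction_on with
  | empty => simp
  | insert a s ha ih =>
    rw [Finset.sum_insert ha, Finset.sum_insert ha, AddCircle.coe_add, ih]

lemma dsum_coe {V : Type*} (U : V → V → ℝ) (S : Finset V) :
    ((dsum U S : ℝ) : UnitAddCircle) = dsum (fun a b => (U a b : UnitAddCircle)) S := by
  unfold dsum
  rw [coe_sum_circle]
  exact Finset.sum_congr rfl fun a _ => coe_sum_circle _ _

/-- Splitting a double sum into the diagonal and the increasing pairs. -/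
lemma dsum_split {V : Type*} [LinearOrder V] (U : V → V → ℝ) (S : Finset V) :
    dsum U S = ∑ a ∈ S, U a a + dsum (fun a b => if a < b then U a b + U b a else 0) S := by
  unfold dsum
  have h1 : ∀ a ∈ S, U a a = ∑ b ∈ S, if a = b then U a b else 0 := by
    intro a ha
    rw [Finset.sum_ite_eq]; simp [ha]
  have h2 : ∑ a ∈ S, ∑ b ∈ S, (if a < b then U a b + U b a else 0)
      = ∑ a ∈ S, ∑ b ∈ S, (if a < b then U a b else 0)
        + ∑ a ∈ S, ∑ b ∈ S, (if b < a then U a b else 0) := by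
    rw [Finset.sum_comm (f := fun a b => if b < a then U a b else 0), ← Finset.sum_add_distrib]
    refine Finset.sum_congr rfl fun a _ => ?_
    rw [← Finset.sum_add_distrib]
    refine Finset.sum_congr rfl fun b _ => ?_
    split_ifs <;> simp
  rw [h2, Finset.sum_congr rfl h1, ← Finset.sum_add_distrib, ← Finset.sum_add_distrib]
  refine Finset.sum_congr rfl fun a _ => ?_
  rw [← Finset.sum_add_distrib, ← Finset.sum_add_distrib]
  refine Finset.sum_congr rfl fun b _ => ?_
  rcases lt_trichotomy a b with h | h | h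
  · simp [h, h.ne, not_lt_of_gt h]
  · subst h; simp
  · simp [h, h.ne', not_lt_of_gt h]

lemma dsum_lin {V : Type*} [LinearOrder V] (α : V → ℝ) (S : Finset V) :
    dsum (fun a b => if a < b then α a + α b else 0) S = ((S.card : ℝ) - 1) * ∑ a ∈ S, α a := by
  have h := dsum_split (fun a _ => α a) S
  have h2 : dsum (fun a (_ : V) => α a) S = (S.card : ℝ) * ∑ a ∈ S, α a := by
    unfold dsum
    simp [Finset.mul_sum]
  rw [h2] at h
  linarith

/-- The rounding lemma: if all double sums over `k`-sets are very close to integers, these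
integers are given by an integral expression of the same kind. -/
theorem rounding {v : ℕ} (k : ℕ) (hk : 2 ≤ k) (hv : k + 2 ≤ v) (ϑ : Fin v → Fin v → ℝ)
    (B : Finset (Fin v) → ℤ) (η : ℝ)
    (hB : ∀ S : Finset (Fin v), S.card = k → |dsum ϑ S - B S| ≤ η)
    (hη : 34 * (k : ℝ) ^ 2 * η < 1) :
    ∃ (c0 : ℤ) (c1 : Fin v → ℤ) (c2 : Fin v → Fin v → ℤ),
      ∀ S : Finset (Fin v), S.card = k → B S = c0 + ∑ a ∈ S, c1 a + dsum c2 S := by
  classical
  have hk' : (2 : ℝ) ≤ k := by exact_mod_cast hk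
  -- there is a k-set
  obtain ⟨S0, -, hS0⟩ := Finset.exists_subset_card_eq (s := (Finset.univ : Finset (Fin v))) (n := k)
    (by rw [Finset.card_univ, Fintype.card_fin]; omega)
  have hη0 : 0 ≤ η := le_trans (abs_nonneg _) (hB S0 hS0)
  have hnr : ∀ S : Finset (Fin v), S.card = k → nr (dsum ϑ S) ≤ η := fun S hS =>
    nr_le_of_int _ _ _ (hB S hS)
  have hD : ∀ a b c d : Fin v, a ≠ b → a ≠ c → a ≠ d → b ≠ c → b ≠ d →
      nr (((ϑ a c + ϑ c a) - (ϑ b c + ϑ c b)) - ((ϑ a d + ϑ d a) - (ϑ b d + ϑ d b))) ≤ 4 * η := by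
    intro a b c d h1 h2 h3 h4 h5
    have h := second_diff (V := Fin v) (A := UnitAddCircle) k hk (by rw [Fintype.card_fin]; omega) ∅
      (by
        rw [Finset.card_empty, Fintype.card_fin]
        simpa using Nat.choose_pos (by omega : k - 2 ≤ v - 4))
      (fun a b => (ϑ a b : UnitAddCircle)) η (by
        intro S hS _
        rw [← dsum_coe]
        exact hnr S hS) a b c d h1 h2 h3 h4 h5
    unfold nr
    simpa only [AddCircle.coe_sub, AddCircle.coe_add] using h
  -- three points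
  obtain ⟨p, q, r, hpq, hpr, hqr⟩ : ∃ p q r : Fin v, p ≠ q ∧ p ≠ r ∧ q ≠ r :=
    ⟨⟨0, by omega⟩, ⟨1, by omega⟩, ⟨2, by omega⟩, by simp, by simp, by simp⟩
  set th : Fin v → Fin v → ℝ := fun a b => ϑ a b + ϑ b a with hth
  have hsymm : ∀ a b, th a b = th b a := fun a b => by simp only [hth]; ring
  set κ : ℝ := th p q + th p r - th q r with hκ
  set α : Fin v → ℝ := fun x => if x = p then κ / 2 else th p x - κ / 2 with hα
  set tp : Fin v → Fin v → ℝ := fun a b => th a b - α a - α b with htp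
  have hαp : α p = κ / 2 := by simp [hα]
  have hαx : ∀ x, x ≠ p → α x = th p x - κ / 2 := fun x hx => by simp [hα, hx]
  have htps : ∀ a b, tp a b = tp b a := fun a b => by
    simp only [htp]; rw [hsymm a b]; ring
  have h1 : ∀ y, y ≠ p → tp p y = 0 := fun y hy => by
    simp only [htp]; rw [hαp, hαx y hy]; ring
  have h2 : ∀ y, y ≠ p → y ≠ q → nr (tp q y) ≤ 4 * η := by
    intro y hyp hyq
    by_cases hyr : y = r
    · subst hyr
      have : tp q y = 0 := by
        simp only [htp]; rw [hαx q (Ne.symm hpq), hαx y hyp, hκ]; ring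
      rw [this, nr_zero]; linarith
    · have h := hD y r q p hyr hyq hyp (Ne.symm hqr) (Ne.symm hpr)
      have : tp q y = (((ϑ y q + ϑ q y) - (ϑ r q + ϑ q r)) - ((ϑ y p + ϑ p y) - (ϑ r p + ϑ p r))) := by
        simp only [htp]; rw [hαx q (Ne.symm hpq), hαx y hyp, hκ]; simp only [hth]; ring
      rw [this]; exact h
  have h3 : ∀ x y, x ≠ y → nr (tp x y) ≤ 8 * η := by
    intro x y hxy
    by_cases hxp : x = p
    · subst hxp; rw [h1 y (Ne.symm hxy), nr_zero]; linarith
    by_cases hyp : y = p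
    · subst hyp; rw [htps, h1 x hxy, nr_zero]; linarith
    by_cases hxq : x = q
    · subst hxq; have := h2 y hyp (Ne.symm hxy); linarith
    by_cases hyq : y = q
    · subst hyq; rw [htps]; have := h2 x hxp hxy; linarith
    have h := hD x q y p hxq hxy hxp (Ne.symm hyq) (Ne.symm hpq)
    have h' := h2 y hyp hyq
    have : tp x y = tp q y
        + (((ϑ x y + ϑ y x) - (ϑ q y + ϑ y q)) - ((ϑ x p + ϑ p x) - (ϑ q p + ϑ p q))) := by
      simp only [htp]; rw [hαx q (Ne.symm hpq), hαx y hyp, hαx x hxp]; simp only [hth]; ring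
    rw [this]
    refine (nr_add _ _).trans ?_
    linarith
  set lam : Fin v → ℝ := fun a => ϑ a a + ((k : ℝ) - 1) * α a with hlam
  have h4 : ∀ x, nr (lam x - lam p) ≤ 8 * k * η := by
    intro x
    by_cases hxp : x = p
    · subst hxp; rw [sub_self, nr_zero]; positivity
    obtain ⟨R, hR, hRc⟩ := Finset.exists_subset_card_eq (s := (Finset.univ \ {x, p} : Finset (Fin v)))
      (n := k - 1) (by
        rw [Finset.card_sdiff_of_subset (Finset.subset_univ _), Finset.card_univ, Fintype.card_fin,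
          Finset.card_pair hxp]; omega)
    have hxR : x ∉ R := fun h => by have := hR h; simp at this
    have hpR : p ∉ R := fun h => by have := hR h; simp at this
    have e1 := hnr (insert x R) (by rw [Finset.card_insert_of_notMem hxR, hRc]; omega)
    have e2 := hnr (insert p R) (by rw [Finset.card_insert_of_notMem hpR, hRc]; omega)
    have hk1 : ((R.card : ℕ) : ℝ) = (k : ℝ) - 1 := by
      rw [hRc, Nat.cast_sub (by omega)]; simp
    have hid : lam x - lam p = dsum ϑ (insert x R) - dsum ϑ (insert p R) - ∑ c ∈ R, tp x c := by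
      rw [dsum_insert ϑ R x hxR, dsum_insert ϑ R p hpR]
      have hs : ∀ c ∈ R, tp x c = (ϑ x c + ϑ c x) - (ϑ p c + ϑ c p) - (α x - α p) := by
        intro c hc
        have hcp : c ≠ p := fun h => hpR (h ▸ hc)
        have := h1 c hcp
        simp only [htp, hth] at this ⊢
        linarith
      rw [Finset.sum_congr rfl hs, Finset.sum_sub_distrib, Finset.sum_sub_distrib]
      rw [Finset.sum_const, nsmul_eq_mul, hk1]
      simp only [hlam]
      ring
    rw [hid]
    have n1 := nr_sub (dsum ϑ (insert x R) - dsum ϑ (insert p R)) (∑ c ∈ R, tp x c)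
    have n2 := nr_sub (dsum ϑ (insert x R)) (dsum ϑ (insert p R))
    have n3 : nr (∑ c ∈ R, tp x c) ≤ ((k : ℝ) - 1) * (8 * η) := by
      refine (nr_sum _ _).trans ?_
      rw [← hk1, ← nsmul_eq_mul]
      refine Finset.sum_le_card_nsmul _ _ _ fun c hc => h3 x c (fun h => hxR (h ▸ hc))
    nlinarith
  -- the exact decomposition
  have h5 : ∀ S : Finset (Fin v), S.card = k →
      dsum ϑ S = ∑ a ∈ S, lam a + dsum (fun a b => if a < b then tp a b else 0) S := by
    intro S hS
    rw [dsum_split ϑ S]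
    have e1 := dsum_lin α S
    rw [hS] at e1
    have e2 : dsum (fun a b => if a < b then ϑ a b + ϑ b a else 0) S
        = dsum (fun a b => if a < b then tp a b else 0) S
          + dsum (fun a b => if a < b then α a + α b else 0) S := by
      unfold dsum
      rw [← Finset.sum_add_distrib]
      refine Finset.sum_congr rfl fun a _ => ?_
      rw [← Finset.sum_add_distrib]
      refine Finset.sum_congr rfl fun b _ => ?_
      simp only [htp, hth]
      split_ifs <;> ring
    rw [e2, e1]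
    simp only [hlam]
    rw [Finset.sum_add_distrib, ← Finset.mul_sum]
    ring
  have h6 : ∀ S : Finset (Fin v), S.card = k → ∀ a ∈ S, ∀ b ∈ S,
      nr (if a < b then tp a b else 0) ≤ 8 * η := by
    intro S hS a _ b _
    split_ifs with h
    · exact h3 a b h.ne
    · rw [nr_zero]; linarith
  have h7 : ∀ S : Finset (Fin v), S.card = k →
      nr (dsum (fun a b => if a < b then tp a b else 0) S) ≤ (k : ℝ) * (k * (8 * η)) := by
    intro S hS
    unfold dsum
    refine (nr_sum _ _).trans ?_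
    rw [← hS, ← nsmul_eq_mul]
    refine Finset.sum_le_card_nsmul _ _ _ fun a ha => ?_
    refine (nr_sum _ _).trans ?_
    rw [← nsmul_eq_mul]
    exact Finset.sum_le_card_nsmul _ _ _ fun b hb => h6 S hS a ha b hb
  have h8 : nr ((k : ℝ) * lam p) ≤ (1 + 16 * (k : ℝ) ^ 2) * η := by
    have e1 := h5 S0 hS0
    have e2 := h7 S0 hS0
    have e3 := hnr S0 hS0
    have hid : (k : ℝ) * lam p = dsum ϑ S0 - dsum (fun a b => if a < b then tp a b else 0) S0
        - ∑ a ∈ S0, (lam a - lam p) := by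
      rw [e1, Finset.sum_sub_distrib, Finset.sum_const, nsmul_eq_mul, hS0]; ring
    rw [hid]
    have n1 := nr_sub (dsum ϑ S0 - dsum (fun a b => if a < b then tp a b else 0) S0)
      (∑ a ∈ S0, (lam a - lam p))
    have n2 := nr_sub (dsum ϑ S0) (dsum (fun a b => if a < b then tp a b else 0) S0)
    have n3 : nr (∑ a ∈ S0, (lam a - lam p)) ≤ (k : ℝ) * (8 * k * η) := by
      refine (nr_sum _ _).trans ?_
      rw [← hS0, ← nsmul_eq_mul, hS0]
      refine (Finset.sum_le_card_nsmul _ _ (8 * k * η) fun c _ => h4 c).trans ?_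
      rw [hS0]
    nlinarith
  refine ⟨round ((k : ℝ) * lam p), fun a => round (lam a - lam p),
    fun a b => if a < b then round (tp a b) else 0, ?_⟩
  intro S hS
  have e0 := h5 S hS
  have e1 := hB S hS
  rw [nr_eq] at h8
  have e2 : |∑ a ∈ S, ((lam a - lam p) - (round (lam a - lam p) : ℤ))| ≤ (k : ℝ) * (8 * k * η) := by
    refine (Finset.abs_sum_le_sum_abs _ _).trans ?_
    refine (Finset.sum_le_card_nsmul _ _ (8 * k * η) fun c _ => ?_).trans ?_
    · rw [← nr_eq]; exact h4 c
    · rw [hS, nsmul_eq_mul]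
  have e3 : |dsum (fun a b => (if a < b then tp a b else 0)
        - ((if a < b then round (tp a b) else 0 : ℤ) : ℝ)) S| ≤ (k : ℝ) * (k * (8 * η)) := by
    unfold dsum
    refine (Finset.abs_sum_le_sum_abs _ _).trans ?_
    refine (Finset.sum_le_card_nsmul _ _ (k * (8 * η)) fun a ha => ?_).trans ?_
    · refine (Finset.abs_sum_le_sum_abs _ _).trans ?_
      refine (Finset.sum_le_card_nsmul _ _ (8 * η) fun b hb => ?_).trans ?_
      · beta_reduce
        split_ifs with h
        · rw [← nr_eq]; exact h3 a b h.ne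
        · simp; linarith
      · rw [hS, nsmul_eq_mul]
    · rw [hS, nsmul_eq_mul]
  have e4 : dsum (fun a b => (if a < b then tp a b else 0)
        - ((if a < b then round (tp a b) else 0 : ℤ) : ℝ)) S
      = dsum (fun a b => if a < b then tp a b else 0) S
        - ((dsum (fun a b => if a < b then round (tp a b) else 0) S : ℤ) : ℝ) := by
    unfold dsum
    push_cast
    rw [← Finset.sum_sub_distrib]
    exact Finset.sum_congr rfl fun a _ => by rw [← Finset.sum_sub_distrib]
  rw [e4] at e3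
  have e5 : ∑ a ∈ S, ((lam a - lam p) - (round (lam a - lam p) : ℤ))
      = ∑ a ∈ S, lam a - k * lam p - ((∑ a ∈ S, round (lam a - lam p) : ℤ) : ℝ) := by
    rw [Finset.sum_sub_distrib, Finset.sum_sub_distrib, Finset.sum_const, nsmul_eq_mul, hS]
    push_cast; ring
  rw [e5] at e2
  have hfin : |((B S - (round ((k : ℝ) * lam p) + ∑ a ∈ S, round (lam a - lam p)
      + dsum (fun a b => if a < b then round (tp a b) else 0) S) : ℤ) : ℝ)| < 1 := by
    rw [abs_le] at e1 e2 e3 h8
    have hk2 : (4 : ℝ) ≤ (k : ℝ) ^ 2 := by nlinarith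
    have hb : (2 + 32 * (k : ℝ) ^ 2) * η < 1 := by
      have : (2 + 32 * (k : ℝ) ^ 2) * η ≤ 34 * (k : ℝ) ^ 2 * η :=
        mul_le_mul_of_nonneg_right (by linarith) hη0
      linarith
    rw [abs_lt]
    push_cast at e2 e3 ⊢
    constructor <;> nlinarith [e1.1, e1.2, e2.1, e2.2, e3.1, e3.2, h8.1, h8.2]
  have hfin2 : |B S - (round ((k : ℝ) * lam p) + ∑ a ∈ S, round (lam a - lam p)
      + dsum (fun a b => if a < b then round (tp a b) else 0) S)| < 1 := by
    exact_mod_cast hfin
  exact sub_eq_zero.1 (Int.abs_lt_one_iff.1 hfin2)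

end rounding

section counting

lemma card_sup {v : ℕ} (k : ℕ) (T : Finset (Fin v)) :
    (univ.filter (fun S : Finset (Fin v) => S.card = k ∧ T ⊆ S)).card
      = if T.card ≤ k then (v - T.card).choose (k - T.card) else 0 := by
  classical
  split_ifs with hT
  · have h1 : (univ \ T : Finset (Fin v)).card = v - T.card := by
      rw [Finset.card_sdiff_of_subset (Finset.subset_univ _), Finset.card_univ, Fintype.card_fin]
    rw [← h1, ← Finset.card_powersetCard]
    refine Finset.card_nbij' (fun S => S \ T) (fun R => R ∪ T) ?_ ?_ ?_ ?_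
    · intro S hS
      simp only [Finset.coe_filter, Finset.mem_univ, true_and, Set.mem_ofPred_eq] at hS
      simp only [Finset.mem_coe, Finset.mem_powersetCard]
      refine ⟨Finset.sdiff_subset_sdiff (Finset.subset_univ _) (le_refl _), ?_⟩
      rw [Finset.card_sdiff_of_subset hS.2, hS.1]
    · intro R hR
      simp only [Finset.mem_coe, Finset.mem_powersetCard] at hR
      simp only [Finset.coe_filter, Finset.mem_univ, true_and, Set.mem_ofPred_eq]
      have hd : Disjoint R T := by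
        rw [Finset.disjoint_left]
        intro x hx hxT
        have := hR.1 hx
        simp at this
        exact this hxT
      refine ⟨?_, Finset.subset_union_right⟩
      rw [Finset.card_union_of_disjoint hd, hR.2]
      omega
    · intro S hS
      simp only [Finset.coe_filter, Finset.mem_univ, true_and, Set.mem_ofPred_eq] at hS
      exact Finset.sdiff_union_of_subset hS.2
    · intro R hR
      simp only [Finset.mem_coe, Finset.mem_powersetCard] at hR
      have hd : Disjoint R T := by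
        rw [Finset.disjoint_left]
        intro x hx hxT
        have := hR.1 hx
        simp at this
        exact this hxT
      simp only
      rw [Finset.union_sdiff_right, Finset.sdiff_eq_self_of_disjoint hd]
  · rw [Finset.card_eq_zero, Finset.filter_eq_empty_iff]
    rintro S - ⟨h1, h2⟩
    have := Finset.card_le_card h2
    omega

lemma dvd_total {v : ℕ} (k : ℕ) (hk : 2 ≤ k) (h0 : 3 ∣ v.choose k) (h1 : 3 ∣ (v - 1).choose (k - 1))
    (h2 : 3 ∣ (v - 2).choose (k - 2)) (c0 : ℤ) (c1 : Fin v → ℤ) (c2 : Fin v → Fin v → ℤ) :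
    (3 : ℤ) ∣ ∑ S ∈ univ.filter (fun S : Finset (Fin v) => S.card = k),
      (c0 + ∑ a ∈ S, c1 a + dsum c2 S) := by
  classical
  rw [Finset.sum_add_distrib, Finset.sum_add_distrib]
  have e0 : (3 : ℤ) ∣ ∑ S ∈ univ.filter (fun S : Finset (Fin v) => S.card = k), c0 := by
    rw [Finset.sum_const, nsmul_eq_mul]
    have h := card_sup (v := v) k ∅
    simp only [Finset.empty_subset, and_true, Finset.card_empty, Nat.zero_le, if_true,
      Nat.sub_zero] at h
    rw [h]
    exact Dvd.dvd.mul_right (by exact_mod_cast h0) _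
  have e1 : (3 : ℤ) ∣ ∑ S ∈ univ.filter (fun S : Finset (Fin v) => S.card = k), ∑ a ∈ S, c1 a := by
    have hs : ∀ S ∈ univ.filter (fun S : Finset (Fin v) => S.card = k),
        ∑ a ∈ S, c1 a = ∑ a : Fin v, if {a} ⊆ S then c1 a else 0 := by
      intro S _
      simp only [Finset.singleton_subset_iff]
      rw [← Finset.sum_filter]
      simp
    rw [Finset.sum_congr rfl hs, Finset.sum_comm]
    refine Finset.dvd_sum fun a _ => ?_
    rw [← Finset.sum_filter, Finset.filter_filter, Finset.sum_const, nsmul_eq_mul, card_sup]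
    simp only [Finset.card_singleton]
    rw [if_pos (by omega)]
    exact Dvd.dvd.mul_right (by exact_mod_cast h1) _
  have e2 : (3 : ℤ) ∣ ∑ S ∈ univ.filter (fun S : Finset (Fin v) => S.card = k), dsum c2 S := by
    have hs : ∀ S ∈ univ.filter (fun S : Finset (Fin v) => S.card = k),
        dsum c2 S = ∑ a : Fin v, ∑ b : Fin v, if {a, b} ⊆ S then c2 a b else 0 := by
      intro S _
      unfold dsum
      rw [← Finset.sum_filter_add_sum_filter_not (univ : Finset (Fin v)) (fun a => a ∈ S)]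
      rw [Finset.sum_eq_zero (s := univ.filter (fun a => ¬ a ∈ S)), add_zero]
      · rw [Finset.filter_univ_mem]
        refine Finset.sum_congr rfl fun a ha => ?_
        have hb : ∀ b : Fin v, ({a, b} ⊆ S ↔ b ∈ S) := by
          intro b
          rw [Finset.insert_subset_iff, Finset.singleton_subset_iff]
          exact ⟨fun h => h.2, fun h => ⟨ha, h⟩⟩
        simp only [hb]
        rw [← Finset.sum_filter, Finset.filter_univ_mem]
      · intro a ha
        refine Finset.sum_eq_zero fun b _ => ?_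
        rw [Finset.mem_filter] at ha
        rw [if_neg]
        intro h
        exact ha.2 (h (Finset.mem_insert_self a _))
    rw [Finset.sum_congr rfl hs, Finset.sum_comm]
    refine Finset.dvd_sum fun a _ => ?_
    rw [Finset.sum_comm]
    refine Finset.dvd_sum fun b _ => ?_
    rw [← Finset.sum_filter, Finset.filter_filter, Finset.sum_const, nsmul_eq_mul, card_sup]
    by_cases hab : a = b
    · subst hab
      simp only [Finset.pair_eq_singleton, Finset.card_singleton]
      rw [if_pos (by omega)]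
      exact Dvd.dvd.mul_right (by exact_mod_cast h1) _
    · rw [Finset.card_pair hab, if_pos hk]
      exact Dvd.dvd.mul_right (by exact_mod_cast h2) _
  exact dvd_add (dvd_add e0 e1) e2

end counting

section assembly

/-- The three weight vectors of the colours. -/
def wt : Fin 3 → Fin 2 → ℤ := ![![1, 0], ![0, 1], ![-1, -1]]

lemma wt_abs (c : Fin 3) (β : Fin 2) : |wt c β| ≤ 1 := by
  fin_cases c <;> fin_cases β <;> simp [wt]

/-- Contribution of the set `S` with colour `c` to the index `(β, a, b)`. -/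
def Mat {v : ℕ} (k : ℕ) (S : Finset (Fin v)) (c : Fin 3) (i : Fin 2 × Fin v × Fin v) : ℤ :=
  if S.card = k ∧ i.2.1 ∈ S ∧ i.2.2 ∈ S then wt c i.1 else 0

/-- The linear form at a set. -/
noncomputable def X {v : ℕ} (k Q : ℕ) (τ : Fin 2 × Fin v × Fin v → Fin Q) (β : Fin 2)
    (S : Finset (Fin v)) : ℝ :=
  if S.card = k then dsum (fun a b => ((τ (β, a, b) : ℕ) : ℝ) / Q) S else 0

lemma dsum_eq_univ {v : ℕ} (U : Fin v → Fin v → ℝ) (S : Finset (Fin v)) :
    dsum U S = ∑ a, ∑ b, if a ∈ S ∧ b ∈ S then U a b else 0 := by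
  unfold dsum
  rw [← Finset.sum_filter_add_sum_filter_not (univ : Finset (Fin v)) (fun a => a ∈ S)]
  rw [Finset.sum_eq_zero (s := univ.filter (fun a => ¬ a ∈ S)), add_zero]
  · rw [Finset.filter_univ_mem]
    refine Finset.sum_congr rfl fun a ha => ?_
    simp only [ha, true_and]
    rw [← Finset.sum_filter, Finset.filter_univ_mem]
  · intro a ha
    rw [Finset.mem_filter] at ha
    refine Finset.sum_eq_zero fun b _ => ?_
    rw [if_neg]
    exact fun h => ha.2 h.1

lemma form_eq {v : ℕ} (k Q : ℕ) (τ : Fin 2 × Fin v × Fin v → Fin Q) (S : Finset (Fin v))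
    (c : Fin 3) :
    ∑ i, ((τ i : ℕ) : ℝ) * Mat k S c i / Q = ∑ β, (wt c β : ℝ) * X k Q τ β S := by
  rw [Fintype.sum_prod_type]
  refine Finset.sum_congr rfl fun β _ => ?_
  rw [Fintype.sum_prod_type]
  unfold X
  split_ifs with hS
  · rw [dsum_eq_univ, Finset.mul_sum]
    refine Finset.sum_congr rfl fun a _ => ?_
    rw [Finset.mul_sum]
    refine Finset.sum_congr rfl fun b _ => ?_
    unfold Mat
    simp only [hS, true_and]
    split_ifs with h
    · ring
    · simp
  · rw [mul_zero]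
    refine Finset.sum_eq_zero fun a _ => Finset.sum_eq_zero fun b _ => ?_
    unfold Mat
    simp [hS]

lemma colour_sum {v : ℕ} (k Q : ℕ) (τ : Fin 2 × Fin v × Fin v → Fin Q) (S : Finset (Fin v)) :
    ∑ c : Fin 3, e (∑ i, ((τ i : ℕ) : ℝ) * Mat k S c i / Q)
      = e (X k Q τ 0 S) + e (X k Q τ 1 S) + e (-X k Q τ 0 S - X k Q τ 1 S) := by
  simp_rw [form_eq]
  rw [Fin.sum_univ_three]
  simp only [Fin.sum_univ_two]
  have h0 : ((wt 0 0 : ℤ) : ℝ) * X k Q τ 0 S + ((wt 0 1 : ℤ) : ℝ) * X k Q τ 1 S = X k Q τ 0 S := by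
    simp [wt]
  have h1 : ((wt 1 0 : ℤ) : ℝ) * X k Q τ 0 S + ((wt 1 1 : ℤ) : ℝ) * X k Q τ 1 S = X k Q τ 1 S := by
    simp [wt]
  have h2 : ((wt 2 0 : ℤ) : ℝ) * X k Q τ 0 S + ((wt 2 1 : ℤ) : ℝ) * X k Q τ 1 S
      = -X k Q τ 0 S - X k Q τ 1 S := by
    simp [wt]; ring
  rw [h0, h1, h2]

/-- The normalised factor at `S`. -/
noncomputable def F {v : ℕ} (k Q : ℕ) (τ : Fin 2 × Fin v × Fin v → Fin Q) (S : Finset (Fin v)) : ℂ :=
  (e (X k Q τ 0 S) + e (X k Q τ 1 S) + e (-X k Q τ 0 S - X k Q τ 1 S)) / 3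

/-- The exponent controlling the size of the product. -/
noncomputable def qf {v : ℕ} (k Q : ℕ) (τ : Fin 2 × Fin v × Fin v → Fin Q) : ℝ :=
  ∑ S : Finset (Fin v), (s (X k Q τ 0 S - X k Q τ 1 S) + s (2 * X k Q τ 0 S + X k Q τ 1 S))

lemma norm_prod_F_le {v : ℕ} (k Q : ℕ) (τ : Fin 2 × Fin v × Fin v → Fin Q) :
    ‖∏ S, F k Q τ S‖ ≤ Real.exp (-(qf k Q τ / 9)) := by
  rw [norm_prod]
  have h : Real.exp (-(qf k Q τ / 9)) = ∏ S : Finset (Fin v),
      Real.exp (-((s (X k Q τ 0 S - X k Q τ 1 S) + s (2 * X k Q τ 0 S + X k Q τ 1 S)) / 9)) := by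
    rw [← Real.exp_sum]
    congr 1
    unfold qf
    rw [Finset.sum_div, Finset.sum_neg_distrib]
  rw [h]
  exact Finset.prod_le_prod (fun _ _ => norm_nonneg _) fun S _ => norm_three_le _ _

/-- The spread step: small total implies uniformly small. -/
lemma uniform_small {v : ℕ} (k : ℕ) (hk : 2 ≤ k) (hv : k + 2 ≤ v)
    (hbig : 3572100 * k ^ 4 * v ^ 9 < (v - 4).choose (k - 2)) (U : Fin v → Fin v → ℝ)
    (h : ∑ S ∈ univ.filter (fun S : Finset (Fin v) => S.card = k), nr (dsum U S) ^ 2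
      ≤ 18 * (v : ℝ) ^ 3 / 8) :
    ∀ S : Finset (Fin v), S.card = k → nr (dsum U S) ≤ 1 / (126 * (v : ℝ) ^ 3) := by
  classical
  have hv0 : (0 : ℝ) < v := by
    have : 0 < v := by omega
    exact_mod_cast this
  have hk0 : (0 : ℝ) < k := by
    have : 0 < k := by omega
    exact_mod_cast this
  set ε : ℝ := 1 / (630 * (k : ℝ) ^ 2 * (v : ℝ) ^ 3) with hε
  have hεpos : 0 < ε := by positivity
  set bad : Finset (Finset (Fin v)) :=
    (univ.filter (fun S : Finset (Fin v) => S.card = k)).filter (fun S => ε < nr (dsum U S)) with hbad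
  have h1 : (bad.card : ℝ) * ε ^ 2 ≤ 18 * (v : ℝ) ^ 3 / 8 := by
    refine le_trans ?_ h
    have h2 : ∑ S ∈ bad, nr (dsum U S) ^ 2
        ≤ ∑ S ∈ univ.filter (fun S : Finset (Fin v) => S.card = k), nr (dsum U S) ^ 2 :=
      Finset.sum_le_sum_of_subset_of_nonneg (Finset.filter_subset _ _) fun _ _ _ => sq_nonneg _
    refine le_trans ?_ h2
    rw [← nsmul_eq_mul]
    refine Finset.card_nsmul_le_sum _ _ _ fun S hS => ?_
    rw [hbad, Finset.mem_filter] at hS
    exact pow_le_pow_left₀ hεpos.le hS.2.le 2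
  have h3 : 4 * (bad.card : ℝ) ≤ 3572100 * (k : ℝ) ^ 4 * (v : ℝ) ^ 9 := by
    have h4 : ε ^ 2 = 1 / (396900 * (k : ℝ) ^ 4 * (v : ℝ) ^ 6) := by
      rw [hε]; field_simp; norm_num
    rw [h4] at h1
    rw [mul_one_div, div_le_iff₀ (by positivity)] at h1
    nlinarith
  have h5 : 4 * bad.card < (Fintype.card (Fin v) - 4).choose (k - 2) := by
    rw [Fintype.card_fin]
    refine lt_of_le_of_lt ?_ hbig
    exact_mod_cast h3
  have h6 := spread (V := Fin v) (A := UnitAddCircle) k hk (by rw [Fintype.card_fin]; omega) bad h5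
    (fun a b => (U a b : UnitAddCircle)) ε (by
      intro S hS hSb
      rw [← dsum_coe]
      by_contra hcon
      push Not at hcon
      apply hSb
      rw [hbad, Finset.mem_filter, Finset.mem_filter]
      exact ⟨⟨Finset.mem_univ _, hS⟩, hcon⟩)
  intro S hS
  have h7 := h6 S hS
  rw [← dsum_coe] at h7
  unfold nr
  refine h7.trans (le_of_eq ?_)
  rw [hε]
  field_simp
  norm_num

lemma near_re {v : ℕ} (k Q : ℕ) (hk : 2 ≤ k) (hv : k + 2 ≤ v)
    (h0 : 3 ∣ v.choose k) (h1 : 3 ∣ (v - 1).choose (k - 1))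
    (h2 : 3 ∣ (v - 2).choose (k - 2))
    (hbig : 3572100 * k ^ 4 * v ^ 9 < (v - 4).choose (k - 2))
    (τ : Fin 2 × Fin v × Fin v → Fin Q) (hq : qf k Q τ ≤ 18 * (v : ℝ) ^ 3) :
    0 ≤ (∏ S, F k Q τ S).re := by
  classical
  set K := univ.filter (fun S : Finset (Fin v) => S.card = k) with hK
  set x : Finset (Fin v) → ℝ := fun S => X k Q τ 0 S with hx
  set y : Finset (Fin v) → ℝ := fun S => X k Q τ 1 S with hy
  set u : Finset (Fin v) → ℝ := fun S => x S - y S with hu
  set w : Finset (Fin v) → ℝ := fun S => 2 * x S + y S with hw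
  have hv0 : (0 : ℝ) < v := by
    have : 0 < v := by omega
    exact_mod_cast this
  have hv4 : (4 : ℝ) ≤ v := by
    have : 4 ≤ v := by omega
    exact_mod_cast this
  -- total smallness
  have htot : ∑ S ∈ K, (nr (u S) ^ 2 + nr (w S) ^ 2) ≤ 18 * (v : ℝ) ^ 3 / 8 := by
    have e1 : ∑ S ∈ K, 8 * (nr (u S) ^ 2 + nr (w S) ^ 2) ≤ qf k Q τ := by
      unfold qf
      refine le_trans ?_ (Finset.sum_le_sum_of_subset_of_nonneg (Finset.subset_univ K)
        fun S _ _ => add_nonneg (s_nonneg _) (s_nonneg _))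
      refine Finset.sum_le_sum fun S _ => ?_
      have a1 := s_lower (u S)
      have a2 := s_lower (w S)
      rw [nr_eq, nr_eq, sq_abs, sq_abs]
      simp only [hu, hw, hx, hy] at a1 a2 ⊢
      linarith
    rw [← Finset.mul_sum] at e1
    linarith
  have hU : ∀ S, S.card = k → u S = dsum (fun a b => ((τ (0, a, b) : ℕ) : ℝ) / Q
      - ((τ (1, a, b) : ℕ) : ℝ) / Q) S := by
    intro S hS
    simp only [hu, hx, hy, X, hS, if_true]
    unfold dsum
    rw [← Finset.sum_sub_distrib]
    exact Finset.sum_congr rfl fun a _ => by rw [← Finset.sum_sub_distrib]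
  have hW : ∀ S, S.card = k → w S = dsum (fun a b => 2 * (((τ (0, a, b) : ℕ) : ℝ) / Q)
      + ((τ (1, a, b) : ℕ) : ℝ) / Q) S := by
    intro S hS
    simp only [hw, hx, hy, X, hS, if_true]
    unfold dsum
    rw [Finset.mul_sum, ← Finset.sum_add_distrib]
    refine Finset.sum_congr rfl fun a _ => by rw [Finset.mul_sum, ← Finset.sum_add_distrib]
  have hus : ∀ S : Finset (Fin v), S.card = k → nr (u S) ≤ 1 / (126 * (v : ℝ) ^ 3) := by
    intro S hS
    rw [hU S hS]
    refine uniform_small k hk hv hbig _ ?_ S hS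
    refine le_trans ?_ htot
    refine Finset.sum_le_sum fun S' hS' => ?_
    rw [Finset.mem_filter] at hS'
    rw [← hU S' hS'.2]
    have := sq_nonneg (nr (w S'))
    linarith
  have hws : ∀ S : Finset (Fin v), S.card = k → nr (w S) ≤ 1 / (126 * (v : ℝ) ^ 3) := by
    intro S hS
    rw [hW S hS]
    refine uniform_small k hk hv hbig _ ?_ S hS
    refine le_trans ?_ htot
    refine Finset.sum_le_sum fun S' hS' => ?_
    rw [Finset.mem_filter] at hS'
    rw [← hW S' hS'.2]
    have := sq_nonneg (nr (u S'))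
    linarith
  set η : ℝ := 1 / (126 * (v : ℝ) ^ 3) with hη
  have hηpos : 0 < η := by positivity
  have hv3 : (4 : ℝ) ^ 3 ≤ (v : ℝ) ^ 3 := pow_le_pow_left₀ (by norm_num) hv4 3
  have hηv : η * (126 * (v : ℝ) ^ 3) = 1 := by rw [hη]; field_simp
  have hη100 : η ≤ 1 / 100 := by
    rw [hη]
    apply one_div_le_one_div_of_le (by norm_num)
    nlinarith
  -- rounding
  obtain ⟨c0, c1, c2, hc⟩ := rounding k hk hv (fun a b => 3 * (((τ (0, a, b) : ℕ) : ℝ) / Q))
    (fun S => round (u S) + round (w S)) (2 * η) (by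
      intro S hS
      have e1 : dsum (fun a b => 3 * (((τ (0, a, b) : ℕ) : ℝ) / Q)) S = u S + w S := by
        simp only [hu, hw, hx, X, hS, if_true]
        unfold dsum
        simp only [← Finset.mul_sum]
        ring
      rw [e1]
      have a1 := hus S hS
      have a2 := hws S hS
      rw [nr_eq] at a1 a2
      have : u S + w S - ((round (u S) + round (w S) : ℤ) : ℝ)
          = (u S - round (u S)) + (w S - round (w S)) := by push_cast; ring
      rw [this]
      refine (abs_add_le _ _).trans ?_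
      linarith) (by
      have hkv : (k : ℝ) ≤ v := by
        have : k ≤ v := by omega
        exact_mod_cast this
      have hk0 : (0 : ℝ) ≤ k := Nat.cast_nonneg k
      have hk2 : (k : ℝ) ^ 2 ≤ (v : ℝ) ^ 2 := pow_le_pow_left₀ hk0 hkv 2
      have : 34 * (k : ℝ) ^ 2 * (2 * η) ≤ 34 * (v : ℝ) ^ 2 * (2 * η) := by
        have : 0 ≤ 2 * η := by positivity
        nlinarith
      refine lt_of_le_of_lt this ?_
      rw [hη]
      have e2 : 34 * (v : ℝ) ^ 2 * (2 * (1 / (126 * (v : ℝ) ^ 3))) = 68 / (126 * v) := by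
        field_simp; norm_num
      rw [e2, div_lt_one (by positivity)]
      linarith)
  have hdvd : (3 : ℤ) ∣ ∑ S ∈ K, (round (u S) + round (w S)) := by
    have := dvd_total k hk h0 h1 h2 c0 c1 c2
    rw [← hK] at this
    rw [Finset.sum_congr rfl (fun S hS => hc S (by rw [hK, Finset.mem_filter] at hS; exact hS.2))]
    exact this
  -- the product
  have hprod : ∏ S, F k Q τ S = ∏ S ∈ K, G (u S - round (u S)) (w S - round (w S)) := by
    have p1 : ∏ S, F k Q τ S = ∏ S ∈ K, F k Q τ S := by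
      rw [hK, Finset.prod_filter]
      refine Finset.prod_congr rfl fun S _ => ?_
      split_ifs with hS
      · rfl
      · unfold F X
        simp only [hS, if_false]
        rw [neg_zero, sub_zero, e_zero]; norm_num
    rw [p1]
    have p2 : ∀ S ∈ K, F k Q τ S = e (((round (u S) + round (w S) : ℤ) : ℝ) / 3)
        * G (u S - round (u S)) (w S - round (w S)) := by
      intro S _
      unfold F G
      rw [mul_div_assoc', mul_add, mul_add, ← e_add, ← e_add, ← e_add]
      have f1 : ((round (u S) + round (w S) : ℤ) : ℝ) / 3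
          + ((u S - round (u S)) + (w S - round (w S))) / 3 = x S := by
        simp only [hu, hw]; push_cast; ring
      have f2 : ((round (u S) + round (w S) : ℤ) : ℝ) / 3
          + ((w S - round (w S)) - 2 * (u S - round (u S))) / 3 = y S + (round (u S) : ℤ) := by
        simp only [hu, hw]; push_cast; ring
      have f3 : ((round (u S) + round (w S) : ℤ) : ℝ) / 3
          + ((u S - round (u S)) - 2 * (w S - round (w S))) / 3 = -x S - y S + (round (w S) : ℤ) := by
        simp only [hu, hw]; push_cast; ring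
      rw [f1, f2, f3, e_add (y S), e_int, e_add (-x S - y S), e_int, mul_one, mul_one]
    rw [Finset.prod_congr rfl p2, Finset.prod_mul_distrib, ← e_sum]
    have p3 : ∑ S ∈ K, ((round (u S) + round (w S) : ℤ) : ℝ) / 3
        = ((∑ S ∈ K, (round (u S) + round (w S)) : ℤ) : ℝ) / 3 := by
      push_cast
      rw [← Finset.sum_div]
    rw [p3]
    obtain ⟨m, hm⟩ := hdvd
    rw [hm]
    have p4 : ((3 * m : ℤ) : ℝ) / 3 = (m : ℝ) := by push_cast; ring
    rw [p4, e_int, one_mul]
  rw [hprod]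
  refine (prod_re_pos K _ ?_ ?_).le
  · intro S hS
    rw [hK, Finset.mem_filter] at hS
    refine G_re _ _ η hη100 ?_ ?_
    · rw [← nr_eq]; exact hus S hS.2
    · rw [← nr_eq]; exact hws S hS.2
  · have g1 : ∑ S ∈ K, |(G (u S - round (u S)) (w S - round (w S))).im|
        ≤ ∑ S ∈ K, 14 * η * (nr (u S) ^ 2 + nr (w S) ^ 2) := by
      refine Finset.sum_le_sum fun S hS => ?_
      rw [hK, Finset.mem_filter] at hS
      have := G_im (u S - round (u S)) (w S - round (w S)) η
        (by rw [← nr_eq]; exact hus S hS.2) (by rw [← nr_eq]; exact hws S hS.2)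
      rw [nr_eq, nr_eq, sq_abs, sq_abs]
      exact this
    refine g1.trans ?_
    rw [← Finset.mul_sum]
    have g2 : 14 * η * ∑ S ∈ K, (nr (u S) ^ 2 + nr (w S) ^ 2)
        ≤ 14 * η * (18 * (v : ℝ) ^ 3 / 8) :=
      mul_le_mul_of_nonneg_left htot (by positivity)
    nlinarith

lemma two_pow_add_one_le (v : ℕ) (hv : 2 ≤ v) : (2 : ℝ) ^ v + 1 ≤ (2.7 : ℝ) ^ v := by
  induction v, hv using Nat.le_induction with
  | base => norm_num
  | succ n hn ih =>
    rw [pow_succ, pow_succ]
    have : (0 : ℝ) < 2 ^ n := by positivity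
    nlinarith

/-- The general existence theorem for colourings. -/
theorem exists_colouring (v k : ℕ) (hk : 2 ≤ k) (hv : k + 2 ≤ v)
    (h0 : 3 ∣ v.choose k) (h1 : 3 ∣ (v - 1).choose (k - 1))
    (h2 : 3 ∣ (v - 2).choose (k - 2))
    (hbig : 3572100 * k ^ 4 * v ^ 9 < (v - 4).choose (k - 2)) :
    ∃ g : Finset (Fin v) → Fin 3, ∀ i : Fin 2 × Fin v × Fin v, ∑ S, Mat k S (g S) i = 0 := by
  classical
  by_contra hcon
  push Not at hcon
  set Q : ℕ := 2 ^ v + 1 with hQ
  have hQpos : 0 < Q := Nat.succ_pos _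
  have hnd : ∀ g : Finset (Fin v) → Fin 3, ∃ i, ¬ (Q : ℤ) ∣ ∑ S, Mat k S (g S) i := by
    intro g
    obtain ⟨i, hi⟩ := hcon g
    refine ⟨i, fun hd => hi ?_⟩
    have hb : |∑ S, Mat k S (g S) i| < Q := by
      refine lt_of_le_of_lt (Finset.abs_sum_le_sum_abs _ _) ?_
      refine lt_of_le_of_lt (Finset.sum_le_card_nsmul _ _ 1 fun S _ => ?_) ?_
      · unfold Mat
        split_ifs
        · exact wt_abs _ _
        · simp
      · rw [Finset.card_univ, Fintype.card_finset, Fintype.card_fin, hQ]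
        simp
    exact Int.eq_zero_of_abs_lt_dvd hd hb
  have hF := fourier Q hQpos (fun (S : Finset (Fin v)) (c : Fin 3) => Mat k S c) hnd
  have hF2 : ∑ τ : Fin 2 × Fin v × Fin v → Fin Q, ∏ S, F k Q τ S = 0 := by
    have : ∀ τ : Fin 2 × Fin v × Fin v → Fin Q, ∏ S, F k Q τ S
        = (∏ S, ∑ c : Fin 3, e (∑ i, ((τ i : ℕ) : ℝ) * Mat k S c i / Q))
          / 3 ^ (univ : Finset (Finset (Fin v))).card := by
      intro τ
      rw [← Finset.prod_const, ← Finset.prod_div_distrib]
      refine Finset.prod_congr rfl fun S _ => ?_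
      rw [colour_sum]; rfl
    simp_rw [this]
    rw [← Finset.sum_div, hF, zero_div]
  have hvR : (4 : ℝ) ≤ v := by
    have : 4 ≤ v := by omega
    exact_mod_cast this
  refine sum_ne_zero_of_near (fun τ => ∏ S, F k Q τ S) (fun τ => qf k Q τ ≤ 18 * (v : ℝ) ^ 3)
    (fun _ => ⟨0, hQpos⟩) ?_ (fun τ hτ => near_re k Q hk hv h0 h1 h2 hbig τ hτ)
    (Real.exp (-(2 * (v : ℝ) ^ 3))) (Real.exp_pos _) ?_ ?_ hF2
  · refine Finset.prod_eq_one fun S _ => ?_
    unfold F X dsum
    simp only [Nat.cast_zero, zero_div, Finset.sum_const_zero, ite_self]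
    rw [neg_zero, sub_zero, e_zero]; norm_num
  · intro τ hτ
    push Not at hτ
    refine (norm_prod_F_le k Q τ).trans ?_
    apply Real.exp_le_exp.2
    linarith
  · rw [Fintype.card_fun, Fintype.card_prod, Fintype.card_prod, Fintype.card_fin, Fintype.card_fin,
      Fintype.card_fin]
    have hQe : ((Q : ℕ) : ℝ) ≤ Real.exp v := by
      have e1 : (Real.exp 1) ^ v = Real.exp v := by
        rw [← Real.exp_nat_mul, mul_one]
      rw [← e1, hQ]
      push_cast
      have e2 : (2.7 : ℝ) ≤ Real.exp 1 := by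
        have := Real.exp_one_gt_d9; linarith
      exact le_trans (two_pow_add_one_le v (by omega)) (pow_le_pow_left₀ (by norm_num) e2 v)
    have hp : ((Q ^ (2 * (v * v)) : ℕ) : ℝ) ≤ Real.exp (2 * (v : ℝ) ^ 3) := by
      push_cast
      refine (pow_le_pow_left₀ (Nat.cast_nonneg _) hQe _).trans (le_of_eq ?_)
      rw [← Real.exp_nat_mul]
      congr 1
      push_cast
      ring
    calc ((Q ^ (2 * (v * v)) : ℕ) : ℝ) * Real.exp (-(2 * (v : ℝ) ^ 3))
        ≤ Real.exp (2 * (v : ℝ) ^ 3) * Real.exp (-(2 * (v : ℝ) ^ 3)) :=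
          mul_le_mul_of_nonneg_right hp (Real.exp_pos _).le
      _ = 1 := by rw [← Real.exp_add]; simp

end assembly

section final

/-- General existence of large sets of size three of 2-designs. -/
theorem exists_LS3 (v k : ℕ) (hk : 2 ≤ k) (hv : k + 2 ≤ v)
    (h0 : 3 ∣ v.choose k) (h1 : 3 ∣ (v - 1).choose (k - 1))
    (h2 : 3 ∣ (v - 2).choose (k - 2))
    (hbig : 3572100 * k ^ 4 * v ^ 9 < (v - 4).choose (k - 2)) :
    ∃ f : Finset (Fin v) → Fin 3, ∀ c : Fin 3, ∀ T : Finset (Fin v), T.card = 2 →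
      3 * (univ.filter (fun S : Finset (Fin v) => S.card = k ∧ T ⊆ S ∧ f S = c)).card
        = (v - 2).choose (k - 2) := by
  classical
  obtain ⟨g, hg⟩ := exists_colouring v k hk hv h0 h1 h2 hbig
  refine ⟨g, ?_⟩
  intro c T hT
  obtain ⟨x, y, hxy, rfl⟩ := Finset.card_eq_two.1 hT
  set N : Fin 3 → ℕ := fun c =>
    (univ.filter (fun S : Finset (Fin v) => S.card = k ∧ {x, y} ⊆ S ∧ g S = c)).card with hN
  have hsub : ∀ S : Finset (Fin v), ({x, y} ⊆ S ↔ x ∈ S ∧ y ∈ S) := by
    intro S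
    rw [Finset.insert_subset_iff, Finset.singleton_subset_iff]
  have key : ∀ β : Fin 2, ∑ c : Fin 3, wt c β * (N c : ℤ) = 0 := by
    intro β
    rw [← hg (β, x, y)]
    have e1 : ∀ S : Finset (Fin v), Mat k S (g S) (β, x, y)
        = ∑ c : Fin 3, if S.card = k ∧ {x, y} ⊆ S ∧ g S = c then wt c β else 0 := by
      intro S
      unfold Mat
      simp only [hsub]
      by_cases hS : S.card = k ∧ x ∈ S ∧ y ∈ S
      · rw [if_pos hS]
        rw [Finset.sum_eq_single (g S)]
        · rw [if_pos ⟨hS.1, hS.2, rfl⟩]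
        · intro b _ hb
          rw [if_neg]
          rintro ⟨-, -, h⟩
          exact hb h.symm
        · intro h; exact absurd (Finset.mem_univ _) h
      · rw [if_neg hS]
        symm
        refine Finset.sum_eq_zero fun c _ => ?_
        rw [if_neg]
        rintro ⟨h1, h2, -⟩
        exact hS ⟨h1, h2⟩
    simp_rw [e1]
    rw [Finset.sum_comm]
    refine Finset.sum_congr rfl fun c _ => ?_
    rw [← Finset.sum_filter, Finset.sum_const, nsmul_eq_mul, mul_comm]
  have k0 := key 0
  have k1 := key 1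
  rw [Fin.sum_univ_three] at k0 k1
  simp only [wt, Matrix.cons_val_zero, Matrix.cons_val_one, Matrix.cons_val] at k0 k1
  have htot : N 0 + N 1 + N 2 = (v - 2).choose (k - 2) := by
    have e1 := card_sup (v := v) k {x, y}
    rw [Finset.card_pair hxy, if_pos hk] at e1
    rw [← e1]
    have e2 := Finset.card_eq_sum_card_fiberwise (f := g)
      (s := univ.filter (fun S : Finset (Fin v) => S.card = k ∧ {x, y} ⊆ S))
      (t := (univ : Finset (Fin 3))) (fun _ _ => Finset.mem_coe.2 (Finset.mem_univ _))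
    rw [e2, Fin.sum_univ_three]
    simp only [hN, Finset.filter_filter, and_assoc]
  have hc : N c = N 0 := by
    fin_cases c
    · rfl
    · change N 1 = N 0
      omega
    · change N 2 = N 0
      omega
  change 3 * N c = _
  rw [hc, ← htot]
  omega

lemma three_pow_le_choose (b : ℕ) : ∀ a : ℕ, 3 * b ≤ a → 3 ^ b ≤ a.choose b := by
  induction b with
  | zero => intro a _; simp
  | succ b ih =>
    intro a ha
    obtain ⟨a', rfl⟩ : ∃ a', a = a' + 1 := ⟨a - 1, by omega⟩
    have h1 := ih a' (by omega)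
    have h2 := Nat.add_one_mul_choose_eq a' b
    have h3 : 3 * (b + 1) * 3 ^ b ≤ (a' + 1) * a'.choose b :=
      Nat.mul_le_mul ha h1
    rw [h2] at h3
    have h4 : 3 ^ (b + 1) * (b + 1) ≤ (a' + 1).choose (b + 1) * (b + 1) := by
      calc 3 ^ (b + 1) * (b + 1) = 3 * (b + 1) * 3 ^ b := by ring
        _ ≤ _ := h3
    exact Nat.le_of_mul_le_mul_right h4 (Nat.succ_pos b)

lemma growth (m : ℕ) (hm : 81 ≤ m) :
    3572100 * (m + 2) ^ 4 * (3 * m + 2) ^ 9 < 3 ^ (m - 2) := by
  induction m, hm using Nat.le_induction with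
  | base => norm_num
  | succ m hm ih =>
    have h1 : 83 * (m + 1 + 2) ≤ 84 * (m + 2) := by omega
    have h2 : 245 * (3 * (m + 1) + 2) ≤ 248 * (3 * m + 2) := by omega
    have h3 : (83 * (m + 1 + 2)) ^ 4 * (245 * (3 * (m + 1) + 2)) ^ 9
        ≤ (84 * (m + 2)) ^ 4 * (248 * (3 * m + 2)) ^ 9 :=
      Nat.mul_le_mul (Nat.pow_le_pow_left h1 4) (Nat.pow_le_pow_left h2 9)
    have h4 : 84 ^ 4 * 248 ^ 9 ≤ 3 * (83 ^ 4 * 245 ^ 9) := by norm_num
    have h5 : (83 ^ 4 * 245 ^ 9) * ((m + 1 + 2) ^ 4 * (3 * (m + 1) + 2) ^ 9)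
        ≤ (83 ^ 4 * 245 ^ 9) * (3 * ((m + 2) ^ 4 * (3 * m + 2) ^ 9)) := by
      calc (83 ^ 4 * 245 ^ 9) * ((m + 1 + 2) ^ 4 * (3 * (m + 1) + 2) ^ 9)
          = (83 * (m + 1 + 2)) ^ 4 * (245 * (3 * (m + 1) + 2)) ^ 9 := by ring
        _ ≤ (84 * (m + 2)) ^ 4 * (248 * (3 * m + 2)) ^ 9 := h3
        _ = (84 ^ 4 * 248 ^ 9) * ((m + 2) ^ 4 * (3 * m + 2) ^ 9) := by ring
        _ ≤ (3 * (83 ^ 4 * 245 ^ 9)) * ((m + 2) ^ 4 * (3 * m + 2) ^ 9) :=
            Nat.mul_le_mul_right _ h4
        _ = (83 ^ 4 * 245 ^ 9) * (3 * ((m + 2) ^ 4 * (3 * m + 2) ^ 9)) := by ring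
    have h6 : (m + 1 + 2) ^ 4 * (3 * (m + 1) + 2) ^ 9 ≤ 3 * ((m + 2) ^ 4 * (3 * m + 2) ^ 9) :=
      Nat.le_of_mul_le_mul_left h5 (by norm_num)
    have h7 : 3 ^ (m + 1 - 2) = 3 * 3 ^ (m - 2) := by
      rw [← pow_succ']
      congr 1
      omega
    rw [h7]
    calc 3572100 * (m + 1 + 2) ^ 4 * (3 * (m + 1) + 2) ^ 9
        = 3572100 * ((m + 1 + 2) ^ 4 * (3 * (m + 1) + 2) ^ 9) := by ring
      _ ≤ 3572100 * (3 * ((m + 2) ^ 4 * (3 * m + 2) ^ 9)) := Nat.mul_le_mul_left _ h6
      _ = 3 * (3572100 * (m + 2) ^ 4 * (3 * m + 2) ^ 9) := by ring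
      _ < 3 * 3 ^ (m - 2) := by omega

lemma choose_big (m j : ℕ) (hm : 81 ≤ m) (hj : j ≤ 2) :
    3572100 * (m + j) ^ 4 * (3 * m + 2) ^ 9 < (3 * m + 2 - 4).choose (m + j - 2) := by
  have h1 : 3572100 * (m + j) ^ 4 * (3 * m + 2) ^ 9
      ≤ 3572100 * (m + 2) ^ 4 * (3 * m + 2) ^ 9 := by
    apply Nat.mul_le_mul_right
    apply Nat.mul_le_mul_left
    exact Nat.pow_le_pow_left (by omega) 4
  refine lt_of_le_of_lt h1 (lt_of_lt_of_le (growth m hm) ?_)
  have hb : 3 ^ (m - 2) ≤ (3 * m + 2 - 4).choose (m - 2) := three_pow_le_choose _ _ (by omega)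
  have hb1 : 3 ^ (m - 2) ≤ (3 * m + 2 - 4).choose (m - 1) :=
    le_trans (Nat.pow_le_pow_right (by norm_num) (by omega)) (three_pow_le_choose (m - 1) _ (by omega))
  interval_cases j
  · simpa using hb
  · have : m + 1 - 2 = m - 1 := by omega
    rw [this]; exact hb1
  · have h3 : m + 2 - 2 = (m - 1) + 1 := by omega
    rw [h3]
    exact hb1.trans (Nat.choose_le_succ_of_lt_half_left (by omega))

end final

end Pool.Agent.S07915.LS

namespace Pool.Agent.S07915

/-- For every n>3 and j in {0,1,2}, the (3^n+j)-subsets of a (3^{n+1}+2)-set can be 3-coloured so each colour class is a 2-design: every pair lies in exactly C(3^{n+1},3^n+j−2)/3 blocks of each colour. -/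
theorem result :
    ∀ n : ℕ, 3 < n → ∀ j : ℕ, j ≤ 2 →
      ∃ f : Finset (Fin (3 ^ (n + 1) + 2)) → Fin 3,
        ∀ c : Fin 3, ∀ T : Finset (Fin (3 ^ (n + 1) + 2)), T.card = 2 →
          3 * (Finset.univ.filter
                (fun S : Finset (Fin (3 ^ (n + 1) + 2)) =>
                  S.card = 3 ^ n + j ∧ T ⊆ S ∧ f S = c)).card
            = Nat.choose (3 ^ (n + 1)) (3 ^ n + j - 2) := by
  intro n hn j hj
  have hm : 81 ≤ 3 ^ n := by
    calc 81 = 3 ^ 4 := by norm_num
      _ ≤ 3 ^ n := Nat.pow_le_pow_right (by norm_num) (by omega)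
  have h3 : 3 ^ (n + 1) = 3 * 3 ^ n := by rw [pow_succ]; ring
  have hd : ∀ i, i ≠ 0 → i ≠ 3 ^ (n + 1) → 3 ∣ (3 ^ (n + 1)).choose i := fun i h h' =>
    Nat.prime_three.dvd_choose_pow h h'
  obtain ⟨a, ha⟩ : ∃ a, 3 ^ n + j = a + 2 := ⟨3 ^ n + j - 2, by omega⟩
  have d0 : 3 ∣ (3 ^ (n + 1)).choose a := hd _ (by omega) (by omega)
  have d1 : 3 ∣ (3 ^ (n + 1)).choose (a + 1) := hd _ (by omega) (by omega)
  have d2 : 3 ∣ (3 ^ (n + 1)).choose (a + 2) := hd _ (by omega) (by omega)
  have g1 : 3 ∣ (3 ^ (n + 1) + 1).choose (a + 1) := by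
    rw [Nat.choose_succ_succ]; exact Nat.dvd_add d0 d1
  have g2 : 3 ∣ (3 ^ (n + 1) + 1).choose (a + 2) := by
    rw [Nat.choose_succ_succ]; exact Nat.dvd_add d1 d2
  have g3 : 3 ∣ (3 ^ (n + 1) + 2).choose (a + 2) := by
    rw [Nat.choose_succ_succ]; exact Nat.dvd_add g1 g2
  have hbig := LS.choose_big (3 ^ n) j hm hj
  rw [← h3, ha] at hbig
  have := LS.exists_LS3 (3 ^ (n + 1) + 2) (a + 2) (by omega) (by omega) g3
    (by simpa using g1) (by simpa using d0) hbig
  rw [ha]
  simpa using this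

end Pool.Agent.S07915
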