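import Pool.Statements.S07935
import Pool.Agent.Helper777.TDom2

set_option autoImplicit false
open Pool Pool.MP_f836ec_co

namespace Pool.Agent.S07935

/-- Every finite connected 3-regular graph on n vertices has a set S of at most n/2 vertices such that every vertex has a neighbour in S, and some dominating set lies entirely outside S. -/
theorem result :
    ∀ (V : Type) [Fintype V] [DecidableEq V] (G : SimpleGraph V) [DecidableRel G.Adj],
      G.Connected → G.IsRegularOfDegree 3 →
      ∃ S : Finset V,
        (∀ v : V, ∃ u ∈ S, G.Adj v u) ∧
        2 * S.card ≤ Fintype.card V ∧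
        ∃ D : Finset V, Disjoint D S ∧ ∀ v : V, v ∈ D ∨ ∃ u ∈ D, G.Adj v u := by
  intro V _ _ G _ hconn hreg
  by_cases h : ∃ C : Finset V, Pool.Agent.Helper777.TDom.bd G C = 1
  · exact Pool.Agent.Helper777.TDom.case_bridge G hconn hreg h
  · push Not at h
    exact Pool.Agent.Helper777.TDom.case_pm G hconn hreg h

end Pool.Agent.S07935
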