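import Pool.Statements.S07939

set_option autoImplicit false
open Pool Pool.MP_f8a456_co

namespace Pool.Agent.S07939

/-- every window of length `m` contains every factor of length `n` -/
def Win (x : ℕ → ℕ) (n m : ℕ) : Prop :=
  ∀ p i : ℕ, ∃ q : ℕ, p ≤ q ∧ q + n ≤ p + m ∧ ∀ j < n, x (q + j) = x (i + j)

/-- the recurrence function -/
noncomputable def Rec (x : ℕ → ℕ) (n : ℕ) : ℕ := sInf {m : ℕ | Win x n m}

variable {x : ℕ → ℕ}

lemma win_rec (h : ∀ n, ∃ m, Win x n m) (n : ℕ) : Win x n (Rec x n) :=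
  Nat.sInf_mem (s := {m : ℕ | Win x n m}) (h n)

lemma rec_le {n m : ℕ} (h : Win x n m) : Rec x n ≤ m := Nat.sInf_le h

lemma spacing (h : ∀ n, ∃ m, Win x n m)
    (hap : ¬ ∃ P N : ℕ, 0 < P ∧ ∀ i ≥ N, x (i + P) = x i)
    (q d L : ℕ) (hd : 0 < d) (hag : ∀ j < L, x (q + d + j) = x (q + j)) :
    L + d < Rec x (d + 1) := by
  by_contra hcon
  push Not at hcon
  apply hap
  refine ⟨d, 0, hd, ?_⟩
  intro i _
  obtain ⟨t, ht1, ht2, ht3⟩ := win_rec h (d + 1) q i
  have h0 := ht3 0 (by omega)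
  have h1 := ht3 d (by omega)
  have h2 := hag (t - q) (by omega)
  have e1 : q + d + (t - q) = t + d := by omega
  have e2 : q + (t - q) = t := by omega
  rw [e1, e2] at h2
  simp only [add_zero] at h0
  rw [← h1, h2, h0]

/-- two occurrences of the same word of length `L` closer than `2c` coincide -/
lemma close_eq (h : ∀ n, ∃ m, Win x n m)
    (hap : ¬ ∃ P N : ℕ, 0 < P ∧ ∀ i ≥ N, x (i + P) = x i)
    (C c L : ℕ) (hC : ∀ n, 1 ≤ n → Rec x n ≤ C * n)
    (hL : C * (2 * c) ≤ L) (U V : ℕ) (h1 : U < V + 2 * c) (h2 : V < U + 2 * c)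
    (hag : ∀ j < L, x (U + j) = x (V + j)) : U = V := by
  rcases lt_trichotomy U V with hlt | heq | hgt
  · exfalso
    have hs := spacing h hap U (V - U) L (by omega) (by
      intro j hj
      have e : U + (V - U) + j = V + j := by omega
      rw [e, hag j hj])
    have hR := hC (V - U + 1) (by omega)
    have : C * (V - U + 1) ≤ C * (2 * c) := Nat.mul_le_mul_left _ (by omega)
    omega
  · exact heq
  · exfalso
    have hs := spacing h hap V (U - V) L (by omega) (by
      intro j hj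
      have e : V + (U - V) + j = U + j := by omega
      rw [e, hag j hj])
    have hR := hC (U - V + 1) (by omega)
    have : C * (U - V + 1) ≤ C * (2 * c) := Nat.mul_le_mul_left _ (by omega)
    omega

lemma jump_data (h : ∀ n, ∃ m, Win x n m) (n : ℕ) (hj : ¬ (Rec x (n + 1) ≤ Rec x n + 1)) :
    ∃ a b b' : ℕ, a + (n + 1) ≤ Rec x (n + 1) ∧ b + (n + 1) ≤ Rec x (n + 1) ∧
      b' + (n + 1) ≤ Rec x (n + 1) ∧
      (∀ j < n, x (b + j) = x (a + j)) ∧ x (b + n) ≠ x (a + n) ∧
      x b' ≠ x a ∧ (∀ j, 1 ≤ j → j ≤ n → x (b' + j) = x (a + j)) := by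
  have hnw : ¬ Win x (n + 1) (Rec x n + 1) := fun hw => hj (rec_le hw)
  unfold Win at hnw
  push Not at hnw
  obtain ⟨p, i, hpi⟩ := hnw
  -- right special
  obtain ⟨q, hq1, hq2, hq3⟩ := win_rec h n p i
  have hqn : x (q + n) ≠ x (i + n) := by
    intro he
    obtain ⟨j, hj1, hj2⟩ := hpi q hq1 (by omega)
    rcases Nat.lt_succ_iff_lt_or_eq.mp hj1 with hlt | heq
    · exact hj2 (hq3 j hlt)
    · subst heq; exact hj2 he
  -- left special
  obtain ⟨r, hr1, hr2, hr3⟩ := win_rec h n (p + 1) (i + 1)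
  have hrn : x (r - 1) ≠ x i := by
    intro he
    obtain ⟨j, hj1, hj2⟩ := hpi (r - 1) (by omega) (by omega)
    rcases Nat.eq_zero_or_pos j with h0 | hpos
    · subst h0; exact hj2 (by simpa using he)
    · apply hj2
      have := hr3 (j - 1) (by omega)
      have e1 : r + (j - 1) = r - 1 + j := by omega
      have e2 : i + 1 + (j - 1) = i + j := by omega
      rw [e1, e2] at this
      exact this
  obtain ⟨a, ha1, ha2, ha3⟩ := win_rec h (n + 1) 0 i
  obtain ⟨b, hb1, hb2, hb3⟩ := win_rec h (n + 1) 0 q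
  obtain ⟨b', hb1', hb2', hb3'⟩ := win_rec h (n + 1) 0 (r - 1)
  refine ⟨a, b, b', by omega, by omega, by omega, ?_, ?_, ?_, ?_⟩
  · intro j hj
    rw [hb3 j (by omega), ha3 j (by omega), hq3 j hj]
  · rw [hb3 n (by omega), ha3 n (by omega)]
    exact hqn
  · have e1 := hb3' 0 (by omega)
    have e2 := ha3 0 (by omega)
    simp only [add_zero] at e1 e2
    rw [e1, e2]
    exact hrn
  · intro j hj1 hj2
    rw [hb3' j (by omega), ha3 j (by omega)]
    have := hr3 (j - 1) (by omega)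
    have e1 : r + (j - 1) = r - 1 + j := by omega
    have e2 : i + 1 + (j - 1) = i + j := by omega
    rw [e1, e2] at this
    exact this

/-- the combinatorial core: the quadruple of cells determines the jump -/
lemma inj_core (h : ∀ n, ∃ m, Win x n m)
    (hap : ¬ ∃ P N : ℕ, 0 < P ∧ ∀ i ≥ N, x (i + P) = x i)
    (C c n n' a a1 b b1 b' b1' : ℕ) (hC : ∀ n, 1 ≤ n → Rec x n ≤ C * n) (hc : 0 < c)
    (hn : C * (2 * c) + 2 * c ≤ n)
    (hR : ∀ j < n, x (b + j) = x (a + j)) (hRn : x (b + n) ≠ x (a + n))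
    (hL0 : x b' ≠ x a) (hL : ∀ j, 1 ≤ j → j ≤ n → x (b' + j) = x (a + j))
    (hR1 : ∀ j < n', x (b1 + j) = x (a1 + j)) (hRn1 : x (b1 + n') ≠ x (a1 + n'))
    (hL01 : x b1' ≠ x a1) (hL1 : ∀ j, 1 ≤ j → j ≤ n' → x (b1' + j) = x (a1 + j))
    (ea : a / c = a1 / c) (ee : (a + n) / c = (a1 + n') / c)
    (eb : b / c = b1 / c) (eb' : b' / c = b1' / c) : n = n' := by
  have ha1 := Nat.div_add_mod a c
  have ha2 := Nat.div_add_mod a1 c
  have ha3 := Nat.mod_lt a hc
  have ha4 := Nat.mod_lt a1 hc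
  have hb1 := Nat.div_add_mod b c
  have hb2 := Nat.div_add_mod b1 c
  have hb3 := Nat.mod_lt b hc
  have hb4 := Nat.mod_lt b1 hc
  have hb1' := Nat.div_add_mod b' c
  have hb2' := Nat.div_add_mod b1' c
  have hb3' := Nat.mod_lt b' hc
  have hb4' := Nat.mod_lt b1' hc
  have he1 := Nat.div_add_mod (a + n) c
  have he2 := Nat.div_add_mod (a1 + n') c
  have he3 := Nat.mod_lt (a + n) hc
  have he4 := Nat.mod_lt (a1 + n') hc
  rw [← ea] at ha2
  rw [← eb] at hb2
  rw [← eb'] at hb2'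
  rw [← ee] at he2
  set A := c * (a / c) with hA
  set B := c * (b / c) with hB
  set B' := c * (b' / c) with hB'
  set E := c * ((a + n) / c) with hE
  obtain ⟨u, hu⟩ : ∃ u, u = A + c := ⟨_, rfl⟩
  -- core is [u, E)
  have hlen : C * (2 * c) ≤ E - u := by omega
  have huE : u ≤ E := by omega
  -- right
  have hUU : b + (u - a) = b1 + (u - a1) := by
    apply close_eq h hap C c (E - u) hC hlen
    · omega
    · omega
    · intro j hj
      have e1 := hR (u - a + j) (by omega)
      have e2 := hR1 (u - a1 + j) (by omega)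
      have f1 : a + (u - a + j) = u + j := by omega
      have f2 : a1 + (u - a1 + j) = u + j := by omega
      rw [f1] at e1
      rw [f2] at e2
      rw [add_assoc, add_assoc, e1, e2]
  have hUU' : b' + (u - a) = b1' + (u - a1) := by
    apply close_eq h hap C c (E - u) hC hlen
    · omega
    · omega
    · intro j hj
      have e1 := hL (u - a + j) (by omega) (by omega)
      have e2 := hL1 (u - a1 + j) (by omega) (by omega)
      have f1 : a + (u - a + j) = u + j := by omega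
      have f2 : a1 + (u - a1 + j) = u + j := by omega
      rw [f1] at e1
      rw [f2] at e2
      rw [add_assoc, add_assoc, e1, e2]
  have hends : a + n = a1 + n' := by
    rcases lt_trichotomy (a + n) (a1 + n') with hlt | heq | hgt
    · exfalso
      apply hRn
      have e := hR1 (a + n - a1) (by omega)
      have f1 : b1 + (a + n - a1) = b + n := by omega
      have f2 : a1 + (a + n - a1) = a + n := by omega
      rw [f1, f2] at e
      exact e
    · exact heq
    · exfalso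
      apply hRn1
      have e := hR (a1 + n' - a) (by omega)
      have f1 : b + (a1 + n' - a) = b1 + n' := by omega
      have f2 : a + (a1 + n' - a) = a1 + n' := by omega
      rw [f1, f2] at e
      exact e
  have hstart : a = a1 := by
    rcases lt_trichotomy a a1 with hlt | heq | hgt
    · exfalso
      apply hL01
      have e := hL (a1 - a) (by omega) (by omega)
      have f1 : b' + (a1 - a) = b1' := by omega
      have f2 : a + (a1 - a) = a1 := by omega
      rw [f1, f2] at e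
      exact e
    · exact heq
    · exfalso
      apply hL0
      have e := hL1 (a - a1) (by omega) (by omega)
      have f1 : b1' + (a - a1) = b' := by omega
      have f2 : a1 + (a - a1) = a := by omega
      rw [f1, f2] at e
      exact e
  omega

/-- the number of jumps in `[N, 2N)`, `N = M c`, is bounded by a constant -/
lemma card_jumps (h : ∀ n, ∃ m, Win x n m)
    (hap : ¬ ∃ P N : ℕ, 0 < P ∧ ∀ i ≥ N, x (i + P) = x i)
    (C c M : ℕ) (hC : ∀ n, 1 ≤ n → Rec x n ≤ C * n) (hc : 0 < c)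
    (hM : M = 2 * C + 2) (J : Finset ℕ)
    (hJ : ∀ n ∈ J, M * c ≤ n ∧ n < 2 * (M * c) ∧ ¬ (Rec x (n + 1) ≤ Rec x n + 1)) :
    J.card ≤ (2 * C * M + 1) ^ 4 := by
  classical
  have hdata : ∀ n ∈ J, ∃ t : ℕ × ℕ × ℕ, t.1 + (n + 1) ≤ Rec x (n + 1) ∧
      t.2.1 + (n + 1) ≤ Rec x (n + 1) ∧
      t.2.2 + (n + 1) ≤ Rec x (n + 1) ∧
      (∀ j < n, x (t.2.1 + j) = x (t.1 + j)) ∧ x (t.2.1 + n) ≠ x (t.1 + n) ∧
      x t.2.2 ≠ x t.1 ∧ (∀ j, 1 ≤ j → j ≤ n → x (t.2.2 + j) = x (t.1 + j)) := by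
    intro n hn
    obtain ⟨a, b, b', hh⟩ := jump_data h n (hJ n hn).2.2
    exact ⟨(a, b, b'), hh⟩
  choose! t ht using hdata
  let K := 2 * C * M + 1
  let S : Finset (ℕ × ℕ × ℕ × ℕ) :=
    (Finset.range K) ×ˢ (Finset.range K) ×ˢ (Finset.range K) ×ˢ (Finset.range K)
  let f : ℕ → ℕ × ℕ × ℕ × ℕ := fun n =>
    ((t n).1 / c, ((t n).1 + n) / c, (t n).2.1 / c, (t n).2.2 / c)
  have hcard : S.card = K ^ 4 := by
    simp only [S, Finset.card_product, Finset.card_range]
    ring
  rw [← show K ^ 4 = (2 * C * M + 1) ^ 4 from rfl, ← hcard]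
  apply Finset.card_le_card_of_injOn f
  · intro n hn
    have hn' : n ∈ J := hn
    obtain ⟨h1, h2, h3, -⟩ := ht n hn'
    obtain ⟨j1, j2, -⟩ := hJ n hn'
    have hCn := hC (n + 1) (by omega)
    have hb : C * (n + 1) ≤ C * (2 * (M * c)) := Nat.mul_le_mul_left _ (by omega)
    have hb2 : C * (2 * (M * c)) = (2 * C * M) * c := by ring
    have key : ∀ y : ℕ, y + 1 ≤ C * (2 * (M * c)) → y / c < K := by
      intro y hy
      rw [Nat.div_lt_iff_lt_mul hc]
      have : K * c = (2 * C * M) * c + c := by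
        simp only [K]; ring
      omega
    simp only [S, f, Finset.coe_product, Finset.coe_range, Set.mem_prod, Set.mem_Iio]
    refine ⟨key _ (by omega), key _ (by omega), key _ (by omega), key _ (by omega)⟩
  · intro n hn n' hn' hff
    have hn1 : n ∈ J := hn
    have hn2 : n' ∈ J := hn'
    simp only [f, Prod.mk.injEq] at hff
    obtain ⟨e1, e2, e3, e4⟩ := hff
    obtain ⟨-, -, -, g1, g2, g3, g4⟩ := ht n hn1
    obtain ⟨-, -, -, k1, k2, k3, k4⟩ := ht n' hn2
    have hNn : C * (2 * c) + 2 * c ≤ n := by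
      have := (hJ n hn1).1
      have e : M * c = C * (2 * c) + 2 * c := by rw [hM]; ring
      omega
    exact inj_core h hap C c n n' _ _ _ _ _ _ hC hc hNn g1 g2 g3 g4 k1 k2 k3 k4 e1 e2 e3 e4

/-- without jumps the recurrence function grows by one at each step -/
lemma no_jump (n k : ℕ) (hk : ∀ m, n ≤ m → m < n + k → Rec x (m + 1) ≤ Rec x m + 1) :
    Rec x (n + k) ≤ Rec x n + k := by
  induction k with
  | zero => simp
  | succ k ih =>
    have h1 := ih (fun m hm1 hm2 => hk m hm1 (by omega))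
    have h2 := hk (n + k) (by omega) (by omega)
    have e : n + (k + 1) = n + k + 1 := by ring
    rw [e]
    omega

/-- there is a jump-free stretch -/
lemma flat_stretch (h : ∀ n, ∃ m, Win x n m)
    (hap : ¬ ∃ P N : ℕ, 0 < P ∧ ∀ i ≥ N, x (i + P) = x i)
    (C M T : ℕ) (hC : ∀ n, 1 ≤ n → Rec x n ≤ C * n)
    (hM : M = 2 * C + 2) (hT : T = (2 * C * M + 1) ^ 4 + 1) (c : ℕ) (hc : 0 < c) :
    ∃ j < T, Rec x ((T + j) * (M * c) + M * c) ≤ Rec x ((T + j) * (M * c)) + M * c := by
  classical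
  by_contra hcon
  push Not at hcon
  have hTpos : 0 < T := by omega
  -- in each block there is a jump
  have hjump : ∀ j ∈ Finset.range T, ∃ m, (T + j) * (M * c) ≤ m ∧ m < (T + j) * (M * c) + M * c ∧
      ¬ (Rec x (m + 1) ≤ Rec x m + 1) := by
    intro j hj
    by_contra hno
    push Not at hno
    have := no_jump (x := x) ((T + j) * (M * c)) (M * c) hno
    have := hcon j (Finset.mem_range.mp hj)
    omega
  choose! g hg using hjump
  have hinj : Set.InjOn g (Finset.range T : Finset ℕ) := by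
    intro j hj j' hj' he
    have h1 := hg j hj
    have h2 := hg j' hj'
    rw [he] at h1
    by_contra hne
    rcases Nat.lt_or_gt_of_ne hne with hlt | hgt
    · have : (T + j + 1) * (M * c) ≤ (T + j') * (M * c) := Nat.mul_le_mul_right _ (by omega)
      have e : (T + j + 1) * (M * c) = (T + j) * (M * c) + M * c := by ring
      omega
    · have : (T + j' + 1) * (M * c) ≤ (T + j) * (M * c) := Nat.mul_le_mul_right _ (by omega)
      have e : (T + j' + 1) * (M * c) = (T + j') * (M * c) + M * c := by ring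
      omega
  have hcard := card_jumps h hap C (T * c) M hC (Nat.mul_pos hTpos hc) hM
    ((Finset.range T).image g) (by
      intro n hn
      rw [Finset.mem_image] at hn
      obtain ⟨j, hj, rfl⟩ := hn
      have hj' := Finset.mem_range.mp hj
      obtain ⟨h1, h2, h3⟩ := hg j hj
      refine ⟨?_, ?_, h3⟩
      · calc M * (T * c) = T * (M * c) := by ring
          _ ≤ (T + j) * (M * c) := Nat.mul_le_mul_right _ (by omega)
          _ ≤ g j := h1
      · calc g j < (T + j) * (M * c) + M * c := h2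
          _ = (T + j + 1) * (M * c) := by ring
          _ ≤ (2 * T) * (M * c) := Nat.mul_le_mul_right _ (by omega)
          _ = 2 * (M * (T * c)) := by ring)
  rw [Finset.card_image_of_injOn hinj, Finset.card_range] at hcard
  omega

/-- lower bound on the recurrence function -/
lemma lower (h : ∀ n, ∃ m, Win x n m)
    (hap : ¬ ∃ P N : ℕ, 0 < P ∧ ∀ i ≥ N, x (i + P) = x i)
    (C : ℕ) (hC : ∀ n, 1 ≤ n → Rec x n ≤ C * n) (n : ℕ) :
    n + C * n ≤ C * (Rec x n + 2) := by
  obtain ⟨q, hq1, hq2, hq3⟩ := win_rec h n 0 0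
  obtain ⟨r, hr1, hr2, hr3⟩ := win_rec h n (q + 1) 0
  have hs := spacing h hap q (r - q) n (by omega) (by
    intro j hj
    have e : q + (r - q) + j = r + j := by omega
    rw [e, hr3 j hj, hq3 j hj])
  have h1 := hC (r - q + 1) (by omega)
  have h2 : C * (r - q + 1) ≤ C * (Rec x n + 2 - n) := Nat.mul_le_mul_left _ (by omega)
  have h3 : C * (Rec x n + 2 - n) + C * n = C * (Rec x n + 2) := by
    rw [← Nat.mul_add]
    congr 1
    omega
  omega

/-- For every uniformly recurrent, not eventually periodic infinite word, R(n)/n has no finite limit, where R(n) is the least m such that every length-m window contains all length-n factors. -/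
theorem result :
    ∀ (x : ℕ → ℕ),
      (∀ n : ℕ, ∃ m : ℕ, ∀ p i : ℕ, ∃ q : ℕ,
          p ≤ q ∧ q + n ≤ p + m ∧ ∀ j < n, x (q + j) = x (i + j)) →
      (¬ ∃ P N : ℕ, 0 < P ∧ ∀ i ≥ N, x (i + P) = x i) →
      ¬ ∃ L : ℝ, Filter.Tendsto
          (fun n : ℕ =>
            (((sInf {m : ℕ | ∀ p i : ℕ, ∃ q : ℕ,
                p ≤ q ∧ q + n ≤ p + m ∧ ∀ j < n, x (q + j) = x (i + j)} : ℕ) : ℝ)) / (n : ℝ))
          Filter.atTop (nhds L) := by
  intro x hw hap ⟨L, hL⟩
  have h : ∀ n, ∃ m, Win x n m := hw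
  have hL' : Filter.Tendsto (fun n : ℕ => (Rec x n : ℝ) / (n : ℝ)) Filter.atTop (nhds L) := hL
  clear hL
  -- bound
  obtain ⟨C, hC⟩ : ∃ C : ℕ, ∀ n, 1 ≤ n → Rec x n ≤ C * n := by
    obtain ⟨B, hB⟩ := hL'.bddAbove_range
    obtain ⟨C, hCB⟩ := exists_nat_ge B
    refine ⟨C, fun n hn => ?_⟩
    have h1 : (Rec x n : ℝ) / (n : ℝ) ≤ B := hB ⟨n, rfl⟩
    have hn' : (0 : ℝ) < n := by exact_mod_cast hn
    rw [div_le_iff₀ hn'] at h1
    have h2 : (Rec x n : ℝ) ≤ C * n := le_trans h1 (mul_le_mul_of_nonneg_right hCB hn'.le)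
    exact_mod_cast h2
  have hCpos : 0 < C := by
    rcases Nat.eq_zero_or_pos C with h0 | hpos
    · exfalso
      have := hC 1 le_rfl
      obtain ⟨q, hq1, hq2, hq3⟩ := win_rec h 1 0 0
      subst h0
      omega
    · exact hpos
  have hCr : (0 : ℝ) < C := by exact_mod_cast hCpos
  -- L ≥ 1 + 1/C
  have hLlow : 1 + 1 / (C : ℝ) ≤ L := by
    have hlim : Filter.Tendsto (fun n : ℕ => 1 + 1 / (C : ℝ) - 2 / (n : ℝ)) Filter.atTop
        (nhds (1 + 1 / (C : ℝ) - 0)) :=
      Filter.Tendsto.sub tendsto_const_nhds (tendsto_const_div_atTop_nhds_zero_nat 2)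
    rw [sub_zero] at hlim
    refine le_of_tendsto_of_tendsto hlim hL' ?_
    filter_upwards [Filter.eventually_ge_atTop 1] with n hn
    have hn' : (0 : ℝ) < n := by exact_mod_cast hn
    have hl := lower h hap C hC n
    have hl' : (n : ℝ) + C * n ≤ C * (Rec x n + 2) := by exact_mod_cast hl
    rw [le_div_iff₀ hn']
    have e : (1 + 1 / (C : ℝ) - 2 / (n : ℝ)) * n = (n + C * n) / C - 2 := by
      field_simp
      ring
    rw [e, sub_le_iff_le_add, div_le_iff₀ hCr]
    linarith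
  -- choose constants
  obtain ⟨M, hM⟩ : ∃ M, M = 2 * C + 2 := ⟨_, rfl⟩
  obtain ⟨T, hT⟩ : ∃ T, T = (2 * C * M + 1) ^ 4 + 1 := ⟨_, rfl⟩
  have hTpos : 0 < T := by omega
  have hTr : (0 : ℝ) < T := by exact_mod_cast hTpos
  obtain ⟨ε, hε⟩ : ∃ ε : ℝ, ε = 1 / (2 * C * (4 * T + 1)) := ⟨_, rfl⟩
  have hεpos : 0 < ε := by rw [hε]; positivity
  have hev := (Metric.tendsto_atTop.mp hL') ε hεpos
  obtain ⟨n0, hn0⟩ := hev
  obtain ⟨j, hj, hflat⟩ := flat_stretch h hap C M T hC hM hT (n0 + 1) (by omega)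
  obtain ⟨D, hD⟩ : ∃ D, D = M * (n0 + 1) := ⟨_, rfl⟩
  rw [← hD] at hflat
  have hDn0 : n0 < D := by
    rw [hD, hM]
    nlinarith
  have hDr : (0 : ℝ) < D := by
    have : 0 < D := by omega
    exact_mod_cast this
  have hn1 : n0 ≤ (T + j) * D := by nlinarith
  have hn2 : n0 ≤ (T + j) * D + D := by omega
  have a1 := hn0 _ hn1
  have a2 := hn0 _ hn2
  rw [Real.dist_eq, abs_lt] at a1 a2
  have hp1 : (0 : ℝ) < ((T + j : ℕ) * D : ℕ) := by
    push_cast
    positivity
  have hp2 : (0 : ℝ) < ((T + j : ℕ) * D + D : ℕ) := by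
    push_cast
    positivity
  have b1 : (Rec x ((T + j) * D) : ℝ) < (L + ε) * (((T + j) * D : ℕ) : ℝ) := by
    rw [← div_lt_iff₀ hp1]; linarith [a1.2]
  have b2 : (L - ε) * (((T + j) * D + D : ℕ) : ℝ) < (Rec x ((T + j) * D + D) : ℝ) := by
    rw [← lt_div_iff₀ hp2]; linarith [a2.1]
  have b3 : (Rec x ((T + j) * D + D) : ℝ) ≤ Rec x ((T + j) * D) + D := by exact_mod_cast hflat
  push_cast at b1 b2
  have b4 : (L - ε) * (((T : ℝ) + j) * D + D) < (L + ε) * (((T : ℝ) + j) * D) + D := by linarith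
  have hjr : (j : ℝ) ≤ T := by exact_mod_cast hj.le
  have b5 : (L - 1 - ε * (2 * ((T : ℝ) + j) + 1)) * D < 0 := by nlinarith
  have b6 : L - 1 - ε * (2 * ((T : ℝ) + j) + 1) < 0 := by
    by_contra hcon
    push Not at hcon
    have := mul_nonneg hcon hDr.le
    linarith
  have b7 : ε * (2 * ((T : ℝ) + j) + 1) ≤ ε * (4 * T + 1) :=
    mul_le_mul_of_nonneg_left (by linarith) hεpos.le
  have b8 : ε * (4 * T + 1) = 1 / (2 * C) := by
    rw [hε]
    field_simp
  have b9 : 1 / (2 * (C : ℝ)) < 1 / C := by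
    apply one_div_lt_one_div_of_lt hCr
    linarith
  linarith

end Pool.Agent.S07939
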