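import Pool.Statements.S07949
import Pool.Agent.Helper764.RamFinal

set_option autoImplicit false
open Pool Pool.MP_f8ea5b_co

namespace Pool.Agent.S07949

/-- For each q ≥ 2 there is c such that for every 3-uniform hypergraph with m edges and no isolated vertices, every q-colouring of the triples of a set of size ⌊2^(2^(c√m))⌋ contains a monochromatic copy of it. -/
theorem result :
    ∀ q : ℕ, 2 ≤ q → ∃ c : ℝ, ∀ (V : Type) [Fintype V] (E : Finset (Finset V)),
      (∀ e ∈ E, e.card = 3) → (∀ v : V, ∃ e ∈ E, v ∈ e) →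
      ∀ χ : Finset (Fin ⌊(2:ℝ) ^ ((2:ℝ) ^ (c * Real.sqrt (E.card : ℝ)))⌋₊) → Fin q,
        ∃ (f : V ↪ Fin ⌊(2:ℝ) ^ ((2:ℝ) ^ (c * Real.sqrt (E.card : ℝ)))⌋₊) (i : Fin q),
          ∀ e ∈ E, χ (e.map f) = i := by
  exact Ram3.final

end Pool.Agent.S07949
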