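import Pool.Statements.S07951

set_option autoImplicit false
open Pool Pool.MP_f9129e_co

namespace Pool.Agent.S07951

section Abstract

variable {V C P : Type*} [LinearOrder V]

/-- The upper endpoints of the edges of colour `a`. -/
def Up (c : V → V → C) (a : C) : Set V := {y | ∃ x, x < y ∧ c x y = a}

/-- The class `a` has an edge with both ends in `Up c s`. -/
def Inside (c : V → V → C) (a s : C) : Prop :=
  ∃ x y, x < y ∧ c x y = a ∧ x ∈ Up c s ∧ y ∈ Up c s

/-- A hierarchical system of labels compatible with the colouring `c`. -/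
structure Sys (c : V → V → C) (R : ℕ) (A : ℕ → V → P → ℕ) (β : C → P) : Prop where
  href : ∀ r x y b, A r x b = A r y b → A 0 x b = A 0 y b
  hsep : ∀ x y, x < y → A 0 x (β (c x y)) ≠ A 0 y (β (c x y))
  htop : ∀ a, ∀ y ∈ Up c a, ∀ z ∈ Up c a, A R y (β a) = A R z (β a)
  hstep : ∀ r, r < R → ∀ x y b, x < y → A (r+1) x b = A (r+1) y b →
      ∀ z ∈ Up c (c x y), ∀ w ∈ Up c (c x y), A r z b = A r w b

theorem exists_indep {c : V → V → C} {R : ℕ} {A : ℕ → V → P → ℕ} {β : C → P}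
    (h : Sys c R A β) (F : Finset C) (hF : F.Nonempty) (hc : F.card ≤ R + 1) :
    ∃ s ∈ F, ∀ a ∈ F, ¬ Inside c a s := by
  classical
  by_contra hcon
  push Not at hcon
  choose! f hf hin using hcon
  obtain ⟨s0, hs0⟩ := hF
  set g : ℕ → C := fun i => f^[i] s0 with hg
  have hgF : ∀ i, g i ∈ F := by
    intro i
    induction i with
    | zero => simpa [hg] using hs0
    | succ i ih =>
      have : g (i+1) = f (g i) := by simp only [hg, Function.iterate_succ_apply']
      rw [this]; exact hf _ ih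
  have hst : ∀ i, Inside c (g (i+1)) (g i) := by
    intro i
    have : g (i+1) = f (g i) := by simp only [hg, Function.iterate_succ_apply']
    rw [this]; exact hin _ (hgF i)
  have hpig : ∃ u v, u < v ∧ v ≤ F.card ∧ g u = g v := by
    obtain ⟨u, hu, v, hv, huv, he⟩ := Finset.exists_ne_map_eq_of_card_lt_of_maps_to
      (s := Finset.range (F.card+1)) (t := F) (by simp) (f := g) (fun i _ => hgF i)
    simp only [Finset.mem_range] at hu hv
    rcases lt_or_gt_of_ne huv with h1 | h1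
    · exact ⟨u, v, h1, by omega, he⟩
    · exact ⟨v, u, h1, by omega, he.symm⟩
  obtain ⟨u, v, huv, hv, he⟩ := hpig
  have key : ∀ s, s ≤ R → ∀ y ∈ Up c (g (u+s)), ∀ z ∈ Up c (g (u+s)),
      A (R - s) y (β (g u)) = A (R - s) z (β (g u)) := by
    intro s
    induction s with
    | zero => intro _ y hy z hz; exact h.htop (g u) y hy z hz
    | succ s ih =>
      intro hs y hy z hz
      obtain ⟨x', y', hlt, hcx, hx', hy'⟩ := hst (u+s)
      have e1 := ih (by omega) x' hx' y' hy'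
      have hR : R - s = (R - (s+1)) + 1 := by omega
      rw [hR] at e1
      have h2 := h.hstep (R-(s+1)) (by omega) x' y' _ hlt e1
      rw [hcx] at h2
      exact h2 y hy z hz
  obtain ⟨w, rfl⟩ : ∃ w, v = u + w + 1 := ⟨v - u - 1, by omega⟩
  obtain ⟨x', y', hlt, hcx, hx', hy'⟩ := hst (u+w)
  have e1 := key w (by omega) x' hx' y' hy'
  have e2 := h.href _ _ _ _ e1
  have e3 := h.hsep x' y' hlt
  rw [hcx, ← he] at e3
  exact e3 e2

theorem exists_coloring {c : V → V → C} {R : ℕ} {A : ℕ → V → P → ℕ} {β : C → P}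
    (h : Sys c R A β) : ∀ (m : ℕ) (F : Finset C), F.card = m → m ≤ R + 1 →
    ∃ φ : V → ℕ, (∀ v, φ v ≤ m) ∧ ∀ x y, x < y → c x y ∈ F → φ x ≠ φ y := by
  classical
  intro m
  induction m with
  | zero =>
    intro F hF _
    refine ⟨fun _ => 0, fun _ => le_rfl, ?_⟩
    intro x y _ hxy
    rw [Finset.card_eq_zero] at hF
    subst hF
    simp at hxy
  | succ m ih =>
    intro F hF hm
    have hne : F.Nonempty := by
      rw [← Finset.card_pos]; omega
    obtain ⟨s, hs, hind⟩ := exists_indep h F hne (by omega)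
    obtain ⟨ψ, hψ1, hψ2⟩ := ih (F.erase s) (by rw [Finset.card_erase_of_mem hs]; omega) (by omega)
    refine ⟨fun v => if v ∈ Up c s then m+1 else ψ v, ?_, ?_⟩
    · intro v
      dsimp only
      split_ifs
      · exact le_rfl
      · exact (hψ1 v).trans (Nat.le_succ m)
    · intro x y hxy hcxy
      dsimp only
      by_cases hsc : c x y = s
      · have hy : y ∈ Up c s := ⟨x, hxy, hsc⟩
        have hx : x ∉ Up c s := by
          intro hx
          have e1 := h.htop s x hx y hy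
          have e2 := h.href _ _ _ _ e1
          have e3 := h.hsep x y hxy
          rw [hsc] at e3
          exact e3 e2
        rw [if_pos hy, if_neg hx]
        have := hψ1 x
        omega
      · by_cases hx : x ∈ Up c s
        · by_cases hy : y ∈ Up c s
          · exact absurd ⟨x, y, hxy, rfl, hx, hy⟩ (hind (c x y) hcxy)
          · rw [if_pos hx, if_neg hy]
            have := hψ1 y
            omega
        · by_cases hy : y ∈ Up c s
          · rw [if_neg hx, if_pos hy]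
            have := hψ1 x
            omega
          · rw [if_neg hx, if_neg hy]
            exact hψ2 x y hxy (Finset.mem_erase.mpr ⟨hsc, hcxy⟩)

end Abstract

section Concrete

/-- Pairwise coprime base moduli. -/
def Md (W i : ℕ) : ℕ := (i + 1) * W + 1

theorem Md_coprime {W L : ℕ} (hW : ∀ d, 0 < d → d < L → d ∣ W) {i j : ℕ} (hi : i < L) (hj : j < L)
    (hij : i ≠ j) : Nat.Coprime (Md W i) (Md W j) := by
  by_contra hcon
  rw [Nat.Prime.not_coprime_iff_dvd] at hcon
  obtain ⟨p, hp, h1, h2⟩ := hcon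
  have hpW : ¬ p ∣ W := by
    intro h
    have h3 : p ∣ (i + 1) * W := h.mul_left _
    have h4 : p ∣ 1 := (Nat.dvd_add_right h3).mp h1
    exact hp.one_lt.ne' (Nat.dvd_one.mp h4)
  have key : ∀ a b : ℕ, a < b → b < L → p ∣ Md W a → p ∣ Md W b → False := by
    intro a b hab hb ha hb'
    have h5 : p ∣ Md W b - Md W a := Nat.dvd_sub hb' ha
    have h6 : Md W b - Md W a = (b - a) * W := by
      obtain ⟨e, rfl⟩ := Nat.exists_eq_add_of_lt hab
      unfold Md
      have : a + e + 1 - a = e + 1 := by omega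
      rw [this]
      have h7 : (a + e + 1 + 1) * W + 1 = (e + 1) * W + ((a + 1) * W + 1) := by ring
      rw [h7]
      exact Nat.add_sub_cancel _ _
    rw [h6] at h5
    rcases hp.dvd_mul.mp h5 with h8 | h8
    · have h9 : p ≤ b - a := Nat.le_of_dvd (by omega) h8
      exact hpW (hW p hp.pos (by omega))
    · exact hpW h8
  rcases lt_or_gt_of_ne hij with h | h
  · exact key i j h hj h1 h2
  · exact key j i h hi h2 h1

/-- The modulus of level `r` at the position `b`. -/
def Nm (W B R r b : ℕ) : ℕ := ∏ i ∈ Finset.range (B ^ r), Md W (b * B ^ R + i)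

/-- The label of level `r`. -/
def Lab (W B R : ℕ) {n T : ℕ} (r : ℕ) (x : Fin n) (b : Fin T) : ℕ := (x : ℕ) % Nm W B R r b

theorem Nm_pos (W B R r b : ℕ) : 0 < Nm W B R r b :=
  Finset.prod_pos (fun _ _ => Nat.succ_pos _)

theorem Nm_zero_dvd {W B R : ℕ} (hB : 1 ≤ B) (r b : ℕ) : Nm W B R 0 b ∣ Nm W B R r b := by
  unfold Nm
  apply Finset.prod_dvd_prod_of_subset
  intro i hi
  simp only [Finset.mem_range, pow_zero] at hi ⊢
  have : 1 ≤ B ^ r := Nat.one_le_pow _ _ hB
  omega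

theorem le_Md {W m i : ℕ} (hm : m ≤ W) : m ≤ Md W i := by
  unfold Md
  nlinarith [Nat.zero_le (i * W)]

theorem le_Nm {W B R m : ℕ} (hm : m ≤ W) (r b : ℕ) : m ^ (B ^ r) ≤ Nm W B R r b := by
  unfold Nm
  calc m ^ (B ^ r) = ∏ _i ∈ Finset.range (B ^ r), m := by simp
    _ ≤ _ := Finset.prod_le_prod' (fun i _ => le_Md hm)

theorem Nm_le {W B R M : ℕ} {T : ℕ} (hB : 1 ≤ B) (hM : ∀ i, i < T * B ^ R → Md W i ≤ M) {r b : ℕ}
    (hr : r ≤ R) (hb : b < T) : Nm W B R r b ≤ M ^ (B ^ r) := by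
  unfold Nm
  calc _ ≤ ∏ _i ∈ Finset.range (B ^ r), M := by
        apply Finset.prod_le_prod'
        intro i hi
        apply hM
        rw [Finset.mem_range] at hi
        have h1 : B ^ r ≤ B ^ R := Nat.pow_le_pow_right hB hr
        have h2 : (b + 1) * B ^ R ≤ T * B ^ R := Nat.mul_le_mul_right _ hb
        nlinarith
    _ = _ := by simp

theorem Nm_coprime {W B R T : ℕ} (hB : 1 ≤ B) (hW : ∀ d, 0 < d → d < T * B ^ R → d ∣ W) {r b b' : ℕ}
    (hr : r ≤ R) (hb : b < T) (hb' : b' < T) (hbb : b ≠ b') :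
    Nat.Coprime (Nm W B R r b) (Nm W B R r b') := by
  unfold Nm
  apply Nat.Coprime.prod_left
  intro i hi
  apply Nat.Coprime.prod_right
  intro j hj
  rw [Finset.mem_range] at hi hj
  have h1 : B ^ r ≤ B ^ R := Nat.pow_le_pow_right hB hr
  have h2 : (b + 1) * B ^ R ≤ T * B ^ R := Nat.mul_le_mul_right _ hb
  have h3 : (b' + 1) * B ^ R ≤ T * B ^ R := Nat.mul_le_mul_right _ hb'
  apply Md_coprime hW
  · nlinarith
  · nlinarith
  · intro heq
    rcases lt_or_gt_of_ne hbb with h | h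
    · have : (b + 1) * B ^ R ≤ b' * B ^ R := Nat.mul_le_mul_right _ h
      nlinarith
    · have : (b' + 1) * B ^ R ≤ b * B ^ R := Nat.mul_le_mul_right _ h
      nlinarith

/-- The set of positions of agreement of level `r`. -/
def Ag (W B R : ℕ) {n T : ℕ} (r : ℕ) (x y : Fin n) : Finset (Fin T) :=
  Finset.univ.filter (fun b => Lab W B R r x b = Lab W B R r y b)

theorem card_Ag {W B R n T m : ℕ} (hB : 1 ≤ B) (hW : ∀ d, 0 < d → d < T * B ^ R → d ∣ W)
    (hm : m ≤ W) (hn : n ≤ m ^ T) {r : ℕ} (hr : r ≤ R) {x y : Fin n} (hxy : x < y) :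
    B ^ r * (Ag W B R (T := T) r x y).card < T := by
  by_contra hcon
  push Not at hcon
  have hxy' : (x : ℕ) < (y : ℕ) := hxy
  have hdvd : ∏ b ∈ Ag W B R (T := T) r x y, Nm W B R r b ∣ (y : ℕ) - (x : ℕ) := by
    apply Finset.prod_dvd_of_isRelPrime
    · intro b _ b' _ hbb
      rw [Function.onFun, ← Nat.coprime_iff_isRelPrime]
      exact Nm_coprime hB hW hr b.2 b'.2 (fun h => hbb (Fin.ext h))
    · intro b hb
      have hb2 : Lab W B R r x b = Lab W B R r y b := (Finset.mem_filter.mp hb).2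
      exact (Nat.modEq_iff_dvd' hxy'.le).mp hb2
  have h1 : ∏ b ∈ Ag W B R (T := T) r x y, Nm W B R r b ≤ (y : ℕ) - (x : ℕ) :=
    Nat.le_of_dvd (by omega) hdvd
  have h2 : (m ^ (B ^ r)) ^ (Ag W B R (T := T) r x y).card ≤
      ∏ b ∈ Ag W B R (T := T) r x y, Nm W B R r b := by
    rw [← Finset.prod_const]
    exact Finset.prod_le_prod' (fun b _ => le_Nm hm r b)
  have hm0 : 0 < m := by
    rcases Nat.eq_zero_or_pos m with h0 | h0
    · exfalso
      subst h0
      rcases Nat.eq_zero_or_pos T with hT | hT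
      · subst hT
        simp at hn
        have := y.2
        omega
      · rw [zero_pow hT.ne'] at hn
        have := y.2
        omega
    · exact h0
  have h3 : m ^ T ≤ (m ^ (B ^ r)) ^ (Ag W B R (T := T) r x y).card := by
    rw [← pow_mul]
    exact Nat.pow_le_pow_right hm0 hcon
  have := y.2
  omega

/-- The type of colours. -/
abbrev Col (T R : ℕ) (σ κ : ℕ → ℕ) : Type :=
  Fin T × Fin (σ R) × ((r : Fin R) → Finset (Fin T) × (Fin (κ r) → Fin (σ r)))

theorem card_Col (T R : ℕ) (σ κ : ℕ → ℕ) :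
    Fintype.card (Col T R σ κ) = T * (σ R * ∏ r : Fin R, (2 ^ T * (σ r) ^ (κ r))) := by
  simp [Col, Fintype.card_prod, Fintype.card_pi]

theorem exists_enum {T : ℕ} (hT : 0 < T) (κ : ℕ) (D : Finset (Fin T)) :
    ∃ e : Fin κ → Fin T, D.card ≤ κ → ∀ b ∈ D, ∃ i, e i = b := by
  classical
  by_cases h : D.card ≤ κ
  · refine ⟨fun i => if hi : (i : ℕ) < D.card then (D.equivFin.symm ⟨i, hi⟩ : Fin T) else ⟨0, hT⟩, ?_⟩
    intro _ b hb
    have h1 := (D.equivFin ⟨b, hb⟩).2
    refine ⟨⟨(D.equivFin ⟨b, hb⟩ : ℕ), lt_of_lt_of_le h1 h⟩, ?_⟩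
    dsimp only
    rw [dif_pos h1]
    simp
  · exact ⟨fun _ => ⟨0, hT⟩, fun h' => absurd h' h⟩

theorem exists_sep {W B R n T m : ℕ} (hB : 1 ≤ B) (hW : ∀ d, 0 < d → d < T * B ^ R → d ∣ W)
    (hm : m ≤ W) (hn : n ≤ m ^ T) {x y : Fin n} (hxy : x < y) :
    ∃ b : Fin T, Lab W B R 0 x b ≠ Lab W B R 0 y b := by
  by_contra hcon
  push Not at hcon
  have h1 := card_Ag hB hW hm hn (Nat.zero_le R) hxy
  have h2 : Ag W B R (T := T) 0 x y = Finset.univ := by
    ext b
    simp [Ag, hcon b]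
  rw [h2] at h1
  simp at h1

/-- The main construction. -/
theorem exists_edge_coloring {B R n T m : ℕ} (hB : 1 ≤ B) (hT : T = B ^ (R + 1)) (hm : 1 ≤ m)
    (hn : n ≤ m ^ T) :
    ∃ k : ℕ, (∃ c : Sym2 (Fin n) → Fin k, ∀ S : Finset (Fin k), S.card ≤ R + 1 →
      ∃ φ : Fin n → ℕ, (∀ v, φ v ≤ S.card) ∧ ∀ x y, x < y → c s(x, y) ∈ S → φ x ≠ φ y) ∧
      k ≤ T * 2 ^ (T * R) * (((T * B ^ R) * (T * B ^ R).factorial + 1) * m) ^ ((R + 1) * B ^ R) := by
  classical
  have hT0 : 0 < T := by rw [hT]; positivity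
  set L := T * B ^ R with hL
  set W := m * L.factorial with hWdef
  have hW : ∀ d, 0 < d → d < T * B ^ R → d ∣ W := fun d h1 h2 =>
    (Nat.dvd_factorial h1 h2.le).mul_left _
  have hmW : m ≤ W := Nat.le_mul_of_pos_right _ (Nat.factorial_pos _)
  set M := (L * L.factorial + 1) * m with hM
  have hMd : ∀ i, i < T * B ^ R → Md W i ≤ M := by
    intro i hi
    have h1 : (i + 1) * W ≤ L * W := Nat.mul_le_mul_right _ hi
    have h2 : M = L * W + m := by rw [hM, hWdef]; ring
    unfold Md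
    omega
  set σ : ℕ → ℕ := fun r => M ^ (B ^ r) with hσ
  set κ : ℕ → ℕ := fun r => B ^ (R - r) with hκ
  choose e he using fun (r : ℕ) (D : Finset (Fin T)) => exists_enum hT0 (κ r) D
  have hlab : ∀ (r : ℕ), r ≤ R → ∀ (x : Fin n) (b : Fin T), Lab W B R r x b < σ r := by
    intro r hr x b
    exact lt_of_lt_of_le (Nat.mod_lt _ (Nm_pos _ _ _ _ _)) (Nm_le hB hMd hr b.2)
  have hbeta : ∀ x y : Fin n, ∃ b : Fin T, x < y → Lab W B R 0 x b ≠ Lab W B R 0 y b := by
    intro x y
    by_cases hxy : x < y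
    · obtain ⟨b, hb⟩ := exists_sep hB hW hmW hn hxy
      exact ⟨b, fun _ => hb⟩
    · exact ⟨⟨0, hT0⟩, fun h => absurd h hxy⟩
  choose bt hbt using hbeta
  let c : Fin n → Fin n → Col T R σ κ := fun x y =>
    (bt x y, ⟨Lab W B R R y (bt x y), hlab R le_rfl _ _⟩,
      fun r => (Ag W B R (r + 1) x y,
        fun i => ⟨Lab W B R r y (e r (Ag W B R (r + 1) x y) i), hlab r r.2.le _ _⟩))
  have hsys : Sys c R (fun r x b => Lab W B R r x b) (fun a => a.1) := by
    constructor
    · intro r x y b h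
      exact Nat.ModEq.of_dvd (Nm_zero_dvd hB r b) h
    · intro x y hxy
      exact hbt x y hxy
    · rintro a y ⟨x, hxy, rfl⟩ z ⟨w, hwz, hc⟩
      have h1 : bt w z = bt x y := congrArg (fun a => a.1) hc
      have h2 : Lab W B R R z (bt w z) = Lab W B R R y (bt x y) :=
        congrArg (fun a => (a.2.1 : ℕ)) hc
      rw [h1] at h2
      exact h2.symm
    · intro r hr x y b hxy hb z hz w hw
      have hmem : b ∈ Ag W B R (T := T) (r + 1) x y := by
        simp only [Ag, Finset.mem_filter, Finset.mem_univ, true_and]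
        exact hb
      have hcard : (Ag W B R (T := T) (r + 1) x y).card ≤ κ r := by
        have h1 := card_Ag (T := T) hB hW hmW hn (r := r + 1) hr hxy
        have h2 : T = B ^ (r + 1) * B ^ (R - r) := by
          rw [hT, ← pow_add]; congr 1; omega
        have h3 : B ^ (r + 1) * (Ag W B R (T := T) (r + 1) x y).card < B ^ (r + 1) * B ^ (R - r) :=
          lt_of_lt_of_eq h1 h2
        exact (Nat.lt_of_mul_lt_mul_left h3).le
      obtain ⟨i, hi⟩ := he r _ hcard b hmem
      have main : ∀ z ∈ Up c (c x y), Lab W B R r z b = Lab W B R r y b := by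
        rintro z ⟨w, hwz, hc⟩
        have h0 : (c w z).2.2 ⟨r, hr⟩ = (c x y).2.2 ⟨r, hr⟩ := by rw [hc]
        have h1 : Ag W B R (T := T) (r + 1) w z = Ag W B R (r + 1) x y :=
          congrArg (fun a => a.1) h0
        have h2 : Lab W B R r z (e r (Ag W B R (r + 1) w z) i) =
            Lab W B R r y (e r (Ag W B R (r + 1) x y) i) :=
          congrArg (fun a => ((a.2 i : Fin (σ r)) : ℕ)) h0
        rw [h1, hi] at h2
        exact h2
      rw [main z hz, main w hw]
  refine ⟨Fintype.card (Col T R σ κ), ?_, ?_⟩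
  · let E := Fintype.equivFin (Col T R σ κ)
    refine ⟨Sym2.lift ⟨fun x y => E (c (min x y) (max x y)), fun x y => by
      dsimp only
      rw [min_comm, max_comm]⟩, ?_⟩
    intro S hS
    obtain ⟨φ, h1, h2⟩ := exists_coloring hsys S.card (S.map E.symm.toEmbedding)
      (Finset.card_map _) hS
    refine ⟨φ, h1, ?_⟩
    intro x y hxy hc
    apply h2 x y hxy
    rw [Sym2.lift_mk] at hc
    simp only [min_eq_left hxy.le, max_eq_right hxy.le] at hc
    rw [Finset.mem_map]
    exact ⟨_, hc, by simp⟩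
  · rw [card_Col]
    have h1 : ∀ r : Fin R, 2 ^ T * (σ r) ^ (κ r) = 2 ^ T * M ^ (B ^ R) := by
      intro r
      rw [hσ, hκ]
      dsimp only
      rw [← pow_mul, ← pow_add]
      congr 3
      have := r.2
      omega
    rw [Finset.prod_congr rfl (fun r _ => h1 r)]
    rw [Finset.prod_const, Finset.card_univ, Fintype.card_fin, mul_pow, ← pow_mul, ← pow_mul]
    apply le_of_eq
    have h2 : σ R = M ^ (B ^ R) := rfl
    rw [h2]
    have h3 : (R + 1) * B ^ R = B ^ R + B ^ R * R := by ring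
    rw [h3, pow_add]
    ring

/-- The property of a number of colours `k` for the vertex number `n`. -/
def Good (p n k : ℕ) : Prop :=
  ∃ c : Sym2 (Fin n) → Fin k, ∀ S : Finset (Fin k), S.card ≤ p - 1 →
    (SimpleGraph.fromRel (fun i j : Fin n => c s(i, j) ∈ S)).Colorable p

theorem good_bound (p : ℕ) (hp : 2 ≤ p) (B : ℕ) (hB : 1 ≤ B) :
    ∃ C1 : ℕ, ∀ n, 1 ≤ n → ∃ k, Good p n k ∧ k ^ B ≤ C1 * n ^ (p - 1) := by
  obtain ⟨R, rfl⟩ : ∃ R, p = R + 2 := ⟨p - 2, by omega⟩
  have hR : R + 2 - 1 = R + 1 := rfl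
  rw [hR]
  set T := B ^ (R + 1) with hT
  set c0 := (T * B ^ R) * (T * B ^ R).factorial + 1 with hc0
  refine ⟨(T * 2 ^ (T * R)) ^ B * c0 ^ ((R + 1) * T) * (2 ^ T) ^ (R + 1), ?_⟩
  intro n hn
  have hT0 : 0 < T := by rw [hT]; positivity
  have hex : ∃ m, n ≤ m ^ T := ⟨n, Nat.le_self_pow hT0.ne' n⟩
  classical
  obtain ⟨m, hm, hmin⟩ : ∃ m, n ≤ m ^ T ∧ ∀ m' < m, ¬ n ≤ m' ^ T :=
    ⟨Nat.find hex, Nat.find_spec hex, fun m' h => Nat.find_min hex h⟩
  have hm1 : 1 ≤ m := by
    rcases Nat.eq_zero_or_pos m with h0 | h0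
    · subst h0
      rw [zero_pow hT0.ne'] at hm
      omega
    · exact h0
  have hmT : m ^ T ≤ 2 ^ T * n := by
    rcases Nat.lt_or_ge m 2 with h2 | h2
    · have : m = 1 := by omega
      subst this
      rw [one_pow]
      exact Nat.mul_pos (by positivity) hn
    · have h3 := hmin (m - 1) (by omega)
      have h4 : m ≤ 2 * (m - 1) := by omega
      calc m ^ T ≤ (2 * (m - 1)) ^ T := Nat.pow_le_pow_left h4 T
        _ = 2 ^ T * (m - 1) ^ T := mul_pow _ _ _
        _ ≤ 2 ^ T * n := Nat.mul_le_mul_left _ (by omega)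
  obtain ⟨k, ⟨c, hc⟩, hk⟩ := exists_edge_coloring hB hT hm1 hm
  refine ⟨k, ⟨c, ?_⟩, ?_⟩
  · intro S hS
    obtain ⟨φ, h1, h2⟩ := hc S hS
    refine ⟨SimpleGraph.Coloring.mk (fun v => (⟨φ v, ?_⟩ : Fin (R + 2))) ?_⟩
    · have := h1 v
      omega
    · intro v w hvw heq
      rw [SimpleGraph.fromRel_adj] at hvw
      have heq' : φ v = φ w := congrArg Fin.val heq
      have hS' : c s(v, w) ∈ S := by
        rcases hvw.2 with h | h
        · exact h
        · rw [Sym2.eq_swap]; exact h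
      rcases lt_or_gt_of_ne hvw.1 with h | h
      · exact h2 v w h hS' heq'
      · rw [Sym2.eq_swap] at hS'
        exact h2 w v h hS' heq'.symm
  · have hBT : (R + 1) * B ^ R * B = T * (R + 1) := by rw [hT]; ring
    calc k ^ B ≤ (T * 2 ^ (T * R) * (c0 * m) ^ ((R + 1) * B ^ R)) ^ B := Nat.pow_le_pow_left hk B
      _ = (T * 2 ^ (T * R)) ^ B * c0 ^ ((R + 1) * T) * (m ^ T) ^ (R + 1) := by
          rw [mul_pow _ _ B, ← pow_mul _ _ B, hBT, mul_pow c0 m, ← pow_mul m, mul_comm (R + 1) T,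
            mul_assoc]
      _ ≤ (T * 2 ^ (T * R)) ^ B * c0 ^ ((R + 1) * T) * (2 ^ T * n) ^ (R + 1) :=
          Nat.mul_le_mul_left _ (Nat.pow_le_pow_left hmT _)
      _ = (T * 2 ^ (T * R)) ^ B * c0 ^ ((R + 1) * T) * (2 ^ T) ^ (R + 1) * n ^ (R + 1) := by
          rw [mul_pow (2 ^ T) n (R + 1)]; ring

end Concrete

/-- For every p ≥ 5 there are edge colourings of K_n, for all n, with k(n) colours where k(n) ≤ n^ε eventually for each ε > 0, such that the union of any at most p−1 colour classes is properly p-colourable. -/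
theorem result :
    ∀ p : ℕ, 5 ≤ p →
      ∃ k : ℕ → ℕ,
        (∀ ε : ℝ, 0 < ε → ∀ᶠ n : ℕ in Filter.atTop, (k n : ℝ) ≤ (n : ℝ) ^ ε) ∧
        ∀ n : ℕ, ∃ c : Sym2 (Fin n) → Fin (k n),
          ∀ S : Finset (Fin (k n)), S.card ≤ p - 1 →
            (SimpleGraph.fromRel (fun i j : Fin n => c s(i, j) ∈ S)).Colorable p := by
  intro p hp
  classical
  have hne : ∀ n, ∃ k, Good p n k := by
    intro n
    rcases Nat.eq_zero_or_pos n with h | h
    · subst h
      refine ⟨1, fun _ => 0, ?_⟩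
      intro S _
      exact SimpleGraph.Colorable.of_isEmpty p
    · obtain ⟨C1, hC1⟩ := good_bound p (by omega) 1 le_rfl
      obtain ⟨k, hk, _⟩ := hC1 n h
      exact ⟨k, hk⟩
  refine ⟨fun n => Nat.find (hne n), ?_, fun n => Nat.find_spec (hne n)⟩
  intro ε hε
  obtain ⟨B, hB⟩ : ∃ B : ℕ, (p : ℝ) / ε ≤ B := exists_nat_ge _
  have hB1 : 1 ≤ B := by
    rcases Nat.eq_zero_or_pos B with h0 | h0
    · exfalso
      subst h0
      have h1 : 0 < (p : ℝ) / ε := div_pos (by exact_mod_cast (by omega : 0 < p)) hε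
      simp only [Nat.cast_zero] at hB
      linarith
    · exact h0
  have hBε : (p : ℝ) ≤ ε * B := by
    rw [div_le_iff₀ hε] at hB
    linarith
  obtain ⟨C1, hC1⟩ := good_bound p (by omega) B hB1
  rw [Filter.eventually_atTop]
  refine ⟨max 1 C1, ?_⟩
  intro n hn
  have hn1 : 1 ≤ n := le_trans (le_max_left _ _) hn
  have hnC : C1 ≤ n := le_trans (le_max_right _ _) hn
  obtain ⟨k, hk, hkb⟩ := hC1 n hn1
  have h1 : Nat.find (hne n) ≤ k := Nat.find_min' (hne n) hk
  have h2 : k ^ B ≤ n ^ p := by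
    calc k ^ B ≤ C1 * n ^ (p - 1) := hkb
      _ ≤ n * n ^ (p - 1) := Nat.mul_le_mul_right _ hnC
      _ = n ^ p := by
        rw [← pow_succ']
        congr 1
        omega
  have hnR : (1 : ℝ) ≤ n := by exact_mod_cast hn1
  have h3 : (k : ℝ) ^ B ≤ ((n : ℝ) ^ ε) ^ B := by
    calc (k : ℝ) ^ B ≤ (n : ℝ) ^ p := by exact_mod_cast h2
      _ = (n : ℝ) ^ (p : ℝ) := (Real.rpow_natCast _ _).symm
      _ ≤ (n : ℝ) ^ (ε * B) := Real.rpow_le_rpow_of_exponent_le hnR hBε
      _ = ((n : ℝ) ^ ε) ^ B := by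
        rw [Real.rpow_mul (by linarith), Real.rpow_natCast]
  have h4 : (k : ℝ) ≤ (n : ℝ) ^ ε :=
    le_of_pow_le_pow_left₀ (by omega) (Real.rpow_nonneg (by linarith) _) h3
  refine le_trans ?_ h4
  exact_mod_cast h1

end Pool.Agent.S07951
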