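import Pool.Statements.S07957
import Pool.Agent.Helper892.Par

set_option autoImplicit false
open Pool Pool.MP_f96441_co

namespace Pool.Agent.S07957

open Metric Set

/-- The bodies all of whose inscribed (possibly degenerate) parallelotopes have two vertices closer
than `g` contain a dense open set. -/
theorem residual_gap {d : ℕ} (hd : 5 ≤ d) {g : ℝ} (hg : 0 < g) :
    {K : ConvexBody (EuclideanSpace ℝ (Fin d)) |
      ¬ ∃ (x : EuclideanSpace ℝ (Fin d)) (v : Fin d → EuclideanSpace ℝ (Fin d)),
        (∀ s t : Finset (Fin d), s ≠ t → g ≤ ‖(x + ∑ i ∈ s, v i) - (x + ∑ i ∈ t, v i)‖) ∧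
        ∀ s : Finset (Fin d),
          x + ∑ i ∈ s, v i ∈ frontier (K : Set (EuclideanSpace ℝ (Fin d)))}
      ∈ residual (ConvexBody (EuclideanSpace ℝ (Fin d))) := by
  have hdim : Module.finrank ℝ (EuclideanSpace ℝ (Fin d)) * (Fintype.card (Fin d) + 1)
      < 2 ^ Fintype.card (Fin d) := by
    rw [finrank_euclideanSpace, Fintype.card_fin]
    induction d, hd using Nat.le_induction with
    | base => norm_num
    | succ n hn ih =>
      rw [pow_succ]
      nlinarith
  set G := {K : ConvexBody (EuclideanSpace ℝ (Fin d)) |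
      ¬ ∃ (x : EuclideanSpace ℝ (Fin d)) (v : Fin d → EuclideanSpace ℝ (Fin d)),
        (∀ s t : Finset (Fin d), s ≠ t → g ≤ ‖(x + ∑ i ∈ s, v i) - (x + ∑ i ∈ t, v i)‖) ∧
        ∀ s : Finset (Fin d),
          x + ∑ i ∈ s, v i ∈ frontier (K : Set (EuclideanSpace ℝ (Fin d)))} with hG
  have hdense : Dense (interior G) := by
    rw [Metric.dense_iff]
    intro K ε hε
    obtain ⟨K', hK', δ, hδ, hrob⟩ := Pool.Agent.Helper892.Par.approx hdim K hε hg
    refine ⟨K', ?_, ?_⟩
    · rw [mem_ball, dist_comm]; exact hK'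
    · rw [mem_interior]
      refine ⟨ball K' δ, ?_, isOpen_ball, mem_ball_self hδ⟩
      intro L hL
      rw [mem_ball, dist_comm] at hL
      exact hrob L hL
  exact Filter.mem_of_superset (residual_of_dense_open isOpen_interior hdense) interior_subset

/-- For all sufficiently large d, a residual (Baire-generic, Hausdorff metric) set of convex bodies in ℝ^d has no non-degenerate d-parallelotope whose 2^d vertices all lie on the body's boundary. -/
theorem result :
    ∃ d₀ : ℕ, ∀ d : ℕ, d₀ ≤ d →
      {K : ConvexBody (EuclideanSpace ℝ (Fin d)) |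
        ¬ ∃ (x : EuclideanSpace ℝ (Fin d)) (v : Fin d → EuclideanSpace ℝ (Fin d)),
          LinearIndependent ℝ v ∧
          ∀ s : Finset (Fin d),
            x + ∑ i ∈ s, v i ∈ frontier (K : Set (EuclideanSpace ℝ (Fin d)))}
        ∈ residual (ConvexBody (EuclideanSpace ℝ (Fin d))) := by
  refine ⟨5, fun d hd => ?_⟩
  have h := countable_iInter_mem.mpr
    (fun n : ℕ => residual_gap hd (g := 1 / ((n : ℝ) + 1)) (by positivity))
  refine Filter.mem_of_superset h ?_
  rintro K hK ⟨x, v, hv, hfr⟩
  rw [mem_iInter] at hK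
  -- the vertices are pairwise distinct, hence have a positive gap
  have hdist : ∀ q : Finset (Fin d) × Finset (Fin d), ∃ n : ℕ, q.1 ≠ q.2 →
      1 / ((n : ℝ) + 1) ≤ ‖(x + ∑ i ∈ q.1, v i) - (x + ∑ i ∈ q.2, v i)‖ := by
    rintro ⟨s, t⟩
    by_cases hst : s = t
    · exact ⟨0, fun h => absurd hst h⟩
    · have hpos : 0 < ‖(x + ∑ i ∈ s, v i) - (x + ∑ i ∈ t, v i)‖ := by
        rw [norm_pos_iff]
        intro h0
        apply hst
        have h1 : ∑ i, ((if i ∈ s then (1 : ℝ) else 0) - (if i ∈ t then (1 : ℝ) else 0)) • v i = 0 := by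
          rw [add_sub_add_left_eq_sub] at h0
          rw [← h0]
          simp only [sub_smul, ite_smul, one_smul, zero_smul, Finset.sum_sub_distrib]
          simp [Finset.sum_ite_mem]
        have h2 := Fintype.linearIndependent_iff.mp hv _ h1
        ext i
        have h3 := h2 i
        by_cases his : i ∈ s <;> by_cases hit : i ∈ t <;> simp_all
      obtain ⟨n, hn⟩ := exists_nat_one_div_lt hpos
      exact ⟨n, fun _ => hn.le⟩
  choose n hn using hdist
  obtain ⟨q₀, hq₀⟩ := Finite.exists_max n
  apply hK (n q₀)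
  refine ⟨x, v, ?_, hfr⟩
  intro s t hst
  refine le_trans ?_ (hn (s, t) hst)
  have := hq₀ (s, t)
  have h4 : (n (s, t) : ℝ) ≤ n q₀ := by exact_mod_cast this
  apply one_div_le_one_div_of_le (by positivity)
  linarith

end Pool.Agent.S07957
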