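import Pool.Statements.S07960
import Pool.Agent.Helper211.PSTEdge3

set_option autoImplicit false
open Pool Pool.MP_f96bdb_co

namespace Pool.Agent.S07960

/-- The negation of the preceding statement: There are k > 3 and c > 0 such that every finite connected graph with perfect state transfer between two distinct vertices (exp(itA)e_u = γe_v, ∣γ∣=1) has edge count at least c·D^k, D its diameter. -/
theorem result :
    ¬ (∃ k : ℝ, 3 < k ∧ ∃ c : ℝ, 0 < c ∧
      ∀ (V : Type) [Fintype V] [DecidableEq V] (G : SimpleGraph V) [DecidableRel G.Adj],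
        G.Connected →
        (∃ u v : V, u ≠ v ∧ ∃ t : ℝ, ∃ γ : ℂ, ‖γ‖ = 1 ∧
          (NormedSpace.exp ((Complex.I * (t : ℂ)) • G.adjMatrix ℂ)).mulVec (Pi.single u 1)
            = Pi.single v γ) →
        c * (G.diam : ℝ) ^ k ≤ (G.edgeFinset.card : ℝ)) :=
  Pool.Agent.Helper211.PSTEdge.final

end Pool.Agent.S07960
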