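import Pool.Statements.S07974

set_option autoImplicit false
open Pool Pool.MP_fa3e6d_co

namespace Pool.Agent.S07974

/-- adjacency table of a graph on nine vertices, row by row as bit masks -/
def row : Fin 9 → ℕ
  | 0 => 2^2 + 2^3 + 2^4 + 2^5 + 2^8
  | 1 => 2^2 + 2^3 + 2^5 + 2^6 + 2^7
  | 2 => 2^0 + 2^1 + 2^3 + 2^6
  | 3 => 2^0 + 2^1 + 2^2 + 2^8
  | 4 => 2^0 + 2^5 + 2^6 + 2^7 + 2^8
  | 5 => 2^0 + 2^1 + 2^4 + 2^7 + 2^8
  | 6 => 2^1 + 2^2 + 2^4 + 2^7 + 2^8
  | 7 => 2^1 + 2^4 + 2^5 + 2^6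
  | 8 => 2^0 + 2^3 + 2^4 + 2^5 + 2^6

def adjB (a b : Fin 9) : Bool := (row a).testBit b.val

/-- the graph -/
def G : SimpleGraph (Fin 9) where
  Adj a b := adjB a b = true
  symm := ⟨by decide⟩
  loopless := ⟨by decide⟩

instance : DecidableRel G.Adj := fun a b => inferInstanceAs (Decidable (adjB a b = true))

/-- irredundant sets, spelled as in the statement -/
def irr (S : Finset (Fin 9)) : Prop :=
  ∀ v ∈ S, ∃ w, (w = v ∨ G.Adj v w) ∧ ∀ u ∈ S, u ≠ v → ¬ (w = u ∨ G.Adj u w)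

instance : DecidablePred irr := fun S => by unfold irr; infer_instance

/-- the eight irredundant triples, in the order of the path -/
def sets : Fin 8 → Finset (Fin 9)
  | 0 => {0, 4, 5}
  | 1 => {0, 5, 8}
  | 2 => {3, 5, 8}
  | 3 => {3, 5, 6}
  | 4 => {1, 3, 6}
  | 5 => {1, 2, 6}
  | 6 => {2, 6, 7}
  | 7 => {2, 7, 8}

lemma sets_card : ∀ i, (sets i).card = 3 := by decide
lemma sets_irr : ∀ i, irr (sets i) := by decide +kernel
lemma irr_le : ∀ T : Finset (Fin 9), irr T → T.card ≤ 3 := by decide +kernel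
lemma irr_eq : ∀ T : Finset (Fin 9), irr T → 3 ≤ T.card → ∃ i, sets i = T := by decide +kernel
lemma sets_inj : ∀ i j, sets i = sets j → i = j := by decide +kernel

/-- the slide relation, spelled as in the statement -/
def slide (D D' : Finset (Fin 9)) : Prop :=
  ∃ v ∈ D, ∃ v' ∈ D', G.Adj v v' ∧ D' = insert v' (D.erase v)

instance : DecidableRel slide := fun D D' => by unfold slide; infer_instance

lemma key : ∀ i j : Fin 8,
    (sets i ≠ sets j ∧ (slide (sets i) (sets j) ∨ slide (sets j) (sets i))) ↔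
      (i.val + 1 = j.val ∨ j.val + 1 = i.val) := by decide +kernel

/-- the vertices of the slide graph -/
abbrev V := {S : Finset (Fin 9) //
                (∀ v ∈ S, ∃ w, (w = v ∨ G.Adj v w) ∧ ∀ u ∈ S, u ≠ v → ¬ (w = u ∨ G.Adj u w)) ∧
                ∀ T : Finset (Fin 9),
                  (∀ v ∈ T, ∃ w, (w = v ∨ G.Adj v w) ∧ ∀ u ∈ T, u ≠ v → ¬ (w = u ∨ G.Adj u w)) →
                  T.card ≤ S.card}

/-- the map from the path to the slide graph -/
def toV (i : Fin 8) : V :=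
  ⟨sets i, sets_irr i, fun T hT => by
    rw [sets_card i]
    exact irr_le T hT⟩

lemma toV_bij : Function.Bijective toV := by
  constructor
  · intro i j h
    exact sets_inj i j (congrArg Subtype.val h)
  · rintro ⟨T, h1, h2⟩
    have h3 : 3 ≤ T.card := by
      have := h2 (sets 0) (sets_irr 0)
      rwa [sets_card 0] at this
    obtain ⟨i, hi⟩ := irr_eq T h1 h3
    exact ⟨i, Subtype.ext hi⟩

/-- The negation of the preceding statement: For every finite graph G, its slide IR-graph (maximum irredundant sets, adjacent when one is obtained from the other by sliding a vertex along an edge) is not isomorphic to any path on n≥3 vertices nor any cycle on n≥5 vertices. -/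
theorem result :
    ¬ (∀ (m : ℕ) (G : SimpleGraph (Fin m)),
      (∀ n : ℕ, 3 ≤ n →
        IsEmpty (SimpleGraph.pathGraph n ≃g
          SimpleGraph.fromRel
            (fun D D' : {S : Finset (Fin m) //
                (∀ v ∈ S, ∃ w, (w = v ∨ G.Adj v w) ∧ ∀ u ∈ S, u ≠ v → ¬ (w = u ∨ G.Adj u w)) ∧
                ∀ T : Finset (Fin m),
                  (∀ v ∈ T, ∃ w, (w = v ∨ G.Adj v w) ∧ ∀ u ∈ T, u ≠ v → ¬ (w = u ∨ G.Adj u w)) →
                  T.card ≤ S.card} =>
              ∃ v ∈ D.1, ∃ v' ∈ D'.1, G.Adj v v' ∧ D'.1 = insert v' (D.1.erase v)))) ∧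
      (∀ n : ℕ, 5 ≤ n →
        IsEmpty (SimpleGraph.cycleGraph n ≃g
          SimpleGraph.fromRel
            (fun D D' : {S : Finset (Fin m) //
                (∀ v ∈ S, ∃ w, (w = v ∨ G.Adj v w) ∧ ∀ u ∈ S, u ≠ v → ¬ (w = u ∨ G.Adj u w)) ∧
                ∀ T : Finset (Fin m),
                  (∀ v ∈ T, ∃ w, (w = v ∨ G.Adj v w) ∧ ∀ u ∈ T, u ≠ v → ¬ (w = u ∨ G.Adj u w)) →
                  T.card ≤ S.card} =>
              ∃ v ∈ D.1, ∃ v' ∈ D'.1, G.Adj v v' ∧ D'.1 = insert v' (D.1.erase v))))) := by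
  intro H
  refine ((H 9 G).1 8 (by norm_num)).false ⟨Equiv.ofBijective toV toV_bij, ?_⟩
  intro i j
  rw [SimpleGraph.fromRel_adj, SimpleGraph.pathGraph_adj, ← key i j]
  constructor
  · rintro ⟨h1, h2⟩
    refine ⟨fun h => h1 (Subtype.ext h), h2⟩
  · rintro ⟨h1, h2⟩
    refine ⟨fun h => h1 (congrArg Subtype.val h), h2⟩

end Pool.Agent.S07974
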