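import Pool.Statements.S07976
import Pool.Agent.Helper989.TileFin
import Pool.Agent.Helper989.TileP

set_option autoImplicit false
open Pool Pool.MP_fa5b42_co

namespace Pool.Agent.S07976

open Pool.Agent.Helper989.Tile

theorem all_dat (i : Fin 14) : Tiling (WW (Ns i) (ms i)) ∧ typ (GW (WW (Ns i) (ms i))) = i ∧ 0 < Ns i := by
  fin_cases i
  · exact ⟨dat0.1, dat0.2, by decide⟩
  · exact ⟨dat1.1, dat1.2, by decide⟩
  · exact ⟨dat2.1, dat2.2, by decide⟩
  · exact ⟨dat3.1, dat3.2, by decide⟩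
  · exact ⟨dat4.1, dat4.2, by decide⟩
  · exact ⟨dat5.1, dat5.2, by decide⟩
  · exact ⟨dat6.1, dat6.2, by decide⟩
  · exact ⟨dat7.1, dat7.2, by decide⟩
  · exact ⟨dat8.1, dat8.2, by decide⟩
  · exact ⟨dat9.1, dat9.2, by decide⟩
  · exact ⟨dat10.1, dat10.2, by decide⟩
  · exact ⟨dat11.1, dat11.2, by decide⟩
  · exact ⟨dat12.1, dat12.2, by decide⟩
  · exact ⟨dat13.1, dat13.2, by decide⟩

theorem inv_trans (N mask : ℕ) (p q : ℤ) : Inv (WW N mask) ⟨1, 0, 0, 1, p * N, q * N⟩ := by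
  intro u v
  unfold WW ax ay
  dsimp only
  rw [tb_congr (x := 1 * u + 0 * v + 2 * (p * N)) (x' := u) (y := 0 * u + 1 * v + 2 * (q * N)) (y' := v)]
  · have : 1 * u + 0 * v + 2 * (p * N) = u + (2 * N : ℕ) * p := by push_cast; ring
    rw [this, Int.add_mul_emod_self_left]
  · have : 0 * u + 1 * v + 2 * (q * N) = v + (2 * N : ℕ) * q := by push_cast; ring
    rw [this, Int.add_mul_emod_self_left]

theorem trans_TT (N mask : ℕ) (p q : ℤ) :
    (fun A : Set (EuclideanSpace ℝ (Fin 2)) =>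
      (fun x : EuclideanSpace ℝ (Fin 2) => x + pt (p * N) (q * N)) '' A) '' (TT (WW N mask)) = TT (WW N mask) := by
  have hg : Good ⟨1, 0, 0, 1, p * N, q * N⟩ := by unfold Good Aff.is; simp
  have h := mem_Sy_of_inv hg (inv_trans N mask p q)
  have e : (gam ⟨1, 0, 0, 1, p * N, q * N⟩ hg : E → E) = fun x => x + pt (p * N) (q * N) := by
    funext x
    rw [add_pt]
    simp [act]
  change (fun A : Set E => (⇑(gam ⟨1, 0, 0, 1, p * N, q * N⟩ hg)) '' A) '' _ = _ at h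
  rw [e] at h
  exact h

theorem indep {N : ℕ} (hN : 0 < N) : LinearIndependent ℝ ![pt ((1:ℤ) * N) ((0:ℤ) * N), pt ((0:ℤ) * N) ((1:ℤ) * N)] := by
  rw [LinearIndependent.pair_iff]
  intro a b h
  rw [pt_comb] at h
  have h0 : (0 : E) = pt 0 0 := by
    rw [← pt_cs_ct 0]; simp [cs, ct]
  rw [h0, pt_inj] at h
  have hN' : (N : ℝ) ≠ 0 := by exact_mod_cast hN.ne'
  obtain ⟨h1, h2⟩ := h
  push_cast at h1 h2
  constructor
  · have : a * (N : ℝ) = 0 := by linarith
    exact (mul_eq_zero.mp this).resolve_right hN'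
  · have : b * (N : ℝ) = 0 := by linarith
    exact (mul_eq_zero.mp this).resolve_right hN'

/-- The negation of the preceding statement: If a polygonal closed disk P admits 14 monohedral plane tilings by congruent copies whose symmetry groups are wallpaper groups (two independent translations), pairwise non-isomorphic, then P is a 30-60-90 triangle. -/
theorem result :
    ¬ (∀ P : Set (EuclideanSpace ℝ (Fin 2)),
      Nonempty (P ≃ₜ Metric.closedBall (0 : EuclideanSpace ℝ (Fin 2)) 1) →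
      (∃ s : Finset (EuclideanSpace ℝ (Fin 2) × EuclideanSpace ℝ (Fin 2)),
        frontier P ⊆ ⋃ p ∈ s, segment ℝ p.1 p.2) →
      (∃ 𝒯 : Fin 14 → Set (Set (EuclideanSpace ℝ (Fin 2))),
        (∀ i,
          (∀ A ∈ 𝒯 i, ∃ g : EuclideanSpace ℝ (Fin 2) ≃ᵢ EuclideanSpace ℝ (Fin 2),
              A = (⇑g) '' P) ∧
          ⋃₀ (𝒯 i) = Set.univ ∧
          (𝒯 i).Pairwise (fun A B => Disjoint (interior A) (interior B)) ∧
          (∃ u v : EuclideanSpace ℝ (Fin 2),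
            LinearIndependent ℝ ![u, v] ∧
            (fun A : Set (EuclideanSpace ℝ (Fin 2)) =>
                (fun x : EuclideanSpace ℝ (Fin 2) => x + u) '' A) '' (𝒯 i) = 𝒯 i ∧
            (fun A : Set (EuclideanSpace ℝ (Fin 2)) =>
                (fun x : EuclideanSpace ℝ (Fin 2) => x + v) '' A) '' (𝒯 i) = 𝒯 i)) ∧
        (∀ i j, i ≠ j →
          ¬ ∃ φ : (EuclideanSpace ℝ (Fin 2) ≃ᵢ EuclideanSpace ℝ (Fin 2)) →
                (EuclideanSpace ℝ (Fin 2) ≃ᵢ EuclideanSpace ℝ (Fin 2)),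
              Set.BijOn φ
                {g : EuclideanSpace ℝ (Fin 2) ≃ᵢ EuclideanSpace ℝ (Fin 2) |
                  (fun A : Set (EuclideanSpace ℝ (Fin 2)) => (⇑g) '' A) '' (𝒯 i) = 𝒯 i}
                {g : EuclideanSpace ℝ (Fin 2) ≃ᵢ EuclideanSpace ℝ (Fin 2) |
                  (fun A : Set (EuclideanSpace ℝ (Fin 2)) => (⇑g) '' A) '' (𝒯 j) = 𝒯 j} ∧
              ∀ g ∈ {g : EuclideanSpace ℝ (Fin 2) ≃ᵢ EuclideanSpace ℝ (Fin 2) |
                  (fun A : Set (EuclideanSpace ℝ (Fin 2)) => (⇑g) '' A) '' (𝒯 i) = 𝒯 i},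
              ∀ h ∈ {g : EuclideanSpace ℝ (Fin 2) ≃ᵢ EuclideanSpace ℝ (Fin 2) |
                  (fun A : Set (EuclideanSpace ℝ (Fin 2)) => (⇑g) '' A) '' (𝒯 i) = 𝒯 i},
              φ (g * h) = φ g * φ h)) →
      ∃ a b c : EuclideanSpace ℝ (Fin 2),
        P = convexHull ℝ {a, b, c} ∧
        EuclideanGeometry.angle b a c = Real.pi / 6 ∧
        EuclideanGeometry.angle a b c = Real.pi / 3 ∧
        EuclideanGeometry.angle a c b = Real.pi / 2) := by
  intro H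
  have tile : ∀ i, ∀ A ∈ TT (WW (Ns i) (ms i)), ∃ g : E ≃ᵢ E, A = (⇑g) '' (Lz 1 1) := by
    rintro i A ⟨u, v, hA, rfl⟩
    obtain ⟨w, hw, e1, e2⟩ := exists_gam ((all_dat i).1.valid hA)
    exact ⟨gam w hw, by rw [image_Lz, e1, e2]⟩
  obtain ⟨a, b, c, h, -⟩ := H (Lz 1 1) homeo_P frontier_P
    ⟨fun i => TT (WW (Ns i) (ms i)), fun i => ⟨tile i, cover (all_dat i).1, disj (all_dat i).1,
      pt ((1:ℤ) * (Ns i)) ((0:ℤ) * (Ns i)), pt ((0:ℤ) * (Ns i)) ((1:ℤ) * (Ns i)), indep (all_dat i).2.2,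
      trans_TT _ _ _ _, trans_TT _ _ _ _⟩, by
      rintro i j hij ⟨φ, hφ, hm⟩
      have h1 := typ_of_iso (T := TT (WW (Ns i) (ms i))) (T' := TT (WW (Ns j) (ms j))) hφ hm
      rw [typ_SyS (all_dat i).1, typ_SyS (all_dat j).1, (all_dat i).2.1, (all_dat j).2.1] at h1
      exact hij (Fin.ext h1)⟩
  exact not_triangle a b c h

end Pool.Agent.S07976
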