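import Pool.Statements.S07979
import Pool.Agent.Helper717.DiskPoly

set_option autoImplicit false
open Pool Pool.MP_fac573_co

namespace Pool.Agent.S07979

open Filter Topology Pool.Agent.Helper717.Rounded in
/-- The general case of the perimeter bound, stated for inner sets. -/
lemma bound (t : ℝ) (ht1 : 1 ≤ t) (ht2 : t < Real.sqrt 3)
    (C : Finset (EuclideanSpace ℝ (Fin 2))) (hC : C.Nonempty)
    (hd : ∀ x ∈ C, ∀ y ∈ C, ‖x - y‖ ≤ t) :
    ENNReal.ofReal (2 * Real.pi - 6 * Real.arcsin (t / 2)) ≤
      MeasureTheory.Measure.hausdorffMeasure (1 : ℝ)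
        (frontier (Din (C : Set (EuclideanSpace ℝ (Fin 2))) 1)) := by
  rcases ht1.eq_or_lt with h | h
  · -- limit from above
    have hcont : Continuous fun s : ℝ =>
        ENNReal.ofReal (2 * Real.pi - 6 * Real.arcsin (s / 2)) := by
      have := Real.continuous_arcsin
      exact ENNReal.continuous_ofReal.comp (by fun_prop)
    have hlim : Tendsto (fun s : ℝ => ENNReal.ofReal (2 * Real.pi - 6 * Real.arcsin (s / 2)))
        (𝓝[>] t) (𝓝 (ENNReal.ofReal (2 * Real.pi - 6 * Real.arcsin (t / 2)))) :=
      (hcont.tendsto t).mono_left nhdsWithin_le_nhds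
    apply le_of_tendsto hlim
    filter_upwards [Ioo_mem_nhdsGT ht2] with s hs
    exact Pool.Agent.Helper717.DiskPoly.main s (by rw [h]; exact hs.1) hs.2 C hC
      (fun x hx y hy => (hd x hx y hy).trans hs.1.le)
  · exact Pool.Agent.Helper717.DiskPoly.main t h ht2 C hC hd

/-- For 1 ≤ t < √3 and any nonempty finite set of plane points with pairwise distances at most t, the perimeter of the intersection of the unit disks centred at them is at least 2π − 6·arcsin(t/2). -/
theorem result :
    ∀ t : ℝ, 1 ≤ t → t < Real.sqrt 3 →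
      ∀ C : Finset (EuclideanSpace ℝ (Fin 2)), C.Nonempty →
        (∀ x ∈ C, ∀ y ∈ C, dist x y ≤ t) →
          ENNReal.ofReal (2 * Real.pi - 6 * Real.arcsin (t / 2)) ≤
            MeasureTheory.Measure.hausdorffMeasure (1 : ℝ)
              (frontier (⋂ c ∈ C, Metric.closedBall c (1 : ℝ))) := by
  intro t ht1 ht2 C hC hd
  have h1 : (⋂ c ∈ C, Metric.closedBall c (1 : ℝ)) =
      Pool.Agent.Helper717.Rounded.Din (C : Set (EuclideanSpace ℝ (Fin 2))) 1 := by
    ext x
    simp [Pool.Agent.Helper717.Rounded.Din, dist_eq_norm]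
  rw [h1]
  exact bound t ht1 ht2 C hC (fun x hx y hy => by rw [← dist_eq_norm]; exact hd x hx y hy)

end Pool.Agent.S07979
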