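import Pool.Statements.S07996
-- import your own Pool.Agent.* helpers here

set_option autoImplicit false
open Pool Pool.MP_fb5c70_co

namespace Pool.Agent.S07996

open Finset

/-- counting step: there are `c` maps such that no two `k`-sets are avoided -/
theorem exists_maps (k c : ℕ) (hk : 1 ≤ k) (hc : 4 ^ 20 * 19 ^ c < 20 ^ c) :
    ∃ F : Fin c → Fin (20 * k) → Fin (20 * k),
      ∀ A B : Finset (Fin (20 * k)), A.card = k → B.card = k →
        ∃ i, ∃ a ∈ A, F i a ∈ B := by
  classical
  by_contra hcon
  push Not at hcon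
  set n := 20 * k with hn
  -- bad sets
  let bad : Finset (Fin n) × Finset (Fin n) → Finset (Fin c → Fin n → Fin n) := fun p =>
    Fintype.piFinset (fun _ : Fin c => Fintype.piFinset
      (fun a : Fin n => if a ∈ p.1 then (p.2)ᶜ else Finset.univ))
  let P : Finset (Finset (Fin n) × Finset (Fin n)) :=
    (Finset.univ).filter (fun p => p.1.card = k ∧ p.2.card = k)
  have hcover : (Finset.univ : Finset (Fin c → Fin n → Fin n)) ⊆ P.biUnion bad := by
    intro F _
    obtain ⟨A, B, hA, hB, h⟩ := hcon F
    rw [Finset.mem_biUnion]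
    refine ⟨(A, B), ?_, ?_⟩
    · simp [P, hA, hB]
    · simp only [bad, Fintype.mem_piFinset]
      intro i a
      by_cases ha : a ∈ A
      · simp only [ha, if_true]
        rw [Finset.mem_compl]
        exact h i a ha
      · simp [ha]
  have hbad : ∀ p ∈ P, (bad p).card = ((19 * k) ^ k * n ^ (19 * k)) ^ c := by
    intro p hp
    simp only [P, Finset.mem_filter, Finset.mem_univ, true_and] at hp
    simp only [bad, Fintype.card_piFinset]
    rw [Finset.prod_const, Finset.card_univ, Fintype.card_fin]
    congr 1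
    have h1 : ∀ a : Fin n, (if a ∈ p.1 then (p.2)ᶜ else (Finset.univ : Finset (Fin n))).card
        = if a ∈ p.1 then 19 * k else n := by
      intro a
      split_ifs
      · rw [Finset.card_compl, Fintype.card_fin, hp.2]; omega
      · simp
    rw [Finset.prod_congr rfl (fun a _ => h1 a), Finset.prod_ite, Finset.prod_const, Finset.prod_const]
    have h2 : (Finset.univ.filter (fun a => a ∈ p.1)).card = k := by
      rw [Finset.filter_mem_eq_inter, Finset.univ_inter, hp.1]
    have h3 : (Finset.univ.filter (fun a => a ∉ p.1)).card = 19 * k := by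
      have := Finset.card_filter_add_card_filter_not (s := (Finset.univ : Finset (Fin n))) (fun a => a ∈ p.1)
      rw [h2, Finset.card_univ, Fintype.card_fin] at this
      omega
    rw [h2, h3]
  have hP : P.card ≤ 4 ^ n := by
    calc P.card ≤ (Finset.univ : Finset (Finset (Fin n) × Finset (Fin n))).card :=
          Finset.card_le_card (Finset.filter_subset _ _)
      _ = 4 ^ n := by
          rw [Finset.card_univ, Fintype.card_prod, Fintype.card_finset, Fintype.card_fin,
            ← mul_pow]
          norm_num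
  have h1 : (n ^ n) ^ c ≤ 4 ^ n * ((19 * k) ^ k * n ^ (19 * k)) ^ c := by
    calc (n ^ n) ^ c = (Finset.univ : Finset (Fin c → Fin n → Fin n)).card := by
          simp
      _ ≤ (P.biUnion bad).card := Finset.card_le_card hcover
      _ ≤ ∑ p ∈ P, (bad p).card := Finset.card_biUnion_le
      _ = P.card * ((19 * k) ^ k * n ^ (19 * k)) ^ c := by
          rw [Finset.sum_congr rfl hbad, Finset.sum_const, smul_eq_mul]
      _ ≤ _ := Nat.mul_le_mul_right _ hP
  -- n ^ n = n ^ k * n ^ (19 k)
  have h2 : n ^ n = (20 * k) ^ k * n ^ (19 * k) := by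
    rw [← hn, ← pow_add]; congr 1; omega
  have h1' : ((20 * k) ^ k) ^ c * (n ^ (19 * k)) ^ c ≤
      (4 ^ n * ((19 * k) ^ k) ^ c) * (n ^ (19 * k)) ^ c := by
    rw [← mul_pow ((20 * k) ^ k), ← h2, mul_assoc, ← mul_pow ((19 * k) ^ k)]
    exact h1
  have hpos : 0 < (n ^ (19 * k)) ^ c := by
    have : 0 < n := by omega
    positivity
  have h3 := Nat.le_of_mul_le_mul_right h1' hpos
  -- ((20k)^k)^c ≤ 4^n ((19k)^k)^c
  have h4 : ((20 * k) ^ k) ^ c = (20 ^ c) ^ k * (k ^ k) ^ c := by
    rw [mul_pow, mul_pow]
    congr 1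
    rw [← pow_mul, ← pow_mul, mul_comm]
  have h5 : ((19 * k) ^ k) ^ c = (19 ^ c) ^ k * (k ^ k) ^ c := by
    rw [mul_pow, mul_pow]
    congr 1
    rw [← pow_mul, ← pow_mul, mul_comm]
  have h6 : 4 ^ n = (4 ^ 20) ^ k := by rw [← pow_mul]
  rw [h4, h5, h6, ← mul_assoc, ← mul_pow] at h3
  have hpos2 : 0 < (k ^ k) ^ c := by positivity
  have h7 := Nat.le_of_mul_le_mul_right h3 hpos2
  have h8 : (4 ^ 20 * 19 ^ c) ^ k < (20 ^ c) ^ k := Nat.pow_lt_pow_left hc (by omega)
  omega

/-- the cyclic blow-up of the pentagon on `m` vertices -/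
def penta (m : ℕ) : SimpleGraph (Fin m) where
  Adj x y := (x.val % 5 + 1) % 5 = y.val % 5 ∨ (y.val % 5 + 1) % 5 = x.val % 5
  symm := by
    constructor
    intro x y h
    exact h.symm
  loopless := by
    constructor
    intro x h
    omega

theorem penta_cliqueFree (m : ℕ) : (penta m).CliqueFree 3 := by
  classical
  intro s hs
  rw [SimpleGraph.is3Clique_iff] at hs
  obtain ⟨a, b, c, h1, h2, h3, -⟩ := hs
  simp only [penta] at h1 h2 h3
  omega

theorem residue_card (k r : ℕ) (hk : 1 ≤ k) :
    ((Finset.univ : Finset (Fin (2 * (20 * k) - 1))).filter (fun x => x.val % 5 = r)).card ≤ 8 * k := by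
  have h : ((Finset.univ : Finset (Fin (2 * (20 * k) - 1))).filter (fun x => x.val % 5 = r)).card
      ≤ (Finset.range (8 * k)).card := by
    refine Finset.card_le_card_of_injOn (fun x => x.val / 5) ?_ ?_
    · intro x hx
      have := x.isLt
      simp only [Finset.coe_range, Set.mem_Iio]
      omega
    · intro x hx y hy hxy
      simp only [Finset.coe_filter, Finset.mem_univ, true_and, Set.mem_ofPred_eq] at hx hy
      apply Fin.ext
      simp only at hxy
      omega
  simpa using h

/-- the sparse connected graph built from the maps -/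
def gr {n c : ℕ} (F : Fin c → Fin n → Fin n) : SimpleGraph (Fin n) :=
  SimpleGraph.fromRel (fun a b => (∃ i, F i a = b) ∨ a.val + 1 = b.val)

theorem gr_connected {m c : ℕ} (F : Fin c → Fin (m + 1) → Fin (m + 1)) : (gr F).Connected := by
  refine (SimpleGraph.pathGraph_connected m).mono ?_
  intro a b hab
  rw [SimpleGraph.pathGraph_adj] at hab
  unfold gr
  rw [SimpleGraph.fromRel_adj]
  refine ⟨?_, ?_⟩
  · rintro rfl
    omega
  · rcases hab with h | h
    · exact Or.inl (Or.inr h)
    · exact Or.inr (Or.inr h)

theorem gr_edges {n c : ℕ} (F : Fin c → Fin n → Fin n) :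
    (gr F).edgeSet.ncard ≤ (c + 1) * n := by
  classical
  let S1 : Finset (Sym2 (Fin n)) := (Finset.univ : Finset (Fin c × Fin n)).image
    (fun p => s(p.2, F p.1 p.2))
  let S2 : Finset (Sym2 (Fin n)) := (Finset.univ : Finset (Fin n)).image
    (fun a => s(a, if h : a.val + 1 < n then ⟨a.val + 1, h⟩ else a))
  have hsub : (gr F).edgeSet ⊆ ((S1 ∪ S2 : Finset (Sym2 (Fin n))) : Set (Sym2 (Fin n))) := by
    intro e
    induction e using Sym2.ind with
    | _ a b =>
      intro h
      rw [SimpleGraph.mem_edgeSet] at h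
      unfold gr at h
      rw [SimpleGraph.fromRel_adj] at h
      have key : ∀ x y : Fin n, ((∃ i, F i x = y) ∨ x.val + 1 = y.val) → s(x, y) ∈ S1 ∪ S2 := by
        intro x y hxy
        rcases hxy with ⟨i, hi⟩ | hxy
        · apply Finset.mem_union_left
          simp only [S1, Finset.mem_image, Finset.mem_univ, true_and]
          exact ⟨(i, x), by rw [← hi]⟩
        · apply Finset.mem_union_right
          simp only [S2, Finset.mem_image, Finset.mem_univ, true_and]
          refine ⟨x, ?_⟩
          have hlt : x.val + 1 < n := by rw [hxy]; exact y.isLt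
          have hy : (⟨x.val + 1, hlt⟩ : Fin n) = y := Fin.ext hxy
          rw [dif_pos hlt, hy]
      rcases h.2 with h | h
      · exact key a b h
      · rw [Sym2.eq_swap]
        exact key b a h
  calc (gr F).edgeSet.ncard ≤ ((S1 ∪ S2 : Finset (Sym2 (Fin n))) : Set (Sym2 (Fin n))).ncard :=
        Set.ncard_le_ncard hsub (Finset.finite_toSet _)
    _ = (S1 ∪ S2).card := Set.ncard_coe_finset _
    _ ≤ S1.card + S2.card := Finset.card_union_le _ _
    _ ≤ c * n + n := by
        apply Nat.add_le_add
        · refine Finset.card_image_le.trans ?_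
          simp
        · refine Finset.card_image_le.trans ?_
          simp
    _ = (c + 1) * n := by ring

theorem main_step (k c : ℕ) (hk : 1 ≤ k) (F : Fin c → Fin (20 * k) → Fin (20 * k))
    (hF : ∀ A B : Finset (Fin (20 * k)), A.card = k → B.card = k → ∃ i, ∃ a ∈ A, F i a ∈ B)
    (f : Fin (20 * k) → Fin (2 * (20 * k) - 1)) (hf : Function.Injective f)
    (hom : ∀ u v, (gr F).Adj u v → (penta (2 * (20 * k) - 1))ᶜ.Adj (f u) (f v)) : False := by
  classical
  let A : ℕ → Finset (Fin (20 * k)) := fun r => Finset.univ.filter (fun v => (f v).val % 5 = r)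
  have hsize : ∀ r, r < 5 → (A r).card ≤ 8 * k := by
    intro r hr
    have h1 : ((A r).image f) ⊆
        (Finset.univ : Finset (Fin (2 * (20 * k) - 1))).filter (fun x => x.val % 5 = r) := by
      intro x hx
      rw [Finset.mem_image] at hx
      obtain ⟨v, hv, rfl⟩ := hx
      simp only [A, Finset.mem_filter, Finset.mem_univ, true_and] at hv
      simp [hv]
    have h2 := Finset.card_le_card h1
    rw [Finset.card_image_of_injective _ hf] at h2
    exact h2.trans (residue_card k r hk)
  have hind : ∀ r s, r < 5 → s < 5 → (r + 1) % 5 = s → (A r).card < k ∨ (A s).card < k := by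
    intro r s hr hs hrs
    by_contra hcon
    push Not at hcon
    obtain ⟨X, hX, hXc⟩ := Finset.exists_subset_card_eq hcon.1
    obtain ⟨Y, hY, hYc⟩ := Finset.exists_subset_card_eq hcon.2
    obtain ⟨i, a, ha, hb⟩ := hF X Y hXc hYc
    have ha' := hX ha
    have hb' := hY hb
    simp only [A, Finset.mem_filter, Finset.mem_univ, true_and] at ha' hb'
    have hadj : (gr F).Adj a (F i a) := by
      unfold gr
      rw [SimpleGraph.fromRel_adj]
      refine ⟨?_, Or.inl (Or.inl ⟨i, rfl⟩)⟩
      intro h
      rw [← h] at hb'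
      omega
    have h3 := hom _ _ hadj
    rw [SimpleGraph.compl_adj] at h3
    apply h3.2
    simp only [penta]
    left
    rw [ha', hb', hrs]
  have htot : (A 0).card + (A 1).card + (A 2).card + (A 3).card + (A 4).card = 20 * k := by
    have h1 : (Finset.univ : Finset (Fin (20 * k))).card =
        ∑ r ∈ Finset.range 5, ((Finset.univ : Finset (Fin (20 * k))).filter
          (fun v => (f v).val % 5 = r)).card := by
      apply Finset.card_eq_sum_card_fiberwise
      intro v _
      simp only [Finset.coe_range, Set.mem_Iio]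
      omega
    rw [Finset.card_univ, Fintype.card_fin, Finset.sum_range_succ, Finset.sum_range_succ,
      Finset.sum_range_succ, Finset.sum_range_succ, Finset.sum_range_succ, Finset.sum_range_zero] at h1
    simp only [A]
    omega
  have s0 := hsize 0 (by norm_num)
  have s1 := hsize 1 (by norm_num)
  have s2 := hsize 2 (by norm_num)
  have s3 := hsize 3 (by norm_num)
  have s4 := hsize 4 (by norm_num)
  have i0 := hind 0 1 (by norm_num) (by norm_num) (by norm_num)
  have i1 := hind 1 2 (by norm_num) (by norm_num) (by norm_num)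
  have i2 := hind 2 3 (by norm_num) (by norm_num) (by norm_num)
  have i3 := hind 3 4 (by norm_num) (by norm_num) (by norm_num)
  have i4 := hind 4 0 (by norm_num) (by norm_num) (by norm_num)
  omega

/-- The negation of the preceding statement: For every constant C, for all large n, every connected n-vertex graph with at most Cn edges is K_3-good, i.e. its Ramsey number against the triangle is exactly 2n−1; equivalently f(K_3,n)/n tends to infinity. -/
theorem result :
    ¬ (∀ C : ℕ, ∃ N : ℕ, ∀ n : ℕ, N ≤ n → ∀ G : SimpleGraph (Fin n), G.Connected →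
      G.edgeSet.ncard ≤ C * n →
      ((∀ H : SimpleGraph (Fin (2 * n - 1)), ¬ H.CliqueFree 3 ∨
          ∃ f : Fin n → Fin (2 * n - 1), Function.Injective f ∧
            ∀ u v, G.Adj u v → Hᶜ.Adj (f u) (f v)) ∧
       ¬ (∀ H : SimpleGraph (Fin (2 * n - 2)), ¬ H.CliqueFree 3 ∨
          ∃ f : Fin n → Fin (2 * n - 2), Function.Injective f ∧
            ∀ u v, G.Adj u v → Hᶜ.Adj (f u) (f v)))) := by
  intro h
  obtain ⟨N, hN⟩ := h 601
  set k := N + 1 with hk
  obtain ⟨F, hF⟩ := exists_maps k 600 (by omega) (by decide +kernel)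
  have hconn : (gr F).Connected := by
    obtain ⟨m, hm⟩ : ∃ m, 20 * k = m + 1 := ⟨20 * k - 1, by omega⟩
    revert F
    rw [hm]
    intro F _
    exact gr_connected F
  have h1 := (hN (20 * k) (by omega) (gr F) hconn (gr_edges F)).1
  rcases h1 (penta (2 * (20 * k) - 1)) with h2 | ⟨f, hf, hom⟩
  · exact h2 (penta_cliqueFree _)
  · exact main_step k 600 (by omega) F hF f hf hom

end Pool.Agent.S07996
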