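import Pool.Statements.S08015

set_option autoImplicit false
open Pool Pool.MP_fd2cdc_co

namespace Pool.Agent.S08015

open Cardinal Set

section Kernel

variable {P : Type} [PartialOrder P]

/-- upward largeness -/
def UpL (K : Cardinal.{0} → Prop) (A : Cardinal.{0} → Set P) : Cardinal.{0} → Set P :=
  fun c => {x | ∃ c', c ≤ c' ∧ K c' ∧ c' ≤ #{y : P | y ∈ A c' ∧ x < y}}

/-- downward largeness -/
def DnL (K : Cardinal.{0} → Prop) (A : Cardinal.{0} → Set P) : Cardinal.{0} → Set P :=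
  fun c => {x | ∃ c', c ≤ c' ∧ K c' ∧ c' ≤ #{y : P | y ∈ A c' ∧ y < x}}

theorem upL_mono (K : Cardinal.{0} → Prop) {A A' : Cardinal.{0} → Set P} (h : A ≤ A') :
    UpL K A ≤ UpL K A' := by
  rintro c x ⟨c', h1, h2, h3⟩
  exact ⟨c', h1, h2, h3.trans (mk_le_mk_of_subset fun y hy => ⟨h c' hy.1, hy.2⟩)⟩

theorem dnL_mono (K : Cardinal.{0} → Prop) {A A' : Cardinal.{0} → Set P} (h : A ≤ A') :
    DnL K A ≤ DnL K A' := by
  rintro c x ⟨c', h1, h2, h3⟩
  exact ⟨c', h1, h2, h3.trans (mk_le_mk_of_subset fun y hy => ⟨h c' hy.1, hy.2⟩)⟩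

/-- the other side -/
def Bof (K : Cardinal.{0} → Prop) (A : Cardinal.{0} → Set P) : Cardinal.{0} → Set P :=
  fun c => (UpL K A c ∩ A c)ᶜ

/-- the monotone operator -/
def Phi (K : Cardinal.{0} → Prop) : (Cardinal.{0} → Set P) →o (Cardinal.{0} → Set P) where
  toFun A := fun c => (DnL K (Bof K A) c ∩ Bof K A c)ᶜ
  monotone' := by
    intro A A' h c
    have hB : Bof K A' ≤ Bof K A := by
      intro c
      exact compl_subset_compl.2 (inter_subset_inter (upL_mono K h c) (h c))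
    exact compl_subset_compl.2 (inter_subset_inter (dnL_mono K hB c) (hB c))

theorem kernel (K : Cardinal.{0} → Prop) (hK : ∀ c, K c → ℵ₀ ≤ c)
    (h1 : WellFounded ((· < ·) : P → P → Prop)) (h2 : WellFounded ((· > ·) : P → P → Prop)) :
    ∃ G : Cardinal.{0} → Set P, ∀ c x, x ∈ G c ↔
      ∀ c', c ≤ c' → K c' → #{y : P | y ∈ G c' ∧ (x < y ∨ y < x)} < c' := by
  classical
  set A : Cardinal.{0} → Set P := OrderHom.lfp (Phi K) with hA
  have hfix : Phi K A = A := OrderHom.map_lfp (Phi K)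
  set B : Cardinal.{0} → Set P := Bof K A with hB
  have hAc : ∀ c, A c = (DnL K B c ∩ B c)ᶜ := fun c => (congrFun hfix c).symm
  have hBc : ∀ c, B c = (UpL K A c ∩ A c)ᶜ := fun c => rfl
  set G : Cardinal.{0} → Set P := fun c => A c ∩ B c with hG
  -- basic membership facts
  have m1 : ∀ c x, x ∈ A c → x ∉ G c → x ∈ UpL K A c := by
    intro c x hx hn
    by_contra hc
    exact hn ⟨hx, by rw [hBc]; exact fun h => hc h.1⟩
  have m2 : ∀ c x, x ∈ B c → x ∉ G c → x ∈ DnL K B c := by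
    intro c x hx hn
    have : x ∉ A c := fun h => hn ⟨h, hx⟩
    rw [hAc] at this
    exact (not_not.1 this).1
  have m3 : ∀ c x, x ∈ G c → x ∉ UpL K A c := by
    intro c x hx h
    have := hx.2
    rw [hBc] at this
    exact this ⟨h, hx.1⟩
  have m4 : ∀ c x, x ∈ G c → x ∉ DnL K B c := by
    intro c x hx h
    have := hx.1
    rw [hAc] at this
    exact this ⟨h, hx.2⟩
  have m5 : ∀ c x, x ∈ A c ∨ x ∈ B c := by
    intro c x
    by_cases h : x ∈ A c
    · exact Or.inl h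
    · right
      rw [hAc] at h
      exact (not_not.1 h).2
  have u1 : ∀ x c, x ∈ UpL K A c → x ∈ UpL K G c := by
    intro x
    induction x using h2.induction with
    | _ x ih =>
      rintro c ⟨c', hc, hk, hle⟩
      by_cases hex : ∃ y, x < y ∧ y ∈ A c' ∧ y ∉ G c'
      · obtain ⟨y, hxy, hyA, hyG⟩ := hex
        obtain ⟨c'', hc2, hk2, hle2⟩ := ih y hxy c' (m1 c' y hyA hyG)
        exact ⟨c'', hc.trans hc2, hk2, hle2.trans
          (mk_le_mk_of_subset fun z hz => ⟨hz.1, hxy.trans hz.2⟩)⟩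
      · push Not at hex
        exact ⟨c', hc, hk, hle.trans
          (mk_le_mk_of_subset fun z hz => ⟨hex z hz.2 hz.1, hz.2⟩)⟩
  have u2 : ∀ x c, x ∈ DnL K B c → x ∈ DnL K G c := by
    intro x
    induction x using h1.induction with
    | _ x ih =>
      rintro c ⟨c', hc, hk, hle⟩
      by_cases hex : ∃ y, y < x ∧ y ∈ B c' ∧ y ∉ G c'
      · obtain ⟨y, hxy, hyA, hyG⟩ := hex
        obtain ⟨c'', hc2, hk2, hle2⟩ := ih y hxy c' (m2 c' y hyA hyG)
        exact ⟨c'', hc.trans hc2, hk2, hle2.trans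
          (mk_le_mk_of_subset fun z hz => ⟨hz.1, hz.2.trans hxy⟩)⟩
      · push Not at hex
        exact ⟨c', hc, hk, hle.trans
          (mk_le_mk_of_subset fun z hz => ⟨hex z hz.2 hz.1, hz.2⟩)⟩
  refine ⟨G, fun c x => ⟨fun hx c' hc hk => ?_, fun h => ?_⟩⟩
  · have hu : x ∉ UpL K A c := m3 c x hx
    have hd : x ∉ DnL K B c := m4 c x hx
    have e : {y : P | y ∈ G c' ∧ (x < y ∨ y < x)} ⊆
        {y : P | y ∈ A c' ∧ x < y} ∪ {y : P | y ∈ B c' ∧ y < x} := by
      rintro y ⟨hy, h | h⟩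
      · exact Or.inl ⟨hy.1, h⟩
      · exact Or.inr ⟨hy.2, h⟩
    have l1 : #{y : P | y ∈ A c' ∧ x < y} < c' := by
      by_contra hh
      exact hu ⟨c', hc, hk, not_lt.1 hh⟩
    have l2 : #{y : P | y ∈ B c' ∧ y < x} < c' := by
      by_contra hh
      exact hd ⟨c', hc, hk, not_lt.1 hh⟩
    exact (mk_le_mk_of_subset e).trans_lt ((mk_union_le _ _).trans_lt (add_lt_of_lt (hK c' hk) l1 l2))
  · by_contra hx
    have : x ∈ UpL K G c ∨ x ∈ DnL K G c := by
      rcases m5 c x with hA' | hB'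
      · exact Or.inl (u1 x c (m1 c x hA' hx))
      · exact Or.inr (u2 x c (m2 c x hB' hx))
    rcases this with ⟨c', hc, hk, hle⟩ | ⟨c', hc, hk, hle⟩
    · exact absurd (h c' hc hk) (not_lt.2 (hle.trans
        (mk_le_mk_of_subset fun y hy => ⟨hy.1, Or.inl hy.2⟩)))
    · exact absurd (h c' hc hk) (not_lt.2 (hle.trans
        (mk_le_mk_of_subset fun y hy => ⟨hy.1, Or.inr hy.2⟩)))

end Kernel

section Lst

variable {W : Type} [LinearOrder W] [WellFoundedLT W] [OrderTop W]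

open Classical in
/-- least element of a set, top if the set is empty -/
noncomputable def lst (s : Set W) : W :=
  if h : s.Nonempty then (wellFounded_lt : WellFounded ((· < ·) : W → W → Prop)).min s h else ⊤

theorem lst_mem {s : Set W} (h : s.Nonempty) : lst s ∈ s := by
  rw [lst, dif_pos h]
  exact WellFounded.min_mem _ s h

theorem lst_le {s : Set W} {v : W} (h : v ∈ s) : lst s ≤ v := by
  have hn : s.Nonempty := ⟨v, h⟩
  rw [lst, dif_pos hn]
  exact WellFounded.min_le _ h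

theorem not_mem_of_lt_lst {s : Set W} {v : W} (h : v < lst s) : v ∉ s :=
  fun hv => absurd (lst_le hv) (not_le.2 h)

/-- the element of W whose initial segment has size c -/
noncomputable def wc (c : Cardinal.{0}) : W := lst {v : W | c ≤ #(Iio v)}

theorem card_mono {a b : W} (h : a ≤ b) : #(Iio a) ≤ #(Iio b) :=
  mk_le_mk_of_subset (Iio_subset_Iio h)

theorem wc_le_iff {c : Cardinal.{0}} (hc : c ≤ #(Iio (⊤ : W))) (v : W) :
    wc c ≤ v ↔ c ≤ #(Iio v) := by
  constructor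
  · intro h
    have hne : {v : W | c ≤ #(Iio v)}.Nonempty := ⟨⊤, hc⟩
    exact (show c ≤ #(Iio (wc c : W)) from lst_mem hne).trans (card_mono h)
  · intro h
    exact lst_le h

theorem lt_wc_iff {c : Cardinal.{0}} (hc : c ≤ #(Iio (⊤ : W))) (v : W) :
    v < wc c ↔ #(Iio v) < c := by
  rw [← not_le, wc_le_iff hc, not_le]

theorem card_wc {c : Cardinal.{0}} (hc : c ≤ #(Iio (⊤ : W))) : #(Iio (wc c : W)) = c := by
  refine le_antisymm ?_ ((wc_le_iff hc _).1 le_rfl)
  by_contra hlt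
  rw [not_le] at hlt
  -- order type of Iio (wc c)
  set α := Ordinal.typein ((· < ·) : W → W → Prop) (wc c) with hα
  have hcard : α.card = #(Iio (wc c : W)) := rfl
  have h1 : c.ord < α := by
    rw [← not_le]
    intro h
    have := Ordinal.card_le_card h
    rw [card_ord, hcard] at this
    exact absurd this (not_le.2 hlt)
  obtain ⟨v, hv⟩ := Ordinal.typein_surj ((· < ·) : W → W → Prop)
    (h1.trans (Ordinal.typein_lt_type _ _))
  have h2 : v < wc c := by
    have : Ordinal.typein ((· < ·) : W → W → Prop) v < Ordinal.typein ((· < ·) : W → W → Prop) (wc c) := by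
      rw [hv]; exact h1
    exact (Ordinal.typein_lt_typein _).1 this
  rw [lt_wc_iff hc] at h2
  have h3 : #(Iio v) = c := by
    have : (Ordinal.typein ((· < ·) : W → W → Prop) v).card = #(Iio v) := rfl
    rw [← this, hv, card_ord]
  exact absurd h2 (by rw [h3]; exact lt_irrefl _)

theorem wc_le_wc {c d : Cardinal.{0}} (hc : c ≤ #(Iio (⊤ : W))) (hd : d ≤ #(Iio (⊤ : W))) :
    (wc c : W) ≤ wc d ↔ c ≤ d := by
  rw [wc_le_iff hc, card_wc hd]

end Lst

section Hull

variable {W : Type} [LinearOrder W]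

/-- stages of the closure -/
def HS (F : Fin 7 → W → W → W → W) (S : Set W) : ℕ → Set W
  | 0 => S
  | n + 1 => HS F S n ∪
      (fun t : Fin 7 × W × W × W => F t.1 t.2.1 t.2.2.1 t.2.2.2) ''
        (Set.univ ×ˢ HS F S n ×ˢ HS F S n ×ˢ HS F S n)

/-- closure of a set under the seven functions -/
def Hull (F : Fin 7 → W → W → W → W) (S : Set W) : Set W := ⋃ n, HS F S n

variable (F : Fin 7 → W → W → W → W)

theorem HS_succ_subset (S : Set W) (n : ℕ) : HS F S n ⊆ HS F S (n + 1) := subset_union_left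

theorem HS_mono_nat (S : Set W) : Monotone (HS F S) :=
  monotone_nat_of_le_succ (HS_succ_subset F S)

theorem HS_mono {S T : Set W} (h : S ⊆ T) (n : ℕ) : HS F S n ⊆ HS F T n := by
  induction n with
  | zero => exact h
  | succ n ih =>
    exact union_subset_union ih (image_mono (prod_mono subset_rfl (prod_mono ih (prod_mono ih ih))))

theorem HS_empty (n : ℕ) : HS F ∅ n = ∅ := by
  induction n with
  | zero => rfl
  | succ n ih => simp [HS, ih]

theorem hull_mono {S T : Set W} (h : S ⊆ T) : Hull F S ⊆ Hull F T :=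
  iUnion_mono fun n => HS_mono F h n

theorem subset_hull (S : Set W) : S ⊆ Hull F S := fun _ hx => mem_iUnion.2 ⟨0, hx⟩

theorem hull_empty : Hull F (∅ : Set W) = ∅ := by
  simp [Hull, HS_empty]

theorem hull_closed (S : Set W) (i : Fin 7) {a b c : W} (ha : a ∈ Hull F S) (hb : b ∈ Hull F S)
    (hc : c ∈ Hull F S) : F i a b c ∈ Hull F S := by
  obtain ⟨n1, h1⟩ := mem_iUnion.1 ha
  obtain ⟨n2, h2⟩ := mem_iUnion.1 hb
  obtain ⟨n3, h3⟩ := mem_iUnion.1 hc
  refine mem_iUnion.2 ⟨max n1 (max n2 n3) + 1, Or.inr ?_⟩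
  refine ⟨(i, a, b, c), ⟨mem_univ _, ?_, ?_, ?_⟩, rfl⟩
  · exact HS_mono_nat F S (le_max_left _ _) h1
  · exact HS_mono_nat F S ((le_max_left _ _).trans (le_max_right _ _)) h2
  · exact HS_mono_nat F S ((le_max_right _ _).trans (le_max_right _ _)) h3

theorem card_HS (S : Set W) (n : ℕ) : #(HS F S n) ≤ max #S ℵ₀ := by
  induction n with
  | zero => exact le_max_left _ _
  | succ n ih =>
    set μ := max #S ℵ₀ with hμ
    have h0 : ℵ₀ ≤ μ := le_max_right _ _
    refine (mk_union_le _ _).trans ?_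
    refine add_le_of_le h0 ih ?_
    refine mk_image_le.trans ?_
    have e1 : #(Set.univ ×ˢ HS F S n ×ˢ HS F S n ×ˢ HS F S n : Set (Fin 7 × W × W × W))
        = #(Set.univ : Set (Fin 7)) * (#(HS F S n) * (#(HS F S n) * #(HS F S n))) := by
      rw [mk_setProd, mk_setProd, mk_setProd]
    rw [e1]
    have h7 : #(Set.univ : Set (Fin 7)) ≤ μ := (le_of_lt (lt_aleph0_of_finite _)).trans h0
    have hm : ∀ {a b : Cardinal.{0}}, a ≤ μ → b ≤ μ → a * b ≤ μ := by
      intro a b ha hb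
      exact (mul_le_mul' ha hb).trans (mul_eq_self h0).le
    exact hm h7 (hm ih (hm ih ih))

theorem card_hull (S : Set W) : #(Hull F S) ≤ max #S ℵ₀ := by
  refine (mk_iUnion_le _).trans ?_
  have h0 : ℵ₀ ≤ max #S ℵ₀ := le_max_right _ _
  have h1 : (⨆ n, #(HS F S n)) ≤ max #S ℵ₀ := ciSup_le' (card_HS F S)
  calc #ℕ * ⨆ n, #(HS F S n) ≤ max #S ℵ₀ * max #S ℵ₀ :=
        mul_le_mul' ((mk_nat).le.trans h0) h1
    _ = max #S ℵ₀ := mul_eq_self h0

theorem HS_cont (A : Set W) (hA : A.Nonempty) (n : ℕ) :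
    HS F (⋃ a ∈ A, Iio a) n ⊆ ⋃ a ∈ A, HS F (Iio a) n := by
  induction n with
  | zero => exact subset_rfl
  | succ n ih =>
    rintro v (hv | ⟨⟨i, p, q, r⟩, ⟨-, hp, hq, hr⟩, rfl⟩)
    · obtain ⟨a, ha, hv'⟩ := mem_iUnion₂.1 (ih hv)
      exact mem_iUnion₂.2 ⟨a, ha, HS_succ_subset F _ n hv'⟩
    · obtain ⟨a, ha, hp'⟩ := mem_iUnion₂.1 (ih hp)
      obtain ⟨b, hb, hq'⟩ := mem_iUnion₂.1 (ih hq)
      obtain ⟨c, hc, hr'⟩ := mem_iUnion₂.1 (ih hr)
      have hmax : ∃ d ∈ A, a ≤ d ∧ b ≤ d ∧ c ≤ d := by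
        rcases le_total a b with h1 | h1
        · rcases le_total b c with h2 | h2
          · exact ⟨c, hc, h1.trans h2, h2, le_rfl⟩
          · exact ⟨b, hb, h1, le_rfl, h2⟩
        · rcases le_total a c with h2 | h2
          · exact ⟨c, hc, h2, h1.trans h2, le_rfl⟩
          · exact ⟨a, ha, le_rfl, h1, h2⟩
      obtain ⟨d, hd, h1, h2, h3⟩ := hmax
      refine mem_iUnion₂.2 ⟨d, hd, Or.inr ⟨(i, p, q, r), ⟨mem_univ _, ?_, ?_, ?_⟩, rfl⟩⟩
      · exact HS_mono F (Iio_subset_Iio h1) n hp'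
      · exact HS_mono F (Iio_subset_Iio h2) n hq'
      · exact HS_mono F (Iio_subset_Iio h3) n hr'

theorem hull_cont {A : Set W} (hA : A.Nonempty) {s : W} (hs : IsLUB A s) (hsA : s ∉ A) {v : W}
    (hv : v ∈ Hull F (Iio s)) : ∃ a ∈ A, v ∈ Hull F (Iio a) := by
  have e : Iio s ⊆ ⋃ a ∈ A, Iio a := by
    intro u hu
    by_contra hc
    have : s ≤ u := hs.2 fun a ha => by
      by_contra hlt
      exact hc (mem_iUnion₂.2 ⟨a, ha, not_le.1 hlt⟩)
    exact absurd hu (not_lt.2 this)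
  obtain ⟨n, hn⟩ := mem_iUnion.1 (hull_mono F e hv)
  obtain ⟨a, ha, hv'⟩ := mem_iUnion₂.1 (HS_cont F A hA n hn)
  exact ⟨a, ha, mem_iUnion.2 ⟨n, hv'⟩⟩

end Hull

section Chain

variable {W : Type} [LinearOrder W] [WellFoundedLT W] [OrderTop W]

/-- properties of the filtration -/
structure Fam (M : W → Set W) : Prop where
  mono : ∀ {a b : W}, a ≤ b → M a ⊆ M b
  sub : ∀ a : W, Iio a ⊆ M a
  card : ∀ a : W, #(M a) ≤ max #(Iio a) ℵ₀
  cont : ∀ {A : Set W} {s : W}, A.Nonempty → IsLUB A s → s ∉ A → ∀ v ∈ M s, ∃ a ∈ A, v ∈ M a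
  bot : ∀ a : W, ¬ (Iio a).Nonempty → M a = ∅
  top : ∀ a : W, (Iio a).Nonempty → ⊤ ∈ M a

open Classical in
/-- next level -/
noncomputable def LL (M : W → Set W) (a : W) : W :=
  if (Iio a).Nonempty then lst {v : W | v ∈ M a ∧ lst (M a)ᶜ < v} else wc ℵ₀

/-- chain points -/
def good (L : W → W) : W → Prop :=
  WellFounded.fix (wellFounded_lt : WellFounded ((· < ·) : W → W → Prop))
    (fun a ih => ∀ b (h : b < a), ih b h → L b ≤ a)

theorem good_iff (L : W → W) (a : W) : good L a ↔ ∀ b, b < a → good L b → L b ≤ a := by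
  unfold good
  rw [WellFounded.fix_eq]

theorem isLUB_lst (A : Set W) : IsLUB A (lst (upperBounds A)) := by
  constructor
  · exact lst_mem ⟨⊤, fun _ _ => le_top⟩
  · intro b hb
    exact lst_le hb

theorem good_lub {L : W → W} {A : Set W} {s : W} (hg : ∀ a ∈ A, good L a)
    (hs : IsLUB A s) : good L s := by
  rw [good_iff]
  intro b hb hgb
  by_contra hc
  rw [not_le] at hc
  have : s ≤ b := hs.2 fun a ha => by
    by_contra hlt
    rw [not_le] at hlt
    have h1 := (good_iff L a).1 (hg a ha) b hlt hgb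
    exact absurd (h1.trans (hs.1 ha)) (not_le.2 hc)
  exact absurd hb (not_lt.2 this)

theorem exists_gt_of_isLUB {A : Set W} {s u : W} (hs : IsLUB A s) (hu : u < s) :
    ∃ a ∈ A, u < a := by
  by_contra hc
  push Not at hc
  exact absurd (hs.2 hc) (not_le.2 hu)

variable {M : W → Set W} (hM : Fam M) (hinf : ℵ₀ ≤ #(Iio (⊤ : W)))

include hM

/-- a is in the domain if something below top is missing -/
def Dom (M : W → Set W) (a : W) : Prop := ∃ x : W, x < ⊤ ∧ x ∉ M a

theorem le_lst_compl (a : W) : a ≤ lst (M a)ᶜ := by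
  by_contra h
  rw [not_le] at h
  have h1 : lst (M a)ᶜ ∈ M a := hM.sub a h
  have h2 : ¬ ((M a)ᶜ).Nonempty := fun hn => lst_mem hn h1
  rw [lst, dif_neg h2] at h
  exact absurd h (not_lt.2 le_top)

theorem lst_compl_lt {a : W} (hD : Dom M a) : lst (M a)ᶜ < ⊤ := by
  obtain ⟨x, hx, hxM⟩ := hD
  exact (lst_le (s := (M a)ᶜ) hxM).trans_lt hx

theorem LL_spec {a : W} (ha : (Iio a).Nonempty) (hD : Dom M a) :
    LL M a ∈ M a ∧ lst (M a)ᶜ < LL M a ∧ ∀ v ∈ M a, v < LL M a → v < lst (M a)ᶜ := by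
  have hb := lst_compl_lt hM hD
  have hne : {v : W | v ∈ M a ∧ lst (M a)ᶜ < v}.Nonempty := ⟨⊤, hM.top a ha, hb⟩
  have h := lst_mem hne
  have e : LL M a = lst {v : W | v ∈ M a ∧ lst (M a)ᶜ < v} := by rw [LL, if_pos ha]
  rw [← e] at h
  refine ⟨h.1, h.2, fun v hv hlt => ?_⟩
  rw [e] at hlt
  have h2 : ¬ (lst (M a)ᶜ < v) := fun h3 => not_mem_of_lt_lst hlt ⟨hv, h3⟩
  rw [not_lt] at h2
  refine lt_of_le_of_ne h2 fun h3 => ?_
  have hn : ((M a)ᶜ).Nonempty := by
    obtain ⟨x, hx, hxM⟩ := hD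
    exact ⟨x, hxM⟩
  exact lst_mem hn (h3 ▸ hv)

include hinf

theorem lt_LL {a : W} (hD : Dom M a) : a < LL M a := by
  by_cases ha : (Iio a).Nonempty
  · exact (le_lst_compl hM a).trans_lt (LL_spec hM ha hD).2.1
  · rw [LL, if_neg ha, lt_wc_iff hinf]
    rw [Set.not_nonempty_iff_eq_empty] at ha
    rw [ha]
    simpa using aleph0_pos

theorem good_LL {a : W} (hg : good (LL M) a) (hD : Dom M a) : good (LL M) (LL M a) := by
  rw [good_iff]
  intro b hb hgb
  rcases lt_trichotomy b a with h | h | h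
  · exact ((good_iff _ _).1 hg b h hgb).trans (lt_LL hM hinf hD).le
  · rw [h]
  · exact absurd ((good_iff _ _).1 hgb a h hg) (not_le.2 hb)

theorem w0_le_of_good {a b : W} (hb : good (LL M) b) (hab : a < b) : (wc ℵ₀ : W) ≤ b := by
  set z : W := lst univ with hz
  have hz0 : ¬ (Iio z).Nonempty := by
    rintro ⟨u, hu⟩
    exact absurd (lst_le (mem_univ u)) (not_le.2 hu)
  have hgz : good (LL M) z := by
    rw [good_iff]
    intro c hc
    exact absurd ⟨c, hc⟩ hz0
  have hzb : z < b := (lst_le (mem_univ a)).trans_lt hab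
  have := (good_iff _ _).1 hb z hzb hgz
  rwa [LL, if_neg hz0] at this

theorem w0_le_LL {a : W} (hg : good (LL M) a) (hD : Dom M a) : (wc ℵ₀ : W) ≤ LL M a :=
  w0_le_of_good hM hinf (good_LL hM hinf hg hD) (lt_LL hM hinf hD)

theorem exists_col {x : W} (hx : x < ⊤) :
    ∃ a, good (LL M) a ∧ x ∉ M a ∧ ∀ b, good (LL M) b → a < b → x ∈ M b := by
  set A : Set W := {a | good (LL M) a ∧ x ∉ M a} with hA
  set z : W := lst univ with hz
  have hz0 : ¬ (Iio z).Nonempty := by
    rintro ⟨u, hu⟩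
    exact absurd (lst_le (mem_univ u)) (not_le.2 hu)
  have hzA : z ∈ A := by
    refine ⟨?_, ?_⟩
    · rw [good_iff]
      intro c hc
      exact absurd ⟨c, hc⟩ hz0
    · rw [hM.bot z hz0]
      exact notMem_empty x
  have hs := isLUB_lst A
  set s := lst (upperBounds A) with hsdef
  have hgs : good (LL M) s := good_lub (fun a ha => ha.1) hs
  have hxs : x ∉ M s := by
    by_cases h : s ∈ A
    · exact h.2
    · intro hx'
      obtain ⟨a, ha, hxa⟩ := hM.cont ⟨z, hzA⟩ hs h x hx'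
      exact ha.2 hxa
  refine ⟨s, hgs, hxs, fun b hb hsb => ?_⟩
  by_contra hxb
  exact absurd (hs.1 ⟨hb, hxb⟩) (not_le.2 hsb)

omit hM in
theorem bounded {c : Cardinal.{0}} (hr : c.IsRegular) (hc : c ≤ #(Iio (⊤ : W))) {S : Set W}
    (hS : ∀ v ∈ S, v < wc c) (hcard : #S < c) : ∃ u, u < wc c ∧ ∀ v ∈ S, v < u := by
  by_contra hcon
  push Not at hcon
  have hsub : Iio (wc c : W) ⊆ ⋃ v ∈ S, Iic v := by
    intro u hu
    obtain ⟨v, hv, huv⟩ := hcon u hu
    exact mem_iUnion₂.2 ⟨v, hv, huv⟩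
  have h1 : #(⋃ v ∈ S, Iic v : Set W) < c := by
    rw [card_biUnion_lt_iff_forall_of_isRegular hr hcard]
    intro v hv
    have h2 : #(Iio v) < c := (lt_wc_iff hc v).1 (hS v hv)
    have h3 : Iic v ⊆ insert v (Iio v) := by
      intro u hu
      rcases lt_or_eq_of_le (show u ≤ v from hu) with h | h
      · exact Or.inr h
      · exact Or.inl h
    refine (mk_le_mk_of_subset h3).trans_lt (mk_insert_le.trans_lt ?_)
    exact add_lt_of_lt hr.aleph0_le h2 (one_lt_aleph0.trans_le hr.aleph0_le)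
  exact absurd ((mk_le_mk_of_subset hsub).trans_lt h1) (by rw [card_wc hc]; exact lt_irrefl _)

theorem hit {c : Cardinal.{0}} (hr : c.IsRegular) (hc : c ≤ #(Iio (⊤ : W))) {a0 : W}
    (hg0 : good (LL M) a0) (hD0 : Dom M a0) (hle : LL M a0 ≤ wc c)
    (hmem : ∀ a, good (LL M) a → a0 < a → (wc c : W) ∈ M a) :
    ∃ a, good (LL M) a ∧ Dom M a ∧ LL M a = wc c := by
  set l : W := wc c with hl
  by_cases heq : LL M a0 = l
  · exact ⟨a0, hg0, hD0, heq⟩
  have hlt : LL M a0 < l := lt_of_le_of_ne hle heq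
  have hw0 : (wc ℵ₀ : W) < l := (w0_le_LL hM hinf hg0 hD0).trans_lt hlt
  have hcℵ : ℵ₀ < c := by
    have := (lt_wc_iff hc _).1 hw0
    rwa [card_wc hinf] at this
  set A : Set W := {a | good (LL M) a ∧ a < l} with hA
  have hL0A : LL M a0 ∈ A := ⟨good_LL hM hinf hg0 hD0, hlt⟩
  have ha0A : a0 ∈ A := ⟨hg0, (lt_LL hM hinf hD0).trans hlt⟩
  have hs := isLUB_lst A
  set s := lst (upperBounds A) with hsdef
  have hgs : good (LL M) s := good_lub (fun a ha => ha.1) hs
  have hsl : s ≤ l := hs.2 fun a ha => ha.2.le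
  have ha0s : a0 < s := (lt_LL hM hinf hD0).trans_le (hs.1 hL0A)
  rcases lt_or_eq_of_le hsl with hsl | hsl
  · -- successor case
    have hsinf : ℵ₀ ≤ #(Iio s) := by
      rw [← wc_le_iff hinf]
      exact w0_le_of_good hM hinf hgs ha0s
    have hMs : #(M s) < c := by
      refine (hM.card s).trans_lt ?_
      rw [max_eq_left hsinf]
      exact (lt_wc_iff hc s).1 hsl
    have hDs : Dom M s := by
      by_contra hcon
      have : Iio (⊤ : W) ⊆ M s := by
        intro x hx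
        by_contra hxM
        exact hcon ⟨x, hx, hxM⟩
      exact absurd (hc.trans (mk_le_mk_of_subset this)) (not_le.2 hMs)
    have hgL := good_LL hM hinf hgs hDs
    have hLA : ¬ LL M s < l := fun h =>
      absurd (hs.1 ⟨hgL, h⟩) (not_le.2 (lt_LL hM hinf hDs))
    rw [not_lt] at hLA
    refine ⟨s, hgs, hDs, le_antisymm ?_ hLA⟩
    by_contra hcon
    rw [not_le] at hcon
    have hsp := LL_spec hM ⟨a0, ha0s⟩ hDs
    have h1 : l < lst (M s)ᶜ := hsp.2.2 l (hmem s hgs ha0s) hcon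
    have h2 : Iio l ⊆ M s := by
      intro u hu
      by_contra huM
      exact absurd ((show u < l from hu).trans h1) (not_lt.2 (lst_le (s := (M s)ᶜ) huM))
    have h3 := mk_le_mk_of_subset h2
    rw [hl, card_wc hc] at h3
    exact absurd h3 (not_le.2 hMs)
  · -- limit case
    have hlA : l ∉ A := fun h => lt_irrefl _ h.2
    have hsl' : IsLUB A l := hsl ▸ hs
    have step : ∀ a : A, ∃ b : A, a.1 < b.1 ∧ ∀ v ∈ M a.1, v < l → v < b.1 := by
      rintro ⟨a, ha⟩
      have hMa : #(M a) < c := by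
        refine (hM.card a).trans_lt (max_lt ?_ hcℵ)
        exact (lt_wc_iff hc a).1 ha.2
      obtain ⟨u, hu, hub⟩ := bounded hinf hr hc (S := insert a (M a ∩ Iio l))
        (by
          rintro v (hv | hv)
          · rw [hv]; exact ha.2
          · exact hv.2)
        (by
          refine mk_insert_le.trans_lt (add_lt_of_lt hr.aleph0_le ?_ (one_lt_aleph0.trans_le hr.aleph0_le))
          exact (mk_le_mk_of_subset inter_subset_left).trans_lt hMa)
      obtain ⟨b, hb, hub'⟩ := exists_gt_of_isLUB hsl' hu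
      refine ⟨⟨b, hb⟩, (hub a (Or.inl rfl)).trans hub', fun v hv hvl => ?_⟩
      exact (hub v (Or.inr ⟨hv, hvl⟩)).trans hub'
    choose nx hnx1 hnx2 using step
    let b : ℕ → A := fun n => Nat.rec (⟨LL M a0, hL0A⟩ : A) (fun _ x => nx x) n
    have hb0 : (b 0).1 = LL M a0 := rfl
    have hbs : ∀ n, b (n + 1) = nx (b n) := fun n => rfl
    set R : Set W := range fun n => (b n).1 with hR
    have hs' := isLUB_lst R
    set s' := lst (upperBounds R) with hs'def
    have hgs' : good (LL M) s' := good_lub (by rintro _ ⟨n, rfl⟩; exact (b n).2.1) hs'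
    have hbs' : ∀ n, (b n).1 < s' := fun n =>
      (hnx1 (b n)).trans_le (hs'.1 ⟨n + 1, rfl⟩)
    have hs'l : s' < l := by
      obtain ⟨u, hu, hub⟩ := bounded hinf hr hc (S := R)
        (by rintro _ ⟨n, rfl⟩; exact (b n).2.2)
        ((mk_le_aleph0_iff.2 (countable_range _).to_subtype).trans_lt hcℵ)
      exact (hs'.2 fun v hv => (hub v hv).le).trans_lt hu
    have hs'R : s' ∉ R := by
      rintro ⟨n, hn⟩
      exact absurd (hbs' n) (by rw [← hn]; exact lt_irrefl _)
    have hsmall : ∀ v ∈ M s', v < l → v < s' := by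
      intro v hv hvl
      obtain ⟨_, ⟨n, rfl⟩, hvn⟩ := hM.cont (A := R) ⟨_, ⟨0, rfl⟩⟩ hs' hs'R v hv
      have := hnx2 (b n) v hvn hvl
      exact this.trans (hbs' (n + 1))
    have ha0s' : a0 < s' := (lt_LL hM hinf hD0).trans (hbs' 0)
    have hnot : s' ∉ M s' := fun h => lt_irrefl _ (hsmall s' h hs'l)
    have hD' : Dom M s' := ⟨s', hs'l.trans_le le_top, hnot⟩
    have hβ : lst (M s')ᶜ = s' :=
      le_antisymm (lst_le (s := (M s')ᶜ) hnot) (le_lst_compl hM s')
    have hsp := LL_spec hM ⟨a0, ha0s'⟩ hD'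
    refine ⟨s', hgs', hD', ?_⟩
    have hlM : l ∈ M s' := hmem s' hgs' ha0s'
    refine le_antisymm ?_ ?_
    · by_contra hcon
      rw [not_le] at hcon
      have := hsp.2.2 l hlM hcon
      rw [hβ] at this
      exact absurd this (not_lt.2 hs'l.le)
    · by_contra hcon
      rw [not_le] at hcon
      have h1 := hsmall _ hsp.1 hcon
      have h2 := hsp.2.1
      rw [hβ] at h2
      exact absurd h1 (not_lt.2 h2.le)

end Chain

section Regularity

variable {W : Type} [LinearOrder W] [WellFoundedLT W] [OrderTop W]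

/-- least length of a cofinal map -/
noncomputable def cfl (l : W) : W :=
  lst {v : W | ∃ g : W → W, (∀ ξ, ξ < v → g ξ < l) ∧ ∀ u, u < l → ∃ ξ, ξ < v ∧ u ≤ g ξ}

theorem cfl_spec (l : W) : ∃ g : W → W, (∀ ξ, ξ < cfl l → g ξ < l) ∧
    ∀ u, u < l → ∃ ξ, ξ < cfl l ∧ u ≤ g ξ := by
  have hne : {v : W | ∃ g : W → W, (∀ ξ, ξ < v → g ξ < l) ∧
      ∀ u, u < l → ∃ ξ, ξ < v ∧ u ≤ g ξ}.Nonempty :=
    ⟨l, id, fun ξ h => h, fun u hu => ⟨u, hu, le_rfl⟩⟩
  exact lst_mem hne

theorem cfl_le {l v : W} (g : W → W) (h1 : ∀ ξ, ξ < v → g ξ < l)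
    (h2 : ∀ u, u < l → ∃ ξ, ξ < v ∧ u ≤ g ξ) : cfl l ≤ v :=
  lst_le ⟨g, h1, h2⟩

/-- the cofinal map -/
noncomputable def cff (l : W) : W → W := (cfl_spec l).choose

theorem reg {M : W → Set W} (hM : Fam M) (hinf : ℵ₀ ≤ #(Iio (⊤ : W))) {a : W}
    (ha : (Iio a).Nonempty) (hg : good (LL M) a) (hD : Dom M a)
    (h1 : ∀ l ∈ M a, cfl l ∈ M a) (h2 : ∀ l ∈ M a, ∀ ξ ∈ M a, cff l ξ ∈ M a) :
    (#(Iio (LL M a))).IsRegular ∧ LL M a = wc #(Iio (LL M a)) := by
  classical
  obtain ⟨hlM, hβl, hgap⟩ := LL_spec hM ha hD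
  set l := LL M a with hl
  set β := lst (M a)ᶜ with hβ
  have hsubβ : ∀ v, v < β → v ∈ M a := by
    intro v hv
    by_contra hvM
    exact absurd hv (not_lt.2 (lst_le (s := (M a)ᶜ) hvM))
  have hcl : cfl l = l := by
    refine le_antisymm (cfl_le id (fun ξ h => h) fun u hu => ⟨u, hu, le_rfl⟩) ?_
    by_contra hcon
    rw [not_le] at hcon
    have h3 : cfl l < β := hgap _ (h1 l hlM) hcon
    obtain ⟨k1, k2⟩ := (cfl_spec l).choose_spec
    obtain ⟨ξ, hξ, hβξ⟩ := k2 β hβl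
    have h4 : cff l ξ ∈ M a := h2 l hlM ξ (hsubβ ξ (hξ.trans h3))
    have h5 : cff l ξ < β := hgap _ h4 (k1 ξ hξ)
    exact absurd h5 (not_lt.2 hβξ)
  set c := #(Iio l) with hc
  have hcκ : c ≤ #(Iio (⊤ : W)) := card_mono le_top
  have hinfc : ℵ₀ ≤ c := by
    rw [hc, ← wc_le_iff hinf]
    exact w0_le_LL hM hinf hg hD
  -- general: a map from an initial segment whose range is cofinal
  have key : ∀ (d : Cardinal.{0}), d ≤ #(Iio (⊤ : W)) → ∀ S : Set W, (∀ v ∈ S, v < l) →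
      (∀ u, u < l → ∃ v ∈ S, u ≤ v) → #S = d → l ≤ wc d := by
    intro d hd S hS1 hS2 hSd
    have hcard : #(Iio (wc d : W)) = #S := by rw [card_wc hd, hSd]
    obtain ⟨φ⟩ := Cardinal.eq.1 hcard
    rw [← hcl]
    refine cfl_le (fun ξ => if h : ξ < wc d then (φ ⟨ξ, h⟩ : W) else ξ) ?_ ?_
    · intro ξ hξ
      simp only [hξ, dif_pos]
      exact hS1 _ (φ ⟨ξ, hξ⟩).2
    · intro u hu
      obtain ⟨v, hv, huv⟩ := hS2 u hu
      obtain ⟨⟨ξ, hξ⟩, hφ⟩ := φ.surjective ⟨v, hv⟩
      refine ⟨ξ, hξ, ?_⟩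
      have hξ' : ξ < wc d := hξ
      simp only [hξ', dif_pos, hφ]
      exact huv
  have hwl : l = wc c := by
    refine le_antisymm ?_ ?_
    · exact key c hcκ (Iio l) (fun v hv => hv) (fun u hu => ⟨u, hu, le_rfl⟩) rfl
    · exact (wc_le_iff hcκ l).2 le_rfl
  refine ⟨⟨hinfc, ?_⟩, hwl⟩
  have htyp : Ordinal.typein ((· < ·) : W → W → Prop) l = c.ord := by
    refine le_antisymm ?_ ?_
    · by_contra hcon
      rw [not_le] at hcon
      obtain ⟨v, hv⟩ := Ordinal.typein_surj ((· < ·) : W → W → Prop)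
        (hcon.trans (Ordinal.typein_lt_type _ _))
      have hvl : v < l := by
        have : Ordinal.typein ((· < ·) : W → W → Prop) v <
            Ordinal.typein ((· < ·) : W → W → Prop) l := by
          rw [hv]; exact hcon
        exact (Ordinal.typein_lt_typein _).1 this
      rw [hwl, lt_wc_iff hcκ] at hvl
      have h3 : #(Iio v) = c := by
        have : (Ordinal.typein ((· < ·) : W → W → Prop) v).card = #(Iio v) := rfl
        rw [← this, hv, card_ord]
      exact absurd hvl (by rw [h3]; exact lt_irrefl _)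
    · rw [ord_le]
      exact le_of_eq rfl
  rw [← htyp, ← Order.cof_Iio, Order.le_cof_iff]
  intro S hS
  by_contra hcon
  rw [not_le] at hcon
  have hSκ : #S ≤ #(Iio (⊤ : W)) := hcon.le.trans hcκ
  have h6 : l ≤ wc #S := by
    refine key #S hSκ (Subtype.val '' S) ?_ ?_ ?_
    · rintro _ ⟨v, -, rfl⟩
      exact v.2
    · intro u hu
      obtain ⟨v, hv, huv⟩ := hS ⟨u, hu⟩
      exact ⟨v.1, ⟨v, hv, rfl⟩, huv⟩
    · exact mk_image_eq Subtype.val_injective
  have h7 : c ≤ #S := (wc_le_wc hcκ hSκ).1 (hwl.ge.trans h6)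
  exact absurd hcon (not_lt.2 h7)

end Regularity

section Final

theorem coherent (P : Type) [PartialOrder P] [Infinite P]
    (h1 : WellFounded ((· < ·) : P → P → Prop)) (h2 : WellFounded ((· > ·) : P → P → Prop)) :
    ∃ (G : Set P) (ρ : P → Cardinal.{0}),
      (∀ x, (ρ x).IsRegular) ∧
      (∀ x, #{y : P | ρ y ≤ ρ x} ≤ ρ x) ∧
      (∀ x ∈ G, ∀ y ∈ G, (x < y ∨ y < x) → ρ y = ρ x) ∧
      (∀ x ∈ G, #{y : P | y ∈ G ∧ (x < y ∨ y < x)} < ρ x) ∧
      (∀ x, x ∉ G → ∃ z, ρ x ≤ ρ z ∧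
        ρ z ≤ #{y : P | y ∈ G ∧ (x < y ∨ y < x) ∧ ρ y = ρ z}) ∧
      ℵ₀ ≤ #{x : P | ρ x = ℵ₀} := by
  classical
  set κ : Cardinal.{0} := #P with hκ
  have hκinf : ℵ₀ ≤ κ := aleph0_le_mk P
  let X : Type := κ.ord.ToType
  have hX : #P = #X := by simp [X, hκ]
  obtain ⟨e⟩ := Cardinal.eq.1 hX
  let W : Type := WithTop X
  let ι : P → W := fun x => ((e x : X) : WithTop X)
  have hιinj : Function.Injective ι := fun x y h => e.injective (WithTop.coe_injective h)
  have hιtop : ∀ x, ι x < ⊤ := fun x => WithTop.coe_lt_top _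
  have hιsurj : ∀ w : W, w < ⊤ → ∃ x, ι x = w := by
    intro w hw
    obtain ⟨u, hu⟩ := WithTop.ne_top_iff_exists.1 hw.ne
    exact ⟨e.symm u, by simp only [ι, Equiv.apply_symm_apply]; exact hu⟩
  have hTop : #(Iio (⊤ : W)) = κ := by
    have hq : #P = #(Iio (⊤ : W)) := by
      refine Cardinal.mk_congr (Equiv.ofBijective (fun x : P => (⟨ι x, hιtop x⟩ : Iio (⊤ : W)))
        ⟨fun x y h => hιinj (congrArg Subtype.val h), fun w => ?_⟩)
      obtain ⟨x, hx⟩ := hιsurj w.1 w.2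
      exact ⟨x, Subtype.ext hx⟩
    exact hq.symm
  have hinf : ℵ₀ ≤ #(Iio (⊤ : W)) := by rw [hTop]; exact hκinf
  obtain ⟨x00⟩ : Nonempty P := inferInstance
  let pr : W → P := fun w => if h : ∃ x, ι x = w then h.choose else x00
  have hpr : ∀ x, pr (ι x) = x := by
    intro x
    have h : ∃ y, ι y = ι x := ⟨x, rfl⟩
    simp only [pr, dif_pos h]
    exact hιinj h.choose_spec
  -- kernel
  let K : Cardinal.{0} → Prop := fun c => c.IsRegular ∧ c ≤ κ
  obtain ⟨Gt, hGt⟩ := kernel (P := P) K (fun c hc => hc.1.aleph0_le) h1 h2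
  let S : P → Cardinal.{0} → Set P := fun x c => {y : P | y ∈ Gt c ∧ (x < y ∨ y < x)}
  have hSκ : ∀ x c, #(S x c) ≤ #(Iio (⊤ : W)) := by
    intro x c
    rw [hTop]
    exact mk_set_le _
  -- enumeration
  have hen : ∀ (x : P) (c : Cardinal.{0}), ∃ f : W → W,
      (∀ ξ, ξ < wc #(S x c) → ∃ y ∈ S x c, f ξ = ι y) ∧
      (∀ ξ η, ξ < wc #(S x c) → η < wc #(S x c) → f ξ = f η → ξ = η) ∧
      (∀ y ∈ S x c, ∃ ξ, ξ < wc #(S x c) ∧ f ξ = ι y) := by
    intro x c
    have hcard : #(Iio (wc #(S x c) : W)) = #(S x c) := card_wc (hSκ x c)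
    obtain ⟨φ⟩ := Cardinal.eq.1 hcard
    refine ⟨fun ξ => if h : ξ < wc #(S x c) then ι (φ ⟨ξ, h⟩ : P) else ⊤, ?_, ?_, ?_⟩
    · intro ξ hξ
      exact ⟨_, (φ ⟨ξ, hξ⟩).2, by simp only [hξ, dif_pos]⟩
    · intro ξ η hξ hη h
      simp only [hξ, hη, dif_pos] at h
      have := φ.injective (Subtype.ext (hιinj h))
      exact congrArg Subtype.val this
    · intro y hy
      obtain ⟨⟨ξ, hξ⟩, hφ⟩ := φ.surjective ⟨y, hy⟩
      have hξ' : ξ < wc #(S x c) := hξ
      exact ⟨ξ, hξ, by simp only [hξ', dif_pos, hφ]⟩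
  choose en hen1 hen2 hen3 using hen
  let Q : P → Cardinal.{0} → Set Cardinal.{0} := fun x d => {c | d ≤ c ∧ K c ∧ c ≤ #(S x c)}
  let F : Fin 7 → W → W → W → W := fun i a b c =>
    match i with
    | 0 => wc ℵ₀
    | 1 => ⊤
    | 2 => cfl a
    | 3 => cff a b
    | 4 => wc #(S (pr a) #(Iio b))
    | 5 => en (pr a) #(Iio b) c
    | 6 => wc (sInf (Q (pr a) #(Iio b)))
  let M : W → Set W := fun a => Hull F (Iio a)
  have hM : Fam M :=
    { mono := fun h => hull_mono F (Iio_subset_Iio h)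
      sub := fun a => subset_hull F _
      card := fun a => card_hull F _
      cont := fun hA hs hsA v hv => hull_cont F hA hs hsA hv
      bot := fun a ha => by
        simp only [M]
        rw [not_nonempty_iff_eq_empty.1 ha, hull_empty]
      top := fun a ⟨b, hb⟩ => by
        have h := subset_hull F (Iio a) hb
        exact hull_closed F (Iio a) 1 h h h }
  have F0 : ∀ a, (Iio a).Nonempty → (wc ℵ₀ : W) ∈ M a := fun a ⟨b, hb⟩ => by
    have h := subset_hull F (Iio a) hb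
    exact hull_closed F (Iio a) 0 h h h
  have F2 : ∀ a, ∀ l ∈ M a, cfl l ∈ M a := fun a l h => hull_closed F (Iio a) 2 h h h
  have F3 : ∀ a, ∀ l ∈ M a, ∀ ξ ∈ M a, cff l ξ ∈ M a := fun a l h ξ h' =>
    hull_closed F (Iio a) 3 h h' h'
  have F4 : ∀ a, ∀ x : P, ι x ∈ M a → ∀ l ∈ M a, wc #(S x #(Iio l)) ∈ M a := by
    intro a x hx l hl
    have h := hull_closed F (Iio a) 4 hx hl hl
    change wc #(S (pr (ι x)) #(Iio l)) ∈ M a at h
    rwa [hpr] at h
  have F5 : ∀ a, ∀ x : P, ι x ∈ M a → ∀ l ∈ M a, ∀ ξ ∈ M a, en x #(Iio l) ξ ∈ M a := by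
    intro a x hx l hl ξ hξ
    have h := hull_closed F (Iio a) 5 hx hl hξ
    change en (pr (ι x)) #(Iio l) ξ ∈ M a at h
    rwa [hpr] at h
  have F6 : ∀ a, ∀ x : P, ι x ∈ M a → ∀ l ∈ M a, wc (sInf (Q x #(Iio l))) ∈ M a := by
    intro a x hx l hl
    have h := hull_closed F (Iio a) 6 hx hl hl
    change wc (sInf (Q (pr (ι x)) #(Iio l))) ∈ M a at h
    rwa [hpr] at h
  -- columns
  have hcol : ∀ x : P, ∃ a, good (LL M) a ∧ ι x ∉ M a ∧
      ∀ b, good (LL M) b → a < b → ι x ∈ M b := fun x => exists_col hM hinf (hιtop x)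
  choose col hcg hcn hcb using hcol
  have hcD : ∀ x, Dom M (col x) := fun x => ⟨ι x, hιtop x, hcn x⟩
  -- regularity of levels
  have hreg : ∀ a, good (LL M) a → Dom M a →
      (#(Iio (LL M a))).IsRegular ∧ LL M a = wc #(Iio (LL M a)) := by
    intro a hga hDa
    by_cases ha : (Iio a).Nonempty
    · exact reg hM hinf ha hga hDa (F2 a) (F3 a)
    · have e1 : LL M a = wc ℵ₀ := by rw [LL, if_neg ha]
      rw [e1, card_wc hinf]
      exact ⟨isRegular_aleph0, rfl⟩
  let ρ : P → Cardinal.{0} := fun x => #(Iio (LL M (col x)))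
  have hρr : ∀ x, (ρ x).IsRegular := fun x => (hreg _ (hcg x) (hcD x)).1
  have hρw : ∀ x, LL M (col x) = wc (ρ x) := fun x => (hreg _ (hcg x) (hcD x)).2
  have hρκ : ∀ x, ρ x ≤ #(Iio (⊤ : W)) := fun x => card_mono le_top
  let G : Set P := {x | x ∈ Gt (ρ x)}
  have hlt : ∀ x, col x < LL M (col x) := fun x => lt_LL hM hinf (hcD x)
  have hstep : ∀ a b, good (LL M) a → good (LL M) b → a < b → LL M a ≤ b :=
    fun a b ha hb hab => (good_iff _ _).1 hb a hab ha
  have hρle : ∀ x y, ρ y ≤ ρ x → col y ≤ col x := by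
    intro x y h
    by_contra hcon
    rw [not_le] at hcon
    have e1 := hstep _ _ (hcg x) (hcg y) hcon
    have e2 : LL M (col y) ≤ LL M (col x) := by
      rw [hρw x, hρw y, wc_le_wc (hρκ y) (hρκ x)]
      exact h
    exact absurd ((e1.trans_lt (hlt y)).trans_le e2) (lt_irrefl _)
  have hLLM : ∀ a b, good (LL M) a → Dom M a → a < b → good (LL M) b → LL M a ∈ M b := by
    intro a b hga hDa hab hgb
    by_cases ha : (Iio a).Nonempty
    · exact hM.mono hab.le (LL_spec hM ha hDa).1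
    · have e1 : LL M a = wc ℵ₀ := by rw [LL, if_neg ha]
      rw [e1]
      exact F0 b ⟨a, hab⟩
  have hadjsymm : ∀ x y : P, (x < y ∨ y < x) → (y < x ∨ x < y) := fun x y h => h.symm
  have noedge : ∀ x ∈ G, ∀ y ∈ G, (x < y ∨ y < x) → ¬ col x < col y := by
    intro x hx y hy hxy hcon
    set l := LL M (col y) with hl
    have hne : (Iio (col y)).Nonempty := ⟨col x, hcon⟩
    obtain ⟨hlM, hβl, hgap⟩ := LL_spec hM hne (hcD y)
    have hρxy : ρ x ≤ ρ y := by
      have e1 := hstep _ _ (hcg x) (hcg y) hcon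
      exact card_mono (e1.trans (hlt y).le)
    have hK : K (ρ y) := ⟨hρr y, by rw [← hTop]; exact hρκ y⟩
    have hsmall : #(S x (ρ y)) < ρ y := (hGt (ρ x) x).1 hx (ρ y) hρxy hK
    have hyS : y ∈ S x (ρ y) := ⟨hy, hxy⟩
    have hxM : ι x ∈ M (col y) := hcb x _ (hcg y) hcon
    have hv : wc #(S x (ρ y)) ∈ M (col y) := F4 _ x hxM l hlM
    have hvl : (wc #(S x (ρ y)) : W) < l := by
      rw [hl, hρw y, lt_wc_iff (hρκ y), card_wc (hSκ _ _)]
      exact hsmall
    have hvβ := hgap _ hv hvl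
    obtain ⟨ξ, hξ, hξy⟩ := hen3 x (ρ y) y hyS
    have hξM : ξ ∈ M (col y) := by
      by_contra hc
      exact absurd (hξ.trans hvβ) (not_lt.2 (lst_le (s := (M (col y))ᶜ) hc))
    have := F5 _ x hxM l hlM ξ hξM
    change en x (ρ y) ξ ∈ M (col y) at this
    rw [hξy] at this
    exact hcn y this
  refine ⟨G, ρ, hρr, ?_, ?_, ?_, ?_, ?_⟩
  · -- size of columns
    intro x
    have hsub : ι '' {y : P | ρ y ≤ ρ x} ⊆ M (LL M (col x)) := by
      rintro _ ⟨y, hy, rfl⟩
      exact hcb y _ (good_LL hM hinf (hcg x) (hcD x)) ((hρle x y hy).trans_lt (hlt x))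
    have h3 := mk_le_mk_of_subset hsub
    rw [mk_image_eq hιinj] at h3
    refine h3.trans ((hM.card _).trans ?_)
    exact max_le le_rfl (hρr x).aleph0_le
  · intro x hx y hy hxy
    have e1 : col x = col y := by
      refine le_antisymm ?_ ?_
      · exact not_lt.1 (noedge y hy x hx hxy.symm)
      · exact not_lt.1 (noedge x hx y hy hxy)
    simp only [ρ, e1]
  · intro x hx
    have hK : K (ρ x) := ⟨hρr x, by rw [← hTop]; exact hρκ x⟩
    refine lt_of_le_of_lt (mk_le_mk_of_subset ?_) ((hGt (ρ x) x).1 hx (ρ x) le_rfl hK)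
    rintro y ⟨hy, hxy⟩
    have e1 : col x = col y := by
      refine le_antisymm ?_ ?_
      · exact not_lt.1 (noedge y hy x hx hxy.symm)
      · exact not_lt.1 (noedge x hx y hy hxy)
    have e2 : ρ y = ρ x := by simp only [ρ, e1]
    refine ⟨?_, hxy⟩
    have : y ∈ Gt (ρ y) := hy
    rwa [e2] at this
  · intro x hx
    have hx' : ¬ x ∈ Gt (ρ x) := hx
    rw [hGt] at hx'
    push Not at hx'
    have hQne : (Q x (ρ x)).Nonempty := by
      obtain ⟨c', hc1, hc2, hc3⟩ := hx'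
      exact ⟨c', hc1, hc2, hc3⟩
    set c0 := sInf (Q x (ρ x)) with hc0
    have hc0Q : c0 ∈ Q x (ρ x) := csInf_mem hQne
    obtain ⟨hq1, hq2, hq3⟩ := hc0Q
    have hc0κ : c0 ≤ #(Iio (⊤ : W)) := by rw [hTop]; exact hq2.2
    have hle : LL M (col x) ≤ wc c0 := by
      rw [hρw x, wc_le_wc (hρκ x) hc0κ]
      exact hq1
    have hmem : ∀ a, good (LL M) a → col x < a → (wc c0 : W) ∈ M a := by
      intro a hga hxa
      exact F6 a x (hcb x a hga hxa) (LL M (col x)) (hLLM _ _ (hcg x) (hcD x) hxa hga)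
    obtain ⟨a', hga', hDa', hLa'⟩ := hit hM hinf hq2.1 hc0κ (hcg x) (hcD x) hle hmem
    set l : W := wc c0 with hl
    have hgl : good (LL M) l := by
      rw [← hLa']
      exact good_LL hM hinf hga' hDa'
    have ha'l : a' < l := by
      rw [← hLa']
      exact lt_LL hM hinf hDa'
    have hcardl : #(Iio l) = c0 := card_wc hc0κ
    have hxl : ι x ∈ M l := hcb x l hgl ((hlt x).trans_le hle)
    have hlMl : l ∈ M l := by
      have := hLLM a' l hga' hDa' ha'l hgl
      rwa [hLa'] at this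
    -- elements of column a'
    have hcolchar : ∀ y, ι y ∈ M l → ι y ∉ M a' → col y = a' := by
      intro y hy1 hy2
      refine le_antisymm ?_ ?_
      · by_contra hcon
        rw [not_le] at hcon
        have := hstep _ _ hga' (hcg y) hcon
        rw [hLa'] at this
        exact hcn y (hM.mono this hy1)
      · by_contra hcon
        rw [not_le] at hcon
        exact hy2 (hcb y a' hga' hcon)
    have hbig : c0 ≤ #{y : P | y ∈ S x c0 ∧ ι y ∈ M l} := by
      have hwS : l ≤ wc #(S x c0) := by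
        rw [hl, wc_le_wc hc0κ (hSκ _ _)]
        exact hq3
      have hmap : ∀ ξ : Iio l, ∃ y : {y : P | y ∈ S x c0 ∧ ι y ∈ M l}, en x c0 ξ.1 = ι y.1 := by
        rintro ⟨ξ, hξ⟩
        obtain ⟨y, hy, hyξ⟩ := hen1 x c0 ξ (lt_of_lt_of_le hξ hwS)
        refine ⟨⟨y, hy, ?_⟩, hyξ⟩
        have := F5 l x hxl l hlMl ξ (hM.sub l hξ)
        rw [hcardl] at this
        rwa [hyξ] at this
      choose φ hφ using hmap
      have hφinj : Function.Injective φ := by
        rintro ⟨ξ, hξ⟩ ⟨η, hη⟩ h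
        have e1 := hφ ⟨ξ, hξ⟩
        have e2 := hφ ⟨η, hη⟩
        rw [← h] at e2
        have := hen2 x c0 ξ η (lt_of_lt_of_le hξ hwS) (lt_of_lt_of_le hη hwS) (e1.trans e2.symm)
        exact Subtype.ext this
      have := mk_le_of_injective hφinj
      rwa [hcardl] at this
    have hMa' : #(M a') < c0 := by
      by_cases ha : (Iio a').Nonempty
      · have h3 : (wc ℵ₀ : W) ≤ a' := by
          obtain ⟨b, hb⟩ := ha
          exact w0_le_of_good hM hinf hga' hb
        have h4 : ℵ₀ ≤ #(Iio a') := (wc_le_iff hinf _).1 h3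
        refine (hM.card a').trans_lt ?_
        rw [max_eq_left h4]
        exact (lt_wc_iff hc0κ a').1 ha'l
      · rw [hM.bot a' ha]
        simpa using aleph0_pos.trans_le hq2.1.aleph0_le
    have hbig2 : c0 ≤ #{y : P | (y ∈ S x c0 ∧ ι y ∈ M l) ∧ ι y ∉ M a'} := by
      by_contra hcon
      rw [not_le] at hcon
      have hsub : {y : P | y ∈ S x c0 ∧ ι y ∈ M l} ⊆
          {y : P | (y ∈ S x c0 ∧ ι y ∈ M l) ∧ ι y ∉ M a'} ∪ {y : P | ι y ∈ M a'} := by
        intro y hy
        by_cases h : ι y ∈ M a'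
        · exact Or.inr h
        · exact Or.inl ⟨hy, h⟩
      have h5 : #{y : P | ι y ∈ M a'} < c0 := by
        refine lt_of_le_of_lt ?_ hMa'
        have : ι '' {y : P | ι y ∈ M a'} ⊆ M a' := by
          rintro _ ⟨y, hy, rfl⟩
          exact hy
        have h6 := mk_le_mk_of_subset this
        rwa [mk_image_eq hιinj] at h6
      have h7 := (mk_le_mk_of_subset hsub).trans_lt ((mk_union_le _ _).trans_lt
        (add_lt_of_lt hq2.1.aleph0_le hcon h5))
      exact absurd hbig (not_le.2 h7)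
    have hprop : ∀ y ∈ {y : P | (y ∈ S x c0 ∧ ι y ∈ M l) ∧ ι y ∉ M a'},
        y ∈ G ∧ (x < y ∨ y < x) ∧ ρ y = c0 := by
      rintro y ⟨⟨hyS, hyM⟩, hyn⟩
      have e1 := hcolchar y hyM hyn
      have e2 : ρ y = c0 := by
        simp only [ρ, e1, hLa']
        exact hcardl
      refine ⟨?_, hyS.2, e2⟩
      change y ∈ Gt (ρ y)
      rw [e2]
      exact hyS.1
    have hne : {y : P | (y ∈ S x c0 ∧ ι y ∈ M l) ∧ ι y ∉ M a'}.Nonempty := by
      rw [nonempty_iff_ne_empty]
      intro h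
      rw [h] at hbig2
      simp only [mk_emptyCollection, nonpos_iff_eq_zero] at hbig2
      exact absurd (hq2.1.aleph0_le) (by rw [hbig2]; exact not_le.2 aleph0_pos)
    obtain ⟨z, hz⟩ := hne
    have hρz := (hprop z hz).2.2
    refine ⟨z, by rw [hρz]; exact hq1, ?_⟩
    rw [hρz]
    exact hbig2.trans (mk_le_mk_of_subset hprop)
  · -- the countable column
    have hmap : ∀ w : Iio (wc ℵ₀ : W), ∃ x : {x : P | ρ x = ℵ₀}, ι x.1 = w.1 := by
      rintro ⟨w, hw⟩
      obtain ⟨x, hx⟩ := hιsurj w (lt_of_lt_of_le hw le_top)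
      refine ⟨⟨x, ?_⟩, hx⟩
      have hne : ¬ (Iio (col x)).Nonempty := by
        rintro ⟨b, hb⟩
        have h3 : (wc ℵ₀ : W) ≤ col x := w0_le_of_good hM hinf (hcg x) hb
        refine hcn x (hM.sub _ ?_)
        rw [hx]
        exact lt_of_lt_of_le hw h3
      have e1 : LL M (col x) = wc ℵ₀ := by rw [LL, if_neg hne]
      change #(Iio (LL M (col x))) = ℵ₀
      rw [e1, card_wc hinf]
    choose φ hφ using hmap
    have hφinj : Function.Injective φ := by
      intro a b h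
      apply Subtype.ext
      rw [← hφ a, ← hφ b, h]
    have := mk_le_of_injective hφinj
    rwa [card_wc hinf] at this

end Final


/-- Greedy selection inside a set `V` of vertices in which every vertex has fewer than `c`
neighbours, `c` regular: at most `c` many large targets can be met infinitely often while every
vertex of `V` is equal or adjacent to at most one chosen vertex. -/
theorem greedy {P : Type} (c : Cardinal.{0}) (hc : c.IsRegular) (adj : P → P → Prop)
    (hsymm : ∀ x y, adj x y → adj y x) (V : Set P)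
    (hV : ∀ x ∈ V, #{y | y ∈ V ∧ adj x y} < c)
    (J : Type) (hJ : #J ≤ c) (X : J → Set P) (hXV : ∀ j, X j ⊆ V) (hX : ∀ j, c ≤ #(X j)) :
    ∃ H : Set P, H ⊆ V ∧ (∀ j, (H ∩ X j).Infinite) ∧
      ∀ s ∈ V, {h | h ∈ H ∧ (h = s ∨ adj h s)}.Subsingleton := by
  classical
  rcases isEmpty_or_nonempty J with hJe | hJne
  · refine ⟨∅, by simp, fun j => (IsEmpty.false j).elim, fun s _ => ?_⟩
    intro a ha
    exact absurd ha.1 (by simp)
  have hc0 : ℵ₀ ≤ c := hc.aleph0_le
  let I : Type := c.ord.ToType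
  have hI : #I = c := by simp [I]
  have hIio : ∀ i : I, #(Iio i) < c := by
    intro i
    have := mk_Iio_lt (α := I) i (by simp [I])
    rwa [hI] at this
  have hJN : #(J × ℕ) ≤ #I := by
    rw [hI]
    have : #(J × ℕ) = #J * ℵ₀ := by simp
    rw [this]
    exact mul_le_of_le hc0 hJ hc0
  obtain ⟨emb⟩ : Nonempty (J × ℕ ↪ I) := by
    rwa [Cardinal.le_def] at hJN
  obtain ⟨e, he⟩ : ∃ e : I → J × ℕ, Function.Surjective e :=
    ⟨Function.invFun emb, Function.invFun_surjective emb.injective⟩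
  let N1 : P → Set P := fun h => {s | s ∈ V ∧ (s = h ∨ adj h s)}
  have hN1 : ∀ h ∈ V, #(N1 h) < c := by
    intro h hh
    have h1 : N1 h ⊆ {y | y ∈ V ∧ adj h y} ∪ {h} := by
      rintro s ⟨hs, rfl | hs2⟩
      · exact Or.inr rfl
      · exact Or.inl ⟨hs, hs2⟩
    refine lt_of_le_of_lt (mk_le_mk_of_subset h1) ?_
    refine lt_of_le_of_lt (mk_union_le _ _) ?_
    refine add_lt_of_lt hc0 (hV h hh) ?_
    rw [mk_singleton]
    exact lt_of_lt_of_le one_lt_aleph0 hc0
  let Bad : P → Set P := fun h => ⋃ s : N1 h, N1 (s : P)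
  have hBad : ∀ h ∈ V, #(Bad h) < c := by
    intro h hh
    refine (card_iUnion_lt_iff_forall_of_isRegular hc (hN1 h hh)).2 ?_
    rintro ⟨s, hs⟩
    exact hN1 s hs.1
  have hex : ∀ (i : I) (g : ∀ j, j < i → V), ∃ x, x ∈ X (e i).1 ∧
      ∀ j (hj : j < i), x ∉ Bad (g j hj : P) := by
    intro i g
    by_contra hcon
    push Not at hcon
    have hsub : X (e i).1 ⊆ ⋃ j : Iio i, Bad (g j.1 j.2 : P) := by
      intro x hx
      obtain ⟨j, hj, hxj⟩ := hcon x hx
      exact mem_iUnion.2 ⟨⟨j, hj⟩, hxj⟩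
    have h1 : #(⋃ j : Iio i, Bad (g j.1 j.2 : P) : Set P) < c := by
      refine (card_iUnion_lt_iff_forall_of_isRegular hc (hIio i)).2 ?_
      rintro ⟨j, hj⟩
      exact hBad _ (g j hj).2
    exact absurd (lt_of_le_of_lt (mk_le_mk_of_subset hsub) h1) (not_lt.2 (hX _))
  choose ch hch1 hch2 using hex
  let F : ∀ i : I, (∀ j, j < i → V) → V := fun i g => ⟨ch i g, hXV _ (hch1 i g)⟩
  let h : I → V := (wellFounded_lt (α := I)).fix F
  have hfix : ∀ i, h i = F i (fun j _ => h j) := fun i =>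
    (wellFounded_lt (α := I)).fix_eq F i
  have hmem : ∀ i, (h i : P) ∈ X (e i).1 := by
    intro i
    rw [hfix i]
    exact hch1 i _
  have hnb : ∀ i j, j < i → (h i : P) ∉ Bad (h j : P) := by
    intro i j hj
    have h2 := hch2 i (fun j _ => h j) j hj
    rw [hfix i]
    exact h2
  have hkey : ∀ i j s, s ∈ V → ((h i : P) = s ∨ adj (h i) s) → ((h j : P) = s ∨ adj (h j) s) →
      ¬ j < i := by
    intro i j s hs hi hj hlt
    apply hnb i j hlt
    refine mem_iUnion.2 ⟨⟨s, hs, ?_⟩, (h i).2, ?_⟩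
    · rcases hj with hj | hj
      · exact Or.inl hj.symm
      · exact Or.inr hj
    · rcases hi with hi | hi
      · exact Or.inl hi
      · exact Or.inr (hsymm _ _ hi)
  have hkey2 : ∀ i j s, s ∈ V → ((h i : P) = s ∨ adj (h i) s) → ((h j : P) = s ∨ adj (h j) s) →
      i = j := by
    intro i j s hs hi hj
    rcases lt_trichotomy i j with hlt | heq | hlt
    · exact absurd hlt (hkey j i s hs hj hi)
    · exact heq
    · exact absurd hlt (hkey i j s hs hi hj)
  have hinj : ∀ i j, (h i : P) = h j → i = j := by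
    intro i j hij
    exact hkey2 i j (h j) (h j).2 (Or.inl hij) (Or.inl rfl)
  refine ⟨range (fun i => (h i : P)), ?_, ?_, ?_⟩
  · rintro _ ⟨i, rfl⟩
    exact (h i).2
  · intro j
    choose f hf using fun k : ℕ => he (j, k)
    refine Set.infinite_of_injective_forall_mem (f := fun k => (h (f k) : P)) ?_ ?_
    · intro k l hkl
      have h1 := hinj _ _ hkl
      have h2 := hf k
      rw [h1, hf l] at h2
      exact (congrArg Prod.snd h2).symm
    · intro k
      refine ⟨⟨f k, rfl⟩, ?_⟩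
      have h1 := hmem (f k)
      rw [hf k] at h1
      exact h1
  · rintro s hs _ ⟨⟨i, rfl⟩, hi⟩ _ ⟨⟨j, rfl⟩, hj⟩
    have := hkey2 i j s hs hi hj
    subst this
    rfl

/-- From a coherent system of columns to the good antichain. -/
theorem of_coherent (P : Type) [PartialOrder P] (G : Set P) (rho : P → Cardinal.{0})
    (hreg : ∀ x, (rho x).IsRegular)
    (hcount : ∀ x, #{y | rho y ≤ rho x} ≤ rho x)
    (hcol : ∀ x ∈ G, ∀ y ∈ G, (x < y ∨ y < x) → rho y = rho x)
    (hsmall : ∀ x ∈ G, #{y | y ∈ G ∧ (x < y ∨ y < x)} < rho x)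
    (hbig : ∀ x, x ∉ G → ∃ z, rho x ≤ rho z ∧
      rho z ≤ #{y | y ∈ G ∧ (x < y ∨ y < x) ∧ rho y = rho z})
    (h0 : ∃ z, rho z ≤ #{x | rho x = rho z}) :
    ∃ H : Set P, H.Infinite ∧ IsAntichain (· ≤ ·) H ∧
      ∀ x : P,
        ({h | h ∈ H ∧ (x ≤ h ∨ h ≤ x)}.encard = 0 ∨
         {h | h ∈ H ∧ (x ≤ h ∨ h ≤ x)}.encard = 1 ∨
         {h | h ∈ H ∧ (x ≤ h ∨ h ≤ x)}.Infinite) := by
  classical
  let adj : P → P → Prop := fun x y => x < y ∨ y < x
  have hsymm : ∀ x y, adj x y → adj y x := fun x y h => Or.symm h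
  let V : Cardinal.{0} → Set P := fun c => {x | x ∈ G ∧ rho x = c}
  have hstep : ∀ c : Cardinal.{0}, ∃ H : Set P, (∃ z, rho z = c) →
      (H ⊆ V c ∧ (c ≤ #(V c) → (H ∩ V c).Infinite) ∧
        (∀ x, rho x ≤ c → c ≤ #{y | y ∈ V c ∧ adj x y} →
          (H ∩ {y | y ∈ V c ∧ adj x y}).Infinite) ∧
        ∀ s ∈ V c, {h | h ∈ H ∧ (h = s ∨ adj h s)}.Subsingleton) := by
    intro c
    by_cases hz : ∃ z, rho z = c
    · obtain ⟨z, rfl⟩ := hz
      let T : Option {x // rho x ≤ rho z} → Set P := fun o =>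
        match o with
        | none => V (rho z)
        | some x => {y | y ∈ V (rho z) ∧ adj x y}
      let J : Type := {o : Option {x // rho x ≤ rho z} // rho z ≤ #(T o)}
      have hc0 : ℵ₀ ≤ rho z := (hreg z).aleph0_le
      have hJ : #J ≤ rho z := by
        refine le_trans (mk_subtype_le _) ?_
        rw [mk_option]
        exact add_le_of_le hc0 (hcount z) (le_trans one_le_aleph0 hc0)
      have hVs : ∀ x ∈ V (rho z), #{y | y ∈ V (rho z) ∧ adj x y} < rho z := by
        rintro x ⟨hx1, hx2⟩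
        rw [← hx2]
        refine lt_of_le_of_lt (mk_le_mk_of_subset ?_) (hsmall x hx1)
        rintro y ⟨⟨hy1, hy2⟩, hy3⟩
        exact ⟨hy1, hy3⟩
      have hTV : ∀ o, T o ⊆ V (rho z) := by
        rintro (_ | x)
        · exact fun y hy => hy
        · exact fun y hy => hy.1
      obtain ⟨H, hH1, hH2, hH3⟩ := greedy (rho z) (hreg z) adj hsymm (V (rho z)) hVs J hJ
        (fun j => T j.1) (fun j => hTV j.1) (fun j => j.2)
      refine ⟨H, fun _ => ⟨hH1, ?_, ?_, hH3⟩⟩
      · intro h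
        exact hH2 ⟨none, h⟩
      · intro x hx h
        exact hH2 ⟨some ⟨x, hx⟩, h⟩
    · exact ⟨∅, fun h => absurd h hz⟩
  choose Hc hHc using hstep
  have hA := fun x : P => hHc (rho x) ⟨x, rfl⟩
  let H : Set P := {x | x ∈ Hc (rho x)}
  have hHG : ∀ x ∈ H, x ∈ G := fun x hx => ((hA x).1 hx).1
  have hcomp : ∀ x h : P, (x ≤ h ∨ h ≤ x) ↔ (h = x ∨ adj h x) := by
    intro x h
    constructor
    · rintro (h1 | h1)
      · rcases h1.lt_or_eq with h2 | h2
        · exact Or.inr (Or.inr h2)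
        · exact Or.inl h2.symm
      · rcases h1.lt_or_eq with h2 | h2
        · exact Or.inr (Or.inl h2)
        · exact Or.inl h2
    · rintro (rfl | h1 | h1)
      · exact Or.inl le_rfl
      · exact Or.inr h1.le
      · exact Or.inl h1.le
  have hin : ∀ x ∈ G, {h | h ∈ H ∧ (x ≤ h ∨ h ≤ x)}.Subsingleton := by
    intro x hx
    have hs := (hA x).2.2.2 x ⟨hx, rfl⟩
    have hr : ∀ h ∈ H, (x ≤ h ∨ h ≤ x) → h ∈ {h | h ∈ Hc (rho x) ∧ (h = x ∨ adj h x)} := by
      intro h hh hc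
      have hc' := (hcomp x h).1 hc
      refine ⟨?_, hc'⟩
      rcases hc' with rfl | hadj
      · exact hh
      · have : rho h = rho x := hcol x hx h (hHG h hh) (hsymm _ _ hadj)
        rw [← this]
        exact hh
    intro a ha b hb
    exact hs (hr a ha.1 ha.2) (hr b hb.1 hb.2)
  have hmemH : ∀ c h, (∃ z, rho z = c) → h ∈ Hc c → h ∈ H := by
    intro c h hz hh
    have := ((hHc c hz).1 hh).2
    change h ∈ Hc (rho h)
    rw [this]
    exact hh
  have hout : ∀ x, x ∉ G → {h | h ∈ H ∧ (x ≤ h ∨ h ≤ x)}.Infinite := by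
    intro x hx
    obtain ⟨z, hz1, hz2⟩ := hbig x hx
    have h1 := (hA z).2.2.1 x hz1 (by
      refine le_trans hz2 (mk_le_mk_of_subset ?_)
      rintro y ⟨hy1, hy2, hy3⟩
      exact ⟨⟨hy1, hy3⟩, hy2⟩)
    refine h1.mono ?_
    rintro y ⟨hy1, hy2, hy3⟩
    refine ⟨hmemH _ _ ⟨z, rfl⟩ hy1, ?_⟩
    exact (hcomp x y).2 (Or.inr (hsymm _ _ hy3))
  refine ⟨H, ?_, ?_, ?_⟩
  · by_cases hG : ∃ x, x ∉ G
    · obtain ⟨x, hx⟩ := hG
      exact (hout x hx).mono (fun h hh => hh.1)
    · push Not at hG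
      obtain ⟨z, hz⟩ := h0
      have h1 := (hA z).2.1 (by
        refine le_trans hz (mk_le_mk_of_subset ?_)
        intro y hy
        exact ⟨hG y, hy⟩)
      exact h1.mono (fun h hh => hmemH _ _ ⟨z, rfl⟩ hh.1)
  · intro a ha b hb hne hab
    apply hne
    exact hin a (hHG a ha) ⟨ha, Or.inl le_rfl⟩ ⟨hb, Or.inl hab⟩
  · intro x
    by_cases hx : x ∈ G
    · rcases (hin x hx).eq_empty_or_singleton with h1 | ⟨a, h1⟩
      · left
        rw [h1]
        simp
      · right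
        left
        rw [h1]
        simp
    · right
      right
      exact hout x hx


/-- Bounded chains give both well-foundedness conditions. -/
theorem wf_of_bounded (P : Type) [PartialOrder P]
    (hb : ∃ n : ℕ, ∀ s : Set P, IsChain (· ≤ ·) s → s.encard ≤ (n : ℕ∞)) :
    WellFounded ((· < ·) : P → P → Prop) ∧ WellFounded ((· > ·) : P → P → Prop) := by
  obtain ⟨n, hn⟩ := hb
  constructor
  · rw [RelEmbedding.wellFounded_iff_isEmpty]
    refine ⟨fun f => ?_⟩
    have hch : IsChain (· ≤ ·) (range f) := by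
      rintro _ ⟨i, rfl⟩ _ ⟨j, rfl⟩ _
      rcases lt_trichotomy i j with h | h | h
      · right
        exact (f.map_rel_iff.2 h).le
      · left
        rw [h]
      · left
        exact (f.map_rel_iff.2 h).le
    have h1 := hn _ hch
    have h2 : (range f).Infinite := Set.infinite_range_of_injective f.injective
    rw [h2.encard_eq] at h1
    exact absurd h1 (by simp)
  · rw [RelEmbedding.wellFounded_iff_isEmpty]
    refine ⟨fun f => ?_⟩
    have hch : IsChain (· ≤ ·) (range f) := by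
      rintro _ ⟨i, rfl⟩ _ ⟨j, rfl⟩ _
      rcases lt_trichotomy i j with h | h | h
      · left
        exact (f.map_rel_iff.2 h).le
      · left
        rw [h]
      · right
        exact (f.map_rel_iff.2 h).le
    have h1 := hn _ hch
    have h2 : (range f).Infinite := Set.infinite_range_of_injective f.injective
    rw [h2.encard_eq] at h1
    exact absurd h1 (by simp)


/-- Every infinite poset with a uniform bound on chain sizes has an infinite antichain H such that each element is comparable to no element of H, exactly one element of H, or infinitely many elements of H. -/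
theorem result :
    ∀ (P : Type) [PartialOrder P], Infinite P →
      (∃ n : ℕ, ∀ s : Set P, IsChain (· ≤ ·) s → s.encard ≤ (n : ℕ∞)) →
      ∃ H : Set P, H.Infinite ∧ IsAntichain (· ≤ ·) H ∧
        ∀ x : P,
          ({h | h ∈ H ∧ (x ≤ h ∨ h ≤ x)}.encard = 0 ∨
           {h | h ∈ H ∧ (x ≤ h ∨ h ≤ x)}.encard = 1 ∨
           {h | h ∈ H ∧ (x ≤ h ∨ h ≤ x)}.Infinite) := by
  intro P _ hinf hb
  obtain ⟨w1, w2⟩ := wf_of_bounded P hb
  obtain ⟨G, rho, h1, h2, h3, h4, h5, h6⟩ := coherent P w1 w2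
  refine of_coherent P G rho h1 h2 h3 h4 h5 ?_
  have hne : Nonempty {x | rho x = ℵ₀} := by
    rw [← mk_ne_zero_iff]
    intro h
    rw [h] at h6
    exact absurd h6 (not_le.2 aleph0_pos)
  obtain ⟨z, hz⟩ := hne
  refine ⟨z, ?_⟩
  have hz' : rho z = ℵ₀ := hz
  rw [hz']
  exact h6

end Pool.Agent.S08015
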