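import Pool.Statements.S08018

set_option autoImplicit false
open Pool Pool.MP_fd6c89_co

namespace Pool.Agent.S08018

open Finset

/-- Window counting bound for sets whose sums of two distinct elements are distinct. -/
theorem sidon_bound {s n u : ℕ} (a : Fin s → ℕ) (hinj : Function.Injective a)
    (hlt : ∀ i, a i < n)
    (hS : ∀ i j k l, i ≠ j → k ≠ l → a i + a j = a k + a l →
      (i = k ∧ j = l) ∨ (i = l ∧ j = k)) (hu : 1 ≤ u) :
    (s * u) ^ 2 ≤ (n + u - 1) * (s * u + 2 * (s * (u - 1) + ∑ d ∈ Ico 1 u, (u - d))) := by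
  classical
  set R := range (n + u - 1) with hR
  set c : ℕ → ℕ := fun w => (univ.filter (fun i : Fin s => a i ≤ w ∧ w < a i + u)).card with hc
  have h1 : ∑ w ∈ R, c w = s * u := by
    simp only [hc, card_filter]
    rw [sum_comm]
    have : ∀ i : Fin s, ∑ w ∈ R, (if a i ≤ w ∧ w < a i + u then 1 else 0) = u := by
      intro i
      rw [← card_filter]
      have e : R.filter (fun w => a i ≤ w ∧ w < a i + u) = Ico (a i) (a i + u) := by
        ext w
        simp only [hR, mem_filter, mem_range, mem_Ico]
        have := hlt i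
        omega
      rw [e]
      simp
    rw [sum_congr rfl (fun i _ => this i)]
    simp
  -- pair counts
  set g : Fin s × Fin s → ℕ := fun p =>
    (R.filter (fun w => (a p.1 ≤ w ∧ w < a p.1 + u) ∧ (a p.2 ≤ w ∧ w < a p.2 + u))).card with hg
  have h2 : ∑ w ∈ R, (c w) ^ 2 = ∑ p, g p := by
    have : ∀ w, (c w) ^ 2 = ∑ p : Fin s × Fin s,
        (if (a p.1 ≤ w ∧ w < a p.1 + u) ∧ (a p.2 ≤ w ∧ w < a p.2 + u) then 1 else 0) := by
      intro w
      rw [← card_filter, sq, ← card_product]
      congr 1
      ext p
      simp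
    rw [sum_congr rfl (fun w _ => this w), sum_comm]
    apply sum_congr rfl
    intro p _
    rw [← card_filter]
  set h : Fin s × Fin s → ℕ := fun p =>
    if a p.1 < a p.2 ∧ a p.2 - a p.1 < u then u - (a p.2 - a p.1) else 0 with hh
  have h3 : ∀ p, g p ≤ (if p.1 = p.2 then u else 0) + (h p + h p.swap) := by
    rintro ⟨i, j⟩
    simp only [hg, hh, Prod.swap]
    rcases lt_trichotomy (a i) (a j) with hlt' | heq | hgt
    · have hne : i ≠ j := fun e => by rw [e] at hlt'; exact lt_irrefl _ hlt'
      have sub : R.filter (fun w => (a i ≤ w ∧ w < a i + u) ∧ (a j ≤ w ∧ w < a j + u)) ⊆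
          Ico (a j) (a i + u) := by
        intro w
        simp only [mem_filter, mem_Ico]
        omega
      have hcard := card_le_card sub
      rw [Nat.card_Ico] at hcard
      rw [if_neg hne]
      split_ifs <;> omega
    · have hij : i = j := hinj heq
      subst hij
      have sub : R.filter (fun w => (a i ≤ w ∧ w < a i + u) ∧ (a i ≤ w ∧ w < a i + u)) ⊆
          Ico (a i) (a i + u) := by
        intro w
        simp only [mem_filter, mem_Ico]
        omega
      have hcard := card_le_card sub
      rw [Nat.card_Ico] at hcard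
      rw [if_pos rfl]
      omega
    · have hne : i ≠ j := fun e => by rw [e] at hgt; exact lt_irrefl _ hgt
      have sub : R.filter (fun w => (a i ≤ w ∧ w < a i + u) ∧ (a j ≤ w ∧ w < a j + u)) ⊆
          Ico (a i) (a j + u) := by
        intro w
        simp only [mem_filter, mem_Ico]
        omega
      have hcard := card_le_card sub
      rw [Nat.card_Ico] at hcard
      rw [if_neg hne]
      split_ifs <;> omega
  have h4 : ∑ p : Fin s × Fin s, (if p.1 = p.2 then u else 0) = s * u := by
    rw [Fintype.sum_prod_type]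
    simp
  have h5 : ∑ p : Fin s × Fin s, h p.swap = ∑ p, h p :=
    Equiv.sum_comp (Equiv.prodComm (Fin s) (Fin s)) h
  -- the sum of h
  have h6 : ∑ p, h p ≤ s * (u - 1) + ∑ d ∈ Ico 1 u, (u - d) := by
    set Q := (univ : Finset (Fin s × Fin s)).filter
      (fun p => a p.1 < a p.2 ∧ a p.2 - a p.1 < u) with hQ
    have e1 : ∑ p, h p = ∑ p ∈ Q, (u - (a p.2 - a p.1)) := by
      rw [hQ, sum_filter]
    rw [e1, ← sum_filter_add_sum_filter_not Q (fun p => ∃ k, a k + a p.2 = 2 * a p.1)]
    apply Nat.add_le_add
    · have hcardE : (Q.filter (fun p => ∃ k, a k + a p.2 = 2 * a p.1)).card ≤ s := by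
        have := card_le_card_of_injOn (s := Q.filter (fun p => ∃ k, a k + a p.2 = 2 * a p.1))
          (t := (univ : Finset (Fin s))) Prod.fst (fun _ _ => mem_univ _) ?_
        · simpa using this
        · rintro ⟨i, j⟩ hp ⟨i', j'⟩ hp' hii
          simp only at hii
          subst hii
          simp only [hQ, coe_filter, mem_filter, mem_univ, true_and, Set.mem_ofPred_eq] at hp hp'
          obtain ⟨⟨q1, _⟩, k, hk⟩ := hp
          obtain ⟨⟨q2, _⟩, k', hk'⟩ := hp'
          have hkj : k ≠ j := by
            rintro rfl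
            omega
          have hkj' : k' ≠ j' := by
            rintro rfl
            omega
          rcases hS k j k' j' hkj hkj' (by omega) with ⟨_, h⟩ | ⟨h, h'⟩
          · rw [h]
          · exfalso
            rw [h] at hk
            rw [← h'] at hk'
            omega
      calc ∑ p ∈ Q.filter (fun p => ∃ k, a k + a p.2 = 2 * a p.1), (u - (a p.2 - a p.1))
          ≤ ∑ p ∈ Q.filter (fun p => ∃ k, a k + a p.2 = 2 * a p.1), (u - 1) := by
            apply sum_le_sum
            intro p hp
            simp only [hQ, mem_filter, mem_univ, true_and] at hp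
            omega
        _ = (Q.filter (fun p => ∃ k, a k + a p.2 = 2 * a p.1)).card * (u - 1) := by
            rw [sum_const, smul_eq_mul]
        _ ≤ s * (u - 1) := Nat.mul_le_mul_right _ hcardE
    · have hinjOn : Set.InjOn (fun p : Fin s × Fin s => a p.2 - a p.1)
          ↑(Q.filter (fun p => ¬ ∃ k, a k + a p.2 = 2 * a p.1)) := by
        rintro ⟨i, j⟩ hp ⟨k, l⟩ hp' hd
        simp only [hQ, coe_filter, mem_filter, mem_univ, true_and, Set.mem_ofPred_eq] at hp hp' hd
        obtain ⟨⟨q1, _⟩, r1⟩ := hp
        obtain ⟨⟨q2, _⟩, r2⟩ := hp'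
        by_cases hil : i = l
        · exfalso
          apply r1
          refine ⟨k, ?_⟩
          rw [hil] at hd q1 ⊢
          omega
        · by_cases hjk : j = k
          · exfalso
            apply r2
            refine ⟨i, ?_⟩
            rw [← hjk] at hd q2 ⊢
            omega
          · rcases hS i l k j hil (Ne.symm hjk) (by omega) with ⟨h, h'⟩ | ⟨h, _⟩
            · rw [h, h']
            · exfalso
              rw [h] at q1
              exact lt_irrefl _ q1
      rw [← sum_image (f := fun d => u - d) hinjOn]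
      apply sum_le_sum_of_subset
      intro d hd
      simp only [hQ, mem_image, mem_filter, mem_univ, true_and] at hd
      obtain ⟨p, ⟨⟨q1, q2⟩, _⟩, rfl⟩ := hd
      rw [mem_Ico]
      omega
  have h7 : ∑ p, g p ≤ s * u + 2 * (s * (u - 1) + ∑ d ∈ Ico 1 u, (u - d)) := by
    calc ∑ p, g p ≤ ∑ p : Fin s × Fin s, ((if p.1 = p.2 then u else 0) + (h p + h p.swap)) :=
          sum_le_sum (fun p _ => h3 p)
      _ = s * u + (∑ p, h p + ∑ p, h p) := by
          rw [sum_add_distrib, sum_add_distrib, h4, h5]
      _ ≤ _ := by omega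
  have hcs : (∑ w ∈ R, c w) ^ 2 ≤ R.card * ∑ w ∈ R, (c w) ^ 2 := sq_sum_le_card_mul_sum_sq
  rw [h1, h2, hR, card_range] at hcs
  exact le_trans hcs (Nat.mul_le_mul_left _ h7)


/-- The vertex set: the `50` branch vertices and the `1225` subdivision vertices of `K_50`. -/
abbrev VV : Type := Fin 50 ⊕ {e : Finset (Fin 50) // e.card = 2}

/-- The 1-subdivision of `K_50`. -/
def GG : SimpleGraph VV where
  Adj x y := match x, y with
    | Sum.inl i, Sum.inr e => i ∈ e.1
    | Sum.inr e, Sum.inl i => i ∈ e.1
    | _, _ => False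
  symm := ⟨by
    rintro (i | e) (j | e') h <;> exact h⟩
  loopless := ⟨by
    rintro (i | e) h <;> exact h⟩

theorem card_VV : Fintype.card VV = 1275 := by
  rw [Fintype.card_sum, Fintype.card_fin]
  have : Fintype.card {e : Finset (Fin 50) // e.card = 2} = 1225 := by
    rw [Fintype.card_finset_len, Fintype.card_fin]
    rfl
  omega

theorem adj_inr (e : {e : Finset (Fin 50) // e.card = 2}) (i : Fin 50) :
    GG.Adj (Sum.inr e) (Sum.inl i) ↔ i ∈ e.1 := Iff.rfl

theorem adj_inl (e : {e : Finset (Fin 50) // e.card = 2}) (i : Fin 50) :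
    GG.Adj (Sum.inl i) (Sum.inr e) ↔ i ∈ e.1 := Iff.rfl

theorem adj_inr_inr (e e' : {e : Finset (Fin 50) // e.card = 2}) :
    ¬ GG.Adj (Sum.inr e) (Sum.inr e') := fun h => h

theorem adj_inl_inl (i j : Fin 50) :
    ¬ GG.Adj (Sum.inl i) (Sum.inl j) := fun h => h

/-- The pair `{i, j}` as a subdivision vertex. -/
def pr (i j : Fin 50) (h : i ≠ j) : {e : Finset (Fin 50) // e.card = 2} :=
  ⟨{i, j}, card_pair h⟩

theorem exists_third (i j : Fin 50) : ∃ k : Fin 50, k ≠ i ∧ k ≠ j := by
  obtain ⟨k, hk⟩ : ∃ k : Fin 50, k ∉ ({i, j} : Finset (Fin 50)) := by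
    by_contra h
    push Not at h
    have h1 : (univ : Finset (Fin 50)) ⊆ {i, j} := fun k _ => h k
    have h2 := card_le_card h1
    have h3 : ({i, j} : Finset (Fin 50)).card ≤ 2 := card_le_two
    simp at h2
    omega
  simp only [mem_insert, mem_singleton, not_or] at hk
  exact ⟨k, hk.1, hk.2⟩

theorem distinct_nbhd : ∀ u v : VV, u ≠ v → GG.neighborSet u ≠ GG.neighborSet v := by
  rintro (i | e) (j | e') hne heq
  · have hij : i ≠ j := fun h => hne (by rw [h])
    obtain ⟨k, hk1, hk2⟩ := exists_third i j
    have h1 : Sum.inr (pr i k (Ne.symm hk1)) ∈ GG.neighborSet (Sum.inl i) := by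
      rw [SimpleGraph.mem_neighborSet, adj_inl]
      simp [pr]
    rw [heq, SimpleGraph.mem_neighborSet, adj_inl] at h1
    simp only [pr, mem_insert, mem_singleton] at h1
    rcases h1 with h1 | h1
    · exact hij h1.symm
    · exact hk2 h1.symm
  · have he : e'.1.Nonempty := by
      rw [← card_pos, e'.2]; norm_num
    obtain ⟨k, hk⟩ := he
    have h1 : Sum.inl k ∈ GG.neighborSet (Sum.inr e') := by
      rw [SimpleGraph.mem_neighborSet, adj_inr]
      exact hk
    rw [← heq, SimpleGraph.mem_neighborSet] at h1
    exact h1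
  · have he : e.1.Nonempty := by
      rw [← card_pos, e.2]; norm_num
    obtain ⟨k, hk⟩ := he
    have h1 : Sum.inl k ∈ GG.neighborSet (Sum.inr e) := by
      rw [SimpleGraph.mem_neighborSet, adj_inr]
      exact hk
    rw [heq, SimpleGraph.mem_neighborSet] at h1
    exact h1
  · apply hne
    congr 1
    apply Subtype.ext
    ext k
    rw [← adj_inr, ← adj_inr, ← SimpleGraph.mem_neighborSet, ← SimpleGraph.mem_neighborSet, heq]

theorem no_labeling (s : DecidableRel GG.Adj) (f : VV ≃ Fin (Fintype.card VV)) :
    ¬ Function.Injective (fun v : VV => ∑ u ∈ GG.neighborFinset v, ((f u : ℕ) + 1)) := by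
  intro hf
  -- weight of a subdivision vertex
  have hw : ∀ (i j : Fin 50) (h : i ≠ j),
      ∑ u ∈ GG.neighborFinset (Sum.inr (pr i j h)), ((f u : ℕ) + 1) =
        ((f (Sum.inl i) : ℕ) + 1) + ((f (Sum.inl j) : ℕ) + 1) := by
    intro i j h
    have e : GG.neighborFinset (Sum.inr (pr i j h)) = {Sum.inl i, Sum.inl j} := by
      ext x
      rw [SimpleGraph.mem_neighborFinset]
      rcases x with k | e
      · rw [adj_inr]
        simp [pr]
      · simp [adj_inr_inr]
    rw [e, sum_pair (fun h' => h (Sum.inl_injective h'))]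
  have hb := sidon_bound (s := 50) (n := 1275) (u := 300) (fun i => (f (Sum.inl i) : ℕ))
    (by
      intro i j hij
      exact Sum.inl_injective (f.injective (Fin.ext hij)))
    (by
      intro i
      have := (f (Sum.inl i)).isLt
      have h2 := card_VV
      exact lt_of_lt_of_eq this h2)
    (by
      intro i j k l hij hkl hsum
      have h1 := @hf (Sum.inr (pr i j hij)) (Sum.inr (pr k l hkl)) (by
        simp only [hw]
        omega)
      have h2 : ({i, j} : Finset (Fin 50)) = {k, l} :=
        congrArg Subtype.val (Sum.inr_injective h1)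
      have hi : i ∈ ({k, l} : Finset (Fin 50)) := by rw [← h2]; simp
      have hj : j ∈ ({k, l} : Finset (Fin 50)) := by rw [← h2]; simp
      simp only [mem_insert, mem_singleton] at hi hj
      rcases hi with hi | hi
      · rcases hj with hj | hj
        · exact absurd (hi.trans hj.symm) hij
        · exact Or.inl ⟨hi, hj⟩
      · rcases hj with hj | hj
        · exact Or.inr ⟨hi, hj⟩
        · exact absurd (hi.trans hj.symm) hij)
    (by norm_num)
  have hs : ∑ d ∈ Ico 1 300, (300 - d) = 44850 := by decide +kernel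
  rw [hs] at hb
  norm_num at hb

/-- The negation of the preceding statement: For every finite simple graph, there is a bijective labeling of the vertices by 1..n making all neighbour-label sums distinct if and only if distinct vertices always have distinct open neighbourhoods. -/
theorem result :
    ¬ (∀ (V : Type) [Fintype V] [DecidableEq V] (G : SimpleGraph V) [DecidableRel G.Adj],
      (∃ f : V ≃ Fin (Fintype.card V),
          Function.Injective
            (fun v : V => ∑ u ∈ G.neighborFinset v, ((f u : ℕ) + 1)))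
        ↔ ∀ u v : V, u ≠ v → G.neighborSet u ≠ G.neighborSet v) := by
  intro H
  obtain ⟨f, hf⟩ := (@H VV _ _ GG (Classical.decRel _)).2 distinct_nbhd
  exact no_labeling _ f hf

end Pool.Agent.S08018
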