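import Pool.Statements.S08048

set_option autoImplicit false
open Pool Pool.MP_0323d9_gt

namespace Pool.Agent.S08048

/-- Euclidean 3-space. -/
abbrev E3 := EuclideanSpace ℝ (Fin 3)

/-- The horizontal part of a point of 3-space, as a complex number. -/
noncomputable def hor : E3 →ₗ[ℝ] ℂ where
  toFun p := ⟨p 0, p 1⟩
  map_add' p q := by apply Complex.ext <;> simp
  map_smul' c p := by apply Complex.ext <;> simp

/-- The point with horizontal part `w` and height `z`. -/
noncomputable def pt (w : ℂ) (z : ℝ) : E3 := WithLp.toLp 2 ![w.re, w.im, z]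

lemma hor_pt (w : ℂ) (z : ℝ) : hor (pt w z) = w := by
  apply Complex.ext <;> simp [hor, pt]

lemma pt_two (w : ℂ) (z : ℝ) : (pt w z) 2 = z := by
  simp [pt]

lemma norm_sq_eq (p : E3) : ‖p‖ ^ 2 = ‖hor p‖ ^ 2 + (p 2) ^ 2 := by
  rw [EuclideanSpace.norm_sq_eq, Fin.sum_univ_three, ← Complex.normSq_eq_norm_sq, Complex.normSq_apply]
  simp [hor]
  ring

lemma hor_cont : Continuous (fun p : E3 => hor p) :=
  LinearMap.continuous_of_finiteDimensional hor

lemma two_cont : Continuous (fun p : E3 => p 2) := by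
  fun_prop

/-- The convex body: between a circular cone and a paraboloid cap. -/
def K : Set E3 := {p | ‖hor p‖ ≤ p 2 ∧ p 2 + ‖hor p‖ ^ 2 / 2 ≤ 5}

lemma K_closed : IsClosed K := by
  apply IsClosed.inter
  · exact isClosed_le (hor_cont.norm) two_cont
  · exact isClosed_le (two_cont.add ((hor_cont.norm.pow 2).div_const 2)) continuous_const

lemma K_bounded : Bornology.IsBounded K := by
  refine (Metric.isBounded_closedBall (x := (0 : E3)) (r := 10)).subset ?_
  intro p hp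
  obtain ⟨h1, h2⟩ := hp
  rw [mem_closedBall_zero_iff]
  have h0 : 0 ≤ ‖hor p‖ := norm_nonneg _
  have h3 := norm_sq_eq p
  have h4 : p 2 ≤ 5 := by nlinarith
  have h5 : ‖p‖ ^ 2 ≤ 10 ^ 2 := by
    rw [h3]; nlinarith
  exact abs_le_of_sq_le_sq' h5 (by norm_num) |>.2

lemma K_compact : IsCompact K :=
  Metric.isCompact_of_isClosed_isBounded K_closed K_bounded

lemma K_convex : Convex ℝ K := by
  intro p hp q hq a b ha hb hab
  obtain ⟨hp1, hp2⟩ := hp
  obtain ⟨hq1, hq2⟩ := hq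
  have hn : ‖hor (a • p + b • q)‖ ≤ a * ‖hor p‖ + b * ‖hor q‖ := by
    rw [map_add, map_smul, map_smul]
    refine (norm_add_le _ _).trans ?_
    rw [norm_smul, norm_smul, Real.norm_of_nonneg ha, Real.norm_of_nonneg hb]
  have h2 : (a • p + b • q) 2 = a * p 2 + b * q 2 := by simp
  have hpn := norm_nonneg (hor p)
  have hqn := norm_nonneg (hor q)
  have hN := norm_nonneg (hor (a • p + b • q))
  refine ⟨?_, ?_⟩
  · rw [h2]
    refine hn.trans ?_
    nlinarith
  · rw [h2]
    have hsq : ‖hor (a • p + b • q)‖ ^ 2 ≤ (a * ‖hor p‖ + b * ‖hor q‖) ^ 2 := by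
      apply pow_le_pow_left₀ hN hn
    have hconv : (a * ‖hor p‖ + b * ‖hor q‖) ^ 2 ≤ a * ‖hor p‖ ^ 2 + b * ‖hor q‖ ^ 2 := by
      have hb' : b = 1 - a := by linarith
      subst hb'
      nlinarith [mul_nonneg (mul_nonneg ha hb) (sq_nonneg (‖hor p‖ - ‖hor q‖))]
    nlinarith

/-- The open inner part. -/
def U : Set E3 := {p | ‖hor p‖ < p 2 ∧ p 2 + ‖hor p‖ ^ 2 / 2 < 5}

lemma U_sub : U ⊆ interior K := by
  apply interior_maximal
  · intro p hp
    exact ⟨hp.1.le, hp.2.le⟩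
  · apply IsOpen.inter
    · exact isOpen_lt (hor_cont.norm) two_cont
    · exact isOpen_lt (two_cont.add ((hor_cont.norm.pow 2).div_const 2)) continuous_const

lemma K_int : (interior K).Nonempty := by
  refine ⟨pt 0 1, U_sub ⟨?_, ?_⟩⟩
  · rw [hor_pt, pt_two]; simp
  · rw [hor_pt, pt_two]; norm_num

lemma mem_translate (x a : E3) :
    a ∈ interior ((fun y => x + y) '' K) ↔ a - x ∈ interior K := by
  have h := (Homeomorph.addLeft x).image_interior K
  have h' : (fun y => x + y) '' K = (Homeomorph.addLeft x) '' K := rfl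
  rw [h', ← h]
  constructor
  · rintro ⟨y, hy, rfl⟩
    simpa using hy
  · intro hy
    exact ⟨a - x, hy, by simp⟩

/-- The direction with angle `2 π k / n`. -/
noncomputable def u (n : ℕ) (k : ℤ) : ℂ := ⟨Real.cos (2 * Real.pi * k / n), Real.sin (2 * Real.pi * k / n)⟩

/-- Real inner product of complex numbers. -/
noncomputable def ip (w v : ℂ) : ℝ := w.re * v.re + w.im * v.im

lemma norm_u (n : ℕ) (k : ℤ) : ‖u n k‖ = 1 := by
  have : ‖u n k‖ ^ 2 = 1 := by
    rw [← Complex.normSq_eq_norm_sq, Complex.normSq_apply]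
    have := Real.cos_sq_add_sin_sq (2 * Real.pi * k / n)
    simp only [u]
    nlinarith
  nlinarith [norm_nonneg (u n k)]

lemma ip_u (n : ℕ) (k j : ℤ) : ip (u n k) (u n j) = Real.cos (2 * Real.pi * (k - j : ℤ) / n) := by
  have : (2 * Real.pi * (k - j : ℤ) / n : ℝ) = 2 * Real.pi * k / n - 2 * Real.pi * j / n := by
    push_cast; ring
  rw [this, Real.cos_sub]
  simp [ip, u]

lemma norm_sub_sq' (w v : ℂ) : ‖w - v‖ ^ 2 = ‖w‖ ^ 2 - 2 * ip w v + ‖v‖ ^ 2 := by
  rw [← Complex.normSq_eq_norm_sq, ← Complex.normSq_eq_norm_sq, ← Complex.normSq_eq_norm_sq,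
    Complex.normSq_apply, Complex.normSq_apply, Complex.normSq_apply]
  simp [ip]; ring

/-- Every planar vector makes an angle at most `π / n` with some `u n k`. -/
lemma exists_close (n : ℕ) (hn : 3 ≤ n) (w : ℂ) :
    ∃ k : ℤ, ‖w‖ * Real.cos (Real.pi / n) ≤ ip (u n k) w := by
  have hn0 : (0 : ℝ) < n := by positivity
  have hpi := Real.pi_pos
  set φ := Complex.arg w with hφ
  have hre : w.re = ‖w‖ * Real.cos φ := (Complex.norm_mul_cos_arg w).symm
  have him : w.im = ‖w‖ * Real.sin φ := (Complex.norm_mul_sin_arg w).symm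
  refine ⟨round (φ * n / (2 * Real.pi)), ?_⟩
  set k : ℤ := round (φ * n / (2 * Real.pi)) with hk
  have hround : |φ * n / (2 * Real.pi) - k| ≤ 1 / 2 := abs_sub_round _
  have hip : ip (u n k) w = ‖w‖ * Real.cos (2 * Real.pi * k / n - φ) := by
    rw [Real.cos_sub]
    simp only [ip, u]
    rw [hre, him]; ring
  rw [hip]
  apply mul_le_mul_of_nonneg_left _ (norm_nonneg w)
  rw [← Real.cos_abs (2 * Real.pi * k / n - φ)]
  apply Real.cos_le_cos_of_nonneg_of_le_pi (abs_nonneg _)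
  · rw [div_le_iff₀ hn0]
    have : (3 : ℝ) ≤ n := by exact_mod_cast hn
    nlinarith
  · have h1 : 2 * Real.pi * k / n - φ = -((φ * n / (2 * Real.pi) - k) * (2 * Real.pi / n)) := by
      field_simp
      ring
    rw [h1, abs_neg, abs_mul, abs_of_pos (show 0 < 2 * Real.pi / n by positivity)]
    calc |φ * n / (2 * Real.pi) - k| * (2 * Real.pi / n) ≤ 1 / 2 * (2 * Real.pi / n) := by
          apply mul_le_mul_of_nonneg_right hround (by positivity)
      _ = Real.pi / n := by ring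

/-- Distinct directions among the `u n k` make an angle at least `2 π / n`. -/
lemma cos_far (n : ℕ) (hn : 3 ≤ n) (m : ℤ) (hm : ¬ (n : ℤ) ∣ m) :
    Real.cos (2 * Real.pi * m / n) ≤ Real.cos (2 * Real.pi / n) := by
  have hn0 : (0 : ℝ) < n := by positivity
  have hpi := Real.pi_pos
  have hnz : (n : ℤ) ≠ 0 := by omega
  have hnpos : (0 : ℤ) < n := by omega
  -- reduce modulo n
  set r : ℤ := m % n with hr
  have hr0 : 0 ≤ r := Int.emod_nonneg _ hnz
  have hrn : r < n := Int.emod_lt_of_pos _ hnpos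
  have hr1 : r ≠ 0 := fun h => hm (Int.dvd_of_emod_eq_zero h)
  have hr1' : 1 ≤ r := by omega
  have hdecomp : m = r + n * (m / n) := (Int.emod_add_mul_ediv m n).symm
  have hcos : Real.cos (2 * Real.pi * m / n) = Real.cos (2 * Real.pi * r / n) := by
    have : (2 * Real.pi * m / n : ℝ) = 2 * Real.pi * r / n + (m / n : ℤ) * (2 * Real.pi) := by
      have hm' : (m : ℝ) = r + n * ((m / n : ℤ) : ℝ) := by exact_mod_cast hdecomp
      rw [hm']
      field_simp
    rw [this, Real.cos_add_int_mul_two_pi]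
  rw [hcos]
  have hrR : (1 : ℝ) ≤ r := by exact_mod_cast hr1'
  have hrR' : (r : ℝ) ≤ n - 1 := by
    have : r ≤ n - 1 := by omega
    exact_mod_cast this
  have hn3 : (3 : ℝ) ≤ n := by exact_mod_cast hn
  by_cases hcase : 2 * Real.pi * r / n ≤ Real.pi
  · apply Real.cos_le_cos_of_nonneg_of_le_pi (by positivity) hcase
    apply div_le_div_of_nonneg_right _ hn0.le
    nlinarith
  · push Not at hcase
    have h1 : Real.cos (2 * Real.pi * r / n) = Real.cos (2 * Real.pi - 2 * Real.pi * r / n) := by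
      rw [Real.cos_two_pi_sub]
    rw [h1]
    apply Real.cos_le_cos_of_nonneg_of_le_pi (by positivity)
    · linarith
    · have : 2 * Real.pi - 2 * Real.pi * r / n = 2 * Real.pi * (n - r) / n := by
        field_simp
      rw [this]
      apply div_le_div_of_nonneg_right _ hn0.le
      nlinarith

/-- The smooth boundary points. -/
noncomputable def pa (n : ℕ) (ρ : ℝ) (k : ℤ) : E3 := pt (-(ρ : ℂ) * u n k) (5 - ρ ^ 2 / 2)


lemma hor_pa (n : ℕ) (ρ : ℝ) (k : ℤ) : hor (pa n ρ k) = -(ρ : ℂ) * u n k := hor_pt _ _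

lemma pa_two (n : ℕ) (ρ : ℝ) (k : ℤ) : (pa n ρ k) 2 = 5 - ρ ^ 2 / 2 := pt_two _ _

lemma norm_pa_add (n : ℕ) (ρ : ℝ) (k : ℤ) (w : ℂ) :
    ‖-(ρ : ℂ) * u n k + w‖ ^ 2 = ‖w‖ ^ 2 - 2 * ρ * ip (u n k) w + ρ ^ 2 := by
  have h : -(ρ : ℂ) * u n k + w = w - (ρ : ℂ) * u n k := by ring
  rw [h, norm_sub_sq', norm_mul, norm_u, Complex.norm_real, Real.norm_eq_abs, mul_one, sq_abs]
  simp only [ip, Complex.mul_re, Complex.mul_im, Complex.ofReal_re, Complex.ofReal_im]
  ring

lemma interior_strict {p : E3} (hp : p ∈ interior K) :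
    ‖hor p‖ < p 2 ∧ p 2 + ‖hor p‖ ^ 2 / 2 < 5 := by
  have hc : Continuous (fun t : ℝ => p + pt 0 t) := by
    apply continuous_const.add
    unfold pt
    fun_prop
  have h0 : (fun t : ℝ => p + pt 0 t) ⁻¹' (interior K) ∈ nhds (0 : ℝ) := by
    apply (isOpen_interior.preimage hc).mem_nhds
    have : p + pt 0 0 = p := by
      have hz : pt 0 0 = 0 := by
        ext i; fin_cases i <;> simp [pt]
      rw [hz, add_zero]
    simpa [this] using hp
  obtain ⟨δ, hδ, hball⟩ := Metric.mem_nhds_iff.mp h0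
  have h1 : p + pt 0 (δ / 2) ∈ K := by
    apply interior_subset
    apply hball
    rw [Metric.mem_ball, dist_zero_right, Real.norm_eq_abs, abs_of_pos (by linarith)]
    linarith
  have h2 : p + pt 0 (-(δ / 2)) ∈ K := by
    apply interior_subset
    apply hball
    rw [Metric.mem_ball, dist_zero_right, Real.norm_eq_abs, abs_neg, abs_of_pos (by linarith)]
    linarith
  have e1 : ∀ t : ℝ, hor (p + pt 0 t) = hor p := by
    intro t; rw [map_add, hor_pt, add_zero]
  have e2 : ∀ t : ℝ, (p + pt 0 t) 2 = p 2 + t := by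
    intro t
    have : (p + pt 0 t) 2 = p 2 + (pt 0 t) 2 := rfl
    rw [this, pt_two]
  obtain ⟨-, h1⟩ := h1
  obtain ⟨h2, -⟩ := h2
  rw [e1, e2] at h1 h2
  constructor <;> linarith

lemma pa_mem (n : ℕ) (ρ : ℝ) (hρ0 : 0 < ρ) (hρ2 : ρ ≤ 2) (k : ℤ) : pa n ρ k ∈ K := by
  have hn : ‖hor (pa n ρ k)‖ = ρ := by
    rw [hor_pa, norm_mul, norm_u, norm_neg, Complex.norm_real, Real.norm_of_nonneg hρ0.le, mul_one]
  refine ⟨?_, ?_⟩
  · rw [hn, pa_two]; nlinarith
  · rw [hn, pa_two]; linarith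

lemma pa_not_int (n : ℕ) (ρ : ℝ) (hρ0 : 0 < ρ) (k : ℤ) : pa n ρ k ∉ interior K := by
  intro h
  have h2 := (interior_strict h).2
  have hn : ‖hor (pa n ρ k)‖ = ρ := by
    rw [hor_pa, norm_mul, norm_u, norm_neg, Complex.norm_real, Real.norm_of_nonneg hρ0.le, mul_one]
  rw [hn, pa_two] at h2
  linarith

lemma zero_mem : (0 : E3) ∈ K := by
  refine ⟨?_, ?_⟩
  · simp
  · simp

lemma zero_not_int : (0 : E3) ∉ interior K := by
  intro h
  have h1 := (interior_strict h).1
  simp at h1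

/-- The fixing system: the vertex and `n` smooth points. -/
def A (n : ℕ) (ρ : ℝ) : Set E3 := insert 0 (Set.range (pa n ρ))

lemma A_frontier (n : ℕ) (ρ : ℝ) (hρ0 : 0 < ρ) (hρ2 : ρ ≤ 2) : A n ρ ⊆ frontier K := by
  rw [K_closed.frontier_eq]
  intro p hp
  rcases hp with rfl | ⟨k, rfl⟩
  · exact ⟨zero_mem, zero_not_int⟩
  · exact ⟨pa_mem n ρ hρ0 hρ2 k, pa_not_int n ρ hρ0 k⟩

lemma A_fixing (n : ℕ) (hn : 3 ≤ n) (ρ : ℝ) (hρ0 : 0 < ρ) (hρ2 : ρ ≤ 2)
    (hρc : 1 < ρ * Real.cos (Real.pi / n)) :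
    ∃ ε : ℝ, 0 < ε ∧ ∀ x : E3, x ≠ 0 → ‖x‖ ≤ ε →
      (A n ρ ∩ interior ((fun y => x + y) '' K)).Nonempty := by
  refine ⟨min (1 / 4) (ρ * Real.cos (Real.pi / n) - 1), lt_min (by norm_num) (by linarith), ?_⟩
  intro x hx hxe
  have hx4 : ‖x‖ ≤ 1 / 4 := hxe.trans (min_le_left _ _)
  have hxc : ‖x‖ ≤ ρ * Real.cos (Real.pi / n) - 1 := hxe.trans (min_le_right _ _)
  set v : E3 := -x with hv
  have hvn : ‖v‖ = ‖x‖ := norm_neg x
  have hv0 : v ≠ 0 := neg_ne_zero.mpr hx
  set w : ℂ := hor v with hw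
  set z : ℝ := v 2 with hz
  have hsq : ‖v‖ ^ 2 = ‖w‖ ^ 2 + z ^ 2 := norm_sq_eq v
  have hw0 : 0 ≤ ‖w‖ := norm_nonneg w
  have hwn : ‖w‖ ≤ ‖x‖ := by
    rw [← hvn]
    apply abs_le_of_sq_le_sq' _ (norm_nonneg v) |>.2
    nlinarith [sq_nonneg z]
  have hzn : |z| ≤ ‖x‖ := by
    rw [← hvn]
    apply abs_le_of_sq_le_sq _ (norm_nonneg v)
    nlinarith [sq_nonneg ‖w‖]
  have hz1 : z ≤ 1 / 4 := (le_abs_self z).trans (hzn.trans hx4)
  have hz2 : -(1 / 4) ≤ z := by
    have := neg_abs_le z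
    linarith
  by_cases hcase : ‖w‖ < z
  · refine ⟨0, Set.mem_insert _ _, ?_⟩
    rw [mem_translate]
    apply U_sub
    have : (0 : E3) - x = v := by rw [hv]; simp
    rw [this]
    refine ⟨hcase, ?_⟩
    have : ‖w‖ ≤ 1 / 4 := hwn.trans hx4
    show z + ‖w‖ ^ 2 / 2 < 5
    nlinarith
  · push Not at hcase
    obtain ⟨k, hk⟩ := exists_close n hn w
    refine ⟨pa n ρ k, Set.mem_insert_of_mem _ ⟨k, rfl⟩, ?_⟩
    rw [mem_translate]
    apply U_sub
    have hsub : pa n ρ k - x = pa n ρ k + v := by rw [hv, sub_eq_add_neg]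
    rw [hsub]
    have e1 : hor (pa n ρ k + v) = -(ρ : ℂ) * u n k + w := by rw [map_add, hor_pa]
    have e2 : (pa n ρ k + v) 2 = 5 - ρ ^ 2 / 2 + z := by
      have : (pa n ρ k + v) 2 = (pa n ρ k) 2 + v 2 := rfl
      rw [this, pa_two]
    have hww : ‖w‖ ≤ 1 / 4 := hwn.trans hx4
    refine ⟨?_, ?_⟩
    · rw [e1, e2]
      have : ‖-(ρ : ℂ) * u n k + w‖ ≤ ρ + ‖w‖ := by
        refine (norm_add_le _ _).trans ?_
        rw [norm_mul, norm_u, norm_neg, Complex.norm_real, Real.norm_of_nonneg hρ0.le, mul_one]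
      nlinarith
    · rw [e1, e2, norm_pa_add]
      have key : z + ‖w‖ ^ 2 / 2 < ρ * ip (u n k) w := by
        rcases eq_or_lt_of_le hw0 with h0 | hpos
        · have hw00 : ‖w‖ = 0 := h0.symm
          have hweq : w = 0 := norm_eq_zero.mp hw00
          have hzne : z ≠ 0 := by
            intro hz0
            have : ‖v‖ ^ 2 = 0 := by rw [hsq, hw00, hz0]; norm_num
            exact hv0 (norm_eq_zero.mp (pow_eq_zero_iff (two_ne_zero) |>.mp this))
          have hzneg : z < 0 := lt_of_le_of_ne (by rw [hw00] at hcase; exact hcase) hzne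
          have : ip (u n k) w = 0 := by rw [hweq]; simp [ip]
          rw [this, hw00]
          nlinarith
        · have h1 : ρ * (‖w‖ * Real.cos (Real.pi / n)) ≤ ρ * ip (u n k) w :=
            mul_le_mul_of_nonneg_left hk hρ0.le
          have h2 : ‖w‖ * (1 + ‖w‖ / 2) < ‖w‖ * (ρ * Real.cos (Real.pi / n)) := by
            apply mul_lt_mul_of_pos_left _ hpos
            linarith
          nlinarith
      linarith

lemma u_eq_of_dvd (n : ℕ) (hn : 3 ≤ n) (k j : ℤ) (h : (n : ℤ) ∣ k - j) : u n k = u n j := by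
  have hn0 : (n : ℝ) ≠ 0 := by positivity
  obtain ⟨m, hm⟩ := h
  have hk : (k : ℝ) = j + n * m := by
    have : k = j + n * m := by linarith
    exact_mod_cast this
  have he : (2 * Real.pi * k / n : ℝ) = 2 * Real.pi * j / n + m * (2 * Real.pi) := by
    rw [hk]; field_simp
  unfold u
  rw [he, Real.cos_add_int_mul_two_pi, Real.sin_add_int_mul_two_pi]

lemma pt_ne_zero_of {w : ℂ} {z : ℝ} (h : w ≠ 0 ∨ z ≠ 0) : pt w z ≠ 0 := by
  intro h0
  rcases h with h | h
  · apply h
    rw [← hor_pt w z, h0, map_zero]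
  · apply h
    rw [← pt_two w z, h0]; rfl

lemma A_primitive (n : ℕ) (hn : 3 ≤ n) (ρ : ℝ) (hρ0 : 0 < ρ)
    (hc0 : 0 ≤ Real.cos (2 * Real.pi / n)) (hρc : ρ * Real.cos (2 * Real.pi / n) < 1)
    (B : Set E3) (hB : B ⊆ A n ρ) (hne : B ≠ A n ρ) :
    ¬ ∃ ε : ℝ, 0 < ε ∧ ∀ x : E3, x ≠ 0 → ‖x‖ ≤ ε →
      (B ∩ interior ((fun y => x + y) '' K)).Nonempty := by
  rintro ⟨ε, hε, hfix⟩
  obtain ⟨a, haA, haB⟩ : ∃ a ∈ A n ρ, a ∉ B := by
    by_contra hcon
    push Not at hcon
    exact hne (Set.Subset.antisymm hB hcon)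
  rcases haA with rfl | ⟨k, rfl⟩
  · -- the vertex is needed
    have hx0 : pt 0 (-ε) ≠ 0 := pt_ne_zero_of (Or.inr (by linarith))
    have hxn : ‖pt 0 (-ε)‖ ≤ ε := by
      apply abs_le_of_sq_le_sq' _ hε.le |>.2
      rw [norm_sq_eq, hor_pt, pt_two]; simp
    obtain ⟨a', ha'B, ha'⟩ := hfix _ hx0 hxn
    rw [mem_translate] at ha'
    have hK := (interior_subset ha').2
    rcases hB ha'B with rfl | ⟨j, rfl⟩
    · exact haB ha'B
    · have e1 : hor (pa n ρ j - pt 0 (-ε)) = -(ρ : ℂ) * u n j + 0 := by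
        rw [map_sub, hor_pa, hor_pt]; ring
      have e2 : (pa n ρ j - pt 0 (-ε)) 2 = 5 - ρ ^ 2 / 2 + ε := by
        have : (pa n ρ j - pt 0 (-ε)) 2 = (pa n ρ j) 2 - (pt 0 (-ε)) 2 := rfl
        rw [this, pa_two, pt_two]; ring
      rw [e1, e2, norm_pa_add] at hK
      simp [ip] at hK
      linarith
  · -- each smooth point is needed
    set ζ : ℝ := ρ * Real.cos (2 * Real.pi / n) with hζ
    have hζ0 : 0 ≤ ζ := mul_nonneg hρ0.le hc0
    set t : ℝ := ε / 2 with ht
    have ht0 : 0 < t := by positivity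
    set x : E3 := pt (-(t : ℂ) * u n k) (-(t * ζ)) with hx
    have hhor : hor x = -(t : ℂ) * u n k := hor_pt _ _
    have hhn : ‖hor x‖ = t := by
      rw [hhor, norm_mul, norm_u, norm_neg, Complex.norm_real, Real.norm_of_nonneg ht0.le, mul_one]
    have hx2 : x 2 = -(t * ζ) := pt_two _ _
    have hx0 : x ≠ 0 := by
      intro h0
      rw [h0, map_zero, norm_zero] at hhn
      linarith
    have hxn : ‖x‖ ≤ ε := by
      apply abs_le_of_sq_le_sq' _ hε.le |>.2
      rw [norm_sq_eq, hhn, hx2]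
      have : (t * ζ) ^ 2 ≤ t ^ 2 := by
        apply pow_le_pow_left₀ (by positivity)
        nlinarith
      nlinarith
    obtain ⟨a', ha'B, ha'⟩ := hfix _ hx0 hxn
    rw [mem_translate] at ha'
    have hK := interior_subset ha'
    rcases hB ha'B with rfl | ⟨j, rfl⟩
    · have h1 := hK.1
      have e1 : ‖hor (0 - x)‖ = t := by rw [map_sub, map_zero, zero_sub, norm_neg, hhn]
      have e2 : ((0 : E3) - x) 2 = t * ζ := by
        have : ((0 : E3) - x) 2 = 0 - x 2 := rfl
        rw [this, hx2]; ring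
      rw [e1, e2] at h1
      nlinarith
    · by_cases hd : (n : ℤ) ∣ k - j
      · have : pa n ρ k = pa n ρ j := by
          unfold pa; rw [u_eq_of_dvd n hn k j hd]
        rw [this] at haB
        exact haB ha'B
      · have h2 := hK.2
        have e1 : hor (pa n ρ j - x) = -(ρ : ℂ) * u n j + (t : ℂ) * u n k := by
          rw [map_sub, hor_pa, hhor]; ring
        have e2 : (pa n ρ j - x) 2 = 5 - ρ ^ 2 / 2 + t * ζ := by
          have : (pa n ρ j - x) 2 = (pa n ρ j) 2 - x 2 := rfl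
          rw [this, pa_two, hx2]; ring
        have e3 : ‖(t : ℂ) * u n k‖ = t := by
          rw [norm_mul, norm_u, Complex.norm_real, Real.norm_of_nonneg ht0.le, mul_one]
        have e4 : ip (u n j) ((t : ℂ) * u n k) = t * ip (u n k) (u n j) := by
          simp [ip]; ring
        rw [e1, e2, norm_pa_add, e3, e4, ip_u] at h2
        have h5 := cos_far n hn (k - j) hd
        have h6 : ρ * (t * Real.cos (2 * Real.pi * (k - j : ℤ) / n)) ≤ ρ * (t * Real.cos (2 * Real.pi / n)) := by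
          apply mul_le_mul_of_nonneg_left _ hρ0.le
          exact mul_le_mul_of_nonneg_left h5 ht0.le
        have h7 : ρ * (t * Real.cos (2 * Real.pi / n)) = t * ζ := by rw [hζ]; ring
        nlinarith

lemma A_card (n : ℕ) (hn : 3 ≤ n) (ρ : ℝ) (hρ0 : 0 < ρ) : (n : ENat) ≤ (A n ρ).encard := by
  have hn0 : (0 : ℝ) < n := by positivity
  have hinj : Function.Injective (fun i : Fin n => pa n ρ (i : ℕ)) := by
    intro i j hij
    by_contra hne
    have hne' : (i : ℕ) ≠ (j : ℕ) := fun h => hne (Fin.ext h)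
    have hu : u n ((i : ℕ) : ℤ) = u n ((j : ℕ) : ℤ) := by
      have h1 := congrArg hor hij
      simp only [hor_pa] at h1
      have hρne : (-(ρ : ℂ)) ≠ 0 := by
        rw [neg_ne_zero]
        exact_mod_cast hρ0.ne'
      exact mul_left_cancel₀ hρne h1
    have hd : ¬ (n : ℤ) ∣ ((i : ℕ) : ℤ) - ((j : ℕ) : ℤ) := by
      rintro ⟨m, hm⟩
      have hi := i.isLt
      have hj := j.isLt
      have h1 : ((i : ℕ) : ℤ) - ((j : ℕ) : ℤ) < n := by omega
      have h2 : -(n : ℤ) < ((i : ℕ) : ℤ) - ((j : ℕ) : ℤ) := by omega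
      have h3 : ((i : ℕ) : ℤ) - ((j : ℕ) : ℤ) ≠ 0 := by omega
      rw [hm] at h1 h2 h3
      have hnp : (0 : ℤ) < n := by omega
      have hm1 : m < 1 := by
        by_contra hcon
        push Not at hcon
        nlinarith
      have hm2 : -1 < m := by
        by_contra hcon
        push Not at hcon
        nlinarith
      have hm0 : m = 0 := by omega
      rw [hm0] at h3
      simp at h3
    have h5 := cos_far n hn _ hd
    rw [← ip_u, hu] at h5
    have h6 : ip (u n ((j : ℕ) : ℤ)) (u n ((j : ℕ) : ℤ)) = 1 := by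
      have := norm_u n ((j : ℕ) : ℤ)
      have h7 : ‖u n ((j : ℕ) : ℤ)‖ ^ 2 = 1 := by rw [this]; norm_num
      rw [← Complex.normSq_eq_norm_sq, Complex.normSq_apply] at h7
      exact h7
    rw [h6] at h5
    have h8 : Real.cos (2 * Real.pi / n) < 1 := by
      have hpi := Real.pi_pos
      have : Real.cos (2 * Real.pi / n) < Real.cos 0 := by
        apply Real.cos_lt_cos_of_nonneg_of_le_pi le_rfl
        · rw [div_le_iff₀ hn0]
          have : (3 : ℝ) ≤ n := by exact_mod_cast hn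
          nlinarith
        · positivity
      rwa [Real.cos_zero] at this
    linarith
  have h1 : (Set.range (fun i : Fin n => pa n ρ (i : ℕ))) ⊆ A n ρ := by
    rintro p ⟨i, rfl⟩
    exact Set.mem_insert_of_mem _ ⟨_, rfl⟩
  have h2 : (Set.range (fun i : Fin n => pa n ρ (i : ℕ))).encard = n := by
    rw [← Set.image_univ, hinj.encard_image]
    simp
  rw [← h2]
  exact Set.encard_le_encard h1

/-- The negation of the preceding statement: For every convex body K in d-space there is a finite N such that every minimal set A on the boundary of K meeting the interior of every small nonzero translate x+K (∣x∣≤ε, some ε>0) has at most N points. -/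
theorem result :
    ¬ (∀ (d : ℕ) (K : Set (EuclideanSpace ℝ (Fin d))),
      IsCompact K → Convex ℝ K → (interior K).Nonempty →
      ∃ N : ℕ, ∀ A ⊆ frontier K,
        (∃ ε : ℝ, 0 < ε ∧ ∀ x : EuclideanSpace ℝ (Fin d), x ≠ 0 → ‖x‖ ≤ ε →
            (A ∩ interior ((fun y => x + y) '' K)).Nonempty) →
        (∀ B ⊆ A, B ≠ A →
            ¬ ∃ ε : ℝ, 0 < ε ∧ ∀ x : EuclideanSpace ℝ (Fin d), x ≠ 0 → ‖x‖ ≤ ε →
              (B ∩ interior ((fun y => x + y) '' K)).Nonempty) →
        A.encard ≤ (N : ENat)) := by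
  intro h
  obtain ⟨N, hN⟩ := h 3 K K_compact K_convex K_int
  set n : ℕ := N + 6 with hn
  have hn3 : 3 ≤ n := by omega
  have hn6 : (6 : ℝ) ≤ n := by
    have : 6 ≤ n := by omega
    exact_mod_cast this
  have hn0 : (0 : ℝ) < n := by linarith
  have hpi := Real.pi_pos
  set c : ℝ := Real.cos (Real.pi / n) with hc
  set c' : ℝ := Real.cos (2 * Real.pi / n) with hc'
  have hc'2 : 1 / 2 ≤ c' := by
    rw [← Real.cos_pi_div_three]
    apply Real.cos_le_cos_of_nonneg_of_le_pi (by positivity)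
    · linarith
    · rw [div_le_iff₀ hn0]
      nlinarith
  have hcc' : c' < c := by
    apply Real.cos_lt_cos_of_nonneg_of_le_pi (by positivity)
    · rw [div_le_iff₀ hn0]
      nlinarith
    · apply div_lt_div_of_pos_right _ hn0
      linarith
  have hsum : 1 ≤ c + c' := by linarith
  set ρ : ℝ := 2 / (c + c') with hρ
  have hρ0 : 0 < ρ := by positivity
  have hρ2 : ρ ≤ 2 := by
    rw [hρ, div_le_iff₀ (by linarith)]
    linarith
  have h1 : 1 < ρ * c := by
    rw [hρ, div_mul_eq_mul_div, lt_div_iff₀ (by linarith)]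
    linarith
  have h2 : ρ * c' < 1 := by
    rw [hρ, div_mul_eq_mul_div, div_lt_iff₀ (by linarith)]
    linarith
  have h3 := hN (A n ρ) (A_frontier n ρ hρ0 hρ2) (A_fixing n hn3 ρ hρ0 hρ2 h1)
    (fun B hB hne => A_primitive n hn3 ρ hρ0 (by linarith) h2 B hB hne)
  have h4 := A_card n hn3 ρ hρ0
  have h5 : (n : ENat) ≤ (N : ENat) := h4.trans h3
  have h6 : n ≤ N := by exact_mod_cast h5
  omega

end Pool.Agent.S08048
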