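import Pool.Statements.S08058
import Pool.Agent.Helper93.JmMain

set_option autoImplicit false
open TopologicalSpace Topology
open scoped Topology
open Pool Pool.MP_068a93_gt

namespace Pool.Agent.S08058

/-- The negation of the preceding statement: Defining D as Čech–Lebesgue covering dimension ≤ k, for every n>2 there is a separable metrizable X of covering dimension m and a finite-dimensional metrizable compact Hausdorff dense embedding c:X→K such that every metrizable compactification d:X→L with a continuous f:K→L, f∘c=d, has dim L ≥ n+m. -/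
theorem result :
    ¬ (∀ D : (S : Type) → TopologicalSpace S → ℕ → Prop,
    (∀ (S : Type) (t : TopologicalSpace S) (k : ℕ), D S t k ↔
      ∀ (j : ℕ) (U : Fin j → Set S), (∀ i, IsOpen[t] (U i)) → (⋃ i, U i) = Set.univ →
        ∃ V : Fin j → Set S, (∀ i, IsOpen[t] (V i)) ∧ (∀ i, V i ⊆ U i) ∧
          (⋃ i, V i) = Set.univ ∧
          ∀ x : S, Set.ncard {i : Fin j | x ∈ V i} ≤ k + 1) →
    ∀ n : ℕ, 2 < n →
      ∃ (X : Type) (_ : TopologicalSpace X), MetrizableSpace X ∧ SeparableSpace X ∧
        ∃ m : ℕ, D X inferInstance m ∧ (∀ k < m, ¬ D X inferInstance k) ∧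
        ∃ (K : Type) (_ : TopologicalSpace K), CompactSpace K ∧ T2Space K ∧
          MetrizableSpace K ∧ (∃ N : ℕ, D K inferInstance N) ∧
          ∃ c : X → K, IsEmbedding c ∧ DenseRange c ∧
            ∀ (L : Type) (_ : TopologicalSpace L), CompactSpace L → T2Space L →
              MetrizableSpace L → ∀ d : X → L, IsEmbedding d → DenseRange d →
              (∃ f : K → L, Continuous f ∧ f ∘ c = d) →
              ∀ k < n + m, ¬ D L inferInstance k) := by
  intro Hall
  obtain ⟨X, tX, hXm, hXs, m, hDm, _, K, tK, hKc, hKt2, hKm, _, c, hc, hcd, hL⟩ :=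
    Hall (fun S t k => ∀ (j : ℕ) (U : Fin j → Set S), (∀ i, IsOpen[t] (U i)) → (⋃ i, U i) = Set.univ →
        ∃ V : Fin j → Set S, (∀ i, IsOpen[t] (V i)) ∧ (∀ i, V i ⊆ U i) ∧
          (⋃ i, V i) = Set.univ ∧
          ∀ x : S, Set.ncard {i : Fin j | x ∈ V i} ≤ k + 1) (fun S t k => Iff.rfl) 7 (by norm_num)
  letI : MetricSpace K := TopologicalSpace.metrizableSpaceMetric K
  have hA : Pool.Agent.Helper93.Jm.CP (Set.range c) m := Pool.Agent.Helper93.Jm.cp_of_dense hc hcd hDm
  obtain ⟨L, mL, cL, f, hf, hfs, hfi, hfine⟩ := Pool.Agent.Helper93.Jm.mainL hA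
  exact hL L inferInstance cL inferInstance inferInstance (f ∘ c)
    (Pool.Agent.Helper93.Jm.comp_embedding hc hf hfi) (hfs.denseRange.comp hcd hf) ⟨f, hf, rfl⟩
    (m + 6) (by omega) (Pool.Agent.Helper93.Jm.dim_of_fine hfine)

end Pool.Agent.S08058
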