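import Pool.Statements.S08059
import Pool.Agent.Helper331.N3i

set_option autoImplicit false
open scoped Manifold ContDiff
open Pool Pool.MP_06bfdf_gt

namespace Pool.Agent.S08059

/-- There is a closed connected smooth surface M, with 2^k homomorphisms from its fundamental group to Z/2 for some odd k ≥ 3 (so χ = 2−k is odd and ≤ −1), and a smooth embedding of M into R^4 whose preimage of every closed half-space is connected. -/
theorem result :
  ∃ (M : Type) (_ : TopologicalSpace M) (_ : ChartedSpace (EuclideanSpace ℝ (Fin 2)) M)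
    (_ : IsManifold (𝓡 2) ∞ M) (_ : CompactSpace M) (_ : ConnectedSpace M) (_ : T2Space M)
    (f : M → EuclideanSpace ℝ (Fin 4)),
    ContMDiff (𝓡 2) 𝓘(ℝ, EuclideanSpace ℝ (Fin 4)) ∞ f ∧
    Topology.IsEmbedding f ∧
    (∀ x : M, Function.Injective (mfderiv (𝓡 2) 𝓘(ℝ, EuclideanSpace ℝ (Fin 4)) f x)) ∧
    (∃ (x : M) (k : ℕ), Odd k ∧ 3 ≤ k ∧
      Nat.card (FundamentalGroup M x →* Multiplicative (ZMod 2)) = 2 ^ k) ∧
    ∀ (u : EuclideanSpace ℝ (Fin 4)) (c : ℝ),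
      IsPreconnected (f ⁻¹' {y : EuclideanSpace ℝ (Fin 4) | inner ℝ u y ≤ c}) := by
  obtain ⟨M, i1, i2, i3, i4, i5, i6, f, h1, h2, h3, ⟨x, hx⟩, h4, -, -⟩ :=
    Pool.Agent.Helper331.n3_main
  refine ⟨M, i1, i2, i3, i4, i5, i6, f, h1, h2, h3, ⟨x, 3, ⟨1, rfl⟩, le_rfl, hx⟩, ?_⟩
  intro u c
  have h5 := h4 (-u) (-c)
  have h6 : {y : EuclideanSpace ℝ (Fin 4) | -c ≤ inner ℝ (-u) y}
      = {y : EuclideanSpace ℝ (Fin 4) | inner ℝ u y ≤ c} := by
    ext y
    simp only [Set.mem_ofPred_eq, inner_neg_left, neg_le_neg_iff]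
  rw [h6] at h5
  exact h5

end Pool.Agent.S08059
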