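import Pool.Statements.S08064
import Mathlib

set_option autoImplicit false
open Pool Pool.MP_0764dd_gt

/-
Outline. We build a compact Hausdorff space `K` (a closed subset of a cube indexed by finite words) that is a
countable union of subspaces in which every point has small relatively clopen neighbourhoods (so each of them has
`trind` at most `0`), but which has no small transfinite dimension.

* `M` is the set of parameters `(s, t, c, q)`: `s, t` real, `c` in the one-point compactification of the space `Psi` of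
  nodes (finite sequences) and branches (elements of `DD`, which also code guesses of sequences), `q` in the one-point
  compactification of the natural numbers.
* For every letter `l` (a natural number or a branch) there is a map `f l` from `M` to `M`, continuous off a
  singular set `ZL l`; the singular sets are disjoint.  `K` is the closure of the points `io m = (E (f_w m))_w` for `m`
  outside all singular sets.  At a singular point `z` of the letter `l` the fibre of `K` is a copy `jz l z K` of `K`.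
* `key`: every partition of `K` between the point `io m0` and the part where `min s t > 1/2` contains one of the copies
  `jz l z K`.  Hence no ordinal can bound the small transfinite dimension (`no_trind`).
* `zero_dim`, `cover`: `K` is the union of the countably many pieces `Apm i m` and `Aom`, each of them having
  relatively clopen neighbourhood bases.
-/


namespace Pool.Agent.S08064

open Topology Filter Set


/-- index set of the limit points -/
abbrev DD : Type := (ℕ → ℕ) × (ℕ → ℕ)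

/-- the first `l` entries of the branch coded by `a` -/
def node (a : DD) (l : ℕ) : List ℕ := (List.range l).map (fun i => Nat.pair (a.1 i) (a.2 i))

lemma node_len {a b : DD} {l l' : ℕ} (h : node a l = node b l') : l = l' := by
  have := congrArg List.length h
  simpa [node] using this

lemma node_agree {a b : DD} {l : ℕ} (h : node a l = node b l) (i : ℕ) (hi : i < l) :
    a.1 i = b.1 i ∧ a.2 i = b.2 i := by
  unfold node at h
  rw [List.map_inj_left] at h
  have := h i (List.mem_range.2 hi)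
  exact Nat.pair_eq_pair.1 this

lemma node_sep {a b : DD} (h : a ≠ b) : ∃ L, ∀ l, L ≤ l → ∀ l', node b l ≠ node a l' := by
  by_contra hcon
  push Not at hcon
  apply h
  have key : ∀ i, a.1 i = b.1 i ∧ a.2 i = b.2 i := by
    intro i
    obtain ⟨l, hl, l', hll⟩ := hcon (i+1)
    have h1 := node_len hll
    subst h1
    have := node_agree hll i (by omega)
    exact ⟨this.1.symm, this.2.symm⟩
  ext i
  · exact (key i).1
  · exact (key i).2

/-- the locally compact space of nodes and branches -/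
def Psi : Type := List ℕ ⊕ DD

def nd (l : List ℕ) : Psi := Sum.inl l
def br (a : DD) : Psi := Sum.inr a

lemma nd_inj {l l' : List ℕ} (h : nd l = nd l') : l = l' := Sum.inl_injective h
lemma br_inj {a a' : DD} (h : br a = br a') : a = a' := Sum.inr_injective h
lemma nd_ne_br (l : List ℕ) (a : DD) : nd l ≠ br a := Sum.inl_ne_inr
lemma br_ne_nd (l : List ℕ) (a : DD) : br a ≠ nd l := Sum.inr_ne_inl

lemma psi_cases (x : Psi) : (∃ l, x = nd l) ∨ (∃ a, x = br a) := by
  rcases x with l | a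
  · exact Or.inl ⟨l, rfl⟩
  · exact Or.inr ⟨a, rfl⟩

instance : TopologicalSpace Psi where
  IsOpen U := ∀ a : DD, br a ∈ U → ∃ L, ∀ l, L ≤ l → nd (node a l) ∈ U
  isOpen_univ := fun _ _ => ⟨0, fun _ _ => mem_univ _⟩
  isOpen_inter := by
    intro U V hU hV a ha
    obtain ⟨L, hL⟩ := hU a ha.1
    obtain ⟨L', hL'⟩ := hV a ha.2
    exact ⟨max L L', fun l hl => ⟨hL l (le_trans (le_max_left _ _) hl),
      hL' l (le_trans (le_max_right _ _) hl)⟩⟩
  isOpen_sUnion := by
    intro 𝒰 h𝒰 a ha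
    obtain ⟨U, hU, haU⟩ := ha
    obtain ⟨L, hL⟩ := h𝒰 U hU a haU
    exact ⟨L, fun l hl => ⟨U, hU, hL l hl⟩⟩

lemma isOpen_psi {U : Set Psi} :
    IsOpen U ↔ ∀ a : DD, br a ∈ U → ∃ L, ∀ l, L ≤ l → nd (node a l) ∈ U := Iff.rfl

lemma isOpen_nd (l : List ℕ) : IsOpen ({nd l} : Set Psi) := by
  rw [isOpen_psi]
  intro a ha
  exact absurd (mem_singleton_iff.1 ha) (br_ne_nd _ _)

/-- basic compact neighbourhoods of a branch -/
def Ob (a : DD) (n : ℕ) : Set Psi := {x | x = br a ∨ ∃ l, n ≤ l ∧ x = nd (node a l)}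

lemma br_mem_Ob {a b : DD} {n : ℕ} : br b ∈ Ob a n ↔ b = a := by
  constructor
  · rintro (h | ⟨l, _, h⟩)
    · exact br_inj h
    · exact absurd h (br_ne_nd _ _)
  · rintro rfl
    exact Or.inl rfl

lemma isOpen_Ob (a : DD) (n : ℕ) : IsOpen (Ob a n) := by
  rw [isOpen_psi]
  intro b hb
  rw [br_mem_Ob] at hb
  subst hb
  exact ⟨n, fun l hl => Or.inr ⟨l, hl, rfl⟩⟩

lemma isClosed_Ob (a : DD) (n : ℕ) : IsClosed (Ob a n) := by
  rw [← isOpen_compl_iff, isOpen_psi]
  intro b hb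
  have hba : a ≠ b := by
    intro h
    apply hb
    rw [br_mem_Ob]
    exact h.symm
  obtain ⟨L, hL⟩ := node_sep hba
  refine ⟨L, fun l hl hmem => ?_⟩
  rcases hmem with h | ⟨l', _, h⟩
  · exact nd_ne_br _ _ h
  · exact hL l hl l' (nd_inj h)

lemma tendsto_node (a : DD) : Tendsto (fun l => nd (node a l)) atTop (𝓝 (br a)) := by
  rw [tendsto_nhds]
  intro U hU ha
  obtain ⟨L, hL⟩ := hU a ha
  rw [mem_atTop_sets]
  exact ⟨L, fun l hl => hL l hl⟩

lemma isCompact_Ob (a : DD) (n : ℕ) : IsCompact (Ob a n) := by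
  have h1 : Tendsto (fun l => nd (node a (l + n))) atTop (𝓝 (br a)) :=
    (tendsto_node a).comp (tendsto_add_atTop_nat n)
  have h2 := h1.isCompact_insert_range
  convert h2 using 1
  ext x
  constructor
  · rintro (h | ⟨l, hl, rfl⟩)
    · exact Or.inl h
    · refine Or.inr ⟨l - n, ?_⟩
      simp only
      rw [Nat.sub_add_cancel hl]
  · rintro (h | ⟨l, rfl⟩)
    · exact Or.inl h
    · exact Or.inr ⟨l + n, by omega, rfl⟩

/-- the same sets inside the one-point compactification -/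
def OO (a : DD) (n : ℕ) : Set (OnePoint Psi) := OnePoint.some '' Ob a n

lemma isOpen_OO (a : DD) (n : ℕ) : IsOpen (OO a n) :=
  OnePoint.isOpen_image_coe.2 (isOpen_Ob a n)

lemma isClosed_OO (a : DD) (n : ℕ) : IsClosed (OO a n) :=
  OnePoint.isClosed_image_coe.2 ⟨isClosed_Ob a n, isCompact_Ob a n⟩

lemma isClopen_OO (a : DD) (n : ℕ) : IsClopen (OO a n) := ⟨isClosed_OO a n, isOpen_OO a n⟩

lemma infty_notMem_OO (a : DD) (n : ℕ) : OnePoint.infty ∉ OO a n :=
  OnePoint.infty_notMem_image_coe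

lemma br_mem_OO {a b : DD} {n : ℕ} : OnePoint.some (br b) ∈ OO a n ↔ b = a := by
  constructor
  · rintro ⟨x, hx, hxb⟩
    rw [OnePoint.coe_eq_coe] at hxb
    subst hxb
    exact br_mem_Ob.1 hx
  · rintro rfl
    exact ⟨_, br_mem_Ob.2 rfl, rfl⟩

/-- a point different from the branch `a` has a neighbourhood missing `OO a n` for large `n` -/
lemma nhds_avoid (a : DD) (c : OnePoint Psi) (hc : c ≠ OnePoint.some (br a)) :
    ∃ G : Set (OnePoint Psi), IsOpen G ∧ c ∈ G ∧ ∃ N, ∀ n, N ≤ n → ∀ x ∈ G, x ∉ OO a n := by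
  induction c using OnePoint.rec with
  | infty =>
    refine ⟨(OO a 0)ᶜ, (isClosed_OO a 0).isOpen_compl, infty_notMem_OO _ _, 0, ?_⟩
    intro n _ x hx hxn
    apply hx
    obtain ⟨y, hy, rfl⟩ := hxn
    refine ⟨y, ?_, rfl⟩
    rcases hy with h | ⟨l, _, h⟩
    · exact Or.inl h
    · exact Or.inr ⟨l, Nat.zero_le _, h⟩
  | coe x =>
    rcases psi_cases x with ⟨l0, rfl⟩ | ⟨b, rfl⟩
    · refine ⟨OnePoint.some '' {nd l0}, OnePoint.isOpen_image_coe.2 (isOpen_nd l0), ⟨_, rfl, rfl⟩,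
        l0.length + 1, ?_⟩
      rintro n hn x ⟨y, hy, rfl⟩ ⟨y', hy', hyy⟩
      rw [OnePoint.coe_eq_coe] at hyy
      subst hyy
      rw [mem_singleton_iff] at hy
      subst hy
      rcases hy' with h | ⟨l, hl, h⟩
      · exact nd_ne_br _ _ h
      · have := nd_inj h
        rw [this] at hn
        simp [node] at hn
        omega
    · have hba : a ≠ b := by
        intro h
        exact hc (by rw [h])
      obtain ⟨L, hL⟩ := node_sep hba
      refine ⟨OO b L, isOpen_OO b L, br_mem_OO.2 rfl, 0, ?_⟩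
      rintro n _ x ⟨y, hy, rfl⟩ ⟨y', hy', hyy⟩
      rw [OnePoint.coe_eq_coe] at hyy
      subst hyy
      rcases hy with h | ⟨l, hl, h⟩
      · rcases hy' with h' | ⟨l', hl', h'⟩
        · exact hba (br_inj (h'.symm.trans h))
        · exact br_ne_nd _ _ (h.symm.trans h')
      · rcases hy' with h' | ⟨l', hl', h'⟩
        · exact br_ne_nd _ _ (h'.symm.trans h)
        · exact hL l hl l' (nd_inj (h.symm.trans h'))

/-- an open neighbourhood of infinity contains all but finitely many branches -/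
lemma finite_compl_br (G : Set (OnePoint Psi)) (hG : IsOpen G) (h : OnePoint.infty ∈ G) :
    {a : DD | OnePoint.some (br a) ∉ G}.Finite := by
  have hc := ((OnePoint.isOpen_iff_of_mem h).1 hG).2
  obtain ⟨t, _, ht⟩ := hc.elim_nhds_subcover
    (fun x => Sum.elim (fun l => ({nd l} : Set Psi)) (fun a => Ob a 0) x)
    (by
      intro x _
      rcases x with l | a
      · exact (isOpen_nd l).mem_nhds rfl
      · exact (isOpen_Ob a 0).mem_nhds (Or.inl rfl))
  have hfin : (br ⁻¹' (t : Set Psi)).Finite :=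
    t.finite_toSet.preimage (fun _ _ _ _ h => br_inj h)
  refine hfin.subset ?_
  intro a ha
  have h1 : br a ∈ (OnePoint.some ⁻¹' G)ᶜ := ha
  have h2 := ht h1
  rw [mem_iUnion₂] at h2
  obtain ⟨x, hx, hax⟩ := h2
  rcases x with l | b
  · exact absurd (mem_singleton_iff.1 hax) (br_ne_nd _ _)
  · have : a = b := br_mem_Ob.1 hax
    subst this
    exact hx

/-- nodes are dense -/
lemma dense_nd (G : Set (OnePoint Psi)) (hG : IsOpen G) (hne : G.Nonempty) :
    ∃ l : List ℕ, OnePoint.some (nd l) ∈ G := by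
  have hbr : ∀ a : DD, OnePoint.some (br a) ∈ G → ∃ l : List ℕ, OnePoint.some (nd l) ∈ G := by
    intro a ha
    have h1 : IsOpen (OnePoint.some ⁻¹' G : Set Psi) := hG.preimage OnePoint.continuous_coe
    obtain ⟨L, hL⟩ := isOpen_psi.1 h1 a ha
    exact ⟨_, hL L le_rfl⟩
  obtain ⟨c, hc⟩ := hne
  induction c using OnePoint.rec with
  | infty =>
    have hfin := finite_compl_br G hG hc
    have hinf : Infinite DD := inferInstance
    obtain ⟨a, ha⟩ := hfin.infinite_compl.nonempty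
    have : OnePoint.some (br a) ∈ G := by
      by_contra hcon
      exact ha hcon
    exact hbr a this
  | coe x =>
    rcases psi_cases x with ⟨l0, rfl⟩ | ⟨b, rfl⟩
    · exact ⟨l0, hc⟩
    · exact hbr b hc



/-- distance to the nearest integer -/
noncomputable def dz (x : ℝ) : ℝ := |x - round x|

lemma dz_lip (x y : ℝ) : dz x ≤ dz y + |x - y| := by
  unfold dz
  calc |x - round x| ≤ |x - round y| := round_le x (round y)
    _ = |(x - y) + (y - round y)| := by ring_nf
    _ ≤ |x - y| + |y - round y| := abs_add_le _ _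
    _ = |y - round y| + |x - y| := by ring

lemma continuous_dz : Continuous dz := by
  rw [Metric.continuous_iff]
  intro b ε hε
  refine ⟨ε, hε, fun a hab => ?_⟩
  rw [Real.dist_eq] at *
  have h1 := dz_lip a b
  have h2 := dz_lip b a
  rw [abs_sub_comm b a] at h2
  rw [abs_lt]
  constructor <;> linarith

lemma dz_nonneg (x : ℝ) : 0 ≤ dz x := abs_nonneg _

lemma dz_le_half (x : ℝ) : dz x ≤ 1/2 := abs_sub_round x

lemma dz_eq_zero {x : ℝ} : dz x = 0 ↔ ∃ k : ℤ, x = k := by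
  unfold dz
  rw [abs_eq_zero, sub_eq_zero]
  constructor
  · intro h
    exact ⟨_, h⟩
  · rintro ⟨k, rfl⟩
    rw [round_intCast]

lemma dz_add (k : ℤ) (δ : ℝ) (hδ : |δ| < 1/2) : dz (k + δ) = |δ| := by
  have h1 : round ((k:ℝ) + δ) = k := by
    rw [round_eq, Int.floor_eq_iff]
    rw [abs_lt] at hδ
    constructor <;> linarith [hδ.1, hδ.2]
  unfold dz
  rw [h1]
  ring_nf

lemma dz_half (k : ℤ) : dz (k + 1/2) = 1/2 := by
  have h1 : round ((k:ℝ) + 1/2) = k + 1 := by
    rw [round_eq, Int.floor_eq_iff]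
    push_cast
    constructor <;> linarith
  unfold dz
  rw [h1]
  push_cast
  rw [show (k:ℝ) + 1/2 - (k + 1) = -(1/2) by ring, abs_neg, abs_of_pos (by norm_num)]

/-- sets of reals containing the rationals and closed under rational operations in one variable -/
structure Nice (N : Set ℝ) : Prop where
  rat : ∀ q : ℚ, (q:ℝ) ∈ N
  add : ∀ (q : ℚ) (x : ℝ), x ∈ N → (q:ℝ) + x ∈ N
  mul : ∀ (q : ℚ) (x : ℝ), x ∈ N → (q:ℝ) * x ∈ N
  inv : ∀ (x : ℝ), x ∈ N → x⁻¹ ∈ N

namespace Nice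

variable {N : Set ℝ} (hN : Nice N)
include hN

lemma zero : (0:ℝ) ∈ N := by simpa using hN.rat 0
lemma one : (1:ℝ) ∈ N := by simpa using hN.rat 1
lemma neg {x : ℝ} (hx : x ∈ N) : -x ∈ N := by simpa using hN.mul (-1) x hx
lemma sub_left (q : ℚ) {x : ℝ} (hx : x ∈ N) : (q:ℝ) - x ∈ N := by
  rw [sub_eq_add_neg]
  exact hN.add q _ (hN.neg hx)
lemma add_right (q : ℚ) {x : ℝ} (hx : x ∈ N) : x + q ∈ N := by
  rw [add_comm]
  exact hN.add q _ hx
lemma sub_right (q : ℚ) {x : ℝ} (hx : x ∈ N) : x - q ∈ N := by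
  have := hN.add (-q) x hx
  push_cast at this
  rwa [neg_add_eq_sub] at this
lemma abs {x : ℝ} (hx : x ∈ N) : |x| ∈ N := by
  rcases abs_choice x with h | h
  · rwa [h]
  · rw [h]
    exact hN.neg hx
omit hN in
lemma max {x y : ℝ} (hx : x ∈ N) (hy : y ∈ N) : Max.max x y ∈ N := by
  rcases max_choice x y with h | h <;> rwa [h]
omit hN in
lemma min {x y : ℝ} (hx : x ∈ N) (hy : y ∈ N) : Min.min x y ∈ N := by
  rcases min_choice x y with h | h <;> rwa [h]
lemma dz {x : ℝ} (hx : x ∈ N) : dz x ∈ N := by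
  unfold S08064.dz
  apply hN.abs
  have := hN.sub_right (round x : ℚ) hx
  simpa using this

end Nice

lemma nice_rat : Nice (Set.range ((↑) : ℚ → ℝ)) where
  rat := fun q => ⟨q, rfl⟩
  add := by
    rintro q _ ⟨y, rfl⟩
    exact ⟨q + y, by push_cast; ring⟩
  mul := by
    rintro q _ ⟨y, rfl⟩
    exact ⟨q * y, by push_cast; ring⟩
  inv := by
    rintro _ ⟨y, rfl⟩
    exact ⟨y⁻¹, by push_cast; rfl⟩

/-- the irrational part of the quadratic field of `√p` -/
def Sp (p : ℕ) : Set ℝ := {x | ∃ a b : ℚ, b ≠ 0 ∧ x = a + b * √(p:ℝ)}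

lemma irr_lin {p : ℕ} (hp : Irrational √(p:ℝ)) {a b : ℚ} (h : (a:ℝ) + b * √(p:ℝ) = 0) :
    b = 0 := by
  by_contra hb
  apply hp
  have hb' : (b:ℝ) ≠ 0 := by exact_mod_cast hb
  refine ⟨-a / b, ?_⟩
  push_cast
  field_simp
  linarith

lemma nice_compl_Sp {p : ℕ} (hp : Irrational √(p:ℝ)) : Nice (Sp p)ᶜ where
  rat := by
    rintro q ⟨a, b, hb, h⟩
    apply hb
    apply irr_lin hp (a := a - q)
    push_cast
    linarith
  add := by
    rintro q x hx ⟨a, b, hb, h⟩
    apply hx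
    refine ⟨a - q, b, hb, ?_⟩
    push_cast
    linarith
  mul := by
    rintro q x hx ⟨a, b, hb, h⟩
    by_cases hq : q = 0
    · subst hq
      apply hb
      apply irr_lin hp (a := a)
      push_cast at h
      linarith
    · apply hx
      have hq' : (q:ℝ) ≠ 0 := by exact_mod_cast hq
      refine ⟨a / q, b / q, div_ne_zero hb hq, ?_⟩
      push_cast
      field_simp
      linarith
  inv := by
    rintro x hx ⟨a, b, hb, h⟩
    apply hx
    have hp2 : √(p:ℝ) ^ 2 = p := Real.sq_sqrt (by positivity)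
    have h1 : (a:ℝ) + b * √(p:ℝ) ≠ 0 := fun h0 => hb (irr_lin hp h0)
    have h2 : (a:ℝ) - b * √(p:ℝ) ≠ 0 := by
      intro h0
      apply hb
      have : -b = 0 := irr_lin hp (a := a) (b := -b) (by push_cast; linarith)
      linarith
    have h3 : (a:ℝ)^2 - p * b^2 ≠ 0 := by
      have : ((a:ℝ) + b * √(p:ℝ)) * ((a:ℝ) - b * √(p:ℝ)) = a^2 - p * b^2 := by
        ring_nf
        rw [hp2]
      rw [← this]
      exact mul_ne_zero h1 h2
    have h3' : (a:ℚ)^2 - p * b^2 ≠ 0 := by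
      intro h0
      apply h3
      exact_mod_cast h0
    refine ⟨a / (a^2 - p * b^2), -b / (a^2 - p * b^2), div_ne_zero (neg_ne_zero.2 hb) h3', ?_⟩
    have hx' : x = ((a:ℝ) + b * √(p:ℝ))⁻¹ := by
      rw [← h, inv_inv]
    rw [hx']
    push_cast
    rw [inv_eq_one_div, div_eq_iff h1]
    field_simp
    ring_nf
    rw [hp2]
    ring

lemma Sp_disj {p q : ℕ} (hpq : Irrational √((p * q : ℕ) : ℝ)) {x : ℝ} (h1 : x ∈ Sp p) (h2 : x ∈ Sp q) :
    False := by
  obtain ⟨a, b, hb, h⟩ := h1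
  obtain ⟨c, d, hd, h'⟩ := h2
  apply hpq
  have hb' : (b:ℝ) ≠ 0 := by exact_mod_cast hb
  have hd' : (d:ℝ) ≠ 0 := by exact_mod_cast hd
  have e1 : √(p:ℝ) ^ 2 = p := Real.sq_sqrt (by positivity)
  have e2 : √(q:ℝ) ^ 2 = q := Real.sq_sqrt (by positivity)
  have e3 : √((p * q : ℕ) : ℝ) = √(p:ℝ) * √(q:ℝ) := by
    push_cast
    rw [Real.sqrt_mul (by positivity)]
  have e4 : b * √(p:ℝ) - d * √(q:ℝ) = c - a := by linarith
  have e5 : (b * √(p:ℝ) - d * √(q:ℝ))^2 = (c - a)^2 := by rw [e4]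
  have e6 : (b:ℝ)^2 * p + d^2 * q - 2 * b * d * (√(p:ℝ) * √(q:ℝ)) = (c - a)^2 := by
    rw [← e5]
    ring_nf
    rw [e1, e2]
  refine ⟨(b^2 * p + d^2 * q - (c-a)^2) / (2 * b * d), ?_⟩
  rw [e3]
  push_cast
  field_simp
  linarith

lemma irr2 : Irrational √((2:ℕ):ℝ) := by
  rw [irrational_sqrt_natCast_iff]
  intro h
  obtain ⟨r, hr⟩ := h
  have : r ≤ 1 := by nlinarith
  interval_cases r <;> omega

lemma irr_of_between (n r : ℕ) (h1 : r * r < n) (h2 : n < (r+1)*(r+1)) : Irrational √(n:ℝ) := by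
  rw [irrational_sqrt_natCast_iff]
  rintro ⟨s, hs⟩
  rcases Nat.lt_or_ge r s with h | h
  · have : (r+1)*(r+1) ≤ s * s := Nat.mul_le_mul h h
    omega
  · have : s * s ≤ r * r := Nat.mul_le_mul h h
    omega

lemma irr3 : Irrational √((3:ℕ):ℝ) := irr_of_between 3 1 (by norm_num) (by norm_num)
lemma irr5 : Irrational √((5:ℕ):ℝ) := irr_of_between 5 2 (by norm_num) (by norm_num)

/-- the three primes used -/
def pr : Fin 3 → ℕ := ![2, 3, 5]

lemma irr_pr (i : Fin 3) : Irrational √((pr i : ℕ):ℝ) := by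
  fin_cases i
  · exact irr2
  · exact irr3
  · exact irr5

lemma pick_pr (s t : ℝ) : ∃ i : Fin 3, s ∉ Sp (pr i) ∧ t ∉ Sp (pr i) := by
  have d23 : ∀ x, x ∈ Sp 2 → x ∈ Sp 3 → False := fun x h1 h2 =>
    Sp_disj (irr_of_between 6 2 (by norm_num) (by norm_num)) h1 h2
  have d25 : ∀ x, x ∈ Sp 2 → x ∈ Sp 5 → False := fun x h1 h2 =>
    Sp_disj (irr_of_between 10 3 (by norm_num) (by norm_num)) h1 h2
  have d35 : ∀ x, x ∈ Sp 3 → x ∈ Sp 5 → False := fun x h1 h2 =>
    Sp_disj (irr_of_between 15 3 (by norm_num) (by norm_num)) h1 h2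
  by_contra hcon
  push Not at hcon
  have h0 := hcon 0
  have h1 := hcon 1
  have h2 := hcon 2
  simp only [pr, Matrix.cons_val_zero, Matrix.cons_val_one, Matrix.cons_val] at h0 h1 h2
  by_cases s2 : s ∈ Sp 2
  · have s3 : s ∉ Sp 3 := fun h => d23 s s2 h
    have s5 : s ∉ Sp 5 := fun h => d25 s s2 h
    exact d35 t (h1 s3) (h2 s5)
  · have t2 := h0 s2
    have t3 : t ∉ Sp 3 := fun h => d23 t t2 h
    have t5 : t ∉ Sp 5 := fun h => d25 t t2 h
    have s3 : s ∈ Sp 3 := by
      by_contra h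
      exact t3 (h1 h)
    have s5 : s ∈ Sp 5 := by
      by_contra h
      exact t5 (h2 h)
    exact d35 s s3 s5

lemma dense_Sp (p : ℕ) {x y : ℝ} (h : x < y) : ∃ z ∈ Sp p, x < z ∧ z < y := by
  obtain ⟨q, hq1, hq2⟩ := exists_rat_btwn (show x - √(p:ℝ) < y - √(p:ℝ) by linarith)
  refine ⟨q + √(p:ℝ), ⟨q, 1, one_ne_zero, by push_cast; ring⟩, by linarith, by linarith⟩

/-- clipped jump position -/
def kk (k : ℕ → ℕ) (n : ℕ) : ℕ := min (k n) n

lemma kk_le (k : ℕ → ℕ) (n : ℕ) : kk k n ≤ n := min_le_right _ _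

lemma exists_act (k : ℕ → ℕ) : ∃ (act : ℕ → Option ℕ) (r : ℝ), 0 ≤ r ∧ r ≤ 1 ∧
    (∀ ε > 0, ∃ N, ∀ n, N ≤ n → act n ≠ none → |(kk k n : ℝ) / ((n:ℝ)+1) - r| < ε) ∧
    (∀ i N, ∃ n, N ≤ n ∧ act n = some i) := by
  classical
  have hmem : ∀ n, (kk k n : ℝ) / ((n:ℝ)+1) ∈ Icc (0:ℝ) 1 := by
    intro n
    constructor
    · positivity
    · rw [div_le_one (by positivity)]
      have : ((kk k n : ℕ) : ℝ) ≤ n := by exact_mod_cast kk_le k n
      linarith
  obtain ⟨r, hr, φ, hφ, hlim⟩ := isCompact_Icc.tendsto_subseq hmem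
  refine ⟨fun n => if h : ∃ j, φ j = n then some (Nat.unpair (Classical.choose h)).1 else none,
    r, hr.1, hr.2, ?_, ?_⟩
  · intro ε hε
    rw [Metric.tendsto_atTop] at hlim
    obtain ⟨J, hJ⟩ := hlim ε hε
    refine ⟨φ J, fun n hn hact => ?_⟩
    have hex : ∃ j, φ j = n := by
      by_contra hcon
      exact hact (dif_neg hcon)
    obtain ⟨j, rfl⟩ := hex
    have hj : J ≤ j := hφ.le_iff_le.1 hn
    have := hJ j hj
    rwa [Real.dist_eq] at this
  · intro i N
    refine ⟨φ (Nat.pair i N), ?_, ?_⟩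
    · exact le_trans (Nat.right_le_pair i N) (hφ.le_apply)
    · have hex : ∃ j, φ j = φ (Nat.pair i N) := ⟨_, rfl⟩
      have h1 : Classical.choose hex = Nat.pair i N := hφ.injective (Classical.choose_spec hex)
      show (if h : ∃ j, φ j = φ (Nat.pair i N) then some (Nat.unpair (Classical.choose h)).1
        else none) = some i
      rw [dif_pos hex, h1, Nat.unpair_pair]

noncomputable def act (k : ℕ → ℕ) : ℕ → Option ℕ := Classical.choose (exists_act k)
noncomputable def rr (k : ℕ → ℕ) : ℝ := Classical.choose (Classical.choose_spec (exists_act k))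

lemma rr_nonneg (k : ℕ → ℕ) : 0 ≤ rr k :=
  (Classical.choose_spec (Classical.choose_spec (exists_act k))).1
lemma rr_le_one (k : ℕ → ℕ) : rr k ≤ 1 :=
  (Classical.choose_spec (Classical.choose_spec (exists_act k))).2.1
lemma act_conv (k : ℕ → ℕ) : ∀ ε > 0, ∃ N, ∀ n, N ≤ n → act k n ≠ none →
    |(kk k n : ℝ) / ((n:ℝ)+1) - rr k| < ε :=
  (Classical.choose_spec (Classical.choose_spec (exists_act k))).2.2.1
lemma act_freq (k : ℕ → ℕ) : ∀ i N, ∃ n, N ≤ n ∧ act k n = some i :=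
  (Classical.choose_spec (Classical.choose_spec (exists_act k))).2.2.2



/-- parameter space -/
abbrev M : Type := ℝ × ℝ × OnePoint Psi × OnePoint ℕ

def MS : Set M := {m | (0 ≤ m.1 ∧ m.1 ≤ 1) ∧ (0 ≤ m.2.1 ∧ m.2.1 ≤ 1)}

def scale (σ : ℝ) (m : M) : M := (σ * m.1, m.2)

lemma continuous_scale (m : M) : Continuous (fun σ => scale σ m) := by
  unfold scale
  fun_prop

/-- coordinates -/
inductive JJ : Type
  | s : JJ
  | mt : JJ
  | chi (a : DD) : JJ
  | lev (n : ℕ) : JJ

open Classical in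
/-- the coordinate map of the cone -/
noncomputable def E (m : M) : JJ → ℝ
  | JJ.s => m.1
  | JJ.mt => min m.1 m.2.1
  | JJ.chi a => if m.2.2.1 ∈ OO a 0 then m.1 else 0
  | JJ.lev n => if m.2.2.2 = OnePoint.some n then m.1 else 0

open Classical in
lemma E_chi (m : M) (a : DD) : E m (JJ.chi a) = if m.2.2.1 ∈ OO a 0 then m.1 else 0 := rfl

open Classical in
lemma E_lev (m : M) (n : ℕ) : E m (JJ.lev n) = if m.2.2.2 = OnePoint.some n then m.1 else 0 := rfl

lemma isClopen_single (n : ℕ) : IsClopen ({OnePoint.some n} : Set (OnePoint ℕ)) := by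
  have h : IsOpen ({OnePoint.some n} : Set (OnePoint ℕ)) := by
    have := (OnePoint.isOpenEmbedding_coe (X := ℕ)).isOpenMap {n} (isOpen_discrete _)
    simpa using this
  refine ⟨?_, h⟩
  have : ({OnePoint.some n} : Set (OnePoint ℕ)) = OnePoint.some '' {n} := by simp
  rw [this, OnePoint.isClosed_image_coe]
  exact ⟨isClosed_discrete _, isCompact_singleton⟩

def LN (n : ℕ) : Set M := {m | m.2.2.2 = OnePoint.some n}
def CN (a : DD) (n : ℕ) : Set M := {m | m.2.2.1 ∈ OO a n}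

lemma isClopen_LN (n : ℕ) : IsClopen (LN n) :=
  (isClopen_single n).preimage (continuous_snd.comp (continuous_snd.comp continuous_snd))

lemma isClopen_CN (a : DD) (n : ℕ) : IsClopen (CN a n) :=
  (isClopen_OO a n).preimage (continuous_fst.comp (continuous_snd.comp continuous_snd))

lemma continuousAt_ite {X Y : Type*} [TopologicalSpace X] [TopologicalSpace Y] {S : Set X}
    [DecidablePred (· ∈ S)] (hS : IsClopen S) {f g : X → Y} {x : X}
    (hf : x ∈ S → ContinuousAt f x) (hg : x ∉ S → ContinuousAt g x) :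
    ContinuousAt (fun y => if y ∈ S then f y else g y) x := by
  by_cases hx : x ∈ S
  · refine (hf hx).congr ?_
    filter_upwards [hS.2.mem_nhds hx] with y hy
    rw [if_pos hy]
  · refine (hg hx).congr ?_
    filter_upwards [hS.1.isOpen_compl.mem_nhds hx] with y hy
    rw [if_neg hy]

lemma continuous_E : Continuous E := by
  classical
  rw [continuous_pi_iff]
  intro j
  rcases j with _ | _ | a | n
  · exact continuous_fst
  · exact continuous_fst.min (continuous_fst.comp continuous_snd)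
  · rw [continuous_iff_continuousAt]
    intro m
    exact continuousAt_ite (S := CN a 0) (isClopen_CN a 0)
      (fun _ => continuous_fst.continuousAt) (fun _ => continuousAt_const)
  · rw [continuous_iff_continuousAt]
    intro m
    exact continuousAt_ite (S := LN n) (isClopen_LN n)
      (fun _ => continuous_fst.continuousAt) (fun _ => continuousAt_const)

/-! ### the first kind of maps -/

noncomputable def dd (n : ℕ) (m : M) : ℝ := max (1 - m.1) (dz (((n:ℝ)+1) * m.2.1))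
noncomputable def xx (n : ℕ) (m : M) : ℝ := (min (dd n m) (1/2))⁻¹

lemma continuous_dd (n : ℕ) : Continuous (dd n) := by
  unfold dd
  exact (continuous_const.sub continuous_fst).max
    (continuous_dz.comp (continuous_const.mul (continuous_fst.comp continuous_snd)))

lemma dd_nonneg (n : ℕ) (m : M) : 0 ≤ dd n m := le_max_of_le_right (dz_nonneg _)

lemma continuousAt_xx {n : ℕ} {m : M} (h : dd n m ≠ 0) : ContinuousAt (xx n) m := by
  unfold xx
  apply ContinuousAt.inv₀
  · exact ((continuous_dd n).min continuous_const).continuousAt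
  · have h1 : 0 < dd n m := lt_of_le_of_ne (dd_nonneg n m) (Ne.symm h)
    exact (lt_min h1 (by norm_num)).ne'

open Classical in
noncomputable def sigN (n : ℕ) (m : M) : ℝ := if m ∈ LN n then 2 * dz (xx n m) else 0

noncomputable def idxN (n : ℕ) (m : M) : ℕ := (Nat.unpair ⌊xx n m⌋₊).1

def ZN (n : ℕ) : Set M := {m | m ∈ LN n ∧ dd n m = 0}

lemma sigN_nonneg (n : ℕ) (m : M) : 0 ≤ sigN n m := by
  unfold sigN
  split_ifs
  · have := dz_nonneg (xx n m)
    linarith
  · exact le_refl _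

lemma sigN_le_one (n : ℕ) (m : M) : sigN n m ≤ 1 := by
  unfold sigN
  split_ifs
  · have := dz_le_half (xx n m)
    linarith
  · exact zero_le_one

lemma sigN_small (n : ℕ) (m : M) (h : m.1 ≤ 1/2) : sigN n m = 0 := by
  unfold sigN
  split_ifs
  · have h1 : 1/2 ≤ dd n m := le_max_of_le_left (by linarith)
    have h2 : xx n m = 2 := by
      unfold xx
      rw [min_eq_right h1]
      norm_num
    rw [h2]
    have : dz 2 = 0 := dz_eq_zero.2 ⟨2, by norm_num⟩
    rw [this]
    norm_num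
  · rfl

lemma cont_sigN {n : ℕ} {m : M} (h : m ∉ ZN n) : ContinuousAt (sigN n) m := by
  classical
  unfold sigN
  refine continuousAt_ite (isClopen_LN n) (fun hm => ?_) (fun _ => continuousAt_const)
  have h1 : dd n m ≠ 0 := fun h0 => h ⟨hm, h0⟩
  exact continuousAt_const.mul (continuous_dz.continuousAt.comp (continuousAt_xx h1))

lemma floor_const {x : ℝ} (hx : 0 < dz x) : ∀ᶠ y in 𝓝 x, ⌊y⌋₊ = ⌊x⌋₊ := by
  have h1 : (⌊x⌋ : ℝ) < x := by
    refine lt_of_le_of_ne (Int.floor_le x) (fun h => ?_)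
    have : dz x = 0 := dz_eq_zero.2 ⟨⌊x⌋, h.symm⟩
    linarith
  have h2 : x < ⌊x⌋ + 1 := Int.lt_floor_add_one x
  filter_upwards [Ioo_mem_nhds h1 h2] with y hy
  have : ⌊y⌋ = ⌊x⌋ := by
    rw [Int.floor_eq_iff]
    exact ⟨hy.1.le, hy.2⟩
  rw [← Int.floor_toNat, ← Int.floor_toNat, this]

lemma idxN_const {n : ℕ} {m : M} (h : m ∉ ZN n) (hpos : 0 < sigN n m) :
    ∀ᶠ m' in 𝓝 m, idxN n m' = idxN n m := by
  have hm : m ∈ LN n := by
    by_contra hcon
    unfold sigN at hpos
    rw [if_neg hcon] at hpos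
    exact lt_irrefl _ hpos
  have h1 : dd n m ≠ 0 := fun h0 => h ⟨hm, h0⟩
  have h2 : 0 < dz (xx n m) := by
    unfold sigN at hpos
    rw [if_pos hm] at hpos
    linarith
  have h3 := (continuousAt_xx h1).eventually (floor_const h2)
  filter_upwards [h3] with m' hm'
  unfold idxN
  rw [hm']

/-! ### the second kind of maps -/

noncomputable def tri (k : ℕ → ℕ) (n : ℕ) (m : M) : ℝ :=
  max 0 (min (1 - 2 * ((n:ℝ)+1) * (1 - m.1))
    (min (1 + ((n:ℝ)+1) * m.2.1 - kk k n) (kk k n + 2 - ((n:ℝ)+1) * m.2.1)))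

lemma continuous_tri (k : ℕ → ℕ) (n : ℕ) : Continuous (tri k n) := by
  unfold tri
  fun_prop

lemma tri_nonneg (k : ℕ → ℕ) (n : ℕ) (m : M) : 0 ≤ tri k n m := le_max_left _ _

lemma tri_le_one (k : ℕ → ℕ) (n : ℕ) (m : M) (hm : m.1 ≤ 1) : tri k n m ≤ 1 := by
  unfold tri
  apply max_le zero_le_one
  apply le_trans (min_le_left _ _)
  have : 0 ≤ 2 * ((n:ℝ)+1) * (1 - m.1) := by
    apply mul_nonneg (by positivity)
    linarith
  linarith

open Classical in
noncomputable def sigA (a : DD) (m : M) : ℝ :=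
  m.2.2.2.elim 0 (fun n => if act a.2 n = none then 0 else
    if m ∈ CN a n then tri a.2 n m else 0)

noncomputable def idxA (a : DD) (m : M) : ℕ := m.2.2.2.elim 0 (fun n => (act a.2 n).getD 0)

noncomputable def zA (a : DD) : M := (1, rr a.2, OnePoint.some (br a), OnePoint.infty)

lemma sigA_infty {a : DD} {m : M} (h : m.2.2.2 = OnePoint.infty) : sigA a m = 0 := by
  unfold sigA
  rw [h]
  rfl

open Classical in
lemma sigA_some {a : DD} {m : M} {n : ℕ} (h : m.2.2.2 = OnePoint.some n) :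
    sigA a m = if act a.2 n = none then 0 else if m ∈ CN a n then tri a.2 n m else 0 := by
  unfold sigA
  rw [h]
  rfl

lemma idxA_some {a : DD} {m : M} {n : ℕ} (h : m.2.2.2 = OnePoint.some n) :
    idxA a m = (act a.2 n).getD 0 := by
  unfold idxA
  rw [h]
  rfl

lemma q_cases (q : OnePoint ℕ) : q = OnePoint.infty ∨ ∃ n : ℕ, q = OnePoint.some n := by
  induction q using OnePoint.rec with
  | infty => exact Or.inl rfl
  | coe n => exact Or.inr ⟨n, rfl⟩

lemma sigA_nonneg (a : DD) (m : M) : 0 ≤ sigA a m := by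
  rcases q_cases m.2.2.2 with h | ⟨n, h⟩
  · rw [sigA_infty h]
  · rw [sigA_some h]
    split_ifs
    · exact le_refl _
    · exact tri_nonneg _ _ _
    · exact le_refl _

lemma sigA_le_one (a : DD) (m : M) (hm : m.1 ≤ 1) : sigA a m ≤ 1 := by
  rcases q_cases m.2.2.2 with h | ⟨n, h⟩
  · rw [sigA_infty h]
    exact zero_le_one
  · rw [sigA_some h]
    split_ifs
    · exact zero_le_one
    · exact tri_le_one _ _ _ hm
    · exact zero_le_one

lemma tri_zero_s {k : ℕ → ℕ} {n : ℕ} {m : M} (h : 1 ≤ 2 * ((n:ℝ)+1) * (1 - m.1)) :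
    tri k n m = 0 := by
  unfold tri
  apply max_eq_left
  apply le_trans (min_le_left _ _)
  linarith

lemma tri_zero_left {k : ℕ → ℕ} {n : ℕ} {m : M} (h : ((n:ℝ)+1) * m.2.1 ≤ kk k n - 1) :
    tri k n m = 0 := by
  unfold tri
  apply max_eq_left
  apply le_trans (min_le_right _ _)
  apply le_trans (min_le_left _ _)
  linarith

lemma tri_zero_right {k : ℕ → ℕ} {n : ℕ} {m : M} (h : kk k n + 2 ≤ ((n:ℝ)+1) * m.2.1) :
    tri k n m = 0 := by
  unfold tri
  apply max_eq_left
  apply le_trans (min_le_right _ _)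
  apply le_trans (min_le_right _ _)
  linarith

lemma sigA_small (a : DD) (m : M) (h : m.1 ≤ 1/2) : sigA a m = 0 := by
  rcases q_cases m.2.2.2 with hq | ⟨n, hq⟩
  · exact sigA_infty hq
  · rw [sigA_some hq]
    have : tri a.2 n m = 0 := by
      apply tri_zero_s
      have hn : (0:ℝ) ≤ n := Nat.cast_nonneg n
      nlinarith
    split_ifs
    · rfl
    · exact this
    · rfl

lemma nhds_infty_nat (N : ℕ) : ∀ᶠ q in 𝓝 (OnePoint.infty : OnePoint ℕ),
    ∀ n : ℕ, q = OnePoint.some n → N ≤ n := by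
  have h : ∀ j ∈ Finset.range N, ∀ᶠ q in 𝓝 (OnePoint.infty : OnePoint ℕ), q ≠ OnePoint.some j := by
    intro j _
    exact (isClopen_single j).1.isOpen_compl.mem_nhds (OnePoint.infty_ne_coe j)
  have h' := (Filter.eventually_all_finset (Finset.range N)).2 h
  filter_upwards [h'] with q hq n hn
  by_contra hcon
  push Not at hcon
  exact hq n (Finset.mem_range.2 hcon) hn

lemma sigA_eventually_zero {a : DD} {m : M} (hm : m.1 ≤ 1) (hq : m.2.2.2 = OnePoint.infty)
    (hz : m ≠ zA a) : ∀ᶠ m' in 𝓝 m, sigA a m' = 0 := by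
  have hlim : ∀ N, ∀ᶠ m' : M in 𝓝 m, ∀ n : ℕ, m'.2.2.2 = OnePoint.some n → N ≤ n := by
    intro N
    have hc : ContinuousAt (fun m' : M => m'.2.2.2) m :=
      (continuous_snd.comp (continuous_snd.comp continuous_snd)).continuousAt
    have h1 : Tendsto (fun m' : M => m'.2.2.2) (𝓝 m) (𝓝 OnePoint.infty) := by
      have := hc.tendsto
      rwa [hq] at this
    exact h1.eventually (nhds_infty_nat N)
  -- general reduction
  have hred : (∃ N : ℕ, ∀ᶠ m' : M in 𝓝 m, ∀ n : ℕ, N ≤ n → m'.2.2.2 = OnePoint.some n →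
      act a.2 n ≠ none → m' ∈ CN a n → tri a.2 n m' = 0) → ∀ᶠ m' in 𝓝 m, sigA a m' = 0 := by
    rintro ⟨N, hN⟩
    filter_upwards [hN, hlim N] with m' h1 h2
    rcases q_cases m'.2.2.2 with h | ⟨n, h⟩
    · exact sigA_infty h
    · rw [sigA_some h]
      split_ifs with h3 h4
      · rfl
      · exact h1 n (h2 n h) h h3 h4
      · rfl
  apply hred
  by_cases hs : m.1 = 1
  · by_cases hc : m.2.2.1 = OnePoint.some (br a)
    · have ht : m.2.1 ≠ rr a.2 := by
        intro ht
        apply hz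
        rw [zA, ← hs, ← ht, ← hc, ← hq]
      -- distance
      set ε := |m.2.1 - rr a.2| with hε
      have hεpos : 0 < ε := abs_pos.2 (sub_ne_zero.2 ht)
      obtain ⟨N1, hN1⟩ := act_conv a.2 (ε/4) (by linarith)
      obtain ⟨N2, hN2⟩ := exists_nat_gt (8/ε)
      refine ⟨max N1 N2, ?_⟩
      have hcont : ∀ᶠ m' : M in 𝓝 m, |m'.2.1 - m.2.1| < ε/4 := by
        have hc' : Continuous (fun m' : M => |m'.2.1 - m.2.1|) := by fun_prop
        have : Tendsto (fun m' : M => |m'.2.1 - m.2.1|) (𝓝 m) (𝓝 |m.2.1 - m.2.1|) :=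
          hc'.continuousAt
        rw [sub_self, abs_zero] at this
        exact this.eventually_lt_const (by linarith)
      filter_upwards [hcont] with m' hm' n hn _ hact _
      have h1 := hN1 n (le_trans (le_max_left _ _) hn) hact
      have h2 : 8/ε < (n:ℝ) + 1 := by
        have : (N2:ℝ) ≤ n := by exact_mod_cast le_trans (le_max_right _ _) hn
        linarith
      have hn1 : (0:ℝ) < (n:ℝ) + 1 := by positivity
      have h3 : 8 < ε * ((n:ℝ)+1) := by
        rw [div_lt_iff₀ hεpos] at h2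
        linarith
      -- lower bound on the distance
      have h4 : ε/2 < |m'.2.1 - (kk a.2 n : ℝ) / ((n:ℝ)+1)| := by
        have e1 : m.2.1 - rr a.2 = (m'.2.1 - (kk a.2 n : ℝ) / ((n:ℝ)+1)) - (m'.2.1 - m.2.1)
          + ((kk a.2 n : ℝ) / ((n:ℝ)+1) - rr a.2) := by ring
        have e2 : ε ≤ |m'.2.1 - (kk a.2 n : ℝ) / ((n:ℝ)+1)| + |m'.2.1 - m.2.1|
          + |(kk a.2 n : ℝ) / ((n:ℝ)+1) - rr a.2| := by
          rw [hε, e1]
          refine le_trans (abs_add_le _ _) ?_
          have := abs_sub (m'.2.1 - (kk a.2 n : ℝ) / ((n:ℝ)+1)) (m'.2.1 - m.2.1)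
          linarith
        linarith
      have h5 : ((n:ℝ)+1) * m'.2.1 - kk a.2 n =
          ((n:ℝ)+1) * (m'.2.1 - (kk a.2 n : ℝ) / ((n:ℝ)+1)) := by
        field_simp
      have h6 : 2 < |((n:ℝ)+1) * m'.2.1 - kk a.2 n| := by
        rw [h5, abs_mul, abs_of_pos hn1]
        nlinarith
      rcases lt_abs.1 h6 with h7 | h7
      · exact tri_zero_right (by linarith)
      · exact tri_zero_left (by linarith)
    · obtain ⟨G, hG, hcG, N, hN⟩ := nhds_avoid a m.2.2.1 hc
      refine ⟨N, ?_⟩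
      have hcont : ∀ᶠ m' : M in 𝓝 m, m'.2.2.1 ∈ G := by
        have hc' : Continuous (fun m' : M => m'.2.2.1) := by fun_prop
        exact hc'.continuousAt.eventually (hG.mem_nhds hcG)
      filter_upwards [hcont] with m' hm' n hn _ _ hcn
      exact absurd hcn (hN n hn _ hm')
  · have hs1 : m.1 < 1 := lt_of_le_of_ne hm hs
    obtain ⟨N, hN⟩ := exists_nat_gt (1/(1 - m.1))
    refine ⟨N, ?_⟩
    have hcont : ∀ᶠ m' : M in 𝓝 m, m'.1 < (1 + m.1)/2 :=
      continuous_fst.continuousAt.eventually_lt_const (by linarith)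
    filter_upwards [hcont] with m' hm' n hn _ _ _
    apply tri_zero_s
    have h1 : (0:ℝ) < 1 - m.1 := by linarith
    have h2 : 1 < N * (1 - m.1) := by
      rwa [div_lt_iff₀ h1] at hN
    have h3 : (N:ℝ) ≤ n := by exact_mod_cast hn
    nlinarith

lemma cont_sigA {a : DD} {m : M} (hm : m.1 ≤ 1) (hz : m ≠ zA a) : ContinuousAt (sigA a) m := by
  classical
  rcases q_cases m.2.2.2 with h | ⟨n, h⟩
  · have h1 := sigA_eventually_zero hm h hz
    refine (continuousAt_const (y := (0:ℝ))).congr ?_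
    filter_upwards [h1] with m' hm'
    exact hm'.symm
  · have hn : ∀ᶠ m' in 𝓝 m, m' ∈ LN n := (isClopen_LN n).2.mem_nhds h
    have h1 : ContinuousAt (fun m' => if act a.2 n = none then 0 else
      if m' ∈ CN a n then tri a.2 n m' else 0) m := by
      by_cases hact : act a.2 n = none
      · simp only [hact, if_true]
        exact continuousAt_const
      · simp only [hact, if_false]
        exact continuousAt_ite (isClopen_CN a n) (fun _ => (continuous_tri _ _).continuousAt)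
          (fun _ => continuousAt_const)
    refine h1.congr ?_
    filter_upwards [hn] with m' hm'
    rw [sigA_some hm']

lemma idxA_const {a : DD} {m : M} (hpos : 0 < sigA a m) :
    ∀ᶠ m' in 𝓝 m, idxA a m' = idxA a m := by
  rcases q_cases m.2.2.2 with h | ⟨n, h⟩
  · rw [sigA_infty h] at hpos
    exact absurd hpos (lt_irrefl _)
  · have hn : ∀ᶠ m' in 𝓝 m, m' ∈ LN n := (isClopen_LN n).2.mem_nhds h
    filter_upwards [hn] with m' hm'
    rw [idxA_some hm', idxA_some h]

/-! ### letters -/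

abbrev LL : Type := ℕ ⊕ DD

noncomputable def sig : LL → M → ℝ := Sum.elim sigN sigA
noncomputable def idx : LL → M → ℕ := Sum.elim idxN idxA
def ZL : LL → Set M := Sum.elim ZN (fun a => {m | m = zA a})

lemma sig_nonneg (l : LL) (m : M) : 0 ≤ sig l m := by
  rcases l with n | a
  · exact sigN_nonneg n m
  · exact sigA_nonneg a m

lemma sig_le_one (l : LL) (m : M) (hm : m.1 ≤ 1) : sig l m ≤ 1 := by
  rcases l with n | a
  · exact sigN_le_one n m
  · exact sigA_le_one a m hm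

lemma sig_small (l : LL) (m : M) (h : m.1 ≤ 1/2) : sig l m = 0 := by
  rcases l with n | a
  · exact sigN_small n m h
  · exact sigA_small a m h

lemma cont_sig {l : LL} {m : M} (hm : m.1 ≤ 1) (h : m ∉ ZL l) : ContinuousAt (sig l) m := by
  rcases l with n | a
  · exact cont_sigN h
  · exact cont_sigA hm h

lemma idx_const {l : LL} {m : M} (h : m ∉ ZL l) (hpos : 0 < sig l m) :
    ∀ᶠ m' in 𝓝 m, idx l m' = idx l m := by
  rcases l with n | a
  · exact idxN_const h hpos
  · exact idxA_const hpos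

/-! ### the dense sequence -/

noncomputable def enum : ℕ → ℚ × ℚ × List ℕ × ℕ :=
  Classical.choose (exists_surjective_nat (ℚ × ℚ × List ℕ × ℕ))

lemma enum_surj : Function.Surjective enum :=
  Classical.choose_spec (exists_surjective_nat (ℚ × ℚ × List ℕ × ℕ))

noncomputable def clip1 (x : ℚ) : ℚ := if 0 ≤ x ∧ x < 1 then x else 0
noncomputable def clip2 (x : ℚ) : ℚ := if 0 ≤ x ∧ x ≤ 1 then x else 0

lemma clip1_mem (x : ℚ) : 0 ≤ clip1 x ∧ clip1 x < 1 := by
  unfold clip1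
  split_ifs with h
  · exact h
  · norm_num

lemma clip2_mem (x : ℚ) : 0 ≤ clip2 x ∧ clip2 x ≤ 1 := by
  unfold clip2
  split_ifs with h
  · exact h
  · norm_num

noncomputable def e (i : ℕ) : M :=
  ((clip1 (enum i).1 : ℝ), (clip2 (enum i).2.1 : ℝ), OnePoint.some (nd (enum i).2.2.1),
    OnePoint.some (enum i).2.2.2)

lemma e_fst (i : ℕ) : 0 ≤ (e i).1 ∧ (e i).1 < 1 := by
  have := clip1_mem (enum i).1
  constructor
  · show (0:ℝ) ≤ (clip1 (enum i).1 : ℝ)
    exact_mod_cast this.1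
  · show (clip1 (enum i).1 : ℝ) < 1
    exact_mod_cast this.2

lemma e_snd (i : ℕ) : 0 ≤ (e i).2.1 ∧ (e i).2.1 ≤ 1 := by
  have := clip2_mem (enum i).2.1
  constructor
  · show (0:ℝ) ≤ (clip2 (enum i).2.1 : ℝ)
    exact_mod_cast this.1
  · show (clip2 (enum i).2.1 : ℝ) ≤ 1
    exact_mod_cast this.2

noncomputable def f (l : LL) (m : M) : M := scale (sig l m) (e (idx l m))

/-- regular points -/
def YY : Set M := {m | m ∈ MS ∧ ∀ l, m ∉ ZL l}

lemma mem_YY_of_lt {m : M} (h : m ∈ MS) (h1 : m.1 < 1) : m ∈ YY := by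
  refine ⟨h, fun l hl => ?_⟩
  rcases l with n | a
  · have h2 : 1 - m.1 ≤ dd n m := le_max_left _ _
    have h3 : dd n m = 0 := hl.2
    linarith
  · have h2 : m = zA a := hl
    rw [h2] at h1
    exact lt_irrefl _ h1

lemma scale_mem {σ : ℝ} (h0 : 0 ≤ σ) (h1 : σ ≤ 1) (i : ℕ) :
    scale σ (e i) ∈ MS ∧ (scale σ (e i)).1 < 1 := by
  have h2 := e_fst i
  have h3 := e_snd i
  have h4 : σ * (e i).1 < 1 := by nlinarith
  exact ⟨⟨⟨mul_nonneg h0 h2.1, h4.le⟩, h3⟩, h4⟩

lemma f_lt {l : LL} {m : M} (h : m.1 ≤ 1) : f l m ∈ MS ∧ (f l m).1 < 1 :=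
  scale_mem (sig_nonneg l m) (sig_le_one l m h) _

lemma f_mem {l : LL} {m : M} (h : m.1 ≤ 1) : f l m ∈ YY :=
  mem_YY_of_lt (f_lt h).1 (f_lt h).2

/-- the coordinates along words -/
noncomputable def iota : List LL → M → (JJ → ℝ)
  | [], m => E m
  | (l :: v), m => iota v (f l m)

lemma E_zero {m : M} (h : m.1 = 0) (h' : 0 ≤ m.2.1) : E m = 0 := by
  funext j
  rcases j with _ | _ | a | n
  · exact h
  · show min m.1 m.2.1 = 0
    rw [h]
    exact min_eq_left h'
  · rw [E_chi, h]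
    simp
  · rw [E_lev, h]
    simp

lemma iota_zero (v : List LL) : ∀ {m : M}, m.1 = 0 → 0 ≤ m.2.1 → iota v m = 0 := by
  induction v with
  | nil => intro m h h'; exact E_zero h h'
  | cons l v ih =>
    intro m h h'
    show iota v (f l m) = 0
    apply ih
    · show sig l m * _ = 0
      rw [sig_small l m (by rw [h]; norm_num), zero_mul]
    · exact (e_snd _).1

lemma E_bound {m : M} (h : 0 ≤ m.1) (h' : 0 ≤ m.2.1) (j : JJ) : |E m j| ≤ m.1 := by
  rcases j with _ | _ | a | n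
  · show |m.1| ≤ m.1
    rw [abs_of_nonneg h]
  · show |min m.1 m.2.1| ≤ m.1
    rw [abs_of_nonneg (le_min h h')]
    exact min_le_left _ _
  · rw [E_chi]
    split_ifs
    · rw [abs_of_nonneg h]
    · simpa using h
  · rw [E_lev]
    split_ifs
    · rw [abs_of_nonneg h]
    · simpa using h

lemma cont_step {v : List LL} (hv : ∀ m ∈ YY, ContinuousAt (iota v) m) {l : LL} {m : M}
    (hm : m ∈ MS) (hl : m ∉ ZL l) : ContinuousAt (iota (l :: v)) m := by
  have hm1 : m.1 ≤ 1 := hm.1.2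
  have hcs := cont_sig hm1 hl
  rcases (sig_nonneg l m).lt_or_eq with hpos | hzero
  · have h1 : ContinuousAt (fun m' => iota v (scale (sig l m') (e (idx l m)))) m := by
      have h2 : ContinuousAt (iota v) (scale (sig l m) (e (idx l m))) := hv _ (f_mem hm1)
      have h3 : ContinuousAt (fun m' => scale (sig l m') (e (idx l m))) m :=
        (continuous_scale _).continuousAt.comp hcs
      exact ContinuousAt.comp (g := iota v) (f := fun m' => scale (sig l m') (e (idx l m))) h2 h3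
    refine h1.congr ?_
    filter_upwards [idx_const hl hpos] with m' hm'
    show iota v (scale (sig l m') (e (idx l m))) = iota v (scale (sig l m') (e (idx l m')))
    rw [hm']
  · have hval : iota (l :: v) m = 0 := by
      show iota v (f l m) = 0
      apply iota_zero
      · show sig l m * _ = 0
        rw [← hzero, zero_mul]
      · exact (e_snd _).1
    have hsm : Tendsto (sig l) (𝓝 m) (𝓝 0) := by
      have := hcs.tendsto
      rwa [← hzero] at this
    unfold ContinuousAt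
    rw [hval]
    rcases v with _ | ⟨μ, v⟩
    · rw [tendsto_pi_nhds]
      intro j
      apply squeeze_zero_norm (a := fun m' => sig l m') _ hsm
      intro m'
      show |E (f l m') j| ≤ sig l m'
      have h0 := sig_nonneg l m'
      have h1 := e_fst (idx l m')
      refine le_trans (E_bound (m := f l m') ?_ (e_snd (idx l m')).1 j) ?_
      · exact mul_nonneg h0 h1.1
      · show sig l m' * (e (idx l m')).1 ≤ sig l m'
        nlinarith
    · have hev : ∀ᶠ m' in 𝓝 m, sig l m' < 1/2 := hsm.eventually_lt_const (by norm_num)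
      refine (tendsto_const_nhds (x := (0 : JJ → ℝ))).congr' ?_
      filter_upwards [hev] with m' hm'
      show (0 : JJ → ℝ) = iota v (f μ (f l m'))
      symm
      apply iota_zero
      · show sig μ (f l m') * _ = 0
        rw [sig_small μ, zero_mul]
        show sig l m' * _ ≤ 1/2
        have h0 := sig_nonneg l m'
        have h1 := e_fst (idx l m')
        nlinarith
      · exact (e_snd _).1

lemma cont_iota (v : List LL) : ∀ m ∈ YY, ContinuousAt (iota v) m := by
  induction v with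
  | nil => intro m _; exact continuous_E.continuousAt
  | cons l v ih =>
    intro m hm
    exact cont_step ih hm.1 (hm.2 l)

lemma cont_iota' (l : LL) (v : List LL) {m : M} (hm : m ∈ MS) (hl : m ∉ ZL l) :
    ContinuousAt (iota (l :: v)) m := cont_step (cont_iota v) hm hl



abbrev PP : Type := List LL → JJ → ℝ

noncomputable def io (m : M) : PP := fun v => iota v m

/-- the compact set -/
def K : Set PP := closure (io '' YY)

lemma io_mem {m : M} (hm : m ∈ YY) : io m ∈ K := subset_closure ⟨m, hm, rfl⟩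

lemma cont_io {m : M} (hm : m ∈ YY) : ContinuousAt io m := by
  rw [continuousAt_pi]
  intro v
  exact cont_iota v m hm

lemma ZL_unique {l μ : LL} {z : M} (h1 : z ∈ ZL l) (h2 : z ∈ ZL μ) : l = μ := by
  rcases l with n | a <;> rcases μ with n' | a'
  · have e1 : z.2.2.2 = OnePoint.some n := h1.1
    have e2 : z.2.2.2 = OnePoint.some n' := h2.1
    rw [e1, OnePoint.coe_eq_coe] at e2
    rw [e2]
  · have e1 : z.2.2.2 = OnePoint.some n := h1.1
    have e2 : z = zA a' := h2
    rw [e2] at e1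
    exact absurd e1 (OnePoint.infty_ne_coe n)
  · have e1 : z = zA a := h1
    have e2 : z.2.2.2 = OnePoint.some n' := h2.1
    rw [e1] at e2
    exact absurd e2 (OnePoint.infty_ne_coe n')
  · have e1 : z = zA a := h1
    have e2 : z = zA a' := h2
    rw [e1] at e2
    have e3 : (OnePoint.some (br a) : OnePoint Psi) = OnePoint.some (br a') :=
      congrArg (fun m : M => m.2.2.1) e2
    rw [OnePoint.coe_eq_coe] at e3
    rw [br_inj e3]

open Classical in
noncomputable def jz (l : LL) (z : M) (ξ : PP) : PP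
  | [] => E z
  | (μ :: v) => if μ = l then ξ v else iota (μ :: v) z

open Classical in
lemma jz_cons (l : LL) (z : M) (ξ : PP) (μ : LL) (v : List LL) :
    jz l z ξ (μ :: v) = if μ = l then ξ v else iota (μ :: v) z := rfl

lemma jz_nil (l : LL) (z : M) (ξ : PP) : jz l z ξ [] = E z := rfl

lemma jz_same (l : LL) (z : M) (ξ : PP) (v : List LL) : jz l z ξ (l :: v) = ξ v := by
  rw [jz_cons, if_pos rfl]

lemma jz_ne {l μ : LL} (h : μ ≠ l) (z : M) (ξ : PP) (v : List LL) :
    jz l z ξ (μ :: v) = iota (μ :: v) z := by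
  rw [jz_cons, if_neg h]

lemma continuous_jz (l : LL) (z : M) : Continuous (jz l z) := by
  rw [continuous_pi_iff]
  intro v
  rcases v with _ | ⟨μ, v⟩
  · exact continuous_const
  · by_cases h : μ = l
    · subst h
      simp only [jz_same]
      exact continuous_apply v
    · simp only [jz_ne h]
      exact continuous_const

/-- density of the sequence -/
lemma dense_real {x ε : ℝ} (hx : 0 ≤ x) (hx' : x ≤ 1) (hε : 0 < ε) :
    ∃ q : ℚ, 0 ≤ q ∧ q < 1 ∧ |(q:ℝ) - x| < ε := by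
  obtain ⟨q, hq1, hq2⟩ := exists_rat_btwn (show max (x - ε) 0 < min (x + ε) 1 by
    apply max_lt <;> apply lt_min <;> linarith)
  refine ⟨q, ?_, ?_, ?_⟩
  · have : (0:ℝ) < q := lt_of_le_of_lt (le_max_right _ _) hq1
    exact_mod_cast this.le
  · have : (q:ℝ) < 1 := lt_of_lt_of_le hq2 (min_le_right _ _)
    exact_mod_cast this
  · have h1 : x - ε < q := lt_of_le_of_lt (le_max_left _ _) hq1
    have h2 : (q:ℝ) < x + ε := lt_of_lt_of_le hq2 (min_le_left _ _)
    rw [abs_lt]
    constructor <;> linarith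

lemma dense_e {m : M} (hm : m ∈ MS) : m ∈ closure (Set.range e) := by
  rw [mem_closure_iff_nhds]
  intro G hG
  obtain ⟨s, t, c, q⟩ := m
  rw [nhds_prod_eq, Filter.mem_prod_iff] at hG
  obtain ⟨A, hA, G1, hG1, hAG⟩ := hG
  rw [nhds_prod_eq, Filter.mem_prod_iff] at hG1
  obtain ⟨B, hB, G2, hG2, hBG⟩ := hG1
  rw [nhds_prod_eq, Filter.mem_prod_iff] at hG2
  obtain ⟨C, hC, Q, hQ, hCG⟩ := hG2
  obtain ⟨ε1, hε1, hA'⟩ := Metric.mem_nhds_iff.1 hA
  obtain ⟨ε2, hε2, hB'⟩ := Metric.mem_nhds_iff.1 hB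
  obtain ⟨x, hx0, hx1, hx2⟩ := dense_real hm.1.1 hm.1.2 hε1
  obtain ⟨y, hy0, hy1, hy2⟩ := dense_real hm.2.1 hm.2.2 hε2
  obtain ⟨C', hC', hC'o, hcC'⟩ := mem_nhds_iff.1 hC
  obtain ⟨l, hl⟩ := dense_nd C' hC'o ⟨c, hcC'⟩
  obtain ⟨n, hn⟩ : ∃ n : ℕ, (OnePoint.some n : OnePoint ℕ) ∈ Q := by
    rcases q_cases q with h | ⟨n, h⟩
    · subst h
      have ht : Tendsto ((↑) : ℕ → OnePoint ℕ) (Filter.coclosedCompact ℕ) (𝓝 OnePoint.infty) :=
        OnePoint.tendsto_coe_infty
      rw [Filter.coclosedCompact_eq_cocompact, Filter.cocompact_eq_cofinite,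
        Nat.cofinite_eq_atTop] at ht
      exact (ht.eventually hQ).exists
    · subst h
      exact ⟨n, mem_of_mem_nhds hQ⟩
  obtain ⟨i, hi⟩ := enum_surj (x, y, l, n)
  refine ⟨e i, ?_, ⟨i, rfl⟩⟩
  have he : e i = ((x:ℝ), (y:ℝ), OnePoint.some (nd l), OnePoint.some n) := by
    unfold e
    rw [hi]
    simp only [clip1, clip2]
    rw [if_pos ⟨hx0, hx1⟩, if_pos ⟨hy0, hy1.le⟩]
  rw [he]
  apply hAG
  refine ⟨hA' ?_, hBG ⟨hB' ?_, hCG ⟨hC' hl, hn⟩⟩⟩
  · rw [Metric.mem_ball, Real.dist_eq]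
    exact hx2
  · rw [Metric.mem_ball, Real.dist_eq]
    exact hy2

lemma e_mem (i : ℕ) : e i ∈ YY := by
  apply mem_YY_of_lt
  · exact ⟨⟨(e_fst i).1, (e_fst i).2.le⟩, e_snd i⟩
  · exact (e_fst i).2

lemma K_sub : K ⊆ closure (Set.range (fun i => io (e i))) := by
  unfold K
  apply closure_minimal _ isClosed_closure
  rintro _ ⟨m, hm, rfl⟩
  have h1 := (cont_io hm).continuousWithinAt.mem_closure_image (dense_e hm.1)
  rw [← Set.range_comp] at h1
  exact h1

/-- an open set containing `jz l z ξ` contains some `jz l z (io (e i))` -/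
lemma open_jz {l : LL} {z : M} {ξ : PP} (hξ : ξ ∈ K) {O : Set PP} (hO : IsOpen O)
    (h : jz l z ξ ∈ O) : ∃ i, jz l z (io (e i)) ∈ O := by
  have h1 : IsOpen (jz l z ⁻¹' O) := hO.preimage (continuous_jz l z)
  have h2 := mem_closure_iff.1 (K_sub hξ) _ h1 h
  obtain ⟨_, hx, ⟨i, rfl⟩⟩ := h2
  exact ⟨i, hx⟩

lemma lim_jz {l : LL} {z : M} (hz : z ∈ MS) (hzl : z ∈ ZL l) (i : ℕ) {𝒩 : Filter ℕ} {y : ℕ → M}
    (hy : Tendsto y 𝒩 (𝓝 z)) (hf : ∀ᶠ u in 𝒩, f l (y u) = e i) :
    Tendsto (fun u => io (y u)) 𝒩 (𝓝 (jz l z (io (e i)))) := by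
  rw [tendsto_pi_nhds]
  intro v
  rcases v with _ | ⟨μ, v⟩
  · exact (continuous_E.tendsto z).comp hy
  · by_cases h : μ = l
    · subst h
      rw [jz_same]
      refine tendsto_const_nhds.congr' ?_
      filter_upwards [hf] with u hu
      show iota v (e i) = iota v (f μ (y u))
      rw [hu]
    · rw [jz_ne h]
      have hc : ContinuousAt (iota (μ :: v)) z := by
        apply cont_iota' μ v hz
        intro hcon
        exact h (ZL_unique hcon hzl)
      exact hc.tendsto.comp hy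

/-! ### approaching the singular points -/

noncomputable def pt (n : ℕ) (t : ℝ) (c : OnePoint Psi) : M := (1, t, c, OnePoint.some n)

lemma dd_pt (n : ℕ) (t : ℝ) (c : OnePoint Psi) : dd n (pt n t c) = dz (((n:ℝ)+1) * t) := by
  unfold dd pt
  simp only [sub_self]
  exact max_eq_right (dz_nonneg _)

lemma pt_MS {n : ℕ} {t : ℝ} {c : OnePoint Psi} (h0 : 0 ≤ t) (h1 : t ≤ 1) : pt n t c ∈ MS :=
  ⟨⟨zero_le_one, le_rfl⟩, ⟨h0, h1⟩⟩

lemma pt_YY {n : ℕ} {t : ℝ} {c : OnePoint Psi} (h0 : 0 ≤ t) (h1 : t ≤ 1)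
    (hd : dz (((n:ℝ)+1) * t) ≠ 0) : pt n t c ∈ YY := by
  refine ⟨pt_MS h0 h1, fun l hl => ?_⟩
  rcases l with n' | a
  · obtain ⟨e1, e2⟩ := hl
    have e3 : (OnePoint.some n : OnePoint ℕ) = OnePoint.some n' := e1
    rw [OnePoint.coe_eq_coe] at e3
    subst e3
    rw [dd_pt] at e2
    exact hd e2
  · have e1 : pt n t c = zA a := hl
    have e2 : (OnePoint.some n : OnePoint ℕ) = OnePoint.infty := congrArg (fun m : M => m.2.2.2) e1
    exact OnePoint.coe_ne_infty n e2

/-- index realising `e i` at scale `u` -/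
def ww (i u : ℕ) : ℕ := Nat.pair i (u + 2)

lemma ww_ge (i u : ℕ) : u + 2 ≤ ww i u := Nat.right_le_pair i (u+2)

noncomputable def du (i u : ℕ) : ℝ := ((ww i u : ℝ) + 1/2)⁻¹

lemma du_pos (i u : ℕ) : 0 < du i u := by
  unfold du
  positivity

lemma du_lt (i u : ℕ) : du i u < 1/2 := by
  unfold du
  have h := ww_ge i u
  have h' : (2:ℝ) ≤ (ww i u : ℝ) := by exact_mod_cast (by omega : 2 ≤ ww i u)
  rw [inv_lt_comm₀ (by positivity) (by norm_num)]
  linarith

lemma du_tendsto (i : ℕ) : Tendsto (du i) atTop (𝓝 0) := by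
  have h1 : Tendsto (fun u : ℕ => ((u:ℝ))) atTop atTop := tendsto_natCast_atTop_atTop
  have h2 : Tendsto (fun u => ((ww i u : ℝ) + 1/2)) atTop atTop := by
    apply tendsto_atTop_mono _ h1
    intro u
    have := ww_ge i u
    have h' : ((u:ℝ)) + 2 ≤ (ww i u : ℝ) := by exact_mod_cast this
    linarith
  exact tendsto_inv_atTop_zero.comp h2

lemma f_of_dd {n : ℕ} {m : M} (hm : m ∈ LN n) {i u : ℕ} (h : dd n m = du i u) :
    f (Sum.inl n) m = e i := by
  have h1 : xx n m = (ww i u : ℝ) + 1/2 := by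
    unfold xx
    rw [h, min_eq_left (du_lt i u).le, du, inv_inv]
  have h2 : sigN n m = 1 := by
    unfold sigN
    rw [if_pos hm, h1]
    have : dz ((ww i u : ℝ) + 1/2) = 1/2 := by
      have := dz_half (ww i u : ℤ)
      simpa using this
    rw [this]
    norm_num
  have h3 : idxN n m = i := by
    unfold idxN
    rw [h1]
    have : ⌊(ww i u : ℝ) + 1/2⌋₊ = ww i u := by
      rw [Nat.floor_eq_iff (by positivity)]
      constructor <;> linarith
    rw [this, ww, Nat.unpair_pair]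
  show scale (sigN n m) (e (idxN n m)) = e i
  rw [h2, h3]
  unfold scale
  rw [one_mul]

/-- one-sided approach to a singular point of the first kind -/
lemma approachN {n : ℕ} {c : OnePoint Psi} {j : ℕ} {ξ : PP} (hj : j ≤ n + 1) (hξ : ξ ∈ K)
    {O : Set PP} (hO : IsOpen O)
    (h : jz (Sum.inl n) (pt n ((j:ℝ)/((n:ℝ)+1)) c) ξ ∈ O) {σ : ℝ} (hσ : σ = 1 ∨ σ = -1)
    {ε : ℝ} (hε : 0 < ε) :
    ∃ δ, 0 < δ ∧ δ < ε ∧ δ < 1/2 ∧ io (pt n (((j:ℝ) + σ * δ)/((n:ℝ)+1)) c) ∈ O := by
  obtain ⟨i, hi⟩ := open_jz hξ hO h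
  have hn1 : (0:ℝ) < (n:ℝ) + 1 := by positivity
  have hσ' : |σ| = 1 := by
    rcases hσ with rfl | rfl <;> simp
  have hz : pt n ((j:ℝ)/((n:ℝ)+1)) c ∈ MS := by
    apply pt_MS (by positivity)
    rw [div_le_one hn1]
    exact_mod_cast hj
  have hzl : pt n ((j:ℝ)/((n:ℝ)+1)) c ∈ ZL (Sum.inl n) := by
    refine ⟨rfl, ?_⟩
    rw [dd_pt, dz_eq_zero]
    refine ⟨j, ?_⟩
    push_cast
    field_simp
  have hy : Tendsto (fun u => pt n (((j:ℝ) + σ * du i u)/((n:ℝ)+1)) c) atTop
      (𝓝 (pt n ((j:ℝ)/((n:ℝ)+1)) c)) := by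
    have hc : Continuous (fun x : ℝ => pt n (((j:ℝ) + σ * x)/((n:ℝ)+1)) c) := by
      unfold pt
      fun_prop
    have := (hc.tendsto 0).comp (du_tendsto i)
    simpa [Function.comp_def] using this
  have hf : ∀ᶠ u in atTop, f (Sum.inl n) (pt n (((j:ℝ) + σ * du i u)/((n:ℝ)+1)) c) = e i := by
    apply Eventually.of_forall
    intro u
    apply f_of_dd (u := u) rfl
    rw [dd_pt]
    have h1 : ((n:ℝ)+1) * (((j:ℝ) + σ * du i u)/((n:ℝ)+1)) = ((j:ℤ):ℝ) + σ * du i u := by
      push_cast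
      field_simp
    have h2 : |σ * du i u| = du i u := by
      rw [abs_mul, hσ', one_mul, abs_of_pos (du_pos i u)]
    rw [h1, dz_add _ _ (by rw [h2]; exact du_lt i u), h2]
  have hlim := lim_jz hz hzl i hy hf
  have hev := hlim.eventually (hO.mem_nhds hi)
  have hev2 : ∀ᶠ u in atTop, du i u < ε := (du_tendsto i).eventually_lt_const hε
  obtain ⟨u, hu1, hu2⟩ := (hev.and hev2).exists
  exact ⟨du i u, du_pos i u, hu2, du_lt i u, hu1⟩

/-- approach to a singular point of the second kind -/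
lemma approachA (a : DD) (i : ℕ) (t : ℕ → ℝ)
    (ht : ∀ n, (kk a.2 n : ℝ) ≤ ((n:ℝ)+1) * t n ∧ ((n:ℝ)+1) * t n ≤ kk a.2 n + 1) :
    Tendsto (fun n => io (pt n (t n) (OnePoint.some (br a))))
      (atTop ⊓ 𝓟 {n | act a.2 n = some i}) (𝓝 (jz (Sum.inr a) (zA a) (io (e i)))) := by
  have hzMS : zA a ∈ MS := ⟨⟨zero_le_one, le_rfl⟩, ⟨rr_nonneg _, rr_le_one _⟩⟩
  apply lim_jz hzMS (by rfl) i
  · -- convergence
    unfold pt zA
    have ht' : Tendsto t (atTop ⊓ 𝓟 {n | act a.2 n = some i}) (𝓝 (rr a.2)) := by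
      rw [Metric.tendsto_nhds]
      intro ε hε
      obtain ⟨N1, hN1⟩ := act_conv a.2 (ε/2) (by linarith)
      obtain ⟨N2, hN2⟩ := exists_nat_gt (2/ε)
      rw [eventually_inf_principal]
      filter_upwards [eventually_ge_atTop (max N1 N2)] with n hn hact
      have h1 := hN1 n (le_trans (le_max_left _ _) hn) (by
        have : act a.2 n = some i := hact
        rw [this]
        simp)
      have hn1 : (0:ℝ) < (n:ℝ) + 1 := by positivity
      have h2 : 2/ε < (n:ℝ) + 1 := by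
        have : (N2:ℝ) ≤ n := by exact_mod_cast le_trans (le_max_right _ _) hn
        linarith
      have h3 : 2 < ε * ((n:ℝ)+1) := by
        rw [div_lt_iff₀ hε] at h2
        linarith
      rw [Real.dist_eq]
      have h4 : |t n - (kk a.2 n : ℝ)/((n:ℝ)+1)| ≤ 1/((n:ℝ)+1) := by
        have e1 : t n - (kk a.2 n : ℝ)/((n:ℝ)+1) = (((n:ℝ)+1) * t n - kk a.2 n)/((n:ℝ)+1) := by
          field_simp
        rw [e1, abs_div, abs_of_pos hn1]
        apply div_le_div_of_nonneg_right _ hn1.le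
        rw [abs_le]
        constructor <;> linarith [(ht n).1, (ht n).2]
      have h5 : 1/((n:ℝ)+1) < ε/2 := by
        rw [div_lt_iff₀ hn1]
        linarith
      calc |t n - rr a.2| = |(t n - (kk a.2 n : ℝ)/((n:ℝ)+1)) + ((kk a.2 n : ℝ)/((n:ℝ)+1) - rr a.2)| := by
            ring_nf
        _ ≤ |t n - (kk a.2 n : ℝ)/((n:ℝ)+1)| + |(kk a.2 n : ℝ)/((n:ℝ)+1) - rr a.2| := abs_add_le _ _
        _ < ε := by linarith
    have hq : Tendsto (fun n : ℕ => (OnePoint.some n : OnePoint ℕ))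
        (atTop ⊓ 𝓟 {n | act a.2 n = some i}) (𝓝 OnePoint.infty) := by
      have ht : Tendsto ((↑) : ℕ → OnePoint ℕ) (Filter.coclosedCompact ℕ) (𝓝 OnePoint.infty) :=
        OnePoint.tendsto_coe_infty
      rw [Filter.coclosedCompact_eq_cocompact, Filter.cocompact_eq_cofinite,
        Nat.cofinite_eq_atTop] at ht
      exact ht.mono_left inf_le_left
    exact tendsto_const_nhds.prodMk_nhds (ht'.prodMk_nhds (tendsto_const_nhds.prodMk_nhds hq))
  · rw [eventually_inf_principal]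
    apply Eventually.of_forall
    intro n hact
    have hact' : act a.2 n = some i := hact
    have hq : (pt n (t n) (OnePoint.some (br a))).2.2.2 = OnePoint.some n := rfl
    have hC : pt n (t n) (OnePoint.some (br a)) ∈ CN a n := br_mem_OO.2 rfl
    have h1 : sigA a (pt n (t n) (OnePoint.some (br a))) = 1 := by
      rw [sigA_some hq, if_neg (by rw [hact']; simp), if_pos hC]
      unfold tri pt
      simp only [sub_self, mul_zero, sub_zero]
      have h2 : (1:ℝ) ≤ min (1 + ((n:ℝ)+1) * t n - kk a.2 n) (kk a.2 n + 2 - ((n:ℝ)+1) * t n) := by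
        apply le_min <;> linarith [(ht n).1, (ht n).2]
      rw [min_eq_left h2]
      exact max_eq_right zero_le_one
    have h2 : idxA a (pt n (t n) (OnePoint.some (br a))) = i := by
      rw [idxA_some hq, hact']
      rfl
    show scale (sigA a (pt n (t n) (OnePoint.some (br a))))
      (e (idxA a (pt n (t n) (OnePoint.some (br a))))) = e i
    rw [h1, h2]
    unfold scale
    rw [one_mul]

lemma neBot_act (k : ℕ → ℕ) (i : ℕ) : NeBot (atTop ⊓ 𝓟 {n | act k n = some i}) := by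
  rw [← frequently_iff_neBot, frequently_atTop]
  intro N
  exact act_freq k i N

/-! ### the maps `jz` preserve the compact set -/

lemma jz_mem {l : LL} {z : M} (hz : z ∈ MS) (hzl : z ∈ ZL l) {ξ : PP} (hξ : ξ ∈ K) :
    jz l z ξ ∈ K := by
  have hcl : IsClosed K := isClosed_closure
  by_contra hcon
  obtain ⟨i, hi⟩ := open_jz hξ hcl.isOpen_compl hcon
  rcases l with n | a
  · -- first kind
    obtain ⟨s, t, c, q⟩ := z
    obtain ⟨e1, e2⟩ := hzl
    have e1' : q = OnePoint.some n := e1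
    subst e1'
    have hs : s = 1 := by
      have h1 : 1 - s ≤ 0 := by
        have h2 : 1 - s ≤ dd n (s, t, c, OnePoint.some n) := le_max_left _ _
        rw [e2] at h2
        exact h2
      have h3 : s ≤ 1 := hz.1.2
      linarith
    subst hs
    have hdz : dz (((n:ℝ)+1) * t) = 0 := by
      have := dd_pt n t c
      unfold pt at this
      rw [← this]
      exact e2
    obtain ⟨k, hk⟩ := dz_eq_zero.1 hdz
    have hn1 : (0:ℝ) < (n:ℝ) + 1 := by positivity
    have ht0 : 0 ≤ t := hz.2.1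
    have ht1 : t ≤ 1 := hz.2.2
    have hk0 : 0 ≤ k := by
      have : (0:ℝ) ≤ k := by rw [← hk]; positivity
      exact_mod_cast this
    obtain ⟨j, rfl⟩ := Int.eq_ofNat_of_zero_le hk0
    have hj : j ≤ n + 1 := by
      have : (j:ℝ) ≤ (n:ℝ) + 1 := by
        push_cast at hk
        rw [← hk]
        nlinarith
      exact_mod_cast this
    have htj : t = (j:ℝ)/((n:ℝ)+1) := by
      push_cast at hk
      field_simp
      linarith
    subst htj
    -- choose the side
    obtain ⟨σ, hσ, hside⟩ : ∃ σ : ℝ, (σ = 1 ∨ σ = -1) ∧ ∀ δ : ℝ, 0 < δ → δ < 1/2 →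
        0 ≤ ((j:ℝ) + σ * δ)/((n:ℝ)+1) ∧ ((j:ℝ) + σ * δ)/((n:ℝ)+1) ≤ 1 := by
      rcases Nat.eq_zero_or_pos j with h0 | h0
      · subst h0
        refine ⟨1, Or.inl rfl, fun δ hδ hδ' => ?_⟩
        constructor
        · positivity
        · rw [div_le_one hn1]
          push_cast
          have : (0:ℝ) ≤ n := Nat.cast_nonneg n
          linarith
      · refine ⟨-1, Or.inr rfl, fun δ hδ hδ' => ?_⟩
        have h1 : (1:ℝ) ≤ j := by exact_mod_cast h0
        have h2 : (j:ℝ) ≤ (n:ℝ) + 1 := by exact_mod_cast hj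
        constructor
        · apply div_nonneg _ hn1.le
          linarith
        · rw [div_le_one hn1]
          linarith
    obtain ⟨δ, hδ0, _, hδ1, hδ⟩ := approachN hj hξ hcl.isOpen_compl hcon hσ one_pos
    apply hδ
    apply io_mem
    obtain ⟨h1, h2⟩ := hside δ hδ0 hδ1
    apply pt_YY h1 h2
    have h3 : ((n:ℝ)+1) * (((j:ℝ) + σ * δ)/((n:ℝ)+1)) = ((j:ℤ):ℝ) + σ * δ := by
      push_cast
      field_simp
    have h4 : |σ * δ| = δ := by
      rw [abs_mul, abs_of_pos hδ0]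
      rcases hσ with rfl | rfl <;> simp
    rw [h3, dz_add _ _ (by rw [h4]; exact hδ1), h4]
    exact hδ0.ne'
  · have hza : z = zA a := hzl
    subst hza
    have hlim := approachA a i (fun n => ((kk a.2 n : ℝ) + 1/2)/((n:ℝ)+1)) (by
      intro n
      have hn1 : (0:ℝ) < (n:ℝ) + 1 := by positivity
      have : ((n:ℝ)+1) * (((kk a.2 n : ℝ) + 1/2)/((n:ℝ)+1)) = (kk a.2 n : ℝ) + 1/2 := by
        field_simp
      rw [this]
      constructor <;> linarith)
    have := neBot_act a.2 i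
    have hmem : jz (Sum.inr a) (zA a) (io (e i)) ∈ K := by
      apply hcl.mem_of_tendsto hlim
      apply Eventually.of_forall
      intro n
      apply io_mem
      have hn1 : (0:ℝ) < (n:ℝ) + 1 := by positivity
      have hk : ((kk a.2 n : ℕ):ℝ) ≤ n := by exact_mod_cast kk_le a.2 n
      apply pt_YY
      · positivity
      · rw [div_le_one hn1]
        linarith
      · have : ((n:ℝ)+1) * (((kk a.2 n : ℝ) + 1/2)/((n:ℝ)+1)) = ((kk a.2 n : ℤ):ℝ) + 1/2 := by
          push_cast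
          field_simp
        rw [this, dz_half]
        norm_num
    exact hi hmem

/-! ### classification of the points -/

lemma isCompact_MS : IsCompact MS := by
  have : MS = (Icc (0:ℝ) 1) ×ˢ ((Icc (0:ℝ) 1) ×ˢ (Set.univ : Set (OnePoint Psi × OnePoint ℕ))) := by
    ext ⟨s, t, c, q⟩
    simp [MS, Set.mem_prod]
  rw [this]
  exact isCompact_Icc.prod (isCompact_Icc.prod isCompact_univ)

lemma K_cases {ξ : PP} (hξ : ξ ∈ K) : (∃ m ∈ YY, ξ = io m) ∨
    (∃ l z, z ∈ MS ∧ z ∈ ZL l ∧ ∃ ξ' ∈ K, ξ = jz l z ξ') := by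
  have h1 : MapClusterPt ξ (𝓟 YY) io := by
    have := mem_closure_iff_clusterPt.1 hξ
    rwa [← Filter.map_principal] at this
  obtain ⟨U, hU, hlim⟩ := mapClusterPt_iff_ultrafilter.1 h1
  have hUY : YY ∈ (U : Filter M) := hU (mem_principal_self _)
  have hUMS : (U : Filter M) ≤ 𝓟 MS := by
    rw [le_principal_iff]
    filter_upwards [hUY] with m hm
    exact hm.1
  obtain ⟨m, hm, hUm⟩ := isCompact_MS.ultrafilter_le_nhds U hUMS
  have hlimv : ∀ v, Tendsto (iota v) U (𝓝 (ξ v)) := fun v => (tendsto_pi_nhds.1 hlim) v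
  by_cases hY : m ∈ YY
  · left
    refine ⟨m, hY, ?_⟩
    funext v
    exact tendsto_nhds_unique (hlimv v) ((cont_iota v m hY).tendsto.mono_left hUm)
  · right
    have : ∃ l, m ∈ ZL l := by
      by_contra hcon
      push Not at hcon
      exact hY ⟨hm, hcon⟩
    obtain ⟨l, hl⟩ := this
    refine ⟨l, m, hm, hl, fun v => ξ (l :: v), ?_, ?_⟩
    · have ht : Tendsto (fun m' => io (f l m')) U (𝓝 (fun v => ξ (l :: v))) := by
        rw [tendsto_pi_nhds]
        intro v
        exact hlimv (l :: v)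
      apply mem_closure_of_tendsto ht
      filter_upwards [hUY] with m' hm'
      exact ⟨f l m', f_mem hm'.1.1.2, rfl⟩
    · funext v
      rcases v with _ | ⟨μ, v⟩
      · exact tendsto_nhds_unique (hlimv []) ((continuous_E.tendsto m).mono_left hUm)
      · by_cases h : μ = l
        · subst h
          rw [jz_same]
        · rw [jz_ne h]
          have hc : ContinuousAt (iota (μ :: v)) m := by
            apply cont_iota' μ v hm
            intro hcon
            exact h (ZL_unique hcon hl)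
          exact tendsto_nhds_unique (hlimv (μ :: v)) (hc.tendsto.mono_left hUm)



noncomputable def m0 : M := (1, 0, OnePoint.infty, OnePoint.infty)

lemma m0_YY : m0 ∈ YY := by
  refine ⟨⟨⟨zero_le_one, le_rfl⟩, ⟨le_rfl, zero_le_one⟩⟩, fun l hl => ?_⟩
  rcases l with n | a
  · have h : (OnePoint.infty : OnePoint ℕ) = OnePoint.some n := hl.1
    exact OnePoint.infty_ne_coe n h
  · have h : m0 = zA a := hl
    have h' : (OnePoint.infty : OnePoint Psi) = OnePoint.some (br a) :=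
      congrArg (fun m : M => m.2.2.1) h
    exact OnePoint.infty_ne_coe _ h'

def edge (n k : ℕ) : Set ℝ := Ioo ((k:ℝ)/((n:ℝ)+1)) (((k:ℝ)+1)/((n:ℝ)+1))

lemma edge_bd {n k : ℕ} {t : ℝ} (ht : t ∈ edge n k) :
    (k:ℝ) < ((n:ℝ)+1) * t ∧ ((n:ℝ)+1) * t < (k:ℝ) + 1 := by
  have hn1 : (0:ℝ) < (n:ℝ) + 1 := by positivity
  obtain ⟨h1, h2⟩ := ht
  rw [div_lt_iff₀ hn1] at h1
  rw [lt_div_iff₀ hn1] at h2
  constructor <;> linarith

lemma edge_mem {n k : ℕ} (hk : k ≤ n) {t : ℝ} (ht : t ∈ edge n k) :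
    0 ≤ t ∧ t ≤ 1 ∧ dz (((n:ℝ)+1) * t) ≠ 0 := by
  have hn1 : (0:ℝ) < (n:ℝ) + 1 := by positivity
  obtain ⟨h1, h2⟩ := edge_bd ht
  have hk' : (k:ℝ) ≤ n := by exact_mod_cast hk
  have hk0 : (0:ℝ) ≤ k := Nat.cast_nonneg k
  refine ⟨?_, ?_, ?_⟩
  · by_contra hcon
    push Not at hcon
    nlinarith
  · by_contra hcon
    push Not at hcon
    nlinarith
  · intro h0
    obtain ⟨j, hj⟩ := dz_eq_zero.1 h0
    rw [hj] at h1 h2
    have h3 : (k:ℤ) < j := by exact_mod_cast h1
    have h4 : j < (k:ℤ) + 1 := by exact_mod_cast h2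
    omega

lemma edge_YY {n k : ℕ} (hk : k ≤ n) {t : ℝ} (ht : t ∈ edge n k) (c : OnePoint Psi) :
    pt n t c ∈ YY := by
  obtain ⟨h1, h2, h3⟩ := edge_mem hk ht
  exact pt_YY h1 h2 h3

lemma finite_exc {n : ℕ} {t : ℝ} (h : pt n t OnePoint.infty ∈ YY) {O : Set PP} (hO : IsOpen O)
    (hm : io (pt n t OnePoint.infty) ∈ O) :
    {a : DD | io (pt n t (OnePoint.some (br a))) ∉ O}.Finite := by
  have hc : ContinuousAt (fun c : OnePoint Psi => io (pt n t c)) OnePoint.infty := by
    have h1 : ContinuousAt (fun c : OnePoint Psi => pt n t c) OnePoint.infty := by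
      unfold pt
      exact Continuous.continuousAt (by fun_prop)
    exact ContinuousAt.comp (g := io) (f := fun c : OnePoint Psi => pt n t c) (cont_io h) h1
  obtain ⟨G, hG, hGo, hGm⟩ := mem_nhds_iff.1 (hc.eventually (hO.mem_nhds hm))
  refine (finite_compl_br G hGo hGm).subset ?_
  intro a ha hcon
  exact ha (hG hcon)

lemma not_countable_seq : ¬ (Set.univ : Set (ℕ → ℕ)).Countable := by
  intro h
  have h' : Countable (ℕ → ℕ) := Set.countable_univ_iff.1 h
  obtain ⟨g, hg⟩ := exists_surjective_nat (ℕ → ℕ)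
  obtain ⟨n, hn⟩ := hg (fun n => g n n + 1)
  have := congrFun hn n
  simp at this

theorem key {U W : Set PP} (hU : IsOpen U) (hW : IsOpen W)
    (hd : ∀ ξ ∈ K, ξ ∈ U → ξ ∉ W) (h0 : io m0 ∈ U)
    (h1 : ∀ m ∈ YY, 1/2 < min m.1 m.2.1 → io m ∈ W)
    (hz : ∀ l z, z ∈ MS → z ∈ ZL l → ∃ ξ ∈ K, jz l z ξ ∈ U ∪ W) : False := by
  classical
  -- start
  obtain ⟨N0, hN0⟩ : ∃ N0 : ℕ, ∀ n, N0 ≤ n → ∃ t ∈ edge n 0, io (pt n t OnePoint.infty) ∈ U := by
    have hc : ContinuousAt (fun p : ℝ × OnePoint ℕ => io ((1, p.1, OnePoint.infty, p.2) : M))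
        (0, OnePoint.infty) := by
      have h2 : ContinuousAt (fun p : ℝ × OnePoint ℕ => ((1, p.1, OnePoint.infty, p.2) : M))
        (0, OnePoint.infty) := Continuous.continuousAt (by fun_prop)
      exact ContinuousAt.comp (g := io)
        (f := fun p : ℝ × OnePoint ℕ => ((1, p.1, OnePoint.infty, p.2) : M)) (cont_io m0_YY) h2
    have h2 := hc.eventually (hU.mem_nhds h0)
    rw [nhds_prod_eq, Filter.eventually_prod_iff] at h2
    obtain ⟨pa, hpa, pb, hpb, hab⟩ := h2
    obtain ⟨ε, hε, hball⟩ := Metric.eventually_nhds_iff.1 hpa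
    have ht : Tendsto ((↑) : ℕ → OnePoint ℕ) (Filter.coclosedCompact ℕ) (𝓝 OnePoint.infty) :=
      OnePoint.tendsto_coe_infty
    rw [Filter.coclosedCompact_eq_cocompact, Filter.cocompact_eq_cofinite,
      Nat.cofinite_eq_atTop] at ht
    obtain ⟨N0, hN0⟩ := eventually_atTop.1 (ht.eventually hpb)
    refine ⟨N0, fun n hn => ?_⟩
    have hn1 : (0:ℝ) < (n:ℝ) + 1 := by positivity
    have hpos : 0 < min (ε/2) (1/(2*((n:ℝ)+1))) := by positivity
    refine ⟨min (ε/2) (1/(2*((n:ℝ)+1))), ⟨?_, ?_⟩, ?_⟩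
    · simpa using hpos
    · refine lt_of_le_of_lt (min_le_right _ _) ?_
      simp only [CharP.cast_eq_zero, zero_add]
      apply one_div_lt_one_div_of_lt hn1
      linarith
    · apply hab
      · apply hball
        rw [Real.dist_eq, sub_zero, abs_of_pos hpos]
        exact lt_of_le_of_lt (min_le_left _ _) (by linarith)
      · exact hN0 n hn
  -- the jump
  have hjump : ∀ n, max N0 1 ≤ n → ∃ k, k ≤ n ∧ (∃ u ∈ edge n k, io (pt n u OnePoint.infty) ∈ U) ∧
      (∃ w ∈ edge n k, io (pt n w OnePoint.infty) ∈ W) := by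
    intro n hn
    have hn1 : (0:ℝ) < (n:ℝ) + 1 := by positivity
    have hend : ¬ ∃ t ∈ edge n n, io (pt n t OnePoint.infty) ∈ U := by
      rintro ⟨t, ht, htU⟩
      have hY := edge_YY le_rfl ht OnePoint.infty
      refine hd _ (io_mem hY) htU (h1 _ hY ?_)
      show 1/2 < min (1:ℝ) t
      apply lt_min (by norm_num)
      have h2 := (edge_bd ht).1
      have h3 : (1:ℝ) ≤ n := by exact_mod_cast le_trans (le_max_right _ _) hn
      by_contra hcon
      push Not at hcon
      nlinarith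
    have hex : ∃ k, ¬ ∃ t ∈ edge n k, io (pt n t OnePoint.infty) ∈ U := ⟨n, hend⟩
    have hk := Nat.find_spec hex
    have hkn : Nat.find hex ≤ n := Nat.find_min' hex hend
    have hkpos : Nat.find hex ≠ 0 := by
      intro h
      rw [h] at hk
      exact hk (hN0 n (le_trans (le_max_left _ _) hn))
    obtain ⟨k, hkk⟩ := Nat.exists_eq_succ_of_ne_zero hkpos
    have hprev : ∃ t ∈ edge n k, io (pt n t OnePoint.infty) ∈ U := by
      by_contra hcon
      have := Nat.find_min' hex hcon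
      omega
    refine ⟨k, by omega, hprev, ?_⟩
    -- the point between the two edges
    have hzz : pt n (((k+1 : ℕ):ℝ)/((n:ℝ)+1)) OnePoint.infty ∈ MS := by
      apply pt_MS (by positivity)
      rw [div_le_one hn1]
      have : k + 1 ≤ n + 1 := by omega
      exact_mod_cast this
    have hzl : pt n (((k+1 : ℕ):ℝ)/((n:ℝ)+1)) OnePoint.infty ∈ ZL (Sum.inl n) := by
      refine ⟨rfl, ?_⟩
      rw [dd_pt, dz_eq_zero]
      refine ⟨(k+1 : ℕ), ?_⟩
      push_cast
      field_simp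
    obtain ⟨ξ, hξ, hUW⟩ := hz _ _ hzz hzl
    rcases hUW with hUW | hUW
    · exfalso
      obtain ⟨δ, hδ0, _, hδ1, hδ⟩ := approachN (by omega) hξ hU hUW (Or.inl rfl) one_pos
      apply hk
      rw [hkk]
      refine ⟨_, ⟨?_, ?_⟩, hδ⟩
      · apply div_lt_div_of_pos_right _ hn1
        push_cast
        linarith
      · apply div_lt_div_of_pos_right _ hn1
        push_cast
        linarith
    · obtain ⟨δ, hδ0, _, hδ1, hδ⟩ := approachN (by omega) hξ hW hUW (Or.inr rfl) one_pos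
      refine ⟨_, ⟨?_, ?_⟩, hδ⟩
      · apply div_lt_div_of_pos_right _ hn1
        push_cast
        linarith
      · apply div_lt_div_of_pos_right _ hn1
        push_cast
        linarith
  have hjump' : ∀ n, max N0 1 ≤ n → ∃ (k : ℕ) (u w : ℝ), k ≤ n ∧ u ∈ edge n k ∧
      io (pt n u OnePoint.infty) ∈ U ∧ w ∈ edge n k ∧ io (pt n w OnePoint.infty) ∈ W := by
    intro n hn
    obtain ⟨k, hk, ⟨u, hu, huU⟩, ⟨w, hw, hwW⟩⟩ := hjump n hn
    exact ⟨k, u, w, hk, hu, huU, hw, hwW⟩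
  choose! κ u w hκn hu huU hw hwW using hjump'
  -- the exceptional set
  let Ex : Set DD := ⋃ n : ℕ, ⋃ _ : max N0 1 ≤ n,
    ({a : DD | io (pt n (u n) (OnePoint.some (br a))) ∉ U} ∪
     {a : DD | io (pt n (w n) (OnePoint.some (br a))) ∉ W})
  have hEx : Ex.Countable := by
    apply Set.countable_iUnion
    intro n
    apply Set.countable_iUnion
    intro hn
    apply Set.Finite.countable
    exact (finite_exc (edge_YY (hκn n hn) (hu n hn) _) hU (huU n hn)).union
      (finite_exc (edge_YY (hκn n hn) (hw n hn) _) hW (hwW n hn))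
  obtain ⟨β, hβ⟩ : ∃ β : ℕ → ℕ, ((β, κ) : DD) ∉ Ex := by
    by_contra hcon
    push Not at hcon
    apply not_countable_seq
    have hinj : Function.Injective (fun β : ℕ → ℕ => ((β, κ) : DD)) := by
      intro b b' hbb
      exact congrArg Prod.fst hbb
    refine (hEx.preimage hinj).mono ?_
    intro b _
    exact hcon b
  set a : DD := (β, κ) with ha
  have hka : ∀ n, max N0 1 ≤ n → kk a.2 n = κ n := fun n hn => min_eq_left (hκn n hn)
  -- intermediate points
  have hmid : ∀ n, ∃ t : ℝ, ((kk a.2 n : ℝ) ≤ ((n:ℝ)+1) * t ∧ ((n:ℝ)+1) * t ≤ kk a.2 n + 1) ∧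
      (max N0 1 ≤ n → io (pt n t (OnePoint.some (br a))) ∉ U ∪ W) := by
    intro n
    by_cases hn : max N0 1 ≤ n
    · have hconn : IsPreconnected (edge n (κ n)) := isPreconnected_Ioo
      have hcont : ContinuousOn (fun t => io (pt n t (OnePoint.some (br a)))) (edge n (κ n)) := by
        intro t ht
        have hY := edge_YY (hκn n hn) ht (OnePoint.some (br a))
        have h2 : ContinuousAt (fun t => pt n t (OnePoint.some (br a))) t := by
          unfold pt
          exact Continuous.continuousAt (by fun_prop)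
        exact (ContinuousAt.comp (g := io) (f := fun t => pt n t (OnePoint.some (br a)))
          (cont_io hY) h2).continuousWithinAt
      have himg := hconn.image _ hcont
      by_contra hcon
      push Not at hcon
      have hsub : (fun t => io (pt n t (OnePoint.some (br a)))) '' edge n (κ n) ⊆ U ∪ W := by
        rintro _ ⟨t, ht, rfl⟩
        by_contra hnot
        have hb := edge_bd ht
        rw [← hka n hn] at hb
        exact hnot (hcon t ⟨hb.1.le, hb.2.le⟩).2
      have haU : io (pt n (u n) (OnePoint.some (br a))) ∈ U := by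
        by_contra hnot
        exact hβ (mem_iUnion₂.2 ⟨n, hn, Or.inl hnot⟩)
      have haW : io (pt n (w n) (OnePoint.some (br a))) ∈ W := by
        by_contra hnot
        exact hβ (mem_iUnion₂.2 ⟨n, hn, Or.inr hnot⟩)
      obtain ⟨ξ, ⟨t, ht, rfl⟩, hξU, hξW⟩ := himg U W hU hW hsub
        ⟨_, ⟨u n, hu n hn, rfl⟩, haU⟩ ⟨_, ⟨w n, hw n hn, rfl⟩, haW⟩
      exact hd _ (io_mem (edge_YY (hκn n hn) ht _)) hξU hξW
    · refine ⟨((kk a.2 n : ℝ) + 1/2)/((n:ℝ)+1), ?_, fun h => absurd h hn⟩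
      have : ((n:ℝ)+1) * (((kk a.2 n : ℝ) + 1/2)/((n:ℝ)+1)) = (kk a.2 n : ℝ) + 1/2 := by
        field_simp
      rw [this]
      constructor <;> linarith
  choose t ht1 ht2 using hmid
  have hzMS : zA a ∈ MS := ⟨⟨zero_le_one, le_rfl⟩, ⟨rr_nonneg _, rr_le_one _⟩⟩
  obtain ⟨ξ, hξ, hξUW⟩ := hz (Sum.inr a) (zA a) hzMS rfl
  obtain ⟨i, hi⟩ := open_jz hξ (hU.union hW) hξUW
  have hlim := approachA a i t ht1
  have := neBot_act a.2 i
  have hev := hlim.eventually ((hU.union hW).mem_nhds hi)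
  have hev2 : ∀ᶠ n in atTop ⊓ 𝓟 {n | act a.2 n = some i}, max N0 1 ≤ n :=
    (eventually_ge_atTop _).filter_mono inf_le_left
  obtain ⟨n, hn1, hn2⟩ := (hev.and hev2).exists
  exact ht2 n hn2 hn1

/-! ### rational operations -/

section nice

variable {N : Set ℝ} (hN : Nice N)
include hN

lemma sigN_nice (n : ℕ) {m : M} (hs : m.1 ∈ N) (ht : m.2.1 ∈ N) : sigN n m ∈ N := by
  unfold sigN
  split_ifs
  · have h1 : dd n m ∈ N := by
      unfold dd
      apply Nice.max
      · simpa using hN.sub_left 1 hs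
      · apply hN.dz
        have := hN.mul ((n:ℚ)+1) _ ht
        push_cast at this
        exact this
    have h2 : xx n m ∈ N := by
      unfold xx
      apply hN.inv
      apply Nice.min h1
      have := hN.rat (1/2)
      push_cast at this
      exact this
    have := hN.mul 2 _ (hN.dz h2)
    push_cast at this
    exact this
  · exact hN.zero

lemma tri_nice (k : ℕ → ℕ) (n : ℕ) {m : M} (hs : m.1 ∈ N) (ht : m.2.1 ∈ N) : tri k n m ∈ N := by
  unfold tri
  apply Nice.max hN.zero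
  apply Nice.min
  · have h1 := hN.sub_left 1 hs
    have h2 := hN.mul (2 * ((n:ℚ)+1)) _ h1
    have h3 := hN.sub_left 1 h2
    push_cast at h3
    exact h3
  · have h1 := hN.mul ((n:ℚ)+1) _ ht
    apply Nice.min
    · have h2 := hN.sub_right (kk k n : ℚ) (hN.add 1 _ h1)
      push_cast at h2
      exact h2
    · have h2 := hN.sub_left ((kk k n : ℚ) + 2) h1
      push_cast at h2
      exact h2

lemma sigA_nice (a : DD) {m : M} (hs : m.1 ∈ N) (ht : m.2.1 ∈ N) : sigA a m ∈ N := by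
  rcases q_cases m.2.2.2 with h | ⟨n, h⟩
  · rw [sigA_infty h]
    exact hN.zero
  · rw [sigA_some h]
    split_ifs
    · exact hN.zero
    · exact tri_nice hN _ _ hs ht
    · exact hN.zero

lemma f_nice (l : LL) {m : M} (hs : m.1 ∈ N) (ht : m.2.1 ∈ N) :
    (f l m).1 ∈ N ∧ (f l m).2.1 ∈ N := by
  have h1 : sig l m ∈ N := by
    rcases l with n | a
    · exact sigN_nice hN n hs ht
    · exact sigA_nice hN a hs ht
  constructor
  · show sig l m * (clip1 _ : ℝ) ∈ N
    rw [mul_comm]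
    exact hN.mul _ _ h1
  · exact hN.rat _

lemma E_nice {m : M} (hs : m.1 ∈ N) (ht : m.2.1 ∈ N) (j : JJ) : E m j ∈ N := by
  rcases j with _ | _ | a | n
  · exact hs
  · exact Nice.min hs ht
  · rw [E_chi]
    split_ifs
    · exact hs
    · exact hN.zero
  · rw [E_lev]
    split_ifs
    · exact hs
    · exact hN.zero

lemma iota_nice (v : List LL) : ∀ {m : M}, m.1 ∈ N → m.2.1 ∈ N → ∀ j, iota v m j ∈ N := by
  induction v with
  | nil => intro m hs ht j; exact E_nice hN hs ht j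
  | cons l v ih =>
    intro m hs ht j
    have := f_nice hN l hs ht
    exact ih this.1 this.2 j

end nice

def RQ : Set ℝ := Set.range ((↑) : ℚ → ℝ)

def Yinf : Set M := {m | m ∈ MS ∧ m.1 < 1 ∧ m.1 ∈ RQ ∧ m.2.1 ∈ RQ}

lemma ZN_MS {n : ℕ} {z : M} (hz : z ∈ MS) (hzn : z ∈ ZN n) : z.1 = 1 ∧ z.2.1 ∈ RQ := by
  obtain ⟨e1, e2⟩ := hzn
  have h1 : 1 - z.1 ≤ dd n z := le_max_left _ _
  have h2 : dz (((n:ℝ)+1) * z.2.1) ≤ dd n z := le_max_right _ _
  rw [e2] at h1 h2
  constructor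
  · have := hz.1.2
    linarith
  · have h3 : dz (((n:ℝ)+1) * z.2.1) = 0 := le_antisymm h2 (dz_nonneg _)
    obtain ⟨k, hk⟩ := dz_eq_zero.1 h3
    refine ⟨k / ((n:ℚ)+1), ?_⟩
    push_cast
    have hn1 : (0:ℝ) < (n:ℝ) + 1 := by positivity
    rw [← hk]
    field_simp

lemma f_Yinf_of_rat {l : LL} {m : M} (hm : m.1 ≤ 1) (h1 : m.1 ∈ RQ) (h2 : m.2.1 ∈ RQ) :
    f l m ∈ Yinf := by
  have h3 := f_lt (l := l) hm
  have h4 := f_nice nice_rat l h1 h2
  exact ⟨h3.1, h3.2, h4.1, h4.2⟩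

lemma f_Yinf {l μ : LL} {z : M} (hz : z ∈ MS) (hzl : z ∈ ZL l) (h : μ ≠ l) : f μ z ∈ Yinf := by
  have hz1 : z.1 ≤ 1 := hz.1.2
  rcases l with n | a
  · obtain ⟨e1, e2⟩ := ZN_MS hz hzl
    apply f_Yinf_of_rat hz1 _ e2
    rw [e1]
    exact ⟨1, by simp⟩
  · have hza : z = zA a := hzl
    have hsig : sig μ z = 0 := by
      rcases μ with n | b
      · show sigN n z = 0
        unfold sigN
        rw [if_neg]
        intro hcon
        have h2 : z.2.2.2 = OnePoint.some n := hcon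
        rw [hza] at h2
        exact OnePoint.infty_ne_coe n h2
      · exact sigA_infty (by rw [hza]; rfl)
    have h3 := f_lt (l := μ) hz1
    refine ⟨h3.1, h3.2, ?_, ⟨_, rfl⟩⟩
    show sig μ z * _ ∈ RQ
    rw [hsig, zero_mul]
    exact ⟨0, by simp⟩

def TT : Set (JJ → ℝ) := {b | (∃ m ∈ Yinf, b = E m) ∨ (∃ l z, z ∈ MS ∧ z ∈ ZL l ∧ b = E z)}

lemma iota_TT (v : List LL) : ∀ {m : M}, m ∈ Yinf → iota v m ∈ TT := by
  induction v with
  | nil => intro m hm; exact Or.inl ⟨m, hm, rfl⟩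
  | cons l v ih =>
    intro m hm
    exact ih (f_Yinf_of_rat hm.1.1.2 hm.2.2.1 hm.2.2.2)

def Apm (i : Fin 3) (m : ℕ) : Set PP :=
  {ξ | (∀ v : List LL, v.length < m → ξ v ∈ TT) ∧
    (∀ v : List LL, m ≤ v.length → ∀ j, ξ v j ∉ Sp (pr i))}

def Aom : Set PP := {ξ | ∀ v : List LL, ξ v ∈ TT}

lemma Apm_step {i : Fin 3} {m : ℕ} {l : LL} {z : M} (hz : z ∈ MS) (hzl : z ∈ ZL l) {ξ : PP}
    (h : ξ ∈ Apm i m) : jz l z ξ ∈ Apm i (m+1) := by
  constructor
  · intro v hv
    rcases v with _ | ⟨μ, v⟩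
    · exact Or.inr ⟨l, z, hz, hzl, rfl⟩
    · by_cases hμ : μ = l
      · subst hμ
        rw [jz_same]
        apply h.1
        simpa using hv
      · rw [jz_ne hμ]
        exact iota_TT v (f_Yinf hz hzl hμ)
  · intro v hv j
    rcases v with _ | ⟨μ, v⟩
    · simp at hv
    · by_cases hμ : μ = l
      · subst hμ
        rw [jz_same]
        apply h.2
        simpa using hv
      · rw [jz_ne hμ]
        have hN := nice_compl_Sp (irr_pr i)
        have hY := f_Yinf hz hzl hμ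
        obtain ⟨q1, hq1⟩ := hY.2.2.1
        obtain ⟨q2, hq2⟩ := hY.2.2.2
        have e1 : (f μ z).1 ∈ (Sp (pr i))ᶜ := by
          rw [← hq1]
          exact hN.rat q1
        have e2 : (f μ z).2.1 ∈ (Sp (pr i))ᶜ := by
          rw [← hq2]
          exact hN.rat q2
        exact iota_nice hN v e1 e2 j

lemma io_Apm {m : M} : ∃ i, io m ∈ Apm i 0 := by
  obtain ⟨i, h1, h2⟩ := pick_pr m.1 m.2.1
  refine ⟨i, ?_, ?_⟩
  · intro v hv
    exact absurd hv (Nat.not_lt_zero _)
  · intro v _ j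
    exact iota_nice (nice_compl_Sp (irr_pr i)) v h1 h2 j

lemma cover {ξ : PP} (hξ : ξ ∈ K) : (∃ i m, ξ ∈ Apm i m) ∨ ξ ∈ Aom := by
  by_cases h : ∃ i m, ξ ∈ Apm i m
  · exact Or.inl h
  · right
    have key : ∀ n : ℕ, ∀ ξ ∈ K, (¬ ∃ i m, ξ ∈ Apm i m) → ∀ v : List LL, v.length < n → ξ v ∈ TT := by
      intro n
      induction n with
      | zero => intro ξ _ _ v hv; exact absurd hv (Nat.not_lt_zero _)
      | succ n ih =>
        intro ξ hξ hno v hv
        rcases K_cases hξ with ⟨m, _, rfl⟩ | ⟨l, z, hz, hzl, ξ', hξ', rfl⟩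
        · obtain ⟨i, hi⟩ := io_Apm (m := m)
          exact absurd ⟨i, 0, hi⟩ hno
        · rcases v with _ | ⟨μ, v⟩
          · exact Or.inr ⟨l, z, hz, hzl, rfl⟩
          · by_cases hμ : μ = l
            · subst hμ
              rw [jz_same]
              apply ih ξ' hξ' _ v (by simpa using hv)
              rintro ⟨i, m, hm⟩
              exact hno ⟨i, m+1, Apm_step hz hzl hm⟩
            · rw [jz_ne hμ]
              exact iota_TT v (f_Yinf hz hzl hμ)
    intro v
    exact key (v.length + 1) ξ hξ h v (Nat.lt_succ_self _)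

/-! ### zero-dimensionality -/

/-- relatively clopen neighbourhoods inside `S` -/
def QQ (A : Set PP) (ξ : PP) (S : Set PP) : Prop :=
  ∃ U F : Set PP, IsOpen U ∧ IsClosed F ∧ ξ ∈ U ∧ U ∩ A ⊆ S ∧ U ∩ A = F ∩ A

def QF (A : Set PP) (ξ : PP) : Filter PP where
  sets := {S | QQ A ξ S}
  univ_sets := ⟨univ, univ, isOpen_univ, isClosed_univ, mem_univ _, subset_univ _, rfl⟩
  sets_of_superset := by
    rintro S T ⟨U, F, hU, hF, hξ, hS, hUF⟩ hST
    exact ⟨U, F, hU, hF, hξ, hS.trans hST, hUF⟩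
  inter_sets := by
    rintro S T ⟨U, F, hU, hF, hξ, hS, hUF⟩ ⟨U', F', hU', hF', hξ', hS', hUF'⟩
    refine ⟨U ∩ U', F ∩ F', hU.inter hU', hF.inter hF', ⟨hξ, hξ'⟩, ?_, ?_⟩
    · rintro x ⟨⟨h1, h2⟩, h3⟩
      exact ⟨hS ⟨h1, h3⟩, hS' ⟨h2, h3⟩⟩
    · ext x
      constructor
      · rintro ⟨⟨h1, h2⟩, h3⟩
        have e1 : x ∈ F ∩ A := hUF ▸ ⟨h1, h3⟩
        have e2 : x ∈ F' ∩ A := hUF' ▸ ⟨h2, h3⟩
        exact ⟨⟨e1.1, e2.1⟩, h3⟩
      · rintro ⟨⟨h1, h2⟩, h3⟩
        have e1 : x ∈ U ∩ A := hUF ▸ ⟨h1, h3⟩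
        have e2 : x ∈ U' ∩ A := hUF' ▸ ⟨h2, h3⟩
        exact ⟨⟨e1.1, e2.1⟩, h3⟩

lemma cont_coord (v : List LL) (j : JJ) : Continuous (fun ξ : PP => ξ v j) :=
  (continuous_apply j).comp (continuous_apply v)

lemma rat_notMem_Sp {i : Fin 3} {x : ℝ} (hx : x ∈ RQ) : x ∉ Sp (pr i) := by
  obtain ⟨q, rfl⟩ := hx
  exact (nice_compl_Sp (irr_pr i)).rat q

/-- a general way of producing relatively clopen boxes -/
lemma QQ_box {A : Set PP} {ξ : PP} (v : List LL) (j : JJ) {ε : ℝ} (hε : 0 < ε) (i : Fin 3)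
    (U0 F0 : Set PP) (hU0 : IsOpen U0) (hF0 : IsClosed F0) (hξ0 : ξ ∈ U0) (hUF : U0 ⊆ F0)
    (h : ∀ ξ' ∈ A, ξ' ∈ F0 → ξ' ∈ U0 ∧ (ξ' v j = ξ v j ∨ ξ' v j ∉ Sp (pr i))) :
    QQ A ξ {ξ' | |ξ' v j - ξ v j| < ε} := by
  obtain ⟨x1, hx1, hx1a, hx1b⟩ := dense_Sp (pr i) (show ξ v j - ε < ξ v j by linarith)
  obtain ⟨x2, hx2, hx2a, hx2b⟩ := dense_Sp (pr i) (show ξ v j < ξ v j + ε by linarith)
  refine ⟨U0 ∩ {ξ' | x1 < ξ' v j ∧ ξ' v j < x2}, F0 ∩ {ξ' | x1 ≤ ξ' v j ∧ ξ' v j ≤ x2}, ?_, ?_,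
    ⟨hξ0, hx1b, hx2a⟩, ?_, ?_⟩
  · apply hU0.inter
    exact (isOpen_lt continuous_const (cont_coord v j)).inter
      (isOpen_lt (cont_coord v j) continuous_const)
  · apply hF0.inter
    exact (isClosed_le continuous_const (cont_coord v j)).inter
      (isClosed_le (cont_coord v j) continuous_const)
  · rintro ξ' ⟨⟨_, h1, h2⟩, _⟩
    show |ξ' v j - ξ v j| < ε
    rw [abs_lt]
    constructor <;> linarith
  · ext ξ'
    constructor
    · rintro ⟨⟨h0, h1, h2⟩, h3⟩
      exact ⟨⟨hUF h0, h1.le, h2.le⟩, h3⟩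
    · rintro ⟨⟨h0, h1, h2⟩, h3⟩
      obtain ⟨h4, h5⟩ := h ξ' h3 h0
      refine ⟨⟨h4, ?_, ?_⟩, h3⟩
      · refine lt_of_le_of_ne h1 (fun heq => ?_)
        rcases h5 with h5 | h5
        · rw [h5] at heq
          exact absurd heq hx1b.ne
        · exact h5 (heq ▸ hx1)
      · refine lt_of_le_of_ne h2 (fun heq => ?_)
        rcases h5 with h5 | h5
        · rw [h5] at heq
          exact absurd heq hx2a.ne
        · exact h5 (heq ▸ hx2)

lemma E_rat {m : M} (h1 : m.1 ∈ RQ) (h2 : m.2.1 ∈ RQ) (j : JJ) : E m j ∈ RQ :=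
  E_nice nice_rat h1 h2 j

lemma E_ZN_rat {n : ℕ} {z : M} (hz : z ∈ MS) (hzn : z ∈ ZN n) (j : JJ) : E z j ∈ RQ := by
  obtain ⟨h1, h2⟩ := ZN_MS hz hzn
  apply E_rat _ h2
  rw [h1]
  exact ⟨1, by simp⟩

lemma QQ_TT {A : Set PP} {ξ : PP} (hξA : ξ ∈ A) (v : List LL) (hA : ∀ ξ' ∈ A, ξ' v ∈ TT) (j : JJ)
    {ε : ℝ} (hε : 0 < ε) : QQ A ξ {ξ' | |ξ' v j - ξ v j| < ε} := by
  rcases hA ξ hξA with ⟨m, hm, hmξ⟩ | ⟨l, z, hz, hzl, hzξ⟩
  · -- region s < x'
    obtain ⟨x', hx', hx'a, hx'b⟩ := dense_Sp (pr 0) hm.2.1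
    refine QQ_box v j hε 0 {ξ' | ξ' v JJ.s < x'} {ξ' | ξ' v JJ.s ≤ x'}
      (isOpen_lt (cont_coord v _) continuous_const)
      (isClosed_le (cont_coord v _) continuous_const) ?_
      (fun ξ' (h : ξ' v JJ.s < x') => (le_of_lt h : ξ' v JJ.s ≤ x')) ?_
    · show ξ v JJ.s < x'
      rw [hmξ]
      exact hx'a
    · intro ξ' hξ' hF
      have hF' : ξ' v JJ.s ≤ x' := hF
      have hrat : ∀ j, ξ' v j ∈ RQ := by
        rcases hA ξ' hξ' with ⟨m', hm', h'⟩ | ⟨l', z', hz', hzl', h'⟩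
        · intro j
          rw [h']
          exact E_rat hm'.2.2.1 hm'.2.2.2 j
        · exfalso
          rw [h'] at hF'
          have hF'' : z'.1 ≤ x' := hF'
          have h1 : z'.1 = 1 := by
            rcases l' with n | a
            · exact (ZN_MS hz' hzl').1
            · have : z' = zA a := hzl'
              rw [this]
              rfl
          linarith
      refine ⟨?_, Or.inr (rat_notMem_Sp (hrat j))⟩
      refine lt_of_le_of_ne hF' (fun heq => ?_)
      exact rat_notMem_Sp (i := 0) (hrat JJ.s) (heq ▸ hx')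
  · rcases l with n | a
    · obtain ⟨x', hx', hx'a, hx'b⟩ := dense_Sp (pr 0) (zero_lt_one (α := ℝ))
      refine QQ_box v j hε 0 {ξ' | x' < ξ' v (JJ.lev n)} {ξ' | x' ≤ ξ' v (JJ.lev n)}
        (isOpen_lt continuous_const (cont_coord v _))
        (isClosed_le continuous_const (cont_coord v _)) ?_
        (fun ξ' (h : x' < ξ' v (JJ.lev n)) => (le_of_lt h : x' ≤ ξ' v (JJ.lev n))) ?_
      · show x' < ξ v (JJ.lev n)
        have hq : z.2.2.2 = OnePoint.some n := hzl.1
        rw [hzξ, E_lev, if_pos hq, (ZN_MS hz hzl).1]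
        exact hx'b
      · intro ξ' hξ' hF
        have hF' : x' ≤ ξ' v (JJ.lev n) := hF
        have hrat : ∀ j, ξ' v j ∈ RQ := by
          rcases hA ξ' hξ' with ⟨m', hm', h'⟩ | ⟨l', z', hz', hzl', h'⟩
          · intro j
            rw [h']
            exact E_rat hm'.2.2.1 hm'.2.2.2 j
          · rcases l' with n' | a'
            · intro j
              rw [h']
              exact E_ZN_rat hz' hzl' j
            · exfalso
              have hza : z' = zA a' := hzl'
              rw [h', E_lev, if_neg] at hF'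
              · linarith
              · rw [hza]
                exact OnePoint.infty_ne_coe n
        refine ⟨?_, Or.inr (rat_notMem_Sp (hrat j))⟩
        refine lt_of_le_of_ne hF' (fun heq => ?_)
        exact rat_notMem_Sp (i := 0) (hrat (JJ.lev n)) (heq ▸ hx')
    · have hza : z = zA a := hzl
      obtain ⟨x', hx', hx'a, hx'b⟩ := dense_Sp (pr 0) (zero_lt_one (α := ℝ))
      have hval : E z (JJ.chi a) = 1 := by
        rw [hza, E_chi, if_pos]
        · rfl
        · exact br_mem_OO.2 rfl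
      refine QQ_box v j hε 0 {ξ' | x' < ξ' v (JJ.chi a)} {ξ' | x' ≤ ξ' v (JJ.chi a)}
        (isOpen_lt continuous_const (cont_coord v _))
        (isClosed_le continuous_const (cont_coord v _)) ?_
        (fun ξ' (h : x' < ξ' v (JJ.chi a)) => (le_of_lt h : x' ≤ ξ' v (JJ.chi a))) ?_
      · show x' < ξ v (JJ.chi a)
        rw [hzξ, hval]
        exact hx'b
      · intro ξ' hξ' hF
        have hF' : x' ≤ ξ' v (JJ.chi a) := hF
        have hcase : (∀ j, ξ' v j ∈ RQ) ∨ ξ' v = ξ v := by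
          rcases hA ξ' hξ' with ⟨m', hm', h'⟩ | ⟨l', z', hz', hzl', h'⟩
          · left
            intro j
            rw [h']
            exact E_rat hm'.2.2.1 hm'.2.2.2 j
          · rcases l' with n' | a'
            · left
              intro j
              rw [h']
              exact E_ZN_rat hz' hzl' j
            · right
              have hza' : z' = zA a' := hzl'
              by_cases haa : a' = a
              · rw [h', hza', hzξ, hza, haa]
              · exfalso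
                rw [h', E_chi, if_neg] at hF'
                · linarith
                · rw [hza']
                  intro hcon
                  exact haa (br_mem_OO.1 hcon)
        rcases hcase with hrat | heq
        · refine ⟨?_, Or.inr (rat_notMem_Sp (hrat j))⟩
          refine lt_of_le_of_ne hF' (fun heq => ?_)
          exact rat_notMem_Sp (i := 0) (hrat (JJ.chi a)) (heq ▸ hx')
        · refine ⟨?_, Or.inl (by rw [heq])⟩
          show x' < ξ' v (JJ.chi a)
          rw [heq, hzξ, hval]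
          exact hx'b

lemma QQ_Sp {A : Set PP} {ξ : PP} (v : List LL) (i : Fin 3) (hA : ∀ ξ' ∈ A, ∀ j, ξ' v j ∉ Sp (pr i))
    (j : JJ) {ε : ℝ} (hε : 0 < ε) : QQ A ξ {ξ' | |ξ' v j - ξ v j| < ε} :=
  QQ_box v j hε i univ univ isOpen_univ isClosed_univ (mem_univ _) (subset_univ _)
    (fun ξ' hξ' _ => ⟨mem_univ _, Or.inr (hA ξ' hξ' j)⟩)

/-- sets all of whose coordinates are tame are zero-dimensional -/
lemma zero_dim {A : Set PP} (hA : ∀ v : List LL, (∀ ξ' ∈ A, ξ' v ∈ TT) ∨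
    (∃ i, ∀ ξ' ∈ A, ∀ j, ξ' v j ∉ Sp (pr i))) {ξ : PP} (hξ : ξ ∈ A) {O : Set PP} (hO : IsOpen O)
    (hξO : ξ ∈ O) : QQ A ξ O := by
  have h : Tendsto (fun ξ' : PP => ξ') (QF A ξ) (𝓝 ξ) := by
    rw [tendsto_pi_nhds]
    intro v
    rw [tendsto_pi_nhds]
    intro j
    rw [Metric.tendsto_nhds]
    intro ε hε
    have h2 : QQ A ξ {ξ' | |ξ' v j - ξ v j| < ε} := by
      rcases hA v with h | ⟨i, h⟩
      · exact QQ_TT hξ v h j hε
      · exact QQ_Sp v i h j hε
    exact h2
  exact h (hO.mem_nhds hξO)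



lemma isCompact_K : IsCompact K := by
  have hbox : IsCompact (Set.pi univ (fun _ : List LL => Set.pi univ (fun _ : JJ => Icc (0:ℝ) 1))) :=
    isCompact_univ_pi (fun _ => isCompact_univ_pi (fun _ => isCompact_Icc))
  refine hbox.of_isClosed_subset isClosed_closure ?_
  apply closure_minimal _ hbox.isClosed
  rintro _ ⟨m, hm, rfl⟩ v _ j _
  have key : ∀ (v : List LL) (m : M), m ∈ MS → iota v m j ∈ Icc (0:ℝ) 1 := by
    intro v
    induction v with
    | nil =>
      intro m hm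
      have h1 := E_bound hm.1.1 hm.2.1 j
      have h2 : 0 ≤ E m j := by
        rcases j with _ | _ | a | n
        · exact hm.1.1
        · exact le_min hm.1.1 hm.2.1
        · rw [E_chi]
          split_ifs
          · exact hm.1.1
          · exact le_rfl
        · rw [E_lev]
          split_ifs
          · exact hm.1.1
          · exact le_rfl
      exact ⟨h2, le_trans (le_abs_self _) (le_trans h1 hm.1.2)⟩
    | cons l v ih =>
      intro m hm
      exact ih (f l m) (f_lt hm.1.2).1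
  exact key v m hm.1

instance : CompactSpace (↥K) := isCompact_iff_compactSpace.1 isCompact_K

/-- the pieces of the decomposition -/
def piece (n : ℕ) : Set PP :=
  if h : (Nat.unpair n).1 < 3 then Apm ⟨(Nat.unpair n).1, h⟩ (Nat.unpair n).2 else Aom

lemma piece_zero (n : ℕ) (v : List LL) : (∀ ξ' ∈ piece n, ξ' v ∈ TT) ∨
    (∃ i, ∀ ξ' ∈ piece n, ∀ j, ξ' v j ∉ Sp (pr i)) := by
  unfold piece
  split_ifs with h
  · by_cases hv : v.length < (Nat.unpair n).2
    · left
      intro ξ' hξ'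
      exact hξ'.1 v hv
    · right
      push Not at hv
      exact ⟨_, fun ξ' hξ' => hξ'.2 v hv⟩
  · left
    intro ξ' hξ'
    exact hξ' v

lemma piece_cover {ξ : PP} (hξ : ξ ∈ K) : ∃ n, ξ ∈ piece n := by
  rcases cover hξ with ⟨i, m, h⟩ | h
  · refine ⟨Nat.pair i.1 m, ?_⟩
    unfold piece
    rw [dif_pos (by rw [Nat.unpair_pair]; exact i.2)]
    simp only [Nat.unpair_pair]
    exact h
  · refine ⟨Nat.pair 3 0, ?_⟩
    unfold piece
    rw [dif_neg (by rw [Nat.unpair_pair]; norm_num)]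
    exact h

/-- a subspace of the compact set all of whose points have relatively clopen neighbourhoods -/
lemma piece_trind (n : ℕ) : ∃ (𝒮 : Set (Set ↥K)) (f : Set ↥K → Ordinal.{0}),
    ((↑) ⁻¹' (piece n) : Set ↥K) ∈ 𝒮 ∧
        ∀ S ∈ 𝒮, ∀ x ∈ S, ∀ V : Set ↥K, IsOpen V → x ∈ V →
          ∃ U : Set ↥K, IsOpen U ∧ x ∈ U ∧ U ∩ S ⊆ V ∧
            ((S ∩ closure (U ∩ S)) \ U) ∈ 𝒮 ∧ f ((S ∩ closure (U ∩ S)) \ U) < f S := by
  classical
  refine ⟨{(↑) ⁻¹' (piece n), ∅}, fun S => if S = ∅ then 0 else 1, Or.inl rfl, ?_⟩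
  intro S hS x hx V hV hxV
  rcases hS with hS | hS
  · subst hS
    obtain ⟨O, hO, rfl⟩ := isOpen_induced_iff.1 hV
    obtain ⟨U, F, hU, hF, hξU, hUO, hUF⟩ := zero_dim (piece_zero n) hx hO hxV
    have hempty : (((↑) ⁻¹' (piece n) : Set ↥K) ∩
        closure (((↑) ⁻¹' U : Set ↥K) ∩ ((↑) ⁻¹' (piece n) : Set ↥K))) \ ((↑) ⁻¹' U : Set ↥K) = ∅ := by
      rw [Set.eq_empty_iff_forall_notMem]
      rintro y ⟨⟨hyA, hyc⟩, hyU⟩
      have h1 : closure (((↑) ⁻¹' U : Set ↥K) ∩ ((↑) ⁻¹' (piece n) : Set ↥K)) ⊆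
          ((↑) ⁻¹' F : Set ↥K) := by
        apply closure_minimal _ (hF.preimage continuous_subtype_val)
        rintro w ⟨hw1, hw2⟩
        have : (w : PP) ∈ F ∩ piece n := hUF ▸ ⟨hw1, hw2⟩
        exact this.1
      have h2 : (y : PP) ∈ U ∩ piece n := by
        rw [hUF]
        exact ⟨h1 hyc, hyA⟩
      exact hyU h2.1
    refine ⟨(Subtype.val ⁻¹' U : Set ↥K), hU.preimage continuous_subtype_val, hξU, ?_, ?_, ?_⟩
    · rintro w ⟨hw1, hw2⟩
      exact hUO ⟨hw1, hw2⟩
    · right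
      exact hempty
    · rw [hempty]
      simp only [if_true]
      rw [if_neg]
      · exact zero_lt_one
      · intro h
        rw [h] at hx
        exact hx
  · have : S = ∅ := hS
    rw [this] at hx
    exact absurd hx (Set.notMem_empty _)

/-- every partition of an embedded copy contains an embedded copy -/
lemma step (S : Set ↥K) (J : ↥K → ↥K) (hJc : Continuous J) (hJi : Function.Injective J)
    (hJS : ∀ ξ, J ξ ∈ S) : ∃ x ∈ S, ∃ V : Set ↥K, IsOpen V ∧ x ∈ V ∧
      ∀ U : Set ↥K, IsOpen U → x ∈ U → U ∩ S ⊆ V →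
        ∃ J' : ↥K → ↥K, Continuous J' ∧ Function.Injective J' ∧
          ∀ ξ, J' ξ ∈ ((S ∩ closure (U ∩ S)) \ U) := by
  classical
  let x0 : ↥K := ⟨io m0, io_mem m0_YY⟩
  let R : Set ↥K := {ξ | 1/2 ≤ (ξ : PP) [] JJ.mt}
  have hRc : IsClosed R :=
    isClosed_le continuous_const ((cont_coord [] JJ.mt).comp continuous_subtype_val)
  have hx0R : x0 ∉ R := by
    intro h
    have h1 : 1/2 ≤ min (1:ℝ) 0 := h
    norm_num at h1
  have hJR : IsClosed (J '' R) := (hRc.isCompact.image hJc).isClosed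
  refine ⟨J x0, hJS x0, (J '' R)ᶜ, hJR.isOpen_compl, ?_, ?_⟩
  · rintro ⟨y, hy, hyx⟩
    rw [hJi hyx] at hy
    exact hx0R hy
  intro U hU hxU hUV
  -- pull back
  have hUKo : IsOpen (J ⁻¹' U) := hU.preimage hJc
  have hWo : IsOpen (closure (J ⁻¹' U))ᶜ := isClosed_closure.isOpen_compl
  obtain ⟨U', hU', hUU'⟩ := isOpen_induced_iff.1 hUKo
  obtain ⟨W', hW', hWW'⟩ := isOpen_induced_iff.1 hWo
  have memU : ∀ ξ : ↥K, (ξ : PP) ∈ U' ↔ J ξ ∈ U := by
    intro ξ
    have : ξ ∈ ((↑) ⁻¹' U' : Set ↥K) ↔ ξ ∈ J ⁻¹' U := by rw [hUU']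
    exact this
  have memW : ∀ ξ : ↥K, (ξ : PP) ∈ W' ↔ ξ ∉ closure (J ⁻¹' U) := by
    intro ξ
    have : ξ ∈ ((↑) ⁻¹' W' : Set ↥K) ↔ ξ ∈ (closure (J ⁻¹' U))ᶜ := by rw [hWW']
    exact this
  have hkey : ∃ l z, z ∈ MS ∧ z ∈ ZL l ∧ ∀ ξ ∈ K, jz l z ξ ∉ U' ∪ W' := by
    by_contra hcon
    push Not at hcon
    refine key hU' hW' ?_ ((memU x0).2 hxU) ?_ ?_
    · intro ξ hξ h1 h2
      have e1 := (memU ⟨ξ, hξ⟩).1 h1
      have e2 := (memW ⟨ξ, hξ⟩).1 h2
      exact e2 (subset_closure e1)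
    · intro m hm hmin
      apply (memW ⟨io m, io_mem hm⟩).2
      intro hcl
      have hop : IsOpen {ξ : ↥K | 1/2 < (ξ : PP) [] JJ.mt} :=
        isOpen_lt continuous_const ((cont_coord [] JJ.mt).comp continuous_subtype_val)
      obtain ⟨y, hy1, hy2⟩ := mem_closure_iff.1 hcl _ hop hmin
      have hy3 : J y ∈ (J '' R)ᶜ := hUV ⟨hy2, hJS y⟩
      have hy1' : 1/2 < (y : PP) [] JJ.mt := hy1
      have hy4 : y ∈ R := hy1'.le
      exact hy3 ⟨y, hy4, rfl⟩
    · intro l z hz hzl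
      exact hcon l z hz hzl
  obtain ⟨l, z, hz, hzl, hno⟩ := hkey
  let jj : ↥K → ↥K := fun ξ => ⟨jz l z ξ, jz_mem hz hzl ξ.2⟩
  have hjjc : Continuous jj :=
    Continuous.subtype_mk ((continuous_jz l z).comp continuous_subtype_val) _
  have hjji : Function.Injective jj := by
    intro ξ ξ' h
    apply Subtype.ext
    funext v
    have h1 : jz l z ξ (l :: v) = jz l z ξ' (l :: v) := by
      have h2 : jz l z ξ = jz l z ξ' := congrArg Subtype.val h
      rw [h2]
    rwa [jz_same, jz_same] at h1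
  refine ⟨J ∘ jj, hJc.comp hjjc, hJi.comp hjji, ?_⟩
  intro ξ
  have h1 : jj ξ ∈ closure (J ⁻¹' U) := by
    by_contra hcon
    exact hno ξ ξ.2 (Or.inr ((memW (jj ξ)).2 hcon))
  have h2 : J (jj ξ) ∉ U := by
    intro hcon
    exact hno ξ ξ.2 (Or.inl ((memU (jj ξ)).2 hcon))
  refine ⟨⟨hJS _, ?_⟩, h2⟩
  have h3 : J (jj ξ) ∈ closure (J '' (J ⁻¹' U)) :=
    image_closure_subset_closure_image hJc ⟨_, h1, rfl⟩
  refine closure_mono ?_ h3
  rintro _ ⟨w, hw, rfl⟩
  exact ⟨hw, hJS w⟩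

theorem no_trind : ¬ ∃ (𝒮 : Set (Set ↥K)) (f : Set ↥K → Ordinal.{0}), (Set.univ : Set ↥K) ∈ 𝒮 ∧
        ∀ S ∈ 𝒮, ∀ x ∈ S, ∀ V : Set ↥K, IsOpen V → x ∈ V →
          ∃ U : Set ↥K, IsOpen U ∧ x ∈ U ∧ U ∩ S ⊆ V ∧
            ((S ∩ closure (U ∩ S)) \ U) ∈ 𝒮 ∧ f ((S ∩ closure (U ∩ S)) \ U) < f S := by
  rintro ⟨𝒮, f, huniv, h⟩
  have main : ∀ α : Ordinal.{0}, ∀ S ∈ 𝒮, f S = α → ∀ J : ↥K → ↥K, Continuous J →
      Function.Injective J → (∀ ξ, J ξ ∈ S) → False := by
    intro α
    induction α using WellFoundedLT.induction with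
    | ind α ih =>
      intro S hS hfS J hJc hJi hJS
      obtain ⟨x, hx, V, hV, hxV, hstep⟩ := step S J hJc hJi hJS
      obtain ⟨U, hU, hxU, hUV, hbd, hlt⟩ := h S hS x hx V hV hxV
      obtain ⟨J', hJ'c, hJ'i, hJ'S⟩ := hstep U hU hxU hUV
      exact ih _ (hfS ▸ hlt) _ hbd rfl J' hJ'c hJ'i hJ'S
  exact main _ Set.univ huniv rfl id continuous_id Function.injective_id (fun _ => mem_univ _)

/-- The negation of the preceding statement: If a compact Hausdorff space is a union of countably many subspaces, each having small transfinite inductive dimension trind, then the whole space has small transfinite inductive dimension. -/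
theorem result :
    ¬ (∀ (X : Type) [TopologicalSpace X] [CompactSpace X] [T2Space X] (A : ℕ → Set X),
      (⋃ n, A n) = Set.univ →
      (∀ n, ∃ (𝒮 : Set (Set X)) (f : Set X → Ordinal.{0}), A n ∈ 𝒮 ∧
        ∀ S ∈ 𝒮, ∀ x ∈ S, ∀ V : Set X, IsOpen V → x ∈ V →
          ∃ U : Set X, IsOpen U ∧ x ∈ U ∧ U ∩ S ⊆ V ∧
            ((S ∩ closure (U ∩ S)) \ U) ∈ 𝒮 ∧ f ((S ∩ closure (U ∩ S)) \ U) < f S) →
      ∃ (𝒮 : Set (Set X)) (f : Set X → Ordinal.{0}), (Set.univ : Set X) ∈ 𝒮 ∧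
        ∀ S ∈ 𝒮, ∀ x ∈ S, ∀ V : Set X, IsOpen V → x ∈ V →
          ∃ U : Set X, IsOpen U ∧ x ∈ U ∧ U ∩ S ⊆ V ∧
            ((S ∩ closure (U ∩ S)) \ U) ∈ 𝒮 ∧ f ((S ∩ closure (U ∩ S)) \ U) < f S) := by
  intro H
  apply no_trind
  apply H ↥K (fun n => (↑) ⁻¹' (piece n))
  · rw [Set.eq_univ_iff_forall]
    intro ξ
    obtain ⟨n, hn⟩ := piece_cover ξ.2
    exact mem_iUnion.2 ⟨n, hn⟩
  · intro n
    exact piece_trind n


end Pool.Agent.S08064
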