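import Pool.Statements.S08068
import Pool.Agent.Helper585.Wk.Asm
import Pool.Agent.Helper585.Wk.Bri
import Pool.Agent.Helper585.Wk.FinS

set_option autoImplicit false
open Pool Pool.MP_07c156_gt

namespace Pool.Agent.S08068

open Pool.Agent.Helper585.Wk Pool.Agent.Helper585.Wk.Dat

/-- The negation of the preceding statement: For every d ≥ 3 and triangulable closed connected d-manifolds M, N, every connected sum P satisfies γ(P) + γ(S^d) = γ(M) + γ(N), where γ(X) is the least value of f1 − (d+1)f0 over finite triangulations of X. -/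
theorem result :
    ¬ (∀ d : ℕ, 3 ≤ d →
  ∀ (M N P : Type) [TopologicalSpace M] [TopologicalSpace N] [TopologicalSpace P]
    [ChartedSpace (EuclideanSpace ℝ (Fin d)) M] [ChartedSpace (EuclideanSpace ℝ (Fin d)) N]
    [T2Space M] [T2Space N] [CompactSpace M] [CompactSpace N]
    [ConnectedSpace M] [ConnectedSpace N],
  {z : ℤ | ∃ n : ℕ, ∃ K : Geometry.SimplicialComplex ℝ (EuclideanSpace ℝ (Fin n)),
      K.faces.Finite ∧ Nonempty (K.space ≃ₜ M) ∧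
      z = ((Set.ncard {s ∈ K.faces | s.card = 2} : ℕ) : ℤ)
        - ((d : ℤ) + 1) * ((Set.ncard {s ∈ K.faces | s.card = 1} : ℕ) : ℤ)}.Nonempty →
  {z : ℤ | ∃ n : ℕ, ∃ K : Geometry.SimplicialComplex ℝ (EuclideanSpace ℝ (Fin n)),
      K.faces.Finite ∧ Nonempty (K.space ≃ₜ N) ∧
      z = ((Set.ncard {s ∈ K.faces | s.card = 2} : ℕ) : ℤ)
        - ((d : ℤ) + 1) * ((Set.ncard {s ∈ K.faces | s.card = 1} : ℕ) : ℤ)}.Nonempty →
  (∃ a : EuclideanSpace ℝ (Fin d) → M, ∃ b : EuclideanSpace ℝ (Fin d) → N,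
    ∃ u : ({a 0}ᶜ : Set M) → P, ∃ v : ({b 0}ᶜ : Set N) → P,
      Topology.IsOpenEmbedding a ∧ Topology.IsOpenEmbedding b ∧
      Topology.IsOpenEmbedding u ∧ Topology.IsOpenEmbedding v ∧
      Set.range u ∪ Set.range v = Set.univ ∧
      ∀ (p : ({a 0}ᶜ : Set M)) (q : ({b 0}ᶜ : Set N)),
        (u p = v q ↔ ∃ x : EuclideanSpace ℝ (Fin d), x ≠ 0 ∧ (p : M) = a x ∧
          (q : N) = b ((‖x‖ ^ 2)⁻¹ • x))) →
  sInf {z : ℤ | ∃ n : ℕ, ∃ K : Geometry.SimplicialComplex ℝ (EuclideanSpace ℝ (Fin n)),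
      K.faces.Finite ∧ Nonempty (K.space ≃ₜ P) ∧
      z = ((Set.ncard {s ∈ K.faces | s.card = 2} : ℕ) : ℤ)
        - ((d : ℤ) + 1) * ((Set.ncard {s ∈ K.faces | s.card = 1} : ℕ) : ℤ)}
  + sInf {z : ℤ | ∃ n : ℕ, ∃ K : Geometry.SimplicialComplex ℝ (EuclideanSpace ℝ (Fin n)),
      K.faces.Finite ∧
      Nonempty (K.space ≃ₜ (Metric.sphere (0 : EuclideanSpace ℝ (Fin (d + 1))) 1)) ∧
      z = ((Set.ncard {s ∈ K.faces | s.card = 2} : ℕ) : ℤ)
        - ((d : ℤ) + 1) * ((Set.ncard {s ∈ K.faces | s.card = 1} : ℕ) : ℤ)}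
  = sInf {z : ℤ | ∃ n : ℕ, ∃ K : Geometry.SimplicialComplex ℝ (EuclideanSpace ℝ (Fin n)),
      K.faces.Finite ∧ Nonempty (K.space ≃ₜ M) ∧
      z = ((Set.ncard {s ∈ K.faces | s.card = 2} : ℕ) : ℤ)
        - ((d : ℤ) + 1) * ((Set.ncard {s ∈ K.faces | s.card = 1} : ℕ) : ℤ)}
  + sInf {z : ℤ | ∃ n : ℕ, ∃ K : Geometry.SimplicialComplex ℝ (EuclideanSpace ℝ (Fin n)),
      K.faces.Finite ∧ Nonempty (K.space ≃ₜ N) ∧
      z = ((Set.ncard {s ∈ K.faces | s.card = 2} : ℕ) : ℤ)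
        - ((d : ℤ) + 1) * ((Set.ncard {s ∈ K.faces | s.card = 1} : ℕ) : ℤ)}) := by
  intro H
  obtain ⟨hA⟩ := eA
  obtain ⟨hB⟩ := eB
  obtain ⟨hC⟩ := eC
  obtain ⟨hD⟩ := eD
  obtain ⟨hAB⟩ := eAB
  obtain ⟨hCD⟩ := eCD
  obtain ⟨h2⟩ := e2
  obtain ⟨h4⟩ := e4
  obtain ⟨g1, hg1, -, -⟩ := exists_gamma _ manA (ofL 31 lA) (tri_self _)
  obtain ⟨g2, hg2, -, -⟩ := exists_gamma _ man2 (ofL 31 S2) (tri_self _)
  obtain ⟨g4, hg4, -, hg4'⟩ := exists_gamma _ manK (ofL 31 Kf) (tri_self _)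
  have h1 : -9 ≤ g1 := hg1.2 admA
  have h8 : g4 ≤ 8 := by
    have e0 := f_ofL 31 0 Kf
    have e1 := f_ofL 31 1 Kf
    rw [fK.1] at e0
    rw [fK.2] at e1
    rw [e0, e1] at hg4'
    norm_num at hg4'
    exact hg4'
  have hS := sInf_zset _ _ gamma_sphere
  have key : ∀ (M N P : Type) [TopologicalSpace M] [TopologicalSpace N] [TopologicalSpace P]
      (gM gN gP : ℤ), ClosedManifold 4 M → ClosedManifold 4 N → IsManifoldSum 4 M N P →
      IsGamma 4 M gM → IsGamma 4 N gN → IsGamma 4 P gP → gP + (-15) = gM + gN := by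
    intro M N P _ _ _ gM gN gP hM hN hsum h1 h2 h3
    letI := chartedOf M hM
    letI := chartedOf N hN
    haveI := hM.compact
    haveI := hN.compact
    haveI := hM.hausdorff
    haveI := hN.hausdorff
    haveI := hM.connected
    haveI := hN.connected
    have h := H 4 (by norm_num) M N P ⟨_, (zset_least M gM h1).1⟩ ⟨_, (zset_least N gN h2).1⟩
      (frozen_sum hsum)
    have e1 := sInf_zset M gM h1
    have e2 := sInf_zset N gN h2
    have e3 := sInf_zset P gP h3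
    rw [← e1, ← e2, ← e3, ← hS]
    exact h
  have k1 := key _ _ _ g1 g1 g2 (closedManifold_congr _ _ hA manA)
    (closedManifold_congr _ _ (hAB.trans hB) manA) sumAB (isGamma_congr _ _ hA g1 hg1)
    (isGamma_congr _ _ (hAB.trans hB) g1 hg1) (isGamma_congr _ _ h2 g2 hg2)
  have k2 := key _ _ _ g2 g2 g4 (closedManifold_congr _ _ hC man2)
    (closedManifold_congr _ _ (hCD.trans hD) man2) sumCD (isGamma_congr _ _ hC g2 hg2)
    (isGamma_congr _ _ (hCD.trans hD) g2 hg2) (isGamma_congr _ _ h4 g4 hg4)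
  omega

end Pool.Agent.S08068
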