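import Pool.Statements.S08071
import Pool.Agent.Helper761.Pseudo

set_option autoImplicit false
open Pool Pool.MP_08983e_gt

namespace Pool.Agent.S08071

/-- There is a connected Hausdorff space, locally homeomorphic to some ℝⁿ, on which every continuous real function is bounded, yet some sequence in it has no cluster point. -/
theorem result :
    ∃ (X : Type) (t : TopologicalSpace X),
      T2Space X ∧ ConnectedSpace X ∧
      (∃ n : ℕ, Nonempty (ChartedSpace (EuclideanSpace ℝ (Fin n)) X)) ∧
      (∀ f : X → ℝ, Continuous f → BddAbove (Set.range f)) ∧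
      (∃ u : ℕ → X, ∀ x : X, ¬ MapClusterPt x Filter.atTop u) := by
  obtain ⟨F⟩ := Pool.Agent.Helper761.exists_fam
  obtain ⟨b⟩ := Pool.Agent.Helper761.Sp.exists_index F
  exact ⟨Pool.Agent.Helper761.Sp F, inferInstance, inferInstance, inferInstance,
    ⟨3, ⟨inferInstance⟩⟩, fun f hf => Pool.Agent.Helper761.Sp.bddAbove_of_continuous hf,
    ⟨fun k => Pool.Agent.Helper761.Sp.kk b (k : ℂ), Pool.Agent.Helper761.Sp.no_cluster b⟩⟩

end Pool.Agent.S08071
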