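import Pool.Statements.S08073
import Pool.Agent.Helper55.BurkeX

set_option autoImplicit false
open Pool Pool.MP_08e409_gt

namespace Pool.Agent.S08073

open Set Filter Topology Pool.Agent.Helper55.BurkeX

/-- (Indicator functions of) graphs of injections from an initial segment of `W` to `ℕ`. -/
def Good (W : Type) [LinearOrder W] : Set (W × ℕ → Bool) :=
  {z | (∀ a m n, z (a, m) = true → z (a, n) = true → m = n) ∧
    (∀ a b n, z (a, n) = true → z (b, n) = true → a = b) ∧
    (∀ a b n, a < b → z (b, n) = true → ∃ m, z (a, m) = true)}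

section

variable {W : Type} [LinearOrder W]

theorem witness (hW : ¬ (univ : Set W).Countable) (hseg : ∀ a : W, (Iic a).Countable)
    (z : W × ℕ → Bool) :
    ∃ C : Set (W × ℕ), C.Countable ∧ ({w | ∀ c ∈ C, w c = z c} ∩ Good W).Countable := by
  by_cases hz : z ∈ Good W
  · obtain ⟨h1, h2, h3⟩ := hz
    have hdom : {a : W | ∃ n, z (a, n) = true}.Countable := by
      have hch : ∀ a : {a : W | ∃ n, z (a, n) = true}, ∃ n, z (a, n) = true := fun a => a.2
      choose e he using hch
      have : Function.Injective e := by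
        intro a b hab
        apply Subtype.ext
        exact h2 a b (e a) (he a) (by rw [hab]; exact he b)
      exact (Function.Injective.countable this)
    have hex : ∃ α : W, α ∉ {a : W | ∃ n, z (a, n) = true} := by
      by_contra hcon
      push Not at hcon
      exact hW (hdom.mono fun a _ => hcon a)
    obtain ⟨α, hα⟩ := hex
    refine ⟨Iic α ×ˢ univ, (hseg α).prod countable_univ, ?_⟩
    refine (countable_singleton z).mono ?_
    rintro w ⟨hw, w1, w2, w3⟩
    rw [mem_singleton_iff]
    funext ⟨b, n⟩
    by_cases hb : b ≤ α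
    · exact hw (b, n) ⟨hb, trivial⟩
    · have hb' : α < b := lt_of_not_ge hb
      have hzf : z (b, n) = false := by
        by_contra h
        rw [Bool.not_eq_false] at h
        exact hα (h3 α b n hb' h)
      have hwf : w (b, n) = false := by
        by_contra h
        rw [Bool.not_eq_false] at h
        obtain ⟨m, hm⟩ := w3 α b n hb' h
        exact hα ⟨m, by rw [← hw (α, m) ⟨le_refl α, trivial⟩]; exact hm⟩
      rw [hzf, hwf]
  · have : (∃ a m n, z (a, m) = true ∧ z (a, n) = true ∧ m ≠ n) ∨
        (∃ a b n, z (a, n) = true ∧ z (b, n) = true ∧ a ≠ b) ∨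
        (∃ a b n, a < b ∧ z (b, n) = true ∧ ∀ m, z (a, m) ≠ true) := by
      by_contra hcon
      push Not at hcon
      exact hz ⟨fun a m n => hcon.1 a m n, fun a b n => hcon.2.1 a b n,
        fun a b n => hcon.2.2 a b n⟩
    rcases this with ⟨a, m, n, h1, h2, h3⟩ | ⟨a, b, n, h1, h2, h3⟩ | ⟨a, b, n, h1, h2, h3⟩
    · refine ⟨{(a, m), (a, n)}, (Set.toFinite _).countable, countable_empty.mono ?_⟩
      rintro w ⟨hw, w1, w2, w3⟩
      exact absurd (w1 a m n (by rw [hw _ (by simp), h1]) (by rw [hw _ (by simp), h2])) h3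
    · refine ⟨{(a, n), (b, n)}, (Set.toFinite _).countable, countable_empty.mono ?_⟩
      rintro w ⟨hw, w1, w2, w3⟩
      exact absurd (w2 a b n (by rw [hw _ (by simp), h1]) (by rw [hw _ (by simp), h2])) h3
    · refine ⟨{(b, n)} ∪ range fun m : ℕ => (a, m),
        (countable_singleton _).union (countable_range _), countable_empty.mono ?_⟩
      rintro w ⟨hw, w1, w2, w3⟩
      obtain ⟨m, hm⟩ := w3 a b n h1 (by rw [hw _ (by simp), h2])
      exact absurd (by rw [← hw (a, m) (by simp)]; exact hm) (h3 m)

theorem point_type (hW : ¬ (univ : Set W).Countable) (hseg : ∀ a : W, (Iic a).Countable)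
    (x : XX (W × ℕ → Bool) (Good W)) :
    ∃ K : Set (XX (W × ℕ → Bool) (Good W)), IsCompact K ∧ x ∈ K ∧
      (𝓝ˢ K).IsCountablyGenerated := by
  induction x using XX.cases with
  | h2 k n =>
    refine ⟨{iso k n}, isCompact_singleton, rfl, ?_⟩
    rw [nhdsSet_singleton, (isOpen_singleton_iff_nhds_eq_pure _).1 (isOpen_iso k n)]
    infer_instance
  | h1 z =>
    obtain ⟨C, hC, hCG⟩ := witness hW hseg z
    have : Countable C := hC.to_subtype
    let r : (W × ℕ → Bool) → (C → Bool) := fun w c => w c
    have hr : Continuous r := by fun_prop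
    have hK : {w : W × ℕ → Bool | ∀ c ∈ C, w c = z c} = r ⁻¹' {r z} := by
      ext w
      simp only [mem_preimage, mem_singleton_iff, r]
      constructor
      · intro h
        funext c
        exact h c c.2
      · intro h c hc
        exact congrFun h ⟨c, hc⟩
    have hKcl : IsClosed {w : W × ℕ → Bool | ∀ c ∈ C, w c = z c} := by
      rw [hK]
      exact isClosed_singleton.preimage hr
    refine ⟨pt '' {w | ∀ c ∈ C, w c = z c}, hKcl.isCompact.image continuous_pt,
      ⟨z, fun _ _ => rfl, rfl⟩, ?_⟩
    refine countablyGenerated hKcl.isCompact ?_ hCG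
    rw [hK, ← hr.isClosedMap.comap_nhds_eq hr]
    infer_instance

theorem no_map (hW : ¬ (univ : Set W).Countable) (hseg : ∀ a : W, (Iic a).Countable)
    {Y : Type} [TopologicalSpace Y] [FirstCountableTopology Y]
    {f : XX (W × ℕ → Bool) (Good W) → Y} (hf : Continuous f) (hc : IsClosedMap f)
    (hs : Function.Surjective f) (hfib : ∀ y : Y, IsCompact (f ⁻¹' {y})) : False := by
  classical
  have : T2Space (XX (W × ℕ → Bool) (Good W)) := t2
  have : T2Space Y := t2_image hc hs hfib
  obtain ⟨C, hCc, hC⟩ := depends (fun z => f (pt z)) (hf.comp continuous_pt)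
  -- bound the coordinates
  have hex : ∃ α : W, ∀ c ∈ C, c.1 < α := by
    by_contra hcon
    push Not at hcon
    apply hW
    have : (⋃ c ∈ C, Iic c.1).Countable := hCc.biUnion fun c _ => hseg c.1
    refine this.mono fun a _ => ?_
    obtain ⟨c, hc, hac⟩ := hcon a
    exact mem_iUnion₂.2 ⟨c, hc, hac⟩
  obtain ⟨α, hα⟩ := hex
  have henum : ∀ a : W, ∃ e : W → ℕ, InjOn e (Iic a) := fun a =>
    Set.countable_iff_exists_injOn.1 (hseg a)
  choose e he using henum
  -- the injections
  let q : W → W → ℕ := fun β a => if a < α then 2 * e α a else 2 * e β a + 1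
  have hq : ∀ β, α < β → ∀ a b, a < β → b < β → q β a = q β b → a = b := by
    intro β hβ a b ha hb hab
    simp only [q] at hab
    split_ifs at hab with h1 h2 h2
    · exact he α h1.le h2.le (by omega)
    · omega
    · omega
    · exact he β ha.le hb.le (by omega)
  let z : W → (W × ℕ → Bool) := fun β c => decide (c.1 < β ∧ c.2 = q β c.1)
  have hzG : ∀ β, α < β → z β ∈ Good W := by
    intro β hβ
    refine ⟨?_, ?_, ?_⟩
    · intro a m n hm hn
      simp only [z, decide_eq_true_eq] at hm hn
      rw [hm.2, hn.2]
    · intro a b n hm hn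
      simp only [z, decide_eq_true_eq] at hm hn
      exact hq β hβ a b hm.1 hn.1 (by rw [← hm.2, ← hn.2])
    · intro a b n hab hb
      simp only [z, decide_eq_true_eq] at hb ⊢
      exact ⟨q β a, hab.trans hb.1, rfl⟩
  have hzinj : InjOn z (Ioi α) := by
    intro β _ γ _ hβγ
    by_contra hne
    rcases lt_or_gt_of_ne hne with h | h
    · have h1 : z γ (β, q γ β) = true := by simp [z, h]
      rw [← hβγ] at h1
      simp [z] at h1
    · have h1 : z β (γ, q β γ) = true := by simp [z, h]
      rw [hβγ] at h1
      simp [z] at h1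
  have hfz : ∀ β, α < β → ∀ γ, α < γ → f (pt (z β)) = f (pt (z γ)) := by
    intro β hβ γ hγ
    refine hC (z β) (z γ) ?_
    intro c hcC
    have h1 := hα c hcC
    simp only [z, q, if_pos h1, h1.trans hβ, h1.trans hγ, true_and]
  have hIoi : ¬ (Ioi α).Countable := by
    intro h
    apply hW
    refine (h.union (hseg α)).mono fun a _ => ?_
    rcases lt_or_ge α a with h | h
    · exact Or.inl h
    · exact Or.inr h
  obtain ⟨β₀, hβ₀⟩ : (Ioi α).Nonempty := by
    by_contra h
    rw [not_nonempty_iff_eq_empty] at h
    exact hIoi (h ▸ countable_empty)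
  have hcount := fibre_countable (S := Good W) hf hfib (f (pt (z β₀)))
  apply hIoi
  have : (z '' Ioi α).Countable := by
    refine hcount.mono ?_
    rintro _ ⟨β, hβ, rfl⟩
    exact ⟨hzG β hβ, hfz β hβ β₀ hβ₀⟩
  exact Set.countable_of_injective_of_countable_image hzinj this

end

/-- There is a Hausdorff paracompact space in which every point lies in a compact set with a countable neighbourhood base, yet no continuous closed surjection with compact fibres maps it onto a first countable space. -/
theorem result :
    ∃ (X : Type) (_ : TopologicalSpace X),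
      T2Space X ∧ ParacompactSpace X ∧
      (∀ x : X, ∃ K : Set X, IsCompact K ∧ x ∈ K ∧ (nhdsSet K).IsCountablyGenerated) ∧
      ¬ ∃ (Y : Type) (_ : TopologicalSpace Y), FirstCountableTopology Y ∧
          ∃ f : X → Y, Continuous f ∧ IsClosedMap f ∧ Function.Surjective f ∧
            ∀ y : Y, IsCompact (f ⁻¹' {y}) := by
  let W : Type := (Cardinal.aleph 1).ord.ToType
  have hW : ¬ (univ : Set W).Countable := by
    rw [Set.countable_univ_iff, ← Cardinal.mk_le_aleph0_iff, not_le]
    have : Cardinal.mk W = Cardinal.aleph 1 := by simp [W]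
    rw [this]
    exact Cardinal.aleph0_lt_aleph_one
  have hseg : ∀ a : W, (Iic a).Countable := by
    intro a
    have h1 : (Iio a).Countable := by
      rw [← Cardinal.le_aleph0_iff_set_countable]
      have h2 : Cardinal.mk (Iio a) < Cardinal.mk W := Cardinal.mk_Iio_lt a (by simp [W])
      have h3 : Cardinal.mk W = Order.succ Cardinal.aleph0 := by
        rw [Cardinal.succ_aleph0]; simp [W]
      exact Order.lt_succ_iff.1 (h2.trans_le h3.le)
    refine (h1.union (countable_singleton a)).mono ?_
    intro b hb
    rcases lt_or_eq_of_le (show b ≤ a from hb) with h | h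
    · exact Or.inl h
    · exact Or.inr h
  refine ⟨XX (W × ℕ → Bool) (Good W), inferInstance, t2, paracompact, point_type hW hseg, ?_⟩
  rintro ⟨Y, _, hY, f, hf, hc, hs, hfib⟩
  exact no_map hW hseg hf hc hs hfib

end Pool.Agent.S08073
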