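import Pool.Statements.S08077

set_option autoImplicit false
open Pool Pool.MP_09a6d0_gt

namespace Pool.Agent.S08077

open Set

variable {X : Type}

/-- `g` lies in `A` and the members of `A` containing `g` are directed upwards. -/
def Good (A : Set (Set X)) (g : Set X) : Prop :=
  g ∈ A ∧ ∀ a ∈ A, ∀ b ∈ A, g ⊆ a → g ⊆ b → ∃ c ∈ A, a ⊆ c ∧ b ⊆ c

/-- The members of `A` lying below some member of `A` that contains `g`. -/
def Idl (A : Set (Set X)) (g : Set X) : Set (Set X) :=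
  {b | b ∈ A ∧ ∃ a ∈ A, g ⊆ a ∧ b ⊆ a}

/-- Every infinite subfamily with a common point has two distinct comparable members. -/
def FAC (B : Set (Set X)) : Prop :=
  ∀ L : Set (Set X), L ⊆ B → L.Infinite → (⋂₀ L).Nonempty → ∃ A ∈ L, ∃ C ∈ L, A ≠ C ∧ A ⊆ C

theorem no_seq {B : Set (Set X)} (hB : FAC B) (x : X) (f : ℕ → Set X) (hf : ∀ n, f n ∈ B)
    (hx : ∀ n, x ∈ f n) (hi : ∀ m n, m < n → ¬ f m ⊆ f n ∧ ¬ f n ⊆ f m) : False := by
  have hinj : Function.Injective f := by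
    intro m n h
    rcases lt_trichotomy m n with h1 | h1 | h1
    · exact absurd h.subset (hi m n h1).1
    · exact h1
    · exact absurd h.symm.subset (hi n m h1).1
  obtain ⟨A, ⟨m, rfl⟩, C, ⟨n, rfl⟩, hne, hsub⟩ := hB (range f) (range_subset_iff.2 hf)
    (infinite_range_of_injective hinj) ⟨x, by rintro _ ⟨n, rfl⟩; exact hx n⟩
  rcases lt_trichotomy m n with h1 | h1 | h1
  · exact (hi m n h1).1 hsub
  · exact hne (by rw [h1])
  · exact (hi n m h1).2 hsub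

theorem Good.up {A : Set (Set X)} {g a : Set X} (h : Good A g) (ha : a ∈ A) (hga : g ⊆ a) :
    Good A a :=
  ⟨ha, fun b hb c hc hab hac => h.2 b hb c hc (hga.trans hab) (hga.trans hac)⟩

theorem Good.idl_eq {A : Set (Set X)} {g a : Set X} (h : Good A g) (ha : a ∈ A) (hga : g ⊆ a) :
    Idl A a = Idl A g := by
  ext b
  constructor
  · rintro ⟨hb, c, hc, hac, hbc⟩
    exact ⟨hb, c, hc, hga.trans hac, hbc⟩
  · rintro ⟨hb, c, hc, hgc, hbc⟩
    obtain ⟨d, hd, had, hcd⟩ := h.2 a ha c hc hga hgc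
    exact ⟨hb, d, hd, had, hbc.trans hcd⟩

theorem exists_good {B A : Set (Set X)} (hB : FAC B) (hAB : A ⊆ B) {b : Set X} (hb : b ∈ A)
    {x : X} (hx : x ∈ b) : ∃ g, Good A g ∧ b ⊆ g := by
  by_contra hcon
  push Not at hcon
  have step : ∀ r : {r : Set X // r ∈ A ∧ b ⊆ r}, ∃ p : Set X × {r : Set X // r ∈ A ∧ b ⊆ r},
      p.1 ∈ A ∧ r.1 ⊆ p.1 ∧ r.1 ⊆ p.2.1 ∧ ∀ c ∈ A, p.1 ⊆ c → ¬ p.2.1 ⊆ c := by
    rintro ⟨r, hr, hbr⟩
    have h1 : ¬ Good A r := fun h => hcon r h hbr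
    unfold Good at h1
    push Not at h1
    obtain ⟨a, ha, c, hc, hra, hrc, h2⟩ := h1 hr
    exact ⟨(a, ⟨c, hc, hbr.trans hrc⟩), ha, hra, hrc, fun d hd h3 h4 => h2 d hd h3 h4⟩
  choose F hF using step
  let s : ℕ → {r : Set X // r ∈ A ∧ b ⊆ r} :=
    fun n => Nat.rec ⟨b, hb, subset_rfl⟩ (fun _ r => (F r).2) n
  have hs : ∀ n, s (n + 1) = (F (s n)).2 := fun n => rfl
  have hmono : ∀ m n, m ≤ n → (s m).1 ⊆ (s n).1 := by
    intro m n h
    induction n, h using Nat.le_induction with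
    | base => exact subset_rfl
    | succ n _ ih => exact ih.trans (by rw [hs]; exact (hF (s n)).2.2.1)
  refine no_seq hB x (fun n => (F (s n)).1) (fun n => hAB (hF (s n)).1)
    (fun n => (hF (s n)).2.1 ((s n).2.2 hx)) ?_
  intro m n hmn
  have h1 : (F (s m)).2.1 ⊆ (F (s n)).1 := by
    have := hmono (m + 1) n hmn
    rw [hs] at this
    exact this.trans (hF (s n)).2.1
  constructor
  · intro h
    exact (hF (s m)).2.2.2 _ (hF (s n)).1 h h1
  · intro h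
    exact (hF (s m)).2.2.2 _ (hF (s m)).1 subset_rfl (h1.trans h)

theorem finite_idl {B A : Set (Set X)} (hB : FAC B) (hAB : A ⊆ B) (x : X) :
    {J : Set (Set X) | (∃ g, Good A g ∧ J = Idl A g) ∧ x ∈ ⋃₀ J}.Finite := by
  by_contra hinf
  have hinf' : Infinite {J : Set (Set X) | (∃ g, Good A g ∧ J = Idl A g) ∧ x ∈ ⋃₀ J} :=
    Set.Infinite.to_subtype hinf
  have key : ∀ J : {J : Set (Set X) | (∃ g, Good A g ∧ J = Idl A g) ∧ x ∈ ⋃₀ J}, ∃ a : Set X,
      Good A a ∧ x ∈ a ∧ Idl A a = J.1 := by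
    rintro ⟨J, ⟨g, hg, rfl⟩, ⟨b, ⟨hbA, a, ha, hga, hba⟩, hxb⟩⟩
    exact ⟨a, hg.up ha hga, hba hxb, hg.idl_eq ha hga⟩
  choose f hf using key
  have hinj : Function.Injective f := by
    intro J K h
    apply Subtype.ext
    rw [← (hf J).2.2, ← (hf K).2.2, h]
  obtain ⟨_, ⟨J, rfl⟩, _, ⟨K, rfl⟩, hne, hsub⟩ := hB (range f)
    (by rintro _ ⟨J, rfl⟩; exact hAB (hf J).1.1)
    (infinite_range_of_injective hinj) ⟨x, by rintro _ ⟨J, rfl⟩; exact (hf J).2.1⟩
  apply hne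
  have : J = K := by
    apply Subtype.ext
    rw [← (hf J).2.2, ← (hf K).2.2]
    exact ((hf J).1.idl_eq (hf K).1.1 hsub).symm
  rw [this]

/-- A nonempty upward directed family that is closed downwards in `B'`. -/
structure Node (B' J : Set (Set X)) : Prop where
  sub : J ⊆ B'
  down : ∀ b ∈ J, ∀ c ∈ B', c ⊆ b → c ∈ J
  dir : ∀ a ∈ J, ∀ b ∈ J, ∃ c ∈ J, a ⊆ c ∧ b ⊆ c
  ne : (⋃₀ J).Nonempty

theorem node_idl {B' A : Set (Set X)} (hne : ∀ b ∈ B', b.Nonempty) (hAB : A ⊆ B')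
    (hdown : ∀ b ∈ A, ∀ c ∈ B', c ⊆ b → c ∈ A) {g : Set X} (hg : Good A g) :
    Node B' (Idl A g) where
  sub := fun b hb => hAB hb.1
  down := by
    rintro b ⟨hb, a, ha, hga, hba⟩ c hc hcb
    exact ⟨hdown b hb c hc hcb, a, ha, hga, hcb.trans hba⟩
  dir := by
    rintro a ⟨ha, a', ha', hga', haa'⟩ b ⟨hb, b', hb', hgb', hbb'⟩
    obtain ⟨c, hc, h1, h2⟩ := hg.2 a' ha' b' hb' hga' hgb'
    exact ⟨c, ⟨hc, c, hc, hga'.trans h1, subset_rfl⟩, haa'.trans h1, hbb'.trans h2⟩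
  ne := by
    obtain ⟨z, hz⟩ := hne g (hAB hg.1)
    exact ⟨z, g, ⟨hg.1, g, hg.1, subset_rfl, subset_rfl⟩, hz⟩

theorem Node.exists_big {B' J : Set (Set X)} (hJ : Node B' J) {F : Set X} (hF : F.Finite)
    (hFJ : F ⊆ ⋃₀ J) : ∃ b ∈ J, F ⊆ b := by
  induction F, hF using Set.Finite.induction_on with
  | empty =>
    obtain ⟨z, b, hb, hz⟩ := hJ.ne
    exact ⟨b, hb, empty_subset _⟩
  | insert ha hs ih =>
    obtain ⟨b, hb, hsb⟩ := ih ((subset_insert _ _).trans hFJ)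
    obtain ⟨c, hc, hac⟩ := hFJ (mem_insert _ _)
    obtain ⟨d, hd, h1, h2⟩ := hJ.dir b hb c hc
    exact ⟨d, hd, insert_subset (h2 hac) (hsb.trans h1)⟩

/-- `J` is bounded: its union lies in one member of `B'`. -/
def Bd (B' J : Set (Set X)) : Prop := ∃ b ∈ B', ⋃₀ J ⊆ b

/-- `J'` is a child of the unbounded family `J`. -/
def Ch (B' : Set (Set X)) (y : Set (Set X) → X) (J J' : Set (Set X)) : Prop :=
  ¬ Bd B' J ∧ ∃ g, Good {b | b ∈ J ∧ y J ∉ b} g ∧ J' = Idl {b | b ∈ J ∧ y J ∉ b} g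

theorem Ch.node {B' : Set (Set X)} {y : Set (Set X) → X} (hne : ∀ b ∈ B', b.Nonempty)
    {J J' : Set (Set X)} (hJ : Node B' J) (h : Ch B' y J J') : Node B' J' := by
  obtain ⟨-, g, hg, rfl⟩ := h
  refine node_idl hne (fun b hb => hJ.sub hb.1) ?_ hg
  rintro b ⟨hb, hyb⟩ c hc hcb
  exact ⟨hJ.down b hb c hc hcb, fun h => hyb (hcb h)⟩

theorem Ch.sub {B' : Set (Set X)} {y : Set (Set X) → X} {J J' : Set (Set X)}
    (h : Ch B' y J J') : J' ⊆ J := by
  obtain ⟨-, g, hg, rfl⟩ := h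
  exact fun b hb => hb.1.1

theorem Ch.miss {B' : Set (Set X)} {y : Set (Set X) → X} {J J' : Set (Set X)}
    (h : Ch B' y J J') : ∀ b ∈ J', y J ∉ b := by
  obtain ⟨-, g, hg, rfl⟩ := h
  exact fun b hb => hb.1.2

theorem wf_ch {B' : Set (Set X)} (hB : FAC B') (y : Set (Set X) → X)
    (hy : ∀ J : Set (Set X), (⋃₀ J).Nonempty → y J ∈ ⋃₀ J) (x : X) :
    WellFounded (fun J' J : Set (Set X) => Node B' J ∧ Ch B' y J J' ∧ x ∈ ⋃₀ J') := by
  rw [wellFounded_iff_isEmpty_descending_chain]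
  refine ⟨?_⟩
  rintro ⟨f, hf⟩
  have hsub : ∀ n, f (n + 1) ⊆ f n := fun n => (hf n).2.1.sub
  have hanti : Antitone f := antitone_nat_of_succ_le hsub
  have hxn : ∀ n, x ∈ ⋃₀ f n := fun n => sUnion_subset_sUnion (hsub n) (hf n).2.2
  have hmiss : ∀ m n, m < n → ∀ b ∈ f n, y (f m) ∉ b := by
    intro m n hmn b hb
    exact (hf m).2.1.miss b (hanti (Nat.succ_le_of_lt hmn) hb)
  obtain ⟨s, hs1, hs2⟩ := exists_seq_of_forall_finset_exists
     (fun p : ℕ × Set X => p.2 ∈ f p.1 ∧ x ∈ p.2 ∧ y (f p.1) ∈ p.2)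
     (fun p q => p.1 < q.1 ∧ ¬ q.2 ⊆ p.2) (by
      intro F hF
      have hk : ∀ p ∈ F, p.1 < F.sup Prod.fst + 1 :=
        fun p hp => Nat.lt_succ_of_le (Finset.le_sup (f := Prod.fst) hp)
      generalize F.sup Prod.fst + 1 = k at hk
      have hz : ∀ p ∈ F, ∃ z, z ∈ ⋃₀ f k ∧ z ∉ p.2 := by
        intro p hp
        by_contra hcon
        push Not at hcon
        exact (hf k).2.1.1 ⟨p.2, (hf p.1).1.sub (hF p hp).1, hcon⟩
      haveI : Nonempty X := ⟨x⟩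
      choose! z hz1 hz2 using hz
      obtain ⟨b, hb, hFb⟩ := (hf k).1.exists_big (F := insert x (insert (y (f k)) (z '' (F : Set (ℕ × Set X)))))
        (((F.finite_toSet.image z).insert _).insert _) (by
          rw [insert_subset_iff, insert_subset_iff]
          refine ⟨hxn k, hy _ (hf k).1.ne, ?_⟩
          rintro _ ⟨p, hp, rfl⟩
          exact hz1 p (Finset.mem_coe.1 hp))
      refine ⟨(k, b), ⟨hb, hFb (mem_insert _ _), hFb (mem_insert_of_mem _ (mem_insert _ _))⟩, ?_⟩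
      intro p hp
      refine ⟨hk p hp, fun h => hz2 p hp (h (hFb ?_))⟩
      exact mem_insert_of_mem _ (mem_insert_of_mem _ ⟨p, hp, rfl⟩))
  refine no_seq hB x (fun n => (s n).2) (fun n => (hf _).1.sub (hs1 n).1)
    (fun n => (hs1 n).2.1) ?_
  intro m n hmn
  exact ⟨fun h => hmiss _ _ (hs2 m n hmn).1 _ (hs1 n).1 (h (hs1 m).2.2), (hs2 m n hmn).2⟩

/-- Every T1 space with a base in which each infinite subfamily with nonempty intersection has two distinct members, one contained in the other, is metacompact: every open cover has an open refinement with each point in only finitely many members. -/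
theorem result :
    ∀ (X : Type) [TopologicalSpace X] [T1Space X] (B : Set (Set X)),
      TopologicalSpace.IsTopologicalBasis B →
      (∀ L : Set (Set X), L ⊆ B → L.Infinite → (⋂₀ L).Nonempty →
        ∃ A ∈ L, ∃ C ∈ L, A ≠ C ∧ A ⊆ C) →
      ∀ U : Set (Set X), (∀ u ∈ U, IsOpen u) → ⋃₀ U = Set.univ →
        ∃ V : Set (Set X), (∀ v ∈ V, IsOpen v) ∧ ⋃₀ V = Set.univ ∧
          (∀ v ∈ V, ∃ u ∈ U, v ⊆ u) ∧
          ∀ x : X, {v ∈ V | x ∈ v}.Finite := by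
  classical
  intro X _ _ B hbasis hfac U hUo hUc
  -- the base elements inside members of the cover
  set B' : Set (Set X) := {b | b ∈ B ∧ b.Nonempty ∧ ∃ u ∈ U, b ⊆ u} with hB'def
  have hB'B : B' ⊆ B := fun b hb => hb.1
  have hB : FAC B' := fun L hL => hfac L (hL.trans hB'B)
  have hne : ∀ b ∈ B', b.Nonempty := fun b hb => hb.2.1
  have hopen : ∀ b ∈ B', IsOpen b := fun b hb => hbasis.isOpen hb.1
  rcases isEmpty_or_nonempty X with hX | hX
  · refine ⟨∅, by simp, ?_, by simp, by simp⟩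
    ext z
    exact hX.elim z
  let y : Set (Set X) → X := fun J => if h : (⋃₀ J).Nonempty then h.some else Classical.arbitrary X
  have hy : ∀ J : Set (Set X), (⋃₀ J).Nonempty → y J ∈ ⋃₀ J := by
    intro J h
    simp only [y, dif_pos h]
    exact h.some_mem
  -- the tree
  let T : Set (Set (Set X)) :=
    {K | ∃ g, Good B' g ∧ Relation.ReflTransGen (Ch B' y) (Idl B' g) K}
  have hroot : ∀ g, Good B' g → Node B' (Idl B' g) := fun g hg =>
    node_idl hne subset_rfl (fun b _ c hc _ => hc) hg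
  have hnode' : ∀ J K, Node B' J → Relation.ReflTransGen (Ch B' y) J K → Node B' K := by
    intro J K hJ h
    induction h with
    | refl => exact hJ
    | tail _ h2 ih => exact Ch.node hne ih h2
  have hnode : ∀ K ∈ T, Node B' K := by
    rintro K ⟨g, hg, h⟩
    exact hnode' _ _ (hroot g hg) h
  have hsub' : ∀ J K, Relation.ReflTransGen (Ch B' y) J K → K ⊆ J := by
    intro J K h
    induction h with
    | refl => exact subset_rfl
    | tail _ h2 ih => exact h2.sub.trans ih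
  let w : Set (Set X) → Set X := fun J =>
    if Bd B' J then ⋃₀ J else (if h : ∃ b ∈ J, y J ∈ b then h.choose else ∅)
  have hwB : ∀ J, Bd B' J → w J = ⋃₀ J := fun J h => by simp only [w, if_pos h]
  have hwN : ∀ J, Node B' J → ¬ Bd B' J → w J ∈ J ∧ y J ∈ w J := by
    intro J hJ h
    have h1 : ∃ b ∈ J, y J ∈ b := hy J hJ.ne
    simp only [w, if_neg h, dif_pos h1]
    exact h1.choose_spec
  have hwsub : ∀ J, Node B' J → w J ⊆ ⋃₀ J := by
    intro J hJ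
    by_cases h : Bd B' J
    · rw [hwB J h]
    · exact subset_sUnion_of_mem (hwN J hJ h).1
  -- children cover
  have hchild : ∀ J, Node B' J → ¬ Bd B' J → ∀ x ∈ ⋃₀ J, x ≠ y J → ∃ J', Ch B' y J J' ∧ x ∈ ⋃₀ J' := by
    intro J hJ hnb x hx hxy
    obtain ⟨a, ha, hxa⟩ := hx
    have ho : IsOpen (a \ {y J}) := (hopen a (hJ.sub ha)).sdiff isClosed_singleton
    obtain ⟨b, hbB, hxb, hba⟩ := hbasis.exists_subset_of_mem_open (show x ∈ a \ {y J} from ⟨hxa, hxy⟩) ho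
    have hba' : b ⊆ a := hba.trans diff_subset
    have hbB' : b ∈ B' := by
      obtain ⟨-, -, u, hu, hau⟩ := hJ.sub ha
      exact ⟨hbB, ⟨x, hxb⟩, u, hu, hba'.trans hau⟩
    have hbJ : b ∈ J := hJ.down a ha b hbB' hba'
    have hby : y J ∉ b := fun h => (hba h).2 rfl
    obtain ⟨g, hg, hbg⟩ := exists_good (A := {b | b ∈ J ∧ y J ∉ b}) hB
      (fun b hb => hJ.sub hb.1) ⟨hbJ, hby⟩ hxb
    exact ⟨_, ⟨hnb, g, hg, rfl⟩, g, ⟨hg.1, g, hg.1, subset_rfl, subset_rfl⟩, hbg hxb⟩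
  -- covering
  have hcov : ∀ x : X, ∀ J, Node B' J → x ∈ ⋃₀ J →
      ∃ K, Relation.ReflTransGen (Ch B' y) J K ∧ x ∈ w K := by
    intro x J
    induction J using (wf_ch hB y hy x).induction with
    | _ J ih =>
      intro hJ hx
      by_cases hb : Bd B' J
      · exact ⟨J, Relation.ReflTransGen.refl, by rw [hwB J hb]; exact hx⟩
      · by_cases hxy : x = y J
        · exact ⟨J, Relation.ReflTransGen.refl, by rw [hxy]; exact (hwN J hJ hb).2⟩
        · obtain ⟨J', hc, hx'⟩ := hchild J hJ hb x hx hxy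
          obtain ⟨K, hK, hxK⟩ := ih J' ⟨hJ, hc, hx'⟩ (hc.node hne hJ) hx'
          exact ⟨K, Relation.ReflTransGen.head hc hK, hxK⟩
  -- finiteness
  have hfin : ∀ x : X, ∀ J, Node B' J → x ∈ ⋃₀ J →
      {K | Relation.ReflTransGen (Ch B' y) J K ∧ x ∈ ⋃₀ K}.Finite := by
    intro x J
    induction J using (wf_ch hB y hy x).induction with
    | _ J ih =>
      intro hJ hx
      have hF := finite_idl (A := {b | b ∈ J ∧ y J ∉ b}) hB (fun b hb => hJ.sub hb.1) x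
      have hF' : {J' | Ch B' y J J' ∧ x ∈ ⋃₀ J'}.Finite :=
        hF.subset (fun J' h => ⟨h.1.2, h.2⟩)
      have hU := hF'.biUnion (t := fun J' => {K | Relation.ReflTransGen (Ch B' y) J' K ∧ x ∈ ⋃₀ K})
        (fun J' h => ih J' ⟨hJ, h.1, h.2⟩ (h.1.node hne hJ) h.2)
      refine (hU.insert J).subset ?_
      rintro K ⟨hK, hxK⟩
      rcases Relation.ReflTransGen.cases_head hK with h | ⟨J', h1, h2⟩
      · exact Or.inl h.symm
      · refine Or.inr (mem_biUnion (x := J') ⟨h1, ?_⟩ ⟨h2, hxK⟩)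
        exact sUnion_subset_sUnion (hsub' _ _ h2) hxK
  refine ⟨w '' T, ?_, ?_, ?_, ?_⟩
  · rintro _ ⟨K, hK, rfl⟩
    by_cases h : Bd B' K
    · rw [hwB K h]
      exact isOpen_sUnion fun b hb => hopen b ((hnode K hK).sub hb)
    · exact hopen _ ((hnode K hK).sub (hwN K (hnode K hK) h).1)
  · rw [eq_univ_iff_forall]
    intro x
    obtain ⟨u, hu, hxu⟩ : x ∈ ⋃₀ U := by rw [hUc]; exact mem_univ x
    obtain ⟨b, hbB, hxb, hbu⟩ := hbasis.exists_subset_of_mem_open hxu (hUo u hu)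
    obtain ⟨g, hg, hbg⟩ := exists_good (A := B') hB subset_rfl
      (b := b) ⟨hbB, ⟨x, hxb⟩, u, hu, hbu⟩ hxb
    obtain ⟨K, hK, hxK⟩ := hcov x (Idl B' g) (hroot g hg)
      ⟨g, ⟨hg.1, g, hg.1, subset_rfl, subset_rfl⟩, hbg hxb⟩
    exact ⟨w K, ⟨K, ⟨g, hg, hK⟩, rfl⟩, hxK⟩
  · rintro _ ⟨K, hK, rfl⟩
    by_cases h : Bd B' K
    · obtain ⟨b, hb, hKb⟩ := h
      obtain ⟨-, -, u, hu, hbu⟩ := id hb
      exact ⟨u, hu, by rw [hwB K ⟨b, hb, hKb⟩]; exact hKb.trans hbu⟩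
    · obtain ⟨-, -, u, hu, hbu⟩ := (hnode K hK).sub (hwN K (hnode K hK) h).1
      exact ⟨u, hu, hbu⟩
  · intro x
    have hF0 := finite_idl (A := B') hB subset_rfl x
    have hU := hF0.biUnion (t := fun J => {K | Relation.ReflTransGen (Ch B' y) J K ∧ x ∈ ⋃₀ K})
      (by
        rintro J ⟨⟨g, hg, rfl⟩, hx⟩
        exact hfin x _ (hroot g hg) hx)
    refine (hU.image w).subset ?_
    rintro v ⟨⟨K, ⟨g, hg, hK⟩, rfl⟩, hxv⟩
    have hxK : x ∈ ⋃₀ K := hwsub K (hnode K ⟨g, hg, hK⟩) hxv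
    refine ⟨K, mem_biUnion (x := Idl B' g) ⟨⟨g, hg, rfl⟩, ?_⟩ ⟨hK, hxK⟩, rfl⟩
    exact sUnion_subset_sUnion (hsub' _ _ hK) hxK

end Pool.Agent.S08077
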