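import Pool.Statements.S08081
import Pool.Agent.B595.Bih.Final

set_option autoImplicit false
open Pool Pool.MP_0a6a2f_gt

namespace Pool.Agent.S08081

/-- There is a nondegenerate compact connected metrizable space of covering dimension at most 1 in which any point can be moved to any other by a homeomorphism, but for some pair x,y no homeomorphism swaps x and y. -/
theorem result :
    ∃ (X : Type) (_ : TopologicalSpace X),
      CompactSpace X ∧ ConnectedSpace X ∧ TopologicalSpace.MetrizableSpace X ∧
      Nontrivial X ∧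
      (∀ (n : ℕ) (U : Fin n → Set X), (∀ i, IsOpen (U i)) → (⋃ i, U i) = Set.univ →
        ∃ (m : ℕ) (V : Fin m → Set X), (∀ j, IsOpen (V j)) ∧ (⋃ j, V j) = Set.univ ∧
          (∀ j, ∃ i, V j ⊆ U i) ∧
          ∀ (x : X) (a b c : Fin m), x ∈ V a → x ∈ V b → x ∈ V c →
            a = b ∨ a = c ∨ b = c) ∧
      (∀ x y : X, ∃ h : X ≃ₜ X, h x = y) ∧
      ¬ (∀ x y : X, ∃ h : X ≃ₜ X, h x = y ∧ h y = x) :=
  Pool.B595.Bih.exists_space

end Pool.Agent.S08081
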