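import Pool.Statements.S08086

set_option autoImplicit false
open Pool Pool.MP_0b3857_gt

namespace Pool.Agent.S08086

open Set

section comb

set_option linter.unusedSectionVars false

variable {W : Type} [LinearOrder W] [WellFoundedLT W]

lemma exists_bound (hc : ∀ a : W, (Iio a).Countable) (hu : ¬ (univ : Set W).Countable)
    {A : Set W} (hA : A.Countable) : ∃ b, ∀ a ∈ A, a < b := by
  by_contra h
  push Not at h
  apply hu
  have hsub : (univ : Set W) ⊆ ⋃ a ∈ A, Iic a := by
    intro x _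
    obtain ⟨a, haA, hxa⟩ := h x
    exact mem_biUnion haA hxa
  refine (hA.biUnion ?_).mono hsub
  intro a _
  rw [← Iio_insert]
  exact (hc a).insert a

lemma pressing (hc : ∀ a : W, (Iio a).Countable) (hu : ¬ (univ : Set W).Countable)
    (S : W → Set (Ultrafilter W)) (hS : ∀ ξ, (S ξ).Finite) :
    ∃ α : W, ∀ β : W, ∃ ξ, β < ξ ∧
      ∀ w ∈ S ξ, Iio ξ ∈ w → (Iio α ∈ w ∨ ∀ a < ξ, Ici a ∈ w) := by
  classical
  by_contra hcon
  push Not at hcon
  choose g hg using hcon
  have hne : Nonempty W := by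
    by_contra hne
    rw [not_nonempty_iff] at hne
    exact hu (Set.countable_univ)
  have hb : ∀ x : W, ∃ y, x < y ∧ g x < y := by
    intro x
    obtain ⟨b, hb⟩ := exists_bound hc hu (A := {x, g x}) (by simp)
    exact ⟨b, hb x (by simp), hb (g x) (by simp)⟩
  choose nx hnx1 hnx2 using hb
  let δ : ℕ → W := fun n => Nat.rec (Classical.choice hne) (fun _ x => nx x) n
  have hδs : ∀ n, δ (n + 1) = nx (δ n) := fun n => rfl
  have hδlt : ∀ n, δ n < δ (n + 1) := fun n => by rw [hδs]; exact hnx1 _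
  have hδmono : StrictMono δ := strictMono_nat_of_lt_succ hδlt
  have hgδ : ∀ n, g (δ n) < δ (n + 1) := fun n => by rw [hδs]; exact hnx2 _
  have hex : {b : W | ∀ n, δ n < b}.Nonempty := by
    obtain ⟨b, hb⟩ := exists_bound hc hu (A := range δ) (countable_range δ)
    exact ⟨b, fun n => hb _ (mem_range_self n)⟩
  let d : W := wellFounded_lt.min {b : W | ∀ n, δ n < b} hex
  have hd : ∀ n, δ n < d := wellFounded_lt.min_mem {b : W | ∀ n, δ n < b} hex
  have hdmin : ∀ a < d, ∃ n, a ≤ δ n := by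
    intro a ha
    by_contra hno
    push Not at hno
    exact wellFounded_lt.not_lt_min {b : W | ∀ n, δ n < b} (x := a) hno ha
  have hpt : ∀ w ∈ S d, ∃ k, (Iio (δ k) ∈ w ∨ ∀ a < d, Ici a ∈ w) := by
    intro w _
    by_cases h : ∀ a < d, Ici a ∈ w
    · exact ⟨0, Or.inr h⟩
    · push Not at h
      obtain ⟨a, had, haw⟩ := h
      obtain ⟨n, hn⟩ := hdmin a had
      refine ⟨n, Or.inl ?_⟩
      have h1 : (Ici a)ᶜ ∈ w := Ultrafilter.compl_mem_iff_notMem.mpr haw
      refine Filter.mem_of_superset h1 ?_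
      intro x hx
      have hx' : ¬ a ≤ x := hx
      exact lt_of_lt_of_le (lt_of_not_ge hx') hn
  choose! k hk using hpt
  obtain ⟨K, hK⟩ : ∃ K, ∀ w ∈ S d, k w ≤ K := by
    obtain ⟨K, hK⟩ := ((hS d).image k).bddAbove
    exact ⟨K, fun w hw => hK (mem_image_of_mem k hw)⟩
  obtain ⟨w, hwS, hw1, hw2, a, had, haw⟩ := hg (δ K) d ((hgδ K).trans (hd (K + 1)))
  rcases hk w hwS with h | h
  · apply hw2
    refine Filter.mem_of_superset h ?_
    exact Iio_subset_Iio (hδmono.monotone (hK w hwS))
  · exact haw (h a had)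

lemma rec_seq (hc : ∀ a : W, (Iio a).Countable) (hu : ¬ (univ : Set W).Countable)
    (α : W) (h : W → W → W) :
    ∃ p : W → W, ∀ i, α < p i ∧ ∀ j < i, h j (p j) < p i := by
  classical
  have key : ∀ (i : W) (f : (j : W) → j < i → W),
      ∃ b, ∀ a ∈ insert α (Set.range (fun j : Iio i => h j.1 (f j.1 j.2))), a < b := by
    intro i f
    apply exists_bound hc hu
    apply Set.Countable.insert
    have : Countable (Iio i) := (hc i).to_subtype
    exact countable_range _
  let F : (i : W) → ((j : W) → j < i → W) → W := fun i f => Classical.choose (key i f)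
  have hF : ∀ (i : W) (f : (j : W) → j < i → W),
      ∀ a ∈ insert α (Set.range (fun j : Iio i => h j.1 (f j.1 j.2))), a < F i f :=
    fun i f => Classical.choose_spec (key i f)
  let p : W → W := (wellFounded_lt (α := W)).fix F
  have hp : ∀ i, p i = F i (fun j _ => p j) := fun i => (wellFounded_lt (α := W)).fix_eq F i
  refine ⟨p, fun i => ⟨?_, ?_⟩⟩
  · rw [hp i]
    exact hF i (fun j _ => p j) α (mem_insert _ _)
  · intro j hj
    rw [hp i]
    exact hF i (fun j _ => p j) _ (mem_insert_of_mem _ ⟨⟨j, hj⟩, rfl⟩)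

lemma unif_not_countable (hc : ∀ a : W, (Iio a).Countable) (hu : ¬ (univ : Set W).Countable)
    (w : Ultrafilter W) (hw : ∀ a, Ici a ∈ w) {C : Set W} (hC : C.Countable) : C ∉ w := by
  intro hCw
  obtain ⟨b, hb⟩ := exists_bound hc hu hC
  have h2 : C ∩ Ici b ∈ w := Filter.inter_mem hCw (hw b)
  have h3 : C ∩ Ici b = ∅ := by
    ext x
    simp only [mem_inter_iff, mem_Ici, mem_empty_iff_false, iff_false, not_and, not_le]
    exact fun hx => hb x hx
  rw [h3] at h2
  exact w.empty_notMem h2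

theorem comb (hc : ∀ a : W, (Iio a).Countable) (hu : ¬ (univ : Set W).Countable)
    (e : W ≃ (W × W) × ℕ)
    (S : ℕ → W → Set (Ultrafilter W)) (hS : ∀ n ξ, (S n ξ).Finite) :
    ∃ c : Set W, ∀ n, ¬ {ξ | ∀ w ∈ S n ξ, (c ∈ w ↔ Ici ξ ∈ w)}.Countable := by
  classical
  have hne : Nonempty W := by
    by_contra hne
    rw [not_nonempty_iff] at hne
    exact hu (Set.countable_univ)
  -- pressing down
  choose αn hαn using fun n => pressing hc hu (S n) (hS n)
  obtain ⟨α, hα⟩ := exists_bound hc hu (A := range αn) (countable_range αn)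
  have hQ : ∀ n (β : W), ∃ ξ, β < ξ ∧
      ∀ w ∈ S n ξ, Iio ξ ∈ w → (Iio α ∈ w ∨ ∀ a < ξ, Ici a ∈ w) := by
    intro n β
    obtain ⟨ξ, h1, h2⟩ := hαn n β
    refine ⟨ξ, h1, fun w hw hI => ?_⟩
    rcases h2 w hw hI with h | h
    · left
      exact Filter.mem_of_superset h (Iio_subset_Iio (hα _ (mem_range_self n)).le)
    · exact Or.inr h
  choose qf hqf1 hqf2 using hQ
  -- bound of nonuniform ultrafilters
  have hR : ∀ n (ξ : W), ∃ r, ξ < r ∧ ∀ w ∈ S n ξ, (∃ a, Iio a ∈ w) → Iio r ∈ w := by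
    intro n ξ
    have h1 : ∀ w ∈ S n ξ, ∃ a, (∃ a, Iio a ∈ w) → Iio a ∈ w := by
      intro w _
      by_cases h : ∃ a, Iio a ∈ w
      · obtain ⟨a, ha⟩ := h
        exact ⟨a, fun _ => ha⟩
      · exact ⟨ξ, fun h' => absurd h' h⟩
    choose! af haf using h1
    obtain ⟨r, hr⟩ := exists_bound hc hu (A := insert ξ (af '' S n ξ))
      (((hS n ξ).countable.image af).insert ξ)
    refine ⟨r, hr ξ (mem_insert _ _), fun w hw hex => ?_⟩
    exact Filter.mem_of_superset (haf w hw hex)
      (Iio_subset_Iio (hr _ (mem_insert_of_mem _ (mem_image_of_mem af hw))).le)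
  choose rf hrf1 hrf2 using hR
  -- recursion
  obtain ⟨p, hp⟩ := rec_seq hc hu α (fun j x => rf (e j).2 (qf (e j).2 x))
  let q : W → W := fun j => qf (e j).2 (p j)
  let r : W → W := fun j => rf (e j).2 (q j)
  have hpq : ∀ j, p j < q j := fun j => hqf1 _ _
  have hqr : ∀ j, q j < r j := fun j => hrf1 _ _
  have hrp : ∀ i j, j < i → r j < p i := fun i j hji => (hp i).2 j hji
  have hαp : ∀ i, α < p i := fun i => (hp i).1
  have hqmono : StrictMono q := fun i j hij => (hqr i).trans ((hrp j i hij).trans (hpq j))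
  let D : Set (W × W) → Set W := fun y => ⋃ j ∈ {j | (e j).1 ∈ y}, Ico (p j) (q j)
  have hDmono : ∀ y z, y ⊆ z → D y ⊆ D z := by
    intro y z hyz x hx
    simp only [D, mem_iUnion] at hx ⊢
    obtain ⟨j, hj, hxj⟩ := hx
    exact ⟨j, hyz hj, hxj⟩
  have hdisj : ∀ i j x, x ∈ Ico (p i) (q i) → x ∈ Ico (p j) (q j) → i = j := by
    intro i j x hi hj
    rcases lt_trichotomy i j with h | h | h
    · exact absurd (lt_of_lt_of_le ((hqr i).trans (hrp j i h)) hj.1) (not_lt.mpr hi.2.le)
    · exact h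
    · exact absurd (lt_of_lt_of_le ((hqr j).trans (hrp i j h)) hi.1) (not_lt.mpr hj.2.le)
  have hDinter : ∀ y z, D y ∩ D z ⊆ D (y ∩ z) := by
    intro y z x hx
    simp only [D, mem_inter_iff, mem_iUnion] at hx ⊢
    obtain ⟨⟨i, hi, hxi⟩, ⟨j, hj, hxj⟩⟩ := hx
    have hij := hdisj i j x hxi hxj
    subst hij
    exact ⟨i, ⟨hi, hj⟩, hxi⟩
  have hDctbl : ∀ y : Set (W × W), y.Countable → (D y).Countable := by
    intro y hy
    have h1 : {j | (e j).1 ∈ y}.Countable := by
      have h2 : (e ⁻¹' (y ×ˢ (univ : Set ℕ))).Countable :=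
        (hy.prod Set.countable_univ).preimage e.injective
      refine h2.mono ?_
      intro j hj
      exact ⟨hj, mem_univ _⟩
    exact h1.biUnion (fun j _ => (hc (q j)).mono (fun x hx => hx.2))
  -- enumeration of the ultrafilters
  have hen : ∀ j : W, ∃ f : ℕ → Ultrafilter W, S (e j).2 (q j) ⊆ range f := by
    intro j
    have : Nonempty (Ultrafilter W) := ⟨pure (Classical.choice hne)⟩
    exact Set.countable_iff_exists_subset_range.mp (hS _ _).countable
  choose gf hgf using hen
  let w : W → Ultrafilter W := fun i => gf (e i).1.1 (e i).2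
  have hw : ∀ j, ∀ u ∈ S (e j).2 (q j), ∃ i, w i = u := by
    intro j u hu'
    obtain ⟨k, hk⟩ := hgf j hu'
    refine ⟨e.symm ((j, j), k), ?_⟩
    simp only [w, Equiv.apply_symm_apply]
    exact hk
  -- the diagonal function
  have hh : ∀ i : W, ∃ h : W → W, (∃ h : W → W, D {z | z.2 < h z.1} ∈ w i) →
      D {z | z.2 < h z.1} ∈ w i := by
    intro i
    by_cases h : ∃ h : W → W, D {z | z.2 < h z.1} ∈ w i
    · obtain ⟨h0, hh0⟩ := h
      exact ⟨h0, fun _ => hh0⟩
    · exact ⟨id, fun h' => absurd h' h⟩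
  choose hf hhf using hh
  have hfb : ∀ a : W, ∃ b, ∀ i < a, hf i a < b := by
    intro a
    obtain ⟨b, hb⟩ := exists_bound hc hu (A := (fun i => hf i a) '' Iio a) ((hc a).image _)
    exact ⟨b, fun i hi => hb _ (mem_image_of_mem _ hi)⟩
  choose f hf' using hfb
  let Y : Set (W × W) := {z | z.2 = f z.1}
  have hY : ∀ i, (∀ a, Ici a ∈ w i) → D Y ∉ w i := by
    intro i hunif hmem
    by_cases h : ∃ h : W → W, D {z | z.2 < h z.1} ∈ w i
    · have h1 := hhf i h
      have h2 : D Y ∩ D {z | z.2 < hf i z.1} ∈ w i := Filter.inter_mem hmem h1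
      have h3 : (Y ∩ {z : W × W | z.2 < hf i z.1}).Countable := by
        have h4 : ((fun a => (a, f a)) '' Iic i).Countable := by
          apply Set.Countable.image
          rw [← Iio_insert]
          exact (hc i).insert i
        refine h4.mono ?_
        rintro ⟨a, b⟩ ⟨hab, hab2⟩
        have hab' : b = f a := hab
        have hab2' : b < hf i a := hab2
        refine ⟨a, ?_, ?_⟩
        · by_contra hia
          have hia' : i < a := lt_of_not_ge hia
          have := hf' a i hia'
          rw [hab'] at hab2'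
          exact absurd this (not_lt.mpr hab2'.le)
        · simp [hab']
      have h5 : (D Y ∩ D {z | z.2 < hf i z.1}).Countable :=
        (hDctbl _ h3).mono (hDinter _ _)
      exact unif_not_countable hc hu (w i) hunif h5 h2
    · apply h
      have hb : ∀ x : W, ∃ y, x < y := by
        intro x
        obtain ⟨b, hb⟩ := exists_bound hc hu (A := {x}) (by simp)
        exact ⟨b, hb x (by simp)⟩
      choose sx hsx using hb
      refine ⟨fun a => sx (f a), Filter.mem_of_superset hmem (hDmono _ _ ?_)⟩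
      rintro ⟨a, b⟩ hab
      have hab' : b = f a := hab
      simp only [Set.mem_ofPred_eq, hab']
      exact hsx _
  refine ⟨(Iio α ∪ D Y)ᶜ, fun n hcount => ?_⟩
  have hgood : ∀ j, (e j).1 ∈ Y → (e j).2 = n →
      q j ∈ {ξ | ∀ w ∈ S n ξ, ((Iio α ∪ D Y)ᶜ ∈ w ↔ Ici ξ ∈ w)} := by
    intro j hjY hjn
    subst hjn
    intro u hu'
    constructor
    · intro hcu
      by_contra hI
      have hI' : Iio (q j) ∈ u := by
        have : (Ici (q j))ᶜ ∈ u := Ultrafilter.compl_mem_iff_notMem.mpr hI
        rwa [compl_Ici] at this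
      rcases hqf2 (e j).2 (p j) u hu' hI' with h | h
      · have h2 : (Iio α ∪ D Y) ∈ u := Filter.mem_of_superset h subset_union_left
        exact (Ultrafilter.compl_mem_iff_notMem.mp hcu) h2
      · have h1 : Ici (p j) ∩ Iio (q j) ∈ u := Filter.inter_mem (h (p j) (hpq j)) hI'
        have h2 : (Iio α ∪ D Y) ∈ u := by
          refine Filter.mem_of_superset h1 (fun x hx => Or.inr ?_)
          simp only [D, mem_iUnion]
          exact ⟨j, hjY, hx⟩
        exact (Ultrafilter.compl_mem_iff_notMem.mp hcu) h2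
    · intro hI
      by_cases hb : ∃ a, Iio a ∈ u
      · have h1 : Iio (r j) ∈ u := hrf2 (e j).2 (q j) u hu' hb
        have h2 : Ici (q j) ∩ Iio (r j) ∈ u := Filter.inter_mem hI h1
        refine Filter.mem_of_superset h2 ?_
        rintro x ⟨hx1, hx2⟩ hx3
        have hx1' : q j ≤ x := hx1
        have hx2' : x < r j := hx2
        rcases hx3 with hx3 | hx3
        · have hx3' : x < α := hx3
          exact absurd (hx1'.trans_lt hx3') (not_lt.mpr ((hαp j).trans (hpq j)).le)
        · simp only [D, mem_iUnion] at hx3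
          obtain ⟨i, hi, hxi⟩ := hx3
          rcases lt_trichotomy i j with h | h | h
          · exact absurd hxi.2 (not_lt.mpr (((hqmono h).le).trans hx1'))
          · subst h
            exact absurd hxi.2 (not_lt.mpr hx1')
          · exact absurd (hx2'.trans (hrp i j h)) (not_lt.mpr hxi.1)
      · push Not at hb
        have hunif : ∀ a, Ici a ∈ u := by
          intro a
          have := Ultrafilter.compl_mem_iff_notMem.mpr (hb a)
          rwa [compl_Iio] at this
        obtain ⟨i, hi⟩ := hw j u hu'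
        have h1 : D Y ∉ u := by
          rw [← hi]
          apply hY
          rw [hi]
          exact hunif
        rw [Ultrafilter.compl_mem_iff_notMem, Ultrafilter.union_mem_iff]
        rintro (h | h)
        · exact hb α h
        · exact h1 h
  -- uncountability
  apply hu
  have hinj : Function.Injective (fun a : W => q (e.symm ((a, f a), n))) := by
    intro a b hab
    have h1 := hqmono.injective hab
    have h2 := e.symm.injective h1
    simpa using (Prod.ext_iff.mp (Prod.ext_iff.mp h2).1).1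
  have hpre := hcount.preimage hinj
  refine hpre.mono ?_
  intro a _
  apply hgood
  · simp [Y]
  · simp

end comb


section topo

variable {W : Type}

/-- The characteristic function of the clopen set of ultrafilters containing `A`. -/
noncomputable def chi (A : Set W) : Ultrafilter W → ℝ :=
  Set.indicator {u : Ultrafilter W | A ∈ u} (fun _ => (1 : ℝ))

lemma chi_of_mem {A : Set W} {u : Ultrafilter W} (h : A ∈ u) : chi A u = 1 :=
  Set.indicator_of_mem (s := {u : Ultrafilter W | A ∈ u}) h _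

lemma chi_of_notMem {A : Set W} {u : Ultrafilter W} (h : A ∉ u) : chi A u = 0 :=
  Set.indicator_of_notMem (s := {u : Ultrafilter W | A ∈ u}) h _

lemma chi_cont (A : Set W) : Continuous (chi A) := by
  have hcl : IsClopen {u : Ultrafilter W | A ∈ u} :=
    ⟨ultrafilter_isClosed_basic A, ultrafilter_isOpen_basic A⟩
  exact continuous_const.indicator (fun a ha => by
    rw [hcl.frontier_eq] at ha
    exact absurd ha (Set.notMem_empty a))

lemma chi_eq_iff {A B : Set W} {u : Ultrafilter W} (h : A ∈ u ↔ B ∈ u) : chi A u = chi B u := by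
  by_cases hA : A ∈ u
  · rw [chi_of_mem hA, chi_of_mem (h.mp hA)]
  · rw [chi_of_notMem hA, chi_of_notMem (fun hB => hA (h.mpr hB))]

variable [LinearOrder W] [WellFoundedLT W]

/-- The tail functions. -/
noncomputable def tl (ξ : W) : {g : Ultrafilter W → ℝ // Continuous g} :=
  ⟨chi (Ici ξ), chi_cont _⟩

lemma half_basis (f : Ultrafilter W → ℝ) (hf : Continuous f) (u : Ultrafilter W)
    (hu : 1 / 2 < f u) : ∃ A ∈ u, ∀ v : Ultrafilter W, A ∈ v → 1 / 2 < f v := by
  have ho : IsOpen (f ⁻¹' Ioi (1 / 2)) := isOpen_Ioi.preimage hf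
  obtain ⟨t, ⟨A, rfl⟩, hAu, hAs⟩ :=
    ultrafilterBasis_is_basis.isOpen_iff.mp ho u hu
  exact ⟨A, hAu, fun v hv => hAs hv⟩

lemma cover_pt (hne : Nonempty W) (f : {g : Ultrafilter W → ℝ // Continuous g}) :
    ∃ U : Set {g : Ultrafilter W → ℝ // Continuous g}, IsOpen U ∧ f ∈ U ∧
      ∀ ξ η : W, tl ξ ∈ U → tl η ∈ U → ξ = η := by
  classical
  have hev : ∀ u : Ultrafilter W,
      Continuous (fun g : {g : Ultrafilter W → ℝ // Continuous g} => g.1 u) :=
    fun u => (continuous_apply u).comp continuous_subtype_val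
  -- a uniform ultrafilter
  let u : Ultrafilter W := Ultrafilter.of Filter.atTop
  have hu : ∀ a : W, Ici a ∈ u := fun a => Ultrafilter.of_le _ (Filter.Ici_mem_atTop a)
  by_cases h1 : f.1 u = 1
  · obtain ⟨A, hAu, hA⟩ := half_basis f.1 f.2 u (by rw [h1]; norm_num)
    have hAne : A.Nonempty := by
      by_contra h
      rw [not_nonempty_iff_eq_empty] at h
      rw [h] at hAu
      exact u.empty_notMem hAu
    obtain ⟨a0, ha0⟩ := hAne
    have hne2 : {a : W | 1 / 2 < f.1 (pure a)}.Nonempty :=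
      ⟨a0, hA (pure a0) (by simpa using ha0)⟩
    let ξ : W := wellFounded_lt.min _ hne2
    have hξ : 1 / 2 < f.1 (pure ξ) := wellFounded_lt.min_mem _ hne2
    have hξmin : ∀ a < ξ, ¬ 1 / 2 < f.1 (pure a) := by
      intro a ha h
      exact wellFounded_lt.not_lt_min {a : W | 1 / 2 < f.1 (pure a)} (x := a) h ha
    have hU1 : IsOpen {g : {g : Ultrafilter W → ℝ // Continuous g} | 1 / 2 < g.1 (pure ξ)} :=
      isOpen_lt continuous_const (hev _)
    have hU1' : ∀ η, tl η ∈ {g : {g : Ultrafilter W → ℝ // Continuous g} | 1 / 2 < g.1 (pure ξ)} →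
        η ≤ ξ := by
      intro η hη
      by_contra hlt
      have h2 : (tl η).1 (pure ξ) = 0 := chi_of_notMem (by simpa using hlt)
      have h3 : 1 / 2 < (tl η).1 (pure ξ) := hη
      rw [h2] at h3
      norm_num at h3
    by_cases hbot : ∃ a, a < ξ
    · obtain ⟨a1, ha1⟩ := hbot
      have : Nonempty (Iio ξ) := ⟨⟨a1, ha1⟩⟩
      let w : Ultrafilter W := (Ultrafilter.of (Filter.atTop : Filter (Iio ξ))).map Subtype.val
      have hw : ∀ a < ξ, Ici a ∩ Iio ξ ∈ w := by
        intro a ha
        rw [Ultrafilter.mem_map]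
        refine Ultrafilter.of_le _ (Filter.mem_of_superset (Filter.Ici_mem_atTop ⟨a, ha⟩) ?_)
        intro x hx
        exact ⟨hx, x.2⟩
      have hfw : ¬ 1 / 2 < f.1 w := by
        intro h
        obtain ⟨B, hBw, hB⟩ := half_basis f.1 f.2 w h
        have h4 : B ∩ (Ici a1 ∩ Iio ξ) ∈ w := Filter.inter_mem hBw (hw a1 ha1)
        have h5 : (B ∩ (Ici a1 ∩ Iio ξ)).Nonempty := by
          by_contra h
          rw [not_nonempty_iff_eq_empty] at h
          rw [h] at h4
          exact w.empty_notMem h4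
        obtain ⟨x, hxB, _, hx⟩ := h5
        exact hξmin x hx (hB (pure x) (by simpa using hxB))
      have hU2 : IsOpen {g : {g : Ultrafilter W → ℝ // Continuous g} | g.1 w < 1} :=
        isOpen_lt (hev _) continuous_const
      refine ⟨_, hU1.inter hU2, ⟨hξ, ?_⟩, ?_⟩
      · have : f.1 w ≤ 1 / 2 := not_lt.mp hfw
        exact lt_of_le_of_lt this (by norm_num)
      · have key : ∀ η, tl η ∈ ({g : {g : Ultrafilter W → ℝ // Continuous g} |
            1 / 2 < g.1 (pure ξ)} ∩ {g | g.1 w < 1}) → η = ξ := by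
          intro η hη
          have h6 := hU1' η hη.1
          rcases lt_or_eq_of_le h6 with h7 | h7
          · exfalso
            have h8 : (tl η).1 w = 1 :=
              chi_of_mem (Filter.mem_of_superset (hw η h7) inter_subset_left)
            have h9 : (tl η).1 w < 1 := hη.2
            rw [h8] at h9
            exact lt_irrefl _ h9
          · exact h7
        intro a b ha hb
        rw [key a ha, key b hb]
    · refine ⟨_, hU1, hξ, ?_⟩
      intro a b ha hb
      have h6 := hU1' a ha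
      have h7 := hU1' b hb
      rcases lt_or_eq_of_le h6 with h8 | h8
      · exact absurd ⟨a, h8⟩ hbot
      · rcases lt_or_eq_of_le h7 with h9 | h9
        · exact absurd ⟨b, h9⟩ hbot
        · rw [h8, h9]
  · refine ⟨{g | g.1 u ≠ 1}, isOpen_ne_fun (hev u) continuous_const, h1, ?_⟩
    intro ξ η hξ _
    exact absurd (chi_of_mem (hu ξ)) hξ

end topo

/-- The negation of the preceding statement: For every compact Hausdorff X, the space of continuous real functions on X with the pointwise topology is submetalindelöf. Every open cover has a sequence of open refining covers such that each point lies in only countably many members of at least one of them. -/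
theorem result :
    ¬ (∀ (X : Type) [TopologicalSpace X] [CompactSpace X] [T2Space X],
      ∀ 𝒰 : Set (Set {g : X → ℝ // Continuous g}),
        (∀ U ∈ 𝒰, IsOpen U) → ⋃₀ 𝒰 = Set.univ →
        ∃ 𝒱 : ℕ → Set (Set {g : X → ℝ // Continuous g}),
          (∀ n, ∀ V ∈ 𝒱 n, IsOpen V ∧ ∃ U ∈ 𝒰, V ⊆ U) ∧
          (∀ n, ⋃₀ 𝒱 n = Set.univ) ∧
          ∀ x : {g : X → ℝ // Continuous g}, ∃ n, {V ∈ 𝒱 n | x ∈ V}.Countable) := by
  classical
  intro H
  let W : Type := (Cardinal.aleph 1).ord.ToType
  have hW : Cardinal.mk W = Cardinal.aleph 1 := by simp [W]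
  have hc : ∀ a : W, (Iio a).Countable := by
    intro a
    have h1 : Cardinal.mk (Iio a) < Cardinal.mk W := Cardinal.mk_Iio_lt a (by simp [W])
    rw [hW] at h1
    rw [← Cardinal.le_aleph0_iff_set_countable, ← Order.lt_succ_iff, ← Cardinal.aleph_zero,
      ← Cardinal.aleph_succ]
    simpa using h1
  have hu : ¬ (univ : Set W).Countable := by
    intro h
    have h1 := Cardinal.le_aleph0_iff_set_countable.mpr h
    rw [Cardinal.mk_univ, hW] at h1
    exact absurd h1 (not_le.mpr Cardinal.aleph0_lt_aleph_one)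
  have he : Nonempty (W ≃ (W × W) × ℕ) := by
    rw [← Cardinal.eq]
    simp only [Cardinal.mk_prod, Cardinal.lift_id, hW, Cardinal.mk_nat]
    rw [Cardinal.mul_eq_self (Cardinal.aleph0_le_aleph 1),
      Cardinal.mul_eq_left (Cardinal.aleph0_le_aleph 1) (Cardinal.aleph0_le_aleph 1)
        Cardinal.aleph0_ne_zero]
  obtain ⟨e⟩ := he
  have hne : Nonempty W := by
    by_contra hne
    rw [not_nonempty_iff] at hne
    exact hu (Set.countable_univ)
  let 𝒰 : Set (Set {g : Ultrafilter W → ℝ // Continuous g}) :=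
    {U | IsOpen U ∧ ∀ ξ η : W, tl ξ ∈ U → tl η ∈ U → ξ = η}
  obtain ⟨𝒱, hV1, hV2, hV3⟩ := H (Ultrafilter W) 𝒰 (fun U hU => hU.1) (by
    rw [Set.eq_univ_iff_forall]
    intro f
    obtain ⟨U, hU, hf, hU'⟩ := cover_pt hne f
    exact ⟨U, ⟨hU, hU'⟩, hf⟩)
  have hV : ∀ (n : ℕ) (ξ : W), ∃ V ∈ 𝒱 n, tl ξ ∈ V := by
    intro n ξ
    have h1 : tl ξ ∈ ⋃₀ 𝒱 n := by rw [hV2 n]; exact mem_univ _
    obtain ⟨V, hV, hξ⟩ := h1
    exact ⟨V, hV, hξ⟩
  choose V hVmem hVξ using hV
  have hfin : ∀ (n : ℕ) (ξ : W), ∃ I : Finset (Ultrafilter W),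
      ∀ g : {g : Ultrafilter W → ℝ // Continuous g},
        (∀ a ∈ I, g.1 a = (tl ξ).1 a) → g ∈ V n ξ := by
    intro n ξ
    have ho := (hV1 n (V n ξ) (hVmem n ξ)).1
    rw [isOpen_induced_iff] at ho
    obtain ⟨O, hO, hOV⟩ := ho
    rw [isOpen_pi_iff] at hO
    have h1 : (tl ξ).1 ∈ O := by
      have : tl ξ ∈ Subtype.val ⁻¹' O := by rw [hOV]; exact hVξ n ξ
      exact this
    obtain ⟨I, u, hu1, hu2⟩ := hO _ h1
    refine ⟨I, fun g hg => ?_⟩
    rw [← hOV]
    apply hu2
    intro a ha
    rw [hg a ha]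
    exact (hu1 a ha).2
  choose I hI using hfin
  obtain ⟨c, hcomb⟩ := comb hc hu e (fun n ξ => (I n ξ : Set (Ultrafilter W)))
    (fun n ξ => (I n ξ).finite_toSet)
  obtain ⟨n, hn⟩ := hV3 ⟨chi c, chi_cont c⟩
  apply hcomb n
  have hinj : Function.Injective (V n) := by
    intro ξ η h
    obtain ⟨U, hU, hVU⟩ := (hV1 n (V n ξ) (hVmem n ξ)).2
    exact hU.2 ξ η (hVU (hVξ n ξ)) (hVU (by rw [h]; exact hVξ n η))
  refine (hn.preimage hinj).mono ?_
  intro ξ hξ
  refine ⟨hVmem n ξ, ?_⟩
  apply hI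
  intro a ha
  exact chi_eq_iff (hξ a ha)

end Pool.Agent.S08086
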