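import Pool.Statements.S08087
import Pool.Agent.VPK.MainMid
import Pool.Agent.VPF.Small
import Pool.Agent.VPF.Large

set_option autoImplicit false
open MeasureTheory ProbabilityTheory
open Pool Pool.MP_0b6df6_gt

namespace Pool.Agent.S08087

theorem scalar_small (n m : ℕ) (hn : 3 ≤ n) (hn' : n ≤ 29) (hm : 1 ≤ m) :
    1 ≤ ((n + m).choose n : ENNReal) *
      ∫⁻ x, (∫⁻ b in Set.Ioi (0 : ℝ), ∫⁻ a : ℝ,
        Pool.Agent.VPK.QQ (|x| / √(n : ℝ)) a b ^ m * Pool.Agent.VPK.KK n a b)
        ∂(gaussianReal 0 1) := by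
  rcases le_or_gt m 1000 with h | h
  · exact Pool.Agent.VPF.small n m hn hn' hm h
  · exact Pool.Agent.VPF.scalar_large n m hn hn' (by split_ifs <;> omega)

/-- For all n ≥ 1 and N ≥ n, if g_1..g_N are independent standard Gaussian vectors in R^n and K is the convex hull of the ±g_i, then the expected value of vol(K)·vol(polar of K) is at least 4^n/n!, the volume product of the cube. -/
theorem result :
    ∀ n N : ℕ, 1 ≤ n → n ≤ N →
      (4 : ENNReal) ^ n / (n.factorial : ENNReal) ≤
        ∫⁻ ω : Fin N → (Fin n → ℝ),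
          volume (convexHull ℝ (Set.range ω ∪ Set.range (fun i => -ω i))) *
          volume {y : Fin n → ℝ | ∀ x ∈ convexHull ℝ (Set.range ω ∪ Set.range (fun i => -ω i)),
                    ∑ j, x j * y j ≤ 1}
        ∂(Measure.pi (fun _ : Fin N => Measure.pi (fun _ : Fin n => gaussianReal 0 1))) := by
  intro n N h1 hN
  by_cases h : 3 ≤ n ∧ n ≤ 29
  · obtain ⟨m, rfl⟩ : ∃ m, N = n + m := ⟨N - n, by omega⟩
    rcases Nat.eq_zero_or_pos m with rfl | hm
    · exact Pool.Agent.VPK.main_zero n h1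
    · exact Pool.Agent.VPK.main_of_scalar n m (by omega) (scalar_small n m h.1 h.2 hm)
  · exact Pool.Agent.VPK.main_mid n N h1 (by omega) hN

end Pool.Agent.S08087
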