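import Pool.Statements.S08096

set_option autoImplicit false
open Pool Pool.MP_0decd7_gt

namespace Pool.Agent.S08096

open Set Filter Topology TopologicalSpace

/-- closure in the Stone-Cech compactification of a set of naturals -/
def E (a : Set ℕ) : Set (StoneCech ℕ) := closure ((stoneCechUnit : ℕ → StoneCech ℕ) '' a)

theorem exists_split (a : Set ℕ) : ∃ g : StoneCech ℕ → Bool, Continuous g ∧
    ∀ n, g (stoneCechUnit n) = true ↔ n ∈ a := by
  classical
  have hc : Continuous (fun n : ℕ => decide (n ∈ a)) := continuous_of_discreteTopology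
  refine ⟨stoneCechExtend hc, continuous_stoneCechExtend hc, ?_⟩
  intro n
  have := congrFun (stoneCechExtend_extends hc) n
  simp only [Function.comp] at this
  rw [this]
  simp

theorem subset_closure_of_open {U : Set (StoneCech ℕ)} (hU : IsOpen U) (a : Set ℕ)
    (h : ∀ n, stoneCechUnit n ∈ U → n ∈ a) : U ⊆ E a := by
  intro z hz
  rw [E, mem_closure_iff]
  intro V hV hzV
  obtain ⟨w, hw, n, rfl⟩ := (denseRange_stoneCechUnit (α := ℕ)).exists_mem_open (hU.inter hV) ⟨z, hz, hzV⟩ |>.elim
    (fun n hn => (⟨stoneCechUnit n, hn, n, rfl⟩ : ∃ w, w ∈ U ∩ V ∧ ∃ n, stoneCechUnit n = w))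
  exact ⟨stoneCechUnit n, hw.2, n, h n hw.1, rfl⟩

theorem E_eq (a : Set ℕ) (g : StoneCech ℕ → Bool) (hg : Continuous g)
    (h : ∀ n, g (stoneCechUnit n) = true ↔ n ∈ a) : E a = g ⁻¹' {true} := by
  have hcl : IsClopen (g ⁻¹' {true}) := (isClopen_discrete {true}).preimage hg
  apply Subset.antisymm
  · apply closure_minimal _ hcl.1
    rintro _ ⟨n, hn, rfl⟩
    exact (h n).2 hn
  · exact subset_closure_of_open hcl.2 a (fun n hn => (h n).1 hn)

theorem E_clopen (a : Set ℕ) : IsClopen (E a) := by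
  obtain ⟨g, hg, h⟩ := exists_split a
  rw [E_eq a g hg h]
  exact (isClopen_discrete {true}).preimage hg

theorem unit_mem_E (a : Set ℕ) (n : ℕ) : stoneCechUnit n ∈ E a ↔ n ∈ a := by
  obtain ⟨g, hg, h⟩ := exists_split a
  rw [E_eq a g hg h]
  exact h n

theorem E_mono {a b : Set ℕ} (h : a ⊆ b) : E a ⊆ E b := closure_mono (image_mono h)

theorem E_inter (a b : Set ℕ) : E a ∩ E b ⊆ E (a ∩ b) := by
  apply subset_closure_of_open ((E_clopen a).2.inter (E_clopen b).2)
  intro n hn
  exact ⟨(unit_mem_E a n).1 hn.1, (unit_mem_E b n).1 hn.2⟩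

theorem E_finite {a : Set ℕ} (h : a.Finite) : E a ⊆ range (stoneCechUnit : ℕ → StoneCech ℕ) := by
  rw [E, (h.image _).isClosed.closure_eq]
  rintro _ ⟨n, _, rfl⟩
  exact ⟨n, rfl⟩

theorem open_singleton (n : ℕ) : E {n} = {stoneCechUnit n} := by
  rw [E]; simp

theorem E_infinite {a : Set ℕ} (h : a.Infinite) :
    ∃ z ∈ E a, z ∉ range (stoneCechUnit : ℕ → StoneCech ℕ) := by
  by_contra hcon
  push Not at hcon
  have hcomp : IsCompact (E a) := (E_clopen a).1.isCompact
  obtain ⟨F, hF⟩ := hcomp.elim_finite_subcover (fun n : ℕ => E {n}) (fun n => (E_clopen _).2) (by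
    intro z hz
    obtain ⟨n, rfl⟩ := hcon z hz
    exact mem_iUnion.2 ⟨n, (unit_mem_E {n} n).2 rfl⟩)
  apply h
  apply F.finite_toSet.subset
  intro n hn
  have := hF ((unit_mem_E a n).2 hn)
  simp only [mem_iUnion] at this
  obtain ⟨m, hm, hnm⟩ := this
  have : n = m := (unit_mem_E {m} n).1 hnm
  rw [this]
  exact hm

/-- the remainder -/
abbrev Rr : Set (StoneCech ℕ) := (Set.range (stoneCechUnit : ℕ → StoneCech ℕ))ᶜ

theorem Rr_closed : IsClosed Rr := by
  have : Rr = (⋃ n : ℕ, E {n})ᶜ := by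
    ext z
    simp only [mem_compl_iff, mem_range, mem_iUnion, open_singleton, mem_singleton_iff, eq_comm]
  rw [this]
  exact (isOpen_iUnion (fun n => (E_clopen _).2)).isClosed_compl

theorem lift_clopen (D : Set Rr) (hD : IsClopen D) :
    ∃ a : Set ℕ, ∀ z : Rr, z ∈ D ↔ (z : StoneCech ℕ) ∈ E a := by
  have h1 : IsClosed ((↑) '' D : Set (StoneCech ℕ)) := Rr_closed.isClosedEmbedding_subtypeVal.isClosedMap _ hD.1
  have h2 : IsClosed ((↑) '' Dᶜ : Set (StoneCech ℕ)) :=
    Rr_closed.isClosedEmbedding_subtypeVal.isClosedMap _ hD.compl.1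
  have h3 : Disjoint ((↑) '' D : Set (StoneCech ℕ)) ((↑) '' Dᶜ) := by
    rw [Set.disjoint_image_iff Subtype.val_injective]
    exact disjoint_compl_right
  obtain ⟨U, V, hU, hV, hDU, hDV, hUV⟩ := normal_separation h1 h2 h3
  refine ⟨{n | stoneCechUnit n ∈ U}, ?_⟩
  intro z
  constructor
  · intro hz
    exact subset_closure_of_open hU _ (fun n hn => hn) (hDU ⟨z, hz, rfl⟩)
  · intro hz
    by_contra hcon
    have hzV : (z : StoneCech ℕ) ∈ V := hDV ⟨z, hcon, rfl⟩
    rw [E, mem_closure_iff] at hz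
    obtain ⟨w, hwV, n, hn, rfl⟩ := hz V hV hzV
    exact Set.disjoint_left.1 hUV hn hwV

/-- sigma separation -/
theorem separation (D : ℕ → Set Rr) (hD : ∀ n, IsClopen (D n))
    (hdis : ∀ m n, m ≠ n → Disjoint (D m) (D n)) :
    ∃ c : Set ℕ, (∀ n, ∀ z : Rr, z ∈ D (2 * n) → (z : StoneCech ℕ) ∈ E c) ∧
      (∀ n, ∀ z : Rr, z ∈ D (2 * n + 1) → (z : StoneCech ℕ) ∉ E c) := by
  choose a ha using fun n => lift_clopen (D n) (hD n)
  have hfin : ∀ m n, m ≠ n → (a m ∩ a n).Finite := by
    intro m n hmn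
    by_contra hcon
    obtain ⟨z, hz, hzR⟩ := E_infinite (Set.not_finite.1 hcon |> id)
    have h1 : (⟨z, hzR⟩ : Rr) ∈ D m := (ha m ⟨z, hzR⟩).2 (E_mono inter_subset_left hz)
    have h2 : (⟨z, hzR⟩ : Rr) ∈ D n := (ha n ⟨z, hzR⟩).2 (E_mono inter_subset_right hz)
    exact Set.disjoint_left.1 (hdis m n hmn) h1 h2
  refine ⟨{k | ∃ n, k ∈ a (2 * n) ∧ ∀ m, m ≤ n → k ∉ a (2 * m + 1)}, ?_, ?_⟩
  · intro n z hz
    have hz1 := (ha _ z).1 hz
    by_contra hcon
    set c : Set ℕ := {k | ∃ n, k ∈ a (2 * n) ∧ ∀ m, m ≤ n → k ∉ a (2 * m + 1)} with hc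
    have hz2 : (z : StoneCech ℕ) ∈ E cᶜ := by
      have : (univ : Set (StoneCech ℕ)) ⊆ E c ∪ E cᶜ := by
        rw [E, E, ← closure_union, ← image_union, union_compl_self, image_univ,
          (denseRange_stoneCechUnit (α := ℕ)).closure_range]
      rcases this (mem_univ (z : StoneCech ℕ)) with h | h
      · exact absurd h hcon
      · exact h
    have hz3 := E_inter _ _ ⟨hz1, hz2⟩
    have hf : (a (2 * n) ∩ cᶜ).Finite := by
      have : a (2 * n) ∩ cᶜ ⊆ ⋃ m ∈ Finset.range (n + 1), (a (2 * n) ∩ a (2 * m + 1)) := by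
        rintro k ⟨hk, hkc⟩
        simp only [hc, mem_compl_iff, mem_ofPred_eq, not_exists, not_and, not_forall, not_not] at hkc
        obtain ⟨m, hm, hkm⟩ := hkc n hk
        simp only [mem_iUnion]
        exact ⟨m, Finset.mem_range.2 (by omega), hk, hkm⟩
      refine Set.Finite.subset ?_ this
      apply Set.Finite.biUnion (Finset.finite_toSet _)
      intro m _
      exact hfin _ _ (by omega)
    exact z.2 (E_finite hf hz3)
  · intro m z hz hzc
    have hz1 := (ha _ z).1 hz
    have hz3 := E_inter _ _ ⟨hzc, hz1⟩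
    apply z.2
    refine E_finite ?_ hz3
    have : {k | ∃ n, k ∈ a (2 * n) ∧ ∀ m, m ≤ n → k ∉ a (2 * m + 1)} ∩ a (2 * m + 1) ⊆
        ⋃ n ∈ Finset.range m, (a (2 * n) ∩ a (2 * m + 1)) := by
      rintro k ⟨⟨n, hkn, hk⟩, hkm⟩
      simp only [mem_iUnion]
      refine ⟨n, Finset.mem_range.2 ?_, hkn, hkm⟩
      by_contra hcon
      exact hk m (by omega) hkm
    refine Set.Finite.subset ?_ this
    apply Set.Finite.biUnion (Finset.finite_toSet _)
    intro n _
    exact hfin _ _ (by omega)

/-- free sets for finite set mappings on uncountable types -/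
theorem free_step {T : Type} (f : T → Set T) (hf : ∀ t, (f t).Finite) (S : Set T)
    (hS : ¬ S.Countable) : ∃ t ∈ S, ∃ S' ⊆ S, ¬ S'.Countable ∧
      ∀ s ∈ S', s ≠ t ∧ s ∉ f t ∧ t ∉ f s := by
  by_contra hcon
  push Not at hcon
  have hinf : S.Infinite := fun h => hS h.countable
  obtain ⟨N, hNS, hNinf, hNc⟩ : ∃ N ⊆ S, N.Infinite ∧ N.Countable := by
    obtain ⟨e⟩ : Nonempty (ℕ ↪ S) := ⟨hinf.natEmbedding⟩
    refine ⟨range (fun n => (e n : T)), ?_, ?_, countable_range _⟩
    · rintro _ ⟨n, rfl⟩; exact (e n).2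
    · exact infinite_range_of_injective (Subtype.val_injective.comp e.injective)
  have key : ∀ t ∈ N, {s ∈ S | s ≠ t ∧ s ∉ f t ∧ t ∉ f s}.Countable := by
    intro t ht
    by_contra hc
    obtain ⟨s, hs, hs2⟩ := hcon t (hNS ht) {s ∈ S | s ≠ t ∧ s ∉ f t ∧ t ∉ f s} (sep_subset _ _) hc
    exact hs2 hs.2.1 hs.2.2.1 |> fun h => hs.2.2.2 h
  have hM : ((⋃ t ∈ N, {s ∈ S | s ≠ t ∧ s ∉ f t ∧ t ∉ f s}) ∪ (⋃ t ∈ N, (f t ∪ {t}))).Countable := by
    apply Set.Countable.union
    · exact hNc.biUnion key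
    · exact hNc.biUnion (fun t _ => ((hf t).countable.union (countable_singleton t)))
  have : ¬ S ⊆ ((⋃ t ∈ N, {s ∈ S | s ≠ t ∧ s ∉ f t ∧ t ∉ f s}) ∪ (⋃ t ∈ N, (f t ∪ {t}))) :=
    fun h => hS (hM.mono h)
  obtain ⟨s, hsS, hs⟩ := Set.not_subset.1 this
  apply hNinf
  apply (hf s).subset
  intro t ht
  by_contra hts
  apply hs
  by_cases h1 : s = t
  · right
    exact mem_biUnion ht (Or.inr h1)
  by_cases h2 : s ∈ f t
  · right
    exact mem_biUnion ht (Or.inl h2)
  left
  exact mem_biUnion ht ⟨hsS, h1, h2, hts⟩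

theorem free_seq {T : Type} [Uncountable T] (f : T → Set T) (hf : ∀ t, (f t).Finite) :
    ∃ j : ℕ → T, Function.Injective j ∧ ∀ m n, m ≠ n → j m ∉ f (j n) := by
  choose! t ht S' hS' hS'c hS'2 using free_step f hf
  let Q : ℕ → {S : Set T // ¬ S.Countable} := fun n =>
    Nat.rec ⟨univ, by rw [Set.countable_univ_iff]; exact not_countable⟩
      (fun _ S => ⟨S' S.1, hS'c S.1 S.2⟩) n
  have hQ : ∀ n, (Q (n + 1)).1 = S' (Q n).1 := fun n => rfl
  have hmono : ∀ m n, m ≤ n → (Q n).1 ⊆ (Q m).1 := by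
    intro m n hmn
    induction n, hmn using Nat.le_induction with
    | base => exact Subset.rfl
    | succ n _ ih => exact (hQ n ▸ hS' _ (Q n).2).trans ih
  have hlt : ∀ m n, m < n → t (Q n).1 ≠ t (Q m).1 ∧ t (Q n).1 ∉ f (t (Q m).1) ∧
      t (Q m).1 ∉ f (t (Q n).1) := by
    intro m n hmn
    have h1 : t (Q n).1 ∈ (Q (m + 1)).1 := hmono (m + 1) n hmn (ht _ (Q n).2)
    exact hS'2 _ (Q m).2 _ h1
  refine ⟨fun n => t (Q n).1, ?_, ?_⟩
  · intro m n hmn
    rcases lt_trichotomy m n with h | h | h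
    · exact absurd hmn.symm (hlt m n h).1
    · exact h
    · exact absurd hmn (hlt n m h).1
  · intro m n hmn
    rcases lt_or_gt_of_ne hmn with h | h
    · exact (hlt m n h).2.2
    · exact (hlt n m h).2.1

/-- the centred families -/
abbrev CC : Set (TopologicalSpace.Clopens Rr → Bool) :=
  {f | ∀ F : Finset (TopologicalSpace.Clopens Rr),
              (∀ U ∈ F, f U = true) → (⋂ U ∈ F, (U : Set Rr)).Nonempty}

theorem basic_nhd (W : Set CC) (hW : IsOpen W) (y : CC) (hy : y ∈ W) :
    ∃ H : Finset (Clopens Rr), ∀ f : CC, (∀ A ∈ H, f.1 A = y.1 A) → f ∈ W := by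
  obtain ⟨V, hV, rfl⟩ := isOpen_induced_iff.1 hW
  obtain ⟨I, u, hu, hsub⟩ := isOpen_pi_iff.1 hV y.1 hy
  refine ⟨I, fun f hf => hsub ?_⟩
  intro A hA
  rw [hf A hA]
  exact (hu A hA).2

/-- branches of the binary tree as almost disjoint sets -/
def br (t : ℕ → Bool) : Set ℕ := range (fun k => Encodable.encode ((List.range k).map t))

theorem br_infinite (t : ℕ → Bool) : (br t).Infinite := by
  apply infinite_range_of_injective
  intro k l hkl
  have := Encodable.encode_injective hkl
  simpa using congrArg List.length this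

theorem br_inter (s t : ℕ → Bool) (hst : s ≠ t) : (br s ∩ br t).Finite := by
  obtain ⟨m, hm⟩ := Function.ne_iff.1 hst
  apply Set.Finite.subset ((Set.finite_Iic m).image (fun k => Encodable.encode ((List.range k).map t)))
  rintro x ⟨⟨k, hk⟩, ⟨l, hl⟩⟩
  simp only at hk hl
  refine ⟨l, ?_, hl⟩
  have h1 := Encodable.encode_injective (hk.trans hl.symm)
  have h2 : k = l := by simpa using congrArg List.length h1
  subst h2
  simp only [mem_Iic]
  by_contra hcon
  push Not at hcon
  apply hm
  have h3 := List.map_inj_left.1 h1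
  exact h3 m (List.mem_range.2 hcon)

/-- The negation of the preceding statement: Let X be the Stone–Čech remainder of ℕ. The space of all families of clopen subsets of X with the finite intersection property, topologized as a subspace of the product 2^(clopens of X), is homogeneous. -/
theorem result :
    ¬ (∀ R : Set (StoneCech ℕ), R = (Set.range (stoneCechUnit : ℕ → StoneCech ℕ))ᶜ →
    ∀ C : Set (TopologicalSpace.Clopens R → Bool),
      C = {f | ∀ F : Finset (TopologicalSpace.Clopens R),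
              (∀ U ∈ F, f U = true) → (⋂ U ∈ F, (U : Set R)).Nonempty} →
      ∀ x y : C, ∃ h : C ≃ₜ C, h x = y) := by
  classical
  intro hmain
  have hhom : ∀ x y : CC, ∃ h : CC ≃ₜ CC, h x = y := hmain _ rfl _ rfl
  clear hmain
  -- the clopen sets attached to branches
  let A : (ℕ → Bool) → Clopens Rr := fun t =>
    ⟨{z : Rr | (z : StoneCech ℕ) ∈ E (br t)}, (E_clopen (br t)).preimage continuous_subtype_val⟩
  have hAne : ∀ t, ((A t : Clopens Rr) : Set Rr).Nonempty := by
    intro t
    obtain ⟨z, hz, hzR⟩ := E_infinite (br_infinite t)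
    exact ⟨⟨z, hzR⟩, hz⟩
  have hAdis : ∀ s t, s ≠ t → ((A s : Set Rr) ∩ (A t : Set Rr)) = ∅ := by
    intro s t hst
    rw [Set.eq_empty_iff_forall_notMem]
    rintro z ⟨hz1, hz2⟩
    exact z.2 (E_finite (br_inter s t hst) (E_inter _ _ ⟨hz1, hz2⟩))
  have hAinj : Function.Injective A := by
    intro s t hst
    by_contra hne
    have h1 := hAdis s t hne
    rw [hst, inter_self] at h1
    exact (hAne t).ne_empty h1
  obtain ⟨x, -⟩ := hAne (fun _ => true)
  let p0 : CC := ⟨fun _ => false, by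
    intro F hF
    refine ⟨x, ?_⟩
    simp only [mem_iInter]
    intro U hU
    exact absurd (hF U hU) (by simp)⟩
  let u : CC := ⟨fun U => decide (x ∈ U), by
    intro F hF
    refine ⟨x, ?_⟩
    simp only [mem_iInter]
    intro U hU
    simpa using hF U hU⟩
  let y : (ℕ → Bool) → CC := fun t => ⟨fun U => decide (U = A t), by
    intro F hF
    obtain ⟨z, hz⟩ := hAne t
    refine ⟨z, ?_⟩
    simp only [mem_iInter]
    intro U hU
    have : U = A t := by simpa using hF U hU
    rw [this]
    exact hz⟩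
  obtain ⟨h, hh⟩ := hhom p0 u
  -- disjoint open neighbourhoods
  let W : (ℕ → Bool) → Set CC := fun t => {f : CC | f.1 (A t) = true}
  have hWo : ∀ t, IsOpen (W t) := by
    intro t
    have : Continuous (fun f : CC => f.1 (A t)) := (continuous_apply (A t)).comp continuous_subtype_val
    exact (isOpen_discrete {true}).preimage this
  have hWo' : ∀ t, IsOpen (h '' W t) := fun t => h.isOpenMap _ (hWo t)
  have hyW : ∀ t, h (y t) ∈ h '' W t := fun t => ⟨y t, by simp [W, y], rfl⟩
  have hWdis : ∀ s t, s ≠ t → ∀ f : CC, f ∈ h '' W s → f ∈ h '' W t → False := by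
    rintro s t hst f ⟨g, hg, rfl⟩ ⟨g', hg', hgg⟩
    have : g' = g := h.injective hgg
    subst this
    obtain ⟨z, hz⟩ := g'.2 {A s, A t} (by
      intro U hU
      rcases Finset.mem_insert.1 hU with rfl | hU
      · exact hg
      · rw [Finset.mem_singleton.1 hU]; exact hg')
    simp only [mem_iInter, Finset.mem_insert, Finset.mem_singleton] at hz
    have : z ∈ ((A s : Set Rr) ∩ (A t : Set Rr)) := ⟨hz _ (Or.inl rfl), hz _ (Or.inr rfl)⟩
    rw [hAdis s t hst] at this
    exact this
  choose H hH using fun t => basic_nhd (h '' W t) (hWo' t) (h (y t)) (hyW t)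
  -- convergence
  have hconv : ∀ B : Clopens Rr, {t | (h (y t)).1 B ≠ u.1 B}.Finite := by
    intro B
    have hV : IsOpen {f : CC | (h f).1 B = u.1 B} := by
      have : Continuous (fun f : CC => (h f).1 B) :=
        (continuous_apply B).comp (continuous_subtype_val.comp h.continuous)
      exact (isOpen_discrete {u.1 B}).preimage this
    obtain ⟨K, hK⟩ := basic_nhd _ hV p0 (by simp only [mem_ofPred_eq, hh])
    apply Set.Finite.subset ((Finset.finite_toSet K).preimage hAinj.injOn)
    intro t ht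
    by_contra hcon
    apply ht
    apply hK
    intro U hU
    simp only [y, p0, decide_eq_false_iff_not]
    rintro rfl
    exact hcon hU
  -- the set mapping
  let f : (ℕ → Bool) → Set (ℕ → Bool) := fun t => ⋃ B ∈ H t, {s | (h (y s)).1 B ≠ u.1 B}
  have hf : ∀ t, (f t).Finite := fun t => (Finset.finite_toSet (H t)).biUnion (fun B _ => hconv B)
  have : Uncountable (ℕ → Bool) := by
    rw [← Cardinal.aleph0_lt_mk_iff]
    simpa using Cardinal.cantor Cardinal.aleph0
  obtain ⟨j, hjinj, hj⟩ := free_seq f hf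
  let D : ℕ → Set Rr := fun n => ⋂ B ∈ (H (j n)).filter (fun B => (h (y (j n))).1 B = true), (B : Set Rr)
  have hDclopen : ∀ n, IsClopen (D n) := by
    intro n
    apply isClopen_biInter_finset
    intro B _
    exact B.isClopen
  have hDdis : ∀ m n, m ≠ n → Disjoint (D m) (D n) := by
    intro m n hmn
    rw [Set.disjoint_iff_inter_eq_empty, Set.eq_empty_iff_forall_notMem]
    rintro z ⟨hz1, hz2⟩
    have hz1' : ∀ B ∈ H (j m), (h (y (j m))).1 B = true → z ∈ B := by
      intro B hB hB1
      have := mem_iInter₂.1 hz1 B (Finset.mem_filter.2 ⟨hB, hB1⟩)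
      exact this
    have hz2' : ∀ B ∈ H (j n), (h (y (j n))).1 B = true → z ∈ B := by
      intro B hB hB1
      have := mem_iInter₂.1 hz2 B (Finset.mem_filter.2 ⟨hB, hB1⟩)
      exact this
    let g : CC := ⟨fun B => decide ((B ∈ H (j m) ∧ (h (y (j m))).1 B = true) ∨
        (B ∈ H (j n) ∧ (h (y (j n))).1 B = true)), by
      intro F hF
      refine ⟨z, ?_⟩
      simp only [mem_iInter]
      intro U hU
      have := hF U hU
      simp only [decide_eq_true_eq] at this
      rcases this with h1 | h1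
      · exact hz1' U h1.1 h1.2
      · exact hz2' U h1.1 h1.2⟩
    have agree : ∀ B, B ∈ H (j m) → B ∈ H (j n) → (h (y (j m))).1 B = (h (y (j n))).1 B := by
      intro B hB1 hB2
      have h1 : (h (y (j m))).1 B = u.1 B := by
        by_contra hc
        exact hj m n hmn (mem_biUnion (show B ∈ (H (j n)) from hB2) hc)
      have h2 : (h (y (j n))).1 B = u.1 B := by
        by_contra hc
        exact hj n m hmn.symm (mem_biUnion (show B ∈ (H (j m)) from hB1) hc)
      rw [h1, h2]
    have hg1 : g ∈ h '' W (j m) := by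
      apply hH
      intro B hB
      by_cases hB1 : (h (y (j m))).1 B = true
      · simp [g, hB, hB1]
      · have hB1' : (h (y (j m))).1 B = false := by simpa using hB1
        rw [hB1']
        simp only [g, hB1', decide_eq_false_iff_not]
        rintro (⟨_, h3⟩ | ⟨h3, h4⟩)
        · simp at h3
        · rw [← agree B hB h3, hB1'] at h4
          simp at h4
    have hg2 : g ∈ h '' W (j n) := by
      apply hH
      intro B hB
      by_cases hB1 : (h (y (j n))).1 B = true
      · simp [g, hB, hB1]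
      · have hB1' : (h (y (j n))).1 B = false := by simpa using hB1
        rw [hB1']
        simp only [g, hB1', decide_eq_false_iff_not]
        rintro (⟨h3, h4⟩ | ⟨_, h3⟩)
        · rw [agree B h3 hB, hB1'] at h4
          simp at h4
        · simp at h3
    exact hWdis _ _ (fun hc => hmn (hjinj hc)) g hg1 hg2
  obtain ⟨c, hc1, hc2⟩ := separation D hDclopen hDdis
  let Cc : Clopens Rr :=
    ⟨{z : Rr | (z : StoneCech ℕ) ∈ E c}, (E_clopen c).preimage continuous_subtype_val⟩
  -- general contradiction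
  have contra : ∀ (B : Clopens Rr) (n : ℕ), (h (y (j n))).1 B = true → ¬ Disjoint (D n) (B : Set Rr) := by
    intro B n hB hdis
    obtain ⟨z, hz⟩ := (h (y (j n))).2 (insert B ((H (j n)).filter (fun B => (h (y (j n))).1 B = true))) (by
      intro U hU
      rcases Finset.mem_insert.1 hU with rfl | hU
      · exact hB
      · exact (Finset.mem_filter.1 hU).2)
    simp only [mem_iInter] at hz
    have hzD : z ∈ D n := by
      simp only [D, mem_iInter]
      intro U hU
      exact hz U (Finset.mem_insert_of_mem hU)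
    exact Set.disjoint_left.1 hdis hzD (hz B (Finset.mem_insert_self _ _))
  by_cases hx : x ∈ Cc
  · have hu : u.1 Cc = true := by simp [u, hx]
    have hfin := (hconv Cc).preimage (f := fun n => j (2 * n + 1)) (by
      intro m _ n _ hmn
      have := hjinj hmn
      omega)
    obtain ⟨n, hn⟩ := hfin.infinite_compl.nonempty
    have hn' : (h (y (j (2 * n + 1)))).1 Cc = true := by
      by_contra hcon
      apply hn
      simp only [mem_preimage, mem_ofPred_eq, hu]
      exact hcon
    apply contra Cc (2 * n + 1) hn'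
    rw [Set.disjoint_left]
    intro z hz hz2
    exact hc2 n z hz hz2
  · have hx' : x ∈ Ccᶜ := hx
    have hu : u.1 Ccᶜ = true := by simp [u, hx']
    have hfin := (hconv Ccᶜ).preimage (f := fun n => j (2 * n)) (by
      intro m _ n _ hmn
      have := hjinj hmn
      omega)
    obtain ⟨n, hn⟩ := hfin.infinite_compl.nonempty
    have hn' : (h (y (j (2 * n)))).1 Ccᶜ = true := by
      by_contra hcon
      apply hn
      simp only [mem_preimage, mem_ofPred_eq, hu]
      exact hcon
    apply contra Ccᶜ (2 * n) hn'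
    rw [Set.disjoint_left]
    intro z hz hz2
    exact hz2 (hc1 n z hz)

end Pool.Agent.S08096
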