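import Pool.Statements.S08100

set_option autoImplicit false
open Function
open Pool Pool.MP_0eaf94_gt

namespace Pool.Agent.S08100

open Filter Topology

abbrev J := unitInterval

lemma maxpair {Z : Type*} [TopologicalSpace Z] [T2Space Z] (k : J → Z) (hk : Continuous k)
    (lk : ∀ s s' : J, k s = k s' → ∀ V ∈ 𝓝 s', ∀ᶠ t in 𝓝 s, ∃ t' ∈ V, k t = k t')
    (hni : ¬ Injective k) :
    ∃ s s' : J, s < s' ∧ k s = k s' ∧ ∀ w, ∃ v, s ≤ v ∧ v ≤ s' ∧ k v = k w := by
  have hPc : IsCompact {p : J × J | k p.1 = k p.2} :=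
    (isClosed_eq (hk.comp continuous_fst) (hk.comp continuous_snd)).isCompact
  have hPne : ({p : J × J | k p.1 = k p.2}).Nonempty := ⟨(0, 0), rfl⟩
  have hdc : ContinuousOn (fun p : J × J => (p.2 : ℝ) - (p.1 : ℝ)) {p : J × J | k p.1 = k p.2} := by
    apply Continuous.continuousOn
    fun_prop
  obtain ⟨⟨s, s'⟩, hss, hmax⟩ := hPc.exists_isMaxOn hPne hdc
  have hss' : k s = k s' := hss
  have hmax' : ∀ u u' : J, k u = k u' → (u' : ℝ) - u ≤ s' - s := fun u u' h => hmax (a := (u, u')) h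
  have hlt : s < s' := by
    rw [Injective] at hni
    simp only [not_forall] at hni
    obtain ⟨u, u', h1, h2⟩ := hni
    rcases lt_or_gt_of_ne h2 with h | h
    · have h3 := hmax' u u' h1
      have h4 : (u : ℝ) < u' := h
      have : (s : ℝ) < s' := by linarith
      exact this
    · have h3 := hmax' u' u h1.symm
      have h4 : (u' : ℝ) < u := h
      have : (s : ℝ) < s' := by linarith
      exact this
  refine ⟨s, s', hlt, hss', ?_⟩
  have hTclosed : IsClosed (k '' Set.Icc s s') := (isCompact_Icc.image hk).isClosed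
  have hopen : IsOpen (k ⁻¹' (k '' Set.Icc s s')) := by
    rw [isOpen_iff_mem_nhds]
    rintro w ⟨v, ⟨hv1, hv2⟩, hv⟩
    by_cases hends : v = s ∨ v = s'
    · have hws : k w = k s := by
        rcases hends with rfl | rfl
        · exact hv.symm
        · rw [← hv, hss']
      have e1 := lk w s hws (Set.Iio s') (Iio_mem_nhds hlt)
      have e2 := lk w s' (hws.trans hss') (Set.Ioi s) (Ioi_mem_nhds hlt)
      filter_upwards [e1, e2] with t ht1 ht2
      obtain ⟨t1, ht1, hk1⟩ := ht1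
      obtain ⟨t2, ht2, hk2⟩ := ht2
      by_cases h1 : s ≤ t1
      · exact ⟨t1, ⟨h1, le_of_lt ht1⟩, hk1.symm⟩
      by_cases h2 : t2 ≤ s'
      · exact ⟨t2, ⟨le_of_lt ht2, h2⟩, hk2.symm⟩
      exfalso
      rw [not_le] at h1 h2
      have h3 := hmax' t1 t2 (hk1.symm.trans hk2)
      have h4 : (t1 : ℝ) < s := h1
      have h5 : (s' : ℝ) < t2 := h2
      linarith
    · have hv1' : s < v := lt_of_le_of_ne hv1 (fun h => hends (Or.inl h.symm))
      have hv2' : v < s' := lt_of_le_of_ne hv2 (fun h => hends (Or.inr h))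
      have e1 := lk w v hv.symm (Set.Ioo s s') (Ioo_mem_nhds hv1' hv2')
      filter_upwards [e1] with t ht
      obtain ⟨t1, ht1, hk1⟩ := ht
      exact ⟨t1, ⟨ht1.1.le, ht1.2.le⟩, hk1.symm⟩
  have hclopen : IsClopen (k ⁻¹' (k '' Set.Icc s s')) := ⟨hTclosed.preimage hk, hopen⟩
  have huniv := hclopen.eq_univ ⟨s, s, ⟨le_rfl, hlt.le⟩, rfl⟩
  intro w
  have hw : w ∈ k ⁻¹' (k '' Set.Icc s s') := by rw [huniv]; trivial
  obtain ⟨v, hv, hv'⟩ := hw
  exact ⟨v, hv.1, hv.2, hv'⟩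

/-- injectivity on every level -/
lemma all_inj {Z : Type*} [TopologicalSpace Z] [T2Space Z] (a : J × J → Z) (ha : Continuous a)
    (la : ∀ y s s' : J, a (y, s) = a (y, s') → ∀ V ∈ 𝓝 s', ∀ᶠ p in 𝓝 (y, s), ∃ t ∈ V, a p = a (p.1, t))
    (a0 : ∀ s : J, a (0, 0) = a (0, s) → s = 0) (y : J) : Injective (fun s => a (y, s)) := by
  -- lifting on levels
  have hlev : ∀ y : J, ∀ s s' : J, a (y, s) = a (y, s') → ∀ V ∈ 𝓝 s', ∀ᶠ t in 𝓝 s, ∃ t' ∈ V, a (y, t) = a (y, t') := by
    intro y s s' h V hV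
    have h1 := la y s s' h V hV
    have h2 : Tendsto (fun t : J => (y, t)) (𝓝 s) (𝓝 (y, s)) := by
      apply Continuous.tendsto
      fun_prop
    exact h2.eventually h1
  have hcont : ∀ y : J, Continuous (fun s => a (y, s)) := fun y => by fun_prop
  set S : Set J := {y | Injective (fun s => a (y, s))} with hS
  have h0 : (0 : J) ∈ S := by
    by_contra hni
    obtain ⟨s, s', hlt, hss, hall⟩ := maxpair (fun s => a (0, s)) (hcont 0) (hlev 0) hni
    obtain ⟨v, hv1, hv2, hv⟩ := hall 0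
    have hv0 : v = 0 := a0 v hv.symm
    have hs0 : s = 0 := le_antisymm (hv0 ▸ hv1) bot_le
    rw [hs0] at hss
    have := a0 s' hss
    rw [this, hs0] at hlt
    exact lt_irrefl _ hlt
  -- the closed complement
  have hopen : IsOpen S := by
    set N : Set (J × (J × J) × (J × J)) := {q | q.2.1.1 ≤ q.2.2.1 ∧ q.2.2.1 ≤ q.2.1.2 ∧ q.2.1.1 ≤ q.2.2.2 ∧ q.2.2.2 ≤ q.2.1.2 ∧
      a (q.1, q.2.1.1) = a (q.1, q.2.1.2) ∧ a (q.1, q.2.2.1) = a (q.1, 0) ∧ a (q.1, q.2.2.2) = a (q.1, 1)} with hN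
    have hNc : IsClosed N := by
      have c1 : Continuous (fun q : J × (J × J) × (J × J) => q.2.1.1) := by fun_prop
      have c2 : Continuous (fun q : J × (J × J) × (J × J) => q.2.1.2) := by fun_prop
      have c3 : Continuous (fun q : J × (J × J) × (J × J) => q.2.2.1) := by fun_prop
      have c4 : Continuous (fun q : J × (J × J) × (J × J) => q.2.2.2) := by fun_prop
      refine (isClosed_le c1 c3).inter ((isClosed_le c3 c2).inter ((isClosed_le c1 c4).inter ((isClosed_le c4 c2).inter ?_)))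
      refine (isClosed_eq ?_ ?_).inter ((isClosed_eq ?_ ?_).inter (isClosed_eq ?_ ?_)) <;> fun_prop
    have hproj : IsClosed (Prod.fst '' N) := (hNc.isCompact.image continuous_fst).isClosed
    have hSeq : S = (Prod.fst '' N)ᶜ := by
      ext y
      constructor
      · intro hy hmem
        obtain ⟨⟨y', ⟨s, s'⟩, ⟨u, v⟩⟩, ⟨h1, h2, h3, h4, h5, h6, h7⟩, rfl⟩ := hmem
        simp only at h1 h2 h3 h4 h5 h6 h7
        have e1 : s = s' := hy h5
        have e2 : u = 0 := hy h6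
        have e3 : v = 1 := hy h7
        rw [e2] at h1 h2
        rw [e3] at h3 h4
        rw [← e1] at h2 h4
        have : (1 : J) ≤ 0 := h4.trans h1
        have h8 : ((1 : J) : ℝ) ≤ ((0 : J) : ℝ) := this
        simp at h8
        linarith
      · intro hy
        by_contra hni
        apply hy
        obtain ⟨s, s', hlt, hss, hall⟩ := maxpair (fun s => a (y, s)) (hcont y) (hlev y) hni
        obtain ⟨u, hu1, hu2, hu⟩ := hall 0
        obtain ⟨v, hv1, hv2, hv⟩ := hall 1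
        exact ⟨(y, (s, s'), (u, v)), ⟨hu1, hu2, hv1, hv2, hss, hu, hv⟩, rfl⟩
    rw [hSeq]
    exact hproj.isOpen_compl
  have hclosed : IsClosed S := by
    rw [← isOpen_compl_iff, isOpen_iff_mem_nhds]
    intro y hy
    simp only [hS, Set.mem_compl_iff, Set.mem_ofPred_eq, Injective, not_forall] at hy
    obtain ⟨s, s', h1, h2⟩ := hy
    have e1 := la y s s' h1 {s}ᶜ (isOpen_compl_singleton.mem_nhds (fun h => h2 h.symm))
    have h3 : Tendsto (fun y' : J => (y', s)) (𝓝 y) (𝓝 (y, s)) := by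
      apply Continuous.tendsto
      fun_prop
    filter_upwards [h3.eventually e1] with y' hy' hinj
    obtain ⟨t, ht, hat⟩ := hy'
    exact ht (hinj hat).symm
  have := IsClopen.eq_univ (show IsClopen S from ⟨hclosed, hopen⟩) ⟨0, h0⟩
  have hy : y ∈ S := by rw [this]; trivial
  exact hy

/-- a continuous injective self-map of the interval takes the value 0 only at an end -/
lemma end_of_zero (φ : J → J) (hφ : Continuous φ) (hi : Injective φ) (s : J) (hs : φ s = 0) : s = 0 ∨ s = 1 := by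
  by_contra hcon
  rw [not_or] at hcon
  obtain ⟨hs0, hs1⟩ := hcon
  have hpos : ∀ t, t ≠ s → (0 : J) < φ t := by
    intro t ht
    apply lt_of_le_of_ne bot_le
    intro h
    exact ht (hi (h.symm.trans hs.symm))
  have h0 : 0 < φ 0 := hpos 0 (Ne.symm hs0)
  have h1 : 0 < φ 1 := hpos 1 (Ne.symm hs1)
  obtain ⟨m, hm1, hm2⟩ := exists_between (lt_min h0 h1)
  have hm3 := lt_min_iff.mp hm2
  have i1 : m ∈ φ '' Set.Icc 0 s := by
    have := intermediate_value_Icc' (show (0:J) ≤ s from bot_le) hφ.continuousOn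
    apply this
    exact ⟨by rw [hs]; exact hm1.le, hm3.1.le⟩
  have i2 : m ∈ φ '' Set.Icc s 1 := by
    have := intermediate_value_Icc (show s ≤ (1:J) from le_top) hφ.continuousOn
    apply this
    exact ⟨by rw [hs]; exact hm1.le, hm3.2.le⟩
  obtain ⟨t1, ht1, e1⟩ := i1
  obtain ⟨t2, ht2, e2⟩ := i2
  have : t1 = t2 := hi (e1.trans e2.symm)
  have h3 : t1 = s := le_antisymm ht1.2 (this ▸ ht2.1)
  rw [h3, hs] at e1
  exact (ne_of_gt hm1) e1.symm

lemma abstract_contra {Z : Type*} [TopologicalSpace Z] [T2Space Z] (a b : J × J → Z) (ha : Continuous a)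
    (hb : Continuous b)
    (la : ∀ y s s' : J, a (y, s) = a (y, s') → ∀ V ∈ 𝓝 s', ∀ᶠ p in 𝓝 (y, s), ∃ t ∈ V, a p = a (p.1, t))
    (lb : ∀ y s s' : J, b (y, s) = b (y, s') → ∀ V ∈ 𝓝 s', ∀ᶠ p in 𝓝 (y, s), ∃ t ∈ V, b p = b (p.1, t))
    (a0 : ∀ s : J, a (0, 0) = a (0, s) → s = 0) (b0 : ∀ s : J, b (0, 0) = b (0, s) → s = 0)
    (n0 : a (0, 0) ≠ b (0, 1)) (n1 : a (1, 0) ≠ b (1, 0))
    (img : ∀ y : J, 0 < y → y < 1 → ∀ s, ∃ t, b (y, t) = a (y, s))
    (img' : ∀ y : J, 0 < y → y < 1 → ∀ s, ∃ t, a (y, t) = b (y, s)) : False := by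
  have ia := all_inj a ha la a0
  have ib := all_inj b hb lb b0
  set T0 : Set J := {y | a (y, 0) = b (y, 0)} with hT0
  set T1 : Set J := {y | a (y, 0) = b (y, 1)} with hT1
  have c0 : IsClosed T0 := isClosed_eq (by fun_prop) (by fun_prop)
  have c1 : IsClosed T1 := isClosed_eq (by fun_prop) (by fun_prop)
  have hmid : Set.Ioo (0:J) 1 ⊆ T0 ∪ T1 := by
    rintro y ⟨hy0, hy1⟩
    choose ψ hψ using img' y hy0 hy1
    have hemb : IsClosedEmbedding (fun s => a (y, s)) :=
      (show Continuous (fun s => a (y, s)) by fun_prop).isClosedEmbedding (ia y)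
    have hψc : Continuous ψ := by
      rw [hemb.isInducing.continuous_iff]
      have : (fun s => a (y, s)) ∘ ψ = fun s => b (y, s) := by
        ext s; exact hψ s
      rw [this]
      fun_prop
    have hψi : Injective ψ := by
      intro u v huv
      apply ib y
      show b (y, u) = b (y, v)
      rw [← hψ u, ← hψ v, huv]
    obtain ⟨s, hs⟩ := img y hy0 hy1 0
    have hs' : ψ s = 0 := ia y ((hψ s).trans hs)
    rcases end_of_zero ψ hψc hψi s hs' with h | h
    · left; rw [h] at hs; exact hs.symm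
    · right; rw [h] at hs; exact hs.symm
  have hcl : closure (Set.Ioo (0:J) 1) = Set.univ := by
    rw [closure_Ioo (by exact zero_ne_one)]
    ext y
    simp only [Set.mem_Icc, Set.mem_univ, iff_true]
    exact ⟨bot_le, le_top⟩
  have hcover : T0 ∪ T1 = Set.univ := by
    apply Set.eq_univ_of_univ_subset
    rw [← hcl]
    exact closure_minimal hmid (c0.union c1)
  have hdisj : T0 ∩ T1 = ∅ := by
    ext y
    simp only [Set.mem_inter_iff, Set.mem_empty_iff_false, iff_false, not_and]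
    intro h0 h1
    have : b (y, 0) = b (y, 1) := by
      rw [← (show a (y,0) = b (y,0) from h0), (show a (y,0) = b (y,1) from h1)]
    have h2 := ib y this
    exact absurd h2 zero_ne_one
  have hT0c : T0ᶜ = T1 := by
    ext y
    constructor
    · intro hy
      have : y ∈ T0 ∪ T1 := by rw [hcover]; trivial
      exact this.resolve_left hy
    · intro hy hy0
      have : y ∈ T0 ∩ T1 := ⟨hy0, hy⟩
      rw [hdisj] at this
      exact this
  have hclopen : IsClopen T0 := ⟨c0, by rw [← isClosed_compl_iff, hT0c]; exact c1⟩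
  rcases isClopen_iff.mp hclopen with h | h
  · apply n0
    have : (0:J) ∈ T1 := by rw [← hT0c, h]; trivial
    exact this
  · apply n1
    have : (1:J) ∈ T0 := by rw [h]; trivial
    exact this


/-! ### The concrete space -/

/-- two squares, each with two free arcs attached -/
def XS : Set (J × ℝ) := {p | (0 ≤ p.2 ∧ p.2 ≤ 1) ∨ (p.1 = 0 ∧ -1 ≤ p.2 ∧ p.2 ≤ 1) ∨ (p.1 = 1 ∧ -1 ≤ p.2 ∧ p.2 ≤ 1) ∨
  (5 ≤ p.2 ∧ p.2 ≤ 6) ∨ (p.1 = 0 ∧ 4 ≤ p.2 ∧ p.2 ≤ 6) ∨ (p.1 = 1 ∧ 5 ≤ p.2 ∧ p.2 ≤ 7)}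

lemma XS_closed : IsClosed XS := by
  have c1 : Continuous (fun p : J × ℝ => p.1) := continuous_fst
  have c2 : Continuous (fun p : J × ℝ => p.2) := continuous_snd
  have k : ∀ u v : ℝ, IsClosed {p : J × ℝ | u ≤ p.2 ∧ p.2 ≤ v} := fun u v =>
    (isClosed_le continuous_const c2).inter (isClosed_le c2 continuous_const)
  have k2 : ∀ (w : J) (u v : ℝ), IsClosed {p : J × ℝ | p.1 = w ∧ u ≤ p.2 ∧ p.2 ≤ v} := fun w u v =>
    (isClosed_eq c1 continuous_const).inter (k u v)
  exact (k 0 1).union ((k2 0 (-1) 1).union ((k2 1 (-1) 1).union ((k 5 6).union ((k2 0 4 6).union (k2 1 5 7)))))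

lemma XS_sub : XS ⊆ Set.univ ×ˢ Set.Icc (-1:ℝ) 7 := by
  rintro ⟨y, s⟩ h
  simp only [XS, Set.mem_ofPred_eq] at h
  simp only [Set.mem_prod, Set.mem_univ, true_and, Set.mem_Icc]
  rcases h with h | h | h | h | h | h
  · exact ⟨by linarith [h.1], by linarith [h.2]⟩
  · exact ⟨by linarith [h.2.1], by linarith [h.2.2]⟩
  · exact ⟨by linarith [h.2.1], by linarith [h.2.2]⟩
  · exact ⟨by linarith [h.1], by linarith [h.2]⟩
  · exact ⟨by linarith [h.2.1], by linarith [h.2.2]⟩
  · exact ⟨by linarith [h.2.1], by linarith [h.2.2]⟩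

lemma XS_compact : IsCompact XS :=
  (isCompact_univ.prod isCompact_Icc).of_isClosed_subset XS_closed XS_sub

instance : CompactSpace XS := isCompact_iff_compactSpace.mp XS_compact

/-- the projection -/
def fX : XS → J := fun x => x.1.1

lemma open_of_sections {P Z : Type*} [TopologicalSpace P] [TopologicalSpace Z] (h : P → Z) (σ τ : Z → P)
    (hσ : Continuous σ) (hτ : Continuous τ) (h1 : ∀ z, h (σ z) = z) (h2 : ∀ z, h (τ z) = z)
    (hcov : ∀ p, p = σ (h p) ∨ p = τ (h p)) : IsOpenMap h := by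
  intro U hU
  have : h '' U = σ ⁻¹' U ∪ τ ⁻¹' U := by
    ext z
    constructor
    · rintro ⟨p, hp, rfl⟩
      rcases hcov p with e | e
      · left; show σ (h p) ∈ U; rw [← e]; exact hp
      · right; show τ (h p) ∈ U; rw [← e]; exact hp
    · rintro (hz | hz)
      · exact ⟨σ z, hz, h1 z⟩
      · exact ⟨τ z, hz, h2 z⟩
  rw [this]
  exact (hU.preimage hσ).union (hU.preimage hτ)

/-- A uniform lemma giving the factorization over a closed part. -/
lemma MO_part (C : Set J) (hC : IsClosed C) (w : J) (W : Set (J × ℝ))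
    (hW : W = {p | p.1 ∈ C ∧ ((0 ≤ p.2 ∧ p.2 ≤ 1) ∨ (p.1 = w ∧ -1 ≤ p.2 ∧ p.2 ≤ 1))})
    (φ : ℝ → ℝ) (hφ : Continuous φ) (τ : ℝ → ℝ) (hτ : Continuous τ) (hφ1 : ∀ s, s ≤ 1 → φ s = s)
    (hφ2 : ∀ s, -1 ≤ s → s ≤ 1 → φ (τ s) = s) (hφ3 : ∀ s, 4 ≤ s → τ (φ s) = s)
    (hmap : ∀ y : J, ∀ s : ℝ, (y, s) ∈ XS → y ∈ C → (y, φ s) ∈ W)
    (hσX : ∀ y : J, ∀ s : ℝ, (y, s) ∈ W → (y, s) ∈ XS)
    (hτX : ∀ y : J, ∀ s : ℝ, (y, s) ∈ W → (y, τ s) ∈ XS) :
    ∃ (Z : Type) (_ : MetricSpace Z) (_ : CompactSpace Z)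
          (h : ↥(fX ⁻¹' C) → Z) (g : Z → ↥C),
          Continuous h ∧ IsOpenMap h ∧ Surjective h ∧
          Continuous g ∧ Surjective g ∧ (∀ y, IsConnected (g ⁻¹' {y})) ∧
          ∀ x : ↥(fX ⁻¹' C), ((g (h x) : ↥C) : J) = fX x := by
  have c1 : Continuous (fun p : J × ℝ => p.1) := continuous_fst
  have c2 : Continuous (fun p : J × ℝ => p.2) := continuous_snd
  have hWclosed : IsClosed W := by
    rw [hW]
    exact (hC.preimage c1).inter (((isClosed_le continuous_const c2).inter (isClosed_le c2 continuous_const)).union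
      ((isClosed_eq c1 continuous_const).inter ((isClosed_le continuous_const c2).inter (isClosed_le c2 continuous_const))))
  have hWb : ∀ p ∈ W, -1 ≤ p.2 ∧ p.2 ≤ 1 := by
    intro p hp
    rw [hW] at hp
    rcases hp.2 with h | h
    · exact ⟨by linarith [h.1], h.2⟩
    · exact h.2
  have hWsub : W ⊆ Set.univ ×ˢ Set.Icc (-1:ℝ) 1 := fun p hp => ⟨trivial, hWb p hp⟩
  have hWcomp : IsCompact W := (isCompact_univ.prod isCompact_Icc).of_isClosed_subset hWclosed hWsub
  have hWC : ∀ p ∈ W, p.1 ∈ C := fun p hp => by rw [hW] at hp; exact hp.1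
  refine ⟨W, inferInstance, isCompact_iff_compactSpace.mp hWcomp,
    fun x => ⟨(x.1.1.1, φ x.1.1.2), hmap _ _ x.1.2 x.2⟩, fun z => ⟨z.1.1, hWC _ z.2⟩, ?_, ?_, ?_, ?_, ?_, ?_, ?_⟩
  · fun_prop
  · apply open_of_sections _
      (fun z : W => (⟨⟨(z.1.1, z.1.2), hσX _ _ z.2⟩, hWC _ z.2⟩ : ↥(fX ⁻¹' C)))
      (fun z : W => (⟨⟨(z.1.1, τ z.1.2), hτX _ _ z.2⟩, (show z.1.1 ∈ C from hWC _ z.2)⟩ : ↥(fX ⁻¹' C)))
    · fun_prop
    · fun_prop
    · intro z
      apply Subtype.ext
      simp only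
      rw [hφ1 _ (hWb _ z.2).2]
    · intro z
      apply Subtype.ext
      simp only
      rw [hφ2 _ (hWb _ z.2).1 (hWb _ z.2).2]
    · rintro ⟨⟨⟨y, s⟩, hx⟩, hy⟩
      have hs : s ≤ 1 ∨ 4 ≤ s := by
        simp only [XS, Set.mem_ofPred_eq] at hx
        rcases hx with h | h | h | h | h | h
        · left; exact h.2
        · left; exact h.2.2
        · left; exact h.2.2
        · right; linarith [h.1]
        · right; exact h.2.1
        · right; linarith [h.2.1]
      rcases hs with h | h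
      · left
        apply Subtype.ext; apply Subtype.ext
        simp only
        rw [hφ1 _ h]
      · right
        apply Subtype.ext; apply Subtype.ext
        simp only
        rw [hφ3 _ h]
  · intro z
    refine ⟨⟨⟨(z.1.1, z.1.2), hσX _ _ z.2⟩, hWC _ z.2⟩, ?_⟩
    apply Subtype.ext
    simp only
    rw [hφ1 _ (hWb _ z.2).2]
  · fun_prop
  · intro y
    refine ⟨⟨(y.1, 0), ?_⟩, rfl⟩
    rw [hW]
    exact ⟨y.2, Or.inl ⟨le_rfl, zero_le_one⟩⟩
  · intro y
    refine ⟨⟨⟨(y.1, 0), ?_⟩, rfl⟩, ?_⟩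
    · rw [hW]
      exact ⟨y.2, Or.inl ⟨le_rfl, zero_le_one⟩⟩
    · rw [← (IsInducing.subtypeVal (t := W)).isPreconnected_image]
      have himg : (Subtype.val '' ((fun z : W => (⟨z.1.1, hWC _ z.2⟩ : C)) ⁻¹' {y})) =
          (fun s : ℝ => ((y.1, s) : J × ℝ)) '' {s : ℝ | (y.1, s) ∈ W} := by
        ext ⟨y', s⟩
        constructor
        · rintro ⟨⟨q, hq⟩, hq2, hq3⟩
          have e : q.1 = y.1 := congrArg Subtype.val hq2
          simp only at hq3
          rw [hq3] at hq e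
          simp only at e
          rw [e] at hq
          exact ⟨s, hq, by rw [e]⟩
        · rintro ⟨s', hs', he⟩
          have e1 : y.1 = y' := congrArg Prod.fst he
          have e2 : s' = s := congrArg Prod.snd he
          rw [← e2, ← e1]
          exact ⟨⟨(y.1, s'), hs'⟩, rfl, rfl⟩
      rw [himg]
      apply IsPreconnected.image
      · have hset : {s : ℝ | (y.1, s) ∈ W} = Set.Icc 0 1 ∨ {s : ℝ | (y.1, s) ∈ W} = Set.Icc (-1) 1 := by
          by_cases hyw : y.1 = w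
          · right
            ext s
            rw [hW]
            simp only [Set.mem_ofPred_eq, Set.mem_Icc]
            constructor
            · rintro ⟨_, h | h⟩
              · exact ⟨by linarith [h.1], h.2⟩
              · exact h.2
            · intro h
              exact ⟨y.2, Or.inr ⟨hyw, h⟩⟩
          · left
            ext s
            rw [hW]
            simp only [Set.mem_ofPred_eq, Set.mem_Icc]
            constructor
            · rintro ⟨_, h | h⟩
              · exact h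
              · exact absurd h.1 hyw
            · intro h
              exact ⟨y.2, Or.inl h⟩
        rcases hset with h | h <;> rw [h] <;> exact isPreconnected_Icc
      · fun_prop
  · intro x
    rfl


/-- The main argument. -/
lemma not_MO : ¬ ∃ (Z : Type) (_ : MetricSpace Z) (_ : CompactSpace Z)
          (h : XS → Z) (g : Z → J),
          Continuous h ∧ IsOpenMap h ∧ Surjective h ∧
          Continuous g ∧ Surjective g ∧ (∀ y, IsConnected (g ⁻¹' {y})) ∧
          ∀ x : XS, g (h x) = fX x := by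
  rintro ⟨Z, _, _, h, g, hh, hopen, hsurj, hg, hgs, hconn, hgh⟩
  have hcoord : Continuous (fun x : XS => x.1.2) := by fun_prop
  have hcoord1 : Continuous (fun x : XS => x.1.1) := by fun_prop
  -- open sticker parts
  set O0 : Set XS := {x | x.1.1 < 1 ∧ (x.1.2 < 0 ∨ (3 < x.1.2 ∧ x.1.2 < 5))} with hO0
  set O1 : Set XS := {x | 0 < x.1.1 ∧ (x.1.2 < 0 ∨ 6 < x.1.2)} with hO1
  have hO0open : IsOpen O0 := by
    refine (isOpen_lt hcoord1 continuous_const).inter ((isOpen_lt hcoord continuous_const).union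
      ((isOpen_lt continuous_const hcoord).inter (isOpen_lt hcoord continuous_const)))
  have hO1open : IsOpen O1 := by
    refine (isOpen_lt continuous_const hcoord1).inter ((isOpen_lt hcoord continuous_const).union
      (isOpen_lt continuous_const hcoord))
  have hO0f : ∀ x ∈ O0, x.1.1 = 0 := by
    rintro ⟨⟨y, s⟩, hx⟩ ⟨h1, h2⟩
    simp only [XS, Set.mem_ofPred_eq] at hx h1 h2
    rcases hx with h | h | h | h | h | h
    · rcases h2 with h2 | h2 <;> linarith [h.1, h.2, h2]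
    · exact h.1
    · rw [h.1] at h1; exact absurd h1 (lt_irrefl _)
    · rcases h2 with h2 | h2
      · linarith [h.1]
      · linarith [h.1, h2.2]
    · exact h.1
    · rw [h.1] at h1; exact absurd h1 (lt_irrefl _)
  have hO1f : ∀ x ∈ O1, x.1.1 = 1 := by
    rintro ⟨⟨y, s⟩, hx⟩ ⟨h1, h2⟩
    simp only [XS, Set.mem_ofPred_eq] at hx h1 h2
    rcases hx with h | h | h | h | h | h
    · rcases h2 with h2 | h2 <;> linarith [h.1, h.2, h2]
    · rw [h.1] at h1; exact absurd h1 (lt_irrefl _)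
    · exact h.1
    · rcases h2 with h2 | h2 <;> linarith [h.1, h.2]
    · rw [h.1] at h1; exact absurd h1 (lt_irrefl _)
    · exact h.1
  -- main part
  have hmainX : ∀ (y : J) (s : ℝ), ((0 ≤ s ∧ s ≤ 1) ∨ (5 ≤ s ∧ s ≤ 6)) → (y, s) ∈ XS := by
    intro y s hs
    rcases hs with hs | hs
    · exact Or.inl hs
    · exact Or.inr (Or.inr (Or.inr (Or.inl hs)))
  have hmain : ∀ x : XS, x ∉ O0 → x ∉ O1 → ((0 ≤ x.1.2 ∧ x.1.2 ≤ 1) ∨ (5 ≤ x.1.2 ∧ x.1.2 ≤ 6)) := by
    rintro ⟨⟨y, s⟩, hx⟩ h0 h1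
    simp only [hO0, hO1, Set.mem_ofPred_eq] at h0 h1
    simp only [XS, Set.mem_ofPred_eq] at hx
    rcases hx with h | h | h | h | h | h
    · exact Or.inl h
    · have hn : ¬ (s < 0 ∨ (3 < s ∧ s < 5)) := fun hs => h0 ⟨by rw [h.1]; exact zero_lt_one, hs⟩
      exact Or.inl ⟨not_lt.mp (fun q => hn (Or.inl q)), h.2.2⟩
    · have hn : ¬ (s < 0 ∨ 6 < s) := fun hs => h1 ⟨by rw [h.1]; exact zero_lt_one, hs⟩
      exact Or.inl ⟨not_lt.mp (fun q => hn (Or.inl q)), h.2.2⟩
    · exact Or.inr h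
    · have hn : ¬ (s < 0 ∨ (3 < s ∧ s < 5)) := fun hs => h0 ⟨by rw [h.1]; exact zero_lt_one, hs⟩
      exact Or.inr ⟨not_lt.mp (fun q => hn (Or.inr ⟨by linarith [h.2.1], q⟩)), h.2.2⟩
    · have hn : ¬ (s < 0 ∨ 6 < s) := fun hs => h1 ⟨by rw [h.1]; exact zero_lt_one, hs⟩
      exact Or.inr ⟨h.2.1, not_lt.mp (fun q => hn (Or.inr q))⟩
  have hcl : closure (Set.Ioo (0:J) 1) = Set.Icc 0 1 := closure_Ioo (by exact zero_ne_one)
  have near : ∀ (w : J) (U : Set J), IsOpen U → w ∈ U → ∃ t ∈ U, 0 < t ∧ t < 1 := by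
    intro w U hU hw
    have h1 : w ∈ closure (Set.Ioo (0:J) 1) := by rw [hcl]; exact ⟨bot_le, le_top⟩
    obtain ⟨t, ht1, ht2⟩ := mem_closure_iff.mp h1 U hU hw
    exact ⟨t, ht1, ht2.1, ht2.2⟩
  -- saturation
  have sat0 : ∀ x ∈ O0, ∀ x', x' ∉ O0 → h x ≠ h x' := by
    intro x hx x' hx' he
    have e1 : x'.1.1 = 0 := by
      have : g (h x) = g (h x') := by rw [he]
      rw [hgh, hgh] at this
      exact this.symm.trans (hO0f x hx)
    have hx'1 : x' ∉ O1 := by
      intro h1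
      rw [hO1f x' h1] at e1
      exact one_ne_zero e1
    have hm := hmain x' hx' hx'1
    let γ : J → XS := fun t => ⟨(t, x'.1.2), hmainX t x'.1.2 hm⟩
    have hγ : Continuous γ := by fun_prop
    have hγ0 : γ 0 = x' := by
      apply Subtype.ext
      exact Prod.ext e1.symm rfl
    have hWo : IsOpen (γ ⁻¹' (h ⁻¹' (h '' O0))) := (((hopen _ hO0open).preimage hh).preimage hγ)
    obtain ⟨t, ⟨o, ho, hoe⟩, ht0, ht1⟩ := near 0 _ hWo ⟨x, hx, by rw [hγ0]; exact he⟩
    have : g (h (γ t)) = g (h o) := by rw [hoe]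
    rw [hgh, hgh] at this
    have h2 : t = 0 := this.trans (hO0f o ho)
    exact ht0.ne' h2
  have sat1 : ∀ x ∈ O1, ∀ x', x' ∉ O1 → h x ≠ h x' := by
    intro x hx x' hx' he
    have e1 : x'.1.1 = 1 := by
      have : g (h x) = g (h x') := by rw [he]
      rw [hgh, hgh] at this
      exact this.symm.trans (hO1f x hx)
    have hx'1 : x' ∉ O0 := by
      intro h1
      rw [hO0f x' h1] at e1
      exact zero_ne_one e1
    have hm := hmain x' hx'1 hx'
    let γ : J → XS := fun t => ⟨(t, x'.1.2), hmainX t x'.1.2 hm⟩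
    have hγ : Continuous γ := by fun_prop
    have hγ0 : γ 1 = x' := by
      apply Subtype.ext
      exact Prod.ext e1.symm rfl
    have hWo : IsOpen (γ ⁻¹' (h ⁻¹' (h '' O1))) := (((hopen _ hO1open).preimage hh).preimage hγ)
    obtain ⟨t, ⟨o, ho, hoe⟩, ht0, ht1⟩ := near 1 _ hWo ⟨x, hx, by rw [hγ0]; exact he⟩
    have : g (h (γ t)) = g (h o) := by rw [hoe]
    rw [hgh, hgh] at this
    have h2 : t = 1 := this.trans (hO1f o ho)
    exact ht1.ne h2
  have lift : ∀ (x x' : XS), h x = h x' → ∀ U : Set XS, IsOpen U → x' ∈ U →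
      ∀ᶠ w in 𝓝 x, w ∉ O0 → w ∉ O1 → ∃ u ∈ U, u ∉ O0 ∧ u ∉ O1 ∧ h u = h w := by
    intro x x' he U hU hx'
    have hW : IsOpen (h ⁻¹' (h '' U)) := (hopen U hU).preimage hh
    filter_upwards [hW.mem_nhds ⟨x', hx', he.symm⟩] with w hw h0 h1
    obtain ⟨u, hu, hue⟩ := hw
    exact ⟨u, hu, fun hu0 => sat0 u hu0 w h0 hue, fun hu1 => sat1 u hu1 w h1 hue, hue⟩
  -- the two families
  let A : J × J → XS := fun p => ⟨(p.1, (p.2 : ℝ)), hmainX _ _ (Or.inl ⟨p.2.2.1, p.2.2.2⟩)⟩
  let B : J × J → XS := fun p => ⟨(p.1, (p.2 : ℝ) + 5), hmainX _ _ (Or.inr ⟨by linarith [p.2.2.1], by linarith [p.2.2.2]⟩)⟩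
  have hA : Continuous A := by fun_prop
  have hB : Continuous B := by fun_prop
  have hA0 : ∀ p, A p ∉ O0 := by
    rintro p ⟨_, h2⟩
    have h3 : (A p).1.2 = (p.2 : ℝ) := rfl
    rw [h3] at h2
    rcases h2 with h2 | h2 <;> linarith [p.2.2.1, p.2.2.2]
  have hA1 : ∀ p, A p ∉ O1 := by
    rintro p ⟨_, h2⟩
    have h3 : (A p).1.2 = (p.2 : ℝ) := rfl
    rw [h3] at h2
    rcases h2 with h2 | h2 <;> linarith [p.2.2.1, p.2.2.2]
  have hB0 : ∀ p, B p ∉ O0 := by
    rintro p ⟨_, h2⟩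
    have h3 : (B p).1.2 = (p.2 : ℝ) + 5 := rfl
    rw [h3] at h2
    rcases h2 with h2 | h2 <;> linarith [p.2.2.1, p.2.2.2]
  have hB1 : ∀ p, B p ∉ O1 := by
    rintro p ⟨_, h2⟩
    have h3 : (B p).1.2 = (p.2 : ℝ) + 5 := rfl
    rw [h3] at h2
    rcases h2 with h2 | h2 <;> linarith [p.2.2.1, p.2.2.2]
  have la : ∀ y s s' : J, (h ∘ A) (y, s) = (h ∘ A) (y, s') → ∀ V ∈ 𝓝 s', ∀ᶠ p in 𝓝 (y, s), ∃ t ∈ V, (h ∘ A) p = (h ∘ A) (p.1, t) := by
    intro y s s' he V hV
    have hpr : Continuous (fun x : XS => Set.projIcc (0:ℝ) 1 zero_le_one x.1.2) := continuous_projIcc.comp hcoord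
    have hUo : IsOpen ({x : XS | x.1.2 < 2} ∩ (fun x : XS => Set.projIcc (0:ℝ) 1 zero_le_one x.1.2) ⁻¹' (interior V)) :=
      (isOpen_lt hcoord continuous_const).inter (isOpen_interior.preimage hpr)
    have hmem : A (y, s') ∈ ({x : XS | x.1.2 < 2} ∩ (fun x : XS => Set.projIcc (0:ℝ) 1 zero_le_one x.1.2) ⁻¹' (interior V)) := by
      constructor
      · show (s' : ℝ) < 2
        linarith [s'.2.2]
      · show Set.projIcc (0:ℝ) 1 zero_le_one (s' : ℝ) ∈ interior V
        rw [Set.projIcc_val]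
        exact mem_interior_iff_mem_nhds.mpr hV
    have hl := lift (A (y, s)) (A (y, s')) he _ hUo hmem
    filter_upwards [hA.continuousAt.eventually hl] with p hp
    obtain ⟨u, ⟨hu1, hu2⟩, hu3, hu4, hu5⟩ := hp (hA0 p) (hA1 p)
    have hu6 : 0 ≤ u.1.2 ∧ u.1.2 ≤ 1 := by
      rcases hmain u hu3 hu4 with h | h
      · exact h
      · have : u.1.2 < 2 := hu1
        linarith [h.1]
    refine ⟨Set.projIcc (0:ℝ) 1 zero_le_one u.1.2, interior_subset hu2, ?_⟩
    have hu7 : u = A (p.1, Set.projIcc (0:ℝ) 1 zero_le_one u.1.2) := by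
      apply Subtype.ext
      apply Prod.ext
      · have : g (h u) = g (h (A p)) := by rw [hu5]
        rw [hgh, hgh] at this
        exact this
      · show u.1.2 = ((Set.projIcc (0:ℝ) 1 zero_le_one u.1.2 : J) : ℝ)
        rw [Set.projIcc_of_mem zero_le_one ⟨hu6.1, hu6.2⟩]
    show h (A p) = h (A _)
    rw [← hu7]
    exact hu5.symm
  have lb : ∀ y s s' : J, (h ∘ B) (y, s) = (h ∘ B) (y, s') → ∀ V ∈ 𝓝 s', ∀ᶠ p in 𝓝 (y, s), ∃ t ∈ V, (h ∘ B) p = (h ∘ B) (p.1, t) := by
    intro y s s' he V hV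
    have hpr : Continuous (fun x : XS => Set.projIcc (0:ℝ) 1 zero_le_one (x.1.2 - 5)) := continuous_projIcc.comp (hcoord.sub continuous_const)
    have hUo : IsOpen ({x : XS | 3 < x.1.2} ∩ (fun x : XS => Set.projIcc (0:ℝ) 1 zero_le_one (x.1.2 - 5)) ⁻¹' (interior V)) :=
      (isOpen_lt continuous_const hcoord).inter (isOpen_interior.preimage hpr)
    have hmem : B (y, s') ∈ ({x : XS | 3 < x.1.2} ∩ (fun x : XS => Set.projIcc (0:ℝ) 1 zero_le_one (x.1.2 - 5)) ⁻¹' (interior V)) := by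
      constructor
      · show 3 < (s' : ℝ) + 5
        linarith [s'.2.1]
      · show Set.projIcc (0:ℝ) 1 zero_le_one ((s' : ℝ) + 5 - 5) ∈ interior V
        rw [add_sub_cancel_right, Set.projIcc_val]
        exact mem_interior_iff_mem_nhds.mpr hV
    have hl := lift (B (y, s)) (B (y, s')) he _ hUo hmem
    filter_upwards [hB.continuousAt.eventually hl] with p hp
    obtain ⟨u, ⟨hu1, hu2⟩, hu3, hu4, hu5⟩ := hp (hB0 p) (hB1 p)
    have hu6 : 0 ≤ u.1.2 - 5 ∧ u.1.2 - 5 ≤ 1 := by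
      rcases hmain u hu3 hu4 with h | h
      · have : 3 < u.1.2 := hu1
        linarith [h.2]
      · exact ⟨by linarith [h.1], by linarith [h.2]⟩
    refine ⟨Set.projIcc (0:ℝ) 1 zero_le_one (u.1.2 - 5), interior_subset hu2, ?_⟩
    have hu7 : u = B (p.1, Set.projIcc (0:ℝ) 1 zero_le_one (u.1.2 - 5)) := by
      apply Subtype.ext
      apply Prod.ext
      · have : g (h u) = g (h (B p)) := by rw [hu5]
        rw [hgh, hgh] at this
        exact this
      · show u.1.2 = ((Set.projIcc (0:ℝ) 1 zero_le_one (u.1.2 - 5) : J) : ℝ) + 5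
        rw [Set.projIcc_of_mem zero_le_one ⟨hu6.1, hu6.2⟩]
        ring
    show h (B p) = h (B _)
    rw [← hu7]
    exact hu5.symm
  -- sticker paths
  let cA0 : J → XS := fun t => ⟨(0, -(t : ℝ)), Or.inr (Or.inl ⟨rfl, by show -1 ≤ -(t:ℝ); linarith [t.2.2], by show -(t:ℝ) ≤ 1; linarith [t.2.1]⟩)⟩
  let cB0 : J → XS := fun t => ⟨(0, 5 - (t : ℝ)), Or.inr (Or.inr (Or.inr (Or.inr (Or.inl ⟨rfl, by show 4 ≤ 5 -(t:ℝ); linarith [t.2.2], by show 5 -(t:ℝ) ≤ 6; linarith [t.2.1]⟩))))⟩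
  let cA1 : J → XS := fun t => ⟨(1, -(t : ℝ)), Or.inr (Or.inr (Or.inl ⟨rfl, by show -1 ≤ -(t:ℝ); linarith [t.2.2], by show -(t:ℝ) ≤ 1; linarith [t.2.1]⟩))⟩
  have hcA0 : Continuous cA0 := by fun_prop
  have hcB0 : Continuous cB0 := by fun_prop
  have hcA1 : Continuous cA1 := by fun_prop
  have key : ∀ (c : J → XS), Continuous c → ∀ x', h (c 0) = h x' → ∀ U : Set XS, IsOpen U → x' ∈ U →
      ∃ t : J, 0 < t ∧ t < 1 ∧ ∃ u ∈ U, h u = h (c t) := by
    intro c hc x' he U hU hx'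
    have hWo : IsOpen (c ⁻¹' (h ⁻¹' (h '' U))) := (((hopen _ hU).preimage hh).preimage hc)
    obtain ⟨t, ⟨u, hu, hue⟩, ht0, ht1⟩ := near 0 _ hWo ⟨x', hx', he.symm⟩
    exact ⟨t, ht0, ht1, u, hu, hue⟩
  have eA0 : cA0 0 = A (0, 0) := by
    apply Subtype.ext; apply Prod.ext
    · rfl
    · show -((0 : J) : ℝ) = ((0 : J) : ℝ); simp
  have eB0 : cB0 0 = B (0, 0) := by
    apply Subtype.ext; apply Prod.ext
    · rfl
    · show 5 - ((0 : J) : ℝ) = ((0 : J) : ℝ) + 5; simp
  have eA1 : cA1 0 = A (1, 0) := by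
    apply Subtype.ext; apply Prod.ext
    · rfl
    · show -((0 : J) : ℝ) = ((0 : J) : ℝ); simp
  have mA0 : ∀ t : J, 0 < t → cA0 t ∈ O0 := by
    intro t ht
    have ht' : (0:ℝ) < t := ht
    exact ⟨zero_lt_one, Or.inl (by show -(t:ℝ) < 0; linarith)⟩
  have mB0 : ∀ t : J, 0 < t → cB0 t ∈ O0 := by
    intro t ht
    have ht' : (0:ℝ) < t := ht
    exact ⟨zero_lt_one, Or.inr ⟨by show 3 < 5 -(t:ℝ); linarith [t.2.2], by show 5 -(t:ℝ) < 5; linarith⟩⟩
  have mA1 : ∀ t : J, 0 < t → cA1 t ∈ O1 := by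
    intro t ht
    have ht' : (0:ℝ) < t := ht
    exact ⟨zero_lt_one, Or.inl (by show -(t:ℝ) < 0; linarith)⟩
  have a0 : ∀ s : J, (h ∘ A) (0, 0) = (h ∘ A) (0, s) → s = 0 := by
    intro s he
    by_contra hs
    have hs0 : (0:ℝ) < s := lt_of_le_of_ne s.2.1 (fun h => hs (Subtype.ext h.symm))
    obtain ⟨t, ht0, ht1, u, hu, hue⟩ := key cA0 hcA0 (A (0, s)) (by rw [eA0]; exact he) {x | 0 < x.1.2 ∧ x.1.2 < 2}
      ((isOpen_lt continuous_const hcoord).inter (isOpen_lt hcoord continuous_const)) ⟨hs0, by show (s:ℝ) < 2; linarith [s.2.2]⟩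
    apply sat0 _ (mA0 t ht0) u _ hue.symm
    rintro ⟨_, h2⟩
    rcases h2 with h2 | h2
    · linarith [hu.1]
    · linarith [hu.2, h2.1]
  have b0 : ∀ s : J, (h ∘ B) (0, 0) = (h ∘ B) (0, s) → s = 0 := by
    intro s he
    by_contra hs
    have hs0 : (0:ℝ) < s := lt_of_le_of_ne s.2.1 (fun h => hs (Subtype.ext h.symm))
    obtain ⟨t, ht0, ht1, u, hu, hue⟩ := key cB0 hcB0 (B (0, s)) (by rw [eB0]; exact he) {x | 5 < x.1.2}
      (isOpen_lt continuous_const hcoord) (by show 5 < (s:ℝ) + 5; linarith)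
    apply sat0 _ (mB0 t ht0) u _ hue.symm
    have hu' : 5 < u.1.2 := hu
    rintro ⟨_, h2⟩
    rcases h2 with h2 | h2
    · linarith
    · linarith [h2.2]
  have n0 : (h ∘ A) (0, 0) ≠ (h ∘ B) (0, 1) := by
    intro he
    obtain ⟨t, ht0, ht1, u, hu, hue⟩ := key cA0 hcA0 (B (0, 1)) (by rw [eA0]; exact he) {x | 5 < x.1.2}
      (isOpen_lt continuous_const hcoord) (by show 5 < ((1:J):ℝ) + 5; simp)
    apply sat0 _ (mA0 t ht0) u _ hue.symm
    have hu' : 5 < u.1.2 := hu
    rintro ⟨_, h2⟩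
    rcases h2 with h2 | h2
    · linarith
    · linarith [h2.2]
  have n1 : (h ∘ A) (1, 0) ≠ (h ∘ B) (1, 0) := by
    intro he
    obtain ⟨t, ht0, ht1, u, hu, hue⟩ := key cA1 hcA1 (B (1, 0)) (by rw [eA1]; exact he) {x | 4 < x.1.2 ∧ x.1.2 < 6}
      ((isOpen_lt continuous_const hcoord).inter (isOpen_lt hcoord continuous_const))
      ⟨by show 4 < ((0:J):ℝ) + 5; norm_num, by show ((0:J):ℝ) + 5 < 6; norm_num⟩
    apply sat1 _ (mA1 t ht0) u _ hue.symm
    rintro ⟨_, h2⟩
    rcases h2 with h2 | h2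
    · linarith [hu.1]
    · linarith [hu.2]
  -- the clopen parts
  have hsplit : ∀ x : XS, x.1.2 < 3 ∨ 3 < x.1.2 := by
    rintro ⟨⟨y, s⟩, hx⟩
    simp only [XS, Set.mem_ofPred_eq] at hx
    show s < 3 ∨ 3 < s
    rcases hx with h | h | h | h | h | h
    · left; linarith [h.2]
    · left; linarith [h.2.2]
    · left; linarith [h.2.2]
    · right; linarith [h.1]
    · right; linarith [h.2.1]
    · right; linarith [h.2.1]
  have oA : IsOpen {x : XS | x.1.2 < 3} := isOpen_lt hcoord continuous_const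
  have oB : IsOpen {x : XS | 3 < x.1.2} := isOpen_lt continuous_const hcoord
  have cAB : {x : XS | x.1.2 < 3}ᶜ = {x : XS | 3 < x.1.2} := by
    ext x
    simp only [Set.mem_compl_iff, Set.mem_ofPred_eq, not_lt]
    constructor
    · intro h
      rcases hsplit x with h' | h'
      · linarith
      · exact h'
    · intro h; exact h.le
  have clA : IsClosed {x : XS | x.1.2 < 3} := by rw [← isOpen_compl_iff, cAB]; exact oB
  have clB : IsClosed {x : XS | 3 < x.1.2} := by rw [← cAB]; exact oA.isClosed_compl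
  have kA : IsClopen (h '' {x : XS | x.1.2 < 3}) := ⟨(clA.isCompact.image hh).isClosed, hopen _ oA⟩
  have kB : IsClopen (h '' {x : XS | 3 < x.1.2}) := ⟨(clB.isCompact.image hh).isClosed, hopen _ oB⟩
  have img : ∀ y : J, 0 < y → y < 1 → ∀ s, ∃ t, (h ∘ B) (y, t) = (h ∘ A) (y, s) := by
    intro y hy0 hy1 s
    have hsub : g ⁻¹' {y} ⊆ h '' {x : XS | 3 < x.1.2} := by
      apply (hconn y).isPreconnected.subset_isClopen kB
      refine ⟨h (B (y, 0)), ?_, ⟨B (y, 0), by show 3 < ((0:J):ℝ) + 5; norm_num, rfl⟩⟩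
      show g (h (B (y, 0))) = y
      rw [hgh]; rfl
    have hz : h (A (y, s)) ∈ g ⁻¹' {y} := by
      show g (h (A (y, s))) = y
      rw [hgh]; rfl
    obtain ⟨x, hx, hxe⟩ := hsub hz
    have hxy : x.1.1 = y := by
      have : g (h x) = g (h (A (y, s))) := by rw [hxe]
      rw [hgh, hgh] at this
      exact this
    have hx0 : x ∉ O0 := fun h => hy0.ne' (hxy.symm.trans (hO0f x h))
    have hx1 : x ∉ O1 := fun h => hy1.ne (hxy.symm.trans (hO1f x h))
    have hx3 : 3 < x.1.2 := hx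
    have hx2 : 0 ≤ x.1.2 - 5 ∧ x.1.2 - 5 ≤ 1 := by
      rcases hmain x hx0 hx1 with h | h
      · linarith [h.2]
      · exact ⟨by linarith [h.1], by linarith [h.2]⟩
    refine ⟨⟨x.1.2 - 5, hx2⟩, ?_⟩
    show h (B _) = h (A _)
    rw [← hxe]
    congr 1
    apply Subtype.ext
    apply Prod.ext
    · exact hxy.symm
    · show x.1.2 - 5 + 5 = x.1.2
      ring
  have img' : ∀ y : J, 0 < y → y < 1 → ∀ s, ∃ t, (h ∘ A) (y, t) = (h ∘ B) (y, s) := by
    intro y hy0 hy1 s
    have hsub : g ⁻¹' {y} ⊆ h '' {x : XS | x.1.2 < 3} := by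
      apply (hconn y).isPreconnected.subset_isClopen kA
      refine ⟨h (A (y, 0)), ?_, ⟨A (y, 0), by show ((0:J):ℝ) < 3; norm_num, rfl⟩⟩
      show g (h (A (y, 0))) = y
      rw [hgh]; rfl
    have hz : h (B (y, s)) ∈ g ⁻¹' {y} := by
      show g (h (B (y, s))) = y
      rw [hgh]; rfl
    obtain ⟨x, hx, hxe⟩ := hsub hz
    have hxy : x.1.1 = y := by
      have : g (h x) = g (h (B (y, s))) := by rw [hxe]
      rw [hgh, hgh] at this
      exact this
    have hx0 : x ∉ O0 := fun h => hy0.ne' (hxy.symm.trans (hO0f x h))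
    have hx1 : x ∉ O1 := fun h => hy1.ne (hxy.symm.trans (hO1f x h))
    have hx3 : x.1.2 < 3 := hx
    have hx2 : 0 ≤ x.1.2 ∧ x.1.2 ≤ 1 := by
      rcases hmain x hx0 hx1 with h | h
      · exact h
      · linarith [h.1]
    refine ⟨⟨x.1.2, hx2⟩, ?_⟩
    show h (A _) = h (B _)
    rw [← hxe]
    congr 1
    apply Subtype.ext
    apply Prod.ext
    · exact hxy.symm
    · rfl
  exact abstract_contra (h ∘ A) (h ∘ B) (hh.comp hA) (hh.comp hB) la lb a0 b0 n0 n1 img img'


/-- The negation of the preceding statement: For a continuous surjection f between compact metric spaces and open G₁, G₂ covering Y: if each restriction of f over closure(Gᵢ) is an open map followed by a monotone map, then f itself is an open map followed by a monotone map. -/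
theorem result :
    ¬ (∀ (X Y : Type) [MetricSpace X] [CompactSpace X] [MetricSpace Y] [CompactSpace Y]
      (f : X → Y), Continuous f → Surjective f →
      ∀ G₁ G₂ : Set Y, IsOpen G₁ → IsOpen G₂ → G₁ ∪ G₂ = Set.univ →
      (∃ (Z : Type) (_ : MetricSpace Z) (_ : CompactSpace Z)
          (h : ↥(f ⁻¹' closure G₁) → Z) (g : Z → ↥(closure G₁)),
          Continuous h ∧ IsOpenMap h ∧ Surjective h ∧
          Continuous g ∧ Surjective g ∧ (∀ y, IsConnected (g ⁻¹' {y})) ∧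
          ∀ x : ↥(f ⁻¹' closure G₁), ((g (h x) : ↥(closure G₁)) : Y) = f x) →
      (∃ (Z : Type) (_ : MetricSpace Z) (_ : CompactSpace Z)
          (h : ↥(f ⁻¹' closure G₂) → Z) (g : Z → ↥(closure G₂)),
          Continuous h ∧ IsOpenMap h ∧ Surjective h ∧
          Continuous g ∧ Surjective g ∧ (∀ y, IsConnected (g ⁻¹' {y})) ∧
          ∀ x : ↥(f ⁻¹' closure G₂), ((g (h x) : ↥(closure G₂)) : Y) = f x) →
      ∃ (Z : Type) (_ : MetricSpace Z) (_ : CompactSpace Z)
          (h : X → Z) (g : Z → Y),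
          Continuous h ∧ IsOpenMap h ∧ Surjective h ∧
          Continuous g ∧ Surjective g ∧ (∀ y, IsConnected (g ⁻¹' {y})) ∧
          ∀ x : X, g (h x) = f x) := by
  intro H
  have hval : Continuous (fun y : J => (y : ℝ)) := continuous_subtype_val
  have hG1 : IsOpen {y : J | (y : ℝ) < 2/3} := isOpen_lt hval continuous_const
  have hG2 : IsOpen {y : J | 1/3 < (y : ℝ)} := isOpen_lt continuous_const hval
  have hC1 : ∀ y ∈ closure {y : J | (y : ℝ) < 2/3}, (y : ℝ) ≤ 2/3 := by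
    have : closure {y : J | (y : ℝ) < 2/3} ⊆ {y : J | (y : ℝ) ≤ 2/3} :=
      closure_minimal (fun y (hy : (y : ℝ) < 2/3) => (show (y : ℝ) ≤ 2/3 from le_of_lt hy)) (isClosed_le hval continuous_const)
    exact this
  have hC2 : ∀ y ∈ closure {y : J | 1/3 < (y : ℝ)}, 1/3 ≤ (y : ℝ) := by
    have : closure {y : J | 1/3 < (y : ℝ)} ⊆ {y : J | 1/3 ≤ (y : ℝ)} :=
      closure_minimal (fun y (hy : 1/3 < (y : ℝ)) => (show 1/3 ≤ (y : ℝ) from le_of_lt hy)) (isClosed_le continuous_const hval)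
    exact this
  apply not_MO
  refine H XS J fX (by unfold fX; fun_prop) ?_ {y : J | (y : ℝ) < 2/3} {y : J | 1/3 < (y : ℝ)} hG1 hG2 ?_ ?_ ?_
  · intro y
    exact ⟨⟨(y, 0), Or.inl ⟨le_rfl, zero_le_one⟩⟩, rfl⟩
  · ext y
    simp only [Set.mem_union, Set.mem_ofPred_eq, Set.mem_univ, iff_true]
    by_cases hy : (y : ℝ) < 2/3
    · left; exact hy
    · right
      rw [not_lt] at hy
      linarith
  · have hφ1 : ∀ s : ℝ, s ≤ 1 → max (min s (1 - (2/3) * (s - 1))) (s - 5) = s := by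
      intro s hs
      rw [min_eq_left (by linarith), max_eq_left (by linarith)]
    have hφ2 : ∀ s : ℝ, 4 ≤ s → max (min s (1 - (2/3) * (s - 1))) (s - 5) = s - 5 := by
      intro s hs
      rw [min_eq_right (by linarith), max_eq_right (by linarith)]
    apply MO_part _ isClosed_closure 0 _ rfl (fun s => max (min s (1 - (2/3) * (s - 1))) (s - 5)) (by fun_prop)
      (fun s => s + 5) (by fun_prop)
    · exact hφ1
    · intro s h1 h2
      show max (min (s + 5) (1 - (2/3) * (s + 5 - 1))) (s + 5 - 5) = s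
      rw [hφ2 (s + 5) (by linarith)]
      ring
    · intro s h1
      show max (min s (1 - (2/3) * (s - 1))) (s - 5) + 5 = s
      rw [hφ2 s h1]
      ring
    · intro y s hys hy
      have hy1 : y ≠ 1 := by
        rintro rfl
        have := hC1 _ hy
        simp only [Set.Icc.coe_one] at this
        linarith
      refine ⟨hy, ?_⟩
      simp only [XS, Set.mem_ofPred_eq] at hys
      rcases hys with h | h | h | h | h | h
      · left; simp only; rw [hφ1 s h.2]; exact h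
      · right; simp only; rw [hφ1 s h.2.2]; exact h
      · exact absurd h.1 hy1
      · left; simp only; rw [hφ2 s (by linarith [h.1])]; exact ⟨by linarith [h.1], by linarith [h.2]⟩
      · right; simp only; rw [hφ2 s h.2.1]; exact ⟨h.1, by linarith [h.2.1], by linarith [h.2.2]⟩
      · exact absurd h.1 hy1
    · rintro y s ⟨_, h | h⟩
      · exact Or.inl h
      · exact Or.inr (Or.inl h)
    · rintro y s ⟨_, h | h⟩
      · refine Or.inr (Or.inr (Or.inr (Or.inl ?_)))
        simp only at h ⊢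
        exact ⟨by linarith [h.1], by linarith [h.2]⟩
      · refine Or.inr (Or.inr (Or.inr (Or.inr (Or.inl ?_))))
        simp only at h ⊢
        exact ⟨h.1, by linarith [h.2.1], by linarith [h.2.2]⟩
  · have hφ1 : ∀ s : ℝ, s ≤ 1 → min s (6 - s) = s := by
      intro s hs
      rw [min_eq_left (by linarith)]
    have hφ2 : ∀ s : ℝ, 4 ≤ s → min s (6 - s) = 6 - s := by
      intro s hs
      rw [min_eq_right (by linarith)]
    apply MO_part _ isClosed_closure 1 _ rfl (fun s => min s (6 - s)) (by fun_prop)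
      (fun s => 6 - s) (by fun_prop)
    · exact hφ1
    · intro s h1 h2
      show min (6 - s) (6 - (6 - s)) = s
      rw [hφ2 (6 - s) (by linarith)]
      ring
    · intro s h1
      show 6 - min s (6 - s) = s
      rw [hφ2 s h1]
      ring
    · intro y s hys hy
      have hy1 : y ≠ 0 := by
        rintro rfl
        have := hC2 _ hy
        simp only [Set.Icc.coe_zero] at this
        linarith
      refine ⟨hy, ?_⟩
      simp only [XS, Set.mem_ofPred_eq] at hys
      rcases hys with h | h | h | h | h | h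
      · left; simp only; rw [hφ1 s h.2]; exact h
      · exact absurd h.1 hy1
      · right; simp only; rw [hφ1 s h.2.2]; exact h
      · left; simp only; rw [hφ2 s (by linarith [h.1])]; exact ⟨by linarith [h.2], by linarith [h.1]⟩
      · exact absurd h.1 hy1
      · right; simp only; rw [hφ2 s (by linarith [h.2.1])]; exact ⟨h.1, by linarith [h.2.2], by linarith [h.2.1]⟩
    · rintro y s ⟨_, h | h⟩
      · exact Or.inl h
      · exact Or.inr (Or.inr (Or.inl h))
    · rintro y s ⟨_, h | h⟩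
      · refine Or.inr (Or.inr (Or.inr (Or.inl ?_)))
        simp only at h ⊢
        exact ⟨by linarith [h.2], by linarith [h.1]⟩
      · refine Or.inr (Or.inr (Or.inr (Or.inr (Or.inr ?_))))
        simp only at h ⊢
        exact ⟨h.1, by linarith [h.2.2], by linarith [h.2.1]⟩

end Pool.Agent.S08100
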