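import Pool.Statements.S08102

set_option autoImplicit false
open TopologicalSpace
open Pool Pool.MP_0eb590_gt

namespace Pool.Agent.S08102

/-- The set of reals, to be used as a discrete space. -/
def X : Type := ℝ

instance : TopologicalSpace X := ⊥
instance : DiscreteTopology X := ⟨rfl⟩

/-- clipping to the unit interval -/
noncomputable def clip (u : ℝ) : ℝ := max 0 (min 1 u)

lemma continuous_clip : Continuous clip := by unfold clip; fun_prop

lemma clip_of_nonpos {u : ℝ} (h : u ≤ 0) : clip u = 0 := by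
  unfold clip; rw [max_eq_left]; exact (min_le_right _ _).trans h

lemma clip_of_one_le {u : ℝ} (h : 1 ≤ u) : clip u = 1 := by
  unfold clip; rw [min_eq_left h]; norm_num

/-- the countably many base functions -/
noncomputable def eta (x : ℝ → ℝ) (k : ℕ) : ℝ := clip (|x 0| - k) * x (k + 1)

noncomputable def rho (x : ℝ → ℝ) (k : ℕ) : ℝ := clip (eta x k)

lemma eta_zero (x : ℝ → ℝ) (k : ℕ) (h : |x 0| ≤ k) : eta x k = 0 := by
  unfold eta; rw [clip_of_nonpos (by linarith), zero_mul]

lemma rho_zero (x : ℝ → ℝ) (k : ℕ) (h : |x 0| ≤ k) : rho x k = 0 := by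
  unfold rho; rw [eta_zero x k h]; exact clip_of_nonpos le_rfl

/-- truncated series -/
noncomputable def P (v : ℕ → ℝ) (m N : ℕ) (y : ℕ → ℝ) : ℝ :=
  ∑ j ∈ Finset.Ico m N, v j * y j * ∏ k ∈ Finset.Ico m j, (1 - y k)

lemma continuous_P (v : ℕ → ℝ) (m N : ℕ) : Continuous (P v m N) := by
  unfold P; fun_prop

lemma P_succ (v : ℕ → ℝ) (m N : ℕ) (h : m ≤ N) (y : ℕ → ℝ) :
    P v m (N + 1) y = P v m N y + v N * y N * ∏ k ∈ Finset.Ico m N, (1 - y k) := by
  unfold P
  rw [Finset.sum_Ico_succ_top h]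

lemma P_stab (v : ℕ → ℝ) (m N M : ℕ) (hNM : N ≤ M) (y : ℕ → ℝ) (hy : ∀ k, N ≤ k → y k = 0) :
    P v m M y = P v m N y := by
  unfold P
  symm
  apply Finset.sum_subset
  · intro j hj
    rw [Finset.mem_Ico] at hj ⊢
    omega
  · intro j hj hj'
    rw [Finset.mem_Ico] at hj hj'
    rw [hy j (by omega)]
    ring

lemma P_one (v : ℕ → ℝ) (m n M : ℕ) (hmn : m ≤ n) (hnM : n + 1 ≤ M) (y : ℕ → ℝ) (hy : y n = 1) :
    P v m M y = P v m (n + 1) y := by
  unfold P
  symm
  apply Finset.sum_subset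
  · intro j hj
    rw [Finset.mem_Ico] at hj ⊢
    omega
  · intro j hj hj'
    rw [Finset.mem_Ico] at hj hj'
    rw [Finset.prod_eq_zero (i := n)]
    · ring
    · rw [Finset.mem_Ico]; omega
    · rw [hy]; ring

lemma prod_stab (m N M : ℕ) (hNM : N ≤ M) (y : ℕ → ℝ) (hy : ∀ k, N ≤ k → y k = 0) :
    ∏ k ∈ Finset.Ico m M, (1 - y k) = ∏ k ∈ Finset.Ico m N, (1 - y k) := by
  symm
  apply Finset.prod_subset
  · intro j hj
    rw [Finset.mem_Ico] at hj ⊢
    omega
  · intro j hj hj'
    rw [Finset.mem_Ico] at hj hj'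
    rw [hy j (by omega)]
    ring

/-- the main functions -/
noncomputable def G (v : ℕ → ℝ) (m : ℕ) (ξ : ℝ) (x : ℝ → ℝ) : ℝ :=
  clip (m - |x 0|) * x ξ + P v m ⌈|x 0|⌉₊ (rho x)

lemma G_eq (v : ℕ → ℝ) (m : ℕ) (ξ : ℝ) (x : ℝ → ℝ) (N : ℕ) (hN : |x 0| ≤ N) :
    G v m ξ x = clip (m - |x 0|) * x ξ + P v m N (rho x) := by
  unfold G
  rw [P_stab v m ⌈|x 0|⌉₊ N (Nat.ceil_le.2 hN)]
  intro k hk
  exact rho_zero x k (Nat.ceil_le.1 hk)

lemma continuous_rho : Continuous rho := by
  unfold rho eta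
  have := continuous_clip
  fun_prop

lemma continuous_eta : Continuous eta := by
  unfold eta
  have := continuous_clip
  fun_prop

lemma continuous_G (v : ℕ → ℝ) (m : ℕ) (ξ : ℝ) : Continuous (G v m ξ) := by
  rw [continuous_iff_continuousAt]
  intro x
  obtain ⟨N, hN⟩ := exists_nat_gt |x 0|
  have h1 : Continuous (fun x : ℝ → ℝ => clip (m - |x 0|) * x ξ + P v m N (rho x)) := by
    have h2 := continuous_clip
    have h3 := (continuous_P v m N).comp continuous_rho
    have h4 : Continuous (fun x : ℝ → ℝ => clip (m - |x 0|) * x ξ) := by fun_prop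
    exact h4.add h3
  apply h1.continuousAt.congr
  have h5 : IsOpen {x : ℝ → ℝ | |x 0| < N} :=
    isOpen_lt (by fun_prop) continuous_const
  filter_upwards [h5.mem_nhds hN] with z hz
  exact (G_eq v m ξ z N (le_of_lt hz)).symm

/-- a dense sequence of functions -/
lemma exists_dense : ∃ w : ℕ → (ℕ × ℝ → ℝ), ∀ U : Set (ℕ × ℝ → ℝ), IsOpen U → U.Nonempty →
    ∀ N : ℕ, ∃ n, N ≤ n ∧ w n ∈ U := by
  refine ⟨fun n => ⇑(denseSeq C(ℕ × ℝ, ℝ) (Nat.unpair n).1), ?_⟩
  intro U hU hne N
  obtain ⟨f, hf⟩ := hne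
  obtain ⟨I, u, hu, hIu⟩ := isOpen_pi_iff.1 hU f hf
  -- a continuous function agreeing with `f` on `I`
  have hI : IsClosed (I : Set (ℕ × ℝ)) := I.finite_toSet.isClosed
  have : DiscreteTopology (I : Set (ℕ × ℝ)) := I.finite_toSet.isDiscrete.to_subtype
  obtain ⟨F, hF⟩ := ContinuousMap.exists_restrict_eq hI
    (⟨fun z : (I : Set (ℕ × ℝ)) => f z.1, continuous_of_discreteTopology⟩ : C((I : Set (ℕ × ℝ)), ℝ))
  have hFI : ∀ i ∈ I, F i = f i := by
    intro i hi
    exact congrArg (fun φ : C((I : Set (ℕ × ℝ)), ℝ) => φ ⟨i, hi⟩) hF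
  have hO : IsOpen {φ : C(ℕ × ℝ, ℝ) | ∀ i ∈ I, φ i ∈ u i} := by
    have : {φ : C(ℕ × ℝ, ℝ) | ∀ i ∈ I, φ i ∈ u i} =
        ⋂ i ∈ I, (fun φ : C(ℕ × ℝ, ℝ) => φ i) ⁻¹' (u i) := by
      ext φ; simp
    rw [this]
    apply isOpen_biInter_finset
    intro i hi
    exact (hu i hi).1.preimage (continuous_eval_const i)
  obtain ⟨φ, hφ, j, hj⟩ := (denseRange_denseSeq C(ℕ × ℝ, ℝ)).inter_open_nonempty _ hO
    ⟨F, fun i hi => by rw [hFI i hi]; exact (hu i hi).2⟩
  refine ⟨Nat.pair j N, Nat.right_le_pair j N, hIu ?_⟩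
  intro i hi
  simp only [Nat.unpair_pair]
  rw [hj]
  exact hφ i hi

/-- the index set of all coordinate functions -/
abbrev ι : Type := ℕ ⊕ (ℕ × ℝ)

/-- the map whose image is the space of countable pi-weight -/
noncomputable def e (w : ℕ → (ℕ × ℝ → ℝ)) (x : ℝ → ℝ) : ι → ℝ
  | Sum.inl k => eta x k
  | Sum.inr p => G (fun n => w n p) p.1 p.2 x

lemma continuous_e (w : ℕ → (ℕ × ℝ → ℝ)) : Continuous (e w) := by
  apply continuous_pi
  rintro (k | p)
  · exact (continuous_apply k).comp continuous_eta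
  · exact continuous_G _ _ _

lemma e_injective (w : ℕ → (ℕ × ℝ → ℝ)) : Function.Injective (e w) := by
  intro x y h
  funext ξ
  obtain ⟨m, hm⟩ := exists_nat_ge (|x 0| + |y 0| + 1)
  have h1 := congrFun h (Sum.inr (m, ξ))
  simp only [e] at h1
  have hx : |x 0| ≤ m := by linarith [abs_nonneg (y 0)]
  have hy : |y 0| ≤ m := by linarith [abs_nonneg (x 0)]
  rw [G_eq _ m ξ x m hx, G_eq _ m ξ y m hy, clip_of_one_le (by linarith [abs_nonneg (y 0)]),
    clip_of_one_le (by linarith [abs_nonneg (x 0)])] at h1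
  simpa [P] using h1

/-- realising prescribed values of the base functions -/
lemma exists_eta (n : ℕ) (y : ℕ → ℝ) : ∃ x : ℝ → ℝ, ∀ k ≤ n, eta x k = y k := by
  refine ⟨fun s => if s = 0 then (n : ℝ) + 1 else y (⌊s⌋₊ - 1), ?_⟩
  intro k hk
  unfold eta
  have h1 : ((k : ℝ) + 1) ≠ 0 := by positivity
  have h2 : ⌊(k : ℝ) + 1⌋₊ = k + 1 := by
    have : ((k : ℝ) + 1) = ((k + 1 : ℕ) : ℝ) := by push_cast; ring
    rw [this, Nat.floor_natCast]
  have h3 : (k : ℝ) ≤ n := by exact_mod_cast hk
  simp only [if_true, h1, if_false, h2]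
  rw [clip_of_one_le]
  · simp
  · rw [abs_of_nonneg (by positivity)]; linarith

/-- the key point: every nonempty open condition contains a condition on the base functions -/
lemma key (w : ℕ → (ℕ × ℝ → ℝ))
    (hw : ∀ U : Set (ℕ × ℝ → ℝ), IsOpen U → U.Nonempty → ∀ N : ℕ, ∃ n, N ≤ n ∧ w n ∈ U)
    (V : Set (ι → ℝ)) (hV : IsOpen V) (x : ℝ → ℝ) (hx : e w x ∈ V) :
    ∃ O : Set (ℕ → ℝ), IsOpen O ∧ (∃ z, eta z ∈ O) ∧ ∀ z, eta z ∈ O → e w z ∈ V := by
  obtain ⟨I, u, hu, hIu⟩ := isOpen_pi_iff.1 hV _ hx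
  obtain ⟨N, hN⟩ := exists_nat_ge |x 0|
  -- a bound for the indices
  obtain ⟨K, hK⟩ : ∃ K : ℕ, (∀ k, Sum.inl k ∈ I → k < K) ∧ (∀ p : ℕ × ℝ, Sum.inr p ∈ I → p.1 < K) := by
    refine ⟨∑ i ∈ I, (Sum.elim (fun k => k + 1) (fun p : ℕ × ℝ => p.1 + 1) i), ?_, ?_⟩
    · intro k hk
      have := Finset.single_le_sum (f := fun i : ι => Sum.elim (fun k => k + 1)
        (fun p : ℕ × ℝ => p.1 + 1) i) (fun i _ => Nat.zero_le _) hk
      simp only [Sum.elim_inl] at this
      omega
    · intro p hp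
      have := Finset.single_le_sum (f := fun i : ι => Sum.elim (fun k => k + 1)
        (fun p : ℕ × ℝ => p.1 + 1) i) (fun i _ => Nat.zero_le _) hp
      simp only [Sum.elim_inr] at this
      omega
  set c : ℕ × ℝ → ℝ := fun p => ∏ k ∈ Finset.Ico p.1 (max N K), (1 - rho x k) with hc
  have hrho : ∀ k, N ≤ k → rho x k = 0 := fun k hk => rho_zero x k (hN.trans (by exact_mod_cast hk))
  -- choose the value
  set U : Set (ℕ × ℝ → ℝ) := {f | ∀ p : ℕ × ℝ, Sum.inr p ∈ I →
    P (fun n => w n p) p.1 (max N K) (rho x) + f p * c p ∈ u (Sum.inr p)} with hUdef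
  have hUo : IsOpen U := by
    have hfin : {p : ℕ × ℝ | Sum.inr p ∈ I}.Finite := by
      apply Set.Finite.of_finite_image (f := (Sum.inr : ℕ × ℝ → ι))
      · apply I.finite_toSet.subset
        rintro _ ⟨p, hp, rfl⟩
        exact hp
      · exact Sum.inr_injective.injOn
    have : U = ⋂ p ∈ {p : ℕ × ℝ | Sum.inr p ∈ I}, {f | P (fun n => w n p) p.1 (max N K) (rho x) + f p * c p ∈ u (Sum.inr p)} := by
      ext f; simp [hUdef]
    rw [this]
    apply hfin.isOpen_biInter
    intro p hp
    have hcont : Continuous (fun f : ℕ × ℝ → ℝ => P (fun n => w n p) p.1 (max N K) (rho x) + f p * c p) := by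
      fun_prop
    exact (hu _ hp).1.preimage hcont
  have hUne : U.Nonempty := by
    refine ⟨fun p => clip (p.1 - |x 0|) * x p.2, ?_⟩
    intro p hp
    have h1 := (hu _ hp).2
    simp only [e] at h1
    rw [G_eq _ p.1 p.2 x (max N K) (hN.trans (by exact_mod_cast le_max_left N K))] at h1
    have h2 : clip (p.1 - |x 0|) * x p.2 * c p = clip (p.1 - |x 0|) * x p.2 := by
      by_cases h : |x 0| < p.1
      · have h3 : c p = 1 := by
          rw [hc]
          apply Finset.prod_eq_one
          intro k hk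
          rw [Finset.mem_Ico] at hk
          rw [rho_zero x k (h.le.trans (by exact_mod_cast hk.1))]
          ring
        rw [h3, mul_one]
      · rw [clip_of_nonpos (by linarith [not_lt.1 h])]
        ring
    rw [h2, add_comm]
    exact h1
  obtain ⟨n, hn, hwn⟩ := hw U hUo hUne (max N K)
  have hNn : N ≤ n := (le_max_left _ _).trans hn
  have hKn : K ≤ n := (le_max_right _ _).trans hn
  refine ⟨{y | 1 < y n ∧ ∀ i ∈ I, Sum.elim (fun k => y k) (fun p : ℕ × ℝ =>
    P (fun n => w n p) p.1 (n + 1) (fun k => clip (y k))) i ∈ u i}, ?_, ?_, ?_⟩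
  · apply IsOpen.inter
    · exact isOpen_lt continuous_const (continuous_apply n)
    · have : {y : ℕ → ℝ | ∀ i ∈ I, Sum.elim (fun k => y k) (fun p : ℕ × ℝ =>
          P (fun n => w n p) p.1 (n + 1) (fun k => clip (y k))) i ∈ u i} = ⋂ i ∈ I, {y : ℕ → ℝ | Sum.elim (fun k => y k) (fun p : ℕ × ℝ =>
          P (fun n => w n p) p.1 (n + 1) (fun k => clip (y k))) i ∈ u i} := by
        ext y; simp
      show IsOpen {y : ℕ → ℝ | ∀ i ∈ I, Sum.elim (fun k => y k) (fun p : ℕ × ℝ =>
          P (fun n => w n p) p.1 (n + 1) (fun k => clip (y k))) i ∈ u i}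
      rw [this]
      apply isOpen_biInter_finset
      rintro (k | p) hi
      · exact (hu _ hi).1.preimage (continuous_apply k)
      · have h1 := continuous_clip
        have h2 : Continuous (fun y : ℕ → ℝ => (fun k => clip (y k))) := by fun_prop
        exact (hu _ hi).1.preimage ((continuous_P _ _ _).comp h2)
  · obtain ⟨z, hz⟩ := exists_eta n (fun k => if k < n then eta x k else 2)
    have hrz : ∀ k, k < n → rho z k = rho x k := by
      intro k hk
      unfold rho
      rw [hz k hk.le, if_pos hk]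
    refine ⟨z, ?_, ?_⟩
    · rw [hz n le_rfl]
      norm_num
    · rintro (k | p) hi
      · have hk : k < n := (hK.1 k hi).trans_le hKn
        simp only [Sum.elim_inl]
        rw [hz k hk.le, if_pos hk]
        exact (hu _ hi).2
      · have hp : p.1 < n := (hK.2 p hi).trans_le hKn
        simp only [Sum.elim_inr]
        have h1 : (fun k => clip (eta z k)) = rho z := rfl
        rw [h1, P_succ _ _ _ hp.le]
        have h2 : P (fun n => w n p) p.1 n (rho z) = P (fun n => w n p) p.1 (max N K) (rho x) := by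
          rw [← P_stab (fun n => w n p) p.1 (max N K) n hn (rho x)
            (fun k hk => hrho k ((le_max_left _ _).trans hk))]
          unfold P
          apply Finset.sum_congr rfl
          intro j hj
          rw [Finset.mem_Ico] at hj
          rw [hrz j hj.2]
          congr 1
          apply Finset.prod_congr rfl
          intro k hk
          rw [Finset.mem_Ico] at hk
          rw [hrz k (by omega)]
        have h3 : rho z n = 1 := by
          unfold rho
          rw [hz n le_rfl]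
          apply clip_of_one_le
          norm_num
        have h4 : ∏ k ∈ Finset.Ico p.1 n, (1 - rho z k) = c p := by
          show _ = ∏ k ∈ Finset.Ico p.1 (max N K), (1 - rho x k)
          rw [← prod_stab p.1 (max N K) n hn (rho x)
            (fun k hk => hrho k ((le_max_left _ _).trans hk))]
          apply Finset.prod_congr rfl
          intro k hk
          rw [Finset.mem_Ico] at hk
          rw [hrz k (by omega)]
        rw [h2, h3, h4, mul_one]
        exact hwn p hi
  · rintro z ⟨hz1, hz2⟩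
    apply hIu
    rintro (k | p) hi
    · exact hz2 _ hi
    · have hp : p.1 < n := (hK.2 p hi).trans_le hKn
      have h1 := hz2 _ hi
      simp only [Sum.elim_inr] at h1
      have hzn : (n : ℝ) < |z 0| := by
        by_contra hcon
        rw [eta_zero z n (not_lt.1 hcon)] at hz1
        norm_num at hz1
      have hrn : rho z n = 1 := by
        unfold rho
        exact clip_of_one_le hz1.le
      have hp' : (p.1 : ℝ) < n := by exact_mod_cast hp
      show G (fun n => w n p) p.1 p.2 z ∈ u (Sum.inr p)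
      unfold G
      rw [clip_of_nonpos (by linarith), zero_mul, zero_add]
      rw [P_one (fun n => w n p) p.1 n ⌈|z 0|⌉₊ hp.le (by
        have : (n : ℝ) < ⌈|z 0|⌉₊ := hzn.trans_le (Nat.le_ceil _)
        have : n < ⌈|z 0|⌉₊ := by exact_mod_cast this
        omega) (rho z) hrn]
      exact h1

/-- The negation of the preceding statement: For every Tychonoff space X: if C_p(X) (continuous reals on X, pointwise topology) admits a continuous bijection onto a Tychonoff space with a countable π-base, then X is separable. -/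
theorem result :
    ¬ (∀ (X : Type) [TopologicalSpace X] [T35Space X],
      (∃ (Y : Type) (τ : TopologicalSpace Y), T35Space Y ∧
        ∃ g : C(X, ℝ) → Y, Function.Bijective g ∧
          @Continuous C(X, ℝ) Y
            (TopologicalSpace.induced (fun f : C(X, ℝ) => (⇑f : X → ℝ)) Pi.topologicalSpace)
            τ g ∧
          ∃ B : Set (Set Y), B.Countable ∧
            (∀ P ∈ B, IsOpen P ∧ P.Nonempty) ∧
            ∀ U : Set Y, IsOpen U → U.Nonempty → ∃ P ∈ B, P ⊆ U) →
      SeparableSpace X) := by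
  intro H
  have hT : T35Space X := inferInstance
  obtain ⟨w, hw⟩ := exists_dense
  have hsep : SeparableSpace X := by
    apply H X
    refine ⟨Set.range (e w), inferInstance, inferInstance,
      fun f => ⟨e w (fun s : ℝ => f s), Set.mem_range_self _⟩, ⟨?_, ?_⟩, ?_, ?_⟩
    · intro f g hfg
      have h1 := e_injective w (Subtype.ext_iff.1 hfg)
      ext s
      exact congrFun h1 s
    · rintro ⟨_, x, rfl⟩
      exact ⟨⟨x, continuous_of_discreteTopology⟩, rfl⟩
    · rw [continuous_induced_rng]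
      exact @Continuous.comp C(X, ℝ) (ℝ → ℝ) (ι → ℝ)
        (TopologicalSpace.induced (fun f : C(X, ℝ) => (⇑f : X → ℝ)) Pi.topologicalSpace) _ _
        (fun f : C(X, ℝ) => (⇑f : X → ℝ)) (e w) (continuous_e w) continuous_induced_dom
    · refine ⟨{S | ∃ O ∈ countableBasis (ℕ → ℝ), (∃ z, eta z ∈ O) ∧
        S = {y : Set.range (e w) | (fun k => y.1 (Sum.inl k)) ∈ O}}, ?_, ?_, ?_⟩
      · apply ((countable_countableBasis (ℕ → ℝ)).image (fun O =>
          {y : Set.range (e w) | (fun k => y.1 (Sum.inl k)) ∈ O})).mono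
        rintro S ⟨O, hO, _, rfl⟩
        exact ⟨O, hO, rfl⟩
      · rintro S ⟨O, hO, ⟨z, hz⟩, rfl⟩
        constructor
        · apply (isOpen_of_mem_countableBasis hO).preimage
          apply continuous_pi
          intro k
          exact (continuous_apply (Sum.inl k)).comp continuous_subtype_val
        · exact ⟨⟨e w z, Set.mem_range_self _⟩, hz⟩
      · rintro U hU ⟨⟨_, x, rfl⟩, hxU⟩
        obtain ⟨V, hV, rfl⟩ := isOpen_induced_iff.1 hU
        obtain ⟨O, hO, ⟨z, hz⟩, hOV⟩ := key w hw V hV x hxU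
        obtain ⟨O', hO', hzO', hO'O⟩ := (isBasis_countableBasis (ℕ → ℝ)).exists_subset_of_mem_open hz hO
        refine ⟨_, ⟨O', hO', ⟨z, hzO'⟩, rfl⟩, ?_⟩
        rintro ⟨_, z', rfl⟩ hz'
        exact hOV z' (hO'O hz')
  have hcount : Countable X := separableSpace_iff_countable.1 hsep
  exact not_countable (α := ℝ) hcount

end Pool.Agent.S08102
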