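import Pool.Statements.S08107
import Pool.Agent.Helper292.UF

set_option autoImplicit false
open Pool Pool.MP_1067ad_gt

namespace Pool.Agent.S08107

/-- For every singular cardinal α with α⁺ = 2^α, every uniform ultrafilter p on α lies in the boundary of each of 2^α pairwise disjoint open subsets of the space U(α) of uniform ultrafilters on α. -/
theorem result :
    ∀ (A : Type), Cardinal.aleph0 ≤ Cardinal.mk A → ¬ (Cardinal.mk A).IsRegular →
      Order.succ (Cardinal.mk A) = 2 ^ Cardinal.mk A →
      ∀ p : {u : Ultrafilter A // ∀ s : Set A, s ∈ u → Cardinal.mk s = Cardinal.mk A},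
        ∃ (ι : Type) (O : ι → Set {u : Ultrafilter A // ∀ s : Set A, s ∈ u → Cardinal.mk s = Cardinal.mk A}),
          Cardinal.mk ι = 2 ^ Cardinal.mk A ∧ (∀ i, IsOpen (O i)) ∧
            Pairwise (Function.onFun Disjoint O) ∧ ∀ i, p ∈ frontier (O i) := by
  intro A hA hs hsucc p
  exact Pool.Agent.Helper292.UF.result' A hA hs hsucc p

end Pool.Agent.S08107
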