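import Pool.Statements.S08111
import Pool.Agent.Helper535.AA

set_option autoImplicit false
open Pool Pool.MP_1117a1_gt

namespace Pool.Agent.S08111

/-- For compact Hausdorff X, Y: if the n-th iterated pointwise function spaces C_{p,n}(X) and C_{p,n}(Y) are homeomorphic, then C_p(X) is K-analytic (compact-valued usco cover from Baire space) iff C_p(Y) is. -/
theorem result :
    ∀ (X Y : Type) [TopologicalSpace X] [TopologicalSpace Y],
      CompactSpace X → T2Space X → CompactSpace Y → T2Space Y →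
      ∀ (n : ℕ) (A B : ℕ → Type) [∀ k, TopologicalSpace (A k)] [∀ k, TopologicalSpace (B k)],
        Nonempty (A 0 ≃ₜ X) →
        (∀ k, Nonempty (A (k + 1) ≃ₜ {f : A k → ℝ // Continuous f})) →
        Nonempty (B 0 ≃ₜ Y) →
        (∀ k, Nonempty (B (k + 1) ≃ₜ {f : B k → ℝ // Continuous f})) →
        Nonempty (A n ≃ₜ B n) →
        ((∃ F : (ℕ → ℕ) → Set {f : X → ℝ // Continuous f},
            (∀ s, IsCompact (F s)) ∧ (∀ z, ∃ s, z ∈ F s) ∧
            ∀ U : Set {f : X → ℝ // Continuous f}, IsOpen U → IsOpen {s | F s ⊆ U}) ↔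
         (∃ F : (ℕ → ℕ) → Set {f : Y → ℝ // Continuous f},
            (∀ s, IsCompact (F s)) ∧ (∀ z, ∃ s, z ∈ F s) ∧
            ∀ U : Set {f : Y → ℝ // Continuous f}, IsOpen U → IsOpen {s | F s ⊆ U})) := by
  intro X Y _ _ cX hX cY hY n A B _ _ hA0 hA hB0 hB hAB
  constructor
  · intro h
    exact Helper535.iter_main X Y n A B hA0 hA hB0 hB hAB h
  · intro h
    exact Helper535.iter_main Y X n B A hB0 hB hA0 hA (hAB.map fun e => e.symm) h

end Pool.Agent.S08111
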