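import Pool.Statements.S08125
import Pool.Agent.Helper734.PV.All
import Pool.Agent.Helper608.VF.J_a_flat
import Pool.Agent.Helper608.VF.J_k_core

set_option autoImplicit false
open Pool Pool.MP_13d336_gt

namespace Pool.Agent.S08125

/-- the core statement in flat coordinates -/
theorem core (m : ℕ) (hm : 2 ≤ m) : Pool.Agent.Helper734.PV.Core m := by
  obtain ⟨k, rfl⟩ : ∃ k, m = k + 1 := ⟨m - 1, by omega⟩
  exact Pool.Agent.Helper608.VF.core_of_flat k
    (fun v hv h1 e he => Pool.Agent.Helper608.VF.flat (by omega) v hv h1 e he)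

/-- For m ≥ 2, a smooth unit tangent field on S^{2m} minus p minimises the volume ∫√det(I+(∇V)*∇V) among all such fields iff it is a parallel transport field from −p. -/
theorem result :
    ∀ m : ℕ, 2 ≤ m → ∀ p : EuclideanSpace ℝ (Fin (2 * m + 1)), ‖p‖ = 1 →
    ∀ P : EuclideanSpace ℝ (Fin (2 * m + 1)) →
        (EuclideanSpace ℝ (Fin (2 * m + 1)) →L[ℝ] EuclideanSpace ℝ (Fin (2 * m + 1))),
      (∀ x : EuclideanSpace ℝ (Fin (2 * m + 1)),
        P x = ContinuousLinearMap.id ℝ (EuclideanSpace ℝ (Fin (2 * m + 1)))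
          - (innerSL ℝ x).smulRight x) →
    ∀ D : (EuclideanSpace ℝ (Fin (2 * m + 1)) → EuclideanSpace ℝ (Fin (2 * m + 1))) →
        EuclideanSpace ℝ (Fin (2 * m + 1)) →
        (EuclideanSpace ℝ (Fin (2 * m + 1)) →L[ℝ] EuclideanSpace ℝ (Fin (2 * m + 1))),
      (∀ W x, D W x = (P x).comp ((fderiv ℝ W x).comp (P x))) →
    ∀ vol : (EuclideanSpace ℝ (Fin (2 * m + 1)) → EuclideanSpace ℝ (Fin (2 * m + 1))) → ENNReal,
      (∀ W, vol W = MeasureTheory.lintegral
          (MeasureTheory.Measure.toSphere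
            (MeasureTheory.volume : MeasureTheory.Measure (EuclideanSpace ℝ (Fin (2 * m + 1)))))
          (fun x : Metric.sphere (0 : EuclideanSpace ℝ (Fin (2 * m + 1))) 1 =>
            ENNReal.ofReal (Real.sqrt (LinearMap.det
              (ContinuousLinearMap.id ℝ (EuclideanSpace ℝ (Fin (2 * m + 1)))
                + (ContinuousLinearMap.adjoint (D W x.1)).comp (D W x.1)).toLinearMap)))) →
    ∀ A : (EuclideanSpace ℝ (Fin (2 * m + 1)) → EuclideanSpace ℝ (Fin (2 * m + 1))) → Prop,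
      (∀ W, A W ↔
          ((∃ U : Set (EuclideanSpace ℝ (Fin (2 * m + 1))), IsOpen U ∧
              Metric.sphere (0 : EuclideanSpace ℝ (Fin (2 * m + 1))) 1 \ {p} ⊆ U ∧
              ContDiffOn ℝ ((⊤ : ℕ∞) : WithTop ℕ∞) W U) ∧
            ∀ x ∈ Metric.sphere (0 : EuclideanSpace ℝ (Fin (2 * m + 1))) 1 \ {p},
              ‖W x‖ = 1 ∧ inner ℝ (W x) x = 0)) →
    ∀ V : EuclideanSpace ℝ (Fin (2 * m + 1)) → EuclideanSpace ℝ (Fin (2 * m + 1)), A V →
      ((∀ W, A W → vol V ≤ vol W) ↔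
        ∃ v : EuclideanSpace ℝ (Fin (2 * m + 1)), ‖v‖ = 1 ∧ inner ℝ v p = 0 ∧
          ∀ x ∈ Metric.sphere (0 : EuclideanSpace ℝ (Fin (2 * m + 1))) 1 \ {p},
            V x = v - (inner ℝ v x / (1 - inner ℝ p x)) • (x - p)) := by
  intro m hm p hp P hP D hD vol hvol A hA V hV
  have hAdm : ∀ W, A W ↔ Pool.Agent.Helper734.PV.Adm p W := fun W => hA W
  have hDc : ∀ W x, D W x = Pool.Agent.Helper734.PV.Dc W x := by
    intro W x
    rw [hD, hP]
    rfl
  have hvolS : ∀ W, vol W = Pool.Agent.Helper734.PV.volS W := by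
    intro W
    rw [hvol]
    unfold Pool.Agent.Helper734.PV.volS Pool.Agent.Helper734.PV.gram
    simp only [hDc]
  have key := Pool.Agent.Helper734.PV.partA_gen hm (core m hm) p hp V ((hAdm V).1 hV)
  rw [← key]
  constructor
  · intro h W hW
    rw [← hvolS, ← hvolS]
    exact h W ((hAdm W).2 hW)
  · intro h W hW
    rw [hvolS, hvolS]
    exact h W ((hAdm W).1 hW)

end Pool.Agent.S08125
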