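import Pool.Statements.S08127
import Pool.Agent.Helper331.Klein9

set_option autoImplicit false
open Pool Pool.MP_13fe75_gt

namespace Pool.Agent.S08127

/-- There is a smooth immersion of the Klein bottle into 4-space that is not contained in any hyperplane and is tight, in the sense that the preimage of every open half-space is connected. -/
theorem result :
  ∃ F : ℝ × ℝ → EuclideanSpace ℝ (Fin 4),
    ContDiff ℝ (⊤ : ℕ∞) F ∧
    (∀ x y : ℝ, F (x + 1, -y) = F (x, y)) ∧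
    (∀ x y : ℝ, F (x, y + 1) = F (x, y)) ∧
    (∀ p : ℝ × ℝ, Function.Injective (fderiv ℝ F p)) ∧
    (∀ (v : EuclideanSpace ℝ (Fin 4)) (c : ℝ), v ≠ 0 → ∃ p : ℝ × ℝ, inner ℝ v (F p) ≠ c) ∧
    (∀ (v : EuclideanSpace ℝ (Fin 4)) (c : ℝ) (A B : Set (ℝ × ℝ)),
      IsOpen A → IsOpen B →
      (∀ x y : ℝ, ((x, y) ∈ A ↔ (x + 1, -y) ∈ A) ∧ ((x, y) ∈ A ↔ (x, y + 1) ∈ A)) →
      (∀ x y : ℝ, ((x, y) ∈ B ↔ (x + 1, -y) ∈ B) ∧ ((x, y) ∈ B ↔ (x, y + 1) ∈ B)) →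
      Disjoint A B →
      A ∪ B = {p : ℝ × ℝ | c < inner ℝ v (F p)} →
      A = ∅ ∨ B = ∅) := by
  exact Pool.Agent.Helper331.klein_main

end Pool.Agent.S08127
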