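import Pool.Statements.S08129
import Pool.Agent.Helper177.Ultra
import Pool.Agent.Helper177.Grp

set_option autoImplicit false
open Filter Topology
open Pool Pool.MP_14ad8d_gt

namespace Pool.Agent.S08129

open Pool.Agent.Helper177.Grp Cardinal in
/-- the product over all ultrafilters `p` of the groups attached to the indices good for `p` -/
abbrev Prod0 (Cc : ℝ → Set (FF × ℕ)) (q : II → Ultrafilter ℕ) : Type :=
  ∀ p : Ultrafilter ℕ, GS Cc q (bad q p)ᶜ

open Pool.Agent.Helper177.Grp Cardinal in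
theorem good_index (q : II → Ultrafilter ℕ) (J : Set (Ultrafilter ℕ)) (hJ : J.Countable) :
    ∃ z : II, ∀ p ∈ J, z ∉ bad q p := by
  by_contra hcon
  push Not at hcon
  have h1 : (⋃ p ∈ J, bad q p) = Set.univ := by
    ext z
    simpa using hcon z
  have h2 : #(⋃ p ∈ J, bad q p) ≤ 𝔠 := by
    have h3 : #(⋃ p : J, bad q p.1) ≤ 𝔠 := by
      refine (Cardinal.mk_iUnion_le _).trans ?_
      have h4 : ⨆ p : J, #(bad q p.1) ≤ 𝔠 := ciSup_le' fun p => card_bad q p.1
      have h5 : #J ≤ ℵ₀ := hJ.le_aleph0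
      calc #J * ⨆ p : J, #(bad q p.1) ≤ ℵ₀ * 𝔠 := mul_le_mul' h5 h4
        _ = 𝔠 := Cardinal.aleph0_mul_continuum
    rwa [Set.biUnion_eq_iUnion]
  rw [h1, Cardinal.mk_univ] at h2
  have h3 : #II = 2 ^ 𝔠 := by
    simp [II, Cardinal.mk_real]
  rw [h3] at h2
  exact absurd (Cardinal.cantor 𝔠) (not_lt.2 h2)

open Pool.Agent.Helper177.Grp in
theorem selective (Cc : ℝ → Set (FF × ℕ)) (q : II → Ultrafilter ℕ)
    (hfree : ∀ z, (q z : Filter ℕ) ≤ cofinite)
    (U : ℕ → Set (Prod0 Cc q)) (hU : ∀ n, IsOpen (U n) ∧ (U n).Nonempty) :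
    ∃ x : ℕ → Prod0 Cc q, (∀ n, x n ∈ U n) ∧ ∃ y, MapClusterPt y atTop x := by
  classical
  have h1 : ∀ n, ∃ (I : Finset (Ultrafilter ℕ)) (u : ∀ p : Ultrafilter ℕ, Set (GS Cc q (bad q p)ᶜ)),
      (∀ p, IsOpen (u p) ∧ (u p).Nonempty) ∧ (I : Set (Ultrafilter ℕ)).pi u ⊆ U n := by
    intro n
    obtain ⟨hU1, x, hx⟩ := hU n
    obtain ⟨I, u, hu, hsub⟩ := isOpen_pi_iff.1 hU1 x hx
    refine ⟨I, fun p => if p ∈ I then u p else Set.univ, ?_, ?_⟩
    · intro p
      by_cases hp : p ∈ I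
      · simp only [if_pos hp]
        exact ⟨(hu p hp).1, ⟨x p, (hu p hp).2⟩⟩
      · simp only [if_neg hp]
        exact ⟨isOpen_univ, ⟨0, trivial⟩⟩
    · intro y hy
      apply hsub
      intro p hp
      have := hy p hp
      simpa only [if_pos (Finset.mem_coe.1 hp)] using this
  choose I u hu hsub using h1
  let J : Set (Ultrafilter ℕ) := ⋃ n, (I n : Set (Ultrafilter ℕ))
  have hJ : J.Countable := Set.countable_iUnion fun n => (I n).finite_toSet.countable
  obtain ⟨z, hz⟩ := good_index q J hJ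
  have h2 : ∀ p : Ultrafilter ℕ, ∃ x : ℕ → GS Cc q (bad q p)ᶜ,
      (p ∈ J → ∀ n, x n ∈ u n p) ∧ ∃ y, Tendsto x (q z : Filter ℕ) (𝓝 y) := by
    intro p
    by_cases hp : p ∈ J
    · obtain ⟨x, hx, y, hy⟩ := strong Cc q (bad q p)ᶜ z (hz p hp) (fun n => u n p)
        (fun n => hu n p)
      exact ⟨x, fun _ => hx, y, hy⟩
    · exact ⟨fun _ => 0, fun h => absurd h hp, 0, tendsto_const_nhds⟩
  choose x hx y hy using h2
  refine ⟨fun n p => x p n, ?_, fun p => y p, ?_⟩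
  · intro n
    apply hsub n
    intro p hp
    exact hx p (Set.mem_iUnion.2 ⟨n, hp⟩) n
  · have h3 : Tendsto (fun n => (fun p => x p n : Prod0 Cc q)) (q z : Filter ℕ)
        (𝓝 (fun p => y p)) := by
      rw [tendsto_pi_nhds]
      intro p
      exact hy p
    have h4 : (q z : Filter ℕ) ≤ atTop := by
      rw [← Nat.cofinite_eq_atTop]; exact hfree z
    exact h3.mapClusterPt.mono h4

open Pool.Agent.Helper177.Grp in
theorem notstrong_prod (Cc : ℝ → Set (FF × ℕ)) (q : II → Ultrafilter ℕ)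
    (hq : Sep q) (hC : Rich Cc) (p : Ultrafilter ℕ) (hp : (p : Filter ℕ) ≤ cofinite) :
    ∃ U : ℕ → Set (Prod0 Cc q), (∀ n, IsOpen (U n) ∧ (U n).Nonempty) ∧
      ∀ x : ℕ → Prod0 Cc q, (∀ n, x n ∈ U n) → ∀ y, ¬ Tendsto x (p : Filter ℕ) (𝓝 y) := by
  classical
  obtain ⟨V, hV, hno⟩ := notstrong Cc q hq hC p hp (bad q p)ᶜ (fun z hz => hz)
  refine ⟨fun n => (fun x : Prod0 Cc q => x p) ⁻¹' V n, ?_, ?_⟩
  · intro n
    refine ⟨(hV n).1.preimage (continuous_apply p), ?_⟩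
    obtain ⟨v, hv⟩ := (hV n).2
    refine ⟨Function.update 0 p v, ?_⟩
    simpa using hv
  · intro x hx y hy
    apply hno (fun n => x n p) hx (y p)
    exact (tendsto_pi_nhds.1 hy) p

/-- There is an abelian Hausdorff topological group in which any choice of points from a sequence of nonempty open sets can be made to have an accumulation point, yet for each free ultrafilter p some sequence of open sets admits no choice with a p-limit. -/
theorem result :
    ∃ (G : Type) (_ : CommGroup G) (_ : TopologicalSpace G),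
      IsTopologicalGroup G ∧ T2Space G ∧
      (∀ U : ℕ → Set G, (∀ n, IsOpen (U n) ∧ (U n).Nonempty) →
        ∃ x : ℕ → G, (∀ n, x n ∈ U n) ∧ ∃ y : G, MapClusterPt y atTop x) ∧
      (∀ p : Ultrafilter ℕ, (p : Filter ℕ) ≤ cofinite →
        ∃ U : ℕ → Set G, (∀ n, IsOpen (U n) ∧ (U n).Nonempty) ∧
          ∀ x : ℕ → G, (∀ n, x n ∈ U n) →
            ∀ y : G, ¬ Tendsto x (p : Filter ℕ) (𝓝 y)) := by
  obtain ⟨q, hfree, hsep⟩ := Pool.Agent.Helper177.Ultra.exists_ultrafilters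
  obtain ⟨Cc, hC⟩ := Pool.Agent.Helper177.Grp.exists_rich
  refine ⟨Multiplicative (Prod0 Cc q), inferInstance, inferInstance, inferInstance, ?_, ?_, ?_⟩
  · exact inferInstanceAs (T2Space (Prod0 Cc q))
  · exact selective Cc q hfree
  · exact notstrong_prod Cc q hsep hC

end Pool.Agent.S08129
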