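import Pool.Statements.S08142
import Pool.Agent.Helper800.KL

set_option autoImplicit false
open Pool Pool.MP_16af68_gt

namespace Pool.Agent.S08142

/-- The negation of the preceding statement: For every Keimel–Lawson category K and every family of T0 spaces with K-reflections ηᵢ, the product of the ηᵢ is a K-reflection of the product space, so the K-reflection preserves arbitrary products. -/
theorem result :
    ¬ (∀ (K : (X : Type) → [TopologicalSpace X] → Prop),
    (∀ (X : Type) [TopologicalSpace X], K X → T0Space X) →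
    (∀ (X : Type) [TopologicalSpace X] [T0Space X] [QuasiSober X], K X) →
    (∀ (X Y : Type) [TopologicalSpace X] [TopologicalSpace Y],
        Nonempty (X ≃ₜ Y) → K X → K Y) →
    (∀ (Y : Type) [TopologicalSpace Y] [T0Space Y] [QuasiSober Y] (S : Set (Set Y)),
        (∀ A ∈ S, K ↥A) → K ↥(⋂₀ S)) →
    (∀ (X Y : Type) [TopologicalSpace X] [TopologicalSpace Y] [T0Space X] [QuasiSober X]
        [T0Space Y] [QuasiSober Y] (f : X → Y), Continuous f →
        ∀ B : Set Y, K ↥B → K ↥(f ⁻¹' B)) →
    ∀ (I : Type) (X R : I → Type) [∀ i, TopologicalSpace (X i)] [∀ i, T0Space (X i)]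
      [∀ i, TopologicalSpace (R i)] (η : ∀ i, X i → R i),
      (∀ i, Continuous (η i) ∧ K (R i) ∧
        ∀ (Z : Type) [TopologicalSpace Z], K Z → ∀ g : X i → Z, Continuous g →
          ∃! h : R i → Z, Continuous h ∧ h ∘ η i = g) →
      (Continuous (fun (x : ∀ i, X i) (i : I) => η i (x i)) ∧ K (∀ i, R i) ∧
        ∀ (Z : Type) [TopologicalSpace Z], K Z → ∀ g : (∀ i, X i) → Z, Continuous g →
          ∃! h : (∀ i, R i) → Z, Continuous h ∧
            (h ∘ fun (x : ∀ i, X i) (i : I) => η i (x i)) = g)) := by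
  intro H
  obtain ⟨-, -, hU⟩ := H (fun X _ => Helper800.KL.K X)
    (fun X _ h => h.1)
    (fun X _ _ _ => Helper800.KL.K_sober X)
    (fun X Y _ _ h => fun hX => Helper800.KL.K_homeo X Y h.some hX)
    (fun Y _ _ _ S hS => Helper800.KL.K_inter Y S hS)
    (fun X Y _ _ _ _ _ _ f hf B hB => Helper800.KL.K_preimage X Y f hf B hB)
    ℕ Helper800.KL.A Helper800.KL.R (fun _ => Helper800.KL.inc)
    (fun n => ⟨Helper800.KL.continuous_inc n, Helper800.KL.K_R n,
      fun Z _ hZ g hg => Helper800.KL.refl_inc n Z hZ g hg⟩)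
  obtain ⟨h, ⟨hh, he⟩, -⟩ := hU Helper800.KL.Z Helper800.KL.K_Z Helper800.KL.gZ
    Helper800.KL.continuous_gZ
  exact Helper800.KL.no_ext h hh he

end Pool.Agent.S08142
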