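import Pool.Statements.S08152
import Mathlib

set_option autoImplicit false
open Pool Pool.MP_182cc9_gt

namespace Pool.Agent.S08152

open Topology Filter

/-- An uncountable index set with the discrete topology. -/
def Dsc : Type := ℝ × ℝ

instance : TopologicalSpace Dsc := ⊥
instance : DiscreteTopology Dsc := ⟨rfl⟩

/-- the point of the discrete set with coordinates `x`, `r` -/
def dsc (x r : ℝ) : Dsc := (x, r)

lemma dsc_inj {x r x' r' : ℝ} (h : dsc x r = dsc x' r') : x = x' ∧ r = r' :=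
  ⟨congrArg Prod.fst h, congrArg Prod.snd h⟩

/-- The compact Hausdorff space. -/
abbrev XX : Type := (Set.Icc (0:ℝ) 1) × OnePoint Dsc × OnePoint ℕ

/-- The point `k/(n+1)` of the unit interval (clamped). -/
noncomputable def pt (n k : ℕ) : Set.Icc (0:ℝ) 1 :=
  Set.projIcc (0:ℝ) 1 zero_le_one ((k:ℝ) / (n+1))

/-- first part of the discrete set -/
def ZA : Set XX := {p | ∃ n k : ℕ, k ≤ n + 1 ∧ p = (pt n k, OnePoint.infty, ((n : ℕ) : OnePoint ℕ))}

/-- second part of the discrete set -/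
def ZB : Set XX := {p | ∃ (x : ℝ) (r : Set.Icc (0:ℝ) 1),
  p = (r, OnePoint.some (dsc x (r:ℝ)), OnePoint.infty)}

def ZZ : Set XX := ZA ∪ ZB

/-- relative dimension predicate -/
def Dm (X : Type) [TopologicalSpace X] : ℕ → Set X → Set X → Prop
  | 0 => fun Y A => A ∩ Y = ∅
  | (k+1) => fun Y A =>
        (A ∩ Y = ∅ ∨
          ∀ F G : Set X, (∃ C : Set X, IsClosed C ∧ F = Y ∩ C) →
            (∃ C : Set X, IsClosed C ∧ G = Y ∩ C) → Disjoint F G →
            ∃ S U V : Set X, S ⊆ Y ∧ (∃ C : Set X, IsClosed C ∧ S = Y ∩ C) ∧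
              (∃ O : Set X, IsOpen O ∧ U = Y ∩ O) ∧
              (∃ O : Set X, IsOpen O ∧ V = Y ∩ O) ∧
              Disjoint U V ∧ Y \ S = U ∪ V ∧ F ⊆ U ∧ G ⊆ V ∧
              Dm X k S (A ∩ S))

lemma pt_val (n k : ℕ) (h : k ≤ n + 1) : ((pt n k : Set.Icc (0:ℝ) 1) : ℝ) = (k:ℝ)/(n+1) := by
  unfold pt
  rw [Set.projIcc_of_mem]
  constructor
  · positivity
  · rw [div_le_one (by positivity)]
    exact_mod_cast h

lemma isOpen_fiberN (n : ℕ) : IsOpen ({p : XX | p.2.2 = ((n:ℕ) : OnePoint ℕ)}) := by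
  have h1 : IsOpen ({((n:ℕ) : OnePoint ℕ)} : Set (OnePoint ℕ)) := by
    have := (OnePoint.isOpenEmbedding_coe (X := ℕ)).isOpenMap {n} (isOpen_discrete _)
    simpa using this
  exact h1.preimage (continuous_snd.comp continuous_snd)

lemma isOpen_fiberD (d : Dsc) : IsOpen ({p : XX | p.2.1 = ((d:Dsc) : OnePoint Dsc)}) := by
  have h1 : IsOpen ({((d:Dsc) : OnePoint Dsc)} : Set (OnePoint Dsc)) := by
    have := (OnePoint.isOpenEmbedding_coe (X := Dsc)).isOpenMap {d} (isOpen_discrete _)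
    simpa using this
  exact h1.preimage (continuous_fst.comp continuous_snd)

/-- every point of `ZZ` is isolated in `ZZ` -/
lemma ZZ_isolated (z : XX) (hz : z ∈ ZZ) : ∃ O : Set XX, IsOpen O ∧ ZZ ∩ O = {z} := by
  rcases hz with hz | hz
  · obtain ⟨n, k, hk, rfl⟩ := hz
    -- the finite set of the other points in this fibre
    let E : Set XX := (fun j : ℕ => ((pt n j, OnePoint.infty, ((n : ℕ) : OnePoint ℕ)) : XX)) ''
      ({j | j ≤ n + 1 ∧ pt n j ≠ pt n k})
    have hEfin : E.Finite := by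
      apply Set.Finite.image
      apply (Set.finite_le_nat (n+1)).subset
      intro j hj
      exact hj.1
    refine ⟨{p : XX | p.2.2 = ((n:ℕ) : OnePoint ℕ)} \ E,
      (isOpen_fiberN n).sdiff hEfin.isClosed, ?_⟩
    ext p
    constructor
    · rintro ⟨hpZ, hp2, hpE⟩
      rcases hpZ with hpZ | hpZ
      · obtain ⟨m, j, hj, rfl⟩ := hpZ
        have hmn : m = n := by
          simpa using hp2
        subst hmn
        by_contra hne
        apply hpE
        refine ⟨j, ⟨hj, ?_⟩, rfl⟩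
        intro heq
        apply hne
        simp [heq]
      · obtain ⟨x, r, rfl⟩ := hpZ
        simp at hp2
    · intro hp
      rw [Set.mem_singleton_iff] at hp
      subst hp
      refine ⟨Or.inl ⟨n, k, hk, rfl⟩, rfl, ?_⟩
      rintro ⟨j, ⟨_, hne⟩, hj⟩
      apply hne
      exact congrArg Prod.fst hj
  · obtain ⟨x, r, rfl⟩ := hz
    refine ⟨_, isOpen_fiberD (dsc x (r:ℝ)), ?_⟩
    ext p
    constructor
    · rintro ⟨hpZ, hp2⟩
      rcases hpZ with hpZ | hpZ
      · obtain ⟨m, j, hj, rfl⟩ := hpZ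
        have hp3 : OnePoint.infty = OnePoint.some (dsc x (r:ℝ)) := hp2
        exact absurd hp3 (OnePoint.infty_ne_coe _)
      · obtain ⟨x', r', rfl⟩ := hpZ
        have hp3 : OnePoint.some (dsc x' (r':ℝ)) = OnePoint.some (dsc x (r:ℝ)) := hp2
        rw [OnePoint.coe_eq_coe] at hp3
        have h1 : x' = x := (dsc_inj hp3).1
        have h2 : (r':ℝ) = r := (dsc_inj hp3).2
        have h3 : r' = r := Subtype.ext h2
        subst h1
        subst h3
        rfl
    · intro hp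
      rw [Set.mem_singleton_iff] at hp
      subst hp
      exact ⟨Or.inr ⟨x, r, rfl⟩, rfl⟩

/-- every subset of `ZZ` is relatively open -/
lemma ZZ_relopen (W : Set XX) (hW : W ⊆ ZZ) : ∃ O : Set XX, IsOpen O ∧ W = ZZ ∩ O := by
  choose! f hf1 hf2 using ZZ_isolated
  refine ⟨⋃ z ∈ W, f z, isOpen_biUnion (fun z hz => hf1 z (hW hz)), ?_⟩
  ext p
  constructor
  · intro hp
    refine ⟨hW hp, ?_⟩
    have : p ∈ ZZ ∩ f p := by rw [hf2 p (hW hp)]; rfl
    exact Set.mem_biUnion hp this.2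
  · rintro ⟨hp, hp2⟩
    rw [Set.mem_iUnion₂] at hp2
    obtain ⟨z, hz, hpz⟩ := hp2
    have : p ∈ ZZ ∩ f z := ⟨hp, hpz⟩
    rw [hf2 z (hW hz)] at this
    rw [Set.mem_singleton_iff] at this
    rw [this]
    exact hz

lemma Dm_ZZ : Dm XX 1 ZZ ZZ := by
  right
  intro F G hF hG hFG
  obtain ⟨C, hC, rfl⟩ := hF
  obtain ⟨C', hC', rfl⟩ := hG
  refine ⟨∅, ZZ ∩ C, ZZ \ C, Set.empty_subset _, ⟨∅, isClosed_empty, by simp⟩,
    ZZ_relopen _ Set.inter_subset_left, ZZ_relopen _ Set.sdiff_subset, ?_, ?_, le_refl _, ?_, ?_⟩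
  · rw [Set.disjoint_left]
    rintro p ⟨_, hp⟩ ⟨_, hp'⟩
    exact hp' hp
  · simp [Set.inter_union_sdiff]
  · intro p hp
    refine ⟨hp.1, fun hpC => ?_⟩
    exact Set.disjoint_left.1 hFG ⟨hp.1, hpC⟩ hp
  · show (ZZ ∩ ∅) ∩ ∅ = ∅
    simp

/-- slices through infinity of an open set are cofinite -/
lemma cofinite_slice (O : Set XX) (hO : IsOpen O) (t : Set.Icc (0:ℝ) 1) (m : OnePoint ℕ)
    (h : ((t, OnePoint.infty, m) : XX) ∈ O) :
    {d : Dsc | ((t, (d : OnePoint Dsc), m) : XX) ∉ O}.Finite := by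
  have hcont : Continuous (fun q : OnePoint Dsc => ((t, q, m) : XX)) := by fun_prop
  have hopen : IsOpen ((fun q : OnePoint Dsc => ((t, q, m) : XX)) ⁻¹' O) := hO.preimage hcont
  have := (OnePoint.isOpen_iff_of_mem (s := (fun q : OnePoint Dsc => ((t, q, m) : XX)) ⁻¹' O) h).1 hopen
  have hc := this.2
  have := hc.finite_of_discrete
  refine this.subset ?_
  intro d hd
  exact hd

theorem key (U V : Set XX) (hU : IsOpen U) (hV : IsOpen V) (hUV : Disjoint U V)
    (hF : ∀ p : XX, (p.1 : ℝ) = 0 → p ∈ U) (hG : ∀ p : XX, (p.1 : ℝ) = 1 → p ∈ V)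
    (hZ : ZZ ⊆ U ∪ V) : False := by
  -- the jump
  have hjump : ∀ n : ℕ, ∃ k : ℕ, k ≤ n ∧
      ((pt n k, OnePoint.infty, ((n : ℕ) : OnePoint ℕ)) : XX) ∈ U ∧
      ((pt n (k+1), OnePoint.infty, ((n : ℕ) : OnePoint ℕ)) : XX) ∈ V := by
    intro n
    by_contra hcon
    push Not at hcon
    have hall : ∀ k : ℕ, k ≤ n + 1 →
        ((pt n k, OnePoint.infty, ((n : ℕ) : OnePoint ℕ)) : XX) ∈ U := by
      intro k
      induction k with
      | zero =>
        intro _
        apply hF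
        show ((pt n 0 : Set.Icc (0:ℝ) 1) : ℝ) = 0
        rw [pt_val n 0 (Nat.zero_le _)]
        simp
      | succ k ih =>
        intro hk
        have h1 := ih (by omega)
        have h2 := hcon k (by omega) h1
        have h3 : ((pt n (k+1), OnePoint.infty, ((n : ℕ) : OnePoint ℕ)) : XX) ∈ ZZ :=
          Or.inl ⟨n, k+1, hk, rfl⟩
        rcases hZ h3 with h | h
        · exact h
        · exact absurd h h2
    have h1 := hall (n+1) (le_refl _)
    have h2 : ((pt n (n+1), OnePoint.infty, ((n : ℕ) : OnePoint ℕ)) : XX) ∈ V := by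
      apply hG
      show ((pt n (n+1) : Set.Icc (0:ℝ) 1) : ℝ) = 1
      rw [pt_val n (n+1) (le_refl _)]
      push_cast
      exact div_self (by positivity)
    exact Set.disjoint_left.1 hUV h1 h2
  choose k hkn hkU hkV using hjump
  -- the countable exceptional set
  let E : Set Dsc := ⋃ n : ℕ,
    ({d : Dsc | ((pt n (k n), (d : OnePoint Dsc), ((n : ℕ) : OnePoint ℕ)) : XX) ∉ U} ∪
     {d : Dsc | ((pt n (k n + 1), (d : OnePoint Dsc), ((n : ℕ) : OnePoint ℕ)) : XX) ∉ V})
  have hE : E.Countable := by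
    apply Set.countable_iUnion
    intro n
    exact ((cofinite_slice U hU _ _ (hkU n)).union (cofinite_slice V hV _ _ (hkV n))).countable
  have hEU : ∀ d : Dsc, d ∉ E → ∀ n,
      ((pt n (k n), (d : OnePoint Dsc), ((n : ℕ) : OnePoint ℕ)) : XX) ∈ U := by
    intro d hd n
    by_contra h
    exact hd (Set.mem_iUnion.2 ⟨n, Or.inl h⟩)
  have hEV : ∀ d : Dsc, d ∉ E → ∀ n,
      ((pt n (k n + 1), (d : OnePoint Dsc), ((n : ℕ) : OnePoint ℕ)) : XX) ∈ V := by
    intro d hd n
    by_contra h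
    exact hd (Set.mem_iUnion.2 ⟨n, Or.inr h⟩)
  -- cluster point
  obtain ⟨r, hr⟩ : ∃ r : Set.Icc (0:ℝ) 1, MapClusterPt r atTop (fun n => pt n (k n)) := by
    exact exists_clusterPt_of_compactSpace _
  -- choose x
  obtain ⟨x, hx⟩ : ∃ x : ℝ, dsc x (r:ℝ) ∉ E := by
    by_contra hcon
    push Not at hcon
    have h1 : (Set.univ : Set ℝ).Countable := by
      have hinj : Function.Injective (fun x : ℝ => dsc x (r:ℝ)) := by
        intro a b hab
        exact (dsc_inj hab).1
      have := hE.preimage hinj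
      refine this.mono ?_
      intro x _
      exact hcon x
    exact Set.not_countable_univ h1
  set d : Dsc := dsc x (r:ℝ) with hd
  have hmem : ((r, (d : OnePoint Dsc), OnePoint.infty) : XX) ∈ ZZ := Or.inr ⟨x, r, rfl⟩
  -- general statement about neighbourhoods
  have hnbhd : ∀ O : Set XX, IsOpen O → ((r, (d : OnePoint Dsc), OnePoint.infty) : XX) ∈ O →
      ∃ n : ℕ, ((pt n (k n), (d : OnePoint Dsc), ((n : ℕ) : OnePoint ℕ)) : XX) ∈ O ∧
        ((pt n (k n + 1), (d : OnePoint Dsc), ((n : ℕ) : OnePoint ℕ)) : XX) ∈ O := by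
    intro O hO hrO
    have hcont : Continuous (fun q : Set.Icc (0:ℝ) 1 × OnePoint ℕ =>
        ((q.1, (d : OnePoint Dsc), q.2) : XX)) := by fun_prop
    have hopen := hO.preimage hcont
    have hmem' : ((r, OnePoint.infty) : Set.Icc (0:ℝ) 1 × OnePoint ℕ) ∈
      ((fun q : Set.Icc (0:ℝ) 1 × OnePoint ℕ => ((q.1, (d : OnePoint Dsc), q.2) : XX)) ⁻¹' O) := hrO
    have hn := hopen.mem_nhds hmem'
    rw [nhds_prod_eq, Filter.mem_prod_iff] at hn
    obtain ⟨A, hA, B, hB, hAB⟩ := hn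
    obtain ⟨ε, hε, hball⟩ := Metric.mem_nhds_iff.1 hA
    -- B contains all large n
    have hB' : ∀ᶠ n : ℕ in atTop, ((n : ℕ) : OnePoint ℕ) ∈ B := by
      have ht : Tendsto ((↑) : ℕ → OnePoint ℕ) (Filter.coclosedCompact ℕ) (𝓝 OnePoint.infty) :=
        OnePoint.tendsto_coe_infty
      rw [Filter.coclosedCompact_eq_cocompact, Filter.cocompact_eq_cofinite, Nat.cofinite_eq_atTop] at ht
      exact ht hB
    have hsmall : ∀ᶠ n : ℕ in atTop, 1 / ((n:ℝ)+1) < ε/2 := by
      have := tendsto_one_div_add_atTop_nhds_zero_nat (𝕜 := ℝ)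
      exact this.eventually_lt_const (by linarith)
    have hfreq : ∃ᶠ n in atTop, dist (pt n (k n)) r < ε/2 := by
      have := hr.frequently (Metric.ball_mem_nhds r (half_pos hε))
      exact this
    obtain ⟨n, hn1, hn2, hn3⟩ := (hfreq.and_eventually (hB'.and hsmall)).exists
    refine ⟨n, ?_, ?_⟩
    · have : ((pt n (k n), ((n:ℕ) : OnePoint ℕ)) : Set.Icc (0:ℝ) 1 × OnePoint ℕ) ∈ A ×ˢ B := by
        refine ⟨hball ?_, hn2⟩
        rw [Metric.mem_ball]
        linarith
      exact hAB this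
    · have : ((pt n (k n + 1), ((n:ℕ) : OnePoint ℕ)) : Set.Icc (0:ℝ) 1 × OnePoint ℕ) ∈ A ×ˢ B := by
        refine ⟨hball ?_, hn2⟩
        rw [Metric.mem_ball]
        have h1 : dist (pt n (k n + 1)) (pt n (k n)) = 1 / ((n:ℝ)+1) := by
          rw [Subtype.dist_eq, pt_val n (k n + 1) (by have := hkn n; omega),
            pt_val n (k n) (by have := hkn n; omega), Real.dist_eq]
          push_cast
          rw [← sub_div]
          have : ((k n : ℝ) + 1 - k n) = 1 := by ring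
          rw [this, abs_of_pos]
          positivity
        have h2 := dist_triangle (pt n (k n + 1)) (pt n (k n)) r
        linarith
      exact hAB this
  rcases hZ hmem with h | h
  · obtain ⟨n, _, h2⟩ := hnbhd U hU h
    exact Set.disjoint_left.1 hUV h2 (hEV d hx n)
  · obtain ⟨n, h1, _⟩ := hnbhd V hV h
    exact Set.disjoint_left.1 hUV (hEU d hx n) h1

/-- The negation of the preceding statement: In every T1 normal space X, for every subset Z and every n ≥ −1: if the large inductive dimension of Z as a space is at most n, then the relative large inductive dimension of Z in X is at most n. -/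
theorem result :
    ¬ (∀ (X : Type) [TopologicalSpace X] [T4Space X] (Z : Set X) (n : ℕ)
      (D : ℕ → Set X → Set X → Prop),
      (∀ Y A : Set X, D 0 Y A ↔ A ∩ Y = ∅) →
      (∀ (k : ℕ) (Y A : Set X), D (k + 1) Y A ↔
        (A ∩ Y = ∅ ∨
          ∀ F G : Set X, (∃ C : Set X, IsClosed C ∧ F = Y ∩ C) →
            (∃ C : Set X, IsClosed C ∧ G = Y ∩ C) → Disjoint F G →
            ∃ S U V : Set X, S ⊆ Y ∧ (∃ C : Set X, IsClosed C ∧ S = Y ∩ C) ∧
              (∃ O : Set X, IsOpen O ∧ U = Y ∩ O) ∧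
              (∃ O : Set X, IsOpen O ∧ V = Y ∩ O) ∧
              Disjoint U V ∧ Y \ S = U ∪ V ∧ F ⊆ U ∧ G ⊆ V ∧
              D k S (A ∩ S))) →
      D n Z Z → D n Set.univ Z) := by
  intro H
  have h1 := H XX ZZ 1 (Dm XX) (fun _ _ => Iff.rfl) (fun _ _ _ => Iff.rfl) Dm_ZZ
  rcases h1 with h1 | h1
  · have : ((⟨0, by simp⟩, OnePoint.some (dsc 0 0), OnePoint.infty) : XX) ∈ ZZ ∩ Set.univ :=
      ⟨Or.inr ⟨0, ⟨0, by simp⟩, rfl⟩, Set.mem_univ _⟩
    rw [h1] at this
    exact this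
  · obtain ⟨S, U, V, hSY, ⟨C, hC, hSC⟩, ⟨O, hO, hUO⟩, ⟨O', hO', hVO'⟩, hUV, hSUV, hFU, hGV, hD⟩ :=
      h1 {p : XX | (p.1 : ℝ) = 0} {p : XX | (p.1 : ℝ) = 1}
        ⟨{p : XX | (p.1 : ℝ) = 0},
          isClosed_eq (continuous_subtype_val.comp continuous_fst) continuous_const,
          by rw [Set.univ_inter]⟩
        ⟨{p : XX | (p.1 : ℝ) = 1},
          isClosed_eq (continuous_subtype_val.comp continuous_fst) continuous_const,
          by rw [Set.univ_inter]⟩
        (by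
          rw [Set.disjoint_left]
          intro p hp hp'
          have h0 : (p.1 : ℝ) = 0 := hp
          have h1 : (p.1 : ℝ) = 1 := hp'
          rw [h0] at h1
          exact zero_ne_one h1)
    rw [Set.univ_inter] at hUO hVO'
    subst hUO
    subst hVO'
    refine key U V hO hO' hUV (fun p hp => hFU hp) (fun p hp => hGV hp) ?_
    have hD' : (ZZ ∩ S) ∩ S = ∅ := hD
    intro p hp
    rw [← hSUV]
    refine ⟨Set.mem_univ _, fun hpS => ?_⟩
    have : p ∈ (ZZ ∩ S) ∩ S := ⟨⟨hp, hpS⟩, hpS⟩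
    rw [hD'] at this
    exact this

end Pool.Agent.S08152
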