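-- Proof of the frozen statement S08154 (negation for MP_189718_gt).
import Pool.Statements.S08154

set_option autoImplicit false
open Pool Pool.MP_189718_gt

namespace Pool.Agent.S08154

open Set Filter Topology

/-- a tower of sets with rapidly growing cardinalities -/
def A : ℕ → Type
  | 0 => ℕ
  | (n + 1) => Set (Set (A n))

/-- the disjoint sum of the Stone-Cech compactifications of the discrete sets `A n` -/
abbrev X : Type := Σ n : ℕ, Ultrafilter (A n)

lemma aleph0_le (n : ℕ) : Cardinal.aleph0 ≤ Cardinal.mk (A n) := by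
  induction n with
  | zero => exact (Cardinal.mk_nat).symm.le
  | succ n ih =>
    refine ih.trans ?_
    have h1 : Cardinal.mk (A n) < Cardinal.mk (Set (A n)) := by
      rw [Cardinal.mk_set]
      exact Cardinal.cantor _
    have h2 : Cardinal.mk (Set (A n)) < Cardinal.mk (Set (Set (A n))) := by
      rw [Cardinal.mk_set (α := Set (A n))]
      exact Cardinal.cantor _
    exact (h1.trans h2).le

lemma lt_succ (n : ℕ) : Cardinal.mk (A n) < Cardinal.mk (A (n + 1)) := by
  have h1 : Cardinal.mk (A n) < Cardinal.mk (Set (A n)) := by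
    rw [Cardinal.mk_set]
    exact Cardinal.cantor _
  have h2 : Cardinal.mk (Set (A n)) < Cardinal.mk (Set (Set (A n))) := by
    rw [Cardinal.mk_set (α := Set (A n))]
    exact Cardinal.cantor _
  exact h1.trans h2

lemma mono {m n : ℕ} (h : m ≤ n) : Cardinal.mk (A m) ≤ Cardinal.mk (A n) := by
  induction n, h using Nat.le_induction with
  | base => exact le_rfl
  | succ n _ ih => exact ih.trans (lt_succ n).le

lemma mk_ultra (n : ℕ) : Cardinal.mk (Ultrafilter (A n)) ≤ Cardinal.mk (A (n + 1)) := by
  have : Function.Injective (fun (p : Ultrafilter (A n)) => ({s | s ∈ p} : Set (Set (A n)))) := by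
    intro p q hpq
    ext s
    exact (Set.ext_iff.mp hpq s)
  exact Cardinal.mk_le_of_injective this

instance : WeaklyLocallyCompactSpace X where
  exists_compact_mem_nhds := by
    rintro ⟨n, p⟩
    refine ⟨range (Sigma.mk n), isCompact_range continuous_sigmaMk, ?_⟩
    exact isOpenMap_sigmaMk.isOpen_range.mem_nhds ⟨p, rfl⟩

/-- the compact space -/
abbrev K : Type := OnePoint X

lemma isCompact_levels (N : ℕ) : IsCompact {x : X | x.1 ≤ N} := by
  have : {x : X | x.1 ≤ N} = ⋃ n ∈ Set.Iic N, range (Sigma.mk n) := by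
    ext ⟨n, p⟩
    simp only [mem_setOf_eq, mem_iUnion, mem_range, Set.mem_Iic]
    constructor
    · intro h
      exact ⟨n, h, p, rfl⟩
    · rintro ⟨m, hm, q, hq⟩
      have : m = n := congrArg Sigma.fst hq
      rw [← this]
      exact hm
  rw [this]
  exact (Set.finite_Iic N).isCompact_biUnion (fun n _ => isCompact_range continuous_sigmaMk)

lemma continuous_fst' : Continuous (fun x : X => x.1) := by
  rw [continuous_sigma_iff]
  intro n
  exact continuous_const

lemma isClosed_levels (N : ℕ) : IsClosed {x : X | x.1 ≤ N} :=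
  (isClosed_discrete (Set.Iic N)).preimage continuous_fst'

lemma compact_levels {C : Set X} (hC : IsCompact C) : ∃ N, ∀ x ∈ C, x.1 ≤ N := by
  have h := (hC.image continuous_fst').bddAbove
  obtain ⟨N, hN⟩ := h
  exact ⟨N, fun x hx => hN ⟨x, hx, rfl⟩⟩

/-- the index set -/
abbrev I : Type := Σ n : ℕ, A n

lemma le_mk_I (n : ℕ) : Cardinal.mk (A n) ≤ Cardinal.mk I :=
  Cardinal.mk_le_of_injective (f := fun a : A n => (⟨n, a⟩ : I)) (by
    intro a b hab
    simpa using hab)

/-- the map onto the cube -/
noncomputable def phi (f : {f : K → ℝ // Continuous f}) (i : I) : unitInterval :=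
  Set.projIcc 0 1 zero_le_one
    (((i.1 : ℝ) + 1) * (f.1 ((⟨i.1, (pure i.2 : Ultrafilter (A i.1))⟩ : X) : K) -
      f.1 OnePoint.infty))

lemma continuous_phi : Continuous phi := by
  rw [continuous_pi_iff]
  intro i
  apply continuous_projIcc.comp
  apply continuous_const.mul
  exact ((continuous_apply _).comp continuous_subtype_val).sub
    ((continuous_apply _).comp continuous_subtype_val)

/-- the function on the sum associated with a point of the cube -/
noncomputable def ext1 (u : I → unitInterval) (x : X) : ℝ :=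
  ((Ultrafilter.extend (fun a : A x.1 => u ⟨x.1, a⟩) x.2 : unitInterval) : ℝ) / ((x.1 : ℝ) + 1)

lemma continuous_ext1 (u : I → unitInterval) : Continuous (ext1 u) := by
  rw [continuous_sigma_iff]
  intro n
  change Continuous (fun p : Ultrafilter (A n) =>
    ((Ultrafilter.extend (fun a : A n => u ⟨n, a⟩) p : unitInterval) : ℝ) / ((n : ℝ) + 1))
  apply Continuous.div_const
  exact continuous_subtype_val.comp (continuous_ultrafilter_extend _)

lemma tendsto_ext1 (u : I → unitInterval) : Tendsto (ext1 u) (coclosedCompact X) (𝓝 0) := by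
  rw [Metric.tendsto_nhds]
  intro ε hε
  obtain ⟨N, hN⟩ := exists_nat_one_div_lt hε
  have : {x : X | x.1 ≤ N}ᶜ ∈ coclosedCompact X := by
    rw [hasBasis_coclosedCompact.mem_iff]
    exact ⟨_, ⟨isClosed_levels N, isCompact_levels N⟩, subset_rfl⟩
  filter_upwards [this] with x hx
  have hx : N < x.1 := by simpa using hx
  have h0 : 0 ≤ ext1 u x := by
    apply div_nonneg
    · exact (Ultrafilter.extend (fun a : A x.1 => u ⟨x.1, a⟩) x.2).2.1
    · positivity
  rw [Real.dist_eq, sub_zero, abs_of_nonneg h0]
  refine lt_of_le_of_lt ?_ hN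
  unfold ext1
  have h1 : ((Ultrafilter.extend (fun a : A x.1 => u ⟨x.1, a⟩) x.2 : unitInterval) : ℝ) ≤ 1 :=
    (Ultrafilter.extend (fun a : A x.1 => u ⟨x.1, a⟩) x.2).2.2
  have h2 : (N : ℝ) + 1 ≤ (x.1 : ℝ) + 1 := by
    have : (N : ℝ) ≤ (x.1 : ℝ) := by exact_mod_cast hx.le
    linarith
  exact div_le_div₀ zero_le_one h1 (by positivity) h2

/-- the function on the compact space associated with a point of the cube -/
noncomputable def ext2 (u : I → unitInterval) (x : K) : ℝ := x.elim 0 (ext1 u)

lemma continuous_ext2 (u : I → unitInterval) : Continuous (ext2 u) := by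
  rw [OnePoint.continuous_iff]
  exact ⟨tendsto_ext1 u, continuous_ext1 u⟩

lemma surjective_phi : Function.Surjective phi := by
  intro u
  refine ⟨⟨ext2 u, continuous_ext2 u⟩, ?_⟩
  funext i
  obtain ⟨n, a⟩ := i
  have h1 : ext2 u ((⟨n, (pure a : Ultrafilter (A n))⟩ : X) : K) = (u ⟨n, a⟩ : ℝ) / ((n : ℝ) + 1) := by
    change ext1 u ⟨n, (pure a : Ultrafilter (A n))⟩ = _
    unfold ext1
    have := ultrafilter_extend_pure (fun a : A n => u ⟨n, a⟩) a
    change ((Ultrafilter.extend (fun a : A n => u ⟨n, a⟩) (pure a) : unitInterval) : ℝ)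
      / ((n : ℝ) + 1) = _
    rw [this]
  have h2 : ext2 u (OnePoint.infty : K) = 0 := rfl
  change Set.projIcc 0 1 zero_le_one (((n : ℝ) + 1) *
    (ext2 u ((⟨n, (pure a : Ultrafilter (A n))⟩ : X) : K) - ext2 u (OnePoint.infty : K))) = u ⟨n, a⟩
  rw [h1, h2, sub_zero]
  have h3 : ((n : ℝ) + 1) * ((u ⟨n, a⟩ : ℝ) / ((n : ℝ) + 1)) = (u ⟨n, a⟩ : ℝ) := by
    have : ((n : ℝ) + 1) ≠ 0 := by positivity
    field_simp
  rw [h3]
  exact Set.projIcc_val zero_le_one (u ⟨n, a⟩)

/-- a large discrete set meets infinitely many levels -/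
lemma infinite_levels (D : Set K) (hD : Cardinal.mk D = Cardinal.mk I) :
    {n : ℕ | ∃ p : Ultrafilter (A n), ((⟨n, p⟩ : X) : K) ∈ D}.Infinite := by
  intro hfin
  obtain ⟨N, hN⟩ := hfin.bddAbove
  -- the set `D` is contained in finitely many levels together with infinity
  have hsub : D ⊆ insert OnePoint.infty
      (⋃ n : Fin (N + 1), range (fun p : Ultrafilter (A n) => ((⟨n, p⟩ : X) : K))) := by
    intro x hx
    induction x using OnePoint.rec with
    | infty => exact mem_insert _ _
    | coe x =>
      obtain ⟨n, p⟩ := x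
      apply mem_insert_of_mem
      rw [mem_iUnion]
      have : n ≤ N := hN ⟨p, hx⟩
      exact ⟨⟨n, by omega⟩, p, rfl⟩
  have h1 : Cardinal.mk D ≤ Cardinal.mk (A (N + 1)) := by
    refine (Cardinal.mk_le_mk_of_subset hsub).trans ?_
    refine (Cardinal.mk_insert_le).trans ?_
    have h2 : Cardinal.mk (⋃ n : Fin (N + 1),
        range (fun p : Ultrafilter (A n) => ((⟨n, p⟩ : X) : K))) ≤ Cardinal.mk (A (N + 1)) := by
      refine (Cardinal.mk_iUnion_le _).trans ?_
      have h3 : (⨆ n : Fin (N + 1), Cardinal.mk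
          (range (fun p : Ultrafilter (A n) => ((⟨n, p⟩ : X) : K)))) ≤ Cardinal.mk (A (N + 1)) := by
        apply ciSup_le'
        intro n
        refine Cardinal.mk_range_le.trans ((mk_ultra n).trans ?_)
        apply mono
        omega
      refine (mul_le_mul' le_rfl h3).trans ?_
      apply Cardinal.mul_le_of_le (aleph0_le _) _ le_rfl
      exact (Cardinal.mk_lt_aleph0 (α := Fin (N + 1))).le.trans (aleph0_le _)
    exact Cardinal.add_le_of_le (aleph0_le _) h2
      ((Cardinal.one_lt_aleph0).le.trans (aleph0_le _))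
  rw [hD] at h1
  exact absurd (le_mk_I (N + 2)) (not_le.mpr (h1.trans_lt (lt_succ (N + 1))))

/-- The negation of the preceding statement: For compact Hausdorff K and uncountable κ: if C_p(K) with the pointwise topology maps continuously onto [0,1]^κ, then K has a discrete subset of size κ on which every bounded continuous real function extends continuously to K. -/
theorem result :
    ¬ (∀ (K : Type) [TopologicalSpace K] [CompactSpace K] [T2Space K] (ι : Type),
      Cardinal.aleph0 < Cardinal.mk ι →
      (∃ φ : {f : K → ℝ // Continuous f} → (ι → unitInterval),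
          Continuous φ ∧ Function.Surjective φ) →
      ∃ D : Set K, DiscreteTopology (↥D) ∧ Cardinal.mk (↥D) = Cardinal.mk ι ∧
        ∀ g : (↥D) → ℝ, Continuous g → (∃ M : ℝ, ∀ x : ↥D, |g x| ≤ M) →
          ∃ G : K → ℝ, Continuous G ∧ ∀ x : ↥D, G (x : K) = g x) := by
  intro H
  obtain ⟨D, hD1, hD2, hD3⟩ := H K I
    (lt_of_lt_of_le ((aleph0_le 0).trans_lt (lt_succ 0)) (le_mk_I 1))
    ⟨phi, continuous_phi, surjective_phi⟩
  have hinf := infinite_levels D hD2
  -- enumerate the levels met by `D`
  let s : ℕ → ℕ := fun k =>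
    Nat.nth (fun n => ∃ p : Ultrafilter (A n), ((⟨n, p⟩ : X) : K) ∈ D) k
  have hs : StrictMono s := Nat.nth_strictMono hinf
  have hsD : ∀ k, ∃ p : Ultrafilter (A (s k)), ((⟨s k, p⟩ : X) : K) ∈ D :=
    fun k => Nat.nth_mem_of_infinite hinf k
  choose p hp using hsD
  let d : ℕ → X := fun k => ⟨s k, p k⟩
  -- the test function
  classical
  let lev : K → ℝ := fun x => x.elim 0 (fun y => if ∃ k, y.1 = s (2 * k) then 1 else 0)
  obtain ⟨G, hG, hGD⟩ := hD3 (fun x => lev x) (continuous_of_discreteTopology) (by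
    refine ⟨1, fun x => ?_⟩
    have : ∀ y : K, |lev y| ≤ 1 := by
      intro y
      induction y using OnePoint.rec with
      | infty => simp [lev]
      | coe y =>
        simp only [lev, OnePoint.elim_some]
        split_ifs <;> simp
    exact this x)
  have hd : Tendsto (fun k => (d k : K)) atTop (𝓝 OnePoint.infty) := by
    apply OnePoint.tendsto_coe_infty.comp
    rw [hasBasis_coclosedCompact.tendsto_right_iff]
    rintro C ⟨_, hC⟩
    obtain ⟨N, hN⟩ := compact_levels hC
    filter_upwards [eventually_gt_atTop N] with k hk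
    intro hmem
    have h1 := hN _ hmem
    have h2 : k ≤ s k := hs.id_le k
    have h3 : (d k).1 = s k := rfl
    omega
  have hG1 : Tendsto (fun k => G (d k)) atTop (𝓝 (G OnePoint.infty)) := (hG.tendsto _).comp hd
  have hodd : ∀ k, G (d (2 * k + 1)) = 0 := by
    intro k
    have := hGD ⟨(d (2 * k + 1) : K), hp _⟩
    rw [this]
    have hne : ¬ ∃ j, (d (2 * k + 1)).1 = s (2 * j) := by
      rintro ⟨j, hj⟩
      have h1 : (2 * k + 1) = 2 * j := hs.injective hj
      omega
    simp only [lev, OnePoint.elim_some]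
    rw [if_neg hne]
  have heven : ∀ k, G (d (2 * k)) = 1 := by
    intro k
    have := hGD ⟨(d (2 * k) : K), hp _⟩
    rw [this]
    have hne : ∃ j, (d (2 * k)).1 = s (2 * j) := ⟨k, rfl⟩
    simp only [lev, OnePoint.elim_some]
    rw [if_pos hne]
  have t1 : Tendsto (fun k : ℕ => 2 * k) atTop atTop :=
    tendsto_atTop_mono (fun k => (by simp only [id]; omega)) tendsto_id
  have t2 : Tendsto (fun k : ℕ => 2 * k + 1) atTop atTop :=
    tendsto_atTop_mono (fun k => (by simp only [id]; omega)) tendsto_id
  have e1 : G OnePoint.infty = 1 := by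
    have h := hG1.comp t1
    have h' : (fun k => G (d k)) ∘ (fun k : ℕ => 2 * k) = fun _ => 1 := by
      funext k
      exact heven k
    rw [h'] at h
    exact tendsto_nhds_unique h tendsto_const_nhds
  have e2 : G OnePoint.infty = 0 := by
    have h := hG1.comp t2
    have h' : (fun k => G (d k)) ∘ (fun k : ℕ => 2 * k + 1) = fun _ => 0 := by
      funext k
      exact hodd k
    rw [h'] at h
    exact tendsto_nhds_unique h tendsto_const_nhds
  rw [e1] at e2
  exact one_ne_zero e2

end Pool.Agent.S08154
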