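import Mathlib
import Pool.Statements.S08155

set_option autoImplicit false
open Pool Pool.MP_18ddbc_gt
open Set Filter Topology

namespace Pool.Agent.S08155

section general

theorem compIn_isClosed {X : Type*} [TopologicalSpace X] {Z : Set X} (hZ : IsClosed Z) (x : X) :
    IsClosed (connectedComponentIn Z x) := by
  by_cases hx : x ∈ Z
  · apply isClosed_of_closure_subset
    apply IsPreconnected.subset_connectedComponentIn
    · exact isPreconnected_connectedComponentIn.closure
    · exact subset_closure (mem_connectedComponentIn hx)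
    · exact closure_minimal (connectedComponentIn_subset _ _) hZ
  · rw [connectedComponentIn_eq_empty hx]; exact isClosed_empty

variable {X : Type*} [TopologicalSpace X] [CompactSpace X] [T2Space X]

theorem nested_preconnected (C : ℕ → Set X) (hanti : Antitone C)
    (hcl : ∀ n, IsClosed (C n)) (hpc : ∀ n, IsPreconnected (C n)) :
    IsPreconnected (⋂ n, C n) := by
  rw [isPreconnected_closed_iff]
  intro u v hu hv hsub hne1 hne2
  by_contra hcon
  rw [Set.not_nonempty_iff_eq_empty] at hcon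
  have hclI : IsClosed (⋂ n, C n) := isClosed_iInter hcl
  have hA : IsClosed ((⋂ n, C n) ∩ u) := hclI.inter hu
  have hB : IsClosed ((⋂ n, C n) ∩ v) := hclI.inter hv
  have hdis : Disjoint ((⋂ n, C n) ∩ u) ((⋂ n, C n) ∩ v) := by
    rw [Set.disjoint_iff_inter_eq_empty]
    ext z
    constructor
    · rintro ⟨⟨h1, h2⟩, ⟨_, h3⟩⟩
      have : z ∈ (⋂ n, C n) ∩ (u ∩ v) := ⟨h1, h2, h3⟩
      rw [hcon] at this
      exact this
    · intro h; exact h.elim
  obtain ⟨U, V, hU, hV, hAU, hBV, hUV⟩ := normal_separation hA hB hdis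
  have hsub2 : (⋂ n, C n) ⊆ U ∪ V := by
    intro z hz
    rcases hsub hz with h | h
    · exact Or.inl (hAU ⟨hz, h⟩)
    · exact Or.inr (hBV ⟨hz, h⟩)
  obtain ⟨n, hn⟩ := exists_subset_nhds_of_isCompact' (V := C) (U := U ∪ V)
    (directed_of_isDirected_le (fun i j h => hanti h))
    (fun i => (hcl i).isCompact) hcl
    (fun x hx => (hU.union hV).mem_nhds (hsub2 hx))
  obtain ⟨a, ha, hau⟩ := hne1
  obtain ⟨b, hb, hbv⟩ := hne2
  have := hpc n U V hU hV hn ⟨a, mem_iInter.1 ha n, hAU ⟨ha, hau⟩⟩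
    ⟨b, mem_iInter.1 hb n, hBV ⟨hb, hbv⟩⟩
  obtain ⟨z, _, hz⟩ := this
  exact (Set.disjoint_left.1 hUV hz.1 hz.2)

theorem iInter_compIn_subset (Z : ℕ → Set X) (hanti : Antitone Z)
    (hcl : ∀ n, IsClosed (Z n)) (x : X) (hx : ∀ n, x ∈ Z n) :
    (⋂ n, connectedComponentIn (Z n) x) ⊆ connectedComponentIn (⋂ n, Z n) x := by
  apply IsPreconnected.subset_connectedComponentIn
  · apply nested_preconnected
    · intro i j h
      exact connectedComponentIn_mono x (hanti h)
    · intro n; exact compIn_isClosed (hcl n) x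
    · intro n; exact isPreconnected_connectedComponentIn
  · exact mem_iInter.2 fun n => mem_connectedComponentIn (hx n)
  · exact iInter_mono fun n => connectedComponentIn_subset _ _

end general

/-- Confluence of a map (onto a connected target this includes surjectivity). -/
def Confl {X Y : Type*} [TopologicalSpace X] [TopologicalSpace Y] (f : X → Y) : Prop :=
  ∀ K : Set Y, IsClosed K → IsConnected K → ∀ x, f x ∈ K → f '' connectedComponentIn (f ⁻¹' K) x = K

theorem confl_iff {X Y : Type*} [TopologicalSpace X] [TopologicalSpace Y] (f : X → Y) :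
    Confl f ↔ ∀ K : Set Y, IsClosed K → IsConnected K → ∀ x, f x ∈ K → 
      ∀ y ∈ K, ∃ z ∈ connectedComponentIn (f ⁻¹' K) x, f z = y := by
  constructor
  · intro h K hK hKc x hx y hy
    have := h K hK hKc x hx
    rw [← this] at hy
    obtain ⟨z, hz, rfl⟩ := hy
    exact ⟨z, hz, rfl⟩
  · intro h K hK hKc x hx
    apply Subset.antisymm
    · rintro _ ⟨z, hz, rfl⟩
      have h1 : z ∈ f ⁻¹' K := connectedComponentIn_subset _ _ hz
      exact h1
    · intro y hy
      obtain ⟨z, hz, hzy⟩ := h K hK hKc x hx y hy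
      exact ⟨z, hz, hzy⟩

/-- open maps of compact Hausdorff spaces are confluent -/
theorem Confl.of_isOpenMap {X Y : Type*} [TopologicalSpace X] [CompactSpace X] [T2Space X]
    [TopologicalSpace Y] [T2Space Y] {f : X → Y} (hc : Continuous f) (ho : IsOpenMap f) : Confl f := by
  rw [confl_iff]
  intro K hK hKc x hx y hy
  set Z : Set X := f ⁻¹' K with hZ
  have hZc : IsClosed Z := hK.preimage hc
  have : CompactSpace Z := isCompact_iff_compactSpace.1 hZc.isCompact
  have hxZ : x ∈ Z := hx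
  rw [connectedComponentIn_eq_image hxZ, connectedComponent_eq_iInter_isClopen]
  -- each clopen subset of Z containing x maps onto K
  have key : ∀ U : Set Z, IsClopen U → (⟨x, hxZ⟩ : Z) ∈ U → ∃ z ∈ U, f z.1 = y := by
    intro U hU hxU
    by_contra hcon
    push Not at hcon
    -- image f(U) is closed in Y and relatively open in K
    have hcl : IsClosed ((fun z : Z => f z.1) '' U) := 
      (hU.isClosed.isCompact.image (hc.comp continuous_subtype_val)).isClosed
    have hcl' : IsClosed ((fun z : Z => f z.1) '' Uᶜ) := 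
      (hU.compl.isClosed.isCompact.image (hc.comp continuous_subtype_val)).isClosed
    obtain ⟨W, hW, hWU⟩ := isOpen_induced_iff.1 hU.isOpen
    have hopen : IsOpen (f '' W) := ho W hW
    have h1 : (fun z : Z => f z.1) '' U = f '' W ∩ K := by
      ext w
      constructor
      · rintro ⟨z, hz, rfl⟩
        refine ⟨⟨z.1, ?_, rfl⟩, z.2⟩
        rw [← hWU] at hz; exact hz
      · rintro ⟨⟨z, hz, rfl⟩, hzK⟩
        refine ⟨⟨z, hzK⟩, ?_, rfl⟩
        rw [← hWU]; exact hz
    have := hKc.isPreconnected (f '' W) ((fun z : Z => f z.1) '' U)ᶜ hopen hcl.isOpen_compl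
      (by
        intro w hw
        by_cases hwU : w ∈ (fun z : Z => f z.1) '' U
        · left; rw [h1] at hwU; exact hwU.1
        · right; exact hwU)
      ⟨f x, hx, ⟨x, by rw [← hWU] at hxU; exact hxU, rfl⟩⟩
      ⟨y, hy, by rintro ⟨z, hz, hzy⟩; exact hcon z hz hzy⟩
    obtain ⟨w, hwK, hw1, hw2⟩ := this
    apply hw2
    rw [h1]; exact ⟨hw1, hwK⟩
  -- compactness
  have hne : (⋂ s : { s : Set Z // IsClopen s ∧ (⟨x, hxZ⟩ : Z) ∈ s }, 
      (s.1 ∩ {z : Z | f z.1 = y})).Nonempty := by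
    have : Nonempty { s : Set Z // IsClopen s ∧ (⟨x, hxZ⟩ : Z) ∈ s } := ⟨⟨univ, isClopen_univ, mem_univ _⟩⟩
    apply IsCompact.nonempty_iInter_of_directed_nonempty_isCompact_isClosed
    · intro s t
      refine ⟨⟨s.1 ∩ t.1, s.2.1.inter t.2.1, s.2.2, t.2.2⟩, ?_, ?_⟩
      · exact inter_subset_inter_left _ inter_subset_left
      · exact inter_subset_inter_left _ inter_subset_right
    · intro s
      obtain ⟨z, hz, hzy⟩ := key s.1 s.2.1 s.2.2
      exact ⟨z, hz, hzy⟩
    · intro s
      exact (s.2.1.isClosed.inter (isClosed_eq (hc.comp continuous_subtype_val) continuous_const)).isCompact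
    · intro s
      exact (s.2.1.isClosed.inter (isClosed_eq (hc.comp continuous_subtype_val) continuous_const))
  obtain ⟨z, hz⟩ := hne
  rw [mem_iInter] at hz
  refine ⟨z.1, ⟨z, ?_, rfl⟩, ?_⟩
  · rw [mem_iInter]; intro s; exact (hz s).1
  · exact (hz ⟨univ, isClopen_univ, mem_univ _⟩).2

theorem Confl.comp {X Y Z : Type*} [TopologicalSpace X] 
    [TopologicalSpace Y] [TopologicalSpace Z] {f : X → Y} {g : Y → Z}
    (hf : Confl f) (hg : Confl g) (hgc : Continuous g) : Confl (fun x => g (f x)) := by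
  rw [confl_iff] at *
  intro K hK hKc x hx z hz
  obtain ⟨y, hy, hyz⟩ := hg K hK hKc (f x) hx z hz
  have hL : IsClosed (connectedComponentIn (g ⁻¹' K) (f x)) := compIn_isClosed (hK.preimage hgc) _
  have hLc : IsConnected (connectedComponentIn (g ⁻¹' K) (f x)) := 
    isConnected_connectedComponentIn_iff.2 hx
  obtain ⟨w, hw, hwy⟩ := hf _ hL hLc x (mem_connectedComponentIn hx) y hy
  refine ⟨w, ?_, by rw [hwy, hyz]⟩
  apply connectedComponentIn_mono x _ hw
  intro a ha
  have h1 : f a ∈ g ⁻¹' K := connectedComponentIn_subset _ _ ha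
  exact h1


theorem connected_thick (a b : unitInterval) (hab : a ≤ b) (ε : ℝ) (hε : 0 ≤ ε) :
    IsClosed {w : unitInterval | (a : ℝ) - ε ≤ w ∧ (w : ℝ) ≤ b + ε} ∧
    IsConnected {w : unitInterval | (a : ℝ) - ε ≤ w ∧ (w : ℝ) ≤ b + ε} := by
  constructor
  · apply IsClosed.inter
    · exact isClosed_le continuous_const continuous_subtype_val
    · exact isClosed_le continuous_subtype_val continuous_const
  · refine ⟨⟨a, ?_, ?_⟩, ?_⟩
    · linarith
    · have : (a : ℝ) ≤ b := hab
      linarith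
    · apply Set.OrdConnected.isPreconnected
      constructor
      rintro x ⟨hx1, hx2⟩ y ⟨hy1, hy2⟩ z ⟨hz1, hz2⟩
      have h1 : (x : ℝ) ≤ z := hz1
      have h2 : (z : ℝ) ≤ y := hz2
      exact ⟨by linarith, by linarith⟩

theorem Confl.of_uniform_limit {X : Type*} [TopologicalSpace X] [CompactSpace X] [T2Space X]
    (G : ℕ → X → unitInterval) (φ : X → unitInterval) (hφ : Continuous φ)
    (hG : ∀ n, Confl (G n)) (hlim : TendstoUniformly G φ atTop) : Confl φ := by
  rw [confl_iff]
  intro K hK hKc x hx y hy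
  have hKI : K = Icc (sInf K) (sSup K) := eq_Icc_of_connected_compact hKc hK.isCompact
  set a := sInf K with ha
  set b := sSup K with hb
  have hab : a ≤ b := by
    have : y ∈ Icc a b := hKI ▸ hy
    exact this.1.trans this.2
  let ε : ℕ → ℝ := fun n => 1 / ((n : ℝ) + 1)
  have hεpos : ∀ n, 0 < ε n := fun n => by positivity
  have hεanti : Antitone ε := by
    intro m n hmn
    apply one_div_le_one_div_of_le
    · positivity
    · have : (m : ℝ) ≤ n := by exact_mod_cast hmn
      linarith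
  have hεlim : Tendsto ε atTop (𝓝 0) := tendsto_one_div_add_atTop_nhds_zero_nat
  let Z : ℕ → Set X := fun n => {w | (a : ℝ) - 2 * ε n ≤ φ w ∧ (φ w : ℝ) ≤ b + 2 * ε n}
  have hZanti : Antitone Z := by
    intro m n hmn w hw
    have := hεanti hmn
    exact ⟨by linarith [hw.1], by linarith [hw.2]⟩
  have hZcl : ∀ n, IsClosed (Z n) := by
    intro n
    apply IsClosed.inter
    · exact isClosed_le continuous_const (continuous_subtype_val.comp hφ)
    · exact isClosed_le (continuous_subtype_val.comp hφ) continuous_const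
  have hφx : φ x ∈ Icc a b := hKI ▸ hx
  have hxa : (a : ℝ) ≤ φ x := hφx.1
  have hxb : (φ x : ℝ) ≤ b := hφx.2
  have hyI : y ∈ Icc a b := hKI ▸ hy
  have hya : (a : ℝ) ≤ y := hyI.1
  have hyb : (y : ℝ) ≤ b := hyI.2
  have hxZ : ∀ n, x ∈ Z n := by
    intro n
    have := hεpos n
    exact ⟨by linarith, by linarith⟩
  have hZI : (⋂ n, Z n) = φ ⁻¹' K := by
    ext w
    rw [mem_iInter, mem_preimage, hKI]
    constructor
    · intro h
      constructor
      · have : (a : ℝ) ≤ φ w := by
          have hl : Tendsto (fun n => (a : ℝ) - 2 * ε n) atTop (𝓝 ((a : ℝ) - 2 * 0)) :=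
            (hεlim.const_mul 2).const_sub _
          have := le_of_tendsto' hl (fun n => (h n).1)
          linarith
        exact this
      · have : (φ w : ℝ) ≤ b := by
          have hl : Tendsto (fun n => (b : ℝ) + 2 * ε n) atTop (𝓝 ((b : ℝ) + 2 * 0)) :=
            (hεlim.const_mul 2).const_add _
          have := ge_of_tendsto' hl (fun n => (h n).2)
          linarith
        exact this
    · rintro ⟨h1, h2⟩ n
      have h1' : (a : ℝ) ≤ φ w := h1
      have h2' : (φ w : ℝ) ≤ b := h2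
      have := hεpos n
      exact ⟨by linarith, by linarith⟩
  let E : ℕ → Set X := fun n => connectedComponentIn (Z n) x ∩ {w | |(φ w : ℝ) - y| ≤ ε n}
  have hEcl : ∀ n, IsClosed (E n) := by
    intro n
    apply (compIn_isClosed (hZcl n) x).inter
    exact isClosed_le (((continuous_subtype_val.comp hφ).sub continuous_const).abs) continuous_const
  have hne : (⋂ n, E n).Nonempty := by
    apply IsCompact.nonempty_iInter_of_sequence_nonempty_isCompact_isClosed
    · intro n w hw
      refine ⟨connectedComponentIn_mono x (hZanti (Nat.le_succ n)) hw.1, ?_⟩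
      exact le_trans hw.2 (hεanti (Nat.le_succ n))
    · intro n
      obtain ⟨m, hm⟩ := ((Metric.tendstoUniformly_iff.1 hlim (ε n) (hεpos n))).exists
      have hm' : ∀ w, |(φ w : ℝ) - G m w| < ε n := fun w => by
        have := hm w
        rwa [Subtype.dist_eq, Real.dist_eq] at this
      obtain ⟨hc1, hc2⟩ := connected_thick a b hab (ε n) (hεpos n).le
      have hxin : G m x ∈ {w : unitInterval | (a : ℝ) - ε n ≤ w ∧ (w : ℝ) ≤ b + ε n} := by
        have := abs_lt.1 (hm' x)
        exact ⟨by linarith, by linarith⟩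
      have hyin : y ∈ {w : unitInterval | (a : ℝ) - ε n ≤ w ∧ (w : ℝ) ≤ b + ε n} := by
        have := hεpos n
        exact ⟨by linarith, by linarith⟩
      obtain ⟨z, hz, hzy⟩ := (confl_iff _).1 (hG m) _ hc1 hc2 x hxin y hyin
      refine ⟨z, ?_, ?_⟩
      · refine connectedComponentIn_mono x ?_ hz
        intro w hw
        have h1 : (a : ℝ) - ε n ≤ G m w := hw.1
        have h2 : (G m w : ℝ) ≤ b + ε n := hw.2
        have := abs_lt.1 (hm' w)
        exact ⟨by linarith, by linarith⟩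
      · have := hm' z
        rw [hzy] at this
        exact this.le
    · exact (hEcl 0).isCompact
    · exact hEcl
  obtain ⟨z, hz⟩ := hne
  rw [mem_iInter] at hz
  refine ⟨z, ?_, ?_⟩
  · rw [← hZI]
    apply iInter_compIn_subset Z hZanti hZcl x hxZ
    exact mem_iInter.2 fun n => (hz n).1
  · have h0 : |(φ z : ℝ) - y| ≤ 0 := ge_of_tendsto' hεlim (fun n => (hz n).2)
    have : (φ z : ℝ) - y = 0 := abs_eq_zero.1 (le_antisymm h0 (abs_nonneg _))
    exact Subtype.ext (by linarith)

/-- the inverse limit -/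
abbrev IL (g : ℕ → unitInterval → unitInterval) : Type :=
  {x : ℕ → unitInterval // ∀ k, x k = g k (x (k + 1))}

theorem open_surj {g : unitInterval → unitInterval} (hc : Continuous g) (ho : IsOpenMap g) :
    Function.Surjective g := by
  rw [← Set.range_eq_univ]
  apply IsClopen.eq_univ
  · exact ⟨(isCompact_range hc).isClosed, ho.isOpen_range⟩
  · exact range_nonempty g

theorem IL.isClosed (g : ℕ → unitInterval → unitInterval) (hg : ∀ k, Continuous (g k)) :
    IsClosed {x : ℕ → unitInterval | ∀ k, x k = g k (x (k + 1))} := by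
  rw [Set.ofPred_forall]
  apply isClosed_iInter
  intro k
  exact isClosed_eq (continuous_apply k) ((hg k).comp (continuous_apply (k+1)))

theorem IL.compactSpace (g : ℕ → unitInterval → unitInterval) (hg : ∀ k, Continuous (g k)) :
    CompactSpace (IL g) :=
  isCompact_iff_compactSpace.1 (IL.isClosed g hg).isCompact

theorem IL.exists_point : ∀ (i : ℕ) (g : ℕ → unitInterval → unitInterval) 
    (_ : ∀ k, Function.Surjective (g k)) (u : unitInterval),
    ∃ x : ℕ → unitInterval, (∀ k, x k = g k (x (k + 1))) ∧ x i = u := by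
  intro i
  induction i with
  | zero =>
    intro g hg u
    refine ⟨fun n => Nat.rec u (fun n y => Function.surjInv (hg n) y) n, ?_, rfl⟩
    intro k
    exact (Function.surjInv_eq (hg k) _).symm
  | succ i ih =>
    intro g hg u
    obtain ⟨x', hx', hxi⟩ := ih (fun k => g (k + 1)) (fun k => hg (k + 1)) u
    refine ⟨fun n => Nat.casesOn n (g 0 (x' 0)) (fun n => x' n), ?_, hxi⟩
    intro k
    cases k with
    | zero => rfl
    | succ k => exact hx' k

theorem IL.proj_surj (g : ℕ → unitInterval → unitInterval) 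
    (hg : ∀ k, Continuous (g k) ∧ IsOpenMap (g k)) (i : ℕ) :
    Function.Surjective (fun x : IL g => x.1 i) := by
  intro u
  obtain ⟨x, hx, hxi⟩ := IL.exists_point i g (fun k => open_surj (hg k).1 (hg k).2) u
  exact ⟨⟨x, hx⟩, hxi⟩

theorem IL.proj_cont (g : ℕ → unitInterval → unitInterval) (i : ℕ) :
    Continuous (fun x : IL g => x.1 i) := (continuous_apply i).comp continuous_subtype_val

theorem IL.lift (g : ℕ → unitInterval → unitInterval) 
    (hg : ∀ k, Continuous (g k) ∧ IsOpenMap (g k)) (i n : ℕ) (hin : i ≤ n) :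
    ∃ G : unitInterval → unitInterval, Continuous G ∧ IsOpenMap G ∧ 
      ∀ x : IL g, x.1 i = G (x.1 n) := by
  induction n, hin using Nat.le_induction with
  | base => exact ⟨id, continuous_id, IsOpenMap.id, fun x => rfl⟩
  | succ n hn ih =>
    obtain ⟨G, hG1, hG2, hG3⟩ := ih
    refine ⟨G ∘ g n, hG1.comp (hg n).1, hG2.comp (hg n).2, ?_⟩
    intro x
    rw [hG3 x, x.2 n]
    rfl

theorem IL.nhds_eq (g : ℕ → unitInterval → unitInterval) (x : IL g) :
    𝓝 x = ⨅ n, comap (fun y : IL g => y.1 n) (𝓝 (x.1 n)) := by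
  rw [nhds_subtype_eq_comap, nhds_pi, Filter.pi, comap_iInf]
  congr 1
  ext n : 1
  rw [comap_comap]
  rfl

theorem IL.mem_nhds (g : ℕ → unitInterval → unitInterval) (hg : ∀ k, Continuous (g k)) (x : IL g)
    (U : Set (IL g)) (hU : U ∈ 𝓝 x) (i : ℕ) : 
    ∃ n, i ≤ n ∧ ∃ V : Set unitInterval, IsOpen V ∧ x.1 n ∈ V ∧ ∀ y : IL g, y.1 n ∈ V → y ∈ U := by
  have hanti : Antitone (fun n => comap (fun y : IL g => y.1 n) (𝓝 (x.1 n))) := by
    apply antitone_nat_of_succ_le
    intro n
    have h1 : (fun y : IL g => y.1 n) = g n ∘ (fun y : IL g => y.1 (n + 1)) := by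
      ext y : 1
      exact y.2 n
    rw [h1, ← comap_comap]
    apply comap_mono
    rw [← Filter.map_le_iff_le_comap]
    have h2 : x.1 n = g n (x.1 (n + 1)) := x.2 n
    rw [h2]
    exact (hg n).continuousAt
  rw [IL.nhds_eq, Filter.mem_iInf_of_directed (hanti.directed_ge)] at hU
  obtain ⟨n, hn⟩ := hU
  have hn' := hanti (le_max_left n i) hn
  obtain ⟨W, hW, hWU⟩ := mem_comap.1 hn'
  obtain ⟨V, hVW, hV, hxV⟩ := mem_nhds_iff.1 hW
  exact ⟨max n i, le_max_right _ _, V, hV, hxV, fun y hy => hWU (hVW hy)⟩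

theorem IL.proj_open (g : ℕ → unitInterval → unitInterval) 
    (hg : ∀ k, Continuous (g k) ∧ IsOpenMap (g k)) (i : ℕ) :
    IsOpenMap (fun x : IL g => x.1 i) := by
  rw [isOpenMap_iff_nhds_le]
  intro x U hU
  obtain ⟨n, hin, V, hV, hxV, hVU⟩ := IL.mem_nhds g (fun k => (hg k).1) x _ hU i
  obtain ⟨G, hG1, hG2, hG3⟩ := IL.lift g hg i n hin
  have h1 : G '' V ⊆ U := by
    rintro _ ⟨v, hv, rfl⟩
    obtain ⟨y, hy⟩ := IL.proj_surj g hg n v
    have hy' : y.1 n = v := hy
    have := hVU y (by rw [hy']; exact hv)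
    have h2 : y.1 i ∈ U := this
    rw [hG3 y, hy'] at h2
    exact h2
  apply mem_of_superset _ h1
  show G '' V ∈ 𝓝 (x.1 i)
  rw [hG3 x]
  exact (hG2 V hV).mem_nhds ⟨_, hxV, rfl⟩

theorem IL.confl_proj (g : ℕ → unitInterval → unitInterval) 
    (hg : ∀ k, Continuous (g k) ∧ IsOpenMap (g k)) (i : ℕ) :
    Confl (fun x : IL g => x.1 i) := by
  have := IL.compactSpace g (fun k => (hg k).1)
  exact Confl.of_isOpenMap (IL.proj_cont g i) (IL.proj_open g hg i)

/-- A map into an inverse limit is confluent when all its coordinates are. -/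
theorem confl_of_coords {X : Type*} [TopologicalSpace X] [CompactSpace X] [T2Space X]
    (h : ℕ → unitInterval → unitInterval) (hh : ∀ k, Continuous (h k) ∧ IsOpenMap (h k))
    (f : X → IL h) (hf : Continuous f) (hc : ∀ j, Confl (fun x => (f x).1 j)) : Confl f := by
  have := IL.compactSpace h (fun k => (hh k).1)
  rw [confl_iff]
  intro K hK hKc x hx y hy
  let Kj : ℕ → Set unitInterval := fun j => (fun y : IL h => y.1 j) '' K
  let Z : ℕ → Set X := fun j => (fun x => (f x).1 j) ⁻¹' (Kj j)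
  have hKjc : ∀ j, IsClosed (Kj j) := fun j => (hK.isCompact.image (IL.proj_cont h j)).isClosed
  have hKjconn : ∀ j, IsConnected (Kj j) := fun j => hKc.image _ (IL.proj_cont h j).continuousOn
  have hZcl : ∀ j, IsClosed (Z j) := fun j => (hKjc j).preimage ((IL.proj_cont h j).comp hf)
  have hZanti : Antitone Z := by
    apply antitone_nat_of_succ_le
    intro n w hw
    obtain ⟨k, hk, hkw⟩ := hw
    refine ⟨k, hk, ?_⟩
    have h1 : k.1 (n + 1) = (f w).1 (n + 1) := hkw
    show k.1 n = (f w).1 n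
    rw [k.2 n, (f w).2 n, h1]
  have hxZ : ∀ n, x ∈ Z n := fun n => ⟨f x, hx, rfl⟩
  have hZI : (⋂ n, Z n) = f ⁻¹' K := by
    ext w
    rw [mem_iInter]
    constructor
    · intro hw
      have hne : (⋂ n, (K ∩ {k : IL h | k.1 n = (f w).1 n})).Nonempty := by
        have hcl : ∀ n, IsClosed (K ∩ {k : IL h | k.1 n = (f w).1 n}) := fun n => 
          hK.inter (isClosed_eq (IL.proj_cont h n) continuous_const)
        apply IsCompact.nonempty_iInter_of_sequence_nonempty_isCompact_isClosed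
        · rintro n k ⟨hk, hkn⟩
          refine ⟨hk, ?_⟩
          have h1 : k.1 (n + 1) = (f w).1 (n + 1) := hkn
          show k.1 n = (f w).1 n
          rw [k.2 n, (f w).2 n, h1]
        · intro n
          obtain ⟨k, hk, hkw⟩ := hw n
          exact ⟨k, hk, hkw⟩
        · exact (hcl 0).isCompact
        · exact hcl
      obtain ⟨k, hk⟩ := hne
      rw [mem_iInter] at hk
      have : k = f w := Subtype.ext (funext fun n => (hk n).2)
      rw [mem_preimage, ← this]
      exact (hk 0).1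
    · intro hw n
      exact ⟨f w, hw, rfl⟩
  let E : ℕ → Set X := fun n => connectedComponentIn (Z n) x ∩ {w | (f w).1 n = y.1 n}
  have hEcl : ∀ n, IsClosed (E n) := by
    intro n
    apply (compIn_isClosed (hZcl n) x).inter
    exact isClosed_eq ((IL.proj_cont h n).comp hf) continuous_const
  have hne : (⋂ n, E n).Nonempty := by
    apply IsCompact.nonempty_iInter_of_sequence_nonempty_isCompact_isClosed
    · intro n w hw
      refine ⟨connectedComponentIn_mono x (hZanti (Nat.le_succ n)) hw.1, ?_⟩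
      have h1 : (f w).1 (n + 1) = y.1 (n + 1) := hw.2
      show (f w).1 n = y.1 n
      rw [(f w).2 n, y.2 n, h1]
    · intro n
      obtain ⟨z, hz, hzy⟩ := (confl_iff _).1 (hc n) (Kj n) (hKjc n) (hKjconn n) x ⟨f x, hx, rfl⟩ 
        (y.1 n) ⟨y, hy, rfl⟩
      exact ⟨z, hz, hzy⟩
    · exact (hEcl 0).isCompact
    · exact hEcl
  obtain ⟨z, hz⟩ := hne
  rw [mem_iInter] at hz
  refine ⟨z, ?_, ?_⟩
  · rw [← hZI]
    apply iInter_compIn_subset Z hZanti hZcl x hxZ
    exact mem_iInter.2 fun n => (hz n).1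
  · exact Subtype.ext (funext fun n => (hz n).2)


/-- The non-extremality condition on an interval which characterises open maps. -/
def OpenOn (G : ℝ → ℝ) (s e : ℝ) : Prop :=
  ∀ t ∈ Icc s e, ∀ ε > 0, (G t = 0 ∨ ∃ t' ∈ Icc s e, |t' - t| < ε ∧ G t' < G t) ∧
    (G t = 1 ∨ ∃ t' ∈ Icc s e, |t' - t| < ε ∧ G t < G t')

theorem openOn_of_strictMono {G : ℝ → ℝ} {s e : ℝ} (hse : s < e) (hG : StrictMonoOn G (Icc s e))
    (h0 : G s = 0) (h1 : G e = 1) : OpenOn G s e := by
  intro t ht ε hε
  constructor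
  · rcases eq_or_lt_of_le ht.1 with h | h
    · left; rw [← h]; exact h0
    · right
      refine ⟨max s (t - ε / 2), ⟨le_max_left _ _, max_le hse.le (by linarith [ht.2])⟩, ?_, ?_⟩
      · rw [abs_lt]
        constructor
        · have := le_max_right s (t - ε / 2)
          linarith
        · have : max s (t - ε / 2) < t := max_lt h (by linarith)
          linarith
      · apply hG ⟨le_max_left _ _, max_le hse.le (by linarith [ht.2])⟩ ht
        exact max_lt h (by linarith)
  · rcases eq_or_lt_of_le ht.2 with h | h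
    · left; rw [h]; exact h1
    · right
      refine ⟨min e (t + ε / 2), ⟨le_min hse.le (by linarith [ht.1]), min_le_left _ _⟩, ?_, ?_⟩
      · rw [abs_lt]
        constructor
        · have : t < min e (t + ε / 2) := lt_min h (by linarith)
          linarith
        · have := min_le_right e (t + ε / 2)
          linarith
      · apply hG ht ⟨le_min hse.le (by linarith [ht.1]), min_le_left _ _⟩
        exact lt_min h (by linarith)

theorem OpenOn.flip {G : ℝ → ℝ} {s e : ℝ} (h : OpenOn G s e) : OpenOn (fun t => 1 - G t) s e := by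
  intro t ht ε hε
  obtain ⟨h1, h2⟩ := h t ht ε hε
  constructor
  · rcases h2 with h2 | ⟨t', ht', h3, h4⟩
    · left; simp [h2]
    · right; exact ⟨t', ht', h3, by linarith⟩
  · rcases h1 with h2 | ⟨t', ht', h3, h4⟩
    · left; simp [h2]
    · right; exact ⟨t', ht', h3, by linarith⟩

theorem OpenOn.glue {G1 G2 : ℝ → ℝ} {s r e : ℝ} (hsr : s ≤ r) (hre : r ≤ e)
    (h1 : OpenOn G1 s r) (h2 : OpenOn G2 r e) (heq : G1 r = G2 r) :
    OpenOn (fun t => if t ≤ r then G1 t else G2 t) s e := by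
  have hval1 : ∀ t ∈ Icc s r, (fun t => if t ≤ r then G1 t else G2 t) t = G1 t := by
    intro t ht; simp [ht.2]
  have hval2 : ∀ t ∈ Icc r e, (fun t => if t ≤ r then G1 t else G2 t) t = G2 t := by
    intro t ht
    rcases eq_or_lt_of_le ht.1 with h | h
    · simp [← h, heq]
    · simp [not_le.2 h]
  intro t ht ε hε
  rcases le_total t r with htr | htr
  · have htm : t ∈ Icc s r := ⟨ht.1, htr⟩
    obtain ⟨ha, hb⟩ := h1 t htm ε hε
    rw [hval1 t htm]
    constructor
    · rcases ha with ha | ⟨t', ht', h3, h4⟩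
      · left; exact ha
      · right; exact ⟨t', ⟨ht'.1, ht'.2.trans hre⟩, h3, by rw [hval1 t' ht']; exact h4⟩
    · rcases hb with ha | ⟨t', ht', h3, h4⟩
      · left; exact ha
      · right; exact ⟨t', ⟨ht'.1, ht'.2.trans hre⟩, h3, by rw [hval1 t' ht']; exact h4⟩
  · have htm : t ∈ Icc r e := ⟨htr, ht.2⟩
    obtain ⟨ha, hb⟩ := h2 t htm ε hε
    rw [hval2 t htm]
    constructor
    · rcases ha with ha | ⟨t', ht', h3, h4⟩
      · left; exact ha
      · right; exact ⟨t', ⟨hsr.trans ht'.1, ht'.2⟩, h3, by rw [hval2 t' ht']; exact h4⟩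
    · rcases hb with ha | ⟨t', ht', h3, h4⟩
      · left; exact ha
      · right; exact ⟨t', ⟨hsr.trans ht'.1, ht'.2⟩, h3, by rw [hval2 t' ht']; exact h4⟩

/-- A monotone lap. -/
theorem lap {H : ℝ → ℝ} (hH : Continuous H) {s e δ : ℝ} (hse : s < e)
    (hδ : 0 < δ) (hδ' : δ ≤ 1 / 20) (hval : ∀ t ∈ Icc s e, H t ∈ Icc (0 : ℝ) 1)
    (hs : H s ≤ 4 * δ) (hmono : ∀ u t, s ≤ u → u ≤ t → t ≤ e → H u ≤ H t + 6 * δ)
    (hw : ∃ w ∈ Icc s e, 1 - 2 * δ ≤ H w) :
    ∃ G : ℝ → ℝ, Continuous G ∧ StrictMonoOn G (Icc s e) ∧ G s = 0 ∧ G e = 1 ∧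
      ∀ t ∈ Icc s e, |G t - H t| ≤ 20 * δ := by
  let M : ℝ → ℝ := fun t => sSup ((fun θ : ℝ => H (s + θ * (t - s))) '' Icc (0 : ℝ) 1)
  have hMc : Continuous M := by
    apply IsCompact.continuous_sSup isCompact_Icc
    apply hH.comp
    fun_prop
  have hbdd : ∀ t, BddAbove ((fun θ : ℝ => H (s + θ * (t - s))) '' Icc (0 : ℝ) 1) := by
    intro t
    apply isCompact_Icc.bddAbove_image
    apply Continuous.continuousOn
    fun_prop
  have hne : ∀ t, ((fun θ : ℝ => H (s + θ * (t - s))) '' Icc (0 : ℝ) 1).Nonempty := 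
    fun t => ⟨_, 0, ⟨le_refl _, zero_le_one⟩, rfl⟩
  have hle : ∀ t, ∀ u, s ≤ u → u ≤ t → H u ≤ M t := by
    intro t u hsu hut
    rcases eq_or_lt_of_le (hsu.trans hut) with h | h
    · apply le_csSup (hbdd t)
      refine ⟨0, ⟨le_refl _, zero_le_one⟩, ?_⟩
      have : u = s := le_antisymm (by rw [h]; exact hut) hsu
      simp [this]
    · apply le_csSup (hbdd t)
      have hpos : 0 < t - s := by linarith
      refine ⟨(u - s) / (t - s), ⟨by apply div_nonneg <;> linarith, ?_⟩, ?_⟩
      · rw [div_le_one hpos]; linarith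
      · show H (s + (u - s) / (t - s) * (t - s)) = H u
        rw [div_mul_cancel₀ _ hpos.ne']
        congr 1; ring
  have hge : ∀ t, s ≤ t → ∀ c, (∀ u, s ≤ u → u ≤ t → H u ≤ c) → M t ≤ c := by
    intro t hst c hc
    apply csSup_le (hne t)
    rintro _ ⟨θ, ⟨h0, h1⟩, rfl⟩
    apply hc
    · have : 0 ≤ θ * (t - s) := mul_nonneg h0 (by linarith)
      linarith
    · have : θ * (t - s) ≤ 1 * (t - s) := mul_le_mul_of_nonneg_right h1 (by linarith)
      linarith
  have hMmono : ∀ t t', s ≤ t → t ≤ t' → M t ≤ M t' := by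
    intro t t' hst htt'
    exact hge t hst _ (fun u h1 h2 => hle t' u h1 (h2.trans htt'))
  have hMs : M s = H s := by
    apply le_antisymm
    · apply hge s le_rfl
      intro u h1 h2
      rw [le_antisymm h2 h1]
    · exact hle s s le_rfl le_rfl
  have hMe1 : 1 - 2 * δ ≤ M e := by
    obtain ⟨w, hw1, hw2⟩ := hw
    exact hw2.trans (hle e w hw1.1 hw1.2)
  have hMe2 : M e ≤ 1 := hge e hse.le 1 (fun u h1 h2 => (hval u ⟨h1, h2⟩).2)
  have hHs0 : 0 ≤ H s := (hval s ⟨le_rfl, hse.le⟩).1
  have hD : 0 < M e - M s := by rw [hMs]; linarith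
  have hD2 : 0 < e - s := by linarith
  refine ⟨fun t => (1 - δ) * ((M t - M s) / (M e - M s)) + δ * ((t - s) / (e - s)), ?_, ?_, ?_, ?_, ?_⟩
  · fun_prop
  · intro t ht t' ht' htt'
    have h1 : (M t - M s) / (M e - M s) ≤ (M t' - M s) / (M e - M s) := by
      apply div_le_div_of_nonneg_right _ hD.le
      linarith [hMmono t t' ht.1 htt'.le]
    have h2 : (t - s) / (e - s) < (t' - s) / (e - s) := by
      apply div_lt_div_of_pos_right _ hD2
      linarith
    have h3 : (1 - δ) * ((M t - M s) / (M e - M s)) ≤ (1 - δ) * ((M t' - M s) / (M e - M s)) :=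
      mul_le_mul_of_nonneg_left h1 (by linarith)
    have h4 : δ * ((t - s) / (e - s)) < δ * ((t' - s) / (e - s)) := 
      mul_lt_mul_of_pos_left h2 hδ
    show (1 - δ) * ((M t - M s) / (M e - M s)) + δ * ((t - s) / (e - s)) < 
      (1 - δ) * ((M t' - M s) / (M e - M s)) + δ * ((t' - s) / (e - s))
    linarith
  · simp
  · show (1 - δ) * ((M e - M s) / (M e - M s)) + δ * ((e - s) / (e - s)) = 1
    rw [div_self hD.ne', div_self hD2.ne']; ring
  · intro t ht
    have hM1 : H t ≤ M t := hle t t ht.1 le_rfl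
    have hM2 : M t ≤ H t + 6 * δ := hge t ht.1 _ (fun u h1 h2 => hmono u t h1 h2 ht.2)
    have hM3 : M s ≤ M t := hMmono s t le_rfl ht.1
    have hM4 : M t ≤ M e := hMmono t e ht.1 ht.2
    set q := (M t - M s) / (M e - M s) with hq
    have hq0 : 0 ≤ q := div_nonneg (by linarith) hD.le
    have hq1 : q ≤ 1 := by rw [hq, div_le_one hD]; linarith
    have hqM : q * (M e - M s) = M t - M s := by rw [hq, div_mul_cancel₀ _ hD.ne']
    set p := (t - s) / (e - s) with hp
    have hp0 : 0 ≤ p := div_nonneg (by linarith [ht.1]) hD2.le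
    have hp1 : p ≤ 1 := by rw [hp, div_le_one hD2]; linarith [ht.2]
    have hdiff : |q - M t| ≤ 4 * δ := by
      have h1 : q - M t = q * (1 - (M e - M s)) - M s := by linarith
      have h2 : 0 ≤ 1 - (M e - M s) := by rw [hMs]; linarith
      have h3 : 1 - (M e - M s) ≤ 2 * δ + M s := by linarith
      have h4 : q * (1 - (M e - M s)) ≤ 1 * (2 * δ + M s) := by
        apply mul_le_mul hq1 h3 h2 zero_le_one
      have h5 : 0 ≤ q * (1 - (M e - M s)) := mul_nonneg hq0 h2
      rw [abs_le]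
      constructor
      · rw [hMs] at *; linarith
      · linarith
    have h6 : |(1 - δ) * q + δ * p - q| ≤ δ := by
      have : (1 - δ) * q + δ * p - q = δ * (p - q) := by ring
      rw [this, abs_mul, abs_of_pos hδ]
      have : |p - q| ≤ 1 := by rw [abs_le]; constructor <;> linarith
      nlinarith
    have h7 := abs_le.1 h6
    have h8 := abs_le.1 hdiff
    show |(1 - δ) * q + δ * p - H t| ≤ 20 * δ
    rw [abs_le]
    constructor <;> linarith [h7.1, h7.2, h8.1, h8.2]

/-- The almost-confluence property of `H` from above. -/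
def UProp (H : ℝ → ℝ) (δ : ℝ) : Prop :=
  ∀ s u t a : ℝ, 0 ≤ s → s ≤ u → u ≤ t → t ≤ 1 → a ≤ 1 → (s = 0 ∨ H s < a - δ) →
    (t = 1 ∨ H t < a - δ) → a + δ ≤ H u → ∃ v ∈ Icc s t, 1 - δ ≤ H v

/-- the first point of a closed condition -/
theorem first_point {H : ℝ → ℝ} (hH : Continuous H) (c s : ℝ) 
    (h : ∃ t ∈ Icc s 1, c ≤ H t) : ∃ r ∈ Icc s 1, c ≤ H r ∧ ∀ t, s ≤ t → t < r → H t < c := by
  set T : Set ℝ := Icc s 1 ∩ {t | c ≤ H t} with hT
  have hTc : IsCompact T := isCompact_Icc.inter_right (isClosed_le continuous_const hH)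
  have hTn : T.Nonempty := by
    obtain ⟨t, ht, htc⟩ := h
    exact ⟨t, ht, htc⟩
  have hmem := hTc.sInf_mem hTn
  refine ⟨sInf T, hmem.1, hmem.2, ?_⟩
  intro t hst htr
  by_contra hcon
  push Not at hcon
  have : sInf T ≤ t := csInf_le hTc.bddBelow ⟨⟨hst, htr.le.trans hmem.1.2⟩, hcon⟩
  linarith

theorem construct (δ η : ℝ) (hδ : 0 < δ) (hδ' : δ ≤ 1 / 20) (hη : 0 < η) (n : ℕ) :
    ∀ (H : ℝ → ℝ) (_ : Continuous H) (_ : ∀ t ∈ Icc (0 : ℝ) 1, H t ∈ Icc (0 : ℝ) 1)
      (_ : UProp H δ) (_ : UProp (fun t => 1 - H t) δ)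
      (_ : ∀ s t, s ∈ Icc (0 : ℝ) 1 → t ∈ Icc (0 : ℝ) 1 → |s - t| < η → |H s - H t| < 1 / 2)
      (s : ℝ) (_ : s ∈ Icc (0 : ℝ) 1) (_ : 1 - s ≤ n * η) (_ : H s ≤ 4 * δ) 
      (_ : ∃ t ∈ Icc s 1, 1 - 2 * δ ≤ H t),
      ∃ G : ℝ → ℝ, Continuous G ∧ (∀ t ∈ Icc s 1, G t ∈ Icc (0 : ℝ) 1) ∧ OpenOn G s 1 ∧ G s = 0 ∧
        ∀ t ∈ Icc s 1, |G t - H t| ≤ 20 * δ := by
  induction n with
  | zero =>
    intro H hH hval hU hL hunif s hs hns hHs ⟨t, ht, hHt⟩
    exfalso
    have h1 : s = 1 := le_antisymm hs.2 (by simpa using hns)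
    have h2 : t = 1 := le_antisymm ht.2 (by rw [← h1]; exact ht.1)
    rw [h1] at hHs; rw [h2] at hHt
    linarith
  | succ n ih =>
    intro H hH hval hU hL hunif s hs hns hHs hex
    obtain ⟨r, hr, hHr, hfirst⟩ := first_point hH _ s hex
    have hr01 : r ∈ Icc (0 : ℝ) 1 := ⟨hs.1.trans hr.1, hr.2⟩
    have hHr1 : H r ≤ 1 := (hval r hr01).2
    have hrs : s + η ≤ r := by
      by_contra hcon
      push Not at hcon
      have := hunif r s hr01 hs (by rw [abs_lt]; constructor <;> linarith [hr.1])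
      have h3 := (abs_lt.1 this).2
      linarith
    have hsr : s < r := by linarith
    have hmono1 : ∀ u t, s ≤ u → u ≤ t → t ≤ r → H u ≤ H t + 6 * δ := by
      intro u t hsu hut htr
      by_contra hcon
      push Not at hcon
      have ht01 : t ∈ Icc (0 : ℝ) 1 := ⟨by linarith [hs.1], htr.trans hr.2⟩
      have hu01 : u ∈ Icc (0 : ℝ) 1 := ⟨by linarith [hs.1], hut.trans ht01.2⟩
      have hHt0 := (hval t ht01).1
      have hHu1 := (hval u hu01).2
      obtain ⟨v, hv, hHv⟩ := hU s u t (H u - δ) hs.1 hsu hut ht01.2 (by linarith)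
        (Or.inr (by linarith)) (Or.inr (by linarith)) (by linarith)
      have hvr : r ≤ v := by
        by_contra hc
        push Not at hc
        have := hfirst v hv.1 hc
        linarith
      have : t = r := le_antisymm htr (hvr.trans hv.2)
      rw [this] at hcon
      linarith
    by_cases hlow : ∃ t' ∈ Icc r 1, H t' ≤ 2 * δ
    · -- recursive case
      obtain ⟨t', ht', hHt'⟩ := hlow
      have hL' : UProp (fun t => 1 - (fun t => 1 - H t) t) δ := by
        have : (fun t => 1 - (fun t => 1 - H t) t) = H := by ext t; simp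
        rw [this]; exact hU
      obtain ⟨G', hG'c, hG'v, hG'o, hG'0, hG'a⟩ := ih (fun t => 1 - H t) (by fun_prop)
        (fun t ht => ⟨by linarith [(hval t ht).2], by linarith [(hval t ht).1]⟩) hL hL'
        (by
          intro a b ha hb hab
          have := hunif a b ha hb hab
          rw [abs_lt] at this ⊢
          constructor <;> linarith [this.1, this.2])
        r hr01 (by push_cast at hns; linarith) (by linarith) 
        ⟨t', ht', by linarith⟩
      obtain ⟨G1, hG1c, hG1m, hG1s, hG1r, hG1a⟩ := lap hH hsr hδ hδ'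
        (fun t ht => hval t ⟨hs.1.trans ht.1, ht.2.trans hr.2⟩) hHs hmono1 ⟨r, ⟨hsr.le, le_rfl⟩, hHr⟩
      refine ⟨fun t => if t ≤ r then G1 t else 1 - G' t, ?_, ?_, ?_, ?_, ?_⟩
      · apply Continuous.if_le hG1c (by fun_prop) continuous_id continuous_const
        intro x hx
        have hx' : x = r := hx
        rw [hx', hG1r, hG'0]; ring
      · intro t ht
        by_cases htr : t ≤ r
        · simp only [htr, if_true]
          have ht' : t ∈ Icc s r := ⟨ht.1, htr⟩
          constructor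
          · rw [← hG1s]; exact hG1m.monotoneOn ⟨le_rfl, hsr.le⟩ ht' ht.1
          · rw [← hG1r]; exact hG1m.monotoneOn ht' ⟨hsr.le, le_rfl⟩ htr
        · simp only [htr, if_false]
          have := hG'v t ⟨(not_le.1 htr).le, ht.2⟩
          exact ⟨by linarith [this.2], by linarith [this.1]⟩
      · exact OpenOn.glue hr.1 hr.2 (openOn_of_strictMono hsr hG1m hG1s hG1r) hG'o.flip 
          (by rw [hG1r, hG'0]; ring)
      · simp [hr.1, hG1s]
      · intro t ht
        by_cases htr : t ≤ r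
        · simp only [htr, if_true]
          exact hG1a t ⟨ht.1, htr⟩
        · simp only [htr, if_false]
          have := hG'a t ⟨(not_le.1 htr).le, ht.2⟩
          rw [abs_le] at this ⊢
          constructor <;> linarith [this.1, this.2]
    · -- last lap
      push Not at hlow
      have hs1 : s < 1 := lt_of_lt_of_le hsr hr.2
      have hmono2 : ∀ u t, s ≤ u → u ≤ t → t ≤ 1 → H u ≤ H t + 6 * δ := by
        intro u t hsu hut ht1
        rcases le_total t r with htr | htr
        · exact hmono1 u t hsu hut htr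
        · by_contra hcon
          push Not at hcon
          have hu01 : u ∈ Icc (0 : ℝ) 1 := ⟨by linarith [hs.1], hut.trans ht1⟩
          have ht01 : t ∈ Icc (0 : ℝ) 1 := ⟨by linarith [hr01.1], ht1⟩
          have hHu1 := (hval u hu01).2
          have hHt0 := (hval t ht01).1
          obtain ⟨v, hv, hHv⟩ := hL r t 1 (1 - H t - δ) hr01.1 htr ht1 le_rfl (by linarith)
            (Or.inr (by show 1 - H r < 1 - H t - δ - δ; linarith)) (Or.inl rfl) 
            (by show 1 - H t - δ + δ ≤ 1 - H t; linarith)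
          have h5 : 1 - δ ≤ 1 - H v := hHv
          have := hlow v hv
          linarith
      obtain ⟨G1, hG1c, hG1m, hG1s, hG1r, hG1a⟩ := lap hH hs1 hδ hδ'
        (fun t ht => hval t ⟨hs.1.trans ht.1, ht.2⟩) hHs hmono2 ⟨r, hr, hHr⟩
      refine ⟨G1, hG1c, ?_, openOn_of_strictMono hs1 hG1m hG1s hG1r, hG1s, hG1a⟩
      intro t ht
      constructor
      · rw [← hG1s]; exact hG1m.monotoneOn ⟨le_rfl, hs1.le⟩ ht ht.1
      · rw [← hG1r]; exact hG1m.monotoneOn ht ⟨hs1.le, le_rfl⟩ ht.2

theorem construct0 (δ : ℝ) (hδ : 0 < δ) (hδ' : δ ≤ 1 / 20) (H : ℝ → ℝ) (hH : Continuous H) 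
    (hval : ∀ t ∈ Icc (0 : ℝ) 1, H t ∈ Icc (0 : ℝ) 1)
    (hU : UProp H δ) (hL : UProp (fun t => 1 - H t) δ)
    (hhi : ∃ t ∈ Icc (0 : ℝ) 1, 1 - δ ≤ H t) (hlo : ∃ t ∈ Icc (0 : ℝ) 1, H t ≤ δ) :
    ∃ G : ℝ → ℝ, Continuous G ∧ (∀ t ∈ Icc (0 : ℝ) 1, G t ∈ Icc (0 : ℝ) 1) ∧ OpenOn G 0 1 ∧ 
        ∀ t ∈ Icc (0 : ℝ) 1, |G t - H t| ≤ 20 * δ := by
  have huc : UniformContinuousOn H (Icc (0 : ℝ) 1) := 
    isCompact_Icc.uniformContinuousOn_of_continuous hH.continuousOn
  rw [Metric.uniformContinuousOn_iff] at huc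
  obtain ⟨η, hη, hunif⟩ := huc (1 / 2) (by norm_num)
  have hunif' : ∀ s t, s ∈ Icc (0 : ℝ) 1 → t ∈ Icc (0 : ℝ) 1 → |s - t| < η → |H s - H t| < 1 / 2 := by
    intro s t hs ht hst
    have := hunif s hs t ht (by rw [Real.dist_eq]; exact hst)
    rwa [Real.dist_eq] at this
  obtain ⟨n, hn⟩ := exists_nat_gt (1 / η)
  have hn' : (1 : ℝ) - 0 ≤ n * η := by
    rw [div_lt_iff₀ hη] at hn
    linarith
  have h00 : (0 : ℝ) ∈ Icc (0 : ℝ) 1 := ⟨le_rfl, zero_le_one⟩
  have hstart : H 0 ≤ 4 * δ ∨ 1 - 4 * δ ≤ H 0 := by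
    by_contra hcon
    push Not at hcon
    obtain ⟨h1, h2⟩ := hcon
    obtain ⟨th, hth, hHth⟩ := hhi
    obtain ⟨tl, htl, hHtl⟩ := hlo
    obtain ⟨r1, hr1, hHr1, hf1⟩ := first_point hH (1 - 2 * δ) 0 ⟨th, hth, by linarith⟩
    obtain ⟨r2, hr2, hHr2, hf2⟩ := first_point (H := fun t => 1 - H t) (by fun_prop) (1 - 2 * δ) 0 
      ⟨tl, htl, by show 1 - 2 * δ ≤ 1 - H tl; linarith⟩
    rcases lt_trichotomy r1 r2 with h | h | h
    · -- r1 first: H goes from the middle to the top before being low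
      obtain ⟨v, hv, hHv⟩ := hL 0 0 r1 (1 - H 0 - δ) le_rfl le_rfl hr1.1 hr1.2 (by linarith)
        (Or.inl rfl) (Or.inr (by show 1 - H r1 < 1 - H 0 - δ - δ; linarith)) 
        (by show 1 - H 0 - δ + δ ≤ 1 - H 0; linarith)
      have h5 : 1 - δ ≤ 1 - H v := hHv
      have h6 : 1 - H v < 1 - 2 * δ := hf2 v hv.1 (lt_of_le_of_lt hv.2 h)
      linarith
    · have h7 : 1 - 2 * δ ≤ 1 - H r2 := hHr2
      rw [← h] at h7
      linarith
    · obtain ⟨v, hv, hHv⟩ := hU 0 0 r2 (H 0 - δ) le_rfl le_rfl hr2.1 hr2.2 (by linarith)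
        (Or.inl rfl) (Or.inr (by 
          have h7 : 1 - 2 * δ ≤ 1 - H r2 := hHr2
          linarith)) (by linarith)
      have h6 := hf1 v hv.1 (lt_of_le_of_lt hv.2 h)
      linarith
  rcases hstart with hst | hst
  · obtain ⟨th, hth, hHth⟩ := hhi
    obtain ⟨G, h1, h2, h3, _, h5⟩ := construct δ η hδ hδ' hη n H hH hval hU hL hunif' 0 h00 hn' hst
      ⟨th, hth, by linarith⟩
    exact ⟨G, h1, h2, h3, h5⟩
  · obtain ⟨tl, htl, hHtl⟩ := hlo
    have hL' : UProp (fun t => 1 - (fun t => 1 - H t) t) δ := by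
      have : (fun t => 1 - (fun t => 1 - H t) t) = H := by ext t; simp
      rw [this]; exact hU
    obtain ⟨G, h1, h2, h3, _, h5⟩ := construct δ η hδ hδ' hη n (fun t => 1 - H t) (by fun_prop)
      (fun t ht => ⟨by linarith [(hval t ht).2], by linarith [(hval t ht).1]⟩) hL hL'
      (by
        intro a b ha hb hab
        have := hunif' a b ha hb hab
        rw [abs_lt] at this ⊢
        constructor <;> linarith [this.1, this.2]) 0 h00 hn' (by linarith)
      ⟨tl, htl, by linarith⟩
    refine ⟨fun t => 1 - G t, by fun_prop, ?_, h3.flip, ?_⟩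
    · intro t ht
      have := h2 t ht
      exact ⟨by linarith [this.2], by linarith [this.1]⟩
    · intro t ht
      have := h5 t ht
      rw [abs_le] at this ⊢
      constructor <;> linarith [this.1, this.2]


/-- from the real function to an open self-map of the unit interval -/
theorem openMap_of_openOn (G : ℝ → ℝ) (hG : Continuous G) 
    (hv : ∀ t ∈ Icc (0 : ℝ) 1, G t ∈ Icc (0 : ℝ) 1) (ho : OpenOn G 0 1) :
    ∃ F : unitInterval → unitInterval, Continuous F ∧ IsOpenMap F ∧ ∀ u, (F u : ℝ) = G u := by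
  refine ⟨fun u => ⟨G u, hv u u.2⟩, ?_, ?_, fun u => rfl⟩
  · exact Continuous.subtype_mk (hG.comp continuous_subtype_val) _
  · set F : unitInterval → unitInterval := fun u => ⟨G u, hv u u.2⟩ with hF
    have hFc : Continuous F := Continuous.subtype_mk (hG.comp continuous_subtype_val) _
    rw [isOpenMap_iff_nhds_le]
    intro x U hU
    obtain ⟨ε, hε, hball⟩ := Metric.mem_nhds_iff.1 (show F ⁻¹' U ∈ 𝓝 x from hU)
    obtain ⟨hlo, hhi⟩ := ho x x.2 ε hε
    have hBpc : IsPreconnected (Metric.ball x ε) := by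
      apply Set.OrdConnected.isPreconnected
      constructor
      rintro a ha b hb c ⟨hac, hcb⟩
      rw [Metric.mem_ball, Subtype.dist_eq, Real.dist_eq, abs_lt] at *
      have h1 : (a : ℝ) ≤ c := hac
      have h2 : (c : ℝ) ≤ b := hcb
      constructor <;> linarith [ha.1, ha.2, hb.1, hb.2]
    have himg : (F '' Metric.ball x ε).OrdConnected := 
      (hBpc.image F hFc.continuousOn).ordConnected
    have hsub : F '' Metric.ball x ε ⊆ U := by
      rintro _ ⟨w, hw, rfl⟩
      exact hball hw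
    have hxin : F x ∈ F '' Metric.ball x ε := ⟨x, Metric.mem_ball_self hε, rfl⟩
    apply mem_of_superset _ hsub
    have hE1 : ∀ᶠ w in 𝓝 (F x), w ≤ F x → w ∈ F '' Metric.ball x ε := by
      rcases hlo with h0 | ⟨t', ht', h3, h4⟩
      · refine Eventually.of_forall fun w hw => ?_
        have h5 : (w : ℝ) ≤ F x := hw
        have h6 : (F x : ℝ) = 0 := h0
        have h7 : w = F x := by
          apply Subtype.ext
          have := w.2.1
          linarith
        rw [h7]; exact hxin
      · have h5 : F ⟨t', ht'⟩ < F x := h4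
        filter_upwards [lt_mem_nhds h5] with w hw hwx
        apply himg.out _ hxin ⟨hw.le, hwx⟩
        refine ⟨⟨t', ht'⟩, ?_, rfl⟩
        rw [Metric.mem_ball, Subtype.dist_eq, Real.dist_eq]; exact h3
    have hE2 : ∀ᶠ w in 𝓝 (F x), F x ≤ w → w ∈ F '' Metric.ball x ε := by
      rcases hhi with h0 | ⟨t', ht', h3, h4⟩
      · refine Eventually.of_forall fun w hw => ?_
        have h5 : (F x : ℝ) ≤ w := hw
        have h6 : (F x : ℝ) = 1 := h0
        have h7 : w = F x := by
          apply Subtype.ext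
          have := w.2.2
          linarith
        rw [h7]; exact hxin
      · have h5 : F x < F ⟨t', ht'⟩ := h4
        filter_upwards [gt_mem_nhds h5] with w hw hwx
        apply himg.out hxin _ ⟨hwx, hw.le⟩
        refine ⟨⟨t', ht'⟩, ?_, rfl⟩
        rw [Metric.mem_ball, Subtype.dist_eq, Real.dist_eq]; exact h3
    filter_upwards [hE1, hE2] with w h1 h2
    rcases le_total w (F x) with h | h
    · exact h1 h
    · exact h2 h

/-- functions factoring through a stage of the inverse limit form a subalgebra -/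
def stageAlg (g : ℕ → unitInterval → unitInterval) 
    (hg : ∀ k, Continuous (g k) ∧ IsOpenMap (g k)) : Subalgebra ℝ C(IL g, ℝ) where
  carrier := {ψ | ∃ (i : ℕ) (H : C(unitInterval, ℝ)), ∀ x : IL g, ψ x = H (x.1 i)}
  mul_mem' := by
    rintro ψ1 ψ2 ⟨i, H1, h1⟩ ⟨j, H2, h2⟩
    obtain ⟨G1, hG1, _, hG1'⟩ := IL.lift g hg i (max i j) (le_max_left _ _)
    obtain ⟨G2, hG2, _, hG2'⟩ := IL.lift g hg j (max i j) (le_max_right _ _)
    refine ⟨max i j, H1.comp ⟨G1, hG1⟩ * H2.comp ⟨G2, hG2⟩, ?_⟩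
    intro x
    simp [h1, h2, hG1' x, hG2' x]
  add_mem' := by
    rintro ψ1 ψ2 ⟨i, H1, h1⟩ ⟨j, H2, h2⟩
    obtain ⟨G1, hG1, _, hG1'⟩ := IL.lift g hg i (max i j) (le_max_left _ _)
    obtain ⟨G2, hG2, _, hG2'⟩ := IL.lift g hg j (max i j) (le_max_right _ _)
    refine ⟨max i j, H1.comp ⟨G1, hG1⟩ + H2.comp ⟨G2, hG2⟩, ?_⟩
    intro x
    simp [h1, h2, hG1' x, hG2' x]
  algebraMap_mem' := by
    intro r
    exact ⟨0, algebraMap ℝ _ r, fun x => rfl⟩

theorem exists_stage (g : ℕ → unitInterval → unitInterval) 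
    (hg : ∀ k, Continuous (g k) ∧ IsOpenMap (g k)) (φ : IL g → unitInterval) (hφ : Continuous φ)
    (δ : ℝ) (hδ : 0 < δ) :
    ∃ (i : ℕ) (H : ℝ → ℝ), Continuous H ∧ (∀ t, H t ∈ Icc (0 : ℝ) 1) ∧
      ∀ x : IL g, |H (x.1 i) - φ x| ≤ δ := by
  have := IL.compactSpace g (fun k => (hg k).1)
  have hsep : (stageAlg g hg).SeparatesPoints := by
    intro x y hxy
    have : ∃ n, x.1 n ≠ y.1 n := by
      by_contra hcon
      push Not at hcon
      exact hxy (Subtype.ext (funext hcon))
    obtain ⟨n, hn⟩ := this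
    refine ⟨fun z => (z.1 n : ℝ), ⟨⟨fun z => (z.1 n : ℝ), 
      continuous_subtype_val.comp (IL.proj_cont g n)⟩, ⟨n, ⟨Subtype.val, continuous_subtype_val⟩, 
        fun x => rfl⟩, rfl⟩, ?_⟩
    intro h
    exact hn (Subtype.ext h)
  obtain ⟨⟨ψ, i, H0, hψ⟩, hclose⟩ := 
    ContinuousMap.exists_mem_subalgebra_near_continuous_of_separatesPoints (stageAlg g hg) hsep
      (fun x => (φ x : ℝ)) (continuous_subtype_val.comp hφ) δ hδ
  refine ⟨i, fun t => max 0 (min 1 (H0 (projIcc 0 1 zero_le_one t))), ?_, ?_, ?_⟩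
  · have : Continuous (fun t : ℝ => H0 (projIcc 0 1 zero_le_one t)) := 
      H0.continuous.comp continuous_projIcc
    fun_prop
  · intro t
    exact ⟨le_max_left _ _, max_le zero_le_one (min_le_left _ _)⟩
  · intro x
    have h1 := hclose x
    have h2 : ‖ψ x - (φ x : ℝ)‖ < δ := h1
    rw [hψ x, Real.norm_eq_abs, abs_lt] at h2
    have h3 := (φ x).2.1
    have h4 := (φ x).2.2
    show |max 0 (min 1 (H0 (projIcc 0 1 zero_le_one (x.1 i : ℝ)))) - (φ x : ℝ)| ≤ δ
    rw [projIcc_val]
    rw [abs_le]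
    constructor
    · have h5 : (φ x : ℝ) - δ ≤ min 1 (H0 (x.1 i)) := le_min (by linarith) (by linarith [h2.1])
      have := h5.trans (le_max_right 0 _)
      linarith
    · have h5 : max 0 (min 1 (H0 (x.1 i))) ≤ φ x + δ := 
        max_le (by linarith) ((min_le_right _ _).trans (by linarith [h2.2]))
      linarith

theorem uprop_of_confl (g : ℕ → unitInterval → unitInterval) 
    (hg : ∀ k, Continuous (g k) ∧ IsOpenMap (g k)) (φ : IL g → unitInterval) 
    (hconf : Confl φ) (δ : ℝ) (hδ : 0 < δ) (i : ℕ) (H : ℝ → ℝ) (hval : ∀ t, H t ∈ Icc (0 : ℝ) 1)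
    (hH : ∀ x : IL g, |H (x.1 i) - φ x| ≤ δ) : UProp H δ := by
  intro s u t a h0s hsu hut ht1 ha1 hs ht hu
  rw [confl_iff] at hconf
  obtain ⟨x, hx⟩ := IL.proj_surj g hg i ⟨u, h0s.trans hsu, hut.trans ht1⟩
  have hxu : (x.1 i : ℝ) = u := congrArg Subtype.val hx
  have hxa : a ≤ φ x := by
    have := (abs_le.1 (hH x)).2
    rw [hxu] at this
    linarith
  let a' : unitInterval := ⟨max a 0, le_max_right _ _, max_le ha1 zero_le_one⟩
  have ha'le : a ≤ a' := le_max_left _ _
  obtain ⟨z, hz, hz1⟩ := hconf (Icc a' 1) isClosed_Icc (isConnected_Icc a'.2.2) x 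
    ⟨(show (a' : ℝ) ≤ φ x from max_le hxa (φ x).2.1), (φ x).2.2⟩ 1 ⟨a'.2.2, le_rfl⟩
  set C := connectedComponentIn (φ ⁻¹' Icc a' 1) x with hC
  have hCa : ∀ w ∈ C, a ≤ φ w := by
    intro w hw
    have h1 : w ∈ φ ⁻¹' Icc a' 1 := connectedComponentIn_subset _ _ hw
    have h2 : (a' : ℝ) ≤ φ w := h1.1
    linarith
  have hxC : x ∈ C := mem_connectedComponentIn 
    ⟨(show (a' : ℝ) ≤ φ x from max_le hxa (φ x).2.1), (φ x).2.2⟩
  have hpc : IsPreconnected ((fun w : IL g => (w.1 i : ℝ)) '' C) := by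
    apply IsPreconnected.image isPreconnected_connectedComponentIn
    exact (continuous_subtype_val.comp (IL.proj_cont g i)).continuousOn
  have hoc := hpc.ordConnected
  have hz1' : (φ z : ℝ) = 1 := congrArg Subtype.val hz1
  refine ⟨z.1 i, ⟨?_, ?_⟩, ?_⟩
  · by_contra hcon
    push Not at hcon
    rcases hs with hs | hs
    · have := (z.1 i).2.1
      linarith
    · have hmem : s ∈ (fun w : IL g => (w.1 i : ℝ)) '' C := by
        apply hoc.out ⟨z, hz, rfl⟩ ⟨x, hxC, rfl⟩
        exact ⟨hcon.le, by show s ≤ (x.1 i : ℝ); rw [hxu]; exact hsu⟩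
      obtain ⟨w, hw, hws⟩ := hmem
      have hws' : (w.1 i : ℝ) = s := hws
      have h1 := (abs_le.1 (hH w)).1
      rw [hws'] at h1
      have h2 := hCa w hw
      linarith
  · by_contra hcon
    push Not at hcon
    rcases ht with ht | ht
    · have := (z.1 i).2.2
      linarith
    · have hmem : t ∈ (fun w : IL g => (w.1 i : ℝ)) '' C := by
        apply hoc.out ⟨x, hxC, rfl⟩ ⟨z, hz, rfl⟩ 
        exact ⟨by show (x.1 i : ℝ) ≤ t; rw [hxu]; exact hut, hcon.le⟩
      obtain ⟨w, hw, hws⟩ := hmem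
      have hws' : (w.1 i : ℝ) = t := hws
      have h1 := (abs_le.1 (hH w)).1
      rw [hws'] at h1
      have h2 := hCa w hw
      linarith
  · have := (abs_le.1 (hH z)).1
    rw [hz1'] at this
    linarith

theorem confl_symm {X : Type*} [TopologicalSpace X] (φ : X → unitInterval) (h : Confl φ) : 
    Confl (fun x => unitInterval.symm (φ x)) := by
  have hs : Confl unitInterval.symm := 
    Confl.of_isOpenMap unitInterval.continuous_symm unitInterval.symmHomeomorph.isOpenMap
  exact h.comp hs unitInterval.continuous_symm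

theorem confl_surj {g : ℕ → unitInterval → unitInterval} 
    (hg : ∀ k, Continuous (g k) ∧ IsOpenMap (g k)) (φ : IL g → unitInterval) 
    (h : Confl φ) : Function.Surjective φ := by
  intro y
  obtain ⟨x, _⟩ := IL.proj_surj g hg 0 0
  obtain ⟨z, _, hz⟩ := (confl_iff _).1 h univ isClosed_univ isConnected_univ x (mem_univ _) y (mem_univ _)
  exact ⟨z, hz⟩

theorem approx_one (g : ℕ → unitInterval → unitInterval) 
    (hg : ∀ k, Continuous (g k) ∧ IsOpenMap (g k)) (φ : IL g → unitInterval) (hφ : Continuous φ)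
    (hconf : Confl φ) (ε : ℝ) (hε : 0 < ε) :
    ∃ (i : ℕ) (F : unitInterval → unitInterval), (Continuous F ∧ IsOpenMap F) ∧ 
      ∀ x : IL g, |(F (x.1 i) : ℝ) - φ x| ≤ ε := by
  set δ : ℝ := min (ε / 21) (1 / 20) with hδ
  have hδ0 : 0 < δ := lt_min (by positivity) (by norm_num)
  have hδ1 : δ ≤ 1 / 20 := min_le_right _ _
  have hδ2 : 21 * δ ≤ ε := by
    have := min_le_left (ε / 21) (1 / 20)
    linarith
  obtain ⟨i, H, hHc, hHv, hHa⟩ := exists_stage g hg φ hφ δ hδ0
  have hU := uprop_of_confl g hg φ hconf δ hδ0 i H hHv hHa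
  have hL := uprop_of_confl g hg _ (confl_symm φ hconf) δ hδ0 i (fun t => 1 - H t)
    (fun t => ⟨by linarith [(hHv t).2], by linarith [(hHv t).1]⟩) 
    (by
      intro x
      have := hHa x
      rw [unitInterval.coe_symm_eq]
      rw [abs_le] at this ⊢
      constructor <;> linarith [this.1, this.2])
  obtain ⟨x1, hx1⟩ := confl_surj hg φ hconf 1
  obtain ⟨x0, hx0⟩ := confl_surj hg φ hconf 0
  obtain ⟨G, hG1, hG2, hG3, hG4⟩ := construct0 δ hδ0 hδ1 H hHc (fun t _ => hHv t) hU hL
    ⟨x1.1 i, (x1.1 i).2, by 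
      have := (abs_le.1 (hHa x1)).1
      rw [hx1] at this
      simp at this
      linarith⟩
    ⟨x0.1 i, (x0.1 i).2, by
      have := (abs_le.1 (hHa x0)).2
      rw [hx0] at this
      simp at this
      linarith⟩
  obtain ⟨F, hF1, hF2, hF3⟩ := openMap_of_openOn G hG1 hG2 hG3
  refine ⟨i, F, ⟨hF1, hF2⟩, ?_⟩
  intro x
  rw [hF3]
  have h1 := abs_le.1 (hG4 (x.1 i) (x.1 i).2)
  have h2 := abs_le.1 (hHa x)
  rw [abs_le]
  constructor <;> linarith [h1.1, h1.2, h2.1, h2.2]

theorem approx_seq (g : ℕ → unitInterval → unitInterval) 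
    (hg : ∀ k, Continuous (g k) ∧ IsOpenMap (g k)) (φ : IL g → unitInterval) (hφ : Continuous φ)
    (hconf : Confl φ) :
    ∃ F : ℕ → unitInterval → unitInterval, (∀ i, Continuous (F i) ∧ IsOpenMap (F i)) ∧
      TendstoUniformly (fun (i : ℕ) (x : IL g) => F i (x.1 i)) φ atTop := by
  -- A i n : approximation at stage i within 1/(n+1)
  let A : ℕ → ℕ → Prop := fun i n => ∃ F : unitInterval → unitInterval, 
    (Continuous F ∧ IsOpenMap F) ∧ ∀ x : IL g, |(F (x.1 i) : ℝ) - φ x| ≤ 1 / ((n : ℝ) + 1)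
  have hAmono : ∀ i j n, i ≤ j → A i n → A j n := by
    rintro i j n hij ⟨F, ⟨hF1, hF2⟩, hF3⟩
    obtain ⟨G, hG1, hG2, hG3⟩ := IL.lift g hg i j hij
    refine ⟨F ∘ G, ⟨hF1.comp hG1, hF2.comp hG2⟩, ?_⟩
    intro x
    have := hF3 x
    rw [hG3 x] at this
    exact this
  have hAex : ∀ n, ∃ i, A i n := by
    intro n
    exact approx_one g hg φ hφ hconf (1 / ((n : ℝ) + 1)) (by positivity)
  have hA0 : ∀ i, A i 0 := by
    intro i
    refine ⟨id, ⟨continuous_id, IsOpenMap.id⟩, ?_⟩
    intro x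
    rw [abs_le]
    have h1 := (x.1 i).2
    have h2 := (φ x).2
    simp only [id, CharP.cast_eq_zero, zero_add, div_one]
    constructor <;> linarith [h1.1, h1.2, h2.1, h2.2]
  have hchoose : ∀ i, ∃ F : unitInterval → unitInterval, (Continuous F ∧ IsOpenMap F) ∧ 
      ∀ n ≤ i, A i n → ∀ x : IL g, |(F (x.1 i) : ℝ) - φ x| ≤ 1 / ((n : ℝ) + 1) := by
    intro i
    classical
    have hspec : A i (Nat.findGreatest (fun n => A i n) i) := 
      Nat.findGreatest_spec (P := fun n => A i n) (Nat.zero_le i) (hA0 i)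
    obtain ⟨F, hF, hF'⟩ := hspec
    refine ⟨F, hF, ?_⟩
    intro n hn hAn x
    have hle : n ≤ Nat.findGreatest (fun n => A i n) i := Nat.le_findGreatest hn hAn
    refine (hF' x).trans ?_
    apply one_div_le_one_div_of_le
    · positivity
    · have : (n : ℝ) ≤ (Nat.findGreatest (fun n => A i n) i : ℕ) := by exact_mod_cast hle
      linarith
  choose F hF hF' using hchoose
  refine ⟨F, hF, ?_⟩
  rw [Metric.tendstoUniformly_iff]
  intro ε hε
  obtain ⟨n, hn⟩ := exists_nat_one_div_lt hε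
  obtain ⟨i0, hi0⟩ := hAex n
  filter_upwards [eventually_ge_atTop (max i0 n)] with i hi x
  have h1 := hF' i n ((le_max_right _ _).trans hi) (hAmono i0 i n ((le_max_left _ _).trans hi) hi0) x
  rw [dist_comm, Subtype.dist_eq, Real.dist_eq]
  exact lt_of_le_of_lt h1 hn

/-- For all inverse limits P, Q of arcs with open continuous bonding maps and every continuous f : P → Q, f is a coordinatewise uniform limit of open maps composed with projections iff f is confluent. -/
theorem result :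
    ∀ (g h : ℕ → unitInterval → unitInterval),
      (∀ k, Continuous (g k) ∧ IsOpenMap (g k)) →
      (∀ k, Continuous (h k) ∧ IsOpenMap (h k)) →
      ∀ f : {x : ℕ → unitInterval // ∀ k, x k = g k (x (k + 1))} →
            {y : ℕ → unitInterval // ∀ k, y k = h k (y (k + 1))},
        Continuous f →
        ((∀ j : ℕ, ∃ F : ℕ → unitInterval → unitInterval,
            (∀ i, Continuous (F i) ∧ IsOpenMap (F i)) ∧
            TendstoUniformly
              (fun (i : ℕ) (x : {x : ℕ → unitInterval // ∀ k, x k = g k (x (k + 1))}) =>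
                F i (x.1 i))
              (fun x => (f x).1 j) Filter.atTop)
          ↔
         (∀ K : Set {y : ℕ → unitInterval // ∀ k, y k = h k (y (k + 1))},
            IsClosed K → IsConnected K →
            ∀ x, f x ∈ K → f '' connectedComponentIn (f ⁻¹' K) x = K)) := by
  intro g h hg hh f hf
  have hcs := IL.compactSpace g (fun k => (hg k).1)
  constructor
  · intro happ
    have hco : Confl f := by
      apply confl_of_coords h hh f hf
      intro j
      obtain ⟨F, hF, hlim⟩ := happ j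
      apply Confl.of_uniform_limit _ _ ((IL.proj_cont h j).comp hf) _ hlim
      intro n
      exact (IL.confl_proj g hg n).comp (Confl.of_isOpenMap (hF n).1 (hF n).2) (hF n).1
    exact hco
  · intro hco j
    have hco' : Confl f := hco
    have hφ : Confl (fun x => (f x).1 j) := hco'.comp (IL.confl_proj h hh j) (IL.proj_cont h j)
    exact approx_seq g hg _ ((IL.proj_cont h j).comp hf) hφ

end Pool.Agent.S08155
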