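import Pool.Statements.S08165

set_option autoImplicit false
open Filter Topology
open Pool Pool.MP_1a07a1_gt

namespace Pool.Agent.S08165

theorem exists_homeo_real (f : ℝ → ℝ) (hf : Monotone f) {ε δ : ℝ} (hε : 0 < ε) (hδ : 0 < δ) :
    ∃ h : ℝ ≃ₜ ℝ, ∀ x, δ * x + f x ≤ h x ∧ h x ≤ δ * x + f (x + ε) := by
  have hint : ∀ a b : ℝ, IntervalIntegrable f MeasureTheory.volume a b :=
    fun a b => hf.intervalIntegrable
  set A : ℝ → ℝ := fun x => (1/ε) * ∫ t in x..(x+ε), f t with hA
  have hlow : ∀ x, f x ≤ A x := by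
    intro x
    have h1 : ∫ t in x..(x+ε), f x ≤ ∫ t in x..(x+ε), f t := by
      apply intervalIntegral.integral_mono_on (by linarith) _ (hint _ _)
      · intro t ht; exact hf ht.1
      · exact intervalIntegrable_const
    rw [intervalIntegral.integral_const] at h1
    have h2 : (x + ε - x) • f x = ε * f x := by simp
    rw [h2] at h1
    simp only [hA]
    rw [one_div, ← div_eq_inv_mul, le_div_iff₀ hε]
    linarith
  have hupp : ∀ x, A x ≤ f (x + ε) := by
    intro x
    have h1 : ∫ t in x..(x+ε), f t ≤ ∫ t in x..(x+ε), f (x + ε) := by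
      apply intervalIntegral.integral_mono_on (by linarith) (hint _ _)
      · exact intervalIntegrable_const
      · intro t ht; exact hf ht.2
    rw [intervalIntegral.integral_const] at h1
    have h2 : (x + ε - x) • f (x + ε) = ε * f (x + ε) := by simp
    rw [h2] at h1
    simp only [hA]
    rw [one_div, ← div_eq_inv_mul, div_le_iff₀ hε]
    linarith
  have hmono : Monotone A := by
    intro x y hxy
    have e1 : ∀ z : ℝ, ∫ t in z..(z+ε), f t = ∫ t in (0:ℝ)..ε, f (t + z) := by
      intro z
      rw [intervalIntegral.integral_comp_add_right]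
      simp [add_comm]
    simp only [hA]
    rw [e1, e1]
    apply mul_le_mul_of_nonneg_left _ (by positivity)
    apply intervalIntegral.integral_mono_on hε.le
    · exact Monotone.intervalIntegrable (fun a b hab => hf (by linarith))
    · exact Monotone.intervalIntegrable (fun a b hab => hf (by linarith))
    · intro t _; exact hf (by linarith)
  have hcont : Continuous A := by
    have h1 := intervalIntegral.continuous_primitive (μ := MeasureTheory.volume) hint 0
    have h2 : A = fun x => (1/ε) * ((∫ t in (0:ℝ)..(x+ε), f t) - ∫ t in (0:ℝ)..x, f t) := by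
      funext x
      simp only [hA]
      rw [intervalIntegral.integral_interval_sub_left (hint _ _) (hint _ _)]
    rw [h2]
    exact continuous_const.mul ((h1.comp (continuous_id.add continuous_const)).sub h1)
  set g : ℝ → ℝ := fun x => δ * x + A x with hg
  have hgm : StrictMono g := by
    intro x y hxy
    have := hmono hxy.le
    have h3 : δ * x < δ * y := mul_lt_mul_of_pos_left hxy hδ
    simp only [hg]; linarith
  have hgc : Continuous g := (continuous_const.mul continuous_id).add hcont
  have hgs : Function.Surjective g := by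
    apply hgc.surjective
    · have h1 : Tendsto (fun x : ℝ => δ * x + A 0) atTop atTop :=
        tendsto_atTop_add_const_right _ _ (tendsto_id.const_mul_atTop hδ)
      refine tendsto_atTop_mono' _ ?_ h1
      filter_upwards [eventually_ge_atTop 0] with x hx
      have := hmono hx
      simp only [hg]; linarith
    · have h1 : Tendsto (fun x : ℝ => δ * x + A 0) atBot atBot :=
        tendsto_atBot_add_const_right _ _ (tendsto_id.const_mul_atBot hδ)
      refine tendsto_atBot_mono' _ ?_ h1
      filter_upwards [eventually_le_atBot 0] with x hx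
      have := hmono hx
      simp only [hg]; linarith
  refine ⟨(StrictMono.orderIsoOfSurjective g hgm hgs).toHomeomorph, fun x => ?_⟩
  have : (StrictMono.orderIsoOfSurjective g hgm hgs).toHomeomorph x = g x := rfl
  rw [this]
  constructor
  · have := hlow x; simp only [hg]; linarith
  · have := hupp x; simp only [hg]; linarith

/-- extension of a homeomorphism of `X` to a homeomorphism of `S`, a one-point compactification. -/
noncomputable def ext {X S : Type*} [TopologicalSpace X] [TopologicalSpace S]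
    (e : OnePoint X ≃ₜ S) (h : X ≃ₜ X) : S ≃ₜ S :=
  (e.symm.trans h.onePointCongr).trans e

theorem ext_coe {X S : Type*} [TopologicalSpace X] [TopologicalSpace S]
    (e : OnePoint X ≃ₜ S) (h : X ≃ₜ X) (x : X) :
    ext e h (e (x : OnePoint X)) = e ((h x : X) : OnePoint X) := by
  simp [ext]

theorem ext_infty {X S : Type*} [TopologicalSpace X] [TopologicalSpace S]
    (e : OnePoint X ≃ₜ S) (h : X ≃ₜ X) :
    ext e h (e OnePoint.infty) = e OnePoint.infty := by
  simp [ext]

theorem core1 {S : Type*} [TopologicalSpace S]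
    (e : OnePoint ℝ ≃ₜ S) (C : Set S) (hC : IsClosed C) (h0 : e OnePoint.infty ∈ C) :
    ∃ H : ℕ → (S ≃ₜ S),
      (∀ p : S, ∃ q ∈ C, Tendsto (fun k : ℕ => H k p) atTop (𝓝 q)) ∧
      (∀ q ∈ C, ∃ p : S, Tendsto (fun k : ℕ => H k p) atTop (𝓝 q)) := by
  set K : Set ℝ := {x : ℝ | e (x : OnePoint ℝ) ∈ C} with hK
  have hKc : IsClosed K := hC.preimage (e.continuous.comp OnePoint.continuous_coe)
  rcases K.eq_empty_or_nonempty with hKe | hKn
  · -- shift to infinity
    have hlim : ∀ x : ℝ, Tendsto (fun k : ℕ => ((x + k : ℝ) : OnePoint ℝ)) atTop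
        (𝓝 OnePoint.infty) := by
      intro x
      have h1 : Tendsto ((↑) : ℝ → OnePoint ℝ) (coclosedCompact ℝ) (𝓝 OnePoint.infty) :=
        OnePoint.tendsto_coe_infty
      have h2 : Tendsto (fun k : ℕ => (x + k : ℝ)) atTop (coclosedCompact ℝ) := by
        rw [coclosedCompact_eq_cocompact]
        have h3 : Tendsto (fun k : ℕ => (x + k : ℝ)) atTop atTop :=
          tendsto_atTop_add_const_left _ _ tendsto_natCast_atTop_atTop
        exact h3.mono_right (by rw [cocompact_eq_atBot_atTop]; exact le_sup_right)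
      exact h1.comp h2
    refine ⟨fun k => ext e (Homeomorph.addRight (k : ℝ)), ?_, ?_⟩
    · intro p
      refine ⟨e OnePoint.infty, h0, ?_⟩
      obtain ⟨z, rfl⟩ := e.surjective p
      induction z using OnePoint.rec with
      | infty => simp only [ext_infty]; exact tendsto_const_nhds
      | coe x =>
        simp only [ext_coe, Homeomorph.coe_addRight]
        exact (e.continuous.tendsto _).comp (hlim x)
    · intro q hq
      obtain ⟨z, rfl⟩ := e.surjective q
      induction z using OnePoint.rec with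
      | infty => exact ⟨e OnePoint.infty, by simp only [ext_infty]; exact tendsto_const_nhds⟩
      | coe x =>
        exfalso
        have : x ∈ K := hq
        rw [hKe] at this
        exact this
  · classical
    set f : ℝ → ℝ := fun x => if (K ∩ Set.Iic x).Nonempty then sSup (K ∩ Set.Iic x) else sInf K
      with hf
    have hbdd : ∀ x, BddAbove (K ∩ Set.Iic x) := fun x => ⟨x, fun y hy => hy.2⟩
    have hmem1 : ∀ x, (K ∩ Set.Iic x).Nonempty → sSup (K ∩ Set.Iic x) ∈ K ∩ Set.Iic x :=
      fun x hx => (hKc.inter isClosed_Iic).csSup_mem hx (hbdd x)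
    have hbelow : ∀ x, ¬ (K ∩ Set.Iic x).Nonempty → BddBelow K := by
      intro x hx
      refine ⟨x, fun y hy => ?_⟩
      by_contra hlt
      exact hx ⟨y, hy, le_of_lt (not_le.mp hlt)⟩
    have hfK : ∀ x, f x ∈ K := by
      intro x
      by_cases hx : (K ∩ Set.Iic x).Nonempty
      · simp only [hf, if_pos hx]; exact (hmem1 x hx).1
      · simp only [hf, if_neg hx]; exact hKc.csInf_mem hKn (hbelow x hx)
    have hfle : ∀ x, (K ∩ Set.Iic x).Nonempty → f x ≤ x := by
      intro x hx
      simp only [hf, if_pos hx]; exact (hmem1 x hx).2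
    have hfid : ∀ x ∈ K, f x = x := by
      intro x hx
      have hne : (K ∩ Set.Iic x).Nonempty := ⟨x, hx, le_refl x⟩
      apply le_antisymm (hfle x hne)
      simp only [hf, if_pos hne]
      exact le_csSup (hbdd x) ⟨hx, le_refl x⟩
    have hfmono : Monotone f := by
      intro x y hxy
      by_cases hx : (K ∩ Set.Iic x).Nonempty
      · have hy : (K ∩ Set.Iic y).Nonempty :=
          hx.mono (Set.inter_subset_inter_right _ (Set.Iic_subset_Iic.mpr hxy))
        simp only [hf, if_pos hx, if_pos hy]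
        exact csSup_le_csSup (hbdd y) hx
          (Set.inter_subset_inter_right _ (Set.Iic_subset_Iic.mpr hxy))
      · have h1 : f x = sInf K := by simp only [hf, if_neg hx]
        rw [h1]
        exact csInf_le (hbelow x hx) (hfK y)
    have hpos : ∀ k : ℕ, (0:ℝ) < 1 / ((k:ℝ) + 1) := fun k => by positivity
    have hz : Tendsto (fun k : ℕ => 1 / ((k:ℝ) + 1)) atTop (𝓝 0) :=
      tendsto_one_div_add_atTop_nhds_zero_nat
    choose h hh using fun k : ℕ => exists_homeo_real f hfmono (hpos k) (hpos k)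
    have hright : ∀ x, Tendsto (fun k : ℕ => f (x + 1 / ((k:ℝ) + 1))) atTop (𝓝 (f x)) := by
      intro x
      by_cases hxK : x ∈ K
      · rw [hfid x hxK]
        have h1 : Tendsto (fun k : ℕ => x + 1 / ((k:ℝ) + 1)) atTop (𝓝 x) := by
          have := hz.const_add x
          simpa using this
        refine tendsto_of_tendsto_of_tendsto_of_le_of_le tendsto_const_nhds h1 ?_ ?_
        · intro k
          have := hfmono (show x ≤ x + 1 / ((k:ℝ) + 1) by have := hpos k; linarith)
          rw [hfid x hxK] at this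
          exact this
        · intro k
          apply hfle
          exact ⟨x, hxK, by have := hpos k; simp only [Set.mem_Iic]; linarith⟩
      · have hev : ∀ᶠ k : ℕ in atTop, f (x + 1 / ((k:ℝ) + 1)) = f x := by
          obtain ⟨η, hη, hball⟩ := Metric.isOpen_iff.mp hKc.isOpen_compl x hxK
          have h1 : ∀ᶠ k : ℕ in atTop, 1 / ((k:ℝ) + 1) < η := hz.eventually (gt_mem_nhds hη)
          filter_upwards [h1] with k hk
          have h2 : K ∩ Set.Iic (x + 1 / ((k:ℝ) + 1)) = K ∩ Set.Iic x := by
            ext y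
            simp only [Set.mem_inter_iff, Set.mem_Iic]
            constructor
            · rintro ⟨hy, hy2⟩
              refine ⟨hy, ?_⟩
              by_contra hlt
              push Not at hlt
              apply hball _ hy
              rw [Metric.mem_ball, Real.dist_eq, abs_lt]
              constructor <;> linarith
            · rintro ⟨hy, hy2⟩
              exact ⟨hy, by have := hpos k; linarith⟩
          simp only [hf, h2]
        exact tendsto_const_nhds.congr' (hev.mono fun k hk => hk.symm)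
    have hconv : ∀ x, Tendsto (fun k : ℕ => h k x) atTop (𝓝 (f x)) := by
      intro x
      have h1 : Tendsto (fun k : ℕ => 1 / ((k:ℝ) + 1) * x + f x) atTop (𝓝 (f x)) := by
        have := (hz.mul_const x).add_const (f x)
        simpa using this
      have h2 : Tendsto (fun k : ℕ => 1 / ((k:ℝ) + 1) * x + f (x + 1 / ((k:ℝ) + 1))) atTop
          (𝓝 (f x)) := by
        have := (hz.mul_const x).add (hright x)
        simpa using this
      exact tendsto_of_tendsto_of_tendsto_of_le_of_le h1 h2 (fun k => (hh k x).1)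
        (fun k => (hh k x).2)
    refine ⟨fun k => ext e (h k), ?_, ?_⟩
    · intro p
      obtain ⟨z, rfl⟩ := e.surjective p
      induction z using OnePoint.rec with
      | infty =>
        refine ⟨e OnePoint.infty, h0, ?_⟩
        simp only [ext_infty]; exact tendsto_const_nhds
      | coe x =>
        refine ⟨e ((f x : ℝ) : OnePoint ℝ), hfK x, ?_⟩
        simp only [ext_coe]
        exact ((e.continuous.comp OnePoint.continuous_coe).tendsto _).comp (hconv x)
    · intro q hq
      obtain ⟨z, rfl⟩ := e.surjective q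
      induction z using OnePoint.rec with
      | infty => exact ⟨e OnePoint.infty, by simp only [ext_infty]; exact tendsto_const_nhds⟩
      | coe x =>
        refine ⟨e (x : OnePoint ℝ), ?_⟩
        simp only [ext_coe]
        have := hconv x
        rw [hfid x hq] at this
        exact ((e.continuous.comp OnePoint.continuous_coe).tendsto _).comp this

def shearA {A B : Type*} [TopologicalSpace A] [TopologicalSpace B] [AddCommGroup B]
    [IsTopologicalAddGroup B] (u : C(A, B)) : (A × B) ≃ₜ (A × B) where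
  toFun p := (p.1, p.2 + u p.1)
  invFun p := (p.1, p.2 - u p.1)
  left_inv p := by ext <;> simp
  right_inv p := by ext <;> simp
  continuous_toFun := by fun_prop
  continuous_invFun := by fun_prop

def shearB {A B : Type*} [TopologicalSpace A] [TopologicalSpace B] [AddCommGroup A]
    [IsTopologicalAddGroup A] (v : C(B, A)) : (A × B) ≃ₜ (A × B) where
  toFun p := (p.1 + v p.2, p.2)
  invFun p := (p.1 - v p.2, p.2)
  left_inv p := by ext <;> simp
  right_inv p := by ext <;> simp
  continuous_toFun := by fun_prop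
  continuous_invFun := by fun_prop

theorem exists_interp {V : Type*} [NormedAddCommGroup V] [NormedSpace ℝ V] (N : ℕ) (a : ℕ → ℝ)
    (ha : ∀ i < N, ∀ l < N, a i = a l → i = l) (b : ℕ → V) :
    ∃ u : C(ℝ, V), ∀ i < N, u (a i) = b i := by
  classical
  refine ⟨⟨fun x => ∑ i ∈ Finset.range N, (Lagrange.basis (Finset.range N) a i).eval x • b i,
    by fun_prop⟩, ?_⟩
  intro i hi
  have hinj : Set.InjOn a (Finset.range N : Set ℕ) := by
    intro x hx y hy hxy
    exact ha x (by simpa using hx) y (by simpa using hy) hxy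
  simp only [ContinuousMap.coe_mk]
  rw [Finset.sum_eq_single i]
  · rw [Lagrange.eval_basis_self hinj (by simpa using hi), one_smul]
  · intro l hl hli
    rw [Lagrange.eval_basis_of_ne hli (by simpa using hi), zero_smul]
  · intro h; exact absurd (by simpa using hi) h

theorem exists_points {G : Type*} [NormedAddCommGroup G] [NormedSpace ℝ G] {S : Type*}
    [MetricSpace S] (j : ℝ × ℝ × G → S) (hj : Continuous j) (hd : DenseRange j)
    (T : ℕ → S) {η : ℝ} (hη : 0 < η) (N : ℕ) :
    ∃ q : ℕ → ℝ × ℝ × G, (∀ i < N, dist (j (q i)) (T i) < η) ∧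
      (∀ i < N, ∀ l < N, (q i).2.1 = (q l).2.1 → i = l) := by
  induction N with
  | zero => exact ⟨fun _ => 0, by simp, by simp⟩
  | succ N ih =>
    obtain ⟨q, h1, h2⟩ := ih
    set U : Set (ℝ × ℝ × G) := {p | dist (j p) (T N) < η} with hU
    have hUo : IsOpen U := isOpen_lt (by fun_prop) continuous_const
    have hUn : U.Nonempty := by
      obtain ⟨y, hy⟩ := hd.exists_dist_lt (T N) hη
      exact ⟨y, by show dist (j y) (T N) < η; rw [dist_comm]; exact hy⟩
    have himg : IsOpen ((fun p : ℝ × ℝ × G => p.2.1) '' U) := by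
      have : IsOpenMap (fun p : ℝ × ℝ × G => p.2.1) := isOpenMap_fst.comp isOpenMap_snd
      exact this U hUo
    have hfin : ((fun i => (q i).2.1) '' (Set.Iio N)).Finite := (Set.finite_Iio N).image _
    obtain ⟨t, ht1, ht2⟩ := (hfin.countable.dense_compl ℝ).inter_open_nonempty _ himg (hUn.image _)
    obtain ⟨p, hp, hpt⟩ := ht1
    have hpt' : p.2.1 = t := hpt
    have hne : ∀ i < N, (q i).2.1 ≠ p.2.1 := by
      intro i hi heq
      apply ht2
      exact ⟨i, hi, by simp only; rw [heq, hpt']⟩
    refine ⟨fun i => if i = N then p else q i, ?_, ?_⟩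
    · intro i hi
      by_cases hiN : i = N
      · subst hiN
        simp only [if_true]
        exact hp
      · simp only [if_neg hiN]; exact h1 i (by omega)
    · intro i hi l hl
      by_cases hiN : i = N <;> by_cases hlN : l = N
      · intro _; omega
      · intro h
        simp only [if_pos hiN, if_neg hlN] at h
        exact absurd h.symm (hne l (by omega))
      · intro h
        simp only [if_neg hiN, if_pos hlN] at h
        exact absurd h (hne i (by omega))
      · intro h
        simp only [if_neg hiN, if_neg hlN] at h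
        exact h2 i (by omega) l (by omega) h

theorem exists_steer {G : Type*} [NormedAddCommGroup G] [NormedSpace ℝ G] {S : Type*}
    [MetricSpace S] (j : ℝ × ℝ × G → S) (hj : Continuous j) (hd : DenseRange j)
    (T : ℕ → S) {η : ℝ} (hη : 0 < η) (N : ℕ) :
    ∃ Ψ : (ℝ × ℝ × G) ≃ₜ (ℝ × ℝ × G), ∃ ρ : ℝ, 0 < ρ ∧
      ∀ i < N, ∀ s : ℝ, ∀ w : ℝ × G, |s - i| < ρ → ‖w‖ < ρ →
        dist (j (Ψ (s, w))) (T i) < η := by
  obtain ⟨q, hq1, hq2⟩ := exists_points j hj hd T hη N
  obtain ⟨u, hu⟩ := exists_interp N (fun i => (i : ℝ))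
    (fun i _ l _ h => by exact_mod_cast h) (fun i => (q i).2)
  obtain ⟨v, hv⟩ := exists_interp N (fun i => (q i).2.1) hq2 (fun i => (q i).1 - (i : ℝ))
  set v' : C(ℝ × G, ℝ) := v.comp ⟨fun w => w.1, continuous_fst⟩ with hv'
  set Ψ : (ℝ × ℝ × G) ≃ₜ (ℝ × ℝ × G) := (shearA u).trans (shearB v') with hΨ
  have hval : ∀ i < N, Ψ ((i : ℝ), 0) = q i := by
    intro i hi
    have h1 : Ψ ((i : ℝ), 0) = ((i : ℝ) + v ((0 + u (i:ℝ)).1), 0 + u (i:ℝ)) := rfl
    have h2 : u (i:ℝ) = (q i).2 := hu i hi
    have h3 : v ((q i).2.1) = (q i).1 - (i : ℝ) := hv i hi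
    rw [h1, zero_add, h2, h3]
    ext <;> simp
  have hcont : Continuous (fun p : ℝ × ℝ × G => j (Ψ p)) := hj.comp Ψ.continuous
  have hev : ∀ i ∈ Finset.range N, ∀ᶠ ρ in 𝓝[>] (0:ℝ), ∀ s : ℝ, ∀ w : ℝ × G, |s - i| < ρ →
      ‖w‖ < ρ → dist (j (Ψ (s, w))) (T i) < η := by
    intro i hi
    have hi' : i < N := by simpa using hi
    have hopen : IsOpen {p : ℝ × ℝ × G | dist (j (Ψ p)) (T i) < η} :=
      isOpen_lt (by fun_prop) continuous_const
    have hmem : ((i : ℝ), (0 : ℝ × G)) ∈ {p : ℝ × ℝ × G | dist (j (Ψ p)) (T i) < η} := by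
      show dist (j (Ψ ((i : ℝ), (0 : ℝ × G)))) (T i) < η
      rw [hval i hi']
      exact hq1 i hi'
    obtain ⟨r, hr, hball⟩ := Metric.isOpen_iff.mp hopen _ hmem
    filter_upwards [Ioo_mem_nhdsGT hr] with ρ hρ s w hs hw
    apply hball
    rw [Metric.mem_ball, Prod.dist_eq, max_lt_iff]
    constructor
    · simp only [Real.dist_eq]; exact hs.trans hρ.2
    · simp only [dist_zero_right]; exact hw.trans hρ.2
  have hall := (Finset.range N).eventually_all.mpr hev
  obtain ⟨ρ, hρ1, hρ2⟩ := (hall.and self_mem_nhdsWithin).exists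
  exact ⟨Ψ, ρ, hρ2, fun i hi s w hs hw => hρ1 i (by simpa using hi) s w hs hw⟩

/-- the orbit of `x` under the expanding map `x ↦ 3x` (for `x < 2/3`), `3x - 2` (otherwise) -/
noncomputable def orb (x : ℝ) : ℕ → ℝ
  | 0 => x
  | k+1 => if 2/3 ≤ orb x k then 3 * orb x k - 2 else 3 * orb x k

noncomputable def dig (x : ℝ) (k : ℕ) : Bool := decide (2/3 ≤ orb x k)

noncomputable def cnt (x : ℝ) : ℕ → ℕ
  | 0 => 0
  | k+1 => if 2/3 ≤ orb x k then 2 * cnt x k + 1 else 2 * cnt x k

def bits : ℕ → ℕ → (ℕ → Bool)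
  | 0, _ => fun _ => false
  | k+1, i => fun l => if l = k then decide (i % 2 = 1) else bits k (i/2) l

theorem bits_cnt (x : ℝ) (k : ℕ) : ∀ l, bits k (cnt x k) l = if l < k then dig x l else false := by
  induction k with
  | zero => intro l; simp [bits]
  | succ k ih =>
    intro l
    by_cases hlk : l = k
    · subst hlk
      by_cases h : 2/3 ≤ orb x l
      · simp [bits, cnt, dig, h]
      · simp [bits, cnt, dig, h]
    · have h1 : cnt x (k+1) / 2 = cnt x k := by
        by_cases h : 2/3 ≤ orb x k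
        · simp only [cnt, if_pos h]; omega
        · simp only [cnt, if_neg h]; omega
      simp only [bits, if_neg hlk, h1]
      rw [ih l]
      by_cases h2 : l < k
      · rw [if_pos h2, if_pos (by omega)]
      · rw [if_neg h2, if_neg (by omega)]

theorem cnt_lt (x : ℝ) (k : ℕ) : cnt x k < 2 ^ k := by
  induction k with
  | zero => simp [cnt]
  | succ k ih =>
    rw [pow_succ]
    by_cases h : 2/3 ≤ orb x k
    · simp only [cnt, if_pos h]; omega
    · simp only [cnt, if_neg h]; omega

theorem cnt_mono_aux {x y : ℝ} (hxy : x ≤ y) (k : ℕ) :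
    cnt x k < cnt y k ∨ (cnt x k = cnt y k ∧ orb y k - orb x k = 3 ^ k * (y - x)) := by
  induction k with
  | zero => right; simp [cnt, orb]
  | succ k ih =>
    rcases ih with h | ⟨h1, h2⟩
    · left
      by_cases hx : 2/3 ≤ orb x k <;> by_cases hy : 2/3 ≤ orb y k
      · simp only [cnt, if_pos hx, if_pos hy]; omega
      · simp only [cnt, if_pos hx, if_neg hy]; omega
      · simp only [cnt, if_neg hx, if_pos hy]; omega
      · simp only [cnt, if_neg hx, if_neg hy]; omega
    · have h3 : 0 ≤ 3 ^ k * (y - x) := mul_nonneg (by positivity) (by linarith)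
      have h4 : (3:ℝ) ^ (k+1) * (y - x) = 3 * (3 ^ k * (y - x)) := by ring
      by_cases hx : 2/3 ≤ orb x k <;> by_cases hy : 2/3 ≤ orb y k
      · right
        simp only [cnt, orb, if_pos hx, if_pos hy]
        refine ⟨by omega, by rw [h4, ← h2]; ring⟩
      · exfalso; linarith
      · left
        simp only [cnt, if_neg hx, if_pos hy]; omega
      · right
        simp only [cnt, orb, if_neg hx, if_neg hy]
        refine ⟨by omega, by rw [h4, ← h2]; ring⟩

theorem cnt_mono (k : ℕ) : Monotone (fun x => (cnt x k : ℝ)) := by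
  intro x y hxy
  rcases cnt_mono_aux hxy k with h | ⟨h, _⟩
  · simp only; exact_mod_cast h.le
  · simp only; exact_mod_cast h.le

theorem cnt_shift (x ε : ℝ) (hε : 0 ≤ ε) (k : ℕ)
    (h : ∀ l < k, ¬ (orb x l < 2/3 ∧ 2/3 ≤ orb x l + 3 ^ l * ε)) :
    ∀ i ≤ k, cnt (x + ε) i = cnt x i ∧ orb (x + ε) i = orb x i + 3 ^ i * ε := by
  intro i
  induction i with
  | zero => intro _; simp [cnt, orb]
  | succ i ih =>
    intro hi
    obtain ⟨h1, h2⟩ := ih (by omega)
    have h3 := h i (by omega)
    have h5 : 0 ≤ 3 ^ i * ε := mul_nonneg (by positivity) hε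
    by_cases hx : 2/3 ≤ orb x i
    · have hy : 2/3 ≤ orb (x + ε) i := by rw [h2]; linarith
      simp only [cnt, orb, if_pos hx, if_pos hy]
      refine ⟨by omega, ?_⟩
      rw [h2]; ring
    · have hy : ¬ 2/3 ≤ orb (x + ε) i := by
        rw [h2]; intro h4; exact h3 ⟨not_le.mp hx, h4⟩
      simp only [cnt, orb, if_neg hx, if_neg hy]
      refine ⟨by omega, ?_⟩
      rw [h2]; ring

theorem orb_ge_one (x : ℝ) (l : ℕ) (h : 1 ≤ orb x l) : ∀ m, 1 ≤ orb x (l + m) := by
  intro m
  induction m with
  | zero => simpa using h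
  | succ m ih =>
    have h1 : 2/3 ≤ orb x (l + m) := by linarith
    rw [← add_assoc]
    simp only [orb, if_pos h1]
    linarith

theorem orb_special (x : ℝ) (l m : ℕ) (h : 1/2 ≤ orb x l) (h' : orb x l < 2/3) (hlm : l < m) :
    1 ≤ orb x m := by
  obtain ⟨d, rfl⟩ := Nat.exists_eq_add_of_lt hlm
  have h1 : 1 ≤ orb x (l + 1) := by
    simp only [orb, if_neg (not_le.mpr h')]; linarith
  have := orb_ge_one x (l+1) h1 d
  rw [show l + d + 1 = l + 1 + d by ring]
  exact this

theorem cnt_eventually (x : ℝ) : ∀ᶠ k : ℕ in atTop, cnt (x + (1/3) ^ k / 2) k = cnt x k := by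
  have key : ∀ k l : ℕ, l < k → 2/3 ≤ orb x l + 3 ^ l * ((1/3:ℝ) ^ k / 2) → 1/2 ≤ orb x l := by
    intro k l hlk h
    obtain ⟨d, rfl⟩ := Nat.exists_eq_add_of_lt hlk
    have h1 : (3:ℝ) ^ l * ((1/3:ℝ) ^ (l + d + 1) / 2) = (1/3) ^ d * (1/6) := by
      rw [pow_succ, pow_add, one_div, inv_pow, inv_pow]
      field_simp
      norm_num
    have h2 : (1/3:ℝ) ^ d ≤ 1 := pow_le_one₀ (by norm_num) (by norm_num)
    rw [h1] at h
    linarith
  have hfin : ∀ k : ℕ, (∀ l < k, ¬ (orb x l < 2/3 ∧ 2/3 ≤ orb x l + 3 ^ l * ((1/3:ℝ) ^ k / 2))) →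
      cnt (x + (1/3) ^ k / 2) k = cnt x k := by
    intro k hk
    exact (cnt_shift x _ (by positivity) k hk k le_rfl).1
  by_cases h : ∃ l, 1/2 ≤ orb x l ∧ orb x l < 2/3
  · obtain ⟨l, hl1, hl2⟩ := h
    have h1 : Tendsto (fun k : ℕ => (3:ℝ) ^ l * ((1/3:ℝ) ^ k / 2)) atTop (𝓝 0) := by
      have := ((tendsto_pow_atTop_nhds_zero_of_lt_one (r := (1/3:ℝ)) (by norm_num)
        (by norm_num)).div_const 2).const_mul ((3:ℝ)^l)
      simpa using this
    have h2 : ∀ᶠ k : ℕ in atTop, (3:ℝ) ^ l * ((1/3:ℝ) ^ k / 2) < 2/3 - orb x l :=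
      h1.eventually (gt_mem_nhds (by linarith))
    filter_upwards [h2] with k hk
    apply hfin
    rintro l' hl' ⟨h3, h4⟩
    have h5 := key k l' hl' h4
    rcases lt_trichotomy l l' with h6 | h6 | h6
    · have := orb_special x l l' hl1 hl2 h6
      linarith
    · subst h6; linarith
    · have := orb_special x l' l h5 h3 h6
      linarith
  · refine Eventually.of_forall fun k => ?_
    apply hfin
    rintro l' hl' ⟨h3, h4⟩
    exact h ⟨l', key k l' hl' h4, h3⟩

theorem cantor_bound (b : ℕ → Bool) :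
    0 ≤ (2/3) * Cardinal.cantorFunction (1/3) b ∧ (2/3) * Cardinal.cantorFunction (1/3) b ≤ 1 := by
  constructor
  · apply mul_nonneg (by norm_num)
    exact tsum_nonneg fun n => Cardinal.cantorFunctionAux_nonneg (by norm_num)
  · have h1 : Cardinal.cantorFunction (1/3) b ≤ Cardinal.cantorFunction (1/3) (fun _ => true) :=
      Cardinal.cantorFunction_le (by norm_num) (by norm_num) (fun _ _ => rfl)
    have h2 : Cardinal.cantorFunction (1/3) (fun _ => true) = 3/2 := by
      have := Cardinal.cantorFunction_succ (c := 1/3) (fun _ => true) (by norm_num) (by norm_num)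
      simp only [cond_true] at this
      linarith
    linarith

theorem orb_cantor (k : ℕ) : ∀ b : ℕ → Bool,
    orb ((2/3) * Cardinal.cantorFunction (1/3) b) k =
      (2/3) * Cardinal.cantorFunction (1/3) (fun n => b (n + k)) := by
  intro b
  induction k with
  | zero => simp [orb]
  | succ k ih =>
    have h1 := Cardinal.cantorFunction_succ (c := 1/3) (fun n => b (n + k)) (by norm_num)
      (by norm_num)
    have h2 : (fun n => (fun n => b (n + k)) (n + 1)) = fun n => b (n + (k + 1)) := by
      funext n; simp only; congr 1; ring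
    rw [h2] at h1
    simp only [zero_add] at h1
    have h3 := cantor_bound (fun n => b (n + (k+1)))
    cases hb : b k
    · rw [hb] at h1
      simp only [cond_false, zero_add] at h1
      have h4 : ¬ 2/3 ≤ orb ((2/3) * Cardinal.cantorFunction (1/3) b) k := by
        rw [ih, h1]; push Not; linarith
      simp only [orb, if_neg h4]
      rw [ih, h1]; ring
    · rw [hb] at h1
      simp only [cond_true] at h1
      have h4 : 2/3 ≤ orb ((2/3) * Cardinal.cantorFunction (1/3) b) k := by
        rw [ih, h1]; linarith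
      simp only [orb, if_pos h4]
      rw [ih, h1]; ring

theorem dig_surj (b : ℕ → Bool) : ∃ x, dig x = b := by
  refine ⟨(2/3) * Cardinal.cantorFunction (1/3) b, ?_⟩
  funext k
  have h1 := Cardinal.cantorFunction_succ (c := 1/3) (fun n => b (n + k)) (by norm_num)
    (by norm_num)
  have h2 : (fun n => (fun n => b (n + k)) (n + 1)) = fun n => b (n + (k + 1)) := by
    funext n; simp only; congr 1; ring
  rw [h2] at h1
  simp only [zero_add] at h1
  have h3 := cantor_bound (fun n => b (n + (k+1)))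
  simp only [dig]
  rw [orb_cantor]
  cases hb : b k
  · rw [hb] at h1
    simp only [cond_false, zero_add] at h1
    rw [decide_eq_false_iff_not, h1]; push Not; linarith
  · rw [hb] at h1
    simp only [cond_true] at h1
    rw [decide_eq_true_iff, h1]; linarith

theorem bits_tendsto (x : ℝ) : Tendsto (fun k => bits k (cnt x k)) atTop (𝓝 (dig x)) := by
  rw [tendsto_pi_nhds]
  intro l
  apply tendsto_const_nhds.congr'
  filter_upwards [eventually_gt_atTop l] with k hk
  rw [bits_cnt, if_pos hk]

theorem core2 {G : Type*} [NormedAddCommGroup G] [NormedSpace ℝ G] {S : Type*} [MetricSpace S]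
    [CompactSpace S] (e : OnePoint (ℝ × ℝ × G) ≃ₜ S) (C : Set S) (hC : IsClosed C)
    (h0 : e OnePoint.infty ∈ C) :
    ∃ H : ℕ → (S ≃ₜ S),
      (∀ p : S, ∃ q ∈ C, Tendsto (fun k : ℕ => H k p) atTop (𝓝 q)) ∧
      (∀ q ∈ C, ∃ p : S, Tendsto (fun k : ℕ => H k p) atTop (𝓝 q)) := by
  have : CompactSpace C := isCompact_iff_compactSpace.mp hC.isCompact
  have : Nonempty C := ⟨⟨_, h0⟩⟩
  obtain ⟨φ, hφc, hφs⟩ := exists_nat_bool_continuous_surjective_of_compact C
  set j : ℝ × ℝ × G → S := fun p => e (p : OnePoint (ℝ × ℝ × G)) with hj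
  have hjc : Continuous j := e.continuous.comp OnePoint.continuous_coe
  have : NoncompactSpace (ℝ × ℝ × G) := inferInstance
  have hjd : DenseRange j :=
    e.surjective.denseRange.comp OnePoint.denseRange_coe e.continuous
  have hpos : ∀ k : ℕ, (0:ℝ) < 1 / ((k:ℝ) + 1) := fun k => by positivity
  have hz : Tendsto (fun k : ℕ => 1 / ((k:ℝ) + 1)) atTop (𝓝 0) :=
    tendsto_one_div_add_atTop_nhds_zero_nat
  choose Ψ ρ hρ hΨ using fun k : ℕ => exists_steer j hjc hjd
    (fun i => ((φ (bits k i) : C) : S)) (hpos k) (2 ^ k)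
  have hδ : ∀ k : ℕ, 0 < ρ k * (1 / ((k:ℝ) + 1)) := fun k => mul_pos (hρ k) (hpos k)
  have hε : ∀ k : ℕ, (0:ℝ) < (1/3) ^ k / 2 := fun k => by positivity
  choose lam hlam using fun k : ℕ => exists_homeo_real (fun x => (cnt x k : ℝ)) (cnt_mono k)
    (hε k) (hδ k)
  have hmain : ∀ (x : ℝ) (w : ℝ × G), Tendsto (fun k : ℕ =>
      ext e (((lam k).prodCongr
        (Homeomorph.smulOfNeZero (ρ k * (1 / ((k:ℝ) + 1))) (hδ k).ne')).trans (Ψ k))
        (j (x, w))) atTop (𝓝 ((φ (dig x) : C) : S)) := by
    intro x w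
    have hT : Tendsto (fun k : ℕ => ((φ (bits k (cnt x k)) : C) : S)) atTop
        (𝓝 ((φ (dig x) : C) : S)) :=
      ((continuous_subtype_val.comp hφc).tendsto _).comp (bits_tendsto x)
    rw [tendsto_iff_dist_tendsto_zero]
    rw [tendsto_iff_dist_tendsto_zero] at hT
    have hsum := hz.add hT
    rw [add_zero] at hsum
    refine squeeze_zero' (Eventually.of_forall fun k => dist_nonneg) ?_ hsum
    obtain ⟨n1, hn1⟩ := exists_nat_gt |x|
    obtain ⟨n2, hn2⟩ := exists_nat_gt ‖w‖
    filter_upwards [cnt_eventually x, eventually_ge_atTop n1, eventually_ge_atTop n2] with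
      k hk hk1 hk2
    have hk1' : (n1 : ℝ) ≤ k := by exact_mod_cast hk1
    have hk2' : (n2 : ℝ) ≤ k := by exact_mod_cast hk2
    have hfrac : ∀ a : ℝ, a < k → ρ k * (1 / ((k:ℝ) + 1)) * a < ρ k := by
      intro a ha
      have h1 : 1 / ((k:ℝ) + 1) * a < 1 := by
        rw [one_div, inv_mul_lt_iff₀ (by positivity)]; linarith
      have h2 := mul_lt_mul_of_pos_left h1 (hρ k)
      rw [mul_one] at h2
      rw [mul_assoc]; exact h2
    have hval : lam k x = ρ k * (1 / ((k:ℝ) + 1)) * x + (cnt x k : ℝ) := by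
      obtain ⟨h1, h2⟩ := hlam k x
      rw [hk] at h2
      exact le_antisymm h2 h1
    have hs : |lam k x - (cnt x k : ℝ)| < ρ k := by
      rw [hval, add_sub_cancel_right, abs_mul, abs_of_pos (hδ k)]
      exact hfrac _ (by linarith)
    have hw : ‖(ρ k * (1 / ((k:ℝ) + 1))) • w‖ < ρ k := by
      rw [norm_smul, Real.norm_eq_abs, abs_of_pos (hδ k)]
      exact hfrac _ (by linarith)
    have hd := hΨ k (cnt x k) (cnt_lt x k) (lam k x) ((ρ k * (1 / ((k:ℝ) + 1))) • w) hs hw
    have heq : ext e (((lam k).prodCongr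
        (Homeomorph.smulOfNeZero (ρ k * (1 / ((k:ℝ) + 1))) (hδ k).ne')).trans (Ψ k))
        (j (x, w)) = j (Ψ k (lam k x, (ρ k * (1 / ((k:ℝ) + 1))) • w)) := by
      simp only [hj]
      rw [ext_coe]
      rfl
    rw [heq]
    exact (dist_triangle _ ((φ (bits k (cnt x k)) : C) : S) _).trans (add_le_add hd.le le_rfl)
  refine ⟨fun k => ext e (((lam k).prodCongr
        (Homeomorph.smulOfNeZero (ρ k * (1 / ((k:ℝ) + 1))) (hδ k).ne')).trans (Ψ k)), ?_, ?_⟩
  · intro p
    obtain ⟨z, rfl⟩ := e.surjective p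
    induction z using OnePoint.rec with
    | infty =>
      refine ⟨e OnePoint.infty, h0, ?_⟩
      simp only [ext_infty]; exact tendsto_const_nhds
    | coe p => exact ⟨_, (φ (dig p.1)).2, hmain p.1 p.2⟩
  · intro q hq
    obtain ⟨b, hb⟩ := hφs ⟨q, hq⟩
    obtain ⟨x, hx⟩ := dig_surj b
    refine ⟨j (x, 0), ?_⟩
    have := hmain x 0
    rw [hx, hb] at this
    exact this

/-- For every n ≥ 2 and every nonempty closed set C in the unit sphere of ℝⁿ, some sequence of self-homeomorphisms of the sphere converges pointwise everywhere to points of C, with every point of C attained as a limit. -/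
theorem result :
    ∀ n : ℕ, 2 ≤ n →
      ∀ C : Set ↥(Metric.sphere (0 : EuclideanSpace ℝ (Fin n)) (1 : ℝ)),
        IsClosed C → C.Nonempty →
        ∃ H : ℕ → (↥(Metric.sphere (0 : EuclideanSpace ℝ (Fin n)) (1 : ℝ)) ≃ₜ
                    ↥(Metric.sphere (0 : EuclideanSpace ℝ (Fin n)) (1 : ℝ))),
          (∀ p : ↥(Metric.sphere (0 : EuclideanSpace ℝ (Fin n)) (1 : ℝ)),
              ∃ q ∈ C, Tendsto (fun k : ℕ => H k p) atTop (𝓝 q)) ∧
          (∀ q ∈ C, ∃ p : ↥(Metric.sphere (0 : EuclideanSpace ℝ (Fin n)) (1 : ℝ)),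
              Tendsto (fun k : ℕ => H k p) atTop (𝓝 q)) := by
  intro n hn C hC hCn
  obtain ⟨c, hc⟩ := hCn
  have hv : ‖(c : EuclideanSpace ℝ (Fin n))‖ = 1 := by
    have := c.2
    rwa [mem_sphere_zero_iff_norm] at this
  have hv0 : (c : EuclideanSpace ℝ (Fin n)) ≠ 0 := by
    intro h; rw [h, norm_zero] at hv; exact zero_ne_one hv
  set e1 : OnePoint (ℝ ∙ (c : EuclideanSpace ℝ (Fin n)))ᗮ ≃ₜ
    Metric.sphere (0 : EuclideanSpace ℝ (Fin n)) 1 := onePointHyperplaneHomeoUnitSphere hv with he1
  have he1c : e1 OnePoint.infty = c := rfl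
  obtain ⟨m, rfl⟩ : ∃ m, n = m + 1 := ⟨n - 1, by omega⟩
  have : Fact (Module.finrank ℝ (EuclideanSpace ℝ (Fin (m+1))) = m + 1) := ⟨by simp⟩
  have hfr : Module.finrank ℝ (ℝ ∙ (c : EuclideanSpace ℝ (Fin (m+1))))ᗮ = m :=
    Submodule.finrank_orthogonal_span_singleton hv0
  rcases Nat.lt_or_ge m 2 with hm | hm
  · have hm1 : m = 1 := by omega
    have hfr2 : Module.finrank ℝ ℝ = Module.finrank ℝ (ℝ ∙ (c : EuclideanSpace ℝ (Fin (m+1))))ᗮ := by
      rw [hfr, Module.finrank_self, hm1]
    obtain ⟨L⟩ := FiniteDimensional.nonempty_continuousLinearEquiv_of_finrank_eq (𝕜 := ℝ) hfr2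
    exact core1 (L.toHomeomorph.onePointCongr.trans e1) C hC hc
  · obtain ⟨l, rfl⟩ : ∃ l, m = l + 2 := ⟨m - 2, by omega⟩
    have hfr2 : Module.finrank ℝ (ℝ × ℝ × EuclideanSpace ℝ (Fin l)) =
        Module.finrank ℝ (ℝ ∙ (c : EuclideanSpace ℝ (Fin (l+2+1))))ᗮ := by
      rw [hfr]
      simp only [Module.finrank_prod, Module.finrank_self, finrank_euclideanSpace, Fintype.card_fin]
      ring
    obtain ⟨L⟩ := FiniteDimensional.nonempty_continuousLinearEquiv_of_finrank_eq (𝕜 := ℝ) hfr2
    exact core2 (L.toHomeomorph.onePointCongr.trans e1) C hC hc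

end Pool.Agent.S08165
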