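import Pool.Statements.S08173
import Pool.Agent.Helper111.HI8

set_option autoImplicit false
open Pool Pool.MP_1dc66a_gt

namespace Pool.Agent.S08173

/-- For compact polyhedra X_n with bonding maps whose inverse limit is a hereditarily indecomposable continuum, and maps F_n from the 2-sphere with F_n homotopic to P_n∘F_{n+1}, the first map F_1 is null-homotopic. -/
theorem result :
    ∀ (k : ℕ → ℕ) (X : ∀ n, Set (EuclideanSpace ℝ (Fin (k n))))
      (P : ∀ n, C(↥(X (n+1)), ↥(X n)))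
      (F : ∀ n, C(↥(Metric.sphere (0 : EuclideanSpace ℝ (Fin 3)) 1), ↥(X n))),
      (∀ n, ∃ T : Finset (Finset (EuclideanSpace ℝ (Fin (k n)))),
          X n = ⋃ t ∈ T, convexHull ℝ (t : Set (EuclideanSpace ℝ (Fin (k n))))) →
      IsConnected {x : ∀ n, ↥(X n) | ∀ n, P n (x (n+1)) = x n} →
      (∀ A B : Set (∀ n, ↥(X n)),
          A ⊆ {x : ∀ n, ↥(X n) | ∀ n, P n (x (n+1)) = x n} →
          B ⊆ {x : ∀ n, ↥(X n) | ∀ n, P n (x (n+1)) = x n} →
          IsCompact A → IsConnected A → IsCompact B → IsConnected B →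
          (A ∩ B).Nonempty → A ⊆ B ∨ B ⊆ A) →
      (∀ n, (F n).Homotopic ((P n).comp (F (n+1)))) →
      ∃ c : ↥(X 0), (F 0).Homotopic (ContinuousMap.const _ c) := by
  intro k X P F hX _ hnest hF
  have h1 := fun n => Pool.Agent.Helper111.HI.polyhedron (hX n).choose (X n) (hX n).choose_spec
  obtain ⟨hc0, W, oW, hXW, r, cr, rX, rid⟩ := h1 0
  obtain ⟨N⟩ := Pool.Agent.Helper111.HI.exists_NR (X 0) W hc0 oW hXW r cr rX rid
  exact Pool.Agent.Helper111.HI.main X P F (fun n => (h1 n).1) N hnest hF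

end Pool.Agent.S08173
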