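import Pool.Statements.S08180
import Pool.Agent.Helper884.Sparse
import Pool.Agent.Helper884.SparseFrame

set_option autoImplicit false
open Pool Pool.MP_1e3442_gt

namespace Pool.Agent.S08180

open Pool.Agent.Helper884.Sparse Pool.Agent.Helper884.SparseFrame in
theorem exists_frame : ∃ (M : Set Fn) (_ : Frame Nd M), True := by
  obtain ⟨M, r, G, h0, h1, h2, h3, h4⟩ := exists_slaloms
  refine ⟨M, { blk := fun p => p.1
               t := fun β n => node (G β) β n
               Q := r / 2
               fin := finite_level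
               blk_t := fun β n => rfl
               ad := ?_
               Qpos := by linarith
               bdd := ?_
               room := ?_ }, trivial⟩
  · intro β γ hne
    have h5 : (β : Fn) ≠ γ := fun h => hne (Subtype.ext h)
    obtain ⟨m, hm⟩ := Function.ne_iff.1 h5
    exact ⟨m + 1, fun n hn => node_ne hm (by omega)⟩
  · intro q hq S hS
    obtain ⟨γ, hγ, h⟩ := Pool.Agent.Helper884.SparseFrame.bdd h0 h1 h2 h3 h4 hq S hS
    exact ⟨⟨γ, hγ⟩, fun β m hβ => h β β.2 m hβ⟩
  · intro q hq S hS n hn
    exact Pool.Agent.Helper884.SparseFrame.room (by linarith) S hS n hn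

/-- The negation of the preceding statement: For every poset with its Scott topology that is a dcpo, is meet-continuous, and whose open-set lattice is continuous (core compact), the space is sober: every irreducible closed set has a unique generic point. -/
theorem result :
    ¬ (∀ (α : Type) [PartialOrder α] [TopologicalSpace α] [Topology.IsScott α Set.univ],
      (∀ D : Set α, D.Nonempty → DirectedOn (· ≤ ·) D → ∃ s, IsLUB D s) →
      (∀ (x : α) (D : Set α) (s : α), D.Nonempty → DirectedOn (· ≤ ·) D → IsLUB D s →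
          x ≤ s → x ∈ closure {y : α | y ≤ x ∧ ∃ d ∈ D, y ≤ d}) →
      (∀ (x : α) (U : Set α), IsOpen U → x ∈ U →
          ∃ V : Set α, IsOpen V ∧ x ∈ V ∧ V ⊆ U ∧
            ∀ 𝒲 : Set (Set α), (∀ W ∈ 𝒲, IsOpen W) → U ⊆ ⋃₀ 𝒲 →
              ∃ 𝒯 ⊆ 𝒲, 𝒯.Finite ∧ V ⊆ ⋃₀ 𝒯) →
      QuasiSober α ∧ T0Space α) := by
  intro H
  obtain ⟨M, F, -⟩ := exists_frame
  exact Pool.Agent.Helper884.Sparse.not_sober (F := F)
    (H (Pool.Agent.Helper884.Sparse.Pnt F)
      Pool.Agent.Helper884.Sparse.exists_isLUB
      Pool.Agent.Helper884.Sparse.meetCont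
      Pool.Agent.Helper884.Sparse.coreCompact).1

end Pool.Agent.S08180
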