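import Pool.Statements.S08188
import Pool.Agent.Helper787.RNValdivia

set_option autoImplicit false
open Pool Pool.MP_206312_gt

namespace Pool.Agent.S08188

open Pool.Agent.Helper787.RNValdivia

open Classical in
theorem scattered_supp {X Γ : Type} [TopologicalSpace X] [CompactSpace X] [T2Space X]
    (hs : ∀ A : Set X, A.Nonempty → ∃ x ∈ A, ∃ U : Set X, IsOpen U ∧ U ∩ A = {x})
    {e : X → (Γ → ℝ)} (he : Topology.IsEmbedding e)
    (hd : Dense {x : X | ∀ ε : ℝ, 0 < ε → {γ : Γ | ε ≤ |e x γ|}.Finite}) (q : X) :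
    Cardinal.mk {γ | e q γ ≠ 0} ≤ Cardinal.aleph 1 := by
  refine card_supp_le (K := X) (Γ := Γ) (h := e) he ?_ (d := fun x y => if x = y then 0 else 1)
    ?_ ?_ ?_ q
  · refine hd.mono ?_
    intro x hx
    have h1 : {γ : Γ | e x γ ≠ 0} ⊆ ⋃ n : ℕ, {γ : Γ | 1 / ((n : ℝ) + 1) ≤ |e x γ|} := by
      intro γ hγ
      obtain ⟨n, hn⟩ := exists_nat_one_div_lt (abs_pos.mpr hγ)
      exact Set.mem_iUnion.mpr ⟨n, hn.le⟩
    exact (Set.countable_iUnion (fun n => (hx _ Nat.one_div_pos_of_nat).countable)).mono h1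
  · intro x y hxy
    simp [hxy]
  · rintro ⟨x, y⟩ r hr
    by_cases hxy : x = y
    · simp only [hxy, if_true] at hr
      refine Filter.Eventually.of_forall (fun p => hr.trans_le ?_)
      by_cases hp : p.1 = p.2
      · simp [hp]
      · simp [hp]
    · have hopen : IsOpen {p : X × X | p.1 ≠ p.2} :=
        isOpen_ne_fun continuous_fst continuous_snd
      filter_upwards [hopen.mem_nhds (show (x, y) ∈ {p : X × X | p.1 ≠ p.2} from hxy)] with p hp
      have hp' : p.1 ≠ p.2 := hp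
      simp only [hxy, if_false] at hr
      simpa [hp'] using hr
  · intro L hL ε hε
    obtain ⟨x, hx, U, hU, hUL⟩ := hs L hL
    refine ⟨U, hU, ⟨x, by rw [hUL]; rfl⟩, ?_⟩
    rw [hUL]
    rintro a rfl b rfl
    simpa using hε

/-- The negation of the preceding statement: There is a compact Hausdorff scattered space embedded in a cube [0,1]^Γ so that points with coordinates tending to zero are dense, and which contains a homeomorphic copy of the ordinal interval [0, ω₂]. -/
theorem result :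
    ¬ (∃ (X : Type) (_ : TopologicalSpace X), CompactSpace X ∧ T2Space X ∧
      (∀ A : Set X, A.Nonempty → ∃ x ∈ A, ∃ U : Set X, IsOpen U ∧ U ∩ A = {x}) ∧
      (∃ (Γ : Type) (e : X → (Γ → ℝ)), Topology.IsEmbedding e ∧
        (∀ x γ, e x γ ∈ Set.Icc (0 : ℝ) 1) ∧
        Dense {x : X | ∀ ε : ℝ, 0 < ε → {γ : Γ | ε ≤ |e x γ|}.Finite}) ∧
      ∃ f : Set.Iic (Cardinal.aleph.{0} 2).ord → X, Topology.IsEmbedding f) := by
  rintro ⟨X, _, _, _, hs, ⟨Γ, e, he, _, hd⟩, hf⟩
  exact no_copy (K := X) (Γ := Γ) he (fun q => scattered_supp hs he hd q) hf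

end Pool.Agent.S08188
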