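import Pool.Statements.S08189
import Pool.Agent.Helper434.FivePlane

set_option autoImplicit false
open scoped ContDiff
open Pool Pool.MP_21eb72_gt

namespace Pool.Agent.S08189

/-- For all large enough m, every smooth map f from the open cube (-1,1)^m to R^2 has a graph that meets some affine 2-plane in R^(m+2) in at least 5 distinct points. -/
theorem result :
    ∃ M : ℕ, ∀ m : ℕ, M ≤ m → ∀ f : (Fin m → ℝ) → (Fin 2 → ℝ),
      ContDiffOn ℝ ∞ f {x : Fin m → ℝ | ∀ i, x i ∈ Set.Ioo (-1 : ℝ) 1} →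
      ∃ P : AffineSubspace ℝ ((Fin m → ℝ) × (Fin 2 → ℝ)),
        Module.finrank ℝ P.direction = 2 ∧
        ∃ S : Finset (Fin m → ℝ), S.card = 5 ∧
          ∀ x ∈ S, (∀ i, x i ∈ Set.Ioo (-1 : ℝ) 1) ∧ (x, f x) ∈ P := by
  refine ⟨9, fun m hm f hf => ?_⟩
  have hopen : IsOpen {x : Fin m → ℝ | ∀ i, x i ∈ Set.Ioo (-1 : ℝ) 1} := by
    have h : {x : Fin m → ℝ | ∀ i, x i ∈ Set.Ioo (-1 : ℝ) 1} =
        Set.pi Set.univ (fun _ : Fin m => Set.Ioo (-1 : ℝ) 1) := by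
      ext x
      simp
    rw [h]
    exact isOpen_set_pi Set.finite_univ (fun _ _ => isOpen_Ioo)
  have hne : ({x : Fin m → ℝ | ∀ i, x i ∈ Set.Ioo (-1 : ℝ) 1}).Nonempty :=
    ⟨0, fun i => by simp⟩
  have hf' : ∀ x ∈ {x : Fin m → ℝ | ∀ i, x i ∈ Set.Ioo (-1 : ℝ) 1}, ContDiffAt ℝ ∞ f x :=
    fun x hx => hf.contDiffAt (hopen.mem_nhds hx)
  have hdim : 9 ≤ Module.finrank ℝ (Fin m → ℝ) := by
    rw [Module.finrank_fin_fun]; exact hm
  obtain ⟨P, hP, S, hS, h⟩ := Pool.Agent.Helper434.FivePlane.plane_of_five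
    (Pool.Agent.Helper434.FivePlane.five hdim hopen hne hf')
  exact ⟨P, hP, S, hS, fun x hx => ⟨(h x hx).1, (h x hx).2⟩⟩

end Pool.Agent.S08189
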