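import Pool.Statements.S08191

set_option autoImplicit false
open Pool Pool.MP_223099_gt

namespace Pool.Agent.S08191

/-- value of the linear functional with coefficient vector `φ` at `p` -/
def ev (φ p : ℝ × ℝ) : ℝ := φ.1 * p.1 + φ.2 * p.2

lemma ev_sub (φ p q : ℝ × ℝ) : ev φ (p - q) = ev φ p - ev φ q := by
  simp [ev]; ring

lemma ev_smul (φ : ℝ × ℝ) (c : ℝ) (p : ℝ × ℝ) : ev φ (c • p) = c * ev φ p := by
  simp [ev]; ring

lemma ev_neg_left (φ p : ℝ × ℝ) : ev (-φ) p = - ev φ p := by
  simp [ev]; ring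

lemma ev_add_left (φ ψ p : ℝ × ℝ) : ev (φ + ψ) p = ev φ p + ev ψ p := by
  simp [ev]; ring

lemma ev_smul_left (φ : ℝ × ℝ) (c : ℝ) (p : ℝ × ℝ) : ev (c • φ) p = c * ev φ p := by
  simp [ev]; ring

lemma convex_ev_le (φ : ℝ × ℝ) (c : ℝ) : Convex ℝ {z : ℝ × ℝ | ev φ z ≤ c} := by
  apply convex_halfSpace_le
  constructor
  · intro x y; simp [ev]; ring
  · intro c x; simp [ev]; ring

variable {m : ℕ} (v : Fin (m + 1) → ℝ × ℝ)

/-- support function of the vertex set -/
noncomputable def hh (φ : ℝ × ℝ) : ℝ :=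
  Finset.univ.sup' (Finset.univ_nonempty) (fun i => ev φ (v i))

/-- width of the vertex set -/
noncomputable def WW (φ : ℝ × ℝ) : ℝ := hh v φ + hh v (-φ)

lemma le_hh (φ : ℝ × ℝ) (i : Fin (m + 1)) : ev φ (v i) ≤ hh v φ :=
  Finset.le_sup' (fun i => ev φ (v i)) (Finset.mem_univ i)

lemma hh_attained (φ : ℝ × ℝ) : ∃ i, hh v φ = ev φ (v i) := by
  obtain ⟨i, _, hi⟩ := Finset.exists_mem_eq_sup' (Finset.univ_nonempty)
    (fun i : Fin (m + 1) => ev φ (v i))
  exact ⟨i, hi⟩

lemma ev_le_hh {φ p : ℝ × ℝ} (hp : p ∈ convexHull ℝ (Set.range v)) : ev φ p ≤ hh v φ := by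
  have : convexHull ℝ (Set.range v) ⊆ {z | ev φ z ≤ hh v φ} := by
    apply convexHull_min _ (convex_ev_le φ _)
    rintro _ ⟨i, rfl⟩
    exact le_hh v φ i
  exact this hp

lemma neg_hh_le_ev {φ p : ℝ × ℝ} (hp : p ∈ convexHull ℝ (Set.range v)) :
    - hh v (-φ) ≤ ev φ p := by
  have := ev_le_hh v (φ := -φ) hp
  rw [ev_neg_left] at this
  linarith

lemma WW_neg (φ : ℝ × ℝ) : WW v (-φ) = WW v φ := by
  simp [WW, add_comm]

lemma hh_smul (φ : ℝ × ℝ) {c : ℝ} (hc : 0 ≤ c) : hh v (c • φ) = c * hh v φ := by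
  apply le_antisymm
  · apply Finset.sup'_le
    intro i _
    rw [ev_smul_left]
    exact mul_le_mul_of_nonneg_left (le_hh v φ i) hc
  · obtain ⟨i, hi⟩ := hh_attained v φ
    rw [hi, ← ev_smul_left]
    exact le_hh v _ i

lemma WW_smul (φ : ℝ × ℝ) {c : ℝ} (hc : 0 ≤ c) : WW v (c • φ) = c * WW v φ := by
  unfold WW
  rw [← smul_neg, hh_smul v _ hc, hh_smul v _ hc]
  ring

lemma WW_zero : WW v 0 = 0 := by
  have := WW_smul v 0 (c := 0) le_rfl
  simpa using this

lemma continuous_hh : Continuous (hh v) := by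
  unfold hh
  apply Continuous.finset_sup'_apply
  intro i _
  unfold ev
  fun_prop

lemma continuous_WW : Continuous (WW v) := by
  unfold WW
  exact (continuous_hh v).add ((continuous_hh v).comp continuous_neg)

/-- strict convexity with counterclockwise order -/
def CCW : Prop := ∀ i j : Fin (m + 1), j ≠ i → j ≠ finRotate (m + 1) i →
        0 < ((v (finRotate (m + 1) i)).1 - (v i).1) * ((v j).2 - (v i).2)
            - ((v (finRotate (m + 1) i)).2 - (v i).2) * ((v j).1 - (v i).1)

variable {v}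

lemma exists_third (hm : 3 ≤ m + 1) (i k : Fin (m + 1)) : ∃ j, j ≠ i ∧ j ≠ k := by
  by_contra h
  push Not at h
  have : (Finset.univ : Finset (Fin (m + 1))) ⊆ {i, k} := by
    intro j _
    simp only [Finset.mem_insert, Finset.mem_singleton]
    by_cases hj : j = i
    · exact Or.inl hj
    · exact Or.inr (h j hj)
  have h1 := Finset.card_le_card this
  have h2 := Finset.card_le_two (a := i) (b := k)
  simp at h1
  omega

lemma WW_pos (hm : 3 ≤ m + 1) (hv : CCW v) {φ : ℝ × ℝ} (hφ : φ ≠ 0) : 0 < WW v φ := by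
  have hle : ∀ i j, ev φ (v i) - ev φ (v j) ≤ WW v φ := by
    intro i j
    have h1 := le_hh v φ i
    have h2 := le_hh v (-φ) j
    rw [ev_neg_left] at h2
    unfold WW
    linarith
  have h0 : 0 ≤ WW v φ := by simpa using hle 0 0
  rcases h0.lt_or_eq with h | h
  · exact h
  exfalso
  have heq : ∀ i j, ev φ (v i) = ev φ (v j) := by
    intro i j
    have h1 := hle i j
    have h2 := hle j i
    linarith
  obtain ⟨j, hj1, hj2⟩ := exists_third hm 0 (finRotate (m + 1) 0)
  have hc := hv 0 j hj1 hj2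
  have e1 := heq (finRotate (m + 1) 0) 0
  have e2 := heq j 0
  unfold ev at e1 e2
  set a := (v (finRotate (m + 1) 0)).1 - (v 0).1
  set b := (v (finRotate (m + 1) 0)).2 - (v 0).2
  set c := (v j).1 - (v 0).1
  set d := (v j).2 - (v 0).2
  have e1' : φ.1 * a + φ.2 * b = 0 := by simp only [a, b]; linarith
  have e2' : φ.1 * c + φ.2 * d = 0 := by simp only [c, d]; linarith
  have h1 : φ.1 * (a * d - b * c) = 0 := by linear_combination d * e1' - b * e2'
  have h2 : φ.2 * (a * d - b * c) = 0 := by linear_combination a * e2' - c * e1'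
  have h3 : φ.1 = 0 := by
    rcases mul_eq_zero.1 h1 with h | h
    · exact h
    · linarith
  have h4 : φ.2 = 0 := by
    rcases mul_eq_zero.1 h2 with h | h
    · exact h
    · linarith
  exact hφ (Prod.ext h3 h4)

/-- there are three functionals of width one with sum zero, the first being prescribed -/
lemma exists_triple (hm : 3 ≤ m + 1) (hv : CCW v) {f : ℝ × ℝ} (hf : WW v f = 1) :
    ∃ g, WW v g = 1 ∧ WW v (f + g) = 1 ∧ 0 < f.1 * g.2 - f.2 * g.1 := by
  have hf0 : f ≠ 0 := by
    rintro rfl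
    rw [WW_zero] at hf
    norm_num at hf
  have hfsq : 0 < f.1 ^ 2 + f.2 ^ 2 := by
    by_contra h
    have h1 : f.1 = 0 := by nlinarith [sq_nonneg f.1, sq_nonneg f.2]
    have h2 : f.2 = 0 := by nlinarith [sq_nonneg f.1, sq_nonneg f.2]
    exact hf0 (Prod.ext h1 h2)
  set G : ℝ → ℝ × ℝ := fun s => (-s) • f + (1 - s ^ 2) • ((-f.2, f.1) : ℝ × ℝ) with hG
  have hGne : ∀ s, G s ≠ 0 := by
    intro s h
    have h1 := congrArg Prod.fst h
    have h2 := congrArg Prod.snd h
    simp [hG] at h1 h2
    have h3 : s * (f.1 ^ 2 + f.2 ^ 2) = 0 := by linear_combination (-f.1) * h1 - f.2 * h2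
    have h4 : (1 - s ^ 2) * (f.1 ^ 2 + f.2 ^ 2) = 0 := by
      linear_combination (-f.2) * h1 + f.1 * h2
    have h5 : s = 0 := by
      rcases mul_eq_zero.1 h3 with h | h
      · exact h
      · linarith
    subst h5
    norm_num at h4
    linarith
  have hGW : ∀ s, 0 < WW v (G s) := fun s => WW_pos hm hv (hGne s)
  have hGc : Continuous G := by
    simp only [hG]
    fun_prop
  set F : ℝ → ℝ := fun s => WW v (f + (WW v (G s))⁻¹ • G s) with hF
  have hFc : Continuous F := by
    apply (continuous_WW v).comp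
    apply continuous_const.add
    exact (((continuous_WW v).comp hGc).inv₀ (fun s => (hGW s).ne')).smul hGc
  have hF1 : F (-1) = 2 := by
    have : G (-1) = f := by simp [hG]
    simp only [hF]
    rw [this, hf]
    have : f + (1 : ℝ)⁻¹ • f = (2 : ℝ) • f := by
      rw [inv_one, one_smul, two_smul]
    rw [this, WW_smul v _ (by norm_num), hf]
    norm_num
  have hF2 : F 1 = 0 := by
    have : G 1 = -f := by simp [hG]
    simp only [hF]
    rw [this, WW_neg, hf]
    simp [WW_zero]
  obtain ⟨s, hs⟩ : (1 : ℝ) ∈ Set.range F :=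
    mem_range_of_exists_le_of_exists_ge hFc ⟨1, by rw [hF2]; norm_num⟩ ⟨-1, by rw [hF1]; norm_num⟩
  set g := (WW v (G s))⁻¹ • G s with hg
  have hg1 : WW v g = 1 := by
    rw [hg, WW_smul v _ (inv_nonneg.2 (hGW s).le), inv_mul_cancel₀ (hGW s).ne']
  have hfg : WW v (f + g) = 1 := hs
  have hdet : f.1 * g.2 - f.2 * g.1 ≠ 0 := by
    intro hd
    -- g is a multiple of f
    set c := (f.1 * g.1 + f.2 * g.2) / (f.1 ^ 2 + f.2 ^ 2) with hc
    have hgc : g = c • f := by
      apply Prod.ext
      · simp only [Prod.smul_fst, smul_eq_mul, hc]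
        field_simp
        linear_combination (-f.2) * hd
      · simp only [Prod.smul_snd, smul_eq_mul, hc]
        field_simp
        linear_combination (f.1) * hd
    rcases le_total 0 c with h0 | h0
    · have h1 : WW v g = c := by rw [hgc, WW_smul v _ h0, hf, mul_one]
      have h2 : f + g = (1 + c) • f := by rw [hgc, add_smul, one_smul]
      have h3 : WW v (f + g) = 1 + c := by rw [h2, WW_smul v _ (by linarith), hf, mul_one]
      linarith
    · have h1 : WW v g = -c := by
        have : g = -((-c) • f) := by rw [hgc]; simp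
        rw [this, WW_neg, WW_smul v _ (by linarith), hf, mul_one]
      have h2 : f + g = (1 + c) • f := by rw [hgc, add_smul, one_smul]
      have h4 : c = -1 := by linarith
      rw [h2, h4] at hfg
      simp [WW_zero] at hfg
  rcases lt_or_gt_of_ne hdet with h | h
  · refine ⟨-(f + g), ?_, ?_, ?_⟩
    · rw [WW_neg, hfg]
    · have : f + -(f + g) = -g := by abel
      rw [this, WW_neg, hg1]
    · simp
      nlinarith
  · exact ⟨g, hg1, hfg, h⟩

lemma sum_abs_cyclic (u : Fin (m + 1) → ℝ) (p q : Fin (m + 1)) :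
    2 * (u p - u q) ≤ ∑ i, |u (finRotate (m + 1) i) - u i| := by
  set w : ℕ → ℝ := fun k => u (Fin.ofNat (m + 1) k + q) with hw
  set d : Fin (m + 1) := p - q with hd
  have h0 : w 0 = u q := by simp [hw]
  have h1 : w d.val = u p := by simp [hw, hd]
  have h2 : w (m + 1) = u q := by
    simp [hw]
  have hsum : ∑ i, |u (finRotate (m + 1) i) - u i| =
      ∑ k ∈ Finset.range (m + 1), dist (w k) (w (k + 1)) := by
    rw [← Equiv.sum_comp (Equiv.addRight q), ← Fin.sum_univ_eq_sum_range]
    apply Finset.sum_congr rfl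
    intro i _
    simp only [Equiv.coe_addRight, hw, finRotate_apply, Real.dist_eq]
    rw [abs_sub_comm]
    congr 3
    · simp
    · apply Fin.ext
      simp [Fin.val_add]
      ring_nf
  have h3 := dist_le_Ico_sum_dist w (m := 0) (n := d.val) (Nat.zero_le d.val)
  have h4 := dist_le_Ico_sum_dist w (m := d.val) (n := m + 1) (by omega)
  have h5 := Finset.sum_Ico_consecutive (fun k => dist (w k) (w (k + 1))) (Nat.zero_le d.val)
    (show d.val ≤ m + 1 by omega)
  rw [hsum, Finset.range_eq_Ico, ← h5]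
  rw [h0, h1, Real.dist_eq] at h3
  rw [h1, h2, Real.dist_eq] at h4
  have h6 := neg_abs_le (u q - u p)
  have h7 := le_abs_self (u p - u q)
  linarith

/-- the lengths of chords parallel to side `i` -/
def QQ (v : Fin (m + 1) → ℝ × ℝ) (i : Fin (m + 1)) : Set ℝ :=
  {r : ℝ | ∃ x ∈ convexHull ℝ (Set.range v),
            ∃ y ∈ convexHull ℝ (Set.range v), ∃ c : ℝ,
              y - x = c • (v (finRotate (m + 1) i) - v i) ∧ r = dist x y}

lemma edge_ne (hm : 3 ≤ m + 1) (hv : CCW v) (i : Fin (m + 1)) :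
    v (finRotate (m + 1) i) - v i ≠ 0 := by
  intro h
  obtain ⟨j, hj1, hj2⟩ := exists_third hm i (finRotate (m + 1) i)
  have hc := hv i j hj1 hj2
  have h1 := congrArg Prod.fst h
  have h2 := congrArg Prod.snd h
  simp only [Prod.fst_sub, Prod.snd_sub, Prod.fst_zero, Prod.snd_zero] at h1 h2
  rw [h1, h2] at hc
  simp at hc

lemma side_pos (hm : 3 ≤ m + 1) (hv : CCW v) (i : Fin (m + 1)) :
    0 < dist (v i) (v (finRotate (m + 1) i)) := by
  rw [dist_pos]
  intro h
  exact edge_ne hm hv i (by rw [← h]; simp)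

lemma QQ_bdd (v : Fin (m + 1) → ℝ × ℝ) (i : Fin (m + 1)) : BddAbove (QQ v i) := by
  refine ⟨Metric.diam (convexHull ℝ (Set.range v)), ?_⟩
  rintro r ⟨x, hx, y, hy, c, _, rfl⟩
  exact Metric.dist_le_diam_of_mem ((Set.finite_range v).isCompact_convexHull ℝ).isBounded hx hy

lemma side_mem_QQ (v : Fin (m + 1) → ℝ × ℝ) (i : Fin (m + 1)) :
    dist (v i) (v (finRotate (m + 1) i)) ∈ QQ v i :=
  ⟨v i, subset_convexHull ℝ _ ⟨i, rfl⟩, v _, subset_convexHull ℝ _ ⟨_, rfl⟩, 1, by simp, rfl⟩

lemma sSup_pos (hm : 3 ≤ m + 1) (hv : CCW v) (i : Fin (m + 1)) : 0 < sSup (QQ v i) :=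
  lt_of_lt_of_le (side_pos hm hv i) (le_csSup (QQ_bdd v i) (side_mem_QQ v i))

lemma chord_le {φ : ℝ × ℝ} (hφ : WW v φ ≤ 1) (i : Fin (m + 1)) {r : ℝ} (hr : r ∈ QQ v i) :
    r * |ev φ (v (finRotate (m + 1) i) - v i)| ≤ dist (v i) (v (finRotate (m + 1) i)) := by
  obtain ⟨x, hx, y, hy, c, hc, rfl⟩ := hr
  have h1 : |c| * |ev φ (v (finRotate (m + 1) i) - v i)| ≤ 1 := by
    rw [← abs_mul, ← ev_smul, ← hc, ev_sub, abs_le]
    have a1 := ev_le_hh v (φ := φ) hx
    have a2 := ev_le_hh v (φ := φ) hy
    have a3 := neg_hh_le_ev v (φ := φ) hx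
    have a4 := neg_hh_le_ev v (φ := φ) hy
    unfold WW at hφ
    constructor <;> linarith
  have h2 : dist x y = |c| * dist (v i) (v (finRotate (m + 1) i)) := by
    rw [dist_comm x y, dist_eq_norm, hc, norm_smul, Real.norm_eq_abs, dist_comm (v i), dist_eq_norm]
  rw [h2]
  have h3 : 0 ≤ dist (v i) (v (finRotate (m + 1) i)) := dist_nonneg
  nlinarith

/-- side length over longest parallel chord -/
noncomputable def lam (v : Fin (m + 1) → ℝ × ℝ) (i : Fin (m + 1)) : ℝ :=
  dist (v i) (v (finRotate (m + 1) i)) / sSup (QQ v i)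

lemma lam_pos (hm : 3 ≤ m + 1) (hv : CCW v) (i : Fin (m + 1)) : 0 < lam v i :=
  div_pos (side_pos hm hv i) (sSup_pos hm hv i)

lemma le_lam (hm : 3 ≤ m + 1) (hv : CCW v) {φ : ℝ × ℝ} (hφ : WW v φ ≤ 1) (i : Fin (m + 1)) :
    |ev φ (v (finRotate (m + 1) i) - v i)| ≤ lam v i := by
  unfold lam
  rw [le_div_iff₀ (sSup_pos hm hv i)]
  rcases (abs_nonneg (ev φ (v (finRotate (m + 1) i) - v i))).eq_or_lt with h | h
  · rw [← h, zero_mul]
    exact dist_nonneg
  · have : sSup (QQ v i) ≤ dist (v i) (v (finRotate (m + 1) i)) /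
        |ev φ (v (finRotate (m + 1) i) - v i)| := by
      apply csSup_le ⟨_, side_mem_QQ v i⟩
      intro r hr
      rw [le_div_iff₀ h]
      exact chord_le hφ i hr
    rw [le_div_iff₀ h] at this
    linarith

lemma sSup_mem_QQ (hm : 3 ≤ m + 1) (hv : CCW v) (i : Fin (m + 1)) : sSup (QQ v i) ∈ QQ v i := by
  have hcomp : IsCompact (convexHull ℝ (Set.range v)) :=
    (Set.finite_range v).isCompact_convexHull ℝ
  set e := v (finRotate (m + 1) i) - v i with he
  have hne : e ≠ 0 := edge_ne hm hv i
  set K : Set ((ℝ × ℝ) × (ℝ × ℝ)) := (convexHull ℝ (Set.range v) ×ˢ convexHull ℝ (Set.range v)) ∩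
    {p | e.1 * (p.2 - p.1).2 - e.2 * (p.2 - p.1).1 = 0} with hK
  have hKc : IsCompact K := by
    apply (hcomp.prod hcomp).inter_right
    apply isClosed_eq
    · fun_prop
    · exact continuous_const
  have hQ : QQ v i = (fun p : (ℝ × ℝ) × (ℝ × ℝ) => dist p.1 p.2) '' K := by
    ext r
    constructor
    · rintro ⟨x, hx, y, hy, c, hc, rfl⟩
      refine ⟨(x, y), ⟨⟨hx, hy⟩, ?_⟩, rfl⟩
      simp only [Set.mem_ofPred_eq]
      rw [hc]
      simp [he]
      ring
    · rintro ⟨⟨x, y⟩, ⟨⟨hx, hy⟩, hxy⟩, rfl⟩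
      simp only [Set.mem_ofPred_eq] at hxy
      refine ⟨x, hx, y, hy, ?_⟩
      have hsq : 0 < e.1 ^ 2 + e.2 ^ 2 := by
        by_contra h
        have h1 : e.1 = 0 := by nlinarith [sq_nonneg e.1, sq_nonneg e.2]
        have h2 : e.2 = 0 := by nlinarith [sq_nonneg e.1, sq_nonneg e.2]
        exact hne (Prod.ext h1 h2)
      refine ⟨(e.1 * (y - x).1 + e.2 * (y - x).2) / (e.1 ^ 2 + e.2 ^ 2), ?_, rfl⟩
      rw [← he]
      apply Prod.ext
      · simp only [Prod.smul_fst, smul_eq_mul]
        field_simp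
        linear_combination (-e.2) * hxy
      · simp only [Prod.smul_snd, smul_eq_mul]
        field_simp
        linear_combination (e.1) * hxy
  have hQc : IsCompact (QQ v i) := by
    rw [hQ]
    exact hKc.image (by fun_prop)
  exact hQc.sSup_mem ⟨_, side_mem_QQ v i⟩

/-- the longest chord parallel to a side, as a vector -/
lemma chord_attained (hm : 3 ≤ m + 1) (hv : CCW v) (i : Fin (m + 1)) :
    ∃ x ∈ convexHull ℝ (Set.range v), ∃ y ∈ convexHull ℝ (Set.range v),
      lam v i • (y - x) = v (finRotate (m + 1) i) - v i := by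
  obtain ⟨x, hx, y, hy, c, hc, hd⟩ := sSup_mem_QQ hm hv i
  have h2 : dist x y = |c| * dist (v i) (v (finRotate (m + 1) i)) := by
    rw [dist_comm x y, dist_eq_norm, hc, norm_smul, Real.norm_eq_abs, dist_comm (v i), dist_eq_norm]
  have h3 := side_pos hm hv i
  have h4 := sSup_pos hm hv i
  have h5 : lam v i * |c| = 1 := by
    unfold lam
    rw [hd, h2]
    have : |c| ≠ 0 := by
      intro h0
      rw [hd, h2, h0, zero_mul] at h4
      exact lt_irrefl _ h4
    field_simp
  rcases abs_cases c with ⟨hc1, hc2⟩ | ⟨hc1, hc2⟩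
  · refine ⟨x, hx, y, hy, ?_⟩
    rw [hc, smul_smul, ← hc1, h5, one_smul]
  · refine ⟨y, hy, x, hx, ?_⟩
    have : x - y = (-c) • (v (finRotate (m + 1) i) - v i) := by
      rw [neg_smul, ← hc]; abel
    rw [this, smul_smul, ← hc1, h5, one_smul]

lemma abs_three {x y l : ℝ} (h1 : |x| ≤ l) (h2 : |y| ≤ l) (h3 : |x + y| ≤ l) :
    (|x| + |y| + |x + y|) / 2 ≤ l := by
  rcases abs_cases x with ⟨a, a'⟩ | ⟨a, a'⟩ <;> rcases abs_cases y with ⟨b, b'⟩ | ⟨b, b'⟩ <;>
    rcases abs_cases (x + y) with ⟨c, c'⟩ | ⟨c, c'⟩ <;> linarith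

lemma sum_ev_ge (φ : ℝ × ℝ) :
    2 * WW v φ ≤ ∑ i, |ev φ (v (finRotate (m + 1) i) - v i)| := by
  obtain ⟨p, hp⟩ := hh_attained v φ
  obtain ⟨q, hq⟩ := hh_attained v (-φ)
  rw [ev_neg_left] at hq
  have := sum_abs_cyclic (fun i => ev φ (v i)) p q
  simp only [ev_sub]
  unfold WW
  rw [hp, hq]
  linarith

lemma main_bounds (hm : 3 ≤ m + 1) (hv : CCW v) {f g : ℝ × ℝ} (hf : WW v f = 1)
    (hg : WW v g = 1) (hfg : WW v (f + g) = 1) :
    (∀ i, (|ev f (v (finRotate (m + 1) i) - v i)| + |ev g (v (finRotate (m + 1) i) - v i)| +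
      |ev f (v (finRotate (m + 1) i) - v i) + ev g (v (finRotate (m + 1) i) - v i)|) / 2
        ≤ lam v i) ∧
    3 ≤ ∑ i, (|ev f (v (finRotate (m + 1) i) - v i)| + |ev g (v (finRotate (m + 1) i) - v i)| +
      |ev f (v (finRotate (m + 1) i) - v i) + ev g (v (finRotate (m + 1) i) - v i)|) / 2 := by
  constructor
  · intro i
    apply abs_three (le_lam hm hv hf.le i) (le_lam hm hv hg.le i)
    rw [← ev_add_left]
    exact le_lam hm hv hfg.le i
  · rw [← Finset.sum_div, Finset.sum_add_distrib, Finset.sum_add_distrib]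
    have h1 := sum_ev_ge (v := v) f
    have h2 := sum_ev_ge (v := v) g
    have h3 := sum_ev_ge (v := v) (f + g)
    simp only [ev_add_left] at h3
    rw [hf] at h1
    rw [hg] at h2
    rw [hfg] at h3
    linarith

/-- a functional of width one that is constant on side `i` -/
lemma exists_first (hm : 3 ≤ m + 1) (hv : CCW v) (i : Fin (m + 1)) :
    ∃ f, WW v f = 1 ∧ ev f (v (finRotate (m + 1) i) - v i) = 0 := by
  set e := v (finRotate (m + 1) i) - v i with he
  have hne : e ≠ 0 := edge_ne hm hv i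
  set k : ℝ × ℝ := (-e.2, e.1) with hk
  have hk0 : k ≠ 0 := by
    intro h
    have h1 := congrArg Prod.fst h
    have h2 := congrArg Prod.snd h
    simp [hk] at h1 h2
    exact hne (Prod.ext h2 h1)
  have hW := WW_pos hm hv hk0
  refine ⟨(WW v k)⁻¹ • k, ?_, ?_⟩
  · rw [WW_smul v _ (inv_nonneg.2 hW.le), inv_mul_cancel₀ hW.ne']
  · rw [ev_smul_left]
    simp [ev, hk]
    right
    ring

theorem three_le (hm : 3 ≤ m + 1) (hv : CCW v) : 3 ≤ ∑ i, lam v i := by
  obtain ⟨f, hf, _⟩ := exists_first hm hv 0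
  obtain ⟨g, hg, hfg, _⟩ := exists_triple hm hv hf
  obtain ⟨h1, h2⟩ := main_bounds hm hv hf hg hfg
  exact le_trans h2 (Finset.sum_le_sum (fun i _ => h1 i))

/-- if two distinct points of the polygon maximise a functional, it is constant on a side -/
lemma exists_side (hv : CCW v) {φ : ℝ × ℝ} (hφ : φ ≠ 0) {c : ℝ}
    (hc : ∀ i, ev φ (v i) ≤ c) {p q : ℝ × ℝ} (hp : p ∈ convexHull ℝ (Set.range v))
    (hq : q ∈ convexHull ℝ (Set.range v)) (hpc : ev φ p = c) (hqc : ev φ q = c) (hpq : p ≠ q) :
    ∃ i, ev φ (v (finRotate (m + 1) i) - v i) = 0 := by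
  -- perpendicular functional
  set k : ℝ × ℝ := (-φ.2, φ.1) with hk
  have hsq : 0 < φ.1 ^ 2 + φ.2 ^ 2 := by
    by_contra h
    have h1 : φ.1 = 0 := by nlinarith [sq_nonneg φ.1, sq_nonneg φ.2]
    have h2 : φ.2 = 0 := by nlinarith [sq_nonneg φ.1, sq_nonneg φ.2]
    exact hφ (Prod.ext h1 h2)
  -- a vertex with the value c and k-value at least that of a given point
  have key : ∀ p ∈ convexHull ℝ (Set.range v), ev φ p = c → ∀ κ : ℝ × ℝ,
      ∃ j, ev φ (v j) = c ∧ ev κ p ≤ ev κ (v j) := by
    intro p hp hpc κ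
    by_contra hcon
    push Not at hcon
    -- all vertices with value c have smaller κ value
    -- choose a big multiple of φ
    obtain ⟨B, hB0, hB⟩ : ∃ B : ℝ, 0 ≤ B ∧ ∀ j, ev φ (v j) < c →
        ev κ (v j) - ev κ p < B * (c - ev φ (v j)) := by
      have h1 : ∀ j, ∃ B : ℝ, 0 ≤ B ∧ (ev φ (v j) < c →
          ev κ (v j) - ev κ p < B * (c - ev φ (v j))) := by
        intro j
        refine ⟨(|ev κ (v j) - ev κ p| + 1) / |c - ev φ (v j)|, by positivity, ?_⟩
        intro hlt
        have h2 : 0 < c - ev φ (v j) := by linarith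
        rw [abs_of_pos h2, div_mul_cancel₀ _ h2.ne']
        have := le_abs_self (ev κ (v j) - ev κ p)
        linarith
      choose B hB0 hB using h1
      refine ⟨∑ j, B j, Finset.sum_nonneg (fun j _ => hB0 j), ?_⟩
      intro j hlt
      refine lt_of_lt_of_le (hB j hlt) ?_
      apply mul_le_mul_of_nonneg_right _ (by linarith)
      exact Finset.single_le_sum (fun j _ => hB0 j) (Finset.mem_univ j)
    have hall : ∀ j, ev (κ + B • φ) (v j) < ev (κ + B • φ) p := by
      intro j
      rw [ev_add_left, ev_add_left, ev_smul_left, ev_smul_left, hpc]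
      rcases (hc j).lt_or_eq with h | h
      · have := hB j h
        nlinarith
      · have := hcon j h
        rw [h]
        linarith
    have h3 := ev_le_hh v (φ := κ + B • φ) hp
    obtain ⟨j, hj⟩ := hh_attained v (κ + B • φ)
    have := hall j
    linarith
  -- two different vertices with value c
  have hkpq : ev k p ≠ ev k q := by
    intro h
    apply hpq
    have h1 : ev φ p = ev φ q := by rw [hpc, hqc]
    simp only [ev, hk] at h h1
    apply Prod.ext
    · have : (φ.1 ^ 2 + φ.2 ^ 2) * (p.1 - q.1) = 0 := by linear_combination φ.1 * h1 - φ.2 * h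
      rcases mul_eq_zero.1 this with h | h
      · linarith
      · linarith
    · have : (φ.1 ^ 2 + φ.2 ^ 2) * (p.2 - q.2) = 0 := by linear_combination φ.2 * h1 + φ.1 * h
      rcases mul_eq_zero.1 this with h | h
      · linarith
      · linarith
  have htwo : ∃ i j, i ≠ j ∧ ev φ (v i) = c ∧ ev φ (v j) = c := by
    rcases lt_or_gt_of_ne hkpq with h | h
    · obtain ⟨i, hi, hi'⟩ := key p hp hpc (-k)
      obtain ⟨j, hj, hj'⟩ := key q hq hqc k
      refine ⟨i, j, ?_, hi, hj⟩
      rintro rfl
      rw [ev_neg_left, ev_neg_left] at hi'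
      linarith
    · obtain ⟨i, hi, hi'⟩ := key p hp hpc k
      obtain ⟨j, hj, hj'⟩ := key q hq hqc (-k)
      refine ⟨i, j, ?_, hi, hj⟩
      rintro rfl
      rw [ev_neg_left, ev_neg_left] at hj'
      linarith
  obtain ⟨i, j, hij, hi, hj⟩ := htwo
  by_cases h1 : j = finRotate (m + 1) i
  · exact ⟨i, by rw [← h1, ev_sub, hi, hj, sub_self]⟩
  by_cases h2 : i = finRotate (m + 1) j
  · exact ⟨j, by rw [← h2, ev_sub, hi, hj, sub_self]⟩
  exfalso
  have c1 := hv i j (Ne.symm hij) h1
  have c2 := hv j i hij h2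
  have d1 := hc (finRotate (m + 1) i)
  have d2 := hc (finRotate (m + 1) j)
  rw [← hi] at d1
  rw [← hj] at d2
  have d3 : ev φ (v i) = ev φ (v j) := by rw [hi, hj]
  simp only [ev] at d1 d2 d3
  set a1 := (v (finRotate (m + 1) i)).1 - (v i).1 with ha1
  set a2 := (v (finRotate (m + 1) i)).2 - (v i).2 with ha2
  set b1 := (v (finRotate (m + 1) j)).1 - (v j).1 with hb1
  set b2 := (v (finRotate (m + 1) j)).2 - (v j).2 with hb2
  set x := (v j).1 - (v i).1 with hx
  set y := (v j).2 - (v i).2 with hy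
  have e1 : φ.1 * a1 + φ.2 * a2 ≤ 0 := by simp only [ha1, ha2]; linarith
  have e2 : φ.1 * b1 + φ.2 * b2 ≤ 0 := by simp only [hb1, hb2]; linarith
  have e3 : φ.1 * x + φ.2 * y = 0 := by simp only [hx, hy]; linarith
  have c1' : 0 < a1 * y - a2 * x := c1
  have c2' : 0 < b2 * x - b1 * y := by
    have : b1 * ((v i).2 - (v j).2) - b2 * ((v i).1 - (v j).1) = b2 * x - b1 * y := by
      simp only [hx, hy]; ring
    rw [← this]; exact c2
  -- (x, y) = s * (-φ.2, φ.1)
  have hs : ∃ s : ℝ, x = -s * φ.2 ∧ y = s * φ.1 := by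
    refine ⟨(φ.1 * y - φ.2 * x) / (φ.1 ^ 2 + φ.2 ^ 2), ?_, ?_⟩
    · field_simp
      linear_combination φ.1 * e3
    · field_simp
      linear_combination φ.2 * e3
  obtain ⟨s, hs1, hs2⟩ := hs
  rw [hs1, hs2] at c1' c2'
  have c3 : 0 < s * (φ.1 * a1 + φ.2 * a2) := by nlinarith
  have c4 : 0 < -(s * (φ.1 * b1 + φ.2 * b2)) := by nlinarith
  rcases le_total 0 s with h | h
  · nlinarith
  · nlinarith

lemma orient (hv : CCW v) (i : Fin (m + 1)) {q : ℝ × ℝ} (hq : q ∈ convexHull ℝ (Set.range v)) :
    0 ≤ (v (finRotate (m + 1) i) - v i).1 * (q - v i).2 -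
      (v (finRotate (m + 1) i) - v i).2 * (q - v i).1 := by
  set e := v (finRotate (m + 1) i) - v i with he
  set k : ℝ × ℝ := (e.2, -e.1) with hk
  have hsub : convexHull ℝ (Set.range v) ⊆ {z | ev k z ≤ ev k (v i)} := by
    apply convexHull_min _ (convex_ev_le k _)
    rintro _ ⟨j, rfl⟩
    show ev k (v j) ≤ ev k (v i)
    by_cases h1 : j = i
    · rw [h1]
    by_cases h2 : j = finRotate (m + 1) i
    · have : ev k (v j) - ev k (v i) = 0 := by
        rw [← ev_sub, h2, ← he]
        simp [ev, hk]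
        ring
      linarith
    · have := hv i j h1 h2
      simp only [ev, hk, he, Prod.fst_sub, Prod.snd_sub]
      nlinarith
  have := hsub hq
  have h3 : ev k q ≤ ev k (v i) := this
  simp only [ev, hk] at h3
  simp only [Prod.fst_sub, Prod.snd_sub] at *
  nlinarith

lemma orient' (hv : CCW v) {f g : ℝ × ℝ} (hd : 0 < f.1 * g.2 - f.2 * g.1) (i : Fin (m + 1))
    {q : ℝ × ℝ} (hq : q ∈ convexHull ℝ (Set.range v)) :
    0 ≤ ev f (v (finRotate (m + 1) i) - v i) * (ev g q - ev g (v i)) -
      ev g (v (finRotate (m + 1) i) - v i) * (ev f q - ev f (v i)) := by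
  have h1 := orient hv i hq
  have h2 : ev f (v (finRotate (m + 1) i) - v i) * (ev g q - ev g (v i)) -
      ev g (v (finRotate (m + 1) i) - v i) * (ev f q - ev f (v i)) =
      (f.1 * g.2 - f.2 * g.1) * ((v (finRotate (m + 1) i) - v i).1 * (q - v i).2 -
      (v (finRotate (m + 1) i) - v i).2 * (q - v i).1) := by
    simp only [ev, Prod.fst_sub, Prod.snd_sub]
    ring
  rw [h2]
  positivity

lemma sign_split {t dx dy α β : ℝ} (ht : t ≠ 0) (h1 : |t| * dx = α * t) (h2 : |t| * dy = β * t) :
    (dx = α ∧ dy = β) ∨ (dx = -α ∧ dy = -β) := by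
  rcases lt_or_gt_of_ne ht with h | h
  · right
    rw [abs_of_neg h] at h1 h2
    constructor
    · have : t * (dx + α) = 0 := by linarith
      rcases mul_eq_zero.1 this with h | h
      · exact absurd h ht
      · linarith
    · have : t * (dy + β) = 0 := by linarith
      rcases mul_eq_zero.1 this with h | h
      · exact absurd h ht
      · linarith
  · left
    rw [abs_of_pos h] at h1 h2
    constructor
    · have : t * (dx - α) = 0 := by linarith
      rcases mul_eq_zero.1 this with h | h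
      · exact absurd h ht
      · linarith
    · have : t * (dy - β) = 0 := by linarith
      rcases mul_eq_zero.1 this with h | h
      · exact absurd h ht
      · linarith

lemma conv_comb {C : Set (ℝ × ℝ)} (hC : Convex ℝ C) {p q : ℝ × ℝ} (hp : p ∈ C) (hq : q ∈ C)
    {s : ℝ} (h0 : 0 ≤ s) (h1 : s ≤ 1) {r : ℝ × ℝ} (hr1 : r.1 = (1 - s) * p.1 + s * q.1)
    (hr2 : r.2 = (1 - s) * p.2 + s * q.2) : r ∈ C := by
  have := hC hp hq (show 0 ≤ 1 - s by linarith) h0 (by ring)
  have h3 : (1 - s) • p + s • q = r := by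
    apply Prod.ext
    · simp [hr1]
    · simp [hr2]
  rwa [h3] at this

lemma between {C : Set (ℝ × ℝ)} (hC : Convex ℝ C) {x1 x2 x y : ℝ} (h1 : (x1, y) ∈ C)
    (h2 : (x2, y) ∈ C) (hx1 : x1 ≤ x) (hx2 : x ≤ x2) : (x, y) ∈ C := by
  rcases (hx1.trans hx2).eq_or_lt with h | h
  · have : x = x1 := by linarith
    rw [this]; exact h1
  · apply conv_comb hC h1 h2 (s := (x - x1) / (x2 - x1))
    · exact div_nonneg (by linarith) (by linarith)
    · rw [div_le_one (by linarith)]; linarith
    · have : x2 - x1 ≠ 0 := by linarith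
      simp only
      field_simp
      ring
    · simp only
      ring

lemma hexagon {C : Set (ℝ × ℝ)} (hC : Convex ℝ C) {z : ℝ} (hz0 : 0 ≤ z) (hz1 : z ≤ 1)
    (p1 : (z, (0 : ℝ)) ∈ C) (p2 : ((0 : ℝ), z) ∈ C) (p3 : ((1 : ℝ), (0 : ℝ)) ∈ C)
    (p4 : ((1 : ℝ), z) ∈ C) (p5 : ((0 : ℝ), (1 : ℝ)) ∈ C) (p6 : (z, (1 : ℝ)) ∈ C)
    {x y : ℝ} (hx0 : 0 ≤ x) (hx1 : x ≤ 1) (hy0 : 0 ≤ y) (hy1 : y ≤ 1) (h1 : z ≤ x + y)
    (h2 : x + y ≤ 1 + z) : (x, y) ∈ C := by
  rcases le_total y z with h | h
  · -- lower part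
    have L : (z - y, y) ∈ C := by
      rcases hz0.eq_or_lt with h0 | h0
      · have hy : y = 0 := by linarith
        rw [hy, sub_zero]; exact p1
      · apply conv_comb hC p1 p2 (s := y / z) (by positivity)
        · rw [div_le_one h0]; exact h
        · simp only
          field_simp
          ring
        · simp only
          field_simp
          ring
    have R : ((1 : ℝ), y) ∈ C := by
      rcases hz0.eq_or_lt with h0 | h0
      · have hy : y = 0 := by linarith
        rw [hy]; exact p3
      · apply conv_comb hC p3 p4 (s := y / z) (by positivity)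
        · rw [div_le_one h0]; exact h
        · simp only
          ring
        · simp only
          field_simp
          ring
    exact between hC L R (by linarith) hx1
  · -- upper part
    have L : ((0 : ℝ), y) ∈ C := by
      rcases hz1.eq_or_lt with h0 | h0
      · have hy : y = 1 := by linarith
        rw [hy]; exact p5
      · have h1z : (1 : ℝ) - z ≠ 0 := by linarith
        apply conv_comb hC p2 p5 (s := (y - z) / (1 - z))
        · exact div_nonneg (by linarith) (by linarith)
        · rw [div_le_one (by linarith)]; linarith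
        · simp only
          ring
        · simp only
          field_simp
          ring
    have R : (1 + z - y, y) ∈ C := by
      rcases hz1.eq_or_lt with h0 | h0
      · have hy : y = 1 := by linarith
        rw [hy]
        have : 1 + z - 1 = z := by ring
        rw [this]; exact p6
      · have h1z : (1 : ℝ) - z ≠ 0 := by linarith
        apply conv_comb hC p4 p6 (s := (y - z) / (1 - z))
        · exact div_nonneg (by linarith) (by linarith)
        · rw [div_le_one (by linarith)]; linarith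
        · simp only
          field_simp
          ring
        · simp only
          field_simp
          ring
    exact between hC L R hx0 (by linarith)

/-- the point with given values of the two functionals -/
noncomputable def pt (f g : ℝ × ℝ) (α β : ℝ) (a b : ℝ) : ℝ × ℝ :=
  ((g.2 * (a - α) - f.2 * (b - β)) / (f.1 * g.2 - f.2 * g.1),
    (f.1 * (b - β) - g.1 * (a - α)) / (f.1 * g.2 - f.2 * g.1))

lemma pt_comb (f g : ℝ × ℝ) (α β a b a' b' t : ℝ) :
    pt f g α β a b + t • (pt f g α β a' b' - pt f g α β a b) =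
      pt f g α β (a + t * (a' - a)) (b + t * (b' - b)) := by
  apply Prod.ext
  · simp [pt]; ring
  · simp [pt]; ring

lemma pt_eq {f g : ℝ × ℝ} (hd : 0 < f.1 * g.2 - f.2 * g.1) (α β : ℝ) (p : ℝ × ℝ) :
    pt f g α β (ev f p + α) (ev g p + β) = p := by
  apply Prod.ext
  · simp only [pt, ev]
    rw [div_eq_iff hd.ne']
    ring
  · simp only [pt, ev]
    rw [div_eq_iff hd.ne']
    ring

lemma pt_convex (f g : ℝ × ℝ) (α β : ℝ) {C : Set (ℝ × ℝ)} (hC : Convex ℝ C) :
    Convex ℝ {p : ℝ × ℝ | pt f g α β p.1 p.2 ∈ C} := by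
  intro x hx y hy a b ha hb hab
  have h1 : pt f g α β (a • x + b • y).1 (a • x + b • y).2 =
      a • pt f g α β x.1 x.2 + b • pt f g α β y.1 y.2 := by
    have hb' : b = 1 - a := by linarith
    subst hb'
    apply Prod.ext
    · simp [pt]; ring
    · simp [pt]; ring
  show pt f g α β (a • x + b • y).1 (a • x + b • y).2 ∈ C
  rw [h1]
  exact hC hx hy ha hb hab

/-- the value of a functional on a side -/
def se (v : Fin (m + 1) → ℝ × ℝ) (f : ℝ × ℝ) (i : Fin (m + 1)) : ℝ :=
  ev f (v (finRotate (m + 1) i) - v i)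

/-- in the equality case, the six corners belong to the polygon -/
theorem six_points (hm : 3 ≤ m + 1) (hv : CCW v) {f g : ℝ × ℝ} (hf : WW v f = 1)
    (hg : WW v g = 1) (hfg : WW v (f + g) = 1) (hd : 0 < f.1 * g.2 - f.2 * g.1)
    (hf0 : se v f 0 = 0)
    (hM : ∀ i, lam v i = (|se v f i| + |se v g i| + |se v f i + se v g i|) / 2) :
    ∃ z : ℝ, 0 ≤ z ∧ z ≤ 1 ∧
      (∀ p ∈ convexHull ℝ (Set.range v), 0 ≤ ev f p + hh v (-f) ∧ ev f p + hh v (-f) ≤ 1 ∧
        0 ≤ ev g p + hh v (-g) ∧ ev g p + hh v (-g) ≤ 1 ∧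
        z ≤ (ev f p + hh v (-f)) + (ev g p + hh v (-g)) ∧
        (ev f p + hh v (-f)) + (ev g p + hh v (-g)) ≤ 1 + z) ∧
      (∀ ab ∈ ({(z, 0), (0, z), (1, 0), (1, z), (0, 1), (z, 1)} : Set (ℝ × ℝ)),
        pt f g (hh v (-f)) (hh v (-g)) ab.1 ab.2 ∈ convexHull ℝ (Set.range v)) := by
  set P := convexHull ℝ (Set.range v) with hP
  set α := hh v (-f) with hα
  set β := hh v (-g) with hβ
  set z : ℝ := α + β - hh v (-(f + g)) with hz
  have hX : ∀ p ∈ P, 0 ≤ ev f p + α ∧ ev f p + α ≤ 1 := by
    intro p hp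
    have h1 := neg_hh_le_ev v (φ := f) hp
    have h2 := ev_le_hh v (φ := f) hp
    have h3 : hh v f + hh v (-f) = 1 := hf
    constructor <;> linarith
  have hY : ∀ p ∈ P, 0 ≤ ev g p + β ∧ ev g p + β ≤ 1 := by
    intro p hp
    have h1 := neg_hh_le_ev v (φ := g) hp
    have h2 := ev_le_hh v (φ := g) hp
    have h3 : hh v g + hh v (-g) = 1 := hg
    constructor <;> linarith
  have hZ : ∀ p ∈ P, z ≤ (ev f p + α) + (ev g p + β) ∧ (ev f p + α) + (ev g p + β) ≤ 1 + z := by
    intro p hp
    have h1 := neg_hh_le_ev v (φ := f + g) hp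
    have h2 := ev_le_hh v (φ := f + g) hp
    have h3 : hh v (f + g) + hh v (-(f + g)) = 1 := hfg
    rw [ev_add_left] at h1 h2
    constructor <;> linarith
  have hvP : ∀ i, v i ∈ P := fun i => subset_convexHull ℝ _ ⟨i, rfl⟩
  have hz0 : 0 ≤ z := by
    obtain ⟨i, hi⟩ := hh_attained v (-(f + g))
    rw [ev_neg_left, ev_add_left] at hi
    have h1 := (hX _ (hvP i)).1
    have h2 := (hY _ (hvP i)).1
    linarith
  have hz1 : z ≤ 1 := by
    obtain ⟨i, hi⟩ := hh_attained v (f + g)
    rw [ev_add_left] at hi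
    have h1 := (hX _ (hvP i)).2
    have h2 := (hY _ (hvP i)).2
    have h3 : hh v (f + g) + hh v (-(f + g)) = 1 := hfg
    linarith
  -- edges are determined by the two functionals
  have hedge : ∀ i, ¬ (se v f i = 0 ∧ se v g i = 0) := by
    rintro i ⟨h1, h2⟩
    apply edge_ne hm hv i
    set e := v (finRotate (m + 1) i) - v i with he
    have h1' : f.1 * e.1 + f.2 * e.2 = 0 := h1
    have h2' : g.1 * e.1 + g.2 * e.2 = 0 := h2
    apply Prod.ext
    · have : (f.1 * g.2 - f.2 * g.1) * e.1 = 0 := by linear_combination g.2 * h1' - f.2 * h2'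
      rcases mul_eq_zero.1 this with h | h
      · linarith
      · exact h
    · have : (f.1 * g.2 - f.2 * g.1) * e.2 = 0 := by linear_combination f.1 * h2' - g.1 * h1'
      rcases mul_eq_zero.1 this with h | h
      · linarith
      · exact h
  -- chords
  have hchord : ∀ i, ∃ x ∈ P, ∃ y ∈ P, lam v i * (ev f y - ev f x) = se v f i ∧
      lam v i * (ev g y - ev g x) = se v g i := by
    intro i
    obtain ⟨x, hx, y, hy, hxy⟩ := chord_attained hm hv i
    refine ⟨x, hx, y, hy, ?_, ?_⟩
    · rw [← ev_sub, ← ev_smul, hxy]; rfl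
    · rw [← ev_sub, ← ev_smul, hxy]; rfl
  -- Step 1: top and bottom points
  obtain ⟨T, hT, hTX, hTY, B, hB, hBX, hBY⟩ : ∃ T ∈ P, ev f T + α = z ∧ ev g T + β = 1 ∧
      ∃ B ∈ P, ev f B + α = z ∧ ev g B + β = 0 := by
    have hg0 : se v g 0 ≠ 0 := fun h => hedge 0 ⟨hf0, h⟩
    obtain ⟨x, hx, y, hy, h1, h2⟩ := hchord 0
    have hM0 : lam v 0 = |se v g 0| := by
      rw [hM 0, hf0]
      simp
    rw [hM0, hf0] at h1
    rw [hM0] at h2
    have h3 := sign_split (dx := ev f y - ev f x) (dy := ev g y - ev g x) (α := 0) (β := 1) hg0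
      (by linarith) (by linarith)
    have x1 := hY x hx
    have y1 := hY y hy
    have x2 := hZ x hx
    have y2 := hZ y hy
    rcases h3 with ⟨h4, h5⟩ | ⟨h4, h5⟩
    · refine ⟨y, hy, ?_, ?_, x, hx, ?_, ?_⟩ <;> linarith
    · refine ⟨x, hx, ?_, ?_, y, hy, ?_, ?_⟩ <;> linarith
  have hg' : g ≠ 0 := by
    rintro rfl
    simp at hd
  have hWg : hh v g + β = 1 := hg
  -- Step 2: a side on which g is constant
  have hside_top : ∀ p ∈ P, ev g p + β = 1 → ev f p + α ≠ z → ∃ i, se v g i = 0 := by
    intro p hp h1 h2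
    apply exists_side hv hg' (c := 1 - β) (fun i => by have := (hY _ (hvP i)).2; linarith) hp hT
      (by linarith) (by linarith)
    rintro rfl
    exact h2 hTX
  have hside_bot : ∀ p ∈ P, ev g p + β = 0 → ev f p + α ≠ z → ∃ i, se v g i = 0 := by
    intro p hp h1 h2
    have : ∃ i, ev (-g) (v (finRotate (m + 1) i) - v i) = 0 := by
      apply exists_side hv (neg_ne_zero.2 hg') (c := β)
        (fun i => by have := (hY _ (hvP i)).1; rw [ev_neg_left]; linarith) hp hB
        (by rw [ev_neg_left]; linarith) (by rw [ev_neg_left]; linarith)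
      rintro rfl
      exact h2 hBX
    obtain ⟨i, hi⟩ := this
    rw [ev_neg_left] at hi
    exact ⟨i, by unfold se; linarith⟩
  have htop : (∃ i, se v g i = 0) ∨ z = 1 := by
    obtain ⟨j, hj⟩ := hh_attained v (f + g + g)
    have h1 := ev_le_hh v (φ := f + g + g) hT
    rw [hj] at h1
    simp only [ev_add_left] at h1
    have jX := hX _ (hvP j)
    have jY := hY _ (hvP j)
    have jZ := hZ _ (hvP j)
    have jY1 : ev g (v j) + β = 1 := by linarith
    have jX1 : ev f (v j) + α = z := by linarith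
    set i := (finRotate (m + 1)).symm j with hi
    have hij : finRotate (m + 1) i = j := by simp [hi]
    have iX := hX _ (hvP i)
    have iY := hY _ (hvP i)
    have iZ := hZ _ (hvP i)
    have ef : se v f i = ev f (v j) - ev f (v i) := by unfold se; rw [hij, ev_sub]
    have eg : se v g i = ev g (v j) - ev g (v i) := by unfold se; rw [hij, ev_sub]
    set a := ev f (v i) + α - z with ha
    set b := 1 - (ev g (v i) + β) with hb
    have ef' : se v f i = -a := by rw [ef, ha]; linarith
    have eg' : se v g i = b := by rw [eg, hb]; linarith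
    have hab : a ≤ b := by rw [ha, hb]; linarith
    have ho : ∀ q ∈ P, 0 ≤ (-a) * (ev g q - ev g (v i)) - b * (ev f q - ev f (v i)) := by
      intro q hq
      have := orient' hv hd i hq
      change 0 ≤ se v f i * (ev g q - ev g (v i)) - se v g i * (ev f q - ev f (v i)) at this
      rwa [ef', eg'] at this
    have ha0 : 0 ≤ a := by
      have h2 := ho B hB
      have h3 : ev g B - ev g (v i) = b - 1 := by rw [hb]; linarith
      have h4 : ev f B - ev f (v i) = -a := by rw [ha]; linarith
      rw [h3, h4] at h2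
      linarith
    rcases ha0.eq_or_lt with h0 | h0
    · right
      have hb0 : 0 < b := by
        rcases (ha0.trans hab).eq_or_lt with h | h
        · exfalso
          exact hedge i ⟨by rw [ef', ← h0]; simp, by rw [eg', ← h]⟩
        · exact h
      obtain ⟨k, hk⟩ := hh_attained v f
      have h2 := ho (v k) (hvP k)
      rw [← h0] at h2
      have h3 : b * (ev f (v k) - ev f (v i)) ≤ 0 := by linarith
      have h4 : ev f (v k) - ev f (v i) ≤ 0 := by
        by_contra hcon
        push Not at hcon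
        have := mul_pos hb0 hcon
        linarith
      have h5 : hh v f + α = 1 := hf
      linarith
    · left
      have hb0 : 0 < b := lt_of_lt_of_le h0 hab
      obtain ⟨x, hx, y, hy, h1, h2⟩ := hchord i
      have hMi : lam v i = b := by
        rw [hM i, ef', eg', abs_neg, abs_of_pos h0, abs_of_pos hb0,
          abs_of_nonneg (by linarith : 0 ≤ -a + b)]
        ring
      rw [hMi, ef'] at h1
      rw [hMi, eg'] at h2
      have h3 : ev g y - ev g x = 1 := by
        have : b * (ev g y - ev g x - 1) = 0 := by linarith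
        rcases mul_eq_zero.1 this with h | h
        · linarith
        · linarith
      have h4 : ev f y < ev f x := by
        by_contra hcon
        push Not at hcon
        have : 0 ≤ b * (ev f y - ev f x) := mul_nonneg hb0.le (by linarith)
        linarith
      have xY := hY x hx
      have yY := hY y hy
      have xZ := hZ x hx
      have yZ := hZ y hy
      by_cases h5 : ev f y + α = z
      · exact hside_bot x hx (by linarith) (by intro h; linarith)
      · exact hside_top y hy (by linarith) h5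
  have hbot : (∃ i, se v g i = 0) ∨ z = 0 := by
    obtain ⟨j, hj⟩ := hh_attained v (-(f + g + g))
    have h1 := ev_le_hh v (φ := -(f + g + g)) hB
    rw [hj] at h1
    simp only [ev_neg_left, ev_add_left] at h1
    have jX := hX _ (hvP j)
    have jY := hY _ (hvP j)
    have jZ := hZ _ (hvP j)
    have jY1 : ev g (v j) + β = 0 := by linarith
    have jX1 : ev f (v j) + α = z := by linarith
    set i := (finRotate (m + 1)).symm j with hi
    have hij : finRotate (m + 1) i = j := by simp [hi]
    have iX := hX _ (hvP i)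
    have iY := hY _ (hvP i)
    have iZ := hZ _ (hvP i)
    have ef : se v f i = ev f (v j) - ev f (v i) := by unfold se; rw [hij, ev_sub]
    have eg : se v g i = ev g (v j) - ev g (v i) := by unfold se; rw [hij, ev_sub]
    set a := z - (ev f (v i) + α) with ha
    set b := ev g (v i) + β with hb
    have ef' : se v f i = a := by rw [ef, ha]; linarith
    have eg' : se v g i = -b := by rw [eg, hb]; linarith
    have hab : a ≤ b := by rw [ha, hb]; linarith
    have ho : ∀ q ∈ P, 0 ≤ a * (ev g q - ev g (v i)) - (-b) * (ev f q - ev f (v i)) := by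
      intro q hq
      have := orient' hv hd i hq
      change 0 ≤ se v f i * (ev g q - ev g (v i)) - se v g i * (ev f q - ev f (v i)) at this
      rwa [ef', eg'] at this
    have ha0 : 0 ≤ a := by
      have h2 := ho T hT
      have h3 : ev g T - ev g (v i) = 1 - b := by rw [hb]; linarith
      have h4 : ev f T - ev f (v i) = a := by rw [ha]; linarith
      rw [h3, h4] at h2
      linarith
    rcases ha0.eq_or_lt with h0 | h0
    · right
      have hb0 : 0 < b := by
        rcases (ha0.trans hab).eq_or_lt with h | h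
        · exfalso
          exact hedge i ⟨by rw [ef', ← h0], by rw [eg', ← h]; simp⟩
        · exact h
      obtain ⟨k, hk⟩ := hh_attained v (-f)
      rw [ev_neg_left] at hk
      have h2 := ho (v k) (hvP k)
      rw [← h0] at h2
      have h3 : 0 ≤ b * (ev f (v k) - ev f (v i)) := by linarith
      have h4 : 0 ≤ ev f (v k) - ev f (v i) := by
        by_contra hcon
        push Not at hcon
        have := mul_neg_of_pos_of_neg hb0 hcon
        linarith
      linarith
    · left
      have hb0 : 0 < b := lt_of_lt_of_le h0 hab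
      obtain ⟨x, hx, y, hy, h1, h2⟩ := hchord i
      have hMi : lam v i = b := by
        rw [hM i, ef', eg', abs_neg, abs_of_pos h0, abs_of_pos hb0,
          abs_of_nonpos (by linarith : a + -b ≤ 0)]
        ring
      rw [hMi, ef'] at h1
      rw [hMi, eg'] at h2
      have h3 : ev g y - ev g x = -1 := by
        have : b * (ev g y - ev g x + 1) = 0 := by linarith
        rcases mul_eq_zero.1 this with h | h
        · linarith
        · linarith
      have h4 : ev f x < ev f y := by
        by_contra hcon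
        push Not at hcon
        have : b * (ev f y - ev f x) ≤ 0 := mul_nonpos_of_nonneg_of_nonpos hb0.le (by linarith)
        linarith
      have xY := hY x hx
      have yY := hY y hy
      have xZ := hZ x hx
      have yZ := hZ y hy
      by_cases h5 : ev f y + α = z
      · exact hside_top x hx (by linarith) (by intro h; linarith)
      · exact hside_bot y hy (by linarith) h5
  have hhor : ∃ i, se v g i = 0 := by
    rcases htop with h | h
    · exact h
    · rcases hbot with h' | h'
      · exact h'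
      · rw [h] at h'; norm_num at h'
  -- Step 3: right and left points
  obtain ⟨R, hR, hRX, hRY, L, hL, hLX, hLY⟩ : ∃ R ∈ P, ev f R + α = 1 ∧ ev g R + β = z ∧
      ∃ L ∈ P, ev f L + α = 0 ∧ ev g L + β = z := by
    obtain ⟨i, hi⟩ := hhor
    have hfi : se v f i ≠ 0 := fun h => hedge i ⟨h, hi⟩
    obtain ⟨x, hx, y, hy, h1, h2⟩ := hchord i
    have hMi : lam v i = |se v f i| := by
      rw [hM i, hi]
      simp
    rw [hMi, hi] at h2
    rw [hMi] at h1
    have h3 := sign_split (dx := ev f y - ev f x) (dy := ev g y - ev g x) (α := 1) (β := 0) hfi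
      (by linarith) (by linarith)
    have x1 := hX x hx
    have y1 := hX y hy
    have x2 := hZ x hx
    have y2 := hZ y hy
    rcases h3 with ⟨h4, h5⟩ | ⟨h4, h5⟩
    · refine ⟨y, hy, ?_, ?_, x, hx, ?_, ?_⟩ <;> linarith
    · refine ⟨x, hx, ?_, ?_, y, hy, ?_, ?_⟩ <;> linarith
  -- Step 4: a side on which f + g is constant
  have hfg' : f + g ≠ 0 := by
    intro h
    rw [h, WW_zero] at hfg
    norm_num at hfg
  have hdiag : ∃ i, se v f i + se v g i = 0 := by
    rcases hz1.eq_or_lt with h1 | h1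
    · have hz0' : 0 < z := by linarith
      have : ∃ i, ev (-(f + g)) (v (finRotate (m + 1) i) - v i) = 0 := by
        apply exists_side hv (neg_ne_zero.2 hfg') (c := α + β - z)
          (fun i => by
            have := (hZ _ (hvP i)).1
            rw [ev_neg_left, ev_add_left]; linarith) hL hB
          (by rw [ev_neg_left, ev_add_left]; linarith) (by rw [ev_neg_left, ev_add_left]; linarith)
        rintro rfl
        linarith
      obtain ⟨i, hi⟩ := this
      rw [ev_neg_left, ev_add_left] at hi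
      exact ⟨i, by unfold se; linarith⟩
    · have : ∃ i, ev (f + g) (v (finRotate (m + 1) i) - v i) = 0 := by
        apply exists_side hv hfg' (c := 1 + z - α - β)
          (fun i => by
            have := (hZ _ (hvP i)).2
            rw [ev_add_left]; linarith) hR hT
          (by rw [ev_add_left]; linarith) (by rw [ev_add_left]; linarith)
        rintro rfl
        linarith
      obtain ⟨i, hi⟩ := this
      rw [ev_add_left] at hi
      exact ⟨i, by unfold se; linarith⟩
  obtain ⟨U, hU, hUX, hUY, V, hV, hVX, hVY⟩ : ∃ U ∈ P, ev f U + α = 1 ∧ ev g U + β = 0 ∧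
      ∃ V ∈ P, ev f V + α = 0 ∧ ev g V + β = 1 := by
    obtain ⟨i, hi⟩ := hdiag
    have hgi : se v g i = - se v f i := by linarith
    have hfi : se v f i ≠ 0 := fun h => hedge i ⟨h, by rw [hgi, h, neg_zero]⟩
    obtain ⟨x, hx, y, hy, h1, h2⟩ := hchord i
    have hMi : lam v i = |se v f i| := by
      rw [hM i, hi, hgi]
      simp
    rw [hMi, hgi] at h2
    rw [hMi] at h1
    have h3 := sign_split (dx := ev f y - ev f x) (dy := ev g y - ev g x) (α := 1) (β := -1) hfi
      (by linarith) (by linarith)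
    have x1 := hX x hx
    have y1 := hX y hy
    have x2 := hY x hx
    have y2 := hY y hy
    rcases h3 with ⟨h4, h5⟩ | ⟨h4, h5⟩
    · refine ⟨y, hy, ?_, ?_, x, hx, ?_, ?_⟩ <;> linarith
    · refine ⟨x, hx, ?_, ?_, y, hy, ?_, ?_⟩ <;> linarith
  refine ⟨z, hz0, hz1, ?_, ?_⟩
  · intro p hp
    exact ⟨(hX p hp).1, (hX p hp).2, (hY p hp).1, (hY p hp).2, (hZ p hp).1, (hZ p hp).2⟩
  · intro ab hab
    have hfin : ∀ p ∈ P, ev f p + α = ab.1 → ev g p + β = ab.2 → pt f g α β ab.1 ab.2 ∈ P := by
      intro p hp h1 h2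
      rw [← h1, ← h2, pt_eq hd]
      exact hp
    simp only [Set.mem_insert_iff, Set.mem_singleton_iff] at hab
    rcases hab with h | h | h | h | h | h
    · exact hfin B hB (by rw [h, hBX]) (by rw [h, hBY])
    · exact hfin L hL (by rw [h, hLX]) (by rw [h, hLY])
    · exact hfin U hU (by rw [h, hUX]) (by rw [h, hUY])
    · exact hfin R hR (by rw [h, hRX]) (by rw [h, hRY])
    · exact hfin V hV (by rw [h, hVX]) (by rw [h, hVY])
    · exact hfin T hT (by rw [h, hTX]) (by rw [h, hTY])

/-- The equality case. -/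
theorem equality_case (hm : 3 ≤ m + 1) (hv : CCW v) (hsum : ∑ i, lam v i = 3) :
    ∃ A B C : ℝ × ℝ, AffineIndependent ℝ ![A, B, C] ∧
            ∃ t : ℝ, 0 ≤ t ∧ t ≤ 1 / 2 ∧
              convexHull ℝ (Set.range v) =
                convexHull ℝ ({A + t • (B - A), A + t • (C - A),
                  B + t • (A - B), B + t • (C - B),
                  C + t • (A - C), C + t • (B - C)} : Set (ℝ × ℝ)) := by
  obtain ⟨f, hf, hf0⟩ := exists_first hm hv 0
  obtain ⟨g, hg, hfg, hd⟩ := exists_triple hm hv hf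
  obtain ⟨h1, h2⟩ := main_bounds hm hv hf hg hfg
  have hM : ∀ i, lam v i = (|se v f i| + |se v g i| + |se v f i + se v g i|) / 2 := by
    have h3 : ∑ i, (|se v f i| + |se v g i| + |se v f i + se v g i|) / 2 = ∑ i, lam v i := by
      apply le_antisymm
      · exact Finset.sum_le_sum (fun i _ => h1 i)
      · rw [hsum]
        exact h2
    intro i
    exact (((Finset.sum_eq_sum_iff_of_le (fun i _ => h1 i)).1 h3) i (Finset.mem_univ i)).symm
  obtain ⟨z, hz0, hz1, hin, hsix⟩ := six_points hm hv hf hg hfg hd hf0 hM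
  set α := hh v (-f) with hα
  set β := hh v (-g) with hβ
  have hz1' : (1 : ℝ) + z ≠ 0 := by linarith
  have hevf : ∀ a b, ev f (pt f g α β a b) = a - α := by
    intro a b
    simp only [ev, pt]
    rw [← mul_div_assoc, ← mul_div_assoc, ← add_div, div_eq_iff hd.ne']
    ring
  have hevg : ∀ a b, ev g (pt f g α β a b) = b - β := by
    intro a b
    simp only [ev, pt]
    rw [← mul_div_assoc, ← mul_div_assoc, ← add_div, div_eq_iff hd.ne']
    ring
  refine ⟨pt f g α β 0 0, pt f g α β (1 + z) 0, pt f g α β 0 (1 + z), ?_, z / (1 + z),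
    by positivity, ?_, ?_⟩
  · rw [affineIndependent_iff_not_collinear_set, collinear_iff_of_mem (p₀ := pt f g α β 0 0)
      (by simp)]
    rintro ⟨w, hw⟩
    obtain ⟨r1, hr1⟩ := hw (pt f g α β (1 + z) 0) (by simp)
    obtain ⟨r2, hr2⟩ := hw (pt f g α β 0 (1 + z)) (by simp)
    have a1 : ev f (pt f g α β (1 + z) 0) = r1 * ev f w + ev f (pt f g α β 0 0) := by
      rw [hr1]; simp [ev]; ring
    have a2 : ev g (pt f g α β (1 + z) 0) = r1 * ev g w + ev g (pt f g α β 0 0) := by
      rw [hr1]; simp [ev]; ring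
    have a4 : ev g (pt f g α β 0 (1 + z)) = r2 * ev g w + ev g (pt f g α β 0 0) := by
      rw [hr2]; simp [ev]; ring
    simp only [hevf, hevg] at a1 a2 a4
    have b1 : r1 * ev f w = 1 + z := by linarith
    have b2 : r1 * ev g w = 0 := by linarith
    have b4 : r2 * ev g w = 1 + z := by linarith
    rcases mul_eq_zero.1 b2 with h | h
    · rw [h, zero_mul] at b1
      exact hz1' b1.symm
    · rw [h, mul_zero] at b4
      exact hz1' b4.symm
  · rw [div_le_div_iff₀ (by linarith) (by norm_num)]
    linarith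
  · have e1 : pt f g α β 0 0 + (z / (1 + z)) • (pt f g α β (1 + z) 0 - pt f g α β 0 0) =
        pt f g α β z 0 := by
      rw [pt_comb]
      congr 1
      · field_simp; ring
      · ring
    have e2 : pt f g α β 0 0 + (z / (1 + z)) • (pt f g α β 0 (1 + z) - pt f g α β 0 0) =
        pt f g α β 0 z := by
      rw [pt_comb]
      congr 1
      · ring
      · field_simp; ring
    have e3 : pt f g α β (1 + z) 0 + (z / (1 + z)) • (pt f g α β 0 0 - pt f g α β (1 + z) 0) =
        pt f g α β 1 0 := by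
      rw [pt_comb]
      congr 1
      · field_simp; ring
      · ring
    have e4 : pt f g α β (1 + z) 0 + (z / (1 + z)) •
        (pt f g α β 0 (1 + z) - pt f g α β (1 + z) 0) = pt f g α β 1 z := by
      rw [pt_comb]
      congr 1
      · field_simp; ring
      · field_simp; ring
    have e5 : pt f g α β 0 (1 + z) + (z / (1 + z)) • (pt f g α β 0 0 - pt f g α β 0 (1 + z)) =
        pt f g α β 0 1 := by
      rw [pt_comb]
      congr 1
      · ring
      · field_simp; ring
    have e6 : pt f g α β 0 (1 + z) + (z / (1 + z)) •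
        (pt f g α β (1 + z) 0 - pt f g α β 0 (1 + z)) = pt f g α β z 1 := by
      rw [pt_comb]
      congr 1
      · field_simp; ring
      · field_simp; ring
    rw [e1, e2, e3, e4, e5, e6]
    apply Set.Subset.antisymm
    · apply convexHull_min _ (convex_convexHull ℝ _)
      rintro _ ⟨i, rfl⟩
      set H : Set (ℝ × ℝ) := {pt f g α β z 0, pt f g α β 0 z, pt f g α β 1 0, pt f g α β 1 z,
        pt f g α β 0 1, pt f g α β z 1} with hH
      have hC := pt_convex f g α β (convex_convexHull ℝ H)
      have hsub := subset_convexHull ℝ H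
      obtain ⟨c1, c2, c3, c4, c5, c6⟩ := hin (v i) (subset_convexHull ℝ _ ⟨i, rfl⟩)
      have := hexagon hC hz0 hz1 (hsub (by simp [hH])) (hsub (by simp [hH]))
        (hsub (by simp [hH])) (hsub (by simp [hH])) (hsub (by simp [hH])) (hsub (by simp [hH]))
        c1 c2 c3 c4 c5 c6
      have h5 : pt f g α β (ev f (v i) + α) (ev g (v i) + β) ∈ convexHull ℝ H := this
      rwa [pt_eq hd] at h5
    · apply convexHull_min _ (convex_convexHull ℝ _)
      intro p hp
      simp only [Set.mem_insert_iff, Set.mem_singleton_iff] at hp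
      rcases hp with rfl | rfl | rfl | rfl | rfl | rfl
      · exact hsix (z, 0) (by simp)
      · exact hsix (0, z) (by simp)
      · exact hsix (1, 0) (by simp)
      · exact hsix (1, z) (by simp)
      · exact hsix (0, 1) (by simp)
      · exact hsix (z, 1) (by simp)

/-- For every convex n-gon, the sum over sides of side length divided by the longest chord parallel to that side is at least 3. Equality holds only when the polygon is a triangle with its three corners cut off at the same ratio t in [0,1/2], by lines parallel to the opposite sides. -/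
theorem result :
    ∀ n : ℕ, 3 ≤ n → ∀ v : Fin n → ℝ × ℝ,
      (∀ i j : Fin n, j ≠ i → j ≠ finRotate n i →
        0 < ((v (finRotate n i)).1 - (v i).1) * ((v j).2 - (v i).2)
            - ((v (finRotate n i)).2 - (v i).2) * ((v j).1 - (v i).1)) →
      ∀ b : Fin n → ℝ,
        (∀ i : Fin n, b i = sSup {r : ℝ | ∃ x ∈ convexHull ℝ (Set.range v),
            ∃ y ∈ convexHull ℝ (Set.range v), ∃ c : ℝ,
              y - x = c • (v (finRotate n i) - v i) ∧ r = dist x y}) →
        3 ≤ ∑ i : Fin n, dist (v i) (v (finRotate n i)) / b i ∧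
        (∑ i : Fin n, dist (v i) (v (finRotate n i)) / b i = 3 →
          ∃ A B C : ℝ × ℝ, AffineIndependent ℝ ![A, B, C] ∧
            ∃ t : ℝ, 0 ≤ t ∧ t ≤ 1 / 2 ∧
              convexHull ℝ (Set.range v) =
                convexHull ℝ ({A + t • (B - A), A + t • (C - A),
                  B + t • (A - B), B + t • (C - B),
                  C + t • (A - C), C + t • (B - C)} : Set (ℝ × ℝ))) := by
  intro n hn v hv b hb
  obtain ⟨m, rfl⟩ : ∃ m, n = m + 1 := ⟨n - 1, by omega⟩
  have hlam : ∀ i, dist (v i) (v (finRotate (m + 1) i)) / b i = lam v i := by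
    intro i
    rw [hb i]
    rfl
  simp only [hlam]
  exact ⟨three_le hn hv, fun h => equality_case hn hv h⟩

end Pool.Agent.S08191
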