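import Pool.Statements.S08199
import Pool.Agent.Helper87.Perp

set_option autoImplicit false
open Pool Pool.MP_2655df_gt

namespace Pool.Agent.S08199

open Pool.Agent.Helper87.HilbertPlane Filter Topology

/-- data of the reverse perpendicular bisector of `a`, `b` -/
lemma side {Ω : Set (ℝ × ℝ)} {O : ℝ × ℝ} (hΩ : IsOpen Ω) (hc : Convex ℝ Ω)
    (hb : Bornology.IsBounded Ω) (hO : O ∈ Ω)
    (R : ℝ × ℝ → ℝ × ℝ → AffineSubspace ℝ (ℝ × ℝ) → Prop)
    (hR : ∀ a b ℓ, R a b ℓ ↔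
      (Module.finrank ℝ ℓ.direction = 1 ∧
        ∃ m ∈ segment ℝ a b, hd Ω a m = hd Ω m b ∧ m ∈ ℓ ∧
          ∀ x ∈ affineSpan ℝ {a, b}, x ∈ Ω → ∀ z ∈ ℓ, z ∈ Ω → hd Ω x m ≤ hd Ω x z))
    {a b : ℝ × ℝ} (ha : a ∈ Ω) (hbb : b ∈ Ω) (hab : a ≠ b) :
    ∃ σ : ℝ, 0 < σ ∧ ∃ τ : ℝ, 0 < τ ∧ ∃ f ∈ Pol Ω O, ∃ g ∈ Pol Ω O, ∃ μ : ℝ,
      a + σ • (a - b) ∈ closure Ω ∧ b + τ • (b - a) ∈ closure Ω ∧
      ev f (a + σ • (a - b)) = 0 ∧ ev g (b + τ • (b - a)) = 0 ∧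
      0 ≤ μ ∧ μ ≤ 1 ∧
      (ev f (a + μ • (b - a)))^2 * (ev g a * ev g b)
        = (ev g (a + μ • (b - a)))^2 * (ev f a * ev f b) ∧
      ∃ ℓ : AffineSubspace ℝ (ℝ × ℝ), R a b ℓ ∧
        (∀ z ∈ ℓ, ev (row f g (ev g (a + μ • (b - a))) (ev f (a + μ • (b - a)))) z = 0) ∧
        ∃ w : ℝ × ℝ, w ≠ 0 ∧ ℓ.direction = Submodule.span ℝ {w} ∧
          lin (row f g (ev g (a + μ • (b - a))) (ev f (a + μ • (b - a)))) w = 0 := by
  obtain ⟨σ, hσ, τ, hτ, f, hf, g, hg, hI, hJ, hfI, hgJ⟩ := exists_chord hΩ hc hb hO ha hab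
  obtain ⟨μ, hμ0, hμ1, hm, hmid, hrel⟩ := exists_midpoint hΩ hc hb hf hg hσ hτ ha hbb hI hJ hfI hgJ
  have fm := Pol_pos hΩ hf hm
  have gm := Pol_pos hΩ hg hm
  -- τ > 1
  have hτ1 : 0 < τ - 1 := by
    have h1 := hgJ
    rw [ev_add_smul_sub] at h1
    have ga := Pol_pos hΩ hg ha
    have gb := Pol_pos hΩ hg hbb
    by_contra hh
    push Not at hh
    have : ev g a + τ * (ev g b - ev g a) = (1 - τ) * ev g a + τ * ev g b := by ring
    rw [this] at h1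
    nlinarith [mul_nonneg (by linarith : 0 ≤ 1 - τ) ga.le, mul_pos hτ gb]
  have hJ' : b + (τ - 1) • (b - a) = a + τ • (b - a) := by
    rw [sub_smul, one_smul]; abel
  refine ⟨σ, hσ, τ - 1, hτ1, f, hf, g, hg, μ, hI, by rw [hJ']; exact hJ, hfI,
    by rw [hJ']; exact hgJ, hμ0, hμ1, hrel, ?_⟩
  set m := a + μ • (b - a) with hmdef
  set k := row f g (ev g m) (ev f m) with hk
  have hkm : ev k m = 0 := by rw [hk, ev_row]; ring
  -- the linear part of k is nonzero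
  have hlk : lin k (b - a) ≠ 0 := by
    rw [lin_sub, hk, ev_row, ev_row]
    have ha0 : a + (0:ℝ) • (b - a) = a := by simp
    have hb1 : a + (1:ℝ) • (b - a) = b := by simp
    obtain ⟨-, -, h3, h4⟩ := HE_on_chord hΩ hc hb hf hg hσ hτ ha hI hJ hfI hgJ
      (θ := 0) (φ := 1) (by rw [ha0]; exact ha) (by rw [hb1]; exact hbb) one_pos
    rw [ha0, hb1] at h3 h4
    have h5 : 0 < ev g m * (ev f b - ev f a) := mul_pos gm (by linarith)
    have h6 : 0 < ev f m * (ev g a - ev g b) := mul_pos fm (by linarith)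
    intro hh
    linarith
  set w : ℝ × ℝ := (-k.2.2, k.2.1) with hw
  have hw0 : w ≠ 0 := by
    intro h
    have h1 : -k.2.2 = 0 := congrArg Prod.fst h
    have h2 : k.2.1 = 0 := congrArg Prod.snd h
    apply hlk
    simp only [lin]
    rw [h2, neg_eq_zero.1 h1]; ring
  have hkw : lin k w = 0 := by simp only [lin, hw]; ring
  refine ⟨AffineSubspace.mk' m (Submodule.span ℝ {w}), ?_, ?_, w, hw0, ?_, hkw⟩
  · rw [hR]
    refine ⟨?_, m, ?_, hmid, AffineSubspace.self_mem_mk' _ _, ?_⟩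
    · rw [AffineSubspace.direction_mk']
      exact finrank_span_singleton hw0
    · rw [segment_eq_image]
      refine ⟨μ, ⟨hμ0, hμ1⟩, ?_⟩
      simp only
      rw [hmdef, smul_sub, sub_smul, one_smul]; abel
    · intro x hx hxΩ z hz hzΩ
      have hx' : ∃ θ : ℝ, x = a + θ • (b - a) := by
        rw [mem_affineSpan_pair_iff_exists_lineMap_eq] at hx
        obtain ⟨θ, rfl⟩ := hx
        refine ⟨θ, ?_⟩
        rw [AffineMap.lineMap_apply, vsub_eq_sub, vadd_eq_add, add_comm]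
      obtain ⟨θ, rfl⟩ := hx'
      rw [AffineSubspace.mem_mk', vsub_eq_sub, Submodule.mem_span_singleton] at hz
      obtain ⟨c, hcz⟩ := hz
      have hz' : z = m + c • w := by rw [hcz]; abel
      have hkz : ev k z = 0 := by rw [hz', ev_add_smul, hkm, hkw]; ring
      rw [hk, ev_row] at hkz
      exact foot_le hΩ hc hb hf hg hσ hτ ha hI hJ hfI hgJ hxΩ hm hzΩ (by linarith)
  · intro z hz
    rw [AffineSubspace.mem_mk', vsub_eq_sub, Submodule.mem_span_singleton] at hz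
    obtain ⟨c, hcz⟩ := hz
    have hz' : z = m + c • w := by rw [hcz]; abel
    rw [hz', ev_add_smul, hkm, hkw]; ring
  · rw [AffineSubspace.direction_mk']

/-- If in a bounded open convex planar Hilbert geometry, for every triangle, any reverse perpendicular bisectors of its three sides (metric-foot definition) are concurrent or all parallel, then the domain is the interior of an ellipse, i.e. the geometry is hyperbolic. -/
theorem result :
  ∀ (Ω : Set (ℝ × ℝ)), IsOpen Ω → Convex ℝ Ω → Bornology.IsBounded Ω → Ω.Nonempty →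
  ∀ (d : ℝ × ℝ → ℝ × ℝ → ℝ),
    (∀ x y : ℝ × ℝ, d x y = (1 / 2) * Real.log
        (((1 + sSup {s : ℝ | 0 ≤ s ∧ x - s • (y - x) ∈ Ω}) *
            sSup {t : ℝ | 0 ≤ t ∧ x + t • (y - x) ∈ Ω}) /
          (sSup {s : ℝ | 0 ≤ s ∧ x - s • (y - x) ∈ Ω} *
            (sSup {t : ℝ | 0 ≤ t ∧ x + t • (y - x) ∈ Ω} - 1)))) →
  ∀ (R : ℝ × ℝ → ℝ × ℝ → AffineSubspace ℝ (ℝ × ℝ) → Prop),
    (∀ a b ℓ, R a b ℓ ↔
      (Module.finrank ℝ ℓ.direction = 1 ∧
        ∃ m ∈ segment ℝ a b, d a m = d m b ∧ m ∈ ℓ ∧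
          ∀ x ∈ affineSpan ℝ {a, b}, x ∈ Ω → ∀ z ∈ ℓ, z ∈ Ω → d x m ≤ d x z)) →
    (∀ a b c : ℝ × ℝ, a ∈ Ω → b ∈ Ω → c ∈ Ω → ¬ Collinear ℝ {a, b, c} →
      ∀ ℓ₁ ℓ₂ ℓ₃ : AffineSubspace ℝ (ℝ × ℝ), R a b ℓ₁ → R b c ℓ₂ → R c a ℓ₃ →
        ((∃ p, p ∈ ℓ₁ ∧ p ∈ ℓ₂ ∧ p ∈ ℓ₃) ∨
          (ℓ₁.direction = ℓ₂.direction ∧ ℓ₂.direction = ℓ₃.direction))) →
    ∃ f : (ℝ × ℝ) ≃ᵃ[ℝ] (ℝ × ℝ), Ω = f '' {p : ℝ × ℝ | p.1 ^ 2 + p.2 ^ 2 < 1} := by
  intro Ω hΩ hc hb hne d hd' R hR hyp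
  obtain ⟨O, hO⟩ := hne
  have hdd : d = hd Ω := by
    funext x y
    rw [hd' x y]
    rfl
  subst hdd
  apply ellipse_of_cyclic hΩ hc hb hO
  intro p q r tp tq tr hp hq hr hpq hqp hpr hrp hqr hrq
  obtain ⟨hdet, hΔ⟩ := det3_ne_zero hp.2.2.1 hq.2.2.1 hr.2.2.1 hpq hqp hpr hrp hqr hrq
  -- shrinking parameters
  let e : ℕ → ℝ := fun n => 1 / ((n:ℝ) + 2)
  have he0 : ∀ n, 0 < e n := fun n => by positivity
  have he1 : ∀ n, e n < 1 := by
    intro n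
    simp only [e]
    rw [div_lt_one (by positivity)]
    have : (0:ℝ) ≤ n := Nat.cast_nonneg n
    linarith
  let U : Ultrafilter ℕ := Filter.hyperfilter ℕ
  have hU : (U : Filter ℕ) ≤ atTop := by
    rw [← Nat.cofinite_eq_atTop]; exact Filter.hyperfilter_le_cofinite
  have he : Tendsto e U (𝓝 0) := by
    have h1 : Tendsto (fun n : ℕ => 1 / ((n:ℝ) + 2)) atTop (𝓝 0) := by
      have h2 : Tendsto (fun n : ℕ => ((n:ℝ) + 2)) atTop atTop :=
        tendsto_atTop_add_const_right _ _ tendsto_natCast_atTop_atTop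
      have := h2.inv_tendsto_atTop
      refine this.congr (fun n => ?_)
      simp
    exact h1.mono_left hU
  let A : ℕ → ℝ × ℝ := fun n => toward O (e n) p
  let B : ℕ → ℝ × ℝ := fun n => toward O (e n) q
  let C : ℕ → ℝ × ℝ := fun n => toward O (e n) r
  have hA : ∀ n, A n ∈ Ω := fun n => toward_mem hΩ hc hO hp.1 (he0 n) (he1 n)
  have hB : ∀ n, B n ∈ Ω := fun n => toward_mem hΩ hc hO hq.1 (he0 n) (he1 n)
  have hC : ∀ n, C n ∈ Ω := fun n => toward_mem hΩ hc hO hr.1 (he0 n) (he1 n)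
  have hdetn : ∀ n, detP (A n) (B n) (C n) ≠ 0 := by
    intro n
    simp only [A, B, C]
    rw [detP_toward]
    have : (1 - e n) ≠ 0 := by have := he1 n; intro h; linarith
    exact mul_ne_zero (pow_ne_zero 2 this) hΔ
  have hAB : ∀ n, A n ≠ B n := by
    intro n h
    apply hdetn n
    rw [h]; simp [detP]
  have hBC : ∀ n, B n ≠ C n := by
    intro n h
    apply hdetn n
    rw [h]; simp only [detP]; ring
  have hCA : ∀ n, C n ≠ A n := by
    intro n h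
    apply hdetn n
    rw [h]; simp only [detP]; ring
  have sAB := fun n => side hΩ hc hb hO R hR (hA n) (hB n) (hAB n)
  have sBC := fun n => side hΩ hc hb hO R hR (hB n) (hC n) (hBC n)
  have sCA := fun n => side hΩ hc hb hO R hR (hC n) (hA n) (hCA n)
  choose σ1 hσ1 τ1 hτ1 f1 hf1 g1 hg1 μ1 hI1 hJ1 hfI1 hgJ1 hμ10 hμ11 hrel1 ℓ1 hR1 hℓ1 w1 hw1 hdir1 hlin1
    using sAB
  choose σ2 hσ2 τ2 hτ2 f2 hf2 g2 hg2 μ2 hI2 hJ2 hfI2 hgJ2 hμ20 hμ21 hrel2 ℓ2 hR2 hℓ2 w2 hw2 hdir2 hlin2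
    using sBC
  choose σ3 hσ3 τ3 hτ3 f3 hf3 g3 hg3 μ3 hI3 hJ3 hfI3 hgJ3 hμ30 hμ31 hrel3 ℓ3 hR3 hℓ3 w3 hw3 hdir3 hlin3
    using sCA
  -- the determinant vanishes
  let k1 : ℕ → ℝ × ℝ × ℝ := fun n =>
    row (f1 n) (g1 n) (ev (g1 n) (A n + μ1 n • (B n - A n))) (ev (f1 n) (A n + μ1 n • (B n - A n)))
  let k2 : ℕ → ℝ × ℝ × ℝ := fun n =>
    row (f2 n) (g2 n) (ev (g2 n) (B n + μ2 n • (C n - B n))) (ev (f2 n) (B n + μ2 n • (C n - B n)))
  let k3 : ℕ → ℝ × ℝ × ℝ := fun n =>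
    row (f3 n) (g3 n) (ev (g3 n) (C n + μ3 n • (A n - C n))) (ev (f3 n) (C n + μ3 n • (A n - C n)))
  have hdet0 : ∀ n, det3 (k1 n) (k2 n) (k3 n) = 0 := by
    intro n
    rcases hyp (A n) (B n) (C n) (hA n) (hB n) (hC n) (not_collinear_of_detP (hdetn n))
      (ℓ1 n) (ℓ2 n) (ℓ3 n) (hR1 n) (hR2 n) (hR3 n) with ⟨P, hP1, hP2, hP3⟩ | ⟨hd1, hd2⟩
    · exact det3_eq_zero_of_common (hℓ1 n P hP1) (hℓ2 n P hP2) (hℓ3 n P hP3)
    · have h12 : w1 n ∈ Submodule.span ℝ {w2 n} := by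
        rw [← hdir2 n, ← hd1, hdir1 n]; exact Submodule.mem_span_singleton_self _
      have h13 : w1 n ∈ Submodule.span ℝ {w3 n} := by
        rw [← hdir3 n, ← hd2, ← hd1, hdir1 n]; exact Submodule.mem_span_singleton_self _
      rw [Submodule.mem_span_singleton] at h12 h13
      obtain ⟨c2, hc2⟩ := h12
      obtain ⟨c3, hc3⟩ := h13
      refine det3_eq_zero_of_parallel (hw1 n) (hlin1 n) ?_ ?_
      · have := hlin2 n
        rw [← hc2]
        have e : ∀ k : ℝ × ℝ × ℝ, lin k (c2 • w2 n) = c2 * lin k (w2 n) := by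
          intro k; simp only [lin, Prod.smul_fst, Prod.smul_snd, smul_eq_mul]; ring
        rw [e]
        simp only [k2]
        rw [this, mul_zero]
      · have := hlin3 n
        rw [← hc3]
        have e : ∀ k : ℝ × ℝ × ℝ, lin k (c3 • w3 n) = c3 * lin k (w3 n) := by
          intro k; simp only [lin, Prod.smul_fst, Prod.smul_snd, smul_eq_mul]; ring
        rw [e]
        simp only [k3]
        rw [this, mul_zero]
  -- limits of functionals
  obtain ⟨lf1, lfe1⟩ := pair_limit hΩ hO (U := U) hp hq.1 hpq he0 he1 he hf1 hσ1 hI1 hfI1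
  obtain ⟨lg1, lge1⟩ := pair_limit hΩ hO (U := U) hq hp.1 hqp he0 he1 he hg1 hτ1 hJ1 hgJ1
  obtain ⟨lf2, lfe2⟩ := pair_limit hΩ hO (U := U) hq hr.1 hqr he0 he1 he hf2 hσ2 hI2 hfI2
  obtain ⟨lg2, lge2⟩ := pair_limit hΩ hO (U := U) hr hq.1 hrq he0 he1 he hg2 hτ2 hJ2 hgJ2
  obtain ⟨lf3, lfe3⟩ := pair_limit hΩ hO (U := U) hr hp.1 hrp he0 he1 he hf3 hσ3 hI3 hfI3
  obtain ⟨lg3, lge3⟩ := pair_limit hΩ hO (U := U) hp hr.1 hpr he0 he1 he hg3 hτ3 hJ3 hgJ3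
  have lA : Tendsto A U (𝓝 p) := tendsto_toward he p
  have lB : Tendsto B U (𝓝 q) := tendsto_toward he q
  have lC : Tendsto C U (𝓝 r) := tendsto_toward he r
  -- limits of the midpoint parameters
  have hμlim : ∀ μ : ℕ → ℝ, (∀ n, 0 ≤ μ n) → (∀ n, μ n ≤ 1) →
      ∃ l, 0 ≤ l ∧ l ≤ 1 ∧ Tendsto μ U (𝓝 l) := by
    intro μ h0 h1
    obtain ⟨l, hl, hl'⟩ := (isCompact_Icc (a := (0:ℝ)) (b := 1)).ultrafilter_le_nhds (U.map μ)
      (by
        rw [le_principal_iff]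
        exact Filter.mem_map.2 (Filter.univ_mem' (fun n => ⟨h0 n, h1 n⟩)))
    exact ⟨l, hl.1, hl.2, hl'⟩
  obtain ⟨m1, hm10, hm11, lμ1⟩ := hμlim μ1 hμ10 hμ11
  obtain ⟨m2, hm20, hm21, lμ2⟩ := hμlim μ2 hμ20 hμ21
  obtain ⟨m3, hm30, hm31, lμ3⟩ := hμlim μ3 hμ30 hμ31
  have lM1 : Tendsto (fun n => A n + μ1 n • (B n - A n)) U (𝓝 (p + m1 • (q - p))) :=
    lA.add (lμ1.smul (lB.sub lA))
  have lM2 : Tendsto (fun n => B n + μ2 n • (C n - B n)) U (𝓝 (q + m2 • (r - q))) :=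
    lB.add (lμ2.smul (lC.sub lB))
  have lM3 : Tendsto (fun n => C n + μ3 n • (A n - C n)) U (𝓝 (r + m3 • (p - r))) :=
    lC.add (lμ3.smul (lA.sub lC))
  -- the limiting determinant
  have ldet := tendsto_det3
    (tendsto_row lf1 lg1 (tendsto_ev lg1 lM1) (tendsto_ev lf1 lM1))
    (tendsto_row lf2 lg2 (tendsto_ev lg2 lM2) (tendsto_ev lf2 lM2))
    (tendsto_row lf3 lg3 (tendsto_ev lg3 lM3) (tendsto_ev lf3 lM3))
  have hdetlim := tendsto_nhds_unique ldet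
    ((tendsto_const_nhds (x := (0:ℝ))).congr (fun n => (hdet0 n).symm))
  rw [det3_row] at hdetlim
  have hprod := (mul_eq_zero.1 hdetlim).resolve_right hdet
  -- the limiting midpoint relations
  have hrellim : ∀ (a b : ℝ × ℝ) (ta tb : ℝ × ℝ × ℝ) (f g : ℕ → ℝ × ℝ × ℝ) (μ : ℕ → ℝ) (m : ℝ),
      Smooth Ω O a ta → Smooth Ω O b tb → Tendsto f U (𝓝 ta) → Tendsto g U (𝓝 tb) →
      Tendsto (fun n => ev (f n) (toward O (e n) a) / e n) U (𝓝 1) →
      Tendsto (fun n => ev (g n) (toward O (e n) b) / e n) U (𝓝 1) →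
      Tendsto μ U (𝓝 m) →
      (∀ n, (ev (f n) (toward O (e n) a + μ n • (toward O (e n) b - toward O (e n) a)))^2 *
          (ev (g n) (toward O (e n) a) * ev (g n) (toward O (e n) b))
        = (ev (g n) (toward O (e n) a + μ n • (toward O (e n) b - toward O (e n) a)))^2 *
          (ev (f n) (toward O (e n) a) * ev (f n) (toward O (e n) b))) →
      (ev ta (a + m • (b - a)))^2 * ev tb a = (ev tb (a + m • (b - a)))^2 * ev ta b := by
    intro a b ta tb f g μ m hsa hsb lf lg lfe lge lμ hrel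
    have la := tendsto_toward (O := O) he a
    have lb := tendsto_toward (O := O) he b
    have lm := la.add (lμ.smul (lb.sub la))
    have L1 := ((tendsto_ev lf lm).pow 2).mul ((tendsto_ev lg la).mul lge)
    have L2 := ((tendsto_ev lg lm).pow 2).mul (lfe.mul (tendsto_ev lf lb))
    have heq : ∀ n, (ev (f n) (toward O (e n) a + μ n • (toward O (e n) b - toward O (e n) a)))^2 *
          (ev (g n) (toward O (e n) a) * (ev (g n) (toward O (e n) b) / e n))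
        = (ev (g n) (toward O (e n) a + μ n • (toward O (e n) b - toward O (e n) a)))^2 *
          (ev (f n) (toward O (e n) a) / e n * ev (f n) (toward O (e n) b)) := by
      intro n
      have hn := (he0 n).ne'
      have := hrel n
      field_simp
      linear_combination this
    have := tendsto_nhds_unique L1 (L2.congr (fun n => (heq n).symm))
    rw [mul_one, one_mul] at this
    exact this
  have r1 := hrellim p q tp tq f1 g1 μ1 m1 hp hq lf1 lg1 lfe1 lge1 lμ1 hrel1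
  have r2 := hrellim q r tq tr f2 g2 μ2 m2 hq hr lf2 lg2 lfe2 lge2 lμ2 hrel2
  have r3 := hrellim r p tr tp f3 g3 μ3 m3 hr hp lf3 lg3 lfe3 lge3 lμ3 hrel3
  -- both values positive
  have hpos : ∀ (a b : ℝ × ℝ) (ta tb : ℝ × ℝ × ℝ) (m : ℝ), 0 ≤ m → m ≤ 1 → ev ta a = 0 →
      ev tb b = 0 → 0 < ev ta b → 0 < ev tb a →
      (ev ta (a + m • (b - a)))^2 * ev tb a = (ev tb (a + m • (b - a)))^2 * ev ta b →
      0 < ev ta (a + m • (b - a)) ∧ 0 < ev tb (a + m • (b - a)) := by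
    intro a b ta tb m h0 h1 haa hbb' hab' hba' hrel
    rw [ev_add_smul_sub, ev_add_smul_sub, haa, hbb'] at hrel ⊢
    have hm0 : m ≠ 0 := by
      rintro rfl
      have h2 : (ev tb a)^2 * ev ta b = 0 := by linear_combination -hrel
      have : 0 < (ev tb a)^2 * ev ta b := by positivity
      linarith
    have hm1 : m ≠ 1 := by
      rintro rfl
      have h2 : (ev ta b)^2 * ev tb a = 0 := by linear_combination hrel
      have : 0 < (ev ta b)^2 * ev tb a := by positivity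
      linarith
    have h0' : 0 < m := lt_of_le_of_ne h0 (Ne.symm hm0)
    have h1' : m < 1 := lt_of_le_of_ne h1 hm1
    constructor
    · have := mul_pos h0' hab'
      linarith
    · have := mul_pos (sub_pos.2 h1') hba'
      linarith
  obtain ⟨x1, y1⟩ := hpos p q tp tq m1 hm10 hm11 hp.2.2.1 hq.2.2.1 hpq hqp r1
  obtain ⟨x2, y2⟩ := hpos q r tq tr m2 hm20 hm21 hq.2.2.1 hr.2.2.1 hqr hrq r2
  obtain ⟨x3, y3⟩ := hpos r p tr tp m3 hm30 hm31 hr.2.2.1 hp.2.2.1 hrp hpr r3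
  set X1 := ev tp (p + m1 • (q - p))
  set Y1 := ev tq (p + m1 • (q - p))
  set X2 := ev tq (q + m2 • (r - q))
  set Y2 := ev tr (q + m2 • (r - q))
  set X3 := ev tr (r + m3 • (p - r))
  set Y3 := ev tp (r + m3 • (p - r))
  have hXY : Y1 * Y2 * Y3 = X1 * X2 * X3 := by linarith
  have hmul : (X1 * X2 * X3)^2 * (ev tq p * ev tr q * ev tp r)
      = (Y1 * Y2 * Y3)^2 * (ev tp q * ev tq r * ev tr p) := by
    calc (X1 * X2 * X3)^2 * (ev tq p * ev tr q * ev tp r)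
        = (X1^2 * ev tq p) * (X2^2 * ev tr q) * (X3^2 * ev tp r) := by ring
      _ = (Y1^2 * ev tp q) * (Y2^2 * ev tq r) * (Y3^2 * ev tr p) := by rw [r1, r2, r3]
      _ = _ := by ring
  rw [hXY] at hmul
  have hne' : (X1 * X2 * X3)^2 ≠ 0 := by positivity
  exact (mul_left_cancel₀ hne' hmul).symm

end Pool.Agent.S08199
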