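import Pool.Statements.S08206
import Pool.Agent.Helper361.SteinerPolar

set_option autoImplicit false
open Pool Pool.MP_26fc11_gt
open MeasureTheory Set
open scoped ENNReal
open Pool.Agent.Helper361.SteinerPolar

namespace Pool.Agent.S08206

/-- The negation of the preceding statement: There is an absolute constant C such that for every n ≥ 1 and every centrally symmetric convex body K in R^n, some unit direction u has vol of the polar of the Steiner symmetral of K along u at most C times vol of the polar of K. -/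
theorem result :
    ¬ (∃ C : ℝ, ∀ n : ℕ, 1 ≤ n → ∀ K : Set (EuclideanSpace ℝ (Fin n)),
      IsCompact K → Convex ℝ K → (interior K).Nonempty → (∀ x ∈ K, -x ∈ K) →
      ∃ u : EuclideanSpace ℝ (Fin n), ‖u‖ = 1 ∧
        MeasureTheory.volume
          {y : EuclideanSpace ℝ (Fin n) |
            ∀ x ∈ {z : EuclideanSpace ℝ (Fin n) |
                (∃ s : ℝ, z + s • u ∈ K) ∧
                ENNReal.ofReal (2 * |inner ℝ z u|) ≤
                  MeasureTheory.volume {s : ℝ | z + s • u ∈ K}},
              inner ℝ x y ≤ (1 : ℝ)}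
        ≤ ENNReal.ofReal C *
          MeasureTheory.volume
            {y : EuclideanSpace ℝ (Fin n) | ∀ x ∈ K, inner ℝ x y ≤ (1 : ℝ)}) := by
  rintro ⟨C, hC⟩
  obtain ⟨d, hd⟩ := pow_unbounded_of_one_lt ((512 / 3 * (|C| + 1)) ^ 4) (one_lt_two (α := ℝ))
  obtain ⟨W⟩ := exists_WH d
  set n : ℕ := 2 ^ d with hn
  have hn1 : 1 ≤ n := Nat.one_le_two_pow
  have hn0 : (0:ℝ) < n := by exact_mod_cast hn1
  have hnd : (n : ℝ) = 2 ^ d := by rw [hn]; push_cast; rfl
  have hsn : 0 < Real.sqrt n := Real.sqrt_pos.2 hn0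
  set K : Set (EE n) := {x : EE n | ∀ q, inner ℝ x (yy W q) ≤ (1:ℝ)} with hK
  -- coordinates of points of K
  have hcoord : ∀ x ∈ K, ∀ i, |x i| ≤ (Real.sqrt n)⁻¹ := by
    intro x hx i
    have h1 := hx (true, false, i)
    have h2 := hx (false, false, i)
    have e1 : inner ℝ x (yy W (true, false, i)) = Real.sqrt n * x i := by
      simp [yy, PiLp.inner_apply]
    have e2 : inner ℝ x (yy W (false, false, i)) = - (Real.sqrt n * x i) := by
      simp [yy, PiLp.inner_apply]
    rw [e1] at h1
    rw [e2] at h2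
    have h3 : |Real.sqrt n * x i| ≤ 1 := abs_le.2 ⟨by linarith, h1⟩
    rw [abs_mul, abs_of_pos hsn] at h3
    rw [inv_eq_one_div, le_div_iff₀ hsn]
    linarith
  have hKball : K ⊆ Metric.closedBall 0 1 := by
    intro x hx
    rw [mem_closedBall_zero_iff, EuclideanSpace.norm_eq, Real.sqrt_le_left (by norm_num), one_pow]
    calc ∑ i, ‖x i‖ ^ 2 ≤ ∑ i : Fin n, ((Real.sqrt n)⁻¹) ^ 2 := by
          apply Finset.sum_le_sum
          intro i _
          rw [Real.norm_eq_abs]
          have := hcoord x hx i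
          gcongr
      _ = 1 := by
          rw [Finset.sum_const, Finset.card_univ, Fintype.card_fin, inv_pow,
            Real.sq_sqrt hn0.le, nsmul_eq_mul]
          exact mul_inv_cancel₀ hn0.ne'
  have hKclosed : IsClosed K := by
    have : K = ⋂ q, {x : EE n | inner ℝ x (yy W q) ≤ (1:ℝ)} := by ext; simp [hK]
    rw [this]
    refine isClosed_iInter fun q => ?_
    apply isClosed_le <;> fun_prop
  have hKc : IsCompact K := (isCompact_closedBall 0 1).of_isClosed_subset hKclosed hKball
  have hKconv : Convex ℝ K := by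
    intro x hx y hy a b ha hb hab q
    rw [inner_add_left, inner_smul_left, inner_smul_left]
    have h1 := hx q
    have h2 := hy q
    simp only [conj_trivial]
    calc a * inner ℝ x (yy W q) + b * inner ℝ y (yy W q) ≤ a * 1 + b * 1 := by gcongr
      _ = 1 := by linarith
  have hKsym : ∀ x ∈ K, -x ∈ K := by
    intro x hx q
    rw [inner_neg_left, ← inner_neg_right, yy_neg]
    exact hx _
  have hKint : (interior K).Nonempty := by
    refine ⟨0, ?_⟩
    rw [mem_interior_iff_mem_nhds]
    have : K = ⋂ q, {x : EE n | inner ℝ x (yy W q) ≤ (1:ℝ)} := by ext; simp [hK]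
    rw [this]
    refine (Filter.iInter_mem).2 fun q => ?_
    have hcont : Continuous (fun x : EE n => (inner ℝ x (yy W q) : ℝ)) := by fun_prop
    have h0 : (fun x : EE n => (inner ℝ x (yy W q) : ℝ)) 0 < 1 := by simp
    refine Filter.mem_of_superset (hcont.continuousAt.eventually_lt continuousAt_const h0) ?_
    intro x hx
    have hx' : inner ℝ x (yy W q) < (1:ℝ) := hx
    exact le_of_lt hx'
  obtain ⟨u, hu, hle⟩ := hC n hn1 K hKc hKconv hKint hKsym
  have h1 := main_ineq hn1 W u hu
  have h0L : (0 : EE n) ∈ convexHull ℝ (range (yy W)) := by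
    have h2 : yy W (true, false, ⟨0, hn1⟩) ∈ convexHull ℝ (range (yy W)) :=
      subset_convexHull ℝ _ ⟨_, rfl⟩
    have h3 : - yy W (true, false, ⟨0, hn1⟩) ∈ convexHull ℝ (range (yy W)) := by
      rw [yy_neg]
      exact subset_convexHull ℝ _ ⟨_, rfl⟩
    have h4 := (convex_convexHull ℝ (range (yy W))) h2 h3 (a := 1 / 2) (b := 1 / 2)
      (by norm_num) (by norm_num) (by norm_num)
    simpa using h4
  set L := convexHull ℝ (range (yy W)) with hL
  have hLc : IsCompact L := (Set.finite_range _).isCompact_convexHull ℝ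
  have hpol : {y : EE n | ∀ x ∈ K, inner ℝ x y ≤ (1 : ℝ)} ⊆ L := by
    intro z hz
    exact polar_sub (yy W) h0L z hz
  have hpos : 0 < volume L := by
    have hb : Metric.closedBall (0 : EE n) 1 ⊆ L := by
      refine subset_trans ?_ hpol
      intro z hz x hx
      have h5 := hKball hx
      rw [mem_closedBall_zero_iff] at h5 hz
      calc inner ℝ x z ≤ ‖x‖ * ‖z‖ := real_inner_le_norm x z
        _ ≤ 1 * 1 := by gcongr
        _ = 1 := by norm_num
    exact lt_of_lt_of_le (Metric.measure_closedBall_pos volume 0 one_pos) (measure_mono hb)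
  have hfin : volume L ≠ ∞ := hLc.measure_ne_top
  have h2 : volume {x : EE n | (x - (inner ℝ x u) • u, inner ℝ x u) ∈ BB (yy W) u} ≤
      ENNReal.ofReal C * volume L := by
    refine le_trans (measure_mono ?_) (hle.trans ?_)
    · intro x hx
      exact steiner_polar (yy W) u hu K hKc (fun x hx q => hx q) x hx
    · gcongr
  have h3 := h1.trans h2
  have h4 : ENNReal.ofReal (3 / 512 * (Real.sqrt n * mm W u)) ≤ ENNReal.ofReal C :=
    (ENNReal.mul_le_mul_iff_left hpos.ne' hfin).1 h3
  obtain ⟨hm4, hm⟩ := mm_ge hn1 W u hu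
  have h5 : 3 / 512 * (Real.sqrt n * mm W u) ≤ |C| := by
    have h6 : ENNReal.ofReal C ≤ ENNReal.ofReal |C| := ENNReal.ofReal_le_ofReal (le_abs_self C)
    exact (ENNReal.ofReal_le_ofReal_iff (abs_nonneg C)).1 (h4.trans h6)
  have h6 : (Real.sqrt n * mm W u) ^ 4 ≥ n := by
    have e : (Real.sqrt n * mm W u) ^ 4 = (n : ℝ) * ((mm W u) ^ 4 * n) := by
      rw [mul_pow, show (Real.sqrt n) ^ 4 = ((Real.sqrt n) ^ 2) ^ 2 by ring, Real.sq_sqrt hn0.le]
      ring
    rw [e]
    nlinarith
  have h7 : Real.sqrt n * mm W u ≤ 512 / 3 * (|C| + 1) := by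
    have : Real.sqrt n * mm W u ≤ 512 / 3 * |C| := by linarith
    linarith
  have h8 : (Real.sqrt n * mm W u) ^ 4 ≤ (512 / 3 * (|C| + 1)) ^ 4 := by
    have h9 : 0 ≤ Real.sqrt n * mm W u := by positivity
    gcongr
  rw [← hnd] at hd
  linarith

end Pool.Agent.S08206
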