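import Pool.Statements.S08212
import Pool.Agent.Helper374.RidgeCheck

set_option autoImplicit false
open Pool Pool.MP_28bdbe_gt

namespace Pool.Agent.S08212

open Pool.Agent.RidgeCert

theorem KK_bounded : Bornology.IsBounded (KK hps) := by
  apply (Metric.isBounded_Icc ((-10 : ℝ), (-10 : ℝ)) ((5000 : ℝ), (7000 : ℝ))).subset
  intro p hp
  have g : ∀ (i : ℕ) (q : HP), hps[i]? = some q →
      (q.ap : ℝ) * p.1 + q.bp * p.2 + q.cn ≤ q.cp + q.an * p.1 + q.bn * p.2 :=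
    fun i q h => hp q (List.mem_of_getElem? h)
  have h0 := g 0 _ rfl
  have h1 := g 1 _ rfl
  have h2 := g 2 _ rfl
  have h3 := g 3 _ rfl
  have h4 := g 4 _ rfl
  have h5 := g 5 _ rfl
  have h22 := g 22 _ rfl
  have h23 := g 23 _ rfl
  norm_num at h0 h1 h2 h3 h4 h5 h22 h23
  rw [Set.mem_Icc, Prod.le_def, Prod.le_def]
  refine ⟨⟨?_, ?_⟩, ⟨?_, ?_⟩⟩
  · show (-10 : ℝ) ≤ p.1
    linarith
  · show (-10 : ℝ) ≤ p.2
    linarith
  · show p.1 ≤ (5000 : ℝ)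
    linarith
  · show p.2 ≤ (7000 : ℝ)
    linarith

theorem KK_compact : IsCompact (KK hps) :=
  Metric.isCompact_of_isClosed_isBounded (KK_closed hps) KK_bounded

/-- The negation of the preceding statement: Every compact convex planar set with nonempty interior equals the set where f1+f2+f3+f4 ≥ 0, for some measurable ridge functions f1..f4 in directions (1,0), (0,1), (2,1), (-1,2). -/
theorem result :
    ¬ (∀ K : Set (ℝ × ℝ), Convex ℝ K → IsCompact K → (interior K).Nonempty →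
      ∃ f₁ f₂ f₃ f₄ : ℝ × ℝ → ℝ,
        Measurable f₁ ∧ Measurable f₂ ∧ Measurable f₃ ∧ Measurable f₄ ∧
        (∃ g₁ : ℝ → ℝ, ∀ x : ℝ × ℝ, f₁ x = g₁ x.1) ∧
        (∃ g₂ : ℝ → ℝ, ∀ x : ℝ × ℝ, f₂ x = g₂ x.2) ∧
        (∃ g₃ : ℝ → ℝ, ∀ x : ℝ × ℝ, f₃ x = g₃ (2 * x.1 + x.2)) ∧
        (∃ g₄ : ℝ → ℝ, ∀ x : ℝ × ℝ, f₄ x = g₄ (-x.1 + 2 * x.2)) ∧
        K = {x : ℝ × ℝ | 0 ≤ f₁ x + f₂ x + f₃ x + f₄ x}) := by
  intro h
  obtain ⟨f₁, f₂, f₃, f₄, -, -, -, -, ⟨g₁, h₁⟩, ⟨g₂, h₂⟩, ⟨g₃, h₃⟩, ⟨g₄, h₄⟩, hK⟩ :=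
    h (KK hps) (KK_convex hps) KK_compact (KK_interior hps 2340 3420 (by decide +kernel))
  refine not_ridge hps dP dM cert chkP_ok chkM_ok anyPos_ok g₁ g₂ g₃ g₄ ?_
  rw [hK]
  ext p
  simp only [h₁, h₂, h₃, h₄]

end Pool.Agent.S08212
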