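import Pool.Statements.S08214

set_option autoImplicit false
open Pool Pool.MP_28e94d_gt

namespace Pool.Agent.S08214

/-- The property of having a compact normal subgroup with countably many cosets. -/
def HasCN (H : Type) [Group H] [TopologicalSpace H] : Prop :=
  ∃ K : Subgroup H, K.Normal ∧ IsCompact (K : Set H) ∧ Countable (H ⧸ K)

/-- The underlying set of the semidirect product of the 2-adic numbers by the integers
acting by multiplication by powers of two. -/
@[ext] structure Aff : Type where
  a : ℚ_[2]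
  m : ℤ

/-- The obvious bijection with the product. -/
def toP (x : Aff) : ℚ_[2] × ℤ := (x.a, x.m)

theorem toP_inj : Function.Injective toP := by
  intro x y h
  have h1 := congrArg Prod.fst h
  have h2 := congrArg Prod.snd h
  exact Aff.ext h1 h2

noncomputable instance : TopologicalSpace Aff := TopologicalSpace.induced toP inferInstance

theorem toP_inducing : Topology.IsInducing toP := ⟨rfl⟩
theorem toP_emb : Topology.IsEmbedding toP := ⟨toP_inducing, toP_inj⟩

instance : T2Space Aff := toP_emb.t2Space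
instance : SecondCountableTopology Aff := toP_inducing.secondCountableTopology

theorem cont_a : Continuous Aff.a := continuous_fst.comp toP_inducing.continuous
theorem cont_m : Continuous Aff.m := continuous_snd.comp toP_inducing.continuous

theorem two_ne : (2 : ℚ_[2]) ≠ 0 := by norm_num

noncomputable instance : Group Aff where
  mul x y := ⟨x.a + (2 : ℚ_[2]) ^ x.m * y.a, x.m + y.m⟩
  one := ⟨0, 0⟩
  inv x := ⟨-((2 : ℚ_[2]) ^ (-x.m) * x.a), -x.m⟩
  mul_assoc x y z := by
    change (⟨(x.a + (2 : ℚ_[2]) ^ x.m * y.a) + (2 : ℚ_[2]) ^ (x.m + y.m) * z.a,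
      (x.m + y.m) + z.m⟩ : Aff) =
      ⟨x.a + (2 : ℚ_[2]) ^ x.m * (y.a + (2 : ℚ_[2]) ^ y.m * z.a), x.m + (y.m + z.m)⟩
    rw [zpow_add₀ two_ne, add_assoc x.m]
    congr 1
    ring
  one_mul x := by
    change (⟨(0 : ℚ_[2]) + (2 : ℚ_[2]) ^ (0 : ℤ) * x.a, (0 : ℤ) + x.m⟩ : Aff) = x
    simp
  mul_one x := by
    change (⟨x.a + (2 : ℚ_[2]) ^ x.m * (0 : ℚ_[2]), x.m + (0 : ℤ)⟩ : Aff) = x
    simp
  inv_mul_cancel x := by
    change (⟨-((2 : ℚ_[2]) ^ (-x.m) * x.a) + (2 : ℚ_[2]) ^ (-x.m) * x.a, -x.m + x.m⟩ : Aff) =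
      ⟨0, 0⟩
    simp

theorem mul_a (x y : Aff) : (x * y).a = x.a + (2 : ℚ_[2]) ^ x.m * y.a := rfl
theorem mul_m (x y : Aff) : (x * y).m = x.m + y.m := rfl
theorem one_a : (1 : Aff).a = 0 := rfl
theorem one_m : (1 : Aff).m = 0 := rfl
theorem inv_a (x : Aff) : (x⁻¹).a = -((2 : ℚ_[2]) ^ (-x.m) * x.a) := rfl
theorem inv_m (x : Aff) : (x⁻¹).m = -x.m := rfl

theorem cont_pow : Continuous (fun n : ℤ => (2 : ℚ_[2]) ^ n) := continuous_of_discreteTopology

instance : IsTopologicalGroup Aff where
  continuous_mul := by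
    rw [toP_inducing.continuous_iff]
    have h1 : Continuous (fun p : Aff × Aff => p.1.a + (2 : ℚ_[2]) ^ p.1.m * p.2.a) := by
      refine Continuous.add (cont_a.comp continuous_fst) (Continuous.mul ?_ ?_)
      · exact cont_pow.comp (cont_m.comp continuous_fst)
      · exact cont_a.comp continuous_snd
    have h2 : Continuous (fun p : Aff × Aff => p.1.m + p.2.m) :=
      (cont_m.comp continuous_fst).add (cont_m.comp continuous_snd)
    exact h1.prodMk h2
  continuous_inv := by
    rw [toP_inducing.continuous_iff]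
    have h1 : Continuous (fun p : Aff => -((2 : ℚ_[2]) ^ (-p.m) * p.a)) := by
      refine Continuous.neg (Continuous.mul ?_ cont_a)
      exact cont_pow.comp cont_m.neg
    have h2 : Continuous (fun p : Aff => -p.m) := cont_m.neg
    exact h1.prodMk h2

/-- The compact open subgroup of 2-adic integers. -/
def KK : Subgroup Aff where
  carrier := {x | ‖x.a‖ ≤ 1 ∧ x.m = 0}
  mul_mem' := by
    rintro x y ⟨hx1, hx2⟩ ⟨hy1, hy2⟩
    refine ⟨?_, ?_⟩
    · rw [mul_a, hx2, zpow_zero, one_mul]
      exact (Padic.nonarchimedean _ _).trans (max_le hx1 hy1)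
    · rw [mul_m, hx2, hy2]; rfl
  one_mem' := by
    refine ⟨?_, rfl⟩
    rw [one_a]
    simp
  inv_mem' := by
    rintro x ⟨hx1, hx2⟩
    refine ⟨?_, ?_⟩
    · rw [inv_a, hx2]
      simpa using hx1
    · rw [inv_m, hx2]; rfl

theorem mem_KK (x : Aff) : x ∈ KK ↔ ‖x.a‖ ≤ 1 ∧ x.m = 0 := Iff.rfl

theorem KK_compact : IsCompact (KK : Set Aff) := by
  have h : IsCompact ((Metric.closedBall (0 : ℚ_[2]) 1) ×ˢ ({0} : Set ℤ)) :=
    (isCompact_closedBall _ _).prod isCompact_singleton
  rw [toP_inducing.isCompact_iff]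
  have e : toP '' (KK : Set Aff) = ((Metric.closedBall (0 : ℚ_[2]) 1) ×ˢ ({0} : Set ℤ)) := by
    ext ⟨u, k⟩
    constructor
    · rintro ⟨x, hx, hxe⟩
      have hx' := (mem_KK x).1 hx
      have h1 : x.a = u := congrArg Prod.fst hxe
      have h2 : x.m = k := congrArg Prod.snd hxe
      rw [← h1, ← h2]
      refine ⟨?_, ?_⟩
      · simpa using hx'.1
      · exact hx'.2
    · rintro ⟨h1, h2⟩
      refine ⟨⟨u, k⟩, ⟨?_, ?_⟩, rfl⟩
      · simpa using h1
      · exact h2
  rw [e]
  exact h

theorem KK_count : Countable (Aff ⧸ KK) := by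
  have hs : Function.Surjective
      (fun p : ℚ × ℤ => (QuotientGroup.mk (s := KK) (⟨(p.1 : ℚ_[2]), p.2⟩ : Aff) : Aff ⧸ KK)) := by
    intro q
    induction q using QuotientGroup.induction_on with
    | H x =>
      obtain ⟨r, hr⟩ := Padic.rat_dense 2 x.a
        (norm_pos_iff.2 (zpow_ne_zero x.m two_ne))
      refine ⟨(r, x.m), ?_⟩
      simp only
      rw [QuotientGroup.eq, mem_KK]
      refine ⟨?_, ?_⟩
      · rw [mul_a, inv_a, inv_m]
        have : (-((2 : ℚ_[2]) ^ (-x.m) * (r : ℚ_[2])) + (2 : ℚ_[2]) ^ (-x.m) * x.a : ℚ_[2]) =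
            (2 : ℚ_[2]) ^ (-x.m) * (x.a - (r : ℚ_[2])) := by ring
        simp only
        rw [this, norm_mul, zpow_neg, norm_inv]
        have hpos : 0 < ‖(2 : ℚ_[2]) ^ x.m‖ := norm_pos_iff.2 (zpow_ne_zero x.m two_ne)
        rw [inv_mul_le_iff₀ hpos, mul_one]
        exact hr.le
      · rw [mul_m, inv_m]
        simp
  exact hs.countable

theorem not_HasCN : ¬ HasCN Aff := by
  rintro ⟨N, hN, hcomp, hcount⟩
  have hpow : ∀ (x : Aff) (k : ℕ), (x ^ k).m = k * x.m := by
    intro x k
    induction k with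
    | zero => simp [one_m]
    | succ k ih =>
      rw [pow_succ, mul_m, ih]; push_cast; ring
  have h2 : ∀ x ∈ N, x.m = 0 := by
    intro x hx
    by_contra hne
    have hc : IsCompact (Aff.m '' (N : Set Aff)) := hcomp.image cont_m
    obtain ⟨C, hC⟩ := hc.isBounded.exists_norm_le
    obtain ⟨k, hk⟩ := exists_nat_gt C
    have hm := hC _ ⟨x ^ k, N.pow_mem hx k, rfl⟩
    rw [hpow] at hm
    have h1 : (1 : ℝ) ≤ ‖x.m‖ := by
      rw [Int.norm_eq_abs]
      have : (1 : ℤ) ≤ |x.m| := Int.one_le_abs hne
      exact_mod_cast this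
    rw [norm_mul] at hm
    have h3 : ‖((k : ℕ) : ℤ)‖ = (k : ℝ) := by
      rw [Int.norm_eq_abs]; simp
    rw [h3] at hm
    nlinarith [Nat.cast_nonneg (α := ℝ) k]
  have h1 : ∀ x ∈ N, x.a = 0 := by
    intro x hx
    by_contra hne
    have hc : IsCompact (Aff.a '' (N : Set Aff)) := hcomp.image cont_a
    obtain ⟨C, hC⟩ := hc.isBounded.exists_norm_le
    have hpos : 0 < ‖x.a‖ := norm_pos_iff.2 hne
    obtain ⟨k, hk⟩ := pow_unbounded_of_one_lt (C / ‖x.a‖) (one_lt_two : (1 : ℝ) < 2)
    let g : Aff := ⟨0, -(k : ℤ)⟩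
    have hmem : g * x * g⁻¹ ∈ N := hN.conj_mem x hx g
    have hm := hC _ ⟨_, hmem, rfl⟩
    have hval : (g * x * g⁻¹).a = (2 : ℚ_[2]) ^ (-(k : ℤ)) * x.a := by
      rw [mul_a, mul_a, inv_a]
      change ((0 : ℚ_[2]) + (2 : ℚ_[2]) ^ (-(k : ℤ)) * x.a) + (2 : ℚ_[2]) ^ (g * x).m *
        (-((2 : ℚ_[2]) ^ (-(-(k : ℤ))) * (0 : ℚ_[2]))) = _
      ring
    rw [hval, norm_mul, zpow_neg, norm_inv, zpow_natCast, norm_pow] at hm
    have hn2 : ‖(2 : ℚ_[2])‖ = 2⁻¹ := by
      have := Padic.norm_p (p := 2)
      simpa using this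
    rw [hn2, inv_pow, inv_inv] at hm
    rw [div_lt_iff₀ hpos] at hk
    linarith
  have hbot : ∀ x ∈ N, x = 1 := fun x hx => Aff.ext (h1 x hx) (h2 x hx)
  have hinj : Function.Injective (QuotientGroup.mk (s := N)) := by
    intro a b hab
    rw [QuotientGroup.eq] at hab
    have := hbot _ hab
    exact (inv_mul_eq_one.1 this)
  have hcA : Countable Aff := hinj.countable
  have hinj2 : Function.Injective (fun a : ℚ_[2] => (⟨a, 0⟩ : Aff)) := by
    intro a b hab
    exact congrArg Aff.a hab
  have hcQ : Countable ℚ_[2] := hinj2.countable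
  have hcard := continuum_le_cardinal_of_nontriviallyNormedField ℚ_[2]
  have := Cardinal.mk_le_aleph0_iff.2 hcQ
  exact absurd (hcard.trans this) (not_le.2 Cardinal.aleph0_lt_continuum)

/-- The negation of the preceding statement: A Hausdorff topological group lies in the smallest class containing compact separable and countable groups, closed under finite products, closed subgroups and continuous homomorphic images, iff it has a compact separable subgroup with countably many cosets. -/
theorem result :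
    ¬ (∀ (G : Type) [Group G] [TopologicalSpace G] [IsTopologicalGroup G] [T2Space G],
      ((∀ P : (H : Type) → [Group H] → [TopologicalSpace H] → Prop,
          (∀ (H : Type) [Group H] [TopologicalSpace H] [IsTopologicalGroup H] [T2Space H],
              CompactSpace H → TopologicalSpace.SeparableSpace H → P H) →
          (∀ (H : Type) [Group H] [TopologicalSpace H] [IsTopologicalGroup H] [T2Space H],
              Countable H → P H) →
          (∀ (H₁ : Type) [Group H₁] [TopologicalSpace H₁] [IsTopologicalGroup H₁] [T2Space H₁]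
              (H₂ : Type) [Group H₂] [TopologicalSpace H₂] [IsTopologicalGroup H₂] [T2Space H₂],
              P H₁ → P H₂ → P (H₁ × H₂)) →
          (∀ (H : Type) [Group H] [TopologicalSpace H] [IsTopologicalGroup H] [T2Space H]
              (L : Subgroup H), IsClosed (L : Set H) → P H → P L) →
          (∀ (H₁ : Type) [Group H₁] [TopologicalSpace H₁] [IsTopologicalGroup H₁] [T2Space H₁]
              (H₂ : Type) [Group H₂] [TopologicalSpace H₂] [IsTopologicalGroup H₂] [T2Space H₂]
              (f : H₁ →* H₂), Continuous f → Function.Surjective f → P H₁ → P H₂) →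
          P G) ↔
        ∃ K : Subgroup G, CompactSpace K ∧ TopologicalSpace.SeparableSpace K ∧
          Countable (G ⧸ K))) := by
  intro h
  have hsep : TopologicalSpace.SeparableSpace KK :=
    haveI : SecondCountableTopology KK := Topology.IsInducing.subtypeVal.secondCountableTopology
    inferInstance
  refine not_HasCN ((h Aff).2 ⟨KK, isCompact_iff_compactSpace.1 KK_compact, hsep, KK_count⟩
    @HasCN ?_ ?_ ?_ ?_ ?_)
  · -- compact separable groups
    intro H _ _ _ _ hc _
    refine ⟨⊤, inferInstance, ?_, ?_⟩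
    · simpa using isCompact_univ
    · exact inferInstance
  · -- countable groups
    intro H _ _ _ _ hc
    refine ⟨⊥, inferInstance, ?_, ?_⟩
    · simp
    · exact (QuotientGroup.mk_surjective (s := (⊥ : Subgroup H))).countable
  · -- products
    rintro H₁ _ _ _ _ H₂ _ _ _ _ ⟨K₁, hn₁, hc₁, hq₁⟩ ⟨K₂, hn₂, hc₂, hq₂⟩
    refine ⟨K₁.prod K₂, inferInstance, ?_, ?_⟩
    · rw [Subgroup.coe_prod]; exact hc₁.prod hc₂
    · have hinj : Function.Injective (fun q : (H₁ × H₂) ⧸ K₁.prod K₂ =>
          ((QuotientGroup.map (K₁.prod K₂) K₁ (MonoidHom.fst H₁ H₂)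
              (fun x hx => hx.1) q : H₁ ⧸ K₁),
           (QuotientGroup.map (K₁.prod K₂) K₂ (MonoidHom.snd H₁ H₂)
              (fun x hx => hx.2) q : H₂ ⧸ K₂))) := by
        intro a b
        induction a using QuotientGroup.induction_on with
        | H a =>
        induction b using QuotientGroup.induction_on with
        | H b =>
        intro hab
        obtain ⟨h1, h2⟩ := Prod.ext_iff.1 hab
        have h1' : (QuotientGroup.mk (s := K₁) a.1) = QuotientGroup.mk b.1 := h1
        have h2' : (QuotientGroup.mk (s := K₂) a.2) = QuotientGroup.mk b.2 := h2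
        rw [QuotientGroup.eq] at h1' h2'
        rw [QuotientGroup.eq]
        exact ⟨h1', h2'⟩
      exact hinj.countable
  · -- closed subgroups
    rintro H _ _ _ _ L hL ⟨K, hn, hc, hq⟩
    refine ⟨K.subgroupOf L, inferInstance, ?_, ?_⟩
    · have : ((K.subgroupOf L : Subgroup L) : Set L) = Subtype.val ⁻¹' (K : Set H) := by
        ext x; simp [Subgroup.mem_subgroupOf]
      rw [this]
      exact (hL.isClosedEmbedding_subtypeVal).isCompact_preimage hc
    · have hinj : Function.Injective (QuotientGroup.map (K.subgroupOf L) K L.subtype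
          (fun x hx => hx)) := by
        intro a b
        induction a using QuotientGroup.induction_on with
        | H a =>
        induction b using QuotientGroup.induction_on with
        | H b =>
        intro hab
        have h1' : (QuotientGroup.mk (s := K) (a : H)) = QuotientGroup.mk (b : H) := hab
        rw [QuotientGroup.eq] at h1'
        rw [QuotientGroup.eq]
        exact h1'
      exact hinj.countable
  · -- continuous images
    rintro H₁ _ _ _ _ H₂ _ _ _ _ f hf hs ⟨K, hn, hc, hq⟩
    have hn2 : (K.map f).Normal := hn.map f hs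
    refine ⟨K.map f, hn2, ?_, ?_⟩
    · rw [Subgroup.coe_map]; exact hc.image hf
    · have hsurj : Function.Surjective (QuotientGroup.map K (K.map f) f
          (Subgroup.le_comap_map f K)) := by
        intro q
        induction q using QuotientGroup.induction_on with
        | H y =>
        obtain ⟨x, rfl⟩ := hs y
        exact ⟨QuotientGroup.mk x, rfl⟩
      exact hsurj.countable

end Pool.Agent.S08214
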