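import Pool.Statements.S08226

set_option autoImplicit false
open Pool Pool.MP_2a9133_gt

namespace Pool.Agent.S08226

/-- The spiral `t ↦ (2 + arctan t) e^{it}` in the complex plane. -/
noncomputable def spiral (t : ℝ) : ℂ :=
  ((2 + Real.arctan t : ℝ) : ℂ) * Complex.exp (t * Complex.I)

/-- The point of the inner limit circle that is added to the spiral. -/
noncomputable def innerPt : ℂ := ((2 - Real.pi / 2 : ℝ) : ℂ)

/-- The point of the outer limit circle that is added to the spiral. -/
noncomputable def outerPt : ℂ := ((2 + Real.pi / 2 : ℝ) : ℂ)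

/-- The space: the spiral together with one point of each of its two limit circles. -/
def space : Set ℂ := insert innerPt (insert outerPt (Set.range spiral))

theorem radius_pos (t : ℝ) : 0 < 2 + Real.arctan t := by
  have h1 := Real.neg_pi_div_two_lt_arctan t
  have h2 := Real.pi_lt_d2
  linarith

theorem norm_spiral (t : ℝ) : ‖spiral t‖ = 2 + Real.arctan t := by
  unfold spiral
  rw [norm_mul, Complex.norm_exp_ofReal_mul_I, mul_one, Complex.norm_real, Real.norm_eq_abs,
    abs_of_pos (radius_pos t)]

theorem norm_innerPt : ‖innerPt‖ = 2 - Real.pi / 2 := by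
  unfold innerPt
  rw [Complex.norm_real, Real.norm_eq_abs, abs_of_pos]
  have h2 := Real.pi_lt_d2
  linarith

theorem norm_outerPt : ‖outerPt‖ = 2 + Real.pi / 2 := by
  unfold outerPt
  rw [Complex.norm_real, Real.norm_eq_abs, abs_of_pos]
  have h2 := Real.pi_pos
  linarith

theorem continuous_spiral : Continuous spiral := by
  unfold spiral
  have h : Continuous fun t : ℝ => ((2 + Real.arctan t : ℝ) : ℂ) :=
    Complex.continuous_ofReal.comp (continuous_const.add Real.continuous_arctan)
  exact h.mul (Complex.continuous_exp.comp (Complex.continuous_ofReal.mul continuous_const))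

theorem spiral_period (n : ℤ) : spiral (n * (2 * Real.pi)) =
    ((2 + Real.arctan (n * (2 * Real.pi)) : ℝ) : ℂ) := by
  unfold spiral
  have : Complex.exp (((n * (2 * Real.pi) : ℝ) : ℂ) * Complex.I) = 1 := by
    rw [Complex.exp_eq_one_iff]
    refine ⟨n, ?_⟩
    push_cast
    ring
  rw [this, mul_one]

theorem inner_mem_closure : innerPt ∈ closure (Set.range spiral) := by
  have h1 : Filter.Tendsto (fun n : ℕ => ((-(n : ℤ) : ℤ) : ℝ) * (2 * Real.pi)) Filter.atTop
      Filter.atBot := by
    have h0 : Filter.Tendsto (fun n : ℕ => (n : ℝ) * (2 * Real.pi)) Filter.atTop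
        Filter.atTop :=
      tendsto_natCast_atTop_atTop.atTop_mul_const (by positivity)
    have h2 := Filter.tendsto_neg_atTop_atBot.comp h0
    refine h2.congr ?_
    intro n
    simp
  have h2 : Filter.Tendsto (fun n : ℕ =>
      ((2 + Real.arctan (((-(n : ℤ) : ℤ) : ℝ) * (2 * Real.pi)) : ℝ) : ℂ)) Filter.atTop
      (nhds innerPt) := by
    have h3 : Filter.Tendsto Real.arctan Filter.atBot (nhds (-(Real.pi / 2))) :=
      Real.tendsto_arctan_atBot.mono_right nhdsWithin_le_nhds
    have h4 := (h3.comp h1).const_add (2 : ℝ)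
    have h5 : innerPt = ((2 + -(Real.pi / 2) : ℝ) : ℂ) := by
      unfold innerPt; congr 1
    rw [h5]
    exact (Complex.continuous_ofReal.tendsto _).comp h4
  refine mem_closure_of_tendsto h2 (Filter.Eventually.of_forall ?_)
  intro n
  exact ⟨_, spiral_period (-(n : ℤ))⟩

theorem outer_mem_closure : outerPt ∈ closure (Set.range spiral) := by
  have h1 : Filter.Tendsto (fun n : ℕ => (((n : ℤ) : ℤ) : ℝ) * (2 * Real.pi)) Filter.atTop
      Filter.atTop := by
    have h0 : Filter.Tendsto (fun n : ℕ => (n : ℝ) * (2 * Real.pi)) Filter.atTop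
        Filter.atTop :=
      tendsto_natCast_atTop_atTop.atTop_mul_const (by positivity)
    refine h0.congr ?_
    intro n
    simp
  have h2 : Filter.Tendsto (fun n : ℕ =>
      ((2 + Real.arctan ((((n : ℤ) : ℤ) : ℝ) * (2 * Real.pi)) : ℝ) : ℂ)) Filter.atTop
      (nhds outerPt) := by
    have h3 : Filter.Tendsto Real.arctan Filter.atTop (nhds (Real.pi / 2)) :=
      Real.tendsto_arctan_atTop.mono_right nhdsWithin_le_nhds
    have h4 := (h3.comp h1).const_add (2 : ℝ)
    exact (Complex.continuous_ofReal.tendsto _).comp h4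
  refine mem_closure_of_tendsto h2 (Filter.Eventually.of_forall ?_)
  intro n
  exact ⟨_, spiral_period (n : ℤ)⟩

theorem isConnected_space : IsConnected space := by
  have h : IsConnected (Set.range spiral) := isConnected_range continuous_spiral
  refine h.subset_closure ?_ ?_
  · intro x hx
    exact Set.mem_insert_of_mem _ (Set.mem_insert_of_mem _ hx)
  · intro x hx
    rcases hx with rfl | rfl | hx
    · exact inner_mem_closure
    · exact outer_mem_closure
    · exact subset_closure hx

theorem norm_mem_bounds {z : ℂ} (hz : z ∈ space) :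
    2 - Real.pi / 2 ≤ ‖z‖ ∧ ‖z‖ ≤ 2 + Real.pi / 2 := by
  have hp := Real.pi_pos
  rcases hz with rfl | rfl | ⟨t, rfl⟩
  · rw [norm_innerPt]; constructor <;> linarith
  · rw [norm_outerPt]; constructor <;> linarith
  · rw [norm_spiral]
    have h1 := Real.neg_pi_div_two_lt_arctan t
    have h2 := Real.arctan_lt_pi_div_two t
    constructor <;> linarith

theorem eq_of_norm_eq {z w : ℂ} (hz : z ∈ space) (hw : w ∈ space) (h : ‖z‖ = ‖w‖) : z = w := by
  have hp := Real.pi_pos
  rcases hz with rfl | rfl | ⟨t, rfl⟩ <;> rcases hw with rfl | rfl | ⟨s, rfl⟩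
  · rfl
  · rw [norm_innerPt, norm_outerPt] at h; linarith
  · rw [norm_innerPt, norm_spiral] at h
    have h1 := Real.neg_pi_div_two_lt_arctan s
    linarith
  · rw [norm_innerPt, norm_outerPt] at h; linarith
  · rfl
  · rw [norm_outerPt, norm_spiral] at h
    have h1 := Real.arctan_lt_pi_div_two s
    linarith
  · rw [norm_innerPt, norm_spiral] at h
    have h1 := Real.neg_pi_div_two_lt_arctan t
    linarith
  · rw [norm_outerPt, norm_spiral] at h
    have h1 := Real.arctan_lt_pi_div_two t
    linarith
  · rw [norm_spiral, norm_spiral] at h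
    have : t = s := Real.arctan_injective (by linarith)
    rw [this]

theorem spiral_add_pi (t : ℝ) : spiral (t + Real.pi) =
    -(((2 + Real.arctan (t + Real.pi) : ℝ) : ℂ) * Complex.exp (t * Complex.I)) := by
  unfold spiral
  have : Complex.exp (((t + Real.pi : ℝ) : ℂ) * Complex.I) = - Complex.exp (t * Complex.I) := by
    push_cast
    rw [add_mul, Complex.exp_add, Complex.exp_pi_mul_I]
    ring
  rw [this]
  ring

theorem dist_spiral (t : ℝ) : 4 - Real.pi ≤ dist (spiral t) (spiral (t + Real.pi)) := by
  rw [dist_eq_norm, spiral_add_pi, sub_neg_eq_add]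
  unfold spiral
  rw [← add_mul, norm_mul, Complex.norm_exp_ofReal_mul_I, mul_one, ← Complex.ofReal_add,
    Complex.norm_real, Real.norm_eq_abs]
  refine le_trans ?_ (le_abs_self _)
  have h1 := Real.neg_pi_div_two_lt_arctan t
  have h2 := Real.neg_pi_div_two_lt_arctan (t + Real.pi)
  linarith

/-- The negation of the preceding statement: For every connected metric space X, the semi-span of X (sup over connected Z ⊆ X×X with second projection inside first of inf distance) is at most twice its surjective semi-span (same, first projection all of X). -/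
theorem result :
    ¬ (∀ (X : Type) [MetricSpace X] [ConnectedSpace X],
      (⨆ (Z : Set (X × X)) (_ : IsConnected Z) (_ : Prod.snd '' Z ⊆ Prod.fst '' Z),
          ⨅ p ∈ Z, edist p.1 p.2)
        ≤ (2 : ENNReal) *
          (⨆ (Z : Set (X × X)) (_ : IsConnected Z) (_ : Prod.fst '' Z = Set.univ),
            ⨅ p ∈ Z, edist p.1 p.2)) := by
  intro hall
  have : ConnectedSpace space := isConnected_iff_connectedSpace.mp isConnected_space
  have key := hall space
  -- the points of the space
  have hy : ∀ t, spiral t ∈ space := fun t =>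
    Set.mem_insert_of_mem _ (Set.mem_insert_of_mem _ ⟨t, rfl⟩)
  have he : innerPt ∈ space := Set.mem_insert _ _
  have ho : outerPt ∈ space := Set.mem_insert_of_mem _ (Set.mem_insert _ _)
  -- the right-hand side vanishes
  have hR : (⨆ (Z : Set (space × space)) (_ : IsConnected Z)
      (_ : Prod.fst '' Z = Set.univ),
      ⨅ p ∈ Z, edist p.1 p.2) = 0 := by
    refine le_antisymm ?_ zero_le
    refine iSup_le fun Z => iSup_le fun hZ => iSup_le fun h1 => ?_
    have hg : Continuous fun p : space × space => ‖(p.1 : ℂ)‖ - ‖(p.2 : ℂ)‖ := by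
      fun_prop
    have he1 : (⟨innerPt, he⟩ : space) ∈ Prod.fst '' Z := by rw [h1]; trivial
    have ho1 : (⟨outerPt, ho⟩ : space) ∈ Prod.fst '' Z := by rw [h1]; trivial
    obtain ⟨p, hp, hpe⟩ := he1
    obtain ⟨q, hq, hqe⟩ := ho1
    have hpl : ‖(p.1 : ℂ)‖ - ‖(p.2 : ℂ)‖ ≤ 0 := by
      rw [hpe]
      have := (norm_mem_bounds p.2.2).1
      simp only [norm_innerPt]
      linarith
    have hqr : 0 ≤ ‖(q.1 : ℂ)‖ - ‖(q.2 : ℂ)‖ := by
      rw [hqe]
      have := (norm_mem_bounds q.2.2).2
      simp only [norm_outerPt]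
      linarith
    obtain ⟨w, hw, hw0⟩ := hZ.isPreconnected.intermediate_value hp hq hg.continuousOn
      ⟨hpl, hqr⟩
    have hww : w.1 = w.2 := Subtype.ext (eq_of_norm_eq w.1.2 w.2.2 (by linarith))
    refine (iInf₂_le w hw).trans ?_
    rw [hww, edist_self]
  -- the left-hand side is positive
  have hL : ENNReal.ofReal (4 - Real.pi) ≤
      (⨆ (Z : Set (space × space)) (_ : IsConnected Z) (_ : Prod.snd '' Z ⊆ Prod.fst '' Z),
          ⨅ p ∈ Z, edist p.1 p.2) := by
    let Z : Set (space × space) :=
      Set.range fun t : ℝ => ((⟨spiral t, hy t⟩ : space), (⟨spiral (t + Real.pi), hy _⟩ : space))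
    have hZc : IsConnected Z := by
      refine isConnected_range ?_
      refine Continuous.prodMk ?_ ?_
      · exact continuous_spiral.subtype_mk _
      · exact (continuous_spiral.comp (continuous_id.add continuous_const)).subtype_mk _
    have hZp : Prod.snd '' Z ⊆ Prod.fst '' Z := by
      rintro _ ⟨_, ⟨t, rfl⟩, rfl⟩
      exact ⟨_, ⟨t + Real.pi, rfl⟩, rfl⟩
    refine le_iSup_of_le Z (le_iSup_of_le hZc (le_iSup_of_le hZp ?_))
    refine le_iInf₂ ?_
    rintro _ ⟨t, rfl⟩
    rw [edist_dist]
    exact ENNReal.ofReal_le_ofReal (dist_spiral t)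
  rw [hR, mul_zero] at key
  have h0 : ENNReal.ofReal (4 - Real.pi) ≤ 0 := hL.trans key
  have h1 : 4 - Real.pi ≤ 0 := by
    rw [← ENNReal.ofReal_eq_zero]
    exact le_antisymm h0 zero_le
  have h2 := Real.pi_lt_d2
  linarith

end Pool.Agent.S08226
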