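import Pool.Statements.S08234
import Pool.Agent.Helper90.Geo3

set_option autoImplicit false
set_option linter.deprecated false
open Pool Pool.MP_2b7e24_gt

namespace Pool.Agent.S08234

/-- The negation of the preceding statement: Every cut-and-project set in R^k from a totally irrational subspace E (any complement F), with a bounded window in F having nonempty interior and null boundary, admits a bi-Lipschitz bijection onto some lattice in E. -/
theorem result :
    ¬ (∀ (k : ℕ) (E F : Submodule ℝ (EuclideanSpace ℝ (Fin k))) (h : IsCompl E F) (W : Set F),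
      1 ≤ Module.finrank ℝ E →
      Set.InjOn (fun x => (Submodule.linearProjOfIsCompl E F h x : EuclideanSpace ℝ (Fin k)))
        {x : EuclideanSpace ℝ (Fin k) | ∀ i, ∃ z : ℤ, (EuclideanSpace.proj i : EuclideanSpace ℝ (Fin k) →L[ℝ] ℝ) x = (z : ℝ)} →
      Dense ((fun x => Submodule.linearProjOfIsCompl F E h.symm x) ''
        {x : EuclideanSpace ℝ (Fin k) | ∀ i, ∃ z : ℤ, (EuclideanSpace.proj i : EuclideanSpace ℝ (Fin k) →L[ℝ] ℝ) x = (z : ℝ)}) →
      Bornology.IsBounded W →
      (interior W).Nonempty →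
      MeasureTheory.volume (frontier W) = 0 →
      ∃ L : AddSubgroup (EuclideanSpace ℝ (Fin k)),
        (L : Set (EuclideanSpace ℝ (Fin k))) ⊆ (E : Set (EuclideanSpace ℝ (Fin k))) ∧
        DiscreteTopology L ∧
        Submodule.span ℝ (L : Set (EuclideanSpace ℝ (Fin k))) = E ∧
        ∃ f : EuclideanSpace ℝ (Fin k) → EuclideanSpace ℝ (Fin k), ∃ c : ℝ, 0 < c ∧
          Set.BijOn f
            ((fun x => (Submodule.linearProjOfIsCompl E F h x : EuclideanSpace ℝ (Fin k))) ''
              {x : EuclideanSpace ℝ (Fin k) | (∀ i, ∃ z : ℤ, (EuclideanSpace.proj i : EuclideanSpace ℝ (Fin k) →L[ℝ] ℝ) x = (z : ℝ)) ∧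
                Submodule.linearProjOfIsCompl F E h.symm x ∈ W})
            (L : Set (EuclideanSpace ℝ (Fin k))) ∧
          ∀ y₁ ∈ ((fun x => (Submodule.linearProjOfIsCompl E F h x : EuclideanSpace ℝ (Fin k))) ''
              {x : EuclideanSpace ℝ (Fin k) | (∀ i, ∃ z : ℤ, (EuclideanSpace.proj i : EuclideanSpace ℝ (Fin k) →L[ℝ] ℝ) x = (z : ℝ)) ∧
                Submodule.linearProjOfIsCompl F E h.symm x ∈ W}),
          ∀ y₂ ∈ ((fun x => (Submodule.linearProjOfIsCompl E F h x : EuclideanSpace ℝ (Fin k))) ''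
              {x : EuclideanSpace ℝ (Fin k) | (∀ i, ∃ z : ℤ, (EuclideanSpace.proj i : EuclideanSpace ℝ (Fin k) →L[ℝ] ℝ) x = (z : ℝ)) ∧
                Submodule.linearProjOfIsCompl F E h.symm x ∈ W}),
            dist y₁ y₂ ≤ c * dist (f y₁) (f y₂) ∧ dist (f y₁) (f y₂) ≤ c * dist y₁ y₂) := by
  intro hmain
  obtain ⟨e, κ, B, hg, hB⟩ := Pool.Agent.Helper90.St.exists_data (EuclideanSpace ℝ (Fin 4))
  set a : ℝ := Pool.Agent.Helper90.St.al e with ha
  have ha0 : 0 < a := hg.al_pos
  have ha1 : a ≤ 1 / 4 := hg.al_le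
  have hirr : Irrational a := hg.irrational
  have habs : |a| ≤ 1 := by rw [abs_of_pos ha0]; linarith
  obtain ⟨L, -, -, -, f, c, hc, hbij, hlip⟩ := hmain 4 (Pool.Agent.Helper90.Geo.EE a)
    (Pool.Agent.Helper90.Geo.FF a) (Pool.Agent.Helper90.Geo.isCompl a)
    (Pool.Agent.Helper90.Geo.WF a (Pool.Agent.Helper90.St.W0 e κ B))
    (Pool.Agent.Helper90.Geo.finrank_pos a)
    (by
      intro x hx y hy hxy
      simp only [Pool.Agent.Helper90.Geo.projE] at hxy
      exact Pool.Agent.Helper90.Geo.PE_inj hirr hx hy hxy)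
    (Pool.Agent.Helper90.Geo.denseF hirr habs)
    (Pool.Agent.Helper90.Geo.bounded_WF hg habs)
    (Pool.Agent.Helper90.Geo.interior_WF a)
    (Pool.Agent.Helper90.Geo.null_frontier hg a)
  have hset : ((fun x => (Submodule.linearProjOfIsCompl (Pool.Agent.Helper90.Geo.EE a)
      (Pool.Agent.Helper90.Geo.FF a) (Pool.Agent.Helper90.Geo.isCompl a) x :
        EuclideanSpace ℝ (Fin 4))) ''
      {x : EuclideanSpace ℝ (Fin 4) | (∀ i, ∃ z : ℤ, (EuclideanSpace.proj i :
        EuclideanSpace ℝ (Fin 4) →L[ℝ] ℝ) x = (z : ℝ)) ∧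
        Submodule.linearProjOfIsCompl (Pool.Agent.Helper90.Geo.FF a)
          (Pool.Agent.Helper90.Geo.EE a) (Pool.Agent.Helper90.Geo.isCompl a).symm x ∈
            Pool.Agent.Helper90.Geo.WF a (Pool.Agent.Helper90.St.W0 e κ B)}) =
      Pool.Agent.Helper90.Geo.YY a (Pool.Agent.Helper90.St.W0 e κ B) := by
    have h1 : (fun x => (Submodule.linearProjOfIsCompl (Pool.Agent.Helper90.Geo.EE a)
      (Pool.Agent.Helper90.Geo.FF a) (Pool.Agent.Helper90.Geo.isCompl a) x :
        EuclideanSpace ℝ (Fin 4))) = Pool.Agent.Helper90.Geo.PE a := by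
      funext x; exact Pool.Agent.Helper90.Geo.projE a x
    rw [h1]
    unfold Pool.Agent.Helper90.Geo.YY
    congr 1
    ext x
    rw [Set.mem_ofPred_eq, Set.mem_ofPred_eq, Pool.Agent.Helper90.Geo.projF,
      Pool.Agent.Helper90.Geo.mem_WF]
    rfl
  rw [hset] at hbij hlip
  exact Pool.Agent.Helper90.Geo.no_bilip_YY ha0 ha1 hg ha hB L f c hc hbij hlip

end Pool.Agent.S08234
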