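import Pool.Statements.S08236
import Pool.Agent.Helper212.Cosmic

set_option autoImplicit false
open Pool Pool.MP_2beacb_gt

namespace Pool.Agent.S08236

open Set Topology Filter Pool.Agent.Helper212.Cosmic

/-- the Baire space maps onto the irrationals -/
lemma exists_surj : ∃ f : (ℕ → ℕ) → {x : ℝ // Irrational x}, Continuous f ∧
    Function.Surjective f := by
  have h := (IsGδ.setOfPred_irrational.measurableSet).analyticSet
  rw [MeasureTheory.AnalyticSet] at h
  rcases h with h | ⟨f, hf, hr⟩
  · exfalso
    have : (√2 : ℝ) ∈ {x : ℝ | Irrational x} := irrational_sqrt_two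
    rw [h] at this
    exact this
  · have hm : ∀ z, Irrational (f z) := fun z => by
      have : f z ∈ {x : ℝ | Irrational x} := hr ▸ mem_range_self z
      exact this
    refine ⟨fun z => ⟨f z, hm z⟩, hf.subtype_mk _, ?_⟩
    rintro ⟨x, hx⟩
    have : x ∈ range f := by
      rw [hr]
      exact hx
    obtain ⟨z, rfl⟩ := this
    exact ⟨z, rfl⟩

/-- The negation of the preceding statement: There is a Tychonoff space Y that is a continuous image of the irrationals such that the space of continuous real functions on the irrationals, with the pointwise convergence topology, topologically embeds into Y. -/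
theorem result :
    ¬ (∃ (Y : Type) (_ : TopologicalSpace Y), T35Space Y ∧
      (∃ g : {x : ℝ // Irrational x} → Y, Continuous g ∧ Function.Surjective g) ∧
      ∃ e : {f : {x : ℝ // Irrational x} → ℝ // Continuous f} → Y,
        Topology.IsEmbedding e) := by
  rintro ⟨Y, _, hY, ⟨g, hg, hgs⟩, e, he⟩
  obtain ⟨f, hf, hfs⟩ := exists_surj
  set φ : (ℕ → ℕ) → Y := fun z => g (f z) with hφ
  have hφc : Continuous φ := hg.comp hf
  have hφs : Function.Surjective φ := hgs.comp hfs
  classical
  -- indicator functions
  let ind : Set X → {f : X → ℝ // Continuous f} := fun W =>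
    if h : IsClopen W then ⟨W.indicator (fun _ => 1), h.continuous_indicator continuous_const⟩
    else ⟨fun _ => 0, continuous_const⟩
  have ind_eq : ∀ W, IsClopen W → (ind W).1 = W.indicator (fun _ => 1) := by
    intro W hW
    simp only [ind, dif_pos hW]
  choose z hz using fun W => hφs (e (ind W))
  let o : {f : X → ℝ // Continuous f} := ⟨fun _ => 0, continuous_const⟩
  have hdata : ∀ x : X, ∃ (V : Set Y) (C : Set Y) (F : Set X), IsOpen V ∧ IsClosed C ∧ C ⊆ V ∧
      F.Finite ∧ (∀ W, IsClopen W → Disjoint W F → e (ind W) ∈ C) ∧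
      (∀ W, IsClopen W → x ∈ W → e (ind W) ∉ V) := by
    intro x
    have hU : IsOpen {f : {f : X → ℝ // Continuous f} | f.1 x < 1 / 2} :=
      isOpen_lt ((continuous_apply x).comp continuous_subtype_val) continuous_const
    obtain ⟨V, hV, hVU⟩ := he.isInducing.isOpen_iff.1 hU
    have hoV : e o ∈ V := by
      have : o ∈ e ⁻¹' V := by
        rw [hVU]
        show (0 : ℝ) < 1 / 2
        norm_num
      exact this
    obtain ⟨C, hC1, hC2, hC3⟩ := exists_mem_nhds_isClosed_subset (hV.mem_nhds hoV)
    have hpre : e ⁻¹' C ∈ 𝓝 o := he.continuous.continuousAt.preimage_mem_nhds hC1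
    rw [nhds_subtype_eq_comap, mem_comap] at hpre
    obtain ⟨A, hA, hAC⟩ := hpre
    rw [nhds_pi, Filter.mem_pi] at hA
    obtain ⟨F, hF, t, ht, htA⟩ := hA
    refine ⟨V, C, F, hV, hC2, hC3, hF, ?_, ?_⟩
    · intro W hW hd
      have : ind W ∈ e ⁻¹' C := by
        apply hAC
        apply htA
        intro y hy
        rw [ind_eq W hW]
        have hyW : y ∉ W := fun h => Set.disjoint_left.1 hd h hy
        rw [indicator_of_notMem hyW]
        exact mem_of_mem_nhds (ht y)
      exact this
    · intro W hW hx hmem
      have : ind W ∈ e ⁻¹' V := hmem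
      rw [hVU] at this
      have h2 : (ind W).1 x < 1 / 2 := this
      rw [ind_eq W hW, indicator_of_mem hx] at h2
      norm_num at h2
  choose V C F h1 h2 h3 h4 h5 h6 using hdata
  refine abstract_core z F h4 (fun x => φ ⁻¹' C x) (fun x => φ ⁻¹' (V x)ᶜ)
    (fun x => (h2 x).preimage hφc) (fun x => (h1 x).isClosed_compl.preimage hφc) ?_ ?_ ?_
  · intro x
    rw [Set.disjoint_left]
    intro w hw hw2
    exact hw2 (h3 x hw)
  · intro x W hW hd
    show φ (z W) ∈ C x
    rw [hz]
    exact h5 x W hW hd
  · intro x W hW hx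
    show φ (z W) ∉ V x
    rw [hz]
    exact h6 x W hW hx

end Pool.Agent.S08236
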