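import Pool.Statements.S08240
import Pool.Agent.Helper800.ConsH

set_option autoImplicit false
open Pool Pool.MP_2c91bd_gt

namespace Pool.Agent.S08240

/-- The negation of the preceding statement: For every consonant T0 space X, the space of nonempty closed subsets of X with the lower Vietoris topology is consonant, where consonant means every Scott-open family of opens contains, around each member U, all opens containing some compact K ⊆ U. -/
theorem result :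
    ¬ (∀ (X : Type) [TopologicalSpace X] [T0Space X],
    (∀ 𝓤 : Set (Set X), (∀ U ∈ 𝓤, IsOpen U) →
      (∀ U ∈ 𝓤, ∀ V : Set X, IsOpen V → U ⊆ V → V ∈ 𝓤) →
      (∀ 𝒟 : Set (Set X), 𝒟.Nonempty → DirectedOn (· ⊆ ·) 𝒟 →
          (∀ D ∈ 𝒟, IsOpen D) → ⋃₀ 𝒟 ∈ 𝓤 → ∃ D ∈ 𝒟, D ∈ 𝓤) →
      ∀ U ∈ 𝓤, ∃ K : Set X, IsCompact K ∧ K ⊆ U ∧
        ∀ V : Set X, IsOpen V → K ⊆ V → V ∈ 𝓤) →
    ∀ tH : TopologicalSpace {C : Set X // IsClosed C ∧ C.Nonempty},
      tH = TopologicalSpace.generateFrom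
        {S | ∃ U : Set X, IsOpen U ∧
          S = {C : {C : Set X // IsClosed C ∧ C.Nonempty} | (C.1 ∩ U).Nonempty}} →
      (∀ 𝓤 : Set (Set {C : Set X // IsClosed C ∧ C.Nonempty}),
        (∀ U ∈ 𝓤, @IsOpen _ tH U) →
        (∀ U ∈ 𝓤, ∀ V : Set {C : Set X // IsClosed C ∧ C.Nonempty},
            @IsOpen _ tH V → U ⊆ V → V ∈ 𝓤) →
        (∀ 𝒟 : Set (Set {C : Set X // IsClosed C ∧ C.Nonempty}), 𝒟.Nonempty →
            DirectedOn (· ⊆ ·) 𝒟 →
            (∀ D ∈ 𝒟, @IsOpen _ tH D) → ⋃₀ 𝒟 ∈ 𝓤 → ∃ D ∈ 𝒟, D ∈ 𝓤) →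
        ∀ U ∈ 𝓤, ∃ K : Set {C : Set X // IsClosed C ∧ C.Nonempty},
          @IsCompact _ tH K ∧ K ⊆ U ∧
          ∀ V : Set {C : Set X // IsClosed C ∧ C.Nonempty},
            @IsOpen _ tH V → K ⊆ V → V ∈ 𝓤)) := by
  intro H
  haveI := Helper800.ConsL.t0_L (Y1 := Helper800.Cons.Fan Helper800.Cons.NM)
    (Y2 := Helper800.Cons.Fan Helper800.Cons.NS)
  apply Helper800.ConsH.not_cons_PH
  have h := H (Helper800.ConsL.L (Helper800.Cons.Fan Helper800.Cons.NM)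
    (Helper800.Cons.Fan Helper800.Cons.NS))
    (fun F h1 h2 h3 U hU =>
      Helper800.ConsL.cons_L Helper800.Cons.cons_M Helper800.Cons.cons_S F ⟨h1, h2, h3⟩ U hU)
    _ rfl
  intro F hF U hU
  exact h F hF.isOpen hF.upper hF.directed U hU

end Pool.Agent.S08240
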