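import Pool.Statements.S08244
import Pool.Agent.Helper639.EbB

set_option autoImplicit false
open Pool Pool.MP_2e0873_gt

namespace Pool.Agent.S08244

open Cardinal in
/-- an uncountable well-order all of whose initial segments are countable, and a bistationary set -/
theorem exists_omega : ∃ (Ω : Type) (_ : LinearOrder Ω) (_ : WellFoundedLT Ω),
    (∀ a : Ω, (Set.Iic a).Countable) ∧ ¬ (Set.univ : Set Ω).Countable ∧
      ∃ S : Set Ω, Helper639.Eb.Stat S ∧ Helper639.Eb.Stat Sᶜ := by
  let Ω : Type := (ℵ₁ : Cardinal.{0}).ord.ToType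
  have hcard : #Ω = ℵ₁ := Cardinal.mk_ord_toType _
  have hc : ∀ a : Ω, (Set.Iic a).Countable := by
    intro a
    have h1 : (Set.Iio a).Countable := by
      rw [← Cardinal.le_aleph0_iff_set_countable]
      have h2 : #(Set.Iio a) < ℵ₁ := Cardinal.mk_Iio_toType_ord_lt a
      have h3 : (ℵ₁ : Cardinal.{0}) = Order.succ ℵ₀ := Cardinal.succ_aleph0.symm
      exact Order.lt_succ_iff.mp (h2.trans_eq h3)
    rw [← Set.Iio_insert]
    exact h1.insert a
  have hu : ¬ (Set.univ : Set Ω).Countable := by
    rw [← Cardinal.le_aleph0_iff_set_countable, Cardinal.mk_univ, hcard, not_le]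
    exact Cardinal.aleph0_lt_aleph_one
  have hle : #Ω ≤ #(ℕ → Bool) := by
    rw [hcard]
    refine Cardinal.aleph_one_le_continuum.trans ?_
    simp
  obtain ⟨ι⟩ := hle
  obtain ⟨S, hS⟩ := Helper639.Eb.exists_bistat hc hu ι ι.injective
  exact ⟨Ω, inferInstance, inferInstance, hc, hu, S, hS⟩

/-- The negation of the preceding statement: For a Tychonoff space X: if every pointwise-compact set of continuous real functions on X embeds in a Banach space with its weak topology, then so does every such set on X×K, for every compact Hausdorff K. -/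
theorem result :
    ¬ (∀ (X : Type) [TopologicalSpace X] [T35Space X],
      (∀ A : Set (X → ℝ), (∀ f ∈ A, Continuous f) → IsCompact A →
        ∃ (E : Type) (_ : NormedAddCommGroup E) (_ : NormedSpace ℝ E) (_ : CompleteSpace E)
          (e : A → WeakSpace ℝ E), Topology.IsEmbedding e) →
      ∀ (K : Type) [TopologicalSpace K] [CompactSpace K] [T2Space K],
        ∀ B : Set (X × K → ℝ), (∀ f ∈ B, Continuous f) → IsCompact B →
          ∃ (E : Type) (_ : NormedAddCommGroup E) (_ : NormedSpace ℝ E) (_ : CompleteSpace E)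
            (e : B → WeakSpace ℝ E), Topology.IsEmbedding e) := by
  intro h
  obtain ⟨Ω, _, _, hc, hu, S, hS, hS'⟩ := exists_omega
  obtain ⟨E, _, _, _, e, he⟩ := h (Helper639.Eb.XS S)
    (fun A hA hcomp => Helper639.Eb.emb_X hc hu hS' A hA hcomp)
    (Helper639.Eb.KK Ω) (Helper639.Eb.BB S) (fun f hf => Helper639.Eb.BB_continuous hf)
    (Helper639.Eb.BB_compact S)
  exact Helper639.Eb.not_emb hc hu hS e he

end Pool.Agent.S08244
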