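import Pool.Statements.S08246

set_option autoImplicit false
open Matrix
open Pool Pool.MP_2ee781_gt

namespace Pool.Agent.S08246

/-! A finite covolume Fuchsian group which is the free product of three groups of order two,
the three free factors being generated by half-turns of the hyperbolic plane. -/

/-- The universal Coxeter matrix on three generators. -/
def univM : CoxeterMatrix (Fin 3) where
  M := Matrix.of fun i j => if i = j then 1 else 0
  isSymm := by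
    ext i j
    simp [Matrix.transpose_apply, eq_comm]
  diagonal := by intro i; simp
  off_diagonal := by intro i j h; simp [h]

/-- The three integral half-turns. -/
def halfZ : Fin 3 → Matrix (Fin 3) (Fin 3) ℤ :=
  ![!![-1, 0, 0; 2, 0, 1; 2, 1, 0], !![0, 2, 1; 0, -1, 0; 1, 2, 0], !![0, 1, 2; 1, 0, 2; 0, 0, -1]]

/-- The three half-turns as real matrices. -/
noncomputable def half (i : Fin 3) : Matrix (Fin 3) (Fin 3) ℝ :=
  (halfZ i).map (Int.castRingHom ℝ)

lemma halfZ_sq (i : Fin 3) : halfZ i * halfZ i = 1 := by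
  fin_cases i <;> decide

lemma half_sq (i : Fin 3) : half i * half i = 1 := by
  unfold half
  rw [← Matrix.map_mul, halfZ_sq]
  ext a b
  simp [Matrix.map_apply, Matrix.one_apply]

/-- The half-turn as an invertible matrix. -/
noncomputable def halfG (i : Fin 3) : Matrix.GeneralLinearGroup (Fin 3) ℝ :=
  ⟨half i, half i, half_sq i, half_sq i⟩

abbrev W : Type := univM.Group

noncomputable def cs : CoxeterSystem univM W := univM.toCoxeterSystem

lemma liftable : univM.IsLiftable halfG := by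
  intro i j
  by_cases h : i = j
  · subst h
    have : univM i i = 1 := univM.diagonal i
    rw [this, pow_one]
    ext1
    exact half_sq i
  · have : univM i j = 0 := by
      change (Matrix.of fun i j : Fin 3 => if i = j then 1 else 0) i j = 0
      simp [h]
    rw [this, pow_zero]

noncomputable def rho : W →* Matrix.GeneralLinearGroup (Fin 3) ℝ :=
  cs.lift ⟨halfG, liftable⟩

lemma rho_simple (i : Fin 3) : rho (cs.simple i) = halfG i :=
  cs.lift_apply_simple liftable i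

lemma rho_simple_coe (i : Fin 3) :
    (rho (cs.simple i) : Matrix (Fin 3) (Fin 3) ℝ) = half i := by
  rw [rho_simple]; rfl

lemma half0_mulVec (x : Fin 3 → ℝ) :
    half 0 *ᵥ x = ![-x 0, 2 * x 0 + x 2, 2 * x 0 + x 1] := by
  funext i
  fin_cases i <;> simp [half, halfZ, Matrix.mulVec, dotProduct, Fin.sum_univ_three]

lemma half1_mulVec (x : Fin 3 → ℝ) :
    half 1 *ᵥ x = ![2 * x 1 + x 2, - x 1, x 0 + 2 * x 1] := by
  funext i
  fin_cases i <;> simp [half, halfZ, Matrix.mulVec, dotProduct, Fin.sum_univ_three]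

lemma half2_mulVec (x : Fin 3 → ℝ) :
    half 2 *ᵥ x = ![x 1 + 2 * x 2, x 0 + 2 * x 2, - x 2] := by
  funext i
  fin_cases i <;> simp [half, halfZ, Matrix.mulVec, dotProduct, Fin.sum_univ_three]

/-- the quadratic form -/
def Nf (x : Fin 3 → ℝ) : ℝ := x 0 * x 1 + x 1 * x 2 + x 2 * x 0

/-- the sum of the coordinates -/
def Sf (x : Fin 3 → ℝ) : ℝ := x 0 + x 1 + x 2

/-- the Lorentz cone -/
def cone : Set (Fin 3 → ℝ) := {x | 0 < Sf x ∧ 0 < Nf x}

lemma Nf_half (i : Fin 3) (x : Fin 3 → ℝ) : Nf (half i *ᵥ x) = Nf x := by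
  fin_cases i
  · change Nf (half 0 *ᵥ x) = _
    rw [half0_mulVec]; simp [Nf]; ring
  · change Nf (half 1 *ᵥ x) = _
    rw [half1_mulVec]; simp [Nf]; ring
  · change Nf (half 2 *ᵥ x) = _
    rw [half2_mulVec]; simp [Nf]; ring

lemma Sf_half (i : Fin 3) (x : Fin 3 → ℝ) : Sf (half i *ᵥ x) = Sf x + 2 * x i := by
  fin_cases i
  · change Sf (half 0 *ᵥ x) = _
    rw [half0_mulVec]; simp [Sf]; ring
  · change Sf (half 1 *ᵥ x) = _
    rw [half1_mulVec]; simp [Sf]; ring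
  · change Sf (half 2 *ᵥ x) = _
    rw [half2_mulVec]; simp [Sf]; ring

lemma coord_half (i : Fin 3) (x : Fin 3 → ℝ) : (half i *ᵥ x) i = - x i := by
  fin_cases i
  · change (half 0 *ᵥ x) 0 = _
    rw [half0_mulVec]; simp
  · change (half 1 *ᵥ x) 1 = _
    rw [half1_mulVec]; simp
  · change (half 2 *ᵥ x) 2 = _
    rw [half2_mulVec]; simp

lemma aux_sum {p q r : ℝ} (hs : 0 < p + q + r) (hn : 0 < p * q + q * r + r * p) :
    0 < 3 * p + q + r := by
  by_contra hcon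
  push Not at hcon
  have hp : p < 0 := by linarith
  nlinarith [sq_nonneg (q - r), sq_nonneg (q + r + 4 * p)]

lemma half_mem (i : Fin 3) (x : Fin 3 → ℝ) (hx : x ∈ cone) : half i *ᵥ x ∈ cone := by
  obtain ⟨h1, h2⟩ := hx
  refine ⟨?_, by rw [Nf_half]; exact h2⟩
  rw [Sf_half]
  unfold Sf Nf at *
  fin_cases i
  · have := aux_sum h1 h2
    simp only [Fin.zero_eta]; linarith
  · have := aux_sum (p := x 1) (q := x 2) (r := x 0) (by linarith) (by linarith)
    simp only [Fin.mk_one]; linarith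
  · have := aux_sum (p := x 2) (q := x 0) (r := x 1) (by linarith) (by linarith)
    simp only [Fin.reduceFinMk]; linarith

lemma half_mem_iff (i : Fin 3) (x : Fin 3 → ℝ) : half i *ᵥ x ∈ cone ↔ x ∈ cone := by
  refine ⟨fun h => ?_, half_mem i x⟩
  have := half_mem i _ h
  rwa [Matrix.mulVec_mulVec, half_sq, Matrix.one_mulVec] at this

lemma rho_mem_iff (w : W) : ∀ x : Fin 3 → ℝ,
    (rho w : Matrix (Fin 3) (Fin 3) ℝ) *ᵥ x ∈ cone ↔ x ∈ cone := by
  refine cs.simple_induction_left (p := fun w => ∀ x : Fin 3 → ℝ,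
    (rho w : Matrix (Fin 3) (Fin 3) ℝ) *ᵥ x ∈ cone ↔ x ∈ cone) w ?_ ?_
  · intro x; simp
  · intro w i ih x
    rw [map_mul, Units.val_mul, ← Matrix.mulVec_mulVec, rho_simple_coe, half_mem_iff, ih]

lemma half_det (i : Fin 3) : (half i).det = 1 := by
  unfold half
  rw [← RingHom.mapMatrix_apply, ← RingHom.map_det]
  have : (halfZ i).det = 1 := by fin_cases i <;> decide
  rw [this]; simp

lemma rho_det (w : W) : (rho w : Matrix (Fin 3) (Fin 3) ℝ).det = 1 := by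
  refine cs.simple_induction_left (p := fun w => (rho w : Matrix (Fin 3) (Fin 3) ℝ).det = 1) w ?_ ?_
  · simp
  · intro w i ih
    rw [map_mul, Units.val_mul, Matrix.det_mul, rho_simple_coe, half_det, ih, one_mul]

lemma rho_int (w : W) : ∃ Z : Matrix (Fin 3) (Fin 3) ℤ,
    (rho w : Matrix (Fin 3) (Fin 3) ℝ) = Z.map (Int.castRingHom ℝ) := by
  refine cs.simple_induction_left (p := fun w => ∃ Z : Matrix (Fin 3) (Fin 3) ℤ,
    (rho w : Matrix (Fin 3) (Fin 3) ℝ) = Z.map (Int.castRingHom ℝ)) w ?_ ?_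
  · refine ⟨1, ?_⟩
    ext a b
    simp [Matrix.map_apply, Matrix.one_apply]
  · rintro w i ⟨Z, hZ⟩
    refine ⟨halfZ i * Z, ?_⟩
    rw [map_mul, Units.val_mul, rho_simple_coe, hZ, Matrix.map_mul]
    rfl


lemma cone_aux {p q r : ℝ} (hs : 0 < p + q + r) (hn : 0 < p * q + q * r + r * p) (hp : p < 0) :
    0 < q := by
  by_contra hcon
  push Not at hcon
  nlinarith [sq_nonneg (p + q), sq_nonneg p, sq_nonneg q, mul_nonneg_of_nonpos_of_nonpos hp.le hcon]

lemma cone_pos {x : Fin 3 → ℝ} (hx : x ∈ cone) {i j : Fin 3} (hij : i ≠ j) (hj : x j < 0) :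
    0 < x i := by
  obtain ⟨h1, h2⟩ := hx
  unfold Sf at h1
  unfold Nf at h2
  fin_cases i <;> fin_cases j <;> first | exact absurd rfl hij | skip
  · exact cone_aux (p := x 1) (q := x 0) (r := x 2) (by linarith) (by linarith) hj
  · exact cone_aux (p := x 2) (q := x 0) (r := x 1) (by linarith) (by linarith) hj
  · exact cone_aux (p := x 0) (q := x 1) (r := x 2) (by linarith) (by linarith) hj
  · exact cone_aux (p := x 2) (q := x 1) (r := x 0) (by linarith) (by linarith) hj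
  · exact cone_aux (p := x 0) (q := x 2) (r := x 1) (by linarith) (by linarith) hj
  · exact cone_aux (p := x 1) (q := x 2) (r := x 0) (by linarith) (by linarith) hj

def x0 : Fin 3 → ℝ := fun _ => 1

lemma x0_mem : x0 ∈ cone := by
  constructor <;> norm_num [Sf, Nf, x0]

lemma ping (ω : List (Fin 3)) : cs.IsReduced ω → ∀ i ω', ω = i :: ω' →
    ((rho (cs.wordProd ω) : Matrix (Fin 3) (Fin 3) ℝ) *ᵥ x0) i < 0 := by
  induction ω with
  | nil => intro _ i ω' h; simp at h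
  | cons a t ih =>
    intro hred i ω' h
    obtain ⟨rfl, rfl⟩ := List.cons.inj h
    rw [cs.wordProd_cons, map_mul, Units.val_mul, ← Matrix.mulVec_mulVec, rho_simple_coe,
      coord_half]
    cases t with
    | nil => simp [x0]
    | cons b t' =>
      have hb : cs.IsReduced (b :: t') := hred.drop 1
      have h2 := ih hb b t' rfl
      have hne : a ≠ b := by
        rintro rfl
        have h3 : cs.length (cs.wordProd (a :: a :: t')) = (a :: a :: t').length := hred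
        rw [cs.wordProd_cons, cs.wordProd_cons, cs.simple_mul_simple_cancel_left] at h3
        have h4 := cs.length_wordProd_le t'
        simp at h3
        omega
      have hc : (rho (cs.wordProd (b :: t')) : Matrix (Fin 3) (Fin 3) ℝ) *ᵥ x0 ∈ cone :=
        (rho_mem_iff _ _).2 x0_mem
      have := cone_pos hc hne h2
      linarith

lemma rho_inj : Function.Injective rho := by
  rw [injective_iff_map_eq_one]
  intro w hw
  obtain ⟨ω, hred, rfl⟩ := cs.exists_isReduced w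
  cases ω with
  | nil => simp
  | cons a t =>
    have := ping (a :: t) hred a t rfl
    rw [hw] at this
    simp [x0] at this
    linarith

lemma cone_open : IsOpen cone := by
  have h1 : Continuous Sf := by unfold Sf; fun_prop
  have h2 : Continuous Nf := by unfold Nf; fun_prop
  exact (isOpen_lt continuous_const h1).inter (isOpen_lt continuous_const h2)


lemma cone_convex : Convex ℝ cone := by
  intro x hx y hy a b ha hb hab
  obtain ⟨hx1, hx2⟩ := hx
  obtain ⟨hy1, hy2⟩ := hy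
  have hB : 0 < x 0 * (y 1 + y 2) + x 1 * (y 0 + y 2) + x 2 * (y 0 + y 1) := by
    unfold Sf at hx1 hy1
    unfold Nf at hx2 hy2
    have h1 : (x 0 * y 0 + x 1 * y 1 + x 2 * y 2) ^ 2 ≤
        (x 0 ^ 2 + x 1 ^ 2 + x 2 ^ 2) * (y 0 ^ 2 + y 1 ^ 2 + y 2 ^ 2) := by
      nlinarith [sq_nonneg (x 0 * y 1 - x 1 * y 0), sq_nonneg (x 0 * y 2 - x 2 * y 0),
        sq_nonneg (x 1 * y 2 - x 2 * y 1)]
    have h2 : x 0 ^ 2 + x 1 ^ 2 + x 2 ^ 2 < (x 0 + x 1 + x 2) ^ 2 := by nlinarith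
    have h3 : y 0 ^ 2 + y 1 ^ 2 + y 2 ^ 2 < (y 0 + y 1 + y 2) ^ 2 := by nlinarith
    have h4 : (x 0 ^ 2 + x 1 ^ 2 + x 2 ^ 2) * (y 0 ^ 2 + y 1 ^ 2 + y 2 ^ 2) <
        (x 0 + x 1 + x 2) ^ 2 * (y 0 + y 1 + y 2) ^ 2 := by
      have h5 : 0 < (y 0 + y 1 + y 2) ^ 2 := by positivity
      calc (x 0 ^ 2 + x 1 ^ 2 + x 2 ^ 2) * (y 0 ^ 2 + y 1 ^ 2 + y 2 ^ 2)
          ≤ (x 0 ^ 2 + x 1 ^ 2 + x 2 ^ 2) * (y 0 + y 1 + y 2) ^ 2 := by gcongr
        _ < _ := by gcongr
    have h6 : (x 0 * y 0 + x 1 * y 1 + x 2 * y 2) ^ 2 <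
        ((x 0 + x 1 + x 2) * (y 0 + y 1 + y 2)) ^ 2 := by
      rw [mul_pow]; linarith
    have h7 : x 0 * y 0 + x 1 * y 1 + x 2 * y 2 < (x 0 + x 1 + x 2) * (y 0 + y 1 + y 2) :=
      lt_of_pow_lt_pow_left₀ 2 (by positivity) h6
    linarith
  constructor
  · have : Sf (a • x + b • y) = a * Sf x + b * Sf y := by
      simp [Sf]; ring
    rw [this]
    rcases ha.eq_or_lt with rfl | ha'
    · have : b = 1 := by linarith
      subst this; linarith
    · have := mul_pos ha' hx1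
      have := mul_nonneg hb hy1.le
      linarith
  · have : Nf (a • x + b • y) = a ^ 2 * Nf x + b ^ 2 * Nf y + a * b *
        (x 0 * (y 1 + y 2) + x 1 * (y 0 + y 2) + x 2 * (y 0 + y 1)) := by
      simp [Nf]; ring
    rw [this]
    rcases ha.eq_or_lt with rfl | ha'
    · have : b = 1 := by linarith
      subst this; linarith
    · have h1 := mul_pos (pow_pos ha' 2) hx2
      have h2 := mul_nonneg (sq_nonneg b) hy2.le
      have h3 := mul_nonneg (mul_nonneg ha hb) hB.le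
      linarith

lemma cone_smul {x : Fin 3 → ℝ} (hx : x ∈ cone) {t : ℝ} (ht : 0 < t) : t • x ∈ cone := by
  obtain ⟨h1, h2⟩ := hx
  constructor
  · have : Sf (t • x) = t * Sf x := by simp [Sf]; ring
    rw [this]; positivity
  · have : Nf (t • x) = t ^ 2 * Nf x := by simp [Nf]; ring
    rw [this]; positivity

lemma closure_cone_sub {x : Fin 3 → ℝ} (hx : x ∈ closure cone) : 0 ≤ Sf x ∧ 0 ≤ Nf x := by
  have h1 : Continuous Sf := by unfold Sf; fun_prop
  have h2 : Continuous Nf := by unfold Nf; fun_prop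
  have hc : IsClosed {x : Fin 3 → ℝ | 0 ≤ Sf x ∧ 0 ≤ Nf x} :=
    (isClosed_le continuous_const h1).inter (isClosed_le continuous_const h2)
  have : closure cone ⊆ {x : Fin 3 → ℝ | 0 ≤ Sf x ∧ 0 ≤ Nf x} :=
    closure_minimal (fun x hx => ⟨hx.1.le, hx.2.le⟩) hc
  exact this hx

lemma cone_proper (x : Fin 3 → ℝ) (h1 : x ∈ closure cone) (h2 : -x ∈ closure cone) : x = 0 := by
  obtain ⟨a1, a2⟩ := closure_cone_sub h1
  obtain ⟨b1, b2⟩ := closure_cone_sub h2
  unfold Sf at a1 b1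
  unfold Nf at a2 b2
  simp only [Pi.neg_apply] at b1 b2
  have hs : x 0 + x 1 + x 2 = 0 := by linarith
  have hq : x 0 ^ 2 + x 1 ^ 2 + x 2 ^ 2 ≤ 0 := by nlinarith
  have e0 : x 0 = 0 := by nlinarith [sq_nonneg (x 0), sq_nonneg (x 1), sq_nonneg (x 2)]
  have e1 : x 1 = 0 := by nlinarith [sq_nonneg (x 0), sq_nonneg (x 1), sq_nonneg (x 2)]
  have e2 : x 2 = 0 := by nlinarith [sq_nonneg (x 0), sq_nonneg (x 1), sq_nonneg (x 2)]
  funext i
  fin_cases i <;> simp [e0, e1, e2]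

lemma rho_discrete (w : W) : ∃ U : Set (Matrix (Fin 3) (Fin 3) ℝ), IsOpen U ∧
      (rho w : Matrix (Fin 3) (Fin 3) ℝ) ∈ U ∧
      ∀ w' : W, (rho w' : Matrix (Fin 3) (Fin 3) ℝ) ∈ U → w' = w := by
  refine ⟨⋂ i, ⋂ j, {A : Matrix (Fin 3) (Fin 3) ℝ |
    |A i j - (rho w : Matrix (Fin 3) (Fin 3) ℝ) i j| < 1}, ?_, ?_, ?_⟩
  · refine isOpen_iInter_of_finite fun i => isOpen_iInter_of_finite fun j => ?_
    refine isOpen_lt ?_ continuous_const
    have : Continuous fun A : Matrix (Fin 3) (Fin 3) ℝ => A i j := continuous_id.matrix_elem i j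
    fun_prop
  · simp
  · intro w' hw'
    simp only [Set.mem_iInter, Set.mem_ofPred_eq] at hw'
    obtain ⟨Z, hZ⟩ := rho_int w
    obtain ⟨Z', hZ'⟩ := rho_int w'
    apply rho_inj
    ext i j
    have h := hw' i j
    rw [hZ, hZ'] at h ⊢
    simp only [Matrix.map_apply, Int.coe_castRingHom] at h ⊢
    have h' : |Z' i j - Z i j| < 1 := by exact_mod_cast h
    rw [Int.abs_lt_one_iff] at h'
    have : Z' i j = Z i j := by omega
    rw [this]

/-- Every point of the cone can be moved into the closed octant. -/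
lemma reduce (v : Fin 3 → ℝ) (hv : v ∈ cone) :
    ∃ w : W, ∀ i, 0 ≤ ((rho w : Matrix (Fin 3) (Fin 3) ℝ) *ᵥ v) i := by
  classical
  -- row sums
  choose Z hZ using rho_int
  let u : W → Fin 3 → ℤ := fun w j => Z w 0 j + Z w 1 j + Z w 2 j
  have hu : ∀ w (y : Fin 3 → ℝ), Sf ((rho w : Matrix (Fin 3) (Fin 3) ℝ) *ᵥ y) =
      ∑ j, (u w j : ℝ) * y j := by
    intro w y
    rw [hZ w]
    simp [Sf, Matrix.mulVec, dotProduct, Fin.sum_univ_three, u]
    ring
  obtain ⟨δ, hδ, hball⟩ := Metric.isOpen_iff.1 cone_open v hv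
  let K : ℝ := Sf v / (δ / 2)
  let T : Set (Fin 3 → ℤ) := {z | ∃ w, z = u w ∧ ∑ j, (z j : ℝ) * v j ≤ Sf v}
  have hTfin : T.Finite := by
    have hsub : T ⊆ Set.pi Set.univ (fun _ : Fin 3 => Set.Icc (-⌈K⌉) ⌈K⌉) := by
      rintro z ⟨w, rfl, hw⟩ i _
      have hp : ∀ σ : ℝ, |σ| < δ → 0 < ∑ j, (u w j : ℝ) * (v + Pi.single i σ : Fin 3 → ℝ) j := by
        intro σ hσ
        rw [← hu]
        refine ((rho_mem_iff w _).2 (hball ?_)).1
        rw [Metric.mem_ball, dist_eq_norm]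
        simp only [add_sub_cancel_left]
        rw [Pi.norm_single, Real.norm_eq_abs]
        exact hσ
      have h1 := hp (δ/2) (by rw [abs_of_pos (by linarith)]; linarith)
      have h2 := hp (-(δ/2)) (by rw [abs_neg, abs_of_pos (by linarith)]; linarith)
      have e1 : ∀ σ : ℝ, ∑ j, (u w j : ℝ) * (v + Pi.single i σ : Fin 3 → ℝ) j =
          ∑ j, (u w j : ℝ) * v j + u w i * σ := by
        intro σ
        simp only [Pi.add_apply, mul_add, Finset.sum_add_distrib]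
        congr 1
        simp [Pi.single_apply]
      rw [e1] at h1 h2
      have hd : 0 < δ / 2 := by linarith
      have b1 : -K ≤ u w i := by
        have : -(u w i : ℝ) ≤ K := by
          rw [le_div_iff₀ hd]; linarith
        linarith
      have b2 : (u w i : ℝ) ≤ K := by
        rw [le_div_iff₀ hd]; linarith
      constructor
      · have : (-⌈K⌉ : ℝ) ≤ u w i := by
          have := Int.le_ceil K
          linarith
        exact_mod_cast this
      · have : (u w i : ℝ) ≤ ⌈K⌉ := b2.trans (Int.le_ceil K)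
        exact_mod_cast this
    exact (Set.Finite.pi' (fun _ => Set.finite_Icc _ _)).subset (by
      intro z hz i
      exact hsub hz i (Set.mem_univ i))
  have hTne : T.Nonempty := by
    refine ⟨u 1, 1, rfl, ?_⟩
    rw [← hu]; simp
  obtain ⟨z, ⟨w, rfl, hw⟩, hmin⟩ := Set.exists_min_image T (fun z => ∑ j, (z j : ℝ) * v j) hTfin hTne
  refine ⟨w, fun i => ?_⟩
  by_contra hneg
  push Not at hneg
  have h1 : Sf ((rho (cs.simple i * w) : Matrix (Fin 3) (Fin 3) ℝ) *ᵥ v) <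
      Sf ((rho w : Matrix (Fin 3) (Fin 3) ℝ) *ᵥ v) := by
    rw [map_mul, Units.val_mul, ← Matrix.mulVec_mulVec, rho_simple_coe, Sf_half]
    linarith
  have h2 : u (cs.simple i * w) ∈ T := by
    refine ⟨_, rfl, ?_⟩
    rw [hu, hu] at h1
    linarith
  have h3 := hmin _ h2
  rw [← hu, ← hu] at h3
  linarith


lemma mem_cone_of {p q r : ℝ} (ha : 0 < p + r) (hn : 0 < p * q + q * r + r * p) :
    0 < p + q + r := by
  have hc : 0 < q + r := by
    by_contra h
    push Not at h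
    nlinarith [mul_nonneg_of_nonpos_of_nonpos (a := q + r) (b := -(p + r)) h (by linarith), sq_nonneg r]
  have h1 : 0 < (p + r) * (q + r) - r ^ 2 := by nlinarith
  by_contra h
  push Not at h
  have h2 : (p + r) + (q + r) ≤ r := by linarith
  nlinarith [sq_nonneg ((p + r) - (q + r))]

/-- normalised point of the cone with half-plane coordinate `x + i y` -/
def Phi (x y : ℝ) : Fin 3 → ℝ := ![1 - x, x ^ 2 + y ^ 2 - x, x]

lemma key {x y x' y' ε h : ℝ} (hε : 0 < ε) (hεh : ε ≤ h) (hy' : h ≤ y') (hy : 0 < y)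
    (hx : |x - x'| ≤ ε) (hyy : |y - y'| ≤ ε) :
    (1 + 6 * (ε / h)) • Phi x' y' - Phi x y ∈ cone := by
  have hh : 0 < h := lt_of_lt_of_le hε hεh
  set δ : ℝ := 6 * (ε / h) with hδ
  have hδpos : 0 < δ := by positivity
  have hηle : ε / h ≤ 1 := by rw [div_le_one hh]; exact hεh
  have hy'pos : 0 < y' := lt_of_lt_of_le hh hy'
  have hx2 : (x - x') ^ 2 ≤ ε ^ 2 := by
    rw [← sq_abs (x - x')]
    exact pow_le_pow_left₀ (abs_nonneg _) hx 2
  have hyle : y ≤ y' + ε := by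
    have := le_abs_self (y - y'); linarith
  have hN : 0 < δ * ((1 + δ) * y' ^ 2 - y ^ 2) - (1 + δ) * (x - x') ^ 2 := by
    have h1 : y ^ 2 ≤ (y' + ε) ^ 2 := pow_le_pow_left₀ hy.le hyle 2
    have h2 : 6 * ε * y' ≤ δ * y' ^ 2 := by
      have : ε * y' ≤ (ε / h) * y' ^ 2 := by
        rw [div_mul_eq_mul_div, le_div_iff₀ hh]
        have : ε * y' * h ≤ ε * y' * y' := by gcongr
        nlinarith
      rw [hδ]; linarith
    have h3 : ε * ε ≤ ε * y' := by
      have : ε ≤ y' := hεh.trans hy'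
      gcongr
    have h4 : 3 * ε * h ≤ (1 + δ) * y' ^ 2 - y ^ 2 := by
      have : ε * h ≤ ε * y' := by gcongr
      nlinarith
    have h5 : 18 * ε ^ 2 ≤ δ * ((1 + δ) * y' ^ 2 - y ^ 2) := by
      have : δ * (3 * ε * h) ≤ δ * ((1 + δ) * y' ^ 2 - y ^ 2) := by gcongr
      have e : δ * (3 * ε * h) = 18 * ε ^ 2 := by
        rw [hδ]; field_simp; ring
      linarith
    have h6 : (1 + δ) * (x - x') ^ 2 ≤ 7 * ε ^ 2 := by
      have : δ ≤ 6 := by rw [hδ]; linarith
      have : (1 + δ) * (x - x') ^ 2 ≤ 7 * (x - x') ^ 2 := by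
        have := sq_nonneg (x - x'); nlinarith
      linarith
    have : 0 < ε ^ 2 := by positivity
    linarith
  have e0 : ((1 + δ) • Phi x' y' - Phi x y) 0 = (1 + δ) * (1 - x') - (1 - x) := by simp [Phi]
  have e1 : ((1 + δ) • Phi x' y' - Phi x y) 1 =
      (1 + δ) * (x' ^ 2 + y' ^ 2 - x') - (x ^ 2 + y ^ 2 - x) := by simp [Phi]
  have e2 : ((1 + δ) • Phi x' y' - Phi x y) 2 = (1 + δ) * x' - x := by simp [Phi]
  have hN' : 0 < Nf ((1 + δ) • Phi x' y' - Phi x y) := by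
    unfold Nf
    rw [e0, e1, e2]
    nlinarith [hN]
  refine ⟨?_, hN'⟩
  unfold Sf
  unfold Nf at hN'
  apply mem_cone_of
  · rw [e0, e2]; linarith
  · exact hN'

lemma Phi_mem {x y : ℝ} (hy : 0 < y) : Phi x y ∈ cone := by
  have hN : 0 < Nf (Phi x y) := by
    have : Nf (Phi x y) = y ^ 2 := by simp [Nf, Phi]; ring
    rw [this]; positivity
  refine ⟨?_, hN⟩
  unfold Sf
  unfold Nf at hN
  apply mem_cone_of _ hN
  simp [Phi]

lemma cone_a_pos {v : Fin 3 → ℝ} (hv : v ∈ cone) : 0 < v 0 + v 2 := by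
  obtain ⟨h1, h2⟩ := hv
  unfold Sf at h1
  unfold Nf at h2
  by_contra h
  push Not at h
  nlinarith [mul_nonneg_of_nonpos_of_nonpos (a := v 0 + v 2) (b := -(v 1 + (v 0 + v 2))) h (by linarith), sq_nonneg (v 0 + v 2), sq_nonneg (v 0), sq_nonneg (v 2), sq_nonneg (v 0 - v 2)]

/-- Every point of the cone in half-plane coordinates. -/
lemma eq_Phi {v : Fin 3 → ℝ} (hv : v ∈ cone) :
    v = (v 0 + v 2) • Phi (v 2 / (v 0 + v 2)) (Real.sqrt (Nf v) / (v 0 + v 2)) := by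
  have ha := cone_a_pos hv
  have hs : Real.sqrt (Nf v) ^ 2 = Nf v := Real.sq_sqrt hv.2.le
  funext i
  fin_cases i
  · simp [Phi]; field_simp; ring
  · simp [Phi, div_pow, hs]
    field_simp
    unfold Nf; ring
  · simp [Phi]; field_simp


/-- the Hilbert metric of the cone, as in the frozen statement -/
noncomputable def hd (x y : Fin 3 → ℝ) : ENNReal :=
  ENNReal.ofReal ((1 / 2 : ℝ) *
    Real.log (sInf {t : ℝ | t • y - x ∈ closure cone} *
      sInf {t : ℝ | t • x - y ∈ closure cone}))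

lemma sInf_bounds {X Y : Fin 3 → ℝ} (hX : X ∈ cone) (hY : Y ∈ cone) {t : ℝ}
    (h1 : t • Y - X ∈ cone) :
    0 ≤ sInf {t : ℝ | t • Y - X ∈ closure cone} ∧
      sInf {t : ℝ | t • Y - X ∈ closure cone} ≤ t := by
  have hlow : ∀ s ∈ {t : ℝ | t • Y - X ∈ closure cone}, (0 : ℝ) ≤ s := by
    intro s hs
    have h := (closure_cone_sub hs).1
    have e : Sf (s • Y - X) = s * Sf Y - Sf X := by simp [Sf]; ring
    rw [e] at h
    have h1 : 0 < Sf X := hX.1
    have h2 : 0 < Sf Y := hY.1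
    by_contra hneg
    push Not at hneg
    have := mul_neg_of_neg_of_pos hneg h2
    linarith
  refine ⟨Real.sInf_nonneg hlow, csInf_le ⟨0, hlow⟩ (subset_closure h1)⟩

lemma hd_le {X Y : Fin 3 → ℝ} (hX : X ∈ cone) (hY : Y ∈ cone) {t t' δ : ℝ} (hδ : 0 ≤ δ)
    (h1 : t • Y - X ∈ cone) (h2 : t' • X - Y ∈ cone) (ht : t * t' ≤ (1 + δ) ^ 2) :
    hd X Y ≤ ENNReal.ofReal δ := by
  obtain ⟨a1, a2⟩ := sInf_bounds hX hY h1
  obtain ⟨b1, b2⟩ := sInf_bounds hY hX h2
  unfold hd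
  apply ENNReal.ofReal_le_ofReal
  set A := sInf {t : ℝ | t • Y - X ∈ closure cone}
  set B := sInf {t : ℝ | t • X - Y ∈ closure cone}
  have hAB : A * B ≤ (1 + δ) ^ 2 := (mul_le_mul a2 b2 b1 (a1.trans a2)).trans ht
  rcases (mul_nonneg a1 b1).eq_or_lt with h0 | hpos
  · rw [← h0]; simp [hδ]
  · have h3 : Real.log (A * B) ≤ Real.log ((1 + δ) ^ 2) := Real.log_le_log hpos hAB
    rw [Real.log_pow] at h3
    have h4 : Real.log (1 + δ) ≤ δ := by
      have := Real.log_le_sub_one_of_pos (x := 1 + δ) (by linarith)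
      linarith
    push_cast at h3
    linarith

noncomputable def Xc (v : Fin 3 → ℝ) : ℝ := v 2 / (v 0 + v 2)
noncomputable def Yc (v : Fin 3 → ℝ) : ℝ := Real.sqrt (Nf v) / (v 0 + v 2)

lemma Yc_pos {v : Fin 3 → ℝ} (hv : v ∈ cone) : 0 < Yc v := by
  have := Real.sqrt_pos.2 hv.2
  have := cone_a_pos hv
  unfold Yc; positivity

lemma hd_box {v w : Fin 3 → ℝ} (hv : v ∈ cone) (hw : w ∈ cone) {ε h : ℝ} (hε : 0 < ε)
    (hεh : ε ≤ h) (h1 : h ≤ Yc v) (h2 : h ≤ Yc w) (hx : |Xc v - Xc w| ≤ ε)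
    (hy : |Yc v - Yc w| ≤ ε) : hd v w ≤ ENNReal.ofReal (6 * (ε / h)) := by
  have hh : 0 < h := lt_of_lt_of_le hε hεh
  have k1 := key hε hεh h2 (Yc_pos hv) hx hy
  have k2 := key (x := Xc w) (x' := Xc v) hε hεh h1 (Yc_pos hw) (by rwa [abs_sub_comm]) (by rwa [abs_sub_comm])
  have ha := cone_a_pos hv
  have hb := cone_a_pos hw
  have ev : v = (v 0 + v 2) • Phi (Xc v) (Yc v) := eq_Phi hv
  have ew : w = (w 0 + w 2) • Phi (Xc w) (Yc w) := eq_Phi hw
  set a := v 0 + v 2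
  set b := w 0 + w 2
  set δ : ℝ := 6 * (ε / h)
  have hδ : 0 ≤ δ := by positivity
  refine hd_le hv hw (t := (1 + δ) * (a / b)) (t' := (1 + δ) * (b / a)) hδ ?_ ?_ ?_
  · have : ((1 + δ) * (a / b)) • w - v = a • ((1 + δ) • Phi (Xc w) (Yc w) - Phi (Xc v) (Yc v)) := by
      conv_lhs => rw [ev, ew]
      rw [smul_sub, smul_smul, smul_smul]
      congr 2
      field_simp
    rw [this]
    exact cone_smul k1 ha
  · have : ((1 + δ) * (b / a)) • v - w = b • ((1 + δ) • Phi (Xc v) (Yc v) - Phi (Xc w) (Yc w)) := by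
      conv_lhs => rw [ev, ew]
      rw [smul_sub, smul_smul, smul_smul]
      congr 2
      field_simp
    rw [this]
    exact cone_smul k2 hb
  · apply le_of_eq
    field_simp

/-- a fundamental set for the group -/
def Fset : Set (Fin 3 → ℝ) := {v | v ∈ cone ∧ -1 ≤ Xc v ∧ Xc v < 3 ∧ 1 / 2 ≤ Yc v}

/-- the boxes -/
def Ubox (N : ℕ) (i : ℕ) : Set (Fin 3 → ℝ) :=
  {v | v ∈ cone ∧ (-1 + ((i % (4 * N) : ℕ) : ℝ) / N ≤ Xc v ∧
    Xc v ≤ -1 + (((i % (4 * N) : ℕ) : ℝ) + 1) / N) ∧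
    (1 / 2 + ((i / (4 * N) : ℕ) : ℝ) / N ≤ Yc v ∧
    Yc v ≤ 1 / 2 + (((i / (4 * N) : ℕ) : ℝ) + 1) / N)}

lemma F_sub_boxes {N : ℕ} (hN : 0 < N) : Fset ⊆ ⋃ i, Ubox N i := by
  rintro v ⟨hv, h1, h2, h3⟩
  have hN' : (0 : ℝ) < N := by exact_mod_cast hN
  rw [Set.mem_iUnion]
  set j := ⌊(Xc v + 1) * N⌋₊ with hj
  set k := ⌊(Yc v - 1 / 2) * N⌋₊ with hk
  have hj0 : 0 ≤ (Xc v + 1) * N := by
    have : 0 ≤ Xc v + 1 := by linarith
    positivity
  have hk0 : 0 ≤ (Yc v - 1 / 2) * N := by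
    have : 0 ≤ Yc v - 1 / 2 := by linarith
    positivity
  have hj1 : (j : ℝ) ≤ (Xc v + 1) * N := Nat.floor_le hj0
  have hj2 : (Xc v + 1) * N < j + 1 := Nat.lt_floor_add_one _
  have hk1 : (k : ℝ) ≤ (Yc v - 1 / 2) * N := Nat.floor_le hk0
  have hk2 : (Yc v - 1 / 2) * N < k + 1 := Nat.lt_floor_add_one _
  have hjlt : j < 4 * N := by
    have : (j : ℝ) < 4 * N := by
      calc (j : ℝ) ≤ (Xc v + 1) * N := hj1
        _ < 4 * N := by
          have : Xc v + 1 < 4 := by linarith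
          gcongr
    exact_mod_cast this
  refine ⟨j + 4 * N * k, hv, ?_⟩
  have e1 : (j + 4 * N * k) % (4 * N) = j := by
    rw [Nat.add_mul_mod_self_left, Nat.mod_eq_of_lt hjlt]
  have e2 : (j + 4 * N * k) / (4 * N) = k := by
    rw [Nat.add_mul_div_left _ _ (by omega), Nat.div_eq_of_lt hjlt, zero_add]
  rw [e1, e2]
  refine ⟨⟨?_, ?_⟩, ?_, ?_⟩
  · have : (j : ℝ) / N ≤ Xc v + 1 := by rw [div_le_iff₀ hN']; exact hj1
    linarith
  · have : Xc v + 1 ≤ ((j : ℝ) + 1) / N := by rw [le_div_iff₀ hN']; exact hj2.le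
    linarith
  · have : (k : ℝ) / N ≤ Yc v - 1 / 2 := by rw [div_le_iff₀ hN']; exact hk1
    linarith
  · have : Yc v - 1 / 2 ≤ ((k : ℝ) + 1) / N := by rw [le_div_iff₀ hN']; exact hk2.le
    linarith

lemma diam_box {N : ℕ} (hN : 4 ≤ N) (i : ℕ) :
    (⨆ x ∈ Ubox N i, ⨆ y ∈ Ubox N i, hd x y) ≤
      ENNReal.ofReal (24 * N / ((N : ℝ) ^ 2 + i + 1)) := by
  refine iSup₂_le fun x hx => iSup₂_le fun y hy => ?_
  obtain ⟨hxc, ⟨hx1, hx2⟩, hx3, hx4⟩ := hx
  obtain ⟨hyc, ⟨hy1, hy2⟩, hy3, hy4⟩ := hy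
  have hN4 : (4 : ℝ) ≤ N := by exact_mod_cast hN
  have hN' : (0 : ℝ) < N := by linarith
  set j := i % (4 * N) with hj
  set k := i / (4 * N) with hk
  have hi : i = 4 * N * k + j := (Nat.div_add_mod i (4 * N)).symm
  have hjlt : j < 4 * N := Nat.mod_lt _ (by omega)
  have hεpos : (0 : ℝ) < 1 / N := by positivity
  have hNε : 1 / (N : ℝ) ≤ 1 / 4 := by
    apply one_div_le_one_div_of_le (by norm_num) hN4
  have hkN : (0 : ℝ) ≤ (k : ℝ) / N := by positivity
  have e1 : ((j : ℝ) + 1) / N = (j : ℝ) / N + 1 / N := by ring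
  have e2 : ((k : ℝ) + 1) / N = (k : ℝ) / N + 1 / N := by ring
  have hmain := hd_box hxc hyc (ε := 1 / N) (h := 1 / 2 + (k : ℝ) / N) hεpos (by linarith) hx3 hy3
    (by rw [abs_le]; constructor <;> linarith) (by rw [abs_le]; constructor <;> linarith)
  refine hmain.trans (ENNReal.ofReal_le_ofReal ?_)
  have hh : 0 < 1 / 2 + (k : ℝ) / N := by positivity
  have hi' : (i : ℝ) + 1 ≤ 4 * N * k + 4 * N := by
    have : i + 1 ≤ 4 * N * k + 4 * N := by omega
    exact_mod_cast this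
  have hD : 0 < (N : ℝ) ^ 2 + i + 1 := by positivity
  rw [← mul_div_assoc, div_le_div_iff₀ hh hD]
  have e3 : 24 * (N : ℝ) * (1 / 2 + (k : ℝ) / N) = 12 * N + 24 * k := by field_simp; ring
  rw [e3]
  have e4 : 6 * (1 / (N : ℝ)) * ((N : ℝ) ^ 2 + i + 1) = (6 * ((N : ℝ) ^ 2 + i + 1)) / N := by
    field_simp
  rw [e4, div_le_iff₀ hN']
  nlinarith

lemma sum_bound {N : ℕ} (hN : 4 ≤ N) :
    ∑' i : ℕ, (ENNReal.ofReal (24 * N / ((N : ℝ) ^ 2 + i + 1))) ^ 2 ≤ ENNReal.ofReal 576 := by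
  have hN4 : (4 : ℝ) ≤ N := by exact_mod_cast hN
  have hN' : (0 : ℝ) < N := by linarith
  apply ENNReal.tsum_le_of_sum_range_le
  intro n
  have e : ∀ i : ℕ, (ENNReal.ofReal (24 * N / ((N : ℝ) ^ 2 + i + 1))) ^ 2 =
      ENNReal.ofReal ((24 * N / ((N : ℝ) ^ 2 + i + 1)) ^ 2) := by
    intro i
    rw [ENNReal.ofReal_pow (by positivity)]
  simp_rw [e]
  rw [← ENNReal.ofReal_sum_of_nonneg (fun i _ => by positivity)]
  apply ENNReal.ofReal_le_ofReal
  have hstep : ∀ n : ℕ, ∑ i ∈ Finset.range n, (24 * N / ((N : ℝ) ^ 2 + i + 1)) ^ 2 ≤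
      576 - 576 * (N : ℝ) ^ 2 / ((N : ℝ) ^ 2 + n) := by
    intro n
    induction n with
    | zero => simp; field_simp; simp
    | succ n ih =>
      rw [Finset.sum_range_succ]
      have h1 : (24 * N / ((N : ℝ) ^ 2 + n + 1)) ^ 2 ≤
          576 * (N : ℝ) ^ 2 / ((N : ℝ) ^ 2 + n) - 576 * (N : ℝ) ^ 2 / ((N : ℝ) ^ 2 + n + 1) := by
        have hA : 0 < (N : ℝ) ^ 2 + n := by positivity
        have hB : 0 < (N : ℝ) ^ 2 + n + 1 := by positivity
        rw [div_sub_div _ _ hA.ne' hB.ne', div_pow, div_le_div_iff₀ (by positivity) (by positivity)]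
        nlinarith [mul_pos hA hB, sq_nonneg (N : ℝ), mul_pos (pow_pos hN' 2) (mul_pos hA hB), mul_pos (pow_pos hN' 2) hB]
      push_cast
      have e5 : (N : ℝ) ^ 2 + (n + 1) = (N : ℝ) ^ 2 + n + 1 := by ring
      rw [e5]
      linarith
  refine (hstep n).trans ?_
  have : 0 ≤ 576 * (N : ℝ) ^ 2 / ((N : ℝ) ^ 2 + n) := by positivity
  linarith


lemma cover : cone ⊆ ⋃ w : W, (fun x => (rho w : Matrix (Fin 3) (Fin 3) ℝ) *ᵥ x) '' Fset := by
  intro v hv
  obtain ⟨w, hw⟩ := reduce v hv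
  set v' := (rho w : Matrix (Fin 3) (Fin 3) ℝ) *ᵥ v with hv'
  have hv'c : v' ∈ cone := (rho_mem_iff w v).2 hv
  -- some further element moves v' into F
  have hstep : ∃ w' : W, (rho w' : Matrix (Fin 3) (Fin 3) ℝ) *ᵥ v' ∈ Fset := by
    have key2 : ∀ u ∈ cone, Nf u = Nf v' → -(u 0 + u 2) ≤ u 2 → u 2 ≤ 2 * (u 0 + u 2) →
        (u 0 + u 2) ^ 2 ≤ 4 * Nf v' → u ∈ Fset := by
      intro u hu hNu h1 h2 h3
      have ha := cone_a_pos hu
      refine ⟨hu, ?_, ?_, ?_⟩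
      · unfold Xc; rw [le_div_iff₀ ha]; linarith
      · unfold Xc; rw [div_lt_iff₀ ha]; linarith
      · unfold Yc
        rw [le_div_iff₀ ha]
        apply Real.le_sqrt_of_sq_le
        rw [hNu]; nlinarith
    have h0 := hw 0
    have h1 := hw 1
    have h2 := hw 2
    have hN : Nf v' = v' 0 * v' 1 + v' 1 * v' 2 + v' 2 * v' 0 := rfl
    have hA : ∀ a b c : ℝ, 0 ≤ a → 0 ≤ b → a ≤ c → b ≤ c →
        (a + b) ^ 2 ≤ 4 * (a * b + (a + b) * c) := by
      intro a b c ha hb hac hbc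
      have : (a + b) * (a + b) ≤ (a + b) * (2 * c) :=
        mul_le_mul_of_nonneg_left (by linarith) (by linarith)
      nlinarith [mul_nonneg ha hb]
    have hcase : (v' 0 ≤ v' 1 ∧ v' 2 ≤ v' 1) ∨ (v' 1 ≤ v' 0 ∧ v' 2 ≤ v' 0) ∨
        (v' 0 ≤ v' 2 ∧ v' 1 ≤ v' 2) := by
      rcases le_total (v' 0) (v' 1) with a | a
      · rcases le_total (v' 2) (v' 1) with b | b
        · exact Or.inl ⟨a, b⟩
        · exact Or.inr (Or.inr ⟨a.trans b, b⟩)
      · rcases le_total (v' 2) (v' 0) with b | b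
        · exact Or.inr (Or.inl ⟨a, b⟩)
        · exact Or.inr (Or.inr ⟨b, a.trans b⟩)
    rcases hcase with ⟨c1, c2⟩ | ⟨c1, c2⟩ | ⟨c1, c2⟩
    · refine ⟨1, ?_⟩
      have e : (rho 1 : Matrix (Fin 3) (Fin 3) ℝ) *ᵥ v' = v' := by simp
      rw [e]
      have := hA _ _ _ h0 h2 c1 c2
      exact key2 v' hv'c rfl (by linarith) (by linarith) (by rw [hN]; linarith)
    · refine ⟨cs.simple 2, ?_⟩
      rw [rho_simple_coe]
      have := hA _ _ _ h1 h2 c1 c2
      have e0 : (half 2 *ᵥ v') 0 = v' 1 + 2 * v' 2 := by rw [half2_mulVec]; simp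
      have e2 : (half 2 *ᵥ v') 2 = - v' 2 := by rw [half2_mulVec]; simp
      refine key2 _ (half_mem 2 _ hv'c) (Nf_half 2 _) ?_ ?_ ?_
      · rw [e0, e2]; linarith
      · rw [e0, e2]; linarith
      · rw [e0, e2, hN]; nlinarith
    · refine ⟨cs.simple 0, ?_⟩
      rw [rho_simple_coe]
      have := hA _ _ _ h0 h1 c1 c2
      have e0 : (half 0 *ᵥ v') 0 = - v' 0 := by rw [half0_mulVec]; simp
      have e2 : (half 0 *ᵥ v') 2 = 2 * v' 0 + v' 1 := by rw [half0_mulVec]; simp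
      refine key2 _ (half_mem 0 _ hv'c) (Nf_half 0 _) ?_ ?_ ?_
      · rw [e0, e2]; linarith
      · rw [e0, e2]; linarith
      · rw [e0, e2, hN]; nlinarith
  obtain ⟨w', hw'⟩ := hstep
  rw [Set.mem_iUnion]
  refine ⟨(w' * w)⁻¹, (rho w' : Matrix (Fin 3) (Fin 3) ℝ) *ᵥ v', hw', ?_⟩
  simp only [hv']
  rw [Matrix.mulVec_mulVec, Matrix.mulVec_mulVec, ← Units.val_mul, ← Units.val_mul, ← map_mul,
    ← map_mul]
  simp

/-- The negation of the preceding statement: Take a finitely generated Coxeter group acting faithfully and discretely, with determinants ±1, on a properly convex cone with finite Hilbert covolume. Then each generator acts as a linear reflection in a facet of a polyhedral cone whose translates have disjoint interiors (Vinberg's projective refle -/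
theorem result :
    ¬ (∀ (n : ℕ) (B : Type) [Finite B] (M : CoxeterMatrix B) (W : Type) [Group W]
    (cs : CoxeterSystem M W)
    (ρ : W →* Matrix.GeneralLinearGroup (Fin n) ℝ) (C : Set (Fin n → ℝ)),
    Function.Injective ρ →
    (∀ w : W, (ρ w : Matrix (Fin n) (Fin n) ℝ).det = 1 ∨
      (ρ w : Matrix (Fin n) (Fin n) ℝ).det = -1) →
    IsOpen C → Convex ℝ C → C.Nonempty →
    (∀ x ∈ C, ∀ t : ℝ, 0 < t → t • x ∈ C) →
    (∀ x : Fin n → ℝ, x ∈ closure C → -x ∈ closure C → x = 0) →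
    (∀ (w : W) (x : Fin n → ℝ), x ∈ C ↔ (ρ w : Matrix (Fin n) (Fin n) ℝ) *ᵥ x ∈ C) →
    (∀ w : W, ∃ U : Set (Matrix (Fin n) (Fin n) ℝ), IsOpen U ∧
      (ρ w : Matrix (Fin n) (Fin n) ℝ) ∈ U ∧
      ∀ w' : W, (ρ w' : Matrix (Fin n) (Fin n) ℝ) ∈ U → w' = w) →
    (∃ F : Set (Fin n → ℝ), F ⊆ C ∧
      C ⊆ ⋃ w : W, (fun x => (ρ w : Matrix (Fin n) (Fin n) ℝ) *ᵥ x) '' F ∧
      (⨆ (r : ENNReal) (_ : 0 < r),
        ⨅ (U : ℕ → Set (Fin n → ℝ)) (_ : F ⊆ ⋃ i, U i) (_ : ∀ i, U i ⊆ C)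
          (_ : ∀ i, (⨆ x ∈ U i, ⨆ y ∈ U i, ENNReal.ofReal ((1 / 2 : ℝ) *
              Real.log (sInf {t : ℝ | t • y - x ∈ closure C} *
                sInf {t : ℝ | t • x - y ∈ closure C}))) ≤ r),
          ∑' i, ⨆ (_ : (U i).Nonempty),
            (⨆ x ∈ U i, ⨆ y ∈ U i, ENNReal.ofReal ((1 / 2 : ℝ) *
              Real.log (sInf {t : ℝ | t • y - x ∈ closure C} *
                sInf {t : ℝ | t • x - y ∈ closure C}))) ^ (n - 1)) < ⊤) →
    ∃ α v : B → Fin n → ℝ,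
      (∀ s : B, α s ⬝ᵥ v s = 2 ∧
        (ρ (cs.simple s) : Matrix (Fin n) (Fin n) ℝ) = 1 - Matrix.vecMulVec (v s) (α s)) ∧
      (∃ x : Fin n → ℝ, ∀ s : B, α s ⬝ᵥ x < 0) ∧
      (∀ s : B, ∃ x : Fin n → ℝ, α s ⬝ᵥ x = 0 ∧ ∀ s' : B, s' ≠ s → α s' ⬝ᵥ x < 0) ∧
      (∀ w : W, w ≠ 1 → ∀ x : Fin n → ℝ, (∀ s : B, α s ⬝ᵥ x < 0) →
        ¬ (∀ s : B, α s ⬝ᵥ ((ρ w : Matrix (Fin n) (Fin n) ℝ) *ᵥ x) < 0))) := by
  intro hall
  refine absurd (hall 3 (Fin 3) univM W cs rho cone rho_inj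
    (fun w => Or.inl (rho_det w)) cone_open cone_convex ⟨x0, x0_mem⟩
    (fun x hx t ht => cone_smul hx ht) cone_proper (fun w x => (rho_mem_iff w x).symm)
    rho_discrete ?_) ?_
  rotate_left
  · rintro ⟨α, v, h1, -, -, -⟩
    obtain ⟨h2, h3⟩ := h1 0
    rw [rho_simple_coe] at h3
    have h4 := congrArg Matrix.trace h3
    rw [Matrix.trace_sub, Matrix.trace_one, Matrix.trace_vecMulVec, dotProduct_comm, h2] at h4
    have h5 : Matrix.trace (half 0) = -1 := by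
      simp [Matrix.trace, Fin.sum_univ_three, half, halfZ]
    rw [h5] at h4
    norm_num at h4
  · refine ⟨Fset, fun x hx => hx.1, cover, ?_⟩
    refine lt_of_le_of_lt ?_ (ENNReal.ofReal_lt_top (r := 576))
    refine iSup₂_le fun r hr => ?_
    -- choose a fine grid
    obtain ⟨N, hN4, hNr⟩ : ∃ N : ℕ, 4 ≤ N ∧ ENNReal.ofReal (24 / N) ≤ r := by
      by_cases hrt : r = ⊤
      · exact ⟨4, le_rfl, by rw [hrt]; exact le_top⟩
      · have hr' : 0 < r.toReal := ENNReal.toReal_pos hr.ne' hrt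
        obtain ⟨N, hN⟩ := exists_nat_gt (24 / r.toReal)
        refine ⟨max N 4, le_max_right _ _, ?_⟩
        rw [← ENNReal.ofReal_toReal hrt]
        apply ENNReal.ofReal_le_ofReal
        have hmax : (N : ℝ) ≤ ((max N 4 : ℕ) : ℝ) := by exact_mod_cast le_max_left N 4
        have h4' : (4 : ℝ) ≤ ((max N 4 : ℕ) : ℝ) := by exact_mod_cast le_max_right N 4
        rw [div_le_iff₀ (by linarith)]
        rw [div_lt_iff₀ hr'] at hN
        nlinarith
    have hdiam : ∀ i, (⨆ x ∈ Ubox N i, ⨆ y ∈ Ubox N i, ENNReal.ofReal ((1 / 2 : ℝ) *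
              Real.log (sInf {t : ℝ | t • y - x ∈ closure cone} *
                sInf {t : ℝ | t • x - y ∈ closure cone}))) ≤
        ENNReal.ofReal (24 * N / ((N : ℝ) ^ 2 + i + 1)) := diam_box hN4
    refine iInf_le_of_le (Ubox N) (iInf_le_of_le (F_sub_boxes (by omega))
      (iInf_le_of_le (fun i v hv => hv.1) (iInf_le_of_le ?_ ?_)))
    · intro i
      refine (hdiam i).trans (le_trans (ENNReal.ofReal_le_ofReal ?_) hNr)
      have hN' : (0 : ℝ) < N := by
        have : 0 < N := by omega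
        exact_mod_cast this
      rw [div_le_div_iff₀ (by positivity) hN']
      nlinarith [Nat.cast_nonneg (α := ℝ) i]
    · refine le_trans (ENNReal.tsum_le_tsum fun i => ?_) (sum_bound hN4)
      refine iSup_le fun _ => ?_
      exact pow_le_pow_left' (hdiam i) 2

end Pool.Agent.S08246
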