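import Pool.Statements.S08249
import Pool.Agent.Helper438.Proj.Final

set_option autoImplicit false
open Pool Pool.MP_2f98a8_gt

namespace Pool.Agent.S08249

/-- If a compact convex body in R^3 with 0 in its interior has all boundary sections by planes through 0 projectively equivalent to each other, then the body is an ellipsoid, i.e. an affine image of the unit ball. -/
theorem result :
    ∀ K : Set (EuclideanSpace ℝ (Fin 3)),
      Convex ℝ K → IsCompact K → (0 : EuclideanSpace ℝ (Fin 3)) ∈ interior K →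
      (∀ H₁ H₂ : Submodule ℝ (EuclideanSpace ℝ (Fin 3)),
        Module.finrank ℝ H₁ = 2 → Module.finrank ℝ H₂ = 2 →
        ∃ L : (↥H₁ × ℝ) ≃ₗ[ℝ] (↥H₂ × ℝ),
          ⇑L '' {p : ↥H₁ × ℝ | ∃ t : ℝ, ∃ x : ↥H₁,
              (x : EuclideanSpace ℝ (Fin 3)) ∈ frontier K ∧ p = (t • x, t)} =
            {p : ↥H₂ × ℝ | ∃ t : ℝ, ∃ x : ↥H₂,
              (x : EuclideanSpace ℝ (Fin 3)) ∈ frontier K ∧ p = (t • x, t)}) →
      ∃ A : EuclideanSpace ℝ (Fin 3) ≃ᵃ[ℝ] EuclideanSpace ℝ (Fin 3),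
        K = ⇑A '' Metric.closedBall (0 : EuclideanSpace ℝ (Fin 3)) 1 := by
  intro K hc hcomp h0 hyp
  exact Pool.Agent.Helper438.Proj.main K hc hcomp h0 hyp

end Pool.Agent.S08249
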