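import Pool.Statements.S08259
import Pool.Agent.Helper648.HS.Final

set_option autoImplicit false
open Pool Pool.MP_31078b_gt

namespace Pool.Agent.S08259

/-- Every generalized ordered space (open rays are open, base of open convex sets) in which every subspace is a Nagami Σ-space (σ-locally finite closed network modulo a cover by closed countably compact sets) is metrizable. -/
theorem result :
  ∀ (X : Type) [LinearOrder X] [TopologicalSpace X],
    (∀ a : X, IsOpen (Set.Ioi a) ∧ IsOpen (Set.Iio a)) →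
    TopologicalSpace.IsTopologicalBasis {U : Set X | IsOpen U ∧ U.OrdConnected} →
    (∀ Y : Set X, ∃ (F : ℕ → Set (Set ↥Y)) (K : Set (Set ↥Y)),
      (∀ n, LocallyFinite (fun s : F n => (s : Set ↥Y))) ∧
      (∀ n, ∀ s ∈ F n, IsClosed s) ∧
      (∀ y : ↥Y, ∃ k ∈ K, y ∈ k) ∧
      (∀ k ∈ K, IsClosed k ∧
        ∀ u : ℕ → Set ↥Y, (∀ n, IsOpen (u n)) → k ⊆ ⋃ n, u n →
          ∃ t : Finset ℕ, k ⊆ ⋃ n ∈ t, u n) ∧
      (∀ k ∈ K, ∀ U : Set ↥Y, IsOpen U → k ⊆ U →
          ∃ n, ∃ s ∈ F n, k ⊆ s ∧ s ⊆ U)) →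
    TopologicalSpace.MetrizableSpace X := by
  exact Pool.Agent.Helper648.HS.main

end Pool.Agent.S08259
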