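import Pool.Statements.S08272
-- import your own Pool.Agent.* helpers here

set_option autoImplicit false
open Pool Pool.MP_327467_gt

namespace Pool.Agent.S08272

/-- The parent of a letter; every fibre is infinite and `par j < j` for `j > 0`. -/
def par (j : ℕ) : ℕ := (Nat.unpair j).1

theorem par_lt {j : ℕ} (h : 0 < j) : par j < j := Nat.unpair_lt h

theorem exists_par_gt (i K : ℕ) : ∃ j, K < j ∧ par j = i := by
  refine ⟨Nat.pair i (K + 1), ?_, by simp [par]⟩
  exact lt_of_lt_of_le (Nat.lt_succ_self K) (Nat.right_le_pair i (K + 1))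

/-- First element at most `N` in the orbit of `x` under `par`. -/
def root (N : ℕ) (x : ℕ) : ℕ :=
  if _h : x ≤ N then x else root N (par x)
termination_by x
decreasing_by exact par_lt (by omega)

theorem root_of_le {N x : ℕ} (h : x ≤ N) : root N x = x := by
  unfold root; simp [h]

theorem root_of_gt {N x : ℕ} (h : N < x) : root N x = root N (par x) := by
  conv_lhs => unfold root
  simp [Nat.not_le.mpr h]

/-- Points: finite words; the most recent letter is at the head. -/
def Tr : Type := List ℕ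

/-- The open sets of the space. -/
def OpenCond (U : Set (List ℕ)) : Prop :=
  (∀ k s, k :: s ∈ U → s ∈ U) ∧
  (∀ v i s, v ++ i :: s ∈ U → ∃ K, ∀ j, K < j → par j = i → v ++ i :: j :: s ∈ U)

instance : TopologicalSpace Tr where
  IsOpen U := OpenCond U
  isOpen_univ := ⟨fun _ _ _ => trivial, fun _ _ _ _ => ⟨0, fun _ _ _ => trivial⟩⟩
  isOpen_inter := by
    rintro U V ⟨hU1, hU2⟩ ⟨hV1, hV2⟩
    refine ⟨fun k s h => ⟨hU1 k s h.1, hV1 k s h.2⟩, fun v i s h => ?_⟩
    obtain ⟨K1, h1⟩ := hU2 v i s h.1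
    obtain ⟨K2, h2⟩ := hV2 v i s h.2
    refine ⟨max K1 K2, fun j hj hp => ⟨h1 j (lt_of_le_of_lt (le_max_left _ _) hj) hp,
      h2 j (lt_of_le_of_lt (le_max_right _ _) hj) hp⟩⟩
  isOpen_sUnion := by
    intro S hS
    refine ⟨?_, ?_⟩
    · rintro k s ⟨U, hU, h⟩
      exact ⟨U, hU, (hS U hU).1 k s h⟩
    · rintro v i s ⟨U, hU, h⟩
      obtain ⟨K, hK⟩ := (hS U hU).2 v i s h
      exact ⟨K, fun j hj hp => ⟨U, hU, hK j hj hp⟩⟩

theorem isOpen_iff' (U : Set Tr) : IsOpen U ↔ OpenCond U := Iff.rfl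

/-- Suffix closure. -/
theorem suffix_mem {U : Set (List ℕ)} (hU : OpenCond U) :
    ∀ (w s : List ℕ), w ++ s ∈ U → s ∈ U := by
  intro w
  induction w with
  | nil => intro s h; simpa using h
  | cons k w ih => intro s h; exact ih s (hU.1 k _ (by simpa using h))

/-- non-leaves -/
def lamSet (U : Set (List ℕ)) : Set (List ℕ) := {s | ∃ k, k :: s ∈ U}

theorem lamSet_sub {U : Set (List ℕ)} (hU : OpenCond U) : lamSet U ⊆ U := by
  rintro s ⟨k, hk⟩
  exact hU.1 k s hk

theorem lamSet_open {U : Set (List ℕ)} (hU : OpenCond U) : OpenCond (lamSet U) := by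
  refine ⟨?_, ?_⟩
  · rintro k s ⟨l, hl⟩
    exact ⟨k, hU.1 l _ hl⟩
  · rintro v i s ⟨l, hl⟩
    obtain ⟨K, hK⟩ := hU.2 (l :: v) i s (by simpa using hl)
    exact ⟨K, fun j hj hp => ⟨l, by simpa using hK j hj hp⟩⟩

theorem lamSet_idem {U : Set (List ℕ)} (hU : OpenCond U) : lamSet U ⊆ lamSet (lamSet U) := by
  rintro s ⟨k, hk⟩
  obtain ⟨K, hK⟩ := hU.2 [] k s (by simpa using hk)
  obtain ⟨j, hj, hp⟩ := exists_par_gt k K
  exact ⟨j, k, by simpa using hK j hj hp⟩

theorem lamSet_mono {U V : Set (List ℕ)} (h : U ⊆ V) : lamSet U ⊆ lamSet V := by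
  rintro s ⟨k, hk⟩
  exact ⟨k, h hk⟩

/-- The auxiliary antichain. -/
def G (M : Set (List ℕ)) (r : List ℕ) (N : ℕ) : Set (List ℕ) :=
  {t | t ∈ M ∧ t.filter (fun a => decide (a ≤ N)) = r ∧ ∀ a l, t = a :: l → a ≤ N}

theorem G_anti {M : Set (List ℕ)} {r : List ℕ} {N : ℕ} {w t : List ℕ}
    (h1 : w ++ t ∈ G M r N) (h2 : t.filter (fun a => decide (a ≤ N)) = r) : w = [] := by
  obtain ⟨_, hf, hh⟩ := h1
  cases w with
  | nil => rfl
  | cons a w =>
    exfalso
    have ha : a ≤ N := hh a (w ++ t) (by simp)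
    have hlen := congrArg List.length hf
    rw [List.filter_append, h2, List.length_append] at hlen
    rw [List.filter_cons_of_pos (by simpa using ha)] at hlen
    simp at hlen

theorem G_ins {M : Set (List ℕ)} (hM : OpenCond M) {r : List ℕ} {N : ℕ} (v : List ℕ) (m : ℕ)
    (s : List ℕ) (h : v ++ m :: s ∈ G M r N) :
    ∃ K, ∀ j, K < j → par j = m → v ++ m :: j :: s ∈ G M r N := by
  obtain ⟨hm, hf, hh⟩ := h
  obtain ⟨K, hK⟩ := hM.2 v m s hm
  refine ⟨max K N, fun j hj hp => ⟨hK j (lt_of_le_of_lt (le_max_left _ _) hj) hp, ?_, ?_⟩⟩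
  · have hjN : ¬ j ≤ N := Nat.not_le.mpr (lt_of_le_of_lt (le_max_right _ _) hj)
    rw [List.filter_append] at hf ⊢
    rw [← hf]
    congr 1
    simp [List.filter_cons, hjN]
  · intro a l hal
    cases v with
    | nil =>
      simp only [List.nil_append, List.cons.injEq] at hal
      exact hh a s (by simp [hal.1])
    | cons b v =>
      simp only [List.cons_append, List.cons.injEq] at hal
      exact hh a (v ++ m :: s) (by simp [hal.1])

/-- Neighbourhoods of words which extend `r` by a letter whose root is `i`. -/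
def Nb (M : Set (List ℕ)) (r : List ℕ) (N i : ℕ) : Set (List ℕ) :=
  {t | (∃ w, w ++ t ∈ G M r N) ∨ ∃ z e g, t = z ++ e :: g ∧ g ∈ G M r N ∧ root N e = i}

theorem Nb_open {M : Set (List ℕ)} (hM : OpenCond M) (r : List ℕ) (N i : ℕ) :
    OpenCond (Nb M r N i) := by
  refine ⟨?_, ?_⟩
  · rintro k s (⟨w, hw⟩ | ⟨z, e, g, ht, hg, he⟩)
    · left
      exact ⟨w ++ [k], by simpa using hw⟩
    · cases z with
      | nil =>
        simp only [List.nil_append, List.cons.injEq] at ht
        left
        exact ⟨[], by simpa [ht.2] using hg⟩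
      | cons a z =>
        simp only [List.cons_append, List.cons.injEq] at ht
        right
        exact ⟨z, e, g, ht.2, hg, he⟩
  · rintro v m s (⟨w, hw⟩ | ⟨z, e, g, ht, hg, he⟩)
    · obtain ⟨K, hK⟩ := G_ins hM (w ++ v) m s (by simpa using hw)
      exact ⟨K, fun j hj hp => Or.inl ⟨w, by simpa using hK j hj hp⟩⟩
    · rcases List.append_eq_append_iff.mp ht with ⟨a', hz, hms⟩ | ⟨c', hv, hms⟩
      · cases a' with
        | nil =>
          simp only [List.nil_append, List.cons.injEq] at hms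
          obtain ⟨rfl, rfl⟩ := hms
          refine ⟨N, fun j hj hp => Or.inr ⟨v ++ [m], j, s, by simp, hg, ?_⟩⟩
          rw [root_of_gt hj, hp, he]
        | cons b a' =>
          simp only [List.cons_append, List.cons.injEq] at hms
          obtain ⟨rfl, rfl⟩ := hms
          exact ⟨0, fun j hj hp => Or.inr ⟨v ++ m :: j :: a', e, g, by simp, hg, he⟩⟩
      · cases c' with
        | nil =>
          simp only [List.nil_append, List.cons.injEq] at hms
          obtain ⟨rfl, rfl⟩ := hms
          refine ⟨N, fun j hj hp => Or.inr ⟨v ++ [e], j, g, by simp, hg, ?_⟩⟩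
          rw [root_of_gt hj, hp, he]
        | cons b c' =>
          simp only [List.cons_append, List.cons.injEq] at hms
          obtain ⟨rfl, rfl⟩ := hms
          obtain ⟨K, hK⟩ := G_ins hM c' m s hg
          refine ⟨K, fun j hj hp => Or.inr ⟨z, e, c' ++ m :: j :: s, ?_, hK j hj hp, he⟩⟩
          rw [hv]; simp

theorem Nb_inter {M : Set (List ℕ)} (hM : OpenCond M) (r : List ℕ) (N i j : ℕ) (hij : i ≠ j) :
    Nb M r N i ∩ Nb M r N j ⊆ M := by
  rintro t ⟨h1, h2⟩
  rcases h1 with ⟨w, hw⟩ | ⟨z, e, g, ht, hg, he⟩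
  · exact suffix_mem hM w t hw.1
  rcases h2 with ⟨w, hw⟩ | ⟨z', e', g', ht', hg', he'⟩
  · exact suffix_mem hM w t hw.1
  exfalso
  have hs : g <:+ t := ⟨z ++ [e], by simp [ht]⟩
  have hs' : g' <:+ t := ⟨z' ++ [e'], by simp [ht']⟩
  have hgg : g = g' := by
    rcases List.suffix_or_suffix_of_suffix hs hs' with ⟨w, hw⟩ | ⟨w, hw⟩
    · have := G_anti (w := w) (t := g) (by rw [hw]; exact hg') hg.2.1
      simpa [this] using hw
    · have := G_anti (w := w) (t := g') (by rw [hw]; exact hg) hg'.2.1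
      rw [this] at hw
      simpa using hw.symm
  subst hgg
  rw [ht] at ht'
  have h3 : (z ++ [e]) ++ g = (z' ++ [e']) ++ g := by simpa using ht'
  have h4 := List.append_cancel_right h3
  have h5 : e = e' := by
    have := List.append_inj' h4 rfl
    simpa using this.2
  apply hij
  rw [← he, ← he', h5]

theorem filter_self {r : List ℕ} {N : ℕ} (h : ∀ a ∈ r, a ≤ N) :
    r.filter (fun a => decide (a ≤ N)) = r := by
  rw [List.filter_eq_self]
  intro a ha
  simpa using h a ha

theorem mem_G_self {M : Set (List ℕ)} {r : List ℕ} {N : ℕ} (hr : r ∈ M) (h : ∀ a ∈ r, a ≤ N) :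
    r ∈ G M r N :=
  ⟨hr, filter_self h, fun a l hal => h a (by simp [hal])⟩

/-- The letters of a word are bounded. -/
theorem exists_bound (r : List ℕ) : ∃ N, ∀ a ∈ r, a ≤ N := by
  induction r with
  | nil => exact ⟨0, by simp⟩
  | cons b r ih =>
    obtain ⟨N, hN⟩ := ih
    refine ⟨max b N, ?_⟩
    intro a ha
    rcases List.mem_cons.mp ha with rfl | ha
    · exact le_max_left _ _
    · exact le_trans (hN a ha) (le_max_right _ _)

theorem prefix_split (a : List ℕ) : ∀ b : List ℕ, (a <+: b) ∨ (b <+: a) ∨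
    ∃ r i j a' b', i ≠ j ∧ a = r ++ i :: a' ∧ b = r ++ j :: b' := by
  induction a with
  | nil => intro b; left; exact List.nil_prefix
  | cons x a ih =>
    intro b
    cases b with
    | nil => right; left; exact List.nil_prefix
    | cons y b =>
      by_cases hxy : x = y
      · subst hxy
        rcases ih b with h | h | ⟨r, i, j, a', b', hij, h1, h2⟩
        · left; exact List.cons_prefix_cons.mpr ⟨rfl, h⟩
        · right; left; exact List.cons_prefix_cons.mpr ⟨rfl, h⟩
        · right; right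
          exact ⟨x :: r, i, j, a', b', hij, by simp [h1], by simp [h2]⟩
      · right; right
        exact ⟨[], x, y, a, b, hxy, by simp, by simp⟩

theorem suffix_split (a b : List ℕ) : (a <:+ b) ∨ (b <:+ a) ∨
    ∃ r i j a' b', i ≠ j ∧ a = a' ++ i :: r ∧ b = b' ++ j :: r := by
  rcases prefix_split a.reverse b.reverse with h | h | ⟨r, i, j, a', b', hij, h1, h2⟩
  · left; exact List.reverse_prefix.mp h
  · right; left; exact List.reverse_prefix.mp h
  · right; right
    refine ⟨r.reverse, i, j, a'.reverse, b'.reverse, hij, ?_, ?_⟩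
    · have := congrArg List.reverse h1
      simpa using this
    · have := congrArg List.reverse h2
      simpa using this

/-- There is no proper `J` which is prime and satisfies `lamSet N ⊆ J → N ⊆ J`. -/
theorem no_prime (J : Set (List ℕ)) (hJ : OpenCond J) (hne : ∃ u, u ∉ J)
    (hprime : ∀ A B : Set (List ℕ), OpenCond A → OpenCond B → A ∩ B ⊆ J → A ⊆ J ∨ B ⊆ J)
    (hlam : ∀ A : Set (List ℕ), OpenCond A → lamSet A ⊆ J → A ⊆ J) : False := by
  classical
  -- a word outside `J` of least length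
  have hex : ∃ n, ∃ u : List ℕ, u.length = n ∧ u ∉ J := by
    obtain ⟨u, hu⟩ := hne
    exact ⟨u.length, u, rfl, hu⟩
  obtain ⟨u, hul, huJ⟩ := Nat.find_spec hex
  have hmin : ∀ t : List ℕ, t.length < u.length → t ∈ J := by
    intro t ht
    by_contra htJ
    rw [hul] at ht
    exact Nat.find_min hex ht ⟨t, rfl, htJ⟩
  obtain ⟨N0, hN0⟩ := exists_bound u
  -- the leaf neighbourhood
  set A0 : Set (List ℕ) := {t | ∃ w, w ++ t ∈ G Set.univ u N0} with hA0
  have huniv : OpenCond (Set.univ : Set (List ℕ)) :=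
    ⟨fun _ _ _ => trivial, fun _ _ _ _ => ⟨0, fun _ _ _ => trivial⟩⟩
  have hA0open : OpenCond A0 := by
    refine ⟨?_, ?_⟩
    · rintro k s ⟨w, hw⟩
      exact ⟨w ++ [k], by simpa using hw⟩
    · rintro v m s ⟨w, hw⟩
      obtain ⟨K, hK⟩ := G_ins huniv (w ++ v) m s (by simpa using hw)
      exact ⟨K, fun j hj hp => ⟨w, by simpa using hK j hj hp⟩⟩
  have hu0 : u ∈ A0 := ⟨[], by simpa using mem_G_self (M := Set.univ) trivial hN0⟩
  have hu1 : u ∉ lamSet A0 := by
    rintro ⟨k, w, hw⟩
    have := G_anti (w := w ++ [k]) (t := u) (by simpa using hw) (filter_self hN0)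
    simp at this
  have hnot : ¬ lamSet A0 ⊆ J := fun h => huJ (hlam A0 hA0open h hu0)
  obtain ⟨v, hvl, hvJ⟩ := Set.not_subset.mp hnot
  -- a shortest suffix of `v` outside `J`
  have hex2 : ∃ n, ∃ t : List ℕ, t <:+ v ∧ t.length = n ∧ t ∉ J :=
    ⟨v.length, v, List.suffix_refl v, rfl, hvJ⟩
  obtain ⟨v', hv'v, hv'l, hv'J⟩ := Nat.find_spec hex2
  have hmin2 : ∀ t : List ℕ, t <:+ v → t.length < v'.length → t ∈ J := by
    intro t htv ht
    by_contra htJ
    rw [hv'l] at ht
    exact Nat.find_min hex2 ht ⟨t, htv, rfl, htJ⟩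
  have huv : ¬ u <:+ v := by
    rintro ⟨w, hw⟩
    apply hu1
    apply suffix_mem (lamSet_open hA0open) w u
    rw [hw]; exact hvl
  rcases suffix_split u v' with h | h | ⟨r, i, j, u', v'', hij, hu, hv⟩
  · exact huv (h.trans hv'v)
  · rcases Nat.lt_or_ge v'.length u.length with hlt | hge
    · exact hv'J (hmin v' hlt)
    · have := h.eq_of_length_le hge
      exact huv (this ▸ hv'v)
  · have hrJ : r ∈ J := by
      apply hmin
      rw [hu]; simp
      omega
    obtain ⟨N1, hN1⟩ := exists_bound (i :: j :: r)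
    have hi : i ≤ N1 := hN1 i (by simp)
    have hj : j ≤ N1 := hN1 j (by simp)
    have hr : ∀ a ∈ r, a ≤ N1 := fun a ha => hN1 a (by simp [ha])
    have hG : r ∈ G J r N1 := mem_G_self hrJ hr
    rcases hprime (Nb J r N1 i) (Nb J r N1 j) (Nb_open hJ r N1 i) (Nb_open hJ r N1 j)
      (Nb_inter hJ r N1 i j hij) with h | h
    · exact huJ (h (Or.inr ⟨u', i, r, hu, hG, root_of_le hi⟩))
    · exact hv'J (h (Or.inr ⟨v'', j, r, hv, hG, root_of_le hj⟩))

open TopologicalSpace

/-- The operator on open sets. -/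
def lam (U : Opens Tr) : Opens Tr := ⟨lamSet U.1, lamSet_open U.2⟩

theorem lam_le (U : Opens Tr) : lam U ≤ U := lamSet_sub U.2

theorem lam_lam (U : Opens Tr) : lam (lam U) = lam U :=
  le_antisymm (lam_le _) (lamSet_idem U.2)

theorem lam_mono {U V : Opens Tr} (h : U ≤ V) : lam U ≤ lam V := lamSet_mono h

/-- The quotient lattice. -/
def Q : Type := {U : Opens Tr // lam U = U}

instance : PartialOrder Q := Subtype.partialOrder _

def toQ (U : Opens Tr) : Q := ⟨lam U, lam_lam U⟩

def ofQ (W : Q) : Opens Tr := W.1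

def gci : GaloisCoinsertion ofQ toQ where
  choice U _ := toQ U
  choice_eq _ _ := rfl
  gc := by
    intro W U
    constructor
    · intro h
      show W.1 ≤ lam U
      rw [← W.2]
      exact lam_mono h
    · intro h
      exact le_trans (show W.1 ≤ lam U from h) (lam_le U)
  u_l_le W := by
    show lam W.1 ≤ W.1
    exact lam_le _

instance : CompleteLattice Q := gci.liftCompleteLattice

def phi : CompleteLatticeHom (Opens Tr) Q where
  toFun := toQ
  map_sInf' s := by
    rw [sInf_image]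
    exact gci.gc.u_sInf
  map_sSup' s := by
    apply le_antisymm
    · have key : ∀ W : Q, (∀ U ∈ s, toQ U ≤ W) → toQ (sSup s) ≤ W := by
        intro W hW
        show lam (sSup s) ≤ W.1
        intro x hx
        obtain ⟨k, hk⟩ := hx
        have hk2 : ∀ z : Tr, z ∈ sSup s → ∃ U ∈ s, z ∈ U := fun z hz => Opens.mem_sSup.mp hz
        obtain ⟨U, hU, hkU⟩ := hk2 (List.cons k x) hk
        exact (hW U hU : lam U ≤ W.1) ⟨k, hkU⟩
      apply key
      intro U hU
      exact le_sSup ⟨U, hU, rfl⟩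
    · apply sSup_le
      rintro _ ⟨U, hU, rfl⟩
      exact lam_mono (le_sSup hU)

theorem phi_surj : Function.Surjective phi := fun W => ⟨W.1, Subtype.ext W.2⟩

/-- The negation of the preceding statement: For every topological space X and every surjective complete lattice homomorphism from the lattice of open sets of X onto a complete lattice L', L' is order-isomorphic to the lattice of open sets of some topological space. -/
theorem result :
    ¬ (∀ (X : Type) [TopologicalSpace X] (L' : Type) [CompleteLattice L']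
      (φ : CompleteLatticeHom (TopologicalSpace.Opens X) L'),
      Function.Surjective φ →
        ∃ (Y : Type) (_ : TopologicalSpace Y),
          Nonempty (L' ≃o TopologicalSpace.Opens Y)) := by
  intro H
  obtain ⟨Y, _, ⟨e⟩⟩ := H Tr Q phi phi_surj
  -- `Y` has a point
  have hY : Nonempty Y := by
    by_contra hY
    rw [not_nonempty_iff] at hY
    have h1 : e ⊤ = e ⊥ := by
      apply Opens.ext
      apply Set.ext
      intro y
      exact hY.elim y
    have h2 : (⊤ : Q) = ⊥ := e.injective h1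
    have h3 : phi ⊤ = phi ⊥ := by rw [map_top, map_bot, h2]
    have h4 : lam ⊤ = lam ⊥ := congrArg Subtype.val h3
    have h5 : (List.nil : Tr) ∈ lam ⊤ := ⟨0, trivial⟩
    rw [h4] at h5
    obtain ⟨k, hk⟩ := h5
    exact hk
  obtain ⟨y⟩ := hY
  let C : Opens Y := ⟨(closure {y})ᶜ, isClosed_closure.isOpen_compl⟩
  have hyC : y ∉ C := fun h => h (subset_closure rfl)
  have hCle : ∀ W : Opens Y, W ≤ C ↔ y ∉ W := by
    intro W
    constructor
    · intro h hy
      exact hyC (h hy)
    · intro hy z hz hzc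
      obtain ⟨t, ht, hty⟩ := mem_closure_iff.mp hzc W.1 W.2 hz
      rw [Set.mem_singleton_iff] at hty
      subst hty
      exact hy ht
  let p : Q := e.symm C
  have hple : ∀ W : Q, W ≤ p ↔ y ∉ e W := by
    intro W
    rw [← hCle, ← e.le_symm_apply]
  let J : Opens Tr := sSup {A | phi A ≤ p}
  have hJp : phi J ≤ p := by
    show phi (sSup {A | phi A ≤ p}) ≤ p
    rw [map_sSup]
    apply sSup_le
    rintro _ ⟨A, hA, rfl⟩
    exact hA
  have hJle : ∀ A : Opens Tr, phi A ≤ p ↔ A ≤ J := by
    intro A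
    constructor
    · intro h
      exact le_sSup h
    · intro h
      exact le_trans (OrderHomClass.mono phi h) hJp
  refine no_prime J.1 J.2 ?_ ?_ ?_
  · by_contra hall
    push Not at hall
    have h1 : (⊤ : Opens Tr) ≤ J := fun x _ => hall x
    have h2 := (hJle ⊤).mpr h1
    rw [map_top, hple, map_top] at h2
    exact h2 trivial
  · intro A B hA hB hAB
    have h1 : (⟨A, hA⟩ ⊓ ⟨B, hB⟩ : Opens Tr) ≤ J := hAB
    have h2 := (hJle _).mpr h1
    rw [map_inf, hple, map_inf] at h2
    by_contra hcon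
    push Not at hcon
    apply h2
    constructor
    · by_contra h3
      exact hcon.1 ((hJle ⟨A, hA⟩).mp ((hple _).mpr h3))
    · by_contra h3
      exact hcon.2 ((hJle ⟨B, hB⟩).mp ((hple _).mpr h3))
  · intro A hA hAJ
    have h1 : lam ⟨A, hA⟩ ≤ J := hAJ
    have h2 := (hJle _).mpr h1
    have h3 : phi (lam ⟨A, hA⟩) = phi ⟨A, hA⟩ := Subtype.ext (lam_lam _)
    rw [h3] at h2
    exact (hJle ⟨A, hA⟩).mp h2

end Pool.Agent.S08272
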