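import Pool.Statements.S08277
import Pool.Agent.Ghys.Circle
import Pool.Agent.Ghys.L_line_main
import Pool.Agent.Ghys.L_mob_lift

set_option autoImplicit false
open Pool Pool.MP_348654_gt

namespace Pool.Agent.S08277

/-- Every closed, transitive, proper subgroup of orientation-preserving circle homeomorphisms is, after conjugation, the rotation group, a k-fold cover of PSL(2,R) (k=1 is PSL(2,R)), or the group of homeomorphisms commuting with rotation by 1/k. -/
theorem result :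
    ∀ G : Set (AddCircle (1:ℝ) ≃ₜ AddCircle (1:ℝ)),
      Homeomorph.refl (AddCircle (1:ℝ)) ∈ G →
      (∀ f ∈ G, ∀ g ∈ G, f.trans g ∈ G) →
      (∀ f ∈ G, f.symm ∈ G) →
      (∀ f ∈ G, ∃ F : ℝ → ℝ, Continuous F ∧ StrictMono F ∧
          ∀ t : ℝ, f ((t : ℝ) : AddCircle (1:ℝ)) = ((F t : ℝ) : AddCircle (1:ℝ))) →
      (∀ f : AddCircle (1:ℝ) ≃ₜ AddCircle (1:ℝ),
          (∃ F : ℝ → ℝ, Continuous F ∧ StrictMono F ∧
            ∀ t : ℝ, f ((t : ℝ) : AddCircle (1:ℝ)) = ((F t : ℝ) : AddCircle (1:ℝ))) →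
          (ContinuousMap.mk (⇑f) f.continuous : C(AddCircle (1:ℝ), AddCircle (1:ℝ))) ∈ closure
            ((fun g : AddCircle (1:ℝ) ≃ₜ AddCircle (1:ℝ) =>
                (ContinuousMap.mk (⇑g) g.continuous : C(AddCircle (1:ℝ), AddCircle (1:ℝ)))) '' G) →
          f ∈ G) →
      (∀ x y : AddCircle (1:ℝ), ∃ g ∈ G, g x = y) →
      (∃ f : AddCircle (1:ℝ) ≃ₜ AddCircle (1:ℝ),
          (∃ F : ℝ → ℝ, Continuous F ∧ StrictMono F ∧
            ∀ t : ℝ, f ((t : ℝ) : AddCircle (1:ℝ)) = ((F t : ℝ) : AddCircle (1:ℝ))) ∧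
          f ∉ G) →
      ∃ h : AddCircle (1:ℝ) ≃ₜ AddCircle (1:ℝ), ∃ k : ℕ, 0 < k ∧
        ((∀ f : AddCircle (1:ℝ) ≃ₜ AddCircle (1:ℝ), f ∈ G ↔
            ∃ c : AddCircle (1:ℝ), ∀ x : AddCircle (1:ℝ), h.symm (f (h x)) = x + c) ∨
         (∀ f : AddCircle (1:ℝ) ≃ₜ AddCircle (1:ℝ), f ∈ G ↔
            ∃ a b c d : ℝ, a * d - b * c = 1 ∧
              ∀ t s : ℝ,
                k • h.symm (f (h ((t : ℝ) : AddCircle (1:ℝ)))) = ((s : ℝ) : AddCircle (1:ℝ)) →
                Real.cos (Real.pi * s) *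
                    (c * Real.cos (Real.pi * ((k : ℝ) * t)) + d * Real.sin (Real.pi * ((k : ℝ) * t))) =
                  Real.sin (Real.pi * s) *
                    (a * Real.cos (Real.pi * ((k : ℝ) * t)) + b * Real.sin (Real.pi * ((k : ℝ) * t)))) ∨
         (∀ f : AddCircle (1:ℝ) ≃ₜ AddCircle (1:ℝ), f ∈ G ↔
            ∃ g : AddCircle (1:ℝ) ≃ₜ AddCircle (1:ℝ),
              (∃ F : ℝ → ℝ, Continuous F ∧ StrictMono F ∧
                ∀ t : ℝ, g ((t : ℝ) : AddCircle (1:ℝ)) = ((F t : ℝ) : AddCircle (1:ℝ))) ∧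
              ∀ x : AddCircle (1:ℝ), k • h.symm (f (h x)) = g (k • x))) := by
  intro G h1 h2 h3 h4 h5 h6 _
  have hOk := Ghys.lifts_ok h1 h2 h3 h5
  have hTR := Ghys.lifts_TR h1 h2 h3 h4 h6
  have hone := Ghys.lifts_one h1 h2 h3
  rcases Ghys.line_main hOk hTR hone with ⟨φ, hφ, hmem⟩ | ⟨k, Θ, hk, hΘ, hmem⟩
  · -- rotations
    obtain ⟨h, hh⟩ := Ghys.circle_of_line φ⁻¹ hφ.inv
    have hh : Ghys.Lifts φ⁻¹ h := hh
    have hhs : Ghys.Lifts φ h.symm := by simpa using hh.symm
    refine ⟨h, 1, one_pos, Or.inl fun f => ⟨fun hf => ?_, ?_⟩⟩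
    · obtain ⟨F, hF, hL⟩ := Ghys.exists_lift h4 hf
      obtain ⟨t0, ht0⟩ := (hmem F).1 ((Ghys.mem_lifts_iff h1 h2 h3 hF hL).2 hf)
      refine ⟨(t0 : AddCircle (1:ℝ)), fun x => ?_⟩
      obtain ⟨s, rfl⟩ := QuotientAddGroup.mk_surjective x
      have e1 : h ((s : ℝ) : AddCircle (1:ℝ)) = ((φ⁻¹ s : ℝ) : AddCircle (1:ℝ)) := hh s
      show h.symm (f (h ((s : ℝ) : AddCircle (1:ℝ)))) = ((s : ℝ) : AddCircle (1:ℝ)) + _
      rw [e1, hL, hhs, ht0, Ghys.app_inv_self, AddCircle.coe_add]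
    · rintro ⟨c, hc⟩
      obtain ⟨t0, rfl⟩ := QuotientAddGroup.mk_surjective c
      set F : ℝ ≃o ℝ := φ⁻¹ * OrderIso.addRight t0 * φ with hFdef
      have hFp : Ghys.Per F := (hφ.inv.mul (Ghys.addRight_per t0)).mul hφ
      have hFa : ∀ x, F x = φ⁻¹ (φ x + t0) := fun x => rfl
      have hFm : F ∈ Ghys.lifts G h1 h2 h3 := (hmem F).2 ⟨t0, fun x => by
        rw [hFa, Ghys.app_inv_self]⟩
      have hL : Ghys.Lifts F f := by
        intro s
        have e1 : h ((φ s : ℝ) : AddCircle (1:ℝ)) = ((s : ℝ) : AddCircle (1:ℝ)) := by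
          rw [hh, Ghys.inv_app_self]
        have e2 := hc ((φ s : ℝ) : AddCircle (1:ℝ))
        rw [e1] at e2
        have e3 : f ((s : ℝ) : AddCircle (1:ℝ)) = h (((φ s + t0 : ℝ)) : AddCircle (1:ℝ)) := by
          rw [AddCircle.coe_add, ← Homeomorph.symm_apply_eq]
          exact e2
        rw [e3, hh, hFa]
      exact (Ghys.mem_lifts_iff h1 h2 h3 hFp hL).1 hFm
  · obtain ⟨H, h, hHP, hh, hH⟩ := Ghys.cover_lift hk hΘ
    rcases hmem with hmem | hmem
    · -- PSL2 covers
      refine ⟨h, k, hk, Or.inr (Or.inl fun f => ⟨fun hf => ?_, ?_⟩)⟩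
      · obtain ⟨F, hF, hL⟩ := Ghys.exists_lift h4 hf
        obtain ⟨a, b, c, d, hdet, hM⟩ :=
          (hmem F).1 ((Ghys.mem_lifts_iff h1 h2 h3 hF hL).2 hf)
        refine ⟨a, b, c, d, hdet, fun t s hts => ?_⟩
        rw [Ghys.conj_smul hH hh hL t, Ghys.coe_eq_iff] at hts
        obtain ⟨n, hn⟩ := hts
        have hs : s = (Θ⁻¹ * F * Θ) (k * t) + ((-n : ℤ) : ℝ) := by push_cast; linarith
        have hM' := hM ((k:ℝ) * t)
        rw [hs, Ghys.cos_shift, Ghys.sin_shift]
        linear_combination ((-1 : ℝ) ^ (-n)) * hM'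
      · rintro ⟨a, b, c, d, hdet, hM⟩
        obtain ⟨g, hg, hgM⟩ := Ghys.mob_lift a b c d hdet
        have hfg : ∀ t : ℝ, k • h.symm (f (h ((t : ℝ) : AddCircle (1:ℝ)))) =
            ((g (k * t) : ℝ) : AddCircle (1:ℝ)) := by
          intro t
          obtain ⟨s, hs⟩ := QuotientAddGroup.mk_surjective
            (k • h.symm (f (h ((t : ℝ) : AddCircle (1:ℝ)))))
          have e1 := hM t s hs.symm
          have e2 := hgM ((k:ℝ) * t)
          rw [← hs]
          show ((s : ℝ) : AddCircle (1:ℝ)) = _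
          rw [Ghys.coe_eq_iff]
          set u := (k:ℝ) * t
          set A := a * Real.cos (Real.pi * u) + b * Real.sin (Real.pi * u) with hA
          set C := c * Real.cos (Real.pi * u) + d * Real.sin (Real.pi * u) with hC
          have hne : A ≠ 0 ∨ C ≠ 0 := by
            by_contra hcon
            push Not at hcon
            have h1' : Real.cos (Real.pi * u) = 0 := by
              have : d * A - b * C = (a * d - b * c) * Real.cos (Real.pi * u) := by
                rw [hA, hC]; ring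
              rw [hcon.1, hcon.2, hdet] at this
              linarith
            have h2' : Real.sin (Real.pi * u) = 0 := by
              have : a * C - c * A = (a * d - b * c) * Real.sin (Real.pi * u) := by
                rw [hA, hC]; ring
              rw [hcon.1, hcon.2, hdet] at this
              linarith
            have := Real.sin_sq_add_cos_sq (Real.pi * u)
            rw [h1', h2'] at this
            norm_num at this
          have hsin : Real.sin (Real.pi * s - Real.pi * g u) = 0 := by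
            rw [Real.sin_sub]
            rcases hne with hne | hne
            · have : A * (Real.sin (Real.pi * s) * Real.cos (Real.pi * g u) -
                  Real.cos (Real.pi * s) * Real.sin (Real.pi * g u)) = 0 := by
                linear_combination (-Real.cos (Real.pi * g u)) * e1 + Real.cos (Real.pi * s) * e2
              exact (mul_eq_zero.1 this).resolve_left hne
            · have : C * (Real.sin (Real.pi * s) * Real.cos (Real.pi * g u) -
                  Real.cos (Real.pi * s) * Real.sin (Real.pi * g u)) = 0 := by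
                linear_combination (-Real.sin (Real.pi * g u)) * e1 + Real.sin (Real.pi * s) * e2
              exact (mul_eq_zero.1 this).resolve_left hne
          obtain ⟨n, hn⟩ := Real.sin_eq_zero_iff.1 hsin
          refine ⟨n, ?_⟩
          have hpi := Real.pi_pos
          have : Real.pi * (s - g u - n) = 0 := by linarith
          have := (mul_eq_zero.1 this).resolve_left hpi.ne'
          linarith
        obtain ⟨F, m, hF, hL, hFm⟩ := Ghys.lift_of_proj hk hHP hH hh g hg hfg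
        refine (Ghys.mem_lifts_iff h1 h2 h3 hF hL).1 ((hmem F).2 ⟨a, b, c, d, hdet, fun t => ?_⟩)
        rw [hFm, Ghys.cos_shift, Ghys.sin_shift]
        linear_combination ((-1 : ℝ) ^ m) * hgM t
    · -- everything commuting with a rotation
      refine ⟨h, k, hk, Or.inr (Or.inr fun f => ⟨fun hf => ?_, ?_⟩)⟩
      · obtain ⟨F, hF, hL⟩ := Ghys.exists_lift h4 hf
        have hP := (hmem F).1 ((Ghys.mem_lifts_iff h1 h2 h3 hF hL).2 hf)
        obtain ⟨g, hg⟩ := Ghys.circle_of_line _ hP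
        refine ⟨g, ⟨⇑(Θ⁻¹ * F * Θ), (Θ⁻¹ * F * Θ).continuous, (Θ⁻¹ * F * Θ).strictMono, hg⟩,
          fun x => ?_⟩
        obtain ⟨t, rfl⟩ := QuotientAddGroup.mk_surjective x
        have e1 := Ghys.conj_smul hH hh hL t
        have e2 : (k • ((t : ℝ) : AddCircle (1:ℝ))) = (((k : ℝ) * t : ℝ) : AddCircle (1:ℝ)) := by
          rw [← AddCircle.coe_nsmul, nsmul_eq_mul]
        show k • h.symm (f (h ((t : ℝ) : AddCircle (1:ℝ)))) = g (k • ((t : ℝ) : AddCircle (1:ℝ)))
        rw [e1, e2, hg]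
      · rintro ⟨g, ⟨Fg, hc, hm, hFg⟩, hfg⟩
        obtain ⟨g', hg', hgg'⟩ := Ghys.lift_of_circle g Fg hc hm hFg
        have hfg' : ∀ t : ℝ, k • h.symm (f (h ((t : ℝ) : AddCircle (1:ℝ)))) =
            ((g' (k * t) : ℝ) : AddCircle (1:ℝ)) := by
          intro t
          have e2 : (k • ((t : ℝ) : AddCircle (1:ℝ))) = (((k : ℝ) * t : ℝ) : AddCircle (1:ℝ)) := by
            rw [← AddCircle.coe_nsmul, nsmul_eq_mul]
          rw [hfg, e2, hFg, hgg']
        obtain ⟨F, m, hF, hL, hFm⟩ := Ghys.lift_of_proj hk hHP hH hh g' hg' hfg'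
        refine (Ghys.mem_lifts_iff h1 h2 h3 hF hL).1 ((hmem F).2 fun x => ?_)
        rw [hFm, hFm, hg']
        ring

end Pool.Agent.S08277
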