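import Pool.Statements.S08281
import Pool.Agent.Helper535.V

set_option autoImplicit false
open Pool Pool.MP_353077_gt

namespace Pool.Agent.S08281

/-- For every compact Hausdorff X, if each subset A of X equals f⁻¹(f(A)) for some continuous f onto a Gul'ko compactum (C_p is Lindelöf Σ), then the same holds for every subset of X×X. -/
theorem result :
  ∀ (X : Type) [TopologicalSpace X] [CompactSpace X] [T2Space X],
    (∀ A : Set X, ∃ (Y : Type) (_ : TopologicalSpace Y), CompactSpace Y ∧ T2Space Y ∧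
      (∃ N : ℕ → Set {g : Y → ℝ // Continuous g},
        ∀ g : {g : Y → ℝ // Continuous g}, ∃ C : Set {g : Y → ℝ // Continuous g},
          IsCompact C ∧ g ∈ C ∧
          ∀ U : Set {g : Y → ℝ // Continuous g}, IsOpen U → C ⊆ U →
            ∃ n : ℕ, C ⊆ N n ∧ N n ⊆ U) ∧
      ∃ f : X → Y, Continuous f ∧ f ⁻¹' (f '' A) = A) →
    (∀ A : Set (X × X), ∃ (Y : Type) (_ : TopologicalSpace Y), CompactSpace Y ∧ T2Space Y ∧
      (∃ N : ℕ → Set {g : Y → ℝ // Continuous g},
        ∀ g : {g : Y → ℝ // Continuous g}, ∃ C : Set {g : Y → ℝ // Continuous g},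
          IsCompact C ∧ g ∈ C ∧
          ∀ U : Set {g : Y → ℝ // Continuous g}, IsOpen U → C ⊆ U →
            ∃ n : ℕ, C ⊆ N n ∧ N n ⊆ U) ∧
      ∃ f : X × X → Y, Continuous f ∧ f ⁻¹' (f '' A) = A) := by
  intro X _ _ _ h
  have hX : Pool.Agent.Helper535.GSplit.{0, 0} X := by
    apply Pool.Agent.Helper535.gsplit_of
    intro A
    obtain ⟨Y, tY, hY1, hY2, ⟨N, hN⟩, f, hf, hfA⟩ := h A
    exact ⟨Y, tY, hY1, hY2, Pool.Agent.Helper535.network_usco N hN, f, hf, hfA⟩
  obtain ⟨E, _, _, _, hE⟩ := hX.gs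
  intro A
  exact ⟨X × X, inferInstance, inferInstance, inferInstance, hE.prod.network', id, continuous_id,
    by simp⟩

end Pool.Agent.S08281
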