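import Pool.Statements.S08289
import Pool.Agent.Helper454.Normal
import Pool.Agent.Helper454.Rigid

set_option autoImplicit false
open scoped Manifold ContDiff
open Pool Pool.MP_3704ac_gt

namespace Pool.Agent.S08289

/-- There is a compact boundaryless smooth 4-manifold with an Engel structure (a 2-plane field D with [D,D] of rank 3 and [[D,D],[D,D]] everything) such that the only diffeomorphism preserving D is the identity. -/
theorem result :
  ∃ (M : Type) (_ : TopologicalSpace M) (_ : T2Space M) (_ : CompactSpace M) (_ : Nonempty M)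
    (_ : ChartedSpace (EuclideanSpace ℝ (Fin 4)) M) (_ : IsManifold (𝓡 4) ∞ M)
    (D : (x : M) → Submodule ℝ (TangentSpace (𝓡 4) x)),
    (∀ x : M, ∃ X Y : (y : M) → TangentSpace (𝓡 4) y,
      ContMDiff (𝓡 4) (𝓡 4).tangent ∞ (fun y => (X y : TangentBundle (𝓡 4) M)) ∧
      ContMDiff (𝓡 4) (𝓡 4).tangent ∞ (fun y => (Y y : TangentBundle (𝓡 4) M)) ∧
      (∀ᶠ y in nhds x, D y = Submodule.span ℝ {X y, Y y}) ∧
      LinearIndependent ℝ ![X x, Y x, VectorField.mlieBracket (𝓡 4) X Y x] ∧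
      Submodule.span ℝ {X x, Y x, VectorField.mlieBracket (𝓡 4) X Y x,
        VectorField.mlieBracket (𝓡 4) X (VectorField.mlieBracket (𝓡 4) X Y) x,
        VectorField.mlieBracket (𝓡 4) Y (VectorField.mlieBracket (𝓡 4) X Y) x} = ⊤) ∧
    ∀ f : Diffeomorph (𝓡 4) (𝓡 4) M M ∞,
      (∀ x : M, ∀ v : TangentSpace (𝓡 4) x, v ∈ D x →
        mfderiv (𝓡 4) (𝓡 4) (⇑f) x v ∈ D (f x)) → ∀ x : M, f x = x := by
  refine ⟨Helper454.Engel.Mf, inferInstance, inferInstance, inferInstance, inferInstance,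
    inferInstance, inferInstance, Helper454.Engel.Ds, Helper454.Engel.engel_part, ?_⟩
  intro f hf x
  obtain ⟨F, hF, hP, ε, hε, h0, h1⟩ := Helper454.Engel.normal_lift f hf
  obtain ⟨p, rfl⟩ := Helper454.Engel.pr_cov.surjective x
  obtain ⟨j, hj⟩ := Helper454.Engel.rigid_E hP hε h0 h1 p
  rw [← hF p, hj]
  exact Helper454.Engel.pr_cov.map_smul _

end Pool.Agent.S08289
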