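import Pool.Statements.S08293
import Pool.Agent.H963AC.Ind

set_option autoImplicit false
open Pool Pool.MP_385b3e_gt

namespace Pool.Agent.S08293

/-- If a compact connected metric space is tree-like and every proper subcontinuum is chainable, then for each ε it has a finite ε-open cover containing an ε-dense chain whose links touch cover members outside the chain only at one end link. -/
theorem result :
  ∀ (X : Type) [MetricSpace X] [CompactSpace X] [ConnectedSpace X],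
    (∀ ε : ℝ, ε > 0 → ∃ (n : ℕ) (U : Fin n → Set X),
        (∀ i, IsOpen (U i)) ∧ (∀ i, Metric.diam (U i) < ε) ∧ (⋃ i, U i) = Set.univ ∧
        (∀ i j k, i ≠ j → j ≠ k → i ≠ k → U i ∩ U j ∩ U k = ∅) ∧
        (SimpleGraph.fromRel (fun i j => (U i ∩ U j).Nonempty)).IsTree) →
    (∀ K : Set X, IsClosed K → IsConnected K → K ≠ Set.univ →
      ∀ ε : ℝ, ε > 0 → ∃ (n : ℕ) (U : Fin n → Set X),
        (∀ i, IsOpen (U i)) ∧ (∀ i, Metric.diam (U i ∩ K) < ε) ∧ K ⊆ (⋃ i, U i) ∧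
        (∀ i j : Fin n, (U i ∩ U j ∩ K).Nonempty ↔
          ((i : ℕ) ≤ (j : ℕ) + 1 ∧ (j : ℕ) ≤ (i : ℕ) + 1))) →
    ∀ ε : ℝ, ε > 0 → ∃ (m n : ℕ) (D : Fin m → Set X) (c : Fin (n + 1) → Fin m),
      (∀ k, IsOpen (D k)) ∧ (∀ k, Metric.diam (D k) < ε) ∧ (⋃ k, D k) = Set.univ ∧
      Function.Injective c ∧
      (∀ i j : Fin (n + 1), (D (c i) ∩ D (c j)).Nonempty ↔
          ((i : ℕ) ≤ (j : ℕ) + 1 ∧ (j : ℕ) ≤ (i : ℕ) + 1)) ∧
      (∀ k, k ∉ Set.range c → ∀ i : Fin (n + 1), i ≠ 0 → D k ∩ D (c i) = ∅) ∧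
      (∀ x : X, ∃ i, Metric.infDist x (D (c i)) < ε) := by
  intro X _ _ _ hTree hChain ε hε
  exact Pool.Agent.H963AC.main (Pool.Agent.H963AC.tl_of hTree) hChain hε

end Pool.Agent.S08293
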