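import Pool.Statements.S08295
import Pool.Agent.Helper292.SC

set_option autoImplicit false
open Pool Pool.MP_39b482_gt

namespace Pool.Agent.S08295

open Pool.Agent.Helper292.SC Set in
lemma cells_manifold {n : ℕ} (hn : 1 < n) {M : Type} [TopologicalSpace M] [T4Space M]
    [SecondCountableTopology M] [LocallyCompactSpace M] [ChartedSpace (EuclideanSpace ℝ (Fin n)) M]
    (A B : Set M) (hA : IsClosed A) (hB : IsClosed B) (hAB : Disjoint A B) :
    ∃ 𝒟 : Set (Set M), 𝒟.Finite ∧ (∀ D ∈ 𝒟, Cells A B univ D) ∧ ⋃₀ 𝒟 = univ := by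
  have hm : TopologicalSpace.MetrizableSpace M :=
    TopologicalSpace.metrizableSpace_of_t3_secondCountable M
  letI : MetricSpace M := TopologicalSpace.metrizableSpaceMetric M
  have hch : ∀ x : M, ∃ φ : OpenPartialHomeomorph M (Fin n → ℝ), x ∈ φ.source := by
    intro x
    refine ⟨(chartAt (EuclideanSpace ℝ (Fin n)) x).transHomeomorph
      (EuclideanSpace.equiv (Fin n) ℝ).toHomeomorph, ?_⟩
    exact mem_chart_source _ x
  exact cells_global hn hch hA hB hAB

/-- Every noncompact Hausdorff second-countable n-manifold with n>1 that has no two-point compactification has Stone–Čech remainder that is a continuum in which any two distinct points are separated by a subcontinuum containing one in its interior and missing the other. -/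
theorem result :
    ∀ (n : ℕ) (M : Type) [TopologicalSpace M] [T2Space M] [SecondCountableTopology M]
      [ChartedSpace (EuclideanSpace ℝ (Fin n)) M],
      1 < n → NoncompactSpace M →
      (¬ ∃ (Y : Type) (τ : TopologicalSpace Y), CompactSpace Y ∧ T2Space Y ∧
          ∃ f : M → Y, Topology.IsEmbedding f ∧ DenseRange f ∧ (Set.range f)ᶜ.ncard = 2) →
      (IsCompact ((Set.range (stoneCechUnit : M → StoneCech M))ᶜ) ∧
       IsConnected ((Set.range (stoneCechUnit : M → StoneCech M))ᶜ) ∧
       ∀ x ∈ (Set.range (stoneCechUnit : M → StoneCech M))ᶜ,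
         ∀ y ∈ (Set.range (stoneCechUnit : M → StoneCech M))ᶜ, x ≠ y →
           ∃ K : Set (StoneCech M), K ⊆ (Set.range (stoneCechUnit : M → StoneCech M))ᶜ ∧
             IsCompact K ∧ IsConnected K ∧ y ∉ K ∧
             ∃ U : Set (StoneCech M), IsOpen U ∧ x ∈ U ∧
               U ∩ (Set.range (stoneCechUnit : M → StoneCech M))ᶜ ⊆ K) := by
  intro n M _ _ _ _ hn hnc hno
  have hlc : LocallyCompactSpace M := ChartedSpace.locallyCompactSpace (EuclideanSpace ℝ (Fin n)) M
  have hm : TopologicalSpace.MetrizableSpace M :=
    TopologicalSpace.metrizableSpace_of_t3_secondCountable M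
  have h4 : T4Space M := inferInstance
  have hconn := Pool.Agent.Helper292.SC.rem_connected hno
  refine ⟨Pool.Agent.Helper292.SC.isCompact_rem, hconn, ?_⟩
  intro x hx y hy hxy
  exact Pool.Agent.Helper292.SC.apo_of_cover hconn.isPreconnected (fun A B hA hB hAB => cells_manifold hn A B hA hB hAB)
    x y hx hxy

end Pool.Agent.S08295
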