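import Pool.Statements.S08300
import Pool.Agent.Helper182.BFpp
import Pool.Agent.Helper182.BD4
import Pool.Agent.Helper182.BE5

set_option autoImplicit false
open Pool Pool.MP_3a0c72_gt

namespace Pool.Agent.S08300

/-- The negation of the preceding statement: For every compact connected metric space K that either embeds in the plane or has covering dimension at most 1, if every continuous self-map of K has a fixed point, then every continuous self-map of K × [0,1] has a fixed point. -/
theorem result :
    ¬ (∀ (K : Type) [MetricSpace K] [CompactSpace K] [ConnectedSpace K],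
      ((∃ e : K → ℝ × ℝ, Topology.IsEmbedding e) ∨
        (∀ (n : ℕ) (U : Fin n → Set K), (∀ i, IsOpen (U i)) → (⋃ i, U i) = Set.univ →
          ∃ (m : ℕ) (V : Fin m → Set K), (∀ j, IsOpen (V j)) ∧ (⋃ j, V j) = Set.univ ∧
            (∀ j, ∃ i, V j ⊆ U i) ∧
            (∀ (x : K) (a b c : Fin m), x ∈ V a → x ∈ V b → x ∈ V c →
              a = b ∨ a = c ∨ b = c))) →
      (∀ f : K → K, Continuous f → ∃ x, f x = x) →
      ∀ g : K × unitInterval → K × unitInterval, Continuous g → ∃ p, g p = p) := by
  intro h
  have h1 : CompactSpace Pool.Agent.Helper182.Bing.K := Pool.Agent.Helper182.Bing.compactSpace_K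
  have h2 : ConnectedSpace Pool.Agent.Helper182.Bing.K := Pool.Agent.Helper182.Bing.connectedSpace_K
  have h3 : TopologicalSpace.MetrizableSpace Pool.Agent.Helper182.Bing.K :=
    TopologicalSpace.metrizableSpace_of_t3_secondCountable _
  letI : MetricSpace Pool.Agent.Helper182.Bing.K := TopologicalSpace.metrizableSpaceMetric _
  obtain ⟨F, hF, hne⟩ := Pool.Agent.Helper182.Bing.exists_fpf
  obtain ⟨p, hp⟩ := h Pool.Agent.Helper182.Bing.K
    (Or.inr Pool.Agent.Helper182.Bing.dim_K) Pool.Agent.Helper182.Bing.fpp F hF
  exact hne p hp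

end Pool.Agent.S08300
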