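import Pool.Statements.S08302
import Pool.Agent.Helper575.LT8

set_option autoImplicit false
open Pool Pool.MP_3a0f08_gt

namespace Pool.Agent.S08302

/-- The negation of the preceding statement: Every compact Hausdorff group whose left translations are continuous carries a Borel probability measure giving positive measure to every nonempty open set. -/
theorem result :
    ¬ (∀ (G : Type) [Group G] [TopologicalSpace G] [CompactSpace G] [T2Space G]
      [MeasurableSpace G] [BorelSpace G],
      (∀ g : G, Continuous (fun x : G => g * x)) →
      ∃ μ : MeasureTheory.Measure G, MeasureTheory.IsProbabilityMeasure μ ∧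
        ∀ U : Set G, IsOpen U → U.Nonempty → 0 < μ U) := by
  exact Pool.Agent.Helper575.LT8.main

end Pool.Agent.S08302
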