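import Pool.Statements.S08303

set_option autoImplicit false
open Pool Pool.MP_3ae40e_gt

namespace Pool.Agent.S08303

section helpers
open Set Topology


section basics
variable {X : Type} [TopologicalSpace X]

/-- component of `x` in `F` -/
noncomputable abbrev Cp (F : Set X) (x : X) : Set X := connectedComponentIn F x

theorem Cp_closed {F : Set X} (hF : IsClosed F) (x : X) : IsClosed (Cp F x) := by
  by_cases hx : x ∈ F
  · have h1 : IsPreconnected (closure (Cp F x)) := isPreconnected_connectedComponentIn.closure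
    have h2 : closure (Cp F x) ⊆ F := closure_minimal (connectedComponentIn_subset F x) hF
    have h3 : closure (Cp F x) ⊆ Cp F x :=
      h1.subset_connectedComponentIn (subset_closure (mem_connectedComponentIn hx)) h2
    exact isClosed_of_closure_subset h3
  · have : Cp F x = ∅ := connectedComponentIn_eq_empty hx
    rw [this]; exact isClosed_empty

theorem Cp_conn {F : Set X} {x : X} (hx : x ∈ F) : IsConnected (Cp F x) :=
  isConnected_connectedComponentIn_iff.2 hx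

theorem mem_Cp {F : Set X} {x : X} (hx : x ∈ F) : x ∈ Cp F x := mem_connectedComponentIn hx

theorem Cp_sub (F : Set X) (x : X) : Cp F x ⊆ F := connectedComponentIn_subset F x

theorem sub_Cp {F K : Set X} {x : X} (hK : IsPreconnected K) (hx : x ∈ K) (hKF : K ⊆ F) :
    K ⊆ Cp F x := hK.subset_connectedComponentIn hx hKF

theorem Cp_eq {F : Set X} {x y : X} (h : y ∈ Cp F x) : Cp F x = Cp F y := connectedComponentIn_eq h

theorem Cp_mono {F G : Set X} (h : F ⊆ G) (x : X) : Cp F x ⊆ Cp G x := connectedComponentIn_mono x h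

theorem Cp_disj {F : Set X} {x y : X} (h : Cp F x ≠ Cp F y) : Disjoint (Cp F x) (Cp F y) := by
  rw [Set.disjoint_left]
  intro z hz1 hz2
  exact h ((Cp_eq hz1).trans (Cp_eq hz2).symm)

/-- clopen neighbourhoods of components -/
theorem clopen_sep [CompactSpace X] [T2Space X] {F U : Set X} (hF : IsClosed F) (hU : IsOpen U)
    {x : X} (hx : x ∈ F) (h : Cp F x ⊆ U) :
    ∃ P W : Set X, IsClosed P ∧ IsOpen W ∧ P = F ∩ W ∧ x ∈ P ∧ P ⊆ U := by
  have : CompactSpace F := isCompact_iff_compactSpace.1 hF.isCompact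
  have hc : Cp F x = (↑) '' connectedComponent (⟨x, hx⟩ : F) := connectedComponentIn_eq_image hx
  have h1 : connectedComponent (⟨x, hx⟩ : F) ⊆ (↑) ⁻¹' U := by
    intro y hy
    apply h
    rw [hc]
    exact ⟨y, hy, rfl⟩
  rw [connectedComponent_eq_iInter_isClopen] at h1
  have : Nonempty {s : Set F // IsClopen s ∧ (⟨x, hx⟩ : F) ∈ s} := ⟨⟨univ, isClopen_univ, mem_univ _⟩⟩
  obtain ⟨⟨Z, hZ, hxZ⟩, hZU⟩ := exists_subset_nhds_of_compactSpace
    (V := fun s : {s : Set F // IsClopen s ∧ (⟨x, hx⟩ : F) ∈ s} => s.1)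
    (by
      rintro ⟨a, ha, hxa⟩ ⟨b, hb, hxb⟩
      exact ⟨⟨a ∩ b, ha.inter hb, hxa, hxb⟩, inter_subset_left, inter_subset_right⟩)
    (fun s => s.2.1.1)
    (U := (↑) ⁻¹' U)
    (fun y hy => (hU.preimage continuous_subtype_val).mem_nhds (h1 hy))
  obtain ⟨W, hW, hWZ⟩ := isOpen_induced_iff.1 hZ.2
  refine ⟨(↑) '' Z, W, hF.isClosedEmbedding_subtypeVal.isClosedMap _ hZ.1, hW, ?_, ⟨_, hxZ, rfl⟩, ?_⟩
  · rw [← hWZ, Subtype.image_preimage_coe]
  · rintro _ ⟨y, hy, rfl⟩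
    exact hZU hy

/-- a relatively clopen part of `F` contains the components of its points -/
theorem Cp_sub_clopen {F P W : Set X} (hP : IsClosed P) (hW : IsOpen W) (hPW : P = F ∩ W)
    {y : X} (hy : y ∈ P) : Cp F y ⊆ P := by
  by_contra hcon
  obtain ⟨z, hz, hzP⟩ := Set.not_subset.1 hcon
  have hpre : IsPreconnected (Cp F y) := isPreconnected_connectedComponentIn
  have hyF : y ∈ F := by rw [hPW] at hy; exact hy.1
  obtain ⟨w, hw1, hw2, hw3⟩ := hpre W Pᶜ hW hP.isOpen_compl (by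
    intro w hw
    by_cases h : w ∈ W
    · exact Or.inl h
    · refine Or.inr ?_
      intro hwP; rw [hPW] at hwP; exact h hwP.2)
    ⟨y, mem_Cp hyF, by rw [hPW] at hy; exact hy.2⟩ ⟨z, hz, hzP⟩
  exact hw3 (by rw [hPW]; exact ⟨Cp_sub F y hw1, hw2⟩)

/-- boundary bumping -/
theorem BB [CompactSpace X] [T2Space X] {K F : Set X} (hK : IsClosed K) (hKc : IsPreconnected K)
    (hF : IsClosed F) {x : X} (hxK : x ∈ K) (hxF : x ∈ F) (h : Cp (K ∩ F) x ⊆ interior F) :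
    K ⊆ interior F := by
  obtain ⟨P, W, hP, hW, hPW, hxP, hPF⟩ :=
    clopen_sep (hK.inter hF) isOpen_interior (x := x) ⟨hxK, hxF⟩ h
  have hKP : K ⊆ P := by
    by_contra hcon
    obtain ⟨z, hz, hzP⟩ := Set.not_subset.1 hcon
    obtain ⟨w, hw1, hw2, hw3⟩ := hKc (W ∩ interior F) Pᶜ (hW.inter isOpen_interior)
      hP.isOpen_compl (by
        intro w hw
        by_cases h : w ∈ P
        · left
          refine ⟨?_, hPF h⟩
          rw [hPW] at h; exact h.2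
        · exact Or.inr h) ⟨x, hxK, by rw [hPW] at hxP; exact hxP.2, hPF hxP⟩ ⟨z, hz, hzP⟩
    apply hw3
    rw [hPW]
    exact ⟨⟨hw1, interior_subset hw2.2⟩, hw2.1⟩
  exact hKP.trans hPF

theorem BB' [CompactSpace X] [T2Space X] {K F : Set X} (hK : IsClosed K) (hKc : IsPreconnected K)
    (hF : IsClosed F) {x : X} (hxK : x ∈ K) (hxF : x ∈ F) (h : ¬ K ⊆ interior F) :
    ¬ Cp (K ∩ F) x ⊆ interior F := fun h' => h (BB hK hKc hF hxK hxF h')

/-- chain intersections -/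
theorem preconn_sInter_chain [CompactSpace X] [T2Space X] {c : Set (Set X)} (hne : c.Nonempty)
    (hch : IsChain (· ⊆ ·) c) (hcl : ∀ s ∈ c, IsClosed s) (hpc : ∀ s ∈ c, IsPreconnected s) :
    IsPreconnected (⋂₀ c) := by
  have hScl : IsClosed (⋂₀ c) := isClosed_sInter hcl
  rw [isPreconnected_iff_subset_of_fully_disjoint_closed hScl]
  intro u v hu hv huv hd
  obtain ⟨U, V, hU, hV, huU, hvV, hUV⟩ := normal_separation hu hv hd
  have : Nonempty c := hne.to_subtype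
  obtain ⟨⟨s, hs⟩, hsUV⟩ := exists_subset_nhds_of_compactSpace
    (V := fun s : c => s.1)
    (by
      rintro ⟨a, ha⟩ ⟨b, hb⟩
      rcases hch.total ha hb with h | h
      · exact ⟨⟨a, ha⟩, subset_rfl, h⟩
      · exact ⟨⟨b, hb⟩, h, subset_rfl⟩)
    (fun s => hcl s.1 s.2)
    (U := U ∪ V)
    (fun y hy => (hU.union hV).mem_nhds (by
      have : y ∈ ⋂₀ c := by rw [sInter_eq_iInter]; exact hy
      rcases huv this with h | h
      · exact Or.inl (huU h)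
      · exact Or.inr (hvV h)))
  have hsub : ⋂₀ c ⊆ s := sInter_subset_of_mem hs
  rcases (hpc s hs).subset_or_subset hU hV hUV hsUV with h | h
  · left
    intro y hy
    rcases huv hy with h1 | h1
    · exact h1
    · exact absurd (hvV h1) (Set.disjoint_left.1 hUV (h (hsub hy)))
  · right
    intro y hy
    rcases huv hy with h1 | h1
    · exact absurd (h (hsub hy)) (Set.disjoint_left.1 hUV (huU h1))
    · exact h1

/-- irreducible subcontinuum between two points -/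
theorem exists_irred [CompactSpace X] [T2Space X] {A : Set X} (hA : IsClosed A)
    (hAc : IsPreconnected A) {p r : X} (hp : p ∈ A) (hr : r ∈ A) :
    ∃ B ⊆ A, IsClosed B ∧ IsPreconnected B ∧ p ∈ B ∧ r ∈ B ∧
      ∀ D ⊆ B, IsClosed D → IsPreconnected D → p ∈ D → r ∈ D → D = B := by
  obtain ⟨m, hmA, hm⟩ := zorn_superset_nonempty
    {B : Set X | IsClosed B ∧ IsPreconnected B ∧ p ∈ B ∧ r ∈ B}
    (by
      intro c hc hch hne
      refine ⟨⋂₀ c, ⟨isClosed_sInter fun s hs => (hc hs).1,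
        preconn_sInter_chain hne hch (fun s hs => (hc hs).1) (fun s hs => (hc hs).2.1), ?_, ?_⟩, ?_⟩
      · exact mem_sInter.2 fun s hs => (hc hs).2.2.1
      · exact mem_sInter.2 fun s hs => (hc hs).2.2.2
      · intro s hs; exact sInter_subset_of_mem hs)
    A ⟨hA, hAc, hp, hr⟩
  refine ⟨m, hmA, hm.1.1, hm.1.2.1, hm.1.2.2.1, hm.1.2.2.2, ?_⟩
  intro D hD h1 h2 h3 h4
  exact Subset.antisymm hD (hm.2 ⟨h1, h2, h3, h4⟩ hD)

end basics

section triods
variable {X : Type} [TopologicalSpace X]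

def Triod (T : Set X) : Prop :=
  IsCompact T ∧ IsConnected T ∧
          ∃ Z : Set X, Z ⊆ T ∧ IsCompact Z ∧ IsConnected Z ∧
            ∃ A B C : Set X, A.Nonempty ∧ B.Nonempty ∧ C.Nonempty ∧
              T \ Z = A ∪ B ∪ C ∧
              closure A ∩ B = ∅ ∧ A ∩ closure B = ∅ ∧
              closure A ∩ C = ∅ ∧ A ∩ closure C = ∅ ∧
              closure B ∩ C = ∅ ∧ B ∩ closure C = ∅

/-- no triod inside `S` -/
def TF (S : Set X) : Prop := ∀ T ⊆ S, ¬ Triod T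

theorem TF.mono {S T : Set X} (h : TF S) (hT : T ⊆ S) : TF T := fun U hU => h U (hU.trans hT)

/-- general triod criterion -/
theorem triod_of [CompactSpace X] {Z D₁ D₂ D₃ : Set X} (hZ : IsClosed Z) (hZc : IsConnected Z)
    (h1 : IsClosed D₁) (h2 : IsClosed D₂) (h3 : IsClosed D₃)
    (hT : IsPreconnected (Z ∪ D₁ ∪ D₂ ∪ D₃))
    (h12 : D₁ ∩ D₂ ⊆ Z) (h13 : D₁ ∩ D₃ ⊆ Z) (h23 : D₂ ∩ D₃ ⊆ Z)
    (n1 : ¬ D₁ ⊆ Z) (n2 : ¬ D₂ ⊆ Z) (n3 : ¬ D₃ ⊆ Z) : Triod (Z ∪ D₁ ∪ D₂ ∪ D₃) := by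
  have key : ∀ {A B : Set X}, IsClosed A → A ∩ B ⊆ Z → closure (A \ Z) ∩ (B \ Z) = ∅ := by
    intro A B hA hAB
    ext y
    simp only [mem_inter_iff, mem_sdiff, mem_empty_iff_false, iff_false, not_and, not_not]
    intro hy hyB
    exact hAB ⟨closure_minimal sdiff_subset hA hy, hyB⟩
  have key' : ∀ {A B : Set X}, IsClosed B → A ∩ B ⊆ Z → (A \ Z) ∩ closure (B \ Z) = ∅ := by
    intro A B hB hAB
    rw [inter_comm]
    exact key hB (by rw [inter_comm]; exact hAB)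
  have hTcl : IsClosed (Z ∪ D₁ ∪ D₂ ∪ D₃) := ((hZ.union h1).union h2).union h3
  refine ⟨hTcl.isCompact, ⟨?_, hT⟩, Z, ?_, hZ.isCompact, hZc, D₁ \ Z, D₂ \ Z, D₃ \ Z,
    ?_, ?_, ?_, ?_, key h1 h12, key' h2 h12, key h1 h13, key' h3 h13, key h2 h23, key' h3 h23⟩
  · obtain ⟨z, hz⟩ := hZc.nonempty
    exact ⟨z, Or.inl (Or.inl (Or.inl hz))⟩
  · intro z hz; exact Or.inl (Or.inl (Or.inl hz))
  · obtain ⟨y, hy, hy'⟩ := Set.not_subset.1 n1; exact ⟨y, hy, hy'⟩
  · obtain ⟨y, hy, hy'⟩ := Set.not_subset.1 n2; exact ⟨y, hy, hy'⟩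
  · obtain ⟨y, hy, hy'⟩ := Set.not_subset.1 n3; exact ⟨y, hy, hy'⟩
  · ext y
    simp only [mem_sdiff, mem_union]
    tauto

/-- core plus three pairwise disjoint legs -/
theorem triod_legs [CompactSpace X] {Z D₁ D₂ D₃ : Set X} (hZ : IsClosed Z) (hZc : IsConnected Z)
    (h1 : IsClosed D₁) (h2 : IsClosed D₂) (h3 : IsClosed D₃)
    (c1 : IsPreconnected D₁) (c2 : IsPreconnected D₂) (c3 : IsPreconnected D₃)
    (m1 : (Z ∩ D₁).Nonempty) (m2 : (Z ∩ D₂).Nonempty) (m3 : (Z ∩ D₃).Nonempty)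
    (h12 : D₁ ∩ D₂ ⊆ Z) (h13 : D₁ ∩ D₃ ⊆ Z) (h23 : D₂ ∩ D₃ ⊆ Z)
    (n1 : ¬ D₁ ⊆ Z) (n2 : ¬ D₂ ⊆ Z) (n3 : ¬ D₃ ⊆ Z) : Triod (Z ∪ D₁ ∪ D₂ ∪ D₃) := by
  apply triod_of hZ hZc h1 h2 h3 _ h12 h13 h23 n1 n2 n3
  have a1 : IsPreconnected (Z ∪ D₁) := hZc.isPreconnected.union' m1 c1
  have a2 : IsPreconnected (Z ∪ D₁ ∪ D₂) := by
    obtain ⟨y, hy1, hy2⟩ := m2
    exact a1.union y (Or.inl hy1) hy2 c2
  obtain ⟨y, hy1, hy2⟩ := m3
  exact a2.union y (Or.inl (Or.inl hy1)) hy2 c3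

end triods

section cycle
variable {X : Type} [TopologicalSpace X] [CompactSpace X] [T2Space X]

theorem exists_shrink {U : Set X} (hU : IsOpen U) {x : X} (hx : x ∈ U) :
    ∃ V, IsOpen V ∧ x ∈ V ∧ closure V ⊆ U := by
  obtain ⟨t, ht, htc, htU⟩ := exists_mem_nhds_isClosed_subset (hU.mem_nhds hx)
  exact ⟨interior t, isOpen_interior, mem_interior_iff_mem_nhds.2 ht,
    (closure_minimal interior_subset htc).trans htU⟩

theorem reach_aux {A V V' : Set X} (hA : IsClosed A) (hAc : IsPreconnected A) (hV : IsOpen V)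
    (hVV : closure V ⊆ V') {x y : X} (hxA : x ∈ A) (hxV : x ∈ V) (hyA : y ∈ A) (hyV : y ∉ V) :
    ∃ z ∈ Cp (A ∩ Vᶜ) y, z ∈ V' := by
  have h1 : ¬ A ⊆ interior Vᶜ := fun h => (interior_subset (h hxA)) hxV
  have h2 := BB' hA hAc hV.isClosed_compl (x := y) hyA hyV h1
  obtain ⟨z, hz, hz'⟩ := Set.not_subset.1 h2
  refine ⟨z, hz, hVV ?_⟩
  rw [interior_compl, mem_compl_iff, not_not] at hz'
  exact hz'

theorem cycle_lemma {A B D : Set X} {p r x : X}
    (hA : IsClosed A) (hAc : IsPreconnected A) (hpA : p ∈ A) (hrA : r ∈ A)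
    (hirr : ∀ E ⊆ A, IsClosed E → IsPreconnected E → p ∈ E → r ∈ E → E = A)
    (hB : IsClosed B) (hBc : IsPreconnected B) (hpB : p ∈ B) (hrB : r ∈ B)
    (hxA : x ∈ A) (hxB : x ∉ B)
    (hD : IsClosed D) (hDc : IsPreconnected D) (hpD : p ∈ D) (hxD : x ∉ D)
    (hDn : ¬ D ⊆ A ∪ B) : ∃ T ⊆ A ∪ B ∪ D, Triod T := by
  obtain ⟨V₁, hV₁, hxV₁, hV₁BD⟩ : ∃ V, IsOpen V ∧ x ∈ V ∧ V ⊆ (B ∪ D)ᶜ :=
    ⟨(B ∪ D)ᶜ, (hB.union hD).isOpen_compl, by
      rintro (h | h)
      · exact hxB h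
      · exact hxD h, subset_rfl⟩
  obtain ⟨V₂, hV₂, hxV₂, hV₂₁⟩ := exists_shrink hV₁ hxV₁
  obtain ⟨V₃, hV₃, hxV₃, hV₃₂⟩ := exists_shrink hV₂ hxV₂
  have s21 : V₂ ⊆ V₁ := subset_closure.trans hV₂₁
  have s32 : V₃ ⊆ V₂ := subset_closure.trans hV₃₂
  have hB1 : ∀ {y}, y ∈ B → y ∉ V₁ := fun hy hy' => hV₁BD hy' (Or.inl hy)
  have hD1 : ∀ {y}, y ∈ D → y ∉ V₁ := fun hy hy' => hV₁BD hy' (Or.inr hy)
  -- generic facts on levels
  have lev : ∀ V : Set X, IsOpen V → V ⊆ V₁ → x ∈ V →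
      IsClosed (A ∩ Vᶜ) ∧ p ∈ A ∩ Vᶜ ∧ r ∈ A ∩ Vᶜ ∧
        Disjoint (Cp (A ∩ Vᶜ) p) (Cp (A ∩ Vᶜ) r) := by
    intro V hV hVV hxV
    have hcl : IsClosed (A ∩ Vᶜ) := hA.inter hV.isClosed_compl
    have hp : p ∈ A ∩ Vᶜ := ⟨hpA, fun h => hB1 hpB (hVV h)⟩
    have hr : r ∈ A ∩ Vᶜ := ⟨hrA, fun h => hB1 hrB (hVV h)⟩
    refine ⟨hcl, hp, hr, Cp_disj ?_⟩
    intro heq
    have h1 : r ∈ Cp (A ∩ Vᶜ) p := by rw [heq]; exact mem_Cp hr
    have h2 := hirr (Cp (A ∩ Vᶜ) p) ((Cp_sub _ _).trans inter_subset_left) (Cp_closed hcl p)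
      isPreconnected_connectedComponentIn (mem_Cp hp) h1
    have h3 : x ∈ Cp (A ∩ Vᶜ) p := by rw [h2]; exact hxA
    exact (Cp_sub _ _ h3).2 hxV
  obtain ⟨c1, p1, r1, d1⟩ := lev V₁ hV₁ subset_rfl hxV₁
  obtain ⟨c2, p2, r2, d2⟩ := lev V₂ hV₂ s21 hxV₂
  obtain ⟨c3, p3, r3, d3⟩ := lev V₃ hV₃ (s32.trans s21) hxV₃
  have m12 : A ∩ V₁ᶜ ⊆ A ∩ V₂ᶜ := inter_subset_inter_right _ (compl_subset_compl.2 s21)
  have m23 : A ∩ V₂ᶜ ⊆ A ∩ V₃ᶜ := inter_subset_inter_right _ (compl_subset_compl.2 s32)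
  have pre : ∀ {F : Set X} {y : X}, IsPreconnected (Cp F y) := fun {F y} =>
    isPreconnected_connectedComponentIn
  -- connectedness of Γ
  have gam : ∀ F : Set X, p ∈ F → r ∈ F → IsPreconnected (B ∪ Cp F p ∪ Cp F r) := by
    intro F hp hr
    have a1 : IsPreconnected (B ∪ Cp F p) := hBc.union p hpB (mem_Cp hp) pre
    exact a1.union r (Or.inl hrB) (mem_Cp hr) pre
  by_cases hcase : D ∩ A ⊆ B ∪ Cp (A ∩ V₂ᶜ) p ∪ Cp (A ∩ V₂ᶜ) r
  · -- case b
    refine ⟨(B ∪ Cp (A ∩ V₂ᶜ) p ∪ Cp (A ∩ V₂ᶜ) r) ∪ Cp (A ∩ V₃ᶜ) p ∪ Cp (A ∩ V₃ᶜ) r ∪ D, ?_, ?_⟩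
    · rintro y (((((hy | hy) | hy) | hy) | hy) | hy)
      · exact Or.inl (Or.inr hy)
      · exact Or.inl (Or.inl (Cp_sub _ _ hy).1)
      · exact Or.inl (Or.inl (Cp_sub _ _ hy).1)
      · exact Or.inl (Or.inl (Cp_sub _ _ hy).1)
      · exact Or.inl (Or.inl (Cp_sub _ _ hy).1)
      · exact Or.inr hy
    · apply triod_legs
      · exact (hB.union (Cp_closed c2 p)).union (Cp_closed c2 r)
      · exact ⟨⟨p, Or.inl (Or.inl hpB)⟩, gam _ p2 r2⟩
      · exact Cp_closed c3 p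
      · exact Cp_closed c3 r
      · exact hD
      · exact pre
      · exact pre
      · exact hDc
      · exact ⟨p, Or.inl (Or.inl hpB), mem_Cp p3⟩
      · exact ⟨r, Or.inl (Or.inl hrB), mem_Cp r3⟩
      · exact ⟨p, Or.inl (Or.inl hpB), hpD⟩
      · intro y hy; exact absurd hy.2 (Set.disjoint_left.1 d3 hy.1)
      · intro y hy; exact hcase ⟨hy.2, (Cp_sub _ _ hy.1).1⟩
      · intro y hy; exact hcase ⟨hy.2, (Cp_sub _ _ hy.1).1⟩
      · intro h
        obtain ⟨z, hz, hzV⟩ := reach_aux hA hAc hV₃ hV₃₂ hxA hxV₃ hpA p3.2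
        rcases h hz with (h' | h') | h'
        · exact hB1 h' (s21 hzV)
        · exact (Cp_sub _ _ h').2 hzV
        · exact (Cp_sub _ _ h').2 hzV
      · intro h
        obtain ⟨z, hz, hzV⟩ := reach_aux hA hAc hV₃ hV₃₂ hxA hxV₃ hrA r3.2
        rcases h hz with (h' | h') | h'
        · exact hB1 h' (s21 hzV)
        · exact (Cp_sub _ _ h').2 hzV
        · exact (Cp_sub _ _ h').2 hzV
      · intro h
        apply hDn
        intro y hy
        rcases h hy with (h' | h') | h'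
        · exact Or.inr h'
        · exact Or.inl (Cp_sub _ _ h').1
        · exact Or.inl (Cp_sub _ _ h').1
  · -- case a
    obtain ⟨y, ⟨hyD, hyA⟩, hyΓ⟩ := Set.not_subset.1 hcase
    have y1 : y ∈ A ∩ V₁ᶜ := ⟨hyA, hD1 hyD⟩
    have y2 : y ∈ A ∩ V₂ᶜ := m12 y1
    have hd1 : Disjoint (Cp (A ∩ V₂ᶜ) p) (Cp (A ∩ V₂ᶜ) y) := by
      apply Cp_disj
      intro h
      exact hyΓ (Or.inl (Or.inr (by rw [h]; exact mem_Cp y2)))
    have hd2 : Disjoint (Cp (A ∩ V₂ᶜ) r) (Cp (A ∩ V₂ᶜ) y) := by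
      apply Cp_disj
      intro h
      exact hyΓ (Or.inr (by rw [h]; exact mem_Cp y2))
    set Z : Set X := (B ∪ Cp (A ∩ V₁ᶜ) p ∪ Cp (A ∩ V₁ᶜ) r) ∪ D ∪ Cp (A ∩ V₁ᶜ) y with hZdef
    have hZV : ∀ z ∈ Z, z ∉ V₁ := by
      rintro z ((((h | h) | h) | h) | h)
      · exact hB1 h
      · exact (Cp_sub _ _ h).2
      · exact (Cp_sub _ _ h).2
      · exact hD1 h
      · exact (Cp_sub _ _ h).2
    refine ⟨Z ∪ Cp (A ∩ V₂ᶜ) p ∪ Cp (A ∩ V₂ᶜ) r ∪ Cp (A ∩ V₂ᶜ) y, ?_, ?_⟩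
    · rintro z (((h | h) | h) | h)
      · rcases h with (((h | h) | h) | h) | h
        · exact Or.inl (Or.inr h)
        · exact Or.inl (Or.inl (Cp_sub _ _ h).1)
        · exact Or.inl (Or.inl (Cp_sub _ _ h).1)
        · exact Or.inr h
        · exact Or.inl (Or.inl (Cp_sub _ _ h).1)
      · exact Or.inl (Or.inl (Cp_sub _ _ h).1)
      · exact Or.inl (Or.inl (Cp_sub _ _ h).1)
      · exact Or.inl (Or.inl (Cp_sub _ _ h).1)
    · apply triod_legs
      · exact (((hB.union (Cp_closed c1 p)).union (Cp_closed c1 r)).union hD).union (Cp_closed c1 y)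
      · refine ⟨⟨p, Or.inl (Or.inr hpD)⟩, ?_⟩
        have a1 := gam _ p1 r1
        have a2 := a1.union p (Or.inl (Or.inl hpB)) hpD hDc
        exact a2.union y (Or.inr hyD) (mem_Cp y1) pre
      · exact Cp_closed c2 p
      · exact Cp_closed c2 r
      · exact Cp_closed c2 y
      · exact pre
      · exact pre
      · exact pre
      · exact ⟨p, Or.inl (Or.inr hpD), mem_Cp p2⟩
      · exact ⟨r, Or.inl (Or.inl (Or.inl (Or.inl hrB))), mem_Cp r2⟩
      · exact ⟨y, Or.inl (Or.inr hyD), mem_Cp y2⟩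
      · intro z hz; exact absurd hz.2 (Set.disjoint_left.1 d2 hz.1)
      · intro z hz; exact absurd hz.2 (Set.disjoint_left.1 hd1 hz.1)
      · intro z hz; exact absurd hz.2 (Set.disjoint_left.1 hd2 hz.1)
      · intro h
        obtain ⟨z, hz, hzV⟩ := reach_aux hA hAc hV₂ hV₂₁ hxA hxV₂ hpA p2.2
        exact hZV z (h hz) hzV
      · intro h
        obtain ⟨z, hz, hzV⟩ := reach_aux hA hAc hV₂ hV₂₁ hxA hxV₂ hrA r2.2
        exact hZV z (h hz) hzV
      · intro h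
        obtain ⟨z, hz, hzV⟩ := reach_aux hA hAc hV₂ hV₂₁ hxA hxV₂ hyA y2.2
        exact hZV z (h hz) hzV

/-- no weak cut points -/
def NWC (X : Type) [TopologicalSpace X] : Prop :=
  ∀ x p q : X, p ≠ x → q ≠ x → ∃ K : Set X, IsClosed K ∧ IsPreconnected K ∧ p ∈ K ∧ q ∈ K ∧ x ∉ K

theorem lemU (hN : NWC X) {F : Set X} (hF : IsClosed F) {u : X} (hFu : F ≠ univ)
    (hTF : TF (Cp F u)) {A B : Set X} (hA : IsClosed A) (hAc : IsPreconnected A)
    (hB : IsClosed B) (hBc : IsPreconnected B) (hAF : A ⊆ Cp F u) (hAi : A ⊆ interior F)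
    (hBF : B ⊆ Cp F u) (hBi : B ⊆ interior F) : IsPreconnected (A ∩ B) := by
  by_contra hcon
  obtain ⟨p, hp, r, hr, hpr⟩ : ∃ p ∈ A ∩ B, ∃ r ∈ A ∩ B, r ∉ Cp (A ∩ B) p := by
    by_contra hno
    push Not at hno
    apply hcon
    rcases (A ∩ B).eq_empty_or_nonempty with he | ⟨p, hp⟩
    · rw [he]; exact isPreconnected_empty
    · have : A ∩ B = Cp (A ∩ B) p := Subset.antisymm (fun r hr => hno p hp r hr) (Cp_sub _ _)
      rw [this]; exact isPreconnected_connectedComponentIn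
  obtain ⟨A', hA'A, hA'cl, hA'c, hpA', hrA', hirr⟩ := exists_irred hA hAc hp.1 hr.1
  obtain ⟨x, hxA', hxB⟩ : ∃ x ∈ A', x ∉ B := by
    by_contra hno
    push Not at hno
    apply hpr
    have hsub : A' ⊆ A ∩ B := fun z hz => ⟨hA'A hz, hno z hz⟩
    exact (sub_Cp hA'c hpA' hsub) hrA'
  obtain ⟨q, hq⟩ : ∃ q, q ∉ F := by
    by_contra hno
    push Not at hno
    exact hFu (eq_univ_of_forall hno)
  have hxF : x ∈ F := interior_subset (hAi (hA'A hxA'))
  have hpF : p ∈ F := interior_subset (hAi hp.1)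
  obtain ⟨K, hK, hKc, hpK, hqK, hxK⟩ := hN x p q (by rintro rfl; exact hxB hp.2)
    (by rintro rfl; exact hq hxF)
  have hDn : ¬ Cp (K ∩ F) p ⊆ interior F :=
    BB' hK hKc hF hpK hpF (fun h => hq (interior_subset (h hqK)))
  obtain ⟨T, hT, hTt⟩ := cycle_lemma (A := A') (B := B) (D := Cp (K ∩ F) p) (p := p) (r := r)
    (x := x) hA'cl hA'c hpA' hrA' hirr hB hBc hp.2 hr.2 hxA' hxB (Cp_closed (hK.inter hF) p)
    isPreconnected_connectedComponentIn (mem_Cp (show p ∈ K ∩ F from ⟨hpK, hpF⟩))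
    (fun h => hxK (Cp_sub _ _ h).1)
    (fun h => hDn (h.trans (union_subset (hA'A.trans hAi) hBi)))
  refine hTF T (hT.trans ?_) hTt
  have hpu : Cp F u = Cp F p := Cp_eq (hAF hp.1)
  refine union_subset (union_subset (hA'A.trans hAF) hBF) ?_
  rw [hpu]
  exact Cp_mono inter_subset_right p

end cycle

section generic
variable {X : Type} [TopologicalSpace X]

/-- strictly non mutually aposyndetic -/
def SN (X : Type) [TopologicalSpace X] : Prop :=
  ∀ A B : Set X, IsClosed A → IsConnected A → (interior A).Nonempty →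
    IsClosed B → IsConnected B → (interior B).Nonempty → (A ∩ B).Nonempty

def HT (X : Type) [TopologicalSpace X] : Prop :=
  ∀ S : Set (Set X), S.PairwiseDisjoint id → (∀ T ∈ S, Triod T) → S.Countable

/-- points interior to their component in `F n` -/
def Og (F : ℕ → Set X) (n : ℕ) : Set X := {v | v ∈ interior (Cp (F n) v)}

theorem Og_open (F : ℕ → Set X) (n : ℕ) : IsOpen (Og F n) := by
  rw [isOpen_iff_forall_mem_open]
  intro v hv
  refine ⟨interior (Cp (F n) v), ?_, isOpen_interior, hv⟩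
  intro w hw
  have : Cp (F n) v = Cp (F n) w := Cp_eq (interior_subset hw)
  show w ∈ interior (Cp (F n) w)
  rw [← this]; exact hw

def Wg (F : ℕ → Set X) (n m : ℕ) : Set X :=
  ⋃ k, ({v | v ∈ interior (F n) ∧ v ∈ interior (F m) ∧ Cp (F n) v ⊆ interior (F k) ∧
    Cp (F m) v ⊆ interior (F k)} \ closure (Og F k))

def Omg (F : ℕ → Set X) (n m : ℕ) : Set X :=
  {y | y ∈ interior (F n) ∧ Cp (F n) y ⊆ interior (F m)}

theorem usc_open [CompactSpace X] [T2Space X] {F U : Set X} (hF : IsClosed F) (hU : IsOpen U) :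
    IsOpen {y | y ∈ interior F ∧ Cp F y ⊆ U} := by
  rw [isOpen_iff_forall_mem_open]
  rintro v ⟨hv, hvU⟩
  obtain ⟨P, W, hP, hW, hPW, hvP, hPU⟩ := clopen_sep hF hU (interior_subset hv) hvU
  refine ⟨W ∩ interior F, ?_, hW.inter isOpen_interior, ?_⟩
  · rintro w ⟨hwW, hwF⟩
    refine ⟨hwF, ?_⟩
    have hwP : w ∈ P := by rw [hPW]; exact ⟨interior_subset hwF, hwW⟩
    exact (Cp_sub_clopen hP hW hPW hwP).trans hPU
  · refine ⟨?_, hv⟩
    rw [hPW] at hvP; exact hvP.2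

structure Gen (F : ℕ → Set X) (u : X) : Prop where
  g1 : ∀ n, u ∈ F n → u ∉ Og F n → interior (Cp (F n) u) = ∅ ∧ TF (Cp (F n) u)
  g2 : ∀ n, u ∉ frontier (Og F n)
  g3 : ∀ n m, u ∉ frontier (Wg F n m)
  g4 : ∀ n m, u ∉ frontier (Omg F n m)

theorem frontier_closed_resid {C : Set X} (hC : IsClosed C) :
    ∀ᶠ u in residual X, u ∉ frontier C := by
  apply residual_of_dense_open
  · exact isClosed_frontier.isOpen_compl
  · exact interior_eq_empty_iff_dense_compl.1 (interior_frontier hC)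

theorem frontier_open_resid {C : Set X} (hC : IsOpen C) :
    ∀ᶠ u in residual X, u ∉ frontier C := by
  rw [← frontier_compl]
  exact frontier_closed_resid hC.isClosed_compl

theorem countable_comps [SecondCountableTopology X] (hH : HT X) {F : Set X} :
    {C : Set X | ∃ x ∈ F, C = Cp F x ∧ ((interior C).Nonempty ∨ ∃ T ⊆ C, Triod T)}.Countable := by
  have hsub : {C : Set X | ∃ x ∈ F, C = Cp F x ∧ ((interior C).Nonempty ∨ ∃ T ⊆ C, Triod T)} ⊆
    {C : Set X | (∃ x ∈ F, C = Cp F x) ∧ (interior C).Nonempty} ∪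
    {C : Set X | (∃ x ∈ F, C = Cp F x) ∧ ∃ T ⊆ C, Triod T} := by
    rintro C ⟨x, hx, hC, h | h⟩
    · exact Or.inl ⟨⟨x, hx, hC⟩, h⟩
    · exact Or.inr ⟨⟨x, hx, hC⟩, h⟩
  have hdis : ∀ C D : Set X, (∃ x ∈ F, C = Cp F x) → (∃ x ∈ F, D = Cp F x) → C ≠ D →
      Disjoint C D := by
    rintro C D ⟨x, hx, rfl⟩ ⟨y, hy, rfl⟩ hne
    exact Cp_disj hne
  refine Set.Countable.mono hsub (Set.Countable.union ?_ ?_)
  · apply Set.PairwiseDisjoint.countable_of_nonempty_interior (s := id)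
    · intro C hC D hD hne
      exact hdis C D hC.1 hD.1 hne
    · intro C hC; exact hC.2
  · classical
    choose! g hg1 hg2 using fun (C : Set X) (hC : (∃ x ∈ F, C = Cp F x) ∧ ∃ T ⊆ C, Triod T) => hC.2
    have himg : (g '' {C : Set X | (∃ x ∈ F, C = Cp F x) ∧ ∃ T ⊆ C, Triod T}).Countable := by
      apply hH
      · rintro _ ⟨C, hC, rfl⟩ _ ⟨D, hD, rfl⟩ hne
        have hCD : C ≠ D := fun h => hne (by rw [h])
        exact (hdis C D hC.1 hD.1 hCD).mono (hg1 C hC) (hg1 D hD)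
      · rintro _ ⟨C, hC, rfl⟩
        exact hg2 C hC
    refine Set.countable_of_injective_of_countable_image (f := g) ?_ himg
    intro C hC D hD hCD
    by_contra hne
    have h1 := hdis C D hC.1 hD.1 hne
    obtain ⟨z, hz⟩ := (hg2 C hC).2.1.nonempty
    exact Set.disjoint_left.1 h1 (hg1 C hC hz) (hg1 D hD (by rw [← hCD]; exact hz))

theorem gen_residual [CompactSpace X] [T2Space X] [SecondCountableTopology X] (hH : HT X)
    {F : ℕ → Set X} (hF : ∀ n, IsClosed (F n)) : ∀ᶠ u in residual X, Gen F u := by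
  have h1 : ∀ᶠ u in residual X, ∀ n, u ∈ F n → u ∉ Og F n →
      interior (Cp (F n) u) = ∅ ∧ TF (Cp (F n) u) := by
    rw [eventually_countable_forall]
    intro n
    have hc := countable_comps hH (F := F n)
    have : ∀ᶠ u in residual X, ∀ C ∈ {C : Set X | ∃ x ∈ F n, C = Cp (F n) x ∧
        ((interior C).Nonempty ∨ ∃ T ⊆ C, Triod T)}, u ∉ frontier C := by
      rw [eventually_countable_ball hc]
      rintro C ⟨x, hx, hC, -⟩
      apply frontier_closed_resid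
      rw [hC]; exact Cp_closed (hF n) x
    filter_upwards [this] with u hu huF huO
    by_contra hcon
    have hmem : (interior (Cp (F n) u)).Nonempty ∨ ∃ T ⊆ Cp (F n) u, Triod T := by
      by_contra hno
      push Not at hno
      exact hcon ⟨hno.1, hno.2⟩
    have h3 := hu (Cp (F n) u) ⟨u, huF, rfl, hmem⟩
    apply huO
    show u ∈ interior (Cp (F n) u)
    by_contra h4
    exact h3 ⟨subset_closure (mem_Cp huF), h4⟩
  have h2 : ∀ᶠ u in residual X, ∀ n, u ∉ frontier (Og F n) := by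
    rw [eventually_countable_forall]
    exact fun n => frontier_open_resid (Og_open F n)
  have h3 : ∀ᶠ u in residual X, ∀ n m, u ∉ frontier (Wg F n m) := by
    rw [eventually_countable_forall]
    intro n
    rw [eventually_countable_forall]
    intro m
    apply frontier_open_resid
    apply isOpen_iUnion
    intro k
    have e : ({v | v ∈ interior (F n) ∧ v ∈ interior (F m) ∧ Cp (F n) v ⊆ interior (F k) ∧
      Cp (F m) v ⊆ interior (F k)} \ closure (Og F k)) =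
      ({y | y ∈ interior (F n) ∧ Cp (F n) y ⊆ interior (F k)} ∩
       {y | y ∈ interior (F m) ∧ Cp (F m) y ⊆ interior (F k)}) ∩ (closure (Og F k))ᶜ := by
      ext v
      simp only [mem_sdiff, mem_inter_iff, mem_ofPred_eq, mem_compl_iff]
      tauto
    rw [e]
    exact ((usc_open (hF n) isOpen_interior).inter (usc_open (hF m) isOpen_interior)).inter
      isClosed_closure.isOpen_compl
  have h4 : ∀ᶠ u in residual X, ∀ n m, u ∉ frontier (Omg F n m) := by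
    rw [eventually_countable_forall]
    intro n
    rw [eventually_countable_forall]
    intro m
    exact frontier_open_resid (usc_open (hF n) isOpen_interior)
  filter_upwards [h1, h2, h3, h4] with u a b c d
  exact ⟨a, b, c, d⟩

theorem gen_exists [CompactSpace X] [T2Space X] [SecondCountableTopology X] (hH : HT X)
    {F : ℕ → Set X} (hF : ∀ n, IsClosed (F n)) {U : Set X} (hU : IsOpen U) (hne : U.Nonempty) :
    ∃ u ∈ U, Gen F u := by
  have hd := dense_of_mem_residual (gen_residual hH hF)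
  obtain ⟨u, hu1, hu2⟩ := hd.inter_open_nonempty U hU hne
  exact ⟨u, hu1, hu2⟩

end generic

section AL
variable {X : Type} [TopologicalSpace X]

/-- `S` is almost large at `u` -/
def AL (F : ℕ → Set X) (u : X) (S : Set X) : Prop := ∀ n, S ⊆ interior (F n) → u ∈ Og F n

theorem AL.mono {F : ℕ → Set X} {u : X} {S T : Set X} (h : AL F u S) (hST : S ⊆ T) : AL F u T :=
  fun n hn => h n (hST.trans hn)

/-- the standing assumptions -/
structure Base (F : ℕ → Set X) : Prop where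
  cl : ∀ n, IsClosed (F n)
  nb : ∀ K U : Set X, IsClosed K → IsOpen U → K ⊆ U → ∃ n, K ⊆ interior (F n) ∧ F n ⊆ U
  sn : SN X
  nw : NWC X
  ht : HT X

variable [CompactSpace X] [T2Space X] [SecondCountableTopology X] {F : ℕ → Set X}

theorem not_AL {u : X} {S : Set X} (h : ¬ AL F u S) : ∃ n, S ⊆ interior (F n) ∧ u ∉ Og F n := by
  unfold AL at h
  push Not at h
  exact h

theorem Og_sub (n : ℕ) {u : X} (h : u ∈ Og F n) : u ∈ F n :=
  Cp_sub _ _ (interior_subset h)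

theorem Og_mono {n m : ℕ} (h : F n ⊆ F m) {u : X} (hu : u ∈ Og F n) : u ∈ Og F m :=
  interior_mono (Cp_mono h u) hu

theorem baire0 (hb : Base F) {x p : X} (hxp : p ≠ x) :
    ∃ n, x ∉ F n ∧ (interior (Cp (F n) p)).Nonempty := by
  by_contra hcon
  push Not at hcon
  have h1 : ∀ᶠ y in residual X, ∀ n, x ∉ F n → y ∉ Cp (F n) p := by
    rw [eventually_countable_forall]
    intro n
    by_cases hn : x ∉ F n
    · have h2 : (Cp (F n) p)ᶜ ∈ residual X := by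
        apply residual_of_dense_open
        · exact (Cp_closed (hb.cl n) p).isOpen_compl
        · exact interior_eq_empty_iff_dense_compl.1 (hcon n hn)
      filter_upwards [h2] with y hy _ using hy
    · filter_upwards with y h using absurd h hn
  obtain ⟨y, hy1, hy2⟩ := (dense_of_mem_residual h1).inter_open_nonempty {x}ᶜ
    isOpen_compl_singleton ⟨p, hxp⟩
  obtain ⟨K, hK, hKc, hpK, hyK, hxK⟩ := hb.nw x p y hxp hy1
  obtain ⟨n, hn1, hn2⟩ := hb.nb K {x}ᶜ hK isOpen_compl_singleton (fun z hz hzx => hxK (by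
    rw [← mem_singleton_iff.1 hzx]; exact hz))
  exact hy2 n (fun h => hn2 h rfl) (sub_Cp hKc hpK (hn1.trans interior_subset) hyK)

theorem AL.mem (hb : Base F) {u : X} {S : Set X} (hS : IsClosed S) (h : AL F u S) : u ∈ S := by
  by_contra hu
  obtain ⟨n, hn1, hn2⟩ := hb.nb S {u}ᶜ hS isOpen_compl_singleton (fun z hz hzu => hu (by
    rw [← mem_singleton_iff.1 hzu]; exact hz))
  exact hn2 (Og_sub n (h n hn1)) rfl

theorem AL_of_interior {u : X} {K : Set X} (hKc : IsPreconnected K) (hu : u ∈ interior K) :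
    AL F u K := by
  intro n hn
  exact interior_mono (sub_Cp hKc (interior_subset hu) (hn.trans interior_subset)) hu

theorem AL_of_Og {u : X} {n : ℕ} (h : u ∈ Og F n) : AL F u (F n) :=
  (AL_of_interior isPreconnected_connectedComponentIn h).mono (Cp_sub _ _)

theorem AL.meet (hb : Base F) {u v : X} {S T : Set X} (hS : IsClosed S) (hT : IsClosed T)
    (hu : AL F u S) (hv : AL F v T) : (S ∩ T).Nonempty := by
  by_contra hcon
  have hd : Disjoint S T := by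
    rw [Set.disjoint_iff_inter_eq_empty]; exact Set.not_nonempty_iff_eq_empty.1 hcon
  obtain ⟨U, V, hU, hV, hSU, hTV, hUV⟩ := normal_separation hS hT hd
  obtain ⟨n, hn1, hn2⟩ := hb.nb S U hS hU hSU
  obtain ⟨m, hm1, hm2⟩ := hb.nb T V hT hV hTV
  have h1 := hu n hn1
  have h2 := hv m hm1
  obtain ⟨z, hz1, hz2⟩ := hb.sn _ _ (Cp_closed (hb.cl n) u) (Cp_conn (Og_sub n h1)) ⟨u, h1⟩
    (Cp_closed (hb.cl m) v) (Cp_conn (Og_sub m h2)) ⟨v, h2⟩
  exact Set.disjoint_left.1 hUV (hn2 (Cp_sub _ _ hz1)) (hm2 (Cp_sub _ _ hz2))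

theorem not_AL_singleton [Nontrivial X] (hb : Base F) (u : X) : ¬ AL F u {u} := by
  intro h
  obtain ⟨p, hp⟩ := exists_ne u
  obtain ⟨n, hn1, hn2⟩ := baire0 hb hp
  have hpn : p ∈ F n := by
    by_contra hpn
    have : Cp (F n) p = ∅ := connectedComponentIn_eq_empty hpn
    rw [this] at hn2
    simp at hn2
  obtain ⟨w, hw⟩ := hn2
  have hwp : Cp (F n) p = Cp (F n) w := Cp_eq (interior_subset hw)
  have h2 : AL F w (Cp (F n) p) := AL_of_interior isPreconnected_connectedComponentIn hw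
  obtain ⟨z, hz1, hz2⟩ := h.meet hb isClosed_singleton (Cp_closed (hb.cl n) p) h2
  rw [mem_singleton_iff] at hz1
  subst hz1
  exact hn1 (Cp_sub _ _ hz2)

theorem fact1 (hb : Base F) {u x : X} (hu : Gen F u) (hxu : u ≠ x) : ∃ n, x ∉ F n ∧ u ∈ Og F n := by
  obtain ⟨n, hn1, hn2⟩ := baire0 hb hxu
  refine ⟨n, hn1, ?_⟩
  by_contra hno
  have hun : u ∈ F n := by
    by_contra hpn
    have : Cp (F n) u = ∅ := connectedComponentIn_eq_empty hpn
    rw [this] at hn2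
    simp at hn2
  rw [(hu.g1 n hun hno).1] at hn2
  simp at hn2

theorem room (hb : Base F) {S : Set X} (hS : IsClosed S) {n : ℕ} (h : S ⊆ interior (F n)) :
    ∃ m, S ⊆ interior (F m) ∧ F m ⊆ interior (F n) := hb.nb S _ hS isOpen_interior h

theorem AL.comp (hb : Base F) {u : X} {S : Set X} (hS : IsClosed S) (h : AL F u S) :
    AL F u (Cp S u) := by
  intro n hn
  have huS : u ∈ S := h.mem hb hS
  obtain ⟨P, W, hP, hW, hPW, huP, hPn⟩ := clopen_sep hS isOpen_interior huS hn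
  have hP' : IsClosed (S \ W) := hS.sdiff hW
  have hd : Disjoint P (S \ W) := by
    rw [Set.disjoint_left]
    intro z hz hz'
    rw [hPW] at hz
    exact hz'.2 hz.2
  obtain ⟨U, V, hU, hV, hPU, hSV, hUV⟩ := normal_separation hP hP' hd
  obtain ⟨k, hk1, hk2⟩ := hb.nb S ((U ∩ interior (F n)) ∪ V) hS
    ((hU.inter isOpen_interior).union hV) (by
      intro z hz
      by_cases hzW : z ∈ W
      · have hzP : z ∈ P := by rw [hPW]; exact ⟨hz, hzW⟩
        exact Or.inl ⟨hPU hzP, hPn hzP⟩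
      · exact Or.inr (hSV ⟨hz, hzW⟩))
  have h1 := h k hk1
  have huk : u ∈ F k := Og_sub k h1
  have h2 : Cp (F k) u ⊆ U ∩ interior (F n) := by
    have hpre : IsPreconnected (Cp (F k) u) := isPreconnected_connectedComponentIn
    have hd2 : Disjoint (U ∩ interior (F n)) V := hUV.mono_left inter_subset_left
    rcases hpre.subset_or_subset (hU.inter isOpen_interior) hV hd2
      ((Cp_sub _ _).trans hk2) with h3 | h3
    · exact h3
    · exact absurd (h3 (mem_Cp huk)) (Set.disjoint_left.1 hUV (hPU huP))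
  have h3 : Cp (F k) u ⊆ Cp (F n) u :=
    sub_Cp isPreconnected_connectedComponentIn (mem_Cp huk)
      (h2.trans (inter_subset_right.trans interior_subset))
  exact interior_mono h3 h1

/-- reaching the frontier of a small set -/
theorem reach (hb : Base F) {u : X} {S : Set X} (hS : IsClosed S) (h : AL F u S) {m : ℕ}
    (hum : u ∈ F m) (hm : u ∉ Og F m) : ¬ Cp (Cp S u ∩ F m) u ⊆ interior (F m) := by
  have huS : u ∈ S := h.mem hb hS
  apply BB' (Cp_closed hS u) isPreconnected_connectedComponentIn (hb.cl m) (mem_Cp huS) hum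
  intro hsub
  exact hm (h.comp hb hS m hsub)

/-- small sets are proper -/
theorem ne_univ_of_small [ConnectedSpace X] {u : X} {m : ℕ} (hm : u ∉ Og F m) : F m ≠ univ := by
  intro h
  apply hm
  show u ∈ interior (Cp (F m) u)
  have : Cp (F m) u = univ := by
    show connectedComponentIn (F m) u = univ
    rw [h, connectedComponentIn_univ, PreconnectedSpace.connectedComponent_eq_univ]
  rw [this, interior_univ]
  trivial

end AL

section claimJ
variable {X : Type} [TopologicalSpace X]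

/-- `S` contains no nonempty open subset of `O` -/
def Thin (O S : Set X) : Prop := ∀ U, IsOpen U → U ⊆ O → U.Nonempty → (U \ S).Nonempty

theorem Thin.union {O S T : Set X} (hS : IsClosed S) (h1 : Thin O S) (h2 : Thin O T) :
    Thin O (S ∪ T) := by
  intro U hU hUO hne
  obtain ⟨z, hz⟩ := h2 (U \ S) (hU.sdiff hS) (sdiff_subset.trans hUO) (h1 U hU hUO hne)
  exact ⟨z, hz.1.1, fun h => h.elim hz.1.2 hz.2⟩

theorem Thin.mono {O O' S : Set X} (h : Thin O S) (hO : O' ⊆ O) : Thin O' S :=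
  fun U hU hUO hne => h U hU (hUO.trans hO) hne

theorem thin_empty (O : Set X) : Thin O ∅ := by
  intro U _ _ hne
  simpa using hne

theorem thin_Cp {O F : Set X} (h : ∀ v ∈ O, v ∉ interior (Cp F v)) (y : X) : Thin O (Cp F y) := by
  intro U hU hUO hne
  by_contra hcon
  have hsub : U ⊆ Cp F y := by
    intro z hz
    by_contra hz'
    exact hcon ⟨z, hz, hz'⟩
  obtain ⟨v, hv⟩ := hne
  have hvy : Cp F y = Cp F v := Cp_eq (hsub hv)
  apply h v (hUO hv)
  rw [hvy] at hsub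
  exact mem_interior.2 ⟨U, hsub, hU, hv⟩

theorem atmost {O F : Set X} (hF : IsClosed F) (h : ∀ v ∈ O, v ∉ interior (Cp F v)) (P : X → Prop)
    (h3 : ∀ a b c, P a → P b → P c → Cp F a = Cp F b ∨ Cp F a = Cp F c ∨ Cp F b = Cp F c) :
    ∃ S, IsClosed S ∧ Thin O S ∧ ∀ y, P y → Cp F y ⊆ S := by
  by_cases h0 : ∃ a, P a
  · obtain ⟨a, ha⟩ := h0
    by_cases h1 : ∃ b, P b ∧ Cp F a ≠ Cp F b
    · obtain ⟨b, hb, hab⟩ := h1
      refine ⟨Cp F a ∪ Cp F b, (Cp_closed hF a).union (Cp_closed hF b),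
        (thin_Cp h a).union (Cp_closed hF a) (thin_Cp h b), ?_⟩
      intro y hy
      rcases h3 a b y ha hb hy with h | h | h
      · exact absurd h hab
      · rw [← h]; exact subset_union_left
      · rw [← h]; exact subset_union_right
    · refine ⟨Cp F a, Cp_closed hF a, thin_Cp h a, ?_⟩
      intro y hy
      by_contra hcon
      apply h1
      refine ⟨y, hy, ?_⟩
      intro heq
      apply hcon
      rw [heq]
  · exact ⟨∅, isClosed_empty, thin_empty O, fun y hy => absurd ⟨y, hy⟩ h0⟩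

variable [CompactSpace X] [T2Space X] [SecondCountableTopology X] {F : ℕ → Set X}

theorem leg_aux {B A G : Set X} (hG : IsClosed G) (hBG : B ⊆ interior G)
    (hA : IsClosed A) (hAc : IsPreconnected A) {y : X} (hyA : y ∈ A) (hyB : y ∈ B)
    (hn : ¬ A ⊆ B) : ¬ Cp (A ∩ G) y ⊆ B := by
  intro hsub
  have h1 : A ⊆ interior G := BB hA hAc hG hyA (interior_subset (hBG hyB)) (hsub.trans hBG)
  apply hn
  refine Subset.trans ?_ hsub
  exact sub_Cp hAc hyA (fun z hz => ⟨hz, interior_subset (h1 hz)⟩)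

theorem three_strands (hb : Base F) {u : X} (hu : Gen F u) {B A₁ A₂ A₃ : Set X} {c : ℕ}
    (hB : IsClosed B) (hBc : IsPreconnected B) (huB : u ∈ B) (hBi : B ⊆ interior (F c))
    (hc : u ∉ Og F c)
    (cl1 : IsClosed A₁) (cl2 : IsClosed A₂) (cl3 : IsClosed A₃)
    (c1 : IsPreconnected A₁) (c2 : IsPreconnected A₂) (c3 : IsPreconnected A₃)
    (d12 : Disjoint A₁ A₂) (d13 : Disjoint A₁ A₃) (d23 : Disjoint A₂ A₃)
    (m1 : (B ∩ A₁).Nonempty) (m2 : (B ∩ A₂).Nonempty) (m3 : (B ∩ A₃).Nonempty)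
    (n1 : ¬ A₁ ⊆ B) (n2 : ¬ A₂ ⊆ B) (n3 : ¬ A₃ ⊆ B) : False := by
  obtain ⟨y1, yB1, yA1⟩ := m1
  obtain ⟨y2, yB2, yA2⟩ := m2
  obtain ⟨y3, yB3, yA3⟩ := m3
  have hcl := hb.cl c
  have huF : u ∈ F c := interior_subset (hBi huB)
  have hBu : B ⊆ Cp (F c) u := sub_Cp hBc huB (hBi.trans interior_subset)
  have leg : ∀ {A : Set X} {y : X}, y ∈ B → Cp (A ∩ F c) y ⊆ Cp (F c) u := by
    intro A y hy
    rw [Cp_eq (hBu hy)]
    exact Cp_mono inter_subset_right y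
  have hself : ∀ {A : Set X} {y : X}, y ∈ B → y ∈ A → y ∈ Cp (A ∩ F c) y := by
    intro A y hy hyA
    exact mem_Cp (show y ∈ A ∩ F c from ⟨hyA, interior_subset (hBi hy)⟩)
  have hT : Triod (B ∪ Cp (A₁ ∩ F c) y1 ∪ Cp (A₂ ∩ F c) y2 ∪ Cp (A₃ ∩ F c) y3) := by
    apply triod_legs hB ⟨⟨u, huB⟩, hBc⟩ (Cp_closed (cl1.inter hcl) y1)
      (Cp_closed (cl2.inter hcl) y2) (Cp_closed (cl3.inter hcl) y3)
      isPreconnected_connectedComponentIn isPreconnected_connectedComponentIn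
      isPreconnected_connectedComponentIn
    · exact ⟨y1, yB1, hself yB1 yA1⟩
    · exact ⟨y2, yB2, hself yB2 yA2⟩
    · exact ⟨y3, yB3, hself yB3 yA3⟩
    · intro z hz
      exact absurd (Cp_sub _ _ hz.2).1 (Set.disjoint_left.1 d12 (Cp_sub _ _ hz.1).1)
    · intro z hz
      exact absurd (Cp_sub _ _ hz.2).1 (Set.disjoint_left.1 d13 (Cp_sub _ _ hz.1).1)
    · intro z hz
      exact absurd (Cp_sub _ _ hz.2).1 (Set.disjoint_left.1 d23 (Cp_sub _ _ hz.1).1)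
    · exact leg_aux hcl hBi cl1 c1 yA1 yB1 n1
    · exact leg_aux hcl hBi cl2 c2 yA2 yB2 n2
    · exact leg_aux hcl hBi cl3 c3 yA3 yB3 n3
  refine (hu.g1 c huF hc).2 _ ?_ hT
  exact union_subset (union_subset (union_subset hBu (leg yB1)) (leg yB2)) (leg yB3)

theorem not_closure_of {u : X} {O : Set X} (hO : IsOpen O) (h1 : u ∉ frontier O) (h2 : u ∉ O) :
    u ∉ closure O := by
  intro h
  apply h1
  rw [hO.frontier_eq]
  exact ⟨h, h2⟩

theorem claimJ (hb : Base F) {u : X} (hu : Gen F u) {E₁ E₂ : Set X}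
    (cl1 : IsClosed E₁) (c1 : IsPreconnected E₁) (u1 : u ∈ E₁) (n1 : ¬ AL F u E₁)
    (cl2 : IsClosed E₂) (c2 : IsPreconnected E₂) (u2 : u ∈ E₂) (n2 : ¬ AL F u E₂) :
    ¬ AL F u (E₁ ∪ E₂) := by
  intro hAL
  obtain ⟨a', ha1, ha2⟩ := not_AL n1
  obtain ⟨a, haE, haa⟩ := room hb cl1 ha1
  obtain ⟨b', hb1, hb2⟩ := not_AL n2
  obtain ⟨b, hbE, hbb⟩ := room hb cl2 hb1
  have hua : u ∉ Og F a := fun h => ha2 (Og_mono (haa.trans interior_subset) h)
  have hub : u ∉ Og F b := fun h => hb2 (Og_mono (hbb.trans interior_subset) h)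
  have uFa : u ∈ interior (F a) := haE u1
  have uFb : u ∈ interior (F b) := hbE u2
  have hGu : AL F u (Cp (F a) u ∪ Cp (F b) u) :=
    hAL.mono (union_subset_union (sub_Cp c1 u1 (haE.trans interior_subset))
      (sub_Cp c2 u2 (hbE.trans interior_subset)))
  have hWo : IsOpen (Wg F a b) := by
    apply isOpen_iUnion
    intro k
    have e : ({v | v ∈ interior (F a) ∧ v ∈ interior (F b) ∧ Cp (F a) v ⊆ interior (F k) ∧
      Cp (F b) v ⊆ interior (F k)} \ closure (Og F k)) =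
      ({y | y ∈ interior (F a) ∧ Cp (F a) y ⊆ interior (F k)} ∩
       {y | y ∈ interior (F b) ∧ Cp (F b) y ⊆ interior (F k)}) ∩ (closure (Og F k))ᶜ := by
      ext v
      simp only [mem_sdiff, mem_inter_iff, mem_ofPred_eq, mem_compl_iff]
      tauto
    rw [e]
    exact ((usc_open (hb.cl a) isOpen_interior).inter (usc_open (hb.cl b) isOpen_interior)).inter
      isClosed_closure.isOpen_compl
  have huW : u ∉ Wg F a b := by
    intro h
    obtain ⟨k, hk⟩ := mem_iUnion.1 h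
    obtain ⟨⟨-, -, h1, h2⟩, h3⟩ := hk
    exact h3 (subset_closure (hGu k (union_subset h1 h2)))
  have huW' := not_closure_of hWo (hu.g3 a b) huW
  have hua' := not_closure_of (Og_open F a) (hu.g2 a) hua
  have hub' := not_closure_of (Og_open F b) (hu.g2 b) hub
  set O : Set X := interior (F a) ∩ interior (F b) ∩ (closure (Wg F a b))ᶜ ∩ (closure (Og F a))ᶜ ∩
    (closure (Og F b))ᶜ with hO
  have hOo : IsOpen O := (((isOpen_interior.inter isOpen_interior).inter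
    isClosed_closure.isOpen_compl).inter isClosed_closure.isOpen_compl).inter
    isClosed_closure.isOpen_compl
  have huO : u ∈ O := ⟨⟨⟨⟨uFa, uFb⟩, huW'⟩, hua'⟩, hub'⟩
  have hOa : ∀ v ∈ O, v ∉ interior (Cp (F a) v) := fun v hv h => hv.1.2 (subset_closure h)
  have hOb : ∀ v ∈ O, v ∉ interior (Cp (F b) v) := fun v hv h => hv.2 (subset_closure h)
  have hGv : ∀ v ∈ O, Gen F v → AL F v (Cp (F a) v ∪ Cp (F b) v) := by
    intro v hv hvG n hn
    by_contra hno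
    have h1 := not_closure_of (Og_open F n) (hvG.g2 n) hno
    apply hv.1.1.2
    apply subset_closure
    exact mem_iUnion.2 ⟨n, ⟨hv.1.1.1.1, hv.1.1.1.2, (union_subset_iff.1 hn).1,
      (union_subset_iff.1 hn).2⟩, h1⟩
  have clA : ∀ v, IsClosed (Cp (F a) v) := Cp_closed (hb.cl a)
  have clB : ∀ v, IsClosed (Cp (F b) v) := Cp_closed (hb.cl b)
  have pre : ∀ {G : Set X} {y : X}, IsPreconnected (Cp G y) := fun {G y} =>
    isPreconnected_connectedComponentIn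
  -- type a
  obtain ⟨Sa, hSa1, hSa2, hSa3⟩ := atmost (hb.cl b) hOb
    (fun v => v ∈ O ∧ v ∉ Cp (F a) u ∧ (Cp (F a) u ∩ Cp (F b) v).Nonempty) (by
      rintro y1 y2 y3 ⟨o1, e1, m1⟩ ⟨o2, e2, m2⟩ ⟨o3, e3, m3⟩
      by_contra hcon
      push Not at hcon
      obtain ⟨h12, h13, h23⟩ := hcon
      exact three_strands hb hu (clA u) pre (mem_Cp (interior_subset uFa))
        ((Cp_sub _ _).trans haa) ha2 (clB y1) (clB y2) (clB y3) pre pre pre
        (Cp_disj h12) (Cp_disj h13) (Cp_disj h23) m1 m2 m3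
        (fun h => e1 (h (mem_Cp (interior_subset o1.1.1.1.2))))
        (fun h => e2 (h (mem_Cp (interior_subset o2.1.1.1.2))))
        (fun h => e3 (h (mem_Cp (interior_subset o3.1.1.1.2)))))
  obtain ⟨Sb, hSb1, hSb2, hSb3⟩ := atmost (hb.cl a) hOa
    (fun v => v ∈ O ∧ v ∉ Cp (F b) u ∧ (Cp (F b) u ∩ Cp (F a) v).Nonempty) (by
      rintro y1 y2 y3 ⟨o1, e1, m1⟩ ⟨o2, e2, m2⟩ ⟨o3, e3, m3⟩
      by_contra hcon
      push Not at hcon
      obtain ⟨h12, h13, h23⟩ := hcon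
      exact three_strands hb hu (clB u) pre (mem_Cp (interior_subset uFb))
        ((Cp_sub _ _).trans hbb) hb2 (clA y1) (clA y2) (clA y3) pre pre pre
        (Cp_disj h12) (Cp_disj h13) (Cp_disj h23) m1 m2 m3
        (fun h => e1 (h (mem_Cp (interior_subset o1.1.1.1.1))))
        (fun h => e2 (h (mem_Cp (interior_subset o2.1.1.1.1))))
        (fun h => e3 (h (mem_Cp (interior_subset o3.1.1.1.1)))))
  have hthin : Thin O ((Cp (F a) u ∪ Cp (F b) u) ∪ (Sa ∪ Sb)) :=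
    ((thin_Cp hOa u).union (clA u) (thin_Cp hOb u)).union ((clA u).union (clB u))
      (hSa2.union hSa1 hSb2)
  obtain ⟨v, hv, hvG⟩ := gen_exists hb.ht hb.cl
    (hOo.sdiff (((clA u).union (clB u)).union (hSa1.union hSb1)))
    (hthin O hOo subset_rfl ⟨u, huO⟩)
  have hvO : v ∈ O := hv.1
  have hva : v ∈ F a := interior_subset hvO.1.1.1.1
  have hvb : v ∈ F b := interior_subset hvO.1.1.1.2
  have nva : v ∉ Cp (F a) u := fun h => hv.2 (Or.inl (Or.inl h))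
  have nvb : v ∉ Cp (F b) u := fun h => hv.2 (Or.inl (Or.inr h))
  obtain ⟨z, hz1, hz2⟩ := hGu.meet hb ((clA u).union (clB u)) ((clA v).union (clB v))
    (hGv v hvO hvG)
  rcases hz1 with hz1 | hz1 <;> rcases hz2 with hz2 | hz2
  · apply nva
    rw [Cp_eq hz1, ← Cp_eq hz2]
    exact mem_Cp hva
  · exact hv.2 (Or.inr (Or.inl (hSa3 v ⟨hvO, nva, ⟨z, hz1, hz2⟩⟩ (mem_Cp hvb))))
  · exact hv.2 (Or.inr (Or.inr (hSb3 v ⟨hvO, nvb, ⟨z, hz1, hz2⟩⟩ (mem_Cp hva))))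
  · apply nvb
    rw [Cp_eq hz1, ← Cp_eq hz2]
    exact mem_Cp hvb

end claimJ

section lemT
variable {X : Type} [TopologicalSpace X] [CompactSpace X] [T2Space X] [SecondCountableTopology X]
  [ConnectedSpace X] {F : ℕ → Set X}

theorem lemT (hb : Base F) {u : X} (hu : Gen F u) {X₁ X₂ X₃ : Set X}
    (cl1 : IsClosed X₁) (cl2 : IsClosed X₂) (cl3 : IsClosed X₃)
    (a1 : AL F u X₁) (a2 : AL F u X₂) (a3 : AL F u X₃)
    (n12 : ¬ AL F u (X₁ ∩ X₂)) (n13 : ¬ AL F u (X₁ ∩ X₃)) (n23 : ¬ AL F u (X₂ ∩ X₃)) : False := by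
  have u1 := a1.mem hb cl1
  have u2 := a2.mem hb cl2
  have u3 := a3.mem hb cl3
  have pre : ∀ {G : Set X} {y : X}, IsPreconnected (Cp G y) := fun {G y} =>
    isPreconnected_connectedComponentIn
  have k12 : u ∈ Cp (X₁ ∩ X₂) u := mem_Cp (show u ∈ X₁ ∩ X₂ from ⟨u1, u2⟩)
  have k13 : u ∈ Cp (X₁ ∩ X₃) u := mem_Cp (show u ∈ X₁ ∩ X₃ from ⟨u1, u3⟩)
  have k23 : u ∈ Cp (X₂ ∩ X₃) u := mem_Cp (show u ∈ X₂ ∩ X₃ from ⟨u2, u3⟩)
  have e12 : ¬ AL F u (Cp (X₁ ∩ X₂) u) := fun h => n12 (h.mono (Cp_sub _ _))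
  have e13 : ¬ AL F u (Cp (X₁ ∩ X₃) u) := fun h => n13 (h.mono (Cp_sub _ _))
  have e23 : ¬ AL F u (Cp (X₂ ∩ X₃) u) := fun h => n23 (h.mono (Cp_sub _ _))
  have f12 := Cp_closed (cl1.inter cl2) u
  have f13 := Cp_closed (cl1.inter cl3) u
  have f23 := Cp_closed (cl2.inter cl3) u
  have g1 : ¬ AL F u (Cp (X₁ ∩ X₂) u ∪ Cp (X₁ ∩ X₃) u) :=
    claimJ hb hu f12 pre k12 e12 f13 pre k13 e13
  have g2 : ¬ AL F u ((Cp (X₁ ∩ X₂) u ∪ Cp (X₁ ∩ X₃) u) ∪ Cp (X₂ ∩ X₃) u) :=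
    claimJ hb hu (f12.union f13) (IsPreconnected.union u k12 k13 pre pre) (Or.inl k12) g1
      f23 pre k23 e23
  obtain ⟨n', hn', hun'⟩ := not_AL g2
  obtain ⟨n, hn, hnn⟩ := room hb ((f12.union f13).union f23) hn'
  have hun : u ∉ Og F n := fun h => hun' (Og_mono (hnn.trans interior_subset) h)
  have hunF : u ∈ F n := interior_subset (hn (Or.inl (Or.inl k12)))
  have hunF' : u ∈ F n' := interior_subset (hn' (Or.inl (Or.inl k12)))
  have hTF := (hu.g1 n' hunF' hun').2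
  have r1 := reach hb cl1 a1 hunF hun
  have r2 := reach hb cl2 a2 hunF hun
  have r3 := reach hb cl3 a3 hunF hun
  set D₁ := Cp (Cp X₁ u ∩ F n) u with hD₁
  set D₂ := Cp (Cp X₂ u ∩ F n) u with hD₂
  set D₃ := Cp (Cp X₃ u ∩ F n) u with hD₃
  have d1 : IsClosed D₁ := Cp_closed ((Cp_closed cl1 u).inter (hb.cl n)) u
  have d2 : IsClosed D₂ := Cp_closed ((Cp_closed cl2 u).inter (hb.cl n)) u
  have d3 : IsClosed D₃ := Cp_closed ((Cp_closed cl3 u).inter (hb.cl n)) u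
  have p1 : IsPreconnected D₁ := pre
  have p2 : IsPreconnected D₂ := pre
  have p3 : IsPreconnected D₃ := pre
  have v1 : u ∈ D₁ := mem_Cp (show u ∈ Cp X₁ u ∩ F n from ⟨mem_Cp u1, hunF⟩)
  have v2 : u ∈ D₂ := mem_Cp (show u ∈ Cp X₂ u ∩ F n from ⟨mem_Cp u2, hunF⟩)
  have v3 : u ∈ D₃ := mem_Cp (show u ∈ Cp X₃ u ∩ F n from ⟨mem_Cp u3, hunF⟩)
  have s1 : D₁ ⊆ F n := (Cp_sub _ _).trans inter_subset_right
  have s2 : D₂ ⊆ F n := (Cp_sub _ _).trans inter_subset_right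
  have s3 : D₃ ⊆ F n := (Cp_sub _ _).trans inter_subset_right
  have t1 : D₁ ⊆ X₁ := (Cp_sub _ _).trans (inter_subset_left.trans (Cp_sub _ _))
  have t2 : D₂ ⊆ X₂ := (Cp_sub _ _).trans (inter_subset_left.trans (Cp_sub _ _))
  have t3 : D₃ ⊆ X₃ := (Cp_sub _ _).trans (inter_subset_left.trans (Cp_sub _ _))
  have w1 : D₁ ⊆ Cp (F n') u := sub_Cp p1 v1 (s1.trans (hnn.trans interior_subset))
  have w2 : D₂ ⊆ Cp (F n') u := sub_Cp p2 v2 (s2.trans (hnn.trans interior_subset))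
  have w3 : D₃ ⊆ Cp (F n') u := sub_Cp p3 v3 (s3.trans (hnn.trans interior_subset))
  have hne := ne_univ_of_small hun'
  have c12 : IsPreconnected (D₁ ∩ D₂) :=
    lemU hb.nw (hb.cl n') hne hTF d1 p1 d2 p2 w1 (s1.trans hnn) w2 (s2.trans hnn)
  have c13 : IsPreconnected (D₁ ∩ D₃) :=
    lemU hb.nw (hb.cl n') hne hTF d1 p1 d3 p3 w1 (s1.trans hnn) w3 (s3.trans hnn)
  have c23 : IsPreconnected (D₂ ∩ D₃) :=
    lemU hb.nw (hb.cl n') hne hTF d2 p2 d3 p3 w2 (s2.trans hnn) w3 (s3.trans hnn)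
  have i12 : D₁ ∩ D₂ ⊆ interior (F n) :=
    (sub_Cp c12 ⟨v1, v2⟩ (inter_subset_inter t1 t2)).trans
      (fun z hz => hn (Or.inl (Or.inl hz)))
  have i13 : D₁ ∩ D₃ ⊆ interior (F n) :=
    (sub_Cp c13 ⟨v1, v3⟩ (inter_subset_inter t1 t3)).trans
      (fun z hz => hn (Or.inl (Or.inr hz)))
  have i23 : D₂ ∩ D₃ ⊆ interior (F n) :=
    (sub_Cp c23 ⟨v2, v3⟩ (inter_subset_inter t2 t3)).trans
      (fun z hz => hn (Or.inr hz))
  set Z : Set X := ((D₁ ∩ D₂) ∪ (D₁ ∩ D₃)) ∪ (D₂ ∩ D₃) with hZ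
  have hZi : Z ⊆ interior (F n) := union_subset (union_subset i12 i13) i23
  have hZc : IsPreconnected Z :=
    IsPreconnected.union u (Or.inl ⟨v1, v2⟩) ⟨v2, v3⟩
      (IsPreconnected.union u ⟨v1, v2⟩ ⟨v1, v3⟩ c12 c13) c23
  have huZ : u ∈ Z := Or.inl (Or.inl ⟨v1, v2⟩)
  have hT : Triod (Z ∪ D₁ ∪ D₂ ∪ D₃) := by
    apply triod_legs (((d1.inter d2).union (d1.inter d3)).union (d2.inter d3)) ⟨⟨u, huZ⟩, hZc⟩
      d1 d2 d3 p1 p2 p3 ⟨u, huZ, v1⟩ ⟨u, huZ, v2⟩ ⟨u, huZ, v3⟩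
    · intro z hz; exact Or.inl (Or.inl hz)
    · intro z hz; exact Or.inl (Or.inr hz)
    · intro z hz; exact Or.inr hz
    · intro h; exact r1 (h.trans hZi)
    · intro h; exact r2 (h.trans hZi)
    · intro h; exact r3 (h.trans hZi)
  refine hTF _ ?_ hT
  refine union_subset (union_subset (union_subset ?_ w1) w2) w3
  rintro z ((hz | hz) | hz)
  · exact w1 hz.1
  · exact w1 hz.1
  · exact w2 hz.1

theorem cover (hb : Base F) {u : X} (hu : Gen F u) {U : Set X} (hU : IsOpen U) (huU : u ∈ U) :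
    ∃ t : Finset {n // u ∈ Og F n}, (⋂ n ∈ t, F n.1) ⊆ U := by
  have h1 : Uᶜ ⊆ ⋃ n : {n // u ∈ Og F n}, (F n.1)ᶜ := by
    intro x hx
    have hxu : u ≠ x := by rintro rfl; exact hx huU
    obtain ⟨n, hn1, hn2⟩ := fact1 hb hu hxu
    exact mem_iUnion.2 ⟨⟨n, hn2⟩, hn1⟩
  obtain ⟨t, ht⟩ := hU.isClosed_compl.isCompact.elim_finite_subcover
    (fun n : {n // u ∈ Og F n} => (F n.1)ᶜ) (fun n => (hb.cl n.1).isOpen_compl) h1
  refine ⟨t, ?_⟩
  intro x hx
  by_contra hxU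
  obtain ⟨n, hn⟩ := mem_iUnion.1 (ht hxU)
  obtain ⟨hnt, hxn⟩ := mem_iUnion.1 hn
  exact hxn (mem_iInter₂.1 hx n hnt)

theorem claim2 (hb : Base F) {u : X} (hu : Gen F u) {X₁ X₂ : Set X}
    (cl1 : IsClosed X₁) (cl2 : IsClosed X₂) (a1 : AL F u X₁) (a2 : AL F u X₂)
    (n12 : ¬ AL F u (X₁ ∩ X₂)) {U : Set X} (hU : IsOpen U) (huU : u ∈ U) :
    ∃ Y₁ Y₂ : Set X, Y₁ ⊆ X₁ ∧ Y₂ ⊆ X₂ ∧ IsClosed Y₁ ∧ IsClosed Y₂ ∧ AL F u Y₁ ∧ AL F u Y₂ ∧
      Y₁ ∩ Y₂ ⊆ U := by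
  classical
  obtain ⟨t, ht⟩ := cover hb hu hU huU
  have key : ∀ t : Finset {n // u ∈ Og F n}, ∃ Y₁ Y₂ : Set X, Y₁ ⊆ X₁ ∧ Y₂ ⊆ X₂ ∧
      IsClosed Y₁ ∧ IsClosed Y₂ ∧ AL F u Y₁ ∧ AL F u Y₂ ∧ ∀ n ∈ t, Y₁ ∩ Y₂ ⊆ F n.1 := by
    intro t
    induction t using Finset.induction_on with
    | empty => exact ⟨X₁, X₂, subset_rfl, subset_rfl, cl1, cl2, a1, a2, by simp⟩
    | insert n t hnt ih =>
      obtain ⟨Y₁, Y₂, s1, s2, k1, k2, b1, b2, hY⟩ := ih
      have hN : AL F u (F n.1) := AL_of_Og n.2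
      by_cases h1 : AL F u (Y₁ ∩ F n.1)
      · refine ⟨Y₁ ∩ F n.1, Y₂, inter_subset_left.trans s1, s2, k1.inter (hb.cl n.1), k2, h1, b2,
          ?_⟩
        intro m hm
        rcases Finset.mem_insert.1 hm with rfl | hm
        · intro z hz; exact hz.1.2
        · intro z hz; exact hY m hm ⟨hz.1.1, hz.2⟩
      by_cases h2 : AL F u (Y₂ ∩ F n.1)
      · refine ⟨Y₁, Y₂ ∩ F n.1, s1, inter_subset_left.trans s2, k1, k2.inter (hb.cl n.1), b1, h2,
          ?_⟩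
        intro m hm
        rcases Finset.mem_insert.1 hm with rfl | hm
        · intro z hz; exact hz.2.2
        · intro z hz; exact hY m hm ⟨hz.1, hz.2.1⟩
      exact (lemT hb hu k1 k2 (hb.cl n.1) b1 b2 hN
        (fun h => n12 (h.mono (inter_subset_inter s1 s2))) h1 h2).elim
  obtain ⟨Y₁, Y₂, s1, s2, k1, k2, b1, b2, hY⟩ := key t
  refine ⟨Y₁, Y₂, s1, s2, k1, k2, b1, b2, ?_⟩
  intro z hz
  apply ht
  exact mem_iInter₂.2 fun n hn => hY n hn hz

theorem first_pair [Nontrivial X] (hb : Base F) {u : X} (hu : Gen F u) :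
    ∃ X₁ X₂ : Set X, IsClosed X₁ ∧ IsClosed X₂ ∧ AL F u X₁ ∧ AL F u X₂ ∧ ¬ AL F u (X₁ ∩ X₂) := by
  classical
  obtain ⟨n₀, hn₀, hu₀⟩ := not_AL (not_AL_singleton hb u)
  obtain ⟨t, ht⟩ := cover hb hu isOpen_interior (hn₀ rfl)
  by_contra hno
  have key : ∀ t : Finset {n // u ∈ Og F n}, AL F u (⋂ n ∈ t, F n.1) := by
    intro t
    induction t using Finset.induction_on with
    | empty =>
      have : (⋂ n ∈ (∅ : Finset {n // u ∈ Og F n}), F n.1) = univ := by simp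
      rw [this]
      exact AL_of_interior isPreconnected_univ (by rw [interior_univ]; trivial)
    | insert n t hnt ih =>
      have e : (⋂ m ∈ insert n t, F m.1) = F n.1 ∩ ⋂ m ∈ t, F m.1 := by
        ext z; simp
      rw [e]
      by_contra h
      exact hno ⟨F n.1, ⋂ m ∈ t, F m.1, hb.cl n.1,
        isClosed_biInter fun m _ => hb.cl m.1, AL_of_Og n.2, ih, h⟩
  exact hu₀ (key t n₀ ht)

theorem pair_nbhd (hb : Base F) {Y₁ Y₂ O G G' : Set X} (c1 : IsClosed Y₁) (c2 : IsClosed Y₂)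
    (hO : IsOpen O) (hG : IsOpen G) (hG' : IsOpen G') (h12 : Y₁ ∩ Y₂ ⊆ O) (h1 : Y₁ ⊆ G)
    (h2 : Y₂ ⊆ G') : ∃ n m, Y₁ ⊆ interior (F n) ∧ F n ⊆ G ∧ Y₂ ⊆ interior (F m) ∧ F m ⊆ G' ∧
      F n ∩ F m ⊆ O := by
  have hd : Disjoint (Y₁ \ O) (Y₂ \ O) := by
    rw [Set.disjoint_left]
    intro z hz hz'
    exact hz.2 (h12 ⟨hz.1, hz'.1⟩)
  obtain ⟨U, V, hU, hV, hYU, hYV, hUV⟩ := normal_separation (c1.sdiff hO) (c2.sdiff hO) hd
  obtain ⟨n, hn1, hn2⟩ := hb.nb Y₁ ((U ∪ O) ∩ G) c1 ((hU.union hO).inter hG) (by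
    intro z hz
    refine ⟨?_, h1 hz⟩
    by_cases hzO : z ∈ O
    · exact Or.inr hzO
    · exact Or.inl (hYU ⟨hz, hzO⟩))
  obtain ⟨m, hm1, hm2⟩ := hb.nb Y₂ ((V ∪ O) ∩ G') c2 ((hV.union hO).inter hG') (by
    intro z hz
    refine ⟨?_, h2 hz⟩
    by_cases hzO : z ∈ O
    · exact Or.inr hzO
    · exact Or.inl (hYV ⟨hz, hzO⟩))
  refine ⟨n, m, hn1, hn2.trans inter_subset_right, hm1, hm2.trans inter_subset_right, ?_⟩
  rintro z ⟨hz1, hz2⟩
  rcases (hn2 hz1).1 with h | h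
  · rcases (hm2 hz2).1 with h' | h'
    · exact absurd h' (Set.disjoint_left.1 hUV h)
    · exact h'
  · exact h

/-- the ray of `u` in `K` -/
def Ray (F : ℕ → Set X) (K : Set X) (u : X) : Set X :=
  {z | ∃ E : Set X, IsClosed E ∧ IsPreconnected E ∧ u ∈ E ∧ z ∈ E ∧ E ⊆ K ∧ ¬ AL F u E}

theorem Ray_sub {K : Set X} {u : X} : Ray F K u ⊆ K := by
  rintro z ⟨E, -, -, -, hz, hE, -⟩
  exact hE hz

theorem self_mem_Ray [Nontrivial X] (hb : Base F) {K : Set X} {u : X} (hu : u ∈ K) :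
    u ∈ Ray F K u :=
  ⟨{u}, isClosed_singleton, isPreconnected_singleton, rfl, rfl, by
    intro z hz; rw [mem_singleton_iff.1 hz]; exact hu, not_AL_singleton hb u⟩

theorem ray_AL [Nontrivial X] (hb : Base F) {u : X} {K : Set X} (hK : IsClosed K)
    (hKc : IsPreconnected K) (hu : u ∈ interior K) : AL F u (closure (Ray F K u)) := by
  by_contra hcon
  obtain ⟨n, hn, hun⟩ := not_AL hcon
  obtain ⟨m, hm, hmn⟩ := room hb isClosed_closure hn
  have huK : u ∈ K := interior_subset hu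
  have hum : u ∈ F m := interior_subset (hm (subset_closure (self_mem_Ray hb huK)))
  have huE : u ∈ Cp (K ∩ F m) u := mem_Cp (show u ∈ K ∩ F m from ⟨huK, hum⟩)
  have hE : Cp (K ∩ F m) u ⊆ Ray F K u := by
    intro z hz
    refine ⟨Cp (K ∩ F m) u, Cp_closed (hK.inter (hb.cl m)) u,
      isPreconnected_connectedComponentIn, huE, hz, (Cp_sub _ _).trans inter_subset_left, ?_⟩
    intro h
    exact hun (h n (((Cp_sub _ _).trans inter_subset_right).trans hmn))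
  have h1 := BB hK hKc (hb.cl m) huK hum (hE.trans (subset_closure.trans hm))
  apply hun
  exact interior_mono (sub_Cp hKc huK ((h1.trans interior_subset).trans
    (hmn.trans interior_subset))) hu

theorem ray_three (hb : Base F) {u : X} (hu : Gen F u) {K : Set X} {a b c : X}
    (ha : a ∈ Ray F K u) (hb' : b ∈ Ray F K u) (hc : c ∈ Ray F K u) :
    ∃ E : Set X, IsClosed E ∧ IsPreconnected E ∧ u ∈ E ∧ a ∈ E ∧ b ∈ E ∧ c ∈ E ∧ E ⊆ K ∧
      ¬ AL F u E := by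
  obtain ⟨A, a1, a2, a3, a4, a5, a6⟩ := ha
  obtain ⟨B, b1, b2, b3, b4, b5, b6⟩ := hb'
  obtain ⟨C, c1, c2, c3, c4, c5, c6⟩ := hc
  have h1 := claimJ hb hu a1 a2 a3 a6 b1 b2 b3 b6
  have h2 : IsPreconnected (A ∪ B) := IsPreconnected.union u a3 b3 a2 b2
  have h3 := claimJ hb hu (a1.union b1) h2 (Or.inl a3) h1 c1 c2 c3 c6
  exact ⟨A ∪ B ∪ C, (a1.union b1).union c1, IsPreconnected.union u (Or.inl a3) c3 h2 c2,
    Or.inr c3, Or.inl (Or.inl a4), Or.inl (Or.inr b4), Or.inr c4,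
    union_subset (union_subset a5 b5) c5, h3⟩

theorem ray_atmost (hb : Base F) {u : X} (hu : Gen F u) {K O G : Set X} {k : ℕ} (hKG : K ⊆ G)
    (hO : O ⊆ F k) (hOG : ∀ y ∈ O, ¬ Cp (F k) y ⊆ G) (a b c : X)
    (ha : a ∈ Ray F K u ∩ O) (hb' : b ∈ Ray F K u ∩ O) (hc : c ∈ Ray F K u ∩ O) :
    Cp (F k) a = Cp (F k) b ∨ Cp (F k) a = Cp (F k) c ∨ Cp (F k) b = Cp (F k) c := by
  by_contra hcon
  push Not at hcon
  obtain ⟨h1, h2, h3⟩ := hcon
  obtain ⟨E, e1, e2, e3, e4, e5, e6, e7, e8⟩ := ray_three hb hu ha.1 hb'.1 hc.1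
  obtain ⟨n, hn, hun⟩ := not_AL e8
  exact three_strands hb hu e1 e2 e3 hn hun (Cp_closed (hb.cl k) a) (Cp_closed (hb.cl k) b)
    (Cp_closed (hb.cl k) c) isPreconnected_connectedComponentIn
    isPreconnected_connectedComponentIn isPreconnected_connectedComponentIn
    (Cp_disj h1) (Cp_disj h2) (Cp_disj h3)
    ⟨a, e4, mem_Cp (hO ha.2)⟩ ⟨b, e5, mem_Cp (hO hb'.2)⟩ ⟨c, e6, mem_Cp (hO hc.2)⟩
    (fun h => hOG a ha.2 (h.trans (e7.trans hKG)))
    (fun h => hOG b hb'.2 (h.trans (e7.trans hKG)))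
    (fun h => hOG c hc.2 (h.trans (e7.trans hKG)))

theorem ray_strand (hb : Base F) {u : X} (hu : Gen F u) {K O G : Set X} {k : ℕ} (hKG : K ⊆ G)
    (hOo : IsOpen O) (hO : O ⊆ F k) (hOG : ∀ y ∈ O, ¬ Cp (F k) y ⊆ G) {x : X}
    (hx : x ∈ closure (Ray F K u)) (hxO : x ∈ O) :
    ∃ z ∈ Ray F K u ∩ O, Cp (F k) x = Cp (F k) z := by
  have hx' : x ∈ closure (Ray F K u ∩ O) := by
    rw [inter_comm]
    exact hOo.inter_closure ⟨hxO, hx⟩
  obtain ⟨a, ha⟩ : (Ray F K u ∩ O).Nonempty := closure_nonempty_iff.1 ⟨x, hx'⟩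
  by_cases h1 : ∃ b ∈ Ray F K u ∩ O, Cp (F k) a ≠ Cp (F k) b
  · obtain ⟨b, hb', hab⟩ := h1
    have hsub : Ray F K u ∩ O ⊆ Cp (F k) a ∪ Cp (F k) b := by
      intro c hc
      rcases ray_atmost hb hu hKG hO hOG a b c ha hb' hc with h | h | h
      · exact absurd h hab
      · left; rw [h]; exact mem_Cp (hO hc.2)
      · right; rw [h]; exact mem_Cp (hO hc.2)
    rcases closure_minimal hsub ((Cp_closed (hb.cl k) a).union (Cp_closed (hb.cl k) b)) hx'
      with h | h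
    · exact ⟨a, ha, (Cp_eq h).symm⟩
    · exact ⟨b, hb', (Cp_eq h).symm⟩
  · push Not at h1
    have hsub : Ray F K u ∩ O ⊆ Cp (F k) a := by
      intro c hc
      rw [h1 c hc]; exact mem_Cp (hO hc.2)
    exact ⟨a, ha, (Cp_eq (closure_minimal hsub (Cp_closed (hb.cl k) a) hx')).symm⟩

end lemT

section final
variable {X : Type} [TopologicalSpace X] [CompactSpace X] [T2Space X] [SecondCountableTopology X]
  [ConnectedSpace X] [Nontrivial X] {F : ℕ → Set X}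

theorem main_false (hb : Base F) : False := by
  obtain ⟨u₀, -, hu₀⟩ := gen_exists (U := (univ : Set X)) hb.ht hb.cl isOpen_univ univ_nonempty
  obtain ⟨k, hk, huk⟩ := not_AL (not_AL_singleton hb u₀)
  have uk : u₀ ∈ interior (F k) := hk rfl
  obtain ⟨A₁, A₂, ca1, ca2, aa1, aa2, an⟩ := first_pair hb hu₀
  obtain ⟨X₁, X₂, -, -, cl1, cl2, a1, a2, hX⟩ := claim2 hb hu₀ ca1 ca2 aa1 aa2 an
    isOpen_interior uk
  have nX : ¬ AL F u₀ (X₁ ∩ X₂) := fun h => huk (h k hX)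
  have u1 := a1.mem hb cl1
  have u2 := a2.mem hb cl2
  -- points where the strand leaves
  obtain ⟨b₂, hb2, hb2'⟩ := Set.not_subset.1 (reach hb cl2 a2 (interior_subset uk) huk)
  have b2X : b₂ ∈ X₂ := Cp_sub _ _ (Cp_sub _ _ hb2).1
  have b2n : b₂ ∉ X₁ := fun h => hb2' (hX ⟨h, b2X⟩)
  have b2Q : b₂ ∈ Cp (F k) u₀ := Cp_mono inter_subset_right _ hb2
  obtain ⟨b₁, hb1, hb1'⟩ := Set.not_subset.1 (reach hb cl1 a1 (interior_subset uk) huk)
  have b1X : b₁ ∈ X₁ := Cp_sub _ _ (Cp_sub _ _ hb1).1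
  have b1n : b₁ ∉ X₂ := fun h => hb1' (hX ⟨b1X, h⟩)
  have b1Q : b₁ ∈ Cp (F k) u₀ := Cp_mono inter_subset_right _ hb1
  obtain ⟨n₁, hn1, hn1'⟩ := hb.nb X₁ {b₂}ᶜ cl1 isOpen_compl_singleton (by
    intro z hz hzb; rw [mem_singleton_iff.1 hzb] at hz; exact b2n hz)
  obtain ⟨m₁, hm1, hm1'⟩ := hb.nb X₂ {b₁}ᶜ cl2 isOpen_compl_singleton (by
    intro z hz hzb; rw [mem_singleton_iff.1 hzb] at hz; exact b1n hz)
  have o1 : u₀ ∉ Omg F k n₁ := fun h => hn1' (interior_subset (h.2 b2Q)) rfl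
  have o2 : u₀ ∉ Omg F k m₁ := fun h => hm1' (interior_subset (h.2 b1Q)) rfl
  have oo : ∀ n, IsOpen (Omg F k n) := fun n => usc_open (hb.cl k) isOpen_interior
  have o1' := not_closure_of (oo n₁) (hu₀.g4 k n₁) o1
  have o2' := not_closure_of (oo m₁) (hu₀.g4 k m₁) o2
  have o3' := not_closure_of (Og_open F k) (hu₀.g2 k) huk
  set Q : Set X := interior (F k) ∩ (closure (Omg F k n₁))ᶜ ∩ (closure (Omg F k m₁))ᶜ ∩
    (closure (Og F k))ᶜ with hQ
  have hQo : IsOpen Q := ((isOpen_interior.inter isClosed_closure.isOpen_compl).inter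
    isClosed_closure.isOpen_compl).inter isClosed_closure.isOpen_compl
  have hQu : u₀ ∈ Q := ⟨⟨⟨uk, o1'⟩, o2'⟩, o3'⟩
  have Qk : Q ⊆ F k := fun z hz => interior_subset hz.1.1.1
  have Qki : Q ⊆ interior (F k) := fun z hz => hz.1.1.1
  have Q1 : ∀ y ∈ Q, ¬ Cp (F k) y ⊆ interior (F n₁) :=
    fun y hy h => hy.1.1.2 (subset_closure ⟨hy.1.1.1, h⟩)
  have Q2 : ∀ y ∈ Q, ¬ Cp (F k) y ⊆ interior (F m₁) :=
    fun y hy h => hy.1.2 (subset_closure ⟨hy.1.1.1, h⟩)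
  have Q3 : ∀ y ∈ Q, y ∉ interior (Cp (F k) y) := fun y hy h => hy.2 (subset_closure h)
  have Q4 : ∀ y ∈ Q, y ∉ Og F k := fun y hy h => hy.2 (subset_closure h)
  -- first level
  obtain ⟨Y₁, Y₂, hY1, hY2, cy1, cy2, ay1, ay2, hY⟩ := claim2 hb hu₀ cl1 cl2 a1 a2 nX hQo hQu
  obtain ⟨n₂, m₂, hn2, hn2', hm2, hm2', hnm2⟩ := pair_nbhd hb cy1 cy2 hQo
    (isOpen_interior (s := F n₁)) (isOpen_interior (s := F m₁)) hY (hY1.trans hn1) (hY2.trans hm1)
  have uK : u₀ ∈ interior (Cp (F n₂) u₀) := ay1 n₂ hn2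
  have uL : u₀ ∈ interior (Cp (F m₂) u₀) := ay2 m₂ hm2
  set K : Set X := Cp (F n₂) u₀ with hK
  set L : Set X := Cp (F m₂) u₀ with hL
  have Kc : IsClosed K := Cp_closed (hb.cl n₂) u₀
  have Lc : IsClosed L := Cp_closed (hb.cl m₂) u₀
  have Kp : IsPreconnected K := isPreconnected_connectedComponentIn
  have Lp : IsPreconnected L := isPreconnected_connectedComponentIn
  have Kn : K ⊆ F n₂ := Cp_sub _ _
  have Ln : L ⊆ F m₂ := Cp_sub _ _
  have KG : K ⊆ interior (F n₁) := Kn.trans hn2'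
  have hKL : K ∩ L ⊆ Q := (inter_subset_inter Kn Ln).trans hnm2
  obtain ⟨S, hS1, hS2, hS3⟩ := atmost (hb.cl k) Q3 (fun z => z ∈ Ray F K u₀ ∩ Q)
    (fun a b c => ray_atmost hb hu₀ KG Qk Q1 a b c)
  have OO : IsOpen (interior K ∩ interior L) := isOpen_interior.inter isOpen_interior
  have OQ : interior K ∩ interior L ⊆ Q :=
    (inter_subset_inter interior_subset interior_subset).trans hKL
  have hP : IsOpen ((interior K ∩ interior L) \ S) := OO.sdiff hS1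
  obtain ⟨u₁, hu1P, hu₁⟩ := gen_exists hb.ht hb.cl hP (hS2 _ OO OQ ⟨u₀, uK, uL⟩)
  -- second level
  have nKL : ¬ AL F u₁ (K ∩ L) := fun h => Q4 u₁ (OQ hu1P.1) (h k (hKL.trans Qki))
  obtain ⟨Z₁, Z₂, hZ1, hZ2, cz1, cz2, az1, az2, hZ⟩ := claim2 hb hu₁ Kc Lc
    (AL_of_interior Kp hu1P.1.1) (AL_of_interior Lp hu1P.1.2) nKL hP hu1P
  obtain ⟨n₃, m₃, hn3, hn3', hm3, hm3', hnm3⟩ := pair_nbhd hb cz1 cz2 hP
    (isOpen_interior (s := F n₁))
    ((isOpen_interior (s := F m₁)).inter ((hb.cl n₂).sdiff hQo).isOpen_compl) hZ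
    (hZ1.trans KG) (by
      intro z hz
      refine ⟨hm2' (Ln (hZ2 hz)), ?_⟩
      rintro ⟨h1, h2⟩
      exact h2 (hnm2 ⟨h1, Ln (hZ2 hz)⟩))
  have uK1 : u₁ ∈ interior (Cp (F n₃) u₁) := az1 n₃ hn3
  have uL1 : u₁ ∈ interior (Cp (F m₃) u₁) := az2 m₃ hm3
  set K₁ : Set X := Cp (F n₃) u₁ with hK₁
  set L₁ : Set X := Cp (F m₃) u₁ with hL₁
  have K1c : IsClosed K₁ := Cp_closed (hb.cl n₃) u₁
  have L1c : IsClosed L₁ := Cp_closed (hb.cl m₃) u₁
  have K1p : IsPreconnected K₁ := isPreconnected_connectedComponentIn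
  have L1p : IsPreconnected L₁ := isPreconnected_connectedComponentIn
  have K1n : K₁ ⊆ F n₃ := Cp_sub _ _
  have L1n : L₁ ⊆ F m₃ := Cp_sub _ _
  have K1G : K₁ ⊆ interior (F n₁) := K1n.trans hn3'
  have L1G : L₁ ⊆ interior (F m₁) := L1n.trans (hm3'.trans inter_subset_left)
  have hKL1 : K₁ ∩ L₁ ⊆ (interior K ∩ interior L) \ S := (inter_subset_inter K1n L1n).trans hnm3
  have hKL01 : K ∩ L₁ ⊆ Q := by
    rintro z ⟨hz1, hz2⟩
    by_contra hzQ
    exact (hm3' (L1n hz2)).2 ⟨Kn hz1, hzQ⟩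
  obtain ⟨S', hS'1, hS'2, hS'3⟩ := atmost (hb.cl k) Q3 (fun z => z ∈ Ray F K₁ u₁ ∩ Q)
    (fun a b c => ray_atmost hb hu₁ K1G Qk Q1 a b c)
  have O1 : IsOpen (interior K₁ ∩ interior L₁) := isOpen_interior.inter isOpen_interior
  have O1P : interior K₁ ∩ interior L₁ ⊆ (interior K ∩ interior L) \ S :=
    (inter_subset_inter interior_subset interior_subset).trans hKL1
  obtain ⟨v, hv, hvG⟩ := gen_exists hb.ht hb.cl (O1.sdiff hS'1)
    (hS'2 _ O1 (O1P.trans (sdiff_subset.trans OQ)) ⟨u₁, uK1, uL1⟩)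
  have hvP := O1P hv.1
  have hvQ : v ∈ Q := OQ hvP.1
  have hvk : v ∈ Cp (F k) v := mem_Cp (Qk hvQ)
  -- comparison with the first level
  obtain ⟨x, hx1, hx2⟩ := (ray_AL hb Kc Kp uK).meet hb isClosed_closure isClosed_closure
    (ray_AL hb L1c L1p hv.1.2)
  have hxK : x ∈ K := closure_minimal Ray_sub Kc hx1
  have hxL : x ∈ L₁ := closure_minimal Ray_sub L1c hx2
  have hxQ : x ∈ Q := hKL01 ⟨hxK, hxL⟩
  obtain ⟨z, hz, hxz⟩ := ray_strand hb hu₀ KG hQo Qk Q1 hx1 hxQ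
  obtain ⟨z', hz', hxz'⟩ := ray_strand hb hvG L1G hQo Qk Q2 hx2 hxQ
  obtain ⟨y, hy1, hy2⟩ := (ray_AL hb K1c K1p uK1).meet hb isClosed_closure isClosed_closure
    (ray_AL hb L1c L1p hv.1.2)
  have hyK : y ∈ K₁ := closure_minimal Ray_sub K1c hy1
  have hyL : y ∈ L₁ := closure_minimal Ray_sub L1c hy2
  have hyP := hKL1 ⟨hyK, hyL⟩
  have hyQ : y ∈ Q := OQ hyP.1
  obtain ⟨w, hw, hyw⟩ := ray_strand hb hu₁ K1G hQo Qk Q1 hy1 hyQ
  obtain ⟨w', hw', hyw'⟩ := ray_strand hb hvG L1G hQo Qk Q2 hy2 hyQ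
  have hvR : v ∈ Ray F L₁ v ∩ Q := ⟨self_mem_Ray hb (interior_subset hv.1.2), hvQ⟩
  have hzS : Cp (F k) z ⊆ S := hS3 z hz
  rcases ray_atmost hb hvG L1G Qk Q2 z' v w' hz' hvR hw' with h | h | h
  · apply hvP.2
    apply hzS
    rw [← hxz, hxz', h]
    exact hvk
  · apply hyP.2
    apply hzS
    rw [← hxz, hxz', h, ← hyw']
    exact mem_Cp (Qk hyQ)
  · apply hv.2
    apply hS'3 w hw
    rw [← hyw, hyw', ← h]
    exact hvk

end final

section wrap
variable {X : Type} [TopologicalSpace X] [CompactSpace X] [T2Space X] [SecondCountableTopology X]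

theorem exists_family : ∃ F : ℕ → Set X, (∀ n, IsClosed (F n)) ∧
    ∀ K U : Set X, IsClosed K → IsOpen U → K ⊆ U → ∃ n, K ⊆ interior (F n) ∧ F n ⊆ U := by
  set b := TopologicalSpace.countableBasis X with hb
  have hbB : TopologicalSpace.IsTopologicalBasis b := TopologicalSpace.isBasis_countableBasis X
  have hbc : b.Countable := TopologicalSpace.countable_countableBasis X
  set S : Set (Set X) := (fun s : Set (Set X) => closure (⋃₀ s)) '' {s | s.Finite ∧ s ⊆ b} with hS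
  have hSc : S.Countable := (Set.countable_setOf_finite_subset hbc).image _
  have hSn : S.Nonempty := ⟨_, ⟨∅, ⟨Set.finite_empty, empty_subset b⟩, rfl⟩⟩
  obtain ⟨F, hF⟩ := hSc.exists_eq_range hSn
  refine ⟨F, ?_, ?_⟩
  · intro n
    have : F n ∈ S := by rw [hF]; exact mem_range_self n
    obtain ⟨s, -, hs⟩ := this
    rw [← hs]; exact isClosed_closure
  · intro K U hK hU hKU
    have h1 : ∀ x ∈ K, ∃ B ∈ b, x ∈ B ∧ closure B ⊆ U := by
      intro x hx
      obtain ⟨V, hV, hxV, hVU⟩ := exists_shrink hU (hKU hx)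
      obtain ⟨B, hB, hxB, hBV⟩ := hbB.exists_subset_of_mem_open hxV hV
      exact ⟨B, hB, hxB, (closure_mono hBV).trans hVU⟩
    choose! g hg1 hg2 hg3 using h1
    obtain ⟨t, htK, ht⟩ := hK.isCompact.elim_nhds_subcover g
      (fun x hx => (hbB.isOpen (hg1 x hx)).mem_nhds (hg2 x hx))
    have hmem : closure (⋃₀ (g '' (t : Set X))) ∈ S := by
      refine ⟨g '' (t : Set X), ⟨t.finite_toSet.image g, ?_⟩, rfl⟩
      rintro _ ⟨x, hx, rfl⟩
      exact hg1 x (htK x hx)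
    rw [hF] at hmem
    obtain ⟨n, hn⟩ := hmem
    refine ⟨n, ?_, ?_⟩
    · rw [hn]
      have hopen : IsOpen (⋃₀ (g '' (t : Set X))) := by
        apply isOpen_sUnion
        rintro _ ⟨x, hx, rfl⟩
        exact hbB.isOpen (hg1 x (htK x hx))
      refine Subset.trans ?_ (hopen.subset_interior_closure)
      intro z hz
      obtain ⟨x, hx, hzx⟩ := mem_iUnion₂.1 (ht hz)
      exact ⟨g x, ⟨x, hx, rfl⟩, hzx⟩
    · rw [hn, t.finite_toSet.image g |>.closure_sUnion]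
      rintro z hz
      obtain ⟨_, ⟨x, hx, rfl⟩, hzx⟩ := mem_iUnion₂.1 hz
      exact hg3 x (htK x hx) hzx

end wrap

end helpers

/-- Every nondegenerate metric continuum in which any two subcontinua with nonempty interior meet, and which has no weak cut point, contains an uncountable family of pairwise disjoint triods. -/
theorem result :
    ∀ (X : Type) [TopologicalSpace X] [TopologicalSpace.MetrizableSpace X]
      [CompactSpace X] [ConnectedSpace X] [Nontrivial X],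
      (∀ A B : Set X, IsCompact A → IsConnected A → (interior A).Nonempty →
        IsCompact B → IsConnected B → (interior B).Nonempty → (A ∩ B).Nonempty) →
      (¬ ∃ x p q : X, p ≠ x ∧ q ≠ x ∧
        ∀ K : Set X, IsCompact K → IsConnected K → p ∈ K → q ∈ K → x ∈ K) →
      ∃ 𝒯 : Set (Set X), ¬ 𝒯.Countable ∧ 𝒯.PairwiseDisjoint id ∧
        ∀ T ∈ 𝒯, IsCompact T ∧ IsConnected T ∧
          ∃ Z : Set X, Z ⊆ T ∧ IsCompact Z ∧ IsConnected Z ∧
            ∃ A B C : Set X, A.Nonempty ∧ B.Nonempty ∧ C.Nonempty ∧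
              T \ Z = A ∪ B ∪ C ∧
              closure A ∩ B = ∅ ∧ A ∩ closure B = ∅ ∧
              closure A ∩ C = ∅ ∧ A ∩ closure C = ∅ ∧
              closure B ∩ C = ∅ ∧ B ∩ closure C = ∅ := by
  intro X _ _ _ _ _ hsn hnw
  have : SecondCountableTopology X := by
    letI := TopologicalSpace.metrizableSpaceMetric X
    infer_instance
  by_contra hcon
  obtain ⟨F, hF1, hF2⟩ := exists_family (X := X)
  refine main_false (F := F) ⟨hF1, hF2, ?_, ?_, ?_⟩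
  · intro A B a1 a2 a3 b1 b2 b3
    exact hsn A B a1.isCompact a2 a3 b1.isCompact b2 b3
  · intro x p q hp hq
    by_contra hno
    apply hnw
    refine ⟨x, p, q, hp, hq, ?_⟩
    intro K k1 k2 k3 k4
    by_contra k5
    exact hno ⟨K, k1.isClosed, k2.isPreconnected, k3, k4, k5⟩
  · intro S hS hT
    by_contra hc
    exact hcon ⟨S, hc, hS, hT⟩

end Pool.Agent.S08303
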