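import Pool.Statements.S08316

set_option autoImplicit false
open Pool Pool.MP_3dcd8c_gt

namespace Pool.Agent.S08316

open Classical

/-- The uncountable alphabet. -/
abbrev K : Type := Set ℕ
/-- The Baire space of weight continuum, as a set of sequences. -/
abbrev Y : Type := ℕ → K
/-- The index set of the columns. -/
abbrev I : Type := Set (Y × ℕ)
/-- The disjoint union of the columns. -/
abbrev H : Type := I × Y

theorem exists_notMem_of_countable (s : Set K) (hs : s.Countable) : ∃ c, c ∉ s := by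
  by_contra h
  push Not at h
  have hu : s = Set.univ := Set.eq_univ_of_forall h
  subst hu
  have : Countable K := Set.countable_univ_iff.mp hs
  obtain ⟨f, hf⟩ := exists_surjective_nat K
  exact Function.cantor_surjective f hf

/-- Agreement below `n`. -/
def Agree (n : ℕ) (f g : Y) : Prop := ∀ k, k < n → f k = g k

theorem Agree.symm {n : ℕ} {f g : Y} (h : Agree n f g) : Agree n g f := fun k hk => (h k hk).symm

theorem Agree.trans {n : ℕ} {f g e : Y} (h : Agree n f g) (h' : Agree n g e) : Agree n f e :=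
  fun k hk => (h k hk).trans (h' k hk)

theorem Agree.mono {m n : ℕ} {f g : Y} (hmn : m ≤ n) (h : Agree n f g) : Agree m f g :=
  fun k hk => h k (lt_of_lt_of_le hk hmn)

/-- The sets that can be avoided by avoiding countably many values at each step. -/
def Small (O : Set Y) : Prop :=
  ∃ a : ℕ → Y → Set K, (∀ n f, (a n f).Countable) ∧
    (∀ n f g, Agree n f g → a n f = a n g) ∧ ∀ f ∈ O, ∃ n, f n ∈ a n f

theorem exists_avoid {ι : Type} [Countable ι] (O : ι → Set Y) (h : ∀ i, Small (O i)) :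
    ∃ f : Y, ∀ i, f ∉ O i := by
  choose a ha1 ha2 ha3 using h
  have hb : ∀ n f, (⋃ i, a i n f).Countable := fun n f => Set.countable_iUnion fun i => ha1 i n f
  choose c hc using fun n f => exists_notMem_of_countable _ (hb n f)
  let F : ℕ → Y := fun n => Nat.rec (fun _ => ∅) (fun n g => Function.update g n (c n g)) n
  have hF : ∀ n, F (n + 1) = Function.update (F n) n (c n (F n)) := fun n => rfl
  let f : Y := fun n => F (n + 1) n
  have hf : ∀ n, f n = c n (F n) := by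
    intro n
    simp only [f, hF, Function.update_self]
  have hstab : ∀ n k, k < n → F n k = f k := by
    intro n
    induction n with
    | zero => intro k hk; omega
    | succ n ih =>
      intro k hk
      rcases Nat.lt_succ_iff_lt_or_eq.mp hk with h | h
      · rw [hF, Function.update_of_ne (by omega)]
        exact ih k h
      · subst h; rfl
  refine ⟨f, fun i hi => ?_⟩
  obtain ⟨n, hn⟩ := ha3 i f hi
  have hag : Agree n f (F n) := fun k hk => (hstab n k hk).symm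
  rw [ha2 i n f (F n) hag, hf n] at hn
  exact hc n (F n) (Set.mem_iUnion.mpr ⟨i, hn⟩)

/-- Two points of the same column that agree below `n`. -/
def Near (n : ℕ) (p q : H) : Prop := p.1 = q.1 ∧ Agree n p.2 q.2

theorem Near.refl (n : ℕ) (p : H) : Near n p p := ⟨rfl, fun _ _ => rfl⟩

theorem Near.symm {n : ℕ} {p q : H} (h : Near n p q) : Near n q p := ⟨h.1.symm, h.2.symm⟩

theorem Near.trans {n : ℕ} {p q s : H} (h : Near n p q) (h' : Near n q s) : Near n p s :=
  ⟨h.1.trans h'.1, h.2.trans h'.2⟩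

theorem Near.mono {m n : ℕ} {p q : H} (hmn : m ≤ n) (h : Near n p q) : Near m p q :=
  ⟨h.1, h.2.mono hmn⟩

theorem exists_not_near {p q : H} (h : p ≠ q) : ∃ n, ¬ Near n p q := by
  by_contra hc
  push Not at hc
  apply h
  refine Prod.ext (hc 0).1 (funext fun k => (hc (k + 1)).2 k (Nat.lt_succ_self k))

/-- The basic neighbourhoods in a column. -/
def cyl (p : H) (n : ℕ) : Set H := {q | Near n p q}

/-- Admissible sets: open, with small sections. -/
structure Adm where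
  carrier : Set H
  isOpen' : ∀ q ∈ carrier, ∃ n, cyl q n ⊆ carrier
  small : ∀ i, Small {g | (i, g) ∈ carrier}

/-- The isolated points of the example. -/
structure Edge where
  x : H
  y : H
  r : Finset Adm
  s : Finset Adm
  ne : x.1 ≠ y.1
  compat : ∀ O, O ∈ r → O ∈ s → x ∉ O.carrier ∧ y ∉ O.carrier

/-- The example. -/
inductive X : Type
  | pt (p : H) : X
  | ed (e : Edge) : X

/-- The set of points determined by a subset of `H` and a finite set of admissible sets. -/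
def nb (C : Set H) (t : Finset Adm) : Set X := {z | match z with
  | .pt q => q ∈ C
  | .ed e => (e.x ∈ C ∧ t ⊆ e.r) ∨ (e.y ∈ C ∧ t ⊆ e.s)}

@[simp] theorem pt_mem_nb {C : Set H} {t : Finset Adm} {q : H} : X.pt q ∈ nb C t ↔ q ∈ C := Iff.rfl

@[simp] theorem ed_mem_nb {C : Set H} {t : Finset Adm} {e : Edge} :
    X.ed e ∈ nb C t ↔ (e.x ∈ C ∧ t ⊆ e.r) ∨ (e.y ∈ C ∧ t ⊆ e.s) := Iff.rfl

theorem nb_mono {C D : Set H} {s t : Finset Adm} (hCD : C ⊆ D) (hst : t ⊆ s) : nb C s ⊆ nb D t := by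
  rintro (q | e) h
  · exact hCD h
  · rcases h with h | h
    · exact Or.inl ⟨hCD h.1, hst.trans h.2⟩
    · exact Or.inr ⟨hCD h.1, hst.trans h.2⟩

theorem cyl_anti (p : H) {m n : ℕ} (h : m ≤ n) : cyl p n ⊆ cyl p m := fun _ hq => hq.mono h

theorem mem_cyl_self (p : H) (n : ℕ) : p ∈ cyl p n := Near.refl n p

theorem cyl_eq {p q : H} {n : ℕ} (h : q ∈ cyl p n) : cyl q n = cyl p n := by
  ext s
  exact ⟨fun hs => Near.trans h hs, fun hs => Near.trans (Near.symm h) hs⟩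

instance : TopologicalSpace X where
  IsOpen U := ∀ p, X.pt p ∈ U → ∃ n t, nb (cyl p n) t ⊆ U
  isOpen_univ := fun p _ => ⟨0, ∅, Set.subset_univ _⟩
  isOpen_inter := by
    intro U V hU hV p hp
    obtain ⟨n, t, hn⟩ := hU p hp.1
    obtain ⟨m, s, hm⟩ := hV p hp.2
    refine ⟨max n m, t ∪ s, Set.subset_inter ?_ ?_⟩
    · exact (nb_mono (cyl_anti p (le_max_left n m)) Finset.subset_union_left).trans hn
    · exact (nb_mono (cyl_anti p (le_max_right n m)) Finset.subset_union_right).trans hm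
  isOpen_sUnion := by
    intro 𝒰 h𝒰 p hp
    obtain ⟨U, hU, hpU⟩ := hp
    obtain ⟨n, t, hn⟩ := h𝒰 U hU p hpU
    exact ⟨n, t, hn.trans (Set.subset_sUnion_of_mem hU)⟩

theorem isOpen_iff' {U : Set X} : IsOpen U ↔ ∀ p, X.pt p ∈ U → ∃ n t, nb (cyl p n) t ⊆ U := Iff.rfl

theorem isOpen_nb {C : Set H} (hC : ∀ q ∈ C, ∃ n, cyl q n ⊆ C) (t : Finset Adm) :
    IsOpen (nb C t) := by
  intro p hp
  obtain ⟨n, hn⟩ := hC p hp
  exact ⟨n, t, nb_mono hn (Finset.Subset.refl t)⟩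

theorem cyl_open (p : H) (n : ℕ) : ∀ q ∈ cyl p n, ∃ m, cyl q m ⊆ cyl p n :=
  fun _ hq => ⟨n, (cyl_eq hq).subset⟩

theorem isOpen_nb_cyl (p : H) (n : ℕ) (t : Finset Adm) : IsOpen (nb (cyl p n) t) :=
  isOpen_nb (cyl_open p n) t

theorem nb_mem_nhds (p : H) (n : ℕ) (t : Finset Adm) : nb (cyl p n) t ∈ nhds (X.pt p) :=
  (isOpen_nb_cyl p n t).mem_nhds (mem_cyl_self p n)

theorem exists_nb_of_mem_nhds {p : H} {N : Set X} (hN : N ∈ nhds (X.pt p)) :
    ∃ n t, nb (cyl p n) t ⊆ N := by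
  obtain ⟨U, hUN, hU, hp⟩ := mem_nhds_iff.mp hN
  obtain ⟨n, t, h⟩ := hU p hp
  exact ⟨n, t, h.trans hUN⟩

theorem isOpen_ed (e : Edge) : IsOpen ({X.ed e} : Set X) := by
  intro p hp
  simp at hp

/-- The admissible set of all points with a given first coordinate. -/
def fst (c : K) : Adm where
  carrier := {q | q.2 0 = c}
  isOpen' := by
    intro q hq
    refine ⟨1, fun s hs => ?_⟩
    have h0 := hs.2 0 Nat.zero_lt_one
    change s.2 0 = c
    rw [← h0]
    exact hq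
  small := by
    intro i
    refine ⟨fun _ _ => {c}, fun _ _ => Set.countable_singleton c, fun _ _ _ _ => rfl, ?_⟩
    intro f hf
    exact ⟨0, hf⟩

theorem fst_injective : Function.Injective fst := by
  intro c d h
  have h1 : (fst c).carrier = (fst d).carrier := by rw [h]
  have h2 : ((∅, fun _ => c) : H) ∈ (fst c).carrier := rfl
  rw [h1] at h2
  exact h2

instance : Infinite Adm := by
  exact Infinite.of_injective fst fst_injective

theorem isClosed_ed (e : Edge) : IsClosed ({X.ed e} : Set X) := by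
  constructor
  intro p _
  obtain ⟨O, hO⟩ := Infinite.exists_notMem_finset (e.r ∪ e.s)
  refine ⟨0, {O}, ?_⟩
  intro z hz hze
  rw [Set.mem_singleton_iff] at hze
  subst hze
  simp only [Finset.mem_union, not_or] at hO
  rcases hz with h | h
  · exact hO.1 (h.2 (Finset.mem_singleton_self O))
  · exact hO.2 (h.2 (Finset.mem_singleton_self O))

theorem isClosed_nb_cyl (p : H) (n : ℕ) (hn : 1 ≤ n) (t : Finset Adm) (ht : fst (p.2 0) ∈ t) :
    IsClosed (nb (cyl p n) t) := by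
  constructor
  intro q hq
  have hq' : ¬ Near n p q := fun h => hq h
  refine ⟨n, {fst (p.2 0)}, ?_⟩
  have key : ∀ x : H, Near n p x → x ∈ (fst (p.2 0)).carrier := by
    intro x hx
    exact (hx.2 0 hn).symm
  rintro (z | e) hz hzc
  · exact hq' (Near.trans hzc (Near.symm hz))
  · rcases hz with h | h <;> rcases hzc with h' | h'
    · exact hq' (Near.trans h'.1 (Near.symm h.1))
    · have h1 := (e.compat (fst (p.2 0)) (h.2 (Finset.mem_singleton_self _)) (h'.2 ht)).2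
      exact h1 (key _ h'.1)
    · have h1 := (e.compat (fst (p.2 0)) (h'.2 ht) (h.2 (Finset.mem_singleton_self _))).1
      exact h1 (key _ h'.1)
    · exact hq' (Near.trans h'.1 (Near.symm h.1))

instance : RegularSpace X := by
  apply RegularSpace.of_exists_mem_nhds_isClosed_subset
  rintro (p | e) s hs
  · obtain ⟨n, t, h⟩ := exists_nb_of_mem_nhds hs
    refine ⟨nb (cyl p (max n 1)) (insert (fst (p.2 0)) t), nb_mem_nhds _ _ _,
      isClosed_nb_cyl p _ (le_max_right n 1) _ (Finset.mem_insert_self _ _), ?_⟩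
    exact (nb_mono (cyl_anti p (le_max_left n 1)) (Finset.subset_insert _ _)).trans h
  · refine ⟨{X.ed e}, (isOpen_ed e).mem_nhds rfl, isClosed_ed e, ?_⟩
    rw [Set.singleton_subset_iff]
    exact mem_of_mem_nhds hs

instance : T0Space X := by
  constructor
  intro a b hab
  have hopen := inseparable_iff_forall_isOpen.mp hab
  rcases a with p | e
  · rcases b with q | e'
    · by_contra hne
      have hpq : p ≠ q := fun h => hne (by rw [h])
      obtain ⟨n, hn⟩ := exists_not_near hpq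
      exact hn ((hopen _ (isOpen_nb_cyl p n ∅)).mp (mem_cyl_self p n))
    · have := (hopen _ (isOpen_ed e')).mpr rfl
      exact this
  · have := (hopen _ (isOpen_ed e)).mp rfl
    exact (Set.mem_singleton_iff.mp this).symm

instance : T3Space X where

theorem metacompact (𝒰 : Set (Set X)) (hopen : ∀ U ∈ 𝒰, IsOpen U) (hcov : ⋃₀ 𝒰 = Set.univ) :
    ∃ 𝒱 : Set (Set X), (∀ V ∈ 𝒱, IsOpen V) ∧ ⋃₀ 𝒱 = Set.univ ∧
      (∀ V ∈ 𝒱, ∃ U ∈ 𝒰, V ⊆ U) ∧
      ∀ x : X, {V : Set X | V ∈ 𝒱 ∧ x ∈ V}.Finite := by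
  have h1 : ∀ p : H, ∃ n, ∃ t, ∃ U ∈ 𝒰, nb (cyl p n) t ⊆ U := by
    intro p
    have hp : X.pt p ∈ ⋃₀ 𝒰 := by rw [hcov]; trivial
    obtain ⟨U, hU, hp⟩ := hp
    obtain ⟨n, t, h⟩ := isOpen_iff'.mp (hopen U hU) p hp
    exact ⟨n, t, U, hU, h⟩
  let P : Set H → Prop := fun C => ∃ t, ∃ U ∈ 𝒰, nb C t ⊆ U
  let T : Set H → Finset Adm := fun C => if h : P C then h.choose else ∅
  have hT : ∀ C, P C → ∃ U ∈ 𝒰, nb C (T C) ⊆ U := by
    intro C hC
    simp only [T, dif_pos hC]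
    exact hC.choose_spec
  let D : H → Set H := fun p => cyl p (Nat.find (h1 p))
  have hDP : ∀ p, P (D p) := fun p => Nat.find_spec (h1 p)
  have hD : ∀ p q, q ∈ D p → D q = D p := by
    intro p q hq
    have hle : Nat.find (h1 q) ≤ Nat.find (h1 p) := by
      apply Nat.find_min'
      rw [cyl_eq hq]
      exact Nat.find_spec (h1 p)
    have hq' : q ∈ cyl p (Nat.find (h1 q)) := cyl_anti p hle hq
    have hge : Nat.find (h1 p) ≤ Nat.find (h1 q) := by
      apply Nat.find_min'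
      rw [← cyl_eq hq']
      exact Nat.find_spec (h1 q)
    have heq : Nat.find (h1 q) = Nat.find (h1 p) := le_antisymm hle hge
    change cyl q (Nat.find (h1 q)) = cyl p (Nat.find (h1 p))
    rw [heq]
    exact cyl_eq hq
  refine ⟨{V | (∃ p, V = nb (D p) (T (D p))) ∨ ∃ e, V = {X.ed e}}, ?_, ?_, ?_, ?_⟩
  · rintro V (⟨p, rfl⟩ | ⟨e, rfl⟩)
    · exact isOpen_nb_cyl _ _ _
    · exact isOpen_ed e
  · apply Set.eq_univ_of_forall
    rintro (p | e)
    · exact ⟨nb (D p) (T (D p)), Or.inl ⟨p, rfl⟩, mem_cyl_self _ _⟩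
    · exact ⟨{X.ed e}, Or.inr ⟨e, rfl⟩, rfl⟩
  · rintro V (⟨p, rfl⟩ | ⟨e, rfl⟩)
    · exact hT _ (hDP p)
    · have he : X.ed e ∈ ⋃₀ 𝒰 := by rw [hcov]; trivial
      obtain ⟨U, hU, he⟩ := he
      exact ⟨U, hU, Set.singleton_subset_iff.mpr he⟩
  · rintro (q | e)
    · apply (Set.finite_singleton (nb (D q) (T (D q)))).subset
      rintro V ⟨⟨p, rfl⟩ | ⟨e, rfl⟩, hV⟩
      · rw [Set.mem_singleton_iff, hD p q hV]
      · simp at hV
    · apply (Set.toFinite {nb (D e.x) (T (D e.x)), nb (D e.y) (T (D e.y)), {X.ed e}}).subset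
      rintro V ⟨⟨p, rfl⟩ | ⟨e', rfl⟩, hV⟩
      · rcases hV with h | h
        · rw [hD p e.x h.1]; simp
        · rw [hD p e.y h.1]; simp
      · rw [Set.mem_singleton_iff] at hV
        rw [← hV]; simp

theorem slcwh (𝓕 : Set (Set X)) (hF : ∀ F ∈ 𝓕, IsClosed F ∧ IsLindelof F)
    (hdisc : ∀ x : X, ∃ N ∈ nhds x, {F : Set X | F ∈ 𝓕 ∧ (F ∩ N).Nonempty}.Subsingleton) :
    ∃ U : Set X → Set X,
      (∀ F ∈ 𝓕, IsOpen (U F) ∧ F ⊆ U F) ∧
      (∀ F ∈ 𝓕, ∀ G ∈ 𝓕, F ≠ G → Disjoint (U F) (U G)) := by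
  -- the values at `n` of the points of the union of the family near `q`
  let P : Set H := {p | ∃ F ∈ 𝓕, X.pt p ∈ F}
  let C : ℕ → H → Set K := fun n q => {c | ∃ p ∈ P, Near n q p ∧ p.2 n = c}
  have hC : ∀ n q q', Near n q q' → C n q = C n q' := by
    intro n q q' h
    ext c
    constructor
    · rintro ⟨p, hp, hn, hc⟩
      exact ⟨p, hp, h.symm.trans hn, hc⟩
    · rintro ⟨p, hp, hn, hc⟩
      exact ⟨p, hp, h.trans hn, hc⟩
  have hsep : ∀ F ∈ 𝓕, ∀ p, X.pt p ∈ F → ∃ n, ∀ G ∈ 𝓕, ∀ q ∈ cyl p n, X.pt q ∈ G → G = F := by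
    intro F hF' p hp
    obtain ⟨N, hN, hsub⟩ := hdisc (X.pt p)
    obtain ⟨n, t, hn⟩ := exists_nb_of_mem_nhds hN
    refine ⟨n, fun G hG q hq hqG => ?_⟩
    exact hsub ⟨hG, X.pt q, hqG, hn hq⟩ ⟨hF', X.pt p, hp, mem_of_mem_nhds hN⟩
  have hlin : ∀ F ∈ 𝓕, ∀ n : ℕ, {c : K | ∃ q : H, X.pt q ∈ F ∧ q.2 n = c}.Countable := by
    intro F hF' n
    have hG : ∀ c : K, IsOpen (nb {q : H | q.2 n = c} ∅) := by
      intro c
      apply isOpen_nb
      intro q hq
      refine ⟨n + 1, fun s hs => ?_⟩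
      have h0 := hs.2 n (Nat.lt_succ_self n)
      change s.2 n = c
      rw [← h0]
      exact hq
    have hcov : F ⊆ ⋃ c : K, nb {q : H | q.2 n = c} ∅ := by
      rintro (q | e) _
      · exact Set.mem_iUnion.mpr ⟨q.2 n, rfl⟩
      · exact Set.mem_iUnion.mpr ⟨e.x.2 n, Or.inl ⟨rfl, Finset.empty_subset _⟩⟩
    obtain ⟨r, hr, hrc⟩ := (hF F hF').2.elim_countable_subcover _ hG hcov
    apply hr.mono
    rintro c ⟨q, hq, rfl⟩
    have := hrc hq
    simp only [Set.mem_iUnion] at this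
    obtain ⟨c', hc', hqc⟩ := this
    have h2 : q.2 n = c' := hqc
    rw [h2]
    exact hc'
  have hPn : ∀ p ∈ P, ∃ n, (C n p).Countable := by
    rintro p ⟨F, hF', hp⟩
    obtain ⟨n, hn⟩ := hsep F hF' p hp
    refine ⟨n, (hlin F hF' n).mono ?_⟩
    rintro c ⟨q, ⟨G, hG, hqG⟩, hnear, hc⟩
    have hGF := hn G hG q hnear hqG
    subst hGF
    exact ⟨q, hqG, hc⟩
  let O : Adm :=
    { carrier := {q | ∃ n, (C n q).Countable ∧ ∃ p ∈ P, Near (n + 1) q p}
      isOpen' := by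
        rintro q ⟨n, hn, p, hp, hqp⟩
        refine ⟨n + 1, fun s hs => ⟨n, ?_, p, hp, ?_⟩⟩
        · rw [← hC n q s (Near.mono (Nat.le_succ n) hs)]
          exact hn
        · exact (Near.symm hs).trans hqp
      small := by
        intro i
        refine ⟨fun n f => {c | (C n (i, f)).Countable ∧ c ∈ C n (i, f)}, ?_, ?_, ?_⟩
        · intro n f
          by_cases h : (C n (i, f)).Countable
          · exact h.mono fun c hc => hc.2
          · have : {c | (C n (i, f)).Countable ∧ c ∈ C n (i, f)} = ∅ := by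
              ext c
              simp [h]
            simp only [this]
            exact Set.countable_empty
        · intro n f g hfg
          have : C n (i, f) = C n (i, g) := hC n (i, f) (i, g) ⟨rfl, hfg⟩
          simp only [this]
        · rintro f ⟨n, hn, p, hp, hfp⟩
          exact ⟨n, hn, p, hp, hfp.mono (Nat.le_succ n), (hfp.2 n (Nat.lt_succ_self n)).symm⟩ }
  have hPO : P ⊆ O.carrier := by
    intro p hp
    obtain ⟨n, hn⟩ := hPn p hp
    exact ⟨n, hn, p, hp, Near.refl _ _⟩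
  let U' : Set X → Set X := fun F => {x | ∃ p n, X.pt p ∈ F ∧ cyl p n ⊆ O.carrier ∧
    (∀ G ∈ 𝓕, ∀ q ∈ cyl p n, X.pt q ∈ G → G = F) ∧ x ∈ nb (cyl p n) {O}}
  let R : Set X → Set X := fun F => ⋃₀ {G | G ∈ 𝓕 ∧ G ≠ F}
  have hR : ∀ F, IsClosed (R F) := by
    intro F
    constructor
    intro p hp
    obtain ⟨N, hN, hsub⟩ := hdisc (X.pt p)
    by_cases hex : ∃ G ∈ 𝓕, G ≠ F ∧ (G ∩ N).Nonempty
    · obtain ⟨G, hG, hGF, hGN⟩ := hex
      have hpG : X.pt p ∉ G := fun h => hp ⟨G, ⟨hG, hGF⟩, h⟩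
      have hN' : N ∩ Gᶜ ∈ nhds (X.pt p) :=
        Filter.inter_mem hN ((hF G hG).1.isOpen_compl.mem_nhds hpG)
      obtain ⟨n, t, hn⟩ := exists_nb_of_mem_nhds hN'
      refine ⟨n, t, ?_⟩
      rintro z hz ⟨G', ⟨hG', hGF'⟩, hzG'⟩
      have hz' := hn hz
      have : G' = G := hsub ⟨hG', z, hzG', hz'.1⟩ ⟨hG, hGN⟩
      subst this
      exact hz'.2 hzG'
    · obtain ⟨n, t, hn⟩ := exists_nb_of_mem_nhds hN
      refine ⟨n, t, ?_⟩
      rintro z hz ⟨G', ⟨hG', hGF'⟩, hzG'⟩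
      exact hex ⟨G', hG', hGF', z, hzG', hn hz⟩
  have hdisj : ∀ F ∈ 𝓕, ∀ G ∈ 𝓕, ∀ x, x ∈ F → x ∈ G → F = G := by
    intro F hF' G hG x hx hx'
    obtain ⟨N, hN, hsub⟩ := hdisc x
    exact hsub ⟨hF', x, hx, mem_of_mem_nhds hN⟩ ⟨hG, x, hx', mem_of_mem_nhds hN⟩
  have hUU : ∀ F ∈ 𝓕, ∀ G ∈ 𝓕, F ≠ G → ∀ x, x ∈ U' F → x ∉ U' G := by
    intro F hF' G hG hne x hx hx'
    obtain ⟨p, n, hpF, hpO, hps, hxp⟩ := hx
    obtain ⟨q, m, hqG, hqO, hqs, hxq⟩ := hx'
    have key : ∀ z, z ∈ cyl p n → z ∈ cyl q m → False := by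
      intro z hz hz'
      rcases le_total n m with h | h
      · have h3 : q ∈ cyl p n := Near.trans hz (Near.symm (Near.mono h hz'))
        exact hne (hps G hG q h3 hqG).symm
      · have h3 : p ∈ cyl q m := Near.trans hz' (Near.symm (Near.mono h hz))
        exact hne (hqs F hF' p h3 hpF)
    rcases x with z | e
    · exact key z hxp hxq
    · rcases hxp with h | h <;> rcases hxq with h' | h'
      · exact key _ h.1 h'.1
      · exact (e.compat O (h.2 (Finset.mem_singleton_self _))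
          (h'.2 (Finset.mem_singleton_self _))).1 (hpO h.1)
      · exact (e.compat O (h'.2 (Finset.mem_singleton_self _))
          (h.2 (Finset.mem_singleton_self _))).2 (hpO h.1)
      · exact key _ h.1 h'.1
  refine ⟨fun F => (U' F ∪ {x | x ∈ F ∧ ∃ e, x = X.ed e}) \ R F, ?_, ?_⟩
  · intro F hF'
    constructor
    · apply IsOpen.sdiff _ (hR F)
      apply IsOpen.union
      · rintro q ⟨p, n, hpF, hpO, hps, hq⟩
        refine ⟨n, {O}, fun z hz => ⟨p, n, hpF, hpO, hps, ?_⟩⟩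
        rw [cyl_eq (p := p) (q := q) hq] at hz
        exact hz
      · rintro q ⟨_, e, he⟩
        exact absurd he (by simp)
    · intro x hx
      refine ⟨?_, ?_⟩
      · rcases x with p | e
        · left
          obtain ⟨n, hn⟩ := O.isOpen' p (hPO ⟨F, hF', hx⟩)
          obtain ⟨m, hm⟩ := hsep F hF' p hx
          refine ⟨p, max n m, hx, (cyl_anti p (le_max_left n m)).trans hn, ?_, mem_cyl_self _ _⟩
          intro G hG q hq hqG
          exact hm G hG q (cyl_anti p (le_max_right n m) hq) hqG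
        · right
          exact ⟨hx, e, rfl⟩
      · rintro ⟨G, ⟨hG, hGF⟩, hxG⟩
        exact hGF (hdisj G hG F hF' x hxG hx)
  · intro F hF' G hG hne
    rw [Set.disjoint_left]
    rintro x ⟨hx, hxR⟩ ⟨hx', hxR'⟩
    rcases hx with hx | hx
    · rcases hx' with hx' | hx'
      · exact hUU F hF' G hG hne x hx hx'
      · exact hxR ⟨G, ⟨hG, hne.symm⟩, hx'.1⟩
    · exact hxR' ⟨F, ⟨hF', hne⟩, hx.1⟩

theorem not_paraLindelof :
    ¬ (∀ 𝒰 : Set (Set X), (∀ U ∈ 𝒰, IsOpen U) → ⋃₀ 𝒰 = Set.univ →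
        ∃ 𝒱 : Set (Set X), (∀ V ∈ 𝒱, IsOpen V) ∧ ⋃₀ 𝒱 = Set.univ ∧
          (∀ V ∈ 𝒱, ∃ U ∈ 𝒰, V ⊆ U) ∧
          ∀ x : X, ∃ N ∈ nhds x, {V : Set X | V ∈ 𝒱 ∧ (V ∩ N).Nonempty}.Countable) := by
  intro hpl
  obtain ⟨𝒱, hVo, hVc, hVr, hVl⟩ := hpl {U | ∃ i : I, U = nb {q : H | q.1 = i} ∅} (by
    rintro U ⟨i, rfl⟩
    apply isOpen_nb
    intro q hq
    exact ⟨0, fun s hs => by
      have := hs.1
      change s.1 = i
      rw [← this]
      exact hq⟩) (by
    apply Set.eq_univ_of_forall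
    rintro (q | e)
    · exact ⟨_, ⟨q.1, rfl⟩, rfl⟩
    · exact ⟨_, ⟨e.x.1, rfl⟩, Or.inl ⟨rfl, Finset.empty_subset _⟩⟩)
  have hW : ∀ p : H, ∃ W ∈ 𝒱, X.pt p ∈ W := by
    intro p
    have : X.pt p ∈ ⋃₀ 𝒱 := by rw [hVc]; trivial
    obtain ⟨W, hW, hp⟩ := this
    exact ⟨W, hW, hp⟩
  choose W hWV hpW using hW
  have hWcol : ∀ p q : H, X.pt q ∈ W p → q.1 = p.1 := by
    intro p q hq
    obtain ⟨U, ⟨i, rfl⟩, hU⟩ := hVr (W p) (hWV p)
    have h1 : p.1 = i := hU (hpW p)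
    have h2 : q.1 = i := hU hq
    rw [h1, h2]
  choose N hN hNc using hVl
  have hB : ∀ p : H, ∃ n t, nb (cyl p n) t ⊆ N (X.pt p) ∩ W p := by
    intro p
    exact exists_nb_of_mem_nhds (Filter.inter_mem (hN _) ((hVo _ (hWV p)).mem_nhds (hpW p)))
  choose n r hr using hB
  -- compatible points
  let Cp : H → H → Prop := fun p q => p.1 ≠ q.1 ∧
    ∀ O, O ∈ r p → O ∈ r q → p ∉ O.carrier ∧ q ∉ O.carrier
  have hJ : ∀ p : H, {j : I | ∃ g : Y, Cp p (j, g)}.Countable := by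
    intro p
    have hcount := hNc (X.pt p)
    let S := {j : I | ∃ g : Y, Cp p (j, g)}
    have hg : ∀ j : S, ∃ g : Y, Cp p (j.1, g) := fun j => j.2
    choose g hg using hg
    have hmem : ∀ j : S, W (j.1, g j) ∈ {V : Set X | V ∈ 𝒱 ∧ (V ∩ N (X.pt p)).Nonempty} := by
      intro j
      refine ⟨hWV _, ?_⟩
      let e : Edge := ⟨p, (j.1, g j), r p, r (j.1, g j), (hg j).1, (hg j).2⟩
      refine ⟨X.ed e, ?_, ?_⟩
      · exact (hr (j.1, g j) (Or.inr ⟨mem_cyl_self _ _, Finset.Subset.refl _⟩)).2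
      · exact (hr p (Or.inl ⟨mem_cyl_self _ _, Finset.Subset.refl _⟩)).1
    have hinj : Function.Injective (fun j : S => (⟨W (j.1, g j), hmem j⟩ :
        {V : Set X | V ∈ 𝒱 ∧ (V ∩ N (X.pt p)).Nonempty})) := by
      intro j k hjk
      have h1 : W (j.1, g j) = W (k.1, g k) := congrArg Subtype.val hjk
      have h2 : X.pt (j.1, g j) ∈ W (k.1, g k) := by rw [← h1]; exact hpW _
      exact Subtype.ext (hWcol _ _ h2)
    have := hcount.to_subtype
    exact Set.countable_coe_iff.mp hinj.countable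
  -- choose a column not seen from the column `∅`
  have hj : ∃ j : I, j ≠ ∅ ∧ ∀ f : Y, ¬ ∃ g : Y, Cp (∅, f) (j, g) := by
    by_contra hcon
    push Not at hcon
    have henum : ∀ f : Y, ∃ h : ℕ → I, {j : I | ∃ g : Y, Cp (∅, f) (j, g)} ∪ {∅} ⊆ Set.range h := by
      intro f
      have hc : ({j : I | ∃ g : Y, Cp (∅, f) (j, g)} ∪ {∅}).Countable :=
        (hJ (∅, f)).union (Set.countable_singleton _)
      obtain ⟨h, hh⟩ := hc.exists_eq_range ⟨∅, Or.inr rfl⟩
      exact ⟨h, hh.subset⟩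
    choose h hh using henum
    apply Function.cantor_surjective (fun z : Y × ℕ => h z.1 z.2)
    intro j
    by_cases hj0 : j = ∅
    · obtain ⟨k, hk⟩ := hh (fun _ => ∅) (Or.inr hj0)
      exact ⟨(_, k), hk⟩
    · obtain ⟨f, g, hfg⟩ := hcon j (Set.nonempty_iff_ne_empty.mpr hj0)
      obtain ⟨k, hk⟩ := hh f (Or.inl ⟨g, hfg⟩)
      exact ⟨(f, k), hk⟩
  obtain ⟨j, hj0, hjf⟩ := hj
  -- a sequence in the column `j`
  have hstep : ∀ L : List Y, ∃ g : Y, ∀ g' ∈ L, ∀ O ∈ r (j, g'), (j, g) ∉ O.carrier := by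
    intro L
    let B : Set Adm := {O | ∃ g' ∈ L, O ∈ r (j, g')}
    have hBc : B.Countable := by
      have : B = ⋃ g' ∈ {g' | g' ∈ L}, (r (j, g') : Set Adm) := by
        ext O
        simp [B]
      rw [this]
      exact (List.finite_toSet L).countable.biUnion fun g' _ => (r (j, g')).countable_toSet
    have := hBc.to_subtype
    obtain ⟨g, hg⟩ := exists_avoid (fun O : B => {g | (j, g) ∈ O.1.carrier}) fun O => O.1.small j
    exact ⟨g, fun g' hg' O hO => hg ⟨O, g', hg', hO⟩⟩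
  choose gg hgg using hstep
  let L : ℕ → List Y := fun k => Nat.rec [] (fun _ l => gg l :: l) k
  have hL : ∀ k, L (k + 1) = gg (L k) :: L k := fun k => rfl
  let g : ℕ → Y := fun k => gg (L k)
  have hmemL : ∀ k m, m < k → g m ∈ L k := by
    intro k
    induction k with
    | zero => intro m hm; omega
    | succ k ih =>
      intro m hm
      rw [hL]
      rcases Nat.lt_succ_iff_lt_or_eq.mp hm with h | h
      · exact List.mem_cons_of_mem _ (ih m h)
      · subst h; exact List.mem_cons_self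
  have hg : ∀ k m, m < k → ∀ O ∈ r (j, g m), (j, g k) ∉ O.carrier := by
    intro k m hmk
    exact hgg (L k) (g m) (hmemL k m hmk)
  -- a point of the column `∅`
  let R : Set Adm := ⋃ k, (r (j, g k) : Set Adm)
  have hRc : R.Countable := Set.countable_iUnion fun k => (r (j, g k)).countable_toSet
  have := hRc.to_subtype
  obtain ⟨f, hf⟩ := exists_avoid (fun O : R => {g | ((∅ : I), g) ∈ O.1.carrier}) fun O => O.1.small ∅
  have hfin : ∃ M : ℕ, ∀ O ∈ r (∅, f), O ∈ R → ∃ m < M, O ∈ r (j, g m) := by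
    have : ∀ O : Adm, ∃ m : ℕ, O ∈ R → O ∈ r (j, g m) := by
      intro O
      by_cases hO : O ∈ R
      · obtain ⟨m, hm⟩ := Set.mem_iUnion.mp hO
        exact ⟨m, fun _ => hm⟩
      · exact ⟨0, fun h => absurd h hO⟩
    choose m hm using this
    refine ⟨(r (∅, f)).sup m + 1, fun O hO hOR => ⟨m O, ?_, hm O hOR⟩⟩
    exact Nat.lt_succ_of_le (Finset.le_sup (f := m) hO)
  obtain ⟨M, hM⟩ := hfin
  apply hjf f
  refine ⟨g M, fun h => hj0 h.symm, fun O hO hO' => ?_⟩
  have hOR : O ∈ R := Set.mem_iUnion.mpr ⟨M, hO'⟩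
  refine ⟨hf ⟨O, hOR⟩, ?_⟩
  obtain ⟨m, hmM, hOm⟩ := hM O hO hOR
  exact hg M m hmM O hOm

/-- The negation of the preceding statement: Every regular space in which discrete families of closed Lindelöf sets have disjoint open expansions, and every open cover has a point-finite open refinement, also has a locally countable open refinement for every open cover. -/
theorem result :
    ¬ (∀ (X : Type) [TopologicalSpace X] [T3Space X],
      (∀ 𝓕 : Set (Set X),
        (∀ F ∈ 𝓕, IsClosed F ∧ IsLindelof F) →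
        (∀ x : X, ∃ N ∈ nhds x, {F : Set X | F ∈ 𝓕 ∧ (F ∩ N).Nonempty}.Subsingleton) →
        ∃ U : Set X → Set X,
          (∀ F ∈ 𝓕, IsOpen (U F) ∧ F ⊆ U F) ∧
          (∀ F ∈ 𝓕, ∀ G ∈ 𝓕, F ≠ G → Disjoint (U F) (U G))) →
      (∀ 𝒰 : Set (Set X), (∀ U ∈ 𝒰, IsOpen U) → ⋃₀ 𝒰 = Set.univ →
        ∃ 𝒱 : Set (Set X), (∀ V ∈ 𝒱, IsOpen V) ∧ ⋃₀ 𝒱 = Set.univ ∧
          (∀ V ∈ 𝒱, ∃ U ∈ 𝒰, V ⊆ U) ∧
          ∀ x : X, {V : Set X | V ∈ 𝒱 ∧ x ∈ V}.Finite) →
      (∀ 𝒰 : Set (Set X), (∀ U ∈ 𝒰, IsOpen U) → ⋃₀ 𝒰 = Set.univ →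
        ∃ 𝒱 : Set (Set X), (∀ V ∈ 𝒱, IsOpen V) ∧ ⋃₀ 𝒱 = Set.univ ∧
          (∀ V ∈ 𝒱, ∃ U ∈ 𝒰, V ⊆ U) ∧
          ∀ x : X, ∃ N ∈ nhds x, {V : Set X | V ∈ 𝒱 ∧ (V ∩ N).Nonempty}.Countable)) := by
  intro h
  exact not_paraLindelof (h X slcwh metacompact)

end Pool.Agent.S08316
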