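import Pool.Statements.S08319
import Pool.Agent.Helper739.CTPath

set_option autoImplicit false
open Pool Pool.MP_3ef9ff_gt

namespace Pool.Agent.S08319

/-- Take a span-zero continuum M (every subcontinuum of M×M with equal projections meets the diagonal), a map f of a continuum X onto M, and a compactification of a ray with remainder M. Then some ray compactification with remainder X admits a continuous surjection onto it extending f. -/
theorem result :
    ∀ (M : Type) [MetricSpace M] [CompactSpace M] [ConnectedSpace M],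
      (∀ Z : Set (M × M), IsCompact Z → IsConnected Z →
          Prod.fst '' Z = Prod.snd '' Z → ∃ p ∈ Z, p.1 = p.2) →
      ∀ (X : Type) [MetricSpace X] [CompactSpace X] [ConnectedSpace X] (f : X → M),
        Continuous f → Function.Surjective f →
        ∀ (Y : Type) [MetricSpace Y] [CompactSpace Y] (j : M → Y),
          Topology.IsEmbedding j → Dense (Set.range j)ᶜ →
          Nonempty (↥((Set.range j)ᶜ) ≃ₜ ↥(Set.Ici (0:ℝ))) →
          ∃ (W : Type) (_ : MetricSpace W) (_ : CompactSpace W) (i : X → W),
            Topology.IsEmbedding i ∧ Dense (Set.range i)ᶜ ∧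
            Nonempty (↥((Set.range i)ᶜ) ≃ₜ ↥(Set.Ici (0:ℝ))) ∧
            ∃ F : W → Y, Continuous F ∧ Function.Surjective F ∧
              ∀ x, F (i x) = j (f x) := by
  intro M _ _ _ hM X _ _ _ f hf hfs Y _ _ j hj hjd he
  obtain ⟨e⟩ := he
  have hMn : Nonempty M := inferInstance
  have hR := Helper739.CT.rayData hj hjd e
  have hp : Continuous (j ∘ f) := hj.continuous.comp hf
  have hpr : Set.range (j ∘ f) = Set.range j := hfs.range_comp j
  obtain ⟨H, h1, h2, h3, h4⟩ := Helper739.CT.chain (X := X) hM hR hp hpr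
  obtain ⟨W, iM, iC, i, k1, k2, k3, F, k4, k5, k6⟩ :=
    Helper739.CT.extension hp hR.cont h1 h2 h3 h4
  refine ⟨W, iM, iC, i, k1, k2, k3, F, k4, ?_, k5⟩
  intro y
  by_cases hy : y ∈ Set.range j
  · obtain ⟨m, rfl⟩ := hy
    obtain ⟨x, rfl⟩ := hfs m
    exact ⟨i x, k5 x⟩
  · obtain ⟨e1, e2⟩ := Helper739.CT.rayMap_surj e hy
    obtain ⟨w, hw⟩ := k6 _ e2
    exact ⟨w, by rw [hw]; exact e1⟩

end Pool.Agent.S08319
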