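import Pool.Statements.S08321
import Pool.Agent.Helper989.PL

set_option autoImplicit false
open MeasureTheory Metric
open Pool Pool.MP_3f0dd2_gt

namespace Pool.Agent.S08321

open Set Function
open scoped ENNReal
open Pool.Agent.Helper989.PL

/-- Gaussian weight on Euclidean space -/
noncomputable def gam {n : ℕ} (x : EuclideanSpace ℝ (Fin n)) : ℝ≥0∞ :=
  ENNReal.ofReal (Real.exp (-(‖x‖ ^ 2) / 2))

theorem measurable_gam {n : ℕ} : Measurable (gam (n := n)) := by
  unfold gam; fun_prop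

/-- the radial constant -/
noncomputable def cst (n : ℕ) : ℝ≥0∞ :=
  ∫⁻ r, ENNReal.ofReal (Real.exp (-(r.1 ^ 2) / 2)) ∂(Measure.volumeIoiPow (n - 1))

theorem polar {n : ℕ} (hn : 0 < n) (C : Set (EuclideanSpace ℝ (Fin n))) (hC : MeasurableSet C)
    (hcone : ∀ x : EuclideanSpace ℝ (Fin n), ∀ r : ℝ, 0 < r → (r • x ∈ C ↔ x ∈ C)) :
    ∫⁻ x in C, gam x =
      (volume : Measure (EuclideanSpace ℝ (Fin n))).toSphere {u | u.1 ∈ C} * cst n := by
  have : Nonempty (Fin n) := ⟨⟨0, hn⟩⟩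
  have : Nontrivial (EuclideanSpace ℝ (Fin n)) := inferInstance
  set μ := (volume : Measure (EuclideanSpace ℝ (Fin n))) with hμ
  have hdim : Module.finrank ℝ (EuclideanSpace ℝ (Fin n)) = n := by simp
  have hmp := μ.measurePreserving_homeomorphUnitSphereProd
  have hA : MeasurableSet {u : sphere (0 : EuclideanSpace ℝ (Fin n)) 1 | u.1 ∈ C} :=
    measurable_subtype_coe hC
  have e1 : ∫⁻ x in C, gam x = ∫⁻ x : ({0}ᶜ : Set (EuclideanSpace ℝ (Fin n))),
      C.indicator gam x.1 ∂(μ.comap (↑)) := by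
    rw [lintegral_subtype_comap (measurableSet_singleton _).compl (C.indicator gam),
      restrict_compl_singleton, lintegral_indicator hC]
  rw [e1]
  have e2 : ∀ x : ({0}ᶜ : Set (EuclideanSpace ℝ (Fin n))), C.indicator gam x.1
      = (fun p : sphere (0 : EuclideanSpace ℝ (Fin n)) 1 × Ioi (0 : ℝ) =>
          ({u : sphere (0 : EuclideanSpace ℝ (Fin n)) 1 | u.1 ∈ C}.indicator 1 p.1 : ℝ≥0∞)
            * ENNReal.ofReal (Real.exp (-(p.2.1 ^ 2) / 2)))
          (homeomorphUnitSphereProd (EuclideanSpace ℝ (Fin n)) x) := by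
    intro x
    have hx : x.1 ≠ 0 := x.2
    have hx' : 0 < ‖x.1‖ := norm_pos_iff.mpr hx
    have hmem : ((homeomorphUnitSphereProd (EuclideanSpace ℝ (Fin n)) x).1 ∈
        {u : sphere (0 : EuclideanSpace ℝ (Fin n)) 1 | u.1 ∈ C}) ↔ x.1 ∈ C := by
      simp only [mem_ofPred_eq, homeomorphUnitSphereProd_apply_fst_coe]
      exact hcone x.1 _ (by positivity)
    by_cases h : x.1 ∈ C
    · have h2 := hmem.mpr h
      simp only
      rw [indicator_of_mem h, indicator_of_mem h2]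
      simp [gam]
    · have h2 := (not_congr hmem).mpr h
      simp only
      rw [indicator_of_notMem h, indicator_of_notMem h2]
      simp
  set Φ : sphere (0 : EuclideanSpace ℝ (Fin n)) 1 × Ioi (0 : ℝ) → ℝ≥0∞ := fun p =>
      ({u : sphere (0 : EuclideanSpace ℝ (Fin n)) 1 | u.1 ∈ C}.indicator 1 p.1 : ℝ≥0∞)
            * ENNReal.ofReal (Real.exp (-(p.2.1 ^ 2) / 2)) with hΦ
  have hΦm : Measurable Φ := by
    refine Measurable.mul ?_ ?_
    · exact (measurable_one.indicator hA).comp measurable_fst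
    · fun_prop
  have e3 := hmp.lintegral_comp hΦm
  refine (lintegral_congr e2).trans (e3.trans ?_)
  refine (lintegral_prod_mul (f := fun u => ({u : sphere (0 : EuclideanSpace ℝ (Fin n)) 1 |
    u.1 ∈ C}.indicator 1 u : ℝ≥0∞)) (g := fun r : Ioi (0 : ℝ) =>
      ENNReal.ofReal (Real.exp (-(r.1 ^ 2) / 2)))
    (measurable_one.indicator hA).aemeasurable (by fun_prop)).trans ?_
  rw [lintegral_indicator_one hA, hdim]
  rfl

theorem cst_ne_zero {n : ℕ} (hn : 0 < n) : cst n ≠ 0 := by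
  have : Nonempty (Fin n) := ⟨⟨0, hn⟩⟩
  intro h
  have h1 := polar hn univ MeasurableSet.univ (by simp)
  rw [h, mul_zero, Measure.restrict_univ, lintegral_eq_zero_iff measurable_gam] at h1
  have h2 : (volume : Measure (EuclideanSpace ℝ (Fin n))) univ = 0 := by
    have : ∀ᵐ x : EuclideanSpace ℝ (Fin n), False := by
      filter_upwards [h1] with x hx
      simp [gam] at hx
      exact absurd hx (not_le.mpr (Real.exp_pos _))
    simp [ae_iff] at this
  simp at h2

theorem cst_ne_top {n : ℕ} (hn : 0 < n) : cst n ≠ ∞ := by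
  have : Nonempty (Fin n) := ⟨⟨0, hn⟩⟩
  have : Nontrivial (EuclideanSpace ℝ (Fin n)) := inferInstance
  intro h
  have h1 := polar hn univ MeasurableSet.univ (by simp)
  rw [h, Measure.restrict_univ] at h1
  simp only [mem_univ, ofPred_true] at h1
  rw [ENNReal.mul_top (by simpa using ⟨hn.ne', (measure_ball_pos _ _ one_pos).ne'⟩)] at h1
  have h2 := GaussianFourier.integral_rexp_neg_mul_sq_norm (V := EuclideanSpace ℝ (Fin n))
      (b := 1 / 2) (by norm_num)
  have h3 : Integrable (fun v : EuclideanSpace ℝ (Fin n) => Real.exp (-(1 / 2) * ‖v‖ ^ 2)) := by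
    apply Integrable.of_integral_ne_zero
    rw [h2]
    positivity
  have h4 := h3.lintegral_lt_top
  have h5 : ∫⁻ x : EuclideanSpace ℝ (Fin n), gam x
      = ∫⁻ v : EuclideanSpace ℝ (Fin n), ENNReal.ofReal (Real.exp (-(1 / 2) * ‖v‖ ^ 2)) := by
    refine lintegral_congr (fun v => ?_)
    unfold gam
    congr 2; ring
  rw [← h5, h1] at h4
  exact absurd h4 (lt_irrefl _)

/-- Gaussian weight on coordinates -/
noncomputable def w {n : ℕ} (s : Fin n → ℝ) : ℝ≥0∞ :=
  ENNReal.ofReal (Real.exp (-(s ⬝ᵥ s) / 2))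

theorem measurable_w {n : ℕ} : Measurable (w (n := n)) := by
  unfold w
  simp only [dotProduct]
  fun_prop

theorem gam_toLp {n : ℕ} (s : Fin n → ℝ) : gam (WithLp.toLp 2 s) = w s := by
  unfold gam w
  congr 3
  rw [EuclideanSpace.norm_sq_eq]
  simp [dotProduct, sq]

theorem eucl {n : ℕ} (S : Set (EuclideanSpace ℝ (Fin n))) :
    ∫⁻ x in S, gam x = ∫⁻ s in {s : Fin n → ℝ | WithLp.toLp 2 s ∈ S}, w s := by
  have h := (PiLp.volume_preserving_toLp (Fin n)).setLIntegral_comp_preimage_emb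
    (MeasurableEquiv.toLp 2 (Fin n → ℝ)).measurableEmbedding gam S
  rw [← h]
  simp only [gam_toLp]
  rfl

theorem cov {n : ℕ} (M : Matrix (Fin n) (Fin n) ℝ) (hM : M.det ≠ 0) (S : Set (Fin n → ℝ))
    (hS : MeasurableSet S) (φ : (Fin n → ℝ) → ℝ≥0∞) (hφ : Measurable φ) :
    ∫⁻ x in {x | M.mulVec x ∈ S}, φ (M.mulVec x)
      = ENNReal.ofReal |(M.det)⁻¹| * ∫⁻ y in S, φ y := by
  have h := Real.map_matrix_volume_pi_eq_smul_volume_pi hM
  have hm : Measurable (Matrix.toLin' M) := (Matrix.toLin' M).continuous_of_finiteDimensional.measurable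
  have h2 := setLIntegral_map (μ := (volume : Measure (Fin n → ℝ))) hS hφ hm
  rw [h, Measure.restrict_smul, lintegral_smul_measure] at h2
  simp only [smul_eq_mul] at h2
  rw [h2]
  rfl

theorem orth_ae {n : ℕ} (φ : (Fin n → ℝ) → ℝ≥0∞) :
    ∫⁻ s in {s : Fin n → ℝ | ∀ i, 0 ≤ s i}, φ s = ∫⁻ s in Pos n, φ s := by
  have h := Measure.univ_pi_Ioi_ae_eq_Ici (μ := fun _ : Fin n => (volume : Measure ℝ))
    (f := fun _ => (0 : ℝ))
  have e1 : Pos n = (univ.pi fun _ : Fin n => Ioi (0 : ℝ)) := by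
    ext s; simp [Pos]
  have e2 : {s : Fin n → ℝ | ∀ i, 0 ≤ s i} = Ici (fun _ : Fin n => (0 : ℝ)) := by
    ext s; simp [Pi.le_def]
  rw [e1, e2]
  exact (setLIntegral_congr h).symm

theorem measurableSet_orth {n : ℕ} : MeasurableSet {s : Fin n → ℝ | ∀ i, 0 ≤ s i} := by
  have : {s : Fin n → ℝ | ∀ i, 0 ≤ s i} = Ici (fun _ : Fin n => (0 : ℝ)) := by
    ext s; simp [Pi.le_def]
  rw [this]
  exact measurableSet_Ici

theorem main_ineq {n : ℕ} (P : Matrix (Fin n) (Fin n) ℝ) (hP : P.det ≠ 0) :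
    (∫⁻ x in {x : Fin n → ℝ | ∀ i, 0 ≤ (P.transpose.mulVec x) i}, w x) *
      (∫⁻ x in {x : Fin n → ℝ | ∀ i, 0 ≤ (P⁻¹.mulVec x) i}, w x)
      ≤ (∫⁻ s in {s : Fin n → ℝ | ∀ i, 0 ≤ s i}, w s) ^ 2 := by
  have hPu : IsUnit P.det := isUnit_iff_ne_zero.mpr hP
  have hPT : P.transpose.det ≠ 0 := by rwa [Matrix.det_transpose]
  have hPi : P⁻¹.det ≠ 0 := by
    rw [Matrix.det_nonsing_inv]
    simpa using hP
  have i1 : ∀ x : Fin n → ℝ, (P.transpose)⁻¹.mulVec (P.transpose.mulVec x) = x := by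
    intro x
    rw [Matrix.mulVec_mulVec, Matrix.nonsing_inv_mul _ (by rwa [Matrix.det_transpose]),
      Matrix.one_mulVec]
  have i2 : ∀ x : Fin n → ℝ, P.mulVec (P⁻¹.mulVec x) = x := by
    intro x
    rw [Matrix.mulVec_mulVec, Matrix.mul_nonsing_inv _ hPu, Matrix.one_mulVec]
  have m1 : Measurable (fun s : Fin n → ℝ => w ((P.transpose)⁻¹.mulVec s)) :=
    measurable_w.comp (Matrix.toLin' (P.transpose)⁻¹).continuous_of_finiteDimensional.measurable
  have m2 : Measurable (fun s : Fin n → ℝ => w (P.mulVec s)) :=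
    measurable_w.comp (Matrix.toLin' P).continuous_of_finiteDimensional.measurable
  have c1 := cov P.transpose hPT _ measurableSet_orth _ m1
  have c2 := cov P⁻¹ hPi _ measurableSet_orth _ m2
  simp only [i1] at c1
  simp only [i2] at c2
  have e1 : {x : Fin n → ℝ | P.transpose.mulVec x ∈ {s : Fin n → ℝ | ∀ i, 0 ≤ s i}}
      = {x : Fin n → ℝ | ∀ i, 0 ≤ (P.transpose.mulVec x) i} := rfl
  have e2 : {x : Fin n → ℝ | P⁻¹.mulVec x ∈ {s : Fin n → ℝ | ∀ i, 0 ≤ s i}}
      = {x : Fin n → ℝ | ∀ i, 0 ≤ (P⁻¹.mulVec x) i} := rfl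
  rw [e1] at c1
  rw [e2] at c2
  rw [c1, c2, orth_ae, orth_ae, orth_ae]
  have hdet : ENNReal.ofReal |(P.transpose.det)⁻¹| * ENNReal.ofReal |(P⁻¹.det)⁻¹| = 1 := by
    rw [← ENNReal.ofReal_mul (abs_nonneg _), ← abs_mul, Matrix.det_transpose,
      Matrix.det_nonsing_inv, Ring.inverse_eq_inv', inv_inv, inv_mul_cancel₀ hP]
    simp
  have hpl := mpl n _ _ w m1 m2 measurable_w (fun s t hs ht => ?_)
  · calc _ = (ENNReal.ofReal |(P.transpose.det)⁻¹| * ENNReal.ofReal |(P⁻¹.det)⁻¹|) *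
        ((∫⁻ s in Pos n, w ((P.transpose)⁻¹.mulVec s)) * (∫⁻ s in Pos n, w (P.mulVec s))) := by ring
      _ ≤ _ := by rw [hdet, one_mul]; exact hpl
  · unfold w
    rw [← ENNReal.ofReal_mul (Real.exp_pos _).le, ← Real.exp_add,
      ← ENNReal.ofReal_pow (Real.exp_pos _).le, ← Real.exp_nat_mul]
    apply ENNReal.ofReal_le_ofReal
    apply Real.exp_le_exp.mpr
    have h1 : (fun i => Real.sqrt (s i * t i)) ⬝ᵥ (fun i => Real.sqrt (s i * t i)) = s ⬝ᵥ t := by
      simp only [dotProduct]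
      refine Finset.sum_congr rfl (fun i _ => ?_)
      exact Real.mul_self_sqrt (mul_nonneg (hs i).le (ht i).le)
    have h2 : s ⬝ᵥ t = ((P.transpose)⁻¹.mulVec s) ⬝ᵥ (P.mulVec t) := by
      rw [Matrix.dotProduct_mulVec, ← Matrix.mulVec_transpose, Matrix.mulVec_mulVec,
        Matrix.mul_nonsing_inv _ (by rwa [Matrix.det_transpose]), Matrix.one_mulVec]
    rw [h1, h2]
    set u := (P.transpose)⁻¹.mulVec s
    set v := P.mulVec t
    have h3 : 0 ≤ (u - v) ⬝ᵥ (u - v) := by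
      simp only [dotProduct]
      exact Finset.sum_nonneg (fun i _ => mul_self_nonneg _)
    have h4 : (u - v) ⬝ᵥ (u - v) = u ⬝ᵥ u + v ⬝ᵥ v - 2 * (u ⬝ᵥ v) := by
      rw [sub_dotProduct, dotProduct_sub, dotProduct_sub, dotProduct_comm v u]; ring
    push_cast
    linarith

theorem toSphere_cone {n : ℕ} (hn : 0 < n) (D : Set (Fin n → ℝ)) (hD : MeasurableSet D)
    (hcone : ∀ x : Fin n → ℝ, ∀ r : ℝ, 0 < r → (r • x ∈ D ↔ x ∈ D)) :
    (volume : Measure (EuclideanSpace ℝ (Fin n))).toSphere {u | WithLp.ofLp u.1 ∈ D} * cst n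
      = ∫⁻ s in D, w s := by
  have hm : Measurable (WithLp.ofLp : EuclideanSpace ℝ (Fin n) → (Fin n → ℝ)) :=
    (PiLp.volume_preserving_ofLp (Fin n)).measurable
  have h := polar hn {x : EuclideanSpace ℝ (Fin n) | WithLp.ofLp x ∈ D} (hm hD) (by
    intro x r hr
    simpa using hcone (WithLp.ofLp x) r hr)
  rw [eucl] at h
  simpa using h.symm

/-- For every n and linearly independent normals a_1..a_n, the spherical simplex {x on the sphere: <x,a_i> ≥ 0} times its polar has volume product at most that of the positive orthant on the sphere times its polar. -/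
theorem result :
    ∀ (n : ℕ) (a : Fin n → EuclideanSpace ℝ (Fin n)), LinearIndependent ℝ a →
      (volume : Measure (EuclideanSpace ℝ (Fin n))).toSphere
          (setOf fun x : sphere (0 : EuclideanSpace ℝ (Fin n)) 1 =>
            ∀ i, 0 ≤ @inner ℝ (EuclideanSpace ℝ (Fin n)) _ x.1 (a i)) *
        (volume : Measure (EuclideanSpace ℝ (Fin n))).toSphere
          (setOf fun x : sphere (0 : EuclideanSpace ℝ (Fin n)) 1 =>
            ∀ y : sphere (0 : EuclideanSpace ℝ (Fin n)) 1,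
              (∀ i, 0 ≤ @inner ℝ (EuclideanSpace ℝ (Fin n)) _ y.1 (a i)) →
                0 ≤ @inner ℝ (EuclideanSpace ℝ (Fin n)) _ x.1 y.1)
      ≤
      (volume : Measure (EuclideanSpace ℝ (Fin n))).toSphere
          (setOf fun x : sphere (0 : EuclideanSpace ℝ (Fin n)) 1 =>
            ∀ i, 0 ≤ @inner ℝ (EuclideanSpace ℝ (Fin n)) _ x.1
              (EuclideanSpace.single i (1 : ℝ))) *
        (volume : Measure (EuclideanSpace ℝ (Fin n))).toSphere
          (setOf fun x : sphere (0 : EuclideanSpace ℝ (Fin n)) 1 =>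
            ∀ y : sphere (0 : EuclideanSpace ℝ (Fin n)) 1,
              (∀ i, 0 ≤ @inner ℝ (EuclideanSpace ℝ (Fin n)) _ y.1
                (EuclideanSpace.single i (1 : ℝ))) →
                0 ≤ @inner ℝ (EuclideanSpace ℝ (Fin n)) _ x.1 y.1) := by
  intro n a ha
  rcases Nat.eq_zero_or_pos n with hn | hn
  · subst hn
    have : IsEmpty (sphere (0 : EuclideanSpace ℝ (Fin 0)) 1) := by
      refine ⟨fun x => ?_⟩
      have h1 : ‖x.1‖ = 1 := by simpa using x.2
      have h2 : x.1 = 0 := Subsingleton.elim _ _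
      rw [h2, norm_zero] at h1
      exact zero_ne_one h1
    have h0 : ∀ S : Set (sphere (0 : EuclideanSpace ℝ (Fin 0)) 1), S = ∅ :=
      fun S => Set.eq_empty_of_isEmpty S
    rw [h0 (setOf fun x : sphere (0 : EuclideanSpace ℝ (Fin 0)) 1 =>
            ∀ i, 0 ≤ @inner ℝ (EuclideanSpace ℝ (Fin 0)) _ x.1 (a i))]
    simp
  set μ := (volume : Measure (EuclideanSpace ℝ (Fin n))) with hμ
  set P : Matrix (Fin n) (Fin n) ℝ := Matrix.of fun j i => a i j with hPdef
  have hinner : ∀ x y : EuclideanSpace ℝ (Fin n), @inner ℝ (EuclideanSpace ℝ (Fin n)) _ x y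
      = WithLp.ofLp x ⬝ᵥ WithLp.ofLp y := by
    intro x y
    simp [PiLp.inner_apply, dotProduct, mul_comm]
  have hPT : ∀ (x : EuclideanSpace ℝ (Fin n)) (i : Fin n),
      (P.transpose.mulVec (WithLp.ofLp x)) i = @inner ℝ (EuclideanSpace ℝ (Fin n)) _ x (a i) := by
    intro x i
    rw [hinner]
    simp [Matrix.mulVec, dotProduct, hPdef, mul_comm]
  have hP : P.det ≠ 0 := by
    have h1 : LinearIndependent ℝ (fun i => (WithLp.ofLp (a i) : Fin n → ℝ)) := by
      have := ha.map' (WithLp.linearEquiv 2 ℝ (Fin n → ℝ)).toLinearMap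
        (LinearMap.ker_eq_bot.mpr (WithLp.linearEquiv 2 ℝ (Fin n → ℝ)).injective)
      exact this
    have h2 : LinearIndependent ℝ (P.transpose).row := h1
    rw [Matrix.linearIndependent_rows_iff_isUnit, Matrix.isUnit_iff_isUnit_det,
      Matrix.det_transpose] at h2
    exact h2.ne_zero
  have hPu : IsUnit P.det := isUnit_iff_ne_zero.mpr hP
  have main := main_ineq P hP
  have hc0 := cst_ne_zero hn
  have hct := cst_ne_top hn
  -- the four measures
  have cone1 : ∀ M : Matrix (Fin n) (Fin n) ℝ, ∀ x : Fin n → ℝ, ∀ r : ℝ, 0 < r →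
      (r • x ∈ {x : Fin n → ℝ | ∀ i, 0 ≤ (M.mulVec x) i} ↔
        x ∈ {x : Fin n → ℝ | ∀ i, 0 ≤ (M.mulVec x) i}) := by
    intro M x r hr
    simp only [mem_ofPred_eq, Matrix.mulVec_smul, Pi.smul_apply, smul_eq_mul]
    constructor
    · intro h i
      exact nonneg_of_mul_nonneg_right (h i) hr
    · intro h i
      exact mul_nonneg hr.le (h i)
  have meas1 : ∀ M : Matrix (Fin n) (Fin n) ℝ,
      MeasurableSet {x : Fin n → ℝ | ∀ i, 0 ≤ (M.mulVec x) i} := by
    intro M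
    exact (Matrix.toLin' M).continuous_of_finiteDimensional.measurable measurableSet_orth
  have t1 := toSphere_cone hn _ (meas1 P.transpose) (cone1 P.transpose)
  have t2 := toSphere_cone hn _ (meas1 P⁻¹) (cone1 P⁻¹)
  have t3 := toSphere_cone hn _ (meas1 1) (cone1 1)
  simp only [Matrix.one_mulVec] at t3
  have s1 : (setOf fun x : sphere (0 : EuclideanSpace ℝ (Fin n)) 1 =>
            ∀ i, 0 ≤ @inner ℝ (EuclideanSpace ℝ (Fin n)) _ x.1 (a i))
      = {u | WithLp.ofLp u.1 ∈ {x : Fin n → ℝ | ∀ i, 0 ≤ (P.transpose.mulVec x) i}} := by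
    ext u
    change (∀ i, 0 ≤ @inner ℝ (EuclideanSpace ℝ (Fin n)) _ u.1 (a i)) ↔
      (∀ i, 0 ≤ (P.transpose.mulVec (WithLp.ofLp u.1)) i)
    simp only [hPT u.1]
  have s2 : (setOf fun x : sphere (0 : EuclideanSpace ℝ (Fin n)) 1 =>
            ∀ y : sphere (0 : EuclideanSpace ℝ (Fin n)) 1,
              (∀ i, 0 ≤ @inner ℝ (EuclideanSpace ℝ (Fin n)) _ y.1 (a i)) →
                0 ≤ @inner ℝ (EuclideanSpace ℝ (Fin n)) _ x.1 y.1)
      ⊆ {u | WithLp.ofLp u.1 ∈ {x : Fin n → ℝ | ∀ i, 0 ≤ (P⁻¹.mulVec x) i}} := by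
    intro u hu i
    replace hu : ∀ y : sphere (0 : EuclideanSpace ℝ (Fin n)) 1,
              (∀ i, 0 ≤ @inner ℝ (EuclideanSpace ℝ (Fin n)) _ y.1 (a i)) →
                0 ≤ @inner ℝ (EuclideanSpace ℝ (Fin n)) _ u.1 y.1 := hu
    set z : Fin n → ℝ := (P.transpose)⁻¹.mulVec (Pi.single i 1) with hz
    have hPz : P.transpose.mulVec z = Pi.single i 1 := by
      rw [hz, Matrix.mulVec_mulVec, Matrix.mul_nonsing_inv _ (by rwa [Matrix.det_transpose]),
        Matrix.one_mulVec]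
    have hz0 : z ≠ 0 := by
      intro h
      rw [h, Matrix.mulVec_zero] at hPz
      have := congrFun hPz i
      simp at this
    have hzE : (WithLp.toLp 2 z : EuclideanSpace ℝ (Fin n)) ≠ 0 := by
      intro h
      apply hz0
      have := congrArg WithLp.ofLp h
      simpa using this
    have hzn : 0 < ‖(WithLp.toLp 2 z : EuclideanSpace ℝ (Fin n))‖ := norm_pos_iff.mpr hzE
    set y : EuclideanSpace ℝ (Fin n) :=
      ‖(WithLp.toLp 2 z : EuclideanSpace ℝ (Fin n))‖⁻¹ • (WithLp.toLp 2 z) with hy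
    have hy1 : y ∈ sphere (0 : EuclideanSpace ℝ (Fin n)) 1 := by
      rw [mem_sphere_zero_iff_norm, hy, norm_smul, norm_inv, norm_norm,
        inv_mul_cancel₀ hzn.ne']
    have h1 := hu ⟨y, hy1⟩ (fun j => by
      change 0 ≤ @inner ℝ (EuclideanSpace ℝ (Fin n)) _ y (a j)
      rw [hy, inner_smul_left]
      apply mul_nonneg (by simp)
      rw [← hPT, hPz]
      by_cases hij : j = i
      · subst hij; simp
      · simp [Pi.single_apply, hij])
    change 0 ≤ @inner ℝ (EuclideanSpace ℝ (Fin n)) _ u.1 y at h1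
    rw [hy, inner_smul_right] at h1
    have h2 := nonneg_of_mul_nonneg_right h1 (by positivity)
    rw [hinner] at h2
    simp only at h2
    have h3 : (WithLp.ofLp u.1) ⬝ᵥ z = (P⁻¹.mulVec (WithLp.ofLp u.1)) i := by
      rw [hz, Matrix.dotProduct_mulVec, ← Matrix.mulVec_transpose, ← Matrix.transpose_nonsing_inv,
        Matrix.transpose_transpose]
      simp
    rwa [h3] at h2
  have s3 : (setOf fun x : sphere (0 : EuclideanSpace ℝ (Fin n)) 1 =>
            ∀ i, 0 ≤ @inner ℝ (EuclideanSpace ℝ (Fin n)) _ x.1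
              (EuclideanSpace.single i (1 : ℝ)))
      = {u | WithLp.ofLp u.1 ∈ {x : Fin n → ℝ | ∀ i, 0 ≤ x i}} := by
    ext u
    change (∀ i, 0 ≤ @inner ℝ (EuclideanSpace ℝ (Fin n)) _ u.1
              (EuclideanSpace.single i (1 : ℝ))) ↔ (∀ i, 0 ≤ WithLp.ofLp u.1 i)
    simp [EuclideanSpace.inner_single_right]
  have s4 : {u : sphere (0 : EuclideanSpace ℝ (Fin n)) 1 |
        WithLp.ofLp u.1 ∈ {x : Fin n → ℝ | ∀ i, 0 ≤ x i}}
      ⊆ (setOf fun x : sphere (0 : EuclideanSpace ℝ (Fin n)) 1 =>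
            ∀ y : sphere (0 : EuclideanSpace ℝ (Fin n)) 1,
              (∀ i, 0 ≤ @inner ℝ (EuclideanSpace ℝ (Fin n)) _ y.1
                (EuclideanSpace.single i (1 : ℝ))) →
                0 ≤ @inner ℝ (EuclideanSpace ℝ (Fin n)) _ x.1 y.1) := by
    intro u hu y hy
    simp only [mem_ofPred_eq] at hu
    rw [hinner]
    simp only [dotProduct]
    refine Finset.sum_nonneg (fun i _ => mul_nonneg (hu i) ?_)
    have := hy i
    simpa [EuclideanSpace.inner_single_right] using this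
  rw [s1, s3]
  have hcc : cst n ^ 2 ≠ 0 := pow_ne_zero _ hc0
  have hcc' : cst n ^ 2 ≠ ∞ := ENNReal.pow_ne_top hct
  rw [← ENNReal.mul_le_mul_iff_left hcc hcc']
  calc _ = (μ.toSphere {u | WithLp.ofLp u.1 ∈ {x : Fin n → ℝ | ∀ i, 0 ≤ (P.transpose.mulVec x) i}}
          * cst n) * (μ.toSphere (setOf fun x : sphere (0 : EuclideanSpace ℝ (Fin n)) 1 =>
            ∀ y : sphere (0 : EuclideanSpace ℝ (Fin n)) 1,
              (∀ i, 0 ≤ @inner ℝ (EuclideanSpace ℝ (Fin n)) _ y.1 (a i)) →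
                0 ≤ @inner ℝ (EuclideanSpace ℝ (Fin n)) _ x.1 y.1) * cst n) := by ring
    _ ≤ (∫⁻ x in {x : Fin n → ℝ | ∀ i, 0 ≤ (P.transpose.mulVec x) i}, w x) *
      (∫⁻ x in {x : Fin n → ℝ | ∀ i, 0 ≤ (P⁻¹.mulVec x) i}, w x) := by
        rw [← t1, ← t2]
        gcongr
    _ ≤ (∫⁻ s in {s : Fin n → ℝ | ∀ i, 0 ≤ s i}, w s) ^ 2 := main
    _ = (μ.toSphere {u | WithLp.ofLp u.1 ∈ {x : Fin n → ℝ | ∀ i, 0 ≤ x i}} * cst n)
        * (μ.toSphere {u | WithLp.ofLp u.1 ∈ {x : Fin n → ℝ | ∀ i, 0 ≤ x i}} * cst n) := by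
        rw [t3]; ring
    _ ≤ (μ.toSphere {u | WithLp.ofLp u.1 ∈ {x : Fin n → ℝ | ∀ i, 0 ≤ x i}} * cst n)
        * (μ.toSphere (setOf fun x : sphere (0 : EuclideanSpace ℝ (Fin n)) 1 =>
            ∀ y : sphere (0 : EuclideanSpace ℝ (Fin n)) 1,
              (∀ i, 0 ≤ @inner ℝ (EuclideanSpace ℝ (Fin n)) _ y.1
                (EuclideanSpace.single i (1 : ℝ))) →
                0 ≤ @inner ℝ (EuclideanSpace ℝ (Fin n)) _ x.1 y.1) * cst n) := by
        gcongr
    _ = _ := by ring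

end Pool.Agent.S08321
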