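import Pool.Statements.S08325
import Pool.Agent.Helper416.AR9

set_option autoImplicit false
open Pool Pool.MP_3fab4a_gt

namespace Pool.Agent.S08325

/-- There is a compact Hausdorff space in which every pseudocompact subspace is compact, yet some subspace has a maximal centered family of closed sets with the countable intersection property and empty intersection. -/
theorem result :
    ∃ (X : Type) (_ : TopologicalSpace X), CompactSpace X ∧ T2Space X ∧
      (∀ S : Set X,
        (∀ f : S → ℝ, Continuous f → ∃ M : ℝ, ∀ x : S, |f x| ≤ M) → IsCompact S) ∧
      ¬ (∀ S : Set X, ∀ F : Set (Set S),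
          Maximal (fun G : Set (Set S) =>
              (∀ A ∈ G, IsClosed A) ∧
              ∀ H : Finset (Set S), (↑H : Set (Set S)) ⊆ G →
                (⋂₀ (↑H : Set (Set S))).Nonempty) F →
          (∀ H : Set (Set S), H ⊆ F → H.Countable → (⋂₀ H).Nonempty) →
          (⋂₀ F).Nonempty) := Pool.Agent.Helper416.AR.main

end Pool.Agent.S08325
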