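import Pool.Statements.S08328
import Pool.Agent.Helper28.S3End

set_option autoImplicit false
open Pool Pool.MP_3fb46c_gt

namespace Pool.Agent.S08328

open MeasureTheory Metric Pool.Agent.Helper28

theorem integrand_eq (Φ : ℝ → E4 → E4) (t : ℝ) (x : sphere (0 : E4) 1) :
    Real.sqrt (LinearMap.det
                  ((ContinuousLinearMap.id ℝ E4 +
                    (ContinuousLinearMap.adjoint
                      ((ContinuousLinearMap.id ℝ E4 -
                          (innerSL ℝ (x : E4)).smulRight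
                            (x : E4)) ∘L
                        fderiv ℝ (Φ t) (x : E4) ∘L
                        (ContinuousLinearMap.id ℝ E4 -
                          (innerSL ℝ (x : E4)).smulRight
                            (x : E4)))) ∘L
                    ((ContinuousLinearMap.id ℝ E4 -
                          (innerSL ℝ (x : E4)).smulRight
                            (x : E4)) ∘L
                        fderiv ℝ (Φ t) (x : E4) ∘L
                        (ContinuousLinearMap.id ℝ E4 -
                          (innerSL ℝ (x : E4)).smulRight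
                            (x : E4))) :
                    E4 →L[ℝ] E4) :
                    E4 →ₗ[ℝ] E4)) = Ff Φ t x := by
  have hx : ‖(x : E4)‖ = 1 := by
    simp
  have h := det_formula (x : E4) hx (fderiv ℝ (Φ t) (x : E4))
  unfold projT at h
  rw [h, det_eq_det3]
  unfold Ff
  congr 3
  funext a b
  simp only [mMat, mf, Af_vec]

/-- The negation of the preceding statement: Every smooth tangent field of constant length r>0 on the unit sphere in R^(2m+2) whose graph is volume-critical in the radius-r tangent sphere bundle with Sasaki metric equals r·J x for some skew complex structure J. -/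
theorem result :
    ¬ (∀ (m : ℕ) (r : ℝ) (σ : EuclideanSpace ℝ (Fin (2 * m + 2)) → EuclideanSpace ℝ (Fin (2 * m + 2))),
      0 < r →
      ContDiff ℝ ((⊤ : ℕ∞) : WithTop ℕ∞) σ →
      (∀ x ∈ Metric.sphere (0 : EuclideanSpace ℝ (Fin (2 * m + 2))) 1,
          ‖σ x‖ = r ∧ inner ℝ x (σ x) = 0) →
      (∀ Φ : ℝ → EuclideanSpace ℝ (Fin (2 * m + 2)) → EuclideanSpace ℝ (Fin (2 * m + 2)),
          ContDiff ℝ ((⊤ : ℕ∞) : WithTop ℕ∞)
            (fun p : ℝ × EuclideanSpace ℝ (Fin (2 * m + 2)) => Φ p.1 p.2) →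
          (∀ x ∈ Metric.sphere (0 : EuclideanSpace ℝ (Fin (2 * m + 2))) 1, Φ 0 x = σ x) →
          (∀ t : ℝ, ∀ x ∈ Metric.sphere (0 : EuclideanSpace ℝ (Fin (2 * m + 2))) 1,
              ‖Φ t x‖ = r ∧ inner ℝ x (Φ t x) = 0) →
          deriv (fun t : ℝ =>
              ∫ x : Metric.sphere (0 : EuclideanSpace ℝ (Fin (2 * m + 2))) 1,
                Real.sqrt (LinearMap.det
                  ((ContinuousLinearMap.id ℝ (EuclideanSpace ℝ (Fin (2 * m + 2))) +
                    (ContinuousLinearMap.adjoint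
                      ((ContinuousLinearMap.id ℝ (EuclideanSpace ℝ (Fin (2 * m + 2))) -
                          (innerSL ℝ (x : EuclideanSpace ℝ (Fin (2 * m + 2)))).smulRight
                            (x : EuclideanSpace ℝ (Fin (2 * m + 2)))) ∘L
                        fderiv ℝ (Φ t) (x : EuclideanSpace ℝ (Fin (2 * m + 2))) ∘L
                        (ContinuousLinearMap.id ℝ (EuclideanSpace ℝ (Fin (2 * m + 2))) -
                          (innerSL ℝ (x : EuclideanSpace ℝ (Fin (2 * m + 2)))).smulRight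
                            (x : EuclideanSpace ℝ (Fin (2 * m + 2)))))) ∘L
                    ((ContinuousLinearMap.id ℝ (EuclideanSpace ℝ (Fin (2 * m + 2))) -
                          (innerSL ℝ (x : EuclideanSpace ℝ (Fin (2 * m + 2)))).smulRight
                            (x : EuclideanSpace ℝ (Fin (2 * m + 2)))) ∘L
                        fderiv ℝ (Φ t) (x : EuclideanSpace ℝ (Fin (2 * m + 2))) ∘L
                        (ContinuousLinearMap.id ℝ (EuclideanSpace ℝ (Fin (2 * m + 2))) -
                          (innerSL ℝ (x : EuclideanSpace ℝ (Fin (2 * m + 2)))).smulRight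
                            (x : EuclideanSpace ℝ (Fin (2 * m + 2))))) :
                    EuclideanSpace ℝ (Fin (2 * m + 2)) →L[ℝ] EuclideanSpace ℝ (Fin (2 * m + 2))) :
                    EuclideanSpace ℝ (Fin (2 * m + 2)) →ₗ[ℝ] EuclideanSpace ℝ (Fin (2 * m + 2))))
                ∂((MeasureTheory.volume :
                    MeasureTheory.Measure (EuclideanSpace ℝ (Fin (2 * m + 2)))).toSphere)) 0 = 0) →
      ∃ J : EuclideanSpace ℝ (Fin (2 * m + 2)) →L[ℝ] EuclideanSpace ℝ (Fin (2 * m + 2)),
        J ∘L J = -ContinuousLinearMap.id ℝ (EuclideanSpace ℝ (Fin (2 * m + 2))) ∧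
        (∀ v, inner ℝ (J v) v = 0) ∧
        ∀ x ∈ Metric.sphere (0 : EuclideanSpace ℝ (Fin (2 * m + 2))) 1, σ x = r • J x) := by
  intro H
  have hr : (0 : ℝ) < (Real.sqrt 3)⁻¹ := by positivity
  have hr2 : ((Real.sqrt 3)⁻¹ : ℝ) ^ 2 = 1 / 3 := by
    rw [inv_pow, Real.sq_sqrt (by norm_num)]; norm_num
  set r : ℝ := (Real.sqrt 3)⁻¹ with hrdef
  have hmem : ∀ x : E4, x ∈ sphere (0 : E4) 1 → ‖x‖ = 1 := by
    intro x hx
    simpa using hx
  have hsm : ContDiff ℝ ((⊤ : ℕ∞) : WithTop ℕ∞) (fun x : E4 => r • Vf x) :=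
    Vf_contDiff.const_smul r
  obtain ⟨J, hJJ, hJs, hJ⟩ := H 1 r (fun x : E4 => r • Vf x) hr
    hsm
    (by
      intro x hx
      refine ⟨?_, ?_⟩
      · show ‖r • Vf x‖ = r
        rw [norm_smul, norm_Vf x (hmem x hx), mul_one, Real.norm_eq_abs, abs_of_pos hr]
      · show inner ℝ x (r • Vf x) = 0
        rw [real_inner_smul_right, inner_x_Vf, mul_zero])
    (by
      intro Φ hΦ h0 hc
      have hd := deriv_zero (Φ := Φ) hΦ r hr hr2 h0 hc
      rw [← hd]
      congr 1
      funext t
      refine integral_congr_ae (Filter.Eventually.of_forall fun x => ?_)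
      exact integrand_eq Φ t x)
  -- contradiction: the field is not linear
  have hJ' : ∀ x : E4, ‖x‖ = 1 → Vf x = J x := by
    intro x hx
    have h1 := hJ x (by simpa using hx)
    have h2 : r • Vf x = r • J x := h1
    exact smul_right_injective _ hr.ne' h2
  set c : ℝ := (Real.sqrt 2)⁻¹ with hc
  have hc2 : c ^ 2 = 1 / 2 := by
    rw [hc, inv_pow, Real.sq_sqrt (by norm_num)]; norm_num
  have hc0 : 0 < c := by rw [hc]; positivity
  have e0 : ‖(!₂[1, 0, 0, 0] : E4)‖ = 1 := by
    have : ‖(!₂[1, 0, 0, 0] : E4)‖ ^ 2 = 1 := by rw [normsq4]; simp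
    have h0 := norm_nonneg (!₂[1, 0, 0, 0] : E4)
    nlinarith
  have e2 : ‖(!₂[0, 0, 1, 0] : E4)‖ = 1 := by
    have : ‖(!₂[0, 0, 1, 0] : E4)‖ ^ 2 = 1 := by rw [normsq4]; simp
    have h0 := norm_nonneg (!₂[0, 0, 1, 0] : E4)
    nlinarith
  have e02 : ‖(!₂[c, 0, c, 0] : E4)‖ = 1 := by
    have : ‖(!₂[c, 0, c, 0] : E4)‖ ^ 2 = 1 := by rw [normsq4]; simp; linarith
    have h0 := norm_nonneg (!₂[c, 0, c, 0] : E4)
    nlinarith
  have hsum : (!₂[c, 0, c, 0] : E4) = c • (!₂[1, 0, 0, 0] : E4) + c • (!₂[0, 0, 1, 0] : E4) := by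
    ext i; fin_cases i <;> simp
  have h3 := hJ' _ e02
  have h4 := hJ' _ e0
  have h5 := hJ' _ e2
  have h6 : Vf (!₂[c, 0, c, 0] : E4) = c • Vf (!₂[1, 0, 0, 0] : E4) + c • Vf (!₂[0, 0, 1, 0] : E4) := by
    rw [h3, h4, h5, hsum, map_add, map_smul, map_smul]
  have h7 := congrArg (fun v : E4 => v 1) h6
  simp [Vf, z1, z2, z3, pr_apply, A1_apply, A2_apply, A3_apply] at h7
  nlinarith

end Pool.Agent.S08328
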