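import Pool.Statements.S08332

set_option autoImplicit false
open Pool Pool.MP_4194ae_gt
open Set Topology Metric Complex
open scoped Pointwise

namespace Pool.Agent.S08332

/-! Counterexample with n = 5. Let L be the cone over a circle with a spiral around it, as a compact
set in C x R which is star-shaped about 0; it has a fixed point free map g.
Let M be the set of (w,z) in (C x R) x C with norm w at most 1 and dist(w,L) at most norm z at most 1.
For small eps the map shrinking the radius of z by min(dist(w,L), eps) sends M onto a star body,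
that is onto a 5-cell; its fibres are points and circles of radius at most eps. So M has monotone
eps-maps onto the 5-cell. The map (w,z) to (G w, - (z / norm z) max(norm z, dist(G w, L))), where
G extends g, has no fixed point. -/

section star
variable {E : Type*} [NormedAddCommGroup E] [NormedSpace ℝ E]

structure StarBody (S : Set E) : Prop where
  cpt : IsCompact S
  zero : (0 : E) ∈ interior S
  star : ∀ x ∈ S, ∀ t : ℝ, 0 ≤ t → t < 1 → t • x ∈ interior S

variable {S : Set E}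

lemma StarBody.lt_iff (h : StarBody S) (x : E) {r : ℝ} (hr : 0 < r) :
    gauge S x < r ↔ r⁻¹ • x ∈ interior S := by
  have habs : Absorbent ℝ S := absorbent_nhds_zero (mem_interior_iff_mem_nhds.1 h.zero)
  constructor
  · intro hx
    obtain ⟨r', h0, hlt, hm⟩ := exists_lt_of_gauge_lt habs hx
    obtain ⟨y, hy, rfl⟩ := hm
    have : r⁻¹ • (r' • y) = (r⁻¹ * r') • y := by rw [smul_smul]
    simp only
    rw [this]
    refine h.star y hy _ (by positivity) ?_
    rw [inv_mul_lt_iff₀ hr]; linarith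
  · intro hx
    -- small enlargement
    have hc : Filter.Tendsto (fun t : ℝ => t • (r⁻¹ • x)) (𝓝 1) (𝓝 (r⁻¹ • x)) := by
      have : Filter.Tendsto (fun t : ℝ => t • (r⁻¹ • x)) (𝓝 1) (𝓝 ((1:ℝ) • (r⁻¹ • x))) :=
        (continuous_id.smul continuous_const).tendsto 1
      simpa using this
    have hev : ∀ᶠ t : ℝ in 𝓝 1, t • (r⁻¹ • x) ∈ interior S :=
      hc (isOpen_interior.mem_nhds hx)
    have hev2 : ∀ᶠ t : ℝ in 𝓝[>] 1, t • (r⁻¹ • x) ∈ interior S := nhdsWithin_le_nhds hev
    obtain ⟨t, ht, ht1⟩ := (hev2.and self_mem_nhdsWithin).exists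
    have ht1 : (1:ℝ) < t := ht1
    have hle : gauge S x ≤ r / t := by
      apply gauge_le_of_mem (by positivity)
      refine ⟨t • (r⁻¹ • x), interior_subset ht, ?_⟩
      simp only [smul_smul]
      have : r / t * (t * r⁻¹) = 1 := by field_simp
      rw [this, one_smul]
    refine lt_of_le_of_lt hle ?_
    rw [div_lt_iff₀ (by linarith)]
    nlinarith

lemma StarBody.le_iff (h : StarBody S) (x : E) {r : ℝ} (hr : 0 < r) :
    gauge S x ≤ r ↔ r⁻¹ • x ∈ S := by
  constructor
  · intro hx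
    have hcl := h.cpt.isClosed
    have hc : Filter.Tendsto (fun t : ℝ => t⁻¹ • x) (𝓝[>] r) (𝓝 (r⁻¹ • x)) := by
      have h1 : ContinuousAt (fun t : ℝ => t⁻¹ • x) r :=
        (continuousAt_inv₀ hr.ne').smul continuousAt_const
      exact h1.tendsto.mono_left nhdsWithin_le_nhds
    refine hcl.mem_of_tendsto hc ?_
    filter_upwards [self_mem_nhdsWithin] with t ht
    have ht : r < t := ht
    exact interior_subset ((h.lt_iff x (hr.trans ht)).1 (lt_of_le_of_lt hx ht))
  · intro hx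
    apply gauge_le_of_mem hr.le
    exact ⟨r⁻¹ • x, hx, by simp [smul_smul, mul_inv_cancel₀ hr.ne']⟩

lemma StarBody.pos (h : StarBody S) {x : E} (hx : x ≠ 0) : 0 < gauge S x := by
  obtain ⟨R, hR⟩ := h.cpt.isBounded.exists_norm_le
  by_contra hcon
  have h0 : gauge S x ≤ 0 := not_lt.1 hcon
  have hxn : 0 < ‖x‖ := norm_pos_iff.2 hx
  -- choose r with r⁻¹ ‖x‖ > R
  have hR0 : 0 ≤ R := le_trans (norm_nonneg _) (hR 0 (interior_subset h.zero))
  set r : ℝ := ‖x‖ / (R + 1) with hr
  have hrpos : 0 < r := by positivity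
  have := (h.le_iff x hrpos).1 (h0.trans hrpos.le)
  have h2 := hR _ this
  rw [norm_smul, norm_inv, Real.norm_of_nonneg hrpos.le] at h2
  have : r⁻¹ * ‖x‖ = R + 1 := by rw [hr]; field_simp
  linarith

lemma StarBody.continuous_gauge (h : StarBody S) : Continuous (gauge S) := by
  rw [continuous_iff_lower_upperSemicontinuous]
  constructor
  · rw [lowerSemicontinuous_iff_isClosed_preimage]
    intro a
    rcases lt_trichotomy a 0 with ha | ha | ha
    · have : gauge S ⁻¹' Iic a = ∅ := by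
        ext x
        simp only [mem_preimage, mem_Iic, mem_empty_iff_false, iff_false, not_le]
        exact lt_of_lt_of_le ha (gauge_nonneg _)
      rw [this]; exact isClosed_empty
    · have : gauge S ⁻¹' Iic a = {0} := by
        ext x
        simp only [mem_preimage, mem_Iic, mem_singleton_iff, ha]
        constructor
        · intro hx
          by_contra hne
          exact absurd (h.pos hne) (not_lt.2 hx)
        · rintro rfl; simp
      rw [this]; exact isClosed_singleton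
    · have : gauge S ⁻¹' Iic a = (fun x : E => a⁻¹ • x) ⁻¹' S := by
        ext x
        simp only [mem_preimage, mem_Iic]
        exact h.le_iff x ha
      rw [this]
      exact h.cpt.isClosed.preimage (continuous_const_smul _)
  · rw [upperSemicontinuous_iff_isOpen_preimage]
    intro a
    rcases le_or_gt a 0 with ha | ha
    · have : gauge S ⁻¹' Iio a = ∅ := by
        ext x
        simp only [mem_preimage, mem_Iio, mem_empty_iff_false, iff_false, not_lt]
        exact ha.trans (gauge_nonneg _)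
      rw [this]; exact isOpen_empty
    · have : gauge S ⁻¹' Iio a = (fun x : E => a⁻¹ • x) ⁻¹' (interior S) := by
        ext x
        simp only [mem_preimage, mem_Iio]
        exact h.lt_iff x ha
      rw [this]
      exact isOpen_interior.preimage (continuous_const_smul _)

/-- A star body is mapped by a homeomorphism onto the closed unit ball. -/
theorem StarBody.exists_map (h : StarBody S) {F : Type*} [NormedAddCommGroup F] [NormedSpace ℝ F]
    (T : E ≃L[ℝ] F) :
    ∃ Φ : E → F, Continuous Φ ∧ Function.Injective Φ ∧ Φ '' S = closedBall 0 1 := by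
  set q := gauge S with hq
  have hT0 : ∀ x : E, x ≠ 0 → ‖T x‖ ≠ 0 := by
    intro x hx h0
    exact hx (T.injective (by rw [norm_eq_zero.1 h0, map_zero]))
  refine ⟨fun x => (q x / ‖T x‖) • T x, ?_, ?_, ?_⟩
  · rw [continuous_iff_continuousAt]
    intro x
    by_cases hx : x = 0
    · subst hx
      have hqc := h.continuous_gauge.tendsto (0:E)
      rw [gauge_zero] at hqc
      have : Filter.Tendsto (fun x => (q x / ‖T x‖) • T x) (𝓝 0) (𝓝 0) := by
        apply squeeze_zero_norm _ hqc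
        intro y
        rw [norm_smul, norm_div, norm_norm, Real.norm_of_nonneg (gauge_nonneg _)]
        by_cases hy : ‖T y‖ = 0
        · rw [hy]; simp; exact gauge_nonneg _
        · rw [div_mul_cancel₀ _ hy]
      unfold ContinuousAt
      simpa using this
    · exact ((h.continuous_gauge.continuousAt).div (T.continuous.norm.continuousAt) (hT0 x hx)).smul
        T.continuous.continuousAt
  · intro x y hxy
    simp only at hxy
    have hn : ∀ x : E, ‖(q x / ‖T x‖) • T x‖ = q x := by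
      intro x
      rw [norm_smul, norm_div, norm_norm, Real.norm_of_nonneg (gauge_nonneg _)]
      by_cases hx : ‖T x‖ = 0
      · have : x = 0 := by
          by_contra hne; exact hT0 x hne hx
        subst this
        simp [hq]
      · rw [div_mul_cancel₀ _ hx]
    have hqq : q x = q y := by rw [← hn x, ← hn y, hxy]
    by_cases hx : x = 0
    · by_contra hne
      have hy : y ≠ 0 := by rintro rfl; exact hne hx
      have := h.pos hy
      rw [← hq, ← hqq, hx, hq, gauge_zero] at this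
      exact lt_irrefl _ this
    · have hqx : 0 < q x := h.pos hx
      have hy : y ≠ 0 := by
        rintro rfl
        rw [hqq, hq, gauge_zero] at hqx
        exact lt_irrefl _ hqx
      have e : T x = (‖T x‖ / ‖T y‖) • T y := by
        have h1 : ‖T x‖ ≠ 0 := hT0 x hx
        have h2 : ‖T y‖ ≠ 0 := hT0 y hy
        have h3 : q y ≠ 0 := by rw [← hqq]; exact hqx.ne'
        calc T x = (‖T x‖ / q x) • ((q x / ‖T x‖) • T x) := by
              rw [smul_smul]
              have : ‖T x‖ / q x * (q x / ‖T x‖) = 1 := by field_simp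
              rw [this, one_smul]
          _ = (‖T x‖ / q x) • ((q y / ‖T y‖) • T y) := by rw [hxy]
          _ = (‖T x‖ / ‖T y‖) • T y := by
              rw [smul_smul, hqq]
              congr 1
              field_simp
      have e2 : x = (‖T x‖ / ‖T y‖) • y := by
        apply T.injective
        rw [map_smul]; exact e
      set c := ‖T x‖ / ‖T y‖ with hc
      have hc0 : 0 ≤ c := by positivity
      have : q x = c * q y := by
        conv_lhs => rw [e2]
        rw [hq, gauge_smul_of_nonneg hc0]; rfl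
      have hc1 : c = 1 := by
        rw [← hqq] at this
        have : (c - 1) * q x = 0 := by linarith
        rcases mul_eq_zero.1 this with h' | h'
        · linarith
        · exact absurd h' hqx.ne'
      rw [e2, hc1, one_smul]
  · ext y
    constructor
    · rintro ⟨x, hx, rfl⟩
      simp only [mem_closedBall, dist_zero_right]
      rw [norm_smul, norm_div, norm_norm, Real.norm_of_nonneg (gauge_nonneg _)]
      have h1 : q x ≤ 1 := (h.le_iff x one_pos).2 (by simpa using hx)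
      by_cases hx' : ‖T x‖ = 0
      · rw [hx']; simp
      · rw [div_mul_cancel₀ _ hx']; exact h1
    · intro hy
      rw [mem_closedBall, dist_zero_right] at hy
      by_cases hy0 : y = 0
      · exact ⟨0, interior_subset h.zero, by simp [hy0]⟩
      · set x0 := T.symm y with hx0
        have hx0n : x0 ≠ 0 := by
          intro h0
          apply hy0
          have : T x0 = y := by simp [hx0]
          rw [← this, h0, map_zero]
        have hq0 : 0 < q x0 := h.pos hx0n
        have hyn : 0 < ‖y‖ := norm_pos_iff.2 hy0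
        refine ⟨(‖y‖ / q x0) • x0, ?_, ?_⟩
        · have : gauge S ((‖y‖ / q x0) • x0) ≤ 1 := by
            rw [gauge_smul_of_nonneg (by positivity)]
            change ‖y‖ / q x0 * q x0 ≤ 1
            rw [div_mul_cancel₀ _ hq0.ne']; exact hy
          have := (h.le_iff _ one_pos).1 this
          simpa using this
        · simp only
          have e1 : q ((‖y‖ / q x0) • x0) = ‖y‖ := by
            rw [hq, gauge_smul_of_nonneg (by positivity)]
            change ‖y‖ / q x0 * q x0 = ‖y‖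
            rw [div_mul_cancel₀ _ hq0.ne']
          have e2 : T ((‖y‖ / q x0) • x0) = (‖y‖ / q x0) • y := by
            rw [map_smul]; simp [hx0]
          rw [e1, e2, norm_smul, Real.norm_of_nonneg (by positivity), smul_smul]
          have : ‖y‖ / (‖y‖ / q x0 * ‖y‖) * (‖y‖ / q x0) = 1 := by
            field_simp
          rw [this, one_smul]

end star
/-- cone over the circle with a spiral -/
def L : Set (ℂ × ℝ) :=
  {p | ‖p.1‖ ≤ 1 ∧ 0 ≤ p.2 ∧ p.2 ≤ ‖p.1‖ ∧
    (p.2 = 0 ∨ p.1 = (‖p.1‖ : ℂ) * cexp (((‖p.1‖ / p.2 - 1 : ℝ) : ℂ) * I))}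

lemma L_zero : ((0, 0) : ℂ × ℝ) ∈ L := by simp [L]

lemma L_closed : IsClosed L := by
  rw [← closure_subset_iff_isClosed]
  intro p hp
  have h1 : ‖p.1‖ ≤ 1 ∧ 0 ≤ p.2 ∧ p.2 ≤ ‖p.1‖ := by
    have hc : IsClosed {p : ℂ × ℝ | ‖p.1‖ ≤ 1 ∧ 0 ≤ p.2 ∧ p.2 ≤ ‖p.1‖} := by
      apply IsClosed.and
      · exact isClosed_le (continuous_fst.norm) continuous_const
      · apply IsClosed.and
        · exact isClosed_le continuous_const continuous_snd
        · exact isClosed_le continuous_snd continuous_fst.norm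
    have hsub : L ⊆ {p : ℂ × ℝ | ‖p.1‖ ≤ 1 ∧ 0 ≤ p.2 ∧ p.2 ≤ ‖p.1‖} := by
      intro x hx
      exact ⟨hx.1, hx.2.1, hx.2.2.1⟩
    exact closure_minimal hsub hc hp
  refine ⟨h1.1, h1.2.1, h1.2.2, ?_⟩
  by_cases hr : p.2 = 0
  · left; exact hr
  right
  by_contra hne
  set F : ℂ × ℝ → ℂ := fun p => p.1 - (‖p.1‖ : ℂ) * cexp (((‖p.1‖ / p.2 - 1 : ℝ) : ℂ) * I) with hF
  have hFc : ContinuousAt F p := by
    have c1 : ContinuousAt (fun p : ℂ × ℝ => p.1) p := continuousAt_fst
    have c2 : ContinuousAt (fun p : ℂ × ℝ => ‖p.1‖) p := continuousAt_fst.norm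
    have c3 : ContinuousAt (fun p : ℂ × ℝ => ((‖p.1‖ : ℝ) : ℂ)) p :=
      continuous_ofReal.continuousAt.comp c2
    have c4 : ContinuousAt (fun p : ℂ × ℝ => (‖p.1‖ / p.2 - 1 : ℝ)) p :=
      (c2.div continuousAt_snd hr).sub continuousAt_const
    have c5 : ContinuousAt (fun p : ℂ × ℝ => (((‖p.1‖ / p.2 - 1 : ℝ) : ℂ))) p :=
      continuous_ofReal.continuousAt.comp c4
    exact c1.sub (c3.mul ((c5.mul continuousAt_const).cexp))
  have hFp : F p ≠ 0 := by
    intro h
    exact hne (sub_eq_zero.1 h)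
  have ev1 : ∀ᶠ x in 𝓝 p, F x ≠ 0 := hFc.eventually_ne hFp
  have ev2 : ∀ᶠ x : ℂ × ℝ in 𝓝 p, x.2 ≠ 0 := (continuousAt_snd).eventually_ne hr
  have hfr : ∃ᶠ x in 𝓝 p, x ∈ L := mem_closure_iff_frequently.1 hp
  obtain ⟨x, hxL, hx1, hx2⟩ := (hfr.and_eventually (ev1.and ev2)).exists
  rcases hxL.2.2.2 with h | h
  · exact hx2 h
  · exact hx1 (sub_eq_zero.2 h)

lemma L_norm {p : ℂ × ℝ} (hp : p ∈ L) : ‖p‖ ≤ 1 := by
  rw [Prod.norm_def]
  apply max_le hp.1
  rw [Real.norm_of_nonneg hp.2.1]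
  exact hp.2.2.1.trans hp.1

lemma L_smul {p : ℂ × ℝ} (hp : p ∈ L) {t : ℝ} (h0 : 0 ≤ t) (h1 : t ≤ 1) : t • p ∈ L := by
  obtain ⟨a, b, c, d⟩ := hp
  have hn : ‖(t • p).1‖ = t * ‖p.1‖ := by
    simp [abs_of_nonneg h0]
  have h2 : (t • p).2 = t * p.2 := by simp
  refine ⟨?_, ?_, ?_, ?_⟩
  · rw [hn]; nlinarith [norm_nonneg p.1]
  · rw [h2]; positivity
  · rw [h2, hn]; exact mul_le_mul_of_nonneg_left c h0
  · rcases eq_or_lt_of_le h0 with h | h
    · left; rw [h2, ← h, zero_mul]
    rcases d with d | d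
    · left; rw [h2, d, mul_zero]
    · right
      rw [hn, h2]
      have e : t * ‖p.1‖ / (t * p.2) = ‖p.1‖ / p.2 := by
        rw [mul_div_mul_left _ _ h.ne']
      rw [e]
      have : (t • p).1 = (t : ℂ) * p.1 := by simp
      rw [this]
      conv_lhs => rw [d]
      push_cast
      ring

/-- radial coordinate of the image -/
noncomputable def tau (p : ℂ × ℝ) : ℝ :=
  max (1 - 3 * ‖p.1‖) 0 + (p.2 + (‖p.1‖ - p.2) * min 1 (max (3 * ‖p.1‖ - 1) 0)) / max ‖p.1‖ (1/3)

lemma tau_cont : Continuous tau := by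
  unfold tau
  have c1 : Continuous (fun p : ℂ × ℝ => ‖p.1‖) := continuous_fst.norm
  refine Continuous.add ?_ ?_
  · fun_prop
  · refine Continuous.div ?_ ?_ ?_
    · fun_prop
    · fun_prop
    · intro p
      have : (0:ℝ) < max ‖p.1‖ (1/3) := lt_max_of_lt_right (by norm_num)
      exact this.ne'

lemma tau_small {p : ℂ × ℝ} (h : ‖p.1‖ ≤ 1/3) : tau p = 1 - 3 * ‖p.1‖ + 3 * p.2 := by
  unfold tau
  rw [max_eq_left (by linarith), max_eq_right (by linarith : 3 * ‖p.1‖ - 1 ≤ 0),
    min_eq_right (by norm_num), max_eq_right h]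
  ring

lemma tau_mid {p : ℂ × ℝ} (h : 1/3 ≤ ‖p.1‖) (h' : ‖p.1‖ ≤ 2/3) :
    tau p = (p.2 + (‖p.1‖ - p.2) * (3 * ‖p.1‖ - 1)) / ‖p.1‖ := by
  unfold tau
  rw [max_eq_right (by linarith), max_eq_left (by linarith : 0 ≤ 3 * ‖p.1‖ - 1),
    min_eq_right (by linarith), max_eq_left h, zero_add]

lemma tau_big {p : ℂ × ℝ} (h : 2/3 ≤ ‖p.1‖) : tau p = 1 := by
  unfold tau
  rw [max_eq_right (by linarith), max_eq_left (by linarith : 0 ≤ 3 * ‖p.1‖ - 1),
    min_eq_left (by linarith), max_eq_left (by linarith), zero_add]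
  have : ‖p.1‖ ≠ 0 := by intro h0; rw [h0] at h; norm_num at h
  field_simp
  ring

lemma tau_mem {p : ℂ × ℝ} (hp : p ∈ L) : 0 ≤ tau p ∧ tau p ≤ 1 := by
  obtain ⟨a, b, c, -⟩ := hp
  rcases le_total ‖p.1‖ (1/3) with h | h
  · rw [tau_small h]
    constructor <;> linarith
  rcases le_total ‖p.1‖ (2/3) with h' | h'
  · rw [tau_mid h h']
    have hpos : 0 < ‖p.1‖ := by linarith
    constructor
    · apply div_nonneg _ hpos.le
      have : 0 ≤ (‖p.1‖ - p.2) * (3 * ‖p.1‖ - 1) := mul_nonneg (by linarith) (by linarith)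
      linarith
    · rw [div_le_one hpos]
      nlinarith
  · rw [tau_big h']
    constructor <;> norm_num

/-- second piece of the map -/
noncomputable def gB (p : ℂ × ℝ) : ℂ × ℝ :=
  (((tau p / ‖p.1‖ : ℝ) : ℂ) * p.1 * cexp (((1 - 1 / (3 * ‖p.1‖ - 1) : ℝ) : ℂ) * I),
    tau p * (p.2 * (3 * ‖p.1‖ - 1) / (p.2 * (3 * ‖p.1‖ - 1) + (3 * ‖p.1‖ - 1) * ‖p.1‖ - p.2)))

noncomputable def gA (p : ℂ × ℝ) : ℂ × ℝ := (((tau p : ℝ) : ℂ), tau p)

open Classical in
noncomputable def g (p : ℂ × ℝ) : ℂ × ℝ :=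
  if (3 * ‖p.1‖ - 1) * ‖p.1‖ ≤ p.2 then gA p else gB p

lemma g_of_le {p : ℂ × ℝ} (h : (3 * ‖p.1‖ - 1) * ‖p.1‖ ≤ p.2) : g p = gA p := by
  unfold g; rw [if_pos h]

lemma g_of_lt {p : ℂ × ℝ} (h : p.2 < (3 * ‖p.1‖ - 1) * ‖p.1‖) : g p = gB p := by
  unfold g; rw [if_neg (not_le.2 h)]

lemma gA_mem {p : ℂ × ℝ} (hp : p ∈ L) : gA p ∈ L := by
  obtain ⟨h0, h1⟩ := tau_mem hp
  have hn : ‖(gA p).1‖ = tau p := by
    simp only [gA]
    rw [Complex.norm_real, Real.norm_of_nonneg h0]
  refine ⟨by rw [hn]; exact h1, h0, by rw [hn]; exact le_refl _, ?_⟩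
  by_cases h : tau p = 0
  · left; exact h
  · right
    rw [hn]
    simp only [gA]
    rw [div_self h]
    simp

lemma B_pos {p : ℂ × ℝ} (hp : p ∈ L) (h : p.2 < (3 * ‖p.1‖ - 1) * ‖p.1‖) :
    0 < ‖p.1‖ ∧ 0 < 3 * ‖p.1‖ - 1 := by
  obtain ⟨a, b, c, -⟩ := hp
  have h1 : 0 < (3 * ‖p.1‖ - 1) * ‖p.1‖ := lt_of_le_of_lt b h
  have h2 : 0 ≤ ‖p.1‖ := norm_nonneg _
  have h3 : 0 < ‖p.1‖ := by
    rcases eq_or_lt_of_le h2 with h | h
    · rw [← h, mul_zero] at h1; exact absurd h1 (lt_irrefl _)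
    · exact h
  exact ⟨h3, by
    by_contra hc
    have : (3 * ‖p.1‖ - 1) * ‖p.1‖ ≤ 0 := mul_nonpos_of_nonpos_of_nonneg (not_lt.1 hc) h2
    linarith⟩

lemma gB_norm {p : ℂ × ℝ} (hp : p ∈ L) (h : 0 < ‖p.1‖) : ‖(gB p).1‖ = tau p := by
  obtain ⟨h0, h1⟩ := tau_mem hp
  simp only [gB]
  rw [norm_mul, Complex.norm_exp_ofReal_mul_I, mul_one, norm_mul, Complex.norm_real,
    Real.norm_of_nonneg (by positivity), div_mul_cancel₀ _ h.ne']

lemma gB_mem {p : ℂ × ℝ} (hp : p ∈ L) (h : p.2 < (3 * ‖p.1‖ - 1) * ‖p.1‖) : gB p ∈ L := by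
  obtain ⟨h0, h1⟩ := tau_mem hp
  obtain ⟨ht, hq⟩ := B_pos hp h
  have hn := gB_norm hp ht
  obtain ⟨a, b, c, d⟩ := hp
  have hden : 0 < p.2 * (3 * ‖p.1‖ - 1) + (3 * ‖p.1‖ - 1) * ‖p.1‖ - p.2 := by
    have : 0 ≤ p.2 * (3 * ‖p.1‖ - 1) := mul_nonneg b hq.le
    linarith
  have hs0 : 0 ≤ p.2 * (3 * ‖p.1‖ - 1) / (p.2 * (3 * ‖p.1‖ - 1) + (3 * ‖p.1‖ - 1) * ‖p.1‖ - p.2) :=
    div_nonneg (mul_nonneg b hq.le) hden.le
  have hs1 : p.2 * (3 * ‖p.1‖ - 1) / (p.2 * (3 * ‖p.1‖ - 1) + (3 * ‖p.1‖ - 1) * ‖p.1‖ - p.2) ≤ 1 := by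
    rw [div_le_one hden]; linarith
  refine ⟨by rw [hn]; exact h1, ?_, ?_, ?_⟩
  · simp only [gB]; exact mul_nonneg h0 hs0
  · rw [hn]
    simp only [gB]
    calc _ ≤ tau p * 1 := mul_le_mul_of_nonneg_left hs1 h0
      _ = tau p := mul_one _
  · by_cases hr : p.2 = 0
    · left; simp [gB, hr]
    by_cases hτ : tau p = 0
    · left; simp [gB, hτ]
    right
    rw [hn]
    have hr' : 0 < p.2 := lt_of_le_of_ne b (Ne.symm hr)
    rcases d with d | d
    · exact absurd d hr
    have e1 : tau p / (gB p).2 - 1 = ‖p.1‖ / p.2 - 1 / (3 * ‖p.1‖ - 1) := by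
      simp only [gB]
      have h3 : (3 * ‖p.1‖ - 1) ≠ 0 := hq.ne'
      have h4 := hden.ne'
      field_simp
      ring
    rw [e1]
    simp only [gB]
    conv_lhs => rw [d]
    have hn1 : ‖(‖p.1‖ : ℂ) * cexp (((‖p.1‖ / p.2 - 1 : ℝ) : ℂ) * I)‖ = ‖p.1‖ := by
      rw [← d]
    rw [hn1]
    have ht' : ((‖p.1‖ : ℝ) : ℂ) ≠ 0 := by
      exact_mod_cast ht.ne'
    have : ((tau p / ‖p.1‖ : ℝ) : ℂ) * ((‖p.1‖ : ℂ) * cexp (((‖p.1‖ / p.2 - 1 : ℝ) : ℂ) * I)) *
        cexp (((1 - 1 / (3 * ‖p.1‖ - 1) : ℝ) : ℂ) * I)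
        = (tau p : ℂ) * (cexp (((‖p.1‖ / p.2 - 1 : ℝ) : ℂ) * I) *
        cexp (((1 - 1 / (3 * ‖p.1‖ - 1) : ℝ) : ℂ) * I)) := by
      push_cast
      field_simp
    rw [this, ← Complex.exp_add]
    congr 2
    push_cast
    ring

lemma g_mem {p : ℂ × ℝ} (hp : p ∈ L) : g p ∈ L := by
  unfold g
  split_ifs with h
  · exact gA_mem hp
  · exact gB_mem hp (not_le.1 h)

lemma exp_ne_one {x : ℝ} (h : x ≠ 0) (h1 : -1 ≤ x) (h2 : x ≤ 1) : cexp ((x : ℂ) * I) ≠ 1 := by
  intro hc
  rw [Complex.exp_eq_one_iff] at hc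
  obtain ⟨n, hn⟩ := hc
  have h3 : (x : ℂ) = (n : ℂ) * (2 * (Real.pi : ℂ)) := by
    have hI : I ≠ 0 := I_ne_zero
    apply mul_right_cancel₀ hI
    rw [hn]; ring
  have h4 : x = (n : ℝ) * (2 * Real.pi) := by exact_mod_cast h3
  have hpi := Real.pi_gt_three
  rcases lt_trichotomy n 0 with hn0 | hn0 | hn0
  · have : (n : ℝ) ≤ -1 := by exact_mod_cast Int.le_sub_one_of_lt hn0
    nlinarith
  · rw [hn0] at h4; apply h; simpa using h4
  · have : (1 : ℝ) ≤ n := by exact_mod_cast hn0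
    nlinarith

lemma g_ne {p : ℂ × ℝ} (hp : p ∈ L) : g p ≠ p := by
  obtain ⟨h0, h1⟩ := tau_mem hp
  intro hfix
  unfold g at hfix
  split_ifs at hfix with h
  · -- case A
    have e1 : ((tau p : ℝ) : ℂ) = p.1 := congrArg Prod.fst hfix
    have e2 : tau p = p.2 := congrArg Prod.snd hfix
    have e3 : ‖p.1‖ = tau p := by
      rw [← e1, Complex.norm_real, Real.norm_of_nonneg h0]
    rcases le_total ‖p.1‖ (1/3) with h' | h'
    · rw [tau_small h'] at e2 e3
      linarith
    rcases le_total ‖p.1‖ (2/3) with h'' | h''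
    · have := tau_mid h' h''
      rw [← e2, ← e3] at this
      have hpos : 0 < ‖p.1‖ := by linarith
      rw [sub_self, zero_mul, add_zero, div_self hpos.ne'] at this
      rw [this] at h''
      norm_num at h''
    · rw [tau_big h''] at e2 e3
      rw [e3, ← e2] at h
      norm_num at h
  · -- case B
    have h := not_le.1 h
    obtain ⟨ht, hq⟩ := B_pos hp h
    have hn := gB_norm hp ht
    rw [hfix] at hn
    have e1 : (gB p).1 = p.1 := congrArg Prod.fst hfix
    have e2 : (gB p).2 = p.2 := congrArg Prod.snd hfix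
    simp only [gB] at e1 e2
    obtain ⟨a, b, c, d⟩ := hp
    have hden : 0 < p.2 * (3 * ‖p.1‖ - 1) + (3 * ‖p.1‖ - 1) * ‖p.1‖ - p.2 := by
      have : 0 ≤ p.2 * (3 * ‖p.1‖ - 1) := mul_nonneg b hq.le
      linarith
    rcases eq_or_lt_of_le b with hr | hr
    · -- r = 0
      have h13 : 1/3 ≤ ‖p.1‖ := by linarith
      rw [← hn, div_self ht.ne'] at e1
      have hp1 : p.1 ≠ 0 := norm_pos_iff.1 ht
      have e3 : cexp (((1 - 1 / (3 * ‖p.1‖ - 1) : ℝ) : ℂ) * I) = 1 := by
        apply mul_left_cancel₀ hp1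
        rw [mul_one]
        simpa using e1
      rcases le_total ‖p.1‖ (2/3) with h'' | h''
      · rw [tau_mid h13 h'', ← hr] at hn
        have : ‖p.1‖ = 3 * ‖p.1‖ - 1 := by
          have h5 : (0 + (‖p.1‖ - 0) * (3 * ‖p.1‖ - 1)) / ‖p.1‖ = 3 * ‖p.1‖ - 1 := by
            field_simp
            ring
          rw [h5] at hn
          exact hn
        have h6 : ‖p.1‖ = 1/2 := by linarith
        rw [h6] at e3
        refine exp_ne_one ?_ ?_ ?_ e3 <;> norm_num
      · rw [tau_big h''] at hn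
        rw [hn] at e3
        refine exp_ne_one ?_ ?_ ?_ e3 <;> norm_num
    · -- r > 0
      rw [← hn] at e2
      rw [mul_div_assoc', div_eq_iff hden.ne'] at e2
      have h7 : (3 * ‖p.1‖ - 1) * ‖p.1‖ = p.2 * (3 * ‖p.1‖ - 1) + (3 * ‖p.1‖ - 1) * ‖p.1‖ - p.2 := by
        have : p.2 * ((3 * ‖p.1‖ - 1) * ‖p.1‖) = p.2 * (p.2 * (3 * ‖p.1‖ - 1) + (3 * ‖p.1‖ - 1) * ‖p.1‖ - p.2) := by
          linarith
        exact mul_left_cancel₀ hr.ne' this
      have h8 : p.2 * (3 * ‖p.1‖ - 1 - 1) = 0 := by linarith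
      have h9 : 3 * ‖p.1‖ - 1 - 1 = 0 := by
        rcases mul_eq_zero.1 h8 with h' | h'
        · exact absurd h' hr.ne'
        · exact h'
      have h10 : ‖p.1‖ = 2/3 := by linarith
      rw [tau_big h10.ge, h10] at hn
      norm_num at hn

lemma gA_cont : Continuous gA := by
  unfold gA
  exact (continuous_ofReal.comp tau_cont).prodMk tau_cont

lemma gB_cont {p : ℂ × ℝ} (hp : p ∈ L) (hq : 0 < 3 * ‖p.1‖ - 1)
    (h : p.2 ≤ (3 * ‖p.1‖ - 1) * ‖p.1‖) : ContinuousAt gB p := by
  obtain ⟨a, b, c, d⟩ := hp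
  have ht : 0 < ‖p.1‖ := by linarith
  have hden : 0 < p.2 * (3 * ‖p.1‖ - 1) + (3 * ‖p.1‖ - 1) * ‖p.1‖ - p.2 := by
    rcases eq_or_lt_of_le b with hr | hr
    · rw [← hr]
      have : 0 < (3 * ‖p.1‖ - 1) * ‖p.1‖ := mul_pos hq ht
      linarith
    · have : 0 < p.2 * (3 * ‖p.1‖ - 1) := mul_pos hr hq
      linarith
  have cn : ContinuousAt (fun p : ℂ × ℝ => ‖p.1‖) p := continuousAt_fst.norm
  have cτ : ContinuousAt tau p := tau_cont.continuousAt
  have cq : ContinuousAt (fun p : ℂ × ℝ => 3 * ‖p.1‖ - 1) p :=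
    (continuousAt_const.mul cn).sub continuousAt_const
  unfold gB
  apply ContinuousAt.prodMk
  · apply ContinuousAt.mul
    · apply ContinuousAt.mul
      · exact continuous_ofReal.continuousAt.comp (cτ.div cn ht.ne')
      · exact continuousAt_fst
    · apply ContinuousAt.cexp
      apply ContinuousAt.mul _ continuousAt_const
      have : ContinuousAt (fun p : ℂ × ℝ => (1 - 1 / (3 * ‖p.1‖ - 1) : ℝ)) p :=
        continuousAt_const.sub (continuousAt_const.div cq hq.ne')
      exact continuous_ofReal.continuousAt.comp this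
  · apply cτ.mul
    apply ContinuousAt.div
    · exact continuousAt_snd.mul cq
    · exact ((continuousAt_snd.mul cq).add (cq.mul cn)).sub continuousAt_snd
    · exact hden.ne'

lemma gB_le {p : ℂ × ℝ} (hp : p ∈ L) (h : p.2 < (3 * ‖p.1‖ - 1) * ‖p.1‖) : ‖gB p‖ ≤ tau p := by
  obtain ⟨ht, hq⟩ := B_pos hp h
  have hn := gB_norm hp ht
  have hm := gB_mem hp h
  rw [Prod.norm_def]
  apply max_le hn.le
  rw [Real.norm_of_nonneg hm.2.1, ← hn]
  exact hm.2.2.1

lemma g_cont : ContinuousOn g L := by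
  intro p hp
  have hsplit : L = (L ∩ {x | (3 * ‖x.1‖ - 1) * ‖x.1‖ ≤ x.2}) ∪ (L ∩ {x | x.2 < (3 * ‖x.1‖ - 1) * ‖x.1‖}) := by
    ext x
    simp only [mem_union, mem_inter_iff, mem_ofPred_eq]
    constructor
    · intro hx
      rcases le_or_gt ((3 * ‖x.1‖ - 1) * ‖x.1‖) x.2 with h | h
      · left; exact ⟨hx, h⟩
      · right; exact ⟨hx, h⟩
    · rintro (h | h) <;> exact h.1
  have cn : Continuous (fun p : ℂ × ℝ => ‖p.1‖) := continuous_fst.norm
  have cc : Continuous (fun p : ℂ × ℝ => (3 * ‖p.1‖ - 1) * ‖p.1‖) := by fun_prop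
  rw [hsplit]
  apply ContinuousWithinAt.union
  · -- A part
    by_cases h : (3 * ‖p.1‖ - 1) * ‖p.1‖ ≤ p.2
    · have : ContinuousWithinAt gA (L ∩ {x | (3 * ‖x.1‖ - 1) * ‖x.1‖ ≤ x.2}) p :=
        gA_cont.continuousWithinAt
      refine this.congr ?_ ?_
      · intro x hx
        exact g_of_le hx.2
      · exact g_of_le h
    · -- p not in closure
      have hcl : IsClosed {x : ℂ × ℝ | (3 * ‖x.1‖ - 1) * ‖x.1‖ ≤ x.2} := isClosed_le cc continuous_snd
      have : p ∉ closure (L ∩ {x : ℂ × ℝ | (3 * ‖x.1‖ - 1) * ‖x.1‖ ≤ x.2}) := by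
        intro hc
        exact h (closure_minimal inter_subset_right hcl hc)
      exact continuousWithinAt_of_notMem_closure this
  · rcases lt_trichotomy p.2 ((3 * ‖p.1‖ - 1) * ‖p.1‖) with h | h | h
    · obtain ⟨ht, hq⟩ := B_pos hp h
      have : ContinuousWithinAt gB (L ∩ {x | x.2 < (3 * ‖x.1‖ - 1) * ‖x.1‖}) p :=
        (gB_cont hp hq h.le).continuousWithinAt
      refine this.congr ?_ ?_
      · intro x hx
        exact g_of_lt hx.2
      · exact g_of_lt h
    · -- boundary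
      have hg : g p = gA p := by unfold g; rw [if_pos h.ge]
      rcases lt_trichotomy (3 * ‖p.1‖ - 1) 0 with hq | hq | hq
      · -- not in closure
        have hop : IsOpen {x : ℂ × ℝ | 3 * ‖x.1‖ - 1 < 0} := isOpen_lt (by fun_prop) continuous_const
        have : p ∉ closure (L ∩ {x : ℂ × ℝ | x.2 < (3 * ‖x.1‖ - 1) * ‖x.1‖}) := by
          intro hc
          obtain ⟨x, hx1, hx2⟩ := mem_closure_iff.1 hc _ hop hq
          have := (B_pos hx2.1 hx2.2).2
          exact absurd this (not_lt.2 (le_of_lt hx1))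
        exact continuousWithinAt_of_notMem_closure this
      · -- q = 0
        have hr : p.2 = 0 := by rw [h, hq, zero_mul]
        have ht : ‖p.1‖ = 1/3 := by linarith
        have hτ : tau p = 0 := by
          rw [tau_small ht.le, ht, hr]; norm_num
        have hg0 : g p = 0 := by
          rw [hg]; unfold gA; rw [hτ]; simp
        unfold ContinuousWithinAt
        rw [hg0]
        apply squeeze_zero_norm' (a := tau)
        · filter_upwards [self_mem_nhdsWithin] with x hx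
          have : g x = gB x := g_of_lt hx.2
          rw [this]
          exact gB_le hx.1 hx.2
        · have := tau_cont.tendsto p
          rw [hτ] at this
          exact this.mono_left nhdsWithin_le_nhds
      · -- q > 0
        have hBA : gB p = gA p := by
          obtain ⟨a, b, c, d⟩ := hp
          have ht : 0 < ‖p.1‖ := by linarith
          have hr : 0 < p.2 := by rw [h]; exact mul_pos hq ht
          rcases d with d | d
          · exact absurd d hr.ne'
          have e1 : p.2 * (3 * ‖p.1‖ - 1) / (p.2 * (3 * ‖p.1‖ - 1) + (3 * ‖p.1‖ - 1) * ‖p.1‖ - p.2) = 1 := by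
            rw [← h]
            have : p.2 * (3 * ‖p.1‖ - 1) ≠ 0 := (mul_pos hr hq).ne'
            have e : p.2 * (3 * ‖p.1‖ - 1) + p.2 - p.2 = p.2 * (3 * ‖p.1‖ - 1) := by ring
            rw [e, div_self this]
          have e2 : ‖p.1‖ / p.2 = 1 / (3 * ‖p.1‖ - 1) := by
            rw [div_eq_div_iff hr.ne' hq.ne', h]; ring
          unfold gB gA
          ext1
          · simp only
            have e3 : ((tau p / ‖p.1‖ : ℝ) : ℂ) * p.1 * cexp (((1 - 1 / (3 * ‖p.1‖ - 1) : ℝ) : ℂ) * I) =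
              (tau p : ℂ) := by
              have ht' : ((‖p.1‖ : ℝ) : ℂ) ≠ 0 := by exact_mod_cast ht.ne'
              have e4 : p.1 = (‖p.1‖ : ℂ) * cexp (((1 / (3 * ‖p.1‖ - 1) - 1 : ℝ) : ℂ) * I) := by
                rw [← e2]; exact d
              set n := ‖p.1‖ with hn
              rw [e4]
              have : ((tau p / n : ℝ) : ℂ) * ((n : ℂ) * cexp (((1 / (3 * n - 1) - 1 : ℝ) : ℂ) * I)) *
                  cexp (((1 - 1 / (3 * n - 1) : ℝ) : ℂ) * I)
                = (tau p : ℂ) * (cexp (((1 / (3 * n - 1) - 1 : ℝ) : ℂ) * I) *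
                  cexp (((1 - 1 / (3 * n - 1) : ℝ) : ℂ) * I)) := by
                push_cast
                field_simp
              rw [this, ← Complex.exp_add]
              have : (((1 / (3 * n - 1) - 1 : ℝ) : ℂ) * I) + (((1 - 1 / (3 * n - 1) : ℝ) : ℂ) * I) = 0 := by
                push_cast; ring
              rw [this, Complex.exp_zero, mul_one]
            exact e3
          · simp only
            rw [e1, mul_one]
        have : ContinuousWithinAt gB (L ∩ {x | x.2 < (3 * ‖x.1‖ - 1) * ‖x.1‖}) p :=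
          (gB_cont hp hq h.le).continuousWithinAt
        refine this.congr ?_ ?_
        · intro x hx
          exact g_of_lt hx.2
        · rw [hg, hBA]
    · -- r > qt
      have hcl : IsClosed {x : ℂ × ℝ | x.2 ≤ (3 * ‖x.1‖ - 1) * ‖x.1‖} := isClosed_le continuous_snd cc
      have : p ∉ closure (L ∩ {x : ℂ × ℝ | x.2 < (3 * ‖x.1‖ - 1) * ‖x.1‖}) := by
        intro hc
        have : p ∈ {x : ℂ × ℝ | x.2 ≤ (3 * ‖x.1‖ - 1) * ‖x.1‖} :=
          closure_minimal (fun x hx => le_of_lt (show x.2 < (3 * ‖x.1‖ - 1) * ‖x.1‖ from hx.2)) hcl hc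
        exact absurd h (not_lt.2 this)
      exact continuousWithinAt_of_notMem_closure this

section main
open Module

abbrev E5 := (ℂ × ℝ) × ℂ

noncomputable def rho (w : ℂ × ℝ) : ℝ := infDist w L

lemma rho_cont : Continuous rho := continuous_infDist_pt L

lemma rho_nonneg (w : ℂ × ℝ) : 0 ≤ rho w := infDist_nonneg

lemma L_ne : L.Nonempty := ⟨_, L_zero⟩

lemma rho_zero : rho (0 : ℂ × ℝ) = 0 := infDist_zero_of_mem L_zero

lemma rho_eq_zero {w : ℂ × ℝ} (h : rho w = 0) : w ∈ L :=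
  (L_closed.mem_iff_infDist_zero L_ne).2 h

lemma rho_of_mem {w : ℂ × ℝ} (h : w ∈ L) : rho w = 0 := infDist_zero_of_mem h

lemma rho_le_norm (w : ℂ × ℝ) : rho w ≤ ‖w‖ := by
  have := infDist_le_dist_of_mem (x := w) L_zero
  have h0 : ((0, 0) : ℂ × ℝ) = 0 := rfl
  rw [h0, dist_zero_right] at this
  exact this

lemma rho_smul (w : ℂ × ℝ) {t : ℝ} (h0 : 0 ≤ t) (h1 : t ≤ 1) : rho (t • w) ≤ t * rho w := by
  rcases eq_or_lt_of_le h0 with h | h
  · rw [← h, zero_smul, rho_zero, zero_mul]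
  · rw [← div_le_iff₀' h]
    unfold rho
    rw [le_infDist L_ne]
    intro y hy
    rw [div_le_iff₀' h]
    have := infDist_le_dist_of_mem (x := t • w) (L_smul hy h0 h1)
    rw [dist_smul₀, Real.norm_of_nonneg h0] at this
    exact this

def MM : Set E5 := {x | ‖x.1‖ ≤ 1 ∧ rho x.1 ≤ ‖x.2‖ ∧ ‖x.2‖ ≤ 1}

lemma MM_closed : IsClosed MM := by
  unfold MM
  apply IsClosed.and
  · exact isClosed_le continuous_fst.norm continuous_const
  apply IsClosed.and
  · exact isClosed_le (rho_cont.comp continuous_fst) continuous_snd.norm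
  · exact isClosed_le continuous_snd.norm continuous_const

lemma MM_compact : IsCompact MM := by
  apply Metric.isCompact_of_isClosed_isBounded MM_closed
  rw [isBounded_iff_forall_norm_le]
  refine ⟨1, fun x hx => ?_⟩
  rw [Prod.norm_def]
  exact max_le hx.1 hx.2.2

lemma MM_zero : (0 : E5) ∈ MM := by
  refine ⟨by simp, ?_, by simp⟩
  change rho (0 : ℂ × ℝ) ≤ _
  rw [rho_zero]; exact norm_nonneg _

lemma MM_star : StarConvex ℝ (0 : E5) MM := by
  rw [starConvex_zero_iff]
  intro x hx t h0 h1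
  refine ⟨?_, ?_, ?_⟩
  · rw [Prod.smul_fst, norm_smul, Real.norm_of_nonneg h0]
    nlinarith [hx.1, norm_nonneg x.1]
  · rw [Prod.smul_fst, Prod.smul_snd, norm_smul, Real.norm_of_nonneg h0]
    exact (rho_smul _ h0 h1).trans (mul_le_mul_of_nonneg_left hx.2.1 h0)
  · rw [Prod.smul_snd, norm_smul, Real.norm_of_nonneg h0]
    nlinarith [hx.2.2, norm_nonneg x.2]

lemma MM_connected : IsConnected MM :=
  (MM_star.isPathConnected MM_zero).isConnected

def SS (ε : ℝ) : Set E5 := {x | ‖x.1‖ ≤ 1 ∧ rho x.1 ≤ ‖x.2‖ + ε ∧ ‖x.2‖ + min (rho x.1) ε ≤ 1}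

lemma SS_star {ε : ℝ} (h0 : 0 < ε) (h1 : ε < 1) : StarBody (SS ε) := by
  have cr : Continuous (fun x : E5 => rho x.1) := rho_cont.comp continuous_fst
  have hopen : IsOpen {x : E5 | ‖x.1‖ < 1 ∧ rho x.1 < ‖x.2‖ + ε ∧ ‖x.2‖ + min (rho x.1) ε < 1} := by
    apply IsOpen.and
    · exact isOpen_lt continuous_fst.norm continuous_const
    apply IsOpen.and
    · exact isOpen_lt cr (continuous_snd.norm.add continuous_const)
    · exact isOpen_lt (continuous_snd.norm.add (cr.min continuous_const)) continuous_const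
  have hsub : {x : E5 | ‖x.1‖ < 1 ∧ rho x.1 < ‖x.2‖ + ε ∧ ‖x.2‖ + min (rho x.1) ε < 1} ⊆
      interior (SS ε) := by
    apply interior_maximal _ hopen
    intro x hx
    exact ⟨hx.1.le, hx.2.1.le, hx.2.2.le⟩
  refine ⟨?_, ?_, ?_⟩
  · apply Metric.isCompact_of_isClosed_isBounded
    · unfold SS
      apply IsClosed.and
      · exact isClosed_le continuous_fst.norm continuous_const
      apply IsClosed.and
      · exact isClosed_le cr (continuous_snd.norm.add continuous_const)
      · exact isClosed_le (continuous_snd.norm.add (cr.min continuous_const)) continuous_const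
    · rw [isBounded_iff_forall_norm_le]
      refine ⟨1, fun x hx => ?_⟩
      rw [Prod.norm_def]
      apply max_le hx.1
      have : 0 ≤ min (rho x.1) ε := le_min (rho_nonneg _) h0.le
      linarith [hx.2.2]
  · apply hsub
    refine ⟨by simp, ?_, ?_⟩
    · change rho (0 : ℂ × ℝ) < _
      rw [rho_zero]; simpa using h0
    · change _ + min (rho (0 : ℂ × ℝ)) ε < 1
      rw [rho_zero, min_eq_left h0.le]; simp
  · intro x hx t ht0 ht1
    apply hsub
    have hr := rho_smul x.1 ht0 ht1.le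
    have hn1 : ‖(t • x).1‖ = t * ‖x.1‖ := by
      rw [Prod.smul_fst, norm_smul, Real.norm_of_nonneg ht0]
    have hn2 : ‖(t • x).2‖ = t * ‖x.2‖ := by
      rw [Prod.smul_snd, norm_smul, Real.norm_of_nonneg ht0]
    obtain ⟨a, b, c⟩ := hx
    refine ⟨?_, ?_, ?_⟩
    · rw [hn1]
      have : t * ‖x.1‖ ≤ t * 1 := mul_le_mul_of_nonneg_left a ht0
      linarith
    · rw [hn2]
      change rho (t • x.1) < _
      have : t * rho x.1 ≤ t * (‖x.2‖ + ε) := mul_le_mul_of_nonneg_left b ht0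
      nlinarith
    · rw [hn2]
      change _ + min (rho (t • x.1)) ε < 1
      rcases le_total (rho x.1) ε with h | h
      · rw [min_eq_left h] at c
        have h3 : min (rho (t • x.1)) ε ≤ t * rho x.1 := (min_le_left _ _).trans hr
        have : t * (‖x.2‖ + rho x.1) ≤ t * 1 := mul_le_mul_of_nonneg_left c ht0
        linarith
      · rw [min_eq_right h] at c
        have h3 : min (rho (t • x.1)) ε ≤ ε := min_le_right _ _
        have : t * (‖x.2‖ + ε) ≤ t * 1 := mul_le_mul_of_nonneg_left c ht0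
        nlinarith

/-- the collapsing map -/
noncomputable def pi1 (ε : ℝ) (x : E5) : E5 :=
  (x.1, (1 - min (rho x.1) ε / ‖x.2‖ : ℝ) • x.2)

lemma pi1_norm {ε : ℝ} (h0 : 0 < ε) {x : E5} (hx : x ∈ MM) :
    ‖(pi1 ε x).2‖ = ‖x.2‖ - min (rho x.1) ε := by
  obtain ⟨a, b, c⟩ := hx
  have hm : min (rho x.1) ε ≤ ‖x.2‖ := (min_le_left _ _).trans b
  have hm0 : 0 ≤ min (rho x.1) ε := le_min (rho_nonneg _) h0.le
  simp only [pi1]
  by_cases hz : x.2 = 0
  · rw [hz, smul_zero, norm_zero]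
    rw [hz, norm_zero] at hm
    linarith
  · have hz' : 0 < ‖x.2‖ := norm_pos_iff.2 hz
    have : 0 ≤ 1 - min (rho x.1) ε / ‖x.2‖ := by
      rw [sub_nonneg, div_le_one hz']; exact hm
    rw [norm_smul, Real.norm_of_nonneg this]
    field_simp

lemma pi1_cont {ε : ℝ} (h0 : 0 < ε) : ContinuousOn (pi1 ε) MM := by
  intro x hx
  have cr : Continuous (fun x : E5 => rho x.1) := rho_cont.comp continuous_fst
  apply ContinuousWithinAt.prodMk continuousWithinAt_fst
  by_cases hz : x.2 = 0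
  · unfold ContinuousWithinAt
    simp only [hz, smul_zero]
    apply squeeze_zero_norm' (a := fun y : E5 => ‖y.2‖)
    · filter_upwards [self_mem_nhdsWithin] with y hy
      have := pi1_norm h0 hy
      simp only [pi1] at this
      rw [this]
      have : 0 ≤ min (rho y.1) ε := le_min (rho_nonneg _) h0.le
      linarith
    · have : Filter.Tendsto (fun y : E5 => ‖y.2‖) (𝓝 x) (𝓝 ‖x.2‖) := (continuous_snd.norm).tendsto x
      rw [hz, norm_zero] at this
      exact this.mono_left nhdsWithin_le_nhds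
  · have hz' : ‖x.2‖ ≠ 0 := (norm_pos_iff.2 hz).ne'
    apply ContinuousAt.continuousWithinAt
    have c1 : ContinuousAt (fun x : E5 => (1 - min (rho x.1) ε / ‖x.2‖ : ℝ)) x :=
      continuousAt_const.sub ((cr.min continuous_const).continuousAt.div continuousAt_snd.norm hz')
    exact ContinuousAt.smul c1 (continuousAt_snd (p := x))

lemma pi1_mem {ε : ℝ} (h0 : 0 < ε) {x : E5} (hx : x ∈ MM) : pi1 ε x ∈ SS ε := by
  have hn := pi1_norm h0 hx
  obtain ⟨a, b, c⟩ := hx
  have hm2 : min (rho x.1) ε ≤ ε := min_le_right _ _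
  refine ⟨a, ?_, ?_⟩
  · rw [hn]; change rho x.1 ≤ _; linarith
  · rw [hn]; change _ + min (rho x.1) ε ≤ 1; linarith

lemma pi1_surj {ε : ℝ} (h0 : 0 < ε) {y : E5} (hy : y ∈ SS ε) : ∃ x ∈ MM, pi1 ε x = y := by
  obtain ⟨a, b, c⟩ := hy
  set δ := min (rho y.1) ε with hδ
  have hδ0 : 0 ≤ δ := le_min (rho_nonneg _) h0.le
  by_cases hz : y.2 = 0
  · have hn : ‖((δ : ℝ) : ℂ)‖ = δ := by rw [Complex.norm_real, Real.norm_of_nonneg hδ0]
    rw [hz, norm_zero, zero_add] at b c
    have hδr : δ = rho y.1 := min_eq_left b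
    refine ⟨(y.1, (δ : ℂ)), ⟨a, ?_, ?_⟩, ?_⟩
    · change rho y.1 ≤ ‖((δ : ℝ) : ℂ)‖
      rw [hn, hδr]
    · change ‖((δ : ℝ) : ℂ)‖ ≤ 1
      rw [hn]; exact c
    · unfold pi1
      ext1
      · rfl
      · change (1 - min (rho y.1) ε / ‖((δ : ℝ) : ℂ)‖ : ℝ) • ((δ : ℝ) : ℂ) = y.2
        rw [hn, ← hδ, hz]
        by_cases hd : δ = 0
        · rw [hd]; simp
        · rw [div_self hd, sub_self, zero_smul]
  · have hz' : 0 < ‖y.2‖ := norm_pos_iff.2 hz
    have hf : 0 ≤ 1 + δ / ‖y.2‖ := by positivity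
    have hn : ‖(1 + δ / ‖y.2‖ : ℝ) • y.2‖ = ‖y.2‖ + δ := by
      rw [norm_smul, Real.norm_of_nonneg hf]; field_simp
    refine ⟨(y.1, (1 + δ / ‖y.2‖ : ℝ) • y.2), ⟨a, ?_, ?_⟩, ?_⟩
    · change rho y.1 ≤ ‖(1 + δ / ‖y.2‖ : ℝ) • y.2‖
      rw [hn]
      rcases le_total (rho y.1) ε with h | h
      · rw [hδ, min_eq_left h]; linarith
      · rw [hδ, min_eq_right h]; exact b
    · change ‖(1 + δ / ‖y.2‖ : ℝ) • y.2‖ ≤ 1
      rw [hn]; exact c
    · unfold pi1
      ext1
      · rfl
      · change (1 - min (rho y.1) ε / ‖(1 + δ / ‖y.2‖ : ℝ) • y.2‖ : ℝ) • ((1 + δ / ‖y.2‖ : ℝ) • y.2) = y.2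
        rw [hn, ← hδ, smul_smul]
        have : (1 - δ / (‖y.2‖ + δ)) * (1 + δ / ‖y.2‖) = 1 := by
          have : ‖y.2‖ + δ ≠ 0 := by positivity
          field_simp
          ring
        rw [this, one_smul]

lemma pi1_eq {ε : ℝ} (h0 : 0 < ε) {x y : E5} (hx : x ∈ MM) (hy : y ∈ MM) (h : pi1 ε x = pi1 ε y) :
    x = y ∨ (x.1 = y.1 ∧ ‖x.2‖ = min (rho x.1) ε ∧ ‖y.2‖ = min (rho x.1) ε) := by
  have h1 : x.1 = y.1 := by
    have h' : (pi1 ε x).1 = (pi1 ε y).1 := by rw [h]
    exact h'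
  have hnx := pi1_norm h0 hx
  have hny := pi1_norm h0 hy
  rw [← h, ← h1] at hny
  have h2 : ‖x.2‖ = ‖y.2‖ := by linarith
  by_cases hd : ‖x.2‖ = min (rho x.1) ε
  · right; exact ⟨h1, hd, by rw [← h2]; exact hd⟩
  · left
    have hm : min (rho x.1) ε ≤ ‖x.2‖ := (min_le_left _ _).trans hx.2.1
    have hm0 : 0 ≤ min (rho x.1) ε := le_min (rho_nonneg _) h0.le
    have hlt : min (rho x.1) ε < ‖x.2‖ := lt_of_le_of_ne hm (Ne.symm hd)
    have hpos : 0 < ‖x.2‖ := lt_of_le_of_lt hm0 hlt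
    have h3 : (1 - min (rho x.1) ε / ‖x.2‖ : ℝ) • x.2 = (1 - min (rho y.1) ε / ‖y.2‖ : ℝ) • y.2 :=
      by
        have h' : (pi1 ε x).2 = (pi1 ε y).2 := by rw [h]
        exact h'
    rw [← h1, ← h2] at h3
    have hc : (1 - min (rho x.1) ε / ‖x.2‖ : ℝ) ≠ 0 := by
      have : min (rho x.1) ε / ‖x.2‖ < 1 := by rw [div_lt_one hpos]; exact hlt
      linarith
    have h4 : x.2 = y.2 := smul_right_injective ℂ hc h3
    exact Prod.ext h1 h4

lemma preconn_preimage {X Y : Type*} [TopologicalSpace X] [TopologicalSpace Y] [CompactSpace X]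
    [T2Space Y] {f : X → Y} (hf : Continuous f) (hs : Function.Surjective f)
    (hfib : ∀ y, IsPreconnected (f ⁻¹' {y})) {K : Set Y} (hK : IsClosed K) (hKc : IsPreconnected K) :
    IsPreconnected (f ⁻¹' K) := by
  rw [isPreconnected_closed_iff]
  intro T1 T2 hT1 hT2 hsub h1 h2
  have hcl : ∀ T : Set X, IsClosed T → IsClosed (f '' (T ∩ f ⁻¹' K)) := fun T hT =>
    ((hT.inter (hK.preimage hf)).isCompact.image hf).isClosed
  have hcov : K ⊆ f '' (T1 ∩ f ⁻¹' K) ∪ f '' (T2 ∩ f ⁻¹' K) := by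
    intro y hy
    obtain ⟨x, rfl⟩ := hs y
    rcases hsub hy with h | h
    · left; exact ⟨x, ⟨h, hy⟩, rfl⟩
    · right; exact ⟨x, ⟨h, hy⟩, rfl⟩
  obtain ⟨x1, hx1, hx1'⟩ := h1
  obtain ⟨x2, hx2, hx2'⟩ := h2
  obtain ⟨y, hyK, ⟨a, ⟨ha1, ha2⟩, ha3⟩, ⟨b, ⟨hb1, hb2⟩, hb3⟩⟩ :=
    (isPreconnected_closed_iff.1 hKc) _ _ (hcl T1 hT1) (hcl T2 hT2) hcov
      ⟨f x1, hx1, x1, ⟨hx1', hx1⟩, rfl⟩ ⟨f x2, hx2, x2, ⟨hx2', hx2⟩, rfl⟩
  obtain ⟨z, hz, hz1, hz2⟩ := (isPreconnected_closed_iff.1 (hfib y)) T1 T2 hT1 hT2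
    (fun x hx => hsub (by
      have : f x = y := hx
      change f x ∈ K
      rw [this]; exact hyK))
    ⟨a, ha3, ha1⟩ ⟨b, hb3, hb1⟩
  refine ⟨z, ?_, hz1, hz2⟩
  have : f z = y := hz
  change f z ∈ K
  rw [this]; exact hyK

lemma exists_G : ∃ G : ℂ × ℝ → ℂ × ℝ, Continuous G ∧ (∀ w, ‖G w‖ ≤ 1) ∧ ∀ w ∈ L, G w = g w := by
  obtain ⟨G0, hG0⟩ := ContinuousMap.exists_restrict_eq L_closed
    (⟨L.domRestrict g, continuousOn_iff_continuous_domRestrict.1 g_cont⟩ : C(L, ℂ × ℝ))
  refine ⟨fun w => (max 1 ‖G0 w‖)⁻¹ • G0 w, ?_, ?_, ?_⟩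
  · refine Continuous.smul (Continuous.inv₀ (continuous_const.max G0.continuous.norm) ?_) G0.continuous
    intro x
    exact (lt_max_of_lt_left one_pos).ne'
  · intro w
    have : 0 < max 1 ‖G0 w‖ := lt_max_of_lt_left one_pos
    rw [norm_smul, norm_inv, Real.norm_of_nonneg this.le, inv_mul_le_iff₀ this, mul_one]
    exact le_max_right _ _
  · intro w hw
    have : G0 w = g w := by
      have h' := congrArg (fun F => F ⟨w, hw⟩) hG0
      exact h'
    simp only [this]
    rw [max_eq_left (L_norm (g_mem hw))]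
    simp

noncomputable def hh (G : ℂ × ℝ → ℂ × ℝ) (x : E5) : E5 :=
  (G x.1, (-(max ‖x.2‖ (rho (G x.1)) / ‖x.2‖) : ℝ) • x.2)

lemma hh_norm {G : ℂ × ℝ → ℂ × ℝ} {x : E5} (hz : x.2 ≠ 0) :
    ‖(hh G x).2‖ = max ‖x.2‖ (rho (G x.1)) := by
  have : 0 < ‖x.2‖ := norm_pos_iff.2 hz
  simp only [hh]
  rw [norm_smul, norm_neg, norm_div, norm_norm, div_mul_cancel₀ _ this.ne',
    Real.norm_of_nonneg (le_max_of_le_left this.le)]

lemma hh_mem {G : ℂ × ℝ → ℂ × ℝ} (hG1 : ∀ w, ‖G w‖ ≤ 1) (hG : ∀ w ∈ L, G w = g w)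
    {x : E5} (hx : x ∈ MM) : hh G x ∈ MM := by
  obtain ⟨a, b, c⟩ := hx
  by_cases hz : x.2 = 0
  · have hr : rho x.1 = 0 := le_antisymm (by rw [hz, norm_zero] at b; exact b) (rho_nonneg _)
    have hL := rho_eq_zero hr
    have h2 : (hh G x).2 = 0 := by simp [hh, hz]
    have h1 : (hh G x).1 ∈ L := by
      change G x.1 ∈ L
      rw [hG _ hL]; exact g_mem hL
    refine ⟨hG1 _, ?_, ?_⟩
    · rw [rho_of_mem h1]; exact norm_nonneg _
    · rw [h2, norm_zero]; exact zero_le_one
  · have hn := hh_norm (G := G) hz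
    refine ⟨hG1 _, ?_, ?_⟩
    · rw [hn]; exact le_max_right _ _
    · rw [hn]; exact max_le c ((rho_le_norm _).trans (hG1 _))

lemma hh_cont {G : ℂ × ℝ → ℂ × ℝ} (hGc : Continuous G) (hG : ∀ w ∈ L, G w = g w) :
    ContinuousOn (hh G) MM := by
  intro x hx
  apply ContinuousWithinAt.prodMk
  · exact (hGc.comp continuous_fst).continuousWithinAt
  have cr : Continuous (fun x : E5 => rho (G x.1)) := rho_cont.comp (hGc.comp continuous_fst)
  by_cases hz : x.2 = 0
  · obtain ⟨a, b, c⟩ := hx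
    have hr : rho x.1 = 0 := le_antisymm (by rw [hz, norm_zero] at b; exact b) (rho_nonneg _)
    have hL := rho_eq_zero hr
    have h1 : rho (G x.1) = 0 := rho_of_mem (by rw [hG _ hL]; exact g_mem hL)
    unfold ContinuousWithinAt
    simp only [hz, smul_zero]
    apply squeeze_zero_norm' (a := fun y : E5 => max ‖y.2‖ (rho (G y.1)))
    · filter_upwards with y
      by_cases hy : y.2 = 0
      · rw [hy, smul_zero, norm_zero, ]
        exact le_max_of_le_right (rho_nonneg _)
      · exact (hh_norm (G := G) hy).le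
    · have : Filter.Tendsto (fun y : E5 => max ‖y.2‖ (rho (G y.1))) (𝓝 x) (𝓝 (max ‖x.2‖ (rho (G x.1)))) :=
        (continuous_snd.norm.max cr).tendsto x
      rw [hz, norm_zero, h1, max_self] at this
      exact this.mono_left nhdsWithin_le_nhds
  · have hz' : ‖x.2‖ ≠ 0 := (norm_pos_iff.2 hz).ne'
    apply ContinuousAt.continuousWithinAt
    have c1 : ContinuousAt (fun x : E5 => (-(max ‖x.2‖ (rho (G x.1)) / ‖x.2‖) : ℝ)) x :=
      ((continuous_snd.norm.max cr).continuousAt.div continuousAt_snd.norm hz').neg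
    exact ContinuousAt.smul c1 (continuousAt_snd (p := x))

lemma hh_ne {G : ℂ × ℝ → ℂ × ℝ} (hG : ∀ w ∈ L, G w = g w)
    {x : E5} (hx : x ∈ MM) : hh G x ≠ x := by
  intro hfix
  have h1 : G x.1 = x.1 := congrArg Prod.fst hfix
  have h2 : (-(max ‖x.2‖ (rho (G x.1)) / ‖x.2‖) : ℝ) • x.2 = x.2 := congrArg Prod.snd hfix
  by_cases hz : x.2 = 0
  · obtain ⟨a, b, c⟩ := hx
    have hr : rho x.1 = 0 := le_antisymm (by rw [hz, norm_zero] at b; exact b) (rho_nonneg _)
    have hL := rho_eq_zero hr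
    rw [hG _ hL] at h1
    exact g_ne hL h1
  · have hz' : 0 < ‖x.2‖ := norm_pos_iff.2 hz
    have h3 : (-(max ‖x.2‖ (rho (G x.1)) / ‖x.2‖) - 1 : ℝ) • x.2 = 0 := by
      rw [sub_smul, h2, one_smul, sub_self]
    rcases smul_eq_zero.1 h3 with h | h
    · have : 0 ≤ max ‖x.2‖ (rho (G x.1)) / ‖x.2‖ :=
        div_nonneg (le_max_of_le_left hz'.le) hz'.le
      linarith
    · exact hz h

theorem final :
    ¬ (∀ (n : ℕ), 0 < n →
      ∀ (M : Type) [MetricSpace M] [CompactSpace M] [ConnectedSpace M],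
        (∀ ε : ℝ, 0 < ε →
          ∃ f : M → Metric.closedBall (0 : EuclideanSpace ℝ (Fin n)) 1,
            Continuous f ∧ Function.Surjective f ∧
            (∀ y, Metric.diam (f ⁻¹' {y}) < ε) ∧
            (∀ K : Set (Metric.closedBall (0 : EuclideanSpace ℝ (Fin n)) 1),
              IsCompact K → IsConnected K →
                ∃ C : Set M, IsCompact C ∧ IsConnected C ∧ f '' C = K)) →
        ∀ g : M → M, Continuous g → ∃ x, g x = x) := by
  intro H
  have : CompactSpace MM := isCompact_iff_compactSpace.1 MM_compact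
  have : ConnectedSpace MM := Subtype.connectedSpace MM_connected
  have hfr : Module.finrank ℝ E5 = Module.finrank ℝ (EuclideanSpace ℝ (Fin 5)) := by
    simp [E5]
  set T : E5 ≃L[ℝ] EuclideanSpace ℝ (Fin 5) := ContinuousLinearEquiv.ofFinrankEq hfr with hT
  obtain ⟨G, hGc, hG1, hG⟩ := exists_G
  have hmaps : ∀ ε : ℝ, 0 < ε →
          ∃ f : MM → Metric.closedBall (0 : EuclideanSpace ℝ (Fin 5)) 1,
            Continuous f ∧ Function.Surjective f ∧
            (∀ y, Metric.diam (f ⁻¹' {y}) < ε) ∧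
            (∀ K : Set (Metric.closedBall (0 : EuclideanSpace ℝ (Fin 5)) 1),
              IsCompact K → IsConnected K →
                ∃ C : Set MM, IsCompact C ∧ IsConnected C ∧ f '' C = K) := by
    intro ε0 hε0
    set ε := min (ε0 / 3) (1 / 2) with hε
    have h0 : 0 < ε := lt_min (by positivity) (by norm_num)
    have h1 : ε < 1 := lt_of_le_of_lt (min_le_right _ _) (by norm_num)
    have h2 : 2 * ε < ε0 := by
      have : ε ≤ ε0 / 3 := min_le_left _ _
      linarith
    obtain ⟨Φ, hΦc, hΦi, hΦs⟩ := (SS_star h0 h1).exists_map T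
    have hmem : ∀ x : MM, Φ (pi1 ε x) ∈ closedBall (0 : EuclideanSpace ℝ (Fin 5)) 1 := by
      intro x
      rw [← hΦs]
      exact ⟨_, pi1_mem h0 x.2, rfl⟩
    set f : MM → closedBall (0 : EuclideanSpace ℝ (Fin 5)) 1 := fun x => ⟨Φ (pi1 ε x), hmem x⟩ with hf
    have hfc : Continuous f := by
      refine Continuous.subtype_mk ?_ _
      exact hΦc.comp (continuousOn_iff_continuous_domRestrict.1 (pi1_cont h0))
    have hfs : Function.Surjective f := by
      rintro ⟨y, hy⟩
      rw [← hΦs] at hy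
      obtain ⟨y', hy', rfl⟩ := hy
      obtain ⟨x, hx, rfl⟩ := pi1_surj h0 hy'
      exact ⟨⟨x, hx⟩, rfl⟩
    have hfe : ∀ x y : MM, f x = f y → pi1 ε x = pi1 ε y := by
      intro x y hxy
      exact hΦi (congrArg Subtype.val hxy)
    have hfib : ∀ y, IsPreconnected (f ⁻¹' {y}) := by
      intro y
      obtain ⟨x0, rfl⟩ := hfs y
      by_cases hd : ‖(x0 : E5).2‖ = min (rho (x0 : E5).1) ε
      · rw [← IsInducing.subtypeVal.isPreconnected_image]
        have : Subtype.val '' (f ⁻¹' {f x0}) = {(x0 : E5).1} ×ˢ sphere (0 : ℂ) (min (rho (x0 : E5).1) ε) := by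
          ext z
          constructor
          · rintro ⟨x, hx, rfl⟩
            have hx : f x = f x0 := hx
            rcases pi1_eq h0 x.2 x0.2 (hfe _ _ hx) with h | ⟨h3, h4, h5⟩
            · rw [h]
              exact ⟨rfl, by rw [mem_sphere_zero_iff_norm]; exact hd⟩
            · refine ⟨h3, ?_⟩
              rw [mem_sphere_zero_iff_norm, h4, h3]
          · rintro ⟨hz1, hz2⟩
            have hz1 : z.1 = (x0 : E5).1 := hz1
            rw [mem_sphere_zero_iff_norm] at hz2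
            have hzM : z ∈ MM := by
              obtain ⟨a, b, c⟩ := x0.2
              refine ⟨by rw [hz1]; exact a, ?_, ?_⟩
              · rw [hz1, hz2, ← hd]; exact b
              · rw [hz2, ← hd]; exact c
            refine ⟨⟨z, hzM⟩, ?_, rfl⟩
            change f ⟨z, hzM⟩ = f x0
            apply Subtype.ext
            change Φ (pi1 ε z) = Φ (pi1 ε x0)
            congr 1
            have hn1 := pi1_norm h0 hzM
            have hn2 := pi1_norm h0 x0.2
            rw [hz2, hz1, sub_self, norm_eq_zero] at hn1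
            rw [hd, sub_self, norm_eq_zero] at hn2
            exact Prod.ext hz1 (hn1.trans hn2.symm)
        rw [this]
        exact isPreconnected_singleton.prod (isPreconnected_sphere (by simp [Complex.rank_real_complex]) _ _)
      · have : f ⁻¹' {f x0} = {x0} := by
          ext x
          constructor
          · intro hx
            have hx : f x = f x0 := hx
            rcases pi1_eq h0 x0.2 x.2 (hfe _ _ hx).symm with h | ⟨h3, h4, h5⟩
            · exact Subtype.ext h.symm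
            · exact absurd h4 hd
          · rintro rfl; rfl
        rw [this]; exact isPreconnected_singleton
    refine ⟨f, hfc, hfs, ?_, ?_⟩
    · intro y
      refine lt_of_le_of_lt (diam_le_of_forall_dist_le (by positivity : (0:ℝ) ≤ 2 * ε) ?_) h2
      intro a ha b hb
      have ha : f a = y := ha
      have hb : f b = y := hb
      rcases pi1_eq h0 a.2 b.2 (hfe _ _ (ha.trans hb.symm)) with h | ⟨h3, h4, h5⟩
      · have : a = b := Subtype.ext h
        rw [this, dist_self]; positivity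
      · have hm : min (rho (a : E5).1) ε ≤ ε := min_le_right _ _
        rw [Subtype.dist_eq, Prod.dist_eq, h3, dist_self]
        apply max_le (by positivity)
        calc dist (a : E5).2 (b : E5).2 ≤ ‖(a : E5).2‖ + ‖(b : E5).2‖ := by
              rw [dist_eq_norm]; exact norm_sub_le _ _
          _ ≤ 2 * ε := by rw [h4, h5]; linarith
    · intro K hK hKc
      refine ⟨f ⁻¹' K, (hK.isClosed.preimage hfc).isCompact, ⟨?_, ?_⟩, image_preimage_eq K hfs⟩
      · obtain ⟨y, hy⟩ := hKc.nonempty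
        obtain ⟨x, rfl⟩ := hfs y
        exact ⟨x, hy⟩
      · exact preconn_preimage hfc hfs hfib hK.isClosed hKc.isPreconnected
  have hself : Continuous (fun x : MM => (⟨hh G x, hh_mem hG1 hG x.2⟩ : MM)) := by
    refine Continuous.subtype_mk ?_ _
    exact continuousOn_iff_continuous_domRestrict.1 (hh_cont hGc hG)
  obtain ⟨x, hx⟩ := H 5 (by norm_num) MM hmaps _ hself
  exact hh_ne hG x.2 (congrArg Subtype.val hx)

end main

/-- The negation of the preceding statement: For n ≥ 1, if a continuum M admits, for every ε > 0, a weakly confluent continuous surjection onto the closed n-ball with all fibres of diameter < ε, then every continuous self-map of M has a fixed point. -/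
theorem result :
    ¬ (∀ (n : ℕ), 0 < n →
      ∀ (M : Type) [MetricSpace M] [CompactSpace M] [ConnectedSpace M],
        (∀ ε : ℝ, 0 < ε →
          ∃ f : M → Metric.closedBall (0 : EuclideanSpace ℝ (Fin n)) 1,
            Continuous f ∧ Function.Surjective f ∧
            (∀ y, Metric.diam (f ⁻¹' {y}) < ε) ∧
            (∀ K : Set (Metric.closedBall (0 : EuclideanSpace ℝ (Fin n)) 1),
              IsCompact K → IsConnected K →
                ∃ C : Set M, IsCompact C ∧ IsConnected C ∧ f '' C = K)) →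
        ∀ g : M → M, Continuous g → ∃ x, g x = x) := by
  exact final

end Pool.Agent.S08332
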