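-- Proof of the frozen statement S08334 (negation for MP_41b9bf_gt).
import Pool.Statements.S08334

set_option autoImplicit false
open Pool Pool.MP_41b9bf_gt

namespace Pool.Agent.S08334

open Set Filter Topology

section Construction

variable {ι : Type}

/-- The space attached to a family `c` of points of the Sigma-product: pairs `(x, y)` with `x`
of countable support, `y` of support of size at most one, and `x = c a` whenever `y a` holds. -/
def ZZ (c : ι → (ι → Bool)) : Set ((ι → Bool) × (ι → Bool)) :=
  {p | {a | p.1 a = true}.Countable ∧ (∀ a b, p.2 a = true → p.2 b = true → a = b) ∧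
    ∀ a, p.2 a = true → p.1 = c a}

/-- the zero point -/
def z0 : ι → Bool := fun _ => false

open Classical in
/-- the unit points -/
noncomputable def ee (a : ι) : ι → Bool := fun b => decide (b = a)

lemma ee_self (a : ι) : ee a a = true := by simp [ee]

lemma ee_eq_true {a b : ι} : ee a b = true ↔ b = a := by simp [ee]

lemma mem_base {c : ι → (ι → Bool)} {x : ι → Bool} (hx : {a | x a = true}.Countable) :
    (x, z0) ∈ ZZ c := by
  refine ⟨hx, ?_, ?_⟩
  · intro a b h
    simp [z0] at h
  · intro a h
    simp [z0] at h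

lemma mem_top {c : ι → (ι → Bool)} (hc : ∀ a, {b | c a b = true}.Countable) (a : ι) :
    (c a, ee a) ∈ ZZ c := by
  refine ⟨hc a, ?_, ?_⟩
  · intro b d hb hd
    rw [ee_eq_true] at hb hd
    rw [hb, hd]
  · intro b hb
    rw [ee_eq_true] at hb
    rw [hb]

/-- base point of `ZZ c` over `x` -/
def bp (c : ι → (ι → Bool)) (x : ι → Bool) (hx : {a | x a = true}.Countable) : ZZ c :=
  ⟨(x, z0), mem_base hx⟩

/-- the isolated point number `a` -/
noncomputable def tp (c : ι → (ι → Bool)) (hc : ∀ a, {b | c a b = true}.Countable) (a : ι) : ZZ c :=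
  ⟨(c a, ee a), mem_top hc a⟩

/-- the jump of `f` at `a` -/
noncomputable def jump (c : ι → (ι → Bool)) (hc : ∀ a, {b | c a b = true}.Countable)
    (f : C(ZZ c, ℝ)) (a : ι) : ℝ :=
  f (tp c hc a) - f (bp c (c a) (hc a))

/-- The family `c` is good if jumps of continuous functions tend to zero. -/
def Good (c : ι → (ι → Bool)) (hc : ∀ a, {b | c a b = true}.Countable) : Prop :=
  ∀ f : C(ZZ c, ℝ), ∀ ε : ℝ, 0 < ε → {a | ε ≤ |jump c hc f a|}.Finite

/-- sufficient condition for goodness -/
lemma good_of_seq (c : ι → (ι → Bool)) (hc : ∀ a, {b | c a b = true}.Countable)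
    (h : ∀ B : Set ι, B.Infinite → ∃ (s : ℕ → ι) (x : ι → Bool), Function.Injective s ∧
      (∀ n, s n ∈ B) ∧ {a | x a = true}.Countable ∧ Tendsto (fun n => c (s n)) atTop (𝓝 x)) :
    Good c hc := by
  intro f ε hε
  by_contra hB
  obtain ⟨s, x, hs, hsB, hx, hlim⟩ := h _ hB
  -- the unit points converge to zero
  have h1 : Tendsto (fun n => (ee (s n) : ι → Bool)) atTop (𝓝 z0) := by
    rw [tendsto_pi_nhds]
    intro b
    apply tendsto_const_nhds.congr'
    have : ∀ᶠ n in atTop, s n ≠ b := by
      have hfin : {n | s n = b}.Finite := by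
        apply Set.Subsingleton.finite
        intro m hm n hn
        exact hs (by rw [hm, hn])
      have := hfin.compl_mem_cofinite
      rw [Nat.cofinite_eq_atTop] at this
      exact this
    filter_upwards [this] with n hn
    symm
    have : ¬ (ee (s n) b = true) := by
      rw [ee_eq_true]
      exact fun h => hn h.symm
    simpa [z0] using this
  have h2 : Tendsto (fun n => tp c hc (s n)) atTop (𝓝 (bp c x hx)) := by
    rw [tendsto_subtype_rng]
    exact hlim.prodMk_nhds h1
  have h3 : Tendsto (fun n => bp c (c (s n)) (hc (s n))) atTop (𝓝 (bp c x hx)) := by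
    rw [tendsto_subtype_rng]
    exact hlim.prodMk_nhds tendsto_const_nhds
  have h4 : Tendsto (fun n => |jump c hc f (s n)|) atTop (𝓝 |f (bp c x hx) - f (bp c x hx)|) := by
    apply Tendsto.abs
    exact ((f.continuous.tendsto _).comp h2).sub ((f.continuous.tendsto _).comp h3)
  rw [sub_self, abs_zero] at h4
  have h5 : ∀ᶠ n in atTop, |jump c hc f (s n)| < ε := h4.eventually (gt_mem_nhds hε)
  obtain ⟨n, hn⟩ := h5.exists
  exact absurd (hsB n) (not_le.mpr hn)

open Classical in
/-- the transferred function -/
noncomputable def tr (c c' : ι → (ι → Bool)) (hc : ∀ a, {b | c a b = true}.Countable)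
    (f : C(ZZ c, ℝ)) (p : ZZ c') : ℝ :=
  f (bp c p.1.1 p.2.1) + (if h : ∃ a, p.1.2 a = true then jump c hc f h.choose else 0)

lemma tr_bp (c c' : ι → (ι → Bool)) (hc : ∀ a, {b | c a b = true}.Countable)
    (f : C(ZZ c, ℝ)) (x : ι → Bool) (hx : {a | x a = true}.Countable) :
    tr c c' hc f (bp c' x hx) = f (bp c x hx) := by
  have : ¬ ∃ a, (bp c' x hx).1.2 a = true := by
    simp [bp, z0]
  rw [tr, dif_neg this, add_zero]
  rfl

lemma tr_of_true (c c' : ι → (ι → Bool)) (hc : ∀ a, {b | c a b = true}.Countable)
    (f : C(ZZ c, ℝ)) (p : ZZ c') (a : ι) (ha : p.1.2 a = true) :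
    tr c c' hc f p = f (bp c p.1.1 p.2.1) + jump c hc f a := by
  have h : ∃ a, p.1.2 a = true := ⟨a, ha⟩
  rw [tr, dif_pos h]
  have : h.choose = a := p.2.2.1 _ _ h.choose_spec ha
  rw [this]

lemma tr_of_false (c c' : ι → (ι → Bool)) (hc : ∀ a, {b | c a b = true}.Countable)
    (f : C(ZZ c, ℝ)) (p : ZZ c') (ha : ∀ a, p.1.2 a = false) :
    tr c c' hc f p = f (bp c p.1.1 p.2.1) := by
  have h : ¬ ∃ a, p.1.2 a = true := by
    rintro ⟨a, h⟩
    rw [ha a] at h
    exact absurd h (by simp)
  rw [tr, dif_neg h, add_zero]

lemma continuous_tr (c c' : ι → (ι → Bool)) (hc : ∀ a, {b | c a b = true}.Countable)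
    (hg : Good c hc) (f : C(ZZ c, ℝ)) : Continuous (tr c c' hc f) := by
  have hbase : Continuous (fun p : ZZ c' => f (bp c p.1.1 p.2.1)) := by
    apply f.continuous.comp
    apply Continuous.subtype_mk
    exact (continuous_fst.comp continuous_subtype_val).prodMk continuous_const
  rw [continuous_iff_continuousAt]
  intro p
  by_cases h : ∃ a, p.1.2 a = true
  · obtain ⟨a, ha⟩ := h
    have hopen : {q : ZZ c' | q.1.2 a = true} ∈ 𝓝 p := by
      have hop : IsOpen {q : ZZ c' | q.1.2 a = true} := by
        have : Continuous (fun q : ZZ c' => q.1.2 a) :=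
          (continuous_apply a).comp (continuous_snd.comp continuous_subtype_val)
        exact this.isOpen_preimage {true} (isOpen_discrete _)
      exact hop.mem_nhds (show p ∈ {q : ZZ c' | q.1.2 a = true} from ha)
    have hc1 : ContinuousAt (fun q : ZZ c' => f (bp c q.1.1 q.2.1) + jump c hc f a) p :=
      (hbase.add continuous_const).continuousAt
    apply hc1.congr
    filter_upwards [hopen] with q hq
    exact (tr_of_true c c' hc f q a hq).symm
  · have h' : ∀ a, p.1.2 a = false := by
      intro a
      by_contra h1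
      exact h ⟨a, by simpa using h1⟩
    rw [Metric.continuousAt_iff']
    intro ε hε
    have hε2 : 0 < ε / 2 := by linarith
    have hfin := hg f (ε / 2) hε2
    have hopen : {q : ZZ c' | ∀ a ∈ {a | ε / 2 ≤ |jump c hc f a|}, q.1.2 a = false} ∈ 𝓝 p := by
      have hop : IsOpen {q : ZZ c' | ∀ a ∈ {a | ε / 2 ≤ |jump c hc f a|}, q.1.2 a = false} := by
        have : {q : ZZ c' | ∀ a ∈ {a | ε / 2 ≤ |jump c hc f a|}, q.1.2 a = false}
            = ⋂ a ∈ {a | ε / 2 ≤ |jump c hc f a|}, {q : ZZ c' | q.1.2 a = false} := by
          ext q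
          simp
        rw [this]
        apply hfin.isOpen_biInter
        intro a _
        have : Continuous (fun q : ZZ c' => q.1.2 a) :=
          (continuous_apply a).comp (continuous_snd.comp continuous_subtype_val)
        exact this.isOpen_preimage {false} (isOpen_discrete _)
      exact hop.mem_nhds (fun a _ => h' a)
    have hb := (Metric.continuousAt_iff'.mp (hbase.continuousAt (x := p))) (ε / 2) hε2
    filter_upwards [hopen, hb] with q hq hbq
    rw [tr_of_false c c' hc f p h']
    by_cases hq' : ∃ a, q.1.2 a = true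
    · obtain ⟨a, ha⟩ := hq'
      rw [tr_of_true c c' hc f q a ha]
      have hja : |jump c hc f a| < ε / 2 := by
        by_contra hcon
        have := hq a (not_lt.mp hcon)
        rw [ha] at this
        exact absurd this (by simp)
      rw [Real.dist_eq] at hbq ⊢
      have : f (bp c q.1.1 q.2.1) + jump c hc f a - f (bp c p.1.1 p.2.1)
          = (f (bp c q.1.1 q.2.1) - f (bp c p.1.1 p.2.1)) + jump c hc f a := by ring
      rw [this]
      calc |(f (bp c q.1.1 q.2.1) - f (bp c p.1.1 p.2.1)) + jump c hc f a|
          ≤ |f (bp c q.1.1 q.2.1) - f (bp c p.1.1 p.2.1)| + |jump c hc f a| := abs_add_le _ _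
        _ < ε / 2 + ε / 2 := add_lt_add hbq hja
        _ = ε := by ring
    · have hq'' : ∀ a, q.1.2 a = false := by
        intro a
        by_contra h1
        exact hq' ⟨a, by simpa using h1⟩
      rw [tr_of_false c c' hc f q hq'']
      linarith

/-- transfer as a continuous map -/
noncomputable def trC (c c' : ι → (ι → Bool)) (hc : ∀ a, {b | c a b = true}.Countable)
    (hg : Good c hc) (f : C(ZZ c, ℝ)) : C(ZZ c', ℝ) :=
  ⟨tr c c' hc f, continuous_tr c c' hc hg f⟩

lemma jump_tr (c c' : ι → (ι → Bool)) (hc : ∀ a, {b | c a b = true}.Countable)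
    (hc' : ∀ a, {b | c' a b = true}.Countable)
    (hg : Good c hc) (f : C(ZZ c, ℝ)) (a : ι) :
    jump c' hc' (trC c c' hc hg f) a = jump c hc f a := by
  have h1 : (trC c c' hc hg f) (tp c' hc' a) = f (bp c (c' a) (hc' a)) + jump c hc f a :=
    tr_of_true c c' hc f (tp c' hc' a) a (ee_self a)
  have h2 : (trC c c' hc hg f) (bp c' (c' a) (hc' a)) = f (bp c (c' a) (hc' a)) :=
    tr_bp c c' hc f _ _
  rw [jump, h1, h2]
  ring

lemma eq_tp (c : ι → (ι → Bool)) (hc : ∀ a, {b | c a b = true}.Countable) (p : ZZ c) (a : ι)
    (ha : p.1.2 a = true) : p = tp c hc a := by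
  apply Subtype.ext
  apply Prod.ext
  · exact p.2.2.2 a ha
  · funext b
    change p.1.2 b = ee a b
    by_cases hb : b = a
    · rw [hb, ha, ee_self]
    · have h1 : ¬ p.1.2 b = true := fun h => hb (p.2.2.1 _ _ h ha)
      have h2 : ¬ ee a b = true := by
        rw [ee_eq_true]
        exact hb
      rw [Bool.not_eq_true] at h1 h2
      rw [h1, h2]

lemma eq_bp (c : ι → (ι → Bool)) (p : ZZ c)
    (ha : ∀ a, p.1.2 a = false) : p = bp c p.1.1 p.2.1 := by
  apply Subtype.ext
  apply Prod.ext
  · rfl
  · funext b
    exact ha b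

lemma trC_trC (c c' : ι → (ι → Bool)) (hc : ∀ a, {b | c a b = true}.Countable)
    (hc' : ∀ a, {b | c' a b = true}.Countable)
    (hg : Good c hc) (hg' : Good c' hc') (f : C(ZZ c, ℝ)) :
    trC c' c hc' hg' (trC c c' hc hg f) = f := by
  ext p
  change tr c' c hc' (trC c c' hc hg f) p = f p
  by_cases h : ∃ a, p.1.2 a = true
  · obtain ⟨a, ha⟩ := h
    rw [tr_of_true c' c hc' _ p a ha, jump_tr c c' hc hc' hg f a]
    have h1 : (trC c c' hc hg f) (bp c' p.1.1 p.2.1) = f (bp c p.1.1 p.2.1) :=
      tr_bp c c' hc f _ _
    rw [h1]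
    have hp := eq_tp c hc p a ha
    have hp1 : bp c p.1.1 p.2.1 = bp c (c a) (hc a) := by
      apply Subtype.ext
      apply Prod.ext
      · exact p.2.2.2 a ha
      · rfl
    rw [hp1, jump]
    conv_rhs => rw [hp]
    ring
  · have h' : ∀ a, p.1.2 a = false := by
      intro a
      by_contra h1
      exact h ⟨a, by simpa using h1⟩
    rw [tr_of_false c' c hc' _ p h']
    have h1 : (trC c c' hc hg f) (bp c' p.1.1 p.2.1) = f (bp c p.1.1 p.2.1) :=
      tr_bp c c' hc f _ _
    rw [h1, ← eq_bp c p h']

/-- transfer as a linear equivalence -/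
noncomputable def trL (c c' : ι → (ι → Bool)) (hc : ∀ a, {b | c a b = true}.Countable)
    (hc' : ∀ a, {b | c' a b = true}.Countable)
    (hg : Good c hc) (hg' : Good c' hc') : C(ZZ c, ℝ) ≃ₗ[ℝ] C(ZZ c', ℝ) where
  toFun := trC c c' hc hg
  map_add' := by
    intro f g
    ext p
    change tr c c' hc (f + g) p = tr c c' hc f p + tr c c' hc g p
    by_cases h : ∃ a, p.1.2 a = true
    · obtain ⟨a, ha⟩ := h
      rw [tr_of_true c c' hc _ p a ha, tr_of_true c c' hc _ p a ha, tr_of_true c c' hc _ p a ha]
      simp only [jump, ContinuousMap.add_apply]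
      ring
    · have h' : ∀ a, p.1.2 a = false := by
        intro a
        by_contra h1
        exact h ⟨a, by simpa using h1⟩
      rw [tr_of_false c c' hc _ p h', tr_of_false c c' hc _ p h', tr_of_false c c' hc _ p h']
      simp only [ContinuousMap.add_apply]
  map_smul' := by
    intro r f
    ext p
    change tr c c' hc (r • f) p = r * tr c c' hc f p
    by_cases h : ∃ a, p.1.2 a = true
    · obtain ⟨a, ha⟩ := h
      rw [tr_of_true c c' hc _ p a ha, tr_of_true c c' hc _ p a ha]
      simp only [jump, ContinuousMap.smul_apply, smul_eq_mul]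
      ring
    · have h' : ∀ a, p.1.2 a = false := by
        intro a
        by_contra h1
        exact h ⟨a, by simpa using h1⟩
      rw [tr_of_false c c' hc _ p h', tr_of_false c c' hc _ p h']
      simp only [ContinuousMap.smul_apply, smul_eq_mul]
  invFun := trC c' c hc' hg'
  left_inv := trC_trC c c' hc hc' hg hg'
  right_inv := trC_trC c' c hc' hc hg' hg

lemma continuous_trC (c c' : ι → (ι → Bool)) (hc : ∀ a, {b | c a b = true}.Countable)
    (hg : Good c hc) :
    @Continuous (C(ZZ c, ℝ)) (C(ZZ c', ℝ))
      (TopologicalSpace.induced (fun f : C(ZZ c, ℝ) => (f : ZZ c → ℝ))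
        (inferInstance : TopologicalSpace (ZZ c → ℝ)))
      (TopologicalSpace.induced (fun g : C(ZZ c', ℝ) => (g : ZZ c' → ℝ))
        (inferInstance : TopologicalSpace (ZZ c' → ℝ)))
      (trC c c' hc hg) := by
  letI : TopologicalSpace (C(ZZ c, ℝ)) :=
    (TopologicalSpace.induced (fun f : C(ZZ c, ℝ) => (f : ZZ c → ℝ))
        (inferInstance : TopologicalSpace (ZZ c → ℝ)))
  rw [continuous_induced_rng]
  rw [continuous_pi_iff]
  intro p
  have hev : ∀ q : ZZ c, Continuous (fun f : C(ZZ c, ℝ) => f q) := by
    intro q
    exact (continuous_apply q).comp continuous_induced_dom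
  change Continuous (fun f : C(ZZ c, ℝ) => tr c c' hc f p)
  by_cases h : ∃ a, p.1.2 a = true
  · obtain ⟨a, ha⟩ := h
    have : (fun f : C(ZZ c, ℝ) => tr c c' hc f p) =
        fun f : C(ZZ c, ℝ) => f (bp c p.1.1 p.2.1) + (f (tp c hc a) - f (bp c (c a) (hc a))) := by
      funext f
      rw [tr_of_true c c' hc _ p a ha]
      rfl
    rw [this]
    exact (hev _).add ((hev _).sub (hev _))
  · have h' : ∀ a, p.1.2 a = false := by
      intro a
      by_contra h1
      exact h ⟨a, by simpa using h1⟩
    have : (fun f : C(ZZ c, ℝ) => tr c c' hc f p) =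
        fun f : C(ZZ c, ℝ) => f (bp c p.1.1 p.2.1) := by
      funext f
      rw [tr_of_false c c' hc _ p h']
    rw [this]
    exact hev _

end Construction

section Examples

variable {ι : Type} [LinearOrder ι] [WellFoundedLT ι]

/-- constant zero family -/
def c0 : ι → (ι → Bool) := fun _ => z0

/-- indicator functions of initial segments -/
def c1 : ι → (ι → Bool) := fun a b => decide (b < a)

omit [LinearOrder ι] [WellFoundedLT ι] in
lemma hc0 (a : ι) : {b | c0 a b = true}.Countable := by
  have : {b : ι | c0 a b = true} = ∅ := by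
    ext b
    simp [c0, z0]
  rw [this]
  exact Set.countable_empty

omit [WellFoundedLT ι] in
lemma hc1 (hI : ∀ a : ι, (Set.Iio a).Countable) (a : ι) : {b | c1 a b = true}.Countable := by
  have : {b : ι | c1 a b = true} = Set.Iio a := by
    ext b
    simp [c1]
  rw [this]
  exact hI a

omit [LinearOrder ι] [WellFoundedLT ι] in
lemma good0 : Good (c0 : ι → (ι → Bool)) hc0 := by
  apply good_of_seq
  intro B hB
  have : Infinite B := hB.to_subtype
  refine ⟨fun n => (Infinite.natEmbedding B n : ι), z0, ?_, fun n => Subtype.coe_prop _, ?_, ?_⟩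
  · exact Subtype.val_injective.comp (Infinite.natEmbedding B).injective
  · have : {b : ι | (z0 : ι → Bool) b = true} = ∅ := by
      ext b
      simp [z0]
    rw [this]
    exact Set.countable_empty
  · exact tendsto_const_nhds

lemma good1 (hI : ∀ a : ι, (Set.Iio a).Countable) : Good (c1 : ι → (ι → Bool)) (hc1 hI) := by
  apply good_of_seq
  intro B hB
  have : Infinite B := hB.to_subtype
  obtain ⟨s, hs⟩ := Infinite.exists_strictMono_or_strictAnti B
  have hs : StrictMono s := by
    rcases hs with hs | hs
    · exact hs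
    · exact absurd hs (not_strictAnti_of_wellFoundedLT s)
  classical
  refine ⟨fun n => (s n : ι), fun b => decide (∃ n, b < (s n : ι)), ?_,
    fun n => Subtype.coe_prop _, ?_, ?_⟩
  · exact Subtype.val_injective.comp hs.injective
  · have : {b : ι | decide (∃ n, b < (s n : ι)) = true} = ⋃ n, Set.Iio (s n : ι) := by
      ext b
      simp
    rw [this]
    exact Set.countable_iUnion (fun n => hI _)
  · rw [tendsto_pi_nhds]
    intro b
    by_cases hb : ∃ n, b < (s n : ι)
    · obtain ⟨n, hn⟩ := hb
      have h1 : decide (∃ n, b < (s n : ι)) = true := by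
        simpa using ⟨n, hn⟩
      rw [h1]
      apply tendsto_const_nhds.congr'
      filter_upwards [eventually_ge_atTop n] with m hm
      have : b < (s m : ι) := lt_of_lt_of_le hn (hs.monotone hm)
      simp [c1, this]
    · have h1 : decide (∃ n, b < (s n : ι)) = false := by
        simpa using hb
      rw [h1]
      apply tendsto_const_nhds.congr
      intro m
      have : ¬ b < (s m : ι) := fun h => hb ⟨m, h⟩
      simp [c1, this]

omit [LinearOrder ι] [WellFoundedLT ι] in
/-- the first space is k-separable -/
lemma kseparable0 : ∃ S : Set (ZZ (c0 : ι → (ι → Bool))), Dense S ∧ IsSigmaCompact S := by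
  classical
  refine ⟨⋃ n : ℕ, {p : ZZ (c0 : ι → (ι → Bool)) |
    ∀ F : Finset ι, (∀ a ∈ F, p.1.1 a = true) → F.card ≤ n}, ?_, ?_⟩
  · intro p
    rw [mem_closure_iff_nhds]
    intro U hU
    by_cases h : ∃ a, p.1.2 a = true
    · obtain ⟨a, ha⟩ := h
      refine ⟨p, mem_of_mem_nhds hU, ?_⟩
      rw [Set.mem_iUnion]
      refine ⟨0, ?_⟩
      intro F hF
      rw [Nat.le_zero, Finset.card_eq_zero]
      by_contra hne
      obtain ⟨b, hb⟩ := Finset.nonempty_iff_ne_empty.mpr hne
      have h1 := hF b hb
      rw [p.2.2.2 a ha] at h1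
      simp [c0, z0] at h1
    · have h' : ∀ a, p.1.2 a = false := by
        intro a
        by_contra h1
        exact h ⟨a, by simpa using h1⟩
      -- restriction of the first coordinate to finite sets
      let r : Finset ι → ZZ (c0 : ι → (ι → Bool)) := fun F =>
        bp c0 (fun a => if a ∈ F then p.1.1 a else false) (by
          apply Set.Countable.mono _ (F.finite_toSet.countable)
          intro a ha
          by_contra hcon
          have : a ∉ F := hcon
          simp [this] at ha)
      have hr : Tendsto r atTop (𝓝 p) := by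
        rw [tendsto_subtype_rng]
        have h2 : (p : (ι → Bool) × (ι → Bool)) = (p.1.1, z0) := by
          apply Prod.ext
          · rfl
          · funext b
            exact h' b
        rw [h2]
        apply Tendsto.prodMk_nhds
        · rw [tendsto_pi_nhds]
          intro b
          apply tendsto_const_nhds.congr'
          filter_upwards [eventually_ge_atTop {b}] with F hF
          have : b ∈ F := by
            apply hF
            simp
          simp [this]
        · exact tendsto_const_nhds
      obtain ⟨F, hF⟩ := (hr.eventually_mem hU).exists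
      refine ⟨r F, hF, ?_⟩
      rw [Set.mem_iUnion]
      refine ⟨F.card, ?_⟩
      intro G hG
      apply Finset.card_le_card
      intro a ha
      have h3 := hG a ha
      by_contra hcon
      simp [r, bp, hcon] at h3
  · refine ⟨_, ?_, rfl⟩
    intro n
    rw [Subtype.isCompact_iff]
    apply IsClosed.isCompact
    have : ((↑) '' {p : ZZ (c0 : ι → (ι → Bool)) |
        ∀ F : Finset ι, (∀ a ∈ F, p.1.1 a = true) → F.card ≤ n} : Set ((ι → Bool) × (ι → Bool)))
        = {p | ∀ F : Finset ι, (∀ a ∈ F, p.1 a = true) → F.card ≤ n} ∩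
          ({p | ∀ a b, p.2 a = true → p.2 b = true → a = b} ∩
            {p | ∀ a b, p.2 a = true → p.1 b = false}) := by
      ext p
      constructor
      · rintro ⟨q, hq, rfl⟩
        refine ⟨hq, q.2.2.1, ?_⟩
        intro a b ha
        rw [q.2.2.2 a ha]
        rfl
      · rintro ⟨h1, h2, h3⟩
        refine ⟨⟨p, ?_, h2, ?_⟩, h1, rfl⟩
        · have hfin : {a | p.1 a = true}.Finite := by
            by_contra hinf
            obtain ⟨F, hF, hcard⟩ := Set.Infinite.exists_subset_card_eq hinf (n + 1)
            have := h1 F (fun a ha => hF ha)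
            omega
          exact hfin.countable
        · intro a ha
          funext b
          exact h3 a b ha
    rw [this]
    have hcont1 : ∀ a : ι, Continuous (fun p : (ι → Bool) × (ι → Bool) => p.1 a) :=
      fun a => (continuous_apply a).comp continuous_fst
    have hcont2 : ∀ a : ι, Continuous (fun p : (ι → Bool) × (ι → Bool) => p.2 a) :=
      fun a => (continuous_apply a).comp continuous_snd
    have ho1 : ∀ (a : ι) (v : Bool), IsClopen {p : (ι → Bool) × (ι → Bool) | p.1 a = v} :=
      fun a v => (isClopen_discrete {v}).preimage (hcont1 a)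
    have ho2 : ∀ (a : ι) (v : Bool), IsClopen {p : (ι → Bool) × (ι → Bool) | p.2 a = v} :=
      fun a v => (isClopen_discrete {v}).preimage (hcont2 a)
    refine IsClosed.inter ?_ (IsClosed.inter ?_ ?_)
    · simp only [Set.setOf_forall]
      apply isClosed_iInter
      intro F
      by_cases hF : F.card ≤ n
      · simp only [hF, implies_true, Set.setOf_true]
        exact isClosed_univ
      · have : {p : (ι → Bool) × (ι → Bool) | (∀ a ∈ F, p.1 a = true) → F.card ≤ n}
            = (⋂ a ∈ F, {p : (ι → Bool) × (ι → Bool) | p.1 a = true})ᶜ := by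
          ext p
          simp [hF]
        rw [this, isClosed_compl_iff]
        apply isOpen_biInter_finset
        intro a _
        exact (ho1 a true).isOpen
    · simp only [Set.setOf_forall]
      apply isClosed_iInter
      intro a
      apply isClosed_iInter
      intro b
      by_cases hab : a = b
      · simp only [hab, implies_true, Set.setOf_true]
        exact isClosed_univ
      · have : {p : (ι → Bool) × (ι → Bool) | p.2 a = true → p.2 b = true → a = b}
            = {p | p.2 a = false} ∪ {p | p.2 b = false} := by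
          ext p
          simp only [Set.mem_setOf_eq, Set.mem_union, hab, imp_false]
          cases p.2 a <;> cases p.2 b <;> simp
        rw [this]
        exact (ho2 a false).isClosed.union (ho2 b false).isClosed
    · simp only [Set.setOf_forall]
      apply isClosed_iInter
      intro a
      apply isClosed_iInter
      intro b
      have : {p : (ι → Bool) × (ι → Bool) | p.2 a = true → p.1 b = false}
            = {p | p.2 a = false} ∪ {p | p.1 b = false} := by
        ext p
        simp only [Set.mem_setOf_eq, Set.mem_union]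
        cases p.2 a <;> cases p.1 b <;> simp
      rw [this]
      exact (ho2 a false).isClosed.union (ho1 b false).isClosed

omit [WellFoundedLT ι] in
/-- the second space is not k-separable -/
lemma not_kseparable1 (hI : ∀ a : ι, (Set.Iio a).Countable) (hU : ¬ (Set.univ : Set ι).Countable) :
    ¬ ∃ S : Set (ZZ (c1 : ι → (ι → Bool))), Dense S ∧ IsSigmaCompact S := by
  rintro ⟨S, hS, K, hK, hKS⟩
  -- every isolated point lies in `S`
  have hmem : ∀ a, tp c1 (hc1 hI) a ∈ S := by
    intro a
    have hopen : IsOpen {q : ZZ (c1 : ι → (ι → Bool)) | q.1.2 a = true} := by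
      have : Continuous (fun q : ZZ (c1 : ι → (ι → Bool)) => q.1.2 a) :=
        (continuous_apply a).comp (continuous_snd.comp continuous_subtype_val)
      exact this.isOpen_preimage {true} (isOpen_discrete _)
    obtain ⟨q, hq1, hq2⟩ := hS.exists_mem_open hopen ⟨tp c1 (hc1 hI) a, ee_self a⟩
    rw [← eq_tp c1 (hc1 hI) q a hq2]
    exact hq1
  -- some `K n` contains uncountably many of them
  have hex : ∃ n, ¬ {a | tp c1 (hc1 hI) a ∈ K n}.Countable := by
    by_contra hcon
    push Not at hcon
    apply hU
    apply (Set.countable_iUnion hcon).mono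
    intro a _
    have := hmem a
    rw [← hKS, Set.mem_iUnion] at this
    obtain ⟨n, hn⟩ := this
    exact Set.mem_iUnion.mpr ⟨n, hn⟩
  obtain ⟨n, hn⟩ := hex
  -- the projection to the first coordinate is closed
  have hcomp : IsCompact ((fun q : ZZ (c1 : ι → (ι → Bool)) => q.1.1) '' K n) :=
    (hK n).image (continuous_fst.comp continuous_subtype_val)
  have hclosed := hcomp.isClosed
  -- the constant function `true` lies in its closure
  have hone : (fun _ : ι => true) ∈ closure
      ((fun q : ZZ (c1 : ι → (ι → Bool)) => q.1.1) '' K n) := by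
    rw [mem_closure_iff_nhds]
    intro U hU'
    -- find a finite set of coordinates
    rw [nhds_pi, Filter.mem_pi] at hU'
    obtain ⟨F, hF, t, ht, htU⟩ := hU'
    -- a point `a` above all elements of `F`
    have hcount : (⋃ b ∈ F, Set.Iic b).Countable := by
      apply hF.countable.biUnion
      intro b _
      have : Set.Iic b = insert b (Set.Iio b) := by
        ext x
        simp [le_iff_eq_or_lt]
      rw [this]
      exact (hI b).insert b
    have hex2 : ∃ a ∈ {a | tp c1 (hc1 hI) a ∈ K n}, a ∉ ⋃ b ∈ F, Set.Iic b := by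
      by_contra hcon
      push Not at hcon
      exact hn (hcount.mono hcon)
    obtain ⟨a, haK, haF⟩ := hex2
    refine ⟨c1 a, htU ?_, ?_⟩
    · intro b hb
      have hba : b < a := by
        by_contra hcon
        apply haF
        rw [Set.mem_iUnion₂]
        exact ⟨b, hb, not_lt.mp hcon⟩
      have : c1 a b = true := by simp [c1, hba]
      rw [this]
      exact mem_of_mem_nhds (ht b)
    · exact ⟨tp c1 (hc1 hI) a, haK, rfl⟩
  rw [hclosed.closure_eq] at hone
  obtain ⟨q, _, hq⟩ := hone
  have h1 := q.2.1
  apply hU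
  apply h1.mono
  intro a _
  have : q.1.1 a = true := congrFun hq a
  exact this

end Examples

/-- The negation of the preceding statement: For Tychonoff spaces X and Y, if X has a dense sigma-compact subset and C_p(X), C_p(Y) (pointwise topology) are linearly homeomorphic, then Y also has a dense sigma-compact subset. -/
theorem result :
    ¬ (∀ (X Y : Type) [TopologicalSpace X] [T35Space X] [TopologicalSpace Y] [T35Space Y],
      (∃ S : Set X, Dense S ∧ IsSigmaCompact S) →
      (∃ T : C(X, ℝ) ≃ₗ[ℝ] C(Y, ℝ),
        @Continuous (C(X, ℝ)) (C(Y, ℝ))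
          (TopologicalSpace.induced (fun f : C(X, ℝ) => (f : X → ℝ))
            (inferInstance : TopologicalSpace (X → ℝ)))
          (TopologicalSpace.induced (fun g : C(Y, ℝ) => (g : Y → ℝ))
            (inferInstance : TopologicalSpace (Y → ℝ)))
          (⇑T) ∧
        @Continuous (C(Y, ℝ)) (C(X, ℝ))
          (TopologicalSpace.induced (fun g : C(Y, ℝ) => (g : Y → ℝ))
            (inferInstance : TopologicalSpace (Y → ℝ)))
          (TopologicalSpace.induced (fun f : C(X, ℝ) => (f : X → ℝ))
            (inferInstance : TopologicalSpace (X → ℝ)))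
          (⇑T.symm)) →
      ∃ S : Set Y, Dense S ∧ IsSigmaCompact S) := by
  intro H
  let ι : Type := (Cardinal.aleph 1).ord.ToType
  have hcard : Cardinal.mk ι = Cardinal.aleph 1 := Cardinal.mk_ord_toType _
  have hI : ∀ a : ι, (Set.Iio a).Countable := by
    intro a
    rw [Cardinal.countable_iff_lt_aleph_one]
    have := Cardinal.mk_Iio_lt a (by simp [ι])
    rwa [hcard] at this
  have hU : ¬ (Set.univ : Set ι).Countable := by
    rw [Cardinal.countable_iff_lt_aleph_one, Cardinal.mk_univ, hcard]
    exact lt_irrefl _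
  have hg0 : Good (c0 : ι → (ι → Bool)) hc0 := good0
  have hg1 : Good (c1 : ι → (ι → Bool)) (hc1 hI) := good1 hI
  refine not_kseparable1 hI hU (H (ZZ (c0 : ι → (ι → Bool))) (ZZ (c1 : ι → (ι → Bool)))
    kseparable0 ⟨trL c0 c1 hc0 (hc1 hI) hg0 hg1, ?_, ?_⟩)
  · exact continuous_trC c0 c1 hc0 hg0
  · exact continuous_trC c1 c0 (hc1 hI) hg1

end Pool.Agent.S08334
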