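import Pool.Statements.S08336
import Mathlib
import Pool.Agent.Helper332.RealLine4

set_option autoImplicit false
open TopologicalSpace
open Pool Pool.MP_41eeb1_gt

namespace Pool.Agent.S08336

/-- The negation of the preceding statement: For every separable locally compact Hausdorff group G and every Hausdorff topological group H whose closed subgroups are all separable, every closed subgroup of G × H is separable. -/
theorem result :
    ¬ (∀ (G : Type) [TopologicalSpace G] [Group G] [IsTopologicalGroup G] [T2Space G]
      [LocallyCompactSpace G] [SeparableSpace G],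
      ∀ (H : Type) [TopologicalSpace H] [Group H] [IsTopologicalGroup H] [T2Space H],
        (∀ K : Subgroup H, IsClosed (K : Set H) → SeparableSpace K) →
        ∀ L : Subgroup (G × H), IsClosed (L : Set (G × H)) → SeparableSpace L) := by
  intro hall
  obtain ⟨H, iH, tH, htg, ht2, hCS, L, hLc, hLs⟩ :=
    Pool.Agent.Helper332.RealLine.real_not_S_separable
  have hLC : LocallyCompactSpace (Multiplicative ℝ) := inferInstanceAs (LocallyCompactSpace ℝ)
  have hSep : SeparableSpace (Multiplicative ℝ) := inferInstanceAs (SeparableSpace ℝ)
  have hT2R : T2Space (Multiplicative ℝ) := inferInstanceAs (T2Space ℝ)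
  have hT2H : T2Space (Multiplicative H) := ht2
  have hCS' : ∀ K : Subgroup (Multiplicative H), IsClosed (K : Set (Multiplicative H)) →
      SeparableSpace K := by
    intro K hK
    let K₀ : AddSubgroup H :=
      { carrier := {x | Multiplicative.ofAdd x ∈ K}
        zero_mem' := K.one_mem
        add_mem' := fun ha hb => K.mul_mem ha hb
        neg_mem' := fun ha => K.inv_mem ha }
    have hK₀ : IsClosed (K₀ : Set H) := hK.preimage continuous_ofAdd
    have hs := hCS K₀ hK₀
    let f : K₀ → K := fun x => ⟨Multiplicative.ofAdd (x : H), x.2⟩
    have hf : Continuous f := Continuous.subtype_mk (continuous_ofAdd.comp continuous_subtype_val) _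
    have hfs : Function.Surjective f := fun y => ⟨⟨Multiplicative.toAdd (y : Multiplicative H), y.2⟩, rfl⟩
    exact hfs.denseRange.separableSpace hf
  let L' : Subgroup (Multiplicative ℝ × Multiplicative H) :=
    { carrier := {x | ((Multiplicative.toAdd x.1, Multiplicative.toAdd x.2) : ℝ × H) ∈ L}
      one_mem' := L.zero_mem
      mul_mem' := fun ha hb => L.add_mem ha hb
      inv_mem' := fun ha => L.neg_mem ha }
  have hj : Continuous (fun x : Multiplicative ℝ × Multiplicative H =>
      ((Multiplicative.toAdd x.1, Multiplicative.toAdd x.2) : ℝ × H)) :=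
    (continuous_toAdd.comp continuous_fst).prodMk (continuous_toAdd.comp continuous_snd)
  have hL' : IsClosed (L' : Set (Multiplicative ℝ × Multiplicative H)) := hLc.preimage hj
  have hs := hall (Multiplicative ℝ) (Multiplicative H) hCS' L' hL'
  apply hLs
  let f : L' → L := fun x => ⟨_, x.2⟩
  have hf : Continuous f := Continuous.subtype_mk (hj.comp continuous_subtype_val) _
  have hfs : Function.Surjective f := by
    rintro ⟨⟨a, b⟩, hab⟩
    exact ⟨⟨(Multiplicative.ofAdd a, Multiplicative.ofAdd b), hab⟩, rfl⟩
  exact hfs.denseRange.separableSpace hf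

end Pool.Agent.S08336
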