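import Pool.Statements.S08340

set_option autoImplicit false


namespace Pool.Agent.Helper467.U

open Set Topology TopologicalSpace

/-- graph connectedness of a set of vertices, for a reflexive symmetric relation -/
def GConn {V : Type} (E : V → V → Prop) (S : Set V) : Prop :=
  ∀ A : Set V, (∃ a ∈ S, a ∈ A) → (∀ a ∈ S, a ∈ A → ∀ b ∈ S, E a b → b ∈ A) → S ⊆ A

structure Sys where
  V : ℕ → Type
  fin : ∀ k, Finite (V k)
  E : ∀ k, V k → V k → Prop
  refl : ∀ k a, E k a a
  symm : ∀ k a b, E k a b → E k b a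
  pr : ∀ k, V (k+1) → V k
  map : ∀ k a b, E (k+1) a b → E k (pr k a) (pr k b)

def Sys.Thread (s : Sys) : Type := {x : ∀ k, s.V k // ∀ k, s.pr k (x (k+1)) = x k}

def Sys.Rel (s : Sys) (x y : s.Thread) : Prop := ∀ k, s.E k (x.1 k) (y.1 k)

/-- closed sets of threads, combinatorially -/
def Sys.Closed (s : Sys) (F : Set s.Thread) : Prop :=
  ∀ x : s.Thread, (∀ k, ∃ y ∈ F, y.1 k = x.1 k) → x ∈ F

namespace Quo

instance finV (s : Sys) (k : ℕ) : Finite (s.V k) := s.fin k
instance topV (s : Sys) (k : ℕ) : TopologicalSpace (s.V k) := ⊥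
instance discV (s : Sys) (k : ℕ) : DiscreteTopology (s.V k) := ⟨rfl⟩

instance topT (s : Sys) : TopologicalSpace s.Thread :=
  inferInstanceAs (TopologicalSpace {x : ∀ k, s.V k // ∀ k, s.pr k (x (k+1)) = x k})

theorem cont_coord (s : Sys) (k : ℕ) : Continuous (fun x : s.Thread => x.1 k) :=
  (continuous_apply k).comp continuous_subtype_val

instance compT (s : Sys) : CompactSpace s.Thread := by
  have h : IsClosed {x : ∀ k, s.V k | ∀ k, s.pr k (x (k+1)) = x k} := by
    rw [setOf_forall]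
    refine isClosed_iInter fun k => isClosed_eq ?_ (continuous_apply k)
    exact (continuous_of_discreteTopology).comp (continuous_apply (k+1))
  exact isCompact_iff_compactSpace.1 h.isCompact

theorem eq_of_eq {s : Sys} {x y : s.Thread} {n : ℕ} (h : x.1 n = y.1 n) {k : ℕ} (hk : k ≤ n) :
    x.1 k = y.1 k := by
  induction n, hk using Nat.le_induction with
  | base => exact h
  | succ n hn ih =>
    apply ih
    rw [← x.2 n, ← y.2 n, h]

theorem rel_of_rel {s : Sys} {x y : s.Thread} {n : ℕ} (h : s.E n (x.1 n) (y.1 n)) {k : ℕ}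
    (hk : k ≤ n) : s.E k (x.1 k) (y.1 k) := by
  induction n, hk using Nat.le_induction with
  | base => exact h
  | succ n hn ih =>
    apply ih
    rw [← x.2 n, ← y.2 n]
    exact s.map n _ _ h

theorem clopen_coord (s : Sys) (k : ℕ) (P : Set (s.V k)) : IsClopen {x : s.Thread | x.1 k ∈ P} :=
  (isClopen_discrete P).preimage (cont_coord s k)

theorem nhds_cyl (s : Sys) (x : s.Thread) {W : Set s.Thread} (hW : W ∈ 𝓝 x) :
    ∃ k, ∀ y : s.Thread, y.1 k = x.1 k → y ∈ W := by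
  obtain ⟨t, ht, htW⟩ := (mem_nhds_induced (fun y : s.Thread => y.1) x W).1 hW
  rw [nhds_pi, Filter.mem_pi] at ht
  obtain ⟨I, hI, t', ht', hsub⟩ := ht
  obtain ⟨n, hn⟩ := hI.bddAbove
  refine ⟨n, fun y hy => htW ?_⟩
  apply hsub
  intro i hi
  have h3 : y.1 i = x.1 i := eq_of_eq hy (hn hi)
  show y.1 i ∈ t' i
  rw [h3]
  exact mem_of_mem_nhds (ht' i)

theorem closed_iff (s : Sys) (F : Set s.Thread) : IsClosed F ↔ s.Closed F := by
  constructor
  · intro hF x hx
    by_contra hxF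
    obtain ⟨k, hk⟩ := nhds_cyl s x (hF.isOpen_compl.mem_nhds hxF)
    obtain ⟨y, hy, hyx⟩ := hx k
    exact hk y hyx hy
  · intro hF
    rw [← isOpen_compl_iff, isOpen_iff_mem_nhds]
    intro x hx
    have : ∃ k, ∀ y ∈ F, y.1 k ≠ x.1 k := by
      by_contra hcon
      push Not at hcon
      exact hx (hF x hcon)
    obtain ⟨k, hk⟩ := this
    have h2 : {y : s.Thread | y.1 k ∈ ({x.1 k} : Set (s.V k))} ∈ 𝓝 x :=
      (clopen_coord s k {x.1 k}).isOpen.mem_nhds (by simp)
    refine Filter.mem_of_superset h2 ?_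
    intro y hy hyF
    exact hk y hyF hy

/-- compactness -/
theorem exists_inter (s : Sys) (F : Set s.Thread) (hF : IsClosed F) (P : ∀ k, Set (s.V k))
    (hP : ∀ k (a : s.V (k+1)), a ∈ P (k+1) → s.pr k a ∈ P k)
    (h : ∀ k, ∃ x ∈ F, x.1 k ∈ P k) : ∃ x ∈ F, ∀ k, x.1 k ∈ P k := by
  have hne := IsCompact.nonempty_iInter_of_sequence_nonempty_isCompact_isClosed
    (fun k => F ∩ {x : s.Thread | x.1 k ∈ P k})
    (fun k x hx => ⟨hx.1, by
      have := hP k _ hx.2
      rw [x.2 k] at this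
      exact this⟩)
    (fun k => by
      obtain ⟨x, hx, hxP⟩ := h k
      exact ⟨x, hx, hxP⟩)
    (hF.isCompact.inter_right (clopen_coord s 0 (P 0)).isClosed)
    (fun k => hF.inter (clopen_coord s k (P k)).isClosed)
  obtain ⟨x, hx⟩ := hne
  rw [mem_iInter] at hx
  exact ⟨x, (hx 0).1, fun k => (hx k).2⟩

section

variable (s : Sys) (htrans : ∀ x y z, s.Rel x y → s.Rel y z → s.Rel x z)

def rel : Setoid s.Thread where
  r := s.Rel
  iseqv := ⟨fun x k => s.refl k _, fun h k => s.symm k _ _ (h k), fun {x y z} h h' => htrans x y z h h'⟩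

abbrev M : Type := Quotient (rel s htrans)

def q : s.Thread → M s htrans := Quotient.mk (rel s htrans)

theorem q_eq {x y : s.Thread} : q s htrans x = q s htrans y ↔ s.Rel x y := Quotient.eq (r := rel s htrans)

theorem q_surj : Function.Surjective (q s htrans) := Quotient.mk_surjective

theorem q_quot : IsQuotientMap (q s htrans) := isQuotientMap_quotient_mk'

theorem q_cont : Continuous (q s htrans) := (q_quot s htrans).continuous

theorem sat_closed {F : Set s.Thread} (hF : IsClosed F) : IsClosed {y | ∃ x ∈ F, s.Rel x y} := by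
  rw [closed_iff]
  intro y hy
  obtain ⟨x, hx, hxy⟩ := exists_inter s F hF (fun k => {a | s.E k a (y.1 k)})
    (fun k a ha => by
      have := s.map k _ _ ha
      rw [y.2 k] at this
      exact this)
    (fun k => by
      obtain ⟨y', ⟨x, hx, hxy⟩, hy'⟩ := hy k
      refine ⟨x, hx, ?_⟩
      have := hxy k
      rw [hy'] at this
      exact this)
  exact ⟨x, hx, hxy⟩

theorem q_closed : IsClosedMap (q s htrans) := by
  intro F hF
  rw [← (q_quot s htrans).isClosed_preimage]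
  have : q s htrans ⁻¹' (q s htrans '' F) = {y | ∃ x ∈ F, s.Rel x y} := by
    ext y
    simp only [mem_preimage, mem_image, mem_setOf_eq, q_eq]
  rw [this]
  exact sat_closed s hF

theorem fib_closed (x : s.Thread) : IsClosed {y | s.Rel x y} := by
  have h1 : IsClosed ({x} : Set s.Thread) := by
    rw [closed_iff]
    intro y hy
    have : y = x := by
      apply Subtype.ext
      funext k
      obtain ⟨z, hz, hzy⟩ := hy k
      rw [mem_singleton_iff] at hz
      rw [← hzy, hz]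
    exact this
  have h2 := sat_closed s h1
  simpa using h2

/-- the small saturated neighbourhoods -/
def nb (k : ℕ) (P : Set (s.V k)) : Set (M s htrans) := (q s htrans '' {z | z.1 k ∈ Pᶜ})ᶜ

theorem nb_open (k : ℕ) (P : Set (s.V k)) : IsOpen (nb s htrans k P) :=
  (q_closed s htrans _ (clopen_coord s k Pᶜ).isClosed).isOpen_compl

theorem mem_nb {k : ℕ} {P : Set (s.V k)} {z : s.Thread} :
    q s htrans z ∈ nb s htrans k P ↔ ∀ y, s.Rel z y → y.1 k ∈ P := by
  unfold nb
  constructor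
  · intro h y hy
    by_contra hyP
    exact h ⟨y, hyP, ((q_eq s htrans).2 hy).symm⟩
  · rintro h ⟨y, hyP, hyz⟩
    exact hyP (h y ((q_eq s htrans).1 hyz.symm))

def cls (x : s.Thread) (k : ℕ) : Set (s.V k) := {a | ∃ y, s.Rel x y ∧ y.1 k = a}

theorem mem_nb_cls (x : s.Thread) (k : ℕ) : q s htrans x ∈ nb s htrans k (cls s x k) := by
  rw [mem_nb]
  intro y hy
  exact ⟨y, hy, rfl⟩

theorem cls_pr (x : s.Thread) (k : ℕ) (a : s.V (k+1)) (ha : a ∈ cls s x (k+1)) :
    s.pr k a ∈ cls s x k := by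
  obtain ⟨y, hy, rfl⟩ := ha
  exact ⟨y, hy, (y.2 k).symm⟩

theorem rel_of_cls (x z : s.Thread) (h : ∀ k, z.1 k ∈ cls s x k) : s.Rel x z := by
  have h1 := (closed_iff s _).1 (fib_closed s x)
  apply h1
  intro k
  obtain ⟨y, hy, hyz⟩ := h k
  exact ⟨y, hy, hyz⟩

theorem basis_aux (x : s.Thread) {W : Set (M s htrans)} (hW : IsOpen W) (hx : q s htrans x ∈ W) :
    ∃ k, nb s htrans k (cls s x k) ⊆ W := by
  by_contra hcon
  push Not at hcon
  obtain ⟨z, hz, hz'⟩ := exists_inter s (q s htrans ⁻¹' Wᶜ) (hW.isClosed_compl.preimage (q_cont s htrans))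
    (cls s x) (cls_pr s x) (fun k => by
      obtain ⟨p, hp, hpW⟩ := not_subset.1 (hcon k)
      obtain ⟨z, rfl⟩ := q_surj s htrans p
      exact ⟨z, hpW, (mem_nb s htrans).1 hp z (fun j => s.refl j _)⟩)
  have h1 := rel_of_cls s x z hz'
  apply hz
  rw [← (q_eq s htrans).2 h1]
  exact hx

theorem t2 : T2Space (M s htrans) := by
  rw [t2Space_iff]
  intro p p' hpp
  obtain ⟨x, rfl⟩ := q_surj s htrans p
  obtain ⟨y, rfl⟩ := q_surj s htrans p'
  have : ∃ k, Disjoint (cls s x k) (cls s y k) := by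
    by_contra hcon
    push Not at hcon
    obtain ⟨z, hz, hz'⟩ := exists_inter s {z | s.Rel x z} (fib_closed s x)
      (fun k => cls s y k) (cls_pr s y) (fun k => by
        obtain ⟨a, ha, ha'⟩ := not_disjoint_iff.1 (hcon k)
        obtain ⟨z, hz, rfl⟩ := ha
        exact ⟨z, hz, ha'⟩)
    have h1 := rel_of_cls s y z hz'
    apply hpp
    rw [(q_eq s htrans).2 hz, (q_eq s htrans).2 h1]
  obtain ⟨k, hk⟩ := this
  refine ⟨nb s htrans k (cls s x k), nb s htrans k (cls s y k), nb_open s htrans k _,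
    nb_open s htrans k _, mem_nb_cls s htrans x k, mem_nb_cls s htrans y k, ?_⟩
  rw [disjoint_iff_inter_eq_empty, eq_empty_iff_forall_notMem]
  rintro p ⟨h1, h2⟩
  obtain ⟨z, rfl⟩ := q_surj s htrans p
  exact (disjoint_left.1 hk) ((mem_nb s htrans).1 h1 z (fun j => s.refl j _))
    ((mem_nb s htrans).1 h2 z (fun j => s.refl j _))

theorem sc : SecondCountableTopology (M s htrans) := by
  have hb : IsTopologicalBasis (range (fun i : Σ k, Set (s.V k) => nb s htrans i.1 i.2)) := by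
    apply isTopologicalBasis_of_isOpen_of_nhds
    · rintro _ ⟨i, rfl⟩
      exact nb_open s htrans i.1 i.2
    · intro p W hp hW
      obtain ⟨x, rfl⟩ := q_surj s htrans p
      obtain ⟨k, hk⟩ := basis_aux s htrans x hW hp
      exact ⟨_, ⟨⟨k, cls s x k⟩, rfl⟩, mem_nb_cls s htrans x k, hk⟩
  exact hb.secondCountableTopology (countable_range _)

theorem preconn_of {F : Set s.Thread} (hF : IsClosed F)
    (hG : ∀ k, GConn (s.E k) ((fun x : s.Thread => x.1 k) '' F)) :
    IsPreconnected (q s htrans '' F) := by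
  rw [isPreconnected_closed_iff]
  intro C D hC hD hsub hC' hD'
  by_contra hcon
  obtain ⟨_, ⟨x, hx, rfl⟩, hxC⟩ := hC'
  obtain ⟨_, ⟨y, hy, rfl⟩, hyD⟩ := hD'
  -- the two closed parts
  have hPc : IsClosed (F ∩ q s htrans ⁻¹' C) := hF.inter (hC.preimage (q_cont s htrans))
  have hQc : IsClosed (F ∩ q s htrans ⁻¹' D) := hF.inter (hD.preimage (q_cont s htrans))
  have key : ∃ k, ∀ a ∈ F ∩ q s htrans ⁻¹' C, ∀ b ∈ F ∩ q s htrans ⁻¹' D,
      ¬ s.E k (a.1 k) (b.1 k) := by
    by_contra hc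
    push Not at hc
    -- first find a
    obtain ⟨a, ha, ha'⟩ := exists_inter s _ hPc
      (fun k => {u | ∃ b ∈ F ∩ q s htrans ⁻¹' D, s.E k u (b.1 k)})
      (fun k u hu => by
        obtain ⟨b, hb, hub⟩ := hu
        refine ⟨b, hb, ?_⟩
        have := s.map k _ _ hub
        rw [b.2 k] at this
        exact this)
      (fun k => by
        obtain ⟨a, ha, b, hb, hab⟩ := hc k
        exact ⟨a, ha, b, hb, hab⟩)
    obtain ⟨b, hb, hb'⟩ := exists_inter s _ hQc
      (fun k => {u | s.E k (a.1 k) u})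
      (fun k u hu => by
        have := s.map k _ _ hu
        rw [a.2 k] at this
        exact this)
      (fun k => by
        obtain ⟨b, hb, hab⟩ := ha' k
        exact ⟨b, hb, hab⟩)
    have hab : q s htrans a = q s htrans b := (q_eq s htrans).2 hb'
    apply hcon
    refine ⟨q s htrans a, ⟨a, ha.1, rfl⟩, ha.2, ?_⟩
    rw [hab]
    exact hb.2
  obtain ⟨k, hk⟩ := key
  have hall := hG k ((fun x : s.Thread => x.1 k) '' (F ∩ q s htrans ⁻¹' C))
    ⟨x.1 k, ⟨x, hx, rfl⟩, ⟨x, ⟨hx, hxC⟩, rfl⟩⟩ (by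
      rintro a - ⟨a', ha', rfl⟩ b ⟨b', hb', rfl⟩ hab
      by_cases hbC : q s htrans b' ∈ C
      · exact ⟨b', ⟨hb', hbC⟩, rfl⟩
      · have hbD : q s htrans b' ∈ D := by
          rcases hsub ⟨b', hb', rfl⟩ with h | h
          · exact absurd h hbC
          · exact h
        exact absurd hab (hk a' ha' b' ⟨hb', hbD⟩))
  obtain ⟨x', hx', hxy⟩ := hall ⟨y, hy, rfl⟩
  have h3 : x'.1 k = y.1 k := hxy
  have := hk x' hx' y ⟨hy, hyD⟩
  rw [h3] at this
  exact this (s.refl k _)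

theorem conn_of {K : Set (M s htrans)} (hK : IsPreconnected K) (k : ℕ) :
    GConn (s.E k) ((fun x : s.Thread => x.1 k) '' (q s htrans ⁻¹' K)) := by
  rintro A ⟨_, ⟨x, hx, rfl⟩, hxA⟩ hA _ ⟨y, hy, rfl⟩
  by_contra hyA
  rw [isPreconnected_closed_iff] at hK
  obtain ⟨p, hpK, hp1, hp2⟩ := hK (q s htrans '' {z | z.1 k ∈ A}) (q s htrans '' {z | z.1 k ∈ Aᶜ})
    (q_closed s htrans _ (clopen_coord s k A).isClosed)
    (q_closed s htrans _ (clopen_coord s k Aᶜ).isClosed)
    (by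
      intro p hp
      obtain ⟨z, rfl⟩ := q_surj s htrans p
      by_cases hz : z.1 k ∈ A
      · exact Or.inl ⟨z, hz, rfl⟩
      · exact Or.inr ⟨z, hz, rfl⟩)
    ⟨_, hx, ⟨x, hxA, rfl⟩⟩ ⟨_, hy, ⟨y, hyA, rfl⟩⟩
  obtain ⟨z, hz, rfl⟩ := hp1
  obtain ⟨z', hz', hzz⟩ := hp2
  have hrel : s.Rel z z' := (q_eq s htrans).1 hzz.symm
  exact hz' (hA _ ⟨z, hpK, rfl⟩ hz _ ⟨z', by
    show q s htrans z' ∈ K
    rw [hzz]; exact hpK, rfl⟩ (hrel k))

end

end Quo

theorem exists_quotient (s : Sys) (hne : Nonempty s.Thread)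
    (htrans : ∀ x y z, s.Rel x y → s.Rel y z → s.Rel x z)
    (hconn : ∀ k, GConn (s.E k) ((fun x : s.Thread => x.1 k) '' Set.univ)) :
    ∃ (M : Type) (_ : MetricSpace M) (_ : CompactSpace M) (_ : ConnectedSpace M) (q : s.Thread → M),
      Function.Surjective q ∧ (∀ x y, q x = q y ↔ s.Rel x y) ∧
      (∀ K : Set M, IsPreconnected K → ∀ k, GConn (s.E k) ((fun x : s.Thread => x.1 k) '' (q ⁻¹' K))) ∧
      (∀ K : Set M, IsCompact K → s.Closed (q ⁻¹' K)) ∧
      (∀ F : Set s.Thread, s.Closed F → F.Nonempty →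
        (∀ k, GConn (s.E k) ((fun x : s.Thread => x.1 k) '' F)) → IsCompact (q '' F) ∧ IsConnected (q '' F)) := by
  haveI := Quo.t2 s htrans
  haveI := Quo.sc s htrans
  haveI : CompactSpace (Quo.M s htrans) := (Quo.q_surj s htrans).compactSpace (Quo.q_cont s htrans)
  letI : MetricSpace (Quo.M s htrans) := TopologicalSpace.metrizableSpaceMetric (Quo.M s htrans)
  haveI : PreconnectedSpace (Quo.M s htrans) := by
    constructor
    have := Quo.preconn_of s htrans isClosed_univ hconn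
    rwa [Set.image_univ, (Quo.q_surj s htrans).range_eq] at this
  haveI : Nonempty (Quo.M s htrans) := hne.map (Quo.q s htrans)
  haveI : ConnectedSpace (Quo.M s htrans) := ⟨inferInstance⟩
  refine ⟨Quo.M s htrans, inferInstance, inferInstance, inferInstance, Quo.q s htrans,
    Quo.q_surj s htrans, fun x y => Quo.q_eq s htrans, fun K hK k => Quo.conn_of s htrans hK k,
    fun K hK => (Quo.closed_iff s _).1 (hK.isClosed.preimage (Quo.q_cont s htrans)), ?_⟩
  intro F hF hFne hG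
  have hFc : IsClosed F := (Quo.closed_iff s F).2 hF
  exact ⟨hFc.isCompact.image (Quo.q_cont s htrans), hFne.image _,
    Quo.preconn_of s htrans hFc hG⟩



structure IsWalk {V : Type} (E : V → V → Prop) (z : V) (A : Set V) (w : List V) : Prop where
  chain : w.IsChain E
  head : w.head? = some z
  last : w.getLast? = some z
  mem : ∀ v, v ∈ w ↔ v ∈ A

theorem exists_path {V : Type} {E : V → V → Prop} {A : Set V} (hA : GConn E A) {z u : V}
    (hz : z ∈ A) (hu : u ∈ A) :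
    ∃ w : List V, w.IsChain E ∧ w.head? = some z ∧ w.getLast? = some u ∧ ∀ v ∈ w, v ∈ A := by
  have h := hA {v | ∃ w : List V, w.IsChain E ∧ w.head? = some z ∧ w.getLast? = some v ∧ ∀ v ∈ w, v ∈ A}
    ⟨z, hz, [z], by simp, by simp, by simp, by simpa using hz⟩ ?_
  · exact h hu
  · rintro a ha ⟨w, h1, h2, h3, h4⟩ b hb hab
    refine ⟨w ++ [b], ?_, ?_, by simp, ?_⟩
    · rw [List.isChain_append]
      refine ⟨h1, by simp, ?_⟩
      intro x hx y hy
      rw [h3] at hx
      simp at hx hy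
      subst hx; subst hy; exact hab
    · cases w with
      | nil => simp at h2
      | cons c l => simpa using h2
    · intro v hv
      rw [List.mem_append] at hv
      rcases hv with hv | hv
      · exact h4 v hv
      · simp at hv; subst hv; exact hb

theorem exists_walk {V : Type} {E : V → V → Prop} (hr : ∀ a, E a a) (hs : ∀ a b, E a b → E b a)
    {A : Set V} (hfin : A.Finite) (hA : GConn E A) {z : V} (hz : z ∈ A) : ∃ w, IsWalk E z A w := by
  have key : ∀ B : Finset V, (∀ b ∈ B, b ∈ A) → ∃ w : List V, w.IsChain E ∧ w.head? = some z ∧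
      w.getLast? = some z ∧ (∀ v ∈ w, v ∈ A) ∧ ∀ b ∈ B, b ∈ w := by
    classical
    intro B
    induction B using Finset.induction_on with
    | empty => intro _; exact ⟨[z], by simp, by simp, by simp, by simpa using hz, by simp⟩
    | insert u B _ ih =>
      intro hB
      obtain ⟨w, h1, h2, h3, h4, h5⟩ := ih (fun b hb => hB b (Finset.mem_insert_of_mem hb))
      obtain ⟨p, p1, p2, p3, p4⟩ := exists_path hA hz (hB u (Finset.mem_insert_self _ _))
      refine ⟨w ++ (p ++ p.reverse), ?_, ?_, ?_, ?_, ?_⟩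
      · rw [List.isChain_append]
        refine ⟨h1, ?_, ?_⟩
        · rw [List.isChain_append]
          refine ⟨p1, ?_, ?_⟩
          · rw [List.isChain_reverse]
            exact p1.imp (fun a b h => hs _ _ h)
          · intro x hx y hy
            rw [p3] at hx
            rw [List.head?_reverse, p3] at hy
            simp at hx hy
            subst hx; subst hy; exact hr _
        · intro x hx y hy
          rw [h3] at hx
          rw [List.head?_append, p2] at hy
          simp at hx hy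
          subst hx; subst hy; exact hr _
      · rw [List.head?_append, h2]; simp
      · rw [List.getLast?_append, List.getLast?_append, List.getLast?_reverse, p2]; simp
      · intro v hv
        simp only [List.mem_append, List.mem_reverse] at hv
        rcases hv with hv | hv | hv
        · exact h4 v hv
        · exact p4 v hv
        · exact p4 v hv
      · intro b hb
        rw [Finset.mem_insert] at hb
        rcases hb with rfl | hb
        · have : b ∈ p := List.mem_of_getLast? p3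
          simp [this]
        · simp [h5 b hb]
  obtain ⟨w, h1, h2, h3, h4, h5⟩ := key hfin.toFinset (by simp)
  exact ⟨w, h1, h2, h3, fun v => ⟨h4 v, fun hv => h5 v (by simpa using hv)⟩⟩


/-- a stage of the construction -/
structure Stg where
  V : Type
  fin : Finite V
  E : V → V → Prop
  T : ℕ → ℕ → Set V
  Surv : (ℕ → Finset ℕ) → Set V
  anc : V → ℕ → ℕ
  lab : V → ℕ

def Bdd (b : ℕ) (S : ℕ → Finset ℕ) : Prop := ∀ j, b < j → (S j).card ≤ 2 ^ b

section Step

variable (s : Stg) (k b0 i0 : ℕ)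

/-- `(c,z,A)` is the name of a detour -/
def Valid (p : s.V × s.V × Set s.V) : Prop :=
  s.E p.1 p.2.1 ∧ p.2.1 ∈ s.T b0 i0 ∧ p.1 ∉ s.T b0 i0 ∧
    (∃ S : ℕ → Finset ℕ, Bdd b0 S ∧ p.2.1 ∈ s.Surv S ∧ p.2.2 = s.T b0 i0 ∩ s.Surv S) ∧
    ∃ w, IsWalk s.E p.2.1 p.2.2 w

open Classical in
noncomputable def walk (p : s.V × s.V × Set s.V) : List s.V :=
  if h : Valid s b0 i0 p then Classical.choose h.2.2.2.2 else []

theorem walk_spec {p : s.V × s.V × Set s.V} (h : Valid s b0 i0 p) :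
    IsWalk s.E p.2.1 p.2.2 (walk s b0 i0 p) := by
  unfold walk; rw [dif_pos h]; exact Classical.choose_spec h.2.2.2.2

theorem valid_of_lt {p : s.V × s.V × Set s.V} {t : ℕ} (ht : t < (walk s b0 i0 p).length) :
    Valid s b0 i0 p := by
  by_contra h
  unfold walk at ht; rw [dif_neg h] at ht; simp at ht

/-- the new vertices before colouring -/
def W : Type := s.V ⊕ (Σ p : s.V × s.V × Set s.V, Fin (walk s b0 i0 p).length)

noncomputable def prW : W s b0 i0 → s.V
  | Sum.inl x => x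
  | Sum.inr q => (walk s b0 i0 q.1).get q.2

def EW : W s b0 i0 → W s b0 i0 → Prop
  | Sum.inl x, Sum.inl y => s.E x y ∧ (x ∈ s.T b0 i0 ↔ y ∈ s.T b0 i0)
  | Sum.inl x, Sum.inr q => (x = q.1.1 ∧ q.2.val = 0) ∨
      (x = q.1.2.1 ∧ q.2.val + 1 = (walk s b0 i0 q.1).length)
  | Sum.inr q, Sum.inl x => (x = q.1.1 ∧ q.2.val = 0) ∨
      (x = q.1.2.1 ∧ q.2.val + 1 = (walk s b0 i0 q.1).length)
  | Sum.inr q, Sum.inr q' => q.1 = q'.1 ∧ (q.2.val = q'.2.val + 1 ∨ q'.2.val = q.2.val + 1)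

def liftT (X : Set s.V) : Set (W s b0 i0)
  | Sum.inl x => x ∈ X
  | Sum.inr q => q.1.1 ∈ X ∧ q.1.2.1 ∈ X

def survW (S : ℕ → Finset ℕ) : Set (W s b0 i0)
  | Sum.inl x => x ∈ s.Surv S
  | Sum.inr q => q.1.1 ∈ s.Surv S ∧ q.1.2.2 ⊆ s.Surv S

theorem finite_V' (N : ℕ) : Finite (W s b0 i0 × Fin N) := by
  have := s.fin
  have : Finite (Set s.V) := inferInstance
  have : Finite (Σ p : s.V × s.V × Set s.V, Fin (walk s b0 i0 p).length) := inferInstance
  unfold W
  infer_instance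

/-- an injective numbering of a finite type -/
noncomputable def ix (V : Type) (h : Finite V) (v : V) : ℕ := (Finite.equivFin V v).val

theorem ix_inj {V : Type} {h : Finite V} {u v : V} (e : ix V h u = ix V h v) : u = v := by
  unfold ix at e
  exact (Finite.equivFin V).injective (Fin.ext e)

/-- the step from stage `k` to stage `k+1`, processing the set named `(b0,i0)` -/
noncomputable def step : Stg where
  V := W s b0 i0 × Fin (2 ^ (k + 2))
  fin := finite_V' s b0 i0 _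
  E := fun u v => u.1 = v.1 ∨ EW s b0 i0 u.1 v.1
  T := fun b i => {v | (b ≤ k ∧ v.1 ∈ liftT s b0 i0 (s.T b i)) ∨
    (b = k + 1 ∧ ix _ (finite_V' s b0 i0 _) v = i)}
  Surv := fun S => {v | v.1 ∈ survW s b0 i0 S ∧ v.2.val ∉ S (k + 1)}
  anc := fun v b => if b ≤ k then s.anc (prW s b0 i0 v.1) b else ix _ (finite_V' s b0 i0 _) v
  lab := fun v => v.2.val

end Step

structure Inv (k : ℕ) (s : Stg) : Prop where
  refl : ∀ a, s.E a a
  symm : ∀ a b, s.E a b → s.E b a
  tle : ∀ b i v, v ∈ s.T b i → b ≤ k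
  tanc : ∀ b i v, v ∈ s.T b i → s.anc v b = i
  tself : ∀ v, v ∈ s.T k (s.anc v k)
  ancinj : ∀ u v, s.anc u k = s.anc v k → u = v
  ancdet : ∀ u v b b', b ≤ b' → b' ≤ k → s.anc u b' = s.anc v b' → s.anc u b = s.anc v b
  lam : ∀ b b' i i' v, b ≤ b' → v ∈ s.T b i → v ∈ s.T b' i' → s.T b' i' ⊆ s.T b i
  root : ∀ v, v ∈ s.T 0 0
  conn : ∀ b i S, Bdd b S → GConn s.E (s.T b i ∩ s.Surv S)
  sunion : ∀ S S' v, v ∈ s.Surv S → v ∈ s.Surv S' → v ∈ s.Surv (fun j => S j ∪ S' j)
  sunion' : ∀ S S' v, v ∈ s.Surv (fun j => S j ∪ S' j) → v ∈ s.Surv S ∧ v ∈ s.Surv S'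
  scongr : ∀ S S', (∀ j ≤ k, ∀ l < 2 ^ (j + 1), (l ∈ S j ↔ l ∈ S' j)) → s.Surv S = s.Surv S'

def stage0 : Stg where
  V := Unit
  fin := inferInstance
  E := fun _ _ => True
  T := fun b i => {_v | b = 0 ∧ i = 0}
  Surv := fun _ => Set.univ
  anc := fun _ _ => 0
  lab := fun _ => 0

theorem inv0 : Inv 0 stage0 where
  refl := fun _ => trivial
  symm := fun _ _ _ => trivial
  tle := fun b i v h => by
    have : b = 0 ∧ i = 0 := h
    omega
  tanc := fun b i v h => by
    have : b = 0 ∧ i = 0 := h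
    show 0 = i
    omega
  tself := fun v => ⟨rfl, rfl⟩
  ancinj := fun u v _ => by
    cases u; cases v; rfl
  ancdet := fun _ _ _ _ _ _ _ => rfl
  lam := fun b b' i i' v _ h h' => by
    intro u _
    exact h
  root := fun v => ⟨rfl, rfl⟩
  conn := fun b i S _ => by
    intro A ⟨a, _, ha⟩ _ c _
    cases a; cases c; exact ha
  sunion := fun _ _ _ _ _ => trivial
  sunion' := fun _ _ _ _ => ⟨trivial, trivial⟩
  scongr := fun _ _ _ => rfl

section Step

variable {s : Stg} {k b0 i0 : ℕ}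

theorem prW_inr_mem (q : Σ p : s.V × s.V × Set s.V, Fin (walk s b0 i0 p).length) :
    prW s b0 i0 (Sum.inr q) ∈ q.1.2.2 := by
  have hv := valid_of_lt s b0 i0 q.2.isLt
  exact ((walk_spec s b0 i0 hv).mem _).1 (List.get_mem _ _)

theorem validq (q : Σ p : s.V × s.V × Set s.V, Fin (walk s b0 i0 p).length) :
    Valid s b0 i0 q.1 := valid_of_lt s b0 i0 q.2.isLt

theorem A_sub {p : s.V × s.V × Set s.V} (h : Valid s b0 i0 p) : p.2.2 ⊆ s.T b0 i0 := by
  obtain ⟨S, _, _, h⟩ := h.2.2.2.1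
  rw [h]; exact Set.inter_subset_left

theorem z_mem {p : s.V × s.V × Set s.V} (h : Valid s b0 i0 p) : p.2.1 ∈ p.2.2 := by
  obtain ⟨S, _, hz, hA⟩ := h.2.2.2.1
  rw [hA]; exact ⟨h.2.1, hz⟩

theorem prW_inr_T (q : Σ p : s.V × s.V × Set s.V, Fin (walk s b0 i0 p).length) :
    prW s b0 i0 (Sum.inr q) ∈ s.T b0 i0 := A_sub (validq q) (prW_inr_mem q)

theorem prW_zero (q : Σ p : s.V × s.V × Set s.V, Fin (walk s b0 i0 p).length) (h : q.2.val = 0) :
    prW s b0 i0 (Sum.inr q) = q.1.2.1 := by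
  have h1 := (walk_spec s b0 i0 (validq q)).head
  show (walk s b0 i0 q.1).get q.2 = _
  have hlt := q.2.isLt
  rw [h] at hlt
  rw [List.head?_eq_getElem?, List.getElem?_eq_getElem hlt] at h1
  rw [List.get_eq_getElem]
  simp only [h]
  exact Option.some.inj h1

theorem prW_last (q : Σ p : s.V × s.V × Set s.V, Fin (walk s b0 i0 p).length)
    (h : q.2.val + 1 = (walk s b0 i0 q.1).length) :
    prW s b0 i0 (Sum.inr q) = q.1.2.1 := by
  have h1 := (walk_spec s b0 i0 (validq q)).last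
  show (walk s b0 i0 q.1).get q.2 = _
  have hlt := q.2.isLt
  rw [List.getLast?_eq_getElem?] at h1
  have e : (walk s b0 i0 q.1).length - 1 = q.2.val := by omega
  rw [e, List.getElem?_eq_getElem hlt] at h1
  rw [List.get_eq_getElem]
  exact Option.some.inj h1

theorem prW_succ (hr : Inv k s) (q q' : Σ p : s.V × s.V × Set s.V, Fin (walk s b0 i0 p).length)
    (h : q.1 = q'.1) (h2 : q'.2.val = q.2.val + 1) :
    s.E (prW s b0 i0 (Sum.inr q)) (prW s b0 i0 (Sum.inr q')) := by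
  obtain ⟨p, t⟩ := q
  obtain ⟨p', t'⟩ := q'
  simp only at h
  subst h
  simp only at h2
  have hc := (walk_spec s b0 i0 (valid_of_lt s b0 i0 t.isLt)).chain
  rw [List.isChain_iff_getElem] at hc
  have h3 : t.val + 1 < (walk s b0 i0 p).length := by rw [← h2]; exact t'.isLt
  have := hc t.val h3
  show s.E ((walk s b0 i0 p).get t) ((walk s b0 i0 p).get t')
  rw [List.get_eq_getElem, List.get_eq_getElem]
  simp only [h2]
  exact this

theorem E_pr (hr : Inv k s) {u v : W s b0 i0} (h : u = v ∨ EW s b0 i0 u v) :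
    s.E (prW s b0 i0 u) (prW s b0 i0 v) := by
  rcases h with rfl | h
  · exact hr.refl _
  · rcases u with x | q <;> rcases v with y | q'
    · exact h.1
    · rcases h with ⟨h1, h2⟩ | ⟨h1, h2⟩
      · rw [prW_zero q' h2]
        subst h1
        exact (validq q').1
      · rw [prW_last q' h2]
        subst h1
        exact hr.refl _
    · rcases h with ⟨h1, h2⟩ | ⟨h1, h2⟩
      · rw [prW_zero q h2]
        subst h1
        exact hr.symm _ _ (validq q).1
      · rw [prW_last q h2]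
        subst h1
        exact hr.refl _
    · rcases h with ⟨h1, h2 | h2⟩
      · exact hr.symm _ _ (prW_succ hr q' q h1.symm h2)
      · exact prW_succ hr q q' h1 h2

theorem EW_symm (hr : Inv k s) {u v : W s b0 i0} (h : EW s b0 i0 u v) : EW s b0 i0 v u := by
  rcases u with x | q <;> rcases v with y | q'
  · exact ⟨hr.symm _ _ h.1, h.2.symm⟩
  · exact h
  · exact h
  · exact ⟨h.1.symm, h.2.symm⟩

/-- the processed set is contained in every `T b i` containing a detour -/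
theorem T_sub_of_lift (hr : Inv k s) {b i : ℕ} {p : s.V × s.V × Set s.V} (hp : Valid s b0 i0 p)
    (h : p.1 ∈ s.T b i ∧ p.2.1 ∈ s.T b i) : s.T b0 i0 ⊆ s.T b i ∧ b ≤ b0 := by
  rcases le_total b b0 with hb | hb
  · exact ⟨hr.lam b b0 i i0 _ hb h.2 hp.2.1, hb⟩
  · exact absurd (hr.lam b0 b i0 i _ hb hp.2.1 h.2 h.1) hp.2.2.1

theorem lift_pr (hr : Inv k s) {b i : ℕ} {v : W s b0 i0} (h : v ∈ liftT s b0 i0 (s.T b i)) :
    prW s b0 i0 v ∈ s.T b i := by
  rcases v with x | q
  · exact h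
  · exact (T_sub_of_lift hr (validq q) h).1 (prW_inr_T q)

theorem surv_pr {S : ℕ → Finset ℕ} {v : W s b0 i0} (h : v ∈ survW s b0 i0 S) :
    prW s b0 i0 v ∈ s.Surv S := by
  rcases v with x | q
  · exact h
  · exact h.2 (prW_inr_mem q)

theorem lift_inl {v : W s b0 i0} (h : v ∈ liftT s b0 i0 (s.T b0 i0)) : ∃ x, v = Sum.inl x := by
  rcases v with x | q
  · exact ⟨x, rfl⟩
  · exact absurd h.1 (validq q).2.2.1

theorem nbr_T {u v : W s b0 i0} (hv : v ∈ liftT s b0 i0 (s.T b0 i0))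
    (h : v = u ∨ EW s b0 i0 v u) : prW s b0 i0 u ∈ s.T b0 i0 := by
  obtain ⟨x, rfl⟩ := lift_inl hv
  rcases h with rfl | h
  · exact hv
  · rcases u with y | q
    · exact h.2.1 hv
    · exact prW_inr_T q

theorem nbr_path {u : W s b0 i0} {q : Σ p : s.V × s.V × Set s.V, Fin (walk s b0 i0 p).length}
    (h : Sum.inr q = u ∨ EW s b0 i0 (Sum.inr q) u) :
    prW s b0 i0 u ∈ s.T b0 i0 ∨ u = Sum.inl q.1.1 := by
  rcases h with rfl | h
  · exact Or.inl (prW_inr_T q)
  · rcases u with y | q'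
    · rcases h with ⟨h1, _⟩ | ⟨h1, _⟩
      · exact Or.inr (by rw [h1])
      · left; rw [h1]; exact (validq q).2.1
    · exact Or.inl (prW_inr_T q')

end Step

section Step

variable {s : Stg} {k b0 i0 : ℕ}

theorem Bdd.mono {b b' : ℕ} {S : ℕ → Finset ℕ} (h : Bdd b S) (hb : b ≤ b') : Bdd b' S := by
  intro j hj
  exact (h j (lt_of_le_of_lt hb hj)).trans (Nat.pow_le_pow_right (by norm_num) hb)

/-- moving along a detour -/
theorem path_all (hr : Inv k s) {M B : Set (W s b0 i0)} {p : s.V × s.V × Set s.V}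
    (hp : Valid s b0 i0 p)
    (hM : ∀ t : Fin (walk s b0 i0 p).length, (Sum.inr ⟨p, t⟩ : W s b0 i0) ∈ M)
    (hc : (Sum.inl p.1 : W s b0 i0) ∈ M) (hz : (Sum.inl p.2.1 : W s b0 i0) ∈ M)
    (hcl : ∀ a ∈ M, a ∈ B → ∀ b ∈ M, EW s b0 i0 a b → b ∈ B) :
    ((Sum.inl p.1 : W s b0 i0) ∈ B ↔ (Sum.inl p.2.1 : W s b0 i0) ∈ B) ∧
    ∀ t : Fin (walk s b0 i0 p).length,
      ((Sum.inr ⟨p, t⟩ : W s b0 i0) ∈ B ↔ (Sum.inl p.1 : W s b0 i0) ∈ B) := by
  have hcl' : ∀ a ∈ M, ∀ b ∈ M, EW s b0 i0 a b → (a ∈ B ↔ b ∈ B) := fun a ha b hb h =>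
    ⟨fun h1 => hcl a ha h1 b hb h, fun h1 => hcl b hb h1 a ha (EW_symm hr h)⟩
  have hne : 0 < (walk s b0 i0 p).length := by
    have := (walk_spec s b0 i0 hp).head
    cases h : walk s b0 i0 p with
    | nil => rw [h] at this; simp at this
    | cons a l => simp
  have h0 : ((Sum.inl p.1 : W s b0 i0) ∈ B ↔ (Sum.inr ⟨p, ⟨0, hne⟩⟩ : W s b0 i0) ∈ B) :=
    hcl' _ hc _ (hM _) (Or.inl ⟨rfl, rfl⟩)
  have h1 : ∀ n (hn : n < (walk s b0 i0 p).length),
      ((Sum.inr ⟨p, ⟨n, hn⟩⟩ : W s b0 i0) ∈ B ↔ (Sum.inl p.1 : W s b0 i0) ∈ B) := by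
    intro n
    induction n with
    | zero => intro hn; exact h0.symm
    | succ n ih =>
      intro hn
      rw [← ih (by omega)]
      exact hcl' _ (hM _) _ (hM _) ⟨rfl, Or.inl rfl⟩
  refine ⟨?_, fun t => h1 t.val t.isLt⟩
  rw [← h1 ((walk s b0 i0 p).length - 1) (by omega)]
  exact hcl' _ (hM _) _ hz (Or.inr ⟨rfl, by simp only; omega⟩)

theorem conn_W (hr : Inv k s) (b i : ℕ) (S : ℕ → Finset ℕ) (hS : Bdd b S) :
    GConn (EW s b0 i0) (liftT s b0 i0 (s.T b i) ∩ survW s b0 i0 S) := by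
  intro B ⟨w0, hw0, hw0B⟩ hcl
  set M := liftT s b0 i0 (s.T b i) ∩ survW s b0 i0 S with hMdef
  -- detours inside M
  have hpath : ∀ p : s.V × s.V × Set s.V, Valid s b0 i0 p → p.1 ∈ s.T b i → p.2.1 ∈ s.T b i →
      p.1 ∈ s.Surv S → p.2.2 ⊆ s.Surv S →
      ((Sum.inl p.1 : W s b0 i0) ∈ B ↔ (Sum.inl p.2.1 : W s b0 i0) ∈ B) ∧
      ∀ t : Fin (walk s b0 i0 p).length,
      ((Sum.inr ⟨p, t⟩ : W s b0 i0) ∈ B ↔ (Sum.inl p.1 : W s b0 i0) ∈ B) := by
    intro p hp h1 h2 h3 h4
    exact path_all (M := M) hr hp (fun t => ⟨⟨h1, h2⟩, h3, h4⟩) ⟨h1, h3⟩ ⟨h2, h4 (z_mem hp)⟩ hcl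
  have hU : s.T b i ∩ s.Surv S ⊆ {x | (Sum.inl x : W s b0 i0) ∈ B} := by
    apply hr.conn b i S hS
    · rcases w0 with x | q
      · exact ⟨x, ⟨hw0.1, hw0.2⟩, hw0B⟩
      · refine ⟨q.1.1, ⟨hw0.1.1, hw0.2.1⟩, ?_⟩
        have := (hpath q.1 (validq q) hw0.1.1 hw0.1.2 hw0.2.1 hw0.2.2).2 q.2
        exact this.1 hw0B
    · rintro x ⟨hx1, hx2⟩ hxB y ⟨hy1, hy2⟩ hxy
      by_cases hxT : x ∈ s.T b0 i0 <;> by_cases hyT : y ∈ s.T b0 i0
      · exact hcl _ ⟨hx1, hx2⟩ hxB _ ⟨hy1, hy2⟩ ⟨hxy, by simp [hxT, hyT]⟩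
      · -- c = y, z = x
        have hb : b ≤ b0 := by
          by_contra hb
          exact hyT (hr.lam b0 b i0 i _ (by omega) hxT hx1 hy1)
        have hp : Valid s b0 i0 (y, x, s.T b0 i0 ∩ s.Surv S) := by
          refine ⟨hr.symm _ _ hxy, hxT, hyT, ⟨S, hS.mono hb, hx2, rfl⟩, ?_⟩
          have := s.fin
          exact exists_walk hr.refl hr.symm (Set.toFinite _) (hr.conn b0 i0 S (hS.mono hb)) ⟨hxT, hx2⟩
        have := (hpath _ hp hy1 hx1 hy2 Set.inter_subset_right).1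
        exact this.2 hxB
      · have hb : b ≤ b0 := by
          by_contra hb
          exact hxT (hr.lam b0 b i0 i _ (by omega) hyT hy1 hx1)
        have hp : Valid s b0 i0 (x, y, s.T b0 i0 ∩ s.Surv S) := by
          refine ⟨hxy, hyT, hxT, ⟨S, hS.mono hb, hy2, rfl⟩, ?_⟩
          have := s.fin
          exact exists_walk hr.refl hr.symm (Set.toFinite _) (hr.conn b0 i0 S (hS.mono hb)) ⟨hyT, hy2⟩
        have := (hpath _ hp hx1 hy1 hx2 Set.inter_subset_right).1
        exact this.1 hxB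
      · exact hcl _ ⟨hx1, hx2⟩ hxB _ ⟨hy1, hy2⟩ ⟨hxy, by simp [hxT, hyT]⟩
  rintro (x | q) ⟨h1, h2⟩
  · exact hU ⟨h1, h2⟩
  · exact ((hpath q.1 (validq q) h1.1 h1.2 h2.1 h2.2).2 q.2).2 (hU ⟨h1.1, h2.1⟩)

theorem inv_step (hr : Inv k s) : Inv (k + 1) (step s k b0 i0) where
  refl := fun a => Or.inl rfl
  symm := by
    intro a b h
    rcases h with h | h
    · exact Or.inl h.symm
    · exact Or.inr (EW_symm hr h)
  tle := by
    rintro b i v (⟨h, _⟩ | ⟨h, _⟩) <;> omega
  tanc := by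
    rintro b i v (⟨h, h'⟩ | ⟨h, h'⟩)
    · show (if b ≤ k then s.anc (prW s b0 i0 v.1) b else _) = i
      rw [if_pos h]
      exact hr.tanc _ _ _ (lift_pr hr h')
    · show (if b ≤ k then s.anc (prW s b0 i0 v.1) b else _) = i
      rw [if_neg (by omega)]
      exact h'
  tself := by
    intro v
    refine Or.inr ⟨rfl, ?_⟩
    show _ = (if k + 1 ≤ k then s.anc (prW s b0 i0 v.1) (k + 1) else _)
    rw [if_neg (by omega)]
  ancinj := by
    intro u v h
    change (if k + 1 ≤ k then s.anc (prW s b0 i0 u.1) (k + 1) else _) =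
      (if k + 1 ≤ k then s.anc (prW s b0 i0 v.1) (k + 1) else _) at h
    rw [if_neg (by omega), if_neg (by omega)] at h
    exact ix_inj h
  ancdet := by
    intro u v b b' hb hb' h
    change (if b' ≤ k then s.anc (prW s b0 i0 u.1) b' else _) =
      (if b' ≤ k then s.anc (prW s b0 i0 v.1) b' else _) at h
    by_cases hk : b' ≤ k
    · rw [if_pos hk, if_pos hk] at h
      show (if b ≤ k then s.anc (prW s b0 i0 u.1) b else _) =
        (if b ≤ k then s.anc (prW s b0 i0 v.1) b else _)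
      rw [if_pos (by omega), if_pos (by omega)]
      exact hr.ancdet _ _ b b' hb hk h
    · rw [if_neg hk, if_neg hk] at h
      rw [ix_inj h]
  lam := by
    rintro b b' i i' v hb (⟨h1, h2⟩ | ⟨h1, h2⟩) (⟨h3, h4⟩ | ⟨h3, h4⟩)
    · rintro w (⟨h5, h6⟩ | ⟨h5, h6⟩)
      · refine Or.inl ⟨h1, ?_⟩
        have hsub : s.T b' i' ⊆ s.T b i := hr.lam b b' i i' _ hb (lift_pr hr h2) (lift_pr hr h4)
        rcases w with ⟨x | q, l⟩
        · exact hsub h6
        · exact ⟨hsub h6.1, hsub h6.2⟩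
      · omega
    · rintro w (⟨h5, h6⟩ | ⟨h5, h6⟩)
      · omega
      · rw [← h4] at h6
        rw [ix_inj h6]
        exact Or.inl ⟨h1, h2⟩
    · omega
    · rintro w (⟨h5, h6⟩ | ⟨h5, h6⟩)
      · omega
      · rw [← h4] at h6
        rw [ix_inj h6]
        exact Or.inr ⟨h1, h2⟩
  root := by
    rintro ⟨x | q, l⟩
    · exact Or.inl ⟨by omega, hr.root _⟩
    · exact Or.inl ⟨by omega, hr.root _, hr.root _⟩
  conn := by
    intro b i S hS A ⟨a, ⟨haT, haS⟩, haA⟩ hcl
    rcases haT with ⟨hb, haT⟩ | ⟨hb, haT⟩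
    · have hW := conn_W (b0 := b0) (i0 := i0) hr b i S hS {w | (w, a.2) ∈ A} ⟨a.1, ⟨haT, haS.1⟩, haA⟩ (by
        intro w hw hwA w' hw' hww'
        exact hcl (w, a.2) ⟨Or.inl ⟨hb, hw.1⟩, hw.2, haS.2⟩ hwA (w', a.2)
          ⟨Or.inl ⟨hb, hw'.1⟩, hw'.2, haS.2⟩ (Or.inr hww'))
      rintro v ⟨hvT, hvS⟩
      rcases hvT with ⟨_, hvT⟩ | ⟨h, _⟩
      · have h1 : (v.1, a.2) ∈ A := hW ⟨hvT, hvS.1⟩
        exact hcl (v.1, a.2) ⟨Or.inl ⟨hb, hvT⟩, hvS.1, haS.2⟩ h1 v ⟨Or.inl ⟨hb, hvT⟩, hvS⟩ (Or.inl rfl)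
      · omega
    · rintro v ⟨hvT, hvS⟩
      rcases hvT with ⟨h, _⟩ | ⟨_, hvT⟩
      · omega
      · rw [← haT] at hvT
        rw [ix_inj hvT]
        exact haA
  sunion := by
    rintro S S' ⟨x | q, l⟩ h h'
    · refine ⟨hr.sunion _ _ _ h.1 h'.1, ?_⟩
      rw [Finset.mem_union]
      exact not_or.2 ⟨h.2, h'.2⟩
    · refine ⟨⟨hr.sunion _ _ _ h.1.1 h'.1.1, fun y hy => hr.sunion _ _ _ (h.1.2 hy) (h'.1.2 hy)⟩, ?_⟩
      rw [Finset.mem_union]
      exact not_or.2 ⟨h.2, h'.2⟩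
  sunion' := by
    rintro S S' ⟨x | q, l⟩ h
    · have h2 := h.2
      rw [Finset.mem_union, not_or] at h2
      exact ⟨⟨(hr.sunion' _ _ _ h.1).1, h2.1⟩, ⟨(hr.sunion' _ _ _ h.1).2, h2.2⟩⟩
    · have h2 := h.2
      rw [Finset.mem_union, not_or] at h2
      exact ⟨⟨⟨(hr.sunion' _ _ _ h.1.1).1, fun y hy => (hr.sunion' _ _ _ (h.1.2 hy)).1⟩, h2.1⟩,
        ⟨⟨(hr.sunion' _ _ _ h.1.1).2, fun y hy => (hr.sunion' _ _ _ (h.1.2 hy)).2⟩, h2.2⟩⟩
  scongr := by
    intro S S' h
    have h1 := hr.scongr S S' (fun j hj => h j (by omega))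
    ext ⟨w, l⟩
    have h2 := h (k + 1) le_rfl l.val l.isLt
    have h3 : w ∈ survW s b0 i0 S ↔ w ∈ survW s b0 i0 S' := by
      rcases w with x | q
      · show x ∈ s.Surv S ↔ x ∈ s.Surv S'
        rw [h1]
      · show (q.1.1 ∈ s.Surv S ∧ q.1.2.2 ⊆ s.Surv S) ↔ (q.1.1 ∈ s.Surv S' ∧ q.1.2.2 ⊆ s.Surv S')
        rw [h1]
    show (w ∈ survW s b0 i0 S ∧ l.val ∉ S (k + 1)) ↔ (w ∈ survW s b0 i0 S' ∧ l.val ∉ S' (k + 1))
    rw [h3, h2]

end Step

/-- schedule: every name is processed infinitely often -/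
def sched (k : ℕ) : ℕ × ℕ := Nat.unpair (Nat.unpair k).1

theorem sched_inf (b i m : ℕ) : ∃ k, m ≤ k ∧ sched k = (b, i) := by
  refine ⟨Nat.pair (Nat.pair b i) m, Nat.right_le_pair _ _, ?_⟩
  unfold sched
  simp

noncomputable def stage : ℕ → Stg
  | 0 => stage0
  | k + 1 => step (stage k) k (sched k).1 (sched k).2

theorem inv (k : ℕ) : Inv k (stage k) := by
  induction k with
  | zero => exact inv0
  | succ k ih => exact inv_step ih

/-- the uncoloured new vertices at stage `k+1` -/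
abbrev Wk (k : ℕ) : Type := W (stage k) (sched k).1 (sched k).2

/-- the projection -/
noncomputable def prk (k : ℕ) (v : (stage (k + 1)).V) : (stage k).V :=
  prW (stage k) (sched k).1 (sched k).2 v.1

noncomputable def sy : Sys where
  V := fun k => (stage k).V
  fin := fun k => (stage k).fin
  E := fun k => (stage k).E
  refl := fun k => (inv k).refl
  symm := fun k => (inv k).symm
  pr := prk
  map := fun k _ _ h => E_pr (inv k) h

abbrev Th : Type := sy.Thread

/-- the thread `x` stays in the set named `(b,i)` -/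
def memT (x : Th) (b i : ℕ) : Prop := ∀ k, b ≤ k → x.1 k ∈ (stage k).T b i

/-- core child -/
def core (k : ℕ) (v : (stage k).V) (l : Fin (2 ^ (k + 2))) : (stage (k + 1)).V :=
  ((Sum.inl v : Wk k), l)

theorem pr_core (k : ℕ) (v : (stage k).V) (l : Fin (2 ^ (k + 2))) : prk k (core k v l) = v := rfl

theorem pr_T {k b i : ℕ} (hb : b ≤ k) {v : (stage (k + 1)).V} (h : v ∈ (stage (k + 1)).T b i) :
    prk k v ∈ (stage k).T b i := by
  rcases h with ⟨_, h⟩ | ⟨h, _⟩
  · exact lift_pr (inv k) h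
  · omega

theorem pr_Surv {k : ℕ} {S : ℕ → Finset ℕ} {v : (stage (k + 1)).V} (h : v ∈ (stage (k + 1)).Surv S) :
    prk k v ∈ (stage k).Surv S := surv_pr h.1

theorem pr_anc {k b : ℕ} (hb : b ≤ k) (v : (stage (k + 1)).V) :
    (stage (k + 1)).anc v b = (stage k).anc (prk k v) b := if_pos hb

theorem core_T {k b i : ℕ} (hb : b ≤ k) {v : (stage k).V} (h : v ∈ (stage k).T b i)
    (l : Fin (2 ^ (k + 2))) : core k v l ∈ (stage (k + 1)).T b i := Or.inl ⟨hb, h⟩

theorem core_Surv {k : ℕ} {S : ℕ → Finset ℕ} {v : (stage k).V} (h : v ∈ (stage k).Surv S)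
    {l : Fin (2 ^ (k + 2))} (hl : l.val ∉ S (k + 1)) : core k v l ∈ (stage (k + 1)).Surv S := ⟨h, hl⟩

theorem th_pr (x : Th) (k : ℕ) : prk k (x.1 (k + 1)) = x.1 k := x.2 k

theorem th_eq {x y : Th} {n k : ℕ} (h : x.1 n = y.1 n) (hk : k ≤ n) : x.1 k = y.1 k :=
  Quo.eq_of_eq h hk

theorem th_T {x : Th} {b i n k : ℕ} (hb : b ≤ k) (hk : k ≤ n) (h : x.1 n ∈ (stage n).T b i) :
    x.1 k ∈ (stage k).T b i := by
  induction n, hk using Nat.le_induction with
  | base => exact h
  | succ n hn ih =>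
    apply ih
    rw [← th_pr x n]
    exact pr_T (by omega) h

theorem th_Surv {x : Th} {S : ℕ → Finset ℕ} {n k : ℕ} (hk : k ≤ n) (h : x.1 n ∈ (stage n).Surv S) :
    x.1 k ∈ (stage k).Surv S := by
  induction n, hk using Nat.le_induction with
  | base => exact h
  | succ n hn ih =>
    apply ih
    rw [← th_pr x n]
    exact pr_Surv h

theorem th_anc {x : Th} {b n k : ℕ} (hb : b ≤ k) (hk : k ≤ n) :
    (stage n).anc (x.1 n) b = (stage k).anc (x.1 k) b := by
  induction n, hk using Nat.le_induction with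
  | base => rfl
  | succ n hn ih =>
    have h1 := pr_anc (show b ≤ n by omega) (x.1 (n + 1))
    have h2 : prk n (x.1 (n + 1)) = x.1 n := th_pr x n
    rw [h2] at h1
    exact h1.trans ih

/-- a thread through a given vertex with prescribed upward behaviour -/
theorem thread_through (j : ℕ) (u : (stage j).V) (P : ∀ k, (stage k).V → Prop) (hP : P j u)
    (hstep : ∀ k, j ≤ k → ∀ v, P k v → ∃ v', prk k v' = v ∧ P (k + 1) v') :
    ∃ x : Th, x.1 j = u ∧ ∀ k, j ≤ k → P k (x.1 k) := by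
  classical
  have hne : ∀ k, Nonempty (stage k).V := by
    intro k
    induction k with
    | zero => exact ⟨()⟩
    | succ k ih => exact ⟨core k ih.some ⟨0, by positivity⟩⟩
  -- downwards
  have hdown : ∀ j (u : (stage j).V), ∃ f : ∀ k, (stage k).V, f j = u ∧
      ∀ k, k < j → prk k (f (k + 1)) = f k := by
    intro j
    induction j with
    | zero =>
      intro u
      exact ⟨Function.update (fun k => (hne k).some) 0 u, by simp, by intro k hk; omega⟩
    | succ j ih =>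
      intro u
      obtain ⟨f, hf1, hf2⟩ := ih (prk j u)
      refine ⟨Function.update f (j + 1) u, by simp, ?_⟩
      intro k hk
      rcases Nat.lt_or_ge k j with hkj | hkj
      · rw [Function.update_of_ne (by omega), Function.update_of_ne (by omega)]
        exact hf2 k hkj
      · have hkj' : k = j := by omega
        subst hkj'
        rw [Function.update_self, Function.update_of_ne (by omega), hf1]
  obtain ⟨f, hf1, hf2⟩ := hdown j u
  have hg : ∀ k (v : (stage k).V), ∃ v', prk k v' = v ∧ (j ≤ k → P k v → P (k + 1) v') := by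
    intro k v
    by_cases h : j ≤ k ∧ P k v
    · obtain ⟨v', h1, h2⟩ := hstep k h.1 v h.2
      exact ⟨v', h1, fun _ _ => h2⟩
    · exact ⟨core k v ⟨0, by positivity⟩, rfl, fun h1 h2 => absurd ⟨h1, h2⟩ h⟩
  choose g hg1 hg2 using hg
  let h : ∀ k, (stage k).V := fun k => Nat.rec (motive := fun k => (stage k).V) (f 0)
    (fun k v => if k + 1 ≤ j then f (k + 1) else g k v) k
  have h0 : h 0 = f 0 := rfl
  have hs : ∀ k, h (k + 1) = if k + 1 ≤ j then f (k + 1) else g k (h k) := fun k => rfl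
  have hle : ∀ k, k ≤ j → h k = f k := by
    intro k hk
    cases k with
    | zero => rfl
    | succ k => rw [hs, if_pos hk]
  refine ⟨⟨h, ?_⟩, ?_, ?_⟩
  · intro k
    show prk k (h (k + 1)) = h k
    rw [hs]
    by_cases hk : k + 1 ≤ j
    · rw [if_pos hk, hle k (by omega)]
      exact hf2 k (by omega)
    · rw [if_neg hk]
      exact hg1 k _
  · show h j = u
    rw [hle j le_rfl, hf1]
  · intro k hk
    show P k (h k)
    induction k, hk using Nat.le_induction with
    | base => rw [hle j le_rfl, hf1]; exact hP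
    | succ k hk ih =>
      rw [hs, if_neg (by omega)]
      exact hg2 k _ hk ih

/-- extension inside a surviving set -/
theorem extend (b i j : ℕ) (hb : b ≤ j) (S : ℕ → Finset ℕ) (hS : Bdd b S) (u : (stage j).V)
    (hu : u ∈ (stage j).T b i) (hu' : u ∈ (stage j).Surv S) :
    ∃ x : Th, x.1 j = u ∧ ∀ k, j ≤ k → x.1 k ∈ (stage k).T b i ∧ x.1 k ∈ (stage k).Surv S := by
  apply thread_through j u (fun k v => v ∈ (stage k).T b i ∧ v ∈ (stage k).Surv S) ⟨hu, hu'⟩
  rintro k hk v ⟨h1, h2⟩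
  have hex : ∃ l : Fin (2 ^ (k + 2)), l.val ∉ S (k + 1) := by
    by_contra hcon
    push Not at hcon
    have hsub : Finset.range (2 ^ (k + 2)) ⊆ S (k + 1) := by
      intro l hl
      exact hcon ⟨l, Finset.mem_range.1 hl⟩
    have h3 := (Finset.card_le_card hsub).trans (hS (k + 1) (by omega))
    rw [Finset.card_range] at h3
    have h4 : 2 ^ b < 2 ^ (k + 2) := Nat.pow_lt_pow_right (by norm_num) (by omega)
    omega
  obtain ⟨l, hl⟩ := hex
  exact ⟨core k v l, rfl, core_T (by omega) h1 l, core_Surv h2 hl⟩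

def wk (k : ℕ) (v : (stage (k + 1)).V) : Wk k := v.1

theorem nbr_proc {k b i : ℕ} (hs : sched k = (b, i)) (hb : b ≤ k) {v u : (stage (k + 1)).V}
    (hv : v ∈ (stage (k + 1)).T b i) (h : (stage (k + 1)).E v u) : prk k u ∈ (stage k).T b i := by
  obtain rfl : (sched k).1 = b := by rw [hs]
  obtain rfl : (sched k).2 = i := by rw [hs]
  rcases hv with ⟨_, hv⟩ | ⟨hv, _⟩
  · exact nbr_T hv h
  · omega

theorem proc_inl {k b i : ℕ} (hs : sched k = (b, i)) (hb : b ≤ k) {v : (stage (k + 1)).V}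
    (hv : v ∈ (stage (k + 1)).T b i) : ∃ x, wk k v = Sum.inl x := by
  obtain rfl : (sched k).1 = b := by rw [hs]
  obtain rfl : (sched k).2 = i := by rw [hs]
  rcases hv with ⟨_, hv⟩ | ⟨hv, _⟩
  · exact lift_inl hv
  · omega

/-- (N) -/
theorem not_rel {x y : Th} {b i : ℕ} (hx : memT x b i) (hy : (stage b).anc (y.1 b) b ≠ i) :
    ¬ sy.Rel x y := by
  intro h
  obtain ⟨k, hk, hs⟩ := sched_inf b i b
  have h1 : prk k (y.1 (k + 1)) ∈ (stage k).T b i := nbr_proc hs hk (hx (k + 1) (by omega)) (h (k + 1))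
  have h2 : prk k (y.1 (k + 1)) = y.1 k := th_pr y k
  rw [h2] at h1
  have h3 := (inv k).tanc _ _ _ h1
  have h4 := th_anc (x := y) (le_refl b) hk
  exact hy (h4.symm.trans h3)

theorem ne_idx {x y : Th} (h : x ≠ y) : ∃ m, ∀ k, m ≤ k → x.1 k ≠ y.1 k := by
  have : ∃ m, x.1 m ≠ y.1 m := by
    by_contra hcon
    push Not at hcon
    exact h (Subtype.ext (funext hcon))
  obtain ⟨m, hm⟩ := this
  exact ⟨m, fun k hk he => hm (th_eq he hk)⟩

theorem anc_ne {x y : Th} {k : ℕ} (h : x.1 k ≠ y.1 k) :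
    (stage k).anc (x.1 k) k ≠ (stage k).anc (y.1 k) k := fun he => h ((inv k).ancinj _ _ he)

/-- two threads in a set of level at least `m` agree at stage `m` -/
theorem eq_of_T {x y : Th} {k m b i : ℕ} (hm : m ≤ b) (hx : x.1 k ∈ (stage k).T b i)
    (hy : y.1 k ∈ (stage k).T b i) : x.1 m = y.1 m := by
  have hbk : b ≤ k := (inv k).tle _ _ _ hx
  have h1 := (inv k).tanc _ _ _ hx
  have h2 := (inv k).tanc _ _ _ hy
  have h3 := (inv k).ancdet (x.1 k) (y.1 k) m b hm hbk (h1.trans h2.symm)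
  have h4 := th_anc (x := x) (le_refl m) (hm.trans hbk)
  have h5 := th_anc (x := y) (le_refl m) (hm.trans hbk)
  rw [h4, h5] at h3
  exact (inv m).ancinj _ _ h3

/-- (P) -/
theorem partner {x y y' : Th} (hy : x ≠ y) (hy' : x ≠ y') (h : sy.Rel x y) (h' : sy.Rel x y') :
    y = y' := by
  by_contra hne
  obtain ⟨m1, hm1⟩ := ne_idx hy
  obtain ⟨m2, hm2⟩ := ne_idx hy'
  obtain ⟨m3, hm3⟩ := ne_idx hne
  obtain ⟨m, hm⟩ : ∃ m, m1 ≤ m ∧ m2 ≤ m ∧ m3 ≤ m := ⟨max m1 (max m2 m3), by omega, by omega, by omega⟩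
  -- claim 1
  have claim1 : ∀ k, m ≤ k → ∀ q, wk k (x.1 (k + 1)) = Sum.inr q → (sched k).1 < m := by
    intro k hk q hq
    by_contra hb
    push Not at hb
    have hx : x.1 k ∈ (stage k).T (sched k).1 (sched k).2 := by
      have h1 : prk k (x.1 (k + 1)) = x.1 k := th_pr x k
      rw [← h1]
      show prW _ _ _ (wk k (x.1 (k + 1))) ∈ _
      rw [hq]
      exact prW_inr_T q
    have aux : ∀ z : Th, x.1 m ≠ z.1 m → sy.Rel x z → z.1 k = q.1.1 := by
      intro z hz hr
      have h2 : prk k (z.1 (k + 1)) = z.1 k := th_pr z k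
      have h1 : prk k (z.1 (k + 1)) ∈ (stage k).T (sched k).1 (sched k).2 ∨
          wk k (z.1 (k + 1)) = Sum.inl q.1.1 := by
        apply nbr_path (q := q)
        have := hr (k + 1)
        rw [← hq]
        exact this
      rcases h1 with h1 | h1
      · rw [h2] at h1
        exact absurd (eq_of_T hb hx h1) hz
      · rw [← h2]
        show prW _ _ _ (wk k (z.1 (k + 1))) = _
        rw [h1]
        rfl
    have e1 := aux y (hm1 m hm.1) h
    have e2 := aux y' (hm2 m hm.2.1) h'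
    exact hm3 k (by omega) (e1.trans e2.symm)
  -- claim 2
  have claim2 : ∀ m', m ≤ m' → ∃ k, m' ≤ k ∧ (sched k).1 < m ∧
      x.1 k ∈ (stage k).T (sched k).1 (sched k).2 ∧
      x.1 (k + 1) ∉ (stage (k + 1)).T (sched k).1 (sched k).2 := by
    intro m' hm'
    have h1 : ¬ memT x m' ((stage m').anc (x.1 m') m') := by
      intro hmem
      exact not_rel hmem (anc_ne (hm1 m' (by omega)).symm) h
    unfold memT at h1
    push Not at h1
    -- least failure
    classical
    have h2 : ∃ k, m' ≤ k ∧ x.1 k ∉ (stage k).T m' ((stage m').anc (x.1 m') m') := h1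
    obtain ⟨hk1, hk2⟩ := Nat.find_spec h2
    have hk3 := fun j (hj : j < Nat.find h2) => Nat.find_min h2 hj
    obtain ⟨k, hk⟩ : ∃ k, Nat.find h2 = k + 1 := by
      cases hf : Nat.find h2 with
      | zero =>
        exfalso
        rw [hf] at hk1 hk2
        obtain rfl : m' = 0 := by omega
        exact hk2 ((inv 0).tself _)
      | succ k => exact ⟨k, rfl⟩
    rw [hk] at hk1 hk2 hk3
    have hmk : m' ≤ k := by
      by_contra hcon
      obtain rfl : m' = k + 1 := by omega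
      exact hk2 ((inv (k + 1)).tself _)
    have hxk : x.1 k ∈ (stage k).T m' ((stage m').anc (x.1 m') m') := by
      have := hk3 k (by omega)
      push Not at this
      exact this hmk
    have hpath : ∃ q, wk k (x.1 (k + 1)) = Sum.inr q := by
      rcases hw : wk k (x.1 (k + 1)) with v | q
      · exfalso
        apply hk2
        refine Or.inl ⟨hmk, ?_⟩
        show wk k (x.1 (k + 1)) ∈ _
        rw [hw]
        have h1 : prk k (x.1 (k + 1)) = x.1 k := th_pr x k
        have h3 : prk k (x.1 (k + 1)) = v := by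
          show prW _ _ _ (wk k (x.1 (k + 1))) = _
          rw [hw]; rfl
        show v ∈ (stage k).T m' ((stage m').anc (x.1 m') m')
        rw [← h3, h1]
        exact hxk
      · exact ⟨q, rfl⟩
    obtain ⟨q, hq⟩ := hpath
    refine ⟨k, hmk, claim1 k (by omega) q hq, ?_, ?_⟩
    · have h1 : prk k (x.1 (k + 1)) = x.1 k := th_pr x k
      rw [← h1]
      show prW _ _ _ (wk k (x.1 (k + 1))) ∈ _
      rw [hq]
      exact prW_inr_T q
    · rintro (⟨_, h5⟩ | ⟨h5, _⟩)
      · have h6 : wk k (x.1 (k + 1)) ∈ liftT _ _ _ ((stage k).T (sched k).1 (sched k).2) := h5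
        rw [hq] at h6
        exact (validq q).2.2.1 h6.1
      · have := claim1 k (by omega) q hq
        omega
  -- pigeonhole
  set Q : Set ℕ := {k | m ≤ k ∧ (sched k).1 < m ∧ x.1 k ∈ (stage k).T (sched k).1 (sched k).2 ∧
      x.1 (k + 1) ∉ (stage (k + 1)).T (sched k).1 (sched k).2} with hQ
  have hinf : Q.Infinite := by
    rw [Set.infinite_iff_exists_gt]
    intro a
    obtain ⟨k, hk1, hk2, hk3, hk4⟩ := claim2 (max m (a + 1)) (by omega)
    exact ⟨k, ⟨by omega, hk2, hk3, hk4⟩, by omega⟩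
  obtain ⟨k1, hk1, k2, hk2, hne12, heq⟩ := hinf.exists_ne_map_eq_of_mapsTo
    (f := fun k => (sched k).1) (t := Set.Iio m) (fun k hk => hk.2.1) (Set.finite_Iio m)
  have main : ∀ k1 ∈ Q, ∀ k2 ∈ Q, k1 < k2 → (sched k1).1 = (sched k2).1 → False := by
    rintro k1 ⟨h1, h2, h3, h4⟩ k2 ⟨h5, h6, h7, h8⟩ hlt he
    have h9 := (inv k1).tanc _ _ _ h3
    have h10 := (inv k2).tanc _ _ _ h7
    have h11 := th_anc (x := x) (b := (sched k1).1) (k := k1) (n := k2) (by omega) hlt.le
    have h12 : (sched k1).2 = (sched k2).2 := by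
      rw [← h9, ← h10, ← h11, he]
    apply h4
    rw [he, h12]
    exact th_T (by omega) (by omega) h7
  rcases lt_or_gt_of_ne hne12 with hlt | hlt
  · exact main k1 hk1 k2 hk2 hlt heq
  · exact main k2 hk2 k1 hk1 hlt heq.symm

theorem rel_trans {x y z : Th} (h : sy.Rel x y) (h' : sy.Rel y z) : sy.Rel x z := by
  by_cases h1 : y = x
  · rw [← h1]; exact h'
  by_cases h2 : y = z
  · rw [← h2]; exact h
  have h3 : sy.Rel y x := fun k => (inv k).symm _ _ (h k)
  rw [partner h1 h2 h3 h']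
  exact fun k => (inv k).refl _

/-- the projection of a set of threads to stage `k` -/
def img (k : ℕ) (K : Set Th) : Set (stage k).V := (fun x : Th => (x.1 k : (stage k).V)) '' K

/-- at a processing stage a set which enters `T` and leaves it contains a whole detour -/
theorem whole (K : Set Th) (k b i : ℕ) (hs : sched k = (b, i)) (hb : b ≤ k)
    (hconn : GConn (stage (k + 1)).E (img (k + 1) K)) {x y : Th} (hxK : x ∈ K) (hyK : y ∈ K)
    (hx : x.1 (k + 1) ∈ (stage (k + 1)).T b i) (hy : y.1 k ∉ (stage k).T b i) :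
    ∃ R, Bdd b R ∧ (∃ u, u ∈ (stage k).T b i ∧ u ∈ (stage k).Surv R) ∧
      (stage k).T b i ∩ (stage k).Surv R ⊆ img k K := by
  by_contra hcon
  push Not at hcon
  have hpr : ∀ z : Th, prk k (z.1 (k + 1)) = z.1 k := fun z => th_pr z k
  obtain rfl : (sched k).1 = b := by rw [hs]
  obtain rfl : (sched k).2 = i := by rw [hs]
  have hmiss : ∀ p, Valid (stage k) (sched k).1 (sched k).2 p →
      ∃ t : Fin (walk (stage k) (sched k).1 (sched k).2 p).length,
        ∀ v ∈ img (k + 1) K, wk k v ≠ Sum.inr ⟨p, t⟩ := by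
    intro p hp
    by_contra h
    push Not at h
    obtain ⟨R, h1, h2, h3⟩ := hp.2.2.2.1
    refine hcon R h1 ⟨p.2.1, hp.2.1, h2⟩ ?_
    rw [← h3]
    intro a ha
    have ha' := ((walk_spec _ _ _ hp).mem a).2 ha
    obtain ⟨t, ht, hta⟩ := List.mem_iff_getElem.1 ha'
    obtain ⟨v, ⟨z, hz, rfl⟩, hv⟩ := h ⟨t, ht⟩
    refine ⟨z, hz, ?_⟩
    show z.1 k = a
    rw [← hpr z]
    show prW _ _ _ (wk k (z.1 (k + 1))) = a
    rw [hv]
    exact hta
  have key := hconn {v | v ∈ (stage (k + 1)).T (sched k).1 (sched k).2 ∨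
      ∃ p t, wk k v = Sum.inr ⟨p, t⟩ ∧ ∃ t0 : Fin (walk (stage k) (sched k).1 (sched k).2 p).length,
        (∀ v' ∈ img (k + 1) K, wk k v' ≠ Sum.inr ⟨p, t0⟩) ∧ t0.val < t.val}
    ⟨x.1 (k + 1), ⟨x, hxK, rfl⟩, Or.inl hx⟩ ?_
  · rcases key ⟨y, hyK, rfl⟩ with h | ⟨p, t, h, _⟩
    · apply hy
      rw [← hpr y]
      exact pr_T hb h
    · apply hy
      rw [← hpr y]
      show prW _ _ _ (wk k (y.1 (k + 1))) ∈ _
      rw [h]
      exact prW_inr_T _
  · intro v hv hvA v' hv' hE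
    have hE' : wk k v = wk k v' ∨ EW (stage k) (sched k).1 (sched k).2 (wk k v) (wk k v') := hE
    have hT : ∀ (u : (stage (k + 1)).V) (a : (stage k).V), wk k u = Sum.inl a →
        a ∈ (stage k).T (sched k).1 (sched k).2 → u ∈ (stage (k + 1)).T (sched k).1 (sched k).2 := by
      intro u a hu ha
      refine Or.inl ⟨hb, ?_⟩
      show wk k u ∈ _
      rw [hu]
      exact ha
    rcases hvA with h | ⟨p, t, h, t0, h1, h2⟩
    · obtain ⟨a, ha⟩ := proc_inl hs hb h
      have haT : a ∈ (stage k).T (sched k).1 (sched k).2 := by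
        rcases h with ⟨_, h⟩ | ⟨h, _⟩
        · have h' : wk k v ∈ liftT _ _ _ ((stage k).T (sched k).1 (sched k).2) := h
          rw [ha] at h'
          exact h'
        · omega
      rcases hE' with hE' | hE'
      · left
        exact hT v' a (hE'.symm.trans ha) haT
      · rw [ha] at hE'
        rcases hw : wk k v' with a' | q
        · rw [hw] at hE'
          left
          exact hT v' a' hw (hE'.2.1 haT)
        · rw [hw] at hE'
          rcases hE' with ⟨h3, _⟩ | ⟨_, h4⟩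
          · rw [h3] at haT
            exact absurd haT (validq q).2.2.1
          · right
            obtain ⟨t0, ht0⟩ := hmiss q.1 (validq q)
            refine ⟨q.1, q.2, hw, t0, ht0, ?_⟩
            have h5 : t0 ≠ q.2 := by
              intro h6
              apply ht0 v' hv'
              rw [hw, h6]
            have h7 : t0.val ≠ q.2.val := fun h8 => h5 (Fin.ext h8)
            have h9 := t0.isLt
            omega
    · rcases hE' with hE' | hE'
      · right
        exact ⟨p, t, hE'.symm.trans h, t0, h1, h2⟩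
      · rw [h] at hE'
        rcases hw : wk k v' with a' | q
        · rw [hw] at hE'
          rcases hE' with ⟨_, h4⟩ | ⟨h3, _⟩
          · simp only at h4
            omega
          · left
            apply hT v' a' hw
            rw [h3]
            exact (valid_of_lt _ _ _ t.isLt).2.1
        · rw [hw] at hE'
          obtain ⟨h3, h4⟩ := hE'
          obtain ⟨p', t'⟩ := q
          simp only at h3 h4
          subst h3
          right
          refine ⟨p, t', hw, t0, h1, ?_⟩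
          have h7 : t0.val ≠ t'.val := by
            intro h8
            apply h1 v' hv'
            rw [hw]
            congr
            exact (Fin.ext h8).symm
          omega

open Filter in
/-- (B) -/
theorem lemmaB (K : Set Th) (hcl : sy.Closed K) (hconn : ∀ k, GConn (stage k).E (img k K))
    (b i : ℕ) {x y : Th} (hxK : x ∈ K) (hx : memT x b i) (hyK : y ∈ K) (hy : ¬ memT y b i) :
    ∃ S, Bdd b S ∧ (∃ u, u ∈ (stage b).T b i ∧ u ∈ (stage b).Surv S) ∧
      ∀ z : Th, memT z b i → (∀ k, z.1 k ∈ (stage k).Surv S) → z ∈ K := by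
  classical
  unfold memT at hy
  push Not at hy
  obtain ⟨k1, hk1, hyk1⟩ := hy
  have hfar : ∀ n, ∃ k, n ≤ k ∧ b ≤ k ∧ ∃ R, Bdd b R ∧
      (∃ u, u ∈ (stage k).T b i ∧ u ∈ (stage k).Surv R) ∧
      (stage k).T b i ∩ (stage k).Surv R ⊆ img k K := by
    intro n
    obtain ⟨k, hk, hs⟩ := sched_inf b i (max n (max k1 b))
    refine ⟨k, by omega, by omega, ?_⟩
    apply whole K k b i hs (by omega) (hconn (k + 1)) hxK hyK (hx _ (by omega))
    intro h
    exact hyk1 (th_T hk1 (by omega) h)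
  choose κ hκ1 hκ2 R hR1 hR2 hR3 using hfar
  set U : Ultrafilter ℕ := hyperfilter ℕ with hU
  let S : ℕ → Finset ℕ := fun j => (Finset.range (2 ^ (j + 1))).filter (fun l => ∀ᶠ n in (U : Filter ℕ), l ∈ R n j)
  have hag : ∀ j, ∀ᶠ n in (U : Filter ℕ), ∀ l < 2 ^ (j + 1), (l ∈ S j ↔ l ∈ R n j) := by
    intro j
    have : ∀ᶠ n in (U : Filter ℕ), ∀ l ∈ Finset.range (2 ^ (j + 1)), (l ∈ S j ↔ l ∈ R n j) := by
      rw [Filter.eventually_all_finset]
      intro l hl
      by_cases h : ∀ᶠ n in (U : Filter ℕ), l ∈ R n j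
      · filter_upwards [h] with n hn
        exact ⟨fun _ => hn, fun _ => Finset.mem_filter.2 ⟨hl, h⟩⟩
      · have h' := Ultrafilter.eventually_not.2 h
        filter_upwards [h'] with n hn
        exact ⟨fun h1 => absurd (Finset.mem_filter.1 h1).2 h, fun h1 => absurd h1 hn⟩
    filter_upwards [this] with n hn l hl
    exact hn l (Finset.mem_range.2 hl)
  have hag' : ∀ m, ∀ᶠ n in (U : Filter ℕ), ∀ j ≤ m, ∀ l < 2 ^ (j + 1), (l ∈ S j ↔ l ∈ R n j) := by
    intro m
    have : ∀ᶠ n in (U : Filter ℕ), ∀ j ∈ Finset.range (m + 1), ∀ l < 2 ^ (j + 1), (l ∈ S j ↔ l ∈ R n j) := by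
      rw [Filter.eventually_all_finset]
      intro j _
      exact hag j
    filter_upwards [this] with n hn j hj
    exact hn j (Finset.mem_range.2 (by omega))
  have hge : ∀ m, ∀ᶠ n in (U : Filter ℕ), m ≤ n := by
    intro m
    exact Nat.hyperfilter_le_atTop (eventually_ge_atTop m)
  have hbd : Bdd b S := by
    intro j hj
    obtain ⟨n, hn⟩ := (hag j).exists
    refine le_trans (Finset.card_le_card ?_) (hR1 n j hj)
    intro l hl
    have hl' : l < 2 ^ (j + 1) := Finset.mem_range.1 (Finset.mem_filter.1 hl).1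
    exact (hn l hl').1 hl
  refine ⟨S, hbd, ?_, ?_⟩
  · obtain ⟨n, hn⟩ := (hag' b).exists
    obtain ⟨u, hu1, hu2⟩ := hR2 n
    obtain ⟨z, hz1, hz2⟩ := extend b i (κ n) (hκ2 n) (R n) (hR1 n) u hu1 hu2
    refine ⟨z.1 b, ?_, ?_⟩
    · exact th_T le_rfl (hκ2 n) (hz2 (κ n) le_rfl).1
    · rw [(inv b).scongr S (R n) hn]
      exact th_Surv (hκ2 n) (hz2 (κ n) le_rfl).2
  · intro z hz hzS
    apply hcl
    intro j
    set m := max j b with hm
    obtain ⟨n, hn1, hn2⟩ := ((hag' m).and (hge m)).exists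
    have h1 : z.1 m ∈ (stage m).Surv (R n) := by
      rw [← (inv m).scongr S (R n) hn1]
      exact hzS m
    obtain ⟨w, hw1, hw2⟩ := extend b i m (le_max_right _ _) (R n) (hR1 n) (z.1 m)
      (hz m (le_max_right _ _)) h1
    have hmk : m ≤ κ n := hn2.trans (hκ1 n)
    obtain ⟨y', hy'K, hy'⟩ := hR3 n (hw2 (κ n) hmk)
    refine ⟨y', hy'K, ?_⟩
    have h2 : y'.1 m = z.1 m := (th_eq (x := y') (y := w) hy' hmk).trans hw1
    exact th_eq h2 (le_max_left _ _)

theorem img_eq (k b i : ℕ) (hb : b ≤ k) (S : ℕ → Finset ℕ) (hS : Bdd b S) :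
    img k {x : Th | memT x b i ∧ ∀ k, x.1 k ∈ (stage k).Surv S} = (stage k).T b i ∩ (stage k).Surv S := by
  apply Set.Subset.antisymm
  · rintro _ ⟨x, ⟨h1, h2⟩, rfl⟩
    exact ⟨h1 k hb, h2 k⟩
  · rintro v ⟨h1, h2⟩
    obtain ⟨x, hx1, hx2⟩ := extend b i k hb S hS v h1 h2
    refine ⟨x, ⟨?_, ?_⟩, hx1⟩
    · intro j hj
      rcases le_total k j with hkj | hkj
      · exact (hx2 j hkj).1
      · exact th_T hj hkj (hx2 k le_rfl).1
    · intro j
      rcases le_total k j with hkj | hkj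
      · exact (hx2 j hkj).2
      · exact th_Surv hkj (hx2 k le_rfl).2

/-- (W) -/
theorem fat (b i : ℕ) (S : ℕ → Finset ℕ) (hS : Bdd b S) (u : (stage b).V)
    (hu : u ∈ (stage b).T b i) (hu' : u ∈ (stage b).Surv S) :
    sy.Closed {x : Th | memT x b i ∧ ∀ k, x.1 k ∈ (stage k).Surv S} ∧
    (∀ k, GConn (stage k).E (img k {x : Th | memT x b i ∧ ∀ k, x.1 k ∈ (stage k).Surv S})) ∧
    ∃ x ∈ {x : Th | memT x b i ∧ ∀ k, x.1 k ∈ (stage k).Surv S},
      ∃ y ∈ {x : Th | memT x b i ∧ ∀ k, x.1 k ∈ (stage k).Surv S}, ¬ sy.Rel x y := by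
  refine ⟨?_, ?_, ?_⟩
  · intro x hx
    refine ⟨?_, ?_⟩
    · intro k hk
      obtain ⟨y, hy, e⟩ := hx k
      rw [← e]
      exact hy.1 k hk
    · intro k
      obtain ⟨y, hy, e⟩ := hx k
      rw [← e]
      exact hy.2 k
  · intro k
    rcases le_total b k with hk | hk
    · rw [img_eq k b i hk S hS]
      exact (inv k).conn b i S hS
    · -- a subsingleton
      rintro A ⟨a, ⟨x, hx, rfl⟩, hxA⟩ _ _ ⟨y, hy, rfl⟩
      have h1 : x.1 k = y.1 k := th_eq (eq_of_T (m := b) (le_refl b) (hx.1 b le_rfl) (hy.1 b le_rfl)) hk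
      have h2 : (fun x : Th => (x.1 k : (stage k).V)) y = (fun x : Th => (x.1 k : (stage k).V)) x := h1.symm
      rw [h2]
      exact hxA
  · have hlab : ∃ l l' : Fin (2 ^ (b + 2)), l ≠ l' ∧ l.val ∉ S (b + 1) ∧ l'.val ∉ S (b + 1) := by
      have hc : 1 < ((Finset.range (2 ^ (b + 2))) \ S (b + 1)).card := by
        have h1 := Finset.le_card_sdiff (S (b + 1)) (Finset.range (2 ^ (b + 2)))
        have h2 := hS (b + 1) (by omega)
        rw [Finset.card_range] at h1
        have h3 : 2 ^ (b + 2) = 4 * 2 ^ b := by ring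
        have h4 : 1 ≤ 2 ^ b := Nat.one_le_two_pow
        omega
      obtain ⟨l, hl, l', hl', hne⟩ := Finset.one_lt_card.1 hc
      rw [Finset.mem_sdiff, Finset.mem_range] at hl hl'
      exact ⟨⟨l, hl.1⟩, ⟨l', hl'.1⟩, fun h => hne (Fin.ext_iff.1 h), hl.2, hl'.2⟩
    obtain ⟨l, l', hne, hl, hl'⟩ := hlab
    have hex : ∀ l : Fin (2 ^ (b + 2)), l.val ∉ S (b + 1) →
        ∃ x : Th, x.1 (b + 1) = core b u l ∧ memT x b i ∧ (∀ k, x.1 k ∈ (stage k).Surv S) ∧
          memT x (b + 1) ((stage (b + 1)).anc (core b u l) (b + 1)) := by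
      intro l hl
      have hS' : Bdd (b + 1) S := hS.mono (by omega)
      obtain ⟨x, hx1, hx2⟩ := extend (b + 1) ((stage (b + 1)).anc (core b u l) (b + 1)) (b + 1) le_rfl S hS'
        (core b u l) ((inv (b + 1)).tself _) (core_Surv hu' hl)
      refine ⟨x, hx1, ?_, ?_, fun k hk => (hx2 k hk).1⟩
      · intro k hk
        rcases le_total k (b + 1) with hkb | hkb
        · apply th_T hk hkb
          rw [hx1]
          exact core_T le_rfl hu l
        · have hsub : (stage k).T (b + 1) ((stage (b + 1)).anc (core b u l) (b + 1)) ⊆ (stage k).T b i := by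
            clear hk
            induction k, hkb using Nat.le_induction with
            | base =>
              intro v hv
              have h1 := (inv (b + 1)).tanc _ _ _ hv
              have h2 := (inv (b + 1)).ancinj _ _ h1
              rw [h2]
              exact core_T le_rfl hu l
            | succ k hk ih =>
              refine (inv (k + 1)).lam b (b + 1) i _ (x.1 (k + 1)) (by omega) ?_ (hx2 _ (by omega)).1
              have h3 := (hx2 (k + 1) (by omega)).1
              rcases h3 with ⟨_, h3⟩ | ⟨h3, _⟩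
              · refine Or.inl ⟨by omega, ?_⟩
                have h4 : wk k (x.1 (k + 1)) ∈ liftT (stage k) (sched k).1 (sched k).2
                  ((stage k).T (b + 1) ((stage (b + 1)).anc (core b u l) (b + 1))) := h3
                show wk k (x.1 (k + 1)) ∈ liftT (stage k) (sched k).1 (sched k).2 ((stage k).T b i)
                rcases hw : wk k (x.1 (k + 1)) with a | q
                · rw [hw] at h4
                  exact ih h4
                · rw [hw] at h4
                  exact ⟨ih h4.1, ih h4.2⟩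
              · omega
          exact hsub (hx2 k hkb).1
      · intro k
        rcases le_total k (b + 1) with hkb | hkb
        · exact th_Surv hkb (hx2 (b + 1) le_rfl).2
        · exact (hx2 k hkb).2
    obtain ⟨x, hx1, hx2, hx3, hx4⟩ := hex l hl
    obtain ⟨y, hy1, hy2, hy3, _⟩ := hex l' hl'
    refine ⟨x, ⟨hx2, hx3⟩, y, ⟨hy2, hy3⟩, ?_⟩
    apply not_rel hx4
    rw [hy1]
    intro h
    have h5 := (inv (b + 1)).ancinj _ _ h
    have h6 : (Prod.mk (Sum.inl u : Wk b) l') = (Prod.mk (Sum.inl u : Wk b) l) := h5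
    exact hne (Prod.ext_iff.1 h6).2.symm

theorem T_mono {k b b' i i' : ℕ} (hb : b ≤ k) (hb' : b' ≤ k)
    (h : (stage k).T b' i' ⊆ (stage k).T b i) :
    (stage (k + 1)).T b' i' ⊆ (stage (k + 1)).T b i := by
  intro v hv
  rcases hv with ⟨_, hv⟩ | ⟨hv, _⟩
  · refine Or.inl ⟨hb, ?_⟩
    have h4 : wk k v ∈ liftT (stage k) (sched k).1 (sched k).2 ((stage k).T b' i') := hv
    show wk k v ∈ liftT (stage k) (sched k).1 (sched k).2 ((stage k).T b i)
    rcases hw : wk k v with a | q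
    · rw [hw] at h4
      exact h h4
    · rw [hw] at h4
      exact ⟨h h4.1, h h4.2⟩
  · omega

theorem memT_of_memT {x : Th} {b i i' : ℕ} (hx : memT x (b + 1) i')
    (hx' : x.1 (b + 1) ∈ (stage (b + 1)).T b i) : memT x b i := by
  have hsub : ∀ k, b + 1 ≤ k → (stage k).T (b + 1) i' ⊆ (stage k).T b i := by
    intro k hk
    induction k, hk using Nat.le_induction with
    | base => exact (inv (b + 1)).lam b (b + 1) i i' _ (by omega) hx' (hx (b + 1) le_rfl)
    | succ k hk ih => exact T_mono (by omega) hk ih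
  intro k hk
  rcases le_total k (b + 1) with hkb | hkb
  · exact th_T hk hkb hx'
  · exact hsub k hkb (hx k hkb)

theorem surv_empty (k : ℕ) (v : (stage k).V) : v ∈ (stage k).Surv (fun _ => ∅) := by
  induction k with
  | zero => trivial
  | succ k ih =>
    refine ⟨?_, by simp⟩
    show wk k v ∈ survW (stage k) (sched k).1 (sched k).2 (fun _ => ∅)
    rcases wk k v with a | q
    · exact ih a
    · exact ⟨ih _, fun a _ => ih a⟩

theorem img_univ (k : ℕ) : GConn (stage k).E (img k Set.univ) := by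
  have h1 : img k Set.univ = (stage k).T 0 0 ∩ (stage k).Surv (fun _ => ∅) := by
    apply Set.Subset.antisymm
    · rintro _ ⟨x, _, rfl⟩
      exact ⟨(inv k).root _, surv_empty k _⟩
    · rintro v _
      obtain ⟨x, hx, _⟩ := thread_through k v (fun _ _ => True) trivial
        (fun j _ v _ => ⟨core j v ⟨0, by positivity⟩, rfl, trivial⟩)
      exact ⟨x, trivial, hx⟩
  rw [h1]
  exact (inv k).conn 0 0 _ (fun j _ => by simp)

theorem Th_nonempty : Nonempty Th := by
  obtain ⟨x, _⟩ := thread_through 0 (() : (stage 0).V) (fun _ _ => True) trivial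
    (fun j _ v _ => ⟨core j v ⟨0, by positivity⟩, rfl, trivial⟩)
  exact ⟨x⟩

theorem exists_label (n b : ℕ) (S : Finset ℕ) (hS : S.card ≤ 2 ^ (b + 1)) (hb : b ≤ n) :
    ∃ l : Fin (2 ^ (n + 2)), l.val ∉ S := by
  by_contra hcon
  push Not at hcon
  have hsub : Finset.range (2 ^ (n + 2)) ⊆ S := by
    intro l hl
    exact hcon ⟨l, Finset.mem_range.1 hl⟩
  have h3 := (Finset.card_le_card hsub).trans hS
  rw [Finset.card_range] at h3
  have h4 : 2 ^ (b + 1) < 2 ^ (n + 2) := Nat.pow_lt_pow_right (by norm_num) (by omega)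
  omega

theorem merge {b i : ℕ} {S S' : ℕ → Finset ℕ} (hS : Bdd b S) (hS' : Bdd b S')
    {u u' : (stage b).V} (hu1 : u ∈ (stage b).T b i) (hu2 : u ∈ (stage b).Surv S)
    (hu'1 : u' ∈ (stage b).T b i) (hu'2 : u' ∈ (stage b).Surv S') :
    ∃ i' R, ∃ v : (stage (b + 1)).V, Bdd (b + 1) R ∧ v ∈ (stage (b + 1)).T (b + 1) i' ∧
      v ∈ (stage (b + 1)).Surv R ∧ ∀ x : Th, memT x (b + 1) i' → (∀ k, x.1 k ∈ (stage k).Surv R) →
        memT x b i ∧ (∀ k, x.1 k ∈ (stage k).Surv S) ∧ (∀ k, x.1 k ∈ (stage k).Surv S') := by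
  have h3 := (inv _).tanc _ _ _ hu1
  have h4 := (inv _).tanc _ _ _ hu'1
  have h5 := (inv _).ancinj _ _ (h4.trans h3.symm)
  rw [h5] at hu'2
  have hcard : ∀ j, b < j → (S j ∪ S' j).card ≤ 2 ^ (b + 1) := by
    intro j hj
    have h1 := hS j hj
    have h2 := hS' j hj
    have h3 := Finset.card_union_le (S j) (S' j)
    have h4 : 2 ^ (b + 1) = 2 ^ b + 2 ^ b := by ring
    omega
  obtain ⟨l, hl⟩ := exists_label b b (S (b + 1) ∪ S' (b + 1)) (hcard (b + 1) (by omega)) le_rfl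
  refine ⟨(stage (b + 1)).anc (core b u l) (b + 1), fun j => S j ∪ S' j, core b u l,
    fun j hj => hcard j (by omega), (inv (b + 1)).tself _, core_Surv ((inv b).sunion _ _ _ hu2 hu'2) hl, ?_⟩
  intro x hx1 hx2
  have hxb : x.1 (b + 1) = core b u l := by
    have h4 := (inv (b + 1)).tanc _ _ _ (hx1 (b + 1) le_rfl)
    exact (inv (b + 1)).ancinj _ _ h4
  refine ⟨?_, fun k => ((inv k).sunion' _ _ _ (hx2 k)).1, fun k => ((inv k).sunion' _ _ _ (hx2 k)).2⟩
  apply memT_of_memT hx1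
  rw [hxb]
  exact core_T le_rfl hu1 l

theorem final
    (lemmaC : ∀ (K : Set Th), sy.Closed K → (∀ k, GConn (stage k).E (img k K)) →
      (∀ b i, (∃ x ∈ K, memT x b i) → ∀ y ∈ K, memT y b i) → ∀ x ∈ K, ∀ y ∈ K, sy.Rel x y) :
    ¬ (∀ (X : Type) [MetricSpace X] [CompactSpace X] [ConnectedSpace X],
      (∀ G : Set (Set X), ¬ G.Countable →
          (∀ K ∈ G, IsCompact K ∧ IsConnected K ∧ K.Nontrivial) →
          ∃ A ∈ G, ∃ B ∈ G, A ≠ B ∧
            ∃ C : Set X, C ⊆ A ∩ B ∧ IsCompact C ∧ IsConnected C ∧ C.Nontrivial) →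
      ∃ S : Set X, S.Countable ∧
        ∀ K : Set X, IsCompact K → IsConnected K → K.Nontrivial → (S ∩ K).Nonempty) := by
  classical
  intro H
  obtain ⟨M, i1, i2, i3, q, hq1, hq2, hq3, hq4, hq5⟩ := exists_quotient sy Th_nonempty
    (fun x y z h h' => rel_trans h h') img_univ
  -- the image of a fat set
  have hfat : ∀ (b i : ℕ) (S : ℕ → Finset ℕ) (_ : Bdd b S) (u : (stage b).V)
      (_ : u ∈ (stage b).T b i) (_ : u ∈ (stage b).Surv S),
      IsCompact (q '' {x : Th | memT x b i ∧ ∀ k, x.1 k ∈ (stage k).Surv S}) ∧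
      IsConnected (q '' {x : Th | memT x b i ∧ ∀ k, x.1 k ∈ (stage k).Surv S}) ∧
      (q '' {x : Th | memT x b i ∧ ∀ k, x.1 k ∈ (stage k).Surv S}).Nontrivial := by
    intro b i S hS u hu hu'
    obtain ⟨h1, h2, x, hx, y, hy, hxy⟩ := fat b i S hS u hu hu'
    obtain ⟨h3, h4⟩ := hq5 _ h1 ⟨x, hx⟩ h2
    exact ⟨h3, h4, q x, ⟨x, hx, rfl⟩, q y, ⟨y, hy, rfl⟩, fun h => hxy ((hq2 x y).1 h)⟩
  refine absurd (H M ?_) ?_
  · -- property (U)
    intro G hG hGK
    have hdata : ∀ K ∈ G, ∃ n : ℕ × ℕ, ∃ S, Bdd n.1 S ∧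
        (∃ u, u ∈ (stage n.1).T n.1 n.2 ∧ u ∈ (stage n.1).Surv S) ∧
        ∀ z : Th, memT z n.1 n.2 → (∀ k, z.1 k ∈ (stage k).Surv S) → z ∈ q ⁻¹' K := by
      intro K hK
      obtain ⟨hK1, hK2, a, ha, b, hb, hab⟩ := hGK K hK
      have hc : ∀ k, GConn (stage k).E (img k (q ⁻¹' K)) := fun k => hq3 K hK2.isPreconnected k
      have h1 : ∃ b i, (∃ x ∈ q ⁻¹' K, memT x b i) ∧ ∃ y ∈ q ⁻¹' K, ¬ memT y b i := by
        by_contra hcon
        push Not at hcon
        obtain ⟨x, rfl⟩ := hq1 a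
        obtain ⟨y, rfl⟩ := hq1 b
        apply hab
        rw [hq2]
        exact lemmaC (q ⁻¹' K) (hq4 K hK1) hc (fun b i h y hy => hcon b i h y hy) x ha y hb
      obtain ⟨b, i, ⟨x, hx, hx'⟩, y, hy, hy'⟩ := h1
      obtain ⟨S, h1, h2, h3⟩ := lemmaB (q ⁻¹' K) (hq4 K hK1) hc b i hx hx' hy hy'
      exact ⟨(b, i), S, h1, h2, h3⟩
    choose! f S hf1 hf2 hf3 using hdata
    have hni : ¬ Set.InjOn f G := by
      intro h
      exact hG (Set.MapsTo.countable_of_injOn (Set.mapsTo_univ f G) h Set.countable_univ)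
    unfold Set.InjOn at hni
    push Not at hni
    obtain ⟨A, hA, B, hB, hAB, hne⟩ := hni
    refine ⟨A, hA, B, hB, hne, ?_⟩
    have hB1 := hf1 B hB
    have hB2 := hf2 B hB
    have hB3 := hf3 B hB
    rw [← hAB] at hB1 hB2 hB3
    obtain ⟨u, hu1, hu2⟩ := hf2 A hA
    obtain ⟨u', hu'1, hu'2⟩ := hB2
    obtain ⟨i', R, v, hR, hv1, hv2, hR2⟩ := merge (hf1 A hA) hB1 hu1 hu2 hu'1 hu'2
    obtain ⟨h1, h2, h3⟩ := hfat _ i' R hR v hv1 hv2
    refine ⟨_, ?_, h1, h2, h3⟩
    rintro _ ⟨x, ⟨hx1, hx2⟩, rfl⟩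
    obtain ⟨h4, h5, h6⟩ := hR2 x hx1 hx2
    exact ⟨hf3 A hA x h4 h5, hB3 x h4 h6⟩
  · -- no countable set
    rintro ⟨S0, hS0, hS0'⟩
    have hQ : (q ⁻¹' S0).Countable := by
      have h1 : q ⁻¹' S0 = ⋃ c ∈ S0, q ⁻¹' {c} := by
        ext x; simp
      rw [h1]
      refine hS0.biUnion ?_
      intro c _
      obtain ⟨x0, hx0⟩ := hq1 c
      have h2 : q ⁻¹' {c} ⊆ {x0} ∪ {y | x0 ≠ y ∧ sy.Rel x0 y} := by
        intro y hy
        by_cases h : x0 = y
        · left; rw [h]; rfl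
        · right
          refine ⟨h, ?_⟩
          rw [← hq2, hx0]
          exact hy.symm
      refine Set.Countable.mono h2 (Set.Countable.union (Set.countable_singleton _) ?_)
      apply Set.Subsingleton.countable
      rintro y ⟨hy1, hy2⟩ z ⟨hz1, hz2⟩
      exact partner hy1 hz1 hy2 hz2
    haveI := Th_nonempty
    obtain ⟨d, hd⟩ := Set.countable_iff_exists_subset_range.1 hQ
    let S : ℕ → Finset ℕ := fun j => {(stage j).lab ((d (j - 1)).1 j)}
    have hS : Bdd 0 S := by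
      intro j _
      simp [S]
    obtain ⟨h1, h2, h3⟩ := hfat 0 0 S hS (() : (stage 0).V) ⟨rfl, rfl⟩ trivial
    obtain ⟨c, hc, x, hx, rfl⟩ := hS0' _ h1 h2 h3
    obtain ⟨n, rfl⟩ := hd (show x ∈ q ⁻¹' S0 from hc)
    have h4 := (hx.2 (n + 1)).2
    apply h4
    show _ ∈ ({(stage (n + 1)).lab ((d (n + 1 - 1)).1 (n + 1))} : Finset ℕ)
    rw [Finset.mem_singleton]
    rfl

section LemmaC

open Filter in
/-- ultrafilter limits of threads -/
theorem ulim (y : ℕ → Th) : ∃ x : Th, ∀ j, ∀ᶠ n in (hyperfilter ℕ : Filter ℕ), (y n).1 j = x.1 j := by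
  have h : ∀ j, ∃ v : (stage j).V, ∀ᶠ n in (hyperfilter ℕ : Filter ℕ), (y n).1 j = v := by
    intro j
    haveI := (stage j).fin
    obtain ⟨v, hv⟩ := Ultrafilter.eq_pure_of_finite
      ((hyperfilter ℕ).map (fun n => ((y n).1 j : (stage j).V)))
    refine ⟨v, ?_⟩
    have h1 : ({v} : Set (stage j).V) ∈ (hyperfilter ℕ).map (fun n => ((y n).1 j : (stage j).V)) := by
      rw [hv]; exact Filter.mem_pure.2 rfl
    exact h1
  choose f hf using h
  refine ⟨⟨f, ?_⟩, hf⟩
  intro k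
  obtain ⟨n, h1, h2⟩ := ((hf k).and (hf (k + 1))).exists
  rw [← h1, ← h2]
  exact (y n).2 k

open Filter in
theorem miss_level (K : Set Th) (hcl : sy.Closed K) (b : ℕ) (h : ∀ i, ∀ x ∈ K, ¬ memT x b i) :
    ∃ k, b ≤ k ∧ ∀ i, ∀ x ∈ K, x.1 k ∉ (stage k).T b i := by
  by_contra hcon
  push Not at hcon
  have h1 : ∀ n, ∃ i, ∃ x ∈ K, x.1 (max b n) ∈ (stage (max b n)).T b i := fun n => hcon _ (le_max_left _ _)
  choose i y hyK hy using h1
  obtain ⟨x, hx⟩ := ulim y
  have hge : ∀ m, ∀ᶠ n in (hyperfilter ℕ : Filter ℕ), m ≤ n := fun m =>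
    Nat.hyperfilter_le_atTop (eventually_ge_atTop m)
  apply h ((stage b).anc (x.1 b) b) x
  · apply hcl
    intro k
    obtain ⟨n, hn⟩ := (hx k).exists
    exact ⟨y n, hyK n, hn⟩
  · intro k hk
    obtain ⟨n, ⟨hn1, hn2⟩, hn3⟩ := (((hx k).and (hx b)).and (hge k)).exists
    have h2 := hy n
    have h3 := (inv _).tanc _ _ _ h2
    have h4 := th_anc (x := y n) (b := b) (k := b) (n := max b n) le_rfl (le_max_left _ _)
    have h5 : i n = (stage b).anc (x.1 b) b := by
      rw [← h3, h4, hn2]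
    rw [h5] at h2
    have h6 := th_T (x := y n) hk (by omega) h2
    rw [hn1] at h6
    exact h6

theorem miss (K : Set Th) (hcl : sy.Closed K) (lam : ℕ)
    (h : ∀ b, lam < b → ∀ i, ∀ x ∈ K, ¬ memT x b i) (j : ℕ) :
    ∃ D, j ≤ D ∧ lam < D ∧ ∀ b, lam < b → b ≤ j → ∀ i, ∀ x ∈ K, x.1 D ∉ (stage D).T b i := by
  induction j with
  | zero => exact ⟨lam + 1, by omega, by omega, fun b h1 h2 => by omega⟩
  | succ j ih =>
    obtain ⟨D, hD1, hD2, hD3⟩ := ih
    by_cases hj : lam < j + 1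
    · obtain ⟨k, hk1, hk2⟩ := miss_level K hcl (j + 1) (h (j + 1) hj)
      refine ⟨max D k, by omega, by omega, ?_⟩
      intro b h1 h2 i x hx hmem
      rcases Nat.lt_or_ge j b with h3 | h3
      · obtain rfl : b = j + 1 := by omega
        exact hk2 i x hx (th_T hk1 (le_max_right _ _) hmem)
      · exact hD3 b h1 h3 i x hx (th_T (by omega) (le_max_left _ _) hmem)
    · refine ⟨max D (j + 1), by omega, by omega, ?_⟩
      intro b h1 h2
      omega

/-- equivalence of vertices of stage `j` lying in a common set of level in `(lam, j]` -/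
def eqv (lam j : ℕ) (u v : (stage j).V) : Prop :=
  ∃ b i, lam < b ∧ b ≤ j ∧ u ∈ (stage j).T b i ∧ v ∈ (stage j).T b i

theorem eqv_refl {lam j : ℕ} (h : lam < j) (u : (stage j).V) : eqv lam j u u :=
  ⟨j, _, h, le_rfl, (inv j).tself u, (inv j).tself u⟩

theorem eqv_symm {lam j : ℕ} {u v : (stage j).V} (h : eqv lam j u v) : eqv lam j v u := by
  obtain ⟨b, i, h1, h2, h3, h4⟩ := h
  exact ⟨b, i, h1, h2, h4, h3⟩

theorem eqv_trans {lam j : ℕ} {u v w : (stage j).V} (h : eqv lam j u v) (h' : eqv lam j v w) :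
    eqv lam j u w := by
  obtain ⟨b, i, h1, h2, h3, h4⟩ := h
  obtain ⟨b', i', h1', h2', h3', h4'⟩ := h'
  rcases le_total b b' with hb | hb
  · exact ⟨b, i, h1, h2, h3, (inv j).lam b b' i i' _ hb h4 h3' h4'⟩
  · exact ⟨b', i', h1', h2', (inv j).lam b' b i' i _ hb h3' h4 h3, h4'⟩

def cls (lam j : ℕ) (v : (stage j).V) : Set (stage j).V := {u | eqv lam j u v}

theorem cls_eq {lam j : ℕ} {u v : (stage j).V} (h : eqv lam j u v) : cls lam j u = cls lam j v := by
  ext w
  exact ⟨fun h' => eqv_trans h' h, fun h' => eqv_trans h' (eqv_symm h)⟩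

def free (lam j i : ℕ) (v : (stage i).V) : Prop :=
  ∀ b c, lam < b → b ≤ j → v ∉ (stage i).T b c

structure PhiInv (lam r j i : ℕ) (ρ : (stage i).V → (stage j).V) (φ : (stage i).V → Set (stage j).V) :
    Prop where
  r1 : ∀ x : Th, ρ (x.1 i) = x.1 j
  r2 : ∀ v b c, b ≤ j → v ∈ (stage i).T b c → ρ v ∈ (stage j).T b c
  r3 : ∀ v b, b ≤ j → (stage j).anc (ρ v) b = (stage i).anc v b
  p1 : ∀ v ∈ (stage i).T lam r, ∃ u u', φ v ⊆ cls lam j u ∪ cls lam j u'
  p2 : ∀ v ∈ (stage i).T lam r, cls lam j (ρ v) ⊆ φ v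
  p3 : ∀ v ∈ (stage i).T lam r, ¬ free lam j i v → φ v = cls lam j (ρ v)
  p4 : ∀ u ∈ (stage i).T lam r, ∀ v ∈ (stage i).T lam r, (stage i).E u v → free lam j i u →
    free lam j i v → φ u = φ v
  p5 : ∀ u ∈ (stage i).T lam r, ∀ v ∈ (stage i).T lam r, (stage i).E u v → free lam j i u →
    ¬ free lam j i v → φ v ⊆ φ u

theorem phi_base {lam r j : ℕ} (h : lam < j) : PhiInv lam r j j id (cls lam j) where
  r1 := fun x => rfl
  r2 := fun v b c _ h => h
  r3 := fun v b _ => rfl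
  p1 := fun v _ => ⟨v, v, Set.subset_union_left⟩
  p2 := fun v _ => subset_rfl
  p3 := fun v _ _ => rfl
  p4 := fun u _ v _ _ hu _ => absurd ((inv j).tself u) (hu j _ h le_rfl)
  p5 := fun u _ v _ _ hu _ => absurd ((inv j).tself u) (hu j _ h le_rfl)

theorem T_inl {k b i : ℕ} {v : (stage (k + 1)).V} {x : (stage k).V} (hb : b ≤ k)
    (hv : wk k v = Sum.inl x) : v ∈ (stage (k + 1)).T b i ↔ x ∈ (stage k).T b i := by
  constructor
  · rintro (⟨_, h⟩ | ⟨h, _⟩)
    · have h' : wk k v ∈ liftT _ _ _ ((stage k).T b i) := h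
      rw [hv] at h'
      exact h'
    · omega
  · intro h
    refine Or.inl ⟨hb, ?_⟩
    show wk k v ∈ liftT _ _ _ ((stage k).T b i)
    rw [hv]
    exact h

theorem T_inr {k b i : ℕ} {v : (stage (k + 1)).V}
    {q : Σ p : (stage k).V × (stage k).V × Set (stage k).V, Fin (walk (stage k) (sched k).1 (sched k).2 p).length}
    (hb : b ≤ k) (hv : wk k v = Sum.inr q) :
    v ∈ (stage (k + 1)).T b i ↔ q.1.1 ∈ (stage k).T b i ∧ q.1.2.1 ∈ (stage k).T b i := by
  constructor
  · rintro (⟨_, h⟩ | ⟨h, _⟩)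
    · have h' : wk k v ∈ liftT _ _ _ ((stage k).T b i) := h
      rw [hv] at h'
      exact h'
    · omega
  · intro h
    refine Or.inl ⟨hb, ?_⟩
    show wk k v ∈ liftT _ _ _ ((stage k).T b i)
    rw [hv]
    exact h

end LemmaC

section LemmaC2

open Classical in
noncomputable def phiq {lam j i : ℕ} (φ : (stage i).V → Set (stage j).V) (c z : (stage i).V) :
    Set (stage j).V :=
  if free lam j i c then φ c else if free lam j i z then φ z else φ c ∪ φ z

open Classical in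
noncomputable def phi' (lam j i : ℕ) (φ : (stage i).V → Set (stage j).V) (v : (stage (i + 1)).V) :
    Set (stage j).V :=
  match wk i v with
  | Sum.inl x => φ x
  | Sum.inr q => phiq (lam := lam) φ q.1.1 q.1.2.1

theorem phi'_inl {lam j i : ℕ} {φ : (stage i).V → Set (stage j).V} {v : (stage (i + 1)).V}
    {x : (stage i).V} (h : wk i v = Sum.inl x) : phi' lam j i φ v = φ x := by
  unfold phi'; rw [h]

theorem phi'_inr {lam j i : ℕ} {φ : (stage i).V → Set (stage j).V} {v : (stage (i + 1)).V}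
    {q : Σ p : (stage i).V × (stage i).V × Set (stage i).V, Fin (walk (stage i) (sched i).1 (sched i).2 p).length}
    (h : wk i v = Sum.inr q) : phi' lam j i φ v = phiq (lam := lam) φ q.1.1 q.1.2.1 := by
  unfold phi'; rw [h]

theorem free_inl {lam j i : ℕ} {v : (stage (i + 1)).V} {x : (stage i).V} (hj : j ≤ i)
    (h : wk i v = Sum.inl x) : free lam j (i + 1) v ↔ free lam j i x := by
  constructor
  · intro hf b c h1 h2 h3
    exact hf b c h1 h2 ((T_inl (h2.trans hj) h).2 h3)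
  · intro hf b c h1 h2 h3
    exact hf b c h1 h2 ((T_inl (h2.trans hj) h).1 h3)

theorem free_congr {lam j i : ℕ} {u v : (stage (i + 1)).V} (hj : j ≤ i)
    (h : (∃ x, wk i u = Sum.inl x ∧ wk i v = Sum.inl x) ∨
      ∃ q q' : Σ p : (stage i).V × (stage i).V × Set (stage i).V,
        Fin (walk (stage i) (sched i).1 (sched i).2 p).length,
        wk i u = Sum.inr q ∧ wk i v = Sum.inr q' ∧ q.1 = q'.1) :
    free lam j (i + 1) u ↔ free lam j (i + 1) v := by
  rcases h with ⟨x, h1, h2⟩ | ⟨q, q', h1, h2, h3⟩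
  · rw [free_inl hj h1, free_inl hj h2]
  · constructor
    · intro hf b c h4 h5 h6
      rw [T_inr (h5.trans hj) h2, ← h3, ← T_inr (h5.trans hj) h1] at h6
      exact hf b c h4 h5 h6
    · intro hf b c h4 h5 h6
      rw [T_inr (h5.trans hj) h1, h3, ← T_inr (h5.trans hj) h2] at h6
      exact hf b c h4 h5 h6

theorem phi_step {lam r j i : ℕ} (hlj : lam < j) (hj : j ≤ i) {ρ : (stage i).V → (stage j).V}
    {φ : (stage i).V → Set (stage j).V} (hI : PhiInv lam r j i ρ φ) :
    PhiInv lam r j (i + 1) (fun v => ρ (prk i v)) (phi' lam j i φ) := by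
  have hli : lam ≤ i := by omega
  -- facts on detours in `Y`
  have hc : ∀ c ∈ (stage i).T lam r, ∀ z ∈ (stage i).T lam r, (stage i).E c z →
      φ c ⊆ phiq (lam := lam) φ c z ∧ φ z ⊆ phiq (lam := lam) φ c z := by
    intro c hc z hz hE
    unfold phiq
    by_cases h1 : free lam j i c
    · rw [if_pos h1]
      refine ⟨subset_rfl, ?_⟩
      by_cases h2 : free lam j i z
      · exact (hI.p4 c hc z hz hE h1 h2).symm.subset
      · exact hI.p5 c hc z hz hE h1 h2
    · rw [if_neg h1]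
      by_cases h2 : free lam j i z
      · rw [if_pos h2]
        exact ⟨hI.p5 z hz c hc ((inv i).symm _ _ hE) h2 h1, subset_rfl⟩
      · rw [if_neg h2]
        exact ⟨Set.subset_union_left, Set.subset_union_right⟩
  have hq : ∀ q : Σ p : (stage i).V × (stage i).V × Set (stage i).V,
      Fin (walk (stage i) (sched i).1 (sched i).2 p).length, q.1.1 ∈ (stage i).T lam r →
      q.1.2.1 ∈ (stage i).T lam r →
      cls lam j (ρ (prW (stage i) (sched i).1 (sched i).2 (Sum.inr q))) = cls lam j (ρ q.1.2.1) := by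
    intro q h1 h2
    apply cls_eq
    have hv := validq q
    have hb0 : lam < (sched i).1 := by
      by_contra hcon
      exact hv.2.2.1 ((inv i).lam _ lam _ r _ (by omega) hv.2.1 h2 h1)
    have h3 := prW_inr_T q
    by_cases hbj : (sched i).1 ≤ j
    · exact ⟨_, _, hb0, hbj, hI.r2 _ _ _ hbj h3, hI.r2 _ _ _ hbj hv.2.1⟩
    · have h4 := (inv i).tanc _ _ _ h3
      have h5 := (inv i).tanc _ _ _ hv.2.1
      have h6 := (inv i).ancdet _ _ j _ (by omega) ((inv i).tle _ _ _ h3) (h4.trans h5.symm)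
      rw [← hI.r3 _ _ le_rfl, ← hI.r3 _ _ le_rfl] at h6
      rw [(inv j).ancinj _ _ h6]
      exact eqv_refl hlj _
  refine ⟨?_, ?_, ?_, ?_, ?_, ?_, ?_, ?_⟩
  · intro x
    have h1 : prk i (x.1 (i + 1)) = x.1 i := th_pr x i
    show ρ (prk i (x.1 (i + 1))) = x.1 j
    rw [h1]
    exact hI.r1 x
  · intro v b c hb hv
    exact hI.r2 _ _ _ hb (pr_T (hb.trans hj) hv)
  · intro v b hb
    rw [pr_anc (hb.trans hj)]
    exact hI.r3 _ _ hb
  · intro v hv
    rcases hw : wk i v with x | q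
    · rw [phi'_inl hw]
      exact hI.p1 x ((T_inl hli hw).1 hv)
    · rw [phi'_inr hw]
      obtain ⟨h1, h2⟩ := (T_inr hli hw).1 hv
      unfold phiq
      by_cases h3 : free lam j i q.1.1
      · rw [if_pos h3]; exact hI.p1 _ h1
      · rw [if_neg h3]
        by_cases h4 : free lam j i q.1.2.1
        · rw [if_pos h4]; exact hI.p1 _ h2
        · rw [if_neg h4]
          exact ⟨_, _, Set.union_subset_union (hI.p3 _ h1 h3).subset (hI.p3 _ h2 h4).subset⟩
  · intro v hv
    show cls lam j (ρ (prW _ _ _ (wk i v))) ⊆ _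
    rcases hw : wk i v with x | q
    · rw [phi'_inl hw]
      exact hI.p2 x ((T_inl hli hw).1 hv)
    · rw [phi'_inr hw]
      obtain ⟨h1, h2⟩ := (T_inr hli hw).1 hv
      rw [hq q h1 h2]
      exact (hI.p2 _ h2).trans (hc _ h1 _ h2 (validq q).1).2
  · intro v hv hnf
    show _ = cls lam j (ρ (prW _ _ _ (wk i v)))
    rcases hw : wk i v with x | q
    · rw [phi'_inl hw]
      rw [free_inl hj hw] at hnf
      exact hI.p3 x ((T_inl hli hw).1 hv) hnf
    · rw [phi'_inr hw]
      obtain ⟨h1, h2⟩ := (T_inr hli hw).1 hv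
      rw [hq q h1 h2]
      unfold free at hnf
      push Not at hnf
      obtain ⟨b, c, hb1, hb2, hb3⟩ := hnf
      rw [T_inr (hb2.trans hj) hw] at hb3
      have h3 : ¬ free lam j i q.1.1 := fun hf => hf b c hb1 hb2 hb3.1
      have h4 : ¬ free lam j i q.1.2.1 := fun hf => hf b c hb1 hb2 hb3.2
      unfold phiq
      rw [if_neg h3, if_neg h4, hI.p3 _ h1 h3, hI.p3 _ h2 h4]
      rw [cls_eq (⟨b, c, hb1, hb2, hI.r2 _ _ _ hb2 hb3.1, hI.r2 _ _ _ hb2 hb3.2⟩ :
        eqv lam j (ρ q.1.1) (ρ q.1.2.1))]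
      exact Set.union_self _
  · intro u hu v hv hE hfu hfv
    rcases hE with hE | hE
    · show phi' lam j i φ u = phi' lam j i φ v
      unfold phi'
      have : wk i u = wk i v := hE
      rw [this]
    · have hE' : EW (stage i) (sched i).1 (sched i).2 (wk i u) (wk i v) := hE
      rcases hwu : wk i u with x | q <;> rcases hwv : wk i v with y | q'
      · rw [hwu, hwv] at hE'
        rw [phi'_inl hwu, phi'_inl hwv]
        exact hI.p4 _ ((T_inl hli hwu).1 hu) _ ((T_inl hli hwv).1 hv) hE'.1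
          ((free_inl hj hwu).1 hfu) ((free_inl hj hwv).1 hfv)
      · rw [hwu, hwv] at hE'
        rw [phi'_inl hwu, phi'_inr hwv]
        have hfx := (free_inl hj hwu).1 hfu
        obtain ⟨h1, h2⟩ := (T_inr hli hwv).1 hv
        have hcz := (validq q').1
        unfold phiq
        rcases hE' with ⟨h3, _⟩ | ⟨h3, _⟩
        · rw [← h3, if_pos hfx]
        · rw [h3] at hfx ⊢
          by_cases h4 : free lam j i q'.1.1
          · rw [if_pos h4]
            exact (hI.p4 _ h1 _ h2 hcz h4 hfx).symm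
          · rw [if_neg h4, if_pos hfx]
      · rw [hwu, hwv] at hE'
        rw [phi'_inr hwu, phi'_inl hwv]
        have hfx := (free_inl hj hwv).1 hfv
        obtain ⟨h1, h2⟩ := (T_inr hli hwu).1 hu
        have hcz := (validq q).1
        unfold phiq
        rcases hE' with ⟨h3, _⟩ | ⟨h3, _⟩
        · rw [← h3, if_pos hfx]
        · rw [h3] at hfx ⊢
          by_cases h4 : free lam j i q.1.1
          · rw [if_pos h4]
            exact (hI.p4 _ h1 _ h2 hcz h4 hfx)
          · rw [if_neg h4, if_pos hfx]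
      · rw [hwu, hwv] at hE'
        rw [phi'_inr hwu, phi'_inr hwv, hE'.1]
  · intro u hu v hv hE hfu hfv
    rcases hE with hE | hE
    · exfalso
      have hE' : wk i u = wk i v := hE
      apply hfv
      rw [← free_congr hj ?_]
      · exact hfu
      · rcases hwu : wk i u with x | q
        · exact Or.inl ⟨x, rfl, by rw [← hE', hwu]⟩
        · exact Or.inr ⟨q, q, rfl, by rw [← hE', hwu], rfl⟩
    · have hE' : EW (stage i) (sched i).1 (sched i).2 (wk i u) (wk i v) := hE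
      rcases hwu : wk i u with x | q <;> rcases hwv : wk i v with y | q'
      · rw [hwu, hwv] at hE'
        rw [phi'_inl hwu, phi'_inl hwv]
        exact hI.p5 _ ((T_inl hli hwu).1 hu) _ ((T_inl hli hwv).1 hv) hE'.1
          ((free_inl hj hwu).1 hfu) (fun h => hfv ((free_inl hj hwv).2 h))
      · exfalso
        rw [hwu, hwv] at hE'
        have hfx := (free_inl hj hwu).1 hfu
        unfold free at hfv
        push Not at hfv
        obtain ⟨b, c, hb1, hb2, hb3⟩ := hfv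
        rw [T_inr (hb2.trans hj) hwv] at hb3
        rcases hE' with ⟨h3, _⟩ | ⟨h3, _⟩
        · rw [h3] at hfx
          exact hfx b c hb1 hb2 hb3.1
        · rw [h3] at hfx
          exact hfx b c hb1 hb2 hb3.2
      · rw [hwu, hwv] at hE'
        rw [phi'_inr hwu, phi'_inl hwv]
        obtain ⟨h1, h2⟩ := (T_inr hli hwu).1 hu
        have hcz := (validq q).1
        rcases hE' with ⟨h3, _⟩ | ⟨h3, _⟩
        · rw [h3]
          exact (hc _ h1 _ h2 hcz).1
        · rw [h3]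
          exact (hc _ h1 _ h2 hcz).2
      · exfalso
        rw [hwu, hwv] at hE'
        apply hfv
        rw [← free_congr hj ?_]
        · exact hfu
        · exact Or.inr ⟨q, q', hwu, hwv, hE'.1⟩

theorem phi_exists {lam r j : ℕ} (hlj : lam < j) (i : ℕ) (hj : j ≤ i) :
    ∃ ρ φ, PhiInv lam r j i ρ φ := by
  induction i, hj using Nat.le_induction with
  | base => exact ⟨_, _, phi_base hlj⟩
  | succ i hi ih =>
    obtain ⟨ρ, φ, h⟩ := ih
    exact ⟨_, _, phi_step hlj hi h⟩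

theorem three (K : Set Th) (hcl : sy.Closed K) (hconn : ∀ k, GConn (stage k).E (img k K))
    (lam r : ℕ) (hr : ∀ x ∈ K, memT x lam r)
    (h : ∀ b, lam < b → ∀ i, ∀ x ∈ K, ¬ memT x b i) (b : ℕ) :
    ∀ x ∈ K, ∀ y ∈ K, ∀ z ∈ K, x.1 b = y.1 b ∨ y.1 b = z.1 b ∨ x.1 b = z.1 b := by
  obtain ⟨j, hj1, hj2, hj3⟩ := miss K hcl lam h b
  obtain ⟨D, hD1, hD2, hD3⟩ := miss K hcl lam h j
  obtain ⟨ρ, φ, hI⟩ := phi_exists (r := r) hj2 D hD1
  intro x0 hx0
  have hY : ∀ x ∈ K, x.1 D ∈ (stage D).T lam r := fun x hx => hr x hx D (by omega)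
  have hF : ∀ x ∈ K, free lam j D (x.1 D) := fun x hx b c h1 h2 => hD3 b h1 h2 c x hx
  have hconst : ∀ x ∈ K, φ (x.1 D) = φ (x0.1 D) := by
    intro x hx
    have := hconn D {v | φ v = φ (x0.1 D)} ⟨x0.1 D, ⟨x0, hx0, rfl⟩, rfl⟩ ?_
    · exact this ⟨x, hx, rfl⟩
    · rintro _ ⟨u, hu, rfl⟩ hu' _ ⟨v, hv, rfl⟩ hE
      have h1 := hI.p4 _ (hY u hu) _ (hY v hv) hE (hF u hu) (hF v hv)
      exact h1.symm.trans hu'
  obtain ⟨u, u', huu'⟩ := hI.p1 _ (hY x0 hx0)
  have hin : ∀ x ∈ K, x.1 j ∈ cls lam j u ∨ x.1 j ∈ cls lam j u' := by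
    intro x hx
    have h1 := hI.p2 _ (hY x hx)
    rw [hI.r1 x, hconst x hx] at h1
    exact huu' (h1 (eqv_refl hj2 _))
  have heq : ∀ x ∈ K, ∀ y ∈ K, eqv lam j (x.1 j) (y.1 j) → x.1 b = y.1 b := by
    rintro x hx y hy ⟨b', i', h1, h2, h3, h4⟩
    have h5 : b < b' := by
      by_contra hcon
      exact hj3 b' h1 (by omega) i' x hx h3
    exact eq_of_T h5.le h3 h4
  intro y hy z hz
  have h2 : ∀ w, ∀ x ∈ K, ∀ y ∈ K, x.1 j ∈ cls lam j w → y.1 j ∈ cls lam j w → x.1 b = y.1 b :=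
    fun w x hx y hy h3 h4 => heq x hx y hy (eqv_trans h3 (eqv_symm h4))
  rcases hin x0 hx0 with h3 | h3 <;> rcases hin y hy with h4 | h4 <;> rcases hin z hz with h5 | h5
  · exact Or.inl (h2 _ _ hx0 _ hy h3 h4)
  · exact Or.inl (h2 _ _ hx0 _ hy h3 h4)
  · exact Or.inr (Or.inr (h2 _ _ hx0 _ hz h3 h5))
  · exact Or.inr (Or.inl (h2 _ _ hy _ hz h4 h5))
  · exact Or.inr (Or.inl (h2 _ _ hy _ hz h4 h5))
  · exact Or.inr (Or.inr (h2 _ _ hx0 _ hz h3 h5))
  · exact Or.inl (h2 _ _ hx0 _ hy h3 h4)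
  · exact Or.inl (h2 _ _ hx0 _ hy h3 h4)

/-- (C) -/
theorem lemmaC (K : Set Th) (hcl : sy.Closed K) (hconn : ∀ k, GConn (stage k).E (img k K))
    (hmix : ∀ b i, (∃ x ∈ K, memT x b i) → ∀ y ∈ K, memT y b i) :
    ∀ x ∈ K, ∀ y ∈ K, sy.Rel x y := by
  intro x hx y hy
  set L : Set ℕ := {b | ∃ i, ∀ y ∈ K, memT y b i} with hL
  have hL0 : 0 ∈ L := ⟨0, fun y _ k _ => (inv k).root _⟩
  by_cases hbd : BddAbove L
  · have h1 : sSup L ∈ L := Nat.sSup_mem ⟨0, hL0⟩ hbd
    have h2 : ∀ b, sSup L < b → ∀ i, ∀ x ∈ K, ¬ memT x b i := by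
      intro b hb i z hz hmem
      have : b ∈ L := ⟨i, hmix b i ⟨z, hz, hmem⟩⟩
      exact absurd (le_csSup hbd this) (by omega)
    obtain ⟨r, hr⟩ := h1
    intro k
    have h3 := three K hcl hconn _ r hr h2 k
    by_contra hE
    have hne : x.1 k ≠ y.1 k := by
      intro h
      apply hE
      rw [h]
      exact (inv k).refl _
    have := hconn k {x.1 k} ⟨x.1 k, ⟨x, hx, rfl⟩, rfl⟩ (by
      rintro _ ⟨u, hu, rfl⟩ hu' _ ⟨v, hv, rfl⟩ huv
      have hu'' : u.1 k = x.1 k := hu'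
      rcases h3 x hx y hy v hv with h | h | h
      · exact absurd h hne
      · exfalso
        apply hE
        rw [h]
        have h5 : (stage k).E (u.1 k) (v.1 k) := huv
        rw [hu''] at h5
        exact h5
      · exact h.symm)
    have h4 := this ⟨y, hy, rfl⟩
    exact hne h4.symm
  · intro k
    rw [not_bddAbove_iff] at hbd
    obtain ⟨b, ⟨i, hi⟩, hb⟩ := hbd k
    have h1 := hi x hx b le_rfl
    have h2 := hi y hy b le_rfl
    have h3 : x.1 k = y.1 k := eq_of_T hb.le h1 h2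
    show (stage k).E (x.1 k) (y.1 k)
    rw [h3]
    exact (inv k).refl _

end LemmaC2

theorem main : ¬ (∀ (X : Type) [MetricSpace X] [CompactSpace X] [ConnectedSpace X],
      (∀ G : Set (Set X), ¬ G.Countable →
          (∀ K ∈ G, IsCompact K ∧ IsConnected K ∧ K.Nontrivial) →
          ∃ A ∈ G, ∃ B ∈ G, A ≠ B ∧
            ∃ C : Set X, C ⊆ A ∩ B ∧ IsCompact C ∧ IsConnected C ∧ C.Nontrivial) →
      ∃ S : Set X, S.Countable ∧
        ∀ K : Set X, IsCompact K → IsConnected K → K.Nontrivial → (S ∩ K).Nonempty) :=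
  final lemmaC

end Pool.Agent.Helper467.U

open Pool Pool.MP_424fb5_gt

namespace Pool.Agent.S08340

/-- The negation of the preceding statement: For every metric continuum M in which any uncountable family of nondegenerate subcontinua has two distinct members sharing a nondegenerate subcontinuum, there is a countable subset of M meeting every nondegenerate subcontinuum. -/
theorem result :
    ¬ (∀ (X : Type) [MetricSpace X] [CompactSpace X] [ConnectedSpace X],
      (∀ G : Set (Set X), ¬ G.Countable →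
          (∀ K ∈ G, IsCompact K ∧ IsConnected K ∧ K.Nontrivial) →
          ∃ A ∈ G, ∃ B ∈ G, A ≠ B ∧
            ∃ C : Set X, C ⊆ A ∩ B ∧ IsCompact C ∧ IsConnected C ∧ C.Nontrivial) →
      ∃ S : Set X, S.Countable ∧
        ∀ K : Set X, IsCompact K → IsConnected K → K.Nontrivial → (S ∩ K).Nonempty) := by
  exact Pool.Agent.Helper467.U.main

end Pool.Agent.S08340
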