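import Pool.Statements.S08344

set_option autoImplicit false
open Pool Pool.MP_440a64_gt

namespace Pool.Agent.S08344

/-- the reals as a discrete space -/
def X1 : Type := ℝ

instance : TopologicalSpace X1 := ⊥
instance : DiscreteTopology X1 := ⟨rfl⟩

/-- the space: a discrete space plus its Stone-Cech compactification -/
abbrev X : Type := X1 ⊕ StoneCech X1

instance instT35 : T35Space X := by
  have h0 : T0Space X := inferInstance
  have h1 : CompletelyRegularSpace X := by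
    constructor
    rintro (ξ | z) C hC hx
    · classical
      refine ⟨Sum.elim (fun η => if η = ξ then 0 else 1) (fun _ => 1), ?_, ?_, ?_⟩
      · exact continuous_of_discreteTopology.sumElim continuous_const
      · simp
      · rintro (η | z) hy
        · have : η ≠ ξ := by
            rintro rfl
            exact hx hy
          simp [this]
        · simp
    · obtain ⟨g, hg, hg0, hg1⟩ := CompletelyRegularSpace.completely_regular z (Sum.inr ⁻¹' C)
        (hC.preimage continuous_inr) hx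
      refine ⟨Sum.elim (fun _ => 1) g, ?_, ?_, ?_⟩
      · exact continuous_const.sumElim hg
      · simpa using hg0
      · rintro (η | z') hy
        · simp
        · exact hg1 hy
  exact { h0, h1 with }

/-- the coding function, with values strictly between 1/4 and 1/2 -/
noncomputable def e (v : ℝ) : ℝ := 3 / 8 + 1 / (4 * Real.pi) * Real.arctan v

lemma e_mem (v : ℝ) : e v ∈ Set.Ioo (1 / 4 : ℝ) (1 / 2) := by
  have hpi := Real.pi_pos
  have h1 := Real.neg_pi_div_two_lt_arctan v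
  have h2 := Real.arctan_lt_pi_div_two v
  have h3 : (0 : ℝ) < 1 / (4 * Real.pi) := by positivity
  have h4 : 1 / (4 * Real.pi) * (Real.pi / 2) = 1 / 8 := by field_simp; norm_num
  unfold e
  constructor
  · have := mul_lt_mul_of_pos_left h1 h3
    nlinarith
  · have := mul_lt_mul_of_pos_left h2 h3
    nlinarith

lemma e_emb : Topology.IsEmbedding e := by
  have hcont : Continuous e := by
    unfold e
    have := Real.continuous_arctan
    fun_prop
  have hmono : StrictMono e := by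
    intro y z hyz
    have h3 : (0 : ℝ) < 1 / (4 * Real.pi) := by have := Real.pi_pos; positivity
    have := mul_lt_mul_of_pos_left (Real.arctan_strictMono hyz) h3
    unfold e
    linarith
  exact hmono.isEmbedding_of_ordConnected (isPreconnected_range hcont).ordConnected

/-- the pieces of the uniformly dense set -/
def Y (m : ℕ) : Set C(X, ℝ) :=
  {y | ∀ ξ : X1, Int.fract (((m : ℝ) + 1) * y (Sum.inr (stoneCechUnit ξ))) = e (y (Sum.inl ξ))}

/-- extending bounded functions -/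
lemma exists_ext (g : X1 → ℝ) (B : ℝ) (hg : ∀ ξ, |g ξ| ≤ B) :
    ∃ G : StoneCech X1 → ℝ, Continuous G ∧ ∀ ξ, G (stoneCechUnit ξ) = g ξ := by
  let g' : X1 → Set.Icc (-B) B := fun ξ => ⟨g ξ, abs_le.1 (hg ξ)⟩
  have hg' : Continuous g' := continuous_of_discreteTopology
  refine ⟨fun z => (stoneCechExtend hg' z).1, ?_, ?_⟩
  · exact continuous_subtype_val.comp (continuous_stoneCechExtend hg')
  · intro ξ
    have := congrFun (stoneCechExtend_extends hg') ξ
    simp only [Function.comp_apply] at this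
    show (stoneCechExtend hg' (stoneCechUnit ξ)).1 = g ξ
    rw [this]

lemma unif_dense (f : C(X, ℝ)) (ε : ℝ) (hε : 0 < ε) : ∃ m, ∃ g ∈ Y m, ∀ x : X, |f x - g x| < ε := by
  obtain ⟨m, hm⟩ := exists_nat_one_div_lt hε
  -- a bound for `f` on the compact part
  have hcont : Continuous (fun z : StoneCech X1 => f (Sum.inr z)) := by fun_prop
  obtain ⟨B, hB⟩ := (isCompact_range hcont.abs).bddAbove
  have hB' : ∀ z, |f (Sum.inr z)| ≤ B := fun z => hB ⟨z, rfl⟩
  set M : ℝ := (m : ℝ) + 1 with hM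
  have hM0 : 0 < M := by positivity
  let g : X1 → ℝ := fun ξ => (⌊M * f (Sum.inr (stoneCechUnit ξ))⌋ + e (f (Sum.inl ξ))) / M
  have hgf : ∀ ξ, |g ξ - f (Sum.inr (stoneCechUnit ξ))| ≤ 1 / M := by
    intro ξ
    have h1 := e_mem (f (Sum.inl ξ))
    have h2 := Int.floor_le (M * f (Sum.inr (stoneCechUnit ξ)))
    have h3 := Int.lt_floor_add_one (M * f (Sum.inr (stoneCechUnit ξ)))
    have h4 : g ξ - f (Sum.inr (stoneCechUnit ξ)) =
        (⌊M * f (Sum.inr (stoneCechUnit ξ))⌋ + e (f (Sum.inl ξ)) - M * f (Sum.inr (stoneCechUnit ξ))) / M := by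
      simp only [g]
      field_simp
    rw [h4, abs_div, abs_of_pos hM0]
    apply div_le_div_of_nonneg_right _ hM0.le
    rw [abs_le]
    constructor <;> linarith [h1.1, h1.2]
  obtain ⟨G, hG, hGg⟩ := exists_ext g (B + 1 / M) (by
    intro ξ
    calc |g ξ| = |(g ξ - f (Sum.inr (stoneCechUnit ξ))) + f (Sum.inr (stoneCechUnit ξ))| := by ring_nf
      _ ≤ |g ξ - f (Sum.inr (stoneCechUnit ξ))| + |f (Sum.inr (stoneCechUnit ξ))| := abs_add_le _ _
      _ ≤ B + 1 / M := by linarith [hgf ξ, hB' (stoneCechUnit ξ)])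
  have hGf : ∀ z, |G z - f (Sum.inr z)| ≤ 1 / M := by
    intro z
    have hcl : IsClosed {z | |G z - f (Sum.inr z)| ≤ 1 / M} :=
      isClosed_le (by fun_prop) continuous_const
    have hden : Dense (Set.range (stoneCechUnit : X1 → StoneCech X1)) := denseRange_stoneCechUnit
    have hsub : Set.range (stoneCechUnit : X1 → StoneCech X1) ⊆ {z | |G z - f (Sum.inr z)| ≤ 1 / M} := by
      rintro _ ⟨ξ, rfl⟩
      show |G (stoneCechUnit ξ) - f (Sum.inr (stoneCechUnit ξ))| ≤ 1 / M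
      rw [hGg]
      exact hgf ξ
    exact hcl.closure_subset_iff.2 hsub (hden z)
  refine ⟨m, ⟨Sum.elim (fun ξ => f (Sum.inl ξ)) G, ?_⟩, ?_, ?_⟩
  · exact continuous_of_discreteTopology.sumElim hG
  · intro ξ
    simp only [ContinuousMap.coe_mk, Sum.elim_inr, Sum.elim_inl]
    rw [hGg]
    have h1 := e_mem (f (Sum.inl ξ))
    have h2 : ((m : ℝ) + 1) * g ξ = e (f (Sum.inl ξ)) + ⌊M * f (Sum.inr (stoneCechUnit ξ))⌋ := by
      simp only [g]
      rw [← hM]
      field_simp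
      ring
    rw [h2, Int.fract_add_intCast, Int.fract_eq_self]
    exact ⟨by linarith [h1.1], by linarith [h1.2]⟩
  · rintro (ξ | z)
    · simpa using hε
    · simp only [ContinuousMap.coe_mk, Sum.elim_inr]
      rw [abs_sub_comm]
      exact (hGf z).trans_lt hm

/-- local continuity of the decoding -/
lemma decode (m : ℕ) (y : C(X, ℝ)) (hy : y ∈ Y m) (ξ : X1) (ε : ℝ) (hε : 0 < ε) :
    ∃ δ > 0, ∀ y' ∈ Y m, |y' (Sum.inr (stoneCechUnit ξ)) - y (Sum.inr (stoneCechUnit ξ))| < δ →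
      |y' (Sum.inl ξ) - y (Sum.inl ξ)| < ε := by
  obtain ⟨V, hV, hVe⟩ := (e_emb.isInducing.isOpen_iff).1 (Metric.isOpen_ball (x := y (Sum.inl ξ)) (ε := ε))
  have hyV : e (y (Sum.inl ξ)) ∈ V := by
    have : y (Sum.inl ξ) ∈ e ⁻¹' V := by rw [hVe]; exact Metric.mem_ball_self hε
    exact this
  obtain ⟨η, hη, hηV⟩ := Metric.isOpen_iff.1 hV _ hyV
  have hM0 : (0 : ℝ) < (m : ℝ) + 1 := by positivity
  refine ⟨min η (1 / 4) / ((m : ℝ) + 1), by positivity, ?_⟩
  intro y' hy' hd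
  have h1 := hy ξ
  have h2 := hy' ξ
  have h3 := e_mem (y (Sum.inl ξ))
  set t := ((m : ℝ) + 1) * y (Sum.inr (stoneCechUnit ξ)) with ht
  set t' := ((m : ℝ) + 1) * y' (Sum.inr (stoneCechUnit ξ)) with ht'
  have h4 : |t' - t| < min η (1 / 4) := by
    rw [ht, ht', ← mul_sub, abs_mul, abs_of_pos hM0]
    rwa [lt_div_iff₀ hM0, mul_comm] at hd
  have h5 : |t' - t| < η := h4.trans_le (min_le_left _ _)
  have h6 : |t' - t| < 1 / 4 := h4.trans_le (min_le_right _ _)
  have h7 : ⌊t'⌋ = ⌊t⌋ := by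
    rw [Int.floor_eq_iff]
    have h8 : Int.fract t = t - ⌊t⌋ := rfl
    rw [h8] at h1
    rw [abs_lt] at h6
    constructor
    · linarith [h3.1]
    · linarith [h3.2]
  have h8 : Int.fract t' - Int.fract t = t' - t := by
    unfold Int.fract
    rw [h7]
    ring
  rw [h1, h2] at h8
  have h9 : e (y' (Sum.inl ξ)) ∈ V := by
    apply hηV
    rw [Metric.mem_ball, Real.dist_eq, h8]
    exact h5
  have h10 : y' (Sum.inl ξ) ∈ e ⁻¹' V := h9
  rw [hVe, Metric.mem_ball, Real.dist_eq] at h10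
  exact h10

/-- base sets -/
def box (F : Set (C(X, ℝ) × ℚ × ℚ)) : Set (StoneCech X1) :=
  {z | ∀ t ∈ F, (t.2.1 : ℝ) < t.1 (Sum.inr z) ∧ t.1 (Sum.inr z) < t.2.2}

def base (A : Set C(X, ℝ)) : Set (Set (StoneCech X1)) :=
  box '' {F | F.Finite ∧ F ⊆ A ×ˢ (Set.univ : Set (ℚ × ℚ))}

def pbox (m : ℕ) (F : Set (Set (StoneCech X1) × ℚ × ℚ)) : Set C(X, ℝ) :=
  {y | y ∈ Y m ∧ ∀ t ∈ F, ∀ z ∈ t.1, (t.2.1 : ℝ) < y (Sum.inr z) ∧ y (Sum.inr z) < t.2.2}

def netw (A : Set C(X, ℝ)) : Set (Set C(X, ℝ)) :=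
  (fun p : ℕ × Set (Set (StoneCech X1) × ℚ × ℚ) => pbox p.1 p.2) ''
    ((Set.univ : Set ℕ) ×ˢ {F | F.Finite ∧ F ⊆ base A ×ˢ (Set.univ : Set (ℚ × ℚ))})

lemma base_countable (A : Set C(X, ℝ)) (hA : A.Countable) : (base A).Countable :=
  (Set.countable_ofPred_finite_subset (hA.prod Set.countable_univ)).image _

lemma netw_countable (A : Set C(X, ℝ)) (hA : A.Countable) : (netw A).Countable :=
  (Set.countable_univ.prod (Set.countable_ofPred_finite_subset
    ((base_countable A hA).prod Set.countable_univ))).image _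

lemma base_mono {A B : Set C(X, ℝ)} (h : A ⊆ B) : base A ⊆ base B := by
  rintro _ ⟨F, ⟨hF, hFA⟩, rfl⟩
  exact ⟨F, ⟨hF, hFA.trans (Set.prod_mono h subset_rfl)⟩, rfl⟩

lemma netw_mono {A B : Set C(X, ℝ)} (h : A ⊆ B) : netw A ⊆ netw B := by
  rintro _ ⟨⟨m, F⟩, ⟨_, hF, hFA⟩, rfl⟩
  exact ⟨(m, F), ⟨trivial, hF, hFA.trans (Set.prod_mono (base_mono h) subset_rfl)⟩, rfl⟩

lemma finite_sub {α : Type} (S : ℕ → Set α) (hS : Monotone S) (F : Set α) (hF : F.Finite)
    (h : F ⊆ ⋃ k, S k) : ∃ k, F ⊆ S k := by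
  induction F, hF using Set.Finite.induction_on with
  | empty => exact ⟨0, Set.empty_subset _⟩
  | @insert a s _ _ ih =>
    obtain ⟨k, hk⟩ := ih ((Set.subset_insert _ _).trans h)
    obtain ⟨l, hl⟩ := Set.mem_iUnion.1 (h (Set.mem_insert _ _))
    refine ⟨max k l, Set.insert_subset (hS (le_max_right _ _) hl) (hk.trans (hS (le_max_left _ _)))⟩

lemma base_union (A : ℕ → Set C(X, ℝ)) (hA : Monotone A) : base (⋃ k, A k) = ⋃ k, base (A k) := by
  apply subset_antisymm
  · rintro _ ⟨F, ⟨hF, hFA⟩, rfl⟩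
    obtain ⟨k, hk⟩ := finite_sub (fun k => A k ×ˢ (Set.univ : Set (ℚ × ℚ)))
      (fun i j hij => Set.prod_mono (hA hij) subset_rfl) F hF (by
        rwa [Set.iUnion_prod_const] at hFA)
    exact Set.mem_iUnion.2 ⟨k, F, ⟨hF, hk⟩, rfl⟩
  · exact Set.iUnion_subset fun k => base_mono (Set.subset_iUnion A k)

lemma netw_union (A : ℕ → Set C(X, ℝ)) (hA : Monotone A) : netw (⋃ k, A k) = ⋃ k, netw (A k) := by
  apply subset_antisymm
  · rintro _ ⟨⟨m, F⟩, ⟨_, hF, hFA⟩, rfl⟩
    obtain ⟨k, hk⟩ := finite_sub (fun k => base (A k) ×ˢ (Set.univ : Set (ℚ × ℚ)))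
      (fun i j hij => Set.prod_mono (base_mono (hA hij)) subset_rfl) F hF (by
        rw [base_union A hA, Set.iUnion_prod_const] at hFA
        exact hFA)
    exact Set.mem_iUnion.2 ⟨k, (m, F), ⟨trivial, hF, hk⟩, rfl⟩
  · exact Set.iUnion_subset fun k => netw_mono (Set.subset_iUnion A k)

/-- base sets control members of the closure -/
lemma exists_base (A : Set C(X, ℝ)) (y : C(X, ℝ))
    (hy : (⇑y : X → ℝ) ∈ closure ((fun f : C(X, ℝ) => (⇑f : X → ℝ)) '' A))
    (z0 : StoneCech X1) (r s : ℝ) (hr : r < y (Sum.inr z0)) (hs : y (Sum.inr z0) < s) :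
    ∃ U ∈ base A, z0 ∈ U ∧ ∀ z ∈ U, r < y (Sum.inr z) ∧ y (Sum.inr z) < s := by
  have hcont : Continuous (fun z : StoneCech X1 => y (Sum.inr z)) := by fun_prop
  have hC : IsCompact ((fun z : StoneCech X1 => y (Sum.inr z)) ⁻¹' (Set.Ioo r s)ᶜ) :=
    (isOpen_Ioo.isClosed_compl.preimage hcont).isCompact
  obtain ⟨F, hF, hFA, hz0, hdis⟩ := hC.induction_on
    (p := fun S => ∃ F : Set (C(X, ℝ) × ℚ × ℚ), F.Finite ∧ F ⊆ A ×ˢ (Set.univ : Set (ℚ × ℚ)) ∧
      z0 ∈ box F ∧ ∀ z ∈ box F, z ∉ S)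
    ⟨∅, Set.finite_empty, Set.empty_subset _, by simp [box], by simp⟩
    (by
      rintro S T hST ⟨F, h1, h2, h3, h4⟩
      exact ⟨F, h1, h2, h3, fun z hz hzS => h4 z hz (hST hzS)⟩)
    (by
      rintro S T ⟨F, h1, h2, h3, h4⟩ ⟨F', h1', h2', h3', h4'⟩
      refine ⟨F ∪ F', h1.union h1', Set.union_subset h2 h2', ?_, ?_⟩
      · rintro t (ht | ht)
        · exact h3 t ht
        · exact h3' t ht
      · rintro z hz (hzS | hzT)
        · exact h4 z (fun t ht => hz t (Or.inl ht)) hzS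
        · exact h4' z (fun t ht => hz t (Or.inr ht)) hzT)
    (by
      intro z hz
      -- some member of `A` separates `z` and `z0`
      have hne : ∃ a ∈ A, a (Sum.inr z) ≠ a (Sum.inr z0) := by
        by_contra hcon
        push Not at hcon
        have hcl : IsClosed {g : X → ℝ | g (Sum.inr z) = g (Sum.inr z0)} :=
          isClosed_eq (continuous_apply _) (continuous_apply _)
        have hsub : ((fun f : C(X, ℝ) => (⇑f : X → ℝ)) '' A) ⊆
            {g : X → ℝ | g (Sum.inr z) = g (Sum.inr z0)} := by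
          rintro _ ⟨a, ha, rfl⟩
          exact hcon a ha
        have h1 : y (Sum.inr z) = y (Sum.inr z0) := closure_minimal hsub hcl hy
        apply hz
        show y (Sum.inr z) ∈ Set.Ioo r s
        rw [h1]
        exact ⟨hr, hs⟩
      obtain ⟨a, haA, ha⟩ := hne
      set d := |a (Sum.inr z) - a (Sum.inr z0)| with hd
      have hd0 : 0 < d := abs_pos.2 (sub_ne_zero.2 ha)
      obtain ⟨p, hp1, hp2⟩ := exists_rat_btwn (show a (Sum.inr z0) - d / 2 < a (Sum.inr z0) by linarith)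
      obtain ⟨q, hq1, hq2⟩ := exists_rat_btwn (show a (Sum.inr z0) < a (Sum.inr z0) + d / 2 by linarith)
      have hacont : Continuous (fun z : StoneCech X1 => a (Sum.inr z)) := by fun_prop
      have hopen : IsOpen {z' : StoneCech X1 | |a (Sum.inr z') - a (Sum.inr z)| < d / 2} :=
        isOpen_lt (by fun_prop) continuous_const
      refine ⟨{z' : StoneCech X1 | |a (Sum.inr z') - a (Sum.inr z)| < d / 2},
        mem_nhdsWithin_of_mem_nhds (hopen.mem_nhds (by simpa using hd0)), {(a, p, q)},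
        Set.finite_singleton _, ?_, ?_, ?_⟩
      · rintro t ht
        rw [Set.mem_singleton_iff] at ht
        subst ht
        exact ⟨haA, trivial⟩
      · rintro t ht
        rw [Set.mem_singleton_iff] at ht
        subst ht
        exact ⟨hp2, hq1⟩
      · intro z' hz' hcon
        have h1 := hz' (a, p, q) rfl
        simp only at h1
        have h2 : |a (Sum.inr z') - a (Sum.inr z)| < d / 2 := hcon
        have h3 : |a (Sum.inr z') - a (Sum.inr z0)| < d / 2 := by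
          rw [abs_lt]; constructor <;> linarith [h1.1, h1.2]
        have h4 : d ≤ |a (Sum.inr z') - a (Sum.inr z)| + |a (Sum.inr z') - a (Sum.inr z0)| := by
          rw [hd]
          have := abs_sub_le (a (Sum.inr z)) (a (Sum.inr z')) (a (Sum.inr z0))
          rw [abs_sub_comm (a (Sum.inr z)) (a (Sum.inr z'))] at this
          exact this
        linarith)
  refine ⟨box F, ⟨F, ⟨hF, hFA⟩, rfl⟩, hz0, ?_⟩
  intro z hz
  by_contra hcon
  exact hdis z hz hcon

/-- the network property -/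
lemma netw_spec (A : Set C(X, ℝ)) (m : ℕ) (y : C(X, ℝ)) (hym : y ∈ Y m)
    (hy : (⇑y : X → ℝ) ∈ closure ((fun f : C(X, ℝ) => (⇑f : X → ℝ)) '' A))
    (V : Set (X → ℝ)) (hV : IsOpen V) (hyV : (⇑y : X → ℝ) ∈ V) :
    ∃ n ∈ netw A, y ∈ n ∧ n ⊆ (fun f : C(X, ℝ) => (⇑f : X → ℝ)) ⁻¹' V := by
  classical
  obtain ⟨I, u, hu, hIu⟩ := isOpen_pi_iff.1 hV _ hyV
  -- for each coordinate choose a point of the compact part, and a member of the base
  have key : ∀ x : X, ∃ t : Set (StoneCech X1) × ℚ × ℚ, t.1 ∈ base A ∧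
      (∀ z ∈ t.1, (t.2.1 : ℝ) < y (Sum.inr z) ∧ y (Sum.inr z) < t.2.2) ∧
      ∀ y' ∈ Y m, (∀ z ∈ t.1, (t.2.1 : ℝ) < y' (Sum.inr z) ∧ y' (Sum.inr z) < t.2.2) →
        (x ∈ I → y' x ∈ u x) := by
    intro x
    by_cases hx : x ∈ I
    · obtain ⟨ε, hε, hεu⟩ := Metric.isOpen_iff.1 (hu x hx).1 _ (hu x hx).2
      have h1 : ∃ z0 : StoneCech X1, ∃ δ > 0, ∀ y' ∈ Y m, |y' (Sum.inr z0) - y (Sum.inr z0)| < δ →
          |y' x - y x| < ε := by
        rcases x with ξ | z
        · obtain ⟨δ, hδ, h⟩ := decode m y hym ξ ε hε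
          exact ⟨stoneCechUnit ξ, δ, hδ, h⟩
        · exact ⟨z, ε, hε, fun _ _ h => h⟩
      obtain ⟨z0, δ, hδ, h2⟩ := h1
      obtain ⟨r, hr1, hr2⟩ := exists_rat_btwn (show y (Sum.inr z0) - δ < y (Sum.inr z0) by linarith)
      obtain ⟨s, hs1, hs2⟩ := exists_rat_btwn (show y (Sum.inr z0) < y (Sum.inr z0) + δ by linarith)
      obtain ⟨U, hU, hz0, hUy⟩ := exists_base A y hy z0 r s hr2 hs1
      refine ⟨(U, r, s), hU, hUy, ?_⟩
      intro y' hy' h3 _
      apply hεu
      rw [Metric.mem_ball, Real.dist_eq]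
      apply h2 y' hy'
      have h4 := h3 z0 hz0
      simp only at h4
      rw [abs_lt]
      constructor <;> linarith [h4.1, h4.2]
    · obtain ⟨z0⟩ : Nonempty (StoneCech X1) := ⟨stoneCechUnit (0 : ℝ)⟩
      obtain ⟨r, hr⟩ := exists_rat_lt (y (Sum.inr z0))
      obtain ⟨s, hs⟩ := exists_rat_gt (y (Sum.inr z0))
      obtain ⟨U, hU, hz0, hUy⟩ := exists_base A y hy z0 r s hr hs
      exact ⟨(U, r, s), hU, hUy, fun _ _ _ h => absurd h hx⟩
  choose t ht1 ht2 ht3 using key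
  refine ⟨pbox m (t '' (I : Set X)), ⟨(m, t '' (I : Set X)), ⟨trivial, I.finite_toSet.image t, ?_⟩, rfl⟩,
    ⟨hym, ?_⟩, ?_⟩
  · rintro _ ⟨x, _, rfl⟩
    exact ⟨ht1 x, trivial⟩
  · rintro _ ⟨x, _, rfl⟩
    exact ht2 x
  · rintro y' ⟨hy'm, hy'⟩
    apply hIu
    intro x hx
    exact ht3 x y' hy'm (hy' (t x) ⟨x, hx, rfl⟩) hx

/-- a dense sequence of functions on the reals -/
lemma exists_dense : ∃ w : ℕ → (ℝ → ℝ), ∀ f : ℝ → ℝ, ∀ I : Finset ℝ, ∀ ε > 0, ∃ n, ∀ x ∈ I,
    |w n x - f x| < ε := by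
  refine ⟨fun n => ⇑(TopologicalSpace.denseSeq C(ℝ, ℝ) n), ?_⟩
  intro f I ε hε
  have hI : IsClosed (I : Set ℝ) := I.finite_toSet.isClosed
  have : DiscreteTopology (I : Set ℝ) := I.finite_toSet.isDiscrete.to_subtype
  obtain ⟨F, hF⟩ := ContinuousMap.exists_restrict_eq hI
    (⟨fun z : (I : Set ℝ) => f z.1, continuous_of_discreteTopology⟩ : C((I : Set ℝ), ℝ))
  have hFI : ∀ i ∈ I, F i = f i := by
    intro i hi
    exact congrArg (fun φ : C((I : Set ℝ), ℝ) => φ ⟨i, hi⟩) hF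
  have hO : IsOpen {φ : C(ℝ, ℝ) | ∀ i ∈ I, |φ i - f i| < ε} := by
    have : {φ : C(ℝ, ℝ) | ∀ i ∈ I, |φ i - f i| < ε} =
        ⋂ i ∈ I, {φ : C(ℝ, ℝ) | |φ i - f i| < ε} := by
      ext φ; simp
    rw [this]
    apply isOpen_biInter_finset
    intro i _
    exact isOpen_lt (by have := continuous_eval_const (F := C(ℝ, ℝ)) i; fun_prop) continuous_const
  obtain ⟨φ, hφ, j, hj⟩ := (TopologicalSpace.denseRange_denseSeq C(ℝ, ℝ)).inter_open_nonempty _ hO
    ⟨F, fun i hi => by rw [hFI i hi]; simpa using hε⟩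
  refine ⟨j, fun x hx => ?_⟩
  show |(TopologicalSpace.denseSeq C(ℝ, ℝ) j) x - f x| < ε
  rw [hj]
  exact hφ x hx

/-- The negation of the preceding statement: For every Tychonoff X: if C_p(X) has a uniformly dense subspace that is monotonically ω-monolithic (countable monotone σ-continuous external networks on closures of countable sets), then C_p(X) itself is monotonically ω-monolithic. -/
theorem result :
    ¬ (∀ (X : Type) [TopologicalSpace X] [T35Space X] (D : Set C(X, ℝ)),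
      (∀ f : C(X, ℝ), ∀ ε : ℝ, 0 < ε → ∃ g ∈ D, ∀ x : X, |f x - g x| < ε) →
      (∃ N : Set C(X, ℝ) → Set (Set C(X, ℝ)),
        (∀ A : Set C(X, ℝ), A ⊆ D → A.Countable →
          (N A).Countable ∧ (∀ n ∈ N A, n ⊆ D) ∧
          ∀ y ∈ D,
            y ∈ @closure _ (TopologicalSpace.induced (fun f : C(X, ℝ) => (⇑f : X → ℝ)) inferInstance) A →
            ∀ U : Set C(X, ℝ),
              @IsOpen _ (TopologicalSpace.induced (fun f : C(X, ℝ) => (⇑f : X → ℝ)) inferInstance) U →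
              y ∈ U → ∃ n ∈ N A, y ∈ n ∧ n ⊆ U) ∧
        (∀ A B : Set C(X, ℝ), A ⊆ B → B ⊆ D → B.Countable → N A ⊆ N B) ∧
        (∀ A : ℕ → Set C(X, ℝ), Monotone A → (∀ k, A k ⊆ D ∧ (A k).Countable) →
          N (⋃ k, A k) = ⋃ k, N (A k))) →
      (∃ N : Set C(X, ℝ) → Set (Set C(X, ℝ)),
        (∀ A : Set C(X, ℝ), A.Countable →
          (N A).Countable ∧
          ∀ y : C(X, ℝ),
            y ∈ @closure _ (TopologicalSpace.induced (fun f : C(X, ℝ) => (⇑f : X → ℝ)) inferInstance) A →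
            ∀ U : Set C(X, ℝ),
              @IsOpen _ (TopologicalSpace.induced (fun f : C(X, ℝ) => (⇑f : X → ℝ)) inferInstance) U →
              y ∈ U → ∃ n ∈ N A, y ∈ n ∧ n ⊆ U) ∧
        (∀ A B : Set C(X, ℝ), A ⊆ B → B.Countable → N A ⊆ N B) ∧
        (∀ A : ℕ → Set C(X, ℝ), Monotone A → (∀ k, (A k).Countable) →
          N (⋃ k, A k) = ⋃ k, N (A k)))) := by
  intro H
  refine absurd (H X (⋃ m, Y m) ?_ ⟨netw, ?_, ?_, ?_⟩) ?_
  rotate_left 4
  · -- the contradiction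
    rintro ⟨N, hN, _⟩
    obtain ⟨w, hw⟩ := exists_dense
    let a : ℕ → C(X, ℝ) := fun n => ⟨Sum.elim (w n) (fun _ => 0),
      (continuous_of_discreteTopology (α := X1)).sumElim continuous_const⟩
    classical
    let b : ℝ → C(X, ℝ) := fun ξ => ⟨Sum.elim (fun η : X1 => if (η : ℝ) = ξ then (1 : ℝ) else 0) (fun _ => 0),
      (continuous_of_discreteTopology (α := X1)).sumElim continuous_const⟩
    obtain ⟨hNc, hNn⟩ := hN (Set.range a) (Set.countable_range a)
    have hb : ∀ ξ : ℝ, ∃ n ∈ N (Set.range a), b ξ ∈ n ∧ ∀ y ∈ n, (1 / 2 : ℝ) < y (Sum.inl ξ) := by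
      intro ξ
      obtain ⟨n, hn, hbn, hsub⟩ := hNn (b ξ) (by
        rw [closure_induced, mem_closure_iff]
        intro V hV hbV
        obtain ⟨I, u, hu, hIu⟩ := isOpen_pi_iff.1 hV _ hbV
        have hε : ∃ ε > 0, ∀ x ∈ I, Metric.ball (b ξ x) ε ⊆ u x := by
          have : ∀ x : X, ∃ ε > 0, x ∈ I → Metric.ball (b ξ x) ε ⊆ u x := by
            intro x
            by_cases hx : x ∈ I
            · obtain ⟨ε, hε, h⟩ := Metric.isOpen_iff.1 (hu x hx).1 _ (hu x hx).2
              exact ⟨ε, hε, fun _ => h⟩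
            · exact ⟨1, one_pos, fun h => absurd h hx⟩
          choose e he hes using this
          rcases I.eq_empty_or_nonempty with rfl | hJ
          · exact ⟨1, one_pos, by simp⟩
          · refine ⟨I.inf' hJ e, ?_, ?_⟩
            · rw [gt_iff_lt, Finset.lt_inf'_iff]
              intro y _
              exact he y
            · intro y hy
              exact (Metric.ball_subset_ball (Finset.inf'_le _ hy)).trans (hes y hy)
        obtain ⟨ε, hε, hεu⟩ := hε
        have hJ : ∃ J : Finset ℝ, ∀ η : X1, (Sum.inl η : X) ∈ I → (η : ℝ) ∈ J :=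
          ⟨(I.preimage (Sum.inl : X1 → X) (Sum.inl_injective.injOn) : Finset X1),
            fun η hη => Finset.mem_preimage.2 hη⟩
        obtain ⟨J, hJ⟩ := hJ
        obtain ⟨j, hj⟩ := hw (fun η => if η = ξ then (1 : ℝ) else 0) J ε hε
        refine ⟨⇑(a j), hIu ?_, ⟨a j, ⟨j, rfl⟩, rfl⟩⟩
        rintro (η | z) hx
        · apply hεu _ hx
          rw [Metric.mem_ball, Real.dist_eq]
          exact hj η (hJ η hx)
        · exact (hu _ hx).2) ((fun f : C(X, ℝ) => (⇑f : X → ℝ)) ⁻¹' {g : X → ℝ | (1 / 2 : ℝ) < g (Sum.inl ξ)})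
        (isOpen_induced_iff.2 ⟨{g : X → ℝ | (1 / 2 : ℝ) < g (Sum.inl ξ)},
          isOpen_lt continuous_const (continuous_apply _), rfl⟩)
        (by
          show (1 / 2 : ℝ) < if (ξ : ℝ) = ξ then (1 : ℝ) else 0
          rw [if_pos rfl]
          norm_num)
      exact ⟨n, hn, hbn, fun y hy => hsub hy⟩
    choose n hn hbn hsub using hb
    have hinj : Function.Injective (fun ξ : ℝ => (⟨n ξ, hn ξ⟩ : N (Set.range a))) := by
      intro ξ η h
      have h1 : n ξ = n η := Subtype.ext_iff.1 h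
      have h2 : b ξ ∈ n η := h1 ▸ hbn ξ
      have h3 : (1 / 2 : ℝ) < if (η : ℝ) = ξ then (1 : ℝ) else 0 := hsub η (b ξ) h2
      by_contra hne
      rw [if_neg (fun h => hne h.symm)] at h3
      norm_num at h3
    have : Countable (N (Set.range a)) := hNc.to_subtype
    exact not_countable (α := ℝ) hinj.countable
  · intro f ε hε
    obtain ⟨m, g, hg, h⟩ := unif_dense f ε hε
    exact ⟨g, Set.mem_iUnion.2 ⟨m, hg⟩, h⟩
  · intro A hAD hA
    refine ⟨netw_countable A hA, ?_, ?_⟩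
    · rintro _ ⟨⟨m, F⟩, _, rfl⟩ y hy
      exact Set.mem_iUnion.2 ⟨m, hy.1⟩
    · intro y hyD hyA U hU hyU
      obtain ⟨m, hm⟩ := Set.mem_iUnion.1 hyD
      rw [closure_induced] at hyA
      obtain ⟨V, hV, rfl⟩ := isOpen_induced_iff.1 hU
      exact netw_spec A m y hm hyA V hV hyU
  · intro A B hAB _ _
    exact netw_mono hAB
  · intro A hA _
    exact netw_union A hA

end Pool.Agent.S08344
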