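import Pool.Statements.S08345
-- import your own Pool.Agent.* helpers here
import Pool.Agent.Helper499.HD.Fin

set_option autoImplicit false
open Pool Pool.MP_45a7b9_gt

namespace Pool.Agent.S08345

/-- Every compact connected metric space with more than one point, that is homogeneous and in which every nondegenerate subcontinuum is a union of two proper subcontinua, is homeomorphic to the unit circle. -/
theorem result :
    ∀ (X : Type) [MetricSpace X] [CompactSpace X] [ConnectedSpace X] [Nontrivial X],
      (∀ x y : X, ∃ h : X ≃ₜ X, h x = y) →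
      (∀ K : Set X, IsClosed K → IsConnected K → K.Nontrivial →
        ∃ A B : Set X, IsClosed A ∧ IsConnected A ∧ IsClosed B ∧ IsConnected B ∧
          A ⊂ K ∧ B ⊂ K ∧ A ∪ B = K) →
      Nonempty (X ≃ₜ Circle) := by
  intro X _ _ _ _ hom h
  apply Pool.Agent.Helper499.HD.circle_of_homog hom
  intro K hK hnt
  obtain ⟨A, B, h1, h2, h3, h4, h5, h6, h7⟩ := h K hK.1 hK.2 hnt
  exact ⟨A, B, ⟨h1, h2⟩, ⟨h3, h4⟩, h5, h6, h7⟩

end Pool.Agent.S08345
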