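import Pool.Statements.S08352

set_option autoImplicit false
open MeasureTheory
open scoped ENNReal Pointwise
open Pool Pool.MP_46ea74_gt

namespace Pool.Agent.S08352

/-- The Euclidean plane. -/
abbrev E2 := EuclideanSpace ℝ (Fin 2)

/-- The set of unit outer normals of `C` at `x`. -/
def nrm (C : Set E2) (x : E2) : Set E2 :=
  {u : E2 | ‖u‖ = 1 ∧ ∀ y ∈ C, inner ℝ y u ≤ inner ℝ x u}

/-- The integrand for `p = 1/2`. -/
noncomputable def dens (C : Set E2) (x : E2) : ℝ≥0∞ :=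
  ENNReal.ofReal (sSup ((fun u : E2 => (inner ℝ x u : ℝ) ^ (1 - (1 / 2 : ℝ))) '' nrm C x))

lemma inner_eq (x u : E2) : inner ℝ x u = x 0 * u 0 + x 1 * u 1 := by
  simp [PiLp.inner_apply, Fin.sum_univ_two]
  ring

lemma norm_eq_one_iff (u : E2) : ‖u‖ = 1 ↔ u 0 ^ 2 + u 1 ^ 2 = 1 := by
  rw [EuclideanSpace.norm_eq, Fin.sum_univ_two]
  simp [Real.sqrt_eq_one]

lemma dens_le (C : Set E2) (x : E2) (c : ℝ) (h0 : (0 : E2) ∈ C) 
    (h : ∀ u ∈ nrm C x, inner ℝ x u ≤ c) : dens C x ≤ ENNReal.ofReal (Real.sqrt c) := by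
  unfold dens
  apply ENNReal.ofReal_le_ofReal
  apply Real.sSup_le
  · rintro _ ⟨u, hu, rfl⟩
    have h1 : 0 ≤ (inner ℝ x u : ℝ) := by
      have := hu.2 0 h0
      simpa using this
    have h2 := h u hu
    rw [Real.sqrt_eq_rpow]
    have : (1 - (1 / 2 : ℝ)) = 1 / 2 := by norm_num
    simp only [this]
    exact Real.rpow_le_rpow h1 h2 (by norm_num)
  · exact Real.sqrt_nonneg _

lemma inner_le_norm (C : Set E2) (x u : E2) (hu : u ∈ nrm C x) : (inner ℝ x u : ℝ) ≤ ‖x‖ := by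
  have := real_inner_le_norm x u
  rw [hu.1, mul_one] at this
  exact this

lemma le_dens (C : Set E2) (x u : E2) (h0 : (0 : E2) ∈ C) (hu : u ∈ nrm C x) :
    ENNReal.ofReal (Real.sqrt (inner ℝ x u)) ≤ dens C x := by
  unfold dens
  apply ENNReal.ofReal_le_ofReal
  apply le_csSup
  · refine ⟨Real.sqrt ‖x‖, ?_⟩
    rintro _ ⟨v, hv, rfl⟩
    have h1 : 0 ≤ (inner ℝ x v : ℝ) := by
      have := hv.2 0 h0
      simpa using this
    rw [Real.sqrt_eq_rpow]
    have : (1 - (1 / 2 : ℝ)) = 1 / 2 := by norm_num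
    simp only [this]
    exact Real.rpow_le_rpow h1 (inner_le_norm C x v hv) (by norm_num)
  · refine ⟨u, hu, ?_⟩
    have : (1 - (1 / 2 : ℝ)) = 1 / 2 := by norm_num
    simp only [this]
    rw [Real.sqrt_eq_rpow]

lemma mem_frontier_of_normal (C : Set E2) (x u : E2) (hx : x ∈ C) (hu : u ∈ nrm C x) :
    x ∈ frontier C := by
  refine ⟨subset_closure hx, ?_⟩
  intro hint
  rw [mem_interior_iff_mem_nhds, Metric.mem_nhds_iff] at hint
  obtain ⟨ε, hε, hb⟩ := hint
  have hy : x + (ε / 2) • u ∈ C := by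
    apply hb
    rw [Metric.mem_ball, dist_eq_norm]
    simp only [add_sub_cancel_left, norm_smul, hu.1, Real.norm_eq_abs, mul_one]
    rw [abs_of_pos (by linarith)]
    linarith
  have := hu.2 _ hy
  rw [inner_add_left, inner_smul_left, real_inner_self_eq_norm_sq, hu.1] at this
  simp at this
  linarith

lemma normal_of_openSegment (M : Set E2) (A B x u : E2) (hA : A ∈ M) (hB : B ∈ M)
    (hx : x ∈ openSegment ℝ A B) (hu : u ∈ nrm M x) :
    (inner ℝ A u : ℝ) = inner ℝ x u ∧ (inner ℝ B u : ℝ) = inner ℝ x u := by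
  obtain ⟨a, b, ha, hb, hab, rfl⟩ := hx
  have h1 := hu.2 A hA
  have h2 := hu.2 B hB
  rw [inner_add_left, inner_smul_left, inner_smul_left] at h1 h2 ⊢
  simp only [conj_trivial] at h1 h2 ⊢
  have hb' : b = 1 - a := by linarith
  subst hb'
  have e : (inner ℝ A u : ℝ) = inner ℝ B u := by
    apply le_antisymm
    · nlinarith
    · nlinarith
  rw [e]
  constructor <;> ring

lemma seg_bound (M : Set E2) (A B : E2) (c : ℝ) (h0 : (0 : E2) ∈ M) (hA : A ∈ M) (hB : B ∈ M)
    (h : ∀ u : E2, ‖u‖ = 1 → (inner ℝ A u : ℝ) = inner ℝ B u → (inner ℝ A u : ℝ) ≤ c) :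
    ∫⁻ x in segment ℝ A B, dens M x ∂(Measure.hausdorffMeasure 1) ≤
      ENNReal.ofReal (Real.sqrt c) * edist A B := by
  have hns : NullSingletonClass (Measure.hausdorffMeasure 1 : Measure E2) :=
    Measure.nullSingletonClass_hausdorff E2 (by norm_num)
  have hnull : (Measure.hausdorffMeasure 1 : Measure E2) {A, B} = 0 :=
    (Set.toFinite {A, B}).measure_zero _
  have hm : MeasurableSet (segment ℝ A B) := by
    have : IsClosed (segment ℝ A B) := by
      rw [segment_eq_image_lineMap]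
      exact (isCompact_Icc.image (by fun_prop)).isClosed
    exact this.measurableSet
  calc ∫⁻ x in segment ℝ A B, dens M x ∂(Measure.hausdorffMeasure 1)
      ≤ ∫⁻ x in segment ℝ A B, ENNReal.ofReal (Real.sqrt c) ∂(Measure.hausdorffMeasure 1) := by
        apply lintegral_mono_ae
        rw [ae_restrict_iff' hm]
        have hae : ∀ᵐ x ∂(Measure.hausdorffMeasure 1 : Measure E2), x ∉ ({A, B} : Set E2) :=
          measure_eq_zero_iff_ae_notMem.mp hnull
        filter_upwards [hae] with x hx hxs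
        have hxo : x ∈ openSegment ℝ A B := by
          apply mem_openSegment_of_ne_left_right _ _ hxs
          · intro h; apply hx; simp [h]
          · intro h; apply hx; simp [h]
        apply dens_le M x c h0
        intro u hu
        have := normal_of_openSegment M A B x u hA hB hxo hu
        rw [← this.1]
        exact h u hu.1 (by rw [this.1, this.2])
    _ = ENNReal.ofReal (Real.sqrt c) * edist A B := by
        rw [setLIntegral_const, hausdorffMeasure_segment]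

/-- The trapezoid `(0,0), (20σ,0), (40σ,1), (0,1)`. -/
def Kσ (σ : ℝ) : Set E2 := {x | 0 ≤ σ * x 0 ∧ σ * x 0 ≤ 20 + 20 * x 1 ∧ 0 ≤ x 1 ∧ x 1 ≤ 1}

/-- The hexagon which is the Minkowski sum of the two trapezoids. -/
def Mh : Set E2 :=
  {x | x 0 ≤ 20 + 20 * x 1 ∧ -(x 0) ≤ 20 + 20 * x 1 ∧ 0 ≤ x 1 ∧ x 1 ≤ 2 ∧ x 0 ≤ 40 ∧ -(x 0) ≤ 40}

lemma isClosed_K (σ : ℝ) : IsClosed (Kσ σ) := by
  have a1 : IsClosed {x : E2 | 0 ≤ σ * x 0} := isClosed_le (by fun_prop) (by fun_prop)
  have a2 : IsClosed {x : E2 | σ * x 0 ≤ 20 + 20 * x 1} := isClosed_le (by fun_prop) (by fun_prop)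
  have a3 : IsClosed {x : E2 | 0 ≤ x 1} := isClosed_le (by fun_prop) (by fun_prop)
  have a4 : IsClosed {x : E2 | x 1 ≤ 1} := isClosed_le (by fun_prop) (by fun_prop)
  exact a1.inter (a2.inter (a3.inter a4))

lemma isClosed_M : IsClosed Mh := by
  have a1 : IsClosed {x : E2 | x 0 ≤ 20 + 20 * x 1} := isClosed_le (by fun_prop) (by fun_prop)
  have a2 : IsClosed {x : E2 | -(x 0) ≤ 20 + 20 * x 1} := isClosed_le (by fun_prop) (by fun_prop)
  have a3 : IsClosed {x : E2 | 0 ≤ x 1} := isClosed_le (by fun_prop) (by fun_prop)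
  have a4 : IsClosed {x : E2 | x 1 ≤ 2} := isClosed_le (by fun_prop) (by fun_prop)
  have a5 : IsClosed {x : E2 | x 0 ≤ 40} := isClosed_le (by fun_prop) (by fun_prop)
  have a6 : IsClosed {x : E2 | -(x 0) ≤ 40} := isClosed_le (by fun_prop) (by fun_prop)
  exact a1.inter (a2.inter (a3.inter (a4.inter (a5.inter a6))))

lemma norm_le_of_mem_K (σ : ℝ) (hσ : σ ^ 2 = 1) (x : E2) (hx : x ∈ Kσ σ) : ‖x‖ ≤ 50 := by
  obtain ⟨h1, h2, h3, h4⟩ := hx
  rw [EuclideanSpace.norm_eq, Fin.sum_univ_two]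
  apply Real.sqrt_le_iff.mpr
  constructor
  · norm_num
  · simp only [Real.norm_eq_abs, sq_abs]
    have : (x 0) ^ 2 = (σ * x 0) ^ 2 := by rw [mul_pow, hσ, one_mul]
    rw [this]
    nlinarith

lemma isCompact_K (σ : ℝ) (hσ : σ ^ 2 = 1) : IsCompact (Kσ σ) := by
  apply Metric.isCompact_of_isClosed_isBounded (isClosed_K σ)
  rw [isBounded_iff_forall_norm_le]
  exact ⟨50, fun x hx => norm_le_of_mem_K σ hσ x hx⟩

lemma convex_K (σ : ℝ) : Convex ℝ (Kσ σ) := by
  intro x hx y hy a b ha hb hab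
  obtain ⟨h1, h2, h3, h4⟩ := hx
  obtain ⟨g1, g2, g3, g4⟩ := hy
  have hb' : b = 1 - a := by linarith
  subst hb'
  refine ⟨?_, ?_, ?_, ?_⟩ <;> simp only [PiLp.add_apply, PiLp.smul_apply, smul_eq_mul] <;> nlinarith

lemma zero_mem_K (σ : ℝ) : (0 : E2) ∈ Kσ σ := by
  refine ⟨?_, ?_, ?_, ?_⟩ <;> simp

lemma zero_mem_M : (0 : E2) ∈ Mh := by
  refine ⟨?_, ?_, ?_, ?_, ?_, ?_⟩ <;> simp

lemma interior_K (σ : ℝ) (x : E2) (h1 : 0 < σ * x 0) (h2 : σ * x 0 < 20 + 20 * x 1)
    (h3 : 0 < x 1) (h4 : x 1 < 1) : x ∈ interior (Kσ σ) := by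
  have ho : IsOpen {x : E2 | 0 < σ * x 0 ∧ σ * x 0 < 20 + 20 * x 1 ∧ 0 < x 1 ∧ x 1 < 1} := by
    have a1 : IsOpen {x : E2 | 0 < σ * x 0} := isOpen_lt (by fun_prop) (by fun_prop)
    have a2 : IsOpen {x : E2 | σ * x 0 < 20 + 20 * x 1} := isOpen_lt (by fun_prop) (by fun_prop)
    have a3 : IsOpen {x : E2 | 0 < x 1} := isOpen_lt (by fun_prop) (by fun_prop)
    have a4 : IsOpen {x : E2 | x 1 < 1} := isOpen_lt (by fun_prop) (by fun_prop)
    exact a1.inter (a2.inter (a3.inter a4))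
  have hs : {x : E2 | 0 < σ * x 0 ∧ σ * x 0 < 20 + 20 * x 1 ∧ 0 < x 1 ∧ x 1 < 1} ⊆ Kσ σ := by
    rintro y ⟨a, b, c, d⟩
    exact ⟨a.le, b.le, c.le, d.le⟩
  exact interior_maximal hs ho ⟨h1, h2, h3, h4⟩

lemma interior_M (x : E2) (h1 : x 0 < 20 + 20 * x 1) (h2 : -(x 0) < 20 + 20 * x 1)
    (h3 : 0 < x 1) (h4 : x 1 < 2) (h5 : x 0 < 40) (h6 : -(x 0) < 40) : x ∈ interior Mh := by
  have ho : IsOpen {x : E2 | x 0 < 20 + 20 * x 1 ∧ -(x 0) < 20 + 20 * x 1 ∧ 0 < x 1 ∧ x 1 < 2 ∧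
      x 0 < 40 ∧ -(x 0) < 40} := by
    have a1 : IsOpen {x : E2 | x 0 < 20 + 20 * x 1} := isOpen_lt (by fun_prop) (by fun_prop)
    have a2 : IsOpen {x : E2 | -(x 0) < 20 + 20 * x 1} := isOpen_lt (by fun_prop) (by fun_prop)
    have a3 : IsOpen {x : E2 | 0 < x 1} := isOpen_lt (by fun_prop) (by fun_prop)
    have a4 : IsOpen {x : E2 | x 1 < 2} := isOpen_lt (by fun_prop) (by fun_prop)
    have a5 : IsOpen {x : E2 | x 0 < 40} := isOpen_lt (by fun_prop) (by fun_prop)
    have a6 : IsOpen {x : E2 | -(x 0) < 40} := isOpen_lt (by fun_prop) (by fun_prop)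
    exact a1.inter (a2.inter (a3.inter (a4.inter (a5.inter a6))))
  have hs : {x : E2 | x 0 < 20 + 20 * x 1 ∧ -(x 0) < 20 + 20 * x 1 ∧ 0 < x 1 ∧ x 1 < 2 ∧
      x 0 < 40 ∧ -(x 0) < 40} ⊆ Mh := by
    rintro y ⟨a, b, c, d, e, f⟩
    exact ⟨a.le, b.le, c.le, d.le, e.le, f.le⟩
  exact interior_maximal hs ho ⟨h1, h2, h3, h4, h5, h6⟩

lemma interior_K_nonempty (σ : ℝ) (hσ : σ ^ 2 = 1) : (interior (Kσ σ)).Nonempty := by
  refine ⟨!₂[σ, 1 / 2], interior_K σ _ ?_ ?_ ?_ ?_⟩
  · simp; nlinarith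
  · simp; nlinarith
  · simp
  · simp; norm_num

lemma mem_seg (A B : E2) (x : E2) (t : ℝ) (h0 : 0 ≤ t) (h1 : t ≤ 1)
    (hx0 : x 0 = (1 - t) * A 0 + t * B 0) (hx1 : x 1 = (1 - t) * A 1 + t * B 1) :
    x ∈ segment ℝ A B := by
  refine ⟨1 - t, t, by linarith, h0, by ring, ?_⟩
  ext i
  fin_cases i
  · simp [hx0]
  · simp [hx1]

lemma sum_eq : Kσ 1 + Kσ (-1) = Mh := by
  ext x
  constructor
  · rintro ⟨k, ⟨a1, a2, a3, a4⟩, l, ⟨b1, b2, b3, b4⟩, rfl⟩
    refine ⟨?_, ?_, ?_, ?_, ?_, ?_⟩ <;> simp only [PiLp.add_apply] <;> nlinarith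
  · rintro ⟨h1, h2, h3, h4, h5, h6⟩
    rcases le_total 0 (x 0) with hx | hx
    · refine ⟨!₂[x 0, min (x 1) 1], ?_, !₂[0, x 1 - min (x 1) 1], ?_, ?_⟩
      · refine ⟨by simpa using hx, ?_, ?_, ?_⟩
        · simp
          rcases le_total (x 1) 1 with h | h
          · rw [min_eq_left h]; linarith
          · rw [min_eq_right h]; linarith
        · simp; exact h3
        · simp
      · refine ⟨by simp, ?_, ?_, ?_⟩
        · simp
          rcases le_total (x 1) 1 with h | h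
          · rw [min_eq_left h]; linarith
          · rw [min_eq_right h]; linarith
        · simp
        · simp
          rcases le_total (x 1) 1 with h | h
          · rw [min_eq_left h]; linarith
          · rw [min_eq_right h]; linarith
      · ext i
        fin_cases i <;> simp
    · refine ⟨!₂[0, x 1 - min (x 1) 1], ?_, !₂[x 0, min (x 1) 1], ?_, ?_⟩
      · refine ⟨by simp, ?_, ?_, ?_⟩
        · simp
          rcases le_total (x 1) 1 with h | h
          · rw [min_eq_left h]; linarith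
          · rw [min_eq_right h]; linarith
        · simp
        · simp
          rcases le_total (x 1) 1 with h | h
          · rw [min_eq_left h]; linarith
          · rw [min_eq_right h]; linarith
      · refine ⟨by simpa using hx, ?_, ?_, ?_⟩
        · simp
          rcases le_total (x 1) 1 with h | h
          · rw [min_eq_left h]; linarith
          · rw [min_eq_right h]; linarith
        · simp; exact h3
        · simp
      · ext i
        fin_cases i <;> simp

lemma edist_eq (A B : E2) (d : ℝ) (hd : 0 ≤ d) (h : (A 0 - B 0) ^ 2 + (A 1 - B 1) ^ 2 = d ^ 2) :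
    edist A B = ENNReal.ofReal d := by
  rw [edist_dist, EuclideanSpace.dist_eq, Fin.sum_univ_two]
  simp only [Real.dist_eq, sq_abs]
  rw [h, Real.sqrt_sq hd]

lemma frontier_M_sub : frontier Mh ⊆ segment ℝ !₂[-20, 0] !₂[20, 0] ∪
    (segment ℝ !₂[-40, 2] !₂[40, 2] ∪ (segment ℝ !₂[40, 1] !₂[40, 2] ∪
    (segment ℝ !₂[-40, 1] !₂[-40, 2] ∪ (segment ℝ !₂[20, 0] !₂[40, 1] ∪
      segment ℝ !₂[-20, 0] !₂[-40, 1])))) := by
  intro x hx
  have hxM : x ∈ Mh := isClosed_M.frontier_subset hx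
  have hni : x ∉ interior Mh := hx.2
  obtain ⟨h1, h2, h3, h4, h5, h6⟩ := hxM
  rcases eq_or_lt_of_le h3 with e3 | l3
  · left
    apply mem_seg _ _ _ ((x 0 + 20) / 40)
    · linarith
    · linarith
    · simp; ring
    · simp; exact e3.symm
  right
  rcases eq_or_lt_of_le h4 with e4 | l4
  · left
    apply mem_seg _ _ _ ((x 0 + 40) / 80)
    · linarith
    · linarith
    · simp; ring
    · simp; linarith
  right
  rcases eq_or_lt_of_le h5 with e5 | l5
  · left
    apply mem_seg _ _ _ (x 1 - 1)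
    · linarith
    · linarith
    · simp; linarith
    · simp; ring
  right
  rcases eq_or_lt_of_le h6 with e6 | l6
  · left
    apply mem_seg _ _ _ (x 1 - 1)
    · linarith
    · linarith
    · simp; linarith
    · simp; ring
  right
  rcases eq_or_lt_of_le h1 with e1 | l1
  · left
    apply mem_seg _ _ _ (x 1)
    · linarith
    · linarith
    · simp; linarith
    · simp
  rcases eq_or_lt_of_le h2 with e2 | l2
  · right
    apply mem_seg _ _ _ (x 1)
    · linarith
    · linarith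
    · simp; linarith
    · simp
  exact absurd (interior_M x l1 l2 l3 l4 l5 l6) hni

lemma frontier_K_sub (σ : ℝ) (hσ : σ ^ 2 = 1) : frontier (Kσ σ) ⊆
    segment ℝ !₂[0, 0] !₂[20 * σ, 0] ∪ (segment ℝ !₂[0, 1] !₂[40 * σ, 1] ∪
    (segment ℝ !₂[0, 0] !₂[0, 1] ∪ segment ℝ !₂[20 * σ, 0] !₂[40 * σ, 1])) := by
  intro x hx
  have hxM : x ∈ Kσ σ := (isClosed_K σ).frontier_subset hx
  have hni : x ∉ interior (Kσ σ) := hx.2
  obtain ⟨h1, h2, h3, h4⟩ := hxM
  have key : x 0 = σ * (σ * x 0) := by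
    rw [← mul_assoc, ← pow_two, hσ, one_mul]
  rcases eq_or_lt_of_le h3 with e3 | l3
  · left
    apply mem_seg _ _ _ ((σ * x 0) / 20)
    · linarith
    · linarith
    · simp; linarith
    · simp; exact e3.symm
  right
  rcases eq_or_lt_of_le h4 with e4 | l4
  · left
    apply mem_seg _ _ _ ((σ * x 0) / 40)
    · linarith
    · linarith
    · simp; linarith
    · simp; linarith
  right
  rcases eq_or_lt_of_le h1 with e1 | l1
  · left
    apply mem_seg _ _ _ (x 1)
    · linarith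
    · linarith
    · simp; rw [key, ← e1]; simp
    · simp
  rcases eq_or_lt_of_le h2 with e2 | l2
  · right
    apply mem_seg _ _ _ (x 1)
    · linarith
    · linarith
    · simp; rw [key, e2]; ring
    · simp
  exact absurd (interior_K σ x l1 l2 l3 l4) hni

lemma fin_K (σ : ℝ) (hσ : σ ^ 2 = 1) :
    ∫⁻ x in frontier (Kσ σ), dens (Kσ σ) x ∂(Measure.hausdorffMeasure 1) ≠ ⊤ := by
  have hfin : (Measure.hausdorffMeasure 1 : Measure E2) (frontier (Kσ σ)) ≠ ⊤ := by
    apply ne_top_of_le_ne_top _ (measure_mono (frontier_K_sub σ hσ))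
    apply ne_top_of_le_ne_top _ (measure_union_le _ _)
    apply ENNReal.add_ne_top.mpr ⟨by rw [hausdorffMeasure_segment]; exact edist_ne_top _ _, ?_⟩
    apply ne_top_of_le_ne_top _ (measure_union_le _ _)
    apply ENNReal.add_ne_top.mpr ⟨by rw [hausdorffMeasure_segment]; exact edist_ne_top _ _, ?_⟩
    apply ne_top_of_le_ne_top _ (measure_union_le _ _)
    apply ENNReal.add_ne_top.mpr ⟨by rw [hausdorffMeasure_segment]; exact edist_ne_top _ _,
      by rw [hausdorffMeasure_segment]; exact edist_ne_top _ _⟩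
  have hle : ∫⁻ x in frontier (Kσ σ), dens (Kσ σ) x ∂(Measure.hausdorffMeasure 1) ≤
      ∫⁻ x in frontier (Kσ σ), ENNReal.ofReal (Real.sqrt 50) ∂(Measure.hausdorffMeasure 1) := by
    apply setLIntegral_mono' isClosed_frontier.measurableSet
    intro x hx
    apply dens_le _ _ _ (zero_mem_K σ)
    intro u hu
    exact (inner_le_norm _ _ _ hu).trans
      (norm_le_of_mem_K σ hσ x ((isClosed_K σ).frontier_subset hx))
  rw [setLIntegral_const] at hle
  exact ne_top_of_le_ne_top (ENNReal.mul_ne_top ENNReal.ofReal_ne_top hfin) hle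

lemma upper_M : ∫⁻ x in frontier Mh, dens Mh x ∂(Measure.hausdorffMeasure 1) ≤
    ENNReal.ofReal 168 := by
  have b1 : ∫⁻ x in segment ℝ !₂[-20, 0] !₂[20, 0], dens Mh x ∂(Measure.hausdorffMeasure 1) ≤
      ENNReal.ofReal (Real.sqrt 0) * edist (!₂[-20, 0] : E2) !₂[20, 0] := by
    apply seg_bound _ _ _ _ zero_mem_M
    · refine ⟨?_, ?_, ?_, ?_, ?_, ?_⟩ <;> simp <;> norm_num
    · refine ⟨?_, ?_, ?_, ?_, ?_, ?_⟩ <;> simp <;> norm_num
    · intro u hu he
      rw [inner_eq, inner_eq] at he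
      rw [inner_eq]
      simp at he ⊢
      linarith
  have b2 : ∫⁻ x in segment ℝ !₂[-40, 2] !₂[40, 2], dens Mh x ∂(Measure.hausdorffMeasure 1) ≤
      ENNReal.ofReal (Real.sqrt 2) * edist (!₂[-40, 2] : E2) !₂[40, 2] := by
    apply seg_bound _ _ _ _ zero_mem_M
    · refine ⟨?_, ?_, ?_, ?_, ?_, ?_⟩ <;> simp <;> norm_num
    · refine ⟨?_, ?_, ?_, ?_, ?_, ?_⟩ <;> simp <;> norm_num
    · intro u hu he
      rw [norm_eq_one_iff] at hu
      rw [inner_eq, inner_eq] at he
      rw [inner_eq]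
      simp at he ⊢
      have : u 0 = 0 := by linarith
      rw [this] at hu ⊢
      nlinarith
  have b3 : ∫⁻ x in segment ℝ !₂[40, 1] !₂[40, 2], dens Mh x ∂(Measure.hausdorffMeasure 1) ≤
      ENNReal.ofReal (Real.sqrt 40) * edist (!₂[40, 1] : E2) !₂[40, 2] := by
    apply seg_bound _ _ _ _ zero_mem_M
    · refine ⟨?_, ?_, ?_, ?_, ?_, ?_⟩ <;> simp <;> norm_num
    · refine ⟨?_, ?_, ?_, ?_, ?_, ?_⟩ <;> simp <;> norm_num
    · intro u hu he
      rw [norm_eq_one_iff] at hu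
      rw [inner_eq, inner_eq] at he
      rw [inner_eq]
      simp at he ⊢
      have : u 1 = 0 := by linarith
      rw [this] at hu ⊢
      nlinarith
  have b4 : ∫⁻ x in segment ℝ !₂[-40, 1] !₂[-40, 2], dens Mh x ∂(Measure.hausdorffMeasure 1) ≤
      ENNReal.ofReal (Real.sqrt 40) * edist (!₂[-40, 1] : E2) !₂[-40, 2] := by
    apply seg_bound _ _ _ _ zero_mem_M
    · refine ⟨?_, ?_, ?_, ?_, ?_, ?_⟩ <;> simp <;> norm_num
    · refine ⟨?_, ?_, ?_, ?_, ?_, ?_⟩ <;> simp <;> norm_num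
    · intro u hu he
      rw [norm_eq_one_iff] at hu
      rw [inner_eq, inner_eq] at he
      rw [inner_eq]
      simp at he ⊢
      have : u 1 = 0 := by linarith
      rw [this] at hu ⊢
      nlinarith
  have b5 : ∫⁻ x in segment ℝ !₂[20, 0] !₂[40, 1], dens Mh x ∂(Measure.hausdorffMeasure 1) ≤
      ENNReal.ofReal (Real.sqrt 1) * edist (!₂[20, 0] : E2) !₂[40, 1] := by
    apply seg_bound _ _ _ _ zero_mem_M
    · refine ⟨?_, ?_, ?_, ?_, ?_, ?_⟩ <;> simp <;> norm_num
    · refine ⟨?_, ?_, ?_, ?_, ?_, ?_⟩ <;> simp <;> norm_num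
    · intro u hu he
      rw [norm_eq_one_iff] at hu
      rw [inner_eq, inner_eq] at he
      rw [inner_eq]
      simp at he ⊢
      have : u 1 = -20 * u 0 := by linarith
      rw [this] at hu
      nlinarith
  have b6 : ∫⁻ x in segment ℝ !₂[-20, 0] !₂[-40, 1], dens Mh x ∂(Measure.hausdorffMeasure 1) ≤
      ENNReal.ofReal (Real.sqrt 1) * edist (!₂[-20, 0] : E2) !₂[-40, 1] := by
    apply seg_bound _ _ _ _ zero_mem_M
    · refine ⟨?_, ?_, ?_, ?_, ?_, ?_⟩ <;> simp <;> norm_num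
    · refine ⟨?_, ?_, ?_, ?_, ?_, ?_⟩ <;> simp <;> norm_num
    · intro u hu he
      rw [norm_eq_one_iff] at hu
      rw [inner_eq, inner_eq] at he
      rw [inner_eq]
      simp at he ⊢
      have : u 1 = 20 * u 0 := by linarith
      rw [this] at hu
      nlinarith
  have e2 : edist (!₂[-40, 2] : E2) !₂[40, 2] = ENNReal.ofReal 80 := by
    apply edist_eq _ _ _ (by norm_num); simp; norm_num
  have e3 : edist (!₂[40, 1] : E2) !₂[40, 2] = ENNReal.ofReal 1 := by
    apply edist_eq _ _ _ (by norm_num); simp; norm_num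
  have e4 : edist (!₂[-40, 1] : E2) !₂[-40, 2] = ENNReal.ofReal 1 := by
    apply edist_eq _ _ _ (by norm_num); simp; norm_num
  have e5 : edist (!₂[20, 0] : E2) !₂[40, 1] = ENNReal.ofReal (Real.sqrt 401) := by
    apply edist_eq _ _ _ (by positivity); rw [Real.sq_sqrt (by norm_num)]; simp; norm_num
  have e6 : edist (!₂[-20, 0] : E2) !₂[-40, 1] = ENNReal.ofReal (Real.sqrt 401) := by
    apply edist_eq _ _ _ (by positivity); rw [Real.sq_sqrt (by norm_num)]; simp; norm_num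
  rw [Real.sqrt_zero, ENNReal.ofReal_zero, zero_mul] at b1
  rw [e2, ← ENNReal.ofReal_mul (by positivity)] at b2
  rw [e3, ← ENNReal.ofReal_mul (by positivity)] at b3
  rw [e4, ← ENNReal.ofReal_mul (by positivity)] at b4
  rw [e5, ← ENNReal.ofReal_mul (by positivity)] at b5
  rw [e6, ← ENNReal.ofReal_mul (by positivity)] at b6
  calc ∫⁻ x in frontier Mh, dens Mh x ∂(Measure.hausdorffMeasure 1) ≤ _ :=
        lintegral_mono_set frontier_M_sub
    _ ≤ _ := lintegral_union_le _ _ _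
    _ ≤ _ := add_le_add b1 (lintegral_union_le _ _ _)
    _ ≤ _ := add_le_add le_rfl (add_le_add b2 (lintegral_union_le _ _ _))
    _ ≤ _ := add_le_add le_rfl (add_le_add le_rfl (add_le_add b3 (lintegral_union_le _ _ _)))
    _ ≤ _ := add_le_add le_rfl (add_le_add le_rfl (add_le_add le_rfl (add_le_add b4
          (lintegral_union_le _ _ _))))
    _ ≤ _ := add_le_add le_rfl (add_le_add le_rfl (add_le_add le_rfl (add_le_add le_rfl
          (add_le_add b5 b6))))
    _ ≤ ENNReal.ofReal 168 := by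
        rw [zero_add, ← ENNReal.ofReal_add (by positivity) (by positivity),
          ← ENNReal.ofReal_add (by positivity) (by positivity),
          ← ENNReal.ofReal_add (by positivity) (by positivity),
          ← ENNReal.ofReal_add (by positivity) (by positivity)]
        apply ENNReal.ofReal_le_ofReal
        have s2 : Real.sqrt 2 ≤ 1.415 := by
          rw [Real.sqrt_le_left (by norm_num)]; norm_num
        have s40 : Real.sqrt 40 ≤ 6.33 := by
          rw [Real.sqrt_le_left (by norm_num)]; norm_num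
        have s401 : Real.sqrt 401 ≤ 20.1 := by
          rw [Real.sqrt_le_left (by norm_num)]; norm_num
        have s1 : Real.sqrt 1 = 1 := Real.sqrt_one
        rw [s1]
        linarith

lemma lower_K (σ : ℝ) (hσ : σ ^ 2 = 1) : ENNReal.ofReal (59.8) ≤
    ∫⁻ x in frontier (Kσ σ), dens (Kσ σ) x ∂(Measure.hausdorffMeasure 1) := by
  have hns : NullSingletonClass (Measure.hausdorffMeasure 1 : Measure E2) :=
    Measure.nullSingletonClass_hausdorff E2 (by norm_num)
  set A : Set E2 := segment ℝ !₂[0, 1] !₂[40 * σ, 1] with hA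
  set B : Set E2 := segment ℝ !₂[20 * σ, 0] !₂[40 * σ, 1] with hB
  have hmA : MeasurableSet A := by
    have : IsClosed A := by
      rw [hA, segment_eq_image_lineMap]
      exact (isCompact_Icc.image (by fun_prop)).isClosed
    exact this.measurableSet
  have hmB : MeasurableSet B := by
    have : IsClosed B := by
      rw [hB, segment_eq_image_lineMap]
      exact (isCompact_Icc.image (by fun_prop)).isClosed
    exact this.measurableSet
  have s401 : Real.sqrt 401 ≤ 20.1 := by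
    rw [Real.sqrt_le_left (by norm_num)]; norm_num
  have s401' : 20 ≤ Real.sqrt 401 := by
    rw [Real.le_sqrt' (by norm_num)]; norm_num
  have s401'' : Real.sqrt 401 ^ 2 = 401 := Real.sq_sqrt (by norm_num)
  have hpA : ∀ x ∈ A, x ∈ frontier (Kσ σ) ∧ ENNReal.ofReal 1 ≤ dens (Kσ σ) x := by
    rintro x ⟨a, b, ha, hb, hab, rfl⟩
    have hx0 : (a • (!₂[0, 1] : E2) + b • (!₂[40 * σ, 1] : E2)) 0 = b * (40 * σ) := by simp
    have hx1 : (a • (!₂[0, 1] : E2) + b • (!₂[40 * σ, 1] : E2)) 1 = 1 := by simp [hab]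
    generalize (a • (!₂[0, 1] : E2) + b • (!₂[40 * σ, 1] : E2)) = x at hx0 hx1
    have hm : x ∈ Kσ σ := by
      have : σ * x 0 = 40 * b := by rw [hx0]; linear_combination 40 * b * hσ
      refine ⟨?_, ?_, ?_, ?_⟩ <;> (try rw [this]) <;> (try rw [hx1]) <;> linarith
    have hn : (!₂[0, 1] : E2) ∈ nrm (Kσ σ) x := by
      refine ⟨?_, ?_⟩
      · rw [norm_eq_one_iff]; simp
      · rintro y ⟨_, _, _, h4⟩
        rw [inner_eq, inner_eq]
        simp [hx1]
        exact h4
    refine ⟨mem_frontier_of_normal _ _ _ hm hn, ?_⟩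
    have := le_dens _ _ _ (zero_mem_K σ) hn
    rw [inner_eq] at this
    simpa [hx1] using this
  have hpB : ∀ x ∈ B, x ∈ frontier (Kσ σ) ∧ ENNReal.ofReal 0.99 ≤ dens (Kσ σ) x := by
    rintro x ⟨a, b, ha, hb, hab, rfl⟩
    have hx0 : (a • (!₂[20 * σ, 0] : E2) + b • (!₂[40 * σ, 1] : E2)) 0 = (20 + 20 * b) * σ := by
      simp; linear_combination (20 * σ) * hab
    have hx1 : (a • (!₂[20 * σ, 0] : E2) + b • (!₂[40 * σ, 1] : E2)) 1 = b := by simp
    generalize (a • (!₂[20 * σ, 0] : E2) + b • (!₂[40 * σ, 1] : E2)) = x at hx0 hx1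
    have hm : x ∈ Kσ σ := by
      have : σ * x 0 = 20 + 20 * b := by rw [hx0]; linear_combination (20 + 20 * b) * hσ
      refine ⟨?_, ?_, ?_, ?_⟩ <;> (try rw [this]) <;> (try rw [hx1]) <;> linarith
    have hn : (!₂[σ / Real.sqrt 401, -20 / Real.sqrt 401] : E2) ∈ nrm (Kσ σ) x := by
      refine ⟨?_, ?_⟩
      · rw [norm_eq_one_iff]; simp; field_simp; rw [s401'', hσ]; norm_num
      · rintro y ⟨_, h2, _, h4⟩
        rw [inner_eq, inner_eq]
        have e1 : y 0 * (σ / Real.sqrt 401) + y 1 * (-20 / Real.sqrt 401) =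
            (σ * y 0 - 20 * y 1) / Real.sqrt 401 := by ring
        have e2 : x 0 * (σ / Real.sqrt 401) + x 1 * (-20 / Real.sqrt 401) =
            20 / Real.sqrt 401 := by
          rw [hx0, hx1]
          have : (20 + 20 * b) * σ * (σ / Real.sqrt 401) = (20 + 20 * b) * σ ^ 2 / Real.sqrt 401 := by
            ring
          rw [this, hσ]; ring
        simp only [Matrix.cons_val_zero, Matrix.cons_val_one]
        rw [e1, e2]
        apply div_le_div_of_nonneg_right _ (by positivity)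
        linarith
    refine ⟨mem_frontier_of_normal _ _ _ hm hn, ?_⟩
    refine le_trans ?_ (le_dens _ _ _ (zero_mem_K σ) hn)
    apply ENNReal.ofReal_le_ofReal
    rw [Real.le_sqrt' (by norm_num), inner_eq]
    simp only [Matrix.cons_val_zero, Matrix.cons_val_one]
    have e2 : x 0 * (σ / Real.sqrt 401) + x 1 * (-20 / Real.sqrt 401) =
        20 / Real.sqrt 401 := by
      rw [hx0, hx1]
      have : (20 + 20 * b) * σ * (σ / Real.sqrt 401) = (20 + 20 * b) * σ ^ 2 / Real.sqrt 401 := by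
        ring
      rw [this, hσ]; ring
    rw [e2, le_div_iff₀ (by positivity)]
    nlinarith
  have hint : A ∩ B ⊆ {!₂[40 * σ, 1]} := by
    rintro x ⟨⟨a, b, ha, hb, hab, rfl⟩, ⟨a', b', ha', hb', hab', h⟩⟩
    have h1 := congrArg (fun z : E2 => z 1) h
    have h0 := congrArg (fun z : E2 => z 0) h
    simp at h0 h1
    have hb1 : b' = 1 := by linarith
    have ha1 : a' = 0 := by linarith
    rw [← h, hb1, ha1]
    simp
  have hAB : (Measure.hausdorffMeasure 1 : Measure E2) (B \ A) =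
      (Measure.hausdorffMeasure 1 : Measure E2) B := by
    apply measure_sdiff_null'
    rw [Set.inter_comm]
    exact measure_mono_null hint (measure_singleton _)
  have e2 : (Measure.hausdorffMeasure 1 : Measure E2) A = ENNReal.ofReal 40 := by
    rw [hA, hausdorffMeasure_segment]
    apply edist_eq _ _ _ (by norm_num); simp; rw [mul_pow, hσ]; norm_num
  have e5 : (Measure.hausdorffMeasure 1 : Measure E2) B = ENNReal.ofReal (Real.sqrt 401) := by
    rw [hB, hausdorffMeasure_segment]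
    apply edist_eq _ _ _ (by positivity); rw [s401'']; simp
    have : (20 * σ - 40 * σ) ^ 2 = 400 * σ ^ 2 := by ring
    rw [this, hσ]; norm_num
  calc ENNReal.ofReal (59.8) ≤ ENNReal.ofReal 1 * ENNReal.ofReal 40 +
        ENNReal.ofReal 0.99 * ENNReal.ofReal (Real.sqrt 401) := by
        rw [← ENNReal.ofReal_mul (by norm_num), ← ENNReal.ofReal_mul (by norm_num),
          ← ENNReal.ofReal_add (by norm_num) (by positivity)]
        apply ENNReal.ofReal_le_ofReal
        linarith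
    _ ≤ ∫⁻ x in A, dens (Kσ σ) x ∂(Measure.hausdorffMeasure 1) +
        ∫⁻ x in (B \ A), dens (Kσ σ) x ∂(Measure.hausdorffMeasure 1) := by
        apply add_le_add
        · rw [← e2, ← setLIntegral_const]
          exact setLIntegral_mono' hmA (fun x hx => (hpA x hx).2)
        · rw [← e5, ← hAB, ← setLIntegral_const]
          exact setLIntegral_mono' (hmB.diff hmA) (fun x hx => (hpB x hx.1).2)
    _ = ∫⁻ x in A ∪ (B \ A), dens (Kσ σ) x ∂(Measure.hausdorffMeasure 1) := by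
        rw [lintegral_union (hmB.diff hmA) Set.disjoint_sdiff_right]
    _ ≤ _ := by
        apply lintegral_mono_set
        intro x hx
        rcases hx with hx | hx
        · exact (hpA x hx).1
        · exact (hpB x hx.1).1

theorem result :
    ¬ (∀ (n : ℕ), 2 ≤ n → ∀ p : ℝ, 0 ≤ p → p ≤ 1 →
    ∀ S : Set (EuclideanSpace ℝ (Fin n)) → ℝ≥0∞,
    (∀ C : Set (EuclideanSpace ℝ (Fin n)),
      S C = ∫⁻ x in frontier C,
        ENNReal.ofReal (sSup ((fun u : EuclideanSpace ℝ (Fin n) => (inner ℝ x u) ^ (1 - p)) ''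
          {u : EuclideanSpace ℝ (Fin n) | ‖u‖ = 1 ∧ ∀ y ∈ C, inner ℝ y u ≤ inner ℝ x u}))
        ∂(MeasureTheory.Measure.hausdorffMeasure ((n : ℝ) - 1))) →
    ∀ K L : Set (EuclideanSpace ℝ (Fin n)),
      IsCompact K → Convex ℝ K → (interior K).Nonempty → (0 : EuclideanSpace ℝ (Fin n)) ∈ K →
      IsCompact L → Convex ℝ L → (interior L).Nonempty → (0 : EuclideanSpace ℝ (Fin n)) ∈ L →
      (S K).toReal ^ (1 / ((n : ℝ) - p)) + (S L).toReal ^ (1 / ((n : ℝ) - p))
        ≤ (S (K + L)).toReal ^ (1 / ((n : ℝ) - p))) := by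
  intro H
  have h := H 2 le_rfl (1 / 2) (by norm_num) (by norm_num)
    (fun C => ∫⁻ x in frontier C, dens C x ∂(Measure.hausdorffMeasure (((2 : ℕ) : ℝ) - 1)))
    (fun C => rfl) (Kσ 1) (Kσ (-1)) (isCompact_K 1 (by norm_num)) (convex_K 1)
    (interior_K_nonempty 1 (by norm_num)) (zero_mem_K 1)
    (isCompact_K (-1) (by norm_num)) (convex_K (-1))
    (interior_K_nonempty (-1) (by norm_num)) (zero_mem_K (-1))
  rw [sum_eq] at h
  have h21 : (((2 : ℕ) : ℝ) - 1) = 1 := by norm_num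
  simp only [h21] at h
  have hr : (1 / (((2 : ℕ) : ℝ) - 1 / 2)) = (2 / 3 : ℝ) := by norm_num
  rw [hr] at h
  have k1 : (59.8 : ℝ) ≤ (∫⁻ x in frontier (Kσ 1), dens (Kσ 1) x
      ∂(Measure.hausdorffMeasure 1)).toReal :=
    (ENNReal.ofReal_le_iff_le_toReal (fin_K 1 (by norm_num))).mp (lower_K 1 (by norm_num))
  have k2 : (59.8 : ℝ) ≤ (∫⁻ x in frontier (Kσ (-1)), dens (Kσ (-1)) x
      ∂(Measure.hausdorffMeasure 1)).toReal :=
    (ENNReal.ofReal_le_iff_le_toReal (fin_K (-1) (by norm_num))).mp (lower_K (-1) (by norm_num))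
  have k3 : (∫⁻ x in frontier Mh, dens Mh x ∂(Measure.hausdorffMeasure 1)).toReal ≤ 168 :=
    ENNReal.toReal_le_of_le_ofReal (by norm_num) upper_M
  have r1 := Real.rpow_le_rpow (by norm_num) k1 (by norm_num : (0 : ℝ) ≤ 2 / 3)
  have r2 := Real.rpow_le_rpow (by norm_num) k2 (by norm_num : (0 : ℝ) ≤ 2 / 3)
  have r3 := Real.rpow_le_rpow ENNReal.toReal_nonneg k3 (by norm_num : (0 : ℝ) ≤ 2 / 3)
  have r4 : 2 * (59.8 : ℝ) ^ (2 / 3 : ℝ) ≤ (168 : ℝ) ^ (2 / 3 : ℝ) := by linarith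
  have c1 : ((59.8 : ℝ) ^ (2 / 3 : ℝ)) ^ 3 = 59.8 ^ 2 := by
    rw [← Real.rpow_natCast, ← Real.rpow_mul (by norm_num), ← Real.rpow_natCast]
    norm_num
  have c2 : ((168 : ℝ) ^ (2 / 3 : ℝ)) ^ 3 = 168 ^ 2 := by
    rw [← Real.rpow_natCast, ← Real.rpow_mul (by norm_num), ← Real.rpow_natCast]
    norm_num
  have c3 : (2 * (59.8 : ℝ) ^ (2 / 3 : ℝ)) ^ 3 ≤ ((168 : ℝ) ^ (2 / 3 : ℝ)) ^ 3 := by
    apply pow_le_pow_left₀ (by positivity) r4
  rw [mul_pow, c1, c2] at c3
  norm_num at c3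

end Pool.Agent.S08352
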