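import Pool.Statements.S08359
import Pool.Agent.Helper390.CovarioC

set_option autoImplicit false
open Pool Pool.MP_48d5b6_gt

namespace Pool.Agent.S08359

open MeasureTheory Pool.Agent.Helper390.Covario

open scoped RealInnerProductSpace in
theorem core {n : ℕ} {C D : Set (EuclideanSpace ℝ (Fin n))}
    (hC : IsCompact C) (hCr : closure (interior C) = C)
    {c : EuclideanSpace ℝ (Fin n)} (hc : ∀ x ∈ C, (2 : ℝ) • c - x ∈ C)
    (hD : IsCompact D) (hDr : closure (interior D) = D)
    (hcov : ∀ x : EuclideanSpace ℝ (Fin n),
        volume (D ∩ ((fun y => y + x) '' D)) = volume (C ∩ ((fun y => y + x) '' C)))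
    (hDv : volume D ≠ 0) :
    ∃ t : EuclideanSpace ℝ (Fin n), D = (fun y => y + t) '' C := by
  have hCv : volume C ≠ 0 := by
    have := hcov 0
    simp only [add_zero, Set.image_id', Set.inter_self] at this
    rwa [← this]
  obtain ⟨m, hm⟩ := log_ratio hC hD hDv hc hcov
  have hmulC : ∀ u, lap C (-u) = Real.exp (-⟪u, (2 : ℝ) • c⟫) * lap C u := by
    intro u
    have := norm_fourier_refl hc u 0
    rw [fourier_ef_zero (isCompact_refl hC), fourier_ef_zero hC, lap_refl, Complex.norm_real,
      Complex.norm_real, Real.norm_eq_abs, Real.norm_eq_abs, abs_of_pos (lap_pos hC hCv _),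
      abs_of_pos (lap_pos hC hCv _)] at this
    exact this
  have hlapD := lap_pos hD hDv
  have hlapC := lap_pos hC hCv
  -- the Laplace transforms agree after a translation
  have hlog : ∀ s, Real.log (lap D s) = Real.log (lap C s) + ⟪s, m - c⟫ := by
    intro s
    have h1 := congrArg Real.log (lap_mul hC hD hcov s)
    rw [hmulC, Real.log_mul (hlapD _).ne' (hlapD _).ne',
      Real.log_mul (hlapC _).ne' (mul_pos (Real.exp_pos _) (hlapC _)).ne',
      Real.log_mul (Real.exp_pos _).ne' (hlapC _).ne', Real.log_exp, inner_smul_right] at h1
    have h2 := hm s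
    rw [inner_sub_right]
    linarith
  have hlap : ∀ s, lap D s = lap ((fun y => y + (m - c)) '' C) s := by
    intro s
    have h3 : lap ((fun y => y + (m - c)) '' C) s = Real.exp ⟪s, m - c⟫ * lap C s := by
      unfold lap
      have hmp : MeasurePreserving (fun x : EuclideanSpace ℝ (Fin n) => x + (m - c)) volume volume :=
        measurePreserving_add_right volume (m - c)
      have := hmp.setIntegral_image_emb
        (MeasurableEquiv.addRight (m - c)).measurableEmbedding
        (fun x => Real.exp ⟪s, x⟫) C
      rw [this, ← integral_const_mul]
      refine integral_congr_ae (Filter.Eventually.of_forall fun x => ?_)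
      simp only [inner_add_right, Real.exp_add]
      ring
    rw [h3, ← Real.exp_log (hlapD s), hlog, Real.exp_add, Real.exp_log (hlapC s)]
    ring
  have hC' : IsCompact ((fun y => y + (m - c)) '' C) :=
    hC.image (continuous_id.add continuous_const)
  have hC'r : closure (interior ((fun y => y + (m - c)) '' C)) = (fun y => y + (m - c)) '' C := by
    have h1 := (Homeomorph.addRight (m - c)).image_interior C
    have h2 := (Homeomorph.addRight (m - c)).image_closure (interior C)
    rw [hCr] at h2
    change closure (interior (Homeomorph.addRight (m - c) '' C)) = Homeomorph.addRight (m - c) '' C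
    rw [← h1, ← h2]
  have hC'v : volume ((fun y => y + (m - c)) '' C) ≠ 0 := by
    have : volume ((fun y => y + (m - c)) '' C) = volume C := by
      rw [Set.image_add_right]
      exact measure_preimage_add_right volume (-(m - c)) C
    rw [this]
    exact hCv
  have hres := restrict_eq_of_lap hC' hD hC'v hDv hlap
  exact ⟨m - c, Set.Subset.antisymm (subset_of_restrict hC' hDr hres)
    (subset_of_restrict hD hC'r hres.symm)⟩

/-- Let C be a centrally symmetric compact set in n-space equal to the closure of its interior, and D another such set (not assumed symmetric) with the same covariogram vol(·∩(·+x)) for all x. Then D is a translate of C or of −C. -/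
theorem result :
    ∀ (n : ℕ) (C D : Set (EuclideanSpace ℝ (Fin n))),
      IsCompact C → closure (interior C) = C →
      (∃ c : EuclideanSpace ℝ (Fin n), ∀ x ∈ C, (2 : ℝ) • c - x ∈ C) →
      IsCompact D → closure (interior D) = D →
      (∀ x : EuclideanSpace ℝ (Fin n),
        MeasureTheory.volume (D ∩ ((fun y => y + x) '' D)) =
          MeasureTheory.volume (C ∩ ((fun y => y + x) '' C))) →
      ∃ t : EuclideanSpace ℝ (Fin n),
        D = (fun y => y + t) '' C ∨ D = (fun y => -y + t) '' C := by
  intro n C D hC hCr hsym hD hDr hcov
  obtain ⟨c, hc⟩ := hsym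
  by_cases hDv : volume D = 0
  · -- degenerate case: both sets are empty
    have hempty : ∀ K : Set (EuclideanSpace ℝ (Fin n)), closure (interior K) = K →
        volume K = 0 → K = ∅ := by
      intro K hK hv
      have : interior K = ∅ := by
        by_contra h
        have hne : (interior K).Nonempty := Set.nonempty_iff_ne_empty.2 h
        have := (isOpen_interior.measure_pos volume hne).trans_le (measure_mono interior_subset)
        rw [hv] at this
        exact lt_irrefl _ this
      rw [← hK, this, closure_empty]
    have hCv : volume C = 0 := by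
      have := hcov 0
      simp only [add_zero, Set.image_id', Set.inter_self] at this
      rw [← this, hDv]
    refine ⟨0, Or.inl ?_⟩
    rw [hempty D hDr hDv, hempty C hCr hCv, Set.image_empty]
  · obtain ⟨t, ht⟩ := core hC hCr hc hD hDr hcov hDv
    exact ⟨t, Or.inl ht⟩

end Pool.Agent.S08359
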