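import Pool.Statements.S08366

set_option autoImplicit false
open Pool Pool.MP_49a423_gt

namespace Pool.Agent.S08366

open Set Topology

/-- Closing-off lemma for the Sigma-part of a compact subset of a power of the line. -/
theorem key {K Γ : Type*} [TopologicalSpace K] [CompactSpace K] (e : K → Γ → ℝ)
    (he : IsEmbedding e) (D : Set (K × K))
    (hD : ∀ d ∈ D, {γ | e d.1 γ ≠ 0}.Countable ∧ {γ | e d.2 γ ≠ 0}.Countable)
    (l : K) (hl : (l, l) ∈ closure D) :
    ∃ c : K, {γ | e c γ ≠ 0}.Countable ∧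
      ∃ D' : Set (K × K), D' ⊆ D ∧ D'.Countable ∧ (c, c) ∈ closure D' := by
  classical
  have hcont : Continuous e := he.continuous
  -- choose approximations
  have happ : ∀ (F : Finset Γ) (n : ℕ), ∃ d ∈ D, ∀ γ ∈ F,
      |e d.1 γ - e l γ| < 1 / ((n : ℝ) + 1) ∧ |e d.2 γ - e l γ| < 1 / ((n : ℝ) + 1) := by
    intro F n
    have hpos : (0 : ℝ) < 1 / ((n : ℝ) + 1) := Nat.one_div_pos_of_nat
    have hopen : IsOpen {d : K × K | ∀ γ ∈ F,
        |e d.1 γ - e l γ| < 1 / ((n : ℝ) + 1) ∧ |e d.2 γ - e l γ| < 1 / ((n : ℝ) + 1)} := by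
      have : {d : K × K | ∀ γ ∈ F,
        |e d.1 γ - e l γ| < 1 / ((n : ℝ) + 1) ∧ |e d.2 γ - e l γ| < 1 / ((n : ℝ) + 1)} =
        ⋂ γ ∈ F, {d : K × K | |e d.1 γ - e l γ| < 1 / ((n : ℝ) + 1) ∧
          |e d.2 γ - e l γ| < 1 / ((n : ℝ) + 1)} := by
        ext d; simp
      rw [this]
      refine isOpen_biInter_finset ?_
      intro γ _
      have h1 : Continuous fun d : K × K => |e d.1 γ - e l γ| := by fun_prop
      have h2 : Continuous fun d : K × K => |e d.2 γ - e l γ| := by fun_prop
      exact (isOpen_lt h1 continuous_const).inter (isOpen_lt h2 continuous_const)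
    have hmem : (l, l) ∈ {d : K × K | ∀ γ ∈ F,
        |e d.1 γ - e l γ| < 1 / ((n : ℝ) + 1) ∧ |e d.2 γ - e l γ| < 1 / ((n : ℝ) + 1)} := by
      intro γ _
      simp only [sub_self, abs_zero]
      exact ⟨hpos, hpos⟩
    obtain ⟨d, hd1, hd2⟩ := mem_closure_iff.1 hl _ hopen hmem
    exact ⟨d, hd2, hd1⟩
  choose d hdD hdF using happ
  -- closing off
  let S : Finset Γ → ℕ → Set Γ := fun F n =>
    {γ | e (d F n).1 γ ≠ 0} ∪ {γ | e (d F n).2 γ ≠ 0}
  have hS : ∀ F n, (S F n).Countable := fun F n =>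
    (hD _ (hdD F n)).1.union (hD _ (hdD F n)).2
  let step : Set Γ → Set Γ := fun I => I ∪ ⋃ F ∈ {F : Finset Γ | (F : Set Γ) ⊆ I}, ⋃ n, S F n
  have hcntF : ∀ I : Set Γ, I.Countable → {F : Finset Γ | (F : Set Γ) ⊆ I}.Countable := by
    intro I hI
    have h1 : {t : Set Γ | t.Finite ∧ t ⊆ I}.Countable := countable_ofPred_finite_subset hI
    refine MapsTo.countable_of_injOn (f := fun F : Finset Γ => (F : Set Γ)) (t := _) ?_ ?_ h1
    · intro F hF
      exact ⟨F.finite_toSet, hF⟩
    · intro F _ G _ h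
      exact Finset.coe_injective h
  have hstep : ∀ I : Set Γ, I.Countable → (step I).Countable := by
    intro I hI
    refine hI.union ((hcntF I hI).biUnion ?_)
    intro F _
    exact countable_iUnion fun n => hS F n
  let J : ℕ → Set Γ := fun k => step^[k] ∅
  have hJ0 : J 0 = ∅ := rfl
  have hJs : ∀ k, J (k + 1) = step (J k) := fun k => Function.iterate_succ_apply' step k ∅
  have hJc : ∀ k, (J k).Countable := by
    intro k
    induction k with
    | zero => rw [hJ0]; exact countable_empty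
    | succ k ih => rw [hJs]; exact hstep _ ih
  have hJmono : Monotone J := by
    refine monotone_nat_of_le_succ ?_
    intro k
    rw [hJs]
    exact subset_union_left
  let I : Set Γ := ⋃ k, J k
  have hIc : I.Countable := countable_iUnion hJc
  have hIclosed : ∀ (F : Finset Γ), (F : Set Γ) ⊆ I → ∀ n, S F n ⊆ I := by
    intro F hF n
    obtain ⟨k, hk⟩ : ∃ k, (F : Set Γ) ⊆ J k :=
      (directed_of_isDirected_le hJmono).exists_mem_subset_of_finset_subset_biUnion hF
    intro γ hγ
    refine mem_iUnion.2 ⟨k + 1, ?_⟩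
    rw [hJs]
    refine Or.inr ?_
    exact mem_biUnion (show F ∈ {F : Finset Γ | (F : Set Γ) ⊆ J k} from hk) (mem_iUnion.2 ⟨n, hγ⟩)
  -- the limit point
  let g : Γ → ℝ := I.indicator (e l)
  let D' : Set (K × K) := {x | ∃ F : Finset Γ, (F : Set Γ) ⊆ I ∧ ∃ n, x = d F n}
  have hD'D : D' ⊆ D := by
    rintro x ⟨F, _, n, rfl⟩
    exact hdD F n
  have hD'c : D'.Countable := by
    have : D' ⊆ ⋃ F ∈ {F : Finset Γ | (F : Set Γ) ⊆ I}, range (d F) := by
      rintro x ⟨F, hF, n, rfl⟩
      exact mem_biUnion (show F ∈ {F : Finset Γ | (F : Set Γ) ⊆ I} from hF) (mem_range_self n)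
    refine ((hcntF I hIc).biUnion ?_).mono this
    intro F _
    exact countable_range _
  have hclos : (g, g) ∈ closure (Prod.map e e '' D') := by
    rw [mem_closure_iff_nhds]
    intro t ht
    rw [nhds_prod_eq, Filter.mem_prod_iff] at ht
    obtain ⟨t1, ht1, t2, ht2, ht⟩ := ht
    obtain ⟨t3, ht3, ht3'⟩ : ∃ t3 ∈ 𝓝 g, t3 ⊆ t1 ∩ t2 := ⟨t1 ∩ t2, Filter.inter_mem ht1 ht2, subset_rfl⟩
    -- basic neighbourhood
    obtain ⟨F0, ε, hε, hF0⟩ : ∃ (F0 : Finset Γ) (ε : ℝ), 0 < ε ∧
        ∀ x : Γ → ℝ, (∀ γ ∈ F0, |x γ - g γ| < ε) → x ∈ t3 := by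
      rw [nhds_pi, Filter.mem_pi'] at ht3
      obtain ⟨F0, t, htn, hsub⟩ := ht3
      have h1 : ∀ γ ∈ F0, ∀ᶠ ε in 𝓝[>] (0 : ℝ), Metric.ball (g γ) ε ⊆ t γ := by
        intro γ _
        obtain ⟨r, hr, hrt⟩ := Metric.mem_nhds_iff.1 (htn γ)
        filter_upwards [Ioo_mem_nhdsGT hr] with ε hε
        exact (Metric.ball_subset_ball hε.2.le).trans hrt
      have h2 := (Filter.eventually_all_finset F0).2 h1
      obtain ⟨ε, hε1, hε2⟩ := (h2.and self_mem_nhdsWithin).exists
      refine ⟨F0, ε, hε2, fun x hx => hsub ?_⟩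
      intro γ hγ
      refine hε1 γ hγ ?_
      rw [Metric.mem_ball, Real.dist_eq]
      exact hx γ hγ
    obtain ⟨n, hn⟩ := exists_nat_one_div_lt hε
    let F : Finset Γ := F0.filter (fun γ => γ ∈ I)
    have hF : (F : Set Γ) ⊆ I := by
      intro γ hγ
      exact (Finset.mem_filter.1 hγ).2
    have hx : ∀ γ ∈ F0, |e (d F n).1 γ - g γ| < ε ∧ |e (d F n).2 γ - g γ| < ε := by
      intro γ hγ
      by_cases hγI : γ ∈ I
      · have : γ ∈ F := Finset.mem_filter.2 ⟨hγ, hγI⟩
        have h := hdF F n γ this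
        simp only [g, indicator_of_mem hγI]
        exact ⟨h.1.trans hn, h.2.trans hn⟩
      · have h1 : e (d F n).1 γ = 0 := by
          by_contra hne
          exact hγI (hIclosed F hF n (Or.inl hne))
        have h2 : e (d F n).2 γ = 0 := by
          by_contra hne
          exact hγI (hIclosed F hF n (Or.inr hne))
        simp only [g, indicator_of_notMem hγI, h1, h2, sub_self, abs_zero]
        exact ⟨hε, hε⟩
    refine ⟨Prod.map e e (d F n), ht ⟨?_, ?_⟩, mem_image_of_mem _ ⟨F, hF, n, rfl⟩⟩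
    · exact (ht3' (hF0 _ fun γ hγ => (hx γ hγ).1)).1
    · exact (ht3' (hF0 _ fun γ hγ => (hx γ hγ).2)).2
  have hrange : IsClosed (range e) := (isCompact_range hcont).isClosed
  obtain ⟨c, hc⟩ : g ∈ range e := by
    have h1 : closure (Prod.map e e '' D') ⊆ range e ×ˢ range e := by
      refine closure_minimal ?_ (hrange.prod hrange)
      rintro _ ⟨x, _, rfl⟩
      exact ⟨mem_range_self _, mem_range_self _⟩
    exact (h1 hclos).1
  refine ⟨c, ?_, D', hD'D, hD'c, ?_⟩
  · rw [hc]
    refine hIc.mono ?_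
    intro γ hγ
    by_contra hne
    exact hγ (indicator_of_notMem hne _)
  · have hee : IsEmbedding (Prod.map e e) := he.prodMap he
    rw [hee.isInducing.closure_eq_preimage_closure_image]
    show (e c, e c) ∈ closure (Prod.map e e '' D')
    rw [hc]
    exact hclos


/-- The index order: countable sets of reals, ordered by inclusion. -/
abbrev Om : Type := {s : Set ℝ // s.Countable}

/-- First cube coordinates: two copies of the index order. -/
abbrev W : Type := Om ⊕ Om

/-- Indices of the closed conditions. -/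
abbrev J : Type := (Om × Om) ⊕ ((Om × Om) ⊕ (Om × Om))

/-- The conditions that cut out the closed set, one bit for each condition. -/
noncomputable def viol (x : W → Bool) : J → Bool
  | Sum.inl (a, b) => by
      classical
      exact decide (a ≤ b) && (x (Sum.inl b) && !x (Sum.inl a))
  | Sum.inr (Sum.inl (a, b)) => by
      classical
      exact decide (a ≤ b) && (x (Sum.inr b) && !x (Sum.inr a))
  | Sum.inr (Sum.inr (a, b)) => !x (Sum.inl a) && !x (Sum.inr b)

theorem continuous_viol : Continuous viol := by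
  classical
  have hB : ∀ (g : Bool × Bool → Bool) (u v : W),
      Continuous fun x : W → Bool => g (x u, x v) := by
    intro g u v
    exact (continuous_of_discreteTopology (f := g)).comp
      ((continuous_apply u).prodMk (continuous_apply v))
  refine continuous_pi fun j => ?_
  rcases j with ⟨a, b⟩ | ⟨a, b⟩ | ⟨a, b⟩
  · exact hB (fun p => decide (a ≤ b) && (p.1 && !p.2)) (Sum.inl b) (Sum.inl a)
  · exact hB (fun p => decide (a ≤ b) && (p.1 && !p.2)) (Sum.inr b) (Sum.inr a)
  · exact hB (fun p => !p.1 && !p.2) (Sum.inl a) (Sum.inr b)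

/-- The compact space: a Cantor cube. -/
abbrev KK : Type := (W → Bool) × (J → Bool)

/-- The involution. -/
noncomputable def hh (k : KK) : KK := (k.1, fun j => xor (k.2 j) (viol k.1 j))

theorem continuous_hh : Continuous hh := by
  have hx : Continuous fun p : Bool × Bool => xor p.1 p.2 := continuous_of_discreteTopology
  refine continuous_fst.prodMk (continuous_pi fun j => ?_)
  have h1 : Continuous fun k : KK => k.2 j := (continuous_apply j).comp continuous_snd
  have h2 : Continuous fun k : KK => viol k.1 j :=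
    (continuous_apply j).comp (continuous_viol.comp continuous_fst)
  exact hx.comp (h1.prodMk h2)

theorem hh_hh (k : KK) : hh (hh k) = k := by
  refine Prod.ext rfl ?_
  funext j
  show xor (xor (k.2 j) (viol k.1 j)) (viol k.1 j) = k.2 j
  cases k.2 j <;> cases viol k.1 j <;> rfl

theorem hh_eq_iff (k : KK) : hh k = k ↔ ∀ j, viol k.1 j = false := by
  constructor
  · intro h j
    have h2 : xor (k.2 j) (viol k.1 j) = k.2 j := congrFun (congrArg Prod.snd h) j
    revert h2
    cases k.2 j <;> cases viol k.1 j <;> simp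
  · intro h
    refine Prod.ext rfl ?_
    funext j
    show xor (k.2 j) (viol k.1 j) = k.2 j
    rw [h j]
    cases k.2 j <;> rfl

theorem dense_cube (V : Type) : Dense {x : V → Bool | {v | x v ≠ false}.Countable} := by
  classical
  intro x
  rw [mem_closure_iff_nhds]
  intro t ht
  rw [nhds_pi, Filter.mem_pi'] at ht
  obtain ⟨F, u, hu, hsub⟩ := ht
  refine ⟨fun v => if v ∈ F then x v else false, hsub ?_, ?_⟩
  · intro v hv
    have hv' : v ∈ F := hv
    simp only [hv', if_true]
    exact mem_of_mem_nhds (hu v)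
  · refine (F.finite_toSet.subset ?_).countable
    intro v hv
    by_contra hne
    exact hv (if_neg hne)

/-- The standard embedding of the cube into a power of the line. -/
noncomputable def emb (k : KK) : W ⊕ J → ℝ
  | Sum.inl w => if k.1 w = true then 1 else 0
  | Sum.inr j => if k.2 j = true then 1 else 0

theorem emb_embedding : IsEmbedding emb := by
  have hB : Continuous fun b : Bool => (if b = true then (1 : ℝ) else 0) :=
    continuous_of_discreteTopology
  have hc : Continuous emb := by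
    refine continuous_pi fun i => ?_
    rcases i with w | j
    · exact hB.comp ((continuous_apply w).comp continuous_fst)
    · exact hB.comp ((continuous_apply j).comp continuous_snd)
  have hi : Function.Injective emb := by
    intro k k' h
    refine Prod.ext ?_ ?_
    · funext w
      have := congrFun h (Sum.inl w)
      simp only [emb] at this
      revert this
      cases k.1 w <;> cases k'.1 w <;> simp
    · funext j
      have := congrFun h (Sum.inr j)
      simp only [emb] at this
      revert this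
      cases k.2 j <;> cases k'.2 j <;> simp
  exact (hc.isClosedEmbedding hi).isEmbedding

theorem emb_dense : Dense (emb ⁻¹' {x : W ⊕ J → ℝ | {γ | x γ ≠ 0}.Countable}) := by
  refine ((dense_cube W).prod (dense_cube J)).mono ?_
  rintro ⟨x, y⟩ ⟨hx, hy⟩
  show {γ | emb (x, y) γ ≠ 0}.Countable
  refine ((hx.image Sum.inl).union (hy.image Sum.inr)).mono ?_
  rintro (w | j) h
  · refine Or.inl ⟨w, ?_, rfl⟩
    intro hf
    have hf' : x w = false := hf
    apply h
    simp [emb, hf']
  · refine Or.inr ⟨j, ?_, rfl⟩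
    intro hf
    have hf' : y j = false := hf
    apply h
    simp [emb, hf']

theorem no_invariant (A : Set KK) (hA : Dense A) (hinv : ∀ x, hh x ∈ A ↔ x ∈ A)
    (Γ : Type) (φ : KK → (Γ → ℝ)) (hφ : IsEmbedding φ)
    (hAφ : A = φ ⁻¹' {x : Γ → ℝ | {γ : Γ | x γ ≠ 0}.Countable}) : False := by
  classical
  have hcnt : ∀ a ∈ A, {γ | φ a γ ≠ 0}.Countable := by
    intro a ha
    rw [hAφ] at ha
    exact ha
  have hcnt' : ∀ a, {γ | φ a γ ≠ 0}.Countable → a ∈ A := by
    intro a ha
    rw [hAφ]
    exact ha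
  -- points of A fixed by the involution are dense in the fixed set
  have hfix : ∀ l : KK, hh l = l → ∀ U : Set KK, IsOpen U → l ∈ U → ∃ a ∈ A, hh a = a ∧ a ∈ U := by
    intro l hl U hU hlU
    obtain ⟨V, hVo, hlV, hVU⟩ : ∃ V : Set KK, IsOpen V ∧ l ∈ V ∧ closure V ⊆ U := by
      obtain ⟨V, hV1, hV2, hV3⟩ := exists_mem_nhds_isClosed_subset (hU.mem_nhds hlU)
      refine ⟨interior V, isOpen_interior, mem_interior_iff_mem_nhds.2 hV1, ?_⟩
      exact (closure_minimal interior_subset hV2).trans hV3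
    let D : Set (KK × KK) := {d | d.1 ∈ A ∧ d.1 ∈ V ∧ d.2 = hh d.1}
    have hlD : (l, l) ∈ closure D := by
      rw [mem_closure_iff]
      intro O hO hlO
      have hc : Continuous fun k : KK => (k, hh k) := continuous_id.prodMk continuous_hh
      have h1 : IsOpen ((fun k : KK => (k, hh k)) ⁻¹' O ∩ V) := (hO.preimage hc).inter hVo
      have h2 : l ∈ (fun k : KK => (k, hh k)) ⁻¹' O ∩ V := by
        refine ⟨?_, hlV⟩
        show (l, hh l) ∈ O
        rw [hl]
        exact hlO
      obtain ⟨a, ha1, ha2⟩ := hA.inter_open_nonempty _ h1 ⟨l, h2⟩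
      exact ⟨(a, hh a), ha1.1, ha2, ha1.2, rfl⟩
    obtain ⟨c, hc, D', hD'D, _, hcD'⟩ := key φ hφ D
      (fun d hd => ⟨hcnt _ hd.1, by
        have h2 := hd.2.2
        rw [h2]
        exact hcnt _ ((hinv _).2 hd.1)⟩) l hlD
    have hcD : (c, c) ∈ closure D := closure_mono hD'D hcD'
    refine ⟨c, hcnt' c hc, ?_, ?_⟩
    · have hcl : IsClosed {d : KK × KK | d.2 = hh d.1} :=
        isClosed_eq continuous_snd (continuous_hh.comp continuous_fst)
      have : closure D ⊆ {d : KK × KK | d.2 = hh d.1} :=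
        closure_minimal (fun d hd => hd.2.2) hcl
      exact (this hcD).symm
    · have hcl : IsClosed {d : KK × KK | d.1 ∈ closure V} :=
        isClosed_closure.preimage continuous_fst
      have : closure D ⊆ {d : KK × KK | d.1 ∈ closure V} :=
        closure_minimal (fun d hd => subset_closure hd.2.1) hcl
      exact hVU (this hcD)
  -- the two one-sided sets
  let B1 : Set KK := {a | a ∈ A ∧ hh a = a ∧ ∃ s : Om, a.1 (Sum.inl s) = false}
  let B2 : Set KK := {a | a ∈ A ∧ hh a = a ∧ ∃ s : Om, a.1 (Sum.inr s) = false}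
  let l0 : KK := (fun _ => true, fun _ => false)
  -- no countable set of reals is everything
  have hnotall : ∀ b : Om, ∃ s : Om, ¬ s ≤ b := by
    intro b
    obtain ⟨r, hr⟩ : ∃ r : ℝ, r ∉ b.1 := by
      by_contra hall
      refine Cardinal.not_countable_real ((b.2).mono fun r _ => ?_)
      by_contra hr
      exact hall ⟨r, hr⟩
    exact ⟨⟨{r}, countable_singleton r⟩, fun h => hr (h rfl)⟩
  have hub : ∀ F : Finset Om, ∃ b : Om, ∀ s ∈ F, s ≤ b := by
    intro F
    refine ⟨⟨⋃ s ∈ F, s.1, F.countable_toSet.biUnion fun s _ => s.2⟩, ?_⟩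
    intro s hs r hr
    exact mem_biUnion (show s ∈ (F : Set Om) from hs) hr
  have hl1 : l0 ∈ closure B1 := by
    rw [mem_closure_iff_nhds]
    intro t ht
    obtain ⟨U, hUt, hU, hl0U⟩ := mem_nhds_iff.1 ht
    -- approximate l0 by a fixed point with a zero on the left
    obtain ⟨l, hlU, hlfix, s, hs⟩ : ∃ l ∈ U, hh l = l ∧ ∃ s : Om, l.1 (Sum.inl s) = false := by
      have hU' := hU.mem_nhds hl0U
      rw [nhds_prod_eq, Filter.mem_prod_iff] at hU'
      obtain ⟨t1, ht1, t2, ht2, ht12⟩ := hU'
      rw [nhds_pi, Filter.mem_pi'] at ht1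
      obtain ⟨F, u, hu, hsub⟩ := ht1
      obtain ⟨b, hb⟩ := hub (F.preimage Sum.inl (Sum.inl_injective.injOn))
      obtain ⟨s, hs⟩ := hnotall b
      let x : W → Bool := fun w => match w with
        | Sum.inl a => decide (a ≤ b)
        | Sum.inr _ => true
      refine ⟨(x, fun _ => false), ht12 ⟨hsub ?_, mem_of_mem_nhds ht2⟩, ?_, s, ?_⟩
      · intro w hw
        have hxw : x w = true := by
          rcases w with a | a
          · have : a ≤ b := hb a (by simpa using hw)
            simpa [x] using this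
          · rfl
        show x w ∈ u w
        rw [hxw]
        exact mem_of_mem_nhds (hu w)
      · rw [hh_eq_iff]
        rintro (⟨a, c⟩ | ⟨a, c⟩ | ⟨a, c⟩)
        · show (decide (a ≤ c) && (decide (c ≤ b) && !decide (a ≤ b))) = false
          by_cases h1 : a ≤ c
          · by_cases h2 : c ≤ b
            · simp [h1.trans h2]
            · simp [h2]
          · simp [h1]
        · show (decide (a ≤ c) && (true && !true)) = false
          simp
        · show (!decide (a ≤ b) && !true) = false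
          simp
      · show decide (s ≤ b) = false
        simpa using hs
    have hV : IsOpen (U ∩ {k : KK | k.1 (Sum.inl s) = false}) := by
      refine hU.inter ?_
      have : Continuous fun k : KK => k.1 (Sum.inl s) := (continuous_apply _).comp continuous_fst
      exact (isOpen_discrete {false}).preimage this
    obtain ⟨a, haA, hafix, haU, has⟩ := hfix l hlfix _ hV ⟨hlU, hs⟩
    exact ⟨a, hUt haU, haA, hafix, s, has⟩
  have hl2 : l0 ∈ closure B2 := by
    rw [mem_closure_iff_nhds]
    intro t ht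
    obtain ⟨U, hUt, hU, hl0U⟩ := mem_nhds_iff.1 ht
    obtain ⟨l, hlU, hlfix, s, hs⟩ : ∃ l ∈ U, hh l = l ∧ ∃ s : Om, l.1 (Sum.inr s) = false := by
      have hU' := hU.mem_nhds hl0U
      rw [nhds_prod_eq, Filter.mem_prod_iff] at hU'
      obtain ⟨t1, ht1, t2, ht2, ht12⟩ := hU'
      rw [nhds_pi, Filter.mem_pi'] at ht1
      obtain ⟨F, u, hu, hsub⟩ := ht1
      obtain ⟨b, hb⟩ := hub (F.preimage Sum.inr (Sum.inr_injective.injOn))
      obtain ⟨s, hs⟩ := hnotall b
      let x : W → Bool := fun w => match w with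
        | Sum.inl _ => true
        | Sum.inr a => decide (a ≤ b)
      refine ⟨(x, fun _ => false), ht12 ⟨hsub ?_, mem_of_mem_nhds ht2⟩, ?_, s, ?_⟩
      · intro w hw
        have hxw : x w = true := by
          rcases w with a | a
          · rfl
          · have : a ≤ b := hb a (by simpa using hw)
            simpa [x] using this
        show x w ∈ u w
        rw [hxw]
        exact mem_of_mem_nhds (hu w)
      · rw [hh_eq_iff]
        rintro (⟨a, c⟩ | ⟨a, c⟩ | ⟨a, c⟩)
        · show (decide (a ≤ c) && (true && !true)) = false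
          simp
        · show (decide (a ≤ c) && (decide (c ≤ b) && !decide (a ≤ b))) = false
          by_cases h1 : a ≤ c
          · by_cases h2 : c ≤ b
            · simp [h1.trans h2]
            · simp [h2]
          · simp [h1]
        · show (!true && !decide (c ≤ b)) = false
          simp
      · show decide (s ≤ b) = false
        simpa using hs
    have hV : IsOpen (U ∩ {k : KK | k.1 (Sum.inr s) = false}) := by
      refine hU.inter ?_
      have : Continuous fun k : KK => k.1 (Sum.inr s) := (continuous_apply _).comp continuous_fst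
      exact (isOpen_discrete {false}).preimage this
    obtain ⟨a, haA, hafix, haU, has⟩ := hfix l hlfix _ hV ⟨hlU, hs⟩
    exact ⟨a, hUt haU, haA, hafix, s, has⟩
  have hl12 : (l0, l0) ∈ closure (B1 ×ˢ B2) := by
    rw [closure_prod_eq]
    exact ⟨hl1, hl2⟩
  obtain ⟨c, _, D', hD'D, hD'c, hcD'⟩ := key φ hφ (B1 ×ˢ B2)
    (fun d hd => ⟨hcnt _ hd.1.1, hcnt _ hd.2.1⟩) l0 hl12
  have h1 : ∀ d : KK × KK, ∃ s : Om, d ∈ D' → d.1.1 (Sum.inl s) = false := by
    intro d
    by_cases hd : d ∈ D'
    · obtain ⟨s, hs⟩ := (hD'D hd).1.2.2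
      exact ⟨s, fun _ => hs⟩
    · exact ⟨⟨∅, countable_empty⟩, fun h => absurd h hd⟩
  have h2 : ∀ d : KK × KK, ∃ s : Om, d ∈ D' → d.2.1 (Sum.inr s) = false := by
    intro d
    by_cases hd : d ∈ D'
    · obtain ⟨s, hs⟩ := (hD'D hd).2.2.2
      exact ⟨s, fun _ => hs⟩
    · exact ⟨⟨∅, countable_empty⟩, fun h => absurd h hd⟩
  choose s1 hs1 using h1
  choose s2 hs2 using h2
  let a1 : Om := ⟨⋃ d ∈ D', (s1 d).1, hD'c.biUnion fun d _ => (s1 d).2⟩
  let a2 : Om := ⟨⋃ d ∈ D', (s2 d).1, hD'c.biUnion fun d _ => (s2 d).2⟩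
  have ha1 : ∀ d ∈ D', s1 d ≤ a1 := fun d hd r hr => mem_biUnion hd hr
  have ha2 : ∀ d ∈ D', s2 d ≤ a2 := fun d hd r hr => mem_biUnion hd hr
  have hcc : (c, c) ∈ {d : KK × KK | d.1.1 (Sum.inl a1) = false ∧ d.2.1 (Sum.inr a2) = false ∧
      hh d.1 = d.1} := by
    have hcl : IsClosed {d : KK × KK | d.1.1 (Sum.inl a1) = false ∧ d.2.1 (Sum.inr a2) = false ∧
        hh d.1 = d.1} := by
      refine IsClosed.inter (isClosed_eq ?_ continuous_const)
        (IsClosed.inter (isClosed_eq ?_ continuous_const) (isClosed_eq ?_ continuous_fst))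
      · exact (continuous_apply _).comp (continuous_fst.comp continuous_fst)
      · exact (continuous_apply _).comp (continuous_fst.comp continuous_snd)
      · exact continuous_hh.comp continuous_fst
    refine closure_minimal ?_ hcl hcD'
    intro d hd
    have hdB := hD'D hd
    refine ⟨?_, ?_, hdB.1.2.1⟩
    · have hv := (hh_eq_iff d.1).1 hdB.1.2.1 (Sum.inl (s1 d, a1))
      have hv' : (decide (s1 d ≤ a1) && (d.1.1 (Sum.inl a1) && !d.1.1 (Sum.inl (s1 d)))) = false :=
        hv
      rw [hs1 d hd] at hv'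
      simpa [ha1 d hd] using hv'
    · have hv := (hh_eq_iff d.2).1 hdB.2.2.1 (Sum.inr (Sum.inl (s2 d, a2)))
      have hv' : (decide (s2 d ≤ a2) && (d.2.1 (Sum.inr a2) && !d.2.1 (Sum.inr (s2 d)))) = false :=
        hv
      rw [hs2 d hd] at hv'
      simpa [ha2 d hd] using hv'
  obtain ⟨hc1, hc2, hc3⟩ := hcc
  have hv := (hh_eq_iff c).1 hc3 (Sum.inr (Sum.inr (a1, a2)))
  have hv' : (!c.1 (Sum.inl a1) && !c.1 (Sum.inr a2)) = false := hv
  have hc1' : c.1 (Sum.inl a1) = false := hc1
  have hc2' : c.1 (Sum.inr a2) = false := hc2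
  rw [hc1', hc2'] at hv'
  simp at hv'

/-- The negation of the preceding statement: Let K be a compact Hausdorff space with a dense Σ-subset, i.e. a Valdivia compactum, and let h be a continuous involution of K. Then K has a dense Σ-subset A that is invariant under h. -/
theorem result :
    ¬ (∀ (K : Type) [TopologicalSpace K] [CompactSpace K] [T2Space K],
      (∃ A : Set K, Dense A ∧ ∃ (Γ : Type) (φ : K → (Γ → ℝ)),
          Topology.IsEmbedding φ ∧ A = φ ⁻¹' {x : Γ → ℝ | {γ : Γ | x γ ≠ 0}.Countable}) →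
      ∀ h : K → K, Continuous h → (∀ x, h (h x) = x) →
        ∃ A : Set K, Dense A ∧ (∀ x, h x ∈ A ↔ x ∈ A) ∧
          ∃ (Γ : Type) (φ : K → (Γ → ℝ)),
            Topology.IsEmbedding φ ∧ A = φ ⁻¹' {x : Γ → ℝ | {γ : Γ | x γ ≠ 0}.Countable}) := by
  intro H
  obtain ⟨A, hA, hinv, Γ, φ, hφ, hAφ⟩ := H KK
    ⟨_, emb_dense, W ⊕ J, emb, emb_embedding, rfl⟩ hh continuous_hh hh_hh
  exact no_invariant A hA hinv Γ φ hφ hAφ

end Pool.Agent.S08366
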