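import Pool.Statements.S08367
import Pool.Agent.Helper477.Density

set_option autoImplicit false
open Filter Topology
open scoped Classical
open Pool Pool.MP_4a0c19_gt

namespace Pool.Agent.S08367

/-- For every n≥1, over lens spaces L(q;s) of dimension 2n−1 with q≤x, the share of isometry classes that are spectrally unique tends to 1, via the combinatorial isometry and 1-norm lattice isospectrality criteria. -/
theorem result :
  ∀ n : ℕ, 1 ≤ n →
  ∀ (S : ℕ → Finset (Fin n → ℕ)),
   (∀ q : ℕ, S q = Fintype.piFinset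
      (fun _ : Fin n => (Finset.range q).filter (fun a => Nat.Coprime a q))) →
  ∀ (Iso : ℕ → (Fin n → ℕ) → (Fin n → ℕ) → Prop),
   (∀ (q : ℕ) (s s' : Fin n → ℕ), Iso q s s' ↔
      ∃ σ : Equiv.Perm (Fin n), ∃ ε : Fin n → ℤ, (∀ j, ε j = 1 ∨ ε j = -1) ∧
        ∃ t : ℕ, Nat.Coprime t q ∧
          ∀ j, (s' j : ℤ) ≡ ε j * (t : ℤ) * (s (σ j) : ℤ) [ZMOD (q : ℤ)]) →
  ∀ (Spec : ℕ → (Fin n → ℕ) → (Fin n → ℕ) → Prop),
   (∀ (q : ℕ) (s s' : Fin n → ℕ), Spec q s s' ↔
      ∀ k : ℕ,
        ((Fintype.piFinset (fun _ : Fin n => Finset.Icc (-(k : ℤ)) (k : ℤ))).filter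
            (fun a => ∑ j, |a j| = (k : ℤ) ∧
              (∑ j, a j * (s j : ℤ)) ≡ 0 [ZMOD (q : ℤ)])).card =
        ((Fintype.piFinset (fun _ : Fin n => Finset.Icc (-(k : ℤ)) (k : ℤ))).filter
            (fun a => ∑ j, |a j| = (k : ℤ) ∧
              (∑ j, a j * (s' j : ℤ)) ≡ 0 [ZMOD (q : ℤ)])).card) →
  Tendsto (fun x : ℕ =>
      (∑ q ∈ Finset.Icc 1 x,
          ((((S q).filter (fun s => ∀ s' ∈ S q, Spec q s s' → Iso q s s')).image
              (fun s => (S q).filter (fun s' => Iso q s s'))).card : ℝ)) /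
      (∑ q ∈ Finset.Icc 1 x,
          (((S q).image (fun s => (S q).filter (fun s' => Iso q s s'))).card : ℝ)))
    atTop (𝓝 1) := by
  intro n hn S hS Iso hIso Spec hSpec
  obtain ⟨m, rfl⟩ : ∃ m, n = m + 1 := ⟨n - 1, by omega⟩
  have eS : ∀ q, S q = Helper477.SS (m + 1) q := fun q => hS q
  have eIso : ∀ q, Iso q = Helper477.IsoL q := by
    intro q; funext s s'; exact propext (hIso q s s')
  have eSpec : ∀ q, Spec q = Helper477.SpcL q := by
    intro q; funext s s'
    refine propext ((hSpec q s s').trans ?_)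
    constructor
    · intro h k
      have := h k
      unfold Helper477.cnt
      convert this
    · intro h k
      have := h k
      unfold Helper477.cnt at this
      convert this
  -- the three counting functions
  have hL : ∀ q, (((S q).image (fun s => (S q).filter (fun s' => Iso q s s'))).card : ℝ) =
      (Helper477.LL (m + 1) q : ℝ) := by
    intro q
    rw [eS, eIso, Helper477.LL]
    congr 2
  set U : ℕ → ℝ := fun q => ((((S q).filter (fun s => ∀ s' ∈ S q, Spec q s s' → Iso q s s')).image
              (fun s => (S q).filter (fun s' => Iso q s s'))).card : ℝ) with hU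
  have hUle : ∀ q, U q ≤ (Helper477.LL (m + 1) q : ℝ) := by
    intro q
    rw [← hL q, hU]
    simp only
    exact_mod_cast Finset.card_le_card (Finset.image_subset_image (Finset.filter_subset _ _))
  have hUge : ∀ q, (Helper477.LL (m + 1) q : ℝ) ≤ U q + (Helper477.NU (m + 1) q : ℝ) := by
    intro q
    have hNU : (Helper477.NU (m + 1) q : ℝ) =
        ((((S q).filter (fun s => ¬ ∀ s' ∈ S q, Spec q s s' → Iso q s s')).image
              (fun s => (S q).filter (fun s' => Iso q s s'))).card : ℝ) := by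
      rw [eS, eIso, eSpec, Helper477.NU]
      congr 2
    rw [hNU, ← hL q, hU]
    simp only
    have h1 : (S q).image (fun s => (S q).filter (fun s' => Iso q s s')) =
        ((S q).filter (fun s => ∀ s' ∈ S q, Spec q s s' → Iso q s s')).image
              (fun s => (S q).filter (fun s' => Iso q s s')) ∪
        ((S q).filter (fun s => ¬ ∀ s' ∈ S q, Spec q s s' → Iso q s s')).image
              (fun s => (S q).filter (fun s' => Iso q s s')) := by
      rw [← Finset.image_union, Finset.filter_union_filter_not_eq]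
    rw [h1]
    exact_mod_cast Finset.card_union_le _ _
  have hzero := Helper477.density_zero m
  have hgoal : Tendsto (fun x : ℕ => (∑ q ∈ Finset.Icc 1 x, U q) /
      (∑ q ∈ Finset.Icc 1 x, (Helper477.LL (m + 1) q : ℝ))) atTop (𝓝 1) := by
    have h1 : Tendsto (fun x : ℕ => 1 - ((∑ q ∈ Finset.Icc 1 x, Helper477.NU (m + 1) q : ℕ) : ℝ) /
        ((∑ q ∈ Finset.Icc 1 x, Helper477.LL (m + 1) q : ℕ) : ℝ)) atTop (𝓝 (1 - 0)) :=
      hzero.const_sub 1
    rw [sub_zero] at h1
    refine tendsto_of_tendsto_of_tendsto_of_le_of_le' h1 tendsto_const_nhds ?_ ?_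
    · filter_upwards [eventually_gt_atTop 0] with x hx
      have hpos : (0 : ℝ) < ∑ q ∈ Finset.Icc 1 x, (Helper477.LL (m + 1) q : ℝ) := by
        have h2 := Helper477.sum_LL_lower m x hx
        have hx' : (0 : ℝ) < x := by exact_mod_cast hx
        have h3 : (0 : ℝ) < (x : ℝ) ^ (m + 1) := by positivity
        by_contra hcon
        push Not at hcon
        have h4 : ((∑ q ∈ Finset.Icc 1 x, Helper477.LL (m + 1) q : ℕ) : ℝ) ≤ 0 := by
          push_cast; exact hcon
        have h5 := mul_nonpos_of_nonneg_of_nonpos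
          (Nat.cast_nonneg (α := ℝ) (12 ^ m * ((m + 1).factorial * 2 ^ (m + 1)))) h4
        linarith
      push_cast
      rw [le_div_iff₀ hpos, sub_mul, one_mul, div_mul_cancel₀ _ hpos.ne']
      have h2 := Finset.sum_le_sum (s := Finset.Icc 1 x) (fun q _ => hUge q)
      rw [Finset.sum_add_distrib] at h2
      linarith
    · filter_upwards with x
      apply div_le_one_of_le₀ (Finset.sum_le_sum (fun q _ => hUle q))
      exact Finset.sum_nonneg (fun q _ => Nat.cast_nonneg _)
  refine hgoal.congr (fun x => ?_)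
  congr 1
  exact Finset.sum_congr rfl (fun q _ => (hL q).symm)

end Pool.Agent.S08367
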