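import Pool.Statements.S08380
import Pool.Agent.Helper800.AtEq
import Pool.Agent.Helper800.NotU

set_option autoImplicit false
open Pool Pool.MP_4d09b6_gt

namespace Pool.Agent.S08380

/-- The negation of the preceding statement: For Tychonoff spaces X, Y: if some homeomorphism of R^X onto R^Y (product topology) maps the continuous functions on X exactly onto those on Y, then C_p(X) and C_p(Y) are uniformly homeomorphic in the pointwise uniformity. -/
theorem result :
    ¬ (∀ (X Y : Type) [TopologicalSpace X] [TopologicalSpace Y] [T35Space X] [T35Space Y],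
      (∃ φ : Homeomorph (X → ℝ) (Y → ℝ),
          φ '' {f : X → ℝ | Continuous f} = {g : Y → ℝ | Continuous g}) →
      Nonempty (UniformEquiv {f : X → ℝ // Continuous f} {g : Y → ℝ // Continuous g})) := by
  intro h
  obtain ⟨u⟩ := h Pool.Agent.Helper800.AtEq.X Pool.Agent.Helper800.AtEq.Y
    ⟨Pool.Agent.Helper800.AtEq.phi, Pool.Agent.Helper800.AtEq.phi_image⟩
  exact Pool.Agent.Helper800.NotU.not_uniformEquiv u

end Pool.Agent.S08380
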