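import Pool.Statements.S08381
import Pool.Agent.Helper339.CW.P_circle_lift
import Pool.Agent.Helper339.CW.P_circle_unlift
import Pool.Agent.Helper339.CW.P_main_line

set_option autoImplicit false
open scoped Manifold
open Pool Pool.MP_4ec80c_gt

namespace Pool.Agent.S08381

/-- Every orientation-preserving smooth diffeomorphism f of the circle equals g∘h∘g⁻¹∘h⁻¹ for some orientation-preserving smooth circle diffeomorphisms g and h. Orientation-preserving means having a continuous strictly increasing lift to the real line. -/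
theorem result :
    ∀ f : Diffeomorph (𝓡 1) (𝓡 1) Circle Circle ((⊤ : ℕ∞) : WithTop ℕ∞),
      (∃ F : ℝ → ℝ, Continuous F ∧ StrictMono F ∧ ∀ x : ℝ, f (Circle.exp x) = Circle.exp (F x)) →
      ∃ g h : Diffeomorph (𝓡 1) (𝓡 1) Circle Circle ((⊤ : ℕ∞) : WithTop ℕ∞),
        (∃ G : ℝ → ℝ, Continuous G ∧ StrictMono G ∧ ∀ x : ℝ, g (Circle.exp x) = Circle.exp (G x)) ∧
        (∃ H : ℝ → ℝ, Continuous H ∧ StrictMono H ∧ ∀ x : ℝ, h (Circle.exp x) = Circle.exp (H x)) ∧
        ∀ z : Circle, f z = g (h (g.symm (h.symm z))) := by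
  intro f hf
  obtain ⟨e, he, hfe⟩ := Helper339.CW.circle_lift f hf
  obtain ⟨X, H, m, hX, hH, hm⟩ := Helper339.CW.main_line e he
  obtain ⟨g, hg1, hg2, hg3⟩ := Helper339.CW.circle_unlift X hX
  obtain ⟨h, hh1, hh2, hh3⟩ := Helper339.CW.circle_unlift H hH
  refine ⟨g, h, hg3, hh3, ?_⟩
  intro z
  have hz : ∃ x : ℝ, z = Circle.exp (2 * Real.pi * x) := by
    refine ⟨Complex.arg (z : ℂ) / (2 * Real.pi), ?_⟩
    have : 2 * Real.pi * (Complex.arg (z : ℂ) / (2 * Real.pi)) = Complex.arg (z : ℂ) := by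
      field_simp
    rw [this, Circle.exp_arg]
  obtain ⟨x, rfl⟩ := hz
  rw [hfe, hm, hh2, hg2, hh1, hg1]
  have h1 : 2 * Real.pi * ((X * H * X⁻¹ * H⁻¹) x + (m : ℝ)) =
      2 * Real.pi * X (H (X⁻¹ (H⁻¹ x))) + m * (2 * Real.pi) := by
    simp only [Equiv.Perm.coe_mul, Function.comp_apply]
    ring
  rw [h1, Circle.exp_add]
  have h2 : Circle.exp ((m : ℝ) * (2 * Real.pi)) = 1 := by
    exact Circle.exp_int_mul_two_pi m
  rw [h2, mul_one]

end Pool.Agent.S08381
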