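import Pool.Statements.S08394
import Pool.Agent.Helper475.TWMain

set_option autoImplicit false
open Pool Pool.MP_52b37d_gt

namespace Pool.Agent.S08394

/-- The negation of the preceding statement: For every nondegenerate metric continuum M with a continuous surjection f : M → M such that every subcontinuum containing x and f(x) is all of M, there is a continuous map of M onto the circle not homotopic to a constant. -/
theorem result :
    ¬ (∀ (M : Type) [MetricSpace M] [CompactSpace M] [ConnectedSpace M] [Nontrivial M]
      (f : C(M, M)),
      Function.Surjective f →
      (∀ x : M, ∀ K : Set M, IsClosed K → IsConnected K → x ∈ K → f x ∈ K → K = Set.univ) →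
      ∃ g : C(M, Circle), Function.Surjective g ∧
        ∀ c : Circle, ¬ ContinuousMap.Homotopic g (ContinuousMap.const M c)) :=
  Pool.Agent.Helper475.TW.theta_tower_main

end Pool.Agent.S08394
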