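import Pool.Statements.S08416
import Pool.Agent.Helper220.ClosureDisc

set_option autoImplicit false
open Pool Pool.MP_577fd0_gt

namespace Pool.Agent.S08416

/-- The negation of the preceding statement: For a Tychonoff space X: if the closure in C_p(X) (pointwise topology) of every discrete subspace of C_p(X) has countable pseudocharacter, then X is separable. -/
theorem result :
    ¬ (∀ (X : Type) [TopologicalSpace X] [T35Space X],
      (∀ D : Set (X → ℝ), (∀ d ∈ D, Continuous d) →
        (∀ d ∈ D, ∃ U : Set (X → ℝ), IsOpen U ∧ U ∩ D = {d}) →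
        ∀ f ∈ closure D, Continuous f →
          ∃ 𝒰 : Set (Set (X → ℝ)), 𝒰.Countable ∧ (∀ U ∈ 𝒰, IsOpen U ∧ f ∈ U) ∧
            ⋂₀ 𝒰 ∩ {g | g ∈ closure D ∧ Continuous g} = {f}) →
      TopologicalSpace.SeparableSpace X) := by
  exact Pool.Agent.Helper220.ClosureDisc.main577

end Pool.Agent.S08416
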