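import Pool.Statements.S08423
import Pool.Agent.Helper975.Ptol.Main

set_option autoImplicit false
open Pool Pool.MP_594704_gt

namespace Pool.Agent.S08423

/-- Let d be a metric on an open convex set in R^n that is topologically compatible and finitely compact, whose metric segments are exactly the straight segments, and which is Ptolemaic. Then it is isometric to Euclidean n-space or to a rescaled Klein-model hyperbolic n-space. -/
theorem result :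
    ∀ (n : ℕ) (U : Set (EuclideanSpace ℝ (Fin n)))
      (d : EuclideanSpace ℝ (Fin n) → EuclideanSpace ℝ (Fin n) → ℝ),
      U.Nonempty → IsOpen U → Convex ℝ U →
      (∀ x ∈ U, ∀ y ∈ U, (d x y = 0 ↔ x = y)) →
      (∀ x ∈ U, ∀ y ∈ U, d x y = d y x) →
      (∀ x ∈ U, ∀ y ∈ U, ∀ z ∈ U, d x z ≤ d x y + d y z) →
      ContinuousOn
        (fun p : EuclideanSpace ℝ (Fin n) × EuclideanSpace ℝ (Fin n) => d p.1 p.2) (U ×ˢ U) →
      (∀ x ∈ U, ∀ ε : ℝ, 0 < ε → ∃ δ : ℝ, 0 < δ ∧ ∀ y ∈ U, d x y < δ → dist x y < ε) →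
      (∀ x ∈ U, ∀ r : ℝ, IsCompact {y | y ∈ U ∧ d x y ≤ r}) →
      (∀ x ∈ U, ∀ y ∈ U, ∀ z ∈ U, (d x y + d y z = d x z ↔ y ∈ segment ℝ x z)) →
      (∀ p ∈ U, ∀ q ∈ U, ∀ r ∈ U, ∀ s ∈ U,
        d p r * d q s ≤ d p q * d r s + d q r * d s p) →
      (∃ f : EuclideanSpace ℝ (Fin n) → EuclideanSpace ℝ (Fin n),
          Set.BijOn f U Set.univ ∧ ∀ x ∈ U, ∀ y ∈ U, d x y = dist (f x) (f y)) ∨
      (∃ c : ℝ, 0 < c ∧ ∃ f : EuclideanSpace ℝ (Fin n) → EuclideanSpace ℝ (Fin n),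
          Set.BijOn f U (Metric.ball 0 1) ∧
          ∀ x ∈ U, ∀ y ∈ U, Real.cosh (d x y / c) =
            (1 - inner ℝ (f x) (f y)) / Real.sqrt ((1 - ‖f x‖ ^ 2) * (1 - ‖f y‖ ^ 2))) := by
  intro n U d hne h1 h2 h3 h4 h5 h6 h7 h8 h9 h10
  exact Pool.Agent.Helper975.Ptol.main_thm n U d hne ⟨h1, h2, h3, h4, h5, h6, h7, h8, h9, h10⟩

end Pool.Agent.S08423
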