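import Pool.Statements.S08426
import Pool.Agent.Helper876.PlateMain

set_option autoImplicit false
open MeasureTheory
open scoped Pointwise
open Pool Pool.MP_598757_gt

namespace Pool.Agent.S08426

/-- The negation of the preceding statement: For every convex body K in 3-space and real c: if every orthogonal plane projection has isoperimetric ratio π·area/V₁² at least c, then 9π·vol(K)²/(2·V₂(K)³) is at least c (V₁, V₂ given via Steiner-formula limits). -/
theorem result :
    ¬ (∀ (K : Set (EuclideanSpace ℝ (Fin 3))) (c : ℝ),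
    IsCompact K → Convex ℝ K → (interior K).Nonempty →
    (∀ u ∈ Metric.sphere (0 : EuclideanSpace ℝ (Fin 3)) 1, ∀ L : ℝ,
      Filter.Tendsto (fun t : ℝ =>
        ((volume ((fun x : EuclideanSpace ℝ (Fin 3) => x - (inner ℝ u x) • u) '' K
              + Metric.closedBall (0 : EuclideanSpace ℝ (Fin 3)) t)).toReal
          - 2 * t * ((volume (K + segment ℝ (0 : EuclideanSpace ℝ (Fin 3)) u)).toReal
              - (volume K).toReal)) / (Real.pi * t ^ 2))
        (nhdsWithin 0 (Set.Ioi 0)) (nhds L) →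
      c ≤ Real.pi * ((volume (K + segment ℝ (0 : EuclideanSpace ℝ (Fin 3)) u)).toReal
              - (volume K).toReal) / L ^ 2) →
    ∀ S : ℝ,
      Filter.Tendsto (fun t : ℝ =>
        ((volume (K + Metric.closedBall (0 : EuclideanSpace ℝ (Fin 3)) t)).toReal
          - (volume K).toReal) / (2 * t))
        (nhdsWithin 0 (Set.Ioi 0)) (nhds S) →
      c ≤ 9 * Real.pi * (volume K).toReal ^ 2 / (2 * S ^ 3)) := by
  intro H
  have hh : (0:ℝ) < 1 / 1000 := by norm_num
  have h1 := H (Pool.Agent.Helper876.plate (1 / 1000)) (Real.pi ^ 3 * (1 / 1000) / 1024)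
    (Pool.Agent.Helper876.isCompact_plate _) (Pool.Agent.Helper876.convex_plate _)
    (Pool.Agent.Helper876.interior_plate hh)
    (fun u hu L hL => Pool.Agent.Helper876.plate_check hh (by norm_num) u
      (by simpa using hu) L hL)
    (4 + 8 * (1 / 1000)) (Pool.Agent.Helper876.tendsto_S hh)
  rw [Pool.Agent.Helper876.vol_plate hh] at h1
  have hpi := Real.pi_gt_three
  have h2 : 9 * Real.pi * (8 * (1 / 1000)) ^ 2 / (2 * (4 + 8 * (1 / 1000)) ^ 3) ≤
      9 * Real.pi * (8 * (1 / 1000)) ^ 2 / (2 * 4 ^ 3) := by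
    apply div_le_div_of_nonneg_left (by positivity) (by norm_num) (by norm_num)
  have h3 : (9 : ℝ) < Real.pi ^ 2 := by nlinarith
  have h4 : 9 * Real.pi < Real.pi ^ 3 := by
    have : Real.pi ^ 3 = Real.pi ^ 2 * Real.pi := by ring
    rw [this]
    exact mul_lt_mul_of_pos_right h3 (by linarith)
  have h5 : Real.pi ^ 3 * (1 / 1000) / 1024 ≤ 9 * Real.pi * (8 * (1 / 1000)) ^ 2 / (2 * 4 ^ 3) :=
    h1.trans h2
  norm_num at h5
  linarith

end Pool.Agent.S08426
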