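import Pool.Statements.S08438
import Pool.Agent.Helper102.SubFinal

set_option autoImplicit false
open Pool Pool.MP_5aa89f_gt

namespace Pool.Agent.S08438

/-- The negation of the preceding statement: For every Tychonoff X, if disjoint closed sets in X × βX always lie in disjoint Gδ sets, then every open cover of X has a closed refinement that is a countable union of discrete families covering X (i.e. X is subparacompact). -/
theorem result :
    ¬ (∀ (X : Type) [TopologicalSpace X] [T35Space X],
      (∀ A B : Set (X × StoneCech X), IsClosed A → IsClosed B → Disjoint A B →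
        ∃ U V : Set (X × StoneCech X), IsGδ U ∧ IsGδ V ∧ A ⊆ U ∧ B ⊆ V ∧ Disjoint U V) →
      ∀ (ι : Type) (U : ι → Set X), (∀ i, IsOpen (U i)) → (⋃ i, U i) = Set.univ →
        ∃ (κ : Type) (F : ℕ → κ → Set X),
          (∀ n k, IsClosed (F n k)) ∧
          (∀ n, ∀ x : X, ∃ W ∈ nhds x, Set.Subsingleton {k : κ | (W ∩ F n k).Nonempty}) ∧
          (⋃ n, ⋃ k, F n k) = Set.univ ∧
          (∀ n k, ∃ i, F n k ⊆ U i)) := by
  intro h
  obtain ⟨ι, U, hU, hcov, hno⟩ := Pool.Agent.Helper102.SubFinal.not_subpara
  exact hno (h Pool.Agent.Helper102.XSpace.X Pool.Agent.Helper102.SubFinal.subnormal ι U hU hcov)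

end Pool.Agent.S08438
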