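import Pool.Statements.S08440
import Pool.Agent.Helper97.NS.J_exists_space

/-!
# A normed space that is not homeomorphic to any inner product space

The space is a linear subspace `E` of `ℓ¹` that contains all finitely supported sequences and is
generic: for every continuous family (over the Cantor set) of triples of vectors of `ℓ¹` that are
linearly independent altogether, some triple has its first two members in `E` and its third member
outside `E` (transfinite induction of length `2^ℵ₀`). Consequently every continuous binary operation
`m : E × E → E` satisfies locally, on a dense open set, `m (x, y) ∈ L + ℝ x + ℝ y` with a finite
dimensional `L`. If `f : F → E` is a homeomorphism from a normed space `F`, we apply this to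
`m (x, y) = f (f⁻¹ x + f⁻¹ y)`, and associativity and commutativity of the addition of `F` show that
modulo a finite dimensional subspace `f` is locally a scalar function times a continuous linear map
`S`; continuity of `f⁻¹` shows that `S` is a quotient map up to a constant. If `F` is an inner product
space this contradicts the norm of sums of far out unit vectors of `ℓ¹`.
-/

set_option autoImplicit false
universe u
open Pool Pool.MP_5aae23_gt

namespace Pool.Agent.S08440

/-- The negation of the preceding statement: Every real normed vector space, complete or not, is homeomorphic to some real inner product space (a normed space whose norm comes from an inner product, completeness not required). -/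
theorem result :
    ¬ (∀ (E : Type u) [NormedAddCommGroup E] [NormedSpace ℝ E],
      ∃ (F : Type u) (_ : NormedAddCommGroup F) (_ : InnerProductSpace ℝ F),
        Nonempty (E ≃ₜ F)) := by
  intro h
  obtain ⟨E, hE⟩ := NSp.exists_space.{u}
  obtain ⟨F, i1, i2, ⟨e⟩⟩ := h (ULift.{u} E)
  exact (hE F).false ((Homeomorph.ulift.symm.trans e).symm)

end Pool.Agent.S08440
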