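import Pool.Statements.S08442
-- import your own Pool.Agent.* helpers here

set_option autoImplicit false
open Pool Pool.MP_5abde9_gt

namespace Pool.Agent.S08442

/-- vertices: the pairs `(n, b)` and the points `w` of the Cantor set -/
abbrev V : Type := (ℕ × Bool) ⊕ (ℕ → Bool)

/-- a set of vertices is good when every `(n, b)` in it agrees with every `w` in it -/
def Good (A : Set V) : Prop :=
  ∀ (n : ℕ) (b : Bool) (w : ℕ → Bool), Sum.inl (n, b) ∈ A → Sum.inr w ∈ A → w n = b

/-- the set attached to a vertex: all finite good sets containing it -/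
def P (v : V) : Set (Finset V) := {σ | v ∈ σ ∧ Good (σ : Set V)}

/-- the family of sets -/
def S : Set (Set (Finset V)) := Set.range P

/-- the member of the family attached to a vertex -/
def s (v : V) : S := ⟨P v, v, rfl⟩

/-- the space of centered subfamilies -/
abbrev Cen (X : Type) (T : Set (Set X)) : Type :=
  {ξ : T → Bool // ∀ F : Finset T, (∀ P ∈ F, ξ P = true) → (⋂ P ∈ F, P.1).Nonempty}

lemma good_singleton (v : V) : Good ((({v} : Finset V)) : Set V) := by
  intro n b w h1 h2
  simp only [Finset.coe_singleton, Set.mem_singleton_iff] at h1 h2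
  rw [← h1] at h2
  exact absurd h2 (by simp)

lemma P_injective : Function.Injective P := by
  intro v w h
  have : ({v} : Finset V) ∈ P w := by
    rw [← h]
    exact ⟨Finset.mem_singleton_self v, good_singleton v⟩
  exact (Finset.mem_singleton.1 this.1).symm

lemma S_infinite : S.Infinite := by
  have : Infinite V := inferInstance
  exact Set.infinite_range_of_injective P_injective

lemma isOpen_val (T : Type) (t : T) (b : Bool) : IsOpen {ξ : T → Bool | ξ t = b} := by
  have h : IsOpen ({b} : Set Bool) := isOpen_discrete _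
  have hc : Continuous (fun ξ : T → Bool => ξ t) := continuous_apply t
  exact h.preimage hc

lemma isClosed_val (T : Type) (t : T) (b : Bool) : IsClosed {ξ : T → Bool | ξ t = b} := by
  have h : IsClosed ({b} : Set Bool) := isClosed_discrete _
  have hc : Continuous (fun ξ : T → Bool => ξ t) := continuous_apply t
  exact h.preimage hc

lemma isClosed_cen (X : Type) (T : Set (Set X)) :
    IsClosed {ξ : T → Bool | ∀ F : Finset T, (∀ P ∈ F, ξ P = true) →
      (⋂ P ∈ F, P.1).Nonempty} := by
  have : {ξ : T → Bool | ∀ F : Finset T, (∀ P ∈ F, ξ P = true) → (⋂ P ∈ F, P.1).Nonempty}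
      = ⋂ F : Finset T, {ξ : T → Bool | (∀ P ∈ F, ξ P = true) → (⋂ P ∈ F, P.1).Nonempty} := by
    ext ξ
    simp only [Set.mem_ofPred_eq, Set.mem_iInter]
  rw [this]
  refine isClosed_iInter fun F => ?_
  by_cases hF : (⋂ P ∈ F, P.1).Nonempty
  · have : {ξ : T → Bool | (∀ P ∈ F, ξ P = true) → (⋂ P ∈ F, P.1).Nonempty} = Set.univ := by
      ext ξ
      simp only [Set.mem_ofPred_eq, Set.mem_univ, iff_true]
      exact fun _ => hF
    rw [this]
    exact isClosed_univ
  · have : {ξ : T → Bool | (∀ P ∈ F, ξ P = true) → (⋂ P ∈ F, P.1).Nonempty}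
        = (⋂ P ∈ F, {ξ : T → Bool | ξ P = true})ᶜ := by
      ext ξ
      simp only [hF, Set.mem_ofPred_eq, Set.mem_compl_iff, Set.mem_iInter, imp_false]
    rw [this]
    refine IsOpen.isClosed_compl ?_
    exact isOpen_biInter_finset fun P _ => isOpen_val _ P true

instance (X : Type) (T : Set (Set X)) : CompactSpace (Cen X T) :=
  isCompact_iff_compactSpace.1 (isClosed_cen X T).isCompact

/-- a centered family restricted to a finite set of indices is centered -/
lemma restrict_cen {X : Type} {T : Set (Set X)} (ξ : Cen X T) (η : T → Bool)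
    (h : ∀ t, η t = true → ξ.1 t = true) :
    ∀ F : Finset T, (∀ P ∈ F, η P = true) → (⋂ P ∈ F, P.1).Nonempty :=
  fun F hF => ξ.2 F fun P hP => h P (hF P hP)

/-- indicator of a finite set of indices -/
noncomputable def ind {T : Type} (F : Finset T) : T → Bool := by
  classical exact fun t => decide (t ∈ F)

lemma ind_iff {T : Type} (F : Finset T) (t : T) : ind F t = true ↔ t ∈ F := by
  classical
  unfold ind
  exact decide_eq_true_iff

/-- basic neighbourhoods in a space of centered families -/
lemma nhd {X : Type} {T : Set (Set X)} (ξ : Cen X T) (U : Set (Cen X T)) (hU : IsOpen U)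
    (hξ : ξ ∈ U) : ∃ H : Finset T, ∀ η : Cen X T, (∀ t ∈ H, η.1 t = ξ.1 t) → η ∈ U := by
  obtain ⟨W, hW, rfl⟩ := isOpen_induced_iff.1 hU
  obtain ⟨H, u, hu, hsub⟩ := isOpen_pi_iff.1 hW ξ.1 hξ
  refine ⟨H, fun η hη => hsub ?_⟩
  intro t ht
  rw [hη t ht]
  exact (hu t ht).2

/-- the two vertices `(n, b)` and `w` are both present only if `w n = b` -/
lemma agree (ξ : Cen (Finset V) S) (n : ℕ) (b : Bool) (w : ℕ → Bool)
    (h1 : ξ.1 (s (Sum.inl (n, b))) = true) (h2 : ξ.1 (s (Sum.inr w)) = true) : w n = b := by
  classical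
  obtain ⟨σ, hσ⟩ := ξ.2 {s (Sum.inl (n, b)), s (Sum.inr w)} (by
    intro Q hQ
    simp only [Finset.mem_insert, Finset.mem_singleton] at hQ
    rcases hQ with rfl | rfl <;> assumption)
  simp only [Set.mem_iInter] at hσ
  have e1 := hσ (s (Sum.inl (n, b))) (by simp)
  have e2 := hσ (s (Sum.inr w)) (by simp)
  exact e1.2 n b w e1.1 e2.1

/-- the closed subspace -/
def C : Set (Cen (Finset V) S) :=
  ⋂ n : ℕ, {ξ | ∃ b : Bool, ξ.1 (s (Sum.inl (n, b))) = true}

lemma C_piece (n : ℕ) : {ξ : Cen (Finset V) S | ∃ b : Bool, ξ.1 (s (Sum.inl (n, b))) = true}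
    = Subtype.val ⁻¹' (⋃ b : Bool, {ξ : S → Bool | ξ (s (Sum.inl (n, b))) = true}) := by
  ext ξ
  simp

lemma C_closed : IsClosed C := by
  refine isClosed_iInter fun n => ?_
  rw [C_piece]
  refine IsClosed.preimage continuous_subtype_val ?_
  exact isClosed_iUnion_of_finite fun b => isClosed_val _ _ _

lemma C_Gδ : IsGδ C := by
  refine IsGδ.iInter_of_isOpen fun n => ?_
  rw [C_piece]
  refine IsOpen.preimage continuous_subtype_val ?_
  exact isOpen_iUnion fun b => isOpen_val _ _ _

/-- the vertices of the point attached to `w` -/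
def A (w : ℕ → Bool) : Set V := {v | v = Sum.inr w ∨ ∃ n, v = Sum.inl (n, w n)}

lemma good_A (w : ℕ → Bool) : Good (A w) := by
  rintro n b w' (h1 | ⟨m, h1⟩) (h2 | ⟨k, h2⟩)
  · exact absurd h1 (by simp)
  · exact absurd h1 (by simp)
  · simp only [Sum.inl.injEq, Prod.mk.injEq] at h1
    simp only [Sum.inr.injEq] at h2
    rw [h2, h1.2, h1.1]
  · exact absurd h2 (by simp)

/-- the point attached to `w` -/
noncomputable def pt (w : ℕ → Bool) : Cen (Finset V) S := by
  classical
  refine ⟨fun t => decide (∃ v ∈ A w, s v = t), ?_⟩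
  intro F hF
  have h : ∀ Q : F, ∃ v ∈ A w, s v = Q.1 := fun Q => by
    have := hF Q.1 Q.2
    exact decide_eq_true_iff.1 this
  choose v hv hs using h
  refine ⟨Finset.univ.image v, ?_⟩
  simp only [Set.mem_iInter]
  intro Q hQ
  have hgood : Good ((Finset.univ.image v : Finset V) : Set V) := by
    intro n b w' h1 h2
    refine good_A w n b w' ?_ ?_
    · simp only [Finset.coe_image, Finset.coe_univ, Set.image_univ, Set.mem_range] at h1
      obtain ⟨y, hy⟩ := h1
      rw [← hy]; exact hv y
    · simp only [Finset.coe_image, Finset.coe_univ, Set.image_univ, Set.mem_range] at h2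
      obtain ⟨y, hy⟩ := h2
      rw [← hy]; exact hv y
  have h1 : (Finset.univ.image v : Finset V) ∈ P (v ⟨Q, hQ⟩) :=
    ⟨Finset.mem_image_of_mem v (Finset.mem_univ _), hgood⟩
  have h2 : P (v ⟨Q, hQ⟩) = Q.1 := congrArg Subtype.val (hs ⟨Q, hQ⟩)
  rw [h2] at h1
  exact h1

lemma pt_iff (w : ℕ → Bool) (v : V) : (pt w).1 (s v) = true ↔ v ∈ A w := by
  classical
  unfold pt
  simp only [decide_eq_true_iff]
  constructor
  · rintro ⟨v', h1, h2⟩
    have : v' = v := P_injective (congrArg Subtype.val h2)
    rw [← this]; exact h1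
  · intro h
    exact ⟨v, h, rfl⟩

lemma pt_mem (w : ℕ → Bool) : pt w ∈ C := by
  simp only [C, Set.mem_iInter, Set.mem_ofPred_eq]
  intro n
  exact ⟨w n, (pt_iff w _).2 (Or.inr ⟨n, rfl⟩)⟩

lemma mk_cantor : Cardinal.mk (ℕ → Bool) = Cardinal.continuum := by
  simp

/-- the subspace `C` is not a continuous image of a space of centered families -/
theorem not_centered (X : Type) (T : Set (Set X)) (g : Cen X T → C) (hg : Continuous g)
    (hs : Function.Surjective g) : False := by
  classical
  -- finite centered families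
  have h1 : ∀ w : ℕ → Bool, ∃ F : Finset T, ∃ η : Cen X T, η.1 = ind F ∧
      (g η).1.1 (s (Sum.inr w)) = true := by
    intro w
    obtain ⟨ξ, hξ⟩ := hs ⟨pt w, pt_mem w⟩
    have hopen : IsOpen {η : Cen X T | (g η).1.1 (s (Sum.inr w)) = true} := by
      have := (isOpen_val S (s (Sum.inr w)) true).preimage
        (continuous_subtype_val.comp (continuous_subtype_val.comp hg))
      exact this
    obtain ⟨H, hH⟩ := nhd ξ _ hopen (by
      simp only [Set.mem_ofPred_eq, hξ]
      exact (pt_iff w _).2 (Or.inl rfl))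
    refine ⟨H.filter (fun t => ξ.1 t = true), ⟨ind _, restrict_cen ξ _ ?_⟩, rfl, hH _ ?_⟩
    · intro t ht
      rw [ind_iff, Finset.mem_filter] at ht
      exact ht.2
    · intro t ht
      by_cases h : ξ.1 t = true
      · rw [h]
        exact (ind_iff _ _).2 (Finset.mem_filter.2 ⟨ht, h⟩)
      · rw [Bool.not_eq_true] at h
        rw [h, ← Bool.not_eq_true]
        intro h'
        have := (Finset.mem_filter.1 ((ind_iff _ _).1 h')).2
        rw [h] at this
        exact absurd this (by simp)
  choose F η hη hw using h1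
  -- a size occurring uncountably often
  obtain ⟨N, hN⟩ : ∃ N : ℕ, ¬ {w | (F w).card = N}.Countable := by
    by_contra hcon
    push Not at hcon
    have : (Set.univ : Set (ℕ → Bool)) = ⋃ N : ℕ, {w | (F w).card = N} := by
      ext w; simp
    have hc : (Set.univ : Set (ℕ → Bool)).Countable := by
      rw [this]; exact Set.countable_iUnion hcon
    have hcc : Countable (ℕ → Bool) := Set.countable_univ_iff.1 hc
    have hle := Cardinal.mk_le_aleph0_iff.2 hcc
    rw [mk_cantor] at hle
    exact absurd hle (not_le.2 Cardinal.aleph0_lt_continuum)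
  -- a maximal root
  let Q : ℕ → Prop := fun k => ∃ R : Finset T, R.card = k ∧
    ¬ {w | (F w).card = N ∧ R ⊆ F w}.Countable
  have hQ0 : Q 0 := ⟨∅, rfl, by simpa using hN⟩
  have hQb : ∀ k, Q k → k ≤ N := by
    rintro k ⟨R, hR, hu⟩
    have : {w | (F w).card = N ∧ R ⊆ F w}.Nonempty := by
      by_contra h
      rw [Set.not_nonempty_iff_eq_empty] at h
      rw [h] at hu
      exact hu Set.countable_empty
    obtain ⟨w, hw1, hw2⟩ := this
    rw [← hw1, ← hR]
    exact Finset.card_le_card hw2
  obtain ⟨k, hk, hmax⟩ : ∃ k, Q k ∧ ∀ j, Q j → j ≤ k := by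
    refine ⟨Nat.findGreatest Q N, Nat.findGreatest_spec (Nat.zero_le N) hQ0, ?_⟩
    intro j hj
    exact Nat.le_findGreatest (hQb j hj) hj
  obtain ⟨R, hR, hE⟩ := hk
  set E : Set (ℕ → Bool) := {w | (F w).card = N ∧ R ⊆ F w} with hEdef
  have hpt : ∀ t, t ∉ R → {w | w ∈ E ∧ t ∈ F w}.Countable := by
    intro t ht
    by_contra hu
    have : Q (k + 1) := by
      refine ⟨insert t R, by rw [Finset.card_insert_of_notMem ht, hR], ?_⟩
      intro hc
      apply hu
      refine hc.mono ?_
      rintro w ⟨⟨ha, hb⟩, hc⟩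
      exact ⟨ha, Finset.insert_subset hc hb⟩
    have := hmax _ this
    omega
  have hEne : E.Nonempty := by
    by_contra h
    rw [Set.not_nonempty_iff_eq_empty] at h
    rw [h] at hE
    exact hE Set.countable_empty
  obtain ⟨w0, hw0⟩ := hEne
  -- the limit point
  let ρ : Cen X T := ⟨ind R, restrict_cen (η w0) _ (by
    intro t ht
    rw [hη w0, ind_iff]
    exact hw0.2 ((ind_iff _ _).1 ht))⟩
  have hx : ∀ n, ∃ b : Bool, (g ρ).1.1 (s (Sum.inl (n, b))) = true := by
    have := (g ρ).2
    simp only [C, Set.mem_iInter, Set.mem_ofPred_eq] at this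
    exact this
  choose x hx using hx
  have hcount : ∀ n, {w | w ∈ E ∧ w n ≠ x n}.Countable := by
    intro n
    have hopen : IsOpen {η : Cen X T | (g η).1.1 (s (Sum.inl (n, x n))) = true} := by
      have := (isOpen_val S (s (Sum.inl (n, x n))) true).preimage
        (continuous_subtype_val.comp (continuous_subtype_val.comp hg))
      exact this
    obtain ⟨H, hH⟩ := nhd ρ _ hopen (hx n)
    have hsub : {w | w ∈ E ∧ w n ≠ x n} ⊆ ⋃ t ∈ H \ R, {w | w ∈ E ∧ t ∈ F w} := by
      rintro w ⟨hwE, hwn⟩
      by_contra hcon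
      simp only [Set.mem_iUnion, Set.mem_ofPred_eq, not_exists, not_and, Finset.mem_sdiff] at hcon
      apply hwn
      refine agree (g (η w)).1 n (x n) w (hH (η w) ?_) (hw w)
      intro t ht
      rw [hη w]
      by_cases htR : t ∈ R
      · have e1 : ind (F w) t = true := (ind_iff _ _).2 (hwE.2 htR)
        have e2 : ρ.1 t = true := (ind_iff _ _).2 htR
        rw [e1, e2]
      · have e1 : ind (F w) t = false := by
          rw [← Bool.not_eq_true, ind_iff]
          exact hcon t ⟨ht, htR⟩ hwE
        have e2 : ρ.1 t = false := by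
          rw [← Bool.not_eq_true]
          intro h
          exact htR ((ind_iff _ _).1 h)
        rw [e1, e2]
    refine Set.Countable.mono hsub ?_
    refine Set.Countable.biUnion (Finset.countable_toSet _) ?_
    intro t ht
    refine hpt t ?_
    have ht' : t ∈ H \ R := ht
    exact (Finset.mem_sdiff.1 ht').2
  apply hE
  have hfin : E ⊆ insert x (⋃ n, {w | w ∈ E ∧ w n ≠ x n}) := by
    intro w hwE
    by_cases h : w = x
    · exact Or.inl h
    · right
      obtain ⟨n, hn⟩ := Function.ne_iff.1 h
      exact Set.mem_iUnion.2 ⟨n, hwE, hn⟩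
  refine Set.Countable.mono hfin ?_
  exact (Set.countable_iUnion hcount).insert x

/-- The negation of the preceding statement: If a compact Hausdorff space is a continuous image of the space of subfamilies with the finite intersection property of some infinite family of sets, then every nonempty closed G-delta subset of it is also such a continuous image. -/
theorem result :
    ¬ (∀ (K : Type) [TopologicalSpace K] [CompactSpace K] [T2Space K],
      (∃ (X : Type) (S : Set (Set X)), S.Infinite ∧
        ∃ f : {ξ : S → Bool //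
            ∀ F : Finset S, (∀ P ∈ F, ξ P = true) → (⋂ P ∈ F, P.1).Nonempty} → K,
          Continuous f ∧ Function.Surjective f) →
      ∀ C : Set K, IsClosed C → IsGδ C → C.Nonempty →
        ∃ (X : Type) (S : Set (Set X)), S.Infinite ∧
          ∃ g : {ξ : S → Bool //
              ∀ F : Finset S, (∀ P ∈ F, ξ P = true) → (⋂ P ∈ F, P.1).Nonempty} → C,
            Continuous g ∧ Function.Surjective g) := by
  intro h
  obtain ⟨X, T, _, g, hg, hs⟩ := h (Cen (Finset V) S)
    ⟨Finset V, S, S_infinite, id, continuous_id, Function.surjective_id⟩ C C_closed C_Gδ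
    ⟨pt (fun _ => false), pt_mem _⟩
  exact not_centered X T g hg hs

end Pool.Agent.S08442
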