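import Pool.Statements.S08446

set_option autoImplicit false
open Pool Pool.MP_5b75f6_gt
open Filter Topology Set OnePoint

namespace Pool.Agent.S08446

theorem t35_sum (X Y : Type) [TopologicalSpace X] [TopologicalSpace Y] [T35Space X] [T35Space Y] :
    T35Space (X ⊕ Y) := by
  have : CompletelyRegularSpace (X ⊕ Y) := by
    refine ⟨?_⟩
    rintro (x | y) K hK hx
    · obtain ⟨f, hf, hfx, hfK⟩ := CompletelyRegularSpace.completely_regular x (Sum.inl ⁻¹' K)
        (hK.preimage continuous_inl) hx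
      refine ⟨Sum.elim f (fun _ => 1), hf.sumElim continuous_const, hfx, ?_⟩
      rintro (z | z) hz
      · exact hfK hz
      · rfl
    · obtain ⟨f, hf, hfx, hfK⟩ := CompletelyRegularSpace.completely_regular y (Sum.inr ⁻¹' K)
        (hK.preimage continuous_inr) hx
      refine ⟨Sum.elim (fun _ => 1) f, continuous_const.sumElim hf, hfx, ?_⟩
      rintro (z | z) hz
      · rfl
      · exact hfK hz
  exact T35Space.mk

/-- index set: branches, with the discrete topology -/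
def I : Type := ℕ → Bool

instance : TopologicalSpace I := ⊥
instance : DiscreteTopology I := ⟨rfl⟩

/-- code of the initial segment of length n of the branch x -/
def code (x : I) (n : ℕ) : ℕ := Encodable.encode (List.ofFn (fun i : Fin n => x i))

theorem code_eq {x y : I} {n m : ℕ} (h : code x n = code y m) : n = m ∧ ∀ i < n, x i = y i := by
  have h1 : List.ofFn (fun i : Fin n => x i) = List.ofFn (fun i : Fin m => y i) :=
    Encodable.encode_injective h
  have h2 : n = m := by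
    have := congrArg List.length h1
    simpa using this
  subst h2
  refine ⟨rfl, fun i hi => ?_⟩
  have h3 := List.ofFn_injective h1
  exact congrFun h3 ⟨i, hi⟩

theorem code_inj (x : I) : Function.Injective (code x) := fun _ _ h => (code_eq h).1

/-- the free ultrafilter attached to a branch -/
noncomputable def a (x : I) : Ultrafilter ℕ := (hyperfilter ℕ).map (code x)

theorem range_mem_a (x : I) : Set.range (code x) ∈ a x := by
  rw [a, Ultrafilter.mem_map]
  have : code x ⁻¹' Set.range (code x) = Set.univ := by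
    ext n; simp
  rw [this]
  exact Filter.univ_mem

theorem range_notMem_a {x y : I} (h : x ≠ y) : Set.range (code x) ∉ a y := by
  rw [a, Ultrafilter.mem_map]
  have hfin : (code y ⁻¹' Set.range (code x)).Finite := by
    have : ∃ k, x k ≠ y k := by
      by_contra hcon
      push Not at hcon
      exact h (funext hcon)
    obtain ⟨k, hk⟩ := this
    refine (Set.finite_Iic k).subset ?_
    rintro n ⟨m, hm⟩
    obtain ⟨h1, h2⟩ := code_eq hm
    by_contra hn
    simp only [Set.mem_Iic, not_le] at hn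
    exact hk (h2 k (by omega))
  exact hfin.notMem_hyperfilter

theorem a_finite (x : I) {s : Set ℕ} (hs : s.Finite) : s ∉ a x := by
  rw [a, Ultrafilter.mem_map]
  exact (hs.preimage ((code_inj x).injOn)).notMem_hyperfilter

/-- The pseudocompact space K inside the space of ultrafilters. -/
def KK : Set (Ultrafilter ℕ) := {u | ∃ b ∈ u, {x : I | b ∈ a x}.Finite}

theorem pure_mem_K (m : ℕ) : (pure m : Ultrafilter ℕ) ∈ KK := by
  refine ⟨{m}, by simp, ?_⟩
  have : {x : I | {m} ∈ a x} = ∅ := by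
    ext x
    simp only [Set.mem_ofPred_eq, Set.mem_empty_iff_false, iff_false]
    exact a_finite x (Set.finite_singleton m)
  rw [this]
  exact Set.finite_empty

theorem a_mem_K (x : I) : a x ∈ KK := by
  refine ⟨Set.range (code x), range_mem_a x, ?_⟩
  refine (Set.finite_singleton x).subset ?_
  intro y hy
  by_contra hne
  exact range_notMem_a (Ne.symm hne) hy

/-- every infinite set of naturals lies in a free ultrafilter from K -/
theorem exists_free {c : Set ℕ} (hc : c.Infinite) :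
    ∃ u ∈ KK, c ∈ u ∧ ∀ s : Set ℕ, s.Finite → s ∉ u := by
  by_cases h : ∃ x, c ∈ a x
  · obtain ⟨x, hx⟩ := h
    exact ⟨a x, a_mem_K x, hx, fun s hs => a_finite x hs⟩
  · push Not at h
    have hne : (cofinite ⊓ 𝓟 c : Filter ℕ).NeBot := by
      rw [cofinite_inf_principal_neBot_iff]
      exact hc
    let u := Ultrafilter.of (cofinite ⊓ 𝓟 c : Filter ℕ)
    have hu : (u : Filter ℕ) ≤ cofinite ⊓ 𝓟 c := Ultrafilter.of_le _
    have hcu : c ∈ u := hu (mem_inf_of_right (mem_principal_self c))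
    refine ⟨u, ⟨c, hcu, ?_⟩, hcu, ?_⟩
    · have : {x : I | c ∈ a x} = ∅ := by
        ext x; simp [h x]
      rw [this]; exact Set.finite_empty
    · intro s hs hsu
      have h1 : sᶜ ∈ u := hu (mem_inf_of_left hs.compl_mem_cofinite)
      exact Ultrafilter.compl_notMem_iff.mpr hsu h1


/-- points of the column over the index x -/
def Col (x : I) (p : Ultrafilter ℕ) : Prop := p = a x ∨ ∃ m : ℕ, p = pure m

theorem Col.mem_K {x : I} {p : Ultrafilter ℕ} (h : Col x p) : p ∈ KK := by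
  rcases h with rfl | ⟨m, rfl⟩
  · exact a_mem_K x
  · exact pure_mem_K m

abbrev Z := OnePoint (I × Ultrafilter ℕ)

abbrev Y0 := {y : Z // y = ∞ ∨ ∃ x p, y = ((x, p) : I × Ultrafilter ℕ) ∧ Col x p}

abbrev KS := {k : Ultrafilter ℕ // k ∈ KK}

abbrev X1 := {w : Ultrafilter ℕ × Z // w.1 ∈ KK ∧
  (w.2 = ∞ ∨ ∃ x : I, w.2 = ((x, w.1) : I × Ultrafilter ℕ) ∧ Col x w.1)}

def rr (w : X1) : KS := ⟨w.1.1, w.2.1⟩

theorem cont_rr : Continuous rr := by
  unfold rr; fun_prop

def sec (k : KS) : X1 := ⟨(k.1, ∞), k.2, Or.inl rfl⟩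

theorem cont_sec : Continuous sec := by
  unfold sec; fun_prop

def qq (w : X1) : Y0 := ⟨w.1.2, by
  rcases w.2.2 with h | ⟨x, h1, h2⟩
  · exact Or.inl h
  · exact Or.inr ⟨x, _, h1, h2⟩⟩

theorem cont_qq : Continuous qq := by
  unfold qq; fun_prop

/-- first coordinate -/
noncomputable def ph (z : Z) : Ultrafilter ℕ := z.elim (pure 0) (fun t => t.2)

theorem ss_aux (y : Y0) : ph y.1 ∈ KK ∧
    (y.1 = ∞ ∨ ∃ x : I, y.1 = ((x, ph y.1) : I × Ultrafilter ℕ) ∧ Col x (ph y.1)) := by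
  obtain ⟨y, hy⟩ := y
  rcases hy with rfl | ⟨x, p, rfl, h⟩
  · exact ⟨pure_mem_K 0, Or.inl rfl⟩
  · exact ⟨h.mem_K, Or.inr ⟨x, rfl, h⟩⟩

noncomputable def ss (y : Y0) : X1 := ⟨(ph y.1, y.1), ss_aux y⟩

theorem contAt_ss (y : Y0) (hy : y.1 ≠ ∞) : ContinuousAt ss y := by
  have h1 : ContinuousAt ph y.1 := by
    obtain ⟨t, ht⟩ := OnePoint.ne_infty_iff_exists.mp hy
    rw [← ht, OnePoint.continuousAt_coe]
    exact continuous_snd.continuousAt
  have h2 : ContinuousAt (fun y : Y0 => ph y.1) y := h1.comp continuousAt_subtype_val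
  have h3 : ContinuousAt (fun y : Y0 => (ph y.1, y.1)) y := h2.prodMk continuousAt_subtype_val
  exact (Topology.IsInducing.subtypeVal.continuousAt_iff).mpr h3


theorem colpt (x : I) {p : Ultrafilter ℕ} (h : Col x p) :
    (p, (((x, p) : I × Ultrafilter ℕ) : Z)).1 ∈ KK ∧
    ((p, (((x, p) : I × Ultrafilter ℕ) : Z)).2 = ∞ ∨
      ∃ x' : I, (p, (((x, p) : I × Ultrafilter ℕ) : Z)).2 =
        ((x', (p, (((x, p) : I × Ultrafilter ℕ) : Z)).1) : I × Ultrafilter ℕ) ∧
        Col x' (p, (((x, p) : I × Ultrafilter ℕ) : Z)).1) :=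
  ⟨h.mem_K, Or.inr ⟨x, rfl, h⟩⟩

/-- the point of X1 in column x over p -/
noncomputable def pt (x : I) (p : Ultrafilter ℕ) (h : Col x p) : X1 := ⟨(p, ((x, p) : I × Ultrafilter ℕ)), colpt x h⟩

theorem nbhd_inf {α : Type} [PseudoMetricSpace α] (S : Set X1) (H : S → α) (w : S) (hH : ContinuousAt H w)
    (hw : w.1.1.2 = ∞) {ε : ℝ} (hε : 0 < ε) :
    ∃ b ∈ w.1.1.1, ∃ F : Set I, F.Finite ∧ ∀ x ∉ F, ∀ p : Ultrafilter ℕ, b ∈ p → ∀ (h : Col x p)
      (hS : pt x p h ∈ S), dist (H ⟨pt x p h, hS⟩) (H w) < ε := by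
  have h1 : H ⁻¹' Metric.ball (H w) ε ∈ 𝓝 w := hH (Metric.ball_mem_nhds _ hε)
  rw [nhds_subtype_eq_comap, nhds_subtype_eq_comap, Filter.mem_comap] at h1
  obtain ⟨t, ht, ht2⟩ := h1
  rw [Filter.mem_comap] at ht
  obtain ⟨t', ht', ht2'⟩ := ht
  have hw' : w.1.1 = (w.1.1.1, ∞) := Prod.ext rfl hw
  rw [hw', nhds_prod_eq, Filter.mem_prod_iff] at ht'
  obtain ⟨V1, hV1, V2, hV2, hV⟩ := ht'
  obtain ⟨B, ⟨⟨b, rfl⟩, hb⟩, hBV⟩ := (ultrafilterBasis_is_basis.nhds_hasBasis.mem_iff).mp hV1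
  obtain ⟨s, ⟨hs1, hs2⟩, hsV⟩ := (OnePoint.hasBasis_nhds_infty.mem_iff).mp hV2
  refine ⟨b, hb, Prod.fst '' s, ?_, ?_⟩
  · exact ((hs2.image continuous_fst).finite_of_discrete)
  · intro x hx p hbp h hS
    have h3 : (⟨pt x p h, hS⟩ : S) ∈ H ⁻¹' Metric.ball (H w) ε := by
      apply ht2
      apply ht2'
      apply hV
      refine ⟨hBV hbp, hsV (Or.inl ⟨(x, p), ?_, rfl⟩)⟩
      intro hxs
      exact hx ⟨(x, p), hxs, rfl⟩
    exact h3


theorem cont_col (x : I) : Continuous (fun p : {p : Ultrafilter ℕ // Col x p} => pt x p.1 p.2) := by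
  unfold pt
  refine Continuous.subtype_mk ?_ _
  refine continuous_subtype_val.prodMk ?_
  exact OnePoint.continuous_coe.comp (continuous_const.prodMk continuous_subtype_val)

theorem approx (H : X1 → ℝ) (hH : Continuous H) (x : I) (p : Ultrafilter ℕ) (h : Col x p) {ε : ℝ}
    (hε : 0 < ε) : ∃ m : ℕ, |H (pt x (pure m) (Or.inr ⟨m, rfl⟩)) - H (pt x p h)| < ε := by
  have h1 : Continuous (fun p : {p : Ultrafilter ℕ // Col x p} => H (pt x p.1 p.2)) :=
    hH.comp (cont_col x)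
  have h2 := h1.continuousAt (x := ⟨p, h⟩) (Metric.ball_mem_nhds _ hε)
  rw [nhds_subtype_eq_comap, Filter.mem_map, Filter.mem_comap] at h2
  obtain ⟨t, ht, ht2⟩ := h2
  obtain ⟨B, ⟨⟨b, rfl⟩, hb⟩, hBV⟩ := (ultrafilterBasis_is_basis.nhds_hasBasis.mem_iff).mp ht
  obtain ⟨m, hm⟩ := p.nonempty_of_mem hb
  have hm' : (pure m : Ultrafilter ℕ) ∈ t := hBV (by simpa using hm)
  have h3 := @ht2 ⟨pure m, Or.inr ⟨m, rfl⟩⟩ hm'
  exact ⟨m, h3⟩

theorem key (H : X1 → ℝ) (hH : Continuous H) (h0 : ∀ k, H (sec k) = 0) {ε : ℝ} (hε : 0 < ε) :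
    {x : I | ∃ (p : Ultrafilter ℕ) (h : Col x p), ε ≤ |H (pt x p h)|}.Finite := by
  by_contra hinf
  set E := {x : I | ∃ (p : Ultrafilter ℕ) (h : Col x p), ε ≤ |H (pt x p h)|} with hE
  have hinf : E.Infinite := hinf
  have h1 : ∀ x : I, ∃ m : ℕ, x ∈ E → ε / 2 ≤ |H (pt x (pure m) (Or.inr ⟨m, rfl⟩))| := by
    intro x
    by_cases hx : x ∈ E
    · obtain ⟨p, h, hp⟩ := hx
      obtain ⟨m, hm⟩ := approx H hH x p h (half_pos hε)
      refine ⟨m, fun _ => ?_⟩
      have := abs_sub_abs_le_abs_sub (H (pt x p h)) (H (pt x (pure m) (Or.inr ⟨m, rfl⟩)))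
      rw [abs_sub_comm] at this
      linarith
    · exact ⟨0, fun h => absurd h hx⟩
  choose mm hmm using h1
  -- it suffices to find u in K such that all basic neighbourhoods catch a point
  have h2 : ∃ u ∈ KK, ∀ b ∈ u, ∀ F : Set I, F.Finite → ∃ x ∈ E, x ∉ F ∧ mm x ∈ b := by
    by_cases hc : (mm '' E).Infinite
    · obtain ⟨u, hu, hcu, hfree⟩ := exists_free hc
      refine ⟨u, hu, fun b hb F hF => ?_⟩
      by_contra hcon
      push Not at hcon
      have h3 : b ∩ mm '' E ⊆ mm '' F := by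
        rintro _ ⟨hb1, ⟨x, hx, rfl⟩⟩
        by_contra hxF
        exact hcon x hx (fun hxF' => hxF ⟨x, hxF', rfl⟩) hb1
      exact hfree _ (hF.image mm) (Filter.mem_of_superset (Filter.inter_mem hb hcu) h3)
    · rw [Set.not_infinite] at hc
      obtain ⟨m, -, hm⟩ : ∃ m ∈ mm '' E, (E ∩ mm ⁻¹' {m}).Infinite := by
        by_contra hcon
        push Not at hcon
        apply hinf
        have : E ⊆ ⋃ m ∈ mm '' E, (E ∩ mm ⁻¹' {m}) := by
          intro x hx
          simp only [Set.mem_iUnion]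
          exact ⟨mm x, ⟨x, hx, rfl⟩, hx, rfl⟩
        refine Set.Finite.subset (hc.biUnion ?_) this
        intro m hm
        exact hcon m hm
      refine ⟨pure m, pure_mem_K m, fun b hb F hF => ?_⟩
      obtain ⟨x, ⟨hx1, hx2⟩, hxF⟩ := hm.exists_notMem_finite hF
      refine ⟨x, hx1, hxF, ?_⟩
      have : mm x = m := hx2
      rw [this]
      simpa using hb
  obtain ⟨u, hu, hcatch⟩ := h2
  have h3 := nbhd_inf (S := Set.univ) (fun w => H w.1) ⟨sec ⟨u, hu⟩, trivial⟩
    ((hH.comp continuous_subtype_val).continuousAt) rfl (half_pos hε)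
  obtain ⟨b, hb, F, hF, hall⟩ := h3
  obtain ⟨x, hxE, hxF, hxb⟩ := hcatch b hb F hF
  have h4 := hall x hxF (pure (mm x)) (by simpa using hxb) (Or.inr ⟨mm x, rfl⟩) trivial
  have h5 := hmm x hxE
  simp only [Real.dist_eq] at h4
  rw [h0, sub_zero] at h4
  linarith


def inf0 : Y0 := ⟨∞, Or.inl rfl⟩

theorem ss_inf : ss inf0 = sec ⟨pure 0, pure_mem_K 0⟩ := rfl

theorem contAt_inf (H : X1 → ℝ) (hH : Continuous H) (h0 : ∀ k, H (sec k) = 0) :
    Continuous (fun y => H (ss y)) := by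
  rw [continuous_iff_continuousAt]
  intro y
  by_cases hy : y.1 = ∞
  · have hy' : y = inf0 := Subtype.ext hy
    subst hy'
    rw [Metric.continuousAt_iff']
    intro ε hε
    have hF := key H hH h0 hε
    set F := {x : I | ∃ (p : Ultrafilter ℕ) (h : Col x p), ε ≤ |H (pt x p h)|} with hFdef
    have hO : IsOpen ((OnePoint.some '' (F ×ˢ (Set.univ : Set (Ultrafilter ℕ))))ᶜ : Set Z) := by
      rw [OnePoint.isOpen_compl_image_coe]
      exact ⟨(isClosed_discrete F).prod isClosed_univ, hF.isCompact.prod isCompact_univ⟩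
    have hO' : IsOpen (Subtype.val ⁻¹' ((OnePoint.some '' (F ×ˢ (Set.univ : Set (Ultrafilter ℕ))))ᶜ : Set Z) : Set Y0) :=
      hO.preimage continuous_subtype_val
    refine Filter.eventually_of_mem (hO'.mem_nhds ?_) ?_
    · rintro ⟨t, -, ht⟩
      exact OnePoint.coe_ne_infty t ht
    · intro y hy
      have h1 : H (ss inf0) = 0 := by rw [ss_inf]; exact h0 _
      rw [h1, Real.dist_eq, sub_zero]
      obtain ⟨y, hyy⟩ := y
      rcases hyy with rfl | ⟨x, p, rfl, h⟩
      · have : H (ss ⟨∞, Or.inl rfl⟩) = 0 := h1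
        rw [this]; simpa using hε
      · by_contra hcon
        push Not at hcon
        apply hy
        exact ⟨(x, p), ⟨⟨p, h, hcon⟩, trivial⟩, rfl⟩
  · exact (hH.continuousAt).comp (contAt_ss y hy)

noncomputable def fwd (h : C(X1 ⊕ Unit, ℝ)) : C(KS ⊕ Y0, ℝ) :=
  ⟨Sum.elim (fun k => h (Sum.inl (sec k)))
    (fun y => (h (Sum.inl (ss y)) - h (Sum.inl (sec (rr (ss y))))) + h (Sum.inr ())), by
    refine Continuous.sumElim ?_ ?_
    · exact h.continuous.comp (continuous_inl.comp cont_sec)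
    · refine Continuous.add ?_ continuous_const
      refine contAt_inf (fun w => h (Sum.inl w) - h (Sum.inl (sec (rr w)))) ?_ ?_
      · exact (h.continuous.comp continuous_inl).sub
          (h.continuous.comp (continuous_inl.comp (cont_sec.comp cont_rr)))
      · intro k
        have : sec (rr (sec k)) = sec k := rfl
        simp [this]⟩

noncomputable def bwd (g : C(KS ⊕ Y0, ℝ)) : C(X1 ⊕ Unit, ℝ) :=
  ⟨Sum.elim (fun w => g (Sum.inl (rr w)) + g (Sum.inr (qq w)) - g (Sum.inr inf0))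
    (fun _ => g (Sum.inr inf0)), by
    refine Continuous.sumElim ?_ continuous_const
    exact ((g.continuous.comp (continuous_inl.comp cont_rr)).add
      (g.continuous.comp (continuous_inr.comp cont_qq))).sub continuous_const⟩

theorem fwd_bwd (g : C(KS ⊕ Y0, ℝ)) : fwd (bwd g) = g := by
  ext z
  rcases z with k | y
  · change g (Sum.inl k) + g (Sum.inr inf0) - g (Sum.inr inf0) = g (Sum.inl k)
    ring
  · change ((g (Sum.inl (rr (ss y))) + g (Sum.inr y) - g (Sum.inr inf0)) -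
      (g (Sum.inl (rr (ss y))) + g (Sum.inr inf0) - g (Sum.inr inf0))) + g (Sum.inr inf0) = g (Sum.inr y)
    ring

theorem bwd_fwd (h : C(X1 ⊕ Unit, ℝ)) : bwd (fwd h) = h := by
  ext z
  rcases z with w | u
  · change h (Sum.inl (sec (rr w))) +
      ((h (Sum.inl (ss (qq w))) - h (Sum.inl (sec (rr (ss (qq w)))))) + h (Sum.inr ())) -
      ((h (Sum.inl (ss inf0)) - h (Sum.inl (sec (rr (ss inf0))))) + h (Sum.inr ())) = h (Sum.inl w)
    have h1 : sec (rr (ss inf0)) = ss inf0 := rfl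
    rw [h1]
    obtain ⟨⟨k, y⟩, hk, hw⟩ := w
    rcases hw with hw | ⟨x, hw, hc⟩
    · simp only at hw
      subst hw
      have h2 : ss (qq ⟨(k, ∞), hk, Or.inl rfl⟩) = ss inf0 := rfl
      rw [h2, h1]
      have h3 : sec (rr ⟨(k, ∞), hk, Or.inl rfl⟩) = ⟨(k, ∞), hk, Or.inl rfl⟩ := rfl
      rw [h3]
      ring
    · simp only at hw
      subst hw
      have h2 : ss (qq ⟨(k, ((x, k) : I × Ultrafilter ℕ)), hk, Or.inr ⟨x, rfl, hc⟩⟩) =
        ⟨(k, ((x, k) : I × Ultrafilter ℕ)), hk, Or.inr ⟨x, rfl, hc⟩⟩ := rfl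
      rw [h2]
      ring
  · change ((h (Sum.inl (ss inf0)) - h (Sum.inl (sec (rr (ss inf0))))) + h (Sum.inr ())) = h (Sum.inr u)
    have h1 : sec (rr (ss inf0)) = ss inf0 := rfl
    rw [h1]
    ring_nf


theorem KS_pc (f : KS → ℝ) (hf : Continuous f) : ∃ M : ℝ, ∀ k, |f k| ≤ M := by
  by_contra hcon
  push Not at hcon
  have h1 : ∀ j : ℕ, ∃ m : ℕ, (j : ℝ) < |f ⟨pure m, pure_mem_K m⟩| := by
    intro j
    obtain ⟨k, hk⟩ := hcon (j + 1)
    have h2 := hf.continuousAt (x := k) (Metric.ball_mem_nhds _ one_pos)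
    rw [nhds_subtype_eq_comap, Filter.mem_map, Filter.mem_comap] at h2
    obtain ⟨t, ht, ht2⟩ := h2
    obtain ⟨B, ⟨⟨b, rfl⟩, hb⟩, hBV⟩ := (ultrafilterBasis_is_basis.nhds_hasBasis.mem_iff).mp ht
    obtain ⟨m, hm⟩ := k.1.nonempty_of_mem hb
    have hm' : (pure m : Ultrafilter ℕ) ∈ t := hBV (by simpa using hm)
    have h3 : |f ⟨pure m, pure_mem_K m⟩ - f k| < 1 := @ht2 ⟨pure m, pure_mem_K m⟩ hm'
    refine ⟨m, ?_⟩
    have := abs_sub_abs_le_abs_sub (f k) (f ⟨pure m, pure_mem_K m⟩)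
    rw [abs_sub_comm] at this
    linarith
  choose mm hmm using h1
  have hinf : (Set.range mm).Infinite := by
    intro hfin
    obtain ⟨M, hM⟩ := (hfin.image (fun m => |f ⟨pure m, pure_mem_K m⟩|)).bddAbove
    obtain ⟨j, hj⟩ := exists_nat_gt M
    have h2 : |f ⟨pure (mm j), pure_mem_K (mm j)⟩| ≤ M := hM ⟨mm j, ⟨j, rfl⟩, rfl⟩
    have h3 := hmm j
    linarith
  obtain ⟨u, hu, hcu, hfree⟩ := exists_free hinf
  have h2 := hf.continuousAt (x := ⟨u, hu⟩) (Metric.ball_mem_nhds _ one_pos)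
  rw [nhds_subtype_eq_comap, Filter.mem_map, Filter.mem_comap] at h2
  obtain ⟨t, ht, ht2⟩ := h2
  obtain ⟨B, ⟨⟨b, rfl⟩, hb⟩, hBV⟩ := (ultrafilterBasis_is_basis.nhds_hasBasis.mem_iff).mp ht
  have hb : b ∈ u := hb
  obtain ⟨N, hN⟩ := exists_nat_gt (|f ⟨u, hu⟩| + 1)
  refine hfree (b ∩ Set.range mm) (((Set.finite_Iio N).image mm).subset ?_) (Filter.inter_mem hb hcu)
  rintro _ ⟨hm1, ⟨j, rfl⟩⟩
  refine ⟨j, ?_, rfl⟩
  have hm' : (pure (mm j) : Ultrafilter ℕ) ∈ t := hBV (by simpa using hm1)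
  have h3 : |f ⟨pure (mm j), pure_mem_K (mm j)⟩ - f ⟨u, hu⟩| < 1 := @ht2 ⟨pure (mm j), pure_mem_K (mm j)⟩ hm'
  have h4 := hmm j
  have := abs_sub_abs_le_abs_sub (f ⟨pure (mm j), pure_mem_K (mm j)⟩) (f ⟨u, hu⟩)
  have h5 : (j : ℝ) < N := by linarith
  exact_mod_cast h5

/-- the compact fans in Y0 -/
def fan (p : I → Ultrafilter ℕ) : Set Y0 := {y | y.1 = ∞ ∨ ∃ x, y.1 = ((x, p x) : I × Ultrafilter ℕ)}

theorem fan_compact (p : I → Ultrafilter ℕ) (hp : ∀ x, Col x (p x)) : IsCompact (fan p) := by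
  let φ : OnePoint I → Y0 := fun z => z.elim inf0 (fun x => ⟨((x, p x) : I × Ultrafilter ℕ), Or.inr ⟨x, p x, rfl, hp x⟩⟩)
  have hφ : Continuous φ := by
    rw [OnePoint.continuous_iff_from_discrete]
    have : Tendsto (fun x : I => (((x, p x) : I × Ultrafilter ℕ) : Z)) cofinite (𝓝 (∞ : Z)) := by
      refine OnePoint.tendsto_coe_infty.comp (f := fun x : I => (x, p x)) ?_
      rw [coclosedCompact_eq_cocompact]
      rw [hasBasis_cocompact.tendsto_right_iff]
      intro C hC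
      have hfin : (Prod.fst '' C : Set I).Finite := (hC.image continuous_fst).finite_of_discrete
      rw [Filter.eventually_cofinite]
      refine hfin.subset ?_
      intro x hx
      simp only [Set.mem_compl_iff, not_not, Set.mem_ofPred_eq] at hx
      exact ⟨_, hx, rfl⟩
    change Tendsto _ cofinite (𝓝 inf0)
    unfold inf0
    rw [nhds_subtype_eq_comap]
    exact tendsto_comap_iff.mpr this
  have : fan p = Set.range φ := by
    ext y
    constructor
    · rintro (h | ⟨x, h⟩)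
      · exact ⟨∞, Subtype.ext h.symm⟩
      · exact ⟨(x : OnePoint I), Subtype.ext h.symm⟩
    · rintro ⟨z, rfl⟩
      induction z using OnePoint.rec with
      | infty => exact Or.inl rfl
      | coe x => exact Or.inr ⟨x, rfl⟩
  rw [this]
  exact isCompact_range hφ

theorem pc_of_compact {Y : Type} [TopologicalSpace Y] (S : Set Y) (hS : IsCompact S) (f : C(S, ℝ)) :
    ∃ M : ℝ, ∀ a, |f a| ≤ M := by
  have : CompactSpace S := isCompact_iff_compactSpace.mp hS
  exact ⟨‖f‖, fun x => f.norm_coe_le_norm x⟩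

theorem Y_sigma : ∃ S : ℕ → Set (KS ⊕ Y0), (⋃ n, S n) = Set.univ ∧
        ∀ n, ∀ f : C(S n, ℝ), ∃ M : ℝ, ∀ a, |f a| ≤ M := by
  let S : ℕ → Set (KS ⊕ Y0) := fun n =>
    match n with
    | 0 => Set.range Sum.inl
    | 1 => Sum.inr '' (fan a)
    | (m + 2) => Sum.inr '' (fan (fun _ => pure m))
  refine ⟨S, ?_, ?_⟩
  · rw [Set.eq_univ_iff_forall]
    rintro (k | ⟨y, hy⟩)
    · exact Set.mem_iUnion.mpr ⟨0, ⟨k, rfl⟩⟩
    · rcases hy with hy | ⟨x, p, hy, rfl | ⟨m, rfl⟩⟩
      · exact Set.mem_iUnion.mpr ⟨1, ⟨⟨y, Or.inl hy⟩, Or.inl hy, rfl⟩⟩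
      · exact Set.mem_iUnion.mpr ⟨1, ⟨_, Or.inr ⟨x, hy⟩, rfl⟩⟩
      · exact Set.mem_iUnion.mpr ⟨m + 2, ⟨_, Or.inr ⟨x, hy⟩, rfl⟩⟩
  · intro n f
    match n, f with
    | 0, f =>
      have h1 : Continuous (fun k : KS => f ⟨Sum.inl k, ⟨k, rfl⟩⟩) :=
        f.continuous.comp (Continuous.subtype_mk continuous_inl _)
      obtain ⟨M, hM⟩ := KS_pc _ h1
      refine ⟨M, ?_⟩
      rintro ⟨_, ⟨k, rfl⟩⟩
      exact hM k
    | 1, f =>
      exact pc_of_compact _ ((fan_compact a (fun x => Or.inl rfl)).image continuous_inr) f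
    | (m + 2), f =>
      exact pc_of_compact _ ((fan_compact (fun _ => pure m) (fun x => Or.inr ⟨m, rfl⟩)).image continuous_inr) f


/-- open set of the column over x, with first coordinate containing b -/
def Oc (b : Set ℕ) (x : I) : Set X1 := {w | b ∈ w.1.1 ∧ w.1.2 ∈ (OnePoint.some '' (({x} : Set I) ×ˢ (Set.univ : Set (Ultrafilter ℕ))) : Set Z)}

theorem isOpen_Oc (b : Set ℕ) (x : I) : IsOpen (Oc b x) := by
  have h1 : IsOpen {w : X1 | b ∈ w.1.1} :=
    (ultrafilter_isOpen_basic b).preimage (continuous_fst.comp continuous_subtype_val)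
  have h2 : IsOpen (OnePoint.some '' (({x} : Set I) ×ˢ (Set.univ : Set (Ultrafilter ℕ))) : Set Z) := by
    rw [OnePoint.isOpen_image_coe]
    exact (isOpen_discrete _).prod isOpen_univ
  exact h1.inter (h2.preimage (continuous_snd.comp continuous_subtype_val))

/-- open set avoiding finitely many columns -/
def Oi (b : Set ℕ) (F : Set I) : Set X1 := {w | b ∈ w.1.1 ∧ w.1.2 ∈ ((OnePoint.some '' (F ×ˢ (Set.univ : Set (Ultrafilter ℕ))))ᶜ : Set Z)}

theorem isOpen_Oi (b : Set ℕ) {F : Set I} (hF : F.Finite) : IsOpen (Oi b F) := by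
  have h1 : IsOpen {w : X1 | b ∈ w.1.1} :=
    (ultrafilter_isOpen_basic b).preimage (continuous_fst.comp continuous_subtype_val)
  have h2 : IsOpen ((OnePoint.some '' (F ×ˢ (Set.univ : Set (Ultrafilter ℕ))))ᶜ : Set Z) := by
    rw [OnePoint.isOpen_compl_image_coe]
    exact ⟨(isClosed_discrete F).prod isClosed_univ, hF.isCompact.prod isCompact_univ⟩
  exact h1.inter (h2.preimage (continuous_snd.comp continuous_subtype_val))

theorem cont_of_loc (P : Set X1) (f : P → ℝ)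
    (h : ∀ w : P, ∃ O : Set X1, IsOpen O ∧ w.1 ∈ O ∧ ∀ w' : P, w'.1 ∈ O → f w' = f w) : Continuous f := by
  apply IsLocallyConstant.continuous
  rw [IsLocallyConstant.iff_exists_open]
  intro w
  obtain ⟨O, hO, hw, hc⟩ := h w
  exact ⟨Subtype.val ⁻¹' O, hO.preimage continuous_subtype_val, hw, fun w' hw' => hc w' hw'⟩

theorem mem_Oc {b : Set ℕ} {x : I} {w : X1} (h : w ∈ Oc b x) :
    ∃ (p : Ultrafilter ℕ) (hp : Col x p), w = pt x p hp ∧ b ∈ p := by
  obtain ⟨⟨k, y⟩, hk, hw⟩ := w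
  obtain ⟨hb, ⟨⟨x', p⟩, ⟨hx', -⟩, hy⟩⟩ := h
  simp only [Set.mem_singleton_iff] at hx'
  subst hx'
  simp only at hy
  subst hy
  rcases hw with hw | ⟨x'', hw, hc⟩
  · exact absurd hw (OnePoint.coe_ne_infty _)
  · simp only [OnePoint.coe_eq_coe, Prod.mk.injEq] at hw
    obtain ⟨rfl, rfl⟩ := hw
    exact ⟨p, hc, rfl, hb⟩

theorem pt_mem_Oc {b : Set ℕ} {x : I} {p : Ultrafilter ℕ} (hp : Col x p) (hb : b ∈ p) :
    pt x p hp ∈ Oc b x := ⟨hb, ⟨(x, p), ⟨rfl, trivial⟩, rfl⟩⟩

theorem cases_X1 (w : X1) : w.1.2 = ∞ ∨ ∃ (x : I) (p : Ultrafilter ℕ) (hp : Col x p), w = pt x p hp := by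
  obtain ⟨⟨k, y⟩, hk, hw⟩ := w
  rcases hw with hw | ⟨x, hw, hc⟩
  · exact Or.inl hw
  · simp only at hw
    subst hw
    exact Or.inr ⟨x, k, hc, rfl⟩

theorem split_inf {c : Set ℕ} (hc : c.Infinite) (u : Ultrafilter ℕ) : ∃ d ⊆ c, d.Infinite ∧ d ∉ u := by
  let ν := hc.natEmbedding
  have hinj : Function.Injective (fun n => (ν n : ℕ)) := fun n m h => ν.injective (Subtype.ext h)
  let d1 : Set ℕ := Set.range (fun n => (ν (2 * n) : ℕ))
  let d2 : Set ℕ := Set.range (fun n => (ν (2 * n + 1) : ℕ))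
  have h1 : d1.Infinite := Set.infinite_range_of_injective (fun n m h => by
    have := hinj h; omega)
  have h2 : d2.Infinite := Set.infinite_range_of_injective (fun n m h => by
    have := hinj h; omega)
  have hs1 : d1 ⊆ c := by rintro _ ⟨n, rfl⟩; exact (ν _).2
  have hs2 : d2 ⊆ c := by rintro _ ⟨n, rfl⟩; exact (ν _).2
  by_cases h : d1 ∈ u
  · refine ⟨d2, hs2, h2, fun h' => ?_⟩
    obtain ⟨m, ⟨n, hn⟩, ⟨k, hk⟩⟩ := u.nonempty_of_mem (Filter.inter_mem h h')
    have := hinj (hn.trans hk.symm)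
    omega
  · exact ⟨d1, hs1, h1, h⟩

theorem caseA (P : Set X1) (hP : ∀ f : P → ℝ, Continuous f → ∃ M : ℝ, ∀ z, |f z| ≤ M) (x : I) :
    {m : ℕ | pt x (pure m) (Or.inr ⟨m, rfl⟩) ∈ P} ∉ a x := by
  intro hQ
  have hQinf : {m : ℕ | pt x (pure m) (Or.inr ⟨m, rfl⟩) ∈ P}.Infinite := by
    intro hfin
    exact a_finite x hfin hQ
  obtain ⟨c, hcQ, hcinf, hca⟩ := split_inf hQinf (a x)
  classical
  let f : P → ℝ := fun w => if h : ∃ m ∈ c, w.1 = pt x (pure m) (Or.inr ⟨m, rfl⟩) then (h.choose : ℝ) else 0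
  have hfm : ∀ m (hm : m ∈ c), f ⟨pt x (pure m) (Or.inr ⟨m, rfl⟩), hcQ hm⟩ = m := by
    intro m hm
    have h : ∃ m' ∈ c, pt x (pure m) (Or.inr ⟨m, rfl⟩) = pt x (pure m') (Or.inr ⟨m', rfl⟩) := ⟨m, hm, rfl⟩
    have h1 : f ⟨pt x (pure m) (Or.inr ⟨m, rfl⟩), hcQ hm⟩ = (h.choose : ℝ) := dif_pos h
    rw [h1]
    have h2 := h.choose_spec.2
    have h3 : (pure m : Ultrafilter ℕ) = pure h.choose := congrArg (fun w : X1 => w.1.1) h2
    have h4 := Ultrafilter.pure_injective h3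
    rw [← h4]
  have hf : Continuous f := by
    apply cont_of_loc
    intro w
    by_cases hw : w.1 ∈ Oc c x
    · obtain ⟨p, hp, hwp, hcp⟩ := mem_Oc hw
      rcases hp with rfl | ⟨m, rfl⟩
      · exact absurd hcp hca
      · refine ⟨Oc {m} x, isOpen_Oc _ _, ?_, ?_⟩
        · rw [hwp]; exact pt_mem_Oc _ (by simp)
        · intro w' hw'
          obtain ⟨p', hp', hwp', hmp'⟩ := mem_Oc hw'
          have : p' = pure m := by
            rcases hp' with rfl | ⟨m', rfl⟩
            · exact absurd hmp' (a_finite x (Set.finite_singleton m))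
            · have : m' = m := by simpa using hmp'
              rw [this]
          subst this
          have : w' = w := Subtype.ext (hwp'.trans hwp.symm)
          rw [this]
    · refine ⟨(Oc c x)ᶜ, ?_, hw, ?_⟩
      · have h1 : IsOpen (Oi Set.univ {x}) := isOpen_Oi _ (Set.finite_singleton x)
        have h2 : (Oc c x)ᶜ = {w : X1 | cᶜ ∈ w.1.1} ∪ Oi Set.univ {x} := by
          ext w
          have hu : Set.univ ∈ (w.1.1 : Ultrafilter ℕ) := Filter.univ_mem
          simp only [Oc, Oi, Set.mem_compl_iff, Set.mem_ofPred_eq, Set.mem_union, hu, true_and,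
            not_and_or, Ultrafilter.compl_mem_iff_notMem]
        rw [h2]
        exact ((ultrafilter_isOpen_basic cᶜ).preimage (continuous_fst.comp continuous_subtype_val)).union h1
      · intro w' hw'
        have hz : ∀ w'' : P, w''.1 ∉ Oc c x → f w'' = 0 := by
          intro w'' h
          apply dif_neg
          rintro ⟨m, hm, hwm⟩
          apply h
          rw [hwm]
          exact pt_mem_Oc _ (by simpa using hm)
        rw [hz w' hw', hz w hw]
  obtain ⟨M, hM⟩ := hP f hf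
  obtain ⟨N, hN⟩ := exists_nat_gt M
  obtain ⟨m, hm, hNm⟩ := hcinf.exists_gt N
  have h1 := hM ⟨pt x (pure m) (Or.inr ⟨m, rfl⟩), hcQ hm⟩
  rw [hfm m hm] at h1
  have h2 : (N : ℝ) < m := by exact_mod_cast hNm
  have h3 := le_abs_self (m : ℝ)
  linarith

theorem caseB (P : Set X1) (hP : ∀ f : P → ℝ, Continuous f → ∃ M : ℝ, ∀ z, |f z| ≤ M) :
    {x : I | pt x (a x) (Or.inl rfl) ∈ P}.Finite := by
  by_contra hinf
  have hinf : {x : I | pt x (a x) (Or.inl rfl) ∈ P}.Infinite := hinf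
  set J := {x : I | pt x (a x) (Or.inl rfl) ∈ P} with hJ
  let j := hinf.natEmbedding
  have hjinj : Function.Injective (fun n => (j n : I)) := fun n m h => j.injective (Subtype.ext h)
  classical
  let f : P → ℝ := fun w => if h : ∃ n, w.1 = pt (j n) (a (j n)) (Or.inl rfl) then (h.choose : ℝ) else 0
  have ptinj : ∀ x y : I, pt x (a x) (Or.inl rfl) = pt y (a y) (Or.inl rfl) → x = y := by
    intro x y h
    have h3 := congrArg (fun w : X1 => w.1.2) h
    simp only [pt, OnePoint.coe_eq_coe, Prod.mk.injEq] at h3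
    exact h3.1
  have hfm : ∀ n, f ⟨pt (j n) (a (j n)) (Or.inl rfl), (j n).2⟩ = n := by
    intro n
    have h : ∃ n', pt (j n) (a (j n)) (Or.inl rfl) = pt (j n') (a (j n')) (Or.inl rfl) := ⟨n, rfl⟩
    have h1 : f ⟨pt (j n) (a (j n)) (Or.inl rfl), (j n).2⟩ = (h.choose : ℝ) := dif_pos h
    rw [h1]
    have h2 := h.choose_spec
    have h4 : n = h.choose := hjinj (ptinj _ _ h2)
    rw [← h4]
  have hf : Continuous f := by
    apply cont_of_loc
    intro w
    rcases cases_X1 w.1 with hw | ⟨x, p, hp, hw⟩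
    · obtain ⟨b, hb, hbfin⟩ := w.1.2.1
      refine ⟨Oi b {x : I | b ∈ a x}, isOpen_Oi _ hbfin, ⟨hb, ?_⟩, ?_⟩
      · rintro ⟨t, -, ht⟩
        rw [hw] at ht
        exact OnePoint.coe_ne_infty t ht
      · intro w' hw'
        have hz : ∀ w'' : P, w''.1 ∈ Oi b {x : I | b ∈ a x} → f w'' = 0 := by
          intro w'' h
          apply dif_neg
          rintro ⟨n, hn⟩
          rw [hn] at h
          exact h.2 ⟨(_, _), ⟨h.1, trivial⟩, rfl⟩
        rw [hz w' hw', hz w]
        refine ⟨hb, ?_⟩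
        rintro ⟨t, -, ht⟩
        rw [hw] at ht
        exact OnePoint.coe_ne_infty t ht
    · have huniq : ∃ b ∈ p, ∀ w' : P, w'.1 ∈ Oc b x → w' = w := by
        rcases hp with rfl | ⟨m, rfl⟩
        · refine ⟨{m : ℕ | pt x (pure m) (Or.inr ⟨m, rfl⟩) ∈ P}ᶜ, ?_, ?_⟩
          · rw [Ultrafilter.compl_mem_iff_notMem]
            exact caseA P hP x
          · intro w' hw'
            obtain ⟨p', hp', hwp', hmp'⟩ := mem_Oc hw'
            rcases hp' with rfl | ⟨m', rfl⟩
            · exact Subtype.ext (hwp'.trans hw.symm)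
            · exfalso
              have h1 : m' ∈ {m : ℕ | pt x (pure m) (Or.inr ⟨m, rfl⟩) ∈ P}ᶜ := by simpa using hmp'
              apply h1
              have := w'.2
              rw [hwp'] at this
              exact this
        · refine ⟨{m}, by simp, ?_⟩
          intro w' hw'
          obtain ⟨p', hp', hwp', hmp'⟩ := mem_Oc hw'
          have : p' = pure m := by
            rcases hp' with rfl | ⟨m', rfl⟩
            · exact absurd hmp' (a_finite x (Set.finite_singleton m))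
            · have : m' = m := by simpa using hmp'
              rw [this]
          subst this
          exact Subtype.ext (hwp'.trans hw.symm)
      obtain ⟨b, hb, hbu⟩ := huniq
      refine ⟨Oc b x, isOpen_Oc _ _, ?_, ?_⟩
      · rw [hw]; exact pt_mem_Oc _ hb
      · intro w' hw'
        rw [hbu w' hw']
  obtain ⟨M, hM⟩ := hP f hf
  obtain ⟨N, hN⟩ := exists_nat_gt M
  have h1 := hM ⟨pt (j N) (a (j N)) (Or.inl rfl), (j N).2⟩
  rw [hfm N] at h1
  have h3 := le_abs_self (N : ℝ)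
  linarith

theorem X_not_sigma : ¬ ∃ S : ℕ → Set (X1 ⊕ Unit), (⋃ n, S n) = Set.univ ∧
        ∀ n, ∀ f : C(S n, ℝ), ∃ M : ℝ, ∀ a, |f a| ≤ M := by
  rintro ⟨S, hS, hpc⟩
  have hP : ∀ n, ∀ f : (Sum.inl ⁻¹' (S n) : Set X1) → ℝ, Continuous f → ∃ M : ℝ, ∀ z, |f z| ≤ M := by
    intro n f hf
    classical
    let F : S n → ℝ := fun z => match z with
      | ⟨Sum.inl w, h⟩ => f ⟨w, h⟩
      | ⟨Sum.inr _, _⟩ => 0
    have hF : Continuous F := by
      rw [continuous_iff_continuousAt]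
      rintro ⟨w | u, hz⟩
      · have hemb : IsOpenEmbedding ((S n).restrictPreimage (Sum.inl : X1 → X1 ⊕ Unit)) :=
          (IsOpenEmbedding.inl).restrictPreimage (S n)
        have h1 : ContinuousAt (F ∘ ((S n).restrictPreimage (Sum.inl : X1 → X1 ⊕ Unit))) ⟨w, hz⟩ :=
          hf.continuousAt
        exact hemb.continuousAt_iff.mp h1
      · have h1 : IsOpen (Subtype.val ⁻¹' (Set.range Sum.inr) : Set (S n)) :=
          isOpen_range_inr.preimage continuous_subtype_val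
        have h2 : F =ᶠ[𝓝 ⟨Sum.inr u, hz⟩] fun _ => 0 := by
          refine Filter.eventually_of_mem (h1.mem_nhds ⟨u, rfl⟩) ?_
          rintro ⟨_, hz'⟩ ⟨u', rfl⟩
          rfl
        exact continuousAt_const.congr h2.symm
    obtain ⟨M, hM⟩ := hpc n ⟨F, hF⟩
    refine ⟨M, fun z => ?_⟩
    exact hM ⟨Sum.inl z.1, z.2⟩
  have hunc : ¬ (Set.univ : Set I).Countable := by
    intro hc
    have hc' : Countable (ℕ → Bool) := Set.countable_univ_iff.mp hc
    have h1 : Cardinal.mk (ℕ → Bool) ≤ Cardinal.aleph0 := Cardinal.mk_le_aleph0_iff.mpr hc'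
    have h2 : Cardinal.aleph0 < Cardinal.mk (ℕ → Bool) := by
      simp only [Cardinal.mk_pi, Cardinal.mk_bool, Cardinal.prod_const, Cardinal.lift_id, Cardinal.mk_nat]
      simpa using Cardinal.cantor Cardinal.aleph0
    exact absurd h1 (not_le.mpr h2)
  apply hunc
  have : (Set.univ : Set I) ⊆ ⋃ n, {x : I | pt x (a x) (Or.inl rfl) ∈ (Sum.inl ⁻¹' (S n) : Set X1)} := by
    intro x _
    have h1 : (Sum.inl (pt x (a x) (Or.inl rfl)) : X1 ⊕ Unit) ∈ ⋃ n, S n := by
      rw [hS]; trivial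
    obtain ⟨n, hn⟩ := Set.mem_iUnion.mp h1
    exact Set.mem_iUnion.mpr ⟨n, hn⟩
  refine Set.Countable.mono this (Set.countable_iUnion fun n => ?_)
  exact (caseB _ (hP n)).countable


instance : T35Space X1 := inferInstance
instance : T35Space Y0 := inferInstance
instance : T35Space KS := inferInstance

/-- The negation of the preceding statement: For Tychonoff spaces X and Y: if the spaces of continuous real functions on X and on Y, with pointwise convergence, are homeomorphic, and Y is a countable union of pseudocompact subspaces, then X is also a countable union of pseudocompact subspaces. -/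
theorem result :
    ¬ (∀ (X Y : Type) [TopologicalSpace X] [T35Space X] [TopologicalSpace Y] [T35Space Y],
      (∃ e : C(X, ℝ) ≃ C(Y, ℝ),
        @Continuous C(X, ℝ) (Y → ℝ)
          (TopologicalSpace.induced (fun g : C(X, ℝ) => (g : X → ℝ)) inferInstance)
          inferInstance (fun g => ((e g : C(Y, ℝ)) : Y → ℝ)) ∧
        @Continuous C(Y, ℝ) (X → ℝ)
          (TopologicalSpace.induced (fun g : C(Y, ℝ) => (g : Y → ℝ)) inferInstance)
          inferInstance (fun g => ((e.symm g : C(X, ℝ)) : X → ℝ))) →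
      (∃ S : ℕ → Set Y, (⋃ n, S n) = Set.univ ∧
        ∀ n, ∀ f : C(S n, ℝ), ∃ M : ℝ, ∀ a, |f a| ≤ M) →
      (∃ S : ℕ → Set X, (⋃ n, S n) = Set.univ ∧
        ∀ n, ∀ f : C(S n, ℝ), ∃ M : ℝ, ∀ a, |f a| ≤ M)) := by
  intro hall
  have i1 : T35Space (X1 ⊕ Unit) := t35_sum X1 Unit
  have i2 : T35Space (KS ⊕ Y0) := t35_sum KS Y0
  apply X_not_sigma
  refine hall (X1 ⊕ Unit) (KS ⊕ Y0) ⟨⟨fwd, bwd, bwd_fwd, fwd_bwd⟩, ?_, ?_⟩ Y_sigma
  · let _ : TopologicalSpace C(X1 ⊕ Unit, ℝ) :=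
      TopologicalSpace.induced (fun g : C(X1 ⊕ Unit, ℝ) => (g : X1 ⊕ Unit → ℝ)) inferInstance
    have hev : ∀ z : X1 ⊕ Unit, Continuous (fun g : C(X1 ⊕ Unit, ℝ) => g z) := fun z =>
      (continuous_apply z).comp continuous_induced_dom
    refine continuous_pi ?_
    rintro (k | y)
    · exact hev _
    · exact ((hev _).sub (hev _)).add (hev _)
  · let _ : TopologicalSpace C(KS ⊕ Y0, ℝ) :=
      TopologicalSpace.induced (fun g : C(KS ⊕ Y0, ℝ) => (g : KS ⊕ Y0 → ℝ)) inferInstance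
    have hev : ∀ z : KS ⊕ Y0, Continuous (fun g : C(KS ⊕ Y0, ℝ) => g z) := fun z =>
      (continuous_apply z).comp continuous_induced_dom
    refine continuous_pi ?_
    rintro (w | u)
    · exact ((hev _).add (hev _)).sub (hev _)
    · exact hev _

end Pool.Agent.S08446
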