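import Pool.Statements.S08455
import Pool.Agent.Helper253.FinalThm

set_option autoImplicit false
open Pool Pool.MP_5d54f4_gt

namespace Pool.Agent.S08455

open Pool.Agent.Helper253

/-- Linearly independent vectors have nonzero cross product. -/
theorem cross_ne {l1 l2 : ℂ} (h : LinearIndependent ℝ ![l1, l2]) : Net.cr l1 l2 ≠ 0 := by
  intro h0
  rw [LinearIndependent.pair_iff] at h
  rw [Net.cr] at h0
  have a := h l2.im (-l1.im) (by
    apply Complex.ext
    · simp only [Complex.add_re, Complex.real_smul, Complex.re_ofReal_mul, Complex.zero_re]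
      linarith
    · simp only [Complex.add_im, Complex.real_smul, Complex.im_ofReal_mul, Complex.zero_im]
      ring)
  have b := h l2.re (-l1.re) (by
    apply Complex.ext
    · simp only [Complex.add_re, Complex.real_smul, Complex.re_ofReal_mul, Complex.zero_re]
      ring
    · simp only [Complex.add_im, Complex.real_smul, Complex.im_ofReal_mul, Complex.zero_im]
      linarith)
  have c := h 1 0 (by
    apply Complex.ext
    · simp only [Complex.add_re, Complex.real_smul, Complex.re_ofReal_mul, Complex.zero_re]
      linarith [neg_eq_zero.1 b.2]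
    · simp only [Complex.add_im, Complex.real_smul, Complex.im_ofReal_mul, Complex.zero_im]
      linarith [neg_eq_zero.1 a.2])
  exact one_ne_zero c.1


/-- For every smooth map of the plane into the unit 3-sphere of R^4 that is periodic under a lattice and whose differential preserves lengths (an isometric immersion of a flat torus), some two image points are antipodal. -/
theorem result :
    ∀ (u v : EuclideanSpace ℝ (Fin 2))
      (F : EuclideanSpace ℝ (Fin 2) → EuclideanSpace ℝ (Fin 4)),
      LinearIndependent ℝ ![u, v] →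
      (∀ n : ℕ, ContDiff ℝ n F) →
      (∀ x, F (x + u) = F x ∧ F (x + v) = F x) →
      (∀ x, ‖F x‖ = 1) →
      (∀ x w, ‖fderiv ℝ F x w‖ = ‖w‖) →
      ∃ x y : EuclideanSpace ℝ (Fin 2), F y = -F x := by
  intro u v F hli hF hper hunit hiso
  set T : ℂ ≃ₗᵢ[ℝ] EuclideanSpace ℝ (Fin 2) := Complex.orthonormalBasisOneI.repr with hT
  set Q : Quaternion ℝ ≃ₗᵢ[ℝ] EuclideanSpace ℝ (Fin 4) :=
    Quaternion.linearIsometryEquivTuple with hQ
  have hFs : ContDiff ℝ ((⊤ : ℕ∞) : WithTop ℕ∞) F := contDiff_infty.2 hF
  have hder : ∀ z w : ℂ, fderiv ℝ (fun z => Q.symm (F (T z))) z w =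
      Q.symm (fderiv ℝ F (T z) (T w)) := by
    intro z w
    have h1 : HasFDerivAt F (fderiv ℝ F (T z)) (T z) :=
      (hFs.differentiable (by simp) (T z)).hasFDerivAt
    have h2 : HasFDerivAt (fun z : ℂ => T z) (T.toContinuousLinearEquiv : ℂ →L[ℝ] _) z :=
      T.toContinuousLinearEquiv.hasFDerivAt
    have h3 : HasFDerivAt (fun y => Q.symm y)
        (Q.symm.toContinuousLinearEquiv : EuclideanSpace ℝ (Fin 4) →L[ℝ] Quaternion ℝ)
        (F (T z)) := Q.symm.toContinuousLinearEquiv.hasFDerivAt
    have h4 := h3.comp z (h1.comp z h2)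
    have h5 := h4.fderiv
    have h6 : fderiv ℝ (fun z => Q.symm (F (T z))) z = _ := h5
    rw [h6]
    rfl
  let S : Imm :=
    { f := fun z => Q.symm (F (T z))
      smooth := Q.symm.contDiff.comp (hFs.comp T.contDiff)
      unit := fun z => by rw [Q.symm.norm_map]; exact hunit _
      iso := fun z w => by rw [hder, Q.symm.norm_map, hiso, T.norm_map] }
  have hli' : LinearIndependent ℝ ![T.symm u, T.symm v] := by
    rw [LinearIndependent.pair_iff] at hli ⊢
    intro s t hst
    apply hli s t
    have := congrArg T hst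
    rw [map_add, map_smul, map_smul, T.apply_symm_apply, T.apply_symm_apply, map_zero] at this
    exact this
  obtain ⟨x, y, hxy⟩ := S.antipodal (cross_ne hli')
    (fun z => by
      show Q.symm (F (T (z + T.symm u))) = Q.symm (F (T z))
      rw [map_add, T.apply_symm_apply, (hper _).1])
    (fun z => by
      show Q.symm (F (T (z + T.symm v))) = Q.symm (F (T z))
      rw [map_add, T.apply_symm_apply, (hper _).2])
  refine ⟨T x, T y, ?_⟩
  have h1 : Q.symm (F (T y)) = -Q.symm (F (T x)) := hxy
  have h2 := congrArg Q h1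
  rw [map_neg, Q.apply_symm_apply, Q.apply_symm_apply] at h2
  exact h2

end Pool.Agent.S08455
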