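import Pool.Statements.S08473
import Pool.Agent.B595.HG.Final

set_option autoImplicit false
open Pool Pool.MP_61a5b3_gt

namespace Pool.Agent.S08473

/-- Every compact connected metric space that, for each ε>0, has a finite open cover by sets of diameter <ε with no three meeting and an acyclic intersection graph, has a fixed point for each continuous self-map joining every x to f(x) by an arc. -/
theorem result :
    ∀ (K : Type) [MetricSpace K] [CompactSpace K] [ConnectedSpace K],
      (∀ ε : ℝ, 0 < ε → ∃ (n : ℕ) (U : Fin n → Set K),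
        (∀ i, IsOpen (U i)) ∧
        (∀ i, Metric.diam (U i) < ε) ∧
        (⋃ i, U i) = Set.univ ∧
        (∀ i j k, i ≠ j → j ≠ k → i ≠ k → U i ∩ U j ∩ U k = ∅) ∧
        (SimpleGraph.fromRel (fun i j : Fin n => (U i ∩ U j).Nonempty)).IsAcyclic) →
      ∀ f : K → K, Continuous f →
        (∀ x : K, f x = x ∨
          ∃ γ : unitInterval → K, Continuous γ ∧ Function.Injective γ ∧
            γ 0 = x ∧ γ 1 = f x) →
        ∃ x : K, f x = x := by
  intro K _ _ _ hT f hf harc
  apply Pool.Agent.B595.HG.hagopian hT hf
  intro x
  rcases harc x with h | ⟨γ, h1, _, h3, h4⟩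
  · exact ⟨fun _ => x, continuous_const, rfl, h.symm⟩
  · exact ⟨γ, h1, h3, h4⟩

end Pool.Agent.S08473
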