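import Pool.Statements.S08484
import Pool.Agent.Helper695.Space
import Pool.Agent.Helper695.CompactHD

set_option autoImplicit false
open Topology
open Pool Pool.MP_64adfd_gt

namespace Pool.Agent.S08484

/-- The negation of the preceding statement: For every infinite cardinal τ and Tychonoff space X whose closed subsets each have a dense subset of size at most τ, there is a compact Hausdorff space containing X as a dense embedded subspace whose closed subsets also each have a dense subset of size at most τ. -/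
theorem result :
    ¬ (∀ (τ : Cardinal.{0}), Cardinal.aleph0 ≤ τ →
    ∀ (X : Type) [TopologicalSpace X] [T35Space X],
      (∀ Y : Set X, IsClosed Y → ∃ D : Set X, D ⊆ Y ∧ Cardinal.mk D ≤ τ ∧ Y ⊆ closure D) →
      ∃ (K : Type) (_ : TopologicalSpace K), CompactSpace K ∧ T2Space K ∧
        ∃ f : X → K, Topology.IsEmbedding f ∧ DenseRange f ∧
          ∀ Y : Set K, IsClosed Y → ∃ D : Set K, D ⊆ Y ∧ Cardinal.mk D ≤ τ ∧ Y ⊆ closure D) := by
  intro h
  obtain ⟨K, _, hK1, hK2, f, hf, -, hK⟩ := h Pool.Agent.Helper695.Scale.mu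
    Pool.Agent.Helper695.Scale.aleph0_le_mu Pool.Agent.Helper695.Space.X (fun Y hY => by
      obtain ⟨D, h1, h2, h3⟩ := Pool.Agent.Helper695.Space.closed_density Y hY
      exact ⟨D, h1, h3, h2⟩)
  obtain ⟨D, hD1, hD2, hD3⟩ := Pool.Agent.Helper695.CompactHD.compact_hd _
    Pool.Agent.Helper695.Scale.aleph0_le_mu hK (f '' Pool.Agent.Helper695.Space.Z)
  have h1 : f ⁻¹' D ⊆ Pool.Agent.Helper695.Space.Z := by
    intro x hx
    obtain ⟨z, hz, hzx⟩ := hD1 hx
    rwa [← hf.injective hzx]
  have h2 : Cardinal.mk (f ⁻¹' D) ≤ Pool.Agent.Helper695.Scale.mu :=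
    (Cardinal.mk_preimage_of_injective _ _ hf.injective).trans hD2
  refine Pool.Agent.Helper695.Space.Z_not_dense _ h1 h2 ?_
  intro z hz
  rw [hf.isInducing.closure_eq_preimage_closure_image]
  have h3 : f '' (f ⁻¹' D) = D := by
    apply Set.image_preimage_eq_of_subset
    exact hD1.trans (Set.image_subset_range _ _)
  rw [Set.mem_preimage, h3]
  exact hD3 ⟨z, hz, rfl⟩

end Pool.Agent.S08484
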