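import Pool.Statements.S08497
import Pool.Agent.Helper962.Heis.Final

set_option autoImplicit false
open Pool Pool.MP_689d9c_gt

namespace Pool.Agent.S08497

/-- There is some exponent 0<ε<1 and a map from the Heisenberg group (ℝ³, Korányi metric) to ℝ⁵ whose distances are within a constant factor of the Korányi distance raised to the power ε. -/
theorem result :
    ∃ ε : ℝ, 0 < ε ∧ ε < 1 ∧
      ∃ f : ℝ × ℝ × ℝ → EuclideanSpace ℝ (Fin 5), ∃ C : ℝ, 0 < C ∧
        ∀ p q : ℝ × ℝ × ℝ,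
          C⁻¹ * (((q.1 - p.1) ^ 2 + (q.2.1 - p.2.1) ^ 2) ^ 2
                + (q.2.2 - p.2.2 - 2 * (p.1 * q.2.1 - p.2.1 * q.1)) ^ 2) ^ (ε / 4)
              ≤ dist (f p) (f q) ∧
          dist (f p) (f q) ≤
            C * (((q.1 - p.1) ^ 2 + (q.2.1 - p.2.1) ^ 2) ^ 2
                + (q.2.2 - p.2.2 - 2 * (p.1 * q.2.1 - p.2.1 * q.1)) ^ 2) ^ (ε / 4) :=
  Pool.Agent.Helper962.Heis.snowflake_embedding

end Pool.Agent.S08497
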