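import Pool.Statements.S08501
import Pool.Agent.Helper531.Main

set_option autoImplicit false
open Pool Pool.MP_6907a2_gt

namespace Pool.Agent.S08501

/-- Every compact connected, path-connected, homogeneous metric space in which removing some two distinct points leaves a disconnected set is homeomorphic to the circle. -/
theorem result :
    ∀ (X : Type) [MetricSpace X] [CompactSpace X] [ConnectedSpace X] [PathConnectedSpace X],
      (∀ x y : X, ∃ h : X ≃ₜ X, h x = y) →
      (∃ a b : X, a ≠ b ∧ ¬ IsConnected (({a, b} : Set X)ᶜ)) →
      Nonempty (X ≃ₜ Circle) := by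
  intro X _ _ _ _ hh hab
  obtain ⟨a, b, hne, hsep⟩ := hab
  apply Pool.Agent.Helper531.Gordh.homogeneous_pair hh hne
  intro hpre
  apply hsep
  refine ⟨?_, hpre⟩
  by_contra hemp
  rw [Set.not_nonempty_iff_eq_empty, Set.compl_empty_iff] at hemp
  have : Nontrivial X := ⟨a, b, hne⟩
  apply Pool.Agent.Helper531.Gordh.uncountable_of_preconnected (Y := X)
  rw [← hemp]
  exact (Set.toFinite {a, b}).countable

end Pool.Agent.S08501
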