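import Pool.Statements.S08504
import Pool.Agent.Helper102.PerfectSpace

set_option autoImplicit false
open Pool Pool.MP_69fc66_gt

namespace Pool.Agent.S08504

open Pool.Agent.Helper102.PerfectSpace Pool.Agent.Helper102.PerfectSpace.Pt

/-- The negation of the preceding statement: For Tychonoff spaces X, Y: if the pointwise-convergence function spaces C_p(X), C_p(Y) are uniformly homeomorphic and every closed subset of X is a G-delta, then every closed subset of Y is a G-delta. -/
theorem result :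
    ¬ (∀ (X Y : Type) [TopologicalSpace X] [TopologicalSpace Y] [T35Space X] [T35Space Y],
      (∃ Φ : C(X, ℝ) ≃ C(Y, ℝ),
        (∀ B : Finset Y, ∀ ε : ℝ, 0 < ε → ∃ A : Finset X, ∃ δ : ℝ, 0 < δ ∧
          ∀ f g : C(X, ℝ), (∀ x ∈ A, |f x - g x| < δ) →
            ∀ y ∈ B, |Φ f y - Φ g y| < ε) ∧
        (∀ A : Finset X, ∀ ε : ℝ, 0 < ε → ∃ B : Finset Y, ∃ δ : ℝ, 0 < δ ∧
          ∀ f g : C(Y, ℝ), (∀ y ∈ B, |f y - g y| < δ) →
            ∀ x ∈ A, |Φ.symm f x - Φ.symm g x| < ε)) →
      (∀ s : Set X, IsClosed s → IsGδ s) →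
      (∀ t : Set Y, IsClosed t → IsGδ t)) := by
  intro H
  have key := H Pt QPt
    ⟨{ toFun := fun f => ⟨fun p => tw f p.pt, continuous_tw f⟩
       invFun := fun g => ⟨untw (fun p => g ⟨p⟩), continuous_untw g g.continuous⟩
       left_inv := by
         intro f
         ext p
         exact congrFun (untw_tw f) p
       right_inv := by
         intro g
         ext p
         exact congrFun (tw_untw (fun p => g ⟨p⟩)) p.pt }, ?_, ?_⟩ isGδ_of_isClosed
  · exact not_isGδ_base (key _ isClosed_singleton)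
  · classical
    intro B ε hε
    refine ⟨(B.image QPt.pt) ∪ (B.image (fun p => ret p.pt)) ∪ {node []}, ε / 3, by positivity, ?_⟩
    intro f g hfg p hp
    have h1 : |f p.pt - g p.pt| < ε / 3 :=
      hfg _ (by simp only [Finset.mem_union, Finset.mem_image]; exact Or.inl (Or.inl ⟨p, hp, rfl⟩))
    have h2 : |f (ret p.pt) - g (ret p.pt)| < ε / 3 :=
      hfg _ (by simp only [Finset.mem_union, Finset.mem_image]; exact Or.inl (Or.inr ⟨p, hp, rfl⟩))
    have h3 : |f (node []) - g (node [])| < ε / 3 := hfg _ (by simp)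
    show |tw f p.pt - tw g p.pt| < ε
    rw [abs_lt] at h1 h2 h3 ⊢
    obtain ⟨q⟩ := p
    cases q <;> simp only [tw, ret] at * <;> constructor <;> linarith [h1.1, h1.2, h2.1, h2.2, h3.1, h3.2]
  · classical
    intro A ε hε
    refine ⟨(A.image QPt.mk) ∪ (A.image (fun p => QPt.mk (ret p))) ∪ {⟨node []⟩}, ε / 3,
      by positivity, ?_⟩
    intro f g hfg p hp
    have h1 : |f ⟨p⟩ - g ⟨p⟩| < ε / 3 :=
      hfg _ (by simp only [Finset.mem_union, Finset.mem_image]; exact Or.inl (Or.inl ⟨p, hp, rfl⟩))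
    have h2 : |f ⟨ret p⟩ - g ⟨ret p⟩| < ε / 3 :=
      hfg _ (by simp only [Finset.mem_union, Finset.mem_image]; exact Or.inl (Or.inr ⟨p, hp, rfl⟩))
    have h3 : |f ⟨node []⟩ - g ⟨node []⟩| < ε / 3 := hfg _ (by simp)
    show |untw (fun p => f ⟨p⟩) p - untw (fun p => g ⟨p⟩) p| < ε
    rw [abs_lt] at h1 h2 h3 ⊢
    cases p <;> simp only [untw, ret] at * <;> constructor <;> linarith [h1.1, h1.2, h2.1, h2.2, h3.1, h3.2]

end Pool.Agent.S08504
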