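import Pool.Statements.S08507

set_option autoImplicit false
open Topology
open Pool Pool.MP_6b9469_gt

namespace Pool.Agent.S08507

/-- Every topological space having a σ-disjoint base and a σ-locally countable base also has a single base that is both σ-disjoint and σ-locally countable. -/
theorem result :
    ∀ (X : Type) [TopologicalSpace X],
      (∃ B : Set (Set X), TopologicalSpace.IsTopologicalBasis B ∧
        ∃ F : ℕ → Set (Set X), B = ⋃ n, F n ∧ ∀ n, (F n).PairwiseDisjoint id) →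
      (∃ B : Set (Set X), TopologicalSpace.IsTopologicalBasis B ∧
        ∃ F : ℕ → Set (Set X), B = ⋃ n, F n ∧
          ∀ n, ∀ x : X, ∃ U ∈ 𝓝 x, {S ∈ F n | (S ∩ U).Nonempty}.Countable) →
      ∃ B : Set (Set X), TopologicalSpace.IsTopologicalBasis B ∧
        (∃ F : ℕ → Set (Set X), B = ⋃ n, F n ∧ ∀ n, (F n).PairwiseDisjoint id) ∧
        (∃ G : ℕ → Set (Set X), B = ⋃ n, G n ∧
          ∀ n, ∀ x : X, ∃ U ∈ 𝓝 x, {S ∈ G n | (S ∩ U).Nonempty}.Countable) := by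
  rintro X _ ⟨B, hB, F, rfl, hF⟩ ⟨C, hC, G, rfl, hG⟩
  -- every nonempty set is contained in only countably many members of `G m`
  have hcount : ∀ (S : Set X) (m : ℕ), S.Nonempty → {T ∈ G m | S ⊆ T}.Countable := by
    rintro S m ⟨x, hx⟩
    obtain ⟨U, hU, hUc⟩ := hG m x
    refine hUc.mono ?_
    rintro T ⟨hT, hST⟩
    exact ⟨hT, ⟨x, hST hx, mem_of_mem_nhds hU⟩⟩
  have hnum : ∀ (S : Set X) (m : ℕ), ∃ f : Set X → ℕ,
      S.Nonempty → Set.InjOn f {T ∈ G m | S ⊆ T} := by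
    intro S m
    by_cases hS : S.Nonempty
    · obtain ⟨f, hf⟩ := Set.countable_iff_exists_injOn.1 (hcount S m hS)
      exact ⟨f, fun _ => hf⟩
    · exact ⟨fun _ => 0, fun h => absurd h hS⟩
  choose num hnum using hnum
  let E : ℕ → ℕ → ℕ → Set X → Set X := fun n m k T =>
    ⋃₀ {S | S ∈ F n ∧ S.Nonempty ∧ S ⊆ T ∧ num S m T = k}
  have hEsub : ∀ n m k T, E n m k T ⊆ T := by
    intro n m k T x hx
    obtain ⟨S, ⟨_, _, hST, _⟩, hxS⟩ := hx
    exact hST hxS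
  let H : ℕ × ℕ × ℕ → Set (Set X) := fun p => (fun T => E p.1 p.2.1 p.2.2 T) '' G p.2.1
  let e : ℕ → ℕ × ℕ × ℕ := fun i => ((Nat.unpair i).1, Nat.unpair (Nat.unpair i).2)
  have he : ∀ p : ℕ × ℕ × ℕ, ∃ i, e i = p := by
    rintro ⟨n, m, k⟩
    refine ⟨Nat.pair n (Nat.pair m k), ?_⟩
    simp [e, Nat.unpair_pair]
  refine ⟨⋃ i, H (e i), ?_, ⟨fun i => H (e i), rfl, ?_⟩, ⟨fun i => H (e i), rfl, ?_⟩⟩
  · refine TopologicalSpace.isTopologicalBasis_of_isOpen_of_nhds ?_ ?_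
    · intro u hu
      obtain ⟨i, hi⟩ := Set.mem_iUnion.1 hu
      obtain ⟨T, _, rfl⟩ := hi
      refine isOpen_sUnion ?_
      rintro S ⟨hS, _⟩
      exact hB.isOpen (Set.mem_iUnion.2 ⟨_, hS⟩)
    · intro a u ha hu
      obtain ⟨T, hT, haT, hTu⟩ := hC.exists_subset_of_mem_open ha hu
      obtain ⟨m, hTm⟩ := Set.mem_iUnion.1 hT
      obtain ⟨S, hS, haS, hST⟩ := hB.exists_subset_of_mem_open haT (hC.isOpen hT)
      obtain ⟨n, hSn⟩ := Set.mem_iUnion.1 hS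
      obtain ⟨i, hi⟩ := he (n, m, num S m T)
      refine ⟨E n m (num S m T) T, Set.mem_iUnion.2 ⟨i, ?_⟩, ?_, ?_⟩
      · rw [hi]
        exact ⟨T, hTm, rfl⟩
      · exact ⟨S, ⟨hSn, ⟨a, haS⟩, hST, rfl⟩, haS⟩
      · exact (hEsub _ _ _ _).trans hTu
  · intro i
    show (H (e i)).PairwiseDisjoint id
    generalize e i = p
    obtain ⟨n, m, k⟩ := p
    rintro U ⟨T, hT, rfl⟩ U' ⟨T', hT', rfl⟩ hne
    refine Set.disjoint_left.2 ?_
    rintro x ⟨S, ⟨hS, hSne, hST, hk⟩, hxS⟩ ⟨S', ⟨hS', hSne', hST', hk'⟩, hxS'⟩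
    have hSS' : S = S' := by
      by_contra hSS
      exact Set.disjoint_left.1 (hF n hS hS' hSS) hxS hxS'
    subst hSS'
    have hTT : T = T' := hnum S m hSne ⟨hT, hST⟩ ⟨hT', hST'⟩ (hk.trans hk'.symm)
    exact hne (by rw [hTT])
  · intro i x
    show ∃ U ∈ 𝓝 x, {S ∈ H (e i) | (S ∩ U).Nonempty}.Countable
    generalize e i = p
    obtain ⟨n, m, k⟩ := p
    obtain ⟨U, hU, hUc⟩ := hG m x
    refine ⟨U, hU, (hUc.image (fun T => E n m k T)).mono ?_⟩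
    rintro W ⟨⟨T, hT, rfl⟩, ⟨y, hyE, hyU⟩⟩
    exact ⟨T, ⟨hT, ⟨y, hEsub _ _ _ _ hyE, hyU⟩⟩, rfl⟩

end Pool.Agent.S08507
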