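import Pool.Statements.S08513

set_option autoImplicit false
open Pool Pool.MP_6c8a84_gt

namespace Pool.Agent.S08513

open Set Metric Topology

/-- A nonempty open interval contains a point outside any countable set. -/
lemma exists_Ioo_notMem (a b : ℝ) (hab : a < b) (S : Set ℝ) (hS : S.Countable) :
    ∃ s, a < s ∧ s < b ∧ s ∉ S := by
  by_contra hcon
  push Not at hcon
  have h1 : Ioo a b ⊆ S := fun s hs => hcon s hs.1 hs.2
  exact absurd hab (not_lt.mpr (Cardinal.Real.Ioo_countable_iff.mp (hS.mono h1)))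

/-- Straight segment from `p` to `q`. -/
noncomputable def seg (p q : ℂ) (t : unitInterval) : ℂ := p + ((t : ℝ) : ℂ) * (q - p)

/-- Near any target there is a point visible from `p`. -/
lemma exists_visible (D : Set ℂ) (hD : D.Countable) (p : ℂ) (hp : p ∉ D) (q : ℂ) (ε : ℝ)
    (hε : 0 < ε) : ∃ q' : ℂ, dist q' q < ε ∧ q' ≠ p ∧ ∀ t : unitInterval, seg p q' t ∉ D := by
  obtain ⟨c, hc, hcp⟩ : ∃ c : ℂ, dist c q < ε / 2 ∧ c ≠ p := by
    by_cases h : q = p
    · refine ⟨q + ((ε / 4 : ℝ) : ℂ), ?_, ?_⟩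
      · rw [dist_eq_norm, add_sub_cancel_left, Complex.norm_real, Real.norm_eq_abs,
          abs_of_pos (by positivity)]
        linarith
      · rw [h]
        intro h2
        have h3 : ((ε / 4 : ℝ) : ℂ) = 0 := by simpa using h2
        have h4 : ε / 4 = 0 := by exact_mod_cast h3
        linarith
    · exact ⟨q, by simp; positivity, h⟩
  have hcp' : c - p ≠ 0 := sub_ne_zero.mpr hcp
  have hn : 0 < ‖c - p‖ := norm_pos_iff.mpr hcp'
  set S : Set ℝ := (fun d : ℂ => ((d - p) / (c - p)).im / ((d - p) / (c - p)).re) '' D with hS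
  have hSc : S.Countable := hD.image _
  obtain ⟨s, hs0, hs1, hsS⟩ := exists_Ioo_notMem 0 (ε / 2 / ‖c - p‖) (by positivity) S hSc
  set q' : ℂ := c + ((s : ℝ) : ℂ) * Complex.I * (c - p) with hq'
  have hqp : q' - p = (c - p) * (1 + (s : ℂ) * Complex.I) := by
    rw [hq']
    ring
  have h1s : (1 + (s : ℂ) * Complex.I) ≠ 0 := by
    intro h
    have := congrArg Complex.re h
    simp at this
  refine ⟨q', ?_, ?_, ?_⟩
  · have h1 : dist q' c < ε / 2 := by
      rw [dist_eq_norm, hq', add_sub_cancel_left, norm_mul, norm_mul, Complex.norm_I, mul_one,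
        Complex.norm_real, Real.norm_eq_abs, abs_of_pos hs0]
      rwa [lt_div_iff₀ hn] at hs1
    calc dist q' q ≤ dist q' c + dist c q := dist_triangle _ _ _
      _ < ε := by linarith
  · intro h
    rw [h, sub_self] at hqp
    exact (mul_ne_zero hcp' h1s) hqp.symm
  · intro t ht
    have hw : (seg p q' t - p) / (c - p) = ((t : ℝ) : ℂ) * (1 + (s : ℂ) * Complex.I) := by
      unfold seg
      rw [hqp, add_sub_cancel_left]
      field_simp
    have ht0 : (t : ℝ) ≠ 0 := by
      intro h0
      apply hp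
      have : seg p q' t = p := by
        unfold seg
        rw [h0]
        simp
      rwa [this] at ht
    apply hsS
    refine ⟨seg p q' t, ht, ?_⟩
    simp only
    rw [hw]
    simp
    field_simp

/-- A circle around a puncture cannot be pulled off the puncture. -/
lemma circle_obstruction (H : C(unitInterval × unitInterval, {z : ℂ // z ≠ 0})) (r : ℝ)
    (hr : 0 < r) (w : ℂ) (hw : w ≠ 0)
    (h0 : ∀ u : unitInterval, ((H (0, u) : {z : ℂ // z ≠ 0}) : ℂ) =
      r * Complex.exp (2 * Real.pi * (u : ℝ) * Complex.I))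
    (hper : ∀ s : unitInterval, H (s, 0) = H (s, 1))
    (h1 : ∀ u : unitInterval, ((H (1, u) : {z : ℂ // z ≠ 0}) : ℂ) / w ∈ Complex.slitPlane) :
    False := by
  have cov := Complex.isCoveringMap_exp
  set f : C(unitInterval, ℂ) := ⟨fun u => (Real.log r : ℂ) + 2 * Real.pi * (u : ℝ) * Complex.I,
    by fun_prop⟩ with hf
  have H0 : ∀ u : unitInterval, H (0, u) =
      (fun z : ℂ ↦ (⟨_, z.exp_ne_zero⟩ : {z : ℂ // z ≠ 0})) (f u) := by
    intro u
    apply Subtype.ext
    rw [h0]
    change _ = Complex.exp ((Real.log r : ℂ) + 2 * Real.pi * (u : ℝ) * Complex.I)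
    rw [Complex.exp_add, ← Complex.ofReal_exp, Real.exp_log hr]
  set G := cov.liftHomotopy H f H0 with hG
  have hlift : ∀ x, Complex.exp (G x) = ((H x : {z : ℂ // z ≠ 0}) : ℂ) := by
    intro x
    have := congrFun (cov.liftHomotopy_lifts H f H0) x
    exact congrArg Subtype.val this
  have hG0 : ∀ u, G (0, u) = f u := cov.liftHomotopy_zero H f H0
  -- the right edge is the left edge shifted by `2πi`
  have hedge : ∀ s : unitInterval, G (s, 1) = G (s, 0) + 2 * Real.pi * Complex.I := by
    have h := cov.eq_of_comp_eq (g₁ := fun s : unitInterval => G (s, 1))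
      (g₂ := fun s : unitInterval => G (s, 0) + 2 * Real.pi * Complex.I)
      (by fun_prop) (by fun_prop) (by
        ext s
        change Complex.exp (G (s, 1)) = Complex.exp (G (s, 0) + 2 * Real.pi * Complex.I)
        rw [Complex.exp_add, Complex.exp_two_pi_mul_I, mul_one, hlift, hlift, hper]) 0 (by
        simp only [hG0, hf]
        simp)
    intro s
    exact congrFun h s
  -- at time one there is a global logarithm
  set c : ℂ := G (1, 0) - Complex.log (((H (1, 0) : {z : ℂ // z ≠ 0}) : ℂ) / w) with hc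
  have hlog : ∀ u : unitInterval,
      G (1, u) = Complex.log (((H (1, u) : {z : ℂ // z ≠ 0}) : ℂ) / w) + c := by
    have hcexp : Complex.exp c = w := by
      rw [hc, Complex.exp_sub, hlift, Complex.exp_log (div_ne_zero (H (1, 0)).2 hw)]
      have := (H (1, 0)).2
      field_simp
    have hcont : Continuous fun u : unitInterval =>
        Complex.log (((H (1, u) : {z : ℂ // z ≠ 0}) : ℂ) / w) := by
      apply Continuous.clog
      · fun_prop
      · exact h1
    have h := cov.eq_of_comp_eq (g₁ := fun u : unitInterval => G (1, u))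
      (g₂ := fun u : unitInterval =>
        Complex.log (((H (1, u) : {z : ℂ // z ≠ 0}) : ℂ) / w) + c)
      (by fun_prop) (by fun_prop) (by
        ext u
        change Complex.exp (G (1, u)) =
          Complex.exp (Complex.log (((H (1, u) : {z : ℂ // z ≠ 0}) : ℂ) / w) + c)
        rw [Complex.exp_add, hcexp, Complex.exp_log (div_ne_zero (H (1, u)).2 hw), hlift,
          div_mul_cancel₀ _ hw]) 0 (by
        simp only [hc]
        ring)
    intro u
    exact congrFun h u
  have e1 := hlog 1
  have e0 := hlog 0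
  rw [← hper 1, ← e0, hedge 1] at e1
  have : (2 * Real.pi * Complex.I : ℂ) = 0 := by
    have h2 : G (1, 0) + 2 * Real.pi * Complex.I = G (1, 0) + 0 := by rw [add_zero]; exact e1
    exact add_left_cancel h2
  exact Complex.two_pi_I_ne_zero this

/-- Homotopies of the identity of the complement of a countable dense set are stationary. -/
lemma rigid (D : Set ℂ) (hD : D.Countable) (hdense : Dense D)
    (h : {z : ℂ // z ∉ D} × unitInterval → {z : ℂ // z ∉ D}) (hc : Continuous h)
    (h0 : ∀ x, h (x, 0) = x) (a : {z : ℂ // z ∉ D}) (t : unitInterval) : h (a, t) = a := by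
  by_contra hne
  set b : ℂ := (h (a, t) : ℂ) with hb
  have hba : b ≠ (a : ℂ) := fun h' => hne (Subtype.ext h')
  have hpos : 0 < dist b (a : ℂ) := dist_pos.mpr hba
  set ε : ℝ := dist b (a : ℂ) / 3 with hε
  have hεpos : 0 < ε := by positivity
  have hcont : Continuous fun x : {z : ℂ // z ∉ D} => ((h (x, t) : {z : ℂ // z ∉ D}) : ℂ) := by
    fun_prop
  obtain ⟨δ, hδ, hδ2⟩ := Metric.continuous_iff.mp hcont a ε hεpos
  set δ' : ℝ := min δ ε with hδ'
  have hδ'pos : 0 < δ' := lt_min hδ hεpos
  obtain ⟨d, hdD, hd⟩ := Metric.dense_iff.mp hdense (a : ℂ) (δ' / 2) (by positivity)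
  rw [Metric.mem_ball] at hdD
  obtain ⟨r, hr0, hr1, hrS⟩ := exists_Ioo_notMem 0 (δ' / 2) (by positivity)
    ((fun z : ℂ => dist z d) '' D) (hD.image _)
  have hcirc : ∀ u : unitInterval,
      d + r * Complex.exp (2 * Real.pi * (u : ℝ) * Complex.I) ∉ D := by
    intro u hu
    apply hrS
    refine ⟨_, hu, ?_⟩
    simp only
    rw [dist_eq_norm, add_sub_cancel_left, norm_mul, Complex.norm_real, Real.norm_eq_abs,
      abs_of_pos hr0]
    have : (2 * Real.pi * (u : ℝ) * Complex.I : ℂ) = ((2 * Real.pi * (u : ℝ) : ℝ) : ℂ) *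
        Complex.I := by push_cast; ring
    rw [this, Complex.norm_exp_ofReal_mul_I, mul_one]
  set c : unitInterval → {z : ℂ // z ∉ D} := fun u =>
    ⟨d + r * Complex.exp (2 * Real.pi * (u : ℝ) * Complex.I), hcirc u⟩ with hcdef
  have hccont : Continuous c := by
    rw [hcdef]
    fun_prop
  have hc01 : c 0 = c 1 := by
    apply Subtype.ext
    simp only [hcdef]
    have : (2 * Real.pi * ((1 : unitInterval) : ℝ) * Complex.I : ℂ) = 2 * Real.pi * Complex.I := by
      simp
    rw [this, Complex.exp_two_pi_mul_I]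
    simp
  set H : C(unitInterval × unitInterval, {z : ℂ // z ≠ 0}) :=
    ⟨fun x => ⟨((h (c x.2, x.1 * t) : {z : ℂ // z ∉ D}) : ℂ) - d, by
      intro h'
      have h'' := sub_eq_zero.mp h'
      exact (h (c x.2, x.1 * t)).2 (h'' ▸ hd)⟩, by fun_prop⟩ with hH
  have hbd : 2 * ε ≤ dist b d := by
    have h1 : dist b (a : ℂ) ≤ dist b d + dist d (a : ℂ) := dist_triangle _ _ _
    have h2 : dist d (a : ℂ) < ε := lt_of_lt_of_le hdD (by
      have : δ' ≤ ε := min_le_right _ _
      linarith)
    have h3 : dist b (a : ℂ) = 3 * ε := by rw [hε]; ring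
    linarith
  have hbd0 : b - d ≠ 0 := by
    intro h'
    rw [dist_eq_norm, h', norm_zero] at hbd
    linarith
  refine circle_obstruction H r hr0 (b - d) hbd0 ?_ ?_ ?_
  · intro u
    simp only [hH, ContinuousMap.coe_mk]
    rw [zero_mul, h0]
    simp only [hcdef]
    ring
  · intro s
    simp only [hH, ContinuousMap.coe_mk]
    rw [hc01]
  · intro u
    simp only [hH, ContinuousMap.coe_mk]
    rw [one_mul]
    have hcu : dist (c u) a < δ := by
      rw [Subtype.dist_eq]
      have h1 : dist ((c u : {z : ℂ // z ∉ D}) : ℂ) d < δ' / 2 := by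
        simp only [hcdef]
        rw [dist_eq_norm, add_sub_cancel_left, norm_mul, Complex.norm_real, Real.norm_eq_abs,
          abs_of_pos hr0]
        have : (2 * Real.pi * (u : ℝ) * Complex.I : ℂ) = ((2 * Real.pi * (u : ℝ) : ℝ) : ℂ) *
            Complex.I := by push_cast; ring
        rw [this, Complex.norm_exp_ofReal_mul_I, mul_one]
        exact hr1
      calc dist ((c u : {z : ℂ // z ∉ D}) : ℂ) (a : ℂ)
          ≤ dist ((c u : {z : ℂ // z ∉ D}) : ℂ) d + dist d (a : ℂ) := dist_triangle _ _ _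
        _ < δ' := by linarith
        _ ≤ δ := min_le_left _ _
    have h2 := hδ2 (c u) hcu
    have h3 : ‖(((h (c u, t) : {z : ℂ // z ∉ D}) : ℂ) - d) / (b - d) - 1‖ < 1 := by
      have e : (((h (c u, t) : {z : ℂ // z ∉ D}) : ℂ) - d) / (b - d) - 1 =
          (((h (c u, t) : {z : ℂ // z ∉ D}) : ℂ) - b) / (b - d) := by
        field_simp
        ring
      rw [e, norm_div, div_lt_one (norm_pos_iff.mpr hbd0), ← dist_eq_norm, ← dist_eq_norm]
      linarith
    have h4 := Complex.mem_slitPlane_of_norm_lt_one h3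
    rwa [add_sub_cancel] at h4

/-- There is a metric space X on which every homotopy starting at the identity is stationary, yet some continuous open surjection g from a metric space Z onto X admits a homotopy starting at g that moves some point. -/
theorem result :
    ∃ (X : Type) (_ : MetricSpace X),
      (∀ h : X × unitInterval → X, Continuous h →
          (∀ x : X, h (x, (0 : unitInterval)) = x) →
          ∀ (a : X) (t : unitInterval), h (a, t) = a) ∧
      ∃ (Z : Type) (_ : MetricSpace Z) (g : Z → X),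
        Continuous g ∧ IsOpenMap g ∧ Function.Surjective g ∧
        ∃ (a : Z) (h : Z × unitInterval → X), Continuous h ∧
          (∀ z : Z, h (z, (0 : unitInterval)) = g z) ∧
          ∃ t : unitInterval, h (a, t) ≠ g a := by
  obtain ⟨D, hD, hdense⟩ := TopologicalSpace.exists_countable_dense ℂ
  refine ⟨{z : ℂ // z ∉ D}, inferInstance, fun h hc h0 a t => rigid D hD hdense h hc h0 a t, ?_⟩
  refine ⟨{p : {z : ℂ // z ∉ D} × {z : ℂ // z ∉ D} //
    ∀ t : unitInterval, seg (p.1 : ℂ) (p.2 : ℂ) t ∉ D}, inferInstance, fun p => p.1.1,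
    by fun_prop, ?_, ?_, ?_⟩
  · rw [isOpenMap_iff_nhds_le]
    rintro ⟨⟨p, q⟩, hpq⟩
    intro U hU
    rw [Filter.mem_map] at hU
    obtain ⟨ε, hε, hεU⟩ := Metric.mem_nhds_iff.mp hU
    rw [Metric.mem_nhds_iff]
    refine ⟨ε, hε, ?_⟩
    intro p' hp'
    obtain ⟨q', hq', -, hvis⟩ := exists_visible D hD (p' : ℂ) p'.2 (q : ℂ) ε hε
    have hq'D : q' ∉ D := by
      have := hvis 1
      unfold seg at this
      simpa using this
    have hmem : (⟨(p', ⟨q', hq'D⟩), hvis⟩ : {p : {z : ℂ // z ∉ D} × {z : ℂ // z ∉ D} //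
        ∀ t : unitInterval, seg (p.1 : ℂ) (p.2 : ℂ) t ∉ D}) ∈
        Metric.ball (⟨(p, q), hpq⟩ : {p : {z : ℂ // z ∉ D} × {z : ℂ // z ∉ D} //
        ∀ t : unitInterval, seg (p.1 : ℂ) (p.2 : ℂ) t ∉ D}) ε := by
      rw [Metric.mem_ball, Subtype.dist_eq, Prod.dist_eq]
      exact max_lt hp' hq'
    exact hεU hmem
  · intro x
    refine ⟨⟨(x, x), ?_⟩, rfl⟩
    intro t
    unfold seg
    simpa using x.2
  · obtain ⟨p, hp⟩ : ∃ p : ℂ, p ∉ D := by
      by_contra hcon
      push Not at hcon
      have h1 : D = Set.univ := Set.eq_univ_of_forall hcon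
      rw [h1] at hD
      exact not_countable_complex hD
    obtain ⟨q, -, hqp, hvis⟩ := exists_visible D hD p hp p 1 one_pos
    have hqD : q ∉ D := by
      have := hvis 1
      unfold seg at this
      simpa using this
    refine ⟨⟨(⟨p, hp⟩, ⟨q, hqD⟩), hvis⟩, fun x =>
      ⟨seg (x.1.1.1 : ℂ) (x.1.1.2 : ℂ) x.2, x.1.2 x.2⟩, ?_, ?_, 1, ?_⟩
    · unfold seg
      fun_prop
    · intro z
      apply Subtype.ext
      unfold seg
      simp
    · intro h
      have h2 := congrArg Subtype.val h
      unfold seg at h2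
      simp at h2
      exact hqp h2

end Pool.Agent.S08513
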