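import Pool.Statements.S08516
import Pool.Agent.Helper475.FlapSphere
import Pool.Agent.Helper475.FlapContr

set_option autoImplicit false
open Pool Pool.MP_6cd968_gt

namespace Pool.Agent.S08516

open Pool.Agent.Helper475

/-- Translations of the plane with flaps. -/
instance act : MulAction (Multiplicative (ℤ × ℤ)) Flap.V where
  smul g v := (v.1 + (Multiplicative.toAdd g).1, v.2.1 + (Multiplicative.toAdd g).2, v.2.2)
  one_smul v := by
    change (v.1 + 0, v.2.1 + 0, v.2.2) = v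
    simp
  mul_smul g h v := by
    change (v.1 + ((Multiplicative.toAdd g).1 + (Multiplicative.toAdd h).1),
      v.2.1 + ((Multiplicative.toAdd g).2 + (Multiplicative.toAdd h).2), v.2.2) =
      (v.1 + (Multiplicative.toAdd h).1 + (Multiplicative.toAdd g).1,
      v.2.1 + (Multiplicative.toAdd h).2 + (Multiplicative.toAdd g).2, v.2.2)
    congr 1
    · ring
    · congr 1
      ring

theorem smul_def (g : Multiplicative (ℤ × ℤ)) (v : Flap.V) :
    g • v = (v.1 + (Multiplicative.toAdd g).1, v.2.1 + (Multiplicative.toAdd g).2, v.2.2) := rfl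

theorem image_T (g : Multiplicative (ℤ × ℤ)) (x y : ℤ) :
    (Flap.T1 x y).image (fun v => g • v) =
      Flap.T1 (x + (Multiplicative.toAdd g).1) (y + (Multiplicative.toAdd g).2) ∧
    (Flap.T2 x y).image (fun v => g • v) =
      Flap.T2 (x + (Multiplicative.toAdd g).1) (y + (Multiplicative.toAdd g).2) ∧
    (Flap.F1 x y).image (fun v => g • v) =
      Flap.F1 (x + (Multiplicative.toAdd g).1) (y + (Multiplicative.toAdd g).2) ∧
    (Flap.F2 x y).image (fun v => g • v) =
      Flap.F2 (x + (Multiplicative.toAdd g).1) (y + (Multiplicative.toAdd g).2) := by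
  have e1 : ∀ a b : ℤ, a + 1 + b = a + b + 1 := by intros; ring
  have e2 : ∀ a b : ℤ, a - 1 + b = a + b - 1 := by intros; ring
  refine ⟨?_, ?_, ?_, ?_⟩
  · simp [Flap.T1, Finset.image_insert, smul_def, e1]
  · simp [Flap.T2, Finset.image_insert, smul_def, e1]
  · simp [Flap.F1, Finset.image_insert, smul_def, e2]
  · simp [Flap.F2, Finset.image_insert, smul_def, e1]

theorem image_mem (g : Multiplicative (ℤ × ℤ)) (s : Finset Flap.V) (hs : s ∈ Flap.S) :
    s.image (fun v => g • v) ∈ Flap.S := by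
  obtain ⟨h1, x, y, h⟩ := hs
  obtain ⟨i1, i2, i3, i4⟩ := image_T g x y
  refine ⟨h1.image _, x + (Multiplicative.toAdd g).1, y + (Multiplicative.toAdd g).2, ?_⟩
  rcases h with h | h | h | h
  · exact Or.inl (i1 ▸ Finset.image_subset_image h)
  · exact Or.inr (Or.inl (i2 ▸ Finset.image_subset_image h))
  · exact Or.inr (Or.inr (Or.inl (i3 ▸ Finset.image_subset_image h)))
  · exact Or.inr (Or.inr (Or.inr (i4 ▸ Finset.image_subset_image h)))

theorem free_act (g : Multiplicative (ℤ × ℤ)) (hg : g ≠ 1) (s : Finset Flap.V)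
    (hs : s ∈ Flap.S) : (fun v => g • v) '' (s : Set Flap.V) ≠ (s : Set Flap.V) := by
  intro heq
  have heq' : s.image (fun v => g • v) = s := by
    apply Finset.coe_injective
    rw [Finset.coe_image]
    exact heq
  have hcard : (0 : ℤ) < s.card := by
    have := hs.1
    exact_mod_cast Finset.card_pos.2 this
  have hinj : Set.InjOn (fun v : Flap.V => g • v) s := fun a _ b _ h => MulAction.injective g h
  apply hg
  apply Multiplicative.toAdd.injective
  have h1 : ∑ v ∈ s, v.1 = ∑ v ∈ s, (v.1 + (Multiplicative.toAdd g).1) := by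
    conv_lhs => rw [← heq']
    rw [Finset.sum_image hinj]
    rfl
  have h2 : ∑ v ∈ s, v.2.1 = ∑ v ∈ s, (v.2.1 + (Multiplicative.toAdd g).2) := by
    conv_lhs => rw [← heq']
    rw [Finset.sum_image hinj]
    rfl
  rw [Finset.sum_add_distrib, Finset.sum_const, nsmul_eq_mul] at h1 h2
  have h3 : (s.card : ℤ) * (Multiplicative.toAdd g).1 = 0 := by linarith
  have h4 : (s.card : ℤ) * (Multiplicative.toAdd g).2 = 0 := by linarith
  have h5 : (Multiplicative.toAdd g).1 = 0 := by
    rcases mul_eq_zero.1 h3 with h | h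
    · omega
    · exact h
  have h6 : (Multiplicative.toAdd g).2 = 0 := by
    rcases mul_eq_zero.1 h4 with h | h
    · omega
    · exact h
  exact Prod.ext h5 h6

theorem cocompact_act : ∃ F : Finset (Finset Flap.V), ∀ s ∈ Flap.S,
    ∃ g : Multiplicative (ℤ × ℤ), ∃ t ∈ F,
      (s : Set Flap.V) = (fun v => g • v) '' (t : Set Flap.V) := by
  refine ⟨(Flap.T1 0 0).powerset ∪ (Flap.T2 0 0).powerset ∪ (Flap.F1 0 0).powerset ∪
    (Flap.F2 0 0).powerset, ?_⟩
  rintro s ⟨_, x, y, h⟩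
  refine ⟨Multiplicative.ofAdd (x, y),
    s.image (fun v => (Multiplicative.ofAdd (x, y) : Multiplicative (ℤ × ℤ))⁻¹ • v), ?_, ?_⟩
  · obtain ⟨i1, i2, i3, i4⟩ := image_T (Multiplicative.ofAdd (x, y) : Multiplicative (ℤ × ℤ))⁻¹ x y
    have e1 : x + (Multiplicative.toAdd (Multiplicative.ofAdd (x, y) :
        Multiplicative (ℤ × ℤ))⁻¹).1 = 0 := by
      change x + - x = 0; ring
    have e2 : y + (Multiplicative.toAdd (Multiplicative.ofAdd (x, y) :
        Multiplicative (ℤ × ℤ))⁻¹).2 = 0 := by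
      change y + - y = 0; ring
    rw [e1, e2] at i1 i2 i3 i4
    simp only [Finset.mem_union, Finset.mem_powerset]
    rcases h with h | h | h | h
    · exact Or.inl (Or.inl (Or.inl (i1 ▸ Finset.image_subset_image h)))
    · exact Or.inl (Or.inl (Or.inr (i2 ▸ Finset.image_subset_image h)))
    · exact Or.inl (Or.inr (i3 ▸ Finset.image_subset_image h))
    · exact Or.inr (i4 ▸ Finset.image_subset_image h)
  · rw [Finset.coe_image, ← Set.image_comp]
    have : ((fun v : Flap.V => (Multiplicative.ofAdd (x, y) : Multiplicative (ℤ × ℤ)) • v) ∘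
        fun v => (Multiplicative.ofAdd (x, y) : Multiplicative (ℤ × ℤ))⁻¹ • v) = id := by
      funext v
      simp
    rw [this, Set.image_id]

/-- The negation of the preceding statement: For any contractible simplicial complex of dimension ≤2 with a free cocompact simplicial group action, and any connected subgraph Y of its 1-skeleton, every m-sphere (m≥2) in the R-Rips complex of Y's vertices with path metric bounds a ball in the R'-Rips complex, with R' depending only on m and R. -/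
theorem result :
    ¬ (∀ (V : Type) (S : Set (Finset V)),
      (∀ v : V, ({v} : Finset V) ∈ S) →
      (∀ s ∈ S, s.Nonempty ∧ s.card ≤ 3) →
      (∀ s ∈ S, ∀ t : Finset V, t ⊆ s → t.Nonempty → t ∈ S) →
      ContractibleSpace {f : lp (fun _ : V => ℝ) 1 //
        (∀ v, 0 ≤ f v) ∧ ∃ s ∈ S, (∀ v, v ∉ s → f v = 0) ∧ ∑ v ∈ s, f v = 1} →
      ∀ (G : Type) [Group G] [MulAction G V],
      (∀ g : G, ∀ s ∈ S, ∃ t ∈ S, (t : Set V) = (fun v => g • v) '' (s : Set V)) →
      (∀ g : G, g ≠ 1 → ∀ s ∈ S, (fun v => g • v) '' (s : Set V) ≠ (s : Set V)) →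
      (∃ F : Finset (Finset V), ∀ s ∈ S, ∃ g : G, ∃ t ∈ F,
        (s : Set V) = (fun v => g • v) '' (t : Set V)) →
      ∀ Y : (SimpleGraph.fromRel (fun u v : V => ∃ s ∈ S, u ∈ s ∧ v ∈ s)).Subgraph,
      Y.Connected →
      ∀ m : ℕ, 2 ≤ m → ∀ R : ℝ, 0 ≤ R → ∃ R' : ℝ, R ≤ R' ∧
        ∀ γ : EuclideanSpace ℝ (Fin (m + 1)) → lp (fun _ : Y.verts => ℝ) 1,
          ContinuousOn γ (Metric.sphere (0 : EuclideanSpace ℝ (Fin (m + 1))) 1) →
          Set.MapsTo γ (Metric.sphere (0 : EuclideanSpace ℝ (Fin (m + 1))) 1)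
            {f : lp (fun _ : Y.verts => ℝ) 1 | (∀ a, 0 ≤ f a) ∧
              ∃ s : Finset Y.verts, (∀ a, a ∉ s → f a = 0) ∧ ∑ a ∈ s, f a = 1 ∧
                ∀ a ∈ s, ∀ b ∈ s, (Y.coe.dist a b : ℝ) ≤ R} →
          ∃ Γ : EuclideanSpace ℝ (Fin (m + 1)) → lp (fun _ : Y.verts => ℝ) 1,
            ContinuousOn Γ (Metric.closedBall (0 : EuclideanSpace ℝ (Fin (m + 1))) 1) ∧
            Set.MapsTo Γ (Metric.closedBall (0 : EuclideanSpace ℝ (Fin (m + 1))) 1)
              {f : lp (fun _ : Y.verts => ℝ) 1 | (∀ a, 0 ≤ f a) ∧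
                ∃ s : Finset Y.verts, (∀ a, a ∉ s → f a = 0) ∧ ∑ a ∈ s, f a = 1 ∧
                  ∀ a ∈ s, ∀ b ∈ s, (Y.coe.dist a b : ℝ) ≤ R'} ∧
            Set.EqOn Γ γ (Metric.sphere (0 : EuclideanSpace ℝ (Fin (m + 1))) 1)) := by
  classical
  intro H
  obtain ⟨R', _, h⟩ := H Flap.V Flap.S Flap.S_single Flap.S_card Flap.S_down FlapC.contractible
    (Multiplicative (ℤ × ℤ))
    (fun g s hs => ⟨s.image (fun v => g • v), image_mem g s hs, by rw [Finset.coe_image]⟩)
    free_act cocompact_act Flap.Y Flap.Y_connected 2 le_rfl 4 (by norm_num)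
  have hr1 : R' ≤ ((⌈R'⌉.toNat : ℤ) : ℝ) := by
    refine (Int.le_ceil R').trans ?_
    exact_mod_cast Int.self_le_toNat _
  obtain ⟨Γ, h1, h2, h3⟩ := h (Flap.gam ((⌈R'⌉.toNat : ℤ) ^ 2) (((⌈R'⌉.toNat : ℤ) + 1) ^ 2))
    (Flap.gam_cont _ _)
    (fun x hx => Flap.gam_rips _ (by positivity) x (by simpa using hx))
  exact Flap.no_fill (⌈R'⌉.toNat : ℤ) (⌈R'⌉.toNat : ℤ) (by positivity) le_rfl R' hr1 Γ h1 h2 h3

end Pool.Agent.S08516
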