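import Mathlib
import Pool.Statements.S08522

set_option autoImplicit false
open Pool Pool.MP_6e1b9b_gt
open Set Filter Topology

namespace Pool.Agent.S08522

/-- An auxiliary nonnegative continuous function of `(x, z)` whose zeros with `z > 0` are exactly the
points with `1 / z` and `x / z` integral. -/
noncomputable def g (p : ℝ × ℝ) : ℝ :=
  p.2 * (|Real.sin (Real.pi / p.2)| + |Real.sin (Real.pi * (p.1 / p.2))|) / 2

theorem g_nonneg (p : ℝ × ℝ) (hp : 0 ≤ p.2) : 0 ≤ g p := by
  unfold g; positivity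

theorem g_le (p : ℝ × ℝ) (hp : 0 ≤ p.2) : g p ≤ p.2 := by
  unfold g
  have h1 := Real.abs_sin_le_one (Real.pi / p.2)
  have h2 := Real.abs_sin_le_one (Real.pi * (p.1 / p.2))
  nlinarith

theorem g_abs_le (p : ℝ × ℝ) : |g p| ≤ |p.2| := by
  unfold g
  have h1 := Real.abs_sin_le_one (Real.pi / p.2)
  have h2 := Real.abs_sin_le_one (Real.pi * (p.1 / p.2))
  have h3 := abs_nonneg (Real.sin (Real.pi / p.2))
  have h4 := abs_nonneg (Real.sin (Real.pi * (p.1 / p.2)))
  have h5 := abs_nonneg p.2
  rw [abs_div, abs_mul, abs_of_nonneg (add_nonneg h3 h4), abs_of_pos (two_pos : (0:ℝ) < 2)]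
  nlinarith

theorem g_cont : Continuous g := by
  rw [continuous_iff_continuousAt]
  rintro ⟨x, z⟩
  by_cases hz : z = 0
  · subst hz
    have h0 : g (x, 0) = 0 := by simp [g]
    rw [ContinuousAt, h0]
    have hlim : Tendsto (fun p : ℝ × ℝ => |p.2|) (𝓝 (x, 0)) (𝓝 0) := by
      have : Continuous (fun p : ℝ × ℝ => |p.2|) := by fun_prop
      have h := this.tendsto (x, (0 : ℝ))
      simpa using h
    exact squeeze_zero_norm (fun p => by rw [Real.norm_eq_abs]; exact g_abs_le p) hlim
  · unfold g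
    have hz' : (x, z).2 ≠ 0 := hz
    apply ContinuousAt.div_const
    apply ContinuousAt.mul continuousAt_snd
    apply ContinuousAt.add
    · apply ContinuousAt.abs
      apply Real.continuous_sin.continuousAt.comp
      exact continuousAt_const.div continuousAt_snd hz'
    · apply ContinuousAt.abs
      apply Real.continuous_sin.continuousAt.comp
      exact continuousAt_const.mul (continuousAt_fst.div continuousAt_snd hz')

theorem g_zero_rat (x z : ℝ) (hz : 0 < z) (h : g (x, z) = 0) : ¬ Irrational x := by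
  unfold g at h
  have h1 : z * (|Real.sin (Real.pi / z)| + |Real.sin (Real.pi * (x / z))|) = 0 := by
    have : z * (|Real.sin (Real.pi / z)| + |Real.sin (Real.pi * (x / z))|) / 2 = 0 := h
    linarith
  have h2 : |Real.sin (Real.pi / z)| + |Real.sin (Real.pi * (x / z))| = 0 := by
    rcases mul_eq_zero.1 h1 with h | h
    · exact absurd h hz.ne'
    · exact h
  have h3 : Real.sin (Real.pi / z) = 0 := by
    have a := abs_nonneg (Real.sin (Real.pi / z))
    have b := abs_nonneg (Real.sin (Real.pi * (x / z)))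
    exact abs_eq_zero.1 (by linarith)
  have h4 : Real.sin (Real.pi * (x / z)) = 0 := by
    have a := abs_nonneg (Real.sin (Real.pi / z))
    have b := abs_nonneg (Real.sin (Real.pi * (x / z)))
    exact abs_eq_zero.1 (by linarith)
  obtain ⟨n, hn⟩ := Real.sin_eq_zero_iff.1 h3
  obtain ⟨m, hm⟩ := Real.sin_eq_zero_iff.1 h4
  have hpi := Real.pi_pos
  have hn' : (n : ℝ) * z = 1 := by
    have : (n : ℝ) * Real.pi * z = Real.pi := by rw [hn]; field_simp
    have h5 : Real.pi * ((n : ℝ) * z) = Real.pi * 1 := by linarith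
    exact mul_left_cancel₀ hpi.ne' h5
  have hm' : x = m * z := by
    have : (m : ℝ) * Real.pi = Real.pi * (x / z) := hm
    have h5 : Real.pi * (m : ℝ) = Real.pi * (x / z) := by linarith
    have h6 := mul_left_cancel₀ hpi.ne' h5
    rw [h6]; field_simp
  have hn0 : (n : ℝ) ≠ 0 := by
    intro h0; rw [h0] at hn'; simp at hn'
  have hx : x = ((m : ℚ) / (n : ℚ) : ℚ) := by
    push_cast
    rw [eq_div_iff hn0, hm']
    linear_combination (m : ℝ) * hn'
  rw [hx]
  exact fun h => h.ne_rat _ rfl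

theorem g_zero_of (k n : ℕ) (hn : 0 < n) : g ((k : ℝ) / n, 1 / (n : ℝ)) = 0 := by
  have hn' : (n : ℝ) ≠ 0 := by positivity
  unfold g
  have h1 : Real.sin (Real.pi / (1 / (n : ℝ))) = 0 := by
    rw [div_div_eq_mul_div, div_one, mul_comm]
    exact Real.sin_nat_mul_pi n
  have h2 : Real.sin (Real.pi * ((k : ℝ) / n / (1 / (n : ℝ)))) = 0 := by
    have : Real.pi * ((k : ℝ) / n / (1 / (n : ℝ))) = k * Real.pi := by field_simp
    rw [this]
    exact Real.sin_nat_mul_pi k
  simp only [h1, h2]
  simp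

/-- second coordinate of the map -/
noncomputable def h (v : Fin 3 → unitInterval) : ℝ := max (v 1 : ℝ) (g ((v 0 : ℝ), (v 2 : ℝ)))

theorem h_cont : Continuous h := by
  unfold h
  apply Continuous.max
  · fun_prop
  · apply g_cont.comp
    fun_prop

theorem h_mem (v : Fin 3 → unitInterval) : h v ∈ Icc (0 : ℝ) 1 := by
  refine ⟨le_trans (v 1).2.1 (le_max_left _ _), max_le (v 1).2.2 ?_⟩
  exact (g_le _ (v 2).2.1).trans (v 2).2.2

/-- the map of the cube onto the square -/
noncomputable def F : C(Fin 3 → unitInterval, Fin 2 → unitInterval) where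
  toFun v := ![v 0, ⟨h v, h_mem v⟩]
  continuous_toFun := by
    apply continuous_pi
    intro i
    fin_cases i
    · exact continuous_apply 0
    · exact Continuous.subtype_mk h_cont _

theorem F_eq_iff (v w : Fin 3 → unitInterval) : F v = F w ↔ v 0 = w 0 ∧ h v = h w := by
  constructor
  · intro hh
    have h0 := congrFun hh 0
    have h1 := congrFun hh 1
    exact ⟨h0, congrArg Subtype.val h1⟩
  · rintro ⟨h0, h1⟩
    funext i
    fin_cases i
    · exact h0
    · exact Subtype.ext h1

theorem h_point (x t z : unitInterval) (hz : (z : ℝ) ≤ t) : h ![x, t, z] = t := by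
  unfold h
  apply max_eq_left
  exact (g_le _ z.2.1).trans hz

theorem F_surj : Function.Surjective F := by
  intro y
  refine ⟨![y 0, y 1, 0], ?_⟩
  funext i
  fin_cases i
  · rfl
  · apply Subtype.ext
    exact h_point (y 0) (y 1) 0 (y 1).2.1

theorem single_fibre (v : Fin 3 → unitInterval) (hv : ∀ y, F y = F v → y = v) :
    Irrational (v 0 : ℝ) ∧ v 1 = 0 ∧ v 2 = 0 := by
  -- the value of `h` at `v` is zero
  have ht0 : h v = 0 := by
    by_contra hne
    have hpos : 0 < h v := lt_of_le_of_ne (h_mem v).1 (Ne.symm hne)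
    set t : unitInterval := ⟨h v, h_mem v⟩ with ht
    have e1 : ![v 0, t, 0] = v := hv _ ((F_eq_iff _ _).2 ⟨rfl, h_point (v 0) t 0 t.2.1⟩)
    have e2 : ![v 0, t, t] = v := hv _ ((F_eq_iff _ _).2 ⟨rfl, h_point (v 0) t t le_rfl⟩)
    have e3 : (0 : unitInterval) = t := by
      have := congrFun (e1.trans e2.symm) 2
      exact this
    have : (t : ℝ) = 0 := by rw [← e3]; rfl
    exact hne this
  have e1 : ![v 0, 0, 0] = v := by
    apply hv
    rw [F_eq_iff]
    exact ⟨rfl, by rw [ht0]; exact h_point (v 0) 0 0 le_rfl⟩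
  have h1 : v 1 = 0 := by rw [← e1]; rfl
  have h2 : v 2 = 0 := by rw [← e1]; rfl
  refine ⟨?_, h1, h2⟩
  intro hrat
  obtain ⟨q, hq⟩ := hrat
  have hq0 : 0 ≤ q := by
    have := (v 0).2.1
    rw [← hq] at this
    exact_mod_cast this
  -- write the rational as k / n
  have hn : 0 < q.den := q.pos
  obtain ⟨k, hk⟩ := Int.eq_ofNat_of_zero_le (Rat.num_nonneg.2 hq0)
  have hqk : (v 0 : ℝ) = (k : ℝ) / (q.den : ℝ) := by
    rw [← hq]
    have h5 : (q : ℝ) = (q.num : ℝ) / (q.den : ℝ) := by exact_mod_cast (Rat.num_div_den q).symm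
    rw [h5, hk]
    simp
  have hden : (1 : ℝ) ≤ q.den := by exact_mod_cast hn
  let z : unitInterval := ⟨1 / (q.den : ℝ), by positivity, by
    rw [div_le_one (by linarith)]; exact hden⟩
  have e4 : ![v 0, 0, z] = v := by
    apply hv
    rw [F_eq_iff]
    refine ⟨rfl, ?_⟩
    rw [ht0]
    show max ((0 : unitInterval) : ℝ) (g ((v 0 : ℝ), (z : ℝ))) = 0
    have : g ((v 0 : ℝ), (z : ℝ)) = 0 := by
      rw [hqk]; exact g_zero_of k q.den hn
    rw [this]; simp
  have e5 : z = 0 := by
    have := congrFun (e4.trans e1.symm) 2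
    exact this
  have e6 : (1 : ℝ) / (q.den : ℝ) = 0 := congrArg Subtype.val e5
  have : (0 : ℝ) < 1 / (q.den : ℝ) := by positivity
  linarith

theorem irr_fibre (x : unitInterval) (hx : Irrational (x : ℝ)) (w : Fin 3 → unitInterval)
    (hw : F w = ![x, 0]) : w = ![x, 0, 0] := by
  have h0 : w 0 = x := congrFun hw 0
  have h1 : h w = 0 := congrArg Subtype.val (congrFun hw 1)
  have h2 : (w 1 : ℝ) ≤ 0 := by rw [← h1]; exact le_max_left _ _
  have h3 : g ((w 0 : ℝ), (w 2 : ℝ)) ≤ 0 := by rw [← h1]; exact le_max_right _ _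
  have h4 : g ((w 0 : ℝ), (w 2 : ℝ)) = 0 := le_antisymm h3 (g_nonneg _ (w 2).2.1)
  have h5 : w 1 = 0 := Subtype.ext (le_antisymm h2 (w 1).2.1)
  have h6 : w 2 = 0 := by
    by_contra hne
    have hpos : 0 < (w 2 : ℝ) := lt_of_le_of_ne (w 2).2.1 (fun h => hne (Subtype.ext h.symm))
    rw [h0] at h4
    exact g_zero_rat _ _ hpos h4 hx
  funext i
  fin_cases i
  · exact h0
  · exact h5
  · exact h6

theorem singles_td : IsTotallyDisconnected {x : Fin 3 → unitInterval | ∀ y, F y = F x → y = x} := by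
  intro t ht hpc
  have himg : IsPreconnected ((fun v : Fin 3 → unitInterval => (v 0 : ℝ)) '' t) := by
    apply hpc.image
    apply Continuous.continuousOn
    fun_prop
  have hoc := himg.ordConnected
  have key : ∀ a ∈ t, ∀ b ∈ t, ¬ ((a 0 : ℝ) < b 0) := by
    intro a ha b hb hab
    obtain ⟨q, hq1, hq2⟩ := exists_rat_btwn hab
    obtain ⟨c, hc, hcq⟩ := hoc.out ⟨a, ha, rfl⟩ ⟨b, hb, rfl⟩ ⟨hq1.le, hq2.le⟩
    have hirr := (single_fibre c (ht hc)).1
    have hcq' : (c 0 : ℝ) = q := hcq
    rw [hcq'] at hirr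
    exact hirr ⟨q, rfl⟩
  intro a ha b hb
  obtain ⟨_, ha1, ha2⟩ := single_fibre a (ht ha)
  obtain ⟨_, hb1, hb2⟩ := single_fibre b (ht hb)
  have h0 : a 0 = b 0 := by
    apply Subtype.ext
    rcases lt_trichotomy (a 0 : ℝ) (b 0) with h | h | h
    · exact absurd h (key a ha b hb)
    · exact h
    · exact absurd h (key b hb a ha)
  funext i
  fin_cases i
  · exact h0
  · exact ha1.trans hb1.symm
  · exact ha2.trans hb2.symm

/-- The negation of the preceding statement: For every continuous surjection f from the cube onto the square, if the set of points whose fiber is just themselves is totally disconnected, then some closed totally disconnected subset of the cube is mapped by f onto the whole square. -/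
theorem result :
    ¬ (∀ f : C(Fin 3 → unitInterval, Fin 2 → unitInterval),
      Function.Surjective f →
      IsTotallyDisconnected {x : Fin 3 → unitInterval | ∀ y, f y = f x → y = x} →
      ∃ K : Set (Fin 3 → unitInterval),
        IsClosed K ∧ IsTotallyDisconnected K ∧ f '' K = Set.univ) := by
  intro hall
  obtain ⟨K, hK, hKtd, hKF⟩ := hall F F_surj singles_td
  -- the segment
  let c : ℝ → (Fin 3 → unitInterval) := fun x => ![projIcc 0 1 zero_le_one x, 0, 0]
  have hc : Continuous c := by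
    apply continuous_pi
    intro i
    fin_cases i
    · exact continuous_projIcc (h := zero_le_one)
    · exact continuous_const
    · exact continuous_const
  have hcK : IsClosed (c ⁻¹' K) := hK.preimage hc
  have hirr : Ioo (0 : ℝ) 1 ∩ {x | Irrational x} ⊆ c ⁻¹' K := by
    rintro x ⟨hx01, hx⟩
    have hval : ((projIcc 0 1 zero_le_one x : unitInterval) : ℝ) = x := by
      rw [projIcc_of_mem zero_le_one ⟨hx01.1.le, hx01.2.le⟩]
    have hmem : (![projIcc 0 1 zero_le_one x, 0] : Fin 2 → unitInterval) ∈ F '' K := by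
      rw [hKF]; exact mem_univ _
    obtain ⟨w, hw, hwF⟩ := hmem
    have := irr_fibre (projIcc 0 1 zero_le_one x) (by rw [hval]; exact hx) w hwF
    rw [this] at hw
    exact hw
  have hsub : Ioo (0 : ℝ) 1 ⊆ c ⁻¹' K := by
    have h1 : Ioo (0 : ℝ) 1 ⊆ closure (Ioo (0 : ℝ) 1 ∩ {x | Irrational x}) :=
      dense_irrational.open_subset_closure_inter isOpen_Ioo
    exact h1.trans (closure_minimal hirr hcK)
  have hpc : IsPreconnected (c '' Ioo (0 : ℝ) 1) := isPreconnected_Ioo.image c hc.continuousOn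
  have hsubs := hKtd (c '' Ioo (0 : ℝ) 1) (by rintro _ ⟨x, hx, rfl⟩; exact hsub hx) hpc
  have h13 : (1 / 3 : ℝ) ∈ Ioo (0 : ℝ) 1 := by constructor <;> norm_num
  have h23 : (2 / 3 : ℝ) ∈ Ioo (0 : ℝ) 1 := by constructor <;> norm_num
  have heq := hsubs ⟨1 / 3, h13, rfl⟩ ⟨2 / 3, h23, rfl⟩
  have h0 : projIcc 0 1 zero_le_one (1 / 3 : ℝ) = projIcc 0 1 zero_le_one (2 / 3 : ℝ) := congrFun heq 0
  rw [projIcc_of_mem zero_le_one ⟨h13.1.le, h13.2.le⟩,
    projIcc_of_mem zero_le_one ⟨h23.1.le, h23.2.le⟩] at h0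
  have := congrArg Subtype.val h0
  norm_num at this

end Pool.Agent.S08522
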