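import Pool.Statements.S08528

set_option autoImplicit false
open Pool Pool.MP_6f431b_gt

namespace Pool.Agent.S08528

open Topology Filter

/-- The irrational numbers. -/
abbrev P : Type := {x : ℝ // Irrational x}

/-- The irrational numbers as a discrete space. -/
def D : Type := {x : ℝ // Irrational x}

instance : TopologicalSpace D := ⊥
instance : DiscreteTopology D := ⟨rfl⟩

def toD (p : P) : D := p
def ofD (d : D) : P := d

/-- The Michael line. -/
def ML : Type := ℝ

instance : TopologicalSpace ML where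
  IsOpen U := ∀ x : ℝ, x ∈ (show Set ℝ from U) → ¬ Irrational x → (show Set ℝ from U) ∈ 𝓝 x
  isOpen_univ := fun x _ _ => Filter.univ_mem
  isOpen_inter := fun U V hU hV x hx hq => Filter.inter_mem (hU x hx.1 hq) (hV x hx.2 hq)
  isOpen_sUnion := fun S hS x hx hq => by
    obtain ⟨U, hU, hxU⟩ := hx
    exact Filter.mem_of_superset (hS U hU x hxU hq) (Set.subset_sUnion_of_mem hU)

theorem ML_isOpen_iff (U : Set ML) :
    IsOpen U ↔ ∀ x : ℝ, x ∈ (show Set ℝ from U) → ¬ Irrational x → (show Set ℝ from U) ∈ 𝓝 x :=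
  Iff.rfl

def toML (x : ℝ) : ML := x
def ofML (x : ML) : ℝ := x

theorem isOpen_of_real (U : Set ℝ) (hU : IsOpen U) : IsOpen (ofML ⁻¹' U) := by
  rw [ML_isOpen_iff]
  intro x hx _
  exact hU.mem_nhds hx

theorem isOpen_irr (y : ℝ) (hy : Irrational y) : IsOpen ({toML y} : Set ML) := by
  rw [ML_isOpen_iff]
  intro x hx hq
  have : x = y := hx
  subst this
  exact absurd hy hq

theorem nhds_rat (y : ℝ) (hy : ¬ Irrational y) (U : Set ML) (hU : U ∈ 𝓝 (toML y)) :
    (show Set ℝ from U) ∈ 𝓝 y := by
  obtain ⟨V, hVU, hV, hyV⟩ := mem_nhds_iff.1 hU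
  exact Filter.mem_of_superset ((ML_isOpen_iff V).1 hV y hyV hy) hVU

/-- The subset. -/
def A : Set (OnePoint D × P) := {z | z.1 = OnePoint.infty ∨ z.1 = OnePoint.some (toD z.2)}

open Classical in
noncomputable def g (z : (OnePoint D × P) × ML) : ℝ :=
  if z.1.1 = OnePoint.some (toD z.1.2) ∧ ofML z.2 = z.1.2.1 then 1 else 0

theorem isOpen_pt (d : D) : IsOpen ({OnePoint.some d} : Set (OnePoint D)) := by
  have := OnePoint.isOpenMap_coe (X := D) {d} (isOpen_discrete _)
  simpa using this

theorem A_closed : IsClosed A := by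
  rw [← isOpen_compl_iff, isOpen_iff_mem_nhds]
  rintro ⟨k, p⟩ hz
  have hz' : ¬ (k = OnePoint.infty ∨ k = OnePoint.some (toD p)) := hz
  rw [not_or] at hz'
  induction k using OnePoint.rec with
  | infty => exact absurd rfl hz'.1
  | coe d =>
    have hne : (ofD d) ≠ p := by
      intro h
      apply hz'.2
      have : (toD p) = d := h.symm
      rw [this]
    have h1 : ({OnePoint.some d} : Set (OnePoint D)) ∈ 𝓝 (OnePoint.some d) :=
      (isOpen_pt d).mem_nhds rfl
    have h2 : ({(ofD d)}ᶜ : Set P) ∈ 𝓝 p :=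
      isOpen_compl_singleton.mem_nhds (fun h => hne (Set.mem_singleton_iff.1 h).symm)
    have h3 := prod_mem_nhds h1 h2
    refine Filter.mem_of_superset h3 ?_
    rintro ⟨k', p'⟩ ⟨hk', hp'⟩ hmem
    have hk'' : k' = OnePoint.some d := hk'
    subst hk''
    rcases hmem with h | h
    · exact OnePoint.coe_ne_infty _ h
    · have : d = (toD p') := OnePoint.coe_injective h
      exact hp' this.symm

theorem g_cont : ContinuousOn g (A ×ˢ (Set.univ : Set ML)) := by
  rintro ⟨⟨k, p⟩, y⟩ ⟨hA, -⟩
  have hA' : k = OnePoint.infty ∨ k = OnePoint.some (toD p) := hA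
  by_cases hy : Irrational (ofML y)
  · -- isolated y
    have hy1 : ({y} : Set ML) ∈ 𝓝 y := (isOpen_irr (ofML y) hy).mem_nhds rfl
    by_cases hk : k = OnePoint.some (toD p) ∧ ofML y = p.1
    · have hU : (({k} : Set (OnePoint D)) ×ˢ (Set.univ : Set P)) ×ˢ ({y} : Set ML) ∈
          𝓝 (((k, p), y) : (OnePoint D × P) × ML) := by
        refine prod_mem_nhds (prod_mem_nhds ?_ Filter.univ_mem) hy1
        rw [hk.1]
        exact (isOpen_pt _).mem_nhds rfl
      have hev : ∀ᶠ z in 𝓝[A ×ˢ (Set.univ : Set ML)] (((k, p), y) : (OnePoint D × P) × ML),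
          g z = 1 := by
        filter_upwards [mem_nhdsWithin_of_mem_nhds hU, self_mem_nhdsWithin]
        rintro ⟨⟨k', p'⟩, y'⟩ ⟨⟨hk', -⟩, hy'⟩ ⟨hA2, -⟩
        have hk'' : k' = k := hk'
        have hy'' : y' = y := hy'
        subst hk'' hy''
        have hA2' : k' = OnePoint.infty ∨ k' = OnePoint.some (toD p') := hA2
        rcases hA2' with h | h
        · exfalso
          rw [hk.1] at h
          exact OnePoint.coe_ne_infty _ h
        · have hpp : (toD p') = (toD p) := by
            apply OnePoint.coe_injective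
            exact h.symm.trans hk.1
          have hpp' : p' = p := hpp
          unfold g
          rw [if_pos]
          exact ⟨h, by rw [hk.2, hpp']⟩
      have hg : g (((k, p), y) : (OnePoint D × P) × ML) = 1 := by
        unfold g
        rw [if_pos hk]
      exact (continuousWithinAt_const (b := (1:ℝ))).congr_of_eventuallyEq hev hg
    · have hg : g (((k, p), y) : (OnePoint D × P) × ML) = 0 := by
        unfold g
        rw [if_neg hk]
      let yD : D := ⟨ofML y, hy⟩
      let yP : P := ⟨ofML y, hy⟩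
      have hne : ((k, p) : OnePoint D × P) ≠ (OnePoint.some yD, yP) := by
        intro h
        apply hk
        have h1 : k = OnePoint.some yD := congrArg Prod.fst h
        have h2 : p = yP := congrArg Prod.snd h
        refine ⟨?_, ?_⟩
        · rw [h1, h2]
          rfl
        · rw [h2]
      have hU : ({(OnePoint.some yD, yP)}ᶜ : Set (OnePoint D × P)) ∈ 𝓝 (k, p) :=
        isOpen_compl_singleton.mem_nhds hne
      have hev : ∀ᶠ z in 𝓝[A ×ˢ (Set.univ : Set ML)] (((k, p), y) : (OnePoint D × P) × ML),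
          g z = 0 := by
        filter_upwards [mem_nhdsWithin_of_mem_nhds (prod_mem_nhds hU hy1)]
        rintro ⟨⟨k', p'⟩, y'⟩ ⟨h1, h2⟩
        have hy'' : y' = y := h2
        subst hy''
        unfold g
        rw [if_neg]
        rintro ⟨h3, h4⟩
        apply h1
        have hp' : p' = yP := Subtype.ext h4.symm
        show (k', p') = (OnePoint.some yD, yP)
        have h3' : k' = OnePoint.some (toD p') := h3
        rw [h3', hp']
        rfl
      exact (continuousWithinAt_const (b := (0:ℝ))).congr_of_eventuallyEq hev hg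
  · -- rational y
    have hne : (p : ℝ) ≠ ofML y := by
      intro h
      exact hy (h ▸ p.2)
    obtain ⟨U, V, hU, hV, hpU, hyV, hUV⟩ := t2_separation hne
    have hU' : (Set.univ : Set (OnePoint D)) ×ˢ ((Subtype.val : P → ℝ) ⁻¹' U) ∈ 𝓝 (k, p) :=
      prod_mem_nhds Filter.univ_mem ((hU.preimage continuous_subtype_val).mem_nhds hpU)
    have hV' : (ofML ⁻¹' V) ∈ 𝓝 y := (isOpen_of_real V hV).mem_nhds hyV
    have key : ∀ z ∈ ((Set.univ : Set (OnePoint D)) ×ˢ ((Subtype.val : P → ℝ) ⁻¹' U)) ×ˢ
        (ofML ⁻¹' V), g z = 0 := by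
      rintro ⟨⟨k', p'⟩, y'⟩ ⟨⟨-, h1⟩, h2⟩
      unfold g
      rw [if_neg]
      rintro ⟨-, h4⟩
      have h1' : (p' : ℝ) ∈ U := h1
      have h2' : ofML y' ∈ V := h2
      have h4' : ofML y' = (p' : ℝ) := h4
      rw [h4'] at h2'
      exact Set.disjoint_left.1 hUV h1' h2'
    have hev : ∀ᶠ z in 𝓝[A ×ˢ (Set.univ : Set ML)] (((k, p), y) : (OnePoint D × P) × ML),
          g z = 0 := by
      filter_upwards [mem_nhdsWithin_of_mem_nhds (prod_mem_nhds hU' hV')]
      exact key
    have hg : g (((k, p), y) : (OnePoint D × P) × ML) = 0 :=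
      key _ (mem_of_mem_nhds (prod_mem_nhds hU' hV'))
    exact (continuousWithinAt_const (b := (0:ℝ))).congr_of_eventuallyEq hev hg

/-- For each irrational p there is a radius on which the extension is large. -/
theorem no_ext (G : (OnePoint D × P) × ML → ℝ) (hG : Continuous G)
    (hE : Set.EqOn G g (A ×ˢ (Set.univ : Set ML))) : False := by
  have h1 : ∀ p : P, ∃ n : ℕ, ∀ p' : P, dist (p' : ℝ) (p : ℝ) < 1 / ((n : ℝ) + 1) →
      1 / 2 < G ((OnePoint.some (toD p), p'), toML p) := by
    intro p
    have hmem : (((OnePoint.some (toD p), p), toML p) : (OnePoint D × P) × ML) ∈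
        (A ×ˢ (Set.univ : Set ML)) := ⟨Or.inr rfl, trivial⟩
    have hval : G ((OnePoint.some (toD p), p), toML p) = 1 := by
      rw [hE hmem]
      unfold g
      rw [if_pos]
      exact ⟨rfl, rfl⟩
    have hcont : Continuous (fun p' : P => G ((OnePoint.some (toD p), p'), toML p)) :=
      hG.comp (by fun_prop)
    have hev : ∀ᶠ p' in 𝓝 p, 1 / 2 < G ((OnePoint.some (toD p), p'), toML p) := by
      apply hcont.continuousAt.eventually_const_lt
      show 1 / 2 < G ((OnePoint.some (toD p), p), toML p)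
      rw [hval]; norm_num
    obtain ⟨ε, hε, hball⟩ := Metric.eventually_nhds_iff.1 hev
    obtain ⟨n, hn⟩ := exists_nat_one_div_lt hε
    refine ⟨n, fun p' hp' => hball ?_⟩
    exact lt_trans hp' hn
  choose N hN using h1
  -- Baire
  let f : ℕ ⊕ ℚ → Set ℝ := fun i => match i with
    | Sum.inl n => closure {x : ℝ | ∃ h : Irrational x, N ⟨x, h⟩ ≤ n}
    | Sum.inr q => {(q : ℝ)}
  have hfc : ∀ i, IsClosed (f i) := by
    rintro (n | q)
    · exact isClosed_closure
    · exact isClosed_singleton
  have hfu : ⋃ i, f i = Set.univ := by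
    rw [Set.eq_univ_iff_forall]
    intro x
    rw [Set.mem_iUnion]
    by_cases hx : Irrational x
    · exact ⟨Sum.inl (N ⟨x, hx⟩), subset_closure ⟨hx, le_rfl⟩⟩
    · have : ∃ q : ℚ, (q : ℝ) = x := by
        have := hx
        unfold Irrational at this
        push Not at this
        simpa using this
      obtain ⟨q, hq⟩ := this
      exact ⟨Sum.inr q, hq.symm⟩
  obtain ⟨i, hi⟩ := nonempty_interior_of_iUnion_of_closed hfc hfu
  rcases i with n | q
  swap
  · have : interior ({(q : ℝ)} : Set ℝ) = ∅ := interior_singleton _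
    change (interior ({(q : ℝ)} : Set ℝ)).Nonempty at hi
    rw [this] at hi
    exact Set.not_nonempty_empty hi
  obtain ⟨x, hx⟩ := hi
  obtain ⟨ε, hε, hball⟩ := Metric.isOpen_iff.1 isOpen_interior x hx
  set δ : ℝ := min ε (1 / (2 * ((n : ℝ) + 1))) with hδ
  have hn1 : (0 : ℝ) < (n : ℝ) + 1 := by positivity
  have hδ0 : 0 < δ := lt_min hε (by positivity)
  -- rational in the ball
  obtain ⟨q, hq1, hq2⟩ := exists_rat_btwn (show x < x + δ by linarith)
  obtain ⟨r, hr, hr1, hr2⟩ := exists_irrational_btwn (show x < x + δ by linarith)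
  let p0 : P := ⟨r, hr⟩
  have hqn : ¬ Irrational ((q : ℚ) : ℝ) := by
    simp [Irrational]
  have hmem : (((OnePoint.infty, p0), toML q) : (OnePoint D × P) × ML) ∈
        (A ×ˢ (Set.univ : Set ML)) := ⟨Or.inl rfl, trivial⟩
  have hval : G ((OnePoint.infty, p0), toML q) = 0 := by
    rw [hE hmem]
    unfold g
    rw [if_neg]
    rintro ⟨h, -⟩
    exact OnePoint.infty_ne_coe _ h
  have hcont : Continuous (fun w : OnePoint D × ML => G ((w.1, p0), w.2)) :=
    hG.comp (by fun_prop)
  have hev : ∀ᶠ w in 𝓝 ((OnePoint.infty, toML q) : OnePoint D × ML),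
      G ((w.1, p0), w.2) < 1 / 2 := by
    apply hcont.continuousAt.eventually_lt_const
    show G ((OnePoint.infty, p0), toML q) < 1 / 2
    rw [hval]; norm_num
  rw [nhds_prod_eq] at hev
  obtain ⟨S, hS, T, hT, hST⟩ := Filter.mem_prod_iff.1 hev
  -- S contains all but finitely many
  have hSfin : ({d : D | OnePoint.some d ∉ S}).Finite := by
    obtain ⟨S', hS'S, hS'o, hinf⟩ := mem_nhds_iff.1 hS
    have := (OnePoint.isOpen_iff_of_mem hinf).1 hS'o
    obtain ⟨hcl, hcomp⟩ := this
    have hfin := hcomp.finite_of_discrete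
    refine hfin.subset ?_
    intro d hd
    simp only [Set.mem_compl_iff, Set.mem_preimage]
    intro h
    exact hd (hS'S h)
  have hT' : (show Set ℝ from T) ∈ 𝓝 (q : ℝ) := nhds_rat q hqn T hT
  have hST' : ∀ (k : OnePoint D) (y : ML), k ∈ S → y ∈ T → G ((k, p0), y) < 1 / 2 :=
    fun k y hk hy => hST (Set.mk_mem_prod hk hy)
  -- open nbhd of q inside ball
  have hballx : Metric.ball x δ ⊆ closure {x : ℝ | ∃ h : Irrational x, N ⟨x, h⟩ ≤ n} := by
    intro z hz
    apply interior_subset
    exact hball (Metric.ball_subset_ball (min_le_left _ _) hz)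
  have hqball : (q : ℝ) ∈ Metric.ball x δ := by
    rw [Metric.mem_ball, Real.dist_eq, abs_lt]
    constructor <;> linarith
  have hrball : r ∈ Metric.ball x δ := by
    rw [Metric.mem_ball, Real.dist_eq, abs_lt]
    constructor <;> linarith
  have hW : interior (show Set ℝ from T) ∩ Metric.ball x δ ∈ 𝓝 (q : ℝ) :=
    Filter.inter_mem (interior_mem_nhds.2 hT') (Metric.isOpen_ball.mem_nhds hqball)
  -- remove finitely many points
  let Fin : Set ℝ := Subtype.val '' ({d : D | OnePoint.some d ∉ S} : Set {x : ℝ // Irrational x})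
  have hFin : Fin.Finite := Set.Finite.image _ hSfin
  have hWo : IsOpen ((interior (show Set ℝ from T) ∩ Metric.ball x δ) \ Fin) :=
    (isOpen_interior.inter Metric.isOpen_ball).sdiff hFin.isClosed
  have hqFin : (q : ℝ) ∉ Fin := by
    rintro ⟨d, -, hd⟩
    exact hqn (hd ▸ d.2)
  have hqW : (q : ℝ) ∈ ((interior (show Set ℝ from T) ∩ Metric.ball x δ) \ Fin) :=
    ⟨mem_of_mem_nhds hW, hqFin⟩
  have hqcl : (q : ℝ) ∈ closure {x : ℝ | ∃ h : Irrational x, N ⟨x, h⟩ ≤ n} := hballx hqball
  obtain ⟨z, ⟨⟨hzT, hzb⟩, hzF⟩, hzirr, hzN⟩ := mem_closure_iff.1 hqcl _ hWo hqW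
  let pz : P := ⟨z, hzirr⟩
  have hzS : OnePoint.some (toD pz) ∈ S := by
    by_contra hcon
    exact hzF ⟨pz, hcon, rfl⟩
  have hlt : G ((OnePoint.some (toD pz), p0), toML z) < 1 / 2 :=
    hST' _ _ hzS (interior_subset hzT : z ∈ (show Set ℝ from T))
  have hgt : 1 / 2 < G ((OnePoint.some (toD pz), p0), toML z) := by
    apply hN pz p0
    have h3 : dist r z < 1 / ((n : ℝ) + 1) := by
      have h4 : dist r x < δ := hrball
      have h5 : dist z x < δ := hzb
      have h6 : dist r z ≤ dist r x + dist z x := dist_triangle_right r z x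
      have h7 : δ ≤ 1 / (2 * ((n : ℝ) + 1)) := min_le_right _ _
      have h8 : 1 / (2 * ((n : ℝ) + 1)) + 1 / (2 * ((n : ℝ) + 1)) = 1 / ((n : ℝ) + 1) := by
        field_simp; norm_num
      linarith
    refine lt_of_lt_of_le h3 ?_
    apply one_div_le_one_div_of_le (by positivity)
    have : ((N pz : ℕ) : ℝ) ≤ (n : ℝ) := by exact_mod_cast hzN
    linarith
  exact lt_asymm hlt hgt

/-- The negation of the preceding statement: For every Hausdorff perfect preimage of a metrizable space X (a paracompact p-space), closed A in X, and space Y, every continuous map from A×Y into a real Banach space extends continuously to X×Y. -/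
theorem result :
    ¬ (∀ (X : Type) [TopologicalSpace X] [T2Space X],
      (∃ (M : Type) (tM : TopologicalSpace M),
          TopologicalSpace.MetrizableSpace M ∧ ∃ f : X → M, IsProperMap f) →
      ∀ A : Set X, IsClosed A →
      ∀ (Y : Type) [TopologicalSpace Y]
        (E : Type) [NormedAddCommGroup E] [NormedSpace ℝ E] [CompleteSpace E]
        (g : X × Y → E),
        ContinuousOn g (A ×ˢ (Set.univ : Set Y)) →
        ∃ G : X × Y → E, Continuous G ∧ Set.EqOn G g (A ×ˢ (Set.univ : Set Y))) := by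
  intro H
  obtain ⟨G, hG, hE⟩ := H (OnePoint D × P)
    ⟨P, inferInstance, inferInstance, Prod.snd, isProperMap_snd_of_compactSpace⟩
    A A_closed ML ℝ g g_cont
  exact no_ext G hG hE

end Pool.Agent.S08528
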