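import Pool.Statements.S08535
import Pool.Agent.B595.NW.Final

set_option autoImplicit false
open Pool Pool.MP_7123e5_gt

namespace Pool.Agent.S08535

/-- For all compact connected metric spaces X, Y: if Y is tree-like (for each ε>0 it has a finite open cover by small sets with no triple overlaps and a tree as intersection graph), then no continuous map X→Y has every fiber of size exactly 2. -/
theorem result :
    ∀ (X Y : Type) [MetricSpace X] [CompactSpace X] [ConnectedSpace X]
      [MetricSpace Y] [CompactSpace Y] [ConnectedSpace Y],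
      (∀ ε : ℝ, 0 < ε → ∃ (n : ℕ) (V : Fin n → Set Y),
          (∀ i, IsOpen (V i)) ∧ (∀ i, (V i).Nonempty) ∧
          (∀ i, Metric.diam (V i) < ε) ∧
          (⋃ i, V i) = Set.univ ∧
          (∀ i j k, i ≠ j → j ≠ k → i ≠ k → V i ∩ V j ∩ V k = ∅) ∧
          (SimpleGraph.fromRel (fun i j : Fin n => (V i ∩ V j).Nonempty)).IsTree) →
      ¬ ∃ f : X → Y, Continuous f ∧ ∀ y : Y, (f ⁻¹' {y}).ncard = 2 := by
  intro X Y _ _ _ _ _ _ hT
  apply Pool.Agent.B595.NW.nadler_ward X Y
  intro ε hε
  obtain ⟨n, V, h1, _, h3, h4, _, h6⟩ := hT ε hε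
  exact ⟨n, V, h1, h3, h4, h6.2⟩

end Pool.Agent.S08535
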