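import Pool.Statements.S08550
import Pool.Agent.Helper520.MZ.Main

set_option autoImplicit false
open Pool Pool.MP_74a0f8_gt

namespace Pool.Agent.S08550

/-- The negation of the preceding statement: For every metric space X, subset M and ordinal α, if M has small transfinite inductive dimension at most α, then some G-delta set in X containing M also has small transfinite inductive dimension at most α. -/
theorem result :
    ¬ (∀ (X : Type) [MetricSpace X] (M : Set X) (α : Ordinal.{0}),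
      (∀ R : Set X → Ordinal.{0} → Prop,
        (∀ (T : Set X) (γ : Ordinal.{0}),
          (∀ x ∈ T, ∀ U : Set X, IsOpen U → x ∈ U →
            ∃ V : Set X, IsOpen V ∧ x ∈ V ∧ V ∩ T ⊆ U ∧
              ((T ∩ closure (V ∩ T)) \ V = ∅ ∨
                ∃ β < γ, R ((T ∩ closure (V ∩ T)) \ V) β)) → R T γ) →
        R M α) →
      ∃ M' : Set X, IsGδ M' ∧ M ⊆ M' ∧
        (∀ R : Set X → Ordinal.{0} → Prop,
          (∀ (T : Set X) (γ : Ordinal.{0}),
            (∀ x ∈ T, ∀ U : Set X, IsOpen U → x ∈ U →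
              ∃ V : Set X, IsOpen V ∧ x ∈ V ∧ V ∩ T ⊆ U ∧
                ((T ∩ closure (V ∩ T)) \ V = ∅ ∨
                  ∃ β < γ, R ((T ∩ closure (V ∩ T)) \ V) β)) → R T γ) →
          R M' α)) := by
  intro hall
  obtain ⟨X, _, M, h, hdist, hh, hind, hline⟩ := Pool.Agent.Helper520.MZ.exists_space ℕ
  obtain ⟨M', hG, hMM', htr⟩ := hall X M 0 (by
    intro R hR
    refine hR M 0 fun x _ U hU hxU => ?_
    obtain ⟨V, hV, hxV, hVU, hcl⟩ := hind x U hU hxU
    refine ⟨V, hV, hxV, Set.inter_subset_left.trans hVU, Or.inl ?_⟩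
    rw [Set.sdiff_eq_empty]
    rintro y ⟨hyM, hyc⟩
    exact hcl ⟨hyM, closure_mono Set.inter_subset_left hyc⟩)
  -- clopen neighbourhoods in `M'`
  have hclop := htr (fun T γ => γ = 0 → ∀ x ∈ T, ∀ U : Set X, IsOpen U → x ∈ U →
      ∃ V : Set X, IsOpen V ∧ x ∈ V ∧ V ∩ T ⊆ U ∧ (T ∩ closure (V ∩ T)) \ V = ∅) (by
    rintro T γ hT rfl x hx U hU hxU
    obtain ⟨V, hV, hxV, hVU, h1⟩ := hT x hx U hU hxU
    refine ⟨V, hV, hxV, hVU, ?_⟩
    rcases h1 with h1 | ⟨β, hβ, -⟩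
    · exact h1
    · exact absurd hβ (not_lt.2 zero_le)) rfl
  obtain ⟨f, hf, rfl⟩ := isGδ_iff_eq_iInter_nat.1 hG
  obtain ⟨γ, hγh, hγd, hγO⟩ := hline f hf fun q => hMM'.trans (Set.iInter_subset _ q)
  have hγM : ∀ s, γ s ∈ ⋂ n, f n := fun s => Set.mem_iInter.2 fun q => hγO s q
  have hγc : Continuous γ := by
    rw [Metric.continuous_iff]
    intro b ε hε
    refine ⟨ε, hε, fun a ha => (hγd a b).trans_lt ?_⟩
    rw [Subtype.dist_eq, Real.dist_eq] at ha
    exact ha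
  let s0 : Set.Ioo (0:ℝ) 1 := ⟨1/2, by norm_num, by norm_num⟩
  let s1 : Set.Ioo (0:ℝ) 1 := ⟨9/10, by norm_num, by norm_num⟩
  obtain ⟨V, hV, hs0V, hVU, hcl⟩ := hclop (γ s0) (hγM s0) (Metric.ball (γ s0) (1/4))
    Metric.isOpen_ball (Metric.mem_ball_self (by norm_num))
  have hpre : IsPreconnected (Set.univ : Set (Set.Ioo (0:ℝ) 1)) := by
    have := isPreconnected_iff_preconnectedSpace.1 (isPreconnected_Ioo (a := (0:ℝ)) (b := 1))
    exact isPreconnected_univ
  have hclopen : IsClopen (γ ⁻¹' V) := by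
    refine ⟨?_, hV.preimage hγc⟩
    refine isClosed_of_closure_subset fun s hs => ?_
    by_contra hsV
    have h1 : γ s ∈ closure (V ∩ ⋂ n, f n) := by
      have h2 : s ∈ closure (γ ⁻¹' (V ∩ ⋂ n, f n)) := by
        refine closure_mono ?_ hs
        intro r hr
        exact ⟨hr, hγM r⟩
      exact (hγc.closure_preimage_subset _) h2
    have h3 : γ s ∈ ((⋂ n, f n) ∩ closure (V ∩ ⋂ n, f n)) \ V := ⟨⟨hγM s, h1⟩, hsV⟩
    rw [hcl] at h3
    exact h3
  have huniv : γ ⁻¹' V = Set.univ := by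
    have : PreconnectedSpace (Set.Ioo (0:ℝ) 1) := ⟨hpre⟩
    exact hclopen.eq_univ ⟨s0, hs0V⟩
  have hs1 : γ s1 ∈ V := by
    have : s1 ∈ γ ⁻¹' V := by rw [huniv]; trivial
    exact this
  have h4 := hVU ⟨hs1, hγM s1⟩
  rw [Metric.mem_ball] at h4
  have h5 := (hdist (γ s1) (γ s0)).trans_lt h4
  rw [hγh, hγh] at h5
  have h6 := (le_abs_self _).trans_lt h5
  simp only [s0, s1] at h6
  norm_num at h6

end Pool.Agent.S08550
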