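import Pool.Statements.S08552

set_option autoImplicit false
open Pool Pool.MP_750e2a_gt

namespace Pool.Agent.S08552

open Set Filter Topology

/-- The underlying set of the counterexample: one point at infinity and one isolated point for
every function from the natural numbers to the natural numbers. -/
inductive Pt : Type
  | inf : Pt
  | pt : (ℕ → ℕ) → Pt

/-- The partial sums of a sequence. -/
def c (i : ℕ) (H : ℕ → ℕ) : ℕ := ∑ j ∈ Finset.range (i + 1), H j

lemma c_mono (H : ℕ → ℕ) {i j : ℕ} (h : i ≤ j) : c i H ≤ c j H := by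
  unfold c
  exact Finset.sum_le_sum_of_subset (Finset.range_mono (by omega))

lemma le_c (H : ℕ → ℕ) (i : ℕ) : H i ≤ c i H := by
  unfold c
  exact Finset.single_le_sum (f := H) (fun _ _ => Nat.zero_le _) (by simp)

/-- A set is open when it misses the point at infinity, or for some index every value bounds the
corresponding partial sum of only finitely many of the missing points. -/
instance : TopologicalSpace Pt where
  IsOpen U := Pt.inf ∈ U → ∃ i, ∀ v, {H | Pt.pt H ∉ U ∧ c i H ≤ v}.Finite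
  isOpen_univ := by
    intro _
    exact ⟨0, fun v => by simp⟩
  isOpen_inter := by
    intro U V hU hV h
    obtain ⟨i, hi⟩ := hU h.1
    obtain ⟨j, hj⟩ := hV h.2
    refine ⟨max i j, fun v => ((hi v).union (hj v)).subset ?_⟩
    rintro H ⟨h1, h2⟩
    by_cases hHU : Pt.pt H ∈ U
    · right
      exact ⟨fun hHV => h1 ⟨hHU, hHV⟩, (c_mono H (le_max_right i j)).trans h2⟩
    · left
      exact ⟨hHU, (c_mono H (le_max_left i j)).trans h2⟩
  isOpen_sUnion := by
    intro S hS h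
    obtain ⟨U, hU, hmem⟩ := h
    obtain ⟨i, hi⟩ := hS U hU hmem
    refine ⟨i, fun v => (hi v).subset ?_⟩
    rintro H ⟨h1, h2⟩
    exact ⟨fun hH => h1 ⟨U, hU, hH⟩, h2⟩

lemma isOpen_iff' (U : Set Pt) :
    IsOpen U ↔ (Pt.inf ∈ U → ∃ i, ∀ v, {H | Pt.pt H ∉ U ∧ c i H ≤ v}.Finite) := Iff.rfl

lemma isOpen_of_notMem {U : Set Pt} (h : Pt.inf ∉ U) : IsOpen U := fun h' => absurd h' h

lemma isClopen_singleton_pt (H : ℕ → ℕ) : IsClopen ({Pt.pt H} : Set Pt) := by
  refine ⟨⟨?_⟩, isOpen_of_notMem (by simp)⟩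
  intro _
  refine ⟨0, fun v => (Set.finite_singleton H).subset ?_⟩
  rintro H' ⟨h1, _⟩
  by_contra h2
  exact h1 (by
    intro h3
    apply h2
    simpa using h3)

instance : T0Space Pt := by
  refine ⟨fun x y h => ?_⟩
  cases x with
  | inf =>
    cases y with
    | inf => rfl
    | pt H =>
      have := (h.mem_open_iff (isClopen_singleton_pt H).isOpen).2 rfl
      exact this
  | pt H =>
    have := (h.mem_open_iff (isClopen_singleton_pt H).isOpen).1 rfl
    exact (this : y = Pt.pt H).symm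

open Classical in
lemma exists_fun_of_isClopen {W : Set Pt} (hW : IsClopen W) :
    ∃ f : Pt → unitInterval, Continuous f ∧ (∀ x ∈ W, f x = 0) ∧ (∀ x ∉ W, f x = 1) := by
  refine ⟨fun x => if x ∈ W then 0 else 1, ?_, fun x hx => by simp [hx],
    fun x hx => by simp [hx]⟩
  refine continuous_const.if ?_ continuous_const
  intro a ha
  rw [show {x | x ∈ W} = W from rfl, hW.frontier_eq] at ha
  exact absurd ha (by simp)

instance : CompletelyRegularSpace Pt := by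
  refine ⟨fun x K hK hx => ?_⟩
  obtain ⟨W, hW, hxW, hWK⟩ : ∃ W : Set Pt, IsClopen W ∧ x ∈ W ∧ ∀ y ∈ K, y ∉ W := by
    cases x with
    | inf =>
      refine ⟨Kᶜ, ⟨?_, hK.isOpen_compl⟩, hx, fun y hy => by simpa using hy⟩
      exact ⟨isOpen_of_notMem (by simpa using hx)⟩
    | pt H =>
      refine ⟨{Pt.pt H}, isClopen_singleton_pt H, rfl, fun y hy h => ?_⟩
      rw [show y = Pt.pt H from h] at hy
      exact hx hy
  obtain ⟨f, hf, h0, h1⟩ := exists_fun_of_isClopen hW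
  exact ⟨f, hf, h0 x hxW, fun y hy => h1 y (hWK y hy)⟩

instance : T35Space Pt := {}

lemma countable_compl {U : Set Pt} (hU : IsOpen U) (h : Pt.inf ∈ U) : (Uᶜ).Countable := by
  obtain ⟨i, hi⟩ := hU h
  have h1 : {H : ℕ → ℕ | Pt.pt H ∉ U}.Countable := by
    have : {H : ℕ → ℕ | Pt.pt H ∉ U} ⊆ ⋃ v, {H | Pt.pt H ∉ U ∧ c i H ≤ v} := by
      intro H hH
      exact mem_iUnion.2 ⟨c i H, hH, le_rfl⟩
    exact (Set.countable_iUnion fun v => (hi v).countable).mono this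
  refine (h1.image Pt.pt).mono ?_
  intro x hx
  cases x with
  | inf => exact absurd h hx
  | pt H => exact ⟨H, hx, rfl⟩

instance : LindelofSpace Pt := by
  refine ⟨isLindelof_of_countable_subcover ?_⟩
  intro ι U hU hcov
  obtain ⟨i0, hi0⟩ := mem_iUnion.1 (hcov (mem_univ Pt.inf))
  have hc := countable_compl (hU i0) hi0
  have hch : ∀ x : Pt, ∃ i, x ∈ U i := fun x => mem_iUnion.1 (hcov (mem_univ x))
  choose g hg using hch
  refine ⟨insert i0 (g '' (U i0)ᶜ), (hc.image g).insert i0, ?_⟩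
  intro x _
  by_cases hx : x ∈ U i0
  · exact mem_biUnion (Set.mem_insert _ _) hx
  · exact mem_biUnion (Set.mem_insert_of_mem _ ⟨x, hx, rfl⟩) (hg x)

/-- The bounding function attached to a code. -/
def h (σ : ℕ → ℕ) : Pt → ℕ
  | Pt.inf => σ 0
  | Pt.pt H => σ 0 + σ (c (σ 1) H + 2)

/-- The compact set attached to a code. -/
def F (σ : ℕ → ℕ) : Set (Pt → ℝ) := Set.pi univ fun x => Set.Icc (-(h σ x : ℝ)) (h σ x : ℝ)

lemma mem_F {σ : ℕ → ℕ} {y : Pt → ℝ} : y ∈ F σ ↔ ∀ x, |y x| ≤ h σ x := by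
  unfold F
  simp only [Set.mem_pi, mem_univ, true_imp_iff, Set.mem_Icc, abs_le]

lemma isCompact_F (σ : ℕ → ℕ) : IsCompact (F σ) := isCompact_univ_pi fun _ => isCompact_Icc

lemma exists_finset {σ : ℕ → ℕ} {U : Set (Pt → ℝ)} (hU : IsOpen U) (hF : F σ ⊆ U) :
    ∃ I : Finset Pt, ∀ z' ∈ F σ, ∀ z : Pt → ℝ, (∀ x ∈ I, z x = z' x) → z ∈ U := by
  classical
  refine (isCompact_F σ).induction_on
    (p := fun s => ∃ I : Finset Pt, ∀ z' ∈ s, ∀ z : Pt → ℝ, (∀ x ∈ I, z x = z' x) → z ∈ U)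
    ⟨∅, by simp⟩ ?_ ?_ ?_
  · rintro s t hst ⟨I, hI⟩
    exact ⟨I, fun z' hz' => hI z' (hst hz')⟩
  · rintro s t ⟨I, hI⟩ ⟨J, hJ⟩
    refine ⟨I ∪ J, fun z' hz' z hz => ?_⟩
    rcases hz' with hz' | hz'
    · exact hI z' hz' z fun x hx => hz x (Finset.mem_union_left _ hx)
    · exact hJ z' hz' z fun x hx => hz x (Finset.mem_union_right _ hx)
  · intro y hy
    obtain ⟨I, u, h1, h2⟩ := isOpen_pi_iff.1 hU y (hF hy)
    refine ⟨(I : Set Pt).pi u, ?_, I, ?_⟩
    · apply mem_nhdsWithin_of_mem_nhds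
      exact set_pi_mem_nhds I.finite_toSet fun x hx => (h1 x hx).1.mem_nhds (h1 x hx).2
    · intro z' hz' z hz
      apply h2
      intro x hx
      rw [hz x hx]
      exact hz' x hx

lemma eventually_apply (σ : ℕ → ℕ) (k : ℕ) : ∀ᶠ τ : ℕ → ℕ in 𝓝 σ, τ k = σ k := by
  have hc : Continuous (fun τ : ℕ → ℕ => τ k) := continuous_apply k
  exact hc.continuousAt.eventually ((isOpen_discrete {σ k}).mem_nhds rfl)

lemma eventually_h (σ : ℕ → ℕ) (x : Pt) : ∀ᶠ τ : ℕ → ℕ in 𝓝 σ, h τ x = h σ x := by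
  cases x with
  | inf =>
    filter_upwards [eventually_apply σ 0] with τ h0
    exact h0
  | pt H =>
    filter_upwards [eventually_apply σ 0, eventually_apply σ 1,
      eventually_apply σ (c (σ 1) H + 2)] with τ h0 h1 h2
    simp only [h, h0, h1, h2]

lemma usc (σ : ℕ → ℕ) (U : Set (Pt → ℝ)) (hU : IsOpen U) (hF : F σ ⊆ U) :
    ∀ᶠ τ in 𝓝 σ, F τ ⊆ U := by
  classical
  obtain ⟨I, hI⟩ := exists_finset hU hF
  have h1 : ∀ᶠ τ in 𝓝 σ, ∀ x ∈ I, h τ x = h σ x :=
    (Filter.eventually_all_finset I).2 fun x _ => eventually_h σ x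
  filter_upwards [h1] with τ hτ
  intro y hy
  refine hI (fun x => if x ∈ I then y x else 0) ?_ y ?_
  · rw [mem_F] at hy ⊢
    intro x
    by_cases hx : x ∈ I
    · simp only [hx, if_true]
      rw [← hτ x hx]
      exact hy x
    · simp [hx]
  · intro x hx
    simp [hx]

lemma continuous_mem (f : Pt → ℝ) (hf : Continuous f) : ∃ σ, f ∈ F σ := by
  classical
  have hO : IsOpen {x | |f x - f Pt.inf| < 1} :=
    isOpen_lt (by fun_prop) continuous_const
  obtain ⟨i, hi⟩ := hO (by simp)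
  let S : ℕ → Finset (ℕ → ℕ) := fun v => (hi v).toFinset
  let σ : ℕ → ℕ := fun k => match k with
    | 0 => ⌈|f Pt.inf|⌉₊ + 1
    | 1 => i
    | v + 2 => ∑ H ∈ S v, ⌈|f (Pt.pt H)|⌉₊
  refine ⟨σ, mem_F.2 fun x => ?_⟩
  have h0 : |f Pt.inf| ≤ (⌈|f Pt.inf|⌉₊ : ℝ) := Nat.le_ceil _
  cases x with
  | inf =>
    show |f Pt.inf| ≤ ((⌈|f Pt.inf|⌉₊ + 1 : ℕ) : ℝ)
    push_cast
    linarith
  | pt H =>
    show |f (Pt.pt H)| ≤ ((⌈|f Pt.inf|⌉₊ + 1 + ∑ H' ∈ S (c i H), ⌈|f (Pt.pt H')|⌉₊ : ℕ) : ℝ)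
    by_cases hH : |f (Pt.pt H) - f Pt.inf| < 1
    · have h2 : |f (Pt.pt H)| ≤ |f (Pt.pt H) - f Pt.inf| + |f Pt.inf| := by
        have := abs_add_le (f (Pt.pt H) - f Pt.inf) (f Pt.inf)
        simpa using this
      have h3 : (0 : ℝ) ≤ ((∑ H' ∈ S (c i H), ⌈|f (Pt.pt H')|⌉₊ : ℕ) : ℝ) := Nat.cast_nonneg _
      push_cast at h3 ⊢
      linarith
    · have hmem : H ∈ S (c i H) := by
        simp only [S, Set.Finite.mem_toFinset]
        exact ⟨hH, le_rfl⟩
      have h2 : ⌈|f (Pt.pt H)|⌉₊ ≤ ∑ H' ∈ S (c i H), ⌈|f (Pt.pt H')|⌉₊ :=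
        Finset.single_le_sum (f := fun H' => ⌈|f (Pt.pt H')|⌉₊) (fun _ _ => Nat.zero_le _) hmem
      have h3 : |f (Pt.pt H)| ≤ (⌈|f (Pt.pt H)|⌉₊ : ℝ) := Nat.le_ceil _
      have h4 : (⌈|f (Pt.pt H)|⌉₊ : ℝ) ≤ ((∑ H' ∈ S (c i H), ⌈|f (Pt.pt H')|⌉₊ : ℕ) : ℝ) := by
        exact_mod_cast h2
      have h5 : (0 : ℝ) ≤ (⌈|f Pt.inf|⌉₊ : ℝ) := Nat.cast_nonneg _
      push_cast at h4 ⊢
      linarith

lemma bounded_of_isCompact {C : Set Pt} (hC : IsCompact C) (i : ℕ) :
    ∃ m, ∀ H, Pt.pt H ∈ C → c i H ≤ m := by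
  classical
  by_contra hcon
  push Not at hcon
  choose G hGC hG using hcon
  let g : Pt → ℕ := fun x => match x with
    | Pt.inf => 0
    | Pt.pt H => if H ∈ Set.range G then c i H else 0
  have hg : Continuous g := by
    refine ⟨fun S _ => ?_⟩
    intro hinf
    refine ⟨i, fun v => ((Finset.range v).image G).finite_toSet.subset ?_⟩
    rintro H ⟨h1, h2⟩
    have h3 : H ∈ Set.range G := by
      by_contra h3
      apply h1
      show g (Pt.pt H) ∈ S
      have : g (Pt.pt H) = 0 := by simp only [g, h3, if_false]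
      rw [this]
      exact hinf
    obtain ⟨m, rfl⟩ := h3
    simp only [Finset.coe_image, Finset.coe_range]
    exact ⟨m, lt_of_lt_of_le (hG m) h2, rfl⟩
  obtain ⟨M, hM⟩ := (hC.image hg).bddAbove
  have h1 : g (Pt.pt (G M)) ≤ M := hM ⟨_, hGC M, rfl⟩
  have h2 : g (Pt.pt (G M)) = c i (G M) := by
    simp only [g, Set.mem_range_self, if_true]
  have h3 := hG M
  omega

lemma not_sigmaCompact : ¬ SigmaCompactSpace Pt := by
  intro hS
  have h1 : ∀ n i, ∃ m, ∀ H, Pt.pt H ∈ compactCovering Pt n → c i H ≤ m := fun n i =>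
    bounded_of_isCompact (isCompact_compactCovering Pt n) i
  choose m hm using h1
  let H : ℕ → ℕ := fun j => 1 + ∑ n ∈ Finset.range (j + 1), m n j
  have h2 : Pt.pt H ∈ ⋃ n, compactCovering Pt n := by
    rw [iUnion_compactCovering]
    exact mem_univ _
  obtain ⟨n, hn⟩ := mem_iUnion.1 h2
  have h3 := hm n n H hn
  have h4 := le_c H n
  have h5 : m n n ≤ ∑ k ∈ Finset.range (n + 1), m k n :=
    Finset.single_le_sum (f := fun k => m k n) (fun _ _ => Nat.zero_le _) (by simp)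
  have h6 : H n = 1 + ∑ k ∈ Finset.range (n + 1), m k n := rfl
  omega

/-- The negation of the preceding statement: Every Lindelöf Tychonoff space X is σ-compact provided some K-analytic set Y ⊆ ℝ^X contains all continuous real functions on X. Here K-analytic means Y is the union of a compact-valued upper semicontinuous map on ℕ^ℕ. -/
theorem result :
    ¬ (∀ (X : Type) [TopologicalSpace X] [T35Space X] [LindelofSpace X],
      (∃ (Y : Set (X → ℝ)) (F : (ℕ → ℕ) → Set (X → ℝ)),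
          {f : X → ℝ | Continuous f} ⊆ Y ∧
          (∀ σ, IsCompact (F σ)) ∧
          (⋃ σ, F σ) = Y ∧
          (∀ (σ : ℕ → ℕ) (U : Set (X → ℝ)), IsOpen U → F σ ⊆ U →
              ∀ᶠ τ in nhds σ, F τ ⊆ U)) →
      SigmaCompactSpace X) := by
  intro hall
  apply not_sigmaCompact
  refine hall Pt ⟨⋃ σ, F σ, F, ?_, isCompact_F, rfl, usc⟩
  intro f hf
  obtain ⟨σ, hσ⟩ := continuous_mem f hf
  exact mem_iUnion.2 ⟨σ, hσ⟩

end Pool.Agent.S08552
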