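import Pool.Statements.S08563
import Pool.Agent.Helper300.JonesT

set_option autoImplicit false
open Pool Pool.MP_78e9bd_gt

namespace Pool.Agent.S08563

/-- For every compact connected Hausdorff space S: if Jones's T is continuous on the nonempty closed sets with the Vietoris topology, then T(A ∪ B) = T(A) ∪ T(B) for all closed A, B. -/
theorem result :
    ∀ (S : Type) [TopologicalSpace S] [CompactSpace S] [T2Space S] [ConnectedSpace S],
      @ContinuousOn (Set S) (Set S)
        (TopologicalSpace.generateFrom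
          ({𝒰 : Set (Set S) | ∃ U : Set S, IsOpen U ∧ 𝒰 = {A : Set S | A ⊆ U}} ∪
           {𝒰 : Set (Set S) | ∃ U : Set S, IsOpen U ∧ 𝒰 = {A : Set S | (A ∩ U).Nonempty}}))
        (TopologicalSpace.generateFrom
          ({𝒰 : Set (Set S) | ∃ U : Set S, IsOpen U ∧ 𝒰 = {A : Set S | A ⊆ U}} ∪
           {𝒰 : Set (Set S) | ∃ U : Set S, IsOpen U ∧ 𝒰 = {A : Set S | (A ∩ U).Nonempty}}))
        (fun A : Set S => {p : S | ∀ W : Set S, IsCompact W → IsConnected W →
            W ∈ nhds p → (W ∩ A).Nonempty})
        {A : Set S | IsClosed A ∧ A.Nonempty} →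
      ∀ A B : Set S, IsClosed A → IsClosed B →
        {p : S | ∀ W : Set S, IsCompact W → IsConnected W → W ∈ nhds p → (W ∩ (A ∪ B)).Nonempty} =
          {p : S | ∀ W : Set S, IsCompact W → IsConnected W → W ∈ nhds p → (W ∩ A).Nonempty} ∪
          {p : S | ∀ W : Set S, IsCompact W → IsConnected W → W ∈ nhds p → (W ∩ B).Nonempty} := by
  intro S _ _ _ _ hcont A B hA hB
  have hT : (fun A : Set S => {p : S | ∀ W : Set S, IsCompact W → IsConnected W →
            W ∈ nhds p → (W ∩ A).Nonempty}) = Pool.Agent.Helper300.JonesT.T := by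
    funext C
    ext p
    constructor
    · intro h W h1 h2 h3
      exact h W h1.isCompact h2 h3
    · intro h W h1 h2 h3
      exact h W h1.isClosed h2 h3
  rw [hT, ← Pool.Agent.Helper300.JonesT.vietoris_eq] at hcont
  have h := Pool.Agent.Helper300.JonesT.LSC_of_continuousOn hcont
  have key := Pool.Agent.Helper300.JonesT.T_union h hA hB
  have h1 := congrFun hT (A ∪ B)
  have h2 := congrFun hT A
  have h3 := congrFun hT B
  rw [h1, h2, h3, key]

end Pool.Agent.S08563
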