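import Pool.Statements.S08570

set_option autoImplicit false
open Pool Pool.MP_79e81e_gt

namespace Pool.Agent.S08570

/-- In a graph of bounded degree the vertices reached by walks of length at most `m` lie in a
finite set whose size is bounded uniformly in the starting vertex. -/
theorem ball_bound {V : Type} (G : SimpleGraph V) (nb : V → Finset V) (D : ℕ)
    (hD : ∀ x, (nb x).card ≤ D) (hnb : ∀ x y, G.Adj x y → y ∈ nb x) (m : ℕ) :
    ∃ N : ℕ, ∀ x : V, ∃ s : Finset V, s.card ≤ N ∧
      ∀ y, ∀ p : G.Walk x y, p.length ≤ m → y ∈ s := by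
  classical
  induction m with
  | zero =>
    refine ⟨1, fun x => ⟨{x}, by simp, ?_⟩⟩
    intro y p hp
    have := SimpleGraph.Walk.eq_of_length_eq_zero (Nat.le_zero.mp hp)
    simp [this]
  | succ m ih =>
    obtain ⟨N, hN⟩ := ih
    choose s hs1 hs2 using hN
    refine ⟨1 + D * N, fun x => ⟨insert x ((nb x).biUnion s), ?_, ?_⟩⟩
    · calc (insert x ((nb x).biUnion s)).card
          ≤ ((nb x).biUnion s).card + 1 := Finset.card_insert_le _ _
        _ ≤ D * N + 1 := by
            gcongr
            calc ((nb x).biUnion s).card ≤ ∑ z ∈ nb x, (s z).card := Finset.card_biUnion_le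
              _ ≤ ∑ z ∈ nb x, N := Finset.sum_le_sum (fun z _ => hs1 z)
              _ = (nb x).card * N := by simp
              _ ≤ D * N := by gcongr; exact hD x
        _ = 1 + D * N := by ring
    · intro y p hp
      cases p with
      | nil => simp
      | cons h q =>
        simp only [SimpleGraph.Walk.length_cons] at hp
        apply Finset.mem_insert_of_mem
        rw [Finset.mem_biUnion]
        exact ⟨_, hnb _ _ h, hs2 _ _ q (by omega)⟩

section Cayley

variable {Γ : Type} [Group Γ] (S : Finset Γ)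

/-- The Cayley graph used in the statement. -/
def cay : SimpleGraph Γ := SimpleGraph.fromRel (fun a b : Γ => ∃ s ∈ S, b = a * s)

theorem cay_adj (a b : Γ) :
    (cay S).Adj a b ↔ a ≠ b ∧ ((∃ s ∈ S, b = a * s) ∨ (∃ s ∈ S, a = b * s)) := by
  simp [cay, SimpleGraph.fromRel_adj]

/-- Left multiplication is a graph homomorphism. -/
def lmul (h : Γ) : cay S →g cay S where
  toFun := fun a => h * a
  map_rel' := by
    intro a b hab
    rw [cay_adj] at hab ⊢
    refine ⟨fun e => hab.1 (mul_left_cancel e), ?_⟩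
    rcases hab.2 with ⟨s, hs, e⟩ | ⟨s, hs, e⟩
    · exact Or.inl ⟨s, hs, by rw [e, mul_assoc]⟩
    · exact Or.inr ⟨s, hs, by rw [e, mul_assoc]⟩

theorem cay_reachable (hS : Subgroup.closure (S : Set Γ) = ⊤) (a g : Γ) :
    (cay S).Reachable a (a * g) := by
  have hg : g ∈ Subgroup.closure (S : Set Γ) := by rw [hS]; trivial
  have key : ∀ g ∈ Subgroup.closure (S : Set Γ), ∀ a : Γ, (cay S).Reachable a (a * g) := by
    intro g hg
    induction hg using Subgroup.closure_induction with
    | mem x hx =>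
      intro a
      by_cases e : a = a * x
      · rw [← e]
      · exact SimpleGraph.Adj.reachable ((cay_adj S _ _).2 ⟨e, Or.inl ⟨x, hx, rfl⟩⟩)
    | one => intro a; rw [mul_one]
    | mul x y _ _ hx hy =>
      intro a
      rw [← mul_assoc]
      exact (hx a).trans (hy (a * x))
    | inv x _ hx =>
      intro a
      have := hx (a * x⁻¹)
      rw [inv_mul_cancel_right] at this
      exact this.symm
  exact key g hg a

theorem cay_connected (hS : Subgroup.closure (S : Set Γ) = ⊤) : (cay S).Connected := by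
  have : Nonempty Γ := ⟨1⟩
  refine SimpleGraph.Connected.mk ?_
  intro a b
  have := cay_reachable S hS a (a⁻¹ * b)
  rwa [mul_inv_cancel_left] at this

theorem dist_left_le (hS : Subgroup.closure (S : Set Γ) = ⊤) (h a b : Γ) :
    (cay S).dist (h * a) (h * b) ≤ (cay S).dist a b := by
  obtain ⟨p, hp⟩ := (cay_connected S hS).exists_walk_length_eq_dist a b
  rw [← hp, ← SimpleGraph.Walk.length_map (lmul S h) p]
  exact SimpleGraph.dist_le _

theorem dist_left (hS : Subgroup.closure (S : Set Γ) = ⊤) (h a b : Γ) :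
    (cay S).dist (h * a) (h * b) = (cay S).dist a b := by
  apply le_antisymm (dist_left_le S hS h a b)
  have := dist_left_le S hS h⁻¹ (h * a) (h * b)
  rwa [inv_mul_cancel_left, inv_mul_cancel_left] at this

theorem ball_finite (hS : Subgroup.closure (S : Set Γ) = ⊤) (K : ℕ) :
    {g : Γ | (cay S).dist 1 g ≤ K}.Finite := by
  classical
  obtain ⟨N, hN⟩ := ball_bound (cay S)
    (fun a => S.image (fun s => a * s) ∪ S.image (fun s => a * s⁻¹)) (S.card + S.card)
    (fun a => (Finset.card_union_le _ _).trans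
      (Nat.add_le_add Finset.card_image_le Finset.card_image_le)) (by
      intro x y hxy
      rw [cay_adj] at hxy
      rcases hxy.2 with ⟨s, hs, e⟩ | ⟨s, hs, e⟩
      · exact Finset.mem_union_left _ (Finset.mem_image.2 ⟨s, hs, e.symm⟩)
      · refine Finset.mem_union_right _ (Finset.mem_image.2 ⟨s, hs, ?_⟩)
        rw [e, mul_inv_cancel_right]) K
  obtain ⟨s, -, hs⟩ := hN 1
  refine s.finite_toSet.subset ?_
  intro g hg
  obtain ⟨p, hp⟩ := (cay_connected S hS).exists_walk_length_eq_dist 1 g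
  exact hs g p (by rw [hp]; exact hg)

end Cayley

/-- All finite permutations, as one countable type. -/
abbrev FP : Type := Σ n : ℕ, Equiv.Perm (Fin n)

/-- Extension of a finite permutation to the natural numbers. -/
def ext (p : FP) : Equiv.Perm ℕ := p.2.extendDomain (Fin.equivSubtype (n := p.1))

theorem ext_apply (n : ℕ) (σ : Equiv.Perm (Fin n)) (i : Fin n) :
    ext ⟨n, σ⟩ (i : ℕ) = (σ i : ℕ) := by
  have := Equiv.Perm.extendDomain_apply_image σ (Fin.equivSubtype (n := n)) i
  simpa [ext] using this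

/-- The universal graph: for every `k` a ray `(k,0),(k,1),…` with the extra edges of a finite
permutation, the rays being joined along their first vertices. -/
def uni (e : ℕ → FP) : SimpleGraph (ℕ × ℕ) :=
  SimpleGraph.fromRel (fun x y : ℕ × ℕ =>
    (x.1 = y.1 ∧ (y.2 = x.2 + 1 ∨ y.2 = ext (e x.1) x.2)) ∨ (x.2 = 0 ∧ y.2 = 0 ∧ y.1 = x.1 + 1))

/-- The possible neighbours. -/
def nbr (e : ℕ → FP) (x : ℕ × ℕ) : Finset (ℕ × ℕ) :=
  {(x.1, x.2 + 1), (x.1, x.2 - 1), (x.1, ext (e x.1) x.2), (x.1, (ext (e x.1)).symm x.2),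
    (x.1 + 1, 0), (x.1 - 1, 0)}

theorem nbr_card (e : ℕ → FP) (x : ℕ × ℕ) : (nbr e x).card ≤ 6 := Finset.card_le_six

theorem mem_nbr (e : ℕ → FP) (x y : ℕ × ℕ) (h : (uni e).Adj x y) : y ∈ nbr e x := by
  obtain ⟨x1, x2⟩ := x
  obtain ⟨y1, y2⟩ := y
  simp only [uni, SimpleGraph.fromRel_adj] at h
  simp only [nbr, Finset.mem_insert, Finset.mem_singleton, Prod.mk.injEq]
  rcases h.2 with (⟨h1, h2 | h2⟩ | ⟨h1, h2, h3⟩) | (⟨h1, h2 | h2⟩ | ⟨h1, h2, h3⟩)
  · exact Or.inl ⟨h1.symm, h2⟩
  · exact Or.inr (Or.inr (Or.inl ⟨h1.symm, h2⟩))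
  · exact Or.inr (Or.inr (Or.inr (Or.inr (Or.inl ⟨h3, h2⟩))))
  · exact Or.inr (Or.inl ⟨h1, by omega⟩)
  · refine Or.inr (Or.inr (Or.inr (Or.inl ⟨h1, ?_⟩)))
    subst h1
    rw [h2, Equiv.symm_apply_apply]
  · exact Or.inr (Or.inr (Or.inr (Or.inr (Or.inr ⟨by omega, h1⟩))))

theorem uni_adj_succ (e : ℕ → FP) (k i : ℕ) : (uni e).Adj (k, i) (k, i + 1) := by
  rw [uni, SimpleGraph.fromRel_adj]
  refine ⟨?_, Or.inl (Or.inl ⟨rfl, Or.inl rfl⟩)⟩
  intro h
  simp at h

theorem uni_adj_zero (e : ℕ → FP) (k : ℕ) : (uni e).Adj (k, 0) (k + 1, 0) := by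
  rw [uni, SimpleGraph.fromRel_adj]
  refine ⟨?_, Or.inl (Or.inr ⟨rfl, rfl, rfl⟩)⟩
  intro h
  simp at h

theorem uni_dist_perm (e : ℕ → FP) (k i : ℕ) :
    (uni e).dist (k, i) (k, ext (e k) i) ≤ 1 := by
  by_cases h : ext (e k) i = i
  · rw [h]; simp
  · have : (uni e).Adj (k, i) (k, ext (e k) i) := by
      rw [uni, SimpleGraph.fromRel_adj]
      refine ⟨?_, Or.inl (Or.inl ⟨rfl, Or.inr rfl⟩)⟩
      intro h'
      apply h
      simpa using h'.symm
    exact (SimpleGraph.dist_eq_one_iff_adj.2 this).le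

theorem uni_connected (e : ℕ → FP) : (uni e).Connected := by
  have h1 : ∀ k i, (uni e).Reachable (k, 0) (k, i) := by
    intro k i
    induction i with
    | zero => exact SimpleGraph.Reachable.refl _
    | succ i ih => exact ih.trans (uni_adj_succ e k i).reachable
  have h2 : ∀ k, (uni e).Reachable (0, 0) (k, 0) := by
    intro k
    induction k with
    | zero => exact SimpleGraph.Reachable.refl _
    | succ k ih => exact ih.trans (uni_adj_zero e k).reachable
  refine SimpleGraph.Connected.mk ?_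
  rintro ⟨a, b⟩ ⟨c, d⟩
  exact ((h2 a).trans (h1 a b)).symm.trans ((h2 c).trans (h1 c d))

theorem factorial_contra (c : ℕ) (h : ∀ n : ℕ, n.factorial ≤ c ^ n) : False := by
  have ht := FloorSemiring.tendsto_pow_div_factorial_atTop (c : ℝ)
  have := (ht.eventually (gt_mem_nhds (show (0 : ℝ) < 1 by norm_num))).exists
  obtain ⟨n, hn⟩ := this
  rw [div_lt_one (by exact_mod_cast Nat.factorial_pos n)] at hn
  have h' := h n
  have h'' : ((n.factorial : ℕ) : ℝ) ≤ (c : ℝ) ^ n := by exact_mod_cast h'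
  linarith

/-- The negation of the preceding statement: Every connected graph of bounded degree coarsely embeds, with its path metric, into the word metric of some group generated by a finite set. -/
theorem result :
    ¬ (∀ (V : Type) (G : SimpleGraph V), G.Connected →
      (∃ D : ℕ, ∀ v : V, (G.neighborSet v).encard ≤ (D : ℕ∞)) →
      ∃ (Γ : Type) (inst : Group Γ) (S : Finset Γ),
        Subgroup.closure (S : Set Γ) = ⊤ ∧
        ∃ f : V → Γ,
          (∀ R : ℕ, ∃ K : ℕ, ∀ x y : V, G.dist x y ≤ R →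
              (SimpleGraph.fromRel (fun a b : Γ => ∃ s ∈ S, b = a * s)).dist (f x) (f y) ≤ K) ∧
          (∀ K : ℕ, ∃ R : ℕ, ∀ x y : V,
              (SimpleGraph.fromRel (fun a b : Γ => ∃ s ∈ S, b = a * s)).dist (f x) (f y) ≤ K →
              G.dist x y ≤ R)) := by
  classical
  intro H
  obtain ⟨e, he⟩ := exists_surjective_nat FP
  obtain ⟨Γ, inst, S, hS, f, h1, h2⟩ := H (ℕ × ℕ) (uni e) (uni_connected e) ⟨6, fun v => by
    have hsub : (uni e).neighborSet v ⊆ (nbr e v : Set (ℕ × ℕ)) := fun y hy => mem_nbr e v y hy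
    calc ((uni e).neighborSet v).encard ≤ ((nbr e v : Set (ℕ × ℕ))).encard :=
          Set.encard_le_encard hsub
      _ = ((nbr e v).card : ℕ∞) := Set.encard_coe_eq_coe_finsetCard _
      _ ≤ (6 : ℕ) := by exact_mod_cast nbr_card e v⟩
  change ∀ R : ℕ, ∃ K : ℕ, ∀ x y : ℕ × ℕ, (uni e).dist x y ≤ R → (cay S).dist (f x) (f y) ≤ K at h1
  change ∀ K : ℕ, ∃ R : ℕ, ∀ x y : ℕ × ℕ, (cay S).dist (f x) (f y) ≤ K → (uni e).dist x y ≤ R at h2
  obtain ⟨K, hK⟩ := h1 1
  obtain ⟨R, hR⟩ := h2 K
  obtain ⟨M, hM⟩ := ball_bound (uni e) (nbr e) 6 (nbr_card e) (mem_nbr e) R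
  choose s hs1 hs2 using hM
  set B : Finset Γ := (ball_finite S hS K).toFinset with hB
  have memB : ∀ a b : Γ, a⁻¹ * b ∈ B ↔ (cay S).dist a b ≤ K := by
    intro a b
    rw [hB, Set.Finite.mem_toFinset, Set.mem_ofPred_eq]
    have := dist_left S hS a 1 (a⁻¹ * b)
    rw [mul_one, mul_inv_cancel_left] at this
    rw [this]
  refine factorial_contra (M * B.card) (fun n => ?_)
  have hk : ∀ σ : Equiv.Perm (Fin n), ∃ k, e k = ⟨n, σ⟩ := fun σ => he _
  choose k hk using hk
  -- the increment word of a permutation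
  set W : Equiv.Perm (Fin n) → (Fin n → Γ) :=
    fun σ i => (f (k σ, (i : ℕ)))⁻¹ * f (k σ, (i : ℕ) + 1) with hW
  have hWB : ∀ σ, W σ ∈ Fintype.piFinset (fun _ : Fin n => B) := by
    intro σ
    rw [Fintype.mem_piFinset]
    intro i
    rw [memB]
    exact hK _ _ (SimpleGraph.dist_eq_one_iff_adj.2 (uni_adj_succ e _ _)).le
  have hpos : ∀ σ σ' : Equiv.Perm (Fin n), W σ = W σ' → ∀ j : ℕ, j ≤ n →
      (f (k σ, 0))⁻¹ * f (k σ, j) = (f (k σ', 0))⁻¹ * f (k σ', j) := by
    intro σ σ' hσ j
    induction j with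
    | zero => intro _; simp
    | succ j ih =>
      intro hj
      have h3 := ih (by omega)
      have h4 := congrFun hσ ⟨j, by omega⟩
      simp only [hW] at h4
      calc (f (k σ, 0))⁻¹ * f (k σ, j + 1)
          = ((f (k σ, 0))⁻¹ * f (k σ, j)) * ((f (k σ, j))⁻¹ * f (k σ, j + 1)) := by group
        _ = ((f (k σ', 0))⁻¹ * f (k σ', j)) * ((f (k σ', j))⁻¹ * f (k σ', j + 1)) := by
            rw [h3, h4]
        _ = (f (k σ', 0))⁻¹ * f (k σ', j + 1) := by group
  have hrel : ∀ σ σ' : Equiv.Perm (Fin n), W σ = W σ' → ∀ i j : ℕ, i ≤ n → j ≤ n →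
      (f (k σ, i))⁻¹ * f (k σ, j) = (f (k σ', i))⁻¹ * f (k σ', j) := by
    intro σ σ' hσ i j hi hj
    calc (f (k σ, i))⁻¹ * f (k σ, j)
        = ((f (k σ, 0))⁻¹ * f (k σ, i))⁻¹ * ((f (k σ, 0))⁻¹ * f (k σ, j)) := by group
      _ = ((f (k σ', 0))⁻¹ * f (k σ', i))⁻¹ * ((f (k σ', 0))⁻¹ * f (k σ', j)) := by
          rw [hpos σ σ' hσ i hi, hpos σ σ' hσ j hj]
      _ = (f (k σ', i))⁻¹ * f (k σ', j) := by group
  have hfib : ∀ w ∈ Fintype.piFinset (fun _ : Fin n => B),
      (Finset.univ.filter (fun σ : Equiv.Perm (Fin n) => W σ = w)).card ≤ M ^ n := by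
    intro w _
    rcases (Finset.univ.filter (fun σ : Equiv.Perm (Fin n) => W σ = w)).eq_empty_or_nonempty
      with h0 | ⟨σ0, hσ0⟩
    · rw [h0]; simp
    · rw [Finset.mem_filter] at hσ0
      set T : Fin n → Finset (Fin n) := fun i =>
        Finset.univ.filter (fun j : Fin n => ((k σ0, (j : ℕ)) : ℕ × ℕ) ∈ s (k σ0, (i : ℕ))) with hT
      have hTc : ∀ i, (T i).card ≤ M := by
        intro i
        refine le_trans ?_ (hs1 (k σ0, (i : ℕ)))
        refine Finset.card_le_card_of_injOn (fun j : Fin n => ((k σ0, (j : ℕ)) : ℕ × ℕ)) ?_ ?_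
        · intro j hj
          simpa [hT] using hj
        · intro j _ j' _ hjj
          simp only [Prod.mk.injEq, true_and] at hjj
          exact Fin.ext hjj
      calc (Finset.univ.filter (fun σ : Equiv.Perm (Fin n) => W σ = w)).card
          ≤ (Fintype.piFinset T).card := by
            refine Finset.card_le_card_of_injOn (fun σ => (fun i => σ i)) ?_ ?_
            · intro σ hσ
              simp only [Finset.coe_filter, Finset.mem_univ, true_and, Set.mem_ofPred_eq] at hσ
              simp only [Finset.mem_coe, Fintype.mem_piFinset]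
              intro i
              simp only [hT, Finset.mem_filter, Finset.mem_univ, true_and]
              have heq : W σ0 = W σ := by rw [hσ0.2, hσ]
              have h5 := hrel σ0 σ heq i (σ i) i.2.le (σ i).2.le
              have h6 : (f (k σ, (i : ℕ)))⁻¹ * f (k σ, ((σ i : Fin n) : ℕ)) ∈ B := by
                rw [memB]
                apply hK
                have := uni_dist_perm e (k σ) i
                rw [hk σ, ext_apply] at this
                exact this
              rw [← h5, memB] at h6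
              have h7 := hR _ _ h6
              obtain ⟨p, hp⟩ := (uni_connected e).exists_walk_length_eq_dist
                (k σ0, (i : ℕ)) (k σ0, ((σ i : Fin n) : ℕ))
              exact hs2 _ _ p (by rw [hp]; exact h7)
            · intro σ _ σ' _ hσσ
              exact Equiv.ext (fun i => congrFun hσσ i)
        _ = ∏ i, (T i).card := Fintype.card_piFinset T
        _ ≤ ∏ _i : Fin n, M := Finset.prod_le_prod' (fun i _ => hTc i)
        _ = M ^ n := by simp
  have hmain := Finset.card_le_mul_card_image_of_maps_to (s := (Finset.univ : Finset (Equiv.Perm (Fin n))))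
    (t := Fintype.piFinset (fun _ : Fin n => B)) (f := W) (fun σ _ => hWB σ) (M ^ n) hfib
  rw [Finset.card_univ, Fintype.card_perm, Fintype.card_fin] at hmain
  calc n.factorial ≤ M ^ n * (Fintype.piFinset (fun _ : Fin n => B)).card := hmain
    _ = M ^ n * B.card ^ n := by rw [Fintype.card_piFinset]; simp
    _ = (M * B.card) ^ n := by rw [mul_pow]

end Pool.Agent.S08570
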