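import Pool.Statements.S08573
import Pool.Agent.Helper761.QDev3

set_option autoImplicit false
open Pool Pool.MP_7b8a73_gt

namespace Pool.Agent.S08573

/-- Every Hausdorff space locally homeomorphic to R^n that is hereditarily normal and quasi-developable (a sequence of open families whose stars at each point form a neighborhood base) is metrizable. -/
theorem result :
    ∀ (X : Type) [TopologicalSpace X] [T2Space X] (n : ℕ)
      [ChartedSpace (EuclideanSpace ℝ (Fin n)) X],
      CompletelyNormalSpace X →
      (∃ G : ℕ → Set (Set X),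
        (∀ k, ∀ s ∈ G k, IsOpen s) ∧
        ∀ x : X, ∀ U : Set X, IsOpen U → x ∈ U →
          ∃ k, x ∈ ⋃₀ {s ∈ G k | x ∈ s} ∧ ⋃₀ {s ∈ G k | x ∈ s} ⊆ U) →
      TopologicalSpace.MetrizableSpace X := by
  intro X _ _ n _ hN hG
  obtain ⟨G, hG⟩ := hG
  haveI : LocallyCompactSpace X := ChartedSpace.locallyCompactSpace (EuclideanSpace ℝ (Fin n)) X
  haveI : LocallyConnectedSpace X :=
    ChartedSpace.locallyConnectedSpace (EuclideanSpace ℝ (Fin n)) X
  refine Pool.Agent.Helper761.QD.main ?_ G hG
  intro x
  refine ⟨(chartAt (EuclideanSpace ℝ (Fin n)) x).source, (chartAt _ x).open_source,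
    mem_chart_source _ x, ?_⟩
  exact (chartAt (EuclideanSpace ℝ (Fin n)) x).secondCountableTopology_source

end Pool.Agent.S08573
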