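import Pool.Statements.S08575

set_option autoImplicit false
open Pool Pool.MP_7baebc_gt

namespace Pool.Agent.S08575

/-!
Positive answer: there is a set E that is at once a half and a continuum-th part of the
hyperbolic plane.

Idea. Let k be a subfield of the reals of continuum cardinality and c a real number
transcendental over k. Extend the trivial valuation of k to a valuation v of the complex
numbers with v c > 1. The translations by elements of k and the parabolic isometry tau
with 1 / tau z = 1 / z + c generate a free product in which the valuation provides every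
translation orbit with a preferred point (v z < 1) and every tau-orbit with a preferred
point (v (1/z) < v c), if such points exist; every point is preferred for at least one of
its two orbits. The abstract lemma `exists_half_transversal` then builds a set E meeting
each translation orbit exactly once and exchanged with its complement by tau.
-/

section Helpers

open Cardinal


/-- A self-referential predicate `z ∈ E ↔ chosen z ∧ q z ∉ E` can be solved when every
forward `q`-orbit leaves `chosen`. -/
theorem exists_alternating {X : Type*} (chosen : X → Prop) (q : X → X)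
    (h : ∀ z, ∃ n : ℕ, ¬ chosen (q^[n] z)) :
    ∃ E : Set X, ∀ z, z ∈ E ↔ (chosen z ∧ q z ∉ E) := by
  classical
  refine ⟨{z | Odd (Nat.find (h z))}, fun z => ?_⟩
  simp only [Set.mem_ofPred_eq]
  by_cases hz : chosen z
  · have h1 : Nat.find (h z) = Nat.find (h (q z)) + 1 := by
      rw [Nat.find_eq_iff]
      constructor
      · have := Nat.find_spec (h (q z))
        rwa [← Function.iterate_succ_apply] at this
      · intro n hn
        rcases n with _ | n
        · simpa using hz
        · have := Nat.find_min (h (q z)) (m := n) (by omega)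
          rw [Function.iterate_succ_apply]
          exact this
    rw [h1]
    simp only [hz, true_and]
    rw [Nat.odd_add_one]
  · have h1 : Nat.find (h z) = 0 := by
      rw [Nat.find_eq_zero]
      simpa using hz
    rw [h1]
    simp [hz]

section
variable {X T : Type*} [AddGroup T] [AddAction T X]

theorem exists_half_transversal (τ : Equiv.Perm X) (u : X → T) (m : X → ℤ)
    (hu : ∀ (t : T) (z : X), u (t +ᵥ z) = t + u z) (hm : ∀ z, m (τ z) = m z + 1)
    (h0 : ∀ z, u z = 0 ∨ m z = 0)
    (a : ℕ → T) (ha : Function.Injective a) (ha0 : ∀ j, a j ≠ 0) :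
    ∃ E : Set X, (∀ z, z ∈ E ↔ τ z ∉ E) ∧ ∀ z, ∃! t : T, t +ᵥ z ∈ E := by
  classical
  -- basic facts on powers
  have hmn : ∀ (n : ℤ) (z : X), m ((τ ^ n) z) = m z + n := by
    intro n
    induction n using Int.induction_on with
    | zero => simp
    | succ i ih =>
      intro z
      rw [zpow_add_one, Equiv.Perm.mul_apply, ih, hm]
      ring
    | pred i ih =>
      intro z
      rw [zpow_sub_one, Equiv.Perm.mul_apply, ih]
      have h2 : m z = m (τ⁻¹ z) + 1 := by
        rw [← hm]; simp
      rw [h2]; ring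
  set pT : X → X := fun z => (-u z) +ᵥ z with hpT
  set pZ : X → X := fun z => (τ ^ (-m z)) z with hpZ
  have hpTu : ∀ z, u (pT z) = 0 := by intro z; simp [hpT, hu]
  have hpZm : ∀ z, m (pZ z) = 0 := by intro z; simp only [hpZ]; rw [hmn]; ring
  have hpZτ : ∀ z, pZ (τ z) = pZ z := by
    intro z
    simp only [hpZ, hm]
    rw [← Equiv.Perm.mul_apply, ← zpow_add_one]
    congr 2
    ring
  have hpTt : ∀ (t : T) (z : X), pT (t +ᵥ z) = pT z := by
    intro t z
    simp only [hpT, hu, neg_add_rev, add_vadd, neg_vadd_vadd]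
  have hpT0 : ∀ z, u z = 0 → pT z = z := by intro z hz; simp [hpT, hz]
  have hpZ0 : ∀ z, m z = 0 → pZ z = z := by
    intro z hz
    simp only [hpZ, hz]
    rfl
  set astar : X → T := fun y =>
    if h : ∃ j, a j = u (pZ y) then a (Classical.choose h + 1) else a 0 with hastar
  have hastar1 : ∀ y j, a j = u (pZ y) → astar y = a (j + 1) := by
    intro y j hj
    have h : ∃ j, a j = u (pZ y) := ⟨j, hj⟩
    simp only [hastar, dif_pos h]
    have h1 : a (Classical.choose h) = a j := (Classical.choose_spec h).trans hj.symm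
    rw [ha h1]
  have hastar2 : ∀ y, ∃ j, astar y = a j := by
    intro y
    by_cases h : ∃ j, a j = u (pZ y)
    · exact ⟨_, by simp only [hastar, dif_pos h]; rfl⟩
    · exact ⟨0, by simp only [hastar, dif_neg h]⟩
  have hastar0 : ∀ y, astar y ≠ 0 := by
    intro y
    obtain ⟨j, hj⟩ := hastar2 y
    rw [hj]; exact ha0 j
  set chosen : X → Prop := fun z =>
    (u z ≠ 0 ∧ u z = astar (pT z)) ∨ (u z = 0 ∧ m z ≠ 0) with hchosen
  set q : X → X := fun z =>
    if u z ≠ 0 then pT z else if Odd (m z) then pZ z else τ (pZ z) with hq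
  -- termination
  have term1 : ∀ (z1 : X), (m z1 = 0) → (∃ n : ℕ, ¬ chosen (q^[n] z1)) →
      ∀ z, u z = 0 → pZ z = z1 → ∃ n : ℕ, ¬ chosen (q^[n] z) := by
    intro z1 hz1 hex z huz hpz
    obtain ⟨n, hn⟩ := hex
    by_cases hmz : m z = 0
    · exact ⟨0, by simp [hchosen, huz, hmz]⟩
    by_cases hodd : Odd (m z)
    · refine ⟨n + 1, ?_⟩
      rw [Function.iterate_succ_apply]
      have : q z = z1 := by simp [hq, huz, hodd, hpz]
      rw [this]; exact hn
    · refine ⟨n + 2, ?_⟩
      rw [Function.iterate_succ_apply, Function.iterate_succ_apply]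
      have h1 : q z = τ z1 := by simp [hq, huz, hodd, hpz]
      have h2 : m (τ z1) = 1 := by rw [hm, hz1]; ring
      have h3 : u (τ z1) = 0 := by
        rcases h0 (τ z1) with h | h
        · exact h
        · rw [h2] at h; exact absurd h (by norm_num)
      have h4 : q (τ z1) = z1 := by
        have h5 : Odd (m (τ z1)) := by rw [h2]; exact odd_one
        simp only [hq, h3, h5, ne_eq, not_true_eq_false, if_false, if_true]
        rw [hpZτ, hpZ0 _ hz1]
      rw [h1, h4]; exact hn
  have term2 : ∀ (j : ℕ) (z : X), u z = a j → chosen z → ∃ n : ℕ, ¬ chosen (q^[n] z) := by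
    intro j
    induction j using Nat.strong_induction_on with
    | _ j ih =>
      intro z hz hc
      have huz : u z ≠ 0 := by rw [hz]; exact ha0 j
      have hqz : q z = pT z := by simp [hq, huz]
      have hcz : u z = astar (pT z) := by
        rcases hc with h | h
        · exact h.2
        · exact absurd h.1 huz
      set y := pT z with hy
      have huy : u y = 0 := hpTu z
      suffices h : ∃ n : ℕ, ¬ chosen (q^[n] y) by
        obtain ⟨n, hn⟩ := h
        exact ⟨n + 1, by rw [Function.iterate_succ_apply, hqz]; exact hn⟩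
      apply term1 (pZ y) (hpZm y) _ y huy rfl
      by_cases hc1 : chosen (pZ y)
      · rcases hc1 with h | h
        · obtain ⟨i, hi⟩ := hastar2 (pT (pZ y))
          have hi2 : a i = u (pZ y) := by rw [h.2, hi]
          have h3 := hastar1 y i hi2
          have h4 : j = i + 1 := by
            apply ha
            rw [← hz, hcz, h3]
          exact ih i (by omega) (pZ y) hi2.symm (Or.inl h)
        · exact absurd (hpZm y) h.2
      · exact ⟨0, by simpa using hc1⟩
  have term3 : ∀ z, m z = 0 → ∃ n : ℕ, ¬ chosen (q^[n] z) := by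
    intro z hz
    by_cases hc : chosen z
    · have hc' := hc
      rcases hc' with h | h
      · obtain ⟨j, hj⟩ := hastar2 (pT z)
        exact term2 j z (by rw [h.2, hj]) hc
      · exact absurd hz h.2
    · exact ⟨0, by simpa using hc⟩
  have term : ∀ z, ∃ n : ℕ, ¬ chosen (q^[n] z) := by
    intro z
    rcases eq_or_ne (u z) 0 with h | h
    · exact term1 (pZ z) (hpZm z) (term3 _ (hpZm z)) z h rfl
    · rcases h0 z with h' | h'
      · exact absurd h' h
      · exact term3 z h'
  obtain ⟨E, hE⟩ := exists_alternating chosen q term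
  -- status along a τ-orbit
  have key1 : ∀ z1, m z1 = 0 → (τ z1 ∈ E ↔ z1 ∉ E) := by
    intro z1 hz1
    have h2 : m (τ z1) = 1 := by rw [hm, hz1]; ring
    have h3 : u (τ z1) = 0 := by
      rcases h0 (τ z1) with h | h
      · exact h
      · rw [h2] at h; exact absurd h (by norm_num)
    have h4 : q (τ z1) = z1 := by
      have h5 : Odd (m (τ z1)) := by rw [h2]; exact odd_one
      simp only [hq, h3, h5, ne_eq, not_true_eq_false, if_false, if_true]
      rw [hpZτ, hpZ0 _ hz1]
    have h6 : chosen (τ z1) := Or.inr ⟨h3, by rw [h2]; norm_num⟩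
    rw [hE (τ z1), h4]
    simp [h6]
  have key2 : ∀ z, (z ∈ E ↔ ((pZ z ∈ E ∧ Even (m z)) ∨ (pZ z ∉ E ∧ Odd (m z)))) := by
    intro z
    by_cases hmz : m z = 0
    · rw [hpZ0 z hmz, hmz]
      simp
    · have huz : u z = 0 := by
        rcases h0 z with h | h
        · exact h
        · exact absurd h hmz
      have hc : chosen z := Or.inr ⟨huz, hmz⟩
      by_cases hodd : Odd (m z)
      · have h1 : q z = pZ z := by simp [hq, huz, hodd]
        rw [hE z, h1]
        have : ¬ Even (m z) := by rwa [Int.not_even_iff_odd]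
        simp [hc, hodd, this]
      · have h1 : q z = τ (pZ z) := by simp [hq, huz, hodd]
        rw [hE z, h1, key1 _ (hpZm z)]
        have : Even (m z) := by rwa [Int.not_odd_iff_even] at hodd
        simp [hc, hodd, this]
  refine ⟨E, ?_, ?_⟩
  · intro z
    rw [key2 z, key2 (τ z), hpZτ, hm]
    have e1 : Even (m z + 1) ↔ ¬ Even (m z) := Int.even_add_one
    have e2 : Odd (m z) ↔ ¬ Even (m z) := by rw [Int.not_even_iff_odd]
    have e3 : Odd (m z + 1) ↔ Even (m z) := by
      rw [← Int.not_even_iff_odd, e1, not_not]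
    rw [e1, e2, e3]
    tauto
  · intro z
    set y := pT z with hy
    have huy : u y = 0 := hpTu z
    have key3 : ∀ t : T, u (t +ᵥ z) ≠ 0 →
        (t +ᵥ z ∈ E ↔ (t + u z = astar y ∧ y ∉ E)) := by
      intro t ht
      rw [hE (t +ᵥ z)]
      have h1 : q (t +ᵥ z) = y := by
        simp only [hq, ht, ne_eq, not_false_eq_true, if_true]
        rw [hpTt]
      rw [h1]
      have h2 : chosen (t +ᵥ z) ↔ t + u z = astar y := by
        simp only [hchosen]
        rw [hpTt]
        constructor
        · rintro (h | h)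
          · rw [← hu]; exact h.2
          · exact absurd h.1 ht
        · intro h
          exact Or.inl ⟨ht, by rw [hu]; exact h⟩
      rw [h2]
    have key4 : ∀ t : T, u (t +ᵥ z) = 0 → t +ᵥ z = y := by
      intro t ht
      rw [← hpT0 _ ht, hpTt]
    by_cases hyE : y ∈ E
    · refine ⟨-u z, ?_, ?_⟩
      · exact hyE
      · intro t ht
        by_contra hne
        have h5 : u (t +ᵥ z) ≠ 0 := by
          rw [hu]
          intro h
          exact hne (eq_neg_of_add_eq_zero_left h)
        exact ((key3 t h5).1 ht).2 hyE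
    · refine ⟨astar y - u z, ?_, ?_⟩
      · have h5 : u ((astar y - u z) +ᵥ z) ≠ 0 := by
          rw [hu, sub_add_cancel]; exact hastar0 y
        exact (key3 _ h5).2 ⟨by rw [sub_add_cancel], hyE⟩
      · intro t ht
        by_cases h5 : u (t +ᵥ z) = 0
        · have h6 := key4 t h5
          rw [h6] at ht
          exact absurd ht hyE
        · have := ((key3 t h5).1 ht).1
          exact eq_sub_of_add_eq this

end


/-- A real subfield of continuum cardinality over which some real number is transcendental. -/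
theorem exists_big_subfield :
    ∃ (k : Subfield ℝ) (c : ℝ), #k = Cardinal.continuum ∧ Transcendental k c := by
  obtain ⟨s, hs⟩ := exists_isTranscendenceBasis ℚ ℝ
  have halg : Algebra.IsAlgebraic (IntermediateField.adjoin ℚ (Set.range ((↑) : s → ℝ))) ℝ :=
    hs.isAlgebraic_field
  rw [Subtype.range_coe] at halg
  have h1 : #ℝ ≤ max #(IntermediateField.adjoin ℚ s) ℵ₀ :=
    Algebra.IsAlgebraic.cardinalMk_le_max _ _
  have h2 : #(IntermediateField.adjoin ℚ s) ≤ #ℚ ⊔ #s ⊔ ℵ₀ :=
    IntermediateField.cardinalMk_adjoin_le ℚ s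
  have h3 : #s = Cardinal.continuum := by
    apply le_antisymm
    · rw [← Cardinal.mk_real]; exact Cardinal.mk_set_le s
    · have h4 : #ℝ ≤ max #s ℵ₀ := by
        refine h1.trans ?_
        refine max_le (h2.trans ?_) (le_max_right _ _)
        exact sup_le (sup_le (Cardinal.mk_le_aleph0.trans (le_max_right _ _)) (le_max_left _ _))
          (le_max_right _ _)
      rw [Cardinal.mk_real] at h4
      rcases le_max_iff.1 h4 with h | h
      · exact h
      · exact absurd h (not_le.2 Cardinal.aleph0_lt_continuum)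
  have hne : s.Nonempty := by
    rw [← Set.nonempty_coe_sort, ← Cardinal.mk_ne_zero_iff, h3]
    exact Cardinal.continuum_ne_zero
  obtain ⟨c, hc⟩ := hne
  set k := IntermediateField.adjoin ℚ (s \ {c}) with hk
  refine ⟨k.toSubfield, c, ?_, ?_⟩
  · apply le_antisymm
    · rw [← Cardinal.mk_real]
      exact Cardinal.mk_set_le (k.toSubfield : Set ℝ)
    · have h5 : #(s \ {c} : Set ℝ) = Cardinal.continuum := by
        have h6 : #s ≤ #(s \ {c} : Set ℝ) + #({c} : Set ℝ) := by
          have : s ⊆ (s \ {c}) ∪ {c} := by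
            intro x hx
            by_cases hxc : x = c
            · right; exact hxc
            · left; exact ⟨hx, hxc⟩
          exact (Cardinal.mk_le_mk_of_subset this).trans (Cardinal.mk_union_le _ _)
        rw [h3, Cardinal.mk_singleton] at h6
        apply le_antisymm
        · rw [← Cardinal.mk_real]; exact Cardinal.mk_set_le _
        · by_contra hlt
          rw [not_le] at hlt
          have : #(s \ {c} : Set ℝ) + 1 < Cardinal.continuum :=
            Cardinal.add_lt_of_lt Cardinal.aleph0_le_continuum hlt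
              (Cardinal.one_lt_aleph0.trans Cardinal.aleph0_lt_continuum)
          exact absurd h6 (not_le.2 this)
      rw [← h5]
      apply Cardinal.mk_le_mk_of_subset
      exact IntermediateField.subset_adjoin ℚ _
  · have h7 : Transcendental (Algebra.adjoin ℚ (((↑) : s → ℝ) '' {x : s | (x : ℝ) ≠ c})) c := by
      have := hs.1.transcendental_adjoin (s := {x : s | (x : ℝ) ≠ c}) (i := ⟨c, hc⟩) (by simp)
      exact this
    have h8 : ((↑) : s → ℝ) '' {x : s | (x : ℝ) ≠ c} = s \ {c} := by
      ext x
      simp only [Set.mem_image, Set.mem_ofPred_eq, Subtype.exists, exists_and_left, exists_prop,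
        exists_eq_right_right, Set.mem_sdiff, Set.mem_singleton_iff]
      tauto
    rw [h8] at h7
    have h9 : Transcendental k c := IntermediateField.transcendental_adjoin_iff.2 h7
    exact h9

theorem exists_valuation :
    ∃ (k : Subfield ℝ) (c : ℝ) (V : ValuationSubring ℂ),
      #k = Cardinal.continuum ∧ (∀ t ∈ k, (t : ℂ) ∈ V) ∧ (c : ℂ) ∉ V := by
  obtain ⟨k, c, hk, hc⟩ := exists_big_subfield
  have hcR : (c : ℂ) ∉ (integralClosure k ℂ).toSubring := by
    intro h
    have h1 : IsIntegral k (c : ℂ) := h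
    have h2 : IsAlgebraic k (c : ℂ) := h1.isAlgebraic
    have h3 : IsAlgebraic k c := by
      rw [show (c : ℂ) = algebraMap ℝ ℂ c from rfl] at h2
      exact (isAlgebraic_algebraMap_iff (algebraMap ℝ ℂ).injective).1 h2
    exact hc h3
  obtain ⟨V, hV1, hV2⟩ := Subring.exists_le_valuationSubring_of_isIntegrallyClosedIn hcR
  refine ⟨k, c, V, hk, ?_, hV2⟩
  intro t ht
  apply hV1
  have : IsIntegral k (algebraMap k ℂ ⟨t, ht⟩) := isIntegral_algebraMap
  exact this

/-- A free action admits an equivariant coordinate which vanishes at a prescribed set of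
points meeting each orbit at most once. -/
theorem exists_coordinate {X T : Type*} [AddGroup T] [AddAction T X]
    (hfree : ∀ (t : T) (z : X), t +ᵥ z = z → t = 0)
    (P : X → Prop) (hP : ∀ (t : T) (z : X), P z → P (t +ᵥ z) → t = 0) :
    ∃ u : X → T, (∀ (t : T) (z : X), u (t +ᵥ z) = t + u z) ∧ ∀ z, P z → u z = 0 := by
  classical
  let Q := Quotient (AddAction.orbitRel T X)
  let mkQ : X → Q := fun z => Quotient.mk (AddAction.orbitRel T X) z
  have hmk : ∀ (t : T) (z : X), mkQ (t +ᵥ z) = mkQ z := by
    intro t z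
    apply Quotient.sound
    exact ⟨t, rfl⟩
  let rep : Q → X := fun w => if h : ∃ x, mkQ x = w ∧ P x then Classical.choose h else w.out
  have hrep : ∀ w, mkQ (rep w) = w := by
    intro w
    by_cases h : ∃ x, mkQ x = w ∧ P x
    · simp only [rep, dif_pos h]
      exact (Classical.choose_spec h).1
    · simp only [rep, dif_neg h]
      exact Quotient.out_eq w
  have hex : ∀ z : X, ∃ t : T, z = t +ᵥ rep (mkQ z) := by
    intro z
    have h := hrep (mkQ z)
    have h2 : (AddAction.orbitRel T X).r (rep (mkQ z)) z := Quotient.exact h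
    have h3 : rep (mkQ z) ∈ AddAction.orbit T z := h2
    obtain ⟨t, ht⟩ := h3
    refine ⟨-t, ?_⟩
    have h4 : t +ᵥ z = rep (mkQ z) := ht
    rw [← h4, neg_vadd_vadd]
  choose u hu using hex
  refine ⟨u, ?_, ?_⟩
  · intro t z
    have h1 := hu (t +ᵥ z)
    rw [hmk] at h1
    have h2 := hu z
    have h3 : (-(t + u z) + u (t +ᵥ z)) +ᵥ rep (mkQ z) = rep (mkQ z) := by
      rw [add_vadd, ← h1, neg_add_rev, add_vadd, neg_vadd_vadd]
      calc -u z +ᵥ z = -u z +ᵥ (u z +ᵥ rep (mkQ z)) := congrArg (fun w => -u z +ᵥ w) h2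
        _ = rep (mkQ z) := neg_vadd_vadd _ _
    have h4 := hfree _ _ h3
    exact (neg_add_eq_zero.1 h4).symm
  · intro z hz
    have h : ∃ x, mkQ x = mkQ z ∧ P x := ⟨z, rfl, hz⟩
    have h1 : P (rep (mkQ z)) := by
      simp only [rep, dif_pos h]
      exact (Classical.choose_spec h).2
    have h2 := hu z
    apply hP (u z) (rep (mkQ z)) h1
    rw [← h2]; exact hz

/-- The upper half-plane has a subset which is a transversal of the translations by a
continuum-sized additive group of reals and is interchanged with its complement by a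
parabolic isometry. -/
theorem exists_half_transversal_upperHalfPlane :
    ∃ (k : Subfield ℝ) (c : ℝ) (τ : UpperHalfPlane ≃ᵢ UpperHalfPlane) (E : Set UpperHalfPlane),
      #k = Cardinal.continuum ∧
      (∀ z, z ∈ E ↔ τ z ∉ E) ∧
      (∀ z : UpperHalfPlane, ∃! t : k, ((t : ℝ) +ᵥ z) ∈ E) := by
  obtain ⟨k, c, V, hk, hkV, hcV⟩ := exists_valuation
  set v := V.valuation with hv
  have hvk : ∀ t : k, t ≠ 0 → v ((t : ℝ) : ℂ) = 1 := by
    intro t ht
    have h1 : v ((t : ℝ) : ℂ) ≤ 1 := (V.valuation_le_one_iff _).2 (hkV t t.2)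
    have h2 : v (((t⁻¹ : k) : ℝ) : ℂ) ≤ 1 := (V.valuation_le_one_iff _).2 (hkV _ (t⁻¹).2)
    have ht' : ((t : ℝ) : ℂ) ≠ 0 := by
      simpa using ht
    have h3 : v ((t : ℝ) : ℂ) * v (((t⁻¹ : k) : ℝ) : ℂ) = 1 := by
      rw [← map_mul]
      have : ((t : ℝ) : ℂ) * (((t⁻¹ : k) : ℝ) : ℂ) = 1 := by
        push_cast
        exact mul_inv_cancel₀ ht'
      rw [this, map_one]
    apply le_antisymm h1
    by_contra hlt
    rw [not_le] at hlt
    have : v ((t : ℝ) : ℂ) * v (((t⁻¹ : k) : ℝ) : ℂ) < 1 :=
      mul_lt_one_of_lt_of_le hlt h2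
    exact absurd h3 this.ne
  have hvc : 1 < v (c : ℂ) := by
    rw [← not_le]
    intro h
    exact hcV ((V.valuation_le_one_iff _).1 h)
  have hvint : ∀ n : ℤ, n ≠ 0 → v ((n : ℝ) : ℂ) = 1 := by
    intro n hn
    have := hvk (n : k) (by exact_mod_cast hn)
    simpa using this
  have hc0 : c ≠ 0 := by
    rintro rfl
    simp at hvc
  -- the translation action
  let actT : AddAction k UpperHalfPlane :=
    AddAction.compHom UpperHalfPlane (k.subtype.toAddMonoidHom : k →+ ℝ)
  have hactT : ∀ (t : k) (z : UpperHalfPlane), t +ᵥ z = (t : ℝ) +ᵥ z := fun t z => rfl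
  have hcoeT : ∀ (t : k) (z : UpperHalfPlane), ((t +ᵥ z : UpperHalfPlane) : ℂ) = (t : ℝ) + z := by
    intro t z
    rw [hactT, UpperHalfPlane.coe_vadd]
  -- the parabolic element
  let g : Matrix.SpecialLinearGroup (Fin 2) ℝ := ⟨!![1, 0; c, 1], by simp⟩
  let τ : Equiv.Perm UpperHalfPlane := MulAction.toPerm g
  have hτ : ∀ z : UpperHalfPlane, ((τ z : UpperHalfPlane) : ℂ)⁻¹ = (z : ℂ)⁻¹ + c := by
    intro z
    have h1 : ((τ z : UpperHalfPlane) : ℂ) = (z : ℂ) / (c * z + 1) := by
      change ((g • z : UpperHalfPlane) : ℂ) = _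
      rw [UpperHalfPlane.coe_specialLinearGroup_apply]
      simp [g]
    have hz : (z : ℂ) ≠ 0 := UpperHalfPlane.ne_zero z
    rw [h1, inv_div]
    field_simp
    ring
  have hτn : ∀ (n : ℤ) (z : UpperHalfPlane),
      (((τ ^ n) z : UpperHalfPlane) : ℂ)⁻¹ = (z : ℂ)⁻¹ + n * c := by
    intro n
    induction n using Int.induction_on with
    | zero => simp
    | succ i ih =>
      intro z
      rw [zpow_add_one, Equiv.Perm.mul_apply, ih, hτ]
      push_cast; ring
    | pred i ih =>
      intro z
      rw [zpow_sub_one, Equiv.Perm.mul_apply, ih]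
      have h2 : (z : ℂ)⁻¹ = ((τ⁻¹ z : UpperHalfPlane) : ℂ)⁻¹ + c := by
        rw [← hτ]; simp
      rw [h2]; push_cast; ring
  -- coordinate along translation orbits
  obtain ⟨u, hu, hu0⟩ := exists_coordinate (X := UpperHalfPlane) (T := k)
    (by
      intro t z h
      have h1 := hcoeT t z
      rw [h] at h1
      have h2 : ((t : ℝ) : ℂ) = 0 := by linear_combination -h1
      have h3 : (t : ℝ) = 0 := by exact_mod_cast h2
      exact_mod_cast h3)
    (fun z => v (z : ℂ) < 1)
    (by
      intro t z h1 h2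
      by_contra ht
      have h3 := hvk t ht
      have h4 : ((t : ℝ) : ℂ) = ((t +ᵥ z : UpperHalfPlane) : ℂ) - (z : ℂ) := by
        rw [hcoeT]; ring
      have h5 : v ((t : ℝ) : ℂ) < 1 := by
        rw [h4]
        exact lt_of_le_of_lt (v.map_sub _ _) (max_lt h2 h1)
      exact absurd h3 h5.ne)
  -- coordinate along parabolic orbits
  let actZ : AddAction ℤ UpperHalfPlane :=
    { vadd := fun n z => (τ ^ n) z
      zero_vadd := fun z => by
        change (τ ^ (0 : ℤ)) z = z
        simp
      add_vadd := fun m n z => by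
        change (τ ^ (m + n)) z = (τ ^ m) ((τ ^ n) z)
        rw [zpow_add, Equiv.Perm.mul_apply] }
  have hactZ : ∀ (n : ℤ) (z : UpperHalfPlane), n +ᵥ z = (τ ^ n) z := fun n z => rfl
  obtain ⟨m, hm, hm0⟩ := exists_coordinate (X := UpperHalfPlane) (T := ℤ)
    (by
      intro n z h
      have h1 := hτn n z
      rw [← hactZ, h] at h1
      have h2 : (n : ℂ) * (c : ℂ) = 0 := by linear_combination -h1
      have h3 : (c : ℂ) ≠ 0 := by exact_mod_cast hc0
      have h4 : (n : ℂ) = 0 := by
        rcases mul_eq_zero.1 h2 with h | h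
        · exact h
        · exact absurd h h3
      exact_mod_cast h4)
    (fun z => v ((z : ℂ)⁻¹) < v (c : ℂ))
    (by
      intro n z h1 h2
      by_contra hn
      have h3 := hvint n hn
      have h4 : ((n : ℝ) : ℂ) * (c : ℂ) = ((n +ᵥ z : UpperHalfPlane) : ℂ)⁻¹ - (z : ℂ)⁻¹ := by
        rw [hactZ, hτn]; push_cast; ring
      have h5 : v (((n : ℝ) : ℂ) * (c : ℂ)) < v (c : ℂ) := by
        rw [h4]
        exact lt_of_le_of_lt (v.map_sub _ _) (max_lt h2 h1)
      rw [map_mul, h3, one_mul] at h5
      exact lt_irrefl _ h5)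
  have h01 : ∀ z, u z = 0 ∨ m z = 0 := by
    intro z
    by_cases hz : v (z : ℂ) < 1
    · left; exact hu0 z hz
    · right
      apply hm0
      rw [not_lt] at hz
      have hz0 : (z : ℂ) ≠ 0 := UpperHalfPlane.ne_zero z
      have h1 : v ((z : ℂ)⁻¹) ≤ 1 := by
        rw [map_inv₀]
        exact inv_le_one_of_one_le₀ hz
      exact lt_of_le_of_lt h1 hvc
  have hmτ : ∀ z, m (τ z) = m z + 1 := by
    intro z
    have := hm 1 z
    rw [hactZ, zpow_one] at this
    rw [this]; ring
  obtain ⟨E, hE1, hE2⟩ := exists_half_transversal τ u m hu hmτ h01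
    (fun j : ℕ => ((j + 1 : ℕ) : k))
    (by
      intro i j hij
      have : ((i + 1 : ℕ) : k) = ((j + 1 : ℕ) : k) := hij
      have h2 : i + 1 = j + 1 := by exact_mod_cast this
      omega)
    (by
      intro j h
      have : ((j + 1 : ℕ) : k) = 0 := h
      have h2 : j + 1 = 0 := by exact_mod_cast this
      omega)
  exact ⟨k, c, IsometryEquiv.constSMul g, E, hk, hE1, hE2⟩

theorem hyp_result :
    ∃ E : Set UpperHalfPlane,
      (∃ g h : UpperHalfPlane ≃ᵢ UpperHalfPlane,
          Disjoint (⇑g '' E) (⇑h '' E) ∧ ⇑g '' E ∪ ⇑h '' E = Set.univ) ∧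
      (∃ f : ℝ → (UpperHalfPlane ≃ᵢ UpperHalfPlane),
          Pairwise (fun r s => Disjoint (⇑(f r) '' E) (⇑(f s) '' E)) ∧
          (⋃ r : ℝ, ⇑(f r) '' E) = Set.univ) := by
  obtain ⟨k, c, τ, E, hk, hE1, hE2⟩ := exists_half_transversal_upperHalfPlane
  refine ⟨E, ⟨IsometryEquiv.refl _, τ, ?_, ?_⟩, ?_⟩
  · rw [Set.disjoint_left]
    rintro x ⟨y, hy, rfl⟩ ⟨z, hz, hzy⟩
    have h1 := (hE1 z).1 hz
    rw [hzy] at h1
    exact h1 hy
  · ext x
    simp only [Set.mem_union, Set.mem_univ, iff_true]
    by_cases hx : x ∈ E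
    · left; exact ⟨x, hx, rfl⟩
    · right
      refine ⟨τ.symm x, ?_, by simp⟩
      rw [hE1]
      simpa using hx
  · have hcard : #ℝ = #k := by rw [hk, Cardinal.mk_real]
    obtain ⟨e⟩ := Cardinal.eq.1 hcard
    refine ⟨fun r => IsometryEquiv.mk' (fun z => ((e r : ℝ)) +ᵥ z) (fun z => (-(e r : ℝ)) +ᵥ z)
      (fun z => by simp) (UpperHalfPlane.isometry_real_vadd _), ?_, ?_⟩
    · intro r s hrs
      rw [Set.disjoint_left]
      rintro x ⟨y, hy, hyx⟩ ⟨z, hz, hzx⟩
      apply hrs
      have hyx' : (e r : ℝ) +ᵥ y = x := hyx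
      have hzx' : (e s : ℝ) +ᵥ z = x := hzx
      obtain ⟨t, ht, htu⟩ := hE2 x
      have h1 : -(e r) = t := htu (-(e r)) (by
        change ((-(e r) : k) : ℝ) +ᵥ x ∈ E
        rw [← hyx']
        simpa using hy)
      have h2 : -(e s) = t := htu (-(e s)) (by
        change ((-(e s) : k) : ℝ) +ᵥ x ∈ E
        rw [← hzx']
        simpa using hz)
      apply e.injective
      rw [← neg_inj, h1, h2]
    · ext x
      simp only [Set.mem_iUnion, Set.mem_univ, iff_true]
      obtain ⟨t, ht, htu⟩ := hE2 x
      refine ⟨e.symm (-t), ((t : ℝ) +ᵥ x), ht, ?_⟩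
      change ((e (e.symm (-t)) : k) : ℝ) +ᵥ ((t : ℝ) +ᵥ x) = x
      rw [Equiv.apply_symm_apply]
      simp

end Helpers

/-- There is a subset E of the hyperbolic plane such that two isometric copies of E partition the plane, and also continuum many isometric copies of E, indexed by the reals, partition the plane. -/
theorem result :
    ∃ E : Set UpperHalfPlane,
      (∃ g h : UpperHalfPlane ≃ᵢ UpperHalfPlane,
          Disjoint (⇑g '' E) (⇑h '' E) ∧ ⇑g '' E ∪ ⇑h '' E = Set.univ) ∧
      (∃ f : ℝ → (UpperHalfPlane ≃ᵢ UpperHalfPlane),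
          Pairwise (fun r s => Disjoint (⇑(f r) '' E) (⇑(f s) '' E)) ∧
          (⋃ r : ℝ, ⇑(f r) '' E) = Set.univ) := by
  exact hyp_result

end Pool.Agent.S08575
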