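import Pool.Statements.S08580

set_option autoImplicit false
open Pool Pool.MP_7ca978_gt

namespace Pool.Agent.S08580

/-- The isometry `(z, w) ↦ (-conj w, conj z)` of `ℂ² = ℝ⁴`. -/
noncomputable def tMap : EuclideanSpace ℝ (Fin 4) ≃ₗᵢ[ℝ] EuclideanSpace ℝ (Fin 4) where
  toFun p := !₂[-(p 2), p 3, p 0, -(p 1)]
  invFun p := !₂[p 2, -(p 3), -(p 0), p 1]
  left_inv p := by
    ext i
    fin_cases i <;> simp
  right_inv p := by
    ext i
    fin_cases i <;> simp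
  map_add' p q := by
    ext i
    fin_cases i <;> simp <;> ring
  map_smul' c p := by
    ext i
    fin_cases i <;> simp
  norm_map' p := by
    simp only [EuclideanSpace.norm_eq]
    congr 1
    simp [Fin.sum_univ_four]
    ring

/-- The three coordinates of the Hopf map. -/
noncomputable def hopf (i : Fin 3) (p : EuclideanSpace ℝ (Fin 4)) : ℝ :=
  ![p 0 ^ 2 + p 1 ^ 2 - p 2 ^ 2 - p 3 ^ 2, 2 * (p 0 * p 2 + p 1 * p 3),
    2 * (p 1 * p 2 - p 0 * p 3)] i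

/-- The negation of the preceding statement: For every n ≥ 1, every orthogonal map T of ℝ^n and any n−1 real functions continuous on the unit sphere, some point p of the sphere satisfies φ_i(Tp) = φ_i(p) for all i. -/
theorem result :
    ¬ (∀ n : ℕ, 1 ≤ n →
      ∀ T : EuclideanSpace ℝ (Fin n) ≃ₗᵢ[ℝ] EuclideanSpace ℝ (Fin n),
      ∀ φ : Fin (n - 1) → EuclideanSpace ℝ (Fin n) → ℝ,
        (∀ i, ContinuousOn (φ i) (Metric.sphere (0 : EuclideanSpace ℝ (Fin n)) 1)) →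
        ∃ p ∈ Metric.sphere (0 : EuclideanSpace ℝ (Fin n)) 1,
          ∀ i, φ i (T p) = φ i p) := by
  intro h
  obtain ⟨p, hp, hq⟩ := h 4 (by norm_num) tMap hopf (by
    intro i
    apply Continuous.continuousOn
    fin_cases i
    · show Continuous fun p : EuclideanSpace ℝ (Fin 4) =>
        p 0 ^ 2 + p 1 ^ 2 - p 2 ^ 2 - p 3 ^ 2
      fun_prop
    · show Continuous fun p : EuclideanSpace ℝ (Fin 4) => 2 * (p 0 * p 2 + p 1 * p 3)
      fun_prop
    · show Continuous fun p : EuclideanSpace ℝ (Fin 4) => 2 * (p 1 * p 2 - p 0 * p 3)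
      fun_prop)
  have hn : p 0 ^ 2 + p 1 ^ 2 + p 2 ^ 2 + p 3 ^ 2 = 1 := by
    have h1 : ‖p‖ = 1 := by simpa using hp
    have h2 : ‖p‖ ^ 2 = 1 := by rw [h1]; norm_num
    rw [EuclideanSpace.norm_sq_eq] at h2
    simpa [Fin.sum_univ_four] using h2
  have h0 : hopf 0 (tMap p) = hopf 0 p := hq 0
  have h1 : hopf 1 (tMap p) = hopf 1 p := hq 1
  have h2 : hopf 2 (tMap p) = hopf 2 p := hq 2
  have e : tMap p = !₂[-(p 2), p 3, p 0, -(p 1)] := rfl
  rw [e] at h0 h1 h2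
  simp [hopf] at h0 h1 h2
  have k0 : p 0 ^ 2 + p 1 ^ 2 - p 2 ^ 2 - p 3 ^ 2 = 0 := by linarith
  have k1 : p 0 * p 2 + p 1 * p 3 = 0 := by linarith
  have k2 : p 1 * p 2 - p 0 * p 3 = 0 := by linarith
  have : (p 0 ^ 2 + p 1 ^ 2 + p 2 ^ 2 + p 3 ^ 2) ^ 2
      = (p 0 ^ 2 + p 1 ^ 2 - p 2 ^ 2 - p 3 ^ 2) ^ 2 + 4 * (p 0 * p 2 + p 1 * p 3) ^ 2
        + 4 * (p 1 * p 2 - p 0 * p 3) ^ 2 := by ring
  rw [hn, k0, k1, k2] at this
  norm_num at this

end Pool.Agent.S08580
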