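import Pool.Statements.S08590
import Pool.Agent.Helper830.MPel.Fin

set_option autoImplicit false
open TopologicalSpace
open Pool Pool.MP_7e4554_gt

namespace Pool.Agent.S08590

/-- The negation of the preceding statement: For all metrizable X, Y (in Type), if C_p(X) and C_p(Y) (continuous real functions with the pointwise/product uniformity) are uniformly homeomorphic, then X is completely metrizable iff Y is. -/
theorem result :
    ¬ (∀ (X Y : Type) [TopologicalSpace X] [MetrizableSpace X]
      [TopologicalSpace Y] [MetrizableSpace Y],
      Nonempty (UniformEquiv {f : X → ℝ // Continuous f} {g : Y → ℝ // Continuous g}) →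
        (IsCompletelyMetrizableSpace X ↔ IsCompletelyMetrizableSpace Y)) := by
  exact Pool.Agent.Helper830.MPel.not_main

end Pool.Agent.S08590
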