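import Pool.Statements.S08591
import Pool.Agent.Helper535.I
import Pool.Agent.Helper535.L

set_option autoImplicit false
open Topology
open Pool Pool.MP_7e5847_gt

namespace Pool.Agent.S08591

/-- If a compact Hausdorff X has, for each subset A, a continuous map f to a Corson compactum with f⁻¹(f(A)) = A, then every Hausdorff continuous image of X has the same property. -/
theorem result :
    ∀ (X : Type) [TopologicalSpace X] [CompactSpace X] [T2Space X],
      (∀ A : Set X, ∃ (Y : Type) (_ : TopologicalSpace Y), CompactSpace Y ∧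
        (∃ (κ : Type) (e : Y → (κ → ℝ)), IsEmbedding e ∧
          ∀ y : Y, (Function.support (e y)).Countable) ∧
        ∃ f : X → Y, Continuous f ∧ f ⁻¹' (f '' A) = A) →
      ∀ (Z : Type) [TopologicalSpace Z] [T2Space Z] (g : X → Z),
        Continuous g → Function.Surjective g →
        ∀ B : Set Z, ∃ (Y : Type) (_ : TopologicalSpace Y), CompactSpace Y ∧
          (∃ (κ : Type) (e : Y → (κ → ℝ)), IsEmbedding e ∧
            ∀ y : Y, (Function.support (e y)).Countable) ∧
          ∃ f : Z → Y, Continuous f ∧ f ⁻¹' (f '' B) = B := by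
  intro X _ _ _ h Z _ _ g hg hs B
  have hS : Pool.Agent.Helper535.Splits X := by
    apply Pool.Agent.Helper535.splits_of_maps
    intro A
    obtain ⟨Y, tY, _, ⟨κ, e, he, hsupp⟩, f, hf, hA⟩ := h A
    exact ⟨Y, tY, κ, e, f, he.continuous, he.injective, hsupp, hf, hA⟩
  have hZ : CompactSpace Z := by
    constructor
    have := (isCompact_univ (X := X)).image hg
    rwa [Set.image_univ, hs.range_eq] at this
  obtain ⟨κ, e, he, hsupp⟩ := Pool.Agent.Helper535.embedding_of_corson (hS.corson.image hg hs)
  exact ⟨Z, inferInstance, hZ, ⟨κ, e, he, hsupp⟩, id, continuous_id, by simp⟩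

end Pool.Agent.S08591
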