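import Pool.Statements.S08598
import Pool.Agent.Helper648.Frame
import Pool.Agent.Helper648.Maz

set_option autoImplicit false
open Pool Pool.MP_7ef336_gt

namespace Pool.Agent.S08598

open Pool.Agent.Helper648

abbrev E3 := EuclideanSpace ℝ (Fin 3)

/-- a three element bound -/
theorem ncard_le_two {S : Set E3} {𝒱 : Finset (Set E3)} {z : E3} (hz : z ∈ S)
    (h : ∀ 𝒲 ⊆ 𝒱, (𝒲.card : ℤ) = 1 + 2 → S ∩ ⋂₀ (↑𝒲 : Set (Set E3)) = ∅) :
    {V | V ∈ 𝒱 ∧ z ∈ V}.ncard ≤ 2 := by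
  classical
  have e : {V | V ∈ 𝒱 ∧ z ∈ V} = ((𝒱.filter (fun V => z ∈ V) : Finset (Set E3)) : Set (Set E3)) := by
    ext V; simp
  rw [e, Set.ncard_coe_finset]
  by_contra hcon
  push Not at hcon
  obtain ⟨𝒲, h1, h2⟩ := Finset.exists_subset_card_eq (show 3 ≤ _ from hcon)
  have h3 := h 𝒲 (h1.trans (Finset.filter_subset _ _)) (by rw [h2]; norm_num)
  rw [Set.eq_empty_iff_forall_notMem] at h3
  refine h3 z ⟨hz, ?_⟩
  intro V hV
  have := h1 hV
  rw [Finset.mem_filter] at this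
  exact this.2

theorem triple_of_ncard {S : Set E3} {𝒱 : Finset (Set E3)}
    (h : ∀ z ∈ S, {V | V ∈ 𝒱 ∧ z ∈ V}.ncard ≤ 2) :
    ∀ 𝒲 ⊆ 𝒱, (𝒲.card : ℤ) = 1 + 2 → S ∩ ⋂₀ (↑𝒲 : Set (Set E3)) = ∅ := by
  intro 𝒲 hW hcard
  rw [Set.eq_empty_iff_forall_notMem]
  rintro z ⟨hz, hzW⟩
  have h1 := h z hz
  have h2 : ((𝒲 : Finset (Set E3)) : Set (Set E3)) ⊆ {V | V ∈ 𝒱 ∧ z ∈ V} :=
    fun V hV => ⟨hW hV, hzW V hV⟩
  have h3 := Set.ncard_le_ncard h2 (𝒱.finite_toSet.subset (fun V hV => hV.1))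
  rw [Set.ncard_coe_finset] at h3
  have : (𝒲.card : ℤ) ≤ 2 := by exact_mod_cast h3.trans h1
  omega

/-- a connected set with two points inside the preimage of the Noebeling set -/
theorem exists_connected {f : E3 → E3} (hf : Continuous f) (hsurj : Function.Surjective f)
    {M : ℝ} (hM : ∀ y, ‖y - f y‖ ≤ M)
    (huniq : ∀ y y', f y = f y' → (∀ i, f y ∉ Frame.S i) → y = y') :
    ∃ J : Set E3, IsPreconnected J ∧ J ⊆ f ⁻¹' Nobel.N ∧ ∃ p ∈ J, ∃ q ∈ J, p ≠ q := by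
  let L : ℝ → E3 := fun t => WithLp.toLp 2 ![t, √2, √2]
  have hL : Continuous L := by
    apply (PiLp.continuous_toLp 2 _).comp
    apply continuous_pi
    intro i
    fin_cases i <;> simp <;> fun_prop
  have hirr : √2 ∉ Set.range ((↑) : ℚ → ℝ) := irrational_sqrt_two
  have hLN : ∀ t, L t ∈ Nobel.N := by
    intro t i j hij hi hj
    have h1 : L t 1 = √2 := by simp [L]
    have h2 : L t 2 = √2 := by simp [L]
    have hi0 : i = 0 := by
      fin_cases i
      · rfl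
      · exfalso; exact hirr (h1 ▸ hi)
      · exfalso; exact hirr (h2 ▸ hi)
    have hj0 : j = 0 := by
      fin_cases j
      · rfl
      · exfalso; exact hirr (h1 ▸ hj)
      · exfalso; exact hirr (h2 ▸ hj)
    exact hij (hi0.trans hj0.symm)
  choose g hg using hsurj
  have hcont : Continuous (fun t => g (L t)) := by
    rw [continuous_iff_continuousAt]
    intro t
    rw [ContinuousAt, tendsto_nhds]
    intro U hU hmem
    obtain ⟨W, hW, hfW, hWU⟩ := Frame.inv_nhds hf hM huniq (g (L t))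
      (by rw [Set.mem_preimage, hg]; exact hLN t) U hU hmem
    rw [hg] at hfW
    have : L ⁻¹' W ∈ nhds t := (hW.preimage hL).mem_nhds hfW
    filter_upwards [this] with s hs
    exact hWU (g (L s)) (by rw [Set.mem_preimage, hg]; exact hLN s) (by rw [hg]; exact hs)
  refine ⟨Set.range (fun t => g (L t)), isPreconnected_range hcont, ?_, g (L 0), ⟨0, rfl⟩,
    g (L 1), ⟨1, rfl⟩, ?_⟩
  · rintro _ ⟨t, rfl⟩
    rw [Set.mem_preimage, hg]; exact hLN t
  · intro h
    have : L 0 = L 1 := by rw [← hg (L 0), h, hg]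
    have h0 : L 0 0 = L 1 0 := by rw [this]
    simp [L] at h0

/-- The negation of the preceding statement: For every n and every A ⊆ ℝⁿ there is B containing A with covering dimension of B equal to that of A (say m) and covering dimension of the complement of B equal to n − m − 1 (empty set has dimension −1). -/
theorem result :
    ¬ (∀ n : ℕ, ∀ D : Set (EuclideanSpace ℝ (Fin n)) → ℤ → Prop,
      (∀ (S : Set (EuclideanSpace ℝ (Fin n))) (k : ℤ), D S k ↔
        ∀ 𝒰 : Finset (Set (EuclideanSpace ℝ (Fin n))),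
          (∀ U ∈ 𝒰, IsOpen U) →
          S ⊆ ⋃₀ (↑𝒰 : Set (Set (EuclideanSpace ℝ (Fin n)))) →
          ∃ 𝒱 : Finset (Set (EuclideanSpace ℝ (Fin n))),
            (∀ V ∈ 𝒱, IsOpen V) ∧
            S ⊆ ⋃₀ (↑𝒱 : Set (Set (EuclideanSpace ℝ (Fin n)))) ∧
            (∀ V ∈ 𝒱, ∃ U ∈ 𝒰, V ∩ S ⊆ U) ∧
            (∀ 𝒲 ⊆ 𝒱, (𝒲.card : ℤ) = k + 2 →
              S ∩ ⋂₀ (↑𝒲 : Set (Set (EuclideanSpace ℝ (Fin n)))) = ∅)) →
      ∀ A : Set (EuclideanSpace ℝ (Fin n)),
        ∃ B : Set (EuclideanSpace ℝ (Fin n)), A ⊆ B ∧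
          ∀ m : ℤ,
            (-1 ≤ m ∧ D A m ∧ ∀ j : ℤ, -1 ≤ j → j < m → ¬ D A j) →
            ((D B m ∧ ∀ j : ℤ, -1 ≤ j → j < m → ¬ D B j) ∧
             (D Bᶜ ((n : ℤ) - m - 1) ∧
               ∀ j : ℤ, -1 ≤ j → j < (n : ℤ) - m - 1 → ¬ D Bᶜ j))) := by
  classical
  intro h
  obtain ⟨f, hf, hsurj, ⟨M, hM⟩, huniq, hclus⟩ := Frame.exists_frame
  obtain ⟨J, hJ, hJA, p, hpJ, q, hqJ, hpq⟩ := exists_connected hf hsurj hM huniq
  obtain ⟨B, hAB, hB⟩ := h 3 _ (fun _ _ => Iff.rfl) (f ⁻¹' Nobel.N)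
  obtain ⟨⟨hB1, _⟩, hB2, _⟩ := hB 1 ⟨by norm_num, by
      intro 𝒰 hU hcov
      obtain ⟨𝒱, h1, h2, h3⟩ := Nobel.dim_le_one_cover (f ⁻¹' Nobel.N) f hf
        (fun _ hz => hz) (Frame.inv_nhds hf hM huniq) 𝒰 hU hcov
      exact ⟨𝒱, fun V hV => (h1 V hV).1, h2, fun V hV => (h1 V hV).2, triple_of_ncard h3⟩, by
      intro j hj1 hj2 hD
      obtain ⟨𝒱, h1, h2, h3, h4⟩ := hD {{p}ᶜ, {q}ᶜ} (by
        intro U hU
        rw [Finset.mem_insert, Finset.mem_singleton] at hU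
        rcases hU with rfl | rfl <;> exact isOpen_compl_singleton) (by
        intro x _
        by_cases hx : x = p
        · exact ⟨{q}ᶜ, by simp, by rw [hx]; exact hpq⟩
        · exact ⟨{p}ᶜ, by simp, hx⟩)
      obtain ⟨V, hV, hpV⟩ := h2 (hJA hpJ)
      have hj : j = -1 ∨ j = 0 := by omega
      rcases hj with rfl | rfl
      · have := h4 {V} (by simpa using hV) (by simp)
        rw [Set.eq_empty_iff_forall_notMem] at this
        exact this p ⟨hJA hpJ, by simpa using hpV⟩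
      · -- q belongs to V as well
        have hqV : q ∈ V := by
          by_contra hqV
          have hO : IsOpen (⋃₀ ((𝒱.erase V : Finset (Set E3)) : Set (Set E3))) := by
            apply isOpen_sUnion
            intro W hW
            exact h1 W (Finset.mem_of_mem_erase hW)
          have := hJ V (⋃₀ ((𝒱.erase V : Finset (Set E3)) : Set (Set E3))) (h1 V hV) hO (by
            intro x hx
            obtain ⟨W, hW, hxW⟩ := h2 (hJA hx)
            by_cases hWV : W = V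
            · left; rw [← hWV]; exact hxW
            · right; exact ⟨W, Finset.mem_erase.2 ⟨hWV, hW⟩, hxW⟩) ⟨p, hpJ, hpV⟩ (by
            obtain ⟨W, hW, hqW⟩ := h2 (hJA hqJ)
            refine ⟨q, hqJ, W, Finset.mem_erase.2 ⟨?_, hW⟩, hqW⟩
            rintro rfl; exact hqV hqW)
          obtain ⟨x, hxJ, hxV, W, hW, hxW⟩ := this
          rw [Finset.mem_coe, Finset.mem_erase] at hW
          have h5 := h4 {V, W} (by
            intro Z hZ
            rw [Finset.mem_insert, Finset.mem_singleton] at hZ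
            rcases hZ with rfl | rfl
            · exact hV
            · exact hW.2) (by rw [Finset.card_pair (Ne.symm hW.1)]; norm_num)
          rw [Set.eq_empty_iff_forall_notMem] at h5
          refine h5 x ⟨hJA hxJ, ?_⟩
          intro Z hZ
          rw [Finset.mem_coe, Finset.mem_insert, Finset.mem_singleton] at hZ
          rcases hZ with rfl | rfl
          · exact hxV
          · exact hxW
        obtain ⟨U, hU, hVU⟩ := h3 V hV
        rw [Finset.mem_insert, Finset.mem_singleton] at hU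
        rcases hU with rfl | rfl
        · exact hVU ⟨hpV, hJA hpJ⟩ rfl
        · exact hVU ⟨hqV, hJA hqJ⟩ rfl⟩
  have hR : (0:ℝ) < |M| + 1 := by positivity
  obtain ⟨C, hC, hconn, hCB, ⟨x, hx, hx2⟩, ⟨y, hy, hy2⟩⟩ := Maz.exists_continuum B hR (by
    intro 𝒰 hU hcov
    obtain ⟨𝒱, h1, h2, h3, h4⟩ := hB1 𝒰 hU hcov
    refine ⟨𝒱, fun V hV => ⟨h1 V hV, h3 V hV⟩, h2, ?_⟩
    intro V₁ hV₁ V₂ hV₂ V₃ hV₃ n12 n13 n23
    have h5 := h4 {V₁, V₂, V₃} (by
      intro Z hZ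
      rw [Finset.mem_insert, Finset.mem_insert, Finset.mem_singleton] at hZ
      rcases hZ with rfl | rfl | rfl
      · exact hV₁
      · exact hV₂
      · exact hV₃) (by
      rw [Finset.card_eq_three.2 ⟨V₁, V₂, V₃, n12, n13, n23, rfl⟩]; norm_num)
    rw [Set.eq_empty_iff_forall_notMem] at h5 ⊢
    rintro z ⟨⟨⟨hzB, hz1⟩, hz2⟩, hz3⟩
    refine h5 z ⟨hzB, ?_⟩
    intro Z hZ
    rw [Finset.mem_coe, Finset.mem_insert, Finset.mem_insert, Finset.mem_singleton] at hZ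
    rcases hZ with rfl | rfl | rfl
    · exact hz1
    · exact hz2
    · exact hz3)
  have hfar : ∀ z : E3, |z 2 - f z 2| ≤ |M| := by
    intro z
    have h1 := PiLp.norm_apply_le (z - f z) 2
    have h2 := hM z
    calc |z 2 - f z 2| = ‖(z - f z) 2‖ := by simp
      _ ≤ ‖z - f z‖ := h1
      _ ≤ |M| := h2.trans (le_abs_self M)
  have hne : f x ≠ f y := by
    intro he
    have h1 := hfar x
    have h2 := hfar y
    rw [he, hx2] at h1
    rw [hy2] at h2
    rw [abs_le] at h1 h2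
    linarith [h1.1, h1.2, h2.1, h2.2]
  obtain ⟨i, c, ρ, hρ, hdisc⟩ := Frame.exists_disc hf huniq hclus C hC hconn
    (fun z hz hzN => hCB hz (hAB hzN)) hx hy hne
  refine Frame.no_dim_one C hC hρ hdisc ?_
  intro 𝒰 hU hcov
  obtain ⟨𝒱, h1, h2, h3, h4⟩ := hB2 (insert Cᶜ 𝒰) (by
    intro U hU'
    rw [Finset.mem_insert] at hU'
    rcases hU' with rfl | hU'
    · exact hC.isClosed.isOpen_compl
    · exact hU U hU') (by
    intro z _
    by_cases hz : z ∈ C
    · obtain ⟨U, hU', hzU⟩ := hcov hz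
      exact ⟨U, by rw [Finset.mem_coe, Finset.mem_insert]; exact Or.inr hU', hzU⟩
    · exact ⟨Cᶜ, by simp, hz⟩)
  refine ⟨𝒱.filter (fun V => ∃ z ∈ C, z ∈ V), ?_, ?_, ?_⟩
  · intro V hV
    rw [Finset.mem_filter] at hV
    obtain ⟨hV, z, hzC, hzV⟩ := hV
    refine ⟨h1 V hV, ?_⟩
    obtain ⟨U, hU', hVU⟩ := h3 V hV
    rw [Finset.mem_insert] at hU'
    rcases hU' with rfl | hU'
    · exact absurd hzC (hVU ⟨hzV, hCB hzC⟩)
    · exact ⟨U, hU', fun a ha => hVU ⟨ha.1, hCB ha.2⟩⟩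
  · intro z hz
    obtain ⟨V, hV, hzV⟩ := h2 (hCB hz)
    exact ⟨V, by rw [Finset.mem_coe, Finset.mem_filter]; exact ⟨hV, z, hz, hzV⟩, hzV⟩
  · intro z hz
    refine ncard_le_two (S := Bᶜ) (hCB hz) ?_
    intro 𝒲 hW hcard
    exact h4 𝒲 (hW.trans (Finset.filter_subset _ _)) (by rw [hcard]; norm_num)

end Pool.Agent.S08598
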