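import Pool.Statements.S08603

set_option autoImplicit false
open Pool Pool.MP_80eea4_gt

namespace Pool.Agent.S08603

open IsLocalRing RingTheory.Sequence

/-- Additivity of the trace on a short exact sequence of finite-dimensional spaces. -/
lemma trace_exact {V₁ V₂ V₃ : Type*} [AddCommGroup V₁] [Module ℂ V₁] [Module.Finite ℂ V₁]
    [AddCommGroup V₂] [Module ℂ V₂] [Module.Finite ℂ V₂]
    [AddCommGroup V₃] [Module ℂ V₃] [Module.Finite ℂ V₃]
    (i : V₁ →ₗ[ℂ] V₂) (p : V₂ →ₗ[ℂ] V₃) (hi : Function.Injective i)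
    (hp : Function.Surjective p) (hex : ∀ x, p x = 0 ↔ ∃ y, i y = x)
    (f₁ : V₁ →ₗ[ℂ] V₁) (f₂ : V₂ →ₗ[ℂ] V₂) (f₃ : V₃ →ₗ[ℂ] V₃)
    (h1 : ∀ x, f₂ (i x) = i (f₁ x)) (h2 : ∀ x, p (f₂ x) = f₃ (p x)) :
    LinearMap.trace ℂ V₂ f₂ = LinearMap.trace ℂ V₁ f₁ + LinearMap.trace ℂ V₃ f₃ := by
  obtain ⟨s, hs⟩ := p.exists_rightInverse_of_surjective (LinearMap.range_eq_top.2 hp)
  have hs' : ∀ x, p (s x) = x := fun x => by
    have := congrArg (fun l => l x) hs
    simpa using this
  have hk : ∀ x : V₂, x - s (p x) ∈ LinearMap.range i := by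
    intro x
    obtain ⟨y, hy⟩ := (hex (x - s (p x))).1 (by simp [hs'])
    exact ⟨y, hy⟩
  let e : V₁ ≃ₗ[ℂ] LinearMap.range i := LinearEquiv.ofInjective i hi
  let r : V₂ →ₗ[ℂ] V₁ := e.symm.toLinearMap ∘ₗ
    LinearMap.codRestrict (LinearMap.range i) (LinearMap.id - s ∘ₗ p) (fun x => by simpa using hk x)
  have hr : ∀ x, i (r x) = x - s (p x) := by
    intro x
    have : (e (r x) : V₂) = x - s (p x) := by
      simp [r]
    simpa [e] using this
  have hri : ∀ y, r (i y) = y := by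
    intro y
    apply hi
    rw [hr]
    have : p (i y) = 0 := (hex _).2 ⟨y, rfl⟩
    simp [this]
  have hdecomp : f₂ = (f₂ ∘ₗ i) ∘ₗ r + (f₂ ∘ₗ s) ∘ₗ p := by
    ext x
    simp only [LinearMap.add_apply, LinearMap.comp_apply, hr]
    rw [← map_add]
    congr 1
    abel
  have e1 : r ∘ₗ (f₂ ∘ₗ i) = f₁ := by
    ext y
    simp only [LinearMap.comp_apply, h1, hri]
  have e2 : p ∘ₗ (f₂ ∘ₗ s) = f₃ := by
    ext y
    simp only [LinearMap.comp_apply, h2, hs']
  rw [hdecomp, map_add, LinearMap.trace_comp_comm', LinearMap.trace_comp_comm' p, e1, e2]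

section general

variable {A : Type} [CommRing A] [IsLocalRing A] [IsNoetherianRing A] [Algebra ℂ A]

/-- The only prime ideal containing `I` is the maximal ideal. -/
def Prim (I : Ideal A) : Prop := ∀ p : Ideal A, p.IsPrime → I ≤ p → p = maximalIdeal A

omit [IsLocalRing A] [IsNoetherianRing A] in
lemma exists_good (S : Set (Ideal A)) (hS : S.Finite) (z f : A)
    (h : ∀ p ∈ S, ¬ (z ∈ p ∧ f ∈ p)) : ∃ t : ℂ, ∀ p ∈ S, z + t • f ∉ p := by
  have hsub : ∀ p ∈ S, {t : ℂ | z + t • f ∈ p}.Subsingleton := by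
    intro p hp t ht t' ht'
    by_contra hne
    have h1 : (t - t') • f ∈ p := by
      have := p.sub_mem ht ht'
      convert this using 1
      rw [sub_smul]; abel
    have h2 : f ∈ p := by
      have : (algebraMap ℂ A (t - t')⁻¹) * ((t - t') • f) ∈ p := p.mul_mem_left _ h1
      rwa [← Algebra.smul_def, smul_smul, inv_mul_cancel₀ (sub_ne_zero.2 hne), one_smul] at this
    refine h p hp ⟨?_, h2⟩
    have h3 : t • f ∈ p := by
      rw [Algebra.smul_def]; exact p.mul_mem_left _ h2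
    have := p.sub_mem ht h3
    simpa using this
  have hfin : (⋃ p ∈ S, {t : ℂ | z + t • f ∈ p}).Finite :=
    hS.biUnion fun p hp => (hsub p hp).finite
  obtain ⟨t, ht⟩ := hfin.exists_notMem
  refine ⟨t, fun p hp hc => ht ?_⟩
  simp only [Set.mem_iUnion]
  exact ⟨p, hp, hc⟩

omit [Algebra ℂ A] in
lemma prim_insert (J : Ideal A) (f g : A) (hf : Prim (J ⊔ Ideal.span {f}))
    (hf1 : f ∈ maximalIdeal A) (hJ : J ≤ maximalIdeal A)
    (hg : ∀ p ∈ J.minimalPrimes, p ≠ maximalIdeal A → g ∉ p) : Prim (J ⊔ Ideal.span {g}) := by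
  intro q hq hle
  by_contra hne
  have hlt : q < maximalIdeal A := lt_of_le_of_ne (le_maximalIdeal hq.ne_top) hne
  have hspan : Ideal.span (insert f (J : Set A)) = J ⊔ Ideal.span {f} := by
    rw [Ideal.span_insert, Ideal.span_eq, sup_comm]
  have hmin : maximalIdeal A ∈ (Ideal.span (insert f (J : Set A))).minimalPrimes := by
    rw [hspan]
    refine ⟨⟨inferInstance, sup_le hJ (by simpa [Ideal.span_le] using hf1)⟩, ?_⟩
    rintro p ⟨hp1, hp2⟩ _
    exact (hf p hp1 hp2).ge
  have key := Ideal.mem_minimalPrimes_span_of_mem_minimalPrimes_span_insert (q := q)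
    (p := maximalIdeal A) hlt f (J : Set A) hmin (J : Set A) (fun x hx => hle (Ideal.mem_sup_left hx))
    (fun x hx => Ideal.le_radical (Ideal.subset_span (Set.mem_insert_of_mem _ hx)))
  rw [Ideal.span_eq] at key
  exact hg q key hne (hle (Ideal.mem_sup_right (Ideal.mem_span_singleton_self g)))

end general

section alg

variable {A : Type} [CommRing A] [Algebra ℂ A]

/-- The linear map induced by `σ` on `A / I`. -/
noncomputable def tq (σ : A →ₐ[ℂ] A) (I : Ideal A) (h : I ≤ I.comap σ) :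
    (A ⧸ I) →ₗ[ℂ] (A ⧸ I) := (Ideal.quotientMapₐ I σ h).toLinearMap

lemma tq_mk (σ : A →ₐ[ℂ] A) (I : Ideal A) (h : I ≤ I.comap σ) (a : A) :
    tq σ I h (Ideal.Quotient.mk I a) = Ideal.Quotient.mk I (σ a) := rfl

lemma exch1 (σ : A →ₐ[ℂ] A) (J : Ideal A) (f g : A) (c : ℂ) (hσf : σ f = c • f)
    (hreg : ∀ a, f * a ∈ J → a ∈ J)
    (h1 : J ⊔ Ideal.span {f * g} ≤ (J ⊔ Ideal.span {f * g}).comap σ)
    (h2 : J ⊔ Ideal.span {f} ≤ (J ⊔ Ideal.span {f}).comap σ)
    (h3 : J ⊔ Ideal.span {g} ≤ (J ⊔ Ideal.span {g}).comap σ)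
    [Module.Finite ℂ (A ⧸ (J ⊔ Ideal.span {f * g}))]
    [Module.Finite ℂ (A ⧸ (J ⊔ Ideal.span {f}))]
    [Module.Finite ℂ (A ⧸ (J ⊔ Ideal.span {g}))] :
    LinearMap.trace ℂ _ (tq σ (J ⊔ Ideal.span {f * g}) h1)
      = c * LinearMap.trace ℂ _ (tq σ (J ⊔ Ideal.span {g}) h3)
        + LinearMap.trace ℂ _ (tq σ (J ⊔ Ideal.span {f}) h2) := by
  have hmul : J ⊔ Ideal.span {g} ≤
      Submodule.comap (LinearMap.mulLeft A f) (J ⊔ Ideal.span {f * g}) := by
    rw [sup_le_iff]
    refine ⟨fun x hx => ?_, ?_⟩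
    · exact Ideal.mem_sup_left (J.mul_mem_left f hx)
    · rw [Ideal.span_le]
      rintro x rfl
      exact Ideal.mem_sup_right (Ideal.mem_span_singleton_self _)
  have hle : J ⊔ Ideal.span {f * g} ≤ J ⊔ Ideal.span {f} := by
    refine sup_le_sup_left ?_ J
    rw [Ideal.span_singleton_le_span_singleton]
    exact dvd_mul_right f g
  let i : (A ⧸ (J ⊔ Ideal.span {g})) →ₗ[ℂ] (A ⧸ (J ⊔ Ideal.span {f * g})) :=
    (Submodule.mapQ (J ⊔ Ideal.span {g}) (J ⊔ Ideal.span {f * g})
      (LinearMap.mulLeft A f) hmul).restrictScalars ℂ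
  have hi : ∀ a : A, i (Ideal.Quotient.mk _ a) = Ideal.Quotient.mk _ (f * a) := fun a => rfl
  let p : (A ⧸ (J ⊔ Ideal.span {f * g})) →ₗ[ℂ] (A ⧸ (J ⊔ Ideal.span {f})) :=
    (Submodule.mapQ (J ⊔ Ideal.span {f * g}) (J ⊔ Ideal.span {f})
      LinearMap.id hle).restrictScalars ℂ
  have hp : ∀ a : A, p (Ideal.Quotient.mk _ a) = Ideal.Quotient.mk _ a := fun a => rfl
  have hinj : Function.Injective i := by
    rw [injective_iff_map_eq_zero]
    intro x
    obtain ⟨a, rfl⟩ := Ideal.Quotient.mk_surjective x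
    rw [hi, Ideal.Quotient.eq_zero_iff_mem, Ideal.Quotient.eq_zero_iff_mem]
    intro hfa
    obtain ⟨j, hj, b, hb, hjb⟩ := Submodule.mem_sup.1 hfa
    obtain ⟨d, rfl⟩ := Ideal.mem_span_singleton'.1 hb
    have : f * (a - d * g) ∈ J := by
      have : f * (a - d * g) = j := by
        rw [mul_sub, ← hjb]; ring
      rwa [this]
    have h4 := hreg _ this
    have h5 : a = (a - d * g) + d * g := by ring
    rw [h5]
    exact Ideal.add_mem _ (Ideal.mem_sup_left h4)
      (Ideal.mem_sup_right (Ideal.mem_span_singleton'.2 ⟨d, rfl⟩))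
  have hsurj : Function.Surjective p := by
    intro x
    obtain ⟨a, rfl⟩ := Ideal.Quotient.mk_surjective x
    exact ⟨Ideal.Quotient.mk _ a, hp a⟩
  have hex : ∀ x, p x = 0 ↔ ∃ y, i y = x := by
    intro x
    obtain ⟨a, rfl⟩ := Ideal.Quotient.mk_surjective x
    rw [hp, Ideal.Quotient.eq_zero_iff_mem]
    constructor
    · intro ha
      obtain ⟨j, hj, b, hb, hjb⟩ := Submodule.mem_sup.1 ha
      obtain ⟨d, rfl⟩ := Ideal.mem_span_singleton'.1 hb
      refine ⟨Ideal.Quotient.mk _ d, ?_⟩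
      rw [hi, Ideal.Quotient.eq]
      have : f * d - a = -j := by rw [← hjb]; ring
      rw [this]
      exact Ideal.mem_sup_left (J.neg_mem hj)
    · rintro ⟨y, hy⟩
      obtain ⟨d, rfl⟩ := Ideal.Quotient.mk_surjective y
      rw [hi, Ideal.Quotient.eq] at hy
      have h6 : a = f * d - (f * d - a) := by ring
      rw [h6]
      exact Ideal.sub_mem _ (Ideal.mem_sup_right (Ideal.mul_mem_right _ _
        (Ideal.mem_span_singleton_self f))) (hle hy)
  have := trace_exact i p hinj hsurj hex (c • tq σ (J ⊔ Ideal.span {g}) h3)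
    (tq σ (J ⊔ Ideal.span {f * g}) h1) (tq σ (J ⊔ Ideal.span {f}) h2) ?_ ?_
  · rw [this, map_smul, smul_eq_mul]
  · intro x
    obtain ⟨a, rfl⟩ := Ideal.Quotient.mk_surjective x
    rw [hi, tq_mk, LinearMap.smul_apply, tq_mk, map_smul, hi, map_mul, hσf]
    rw [smul_mul_assoc]
    rfl
  · intro x
    obtain ⟨a, rfl⟩ := Ideal.Quotient.mk_surjective x
    rw [tq_mk, hp, hp, tq_mk]

lemma exch (σ : A →ₐ[ℂ] A) (J : Ideal A) (f g : A) (c : ℂ) (hc : c ≠ 1)
    (hσf : σ f = c • f) (hσg : σ g = c • g)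
    (hregf : ∀ a, f * a ∈ J → a ∈ J) (hregg : ∀ a, g * a ∈ J → a ∈ J)
    (hJ : J ≤ J.comap σ)
    (h2 : J ⊔ Ideal.span {f} ≤ (J ⊔ Ideal.span {f}).comap σ)
    (h3 : J ⊔ Ideal.span {g} ≤ (J ⊔ Ideal.span {g}).comap σ)
    (hfin : Module.Finite ℂ (A ⧸ (J ⊔ Ideal.span {f * g})))
    (hfinf : Module.Finite ℂ (A ⧸ (J ⊔ Ideal.span {f})))
    (hfing : Module.Finite ℂ (A ⧸ (J ⊔ Ideal.span {g}))) :
    LinearMap.trace ℂ _ (tq σ (J ⊔ Ideal.span {f}) h2)
      = LinearMap.trace ℂ _ (tq σ (J ⊔ Ideal.span {g}) h3) := by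
  have h1 : J ⊔ Ideal.span {f * g} ≤ (J ⊔ Ideal.span {f * g}).comap σ := by
    rw [sup_le_iff]
    refine ⟨hJ.trans (Ideal.comap_mono le_sup_left), ?_⟩
    rw [Ideal.span_le]
    rintro x rfl
    change σ (f * g) ∈ (J ⊔ Ideal.span {f * g})
    rw [map_mul, hσf, hσg, smul_mul_assoc, mul_smul_comm, smul_smul, Algebra.smul_def]
    exact Ideal.mul_mem_left _ _ (Ideal.mem_sup_right (Ideal.mem_span_singleton_self _))
  have e1 := exch1 σ J f g c hσf hregf h1 h2 h3
  have hcomm : J ⊔ Ideal.span {f * g} = J ⊔ Ideal.span {g * f} := by rw [mul_comm]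
  have h1' : J ⊔ Ideal.span {g * f} ≤ (J ⊔ Ideal.span {g * f}).comap σ := by
    rwa [← hcomm]
  have : Module.Finite ℂ (A ⧸ (J ⊔ Ideal.span {g * f})) := by rwa [← hcomm]
  have e2 := exch1 σ J g f c hσg hregg h1' h3 h2
  have e3 : LinearMap.trace ℂ _ (tq σ (J ⊔ Ideal.span {f * g}) h1)
      = LinearMap.trace ℂ _ (tq σ (J ⊔ Ideal.span {g * f}) h1') := by
    congr! 2 <;> rw [mul_comm]
  rw [e1, e2] at e3
  have e4 : (1 - c) * (LinearMap.trace ℂ _ (tq σ (J ⊔ Ideal.span {f}) h2)
      - LinearMap.trace ℂ _ (tq σ (J ⊔ Ideal.span {g}) h3)) = 0 := by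
    linear_combination e3
  rcases mul_eq_zero.1 e4 with h | h
  · exact absurd (sub_eq_zero.1 h).symm hc
  · exact sub_eq_zero.1 h

end alg

section main

variable {A : Type} [CommRing A]

/-- The iterated quotient is the quotient by the sum. -/
noncomputable def qqEquiv (J I : Ideal A) :
    ((A ⧸ J) ⧸ (I • (⊤ : Submodule A (A ⧸ J)))) ≃ₗ[A] (A ⧸ (J ⊔ I)) :=
  (Submodule.quotEquivOfEq _ _ (by
    have : (⊤ : Submodule A (A ⧸ J)) = Submodule.map (Submodule.mkQ J) ⊤ := by
      rw [Submodule.map_top, Submodule.range_mkQ]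
    rw [this, ← Submodule.map_smul'', smul_eq_mul, Ideal.mul_top])).trans
    (Submodule.quotientQuotientEquivQuotientSup J I)

/-- The quotient by a single element is the quotient by the sum. -/
noncomputable def qEquiv (J : Ideal A) (g : A) :
    (QuotSMulTop g (A ⧸ J)) ≃ₗ[A] (A ⧸ (J ⊔ Ideal.span {g})) :=
  (Submodule.quotEquivOfEq _ _ (by
    rw [Submodule.ideal_span_singleton_smul])).trans (qqEquiv J (Ideal.span {g}))

lemma isSMulRegular_quot_iff (I : Ideal A) (r : A) :
    IsSMulRegular (A ⧸ I) r ↔ ∀ a, r * a ∈ I → a ∈ I := by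
  rw [isSMulRegular_iff_right_eq_zero_of_smul]
  constructor
  · intro h a ha
    have := h (Ideal.Quotient.mk I a) (by
      rw [← Ideal.Quotient.mk_eq_mk, ← Submodule.Quotient.mk_smul, smul_eq_mul]
      exact Ideal.Quotient.eq_zero_iff_mem.2 ha)
    exact Ideal.Quotient.eq_zero_iff_mem.1 this
  · intro h x hx
    obtain ⟨a, rfl⟩ := Ideal.Quotient.mk_surjective x
    rw [← Ideal.Quotient.mk_eq_mk, ← Submodule.Quotient.mk_smul, smul_eq_mul] at hx
    exact Ideal.Quotient.eq_zero_iff_mem.2 (h a (Ideal.Quotient.eq_zero_iff_mem.1 hx))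

lemma append_iff (J : Ideal A) (rs : List A) (r : A) :
    IsWeaklyRegular (A ⧸ J) (rs ++ [r]) ↔
      IsWeaklyRegular (A ⧸ J) rs ∧ ∀ a, r * a ∈ J ⊔ Ideal.ofList rs → a ∈ J ⊔ Ideal.ofList rs := by
  rw [isWeaklyRegular_append_iff, isWeaklyRegular_singleton_iff,
    (qqEquiv J (Ideal.ofList rs)).isSMulRegular_congr, isSMulRegular_quot_iff]

lemma cons_iff (J : Ideal A) (rs : List A) (r : A) :
    IsWeaklyRegular (A ⧸ J) (r :: rs) ↔
      (∀ a, r * a ∈ J → a ∈ J) ∧ IsWeaklyRegular (A ⧸ (J ⊔ Ideal.span {r})) rs := by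
  rw [isWeaklyRegular_cons_iff, (qEquiv J r).isWeaklyRegular_congr, isSMulRegular_quot_iff]

variable [IsLocalRing A] [IsNoetherianRing A]

lemma swap_iff (J : Ideal A) (rs : List A) (r : A) (hr : r ∈ maximalIdeal A)
    (hrs : ∀ x ∈ rs, x ∈ maximalIdeal A) :
    IsWeaklyRegular (A ⧸ J) (r :: rs) ↔ IsWeaklyRegular (A ⧸ J) (rs ++ [r]) := by
  constructor
  · intro h
    refine IsLocalRing.isWeaklyRegular_of_perm_of_subset_maximalIdeal h ?_ ?_
    · exact (List.perm_append_singleton r rs).symm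
    · intro x hx
      rcases List.mem_cons.1 hx with rfl | hx
      · exact hr
      · exact hrs x hx
  · intro h
    refine IsLocalRing.isWeaklyRegular_of_perm_of_subset_maximalIdeal h ?_ ?_
    · exact List.perm_append_singleton r rs
    · intro x hx
      rcases List.mem_append.1 hx with hx | hx
      · exact hrs x hx
      · rw [List.mem_singleton] at hx
        rw [hx]; exact hr

omit [IsLocalRing A] in
lemma not_mem_ass (I : Ideal A) (r : A) (h : ∀ a, r * a ∈ I → a ∈ I) (p : Ideal A)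
    (hp : p ∈ associatedPrimes A (A ⧸ I)) : r ∉ p := by
  intro hr
  have h1 : r ∈ ⋃ p ∈ associatedPrimes A (A ⧸ I), (p : Set A) := by
    simp only [Set.mem_iUnion]
    exact ⟨p, hp, hr⟩
  rw [biUnion_associatedPrimes_eq_zero_divisors] at h1
  obtain ⟨x, hx, hrx⟩ := h1
  exact hx ((isSMulRegular_iff_right_eq_zero_of_smul.1 ((isSMulRegular_quot_iff I r).2 h)) x hrx)

omit [IsLocalRing A] in
lemma reg_of_not_mem_ass (I : Ideal A) (r : A)
    (h : ∀ p ∈ associatedPrimes A (A ⧸ I), r ∉ p) : ∀ a, r * a ∈ I → a ∈ I := by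
  rw [← isSMulRegular_quot_iff, isSMulRegular_iff_right_eq_zero_of_smul]
  intro x hx
  by_contra hne
  have h1 : r ∈ ⋃ p ∈ associatedPrimes A (A ⧸ I), (p : Set A) := by
    rw [biUnion_associatedPrimes_eq_zero_divisors]
    exact ⟨x, hne, hx⟩
  simp only [Set.mem_iUnion] at h1
  obtain ⟨p, hp, hr⟩ := h1
  exact h p hp hr

omit [IsLocalRing A] [IsNoetherianRing A] in
lemma le_of_mem_ass (I p : Ideal A) (hp : p ∈ associatedPrimes A (A ⧸ I)) : I ≤ p := by
  have := IsAssociatedPrime.annihilator_le hp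
  rwa [Submodule.annihilator_top, Ideal.annihilator_quotient] at this

variable [Algebra ℂ A]

omit [IsLocalRing A] [IsNoetherianRing A] in
lemma stable_span (σ : A →ₐ[ℂ] A) (J : Ideal A) (hJ : J ≤ J.comap σ) (x : A) (c : ℂ)
    (hx : σ x = c • x) : J ⊔ Ideal.span {x} ≤ (J ⊔ Ideal.span {x}).comap σ := by
  rw [sup_le_iff]
  refine ⟨hJ.trans (Ideal.comap_mono le_sup_left), ?_⟩
  rw [Ideal.span_le]
  intro y hy
  rw [Set.mem_singleton_iff.1 hy]
  change σ x ∈ (J ⊔ Ideal.span {x})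
  rw [hx, Algebra.smul_def]
  exact Ideal.mul_mem_left _ _ (Ideal.mem_sup_right (Ideal.mem_span_singleton_self _))

omit [IsLocalRing A] [IsNoetherianRing A] in
lemma stable_ofList (σ : A →ₐ[ℂ] A) (J : Ideal A) (hJ : J ≤ J.comap σ) (l : List A)
    (cs : List ℂ) (h : List.Forall₂ (fun x c => σ x = c • x) l cs) :
    J ⊔ Ideal.ofList l ≤ (J ⊔ Ideal.ofList l).comap σ := by
  induction h generalizing J with
  | nil => simpa using hJ
  | @cons x c l cs hx _ ih =>
    have := ih (J ⊔ Ideal.span {x}) (stable_span σ J hJ x c hx)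
    rwa [Ideal.ofList_cons, ← sup_assoc]

omit [IsLocalRing A] [IsNoetherianRing A] in
lemma tr_congr (σ : A →ₐ[ℂ] A) {I I' : Ideal A} (e : I = I') (h : I ≤ I.comap σ)
    (h' : I' ≤ I'.comap σ) :
    LinearMap.trace ℂ _ (tq σ I h) = LinearMap.trace ℂ _ (tq σ I' h') := by
  subst e; rfl

lemma main_lemma (hA : ∀ I : Ideal A, Prim I → Module.Finite ℂ (A ⧸ I)) (n : ℕ) :
    ∀ (J : Ideal A) (zs fs : List A), zs.length = n → fs.length = n →
      IsWeaklyRegular (A ⧸ J) zs → (∀ z ∈ zs, z ∈ maximalIdeal A) →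
      (∀ f ∈ fs, f ∈ maximalIdeal A) → J ≤ maximalIdeal A →
      Prim (J ⊔ Ideal.ofList zs) → Prim (J ⊔ Ideal.ofList fs) →
      IsWeaklyRegular (A ⧸ J) fs ∧
        ∀ (σ : A →ₐ[ℂ] A) (cs : List ℂ), J ≤ J.comap σ → (∀ c ∈ cs, c ≠ 1) →
          List.Forall₂ (fun z c => σ z = c • z) zs cs →
          List.Forall₂ (fun f c => σ f = c • f) fs cs →
          ∀ (h1 : J ⊔ Ideal.ofList fs ≤ (J ⊔ Ideal.ofList fs).comap σ)
            (h2 : J ⊔ Ideal.ofList zs ≤ (J ⊔ Ideal.ofList zs).comap σ),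
          LinearMap.trace ℂ _ (tq σ (J ⊔ Ideal.ofList fs) h1)
            = LinearMap.trace ℂ _ (tq σ (J ⊔ Ideal.ofList zs) h2) := by
  induction n with
  | zero =>
    intro J zs fs hz hf
    rw [List.length_eq_zero_iff] at hz hf
    subst hz hf
    intro h _ _ _ _ _
    refine ⟨h, ?_⟩
    intro σ cs _ _ _ _ h1 h2
    rfl
  | succ n ih =>
    intro J zs fs hz hf hreg hzm hfm hJm hPz hPf
    match zs, fs, hz, hf with
    | z :: zs', f :: fs', hz, hf =>
    simp only [List.length_cons, Nat.add_right_cancel_iff] at hz hf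
    have hzm0 : z ∈ maximalIdeal A := hzm z List.mem_cons_self
    have hfm0 : f ∈ maximalIdeal A := hfm f List.mem_cons_self
    have hzm' : ∀ x ∈ zs', x ∈ maximalIdeal A := fun x hx => hzm x (List.mem_cons_of_mem _ hx)
    have hfm' : ∀ x ∈ fs', x ∈ maximalIdeal A := fun x hx => hfm x (List.mem_cons_of_mem _ hx)
    set Jz := J ⊔ Ideal.ofList zs' with hJz
    set Jf := J ⊔ Ideal.ofList fs' with hJf
    have hJzm : Jz ≤ maximalIdeal A := sup_le hJm (Ideal.span_le.2 hzm')
    have hJfm : Jf ≤ maximalIdeal A := sup_le hJm (Ideal.span_le.2 hfm')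
    have ez : J ⊔ Ideal.ofList (z :: zs') = Jz ⊔ Ideal.span {z} := by
      rw [Ideal.ofList_cons, hJz, sup_comm (Ideal.span {z}), sup_assoc]
    have ef : J ⊔ Ideal.ofList (f :: fs') = Jf ⊔ Ideal.span {f} := by
      rw [Ideal.ofList_cons, hJf, sup_comm (Ideal.span {f}), sup_assoc]
    have hPz' : Prim (Jz ⊔ Ideal.span {z}) := ez ▸ hPz
    have hPf' : Prim (Jf ⊔ Ideal.span {f}) := ef ▸ hPf
    obtain ⟨hregz', hzreg⟩ := (append_iff J zs' z).1 ((swap_iff J zs' z hzm0 hzm').1 hreg)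
    let S : Set (Ideal A) := associatedPrimes A (A ⧸ Jz) ∪
      ({p ∈ Jz.minimalPrimes | p ≠ maximalIdeal A} ∪ {p ∈ Jf.minimalPrimes | p ≠ maximalIdeal A})
    have hS : S.Finite := by
      refine (associatedPrimes.finite A (A ⧸ Jz)).union (Set.Finite.union ?_ ?_)
      · exact (Ideal.finite_minimalPrimes_of_isNoetherianRing A Jz).subset fun p hp => hp.1
      · exact (Ideal.finite_minimalPrimes_of_isNoetherianRing A Jf).subset fun p hp => hp.1
    have hSp : ∀ p ∈ S, ¬ (z ∈ p ∧ f ∈ p) := by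
      rintro p (hp | hp | hp) ⟨hzp, hfp⟩
      · exact not_mem_ass Jz z hzreg p hp hzp
      · refine hp.2 (hPz' p hp.1.isPrime (sup_le hp.1.le ?_))
        rw [Ideal.span_le]; rintro x rfl; exact hzp
      · refine hp.2 (hPf' p hp.1.isPrime (sup_le hp.1.le ?_))
        rw [Ideal.span_le]; rintro x rfl; exact hfp
    obtain ⟨t, ht⟩ := exists_good S hS z f hSp
    set g := z + t • f with hg
    have hgm : g ∈ maximalIdeal A := by
      refine Ideal.add_mem _ hzm0 ?_
      rw [Algebra.smul_def]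
      exact Ideal.mul_mem_left _ _ hfm0
    have hgregz : ∀ a, g * a ∈ Jz → a ∈ Jz :=
      reg_of_not_mem_ass Jz g fun p hp => ht p (Or.inl hp)
    have hPzg : Prim (Jz ⊔ Ideal.span {g}) := prim_insert Jz z g hPz' hzm0 hJzm
      fun p hp hne => ht p (Or.inr (Or.inl ⟨hp, hne⟩))
    have hPfg : Prim (Jf ⊔ Ideal.span {g}) := prim_insert Jf f g hPf' hfm0 hJfm
      fun p hp hne => ht p (Or.inr (Or.inr ⟨hp, hne⟩))
    have hgz : IsWeaklyRegular (A ⧸ J) (g :: zs') :=
      (swap_iff J zs' g hgm hzm').2 ((append_iff J zs' g).2 ⟨hregz', hgregz⟩)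
    obtain ⟨hgJ, hregJ'⟩ := (cons_iff J zs' g).1 hgz
    set J' := J ⊔ Ideal.span {g} with hJ'
    have hJ'm : J' ≤ maximalIdeal A := sup_le hJm (Ideal.span_le.2 (by rintro x rfl; exact hgm))
    have ez' : J' ⊔ Ideal.ofList zs' = Jz ⊔ Ideal.span {g} := by
      rw [hJ', hJz, sup_assoc, sup_comm (Ideal.span {g}), sup_assoc]
    have ef' : J' ⊔ Ideal.ofList fs' = Jf ⊔ Ideal.span {g} := by
      rw [hJ', hJf, sup_assoc, sup_comm (Ideal.span {g}), sup_assoc]
    obtain ⟨ih1, ih2⟩ := ih J' zs' fs' hz hf hregJ' hzm' hfm' hJ'm (ez' ▸ hPzg) (ef' ▸ hPfg)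
    have hgf : IsWeaklyRegular (A ⧸ J) (g :: fs') := (cons_iff J fs' g).2 ⟨hgJ, ih1⟩
    obtain ⟨hregf', hgregf⟩ := (append_iff J fs' g).1 ((swap_iff J fs' g hgm hfm').1 hgf)
    have hfreg : ∀ a, f * a ∈ Jf → a ∈ Jf := by
      refine reg_of_not_mem_ass Jf f fun p hp hfp => ?_
      have hpm : p = maximalIdeal A := by
        refine hPf' p (IsAssociatedPrime.isPrime hp) (sup_le (le_of_mem_ass Jf p hp) ?_)
        rw [Ideal.span_le]; rintro x rfl; exact hfp
      exact not_mem_ass Jf g hgregf p hp (hpm ▸ hgm)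
    refine ⟨(swap_iff J fs' f hfm0 hfm').2 ((append_iff J fs' f).2 ⟨hregf', hfreg⟩), ?_⟩
    intro σ cs hJσ hcs hzc hfc h1 h2
    cases hzc with
    | @cons _ c _ cs' hzc hzc' =>
    cases hfc with
    | cons hfc hfc' =>
    have hc : c ≠ 1 := hcs c List.mem_cons_self
    have hcs' : ∀ c ∈ cs', c ≠ 1 := fun x hx => hcs x (List.mem_cons_of_mem _ hx)
    have hgc : σ g = c • g := by
      rw [hg, map_add, map_smul, hzc, hfc, smul_add, smul_comm]
    have hJzσ : Jz ≤ Jz.comap σ := stable_ofList σ J hJσ zs' cs' hzc'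
    have hJfσ : Jf ≤ Jf.comap σ := stable_ofList σ J hJσ fs' cs' hfc'
    have hJ'σ : J' ≤ J'.comap σ := stable_span σ J hJσ g c hgc
    have k1 := stable_span σ Jf hJfσ f c hfc
    have k2 := stable_span σ Jf hJfσ g c hgc
    have k3 := stable_span σ Jz hJzσ z c hzc
    have k4 := stable_span σ Jz hJzσ g c hgc
    have hmulP : ∀ (I : Ideal A) (x y : A), Prim (I ⊔ Ideal.span {x}) →
        Prim (I ⊔ Ideal.span {y}) → Prim (I ⊔ Ideal.span {x * y}) := by
      intro I x y hx hy p hp hle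
      have hxy : x * y ∈ p := hle (Ideal.mem_sup_right (Ideal.mem_span_singleton_self _))
      rcases hp.mem_or_mem hxy with h | h
      · refine hx p hp (sup_le (le_sup_left.trans hle) ?_)
        rw [Ideal.span_le]; rintro w rfl; exact h
      · refine hy p hp (sup_le (le_sup_left.trans hle) ?_)
        rw [Ideal.span_le]; rintro w rfl; exact h
    have E1 := exch σ Jf f g c hc hfc hgc hfreg hgregf hJfσ k1 k2
      (hA _ (hmulP _ _ _ hPf' hPfg)) (hA _ hPf') (hA _ hPfg)
    have E2 := exch σ Jz z g c hc hzc hgc hzreg hgregz hJzσ k3 k4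
      (hA _ (hmulP _ _ _ hPz' hPzg)) (hA _ hPz') (hA _ hPzg)
    have m1 : J' ⊔ Ideal.ofList fs' ≤ (J' ⊔ Ideal.ofList fs').comap σ := by
      rw [ef']; exact k2
    have m2 : J' ⊔ Ideal.ofList zs' ≤ (J' ⊔ Ideal.ofList zs').comap σ := by
      rw [ez']; exact k4
    have E3 := ih2 σ cs' hJ'σ hcs' hzc' hfc' m1 m2
    rw [tr_congr σ ef h1 k1, E1, tr_congr σ ef'.symm k2 m1, E3, tr_congr σ ez' m2 k4, ← E2,
      tr_congr σ ez.symm k3 h2]

end main

section power

variable {n : ℕ}

lemma mem_span_X_iff (S : Finset (Fin n)) (a : MvPowerSeries (Fin n) ℂ) :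
    a ∈ Ideal.span (MvPowerSeries.X '' (S : Set (Fin n)) : Set (MvPowerSeries (Fin n) ℂ)) ↔
      ∀ m : Fin n →₀ ℕ, (∀ j ∈ S, m j = 0) → MvPowerSeries.coeff m a = 0 := by
  classical
  constructor
  · intro ha m hm
    refine Submodule.span_induction (p := fun a _ => MvPowerSeries.coeff m a = 0) ?_ ?_ ?_ ?_ ha
    · rintro _ ⟨j, hj, rfl⟩
      rw [MvPowerSeries.coeff_X, if_neg]
      intro h
      have := hm j hj
      rw [h] at this
      simp at this
    · simp
    · intro x y _ _ hx hy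
      rw [map_add, hx, hy, add_zero]
    · intro b x hx0 _
      have hx : ∀ m' : Fin n →₀ ℕ, (∀ j ∈ S, m' j = 0) → MvPowerSeries.coeff m' x = 0 := by
        intro m' hm'
        refine Submodule.span_induction
          (p := fun a _ => ∀ m' : Fin n →₀ ℕ, (∀ j ∈ S, m' j = 0) → MvPowerSeries.coeff m' a = 0)
          ?_ ?_ ?_ ?_ hx0 m' hm'
        · rintro _ ⟨j, hj, rfl⟩ m' hm'
          rw [MvPowerSeries.coeff_X, if_neg]
          intro h
          have := hm' j hj
          rw [h] at this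
          simp at this
        · simp
        · intro x y _ _ hx hy m' hm'
          rw [map_add, hx m' hm', hy m' hm', add_zero]
        · intro c y _ hy m' hm'
          rw [smul_eq_mul, MvPowerSeries.coeff_mul]
          refine Finset.sum_eq_zero fun p hp => ?_
          rw [hy p.2, mul_zero]
          intro j hj
          have h1 := Finset.HasAntidiagonal.mem_antidiagonal.1 hp
          have h2 := hm' j hj
          rw [← h1] at h2
          simp at h2
          exact h2.2
      rw [smul_eq_mul, MvPowerSeries.coeff_mul]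
      refine Finset.sum_eq_zero fun p hp => ?_
      rw [hx p.2, mul_zero]
      intro j hj
      have h1 := Finset.HasAntidiagonal.mem_antidiagonal.1 hp
      have h2 := hm j hj
      rw [← h1] at h2
      simp at h2
      exact h2.2
  · induction S using Finset.induction_on generalizing a with
    | empty =>
      intro h
      have : a = 0 := by
        ext m
        exact h m (by simp)
      rw [this]
      exact Ideal.zero_mem _
    | insert s S hs ih =>
      intro h
      let b : MvPowerSeries (Fin n) ℂ := fun m => if m s = 0 then MvPowerSeries.coeff m a else 0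
      have hb : ∀ m, MvPowerSeries.coeff m b = if m s = 0 then MvPowerSeries.coeff m a else 0 :=
        fun m => rfl
      have hb1 : b ∈ Ideal.span (MvPowerSeries.X '' (S : Set (Fin n)) :
          Set (MvPowerSeries (Fin n) ℂ)) := by
        apply ih
        intro m hm
        rw [hb]
        split_ifs with h1
        · apply h
          intro j hj
          rcases Finset.mem_insert.1 hj with rfl | hj
          · exact h1
          · exact hm j hj
        · rfl
      have hb2 : (MvPowerSeries.X s : MvPowerSeries (Fin n) ℂ) ∣ (a - b) := by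
        rw [MvPowerSeries.X_dvd_iff]
        intro m hm
        rw [map_sub, hb, if_pos hm, sub_self]
      have hs1 : (MvPowerSeries.X s : MvPowerSeries (Fin n) ℂ) ∈
          Ideal.span (MvPowerSeries.X '' ((insert s S : Finset (Fin n)) : Set (Fin n)) :
            Set (MvPowerSeries (Fin n) ℂ)) :=
        Ideal.subset_span ⟨s, by simp, rfl⟩
      have e : a = b + (a - b) := by ring
      rw [e]
      refine Ideal.add_mem _ ?_ (Ideal.mem_of_dvd _ hb2 hs1)
      exact Ideal.span_mono (Set.image_mono (by simp)) hb1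

lemma X_reg (S : Finset (Fin n)) (i : Fin n) (hi : i ∉ S) (a : MvPowerSeries (Fin n) ℂ)
    (ha : MvPowerSeries.X i * a ∈
      Ideal.span (MvPowerSeries.X '' (S : Set (Fin n)) : Set (MvPowerSeries (Fin n) ℂ))) :
    a ∈ Ideal.span (MvPowerSeries.X '' (S : Set (Fin n)) : Set (MvPowerSeries (Fin n) ℂ)) := by
  rw [mem_span_X_iff] at ha ⊢
  intro m hm
  have := ha (Finsupp.single i 1 + m) ?_
  · rw [MvPowerSeries.X, MvPowerSeries.coeff_add_monomial_mul, one_mul] at this
    exact this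
  · intro j hj
    have hne : i ≠ j := fun h => hi (h ▸ hj)
    simp [hne, hm j hj]

lemma X_list_reg (l : List (Fin n)) : ∀ (S : Finset (Fin n)), l.Nodup → (∀ i ∈ l, i ∉ S) →
    IsWeaklyRegular (MvPowerSeries (Fin n) ℂ ⧸
      Ideal.span (MvPowerSeries.X '' (S : Set (Fin n)) : Set (MvPowerSeries (Fin n) ℂ)))
      (l.map (MvPowerSeries.X : Fin n → MvPowerSeries (Fin n) ℂ)) := by
  classical
  induction l with
  | nil => intro S _ _; exact IsWeaklyRegular.nil _ _
  | cons i l ih =>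
    intro S hnd hS
    rw [List.map_cons, cons_iff]
    refine ⟨fun a ha => X_reg S i (hS i List.mem_cons_self) a ha, ?_⟩
    have e : Ideal.span (MvPowerSeries.X '' (S : Set (Fin n)) : Set (MvPowerSeries (Fin n) ℂ)) ⊔
        Ideal.span {MvPowerSeries.X i} =
        Ideal.span (MvPowerSeries.X '' ((insert i S : Finset (Fin n)) : Set (Fin n)) :
            Set (MvPowerSeries (Fin n) ℂ)) := by
      rw [Finset.coe_insert, Set.image_insert_eq, Ideal.span_insert, sup_comm]
    rw [e]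
    refine ih (insert i S) hnd.of_cons ?_
    intro j hj hj2
    rcases Finset.mem_insert.1 hj2 with rfl | hj2
    · exact (List.nodup_cons.1 hnd).1 hj
    · exact hS j (List.mem_cons_of_mem _ hj) hj2

lemma maxIdeal_eq : maximalIdeal (MvPowerSeries (Fin n) ℂ) =
    Ideal.span (Set.range (MvPowerSeries.X : Fin n → MvPowerSeries (Fin n) ℂ)) := by
  ext a
  have h1 := mem_span_X_iff Finset.univ a
  rw [Finset.coe_univ, Set.image_univ] at h1
  rw [h1, mem_maximalIdeal, mem_nonunits_iff, MvPowerSeries.isUnit_iff_constantCoeff,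
    isUnit_iff_ne_zero, not_not]
  constructor
  · intro h m hm
    have : m = 0 := by ext j; simpa using hm j (Finset.mem_univ j)
    rw [this]
    exact h
  · intro h
    exact h 0 (by simp)

lemma exists_poly (k : ℕ) : ∃ U : Submodule ℂ (MvPolynomial (Fin n) ℂ), U.FG ∧
    ∀ a : MvPowerSeries (Fin n) ℂ, ∃ p ∈ U, a - (p : MvPowerSeries (Fin n) ℂ) ∈
      maximalIdeal (MvPowerSeries (Fin n) ℂ) ^ k := by
  induction k with
  | zero => exact ⟨⊥, Submodule.fg_bot, fun a => ⟨0, Submodule.zero_mem _, by simp⟩⟩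
  | succ k ih =>
    obtain ⟨U, hU, h⟩ := ih
    refine ⟨Submodule.span ℂ {1} ⊔ ⨆ i : Fin n,
      Submodule.map (LinearMap.mulLeft ℂ (MvPolynomial.X i)) U, ?_, ?_⟩
    · refine Submodule.FG.sup (Submodule.fg_span_singleton 1) ?_
      exact Submodule.fg_iSup _ fun i => hU.map _
    · intro a
      have h1 : a - MvPowerSeries.C (MvPowerSeries.constantCoeff a) ∈
          maximalIdeal (MvPowerSeries (Fin n) ℂ) := by
        rw [mem_maximalIdeal, mem_nonunits_iff, MvPowerSeries.isUnit_iff_constantCoeff,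
          isUnit_iff_ne_zero, not_not]
        simp
      rw [maxIdeal_eq, Ideal.mem_span_range_iff_exists_fun] at h1
      obtain ⟨c, hc⟩ := h1
      choose p hp1 hp2 using fun i => h (c i)
      refine ⟨MvPolynomial.C (MvPowerSeries.constantCoeff a) + ∑ i, MvPolynomial.X i * p i,
        ?_, ?_⟩
      · refine Submodule.add_mem_sup ?_ ?_
        · rw [Submodule.mem_span_singleton]
          exact ⟨MvPowerSeries.constantCoeff a, by rw [MvPolynomial.smul_eq_C_mul, mul_one]⟩
        · refine Submodule.sum_mem _ fun i _ => ?_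
          exact Submodule.mem_iSup_of_mem i ⟨p i, hp1 i, rfl⟩
      · have e : a - ((MvPolynomial.C (MvPowerSeries.constantCoeff a) +
            ∑ i, MvPolynomial.X i * p i : MvPolynomial (Fin n) ℂ) : MvPowerSeries (Fin n) ℂ)
            = ∑ i, (c i - (p i : MvPowerSeries (Fin n) ℂ)) * MvPowerSeries.X i := by
          have e1 : ((MvPolynomial.C (MvPowerSeries.constantCoeff a) +
            ∑ i, MvPolynomial.X i * p i : MvPolynomial (Fin n) ℂ) : MvPowerSeries (Fin n) ℂ)
            = MvPowerSeries.C (MvPowerSeries.constantCoeff a) +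
              ∑ i, (MvPowerSeries.X i : MvPowerSeries (Fin n) ℂ) * p i := by
            rw [MvPolynomial.coe_add, MvPolynomial.coe_C]
            congr 1
            rw [← MvPolynomial.coeToMvPowerSeries.ringHom_apply, map_sum]
            refine Finset.sum_congr rfl fun i _ => ?_
            rw [MvPolynomial.coeToMvPowerSeries.ringHom_apply, MvPolynomial.coe_mul,
              MvPolynomial.coe_X]
          rw [e1, ← sub_sub, ← hc, ← Finset.sum_sub_distrib]
          refine Finset.sum_congr rfl fun i _ => ?_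
          ring
        rw [e, pow_succ]
        refine Ideal.sum_mem _ fun i _ => Ideal.mul_mem_mul (hp2 i) ?_
        rw [maxIdeal_eq]
        exact Ideal.subset_span ⟨i, rfl⟩

lemma pow_le_of_prim (I : Ideal (MvPowerSeries (Fin n) ℂ)) (hI : Prim I) :
    ∃ k, maximalIdeal (MvPowerSeries (Fin n) ℂ) ^ k ≤ I := by
  refine Ideal.exists_pow_le_of_le_radical_of_fg ?_ (IsNoetherian.noetherian _)
  rw [Ideal.radical_eq_sInf]
  refine le_sInf ?_
  rintro p ⟨hp1, hp2⟩
  exact (hI p hp2 hp1).ge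

lemma finite_of_prim (I : Ideal (MvPowerSeries (Fin n) ℂ)) (hI : Prim I) :
    Module.Finite ℂ (MvPowerSeries (Fin n) ℂ ⧸ I) := by
  obtain ⟨k, hk⟩ := pow_le_of_prim I hI
  obtain ⟨U, hU, h⟩ := exists_poly (n := n) k
  let φ : MvPolynomial (Fin n) ℂ →ₗ[ℂ] (MvPowerSeries (Fin n) ℂ ⧸ I) :=
    (Ideal.Quotient.mkₐ ℂ I).toLinearMap ∘ₗ
      (MvPolynomial.coeToMvPowerSeries.algHom (R := ℂ) ℂ).toLinearMap
  have hφ : ∀ p, φ p = Ideal.Quotient.mk I (p : MvPowerSeries (Fin n) ℂ) := by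
    intro p
    simp [φ]
  refine ⟨?_⟩
  have : (⊤ : Submodule ℂ (MvPowerSeries (Fin n) ℂ ⧸ I)) = U.map φ := by
    refine le_antisymm ?_ le_top
    intro x _
    obtain ⟨a, rfl⟩ := Ideal.Quotient.mk_surjective x
    obtain ⟨p, hp, hap⟩ := h a
    refine ⟨p, hp, ?_⟩
    rw [hφ]
    exact (Ideal.Quotient.eq.2 (hk hap)).symm
  rw [this]
  exact hU.map φ

lemma hom_ext_nilp (B : Type) [CommRing B] [Algebra ℂ B] (N : Ideal B) (k : ℕ)
    (hN : N ^ k = ⊥) (φ ψ : MvPowerSeries (Fin n) ℂ →ₐ[ℂ] B)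
    (h : ∀ i, φ (MvPowerSeries.X i) = ψ (MvPowerSeries.X i))
    (hφ : ∀ i, φ (MvPowerSeries.X i) ∈ N) : φ = ψ := by
  have key : ∀ χ : MvPowerSeries (Fin n) ℂ →ₐ[ℂ] B, (∀ i, χ (MvPowerSeries.X i) ∈ N) →
      ∀ a ∈ maximalIdeal (MvPowerSeries (Fin n) ℂ) ^ k, χ a = 0 := by
    intro χ hχ a ha
    have h1 : Ideal.map χ (maximalIdeal (MvPowerSeries (Fin n) ℂ)) ≤ N := by
      rw [maxIdeal_eq, Ideal.map_span, Ideal.span_le]
      rintro _ ⟨_, ⟨i, rfl⟩, rfl⟩
      exact hχ i
    have h2 : χ a ∈ Ideal.map χ (maximalIdeal (MvPowerSeries (Fin n) ℂ) ^ k) :=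
      Ideal.mem_map_of_mem χ ha
    rw [Ideal.map_pow] at h2
    have h3 := Ideal.pow_right_mono h1 k h2
    rw [hN] at h3
    exact h3
  ext a
  obtain ⟨U, _, hU⟩ := exists_poly (n := n) k
  obtain ⟨p, _, hap⟩ := hU a
  have e : a = (p : MvPowerSeries (Fin n) ℂ) + (a - p) := by ring
  have hpoly : φ.comp (MvPolynomial.coeToMvPowerSeries.algHom (R := ℂ) ℂ) =
      ψ.comp (MvPolynomial.coeToMvPowerSeries.algHom (R := ℂ) ℂ) := by
    apply MvPolynomial.algHom_ext
    intro i
    simp [h i]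
  have hp : φ (p : MvPowerSeries (Fin n) ℂ) = ψ p := by
    have := congrArg (fun χ => χ p) hpoly
    simpa using this
  rw [e, map_add, map_add, hp, key φ hφ _ hap, key ψ (fun i => h i ▸ hφ i) _ hap]

lemma prim_of_finite (I : Ideal (MvPowerSeries (Fin n) ℂ))
    [Module.Finite ℂ (MvPowerSeries (Fin n) ℂ ⧸ I)] : Prim I := by
  intro p hp hle
  have : IsArtinianRing (MvPowerSeries (Fin n) ℂ ⧸ I) :=
    IsArtinianRing.of_finite ℂ (MvPowerSeries (Fin n) ℂ ⧸ I)
  have hq : (p.map (Ideal.Quotient.mk I)).IsPrime := by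
    refine Ideal.map_isPrime_of_surjective Ideal.Quotient.mk_surjective ?_
    rwa [Ideal.mk_ker]
  have hqm : (p.map (Ideal.Quotient.mk I)).IsMaximal := inferInstance
  have hpm : p.IsMaximal := by
    have := Ideal.comap_isMaximal_of_surjective (Ideal.Quotient.mk I)
      Ideal.Quotient.mk_surjective (K := p.map (Ideal.Quotient.mk I))
    rwa [Ideal.comap_map_of_surjective _ Ideal.Quotient.mk_surjective,
      ← RingHom.ker_eq_comap_bot, Ideal.mk_ker, sup_eq_left.2 hle] at this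
  exact IsLocalRing.eq_maximalIdeal hpm

end power

section linear

lemma span_linear {V A ι : Type} [AddCommGroup V] [Module ℂ V] [CommRing A] [Algebra ℂ A]
    (b : Module.Basis ι ℂ V) (M : V →ₗ[ℂ] A) :
    Ideal.span (Set.range fun i => M (b i)) = Ideal.span (Set.range M) := by
  apply le_antisymm
  · apply Ideal.span_mono
    rintro _ ⟨i, rfl⟩
    exact ⟨b i, rfl⟩
  · rw [Ideal.span_le]
    rintro _ ⟨v, rfl⟩
    have hv : v ∈ Submodule.span ℂ (Set.range b) := by rw [b.span_eq]; trivial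
    refine Submodule.span_induction
      (p := fun v _ => M v ∈ Ideal.span (Set.range fun i => M (b i))) ?_ ?_ ?_ ?_ hv
    · rintro _ ⟨i, rfl⟩
      exact Ideal.subset_span ⟨i, rfl⟩
    · simp
    · intro x y _ _ hx hy
      rw [map_add]; exact Ideal.add_mem _ hx hy
    · intro c x _ hx
      rw [map_smul, Algebra.smul_def]
      exact Ideal.mul_mem_left _ _ hx

lemma exists_eigenbasis {n N : ℕ} (hN : N ≠ 0) (s : Module.End ℂ (Fin n → ℂ)) (hs : s ^ N = 1) :
    ∃ (ι : Type) (_ : Fintype ι) (v : Module.Basis ι ℂ (Fin n → ℂ)) (μ : ι → ℂ),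
      Fintype.card ι = n ∧ ∀ i, s (v i) = μ i • v i := by
  classical
  have hss : s.IsSemisimple := by
    apply Module.End.isSemisimple_of_squarefree_aeval_eq_zero (p := (Polynomial.X ^ N - 1 : Polynomial ℂ))
    · apply Polynomial.Separable.squarefree
      rw [Polynomial.X_pow_sub_one_separable_iff]
      exact_mod_cast hN
    · simp [hs]
  let eigenDecomp := DirectSum.isInternal_submodule_of_iSupIndep_of_iSup_eq_top
    s.eigenspaces_iSupIndep hss.iSup_eigenspace_eq_top
  let I := (ν : ℂ) × Fin (Module.finrank ℂ (s.eigenspace ν))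
  let v : Module.Basis I ℂ (Fin n → ℂ) :=
    eigenDecomp.collectedBasis fun μ ↦ Module.finBasis ℂ (s.eigenspace μ)
  have inst : Fintype I := FiniteDimensional.fintypeBasisIndex v
  let μ : I → ℂ := Sigma.fst
  have hsv (i : I) : s (v i) = μ i • v i :=
    Module.End.mem_eigenspace_iff.mp (eigenDecomp.collectedBasis_mem _ i)
  refine ⟨I, inst, v, μ, ?_, hsv⟩
  rw [← Module.finrank_eq_card_basis v, Module.finrank_fin_fun]

end linear

section core

variable {n : ℕ}

lemma core (ι : Type) [Fintype ι] (hcard : Fintype.card ι = n)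
    (Y F : ι → MvPowerSeries (Fin n) ℂ) (μ : ι → ℂ)
    (σ : MvPowerSeries (Fin n) ℂ →ₐ[ℂ] MvPowerSeries (Fin n) ℂ)
    (hYσ : ∀ i, σ (Y i) = μ i • Y i) (hFσ : ∀ i, σ (F i) = μ i • F i)
    (hYm : ∀ i, Y i ∈ maximalIdeal (MvPowerSeries (Fin n) ℂ))
    (hFm : ∀ i, F i ∈ maximalIdeal (MvPowerSeries (Fin n) ℂ))
    (hFK : ∀ i, μ i ≠ 1 → F i ∈ Ideal.span (Y '' {i | μ i ≠ 1}))
    (hP : Prim (Ideal.span (Set.range F)))
    (h1 : Ideal.span (Set.range F) ≤ (Ideal.span (Set.range F)).comap σ)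
    (h2 : Ideal.span (Set.range F) ⊔ Ideal.span (Y '' {i | μ i ≠ 1}) ≤
      (Ideal.span (Set.range F) ⊔ Ideal.span (Y '' {i | μ i ≠ 1})).comap σ) :
    LinearMap.trace ℂ _ (tq σ (Ideal.span (Set.range F)) h1) =
      LinearMap.trace ℂ _
        (tq σ (Ideal.span (Set.range F) ⊔ Ideal.span (Y '' {i | μ i ≠ 1})) h2) := by
  classical
  let l : List ι := (Finset.univ : Finset ι).toList
  let l1 : List ι := l.filter fun i => decide (μ i = 1)
  let l2 : List ι := l.filter fun i => !decide (μ i = 1)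
  have hl12 : List.Perm (l1 ++ l2) l := List.filter_append_perm _ l
  have hlen : (l1 ++ l2).length = n := by
    rw [hl12.length_eq, Finset.length_toList, Finset.card_univ, hcard]
  have hmem : ∀ i, i ∈ l1 ++ l2 := fun i => hl12.mem_iff.2 (Finset.mem_toList.2 (Finset.mem_univ i))
  have hm1 : ∀ i, i ∈ l1 ↔ μ i = 1 := by
    intro i
    simp [l1, l]
  have hm2 : ∀ i, i ∈ l2 ↔ μ i ≠ 1 := by
    intro i
    simp [l2, l]
  -- the list of variables
  let xs : List (MvPowerSeries (Fin n) ℂ) := (List.finRange n).map MvPowerSeries.X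
  have hxs : IsWeaklyRegular (MvPowerSeries (Fin n) ℂ ⧸ (⊥ : Ideal (MvPowerSeries (Fin n) ℂ)))
      xs := by
    have := X_list_reg (List.finRange n) ∅ (List.nodup_finRange n) (by simp)
    have e0 : Ideal.span (MvPowerSeries.X '' ((∅ : Finset (Fin n)) : Set (Fin n)) :
        Set (MvPowerSeries (Fin n) ℂ)) = ⊥ := by simp
    rw [e0] at this
    exact this
  have hxlen : xs.length = n := by simp [xs]
  have hxm : ∀ z ∈ xs, z ∈ maximalIdeal (MvPowerSeries (Fin n) ℂ) := by
    intro z hz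
    obtain ⟨i, _, rfl⟩ := List.mem_map.1 hz
    rw [maxIdeal_eq]
    exact Ideal.subset_span ⟨i, rfl⟩
  have hxP : Prim (⊥ ⊔ Ideal.ofList xs) := by
    intro p hp hle
    have : maximalIdeal (MvPowerSeries (Fin n) ℂ) ≤ p := by
      rw [maxIdeal_eq, Ideal.span_le]
      rintro _ ⟨i, rfl⟩
      refine hle (Ideal.mem_sup_right (Ideal.subset_span ?_))
      exact List.mem_map.2 ⟨i, List.mem_finRange i, rfl⟩
    exact le_antisymm (le_maximalIdeal hp.ne_top) this
  have hA : ∀ I : Ideal (MvPowerSeries (Fin n) ℂ), Prim I →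
      Module.Finite ℂ (MvPowerSeries (Fin n) ℂ ⧸ I) := finite_of_prim
  -- the two ideals
  have eF : Ideal.ofList (l1.map F) ⊔ Ideal.ofList (l2.map F) = Ideal.span (Set.range F) := by
    rw [← Ideal.ofList_append, ← List.map_append]
    refine congrArg Ideal.span (Set.ext fun x => ?_)
    constructor
    · intro hx
      obtain ⟨i, _, h⟩ := List.mem_map.1 hx
      exact ⟨i, h⟩
    · rintro ⟨i, h⟩
      exact List.mem_map.2 ⟨i, hmem i, h⟩
  have eY2 : Ideal.ofList (l2.map Y) = Ideal.span (Y '' {i | μ i ≠ 1}) := by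
    refine congrArg Ideal.span (Set.ext fun x => ?_)
    constructor
    · intro hx
      obtain ⟨i, hi, h⟩ := List.mem_map.1 hx
      exact ⟨i, (hm2 i).1 hi, h⟩
    · rintro ⟨i, hi, h⟩
      exact List.mem_map.2 ⟨i, (hm2 i).2 hi, h⟩
  have eY : Ideal.ofList (l1.map F) ⊔ Ideal.ofList (l2.map Y) =
      Ideal.span (Set.range F) ⊔ Ideal.span (Y '' {i | μ i ≠ 1}) := by
    rw [eY2, ← eF]
    apply le_antisymm
    · exact sup_le_sup_right le_sup_left _
    · refine sup_le (sup_le le_sup_left ?_) le_sup_right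
      refine le_trans ?_ le_sup_right
      refine Ideal.span_le.2 ?_
      intro x hx
      obtain ⟨i, hi, rfl⟩ := List.mem_map.1 hx
      exact hFK i ((hm2 i).1 hi)
  have hPF : Prim (⊥ ⊔ Ideal.ofList (l1.map F ++ l2.map F)) := by
    rw [bot_sup_eq, Ideal.ofList_append, eF]; exact hP
  have hPY : Prim (⊥ ⊔ Ideal.ofList (l1.map F ++ l2.map Y)) := by
    rw [bot_sup_eq, Ideal.ofList_append, eY]
    intro p hp hle
    exact hP p hp (le_sup_left.trans hle)
  have hmF : ∀ f ∈ l1.map F ++ l2.map F, f ∈ maximalIdeal (MvPowerSeries (Fin n) ℂ) := by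
    intro f hf
    rw [← List.map_append] at hf
    obtain ⟨i, _, rfl⟩ := List.mem_map.1 hf
    exact hFm i
  have hmY : ∀ f ∈ l1.map F ++ l2.map Y, f ∈ maximalIdeal (MvPowerSeries (Fin n) ℂ) := by
    intro f hf
    rcases List.mem_append.1 hf with hf | hf
    · obtain ⟨i, _, rfl⟩ := List.mem_map.1 hf
      exact hFm i
    · obtain ⟨i, _, rfl⟩ := List.mem_map.1 hf
      exact hYm i
  have hlen' : l1.length + l2.length = n := by rw [← List.length_append, hlen]
  have R1 := (main_lemma hA n ⊥ xs (l1.map F ++ l2.map F) hxlen (by simpa using hlen') hxs hxm hmF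
    bot_le hxP hPF).1
  have R2 := (main_lemma hA n ⊥ xs (l1.map F ++ l2.map Y) hxlen (by simpa using hlen') hxs hxm hmY
    bot_le hxP hPY).1
  rw [isWeaklyRegular_append_iff] at R1 R2
  have R1' := ((qqEquiv (⊥ : Ideal (MvPowerSeries (Fin n) ℂ))
    (Ideal.ofList (l1.map F))).isWeaklyRegular_congr _).1 R1.2
  have R2' := ((qqEquiv (⊥ : Ideal (MvPowerSeries (Fin n) ℂ))
    (Ideal.ofList (l1.map F))).isWeaklyRegular_congr _).1 R2.2
  rw [bot_sup_eq] at R1' R2'
  have hJm : Ideal.ofList (l1.map F) ≤ maximalIdeal (MvPowerSeries (Fin n) ℂ) :=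
    Ideal.span_le.2 fun x hx => hmF x (List.mem_append_left _ hx)
  have hF1 : List.Forall₂ (fun x c => σ x = c • x) (l1.map F) (l1.map μ) := by
    rw [List.forall₂_map_left_iff, List.forall₂_map_right_iff, List.forall₂_same]
    exact fun i _ => hFσ i
  have hF2 : List.Forall₂ (fun x c => σ x = c • x) (l2.map F) (l2.map μ) := by
    rw [List.forall₂_map_left_iff, List.forall₂_map_right_iff, List.forall₂_same]
    exact fun i _ => hFσ i
  have hY2 : List.Forall₂ (fun x c => σ x = c • x) (l2.map Y) (l2.map μ) := by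
    rw [List.forall₂_map_left_iff, List.forall₂_map_right_iff, List.forall₂_same]
    exact fun i _ => hYσ i
  have hJσ : Ideal.ofList (l1.map F) ≤ (Ideal.ofList (l1.map F)).comap σ := by
    have := stable_ofList σ ⊥ bot_le (l1.map F) (l1.map μ) hF1
    rwa [bot_sup_eq] at this
  have fin := (main_lemma hA l2.length (Ideal.ofList (l1.map F)) (l2.map Y) (l2.map F)
    (by simp) (by simp) R2' (fun z hz => hmY z (List.mem_append_right _ hz))
    (fun z hz => hmF z (List.mem_append_right _ hz)) hJm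
    (by rwa [bot_sup_eq, Ideal.ofList_append] at hPY)
    (by rwa [bot_sup_eq, Ideal.ofList_append] at hPF)).2 σ (l2.map μ) hJσ
    (by
      intro c hc
      obtain ⟨i, hi, rfl⟩ := List.mem_map.1 hc
      exact (hm2 i).1 hi)
    hY2 hF2 (stable_ofList σ _ hJσ _ _ hF2) (stable_ofList σ _ hJσ _ _ hY2)
  rw [tr_congr σ eF _ h1, tr_congr σ eY _ h2] at fin
  exact fin

end core

lemma tq_eq_of {n : ℕ} (σ : MvPowerSeries (Fin n) ℂ →ₐ[ℂ] MvPowerSeries (Fin n) ℂ)
    (I : Ideal (MvPowerSeries (Fin n) ℂ)) (h : I ≤ I.comap σ) (hI : Prim I)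
    (S : (MvPowerSeries (Fin n) ℂ ⧸ I) →ₐ[ℂ] (MvPowerSeries (Fin n) ℂ ⧸ I))
    (hS : ∀ i, S (Ideal.Quotient.mk I (MvPowerSeries.X i)) =
      Ideal.Quotient.mk I (σ (MvPowerSeries.X i)))
    (hm : ∀ i, σ (MvPowerSeries.X i) ∈ maximalIdeal (MvPowerSeries (Fin n) ℂ)) :
    tq σ I h = S.toLinearMap := by
  obtain ⟨k, hk⟩ := pow_le_of_prim I hI
  have h9 : (Ideal.Quotient.mkₐ ℂ I).comp σ = S.comp (Ideal.Quotient.mkₐ ℂ I) := by
    refine hom_ext_nilp _ ((maximalIdeal (MvPowerSeries (Fin n) ℂ)).map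
        (Ideal.Quotient.mk I)) k ?_ _ _ ?_ ?_
    · rw [← Ideal.map_pow, eq_bot_iff]
      refine (Ideal.map_mono hk).trans ?_
      rw [Ideal.map_quotient_self]
    · intro i
      exact (hS i).symm
    · intro i
      exact Ideal.mem_map_of_mem (Ideal.Quotient.mk _) (hm i)
  refine LinearMap.ext fun x => ?_
  obtain ⟨a, rfl⟩ := Ideal.Quotient.mk_surjective x
  rw [tq_mk]
  exact congrArg (fun χ => χ a) h9

/-- For a finite group acting linearly on C^n and an equivariant polynomial map with isolated zero at 0, the trace of each g on the local algebra C[[x]]/(f) equals the local multiplicity (degree) of f restricted to the fixed subspace of g. -/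
theorem result :
  ∀ (G : Type) [Group G] [Fintype G] (n : ℕ) (ρ : G →* Matrix (Fin n) (Fin n) ℂ)
    (f : Fin n → MvPolynomial (Fin n) ℂ),
    (∀ g : G, ∀ i : Fin n,
      MvPolynomial.aeval
          (fun j : Fin n => ∑ k : Fin n, ρ g j k • (MvPolynomial.X k : MvPolynomial (Fin n) ℂ))
          (f i)
        = ∑ j : Fin n, ρ g i j • f j) →
    (∀ i : Fin n, MvPolynomial.constantCoeff (f i) = 0) →
    Module.Finite ℂ (MvPowerSeries (Fin n) ℂ ⧸
      Ideal.span (Set.range (fun i : Fin n => (f i : MvPowerSeries (Fin n) ℂ)))) →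
    ∀ g : G,
    ∀ T : (MvPowerSeries (Fin n) ℂ ⧸
          Ideal.span (Set.range (fun i : Fin n => (f i : MvPowerSeries (Fin n) ℂ))))
        →ₐ[ℂ] (MvPowerSeries (Fin n) ℂ ⧸
          Ideal.span (Set.range (fun i : Fin n => (f i : MvPowerSeries (Fin n) ℂ)))),
      (∀ i : Fin n,
        T (Ideal.Quotient.mk
            (Ideal.span (Set.range (fun i : Fin n => (f i : MvPowerSeries (Fin n) ℂ))))
            (MvPowerSeries.X i))
          = Ideal.Quotient.mk
            (Ideal.span (Set.range (fun i : Fin n => (f i : MvPowerSeries (Fin n) ℂ))))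
            (∑ j : Fin n, ρ g i j • (MvPowerSeries.X j : MvPowerSeries (Fin n) ℂ))) →
      LinearMap.trace ℂ
          (MvPowerSeries (Fin n) ℂ ⧸
            Ideal.span (Set.range (fun i : Fin n => (f i : MvPowerSeries (Fin n) ℂ))))
          T.toLinearMap
        = ((Module.finrank ℂ
            (MvPowerSeries (Fin n) ℂ ⧸
              Ideal.span (Set.range (fun i : Fin n => (f i : MvPowerSeries (Fin n) ℂ)) ∪
                Set.range (fun i : Fin n =>
                  ∑ j : Fin n, (ρ g - 1) i j • (MvPowerSeries.X j : MvPowerSeries (Fin n) ℂ)))))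
            : ℂ) := by
  intro G _ _ n ρ f hequiv hconst hfin g T hT
  classical
  -- the right action of `ρ g` on row vectors and its eigenbasis
  let s : Module.End ℂ (Fin n → ℂ) := Matrix.vecMulLinear (ρ g)
  have hs_apply : ∀ v, s v = Matrix.vecMul v (ρ g) := fun v => rfl
  have hspow : ∀ k : ℕ, ∀ v, (s ^ k) v = Matrix.vecMul v (ρ g ^ k) := by
    intro k
    induction k with
    | zero => intro v; simp
    | succ k ih =>
      intro v
      rw [pow_succ', Module.End.mul_apply, ih, hs_apply, Matrix.vecMul_vecMul, pow_succ]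
  have hs1 : s ^ (Fintype.card G) = 1 := by
    refine LinearMap.ext fun v => ?_
    rw [hspow, ← map_pow, pow_card_eq_one, map_one, Matrix.vecMul_one]
    rfl
  obtain ⟨ι, _, v, μ, hcard, hv⟩ := exists_eigenbasis (Fintype.card_ne_zero (α := G)) s hs1
  -- the two linear maps from row vectors to power series
  let fA : Fin n → MvPowerSeries (Fin n) ℂ := fun i => (f i : MvPowerSeries (Fin n) ℂ)
  let LX : (Fin n → ℂ) →ₗ[ℂ] MvPowerSeries (Fin n) ℂ :=
    Fintype.linearCombination ℂ (MvPowerSeries.X : Fin n → MvPowerSeries (Fin n) ℂ)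
  let Lf : (Fin n → ℂ) →ₗ[ℂ] MvPowerSeries (Fin n) ℂ := Fintype.linearCombination ℂ fA
  have hLX : ∀ w, LX w = ∑ j, w j • (MvPowerSeries.X j : MvPowerSeries (Fin n) ℂ) := fun w => rfl
  have hLf : ∀ w, Lf w = ∑ j, w j • fA j := fun w => rfl
  -- the substitution
  have ha : MvPowerSeries.HasSubst (fun i : Fin n =>
      ∑ j : Fin n, ρ g i j • (MvPowerSeries.X j : MvPowerSeries (Fin n) ℂ)) := by
    apply MvPowerSeries.hasSubst_of_constantCoeff_zero
    intro i
    simp
  let σ : MvPowerSeries (Fin n) ℂ →ₐ[ℂ] MvPowerSeries (Fin n) ℂ := MvPowerSeries.substAlgHom ha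
  have hσX : ∀ i, σ (MvPowerSeries.X i) =
      ∑ j : Fin n, ρ g i j • (MvPowerSeries.X j : MvPowerSeries (Fin n) ℂ) := by
    intro i
    exact MvPowerSeries.substAlgHom_X ha i
  have hσp : ∀ p : MvPolynomial (Fin n) ℂ, σ (p : MvPowerSeries (Fin n) ℂ) =
      ((MvPolynomial.aeval (fun j : Fin n =>
        ∑ k : Fin n, ρ g j k • (MvPolynomial.X k : MvPolynomial (Fin n) ℂ)) p :
          MvPolynomial (Fin n) ℂ) : MvPowerSeries (Fin n) ℂ) := by
    intro p
    have e : σ.comp (MvPolynomial.coeToMvPowerSeries.algHom (R := ℂ) ℂ) =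
        (MvPolynomial.coeToMvPowerSeries.algHom (R := ℂ) ℂ).comp
          (MvPolynomial.aeval (fun j : Fin n =>
            ∑ k : Fin n, ρ g j k • (MvPolynomial.X k : MvPolynomial (Fin n) ℂ))) := by
      apply MvPolynomial.algHom_ext
      intro i
      simp [hσX]
    have := congrArg (fun χ => χ p) e
    simpa using this
  have hσf : ∀ i, σ (fA i) = ∑ j, ρ g i j • fA j := by
    intro i
    rw [hσp, hequiv g i, ← MvPolynomial.coeToMvPowerSeries.ringHom_apply, map_sum]
    refine Finset.sum_congr rfl fun j _ => ?_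
    rw [MvPolynomial.coeToMvPowerSeries.ringHom_apply, MvPolynomial.coe_smul]
  have hσLX : ∀ w, σ (LX w) = LX (s w) := by
    intro w
    rw [hLX, hLX, map_sum]
    simp_rw [map_smul, hσX, hs_apply, Matrix.vecMul, dotProduct, Finset.smul_sum, Finset.sum_smul,
      smul_smul]
    exact Finset.sum_comm
  have hσLf : ∀ w, σ (Lf w) = Lf (s w) := by
    intro w
    rw [hLf, hLf, map_sum]
    simp_rw [map_smul, hσf, hs_apply, Matrix.vecMul, dotProduct, Finset.smul_sum, Finset.sum_smul,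
      smul_smul]
    exact Finset.sum_comm
  let Y : ι → MvPowerSeries (Fin n) ℂ := fun i => LX (v i)
  let F : ι → MvPowerSeries (Fin n) ℂ := fun i => Lf (v i)
  have hYσ : ∀ i, σ (Y i) = μ i • Y i := fun i => by
    change σ (LX (v i)) = μ i • LX (v i)
    rw [hσLX, hv, map_smul]
  have hFσ : ∀ i, σ (F i) = μ i • F i := fun i => by
    change σ (Lf (v i)) = μ i • Lf (v i)
    rw [hσLf, hv, map_smul]
  have hXm : ∀ i, (MvPowerSeries.X i : MvPowerSeries (Fin n) ℂ) ∈
      maximalIdeal (MvPowerSeries (Fin n) ℂ) := by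
    intro i
    rw [maxIdeal_eq]
    exact Ideal.subset_span ⟨i, rfl⟩
  have hfm : ∀ i, fA i ∈ maximalIdeal (MvPowerSeries (Fin n) ℂ) := by
    intro i
    rw [mem_maximalIdeal, mem_nonunits_iff, MvPowerSeries.isUnit_iff_constantCoeff,
      isUnit_iff_ne_zero, not_not]
    have := hconst i
    rw [← MvPowerSeries.coeff_zero_eq_constantCoeff_apply, MvPolynomial.coeff_coe]
    exact this
  have hsum : ∀ (h : Fin n → MvPowerSeries (Fin n) ℂ) (w : Fin n → ℂ)
      (I : Ideal (MvPowerSeries (Fin n) ℂ)), (∀ i, h i ∈ I) → (∑ j, w j • h j) ∈ I := by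
    intro h w I hI
    refine Ideal.sum_mem _ fun j _ => ?_
    rw [Algebra.smul_def]
    exact Ideal.mul_mem_left _ _ (hI j)
  have hYm : ∀ i, Y i ∈ maximalIdeal (MvPowerSeries (Fin n) ℂ) := fun i => hsum _ _ _ hXm
  have hFm : ∀ i, F i ∈ maximalIdeal (MvPowerSeries (Fin n) ℂ) := fun i => hsum _ _ _ hfm
  -- the ideal of the fixed subspace
  set K : Ideal (MvPowerSeries (Fin n) ℂ) := Ideal.span (Y '' {i | μ i ≠ 1}) with hK
  have hKall : ∀ w, LX (s w) - LX w ∈ K := by
    intro w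
    have hw : w ∈ Submodule.span ℂ (Set.range v) := by rw [v.span_eq]; trivial
    refine Submodule.span_induction (p := fun w _ => LX (s w) - LX w ∈ K) ?_ ?_ ?_ ?_ hw
    · rintro _ ⟨i, rfl⟩
      rw [hv, map_smul]
      by_cases h1 : μ i = 1
      · rw [h1, one_smul, sub_self]; exact Ideal.zero_mem _
      · have h2 : Y i ∈ K := Ideal.subset_span ⟨i, h1, rfl⟩
        have e : μ i • LX (v i) - LX (v i) = algebraMap ℂ _ (μ i - 1) * Y i := by
          rw [← Algebra.smul_def, sub_smul, one_smul]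
        rw [e]
        exact Ideal.mul_mem_left _ _ h2
    · simp
    · intro x y _ _ hx hy
      have e : LX (s (x + y)) - LX (x + y) = (LX (s x) - LX x) + (LX (s y) - LX y) := by
        simp only [map_add]; ring
      rw [e]; exact Ideal.add_mem _ hx hy
    · intro c x _ hx
      have e : LX (s (c • x)) - LX (c • x) = algebraMap ℂ _ c * (LX (s x) - LX x) := by
        rw [map_smul, map_smul, map_smul, ← smul_sub, Algebra.smul_def]
      rw [e]; exact Ideal.mul_mem_left _ _ hx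
  have hLXe : ∀ j, LX (Pi.single j 1) = MvPowerSeries.X j := by
    intro j
    rw [hLX]
    simp [Pi.single_apply, ite_smul]
  have hKX : ∀ j, σ (MvPowerSeries.X j) - MvPowerSeries.X j ∈ K := by
    intro j
    have := hKall (Pi.single j 1)
    rwa [← hσLX, hLXe] at this
  have hKrange : Ideal.span (Set.range (fun i : Fin n =>
      ∑ j : Fin n, (ρ g - 1) i j • (MvPowerSeries.X j : MvPowerSeries (Fin n) ℂ))) = K := by
    have e1 : ∀ i : Fin n, ∑ j : Fin n, (ρ g - 1) i j •
        (MvPowerSeries.X j : MvPowerSeries (Fin n) ℂ) =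
        σ (MvPowerSeries.X i) - MvPowerSeries.X i := by
      intro i
      rw [hσX]
      simp only [Matrix.sub_apply, sub_smul, Finset.sum_sub_distrib]
      congr 1
      simp [Matrix.one_apply]
    apply le_antisymm
    · rw [Ideal.span_le]
      rintro _ ⟨i, rfl⟩
      change ∑ j : Fin n, (ρ g - 1) i j • (MvPowerSeries.X j : MvPowerSeries (Fin n) ℂ) ∈ K
      rw [e1]
      exact hKX i
    · rw [hK, Ideal.span_le]
      rintro _ ⟨i, hi, rfl⟩
      set K' := Ideal.span (Set.range (fun i : Fin n =>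
        ∑ j : Fin n, (ρ g - 1) i j • (MvPowerSeries.X j : MvPowerSeries (Fin n) ℂ))) with hK'
      have h3 : ∀ j, σ (MvPowerSeries.X j) - MvPowerSeries.X j ∈ K' := by
        intro j
        rw [← e1]
        exact Ideal.subset_span ⟨j, rfl⟩
      have h4 : σ (Y i) - Y i ∈ K' := by
        have e : σ (Y i) - Y i = ∑ j, v i j • (σ (MvPowerSeries.X j) - MvPowerSeries.X j) := by
          change σ (LX (v i)) - LX (v i) = _
          rw [hLX, map_sum]
          simp only [map_smul, smul_sub, Finset.sum_sub_distrib]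
        rw [e]
        exact hsum (fun j => σ (MvPowerSeries.X j) - MvPowerSeries.X j) _ _ h3
      rw [hYσ] at h4
      have h5 : algebraMap ℂ (MvPowerSeries (Fin n) ℂ) (μ i - 1)⁻¹ * (μ i • Y i - Y i) ∈ K' :=
        Ideal.mul_mem_left _ _ h4
      have e6 : algebraMap ℂ (MvPowerSeries (Fin n) ℂ) (μ i - 1)⁻¹ * (μ i • Y i - Y i) = Y i := by
        rw [← Algebra.smul_def]
        have : μ i • Y i - Y i = (μ i - 1) • Y i := by rw [sub_smul, one_smul]
        rw [this, smul_smul, inv_mul_cancel₀ (sub_ne_zero.2 hi), one_smul]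
      rwa [e6] at h5
  have hKp : ∀ p : MvPolynomial (Fin n) ℂ,
      σ (p : MvPowerSeries (Fin n) ℂ) - (p : MvPowerSeries (Fin n) ℂ) ∈ K := by
    intro p
    have e : ((Ideal.Quotient.mkₐ ℂ K).comp σ).comp
        (MvPolynomial.coeToMvPowerSeries.algHom (R := ℂ) ℂ) =
        (Ideal.Quotient.mkₐ ℂ K).comp (MvPolynomial.coeToMvPowerSeries.algHom (R := ℂ) ℂ) := by
      apply MvPolynomial.algHom_ext
      intro i
      have := Ideal.Quotient.eq.2 (hKX i)
      simpa using this
    have := congrArg (fun χ => χ p) e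
    rw [← Ideal.Quotient.eq]
    simpa using this
  have hKf : ∀ j, σ (fA j) - fA j ∈ K := fun j => hKp (f j)
  have hFK : ∀ i, μ i ≠ 1 → F i ∈ Ideal.span (Y '' {i | μ i ≠ 1}) := by
    intro i hi
    have h4 : σ (F i) - F i ∈ K := by
      have e : σ (F i) - F i = ∑ j, v i j • (σ (fA j) - fA j) := by
        change σ (Lf (v i)) - Lf (v i) = _
        rw [hLf, map_sum]
        simp only [map_smul, smul_sub, Finset.sum_sub_distrib]
      rw [e]
      exact hsum (fun j => σ (fA j) - fA j) _ _ hKf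
    rw [hFσ] at h4
    have h5 : algebraMap ℂ (MvPowerSeries (Fin n) ℂ) (μ i - 1)⁻¹ * (μ i • F i - F i) ∈ K :=
      Ideal.mul_mem_left _ _ h4
    have e6 : algebraMap ℂ (MvPowerSeries (Fin n) ℂ) (μ i - 1)⁻¹ * (μ i • F i - F i) = F i := by
      rw [← Algebra.smul_def]
      have : μ i • F i - F i = (μ i - 1) • F i := by rw [sub_smul, one_smul]
      rw [this, smul_smul, inv_mul_cancel₀ (sub_ne_zero.2 hi), one_smul]
    rwa [e6] at h5
  -- the two ideals of the statement
  have eI1 : Ideal.span (Set.range F) =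
      Ideal.span (Set.range (fun i : Fin n => (f i : MvPowerSeries (Fin n) ℂ))) := by
    have h6 := span_linear v Lf
    have h7 := span_linear (Pi.basisFun ℂ (Fin n)) Lf
    have h8 : (fun i => Lf (Pi.basisFun ℂ (Fin n) i)) =
        (fun i : Fin n => (f i : MvPowerSeries (Fin n) ℂ)) := by
      funext j
      rw [Pi.basisFun_apply, hLf]
      simp [Pi.single_apply, ite_smul, fA]
    rw [h8] at h7
    rw [h7, ← h6]
  have eI2 : Ideal.span (Set.range F) ⊔ K =
      Ideal.span (Set.range (fun i : Fin n => (f i : MvPowerSeries (Fin n) ℂ)) ∪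
        Set.range (fun i : Fin n =>
          ∑ j : Fin n, (ρ g - 1) i j • (MvPowerSeries.X j : MvPowerSeries (Fin n) ℂ))) := by
    rw [Ideal.span_union, hKrange, eI1]
  -- stability
  have st1 : Ideal.span (Set.range F) ≤ (Ideal.span (Set.range F)).comap σ := by
    rw [Ideal.span_le]
    rintro _ ⟨i, rfl⟩
    change σ (F i) ∈ Ideal.span (Set.range F)
    rw [hFσ, Algebra.smul_def]
    exact Ideal.mul_mem_left _ _ (Ideal.subset_span ⟨i, rfl⟩)
  have st2 : Ideal.span (Set.range F) ⊔ Ideal.span (Y '' {i | μ i ≠ 1}) ≤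
      (Ideal.span (Set.range F) ⊔ Ideal.span (Y '' {i | μ i ≠ 1})).comap σ := by
    refine sup_le (st1.trans (Ideal.comap_mono le_sup_left)) ?_
    rw [Ideal.span_le]
    rintro _ ⟨i, hi, rfl⟩
    change σ (Y i) ∈ (Ideal.span (Set.range F) ⊔ Ideal.span (Y '' {i | μ i ≠ 1}))
    rw [hYσ, Algebra.smul_def]
    exact Ideal.mul_mem_left _ _ (Ideal.mem_sup_right (Ideal.subset_span ⟨i, hi, rfl⟩))
  have hP : Prim (Ideal.span (Set.range F)) := by
    rw [eI1]
    exact prim_of_finite _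
  have hmain := core ι hcard Y F μ σ hYσ hFσ hYm hFm hFK hP st1 st2
  -- the trace on the second quotient is the dimension
  have hP2 : Prim (Ideal.span (Set.range F) ⊔ Ideal.span (Y '' {i | μ i ≠ 1})) :=
    fun p hp hle => hP p hp (le_sup_left.trans hle)
  have hσXm : ∀ i, σ (MvPowerSeries.X i) ∈ maximalIdeal (MvPowerSeries (Fin n) ℂ) := by
    intro i
    rw [hσX]
    exact hsum _ _ _ hXm
  have hid : tq σ _ st2 = LinearMap.id := by
    refine tq_eq_of σ _ st2 hP2 (AlgHom.id ℂ _) ?_ hσXm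
    intro i
    exact (Ideal.Quotient.eq.2 (Ideal.mem_sup_right (hKX i))).symm
  have hT' : ∀ (I : Ideal (MvPowerSeries (Fin n) ℂ)) (e : I =
      Ideal.span (Set.range (fun i : Fin n => (f i : MvPowerSeries (Fin n) ℂ))))
      (st : I ≤ I.comap σ),
      LinearMap.trace ℂ _ (tq σ I st) = LinearMap.trace ℂ _ T.toLinearMap := by
    intro I e st
    subst e
    congr 1
    refine tq_eq_of σ _ st (prim_of_finite _) T ?_ hσXm
    intro i
    rw [hσX]
    exact hT i
  rw [← hT' _ eI1 st1, hmain, hid]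
  have : Module.Finite ℂ (MvPowerSeries (Fin n) ℂ ⧸
      (Ideal.span (Set.range F) ⊔ Ideal.span (Y '' {i | μ i ≠ 1}))) := finite_of_prim _ hP2
  rw [LinearMap.trace_id]
  exact congrArg (fun I : Ideal (MvPowerSeries (Fin n) ℂ) =>
    ((Module.finrank ℂ (MvPowerSeries (Fin n) ℂ ⧸ I) : ℕ) : ℂ)) eI2

end Pool.Agent.S08603
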