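import Pool.Statements.S08612
import Pool.Agent.Helper302.Univ.Final

set_option autoImplicit false
open Pool Pool.MP_82e23a_gt

namespace Pool.Agent.S08612

/-- The negation of the preceding statement: There is a chainable continuum M in the plane such that every chainable continuum K in the plane is mapped into M by some homeomorphism of the plane onto itself. -/
theorem result :
    ¬ (∃ M : Set (EuclideanSpace ℝ (Fin 2)),
    (IsCompact M ∧ IsConnected M ∧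
      ∀ ε : ℝ, 0 < ε → ∃ n : ℕ, ∃ U : Fin n → Set (EuclideanSpace ℝ (Fin 2)),
        (∀ i, IsOpen (U i)) ∧ M ⊆ ⋃ i, U i ∧
        (∀ i j : Fin n, ((M ∩ U i ∩ U j).Nonempty ↔
            ((i : ℕ) ≤ (j : ℕ) + 1 ∧ (j : ℕ) ≤ (i : ℕ) + 1))) ∧
        ∀ i, Metric.diam (M ∩ U i) < ε) ∧
    ∀ K : Set (EuclideanSpace ℝ (Fin 2)),
      (IsCompact K ∧ IsConnected K ∧
        ∀ ε : ℝ, 0 < ε → ∃ n : ℕ, ∃ U : Fin n → Set (EuclideanSpace ℝ (Fin 2)),
          (∀ i, IsOpen (U i)) ∧ K ⊆ ⋃ i, U i ∧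
          (∀ i j : Fin n, ((K ∩ U i ∩ U j).Nonempty ↔
              ((i : ℕ) ≤ (j : ℕ) + 1 ∧ (j : ℕ) ≤ (i : ℕ) + 1))) ∧
          ∀ i, Metric.diam (K ∩ U i) < ε) →
      ∃ h : EuclideanSpace ℝ (Fin 2) ≃ₜ EuclideanSpace ℝ (Fin 2), h '' K ⊆ M) := by
  rintro ⟨M, ⟨hM, _, hch⟩, hun⟩
  exact Pool.Agent.Helper302.Univ.no_universal M hM hch hun

end Pool.Agent.S08612
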