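import Pool.Statements.S08618
import Pool.Agent.Helper869.KDet

set_option autoImplicit false
open Pool Pool.MP_8503ce_gt

namespace Pool.Agent.S08618

open Pool.Agent.Helper869.KDet

/-- The negation of the preceding statement: For any class K of T0 spaces containing all sober spaces, and any family of T0 spaces with K-determined subsets A_i, the product of the A_i is K-determined in the product space. -/
theorem result :
    ¬ (∀ (K : ∀ (Y : Type) [TopologicalSpace Y], Prop),
    (∀ (Y : Type) [TopologicalSpace Y], K Y → T0Space Y) →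
    (∀ (Y : Type) [TopologicalSpace Y], T0Space Y → QuasiSober Y → K Y) →
    ∀ (I : Type) (X : I → Type) [∀ i, TopologicalSpace (X i)] [∀ i, T0Space (X i)]
      (A : ∀ i, Set (X i)),
      (∀ i, ∀ (Y : Type) [TopologicalSpace Y], K Y →
        ∀ f : X i → Y, Continuous f →
          ∃! y : Y, closure (f '' A i) = closure ({y} : Set Y)) →
      ∀ (Y : Type) [TopologicalSpace Y], K Y →
        ∀ f : (∀ i, X i) → Y, Continuous f →
          ∃! y : Y, closure (f '' Set.pi Set.univ A) = closure ({y} : Set Y)) := by
  intro H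
  obtain ⟨y, hy, -⟩ := H (fun Y _ => Pool.Agent.Helper869.KDet.K Y)
    (fun Y _ h => K_T0 Y h)
    (fun Y _ h1 h2 => Or.inl ⟨h1, h2⟩)
    ℕ Pool.Agent.Helper869.KDet.X
    (fun _ => Set.univ)
    (fun i Y _ hY f hf => X_det i Set.univ (isIrreducible_univ_X i) Y hY f hf)
    Y0 (Or.inr ⟨Homeomorph.refl Y0⟩) emb continuous_emb
  rw [Set.pi_univ] at hy
  exact emb_not y hy

end Pool.Agent.S08618
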