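import Pool.Statements.S08619
import Pool.Agent.VPL.Main

set_option autoImplicit false
open Pool Pool.MP_85210c_gt

namespace Pool.Agent.S08619

/-- For 1<p<2 and any n linearly independent functions in L_p[0,1], the unit ball of their span (in coordinates) has volume times polar volume at least that of the l_p^n unit ball. -/
theorem result :
  ∀ (n : ℕ) (p : ℝ), 1 < p → p < 2 →
  ∀ f : Fin n → MeasureTheory.Lp ℝ (ENNReal.ofReal p)
      ((MeasureTheory.volume : MeasureTheory.Measure ℝ).restrict (Set.Icc (0:ℝ) 1)),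
  LinearIndependent ℝ f →
  MeasureTheory.volume {x : Fin n → ℝ | ∑ i, |x i| ^ p ≤ 1} *
    MeasureTheory.volume {y : Fin n → ℝ | ∀ x : Fin n → ℝ,
      ∑ i, |x i| ^ p ≤ 1 → ∑ i, x i * y i ≤ 1}
  ≤ MeasureTheory.volume {x : Fin n → ℝ | ‖∑ i, x i • f i‖ ≤ 1} *
    MeasureTheory.volume {y : Fin n → ℝ | ∀ x : Fin n → ℝ,
      ‖∑ i, x i • f i‖ ≤ 1 → ∑ i, x i * y i ≤ 1} := by
  exact VPL.final_result

end Pool.Agent.S08619
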