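import Pool.Statements.S08628
import Pool.Agent.Helper520.CD.Dim

set_option autoImplicit false
open Pool Pool.MP_8848fa_gt

namespace Pool.Agent.S08628

/-- The negation of the preceding statement: Every separable metric space that is a countable union of finite-dimensional subspaces and has infinite large inductive dimension contains, for each natural n, a closed subspace of large inductive dimension exactly n. -/
theorem result :
    ¬ (∀ (X : Type) [MetricSpace X] [TopologicalSpace.SeparableSpace X]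
      (P : ℕ → Set X → Prop),
      (∀ B : Set X, P 0 B ↔ B = ∅) →
      (∀ (k : ℕ) (B : Set X), P (k + 1) B ↔
        ∀ C U : Set X, IsClosed C → IsOpen U → C ∩ B ⊆ U →
          ∃ V : Set X, IsOpen V ∧ C ∩ B ⊆ V ∧
            closure (V ∩ B) ∩ B ⊆ U ∧
            P k ((closure (V ∩ B) ∩ B) \ V)) →
      (∃ Z : ℕ → Set X, (∀ i, ∃ k, P k (Z i)) ∧ (⋃ i, Z i) = Set.univ) →
      (∀ k : ℕ, ¬ P k Set.univ) →
      ∀ n : ℕ, ∃ A : Set X, IsClosed A ∧ P (n + 1) A ∧ ¬ P n A) := by
  intro h
  obtain ⟨X, hZ, hinf, hcl⟩ := Pool.Agent.Helper520.CD.main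
  letI : MetricSpace X := TopologicalSpace.metrizableSpaceMetric X
  obtain ⟨A, hA, hA2, hA1⟩ := h X Pool.Agent.Helper520.CD.PP (fun B => Iff.rfl)
    (fun k B => Iff.rfl) (by
      obtain ⟨Z, hZ1, hZ2⟩ := hZ
      exact ⟨Z, fun i => ⟨1, hZ1 i⟩, hZ2⟩) hinf 1
  rcases hcl A hA with h1 | h1
  · exact hA1 h1
  · exact h1 _ hA2

end Pool.Agent.S08628
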