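import Pool.Statements.S08633

set_option autoImplicit false
open Pool Pool.MP_892330_gt
open Set Filter Topology

namespace Pool.Agent.S08633

section
variable {X : Type} [TopologicalSpace X] [CompactSpace X] [T2Space X]

lemma isClosed_cc {Z : Set X} (hZ : IsClosed Z) (x : X) : IsClosed (connectedComponentIn Z x) := by
  by_cases hx : x ∈ Z
  · rw [connectedComponentIn_eq_image hx]
    exact (hZ.isClosedEmbedding_subtypeVal).isClosedMap _ isClosed_connectedComponent
  · rw [connectedComponentIn_eq_empty hx]; exact isClosed_empty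

lemma sep_point {Z : Set X} (hZ : IsClosed Z) {a b : X} (ha : a ∈ Z) (hb : b ∈ Z)
    (h : b ∉ connectedComponentIn Z a) :
    ∃ D : Set X, IsClosed D ∧ IsClosed (Z \ D) ∧ D ⊆ Z ∧ a ∈ D ∧ b ∉ D := by
  have : CompactSpace Z := isCompact_iff_compactSpace.mp hZ.isCompact
  have h1 : (⟨b, hb⟩ : Z) ∉ connectedComponent (⟨a, ha⟩ : Z) := by
    intro hc
    apply h
    rw [connectedComponentIn_eq_image ha]
    exact ⟨_, hc, rfl⟩
  rw [connectedComponent_eq_iInter_isClopen] at h1
  simp only [mem_iInter, not_forall] at h1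
  obtain ⟨⟨D, hD, haD⟩, hbD⟩ := h1
  refine ⟨(↑) '' D, (hZ.isClosedEmbedding_subtypeVal).isClosedMap _ hD.1, ?_, ?_, ⟨_, haD, rfl⟩, ?_⟩
  · have : Z \ ((↑) '' D) = ((↑) '' Dᶜ : Set X) := by
      ext x; constructor
      · rintro ⟨hx, hx2⟩
        exact ⟨⟨x, hx⟩, fun h => hx2 ⟨_, h, rfl⟩, rfl⟩
      · rintro ⟨y, hy, rfl⟩
        exact ⟨y.2, fun ⟨w, hw, hwy⟩ => hy (by rwa [Subtype.ext hwy] at hw)⟩
    rw [this]
    exact (hZ.isClosedEmbedding_subtypeVal).isClosedMap _ hD.2.isClosed_compl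
  · rintro _ ⟨y, _, rfl⟩; exact y.2
  · rintro ⟨y, hy, hyb⟩
    apply hbD
    have : y = ⟨b, hb⟩ := Subtype.ext hyb
    rwa [this] at hy

lemma sep_pset {Z B : Set X} (hZ : IsClosed Z) (hB : IsClosed B) {a : X} (ha : a ∈ Z)
    (h : Disjoint (connectedComponentIn Z a) B) :
    ∃ D : Set X, IsClosed D ∧ IsClosed (Z \ D) ∧ D ⊆ Z ∧ a ∈ D ∧ Disjoint D B := by
  classical
  have hcomp : IsCompact (B ∩ Z) := (hB.inter hZ).isCompact
  have key : ∀ b ∈ B ∩ Z, ∃ D : Set X, IsClosed D ∧ IsClosed (Z \ D) ∧ D ⊆ Z ∧ a ∈ D ∧ b ∉ D := by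
    intro b hb
    exact sep_point hZ ha hb.2 (fun hc => (Set.disjoint_left.mp h) hc hb.1)
  choose! D h1 h2 h3 h4 h5 using key
  obtain ⟨t, ht⟩ := hcomp.elim_nhds_subcover' (fun b hb => (D b)ᶜ) (fun b hb =>
    (h1 b hb).isOpen_compl.mem_nhds (h5 b hb))
  refine ⟨Z ∩ ⋂ b ∈ t, D b, ?_, ?_, inter_subset_left, ?_, ?_⟩
  · exact hZ.inter (isClosed_biInter fun b hb => h1 b b.2)
  · have : Z \ (Z ∩ ⋂ b ∈ t, D b) = ⋃ b ∈ t, (Z \ D b) := by
      ext x; simp only [Set.mem_sdiff, mem_inter_iff, mem_iInter, mem_iUnion]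
      constructor
      · rintro ⟨hx, hn⟩
        by_contra hcon
        push Not at hcon
        exact hn ⟨hx, fun b hb => hcon b hb hx⟩
      · rintro ⟨b, hb, hx, hn⟩
        exact ⟨hx, fun hh => hn (hh.2 b hb)⟩
    rw [this]
    exact t.finite_toSet.isClosed_biUnion fun b hb => h2 b b.2
  · exact ⟨ha, by simp only [mem_iInter]; intro b hb; exact h4 b b.2⟩
  · rw [Set.disjoint_left]
    rintro x ⟨hxZ, hx⟩ hxB
    have := ht ⟨hxB, hxZ⟩
    simp only [mem_iUnion] at this
    obtain ⟨b, hb, hxb⟩ := this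
    simp only [mem_iInter] at hx
    exact hxb (hx b hb)

lemma cutwire {Z A B : Set X} (hZ : IsClosed Z) (hA : IsClosed A) (hB : IsClosed B) (hAZ : A ⊆ Z)
    (h : ∀ a ∈ A, Disjoint (connectedComponentIn Z a) B) :
    ∃ D : Set X, IsClosed D ∧ IsClosed (Z \ D) ∧ D ⊆ Z ∧ A ⊆ D ∧ Disjoint D B := by
  classical
  have key : ∀ a ∈ A, ∃ D : Set X, IsClosed D ∧ IsClosed (Z \ D) ∧ D ⊆ Z ∧ a ∈ D ∧ Disjoint D B :=
    fun a ha => sep_pset hZ hB (hAZ ha) (h a ha)
  choose! D h1 h2 h3 h4 h5 using key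
  obtain ⟨t, ht⟩ := hA.isCompact.elim_nhds_subcover' (fun b hb => (Z \ D b)ᶜ) (fun b hb =>
    (h2 b hb).isOpen_compl.mem_nhds (fun hh => hh.2 (h4 b hb)))
  refine ⟨⋃ b ∈ t, D b, ?_, ?_, ?_, ?_, ?_⟩
  · exact t.finite_toSet.isClosed_biUnion fun b hb => h1 b b.2
  · have : Z \ (⋃ b ∈ t, D b) = Z ∩ ⋂ b ∈ t, (Z \ D b) := by
      ext x; simp only [Set.mem_sdiff, mem_inter_iff, mem_iInter, mem_iUnion, not_exists]
      constructor
      · rintro ⟨hx, hn⟩
        exact ⟨hx, fun b hb => ⟨hx, fun hh => hn b hb hh⟩⟩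
      · rintro ⟨hx, hn⟩
        exact ⟨hx, fun b hb hh => (hn b hb).2 hh⟩
    rw [this]
    exact hZ.inter (isClosed_biInter fun b hb => h2 b b.2)
  · exact iUnion₂_subset fun b hb => h3 b b.2
  · intro x hx
    have := ht hx
    simp only [mem_iUnion] at this ⊢
    obtain ⟨b, hb, hxb⟩ := this
    exact ⟨b, hb, by_contra fun hn => hxb ⟨hAZ hx, hn⟩⟩
  · simp only [Set.disjoint_iUnion_left]
    exact fun b hb => h5 b b.2

/-- phi, given on the closed set A, has an extension which is nowhere zero on K. -/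
def Ext (A : Set X) (φ : X → ℂ) (K : Set X) : Prop :=
  ∃ g : X → ℂ, Continuous g ∧ (∀ x ∈ A, g x = φ x) ∧ ∀ x ∈ K, g x ≠ 0

lemma tietze {C : Set X} (hC : IsClosed C) {h : X → ℂ} (hh : ContinuousOn h C) :
    ∃ g : X → ℂ, Continuous g ∧ ∀ x ∈ C, g x = h x := by
  obtain ⟨g, hg⟩ := ContinuousMap.exists_restrict_eq hC
    (⟨C.domRestrict h, continuousOn_iff_continuous_domRestrict.mp hh⟩ : C(C, ℂ))
  refine ⟨g, g.continuous, fun x hx => ?_⟩
  exact congrArg (fun f : C(C, ℂ) => f ⟨x, hx⟩) hg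

lemma glueExt {A K : Set X} (hA : IsClosed A) (hK : IsClosed K) {φ : X → ℂ} (hφ : Continuous φ)
    {h : X → ℂ} (hc : ContinuousOn h K) (h0 : ∀ x ∈ K, h x ≠ 0)
    (hAK : ∀ x ∈ A, x ∈ K → h x = φ x) : Ext A φ K := by
  classical
  set k : X → ℂ := fun x => if x ∈ K then h x else φ x with hk
  have h1 : ContinuousOn k K := hc.congr fun x hx => by simp [hk, hx]
  have h2 : ContinuousOn k A := hφ.continuousOn.congr fun x hx => by
    by_cases hxK : x ∈ K
    · simp [hk, hxK, hAK x hx hxK]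
    · simp [hk, hxK]
  obtain ⟨g, hg, hgk⟩ := tietze (hK.union hA) (h1.union_of_isClosed h2 hK hA)
  refine ⟨g, hg, fun x hx => ?_, fun x hx => ?_⟩
  · rw [hgk x (Or.inr hx)]
    by_cases hxK : x ∈ K
    · simp [hk, hxK, hAK x hx hxK]
    · simp [hk, hxK]
  · rw [hgk x (Or.inl hx)]
    simp [hk, hx, h0 x hx]

/-- a branch of the logarithm off the ray through w, vanishing at 1. -/
noncomputable def lg (w z : ℂ) : ℂ := Complex.log (-(z / w)) - Complex.log (-(1 / w))

lemma exp_lg {w z : ℂ} (hw : w ≠ 0) (hz : z ≠ 0) : Complex.exp (lg w z) = z := by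
  unfold lg
  rw [Complex.exp_sub, Complex.exp_log, Complex.exp_log]
  · field_simp
  · simpa using hw
  · simp [hw, hz]

lemma lg_one (w : ℂ) : lg w 1 = 0 := by unfold lg; simp

lemma ray_of_not_slit {w z : ℂ} (hw : ‖w‖ = 1) (h : -(z / w) ∉ Complex.slitPlane) :
    z = ‖z‖ * w := by
  have hw0 : w ≠ 0 := by intro h0; rw [h0] at hw; simp at hw
  rw [Complex.mem_slitPlane_iff] at h
  push Not at h
  obtain ⟨h1, h2⟩ := h
  rw [Complex.neg_re] at h1
  rw [Complex.neg_im, neg_eq_zero] at h2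
  have h3 : z / w = ((z / w).re : ℂ) := by
    apply Complex.ext
    · simp
    · simpa using h2
  have h4 : (z / w).re = ‖z / w‖ := by
    have : ‖z / w‖ = ‖(((z / w).re : ℝ) : ℂ)‖ := by rw [← h3]
    rw [this, Complex.norm_real, Real.norm_eq_abs, abs_of_nonneg (by linarith)]
  have h5 : z / w = (‖z‖ : ℂ) := by
    rw [h3, h4, norm_div, hw, div_one]
  rw [← h5]
  field_simp

lemma core {A P Q : Set X} (hA : IsClosed A) (hP : IsClosed P) (hQ : IsClosed Q)
    {φ : X → ℂ} (hφ : Continuous φ) (hφA : ∀ x ∈ A, φ x ≠ 0)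
    (hPe : Ext A φ P) (hQe : Ext A φ Q) (hn : ¬ Ext A φ (P ∪ Q)) :
    ∃ b : X → ℂ, ∀ w : ℂ, ‖w‖ = 1 → ∃ L : Set X, IsClosed L ∧ IsPreconnected L ∧ L ⊆ P ∧
      (L ∩ Q).Nonempty ∧ (L \ Q).Nonempty ∧ ∀ x ∈ L, b x ≠ 0 ∧ b x = ‖b x‖ * w := by
  classical
  obtain ⟨gP, gPc, gPA, gP0⟩ := hPe
  obtain ⟨gQ, gQc, gQA, gQ0⟩ := hQe
  -- the ratio
  have hb : ∃ b : X → ℂ, Continuous b ∧ (∀ x ∈ P ∩ Q, b x = gQ x / gP x) ∧ ∀ x ∈ A, b x = 1 := by
    set b₀ : X → ℂ := fun x => if x ∈ P ∩ Q then gQ x / gP x else 1 with hb₀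
    have e1 : ∀ x ∈ P ∩ Q, b₀ x = gQ x / gP x := fun x hx => by simp only [hb₀, if_pos hx]
    have e2 : ∀ x ∈ A, b₀ x = 1 := fun x hx => by
      by_cases hx2 : x ∈ P ∩ Q
      · rw [e1 x hx2, gPA x hx, gQA x hx, div_self (hφA x hx)]
      · simp only [hb₀, if_neg hx2]
    have c1 : ContinuousOn b₀ (P ∩ Q) :=
      ((gQc.continuousOn).div gPc.continuousOn (fun x hx => gP0 x hx.1)).congr e1
    have c2 : ContinuousOn b₀ A := (continuousOn_const (c := (1 : ℂ))).congr e2
    obtain ⟨b, hbc, hbe⟩ := tietze ((hP.inter hQ).union hA)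
      (c1.union_of_isClosed c2 (hP.inter hQ) hA)
    exact ⟨b, hbc, fun x hx => by rw [hbe x (Or.inl hx), e1 x hx],
      fun x hx => by rw [hbe x (Or.inr hx), e2 x hx]⟩
  obtain ⟨b, hbc, hbS, hbA⟩ := hb
  refine ⟨b, fun w hw => ?_⟩
  have hw0 : w ≠ 0 := by intro h0; rw [h0] at hw; simp at hw
  have hS : IsClosed (P ∩ Q) := hP.inter hQ
  have hU : IsOpen {x | b x ≠ 0} := isOpen_ne_fun hbc continuous_const
  have hSU : P ∩ Q ⊆ {x | b x ≠ 0} := fun x hx => by
    show b x ≠ 0
    rw [hbS x hx]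
    exact div_ne_zero (gQ0 x hx.2) (gP0 x hx.1)
  obtain ⟨O, hO, hSO, hOU⟩ := normal_exists_closure_subset hS hU hSU
  set Z : Set X := (P ∩ closure O) ∩ {x | b x = ‖b x‖ * w} with hZdef
  have hZ : IsClosed Z := (hP.inter isClosed_closure).inter
    (isClosed_eq hbc ((Complex.continuous_ofReal.comp hbc.norm).mul continuous_const))
  have hM : IsClosed (P \ O) := hP.sdiff hO
  by_cases hcase : ∀ a ∈ Z ∩ (P ∩ Q), Disjoint (connectedComponentIn Z a) (P \ O)
  · exfalso
    apply hn
    obtain ⟨D, d1, d2, d3, d4, d5⟩ := cutwire hZ (hZ.inter hS) hM inter_subset_left hcase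
    have hdis : Disjoint ((P \ O) ∪ (Z \ D)) ((P ∩ Q) ∪ D) := by
      rw [Set.disjoint_left]
      rintro x (hx | hx) (hy | hy)
      · exact hx.2 (hSO hy)
      · exact Set.disjoint_left.mp d5 hy hx
      · exact hx.2 (d4 ⟨hx.1, hy⟩)
      · exact hx.2 hy
    obtain ⟨lam, l0, l1, l2⟩ := exists_continuous_zero_one_of_isClosed (hM.union d2) (hS.union d1) hdis
    set mu : X → ℝ := fun x => min 1 (max 0 (4 * lam x - 1)) with hmu
    have hmuc : Continuous mu := by
      apply continuous_const.min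
      apply continuous_const.max
      exact (continuous_const.mul lam.continuous).sub continuous_const
    set u : X → ℂ := fun x => Complex.exp (mu x * lg w (b x)) with hu
    have hbU : ∀ x ∈ P, 0 < lam x → b x ≠ 0 := by
      intro x hx hlx
      by_contra hb0
      have hxO : x ∉ O := fun h => hOU (subset_closure h) hb0
      have := l0 (Or.inl ⟨hx, hxO⟩)
      simp only [Pi.zero_apply] at this
      rw [this] at hlx
      exact lt_irrefl _ hlx
    have hu1 : ∀ x ∈ P, 1/2 ≤ lam x → u x = b x := by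
      intro x hx hlx
      have hm : mu x = 1 := by
        simp only [hmu]
        rw [min_eq_left]
        exact le_max_of_le_right (by linarith)
      simp only [hu, hm]
      rw [Complex.ofReal_one, one_mul]
      exact exp_lg hw0 (hbU x hx (by linarith))
    have hu2 : ∀ x, lam x ≤ 1/4 → u x = 1 := by
      intro x hlx
      have hm : mu x = 0 := by
        simp only [hmu]
        rw [max_eq_left (by linarith), min_eq_right (by norm_num)]
      simp only [hu, hm]
      simp
    have huc : ContinuousOn u P := by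
      intro x hx
      rcases lt_trichotomy (lam x) (1/4) with h | h | h
      · have hev : ∀ᶠ y in 𝓝[P] x, u y = (fun _ => (1:ℂ)) y := by
          have : ∀ᶠ y in 𝓝 x, lam y < 1/4 := lam.continuous.continuousAt.eventually_lt_const h
          exact (this.filter_mono nhdsWithin_le_nhds).mono fun y hy => hu2 y hy.le
        exact (continuousWithinAt_const : ContinuousWithinAt (fun _ => (1:ℂ)) P x).congr_of_eventuallyEq hev (hu2 x h.le)
      all_goals
      rcases lt_or_ge (1/2) (lam x) with h' | h'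
      · have hev : ∀ᶠ y in 𝓝[P] x, u y = b y := by
          have h1 : ∀ᶠ y in 𝓝[P] x, 1/2 < lam y :=
            (lam.continuous.continuousAt.eventually_const_lt h').filter_mono nhdsWithin_le_nhds
          have h2 : ∀ᶠ y in 𝓝[P] x, y ∈ P := eventually_mem_nhdsWithin
          filter_upwards [h1, h2] with y hy1 hy2 using hu1 y hy2 hy1.le
        exact hbc.continuousWithinAt.congr_of_eventuallyEq hev (hu1 x hx h'.le)
      · have hlpos : 0 < lam x := by linarith
        have hb0 := hbU x hx hlpos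
        have hxO : x ∈ O := by
          by_contra hxO
          have := l0 (Or.inl ⟨hx, hxO⟩)
          simp only [Pi.zero_apply] at this
          linarith
        have hslit : -(b x / w) ∈ Complex.slitPlane := by
          by_contra hns
          have hr := ray_of_not_slit hw hns
          have hxZ : x ∈ Z := ⟨⟨hx, subset_closure hxO⟩, hr⟩
          by_cases hxD : x ∈ D
          · have := l1 (Or.inr hxD)
            simp only [Pi.one_apply] at this
            linarith
          · have := l0 (Or.inr ⟨hxZ, hxD⟩)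
            simp only [Pi.zero_apply] at this
            linarith
        apply ContinuousAt.continuousWithinAt
        apply ContinuousAt.cexp
        apply ContinuousAt.mul
        · exact (Complex.continuous_ofReal.comp hmuc).continuousAt
        · unfold lg
          apply ContinuousAt.sub _ continuousAt_const
          apply ContinuousAt.clog (f := fun y => -(b y / w)) _ hslit
          exact (hbc.continuousAt.div_const w).neg
    -- the glued function
    set h : X → ℂ := fun x => if x ∈ P then gP x * u x else gQ x with hh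
    have eP : ∀ x ∈ P, h x = gP x * u x := fun x hx => by simp only [hh, if_pos hx]
    have eQ : ∀ x ∈ Q, h x = gQ x := fun x hx => by
      by_cases hxP : x ∈ P
      · have hl := l1 (Or.inl ⟨hxP, hx⟩)
        simp only [Pi.one_apply] at hl
        rw [eP x hxP, hu1 x hxP (by rw [hl]; norm_num), hbS x ⟨hxP, hx⟩,
          mul_div_cancel₀ _ (gP0 x hxP)]
      · simp only [hh, if_neg hxP]
    have cP : ContinuousOn h P := (gPc.continuousOn.mul huc).congr eP
    have cQ : ContinuousOn h Q := gQc.continuousOn.congr eQ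
    refine glueExt hA (hP.union hQ) hφ (cP.union_of_isClosed cQ hP hQ) ?_ ?_
    · rintro x (hx | hx)
      · rw [eP x hx]; exact mul_ne_zero (gP0 x hx) (Complex.exp_ne_zero _)
      · rw [eQ x hx]; exact gQ0 x hx
    · rintro x hxA (hx | hx)
      · rw [eP x hx, gPA x hxA]
        have : u x = 1 := by simp only [hu, hbA x hxA, lg_one, mul_zero, Complex.exp_zero]
        rw [this, mul_one]
      · rw [eQ x hx, gQA x hxA]
  · push Not at hcase
    obtain ⟨a, ⟨haZ, haP, haQ⟩, hnd⟩ := hcase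
    rw [Set.not_disjoint_iff] at hnd
    obtain ⟨y, hy1, hy2⟩ := hnd
    have hsub : connectedComponentIn Z a ⊆ Z := connectedComponentIn_subset _ _
    refine ⟨connectedComponentIn Z a, isClosed_cc hZ a, isPreconnected_connectedComponentIn,
      fun x hx => (hsub hx).1.1, ⟨a, mem_connectedComponentIn haZ, haQ⟩, ⟨y, hy1, fun hyQ =>
        hy2.2 (hSO ⟨hy2.1, hyQ⟩)⟩, fun x hx => ⟨?_, (hsub hx).2⟩⟩
    exact hOU (hsub hx).1.2


lemma exists_minimal {A : Set X} {φ : X → ℂ} (h : ¬ Ext A φ univ) :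
    ∃ K : Set X, IsClosed K ∧ ¬ Ext A φ K ∧
      ∀ K' : Set X, IsClosed K' → K' ⊆ K → ¬ Ext A φ K' → K' = K := by
  obtain ⟨m, hm⟩ := zorn_superset {K : Set X | IsClosed K ∧ ¬ Ext A φ K} (by
    intro c hc hchain
    rcases c.eq_empty_or_nonempty with rfl | hne
    · exact ⟨univ, ⟨isClosed_univ, h⟩, fun s hs => hs.elim⟩
    · refine ⟨⋂₀ c, ⟨isClosed_sInter fun s hs => (hc hs).1, ?_⟩, fun s hs => sInter_subset_of_mem hs⟩
      rintro ⟨g, g1, g2, g3⟩
      have : Nonempty c := hne.to_subtype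
      have hU : IsOpen {x | g x ≠ 0} := isOpen_ne_fun g1 continuous_const
      have hdir : Directed (· ⊇ ·) (fun s : c => (s : Set X)) := by
        intro s t
        rcases hchain.total s.2 t.2 with hst | hst
        · exact ⟨s, subset_rfl, hst⟩
        · exact ⟨t, hst, subset_rfl⟩
      obtain ⟨s, hs⟩ := exists_subset_nhds_of_isCompact' (V := fun s : c => (s : Set X)) hdir
        (fun s => (hc s.2).1.isCompact) (fun s => (hc s.2).1) (U := {x | g x ≠ 0}) (fun x hx =>
          hU.mem_nhds (g3 x (by simpa [sInter_eq_iInter] using hx)))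
      exact (hc s.2).2 ⟨g, g1, g2, fun x hx => hs hx⟩)
  refine ⟨m, hm.prop.1, hm.prop.2, fun K' h1 h2 h3 => ?_⟩
  exact subset_antisymm h2 (hm.le_of_le ⟨h1, h3⟩ h2)

/-- the main topological lemma -/
lemma minimal_good {A K : Set X} {φ : X → ℂ} (hA : IsClosed A) (hφ : Continuous φ)
    (hφA : ∀ x ∈ A, φ x ≠ 0) (hK : IsClosed K) (hn : ¬ Ext A φ K)
    (hmin : ∀ K' : Set X, IsClosed K' → K' ⊆ K → ¬ Ext A φ K' → K' = K)
    (hT : ¬ ∃ T Z A B C : Set X, IsCompact T ∧ IsConnected T ∧ IsCompact Z ∧ IsConnected Z ∧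
          Z ⊆ T ∧ T \ Z = A ∪ B ∪ C ∧ A.Nonempty ∧ B.Nonempty ∧ C.Nonempty ∧
          Disjoint (closure A) B ∧ Disjoint A (closure B) ∧
          Disjoint (closure A) C ∧ Disjoint A (closure C) ∧
          Disjoint (closure B) C ∧ Disjoint B (closure C)) :
    IsConnected K ∧ ∀ P Q : Set X, IsCompact P → IsConnected P → IsCompact Q → IsConnected Q →
          P ∪ Q = K → P = K ∨ Q = K := by
  refine ⟨⟨?_, ?_⟩, ?_⟩
  · rw [Set.nonempty_iff_ne_empty]
    rintro rfl
    exact hn ⟨φ, hφ, fun _ _ => rfl, fun x hx => hx.elim⟩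
  · rw [isPreconnected_closed_iff]
    intro P' Q' hP' hQ' hsub hKP hKQ
    by_contra hcon
    rw [Set.not_nonempty_iff_eq_empty] at hcon
    have hPQ : (K ∩ P') ∪ (K ∩ Q') = K := by
      rw [← inter_union_distrib_left]; exact inter_eq_left.mpr hsub
    have hP : IsClosed (K ∩ P') := hK.inter hP'
    have hQ : IsClosed (K ∩ Q') := hK.inter hQ'
    have hPe : Ext A φ (K ∩ P') := by
      by_contra hc
      have := hmin _ hP inter_subset_left hc
      obtain ⟨x, hx1, hx2⟩ := hKQ
      have hx3 : x ∈ K ∩ P' := by rw [this]; exact hx1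
      have : x ∈ K ∩ (P' ∩ Q') := ⟨hx1, hx3.2, hx2⟩
      rw [hcon] at this; exact this
    have hQe : Ext A φ (K ∩ Q') := by
      by_contra hc
      have := hmin _ hQ inter_subset_left hc
      obtain ⟨x, hx1, hx2⟩ := hKP
      have hx3 : x ∈ K ∩ Q' := by rw [this]; exact hx1
      have : x ∈ K ∩ (P' ∩ Q') := ⟨hx1, hx2, hx3.2⟩
      rw [hcon] at this; exact this
    obtain ⟨b, hb⟩ := core hA hP hQ hφ hφA hPe hQe (by rwa [hPQ])
    obtain ⟨L, _, _, hLP, ⟨x, hxL, hxQ⟩, _⟩ := hb 1 (by simp)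
    have : x ∈ K ∩ (P' ∩ Q') := ⟨hxQ.1, (hLP hxL).2, hxQ.2⟩
    rw [hcon] at this; exact this
  · intro P Q hP hPc hQ hQc hPQ
    by_contra hcon
    push Not at hcon
    obtain ⟨hP1, hQ1⟩ := hcon
    have hPe : Ext A φ P := by
      by_contra hc
      exact hP1 (hmin P hP.isClosed (hPQ ▸ subset_union_left) hc)
    have hQe : Ext A φ Q := by
      by_contra hc
      exact hQ1 (hmin Q hQ.isClosed (hPQ ▸ subset_union_right) hc)
    obtain ⟨b, hb⟩ := core hA hP.isClosed hQ.isClosed hφ hφA hPe hQe (by rwa [hPQ])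
    obtain ⟨L1, c1, p1, s1, ⟨x1, i1⟩, n1, e1⟩ := hb 1 (by simp)
    obtain ⟨L2, c2, p2, s2, ⟨x2, i2⟩, n2, e2⟩ := hb (-1) (by simp)
    obtain ⟨L3, c3, p3, s3, ⟨x3, i3⟩, n3, e3⟩ := hb Complex.I (by simp)
    have aux : ∀ (w w' : ℂ) (L L' : Set X), (∀ x ∈ L, b x ≠ 0 ∧ b x = ‖b x‖ * w) →
        (∀ x ∈ L', b x ≠ 0 ∧ b x = ‖b x‖ * w') → w ≠ w' → Disjoint L L' := by
      intro w w' L L' h1 h2 hne
      rw [Set.disjoint_left]
      intro x hx hx'
      have h3 := h1 x hx
      have h4 := (h2 x hx').2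
      rw [h3.2] at h4
      have hb0 : (‖b x‖ : ℂ) ≠ 0 := by simpa using h3.1
      have h5 : (‖b x‖ : ℂ) * w = ‖b x‖ * w' := by
        rw [← h3.2]; exact (h2 x hx').2
      exact hne (mul_left_cancel₀ hb0 h5)
    have d12 : Disjoint L1 L2 := aux _ _ _ _ e1 e2 (by norm_num)
    have d13 : Disjoint L1 L3 := aux _ _ _ _ e1 e3 (by
      intro h; have := congrArg Complex.im h; simp at this)
    have d23 : Disjoint L2 L3 := aux _ _ _ _ e2 e3 (by
      intro h; have := congrArg Complex.im h; simp at this)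
    have cl : ∀ L : Set X, IsClosed L → closure (L \ Q) ⊆ L := fun L hL =>
      closure_minimal sdiff_subset hL
    apply hT
    refine ⟨Q ∪ L1 ∪ L2 ∪ L3, Q, L1 \ Q, L2 \ Q, L3 \ Q, ?_, ⟨?_, ?_⟩, hQ, hQc, ?_, ?_, n1, n2, n3,
      ?_, ?_, ?_, ?_, ?_, ?_⟩
    · exact ((hQ.union c1.isCompact).union c2.isCompact).union c3.isCompact
    · exact ((hQc.nonempty.inl).inl).inl
    · refine IsPreconnected.union x3 (Or.inl (Or.inl i3.2)) i3.1 ?_ p3
      refine IsPreconnected.union x2 (Or.inl i2.2) i2.1 ?_ p2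
      exact IsPreconnected.union x1 i1.2 i1.1 hQc.isPreconnected p1
    · exact fun x hx => Or.inl (Or.inl (Or.inl hx))
    · ext x
      simp only [Set.mem_sdiff, Set.mem_union]
      tauto
    · exact d12.mono (cl _ c1) sdiff_subset
    · exact d12.mono sdiff_subset (cl _ c2)
    · exact d13.mono (cl _ c1) sdiff_subset
    · exact d13.mono sdiff_subset (cl _ c3)
    · exact d23.mono (cl _ c2) sdiff_subset
    · exact d23.mono sdiff_subset (cl _ c3)

end

lemma quad_finite (α β γ : ℝ) (h : α ≠ 0) : {t : ℝ | α * t ^ 2 + β * t + γ = 0}.Finite := by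
  set p : Polynomial ℝ := Polynomial.C α * Polynomial.X ^ 2 + Polynomial.C β * Polynomial.X +
    Polynomial.C γ with hp
  have hp0 : p ≠ 0 := by
    intro h0
    have := congrArg (fun q => q.coeff 2) h0
    simp [hp] at this
    exact h this
  apply (p.roots.toFinset.finite_toSet).subset
  intro t ht
  rw [Finset.mem_coe, Multiset.mem_toFinset, Polynomial.mem_roots hp0]
  simpa [hp, Polynomial.IsRoot] using ht

/-- general position on lines through the origin -/
lemma genpos {k : ℕ} (c : Fin k → ℂ) {ε : ℝ} (hε : 0 < ε) :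
    ∃ c' : Fin k → ℂ, (∀ j, ‖c' j - c j‖ < ε) ∧
      ∀ i j, ∀ s t : ℝ, 0 ≤ s → 0 ≤ t → 0 < s + t → (s : ℂ) * c' i + t * c' j ≠ 0 := by
  classical
  set d : Fin k → ℂ := fun j => ⟨1, (j : ℕ)⟩ with hd
  set bad : Set ℝ := (⋃ i : Fin k, {-(c i).re}) ∪ ⋃ i : Fin k, ⋃ j : Fin k, {t : ℝ | i ≠ j ∧
    ((i : ℕ) - (j : ℕ) : ℝ) * t ^ 2 + ((c i).im + (i : ℕ) * (c j).re - (c j).im - (j : ℕ) * (c i).re) * t +
      ((c i).im * (c j).re - (c i).re * (c j).im) = 0} with hbad
  have hfin : bad.Finite := by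
    apply Set.Finite.union
    · exact Set.finite_iUnion fun i => Set.finite_singleton _
    · refine Set.finite_iUnion fun i => Set.finite_iUnion fun j => ?_
      by_cases hij : i = j
      · have : {t : ℝ | i ≠ j ∧ ((i : ℕ) - (j : ℕ) : ℝ) * t ^ 2 + ((c i).im + (i : ℕ) * (c j).re - (c j).im - (j : ℕ) * (c i).re) * t +
          ((c i).im * (c j).re - (c i).re * (c j).im) = 0} = ∅ := by
          ext t; simp [hij]
        rw [this]; exact Set.finite_empty
      · apply (quad_finite ((i : ℕ) - (j : ℕ) : ℝ) ((c i).im + (i : ℕ) * (c j).re - (c j).im - (j : ℕ) * (c i).re)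
          ((c i).im * (c j).re - (c i).re * (c j).im) ?_).subset
        · rintro t ⟨_, ht⟩; exact ht
        · rw [sub_ne_zero]
          exact fun h => hij (Fin.ext (by exact_mod_cast h))
  set η : ℝ := ε / (k + 2) with hη
  have hηpos : 0 < η := by positivity
  obtain ⟨t, ht, htb⟩ := ((Set.Ioo_infinite hηpos).sdiff hfin).nonempty
  refine ⟨fun j => c j + t * d j, fun j => ?_, ?_⟩
  · have : c j + t * d j - c j = t * d j := by ring
    rw [this, norm_mul, Complex.norm_real, Real.norm_eq_abs, abs_of_pos ht.1]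
    have h1 : ‖d j‖ ≤ 1 + j := by
      refine (Complex.norm_le_abs_re_add_abs_im _).trans ?_
      simp [hd]
    have hj : (j : ℝ) ≤ k := by exact_mod_cast j.2.le
    calc t * ‖d j‖ ≤ t * (1 + j) := mul_le_mul_of_nonneg_left h1 ht.1.le
      _ ≤ t * (k + 1) := mul_le_mul_of_nonneg_left (by linarith) ht.1.le
      _ < η * (k + 2) := by nlinarith [ht.1, ht.2]
      _ = ε := by rw [hη]; field_simp
  · intro i j s r hs hr hsr h0
    have e1 := congrArg Complex.re h0
    have e2 := congrArg Complex.im h0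
    simp [hd] at e1 e2
    -- e1 : s * ((c i).re + t) + r * ((c j).re + t) = 0, e2 similarly
    by_cases hij : i = j
    · subst hij
      have h2 : (s + r) * ((c i).re + t) = 0 := by linarith
      rcases mul_eq_zero.mp h2 with h3 | h3
      · linarith
      · apply htb
        left
        simp only [mem_iUnion, mem_singleton_iff]
        exact ⟨i, by linarith⟩
    · apply htb
      right
      simp only [mem_iUnion, mem_ofPred_eq]
      refine ⟨i, j, hij, ?_⟩
      have key : ((c i).im + t * (i : ℕ)) * ((c j).re + t) - ((c i).re + t) * ((c j).im + t * (j : ℕ)) = 0 := by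
        rcases lt_or_eq_of_le hs with h | h
        · have : s * (((c i).im + t * (i : ℕ)) * ((c j).re + t) - ((c i).re + t) * ((c j).im + t * (j : ℕ))) = 0 := by
            linear_combination ((c j).re + t) * e2 - ((c j).im + t * (j:ℕ)) * e1
          rcases mul_eq_zero.mp this with h3 | h3
          · linarith
          · exact h3
        · have hrpos : 0 < r := by linarith
          have : r * (((c i).im + t * (i : ℕ)) * ((c j).re + t) - ((c i).re + t) * ((c j).im + t * (j : ℕ))) = 0 := by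
            linear_combination ((c i).im + t * (i:ℕ)) * e1 - ((c i).re + t) * e2
          rcases mul_eq_zero.mp this with h3 | h3
          · linarith
          · exact h3
      linear_combination key

section
variable {X : Type} [MetricSpace X]

lemma posfun {V : Set X} (hV : IsOpen V) :
    ∃ f : X → ℝ, Continuous f ∧ (∀ x, 0 ≤ f x) ∧ ∀ x, 0 < f x ↔ x ∈ V := by
  by_cases h : V = univ
  · exact ⟨fun _ => 1, continuous_const, fun _ => zero_le_one, fun x => by simp [h]⟩
  · have hne : (Vᶜ).Nonempty := by rwa [Set.nonempty_compl]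
    refine ⟨fun x => Metric.infDist x Vᶜ, Metric.continuous_infDist_pt _, fun x => Metric.infDist_nonneg,
      fun x => ?_⟩
    rw [← not_iff_not, not_lt, ← Set.mem_compl_iff, hV.isClosed_compl.mem_iff_infDist_zero hne]
    exact ⟨fun h => le_antisymm h Metric.infDist_nonneg, fun h => h.le⟩


variable [CompactSpace X]

/-- covering dimension at most one implies that every map into the punctured plane extends -/
lemma ext_of_dim_one {K : Set X} (hK : IsClosed K)
    (hD : ∀ (m : ℕ) (U : Fin m → Set X), (∀ i, IsOpen (U i)) → K ⊆ ⋃ i, U i →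
          ∃ (k : ℕ) (V : Fin k → Set X), (∀ j, IsOpen (V j)) ∧ K ⊆ ⋃ j, V j ∧
            (∀ j, ∃ i, V j ⊆ U i) ∧ ∀ x ∈ K, {j : Fin k | x ∈ V j}.ncard ≤ 1 + 1)
    {A : Set X} (hA : IsClosed A) {φ : X → ℂ} (hφ : Continuous φ) (hφA : ∀ x ∈ A, φ x ≠ 0) :
    Ext A φ K := by
  classical
  -- lower bound on A
  obtain ⟨δ, hδ, hδA⟩ : ∃ δ > 0, ∀ x ∈ A, δ ≤ ‖φ x‖ := by
    rcases A.eq_empty_or_nonempty with rfl | hne
    · exact ⟨1, one_pos, fun x hx => hx.elim⟩
    · obtain ⟨x, hx, hmin⟩ := hA.isCompact.exists_isMinOn hne hφ.norm.continuousOn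
      exact ⟨‖φ x‖, norm_pos_iff.mpr (hφA x hx), fun y hy => hmin hy⟩
  have hδ4 : 0 < δ / 4 := by positivity
  -- finite cover of the image
  have hcomp : IsCompact (range φ) := isCompact_range hφ
  obtain ⟨T, hTfin, hT⟩ := Metric.totallyBounded_iff.mp hcomp.totallyBounded (δ / 4) hδ4
  set m := hTfin.toFinset.card with hm
  set e := hTfin.toFinset.equivFin with he
  set cen : Fin m → ℂ := fun i => (e.symm i : ℂ) with hcen
  obtain ⟨k, V, hVo, hVc, hVr, hVn⟩ := hD m (fun i => φ ⁻¹' Metric.ball (cen i) (δ / 4))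
    (fun i => Metric.isOpen_ball.preimage hφ) (by
      intro x _
      have := hT (mem_range_self x)
      simp only [mem_iUnion] at this
      obtain ⟨c, hc, hxc⟩ := this
      rw [mem_iUnion]
      refine ⟨e ⟨c, by simpa using hc⟩, ?_⟩
      simpa [hcen] using hxc)
  choose r hr using hVr
  obtain ⟨c', hc'1, hc'2⟩ := genpos (fun j => cen (r j)) hδ4
  have hfun : ∀ j, ∃ f : X → ℝ, Continuous f ∧ (∀ x, 0 ≤ f x) ∧ ∀ x, 0 < f x ↔ x ∈ V j :=
    fun j => posfun (hVo j)
  choose f f1 f2 f3 using hfun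
  set F : X → ℝ := fun x => ∑ j, f j x with hF
  have hFc : Continuous F := continuous_finsetSum _ fun j _ => f1 j
  have hFpos : ∀ x ∈ K, 0 < F x := by
    intro x hx
    obtain ⟨j, hj⟩ := mem_iUnion.mp (hVc hx)
    exact Finset.sum_pos' (fun i _ => f2 i x) ⟨j, Finset.mem_univ _, (f3 j x).mpr hj⟩
  set g : X → ℂ := fun x => (∑ j, (f j x : ℂ) * c' j) / F x with hg
  have hgc : ContinuousOn g K := by
    apply ContinuousOn.div
    · exact (continuous_finsetSum _ fun j _ =>
        (Complex.continuous_ofReal.comp (f1 j)).mul continuous_const).continuousOn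
    · exact (Complex.continuous_ofReal.comp hFc).continuousOn
    · intro x hx
      exact_mod_cast (hFpos x hx).ne'
  -- closeness
  have hclose : ∀ x ∈ K, ‖g x - φ x‖ < δ / 2 := by
    intro x hx
    have hFx := hFpos x hx
    have hFx' : (F x : ℂ) ≠ 0 := by exact_mod_cast hFx.ne'
    have h1 : g x - φ x = (∑ j, (f j x : ℂ) * (c' j - φ x)) / F x := by
      simp only [hg]
      rw [div_sub' hFx']
      congr 1
      simp only [mul_sub, Finset.sum_sub_distrib, ← Finset.sum_mul]
      congr 2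
      simp only [hF]
      push_cast
      rfl
    rw [h1, norm_div, Complex.norm_real, Real.norm_eq_abs, abs_of_pos hFx, div_lt_iff₀ hFx]
    have hterm : ∀ j, 0 < f j x → ‖c' j - φ x‖ < δ / 2 := by
      intro j hj
      have hxV : x ∈ V j := (f3 j x).mp hj
      have h2 : ‖φ x - cen (r j)‖ < δ / 4 := by
        have := hr j hxV
        simpa [dist_eq_norm] using this
      have h3 := hc'1 j
      calc ‖c' j - φ x‖ = ‖(c' j - cen (r j)) - (φ x - cen (r j))‖ := by congr 1; ring
        _ ≤ ‖c' j - cen (r j)‖ + ‖φ x - cen (r j)‖ := norm_sub_le _ _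
        _ < δ / 2 := by linarith
    obtain ⟨j0, hj0⟩ := mem_iUnion.mp (hVc hx)
    have hj0' : 0 < f j0 x := (f3 j0 x).mpr hj0
    calc ‖∑ j, (f j x : ℂ) * (c' j - φ x)‖ ≤ ∑ j, ‖(f j x : ℂ) * (c' j - φ x)‖ := norm_sum_le _ _
      _ < ∑ j, f j x * (δ / 2) := by
          apply Finset.sum_lt_sum
          · intro j _
            rw [norm_mul, Complex.norm_real, Real.norm_eq_abs, abs_of_nonneg (f2 j x)]
            rcases (f2 j x).lt_or_eq with h | h
            · exact mul_le_mul_of_nonneg_left (hterm j h).le (f2 j x)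
            · rw [← h]; simp
          · refine ⟨j0, Finset.mem_univ _, ?_⟩
            rw [norm_mul, Complex.norm_real, Real.norm_eq_abs, abs_of_nonneg (f2 j0 x)]
            exact mul_lt_mul_of_pos_left (hterm j0 hj0') hj0'
      _ = δ / 2 * F x := by rw [← Finset.sum_mul]; simp only [hF]; ring
  -- nonvanishing
  have hg0 : ∀ x ∈ K, g x ≠ 0 := by
    intro x hx
    have hFx := hFpos x hx
    have hFx' : (F x : ℂ) ≠ 0 := by exact_mod_cast hFx.ne'
    obtain ⟨j0, hj0⟩ := mem_iUnion.mp (hVc hx)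
    have hj0' : 0 < f j0 x := (f3 j0 x).mpr hj0
    -- there is i such that all other indices vanish
    obtain ⟨i, hi⟩ : ∃ i, ∀ j, j ≠ j0 → j ≠ i → f j x = 0 := by
      by_contra hcon
      push Not at hcon
      obtain ⟨i1, h1, _, h3⟩ := hcon j0
      obtain ⟨i2, h4, h5, h6⟩ := hcon i1
      have hpos : ∀ j, f j x ≠ 0 → x ∈ V j := fun j hj =>
        (f3 j x).mp (lt_of_le_of_ne (f2 j x) (Ne.symm hj))
      have hsub : (({j0, i1, i2} : Finset (Fin k)) : Set (Fin k)) ⊆ {j : Fin k | x ∈ V j} := by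
        intro j hj
        simp only [Finset.coe_insert, Finset.coe_singleton, Set.mem_insert_iff,
          Set.mem_singleton_iff] at hj
        rcases hj with rfl | rfl | rfl
        · exact hj0
        · exact hpos _ h3
        · exact hpos _ h6
      have hcard := Set.ncard_le_ncard hsub (Set.toFinite _)
      rw [Set.ncard_coe_finset] at hcard
      have h3' : ({j0, i1, i2} : Finset (Fin k)).card = 3 := by
        rw [Finset.card_eq_three]
        exact ⟨j0, i1, i2, h1.symm, h4.symm, h5.symm, rfl⟩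
      have := hVn x hx
      omega
    simp only [hg]
    apply div_ne_zero _ hFx'
    by_cases hij : i = j0
    · have : ∑ j, (f j x : ℂ) * c' j = f j0 x * c' j0 := by
        apply Finset.sum_eq_single j0
        · intro j _ hj
          rw [hi j hj (by rw [hij]; exact hj)]
          simp
        · intro h; exact absurd (Finset.mem_univ _) h
      rw [this]
      have := hc'2 j0 j0 (f j0 x) 0 (f2 _ _) le_rfl (by linarith)
      simpa using this
    · have : ∑ j, (f j x : ℂ) * c' j = f j0 x * c' j0 + f i x * c' i := by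
        apply Finset.sum_eq_add_of_mem j0 i (Finset.mem_univ _) (Finset.mem_univ _) (Ne.symm hij)
        intro j _ hj
        rw [hi j hj.1 hj.2]
        simp
      rw [this]
      exact hc'2 j0 i _ _ (f2 _ _) (f2 _ _) (by linarith [f2 i x])
  -- glue
  have hdis : Disjoint {x : X | ‖φ x‖ ≤ δ / 2} A := by
    rw [Set.disjoint_left]
    intro x hx hxA
    have := hδA x hxA
    rw [mem_ofPred_eq] at hx
    linarith
  obtain ⟨lam, l0, l1, l2⟩ := exists_continuous_zero_one_of_isClosed
    (isClosed_le hφ.norm continuous_const) hA hdis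
  refine glueExt hA hK hφ (h := fun x => g x + lam x * (φ x - g x)) ?_ ?_ ?_
  · exact hgc.add ((Complex.continuous_ofReal.comp lam.continuous).continuousOn.mul
      (hφ.continuousOn.sub hgc))
  · intro x hx h0
    rcases le_or_gt (‖φ x‖) (δ / 2) with h | h
    · have hl : lam x = 0 := l0 h
      simp only [hl, Complex.ofReal_zero, zero_mul, add_zero] at h0
      exact hg0 x hx h0
    · have h1 : φ x = (1 - lam x : ℝ) * (φ x - g x) := by
        push_cast
        linear_combination h0
      have h2 : ‖φ x‖ = |1 - lam x| * ‖φ x - g x‖ := by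
        conv_lhs => rw [h1]
        rw [norm_mul, Complex.norm_real, Real.norm_eq_abs]
      have h3 : |1 - lam x| ≤ 1 := by
        rw [abs_le]
        constructor <;> linarith [(l2 x).1, (l2 x).2]
      have h4 := hclose x hx
      rw [norm_sub_rev] at h4
      nlinarith [norm_nonneg (φ x - g x), abs_nonneg (1 - lam x)]
  · intro x hxA hxK
    have hl : lam x = 1 := l1 hxA
    simp [hl]


omit [CompactSpace X] in
lemma triple [CompactSpace X] {k : ℕ} {f : Fin k → X → ℝ} (f1 : ∀ j, Continuous (f j))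
    (f2 : ∀ j x, 0 ≤ f j x) (f4 : ∀ x, ∃ j, 0 < f j x)
    (hE : ∀ A : Set X, IsClosed A → ∀ φ : X → ℂ, Continuous φ → (∀ x ∈ A, φ x ≠ 0) → Ext A φ univ)
    (T : Finset (Fin k)) (hT : T.card = 3) :
    ∃ G : Fin k → X → ℝ, (∀ j, Continuous (G j)) ∧ (∀ j, j ∉ T → ∀ x, G j x = 0) ∧
      (∀ x, ∃ j, 0 < G j x) ∧ (∀ x, ∃ j ∈ T, G j x = 0) ∧
      ∀ x, (∀ j, j ∉ T → f j x = 0) → (∃ j ∈ T, f j x = 0) → ∀ j, G j x = f j x := by
  classical
  obtain ⟨a, b, c, hab, hac, hbc, rfl⟩ := Finset.card_eq_three.mp hT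
  set φ : X → ℂ := fun x => ((f a x - f c x : ℝ) : ℂ) + ((f b x - f c x : ℝ) : ℂ) * Complex.I with hφ
  have hφc : Continuous φ := by
    apply Continuous.add
    · exact Complex.continuous_ofReal.comp ((f1 a).sub (f1 c))
    · exact (Complex.continuous_ofReal.comp ((f1 b).sub (f1 c))).mul continuous_const
  have hre : ∀ x, (φ x).re = f a x - f c x := fun x => by simp [hφ]
  have him : ∀ x, (φ x).im = f b x - f c x := fun x => by simp [hφ]
  set A : Set X := (⋂ j, ⋂ (_ : j ∉ ({a, b, c} : Finset (Fin k))), {x | f j x = 0}) ∩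
    {x | f a x * f b x * f c x = 0} with hA
  have hAc : IsClosed A := by
    apply IsClosed.inter
    · exact isClosed_iInter fun j => isClosed_iInter fun _ => isClosed_eq (f1 j) continuous_const
    · exact isClosed_eq (((f1 a).mul (f1 b)).mul (f1 c)) continuous_const
  have hA0 : ∀ x ∈ A, φ x ≠ 0 := by
    rintro x ⟨hx1, hx2⟩ h0
    simp only [mem_iInter, mem_ofPred_eq] at hx1 hx2
    have e1 : f a x = f c x := by have := hre x; rw [h0] at this; simp at this; linarith
    have e2 : f b x = f c x := by have := him x; rw [h0] at this; simp at this; linarith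
    rw [e1, e2] at hx2
    have e3 : f c x = 0 := by
      rcases mul_eq_zero.mp hx2 with h | h
      · rcases mul_eq_zero.mp h with h | h <;> exact h
      · exact h
    obtain ⟨j, hj⟩ := f4 x
    by_cases hjT : j ∈ ({a, b, c} : Finset (Fin k))
    · simp only [Finset.mem_insert, Finset.mem_singleton] at hjT
      rcases hjT with rfl | rfl | rfl <;> linarith
    · linarith [hx1 j hjT]
  obtain ⟨g, gc, gA, g0⟩ := hE A hAc φ hφc hA0
  set m : X → ℝ := fun x => min (min (g x).re (g x).im) 0 with hm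
  have grc : Continuous fun x => (g x).re := Complex.continuous_re.comp gc
  have gic : Continuous fun x => (g x).im := Complex.continuous_im.comp gc
  have hmc : Continuous m := (grc.min gic).min continuous_const
  set G : Fin k → X → ℝ := fun j x => if j = a then (g x).re - m x else if j = b then (g x).im - m x
    else if j = c then - m x else 0 with hG
  have Ga : ∀ x, G a x = (g x).re - m x := fun x => by simp [hG]
  have Gb : ∀ x, G b x = (g x).im - m x := fun x => by simp [hG, hab.symm]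
  have Gc : ∀ x, G c x = - m x := fun x => by simp [hG, hac.symm, hbc.symm]
  have Go : ∀ j, j ∉ ({a, b, c} : Finset (Fin k)) → ∀ x, G j x = 0 := fun j hj x => by
    simp only [Finset.mem_insert, Finset.mem_singleton, not_or] at hj
    simp [hG, hj.1, hj.2.1, hj.2.2]
  refine ⟨G, ?_, Go, ?_, ?_, ?_⟩
  · intro j
    by_cases ha : j = a
    · subst ha; simp only [hG, if_true]; exact grc.sub hmc
    by_cases hb : j = b
    · subst hb; simp only [hG, if_true, if_neg ha]; exact gic.sub hmc
    by_cases hc : j = c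
    · subst hc; simp only [hG, if_true, if_neg ha, if_neg hb]; exact hmc.neg
    · simp only [hG, if_neg ha, if_neg hb, if_neg hc]; exact continuous_const
  · intro x
    by_contra hcon
    push Not at hcon
    have e1 := hcon a
    have e2 := hcon b
    have e3 := hcon c
    rw [Ga] at e1; rw [Gb] at e2; rw [Gc] at e3
    have m1 : m x ≤ (g x).re := (min_le_left _ _).trans (min_le_left _ _)
    have m2 : m x ≤ (g x).im := (min_le_left _ _).trans (min_le_right _ _)
    have m3 : m x ≤ 0 := min_le_right _ _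
    apply g0 x (mem_univ x)
    apply Complex.ext
    · simp; linarith
    · simp; linarith
  · intro x
    rcases le_total (min (g x).re (g x).im) 0 with h | h
    · rcases le_total (g x).re (g x).im with h' | h'
      · refine ⟨a, by simp, ?_⟩
        rw [Ga]
        simp only [hm]
        rw [min_eq_left h, min_eq_left h', sub_self]
      · refine ⟨b, by simp, ?_⟩
        rw [Gb]
        simp only [hm]
        rw [min_eq_left h, min_eq_right h', sub_self]
    · refine ⟨c, by simp, ?_⟩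
      rw [Gc]
      simp only [hm]
      rw [min_eq_right h, neg_zero]
  · rintro x hx1 ⟨j, hj, hj0⟩ i
    have hxA : x ∈ A := by
      refine ⟨?_, ?_⟩
      · simp only [mem_iInter, mem_ofPred_eq]
        exact hx1
      · rw [mem_ofPred_eq]
        simp only [Finset.mem_insert, Finset.mem_singleton] at hj
        rcases hj with rfl | rfl | rfl <;> simp [hj0]
    have hgx := gA x hxA
    have r1 : (g x).re = f a x - f c x := by rw [hgx, hre]
    have r2 : (g x).im = f b x - f c x := by rw [hgx, him]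
    have hmx : m x = - f c x := by
      simp only [hm, r1, r2]
      simp only [Finset.mem_insert, Finset.mem_singleton] at hj
      rcases hj with rfl | rfl | rfl
      · rw [hj0, min_eq_left (b := f b x - f c x) (by linarith [f2 b x]), min_eq_left]
        · ring
        · linarith [f2 c x]
      · rw [hj0, min_eq_right (b := 0 - f c x) (by linarith [f2 a x]), min_eq_left]
        · ring
        · linarith [f2 c x]
      · rw [hj0, min_eq_right]
        · ring
        · simp [f2]
    by_cases hi : i ∈ ({a, b, c} : Finset (Fin k))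
    · simp only [Finset.mem_insert, Finset.mem_singleton] at hi
      rcases hi with rfl | rfl | rfl
      · rw [Ga, r1, hmx]; ring
      · rw [Gb, r2, hmx]; ring
      · rw [Gc, hmx]; ring
    · rw [Go i hi, hx1 i hi]

/-- dimension at most two together with the extension property gives dimension at most one -/
lemma dim_one_of_ext
    (hD : ∀ (m : ℕ) (U : Fin m → Set X), (∀ i, IsOpen (U i)) → univ ⊆ ⋃ i, U i →
          ∃ (k : ℕ) (V : Fin k → Set X), (∀ j, IsOpen (V j)) ∧ univ ⊆ ⋃ j, V j ∧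
            (∀ j, ∃ i, V j ⊆ U i) ∧ ∀ x ∈ (univ : Set X), {j : Fin k | x ∈ V j}.ncard ≤ 2 + 1)
    (hE : ∀ A : Set X, IsClosed A → ∀ φ : X → ℂ, Continuous φ → (∀ x ∈ A, φ x ≠ 0) → Ext A φ univ)
    (m : ℕ) (U : Fin m → Set X) (hU : ∀ i, IsOpen (U i)) (hUc : univ ⊆ ⋃ i, U i) :
          ∃ (k : ℕ) (V : Fin k → Set X), (∀ j, IsOpen (V j)) ∧ univ ⊆ ⋃ j, V j ∧
            (∀ j, ∃ i, V j ⊆ U i) ∧ ∀ x ∈ (univ : Set X), {j : Fin k | x ∈ V j}.ncard ≤ 1 + 1 := by
  classical
  obtain ⟨k, V, hVo, hVc, hVr, hVn⟩ := hD m U hU hUc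
  by_cases hk : k < 3
  · refine ⟨k, V, hVo, hVc, hVr, fun x _ => ?_⟩
    have := Set.ncard_le_ncard (subset_univ {j : Fin k | x ∈ V j}) (Set.toFinite _)
    rw [Set.ncard_univ, Nat.card_fin] at this
    omega
  have hfun : ∀ j, ∃ f : X → ℝ, Continuous f ∧ (∀ x, 0 ≤ f x) ∧ ∀ x, 0 < f x ↔ x ∈ V j :=
    fun j => posfun (hVo j)
  choose f f1 f2 f3 using hfun
  have f4 : ∀ x, ∃ j, 0 < f j x := fun x => by
    obtain ⟨j, hj⟩ := mem_iUnion.mp (hVc (mem_univ x))
    exact ⟨j, (f3 j x).mpr hj⟩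
  choose! G G1 G2 G3 G4 G5 using fun T hT => triple f1 f2 f4 hE T hT
  -- a triple containing the support of x
  have hsup : ∀ x, ∃ T : Finset (Fin k), T.card = 3 ∧ ∀ j, j ∉ T → f j x = 0 := by
    intro x
    set s : Finset (Fin k) := Finset.univ.filter fun j => x ∈ V j with hs
    have hs3 : s.card ≤ 3 := by
      have := hVn x (mem_univ x)
      have h2 : {j : Fin k | x ∈ V j} = (s : Set (Fin k)) := by ext j; simp [hs]
      rw [h2, Set.ncard_coe_finset] at this
      exact this
    obtain ⟨T, hT1, hT2⟩ := Finset.exists_superset_card_eq hs3 (by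
      rw [Fintype.card_fin]; omega)
    refine ⟨T, hT2, fun j hj => ?_⟩
    have : x ∉ V j := fun h => hj (hT1 (by simp [hs, h]))
    rw [← f3] at this
    linarith [f2 j x, not_lt.mp this]
  choose S S1 S2 using hsup
  -- compatibility
  have hcompat : ∀ x (T : Finset (Fin k)), T.card = 3 → (∀ j, j ∉ T → f j x = 0) →
      ∀ j, G (S x) j x = G T j x := by
    intro x T hT hTx j
    by_cases hTS : S x = T
    · rw [hTS]
    · have h1 : ∃ i ∈ S x, i ∉ T := by
        by_contra hcon
        push Not at hcon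
        exact hTS (Finset.eq_of_subset_of_card_le hcon (by rw [hT, S1]))
      have h2 : ∃ i ∈ T, i ∉ S x := by
        by_contra hcon
        push Not at hcon
        exact hTS (Finset.eq_of_subset_of_card_le hcon (by rw [hT, S1])).symm
      obtain ⟨i, hi1, hi2⟩ := h1
      obtain ⟨i', hi1', hi2'⟩ := h2
      rw [G5 (S x) (S1 x) x (S2 x) ⟨i, hi1, hTx i hi2⟩ j,
        G5 T hT x hTx ⟨i', hi1', S2 x i' hi2'⟩ j]
  set f' : Fin k → X → ℝ := fun j x => G (S x) j x with hf'
  have hf'c : ∀ j, Continuous (f' j) := by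
    intro j
    have hcov : ⋃ T : {T : Finset (Fin k) // T.card = 3}, {x : X | ∀ j, j ∉ T.1 → f j x = 0} = univ := by
      rw [eq_univ_iff_forall]
      intro x
      rw [mem_iUnion]
      exact ⟨⟨S x, S1 x⟩, S2 x⟩
    refine LocallyFinite.continuous (locallyFinite_of_finite _) hcov ?_ ?_
    · intro T
      have : {x : X | ∀ j, j ∉ T.1 → f j x = 0} = ⋂ j, ⋂ (_ : j ∉ T.1), {x | f j x = 0} := by
        ext x; simp
      rw [this]
      exact isClosed_iInter fun j => isClosed_iInter fun _ => isClosed_eq (f1 j) continuous_const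
    · intro T
      exact (G1 T.1 T.2 j).continuousOn.congr fun x hx => hcompat x T.1 T.2 hx j
  refine ⟨k, fun j => {x | 0 < f' j x}, fun j => isOpen_lt continuous_const (hf'c j), ?_, ?_, ?_⟩
  · intro x _
    obtain ⟨j, hj⟩ := G3 (S x) (S1 x) x
    exact mem_iUnion.mpr ⟨j, hj⟩
  · intro j
    obtain ⟨i, hi⟩ := hVr j
    refine ⟨i, fun x hx => hi ?_⟩
    rw [← f3]
    have hx' : 0 < G (S x) j x := hx
    by_cases hA : ∃ i ∈ S x, f i x = 0
    · rw [← G5 (S x) (S1 x) x (S2 x) hA j]; exact hx'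
    · push Not at hA
      have hjS : j ∈ S x := by
        by_contra hn
        rw [G2 (S x) (S1 x) j hn x] at hx'
        exact lt_irrefl _ hx'
      exact lt_of_le_of_ne (f2 j x) (Ne.symm (hA j hjS))
  · intro x _
    obtain ⟨i, hi1, hi2⟩ := G4 (S x) (S1 x) x
    have hsub : {j : Fin k | x ∈ {x | 0 < f' j x}} ⊆ (((S x).erase i : Finset (Fin k)) : Set (Fin k)) := by
      intro j hj
      have hj' : 0 < G (S x) j x := hj
      rw [Finset.mem_coe, Finset.mem_erase]
      constructor
      · rintro rfl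
        rw [hi2] at hj'
        exact lt_irrefl _ hj'
      · by_contra hn
        rw [G2 (S x) (S1 x) j hn x] at hj'
        exact lt_irrefl _ hj'
    have := Set.ncard_le_ncard hsub (Set.toFinite _)
    rw [Set.ncard_coe_finset, Finset.card_erase_of_mem hi1, S1] at this
    exact this

end

/-- Every compact connected metric space of covering dimension exactly 2 that contains no triod has a subcontinuum of covering dimension exactly 2 that is not the union of two proper subcontinua. -/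
theorem result :
  ∀ (X : Type) [MetricSpace X] [CompactSpace X] [ConnectedSpace X],
    ∀ D : Set X → ℕ → Prop,
      (∀ (S : Set X) (n : ℕ), D S n ↔
        ∀ (m : ℕ) (U : Fin m → Set X), (∀ i, IsOpen (U i)) → S ⊆ ⋃ i, U i →
          ∃ (k : ℕ) (V : Fin k → Set X), (∀ j, IsOpen (V j)) ∧ S ⊆ ⋃ j, V j ∧
            (∀ j, ∃ i, V j ⊆ U i) ∧ ∀ x ∈ S, {j : Fin k | x ∈ V j}.ncard ≤ n + 1) →
      (¬ ∃ T Z A B C : Set X, IsCompact T ∧ IsConnected T ∧ IsCompact Z ∧ IsConnected Z ∧
          Z ⊆ T ∧ T \ Z = A ∪ B ∪ C ∧ A.Nonempty ∧ B.Nonempty ∧ C.Nonempty ∧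
          Disjoint (closure A) B ∧ Disjoint A (closure B) ∧
          Disjoint (closure A) C ∧ Disjoint A (closure C) ∧
          Disjoint (closure B) C ∧ Disjoint B (closure C)) →
      D Set.univ 2 → ¬ D Set.univ 1 →
      ∃ K : Set X, IsCompact K ∧ IsConnected K ∧ D K 2 ∧ ¬ D K 1 ∧
        ∀ P Q : Set X, IsCompact P → IsConnected P → IsCompact Q → IsConnected Q →
          P ∪ Q = K → P = K ∨ Q = K := by
  intro X _ _ _ D hD hT h2 h1
  classical
  obtain ⟨A, φ, hA, hφ, hφA, hn⟩ : ∃ (A : Set X) (φ : X → ℂ), IsClosed A ∧ Continuous φ ∧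
      (∀ x ∈ A, φ x ≠ 0) ∧ ¬ Ext A φ univ := by
    by_contra hcon
    push Not at hcon
    apply h1
    rw [hD]
    exact dim_one_of_ext ((hD _ _).mp h2) (fun A hA φ hφ hφA => hcon A φ hA hφ hφA)
  obtain ⟨K, hK, hKn, hKmin⟩ := exists_minimal hn
  obtain ⟨hKc, hKi⟩ := minimal_good hA hφ hφA hK hKn hKmin hT
  refine ⟨K, hK.isCompact, hKc, ?_, fun hK1 => hKn (ext_of_dim_one hK ((hD _ _).mp hK1) hA hφ hφA), hKi⟩
  rw [hD]
  intro m U hU hUc
  -- extend the cover of K to a cover of X
  set U' : Fin (m + 1) → Set X := Fin.cons Kᶜ U with hU'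
  obtain ⟨k, V, hVo, hVc, hVr, hVn⟩ := (hD _ _).mp h2 (m + 1) U' (by
      intro i
      refine Fin.cases ?_ (fun i => ?_) i
      · exact hK.isOpen_compl
      · exact hU i) (by
      intro x _
      by_cases hx : x ∈ K
      · obtain ⟨i, hi⟩ := mem_iUnion.mp (hUc hx)
        exact mem_iUnion.mpr ⟨i.succ, hi⟩
      · exact mem_iUnion.mpr ⟨0, hx⟩)
  obtain ⟨x0, hx0⟩ := hKc.nonempty
  obtain ⟨i0, _⟩ := mem_iUnion.mp (hUc hx0)
  refine ⟨k, fun j => if ∃ i, V j ⊆ U i then V j else ∅, ?_, ?_, ?_, ?_⟩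
  · intro j
    by_cases h : ∃ i, V j ⊆ U i
    · simp only [if_pos h]; exact hVo j
    · simp only [if_neg h]; exact isOpen_empty
  · intro x hx
    obtain ⟨j, hj⟩ := mem_iUnion.mp (hVc (mem_univ x))
    refine mem_iUnion.mpr ⟨j, ?_⟩
    have h : ∃ i, V j ⊆ U i := by
      obtain ⟨i, hi⟩ := hVr j
      revert hi
      refine Fin.cases ?_ (fun i => ?_) i
      · intro hi; exact absurd hx (hi hj)
      · intro hi; exact ⟨i, hi⟩
    simp only [if_pos h]; exact hj
  · intro j
    by_cases h : ∃ i, V j ⊆ U i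
    · simp only [if_pos h]; exact h
    · simp only [if_neg h]; exact ⟨i0, empty_subset _⟩
  · intro x hx
    refine (Set.ncard_le_ncard (t := {j : Fin k | x ∈ V j}) ?_ (Set.toFinite _)).trans
      (hVn x (mem_univ x))
    intro j hj
    by_cases h : ∃ i, V j ⊆ U i
    · simpa only [mem_ofPred_eq, if_pos h] using hj
    · simp only [mem_ofPred_eq, if_neg h] at hj
      exact hj.elim

end Pool.Agent.S08633
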