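import Pool.Statements.S08645
-- import your own Pool.Agent.* helpers here

set_option autoImplicit false
open Pool Pool.MP_8a5d18_gt

namespace Pool.Agent.S08645

open Filter Topology Set

/-- `g` is in the pointwise closure of `C`. -/
def Cl {X : Type} [TopologicalSpace X] (C : Set C(X, ℝ)) (g : C(X, ℝ)) : Prop :=
  ∀ (F : Finset X) (ε : ℝ), 0 < ε → ∃ h ∈ C, ∀ x ∈ F, |h x - g x| < ε

/-- A closed set of `C_p(X)` contains every element of its pointwise closure. -/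
lemma mem_of_closed {X : Type} [TopologicalSpace X] (A : Set C(X, ℝ))
    (hA : @IsClosed C(X, ℝ)
      (TopologicalSpace.induced (fun h : C(X, ℝ) => (h : X → ℝ)) Pi.topologicalSpace) A)
    (g : C(X, ℝ)) (hg : Cl A g) : g ∈ A := by
  by_contra hgA
  rw [isClosed_induced_iff] at hA
  obtain ⟨t, ht, rfl⟩ := hA
  have ho : IsOpen tᶜ := ht.isOpen_compl
  have hgt : (g : X → ℝ) ∈ tᶜ := hgA
  obtain ⟨I, u, hu, hsub⟩ := (isOpen_pi_iff.1 ho) _ hgt
  have h1 : ∀ a : X, ∃ ε : ℝ, 0 < ε ∧ (a ∈ I → ∀ y : ℝ, |y - g a| < ε → y ∈ u a) := by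
    intro a
    by_cases ha : a ∈ I
    · obtain ⟨ε, hε, hb⟩ := Metric.isOpen_iff.1 (hu a ha).1 _ (hu a ha).2
      refine ⟨ε, hε, fun _ y hy => hb ?_⟩
      rw [Metric.mem_ball, Real.dist_eq]
      exact hy
    · exact ⟨1, one_pos, fun h => absurd h ha⟩
  choose e he hb using h1
  obtain ⟨ε, hε, hmin⟩ : ∃ ε : ℝ, 0 < ε ∧ ∀ a ∈ I, ε ≤ e a := by
    by_cases hI : I.Nonempty
    · refine ⟨I.inf' hI e, ?_, fun a ha => Finset.inf'_le _ ha⟩
      rw [Finset.lt_inf'_iff]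
      exact fun a _ => he a
    · refine ⟨1, one_pos, fun a ha => absurd ⟨a, ha⟩ hI⟩
  obtain ⟨h, hh, hhF⟩ := hg I ε hε
  have : (h : X → ℝ) ∈ tᶜ := by
    apply hsub
    intro a ha
    exact hb a ha _ ((hhF a ha).trans_le (hmin a ha))
  exact this hh

/-- Separation of a finite set from the complement of an open neighbourhood. -/
lemma sep {X : Type} [TopologicalSpace X] [T35Space X] (F : Finset X) (U : Set X)
    (hU : IsOpen U) (hFU : (F : Set X) ⊆ U) :
    ∃ f : C(X, ℝ), (∀ x ∈ F, f x = 0) ∧ ∀ x, x ∉ U → f x = 1 := by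
  have h1 : ∀ a : X, ∃ f : C(X, ℝ), (a ∈ F → f a = 0) ∧ ∀ x, x ∉ U → f x = 1 := by
    intro a
    by_cases ha : a ∈ F
    · obtain ⟨f, hf, hfa, hfU⟩ := CompletelyRegularSpace.completely_regular a Uᶜ
        hU.isClosed_compl (fun h => h (hFU ha))
      refine ⟨⟨fun x => (f x : ℝ), by fun_prop⟩, fun _ => ?_, fun x hx => ?_⟩
      · simp [hfa]
      · have := hfU (show x ∈ Uᶜ from hx)
        simp [this]
    · exact ⟨1, fun h => absurd h ha, fun x _ => rfl⟩
  choose f hf hf1 using h1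
  refine ⟨∏ a ∈ F, f a, fun x hx => ?_, fun x hx => ?_⟩
  · rw [ContinuousMap.prod_apply]
    exact Finset.prod_eq_zero hx (hf x hx)
  · rw [ContinuousMap.prod_apply]
    exact Finset.prod_eq_one (fun a _ => hf1 a x hx)

/-- For a nonprincipal ultrafilter p on ℕ and Tychonoff X: if C_p(X) is p-sequential, then every open ω-cover of X (X not a member) has a sequence Uₙ of members with {n : x ∈ Uₙ} ∈ p for every point x. -/
theorem result :
    ∀ (p : Ultrafilter ℕ), (p : Filter ℕ) ≤ Filter.cofinite →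
    ∀ (X : Type) [TopologicalSpace X] [T35Space X],
      (∀ A : Set C(X, ℝ),
        (∀ (f : ℕ → C(X, ℝ)) (g : C(X, ℝ)), (∀ n, f n ∈ A) →
          Filter.Tendsto f (p : Filter ℕ)
            (@nhds C(X, ℝ)
              (TopologicalSpace.induced (fun h : C(X, ℝ) => (h : X → ℝ)) Pi.topologicalSpace) g) →
          g ∈ A) →
        @IsClosed C(X, ℝ)
          (TopologicalSpace.induced (fun h : C(X, ℝ) => (h : X → ℝ)) Pi.topologicalSpace) A) →
      ∀ 𝒰 : Set (Set X), (∀ U ∈ 𝒰, IsOpen U) → (Set.univ : Set X) ∉ 𝒰 →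
        (∀ F : Finset X, ∃ U ∈ 𝒰, (↑F : Set X) ⊆ U) →
        ∃ u : ℕ → Set X, (∀ n, u n ∈ 𝒰) ∧
          ∀ x : X, ∀ᶠ n in (p : Filter ℕ), x ∈ u n := by
  intro p _ X _ _ H 𝒰 hop huniv hω
  -- reformulated hypothesis
  have H' : ∀ A : Set C(X, ℝ),
      (∀ (f : ℕ → C(X, ℝ)) (g : C(X, ℝ)), (∀ n, f n ∈ A) →
        (∀ x, Tendsto (fun n => f n x) (p : Filter ℕ) (𝓝 (g x))) → g ∈ A) →
      ∀ g, Cl A g → g ∈ A := by
    intro A hA g hg
    refine mem_of_closed A (H A ?_) g hg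
    intro f g' hf ht
    refine hA f g' hf ?_
    rw [nhds_induced, tendsto_comap_iff, tendsto_pi_nhds] at ht
    exact ht
  -- Step 1 : countable tightness
  have step1 : ∀ (A : Set C(X, ℝ)) (g : C(X, ℝ)), Cl A g →
      ∃ C ⊆ A, C.Countable ∧ Cl C g := by
    intro A g hg
    refine H' {g | ∃ C ⊆ A, C.Countable ∧ Cl C g} ?_ g ?_
    · intro f g' hf ht
      choose C hCA hCc hCl using hf
      refine ⟨⋃ n, C n, iUnion_subset hCA, countable_iUnion hCc, ?_⟩
      intro F ε hε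
      have h1 : ∀ᶠ n in (p : Filter ℕ), ∀ x ∈ F, |f n x - g' x| < ε / 2 := by
        rw [Finset.eventually_all]
        intro x _
        have := (Metric.tendsto_nhds.1 (ht x)) (ε / 2) (by positivity)
        simpa [Real.dist_eq] using this
      obtain ⟨n, hn⟩ := h1.exists
      obtain ⟨h, hh, hhF⟩ := hCl n F (ε / 2) (by positivity)
      refine ⟨h, mem_iUnion.2 ⟨n, hh⟩, fun x hx => ?_⟩
      have e1 := hn x hx
      have e2 := hhF x hx
      calc |h x - g' x| = |(h x - f n x) + (f n x - g' x)| := by ring_nf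
        _ ≤ |h x - f n x| + |f n x - g' x| := abs_add_le _ _
        _ < ε := by linarith
    · intro F ε hε
      obtain ⟨h, hh, hhF⟩ := hg F ε hε
      refine ⟨h, ⟨{h}, singleton_subset_iff.2 hh, countable_singleton _, ?_⟩, hhF⟩
      intro F' ε' hε'
      exact ⟨h, rfl, fun x _ => by simpa using hε'⟩
  -- Step 2 : 0 is in the closure of A
  have step2 : Cl {f : C(X, ℝ) | ∃ U ∈ 𝒰, ∀ x, x ∉ U → 1 ≤ f x} 0 := by
    intro F ε hε
    obtain ⟨U, hU, hFU⟩ := hω F
    obtain ⟨f, hf0, hf1⟩ := sep F U (hop U hU) hFU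
    refine ⟨f, ⟨U, hU, fun x hx => (hf1 x hx).ge⟩, fun x hx => ?_⟩
    rw [hf0 x hx]
    simpa using hε
  obtain ⟨C, hCA, hCc, hCl⟩ := step1 _ _ step2
  have hCne : C.Nonempty := by
    obtain ⟨h, hh, _⟩ := hCl ∅ 1 one_pos
    exact ⟨h, hh⟩
  obtain ⟨c, hc⟩ := hCc.exists_eq_range hCne
  have hcA : ∀ i, ∃ U ∈ 𝒰, ∀ x, x ∉ U → 1 ≤ c i x := fun i => hCA (hc ▸ mem_range_self i)
  choose U hU hU1 using hcA
  have hωU : ∀ F : Finset X, ∃ i, (F : Set X) ⊆ U i := by
    intro F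
    obtain ⟨h, hh, hhF⟩ := hCl F 1 one_pos
    rw [hc] at hh
    obtain ⟨i, rfl⟩ := hh
    refine ⟨i, fun x hx => ?_⟩
    by_contra hxU
    have h1 := hU1 i x hxU
    have h2 := hhF x hx
    rw [ContinuousMap.zero_apply, sub_zero] at h2
    exact absurd (h1.trans (le_abs_self _)) (not_le.2 h2)
  -- Step 3 : the set B
  set B : Set C(X, ℝ) := {f | ∃ i : ℕ, ∀ x, |f x| < (i : ℝ) + 1 → x ∈ U i} with hB
  have h0B : (0 : C(X, ℝ)) ∉ B := by
    rintro ⟨i, hi⟩
    apply huniv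
    have : U i = univ := by
      apply eq_univ_of_forall
      intro x
      apply hi x
      simp
      positivity
    rw [← this]
    exact hU i
  have hclB : Cl B 0 := by
    intro F ε hε
    obtain ⟨i, hi⟩ := hωU F
    obtain ⟨f, hf0, hf1⟩ := sep F (U i) (hop _ (hU i)) hi
    refine ⟨((i : ℝ) + 1) • f, ⟨i, fun x hx => ?_⟩, fun x hx => ?_⟩
    · by_contra hxU
      rw [ContinuousMap.smul_apply, hf1 x hxU, smul_eq_mul, mul_one,
        abs_of_nonneg (by positivity)] at hx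
      exact lt_irrefl _ hx
    · rw [ContinuousMap.smul_apply, hf0 x hx]
      simpa using hε
  have hex : ∃ (f : ℕ → C(X, ℝ)) (g : C(X, ℝ)), (∀ n, f n ∈ B) ∧
      (∀ x, Tendsto (fun n => f n x) (p : Filter ℕ) (𝓝 (g x))) ∧ g ∉ B := by
    by_contra hcon
    push Not at hcon
    exact h0B (H' B (fun f g hf ht => hcon f g hf ht) 0 hclB)
  obtain ⟨f, g, hfB, ht, hgB⟩ := hex
  choose idx hidx using hfB
  have hab : ∀ x, ∀ r : ℝ, |g x| < r → ∀ᶠ n in (p : Filter ℕ), |f n x| < r := by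
    intro x r hr
    exact ((ht x).abs).eventually (gt_mem_nhds hr)
  have hne : ∀ m : ℕ, ∀ᶠ k in (p : Filter ℕ), idx k ≠ m := by
    intro m
    rcases p.em (fun k => idx k = m) with h | h
    · exfalso
      apply hgB
      refine ⟨m, fun x hx => ?_⟩
      obtain ⟨k, hk1, hk2⟩ := (h.and (hab x _ hx)).exists
      rw [← hk1] at hk2 ⊢
      exact hidx k x hk2
    · exact h
  refine ⟨fun k => U (idx k), fun k => hU _, fun x => ?_⟩
  obtain ⟨N, hN⟩ := exists_nat_gt |g x|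
  have h1 : ∀ᶠ k in (p : Filter ℕ), ∀ m ∈ Finset.range N, idx k ≠ m := by
    rw [Finset.eventually_all]
    exact fun m _ => hne m
  filter_upwards [h1, hab x N hN] with k hk1 hk2
  apply hidx k x
  have h2 : N ≤ idx k := by
    by_contra hlt
    exact hk1 (idx k) (Finset.mem_range.2 (not_le.1 hlt)) rfl
  have h3 : (N : ℝ) ≤ idx k := by exact_mod_cast h2
  linarith

end Pool.Agent.S08645
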