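import Pool.Statements.S08649
import Mathlib

set_option autoImplicit false
set_option linter.unusedSectionVars false
open Pool Pool.MP_8ab655_gt

namespace Pool.Agent.S08649

namespace TL

open Set

/-- sum of a function on ordered pairs along a walk -/
def wsum {V : Type*} {G : SimpleGraph V} {A : Type*} [AddCommGroup A] (d : V → V → A) :
    ∀ {u v : V}, G.Walk u v → A
  | _, _, .nil => 0
  | _, _, .cons (u := u) (v := v) _ p => d u v + wsum d p

theorem wsum_concat {V : Type*} {G : SimpleGraph V} {A : Type*} [AddCommGroup A] (d : V → V → A)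
    {u v w : V} (p : G.Walk u v) (h : G.Adj v w) : wsum d (p.concat h) = wsum d p + d v w := by
  induction p with
  | nil => simp [SimpleGraph.Walk.concat, wsum, SimpleGraph.Walk.append]
  | cons h' p ih =>
    rw [SimpleGraph.Walk.concat_cons]
    simp only [wsum]
    rw [ih h, add_assoc]

/-- every antisymmetric function on the edges of a tree is a difference of a potential -/
theorem tree_potential {V : Type*} {G : SimpleGraph V} (hG : G.IsTree) {A : Type*} [AddCommGroup A]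
    (d : V → V → A) (hd : ∀ i j, d i j = - d j i) :
    ∃ φ : V → A, ∀ i j, G.Adj i j → φ j - φ i = d i j := by
  classical
  obtain ⟨r⟩ : Nonempty V := hG.connected.nonempty
  choose P hP hPu using fun v => (hG.existsUnique_path r v)
  refine ⟨fun v => wsum d (P v), ?_⟩
  intro i j hij
  show wsum d (P j) - wsum d (P i) = d i j
  by_cases h : j ∈ (P i).support
  · have e : P i = (P j).concat hij.symm :=
      hG.isAcyclic.path_concat (hP j) (hP i) hij.symm h
    rw [e, wsum_concat, hd i j]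
    abel
  · have hi : i ∈ (P j).support :=
      hG.isAcyclic.mem_support_of_ne_mem_support_of_adj_of_isPath (hP j) (hP i) hij.symm h
    have e : P j = (P i).concat hij :=
      hG.isAcyclic.path_concat (hP i) (hP j) hij hi
    rw [e, wsum_concat]
    abel

/-- every open cover is refined by a finite open cover whose nerve is a tree -/
def TreeLike (X : Type) [TopologicalSpace X] : Prop :=
  ∀ 𝒰 : Set (Set X), (∀ U ∈ 𝒰, IsOpen U) → ⋃₀ 𝒰 = Set.univ →
        ∃ (n : ℕ) (V : Fin n → Set X),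
          (∀ i, IsOpen (V i)) ∧ (⋃ i, V i) = Set.univ ∧
          (∀ i, ∃ U ∈ 𝒰, V i ⊆ U) ∧
          (∀ i j k, i ≠ j → j ≠ k → i ≠ k → V i ∩ V j ∩ V k = ∅) ∧
          (SimpleGraph.fromRel (fun i j : Fin n => (V i ∩ V j).Nonempty)).IsTree

variable {X : Type} [MetricSpace X] [CompactSpace X]

theorem lebesgue_const {A : Type*} [TopologicalSpace A] [DiscreteTopology A] {K : Set X}
    (hK : IsClosed K) (η : X → A) (hη : ContinuousOn η K) :
    ∃ δ > 0, ∀ x ∈ K, ∀ y ∈ K, dist y x < δ → η y = η x := by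
  classical
  have h1 : ∀ a : A, ∃ u : Set X, IsOpen u ∧ η ⁻¹' {a} ∩ K = u ∩ K := fun a =>
    (continuousOn_iff'.1 hη) {a} (isOpen_discrete _)
  choose U hU hUK using h1
  obtain ⟨δ, hδ, hb⟩ := lebesgue_number_lemma_of_metric (s := K) hK.isCompact (c := U) hU (by
    intro x hx
    have : x ∈ η ⁻¹' {η x} ∩ K := ⟨rfl, hx⟩
    rw [hUK] at this
    exact mem_iUnion.2 ⟨η x, this.1⟩)
  refine ⟨δ, hδ, ?_⟩
  intro x hx y hy hxy
  obtain ⟨a, ha⟩ := hb x hx
  have e1 : x ∈ U a ∩ K := ⟨ha (Metric.mem_ball_self hδ), hx⟩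
  have e2 : y ∈ U a ∩ K := ⟨ha (Metric.mem_ball.2 hxy), hy⟩
  rw [← hUK] at e1 e2
  exact (e2.1 : η y = a).trans (e1.1 : η x = a).symm

theorem split (hT : TreeLike X) {A : Type*} [AddCommGroup A] [TopologicalSpace A]
    [DiscreteTopology A] {K₁ K₂ : Set X} (h₁ : IsClosed K₁) (h₂ : IsClosed K₂) (η : X → A)
    (hη : ContinuousOn η (K₁ ∩ K₂)) :
    ∃ u v : X → A, ContinuousOn u K₁ ∧ ContinuousOn v K₂ ∧ ∀ x ∈ K₁ ∩ K₂, η x = u x - v x := by
  classical
  obtain ⟨δ, hδ, hc⟩ := lebesgue_const (h₁.inter h₂) η hη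
  obtain ⟨n, V, hVo, hVc, hVr, -, hTree⟩ := hT
    ({K₁ᶜ, K₂ᶜ} ∪ (fun x => Metric.ball x (δ / 2)) '' (K₁ ∩ K₂)) (by
      rintro U (hU | ⟨x, hx, rfl⟩)
      · rcases hU with hU | hU
        · rw [hU]; exact h₁.isOpen_compl
        · rw [mem_singleton_iff.1 hU]; exact h₂.isOpen_compl
      · exact Metric.isOpen_ball) (by
      rw [eq_univ_iff_forall]
      intro x
      by_cases hx1 : x ∈ K₁
      · by_cases hx2 : x ∈ K₂
        · exact ⟨Metric.ball x (δ / 2), Or.inr ⟨x, ⟨hx1, hx2⟩, rfl⟩,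
            Metric.mem_ball_self (by linarith)⟩
        · exact ⟨K₂ᶜ, Or.inl (Or.inr rfl), hx2⟩
      · exact ⟨K₁ᶜ, Or.inl (Or.inl rfl), hx1⟩)
  let c : Fin n → A := fun i =>
    if h : ∃ x ∈ K₁ ∩ K₂, V i ⊆ Metric.ball x (δ / 2) then η h.choose else 0
  have hmeet : ∀ i, (V i ∩ K₁).Nonempty → (V i ∩ K₂).Nonempty →
      ∃ x ∈ K₁ ∩ K₂, V i ⊆ Metric.ball x (δ / 2) ∧ c i = η x := by
    intro i ⟨x1, hx1, hx1'⟩ ⟨x2, hx2, hx2'⟩
    have h : ∃ x ∈ K₁ ∩ K₂, V i ⊆ Metric.ball x (δ / 2) := by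
      obtain ⟨U, hU, hVU⟩ := hVr i
      rcases hU with hU | ⟨x, hx, rfl⟩
      · rcases hU with hU | hU
        · exact absurd hx1' (by have := hVU hx1; rw [hU] at this; exact this)
        · exact absurd hx2' (by have := hVU hx2; rw [mem_singleton_iff.1 hU] at this; exact this)
      · exact ⟨x, hx, hVU⟩
    refine ⟨h.choose, h.choose_spec.1, h.choose_spec.2, ?_⟩
    simp only [c, dif_pos h]
  have hcc : ∀ i j, (V i ∩ K₁).Nonempty → (V i ∩ K₂).Nonempty → (V j ∩ K₁).Nonempty →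
      (V j ∩ K₂).Nonempty → (V i ∩ V j).Nonempty → c i = c j := by
    intro i j hi1 hi2 hj1 hj2 ⟨y, hyi, hyj⟩
    obtain ⟨x, hx, hVx, hcx⟩ := hmeet i hi1 hi2
    obtain ⟨x', hx', hVx', hcx'⟩ := hmeet j hj1 hj2
    rw [hcx, hcx']
    apply hc x' hx' x hx
    have e1 := Metric.mem_ball.1 (hVx hyi)
    have e2 := Metric.mem_ball.1 (hVx' hyj)
    have := dist_triangle x y x'
    rw [dist_comm x y] at this
    linarith
  let d : Fin n → Fin n → A := fun i j => if (V i ∩ V j ∩ K₁).Nonempty then 0 else c j - c i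
  have hd : ∀ i j, d i j = - d j i := by
    intro i j
    simp only [d]
    rw [inter_comm (V i) (V j)]
    split_ifs with h
    · simp
    · abel
  obtain ⟨φ, hφ⟩ := tree_potential hTree d hd
  have hadj : ∀ i j, i ≠ j → (V i ∩ V j).Nonempty → φ j - φ i = d i j := by
    intro i j hij hne
    apply hφ
    rw [SimpleGraph.fromRel_adj]
    exact ⟨hij, Or.inl hne⟩
  have ha : ∀ i j x, x ∈ V i → x ∈ V j → x ∈ K₁ → φ i = φ j := by
    intro i j x hxi hxj hx
    by_cases hij : i = j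
    · rw [hij]
    · have e := hadj i j hij ⟨x, hxi, hxj⟩
      have e' : d i j = 0 := if_pos ⟨x, ⟨hxi, hxj⟩, hx⟩
      rw [e'] at e
      exact (sub_eq_zero.1 e).symm
  have hb : ∀ i j x, x ∈ V i → x ∈ V j → x ∈ K₂ → φ i - c i = φ j - c j := by
    intro i j x hxi hxj hx
    by_cases hij : i = j
    · rw [hij]
    · have e := hadj i j hij ⟨x, hxi, hxj⟩
      by_cases h : (V i ∩ V j ∩ K₁).Nonempty
      · have e' : d i j = 0 := if_pos h
        rw [e'] at e
        obtain ⟨y, ⟨hyi, hyj⟩, hy⟩ := h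
        rw [(sub_eq_zero.1 e).symm, hcc i j ⟨y, hyi, hy⟩ ⟨x, hxi, hx⟩ ⟨y, hyj, hy⟩ ⟨x, hxj, hx⟩
          ⟨x, hxi, hxj⟩]
      · have e' : d i j = c j - c i := if_neg h
        rw [e'] at e
        have : φ j = φ i + (c j - c i) := by rw [← e]; abel
        rw [this]; abel
  have hcov : ∀ x : X, ∃ i, x ∈ V i := by
    intro x
    have : x ∈ ⋃ i, V i := by rw [hVc]; trivial
    exact mem_iUnion.1 this
  choose ix hix using hcov
  refine ⟨fun x => φ (ix x), fun x => φ (ix x) - c (ix x), ?_, ?_, ?_⟩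
  · intro x hx
    have : (fun y => φ (ix y)) =ᶠ[nhdsWithin x K₁] fun _ => φ (ix x) := by
      filter_upwards [inter_mem_nhdsWithin K₁ ((hVo (ix x)).mem_nhds (hix x))] with y hy
      exact ha _ _ y (hix y) hy.2 hy.1
    exact continuousWithinAt_const.congr_of_eventuallyEq this rfl
  · intro x hx
    have : (fun y => φ (ix y) - c (ix y)) =ᶠ[nhdsWithin x K₂] fun _ => φ (ix x) - c (ix x) := by
      filter_upwards [inter_mem_nhdsWithin K₂ ((hVo (ix x)).mem_nhds (hix x))] with y hy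
      exact hb _ _ y (hix y) hy.2 hy.1
    exact continuousWithinAt_const.congr_of_eventuallyEq this rfl
  · intro x hx
    obtain ⟨x', hx', hV', hc'⟩ := hmeet (ix x) ⟨x, hix x, hx.1⟩ ⟨x, hix x, hx.2⟩
    have e : η x = η x' := by
      apply hc x' hx' x hx
      have := Metric.mem_ball.1 (hV' (hix x))
      linarith
    simp only [sub_sub_cancel]
    rw [hc', e]


theorem cont_ite_of_closed {A : Type*} [TopologicalSpace A] {P Q : Set X} (hP : IsClosed P)
    (hQ : IsClosed Q) {f g : X → A} (hf : ContinuousOn f P) (hg : ContinuousOn g Q)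
    (hfg : ∀ x ∈ P ∩ Q, f x = g x) :
    ∃ w : X → A, ContinuousOn w (P ∪ Q) ∧ (∀ x ∈ P, w x = f x) ∧ (∀ x ∈ Q, w x = g x) := by
  classical
  have hwP : ∀ x ∈ P, (if x ∈ P then f x else g x) = f x := fun x hx => if_pos hx
  have hwQ : ∀ x ∈ Q, (if x ∈ P then f x else g x) = g x := by
    intro x hx
    by_cases h : x ∈ P
    · rw [if_pos h]; exact hfg x ⟨h, hx⟩
    · rw [if_neg h]
  refine ⟨fun x => if x ∈ P then f x else g x, ?_, hwP, hwQ⟩
  exact (hf.congr hwP).union_of_isClosed (hg.congr hwQ) hP hQ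

theorem hu (hT : TreeLike X) {C D : Set X} (hC : IsClosed C) (hD : IsClosed D)
    (pC : IsPreconnected C) (pD : IsPreconnected D) : IsPreconnected (C ∩ D) := by
  classical
  rw [isPreconnected_closed_iff]
  intro t t' ht ht' hsub ⟨a, haCD, hat⟩ ⟨b, hbCD, hbt⟩
  by_contra hne
  have hcl := hC.inter hD
  obtain ⟨η, hη, h1, h0⟩ := cont_ite_of_closed (A := ZMod 2) (hcl.inter ht) (hcl.inter ht')
    (f := fun _ => 1) (g := fun _ => 0) continuousOn_const continuousOn_const (by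
      rintro x ⟨⟨hx, hxt⟩, ⟨-, hxt'⟩⟩
      exact absurd ⟨x, hx, hxt, hxt'⟩ hne)
  have hη' : ContinuousOn η (C ∩ D) := hη.mono (by
    intro x hx
    rcases hsub hx with h | h
    · exact Or.inl ⟨hx, h⟩
    · exact Or.inr ⟨hx, h⟩)
  obtain ⟨u, v, hu, hv, he⟩ := split hT hC hD η hη'
  have e1 : u a = u b := pC.constant hu haCD.1 hbCD.1
  have e2 : v a = v b := pD.constant hv haCD.2 hbCD.2
  have e3 := he a haCD
  have e4 := he b hbCD
  rw [h1 a ⟨haCD, hat⟩, e1, e2, ← e4, h0 b ⟨hbCD, hbt⟩] at e3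
  exact absurd e3 (by decide)

/-- there is a locally constant function on `P` whose sums along orbits are one -/
def GoodC (p : ℕ) (g : X → X) (P : Set X) : Prop :=
  ∃ c : X → ZMod p, ContinuousOn c P ∧ ∀ x ∈ P, ∑ s ∈ Finset.range p, c (g^[s] x) = 1

theorem mapsTo_iter {g : X → X} {P : Set X} (h : MapsTo g P P) (s : ℕ) : MapsTo g^[s] P P :=
  h.iterate s

theorem good_union (hT : TreeLike X) {p : ℕ} {g : X → X} (hg : Continuous g) {P P' : Set X}
    (hP : IsClosed P) (hP' : IsClosed P') (mP : MapsTo g P P) (mP' : MapsTo g P' P')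
    (pP : ∀ x ∈ P, g^[p] x = x) (pP' : ∀ x ∈ P', g^[p] x = x)
    (h : GoodC p g P) (h' : GoodC p g P') : GoodC p g (P ∪ P') := by
  classical
  obtain ⟨c, hc, nc⟩ := h
  obtain ⟨e, he, ne⟩ := h'
  have mR : MapsTo g (P ∩ P') (P ∩ P') := fun x hx => ⟨mP hx.1, mP' hx.2⟩
  let δ : X → ZMod p := fun y => c y - e y
  let S : ℕ → X → ZMod p := fun t y => ∑ j ∈ Finset.range t, δ (g^[j] y)
  let η : X → ZMod p := fun y => ∑ t ∈ Finset.range p, e (g^[t] y) * S t y
  have hδ : ContinuousOn δ (P ∩ P') :=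
    (hc.mono inter_subset_left).sub (he.mono inter_subset_right)
  have hS : ∀ t, ContinuousOn (S t) (P ∩ P') := by
    intro t
    apply continuousOn_finsetSum _
    intro j _
    exact hδ.comp (hg.iterate j).continuousOn (mR.iterate j)
  have hη : ContinuousOn η (P ∩ P') := by
    apply continuousOn_finsetSum _
    intro t _
    exact ((he.mono inter_subset_right).comp (hg.iterate t).continuousOn (mR.iterate t)).mul (hS t)
  have hSp : ∀ y ∈ P ∩ P', S p y = 0 := by
    intro y hy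
    simp only [S, δ]
    rw [Finset.sum_sub_distrib, nc y hy.1, ne y hy.2, sub_self]
  have hkey : ∀ y ∈ P ∩ P', η y - η (g y) = δ y := by
    intro y hy
    have hSs : ∀ t, S t (g y) = S (t + 1) y - δ y := by
      intro t
      simp only [S]
      rw [Finset.sum_range_succ']
      simp only [← Function.iterate_succ_apply, Function.iterate_zero, id]
      ring
    have e1 : η (g y) = ∑ t ∈ Finset.range p, e (g^[t + 1] y) * S (t + 1) y
        - δ y * ∑ t ∈ Finset.range p, e (g^[t] (g y)) := by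
      simp only [η]
      rw [Finset.mul_sum, ← Finset.sum_sub_distrib]
      apply Finset.sum_congr rfl
      intro t _
      rw [hSs, ← Function.iterate_succ_apply]
      ring
    have e2 : ∑ t ∈ Finset.range p, e (g^[t + 1] y) * S (t + 1) y = η y := by
      have a1 := Finset.sum_range_succ' (fun t => e (g^[t] y) * S t y) p
      have a2 := Finset.sum_range_succ (fun t => e (g^[t] y) * S t y) p
      rw [a2] at a1
      have a3 : S 0 y = 0 := by simp [S]
      rw [hSp y hy, a3] at a1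
      simp only [mul_zero, add_zero] at a1
      exact a1.symm
    rw [e1, e2, ne (g y) (mP' hy.2)]
    ring
  obtain ⟨u, v, hu, hv, huv⟩ := split hT hP hP' η hη
  obtain ⟨w, hw, wP, wP'⟩ := cont_ite_of_closed hP hP'
    (f := fun x => c x - (u x - u (g x))) (g := fun x => e x - (v x - v (g x)))
    (hc.sub (hu.sub (hu.comp hg.continuousOn mP)))
    (he.sub (hv.sub (hv.comp hg.continuousOn mP'))) (by
      intro x hx
      have h1 := hkey x hx
      rw [huv x hx, huv (g x) (mR hx)] at h1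
      show c x - (u x - u (g x)) = e x - (v x - v (g x))
      have h2 : c x - e x = (u x - v x) - (u (g x) - v (g x)) := h1.symm
      linear_combination h2)
  refine ⟨w, hw, ?_⟩
  rintro x (hx | hx)
  · have : ∑ s ∈ Finset.range p, w (g^[s] x) = ∑ s ∈ Finset.range p,
        (c (g^[s] x) - (u (g^[s] x) - u (g^[s + 1] x))) := by
      apply Finset.sum_congr rfl
      intro s _
      rw [wP _ (mP.iterate s hx), Function.iterate_succ_apply']
    rw [this, Finset.sum_sub_distrib, nc x hx, Finset.sum_range_sub' (fun s => u (g^[s] x)),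
      pP x hx]
    simp
  · have : ∑ s ∈ Finset.range p, w (g^[s] x) = ∑ s ∈ Finset.range p,
        (e (g^[s] x) - (v (g^[s] x) - v (g^[s + 1] x))) := by
      apply Finset.sum_congr rfl
      intro s _
      rw [wP' _ (mP'.iterate s hx), Function.iterate_succ_apply']
    rw [this, Finset.sum_sub_distrib, ne x hx, Finset.sum_range_sub' (fun s => v (g^[s] x)),
      pP' x hx]
    simp

theorem good_local {p : ℕ} (hp : p.Prime) {g : X → X} (hg : Continuous g) {K : Set X}
    (hK : IsClosed K) (mK : MapsTo g K K) (pK : ∀ x ∈ K, g^[p] x = x) {x : X} (hx : x ∈ K)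
    (hfx : g x ≠ x) :
    ∃ P : Set X, IsClosed P ∧ P ⊆ K ∧ MapsTo g P P ∧ GoodC p g P ∧ P ∈ nhdsWithin x K := by
  classical
  have hfree : ∀ j, 0 < j → j < p → g^[j] x ≠ x := by
    intro j hj0 hjp h
    have h1 : Function.IsPeriodicPt g (j.gcd p) x := Function.IsPeriodicPt.gcd h (pK x hx)
    have h2 : j.gcd p = 1 := (Nat.coprime_of_lt_prime hj0.ne' hjp hp).symm
    rw [h2] at h1
    exact hfx h1
  have hW : ∀ j, ∃ W : Set X, IsOpen W ∧ x ∈ W ∧ (0 < j → j < p → ∀ z ∈ W, g^[j] z ∉ W) := by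
    intro j
    by_cases hj : 0 < j ∧ j < p
    · obtain ⟨U, V, hU, hV, hxU, hxV, hUV⟩ := t2_separation (hfree j hj.1 hj.2).symm
      refine ⟨U ∩ g^[j] ⁻¹' V, hU.inter (hV.preimage (hg.iterate j)), ⟨hxU, hxV⟩, ?_⟩
      intro _ _ z hz hz'
      exact Set.disjoint_left.1 hUV hz'.1 hz.2
    · exact ⟨univ, isOpen_univ, trivial, fun h1 h2 => absurd ⟨h1, h2⟩ hj⟩
  choose W hWo hxW hWf using hW
  have hWW : (⋂ j ∈ Finset.range p, W j) ∈ nhds x := by
    rw [Filter.biInter_finset_mem]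
    intro j _
    exact (hWo j).mem_nhds (hxW j)
  obtain ⟨ε, hε, hball⟩ := Metric.nhds_basis_closedBall.mem_iff.1 hWW
  set B : Set X := Metric.closedBall x ε with hB
  have hBf : ∀ z ∈ B, ∀ j, 0 < j → j < p → g^[j] z ∉ B := by
    intro z hz j hj0 hjp hz'
    have h1 := mem_iInter₂.1 (hball hz) j (Finset.mem_range.2 hjp)
    have h2 := mem_iInter₂.1 (hball hz') j (Finset.mem_range.2 hjp)
    exact hWf j hj0 hjp z h1 h2
  set P : Set X := ⋃ s ∈ Finset.range p, (K ∩ g^[s] ⁻¹' B) with hPdef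
  have hmemP : ∀ y, y ∈ P ↔ ∃ s, s < p ∧ y ∈ K ∧ g^[s] y ∈ B := by
    intro y
    simp only [hPdef, mem_iUnion, Finset.mem_range, mem_inter_iff, mem_preimage, exists_prop]
  have hclosed : ∀ s, IsClosed (K ∩ g^[s] ⁻¹' B) := fun s =>
    hK.inter (Metric.isClosed_closedBall.preimage (hg.iterate s))
  have hPc : IsClosed P := by
    apply Set.Finite.isClosed_biUnion (Finset.finite_toSet _)
    intro s _
    exact hclosed s
  refine ⟨P, hPc, ?_, ?_, ?_, ?_⟩
  · intro y hy
    obtain ⟨s, -, h, -⟩ := (hmemP y).1 hy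
    exact h
  · intro y hy
    obtain ⟨s, hs, hyK, hyB⟩ := (hmemP y).1 hy
    rw [hmemP]
    rcases Nat.eq_zero_or_pos s with h0 | h0
    · refine ⟨p - 1, Nat.sub_lt hp.pos one_pos, mK hyK, ?_⟩
      have e : g^[p - 1] (g y) = y := by
        have h1 : g^[p - 1 + 1] y = y := by
          rw [Nat.sub_add_cancel hp.one_lt.le]; exact pK y hyK
        rw [Function.iterate_succ_apply] at h1
        exact h1
      rw [e]
      rw [h0] at hyB
      exact hyB
    · refine ⟨s - 1, by omega, mK hyK, ?_⟩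
      have e : g^[s - 1] (g y) = g^[s] y := by
        have h1 : g^[s - 1 + 1] y = g^[s] y := by
          rw [Nat.sub_add_cancel h0]
        rw [Function.iterate_succ_apply] at h1
        exact h1
      rw [e]
      exact hyB
  · -- the indicator of B
    set P' : Set X := ⋃ s ∈ (Finset.range p).erase 0, (K ∩ g^[s] ⁻¹' B) with hP'def
    have hP'c : IsClosed P' := by
      apply Set.Finite.isClosed_biUnion (Finset.finite_toSet _)
      intro s _
      exact hclosed s
    have hPP' : P ⊆ B ∪ P' := by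
      intro y hy
      obtain ⟨s, hs, hyK, hyB⟩ := (hmemP y).1 hy
      by_cases h0 : s = 0
      · left; rw [h0] at hyB; exact hyB
      · right
        rw [hP'def]
        exact mem_iUnion₂.2 ⟨s, Finset.mem_erase.2 ⟨h0, Finset.mem_range.2 hs⟩, hyK, hyB⟩
    have hdis : ∀ y ∈ B ∩ P', False := by
      rintro y ⟨hyB, hyP'⟩
      obtain ⟨s, hs, -, hyB'⟩ := mem_iUnion₂.1 hyP'
      obtain ⟨h0, hs⟩ := Finset.mem_erase.1 hs
      exact hBf y hyB s (Nat.pos_of_ne_zero h0) (Finset.mem_range.1 hs) hyB'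
    refine ⟨fun y => if y ∈ B then 1 else 0, ?_, ?_⟩
    · apply ContinuousOn.mono _ hPP'
      apply ContinuousOn.union_of_isClosed _ _ Metric.isClosed_closedBall hP'c
      · exact continuousOn_const.congr (fun y hy => if_pos hy)
      · exact (continuousOn_const (c := (0 : ZMod p))).congr
          (fun y hy => if_neg (fun h => hdis y ⟨h, hy⟩))
    · intro y hy
      obtain ⟨s, hs, hyK, hyB⟩ := (hmemP y).1 hy
      rw [Finset.sum_eq_single s]
      · exact if_pos hyB
      · intro t ht hts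
        apply if_neg
        intro htB
        rcases lt_or_gt_of_ne hts with h | h
        · apply hBf _ htB (s - t) (by omega) (by omega)
          rw [← Function.iterate_add_apply, Nat.sub_add_cancel h.le]
          exact hyB
        · have := Finset.mem_range.1 ht
          apply hBf _ hyB (t - s) (by omega) (by omega)
          rw [← Function.iterate_add_apply, Nat.sub_add_cancel h.le]
          exact htB
      · intro h
        exact absurd (Finset.mem_range.2 hs) h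
  · rw [mem_nhdsWithin]
    refine ⟨Metric.ball x ε, Metric.isOpen_ball, Metric.mem_ball_self hε, ?_⟩
    rintro y ⟨hy, hyK⟩
    rw [hmemP]
    exact ⟨0, hp.pos, hyK, Metric.ball_subset_closedBall hy⟩

theorem good_free (hT : TreeLike X) {p : ℕ} (hp : p.Prime) {g : X → X} (hg : Continuous g)
    {K : Set X} (hK : IsClosed K) (mK : MapsTo g K K) (pK : ∀ x ∈ K, g^[p] x = x)
    (hf : ∀ x ∈ K, g x ≠ x) : GoodC p g K := by
  have main : ∃ P : Set X, IsClosed P ∧ P ⊆ K ∧ MapsTo g P P ∧ GoodC p g P ∧ K ⊆ P := by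
    apply hK.isCompact.induction_on
      (p := fun s => ∃ P : Set X, IsClosed P ∧ P ⊆ K ∧ MapsTo g P P ∧ GoodC p g P ∧ s ⊆ P)
    · exact ⟨∅, isClosed_empty, empty_subset _, mapsTo_empty _ _,
        ⟨fun _ => 0, continuousOn_empty _, fun x hx => absurd hx (by simp)⟩, le_rfl⟩
    · rintro s t hst ⟨P, h1, h2, h3, h4, h5⟩
      exact ⟨P, h1, h2, h3, h4, hst.trans h5⟩
    · rintro s t ⟨P, h1, h2, h3, h4, h5⟩ ⟨Q, k1, k2, k3, k4, k5⟩
      refine ⟨P ∪ Q, h1.union k1, union_subset h2 k2, ?_, ?_, union_subset_union h5 k5⟩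
      · rintro x (hx | hx)
        · exact Or.inl (h3 hx)
        · exact Or.inr (k3 hx)
      · exact good_union hT hg h1 k1 h3 k3 (fun x hx => pK x (h2 hx)) (fun x hx => pK x (k2 hx))
          h4 k4
    · intro x hx
      obtain ⟨P, h1, h2, h3, h4, h5⟩ := good_local hp hg hK mK pK hx (hf x hx)
      exact ⟨P, h5, P, h1, h2, h3, h4, le_rfl⟩
  obtain ⟨P, -, h2, -, h4, h5⟩ := main
  rw [Subset.antisymm h5 h2]
  exact h4

theorem fm_prime (hT : TreeLike X) {p : ℕ} (hp : p.Prime) {g : X → X} (hg : Continuous g)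
    {K : Set X} (hK : IsClosed K) (cK : IsConnected K) (mK : MapsTo g K K)
    (pK : ∀ x ∈ K, g^[p] x = x) : IsConnected {x | x ∈ K ∧ g x = x} := by
  classical
  have hfin : ∀ {x : X}, g x = x → ∀ s, g^[s] x = x := fun h s => Function.iterate_fixed h s
  have h01 : (0 : ZMod p) ≠ 1 := by
    have := Fact.mk hp
    exact zero_ne_one
  constructor
  · by_contra hne
    have hf : ∀ x ∈ K, g x ≠ x := fun x hx h => hne ⟨x, hx, h⟩
    obtain ⟨c, hc, hs⟩ := good_free hT hp hg hK mK pK hf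
    obtain ⟨x, hx⟩ := cK.nonempty
    have h1 := hs x hx
    have h2 : ∑ s ∈ Finset.range p, c (g^[s] x) = ∑ s ∈ Finset.range p, c x := by
      apply Finset.sum_congr rfl
      intro s _
      exact cK.isPreconnected.constant hc (mK.iterate s hx) hx
    rw [h2, Finset.sum_const, Finset.card_range, nsmul_eq_mul, CharP.cast_eq_zero, zero_mul] at h1
    exact h01 h1
  · rw [isPreconnected_closed_iff]
    rintro t t' ht ht' hsub ⟨a, ⟨haK, hga⟩, hat⟩ ⟨b, ⟨hbK, hgb⟩, hbt⟩
    by_contra hne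
    have hF : IsClosed {x | x ∈ K ∧ g x = x} := hK.inter (isClosed_eq hg continuous_id)
    obtain ⟨U, hU, hUs, hUc⟩ := normal_exists_closure_subset (hF.inter ht)
      ((hF.inter ht').isOpen_compl) (by
        rintro x ⟨hx, hxt⟩ ⟨-, hxt'⟩
        exact hne ⟨x, hx, hxt, hxt'⟩)
    set K₁ : Set X := K ∩ ⋂ s ∈ Finset.range p, g^[s] ⁻¹' closure U with hK₁
    set K₂ : Set X := K ∩ ⋃ s ∈ Finset.range p, g^[s] ⁻¹' Uᶜ with hK₂
    have mem1 : ∀ x, x ∈ K₁ ↔ x ∈ K ∧ ∀ s, s < p → g^[s] x ∈ closure U := by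
      intro x
      simp only [hK₁, mem_inter_iff, mem_iInter, Finset.mem_range, mem_preimage]
    have mem2 : ∀ x, x ∈ K₂ ↔ x ∈ K ∧ ∃ s, s < p ∧ g^[s] x ∉ U := by
      intro x
      simp only [hK₂, mem_inter_iff, mem_iUnion, Finset.mem_range, mem_preimage, exists_prop,
        mem_compl_iff]
    have c1 : IsClosed K₁ := by
      apply hK.inter
      apply isClosed_biInter
      intro s _
      exact isClosed_closure.preimage (hg.iterate s)
    have c2 : IsClosed K₂ := by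
      apply hK.inter
      apply Set.Finite.isClosed_biUnion (Finset.finite_toSet _)
      intro s _
      exact hU.isClosed_compl.preimage (hg.iterate s)
    have hun : K ⊆ K₁ ∪ K₂ := by
      intro x hx
      by_cases h : ∀ s, s < p → g^[s] x ∈ closure U
      · exact Or.inl ((mem1 x).2 ⟨hx, h⟩)
      · push Not at h
        obtain ⟨s, hs, hs'⟩ := h
        exact Or.inr ((mem2 x).2 ⟨hx, s, hs, fun h => hs' (subset_closure h)⟩)
    -- invariance
    have hshift : ∀ x ∈ K, ∀ s, s < p → ∃ t, t < p ∧ g^[s] (g x) = g^[t] x := by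
      intro x hx s hs
      by_cases h : s + 1 < p
      · exact ⟨s + 1, h, (Function.iterate_succ_apply g s x).symm⟩
      · refine ⟨0, hp.pos, ?_⟩
        rw [← Function.iterate_succ_apply, show s.succ = p by omega, pK x hx]
        rfl
    have hshift' : ∀ x ∈ K, ∀ s, s < p → ∃ t, t < p ∧ g^[t] (g x) = g^[s] x := by
      intro x hx s hs
      rcases Nat.eq_zero_or_pos s with h | h
      · refine ⟨p - 1, Nat.sub_lt hp.pos one_pos, ?_⟩
        rw [← Function.iterate_succ_apply, show (p - 1).succ = p by have := hp.pos; omega, pK x hx, h]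
        rfl
      · refine ⟨s - 1, by omega, ?_⟩
        rw [← Function.iterate_succ_apply, show (s - 1).succ = s by omega]
    have m1 : MapsTo g K₁ K₁ := by
      intro x hx
      obtain ⟨hxK, h⟩ := (mem1 x).1 hx
      refine (mem1 _).2 ⟨mK hxK, ?_⟩
      intro s hs
      obtain ⟨t, ht, e⟩ := hshift x hxK s hs
      rw [e]; exact h t ht
    have m2 : MapsTo g K₂ K₂ := by
      intro x hx
      obtain ⟨hxK, s, hs, h⟩ := (mem2 x).1 hx
      obtain ⟨t, ht, e⟩ := hshift' x hxK s hs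
      refine (mem2 _).2 ⟨mK hxK, t, ht, ?_⟩
      rw [e]; exact h
    have hfree : ∀ x ∈ K₁ ∩ K₂, g x ≠ x := by
      rintro x ⟨hx1, hx2⟩ h
      obtain ⟨hxK, h1⟩ := (mem1 x).1 hx1
      obtain ⟨-, s, hs, h2⟩ := (mem2 x).1 hx2
      have h3 := h1 0 hp.pos
      rw [hfin h] at h2 h3
      rcases hsub (show x ∈ {x | x ∈ K ∧ g x = x} from ⟨hxK, h⟩) with hxt | hxt
      · exact h2 (hUs ⟨⟨hxK, h⟩, hxt⟩)
      · exact hUc h3 ⟨⟨hxK, h⟩, hxt⟩
    obtain ⟨c, hc, hcs⟩ := good_free hT hp hg (c1.inter c2)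
      (fun x hx => ⟨m1 hx.1, m2 hx.2⟩) (fun x hx => pK x ((mem1 x).1 hx.1).1) hfree
    obtain ⟨u, v, hu, hv, huv⟩ := split hT c1 c2 c hc
    obtain ⟨w, hw, w1, w2⟩ := cont_ite_of_closed c1 c2
      (f := fun x => ∑ s ∈ Finset.range p, u (g^[s] x))
      (g := fun x => ∑ s ∈ Finset.range p, v (g^[s] x) + 1)
      (continuousOn_finsetSum _ (fun s _ => hu.comp (hg.iterate s).continuousOn (m1.iterate s)))
      ((continuousOn_finsetSum _ (fun s _ => hv.comp (hg.iterate s).continuousOn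
        (m2.iterate s))).add continuousOn_const) (by
        intro x hx
        have e1 := hcs x hx
        have e2 : ∑ s ∈ Finset.range p, c (g^[s] x) =
            ∑ s ∈ Finset.range p, (u (g^[s] x) - v (g^[s] x)) := by
          apply Finset.sum_congr rfl
          intro s _
          exact huv _ ⟨m1.iterate s hx.1, m2.iterate s hx.2⟩
        rw [e2, Finset.sum_sub_distrib] at e1
        show ∑ s ∈ Finset.range p, u (g^[s] x) = ∑ s ∈ Finset.range p, v (g^[s] x) + 1
        linear_combination e1)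
    have ha1 : a ∈ K₁ := by
      refine (mem1 a).2 ⟨haK, fun s _ => ?_⟩
      rw [hfin hga]
      exact subset_closure (hUs ⟨⟨haK, hga⟩, hat⟩)
    have hb2 : b ∈ K₂ := by
      refine (mem2 b).2 ⟨hbK, 0, hp.pos, ?_⟩
      intro h
      exact hUc (subset_closure h) ⟨⟨hbK, hgb⟩, hbt⟩
    have hab : w a = w b := cK.isPreconnected.constant (hw.mono hun) haK hbK
    rw [w1 a ha1, w2 b hb2] at hab
    have e1 : ∑ s ∈ Finset.range p, u (g^[s] a) = 0 := by
      rw [Finset.sum_congr rfl (fun s _ => by rw [hfin hga s]), Finset.sum_const,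
        Finset.card_range, nsmul_eq_mul, CharP.cast_eq_zero, zero_mul]
    have e2 : ∑ s ∈ Finset.range p, v (g^[s] b) = 0 := by
      rw [Finset.sum_congr rfl (fun s _ => by rw [hfin hgb s]), Finset.sum_const,
        Finset.card_range, nsmul_eq_mul, CharP.cast_eq_zero, zero_mul]
    rw [e1, e2, zero_add] at hab
    exact h01 hab

/-- fixed point sets of periodic maps of subcontinua are subcontinua -/
theorem fm (hT : TreeLike X) {g : X → X} (hg : Continuous g) (n : ℕ) (hn : 0 < n) :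
    ∀ {K : Set X}, IsClosed K → IsConnected K → MapsTo g K K →
    (∀ x ∈ K, g^[n] x = x) → IsConnected {x | x ∈ K ∧ g x = x} := by
  induction n using Nat.strong_induction_on with
  | _ n ih =>
    intro K hK cK mK pK
    by_cases h1 : n = 1
    · subst h1
      have : {x | x ∈ K ∧ g x = x} = K := by
        ext x
        exact ⟨fun h => h.1, fun h => ⟨h, pK x h⟩⟩
      rw [this]; exact cK
    · have hp := Nat.minFac_prime h1
      set p := n.minFac with hpdef
      obtain ⟨n', hn'⟩ := Nat.minFac_dvd n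
      rw [← hpdef] at hn'
      have hn'0 : 0 < n' := by
        rcases Nat.eq_zero_or_pos n' with h | h
        · rw [h] at hn'; omega
        · exact h
      have hlt : n' < n := by
        rw [hn']
        have := hp.two_le
        nlinarith
      have hK' : IsConnected {x | x ∈ K ∧ g^[n'] x = x} := by
        apply fm_prime hT hp (hg.iterate n') hK cK (mK.iterate n')
        intro x hx
        rw [← Function.iterate_mul, mul_comm, ← hn']
        exact pK x hx
      have hcl : IsClosed {x | x ∈ K ∧ g^[n'] x = x} :=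
        hK.inter (isClosed_eq (hg.iterate n') continuous_id)
      have := ih n' hlt hn'0 hcl hK' (by
        rintro x ⟨hx, hx'⟩
        refine ⟨mK hx, ?_⟩
        rw [← Function.iterate_succ_apply, Function.iterate_succ_apply', hx']) (fun x hx => hx.2)
      convert this using 1
      ext x
      constructor
      · rintro ⟨hx, hx'⟩
        exact ⟨⟨hx, Function.iterate_fixed hx' n'⟩, hx'⟩
      · rintro ⟨⟨hx, -⟩, hx'⟩
        exact ⟨hx, hx'⟩


theorem isClosed_compIn {S : Set X} (hS : IsClosed S) {z : X} (hz : z ∈ S) :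
    IsClosed (connectedComponentIn S z) := by
  rw [connectedComponentIn_eq_image hz]
  exact hS.isClosedEmbedding_subtypeVal.isClosedMap _ isClosed_connectedComponent

theorem comp_sep {S : Set X} (hS : IsClosed S) {z : X} (hz : z ∈ S) {U : Set X} (hU : IsOpen U)
    (h : connectedComponentIn S z ⊆ U) :
    ∃ H H' : Set X, IsClosed H ∧ IsClosed H' ∧ H ∪ H' = S ∧ Disjoint H H' ∧
      connectedComponentIn S z ⊆ H ∧ H ⊆ U := by
  classical
  have : CompactSpace S := isCompact_iff_compactSpace.1 hS.isCompact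
  let V : { s : Set S // IsClopen s ∧ (⟨z, hz⟩ : S) ∈ s } → Set S := fun s => s.1
  have : Nonempty { s : Set S // IsClopen s ∧ (⟨z, hz⟩ : S) ∈ s } := ⟨⟨univ, isClopen_univ, trivial⟩⟩
  have hdir : Directed (fun x1 x2 => x1 ⊇ x2) V := by
    rintro ⟨s, hs, hs'⟩ ⟨t, ht, ht'⟩
    exact ⟨⟨s ∩ t, hs.inter ht, hs', ht'⟩, inter_subset_left, inter_subset_right⟩
  have hcomp : connectedComponent (⟨z, hz⟩ : S) = ⋂ i, V i := connectedComponent_eq_iInter_isClopen _
  obtain ⟨⟨s, hs, hs'⟩, hsU⟩ := exists_subset_nhds_of_isCompact (V := V) hdir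
    (fun i => i.2.1.isClosed.isCompact) (U := (Subtype.val : S → X) ⁻¹' U) (by
      intro x hx
      rw [← hcomp] at hx
      apply (hU.preimage continuous_subtype_val).mem_nhds
      apply h
      rw [connectedComponentIn_eq_image hz]
      exact ⟨x, hx, rfl⟩)
  have hcl : IsClosedMap (Subtype.val : S → X) := hS.isClosedEmbedding_subtypeVal.isClosedMap
  refine ⟨Subtype.val '' s, Subtype.val '' sᶜ, hcl _ hs.isClosed, hcl _ hs.compl.isClosed, ?_, ?_, ?_,
    ?_⟩
  · rw [← image_union, union_compl_self, image_univ, Subtype.range_coe]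
  · rw [Set.disjoint_left]
    rintro _ ⟨x, hx, rfl⟩ ⟨y, hy, he⟩
    rw [Subtype.val_injective he] at hy
    exact hy hx
  · rw [connectedComponentIn_eq_image hz]
    apply image_mono
    exact hs.connectedComponent_subset hs'
  · rintro _ ⟨x, hx, rfl⟩
    exact hsU hx

/-- boundary bumping -/
theorem bb {E G P : Set X} (hE : IsClosed E) (pE : IsPreconnected E) (hG : IsClosed G)
    (hP : IsClosed P) (hsub : E ⊆ G ∪ P) (hne : (E ∩ P).Nonempty) {z : X} (hzE : z ∈ E)
    (hzG : z ∈ G) :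
    ∃ T : Set X, IsClosed T ∧ IsConnected T ∧ T ⊆ E ∩ G ∧ z ∈ T ∧ (T ∩ P).Nonempty := by
  have hEG : IsClosed (E ∩ G) := hE.inter hG
  refine ⟨connectedComponentIn (E ∩ G) z, isClosed_compIn hEG ⟨hzE, hzG⟩,
    isConnected_connectedComponentIn_iff.2 ⟨hzE, hzG⟩, connectedComponentIn_subset _ _,
    mem_connectedComponentIn ⟨hzE, hzG⟩, ?_⟩
  by_contra hcon
  obtain ⟨H, H', hH, hH', hun, hdis, hcH, hHU⟩ := comp_sep hEG ⟨hzE, hzG⟩ hP.isOpen_compl (by
    intro x hx hxP
    exact hcon ⟨x, hx, hxP⟩)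
  obtain ⟨y, hyE, hyP⟩ := hne
  obtain ⟨w, hwE, hwH, hw⟩ := isPreconnected_closed_iff.1 pE H (H' ∪ (E ∩ P)) hH
    (hH'.union (hE.inter hP)) (by
      intro x hx
      rcases hsub hx with h | h
      · have : x ∈ H ∪ H' := by rw [hun]; exact ⟨hx, h⟩
        rcases this with h | h
        · exact Or.inl h
        · exact Or.inr (Or.inl h)
      · exact Or.inr (Or.inr ⟨hx, h⟩)) ⟨z, hzE, hcH (mem_connectedComponentIn ⟨hzE, hzG⟩)⟩
    ⟨y, hyE, Or.inr ⟨hyE, hyP⟩⟩
  rcases hw with hw | hw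
  · exact Set.disjoint_left.1 hdis hwH hw
  · exact hHU hwH hw.2

theorem chain_conn {c : Set (Set X)} (hc : IsChain (fun x1 x2 => x1 ⊆ x2) c) (hne : c.Nonempty)
    (h : ∀ s ∈ c, IsClosed s ∧ IsConnected s) : IsConnected (⋂₀ c) := by
  have hdir : DirectedOn (fun x1 x2 : Set X => x1 ⊇ x2) c := by
    intro s hs t ht
    by_cases hst : s = t
    · exact ⟨s, hs, le_rfl, hst ▸ le_rfl⟩
    · rcases hc hs ht hst with h | h
      · exact ⟨s, hs, le_rfl, h⟩
      · exact ⟨t, ht, h, le_rfl⟩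
  have : Nonempty c := hne.to_subtype
  constructor
  · exact IsCompact.nonempty_sInter_of_directed_nonempty_isCompact_isClosed hdir
      (fun s hs => (h s hs).2.nonempty) (fun s hs => (h s hs).1.isCompact) (fun s hs => (h s hs).1)
  · rw [isPreconnected_iff_subset_of_fully_disjoint_closed (isClosed_sInter fun s hs => (h s hs).1)]
    intro u v hu hv huv hdis
    obtain ⟨U, V, hU, hV, huU, hvV, hUV⟩ := normal_separation hu hv hdis
    obtain ⟨⟨s, hs⟩, hsU⟩ := exists_subset_nhds_of_isCompact (V := fun s : c => (s : Set X))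
      (directedOn_iff_directed.1 hdir) (fun s => (h s.1 s.2).1.isCompact) (U := U ∪ V) (by
        intro x hx
        rw [← sInter_eq_iInter] at hx
        apply (hU.union hV).mem_nhds
        rcases huv hx with h | h
        · exact Or.inl (huU h)
        · exact Or.inr (hvV h))
    rcases IsPreconnected.subset_or_subset hU hV hUV hsU (h s hs).2.isPreconnected with h1 | h1
    · left
      intro x hx
      rcases huv hx with h | h
      · exact h
      · exact absurd (hvV h) (Set.disjoint_left.1 hUV (h1 (hx s hs)))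
    · right
      intro x hx
      rcases huv hx with h | h
      · exact absurd (h1 (hx s hs)) (Set.disjoint_left.1 hUV (huU h))
      · exact h

theorem chain_meet {c : Set (Set X)} (hc : IsChain (fun x1 x2 => x1 ⊆ x2) c) (hne : c.Nonempty)
    (h : ∀ s ∈ c, IsClosed s) {P : Set X} (hP : IsClosed P) (hm : ∀ s ∈ c, (s ∩ P).Nonempty) :
    (⋂₀ c ∩ P).Nonempty := by
  have hdir : DirectedOn (fun x1 x2 : Set X => x1 ⊇ x2) c := by
    intro s hs t ht
    by_cases hst : s = t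
    · exact ⟨s, hs, le_rfl, hst ▸ le_rfl⟩
    · rcases hc hs ht hst with h | h
      · exact ⟨s, hs, le_rfl, h⟩
      · exact ⟨t, ht, h, le_rfl⟩
  have : Nonempty c := hne.to_subtype
  obtain ⟨x, hx⟩ := IsCompact.nonempty_iInter_of_directed_nonempty_isCompact_isClosed
    (fun s : c => (s : Set X) ∩ P) (by
      intro s t
      obtain ⟨r, hr, h1, h2⟩ := hdir s.1 s.2 t.1 t.2
      exact ⟨⟨r, hr⟩, inter_subset_inter_left _ h1, inter_subset_inter_left _ h2⟩)
    (fun s => hm s.1 s.2) (fun s => ((h s.1 s.2).inter hP).isCompact)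
    (fun s => (h s.1 s.2).inter hP)
  rw [mem_iInter] at hx
  obtain ⟨s, hs⟩ := hne
  exact ⟨x, fun t ht => (hx ⟨t, ht⟩).1, (hx ⟨s, hs⟩).2⟩

theorem zmin (Ps : Set (Set X)) (hP : ∀ P ∈ Ps, IsClosed P) {L : Set X} (hL : IsClosed L)
    (cL : IsConnected L) (hm : ∀ P ∈ Ps, (L ∩ P).Nonempty) :
    ∃ T ⊆ L, IsClosed T ∧ IsConnected T ∧ (∀ P ∈ Ps, (T ∩ P).Nonempty) ∧
      ∀ T' ⊆ T, IsClosed T' → IsConnected T' → (∀ P ∈ Ps, (T' ∩ P).Nonempty) → T ⊆ T' := by
  obtain ⟨T, hTL, hT, hmin⟩ := zorn_superset_nonempty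
    {T : Set X | IsClosed T ∧ IsConnected T ∧ ∀ P ∈ Ps, (T ∩ P).Nonempty} (by
      intro c hc hch hne
      refine ⟨⋂₀ c, ⟨isClosed_sInter fun s hs => (hc hs).1,
        chain_conn hch hne (fun s hs => ⟨(hc hs).1, (hc hs).2.1⟩), ?_⟩,
        fun s hs => sInter_subset_of_mem hs⟩
      intro P hPP
      exact chain_meet hch hne (fun s hs => (hc hs).1) (hP P hPP) (fun s hs => (hc hs).2.2 P hPP))
    L ⟨hL, cL, hm⟩
  exact ⟨T, hTL, hT.1, hT.2.1, hT.2.2, fun T' hT' h1 h2 h3 => hmin ⟨h1, h2, h3⟩ hT'⟩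

/-- the least continuum containing two points -/
def I (a b : X) : Set X := ⋂₀ {C | IsClosed C ∧ IsPreconnected C ∧ a ∈ C ∧ b ∈ C}

theorem I_min {a b : X} {C : Set X} (h1 : IsClosed C) (h2 : IsPreconnected C) (ha : a ∈ C)
    (hb : b ∈ C) : I a b ⊆ C := sInter_subset_of_mem ⟨h1, h2, ha, hb⟩

theorem I_closed (a b : X) : IsClosed (I a b) := isClosed_sInter fun _ h => h.1

theorem I_left (a b : X) : a ∈ I a b := fun _ h => h.2.2.1

theorem I_right (a b : X) : b ∈ I a b := fun _ h => h.2.2.2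

theorem I_conn (hT : TreeLike X) [ConnectedSpace X] (a b : X) : IsConnected (I a b) := by
  obtain ⟨T, -, h1, h2, h3, h4⟩ := zmin ({{a}, {b}} : Set (Set X)) (by
    rintro P (rfl | rfl)
    · exact isClosed_singleton
    · exact isClosed_singleton) (L := univ) isClosed_univ isConnected_univ (by
    rintro P (rfl | rfl)
    · exact ⟨a, trivial, rfl⟩
    · exact ⟨b, trivial, rfl⟩)
  have haT : a ∈ T := by
    obtain ⟨x, hx, hx'⟩ := h3 {a} (Or.inl rfl)
    rw [← mem_singleton_iff.1 hx']; exact hx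
  have hbT : b ∈ T := by
    obtain ⟨x, hx, hx'⟩ := h3 {b} (Or.inr rfl)
    rw [← mem_singleton_iff.1 hx']; exact hx
  have : I a b = T := by
    apply Subset.antisymm (I_min h1 h2.isPreconnected haT hbT)
    rintro x hx C ⟨c1, c2, c3, c4⟩
    have := h4 (T ∩ C) inter_subset_left (h1.inter c1)
      ⟨⟨a, haT, c3⟩, hu hT h1 c1 h2.isPreconnected c2⟩ (by
        rintro P (rfl | rfl)
        · exact ⟨a, ⟨haT, c3⟩, rfl⟩
        · exact ⟨b, ⟨hbT, c4⟩, rfl⟩)
    exact (this hx).2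
  rw [this]; exact h2

theorem baire {E : Set X} (hE : IsClosed E) {F : ℕ → Set X} (hF : ∀ m, IsClosed (F m))
    (hsub : E ⊆ ⋃ m, F m) {U : Set X} (hU : IsOpen U) (hne : (E ∩ U).Nonempty) :
    ∃ (m : ℕ) (V : Set X), IsOpen V ∧ V ⊆ U ∧ (E ∩ V).Nonempty ∧ E ∩ V ⊆ F m := by
  have : CompactSpace E := isCompact_iff_compactSpace.1 hE.isCompact
  have hd := dense_iUnion_interior_of_closed (X := E) (f := fun m => (Subtype.val : E → X) ⁻¹' F m)
    (fun m => (hF m).preimage continuous_subtype_val) (by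
      rw [← preimage_iUnion]
      rw [eq_univ_iff_forall]
      rintro ⟨x, hx⟩
      exact hsub hx)
  obtain ⟨x, hxE, hxU⟩ := hne
  obtain ⟨y, hyU, hy⟩ := hd.inter_open_nonempty ((Subtype.val : E → X) ⁻¹' U)
    (hU.preimage continuous_subtype_val) ⟨⟨x, hxE⟩, hxU⟩
  obtain ⟨m, hm⟩ := mem_iUnion.1 hy
  obtain ⟨W, hW, hWe⟩ := isOpen_induced_iff.1 (isOpen_interior (s := (Subtype.val : E → X) ⁻¹' F m))
  refine ⟨m, W ∩ U, hW.inter hU, inter_subset_right, ⟨y.1, y.2, ?_, hyU⟩, ?_⟩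
  · have : y ∈ (Subtype.val : E → X) ⁻¹' W := by rw [hWe]; exact hm
    exact this
  · rintro w ⟨hwE, hwW, -⟩
    have : (⟨w, hwE⟩ : E) ∈ interior ((Subtype.val : E → X) ⁻¹' F m) := by
      rw [← hWe]; exact hwW
    exact (interior_subset this : (⟨w, hwE⟩ : E) ∈ (Subtype.val : E → X) ⁻¹' F m)


/-- continuous and pointwise periodic -/
structure PP (g : X → X) : Prop where
  cont : Continuous g
  per : ∀ x, ∃ m : ℕ, 0 < m ∧ g^[m] x = x

theorem PP.iter {g : X → X} (h : PP g) (n : ℕ) : PP (g^[n]) := by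
  refine ⟨h.cont.iterate n, ?_⟩
  intro x
  obtain ⟨m, hm, hx⟩ := h.per x
  refine ⟨m, hm, ?_⟩
  rw [← Function.iterate_mul, mul_comm, Function.iterate_mul]
  exact Function.iterate_fixed hx n

theorem PP.inj {g : X → X} (h : PP g) : Function.Injective g := by
  intro x y hxy
  obtain ⟨m, hm, hx⟩ := h.per x
  obtain ⟨n, hn, hy⟩ := h.per y
  have hx' : g^[m * n] x = x := by
    rw [Function.iterate_mul]; exact Function.iterate_fixed hx n
  have hy' : g^[m * n] y = y := by
    rw [mul_comm, Function.iterate_mul]; exact Function.iterate_fixed hy m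
  have hmn : 0 < m * n := Nat.mul_pos hm hn
  obtain ⟨r, hr⟩ := Nat.exists_eq_succ_of_ne_zero hmn.ne'
  rw [hr, Nat.succ_eq_add_one, Function.iterate_succ_apply] at hx' hy'
  rw [← hx', ← hy', hxy]

theorem PP.surj {g : X → X} (h : PP g) : Function.Surjective g := by
  intro x
  obtain ⟨m, hm, hx⟩ := h.per x
  obtain ⟨r, hr⟩ := Nat.exists_eq_succ_of_ne_zero hm.ne'
  rw [hr, Nat.succ_eq_add_one, Function.iterate_succ_apply'] at hx
  exact ⟨_, hx⟩

theorem PP.homeo {g : X → X} (h : PP g) : ∃ e : X ≃ₜ X, ⇑e = g := by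
  refine ⟨Continuous.homeoOfEquivCompactToT2 (f := Equiv.ofBijective g ⟨h.inj, h.surj⟩) h.cont, rfl⟩

theorem PP.preim {g : X → X} (h : PP g) {C : Set X} (hC : IsPreconnected C) :
    IsPreconnected (g ⁻¹' C) := by
  obtain ⟨e, rfl⟩ := h.homeo
  exact (e.isPreconnected_preimage).2 hC

theorem PP.mapsI {g : X → X} (hT : TreeLike X) [ConnectedSpace X] (h : PP g) (a b : X) :
    MapsTo g (I a b) (I (g a) (g b)) := by
  have : I a b ⊆ g ⁻¹' (I (g a) (g b)) :=
    I_min ((I_closed _ _).preimage h.cont) (h.preim (I_conn hT _ _).isPreconnected)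
      (I_left _ _) (I_right _ _)
  exact this

/-- preimages of invariant sets are contained in them -/
theorem PP.back {g : X → X} (h : PP g) {C : Set X} (hC : MapsTo g C C) {x : X} (hx : g x ∈ C) :
    x ∈ C := by
  obtain ⟨m, hm, hx'⟩ := h.per x
  obtain ⟨r, hr⟩ := Nat.exists_eq_succ_of_ne_zero hm.ne'
  rw [hr, Nat.succ_eq_add_one, Function.iterate_succ_apply] at hx'
  rw [← hx']
  exact hC.iterate r hx

/-- the component of `x` in the set of points of `L` fixed by `g` -/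
def Cp (g : X → X) (L : Set X) (x : X) : Set X := connectedComponentIn (L ∩ {y | g y = y}) x

theorem fixClosed {g : X → X} (hg : Continuous g) {L : Set X} (hL : IsClosed L) :
    IsClosed (L ∩ {y | g y = y}) := hL.inter (isClosed_eq hg continuous_id)

theorem Cp_closed {g : X → X} (hg : Continuous g) {L : Set X} (hL : IsClosed L) {x : X}
    (hx : x ∈ L) (hgx : g x = x) : IsClosed (Cp g L x) :=
  isClosed_compIn (fixClosed hg hL) ⟨hx, hgx⟩

theorem Cp_conn {g : X → X} {L : Set X} {x : X}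
    (hx : x ∈ L) (hgx : g x = x) : IsConnected (Cp g L x) :=
  isConnected_connectedComponentIn_iff.2 ⟨hx, hgx⟩

theorem Cp_sub {g : X → X} {L : Set X} {x : X} : Cp g L x ⊆ L :=
  fun _ h => (connectedComponentIn_subset _ _ h).1

theorem Cp_fix {g : X → X} {L : Set X} {x y : X} (h : y ∈ Cp g L x) : g y = y :=
  (connectedComponentIn_subset _ _ h).2

theorem Cp_self {g : X → X} {L : Set X} {x : X} (hx : x ∈ L) (hgx : g x = x) : x ∈ Cp g L x :=
  mem_connectedComponentIn ⟨hx, hgx⟩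

theorem Cp_max {g : X → X} {L C : Set X} {x : X} (hC : IsPreconnected C) (hx : x ∈ C)
    (hCL : C ⊆ L) (hf : ∀ y ∈ C, g y = y) : C ⊆ Cp g L x :=
  hC.subset_connectedComponentIn hx (fun y hy => ⟨hCL hy, hf y hy⟩)

theorem iter_comm (g : X → X) (m : ℕ) (x : X) : g^[m] (g x) = g (g^[m] x) := by
  rw [← Function.iterate_succ_apply, Function.iterate_succ_apply']

/-- if a component of the set fixed by `g^[m]` has a fixed point then it is invariant -/
theorem Cp_inv {g : X → X} (hg : Continuous g) {L : Set X} (mL : MapsTo g L L) (m : ℕ) {x z : X}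
    (hx : x ∈ L) (hgx : g^[m] x = x) (hz : z ∈ Cp (g^[m]) L x) (hgz : g z = z) :
    MapsTo g (Cp (g^[m]) L x) (Cp (g^[m]) L x) := by
  have h1 : g '' (Cp (g^[m]) L x) ⊆ Cp (g^[m]) L z := by
    apply Cp_max
    · exact (Cp_conn hx hgx).isPreconnected.image _ hg.continuousOn
    · exact ⟨z, hz, hgz⟩
    · rintro _ ⟨y, hy, rfl⟩
      exact mL (Cp_sub hy)
    · rintro _ ⟨y, hy, rfl⟩
      rw [iter_comm, Cp_fix hy]
  have h2 : Cp (g^[m]) L z = Cp (g^[m]) L x := (connectedComponentIn_eq hz).symm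
  rw [h2] at h1
  intro y hy
  exact h1 ⟨y, hy, rfl⟩

theorem step1 (hT : TreeLike X) [ConnectedSpace X] {k : X → X} (hk : PP k) {L Z : Set X}
    (hL : IsClosed L) (cL : IsConnected L) (hZ : IsClosed Z) (kZ : ∀ x ∈ L ∩ Z, k x = x)
    (H : ∀ x ∈ L, ∀ w ∈ L, I x w ∩ Z = ∅ → ∃ m, 0 < m ∧ ∀ y ∈ I x w, k^[m] y = y)
    {x : X} (hx : x ∈ L) (kx : k x = x) (hne : (L ∩ Z).Nonempty) :
    ∃ E ⊆ L, IsClosed E ∧ IsConnected E ∧ x ∈ E ∧ (E ∩ Z).Nonempty ∧ ∀ y ∈ E, k y = y := by
  classical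
  by_cases hxZ : x ∈ Z
  · exact ⟨{x}, singleton_subset_iff.2 hx, isClosed_singleton, isConnected_singleton, rfl,
      ⟨x, rfl, hxZ⟩, fun y hy => by rw [mem_singleton_iff.1 hy, kx]⟩
  obtain ⟨E, hEL, hE, cE, hmeet, hmin⟩ := zmin ({{x}, Z} : Set (Set X)) (by
    rintro P (rfl | rfl)
    · exact isClosed_singleton
    · exact hZ) hL cL (by
    rintro P (rfl | rfl)
    · exact ⟨x, hx, rfl⟩
    · exact hne)
  have hxE : x ∈ E := by
    obtain ⟨y, hy, hy'⟩ := hmeet {x} (Or.inl rfl)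
    rw [← mem_singleton_iff.1 hy']; exact hy
  have hEZ : (E ∩ Z).Nonempty := hmeet Z (Or.inr rfl)
  have hmin' : ∀ T' ⊆ E, IsClosed T' → IsConnected T' → x ∈ T' → (T' ∩ Z).Nonempty → E ⊆ T' := by
    intro T' h1 h2 h3 h4 h5
    apply hmin T' h1 h2 h3
    rintro P (rfl | rfl)
    · exact ⟨x, h4, rfl⟩
    · exact h5
  refine ⟨E, hEL, hE, cE, hxE, hEZ, ?_⟩
  obtain ⟨z, hzE, hzZ⟩ := hEZ
  have kz : k z = z := kZ z ⟨hEL hzE, hzZ⟩
  -- invariance
  have mE : MapsTo k E E := by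
    have h := hmin' (E ∩ k ⁻¹' E) inter_subset_left (hE.inter (hE.preimage hk.cont))
      ⟨⟨x, hxE, by show k x ∈ E; rw [kx]; exact hxE⟩,
        hu hT hE (hE.preimage hk.cont) cE.isPreconnected (hk.preim cE.isPreconnected)⟩
      ⟨hxE, by show k x ∈ E; rw [kx]; exact hxE⟩
      ⟨z, ⟨hzE, by show k z ∈ E; rw [kz]; exact hzE⟩, hzZ⟩
    exact fun y hy => (h hy).2
  have kxj : ∀ j, k^[j] x = x := fun j => Function.iterate_fixed kx j
  -- an intersection with the fixed point set is enough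
  have enough : (∃ j, 0 < j ∧ ∀ y ∈ E, k^[j] y = y) → ∀ y ∈ E, k y = y := by
    rintro ⟨j, hj, hj'⟩
    have h := fm hT hk.cont j hj hE cE mE hj'
    have h' := hmin' {y | y ∈ E ∧ k y = y} (fun y hy => hy.1) (fixClosed hk.cont hE) h ⟨hxE, kx⟩
      ⟨z, ⟨hzE, kz⟩, hzZ⟩
    exact fun y hy => (h' hy).2
  by_contra hcon
  have noj : ∀ j, 0 < j → Cp (k^[j]) E x ∩ Z = ∅ := by
    intro j hj
    by_contra hne'
    apply hcon
    apply enough
    refine ⟨j, hj, ?_⟩
    have h := hmin' (Cp (k^[j]) E x) Cp_sub (Cp_closed (hk.cont.iterate j) hE hxE (kxj j))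
      (Cp_conn hxE (kxj j)) (Cp_self hxE (kxj j)) (nonempty_iff_ne_empty.2 hne')
    exact fun y hy => Cp_fix (h hy)
  -- the complementary part
  have star : ∀ j, 0 < j → E \ closure (E \ Cp (k^[j]) E x) ⊆ Cp k E x := by
    intro j hj
    set Y := Cp (k^[j]) E x with hY
    have cY : IsClosed Y := Cp_closed (hk.cont.iterate j) hE hxE (kxj j)
    have conY : IsConnected Y := Cp_conn hxE (kxj j)
    have xY : x ∈ Y := Cp_self hxE (kxj j)
    have YE : Y ⊆ E := Cp_sub
    have fY : ∀ y ∈ Y, k^[j] y = y := fun y hy => Cp_fix hy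
    have mY : MapsTo k Y Y := Cp_inv hk.cont mE j hxE (kxj j) xY kx
    have zY : z ∉ Y := by
      intro h
      have : z ∈ Y ∩ Z := ⟨h, hzZ⟩
      rw [noj j hj] at this
      exact this
    set G := closure (E \ Y) with hG
    have cG : IsClosed G := isClosed_closure
    have zG : z ∈ G := subset_closure ⟨hzE, zY⟩
    have GE : G ⊆ E := closure_minimal sdiff_subset hE
    obtain ⟨T, cT, conT, hTG, hzT, hTY⟩ := bb hE cE.isPreconnected cG cY (by
      intro y hy
      by_cases h : y ∈ Y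
      · exact Or.inr h
      · exact Or.inl (subset_closure ⟨hy, h⟩)) ⟨x, hxE, xY⟩ hzE zG
    have hTYE : E ⊆ T ∪ Y := by
      apply hmin' (T ∪ Y)
      · exact union_subset (fun y hy => (hTG hy).1) YE
      · exact cT.union cY
      · exact conT.union hTY conY
      · exact Or.inr xY
      · exact ⟨z, Or.inl hzT, hzZ⟩
    have hGT : G ⊆ T := by
      apply closure_minimal _ cT
      rintro y ⟨hy, hy'⟩
      rcases hTYE hy with h | h
      · exact h
      · exact absurd h hy'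
    have hGT' : G = T := Subset.antisymm hGT (fun y hy => (hTG hy).2)
    have conG : IsConnected G := by rw [hGT']; exact conT
    have mG : MapsTo k G G := by
      apply MapsTo.closure _ hk.cont
      rintro y ⟨hy, hy'⟩
      exact ⟨mE hy, fun h => hy' (hk.back mY h)⟩
    have conYG : IsConnected (Y ∩ G) := by
      refine ⟨?_, hu hT cY cG conY.isPreconnected conG.isPreconnected⟩
      obtain ⟨y, hy, hy'⟩ := hTY
      exact ⟨y, hy', (hTG hy).2⟩
    obtain ⟨y, ⟨hyY, hyG⟩, ky⟩ := (fm hT hk.cont j hj (cY.inter cG) conYG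
      (fun y hy => ⟨mY hy.1, mG hy.2⟩) (fun y hy => fY y hy.1)).nonempty
    have hy1 : y ∈ Cp k E x := by
      have h := fm hT hk.cont j hj cY conY mY fY
      exact Cp_max (C := {y | y ∈ Y ∧ k y = y}) h.isPreconnected ⟨xY, kx⟩ (fun w hw => YE hw.1)
        (fun w hw => hw.2) ⟨hyY, ky⟩
    have h2 : E ⊆ Cp k E x ∪ G := by
      apply hmin'
      · exact union_subset Cp_sub GE
      · exact (Cp_closed hk.cont hE hxE kx).union cG
      · exact (Cp_conn hxE kx).union ⟨y, hy1, hyG⟩ conG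
      · exact Or.inl (Cp_self hxE kx)
      · exact ⟨z, Or.inr zG, hzZ⟩
    rintro w ⟨hw, hw'⟩
    rcases h2 hw with h | h
    · exact h
    · exact absurd h hw'
  -- density
  have dense : ∀ V : Set X, IsOpen V → (E ∩ V).Nonempty →
      ∃ C ⊆ E, IsClosed C ∧ IsConnected C ∧ x ∈ C ∧ C ∩ Z = ∅ ∧ (C ∩ V).Nonempty := by
    rintro V hV ⟨y, hyE, hyV⟩
    by_cases hxV : x ∈ V
    · refine ⟨{x}, singleton_subset_iff.2 hxE, isClosed_singleton, isConnected_singleton, rfl, ?_,
        ⟨x, rfl, hxV⟩⟩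
      exact (singleton_inter_eq_empty).2 hxZ
    · obtain ⟨W, hW, hyW, hWV⟩ := normal_exists_closure_subset (isClosed_singleton (x := y)) hV
        (singleton_subset_iff.2 hyV)
      have hyW' : y ∈ W := hyW rfl
      obtain ⟨T, cT, conT, hTG, hxT, hTP⟩ := bb hE cE.isPreconnected hW.isClosed_compl
        (isClosed_closure (s := W)) (by
          intro w _
          by_cases h : w ∈ W
          · exact Or.inr (subset_closure h)
          · exact Or.inl h) ⟨y, hyE, subset_closure hyW'⟩ hxE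
          (fun h => hxV (hWV (subset_closure h)))
      refine ⟨T, fun w hw => (hTG hw).1, cT, conT, hxT, ?_, ?_⟩
      · by_contra hne'
        have h := hmin' T (fun w hw => (hTG hw).1) cT conT hxT (nonempty_iff_ne_empty.2 hne')
        exact (hTG (h hyE)).2 hyW'
      · obtain ⟨w, hw, hw'⟩ := hTP
        exact ⟨w, hw, hWV hw'⟩
  -- Baire
  have cY1 : IsClosed (Cp k E x) := Cp_closed hk.cont hE hxE kx
  have zY1 : z ∉ Cp k E x := by
    intro h
    have h1 := noj 1 one_pos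
    rw [Function.iterate_one] at h1
    have : z ∈ Cp k E x ∩ Z := ⟨h, hzZ⟩
    rw [h1] at this
    exact this
  obtain ⟨m, V, hV, hVU, hEV, hVF⟩ := baire hE (F := fun m => {y | k^[m + 1] y = y})
    (fun m => isClosed_eq (hk.cont.iterate _) continuous_id) (by
      intro y _
      obtain ⟨m, hm, hm'⟩ := hk.per y
      obtain ⟨r, hr⟩ := Nat.exists_eq_succ_of_ne_zero hm.ne'
      rw [hr] at hm'
      exact mem_iUnion.2 ⟨r, hm'⟩) cY1.isOpen_compl ⟨z, hzE, zY1⟩
  have hE0 : ∀ C ⊆ E, IsClosed C → IsConnected C → x ∈ C → C ∩ Z = ∅ → ∀ w ∈ C, w ∈ V →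
      w ∈ Cp (k^[m + 1]) E x := by
    intro C hCE hC conC hxC hCZ w hwC hwV
    have hIC : I x w ⊆ C := I_min hC conC.isPreconnected hxC hwC
    obtain ⟨i, hi, hi'⟩ := H x hx w (hEL (hCE hwC)) (by
      rw [eq_empty_iff_forall_notMem]
      rintro y ⟨hy, hy'⟩
      have : y ∈ C ∩ Z := ⟨hIC hy, hy'⟩
      rw [hCZ] at this
      exact this)
    have kw : k^[m + 1] w = w := hVF ⟨hCE hwC, hwV⟩
    have mI := (hk.iter (m + 1)).mapsI hT x w
    rw [kxj (m + 1), kw] at mI
    have h := fm hT (hk.cont.iterate (m + 1)) i hi (I_closed x w) (I_conn hT x w) mI (by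
      intro y hy
      rw [← Function.iterate_mul, mul_comm, Function.iterate_mul]
      exact Function.iterate_fixed (hi' y hy) _)
    exact Cp_max (C := {y | y ∈ I x w ∧ k^[m + 1] y = y}) h.isPreconnected
      ⟨I_left _ _, kxj _⟩ (fun y hy => hCE (hIC hy.1)) (fun y hy => hy.2) ⟨I_right _ _, kw⟩
  have cY : IsClosed (Cp (k^[m + 1]) E x) := Cp_closed (hk.cont.iterate _) hE hxE (kxj _)
  have hEVY : E ∩ V ⊆ Cp (k^[m + 1]) E x := by
    rintro y ⟨hyE, hyV⟩
    by_contra hy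
    obtain ⟨C, h1, h2, h3, h4, h5, w, hwC, hwV, hwY⟩ := dense (V ∩ (Cp (k^[m + 1]) E x)ᶜ)
      (hV.inter cY.isOpen_compl) ⟨y, hyE, hyV, hy⟩
    exact hwY (hE0 C h1 h2 h3 h4 h5 w hwC hwV)
  obtain ⟨y, hyE, hyV⟩ := hEV
  have hyG : y ∉ closure (E \ Cp (k^[m + 1]) E x) := by
    intro h
    rw [mem_closure_iff] at h
    obtain ⟨w, hwV, hwE, hwY⟩ := h V hV hyV
    exact hwY (hEVY ⟨hwE, hwV⟩)
  exact hVU hyV (star (m + 1) (Nat.succ_pos m) ⟨hyE, hyG⟩)


structure Ctx (k : X → X) (L A B : Set X) : Prop where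
  hk : PP k
  cL : IsClosed L
  conL : IsConnected L
  mL : MapsTo k L L
  cA : IsClosed A
  cB : IsClosed B
  disj : Disjoint A B
  fixAB : ∀ x ∈ L, k x = x → x ∈ A ∨ x ∈ B
  fA : ∀ x ∈ A, k x = x
  fB : ∀ x ∈ B, k x = x
  nA : (L ∩ A).Nonempty
  nB : (L ∩ B).Nonempty
  min : ∀ T ⊆ L, IsClosed T → IsConnected T → (T ∩ A).Nonempty → (T ∩ B).Nonempty → L ⊆ T
  comp : ∀ m, 0 < m → ∀ x ∈ L, k^[m] x = x → ∃ z ∈ Cp (k^[m]) L x, k z = z

theorem Ctx.symm {k : X → X} {L A B : Set X} (h : Ctx k L A B) : Ctx k L B A where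
  hk := h.hk
  cL := h.cL
  conL := h.conL
  mL := h.mL
  cA := h.cB
  cB := h.cA
  disj := h.disj.symm
  fixAB := fun x hx hx' => (h.fixAB x hx hx').symm
  fA := h.fB
  fB := h.fA
  nA := h.nB
  nB := h.nA
  min := fun T h1 h2 h3 h4 h5 => h.min T h1 h2 h3 h5 h4
  comp := h.comp

/-- a component with a point of A has no point of B -/
theorem Ctx.excl (hT : TreeLike X) {k : X → X} {L A B : Set X} (h : Ctx k L A B) {m : ℕ}
    (hm : 0 < m) {x : X} (hx : x ∈ L) (kx : k^[m] x = x) (hA : (Cp (k^[m]) L x ∩ A).Nonempty) :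
    Cp (k^[m]) L x ∩ B = ∅ := by
  rw [eq_empty_iff_forall_notMem]
  rintro b ⟨hb, hbB⟩
  obtain ⟨a, ha, haA⟩ := hA
  have mD := Cp_inv h.hk.cont h.mL m hx kx ha (h.fA a haA)
  have hF := fm hT h.hk.cont m hm (Cp_closed (h.hk.cont.iterate m) h.cL hx kx) (Cp_conn hx kx) mD
    (fun y hy => Cp_fix hy)
  obtain ⟨w, hw, hwA, hwB⟩ := isPreconnected_closed_iff.1 hF.isPreconnected A B h.cA h.cB
    (fun y hy => h.fixAB y (Cp_sub hy.1) hy.2) ⟨a, ⟨ha, h.fA a haA⟩, haA⟩
    ⟨b, ⟨hb, h.fB b hbB⟩, hbB⟩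
  exact Set.disjoint_left.1 h.disj hwA hwB

theorem Ctx.type {k : X → X} {L A B : Set X} (h : Ctx k L A B) {m : ℕ}
    (hm : 0 < m) {x : X} (hx : x ∈ L) (kx : k^[m] x = x) :
    (Cp (k^[m]) L x ∩ A).Nonempty ∨ (Cp (k^[m]) L x ∩ B).Nonempty := by
  obtain ⟨z, hz, hz'⟩ := h.comp m hm x hx kx
  rcases h.fixAB z (Cp_sub hz) hz' with h1 | h1
  · exact Or.inl ⟨z, hz, h1⟩
  · exact Or.inr ⟨z, hz, h1⟩

/-- the components are nowhere dense -/
theorem Ctx.nowhereA (hT : TreeLike X) {k : X → X} {L A B : Set X} (h : Ctx k L A B) {m : ℕ}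
    (hm : 0 < m) {x : X} (hx : x ∈ L) (kx : k^[m] x = x) (hA : (Cp (k^[m]) L x ∩ A).Nonempty) :
    L ⊆ closure (L \ Cp (k^[m]) L x) := by
  have hB := h.excl hT hm hx kx hA
  set D := Cp (k^[m]) L x with hD
  obtain ⟨a, ha, haA⟩ := hA
  obtain ⟨b, hbL, hbB⟩ := h.nB
  have bD : b ∉ D := by
    intro hb
    have : b ∈ D ∩ B := ⟨hb, hbB⟩
    rw [hB] at this
    exact this
  have cD : IsClosed D := Cp_closed (h.hk.cont.iterate m) h.cL hx kx
  have conD : IsConnected D := Cp_conn hx kx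
  have DL : D ⊆ L := Cp_sub
  have mD : MapsTo k D D := Cp_inv h.hk.cont h.mL m hx kx ha (h.fA a haA)
  set G := closure (L \ D) with hG
  have cG : IsClosed G := isClosed_closure
  have bG : b ∈ G := subset_closure ⟨hbL, bD⟩
  have hGL : G ⊆ L := closure_minimal sdiff_subset h.cL
  obtain ⟨T, cT, conT, hTG, hbT, hTD⟩ := bb h.cL h.conL.isPreconnected cG cD (by
    intro y hy
    by_cases h : y ∈ D
    · exact Or.inr h
    · exact Or.inl (subset_closure ⟨hy, h⟩)) ⟨x, hx, Cp_self hx kx⟩ hbL bG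
  have hTDL : L ⊆ T ∪ D := by
    apply h.min (T ∪ D)
    · exact union_subset (fun y hy => (hTG hy).1) DL
    · exact cT.union cD
    · exact conT.union hTD conD
    · exact ⟨a, Or.inr ha, haA⟩
    · exact ⟨b, Or.inl hbT, hbB⟩
  have hGT : G ⊆ T := by
    apply closure_minimal _ cT
    rintro y ⟨hy, hy'⟩
    rcases hTDL hy with h | h
    · exact h
    · exact absurd h hy'
  have hGT' : G = T := Subset.antisymm hGT (fun y hy => (hTG hy).2)
  have conG : IsConnected G := by rw [hGT']; exact conT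
  have mG : MapsTo k G G := by
    apply MapsTo.closure _ h.hk.cont
    rintro y ⟨hy, hy'⟩
    exact ⟨h.mL hy, fun h' => hy' (h.hk.back mD h')⟩
  have conDG : IsConnected (D ∩ G) := by
    refine ⟨?_, hu hT cD cG conD.isPreconnected conG.isPreconnected⟩
    obtain ⟨y, hy, hy'⟩ := hTD
    exact ⟨y, hy', (hTG hy).2⟩
  obtain ⟨y, ⟨hyD, hyG⟩, ky⟩ := (fm hT h.hk.cont m hm (cD.inter cG) conDG
    (fun y hy => ⟨mD hy.1, mG hy.2⟩) (fun y hy => Cp_fix hy.1)).nonempty
  have hyA : y ∈ A := by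
    rcases h.fixAB y (DL hyD) ky with h1 | h1
    · exact h1
    · exact absurd (show y ∈ D ∩ B from ⟨hyD, h1⟩) (by rw [hB]; exact notMem_empty y)
  exact h.min G hGL cG conG ⟨y, hyG, hyA⟩ ⟨b, bG, hbB⟩

theorem Ctx.claim3 (hT : TreeLike X) {k : X → X} {L A B : Set X} (h : Ctx k L A B) {m n : ℕ}
    (hm : 0 < m) (hn : 0 < n) {x y : X} (hx : x ∈ L) (kx : k^[m] x = x)
    (hA : (Cp (k^[m]) L x ∩ A).Nonempty) (hy : y ∈ L) (ky : k^[n] y = y)
    (hB : (Cp (k^[n]) L y ∩ B).Nonempty) {Q : Set X} (QL : Q ⊆ L) (cQ : IsClosed Q)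
    (conQ : IsConnected Q) (xQ : x ∈ Q) (yQ : y ∈ Q) : L ⊆ Q := by
  have n1 := h.nowhereA hT hm hx kx hA
  have n2 := h.symm.nowhereA hT hn hy ky hB
  set D := Cp (k^[m]) L x with hD
  set D' := Cp (k^[n]) L y with hD'
  have cD : IsClosed D := Cp_closed (h.hk.cont.iterate m) h.cL hx kx
  have cD' : IsClosed D' := Cp_closed (h.hk.cont.iterate n) h.cL hy ky
  have conD : IsConnected D := Cp_conn hx kx
  have conD' : IsConnected D' := Cp_conn hy ky
  have xD : x ∈ D := Cp_self hx kx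
  have yD' : y ∈ D' := Cp_self hy ky
  have hall : L ⊆ (Q ∪ D) ∪ D' := by
    apply h.min
    · exact union_subset (union_subset QL Cp_sub) Cp_sub
    · exact (cQ.union cD).union cD'
    · exact (conQ.union ⟨x, xQ, xD⟩ conD).union ⟨y, Or.inl yQ, yD'⟩ conD'
    · obtain ⟨a, ha, haA⟩ := hA
      exact ⟨a, Or.inl (Or.inr ha), haA⟩
    · obtain ⟨b, hb, hbB⟩ := hB
      exact ⟨b, Or.inr hb, hbB⟩
  intro w hw
  by_contra hwQ
  have h1 := n1 hw
  rw [mem_closure_iff] at h1
  obtain ⟨w1, hw1, hw1L, hw1D⟩ := h1 Qᶜ cQ.isOpen_compl hwQ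
  have h2 := n2 hw1L
  rw [mem_closure_iff] at h2
  obtain ⟨w2, ⟨hw2Q, hw2D⟩, hw2L, hw2D'⟩ := h2 (Qᶜ ∩ Dᶜ) (cQ.isOpen_compl.inter cD.isOpen_compl)
    ⟨hw1, hw1D⟩
  rcases hall hw2L with (h | h) | h
  · exact hw2Q h
  · exact hw2D h
  · exact hw2D' h

theorem Ctx.final_aux (hT : TreeLike X) {k : X → X} {L A B : Set X} (h : Ctx k L A B) {m : ℕ}
    (hm : 0 < m) {O : Set X} (hO : IsOpen O) (hLO : ∀ y ∈ L ∩ O, k^[m] y = y) {x : X} (hx : x ∈ L)
    (xO : x ∈ O) (hA : (Cp (k^[m]) L x ∩ A).Nonempty) : False := by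
  have kx : k^[m] x = x := hLO x ⟨hx, xO⟩
  have hB := h.excl hT hm hx kx hA
  have hkm := h.hk.cont.iterate m
  obtain ⟨H, H', cH, cH', hun, hdis, hDH, hHU⟩ := comp_sep (fixClosed hkm h.cL)
    (show x ∈ L ∩ {y | k^[m] y = y} from ⟨hx, kx⟩) h.cB.isOpen_compl (by
      intro y hy hyB
      have : y ∈ Cp (k^[m]) L x ∩ B := ⟨hy, hyB⟩
      rw [hB] at this
      exact this)
  have xH : x ∈ H := hDH (Cp_self hx kx)
  have xO' : x ∈ O ∩ H'ᶜ := ⟨xO, Set.disjoint_left.1 hdis xH⟩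
  -- points of O' are of the first type
  have hty : ∀ y ∈ L, y ∈ O ∩ H'ᶜ → k^[m] y = y ∧ Cp (k^[m]) L y ∩ B = ∅ := by
    rintro y hy ⟨hyO, hyH'⟩
    have ky : k^[m] y = y := hLO y ⟨hy, hyO⟩
    refine ⟨ky, ?_⟩
    have hyH : y ∈ H := by
      have : y ∈ H ∪ H' := by rw [hun]; exact ⟨hy, ky⟩
      rcases this with h | h
      · exact h
      · exact absurd h hyH'
    have hsub : Cp (k^[m]) L y ⊆ H := by
      have h1 : Cp (k^[m]) L y ⊆ H ∪ H' := by
        rw [hun]
        intro w hw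
        exact ⟨Cp_sub hw, Cp_fix hw⟩
      rcases (isPreconnected_iff_subset_of_disjoint_closed.1
        (Cp_conn hy ky).isPreconnected) H H' cH cH' h1 (by
          rw [hdis.inter_eq, inter_empty]) with h2 | h2
      · exact h2
      · exact absurd (h2 (Cp_self hy ky)) hyH'
    rw [eq_empty_iff_forall_notMem]
    rintro w ⟨hw, hwB⟩
    exact hHU (hsub hw) hwB
  obtain ⟨b, hbL, hbB⟩ := h.nB
  have kb : k^[m] b = b := Function.iterate_fixed (h.fB b hbB) m
  have bO' : b ∉ O ∩ H'ᶜ := by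
    intro hb
    have h1 := (hty b hbL hb).2
    have : b ∈ Cp (k^[m]) L b ∩ B := ⟨Cp_self hbL kb, hbB⟩
    rw [h1] at this
    exact this
  obtain ⟨V, hV, xV, hVO⟩ := normal_exists_closure_subset (isClosed_singleton (x := x))
    (hO.inter cH'.isOpen_compl) (singleton_subset_iff.2 xO')
  have xV' : x ∈ V := xV rfl
  obtain ⟨Q, cQ, conQ, hQ, bQ, y, hyQ, hyV⟩ := bb h.cL h.conL.isPreconnected hV.isClosed_compl
    (isClosed_closure (s := V)) (by
      intro w _
      by_cases h : w ∈ V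
      · exact Or.inr (subset_closure h)
      · exact Or.inl h) ⟨x, hx, subset_closure xV'⟩ hbL (fun h => bO' (hVO (subset_closure h)))
  have QL : Q ⊆ L := fun w hw => (hQ hw).1
  obtain ⟨ky, hyB⟩ := hty y (QL hyQ) (hVO hyV)
  have hyA : (Cp (k^[m]) L y ∩ A).Nonempty := by
    rcases h.type hm (QL hyQ) ky with h1 | h1
    · exact h1
    · rw [hyB] at h1
      exact absurd h1 not_nonempty_empty
  have := h.claim3 hT hm hm (QL hyQ) ky hyA hbL kb ⟨b, Cp_self hbL kb, hbB⟩ QL cQ conQ hyQ bQ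
  exact (hQ (this hx)).2 xV'

theorem Ctx.final (hT : TreeLike X) {k : X → X} {L A B : Set X} (h : Ctx k L A B) : False := by
  obtain ⟨m, O, hO, -, ⟨x, hx, xO⟩, hLO⟩ := baire h.cL (F := fun m => {y | k^[m + 1] y = y})
    (fun m => isClosed_eq (h.hk.cont.iterate _) continuous_id) (by
      intro y _
      obtain ⟨m, hm, hm'⟩ := h.hk.per y
      obtain ⟨r, hr⟩ := Nat.exists_eq_succ_of_ne_zero hm.ne'
      rw [hr] at hm'
      exact mem_iUnion.2 ⟨r, hm'⟩) isOpen_univ (by rw [inter_univ]; exact h.conL.nonempty)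
  have kx : k^[m + 1] x = x := hLO ⟨hx, xO⟩
  rcases h.type (Nat.succ_pos m) hx kx with h1 | h1
  · exact h.final_aux hT (Nat.succ_pos m) hO hLO hx xO h1
  · exact h.symm.final_aux hT (Nat.succ_pos m) hO hLO hx xO h1

theorem main_lemma (hT : TreeLike X) [ConnectedSpace X] {k : X → X} (hk : PP k) {a b : X}
    (ka : k a = a) (kb : k b = b) {Z : Set X} (hZ : IsClosed Z) (kZ : ∀ x ∈ I a b ∩ Z, k x = x)
    (H : ∀ x ∈ I a b, ∀ w ∈ I a b, I x w ∩ Z = ∅ → ∃ m, 0 < m ∧ ∀ y ∈ I x w, k^[m] y = y) :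
    ∀ x ∈ I a b, k x = x := by
  classical
  by_contra hcon
  have cI := I_closed a b
  have conI := I_conn hT a b
  have haI := I_left a b
  have hbI := I_right a b
  have hnb : b ∉ Cp k (I a b) a := by
    intro hb
    apply hcon
    have h1 : I a b ⊆ Cp k (I a b) a := I_min (Cp_closed hk.cont cI haI ka)
      (Cp_conn haI ka).isPreconnected (Cp_self haI ka) hb
    exact fun x hx => Cp_fix (h1 hx)
  obtain ⟨A, B, cA, cB, hun, hdis, hDA, hAU⟩ := comp_sep (fixClosed hk.cont cI)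
    (show a ∈ I a b ∩ {y | k y = y} from ⟨haI, ka⟩) (isClosed_singleton (x := b)).isOpen_compl (by
      intro y hy hyb
      rw [mem_singleton_iff.1 hyb] at hy
      exact hnb hy)
  have aA : a ∈ A := hDA (Cp_self haI ka)
  have bB : b ∈ B := by
    have : b ∈ A ∪ B := by rw [hun]; exact ⟨hbI, kb⟩
    rcases this with h | h
    · exact absurd rfl (hAU h)
    · exact h
  have fA : ∀ x ∈ A, k x = x := by
    intro x hx
    have : x ∈ I a b ∩ {y | k y = y} := by rw [← hun]; exact Or.inl hx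
    exact this.2
  have fB : ∀ x ∈ B, k x = x := by
    intro x hx
    have : x ∈ I a b ∩ {y | k y = y} := by rw [← hun]; exact Or.inr hx
    exact this.2
  have fAB : ∀ x ∈ I a b, k x = x → x ∈ A ∨ x ∈ B := by
    intro x hx hx'
    have : x ∈ A ∪ B := by rw [hun]; exact ⟨hx, hx'⟩
    exact this
  obtain ⟨L, hLI, cL, conL, hmeet, hmin⟩ := zmin ({A, B} : Set (Set X)) (by
    rintro P (rfl | rfl)
    · exact cA
    · exact cB) cI conI (by
    rintro P (rfl | rfl)
    · exact ⟨a, haI, aA⟩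
    · exact ⟨b, hbI, bB⟩)
  have nA : (L ∩ A).Nonempty := hmeet A (Or.inl rfl)
  have nB : (L ∩ B).Nonempty := hmeet B (Or.inr rfl)
  have hmin' : ∀ T ⊆ L, IsClosed T → IsConnected T → (T ∩ A).Nonempty → (T ∩ B).Nonempty →
      L ⊆ T := by
    intro T h1 h2 h3 h4 h5
    apply hmin T h1 h2 h3
    rintro P (rfl | rfl)
    · exact h4
    · exact h5
  obtain ⟨a', ha'L, ha'A⟩ := id nA
  obtain ⟨b', hb'L, hb'B⟩ := id nB
  have ka' := fA a' ha'A
  have kb' := fB b' hb'B
  have mL : MapsTo k L L := by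
    have h := hmin' (L ∩ k ⁻¹' L) inter_subset_left (cL.inter (cL.preimage hk.cont))
      ⟨⟨a', ha'L, by show k a' ∈ L; rw [ka']; exact ha'L⟩,
        hu hT cL (cL.preimage hk.cont) conL.isPreconnected (hk.preim conL.isPreconnected)⟩
      ⟨a', ⟨ha'L, by show k a' ∈ L; rw [ka']; exact ha'L⟩, ha'A⟩
      ⟨b', ⟨hb'L, by show k b' ∈ L; rw [kb']; exact hb'L⟩, hb'B⟩
    exact fun y hy => (h hy).2
  have hLZ : (L ∩ Z).Nonempty := by
    by_contra hne
    have hIL : I a' b' ⊆ L := I_min cL conL.isPreconnected ha'L hb'L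
    obtain ⟨m, hm, hm'⟩ := H a' (hLI ha'L) b' (hLI hb'L) (by
      rw [eq_empty_iff_forall_notMem]
      rintro y ⟨hy, hy'⟩
      exact hne ⟨y, hIL hy, hy'⟩)
    have mI := hk.mapsI hT a' b'
    rw [ka', kb'] at mI
    have hF := fm hT hk.cont m hm (I_closed a' b') (I_conn hT a' b') mI hm'
    obtain ⟨w, hw, hwA, hwB⟩ := isPreconnected_closed_iff.1 hF.isPreconnected A B cA cB
      (fun y hy => fAB y (hLI (hIL hy.1)) hy.2) ⟨a', ⟨I_left _ _, ka'⟩, ha'A⟩
      ⟨b', ⟨I_right _ _, kb'⟩, hb'B⟩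
    exact Set.disjoint_left.1 hdis hwA hwB
  have hctx : Ctx k L A B := {
    hk := hk
    cL := cL
    conL := conL
    mL := mL
    cA := cA
    cB := cB
    disj := hdis
    fixAB := fun x hx hx' => fAB x (hLI hx) hx'
    fA := fA
    fB := fB
    nA := nA
    nB := nB
    min := hmin'
    comp := by
      intro m hm x hx kx
      obtain ⟨E, hEL, cE, conE, hxE, ⟨z, hzE, hzZ⟩, hfix⟩ := step1 hT (hk.iter m) cL conL hZ
        (fun y hy => Function.iterate_fixed (kZ y ⟨hLI hy.1, hy.2⟩) m) (by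
          intro u hu w hw hd
          obtain ⟨n, hn, hn'⟩ := H u (hLI hu) w (hLI hw) hd
          refine ⟨n, hn, fun y hy => ?_⟩
          rw [← Function.iterate_mul, mul_comm, Function.iterate_mul]
          exact Function.iterate_fixed (hn' y hy) m) hx kx hLZ
      refine ⟨z, Cp_max conE.isPreconnected hxE hEL hfix hzE, ?_⟩
      exact kZ z ⟨hLI (hEL hzE), hzZ⟩ }
  exact hctx.final hT

/-- every least continuum on two points is periodic -/
theorem tame (hT : TreeLike X) [ConnectedSpace X] {h : X → X} (hh : PP h) (a b : X) :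
    ∃ m, 0 < m ∧ ∀ y ∈ I a b, h^[m] y = y := by
  classical
  by_contra hcon
  obtain ⟨Zs, -, hZs⟩ := zorn_superset_nonempty
    {T : Set X | IsClosed T ∧ ∀ u v, (¬ ∃ m, 0 < m ∧ ∀ y ∈ I u v, h^[m] y = y) →
      (T ∩ I u v).Nonempty} (by
      intro c hc hch hne
      refine ⟨⋂₀ c, ⟨isClosed_sInter fun s hs => (hc hs).1, ?_⟩,
        fun s hs => sInter_subset_of_mem hs⟩
      intro u v huv
      exact chain_meet hch hne (fun s hs => (hc hs).1) (I_closed u v)
        (fun s hs => (hc hs).2 u v huv)) univ ⟨isClosed_univ, fun u v _ => ⟨u, trivial, I_left u v⟩⟩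
  obtain ⟨cZ, mZ⟩ := hZs.prop
  have minZ : ∀ T ⊆ Zs, IsClosed T → (∀ u v, (¬ ∃ m, 0 < m ∧ ∀ y ∈ I u v, h^[m] y = y) →
      (T ∩ I u v).Nonempty) → Zs ⊆ T := fun T h1 h2 h3 => hZs.2 ⟨h2, h3⟩ h1
  obtain ⟨z0, hz0, -⟩ := mZ a b hcon
  obtain ⟨r, G, hG, -, ⟨g0, hg0, hg0G⟩, hZG⟩ := baire cZ (F := fun m => {y | h^[m + 1] y = y})
    (fun m => isClosed_eq (hh.cont.iterate _) continuous_id) (by
      intro y _
      obtain ⟨m, hm, hm'⟩ := hh.per y
      obtain ⟨r, hr⟩ := Nat.exists_eq_succ_of_ne_zero hm.ne'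
      rw [hr] at hm'
      exact mem_iUnion.2 ⟨r, hm'⟩) isOpen_univ ⟨z0, hz0, trivial⟩
  have hex : ∃ u v, (¬ ∃ m, 0 < m ∧ ∀ y ∈ I u v, h^[m] y = y) ∧ Zs ∩ Gᶜ ∩ I u v = ∅ := by
    by_contra hno
    have := minZ (Zs ∩ Gᶜ) inter_subset_left (cZ.inter hG.isClosed_compl) (by
      intro u v huv
      by_contra hne
      exact hno ⟨u, v, huv, not_nonempty_iff_eq_empty.1 hne⟩)
    exact (this hg0).2 hg0G
  obtain ⟨u, v, huv, hd⟩ := hex
  obtain ⟨mu, hmu, hu'⟩ := hh.per u
  obtain ⟨mv, hmv, hv'⟩ := hh.per v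
  apply huv
  have hpos : 0 < (r + 1) * (mu * mv) := Nat.mul_pos (Nat.succ_pos r) (Nat.mul_pos hmu hmv)
  refine ⟨(r + 1) * (mu * mv), hpos, ?_⟩
  apply main_lemma hT (hh.iter _) (Z := Zs)
  · rw [show (r + 1) * (mu * mv) = mu * ((r + 1) * mv) by ring, Function.iterate_mul]
    exact Function.iterate_fixed hu' _
  · rw [show (r + 1) * (mu * mv) = mv * ((r + 1) * mu) by ring, Function.iterate_mul]
    exact Function.iterate_fixed hv' _
  · exact cZ
  · rintro x ⟨hxI, hxZ⟩
    have hxG : x ∈ G := by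
      by_contra hxG
      have : x ∈ Zs ∩ Gᶜ ∩ I u v := ⟨⟨hxZ, hxG⟩, hxI⟩
      rw [hd] at this
      exact this
    have := hZG ⟨hxZ, hxG⟩
    rw [Function.iterate_mul]
    exact Function.iterate_fixed this _
  · intro x _ w _ hxw
    by_contra hne
    have h1 : ¬ ∃ m, 0 < m ∧ ∀ y ∈ I x w, h^[m] y = y := by
      rintro ⟨m, hm, hm'⟩
      apply hne
      refine ⟨m, hm, fun y hy => ?_⟩
      rw [← Function.iterate_mul, mul_comm, Function.iterate_mul]
      exact Function.iterate_fixed (hm' y hy) _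
    obtain ⟨y, hy1, hy2⟩ := mZ x w h1
    have : y ∈ I x w ∩ Zs := ⟨hy2, hy1⟩
    rw [hxw] at this
    exact this

theorem exists_fixed (hT : TreeLike X) [ConnectedSpace X] {h : X → X} (hh : PP h) :
    ∃ x, h x = x := by
  classical
  obtain ⟨x⟩ : Nonempty X := inferInstance
  obtain ⟨m, hm, hx⟩ := hh.per x
  choose e he he' using fun i : ℕ => tame hT hh (h^[i] x) (h^[i + 1] x)
  have hcon : ∀ j : ℕ, IsConnected (⋃ i ∈ Finset.range (j + 1), I (h^[i] x) (h^[i + 1] x)) := by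
    intro j
    induction j with
    | zero =>
      simp only [zero_add, Finset.range_one, Finset.mem_singleton, iUnion_iUnion_eq_left]
      exact I_conn hT _ _
    | succ j ih =>
      rw [Finset.range_add_one, Finset.set_biUnion_insert]
      apply (I_conn hT _ _).union _ ih
      refine ⟨h^[j + 1] x, I_left _ _, ?_⟩
      exact mem_iUnion₂.2 ⟨j, Finset.mem_range.2 (Nat.lt_succ_self j), I_right _ _⟩
  obtain ⟨r, hr⟩ := Nat.exists_eq_succ_of_ne_zero hm.ne'
  have cN : IsClosed (⋃ i ∈ Finset.range (r + 1), I (h^[i] x) (h^[i + 1] x)) := by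
    apply Set.Finite.isClosed_biUnion (Finset.finite_toSet _)
    intro i _
    exact I_closed _ _
  have mN : MapsTo h (⋃ i ∈ Finset.range (r + 1), I (h^[i] x) (h^[i + 1] x))
      (⋃ i ∈ Finset.range (r + 1), I (h^[i] x) (h^[i + 1] x)) := by
    intro y hy
    obtain ⟨i, hi, hy⟩ := mem_iUnion₂.1 hy
    have h1 := hh.mapsI hT _ _ hy
    rw [← Function.iterate_succ_apply' h i, ← Function.iterate_succ_apply' h (i + 1)] at h1
    by_cases hir : i + 1 < r + 1
    · exact mem_iUnion₂.2 ⟨i + 1, Finset.mem_range.2 hir, h1⟩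
    · have hi' : i + 1 = m := by
        have := Finset.mem_range.1 hi
        omega
      rw [Nat.succ_eq_add_one, Nat.succ_eq_add_one, Function.iterate_succ_apply' h (i + 1), hi',
        hx] at h1
      exact mem_iUnion₂.2 ⟨0, Finset.mem_range.2 (Nat.succ_pos r), h1⟩
  have hpos : 0 < ∏ i ∈ Finset.range (r + 1), e i := Finset.prod_pos fun i _ => he i
  obtain ⟨y, -, hy⟩ := (fm hT hh.cont _ hpos cN (hcon r) mN (by
    intro y hy
    obtain ⟨i, hi, hy⟩ := mem_iUnion₂.1 hy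
    rw [← Finset.mul_prod_erase _ _ hi, Function.iterate_mul]
    exact Function.iterate_fixed (he' i y hy) _)).nonempty
  exact ⟨y, hy⟩


end TL

/-- For every compact connected metric space in which every open cover is refined by a finite open cover whose nerve is a tree, every homeomorphism under which each point is periodic has a fixed point. -/
theorem result :
    ∀ (X : Type) [MetricSpace X] [CompactSpace X] [ConnectedSpace X],
      (∀ 𝒰 : Set (Set X), (∀ U ∈ 𝒰, IsOpen U) → ⋃₀ 𝒰 = Set.univ →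
        ∃ (n : ℕ) (V : Fin n → Set X),
          (∀ i, IsOpen (V i)) ∧ (⋃ i, V i) = Set.univ ∧
          (∀ i, ∃ U ∈ 𝒰, V i ⊆ U) ∧
          (∀ i j k, i ≠ j → j ≠ k → i ≠ k → V i ∩ V j ∩ V k = ∅) ∧
          (SimpleGraph.fromRel (fun i j : Fin n => (V i ∩ V j).Nonempty)).IsTree) →
      ∀ f : X ≃ₜ X, (∀ x, ∃ m : ℕ, 0 < m ∧ (⇑f)^[m] x = x) → ∃ x, f x = x := by
  intro X _ _ _ hT f hf
  exact TL.exists_fixed (h := ⇑f) hT ⟨f.continuous, hf⟩

end Pool.Agent.S08649
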