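import Pool.Statements.S08660
import Pool.Agent.Helper613.RAFinal

set_option autoImplicit false
open Pool Pool.MP_8b77e3_gt

namespace Pool.Agent.S08660

/-- The negation of the preceding statement: For some n ≥ 9 there is a finite-volume hyperbolic polytope in ℍⁿ with nonempty interior, given by unit Lorentzian facet normals, all of whose facet pairs either meet at right angles or do not meet. Equivalently, a cofinite right-angled hyperbolic reflection group exists in some dimension n ≥ 9. -/
theorem result :
    ¬ (∃ n : ℕ, 9 ≤ n ∧ ∃ m : ℕ, ∃ e : Fin m → Fin (n + 1) → ℝ,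
      (∀ i, (∑ k : Fin n, e i k.castSucc ^ 2) - e i (Fin.last n) ^ 2 = 1) ∧
      (∀ i j, i ≠ j →
        ((∑ k : Fin n, e i k.castSucc * e j k.castSucc) - e i (Fin.last n) * e j (Fin.last n) = 0 ∨
         (∑ k : Fin n, e i k.castSucc * e j k.castSucc) - e i (Fin.last n) * e j (Fin.last n) ≤ -1)) ∧
      (∃ y : Fin n → ℝ, (∑ k : Fin n, y k ^ 2) < 1 ∧
        ∀ i, (∑ k : Fin n, y k * e i k.castSucc) - e i (Fin.last n) < 0) ∧
      (∀ y : Fin n → ℝ, (∀ i, (∑ k : Fin n, y k * e i k.castSucc) - e i (Fin.last n) ≤ 0) →
        (∑ k : Fin n, y k ^ 2) ≤ 1)) := by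
  rintro ⟨n, hn, m, e, hunit, hpair, ⟨y, hy, hye⟩, hball⟩
  have hsys : Pool.Agent.Helper613.RA.Sys e (Fin.snoc y 1 : Fin (n + 1) → ℝ) := by
    refine ⟨?_, ?_, ?_, ?_, ?_, ?_⟩
    · intro i
      have h := hunit i
      unfold Pool.Agent.Helper613.DH.mink
      simp only [← pow_two]
      exact h
    · intro i j hij
      exact hpair i j hij
    · simp
    · unfold Pool.Agent.Helper613.DH.mink
      simp only [Fin.snoc_castSucc, Fin.snoc_last, ← pow_two]
      linarith
    · intro i
      unfold Pool.Agent.Helper613.DH.mink
      simp only [Fin.snoc_castSucc, Fin.snoc_last, one_mul]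
      exact hye i
    · intro z hz hz'
      have h1 := hball (fun k => z k.castSucc / z (Fin.last n)) (by
        intro i
        have h2 := hz' i
        unfold Pool.Agent.Helper613.DH.mink at h2
        have h3 : (∑ k : Fin n, z k.castSucc / z (Fin.last n) * e i k.castSucc) -
            e i (Fin.last n) = ((∑ k : Fin n, z k.castSucc * e i k.castSucc) -
              z (Fin.last n) * e i (Fin.last n)) / z (Fin.last n) := by
          rw [sub_div, Finset.sum_div]
          congr 1
          · exact Finset.sum_congr rfl fun k _ => by ring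
          · field_simp
        rw [h3]
        exact div_nonpos_of_nonpos_of_nonneg h2 hz.le)
      have h4 : (∑ k : Fin n, (z k.castSucc / z (Fin.last n)) ^ 2) =
          (∑ k : Fin n, z k.castSucc ^ 2) / z (Fin.last n) ^ 2 := by
        rw [Finset.sum_div]
        exact Finset.sum_congr rfl fun k _ => by rw [div_pow]
      rw [h4, div_le_one (by positivity)] at h1
      unfold Pool.Agent.Helper613.DH.mink
      simp only [← pow_two]
      linarith
  exact Pool.Agent.Helper613.RA.no_sys hn hsys

end Pool.Agent.S08660
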