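import Pool.Statements.S08662
import Pool.Agent.Helper102.Wedge

set_option autoImplicit false
universe u
open Pool Pool.MP_8bbda9_gt

namespace Pool.Agent.S08662

open Pool.Agent.Helper102.WedgeSp Topology Filter Set

/-- An uncountable index type. -/
abbrev Idx : Type u := ULift.{u} ℝ

/-- The points of the space `X`. -/
inductive Pt : Type u
  | a (α β : Idx.{u}) (n : ℕ) (i : Bool) : Pt
  | e (n : ℕ) (i : Bool) : Pt
  | q (α : Idx.{u}) : Pt

instance : TopologicalSpace Pt.{u} where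
  IsOpen U := (∀ n i, Pt.e n i ∈ U → ∃ P : Set Idx.{u}, P.Countable ∧ ∀ α ∉ P, ∀ β, Pt.a α β n i ∈ U) ∧
    (∀ α, Pt.q α ∈ U → ∃ (m : ℕ) (C : Set Idx.{u}), C.Countable ∧
      ∀ n ≥ m, ∀ β ∉ C, ∀ i, Pt.a α β n i ∈ U)
  isOpen_univ := by
    refine ⟨fun n i _ => ⟨∅, countable_empty, ?_⟩, fun α _ => ⟨0, ∅, countable_empty, ?_⟩⟩ <;>
      simp
  isOpen_inter := by
    rintro s t ⟨hs1, hs2⟩ ⟨ht1, ht2⟩
    refine ⟨fun n i h => ?_, fun α h => ?_⟩
    · obtain ⟨P, hP, h1⟩ := hs1 n i h.1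
      obtain ⟨Q, hQ, h2⟩ := ht1 n i h.2
      refine ⟨P ∪ Q, hP.union hQ, fun α hα β => ⟨?_, ?_⟩⟩
      · exact h1 α (fun h => hα (Or.inl h)) β
      · exact h2 α (fun h => hα (Or.inr h)) β
    · obtain ⟨m, P, hP, h1⟩ := hs2 α h.1
      obtain ⟨k, Q, hQ, h2⟩ := ht2 α h.2
      refine ⟨max m k, P ∪ Q, hP.union hQ, fun n hn β hβ i => ⟨?_, ?_⟩⟩
      · exact h1 n (le_of_max_le_left hn) β (fun h => hβ (Or.inl h)) i
      · exact h2 n (le_of_max_le_right hn) β (fun h => hβ (Or.inr h)) i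
  isOpen_sUnion := by
    intro S hS
    refine ⟨fun n i h => ?_, fun α h => ?_⟩
    · obtain ⟨s, hs, hx⟩ := h
      obtain ⟨P, hP, h1⟩ := (hS s hs).1 n i hx
      exact ⟨P, hP, fun α hα β => ⟨s, hs, h1 α hα β⟩⟩
    · obtain ⟨s, hs, hx⟩ := h
      obtain ⟨m, P, hP, h1⟩ := (hS s hs).2 α hx
      exact ⟨m, P, hP, fun n hn β hβ i => ⟨s, hs, h1 n hn β hβ i⟩⟩

lemma isOpen_iff (U : Set Pt.{u}) : IsOpen U ↔
    (∀ n i, Pt.e n i ∈ U → ∃ P : Set Idx.{u}, P.Countable ∧ ∀ α ∉ P, ∀ β, Pt.a α β n i ∈ U) ∧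
    (∀ α, Pt.q α ∈ U → ∃ (m : ℕ) (C : Set Idx.{u}), C.Countable ∧
      ∀ n ≥ m, ∀ β ∉ C, ∀ i, Pt.a α β n i ∈ U) := Iff.rfl

/-- Every countable subset is closed. -/
lemma isClosed_of_countable (s : Set Pt.{u}) (hs : s.Countable) : IsClosed s := by
  rw [← isOpen_compl_iff, isOpen_iff]
  refine ⟨fun n i _ => ?_, fun α _ => ?_⟩
  · let f : Pt.{u} → Idx.{u} := fun p => match p with
      | Pt.a α _ _ _ => α
      | Pt.e _ _ => ⟨0⟩
      | Pt.q _ => ⟨0⟩
    refine ⟨f '' s, hs.image f, fun α hα β h => hα ⟨_, h, rfl⟩⟩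
  · let f : Pt.{u} → Idx.{u} := fun p => match p with
      | Pt.a _ β _ _ => β
      | Pt.e _ _ => ⟨0⟩
      | Pt.q _ => ⟨0⟩
    refine ⟨0, f '' s, hs.image f, fun n _ β hβ i h => hβ ⟨_, h, rfl⟩⟩

/-- `Pt` is zero-dimensional. -/
lemma exists_clopen (p : Pt.{u}) (U : Set Pt.{u}) (hU : IsOpen U) (hp : p ∈ U) :
    ∃ V, IsClopen V ∧ p ∈ V ∧ V ⊆ U := by
  cases p with
  | a α β n i =>
    refine ⟨{Pt.a α β n i}, ⟨isClosed_of_countable _ (countable_singleton _), ?_⟩, rfl,
      by simpa using hp⟩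
    rw [isOpen_iff]
    refine ⟨fun n i h => ?_, fun α h => ?_⟩ <;> simp at h
  | e n i =>
    obtain ⟨P, hP, h1⟩ := ((isOpen_iff U).1 hU).1 n i hp
    refine ⟨{x | x = Pt.e n i ∨ ∃ α ∉ P, ∃ β, x = Pt.a α β n i}, ⟨?_, ?_⟩, Or.inl rfl, ?_⟩
    · rw [← isOpen_compl_iff, isOpen_iff]
      refine ⟨fun n' i' h => ⟨∅, countable_empty, fun α _ β h2 => ?_⟩,
        fun α _ => ⟨n + 1, ∅, countable_empty, fun k hk β _ j h2 => ?_⟩⟩
      · rcases h2 with h2 | ⟨α', hα', β', h2⟩
        · cases h2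
        · injection h2 with _ _ h3 h4
          subst h3; subst h4
          exact h (Or.inl rfl)
      · rcases h2 with h2 | ⟨α', hα', β', h2⟩
        · cases h2
        · injection h2 with _ _ h3 h4
          omega
    · rw [isOpen_iff]
      refine ⟨fun n' i' h => ?_, fun α h => ?_⟩
      · rcases h with h | ⟨α', hα', β', h⟩
        · injection h with h3 h4
          subst h3; subst h4
          exact ⟨P, hP, fun α hα β => Or.inr ⟨α, hα, β, rfl⟩⟩
        · cases h
      · rcases h with h | ⟨α', hα', β', h⟩ <;> cases h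
    · rintro x (rfl | ⟨α, hα, β, rfl⟩)
      · exact hp
      · exact h1 α hα β
  | q α =>
    obtain ⟨m, C, hC, h1⟩ := ((isOpen_iff U).1 hU).2 α hp
    refine ⟨{x | x = Pt.q α ∨ ∃ n ≥ m, ∃ β ∉ C, ∃ i, x = Pt.a α β n i}, ⟨?_, ?_⟩, Or.inl rfl, ?_⟩
    · rw [← isOpen_compl_iff, isOpen_iff]
      refine ⟨fun n' i' h => ⟨{α}, countable_singleton _, fun α' hα' β h2 => ?_⟩,
        fun α' h => ⟨0, ∅, countable_empty, fun k hk β _ j h2 => ?_⟩⟩
      · rcases h2 with h2 | ⟨_, _, _, _, _, h2⟩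
        · cases h2
        · injection h2 with h3
          exact hα' h3
      · rcases h2 with h2 | ⟨_, _, _, _, _, h2⟩
        · cases h2
        · injection h2 with h3
          subst h3
          exact h (Or.inl rfl)
    · rw [isOpen_iff]
      refine ⟨fun n' i' h => ?_, fun α' h => ?_⟩
      · rcases h with h | ⟨_, _, _, _, _, h⟩ <;> cases h
      · rcases h with h | ⟨_, _, _, _, _, h⟩
        · injection h with h3
          subst h3
          exact ⟨m, C, hC, fun n hn β hβ i => Or.inr ⟨n, hn, β, hβ, i, rfl⟩⟩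
        · cases h
    · rintro x (rfl | ⟨n, hn, β, hβ, i, rfl⟩)
      · exact hp
      · exact h1 n hn β hβ i

instance : T35Space Pt.{u} := by
  classical
  have h1 : CompletelyRegularSpace Pt.{u} := by
    rw [completelyRegularSpace_iff_isOpen]
    intro p U hU hp
    obtain ⟨V, hV, hpV, hVU⟩ := exists_clopen p U hU hp
    refine ⟨fun q => if q ∈ V then 0 else 1, ?_, by simp [hpV], ?_⟩
    · apply Continuous.if
      · intro p hp
        have : frontier {p | p ∈ V} = ∅ := hV.frontier_eq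
        rw [this] at hp
        exact hp.elim
      · exact continuous_const
      · exact continuous_const
    · intro q hq
      have : q ∉ V := fun h => hq (hVU h)
      simp [this]
  have h2 : T1Space Pt.{u} := ⟨fun x => isClosed_of_countable _ (countable_singleton x)⟩
  exact {}

/-- The retraction. -/
def ret : Pt.{u} → Pt.{u}
  | Pt.a α β n _ => Pt.a α β n false
  | Pt.e n _ => Pt.e n false
  | Pt.q α => Pt.q α

lemma ret_ret (x : Pt.{u}) : ret (ret x) = ret x := by
  cases x <;> rfl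

lemma continuous_ret : Continuous ret.{u} := by
  rw [continuous_def]
  intro s hs
  rw [isOpen_iff] at hs ⊢
  refine ⟨fun n i h => ?_, fun α h => ?_⟩
  · obtain ⟨P, hP, h1⟩ := hs.1 n false h
    exact ⟨P, hP, fun α hα β => h1 α hα β⟩
  · obtain ⟨m, C, hC, h1⟩ := hs.2 α h
    exact ⟨m, C, hC, fun n hn β hβ i => h1 n hn β hβ false⟩

/-- the base point -/
def base : Pt.{u} := Pt.q ⟨0⟩

lemma ret_base : ret base.{u} = base := rfl

/-- For every continuous function on `Pt` the values at `e n i` converge, to a limit not depending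
on `i`. -/
lemma tendsto_e (f : Pt.{u} → ℝ) (hf : Continuous f) :
    ∃ l : ℝ, ∀ i, Tendsto (fun n => f (Pt.e n i)) atTop (𝓝 l) := by
  have h1 : ∀ (n : ℕ) (i : Bool) (k : ℕ), ∃ P : Set Idx.{u}, P.Countable ∧
      ∀ α ∉ P, ∀ β, |f (Pt.a α β n i) - f (Pt.e n i)| < 1 / ((k : ℝ) + 1) := by
    intro n i k
    have hopen : IsOpen (f ⁻¹' Metric.ball (f (Pt.e n i)) (1 / ((k : ℝ) + 1))) :=
      Metric.isOpen_ball.preimage hf
    obtain ⟨P, hP, h2⟩ := ((isOpen_iff _).1 hopen).1 n i
      (Metric.mem_ball_self (by positivity))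
    refine ⟨P, hP, fun α hα β => ?_⟩
    have := h2 α hα β
    rwa [mem_preimage, Metric.mem_ball, Real.dist_eq] at this
  choose P hP hP2 using h1
  have hunion : (⋃ n, ⋃ i, ⋃ k, P n i k).Countable :=
    countable_iUnion fun n => countable_iUnion fun i => countable_iUnion fun k => hP n i k
  have hunc : ∀ C : Set Idx.{u}, C.Countable → ∃ α, α ∉ C := by
    intro C hC
    by_contra h
    push Not at h
    have h2 : C = univ := eq_univ_of_forall h
    rw [h2] at hC
    have h3 : Countable Idx.{u} := countable_univ_iff.1 hC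
    have h4 : Countable ℝ := (Equiv.ulift.{u}.symm : ℝ ≃ ULift.{u} ℝ).countable_iff.2 h3
    exact not_countable h4
  obtain ⟨α, hα⟩ := hunc _ hunion
  have heq : ∀ n i β, f (Pt.a α β n i) = f (Pt.e n i) := by
    intro n i β
    by_contra hne
    have hpos : 0 < |f (Pt.a α β n i) - f (Pt.e n i)| := abs_pos.2 (sub_ne_zero.2 hne)
    obtain ⟨k, hk⟩ := exists_nat_one_div_lt hpos
    have hαk : α ∉ P n i k := fun h => hα (mem_iUnion.2 ⟨n, mem_iUnion.2 ⟨i, mem_iUnion.2 ⟨k, h⟩⟩⟩)
    have := hP2 n i k α hαk β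
    linarith
  refine ⟨f (Pt.q α), fun i => ?_⟩
  rw [Metric.tendsto_atTop]
  intro ε hε
  have hopen : IsOpen (f ⁻¹' Metric.ball (f (Pt.q α)) ε) := Metric.isOpen_ball.preimage hf
  obtain ⟨m, C, hC, h2⟩ := ((isOpen_iff _).1 hopen).2 α (Metric.mem_ball_self hε)
  obtain ⟨β, hβ⟩ := hunc C hC
  refine ⟨m, fun n hn => ?_⟩
  have := h2 n hn β hβ i
  rw [mem_preimage, heq] at this
  exact this

/-- The negation of the preceding statement: For Tychonoff spaces X and Y whose spaces of continuous real functions with the pointwise topology are homeomorphic, if every countable subset of X is closed, then every countable subset of Y is closed. -/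
theorem result :
    ¬ (∀ (X Y : Type u) [TopologicalSpace X] [TopologicalSpace Y] [T35Space X] [T35Space Y],
      Nonempty ({f : X → ℝ // Continuous f} ≃ₜ {g : Y → ℝ // Continuous g}) →
      (∀ s : Set X, s.Countable → IsClosed s) →
      ∀ t : Set Y, t.Countable → IsClosed t) := by
  intro H
  have hT : T35Space (Wedge Pt.{u} ret base) := t35Space continuous_ret ret_ret ret_base
  have key := H Pt.{u} (Wedge Pt.{u} ret base) ⟨homeo continuous_ret ret_ret ret_base⟩
    (fun s hs => isClosed_of_countable s hs)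
    (Set.range fun n : ℕ => (⟨Pt.e n true⟩ : Wedge Pt.{u} ret base)) (countable_range _)
  -- the base point is in the closure
  have hlim : Tendsto (fun n : ℕ => (⟨Pt.e n true⟩ : Wedge Pt.{u} ret base)) atTop (𝓝 ⟨base⟩) := by
    rw [isInducing_tw.tendsto_nhds_iff, tendsto_pi_nhds]
    intro f
    obtain ⟨l, hl⟩ := tendsto_e f f.continuous
    have h1 : tw ret base f base = f base := by simp [tw, ret_base]
    have h2 : ∀ n, tw ret base f (Pt.e n true) = f (Pt.e n true) - f (Pt.e n false) + f base := by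
      intro n
      have : ret (Pt.e n true) ≠ Pt.e.{u} n true := by simp [ret]
      simp only [tw, this, if_false]
      rfl
    simp only [Function.comp, h1, h2]
    have h3 := (((hl true).sub (hl false)).add_const (f base))
    simpa using h3
  have hmem := key.mem_of_tendsto hlim (Eventually.of_forall fun n => mem_range_self n)
  obtain ⟨n, hn⟩ := hmem
  have : Pt.e.{u} n true = base := congrArg Wedge.pt hn
  cases this

end Pool.Agent.S08662
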