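import Pool.Statements.S08666

/-!
# Kunen's question on perfect preimages and products with compacta (MP_8d1cd5_gt): negative answer

We build, in ZFC, a locally compact space `Y` on the Cantor set `Om`, a compact space `C` which is
a 2-to-1 preimage of the Cantor set, such that `Y × C` is normal, and a double cover `X → Y`
(a closed subspace of `Y × C`, so `X` is normal and `X → Y` is perfect) such that `X × C` is not
normal.

* `Good O`: a family `O x ⊆ Om × 2` of splitting sets, `(x,0) ∈ O x`, `(x,1) ∉ O x`, with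
  `O x` near every point `w` equal to one of `∅`, everything, `O w` or its complement, countably
  many split points, and a genericity property `hG`.
* `exists_good`: such a family exists (transfinite selection of handlers and partners, then a
  well-founded recursion).
* `star`: for disjoint closed `A, B ⊆ Y × C` the set of `y` such that the closures of `A` and `B` in
  `Om × C` meet over `y` is countable. From this `Y × C` is normal.
* `not_normal`: `X × C` is not normal.
-/

set_option autoImplicit false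
open Pool Pool.MP_8d1cd5_gt

namespace Pool.Agent.S08666

open Set Filter Topology Cardinal


abbrev Om : Type := ℕ → Bool

def cyl (x : Om) (n : ℕ) : Set Om := {y | ∀ i, i < n → y i = x i}

open Classical in
noncomputable def fd (x y : Om) : ℕ := if h : ∃ n, x n ≠ y n then Nat.find h else 0

theorem self_mem_cyl (x : Om) (n : ℕ) : x ∈ cyl x n := fun _ _ => rfl

theorem cyl_anti (x : Om) {m n : ℕ} (h : m ≤ n) : cyl x n ⊆ cyl x m :=
  fun _ hy i hi => hy i (lt_of_lt_of_le hi h)

theorem fd_spec {x y : Om} (h : x ≠ y) : x (fd x y) ≠ y (fd x y) := by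
  classical
  have h' : ∃ n, x n ≠ y n := Function.ne_iff.1 h
  unfold fd
  rw [dif_pos h']
  exact Nat.find_spec h'

theorem eq_of_lt_fd {x y : Om} {i : ℕ} (h : i < fd x y) : x i = y i := by
  classical
  unfold fd at h
  by_cases h' : ∃ n, x n ≠ y n
  · rw [dif_pos h'] at h
    have := Nat.find_min h' h
    simpa using this
  · push Not at h'
    exact h' i

theorem fd_unique {x y : Om} {n : ℕ} (h1 : x n ≠ y n) (h2 : ∀ i, i < n → x i = y i) :
    fd x y = n := by
  have hne : x ≠ y := fun h => h1 (by rw [h])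
  rcases lt_trichotomy (fd x y) n with h | h | h
  · exact absurd (h2 _ h) (fd_spec hne)
  · exact h
  · exact absurd (eq_of_lt_fd h) h1

theorem le_fd {x y : Om} (hne : x ≠ y) {n : ℕ} (h : x ∈ cyl y n) : n ≤ fd x y := by
  by_contra hlt
  push Not at hlt
  exact fd_spec hne (h _ hlt)

theorem fd_nhd {w x : Om} (hne : w ≠ x) {w' : Om} (h : w' ∈ cyl w (fd w x + 1)) :
    w' ≠ x ∧ fd w' x = fd w x := by
  have h1 : w' (fd w x) = w (fd w x) := h _ (Nat.lt_succ_self _)
  have h2 : w' (fd w x) ≠ x (fd w x) := by rw [h1]; exact fd_spec hne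
  refine ⟨fun h => h2 (by rw [h]), fd_unique h2 fun i hi => ?_⟩
  rw [h i (Nat.lt_succ_of_lt hi)]
  exact eq_of_lt_fd hi

/-- the type of points with labels -/
abbrev Pt : Type := Om × Bool

abbrev Sq : Type := ℕ → ℕ → Om × Pt

/-- eligible tasks -/
def Elig (P Q : Sq) : Prop :=
  ∀ F : Set Om, #F < continuum → ∃ y z : Om, y ∉ F ∧ z ∉ F ∧
    (∀ n l, ∃ k, (P n k).1 ∈ cyl y l ∧ (P n k).2.1 ∈ cyl z l) ∧
    (∀ n l, ∃ k, (Q n k).1 ∈ cyl y l ∧ (Q n k).2.1 ∈ cyl z l)

structure Good (O : Om → Pt → Bool) : Prop where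
  h0 : ∀ x, O x (x, false) = true
  h1 : ∀ x, O x (x, true) = false
  h2 : ∀ x w, ∃ n, ∃ a b : Bool, ∀ w' ∈ cyl w n, ∀ j, O x (w', j) = xor a (b && O w (w', j))
  h3 : ∀ x, {w | O x (w, false) ≠ O x (w, true)}.Countable
  hG : ∀ P Q : Sq, Elig P Q → ∃ y z : Om,
    (∀ l, ∃ n0, ∀ n, n0 ≤ n → ∃ k, (P n k).1 ∈ cyl y l ∧
      O y ((P n k).1, false) ≠ O y ((P n k).1, true) ∧
      (P n k).2.1 ∈ cyl z l ∧ O z (P n k).2 = false) ∧
    (∀ l, ∃ n0, ∀ n, n0 ≤ n → ∃ k, (Q n k).1 ∈ cyl y l ∧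
      O y ((Q n k).1, false) ≠ O y ((Q n k).1, true) ∧
      (Q n k).2.1 ∈ cyl z l ∧ O z (Q n k).2 = false)

/-- general recursion -/
theorem exists_O (R : Om → Om → Prop) (wf : WellFounded R) (G : Om → ℕ → Option (Om × Pt))
    (hR : ∀ y d e, G y d = some e → R e.1 y) :
    ∃ O : Om → Pt → Bool, (∀ y j, O y (y, j) = !j) ∧
      (∀ y w j, w ≠ y → G y (fd w y) = none → O y (w, j) = false) ∧
      (∀ y w j e, w ≠ y → G y (fd w y) = some e →
        O y (w, j) = xor (O e.1 (w, j)) (O e.1 e.2)) := by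
  classical
  let F : (y : Om) → ((a : Om) → R a y → (Pt → Bool)) → (Pt → Bool) := fun y rec p =>
    if p.1 = y then !p.2 else
      match h : G y (fd p.1 y) with
      | none => false
      | some e => xor (rec e.1 (hR y _ e h) p) (rec e.1 (hR y _ e h) e.2)
  refine ⟨wf.fix F, ?_, ?_, ?_⟩
  · intro y j
    rw [wf.fix_eq]
    simp [F]
  · intro y w j hw hG
    rw [wf.fix_eq]
    simp only [F, if_neg hw]
    split
    · rfl
    · rename_i e he
      rw [hG] at he
      cases he
  · intro y w j e hw hG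
    rw [wf.fix_eq]
    simp only [F, if_neg hw]
    split
    · rename_i he
      rw [hG] at he
      cases he
    · rename_i e' he
      rw [hG] at he
      cases he
      rfl

theorem O_h2 (R : Om → Om → Prop) (wf : WellFounded R) (G : Om → ℕ → Option (Om × Pt))
    (hR : ∀ y d e, G y d = some e → R e.1 y) (O : Om → Pt → Bool)
    (hn : ∀ y w j, w ≠ y → G y (fd w y) = none → O y (w, j) = false)
    (hs : ∀ y w j e, w ≠ y → G y (fd w y) = some e →
        O y (w, j) = xor (O e.1 (w, j)) (O e.1 e.2)) :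
    ∀ x w, ∃ n, ∃ a b : Bool, ∀ w' ∈ cyl w n, ∀ j, O x (w', j) = xor a (b && O w (w', j)) := by
  intro x
  induction x using wf.induction with
  | _ x ih =>
    intro w
    by_cases hw : w = x
    · subst hw
      exact ⟨0, false, true, fun w' _ j => by simp⟩
    · cases hG : G x (fd w x) with
      | none =>
        refine ⟨fd w x + 1, false, false, fun w' hw' j => ?_⟩
        obtain ⟨h1, h2⟩ := fd_nhd hw hw'
        rw [hn x w' j h1 (by rw [h2, hG])]
        simp
      | some e =>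
        obtain ⟨n, a, b, h⟩ := ih e.1 (hR x _ e hG) w
        refine ⟨max n (fd w x + 1), xor a (O e.1 e.2), b, fun w' hw' j => ?_⟩
        obtain ⟨h1, h2⟩ := fd_nhd hw (cyl_anti w (le_max_right _ _) hw')
        rw [hs x w' j e h1 (by rw [h2, hG]), h w' (cyl_anti w (le_max_left _ _) hw') j]
        cases a <;> cases (O e.1 e.2) <;> cases (b && O w (w', j)) <;> rfl

theorem O_h3 (R : Om → Om → Prop) (wf : WellFounded R) (G : Om → ℕ → Option (Om × Pt))
    (hR : ∀ y d e, G y d = some e → R e.1 y) (O : Om → Pt → Bool)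
    (hn : ∀ y w j, w ≠ y → G y (fd w y) = none → O y (w, j) = false)
    (hs : ∀ y w j e, w ≠ y → G y (fd w y) = some e →
        O y (w, j) = xor (O e.1 (w, j)) (O e.1 e.2)) :
    ∀ x, {w | O x (w, false) ≠ O x (w, true)}.Countable := by
  intro x
  induction x using wf.induction with
  | _ x ih =>
    have hsub : {w | O x (w, false) ≠ O x (w, true)} ⊆
        {x} ∪ ⋃ d : ℕ, ⋃ e : {e : Om × Pt // G x d = some e},
          {w | O e.1.1 (w, false) ≠ O e.1.1 (w, true)} := by
      intro w hw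
      by_cases hwx : w = x
      · left; exact hwx
      · right
        cases hG : G x (fd w x) with
        | none =>
          exfalso
          exact hw (by rw [hn x w false hwx hG, hn x w true hwx hG])
        | some e =>
          refine mem_iUnion.2 ⟨fd w x, mem_iUnion.2 ⟨⟨e, hG⟩, ?_⟩⟩
          intro h
          apply hw
          rw [hs x w false e hwx hG, hs x w true e hwx hG]
          dsimp at h
          rw [h]
    refine Countable.mono hsub (Countable.union (countable_singleton x) ?_)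
    refine countable_iUnion fun d => ?_
    have : Countable {e : Om × Pt // G x d = some e} := by
      have : Subsingleton {e : Om × Pt // G x d = some e} :=
        ⟨fun e e' => Subtype.ext (Option.some_injective _ (e.2.symm.trans e'.2))⟩
      infer_instance
    exact countable_iUnion fun e => ih e.1.1 (hR x d e.1 e.2)


def coords (P Q : Sq) : Set Om :=
  {x | ∃ n k, x = (P n k).1 ∨ x = (P n k).2.1 ∨ x = (Q n k).1 ∨ x = (Q n k).2.1}

theorem coords_countable (P Q : Sq) : (coords P Q).Countable := by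
  have : coords P Q ⊆ ⋃ n : ℕ, ⋃ k : ℕ,
      ({(P n k).1, (P n k).2.1, (Q n k).1, (Q n k).2.1} : Set Om) := by
    rintro x ⟨n, k, h⟩
    refine mem_iUnion.2 ⟨n, mem_iUnion.2 ⟨k, ?_⟩⟩
    simpa using h
  refine Countable.mono this (countable_iUnion fun n => countable_iUnion fun k => ?_)
  exact (Set.toFinite _).countable

theorem exists_seq (P Q : Sq) (y z : Om) (hy : y ∉ coords P Q) (hz : z ∉ coords P Q)
    (hP : ∀ n l, ∃ k, (P n k).1 ∈ cyl y l ∧ (P n k).2.1 ∈ cyl z l)
    (hQ : ∀ n l, ∃ k, (Q n k).1 ∈ cyl y l ∧ (Q n k).2.1 ∈ cyl z l) :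
    ∃ e : ℕ → Om × Pt, (∀ n, ∃ k, e (2 * n) = P n k) ∧ (∀ n, ∃ k, e (2 * n + 1) = Q n k) ∧
      (∀ m, (e m).1 ∈ cyl y m ∧ (e m).2.1 ∈ cyl z m) ∧
      (∀ m, (e m).1 ∈ coords P Q ∧ (e m).2.1 ∈ coords P Q) ∧
      (∀ m m', fd (e m).1 y = fd (e m').1 y → m = m') ∧
      (z = y → ∀ m m', fd (e m).1 y = fd (e m').2.1 y → m = m') := by
  classical
  have hsel : ∀ m l : ℕ, ∃ p : Om × Pt, ((∀ n, m = 2 * n → ∃ k, p = P n k) ∧
      (∀ n, m = 2 * n + 1 → ∃ k, p = Q n k)) ∧ p.1 ∈ cyl y l ∧ p.2.1 ∈ cyl z l ∧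
      (p.1 ∈ coords P Q ∧ p.2.1 ∈ coords P Q) := by
    intro m l
    rcases Nat.even_or_odd' m with ⟨n, h | h⟩
    · obtain ⟨k, h1, h2⟩ := hP n l
      refine ⟨P n k, ⟨fun n' h' => ⟨k, ?_⟩, fun n' h' => by omega⟩, h1, h2,
        ⟨n, k, Or.inl rfl⟩, ⟨n, k, Or.inr (Or.inl rfl)⟩⟩
      have : n' = n := by omega
      rw [this]
    · obtain ⟨k, h1, h2⟩ := hQ n l
      refine ⟨Q n k, ⟨fun n' h' => by omega, fun n' h' => ⟨k, ?_⟩⟩, h1, h2,
        ⟨n, k, Or.inr (Or.inr (Or.inl rfl))⟩, ⟨n, k, Or.inr (Or.inr (Or.inr rfl))⟩⟩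
      have : n' = n := by omega
      rw [this]
  choose sel hs1 hs2 hs3 hs4 using hsel
  let L : ℕ → ℕ := fun m => Nat.rec 0
    (fun m l => max l (max (fd (sel m l).1 y) (fd (sel m l).2.1 y)) + 1) m
  have hL : ∀ m, L (m + 1) =
      max (L m) (max (fd (sel m (L m)).1 y) (fd (sel m (L m)).2.1 y)) + 1 := fun m => rfl
  have hL1 : ∀ m, L m < L (m + 1) := fun m => by rw [hL]; omega
  have hmono : StrictMono L := strictMono_nat_of_lt_succ hL1
  have hLm : ∀ m, m ≤ L m := fun m => hmono.id_le m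
  have hA : ∀ m, fd (sel m (L m)).1 y < L (m + 1) := fun m => by rw [hL]; omega
  have hB : ∀ m, fd (sel m (L m)).2.1 y < L (m + 1) := fun m => by rw [hL]; omega
  have hC : ∀ m, L m ≤ fd (sel m (L m)).1 y := fun m =>
    le_fd (fun h => hy (by rw [← h]; exact (hs4 m (L m)).1)) (hs2 m (L m))
  have hne : ∀ m, (sel m (L m)).2.1 ≠ z := fun m h => hz (by rw [← h]; exact (hs4 m (L m)).2)
  refine ⟨fun m => sel m (L m), fun n => (hs1 _ _).1 n rfl, fun n => (hs1 _ _).2 n rfl,
    fun m => ⟨cyl_anti y (hLm m) (hs2 _ _), cyl_anti z (hLm m) (hs3 _ _)⟩,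
    fun m => hs4 _ _, ?_, ?_⟩
  · have key : ∀ m m', m < m' → fd (sel m (L m)).1 y ≠ fd (sel m' (L m')).1 y := by
      intro m m' h
      have h1 := hA m
      have h2 := hC m'
      have h3 : L (m + 1) ≤ L m' := hmono.monotone h
      omega
    intro m m' h
    rcases lt_trichotomy m m' with h' | h' | h'
    · exact absurd h (key _ _ h')
    · exact h'
    · exact absurd h.symm (key _ _ h')
  · intro hzy m m' h
    subst hzy
    have hD : ∀ m, L m ≤ fd (sel m (L m)).2.1 z := fun m => le_fd (hne m) (hs3 m (L m))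
    rcases lt_trichotomy m m' with h' | h' | h'
    · exfalso
      have h1 := hA m
      have h2 := hD m'
      have h3 : L (m + 1) ≤ L m' := hmono.monotone h'
      dsimp only at h
      omega
    · exact h'
    · exfalso
      have h1 := hB m'
      have h2 := hC m
      have h3 : L (m' + 1) ≤ L m := hmono.monotone h'
      dsimp only at h
      omega

/-- transfinite choice -/
theorem wf_choice {α β : Type} (r : α → α → Prop) (wf : WellFounded r)
    (Rel : (i : α) → ((j : α) → r j i → β) → β → Prop)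
    (h : ∀ i f, ∃ b, Rel i f b) : ∃ pick : α → β, ∀ i, Rel i (fun j _ => pick j) (pick i) := by
  classical
  choose c hc using h
  refine ⟨wf.fix (fun i f => c i f), fun i => ?_⟩
  have := hc i (fun j _ => wf.fix (fun i f => c i f) j)
  rw [wf.fix_eq]
  exact this


abbrev Task : Type := {t : Sq × Sq // Elig t.1 t.2}

theorem mk_task_le : #Task ≤ continuum := by
  refine (mk_subtype_le _).trans ?_
  have h1 : #Om = continuum := by simp
  have h2 : #(Om × Pt) = continuum := by
    simp [Pt, Om]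
  have h3 : #Sq = continuum := by
    simp only [Sq]
    rw [← mk_congr (Equiv.curry ℕ ℕ (Om × Pt))]
    simp [Om]
  rw [mk_prod, h3]
  simp

/-- selection of handlers and partners -/
theorem exists_pick : ∃ (r : Task → Task → Prop) (_ : IsWellOrder Task r)
    (pick : Task → Om × Om), ∀ i : Task,
      ((∀ n l, ∃ k, (i.1.1 n k).1 ∈ cyl (pick i).1 l ∧ (i.1.1 n k).2.1 ∈ cyl (pick i).2 l) ∧
      (∀ n l, ∃ k, (i.1.2 n k).1 ∈ cyl (pick i).1 l ∧ (i.1.2 n k).2.1 ∈ cyl (pick i).2 l)) ∧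
      ((pick i).1 ∉ coords i.1.1 i.1.2 ∧ (pick i).2 ∉ coords i.1.1 i.1.2) ∧
      (∀ j, r j i → (pick i).1 ∉ coords j.1.1 j.1.2 ∧ (pick i).2 ∉ coords j.1.1 j.1.2 ∧
        (pick i).1 ≠ (pick j).1 ∧ (pick i).1 ≠ (pick j).2 ∧
        (pick i).2 ≠ (pick j).1 ∧ (pick i).2 ≠ (pick j).2) := by
  classical
  obtain ⟨r, wo, hr⟩ := Cardinal.exists_ord_eq Task
  refine ⟨r, wo, ?_⟩
  have hsmall : ∀ i, #{j // r j i} < continuum := by
    intro i
    refine lt_of_lt_of_le ?_ mk_task_le
    have := Cardinal.card_typein_lt i hr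
    rwa [Ordinal.card_typein] at this
  have := wf_choice (α := Task) (β := Om × Om) r wo.wf (fun i f b =>
      ((∀ n l, ∃ k, (i.1.1 n k).1 ∈ cyl b.1 l ∧ (i.1.1 n k).2.1 ∈ cyl b.2 l) ∧
      (∀ n l, ∃ k, (i.1.2 n k).1 ∈ cyl b.1 l ∧ (i.1.2 n k).2.1 ∈ cyl b.2 l)) ∧
      (b.1 ∉ coords i.1.1 i.1.2 ∧ b.2 ∉ coords i.1.1 i.1.2) ∧
      (∀ j (hj : r j i), b.1 ∉ coords j.1.1 j.1.2 ∧ b.2 ∉ coords j.1.1 j.1.2 ∧
        b.1 ≠ (f j hj).1 ∧ b.1 ≠ (f j hj).2 ∧
        b.2 ≠ (f j hj).1 ∧ b.2 ≠ (f j hj).2)) ?_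
  · exact this
  · intro i f
    let W : {j // r j i} → Set Om := fun j =>
      coords j.1.1.1 j.1.1.2 ∪ {(f j.1 j.2).1, (f j.1 j.2).2}
    have hW : ∀ j, (W j).Countable := fun j =>
      (coords_countable _ _).union (Set.toFinite _).countable
    let F : Set Om := coords i.1.1 i.1.2 ∪ ⋃ j, W j
    have hF : #F < continuum := by
      refine lt_of_le_of_lt (mk_union_le _ _) ?_
      refine add_lt_of_lt aleph0_le_continuum ?_ ?_
      · exact lt_of_le_of_lt (coords_countable _ _).le_aleph0 aleph0_lt_continuum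
      · refine lt_of_le_of_lt (mk_iUnion_le_sum_mk) ?_
        refine lt_of_le_of_lt (sum_le_sum _ (fun _ => ℵ₀) fun j => (hW j).le_aleph0) ?_
        rw [sum_const']
        exact mul_lt_of_lt aleph0_le_continuum (hsmall i) aleph0_lt_continuum
    obtain ⟨y, z, hy, hz, h1, h2⟩ := i.2 F hF
    refine ⟨(y, z), ⟨h1, h2⟩, ⟨fun h => hy (Or.inl h), fun h => hz (Or.inl h)⟩, ?_⟩
    intro j hj
    have hy' : y ∉ W ⟨j, hj⟩ := fun h => hy (Or.inr (mem_iUnion.2 ⟨_, h⟩))
    have hz' : z ∉ W ⟨j, hj⟩ := fun h => hz (Or.inr (mem_iUnion.2 ⟨_, h⟩))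
    exact ⟨fun h => hy' (Or.inl h), fun h => hz' (Or.inl h), fun h => hy' (Or.inr (Or.inl h)),
      fun h => hy' (Or.inr (Or.inr h)), fun h => hz' (Or.inr (Or.inl h)),
      fun h => hz' (Or.inr (Or.inr h))⟩


theorem exists_good : ∃ O : Om → Pt → Bool, Good O := by
  classical
  obtain ⟨r, wo, pick, hpick⟩ := exists_pick
  let y : Task → Om := fun i => (pick i).1
  let z : Task → Om := fun i => (pick i).2
  have hyne : ∀ i j, r j i → y i ≠ y j := fun i j h => ((hpick i).2.2 j h).2.2.1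
  have hinj : ∀ i j, y i = y j → i = j := by
    intro i j h
    rcases trichotomous_of r i j with h' | h' | h'
    · exact absurd h.symm (hyne _ _ h')
    · exact h'
    · exact absurd h (hyne _ _ h')
  have hzy : ∀ i j, i ≠ j → z i ≠ y j := by
    intro i j h
    rcases trichotomous_of r i j with h' | h' | h'
    · exact fun h2 => ((hpick j).2.2 i h').2.2.2.1 h2.symm
    · exact absurd h' h
    · exact ((hpick i).2.2 j h').2.2.2.2.1
  have hco : ∀ i j, y j ∈ coords i.1.1 i.1.2 → r j i := by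
    intro i j h
    rcases trichotomous_of r i j with h' | h' | h'
    · exact absurd h ((hpick j).2.2 i h').1
    · subst h'
      exact absurd h (hpick i).2.1.1
    · exact h'
  have hseq := fun i : Task => exists_seq i.1.1 i.1.2 (y i) (z i) (hpick i).2.1.1 (hpick i).2.1.2
    (hpick i).1.1 (hpick i).1.2
  choose e he1 he2 he3 he4 he5 he6 using hseq
  let R : Om → Om → Prop := fun a b => ∃ i, y i = b ∧ a ∈ coords i.1.1 i.1.2
  have hRwf : WellFounded R := by
    have h1 : ∀ i, Acc R (y i) := by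
      intro i
      induction i using wo.wf.induction with
      | _ i ih =>
        refine Acc.intro _ fun a ha => ?_
        obtain ⟨i', hi', ha'⟩ := ha
        have := hinj _ _ hi'
        subst this
        by_cases hh : ∃ j, y j = a
        · obtain ⟨j, rfl⟩ := hh
          exact ih j (hco _ _ ha')
        · refine Acc.intro _ fun b hb => ?_
          obtain ⟨j, hj, _⟩ := hb
          exact absurd ⟨j, hj⟩ hh
    refine ⟨fun a => ?_⟩
    by_cases hh : ∃ j, y j = a
    · obtain ⟨j, rfl⟩ := hh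
      exact h1 j
    · refine Acc.intro _ fun b hb => ?_
      obtain ⟨j, hj, _⟩ := hb
      exact absurd ⟨j, hj⟩ hh
  let G : Om → ℕ → Option (Om × Pt) := fun b d =>
    if h : ∃ p : Task × ℕ, y p.1 = b ∧ fd (e p.1 p.2).1 b = d then
      some (e (Classical.choose h).1 (Classical.choose h).2) else none
  have hG1 : ∀ b d f, G b d = some f → ∃ i m, y i = b ∧ fd (e i m).1 b = d ∧ f = e i m := by
    intro b d f h
    by_cases hh : ∃ p : Task × ℕ, y p.1 = b ∧ fd (e p.1 p.2).1 b = d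
    · simp only [G, dif_pos hh, Option.some.injEq] at h
      exact ⟨_, _, (Classical.choose_spec hh).1, (Classical.choose_spec hh).2, h.symm⟩
    · simp only [G, dif_neg hh] at h
      cases h
  have hG2 : ∀ i m, G (y i) (fd (e i m).1 (y i)) = some (e i m) := by
    intro i m
    have hh : ∃ p : Task × ℕ, y p.1 = y i ∧ fd (e p.1 p.2).1 (y i) = fd (e i m).1 (y i) :=
      ⟨(i, m), rfl, rfl⟩
    simp only [G, dif_pos hh, Option.some.injEq]
    have h1 := (Classical.choose_spec hh).1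
    have h2 := (Classical.choose_spec hh).2
    have h3 : (Classical.choose hh).1 = i := hinj _ _ h1
    generalize Classical.choose hh = p at h1 h2 h3
    obtain ⟨i', m'⟩ := p
    dsimp at h3 h2 ⊢
    subst h3
    rw [he5 _ _ _ h2]
  have hGR : ∀ b d f, G b d = some f → R f.1 b := by
    intro b d f h
    obtain ⟨i, m, h1, h2, h3⟩ := hG1 b d f h
    refine ⟨i, h1, ?_⟩
    rw [h3]
    exact (he4 i m).1
  obtain ⟨O, hO1, hO2, hO3⟩ := exists_O R hRwf G hGR
  refine ⟨O, fun x => by rw [hO1]; rfl, fun x => by rw [hO1]; rfl,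
    O_h2 R hRwf G hGR O hO2 hO3, O_h3 R hRwf G hGR O hO2 hO3, ?_⟩
  intro P Q hPQ
  let i : Task := ⟨(P, Q), hPQ⟩
  have hane : ∀ m, (e i m).1 ≠ y i := fun m h => (hpick i).2.1.1 (by
    have := (he4 i m).1
    rw [h] at this
    exact this)
  have hcne : ∀ m, (e i m).2.1 ≠ z i := fun m h => (hpick i).2.1.2 (by
    have := (he4 i m).2
    rw [h] at this
    exact this)
  have key1 : ∀ m, O (y i) ((e i m).1, false) ≠ O (y i) ((e i m).1, true) := by
    intro m
    rw [hO3 (y i) _ false _ (hane m) (hG2 i m), hO3 (y i) _ true _ (hane m) (hG2 i m), hO1, hO1]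
    cases O (e i m).1 (e i m).2 <;> simp
  have key2 : ∀ m, O (z i) (e i m).2 = false := by
    intro m
    have hc := hcne m
    by_cases hzy' : z i = y i
    · rw [hzy'] at hc ⊢
      cases hh : G (y i) (fd (e i m).2.1 (y i)) with
      | none => exact hO2 (y i) (e i m).2.1 (e i m).2.2 hc hh
      | some f =>
        obtain ⟨i', m', h1, h2, h3⟩ := hG1 _ _ _ hh
        have h4 := hinj _ _ h1
        subst h4
        have h5 : m' = m := he6 _ hzy' _ _ h2
        subst h5
        have := hO3 (y i) (e i m').2.1 (e i m').2.2 f hc hh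
        rw [show ((e i m').2.1, (e i m').2.2) = (e i m').2 from rfl] at this
        rw [this, h3]
        simp
    · cases hh : G (z i) (fd (e i m).2.1 (z i)) with
      | none => exact hO2 (z i) (e i m).2.1 (e i m).2.2 hc hh
      | some f =>
        exfalso
        obtain ⟨i', m', h1, h2, h3⟩ := hG1 _ _ _ hh
        by_cases hii : i = i'
        · subst hii
          exact hzy' h1.symm
        · exact hzy i i' hii h1.symm
  refine ⟨y i, z i, ?_, ?_⟩
  · intro l
    refine ⟨l, fun n hn => ?_⟩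
    obtain ⟨k, hk⟩ := he1 i n
    refine ⟨k, ?_⟩
    have hk' : e i (2 * n) = P n k := hk
    rw [← hk']
    exact ⟨cyl_anti _ (by omega) (he3 i (2 * n)).1, key1 _,
      cyl_anti _ (by omega) (he3 i (2 * n)).2, key2 _⟩
  · intro l
    refine ⟨l, fun n hn => ?_⟩
    obtain ⟨k, hk⟩ := he2 i n
    refine ⟨k, ?_⟩
    have hk' : e i (2 * n + 1) = Q n k := hk
    rw [← hk']
    exact ⟨cyl_anti _ (by omega) (he3 i (2 * n + 1)).1, key1 _,
      cyl_anti _ (by omega) (he3 i (2 * n + 1)).2, key2 _⟩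


/-! ### cylinders and the topology of `Om` -/

theorem isOpen_cyl (x : Om) (n : ℕ) : IsOpen (cyl x n) := by
  have : cyl x n = ⋂ i ∈ Finset.range n, (fun y : Om => y i) ⁻¹' {x i} := by
    ext y
    simp [cyl]
  rw [this]
  exact isOpen_biInter_finset fun i _ => (isOpen_discrete _).preimage (continuous_apply i)

theorem isClosed_cyl (x : Om) (n : ℕ) : IsClosed (cyl x n) := by
  have : cyl x n = ⋂ i, ⋂ _ : i < n, (fun y : Om => y i) ⁻¹' {x i} := by
    ext y
    simp [cyl]
  rw [this]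
  exact isClosed_iInter fun i => isClosed_iInter fun _ =>
    (isClosed_discrete _).preimage (continuous_apply i)

theorem basis_aux {β : Type} (S : ℕ → Set β) (anti : ∀ m n, m ≤ n → S n ⊆ S m) (F : Filter β)
    (h1 : ∀ n, S n ∈ F) (h2 : (⨅ n, 𝓟 (S n)) ≤ F) : F.HasBasis (fun _ : ℕ => True) S := by
  have hb : (⨅ n, 𝓟 (S n)).HasBasis (fun _ : ℕ => True) S :=
    Filter.hasBasis_iInf_principal (directed_of_isDirected_le (fun _ _ h => anti _ _ h))
  have : F = ⨅ n, 𝓟 (S n) :=
    le_antisymm (le_iInf fun n => le_principal_iff.2 (h1 n)) h2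
  rw [this]
  exact hb

theorem ev_aux {β : Type} (S : ℕ → Set β) (p : β → Prop) (n : ℕ) (h : ∀ x ∈ S n, p x) :
    ∀ᶠ x in ⨅ n, 𝓟 (S n), p x :=
  Filter.mem_of_superset (mem_iInf_of_mem n (mem_principal_self _)) h

theorem nhds_cyl (x : Om) : (𝓝 x).HasBasis (fun _ : ℕ => True) (cyl x) := by
  refine basis_aux _ (fun m n h => cyl_anti x h) _
    (fun n => (isOpen_cyl x n).mem_nhds (self_mem_cyl x n)) ?_
  have : Tendsto id (⨅ n, 𝓟 (cyl x n)) (𝓝 x) := by
    rw [tendsto_pi_nhds]
    intro i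
    rw [nhds_discrete, tendsto_pure]
    exact ev_aux _ _ (i + 1) fun w hw => hw i (Nat.lt_succ_self i)
  exact this

/-! ### the spaces -/

/-- the space `Y` -/
@[ext] structure YS (O : Om → Pt → Bool) : Type where
  pt : Om

/-- the space `C` -/
@[ext] structure CS (O : Om → Pt → Bool) : Type where
  pt : Pt

/-- split indicator -/
def sp (O : Om → Pt → Bool) (x w : Om) : Bool := xor (O x (w, false)) (O x (w, true))

def embY (O : Om → Pt → Bool) (y : YS O) : Om × (Om → Bool) := (y.pt, fun x => sp O x y.pt)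

def embC (O : Om → Pt → Bool) (c : CS O) : Om × (Om → Bool) := (c.pt.1, fun x => O x c.pt)

instance (O : Om → Pt → Bool) : TopologicalSpace (YS O) :=
  TopologicalSpace.induced (embY O) inferInstance

instance (O : Om → Pt → Bool) : TopologicalSpace (CS O) :=
  TopologicalSpace.induced (embC O) inferInstance

variable {O : Om → Pt → Bool}

theorem sp_iff (x w : Om) : sp O x w = true ↔ O x (w, false) ≠ O x (w, true) := by
  unfold sp
  cases O x (w, false) <;> cases O x (w, true) <;> simp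

theorem sp_self (hO : Good O) (x : Om) : sp O x x = true := by
  unfold sp
  rw [hO.h0, hO.h1]
  rfl

theorem sp_loc (hO : Good O) (x w : Om) : ∃ n, ∃ b : Bool, ∀ w' ∈ cyl w n,
    sp O x w' = (b && sp O w w') := by
  obtain ⟨n, a, b, h⟩ := hO.h2 x w
  refine ⟨n, b, fun w' hw' => ?_⟩
  unfold sp
  rw [h w' hw', h w' hw']
  cases a <;> cases b <;> cases O w (w', false) <;> cases O w (w', true) <;> rfl

/-- embedding continuous -/
theorem continuous_embY : Continuous (embY O) := continuous_induced_dom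
theorem continuous_embC : Continuous (embC O) := continuous_induced_dom

/-- the projection `C → Om` -/
def rho (c : CS O) : Om := c.pt.1

theorem continuous_toOm : Continuous (YS.pt : YS O → Om) :=
  continuous_fst.comp continuous_embY

theorem continuous_rho : Continuous (rho : CS O → Om) := show Continuous (fun c : CS O => (embC O c).1) from
  continuous_fst.comp continuous_embC

theorem continuous_sp (x : Om) : Continuous (fun y : YS O => sp O x y.pt) :=
  (continuous_apply x).comp (continuous_snd.comp continuous_embY)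

theorem continuous_O (x : Om) : Continuous (fun c : CS O => O x c.pt) :=
  (continuous_apply x).comp (continuous_snd.comp continuous_embC)

/-- basic neighbourhoods in `Y` -/
def BY (O : Om → Pt → Bool) (y : YS O) (l : ℕ) : Set (YS O) :=
  {w | w.pt ∈ cyl y.pt l ∧ sp O y.pt w.pt = true}

def BC (O : Om → Pt → Bool) (c : CS O) (l : ℕ) : Set (CS O) :=
  {w | rho w ∈ cyl (rho c) l ∧ O (rho c) w.pt = O (rho c) c.pt}

theorem isOpen_BY (y : YS O) (l : ℕ) : IsOpen (BY O y l) :=
  ((isOpen_cyl _ _).preimage continuous_toOm).inter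
    ((isOpen_discrete {true}).preimage (continuous_sp y.pt))

theorem isClosed_BY (y : YS O) (l : ℕ) : IsClosed (BY O y l) :=
  ((isClosed_cyl _ _).preimage continuous_toOm).inter
    ((isClosed_discrete {true}).preimage (continuous_sp y.pt))

theorem isOpen_BC (c : CS O) (l : ℕ) : IsOpen (BC O c l) :=
  ((isOpen_cyl _ _).preimage continuous_rho).inter
    ((isOpen_discrete {O (rho c) c.pt}).preimage (continuous_O (rho c)))

theorem self_mem_BY (hO : Good O) (y : YS O) (l : ℕ) : y ∈ BY O y l :=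
  ⟨self_mem_cyl _ _, sp_self hO _⟩

theorem self_mem_BC (c : CS O) (l : ℕ) : c ∈ BC O c l :=
  ⟨self_mem_cyl _ _, rfl⟩

theorem nhds_Y (hO : Good O) (y : YS O) : (𝓝 y).HasBasis (fun _ : ℕ => True) (BY O y) := by
  refine basis_aux (BY O y) (fun m n h w hw => ⟨cyl_anti _ h hw.1, hw.2⟩) _
    (fun n => (isOpen_BY y n).mem_nhds (self_mem_BY hO y n)) ?_
  have : Tendsto (embY O) (⨅ n, 𝓟 (BY O y n)) (𝓝 (embY O y)) := by
    rw [show embY O y = ((embY O y).1, (embY O y).2) from rfl, nhds_prod_eq]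
    have h1 : Tendsto (fun w : YS O => (embY O w).1) (⨅ n, 𝓟 (BY O y n))
        (𝓝 ((embY O y).1)) := by
      rw [tendsto_pi_nhds]
      intro i
      rw [nhds_discrete, tendsto_pure]
      exact ev_aux _ _ (i + 1) fun w hw => hw.1 i (Nat.lt_succ_self i)
    have h2 : Tendsto (fun w : YS O => (embY O w).2) (⨅ n, 𝓟 (BY O y n))
        (𝓝 ((embY O y).2)) := by
      rw [tendsto_pi_nhds]
      intro x
      rw [nhds_discrete, tendsto_pure]
      obtain ⟨n, b, h⟩ := sp_loc hO x y.pt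
      refine ev_aux _ _ n fun w hw => ?_
      change sp O x w.pt = sp O x y.pt
      rw [h _ hw.1, h _ (self_mem_cyl _ _), hw.2, sp_self hO]
    exact Tendsto.prodMk h1 h2
  rw [nhds_induced]
  exact this.le_comap

theorem nhds_C (hO : Good O) (c : CS O) : (𝓝 c).HasBasis (fun _ : ℕ => True) (BC O c) := by
  refine basis_aux (BC O c) (fun m n h w hw => ⟨cyl_anti _ h hw.1, hw.2⟩) _
    (fun n => (isOpen_BC c n).mem_nhds (self_mem_BC c n)) ?_
  have : Tendsto (embC O) (⨅ n, 𝓟 (BC O c n)) (𝓝 (embC O c)) := by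
    rw [show embC O c = ((embC O c).1, (embC O c).2) from rfl, nhds_prod_eq]
    have h1 : Tendsto (fun w : CS O => (embC O w).1) (⨅ n, 𝓟 (BC O c n))
        (𝓝 ((embC O c).1)) := by
      rw [tendsto_pi_nhds]
      intro i
      rw [nhds_discrete, tendsto_pure]
      exact ev_aux _ _ (i + 1) fun w hw => hw.1 i (Nat.lt_succ_self i)
    have h2 : Tendsto (fun w : CS O => (embC O w).2) (⨅ n, 𝓟 (BC O c n))
        (𝓝 ((embC O c).2)) := by
      rw [tendsto_pi_nhds]
      intro x
      rw [nhds_discrete, tendsto_pure]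
      obtain ⟨n, a, b, h⟩ := hO.h2 x (rho c)
      refine ev_aux _ _ n fun w hw => ?_
      change O x w.pt = O x c.pt
      have h1 := h (rho w) hw.1 w.pt.2
      have h2 := h (rho c) (self_mem_cyl _ _) c.pt.2
      have h3 : ((rho w, w.pt.2) : Pt) = w.pt := rfl
      have h4 : ((rho c, c.pt.2) : Pt) = c.pt := rfl
      rw [h3] at h1
      rw [h4] at h2
      rw [h1, h2]
      have h5 : O (rho c) w.pt = O (rho c) c.pt := hw.2
      rw [h5]
    exact Tendsto.prodMk h1 h2
  rw [nhds_induced]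
  exact this.le_comap

instance : T2Space (YS O) := by
  refine T2Space.of_injective_continuous (f := embY O) ?_ continuous_embY
  intro a b h
  exact YS.ext (congrArg Prod.fst h)

theorem t2_C (hO : Good O) : T2Space (CS O) := by
  refine T2Space.of_injective_continuous (f := embC O) ?_ continuous_embC
  rintro ⟨x, i⟩ ⟨x', i'⟩ h
  have h1 : x = x' := congrArg Prod.fst h
  subst h1
  have h2 : O x (x, i) = O x (x, i') := congrFun (congrArg Prod.snd h) x
  have h3 := hO.h0 x
  have h4 := hO.h1 x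
  cases i <;> cases i'
  · rfl
  · rw [h3, h4] at h2
    cases h2
  · rw [h3, h4] at h2
    cases h2
  · rfl

theorem compact_C (hO : Good O) : CompactSpace (CS O) := by
  refine ⟨isCompact_iff_ultrafilter_le_nhds.2 fun U _ => ?_⟩
  obtain ⟨z, -, hz⟩ := isCompact_iff_ultrafilter_le_nhds.1 (isCompact_univ (X := Om))
    (U.map rho) (by simp)
  have h1 : ∀ l, {w : CS O | rho w ∈ cyl z l} ∈ (U : Filter (CS O)) := fun l =>
    hz ((nhds_cyl z).mem_of_mem (i := l) trivial)
  rcases Ultrafilter.em U (fun w : CS O => O z w.pt = true) with h | h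
  · refine ⟨⟨(z, false)⟩, trivial, ?_⟩
    rw [(nhds_C hO _).ge_iff]
    intro l _
    filter_upwards [h1 l, h] with w hw hw'
    refine ⟨hw, ?_⟩
    change O z w.pt = O z (z, false)
    rw [hw', hO.h0]
  · refine ⟨⟨(z, true)⟩, trivial, ?_⟩
    rw [(nhds_C hO _).ge_iff]
    intro l _
    filter_upwards [h1 l, h] with w hw hw'
    refine ⟨hw, ?_⟩
    change O z w.pt = O z (z, true)
    rw [hO.h1]
    simpa using hw'

theorem compact_N (hO : Good O) (x : Om) : IsCompact {w : YS O | sp O x w.pt = true} := by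
  refine isCompact_iff_ultrafilter_le_nhds.2 fun U hU => ?_
  have hU' : {w : YS O | sp O x w.pt = true} ∈ (U : Filter (YS O)) := by simpa using hU
  obtain ⟨z, -, hz⟩ := isCompact_iff_ultrafilter_le_nhds.1 (isCompact_univ (X := Om))
    (U.map YS.pt) (by simp)
  have h1 : ∀ l, {w : YS O | w.pt ∈ cyl z l} ∈ (U : Filter (YS O)) := fun l =>
    hz ((nhds_cyl z).mem_of_mem (i := l) trivial)
  obtain ⟨n, b, hb⟩ := sp_loc hO x z
  have hb1 : b = true := by
    obtain ⟨w, hw1, hw2⟩ := U.nonempty_of_mem (inter_mem hU' (h1 n))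
    have := hb _ hw2
    rw [show sp O x w.pt = true from hw1] at this
    cases b
    · simp at this
    · rfl
  subst hb1
  refine ⟨⟨z⟩, ?_, ?_⟩
  · change sp O x z = true
    rw [hb z (self_mem_cyl _ _), sp_self hO]
    rfl
  · rw [(nhds_Y hO _).ge_iff]
    intro l _
    filter_upwards [h1 l, h1 n, hU'] with w hw hw' hw''
    refine ⟨hw, ?_⟩
    change sp O z w.pt = true
    have := hb _ hw'
    rw [hw''] at this
    simpa using this.symm


/-! ### the key closure property -/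

def jj (p : YS O × CS O) : Om × CS O := (p.1.pt, p.2)

theorem continuous_jj : Continuous (jj : YS O × CS O → Om × CS O) :=
  (continuous_toOm.comp continuous_fst).prodMk continuous_snd

theorem BC_anti (c : CS O) {m n : ℕ} (h : m ≤ n) : BC O c n ⊆ BC O c m :=
  fun _ hw => ⟨cyl_anti _ h hw.1, hw.2⟩

theorem BY_anti (y : YS O) {m n : ℕ} (h : m ≤ n) : BY O y n ⊆ BY O y m :=
  fun _ hw => ⟨cyl_anti _ h hw.1, hw.2⟩

theorem closE (hO : Good O) (A : Set (YS O × CS O)) (y : Om) (c : CS O) :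
    (y, c) ∈ closure (jj '' A) ↔ ∀ l, ∃ p ∈ A, p.1.pt ∈ cyl y l ∧ p.2 ∈ BC O c l := by
  rw [mem_closure_iff_nhds_basis ((nhds_cyl y).prod_nhds (nhds_C hO c))]
  constructor
  · intro h l
    obtain ⟨q, ⟨p, hp, rfl⟩, hq⟩ := h (l, l) ⟨trivial, trivial⟩
    exact ⟨p, hp, hq.1, hq.2⟩
  · rintro h ⟨l, l'⟩ -
    obtain ⟨p, hp, h1, h2⟩ := h (max l l')
    exact ⟨jj p, ⟨p, hp, rfl⟩, cyl_anti _ (le_max_left _ _) h1, BC_anti _ (le_max_right _ _) h2⟩

theorem closYC (hO : Good O) (A : Set (YS O × CS O)) (y : YS O) (c : CS O) :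
    (y, c) ∈ closure A ↔ ∀ l, ∃ p ∈ A, p.1 ∈ BY O y l ∧ p.2 ∈ BC O c l := by
  rw [mem_closure_iff_nhds_basis ((nhds_Y hO y).prod_nhds (nhds_C hO c))]
  constructor
  · intro h l
    obtain ⟨p, hp, hq⟩ := h (l, l) ⟨trivial, trivial⟩
    exact ⟨p, hp, hq.1, hq.2⟩
  · rintro h ⟨l, l'⟩ -
    obtain ⟨p, hp, h1, h2⟩ := h (max l l')
    exact ⟨p, hp, BY_anti _ (le_max_left _ _) h1, BC_anti _ (le_max_right _ _) h2⟩

def NN (A B : Set (YS O × CS O)) : Set Om :=
  {y | ∃ c : CS O, (y, c) ∈ closure (jj '' A) ∧ (y, c) ∈ closure (jj '' B)}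

theorem isClosed_NN (hO : Good O) (A B : Set (YS O × CS O)) : IsClosed (NN A B) := by
  have := compact_C hO
  have : NN A B = Prod.fst '' (closure (jj '' A) ∩ closure (jj '' B)) := by
    ext y
    constructor
    · rintro ⟨c, h⟩
      exact ⟨(y, c), h, rfl⟩
    · rintro ⟨⟨y', c⟩, h, rfl⟩
      exact ⟨c, h⟩
  rw [this]
  exact isClosedMap_fst_of_compactSpace _ (isClosed_closure.inter isClosed_closure)

/-- an uncountable closed set is not contained in a small set -/
theorem big (N : Set Om) (hN : IsClosed N) (hu : ¬ N.Countable) (F : Set Om)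
    (hF : #F < continuum) : ∃ y ∈ N, y ∉ F := by
  by_contra hcon
  push Not at hcon
  have hpol : PolishSpace Om := by
    let _ := TopologicalSpace.metrizableSpaceMetric Om
    infer_instance
  obtain ⟨f, hf, -, hinj⟩ := hN.exists_nat_bool_injection_of_not_countable hu
  have h1 : #Om ≤ #F := by
    refine mk_le_of_injective (f := fun x : Om => (⟨f x, hcon _ (hf ⟨x, rfl⟩)⟩ : F)) ?_
    intro a b h
    exact hinj (congrArg Subtype.val h)
  have h2 : #Om = continuum := by simp
  rw [h2] at h1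
  exact absurd h1 (not_le.2 hF)

/-- dense sequences -/
theorem dense_aux {T : Type} (S : Set T) (hS : S.Nonempty) (f : T → Om) (g : T → Om) :
    ∃ u : ℕ → T, (∀ k, u k ∈ S) ∧
      ∀ s ∈ S, ∀ l, ∃ k, f (u k) ∈ cyl (f s) l ∧ g (u k) ∈ cyl (g s) l := by
  classical
  let h : T → Om × Om := fun t => (f t, g t)
  have : Nonempty (h '' S) := (hS.image h).to_subtype
  obtain ⟨v, hv⟩ := TopologicalSpace.exists_dense_seq (h '' S)
  have hv' : ∀ k, ∃ t ∈ S, h t = (v k : Om × Om) := fun k => (v k).2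
  choose u hu1 hu2 using hv'
  refine ⟨u, hu1, fun s hs l => ?_⟩
  let p : h '' S := ⟨h s, mem_image_of_mem h hs⟩
  have hU : IsOpen (Subtype.val ⁻¹' (cyl (f s) l ×ˢ cyl (g s) l) : Set (h '' S)) :=
    ((isOpen_cyl _ _).prod (isOpen_cyl _ _)).preimage continuous_subtype_val
  obtain ⟨k, hk⟩ := hv.exists_mem_open hU ⟨p, ⟨self_mem_cyl _ _, self_mem_cyl _ _⟩⟩
  refine ⟨k, ?_⟩
  have hk' : ((v k : Om × Om)) ∈ cyl (f s) l ×ˢ cyl (g s) l := hk
  rw [← hu2 k] at hk'
  exact ⟨hk'.1, hk'.2⟩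

theorem cyl_trans {x y : Om} {l : ℕ} {w : Om} (h : x ∈ cyl y l) (h' : w ∈ cyl x l) :
    w ∈ cyl y l := fun i hi => (h' i hi).trans (h i hi)

theorem star (hO : Good O) (A B : Set (YS O × CS O)) (hA : IsClosed A) (hB : IsClosed B)
    (hd : Disjoint A B) : (NN A B).Countable := by
  by_contra hu
  have hNc := isClosed_NN hO A B
  have hmemA : ∀ y c, (y, c) ∈ closure A → (y, c) ∈ A := fun y c h => hA.closure_eq ▸ h
  have hmemB : ∀ y c, (y, c) ∈ closure B → (y, c) ∈ B := fun y c h => hB.closure_eq ▸ h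
  obtain ⟨y0, ⟨c0, hy0A, hy0B⟩, -⟩ := big _ hNc hu ∅ (by
    rw [mk_eq_zero]
    exact lt_of_lt_of_le aleph0_pos aleph0_le_continuum)
  have hAne : A.Nonempty := by
    obtain ⟨p, hp, -⟩ := (closE hO A y0 c0).1 hy0A 0
    exact ⟨p, hp⟩
  have hBne : B.Nonempty := by
    obtain ⟨p, hp, -⟩ := (closE hO B y0 c0).1 hy0B 0
    exact ⟨p, hp⟩
  obtain ⟨u, hu1, hu2⟩ := dense_aux A hAne (fun p => p.1.pt) (fun p => rho p.2)
  obtain ⟨v, hv1, hv2⟩ := dense_aux B hBne (fun p => p.1.pt) (fun p => rho p.2)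
  by_cases hE : Elig (fun _ k => ((u k).1.pt, (u k).2.pt)) (fun _ k => ((v k).1.pt, (v k).2.pt))
  · -- Case I
    obtain ⟨y, z, h1, h2⟩ := hO.hG _ _ hE
    have hzt : O z (z, true) = false := hO.h1 z
    have hA' : ((⟨y⟩, ⟨(z, true)⟩) : YS O × CS O) ∈ A := by
      apply hmemA
      rw [closYC hO]
      intro l
      obtain ⟨n0, hn0⟩ := h1 l
      obtain ⟨k, hk1, hk2, hk3, hk4⟩ := hn0 n0 le_rfl
      refine ⟨u k, hu1 k, ⟨hk1, (sp_iff _ _).2 hk2⟩, ⟨hk3, ?_⟩⟩
      change O z (u k).2.pt = O z (z, true)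
      rw [hzt]
      exact hk4
    have hB' : ((⟨y⟩, ⟨(z, true)⟩) : YS O × CS O) ∈ B := by
      apply hmemB
      rw [closYC hO]
      intro l
      obtain ⟨n0, hn0⟩ := h2 l
      obtain ⟨k, hk1, hk2, hk3, hk4⟩ := hn0 n0 le_rfl
      refine ⟨v k, hv1 k, ⟨hk1, (sp_iff _ _).2 hk2⟩, ⟨hk3, ?_⟩⟩
      change O z (v k).2.pt = O z (z, true)
      rw [hzt]
      exact hk4
    exact Set.disjoint_left.1 hd hA' hB'
  · -- Case II
    unfold Elig at hE
    push Not at hE
    obtain ⟨F, hF, hE⟩ := hE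
    have hclA : ∀ y c, (y, c) ∈ closure (jj '' A) → ∀ l : ℕ, ∃ k, (u k).1.pt ∈ cyl y l ∧
        (u k).2.pt.1 ∈ cyl (rho c) l := by
      intro y c h l
      obtain ⟨p, hp, hp1, hp2⟩ := (closE hO A y c).1 h l
      obtain ⟨k, hk1, hk2⟩ := hu2 p hp l
      exact ⟨k, cyl_trans hp1 hk1, cyl_trans hp2.1 hk2⟩
    have hclB : ∀ y c, (y, c) ∈ closure (jj '' B) → ∀ l : ℕ, ∃ k, (v k).1.pt ∈ cyl y l ∧
        (v k).2.pt.1 ∈ cyl (rho c) l := by
      intro y c h l
      obtain ⟨p, hp, hp1, hp2⟩ := (closE hO B y c).1 h l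
      obtain ⟨k, hk1, hk2⟩ := hv2 p hp l
      exact ⟨k, cyl_trans hp1 hk1, cyl_trans hp2.1 hk2⟩
    let Nc : CS O → Set Om := fun c => {y | (y, c) ∈ closure (jj '' A) ∧ (y, c) ∈ closure (jj '' B)}
    have hNcc : ∀ c, IsClosed (Nc c) := by
      intro c
      exact ((isClosed_closure (s := jj '' A)).inter (isClosed_closure (s := jj '' B))).preimage
        (Continuous.prodMk_left c)
    obtain ⟨c, hc⟩ : ∃ c, ¬ (Nc c).Countable := by
      by_contra hcon
      push Not at hcon
      let F' : Set Om := F ∪ ⋃ q : F × Bool, Nc ⟨(q.1.1, q.2)⟩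
      have hF' : #F' < continuum := by
        refine lt_of_le_of_lt (mk_union_le _ _) ?_
        refine add_lt_of_lt aleph0_le_continuum hF ?_
        refine lt_of_le_of_lt (mk_iUnion_le_sum_mk) ?_
        refine lt_of_le_of_lt (sum_le_sum _ (fun _ => ℵ₀) fun j => (hcon _).le_aleph0) ?_
        rw [sum_const']
        refine mul_lt_of_lt aleph0_le_continuum ?_ aleph0_lt_continuum
        rw [mk_prod, lift_id, lift_id]
        refine mul_lt_of_lt aleph0_le_continuum hF ?_
        rw [mk_bool]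
        exact_mod_cast (natCast_lt_aleph0 (n := 2)).trans aleph0_lt_continuum
      obtain ⟨y, ⟨c, hyA, hyB⟩, hyF⟩ := big _ hNc hu F' hF'
      have hy : y ∉ F := fun h => hyF (Or.inl h)
      by_cases hz : rho c ∈ F
      · apply hyF
        right
        refine mem_iUnion.2 ⟨(⟨rho c, hz⟩, c.pt.2), ?_⟩
        exact ⟨hyA, hyB⟩
      · obtain ⟨n, l, hh⟩ := hE y (rho c) hy hz (fun n l => hclA y c hyA l)
        obtain ⟨k, hk1, hk2⟩ := hclB y c hyB l
        exact hh k hk1 hk2
    -- tasks of type 2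
    have hne : (Nc c).Nonempty := by
      by_contra h
      rw [Set.not_nonempty_iff_eq_empty] at h
      exact hc (by rw [h]; exact countable_empty)
    obtain ⟨y1, hy1A, hy1B⟩ := hne
    let S : ℕ → Set (YS O × CS O) := fun n => {p | p ∈ A ∧ p.2 ∈ BC O c n}
    let T : ℕ → Set (YS O × CS O) := fun n => {p | p ∈ B ∧ p.2 ∈ BC O c n}
    have hS : ∀ n, (S n).Nonempty := fun n => by
      obtain ⟨p, hp, hp1, hp2⟩ := (closE hO A y1 c).1 hy1A n
      exact ⟨p, hp, hp2⟩
    have hT : ∀ n, (T n).Nonempty := fun n => by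
      obtain ⟨p, hp, hp1, hp2⟩ := (closE hO B y1 c).1 hy1B n
      exact ⟨p, hp, hp2⟩
    choose s hs1 hs2 using fun n => dense_aux (S n) (hS n) (fun p => p.1.pt) (fun p => p.1.pt)
    choose t ht1 ht2 using fun n => dense_aux (T n) (hT n) (fun p => p.1.pt) (fun p => p.1.pt)
    have hel : Elig (fun n k => ((s n k).1.pt, ((s n k).1.pt, false)))
        (fun n k => ((t n k).1.pt, ((t n k).1.pt, false))) := by
      intro F hF
      obtain ⟨y, ⟨hyA, hyB⟩, hyF⟩ := big _ (hNcc c) hc F hF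
      refine ⟨y, y, hyF, hyF, fun n l => ?_, fun n l => ?_⟩
      · obtain ⟨p, hp, hp1, hp2⟩ := (closE hO A y c).1 hyA (max n l)
        obtain ⟨k, hk1, hk2⟩ := hs2 n p ⟨hp, BC_anti _ (le_max_left _ _) hp2⟩ l
        have := cyl_trans (cyl_anti _ (le_max_right _ _) hp1) hk1
        exact ⟨k, this, this⟩
      · obtain ⟨p, hp, hp1, hp2⟩ := (closE hO B y c).1 hyB (max n l)
        obtain ⟨k, hk1, hk2⟩ := ht2 n p ⟨hp, BC_anti _ (le_max_left _ _) hp2⟩ l
        have := cyl_trans (cyl_anti _ (le_max_right _ _) hp1) hk1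
        exact ⟨k, this, this⟩
    obtain ⟨y, z, h1, h2⟩ := hO.hG _ _ hel
    have hA' : ((⟨y⟩, c) : YS O × CS O) ∈ A := by
      apply hmemA
      rw [closYC hO]
      intro l
      obtain ⟨n0, hn0⟩ := h1 l
      obtain ⟨k, hk1, hk2, -, -⟩ := hn0 (max n0 l) (le_max_left _ _)
      exact ⟨s (max n0 l) k, (hs1 _ k).1, ⟨hk1, (sp_iff _ _).2 hk2⟩,
        BC_anti _ (le_max_right _ _) (hs1 _ k).2⟩
    have hB' : ((⟨y⟩, c) : YS O × CS O) ∈ B := by
      apply hmemB
      rw [closYC hO]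
      intro l
      obtain ⟨n0, hn0⟩ := h2 l
      obtain ⟨k, hk1, hk2, -, -⟩ := hn0 (max n0 l) (le_max_left _ _)
      exact ⟨t (max n0 l) k, (ht1 _ k).1, ⟨hk1, (sp_iff _ _).2 hk2⟩,
        BC_anti _ (le_max_right _ _) (ht1 _ k).2⟩
    exact Set.disjoint_left.1 hd hA' hB'


/-! ### normality of `Y × C` -/

theorem piece {Z : Type} [TopologicalSpace Z] (A B G U V : Set Z) (hG : IsClopen G)
    (hU : IsOpen U) (hV : IsOpen V) (hUV : Disjoint U V) (hA : A ∩ G ⊆ U) (hB : B ∩ G ⊆ V) :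
    ∃ W, IsOpen W ∧ A ∩ G ⊆ W ∧ Disjoint (closure W) B := by
  refine ⟨U ∩ G, hU.inter hG.isOpen, fun p hp => ⟨hA hp, hp.2⟩, ?_⟩
  rw [Set.disjoint_left]
  intro p hp hpB
  have h1 : p ∈ G := by
    have : closure (U ∩ G) ⊆ G := closure_minimal inter_subset_right hG.isClosed
    exact this hp
  have h2 : p ∈ closure U := closure_mono inter_subset_left hp
  have h3 : Disjoint (closure U) V := hUV.closure_left hV
  exact Set.disjoint_left.1 h3 h2 (hB ⟨hpB, h1⟩)

theorem cover_aux (hO : Good O) (A B : Set (YS O × CS O)) (hA : IsClosed A) (hB : IsClosed B)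
    (hd : Disjoint A B) : HasSeparatingCover A B := by
  classical
  have hC := compact_C hO
  have hC2 := t2_C hO
  have hN := star hO A B hA hB hd
  have hNc := isClosed_NN hO A B
  have step1 : ∀ y : Om, y ∉ NN A B → ∃ l, ∃ W : Set (YS O × CS O), IsOpen W ∧
      (∀ p ∈ A, p.1.pt ∈ cyl y l → p ∈ W) ∧ Disjoint (closure W) B := by
    intro y hy
    obtain ⟨l, -, hl⟩ := (nhds_cyl y).mem_iff.1 (hNc.isOpen_compl.mem_nhds hy)
    refine ⟨l, ?_⟩
    have hK : IsCompact (cyl y l ×ˢ (univ : Set (CS O))) :=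
      (isClosed_cyl y l).isCompact.prod isCompact_univ
    have hKA : IsCompact ((cyl y l ×ˢ (univ : Set (CS O))) ∩ closure (jj '' A)) :=
      hK.inter_right isClosed_closure
    have hKB : IsCompact ((cyl y l ×ˢ (univ : Set (CS O))) ∩ closure (jj '' B)) :=
      hK.inter_right isClosed_closure
    have hdis : Disjoint ((cyl y l ×ˢ (univ : Set (CS O))) ∩ closure (jj '' A))
        ((cyl y l ×ˢ (univ : Set (CS O))) ∩ closure (jj '' B)) := by
      rw [Set.disjoint_left]
      rintro ⟨a, c⟩ ⟨h1, h2⟩ ⟨-, h3⟩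
      exact hl h1.1 ⟨c, h2, h3⟩
    obtain ⟨U, V, hU, hV, hAU, hBV, hUV⟩ := SeparatedNhds.of_isCompact_isCompact hKA hKB hdis
    have hGc : IsClopen {p : YS O × CS O | p.1.pt ∈ cyl y l} :=
      ⟨(isClosed_cyl y l).preimage (continuous_toOm.comp continuous_fst),
        (isOpen_cyl y l).preimage (continuous_toOm.comp continuous_fst)⟩
    obtain ⟨W, hW1, hW2, hW3⟩ := piece A B {p | p.1.pt ∈ cyl y l} (jj ⁻¹' U) (jj ⁻¹' V) hGc
      (hU.preimage continuous_jj) (hV.preimage continuous_jj) (hUV.preimage _)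
      (fun p hp => hAU ⟨⟨hp.2, trivial⟩, subset_closure ⟨p, hp.1, rfl⟩⟩)
      (fun p hp => hBV ⟨⟨hp.2, trivial⟩, subset_closure ⟨p, hp.1, rfl⟩⟩)
    exact ⟨W, hW1, fun p hp hpl => hW2 ⟨hp, hpl⟩, hW3⟩
  have step2 : ∀ y : Om, ∃ W : Set (YS O × CS O), IsOpen W ∧
      (∀ p ∈ A, p.1.pt = y → p ∈ W) ∧ Disjoint (closure W) B := by
    intro y
    have hGc : IsClopen {p : YS O × CS O | sp O y p.1.pt = true} :=
      ⟨(isClosed_discrete {true}).preimage ((continuous_sp y).comp continuous_fst),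
        (isOpen_discrete {true}).preimage ((continuous_sp y).comp continuous_fst)⟩
    have hK : IsCompact ({w : YS O | sp O y w.pt = true} ×ˢ (univ : Set (CS O))) :=
      (compact_N hO y).prod isCompact_univ
    have hdis : Disjoint (({w : YS O | sp O y w.pt = true} ×ˢ (univ : Set (CS O))) ∩ A)
        (({w : YS O | sp O y w.pt = true} ×ˢ (univ : Set (CS O))) ∩ B) :=
      hd.mono inter_subset_right inter_subset_right
    obtain ⟨U, V, hU, hV, hAU, hBV, hUV⟩ := SeparatedNhds.of_isCompact_isCompact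
      (hK.inter_right hA) (hK.inter_right hB) hdis
    obtain ⟨W, hW1, hW2, hW3⟩ := piece A B _ U V hGc hU hV hUV
      (fun p hp => hAU ⟨⟨hp.2, trivial⟩, hp.1⟩) (fun p hp => hBV ⟨⟨hp.2, trivial⟩, hp.1⟩)
    refine ⟨W, hW1, fun p hp hpl => hW2 ⟨hp, ?_⟩, hW3⟩
    change sp O y p.1.pt = true
    rw [hpl]
    exact sp_self hO y
  choose l W1 hW1 hW1A hW1B using step1
  choose W2 hW2 hW2A hW2B using step2
  obtain ⟨T, hTs, hTc, hT⟩ := TopologicalSpace.countable_cover_nhdsWithin
    (f := fun y => if h : y ∉ NN A B then cyl y (l y h) else ∅) (s := (NN A B)ᶜ) (by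
      intro y hy
      have hy' : y ∉ NN A B := hy
      rw [dif_pos hy']
      exact mem_nhdsWithin_of_mem_nhds ((isOpen_cyl _ _).mem_nhds (self_mem_cyl _ _)))
  have hcT : Countable T := hTc.to_subtype
  have hcN : Countable (NN A B) := hN.to_subtype
  let Wf : Option (T ⊕ NN A B) → Set (YS O × CS O) := fun o => match o with
    | none => ∅
    | some (Sum.inl t) => W1 t.1 (hTs t.2)
    | some (Sum.inr t) => W2 t.1
  obtain ⟨f, hf⟩ := exists_surjective_nat (Option (T ⊕ NN A B))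
  refine ⟨fun n => Wf (f n), ?_, ?_⟩
  · intro p hp
    by_cases h : p.1.pt ∈ NN A B
    · obtain ⟨n, hn⟩ := hf (some (Sum.inr ⟨p.1.pt, h⟩))
      refine mem_iUnion.2 ⟨n, ?_⟩
      rw [hn]
      exact hW2A _ p hp rfl
    · have := hT h
      simp only [mem_iUnion] at this
      obtain ⟨y, hy, hpy⟩ := this
      have hyN : y ∉ NN A B := hTs hy
      rw [dif_pos hyN] at hpy
      obtain ⟨n, hn⟩ := hf (some (Sum.inl ⟨y, hy⟩))
      refine mem_iUnion.2 ⟨n, ?_⟩
      rw [hn]
      exact hW1A y hyN p hp hpy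
  · have hall : ∀ o, IsOpen (Wf o) ∧ Disjoint (closure (Wf o)) B := by
      intro o
      match o with
      | none => simp [Wf]
      | some (Sum.inl t) => exact ⟨hW1 _ _, hW1B _ _⟩
      | some (Sum.inr t) => exact ⟨hW2 _, hW2B _⟩
    exact fun n => hall (f n)

theorem normal_YC (hO : Good O) : NormalSpace (YS O × CS O) :=
  ⟨fun A B hA hB hd => hasSeparatingCovers_iff_separatedNhds.1
    ⟨cover_aux hO A B hA hB hd, cover_aux hO B A hB hA hd.symm⟩⟩

theorem t4_YC (hO : Good O) : T4Space (YS O × CS O) := by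
  have := t2_C hO
  have := normal_YC hO
  infer_instance


/-! ### the double cover `X` -/

abbrev XS (O : Om → Pt → Bool) : Type := {p : YS O × CS O // p.2.pt.1 = p.1.pt}

theorem isClosed_XS : IsClosed {p : YS O × CS O | p.2.pt.1 = p.1.pt} :=
  isClosed_eq (continuous_rho.comp continuous_snd) (continuous_toOm.comp continuous_fst)

/-- the swap on labels -/
def s2 (x : XS O) : CS O := ⟨(x.1.2.pt.1, !x.1.2.pt.2)⟩

def sw (x : XS O) : XS O := ⟨(x.1.1, s2 x), x.2⟩

theorem sw_sw (x : XS O) : sw (sw x) = x := by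
  obtain ⟨⟨⟨y⟩, ⟨⟨w, i⟩⟩⟩, h⟩ := x
  simp [sw, s2]

theorem s2_sw (x : XS O) : s2 (sw x) = x.1.2 := by
  obtain ⟨⟨⟨y⟩, ⟨⟨w, i⟩⟩⟩, h⟩ := x
  simp [sw, s2]

theorem s2_ne (x : XS O) : x.1.2 ≠ s2 x := by
  obtain ⟨⟨⟨y⟩, ⟨⟨w, i⟩⟩⟩, h⟩ := x
  simp [s2]

theorem bool_aux (hO : Good O) (x w : Om) (i j : Bool) (h1 : sp O x w = true)
    (h2 : O x (w, j) = O x (x, i)) : O x (w, !j) = O x (x, !i) := by
  have h3 := hO.h0 x
  have h4 := hO.h1 x
  unfold sp at h1
  cases i <;> cases j <;> simp only [Bool.not_true, Bool.not_false] at * <;>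
    rw [h3, h4] at * <;>
    cases h5 : O x (w, false) <;> cases h6 : O x (w, true) <;> simp_all

theorem continuous_s2 (hO : Good O) : Continuous (s2 : XS O → CS O) := by
  rw [continuous_iff_continuousAt]
  intro p
  unfold ContinuousAt
  rw [(nhds_C hO _).tendsto_right_iff]
  intro l _
  have h1 : ∀ᶠ q : XS O in 𝓝 p, q.1.1 ∈ BY O p.1.1 l :=
    (continuous_fst.comp continuous_subtype_val).continuousAt.preimage_mem_nhds
      ((isOpen_BY _ _).mem_nhds (self_mem_BY hO _ _))
  have h2 : ∀ᶠ q : XS O in 𝓝 p, q.1.2 ∈ BC O p.1.2 l :=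
    (continuous_snd.comp continuous_subtype_val).continuousAt.preimage_mem_nhds
      ((isOpen_BC _ _).mem_nhds (self_mem_BC _ _))
  filter_upwards [h1, h2] with q hq1 hq2
  obtain ⟨⟨⟨y⟩, ⟨⟨y', i⟩⟩⟩, h⟩ := p
  obtain ⟨⟨⟨w⟩, ⟨⟨w', j⟩⟩⟩, h'⟩ := q
  dsimp at h h'
  subst h h'
  exact ⟨hq2.1, bool_aux hO _ _ _ _ hq1.2 hq2.2⟩

theorem continuous_sw (hO : Good O) : Continuous (sw : XS O → XS O) :=
  Continuous.subtype_mk ((continuous_fst.comp continuous_subtype_val).prodMk (continuous_s2 hO)) _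

/-- the projection -/
def pr (x : XS O) : YS O := x.1.1

theorem pr_surj : Function.Surjective (pr : XS O → YS O) := fun y =>
  ⟨⟨(y, ⟨(y.pt, false)⟩), rfl⟩, rfl⟩

theorem pr_proper (hO : Good O) : IsProperMap (pr : XS O → YS O) := by
  have := compact_C hO
  have h1 : IsProperMap (Prod.fst : YS O × CS O → YS O) := isProperMap_fst_of_compactSpace
  have h2 : IsProperMap (Subtype.val : XS O → YS O × CS O) :=
    isClosed_XS.isClosedEmbedding_subtypeVal.isProperMap
  exact h1.comp h2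

theorem t4_X (hO : Good O) : T4Space (XS O) := by
  have := t4_YC hO
  exact (isClosed_XS (O := O)).isClosedEmbedding_subtypeVal.t4Space

theorem countable_of_pr (S : Set (XS O)) (h : (pr '' S).Countable) : S.Countable := by
  have hinj : Function.Injective (fun x : XS O => (pr x, x.1.2.pt.2)) := by
    rintro ⟨⟨⟨y⟩, ⟨⟨y', i⟩⟩⟩, h⟩ ⟨⟨⟨w⟩, ⟨⟨w', j⟩⟩⟩, h'⟩ hh
    dsimp at h h'
    subst h h'
    simp only [pr, Prod.mk.injEq, YS.mk.injEq] at hh
    obtain ⟨rfl, rfl⟩ := hh
    rfl
  have h2 : ((pr '' S) ×ˢ (univ : Set Bool)).Countable := h.prod (countable_univ)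
  refine (h2.preimage_of_injOn (f := fun x : XS O => (pr x, x.1.2.pt.2)) hinj.injOn).mono ?_
  intro x hx
  exact ⟨mem_image_of_mem _ hx, trivial⟩

theorem mk_Om : #Om = continuum := by simp

theorem uncountable_XS : ¬ (univ : Set (XS O)).Countable := by
  intro h
  have : Countable (XS O) := countable_univ_iff.1 h
  have h2 : Countable Om := by
    refine Function.Injective.countable (f := fun y : Om => (⟨(⟨y⟩, ⟨(y, false)⟩), rfl⟩ : XS O)) ?_
    intro a b hab
    exact congrArg (fun x : XS O => x.1.1.pt) hab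
  have h3 : #Om ≤ ℵ₀ := mk_le_aleph0_iff.2 h2
  rw [mk_Om] at h3
  exact absurd h3 (not_le.2 aleph0_lt_continuum)

/-- closed sets `F` with `F ∩ sw F = ∅` are countable -/
theorem countable_half (hO : Good O) (F : Set (XS O)) (hF : IsClosed F)
    (hd : ∀ x ∈ F, sw x ∉ F) : F.Countable := by
  classical
  have hemb : IsClosedEmbedding (Subtype.val : XS O → YS O × CS O) :=
    (isClosed_XS (O := O)).isClosedEmbedding_subtypeVal
  have hG : IsClosed (sw ⁻¹' F) := hF.preimage (continuous_sw hO)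
  have hA := hemb.isClosedMap _ hF
  have hB := hemb.isClosedMap _ hG
  have hdis : Disjoint (Subtype.val '' F : Set (YS O × CS O)) (Subtype.val '' (sw ⁻¹' F)) := by
    rw [Set.disjoint_left]
    rintro _ ⟨x, hx, rfl⟩ ⟨x', hx', h⟩
    have := Subtype.ext h
    subst this
    exact hd _ hx hx'
  have hst := star hO _ _ hA hB hdis
  set N := NN (O := O) (Subtype.val '' F) (Subtype.val '' (sw ⁻¹' F)) with hN
  have step : ∀ y : Om, y ∉ N → ∃ l, ∀ x ∈ F, x.1.1.pt ∈ cyl y l → sp O y x.1.1.pt = true := by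
    intro y hy
    have hi : ∀ i : Bool, ∃ l, ¬ ((∃ p ∈ (Subtype.val '' F : Set (YS O × CS O)),
        p.1.pt ∈ cyl y l ∧ p.2 ∈ BC O ⟨(y, i)⟩ l) ∧
        (∃ p ∈ (Subtype.val '' (sw ⁻¹' F) : Set (YS O × CS O)),
        p.1.pt ∈ cyl y l ∧ p.2 ∈ BC O ⟨(y, i)⟩ l)) := by
      intro i
      by_contra hcon
      push Not at hcon
      exact hy ⟨⟨(y, i)⟩, (closE hO _ _ _).2 fun l => (hcon l).1,
        (closE hO _ _ _).2 fun l => (hcon l).2⟩
    obtain ⟨l0, hl0⟩ := hi false
    obtain ⟨l1, hl1⟩ := hi true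
    refine ⟨max l0 l1, fun x hx hxl => ?_⟩
    by_contra hsp
    have hsp' : O y (x.1.1.pt, false) = O y (x.1.1.pt, true) := by
      by_contra h
      exact hsp ((sp_iff _ _).2 h)
    have hall : ∀ j, O y (x.1.1.pt, j) = O y (x.1.1.pt, false) := by
      intro j
      cases j
      · rfl
      · exact hsp'.symm
    have hx2 : sw x ∈ sw ⁻¹' F := by
      change sw (sw x) ∈ F
      rw [sw_sw]
      exact hx
    have hmem1 : ∀ i, O y (x.1.1.pt, false) = O y (y, i) → ∀ l ≤ max l0 l1,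
        x.1.2 ∈ BC O ⟨(y, i)⟩ l := by
      intro i hi l hl
      refine ⟨?_, ?_⟩
      · change x.1.2.pt.1 ∈ cyl y l
        rw [x.2]
        exact cyl_anti _ hl hxl
      · change O y x.1.2.pt = O y (y, i)
        rw [← hi, ← hall x.1.2.pt.2, ← x.2]
    have hmem2 : ∀ i, O y (x.1.1.pt, false) = O y (y, i) → ∀ l ≤ max l0 l1,
        s2 x ∈ BC O ⟨(y, i)⟩ l := by
      intro i hi l hl
      refine ⟨?_, ?_⟩
      · change x.1.2.pt.1 ∈ cyl y l
        rw [x.2]
        exact cyl_anti _ hl hxl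
      · change O y (x.1.2.pt.1, !x.1.2.pt.2) = O y (y, i)
        rw [← hi, ← hall (!x.1.2.pt.2), ← x.2]
    cases hv : O y (x.1.1.pt, false) with
    | true =>
      have h3 : O y (x.1.1.pt, false) = O y (y, false) := by rw [hv, hO.h0]
      exact hl0 ⟨⟨x.1, ⟨x, hx, rfl⟩, cyl_anti _ (le_max_left _ _) hxl,
        hmem1 _ h3 _ (le_max_left _ _)⟩,
        ⟨(sw x).1, ⟨sw x, hx2, rfl⟩, cyl_anti _ (le_max_left _ _) hxl,
        hmem2 _ h3 _ (le_max_left _ _)⟩⟩
    | false =>
      have h3 : O y (x.1.1.pt, false) = O y (y, true) := by rw [hv, hO.h1]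
      exact hl1 ⟨⟨x.1, ⟨x, hx, rfl⟩, cyl_anti _ (le_max_right _ _) hxl,
        hmem1 _ h3 _ (le_max_right _ _)⟩,
        ⟨(sw x).1, ⟨sw x, hx2, rfl⟩, cyl_anti _ (le_max_right _ _) hxl,
        hmem2 _ h3 _ (le_max_right _ _)⟩⟩
  choose l hl using step
  obtain ⟨T, hTs, hTc, hT⟩ := TopologicalSpace.countable_cover_nhdsWithin
    (f := fun y => if h : y ∉ N then cyl y (l y h) else ∅) (s := Nᶜ) (by
      intro y hy
      have hy' : y ∉ N := hy
      rw [dif_pos hy']
      exact mem_nhdsWithin_of_mem_nhds ((isOpen_cyl _ _).mem_nhds (self_mem_cyl _ _)))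
  have hcount : (YS.pt '' (pr '' F)).Countable := by
    have hsub : YS.pt '' (pr '' F) ⊆ N ∪ ⋃ y ∈ T, {w | O y (w, false) ≠ O y (w, true)} := by
      rintro _ ⟨_, ⟨x, hx, rfl⟩, rfl⟩
      by_cases h : (pr x).pt ∈ N
      · exact Or.inl h
      · right
        have := hT h
        simp only [mem_iUnion] at this
        obtain ⟨y, hy, hpy⟩ := this
        have hyN : y ∉ N := hTs hy
        rw [dif_pos hyN] at hpy
        simp only [mem_iUnion]
        exact ⟨y, hy, (sp_iff _ _).1 (hl y hyN x hx hpy)⟩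
    exact (hst.union (hTc.biUnion fun y _ => hO.h3 y)).mono hsub
  have hinj : Function.Injective (YS.pt : YS O → Om) := fun a b h => YS.ext h
  exact countable_of_pr _ (countable_of_injective_of_countable_image hinj.injOn hcount)

/-- sets all of whose subsets are closed are countable -/
theorem countable_disc (hO : Good O) (D : Set (XS O)) (hD : ∀ D' ⊆ D, IsClosed D') :
    D.Countable := by
  classical
  have hcl : ∀ G ⊆ pr '' D, IsClosed G := by
    intro G hG
    have h1 : G = pr '' (D ∩ pr ⁻¹' G) := by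
      ext y
      constructor
      · intro hy
        obtain ⟨x, hx, rfl⟩ := hG hy
        exact ⟨x, ⟨hx, hy⟩, rfl⟩
      · rintro ⟨x, ⟨-, hx⟩, rfl⟩
        exact hx
    rw [h1]
    exact (pr_proper hO).isClosedMap _ (hD _ inter_subset_left)
  refine countable_of_pr _ ?_
  rcases (pr '' D).eq_empty_or_nonempty with he | hne
  · rw [he]
    exact countable_empty
  obtain ⟨u, hu1, hu2⟩ := dense_aux (pr '' D) hne YS.pt YS.pt
  let c0 : CS O := ⟨(fun _ => false, false)⟩
  have := t2_C hO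
  have hA : IsClosed (range u ×ˢ ({c0} : Set (CS O))) :=
    (hcl _ (by rintro _ ⟨k, rfl⟩; exact hu1 k)).prod isClosed_singleton
  have hB : IsClosed ((pr '' D \ range u) ×ˢ ({c0} : Set (CS O))) :=
    (hcl _ sdiff_subset).prod isClosed_singleton
  have hst := star hO _ _ hA hB (by
    rw [Set.disjoint_left]
    rintro ⟨a, b⟩ ⟨h1, -⟩ ⟨h2, -⟩
    exact h2.2 h1)
  have hsub : YS.pt '' (pr '' D \ range u) ⊆
      NN (range u ×ˢ ({c0} : Set (CS O))) ((pr '' D \ range u) ×ˢ ({c0} : Set (CS O))) := by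
    rintro _ ⟨y, hy, rfl⟩
    refine ⟨c0, (closE hO _ _ _).2 fun l => ?_, subset_closure ⟨(y, c0), ⟨hy, rfl⟩, rfl⟩⟩
    obtain ⟨k, hk, -⟩ := hu2 y hy.1 l
    exact ⟨(u k, c0), ⟨⟨k, rfl⟩, rfl⟩, hk, self_mem_BC _ _⟩
  have hinj : Function.Injective (YS.pt : YS O → Om) := fun a b h => YS.ext h
  have h1 : (pr '' D \ range u).Countable :=
    countable_of_injective_of_countable_image hinj.injOn (hst.mono hsub)
  exact ((countable_range u).union h1).mono (by
    intro y hy
    by_cases h : y ∈ range u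
    · exact Or.inl h
    · exact Or.inr ⟨hy, h⟩)

theorem not_normal (hO : Good O) : ¬ NormalSpace (XS O × CS O) := by
  intro hnorm
  have hC := compact_C hO
  have hC2 := t2_C hO
  let F0 : Set (XS O × CS O) := {q | q.2 = q.1.1.2}
  let F1 : Set (XS O × CS O) := {q | q.2 = s2 q.1}
  have hF0 : IsClosed F0 := isClosed_eq continuous_snd
    (continuous_snd.comp (continuous_subtype_val.comp continuous_fst))
  have hF1 : IsClosed F1 := isClosed_eq continuous_snd ((continuous_s2 hO).comp continuous_fst)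
  have hdis : Disjoint F0 F1 := by
    rw [Set.disjoint_left]
    intro q h1 h2
    have h1' : q.2 = q.1.1.2 := h1
    have h2' : q.2 = s2 q.1 := h2
    exact s2_ne q.1 (h1'.symm.trans h2')
  obtain ⟨φ, hφ0, hφ1, -⟩ := exists_continuous_zero_one_of_isClosed hF0 hF1 hdis
  let Φ : C(XS O, C(CS O, ℝ)) := φ.curry
  have hΦ : ∀ x, 1 ≤ dist (Φ x) (Φ (sw x)) := by
    intro x
    have h1 : Φ x x.1.2 = 0 := hφ0 (show (x, x.1.2) ∈ F0 from rfl)
    have h2 : Φ (sw x) x.1.2 = 1 := hφ1 (show (sw x, x.1.2) ∈ F1 from (s2_sw x).symm)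
    have h3 := ContinuousMap.dist_apply_le_dist (f := Φ x) (g := Φ (sw x)) x.1.2
    rw [h1, h2] at h3
    simpa using h3
  -- maximal separated set
  obtain ⟨D, hD⟩ := zorn_subset {D : Set (XS O) | D.Pairwise fun a b => 1 / 4 ≤ dist (Φ a) (Φ b)}
    (by
      intro c hc hchain
      refine ⟨⋃₀ c, ?_, fun s hs => subset_sUnion_of_mem hs⟩
      exact (Set.pairwise_sUnion hchain.directedOn).2 fun s hs => hc hs)
  have hDp : D.Pairwise fun a b => 1 / 4 ≤ dist (Φ a) (Φ b) := hD.prop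
  have hDc : D.Countable := by
    apply countable_disc hO
    intro D' hD'
    rw [← closure_subset_iff_isClosed]
    intro x hx
    by_contra hxD
    let U : Set (XS O) := {x' | dist (Φ x') (Φ x) < 1 / 8}
    have hU : IsOpen U := isOpen_lt ((Φ.continuous).dist continuous_const) continuous_const
    have hxU : x ∈ U := by
      change dist (Φ x) (Φ x) < 1 / 8
      rw [dist_self]
      norm_num
    obtain ⟨d, hdU, hdD⟩ := mem_closure_iff.1 hx U hU hxU
    have hne : x ≠ d := fun h => hxD (h ▸ hdD)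
    obtain ⟨d', ⟨hd'U, hd'n⟩, hd'D⟩ := mem_closure_iff.1 hx (U ∩ {d}ᶜ)
      (hU.inter isOpen_compl_singleton) ⟨hxU, hne⟩
    have h1 := hDp (hD' hdD) (hD' hd'D) (fun h => hd'n h.symm)
    have h2 : dist (Φ d) (Φ x) < 1 / 8 := hdU
    have h3 : dist (Φ d') (Φ x) < 1 / 8 := hd'U
    have h4 := dist_triangle_right (Φ d) (Φ d') (Φ x)
    linarith
  have hcov : ∀ x, ∃ d ∈ D, dist (Φ x) (Φ d) ≤ 1 / 4 := by
    intro x
    by_contra hcon
    push Not at hcon
    have hxD : x ∉ D := fun h => by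
      have := hcon x h
      rw [dist_self] at this
      norm_num at this
    have h1 : insert x D ∈ {D : Set (XS O) | D.Pairwise fun a b => 1 / 4 ≤ dist (Φ a) (Φ b)} := by
      refine Set.pairwise_insert.2 ⟨hDp, fun d hd _ => ⟨(hcon d hd).le, ?_⟩⟩
      rw [dist_comm]
      exact (hcon d hd).le
    exact hxD (hD.le_of_ge h1 (subset_insert _ _) (mem_insert _ _))
  apply uncountable_XS (O := O)
  have hsub : (univ : Set (XS O)) ⊆ ⋃ d ∈ D, {x | dist (Φ x) (Φ d) ≤ 1 / 4} := by
    intro x _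
    obtain ⟨d, hd, h⟩ := hcov x
    simp only [mem_iUnion]
    exact ⟨d, hd, h⟩
  refine (hDc.biUnion fun d _ => ?_).mono hsub
  apply countable_half hO
  · exact isClosed_le ((Φ.continuous).dist continuous_const) continuous_const
  · intro x hx hx'
    have h1 : dist (Φ x) (Φ d) ≤ 1 / 4 := hx
    have h2 : dist (Φ (sw x)) (Φ d) ≤ 1 / 4 := hx'
    have h3 := hΦ x
    have h4 := dist_triangle_right (Φ x) (Φ (sw x)) (Φ d)
    linarith

/-- The negation of the preceding statement: Take a perfect (continuous, closed, compact-fibre) surjection from a normal T1 space X onto Y, and a compact Hausdorff C. If Y × C is normal T1, then X × C is normal T1. -/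
theorem result :
    ¬ (∀ (X Y C : Type) [TopologicalSpace X] [TopologicalSpace Y] [TopologicalSpace C],
      T4Space X → CompactSpace C → T2Space C →
      ∀ f : X → Y, IsProperMap f → Function.Surjective f →
        T4Space (Y × C) → T4Space (X × C)) := by
  intro h
  obtain ⟨O, hO⟩ := exists_good
  have := h (XS O) (YS O) (CS O) (t4_X hO) (compact_C hO) (t2_C hO) pr (pr_proper hO) pr_surj
    (t4_YC hO)
  exact not_normal hO this.toNormalSpace

end Pool.Agent.S08666
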