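import Pool.Statements.S08668

set_option autoImplicit false
open Pool Pool.MP_8d6ae8_gt

namespace Pool.Agent.S08668

open Filter Topology

/-- The points of the space: one special point `z`, the non-isolated points `L n h w`
(level `n`, the sequence `h, w 0, w 1, ...` of naturals) and the isolated points `D n h l`
(level `n`, the nonempty finite sequence with head `h` and tail `l`). -/
inductive Pt : Type
  | z : Pt
  | L (n h : ℕ) (w : ℕ → ℕ) : Pt
  | D (n h : ℕ) (l : List ℕ) : Pt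

/-- A coding of nonempty finite sequences by naturals. -/
def e : ℕ × List ℕ ≃ ℕ := Denumerable.eqv (ℕ × List ℕ)

/-- A coding of finite sequences by naturals. -/
def e' : List ℕ ≃ ℕ := Denumerable.eqv (List ℕ)

/-- The first `i` terms of a sequence. -/
def pre (w : ℕ → ℕ) (i : ℕ) : List ℕ := (List.range i).map w

/-- The head of the nonempty finite sequence coded by `h`. -/
def hd (h : ℕ) : ℕ := (e.symm h).1

/-- The tail of the nonempty finite sequence coded by `h`. -/
def tl (h : ℕ) : List ℕ := (e.symm h).2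

lemma length_pre (w : ℕ → ℕ) (i : ℕ) : (pre w i).length = i := by simp [pre]

lemma pre_injective (w : ℕ → ℕ) : Function.Injective (pre w) := by
  intro i j h
  have := congrArg List.length h
  simpa [length_pre] using this

lemma pre_succ (w : ℕ → ℕ) (i : ℕ) : pre w (i + 1) = pre w i ++ [w i] := by
  simp [pre, List.range_succ]

lemma pre_prefix (w : ℕ → ℕ) {i j : ℕ} (h : i ≤ j) : pre w i <+: pre w j := by
  induction j, h using Nat.le_induction with
  | base => exact List.prefix_rfl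
  | succ k hk ih => rw [pre_succ]; exact ih.trans (List.prefix_append _ _)

lemma prefix_pre_iff (w : ℕ → ℕ) (t : List ℕ) {i : ℕ} (h : t.length ≤ i) :
    t <+: pre w i ↔ pre w t.length = t := by
  constructor
  · intro h1
    have h2 := pre_prefix w h
    have := List.prefix_of_prefix_length_le h2 h1 (by simp [length_pre])
    exact this.eq_of_length (by simp [length_pre])
  · intro h1
    rw [← h1]
    have := pre_prefix w h
    simpa [length_pre] using this

lemma eventually_ne_of_injective {α : Type} {f : ℕ → α} (hf : Function.Injective f) (a : α) :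
    ∀ᶠ i in atTop, f i ≠ a := by
  by_cases h : ∃ j, f j = a
  · obtain ⟨j, rfl⟩ := h
    filter_upwards [eventually_gt_atTop j] with i hi h
    exact absurd (hf h) (by omega)
  · push Not at h
    exact Eventually.of_forall h

/-- Openness in the fine topology. -/
def IsO (O : Set Pt) : Prop :=
  (Pt.z ∈ O → ∃ N, ∀ m, N ≤ m → (∀ h l, Pt.D m h l ∈ O) ∧ (∀ h w, Pt.L (m + 1) h w ∈ O)) ∧
  (∀ n h w, Pt.L n h w ∈ O → ∀ᶠ i in atTop, Pt.D n (hd h) (tl h ++ [e' (pre w i)]) ∈ O) ∧
  (∀ n h w, Pt.L (n + 1) h w ∈ O → ∀ᶠ i in atTop, Pt.D n h (pre w i) ∈ O)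

/-- The fine topology. -/
@[instance_reducible] def top1 : TopologicalSpace Pt where
  IsOpen := IsO
  isOpen_univ := ⟨fun _ => ⟨0, fun _ _ => ⟨fun _ _ => trivial, fun _ _ => trivial⟩⟩,
    fun _ _ _ _ => Eventually.of_forall fun _ => trivial,
    fun _ _ _ _ => Eventually.of_forall fun _ => trivial⟩
  isOpen_inter := by
    rintro s t ⟨hs1, hs2, hs3⟩ ⟨ht1, ht2, ht3⟩
    refine ⟨?_, ?_, ?_⟩
    · rintro ⟨h1, h2⟩
      obtain ⟨N, hN⟩ := hs1 h1
      obtain ⟨M, hM⟩ := ht1 h2
      refine ⟨max N M, fun m hm => ⟨fun h l => ⟨(hN m (le_trans (le_max_left _ _) hm)).1 h l,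
        (hM m (le_trans (le_max_right _ _) hm)).1 h l⟩, fun h l =>
        ⟨(hN m (le_trans (le_max_left _ _) hm)).2 h l,
        (hM m (le_trans (le_max_right _ _) hm)).2 h l⟩⟩⟩
    · rintro n h w ⟨h1, h2⟩
      exact (hs2 n h w h1).and (ht2 n h w h2)
    · rintro n h w ⟨h1, h2⟩
      exact (hs3 n h w h1).and (ht3 n h w h2)
  isOpen_sUnion := by
    intro S hS
    refine ⟨?_, ?_, ?_⟩
    · rintro ⟨s, hs, h1⟩
      obtain ⟨N, hN⟩ := (hS s hs).1 h1
      exact ⟨N, fun m hm => ⟨fun h l => ⟨s, hs, (hN m hm).1 h l⟩,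
        fun h l => ⟨s, hs, (hN m hm).2 h l⟩⟩⟩
    · rintro n h w ⟨s, hs, h1⟩
      exact ((hS s hs).2.1 n h w h1).mono fun i hi => ⟨s, hs, hi⟩
    · rintro n h w ⟨s, hs, h1⟩
      exact ((hS s hs).2.2 n h w h1).mono fun i hi => ⟨s, hs, hi⟩

lemma isClopen_of (S : Set Pt)
    (hz : ∃ N, ∀ m, N ≤ m → (∀ h l, (Pt.D m h l ∈ S ↔ Pt.z ∈ S)) ∧
      (∀ h w, (Pt.L (m + 1) h w ∈ S ↔ Pt.z ∈ S)))
    (hb : ∀ n h w, ∀ᶠ i in atTop,
      (Pt.D n (hd h) (tl h ++ [e' (pre w i)]) ∈ S ↔ Pt.L n h w ∈ S))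
    (ha : ∀ n h w, ∀ᶠ i in atTop, (Pt.D n h (pre w i) ∈ S ↔ Pt.L (n + 1) h w ∈ S)) :
    @IsClopen Pt top1 S := by
  have h1 : IsO S := by
    refine ⟨?_, ?_, ?_⟩
    · intro h0
      obtain ⟨N, hN⟩ := hz
      exact ⟨N, fun m hm => ⟨fun h l => ((hN m hm).1 h l).2 h0,
        fun h l => ((hN m hm).2 h l).2 h0⟩⟩
    · intro n h w h0
      exact (hb n h w).mono fun i hi => hi.2 h0
    · intro n h w h0
      exact (ha n h w).mono fun i hi => hi.2 h0
  have h2 : IsO Sᶜ := by
    refine ⟨?_, ?_, ?_⟩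
    · intro h0
      obtain ⟨N, hN⟩ := hz
      exact ⟨N, fun m hm => ⟨fun h l hh => h0 (((hN m hm).1 h l).1 hh),
        fun h l hh => h0 (((hN m hm).2 h l).1 hh)⟩⟩
    · intro n h w h0
      exact (hb n h w).mono fun i hi hh => h0 (hi.1 hh)
    · intro n h w h0
      exact (ha n h w).mono fun i hi hh => h0 (hi.1 hh)
  refine ⟨?_, h1⟩
  exact (@isOpen_compl_iff Pt S top1).1 h2

/-- An auxiliary predicate used for the clopen sets below. -/
def Q (h0 : ℕ) (t : List ℕ) : ℕ → ℕ → Prop
  | 0, h => hd h = h0 ∧ t <+: tl h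
  | k + 1, h => Q h0 t k (hd h)

/-- The clopen sets which generate the metrizable topology. -/
def Cp (n h0 : ℕ) (t : List ℕ) : Pt → Prop
  | Pt.z => False
  | Pt.L m h w => (m = n ∧ h = h0 ∧ pre w t.length = t) ∨ (∃ k, m + 1 + k = n ∧ Q h0 t k h)
  | Pt.D m h l => (m = n ∧ ∃ l' s, l = l' ++ [s] ∧ e (h, l') = h0 ∧ t <+: e'.symm s) ∨
      (m + 1 = n ∧ h = h0 ∧ t <+: l) ∨ (∃ k, m + 2 + k = n ∧ Q h0 t k h)

lemma mem_L_iff (n h0 : ℕ) (t : List ℕ) (m h : ℕ) (w : ℕ → ℕ) :
    Cp n h0 t (Pt.L m h w) ↔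
      ((m = n ∧ h = h0 ∧ pre w t.length = t) ∨ (∃ k, m + 1 + k = n ∧ Q h0 t k h)) := Iff.rfl

lemma mem_D_iff (n h0 : ℕ) (t : List ℕ) (m h : ℕ) (l : List ℕ) :
    Cp n h0 t (Pt.D m h l) ↔
      ((m = n ∧ ∃ l' s, l = l' ++ [s] ∧ e (h, l') = h0 ∧ t <+: e'.symm s) ∨
      (m + 1 = n ∧ h = h0 ∧ t <+: l) ∨ (∃ k, m + 2 + k = n ∧ Q h0 t k h)) := Iff.rfl

lemma not_mem_z (n h0 : ℕ) (t : List ℕ) : Pt.z ∉ {p | Cp n h0 t p} := fun h => h

lemma clopen_Cp (n h0 : ℕ) (t : List ℕ) : @IsClopen Pt top1 {p | Cp n h0 t p} := by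
  apply isClopen_of
  · refine ⟨n + 1, fun m hm => ⟨fun h l => ?_, fun h w => ?_⟩⟩
    · refine iff_of_false ?_ (not_mem_z _ _ _)
      rw [Set.mem_ofPred_eq]
      rw [mem_D_iff]
      rintro (⟨h1, _⟩ | ⟨h1, _⟩ | ⟨k', h1, h2⟩) <;> omega
    · refine iff_of_false ?_ (not_mem_z _ _ _)
      rw [Set.mem_ofPred_eq]
      rw [mem_L_iff]
      rintro (⟨h1, _⟩ | ⟨k', h1, h2⟩) <;> omega
  · intro m h w
    rcases lt_trichotomy m n with hmn | rfl | hmn
    · obtain ⟨k, rfl⟩ : ∃ k, n = m + 1 + k := ⟨n - (m + 1), by omega⟩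
      cases k with
      | zero =>
        have hinj : Function.Injective (fun i => tl h ++ [e' (pre w i)]) := by
          intro i j hij
          have : e' (pre w i) = e' (pre w j) := by simpa using hij
          exact pre_injective w (e'.injective this)
        filter_upwards [eventually_ne_of_injective hinj t] with i hi
        try rw [Set.mem_ofPred_eq, Set.mem_ofPred_eq]
        rw [mem_D_iff, mem_L_iff]
        constructor
        · rintro (⟨h1, _⟩ | ⟨_, h1, h2⟩ | ⟨k, h1, _⟩)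
          · omega
          · rw [List.prefix_concat_iff] at h2
            rcases h2 with h2 | h2
            · exact absurd h2.symm hi
            · exact Or.inr ⟨0, by omega, h1, h2⟩
          · omega
        · rintro (⟨h1, _⟩ | ⟨k, h1, h2⟩)
          · omega
          · obtain rfl : k = 0 := by omega
            exact Or.inr (Or.inl ⟨by omega, h2.1, h2.2.trans (List.prefix_append _ _)⟩)
      | succ k =>
        refine Eventually.of_forall fun i => ?_
        try rw [Set.mem_ofPred_eq, Set.mem_ofPred_eq]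
        rw [mem_D_iff, mem_L_iff]
        constructor
        · rintro (⟨h1, _⟩ | ⟨h1, _⟩ | ⟨k', h1, h2⟩)
          · omega
          · omega
          · obtain rfl : k' = k := by omega
            exact Or.inr ⟨k' + 1, by omega, h2⟩
        · rintro (⟨h1, _⟩ | ⟨k', h1, h2⟩)
          · omega
          · obtain rfl : k' = k + 1 := by omega
            exact Or.inr (Or.inr ⟨k, by omega, h2⟩)
    · filter_upwards [eventually_ge_atTop t.length] with i hi
      try rw [Set.mem_ofPred_eq, Set.mem_ofPred_eq]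
      rw [mem_D_iff, mem_L_iff]
      constructor
      · rintro (⟨_, l', s, h1, h2, h3⟩ | ⟨h1, _⟩ | ⟨k, h1, _⟩)
        · left
          refine ⟨rfl, ?_, ?_⟩
          · have h4 := List.append_inj' h1 rfl
            rw [← h2, ← h4.1]
            simp [hd, tl]
          · have h4 := List.append_inj' h1 rfl
            have h5 : e' (pre w i) = s := by simpa using h4.2
            rw [← h5, Equiv.symm_apply_apply] at h3
            exact (prefix_pre_iff w t hi).1 h3
        · omega
        · omega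
      · rintro (⟨_, h1, h2⟩ | ⟨k, h1, _⟩)
        · left
          refine ⟨rfl, tl h, e' (pre w i), rfl, ?_, ?_⟩
          · rw [← h1]; simp [hd, tl]
          · rw [Equiv.symm_apply_apply]
            exact (prefix_pre_iff w t hi).2 h2
        · omega
    · refine Eventually.of_forall fun i => ?_
      try rw [Set.mem_ofPred_eq, Set.mem_ofPred_eq]
      rw [mem_D_iff, mem_L_iff]
      constructor
      · rintro (⟨h1, _⟩ | ⟨h1, _⟩ | ⟨k', h1, h2⟩) <;> omega
      · rintro (⟨h1, _⟩ | ⟨k', h1, h2⟩) <;> omega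
  · intro m h w
    rcases lt_trichotomy (m + 1) n with hmn | hmn | hmn
    · refine Eventually.of_forall fun i => ?_
      try rw [Set.mem_ofPred_eq, Set.mem_ofPred_eq]
      rw [mem_D_iff, mem_L_iff]
      constructor
      · rintro (⟨h1, _⟩ | ⟨h1, _⟩ | ⟨k', h1, h2⟩)
        · omega
        · omega
        · exact Or.inr ⟨k', by omega, h2⟩
      · rintro (⟨h1, _⟩ | ⟨k', h1, h2⟩)
        · omega
        · exact Or.inr (Or.inr ⟨k', by omega, h2⟩)
    · filter_upwards [eventually_ge_atTop t.length] with i hi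
      try rw [Set.mem_ofPred_eq, Set.mem_ofPred_eq]
      rw [mem_D_iff, mem_L_iff]
      rw [prefix_pre_iff w t hi]
      constructor
      · rintro (⟨h1, _⟩ | ⟨_, h1, h2⟩ | ⟨k', h1, h2⟩)
        · omega
        · exact Or.inl ⟨hmn, h1, h2⟩
        · omega
      · rintro (⟨_, h1, h2⟩ | ⟨k', h1, h2⟩)
        · exact Or.inr (Or.inl ⟨hmn, h1, h2⟩)
        · omega
    · rcases (show n = m ∨ n < m by omega) with rfl | hnm
      · have hinj : Function.Injective (fun i => e (h, pre w i)) := by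
          intro i j hij
          have : (h, pre w i) = (h, pre w j) := e.injective hij
          exact pre_injective w (by simpa using this)
        have h1 := eventually_ne_of_injective hinj h0
        rw [eventually_atTop] at h1 ⊢
        obtain ⟨N, hN⟩ := h1
        refine ⟨N + 1, fun i hi => ?_⟩
        obtain ⟨j, rfl⟩ : ∃ j, i = j + 1 := ⟨i - 1, by omega⟩
        try rw [Set.mem_ofPred_eq, Set.mem_ofPred_eq]
        rw [mem_D_iff, mem_L_iff]
        constructor
        · rintro (⟨_, l', s, h1, h2, h3⟩ | ⟨h1, _⟩ | ⟨k, h1, _⟩)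
          · rw [pre_succ] at h1
            have h4 := (List.append_inj' h1 rfl).1
            rw [← h4] at h2
            exact absurd h2 (hN j (by omega))
          · omega
          · omega
        · rintro (⟨h1, _⟩ | ⟨k', h1, h2⟩) <;> omega
      · refine Eventually.of_forall fun i => ?_
        try rw [Set.mem_ofPred_eq, Set.mem_ofPred_eq]
        rw [mem_D_iff, mem_L_iff]
        constructor
        · rintro (⟨h1, _⟩ | ⟨h1, _⟩ | ⟨k', h1, h2⟩) <;> omega
        · rintro (⟨h1, _⟩ | ⟨k', h1, h2⟩) <;> omega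

lemma clopen_singleton (n h : ℕ) (l : List ℕ) : @IsClopen Pt top1 {Pt.D n h l} := by
  apply isClopen_of
  · refine ⟨n + 1, fun m hm => ⟨fun h' l' => ?_, fun h w => ?_⟩⟩
    · simp only [Set.mem_singleton_iff, Pt.D.injEq, reduceCtorEq, iff_false, not_and]
      omega
    · simp
  · intro m h' w
    have hinj : Function.Injective (fun i => tl h' ++ [e' (pre w i)]) := by
      intro i j hij
      have : e' (pre w i) = e' (pre w j) := by simpa using hij
      exact pre_injective w (e'.injective this)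
    filter_upwards [eventually_ne_of_injective hinj l] with i hi
    simp only [Set.mem_singleton_iff, Pt.D.injEq, reduceCtorEq, iff_false, not_and]
    intro _ _ h3
    exact hi h3
  · intro m h' w
    filter_upwards [eventually_ne_of_injective (pre_injective w) l] with i hi
    simp only [Set.mem_singleton_iff, Pt.D.injEq, reduceCtorEq, iff_false, not_and]
    intro _ _ h3
    exact hi h3

/-- Index set for the countable family of clopen sets. -/
abbrev Idx : Type := (ℕ × ℕ × List ℕ) ⊕ (ℕ × ℕ × List ℕ)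

/-- The countable family of clopen sets. -/
def CS : Idx → Set Pt
  | Sum.inl x => {Pt.D x.1 x.2.1 x.2.2}
  | Sum.inr x => {p | Cp x.1 x.2.1 x.2.2 p}

lemma clopen_CS (i : Idx) : @IsClopen Pt top1 (CS i) := by
  cases i with
  | inl x => exact clopen_singleton _ _ _
  | inr x => exact clopen_Cp _ _ _

/-- The map to the Cantor cube. -/
noncomputable def Phi (p : Pt) (i : Idx) : Bool := (CS i).boolIndicator p

lemma continuous_Phi : @Continuous Pt (Idx → Bool) top1 _ Phi := by
  let _ := top1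
  refine continuous_pi fun i => ?_
  exact (continuous_boolIndicator_iff_isClopen _).2 (clopen_CS i)

/-- The metrizable topology. -/
@[instance_reducible] noncomputable def top2 : TopologicalSpace Pt := TopologicalSpace.induced Phi inferInstance

lemma top1_le_top2 : top1 ≤ top2 := continuous_iff_le_induced.1 continuous_Phi

lemma clopen2_CS (i : Idx) : @IsClopen Pt top2 (CS i) := by
  let _ := top2
  refine (continuous_boolIndicator_iff_isClopen _).1 ?_
  have h : Continuous Phi := continuous_induced_dom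
  exact (continuous_apply i).comp h

lemma Phi_injective : Function.Injective Phi := by
  intro p q hpq
  have key : ∀ i, (p ∈ CS i ↔ q ∈ CS i) := by
    intro i
    have := congrFun hpq i
    simp only [Phi] at this
    rw [Set.mem_iff_boolIndicator, Set.mem_iff_boolIndicator, this]
  -- isolated points
  have hD : ∀ p q : Pt, (∀ i, (p ∈ CS i ↔ q ∈ CS i)) → ∀ n h l, p = Pt.D n h l → q = p := by
    intro p q key n h l hp
    have := (key (Sum.inl (n, h, l))).1 (by rw [hp]; rfl)
    rw [hp]; exact this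
  have hL : ∀ p q : Pt, (∀ i, (p ∈ CS i ↔ q ∈ CS i)) → ∀ n h w, p = Pt.L n h w →
      q = Pt.z → False := by
    intro p q key n h l hp hq
    have := (key (Sum.inr (n, h, []))).1 (by rw [hp]; exact Or.inl ⟨rfl, rfl, rfl⟩)
    rw [hq] at this; exact this
  have hL2 : ∀ p q : Pt, (∀ i, (p ∈ CS i ↔ q ∈ CS i)) → ∀ n h w m h' w', p = Pt.L n h w →
      q = Pt.L m h' w' → m ≤ n := by
    intro p q key n h w m h' w' hp hq
    by_contra hnm
    have := (key (Sum.inr (n, h, []))).1 (by rw [hp]; exact Or.inl ⟨rfl, rfl, rfl⟩)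
    rw [hq] at this
    rcases this with ⟨h1, _⟩ | ⟨k, h1, _⟩
    · simp only at h1; omega
    · simp only at h1; omega
  cases hp : p with
  | z =>
    cases hq : q with
    | z => rfl
    | L n h w => exact (hL q p (fun i => (key i).symm) n h w hq hp).elim
    | D n h l => rw [← hq, ← hp]; exact hD q p (fun i => (key i).symm) n h l hq
  | L n h w =>
    cases hq : q with
    | z => exact (hL p q key n h w hp hq).elim
    | L m h' w' =>
      have h1 : m ≤ n := hL2 p q key n h w m h' w' hp hq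
      have h2 : n ≤ m := hL2 q p (fun i => (key i).symm) m h' w' n h w hq hp
      obtain rfl : m = n := le_antisymm h1 h2
      have h3 : ∀ i, h' = h ∧ pre w' i = pre w i := by
        intro i
        have h4 := (key (Sum.inr (m, h, pre w i))).1
          (by rw [hp]; exact Or.inl ⟨rfl, rfl, by rw [length_pre]⟩)
        rw [hq] at h4
        rcases h4 with ⟨_, h5, h6⟩ | ⟨k, h5, _⟩
        · simp only [length_pre] at h6; exact ⟨h5, h6⟩
        · simp only at h5; omega
      have h4 : w' = w := by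
        funext i
        have h5 := (h3 (i + 1)).2
        rw [pre_succ, pre_succ] at h5
        have h6 := (List.append_inj' h5 rfl).2
        simpa using h6
      rw [(h3 0).1, h4]
    | D n h l => rw [← hq, ← hp]; exact hD q p (fun i => (key i).symm) n h l hq
  | D n h l => rw [← hp]; exact (hD p q key n h l hp).symm

lemma metrizable_top2 : @TopologicalSpace.MetrizableSpace Pt top2 := by
  let _ := top2
  have h : Topology.IsEmbedding Phi := ⟨⟨rfl⟩, Phi_injective⟩
  exact h.metrizableSpace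

/-- The part of a basic neighbourhood of `L n h w` lying in level `n - 1`. -/
def A : ℕ → ℕ → (ℕ → ℕ) → ℕ → Set Pt
  | 0, _, _, _ => ∅
  | m + 1, h, w, j => Set.range (fun i => Pt.D m h (pre w (i + j)))

/-- The part of a basic neighbourhood of `L n h w` lying in level `n`. -/
def B (n h : ℕ) (w : ℕ → ℕ) (j : ℕ) : Set Pt :=
  Set.range (fun i => Pt.D n (hd h) (tl h ++ [e' (pre w (i + j))]))

/-- The basic neighbourhoods of `L n h w`. -/
def Nb (j n h : ℕ) (w : ℕ → ℕ) : Set Pt :=
  insert (Pt.L n h w) (B n h w j) ∪ insert (Pt.L n h w) (A n h w j)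

/-- The basic neighbourhoods of `z`. -/
def U (n : ℕ) : Set Pt := {p | match p with
  | Pt.z => True
  | Pt.D m _ _ => n ≤ m
  | Pt.L m _ _ => n < m}

/-- The closed sets around `z`. -/
def Zs (n : ℕ) : Set Pt := {p | match p with
  | Pt.z => True
  | Pt.D m _ _ => n ≤ m
  | Pt.L m _ _ => n ≤ m}

lemma z_mem_U (n : ℕ) : Pt.z ∈ U n := trivial
lemma D_mem_U (n m h : ℕ) (l : List ℕ) : Pt.D m h l ∈ U n ↔ n ≤ m := Iff.rfl
lemma L_mem_U (n m h : ℕ) (w : ℕ → ℕ) : Pt.L m h w ∈ U n ↔ n < m := Iff.rfl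
lemma z_mem_Zs (n : ℕ) : Pt.z ∈ Zs n := trivial
lemma D_mem_Zs (n m h : ℕ) (l : List ℕ) : Pt.D m h l ∈ Zs n ↔ n ≤ m := Iff.rfl
lemma L_mem_Zs (n m h : ℕ) (w : ℕ → ℕ) : Pt.L m h w ∈ Zs n ↔ n ≤ m := Iff.rfl

lemma isO_U (n : ℕ) : IsO (U n) := by
  refine ⟨fun _ => ⟨n, fun m hm => ⟨fun h l => hm, fun h w => ?_⟩⟩, ?_, ?_⟩
  · rw [L_mem_U]; omega
  · intro m h w hm
    rw [L_mem_U] at hm
    refine Eventually.of_forall fun i => ?_
    rw [D_mem_U]; omega
  · intro m h w hm
    rw [L_mem_U] at hm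
    refine Eventually.of_forall fun i => ?_
    rw [D_mem_U]; omega

lemma z_not_mem_Nb (j n h : ℕ) (w : ℕ → ℕ) : Pt.z ∉ Nb j n h w := by
  rintro ((h1 | ⟨i, h1⟩) | (h1 | h1))
  · cases h1
  · cases h1
  · cases h1
  · cases n with
    | zero => exact h1
    | succ m => obtain ⟨i, h1⟩ := h1; cases h1

lemma L_mem_Nb (j n h : ℕ) (w : ℕ → ℕ) (n' h' : ℕ) (w' : ℕ → ℕ) :
    Pt.L n' h' w' ∈ Nb j n h w ↔ Pt.L n' h' w' = Pt.L n h w := by
  constructor
  · rintro ((h1 | ⟨i, h1⟩) | (h1 | h1))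
    · exact h1
    · cases h1
    · exact h1
    · cases n with
      | zero => exact absurd h1 (by simp [A])
      | succ m => obtain ⟨i, h1⟩ := h1; cases h1
  · intro h1; exact Or.inl (Or.inl h1)

lemma isO_Nb (j n h : ℕ) (w : ℕ → ℕ) : IsO (Nb j n h w) := by
  refine ⟨fun hz => absurd hz (z_not_mem_Nb _ _ _ _), ?_, ?_⟩
  · intro n' h' w' hm
    rw [L_mem_Nb] at hm
    cases hm
    filter_upwards [eventually_ge_atTop j] with i hi
    exact Or.inl (Or.inr ⟨i - j, by simp only [Nat.sub_add_cancel hi]⟩)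
  · intro n' h' w' hm
    rw [L_mem_Nb] at hm
    cases hm
    filter_upwards [eventually_ge_atTop j] with i hi
    exact Or.inr (Or.inr ⟨i - j, by simp only [Nat.sub_add_cancel hi]⟩)

lemma Nb_subset (O : Set Pt) (hO : IsO O) (n h : ℕ) (w : ℕ → ℕ) (hL : Pt.L n h w ∈ O) :
    ∀ᶠ j in atTop, Nb j n h w ⊆ O := by
  have h1 := hO.2.1 n h w hL
  rw [eventually_atTop] at h1
  obtain ⟨j1, h1⟩ := h1
  have hA : ∀ᶠ j in atTop, A n h w j ⊆ O := by
    cases n with
    | zero => exact Eventually.of_forall fun j => by simp [A]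
    | succ m =>
      have h2 := hO.2.2 m h w hL
      rw [eventually_atTop] at h2
      obtain ⟨j2, h2⟩ := h2
      filter_upwards [eventually_ge_atTop j2] with j hj
      rintro _ ⟨i, rfl⟩
      exact h2 _ (by omega)
  filter_upwards [eventually_ge_atTop j1, hA] with j hj hA
  rintro p ((hp | ⟨i, rfl⟩) | (hp | hp))
  · rw [hp]; exact hL
  · exact h1 _ (by omega)
  · rw [hp]; exact hL
  · exact hA hp

lemma Nb_anti {j j' : ℕ} (hj : j ≤ j') (n h : ℕ) (w : ℕ → ℕ) : Nb j' n h w ⊆ Nb j n h w := by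
  rintro p ((hp | ⟨i, rfl⟩) | (hp | hp))
  · exact Or.inl (Or.inl hp)
  · refine Or.inl (Or.inr ⟨i + (j' - j), ?_⟩)
    have : i + (j' - j) + j = i + j' := by omega
    simp only [this]
  · exact Or.inl (Or.inl hp)
  · cases n with
    | zero => exact hp.elim
    | succ m =>
      obtain ⟨i, rfl⟩ := hp
      refine Or.inr (Or.inr ⟨i + (j' - j), ?_⟩)
      have : i + (j' - j) + j = i + j' := by omega
      simp only [this]

lemma U_subset (O : Set Pt) (hO : IsO O) (hz : Pt.z ∈ O) : ∃ N, U N ⊆ O := by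
  obtain ⟨N, hN⟩ := hO.1 hz
  refine ⟨N, ?_⟩
  intro p hp
  cases p with
  | z => exact hz
  | D m h l => exact (hN m hp).1 h l
  | L m h w =>
    rw [L_mem_U] at hp
    obtain ⟨k, rfl⟩ : ∃ k, m = k + 1 := ⟨m - 1, by omega⟩
    exact (hN k (by omega)).2 h w

lemma tendsto2_B (n h : ℕ) (w : ℕ → ℕ) (j : ℕ) :
    @Tendsto ℕ Pt (fun i => Pt.D n (hd h) (tl h ++ [e' (pre w (i + j))])) atTop
      (@nhds Pt top2 (Pt.L n h w)) := by
  let _ := top2
  have h1 : Tendsto (fun i => Pt.D n (hd h) (tl h ++ [e' (pre w i)])) atTop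
      (𝓝 (Pt.L n h w)) :=
    tendsto_nhds.2 fun s hs hx => (top1_le_top2 s hs).2.1 n h w hx
  exact h1.comp (tendsto_add_atTop_nat j)

lemma tendsto2_A (m h : ℕ) (w : ℕ → ℕ) (j : ℕ) :
    @Tendsto ℕ Pt (fun i => Pt.D m h (pre w (i + j))) atTop
      (@nhds Pt top2 (Pt.L (m + 1) h w)) := by
  let _ := top2
  have h1 : Tendsto (fun i => Pt.D m h (pre w i)) atTop (𝓝 (Pt.L (m + 1) h w)) :=
    tendsto_nhds.2 fun s hs hx => (top1_le_top2 s hs).2.2 m h w hx
  exact h1.comp (tendsto_add_atTop_nat j)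

lemma closed2_Nb (j n h : ℕ) (w : ℕ → ℕ) : @IsClosed Pt top2 (Nb j n h w) := by
  let _ := top2
  have := metrizable_top2
  have h1 : IsCompact (insert (Pt.L n h w) (B n h w j)) :=
    (tendsto2_B n h w j).isCompact_insert_range
  have h2 : IsCompact (insert (Pt.L n h w) (A n h w j)) := by
    cases n with
    | zero => simp [A]
    | succ m => exact (tendsto2_A m h w j).isCompact_insert_range
  exact h1.isClosed.union h2.isClosed

lemma closed2_Zs (n : ℕ) : @IsClosed Pt top2 (Zs n) := by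
  let _ := top2
  rw [← isOpen_compl_iff, isOpen_iff_forall_mem_open]
  intro p hp
  cases p with
  | z => exact absurd (z_mem_Zs n) hp
  | D m h l =>
    refine ⟨CS (Sum.inl (m, h, l)), ?_, (clopen2_CS _).isOpen, rfl⟩
    intro q hq
    have : q = Pt.D m h l := hq
    rw [this]; exact hp
  | L m h w =>
    refine ⟨CS (Sum.inr (m, h, [])), ?_, (clopen2_CS _).isOpen, Or.inl ⟨rfl, rfl, rfl⟩⟩
    rw [Set.mem_compl_iff, L_mem_Zs] at hp
    intro q hq hq2
    have hq' : Cp m h [] q := hq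
    cases q with
    | z => exact hq'
    | D m' h' l' =>
      rw [mem_D_iff] at hq'
      rw [D_mem_Zs] at hq2
      rcases hq' with ⟨h1, _⟩ | ⟨h1, _⟩ | ⟨k, h1, _⟩ <;> omega
    | L m' h' w' =>
      rw [mem_L_iff] at hq'
      rw [L_mem_Zs] at hq2
      rcases hq' with ⟨h1, _⟩ | ⟨k, h1, _⟩ <;> omega

lemma closed2_sing (n h : ℕ) (l : List ℕ) : @IsClosed Pt top2 {Pt.D n h l} :=
  (clopen2_CS (Sum.inl (n, h, l))).1

lemma good_nhds (p : Pt) (O : Set Pt) (hO : @IsOpen Pt top1 O) (hp : p ∈ O) :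
    ∃ D : Set Pt, @IsOpen Pt top1 D ∧ p ∈ D ∧ @closure Pt top2 D ⊆ O := by
  let _ := top2
  cases p with
  | z =>
    obtain ⟨N, hN⟩ := U_subset O hO hp
    refine ⟨U (N + 1), isO_U _, z_mem_U _, ?_⟩
    have h1 : closure (U (N + 1)) ⊆ Zs (N + 1) := by
      refine closure_minimal ?_ (closed2_Zs _)
      intro q hq
      cases q with
      | z => exact z_mem_Zs _
      | D m h l => exact hq
      | L m h w => exact le_of_lt ((L_mem_U _ _ _ _).1 hq)
    refine h1.trans (subset_trans ?_ hN)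
    intro q hq
    cases q with
    | z => exact z_mem_U _
    | D m h l => rw [D_mem_Zs] at hq; rw [D_mem_U]; omega
    | L m h w => rw [L_mem_Zs] at hq; rw [L_mem_U]; omega
  | D n h l =>
    refine ⟨{Pt.D n h l}, (clopen_singleton n h l).2, rfl, ?_⟩
    rw [(closed2_sing n h l).closure_eq]
    simpa using hp
  | L n h w =>
    obtain ⟨j, hj⟩ := (Nb_subset O hO n h w hp).exists
    refine ⟨Nb j n h w, isO_Nb _ _ _ _, (L_mem_Nb _ _ _ _ _ _ _).2 rfl, ?_⟩
    rw [(closed2_Nb j n h w).closure_eq]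
    exact hj

lemma regular_top1 : @RegularSpace Pt top1 := by
  let _ := top1
  refine RegularSpace.of_exists_mem_nhds_isClosed_subset fun p s hs => ?_
  obtain ⟨O, hO1, hO2, hO3⟩ := mem_nhds_iff.1 hs
  obtain ⟨D, hD1, hD2, hD3⟩ := good_nhds p O hO2 hO3
  refine ⟨@closure Pt top2 D, ?_, ?_, hD3.trans hO1⟩
  · exact Filter.mem_of_superset (hD1.mem_nhds hD2) (@subset_closure Pt top2 D)
  · have h1 : @IsOpen Pt top2 (@closure Pt top2 D)ᶜ :=
      (@isOpen_compl_iff Pt (@closure Pt top2 D) top2).2 (@isClosed_closure Pt top2 D)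
    exact isOpen_compl_iff.1 (top1_le_top2 _ h1)

/-- The development. -/
def G (i : ℕ) : Set (Set Pt) :=
  {S | (∃ n h l, S = {Pt.D n h l}) ∨ (∃ n h w, S = Nb i n h w) ∨ S = U i}

lemma mem_G (i : ℕ) (S : Set Pt) :
    S ∈ G i ↔ (∃ n h l, S = {Pt.D n h l}) ∨ (∃ n h w, S = Nb i n h w) ∨ S = U i := Iff.rfl

lemma dev_open (i : ℕ) (S : Set Pt) (hS : S ∈ G i) : @IsOpen Pt top1 S := by
  rcases hS with ⟨n, h, l, rfl⟩ | ⟨n, h, w, rfl⟩ | rfl
  · exact (clopen_singleton n h l).2
  · exact isO_Nb _ _ _ _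
  · exact isO_U _

lemma dev_cover (i : ℕ) : ⋃₀ G i = Set.univ := by
  refine Set.eq_univ_of_forall fun p => ?_
  cases p with
  | z => exact ⟨U i, Or.inr (Or.inr rfl), z_mem_U _⟩
  | D n h l => exact ⟨{Pt.D n h l}, Or.inl ⟨n, h, l, rfl⟩, rfl⟩
  | L n h w => exact ⟨Nb i n h w, Or.inr (Or.inl ⟨n, h, w, rfl⟩), (L_mem_Nb _ _ _ _ _ _ _).2 rfl⟩

lemma dev_star (p : Pt) (O : Set Pt) (hO : @IsOpen Pt top1 O) (hp : p ∈ O) :
    ∃ i : ℕ, ⋃₀ {S ∈ G i | p ∈ S} ⊆ O := by
  cases p with
  | z =>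
    obtain ⟨N, hN⟩ := U_subset O hO hp
    refine ⟨N, Set.sUnion_subset ?_⟩
    rintro S ⟨hS, hzS⟩
    rcases hS with ⟨n, h, l, rfl⟩ | ⟨n, h, w, rfl⟩ | rfl
    · cases hzS
    · exact absurd hzS (z_not_mem_Nb _ _ _ _)
    · exact hN
  | L n h w =>
    obtain ⟨i, h1, h2⟩ := ((Nb_subset O hO n h w hp).and (eventually_ge_atTop n)).exists
    refine ⟨i, Set.sUnion_subset ?_⟩
    rintro S ⟨hS, hzS⟩
    rcases hS with ⟨n', h', l, rfl⟩ | ⟨n', h', w', rfl⟩ | rfl
    · cases hzS
    · rw [L_mem_Nb] at hzS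
      cases hzS
      exact h1
    · rw [L_mem_U] at hzS
      omega
  | D n h l =>
    refine ⟨n + l.length + (e'.symm (l.getLastD 0)).length + 1, Set.sUnion_subset ?_⟩
    rintro S ⟨hS, hzS⟩
    rcases hS with ⟨n', h', l, rfl⟩ | ⟨n', h', w', rfl⟩ | rfl
    · cases hzS
      simpa using hp
    · exfalso
      rcases hzS with (h1 | ⟨i, h1⟩) | (h1 | h1)
      · cases h1
      · simp only [Pt.D.injEq] at h1
        obtain ⟨_, _, h1⟩ := h1
        have h2 := congrArg (fun x => (e'.symm (x.getLastD 0)).length) h1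
        simp only [List.getLastD_concat, Equiv.symm_apply_apply, length_pre] at h2
        omega
      · cases h1
      · cases n' with
        | zero => exact h1
        | succ m =>
          obtain ⟨i, h1⟩ := h1
          simp only [Pt.D.injEq] at h1
          obtain ⟨_, _, h1⟩ := h1
          have h3 := congrArg List.length h1
          simp only [length_pre] at h3
          omega
    · rw [D_mem_U] at hzS
      omega

/-- The key propagation step. -/
lemma propagate (f : Pt → ℝ) (hf : @Continuous Pt ℝ top1 _ f)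
    (h0 : ∀ h w, f (Pt.L 0 h w) = 1) (n : ℕ) :
    ∀ h l, ∃ s, 1 / 2 + 1 / ((n : ℝ) + 3) < f (Pt.D n h (l ++ [s])) := by
  let _ := top1
  have hB : ∀ n h w, Tendsto (fun i => f (Pt.D n (hd h) (tl h ++ [e' (pre w i)]))) atTop
      (𝓝 (f (Pt.L n h w))) := by
    intro n h w
    have h1 : Tendsto (fun i => Pt.D n (hd h) (tl h ++ [e' (pre w i)])) atTop
        (𝓝 (Pt.L n h w)) :=
      tendsto_nhds.2 fun s hs hx => hs.2.1 n h w hx
    exact (hf.tendsto _).comp h1
  have hA : ∀ n h w, Tendsto (fun i => f (Pt.D n h (pre w i))) atTop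
      (𝓝 (f (Pt.L (n + 1) h w))) := by
    intro n h w
    have h1 : Tendsto (fun i => Pt.D n h (pre w i)) atTop
        (𝓝 (Pt.L (n + 1) h w)) :=
      tendsto_nhds.2 fun s hs hx => hs.2.2 n h w hx
    exact (hf.tendsto _).comp h1
  have hstep : ∀ (n : ℕ) (h : ℕ) (l : List ℕ) (c : ℝ) (w : ℕ → ℕ),
      c < f (Pt.L n (e (h, l)) w) → ∃ s, c < f (Pt.D n h (l ++ [s])) := by
    intro n h l c w hc
    obtain ⟨i, hi⟩ := ((hB n (e (h, l)) w).eventually_const_lt hc).exists
    refine ⟨e' (pre w i), ?_⟩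
    simpa [hd, tl] using hi
  induction n with
  | zero =>
    intro h l
    refine hstep 0 h l _ (fun _ => 0) ?_
    rw [h0]; norm_num
  | succ n ih =>
    intro h l
    choose g hg using ih (e (h, l))
    -- build the sequence
    let L : ℕ → List ℕ := fun k => Nat.rec [] (fun _ l => l ++ [g l]) k
    have hL0 : L 0 = [] := rfl
    have hLs : ∀ k, L (k + 1) = L k ++ [g (L k)] := fun k => rfl
    let w : ℕ → ℕ := fun k => g (L k)
    have hw : ∀ k, pre w k = L k := by
      intro k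
      induction k with
      | zero => rfl
      | succ k ihk => rw [pre_succ, ihk, hLs]
    have h1 : 1 / 2 + 1 / ((n : ℝ) + 3) ≤ f (Pt.L (n + 1) (e (h, l)) w) := by
      refine ge_of_tendsto (hA n (e (h, l)) w) ?_
      filter_upwards [eventually_ge_atTop 1] with i hi
      obtain ⟨k, rfl⟩ : ∃ k, i = k + 1 := ⟨i - 1, by omega⟩
      rw [hw, hLs]
      exact (hg (L k)).le
    refine hstep (n + 1) h l _ w (lt_of_lt_of_le ?_ h1)
    push_cast
    have h3 : (0 : ℝ) < (n : ℝ) + 3 := by positivity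
    have h4 : (n : ℝ) + 3 < (n : ℝ) + 1 + 3 := by linarith
    have := one_div_lt_one_div_of_lt h3 h4
    linarith

lemma not_completelyRegular : ¬ @CompletelyRegularSpace Pt top1 := by
  let _ := top1
  intro hcr
  have hK : IsClosed {p : Pt | ∃ h w, p = Pt.L 0 h w} := by
    have h1 : {p : Pt | ∃ h w, p = Pt.L 0 h w}ᶜ = U 0 := by
      ext p
      cases p with
      | z => simp [z_mem_U]
      | D m h l => simp [D_mem_U]
      | L m h w =>
        rw [L_mem_U, Set.mem_compl_iff, Set.mem_ofPred_eq]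
        constructor
        · intro h1
          by_contra h2
          exact h1 ⟨h, w, by rw [show m = 0 by omega]⟩
        · rintro h1 ⟨h', w', h2⟩
          cases h2
          omega
    rw [← isOpen_compl_iff, h1]
    exact isO_U 0
  obtain ⟨f, hf, hfz, hfK⟩ := hcr.completely_regular Pt.z _ hK (by simp)
  let F : Pt → ℝ := fun p => (f p : ℝ)
  have hF : Continuous F := continuous_subtype_val.comp hf
  have hF0 : ∀ h w, F (Pt.L 0 h w) = 1 := by
    intro h w
    have := hfK (show Pt.L 0 h w ∈ {p : Pt | ∃ h w, p = Pt.L 0 h w} from ⟨h, w, rfl⟩)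
    simp [F, this]
  have h1 : ∀ n : ℕ, ∃ s, (1 / 2 : ℝ) < F (Pt.D n 0 ([] ++ [s])) := by
    intro n
    obtain ⟨s, hs⟩ := propagate F hF hF0 n 0 []
    refine ⟨s, lt_trans ?_ hs⟩
    have : (0 : ℝ) < 1 / ((n : ℝ) + 3) := by positivity
    linarith
  have hO : IsOpen (F ⁻¹' Set.Iio (1 / 2)) := isOpen_Iio.preimage hF
  have hz : Pt.z ∈ F ⁻¹' Set.Iio (1 / 2) := by
    simp [F, hfz]
  obtain ⟨N, hN⟩ := hO.1 hz
  obtain ⟨s, hs⟩ := h1 N
  have h2 := (hN N le_rfl).1 0 ([] ++ [s])
  simp only [Set.mem_preimage, Set.mem_Iio] at h2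
  linarith

/-- The negation of the preceding statement: Every regular developable space X is completely regular if it has a coarser metrizable topology t₂ such that each point p in an open set O has an open D around p whose t₂-closure lies in O. -/
theorem result :
    ¬ (∀ (X : Type) (t : TopologicalSpace X),
      @RegularSpace X t →
      (∃ G : ℕ → Set (Set X),
          (∀ n : ℕ, ∀ U ∈ G n, @IsOpen X t U) ∧
          (∀ n : ℕ, ⋃₀ G n = Set.univ) ∧
          ∀ x : X, ∀ O : Set X, @IsOpen X t O → x ∈ O →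
            ∃ n : ℕ, ⋃₀ {U ∈ G n | x ∈ U} ⊆ O) →
      (∃ t₂ : TopologicalSpace X, t ≤ t₂ ∧
          @TopologicalSpace.MetrizableSpace X t₂ ∧
          ∀ p : X, ∀ O : Set X, @IsOpen X t O → p ∈ O →
            ∃ D : Set X, @IsOpen X t D ∧ p ∈ D ∧ @closure X t₂ D ⊆ O) →
      @CompletelyRegularSpace X t) := by
  intro H
  exact not_completelyRegular (H Pt top1 regular_top1
    ⟨G, dev_open, dev_cover, dev_star⟩
    ⟨top2, top1_le_top2, metrizable_top2, good_nhds⟩)

end Pool.Agent.S08668
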