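-- Proof of statement S08671 (MP_8df793_gt): exponent -2 works. The body is bounded by an
-- invariant curve of the two chord maps; see the helper modules.
import Pool.Statements.S08671
import Pool.Agent.Helper82.Geo

set_option autoImplicit false
open Pool Pool.MP_8df793_gt

namespace Pool.Agent.S08671

/-- There is a real α other than −1 and 0 and a compact convex plane region with two distinct interior points, each having ∣x−p∣^α + ∣y−p∣^α constant over all boundary chords [x,y] through it. -/
theorem result :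
    ∃ α : ℝ, α ≠ -1 ∧ α ≠ 0 ∧
      ∃ K : Set (EuclideanSpace ℝ (Fin 2)),
        Convex ℝ K ∧ IsCompact K ∧ (interior K).Nonempty ∧
        ∃ p q : EuclideanSpace ℝ (Fin 2),
          p ∈ interior K ∧ q ∈ interior K ∧ p ≠ q ∧
          (∃ c : ℝ, ∀ x ∈ frontier K, ∀ y ∈ frontier K,
              p ∈ segment ℝ x y → dist x p ^ α + dist y p ^ α = c) ∧
          (∃ c : ℝ, ∀ x ∈ frontier K, ∀ y ∈ frontier K,
              q ∈ segment ℝ x y → dist x q ^ α + dist y q ^ α = c) := by
  refine ⟨-2, by norm_num, by norm_num, Pool.Agent.Helper82.KK, Pool.Agent.Helper82.KK_convex,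
    Pool.Agent.Helper82.KK_compact, ⟨_, Pool.Agent.Helper82.p0_int⟩,
    Pool.Agent.Helper82.p0, Pool.Agent.Helper82.q0, Pool.Agent.Helper82.p0_int,
    Pool.Agent.Helper82.q0_int, ?_, ⟨8, ?_⟩, ⟨8, ?_⟩⟩
  · intro h
    have h2 := congrArg (fun z : EuclideanSpace ℝ (Fin 2) => z 0) h
    simp [Pool.Agent.Helper82.p0, Pool.Agent.Helper82.q0] at h2
    norm_num at h2
  · intro x hx y hy h
    exact Pool.Agent.Helper82.chord_p0 x y hx hy h
  · intro x hx y hy h
    exact Pool.Agent.Helper82.chord_q0 x y hx hy h

end Pool.Agent.S08671
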