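import Pool.Statements.S08673
import Pool.Agent.Helper535.Y2

set_option autoImplicit false
open Pool Pool.MP_8e7252_gt

namespace Pool.Agent.S08673

/-- If a compact Hausdorff X is splittable over Eberlein compacta (every subset A is f⁻¹f(A) for some continuous f onto a space embedding in c₀(Γ) pointwise), then so is every Hausdorff continuous image of X. -/
theorem result :
    ∀ (X : Type) [TopologicalSpace X] [CompactSpace X] [T2Space X],
      (∀ A : Set X, ∃ (Y : Type) (_ : TopologicalSpace Y) (f : X → Y),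
        Continuous f ∧ CompactSpace Y ∧
        (∃ (Γ : Type) (e : Y → Γ → ℝ), Topology.IsEmbedding e ∧
          ∀ y : Y, ∀ ε : ℝ, 0 < ε → {γ : Γ | ε ≤ |e y γ|}.Finite) ∧
        f ⁻¹' (f '' A) = A) →
      ∀ (Z : Type) [TopologicalSpace Z] [T2Space Z] (g : X → Z),
        Continuous g → Function.Surjective g →
        ∀ B : Set Z, ∃ (Y : Type) (_ : TopologicalSpace Y) (f : Z → Y),
          Continuous f ∧ CompactSpace Y ∧
          (∃ (Γ : Type) (e : Y → Γ → ℝ), Topology.IsEmbedding e ∧
            ∀ y : Y, ∀ ε : ℝ, 0 < ε → {γ : Γ | ε ≤ |e y γ|}.Finite) ∧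
          f ⁻¹' (f '' B) = B := by
  intro X _ _ _ h Z _ _ g hg hs B
  have hX : Pool.Agent.Helper535.ESplit X := by
    apply Pool.Agent.Helper535.esplit_of
    intro A
    obtain ⟨Y, tY, f, hfc, hY, ⟨Γ, e, he, hf⟩, hfA⟩ := h A
    refine ⟨Γ, fun x => e (f x), he.continuous.comp hfc, fun x ε hε => hf (f x) ε hε, ?_⟩
    intro x hx y hy hxy
    apply hy
    rw [← hfA]
    exact ⟨x, hx, he.injective hxy⟩
  have hcZ : CompactSpace Z := by
    constructor
    have := (isCompact_univ (X := X)).image hg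
    rwa [Set.image_univ, hs.range_eq] at this
  obtain ⟨Γ, e, h1, -, h3⟩ := (hX.eb.image hg hs).embedding
  exact ⟨Z, inferInstance, id, continuous_id, hcZ, ⟨Γ, e, h1, h3⟩, by simp⟩

end Pool.Agent.S08673
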