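import Pool.Statements.S08686
import Pool.Agent.Helper10.Asy.Assembly

set_option autoImplicit false
open Bundle Filter Topology
open scoped Manifold ContDiff
open Pool Pool.MP_92a93b_gt

namespace Pool.Agent.S08686

/-- The negation of the preceding statement: In a complete simply connected smooth Riemannian manifold where every geodesic is minimizing (no conjugate points), any two distinct unit-speed geodesics whose distance tends to 0 as t goes to minus infinity drift infinitely apart as t goes to plus infinity. -/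
theorem result :
    ¬ (∀ (d : ℕ) (M : Type) [MetricSpace M]
    [ChartedSpace (EuclideanSpace ℝ (Fin d)) M]
    [IsManifold (𝓘(ℝ, EuclideanSpace ℝ (Fin d))) ∞ M]
    [RiemannianBundle (fun x : M => TangentSpace (𝓘(ℝ, EuclideanSpace ℝ (Fin d))) x)]
    [IsContMDiffRiemannianBundle (𝓘(ℝ, EuclideanSpace ℝ (Fin d))) ∞
      (EuclideanSpace ℝ (Fin d))
      (fun x : M => TangentSpace (𝓘(ℝ, EuclideanSpace ℝ (Fin d))) x)]
    [IsRiemannianManifold (𝓘(ℝ, EuclideanSpace ℝ (Fin d))) M]
    [CompleteSpace M] [SimplyConnectedSpace M],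
    (∀ γ : ℝ → M,
      (∀ t : ℝ, ∃ ε > 0, ∀ s u : ℝ, |s - t| < ε → |u - t| < ε →
        dist (γ s) (γ u) = |s - u|) →
      ∀ s u : ℝ, dist (γ s) (γ u) = |s - u|) →
    ∀ α β : ℝ → M,
      (∀ t : ℝ, ∃ ε > 0, ∀ s u : ℝ, |s - t| < ε → |u - t| < ε →
        dist (α s) (α u) = |s - u|) →
      (∀ t : ℝ, ∃ ε > 0, ∀ s u : ℝ, |s - t| < ε → |u - t| < ε →
        dist (β s) (β u) = |s - u|) →
      α ≠ β →
      Tendsto (fun t => dist (α t) (β t)) atBot (𝓝 0) →
      Tendsto (fun t => dist (α t) (β t)) atTop atTop) := by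
  intro H
  obtain ⟨P⟩ := Pool.Agent.Helper10.Asy.JA.exists_prof
  obtain ⟨Fl⟩ := Pool.Agent.Helper10.Asy.JB.exists_flow P
  obtain ⟨M, i1, i2, i3, i4, i5, i6, e, hlow, hup0⟩ := Pool.Agent.Helper10.Asy.JM.exists_model P
  have hcomp : CompleteSpace M := Pool.Agent.Helper10.Asy.JN.complete_of_lower P M e hlow
  have hcontr : ContractibleSpace M := e.contractibleSpace
  have hsc : SimplyConnectedSpace M := inferInstance
  have hup1 : ∀ γ : ℝ → ℝ × ℝ × ℝ, P.IsGeod γ → ∀ x y : ℝ, x ≤ y →
      dist (e.symm (Pool.Agent.Helper10.Asy.pos (γ x)))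
        (e.symm (Pool.Agent.Helper10.Asy.pos (γ y))) ≤ y - x := by
    intro γ hγ x y hxy
    have hcγ : Continuous γ := continuous_iff_continuousAt.2 fun x => (hγ x).continuousAt
    have h := hup0 (fun x => Pool.Agent.Helper10.Asy.pos (γ x))
      (fun x => ((P.V (γ x)).1, (P.V (γ x)).2.1)) x y 1 hxy zero_le_one
      (fun z => Pool.Agent.Helper10.Asy.pos_hasDerivAt P hγ z)
      ((continuous_fst.comp ((Pool.Agent.Helper10.Asy.continuous_V P).comp hcγ)).prodMk
        (continuous_fst.comp (continuous_snd.comp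
          ((Pool.Agent.Helper10.Asy.continuous_V P).comp hcγ))))
      (fun z _ => by rw [Pool.Agent.Helper10.Asy.nsq_V]; norm_num)
    simpa using h
  have hup : ∀ γ : ℝ → ℝ × ℝ × ℝ, P.IsGeod γ → ∀ x y : ℝ,
      dist (e.symm (Pool.Agent.Helper10.Asy.pos (γ x)))
        (e.symm (Pool.Agent.Helper10.Asy.pos (γ y))) ≤ |x - y| := by
    intro γ hγ x y
    rcases le_total x y with h | h
    · rw [abs_sub_comm, abs_of_nonneg (by linarith)]
      exact hup1 γ hγ x y h
    · rw [dist_comm, abs_of_nonneg (by linarith)]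
      exact hup1 γ hγ y x h
  have hvert : ∀ s x y : ℝ, dist (e.symm (x, s)) (e.symm (y, s)) = |x - y| := by
    intro s x y
    apply le_antisymm
    · exact hup _ (Pool.Agent.Helper10.Asy.vert_isGeod P s) x y
    · have h1 := hlow (fun q => q.1) contDiff_fst (fun q v => by
        have : fderiv ℝ (fun q : ℝ × ℝ => q.1) q v = v.1 := by
          rw [fderiv_fst]; rfl
        rw [this]
        simp only [Pool.Agent.Helper10.Asy.Prof.nsq]
        nlinarith [sq_nonneg (P.f q * v.2)]) (e.symm (x, s)) (e.symm (y, s))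
      simpa using h1
  have hdist : ∀ t : ℝ, dist (e.symm (t, 0)) (e.symm (t, 1)) ≤ Real.exp (P.L t) := by
    intro t
    have h := hup0 (fun u => (t, u)) (fun _ => (0, 1)) 0 1 (Real.exp (P.L t)) zero_le_one
      (Real.exp_pos _).le (fun x => (hasDerivAt_const x t).prodMk (hasDerivAt_id x))
      continuous_const (fun u hu => by
        simp [Pool.Agent.Helper10.Asy.Prof.nsq, Pool.Agent.Helper10.Asy.Prof.f, P.a_zero u hu])
    simpa using h
  have hmain := H 2 M (Pool.Agent.Helper10.Asy.JO.local_geod P Fl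
    (Pool.Agent.Helper10.Asy.calib_all P Fl) (Pool.Agent.Helper10.Asy.join_all P Fl) M e hlow hup)
    (fun t => e.symm (t, 0)) (fun t => e.symm (t, 1))
    (fun t => ⟨1, one_pos, fun s u _ _ => hvert 0 s u⟩)
    (fun t => ⟨1, one_pos, fun s u _ _ => hvert 1 s u⟩)
    (fun h => by
      have h1 := congrFun h 0
      have h2 := e.symm.injective h1
      simp at h2)
    (by
      refine squeeze_zero (fun t => dist_nonneg) hdist ?_
      exact Real.tendsto_exp_atBot.comp P.L_bot)
  obtain ⟨t, ht⟩ := (hmain.eventually_gt_atTop 1).exists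
  have h1 := hdist t
  have h2 : Real.exp (P.L t) ≤ 1 := by
    rw [Real.exp_le_one_iff]
    exact Pool.Agent.Helper10.Asy.L_nonpos P t
  linarith

end Pool.Agent.S08686
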