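import Pool.Statements.S08694
import Pool.Agent.H380Lind.Final

set_option autoImplicit false
universe u
open Pool Pool.MP_93f147_gt

namespace Pool.Agent.S08694

/-- The negation of the preceding statement: Every topological space that is T1, first countable and Lindelöf has cardinality at most the continuum 2^aleph_0. -/
theorem result :
    ¬ (∀ (X : Type u) [TopologicalSpace X] [T1Space X] [FirstCountableTopology X]
      [LindelofSpace X], Cardinal.mk X ≤ Cardinal.continuum.{u}) := by
  intro h
  haveI : LindelofSpace (Pool.Agent.H380Lind.XX Pool.Agent.H380Lind.iot.{u}) :=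
    Pool.Agent.H380Lind.lindelof _ Pool.Agent.H380Lind.iot_inj
  exact Pool.Agent.H380Lind.big (h (Pool.Agent.H380Lind.XX Pool.Agent.H380Lind.iot.{u}))

end Pool.Agent.S08694
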