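import Pool.Statements.S08698

set_option autoImplicit false
open Pool Pool.MP_94b191_gt

namespace Pool.Agent.S08698

open Set Topology

section Lip


/-- If `K n` are compact sets approaching the compact set `A`, then `A ∪ ⋃ n, K n` is compact. -/
theorem isCompact_union_iUnion {Y : Type*} [PseudoMetricSpace Y] {A : Set Y} {K : ℕ → Set Y}
    {δ : ℕ → ℝ} (hA : IsCompact A) (hK : ∀ n, IsCompact (K n))
    (hδ : Filter.Tendsto δ Filter.atTop (𝓝 0))
    (h : ∀ n, ∀ x ∈ K n, ∃ a ∈ A, dist x a ≤ δ n) : IsCompact (A ∪ ⋃ n, K n) := by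
  rw [isCompact_iff_finite_subcover]
  intro ι U hU hcov
  obtain ⟨t, ht⟩ := hA.elim_finite_subcover U hU (subset_union_left.trans hcov)
  have hVo : IsOpen (⋃ i ∈ t, U i) := isOpen_biUnion fun i _ => hU i
  obtain ⟨η, hη, hη'⟩ := hA.exists_thickening_subset_open hVo ht
  have hev : ∀ᶠ n in Filter.atTop, δ n < η := hδ.eventually (gt_mem_nhds hη)
  obtain ⟨N, hN⟩ := Filter.eventually_atTop.1 hev
  have hfin : IsCompact (⋃ n ∈ Finset.range N, K n) :=
    (Finset.range N).isCompact_biUnion fun n _ => hK n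
  obtain ⟨t', ht'⟩ := hfin.elim_finite_subcover U hU (by
    intro x hx
    simp only [mem_iUnion] at hx
    obtain ⟨n, hn, hx⟩ := hx
    exact hcov (Or.inr (mem_iUnion.2 ⟨n, hx⟩)))
  classical
  refine ⟨t ∪ t', ?_⟩
  rintro x (hx | hx)
  · obtain ⟨i, hi, hxi⟩ := mem_iUnion₂.1 (ht hx)
    exact mem_iUnion₂.2 ⟨i, Finset.mem_union_left _ hi, hxi⟩
  · obtain ⟨n, hn⟩ := mem_iUnion.1 hx
    by_cases hnN : n < N
    · have : x ∈ ⋃ n ∈ Finset.range N, K n := mem_iUnion₂.2 ⟨n, Finset.mem_range.2 hnN, hn⟩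
      obtain ⟨i, hi, hxi⟩ := mem_iUnion₂.1 (ht' this)
      exact mem_iUnion₂.2 ⟨i, Finset.mem_union_right _ hi, hxi⟩
    · obtain ⟨a, ha, hxa⟩ := h n x hn
      have : x ∈ Metric.thickening η A := by
        rw [Metric.mem_thickening_iff]
        exact ⟨a, ha, hxa.trans_lt (hN n (not_lt.1 hnN))⟩
      obtain ⟨i, hi, hxi⟩ := mem_iUnion₂.1 (hη' this)
      exact mem_iUnion₂.2 ⟨i, Finset.mem_union_left _ hi, hxi⟩

variable {X : Type*} [PseudoMetricSpace X]

/-- Concatenation of two Lipschitz maps at time `c`. -/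
theorem lipschitz_conc {K : NNReal} {f g : ℝ → X} (hf : LipschitzWith K f)
    (hg : LipschitzWith K g) (c : ℝ) (h : f c = g 0) :
    LipschitzWith K (fun t : ℝ => if t ≤ c then f t else g (t - c)) := by
  have key : ∀ s t : ℝ, s ≤ t → dist (if s ≤ c then f s else g (s - c))
      (if t ≤ c then f t else g (t - c)) ≤ K * dist s t := by
    intro s t hst
    by_cases hs : s ≤ c
    · by_cases ht : t ≤ c
      · rw [if_pos hs, if_pos ht]; exact hf.dist_le_mul s t
      · rw [if_pos hs, if_neg ht]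
        have h1 := hf.dist_le_mul s c
        have h2 := hg.dist_le_mul 0 (t - c)
        rw [← h] at h2
        have h3 := dist_triangle (f s) (f c) (g (t - c))
        have e1 : dist s c = c - s := by rw [Real.dist_eq, abs_sub_comm, abs_of_nonneg]; linarith
        have e2 : dist (0 : ℝ) (t - c) = t - c := by
          rw [Real.dist_eq, abs_sub_comm, abs_of_nonneg] <;> linarith
        have e3 : dist s t = t - s := by rw [Real.dist_eq, abs_sub_comm, abs_of_nonneg]; linarith
        rw [e1] at h1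
        rw [e2] at h2
        rw [e3]
        have : (K : ℝ) * (t - s) = K * (c - s) + K * (t - c) := by ring
        linarith
    · have ht : ¬ t ≤ c := by intro h'; exact hs (hst.trans h')
      rw [if_neg hs, if_neg ht]
      have := hg.dist_le_mul (s - c) (t - c)
      rwa [dist_sub_right] at this
  apply LipschitzWith.of_dist_le_mul
  intro s t
  rcases le_total s t with hst | hst
  · exact key s t hst
  · rw [dist_comm, dist_comm s t]; exact key t s hst

/-- If every point is reached from `e` by a `K`-Lipschitz path then any two points are joined, through any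
third one, by a `4K`-Lipschitz path. -/
theorem exists_lip_through {K : NNReal} {e : X}
    (h : ∀ x : X, ∃ f : ℝ → X, LipschitzWith K f ∧ f 0 = e ∧ f 1 = x) (a b x : X) :
    ∃ f : ℝ → X, LipschitzWith (4 * K) f ∧ f 0 = a ∧ f 1 = b ∧ f (1 / 2) = x := by
  obtain ⟨fa, hfa, fa0, fa1⟩ := h a
  obtain ⟨fb, hfb, fb0, fb1⟩ := h b
  obtain ⟨fx, hfx, fx0, fx1⟩ := h x
  have hrev : ∀ {f : ℝ → X}, LipschitzWith K f → LipschitzWith K (fun t => f (1 - t)) := by
    intro f hf
    apply LipschitzWith.of_dist_le_mul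
    intro s t
    have := hf.dist_le_mul (1 - s) (1 - t)
    rwa [dist_sub_left] at this
  -- g1 : a → e → x on [0,2]
  have hg1 := lipschitz_conc (hrev hfa) hfx 1 (by simp [fa0, fx0])
  have hg2 := lipschitz_conc (hrev hfx) hfb 1 (by simp [fb0, fx0])
  have hg := lipschitz_conc hg1 hg2 2 (by norm_num [fx1])
  refine ⟨_, hg.comp (LipschitzWith.of_dist_le_mul (K := 4) (f := fun t : ℝ => 4 * t) ?_) |>.weaken
    (by rw [mul_comm]), ?_, ?_, ?_⟩
  · intro s t
    rw [Real.dist_eq, Real.dist_eq, ← mul_sub, abs_mul]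
    norm_num
  · norm_num [fa1]
  · norm_num [fb1]
  · norm_num [fx1]

/-- Extend a map which is Lipschitz on the unit interval. -/
theorem exists_lip_of_unit {Y : Type*} [PseudoMetricSpace Y] {S : Set Y} {K : NNReal} {F : ℝ → Y}
    (hF : ∀ s ∈ Icc (0 : ℝ) 1, ∀ t ∈ Icc (0 : ℝ) 1, dist (F s) (F t) ≤ K * |s - t|)
    (hS : ∀ s ∈ Icc (0 : ℝ) 1, F s ∈ S) :
    ∃ f : ℝ → S, LipschitzWith K f ∧ (f 0 : Y) = F 0 ∧ (f 1 : Y) = F 1 := by
  let pr : ℝ → Icc (0 : ℝ) 1 := projIcc 0 1 zero_le_one
  refine ⟨fun t => ⟨F (pr t), hS _ (pr t).2⟩, ?_, ?_, ?_⟩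
  · apply LipschitzWith.of_dist_le_mul
    intro s t
    have h1 := hF (pr s) (pr s).2 (pr t) (pr t).2
    have h2 : |(pr s : ℝ) - pr t| ≤ |s - t| := by
      have := (LipschitzWith.projIcc (zero_le_one : (0 : ℝ) ≤ 1)).dist_le_mul s t
      simpa [Subtype.dist_eq, Real.dist_eq] using this
    calc dist (F (pr s)) (F (pr t)) ≤ K * |(pr s : ℝ) - pr t| := h1
      _ ≤ K * dist s t := by
        rw [Real.dist_eq]
        exact mul_le_mul_of_nonneg_left h2 K.2
  · simp [pr]
  · simp [pr]

/-- Connectedness from Lipschitz paths. -/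
theorem connectedSpace_of_lip {K : NNReal} {e : X}
    (h : ∀ x : X, ∃ f : ℝ → X, LipschitzWith K f ∧ f 0 = e ∧ f 1 = x) : ConnectedSpace X := by
  have : PreconnectedSpace X := by
    constructor
    apply isPreconnected_of_forall e
    intro x _
    obtain ⟨f, hf, f0, f1⟩ := h x
    exact ⟨range f, subset_univ _, ⟨0, f0⟩, ⟨1, f1⟩, isPreconnected_range hf.continuous⟩
  exact { this with toNonempty := ⟨e⟩ }


end Lip

section Example

/-- ambient space -/
abbrev E3 : Type := ℝ × ℝ × ℝ

noncomputable def gg (n : ℕ) (s : ℝ) : ℝ := s * (1 - s) / ((n : ℝ) + 1) ^ 2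

noncomputable def ph (n : ℕ) (s : ℝ) : ℝ := (1 - Real.cos ((2 * n + 1) * Real.pi * s)) / 2

/-- the long arc -/
noncomputable def LL (n : ℕ) (s : ℝ) : E3 := (ph n s, gg n s, gg n s * (n + s))

noncomputable def bot (n i : ℕ) : ℝ := 2 * i / (2 * n + 1)

noncomputable def top (n j : ℕ) : ℝ := (2 * j + 1) / (2 * n + 1)

/-- the short arcs -/
noncomputable def SS (n i : ℕ) (t : ℝ) : E3 :=
  (0, t * gg n (bot n i), t * (gg n (bot n i) * (n + bot n i)))

def AA : Set E3 := (fun y : ℝ => ((y, 0, 0) : E3)) '' Icc 0 1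

def KK (n : ℕ) : Set E3 := LL n '' Icc 0 1 ∪ ⋃ i ∈ Finset.Icc 1 n, SS n i '' Icc 0 1

def XX : Set E3 := AA ∪ ⋃ n, KK n

theorem ph_cont (n : ℕ) : Continuous (ph n) := by unfold ph; fun_prop
theorem gg_cont (n : ℕ) : Continuous (gg n) := by unfold gg; fun_prop
theorem LL_cont (n : ℕ) : Continuous (LL n) := by unfold LL ph gg; fun_prop
theorem SS_cont (n i : ℕ) : Continuous (SS n i) := by unfold SS; fun_prop

theorem bot_mem {n i : ℕ} (h : i ≤ n) : bot n i ∈ Ico (0 : ℝ) 1 := by
  unfold bot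
  have h' : (i : ℝ) ≤ n := by exact_mod_cast h
  have hi : (0 : ℝ) ≤ i := Nat.cast_nonneg i
  constructor
  · positivity
  · rw [div_lt_one (by positivity)]; linarith

theorem bot_pos {n i : ℕ} (h1 : 1 ≤ i) : 0 < bot n i := by
  unfold bot
  have h' : (1 : ℝ) ≤ i := by exact_mod_cast h1
  positivity

theorem ph_bot (n i : ℕ) : ph n (bot n i) = 0 := by
  unfold ph bot
  have h : (2 * (n : ℝ) + 1) * Real.pi * (2 * i / (2 * n + 1)) = i * (2 * Real.pi) := by
    field_simp
  rw [h, Real.cos_nat_mul_two_pi]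
  norm_num

theorem ph_top (n j : ℕ) : ph n (top n j) = 1 := by
  unfold ph top
  have h : (2 * (n : ℝ) + 1) * Real.pi * ((2 * j + 1) / (2 * n + 1)) = j * (2 * Real.pi) + Real.pi := by
    field_simp
  rw [h, Real.cos_add_pi, Real.cos_nat_mul_two_pi]
  norm_num

theorem ph_zero (n : ℕ) : ph n 0 = 0 := by simp [ph]

theorem ph_one (n : ℕ) : ph n 1 = 1 := by
  have := ph_top n n
  have h : top n n = 1 := by unfold top; rw [div_self]; positivity
  rwa [h] at this

theorem ph_mem (n : ℕ) (s : ℝ) : ph n s ∈ Icc (0 : ℝ) 1 := by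
  unfold ph
  have h1 := Real.cos_le_one ((2 * n + 1) * Real.pi * s)
  have h2 := Real.neg_one_le_cos ((2 * n + 1) * Real.pi * s)
  constructor <;> linarith

theorem gg_pos {n : ℕ} {s : ℝ} (h0 : 0 < s) (h1 : s < 1) : 0 < gg n s := by
  unfold gg
  have : 0 < 1 - s := by linarith
  positivity

theorem gg_nonneg {n : ℕ} {s : ℝ} (h : s ∈ Icc (0 : ℝ) 1) : 0 ≤ gg n s := by
  unfold gg
  have h0 := h.1
  have : 0 ≤ 1 - s := by linarith [h.2]
  positivity

theorem gg_le {n : ℕ} {s : ℝ} (h : s ∈ Icc (0 : ℝ) 1) : gg n s ≤ 1 / ((n : ℝ) + 1) ^ 2 := by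
  unfold gg
  apply div_le_div_of_nonneg_right _ (by positivity)
  nlinarith [h.1, h.2]

theorem LL_zero (n : ℕ) : LL n 0 = (0, 0, 0) := by simp [LL, gg, ph_zero]
theorem LL_one (n : ℕ) : LL n 1 = (1, 0, 0) := by simp [LL, gg, ph_one]

theorem LL_mem {n : ℕ} {s : ℝ} (h : s ∈ Icc (0 : ℝ) 1) : LL n s ∈ XX :=
  Or.inr (mem_iUnion.2 ⟨n, Or.inl ⟨s, h, rfl⟩⟩)

theorem SS_mem {n i : ℕ} (hi : i ∈ Finset.Icc 1 n) {t : ℝ} (h : t ∈ Icc (0 : ℝ) 1) :
    SS n i t ∈ XX :=
  Or.inr (mem_iUnion.2 ⟨n, Or.inr (mem_iUnion₂.2 ⟨i, hi, t, h, rfl⟩)⟩)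

theorem KK_compact (n : ℕ) : IsCompact (KK n) := by
  apply IsCompact.union
  · exact isCompact_Icc.image (LL_cont n)
  · exact (Finset.Icc 1 n).isCompact_biUnion fun i _ => isCompact_Icc.image (SS_cont n i)

theorem XX_compact : IsCompact XX := by
  apply isCompact_union_iUnion (δ := fun n : ℕ => 1 / ((n : ℝ) + 1))
  · exact isCompact_Icc.image (by fun_prop)
  · exact KK_compact
  · exact tendsto_one_div_add_atTop_nhds_zero_nat
  · intro n x hx
    have hbound : ∀ s ∈ Icc (0 : ℝ) 1, ∀ t ∈ Icc (0 : ℝ) 1, |t * gg n s| ≤ 1 / ((n : ℝ) + 1) ∧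
        |t * (gg n s * (n + s))| ≤ 1 / ((n : ℝ) + 1) := by
      intro s hs t ht
      have h1 := gg_le (n := n) hs
      have h0 := gg_nonneg (n := n) hs
      have hn : (0 : ℝ) ≤ n := Nat.cast_nonneg n
      have h2 : gg n s * ((n : ℝ) + 1) ≤ 1 / ((n : ℝ) + 1) := by
        calc gg n s * ((n : ℝ) + 1) ≤ 1 / ((n : ℝ) + 1) ^ 2 * ((n : ℝ) + 1) := by gcongr
          _ = 1 / ((n : ℝ) + 1) := by field_simp
      constructor
      · rw [abs_of_nonneg (mul_nonneg ht.1 h0)]
        calc t * gg n s ≤ 1 * gg n s := by gcongr; exact ht.2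
          _ ≤ gg n s * ((n : ℝ) + 1) := by nlinarith
          _ ≤ _ := h2
      · have h3 : 0 ≤ gg n s * (n + s) := mul_nonneg h0 (by linarith [hs.1])
        rw [abs_of_nonneg (mul_nonneg ht.1 h3)]
        calc t * (gg n s * (n + s)) ≤ 1 * (gg n s * (n + s)) := by gcongr; exact ht.2
          _ ≤ gg n s * ((n : ℝ) + 1) := by rw [one_mul]; gcongr; exact hs.2
          _ ≤ _ := h2
    rcases hx with ⟨s, hs, rfl⟩ | hx
    · refine ⟨(ph n s, 0, 0), ⟨ph n s, ph_mem n s, rfl⟩, ?_⟩
      have := hbound s hs 1 (by simp)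
      simp only [one_mul] at this
      simp only [LL, Prod.dist_eq, Real.dist_eq, sub_self, abs_zero, sub_zero]
      exact max_le (by positivity) (max_le this.1 this.2)
    · obtain ⟨i, hi, t, ht, rfl⟩ := mem_iUnion₂.1 hx
      refine ⟨(0, 0, 0), ⟨0, by simp, rfl⟩, ?_⟩
      have := hbound (bot n i) (Ico_subset_Icc_self (bot_mem (Finset.mem_Icc.1 hi).2)) t ht
      simp only [SS, Prod.dist_eq, Real.dist_eq, sub_self, abs_zero, sub_zero]
      exact max_le (by positivity) (max_le this.1 this.2)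

/-- Points of the example off the segment. -/
theorem mem_XX_pos {x : E3} (hx : x ∈ XX) (hr : 0 < x.2.1) :
    ∃ (n : ℕ) (s : ℝ), s ∈ Ioo (0 : ℝ) 1 ∧ x.2.2 = (n + s) * x.2.1 ∧
      (x = LL n s ∨ ((∃ i ∈ Finset.Icc 1 n, s = bot n i ∧ ∃ t ∈ Icc (0 : ℝ) 1, x = SS n i t) ∧ x.1 = 0)) := by
  rcases hx with ⟨y, hy, rfl⟩ | hx
  · simp at hr
  · obtain ⟨n, hn⟩ := mem_iUnion.1 hx
    rcases hn with ⟨s, hs, rfl⟩ | hn
    · have h0 : s ≠ 0 := by rintro rfl; simp [LL, gg] at hr
      have h1 : s ≠ 1 := by rintro rfl; simp [LL, gg] at hr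
      refine ⟨n, s, ⟨lt_of_le_of_ne hs.1 h0.symm, lt_of_le_of_ne hs.2 h1⟩, ?_, Or.inl rfl⟩
      simp only [LL]; ring
    · obtain ⟨i, hi, t, ht, rfl⟩ := mem_iUnion₂.1 hn
      have hi' := Finset.mem_Icc.1 hi
      refine ⟨n, bot n i, ⟨bot_pos hi'.1, (bot_mem hi'.2).2⟩, ?_,
        Or.inr ⟨⟨i, hi, rfl, t, ht, rfl⟩, rfl⟩⟩
      simp only [SS]; ring

theorem slope_unique {n m : ℕ} {s c : ℝ} (hs : s ∈ Ioo (0 : ℝ) 1) (hc : c ∈ Ioo (0 : ℝ) 1)
    (h : (n : ℝ) + s = m + c) : n = m ∧ s = c := by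
  have h1 : (n : ℝ) < m + 1 := by linarith [hs.1, hc.2]
  have h2 : (m : ℝ) < n + 1 := by linarith [hs.2, hc.1]
  have h1' : n < m + 1 := by exact_mod_cast h1
  have h2' : m < n + 1 := by exact_mod_cast h2
  have : n = m := by omega
  subst this
  exact ⟨rfl, by linarith⟩

/-- the sector sets -/
def QQ (n : ℕ) (c : ℝ) : Set E3 := {x | 0 < x.2.1 ∧ n * x.2.1 < x.2.2 ∧ x.2.2 < (n + c) * x.2.1}

theorem QQ_open (n : ℕ) (c : ℝ) : IsOpen (QQ n c) := by
  have h1 : IsOpen {x : E3 | 0 < x.2.1} := isOpen_lt continuous_const (by fun_prop)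
  have h2 : IsOpen {x : E3 | n * x.2.1 < x.2.2} := isOpen_lt (by fun_prop) (by fun_prop)
  have h3 : IsOpen {x : E3 | x.2.2 < (n + c) * x.2.1} := isOpen_lt (by fun_prop) (by fun_prop)
  exact h1.inter (h2.inter h3)

/-- Separation lemma. -/
theorem sep_lemma (n : ℕ) {c : ℝ} (hc : c ∈ Ioo (0 : ℝ) 1) {B : Set E3} (hBX : B ⊆ XX)
    (hB : IsPreconnected B) {u v : E3} (huB : u ∈ B) (hvB : v ∈ B) (hu : u ∈ QQ n c)
    (hv : v ∉ QQ n c) :
    ∃ x ∈ B, x = (0, 0, 0) ∨ (0 < x.2.1 ∧ x.2.2 = (n + c) * x.2.1) := by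
  classical
  by_contra hcon
  push Not at hcon
  let T : Finset ℕ := (Finset.Icc 1 n).filter fun i => bot n i ≤ c
  let C : Set E3 := LL n '' Icc 0 c ∪ ⋃ i ∈ T, SS n i '' Icc 0 1
  have hC : IsCompact C := by
    apply IsCompact.union
    · exact isCompact_Icc.image (LL_cont n)
    · exact T.isCompact_biUnion fun i _ => isCompact_Icc.image (SS_cont n i)
  -- points of X in QQ are in C
  have h1 : ∀ x ∈ XX, x ∈ QQ n c → x ∈ C := by
    intro x hxX hx
    obtain ⟨m, s, hs, hw, hor⟩ := mem_XX_pos hxX hx.1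
    have hr := hx.1
    have e1 : (n : ℝ) < m + s := by
      have := hx.2.1
      rw [hw] at this
      exact lt_of_mul_lt_mul_right this hr.le
    have e2 : (m : ℝ) + s < n + c := by
      have := hx.2.2
      rw [hw] at this
      exact lt_of_mul_lt_mul_right this hr.le
    have hmn : m = n := by
      have h1 : (n : ℝ) < m + 1 := by linarith [hs.2]
      have h2 : (m : ℝ) < n + 1 := by linarith [hs.1, hc.2]
      have h1' : n < m + 1 := by exact_mod_cast h1
      have h2' : m < n + 1 := by exact_mod_cast h2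
      omega
    subst hmn
    have hsc : s < c := by linarith
    rcases hor with rfl | ⟨⟨i, hi, hsi, t, ht, rfl⟩, -⟩
    · exact Or.inl ⟨s, ⟨hs.1.le, hsc.le⟩, rfl⟩
    · exact Or.inr (mem_iUnion₂.2 ⟨i, Finset.mem_filter.2 ⟨hi, by rw [← hsi]; exact hsc.le⟩, t, ht, rfl⟩)
  -- points of C are in QQ, or the origin, or on the boundary ray
  have h2 : ∀ x ∈ C, x ∈ QQ n c ∨ x = (0, 0, 0) ∨ (0 < x.2.1 ∧ x.2.2 = (n + c) * x.2.1) := by
    intro x hx
    rcases hx with ⟨s, hs, rfl⟩ | hx
    · rcases eq_or_lt_of_le hs.1 with h0 | h0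
      · rw [← h0]; right; left; exact LL_zero n
      · have hg := gg_pos (n := n) h0 (hs.2.trans_lt hc.2)
        rcases eq_or_lt_of_le hs.2 with h3 | h3
        · right; right
          refine ⟨hg, ?_⟩
          simp only [LL]; rw [h3]; ring
        · left
          refine ⟨hg, ?_, ?_⟩
          · simp only [LL]; nlinarith
          · simp only [LL]; nlinarith
    · obtain ⟨i, hi, t, ht, rfl⟩ := mem_iUnion₂.1 hx
      obtain ⟨hi1, hi2⟩ := Finset.mem_filter.1 hi
      have hi' := Finset.mem_Icc.1 hi1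
      have hb0 := bot_pos (n := n) hi'.1
      have hg := gg_pos (n := n) hb0 (bot_mem hi'.2).2
      rcases eq_or_lt_of_le ht.1 with h0 | h0
      · rw [← h0]; right; left; simp [SS]
      · have htg : 0 < t * gg n (bot n i) := mul_pos h0 hg
        rcases eq_or_lt_of_le hi2 with h3 | h3
        · right; right
          refine ⟨htg, ?_⟩
          simp only [SS]; rw [h3]; ring
        · left
          refine ⟨htg, ?_, ?_⟩
          · simp only [SS]; nlinarith
          · simp only [SS]; nlinarith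
  have hcov : B ⊆ QQ n c ∪ Cᶜ := by
    intro x hx
    by_cases hxC : x ∈ C
    · rcases h2 x hxC with h | h | h
      · exact Or.inl h
      · exact absurd h (hcon x hx).1
      · exact absurd h.2 ((hcon x hx).2 h.1)
    · exact Or.inr hxC
  have := hB (QQ n c) Cᶜ (QQ_open n c) hC.isClosed.isOpen_compl hcov ⟨u, huB, hu⟩
    ⟨v, hvB, by
      intro hvC
      rcases h2 v hvC with h | h | h
      · exact hv h
      · exact (hcon v hvB).1 h
      · exact (hcon v hvB).2 h.1 h.2⟩
  obtain ⟨z, hzB, hzQ, hzC⟩ := this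
  exact hzC (h1 z (hBX hzB) hzQ)

theorem gg_lip {n : ℕ} {s t : ℝ} (hs : s ∈ Icc (0 : ℝ) 1) (ht : t ∈ Icc (0 : ℝ) 1) :
    |gg n s - gg n t| ≤ 1 / ((n : ℝ) + 1) ^ 2 * |s - t| := by
  have e : gg n s - gg n t = 1 / ((n : ℝ) + 1) ^ 2 * ((s - t) * (1 - s - t)) := by
    unfold gg; ring
  rw [e, abs_mul, abs_mul, abs_of_nonneg (by positivity : (0 : ℝ) ≤ 1 / ((n : ℝ) + 1) ^ 2)]
  have : |1 - s - t| ≤ 1 := by
    rw [abs_le]; constructor <;> linarith [hs.1, hs.2, ht.1, ht.2]
  have h0 := abs_nonneg (s - t)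
  gcongr
  nlinarith

theorem LL_lip {n : ℕ} {s t : ℝ} (hs : s ∈ Icc (0 : ℝ) 1) (ht : t ∈ Icc (0 : ℝ) 1) :
    dist (LL n s) (LL n t) ≤ 2 * (2 * n + 1) * |s - t| := by
  have hn : (0 : ℝ) ≤ n := Nat.cast_nonneg n
  have h0 := abs_nonneg (s - t)
  have hsq : 1 / ((n : ℝ) + 1) ^ 2 ≤ 1 := by
    rw [div_le_one (by positivity)]; nlinarith
  have hg := gg_lip (n := n) hs ht
  simp only [LL, Prod.dist_eq, Real.dist_eq]
  refine max_le ?_ (max_le ?_ ?_)
  · unfold ph
    have h1 : |Real.cos ((2 * n + 1) * Real.pi * t) - Real.cos ((2 * n + 1) * Real.pi * s)| ≤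
        |(2 * n + 1) * Real.pi * t - (2 * n + 1) * Real.pi * s| := Real.abs_cos_sub_cos_le _ _
    have e1 : (1 - Real.cos ((2 * n + 1) * Real.pi * s)) / 2 -
        (1 - Real.cos ((2 * n + 1) * Real.pi * t)) / 2 =
        (Real.cos ((2 * n + 1) * Real.pi * t) - Real.cos ((2 * n + 1) * Real.pi * s)) / 2 := by ring
    have e2 : (2 * (n : ℝ) + 1) * Real.pi * t - (2 * n + 1) * Real.pi * s =
        ((2 * n + 1) * Real.pi) * (t - s) := by ring
    rw [e1, abs_div, abs_of_pos (by norm_num : (0 : ℝ) < 2)]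
    rw [e2, abs_mul, abs_of_nonneg (by positivity : (0 : ℝ) ≤ (2 * n + 1) * Real.pi),
      abs_sub_comm t s] at h1
    have hpi := Real.pi_le_four
    have : (2 * (n : ℝ) + 1) * Real.pi * |s - t| ≤ (2 * n + 1) * 4 * |s - t| := by gcongr
    linarith
  · calc |gg n s - gg n t| ≤ 1 / ((n : ℝ) + 1) ^ 2 * |s - t| := hg
      _ ≤ 1 * |s - t| := by gcongr
      _ ≤ 2 * (2 * n + 1) * |s - t| := by nlinarith
  · have e : gg n s * (n + s) - gg n t * (n + t) = (gg n s - gg n t) * (n + s) + gg n t * (s - t) := by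
      ring
    rw [e]
    have h1 : |(gg n s - gg n t) * (n + s)| ≤ 1 / ((n : ℝ) + 1) ^ 2 * |s - t| * (n + 1) := by
      have hns : (0 : ℝ) ≤ n + s := by linarith [hs.1]
      rw [abs_mul, abs_of_nonneg hns]
      have := hs.2
      gcongr
    have h2 : |gg n t * (s - t)| ≤ 1 * |s - t| := by
      rw [abs_mul, abs_of_nonneg (gg_nonneg ht)]
      have := (gg_le (n := n) ht).trans hsq
      gcongr
    have h3 : 1 / ((n : ℝ) + 1) ^ 2 * |s - t| * (n + 1) ≤ |s - t| := by
      have : 1 / ((n : ℝ) + 1) ^ 2 * |s - t| * (n + 1) = |s - t| * (1 / (n + 1)) := by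
        field_simp
      rw [this]
      have h5 : 1 / ((n : ℝ) + 1) ≤ 1 := by
        rw [div_le_one (by positivity)]; linarith
      calc |s - t| * (1 / (n + 1)) ≤ |s - t| * 1 := by gcongr
        _ = _ := mul_one _
    calc |(gg n s - gg n t) * (n + s) + gg n t * (s - t)|
        ≤ |(gg n s - gg n t) * (n + s)| + |gg n t * (s - t)| := abs_add_le _ _
      _ ≤ 2 * (2 * n + 1) * |s - t| := by nlinarith

theorem SS_lip {n i : ℕ} (hi : i ≤ n) {s t : ℝ} : dist (SS n i s) (SS n i t) ≤ |s - t| := by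
  have hb := bot_mem hi
  have hb' : bot n i ∈ Icc (0 : ℝ) 1 := Ico_subset_Icc_self hb
  have hn : (0 : ℝ) ≤ n := Nat.cast_nonneg n
  have hg0 := gg_nonneg (n := n) hb'
  have hg1 := gg_le (n := n) hb'
  have h0 := abs_nonneg (s - t)
  have hsq : 1 / ((n : ℝ) + 1) ^ 2 ≤ 1 := by
    rw [div_le_one (by positivity)]; nlinarith
  have h2 : gg n (bot n i) * (n + bot n i) ≤ 1 := by
    have hns : (0 : ℝ) ≤ n + bot n i := by linarith [hb.1]
    calc gg n (bot n i) * (n + bot n i) ≤ 1 / ((n : ℝ) + 1) ^ 2 * (n + 1) := by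
          have := hb.2.le
          gcongr
      _ = 1 / (n + 1) := by field_simp
      _ ≤ 1 := by rw [div_le_one (by positivity)]; linarith
  have h3 : 0 ≤ gg n (bot n i) * (n + bot n i) := mul_nonneg hg0 (by linarith [hb.1])
  simp only [SS, Prod.dist_eq, Real.dist_eq, sub_self, abs_zero]
  refine max_le h0 (max_le ?_ ?_)
  · rw [← sub_mul, abs_mul, abs_of_nonneg hg0]
    calc |s - t| * gg n (bot n i) ≤ |s - t| * 1 := by gcongr; linarith
      _ = _ := mul_one _
  · rw [← sub_mul, abs_mul, abs_of_nonneg h3]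
    calc |s - t| * (gg n (bot n i) * (n + bot n i)) ≤ |s - t| * 1 := by gcongr
      _ = _ := mul_one _

theorem e_mem : ((0, 0, 0) : E3) ∈ XX := Or.inl ⟨0, by simp, rfl⟩
theorem b_mem : ((1, 0, 0) : E3) ∈ XX := Or.inl ⟨1, by simp, rfl⟩

/-- Every point of the example is reached from `e` by an 8-Lipschitz path. -/
theorem lip_paths (x : XX) : ∃ f : ℝ → XX, LipschitzWith 8 f ∧ f 0 = ⟨_, e_mem⟩ ∧ f 1 = x := by
  obtain ⟨x, hx⟩ := x
  rcases hx with ⟨y, hy, rfl⟩ | hx
  · obtain ⟨f, hf, f0, f1⟩ := exists_lip_of_unit (K := 8) (S := XX)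
      (F := fun t => ((t * y, 0, 0) : E3))
      (by
        intro s _ t _
        simp only [Prod.dist_eq, Real.dist_eq, sub_self, abs_zero]
        have h0 := abs_nonneg (s - t)
        refine max_le ?_ (max_le (by simp) (by simp))
        rw [← sub_mul, abs_mul, abs_of_nonneg hy.1]
        have := hy.2
        push_cast
        nlinarith)
      (by
        intro t ht
        exact Or.inl ⟨t * y, ⟨mul_nonneg ht.1 hy.1, mul_le_one₀ ht.2 hy.1 hy.2⟩, rfl⟩)
    refine ⟨f, hf, Subtype.ext (by rw [f0]; simp), Subtype.ext (by rw [f1]; simp)⟩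
  · obtain ⟨n, hn⟩ := mem_iUnion.1 hx
    -- path to a bottom point
    have hbotpath : ∀ i ≤ n, ∃ f : ℝ → XX, LipschitzWith 4 f ∧ f 0 = ⟨_, e_mem⟩ ∧
        (f 1 : E3) = LL n (bot n i) := by
      intro i hi
      obtain ⟨f, hf, f0, f1⟩ := exists_lip_of_unit (K := 4) (S := XX) (F := SS n i)
        (by
          intro s _ t _
          have := SS_lip hi (s := s) (t := t)
          have h0 := abs_nonneg (s - t)
          push_cast
          linarith)
        (by
          intro t ht
          rcases Nat.eq_zero_or_pos i with h0 | h0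
          · have : SS n i t = (0, 0, 0) := by subst h0; simp [SS, bot, gg]
            rw [this]; exact e_mem
          · exact SS_mem (Finset.mem_Icc.2 ⟨h0, hi⟩) ht)
      refine ⟨f, hf, Subtype.ext (by rw [f0]; simp [SS]), ?_⟩
      rw [f1]
      simp [SS, LL, ph_bot]
    rcases hn with ⟨s, hs, rfl⟩ | hn
    · -- choose the bottom point
      set i : ℕ := ⌊(2 * n + 1) * s / 2⌋₊ with hi
      have hn0 : (0 : ℝ) ≤ n := Nat.cast_nonneg n
      have hnn : (0 : ℝ) ≤ (2 * n + 1) * s / 2 := by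
        have := hs.1
        positivity
      have hfl := Nat.floor_le hnn
      have hlt := Nat.lt_floor_add_one ((2 * n + 1) * s / 2 : ℝ)
      rw [← hi] at hfl hlt
      have hin : i ≤ n := by
        have : (i : ℝ) < n + 1 := by nlinarith [hs.2]
        have : i < n + 1 := by exact_mod_cast this
        omega
      have hd1 : 0 ≤ s - bot n i := by
        unfold bot
        rw [sub_nonneg, div_le_iff₀ (by positivity)]
        linarith
      have hd2 : (2 * n + 1) * (s - bot n i) ≤ 2 := by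
        unfold bot
        have : (2 * (n : ℝ) + 1) * (s - 2 * i / (2 * n + 1)) = (2 * n + 1) * s - 2 * i := by
          field_simp
        rw [this]; linarith
      have hb := bot_mem hin
      obtain ⟨f, hf, f0, f1⟩ := hbotpath i hin
      have hmem : ∀ t ∈ Icc (0 : ℝ) 1, bot n i + t * (s - bot n i) ∈ Icc (0 : ℝ) 1 := by
        intro t ht
        constructor
        · have := mul_nonneg ht.1 hd1
          linarith [hb.1]
        · have : t * (s - bot n i) ≤ 1 * (s - bot n i) := by gcongr; exact ht.2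
          linarith [hs.2]
      obtain ⟨g, hg, g0, g1⟩ := exists_lip_of_unit (K := 4) (S := XX)
        (F := fun t => LL n (bot n i + t * (s - bot n i)))
        (by
          intro t ht t' ht'
          refine (LL_lip (hmem t ht) (hmem t' ht')).trans ?_
          have : bot n i + t * (s - bot n i) - (bot n i + t' * (s - bot n i)) =
            (t - t') * (s - bot n i) := by ring
          rw [this, abs_mul, abs_of_nonneg hd1]
          have h0 := abs_nonneg (t - t')
          push_cast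
          calc 2 * (2 * (n : ℝ) + 1) * (|t - t'| * (s - bot n i))
              = 2 * |t - t'| * ((2 * (n : ℝ) + 1) * (s - bot n i)) := by ring
            _ ≤ 2 * |t - t'| * 2 := by gcongr
            _ = 4 * |t - t'| := by ring)
        (fun t ht => LL_mem (hmem t ht))
      have hfg : f 1 = g 0 := Subtype.ext (by rw [f1, g0]; simp)
      have hc := lipschitz_conc hf hg 1 hfg
      refine ⟨_, (hc.comp (LipschitzWith.of_dist_le_mul (K := 2) (f := fun t : ℝ => 2 * t) ?_)).weaken
        (by norm_num), ?_, ?_⟩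
      · intro s t
        rw [Real.dist_eq, Real.dist_eq, ← mul_sub, abs_mul]
        norm_num
      · simp [f0]
      · have : ¬ ((2 : ℝ) * 1 ≤ 1) := by norm_num
        simp only [Function.comp, if_neg this]
        have e : (2 : ℝ) * 1 - 1 = 1 := by norm_num
        rw [e]
        exact Subtype.ext (by rw [g1]; simp)
    · obtain ⟨i, hi, t₀, ht₀, rfl⟩ := mem_iUnion₂.1 hn
      obtain ⟨f, hf, f0, f1⟩ := exists_lip_of_unit (K := 8) (S := XX) (F := fun t => SS n i (t * t₀))
        (by
          intro s _ t _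
          have := SS_lip (Finset.mem_Icc.1 hi).2 (s := s * t₀) (t := t * t₀)
          rw [← sub_mul, abs_mul, abs_of_nonneg ht₀.1] at this
          have h0 := abs_nonneg (s - t)
          have := ht₀.2
          push_cast
          nlinarith)
        (fun t ht => SS_mem hi ⟨mul_nonneg ht.1 ht₀.1, mul_le_one₀ ht.2 ht₀.1 ht₀.2⟩)
      refine ⟨f, hf, Subtype.ext (by rw [f0]; simp [SS]), Subtype.ext (by rw [f1]; simp)⟩

instance : CompactSpace XX := isCompact_iff_compactSpace.1 XX_compact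

instance : ConnectedSpace XX := connectedSpace_of_lip lip_paths

theorem unif_path (a b : XX) : ∃ P : Set (Path a b),
    (∀ ε : ℝ, ε > 0 → ∃ n : ℕ, ∀ p ∈ P, ∃ t : Fin (n + 1) → unitInterval,
        t 0 = 0 ∧ t (Fin.last n) = 1 ∧ StrictMono t ∧
        ∀ i : Fin n, Metric.diam (⇑p '' Set.Icc (t i.castSucc) (t i.succ)) ≤ ε) ∧
    (⋃ p ∈ P, Set.range ⇑p) = Set.univ := by
  refine ⟨{p : Path a b | LipschitzWith 32 (p : unitInterval → XX)}, ?_, ?_⟩
  · intro ε hε
    obtain ⟨m, hm⟩ := exists_nat_gt (32 / ε)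
    have hmpos : (0 : ℝ) < m := lt_trans (by positivity) hm
    have hm0 : 0 < m := by exact_mod_cast hmpos
    refine ⟨m, fun p hp => ⟨fun i => ⟨(i : ℝ) / m, ?_, ?_⟩, ?_, ?_, ?_, ?_⟩⟩
    · positivity
    · rw [div_le_one hmpos]
      exact_mod_cast Nat.lt_succ_iff.1 i.2
    · ext; simp
    · ext; simp [hmpos.ne']
    · intro i j hij
      apply Subtype.coe_lt_coe.1
      have : (i : ℕ) < j := hij
      have : ((i : ℕ) : ℝ) < (j : ℕ) := by exact_mod_cast this
      show ((i : ℕ) : ℝ) / m < ((j : ℕ) : ℝ) / m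
      gcongr
    · intro i
      apply Metric.diam_le_of_forall_dist_le hε.le
      rintro _ ⟨u, hu, rfl⟩ _ ⟨v, hv, rfl⟩
      have h1 := LipschitzWith.dist_le_mul hp u v
      have h2 : dist u v ≤ 1 / m := by
        rw [Subtype.dist_eq, Real.dist_eq]
        have hu1 : (i : ℝ) / m ≤ (u : ℝ) := by
          have := Subtype.coe_le_coe.2 hu.1
          simpa using this
        have hu2 : (u : ℝ) ≤ ((i : ℝ) + 1) / m := by
          have := Subtype.coe_le_coe.2 hu.2
          simpa using this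
        have hv1 : (i : ℝ) / m ≤ (v : ℝ) := by
          have := Subtype.coe_le_coe.2 hv.1
          simpa using this
        have hv2 : (v : ℝ) ≤ ((i : ℝ) + 1) / m := by
          have := Subtype.coe_le_coe.2 hv.2
          simpa using this
        have e : ((i : ℝ) + 1) / m = (i : ℝ) / m + 1 / m := by ring
        rw [e] at hu2 hv2
        rw [abs_le]
        constructor <;> linarith
      have h3 : (32 : ℝ) * (1 / m) ≤ ε := by
        rw [mul_one_div, div_le_iff₀ hmpos]
        rw [div_lt_iff₀ hε] at hm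
        linarith
      push_cast at h1
      linarith
  · rw [eq_univ_iff_forall]
    intro x
    obtain ⟨f, hf, f0, f1, f2⟩ := exists_lip_through lip_paths a b x
    let p : Path a b :=
      { toFun := fun t => f t
        continuous_toFun := hf.continuous.comp continuous_subtype_val
        source' := by simpa using f0
        target' := by simpa using f1 }
    have hp : p ∈ {p : Path a b | LipschitzWith 32 (p : unitInterval → XX)} := by
      have h32 : (32 : NNReal) = 4 * 8 := by norm_num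
      show LipschitzWith 32 (fun t : unitInterval => f t)
      rw [h32]
      have := hf.comp (LipschitzWith.subtype_val (unitInterval))
      rwa [mul_one] at this
    refine mem_iUnion₂.2 ⟨p, hp, ⟨1 / 2, by norm_num, by norm_num⟩, ?_⟩
    exact f2

/-- The arc `L n` as a path. -/
noncomputable def Lpath (n : ℕ) : Path (⟨_, e_mem⟩ : XX) ⟨_, b_mem⟩ where
  toFun := fun t => ⟨LL n t, LL_mem t.2⟩
  continuous_toFun := by
    apply Continuous.subtype_mk
    exact (LL_cont n).comp continuous_subtype_val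
  source' := Subtype.ext (by simpa using LL_zero n)
  target' := Subtype.ext (by simpa using LL_one n)

theorem LL_inj {n : ℕ} {s t : ℝ} (hs : s ∈ Icc (0 : ℝ) 1) (ht : t ∈ Icc (0 : ℝ) 1)
    (h : LL n s = LL n t) : s = t := by
  simp only [LL, Prod.mk.injEq] at h
  obtain ⟨h1, h2, h3⟩ := h
  by_cases hg : gg n s = 0
  · -- both endpoints
    have key : ∀ u : ℝ, gg n u = 0 → u = 0 ∨ u = 1 := by
      intro u hu
      unfold gg at hu
      rw [div_eq_zero_iff] at hu
      rcases hu with hu | hu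
      · rcases mul_eq_zero.1 hu with h | h
        · exact Or.inl h
        · right; linarith
      · exfalso
        have : (0 : ℝ) < ((n : ℝ) + 1) ^ 2 := by positivity
        linarith
    have hgt : gg n t = 0 := by rw [← h2]; exact hg
    rcases key s hg with rfl | rfl <;> rcases key t hgt with rfl | rfl
    · rfl
    · rw [ph_zero, ph_one] at h1; norm_num at h1
    · rw [ph_zero, ph_one] at h1; norm_num at h1
    · rfl
  · rw [← h2] at h3
    have := mul_left_cancel₀ hg h3
    linarith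

theorem not_unif_arc : ¬ ∃ P : Set (Path (⟨_, e_mem⟩ : XX) ⟨_, b_mem⟩),
    (∀ p ∈ P, Function.Injective ⇑p) ∧
    (∀ ε : ℝ, ε > 0 → ∃ n : ℕ, ∀ p ∈ P, ∃ t : Fin (n + 1) → unitInterval,
        t 0 = 0 ∧ t (Fin.last n) = 1 ∧ StrictMono t ∧
        ∀ i : Fin n, Metric.diam (⇑p '' Set.Icc (t i.castSucc) (t i.succ)) ≤ ε) ∧
    (⋃ p ∈ P, Set.range ⇑p) =
      ⋃ (q : Path (⟨_, e_mem⟩ : XX) ⟨_, b_mem⟩) (_ : Function.Injective ⇑q), Set.range ⇑q := by
  rintro ⟨P, hinj, hunif, hcov⟩
  obtain ⟨N, hN⟩ := hunif (1 / 2) (by norm_num)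
  set n := N + 1 with hn
  have htop : ∀ j ≤ n, 0 < top n j ∧ top n j ≤ 1 := by
    intro j hj
    unfold top
    have hj' : (j : ℝ) ≤ n := by exact_mod_cast hj
    constructor
    · positivity
    · rw [div_le_one (by positivity)]; linarith
  have htop1 : ∀ j < n, top n j < 1 := by
    intro j hj
    unfold top
    have hj' : (j : ℝ) < n := by exact_mod_cast hj
    rw [div_lt_one (by positivity)]; linarith
  -- a path of the family through the first top
  have h1 : (⟨LL n (top n 0), LL_mem ⟨(htop 0 (Nat.zero_le _)).1.le, (htop 0 (Nat.zero_le _)).2⟩⟩ : XX) ∈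
      ⋃ (q : Path (⟨_, e_mem⟩ : XX) ⟨_, b_mem⟩) (_ : Function.Injective ⇑q), Set.range ⇑q := by
    refine mem_iUnion₂.2 ⟨Lpath n, ?_, ⟨top n 0, (htop 0 (Nat.zero_le _)).1.le, (htop 0 (Nat.zero_le _)).2⟩, rfl⟩
    intro s t hst
    have : LL n s = LL n t := congrArg Subtype.val hst
    exact Subtype.ext (LL_inj s.2 t.2 this)
  rw [← hcov] at h1
  obtain ⟨p, hpP, τ₀, hτ₀⟩ := mem_iUnion₂.1 h1
  have hpinj := hinj p hpP
  -- the path passes through all tops
  have hall : ∀ j < n, ∃ τ : unitInterval, (p τ : E3) = LL n (top n j) := by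
    intro j hj
    rcases Nat.eq_zero_or_pos j with h0 | h0
    · subst h0
      exact ⟨τ₀, congrArg Subtype.val hτ₀⟩
    have hcj : top n j ∈ Ioo (0 : ℝ) 1 := ⟨(htop j hj.le).1, htop1 j hj⟩
    have hlt0 : top n 0 < top n j := by
      unfold top
      have : (1 : ℝ) ≤ j := by exact_mod_cast h0
      rw [div_lt_div_iff_of_pos_right (by positivity)]
      push_cast
      linarith
    let B : Set E3 := (fun τ : unitInterval => (p τ : E3)) '' Ioc 0 1
    have hB : IsPreconnected B := by
      apply IsPreconnected.image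
      · exact isPreconnected_Ioc
      · exact (continuous_subtype_val.comp p.continuous).continuousOn
    have hτ₀pos : τ₀ ∈ Ioc (0 : unitInterval) 1 := by
      refine ⟨?_, le_top⟩
      rw [lt_iff_le_and_ne]
      refine ⟨bot_le, ?_⟩
      rintro rfl
      have h2 := congrArg Subtype.val hτ₀
      simp only [Path.source] at h2
      have h3 := gg_pos (n := n) (htop 0 (Nat.zero_le _)).1 (htop1 0 (by omega))
      have h4 := congrArg (fun x : E3 => x.2.1) h2
      simp only [LL] at h4
      linarith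
    have hp0 : (p τ₀ : E3) = LL n (top n 0) := congrArg Subtype.val hτ₀
    have hg0 := gg_pos (n := n) (htop 0 (Nat.zero_le _)).1 (htop1 0 (by omega))
    obtain ⟨x, ⟨τ, hτ, rfl⟩, hx⟩ := sep_lemma n hcj (B := B)
      (by rintro _ ⟨τ, _, rfl⟩; exact (p τ).2) hB
      (u := (p τ₀ : E3)) (v := (p 1 : E3)) ⟨τ₀, hτ₀pos, rfl⟩ ⟨1, ⟨by simp, le_rfl⟩, rfl⟩
      (by
        rw [hp0]
        refine ⟨hg0, ?_, ?_⟩
        · simp only [LL]; nlinarith [(htop 0 (Nat.zero_le _)).1]
        · simp only [LL]; nlinarith)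
      (by
        simp only [Path.target]
        intro h
        have := h.1
        simp at this)
    refine ⟨τ, ?_⟩
    rcases hx with hx | ⟨hx1, hx2⟩
    · exfalso
      have : p τ = p 0 := by
        rw [Path.source]
        exact Subtype.ext hx
      have := hpinj this
      rw [this] at hτ
      exact lt_irrefl _ hτ.1
    · obtain ⟨m, s, hs, hw, hor⟩ := mem_XX_pos (p τ).2 hx1
      have : (m : ℝ) + s = n + top n j := by
        rw [hw] at hx2
        exact mul_right_cancel₀ hx1.ne' hx2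
      obtain ⟨rfl, rfl⟩ := slope_unique hs hcj this
      rcases hor with h | ⟨⟨i, hi, hsi, -⟩, -⟩
      · exact h
      · exfalso
        unfold top bot at hsi
        rw [div_left_inj' (by positivity)] at hsi
        have : 2 * j + 1 = 2 * i := by exact_mod_cast hsi
        omega
  -- partition
  obtain ⟨t, ht0, ht1, htm, htd⟩ := hN p hpP
  choose! τ hτ using hall
  -- every time belongs to a piece
  have hpiece : ∀ u : unitInterval, ∃ i : Fin N, u ∈ Icc (t i.castSucc) (t i.succ) := by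
    intro u
    by_contra hcon
    push Not at hcon
    have : ∀ k : ℕ, ∀ hk : k < N + 1, t ⟨k, hk⟩ ≤ u := by
      intro k
      induction k with
      | zero =>
        intro hk
        have : t ⟨0, hk⟩ = 0 := ht0
        rw [this]; exact bot_le
      | succ k ih =>
        intro hk
        have h2 := ih (by omega)
        have h3 := hcon ⟨k, by omega⟩
        by_contra h4
        exact h3 ⟨h2, (not_le.1 h4).le⟩
    by_cases hN0 : N = 0
    · subst hN0
      have : t 0 = t (Fin.last 0) := rfl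
      rw [ht0, ht1] at this
      exact zero_ne_one this
    · have h5 := this N (by omega)
      have h6 : t ⟨N, by omega⟩ = 1 := ht1
      rw [h6] at h5
      have h7 : u = 1 := le_antisymm le_top h5
      have h8 := hcon ⟨N - 1, by omega⟩
      apply h8
      constructor
      · exact this (N - 1) (by omega)
      · have : t (Fin.succ ⟨N - 1, by omega⟩) = t ⟨N, by omega⟩ := by
          congr 1
          ext
          simp
          omega
        rw [this, h6]
        exact le_top
  choose ι hι using fun j : Fin n => hpiece (τ j)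
  obtain ⟨j, k, hjk, hijk⟩ := Fintype.exists_ne_map_eq_of_card_lt ι (by simp [hn])
  -- wlog j < k
  have main : ∀ j k : Fin n, j < k → ι j = ι k → False := by
    intro j k hjk hijk
    let c := bot n (j + 1)
    have hjn : (j : ℕ) + 1 ≤ n := j.2
    have hc : c ∈ Ioo (0 : ℝ) 1 := ⟨bot_pos (by omega), (bot_mem hjn).2⟩
    let B : Set E3 := (fun τ : unitInterval => (p τ : E3)) '' Icc (t (ι j).castSucc) (t (ι j).succ)
    have hB : IsPreconnected B := by
      apply IsPreconnected.image
      · exact isPreconnected_Icc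
      · exact (continuous_subtype_val.comp p.continuous).continuousOn
    have hjc : top n j < c := by
      simp only [c]
      unfold top bot
      push_cast
      gcongr
      linarith
    have hck : c < top n k := by
      simp only [c]
      unfold top bot
      have : (j : ℕ) < k := hjk
      have : ((j : ℕ) : ℝ) + 1 ≤ (k : ℕ) := by exact_mod_cast this
      push_cast
      gcongr
      linarith
    have hgj := gg_pos (n := n) (htop j j.2.le).1 (htop1 j j.2)
    have hgk := gg_pos (n := n) (htop k k.2.le).1 (htop1 k k.2)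
    obtain ⟨x, ⟨u, hu, rfl⟩, hx⟩ := sep_lemma n hc (B := B)
      (by rintro _ ⟨τ, _, rfl⟩; exact (p τ).2) hB
      (u := (p (τ j) : E3)) (v := (p (τ k) : E3)) ⟨τ j, hι j, rfl⟩
      ⟨τ k, by rw [hijk]; exact hι k, rfl⟩
      (by
        rw [hτ j j.2]
        refine ⟨hgj, ?_, ?_⟩
        · simp only [LL]; nlinarith [(htop j j.2.le).1]
        · simp only [LL]; nlinarith)
      (by
        rw [hτ k k.2]
        intro h
        have := h.2.2
        simp only [LL] at this
        nlinarith)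
    have hy0 : (p u : E3).1 = 0 := by
      rcases hx with hx | ⟨hx1, hx2⟩
      · exact congrArg Prod.fst hx
      · obtain ⟨m, s, hs, hw, hor⟩ := mem_XX_pos (p u).2 hx1
        have : (m : ℝ) + s = n + c := by
          rw [hw] at hx2
          exact mul_right_cancel₀ hx1.ne' hx2
        obtain ⟨rfl, rfl⟩ := slope_unique hs hc this
        rcases hor with h | ⟨-, h⟩
        · rw [h]; exact ph_bot _ _
        · exact h
    have hy1 : (p (τ j) : E3).1 = 1 := by rw [hτ j j.2]; exact ph_top _ _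
    have hd := htd (ι j)
    have hbdd : Bornology.IsBounded (⇑p '' Set.Icc (t (ι j).castSucc) (t (ι j).succ)) :=
      (isCompact_Icc.image p.continuous).isBounded
    have hdist : dist (p u) (p (τ j)) ≤ 1 / 2 :=
      (Metric.dist_le_diam_of_mem hbdd ⟨u, hu, rfl⟩ ⟨τ j, hι j, rfl⟩).trans hd
    have : dist (p u : E3).1 (p (τ j) : E3).1 ≤ 1 / 2 := by
      refine le_trans ?_ hdist
      rw [Subtype.dist_eq, Prod.dist_eq]
      exact le_max_left _ _
    rw [hy0, hy1, Real.dist_eq] at this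
    norm_num at this
  rcases lt_or_gt_of_ne hjk with h | h
  · exact main j k h hijk
  · exact main k j h hijk.symm

end Example

/-- The negation of the preceding statement: Every continuum in which any two points are joined by a uniform family of paths covering the space has, for any two points, a uniform family of arcs between them covering the union of all arcs joining them. -/
theorem result :
    ¬ (∀ (X : Type) [MetricSpace X] [CompactSpace X] [ConnectedSpace X],
      (∀ a b : X, ∃ P : Set (Path a b),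
          (∀ ε : ℝ, ε > 0 → ∃ n : ℕ, ∀ p ∈ P, ∃ t : Fin (n + 1) → unitInterval,
              t 0 = 0 ∧ t (Fin.last n) = 1 ∧ StrictMono t ∧
              ∀ i : Fin n, Metric.diam (⇑p '' Set.Icc (t i.castSucc) (t i.succ)) ≤ ε) ∧
          (⋃ p ∈ P, Set.range ⇑p) = Set.univ) →
      (∀ a b : X, ∃ P : Set (Path a b),
          (∀ p ∈ P, Function.Injective ⇑p) ∧
          (∀ ε : ℝ, ε > 0 → ∃ n : ℕ, ∀ p ∈ P, ∃ t : Fin (n + 1) → unitInterval,
              t 0 = 0 ∧ t (Fin.last n) = 1 ∧ StrictMono t ∧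
              ∀ i : Fin n, Metric.diam (⇑p '' Set.Icc (t i.castSucc) (t i.succ)) ≤ ε) ∧
          (⋃ p ∈ P, Set.range ⇑p) =
            ⋃ (q : Path a b) (_ : Function.Injective ⇑q), Set.range ⇑q)) := by
  intro hall
  exact not_unif_arc (hall XX unif_path ⟨_, e_mem⟩ ⟨_, b_mem⟩)

end Pool.Agent.S08698
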