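import Pool.Statements.S08704
import Pool.Agent.Helper331.TT.Final

/-!
# Two isometric, non-congruent smooth tight tori in Euclidean 3-space

Idea.  We build a smooth tight torus `m` containing, in its negatively curved inner tube, a closed
asymptotic curve `c` winding around the hole, such that near `c` the tube is a ruled surface
`c + 2u (P × X)` (`c' = P × P'`, `X' = f' P`) all of whose asymptotic curves of the second family
`1/u = f + y` are closed.  Such a band carries compactly supported infinitesimal bendings
`v = (-Y'(η) + 2fρY(η)) P + (2uY'(η) - 4ρY(η)) X`, `ρ = 1 - f u`, `η = u/ρ`, `Y` a bump function, so the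
two maps `m + τ v`, `m - τ v` induce the same metric; they are tight for small `τ`, because all
changes happen where the Gauss curvature is negative.  The data `P, X, c, f` are explicit trigonometric
polynomials (`ω = 1 + 2/5 cos 4x`, `q = -sin 4x`, `f = 1/4 sin 4x`, ...), file `A1`.  The tube is closed up by
flat annuli at the top and the bottom and a strictly convex rotational outer part.  A linear map `L`
(with `v` replaced by `(LᵀL)⁻¹ v`) removes all symmetries of the convex hull, so an ambient isometry carrying one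
torus to the other is the identity; then the reparametrization fixes the outer part, hence (propagation
along a meridian) the points of `c`, and near `c` the two surfaces lie on opposite sides of `m`:
contradiction.  (All constructions and lemmas are in `Pool/Agent/Helper331/TT/`.)
-/

set_option autoImplicit false
open scoped Manifold
open Pool Pool.MP_956cc7_gt

namespace Pool.Agent.S08704

/-- The negation of the preceding statement: If two smooth immersions of the torus into 3-space are tight and induce the same metric up to a torus diffeomorphism, then one equals a Euclidean motion of the other up to reparametrization. -/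
theorem result :
    ¬ (∀ f g : Circle × Circle → EuclideanSpace ℝ (Fin 3),
      ContMDiff ((𝓡 1).prod (𝓡 1)) 𝓘(ℝ, EuclideanSpace ℝ (Fin 3)) ((⊤ : ℕ∞) : WithTop ℕ∞) f →
      ContMDiff ((𝓡 1).prod (𝓡 1)) 𝓘(ℝ, EuclideanSpace ℝ (Fin 3)) ((⊤ : ℕ∞) : WithTop ℕ∞) g →
      (∀ p : Circle × Circle,
        Function.Injective (mfderiv ((𝓡 1).prod (𝓡 1)) 𝓘(ℝ, EuclideanSpace ℝ (Fin 3)) f p)) →
      (∀ p : Circle × Circle,
        Function.Injective (mfderiv ((𝓡 1).prod (𝓡 1)) 𝓘(ℝ, EuclideanSpace ℝ (Fin 3)) g p)) →
      (∀ (ℓ : EuclideanSpace ℝ (Fin 3) →L[ℝ] ℝ) (c : ℝ),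
        IsPreconnected {p : Circle × Circle | c < ℓ (f p)}) →
      (∀ (ℓ : EuclideanSpace ℝ (Fin 3) →L[ℝ] ℝ) (c : ℝ),
        IsPreconnected {p : Circle × Circle | c < ℓ (g p)}) →
      (∃ φ : Diffeomorph ((𝓡 1).prod (𝓡 1)) ((𝓡 1).prod (𝓡 1)) (Circle × Circle)
          (Circle × Circle) ((⊤ : ℕ∞) : WithTop ℕ∞),
        ∀ (p : Circle × Circle) (v : EuclideanSpace ℝ (Fin 1) × EuclideanSpace ℝ (Fin 1)),
          @Norm.norm (EuclideanSpace ℝ (Fin 3)) _
              (mfderiv ((𝓡 1).prod (𝓡 1)) 𝓘(ℝ, EuclideanSpace ℝ (Fin 3)) f p v) =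
            @Norm.norm (EuclideanSpace ℝ (Fin 3)) _
              (mfderiv ((𝓡 1).prod (𝓡 1)) 𝓘(ℝ, EuclideanSpace ℝ (Fin 3))
                (fun x => g (φ x)) p v)) →
      ∃ (A : EuclideanSpace ℝ (Fin 3) ≃ᵃⁱ[ℝ] EuclideanSpace ℝ (Fin 3))
        (ψ : Diffeomorph ((𝓡 1).prod (𝓡 1)) ((𝓡 1).prod (𝓡 1)) (Circle × Circle)
          (Circle × Circle) ((⊤ : ℕ∞) : WithTop ℕ∞)),
        ∀ p : Circle × Circle, g (ψ p) = A (f p)) := by
  exact Pool.Agent.Helper331.TT.final

end Pool.Agent.S08704
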