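import Pool.Statements.S08711
import Pool.Agent.Helper358.Prod

set_option autoImplicit false
open Pool Pool.MP_974b95_gt

namespace Pool.Agent.S08711

/-- For every uncountable index set I, the set of x in R^I with sum of ∣x_i∣ at most 1 (product topology) is homeomorphic to its product with some compact metrizable space having at least two points. -/
theorem result :
    ∀ (I : Type), Uncountable I →
      ∃ K : Set (ℕ → ℝ), IsCompact K ∧ K.Nontrivial ∧
        Nonempty ({x : I → ℝ | ∀ s : Finset I, ∑ i ∈ s, |x i| ≤ 1} ≃ₜ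
          ({x : I → ℝ | ∀ s : Finset I, ∑ i ∈ s, |x i| ≤ 1} × K)) := by
  intro I hI
  have hc : Continuous (fun (t : ℝ) (_ : ℕ) => t) := by fun_prop
  have hinj : Set.InjOn (fun (t : ℝ) (_ : ℕ) => t) (Set.Icc 0 1) :=
    fun _ _ _ _ h => congrFun h 0
  refine ⟨(fun (t : ℝ) (_ : ℕ) => t) '' Set.Icc 0 1, isCompact_Icc.image hc, ?_, ?_⟩
  · exact ⟨fun _ => 0, ⟨0, by simp, rfl⟩, fun _ => 1, ⟨1, by simp, rfl⟩,
      fun h => zero_ne_one (congrFun h 0)⟩
  · obtain ⟨h1⟩ := Pool.Agent.Helper358.Prod.ball_prod I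
    obtain ⟨h2⟩ := Pool.Agent.Helper358.Box.homeo_of_bijOn isCompact_Icc hc.continuousOn
      hinj.bijOn_image
    exact ⟨h1.trans ((Homeomorph.refl _).prodCongr h2)⟩

end Pool.Agent.S08711
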