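import Pool.Statements.S08722
import Pool.Agent.Helper854.Line

set_option autoImplicit false
open Pool Pool.MP_9873d2_gt

namespace Pool.Agent.S08722

/-- The negation of the preceding statement: Let X be a Tychonoff space whose pointwise function space C_p(X) is uniformly homeomorphic to C_p(ℝ). Then X is a k_ω-space: a countable union of compact sets whose traces determine which sets are closed. -/
theorem result :
    ¬ (∀ (X : Type) [TopologicalSpace X] [T35Space X],
      Nonempty (UniformEquiv {g : X → ℝ // Continuous g} {g : ℝ → ℝ // Continuous g}) →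
      ∃ K : ℕ → Set X, (∀ n, IsCompact (K n)) ∧ (⋃ n, K n) = Set.univ ∧
        ∀ F : Set X, (∀ n, IsClosed ((Subtype.val : ↥(K n) → X) ⁻¹' F)) → IsClosed F) := by
  intro h
  exact Pool.Agent.Helper854.Usp.not_komega
    (h Pool.Agent.Helper854.Usp.X1 ⟨Pool.Agent.Helper854.Usp.mainEquiv⟩)

end Pool.Agent.S08722
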