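import Pool.Statements.S08723

set_option autoImplicit false
open Pool Pool.MP_98c8dd_gt

namespace Pool.Agent.S08723

open Set Topology Metric

section Continua

variable {X : Type*} [TopologicalSpace X] [T2Space X]


omit [T2Space X] in
/-- Components of closed sets are closed. -/
theorem isClosed_comp {A : Set X} (hA : IsClosed A) (x : X) :
    IsClosed (connectedComponentIn A x) := by
  by_cases hx : x ∈ A
  · apply isClosed_of_closure_subset
    apply (isPreconnected_connectedComponentIn.closure).subset_connectedComponentIn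
    · exact subset_closure (mem_connectedComponentIn hx)
    · exact closure_minimal (connectedComponentIn_subset _ _) hA
  · rw [connectedComponentIn_eq_empty hx]
    exact isClosed_empty

/-- Quasi-component argument: in a compact set `K`, if the component of `x` misses the closed set
`F`, there is a splitting of `K` into two disjoint closed sets, one containing `x` and missing `F`. -/
theorem exists_split_of_component_disjoint {K F : Set X} (hK : IsCompact K) {x : X} (hx : x ∈ K)
    (hF : IsClosed F) (hd : Disjoint (connectedComponentIn K x) F) :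
    ∃ P Q : Set X, IsClosed P ∧ IsClosed Q ∧ P ∪ Q = K ∧ Disjoint P Q ∧ x ∈ P ∧
      Disjoint P F := by
  have : CompactSpace K := isCompact_iff_compactSpace.1 hK
  have hcc : connectedComponentIn K x = Subtype.val '' connectedComponent (⟨x, hx⟩ : K) :=
    connectedComponentIn_eq_image hx
  let F' : Set K := Subtype.val ⁻¹' F
  have hF' : IsClosed F' := hF.preimage continuous_subtype_val
  have hint : F' ∩ (⋂ s : {s : Set K // IsClopen s ∧ (⟨x, hx⟩ : K) ∈ s}, (s : Set K)) = ∅ := by
    rw [← connectedComponent_eq_iInter_isClopen]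
    rw [Set.eq_empty_iff_forall_notMem]
    rintro y ⟨hyF, hyc⟩
    have : (y : X) ∈ connectedComponentIn K x := by
      rw [hcc]; exact ⟨y, hyc, rfl⟩
    exact Set.disjoint_left.1 hd this hyF
  obtain ⟨t, ht⟩ := hF'.isCompact.elim_finite_subfamily_closed
    (fun s : {s : Set K // IsClopen s ∧ (⟨x, hx⟩ : K) ∈ s} => (s : Set K))
    (fun s => s.2.1.1) hint
  let Z : Set K := ⋂ s ∈ t, (s : Set K)
  have hZ : IsClopen Z := isClopen_biInter_finset fun s _ => s.2.1
  have hxZ : (⟨x, hx⟩ : K) ∈ Z := mem_iInter₂.2 fun s _ => s.2.2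
  refine ⟨Subtype.val '' Z, Subtype.val '' Zᶜ, ?_, ?_, ?_, ?_, ⟨_, hxZ, rfl⟩, ?_⟩
  · exact (hZ.1.isCompact.image continuous_subtype_val).isClosed
  · exact (hZ.compl.1.isCompact.image continuous_subtype_val).isClosed
  · rw [← image_union, union_compl_self, image_univ, Subtype.range_coe]
  · rw [disjoint_image_iff Subtype.val_injective]
    exact disjoint_compl_right
  · rw [Set.disjoint_left]
    rintro _ ⟨y, hy, rfl⟩ hyF
    have : y ∈ F' ∩ ⋂ s ∈ t, (s : Set K) := ⟨hyF, hy⟩
    rw [ht] at this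
    exact this

/-- Boundary bumping: if `D` is a continuum, `A` closed and `D` not contained in `A`, then the component of
`D ∩ A` at any of its points meets the closure of `D \ A`. -/
theorem boundary_bumping {D A : Set X} (hD : IsCompact D) (hDc : IsPreconnected D)
    (hA : IsClosed A) {x : X} (hx : x ∈ D ∩ A) (hne : (D \ A).Nonempty) :
    (connectedComponentIn (D ∩ A) x ∩ closure (D \ A)).Nonempty := by
  by_contra hcon
  have hd : Disjoint (connectedComponentIn (D ∩ A) x) (closure (D \ A)) := by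
    rw [Set.disjoint_iff_inter_eq_empty]
    exact Set.not_nonempty_iff_eq_empty.1 hcon
  obtain ⟨P, Q, hP, hQ, hPQ, hdPQ, hxP, hPF⟩ :=
    exists_split_of_component_disjoint (hD.inter_right hA) hx isClosed_closure hd
  have h := isPreconnected_closed_iff.1 hDc P (Q ∪ closure (D \ A)) hP (hQ.union isClosed_closure)
    (by
      intro y hy
      by_cases hyA : y ∈ A
      · have : y ∈ P ∪ Q := by rw [hPQ]; exact ⟨hy, hyA⟩
        rcases this with h | h
        · exact Or.inl h
        · exact Or.inr (Or.inl h)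
      · exact Or.inr (Or.inr (subset_closure ⟨hy, hyA⟩)))
    ⟨x, hx.1, hxP⟩
    (by
      obtain ⟨y, hy⟩ := hne
      exact ⟨y, hy.1, Or.inr (subset_closure hy)⟩)
  obtain ⟨y, hyD, hyP, hyQ⟩ := h
  rcases hyQ with h | h
  · exact Set.disjoint_left.1 hdPQ hyP h
  · exact Set.disjoint_left.1 hPF hyP h


/-- The intersection of a nonempty chain of continua is a continuum. -/
theorem isConnected_sInter_chain {c : Set (Set X)} (hc : IsChain (· ⊆ ·) c) (hne : c.Nonempty)
    (h : ∀ s ∈ c, IsCompact s ∧ IsConnected s) :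
    IsCompact (⋂₀ c) ∧ IsConnected (⋂₀ c) := by
  have : Nonempty c := hne.to_subtype
  have hdir : Directed (· ⊇ ·) (fun s : c => (s : Set X)) := by
    intro a b
    rcases hc.total a.2 b.2 with h | h
    · exact ⟨a, subset_rfl, h⟩
    · exact ⟨b, h, subset_rfl⟩
  have hcl : ∀ s : c, IsClosed (s : Set X) := fun s => (h s s.2).1.isClosed
  have hcomp : IsCompact (⋂₀ c) := by
    obtain ⟨s, hs⟩ := hne
    exact (h s hs).1.of_isClosed_subset (isClosed_sInter fun t ht => (h t ht).1.isClosed)
      (sInter_subset_of_mem hs)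
  have hnonempty : (⋂₀ c).Nonempty := by
    rw [sInter_eq_iInter]
    exact IsCompact.nonempty_iInter_of_directed_nonempty_isCompact_isClosed _ hdir
      (fun s => (h s s.2).2.1) (fun s => (h s s.2).1) hcl
  refine ⟨hcomp, hnonempty, ?_⟩
  rw [isPreconnected_iff_subset_of_fully_disjoint_closed hcomp.isClosed]
  intro a b ha hb hab hdis
  -- separate the two compact pieces by disjoint open sets
  have ha' : IsCompact (a ∩ ⋂₀ c) := hcomp.inter_left ha
  have hb' : IsCompact (b ∩ ⋂₀ c) := hcomp.inter_left hb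
  obtain ⟨u, v, hu, hv, hau, hbv, huv⟩ := SeparatedNhds.of_isCompact_isCompact ha' hb'
    (hdis.mono inter_subset_left inter_subset_left)
  have hsub : ⋂₀ c ⊆ u ∪ v := by
    intro y hy
    rcases hab hy with h1 | h1
    · exact Or.inl (hau ⟨h1, hy⟩)
    · exact Or.inr (hbv ⟨h1, hy⟩)
  obtain ⟨s, hs⟩ : ∃ s : c, (s : Set X) ⊆ u ∪ v := by
    apply exists_subset_nhds_of_isCompact hdir (fun s => (h s s.2).1) 
    intro y hy
    rw [← sInter_eq_iInter] at hy
    exact (hu.union hv).mem_nhds (hsub hy)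
  have hscon := (h s s.2).2
  have hcs : ⋂₀ c ⊆ s := sInter_subset_of_mem s.2
  rcases (isPreconnected_iff_subset_of_disjoint.1 hscon.2) u v hu hv hs
    (by rw [huv.inter_eq]; simp) with h1 | h1
  · left
    intro y hy
    rcases hab hy with h2 | h2
    · exact h2
    · exact absurd (hbv ⟨h2, hy⟩) (Set.disjoint_left.1 huv (h1 (hcs hy)))
  · right
    intro y hy
    rcases hab hy with h2 | h2
    · exact absurd (h1 (hcs hy)) (Set.disjoint_left.1 huv (hau ⟨h2, hy⟩))
    · exact h2

/-- Existence of a minimal continuum inside `D` containing `b` and meeting the closed set `T`. -/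
theorem exists_minimal_continuum {D T : Set X} (hD : IsCompact D) (hDc : IsConnected D) (hT : IsClosed T)
    {b : X} (hb : b ∈ D) (hDT : (D ∩ T).Nonempty) :
    ∃ F : Set X, F ⊆ D ∧ IsCompact F ∧ IsConnected F ∧ b ∈ F ∧ (F ∩ T).Nonempty ∧
      ∀ G : Set X, G ⊆ F → IsCompact G → IsConnected G → b ∈ G → (G ∩ T).Nonempty → G = F := by
  let S : Set (Set X) := {G | G ⊆ D ∧ IsCompact G ∧ IsConnected G ∧ b ∈ G ∧ (G ∩ T).Nonempty}
  obtain ⟨F, hF⟩ := zorn_superset_nonempty S (by
    intro c hcS hc hne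
    have hcc := isConnected_sInter_chain hc hne (fun s hs => ⟨(hcS hs).2.1, (hcS hs).2.2.1⟩)
    refine ⟨⋂₀ c, ⟨?_, hcc.1, hcc.2, ?_, ?_⟩, fun s hs => sInter_subset_of_mem hs⟩
    · obtain ⟨s, hs⟩ := hne
      exact (sInter_subset_of_mem hs).trans (hcS hs).1
    · exact mem_sInter.2 fun s hs => (hcS hs).2.2.2.1
    · haveI : Nonempty c := hne.to_subtype
      have hdir : Directed (· ⊇ ·) (fun s : c => (s : Set X) ∩ T) := by
        intro a b
        rcases hc.total a.2 b.2 with h | h
        · exact ⟨a, subset_rfl, inter_subset_inter_left _ h⟩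
        · exact ⟨b, inter_subset_inter_left _ h, subset_rfl⟩
      have := IsCompact.nonempty_iInter_of_directed_nonempty_isCompact_isClosed _ hdir
        (fun s => (hcS s.2).2.2.2.2) (fun s => (hcS s.2).2.1.inter_right hT)
        (fun s => ((hcS s.2).2.1.inter_right hT).isClosed)
      obtain ⟨y, hy⟩ := this
      rw [mem_iInter] at hy
      refine ⟨y, mem_sInter.2 fun s hs => (hy ⟨s, hs⟩).1, ?_⟩
      obtain ⟨s, hs⟩ := hne
      exact (hy ⟨s, hs⟩).2) D ⟨subset_rfl, hD, hDc, hb, hDT⟩
  obtain ⟨hFD, hFmin⟩ := hF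
  have hFS : F ∈ S := hFmin.prop
  refine ⟨F, hFS.1, hFS.2.1, hFS.2.2.1, hFS.2.2.2.1, hFS.2.2.2.2, ?_⟩
  intro G hGF hG hGc hbG hGT
  have hGS : G ∈ S := ⟨hGF.trans hFS.1, hG, hGc, hbG, hGT⟩
  exact subset_antisymm hGF (hFmin.le_of_le hGS hGF)

/-- Sierpinski's theorem: a continuum contained in a disjoint countable union of sets which are closed in it
lies in one of them. -/
theorem sierpinski {K : Set X} (hK : IsCompact K) (hKc : IsConnected K) {F : ℕ → Set X}
    (hF : ∀ n, IsClosed (F n)) (hdis : ∀ i j, i ≠ j → Disjoint (F i) (F j))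
    (hcov : K ⊆ ⋃ n, F n) : ∃ n, K ⊆ F n := by
  by_contra hcon
  push Not at hcon
  -- the predicate
  let P : Set X → Prop := fun C => IsCompact C ∧ IsConnected C ∧ C ⊆ K ∧ ∀ n, ¬ C ⊆ F n
  have step : ∀ C, P C → ∀ n, ∃ C', P C' ∧ C' ⊆ C ∧ Disjoint C' (F n) := by
    rintro C ⟨hC, hCc, hCK, hCn⟩ n
    by_cases hdisj : Disjoint C (F n)
    · exact ⟨C, ⟨hC, hCc, hCK, hCn⟩, subset_rfl, hdisj⟩
    -- pick a point of C outside F n, it lies in F m
    obtain ⟨x, hxC, hxn⟩ := not_subset.1 (hCn n)
    obtain ⟨m, hxm⟩ := mem_iUnion.1 (hcov (hCK hxC))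
    have hmn : m ≠ n := by rintro rfl; exact hxn hxm
    have h1 : IsCompact (C ∩ F m) := hC.inter_right (hF m)
    have h2 : IsCompact (C ∩ F n) := hC.inter_right (hF n)
    obtain ⟨u, v, hu, hv, hmu, hnv, huv⟩ := SeparatedNhds.of_isCompact_isCompact h1 h2
      ((hdis m n hmn).mono inter_subset_right inter_subset_right)
    -- A = complement of v
    have hxv : x ∉ v := fun h => Set.disjoint_left.1 huv (hmu ⟨hxC, hxm⟩) h
    have hne : (C \ vᶜ).Nonempty := by
      rw [Set.not_disjoint_iff] at hdisj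
      obtain ⟨y, hyC, hyn⟩ := hdisj
      exact ⟨y, hyC, fun h => h (hnv ⟨hyC, hyn⟩)⟩
    have hxA : x ∈ C ∩ vᶜ := ⟨hxC, hxv⟩
    have hbb := boundary_bumping hC hCc.2 hv.isClosed_compl hxA hne
    obtain ⟨y, hy1, hy2⟩ := hbb
    refine ⟨connectedComponentIn (C ∩ vᶜ) x, ⟨?_, ?_, ?_, ?_⟩, ?_, ?_⟩
    · exact (hC.inter_right hv.isClosed_compl).of_isClosed_subset
        (isClosed_comp (hC.inter_right hv.isClosed_compl).isClosed x)
        (connectedComponentIn_subset _ _)
    · exact isConnected_connectedComponentIn_iff.2 hxA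
    · exact (connectedComponentIn_subset _ _).trans (inter_subset_left.trans hCK)
    · intro k hk
      have hxk : x ∈ F k := hk (mem_connectedComponentIn hxA)
      have hkm : k = m := by
        by_contra hne'
        exact Set.disjoint_left.1 (hdis k m hne') hxk hxm
      have hym : y ∈ F m := by rw [← hkm]; exact hk hy1
      have hyC : y ∈ C := (connectedComponentIn_subset _ _ hy1).1
      have hyu : y ∈ u := hmu ⟨hyC, hym⟩
      -- y in closure (C \ vᶜ) = closure (C ∩ v), u open nbhd of y disjoint from v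
      obtain ⟨z, hzu, hzC, hzv⟩ := mem_closure_iff.1 hy2 u hu hyu
      exact hzv (fun hzv' => Set.disjoint_left.1 huv hzu hzv')
    · exact (connectedComponentIn_subset _ _).trans inter_subset_left
    · rw [Set.disjoint_left]
      intro z hz hzn
      have := connectedComponentIn_subset _ _ hz
      exact this.2 (hnv ⟨this.1, hzn⟩)
  choose! f hf using step
  let C : ℕ → Set X := fun n => Nat.rec K (fun k C => f C k) n
  have hC0 : P (C 0) := ⟨hK, hKc, subset_rfl, fun n h => by
    obtain ⟨y, hy, hyn⟩ := Set.not_subset.1 (hcon n)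
    exact hyn (h hy)⟩
  have hCP : ∀ n, P (C n) := by
    intro n
    induction n with
    | zero => exact hC0
    | succ n ih => exact (hf (C n) ih n).1
  have hCs : ∀ n, C (n + 1) ⊆ C n := fun n => (hf (C n) (hCP n) n).2.1
  have hCd : ∀ n, Disjoint (C (n + 1)) (F n) := fun n => (hf (C n) (hCP n) n).2.2
  have hne := IsCompact.nonempty_iInter_of_sequence_nonempty_isCompact_isClosed C hCs
    (fun n => (hCP n).2.1.1) hC0.1 (fun n => (hCP n).1.isClosed)
  obtain ⟨y, hy⟩ := hne
  rw [mem_iInter] at hy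
  obtain ⟨n, hn⟩ := mem_iUnion.1 (hcov (hy 0))
  exact Set.disjoint_left.1 (hCd n) (hy (n + 1)) hn


end Continua

section Main

variable {X : Type} [TopologicalSpace X]

/-- Continuumwise connected sets. -/
def SemiC (S : Set X) : Prop :=
  ∀ x ∈ S, ∀ y ∈ S, ∃ K : Set X, K ⊆ S ∧ IsCompact K ∧ IsConnected K ∧ x ∈ K ∧ y ∈ K

/-- F-sigma sets. -/
def FSig (S : Set X) : Prop := ∃ C : ℕ → Set X, (∀ n, IsClosed (C n)) ∧ S = ⋃ n, C n

/-- The hypothesis of the problem. -/
def Star (X : Type) [TopologicalSpace X] : Prop :=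
  ∀ A : Set X,
    (∃ C : ℕ → Set X, (∀ n, IsClosed (C n)) ∧ A = ⋃ n, C n) →
    (¬ ∃ F : ℕ → Set X,
        (∀ n, ∃ D : Set X, IsClosed D ∧ F n = D ∩ A) ∧
        (∀ i j, i ≠ j → Disjoint (F i) (F j)) ∧
        (⋃ n, F n) = A ∧
        (∃ i j, i ≠ j ∧ (F i).Nonempty ∧ (F j).Nonempty)) →
    ∀ x ∈ A, ∀ y ∈ A, ∃ K : Set X, K ⊆ A ∧ IsCompact K ∧ IsConnected K ∧ x ∈ K ∧ y ∈ K

theorem semiC_of_base {S : Set X} (b : X)
    (h : ∀ y ∈ S, ∃ K : Set X, K ⊆ S ∧ IsCompact K ∧ IsConnected K ∧ y ∈ K ∧ b ∈ K) :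
    SemiC S := by
  intro x hx y hy
  obtain ⟨K, hKS, hK, hKc, hxK, hbK⟩ := h x hx
  obtain ⟨L, hLS, hL, hLc, hyL, hbL⟩ := h y hy
  exact ⟨K ∪ L, union_subset hKS hLS, hK.union hL, hKc.union ⟨b, hbK, hbL⟩ hLc,
    Or.inl hxK, Or.inr hyL⟩

theorem fsig_cons {A : Set X} (hA : IsClosed A) {B : ℕ → Set X} (hB : ∀ n, IsClosed (B n)) :
    FSig (A ∪ ⋃ n, B n) := by
  refine ⟨fun n => Nat.rec A (fun k _ => B k) n, ?_, ?_⟩
  · intro n
    cases n with
    | zero => exact hA
    | succ n => exact hB n
  · ext y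
    simp only [mem_union, mem_iUnion]
    constructor
    · rintro (h | ⟨n, h⟩)
      · exact ⟨0, h⟩
      · exact ⟨n + 1, h⟩
    · rintro ⟨n, h⟩
      cases n with
      | zero => exact Or.inl h
      | succ n => exact Or.inr ⟨n, h⟩

/-- Key lemma: in a space with the property of the problem, adding a limit point to a continuumwise
connected F-sigma set gives a continuumwise connected set. -/
theorem lemmaA [T2Space X] (hstar : Star X) {C : Set X} (hC : FSig C) (hs : SemiC C)
    {x : X} (hx : x ∈ closure C) : SemiC (insert x C) := by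
  apply hstar
  · obtain ⟨B, hB, rfl⟩ := hC
    have := fsig_cons (isClosed_singleton (x := x)) hB
    rwa [singleton_union] at this
  · rintro ⟨F, hF, hdis, hU, i, j, hij, hi, hj⟩
    choose D hD hFD using hF
    have hCne : C.Nonempty := by
      rw [nonempty_iff_ne_empty]
      rintro rfl
      simp at hx
    obtain ⟨c, hc⟩ := hCne
    have hcU : c ∈ ⋃ n, F n := by rw [hU]; exact Or.inr hc
    obtain ⟨i₀, hci⟩ := mem_iUnion.1 hcU
    have hCi : C ⊆ F i₀ := by
      intro y hy
      obtain ⟨K, hKC, hK, hKc, hcK, hyK⟩ := hs c hc y hy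
      have hKA : K ⊆ insert x C := hKC.trans (subset_insert _ _)
      obtain ⟨n, hn⟩ := sierpinski hK hKc (F := fun n => D n ∩ K)
        (fun n => (hD n).inter hK.isClosed)
        (by
          intro a b hab
          have h1 := hdis a b hab
          rw [hFD a, hFD b] at h1
          exact h1.mono (inter_subset_inter_right _ hKA) (inter_subset_inter_right _ hKA))
        (by
          intro z hz
          have : z ∈ ⋃ n, F n := by rw [hU]; exact hKA hz
          obtain ⟨n, hn⟩ := mem_iUnion.1 this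
          rw [hFD n] at hn
          exact mem_iUnion.2 ⟨n, hn.1, hz⟩)
      have hcn : c ∈ F n := by rw [hFD n]; exact ⟨(hn hcK).1, Or.inr hc⟩
      have hni : n = i₀ := by
        by_contra hne
        exact Set.disjoint_left.1 (hdis n i₀ hne) hcn hci
      rw [← hni, hFD n]
      exact ⟨(hn hyK).1, Or.inr hy⟩
    have hxi : x ∈ F i₀ := by
      rw [hFD i₀]
      refine ⟨?_, mem_insert _ _⟩
      have : C ⊆ D i₀ := fun y hy => by
        have := hCi hy
        rw [hFD i₀] at this
        exact this.1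
      exact closure_minimal this (hD i₀) hx
    have hall : insert x C ⊆ F i₀ := insert_subset hxi hCi
    have key : ∀ k, (F k).Nonempty → k = i₀ := by
      rintro k ⟨z, hz⟩
      by_contra hne
      have hzA : z ∈ insert x C := by rw [← hU]; exact mem_iUnion.2 ⟨k, hz⟩
      exact Set.disjoint_left.1 (hdis k i₀ hne) hz (hall hzA)
    exact hij ((key i hi).trans (key j hj).symm)

end Main

section Metric

variable {X : Type} [MetricSpace X] [CompactSpace X]

theorem claim3 (hstar : Star X) {p q : X} {ρ ε : ℝ} (hε : 0 < ε) (hερ : ε ≤ ρ)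
    (h2 : 2 * ρ < dist p q) :
    ∃ η > 0, ∀ x, dist x p < η → ∀ r, 0 < r → r < η →
      x ∉ connectedComponentIn (ball q r)ᶜ p → ∀ E : Set X, IsCompact E → IsConnected E →
      p ∉ E → (E ∩ connectedComponentIn (ball q r)ᶜ x).Nonempty →
      (E ∩ connectedComponentIn (ball p ρ)ᶜ q).Nonempty →
      (E ∩ connectedComponentIn (ball q ρ)ᶜ p ∩ ball p ε).Nonempty := by
  by_contra hcon
  push Not at hcon
  have hρ : 0 < ρ := hε.trans_le hερ
  have hη : ∀ n : ℕ, 0 < ρ / (n + 2) := fun n => by positivity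
  have hηρ : ∀ n : ℕ, ρ / (n + 2) ≤ ρ := fun n => by
    apply div_le_self hρ.le
    have : (0 : ℝ) ≤ n := Nat.cast_nonneg n
    linarith
  choose x hx r hr0 hr hxK E hE hEc hpE hEH hEK hemp using fun n : ℕ => hcon _ (hη n)
  set Kq := connectedComponentIn (ball p ρ)ᶜ q with hKq
  set Kp := connectedComponentIn (ball q ρ)ᶜ p with hKp
  let H : ℕ → Set X := fun n => connectedComponentIn (ball q (r n))ᶜ (x n)
  have hqmem : q ∈ (ball p ρ)ᶜ := by
    rw [mem_compl_iff, mem_ball, dist_comm]; linarith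
  have hpmem : p ∈ (ball q ρ)ᶜ := by
    rw [mem_compl_iff, mem_ball]; linarith
  have hqKq : q ∈ Kq := mem_connectedComponentIn hqmem
  have hpKp : p ∈ Kp := mem_connectedComponentIn hpmem
  have hKqcl : IsClosed Kq := isClosed_comp isOpen_ball.isClosed_compl q
  have hKqc : IsConnected Kq := isConnected_connectedComponentIn_iff.2 hqmem
  have hxmem : ∀ n, x n ∈ (ball q (r n))ᶜ := by
    intro n
    rw [mem_compl_iff, mem_ball, not_lt]
    have h1 := dist_triangle_left p q (x n)
    have h3 := hx n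
    have h4 := hr n
    have h5 := hηρ n
    linarith
  have hHcl : ∀ n, IsClosed (H n) := fun n => isClosed_comp isOpen_ball.isClosed_compl _
  have hHc : ∀ n, IsConnected (H n) := fun n =>
    isConnected_connectedComponentIn_iff.2 (hxmem n)
  let C : Set X := Kq ∪ ⋃ n, (H n ∪ E n)
  have hCF : FSig C := fsig_cons hKqcl (fun n => (hHcl n).union (hE n).isClosed)
  have hsub : ∀ n, H n ∪ E n ⊆ C := fun n =>
    (subset_iUnion (fun n => H n ∪ E n) n).trans subset_union_right
  have hCS : SemiC C := by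
    apply semiC_of_base q
    intro y hy
    rcases hy with hy | hy
    · exact ⟨Kq, subset_union_left, hKqcl.isCompact, hKqc, hy, hqKq⟩
    · obtain ⟨n, hn⟩ := mem_iUnion.1 hy
      refine ⟨Kq ∪ (E n ∪ H n), ?_, ?_, ?_, Or.inr hn.symm, Or.inl hqKq⟩
      · apply union_subset subset_union_left
        rw [union_comm (E n)]
        exact hsub n
      · exact hKqcl.isCompact.union ((hE n).union (hHcl n).isCompact)
      · have h1 : IsConnected (E n ∪ H n) := (hEc n).union (hEH n) (hHc n)
        apply hKqc.union _ h1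
        obtain ⟨z, hz1, hz2⟩ := hEK n
        exact ⟨z, hz2, Or.inl hz1⟩
  have hpC : p ∈ closure C := by
    rw [Metric.mem_closure_iff]
    intro δ hδ
    obtain ⟨n, hn⟩ := exists_nat_gt (ρ / δ)
    refine ⟨x n, hsub n (Or.inl (mem_connectedComponentIn (hxmem n))), ?_⟩
    rw [dist_comm]
    refine (hx n).trans ?_
    rw [div_lt_iff₀ (by positivity)]
    rw [div_lt_iff₀ hδ] at hn
    nlinarith
  obtain ⟨D, hDC, hD, hDc, hpD, hqD⟩ :=
    lemmaA hstar hCF hCS hpC p (mem_insert _ _) q (Or.inr (Or.inl hqKq))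
  have hpA : p ∈ D ∩ closedBall p (ε / 2) := ⟨hpD, mem_closedBall_self (by positivity)⟩
  have hne : (D \ closedBall p (ε / 2)).Nonempty := by
    refine ⟨q, hqD, ?_⟩
    rw [mem_closedBall, dist_comm, not_le]
    linarith
  obtain ⟨y, hy1, hy2⟩ := boundary_bumping hD hDc.2 isClosed_closedBall hpA hne
  have hy3 : y ∈ D ∩ closedBall p (ε / 2) := connectedComponentIn_subset _ _ hy1
  have hyp : y ≠ p := by
    rintro rfl
    obtain ⟨z, hz1, hz2⟩ := mem_closure_iff.1 hy2 (ball y (ε / 2)) isOpen_ball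
      (mem_ball_self (by positivity))
    exact hz2.2 (ball_subset_closedBall hz1)
  have hyKp : y ∈ Kp := by
    have hsubs : connectedComponentIn (D ∩ closedBall p (ε / 2)) p ⊆ Kp := by
      apply isPreconnected_connectedComponentIn.subset_connectedComponentIn
        (mem_connectedComponentIn hpA)
      intro z hz
      have hz' := (connectedComponentIn_subset _ _ hz).2
      rw [mem_compl_iff, mem_ball, not_lt]
      rw [mem_closedBall] at hz'
      have h1 := dist_triangle_left p q z
      linarith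
    exact hsubs hy1
  have hyC : y ∈ C := (hDC hy3.1).resolve_left hyp
  have hyd : dist y p ≤ ε / 2 := hy3.2
  rcases hyC with h | h
  · have := connectedComponentIn_subset _ _ h
    rw [mem_compl_iff, mem_ball] at this
    linarith
  · obtain ⟨n, hn | hn⟩ := mem_iUnion.1 h
    · -- y in H n and in Kp
      have hsub' : Kp ⊆ connectedComponentIn (ball q (r n))ᶜ p := by
        apply connectedComponentIn_mono
        apply compl_subset_compl.2
        apply ball_subset_ball
        exact ((hr n).trans_le (hηρ n)).le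
      have h1 := connectedComponentIn_eq (hsub' hyKp)
      have h2' := connectedComponentIn_eq hn
      apply hxK n
      rw [h1, ← h2']
      exact mem_connectedComponentIn (hxmem n)
    · have : y ∈ E n ∩ Kp ∩ ball p ε := ⟨⟨hn, hyKp⟩, by rw [mem_ball]; linarith⟩
      rw [hemp n] at this
      exact this

theorem main [ConnectedSpace X] (hstar : Star X) (p q : X) (hpq : p ≠ q)
    (hp : ¬ ∃ K : Set X, IsCompact K ∧ IsConnected K ∧ p ∈ interior K ∧ q ∉ K) : False := by
  have hd : 0 < dist p q := dist_pos.2 hpq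
  set ρ : ℝ := dist p q / 3 with hρdef
  have hρ : 0 < ρ := by positivity
  have h2 : 2 * ρ < dist p q := by rw [hρdef]; linarith
  have h2' : 2 * ρ < dist q p := by rwa [dist_comm]
  obtain ⟨ηp, hηp, Hp⟩ := claim3 hstar hρ le_rfl h2
  obtain ⟨ηq, hηq, Hq⟩ := claim3 hstar hρ le_rfl h2'
  set s : ℝ := min ηq ρ / 2 with hs
  have hs0 : 0 < s := by rw [hs]; have := lt_min hηq hρ; linarith
  have hsρ : s ≤ ρ := by rw [hs]; have := min_le_right ηq ρ; linarith
  have hsq : s < ηq := by
    rw [hs]; have := min_le_left ηq ρ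
    have h3 := lt_min hηq hρ
    linarith
  obtain ⟨η', hη', H'⟩ := claim3 hstar hs0 hsρ h2
  set r : ℝ := min (min ηp η') (min ηq ρ) / 2 with hr
  have hr0 : 0 < r := by
    rw [hr]
    have := lt_min (lt_min hηp hη') (lt_min hηq hρ)
    linarith
  have hrall : 2 * r ≤ ηp ∧ 2 * r ≤ η' ∧ 2 * r ≤ ηq ∧ 2 * r ≤ ρ := by
    have e : 2 * r = min (min ηp η') (min ηq ρ) := by rw [hr]; ring
    rw [e]
    refine ⟨?_, ?_, ?_, ?_⟩
    · exact (min_le_left _ _).trans (min_le_left _ _)
    · exact (min_le_left _ _).trans (min_le_right _ _)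
    · exact (min_le_right _ _).trans (min_le_left _ _)
    · exact (min_le_right _ _).trans (min_le_right _ _)
  obtain ⟨hr1, hr2, hr3, hr4⟩ := hrall
  -- the component of p in the complement of ball q r is not a neighbourhood of p
  have hpmem : p ∈ (ball q r)ᶜ := by
    rw [mem_compl_iff, mem_ball, not_lt]; linarith
  have hnot : p ∉ interior (connectedComponentIn (ball q r)ᶜ p) := by
    intro h
    apply hp
    refine ⟨_, (isClosed_comp isOpen_ball.isClosed_compl p).isCompact,
      isConnected_connectedComponentIn_iff.2 hpmem, h, ?_⟩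
    intro hq'
    have := connectedComponentIn_subset _ _ hq'
    exact this (mem_ball_self hr0)
  obtain ⟨x, hxr, hxK⟩ : ∃ x, dist x p < r ∧ x ∉ connectedComponentIn (ball q r)ᶜ p := by
    by_contra hcon
    push Not at hcon
    apply hnot
    rw [mem_interior_iff_mem_nhds, Metric.mem_nhds_iff]
    exact ⟨r, hr0, fun y hy => hcon y hy⟩
  have hxmem : x ∈ (ball q r)ᶜ := by
    rw [mem_compl_iff, mem_ball, not_lt]
    have h1 := dist_triangle_left p q x
    linarith
  -- boundary bumping gives b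
  obtain ⟨b, hb1, hb2⟩ := boundary_bumping (D := (univ : Set X)) (A := (ball q r)ᶜ)
    isCompact_univ isPreconnected_univ isOpen_ball.isClosed_compl ⟨mem_univ x, hxmem⟩
    ⟨q, mem_univ q, fun h => h (mem_ball_self hr0)⟩
  rw [univ_inter] at hb1
  have hbmem : b ∈ (ball q r)ᶜ := connectedComponentIn_subset _ _ hb1
  have hbq : dist b q ≤ r := by
    have : closure (univ \ (ball q r)ᶜ) ⊆ closedBall q r := by
      apply closure_minimal _ isClosed_closedBall
      intro z hz
      have : z ∈ ball q r := by simpa using hz.2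
      exact ball_subset_closedBall this
    exact this hb2
  have hqmemρ : q ∈ (ball p ρ)ᶜ := by
    rw [mem_compl_iff, mem_ball, dist_comm, not_lt]; linarith
  have hpmemρ : p ∈ (ball q ρ)ᶜ := by
    rw [mem_compl_iff, mem_ball, not_lt]; linarith
  have hqmems : q ∈ (ball p s)ᶜ := by
    rw [mem_compl_iff, mem_ball, dist_comm, not_lt]; linarith
  set Kp := connectedComponentIn (ball q ρ)ᶜ p with hKp
  set Kq := connectedComponentIn (ball p ρ)ᶜ q with hKq
  have hKpcl : IsClosed Kp := isClosed_comp isOpen_ball.isClosed_compl p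
  have hKqcl : IsClosed Kq := isClosed_comp isOpen_ball.isClosed_compl q
  have hpKp : p ∈ Kp := mem_connectedComponentIn hpmemρ
  have hqKq : q ∈ Kq := mem_connectedComponentIn hqmemρ
  -- b is not in K_q(s)
  have hbs : b ∉ connectedComponentIn (ball p s)ᶜ q := by
    intro hbs
    obtain ⟨z, ⟨hz1, hz2⟩, hz3⟩ := H' x (by linarith) r hr0 (by linarith) hxK
      (connectedComponentIn (ball p s)ᶜ q) (isClosed_comp isOpen_ball.isClosed_compl q).isCompact
      (isConnected_connectedComponentIn_iff.2 hqmems)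
      (fun h => (connectedComponentIn_subset _ _ h) (mem_ball_self hs0))
      ⟨b, hbs, hb1⟩ ⟨q, mem_connectedComponentIn hqmems, hqKq⟩
    exact (connectedComponentIn_subset _ _ hz1) hz3
  have hbKq : b ∉ Kq := fun h => hbs
    (connectedComponentIn_mono _ (compl_subset_compl.2 (ball_subset_ball hsρ)) h)
  have hbKp : b ∉ Kp := by
    intro h
    have h1 : b ∈ connectedComponentIn (ball q r)ᶜ p :=
      connectedComponentIn_mono _ (compl_subset_compl.2 (ball_subset_ball (by linarith))) h
    apply hxK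
    rw [connectedComponentIn_eq h1, ← connectedComponentIn_eq hb1]
    exact mem_connectedComponentIn hxmem
  -- minimal continuum
  obtain ⟨F, -, hF, hFc, hbF, ⟨x₀, hx₀F, hx₀T⟩, hmin⟩ :=
    exists_minimal_continuum (D := (univ : Set X)) (T := Kp ∪ Kq) isCompact_univ isConnected_univ
      (hKpcl.union hKqcl) (mem_univ b) ⟨p, mem_univ p, Or.inl hpKp⟩
  have hbx : b ≠ x₀ := by
    rintro rfl
    exact hx₀T.elim hbKp hbKq
  -- the union of continua in F containing b and missing x₀
  let κ : Set X := ⋃ n : ℕ, connectedComponentIn (F ∩ (ball x₀ (dist b x₀ / (n + 1)))ᶜ) b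
  have hdb : 0 < dist b x₀ := dist_pos.2 hbx
  have hbn : ∀ n : ℕ, b ∈ F ∩ (ball x₀ (dist b x₀ / (n + 1)))ᶜ := by
    intro n
    refine ⟨hbF, ?_⟩
    rw [mem_compl_iff, mem_ball, not_lt]
    apply div_le_self hdb.le
    have : (0 : ℝ) ≤ n := Nat.cast_nonneg n
    linarith
  have hκcl : ∀ n : ℕ, IsClosed (connectedComponentIn (F ∩ (ball x₀ (dist b x₀ / (n + 1)))ᶜ) b) :=
    fun n => isClosed_comp (hF.isClosed.inter isOpen_ball.isClosed_compl) b
  have hκF : FSig κ := ⟨_, hκcl, rfl⟩
  have hκsub : κ ⊆ F := by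
    intro y hy
    obtain ⟨n, hn⟩ := mem_iUnion.1 hy
    exact (connectedComponentIn_subset _ _ hn).1
  have hκS : SemiC κ := by
    apply semiC_of_base b
    intro y hy
    obtain ⟨n, hn⟩ := mem_iUnion.1 hy
    exact ⟨_, subset_iUnion (fun n : ℕ => connectedComponentIn (F ∩ (ball x₀ (dist b x₀ / (n + 1)))ᶜ) b) n,
      (hκcl n).isCompact, isConnected_connectedComponentIn_iff.2 (hbn n), hn,
      mem_connectedComponentIn (hbn n)⟩
  have hx₀κ : x₀ ∈ closure κ := by
    rw [Metric.mem_closure_iff]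
    intro δ hδ
    obtain ⟨n, hn⟩ := exists_nat_gt (dist b x₀ / δ)
    have hpos : 0 < dist b x₀ / (n + 1 : ℝ) := by positivity
    obtain ⟨y, hy1, hy2⟩ := boundary_bumping hF hFc.2
      (isOpen_ball (x := x₀) (ε := dist b x₀ / (n + 1))).isClosed_compl (hbn n)
      ⟨x₀, hx₀F, fun h => h (mem_ball_self hpos)⟩
    refine ⟨y, mem_iUnion.2 ⟨n, hy1⟩, ?_⟩
    have : closure (F \ (ball x₀ (dist b x₀ / (n + 1)))ᶜ) ⊆ closedBall x₀ (dist b x₀ / (n + 1)) := by
      apply closure_minimal _ isClosed_closedBall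
      intro z hz
      have : z ∈ ball x₀ (dist b x₀ / (n + 1)) := by simpa using hz.2
      exact ball_subset_closedBall this
    have h3 : dist y x₀ ≤ dist b x₀ / (n + 1) := this hy2
    rw [dist_comm]
    refine h3.trans_lt ?_
    rw [div_lt_iff₀ (by positivity)]
    rw [div_lt_iff₀ hδ] at hn
    nlinarith
  obtain ⟨D, hDκ, hD, hDc, hx₀D, hbD⟩ := lemmaA hstar hκF hκS hx₀κ x₀ (mem_insert _ _) b
    (Or.inr (mem_iUnion.2 ⟨0, mem_connectedComponentIn (hbn 0)⟩))
  have hDF : D = F := hmin D (hDκ.trans (insert_subset hx₀F hκsub)) hD hDc hbD ⟨x₀, hx₀D, hx₀T⟩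
  have huniq : ∀ y ∈ F, y ∈ Kp ∪ Kq → y = x₀ := by
    intro y hyF hyT
    have hyD : y ∈ insert x₀ κ := by
      apply hDκ
      rw [hDF]
      exact hyF
    rcases hyD with h | h
    · exact h
    · exfalso
      obtain ⟨n, hn⟩ := mem_iUnion.1 h
      have hpos : 0 < dist b x₀ / (n + 1 : ℝ) := by positivity
      have := hmin _ ((connectedComponentIn_subset _ _).trans inter_subset_left)
        (hκcl n).isCompact (isConnected_connectedComponentIn_iff.2 (hbn n))
        (mem_connectedComponentIn (hbn n)) ⟨y, hn, hyT⟩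
      have hx₀' : x₀ ∈ connectedComponentIn (F ∩ (ball x₀ (dist b x₀ / (n + 1)))ᶜ) b := by
        rw [this]; exact hx₀F
      exact (connectedComponentIn_subset _ _ hx₀').2 (mem_ball_self hpos)
  rcases hx₀T with hx₀p | hx₀q
  · -- x₀ in Kp
    by_cases hqF : q ∈ F
    · have : q = x₀ := huniq q hqF (Or.inr hqKq)
      rw [← this] at hx₀p
      exact (connectedComponentIn_subset _ _ hx₀p) (mem_ball_self hρ)
    · obtain ⟨z, ⟨hz1, hz2⟩, hz3⟩ := Hq b (by linarith) s hs0 hsq hbs F hF hFc hqF
        ⟨b, hbF, mem_connectedComponentIn (by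
          rw [mem_compl_iff, mem_ball, not_lt]
          have h1 := dist_triangle_left p q b
          linarith)⟩ ⟨x₀, hx₀F, hx₀p⟩
      have := huniq z hz1 (Or.inr hz2)
      rw [this] at hz3
      exact (connectedComponentIn_subset _ _ hx₀p) hz3
  · by_cases hpF : p ∈ F
    · have : p = x₀ := huniq p hpF (Or.inl hpKp)
      rw [← this] at hx₀q
      exact (connectedComponentIn_subset _ _ hx₀q) (mem_ball_self hρ)
    · obtain ⟨z, ⟨hz1, hz2⟩, hz3⟩ := Hp x (by linarith) r hr0 (by linarith) hxK F hF hFc hpF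
        ⟨b, hbF, hb1⟩ ⟨x₀, hx₀F, hx₀q⟩
      have := huniq z hz1 (Or.inl hz2)
      rw [this] at hz3
      exact (connectedComponentIn_subset _ _ hx₀q) hz3

end Metric

/-- In a metrizable continuum where every σ-connected F_σ subset has any two of its points inside a subcontinuum of that subset, any two distinct points p,q admit a subcontinuum containing one of them in its interior and missing the other. -/
theorem result :
    ∀ (X : Type) [TopologicalSpace X] [TopologicalSpace.MetrizableSpace X]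
      [CompactSpace X] [ConnectedSpace X],
      (∀ A : Set X,
        (∃ C : ℕ → Set X, (∀ n, IsClosed (C n)) ∧ A = ⋃ n, C n) →
        (¬ ∃ F : ℕ → Set X,
            (∀ n, ∃ D : Set X, IsClosed D ∧ F n = D ∩ A) ∧
            (∀ i j, i ≠ j → Disjoint (F i) (F j)) ∧
            (⋃ n, F n) = A ∧
            (∃ i j, i ≠ j ∧ (F i).Nonempty ∧ (F j).Nonempty)) →
        ∀ x ∈ A, ∀ y ∈ A, ∃ K : Set X, K ⊆ A ∧ IsCompact K ∧ IsConnected K ∧ x ∈ K ∧ y ∈ K) →
      ∀ p q : X, p ≠ q →
        (∃ K : Set X, IsCompact K ∧ IsConnected K ∧ p ∈ interior K ∧ q ∉ K) ∨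
        (∃ K : Set X, IsCompact K ∧ IsConnected K ∧ q ∈ interior K ∧ p ∉ K) := by
  intro X _ _ _ _ hstar p q hpq
  letI : MetricSpace X := TopologicalSpace.metrizableSpaceMetric X
  by_contra hcon
  push Not at hcon
  refine main hstar p q hpq ?_
  rintro ⟨K, h1, h2, h3, h4⟩
  exact h4 (hcon.1 K h1 h2 h3)

end Pool.Agent.S08723
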