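import Pool.Statements.S08728
import Pool.Agent.Helper607.Wild.Final

set_option autoImplicit false
open Pool Pool.MP_9c27b0_gt

namespace Pool.Agent.S08728

/-- The negation of the preceding statement: For topological 2-spheres S1, S2, S3 in R^3 with S3 inside S2 and S2 inside S1 (inside = bounded complementary region), some topological sphere S4 lies inside S1 and has S2 inside it, or lies inside S2 and has S3 inside it. -/
theorem result :
    ¬ (∀ ins : Set (EuclideanSpace ℝ (Fin 3)) → Set (EuclideanSpace ℝ (Fin 3)),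
      (∀ S : Set (EuclideanSpace ℝ (Fin 3)),
        ins S = {x | x ∉ S ∧ Bornology.IsBounded (connectedComponentIn Sᶜ x)}) →
      ∀ f₁ f₂ f₃ : Metric.sphere (0 : EuclideanSpace ℝ (Fin 3)) 1 → EuclideanSpace ℝ (Fin 3),
        Continuous f₁ → Function.Injective f₁ →
        Continuous f₂ → Function.Injective f₂ →
        Continuous f₃ → Function.Injective f₃ →
        Set.range f₃ ⊆ ins (Set.range f₂) →
        Set.range f₂ ⊆ ins (Set.range f₁) →
        ∃ f₄ : Metric.sphere (0 : EuclideanSpace ℝ (Fin 3)) 1 → EuclideanSpace ℝ (Fin 3),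
          Continuous f₄ ∧ Function.Injective f₄ ∧
          ((Set.range f₄ ⊆ ins (Set.range f₁) ∧ Set.range f₂ ⊆ ins (Set.range f₄)) ∨
           (Set.range f₄ ⊆ ins (Set.range f₂) ∧ Set.range f₃ ⊆ ins (Set.range f₄)))) := by
  obtain ⟨f₁, f₂, f₃, h1, h1', h2, h2', h3, h3', h32, h21, hno12, hno23⟩ :=
    Pool.Agent.Helper607.Wild.the_three
  exact Pool.Agent.Helper607.Wild.transfer_three f₁ f₂ f₃ h1 h1' h2 h2' h3 h3' h32 h21 hno12 hno23

end Pool.Agent.S08728
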