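import Pool.Statements.S08729
import Pool.Agent.Helper102.KappaPc

set_option autoImplicit false
open Pool Pool.MP_9c5b30_gt

namespace Pool.Agent.S08729

open Pool.Agent.Helper102.KappaPc Topology Filter

/-- For every infinite cardinal κ and Tychonoff spaces X, Y with C_p(X) and C_p(Y) linearly homeomorphic: if every continuous image of X in a Tychonoff space of weight ≤ κ is compact, then the same holds for Y. -/
theorem result :
    ∀ (κ : Cardinal.{0}), Cardinal.aleph0 ≤ κ →
    ∀ (X Y : Type) [TopologicalSpace X] [T35Space X] [TopologicalSpace Y] [T35Space Y],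
      (∃ T : C(X, ℝ) ≃ₗ[ℝ] C(Y, ℝ),
        @Continuous C(X, ℝ) (Y → ℝ)
            (TopologicalSpace.induced (fun g : C(X, ℝ) => (g : X → ℝ))
              (inferInstance : TopologicalSpace (X → ℝ)))
            (inferInstance : TopologicalSpace (Y → ℝ))
            (fun g => ((T g : C(Y, ℝ)) : Y → ℝ)) ∧
        @Continuous C(Y, ℝ) (X → ℝ)
            (TopologicalSpace.induced (fun g : C(Y, ℝ) => (g : Y → ℝ))
              (inferInstance : TopologicalSpace (Y → ℝ)))
            (inferInstance : TopologicalSpace (X → ℝ))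
            (fun g => ((T.symm g : C(X, ℝ)) : X → ℝ))) →
      (∀ (Z : Type) [TopologicalSpace Z] [T35Space Z],
        (∃ B : Set (Set Z), TopologicalSpace.IsTopologicalBasis B ∧ Cardinal.mk B ≤ κ) →
        ∀ f : X → Z, Continuous f → IsCompact (Set.range f)) →
      (∀ (Z : Type) [TopologicalSpace Z] [T35Space Z],
        (∃ B : Set (Set Z), TopologicalSpace.IsTopologicalBasis B ∧ Cardinal.mk B ≤ κ) →
        ∀ f : Y → Z, Continuous f → IsCompact (Set.range f)) := by
  classical
  intro κ hκ X Y _ _ _ _ hT hX Z _ _ hB g hg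
  obtain ⟨T, hT1, hT2⟩ := hT
  -- bounded functions
  have hXb : ∀ f : C(X, ℝ), ∃ M : ℝ, ∀ x, |f x| ≤ M := by
    intro f
    have hc := hX ℝ ⟨_, TopologicalSpace.isBasis_countableBasis ℝ,
      ((TopologicalSpace.countable_countableBasis ℝ).le_aleph0).trans hκ⟩ f f.continuous
    obtain ⟨M, hM⟩ := hc.isBounded.exists_norm_le
    exact ⟨M, fun x => hM _ ⟨x, rfl⟩⟩
  have hYb := bounded_of_bounded T hT1 hXb
  -- the coordinates
  obtain ⟨ι, hι, φ, hφ⟩ := exists_inducing κ hκ Z hB
  let S : Set C(Y, ℝ) := Set.range (fun i => (φ i).comp ⟨g, hg⟩)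
  have hS : Cardinal.mk S ≤ κ := Cardinal.mk_range_le.trans hι
  let G := Submonoid.closure S
  have hG : Cardinal.mk G ≤ κ := mk_closure_le κ hκ S hS
  -- the maps
  let v : Y → (G → ℝ) := fun y h => h.1 y
  let u : X → (G → ℝ) := fun x h => (T.symm h.1) x
  have hv : Continuous v := continuous_pi fun h => h.1.continuous
  have hu : Continuous u := continuous_pi fun h => (T.symm h.1).continuous
  have hX0 : IsCompact (Set.range u) := by
    have : T35Space (G → ℝ) := {}
    exact hX (G → ℝ) (exists_basis_pi κ hκ G hG) u hu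
  -- the compact sets of combinations
  let B : ℕ → Set (G → ℝ) := fun k =>
    (fun p : (Fin (Nat.unpair k).1 → ℝ) × (Fin (Nat.unpair k).1 → (G → ℝ)) => ∑ i, p.1 i • p.2 i) ''
      ((Set.pi Set.univ (fun _ => Set.Icc (-((Nat.unpair k).2 : ℝ)) ((Nat.unpair k).2 : ℝ))) ×ˢ
        (Set.pi Set.univ (fun _ => Set.range u)))
  have hBc : ∀ k, IsCompact (B k) := by
    intro k
    apply IsCompact.image
    · exact (isCompact_univ_pi fun _ => isCompact_Icc).prod (isCompact_univ_pi fun _ => hX0)
    · fun_prop
  have hcov : ∀ y, ∃ k, v y ∈ B k := by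
    intro y
    obtain ⟨n, c, x, hrep⟩ := exists_repr T.toLinearMap hT1 y
    obtain ⟨m, hm⟩ := exists_nat_ge (∑ i, |c i|)
    refine ⟨Nat.pair n m, ?_⟩
    have hgoal : ∀ q : ℕ × ℕ, q = (n, m) → v y ∈
        (fun p : (Fin q.1 → ℝ) × (Fin q.1 → (G → ℝ)) => ∑ i, p.1 i • p.2 i) ''
          ((Set.pi Set.univ (fun _ => Set.Icc (-(q.2 : ℝ)) (q.2 : ℝ))) ×ˢ
            (Set.pi Set.univ (fun _ => Set.range u))) := by
      rintro q rfl
      refine ⟨(c, fun i => u (x i)), ⟨?_, ?_⟩, ?_⟩
      · intro i _
        have h1 : |c i| ≤ ∑ i, |c i| := Finset.single_le_sum (f := fun i => |c i|)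
          (fun i _ => abs_nonneg _) (Finset.mem_univ i)
        exact abs_le.1 (h1.trans hm)
      · intro i _
        exact ⟨x i, rfl⟩
      · funext h
        have h1 := hrep (T.symm h.1)
        have h2 : T (T.symm h.1) y = h.1 y := by rw [LinearEquiv.apply_symm_apply]
        simp only [Finset.sum_apply, Pi.smul_apply, smul_eq_mul, v, u]
        rw [← h2]
        exact h1.symm
    exact hgoal _ (Nat.unpair_pair n m)
  -- key lemma: points in the closure of the image of `Y` lying in some `B k` are in the image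
  have key : ∀ k, ∀ w ∈ closure (Set.range v), w ∈ B k → w ∈ Set.range v := by
    rintro k w hw ⟨⟨c, z⟩, ⟨_, hz⟩, rfl⟩
    have hz' : ∀ i, ∃ x, u x = z i := fun i => hz i (Set.mem_univ i)
    choose x hx using hz'
    obtain rfl : (fun i => u (x i)) = z := funext hx
    -- the functional
    let W : C(Y, ℝ) →ₗ[ℝ] ℝ :=
      { toFun := fun h => ∑ i, c i * (T.symm h) (x i)
        map_add' := by
          intro h1 h2
          simp only [map_add, ContinuousMap.add_apply, mul_add, Finset.sum_add_distrib]
        map_smul' := by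
          intro a h
          simp only [map_smul, ContinuousMap.smul_apply, smul_eq_mul, RingHom.id_apply,
            Finset.mul_sum]
          refine Finset.sum_congr rfl fun i _ => by ring }
    have hWdef : ∀ h, W h = ∑ i, c i * (T.symm h) (x i) := fun h => rfl
    -- finite support
    have hfin : ∃ J : Finset Y, ∀ h : C(Y, ℝ), (∀ y ∈ J, h y = 0) → W h = 0 := by
      have h1 := fun i => exists_finset_of_continuous T.symm.toLinearMap hT2 (x i)
      choose A hA using h1
      refine ⟨Finset.univ.biUnion A, fun h hh => ?_⟩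
      rw [hWdef]
      apply Finset.sum_eq_zero
      intro i _
      have : (T.symm h) (x i) = 0 := hA i h (fun y hy => hh y (Finset.mem_biUnion.2 ⟨i, Finset.mem_univ i, hy⟩))
      rw [this, mul_zero]
    obtain ⟨J, hJ⟩ := hfin
    -- a filter along which `v` tends to `w`
    have hne : (Filter.comap v (𝓝 (∑ i, c i • u (x i)))).NeBot := by
      rw [Filter.comap_neBot_iff]
      intro t ht
      obtain ⟨_, h1, ⟨y, rfl⟩⟩ := mem_closure_iff_nhds.1 hw t ht
      exact ⟨y, h1⟩
    have hlim : ∀ h : G, Tendsto (fun y => h.1 y) (Filter.comap v (𝓝 (∑ i, c i • u (x i)))) (𝓝 (W h.1)) := by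
      intro h
      have h1 : Tendsto v (Filter.comap v (𝓝 (∑ i, c i • u (x i)))) (𝓝 (∑ i, c i • u (x i))) :=
        tendsto_comap
      have h2 := ((continuous_apply h).tendsto (∑ i, c i • u (x i))).comp h1
      have h3 : (∑ i, c i • u (x i)) h = W h.1 := by
        simp [hWdef, u, Finset.sum_apply]
      rw [h3] at h2
      exact h2
    have hspan : ∀ h ∈ Submodule.span ℝ (G : Set C(Y, ℝ)),
        Tendsto (fun y => h y) (Filter.comap v (𝓝 (∑ i, c i • u (x i)))) (𝓝 (W h)) := by
      intro h hh
      induction hh using Submodule.span_induction with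
      | mem h hh => exact hlim ⟨h, hh⟩
      | zero => simp
      | add h1 h2 _ _ ih1 ih2 => simpa using! ih1.add ih2
      | smul a h _ ih => simpa using! ih.const_mul a
    by_contra hnot
    have hex : ∀ y : Y, ∃ h : G, W h.1 ≠ h.1 y := by
      intro y
      by_contra hcon
      push Not at hcon
      apply hnot
      refine ⟨y, ?_⟩
      funext h
      have h3 : (∑ i, c i • u (x i)) h = W h.1 := by
        simp [hWdef, u, Finset.sum_apply]
      show h.1 y = (∑ i, c i • u (x i)) h
      rw [h3, hcon h]
    choose q hq using hex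
    let P : C(Y, ℝ) := ∏ j ∈ J, ((q j).1 - algebraMap ℝ C(Y, ℝ) ((q j).1 j))
    have hP : P ∈ Submodule.span ℝ (G : Set C(Y, ℝ)) := by
      rw [← Algebra.adjoin_eq_span]
      show P ∈ Algebra.adjoin ℝ S
      apply Subalgebra.prod_mem
      intro j _
      apply Subalgebra.sub_mem
      · have : (q j).1 ∈ Submodule.span ℝ (G : Set C(Y, ℝ)) := Submodule.subset_span (q j).2
        rw [← Algebra.adjoin_eq_span] at this
        exact this
      · exact Subalgebra.algebraMap_mem _ _
    have hPval : ∀ y, P y = ∏ j ∈ J, ((q j).1 y - (q j).1 j) := by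
      intro y
      simp only [P, ContinuousMap.coe_prod, Finset.prod_apply]
      rfl
    have hPJ : W P = 0 := by
      apply hJ
      intro j hj
      rw [hPval]
      exact Finset.prod_eq_zero hj (sub_self _)
    have hlimP := hspan P hP
    rw [hPJ] at hlimP
    have hlimP2 : Tendsto (fun y => P y) (Filter.comap v (𝓝 (∑ i, c i • u (x i))))
        (𝓝 (∏ j ∈ J, (W (q j).1 - (q j).1 j))) := by
      simp only [hPval]
      apply tendsto_finsetProd
      intro j _
      exact (hlim (q j)).sub_const _
    have h0 := tendsto_nhds_unique hlimP hlimP2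
    have := Finset.prod_ne_zero_iff.2 (fun j (_ : j ∈ J) => sub_ne_zero.2 (hq j))
    exact this h0.symm
  -- the image of `Y` is closed
  have hclosed : IsClosed (Set.range v) := by
    rw [← closure_subset_iff_isClosed]
    intro w hw
    by_contra hwn
    let C : ℕ → Set (G → ℝ) := fun k => closure (Set.range v) ∩ B k
    have hCc : ∀ k, IsClosed (C k) := fun k => isClosed_closure.inter (hBc k).isClosed
    have hwC : ∀ k, w ∉ C k := fun k hk => hwn (key k w hk.1 hk.2)
    have hex : ∀ k, ∃ h : (G → ℝ) → unitInterval, Continuous h ∧ h w = 0 ∧ Set.EqOn h 1 (C k) :=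
      fun k => CompletelyRegularSpace.completely_regular w (C k) (hCc k) (hwC k)
    choose h hc h0 h1 using hex
    let H : (G → ℝ) → ℝ := fun p => ∑' k : ℕ, (1 / 2 : ℝ) ^ k * (h k p : ℝ)
    have hsummable : Summable (fun k : ℕ => (1 / 2 : ℝ) ^ k) := summable_geometric_two
    have hbound : ∀ k p, ‖(1 / 2 : ℝ) ^ k * (h k p : ℝ)‖ ≤ (1 / 2 : ℝ) ^ k := by
      intro k p
      rw [norm_mul, Real.norm_of_nonneg (by positivity), Real.norm_of_nonneg (h k p).2.1]
      exact mul_le_of_le_one_right (by positivity) (h k p).2.2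
    have hHc : Continuous H := by
      apply continuous_tsum (u := fun k : ℕ => (1 / 2 : ℝ) ^ k)
      · intro k
        exact continuous_const.mul (continuous_subtype_val.comp (hc k))
      · exact hsummable
      · exact hbound
    have hHw : H w = 0 := by
      simp [H, h0]
    have hsum : ∀ p, Summable (fun k : ℕ => (1 / 2 : ℝ) ^ k * (h k p : ℝ)) := fun p =>
      Summable.of_norm_bounded hsummable (fun k => hbound k p)
    have hHpos : ∀ y, 0 < H (v y) := by
      intro y
      obtain ⟨k, hk⟩ := hcov y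
      have hmem : v y ∈ C k := ⟨subset_closure ⟨y, rfl⟩, hk⟩
      have h2 : h k (v y) = 1 := h1 k hmem
      have h3 : (1 / 2 : ℝ) ^ k * (h k (v y) : ℝ) ≤ H (v y) :=
        (hsum (v y)).le_tsum k (fun j _ => mul_nonneg (by positivity) (h j (v y)).2.1)
      rw [h2] at h3
      have : (0 : ℝ) < (1 / 2 : ℝ) ^ k * ((1 : unitInterval) : ℝ) := by
        simp
      linarith
    let R : C(Y, ℝ) := ⟨fun y => (H (v y))⁻¹, (hHc.comp hv).inv₀ (fun y => (hHpos y).ne')⟩
    obtain ⟨M, hM⟩ := hYb R
    have hMy : ∀ y, 1 ≤ M * H (v y) := by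
      intro y
      have h3 : (H (v y))⁻¹ ≤ M := (le_abs_self _).trans (hM y)
      have h4 := mul_le_mul_of_nonneg_right h3 (hHpos y).le
      rwa [inv_mul_cancel₀ (hHpos y).ne'] at h4
    have hcl : closure (Set.range v) ⊆ {p | 1 ≤ M * H p} := by
      apply closure_minimal
      · rintro _ ⟨y, rfl⟩
        exact hMy y
      · exact isClosed_le continuous_const (continuous_const.mul hHc)
    have := hcl hw
    simp only [Set.mem_ofPred_eq, hHw, mul_zero] at this
    linarith
  -- and bounded, hence compact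
  have hYc : IsCompact (Set.range v) := by
    choose M hM using hYb
    apply IsCompact.of_isClosed_subset
      (isCompact_univ_pi (fun h : G => isCompact_Icc (a := -M h.1) (b := M h.1))) hclosed
    rintro _ ⟨y, rfl⟩ h _
    exact abs_le.1 (hM h.1 y)
  -- back to `Z`
  rw [hφ.isCompact_iff]
  let ρ : (G → ℝ) → (ι → ℝ) := fun w i => w ⟨(φ i).comp ⟨g, hg⟩, Submonoid.subset_closure ⟨i, rfl⟩⟩
  have hρ : Continuous ρ := continuous_pi fun i => continuous_apply _
  have himg : (fun z i => φ i z) '' Set.range g = ρ '' Set.range v := by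
    rw [← Set.range_comp, ← Set.range_comp]
    rfl
  rw [himg]
  exact hYc.image hρ

end Pool.Agent.S08729
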