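import Pool.Statements.S08735
-- import your own Pool.Agent.* helpers here
import Pool.Agent.Helper822.TC.Final

set_option autoImplicit false
open Pool Pool.MP_9cddd8_gt

namespace Pool.Agent.S08735

/-- There exist two different compact convex sets in the plane, each containing the closed unit disc in its interior, whose chords on every line at distance 1 from the origin (tangent to the unit circle) have equal lengths. -/
theorem result :
    ∃ K₁ K₂ : Set (EuclideanSpace ℝ (Fin 2)),
      IsCompact K₁ ∧ Convex ℝ K₁ ∧ IsCompact K₂ ∧ Convex ℝ K₂ ∧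
      Metric.closedBall (0 : EuclideanSpace ℝ (Fin 2)) 1 ⊆ interior K₁ ∧
      Metric.closedBall (0 : EuclideanSpace ℝ (Fin 2)) 1 ⊆ interior K₂ ∧
      (∀ e : EuclideanSpace ℝ (Fin 2), ‖e‖ = 1 →
        Metric.diam (K₁ ∩ {x | inner ℝ x e = (1 : ℝ)}) =
          Metric.diam (K₂ ∩ {x | inner ℝ x e = (1 : ℝ)})) ∧
      K₁ ≠ K₂ := by
  exact TC.main_thm

end Pool.Agent.S08735
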