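import Pool.Statements.S08741

set_option autoImplicit false
open Pool Pool.MP_9de622_gt

namespace Pool.Agent.S08741

/-- The embedding: (z1, z2) is sent to (z1, z2, |z2|^2). -/
noncomputable def emb (x : Fin 4 → ℝ) : Fin 5 → ℝ :=
  ![x 0, x 1, x 2, x 3, x 2 ^ 2 + x 3 ^ 2]

lemma sqrt_concave (x y a b : ℝ) (hx : 0 ≤ x) (hy : 0 ≤ y) (ha : 0 ≤ a) (hb : 0 ≤ b)
    (hab : a + b = 1) : a * √x + b * √y ≤ √(a * x + b * y) := by
  have h := Real.strictConcaveOn_sqrt.concaveOn.2 (x := x) (y := y) hx hy ha hb hab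
  simpa [smul_eq_mul] using h

lemma cos_scale (t l : ℝ) (ht : |t| ≤ Real.pi) (hl0 : 0 ≤ l) (hl1 : l ≤ 1) :
    Real.cos t ≤ Real.cos (l * t) := by
  rw [← Real.cos_abs t, ← Real.cos_abs (l * t)]
  apply Real.cos_le_cos_of_nonneg_of_le_pi (abs_nonneg _) ht
  rw [abs_mul, abs_of_nonneg hl0]
  nlinarith [abs_nonneg t]

/-- Parameter region for a superlevel set. -/
def Reg (p q r c : ℝ) : Set (ℝ × ℝ × ℝ) :=
  {P | 0 ≤ P.1 ∧ P.1 ≤ 1 ∧ |P.2.1| ≤ Real.pi ∧ |P.2.2| ≤ Real.pi ∧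
    c ≤ p * √(1 - P.1) * Real.cos P.2.1 + q * √P.1 * Real.cos P.2.2 + r * P.1}

lemma seg_angle (p q r c : ℝ) (hp : 0 ≤ p) (hq : 0 ≤ q) (P : ℝ × ℝ × ℝ)
    (hP : P ∈ Reg p q r c) : JoinedIn (Reg p q r c) P (P.1, 0, 0) := by
  apply JoinedIn.of_segment_subset
  rintro Q ⟨a, b, ha, hb, hab, rfl⟩
  obtain ⟨s, t, u⟩ := P
  obtain ⟨h0, h1, ht, hu, hc⟩ := hP
  simp only at h0 h1 ht hu hc
  have hs : a * s + b * s = s := by rw [← add_mul, hab, one_mul]
  have ha1 : a ≤ 1 := by linarith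
  simp only [Reg, Prod.smul_mk, Prod.mk_add_mk, smul_eq_mul, mul_zero, add_zero, Set.mem_ofPred_eq,
    hs]
  refine ⟨h0, h1, ?_, ?_, ?_⟩
  · rw [abs_mul, abs_of_nonneg ha]; nlinarith [abs_nonneg t]
  · rw [abs_mul, abs_of_nonneg ha]; nlinarith [abs_nonneg u]
  · have e1 := cos_scale t a ht ha ha1
    have e2 := cos_scale u a hu ha ha1
    have f1 : 0 ≤ p * √(1 - s) := mul_nonneg hp (Real.sqrt_nonneg _)
    have f2 : 0 ≤ q * √s := mul_nonneg hq (Real.sqrt_nonneg _)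
    nlinarith [mul_le_mul_of_nonneg_left e1 f1, mul_le_mul_of_nonneg_left e2 f2]

lemma seg_base (p q r c : ℝ) (hp : 0 ≤ p) (hq : 0 ≤ q) (s s' : ℝ)
    (hP : (s, (0 : ℝ), (0 : ℝ)) ∈ Reg p q r c) (hP' : (s', (0 : ℝ), (0 : ℝ)) ∈ Reg p q r c) :
    JoinedIn (Reg p q r c) (s, 0, 0) (s', 0, 0) := by
  apply JoinedIn.of_segment_subset
  rintro Q ⟨a, b, ha, hb, hab, rfl⟩
  obtain ⟨h0, h1, -, -, hc⟩ := hP
  obtain ⟨h0', h1', -, -, hc'⟩ := hP'
  simp only [Real.cos_zero, mul_one] at h0 h1 hc h0' h1' hc'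
  simp only [Reg, Prod.smul_mk, Prod.mk_add_mk, smul_eq_mul, mul_zero, add_zero, Set.mem_ofPred_eq,
    Real.cos_zero, mul_one, abs_zero]
  have k1 := sqrt_concave s s' a b h0 h0' ha hb hab
  have k2 := sqrt_concave (1 - s) (1 - s') a b (by linarith) (by linarith) ha hb hab
  have e : a * (1 - s) + b * (1 - s') = 1 - (a * s + b * s') := by
    linear_combination hab
  rw [e] at k2
  refine ⟨by positivity, by nlinarith, Real.pi_pos.le, Real.pi_pos.le, ?_⟩
  have m1 := mul_le_mul_of_nonneg_left k1 hq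
  have m2 := mul_le_mul_of_nonneg_left k2 hp
  have n1 := mul_le_mul_of_nonneg_left hc ha
  have n2 := mul_le_mul_of_nonneg_left hc' hb
  have : a * c + b * c = c := by rw [← add_mul, hab, one_mul]
  nlinarith

lemma reg_preconn (p q r c : ℝ) (hp : 0 ≤ p) (hq : 0 ≤ q) :
    IsPreconnected (Reg p q r c) := by
  rcases (Reg p q r c).eq_empty_or_nonempty with h | h
  · rw [h]; exact isPreconnected_empty
  · have : IsPathConnected (Reg p q r c) := by
      rw [isPathConnected_iff]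
      refine ⟨h, fun P hP Q hQ => ?_⟩
      have j1 := seg_angle p q r c hp hq P hP
      have j2 := seg_angle p q r c hp hq Q hQ
      exact (j1.trans (seg_base p q r c hp hq _ _ j1.target_mem j2.target_mem)).trans j2.symm
    exact this.isConnected.isPreconnected

/-- Parametrisation of the sphere. -/
noncomputable def par (α β : ℝ) (P : ℝ × ℝ × ℝ) : Fin 4 → ℝ :=
  ![√(1 - P.1) * Real.cos (α + P.2.1), √(1 - P.1) * Real.sin (α + P.2.1),
    √P.1 * Real.cos (β + P.2.2), √P.1 * Real.sin (β + P.2.2)]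

lemma par_cont (α β : ℝ) : Continuous (par α β) := by
  unfold par
  refine continuous_pi fun i => ?_
  fin_cases i <;> simp <;> fun_prop

lemma polar (a b : ℝ) : ∃ α : ℝ, a = √(a ^ 2 + b ^ 2) * Real.cos α ∧
    b = √(a ^ 2 + b ^ 2) * Real.sin α := by
  refine ⟨Complex.arg ⟨a, b⟩, ?_, ?_⟩
  · have h := Complex.norm_mul_cos_arg ⟨a, b⟩
    rw [Complex.norm_eq_sqrt_sq_add_sq] at h
    exact h.symm
  · have h := Complex.norm_mul_sin_arg ⟨a, b⟩
    rw [Complex.norm_eq_sqrt_sq_add_sq] at h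
    exact h.symm

lemma polar' (α a b : ℝ) : ∃ θ : ℝ, |θ| ≤ Real.pi ∧ a = √(a ^ 2 + b ^ 2) * Real.cos (α + θ) ∧
    b = √(a ^ 2 + b ^ 2) * Real.sin (α + θ) := by
  obtain ⟨γ, h1, h2⟩ := polar a b
  set θ := toIocMod Real.two_pi_pos (-Real.pi) (γ - α) with hθ
  have hmem := toIocMod_mem_Ioc Real.two_pi_pos (-Real.pi) (γ - α)
  have hz : θ = γ - α - toIocDiv Real.two_pi_pos (-Real.pi) (γ - α) * (2 * Real.pi) := by
    rw [hθ, toIocMod]; simp [zsmul_eq_mul]
  have hsum : α + θ = γ - (toIocDiv Real.two_pi_pos (-Real.pi) (γ - α) : ℤ) * (2 * Real.pi) := by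
    rw [hz]; ring
  refine ⟨θ, ?_, ?_, ?_⟩
  · rw [abs_le]
    constructor
    · exact hmem.1.le
    · have := hmem.2; rw [← hθ] at this; linarith
  · rw [hsum, Real.cos_sub_int_mul_two_pi]; exact h1
  · rw [hsum, Real.sin_sub_int_mul_two_pi]; exact h2

lemma superlevel (v : Fin 5 → ℝ) (c : ℝ) :
    IsPreconnected {x : Fin 4 → ℝ | ∑ i, x i ^ 2 = 1 ∧ c ≤ ∑ j, v j * emb x j} := by
  obtain ⟨α, ha1, ha2⟩ := polar (v 0) (v 1)
  obtain ⟨β, hb1, hb2⟩ := polar (v 2) (v 3)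
  set p := √(v 0 ^ 2 + v 1 ^ 2) with hp
  set q := √(v 2 ^ 2 + v 3 ^ 2) with hq
  have key : {x : Fin 4 → ℝ | ∑ i, x i ^ 2 = 1 ∧ c ≤ ∑ j, v j * emb x j} =
      par α β '' (Reg p q (v 4) c) := by
    ext x
    constructor
    · rintro ⟨h1, h2⟩
      simp only [Fin.sum_univ_four] at h1
      simp only [Fin.sum_univ_five, emb, Matrix.cons_val] at h2
      obtain ⟨θ, t0, t1, t2⟩ := polar' α (x 0) (x 1)
      obtain ⟨φ, f0, f1, f2⟩ := polar' β (x 2) (x 3)
      have hs : x 0 ^ 2 + x 1 ^ 2 = 1 - (x 2 ^ 2 + x 3 ^ 2) := by linarith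
      rw [hs] at t1 t2
      refine ⟨(x 2 ^ 2 + x 3 ^ 2, θ, φ), ⟨by positivity, by nlinarith [sq_nonneg (x 0), sq_nonneg (x 1)], t0, f0, ?_⟩, ?_⟩
      · simp only
        refine h2.trans (le_of_eq ?_)
        have c1 : v 0 * x 0 + v 1 * x 1 = p * √(1 - (x 2 ^ 2 + x 3 ^ 2)) * Real.cos θ := by
          have : Real.cos θ = Real.cos (α + θ) * Real.cos α + Real.sin (α + θ) * Real.sin α := by
            rw [← Real.cos_sub]; ring_nf
          rw [this]
          calc v 0 * x 0 + v 1 * x 1 = (p * Real.cos α) * (√(1 - (x 2 ^ 2 + x 3 ^ 2)) * Real.cos (α + θ))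
              + (p * Real.sin α) * (√(1 - (x 2 ^ 2 + x 3 ^ 2)) * Real.sin (α + θ)) := by
                rw [← ha1, ← ha2, ← t1, ← t2]
            _ = _ := by ring
        have c2 : v 2 * x 2 + v 3 * x 3 = q * √(x 2 ^ 2 + x 3 ^ 2) * Real.cos φ := by
          have : Real.cos φ = Real.cos (β + φ) * Real.cos β + Real.sin (β + φ) * Real.sin β := by
            rw [← Real.cos_sub]; ring_nf
          rw [this]
          calc v 2 * x 2 + v 3 * x 3 = (q * Real.cos β) * (√(x 2 ^ 2 + x 3 ^ 2) * Real.cos (β + φ))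
              + (q * Real.sin β) * (√(x 2 ^ 2 + x 3 ^ 2) * Real.sin (β + φ)) := by
                rw [← hb1, ← hb2, ← f1, ← f2]
            _ = _ := by ring
        linarith
      · funext i
        fin_cases i
        · simpa [par] using t1.symm
        · simpa [par] using t2.symm
        · simpa [par] using f1.symm
        · simpa [par] using f2.symm
    · rintro ⟨⟨s, θ, φ⟩, ⟨h0, h1, -, -, hc⟩, rfl⟩
      simp only at h0 h1 hc
      have s1 : √(1 - s) ^ 2 = 1 - s := Real.sq_sqrt (by linarith)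
      have s2 : √s ^ 2 = s := Real.sq_sqrt h0
      refine ⟨?_, ?_⟩
      · simp only [Fin.sum_univ_four, par, Matrix.cons_val]
        have e1 := Real.sin_sq_add_cos_sq (α + θ)
        have e2 := Real.sin_sq_add_cos_sq (β + φ)
        linear_combination (√(1 - s) ^ 2) * e1 + (√s ^ 2) * e2 + s1 + s2
      · simp only [Fin.sum_univ_five, emb, par, Matrix.cons_val]
        refine hc.trans (le_of_eq ?_)
        have e2 := Real.sin_sq_add_cos_sq (β + φ)
        have : Real.cos θ = Real.cos (α + θ) * Real.cos α + Real.sin (α + θ) * Real.sin α := by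
          rw [← Real.cos_sub]; ring_nf
        rw [this]
        have : Real.cos φ = Real.cos (β + φ) * Real.cos β + Real.sin (β + φ) * Real.sin β := by
          rw [← Real.cos_sub]; ring_nf
        rw [this]
        linear_combination (-(√(1 - s) * Real.cos (α + θ))) * ha1 - (√(1 - s) * Real.sin (α + θ)) * ha2
          - (√s * Real.cos (β + φ)) * hb1 - (√s * Real.sin (β + φ)) * hb2
          - v 4 * (√s ^ 2) * e2 - v 4 * s2
  rw [key]
  exact (reg_preconn p q (v 4) c (Real.sqrt_nonneg _) (Real.sqrt_nonneg _)).image _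
    (par_cont α β).continuousOn

lemma emb_contDiff : ContDiff ℝ ((⊤ : ℕ∞) : WithTop ℕ∞) emb := by
  unfold emb
  rw [contDiff_pi]
  intro i
  fin_cases i <;> simp <;> fun_prop

lemma emb_fderiv (x w : Fin 4 → ℝ) (h : fderiv ℝ emb x w = 0) : w = 0 := by
  have hd : DifferentiableAt ℝ emb x :=
    emb_contDiff.contDiffAt.differentiableAt (by simp)
  let L : (Fin 5 → ℝ) →L[ℝ] (Fin 4 → ℝ) :=
    ContinuousLinearMap.pi fun i : Fin 4 => ContinuousLinearMap.proj (Fin.castSucc i)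
  have hL : (fun y => L (emb y)) = fun y => y := by
    funext y i
    fin_cases i <;> rfl
  have h1 : fderiv ℝ (fun y => L (emb y)) x = L.comp (fderiv ℝ emb x) := by
    have := L.hasFDerivAt.comp x hd.hasFDerivAt
    exact this.fderiv
  rw [hL] at h1
  have h2 : w = L (fderiv ℝ emb x w) := by
    have := congrArg (fun A : (Fin 4 → ℝ) →L[ℝ] (Fin 4 → ℝ) => A w) h1
    simpa using this
  rw [h2, h, map_zero]

/-- There is a smooth injective immersion of the unit 3-sphere into R^5 such that the preimage of every closed half-space is connected or empty, and whose image lies in no affine hyperplane. -/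
theorem result :
    ∃ f : (Fin 4 → ℝ) → (Fin 5 → ℝ),
      ContDiff ℝ ((⊤ : ℕ∞) : WithTop ℕ∞) f ∧
      Set.InjOn f {x : Fin 4 → ℝ | ∑ i, x i ^ 2 = 1} ∧
      (∀ x : Fin 4 → ℝ, ∑ i, x i ^ 2 = 1 →
        ∀ w : Fin 4 → ℝ, ∑ i, x i * w i = 0 → fderiv ℝ f x w = 0 → w = 0) ∧
      (∀ v : Fin 5 → ℝ, ∀ c : ℝ,
        IsPreconnected {x : Fin 4 → ℝ |
          ∑ i, x i ^ 2 = 1 ∧ c ≤ ∑ j, v j * f x j}) ∧
      ¬ ∃ v : Fin 5 → ℝ, v ≠ 0 ∧ ∃ c : ℝ,
        ∀ x : Fin 4 → ℝ, ∑ i, x i ^ 2 = 1 → ∑ j, v j * f x j = c := by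
  refine ⟨emb, emb_contDiff, ?_, ?_, superlevel, ?_⟩
  · intro x _ y _ hxy
    have h : ∀ j, emb x j = emb y j := fun j => congrFun hxy j
    funext i
    fin_cases i
    · exact h 0
    · exact h 1
    · exact h 2
    · exact h 3
  · intro x _ w _ h
    exact emb_fderiv x w h
  · rintro ⟨v, hv, c, h⟩
    have e1 := h ![1, 0, 0, 0] (by simp [Fin.sum_univ_four])
    have e2 := h ![-1, 0, 0, 0] (by simp [Fin.sum_univ_four])
    have e3 := h ![0, 1, 0, 0] (by simp [Fin.sum_univ_four])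
    have e4 := h ![0, -1, 0, 0] (by simp [Fin.sum_univ_four])
    have e5 := h ![0, 0, 1, 0] (by simp [Fin.sum_univ_four])
    have e6 := h ![0, 0, -1, 0] (by simp [Fin.sum_univ_four])
    have e7 := h ![0, 0, 0, 1] (by simp [Fin.sum_univ_four])
    have e8 := h ![0, 0, 0, -1] (by simp [Fin.sum_univ_four])
    simp [Fin.sum_univ_five, emb] at e1 e2 e3 e4 e5 e6 e7 e8
    apply hv
    funext i
    fin_cases i <;> simp <;> linarith

end Pool.Agent.S08741
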