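import Pool.Statements.S08743
import Pool.Agent.H664.CsfFinal

set_option autoImplicit false
open Pool Pool.MP_9e6caf_gt

namespace Pool.Agent.S08743

/-- There is a curve in the plane, continuous on [0,1], such that for all 0 ≤ a < b ≤ 1 the image of [a,b] is a convex set with positive Lebesgue area. -/
theorem result :
    ∃ f : ℝ → EuclideanSpace ℝ (Fin 2),
      ContinuousOn f (Set.Icc (0 : ℝ) 1) ∧
      ∀ a b : ℝ, 0 ≤ a → a < b → b ≤ 1 →
        Convex ℝ (f '' Set.Icc a b) ∧
        0 < MeasureTheory.volume (f '' Set.Icc a b) := by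
  obtain ⟨f, hf1, hf2⟩ := Pool.Agent.H664.Csf.exists_curve
  refine ⟨f, hf1, fun a b ha hab hb => ?_⟩
  obtain ⟨h1, c, r, hr, h2⟩ := hf2 a b ha hab hb
  exact ⟨h1, lt_of_lt_of_le (Metric.measure_closedBall_pos _ c hr) (MeasureTheory.measure_mono h2)⟩

end Pool.Agent.S08743
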