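import Pool.Statements.S08754
-- import your own Pool.Agent.* helpers here

set_option autoImplicit false
open Pool Pool.MP_9fb79a_gt

namespace Pool.Agent.S08754

section Aux
open Set TopologicalSpace

/-- The Cantor space. -/
abbrev CT : Type := ℕ → Bool

/-- The point set `T × ℕ`. -/
@[ext] structure XX : Type where
  t : CT
  n : ℕ

/-- Column of a set. -/
def col (U : Set XX) (n : ℕ) : Set CT := {t | (⟨t, n⟩ : XX) ∈ U}

/-- The shadow of a set. -/
def shadow (U : Set XX) : Set CT := {t | ∃ n, (⟨t, n⟩ : XX) ∈ U}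

/-- Open sets: columns open, rows empty or cofinite. -/
def OpenX (U : Set XX) : Prop :=
  (∀ n, IsOpen (col U n)) ∧ ∀ t ∈ shadow U, {n | (⟨t, n⟩ : XX) ∉ U}.Finite

instance topX : TopologicalSpace XX where
  IsOpen := OpenX
  isOpen_univ := ⟨fun n => by simpa [col] using isOpen_univ, fun t _ => by simp⟩
  isOpen_inter U V hU hV := by
    refine ⟨fun n => (hU.1 n).inter (hV.1 n), ?_⟩
    rintro t ⟨n, hn⟩
    refine ((hU.2 t ⟨n, hn.1⟩).union (hV.2 t ⟨n, hn.2⟩)).subset ?_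
    intro m hm
    by_contra hcon
    rw [mem_union, not_or] at hcon
    exact hm ⟨not_not.mp hcon.1, not_not.mp hcon.2⟩
  isOpen_sUnion S hS := by
    refine ⟨fun n => ?_, ?_⟩
    · have : col (⋃₀ S) n = ⋃ U ∈ S, col U n := by
        ext t; simp [col]
      rw [this]
      exact isOpen_biUnion fun U hU => (hS U hU).1 n
    · rintro t ⟨n, U, hU, hn⟩
      refine ((hS U hU).2 t ⟨n, hn⟩).subset ?_
      intro m hm hmU
      exact hm ⟨U, hU, hmU⟩

theorem isOpen_iff {U : Set XX} : IsOpen U ↔ OpenX U := Iff.rfl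

theorem isOpen_shadow {U : Set XX} (hU : IsOpen U) : IsOpen (shadow U) := by
  have : shadow U = ⋃ n, col U n := by
    ext t; simp [shadow, col]
  rw [this]
  exact isOpen_iUnion fun n => hU.1 n

theorem shadow_mono {U V : Set XX} (h : U ⊆ V) : shadow U ⊆ shadow V :=
  fun _ ⟨n, hn⟩ => ⟨n, h hn⟩

theorem shadow_inter {U V : Set XX} (hU : IsOpen U) (hV : IsOpen V) :
    shadow (U ∩ V) = shadow U ∩ shadow V := by
  apply Subset.antisymm
  · exact subset_inter (shadow_mono inter_subset_left) (shadow_mono inter_subset_right)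
  · rintro t ⟨h1, h2⟩
    have hf := (hU.2 t h1).union (hV.2 t h2)
    obtain ⟨n, hn⟩ := hf.infinite_compl.nonempty
    rw [mem_compl_iff, mem_union, not_or] at hn
    exact ⟨n, not_not.mp hn.1, not_not.mp hn.2⟩

theorem shadow_univ : shadow (univ : Set XX) = univ := by
  ext t; simp [shadow]

theorem shadow_empty : shadow (∅ : Set XX) = ∅ := by
  ext t; simp [shadow]

/-- Removing a set with closed columns and finite rows. -/
theorem isOpen_compl_of {E : Set XX} (h1 : ∀ n, IsClosed (col E n))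
    (h2 : ∀ t, {n | (⟨t, n⟩ : XX) ∈ E}.Finite) : IsOpen Eᶜ := by
  refine ⟨fun n => ?_, fun t _ => ?_⟩
  · exact (h1 n).isOpen_compl
  · simpa using h2 t

theorem shadow_compl_of {E : Set XX} (h2 : ∀ t, {n | (⟨t, n⟩ : XX) ∈ E}.Finite) :
    shadow Eᶜ = univ := by
  rw [eq_univ_iff_forall]
  intro t
  obtain ⟨n, hn⟩ := (h2 t).infinite_compl.nonempty
  exact ⟨n, hn⟩

/-- Cylinders over open sets of the Cantor space. -/
def cyl (C : Set CT) : Set XX := {x | x.t ∈ C}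

theorem isOpen_cyl {C : Set CT} (hC : IsOpen C) : IsOpen (cyl C) := by
  refine ⟨fun n => hC, ?_⟩
  rintro t ⟨n, hn⟩
  have : {m | (⟨t, m⟩ : XX) ∉ cyl C} = ∅ := by
    rw [eq_empty_iff_forall_notMem]
    intro m hm
    exact hm hn
  rw [this]
  exact finite_empty

theorem shadow_cyl (C : Set CT) : shadow (cyl C) = C := by
  ext t
  constructor
  · rintro ⟨n, hn⟩; exact hn
  · intro h; exact ⟨0, h⟩

theorem isClosed_of_finite {E : Set XX} (h : E.Finite) : IsClosed E := by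
  rw [← isOpen_compl_iff]
  apply isOpen_compl_of
  · intro n
    have : (col E n).Finite := by
      refine (h.image XX.t).subset ?_
      intro t ht
      exact ⟨⟨t, n⟩, ht, rfl⟩
    exact this.isClosed
  · intro t
    refine (h.image XX.n).subset ?_
    intro n hn
    exact ⟨⟨t, n⟩, hn, rfl⟩

theorem t0X : T0Space XX := by
  refine ⟨fun x y hxy => ?_⟩
  by_contra hne
  have h1 : IsOpen ({y}ᶜ : Set XX) := (isClosed_of_finite (finite_singleton y)).isOpen_compl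
  have := (hxy.mem_open_iff h1).mp hne
  exact this rfl

/-- Irreducible sets lie in a single row. -/
theorem irr_row {A : Set XX} (hA : IsPreirreducible A) {x y : XX} (hx : x ∈ A) (hy : y ∈ A) :
    x.t = y.t := by
  by_contra hne
  obtain ⟨k, hk⟩ := Function.ne_iff.mp hne
  have hc : IsClopen {s : CT | s k = x.t k} :=
    (isClopen_discrete {x.t k}).preimage (continuous_apply k)
  obtain ⟨z, -, hz1, hz2⟩ := hA _ _ (isOpen_cyl hc.isOpen) (isOpen_cyl hc.compl.isOpen)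
    ⟨x, hx, rfl⟩ ⟨y, hy, fun h => hk h.symm⟩
  exact hz2 hz1

/-- Tails of rows are compact. -/
theorem tail_compact (t : CT) (m : ℕ) : IsCompact {x : XX | x.t = t ∧ m ≤ x.n} := by
  rw [isCompact_iff_finite_subcover]
  intro ι U hU hcov
  have hm : (⟨t, m⟩ : XX) ∈ ⋃ i, U i := hcov ⟨rfl, le_rfl⟩
  obtain ⟨i, hi⟩ := mem_iUnion.mp hm
  have hfin := (hU i).2 t ⟨m, hi⟩
  have hpick : ∀ n : ℕ, ∃ j, m ≤ n → (⟨t, n⟩ : XX) ∈ U j := by
    intro n
    by_cases hn : m ≤ n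
    · obtain ⟨j, hj⟩ := mem_iUnion.mp (hcov (show (⟨t, n⟩ : XX) ∈ {x : XX | x.t = t ∧ m ≤ x.n} from ⟨rfl, hn⟩))
      exact ⟨j, fun _ => hj⟩
    · exact ⟨i, fun h => absurd h hn⟩
  choose j hj using hpick
  classical
  refine ⟨insert i (hfin.toFinset.image j), ?_⟩
  rintro ⟨s, n⟩ ⟨rfl, hn⟩
  simp only at hn
  rw [mem_iUnion₂]
  by_cases hin : (⟨s, n⟩ : XX) ∈ U i
  · exact ⟨i, Finset.mem_insert_self _ _, hin⟩
  · refine ⟨j n, Finset.mem_insert_of_mem (Finset.mem_image_of_mem _ ?_), hj n hn⟩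
    rw [Finite.mem_toFinset]
    exact hin

/-- Good pairs. -/
structure Good (p : Set CT × Set XX) : Prop where
  ne : p.1.Nonempty
  cl : IsClosed p.1
  sub : ∀ x ∈ p.2, x.t ∈ p.1
  colcl : ∀ n, IsClosed (col p.2 n)
  bd : ∃ (n0 : ℕ) (F : Finset CT), ∀ x ∈ p.2, x.n ≤ n0 ∨ x.t ∈ F

/-- Smallness of the missing part. -/
def Small (p : Set CT × Set XX) : Prop :=
  ∀ B : Set CT, IsClosed B → B ⊆ p.1 → (∀ x ∈ p.2, x.t ∉ B) → B.Countable

/-- Membership in a basic open set. -/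
def inBox (U : Set XX) (p : Set CT × Set XX) : Prop := p.2 ⊆ U ∧ p.1 ⊆ shadow U

/-- The auxiliary well-filtered space. -/
def YY : Type := {p : Set CT × Set XX // Good p ∧ Small p}

/-- Basic open sets. -/
def box (U : Set XX) : Set YY := {p | inBox U p.1}

theorem mem_box {U : Set XX} {p : YY} : p ∈ box U ↔ inBox U p.1 := Iff.rfl

theorem box_inter {U V : Set XX} (hU : IsOpen U) (hV : IsOpen V) :
    box (U ∩ V) = box U ∩ box V := by
  ext p
  rw [mem_inter_iff, mem_box, mem_box, mem_box, inBox, inBox, inBox, shadow_inter hU hV,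
    subset_inter_iff, subset_inter_iff]
  tauto

theorem box_univ : box (univ : Set XX) = univ := by
  ext p
  rw [mem_box, inBox, shadow_univ]
  simp

instance topY : TopologicalSpace YY where
  IsOpen 𝒰 := ∀ p ∈ 𝒰, ∃ U, IsOpen U ∧ p ∈ box U ∧ box U ⊆ 𝒰
  isOpen_univ := fun p _ => ⟨univ, isOpen_univ, by rw [box_univ]; trivial, subset_univ _⟩
  isOpen_inter 𝒰 𝒱 h1 h2 := by
    rintro p ⟨hp1, hp2⟩
    obtain ⟨U, hU, hpU, hUs⟩ := h1 p hp1
    obtain ⟨V, hV, hpV, hVs⟩ := h2 p hp2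
    refine ⟨U ∩ V, hU.inter hV, ?_, ?_⟩
    · rw [box_inter hU hV]; exact ⟨hpU, hpV⟩
    · rw [box_inter hU hV]; exact inter_subset_inter hUs hVs
  isOpen_sUnion S hS := by
    rintro p ⟨𝒰, h𝒰, hp⟩
    obtain ⟨U, hU, hpU, hUs⟩ := hS 𝒰 h𝒰 p hp
    exact ⟨U, hU, hpU, hUs.trans (subset_sUnion_of_mem h𝒰)⟩

theorem isOpenY_iff {𝒰 : Set YY} :
    IsOpen 𝒰 ↔ ∀ p ∈ 𝒰, ∃ U, IsOpen U ∧ p ∈ box U ∧ box U ⊆ 𝒰 := Iff.rfl

theorem isOpen_box {U : Set XX} (hU : IsOpen U) : IsOpen (box U) :=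
  fun _ hp => ⟨U, hU, hp, Subset.rfl⟩

theorem col_compl_row (t : CT) (n : ℕ) : col (cyl {t}ᶜ) n = {t}ᶜ := rfl

theorem isOpen_corow (t : CT) : IsOpen (cyl {t}ᶜ) := isOpen_cyl isOpen_compl_singleton

theorem t0Y : T0Space YY := by
  refine ⟨fun p q hpq => ?_⟩
  have key : ∀ p q : YY, Inseparable p q → q.1.1 ⊆ p.1.1 ∧ q.1.2 ⊆ p.1.2 := by
    intro p q hpq
    constructor
    · intro t ht
      by_contra hcon
      have hp : p ∈ box (cyl {t}ᶜ) := by
        refine ⟨?_, ?_⟩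
        · intro x hx
          intro hxt
          exact hcon (hxt ▸ p.2.1.sub x hx)
        · rw [shadow_cyl]
          intro s hs hst
          exact hcon (hst ▸ hs)
      have hq := (hpq.mem_open_iff (isOpen_box (isOpen_corow t))).mp hp
      have := hq.2 ht
      rw [shadow_cyl] at this
      exact this rfl
    · intro x hx
      by_contra hcon
      have hop : IsOpen ({x}ᶜ : Set XX) := (isClosed_of_finite (finite_singleton x)).isOpen_compl
      have hsh : shadow ({x}ᶜ : Set XX) = univ := by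
        apply shadow_compl_of
        intro t
        refine ((finite_singleton x).image XX.n).subset ?_
        intro n hn
        exact ⟨⟨t, n⟩, hn, rfl⟩
      have hp : p ∈ box ({x}ᶜ : Set XX) := by
        refine ⟨?_, ?_⟩
        · intro y hy hyx
          exact hcon (hyx ▸ hy)
        · rw [hsh]; exact subset_univ _
      have hq := (hpq.mem_open_iff (isOpen_box hop)).mp hp
      exact hq.1 hx rfl
  obtain ⟨h1, h2⟩ := key p q hpq
  obtain ⟨h3, h4⟩ := key q p hpq.symm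
  exact Subtype.ext (Prod.ext (Subset.antisymm h3 h1) (Subset.antisymm h4 h2))

/-- The compactness lemma. -/
theorem cpt {p : Set CT × Set XX} (hp : Good p) {𝒱 : Set (Set XX)} (hne : 𝒱.Nonempty)
    (hop : ∀ V ∈ 𝒱, IsOpen V) (hdir : ∀ V ∈ 𝒱, ∀ W ∈ 𝒱, ∃ R ∈ 𝒱, V ⊆ R ∧ W ⊆ R)
    (h1 : p.2 ⊆ ⋃₀ 𝒱) (h2 : p.1 ⊆ shadow (⋃₀ 𝒱)) : ∃ V ∈ 𝒱, inBox V p := by
  classical
  obtain ⟨n0, F, hF⟩ := hp.bd
  -- finite subsets of the union lie in a member
  have hfin : ∀ E : Set XX, E.Finite → ∀ V ∈ 𝒱, E ⊆ ⋃₀ 𝒱 → ∃ W ∈ 𝒱, V ⊆ W ∧ E ⊆ W := by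
    intro E hE
    induction E, hE using Set.Finite.induction_on with
    | empty => intro V hV _; exact ⟨V, hV, Subset.rfl, empty_subset _⟩
    | @insert a E ha hE ih =>
      intro V hV hsub
      obtain ⟨W, hW, hVW, hEW⟩ := ih V hV ((subset_insert _ _).trans hsub)
      obtain ⟨R, hR, haR⟩ := hsub (mem_insert a E)
      obtain ⟨Q, hQ, hWQ, hRQ⟩ := hdir W hW R hR
      refine ⟨Q, hQ, hVW.trans hWQ, ?_⟩
      intro x hx
      rcases hx with rfl | hx
      · exact hRQ haR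
      · exact hWQ (hEW hx)
  let W : 𝒱 → Set CT := fun V => {t | t ∈ shadow V.1 ∧ ∀ n ≤ n0, t ∈ (col p.2 n)ᶜ ∪ col V.1 n}
  have hWo : ∀ V, IsOpen (W V) := by
    intro V
    have : W V = shadow V.1 ∩ ⋂ n ∈ Iic n0, ((col p.2 n)ᶜ ∪ col V.1 n) := by
      ext t; simp [W]
    rw [this]
    refine (isOpen_shadow (hop V.1 V.2)).inter ?_
    exact (finite_Iic n0).isOpen_biInter fun n _ => (hp.colcl n).isOpen_compl.union ((hop V.1 V.2).1 n)
  have hWmono : ∀ V V' : 𝒱, V.1 ⊆ V'.1 → W V ⊆ W V' := by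
    intro V V' h t ht
    refine ⟨shadow_mono h ht.1, fun n hn => ?_⟩
    rcases ht.2 n hn with h3 | h3
    · exact Or.inl h3
    · exact Or.inr (h h3)
  have hcov : p.1 ⊆ ⋃ V, W V := by
    intro t ht
    obtain ⟨m, V, hV, hm⟩ := h2 ht
    obtain ⟨R, hR, hVR, hER⟩ := hfin {x | x ∈ p.2 ∧ x.t = t ∧ x.n ≤ n0}
      (by
        refine ((finite_Iic n0).image (fun n => (⟨t, n⟩ : XX))).subset ?_
        rintro ⟨s, n⟩ ⟨_, rfl, hn⟩
        exact ⟨n, hn, rfl⟩) V hV (fun x hx => h1 hx.1)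
    rw [mem_iUnion]
    refine ⟨⟨R, hR⟩, ⟨m, hVR hm⟩, fun n hn => ?_⟩
    by_cases hc : (⟨t, n⟩ : XX) ∈ p.2
    · exact Or.inr (hER ⟨hc, rfl, hn⟩)
    · exact Or.inl hc
  have : Nonempty 𝒱 := hne.to_subtype
  obtain ⟨V, hV⟩ := hp.cl.isCompact.elim_directed_cover W hWo hcov (by
    intro V V'
    obtain ⟨R, hR, h3, h4⟩ := hdir V.1 V.2 V'.1 V'.2
    exact ⟨⟨R, hR⟩, hWmono _ _ h3, hWmono _ _ h4⟩)
  obtain ⟨R, hR, hVR, hER⟩ := hfin {x | x ∈ p.2 ∧ x ∉ V.1}
    (by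
      have : {x | x ∈ p.2 ∧ x ∉ V.1} ⊆ ⋃ t ∈ (F.filter (fun t => t ∈ p.1) : Finset CT),
          (fun n => (⟨t, n⟩ : XX)) '' {n | (⟨t, n⟩ : XX) ∉ V.1} := by
        rintro ⟨s, n⟩ ⟨hx1, hx2⟩
        rw [mem_iUnion₂]
        have hs : s ∈ p.1 := hp.sub _ hx1
        refine ⟨s, ?_, n, hx2, rfl⟩
        rw [Finset.mem_filter]
        refine ⟨?_, hs⟩
        rcases hF _ hx1 with h5 | h5
        · exfalso
          rcases (hV hs).2 n h5 with h6 | h6
          · exact h6 hx1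
          · exact hx2 h6
        · exact h5
      refine (Set.Finite.biUnion (Finset.finite_toSet _) ?_).subset this
      intro t ht
      rw [Finset.mem_coe, Finset.mem_filter] at ht
      exact ((hop V.1 V.2).2 t (hV ht.2).1).image _) V.1 V.2 (fun x hx => h1 hx.1)
  refine ⟨R, hR, ?_, ?_⟩
  · intro x hx
    by_cases hc : x ∈ V.1
    · exact hVR hc
    · exact hER ⟨hx, hc⟩
  · intro t ht
    exact shadow_mono hVR (hV ht).1

theorem exists_spread {S : Set XX}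
    (h : ∀ (n0 : ℕ) (F : Finset CT), ∃ x ∈ S, n0 < x.n ∧ x.t ∉ F) :
    ∃ x : ℕ → XX, (∀ i, x i ∈ S) ∧ ∀ i j, i < j → (x i).n < (x j).n ∧ (x i).t ≠ (x j).t := by
  classical
  refine exists_seq_of_forall_finset_exists (· ∈ S) (fun x y => x.n < y.n ∧ x.t ≠ y.t) ?_
  intro s hs
  obtain ⟨x, hx, h1, h2⟩ := h (s.sup XX.n) (s.image XX.t)
  refine ⟨x, hx, fun y hy => ⟨(Finset.le_sup (f := XX.n) hy).trans_lt h1, ?_⟩⟩
  rintro h3
  exact h2 (h3 ▸ Finset.mem_image_of_mem _ hy)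

/-- Tails of a sequence. -/
def tl (x : ℕ → XX) (j : ℕ) : Set XX := {y | ∃ i, j ≤ i ∧ x i = y}

theorem tl_aux {x : ℕ → XX} (hx : ∀ i j, i < j → (x i).n < (x j).n ∧ (x i).t ≠ (x j).t)
    (j : ℕ) : (∀ n, (col (tl x j) n).Subsingleton) ∧
      ∀ t, {n | (⟨t, n⟩ : XX) ∈ tl x j}.Subsingleton := by
  constructor
  · rintro n s ⟨i, -, hi⟩ t ⟨i', -, hi'⟩
    rcases lt_trichotomy i i' with h | h | h
    · have := (hx _ _ h).1
      rw [hi, hi'] at this
      exact absurd this (lt_irrefl _)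
    · subst h
      rw [hi] at hi'
      exact congrArg XX.t hi'
    · have := (hx _ _ h).1
      rw [hi, hi'] at this
      exact absurd this (lt_irrefl _)
  · rintro t n ⟨i, -, hi⟩ m ⟨i', -, hi'⟩
    rcases lt_trichotomy i i' with h | h | h
    · have := (hx _ _ h).2
      rw [hi, hi'] at this
      exact absurd rfl this
    · subst h
      rw [hi] at hi'
      exact congrArg XX.n hi'
    · have := (hx _ _ h).2
      rw [hi, hi'] at this
      exact absurd rfl this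

theorem tl_open {x : ℕ → XX} (hx : ∀ i j, i < j → (x i).n < (x j).n ∧ (x i).t ≠ (x j).t)
    (j : ℕ) : IsOpen (tl x j)ᶜ :=
  isOpen_compl_of (fun n => ((tl_aux hx j).1 n).finite.isClosed)
    (fun t => ((tl_aux hx j).2 t).finite)

theorem tl_shadow {x : ℕ → XX} (hx : ∀ i j, i < j → (x i).n < (x j).n ∧ (x i).t ≠ (x j).t)
    (j : ℕ) : shadow (tl x j)ᶜ = univ :=
  shadow_compl_of (fun t => ((tl_aux hx j).2 t).finite)

theorem tl_escape {x : ℕ → XX} (hx : ∀ i j, i < j → (x i).n < (x j).n ∧ (x i).t ≠ (x j).t)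
    {L : Set XX} (hL : ∃ (n0 : ℕ) (F : Finset CT), ∀ x ∈ L, x.n ≤ n0 ∨ x.t ∈ F) :
    ∃ j, L ⊆ (tl x j)ᶜ := by
  obtain ⟨n0, F, hF⟩ := hL
  have hmono : StrictMono (fun i => (x i).n) := fun i j h => (hx i j h).1
  have hinj : Function.Injective (fun i => (x i).t) := by
    intro i j hij
    rcases lt_trichotomy i j with h | h | h
    · exact absurd hij (hx _ _ h).2
    · exact h
    · exact absurd hij.symm (hx _ _ h).2
  have hfin : {i | (x i).t ∈ F}.Finite := F.finite_toSet.preimage hinj.injOn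
  obtain ⟨N, hN⟩ := hfin.bddAbove
  refine ⟨max (n0 + 1) (N + 1), ?_⟩
  rintro y hy ⟨i, hi, rfl⟩
  rcases hF _ hy with h | h
  · have : i ≤ (x i).n := hmono.id_le i
    omega
  · have : i ≤ N := hN h
    omega

theorem tl_anti (x : ℕ → XX) {i j : ℕ} (h : i ≤ j) : tl x j ⊆ tl x i := by
  rintro y ⟨k, hk, rfl⟩
  exact ⟨k, h.trans hk, rfl⟩

theorem bd_compact {K : Set XX} (hK : IsCompact K) :
    ∃ (n0 : ℕ) (F : Finset CT), ∀ x ∈ K, x.n ≤ n0 ∨ x.t ∈ F := by
  by_contra hcon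
  push Not at hcon
  obtain ⟨x, hxK, hx⟩ := exists_spread hcon
  obtain ⟨j, hj⟩ := hK.elim_directed_cover (fun j => (tl x j)ᶜ) (tl_open hx) (by
    intro y _
    rw [mem_iUnion]
    obtain ⟨j, hj⟩ := tl_escape hx (L := {y}) ⟨y.n, ∅, fun z hz => Or.inl (by rw [hz])⟩
    exact ⟨j, hj rfl⟩) (by
    intro i j
    exact ⟨max i j, compl_subset_compl.mpr (tl_anti x (le_max_left _ _)),
      compl_subset_compl.mpr (tl_anti x (le_max_right _ _))⟩)
  exact hj (hxK j) ⟨j, le_rfl, rfl⟩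

theorem bd_compactY {K : Set YY} (hK : IsCompact K) :
    ∃ (n0 : ℕ) (F : Finset CT), ∀ p ∈ K, ∀ x ∈ p.1.2, x.n ≤ n0 ∨ x.t ∈ F := by
  by_contra hcon
  push Not at hcon
  obtain ⟨x, hxK, hx⟩ := exists_spread (S := {x | ∃ p ∈ K, x ∈ p.1.2}) (by
    intro n0 F
    obtain ⟨p, hp, x, hx, h1, h2⟩ := hcon n0 F
    exact ⟨x, ⟨p, hp, hx⟩, h1, h2⟩)
  obtain ⟨j, hj⟩ := hK.elim_directed_cover (fun j => box (tl x j)ᶜ)
    (fun j => isOpen_box (tl_open hx j)) (by
    intro p _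
    rw [mem_iUnion]
    obtain ⟨j, hj⟩ := tl_escape hx (L := p.1.2) p.2.1.bd
    exact ⟨j, hj, by rw [tl_shadow hx j]; exact subset_univ _⟩) (by
    intro i j
    refine ⟨max i j, ?_, ?_⟩
    · rintro p ⟨hp, -⟩
      exact ⟨hp.trans (compl_subset_compl.mpr (tl_anti x (le_max_left _ _))),
        by rw [tl_shadow hx]; exact subset_univ _⟩
    · rintro p ⟨hp, -⟩
      exact ⟨hp.trans (compl_subset_compl.mpr (tl_anti x (le_max_right _ _))),
        by rw [tl_shadow hx]; exact subset_univ _⟩)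
  obtain ⟨p, hp, hxp⟩ := hxK j
  exact (hj hp).1 hxp ⟨j, le_rfl, rfl⟩

/-- Classification of irreducible closed sets. -/
theorem irr_class {A : Set XX} (hc : IsClosed A) (hA : IsIrreducible A) :
    (∃ x, A = {x}) ∨ ∃ t, A = cyl {t} := by
  obtain ⟨x, hx⟩ := hA.1
  by_cases hfin : A.Finite
  · left
    refine ⟨x, ?_⟩
    apply Subset.antisymm
    · intro y hy
      by_contra hne
      have h1 : IsOpen (A \ {x})ᶜ := (isClosed_of_finite (hfin.subset sdiff_subset)).isOpen_compl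
      have h2 : IsOpen ({x} : Set XX)ᶜ := (isClosed_of_finite (finite_singleton x)).isOpen_compl
      obtain ⟨z, hz, hz1, hz2⟩ := hA.2 _ _ h1 h2 ⟨x, hx, fun h => h.2 rfl⟩ ⟨y, hy, hne⟩
      exact hz1 ⟨hz, hz2⟩
    · rintro y rfl; exact hx
  · right
    refine ⟨x.t, ?_⟩
    apply Subset.antisymm
    · intro y hy
      exact irr_row hA.2 hy hx
    · rintro ⟨s, n⟩ hs
      have hs' : s = x.t := hs
      subst hs'
      by_contra hcon
      apply hfin
      have h3 := hc.isOpen_compl.2 x.t ⟨n, hcon⟩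
      refine (h3.image (fun n => (⟨x.t, n⟩ : XX))).subset ?_
      rintro ⟨s, m⟩ hm
      have : s = x.t := irr_row hA.2 hm hx
      subst this
      exact ⟨m, fun h => h hm, rfl⟩

/-- Saturation. -/
def sat {Y : Type} [TopologicalSpace Y] (S : Set Y) : Set Y :=
  {y | ∀ V : Set Y, IsOpen V → S ⊆ V → y ∈ V}

theorem subset_sat {Y : Type} [TopologicalSpace Y] (S : Set Y) : S ⊆ sat S :=
  fun _ hy _ _ hV => hV hy

theorem sat_subset {Y : Type} [TopologicalSpace Y] {S V : Set Y} (hV : IsOpen V) (h : S ⊆ V) :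
    sat S ⊆ V := fun _ hy => hy V hV h

theorem sat_mono {Y : Type} [TopologicalSpace Y] {S T : Set Y} (h : S ⊆ T) : sat S ⊆ sat T :=
  fun _ hy V hV hTV => hy V hV (h.trans hTV)

theorem sat_compact {Y : Type} [TopologicalSpace Y] {S : Set Y} (hS : IsCompact S) :
    IsCompact (sat S) := by
  rw [isCompact_iff_finite_subcover]
  intro ι U hU hcov
  obtain ⟨t, ht⟩ := hS.elim_finite_subcover U hU ((subset_sat S).trans hcov)
  exact ⟨t, sat_subset (isOpen_biUnion fun i _ => hU i) ht⟩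

theorem sat_sat {Y : Type} [TopologicalSpace Y] {S : Set Y} (y : Y)
    (hy : ∀ V : Set Y, IsOpen V → sat S ⊆ V → y ∈ V) : y ∈ sat S :=
  fun V hV hSV => hy V hV (sat_subset hV hSV)

theorem wfdX {A : Set XX} (hc : IsClosed A) (hA : IsIrreducible A) {Y : Type}
    [TopologicalSpace Y] (f : XX → Y) (hf : Continuous f)
    (hWF : ∀ (𝒦 : Set (Set Y)) (U : Set Y),
      (∀ K ∈ 𝒦, IsCompact K ∧ ∀ y : Y, (∀ V : Set Y, IsOpen V → K ⊆ V → y ∈ V) → y ∈ K) →
      𝒦.Nonempty → (∀ K₁ ∈ 𝒦, ∀ K₂ ∈ 𝒦, ∃ K₃ ∈ 𝒦, K₃ ⊆ K₁ ∩ K₂) →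
      IsOpen U → ⋂₀ 𝒦 ⊆ U → ∃ K ∈ 𝒦, K ⊆ U) :
    ∃ y, closure (f '' A) = closure {y} := by
  rcases irr_class hc hA with ⟨x, rfl⟩ | ⟨t, rfl⟩
  · exact ⟨f x, by rw [image_singleton]⟩
  · let T : ℕ → Set XX := fun m => {x : XX | x.t = t ∧ m ≤ x.n}
    have hTanti : ∀ {i j : ℕ}, i ≤ j → T j ⊆ T i := fun h x hx => ⟨hx.1, h.trans hx.2⟩
    have hnot : ¬ ⋂₀ (range fun m => sat (f '' T m)) ⊆ (closure (f '' cyl {t}))ᶜ := by
      intro hsub
      obtain ⟨K, ⟨m, rfl⟩, hK⟩ := hWF (range fun m => sat (f '' T m)) (closure (f '' cyl {t}))ᶜ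
        (by
          rintro _ ⟨m, rfl⟩
          exact ⟨sat_compact ((tail_compact t m).image hf), fun y hy => sat_sat y hy⟩)
        (range_nonempty _)
        (by
          rintro _ ⟨i, rfl⟩ _ ⟨j, rfl⟩
          refine ⟨_, ⟨max i j, rfl⟩, subset_inter ?_ ?_⟩
          · exact sat_mono (image_mono (hTanti (le_max_left _ _)))
          · exact sat_mono (image_mono (hTanti (le_max_right _ _))))
        isClosed_closure.isOpen_compl hsub
      have h1 : f ⟨t, m⟩ ∈ sat (f '' T m) := subset_sat _ ⟨⟨t, m⟩, ⟨rfl, le_rfl⟩, rfl⟩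
      exact hK h1 (subset_closure ⟨⟨t, m⟩, rfl, rfl⟩)
    rw [not_subset] at hnot
    obtain ⟨y, hy1, hy2⟩ := hnot
    rw [mem_compl_iff, not_not] at hy2
    refine ⟨y, Subset.antisymm ?_ ?_⟩
    · refine closure_minimal ?_ isClosed_closure
      rintro _ ⟨⟨s, n⟩, hs, rfl⟩
      have hs' : s = t := hs
      subst hs'
      rw [mem_closure_iff]
      intro V hV hfV
      refine ⟨y, ?_, rfl⟩
      have hop : IsOpen (f ⁻¹' V) := hV.preimage hf
      have hfin := hop.2 s ⟨n, hfV⟩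
      obtain ⟨N, hN⟩ := hfin.bddAbove
      have hyN : y ∈ sat (f '' T (N + 1)) := hy1 _ ⟨N + 1, rfl⟩
      refine hyN V hV ?_
      rintro _ ⟨⟨s', k⟩, ⟨hs1, hk⟩, rfl⟩
      simp only at hs1 hk
      subst hs1
      by_contra hcon
      have : k ≤ N := hN hcon
      omega
    · exact closure_minimal (singleton_subset_iff.mpr hy2) isClosed_closure

theorem exists_minimal {Y : Type} [TopologicalSpace Y] {𝒦 : Set (Set Y)}
    (hcomp : ∀ K ∈ 𝒦, IsCompact K) {D : Set Y} (hD : IsClosed D)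
    (hm : ∀ K ∈ 𝒦, (D ∩ K).Nonempty) :
    ∃ C, C ⊆ D ∧ Minimal (· ∈ {C : Set Y | IsClosed C ∧ ∀ K ∈ 𝒦, (C ∩ K).Nonempty}) C := by
  refine zorn_superset_nonempty _ ?_ D ⟨hD, hm⟩
  intro c hc hchain hcne
  refine ⟨⋂₀ c, ⟨isClosed_sInter fun Z hZ => (hc hZ).1, fun K hK => ?_⟩,
    fun s hs => sInter_subset_of_mem hs⟩
  by_contra hcon
  rw [not_nonempty_iff_eq_empty] at hcon
  have : Nonempty c := hcne.to_subtype
  obtain ⟨i, hi⟩ := (hcomp K hK).elim_directed_family_closed (fun i : c => i.1)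
    (fun i => (hc i.2).1) (by rw [← sInter_eq_iInter, inter_comm]; exact hcon) (by
      intro i j
      rcases hchain.total i.2 j.2 with h | h
      · exact ⟨i, Subset.rfl, h⟩
      · exact ⟨j, h, Subset.rfl⟩)
  have := (hc i.2).2 K hK
  rw [inter_comm, hi] at this
  exact not_nonempty_empty this

theorem keyb {C : Set YY} (hC : IsIrreducible C) {U : Set XX} (hU : IsOpen U)
    (h : ∀ p ∈ C, p ∉ box U) :
    (∃ x, x ∉ U ∧ ∀ p ∈ C, x ∈ p.1.2) ∨ (∃ t, t ∉ shadow U ∧ ∀ p ∈ C, t ∈ p.1.1) := by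
  obtain ⟨Z, hZU, hZ⟩ := zorn_superset_nonempty
    {Z : Set XX | IsClosed Z ∧ ∀ p ∈ C, p ∉ box Zᶜ} (by
      intro c hc hchain hcne
      refine ⟨⋂₀ c, ⟨isClosed_sInter fun Z hZ => (hc hZ).1, fun p hp hpb => ?_⟩,
        fun s hs => sInter_subset_of_mem hs⟩
      have heq : (⋂₀ c)ᶜ = ⋃₀ (compl '' c) := compl_sInter c
      rw [mem_box, heq] at hpb
      obtain ⟨V, ⟨Z, hZ, rfl⟩, hVp⟩ := cpt p.2.1 (𝒱 := compl '' c) (hcne.image _)
        (by rintro _ ⟨Z, hZ, rfl⟩; exact (hc hZ).1.isOpen_compl)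
        (by
          rintro _ ⟨Z, hZ, rfl⟩ _ ⟨Z', hZ', rfl⟩
          rcases hchain.total hZ hZ' with h | h
          · exact ⟨Zᶜ, ⟨Z, hZ, rfl⟩, Subset.rfl, compl_subset_compl.mpr h⟩
          · exact ⟨Z'ᶜ, ⟨Z', hZ', rfl⟩, compl_subset_compl.mpr h, Subset.rfl⟩)
        hpb.1 hpb.2
      exact (hc hZ).2 p hp hVp) Uᶜ ⟨hU.isClosed_compl, by simpa using h⟩
  have hZcl : IsClosed Z := hZ.prop.1
  have hZp : ∀ p ∈ C, p ∉ box Zᶜ := hZ.prop.2
  have hmin : ∀ Z' : Set XX, IsClosed Z' → Z' ⊆ Z → Z' ≠ Z → ∃ p ∈ C, p ∈ box Z'ᶜ := by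
    intro Z' h1 h2 h3
    by_contra hcon
    push Not at hcon
    exact h3 (hZ.eq_of_subset ⟨h1, hcon⟩ h2)
  have hZirr : IsIrreducible Z := by
    constructor
    · by_contra hcon
      rw [not_nonempty_iff_eq_empty] at hcon
      obtain ⟨p, hp⟩ := hC.1
      apply hZp p hp
      rw [hcon, compl_empty, box_univ]
      trivial
    · intro U1 U2 hU1 hU2 hn1 hn2
      by_contra hcon
      rw [not_nonempty_iff_eq_empty] at hcon
      have haux : ∀ U1 : Set XX, IsOpen U1 → (Z ∩ U1).Nonempty →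
          ∃ p ∈ C, p ∈ box (Z \ U1)ᶜ := by
        intro U1 hU1 hn
        refine hmin _ (hZcl.inter hU1.isClosed_compl) sdiff_subset ?_
        intro heq
        obtain ⟨x, hx1, hx2⟩ := hn
        rw [← heq] at hx1
        exact hx1.2 hx2
      obtain ⟨p1, hp1, hp1'⟩ := haux U1 hU1 hn1
      obtain ⟨p2, hp2, hp2'⟩ := haux U2 hU2 hn2
      have ho1 : IsOpen (Z \ U1)ᶜ := (hZcl.inter hU1.isClosed_compl).isOpen_compl
      have ho2 : IsOpen (Z \ U2)ᶜ := (hZcl.inter hU2.isClosed_compl).isOpen_compl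
      obtain ⟨p, hp, hpb⟩ := hC.2 _ _ (isOpen_box ho1) (isOpen_box ho2) ⟨p1, hp1, hp1'⟩
        ⟨p2, hp2, hp2'⟩
      apply hZp p hp
      rw [← box_inter ho1 ho2] at hpb
      have heq : (Z \ U1)ᶜ ∩ (Z \ U2)ᶜ = Zᶜ := by
        ext x
        constructor
        · rintro ⟨h1, h2⟩ hxZ
          have hx1 : x ∈ U1 := by
            by_contra h; exact h1 ⟨hxZ, h⟩
          have hx2 : x ∈ U2 := by
            by_contra h; exact h2 ⟨hxZ, h⟩
          have : x ∈ Z ∩ (U1 ∩ U2) := ⟨hxZ, hx1, hx2⟩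
          rw [hcon] at this
          exact this
        · intro hx
          exact ⟨fun h => hx h.1, fun h => hx h.1⟩
      rw [heq] at hpb
      exact hpb
  rcases irr_class hZcl hZirr with ⟨x, rfl⟩ | ⟨t, rfl⟩
  · left
    refine ⟨x, hZU rfl, fun p hp => ?_⟩
    by_contra hcon
    apply hZp p hp
    refine ⟨?_, ?_⟩
    · intro y hy hyx
      exact hcon (hyx ▸ hy)
    · rw [shadow_compl_of]
      · exact subset_univ _
      · intro t
        refine ((finite_singleton x).image XX.n).subset ?_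
        intro n hn
        exact ⟨⟨t, n⟩, hn, rfl⟩
  · right
    refine ⟨t, ?_, fun p hp => ?_⟩
    · rintro ⟨n, hn⟩
      exact hZU (show (⟨t, n⟩ : XX) ∈ cyl {t} from rfl) hn
    · by_contra hcon
      apply hZp p hp
      refine ⟨?_, ?_⟩
      · intro y hy hyx
        have : y.t = t := hyx
        exact hcon (this ▸ p.2.1.sub y hy)
      · intro s hs
        refine ⟨0, ?_⟩
        intro hst
        have : s = t := hst
        exact hcon (this ▸ hs)

theorem exists_uncountable_avoid {B : Set CT} (hB : IsClosed B) (hBu : ¬ B.Countable)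
    (F : Finset CT) : ∃ B' ⊆ B, IsClosed B' ∧ ¬ B'.Countable ∧ ∀ t ∈ F, t ∉ B' := by
  classical
  induction F using Finset.induction_on with
  | empty => exact ⟨B, Subset.rfl, hB, hBu, by simp⟩
  | @insert a F ha ih =>
    obtain ⟨B', h1, h2, h3, h4⟩ := ih
    by_contra hcon
    push Not at hcon
    apply h3
    have hk : ∀ k : ℕ, (B' ∩ {t | t k ≠ a k}).Countable := by
      intro k
      by_contra hk
      have hcl : IsClosed {t : CT | t k ≠ a k} := by
        have : IsClopen {s : CT | s k = a k} :=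
          (isClopen_discrete {a k}).preimage (continuous_apply k)
        exact this.compl.isClosed
      obtain ⟨t, ht, htB⟩ := hcon (B' ∩ {t | t k ≠ a k}) (inter_subset_left.trans h1)
        (h2.inter hcl) hk
      rcases Finset.mem_insert.mp ht with rfl | ht
      · exact htB.2 rfl
      · exact h4 t ht htB.1
    have hsub : B' ⊆ {a} ∪ ⋃ k : ℕ, (B' ∩ {t | t k ≠ a k}) := by
      intro t ht
      by_cases hta : t = a
      · exact Or.inl hta
      · right
        obtain ⟨k, hk⟩ := Function.ne_iff.mp hta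
        exact mem_iUnion.mpr ⟨k, ht, hk⟩
    exact ((countable_singleton a).union (countable_iUnion hk)).mono hsub

theorem wfY (𝒦 : Set (Set YY)) (𝒰 : Set YY)
    (h𝒦 : ∀ K ∈ 𝒦, IsCompact K ∧
      ∀ y : YY, (∀ V : Set YY, IsOpen V → K ⊆ V → y ∈ V) → y ∈ K)
    (hne : 𝒦.Nonempty) (hfil : ∀ K₁ ∈ 𝒦, ∀ K₂ ∈ 𝒦, ∃ K₃ ∈ 𝒦, K₃ ⊆ K₁ ∩ K₂)
    (hU : IsOpen 𝒰) (hsub : ⋂₀ 𝒦 ⊆ 𝒰) : ∃ K ∈ 𝒦, K ⊆ 𝒰 := by
  by_contra hcon
  push Not at hcon
  obtain ⟨C, hCU, hC⟩ := exists_minimal (fun K hK => (h𝒦 K hK).1) hU.isClosed_compl (by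
    intro K hK
    obtain ⟨x, hx1, hx2⟩ := not_subset.mp (hcon K hK)
    exact ⟨x, hx2, hx1⟩)
  have hCcl : IsClosed C := hC.prop.1
  have hCm : ∀ K ∈ 𝒦, (C ∩ K).Nonempty := hC.prop.2
  have hc : ∀ 𝒱 : Set YY, IsOpen 𝒱 → (C ∩ 𝒱).Nonempty → ∃ K ∈ 𝒦, C ∩ K ⊆ 𝒱 := by
    intro 𝒱 h𝒱 hn
    by_contra hcon2
    push Not at hcon2
    have : C \ 𝒱 = C := by
      refine hC.eq_of_subset ⟨hCcl.inter h𝒱.isClosed_compl, fun K hK => ?_⟩ sdiff_subset
      obtain ⟨x, hx1, hx2⟩ := not_subset.mp (hcon2 K hK)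
      exact ⟨x, ⟨hx1.1, hx2⟩, hx1.2⟩
    obtain ⟨x, hx1, hx2⟩ := hn
    rw [← this] at hx1
    exact hx1.2 hx2
  have hCirr : IsIrreducible C := by
    constructor
    · obtain ⟨K, hK⟩ := hne
      exact (hCm K hK).mono inter_subset_left
    · intro 𝒱1 𝒱2 h1 h2 hn1 hn2
      obtain ⟨K1, hK1, hs1⟩ := hc 𝒱1 h1 hn1
      obtain ⟨K2, hK2, hs2⟩ := hc 𝒱2 h2 hn2
      obtain ⟨K3, hK3, hs3⟩ := hfil K1 hK1 K2 hK2
      obtain ⟨x, hx1, hx2⟩ := hCm K3 hK3
      exact ⟨x, hx1, hs1 ⟨hx1, (hs3 hx2).1⟩, hs2 ⟨hx1, (hs3 hx2).2⟩⟩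
  obtain ⟨K0, hK0⟩ := hne
  obtain ⟨n0, F0, hF0⟩ := bd_compactY (h𝒦 K0 hK0).1
  obtain ⟨q, hq⟩ := hCirr.1
  let HM : Set CT := {t | ∀ p ∈ C, t ∈ p.1.1}
  let LM : Set XX := {x | ∀ p ∈ C, x ∈ p.1.2}
  -- contrapositive of the key lemma
  have hkey : ∀ U : Set XX, IsOpen U → LM ⊆ U → HM ⊆ shadow U → ∃ p ∈ C, p ∈ box U := by
    intro U hU h1 h2
    by_contra hcon3
    push Not at hcon3
    rcases keyb hCirr hU hcon3 with ⟨x, hx1, hx2⟩ | ⟨t, ht1, ht2⟩
    · exact hx1 (h1 hx2)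
    · exact ht1 (h2 ht2)
  have hgood : Good (HM, LM) := by
    refine ⟨?_, ?_, ?_, ?_, ?_⟩
    · by_contra hemp
      have hemp' : HM = ∅ := not_nonempty_iff_eq_empty.mp hemp
      have hLemp : LM ⊆ ∅ := by
        intro x hx
        have : x.t ∈ HM := fun p hp => p.2.1.sub x (hx p hp)
        rw [hemp'] at this
        exact this.elim
      obtain ⟨p, hp, hpb⟩ := hkey ∅ isOpen_empty hLemp (by rw [hemp']; exact empty_subset _)
      obtain ⟨t, ht⟩ := p.2.1.ne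
      have := hpb.2 ht
      rw [shadow_empty] at this
      exact this
    · have : HM = ⋂ p ∈ C, p.1.1 := by ext t; simp [HM]
      show IsClosed HM
      rw [this]
      exact isClosed_biInter fun p _ => p.2.1.cl
    · intro x hx p hp
      exact p.2.1.sub x (hx p hp)
    · intro n
      have : col LM n = ⋂ p ∈ C, col p.1.2 n := by ext t; simp [LM, col]
      show IsClosed (col LM n)
      rw [this]
      exact isClosed_biInter fun p _ => p.2.1.colcl n
    · obtain ⟨n1, F1, hF1⟩ := q.2.1.bd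
      exact ⟨n1, F1, fun x hx => hF1 x (hx q hq)⟩
  have hsmall : Small (HM, LM) := by
    intro B hB hBH hBL
    by_contra hBu
    obtain ⟨B', hB'B, hB'c, hB'u, hB'F⟩ := exists_uncountable_avoid hB hBu F0
    let E : Set XX := {x | x.t ∈ B' ∧ x.n ≤ n0}
    have hErow : ∀ t, {n | (⟨t, n⟩ : XX) ∈ E}.Finite := fun t =>
      (finite_Iic n0).subset fun n hn => hn.2
    have hEop : IsOpen Eᶜ := by
      apply isOpen_compl_of _ hErow
      intro n
      by_cases hn : n ≤ n0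
      · have : col E n = B' := by ext t; simp [E, col, hn]
        rw [this]; exact hB'c
      · have : col E n = ∅ := by ext t; simp [E, col, hn]
        rw [this]; exact isClosed_empty
    obtain ⟨p, hp, hpb⟩ := hkey Eᶜ hEop (by
      intro x hx hxE
      exact hBL x hx (hB'B hxE.1)) (by rw [shadow_compl_of hErow]; exact subset_univ _)
    obtain ⟨K, hK, hKs⟩ := hc (box Eᶜ) (isOpen_box hEop) ⟨p, hp, hpb⟩
    obtain ⟨K1, hK1, hK1s⟩ := hfil K hK K0 hK0
    obtain ⟨N, hN1, hN2⟩ := hCm K1 hK1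
    have hNb : N ∈ box Eᶜ := hKs ⟨hN1, (hK1s hN2).1⟩
    have hN0 : N ∈ K0 := (hK1s hN2).2
    apply hB'u
    apply N.2.2 B' hB'c
    · intro t ht
      exact hBH (hB'B ht) N hN1
    · intro x hx hxB
      rcases hF0 N hN0 x hx with h | h
      · exact hNb.1 hx ⟨hxB, h⟩
      · exact hB'F _ h hxB
  let M : YY := ⟨(HM, LM), hgood, hsmall⟩
  have hM : M ∈ ⋂₀ 𝒦 := by
    intro K hK
    apply (h𝒦 K hK).2
    intro V hV hKV
    obtain ⟨N, hN1, hN2⟩ := hCm K hK
    obtain ⟨U, hU', hNU, hUV⟩ := hV N (hKV hN2)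
    apply hUV
    refine ⟨?_, ?_⟩
    · intro x hx
      exact hNU.1 (hx N hN1)
    · intro t ht
      exact hNU.2 (ht N hN1)
  obtain ⟨U, hU', hMU, hUV⟩ := hU M (hsub hM)
  obtain ⟨p, hp, hpb⟩ := hkey U hU' hMU.1 hMU.2
  exact hCU hp (hUV hpb)

/-- The point set of the Smyth power space. -/
abbrev PS : Type := {K : Set XX // K.Nonempty ∧ IsCompact K ∧
  ∀ x : XX, (∀ V : Set XX, IsOpen V → K ⊆ V → x ∈ V) → x ∈ K}

/-- The upper Vietoris topology. -/
@[reducible] def topPS : TopologicalSpace PS := TopologicalSpace.generateFrom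
  {S | ∃ U : Set XX, IsOpen U ∧ S = {K | K.1 ⊆ U}}

theorem isOpenPS_basic {U : Set XX} (hU : IsOpen U) : @IsOpen PS topPS {K : PS | K.1 ⊆ U} :=
  TopologicalSpace.isOpen_generateFrom_of_mem ⟨U, hU, rfl⟩

theorem isOpenPS_iff {𝒪 : Set PS} : @IsOpen PS topPS 𝒪 ↔
    ∀ K ∈ 𝒪, ∃ U : Set XX, IsOpen U ∧ K.1 ⊆ U ∧ ∀ K' : PS, K'.1 ⊆ U → K' ∈ 𝒪 := by
  constructor
  · intro h
    change TopologicalSpace.GenerateOpen _ 𝒪 at h
    induction h with
    | basic s hs =>
      obtain ⟨U, hU, rfl⟩ := hs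
      exact fun K hK => ⟨U, hU, hK, fun K' h => h⟩
    | univ => exact fun K _ => ⟨univ, isOpen_univ, subset_univ _, fun _ _ => trivial⟩
    | inter s t _ _ hs ht =>
      rintro K ⟨h1, h2⟩
      obtain ⟨U, hU, hKU, h3⟩ := hs K h1
      obtain ⟨V, hV, hKV, h4⟩ := ht K h2
      exact ⟨U ∩ V, hU.inter hV, subset_inter hKU hKV, fun K' h =>
        ⟨h3 K' (h.trans inter_subset_left), h4 K' (h.trans inter_subset_right)⟩⟩
    | sUnion S _ hS =>
      rintro K ⟨s, hs, hK⟩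
      obtain ⟨U, hU, hKU, h3⟩ := hS s hs K hK
      exact ⟨U, hU, hKU, fun K' h => ⟨s, hs, h3 K' h⟩⟩
  · intro h
    have : 𝒪 = ⋃₀ {S | (∃ U : Set XX, IsOpen U ∧ S = {K : PS | K.1 ⊆ U}) ∧ S ⊆ 𝒪} := by
      ext K
      constructor
      · intro hK
        obtain ⟨U, hU, hKU, h3⟩ := h K hK
        exact ⟨_, ⟨⟨U, hU, rfl⟩, fun K' h => h3 K' h⟩, hKU⟩
      · rintro ⟨S, ⟨-, hS⟩, hK⟩
        exact hS hK
    rw [this]
    refine @isOpen_sUnion _ topPS _ ?_
    rintro S ⟨⟨U, hU, rfl⟩, -⟩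
    exact isOpenPS_basic hU

/-- Projection to the Cantor space. -/
def pr (x : XX) : CT := x.t

theorem continuous_pr : Continuous pr := ⟨fun _ hC => isOpen_cyl hC⟩

theorem continuous_slice (n : ℕ) : Continuous (fun t : CT => (⟨t, n⟩ : XX)) :=
  ⟨fun _ hU => hU.1 n⟩

theorem isClosed_level (n : ℕ) : IsClosed {x : XX | x.n = n} := by
  rw [← isOpen_compl_iff]
  apply isOpen_compl_of
  · intro m
    by_cases hm : m = n
    · have : col {x : XX | x.n = n} m = univ := by ext t; simp [col, hm]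
      rw [this]; exact isClosed_univ
    · have : col {x : XX | x.n = n} m = ∅ := by ext t; simp [col, hm]
      rw [this]; exact isClosed_empty
  · intro t
    exact (finite_singleton n).subset fun m hm => hm

theorem good_compact {K : Set XX} (hne : K.Nonempty) (hK : IsCompact K) : Good (pr '' K, K) := by
  refine ⟨hne.image _, (hK.image continuous_pr).isClosed, fun x hx => ⟨x, hx, rfl⟩, ?_,
    bd_compact hK⟩
  intro n
  have : col K n = pr '' (K ∩ {x : XX | x.n = n}) := by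
    ext t
    constructor
    · intro ht; exact ⟨⟨t, n⟩, ⟨ht, rfl⟩, rfl⟩
    · rintro ⟨⟨s, m⟩, ⟨h1, h2⟩, h3⟩
      have h2' : m = n := h2
      have h3' : s = t := h3
      subst h2' h3'
      exact h1
  show IsClosed (col K n)
  rw [this]
  exact ((hK.inter_right (isClosed_level n)).image continuous_pr).isClosed

theorem small_compact (K : Set XX) : Small (pr '' K, K) := by
  intro B _ hB1 hB2
  have : B = ∅ := by
    rw [eq_empty_iff_forall_notMem]
    intro t ht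
    obtain ⟨x, hx, rfl⟩ := hB1 ht
    exact hB2 x hx ht
  rw [this]
  exact countable_empty

/-- The comparison map. -/
def emb (K : PS) : YY := ⟨(pr '' K.1, K.1), good_compact K.2.1 K.2.2.1, small_compact K.1⟩

theorem emb_mem_box {K : PS} {U : Set XX} : emb K ∈ box U ↔ K.1 ⊆ U := by
  constructor
  · intro h; exact h.1
  · intro h
    refine ⟨h, ?_⟩
    rintro _ ⟨x, hx, rfl⟩
    exact ⟨x.n, h hx⟩

theorem continuous_emb : @Continuous PS YY topPS topY emb := by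
  refine @Continuous.mk PS YY topPS topY emb ?_
  intro 𝒱 h𝒱
  rw [isOpenPS_iff]
  intro K hK
  obtain ⟨U, hU, hKU, hUs⟩ := h𝒱 (emb K) hK
  exact ⟨U, hU, emb_mem_box.mp hKU, fun K' h => hUs (emb_mem_box.mpr h)⟩

/-- Compact sets are saturated. -/
theorem saturated (K : Set XX) (x : XX)
    (h : ∀ V : Set XX, IsOpen V → K ⊆ V → x ∈ V) : x ∈ K := by
  by_contra hx
  have hop : IsOpen ({x}ᶜ : Set XX) := (isClosed_of_finite (finite_singleton x)).isOpen_compl
  exact h _ hop (fun y hy hyx => hx (hyx ▸ hy)) rfl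

/-- The irreducible closed family. -/
def AA : Set PS := {K | pr '' K.1 = univ}

theorem exists_full {U : Set XX} (hU : IsOpen U) (hs : shadow U = univ) :
    ∃ K : PS, K ∈ AA ∧ K.1 ⊆ U := by
  have key : ∃ K : Set XX, K ⊆ U ∧ IsCompact K ∧ (univ : Set CT) ⊆ pr '' K := by
    refine (isCompact_univ (X := CT)).induction_on (p := fun S => ∃ K : Set XX, K ⊆ U ∧
      IsCompact K ∧ S ⊆ pr '' K) ?_ ?_ ?_ ?_
    · exact ⟨∅, empty_subset _, isCompact_empty, empty_subset _⟩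
    · rintro s t hst ⟨K, h1, h2, h3⟩
      exact ⟨K, h1, h2, hst.trans h3⟩
    · rintro s t ⟨K, h1, h2, h3⟩ ⟨K', h1', h2', h3'⟩
      refine ⟨K ∪ K', union_subset h1 h1', h2.union h2', ?_⟩
      rw [image_union]
      exact union_subset_union h3 h3'
    · intro t _
      have ht : t ∈ shadow U := by rw [hs]; trivial
      obtain ⟨n, hn⟩ := ht
      obtain ⟨C, hC, htC, hCU⟩ := exists_compact_subset (hU.1 n) hn
      refine ⟨C, mem_nhdsWithin_of_mem_nhds (mem_interior_iff_mem_nhds.mp htC),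
        (fun t => (⟨t, n⟩ : XX)) '' C, ?_, hC.image (continuous_slice n), ?_⟩
      · rintro _ ⟨s, hs, rfl⟩
        exact hCU hs
      · intro s hs
        exact ⟨⟨s, n⟩, ⟨s, hs, rfl⟩, rfl⟩
  obtain ⟨K, hKU, hK, hKs⟩ := key
  have hne : K.Nonempty := by
    obtain ⟨x, hx, -⟩ := hKs (mem_univ (fun _ => false : CT))
    exact ⟨x, hx⟩
  exact ⟨⟨K, hne, hK, fun x => saturated K x⟩, eq_univ_of_univ_subset hKs, hKU⟩

theorem shadow_of_mem {K : PS} (hK : K ∈ AA) {U : Set XX} (h : K.1 ⊆ U) : shadow U = univ := by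
  rw [eq_univ_iff_forall]
  intro t
  have : t ∈ pr '' K.1 := by
    have h2 : pr '' K.1 = univ := hK
    rw [h2]; trivial
  obtain ⟨x, hx, rfl⟩ := this
  exact ⟨x.n, h hx⟩

theorem isClosed_AA : @IsClosed PS topPS AA := by
  rw [← @isOpen_compl_iff _ _ topPS, isOpenPS_iff]
  intro K hK
  have : ∃ t, t ∉ pr '' K.1 := by
    by_contra hcon
    push Not at hcon
    exact hK (eq_univ_of_forall hcon)
  obtain ⟨t, ht⟩ := this
  refine ⟨cyl {t}ᶜ, isOpen_corow t, ?_, ?_⟩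
  · intro x hx hxt
    exact ht ⟨x, hx, hxt⟩
  · intro K' hK' hmem
    have h2 : pr '' K'.1 = univ := hmem
    have : t ∈ pr '' K'.1 := by rw [h2]; trivial
    obtain ⟨x, hx, hxt⟩ := this
    exact hK' hx hxt

theorem isIrreducible_AA : @IsIrreducible PS topPS AA := by
  constructor
  · obtain ⟨K, hK, -⟩ := exists_full isOpen_univ shadow_univ
    exact ⟨K, hK⟩
  · rintro 𝒰 𝒱 h𝒰 h𝒱 ⟨K1, hK1, hK1'⟩ ⟨K2, hK2, hK2'⟩
    obtain ⟨U, hU, hKU, hUs⟩ := isOpenPS_iff.mp h𝒰 K1 hK1'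
    obtain ⟨V, hV, hKV, hVs⟩ := isOpenPS_iff.mp h𝒱 K2 hK2'
    obtain ⟨K, hK, hKs⟩ := exists_full (hU.inter hV) (by
      rw [shadow_inter hU hV, shadow_of_mem hK1 hKU, shadow_of_mem hK2 hKV, inter_self])
    exact ⟨K, hK, hUs K (hKs.trans inter_subset_left), hVs K (hKs.trans inter_subset_right)⟩

theorem not_countable_CT : ¬ (univ : Set CT).Countable := by
  intro h
  rw [countable_univ_iff] at h
  obtain ⟨g, hg⟩ := exists_surjective_nat CT
  obtain ⟨m, hm⟩ := hg (fun n => !(g n n))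
  have := congrFun hm m
  simp at this

theorem no_point (y : YY) : closure (emb '' AA) ≠ closure {y} := by
  intro heq
  have hmem : ∀ K ∈ AA, ∀ U : Set XX, IsOpen U → K.1 ⊆ U → y ∈ box U := by
    intro K hK U hU hKU
    have h1 : emb K ∈ closure {y} := heq ▸ subset_closure ⟨K, hK, rfl⟩
    rw [mem_closure_iff] at h1
    obtain ⟨z, hz, hzy⟩ := h1 (box U) (isOpen_box hU) (emb_mem_box.mpr hKU)
    rw [mem_singleton_iff] at hzy
    exact hzy ▸ hz
  have hfull : ∀ U : Set XX, IsOpen U → shadow U = univ → y ∈ box U := by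
    intro U hU hs
    obtain ⟨K, hK, hKU⟩ := exists_full hU hs
    exact hmem K hK U hU hKU
  have hL : ∀ x, x ∉ y.1.2 := by
    intro x hx
    have hop : IsOpen ({x}ᶜ : Set XX) := (isClosed_of_finite (finite_singleton x)).isOpen_compl
    have hsh : shadow ({x}ᶜ : Set XX) = univ := by
      apply shadow_compl_of
      intro t
      refine ((finite_singleton x).image XX.n).subset ?_
      intro n hn
      exact ⟨⟨t, n⟩, hn, rfl⟩
    exact (hfull _ hop hsh).1 hx rfl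
  have hH : y.1.1 = univ := by
    by_contra hne
    obtain ⟨t, ht⟩ := (ne_univ_iff_exists_notMem _).mp hne
    have hyb : y ∈ box (cyl {t}ᶜ) := by
      refine ⟨fun x hx => (hL x hx).elim, ?_⟩
      rw [shadow_cyl]
      intro s hs hst
      exact ht (hst ▸ hs)
    have hyc : y ∈ closure (emb '' AA) := heq ▸ subset_closure rfl
    rw [mem_closure_iff] at hyc
    obtain ⟨_, hz, ⟨K, hK, rfl⟩⟩ := hyc _ (isOpen_box (isOpen_corow t)) hyb
    have h3 := shadow_of_mem hK (emb_mem_box.mp hz)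
    rw [shadow_cyl] at h3
    have : t ∈ ({t}ᶜ : Set CT) := by rw [h3]; trivial
    exact this rfl
  apply not_countable_CT
  apply y.2.2 univ isClosed_univ
  · rw [hH]
  · intro x hx
    exact (hL x hx).elim

end Aux

/-- The negation of the preceding statement: For every T0 space X that is well-filtered determined (each closed irreducible set has the closure of its image under any continuous map into a well-filtered space equal to a point closure), the space of nonempty compact saturated subsets with the upper Vietoris topology is also well-filtered determ -/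
theorem result :
    ¬ (∀ (WF : (Y : Type) → TopologicalSpace Y → Prop),
    (∀ (Y : Type) (s : TopologicalSpace Y), WF Y s ↔
      (@T0Space Y s ∧
        ∀ (𝒦 : Set (Set Y)) (U : Set Y),
          (∀ K ∈ 𝒦, @IsCompact Y s K ∧
            ∀ y : Y, (∀ V : Set Y, @IsOpen Y s V → K ⊆ V → y ∈ V) → y ∈ K) →
          𝒦.Nonempty →
          (∀ K₁ ∈ 𝒦, ∀ K₂ ∈ 𝒦, ∃ K₃ ∈ 𝒦, K₃ ⊆ K₁ ∩ K₂) →
          @IsOpen Y s U → ⋂₀ 𝒦 ⊆ U → ∃ K ∈ 𝒦, K ⊆ U)) →
  ∀ (WFD : (Z : Type) → TopologicalSpace Z → Prop),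
    (∀ (Z : Type) (t : TopologicalSpace Z), WFD Z t ↔
      ∀ A : Set Z, @IsClosed Z t A → @IsIrreducible Z t A →
        ∀ (Y : Type) (s : TopologicalSpace Y) (f : Z → Y), WF Y s → @Continuous Z Y t s f →
          ∃ y : Y, @closure Y s (f '' A) = @closure Y s {y}) →
  ∀ (X : Type) (t : TopologicalSpace X), @T0Space X t → WFD X t →
    WFD {K : Set X // K.Nonempty ∧ @IsCompact X t K ∧
          ∀ x : X, (∀ V : Set X, @IsOpen X t V → K ⊆ V → x ∈ V) → x ∈ K}
      (TopologicalSpace.generateFrom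
        {S | ∃ U : Set X, @IsOpen X t U ∧ S = {K | K.1 ⊆ U}})) := by
  intro hall
  have h1 := hall _ (fun Y s => Iff.rfl) _ (fun Z t => Iff.rfl) XX topX t0X (by
    intro A hA hAi Y s f hWF hf
    exact wfdX hA hAi f hf hWF.2)
  obtain ⟨y, hy⟩ := h1 AA isClosed_AA isIrreducible_AA YY topY emb ⟨t0Y, wfY⟩ continuous_emb
  exact no_point y hy

end Pool.Agent.S08754
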