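import Pool.Statements.S08768
import Pool.Agent.Helper695.Space

set_option autoImplicit false
open Pool Pool.MP_a33cdf_gt

namespace Pool.Agent.S08768

/-- The negation of the preceding statement: For every Tychonoff space X and cardinal τ: if every closed subspace of X has a dense subset of size at most τ, then every subspace of X has a dense subset of size at most τ. -/
theorem result :
    ¬ (∀ (X : Type) [TopologicalSpace X] [T35Space X] (τ : Cardinal.{0}),
      (∀ Y : Set X, IsClosed Y → ∃ D ⊆ Y, Y ⊆ closure D ∧ Cardinal.mk ↥D ≤ τ) →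
      ∀ Z : Set X, ∃ D ⊆ Z, Z ⊆ closure D ∧ Cardinal.mk ↥D ≤ τ) := by
  intro h
  obtain ⟨D, hD1, hD2, hD3⟩ := h Pool.Agent.Helper695.Space.X Pool.Agent.Helper695.Scale.mu
    Pool.Agent.Helper695.Space.closed_density Pool.Agent.Helper695.Space.Z
  exact Pool.Agent.Helper695.Space.Z_not_dense D hD1 hD3 hD2

end Pool.Agent.S08768
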