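import Pool.Statements.S08770
import Pool.Agent.Helper102.PerfectSpace

set_option autoImplicit false
open Pool Pool.MP_a4908e_gt

namespace Pool.Agent.S08770

open Pool.Agent.Helper102.PerfectSpace Pool.Agent.Helper102.PerfectSpace.Pt

/-- The negation of the preceding statement: For Tychonoff spaces X, Y: if every closed subset of X is a G-delta and the spaces of continuous real functions on X and Y with the pointwise topology are linearly homeomorphic, then every closed subset of Y is a G-delta. -/
theorem result :
    ¬ (∀ (X Y : Type) [TopologicalSpace X] [T35Space X] [TopologicalSpace Y] [T35Space Y],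
      (∀ s : Set X, IsClosed s → IsGδ s) →
      (∃ T : {f : X → ℝ // Continuous f} ≃ₜ {g : Y → ℝ // Continuous g},
        ∀ (a : ℝ) (f g h : {f : X → ℝ // Continuous f}),
          h.1 = a • f.1 + g.1 → (T h).1 = a • (T f).1 + (T g).1) →
      ∀ s : Set Y, IsClosed s → IsGδ s) := by
  intro H
  have key := H Pt QPt isGδ_of_isClosed
    ⟨{ toFun := fun f => ⟨fun p => tw f.1 p.pt, continuous_tw ⟨f.1, f.2⟩⟩
       invFun := fun g => ⟨untw (fun p => g.1 ⟨p⟩), continuous_untw g.1 g.2⟩
       left_inv := by
         intro f
         apply Subtype.ext
         exact untw_tw f.1
       right_inv := by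
         intro g
         apply Subtype.ext
         funext p
         exact congrFun (tw_untw (fun p => g.1 ⟨p⟩)) p.pt
       continuous_toFun := by
         have hev : ∀ p : Pt, Continuous (fun f : {f : Pt → ℝ // Continuous f} => f.1 p) :=
           fun p => (continuous_apply p).comp continuous_subtype_val
         refine Continuous.subtype_mk (continuous_pi fun p => ?_) _
         obtain ⟨p⟩ := p
         cases p with
         | node t => exact hev _
         | leaf t i => exact ((hev _).sub (hev _)).add (hev _)
         | b x => exact hev _
         | a x => exact ((hev _).sub (hev _)).add (hev _)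
       continuous_invFun := by
         have hev : ∀ p : QPt, Continuous (fun g : {g : QPt → ℝ // Continuous g} => g.1 p) :=
           fun p => (continuous_apply p).comp continuous_subtype_val
         refine Continuous.subtype_mk (continuous_pi fun p => ?_) _
         cases p with
         | node t => exact hev _
         | leaf t i => exact ((hev _).sub (hev _)).add (hev _)
         | b x => exact hev _
         | a x => exact ((hev _).sub (hev _)).add (hev _) }, by
      rintro c ⟨f, hf⟩ ⟨g, hg⟩ ⟨h, hh⟩ hfg
      have hfg' : h = c • f + g := hfg
      subst hfg'
      funext p
      obtain ⟨p⟩ := p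
      cases p <;> simp [tw] <;> ring⟩
  exact not_isGδ_base (key _ isClosed_singleton)

end Pool.Agent.S08770
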