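import Pool.Statements.S08777
import Pool.Agent.Helper648.SZ.Final

set_option autoImplicit false
open Pool Pool.MP_a56558_gt

namespace Pool.Agent.S08777

/-- Claim: if f is a confluent map from a metric continuum X onto a metric continuum Y, and X has span zero, then Y has span zero. Span zero means every subcontinuum of the square whose two projections coincide meets the diagonal. -/
theorem result :
    ∀ (X Y : Type) [MetricSpace X] [CompactSpace X] [ConnectedSpace X]
      [MetricSpace Y] [CompactSpace Y] [ConnectedSpace Y] (f : X → Y),
      Continuous f → Function.Surjective f →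
      (∀ K : Set Y, IsClosed K → IsConnected K →
        ∀ x ∈ f ⁻¹' K, f '' connectedComponentIn (f ⁻¹' K) x = K) →
      (∀ Z : Set (X × X), IsClosed Z → IsConnected Z →
        Prod.fst '' Z = Prod.snd '' Z → ∃ x : X, (x, x) ∈ Z) →
      (∀ Z : Set (Y × Y), IsClosed Z → IsConnected Z →
        Prod.fst '' Z = Prod.snd '' Z → ∃ y : Y, (y, y) ∈ Z) := by
  intro X Y _ _ _ _ _ _ f hf hfs hfc hX
  exact Pool.Agent.Helper648.SZ.final X Y f hf hfs hfc hX

end Pool.Agent.S08777
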