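import Pool.Statements.S08782

set_option autoImplicit false
open Pool Pool.MP_a6a8af_gt

namespace Pool.Agent.S08782

open Set Topology
open scoped Real

section Unicoherence

theorem const_of_int {Y : Type*} [TopologicalSpace Y] {S : Set Y} (hS : IsPreconnected S)
    {F : Y → ℝ} (hF : ContinuousOn F S) (h : ∀ y ∈ S, ∃ n : ℤ, F y = n * (2 * π)) {a b : Y}
    (ha : a ∈ S) (hb : b ∈ S) : F a = F b := by
  have key : ∀ a ∈ S, ∀ b ∈ S, ¬ F a < F b := by
    intro a ha b hb hlt
    obtain ⟨n, hn⟩ := h a ha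
    obtain ⟨m, hm⟩ := h b hb
    have hpi := Real.pi_pos
    have hnm : n < m := by
      rw [hn, hm] at hlt
      have : (n : ℝ) < m := lt_of_mul_lt_mul_right hlt (by positivity)
      exact_mod_cast this
    have hnm' : (n : ℝ) + 1 ≤ m := by exact_mod_cast hnm
    have hmem : F a + π ∈ Icc (F a) (F b) := by
      constructor
      · linarith
      · rw [hn, hm]; nlinarith
    obtain ⟨c, hc, hFc⟩ := hS.intermediate_value ha hb hF hmem
    obtain ⟨k, hk⟩ := h c hc
    have hFc' : F c = F a + π := hFc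
    rw [hk, hn] at hFc'
    have : (k : ℝ) * 2 = n * 2 + 1 := by
      have h2 : ((k : ℝ) * 2 - (n * 2 + 1)) * π = 0 := by linarith
      rcases mul_eq_zero.1 h2 with h3 | h3
      · linarith
      · exact absurd h3 hpi.ne'
    have h4 : k * 2 = n * 2 + 1 := by exact_mod_cast this
    omega
  exact le_antisymm (not_lt.1 (key b hb a ha)) (not_lt.1 (key a ha b hb))

theorem unicoherent_of_lift {Y : Type*} [TopologicalSpace Y] [NormalSpace Y] [PreconnectedSpace Y]
    (hl : ∀ g : C(Y, Circle), ∃ φ : C(Y, ℝ), ∀ y, Circle.exp (φ y) = g y) {A B : Set Y}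
    (hA : IsClosed A) (hB : IsClosed B) (hAc : IsConnected A) (hBc : IsConnected B)
    (hAB : A ∪ B = univ) : IsConnected (A ∩ B) := by
  constructor
  · have := isPreconnected_closed_iff.1 (isPreconnected_univ (α := Y)) A B hA hB hAB.ge
      (by simpa using hAc.1) (by simpa using hBc.1)
    simpa using this
  rw [isPreconnected_closed_iff]
  intro P Q hP hQ hPQ hneP hneQ
  by_contra hcon
  rw [not_nonempty_iff_eq_empty] at hcon
  set P' := A ∩ B ∩ P with hP'
  set Q' := A ∩ B ∩ Q with hQ'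
  have hP'c : IsClosed P' := (hA.inter hB).inter hP
  have hQ'c : IsClosed Q' := (hA.inter hB).inter hQ
  have hdis : Disjoint P' Q' := by
    rw [Set.disjoint_left]
    intro y hy1 hy2
    have : y ∈ A ∩ B ∩ (P ∩ Q) := ⟨hy1.1, hy1.2, hy2.2⟩
    rw [hcon] at this
    exact this
  obtain ⟨u, hu0, hu1, hu⟩ := exists_continuous_zero_one_of_isClosed hP'c hQ'c hdis
  classical
  let g : Y → Circle := fun y => if y ∈ A then Circle.exp (π * u y) else Circle.exp (-(π * u y))
  have hgA : ∀ y ∈ A, g y = Circle.exp (π * u y) := fun y hy => if_pos hy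
  have hgB : ∀ y ∈ B, g y = Circle.exp (-(π * u y)) := by
    intro y hy
    by_cases hyA : y ∈ A
    · rw [hgA y hyA]
      rcases hPQ ⟨hyA, hy⟩ with h | h
      · have : u y = 0 := hu0 ⟨⟨hyA, hy⟩, h⟩
        rw [this]; simp
      · have : u y = 1 := hu1 ⟨⟨hyA, hy⟩, h⟩
        rw [this, Circle.exp_eq_exp]
        exact ⟨1, by push_cast; ring⟩
    · exact if_neg hyA
  have hgc : Continuous g := by
    rw [← continuousOn_univ, ← hAB]
    apply ContinuousOn.union_of_isClosed _ _ hA hB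
    · have : ContinuousOn (fun y => Circle.exp (π * u y)) A := by fun_prop
      exact this.congr hgA
    · have : ContinuousOn (fun y => Circle.exp (-(π * u y))) B := by fun_prop
      exact this.congr hgB
  obtain ⟨φ, hφ⟩ := hl ⟨g, hgc⟩
  obtain ⟨p, hp⟩ := hneP
  obtain ⟨q, hq⟩ := hneQ
  have hup : u p = 0 := hu0 hp
  have huq : u q = 1 := hu1 hq
  have e1 : φ p - π * u p = φ q - π * u q := by
    apply const_of_int (F := fun y => φ y - π * u y) hAc.2 (by fun_prop) _ hp.1.1 hq.1.1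
    intro y hy
    have := hφ y
    simp only [ContinuousMap.coe_mk] at this
    rw [hgA y hy, Circle.exp_eq_exp] at this
    obtain ⟨n, hn⟩ := this
    exact ⟨n, by linarith⟩
  have e2 : φ p + π * u p = φ q + π * u q := by
    apply const_of_int (F := fun y => φ y + π * u y) hBc.2 (by fun_prop) _ hp.1.2 hq.1.2
    intro y hy
    have := hφ y
    simp only [ContinuousMap.coe_mk] at this
    rw [hgB y hy, Circle.exp_eq_exp] at this
    obtain ⟨n, hn⟩ := this
    exact ⟨n, by linarith⟩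
  rw [hup, huq] at e1 e2
  have := Real.pi_pos
  linarith

end Unicoherence

section Example

abbrev EX : Type := ℂ × ℂ × ℝ
abbrev EY : Type := ℂ × ℂ × ℝ × ℂ × ℂ

/-- two unit spheres with common poles -/
def SX : Set EX := {x | (x.1 = 0 ∨ x.2.1 = 0) ∧ ‖x.1‖ ^ 2 + ‖x.2.1‖ ^ 2 + x.2.2 ^ 2 = 1}

/-- the map identifying antipodal points -/
def qq (x : EX) : EY := (x.1 ^ 2, x.2.1 ^ 2, x.2.2 ^ 2, x.2.2 * x.1, x.2.2 * x.2.1)

def SY : Set EY := qq '' SX

theorem qq_cont : Continuous qq := by unfold qq; fun_prop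

theorem qq_neg (x : EX) : qq (-x) = qq x := by
  simp [qq]

theorem qq_eq {x y : EX} (hx : x ∈ SX) (hy : y ∈ SX) (h : qq x = qq y) : y = x ∨ y = -x := by
  obtain ⟨z, w, t⟩ := x
  obtain ⟨z', w', t'⟩ := y
  obtain ⟨hx1, hx2⟩ := hx
  obtain ⟨hy1, hy2⟩ := hy
  simp only [qq, Prod.mk.injEq] at h hx1 hx2 hy1 hy2
  obtain ⟨h1, h2, h3, h4, h5⟩ := h
  simp only [Prod.neg_mk, Prod.mk.injEq]
  by_cases ht : t = 0
  · subst ht
    have ht' : t' = 0 := by
      have : t' ^ 2 = 0 := by rw [← h3]; norm_num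
      exact pow_eq_zero_iff (two_ne_zero) |>.1 this
    subst ht'
    rcases sq_eq_sq_iff_eq_or_eq_neg.1 h1 with e1 | e1 <;>
      rcases sq_eq_sq_iff_eq_or_eq_neg.1 h2 with e2 | e2
    · left; exact ⟨e1.symm, e2.symm, rfl⟩
    · rcases hx1 with h0 | h0
      · right
        subst h0
        have : z' = 0 := by rw [← e1]
        subst this
        exact ⟨by simp, by rw [e2]; simp, by simp⟩
      · left
        subst h0
        have : w' = 0 := by have := e2; rw [eq_comm, neg_eq_zero] at this; exact this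
        subst this
        exact ⟨e1.symm, rfl, rfl⟩
    · rcases hx1 with h0 | h0
      · left
        subst h0
        have : z' = 0 := by have := e1; rw [eq_comm, neg_eq_zero] at this; exact this
        subst this
        exact ⟨rfl, e2.symm, rfl⟩
      · right
        subst h0
        have : w' = 0 := by rw [← e2]
        subst this
        exact ⟨by rw [e1]; simp, by simp, by simp⟩
    · right; exact ⟨by rw [e1]; simp, by rw [e2]; simp, by simp⟩
  · have htc : (t : ℂ) ≠ 0 := by exact_mod_cast ht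
    rcases sq_eq_sq_iff_eq_or_eq_neg.1 h3 with e | e
    · left
      subst e
      exact ⟨(mul_left_cancel₀ htc h4).symm, (mul_left_cancel₀ htc h5).symm, rfl⟩
    · right
      have e' : t' = -t := by rw [e]; ring
      subst e'
      push_cast at h4 h5
      refine ⟨?_, ?_, rfl⟩
      · have : (t : ℂ) * z = t * (-z') := by rw [h4]; ring
        have := mul_left_cancel₀ htc this
        rw [this]; ring
      · have : (t : ℂ) * w = t * (-w') := by rw [h5]; ring
        have := mul_left_cancel₀ htc this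
        rw [this]; ring

theorem SX_neg {x : EX} (hx : x ∈ SX) : -x ∈ SX := by
  obtain ⟨h1, h2⟩ := hx
  refine ⟨?_, ?_⟩
  · rcases h1 with h | h
    · left; simp [h]
    · right; simp [h]
  · simpa using h2

theorem SX_closed : IsClosed SX := by
  have h1 : IsClosed {x : EX | x.1 = 0} := isClosed_eq (by fun_prop) continuous_const
  have h2 : IsClosed {x : EX | x.2.1 = 0} := isClosed_eq (by fun_prop) continuous_const
  have h3 : IsClosed {x : EX | ‖x.1‖ ^ 2 + ‖x.2.1‖ ^ 2 + x.2.2 ^ 2 = 1} :=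
    isClosed_eq (by fun_prop) continuous_const
  exact (h1.union h2).inter h3

theorem SX_compact : IsCompact SX := by
  apply (isCompact_closedBall (0 : EX) 1).of_isClosed_subset SX_closed
  rintro ⟨z, w, t⟩ ⟨-, h⟩
  simp only at h
  rw [mem_closedBall_zero_iff, Prod.norm_def, Prod.norm_def]
  have h1 := norm_nonneg z
  have h2 := norm_nonneg w
  refine max_le ?_ (max_le ?_ ?_)
  · simp only; nlinarith [sq_nonneg t, sq_nonneg ‖w‖]
  · simp only; nlinarith [sq_nonneg t, sq_nonneg ‖z‖]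
  · simp only [Real.norm_eq_abs]
    rw [abs_le]
    constructor <;> nlinarith [sq_nonneg ‖z‖, sq_nonneg ‖w‖]

/-- parametrisation -/
noncomputable def pr (b : Bool) (v : ℝ × ℝ) : EX :=
  if b then (0, Real.sin v.1 * Complex.exp (v.2 * Complex.I), Real.cos v.1)
  else (Real.sin v.1 * Complex.exp (v.2 * Complex.I), 0, Real.cos v.1)

theorem pr_cont (b : Bool) : Continuous (pr b) := by
  cases b
  · show Continuous (fun v : ℝ × ℝ =>
      (((Real.sin v.1 * Complex.exp (v.2 * Complex.I) : ℂ), (0 : ℂ), Real.cos v.1) : EX))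
    fun_prop
  · show Continuous (fun v : ℝ × ℝ =>
      (((0 : ℂ), (Real.sin v.1 * Complex.exp (v.2 * Complex.I) : ℂ), Real.cos v.1) : EX))
    fun_prop

theorem norm_aux (v : ℝ × ℝ) :
    ‖(Real.sin v.1 * Complex.exp (v.2 * Complex.I) : ℂ)‖ ^ 2 = Real.sin v.1 ^ 2 := by
  rw [norm_mul, Complex.norm_exp_ofReal_mul_I, mul_one, Complex.norm_real, Real.norm_eq_abs, sq_abs]

theorem pr_mem (b : Bool) (v : ℝ × ℝ) : pr b v ∈ SX := by
  have h1 := norm_aux v
  have h2 := Real.sin_sq_add_cos_sq v.1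
  cases b
  · refine ⟨Or.inr rfl, ?_⟩
    show ‖(Real.sin v.1 * Complex.exp (v.2 * Complex.I) : ℂ)‖ ^ 2 + ‖(0 : ℂ)‖ ^ 2 + Real.cos v.1 ^ 2 = 1
    rw [h1, norm_zero]; linarith
  · refine ⟨Or.inl rfl, ?_⟩
    show ‖(0 : ℂ)‖ ^ 2 + ‖(Real.sin v.1 * Complex.exp (v.2 * Complex.I) : ℂ)‖ ^ 2 + Real.cos v.1 ^ 2 = 1
    rw [h1, norm_zero]; linarith

/-- the rectangle -/
def RR : Set (ℝ × ℝ) := Icc 0 π ×ˢ Icc (-π) π

theorem RR_compact : IsCompact RR := isCompact_Icc.prod isCompact_Icc

theorem exists_aux {z : ℂ} {t : ℝ} (h : ‖z‖ ^ 2 + t ^ 2 = 1) :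
    ∃ v ∈ RR, (Real.sin v.1 * Complex.exp (v.2 * Complex.I) : ℂ) = z ∧ Real.cos v.1 = t := by
  have ht : -1 ≤ t ∧ t ≤ 1 := by
    constructor <;> nlinarith [sq_nonneg ‖z‖]
  refine ⟨(Real.arccos t, Complex.arg z), ⟨⟨Real.arccos_nonneg t, Real.arccos_le_pi t⟩,
    (Complex.neg_pi_lt_arg z).le, Complex.arg_le_pi z⟩, ?_, Real.cos_arccos ht.1 ht.2⟩
  have h1 : Real.sin (Real.arccos t) = ‖z‖ := by
    rw [Real.sin_arccos]
    have : 1 - t ^ 2 = ‖z‖ ^ 2 := by linarith
    rw [this, Real.sqrt_sq (norm_nonneg z)]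
  rw [h1]
  exact Complex.norm_mul_exp_arg_mul_I z

theorem exists_pr {x : EX} (hx : x ∈ SX) : ∃ b, ∃ v ∈ RR, pr b v = x := by
  obtain ⟨z, w, t⟩ := x
  obtain ⟨h1, h2⟩ := hx
  simp only at h1 h2
  rcases h1 with rfl | rfl
  · obtain ⟨v, hv, e1, e2⟩ := exists_aux (z := w) (t := t) (by simpa using h2)
    refine ⟨true, v, hv, ?_⟩
    show ((0 : ℂ), (Real.sin v.1 * Complex.exp (v.2 * Complex.I) : ℂ), Real.cos v.1) = _
    rw [e1, e2]
  · obtain ⟨v, hv, e1, e2⟩ := exists_aux (z := z) (t := t) (by simpa using h2)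
    refine ⟨false, v, hv, ?_⟩
    show ((Real.sin v.1 * Complex.exp (v.2 * Complex.I) : ℂ), (0 : ℂ), Real.cos v.1) = _
    rw [e1, e2]

/-- parametrisation with values in the space -/
noncomputable def prX (p : (ℝ × ℝ) × Bool) : SX := ⟨pr p.2 p.1, pr_mem _ _⟩

theorem prX_cont : Continuous prX := by
  rw [continuous_prod_of_discrete_right]
  intro b
  exact (pr_cont b).subtype_mk _

theorem prX_surj : Function.Surjective prX := by
  intro x
  obtain ⟨b, v, -, h⟩ := exists_pr x.2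
  exact ⟨(v, b), Subtype.ext h⟩

instance : CompactSpace SX := isCompact_iff_compactSpace.1 SX_compact

theorem prX_quot : IsQuotientMap prX := by
  let K : Set ((ℝ × ℝ) × Bool) := RR ×ˢ univ
  have hK : IsCompact K := RR_compact.prod isCompact_univ
  have : CompactSpace K := isCompact_iff_compactSpace.1 hK
  let r : K → SX := fun k => prX k
  have hr : Continuous r := prX_cont.comp continuous_subtype_val
  have hrs : Function.Surjective r := by
    intro x
    obtain ⟨b, v, hv, h⟩ := exists_pr x.2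
    exact ⟨⟨(v, b), hv, mem_univ _⟩, Subtype.ext h⟩
  have hrq : IsQuotientMap r := hr.isClosedMap.isQuotientMap hr hrs
  exact IsQuotientMap.of_comp continuous_subtype_val prX_cont hrq

instance : LocallyConnectedSpace SX := prX_quot.isCoinducing.locallyConnectedSpace

theorem pole_aux (b : Bool) : prX ((0, 0), b) = ⟨(0, 0, 1), by simp [SX]⟩ := by
  apply Subtype.ext
  cases b <;> simp [prX, pr]

theorem branch_conn (b : Bool) : IsPreconnected (range fun v : ℝ × ℝ => prX (v, b)) :=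
  isPreconnected_range (prX_cont.comp (by fun_prop))

instance : ConnectedSpace SX := by
  have : PreconnectedSpace SX := by
    constructor
    have hu : (univ : Set SX) = (range fun v : ℝ × ℝ => prX (v, false)) ∪
        (range fun v : ℝ × ℝ => prX (v, true)) := by
      symm
      rw [eq_univ_iff_forall]
      intro x
      obtain ⟨⟨v, b⟩, h⟩ := prX_surj x
      cases b
      · left; exact ⟨v, h⟩
      · right; exact ⟨v, h⟩
    rw [hu]
    have h1 : prX ((0, 0), false) ∈ range (fun v : ℝ × ℝ => prX (v, false)) := ⟨(0, 0), rfl⟩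
    have h2 : prX ((0, 0), false) ∈ range (fun v : ℝ × ℝ => prX (v, true)) := ⟨(0, 0), by
      show prX ((0, 0), true) = prX ((0, 0), false)
      rw [pole_aux, pole_aux]⟩
    exact IsPreconnected.union _ h1 h2 (branch_conn false) (branch_conn true)
  exact { this with toNonempty := ⟨prX ((0, 0), false)⟩ }

theorem branch_false : (range fun v : ℝ × ℝ => prX (v, false)) = {x : SX | (x : EX).2.1 = 0} := by
  ext x
  constructor
  · rintro ⟨v, rfl⟩; rfl
  · intro hx
    obtain ⟨⟨z, w, t⟩, h1, h2⟩ := x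
    simp only [mem_ofPred_eq] at hx
    subst hx
    simp only at h2
    obtain ⟨v, hv, e1, e2⟩ := exists_aux (z := z) (t := t) (by simpa using h2)
    refine ⟨v, Subtype.ext ?_⟩
    show ((Real.sin v.1 * Complex.exp (v.2 * Complex.I) : ℂ), (0 : ℂ), Real.cos v.1) = _
    rw [e1, e2]

theorem branch_true : (range fun v : ℝ × ℝ => prX (v, true)) = {x : SX | (x : EX).1 = 0} := by
  ext x
  constructor
  · rintro ⟨v, rfl⟩; rfl
  · intro hx
    obtain ⟨⟨z, w, t⟩, h1, h2⟩ := x
    simp only [mem_ofPred_eq] at hx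
    subst hx
    simp only at h2
    obtain ⟨v, hv, e1, e2⟩ := exists_aux (z := w) (t := t) (by simpa using h2)
    refine ⟨v, Subtype.ext ?_⟩
    show ((0 : ℂ), (Real.sin v.1 * Complex.exp (v.2 * Complex.I) : ℂ), Real.cos v.1) = _
    rw [e1, e2]

theorem X_nonunicoherent : ∃ A B : Set SX, IsClosed A ∧ IsClosed B ∧ IsConnected A ∧ IsConnected B ∧
    A ∪ B = Set.univ ∧ ¬ IsConnected (A ∩ B) := by
  refine ⟨{x : SX | (x : EX).2.1 = 0}, {x : SX | (x : EX).1 = 0}, ?_, ?_, ?_, ?_, ?_, ?_⟩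
  · exact isClosed_eq (by fun_prop) continuous_const
  · exact isClosed_eq (by fun_prop) continuous_const
  · rw [← branch_false]; exact ⟨⟨_, (0, 0), rfl⟩, branch_conn false⟩
  · rw [← branch_true]; exact ⟨⟨_, (0, 0), rfl⟩, branch_conn true⟩
  · rw [eq_univ_iff_forall]
    rintro ⟨x, h1, h2⟩
    rcases h1 with h | h
    · right; exact h
    · left; exact h
  · rintro ⟨-, hc⟩
    have h1 : (⟨(0, 0, 1), by simp [SX]⟩ : SX) ∈
        ({x : SX | (x : EX).2.1 = 0} ∩ {x : SX | (x : EX).1 = 0}) := ⟨rfl, rfl⟩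
    have h2 : (⟨(0, 0, -1), by simp [SX]⟩ : SX) ∈
        ({x : SX | (x : EX).2.1 = 0} ∩ {x : SX | (x : EX).1 = 0}) := ⟨rfl, rfl⟩
    have hcont : ContinuousOn (fun x : SX => (x : EX).2.2)
        ({x : SX | (x : EX).2.1 = 0} ∩ {x : SX | (x : EX).1 = 0}) := by fun_prop
    obtain ⟨y, ⟨hy1, hy2⟩, hy⟩ := hc.intermediate_value h2 h1 hcont (show (0 : ℝ) ∈ Icc (-1 : ℝ) 1 by norm_num)
    have := y.2.2
    simp only [mem_ofPred_eq] at hy1 hy2 hy
    rw [hy1, hy2, hy] at this
    norm_num at this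

/-- The covering map -/
def ff (x : SX) : SY := ⟨qq x, x, x.2, rfl⟩

theorem ff_cont : Continuous ff := (qq_cont.comp continuous_subtype_val).subtype_mk _

theorem ff_surj : Function.Surjective ff := by
  rintro ⟨_, x, hx, rfl⟩
  exact ⟨⟨x, hx⟩, rfl⟩

theorem ff_quot : IsQuotientMap ff := ff_cont.isClosedMap.isQuotientMap ff_cont ff_surj

def ng (x : SX) : SX := ⟨-x, SX_neg x.2⟩

theorem ng_cont : Continuous ng := (continuous_subtype_val.neg).subtype_mk _

theorem ff_ng (x : SX) : ff (ng x) = ff x := Subtype.ext (qq_neg x)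

theorem ff_eq {x y : SX} (h : ff x = ff y) : y = x ∨ y = ng x := by
  rcases qq_eq x.2 y.2 (congrArg Subtype.val h) with h | h
  · left; exact Subtype.ext h
  · right; exact Subtype.ext h

theorem ng_ng (x : SX) : ng (ng x) = x := Subtype.ext (neg_neg _)

theorem ff_open : IsOpenMap ff := by
  intro U hU
  rw [← ff_quot.isOpen_preimage]
  have : ff ⁻¹' (ff '' U) = U ∪ ng ⁻¹' U := by
    ext x
    constructor
    · rintro ⟨y, hy, hyx⟩
      rcases ff_eq hyx with h | h
      · left; rw [h]; exact hy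
      · right
        show ng x ∈ U
        rw [h, ng_ng]; exact hy
    · rintro (h | h)
      · exact ⟨x, h, rfl⟩
      · exact ⟨ng x, h, ff_ng x⟩
  rw [this]
  exact hU.union (hU.preimage ng_cont)

theorem dist_ng (x : SX) : 1 < dist x (ng x) := by
  obtain ⟨⟨z, w, t⟩, h1, h2⟩ := x
  show 1 < dist ((z, w, t) : EX) (-(z, w, t))
  simp only at h1 h2
  rw [dist_eq_norm, sub_neg_eq_add, ← two_smul ℝ, norm_smul, Prod.norm_def, Prod.norm_def]
  simp only [Real.norm_eq_abs, abs_two]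
  by_contra hcon
  push Not at hcon
  have h3 : ‖z‖ ≤ 1 / 2 := by
    have := le_max_left ‖z‖ (max ‖w‖ |t|)
    linarith
  have h4 : ‖w‖ ≤ 1 / 2 := by
    have := (le_max_left ‖w‖ |t|).trans (le_max_right ‖z‖ (max ‖w‖ |t|))
    linarith
  have h5 : |t| ≤ 1 / 2 := by
    have := (le_max_right ‖w‖ |t|).trans (le_max_right ‖z‖ (max ‖w‖ |t|))
    linarith
  have e3 : ‖z‖ ^ 2 ≤ (1 / 2) ^ 2 := by
    have := norm_nonneg z
    gcongr
  have e4 : ‖w‖ ^ 2 ≤ (1 / 2) ^ 2 := by
    have := norm_nonneg w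
    gcongr
  have e5 : t ^ 2 ≤ (1 / 2) ^ 2 := by
    rw [← sq_abs t]
    gcongr
  linarith

theorem ff_locHomeo : IsLocalHomeomorph ff := by
  rw [isLocalHomeomorph_iff_isOpenEmbedding_restrict]
  intro x
  refine ⟨Metric.ball x (1 / 2), Metric.ball_mem_nhds x (by norm_num), ?_⟩
  apply IsOpenEmbedding.of_continuous_injective_isOpenMap
  · exact ff_cont.comp continuous_subtype_val
  · rintro ⟨y, hy⟩ ⟨y', hy'⟩ h
    have h' : ff y = ff y' := h
    rcases ff_eq h' with e | e
    · exact Subtype.ext e.symm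
    · exfalso
      rw [Metric.mem_ball] at hy hy'
      have h1 := dist_ng y
      rw [← e] at h1
      have h2 := dist_triangle_right y y' x
      linarith
  · exact ff_open.comp (Metric.isOpen_ball.isOpenMap_subtype_val)

/-- Lifting on the plane. -/
theorem lift_plane (h : C(ℝ × ℝ, Circle)) (e₀ : ℝ) (he : Circle.exp e₀ = h (0, 0)) :
    ∃ Φ : C(ℝ × ℝ, ℝ), Φ (0, 0) = e₀ ∧ ∀ v, Circle.exp (Φ v) = h v := by
  obtain ⟨F, ⟨h1, h2⟩, -⟩ := Circle.isCoveringMap_exp.existsUnique_continuousMap_lifts h (0, 0) e₀ he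
  exact ⟨F, h1, fun v => congrFun h2 v⟩

/-- the key properties of a lift of a map of a projective plane -/
theorem lift_props (b : Bool) (g : C(SY, Circle)) (Φ : C(ℝ × ℝ, ℝ))
    (hΦ : ∀ v, Circle.exp (Φ v) = g (ff (prX (v, b)))) :
    (∀ ψ, Φ (0, ψ) = Φ (0, 0)) ∧ (∀ θ ψ, Φ (θ, ψ + 2 * π) = Φ (θ, ψ)) ∧
    (∀ θ ψ, Φ (π - θ, ψ + π) = Φ (θ, ψ)) := by
  have hcomp : ∀ {v w : ℝ × ℝ}, ff (prX (v, b)) = ff (prX (w, b)) → ∃ n : ℤ, Φ v - Φ w = n * (2 * π) := by
    intro v w h
    have h1 := hΦ v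
    rw [h, ← hΦ w, Circle.exp_eq_exp] at h1
    obtain ⟨n, hn⟩ := h1
    exact ⟨n, by linarith⟩
  have p1 : ∀ ψ, Φ (0, ψ) = Φ (0, 0) := by
    intro ψ
    have := const_of_int (S := (univ : Set ℝ)) (F := fun ψ => Φ (0, ψ) - Φ (0, 0)) isPreconnected_univ
      (by fun_prop) (fun ψ _ => hcomp (by
        congr 1
        apply Subtype.ext
        cases b <;> simp [prX, pr])) (mem_univ ψ) (mem_univ 0)
    linarith
  have p2 : ∀ θ ψ, Φ (θ, ψ + 2 * π) = Φ (θ, ψ) := by
    intro θ ψ
    have := const_of_int (S := (univ : Set (ℝ × ℝ))) (F := fun v => Φ (v.1, v.2 + 2 * π) - Φ (v.1, v.2))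
      isPreconnected_univ (by fun_prop) (fun v _ => hcomp (by
        congr 1
        apply Subtype.ext
        have : Complex.exp (((v.2 + 2 * π : ℝ) : ℂ) * Complex.I) = Complex.exp ((v.2 : ℂ) * Complex.I) := by
          rw [Complex.ofReal_add, add_mul]
          push_cast
          exact Complex.exp_periodic _
        cases b <;> simp only [prX, pr] <;> rw [this])) (mem_univ (θ, ψ)) (mem_univ (0, 0))
    simp only at this
    rw [p1, p1] at this
    linarith
  have p3 : ∀ θ ψ, ∀ θ' ψ', Φ (π - θ, ψ + π) - Φ (θ, ψ) = Φ (π - θ', ψ' + π) - Φ (θ', ψ') := by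
    intro θ ψ θ' ψ'
    exact const_of_int (S := (univ : Set (ℝ × ℝ))) (F := fun v => Φ (π - v.1, v.2 + π) - Φ (v.1, v.2))
      isPreconnected_univ (by fun_prop) (fun v _ => hcomp (by
        have : prX ((π - v.1, v.2 + π), b) = ng (prX ((v.1, v.2), b)) := by
          apply Subtype.ext
          have : Complex.exp (((v.2 + π : ℝ) : ℂ) * Complex.I) = - Complex.exp ((v.2 : ℂ) * Complex.I) := by
            rw [Complex.ofReal_add, add_mul, Complex.exp_add, Complex.exp_pi_mul_I]
            ring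
          cases b <;> simp only [prX, pr, ng] <;> rw [this] <;>
            simp [Real.sin_pi_sub, Real.cos_pi_sub]
        rw [this, ff_ng])) (mem_univ (θ, ψ)) (mem_univ (θ', ψ'))
  refine ⟨p1, p2, ?_⟩
  intro θ ψ
  have h1 := p3 θ ψ (π - θ) (ψ + π)
  have h2 : Φ (π - (π - θ), ψ + π + π) = Φ (θ, ψ) := by
    have : ψ + π + π = ψ + 2 * π := by ring
    rw [this, p2]
    congr 2
    ring
  rw [h2] at h1
  linarith

theorem trig_aux {θ θ' ψ ψ' : ℝ} (hθ : θ ∈ Icc 0 π) (hθ' : θ' ∈ Icc 0 π)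
    (h1 : (Real.sin θ * Complex.exp (ψ * Complex.I) : ℂ) = Real.sin θ' * Complex.exp (ψ' * Complex.I))
    (h2 : Real.cos θ = Real.cos θ') :
    θ = θ' ∧ (θ = 0 ∨ θ = π ∨ ∃ n : ℤ, ψ = ψ' + n * (2 * π)) := by
  have e : θ = θ' := Real.injOn_cos hθ hθ' h2
  refine ⟨e, ?_⟩
  subst e
  by_cases h0 : θ = 0
  · exact Or.inl h0
  by_cases hp : θ = π
  · exact Or.inr (Or.inl hp)
  right; right
  have hs : 0 < Real.sin θ := Real.sin_pos_of_pos_of_lt_pi (lt_of_le_of_ne hθ.1 (Ne.symm h0))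
    (lt_of_le_of_ne hθ.2 hp)
  have hsc : (Real.sin θ : ℂ) ≠ 0 := by exact_mod_cast hs.ne'
  have h3 := mul_left_cancel₀ hsc h1
  rw [Complex.exp_eq_exp_iff_exists_int] at h3
  obtain ⟨n, hn⟩ := h3
  refine ⟨n, ?_⟩
  have h4 : ((ψ : ℂ) - (ψ' + n * (2 * π))) * Complex.I = 0 := by
    linear_combination hn
  rcases mul_eq_zero.1 h4 with h5 | h5
  · have h6 : (ψ : ℂ) = ((ψ' + n * (2 * π) : ℝ) : ℂ) := by push_cast; linear_combination h5
    exact_mod_cast h6
  · exact absurd h5 Complex.I_ne_zero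

theorem per_int {Φ : C(ℝ × ℝ, ℝ)} (h : ∀ θ ψ, Φ (θ, ψ + 2 * π) = Φ (θ, ψ)) (θ ψ : ℝ) (n : ℤ) :
    Φ (θ, ψ + n * (2 * π)) = Φ (θ, ψ) := by
  have hp : Function.Periodic (fun ψ => Φ (θ, ψ)) (2 * π) := fun ψ => h θ ψ
  have := hp.int_mul n ψ
  simpa using this

/-- Every map of `SY` to the circle lifts to the line. -/
theorem lift_Y (g : C(SY, Circle)) : ∃ φ : C(SY, ℝ), ∀ y, Circle.exp (φ y) = g y := by
  obtain ⟨e₀, he₀⟩ := Circle.exp_surjective (g (ff (prX ((0, 0), false))))
  have hpole : prX ((0, 0), true) = prX ((0, 0), false) := by rw [pole_aux, pole_aux]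
  have hlift : ∀ b : Bool, ∃ Φ : C(ℝ × ℝ, ℝ), Φ (0, 0) = e₀ ∧
      ∀ v, Circle.exp (Φ v) = g (ff (prX (v, b))) := by
    intro b
    have hc : Continuous (fun v : ℝ × ℝ => g (ff (prX (v, b)))) :=
      g.continuous.comp (ff_cont.comp (prX_cont.comp (by fun_prop)))
    obtain ⟨Φ, h1, h2⟩ := lift_plane ⟨_, hc⟩ e₀ (by
      cases b
      · exact he₀
      · show _ = g (ff (prX ((0, 0), true)))
        rw [hpole]; exact he₀)
    exact ⟨Φ, h1, h2⟩
  choose Φ hΦ0 hΦ using hlift
  have props := fun b => lift_props b g (Φ b) (hΦ b)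
  -- values at poles
  have hzero : ∀ b ψ, Φ b (0, ψ) = e₀ := fun b ψ => by rw [(props b).1, hΦ0]
  have hpi : ∀ b ψ, Φ b (π, ψ) = e₀ := fun b ψ => by
    have := (props b).2.2 0 (ψ - π)
    rw [sub_zero, sub_add_cancel] at this
    rw [this, hzero]
  -- compact parameter space
  let K : Set ((ℝ × ℝ) × Bool) := RR ×ˢ univ
  have hK : IsCompact K := RR_compact.prod isCompact_univ
  have : CompactSpace K := isCompact_iff_compactSpace.1 hK
  let r : C(K, SY) := ⟨fun k => ff (prX k), ff_cont.comp (prX_cont.comp continuous_subtype_val)⟩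
  have hrs : Function.Surjective r := by
    intro y
    obtain ⟨x, rfl⟩ := ff_surj y
    obtain ⟨b, v, hv, h⟩ := exists_pr x.2
    exact ⟨⟨(v, b), hv, mem_univ _⟩, congrArg ff (Subtype.ext h)⟩
  have hrq : IsQuotientMap r := r.continuous.isClosedMap.isQuotientMap r.continuous hrs
  have hΨc : Continuous (fun k : (ℝ × ℝ) × Bool => Φ k.2 k.1) := by
    rw [continuous_prod_of_discrete_right]
    intro b
    exact (Φ b).continuous
  let Ψ : C(K, ℝ) := ⟨fun k => Φ k.1.2 k.1.1, hΨc.comp continuous_subtype_val⟩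
  -- same point up to sign with both parameters in the rectangle
  have same : ∀ b v b' v', v ∈ RR → v' ∈ RR → pr b v = pr b' v' → Φ b v = Φ b' v' := by
    rintro b ⟨θ, ψ⟩ b' ⟨θ', ψ'⟩ ⟨hv1, hv2⟩ ⟨hv1', hv2'⟩ h
    simp only at hv1 hv2 hv1' hv2'
    have hend : ∀ {θ : ℝ}, θ ∈ Icc 0 π → Real.sin θ = 0 → ∀ c ψ, Φ c (θ, ψ) = e₀ := by
      intro θ hθ hs c ψ
      by_cases h0 : θ = 0
      · rw [h0]; exact hzero c ψ
      by_cases hp : θ = π
      · rw [hp]; exact hpi c ψ
      · exfalso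
        have := Real.sin_pos_of_pos_of_lt_pi (lt_of_le_of_ne hθ.1 (Ne.symm h0))
          (lt_of_le_of_ne hθ.2 hp)
        linarith
    have hsin : ∀ {θ ψ : ℝ}, (Real.sin θ * Complex.exp (ψ * Complex.I) : ℂ) = 0 → Real.sin θ = 0 := by
      intro θ ψ h
      rcases mul_eq_zero.1 h with h | h
      · exact_mod_cast h
      · exact absurd h (Complex.exp_ne_zero _)
    have hsame : ∀ c, (Real.sin θ * Complex.exp (ψ * Complex.I) : ℂ) =
        Real.sin θ' * Complex.exp (ψ' * Complex.I) → Real.cos θ = Real.cos θ' →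
        Φ c (θ, ψ) = Φ c (θ', ψ') := by
      intro c h1 h2
      obtain ⟨e, h3⟩ := trig_aux hv1 hv1' h1 h2
      subst e
      rcases h3 with h3 | h3 | ⟨n, h3⟩
      · rw [h3, hzero, hzero]
      · rw [h3, hpi, hpi]
      · rw [h3, per_int (props c).2.1]
    have g1 := congrArg Prod.fst h
    have g2 := congrArg (fun x : EX => x.2.1) h
    have g3 := congrArg (fun x : EX => x.2.2) h
    cases b <;> cases b'
    · exact hsame false g1 g3
    · rw [hend hv1 (hsin g1), hend hv1' (hsin g2.symm)]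
    · rw [hend hv1 (hsin g2), hend hv1' (hsin g1.symm)]
    · exact hsame true g2 g3
  have hfac : Function.FactorsThrough Ψ r := by
    intro k k' h
    obtain ⟨⟨v, b⟩, hk⟩ := k
    obtain ⟨⟨v', b'⟩, hk'⟩ := k'
    have hv : v ∈ RR := hk.1
    have hv' : v' ∈ RR := hk'.1
    show Φ b v = Φ b' v'
    have h' : ff (prX (v, b)) = ff (prX (v', b')) := h
    rcases ff_eq h' with e | e
    · exact (same b' v' b v hv' hv (congrArg Subtype.val e)).symm
    · -- antipodal: replace v by its antipode inside the rectangle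
      obtain ⟨θ, ψ⟩ := v
      obtain ⟨hv1, hv2⟩ := hv
      simp only at hv1 hv2
      -- choose the antipodal parameter
      obtain ⟨ψ₁, hψ₁, hψe⟩ : ∃ ψ₁ ∈ Icc (-π) π, ψ₁ = ψ + π ∨ ψ₁ = ψ - π := by
        have hpos := Real.pi_pos
        rcases le_total ψ 0 with h0 | h0
        · exact ⟨ψ + π, ⟨by linarith [hv2.1], by linarith⟩, Or.inl rfl⟩
        · exact ⟨ψ - π, ⟨by linarith, by linarith [hv2.2]⟩, Or.inr rfl⟩
      have hΦψ : Φ b (π - θ, ψ₁) = Φ b (θ, ψ) := by
        rcases hψe with rfl | rfl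
        · exact (props b).2.2 θ ψ
        · have := (props b).2.2 θ ψ
          rw [← this]
          have h2 := (props b).2.1 (π - θ) (ψ - π)
          rw [← h2]
          congr 2
          ring
      have hpt : pr b (π - θ, ψ₁) = (ng (prX ((θ, ψ), b)) : SX) := by
        have hexp : Complex.exp ((ψ₁ : ℂ) * Complex.I) = - Complex.exp ((ψ : ℂ) * Complex.I) := by
          rcases hψe with rfl | rfl
          · rw [Complex.ofReal_add, add_mul, Complex.exp_add, Complex.exp_pi_mul_I]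
            ring
          · rw [Complex.ofReal_sub, sub_mul, Complex.exp_sub, Complex.exp_pi_mul_I]
            ring
        cases b <;> simp only [prX, pr, ng] <;> rw [hexp] <;>
            simp [Real.sin_pi_sub, Real.cos_pi_sub]
      rw [← hΦψ]
      have hv3 : ((π - θ, ψ₁) : ℝ × ℝ) ∈ RR := ⟨⟨by linarith [hv1.2], by linarith [hv1.1]⟩, hψ₁⟩
      refine (same b' v' b (π - θ, ψ₁) hv' hv3 ?_).symm
      rw [hpt, ← e]
      rfl
  refine ⟨hrq.lift Ψ hfac, ?_⟩
  intro y
  obtain ⟨k, rfl⟩ := hrs y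
  have h1 : hrq.lift Ψ hfac (r k) = Ψ k := congrFun (congrArg DFunLike.coe (hrq.lift_comp Ψ hfac)) k
  rw [h1]
  exact hΦ k.1.2 k.1.1

end Example

/-- The negation of the preceding statement: If X is a locally connected metric continuum that is a union of two subcontinua with disconnected intersection, and f is a local homeomorphism of X onto a metric space Y, then Y is also such a union. -/
theorem result :
    ¬ (∀ (X Y : Type) [MetricSpace X] [CompactSpace X] [ConnectedSpace X]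
      [LocallyConnectedSpace X] [MetricSpace Y] (f : X → Y),
      IsLocalHomeomorph f → Function.Surjective f →
      (∃ A B : Set X, IsClosed A ∧ IsClosed B ∧ IsConnected A ∧ IsConnected B ∧
          A ∪ B = Set.univ ∧ ¬ IsConnected (A ∩ B)) →
      (∃ A B : Set Y, IsClosed A ∧ IsClosed B ∧ IsConnected A ∧ IsConnected B ∧
          A ∪ B = Set.univ ∧ ¬ IsConnected (A ∩ B))) := by
  intro hall
  obtain ⟨A, B, hA, hB, hAc, hBc, hAB, hn⟩ := hall SX SY ff ff_locHomeo ff_surj X_nonunicoherent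
  have : PreconnectedSpace SY := ⟨by
    rw [← ff_surj.range_eq]
    exact isPreconnected_range ff_cont⟩
  exact hn (unicoherent_of_lift lift_Y hA hB hAc hBc hAB)

end Pool.Agent.S08782
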