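import Pool.Statements.S08790
-- import your own Pool.Agent.* helpers here

set_option autoImplicit false
open Pool Pool.MP_a761c9_gt

namespace Pool.Agent.S08790

open MeasureTheory Set

/-- Euclidean space of dimension `n`. -/
abbrev Eu (n : ℕ) := EuclideanSpace ℝ (Fin n)

variable {n : ℕ}

/-- The support function of `K`. -/
noncomputable def supp (K : Set (Eu n)) (v : Eu n) : ℝ :=
  sSup ((fun y : Eu n => @inner ℝ (Eu n) _ y v) '' K)

/-- The (Gaussian normalised) mean width functional. -/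
noncomputable def V (K : Set (Eu n)) : ℝ :=
  ∫ v : Eu n, supp K v * Real.exp (-‖v‖ ^ 2)

/-- The convex hull of `K` and the origin (for convex `K`). -/
def cone0 (K : Set (Eu n)) : Set (Eu n) :=
  {x | ∃ t ∈ Icc (0:ℝ) 1, ∃ y ∈ K, x = t • y}

/-- Central (Minkowski) symmetral of `cone0 K`. -/
def NN (K : Set (Eu n)) : Set (Eu n) :=
  {x | ∃ y ∈ cone0 K, ∃ z ∈ cone0 K, x = (1/2:ℝ) • (y - z)}

/-- The scaling factor. -/
noncomputable def lam (K : Set (Eu n)) : ℝ := V K / V (cone0 K)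

/-- The exotic symmetrization. -/
noncomputable def D (K : Set (Eu n)) : Set (Eu n) :=
  {x | ∃ y ∈ NN K, x = lam K • y}

lemma le_supp {K : Set (Eu n)} (hK : IsCompact K) {y : Eu n} (hy : y ∈ K) (v : Eu n) :
    @inner ℝ (Eu n) _ y v ≤ supp K v := by
  have hc : Continuous (fun y : Eu n => @inner ℝ (Eu n) _ y v) := by fun_prop
  exact le_csSup (hK.image hc).bddAbove ⟨y, hy, rfl⟩

lemma supp_le {K : Set (Eu n)} (hne : K.Nonempty) {v : Eu n} {c : ℝ}
    (h : ∀ y ∈ K, @inner ℝ (Eu n) _ y v ≤ c) : supp K v ≤ c := by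
  apply csSup_le (hne.image _)
  rintro _ ⟨y, hy, rfl⟩
  exact h y hy

lemma supp_attained {K : Set (Eu n)} (hK : IsCompact K) (hne : K.Nonempty) (v : Eu n) :
    ∃ y ∈ K, @inner ℝ (Eu n) _ y v = supp K v := by
  have hc : Continuous (fun y : Eu n => @inner ℝ (Eu n) _ y v) := by fun_prop
  obtain ⟨y, hy, h⟩ := (hK.image hc).sSup_mem (hne.image _)
  exact ⟨y, hy, h⟩

lemma supp_continuous {K : Set (Eu n)} (hK : IsCompact K) : Continuous (supp K) := by
  have : Continuous (fun v : Eu n => sSup ((fun y : Eu n => @inner ℝ (Eu n) _ y v) '' K)) :=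
    IsCompact.continuous_sSup (f := fun (v : Eu n) (y : Eu n) => @inner ℝ (Eu n) _ y v) hK
      (by fun_prop)
  exact this

lemma supp_abs_le {K : Set (Eu n)} (hK : IsCompact K) (hne : K.Nonempty) :
    ∃ R : ℝ, ∀ v : Eu n, |supp K v| ≤ R * ‖v‖ := by
  obtain ⟨R, hR⟩ := hK.isBounded.exists_norm_le
  refine ⟨R, fun v => ?_⟩
  obtain ⟨y, hy, h⟩ := supp_attained hK hne v
  rw [← h]
  calc |@inner ℝ (Eu n) _ y v| ≤ ‖y‖ * ‖v‖ := abs_real_inner_le_norm y v
    _ ≤ R * ‖v‖ := by gcongr; exact hR y hy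

lemma exp_half_integrable : Integrable (fun v : Eu n => Real.exp (-(1/2) * ‖v‖ ^ 2)) := by
  by_contra h
  have h1 := GaussianFourier.integral_rexp_neg_mul_sq_norm (V := Eu n) (b := 1/2) (by norm_num)
  rw [integral_undef h] at h1
  have : (0:ℝ) < (Real.pi / (1/2)) ^ (Module.finrank ℝ (Eu n) / 2 : ℝ) := by positivity
  linarith

lemma gauss_integrable : Integrable (fun v : Eu n => ‖v‖ * Real.exp (-‖v‖ ^ 2)) := by
  refine (exp_half_integrable (n := n)).mono' (by fun_prop) ?_
  refine Filter.Eventually.of_forall fun v => ?_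
  rw [Real.norm_eq_abs, abs_mul, abs_of_pos (Real.exp_pos _), abs_of_nonneg (norm_nonneg v)]
  have h1 : ‖v‖ ≤ Real.exp ((1/2) * ‖v‖ ^ 2) := by
    have h2 := Real.add_one_le_exp ((1/2) * ‖v‖ ^ 2)
    nlinarith [sq_nonneg (‖v‖ - 1)]
  calc ‖v‖ * Real.exp (-‖v‖ ^ 2) ≤ Real.exp ((1/2) * ‖v‖ ^ 2) * Real.exp (-‖v‖ ^ 2) := by
        gcongr
    _ = Real.exp (-(1/2) * ‖v‖ ^ 2) := by
        rw [← Real.exp_add]; ring_nf

lemma supp_integrable {K : Set (Eu n)} (hK : IsCompact K) (hne : K.Nonempty) :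
    Integrable (fun v : Eu n => supp K v * Real.exp (-‖v‖ ^ 2)) := by
  obtain ⟨R, hR⟩ := supp_abs_le hK hne
  have h1 : Integrable (fun v : Eu n => R * (‖v‖ * Real.exp (-‖v‖ ^ 2))) :=
    gauss_integrable.const_mul R
  refine h1.mono' ?_ ?_
  · apply Continuous.aestronglyMeasurable
    have := supp_continuous hK
    fun_prop
  · refine Filter.Eventually.of_forall fun v => ?_
    rw [Real.norm_eq_abs, abs_mul, abs_of_pos (Real.exp_pos _), ← mul_assoc]
    exact mul_le_mul_of_nonneg_right (hR v) (Real.exp_pos _).le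

lemma V_eq_neg (K : Set (Eu n)) :
    V K = ∫ v : Eu n, supp K (-v) * Real.exp (-‖v‖ ^ 2) := by
  have h := integral_neg_eq_self (fun v : Eu n => supp K v * Real.exp (-‖v‖ ^ 2)) volume
  simp only [norm_neg] at h
  exact h.symm

lemma supp_neg_integrable {K : Set (Eu n)} (hK : IsCompact K) (hne : K.Nonempty) :
    Integrable (fun v : Eu n => supp K (-v) * Real.exp (-‖v‖ ^ 2)) := by
  have h := (supp_integrable hK hne).comp_neg
  simpa only [norm_neg] using h

lemma two_V {K : Set (Eu n)} (hK : IsCompact K) (hne : K.Nonempty) :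
    2 * V K = ∫ v : Eu n, (supp K v + supp K (-v)) * Real.exp (-‖v‖ ^ 2) := by
  have h1 : ∫ v : Eu n, (supp K v + supp K (-v)) * Real.exp (-‖v‖ ^ 2) =
      (∫ v : Eu n, supp K v * Real.exp (-‖v‖ ^ 2)) +
        ∫ v : Eu n, supp K (-v) * Real.exp (-‖v‖ ^ 2) := by
    rw [← integral_add (supp_integrable hK hne) (supp_neg_integrable hK hne)]
    congr 1
    ext v
    ring
  rw [h1, ← V_eq_neg, two_mul]
  rfl

lemma supp_add_neg_nonneg {K : Set (Eu n)} (hK : IsCompact K) (hne : K.Nonempty) (v : Eu n) :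
    0 ≤ supp K v + supp K (-v) := by
  obtain ⟨y, hy⟩ := hne
  have h1 := le_supp hK hy v
  have h2 := le_supp hK hy (-v)
  rw [inner_neg_right] at h2
  linarith

lemma V_nonneg {K : Set (Eu n)} (hK : IsCompact K) (hne : K.Nonempty) : 0 ≤ V K := by
  have h := two_V hK hne
  have h2 : 0 ≤ ∫ v : Eu n, (supp K v + supp K (-v)) * Real.exp (-‖v‖ ^ 2) :=
    integral_nonneg fun v => mul_nonneg (supp_add_neg_nonneg hK hne v) (Real.exp_pos _).le
  linarith

lemma integral_pos_aux {f : Eu n → ℝ} (hf : Continuous f) (hf0 : ∀ v, 0 ≤ f v)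
    (hi : Integrable f) {v : Eu n} (hv : 0 < f v) : 0 < ∫ v, f v := by
  rw [integral_pos_iff_support_of_nonneg hf0 hi]
  apply IsOpen.measure_pos
  · exact hf.isOpen_support
  · exact ⟨v, hv.ne'⟩

lemma V_pos {K : Set (Eu n)} (hK : IsCompact K) {y z : Eu n} (hy : y ∈ K) (hz : z ∈ K)
    (hyz : y ≠ z) : 0 < V K := by
  have hne : K.Nonempty := ⟨y, hy⟩
  have h := two_V hK hne
  have hc := supp_continuous hK
  have h2 : 0 < ∫ v : Eu n, (supp K v + supp K (-v)) * Real.exp (-‖v‖ ^ 2) := by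
    refine integral_pos_aux (v := y - z) (by fun_prop) ?_ ?_ ?_
    · exact fun v => mul_nonneg (supp_add_neg_nonneg hK hne v) (Real.exp_pos _).le
    · have := (supp_integrable hK hne).add (supp_neg_integrable hK hne)
      refine this.congr (Filter.Eventually.of_forall fun v => ?_)
      simp only [Pi.add_apply]
      ring
    · apply mul_pos _ (Real.exp_pos _)
      have h3 := le_supp hK hy (y - z)
      have h4 := le_supp hK hz (-(y - z))
      have h5 : 0 < @inner ℝ (Eu n) _ (y - z) (y - z) := by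
        rw [real_inner_self_eq_norm_sq]
        have : 0 < ‖y - z‖ := norm_pos_iff.2 (sub_ne_zero.2 hyz)
        positivity
      rw [inner_sub_left] at h5
      rw [inner_neg_right] at h4
      linarith
  linarith

/-! ### cone0 -/

lemma subset_cone0 (K : Set (Eu n)) : K ⊆ cone0 K := fun y hy =>
  ⟨1, ⟨zero_le_one, le_rfl⟩, y, hy, (one_smul ℝ y).symm⟩

lemma zero_mem_cone0 {K : Set (Eu n)} (hne : K.Nonempty) : (0 : Eu n) ∈ cone0 K := by
  obtain ⟨y, hy⟩ := hne
  exact ⟨0, ⟨le_rfl, zero_le_one⟩, y, hy, (zero_smul ℝ y).symm⟩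

lemma cone0_mono {K L : Set (Eu n)} (h : K ⊆ L) : cone0 K ⊆ cone0 L := by
  rintro x ⟨t, ht, y, hy, rfl⟩
  exact ⟨t, ht, y, h hy, rfl⟩

lemma cone0_compact {K : Set (Eu n)} (hK : IsCompact K) : IsCompact (cone0 K) := by
  have h1 : IsCompact ((fun p : ℝ × Eu n => p.1 • p.2) '' (Icc (0:ℝ) 1 ×ˢ K)) :=
    (isCompact_Icc.prod hK).image (by fun_prop)
  convert h1 using 1
  ext x
  constructor
  · rintro ⟨t, ht, y, hy, rfl⟩
    exact ⟨(t, y), ⟨ht, hy⟩, rfl⟩
  · rintro ⟨⟨t, y⟩, ⟨ht, hy⟩, rfl⟩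
    exact ⟨t, ht, y, hy, rfl⟩

lemma cone0_convex {K : Set (Eu n)} (hK : Convex ℝ K) : Convex ℝ (cone0 K) := by
  rintro _ ⟨t, ⟨ht0, ht1⟩, y, hy, rfl⟩ _ ⟨s, ⟨hs0, hs1⟩, z, hz, rfl⟩ a b ha hb hab
  have hr0 : 0 ≤ a * t + b * s := by positivity
  have hr1 : a * t + b * s ≤ 1 := by nlinarith
  rcases hr0.eq_or_lt with h | h
  · have h1 : a * t = 0 := by nlinarith [mul_nonneg ha ht0, mul_nonneg hb hs0]
    have h2 : b * s = 0 := by nlinarith [mul_nonneg ha ht0, mul_nonneg hb hs0]
    refine ⟨0, ⟨le_rfl, zero_le_one⟩, y, hy, ?_⟩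
    rw [smul_smul, smul_smul, h1, h2]
    simp
  · refine ⟨a * t + b * s, ⟨hr0, hr1⟩,
      (a * t / (a * t + b * s)) • y + (b * s / (a * t + b * s)) • z, ?_, ?_⟩
    · exact hK hy hz (by positivity) (by positivity) (by field_simp)
    · rw [smul_add, smul_smul, smul_smul, smul_smul, smul_smul, mul_div_cancel₀ _ h.ne',
        mul_div_cancel₀ _ h.ne']

lemma supp_cone0 {K : Set (Eu n)} (hK : IsCompact K) (hne : K.Nonempty) (v : Eu n) :
    supp (cone0 K) v = max (supp K v) 0 := by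
  apply le_antisymm
  · apply supp_le ⟨0, zero_mem_cone0 hne⟩
    rintro _ ⟨t, ⟨ht0, ht1⟩, y, hy, rfl⟩
    rw [real_inner_smul_left]
    have h1 := le_supp hK hy v
    calc t * @inner ℝ (Eu n) _ y v ≤ t * max (supp K v) 0 := by
          gcongr
          exact h1.trans (le_max_left _ _)
      _ ≤ 1 * max (supp K v) 0 := by
          gcongr
      _ = _ := one_mul _
  · apply max_le
    · apply supp_le hne
      intro y hy
      exact le_supp (cone0_compact hK) (subset_cone0 K hy) v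
    · have := le_supp (cone0_compact hK) (zero_mem_cone0 hne) v
      simpa using this

/-! ### NN -/

lemma NN_compact {K : Set (Eu n)} (hK : IsCompact K) : IsCompact (NN K) := by
  have h1 : IsCompact ((fun p : Eu n × Eu n => (1/2:ℝ) • (p.1 - p.2)) '' (cone0 K ×ˢ cone0 K)) :=
    ((cone0_compact hK).prod (cone0_compact hK)).image (by fun_prop)
  convert h1 using 1
  ext x
  constructor
  · rintro ⟨y, hy, z, hz, rfl⟩
    exact ⟨(y, z), ⟨hy, hz⟩, rfl⟩
  · rintro ⟨⟨y, z⟩, ⟨hy, hz⟩, rfl⟩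
    exact ⟨y, hy, z, hz, rfl⟩

lemma NN_convex {K : Set (Eu n)} (hK : Convex ℝ K) : Convex ℝ (NN K) := by
  rintro _ ⟨y, hy, z, hz, rfl⟩ _ ⟨y', hy', z', hz', rfl⟩ a b ha hb hab
  refine ⟨a • y + b • y', cone0_convex hK hy hy' ha hb hab, a • z + b • z',
    cone0_convex hK hz hz' ha hb hab, ?_⟩
  module

lemma zero_mem_NN {K : Set (Eu n)} (hne : K.Nonempty) : (0 : Eu n) ∈ NN K :=
  ⟨0, zero_mem_cone0 hne, 0, zero_mem_cone0 hne, by simp⟩

lemma NN_neg {K : Set (Eu n)} {x : Eu n} (hx : x ∈ NN K) : -x ∈ NN K := by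
  obtain ⟨y, hy, z, hz, rfl⟩ := hx
  exact ⟨z, hz, y, hy, by module⟩

lemma NN_mono {K L : Set (Eu n)} (h : K ⊆ L) : NN K ⊆ NN L := by
  rintro x ⟨y, hy, z, hz, rfl⟩
  exact ⟨y, cone0_mono h hy, z, cone0_mono h hz, rfl⟩

lemma supp_NN {K : Set (Eu n)} (hK : IsCompact K) (hne : K.Nonempty) (v : Eu n) :
    supp (NN K) v = (1/2) * (supp (cone0 K) v + supp (cone0 K) (-v)) := by
  have hC := cone0_compact hK
  have hCne : (cone0 K).Nonempty := ⟨0, zero_mem_cone0 hne⟩
  apply le_antisymm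
  · apply supp_le ⟨0, zero_mem_NN hne⟩
    rintro _ ⟨y, hy, z, hz, rfl⟩
    rw [real_inner_smul_left, inner_sub_left]
    have h1 := le_supp hC hy v
    have h2 := le_supp hC hz (-v)
    rw [inner_neg_right] at h2
    linarith
  · obtain ⟨y, hy, h1⟩ := supp_attained hC hCne v
    obtain ⟨z, hz, h2⟩ := supp_attained hC hCne (-v)
    have h3 := le_supp (NN_compact hK) (y := (1/2:ℝ) • (y - z)) ⟨y, hy, z, hz, rfl⟩ v
    rw [real_inner_smul_left, inner_sub_left] at h3
    rw [inner_neg_right] at h2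
    rw [← h1, ← h2]
    linarith

lemma V_NN {K : Set (Eu n)} (hK : IsCompact K) (hne : K.Nonempty) :
    V (NN K) = V (cone0 K) := by
  have hC := cone0_compact hK
  have hCne : (cone0 K).Nonempty := ⟨0, zero_mem_cone0 hne⟩
  have h := two_V hC hCne
  have h1 : V (NN K) = ∫ v : Eu n, (1/2) *
      ((supp (cone0 K) v + supp (cone0 K) (-v)) * Real.exp (-‖v‖ ^ 2)) := by
    unfold V
    congr 1
    ext v
    rw [supp_NN hK hne]
    ring
  rw [h1, integral_const_mul, ← h]
  ring

lemma lam_nonneg {K : Set (Eu n)} (hK : IsCompact K) (hne : K.Nonempty) : 0 ≤ lam K :=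
  div_nonneg (V_nonneg hK hne) (V_nonneg (cone0_compact hK) ⟨0, zero_mem_cone0 hne⟩)

/-- The defect `V (cone0 K) - V K` is antitone. -/
lemma defect_anti {K L : Set (Eu n)} (hK : IsCompact K) (hKne : K.Nonempty)
    (hL : IsCompact L) (h : K ⊆ L) :
    V (cone0 L) - V L ≤ V (cone0 K) - V K := by
  have hLne : L.Nonempty := hKne.mono h
  have hCK := supp_integrable (cone0_compact hK) ⟨0, zero_mem_cone0 hKne⟩
  have hCL := supp_integrable (cone0_compact hL) ⟨0, zero_mem_cone0 hLne⟩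
  unfold V
  rw [← integral_sub hCL (supp_integrable hL hLne), ← integral_sub hCK (supp_integrable hK hKne)]
  apply integral_mono (hCL.sub (supp_integrable hL hLne)) (hCK.sub (supp_integrable hK hKne))
  intro v
  simp only [Pi.sub_apply]
  rw [← sub_mul, ← sub_mul, supp_cone0 hK hKne, supp_cone0 hL hLne]
  apply mul_le_mul_of_nonneg_right _ (Real.exp_pos _).le
  have h1 : supp K v ≤ supp L v := supp_le hKne fun y hy => le_supp hL (h hy) v
  rcases le_total (supp K v) 0 with h2 | h2 <;> rcases le_total (supp L v) 0 with h3 | h3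
  · rw [max_eq_right h2, max_eq_right h3]; linarith
  · rw [max_eq_right h2, max_eq_left h3]; linarith
  · rw [max_eq_left h2, max_eq_right h3]; linarith
  · rw [max_eq_left h2, max_eq_left h3]; linarith

lemma V_mono {K L : Set (Eu n)} (hK : IsCompact K) (hKne : K.Nonempty)
    (hL : IsCompact L) (h : K ⊆ L) : V K ≤ V L := by
  have hLne : L.Nonempty := hKne.mono h
  unfold V
  apply integral_mono (supp_integrable hK hKne) (supp_integrable hL hLne)
  intro v
  simp only
  apply mul_le_mul_of_nonneg_right _ (Real.exp_pos _).le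
  exact supp_le hKne fun y hy => le_supp hL (h hy) v

lemma defect_nonneg {K : Set (Eu n)} (hK : IsCompact K) (hne : K.Nonempty) :
    V K ≤ V (cone0 K) := V_mono hK hne (cone0_compact hK) (subset_cone0 K)

lemma lam_mono {K L : Set (Eu n)} (hK : IsCompact K) (hKne : K.Nonempty)
    (hL : IsCompact L) (h : K ⊆ L) : lam K ≤ lam L := by
  have hLne : L.Nonempty := hKne.mono h
  have h1 := defect_anti hK hKne hL h
  have h2 : V (cone0 K) ≤ V (cone0 L) :=
    V_mono (cone0_compact hK) ⟨0, zero_mem_cone0 hKne⟩ (cone0_compact hL) (cone0_mono h)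
  have h3 : 0 ≤ V (cone0 K) := V_nonneg (cone0_compact hK) ⟨0, zero_mem_cone0 hKne⟩
  rcases h3.eq_or_lt with h4 | h4
  · have : lam K = 0 := by unfold lam; rw [← h4]; simp
    rw [this]
    exact lam_nonneg hL hLne
  · unfold lam
    rw [div_le_div_iff₀ h4 (h4.trans_le h2)]
    have h5 := defect_nonneg hL hLne
    have h6 := defect_nonneg hK hKne
    nlinarith

lemma lam_eq_one {K : Set (Eu n)} (h0 : cone0 K = K) (hV : V K ≠ 0) : lam K = 1 := by
  unfold lam
  rw [h0, div_self hV]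

/-! ### D -/

lemma D_compact {K : Set (Eu n)} (hK : IsCompact K) : IsCompact (D K) := by
  have h1 : IsCompact ((fun y : Eu n => lam K • y) '' NN K) :=
    (NN_compact hK).image (by fun_prop)
  convert h1 using 1
  ext x
  constructor
  · rintro ⟨y, hy, rfl⟩
    exact ⟨y, hy, rfl⟩
  · rintro ⟨y, hy, rfl⟩
    exact ⟨y, hy, rfl⟩

lemma D_convex {K : Set (Eu n)} (hK : Convex ℝ K) : Convex ℝ (D K) := by
  rintro _ ⟨y, hy, rfl⟩ _ ⟨z, hz, rfl⟩ a b ha hb hab
  exact ⟨a • y + b • z, NN_convex hK hy hz ha hb hab, by module⟩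

lemma D_nonempty {K : Set (Eu n)} (hne : K.Nonempty) : (D K).Nonempty :=
  ⟨0, 0, zero_mem_NN hne, by simp⟩

lemma D_neg {K : Set (Eu n)} {x : Eu n} (hx : x ∈ D K) : -x ∈ D K := by
  obtain ⟨y, hy, rfl⟩ := hx
  exact ⟨-y, NN_neg hy, by module⟩

lemma D_mono {K L : Set (Eu n)} (hK : IsCompact K) (hKne : K.Nonempty)
    (hL : IsCompact L) (hLc : Convex ℝ L) (h : K ⊆ L) : D K ⊆ D L := by
  rintro _ ⟨y, hy, rfl⟩
  have hLne : L.Nonempty := hKne.mono h
  have h1 := lam_mono hK hKne hL h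
  have h2 := lam_nonneg hK hKne
  rcases (h2.trans h1).eq_or_lt with h3 | h3
  · have h4 : lam K = 0 := le_antisymm (by rw [h3]; exact h1) h2
    exact ⟨0, zero_mem_NN hLne, by rw [h4]; simp⟩
  · refine ⟨(lam K / lam L) • y, ?_, ?_⟩
    · have h5 := NN_convex hLc (zero_mem_NN hLne) (NN_mono h hy)
        (a := 1 - lam K / lam L) (b := lam K / lam L)
        (by rw [sub_nonneg]; exact div_le_one_of_le₀ h1 h3.le) (by positivity) (by ring)
      simpa using h5
    · rw [smul_smul, mul_div_cancel₀ _ h3.ne']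

lemma supp_D {K : Set (Eu n)} (hK : IsCompact K) (hne : K.Nonempty) (v : Eu n) :
    supp (D K) v = lam K * supp (NN K) v := by
  have h0 := lam_nonneg hK hne
  have hN := NN_compact hK
  apply le_antisymm
  · apply supp_le (D_nonempty hne)
    rintro _ ⟨y, hy, rfl⟩
    rw [real_inner_smul_left]
    exact mul_le_mul_of_nonneg_left (le_supp hN hy v) h0
  · obtain ⟨y, hy, h1⟩ := supp_attained hN ⟨0, zero_mem_NN hne⟩ v
    have h3 := le_supp (D_compact hK) (y := lam K • y) ⟨y, hy, rfl⟩ v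
    rw [real_inner_smul_left] at h3
    rw [← h1]
    exact h3

lemma V_D {K : Set (Eu n)} (hK : IsCompact K) (hne : K.Nonempty) : V (D K) = V K := by
  have h1 : V (D K) = lam K * V (NN K) := by
    unfold V
    rw [← integral_const_mul]
    congr 1
    ext v
    rw [supp_D hK hne]
    ring
  rw [h1, V_NN hK hne]
  unfold lam
  have h3 : 0 ≤ V (cone0 K) := V_nonneg (cone0_compact hK) ⟨0, zero_mem_cone0 hne⟩
  rcases h3.eq_or_lt with h4 | h4
  · have h5 := defect_nonneg hK hne
    have h6 := V_nonneg hK hne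
    rw [← h4] at h5 ⊢
    linarith
  · exact div_mul_cancel₀ _ h4.ne'

lemma cone0_eq_of_symm {K : Set (Eu n)} (hc : Convex ℝ K) (hne : K.Nonempty)
    (hs : ∀ x ∈ K, -x ∈ K) : cone0 K = K := by
  have h0 : (0 : Eu n) ∈ K := by
    obtain ⟨y, hy⟩ := hne
    have := hc hy (hs y hy) (a := 1/2) (b := 1/2) (by norm_num) (by norm_num) (by norm_num)
    simpa using this
  apply Subset.antisymm _ (subset_cone0 K)
  rintro _ ⟨t, ⟨ht0, ht1⟩, y, hy, rfl⟩
  have := hc h0 hy (a := 1 - t) (b := t) (by linarith) ht0 (by ring)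
  simpa using this

lemma NN_eq_of_symm {K : Set (Eu n)} (hc : Convex ℝ K) (hne : K.Nonempty)
    (hs : ∀ x ∈ K, -x ∈ K) : NN K = K := by
  have h0 := cone0_eq_of_symm hc hne hs
  apply Subset.antisymm
  · rintro _ ⟨y, hy, z, hz, rfl⟩
    rw [h0] at hy hz
    have := hc hy (hs z hz) (a := 1/2) (b := 1/2) (by norm_num) (by norm_num) (by norm_num)
    convert this using 1
    module
  · intro x hx
    refine ⟨x, subset_cone0 K hx, -x, subset_cone0 K (hs x hx), ?_⟩
    module

lemma D_eq_of_symm {K : Set (Eu n)} (hK : IsCompact K) (hc : Convex ℝ K) (hne : K.Nonempty)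
    (hs : ∀ x ∈ K, -x ∈ K) : D K = K := by
  have h0 := cone0_eq_of_symm hc hne hs
  have hN := NN_eq_of_symm hc hne hs
  by_cases hV : V K = 0
  · have hsing : ∀ y ∈ K, y = 0 := by
      intro y hy
      by_contra hy0
      have h00 : (0 : Eu n) ∈ K := by
        rw [← h0]
        exact zero_mem_cone0 hne
      exact (V_pos hK hy h00 hy0).ne' hV
    have h00 : (0 : Eu n) ∈ K := by
      rw [← h0]
      exact zero_mem_cone0 hne
    ext x
    constructor
    · rintro ⟨y, hy, rfl⟩
      rw [hN] at hy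
      rw [hsing y hy]
      simpa using h00
    · intro hx
      rw [hsing x hx]
      exact ⟨0, zero_mem_NN hne, by simp⟩
  · have h1 := lam_eq_one h0 hV
    ext x
    constructor
    · rintro ⟨y, hy, rfl⟩
      rw [hN] at hy
      rwa [h1, one_smul]
    · intro hx
      refine ⟨x, ?_, ?_⟩
      · rwa [hN]
      · rw [h1, one_smul]

lemma V_pos_of_interior (hn : 1 ≤ n) {K : Set (Eu n)} (hK : IsCompact K)
    (hi : (interior K).Nonempty) : 0 < V K := by
  have : Nonempty (Fin n) := ⟨⟨0, hn⟩⟩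
  obtain ⟨y, hy⟩ := hi
  obtain ⟨z, hz, hzy⟩ := (infinite_of_mem_nhds y (isOpen_interior.mem_nhds hy)).exists_notMem_finite
    (finite_singleton y)
  exact V_pos hK (interior_subset hy) (interior_subset hz) (fun h => hzy h.symm)

lemma lam_pos {K : Set (Eu n)} (hK : IsCompact K) (hne : K.Nonempty) (hV : 0 < V K) :
    0 < lam K :=
  div_pos hV (hV.trans_le (defect_nonneg hK hne))

lemma D_interior (hn : 1 ≤ n) {K : Set (Eu n)} (hK : IsCompact K)
    (hi : (interior K).Nonempty) : (interior (D K)).Nonempty := by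
  have hne : K.Nonempty := hi.mono interior_subset
  have hl := lam_pos hK hne (V_pos_of_interior hn hK hi)
  obtain ⟨z, hz⟩ := hne
  have hc : lam K * (1/2) ≠ 0 := by positivity
  have hop : IsOpenMap (fun y : Eu n => (lam K * (1/2)) • (y - z)) :=
    (isOpenMap_smul₀ hc).comp (Homeomorph.subRight z).isOpenMap
  have h1 := hop _ (isOpen_interior (s := K))
  have h2 : (fun y : Eu n => (lam K * (1/2)) • (y - z)) '' interior K ⊆ D K := by
    rintro _ ⟨y, hy, rfl⟩
    refine ⟨(1/2:ℝ) • (y - z), ⟨y, subset_cone0 K (interior_subset hy), z, subset_cone0 K hz, rfl⟩,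
      ?_⟩
    simp only [smul_smul]
  exact (hi.image _).mono (interior_maximal h2 h1)

/-- For every `n ≥ 2`, with `H = {0}` and for both classes of sets, the conclusion of the
problem fails for the unit ball and a translation of length two. -/
theorem general (n : ℕ) (hn : 2 ≤ n) (b : Bool) :
  ∃ (D : Set (EuclideanSpace ℝ (Fin n)) → Set (EuclideanSpace ℝ (Fin n))),
  (∀ K : Set (EuclideanSpace ℝ (Fin n)),
      (IsCompact K ∧ Convex ℝ K ∧ K.Nonempty ∧ (b = true → (interior K).Nonempty)) →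
      ((IsCompact (D K) ∧ Convex ℝ (D K) ∧ (D K).Nonempty ∧
          (b = true → (interior (D K)).Nonempty)) ∧
        (∀ x ∈ D K, -x ∈ D K))) ∧
  (∀ K L : Set (EuclideanSpace ℝ (Fin n)),
      (IsCompact K ∧ Convex ℝ K ∧ K.Nonempty ∧ (b = true → (interior K).Nonempty)) →
      (IsCompact L ∧ Convex ℝ L ∧ L.Nonempty ∧ (b = true → (interior L).Nonempty)) →
      K ⊆ L → D K ⊆ D L) ∧
  (∀ K : Set (EuclideanSpace ℝ (Fin n)),
      (IsCompact K ∧ Convex ℝ K ∧ K.Nonempty ∧ (b = true → (interior K).Nonempty)) →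
      (∫ v : EuclideanSpace ℝ (Fin n),
          sSup ((fun y : EuclideanSpace ℝ (Fin n) =>
              @inner ℝ (EuclideanSpace ℝ (Fin n)) _ y v) '' D K) * Real.exp (-‖v‖ ^ 2)) =
        ∫ v : EuclideanSpace ℝ (Fin n),
          sSup ((fun y : EuclideanSpace ℝ (Fin n) =>
              @inner ℝ (EuclideanSpace ℝ (Fin n)) _ y v) '' K) * Real.exp (-‖v‖ ^ 2)) ∧
  (∀ K : Set (EuclideanSpace ℝ (Fin n)),
      (IsCompact K ∧ Convex ℝ K ∧ K.Nonempty ∧ (b = true → (interior K).Nonempty)) →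
      (∀ x ∈ K, -x ∈ K) →
      D K = K) ∧
  ∃ x : EuclideanSpace ℝ (Fin n),
    D ((fun y : EuclideanSpace ℝ (Fin n) => y + x) '' Metric.closedBall 0 1) ≠
      Metric.closedBall 0 1 := by
  have : Nonempty (Fin n) := ⟨⟨0, by omega⟩⟩
  refine ⟨D, ?_, ?_, ?_, ?_, ?_⟩
  · rintro K ⟨hK, hc, hne, hi⟩
    exact ⟨⟨D_compact hK, D_convex hc, D_nonempty hne, fun hb => D_interior (by omega) hK (hi hb)⟩,
      fun x hx => D_neg hx⟩
  · rintro K L ⟨hK, hc, hne, hi⟩ ⟨hL, hcL, hneL, hiL⟩ h
    exact D_mono hK hne hL hcL h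
  · rintro K ⟨hK, hc, hne, hi⟩
    exact V_D hK hne
  · rintro K ⟨hK, hc, hne, hi⟩ hs
    exact D_eq_of_symm hK hc hne hs
  · set e0 : Eu n := EuclideanSpace.single ⟨0, by omega⟩ 1 with he0
    set e1 : Eu n := EuclideanSpace.single ⟨1, by omega⟩ 1 with he1
    have hn0 : ‖e0‖ = 1 := by simp [he0]
    have hn1 : ‖e1‖ = 1 := by simp [he1]
    have h01 : @inner ℝ (Eu n) _ e0 e1 = 0 := by
      simp [he0, he1, EuclideanSpace.inner_single_left]
    refine ⟨(2:ℝ) • e0, fun hcontra => ?_⟩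
    set B : Set (Eu n) := Metric.closedBall 0 1 with hB
    set K : Set (Eu n) := (fun y : Eu n => y + (2:ℝ) • e0) '' B with hKdef
    have hBc : IsCompact B := isCompact_closedBall 0 1
    have hK : IsCompact K := hBc.image (by fun_prop)
    have hBne : B.Nonempty := ⟨0, by simp [hB]⟩
    have hKne : K.Nonempty := hBne.image _
    -- support values
    have hle : ∀ v : Eu n, supp K v ≤ ‖v‖ + 2 * @inner ℝ (Eu n) _ e0 v := by
      intro v
      apply supp_le hKne
      rintro _ ⟨y, hy, rfl⟩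
      rw [inner_add_left, real_inner_smul_left]
      have h1 : @inner ℝ (Eu n) _ y v ≤ ‖y‖ * ‖v‖ := real_inner_le_norm y v
      have h2 : ‖y‖ ≤ 1 := by simpa [hB] using hy
      nlinarith [norm_nonneg v]
    have hs1 : supp K e1 ≤ 1 := by
      have := hle e1
      rw [h01, hn1] at this
      linarith
    have hs1' : supp K (-e1) ≤ 1 := by
      have := hle (-e1)
      rw [inner_neg_right, h01, norm_neg, hn1] at this
      linarith
    have hs0 : supp K (-e0) ≤ -1 := by
      have := hle (-e0)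
      rw [inner_neg_right, norm_neg, hn0, real_inner_self_eq_norm_sq, hn0] at this
      linarith
    -- strict defect
    have hVpos : 0 < V K := by
      have hi : (interior K).Nonempty := by
        have hop : IsOpenMap (fun y : Eu n => y + (2:ℝ) • e0) :=
          (Homeomorph.addRight ((2:ℝ) • e0)).isOpenMap
        have h1 := hop _ (isOpen_interior (s := B))
        have h2 : (fun y : Eu n => y + (2:ℝ) • e0) '' interior B ⊆ K :=
          image_mono interior_subset
        have h3 : (interior B).Nonempty := by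
          refine ⟨0, ?_⟩
          rw [hB, interior_closedBall _ one_ne_zero]
          simp
        exact (h3.image _).mono (interior_maximal h2 h1)
      exact V_pos_of_interior (by omega) hK hi
    have hCne : (cone0 K).Nonempty := ⟨0, zero_mem_cone0 hKne⟩
    have hCc := cone0_compact hK
    have hdef : V K < V (cone0 K) := by
      have hi1 := supp_integrable hK hKne
      have hi2 := supp_integrable hCc hCne
      have h1 : 0 < ∫ v : Eu n, (supp (cone0 K) v - supp K v) * Real.exp (-‖v‖ ^ 2) := by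
        have hcc := supp_continuous hK
        have hcc' := supp_continuous hCc
        refine integral_pos_aux (v := -e0) (by fun_prop) ?_ ?_ ?_
        · intro v
          apply mul_nonneg _ (Real.exp_pos _).le
          rw [supp_cone0 hK hKne, sub_nonneg]
          exact le_max_left _ _
        · refine (hi2.sub hi1).congr (Filter.Eventually.of_forall fun v => ?_)
          simp only [Pi.sub_apply]
          ring
        · apply mul_pos _ (Real.exp_pos _)
          rw [supp_cone0 hK hKne]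
          have := le_max_right (supp K (-e0)) 0
          linarith
      have h2 : ∫ v : Eu n, (supp (cone0 K) v - supp K v) * Real.exp (-‖v‖ ^ 2) =
          V (cone0 K) - V K := by
        unfold V
        rw [← integral_sub hi2 hi1]
        congr 1
        ext v
        ring
      linarith
    have hlam : lam K < 1 := by
      unfold lam
      rw [div_lt_one (hVpos.trans hdef)]
      exact hdef
    have hlam0 := lam_nonneg hK hKne
    have hsD : supp (D K) e1 ≤ lam K := by
      rw [supp_D hK hKne, supp_NN hK hKne, supp_cone0 hK hKne, supp_cone0 hK hKne]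
      have h1 : max (supp K e1) 0 ≤ 1 := max_le hs1 zero_le_one
      have h2 : max (supp K (-e1)) 0 ≤ 1 := max_le hs1' zero_le_one
      nlinarith
    rw [hcontra] at hsD
    have h3 : @inner ℝ (Eu n) _ e1 e1 ≤ supp B e1 :=
      le_supp hBc (by rw [hB, mem_closedBall_zero_iff, hn1]) e1
    rw [real_inner_self_eq_norm_sq, hn1] at h3
    linarith

/-- The negation of the preceding statement: Let D map convex bodies (or compact convex sets) in R^n to H-symmetric ones. Suppose D is monotone, preserves mean width and fixes H-symmetric sets. Then D sends every translate K+x of an H-symmetric K, with x orthogonal to H, back to K. -/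
theorem result :
    ¬ (∀ (n i : ℕ), i < n →
  ∀ (H : Submodule ℝ (EuclideanSpace ℝ (Fin n))), Module.finrank ℝ H = i →
  ∀ (b : Bool) (D : Set (EuclideanSpace ℝ (Fin n)) → Set (EuclideanSpace ℝ (Fin n))),
  (∀ K : Set (EuclideanSpace ℝ (Fin n)),
      (IsCompact K ∧ Convex ℝ K ∧ K.Nonempty ∧ (b = true → (interior K).Nonempty)) →
      ((IsCompact (D K) ∧ Convex ℝ (D K) ∧ (D K).Nonempty ∧
          (b = true → (interior (D K)).Nonempty)) ∧
        (∀ x ∈ D K, ∀ y ∈ H, ∀ z ∈ Hᗮ, x = y + z → y - z ∈ D K))) →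
  (∀ K L : Set (EuclideanSpace ℝ (Fin n)),
      (IsCompact K ∧ Convex ℝ K ∧ K.Nonempty ∧ (b = true → (interior K).Nonempty)) →
      (IsCompact L ∧ Convex ℝ L ∧ L.Nonempty ∧ (b = true → (interior L).Nonempty)) →
      K ⊆ L → D K ⊆ D L) →
  (∀ K : Set (EuclideanSpace ℝ (Fin n)),
      (IsCompact K ∧ Convex ℝ K ∧ K.Nonempty ∧ (b = true → (interior K).Nonempty)) →
      (∫ v : EuclideanSpace ℝ (Fin n),
          sSup ((fun y : EuclideanSpace ℝ (Fin n) =>
              @inner ℝ (EuclideanSpace ℝ (Fin n)) _ y v) '' D K) * Real.exp (-‖v‖ ^ 2)) =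
        ∫ v : EuclideanSpace ℝ (Fin n),
          sSup ((fun y : EuclideanSpace ℝ (Fin n) =>
              @inner ℝ (EuclideanSpace ℝ (Fin n)) _ y v) '' K) * Real.exp (-‖v‖ ^ 2)) →
  (∀ K : Set (EuclideanSpace ℝ (Fin n)),
      (IsCompact K ∧ Convex ℝ K ∧ K.Nonempty ∧ (b = true → (interior K).Nonempty)) →
      (∀ x ∈ K, ∀ y ∈ H, ∀ z ∈ Hᗮ, x = y + z → y - z ∈ K) →
      D K = K) →
  ∀ K : Set (EuclideanSpace ℝ (Fin n)),
    (IsCompact K ∧ Convex ℝ K ∧ K.Nonempty ∧ (b = true → (interior K).Nonempty)) →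
    (∀ x ∈ K, ∀ y ∈ H, ∀ z ∈ Hᗮ, x = y + z → y - z ∈ K) →
    ∀ x ∈ Hᗮ, D ((fun y : EuclideanSpace ℝ (Fin n) => y + x) '' K) = K) := by
  intro hall
  obtain ⟨D, h1, h2, h3, h4, x, hx⟩ := general 2 le_rfl false
  refine hx (hall 2 0 (by norm_num) ⊥ (finrank_bot ℝ _) false D ?_ h2 h3 ?_
    (Metric.closedBall 0 1) ?_ ?_ x ?_)
  · intro K hK
    obtain ⟨h5, h6⟩ := h1 K hK
    refine ⟨h5, ?_⟩
    intro x hx y hy z hz hxyz
    rw [Submodule.mem_bot] at hy
    subst hy
    rw [zero_add] at hxyz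
    rw [zero_sub, ← hxyz]
    exact h6 x hx
  · intro K hK hs
    apply h4 K hK
    intro x hx
    have := hs x hx 0 (Submodule.zero_mem _) x (by simp) (zero_add x).symm
    simpa using this
  · refine ⟨isCompact_closedBall 0 1, convex_closedBall 0 1, ⟨0, by simp⟩, by simp⟩
  · intro x hx y hy z hz hxyz
    rw [Submodule.mem_bot] at hy
    subst hy
    rw [zero_add] at hxyz
    rw [zero_sub, ← hxyz]
    simpa using hx
  · simp

end Pool.Agent.S08790
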