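import Pool.Statements.S08792
import Pool.Agent.Helper936.Split

set_option autoImplicit false
open Pool Pool.MP_a8721e_gt

namespace Pool.Agent.S08792

/-- The negation of the preceding statement: For every compact Hausdorff zero-dimensional homogeneous space X, for each pointwise neighborhood U of the identity there are finitely many continuous self-maps g such that every continuous self-map equals some g composed with a continuous map from U. -/
theorem result :
    ¬ (∀ (X : Type) [TopologicalSpace X], T2Space X → CompactSpace X →
      TopologicalSpace.IsTopologicalBasis {s : Set X | IsClopen s} →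
      (∀ x y : X, ∃ h : X ≃ₜ X, h x = y) →
      ∀ U : Set (X → X), U ∈ nhds (id : X → X) →
        ∃ F : Set (X → X), F.Finite ∧ (∀ g ∈ F, Continuous g) ∧
          ∀ f : X → X, Continuous f →
            ∃ g ∈ F, ∃ u ∈ U, Continuous u ∧ f = g ∘ u) := by
  intro H
  obtain ⟨U, hU, hbad⟩ := Pool.Agent.Helper936.Split.not_left_bounded
  obtain ⟨F, hF, hFc, h⟩ := H Pool.Agent.Helper936.Split.X inferInstance inferInstance
    Pool.Agent.Helper936.Split.clopen_basis Pool.Agent.Helper936.Split.homogeneous U hU
  obtain ⟨f, hf, hf'⟩ := hbad F hF hFc
  obtain ⟨g, hg, u, hu, huc, hfg⟩ := h f hf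
  exact hf' g hg u hu huc hfg

end Pool.Agent.S08792
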