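import Pool.Statements.S08800
import Pool.Agent.Helper797.KakeyaStar
-- import your own Pool.Agent.* helpers here

set_option autoImplicit false
open Pool Pool.MP_ab6de5_gt

namespace Pool.Agent.S08800

/-- The negation of the preceding statement: Over all star-shaped plane sets in which a unit needle can move continuously back to its starting position reversed, the infimum of the area equals (5 − 2√2)π/24. -/
theorem result :
    ¬ ((⨅ (R : Set (ℝ × ℝ))
        (_ : (∃ x : ℝ × ℝ, StarConvex ℝ x R) ∧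
          ∃ c : ℝ → ℝ × ℝ, ∃ θ : ℝ → ℝ,
            Continuous c ∧ Continuous θ ∧ c 1 = c 0 ∧
            (∃ k : ℤ, θ 1 = θ 0 + (2 * (k : ℝ) + 1) * Real.pi) ∧
            ∀ t ∈ Set.Icc (0 : ℝ) 1, ∀ s ∈ Set.Icc (-1/2 : ℝ) (1/2),
              c t + s • (Real.cos (θ t), Real.sin (θ t)) ∈ R),
        MeasureTheory.volume R)
      = ENNReal.ofReal ((5 - 2 * Real.sqrt 2) / 24 * Real.pi)) := by
  intro h
  have h1 := iInf₂_le (f := fun (R : Set (ℝ × ℝ))
        (_ : (∃ x : ℝ × ℝ, StarConvex ℝ x R) ∧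
          ∃ c : ℝ → ℝ × ℝ, ∃ θ : ℝ → ℝ,
            Continuous c ∧ Continuous θ ∧ c 1 = c 0 ∧
            (∃ k : ℤ, θ 1 = θ 0 + (2 * (k : ℝ) + 1) * Real.pi) ∧
            ∀ t ∈ Set.Icc (0 : ℝ) 1, ∀ s ∈ Set.Icc (-1/2 : ℝ) (1/2),
              c t + s • (Real.cos (θ t), Real.sin (θ t)) ∈ R) => MeasureTheory.volume R)
    Pool.Agent.Helper797.Kakeya.Star Pool.Agent.Helper797.Kakeya.Star_kakeya
  rw [h] at h1
  exact absurd (h1.trans_lt Pool.Agent.Helper797.Kakeya.Star_volume_lt) (lt_irrefl _)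

end Pool.Agent.S08800
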