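import Pool.Statements.S08813

set_option autoImplicit false
open TopologicalSpace
open Pool Pool.MP_acff2a_gt

namespace Pool.Agent.S08813

open Set Topology Cardinal Filter

/-! ### The Cantor scheme -/

/-- The Cantor space. -/
abbrev M : Type := ℕ → Bool

/-- Two tuples agree up to level `m`. -/
def Agree {n : ℕ} (m : ℕ) (s t : Fin n → M) : Prop := ∀ i, ∀ k < m, s i k = t i k

/-- The property of a sequence of tuples that we need for the recursion. -/
def Good (p : (n : ℕ) × (ℕ → Fin n → M)) : Prop :=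
  ∀ B : Set M, #B < 𝔠 → ∃ (z : Fin p.1 → M) (k : ℕ → ℕ),
    (∀ j, p.2 (k j) ≠ z) ∧ (∀ i, Tendsto (fun j => p.2 (k j) i) atTop (𝓝 (z i))) ∧
    (∀ i, z i ∈ B → ∀ j, p.2 (k j) i = z i) ∧
    (∀ i i', z i = z i' → ∀ j, p.2 (k j) i = p.2 (k j) i')

/-- The data used by the Cantor scheme: a set `S` of tuples, which are constant on the coordinates in
`J`, and such that neighbourhoods of members of `S` contain members of `S` with new coordinates. -/
structure Scheme (n : ℕ) where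
  S : Set (Fin n → M)
  J : Finset (Fin n)
  p : Fin n → M
  ne : S.Nonempty
  hJ : ∃ i, i ∉ J
  hp : ∀ s ∈ S, ∀ i ∈ J, s i = p i
  next : ∀ s ∈ S, ∀ (m : ℕ) (C : Finset M), ∃ s' ∈ S, Agree m s s' ∧ ∀ i ∉ J, s' i ∉ C

theorem exists_scheme {n : ℕ} (S : Set (Fin n → M)) (hS : ¬ S.Countable) :
    ∃ T : Scheme n, T.S ⊆ S := by
  classical
  -- a maximal set of constant coordinates
  let 𝒥 : Set (Finset (Fin n)) := {J | ∃ p : Fin n → M, ¬ {s | s ∈ S ∧ ∀ i ∈ J, s i = p i}.Countable}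
  have h𝒥 : 𝒥.Nonempty := ⟨∅, fun _ _ => true, by simpa using hS⟩
  obtain ⟨J, hJmax⟩ := (Set.toFinite 𝒥).exists_maximal h𝒥
  obtain ⟨p, hp⟩ := hJmax.prop
  set S' : Set (Fin n → M) := {s | s ∈ S ∧ ∀ i ∈ J, s i = p i} with hS'
  have hJ : ∃ i, i ∉ J := by
    by_contra h
    push Not at h
    apply hp
    refine (Set.countable_singleton p).mono ?_
    intro s hs
    exact funext fun i => hs.2 i (h i)
  have hcount : ∀ i ∉ J, ∀ c : M, {s | s ∈ S' ∧ s i = c}.Countable := by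
    intro i hi c
    by_contra hc
    have h1 : insert i J ∈ 𝒥 := by
      refine ⟨Function.update p i c, fun hcon => hc (hcon.mono ?_)⟩
      rintro s ⟨⟨hsS, hsJ⟩, hsi⟩
      refine ⟨hsS, ?_⟩
      intro j hj
      by_cases hji : j = i
      · subst hji
        simpa using hsi
      · rw [Function.update_of_ne hji]
        exact hsJ j ((Finset.mem_insert.mp hj).resolve_left hji)
    have h2 := hJmax.le_of_ge h1 (Finset.subset_insert i J)
    exact hi (h2 (Finset.mem_insert_self i J))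
  -- the condensation points
  let res : (m : ℕ) → (Fin n → M) → (Fin n → Fin m → Bool) := fun m s i k => s i k
  let D : Set (Fin n → M) := {s | s ∈ S' ∧ ∃ m : ℕ, {s' | s' ∈ S' ∧ res m s' = res m s}.Countable}
  have hD : D.Countable := by
    have h1 : D ⊆ ⋃ (q : (m : ℕ) × (Fin n → Fin m → Bool)),
        {s | s ∈ S' ∧ res q.1 s = q.2 ∧ {s' | s' ∈ S' ∧ res q.1 s' = q.2}.Countable} := by
      rintro s ⟨hs, m, hm⟩
      exact mem_iUnion.mpr ⟨⟨m, res m s⟩, hs, rfl, hm⟩
    refine Set.Countable.mono h1 (Set.countable_iUnion ?_)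
    intro q
    by_cases hq : {s' | s' ∈ S' ∧ res q.1 s' = q.2}.Countable
    · refine Set.Countable.mono ?_ hq
      rintro s ⟨h1, h2, -⟩
      exact ⟨h1, h2⟩
    · convert Set.countable_empty
      ext s
      simp only [mem_ofPred_eq, mem_empty_iff_false, iff_false]
      rintro ⟨_, _, h⟩
      exact hq h
  have hres : ∀ (m : ℕ) (s s' : Fin n → M), res m s' = res m s → Agree m s s' := by
    intro m s s' h i k hk
    exact (congrFun (congrFun h i) ⟨k, hk⟩).symm
  refine ⟨⟨S' \ D, J, p, ?_, hJ, fun s hs => hs.1.2, ?_⟩, fun s hs => hs.1.1⟩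
  · by_contra h
    rw [not_nonempty_iff_eq_empty, sdiff_eq_empty] at h
    exact hp (hD.mono h)
  · intro s hs m C
    have h1 : ¬ {s' | s' ∈ S' ∧ res m s' = res m s}.Countable := by
      intro h
      exact hs.2 ⟨hs.1, m, h⟩
    by_contra hcon
    push Not at hcon
    apply h1
    have h2 : {s' | s' ∈ S' ∧ res m s' = res m s} ⊆
        D ∪ ⋃ i ∈ {i | i ∉ J}, ⋃ c ∈ C, {s' | s' ∈ S' ∧ s' i = c} := by
      rintro s' ⟨hs', hr⟩
      by_cases hD' : s' ∈ D
      · exact Or.inl hD'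
      · right
        obtain ⟨i, hi, hiC⟩ := hcon s' ⟨hs', hD'⟩ (hres m s s' hr)
        simp only [mem_iUnion]
        exact ⟨i, hi, s' i, hiC, hs', rfl⟩
    refine Set.Countable.mono h2 (hD.union ?_)
    refine (Set.to_countable _).biUnion ?_
    intro i hi
    exact (C.countable_toSet).biUnion fun c _ => hcount i hi c

/-- Level separating the distinct coordinates of a tuple. -/
theorem exists_sep (C : Finset M) : ∃ m : ℕ, ∀ x ∈ C, ∀ y ∈ C, x ≠ y → ∃ k < m, x k ≠ y k := by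
  classical
  have h1 : ∀ q : M × M, ∃ i : ℕ, q.1 ≠ q.2 → q.1 i ≠ q.2 i := by
    intro q
    by_cases hq : q.1 = q.2
    · exact ⟨0, fun h => absurd hq h⟩
    · obtain ⟨i, hi⟩ := Function.ne_iff.mp hq
      exact ⟨i, fun _ => hi⟩
  choose f hf using h1
  refine ⟨(C ×ˢ C).sup f + 1, ?_⟩
  intro x hx y hy hxy
  refine ⟨f (x, y), ?_, hf (x, y) hxy⟩
  exact Nat.lt_succ_of_le (Finset.le_sup (Finset.mem_product.mpr ⟨hx, hy⟩))

namespace Scheme

variable {n : ℕ} (T : Scheme n)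

/-- One step of the scheme. -/
theorem exists_step (q : T.S × ℕ) : ∃ (s₀ s₁ : T.S) (m' : ℕ), q.2 < m' ∧
    Agree q.2 q.1.1 s₀.1 ∧ Agree q.2 q.1.1 s₁.1 ∧
    (∀ i j, s₀.1 i ≠ s₀.1 j → ∃ k < m', s₀.1 i k ≠ s₀.1 j k) ∧
    (∀ i j, s₁.1 i ≠ s₁.1 j → ∃ k < m', s₁.1 i k ≠ s₁.1 j k) ∧
    (∀ i ∉ T.J, ∀ j, ∃ k < m', s₁.1 i k ≠ s₀.1 j k) ∧
    (∀ i ∉ T.J, ∃ k < m', s₀.1 i k ≠ q.1.1 i k) ∧
    (∀ i ∉ T.J, ∃ k < m', s₁.1 i k ≠ q.1.1 i k) := by
  classical
  obtain ⟨⟨s, hs⟩, m⟩ := q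
  obtain ⟨s₀, hs₀, ha₀, hn₀⟩ := T.next s hs m (Finset.univ.image s)
  obtain ⟨s₁, hs₁, ha₁, hn₁⟩ := T.next s hs m (Finset.univ.image s ∪ Finset.univ.image s₀)
  obtain ⟨m₁, hm₁⟩ := exists_sep (Finset.univ.image s ∪ Finset.univ.image s₀ ∪ Finset.univ.image s₁)
  have a : ∀ i, s i ∈ Finset.univ.image s ∪ Finset.univ.image s₀ ∪ Finset.univ.image s₁ := by
    intro i; simp
  have b : ∀ i, s₀ i ∈ Finset.univ.image s ∪ Finset.univ.image s₀ ∪ Finset.univ.image s₁ := by
    intro i; simp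
  have c : ∀ i, s₁ i ∈ Finset.univ.image s ∪ Finset.univ.image s₀ ∪ Finset.univ.image s₁ := by
    intro i; simp
  have key : ∀ x ∈ Finset.univ.image s ∪ Finset.univ.image s₀ ∪ Finset.univ.image s₁,
      ∀ y ∈ Finset.univ.image s ∪ Finset.univ.image s₀ ∪ Finset.univ.image s₁, x ≠ y →
      ∃ k < max m₁ (m + 1), x k ≠ y k := by
    intro x hx y hy hxy
    obtain ⟨k, hk, hk'⟩ := hm₁ x hx y hy hxy
    exact ⟨k, lt_of_lt_of_le hk (le_max_left _ _), hk'⟩
  refine ⟨⟨s₀, hs₀⟩, ⟨s₁, hs₁⟩, max m₁ (m + 1), ?_, ha₀, ha₁, ?_, ?_, ?_, ?_, ?_⟩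
  · exact lt_of_lt_of_le (Nat.lt_succ_self m) (le_max_right _ _)
  · intro i j hij
    exact key _ (b i) _ (b j) hij
  · intro i j hij
    exact key _ (c i) _ (c j) hij
  · intro i hi j
    refine key _ (c i) _ (b j) ?_
    intro h
    apply hn₁ i hi
    rw [h]
    simp
  · intro i hi
    refine key _ (b i) _ (a i) ?_
    intro h
    apply hn₀ i hi
    rw [h]
    simp
  · intro i hi
    refine key _ (c i) _ (a i) ?_
    intro h
    apply hn₁ i hi
    rw [h]
    simp

/-- The initial state. -/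
theorem exists_init : ∃ q : T.S × ℕ, ∀ i j, q.1.1 i ≠ q.1.1 j → ∃ k < q.2, q.1.1 i k ≠ q.1.1 j k := by
  classical
  obtain ⟨s, hs⟩ := T.ne
  obtain ⟨m, hm⟩ := exists_sep (Finset.univ.image s)
  exact ⟨⟨⟨s, hs⟩, m⟩, fun i j hij => hm _ (by simp) _ (by simp) hij⟩

/-- The states of the scheme, indexed by finite binary sequences. -/
noncomputable def st : List Bool → T.S × ℕ
  | [] => T.exists_init.choose
  | b :: l => (if b then (T.exists_step (st l)).choose_spec.choose
      else (T.exists_step (st l)).choose, (T.exists_step (st l)).choose_spec.choose_spec.choose)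

/-- The finite initial segments of an infinite binary sequence. -/
def pre (x : ℕ → Bool) : ℕ → List Bool
  | 0 => []
  | k + 1 => x k :: pre x k

theorem st_spec (l : List Bool) :
    (T.st l).2 < (T.st (true :: l)).2 ∧ (T.st (true :: l)).2 = (T.st (false :: l)).2 ∧
    Agree (T.st l).2 (T.st l).1.1 (T.st (false :: l)).1.1 ∧
    Agree (T.st l).2 (T.st l).1.1 (T.st (true :: l)).1.1 ∧
    (∀ i j, (T.st (false :: l)).1.1 i ≠ (T.st (false :: l)).1.1 j →
      ∃ k < (T.st (true :: l)).2, (T.st (false :: l)).1.1 i k ≠ (T.st (false :: l)).1.1 j k) ∧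
    (∀ i j, (T.st (true :: l)).1.1 i ≠ (T.st (true :: l)).1.1 j →
      ∃ k < (T.st (true :: l)).2, (T.st (true :: l)).1.1 i k ≠ (T.st (true :: l)).1.1 j k) ∧
    (∀ i ∉ T.J, ∀ j, ∃ k < (T.st (true :: l)).2,
      (T.st (true :: l)).1.1 i k ≠ (T.st (false :: l)).1.1 j k) ∧
    (∀ i ∉ T.J, ∃ k < (T.st (true :: l)).2, (T.st (false :: l)).1.1 i k ≠ (T.st l).1.1 i k) ∧
    (∀ i ∉ T.J, ∃ k < (T.st (true :: l)).2, (T.st (true :: l)).1.1 i k ≠ (T.st l).1.1 i k) := by
  have h := (T.exists_step (T.st l)).choose_spec.choose_spec.choose_spec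
  obtain ⟨h1, h2, h3, h4, h5, h6, h7, h8⟩ := h
  exact ⟨h1, rfl, h2, h3, h4, h5, h6, h7, h8⟩

theorem lt_level (b : Bool) (l : List Bool) : (T.st l).2 < (T.st (b :: l)).2 := by
  obtain ⟨h1, h2, -⟩ := T.st_spec l
  cases b
  · rw [← h2]; exact h1
  · exact h1

theorem agree_step (b : Bool) (l : List Bool) :
    Agree (T.st l).2 (T.st l).1.1 (T.st (b :: l)).1.1 := by
  obtain ⟨-, -, h3, h4, -⟩ := T.st_spec l
  cases b
  · exact h3
  · exact h4

theorem sep (l : List Bool) : ∀ i j, (T.st l).1.1 i ≠ (T.st l).1.1 j →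
    ∃ k < (T.st l).2, (T.st l).1.1 i k ≠ (T.st l).1.1 j k := by
  cases l with
  | nil => exact T.exists_init.choose_spec
  | cons b l =>
    obtain ⟨-, h2, -, -, h5, h6, -⟩ := T.st_spec l
    cases b
    · rw [← h2]; exact h5
    · exact h6

theorem new (b : Bool) (l : List Bool) (i : Fin n) (hi : i ∉ T.J) :
    ∃ k < (T.st (b :: l)).2, (T.st (b :: l)).1.1 i k ≠ (T.st l).1.1 i k := by
  obtain ⟨-, h2, -, -, -, -, -, h8, h9⟩ := T.st_spec l
  cases b
  · rw [← h2]; exact h8 i hi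
  · exact h9 i hi

theorem cross (b b' : Bool) (hb : b ≠ b') (l : List Bool) (i j : Fin n) (hi : i ∉ T.J) (hj : j ∉ T.J) :
    ∃ k, k < (T.st (b :: l)).2 ∧ k < (T.st (b' :: l)).2 ∧
      (T.st (b :: l)).1.1 i k ≠ (T.st (b' :: l)).1.1 j k := by
  obtain ⟨-, h2, -, -, -, -, h7, -, -⟩ := T.st_spec l
  cases b
  · cases b'
    · exact absurd rfl hb
    · obtain ⟨k, hk, hk'⟩ := h7 j hj i
      exact ⟨k, by rw [← h2]; exact hk, hk, hk'.symm⟩
  · cases b'
    · obtain ⟨k, hk, hk'⟩ := h7 i hi j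
      exact ⟨k, hk, by rw [← h2]; exact hk, hk'⟩
    · exact absurd rfl hb

theorem le_level (x : ℕ → Bool) (k : ℕ) : k ≤ (T.st (pre x k)).2 := by
  induction k with
  | zero => exact Nat.zero_le _
  | succ k ih => exact lt_of_le_of_lt ih (T.lt_level (x k) (pre x k))

theorem level_mono (x : ℕ → Bool) : Monotone fun k => (T.st (pre x k)).2 :=
  monotone_nat_of_le_succ fun k => (T.lt_level (x k) (pre x k)).le

theorem agree_le (x : ℕ → Bool) {k k' : ℕ} (h : k ≤ k') :
    Agree (T.st (pre x k)).2 (T.st (pre x k)).1.1 (T.st (pre x k')).1.1 := by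
  induction k', h using Nat.le_induction with
  | base => exact fun i t _ => rfl
  | succ k' hk ih =>
    intro i t ht
    rw [ih i t ht]
    exact T.agree_step (x k') (pre x k') i t (lt_of_lt_of_le ht (T.level_mono x hk))

/-- The limit tuple along an infinite branch. -/
noncomputable def lim (x : ℕ → Bool) : Fin n → M := fun i t => (T.st (pre x (t + 1))).1.1 i t

theorem agree_lim (x : ℕ → Bool) (k : ℕ) :
    Agree (T.st (pre x k)).2 (T.st (pre x k)).1.1 (T.lim x) := by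
  intro i t ht
  rcases le_total k (t + 1) with h | h
  · exact T.agree_le x h i t ht
  · exact (T.agree_le x h i t (T.le_level x (t + 1))).symm

theorem lim_disjoint {x y : ℕ → Bool} (hxy : x ≠ y) (i j : Fin n) (hi : i ∉ T.J) (hj : j ∉ T.J) :
    T.lim x i ≠ T.lim y j := by
  classical
  have hex : ∃ k, x k ≠ y k := Function.ne_iff.mp hxy
  let k := Nat.find hex
  have hk : x k ≠ y k := Nat.find_spec hex
  have hlt : ∀ l < k, x l = y l := fun l hl => by
    by_contra h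
    exact Nat.find_min hex hl h
  have hpre : ∀ l ≤ k, pre x l = pre y l := by
    intro l
    induction l with
    | zero => intro _; rfl
    | succ l ih =>
      intro hl
      simp only [pre]
      rw [ih (Nat.le_of_succ_le hl), hlt l hl]
  obtain ⟨t, ht1, ht2, ht⟩ := T.cross (x k) (y k) hk (pre x k) i j hi hj
  intro heq
  apply ht
  have e1 := T.agree_lim x (k + 1) i t ht1
  have e2 := T.agree_lim y (k + 1) j t (by simp only [pre]; rw [← hpre k le_rfl]; exact ht2)
  simp only [pre] at e1 e2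
  rw [← hpre k le_rfl] at e2
  rw [e1, e2, heq]

theorem good_of : ∃ A : ℕ → Fin n → M, (∀ m, A m ∈ T.S) ∧ Good ⟨n, A⟩ := by
  classical
  let A : ℕ → Fin n → M := fun m => (T.st ((Encodable.decode m).getD [])).1.1
  have hA : ∀ l, A (Encodable.encode l) = (T.st l).1.1 := by
    intro l
    simp [A]
  refine ⟨A, fun m => (T.st _).1.2, ?_⟩
  intro B hB
  obtain ⟨x, hx⟩ : ∃ x : ℕ → Bool, ∀ i ∉ T.J, T.lim x i ∉ B := by
    by_contra hcon
    push Not at hcon
    choose f hf hfB using hcon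
    have hinj : Function.Injective fun x : ℕ → Bool => (⟨T.lim x (f x), hfB x⟩ : B) := by
      intro x y hxy
      by_contra hne
      exact T.lim_disjoint hne _ _ (hf x) (hf y) (congrArg Subtype.val hxy)
    have h1 := Cardinal.mk_le_of_injective hinj
    have h2 : #(ℕ → Bool) = 𝔠 := by simp
    rw [h2] at h1
    exact absurd h1 (not_le.mpr hB)
  refine ⟨T.lim x, fun j => Encodable.encode (pre x j), ?_, ?_, ?_, ?_⟩
  · intro j hj
    simp only [hA] at hj
    obtain ⟨i, hi⟩ := T.hJ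
    obtain ⟨t, ht, htne⟩ := T.new (x j) (pre x j) i hi
    apply htne
    rw [hj]
    exact T.agree_lim x (j + 1) i t ht
  · intro i
    simp only [hA]
    rw [tendsto_pi_nhds]
    intro t
    apply tendsto_const_nhds.congr'
    filter_upwards [eventually_gt_atTop t] with j hj
    exact (T.agree_lim x j i t (lt_of_lt_of_le hj (T.le_level x j))).symm
  · intro i hi j
    simp only [hA]
    have hiJ : i ∈ T.J := by
      by_contra h
      exact hx i h hi
    rw [T.hp _ (T.st _).1.2 i hiJ]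
    funext t
    simp only [lim]
    rw [T.hp _ (T.st _).1.2 i hiJ]
  · intro i i' hii j
    simp only [hA]
    by_contra hne
    obtain ⟨t, ht, htne⟩ := T.sep (pre x j) i i' hne
    apply htne
    rw [T.agree_lim x j i t ht, T.agree_lim x j i' t ht, hii]

end Scheme

theorem exists_good {n : ℕ} (S : Set (Fin n → M)) (hS : ¬ S.Countable) :
    ∃ A : ℕ → Fin n → M, (∀ m, A m ∈ S) ∧ Good ⟨n, A⟩ := by
  obtain ⟨T, hT⟩ := exists_scheme S hS
  obtain ⟨A, hA, hG⟩ := T.good_of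
  exact ⟨A, fun m => hT (hA m), hG⟩

/-! ### The transfinite recursion -/

theorem exists_rec {Ξ : Type} [LinearOrder Ξ] [WellFoundedLT Ξ] {D : Ξ → Type}
    (Q : ∀ ξ, (∀ η, η < ξ → D η) → D ξ → Prop) (h : ∀ ξ f, ∃ d, Q ξ f d) :
    ∃ F : ∀ ξ, D ξ, ∀ ξ, Q ξ (fun η _ => F η) (F ξ) := by
  classical
  let F : ∀ ξ, D ξ := (wellFounded_lt (α := Ξ)).fix (fun ξ f => (h ξ f).choose)
  refine ⟨F, fun ξ => ?_⟩
  have h1 : F ξ = (h ξ (fun η _ => F η)).choose := by
    simp only [F]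
    rw [WellFounded.fix_eq]
  rw [h1]
  exact (h ξ (fun η _ => F η)).choose_spec

/-- The index type of the requirements. -/
abbrev I₀ : Type := (n : ℕ) × (ℕ → Fin n → M)

theorem mk_I₀ : #I₀ ≤ 𝔠 := by
  have hM : #M = 𝔠 := by simp
  rw [Cardinal.mk_sigma]
  have h1 : ∀ n : ℕ, #(ℕ → Fin n → M) ≤ 𝔠 := by
    intro n
    have h2 : #(Fin n → M) ≤ 𝔠 := by
      rw [← Cardinal.power_def, hM]
      calc 𝔠 ^ #(Fin n) ≤ 𝔠 ^ ℵ₀ :=
            Cardinal.power_le_power_left Cardinal.continuum_ne_zero (Cardinal.mk_le_aleph0)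
        _ = 𝔠 := Cardinal.continuum_power_aleph0
    rw [← Cardinal.power_def]
    calc #(Fin n → M) ^ #ℕ ≤ 𝔠 ^ #ℕ := Cardinal.power_le_power_right h2
      _ = 𝔠 := by simp
  calc Cardinal.sum (fun n : ℕ => #(ℕ → Fin n → M)) ≤ Cardinal.sum (fun _ : ℕ => 𝔠) :=
        Cardinal.sum_le_sum _ _ h1
    _ = #ℕ * 𝔠 := by simp
    _ ≤ 𝔠 * 𝔠 := by
        rw [Cardinal.mk_nat]
        exact mul_le_mul_left Cardinal.aleph0_le_continuum 𝔠
    _ = 𝔠 := Cardinal.mul_eq_self Cardinal.aleph0_le_continuum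

/-- A well-ordered set of size continuum with small initial segments. -/
abbrev Xi : Type := (𝔠 : Cardinal.{0}).ord.ToType

theorem mk_Xi : #Xi = 𝔠 := Cardinal.mk_ord_toType _

theorem mk_Iio (ξ : Xi) : #(Iio ξ) < 𝔠 :=
  (Cardinal.mk_Iio_lt ξ (by rw [mk_Xi, Ordinal.type_toType])).trans_eq mk_Xi

theorem mk_Iic (ξ : Xi) : #(Iic ξ) < 𝔠 := by
  have h1 : (Iic ξ) ⊆ insert ξ (Iio ξ) := by
    intro η hη
    rcases (mem_Iic.mp hη).eq_or_lt with h | h
    · exact Or.inl h
    · exact Or.inr h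
  refine (Cardinal.mk_le_mk_of_subset h1).trans_lt (Cardinal.mk_insert_le.trans_lt ?_)
  exact Cardinal.add_lt_of_lt Cardinal.aleph0_le_continuum (mk_Iio ξ)
    (Cardinal.one_lt_aleph0.trans_le Cardinal.aleph0_le_continuum)

theorem exists_phi : ∃ φ : Xi → I₀, Function.Surjective φ := by
  obtain ⟨f⟩ := Cardinal.le_def _ _ |>.mp (mk_I₀.trans_eq mk_Xi.symm)
  have : Nonempty I₀ := ⟨⟨0, fun _ _ _ => true⟩⟩
  exact ⟨Function.invFun f, Function.invFun_surjective f.injective⟩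

theorem mk_iUnion_lt {K : Type} (hK : #K < 𝔠) (C : K → Set M) (hC : ∀ k, (C k).Countable) :
    #(⋃ k, C k) < 𝔠 := by
  refine (Cardinal.mk_iUnion_le _).trans_lt ?_
  have h1 : (⨆ k, #(C k)) ≤ ℵ₀ :=
    ciSup_le' fun k => Cardinal.le_aleph0_iff_set_countable.mpr (hC k)
  refine (mul_le_mul_right h1 _).trans_lt ?_
  exact Cardinal.mul_lt_of_lt Cardinal.aleph0_le_continuum hK Cardinal.aleph0_lt_continuum

/-- First difference. -/
noncomputable abbrev fd (x y : M) : ℕ := PiNat.firstDiff (E := fun _ => Bool) x y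

theorem finite_annulus {a : ℕ → M} {w : M} (h : Tendsto a atTop (𝓝 w)) (l : ℕ) :
    {b | (∃ j, b = a j) ∧ b ≠ w ∧ fd b w = l}.Finite := by
  rw [tendsto_pi_nhds] at h
  have h1 : ∀ᶠ j in atTop, a j l = w l := by
    have := h l
    rw [nhds_discrete, tendsto_pure] at this
    exact this
  obtain ⟨J, hJ⟩ := eventually_atTop.mp h1
  refine ((Set.finite_Iio J).image a).subset ?_
  rintro b ⟨⟨j, rfl⟩, hne, hl⟩
  refine ⟨j, ?_, rfl⟩
  by_contra hj
  have h2 := PiNat.apply_firstDiff_ne (E := fun _ => Bool) hne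
  rw [show PiNat.firstDiff (E := fun _ => Bool) (a j) w = l from hl] at h2
  exact h2 (hJ j (not_lt.mp hj))

theorem exists_P : ∃ P : M → Set M,
    WellFounded (fun a w => a ∈ P w) ∧ (∀ w, (P w).Countable) ∧
    (∀ w l, {a | a ∈ P w ∧ a ≠ w ∧ fd a w = l}.Finite) ∧
    (∀ (n : ℕ) (S : Set (Fin n → M)), ¬ S.Countable → ∃ (z : Fin n → M) (a : ℕ → Fin n → M),
      (∀ k, a k ∈ S) ∧ (∀ k, a k ≠ z) ∧ (∀ i, Tendsto (fun k => a k i) atTop (𝓝 (z i))) ∧
      (∀ i k, a k i = z i ∨ a k i ∈ P (z i)) ∧ (∀ i i', z i = z i' → ∀ k, a k i = a k i')) := by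
  classical
  obtain ⟨φ, hφ⟩ := exists_phi
  let Bs : ∀ ξ : Xi, (∀ η : Xi, η < ξ → (Fin (φ η).1 → M) × (ℕ → ℕ)) → Set M := fun ξ f =>
    (⋃ η : Iio ξ, range (f η.1 η.2).1) ∪ ⋃ η : Iic ξ, ⋃ m, range ((φ η.1).2 m)
  have hBs : ∀ ξ f, #(Bs ξ f) < 𝔠 := by
    intro ξ f
    refine (Cardinal.mk_union_le _ _).trans_lt ?_
    refine Cardinal.add_lt_of_lt Cardinal.aleph0_le_continuum ?_ ?_
    · exact mk_iUnion_lt (mk_Iio ξ) _ fun η => countable_range _
    · exact mk_iUnion_lt (mk_Iic ξ) _ fun η => countable_iUnion fun m => countable_range _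
  obtain ⟨F, hF⟩ := exists_rec (D := fun η : Xi => (Fin (φ η).1 → M) × (ℕ → ℕ))
    (fun ξ f d => Good (φ ξ) → (∀ j, (φ ξ).2 (d.2 j) ≠ d.1) ∧
      (∀ i, Tendsto (fun j => (φ ξ).2 (d.2 j) i) atTop (𝓝 (d.1 i))) ∧
      (∀ i, d.1 i ∈ Bs ξ f → ∀ j, (φ ξ).2 (d.2 j) i = d.1 i) ∧
      (∀ i i', d.1 i = d.1 i' → ∀ j, (φ ξ).2 (d.2 j) i = (φ ξ).2 (d.2 j) i')) (by
    intro ξ f
    by_cases hg : Good (φ ξ)
    · obtain ⟨z, k, h1, h2, h3, h4⟩ := hg (Bs ξ f) (hBs ξ f)
      exact ⟨(z, k), fun _ => ⟨h1, h2, h3, h4⟩⟩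
    · exact ⟨(fun _ _ => true, fun _ => 0), fun h => absurd h hg⟩)
  let z : ∀ ξ : Xi, Fin (φ ξ).1 → M := fun ξ => (F ξ).1
  let k : Xi → ℕ → ℕ := fun ξ => (F ξ).2
  let B : Xi → Set M := fun ξ => Bs ξ (fun η _ => F η)
  have hB1 : ∀ ξ η i, ξ < η → z ξ i ∈ B η := by
    intro ξ η i h
    exact Or.inl (mem_iUnion.mpr ⟨⟨ξ, h⟩, mem_range_self i⟩)
  have hB2 : ∀ ξ η m i, ξ ≤ η → (φ ξ).2 m i ∈ B η := by
    intro ξ η m i h
    exact Or.inr (mem_iUnion.mpr ⟨⟨ξ, h⟩, mem_iUnion.mpr ⟨m, mem_range_self i⟩⟩)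
  have huniq : ∀ ξ η i i', z ξ i = z η i' → z ξ i ∉ B ξ → z ξ i ∉ B η → ξ = η := by
    intro ξ η i i' h h1 h2
    rcases lt_trichotomy ξ η with h3 | h3 | h3
    · exact absurd (hB1 ξ η i h3) h2
    · exact h3
    · rw [h] at h1
      exact absurd (hB1 η ξ i' h3) h1
  let P : M → Set M := fun w => {a | ∃ ξ, Good (φ ξ) ∧ ∃ i, z ξ i = w ∧ w ∉ B ξ ∧
    ∃ j, a = (φ ξ).2 (k ξ j) i}
  have hP : ∀ (w a : M), a ∈ P w → ∀ ξ i, z ξ i = w → w ∉ B ξ → Good (φ ξ) ∧
      ∃ i', z ξ i' = w ∧ ∃ j, a = (φ ξ).2 (k ξ j) i' := by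
    rintro w a ⟨η, hg, i', hi', hw', j, hj⟩ ξ i hi hw
    have : ξ = η := huniq ξ η i i' (by rw [hi, hi']) (by rw [hi]; exact hw) (by rw [hi]; exact hw')
    subst this
    exact ⟨hg, i', hi', j, hj⟩
  have hacc : ∀ ξ, ∀ i, z ξ i ∉ B ξ → Acc (fun a w => a ∈ P w) (z ξ i) := by
    intro ξ
    induction ξ using WellFoundedLT.induction with
    | ind ξ ih =>
      intro i hi
      refine Acc.intro _ fun a ha => ?_
      obtain ⟨hg, i', hi', j, hj⟩ := hP _ _ ha ξ i rfl hi
      by_cases hex : ∃ ζ i'', z ζ i'' = a ∧ a ∉ B ζ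
      · obtain ⟨ζ, i'', hζ, haζ⟩ := hex
        have hlt : ζ < ξ := by
          by_contra hcon
          apply haζ
          rw [hj]
          exact hB2 ξ ζ _ _ (not_lt.mp hcon)
        have := ih ζ hlt i'' (by rw [hζ]; exact haζ)
        rw [hζ] at this
        exact this
      · refine Acc.intro _ fun b hb => ?_
        obtain ⟨ζ, _, i'', h1, h2, _⟩ := hb
        exact absurd ⟨ζ, i'', h1, h2⟩ hex
  refine ⟨P, ⟨fun w => ?_⟩, ?_, ?_, ?_⟩
  · by_cases hex : ∃ ζ i'', z ζ i'' = w ∧ w ∉ B ζ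
    · obtain ⟨ζ, i'', hζ, haζ⟩ := hex
      have := hacc ζ i'' (by rw [hζ]; exact haζ)
      rw [hζ] at this
      exact this
    · refine Acc.intro _ fun b hb => ?_
      obtain ⟨ζ, _, i'', h1, h2, _⟩ := hb
      exact absurd ⟨ζ, i'', h1, h2⟩ hex
  · intro w
    rcases (P w).eq_empty_or_nonempty with h | ⟨a, ha⟩
    · rw [h]; exact countable_empty
    · obtain ⟨ξ, hg, i, hi, hw, -⟩ := ha
      have h1 : P w ⊆ ⋃ i, range fun j => (φ ξ).2 (k ξ j) i := by
        intro b hb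
        obtain ⟨-, i', -, j, hj⟩ := hP _ _ hb ξ i hi hw
        exact mem_iUnion.mpr ⟨i', j, hj.symm⟩
      exact (countable_iUnion fun i => countable_range _).mono h1
  · intro w l
    rcases (P w).eq_empty_or_nonempty with h | ⟨a, ha⟩
    · rw [h]; simp
    · obtain ⟨ξ, hg, i, hi, hw, -⟩ := ha
      have h1 : {a | a ∈ P w ∧ a ≠ w ∧ fd a w = l} ⊆
          ⋃ i, {b | (∃ j, b = (φ ξ).2 (k ξ j) i) ∧ b ≠ z ξ i ∧ fd b (z ξ i) = l} := by
        rintro b ⟨hb, hbw, hbl⟩
        obtain ⟨-, i', hi', j, hj⟩ := hP _ _ hb ξ i hi hw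
        refine mem_iUnion.mpr ⟨i', ⟨j, hj⟩, ?_, ?_⟩
        · rw [hi']; exact hbw
        · rw [hi']; exact hbl
      refine Set.Finite.subset (Set.finite_iUnion fun i' => ?_) h1
      exact finite_annulus ((hF ξ hg).2.1 i') l
  · intro n S hS
    obtain ⟨A, hAS, hG⟩ := exists_good S hS
    have hconcl : ∀ p : I₀, Good p → ∃ (z : Fin p.1 → M) (k : ℕ → ℕ),
        (∀ j, p.2 (k j) ≠ z) ∧ (∀ i, Tendsto (fun j => p.2 (k j) i) atTop (𝓝 (z i))) ∧
        (∀ i j, p.2 (k j) i = z i ∨ p.2 (k j) i ∈ P (z i)) ∧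
        (∀ i i', z i = z i' → ∀ j, p.2 (k j) i = p.2 (k j) i') := by
      intro p hp
      obtain ⟨ξ, rfl⟩ := hφ p
      obtain ⟨h1, h2, h3, h4⟩ := hF ξ hp
      refine ⟨z ξ, k ξ, h1, h2, ?_, h4⟩
      intro i j
      by_cases hi : z ξ i ∈ B ξ
      · exact Or.inl (h3 i hi j)
      · exact Or.inr ⟨ξ, hp, i, rfl, hi, j, rfl⟩
    obtain ⟨z', k', h1, h2, h3, h4⟩ := hconcl ⟨n, A⟩ hG
    exact ⟨z', fun j => A (k' j), fun j => hAS _, h1, h2, h3, h4⟩

/-! ### The sets `R w` -/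

/-- `x` is reached from `w` along the assignment `P`. -/
inductive Reach (P : M → Set M) : M → M → Prop
  | refl (w : M) : Reach P w w
  | step (w x a : M) (ha : a ∈ P w) (haw : a ≠ w) (hxw : x ≠ w) (hfd : fd a w = fd x w)
      (h : Reach P a x) : Reach P w x

theorem reach_iff {P : M → Set M} {w x : M} (hxw : x ≠ w) :
    Reach P w x ↔ ∃ a, (a ∈ P w ∧ a ≠ w ∧ fd a w = fd x w) ∧ Reach P a x := by
  constructor
  · intro h
    cases h with
    | refl => exact absurd rfl hxw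
    | step _ _ a ha haw hxw hfd h => exact ⟨a, ⟨ha, haw, hfd⟩, h⟩
  · rintro ⟨a, ⟨ha, haw, hfd⟩, h⟩
    exact Reach.step w x a ha haw hxw hfd h

theorem annulus_nhds {w x : M} (hxw : x ≠ w) : {y : M | y ≠ w ∧ fd y w = fd x w} ∈ 𝓝 x := by
  have h1 : {y : M | ∀ t ≤ fd x w, y t = x t} ∈ 𝓝 x := by
    have h2 : {y : M | ∀ t ≤ fd x w, y t = x t} =
        ⋂ t ∈ Finset.range (fd x w + 1), (fun y : M => y t) ⁻¹' {x t} := by
      ext y
      simp
    rw [h2, Filter.biInter_finset_mem]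
    intro t _
    exact (continuous_apply t).continuousAt.preimage_mem_nhds ((isOpen_discrete _).mem_nhds rfl)
  refine Filter.mem_of_superset h1 ?_
  intro y hy
  have h3 : x (fd x w) ≠ w (fd x w) := PiNat.apply_firstDiff_ne hxw
  have h4 : y (fd x w) ≠ w (fd x w) := by rw [hy _ le_rfl]; exact h3
  have h5 : y ≠ w := fun h => h4 (by rw [h])
  refine ⟨h5, ?_⟩
  apply le_antisymm
  · by_contra hcon
    push Not at hcon
    exact h4 (PiNat.apply_eq_of_lt_firstDiff hcon)
  · by_contra hcon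
    push Not at hcon
    have h6 : y (fd y w) ≠ w (fd y w) := PiNat.apply_firstDiff_ne h5
    apply h6
    rw [hy _ hcon.le]
    exact PiNat.apply_eq_of_lt_firstDiff hcon

section

variable {P : M → Set M} (hwf : WellFounded (fun a w => a ∈ P w))
  (hfin : ∀ w l, {a | a ∈ P w ∧ a ≠ w ∧ fd a w = l}.Finite)

include hfin in
theorem reach_ultra {𝒰 : Ultrafilter M} {x w : M} (h𝒰 : (𝒰 : Filter M) ≤ 𝓝 x) (hxw : x ≠ w) :
    {y | Reach P w y} ∈ 𝒰 ↔ ∃ a, (a ∈ P w ∧ a ≠ w ∧ fd a w = fd x w) ∧ {y | Reach P a y} ∈ 𝒰 := by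
  have hN : {y : M | y ≠ w ∧ fd y w = fd x w} ∈ 𝒰 := h𝒰 (annulus_nhds hxw)
  have h1 : {y | Reach P w y} ∈ 𝒰 ↔
      (⋃ a ∈ {a | a ∈ P w ∧ a ≠ w ∧ fd a w = fd x w}, {y | Reach P a y}) ∈ 𝒰 := by
    constructor
    · intro h
      filter_upwards [h, hN] with y hy hyN
      obtain ⟨a, ha, hr⟩ := (reach_iff hyN.1).mp hy
      rw [hyN.2] at ha
      exact mem_biUnion (show a ∈ {a | a ∈ P w ∧ a ≠ w ∧ fd a w = fd x w} from ha) hr
    · intro h
      filter_upwards [h, hN] with y hy hyN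
      obtain ⟨a, ha, hr⟩ := mem_iUnion₂.mp hy
      refine (reach_iff hyN.1).mpr ⟨a, ?_, hr⟩
      rw [hyN.2]
      exact ha
  rw [h1, Ultrafilter.finite_biUnion_mem_iff (hfin w (fd x w))]
  rfl

include hwf hfin in
theorem reach_ultra_pos {𝒰 : Ultrafilter M} {x : M} (h𝒰 : (𝒰 : Filter M) ≤ 𝓝 x)
    (hx : {y | Reach P x y} ∈ 𝒰) (w : M) : {y | Reach P w y} ∈ 𝒰 ↔ Reach P w x := by
  induction w using hwf.induction with
  | _ w ih =>
    by_cases hxw : x = w
    · subst hxw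
      exact ⟨fun _ => Reach.refl _, fun _ => hx⟩
    · rw [reach_ultra hfin h𝒰 hxw, reach_iff hxw]
      constructor
      · rintro ⟨a, ha, h⟩
        exact ⟨a, ha, (ih a ha.1).mp h⟩
      · rintro ⟨a, ha, h⟩
        exact ⟨a, ha, (ih a ha.1).mpr h⟩

include hwf hfin in
theorem reach_ultra_neg {𝒰 : Ultrafilter M} {x : M} (h𝒰 : (𝒰 : Filter M) ≤ 𝓝 x)
    (hx : {y | Reach P x y} ∉ 𝒰) (w : M) : {y | Reach P w y} ∉ 𝒰 := by
  induction w using hwf.induction with
  | _ w ih =>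
    by_cases hxw : x = w
    · subst hxw
      exact hx
    · rw [reach_ultra hfin h𝒰 hxw]
      rintro ⟨a, ha, h⟩
      exact ih a ha.1 h

end

/-! ### The space -/

/-- The underlying set of the space: two copies of the Cantor space. -/
structure Pt (P : M → Set M) : Type where
  pt : M
  b : Bool

open Classical in
/-- The coordinates of a point. -/
noncomputable def coord {P : M → Set M} (p : Pt P) : M × (M → Bool) :=
  (p.pt, fun w => p.b && decide (Reach P w p.pt))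

noncomputable instance (P : M → Set M) : TopologicalSpace (Pt P) :=
  TopologicalSpace.induced coord inferInstance

theorem coord_injective (P : M → Set M) : Function.Injective (coord (P := P)) := by
  rintro ⟨x, b⟩ ⟨y, c⟩ h
  simp only [coord, Prod.mk.injEq] at h
  obtain ⟨rfl, h⟩ := h
  have h1 := congrFun h x
  simp only [Reach.refl, decide_true, Bool.and_true] at h1
  rw [h1]

theorem coord_isEmbedding (P : M → Set M) : IsEmbedding (coord (P := P)) :=
  ⟨⟨rfl⟩, coord_injective P⟩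

theorem pt_continuous (P : M → Set M) : Continuous (Pt.pt (P := P)) :=
  continuous_fst.comp (coord_isEmbedding P).continuous

instance (P : M → Set M) : T2Space (Pt P) := (coord_isEmbedding P).t2Space

open Classical in
/-- Convergence of filters in the space. -/
theorem le_nhds_iff {P : M → Set M} (𝒱 : Filter (Pt P)) (p : Pt P) :
    𝒱 ≤ 𝓝 p ↔ Tendsto Pt.pt 𝒱 (𝓝 p.pt) ∧ ∀ w, ∀ᶠ q in 𝒱,
      (q.b && decide (Reach P w q.pt)) = (p.b && decide (Reach P w p.pt)) := by
  rw [(coord_isEmbedding P).isInducing.nhds_eq_comap, ← Filter.tendsto_iff_comap]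
  rw [nhds_prod_eq, Filter.tendsto_prod_iff']
  refine and_congr Iff.rfl (tendsto_pi_nhds.trans ?_)
  simp only [nhds_discrete, tendsto_pure]
  rfl

section

variable {P : M → Set M} (hwf : WellFounded (fun a w => a ∈ P w))
  (hfin : ∀ w l, {a | a ∈ P w ∧ a ≠ w ∧ fd a w = l}.Finite)

open Classical in
include hwf hfin in
theorem ultra_le {𝒱 : Ultrafilter (Pt P)} {p : Pt P}
    (h1 : Tendsto Pt.pt (𝒱 : Filter (Pt P)) (𝓝 p.pt))
    (h2 : ∀ᶠ q in (𝒱 : Filter (Pt P)), (q.b && decide (Reach P p.pt q.pt)) = p.b) :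
    (𝒱 : Filter (Pt P)) ≤ 𝓝 p := by
  obtain ⟨x, b⟩ := p
  simp only at h1 h2
  rw [le_nhds_iff]
  refine ⟨h1, fun w => ?_⟩
  have h3 : ((𝒱.map Pt.pt : Ultrafilter M) : Filter M) ≤ 𝓝 x := h1
  cases b
  · -- the lower level
    simp only [Bool.false_and]
    rcases 𝒱.mem_or_compl_mem {q : Pt P | q.b = false} with h4 | h4
    · filter_upwards [h4] with q hq
      rw [show q.b = false from hq, Bool.false_and]
    · have h5 : {y | Reach P x y} ∉ (𝒱.map Pt.pt : Ultrafilter M) := by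
        intro h6
        have h7 : ∀ᶠ q in (𝒱 : Filter (Pt P)), False := by
          filter_upwards [h2, h4, (show Pt.pt ⁻¹' {y | Reach P x y} ∈ 𝒱 from h6)] with q h2 h4 h6
          have h8 : q.b = true := by simpa using h4
          rw [h8, Bool.true_and, decide_eq_false_iff_not] at h2
          exact h2 h6
        exact h7.exists.choose_spec
      have h6 := reach_ultra_neg hwf hfin h3 h5 w
      have h7 : Pt.pt ⁻¹' {y | Reach P w y} ∉ 𝒱 := h6
      have h8 := (𝒱.compl_mem_iff_notMem).mpr h7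
      filter_upwards [h8] with q hq
      have : ¬ Reach P w q.pt := hq
      simp [this]
  · -- the upper level
    have h4 : ∀ᶠ q in (𝒱 : Filter (Pt P)), q.b = true ∧ Reach P x q.pt := by
      filter_upwards [h2] with q hq
      simpa using hq
    have h5 : {y | Reach P x y} ∈ (𝒱.map Pt.pt : Ultrafilter M) := by
      have : Pt.pt ⁻¹' {y | Reach P x y} ∈ 𝒱 := by
        filter_upwards [h4] with q hq using hq.2
      exact this
    have h6 := reach_ultra_pos hwf hfin h3 h5 w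
    by_cases h7 : Reach P w x
    · have h8 : Pt.pt ⁻¹' {y | Reach P w y} ∈ 𝒱 := h6.mpr h7
      filter_upwards [h4, h8] with q hq hq'
      have : Reach P w q.pt := hq'
      simp [hq.1, this, h7]
    · have h8 : Pt.pt ⁻¹' {y | Reach P w y} ∉ 𝒱 := fun h => h7 (h6.mp h)
      have h9 := (𝒱.compl_mem_iff_notMem).mpr h8
      filter_upwards [h9] with q hq
      have : ¬ Reach P w q.pt := hq
      simp [this, h7]

open Classical in
include hwf hfin in
theorem nhds_eq (p : Pt P) : 𝓝 p = Filter.comap Pt.pt (𝓝 p.pt) ⊓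
    𝓟 {q | (q.b && decide (Reach P p.pt q.pt)) = p.b} := by
  apply le_antisymm
  · obtain ⟨h1, h2⟩ := (le_nhds_iff (𝓝 p) p).mp le_rfl
    refine le_inf (Filter.tendsto_iff_comap.mp h1) ?_
    rw [Filter.le_principal_iff]
    filter_upwards [h2 p.pt] with q hq
    rw [hq]
    simp [Reach.refl]
  · rw [Filter.le_iff_ultrafilter]
    intro 𝒱 h𝒱
    have h1 : (𝒱 : Filter (Pt P)) ≤ Filter.comap Pt.pt (𝓝 p.pt) := h𝒱.trans inf_le_left
    have h2 : (𝒱 : Filter (Pt P)) ≤ 𝓟 {q | (q.b && decide (Reach P p.pt q.pt)) = p.b} :=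
      h𝒱.trans inf_le_right
    exact ultra_le hwf hfin (Filter.tendsto_iff_comap.mpr h1) (Filter.le_principal_iff.mp h2)

include hwf hfin in
theorem compact : CompactSpace (Pt P) := by
  classical
  constructor
  rw [isCompact_iff_ultrafilter_le_nhds]
  intro 𝒱 _
  obtain ⟨x, -, hx⟩ := isCompact_iff_ultrafilter_le_nhds.mp (isCompact_univ (X := M))
    (𝒱.map Pt.pt) (by simp)
  have hx' : Tendsto Pt.pt (𝒱 : Filter (Pt P)) (𝓝 x) := hx
  rcases 𝒱.mem_or_compl_mem {q : Pt P | (q.b && decide (Reach P x q.pt)) = true} with h | h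
  · exact ⟨⟨x, true⟩, mem_univ _, ultra_le hwf hfin hx' h⟩
  · refine ⟨⟨x, false⟩, mem_univ _, ultra_le hwf hfin hx' ?_⟩
    filter_upwards [h] with q hq
    simpa using hq

include hwf hfin in
theorem firstCountable : FirstCountableTopology (Pt P) := by
  classical
  constructor
  intro p
  rw [nhds_eq hwf hfin p]
  infer_instance

end

theorem reach_countable {P : M → Set M} (hwf : WellFounded (fun a w => a ∈ P w))
    (hc : ∀ w, (P w).Countable) (w : M) : {x | Reach P w x}.Countable := by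
  induction w using hwf.induction with
  | _ w ih =>
    have h1 : {x | Reach P w x} ⊆ {w} ∪ ⋃ a ∈ P w, {x | Reach P a x} := by
      intro x hx
      by_cases hxw : x = w
      · exact Or.inl hxw
      · obtain ⟨a, ha, hr⟩ := (reach_iff hxw).mp hx
        exact Or.inr (mem_biUnion ha.1 hr)
    exact ((countable_singleton w).union ((hc w).biUnion fun a ha => ih a ha)).mono h1

theorem uncountable_M : ¬ (Set.univ : Set M).Countable := by
  intro h
  have h1 := Cardinal.le_aleph0_iff_set_countable.mpr h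
  rw [Cardinal.mk_univ] at h1
  have h2 : #M = 𝔠 := by simp
  rw [h2] at h1
  exact absurd h1 (not_le.mpr Cardinal.aleph0_lt_continuum)

theorem not_metrizable {P : M → Set M} (hwf : WellFounded (fun a w => a ∈ P w))
    (hc : ∀ w, (P w).Countable)
    (hfin : ∀ w l, {a | a ∈ P w ∧ a ≠ w ∧ fd a w = l}.Finite) : ¬ MetrizableSpace (Pt P) := by
  classical
  intro hmet
  have hcomp := compact hwf hfin
  let _ := TopologicalSpace.metrizableSpaceMetric (Pt P)
  have h1 : ∀ w : M, IsOpen {p : Pt P | (p.b && decide (Reach P w p.pt)) = true} := by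
    intro w
    have h2 : Continuous fun p : Pt P => (p.b && decide (Reach P w p.pt)) :=
      (continuous_apply w).comp (continuous_snd.comp (coord_isEmbedding P).continuous)
    exact (isOpen_discrete {true}).preimage h2
  obtain ⟨T, hT, hTe⟩ := TopologicalSpace.isOpen_iUnion_countable _ h1
  apply uncountable_M
  have h2 : (Set.univ : Set M) ⊆ ⋃ w ∈ T, {x | Reach P w x} := by
    intro x _
    have h3 : (⟨x, true⟩ : Pt P) ∈ ⋃ w, {p : Pt P | (p.b && decide (Reach P w p.pt)) = true} :=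
      mem_iUnion.mpr ⟨x, by simp [Reach.refl]⟩
    rw [← hTe] at h3
    obtain ⟨w, hw, h4⟩ := mem_iUnion₂.mp h3
    refine mem_biUnion hw ?_
    simpa using h4
  exact (hT.biUnion fun w _ => reach_countable hwf hc w).mono h2

/-! ### Point-finite families in the function space -/

section Final

variable {P : M → Set M}

/-- The main property: an uncountable set of injective tuples of points of the space accumulates at an
injective tuple. -/
theorem accumulate (hwf : WellFounded (fun a w => a ∈ P w))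
    (hfin : ∀ w l, {a | a ∈ P w ∧ a ≠ w ∧ fd a w = l}.Finite)
    (hP : ∀ (n : ℕ) (S : Set (Fin n → M)), ¬ S.Countable → ∃ (z : Fin n → M) (a : ℕ → Fin n → M),
      (∀ k, a k ∈ S) ∧ (∀ k, a k ≠ z) ∧ (∀ i, Tendsto (fun k => a k i) atTop (𝓝 (z i))) ∧
      (∀ i k, a k i = z i ∨ a k i ∈ P (z i)) ∧ (∀ i i', z i = z i' → ∀ k, a k i = a k i'))
    {n : ℕ} (S : Set (Fin n → Pt P)) (hinj : ∀ s ∈ S, Function.Injective s) (hS : ¬ S.Countable) :
    ∃ (z : Fin n → Pt P) (a : ℕ → Fin n → Pt P), Function.Injective z ∧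
      (∀ k, a k ∈ S) ∧ (∀ k, a k ≠ z) ∧ Tendsto a atTop (𝓝 z) := by
  classical
  -- fix the second coordinates
  obtain ⟨b, hb⟩ : ∃ b : Fin n → Bool, ¬ (S ∩ (fun s => fun i => (s i).b) ⁻¹' {b}).Countable := by
    by_contra hcon
    push Not at hcon
    apply hS
    refine (Set.countable_iUnion hcon).mono ?_
    intro s hs
    exact mem_iUnion.mpr ⟨fun i => (s i).b, hs, rfl⟩
  let S' : Set (Fin n → M) := (fun s => fun i => (s i).pt) '' (S ∩ (fun s => fun i => (s i).b) ⁻¹' {b})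
  have hback : ∀ t ∈ S', (fun i => (⟨t i, b i⟩ : Pt P)) ∈ S := by
    rintro _ ⟨s, ⟨hs, hsb⟩, rfl⟩
    have : (fun i => (⟨(s i).pt, b i⟩ : Pt P)) = s := by
      funext i
      rw [← congrFun hsb i]
    rw [this]
    exact hs
  have hS' : ¬ S'.Countable := by
    intro h
    apply hb
    refine Set.countable_of_injective_of_countable_image ?_ h
    intro s hs t ht hst
    funext i
    have h1 : (s i).pt = (t i).pt := congrFun hst i
    have h2 : (s i).b = (t i).b := by
      have e1 : (s i).b = b i := congrFun hs.2 i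
      have e2 : (t i).b = b i := congrFun ht.2 i
      rw [e1, e2]
    cases hsi : s i
    cases hti : t i
    rw [hsi, hti] at h1 h2
    simp only at h1 h2
    rw [h1, h2]
  obtain ⟨z, a, h1, h2, h3, h4, h5⟩ := hP n S' hS'
  refine ⟨fun i => ⟨z i, b i⟩, fun k i => ⟨a k i, b i⟩, ?_, fun k => hback _ (h1 k), ?_, ?_⟩
  · intro i j hij
    simp only [Pt.mk.injEq] at hij
    have h6 := h5 i j hij.1 0
    apply hinj _ (hback _ (h1 0))
    simp only [h6, hij.2]
  · intro k hk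
    apply h2 k
    funext i
    have := congrFun hk i
    simp only [Pt.mk.injEq] at this
    exact this.1
  · rw [tendsto_pi_nhds]
    intro i
    rw [Tendsto, nhds_eq hwf hfin]
    refine le_inf (Filter.tendsto_iff_comap.mp (show Tendsto Pt.pt
      (Filter.map (fun k => (⟨a k i, b i⟩ : Pt P)) atTop) (𝓝 (z i)) from ?_)) ?_
    · rw [Filter.tendsto_map'_iff]
      exact h3 i
    · rw [Filter.le_principal_iff, Filter.mem_map]
      refine Filter.univ_mem' fun k => ?_
      have h6 : Reach P (z i) (a k i) := by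
        rcases h4 i k with h | h
        · rw [h]
          exact Reach.refl _
        · by_cases hne : a k i = z i
          · rw [hne]
            exact Reach.refl _
          · exact Reach.step _ _ _ h hne hne rfl (Reach.refl _)
      simp [h6]

/-- Basic neighbourhoods in `C_p`. -/
theorem exists_basic {X : Type} [TopologicalSpace X] {U : Set C(X, ℝ)}
    (hU : @IsOpen C(X, ℝ)
            (TopologicalSpace.induced (fun f : C(X, ℝ) => (f : X → ℝ)) inferInstance) U)
    {h : C(X, ℝ)} (hh : h ∈ U) :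
    ∃ (E : Finset X) (δ : ℝ), 0 < δ ∧
      ∀ g : C(X, ℝ), (∀ p ∈ E, |g p - h p| < δ) → g ∈ U := by
  classical
  obtain ⟨V, hV, rfl⟩ := isOpen_induced_iff.mp hU
  obtain ⟨E, u, hu, huV⟩ := isOpen_pi_iff.mp hV h hh
  have hball : ∀ p : X, ∃ ε : ℝ, 0 < ε ∧ (p ∈ E → Metric.ball (h p) ε ⊆ u p) := by
    intro p
    by_cases hp : p ∈ E
    · obtain ⟨ε, hε, hb⟩ := Metric.isOpen_iff.mp (hu p hp).1 _ (hu p hp).2
      exact ⟨ε, hε, fun _ => hb⟩
    · exact ⟨1, one_pos, fun h => absurd h hp⟩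
  choose ε hε hεb using hball
  obtain ⟨δ, hδ, hδE⟩ : ∃ δ : ℝ, 0 < δ ∧ ∀ p ∈ E, δ ≤ ε p := by
    by_cases hE : E.Nonempty
    · refine ⟨E.inf' hE ε, ?_, fun p hp => Finset.inf'_le _ hp⟩
      rw [Finset.lt_inf'_iff]
      exact fun p _ => hε p
    · refine ⟨1, one_pos, fun p hp => absurd ⟨p, hp⟩ hE⟩
  refine ⟨E, δ, hδ, fun g hg => ?_⟩
  apply huV
  intro p hp
  apply hεb p hp
  rw [Metric.mem_ball, Real.dist_eq]
  exact (hg p hp).trans_le (hδE p hp)

/-- Interpolation of finitely many values by a continuous function on a Tychonoff space. -/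
theorem exists_interp {X : Type} [TopologicalSpace X] [T35Space X] {n : ℕ} (e : Fin n → X)
    (he : Function.Injective e) (q : Fin n → ℝ) : ∃ g : C(X, ℝ), ∀ k : Fin n, g (e k) = q k := by
  classical
  have h1 : ∀ k : Fin n, ∃ f : X → ℝ, Continuous f ∧ f (e k) = 1 ∧
      ∀ l : Fin n, l ≠ k → f (e l) = 0 := by
    intro k
    have hfin : (e '' {l | l ≠ k}).Finite := (Set.toFinite _).image _
    obtain ⟨f, hf, hf0, hf1⟩ := CompletelyRegularSpace.completely_regular (e k)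
      (e '' {l | l ≠ k}) hfin.isClosed (by
        rintro ⟨l, hl, hlk⟩
        exact hl (he hlk))
    refine ⟨fun x => 1 - (f x : ℝ), by fun_prop, by simp [hf0], ?_⟩
    intro l hl
    have := hf1 (mem_image_of_mem e (show l ∈ {l | l ≠ k} from hl))
    simp [this]
  choose f hf hf1 hf0 using h1
  refine ⟨⟨fun x => ∑ k : Fin n, q k * f k x, by fun_prop⟩, ?_⟩
  intro k
  simp only [ContinuousMap.coe_mk]
  rw [Finset.sum_eq_single k]
  · simp [hf1]
  · intro l _ hl
    rw [hf0 l k hl.symm, mul_zero]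
  · simp

/-- Accumulation of uncountable sets of injective tuples implies that point-finite families of
nonempty open sets are countable. -/
theorem pointFinite {X : Type} [TopologicalSpace X] [T35Space X]
    (hacc : ∀ (n : ℕ) (S : Set (Fin n → X)), (∀ s ∈ S, Function.Injective s) → ¬ S.Countable →
      ∃ (z : Fin n → X) (a : ℕ → Fin n → X), Function.Injective z ∧
        (∀ k, a k ∈ S) ∧ (∀ k, a k ≠ z) ∧ Tendsto a atTop (𝓝 z))
    (F : Set (Set C(X, ℝ)))
    (hF : ∀ U ∈ F,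
          @IsOpen C(X, ℝ)
            (TopologicalSpace.induced (fun f : C(X, ℝ) => (f : X → ℝ)) inferInstance) U
          ∧ U.Nonempty)
    (hpf : ∀ f : C(X, ℝ), {U | U ∈ F ∧ f ∈ U}.Finite) : F.Countable := by
  classical
  by_contra hunc
  -- types
  have htype : ∀ U : Set C(X, ℝ), ∃ t : (n : ℕ) × ((Fin n → ℚ) × ℚ), U ∈ F →
      ∃ e : Fin t.1 → X, Function.Injective e ∧ (0 : ℝ) < t.2.2 ∧
        ∀ g : C(X, ℝ), (∀ k, |g (e k) - t.2.1 k| < t.2.2) → g ∈ U := by
    intro U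
    by_cases hU : U ∈ F
    · obtain ⟨f, hf⟩ := (hF U hU).2
      obtain ⟨E, δ, hδ, hE⟩ := exists_basic (hF U hU).1 hf
      obtain ⟨δ', hδ'0, hδ'⟩ := exists_rat_btwn (show (0 : ℝ) < δ / 2 by linarith)
      let e : Fin E.card → X := fun k => (E.equivFin.symm k : X)
      have he : Function.Injective e := Subtype.val_injective.comp E.equivFin.symm.injective
      have hq : ∀ k : Fin E.card, ∃ q : ℚ, |(q : ℝ) - f (e k)| < δ / 2 := by
        intro k
        obtain ⟨q, hq1, hq2⟩ := exists_rat_btwn (show f (e k) - δ / 2 < f (e k) + δ / 2 by linarith)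
        exact ⟨q, by rw [abs_lt]; constructor <;> linarith⟩
      choose q hq using hq
      refine ⟨⟨E.card, q, δ'⟩, fun _ => ⟨e, he, hδ'0, ?_⟩⟩
      intro g hg
      apply hE
      intro x hx
      have hex : e (E.equivFin ⟨x, hx⟩) = x := by simp [e]
      have h3 := hq (E.equivFin ⟨x, hx⟩)
      have h4 := hg (E.equivFin ⟨x, hx⟩)
      simp only at h4
      rw [hex] at h3 h4
      have h5 := abs_add_le (g x - (q (E.equivFin ⟨x, hx⟩) : ℝ)) ((q (E.equivFin ⟨x, hx⟩) : ℝ) - f x)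
      have h6 : g x - (q (E.equivFin ⟨x, hx⟩) : ℝ) + ((q (E.equivFin ⟨x, hx⟩) : ℝ) - f x) =
          g x - f x := by ring
      rw [h6] at h5
      linarith
    · exact ⟨⟨0, fun _ => 0, 0⟩, fun h => absurd h hU⟩
  choose t ht using htype
  obtain ⟨⟨n, q, δ⟩, hS⟩ : ∃ b, ¬ (F ∩ t ⁻¹' {b}).Countable := by
    by_contra hcon
    push Not at hcon
    apply hunc
    refine (Set.countable_iUnion hcon).mono ?_
    intro U hU
    exact mem_iUnion.mpr ⟨t U, hU, rfl⟩
  have hu : ∀ U : (F ∩ t ⁻¹' {⟨n, q, δ⟩} : Set (Set C(X, ℝ))), ∃ e : Fin n → X,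
      Function.Injective e ∧ (0 : ℝ) < δ ∧
      ∀ g : C(X, ℝ), (∀ k, |g (e k) - q k| < δ) → g ∈ (U : Set C(X, ℝ)) := by
    intro U
    have h3 := ht U U.2.1
    have h4 : t U = ⟨n, q, δ⟩ := U.2.2
    rw [h4] at h3
    exact h3
  choose e he hδ hg using hu
  -- every tuple occurs finitely often
  have hfib : ∀ s : Fin n → X, (e ⁻¹' {s}).Finite := by
    intro s
    by_cases hne : (e ⁻¹' {s}).Nonempty
    · obtain ⟨U₀, hU₀⟩ := hne
      obtain ⟨g, hgq⟩ := exists_interp (e U₀) (he U₀) (fun k => (q k : ℝ))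
      have h1 : Subtype.val '' (e ⁻¹' {s}) ⊆ {U | U ∈ F ∧ g ∈ U} := by
        rintro _ ⟨U, hU, rfl⟩
        refine ⟨U.2.1, hg U g fun k => ?_⟩
        have h2 : e U = e U₀ := by
          rw [show e U = s from hU, show e U₀ = s from hU₀]
        rw [h2, hgq k]
        simpa using hδ U₀
      exact Set.Finite.of_finite_image ((hpf g).subset h1) Subtype.val_injective.injOn
    · rw [not_nonempty_iff_eq_empty] at hne
      rw [hne]
      exact Set.finite_empty
  have hrange : ¬ (range e).Countable := by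
    intro h
    apply hS
    have h1 : (Set.univ : Set (F ∩ t ⁻¹' {⟨n, q, δ⟩} : Set (Set C(X, ℝ)))).Countable := by
      refine (h.biUnion fun s _ => (hfib s).countable).mono ?_
      intro U _
      exact mem_biUnion (mem_range_self U) rfl
    have h2 := h1.image Subtype.val
    rwa [image_univ, Subtype.range_coe] at h2
  obtain ⟨z, a, hz, haS, haz, hlim⟩ := hacc n (range e) (by
    rintro _ ⟨U, rfl⟩
    exact he U) hrange
  obtain ⟨g, hgq⟩ := exists_interp z hz (fun k => (q k : ℝ))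
  have hδ0 : (0 : ℝ) < δ := by
    obtain ⟨U, -⟩ := haS 0
    exact hδ U
  have hev : ∀ᶠ j in atTop, ∀ k, |g (a j k) - q k| < δ := by
    rw [eventually_all]
    intro k
    have h1 : Tendsto (fun j => g (a j k)) atTop (𝓝 (g (z k))) :=
      (g.continuous.tendsto _).comp ((tendsto_pi_nhds.mp hlim) k)
    rw [hgq k] at h1
    have h2 := (Metric.tendsto_nhds.mp h1) δ hδ0
    simpa only [Real.dist_eq] using h2
  choose U hU using haS
  -- infinitely many members of the family contain `g`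
  have hinf : {s | ∃ j, s = a j ∧ ∀ k, |g (a j k) - q k| < δ}.Infinite := by
    intro hfin
    have h1 : (⋂ s ∈ {s | ∃ j, s = a j ∧ ∀ k, |g (a j k) - q k| < δ}, {s}ᶜ) ∈ 𝓝 z := by
      rw [Filter.biInter_mem hfin]
      rintro s ⟨j, rfl, -⟩
      exact isOpen_compl_singleton.mem_nhds (haz j).symm
    obtain ⟨j, hj1, hj2⟩ := ((hlim.eventually h1).and hev).exists
    have h3 := mem_iInter₂.mp hj1 (a j) ⟨j, rfl, hj2⟩
    exact h3 rfl
  apply hinf
  have h1 : {s | ∃ j, s = a j ∧ ∀ k, |g (a j k) - q k| < δ} ⊆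
      e '' {V | g ∈ (V : Set C(X, ℝ))} := by
    rintro s ⟨j, rfl, hj⟩
    refine ⟨U j, ?_, hU j⟩
    apply hg (U j) g
    intro k
    rw [hU j]
    exact hj k
  refine Set.Finite.subset (Set.Finite.image e ?_) h1
  refine Set.Finite.of_finite_image ((hpf g).subset ?_) (Subtype.val_injective.injOn)
  rintro _ ⟨V, hV, rfl⟩
  exact ⟨V.2.1, hV⟩

end Final

/-- There is a compact Hausdorff, first countable, non-metrizable space X such that every point-finite family of nonempty open sets in C_p(X) (continuous real functions, pointwise topology) is countable. -/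
theorem result :
    ∃ (X : Type) (t : TopologicalSpace X),
      CompactSpace X ∧ T2Space X ∧ FirstCountableTopology X ∧
      ¬ MetrizableSpace X ∧
      ∀ F : Set (Set C(X, ℝ)),
        (∀ U ∈ F,
          @IsOpen C(X, ℝ)
            (TopologicalSpace.induced (fun f : C(X, ℝ) => (f : X → ℝ)) inferInstance) U
          ∧ U.Nonempty) →
        (∀ f : C(X, ℝ), {U | U ∈ F ∧ f ∈ U}.Finite) →
        F.Countable := by
  obtain ⟨P, hwf, hc, hfin, hP⟩ := exists_P
  have := compact hwf hfin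
  refine ⟨Pt P, inferInstance, this, inferInstance, firstCountable hwf hfin,
    not_metrizable hwf hc hfin, ?_⟩
  intro F hF hpf
  exact pointFinite (fun n S hinj hS => accumulate hwf hfin hP S hinj hS) F hF hpf

end Pool.Agent.S08813
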