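import Pool.Statements.S08816
import Pool.Agent.Helper98.Asm

set_option autoImplicit false
open Pointwise
open Pool Pool.MP_ad59b4_gt

namespace Pool.Agent.S08816

/-- The negation of the preceding statement: For convex bodies K1, K2 in R^n of dimension at least k+1, K2 centrally symmetric: if the i-th and j-th intrinsic volumes (via Steiner coefficients) of all k-dim projections are proportional with fixed constants, then K1 is a positive homothet of K2. -/
theorem result :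
    ¬ (∀ (n k i j : ℕ), 1 ≤ k → k ≤ n - 1 → 1 ≤ i → i ≤ k → 1 ≤ j → j ≤ k → i ≠ j →
  ∀ (K₁ K₂ : Set (EuclideanSpace ℝ (Fin n))),
    IsCompact K₁ → Convex ℝ K₁ → k + 1 ≤ Module.finrank ℝ (vectorSpan ℝ K₁) →
    IsCompact K₂ → Convex ℝ K₂ → k + 1 ≤ Module.finrank ℝ (vectorSpan ℝ K₂) →
    (∃ c : EuclideanSpace ℝ (Fin n), ∀ x ∈ K₂, (2 : ℝ) • c - x ∈ K₂) →
    ∀ a b : ℝ,
    (∀ S : Submodule ℝ (EuclideanSpace ℝ (Fin n)), Module.finrank ℝ S = k →
      ∃ c₁ c₂ : ℕ → ℝ,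
        (∀ t : ℝ, 0 ≤ t →
          MeasureTheory.volume
            ({y : EuclideanSpace ℝ (Fin n) | y ∈ S ∧ ∃ x ∈ K₁, x - y ∈ Sᗮ}
              + Metric.closedBall (0 : EuclideanSpace ℝ (Fin n)) t)
            = ENNReal.ofReal (∑ m ∈ Finset.range (n + 1), c₁ m * t ^ m)) ∧
        (∀ t : ℝ, 0 ≤ t →
          MeasureTheory.volume
            ({y : EuclideanSpace ℝ (Fin n) | y ∈ S ∧ ∃ x ∈ K₂, x - y ∈ Sᗮ}
              + Metric.closedBall (0 : EuclideanSpace ℝ (Fin n)) t)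
            = ENNReal.ofReal (∑ m ∈ Finset.range (n + 1), c₂ m * t ^ m)) ∧
        c₁ (n - i) = a * c₂ (n - i) ∧
        c₁ (n - j) = b * c₂ (n - j)) →
    ∃ r : ℝ, 0 < r ∧ ∃ v : EuclideanSpace ℝ (Fin n),
      K₁ = (fun x => r • x + v) '' K₂) := by
  exact Pool.Agent.Helper98.Asm.main_result

end Pool.Agent.S08816
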