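import Pool.Statements.S08818

/-
A counterexample in ZFC, with no cardinal assumption. For every site l the points of the site are
the pairs (s, A) with s a finite sequence of naturals, A a subset of Fin (l+1) and
length s + card A at most l; basic neighbourhoods of (s, A) collect the (s ++ i :: r, B) with i large
and B inside A. X has a copy of the site l in each of l+1 sheets, Y identifies the sheets.
The points z c are indexed by all functions c on the set of all neighbourhood assignments phi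
(together with one extra coordinate per site, which chooses the sheet containing c),
and b c i are isolated points converging to z c. A neighbourhood of (l, (s,A), w) contains all z c
of the sheet w whose coordinates at finitely many phi, none of them hitting s, are large, together with
the tails of their sequences b c i from n on, where n is zero if w is in A.
The closed sets (Hit phi) of sites have the finite intersection property up to size l, but lie in all
the open sets of points dominated by a point whose A contains w, w any sheet.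
X is orthocompact by an explicit transitive neighbourhood assignment; Y is not, by a Baire category
argument in the product of countable discrete spaces.
-/

set_option autoImplicit false
open Pool Pool.MP_adc54a_gt

namespace Pool.Agent.S08818

/-- Functions assigning to every site and every finite sequence a natural number. -/
abbrev Phi : Type := ℕ → List ℕ → ℕ

/-- Index set of the coordinates of the limit points. -/
abbrev Idx : Type := Phi ⊕ ℕ

/-- s properly extends p and the next entry is at least j. -/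
def Bel (j : ℕ) (p s : List ℕ) : Prop := ∃ i r, s = p ++ i :: r ∧ j ≤ i

/-- no entry of p reaches the value of f at the preceding initial segment. -/
def NoR (f : List ℕ → ℕ) (p : List ℕ) : Prop := ∀ q j r, p = q ++ j :: r → j < f q

/-- the first entry reaching f is equal to f. -/
def Hit (f : List ℕ → ℕ) (s : List ℕ) : Prop := ∃ p r, s = p ++ f p :: r ∧ NoR f p

theorem not_hit_ext {f : List ℕ → ℕ} {s : List ℕ} (hs : ¬ Hit f s) {i : ℕ} (hi : f s < i)
    (r : List ℕ) : ¬ Hit f (s ++ i :: r) := by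
  rintro ⟨p, r', h, hp⟩
  rw [List.append_eq_append_iff] at h
  rcases h with ⟨a, h1, h2⟩ | ⟨c, h1, h2⟩
  · cases a with
    | nil =>
      simp only [List.append_nil] at h1
      simp only [List.nil_append, List.cons.injEq] at h2
      subst h1
      omega
    | cons b a' =>
      simp only [List.cons_append, List.cons.injEq] at h2
      obtain ⟨h3, h4⟩ := h2
      subst h3
      have := hp s i a' h1
      omega
  · cases c with
    | nil =>
      simp only [List.append_nil] at h1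
      simp only [List.nil_append, List.cons.injEq] at h2
      subst h1
      omega
    | cons b c' =>
      simp only [List.cons_append, List.cons.injEq] at h2
      obtain ⟨h3, h4⟩ := h2
      subst h3
      exact hs ⟨p, c', h1, hp⟩

theorem exists_hit (l : ℕ) : ∀ (m : ℕ) (E : Finset Phi) (s : List ℕ), E.card ≤ m →
    (∀ φ ∈ E, NoR (φ l) s) → ∃ r : List ℕ, r.length ≤ m ∧ ∀ φ ∈ E, Hit (φ l) (s ++ r) := by
  classical
  intro m
  induction m with
  | zero =>
    intro E s hE _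
    have : E = ∅ := Finset.card_eq_zero.mp (Nat.le_zero.mp hE)
    subst this
    exact ⟨[], le_refl _, by simp⟩
  | succ m ih =>
    intro E s hE hN
    by_cases hne : E.Nonempty
    · obtain ⟨φ0, h0, hmin⟩ := Finset.exists_min_image E (fun φ => φ l s) hne
      set j := φ0 l s with hj
      have hcard : (E.filter (fun φ => j < φ l s)).card ≤ m := by
        have hsub : E.filter (fun φ => j < φ l s) ⊆ E.erase φ0 := by
          intro φ hφ
          rw [Finset.mem_filter] at hφ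
          rw [Finset.mem_erase]
          refine ⟨?_, hφ.1⟩
          rintro rfl
          exact lt_irrefl _ hφ.2
        have h1 := Finset.card_le_card hsub
        rw [Finset.card_erase_of_mem h0] at h1
        omega
      obtain ⟨r, hr, hH⟩ := ih (E.filter (fun φ => j < φ l s)) (s ++ [j]) hcard (by
        intro φ hφ q i r hq
        rw [Finset.mem_filter] at hφ
        rw [List.append_eq_append_iff] at hq
        rcases hq with ⟨a, h1, h2⟩ | ⟨c, h1, h2⟩
        · cases a with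
          | nil =>
            simp only [List.append_nil] at h1
            simp only [List.nil_append, List.cons.injEq] at h2
            rw [h1, ← h2.1]
            exact hφ.2
          | cons b a' =>
            simp only [List.cons_append, List.cons.injEq] at h2
            have := h2.2
            simp at this
        · cases c with
          | nil =>
            simp only [List.append_nil] at h1
            simp only [List.nil_append, List.cons.injEq] at h2
            rw [← h1, h2.1]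
            exact hφ.2
          | cons b c' =>
            simp only [List.cons_append, List.cons.injEq] at h2
            obtain ⟨h3, h4⟩ := h2
            subst h3
            exact hN φ hφ.1 q i c' h1)
      refine ⟨j :: r, by simpa using hr, ?_⟩
      intro φ hφ
      rcases lt_or_ge j (φ l s) with hlt | hge
      · have := hH φ (Finset.mem_filter.mpr ⟨hφ, hlt⟩)
        simpa using this
      · have he : φ l s = j := le_antisymm hge (hmin φ hφ)
        refine ⟨s, r, ?_, hN φ hφ⟩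
        rw [he]
    · rw [Finset.not_nonempty_iff_eq_empty] at hne
      subst hne
      exact ⟨[], by simp, by simp⟩

/-- points of a site -/
structure Pt (l : ℕ) where
  s : List ℕ
  A : Finset (Fin (l + 1))
  h : s.length + A.card ≤ l

/-- basic neighbourhoods of points of a site -/
def Below {l : ℕ} (j : ℕ) (x x' : Pt l) : Prop := x' = x ∨ (Bel j x.s x'.s ∧ x'.A ⊆ x.A)

theorem Below.refl {l : ℕ} (j : ℕ) (x : Pt l) : Below j x x := Or.inl rfl

theorem Bel.mono {i j : ℕ} (hij : i ≤ j) {p s : List ℕ} (h : Bel j p s) : Bel i p s := by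
  obtain ⟨k, r, h1, h2⟩ := h
  exact ⟨k, r, h1, hij.trans h2⟩

theorem Below.mono {l : ℕ} {i j : ℕ} (hij : i ≤ j) {x x' : Pt l} (h : Below j x x') :
    Below i x x' := by
  rcases h with h | ⟨h1, h2⟩
  · exact Or.inl h
  · exact Or.inr ⟨h1.mono hij, h2⟩

theorem Bel.trans {i j : ℕ} {p s t : List ℕ} (h : Bel i p s) (h' : Bel j s t) : Bel i p t := by
  obtain ⟨a, r, h1, h2⟩ := h
  obtain ⟨b, r', h3, h4⟩ := h'
  refine ⟨a, r ++ b :: r', ?_, h2⟩
  rw [h3, h1]
  simp

theorem Bel.pref {i : ℕ} {p s : List ℕ} (h : Bel i p s) : p <+: s := by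
  obtain ⟨a, r, h1, h2⟩ := h
  exact ⟨a :: r, h1.symm⟩

theorem Below.pref {l i : ℕ} {x x' : Pt l} (h : Below i x x') : x.s <+: x'.s := by
  rcases h with h | ⟨h1, h2⟩
  · rw [h]
  · exact h1.pref

theorem Below.sub {l i : ℕ} {x x' : Pt l} (h : Below i x x') : x'.A ⊆ x.A := by
  rcases h with h | ⟨h1, h2⟩
  · rw [h]
  · exact h2

/-- the space X -/
inductive X : Type
  | t (l : ℕ) (x : Pt l) (w : Fin (l + 1)) : X
  | z (c : Idx → ℕ) : X
  | b (c : Idx → ℕ) (i : ℕ) : X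

/-- the space Y -/
inductive Y : Type
  | t (l : ℕ) (x : Pt l) : Y
  | z (c : Idx → ℕ) : Y
  | b (c : Idx → ℕ) (i : ℕ) : Y

/-- the map -/
def f : X → Y
  | X.t l x _ => Y.t l x
  | X.z c => Y.z c
  | X.b c i => Y.b c i

/-- the sheet of the site l containing c -/
def sheet (l : ℕ) (c : Idx → ℕ) : Fin (l + 1) := ⟨min (c (Sum.inr l)) l, by omega⟩

/-- a finite-to-one weight -/
def e (l : ℕ) (s : List ℕ) : ℕ := s.inits.toFinset.sup (fun p => Encodable.encode (l, p))

theorem e_mono (l : ℕ) {s t : List ℕ} (h : s <+: t) : e l s ≤ e l t := by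
  unfold e
  apply Finset.sup_mono
  intro p hp
  rw [List.mem_toFinset, List.mem_inits] at hp ⊢
  exact hp.trans h

theorem encode_le_e (l : ℕ) (s : List ℕ) : Encodable.encode (l, s) ≤ e l s := by
  unfold e
  exact Finset.le_sup (f := fun p => Encodable.encode (l, p))
    (by rw [List.mem_toFinset, List.mem_inits])

/-- open subsets of X -/
def OpX (W : Set X) : Prop :=
  (∀ (l : ℕ) (x : Pt l) (w : Fin (l + 1)), X.t l x w ∈ W →
    ∃ (j : ℕ) (F : Set Phi) (n : ℕ), F.Finite ∧ (∀ φ ∈ F, ¬ Hit (φ l) x.s) ∧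
      (w ∈ x.A → n = 0) ∧ (∀ x', Below j x x' → X.t l x' w ∈ W) ∧
      (∀ c, sheet l c = w → (∀ φ ∈ F, e l x.s < c (Sum.inl φ)) →
        X.z c ∈ W ∧ ∀ i, n ≤ i → X.b c i ∈ W)) ∧
  (∀ c, X.z c ∈ W → ∃ m : ℕ, ∀ i, m ≤ i → X.b c i ∈ W)

instance : TopologicalSpace X where
  IsOpen := OpX
  isOpen_univ := by
    refine ⟨fun l x w _ => ⟨0, ∅, 0, Set.finite_empty, by simp, fun _ => rfl, ?_, ?_⟩,
      fun c _ => ⟨0, fun i _ => trivial⟩⟩
    · intro x' _
      trivial
    · intro c _ _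
      exact ⟨trivial, fun i _ => trivial⟩
  isOpen_inter := by
    rintro U V ⟨hU1, hU2⟩ ⟨hV1, hV2⟩
    refine ⟨?_, ?_⟩
    · rintro l x w ⟨hu, hv⟩
      obtain ⟨j, F, n, hF, hH, hn, hb, hc⟩ := hU1 l x w hu
      obtain ⟨j', F', n', hF', hH', hn', hb', hc'⟩ := hV1 l x w hv
      refine ⟨max j j', F ∪ F', max n n', hF.union hF', ?_, ?_, ?_, ?_⟩
      · rintro φ (h | h)
        · exact hH φ h
        · exact hH' φ h
      · intro hw
        rw [hn hw, hn' hw]
        rfl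
      · intro x' hx'
        exact ⟨hb x' (hx'.mono (le_max_left _ _)), hb' x' (hx'.mono (le_max_right _ _))⟩
      · intro c hs hg
        obtain ⟨h1, h2⟩ := hc c hs (fun φ hφ => hg φ (Or.inl hφ))
        obtain ⟨h3, h4⟩ := hc' c hs (fun φ hφ => hg φ (Or.inr hφ))
        exact ⟨⟨h1, h3⟩, fun i hi => ⟨h2 i ((le_max_left _ _).trans hi),
          h4 i ((le_max_right _ _).trans hi)⟩⟩
    · rintro c ⟨hu, hv⟩
      obtain ⟨m, hm⟩ := hU2 c hu
      obtain ⟨m', hm'⟩ := hV2 c hv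
      exact ⟨max m m', fun i hi => ⟨hm i ((le_max_left _ _).trans hi),
        hm' i ((le_max_right _ _).trans hi)⟩⟩
  isOpen_sUnion := by
    intro S hS
    refine ⟨?_, ?_⟩
    · rintro l x w ⟨U, hUS, hu⟩
      obtain ⟨j, F, n, hF, hH, hn, hb, hc⟩ := (hS U hUS).1 l x w hu
      refine ⟨j, F, n, hF, hH, hn, ?_, ?_⟩
      · intro x' hx'
        exact ⟨U, hUS, hb x' hx'⟩
      · intro c hs hg
        obtain ⟨h1, h2⟩ := hc c hs hg
        exact ⟨⟨U, hUS, h1⟩, fun i hi => ⟨U, hUS, h2 i hi⟩⟩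
    · rintro c ⟨U, hUS, hu⟩
      obtain ⟨m, hm⟩ := (hS U hUS).2 c hu
      exact ⟨m, fun i hi => ⟨U, hUS, hm i hi⟩⟩

theorem isOpen_X {W : Set X} : IsOpen W ↔ OpX W := Iff.rfl

instance : TopologicalSpace Y := TopologicalSpace.coinduced f inferInstance

theorem isOpen_Y {W : Set Y} : IsOpen W ↔ OpX (f ⁻¹' W) := Iff.rfl

theorem f_cont : Continuous f := continuous_coinduced_rng

theorem f_surj : Function.Surjective f := by
  rintro (⟨l, x⟩ | c | ⟨c, i⟩)
  · exact ⟨X.t l x 0, rfl⟩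
  · exact ⟨X.z c, rfl⟩
  · exact ⟨X.b c i, rfl⟩

theorem f_fin (y : Y) : (f ⁻¹' {y}).Finite := by
  rcases y with (⟨l, x⟩ | c | ⟨c, i⟩)
  · apply (Set.finite_range (fun w => X.t l x w)).subset
    rintro (⟨l', x', w⟩ | c | ⟨c, i⟩) h
    · simp only [f, Set.mem_preimage, Set.mem_singleton_iff, Y.t.injEq] at h
      obtain ⟨rfl, h2⟩ := h
      obtain rfl := eq_of_heq h2
      exact ⟨w, rfl⟩
    · simp [f] at h
    · simp [f] at h
  · apply (Set.finite_singleton (X.z c)).subset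
    rintro (⟨l', x', w⟩ | c | ⟨c, i⟩) h
    · simp [f] at h
    · simp only [f, Set.mem_preimage, Set.mem_singleton_iff, Y.z.injEq] at h
      rw [h]
      rfl
    · simp [f] at h
  · apply (Set.finite_singleton (X.b c i)).subset
    rintro (⟨l', x', w⟩ | c | ⟨c, i⟩) h
    · simp [f] at h
    · simp [f] at h
    · simp only [f, Set.mem_preimage, Set.mem_singleton_iff, Y.b.injEq] at h
      rw [h.1, h.2]
      rfl

theorem f_closed : IsClosedMap f := by
  intro C hC
  rw [← isOpen_compl_iff, isOpen_Y]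
  have hW : OpX Cᶜ := hC.isOpen_compl
  have key : ∀ (l : ℕ) (x : Pt l) (w : Fin (l + 1)),
      X.t l x w ∈ f ⁻¹' (f '' C)ᶜ ↔ ∀ w', X.t l x w' ∈ Cᶜ := by
    intro l x w
    constructor
    · intro h w' hw'
      exact h ⟨X.t l x w', hw', rfl⟩
    · rintro h ⟨ξ, hξ, he⟩
      rcases ξ with (⟨l', x', w'⟩ | c | ⟨c, i⟩)
      · simp only [f, Y.t.injEq] at he
        obtain ⟨rfl, h2⟩ := he
        obtain rfl := eq_of_heq h2
        exact h w' hξ
      · simp [f] at he
      · simp [f] at he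
  have keyz : ∀ c, X.z c ∈ f ⁻¹' (f '' C)ᶜ ↔ X.z c ∈ Cᶜ := by
    intro c
    constructor
    · intro h hc
      exact h ⟨X.z c, hc, rfl⟩
    · rintro h ⟨ξ, hξ, he⟩
      rcases ξ with (⟨l', x', w'⟩ | c | ⟨c, i⟩)
      · simp [f] at he
      · simp only [f, Y.z.injEq] at he
        subst he
        exact h hξ
      · simp [f] at he
  have keyb : ∀ c i, X.b c i ∈ f ⁻¹' (f '' C)ᶜ ↔ X.b c i ∈ Cᶜ := by
    intro c i
    constructor
    · intro h hc
      exact h ⟨X.b c i, hc, rfl⟩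
    · rintro h ⟨ξ, hξ, he⟩
      rcases ξ with (⟨l', x', w'⟩ | c | ⟨c, i⟩)
      · simp [f] at he
      · simp [f] at he
      · simp only [f, Y.b.injEq] at he
        obtain ⟨rfl, rfl⟩ := he
        exact h hξ
  refine ⟨?_, ?_⟩
  · intro l x w hx
    rw [key] at hx
    choose j F n hF hH hn hb hc using fun w' => hW.1 l x w' (hx w')
    refine ⟨∑ w', j w', F w, n w, hF w, hH w, hn w, ?_, ?_⟩
    · intro x' hx'
      rw [key]
      intro w'
      exact hb w' x' (hx'.mono (Finset.single_le_sum (fun _ _ => Nat.zero_le _)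
        (Finset.mem_univ w')))
    · intro c hs hg
      obtain ⟨h1, h2⟩ := hc w c hs hg
      exact ⟨(keyz c).mpr h1, fun i hi => (keyb c i).mpr (h2 i hi)⟩
  · intro c hc
    obtain ⟨m, hm⟩ := hW.2 c ((keyz c).mp hc)
    exact ⟨m, fun i hi => (keyb c i).mpr (hm i hi)⟩


/-! ### Orthocompactness of X -/

theorem Below.trans' {l i j : ℕ} {x y z : Pt l} (h : Below i x y) (h' : Below j y z)
    (hij : y = x → i ≤ j) : Below i x z := by
  rcases h with h | ⟨h1, h2⟩
  · have := hij h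
    subst h
    exact h'.mono this
  · rcases h' with h' | ⟨h3, h4⟩
    · subst h'
      exact Or.inr ⟨h1, h2⟩
    · exact Or.inr ⟨h1.trans h3, h4.trans h2⟩

theorem fin_s (l : ℕ) (s : List ℕ) : {x : Pt l | x.s = s}.Finite := by
  apply Set.Finite.of_injOn (f := fun x : Pt l => x.A) (t := Set.univ)
  · intro _ _
    trivial
  · rintro ⟨s1, A1, h1⟩ hx ⟨s2, A2, h2⟩ hy hxy
    simp only [Set.mem_ofPred_eq] at hx hy
    subst hx
    subst hy
    simp only at hxy
    subst hxy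
    rfl
  · exact Set.finite_univ

theorem bound_of (l : ℕ) (s : List ℕ) (g : Pt l → Fin (l + 1) → ℕ) :
    ∃ N, ∀ x : Pt l, x.s = s → ∀ w, g x w ≤ N := by
  obtain ⟨N, hN⟩ := ((fin_s l s).image (fun x => ∑ w, g x w)).bddAbove
  refine ⟨N, fun x hx w => ?_⟩
  exact (Finset.single_le_sum (f := fun w => g x w) (fun _ _ => Nat.zero_le _)
    (Finset.mem_univ w)).trans (hN ⟨x, hx, rfl⟩)

section XO

variable (φ0 : Phi)

def UpS (l : ℕ) (s : List ℕ) : Set (List ℕ) := {p | p = s ∨ Bel (φ0 l p) p s}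

def InO (l : ℕ) (x : Pt l) (w : Fin (l + 1)) : Prop :=
  ∃ x2 : Pt l, w ∈ x2.A ∧ Below (φ0 l x2.s) x2 x

def BT (l : ℕ) (x : Pt l) (w : Fin (l + 1)) : Prop :=
  ∃ x1 : Pt l, Below (φ0 l x1.s + 1) x1 x ∧ ¬ InO φ0 l x1 w

theorem UpS_pref {l : ℕ} {s p : List ℕ} (h : p ∈ UpS φ0 l s) : p <+: s := by
  rcases h with h | h
  · rw [h]
  · exact h.pref

theorem UpS_mono {l : ℕ} {x x' : Pt l} (h : Below (φ0 l x.s + 1) x x') :
    UpS φ0 l x.s ⊆ UpS φ0 l x'.s := by
  intro p hp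
  rcases h with h | ⟨h1, h2⟩
  · rw [h]
    exact hp
  · rcases hp with hp | hp
    · subst hp
      exact Or.inr (h1.mono (Nat.le_succ _))
    · exact Or.inr (hp.trans h1)

theorem hit_InO {l : ℕ} {x : Pt l} (h : Hit (φ0 l) x.s) (w : Fin (l + 1)) : InO φ0 l x w := by
  classical
  obtain ⟨p, r, hp, hn⟩ := h
  have hl : x.s.length = p.length + (r.length + 1) := by
    rw [hp]
    simp
  have hc : (insert w x.A).card ≤ x.A.card + 1 := Finset.card_insert_le _ _
  have hh := x.h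
  refine ⟨⟨p, insert w x.A, by omega⟩, Finset.mem_insert_self _ _, Or.inr ⟨⟨φ0 l p, r, hp, le_refl _⟩,
    Finset.subset_insert _ _⟩⟩

theorem BT_not_hit {l : ℕ} {x : Pt l} {w : Fin (l + 1)} (h : BT φ0 l x w) :
    ¬ Hit (φ0 l) x.s := by
  obtain ⟨x1, h1, h2⟩ := h
  have h3 : ¬ Hit (φ0 l) x1.s := fun h => h2 (hit_InO φ0 h w)
  rcases h1 with h1 | ⟨⟨i, r, h4, h5⟩, h6⟩
  · rw [h1]
    exact h3
  · rw [h4]
    exact not_hit_ext h3 (by omega) r

theorem BT_not_mem {l : ℕ} {x : Pt l} {w : Fin (l + 1)} (h : BT φ0 l x w) :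
    w ∉ x.A := by
  obtain ⟨x1, h1, h2⟩ := h
  intro hw
  exact h2 ⟨x1, h1.sub hw, Below.refl _ _⟩

theorem BT_mono {l : ℕ} {x x' : Pt l} {w : Fin (l + 1)} (h : BT φ0 l x w)
    (hx : Below (φ0 l x.s + 1) x x') : BT φ0 l x' w := by
  obtain ⟨x1, h1, h2⟩ := h
  exact ⟨x1, h1.trans' hx (fun h => by rw [h]), h2⟩

variable (F : ∀ l : ℕ, Pt l → Fin (l + 1) → Set Phi)

def Fs (l : ℕ) (s : List ℕ) : Set Phi :=
  {φ | ∃ x : Pt l, x.s ∈ UpS φ0 l s ∧ ∃ w, φ ∈ F l x w}

theorem Fs_finite (hF : ∀ l x w, (F l x w).Finite) (l : ℕ) (s : List ℕ) :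
    (Fs φ0 F l s).Finite := by
  have h1 : {p : List ℕ | p <+: s}.Finite := by
    have : {p : List ℕ | p <+: s} = {p | p ∈ s.inits} := by
      ext p
      simp [List.mem_inits]
    rw [this]
    exact List.finite_toSet _
  have h2 : (⋃ p ∈ {p : List ℕ | p <+: s}, {x : Pt l | x.s = p}).Finite :=
    h1.biUnion (fun p _ => fin_s l p)
  have h3 : (⋃ x ∈ (⋃ p ∈ {p : List ℕ | p <+: s}, {x : Pt l | x.s = p}), ⋃ w, F l x w).Finite :=
    h2.biUnion (fun x _ => Set.finite_iUnion (fun w => hF l x w))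
  apply h3.subset
  rintro φ ⟨x, hx, w, hw⟩
  simp only [Set.mem_iUnion, Set.mem_ofPred_eq]
  exact ⟨x, ⟨x.s, UpS_pref φ0 hx, rfl⟩, w, hw⟩

theorem Fs_mono {l : ℕ} {x x' : Pt l} (h : Below (φ0 l x.s + 1) x x') :
    Fs φ0 F l x.s ⊆ Fs φ0 F l x'.s := by
  rintro φ ⟨y, hy, w, hw⟩
  exact ⟨y, UpS_mono φ0 h hy, w, hw⟩

theorem Fs_not_hit (hF : ∀ l x w, ∀ φ ∈ F l x w, ¬ Hit (φ l) x.s ∧ φ l x.s < φ0 l x.s)
    {l : ℕ} {s : List ℕ} {φ : Phi} (h : φ ∈ Fs φ0 F l s) : ¬ Hit (φ l) s := by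
  obtain ⟨x, hx, w, hw⟩ := h
  obtain ⟨h1, h2⟩ := hF l x w φ hw
  rcases hx with hx | ⟨i, r, h3, h4⟩
  · rw [← hx]
    exact h1
  · rw [h3]
    exact not_hit_ext h1 (by omega) r

def nstar (n0 : ℕ → List ℕ → ℕ) (l : ℕ) (s : List ℕ) : ℕ := ∑ p ∈ s.inits.toFinset, n0 l p

theorem nstar_mono (n0 : ℕ → List ℕ → ℕ) (l : ℕ) {s t : List ℕ} (h : s <+: t) :
    nstar n0 l s ≤ nstar n0 l t := by
  unfold nstar
  apply Finset.sum_le_sum_of_subset
  intro p hp
  rw [List.mem_toFinset, List.mem_inits] at hp ⊢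
  exact hp.trans h

theorem le_nstar (n0 : ℕ → List ℕ → ℕ) (l : ℕ) (s : List ℕ) : n0 l s ≤ nstar n0 l s := by
  unfold nstar
  exact Finset.single_le_sum (f := fun p => n0 l p) (fun _ _ => Nat.zero_le _)
    (by rw [List.mem_toFinset, List.mem_inits])

variable (n0 : ℕ → List ℕ → ℕ) (I : (Idx → ℕ) → ℕ)

def Cond (l : ℕ) (x : Pt l) (w : Fin (l + 1)) (c : Idx → ℕ) : Prop :=
  sheet l c = w ∧ (∀ φ ∈ Fs φ0 F l x.s, e l x.s < c (Sum.inl φ)) ∧
    (BT φ0 l x w → e l x.s < c (Sum.inl φ0))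

def N : X → Set X
  | X.t l x w => {ξ | (∃ x', Below (φ0 l x.s + 1) x x' ∧ ξ = X.t l x' w) ∨
      (∃ c, Cond φ0 F l x w c ∧ ξ = X.z c) ∨
      (∃ c i, Cond φ0 F l x w c ∧ (BT φ0 l x w → nstar n0 l x.s ≤ i) ∧ ξ = X.b c i)}
  | X.z c => {ξ | ξ = X.z c ∨ ∃ i, I c ≤ i ∧ ξ = X.b c i}
  | X.b c i => {X.b c i}

theorem self_mem_N (ξ : X) : ξ ∈ N φ0 F n0 I ξ := by
  rcases ξ with (⟨l, x, w⟩ | c | ⟨c, i⟩)
  · exact Or.inl ⟨x, Below.refl _ _, rfl⟩
  · exact Or.inl rfl
  · exact rfl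

theorem Cond_mono {l : ℕ} {x x' : Pt l} {w : Fin (l + 1)} {c : Idx → ℕ}
    (h : Below (φ0 l x.s + 1) x x') (hc : Cond φ0 F l x' w c) : Cond φ0 F l x w c := by
  obtain ⟨h1, h2, h3⟩ := hc
  have he := e_mono l h.pref
  refine ⟨h1, fun φ hφ => ?_, fun hb => ?_⟩
  · exact lt_of_le_of_lt he (h2 φ (Fs_mono φ0 F h hφ))
  · exact lt_of_le_of_lt he (h3 (BT_mono φ0 hb h))

theorem N_trans (hI : ∀ c l s, e l s < c (Sum.inl φ0) → nstar n0 l s ≤ I c) {ξ ξ' : X}
    (h : ξ' ∈ N φ0 F n0 I ξ) : N φ0 F n0 I ξ' ⊆ N φ0 F n0 I ξ := by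
  rcases ξ with (⟨l, x, w⟩ | c | ⟨c, i⟩)
  · rcases h with ⟨x', hx', rfl⟩ | ⟨c, hc, rfl⟩ | ⟨c, i, hc, hn, rfl⟩
    · rintro η (⟨x'', hx'', rfl⟩ | ⟨c, hc, rfl⟩ | ⟨c, i, hc, hn, rfl⟩)
      · exact Or.inl ⟨x'', hx'.trans' hx'' (fun h => by rw [h]), rfl⟩
      · exact Or.inr (Or.inl ⟨c, Cond_mono φ0 F hx' hc, rfl⟩)
      · refine Or.inr (Or.inr ⟨c, i, Cond_mono φ0 F hx' hc, fun hb => ?_, rfl⟩)
        exact (nstar_mono n0 l hx'.pref).trans (hn (BT_mono φ0 hb hx'))
    · rintro η (rfl | ⟨i, hi, rfl⟩)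
      · exact Or.inr (Or.inl ⟨c, hc, rfl⟩)
      · refine Or.inr (Or.inr ⟨c, i, hc, fun hb => ?_, rfl⟩)
        exact (hI c l x.s (hc.2.2 hb)).trans hi
    · rintro η rfl
      exact Or.inr (Or.inr ⟨c, i, hc, hn, rfl⟩)
  · rcases h with rfl | ⟨i, hi, rfl⟩
    · exact subset_rfl
    · rintro η rfl
      exact Or.inr ⟨i, hi, rfl⟩
  · have : ξ' = X.b c i := h
    rw [this]

theorem open_of_N (hF : ∀ l x w, (F l x w).Finite)
    (hF' : ∀ l x w, ∀ φ ∈ F l x w, ¬ Hit (φ l) x.s ∧ φ l x.s < φ0 l x.s)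
    {W : Set X} (hW : ∀ ξ ∈ W, N φ0 F n0 I ξ ⊆ W) : OpX W := by
  classical
  refine ⟨?_, ?_⟩
  · intro l x w hx
    have hN := hW _ hx
    refine ⟨φ0 l x.s + 1, Fs φ0 F l x.s ∪ (if BT φ0 l x w then {φ0} else ∅),
      if BT φ0 l x w then nstar n0 l x.s else 0, ?_, ?_, ?_, ?_, ?_⟩
    · apply (Fs_finite φ0 F hF l x.s).union
      split_ifs
      · exact Set.finite_singleton _
      · exact Set.finite_empty
    · rintro φ (h | h)
      · exact Fs_not_hit φ0 F hF' h
      · split_ifs at h with hb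
        · rw [Set.mem_singleton_iff.mp h]
          exact BT_not_hit φ0 hb
        · exact absurd h (Set.notMem_empty _)
    · intro hw
      rw [if_neg (fun hb => BT_not_mem φ0 hb hw)]
    · intro x' hx'
      exact hN (Or.inl ⟨x', hx', rfl⟩)
    · intro c hs hc
      have hcond : Cond φ0 F l x w c := by
        refine ⟨hs, fun φ hφ => hc φ (Or.inl hφ), fun hb => hc φ0 (Or.inr ?_)⟩
        rw [if_pos hb]
        exact rfl
      refine ⟨hN (Or.inr (Or.inl ⟨c, hcond, rfl⟩)), fun i hi =>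
        hN (Or.inr (Or.inr ⟨c, i, hcond, fun hb => ?_, rfl⟩))⟩
      rw [if_pos hb] at hi
      exact hi
  · intro c hc
    exact ⟨I c, fun i hi => hW _ hc (Or.inr ⟨i, hi, rfl⟩)⟩

end XO

theorem exists_I (φ0 : Phi) (n0 : ℕ → List ℕ → ℕ) (m : (Idx → ℕ) → ℕ) :
    ∃ I : (Idx → ℕ) → ℕ, ∀ c, m c ≤ I c ∧
      ∀ l s, e l s < c (Sum.inl φ0) → nstar n0 l s ≤ I c := by
  have : ∀ c : Idx → ℕ, ∃ I : ℕ, m c ≤ I ∧
      ∀ l s, e l s < c (Sum.inl φ0) → nstar n0 l s ≤ I := by
    intro c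
    have hfin : {p : ℕ × List ℕ | e p.1 p.2 < c (Sum.inl φ0)}.Finite := by
      apply Set.Finite.of_injOn (f := fun p : ℕ × List ℕ => Encodable.encode p)
        (t := Set.Iio (c (Sum.inl φ0)))
      · intro p hp
        exact lt_of_le_of_lt (encode_le_e p.1 p.2) hp
      · intro p _ q _ h
        exact Encodable.encode_injective h
      · exact Set.finite_Iio _
    obtain ⟨B, hB⟩ := (hfin.image (fun p => nstar n0 p.1 p.2)).bddAbove
    refine ⟨max (m c) B, le_max_left _ _, fun l s h => ?_⟩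
    exact (hB ⟨(l, s), h, rfl⟩).trans (le_max_right _ _)
  choose I hI using this
  exact ⟨I, hI⟩

theorem X_ortho (𝒰 : Set (Set X)) (hU : ∀ u ∈ 𝒰, IsOpen u) (hc : ⋃₀ 𝒰 = Set.univ) :
    ∃ 𝒱 : Set (Set X), (∀ v ∈ 𝒱, IsOpen v) ∧ ⋃₀ 𝒱 = Set.univ ∧
      (∀ v ∈ 𝒱, ∃ u ∈ 𝒰, v ⊆ u) ∧ (∀ 𝒲 ⊆ 𝒱, IsOpen (⋂₀ 𝒲)) := by
  classical
  have h1 : ∀ ξ : X, ∃ u ∈ 𝒰, ξ ∈ u := by
    intro ξ
    have : ξ ∈ ⋃₀ 𝒰 := by
      rw [hc]
      trivial
    exact this
  choose U hU1 hU2 using h1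
  have hUo : ∀ ξ, OpX (U ξ) := fun ξ => hU _ (hU1 ξ)
  choose a F n hF hFH hn hbel hcz using
    fun (l : ℕ) (x : Pt l) (w : Fin (l + 1)) => (hUo (X.t l x w)).1 l x w (hU2 _)
  choose m hm using fun c => (hUo (X.z c)).2 c (hU2 _)
  choose φ0 hφ0 using fun (l : ℕ) (s : List ℕ) => bound_of l s
    (fun x w => a l x w + ∑ φ ∈ (hF l x w).toFinset, (φ l x.s + 1))
  choose n0 hn0 using fun (l : ℕ) (s : List ℕ) => bound_of l s (fun x w => n l x w)
  obtain ⟨I, hI⟩ := exists_I φ0 n0 m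
  have ha : ∀ l x w, a l x w ≤ φ0 l x.s := fun l x w =>
    (Nat.le_add_right _ _).trans (hφ0 l x.s x rfl w)
  have hφ : ∀ l x w, ∀ φ ∈ F l x w, ¬ Hit (φ l) x.s ∧ φ l x.s < φ0 l x.s := by
    intro l x w φ h
    refine ⟨hFH l x w φ h, ?_⟩
    have h2 : φ l x.s + 1 ≤ ∑ φ ∈ (hF l x w).toFinset, (φ l x.s + 1) :=
      Finset.single_le_sum (f := fun φ : Phi => φ l x.s + 1) (fun _ _ => Nat.zero_le _)
        ((hF l x w).mem_toFinset.mpr h)
    have h3 := hφ0 l x.s x rfl w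
    omega
  have hnn : ∀ l x w, n l x w ≤ n0 l x.s := fun l x w => hn0 l x.s x rfl w
  have hop : ∀ W : Set X, (∀ ξ ∈ W, N φ0 F n0 I ξ ⊆ W) → IsOpen W := fun W hW =>
    open_of_N φ0 F n0 I hF hφ hW
  have htr : ∀ ξ ξ', ξ' ∈ N φ0 F n0 I ξ → N φ0 F n0 I ξ' ⊆ N φ0 F n0 I ξ := fun ξ ξ' h =>
    N_trans φ0 F n0 I (fun c => (hI c).2) h
  refine ⟨Set.range (N φ0 F n0 I), ?_, ?_, ?_, ?_⟩
  · rintro v ⟨ξ, rfl⟩
    exact hop _ (htr ξ)
  · apply Set.eq_univ_of_forall
    intro ξ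
    exact ⟨_, ⟨ξ, rfl⟩, self_mem_N φ0 F n0 I ξ⟩
  · rintro v ⟨ξ, rfl⟩
    rcases ξ with (⟨l, x, w⟩ | c | ⟨c, i⟩)
    · have main : ∀ (y : Pt l), Below (φ0 l y.s) y x → 
          (∀ x', Below (φ0 l x.s + 1) x x' → Below (φ0 l y.s) y x') →
          (∀ i, (BT φ0 l x w → nstar n0 l x.s ≤ i) → n l y w ≤ i) →
          N φ0 F n0 I (X.t l x w) ⊆ U (X.t l y w) := by
        intro y hy hyt hyn
        have hyc : ∀ c, Cond φ0 F l x w c → ∀ φ ∈ F l y w, e l y.s < c (Sum.inl φ) := by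
          intro c hc φ hφ'
          refine lt_of_le_of_lt (e_mono l hy.pref) (hc.2.1 φ ⟨y, ?_, w, hφ'⟩)
          rcases hy with hy | ⟨hy, _⟩
          · rw [hy]
            exact Or.inl rfl
          · exact Or.inr hy
        rintro η (⟨x', hx', rfl⟩ | ⟨c, hc, rfl⟩ | ⟨c, i, hc, hi, rfl⟩)
        · exact hbel l y w x' ((hyt x' hx').mono (ha l y w))
        · exact (hcz l y w c hc.1 (hyc c hc)).1
        · exact (hcz l y w c hc.1 (hyc c hc)).2 i (hyn i hi)
      by_cases hb : BT φ0 l x w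
      · obtain ⟨x1, h3, h4⟩ := hb
        refine ⟨U (X.t l x1 w), hU1 _, main x1 (h3.mono (Nat.le_succ _)) ?_ ?_⟩
        · intro x' hx'
          exact (h3.trans' hx' (fun h => by rw [h])).mono (Nat.le_succ _)
        · intro i hi
          exact ((hnn l x1 w).trans (le_nstar n0 l x1.s)).trans
            ((nstar_mono n0 l h3.pref).trans (hi ⟨x1, h3, h4⟩))
      · have hin : InO φ0 l x w := by
          by_contra h
          exact hb ⟨x, Below.refl _ _, h⟩
        obtain ⟨x2, h3, h4⟩ := hin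
        refine ⟨U (X.t l x2 w), hU1 _, main x2 h4 ?_ ?_⟩
        · intro x' hx'
          exact h4.trans' hx' (fun h => by rw [h]; exact Nat.le_succ _)
        · intro i _
          rw [hn l x2 w h3]
          exact Nat.zero_le _
    · refine ⟨U (X.z c), hU1 _, ?_⟩
      rintro η (rfl | ⟨i, hi, rfl⟩)
      · exact hU2 _
      · exact hm c i ((hI c).1.trans hi)
    · refine ⟨U (X.b c i), hU1 _, ?_⟩
      rintro η rfl
      exact hU2 _
  · intro 𝒲 hW
    apply hop
    intro ξ hξ η hη v hv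
    obtain ⟨ζ, rfl⟩ := hW hv
    exact htr ζ ξ (hξ _ hv) hη


/-! ### Y is not orthocompact -/

/-- Baire category for the product of countable discrete spaces. -/
theorem baire (h : (Idx → ℕ) → ℕ) : ∃ (k : ℕ) (E : Finset Idx) (v : Idx → ℕ),
    ∀ (E' : Finset Idx) (v' : Idx → ℕ), E ⊆ E' → (∀ i ∈ E, v' i = v i) →
      ∃ c : Idx → ℕ, (∀ i ∈ E', c i = v' i) ∧ h c ≤ k := by
  classical
  by_contra hcon
  push Not at hcon
  choose E' v' h1 h2 h3 using hcon
  let P : ℕ → Finset Idx × (Idx → ℕ) := fun k =>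
    Nat.rec (∅, fun _ => 0) (fun k p => (E' k p.1 p.2, v' k p.1 p.2)) k
  have hPs : ∀ k, P (k + 1) = (E' k (P k).1 (P k).2, v' k (P k).1 (P k).2) := fun k => rfl
  have hE : ∀ k, (P k).1 ⊆ (P (k + 1)).1 := fun k => by
    rw [hPs]
    exact h1 k _ _
  have hv : ∀ k, ∀ i ∈ (P k).1, (P (k + 1)).2 i = (P k).2 i := fun k => by
    rw [hPs]
    exact h2 k _ _
  have hEm : ∀ k d, (P k).1 ⊆ (P (k + d)).1 := by
    intro k d
    induction d with
    | zero => exact subset_rfl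
    | succ d ih => exact ih.trans (hE (k + d))
  have hvm : ∀ k d, ∀ i ∈ (P k).1, (P (k + d)).2 i = (P k).2 i := by
    intro k d
    induction d with
    | zero =>
      intro i _
      rfl
    | succ d ih =>
      intro i hi
      rw [← ih i hi]
      exact hv (k + d) i (hEm k d hi)
  let c : Idx → ℕ := fun i => if hi : ∃ k, i ∈ (P k).1 then (P (Nat.find hi)).2 i else 0
  have hc : ∀ k, ∀ i ∈ (P k).1, c i = (P k).2 i := by
    intro k i hi
    have hex : ∃ k, i ∈ (P k).1 := ⟨k, hi⟩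
    have : c i = (P (Nat.find hex)).2 i := dif_pos hex
    rw [this]
    obtain ⟨d, hd⟩ := Nat.exists_eq_add_of_le (Nat.find_min' hex hi)
    have h4 := hvm (Nat.find hex) d i (Nat.find_spec hex)
    rw [← hd] at h4
    exact h4.symm
  have h5 := h3 (h c) (P (h c)).1 (P (h c)).2 c (by
    intro i hi
    have := hc (h c + 1) i (by rw [hPs]; exact hi)
    rw [this, hPs])
  exact lt_irrefl _ h5

/-- basic cover members around the sites -/
def UY (l : ℕ) (x : Pt l) : Set Y :=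
  {η | (∃ x', Below 0 x x' ∧ η = Y.t l x') ∨ (∃ c, η = Y.z c) ∨
    (∃ c i, (sheet l c ∈ x.A ∨ l ≤ i) ∧ η = Y.b c i)}

/-- basic cover members around the limit points -/
def Uz (c : Idx → ℕ) : Set Y := {η | η = Y.z c ∨ ∃ i, η = Y.b c i}

theorem UY_open (l : ℕ) (x : Pt l) : IsOpen (UY l x) := by
  classical
  rw [isOpen_Y]
  refine ⟨?_, ?_⟩
  · rintro l' y w (⟨x', hx', he⟩ | ⟨c, he⟩ | ⟨c, i, h1, he⟩)
    · simp only [f, Y.t.injEq] at he
      obtain ⟨rfl, h2⟩ := he
      obtain rfl := eq_of_heq h2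
      refine ⟨0, ∅, if w ∈ y.A then 0 else l', Set.finite_empty, by simp, ?_, ?_, ?_⟩
      · intro hw
        rw [if_pos hw]
      · intro y' hy'
        exact Or.inl ⟨y', hx'.trans' hy' (fun _ => le_refl _), rfl⟩
      · intro c hs _
        refine ⟨Or.inr (Or.inl ⟨c, rfl⟩), fun i hi => Or.inr (Or.inr ⟨c, i, ?_, rfl⟩)⟩
        by_cases hw : w ∈ y.A
        · left
          rw [hs]
          exact hx'.sub hw
        · right
          rw [if_neg hw] at hi
          exact hi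
    · simp [f] at he
    · simp [f] at he
  · intro c _
    exact ⟨l, fun i hi => Or.inr (Or.inr ⟨c, i, Or.inr hi, rfl⟩)⟩

theorem Uz_open (c : Idx → ℕ) : IsOpen (Uz c) := by
  rw [isOpen_Y]
  refine ⟨?_, ?_⟩
  · rintro l' y w (he | ⟨i, he⟩)
    · simp [f] at he
    · simp [f] at he
  · rintro c' (he | ⟨i, he⟩)
    · simp only [f, Y.z.injEq] at he
      subst he
      exact ⟨0, fun i _ => Or.inr ⟨i, rfl⟩⟩
    · simp [f] at he

theorem Y_not_ortho (h : ∀ 𝒰 : Set (Set Y), (∀ u ∈ 𝒰, IsOpen u) → ⋃₀ 𝒰 = Set.univ →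
    ∃ 𝒱 : Set (Set Y), (∀ v ∈ 𝒱, IsOpen v) ∧ ⋃₀ 𝒱 = Set.univ ∧
      (∀ v ∈ 𝒱, ∃ u ∈ 𝒰, v ⊆ u) ∧ (∀ 𝒲 ⊆ 𝒱, IsOpen (⋂₀ 𝒲))) : False := by
  classical
  obtain ⟨𝒱, hVo, hVc, hVr, hVi⟩ := h
    ({u | ∃ l x, u = UY l x} ∪ {u | ∃ c, u = Uz c}) (by
      rintro u (⟨l, x, rfl⟩ | ⟨c, rfl⟩)
      · exact UY_open l x
      · exact Uz_open c) (by
      apply Set.eq_univ_of_forall
      rintro (⟨l, x⟩ | c | ⟨c, i⟩)
      · exact ⟨UY l x, Or.inl ⟨l, x, rfl⟩, Or.inl ⟨x, Below.refl _ _, rfl⟩⟩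
      · exact ⟨Uz c, Or.inr ⟨c, rfl⟩, Or.inl rfl⟩
      · exact ⟨Uz c, Or.inr ⟨c, rfl⟩, Or.inr ⟨i, rfl⟩⟩)
  -- minimal neighbourhoods
  let W : Y → Set Y := fun η => ⋂₀ {v ∈ 𝒱 | η ∈ v}
  have hWo : ∀ η, IsOpen (W η) := fun η => hVi _ (fun v hv => hv.1)
  have hWm : ∀ η, η ∈ W η := fun η v hv => hv.2
  have hWt : ∀ η ξ, ξ ∈ W η → W ξ ⊆ W η := by
    intro η ξ hξ ζ hζ v hv
    exact hζ v ⟨hv.1, hξ v hv⟩
  have hWz : ∀ c, ∃ m : ℕ, ∀ i, m ≤ i → Y.b c i ∈ W (Y.z c) := by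
    intro c
    obtain ⟨m, hm⟩ := (isOpen_Y.mp (hWo (Y.z c))).2 c (hWm (Y.z c))
    exact ⟨m, fun i hi => hm i hi⟩
  choose m hm using hWz
  obtain ⟨k, E, v, hB⟩ := baire m
  -- a large site
  obtain ⟨l, hl⟩ : ∃ l : ℕ, k < l ∧ E.card ≤ l ∧ Sum.inr l ∉ E := by
    have hfin : {l : ℕ | (Sum.inr l : Idx) ∈ E}.Finite := by
      apply Set.Finite.preimage (f := fun l : ℕ => (Sum.inr l : Idx)) (s := (E : Set Idx))
      · intro a _ b _ hab
        exact Sum.inr_injective hab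
      · exact E.finite_toSet
    obtain ⟨B, hBd⟩ := hfin.bddAbove
    refine ⟨max (k + 1) (max E.card (B + 1)), ?_, ?_, ?_⟩
    · have := le_max_left (k + 1) (max E.card (B + 1))
      omega
    · exact (le_max_left _ _).trans (le_max_right _ _)
    · intro hE
      have h1 := hBd hE
      have h2 : B + 1 ≤ max (k + 1) (max E.card (B + 1)) :=
        (le_max_right _ _).trans (le_max_right _ _)
      omega
  obtain ⟨hkl, hEl, hlE⟩ := hl
  have hinj : Set.InjOn (Sum.inl : Phi → Idx) (Sum.inl ⁻¹' (E : Set Idx)) := fun a _ b _ hab =>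
    Sum.inl_injective hab
  let Ep : Finset Phi := E.preimage Sum.inl hinj
  have hEp : Ep.card ≤ l := by
    refine le_trans ?_ hEl
    exact Finset.card_le_card_of_injOn (fun φ => (Sum.inl φ : Idx))
      (fun φ hφ => Finset.mem_preimage.mp hφ) (fun a _ b _ hab => Sum.inl_injective hab)
  obtain ⟨s, hsl, hsH⟩ := exists_hit l l Ep [] hEp (by
    intro φ _ q j r hq
    simp at hq)
  simp only [List.nil_append] at hsH
  let x : Pt l := ⟨s, ∅, by simpa using hsl⟩
  -- W (t l x) is contained in a member of the cover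
  obtain ⟨v0, hv0, hxv0⟩ : ∃ v0 ∈ 𝒱, Y.t l x ∈ v0 := by
    have : Y.t l x ∈ ⋃₀ 𝒱 := by
      rw [hVc]
      trivial
    exact this
  obtain ⟨u, hu, hvu⟩ := hVr v0 hv0
  have hWu : W (Y.t l x) ⊆ u := fun ζ hζ => hvu (hζ v0 ⟨hv0, hxv0⟩)
  rcases hu with ⟨l', x', rfl⟩ | ⟨c, rfl⟩
  · have hxu := hWu (hWm (Y.t l x))
    have hll : l' = l := by
      rcases hxu with ⟨y, _, he⟩ | ⟨c, he⟩ | ⟨c, i, _, he⟩
      · simp only [Y.t.injEq] at he
        exact he.1.symm
      · simp at he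
      · simp at he
    subst hll
    have hcard : x'.A.card < (Finset.univ : Finset (Fin (l' + 1))).card := by
      rw [Finset.card_univ, Fintype.card_fin]
      have := x'.h
      omega
    obtain ⟨w, _, hw⟩ := Finset.exists_mem_notMem_of_card_lt_card hcard
    obtain ⟨j, F, n, hF, hH, _, _, hcz⟩ := (isOpen_Y.mp (hWo (Y.t l' x))).1 l' x w
      (hWm (Y.t l' x))
    let v' : Idx → ℕ := fun i => if i = Sum.inr l' then (w : ℕ) else
      if i ∈ E then v i else e l' s + 1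
    let E' : Finset Idx := (E ∪ hF.toFinset.image Sum.inl) ∪ {Sum.inr l'}
    obtain ⟨c, hc1, hc2⟩ := hB E' v' (by
      intro i hi
      exact Finset.mem_union_left _ (Finset.mem_union_left _ hi)) (by
      intro i hi
      have h1 : i ≠ Sum.inr l' := by
        rintro rfl
        exact hlE hi
      show (if i = Sum.inr l' then (w : ℕ) else if i ∈ E then v i else e l' s + 1) = v i
      rw [if_neg h1, if_pos hi])
    have hsheet : sheet l' c = w := by
      have h1 : c (Sum.inr l') = w := by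
        rw [hc1 _ (Finset.mem_union_right _ (Finset.mem_singleton_self _))]
        exact if_pos rfl
      apply Fin.ext
      show min (c (Sum.inr l')) l' = w
      rw [h1]
      have := w.isLt
      omega
    have hgr : ∀ φ ∈ F, e l' x.s < c (Sum.inl φ) := by
      intro φ hφ
      have h1 : (Sum.inl φ : Idx) ∉ E := by
        intro hE
        exact hH φ hφ (hsH φ (Finset.mem_preimage.mpr hE))
      have h2 : c (Sum.inl φ) = e l' s + 1 := by
        rw [hc1 _ (Finset.mem_union_left _ (Finset.mem_union_right _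
          (Finset.mem_image_of_mem _ (hF.mem_toFinset.mpr hφ))))]
        show (if (Sum.inl φ : Idx) = Sum.inr l' then (w : ℕ) else
          if (Sum.inl φ : Idx) ∈ E then v (Sum.inl φ) else e l' s + 1) = _
        rw [if_neg (by simp), if_neg h1]
      rw [h2]
      exact Nat.lt_succ_self _
    have hz : Y.z c ∈ W (Y.t l' x) := (hcz c hsheet hgr).1
    have hb : Y.b c k ∈ UY l' x' := hWu (hWt _ _ hz (hm c k hc2))
    rcases hb with ⟨y, _, he⟩ | ⟨c', he⟩ | ⟨c', i, h1, he⟩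
    · simp at he
    · simp at he
    · simp only [Y.b.injEq] at he
      obtain ⟨rfl, rfl⟩ := he
      rcases h1 with h1 | h1
      · rw [hsheet] at h1
        exact hw h1
      · omega
  · have hxu := hWu (hWm (Y.t l x))
    rcases hxu with he | ⟨i, he⟩
    · simp at he
    · simp at he

/-- The negation of the preceding statement: If f is a continuous closed surjection with finite fibers from X onto Y, and every open cover of X has an open refinement whose subfamilies all have open intersection, then the same holds for Y. -/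
theorem result :
    ¬ (∀ (X Y : Type) [TopologicalSpace X] [TopologicalSpace Y] (f : X → Y),
      Continuous f → IsClosedMap f → Function.Surjective f →
      (∀ y : Y, (f ⁻¹' {y}).Finite) →
      (∀ 𝒰 : Set (Set X), (∀ u ∈ 𝒰, IsOpen u) → ⋃₀ 𝒰 = Set.univ →
        ∃ 𝒱 : Set (Set X), (∀ v ∈ 𝒱, IsOpen v) ∧ ⋃₀ 𝒱 = Set.univ ∧
          (∀ v ∈ 𝒱, ∃ u ∈ 𝒰, v ⊆ u) ∧ (∀ 𝒲 ⊆ 𝒱, IsOpen (⋂₀ 𝒲))) →
      (∀ 𝒰 : Set (Set Y), (∀ u ∈ 𝒰, IsOpen u) → ⋃₀ 𝒰 = Set.univ →
        ∃ 𝒱 : Set (Set Y), (∀ v ∈ 𝒱, IsOpen v) ∧ ⋃₀ 𝒱 = Set.univ ∧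
          (∀ v ∈ 𝒱, ∃ u ∈ 𝒰, v ⊆ u) ∧ (∀ 𝒲 ⊆ 𝒱, IsOpen (⋂₀ 𝒲)))) := by
  intro h
  exact Y_not_ortho (h X Y f f_cont f_closed f_surj f_fin X_ortho)

end Pool.Agent.S08818
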