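import Pool.Statements.S08824

set_option autoImplicit false
open scoped BigOperators
open Pool Pool.MP_b10794_gt

namespace Pool.Agent.S08824

open MeasureTheory

/-- Distance in the Euclidean plane between two points given by coordinates. -/
lemma edist_pt (a b c d L : ℝ) (hL : 0 ≤ L) (h : (a - c)^2 + (b - d)^2 = L^2) :
    edist (!₂[a, b] : EuclideanSpace ℝ (Fin 2)) !₂[c, d] = ENNReal.ofReal L := by
  rw [edist_dist, EuclideanSpace.dist_eq]
  congr 1
  rw [Fin.sum_univ_two]
  simp only [Matrix.cons_val_zero, Matrix.cons_val_one, Real.dist_eq, sq_abs]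
  rw [show (a - c)^2 + (b - d)^2 = L^2 from h, Real.sqrt_sq hL]

lemma seg_le (p q : EuclideanSpace ℝ (Fin 2)) (S : Set (EuclideanSpace ℝ (Fin 2)))
    (h : segment ℝ p q ⊆ S) : edist p q ≤ Measure.hausdorffMeasure 1 S := by
  rw [← hausdorffMeasure_segment]
  exact measure_mono h

lemma le_seg (p q : EuclideanSpace ℝ (Fin 2)) (S : Set (EuclideanSpace ℝ (Fin 2)))
    (h : S ⊆ segment ℝ p q) : Measure.hausdorffMeasure 1 S ≤ edist p q := by
  rw [← hausdorffMeasure_segment]
  exact measure_mono h

/-- The negation of the preceding statement: For every n ≥ 1 and t > 0, among hyperplanes at distance t from the origin, both the largest and the smallest (n−1)-volume section of the cube [-1/2,1/2]^n occur at hyperplanes orthogonal to some (1,…,1,0,…,0). -/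
theorem result :
    ¬ (∀ n : ℕ, 1 ≤ n → ∀ t : ℝ, 0 < t →
      (∃ k : ℕ, 1 ≤ k ∧ k ≤ n ∧
        ∀ θ : EuclideanSpace ℝ (Fin n), ‖θ‖ = 1 →
          MeasureTheory.Measure.hausdorffMeasure ((n : ℝ) - 1)
              {x : EuclideanSpace ℝ (Fin n) |
                (∀ i, |x i| ≤ 1 / 2) ∧ ∑ i, x i * θ i = t}
            ≤ MeasureTheory.Measure.hausdorffMeasure ((n : ℝ) - 1)
              {x : EuclideanSpace ℝ (Fin n) |
                (∀ i, |x i| ≤ 1 / 2) ∧
                  ∑ i : Fin n, (if (i : ℕ) < k then x i else 0) = t * Real.sqrt (k : ℝ)}) ∧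
      (∃ k : ℕ, 1 ≤ k ∧ k ≤ n ∧
        ∀ θ : EuclideanSpace ℝ (Fin n), ‖θ‖ = 1 →
          MeasureTheory.Measure.hausdorffMeasure ((n : ℝ) - 1)
              {x : EuclideanSpace ℝ (Fin n) |
                (∀ i, |x i| ≤ 1 / 2) ∧
                  ∑ i : Fin n, (if (i : ℕ) < k then x i else 0) = t * Real.sqrt (k : ℝ)}
            ≤ MeasureTheory.Measure.hausdorffMeasure ((n : ℝ) - 1)
              {x : EuclideanSpace ℝ (Fin n) |
                (∀ i, |x i| ≤ 1 / 2) ∧ ∑ i, x i * θ i = t})) := by
  intro h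
  obtain ⟨k, hk1, hk2, hk⟩ := (h 2 (by norm_num) (1/4) (by norm_num)).1
  have hθ : ‖(!₂[24/25, 7/25] : EuclideanSpace ℝ (Fin 2))‖ = 1 := by
    rw [EuclideanSpace.norm_eq]
    simp [Fin.sum_univ_two]
    norm_num
  have hm := hk _ hθ
  have e1 : ((2 : ℕ) : ℝ) - 1 = 1 := by norm_num
  rw [e1] at hm
  -- the tilted section contains a segment of length 25/24
  have hlow : ENNReal.ofReal (25/24) ≤ Measure.hausdorffMeasure 1
      {x : EuclideanSpace ℝ (Fin 2) | (∀ i, |x i| ≤ 1 / 2) ∧
        ∑ i, x i * (!₂[24/25, 7/25] : EuclideanSpace ℝ (Fin 2)) i = 1/4} := by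
    rw [← edist_pt (11/96) (1/2) (39/96) (-1/2) (25/24) (by norm_num) (by norm_num)]
    apply seg_le
    rintro x ⟨a, b, ha, hb, hab, rfl⟩
    have hb' : b = 1 - a := by linarith
    subst hb'
    constructor
    · intro i
      fin_cases i
      · simp only [Fin.zero_eta, PiLp.add_apply, PiLp.smul_apply, Matrix.cons_val_zero,
          smul_eq_mul]
        rw [abs_le]; constructor <;> nlinarith
      · simp only [Fin.mk_one, PiLp.add_apply, PiLp.smul_apply, Matrix.cons_val_one,
          Matrix.cons_val_fin_one, smul_eq_mul]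
        rw [abs_le]; constructor <;> nlinarith
    · rw [Fin.sum_univ_two]
      simp only [PiLp.add_apply, PiLp.smul_apply, Matrix.cons_val_zero, Matrix.cons_val_one,
        smul_eq_mul]
      ring
  -- the two diagonal sections have length at most 1
  have hup : Measure.hausdorffMeasure 1 {x : EuclideanSpace ℝ (Fin 2) | (∀ i, |x i| ≤ 1 / 2) ∧
      ∑ i : Fin 2, (if (i : ℕ) < k then x i else 0) = 1/4 * Real.sqrt (k : ℝ)}
        ≤ ENNReal.ofReal 1 := by
    interval_cases k
    · -- k = 1
      rw [← edist_pt (1/4) (-1/2) (1/4) (1/2) 1 (by norm_num) (by norm_num)]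
      apply le_seg
      rintro x ⟨hx, hs⟩
      rw [Fin.sum_univ_two] at hs
      simp at hs
      have h1 := abs_le.mp (hx 1)
      refine ⟨1/2 - x 1, 1/2 + x 1, by linarith [h1.2], by linarith [h1.1], by ring, ?_⟩
      ext i
      fin_cases i
      · simp; linarith
      · simp; ring
    · -- k = 2
      have hs2 : Real.sqrt 2 ^ 2 = 2 := Real.sq_sqrt (by norm_num)
      have hs0 : 0 ≤ Real.sqrt 2 := Real.sqrt_nonneg 2
      have hs3 : Real.sqrt 2 < 3/2 := by nlinarith
      have hs4 : 1 < Real.sqrt 2 := by nlinarith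
      set s := Real.sqrt 2 with hs
      have : ENNReal.ofReal (s - 1/2) ≤ ENNReal.ofReal 1 :=
        ENNReal.ofReal_le_ofReal (by linarith)
      refine le_trans ?_ this
      rw [← edist_pt (s/4 - 1/2) (1/2) (1/2) (s/4 - 1/2) (s - 1/2) (by linarith) (by nlinarith)]
      apply le_seg
      rintro x ⟨hx, hsum⟩
      rw [Fin.sum_univ_two] at hsum
      simp only [Nat.cast_ofNat, Fin.val_zero, Fin.val_one] at hsum
      norm_num at hsum
      have h0 := abs_le.mp (hx 0)
      have h1 := abs_le.mp (hx 1)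
      have hpos : 0 < 1 - s/4 := by linarith
      refine ⟨(1/2 - x 0) / (1 - s/4), (x 0 - s/4 + 1/2)/(1 - s/4),
        div_nonneg (by linarith [h0.2]) hpos.le, div_nonneg (by linarith [h1.2]) hpos.le, ?_, ?_⟩
      · rw [← add_div, div_eq_one_iff_eq hpos.ne']; ring
      · ext i
        fin_cases i
        · simp only [Fin.zero_eta, PiLp.add_apply, PiLp.smul_apply, Matrix.cons_val_zero,
            smul_eq_mul]
          have h4 : (4 - s) ≠ 0 := by intro h4; linarith
          have h5 : (1 - s/4) ≠ 0 := hpos.ne'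
          field_simp
          ring
        · simp only [Fin.mk_one, PiLp.add_apply, PiLp.smul_apply, Matrix.cons_val_one,
            Matrix.cons_val_fin_one, smul_eq_mul]
          have : x 1 = 1/4 * s - x 0 := by linarith
          rw [this]
          have h4 : (4 - s) ≠ 0 := by intro h4; linarith
          have h5 : (1 - s/4) ≠ 0 := hpos.ne'
          field_simp
          ring
  have hfin := hlow.trans (hm.trans hup)
  rw [ENNReal.ofReal_le_ofReal_iff (by norm_num)] at hfin
  norm_num at hfin

end Pool.Agent.S08824
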