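import Pool.Statements.S08834
import Pool.Agent.Helper18.CoreRudin

set_option autoImplicit false
open Pool Pool.MP_b2bcdc_gt

namespace Pool.Agent.S08834

/-- The negation of the preceding statement: In every core compact T0 space, each irreducible closed set A has a nonempty downward-directed family of compact saturated sets such that A meets all of them and no smaller closed subset of A meets all of them. -/
theorem result :
    ¬ (∀ (X : Type) [TopologicalSpace X] [T0Space X],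
      (∀ U : Set X, IsOpen U → ∀ x ∈ U, ∃ V : Set X, IsOpen V ∧ x ∈ V ∧ V ⊆ U ∧
        ∀ 𝒰 : Set (Set X), (∀ W ∈ 𝒰, IsOpen W) → U ⊆ ⋃₀ 𝒰 →
          ∃ 𝒱 ⊆ 𝒰, 𝒱.Finite ∧ V ⊆ ⋃₀ 𝒱) →
      ∀ A : Set X, IsClosed A → IsIrreducible A →
        ∃ 𝒦 : Set (Set X), 𝒦.Nonempty ∧
          (∀ K ∈ 𝒦, IsCompact K ∧
            ∀ x : X, (∀ U : Set X, IsOpen U → K ⊆ U → x ∈ U) → x ∈ K) ∧
          (∀ K₁ ∈ 𝒦, ∀ K₂ ∈ 𝒦, ∃ K₃ ∈ 𝒦, K₃ ⊆ K₁ ∩ K₂) ∧
          (∀ K ∈ 𝒦, (A ∩ K).Nonempty) ∧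
          ∀ B : Set X, IsClosed B → B ⊆ A → (∀ K ∈ 𝒦, (B ∩ K).Nonempty) → B = A) := by
  intro H
  exact Pool.Agent.Helper18.CoreRudin.not_rudin
    (H Pool.Agent.Helper18.CoreRudin.X Pool.Agent.Helper18.CoreRudin.coreCompact Set.univ
      isClosed_univ Pool.Agent.Helper18.CoreRudin.isIrreducible_univ)

end Pool.Agent.S08834
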