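import Pool.Statements.S08836
import Pool.Agent.Helper695.Creede

set_option autoImplicit false
open Pool Pool.MP_b3099b_gt

namespace Pool.Agent.S08836

/-- The negation of the preceding statement: A T1 space is Fréchet and semistratifiable if and only if it is the image of some semimetrizable space under a continuous closed surjection. -/
theorem result :
    ¬ (∀ (Y : Type) [TopologicalSpace Y], T1Space Y →
      ((FrechetUrysohnSpace Y ∧
        ∃ G : Set Y → ℕ → Set Y,
          (∀ F : Set Y, IsClosed F → ∀ n, IsOpen (G F n)) ∧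
          (∀ F : Set Y, IsClosed F → ⋂ n, G F n = F) ∧
          (∀ F K : Set Y, IsClosed F → IsClosed K → F ⊆ K → ∀ n, G F n ⊆ G K n))
      ↔
      ∃ (X : Type) (_ : TopologicalSpace X) (d : X → X → ℝ),
        (∀ x y, 0 ≤ d x y) ∧ (∀ x y, d x y = 0 ↔ x = y) ∧ (∀ x y, d x y = d y x) ∧
        (∀ x, (nhds x).HasBasis (fun ε : ℝ => 0 < ε) (fun ε => {y | d x y < ε})) ∧
        ∃ f : X → Y, Continuous f ∧ IsClosedMap f ∧ Function.Surjective f)) := by
  intro h
  obtain ⟨X, _, d, -, -, -, hd, f, hf1, hf2, hf3⟩ :=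
    (h Pool.Agent.Helper695.Creede.Y inferInstance).1
      ⟨inferInstance, Pool.Agent.Helper695.Creede.semistrat Pool.Agent.Helper695.Creede.Y⟩
  refine Pool.Agent.Helper695.Creede.not_closed_image
    (fun x n => {y | d x y < 1 / ((n : ℝ) + 1)}) ?_ ?_ ?_ f hf1 hf2 hf3
  · intro x n
    exact (hd x).mem_of_mem (by positivity)
  · intro x N hN
    obtain ⟨ε, hε, hε2⟩ := (hd x).mem_iff.mp hN
    obtain ⟨n, hn⟩ := exists_nat_one_div_lt hε
    exact ⟨n, fun y hy => hε2 (lt_trans (show d x y < 1 / ((n : ℝ) + 1) from hy) hn)⟩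
  · intro x m n hmn y hy
    have hy' : d x y < 1 / ((n : ℝ) + 1) := hy
    refine lt_of_lt_of_le hy' ?_
    apply one_div_le_one_div_of_le (by positivity)
    have : (m : ℝ) ≤ n := by exact_mod_cast hmn
    linarith

end Pool.Agent.S08836
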