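import Pool.Statements.S08838

set_option autoImplicit false
open Pool Pool.MP_b36743_gt

namespace Pool.Agent.S08838

open Set Topology

section Lip


/-- If `K n` are compact sets approaching the compact set `A`, then `A ∪ ⋃ n, K n` is compact. -/
theorem isCompact_union_iUnion {Y : Type*} [PseudoMetricSpace Y] {A : Set Y} {K : ℕ → Set Y}
    {δ : ℕ → ℝ} (hA : IsCompact A) (hK : ∀ n, IsCompact (K n))
    (hδ : Filter.Tendsto δ Filter.atTop (𝓝 0))
    (h : ∀ n, ∀ x ∈ K n, ∃ a ∈ A, dist x a ≤ δ n) : IsCompact (A ∪ ⋃ n, K n) := by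
  rw [isCompact_iff_finite_subcover]
  intro ι U hU hcov
  obtain ⟨t, ht⟩ := hA.elim_finite_subcover U hU (subset_union_left.trans hcov)
  have hVo : IsOpen (⋃ i ∈ t, U i) := isOpen_biUnion fun i _ => hU i
  obtain ⟨η, hη, hη'⟩ := hA.exists_thickening_subset_open hVo ht
  have hev : ∀ᶠ n in Filter.atTop, δ n < η := hδ.eventually (gt_mem_nhds hη)
  obtain ⟨N, hN⟩ := Filter.eventually_atTop.1 hev
  have hfin : IsCompact (⋃ n ∈ Finset.range N, K n) :=
    (Finset.range N).isCompact_biUnion fun n _ => hK n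
  obtain ⟨t', ht'⟩ := hfin.elim_finite_subcover U hU (by
    intro x hx
    simp only [mem_iUnion] at hx
    obtain ⟨n, hn, hx⟩ := hx
    exact hcov (Or.inr (mem_iUnion.2 ⟨n, hx⟩)))
  classical
  refine ⟨t ∪ t', ?_⟩
  rintro x (hx | hx)
  · obtain ⟨i, hi, hxi⟩ := mem_iUnion₂.1 (ht hx)
    exact mem_iUnion₂.2 ⟨i, Finset.mem_union_left _ hi, hxi⟩
  · obtain ⟨n, hn⟩ := mem_iUnion.1 hx
    by_cases hnN : n < N
    · have : x ∈ ⋃ n ∈ Finset.range N, K n := mem_iUnion₂.2 ⟨n, Finset.mem_range.2 hnN, hn⟩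
      obtain ⟨i, hi, hxi⟩ := mem_iUnion₂.1 (ht' this)
      exact mem_iUnion₂.2 ⟨i, Finset.mem_union_right _ hi, hxi⟩
    · obtain ⟨a, ha, hxa⟩ := h n x hn
      have : x ∈ Metric.thickening η A := by
        rw [Metric.mem_thickening_iff]
        exact ⟨a, ha, hxa.trans_lt (hN n (not_lt.1 hnN))⟩
      obtain ⟨i, hi, hxi⟩ := mem_iUnion₂.1 (hη' this)
      exact mem_iUnion₂.2 ⟨i, Finset.mem_union_left _ hi, hxi⟩

variable {X : Type*} [PseudoMetricSpace X]

/-- Concatenation of two Lipschitz maps at time `c`. -/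
theorem lipschitz_conc {K : NNReal} {f g : ℝ → X} (hf : LipschitzWith K f)
    (hg : LipschitzWith K g) (c : ℝ) (h : f c = g 0) :
    LipschitzWith K (fun t : ℝ => if t ≤ c then f t else g (t - c)) := by
  have key : ∀ s t : ℝ, s ≤ t → dist (if s ≤ c then f s else g (s - c))
      (if t ≤ c then f t else g (t - c)) ≤ K * dist s t := by
    intro s t hst
    by_cases hs : s ≤ c
    · by_cases ht : t ≤ c
      · rw [if_pos hs, if_pos ht]; exact hf.dist_le_mul s t
      · rw [if_pos hs, if_neg ht]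
        have h1 := hf.dist_le_mul s c
        have h2 := hg.dist_le_mul 0 (t - c)
        rw [← h] at h2
        have h3 := dist_triangle (f s) (f c) (g (t - c))
        have e1 : dist s c = c - s := by rw [Real.dist_eq, abs_sub_comm, abs_of_nonneg]; linarith
        have e2 : dist (0 : ℝ) (t - c) = t - c := by
          rw [Real.dist_eq, abs_sub_comm, abs_of_nonneg] <;> linarith
        have e3 : dist s t = t - s := by rw [Real.dist_eq, abs_sub_comm, abs_of_nonneg]; linarith
        rw [e1] at h1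
        rw [e2] at h2
        rw [e3]
        have : (K : ℝ) * (t - s) = K * (c - s) + K * (t - c) := by ring
        linarith
    · have ht : ¬ t ≤ c := by intro h'; exact hs (hst.trans h')
      rw [if_neg hs, if_neg ht]
      have := hg.dist_le_mul (s - c) (t - c)
      rwa [dist_sub_right] at this
  apply LipschitzWith.of_dist_le_mul
  intro s t
  rcases le_total s t with hst | hst
  · exact key s t hst
  · rw [dist_comm, dist_comm s t]; exact key t s hst

/-- If every point is reached from `e` by a `K`-Lipschitz path then any two points are joined, through any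
third one, by a `4K`-Lipschitz path. -/
theorem exists_lip_through {K : NNReal} {e : X}
    (h : ∀ x : X, ∃ f : ℝ → X, LipschitzWith K f ∧ f 0 = e ∧ f 1 = x) (a b x : X) :
    ∃ f : ℝ → X, LipschitzWith (4 * K) f ∧ f 0 = a ∧ f 1 = b ∧ f (1 / 2) = x := by
  obtain ⟨fa, hfa, fa0, fa1⟩ := h a
  obtain ⟨fb, hfb, fb0, fb1⟩ := h b
  obtain ⟨fx, hfx, fx0, fx1⟩ := h x
  have hrev : ∀ {f : ℝ → X}, LipschitzWith K f → LipschitzWith K (fun t => f (1 - t)) := by
    intro f hf
    apply LipschitzWith.of_dist_le_mul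
    intro s t
    have := hf.dist_le_mul (1 - s) (1 - t)
    rwa [dist_sub_left] at this
  -- g1 : a → e → x on [0,2]
  have hg1 := lipschitz_conc (hrev hfa) hfx 1 (by simp [fa0, fx0])
  have hg2 := lipschitz_conc (hrev hfx) hfb 1 (by simp [fb0, fx0])
  have hg := lipschitz_conc hg1 hg2 2 (by norm_num [fx1])
  refine ⟨_, hg.comp (LipschitzWith.of_dist_le_mul (K := 4) (f := fun t : ℝ => 4 * t) ?_) |>.weaken
    (by rw [mul_comm]), ?_, ?_, ?_⟩
  · intro s t
    rw [Real.dist_eq, Real.dist_eq, ← mul_sub, abs_mul]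
    norm_num
  · norm_num [fa1]
  · norm_num [fb1]
  · norm_num [fx1]

/-- Extend a map which is Lipschitz on the unit interval. -/
theorem exists_lip_of_unit {Y : Type*} [PseudoMetricSpace Y] {S : Set Y} {K : NNReal} {F : ℝ → Y}
    (hF : ∀ s ∈ Icc (0 : ℝ) 1, ∀ t ∈ Icc (0 : ℝ) 1, dist (F s) (F t) ≤ K * |s - t|)
    (hS : ∀ s ∈ Icc (0 : ℝ) 1, F s ∈ S) :
    ∃ f : ℝ → S, LipschitzWith K f ∧ (f 0 : Y) = F 0 ∧ (f 1 : Y) = F 1 := by
  let pr : ℝ → Icc (0 : ℝ) 1 := projIcc 0 1 zero_le_one
  refine ⟨fun t => ⟨F (pr t), hS _ (pr t).2⟩, ?_, ?_, ?_⟩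
  · apply LipschitzWith.of_dist_le_mul
    intro s t
    have h1 := hF (pr s) (pr s).2 (pr t) (pr t).2
    have h2 : |(pr s : ℝ) - pr t| ≤ |s - t| := by
      have := (LipschitzWith.projIcc (zero_le_one : (0 : ℝ) ≤ 1)).dist_le_mul s t
      simpa [Subtype.dist_eq, Real.dist_eq] using this
    calc dist (F (pr s)) (F (pr t)) ≤ K * |(pr s : ℝ) - pr t| := h1
      _ ≤ K * dist s t := by
        rw [Real.dist_eq]
        exact mul_le_mul_of_nonneg_left h2 K.2
  · simp [pr]
  · simp [pr]

/-- Connectedness from Lipschitz paths. -/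
theorem connectedSpace_of_lip {K : NNReal} {e : X}
    (h : ∀ x : X, ∃ f : ℝ → X, LipschitzWith K f ∧ f 0 = e ∧ f 1 = x) : ConnectedSpace X := by
  have : PreconnectedSpace X := by
    constructor
    apply isPreconnected_of_forall e
    intro x _
    obtain ⟨f, hf, f0, f1⟩ := h x
    exact ⟨range f, subset_univ _, ⟨0, f0⟩, ⟨1, f1⟩, isPreconnected_range hf.continuous⟩
  exact { this with toNonempty := ⟨e⟩ }


end Lip

section Example

/-- ambient space -/
abbrev E3 : Type := ℝ × ℝ × ℝ

/-- heights of the hairpins: type of arm `k` is `(Nat.unpair k).1` -/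
noncomputable def aa (i : ℕ) : ℝ := 1 + 1 / ((i : ℝ) + 2)

noncomputable def ah (k : ℕ) : ℝ := aa (Nat.unpair k).1

noncomputable def dd (k : ℕ) : ℝ := 1 / ((k : ℝ) + 1) ^ 2

noncomputable def hat (a y : ℝ) : ℝ := a * min y (2 - y)

/-- the hairpin arms -/
noncomputable def Arm (k : ℕ) (y : ℝ) : E3 := (hat (ah k) y, y * dd k, k * (y * dd k))

/-- the central segment -/
def Zed (t : ℝ) : E3 := (t, 0, 0)

def XX : Set E3 := Zed '' Icc 0 2 ∪ ⋃ k, Arm k '' Icc 0 2

/-- arm coordinate -/
noncomputable def cc (k : ℕ) (x : E3) : ℝ := max 0 (x.2.1 - |x.2.2 - k * x.2.1|)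

theorem aa_gt (i : ℕ) : 1 < aa i := by
  unfold aa
  have : (0 : ℝ) < 1 / ((i : ℝ) + 2) := by positivity
  linarith

theorem aa_le (i : ℕ) : aa i ≤ 3 / 2 := by
  unfold aa
  have : 1 / ((i : ℝ) + 2) ≤ 1 / 2 := by
    apply one_div_le_one_div_of_le (by norm_num)
    have : (0 : ℝ) ≤ i := Nat.cast_nonneg i
    linarith
  linarith

theorem aa_anti {i j : ℕ} (h : i < j) : aa j < aa i := by
  unfold aa
  have : (i : ℝ) < j := by exact_mod_cast h
  have h2 : 1 / ((j : ℝ) + 2) < 1 / ((i : ℝ) + 2) := by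
    apply one_div_lt_one_div_of_lt (by positivity)
    linarith
  linarith

theorem dd_pos (k : ℕ) : 0 < dd k := by unfold dd; positivity

theorem dd_le (k : ℕ) : dd k ≤ 1 / ((k : ℝ) + 1) := by
  unfold dd
  have hk : (0 : ℝ) ≤ k := Nat.cast_nonneg k
  apply one_div_le_one_div_of_le (by positivity)
  nlinarith

theorem kdd_le (k : ℕ) : k * dd k ≤ 1 / ((k : ℝ) + 1) := by
  unfold dd
  have hk : (0 : ℝ) ≤ k := Nat.cast_nonneg k
  rw [mul_one_div, div_le_div_iff₀ (by positivity) (by positivity)]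
  nlinarith

theorem Arm_cont (k : ℕ) : Continuous (Arm k) := by unfold Arm hat; fun_prop
theorem Zed_cont : Continuous Zed := by unfold Zed; fun_prop
theorem cc_cont (k : ℕ) : Continuous (cc k) := by unfold cc; fun_prop

theorem hat_mem {a y : ℝ} (ha0 : 0 ≤ a) (ha : a ≤ 2) (hy : y ∈ Icc (0 : ℝ) 2) :
    hat a y ∈ Icc (0 : ℝ) 2 ∧ hat a y ≤ a := by
  unfold hat
  have h1 : 0 ≤ min y (2 - y) := le_min hy.1 (by linarith [hy.2])
  have h2 : min y (2 - y) ≤ 1 := by
    rcases le_total y 1 with h | h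
    · exact (min_le_left _ _).trans h
    · exact (min_le_right _ _).trans (by linarith)
  refine ⟨⟨mul_nonneg ha0 h1, ?_⟩, ?_⟩ <;> nlinarith

theorem ah_bd (k : ℕ) : 1 < ah k ∧ ah k ≤ 3 / 2 := ⟨aa_gt _, aa_le _⟩

theorem Arm_zero (k : ℕ) : Arm k 0 = (0, 0, 0) := by simp [Arm, hat]

theorem o_mem : ((0, 0, 0) : E3) ∈ XX := Or.inl ⟨0, by simp, rfl⟩

theorem Zed_mem {t : ℝ} (h : t ∈ Icc (0 : ℝ) 2) : Zed t ∈ XX := Or.inl ⟨t, h, rfl⟩
theorem Arm_mem {k : ℕ} {t : ℝ} (h : t ∈ Icc (0 : ℝ) 2) : Arm k t ∈ XX :=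
  Or.inr (mem_iUnion.2 ⟨k, t, h, rfl⟩)

theorem cc_Arm {k : ℕ} {y : ℝ} (hy : 0 ≤ y) : cc k (Arm k y) = y * dd k := by
  simp only [cc, Arm, sub_self, abs_zero, sub_zero]
  exact max_eq_right (mul_nonneg hy (dd_pos k).le)

theorem cc_Arm_ne {j k : ℕ} (hjk : j ≠ k) {y : ℝ} (hy : 0 ≤ y) : cc k (Arm j y) = 0 := by
  simp only [cc, Arm]
  apply max_eq_left
  have h1 : (j : ℝ) * (y * dd j) - k * (y * dd j) = (j - k) * (y * dd j) := by ring
  have h2 : 0 ≤ y * dd j := mul_nonneg hy (dd_pos j).le
  rw [h1, abs_mul, abs_of_nonneg h2]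
  have h3 : (1 : ℝ) ≤ |(j : ℝ) - k| := by
    have : (1 : ℤ) ≤ |(j : ℤ) - k| := by
      apply Int.one_le_abs
      omega
    exact_mod_cast this
  nlinarith

theorem cc_Zed {k : ℕ} {t : ℝ} : cc k (Zed t) = 0 := by simp [cc, Zed]

theorem mem_of_cc_pos {k : ℕ} {x : E3} (hx : x ∈ XX) (h : 0 < cc k x) :
    ∃ y ∈ Ioc (0 : ℝ) 2, x = Arm k y ∧ cc k x = y * dd k := by
  rcases hx with ⟨t, ht, rfl⟩ | hx
  · rw [cc_Zed] at h; exact absurd h (lt_irrefl _)
  · obtain ⟨j, y, hy, rfl⟩ := mem_iUnion.1 hx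
    by_cases hjk : j = k
    · subst hjk
      have e := cc_Arm (k := j) hy.1
      rw [e] at h
      refine ⟨y, ⟨?_, hy.2⟩, rfl, e⟩
      by_contra hcon
      have : y = 0 := le_antisymm (not_lt.1 hcon) hy.1
      rw [this] at h
      simp at h
    · rw [cc_Arm_ne hjk hy.1] at h; exact absurd h (lt_irrefl _)

theorem cc_nonneg (k : ℕ) (x : E3) : 0 ≤ cc k x := le_max_left _ _

theorem XX_compact : IsCompact XX := by
  apply isCompact_union_iUnion (δ := fun n : ℕ => 2 * (1 / ((n : ℝ) + 1)))
  · exact isCompact_Icc.image Zed_cont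
  · intro k; exact isCompact_Icc.image (Arm_cont k)
  · have := (tendsto_one_div_add_atTop_nhds_zero_nat (𝕜 := ℝ)).const_mul 2
    simpa using this
  · rintro k _ ⟨y, hy, rfl⟩
    have hm := hat_mem (a := ah k) (by linarith [(ah_bd k).1]) (by linarith [(ah_bd k).2]) hy
    refine ⟨Zed (hat (ah k) y), ⟨_, hm.1, rfl⟩, ?_⟩
    have h1 := dd_le k
    have h2 := kdd_le k
    have h3 := dd_pos k
    have hk : (0 : ℝ) ≤ k := Nat.cast_nonneg k
    simp only [Arm, Zed, Prod.dist_eq, Real.dist_eq, sub_self, abs_zero, sub_zero]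
    refine max_le (by positivity) (max_le ?_ ?_)
    · rw [abs_of_nonneg (mul_nonneg hy.1 h3.le)]
      nlinarith [hy.2, hy.1]
    · rw [abs_of_nonneg (mul_nonneg hk (mul_nonneg hy.1 h3.le))]
      calc (k : ℝ) * (y * dd k) = y * (k * dd k) := by ring
        _ ≤ 2 * (1 / ((k : ℝ) + 1)) := by
          have h4 : 0 ≤ k * dd k := mul_nonneg hk h3.le
          have := hy.2
          have := hy.1
          gcongr

theorem hat_lip {a s t : ℝ} (ha0 : 0 ≤ a) : |hat a s - hat a t| ≤ a * |s - t| := by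
  unfold hat
  rw [← mul_sub, abs_mul, abs_of_nonneg ha0]
  have h := abs_min_sub_min_le_max s (2 - s) t (2 - t)
  have e : |2 - s - (2 - t)| = |s - t| := by
    rw [show 2 - s - (2 - t) = -(s - t) by ring, abs_neg]
  rw [e, max_self] at h
  gcongr

theorem Arm_lip {k : ℕ} {s t : ℝ} : dist (Arm k s) (Arm k t) ≤ 2 * |s - t| := by
  have h1 := dd_le k
  have h2 := kdd_le k
  have h3 := dd_pos k
  have hk : (0 : ℝ) ≤ k := Nat.cast_nonneg k
  have h0 := abs_nonneg (s - t)
  have h4 : 1 / ((k : ℝ) + 1) ≤ 1 := by rw [div_le_one (by positivity)]; linarith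
  simp only [Arm, Prod.dist_eq, Real.dist_eq]
  refine max_le ?_ (max_le ?_ ?_)
  · have := hat_lip (a := ah k) (s := s) (t := t) (by linarith [(ah_bd k).1])
    have := (ah_bd k).2
    nlinarith
  · rw [← sub_mul, abs_mul, abs_of_pos h3]
    nlinarith
  · have e : (k : ℝ) * (s * dd k) - k * (t * dd k) = (s - t) * (k * dd k) := by ring
    have h5 : 0 ≤ k * dd k := mul_nonneg hk h3.le
    rw [e, abs_mul, abs_of_nonneg h5]
    nlinarith

theorem lip_paths (x : XX) : ∃ f : ℝ → XX, LipschitzWith 4 f ∧ f 0 = ⟨_, o_mem⟩ ∧ f 1 = x := by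
  obtain ⟨x, hx⟩ := x
  rcases hx with ⟨y, hy, rfl⟩ | hx
  · obtain ⟨f, hf, f0, f1⟩ := exists_lip_of_unit (K := 4) (S := XX) (F := fun t => Zed (t * y))
      (by
        intro s _ t _
        simp only [Zed, Prod.dist_eq, Real.dist_eq, sub_self, abs_zero]
        have h0 := abs_nonneg (s - t)
        refine max_le ?_ (max_le (by simp) (by simp))
        rw [← sub_mul, abs_mul, abs_of_nonneg hy.1]
        have := hy.2
        push_cast
        nlinarith)
      (fun t ht => Zed_mem ⟨mul_nonneg ht.1 hy.1, by nlinarith [ht.2, hy.2, hy.1, ht.1]⟩)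
    refine ⟨f, hf, Subtype.ext (by rw [f0]; simp [Zed]), Subtype.ext (by rw [f1]; simp)⟩
  · obtain ⟨k, y, hy, rfl⟩ := mem_iUnion.1 hx
    obtain ⟨f, hf, f0, f1⟩ := exists_lip_of_unit (K := 4) (S := XX) (F := fun t => Arm k (t * y))
      (by
        intro s _ t _
        have := Arm_lip (k := k) (s := s * y) (t := t * y)
        rw [← sub_mul, abs_mul, abs_of_nonneg hy.1] at this
        have h0 := abs_nonneg (s - t)
        have := hy.2
        push_cast
        nlinarith)
      (fun t ht => Arm_mem ⟨mul_nonneg ht.1 hy.1, by nlinarith [ht.2, hy.2, hy.1, ht.1]⟩)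
    refine ⟨f, hf, Subtype.ext (by rw [f0]; simp [Arm_zero]), Subtype.ext (by rw [f1]; simp)⟩

instance : CompactSpace XX := isCompact_iff_compactSpace.1 XX_compact

instance : ConnectedSpace XX := connectedSpace_of_lip lip_paths

theorem unif_path : ∃ P : Set (unitInterval → XX),
    UniformEquicontinuous (Subtype.val : P → unitInterval → XX) ∧
    ∀ x y : XX, ∃ f ∈ P, f 0 = x ∧ f 1 = y := by
  refine ⟨{f | LipschitzWith 16 f}, ?_, ?_⟩
  · have := LipschitzWith.uniformEquicontinuous
      (fun (f : unitInterval → XX) => f) 16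
    exact LipschitzWith.uniformEquicontinuous
      (Subtype.val : {f : unitInterval → XX | LipschitzWith 16 f} → unitInterval → XX) 16
      (fun f => f.2)
  · intro x y
    obtain ⟨f, hf, f0, f1, f2⟩ := exists_lip_through lip_paths x y x
    refine ⟨fun t => f t, ?_, ?_, ?_⟩
    · have h16 : (16 : NNReal) = 4 * 4 := by norm_num
      show LipschitzWith 16 (fun t : unitInterval => f t)
      rw [h16]
      have := hf.comp (LipschitzWith.subtype_val (unitInterval))
      rwa [mul_one] at this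
    · simpa using f0
    · simpa using f1

/-- Separation: a connected set in the example meeting arm `k` (off the base point) and also containing a point
not on it contains the base point. -/
theorem sep_lemma {k : ℕ} {B : Set E3} (hBX : B ⊆ XX) (hB : IsPreconnected B) {u v : E3}
    (hu : u ∈ B) (hv : v ∈ B) (hcu : 0 < cc k u) (hcv : cc k v = 0) : ((0, 0, 0) : E3) ∈ B := by
  by_contra hcon
  let C : Set E3 := Arm k '' Icc 0 2
  have hC : IsCompact C := isCompact_Icc.image (Arm_cont k)
  have hU : IsOpen {x : E3 | 0 < cc k x} := isOpen_lt continuous_const (cc_cont k)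
  have hCc : ∀ x ∈ C, 0 < cc k x ∨ x = (0, 0, 0) := by
    rintro _ ⟨y, hy, rfl⟩
    rcases eq_or_lt_of_le hy.1 with h | h
    · right; rw [← h]; exact Arm_zero k
    · left; rw [cc_Arm hy.1]; exact mul_pos h (dd_pos k)
  have := hB {x : E3 | 0 < cc k x} Cᶜ hU hC.isClosed.isOpen_compl
    (by
      intro x hx
      by_cases hxC : x ∈ C
      · rcases hCc x hxC with h | h
        · exact Or.inl h
        · rw [h] at hx; exact absurd hx hcon
      · exact Or.inr hxC) ⟨u, hu, hcu⟩
    ⟨v, hv, by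
      intro hvC
      rcases hCc v hvC with h | h
      · rw [hcv] at h; exact lt_irrefl _ h
      · rw [h] at hv; exact hcon hv⟩
  obtain ⟨z, hzB, hz1, hz2⟩ := this
  obtain ⟨y, hy, hzy, -⟩ := mem_of_cc_pos (hBX hzB) hz1
  exact hz2 ⟨y, Ioc_subset_Icc_self hy, hzy.symm⟩

section Contr

variable (f : C(XX, XX)) (H : C(unitInterval × XX, XX)) (x₀ : XX)

/-- the closed set `D_i` of points whose path runs up to the height `a_i` exactly -/
def DD (i : ℕ) : Set XX :=
  {z | ∃ τ p : unitInterval, τ ≤ p ∧ (H (τ, z) : E3).1 = 0 ∧ (H (p, z) : E3).1 = aa i ∧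
    ∀ u, (H (max u τ, z) : E3).1 ≤ aa i}

theorem DD_closed (i : ℕ) : IsClosed (DD H i) := by
  have h1 : IsClosed {w : XX × unitInterval × unitInterval | w.2.1 ≤ w.2.2 ∧
      (H (w.2.1, w.1) : E3).1 = 0 ∧ (H (w.2.2, w.1) : E3).1 = aa i ∧
      ∀ u, (H (max u w.2.1, w.1) : E3).1 ≤ aa i} := by
    apply IsClosed.inter (isClosed_le (by fun_prop) (by fun_prop))
    apply IsClosed.inter (isClosed_eq (by fun_prop) continuous_const)
    apply IsClosed.inter (isClosed_eq (by fun_prop) continuous_const)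
    have : {w : XX × unitInterval × unitInterval | ∀ u, (H (max u w.2.1, w.1) : E3).1 ≤ aa i} =
        ⋂ u, {w | (H (max u w.2.1, w.1) : E3).1 ≤ aa i} := by ext; simp
    show IsClosed {w : XX × unitInterval × unitInterval | ∀ u, (H (max u w.2.1, w.1) : E3).1 ≤ aa i}
    rw [this]
    exact isClosed_iInter fun u => isClosed_le (by fun_prop) continuous_const
  have h2 : DD H i = Prod.fst '' {w : XX × unitInterval × unitInterval | w.2.1 ≤ w.2.2 ∧
      (H (w.2.1, w.1) : E3).1 = 0 ∧ (H (w.2.2, w.1) : E3).1 = aa i ∧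
      ∀ u, (H (max u w.2.1, w.1) : E3).1 ≤ aa i} := by
    ext z
    constructor
    · rintro ⟨τ, p, h⟩
      exact ⟨(z, τ, p), h, rfl⟩
    · rintro ⟨⟨z', τ, p⟩, h, rfl⟩
      exact ⟨τ, p, h⟩
  rw [h2]
  exact (h1.isCompact.image continuous_fst).isClosed

/-- Points sent by `f` to the second lap of arm `k` are in `D_i`, `i` the type of `k`. -/
theorem mem_DD (h0 : ∀ x, H (0, x) = x₀) (h1 : ∀ x, H (1, x) = f x) {k : ℕ}
    (hk : cc k (x₀ : E3) = 0) {x : XX} {y : ℝ} (hy : y ∈ Icc (1 : ℝ) 2) (hfx : (f x : E3) = Arm k y) :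
    x ∈ DD H (Nat.unpair k).1 := by
  let c : unitInterval → ℝ := fun u => cc k (H (u, x) : E3)
  have hc : Continuous c := (cc_cont k).comp (by fun_prop)
  have hc0 : c 0 = 0 := by simp only [c, h0]; exact hk
  have hc1 : c 1 = y * dd k := by
    simp only [c, h1, hfx]; exact cc_Arm (by linarith [hy.1])
  have hd := dd_pos k
  -- last zero
  let S : Set unitInterval := {u | c u = 0}
  have hS : IsCompact S := (isClosed_eq hc continuous_const).isCompact
  have hSne : S.Nonempty := ⟨0, hc0⟩
  obtain ⟨τ, hτS, hτ⟩ := hS.exists_isGreatest hSne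
  have hcτ : c τ = 0 := hτS
  have hpos : ∀ u, τ < u → 0 < c u := by
    intro u hu
    rcases (cc_nonneg k (H (u, x) : E3)).lt_or_eq with h | h
    · exact h
    · exact absurd (hτ (show c u = 0 from h.symm)) (not_le.2 hu)
  have hτ1 : τ ≤ 1 := le_top
  -- at τ the path is at the base point
  have hbase : (H (τ, x) : E3) = (0, 0, 0) := by
    let B : Set E3 := (fun u : unitInterval => (H (u, x) : E3)) '' Icc τ 1
    have hB : IsPreconnected B := isPreconnected_Icc.image _ (by fun_prop)
    have := sep_lemma (k := k) (B := B) (by rintro _ ⟨u, _, rfl⟩; exact (H (u, x)).2) hB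
      (u := (H (1, x) : E3)) (v := (H (τ, x) : E3)) ⟨1, ⟨hτ1, le_rfl⟩, rfl⟩ ⟨τ, ⟨le_rfl, hτ1⟩, rfl⟩
      (by
        have : cc k (H (1, x) : E3) = y * dd k := hc1
        rw [this]; have := hy.1; positivity) hcτ
    obtain ⟨u, hu, hu0⟩ := this
    have hcu : c u = 0 := by
      simp only [c]
      rw [show (H (u, x) : E3) = (0, 0, 0) from hu0]
      simp [cc]
    have := hτ (show u ∈ S from hcu)
    have : u = τ := le_antisymm this hu.1
    rw [← this]; exact hu0
  -- p
  obtain ⟨p, hp, hcp⟩ : ∃ p ∈ Icc τ 1, c p = dd k := by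
    have := intermediate_value_Icc hτ1 hc.continuousOn
    apply this
    rw [hcτ, hc1]
    constructor
    · exact hd.le
    · nlinarith [hy.1]
  refine ⟨τ, p, hp.1, ?_, ?_, ?_⟩
  · rw [hbase]
  · obtain ⟨y', hy', he, hcc⟩ := mem_of_cc_pos (H (p, x)).2 (show 0 < cc k (H (p, x) : E3) by
      rw [show cc k (H (p, x) : E3) = dd k from hcp]; exact hd)
    rw [show cc k (H (p, x) : E3) = dd k from hcp] at hcc
    have : y' = 1 := by
      have : 1 * dd k = y' * dd k := by rw [one_mul]; exact hcc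
      exact (mul_right_cancel₀ hd.ne' this).symm
    rw [he, this]
    simp only [Arm, hat, ah]
    norm_num
  · intro u
    rcases le_or_gt u τ with hu | hu
    · rw [max_eq_right hu, hbase]
      have := aa_gt (Nat.unpair k).1
      show (0 : ℝ) ≤ _
      linarith
    · rw [max_eq_left hu.le]
      obtain ⟨y', hy', he, -⟩ := mem_of_cc_pos (H (u, x)).2 (hpos u hu)
      rw [he]
      exact (hat_mem (a := ah k) (by linarith [(ah_bd k).1]) (by linarith [(ah_bd k).2])
        (Ioc_subset_Icc_self hy')).2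

end Contr

/-- A unified family of paths from the base point. -/
noncomputable def PP (j : ℕ) (t : ℝ) : E3 := if j = 0 then Zed t else Arm (j - 1) t

theorem PP_cont (j : ℕ) : Continuous (PP j) := by
  unfold PP
  by_cases h : j = 0
  · simp only [h, if_true]; exact Zed_cont
  · simp only [h, if_false]; exact Arm_cont _

theorem PP_mem (j : ℕ) {t : ℝ} (h : t ∈ Icc (0 : ℝ) 2) : PP j t ∈ XX := by
  unfold PP
  split_ifs
  · exact Zed_mem h
  · exact Arm_mem h

theorem exists_PP (x : XX) : ∃ j : ℕ, ∃ t ∈ Icc (0 : ℝ) 2, (x : E3) = PP j t := by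
  obtain ⟨x, hx⟩ := x
  rcases hx with ⟨t, ht, rfl⟩ | hx
  · exact ⟨0, t, ht, by simp [PP]⟩
  · obtain ⟨k, y, hy, rfl⟩ := mem_iUnion.1 hx
    exact ⟨k + 1, y, hy, by simp [PP]⟩

theorem PP_zero (j : ℕ) : PP j 0 = (0, 0, 0) := by
  unfold PP
  split_ifs
  · rfl
  · exact Arm_zero _

theorem PP_small {j : ℕ} {t : ℝ} (h : t ∈ Icc (0 : ℝ) 2) :
    |(PP j t).2.1| ≤ (if j = 0 then 0 else 2 / (j : ℝ)) ∧
    |(PP j t).2.2| ≤ (if j = 0 then 0 else 2 / (j : ℝ)) := by
  unfold PP
  by_cases hj : j = 0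
  · simp [hj, Zed]
  · obtain ⟨k, rfl⟩ := Nat.exists_eq_succ_of_ne_zero hj
    simp only [hj, if_false, Nat.succ_eq_add_one, Nat.add_sub_cancel, Arm]
    have h1 := dd_le k
    have h2 := kdd_le k
    have h3 := dd_pos k
    have hk : (0 : ℝ) ≤ k := Nat.cast_nonneg k
    have e : 2 / (((k + 1 : ℕ) : ℝ)) = 2 * (1 / ((k : ℝ) + 1)) := by push_cast; ring
    rw [e]
    constructor
    · rw [abs_of_nonneg (mul_nonneg h.1 h3.le)]
      nlinarith [h.2, h.1]
    · rw [abs_of_nonneg (mul_nonneg hk (mul_nonneg h.1 h3.le))]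
      calc (k : ℝ) * (t * dd k) = t * (k * dd k) := by ring
        _ ≤ 2 * (1 / ((k : ℝ) + 1)) := by
          have h4 : 0 ≤ k * dd k := mul_nonneg hk h3.le
          have := h.2
          have := h.1
          gcongr

theorem cc_unique {x : E3} (hx : x ∈ XX) {j k : ℕ} (hj : 0 < cc j x) (hk : 0 < cc k x) : j = k := by
  by_contra hne
  obtain ⟨y, hy, rfl, -⟩ := mem_of_cc_pos hx hj
  rw [cc_Arm_ne hne hy.1.le] at hk
  exact lt_irrefl _ hk

/-- the grid points -/
noncomputable def grid (δ : ℝ) (l : ℕ) : XX :=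
  ⟨Zed (min (l * (|δ| / 2)) 2), Zed_mem ⟨le_min (by positivity) (by norm_num), min_le_right _ _⟩⟩

theorem exists_grid {δ h₁ h₂ : ℝ} (hδ : 0 < δ) (h1 : 0 ≤ h₁) (h2 : h₂ ≤ 2) (h : h₁ + δ ≤ h₂) :
    ∃ l : ℕ, l < ⌈4 / δ⌉₊ + 1 ∧ (grid δ l : E3).1 ∈ Icc h₁ h₂ := by
  have habs : |δ| = δ := abs_of_pos hδ
  refine ⟨⌈h₁ / (δ / 2)⌉₊, ?_, ?_⟩
  · apply Nat.lt_succ_of_le
    apply Nat.ceil_le_ceil
    rw [div_le_div_iff₀ (by positivity) hδ]
    nlinarith
  · have hc1 := Nat.le_ceil (h₁ / (δ / 2))
    have hc2 := Nat.ceil_lt_add_one (show 0 ≤ h₁ / (δ / 2) by positivity)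
    have e1 : h₁ ≤ (⌈h₁ / (δ / 2)⌉₊ : ℝ) * (δ / 2) := by
      rwa [div_le_iff₀ (by positivity)] at hc1
    have e2 : (⌈h₁ / (δ / 2)⌉₊ : ℝ) * (δ / 2) ≤ h₁ + δ / 2 := by
      have : (⌈h₁ / (δ / 2)⌉₊ : ℝ) * (δ / 2) < (h₁ / (δ / 2) + 1) * (δ / 2) := by
        apply mul_lt_mul_of_pos_right hc2 (by positivity)
      have e3 : (h₁ / (δ / 2) + 1) * (δ / 2) = h₁ + δ / 2 := by field_simp
      linarith
    simp only [grid, Zed, habs]
    constructor
    · apply le_min e1; linarith
    · exact (min_le_left _ _).trans (by linarith)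

theorem contradiction_main (f : C(XX, XX)) (hf : Function.Surjective f)
    (H : C(unitInterval × XX, XX)) (x₀ : XX) (h0 : ∀ x, H (0, x) = x₀) (h1 : ∀ x, H (1, x) = f x) :
    False := by
  -- uniform continuity of f
  have huc : UniformContinuous f := CompactSpace.uniformContinuous_of_continuous f.continuous
  obtain ⟨δ₀, hδ₀, hfδ₀⟩ := Metric.uniformContinuous_iff.1 huc (1 / 4) (by norm_num)
  set δ : ℝ := min δ₀ (1 / 2) with hδdef
  have hδ : 0 < δ := lt_min hδ₀ (by norm_num)
  have hδ1 : δ < 1 := (min_le_right _ _).trans_lt (by norm_num)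
  have hfδ : ∀ {x y : XX}, dist x y < δ → dist (f x) (f y) < 1 / 4 := fun h =>
    hfδ₀ (h.trans_le (min_le_left _ _))
  set N : ℕ := ⌈4 / δ⌉₊ + 1 with hN
  -- every D_i contains a grid point
  have key : ∀ i : ℕ, ∃ l : Fin N, grid δ l ∈ DD H i := by
    intro i
    by_contra hcon
    push Not at hcon
    -- uniform radius
    have hopen : IsOpen (DD H i)ᶜ := (DD_closed H i).isOpen_compl
    obtain ⟨ε₀, hε₀, hball⟩ : ∃ ε > 0, ∀ l : Fin N, Metric.ball (grid δ l) ε ⊆ (DD H i)ᶜ := by
      have : ∀ l : Fin N, ∃ ε > 0, Metric.ball (grid δ l) ε ⊆ (DD H i)ᶜ := fun l =>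
        Metric.isOpen_iff.1 hopen _ (hcon l)
      choose ε hε hb using this
      have hNne : (Finset.univ : Finset (Fin N)).Nonempty := ⟨⟨0, by omega⟩, Finset.mem_univ _⟩
      refine ⟨Finset.univ.inf' hNne ε, ?_, ?_⟩
      · rw [gt_iff_lt, Finset.lt_inf'_iff]
        intro l _; exact hε l
      · intro l
        exact (Metric.ball_subset_ball (Finset.inf'_le _ (Finset.mem_univ l))).trans (hb l)
    set ε : ℝ := min ε₀ δ with hεdef
    have hε : 0 < ε := lt_min hε₀ hδ
    obtain ⟨J, hJ⟩ := exists_nat_gt (4 / ε)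
    -- the target points
    set a := aa i with ha
    have ha1 : 1 < a := aa_gt i
    have ha2 : a ≤ 3 / 2 := aa_le i
    set y₂ : ℝ := 2 - 1 / (2 * a) with hy₂
    set y₁ : ℝ := 2 - 3 / (4 * a) with hy₁
    have hia : 0 < 1 / a := by positivity
    have hia1 : 1 / a < 1 := by rw [div_lt_one (by positivity)]; exact ha1
    have e2 : 1 / (2 * a) = (1 / a) / 2 := by field_simp
    have e1 : 3 / (4 * a) = 3 / 4 * (1 / a) := by field_simp
    have hy₂b : 1 < y₂ ∧ y₂ < 2 := by rw [hy₂, e2]; constructor <;> linarith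
    have hy₁b : 1 < y₁ ∧ y₁ < y₂ := by rw [hy₁, hy₂, e1, e2]; constructor <;> linarith
    have hhat₂ : hat a y₂ = 1 / 2 := by
      unfold hat
      rw [min_eq_right (by linarith [hy₂b.1])]
      rw [hy₂]; field_simp; ring
    have hhat₁ : hat a y₁ = 3 / 4 := by
      unfold hat
      rw [min_eq_right (by linarith [hy₁b.1])]
      rw [hy₁]; field_simp; ring
    have hah : ∀ m, ah (Nat.pair i m) = a := by intro m; simp [ah, ha]
    -- sources
    have hsrc : ∀ m : ℕ, ∃ j : ℕ, ∃ t ∈ Icc (0 : ℝ) 2, ∃ hx : PP j t ∈ XX,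
        (f ⟨PP j t, hx⟩ : E3) = Arm (Nat.pair i m) y₂ := by
      intro m
      obtain ⟨x, hx⟩ := hf ⟨Arm (Nat.pair i m) y₂, Arm_mem ⟨by linarith [hy₂b.1], hy₂b.2.le⟩⟩
      obtain ⟨j, t, ht, hxe⟩ := exists_PP x
      refine ⟨j, t, ht, PP_mem j ht, ?_⟩
      have : (⟨PP j t, PP_mem j ht⟩ : XX) = x := Subtype.ext hxe.symm
      rw [this, hx]
    choose j t ht hx hft using hsrc
    -- exceptional indices
    have hexc : ∀ m, cc (Nat.pair i m) (x₀ : E3) = 0 → cc (Nat.pair i m) (f ⟨_, o_mem⟩ : E3) = 0 →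
        j m < J := by
      intro m hm1 hm2
      by_contra hjJ
      push Not at hjJ
      set k := Nat.pair i m with hk
      have hkd := dd_pos k
      let F : ℝ → XX := fun s => ⟨PP (j m) (projIcc 0 2 (by norm_num) s),
        PP_mem _ (projIcc 0 2 (by norm_num) s).2⟩
      have hF : Continuous F := by
        apply Continuous.subtype_mk
        exact (PP_cont _).comp (continuous_subtype_val.comp continuous_projIcc)
      have hFval : ∀ s ∈ Icc (0 : ℝ) 2, (F s : E3) = PP (j m) s := by
        intro s hs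
        simp only [F]
        rw [projIcc_of_mem _ hs]
      let c : ℝ → ℝ := fun s => cc k (f (F s) : E3)
      have hc : Continuous c := (cc_cont k).comp (continuous_subtype_val.comp (f.continuous.comp hF))
      have hc0 : c 0 = 0 := by
        simp only [c]
        have : F 0 = ⟨_, o_mem⟩ := Subtype.ext (by rw [hFval 0 (by simp), PP_zero])
        rw [this]; exact hm2
      have hFt : (f (F (t m)) : E3) = Arm k y₂ := by
        have : F (t m) = ⟨PP (j m) (t m), hx m⟩ := Subtype.ext (hFval _ (ht m))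
        rw [this]; exact hft m
      have hct : c (t m) = y₂ * dd k := by
        simp only [c]; rw [hFt]; exact cc_Arm (by linarith [hy₂b.1])
      -- last time with c ≤ y₁ dd
      let S : Set ℝ := {s | s ∈ Icc 0 (t m) ∧ c s ≤ y₁ * dd k}
      have hS : IsCompact S := by
        have : S = Icc 0 (t m) ∩ {s | c s ≤ y₁ * dd k} := rfl
        rw [this]
        exact isCompact_Icc.inter_right (isClosed_le hc continuous_const)
      have hSne : S.Nonempty := ⟨0, ⟨le_rfl, (ht m).1⟩, by
        rw [hc0]; have := hy₁b.1; positivity⟩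
      obtain ⟨s, hsS, hsmax⟩ := hS.exists_isGreatest hSne
      have hst : s < t m := by
        refine lt_of_le_of_ne hsS.1.2 ?_
        rintro rfl
        have := hsS.2
        rw [hct] at this
        have := hy₁b.2
        nlinarith
      have hgt : ∀ u ∈ Ioc s (t m), y₁ * dd k < c u := by
        intro u hu
        by_contra hcon'
        have := hsmax (show u ∈ S from ⟨⟨hsS.1.1.trans hu.1.le, hu.2⟩, not_lt.1 hcon'⟩)
        linarith [hu.1]
      have hcs : c s = y₁ * dd k := by
        apply le_antisymm hsS.2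
        -- limit from the right
        have hcl : s ∈ closure (Ioc s (t m)) := by
          rw [closure_Ioc hst.ne]; exact ⟨le_rfl, hst.le⟩
        have : closure (Ioc s (t m)) ⊆ {u | y₁ * dd k ≤ c u} :=
          closure_minimal (fun u hu => (hgt u hu).le) (isClosed_le continuous_const hc)
        exact this hcl
      have hge : ∀ u ∈ Icc s (t m), y₁ * dd k ≤ c u := by
        intro u hu
        rcases eq_or_lt_of_le hu.1 with h | h
        · rw [← h, hcs]
        · exact (hgt u ⟨h, hu.2⟩).le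
      -- points of the segment are in D_i
      have hseg : ∀ u ∈ Icc s (t m), F u ∈ DD H i := by
        intro u hu
        have hcu := hge u hu
        have hpos : 0 < cc k (f (F u) : E3) := lt_of_lt_of_le (by have := hy₁b.1; positivity) hcu
        obtain ⟨y, hy, hey, hcy⟩ := mem_of_cc_pos (f (F u)).2 hpos
        have hy1 : 1 ≤ y := by
          have : y₁ * dd k ≤ y * dd k := by rw [← hcy]; exact hcu
          have := le_of_mul_le_mul_right this hkd
          linarith [hy₁b.1]
        have := mem_DD f H x₀ h0 h1 (k := k) hm1 (x := F u) ⟨hy1, hy.2⟩ hey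
        rw [hk, Nat.unpair_pair] at this
        exact this
      -- heights of the images of the ends
      have hfs : (f (F s) : E3).1 = 3 / 4 := by
        have hpos : 0 < cc k (f (F s) : E3) := by
          rw [show cc k (f (F s) : E3) = y₁ * dd k from hcs]
          have := hy₁b.1; positivity
        obtain ⟨y, hy, hey, hcy⟩ := mem_of_cc_pos (f (F s)).2 hpos
        rw [show cc k (f (F s) : E3) = y₁ * dd k from hcs] at hcy
        have : y = y₁ := (mul_right_cancel₀ hkd.ne' hcy).symm
        rw [hey, this]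
        show hat (ah k) y₁ = _
        rw [hk, hah]; exact hhat₁
      have hft' : (f (F (t m)) : E3).1 = 1 / 2 := by
        rw [hFt]
        show hat (ah k) y₂ = _
        rw [hk, hah]; exact hhat₂
      -- so F s and F (t m) are far apart
      have hfar : δ ≤ dist (F s) (F (t m)) := by
        by_contra hlt
        have := hfδ (not_le.1 hlt)
        rw [Subtype.dist_eq, Prod.dist_eq] at this
        have := (le_max_left _ _).trans_lt this
        rw [hfs, hft', Real.dist_eq] at this
        norm_num at this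
      -- small transversal coordinates
      have hsm : ∀ u ∈ Icc (0 : ℝ) 2, |(PP (j m) u).2.1| < ε / 2 ∧ |(PP (j m) u).2.2| < ε / 2 := by
        intro u hu
        have hp := PP_small (j := j m) hu
        have : (if j m = 0 then (0 : ℝ) else 2 / (j m : ℝ)) < ε / 2 := by
          split_ifs with h
          · positivity
          · have hjm : (J : ℝ) ≤ j m := by exact_mod_cast hjJ
            have hjpos : (0 : ℝ) < j m := by
              have : 0 < j m := Nat.pos_of_ne_zero h
              exact_mod_cast this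
            rw [div_lt_iff₀ hjpos]
            rw [div_lt_iff₀ hε] at hJ
            nlinarith
        exact ⟨hp.1.trans_lt this, hp.2.trans_lt this⟩
      have hs2 : s ∈ Icc (0 : ℝ) 2 := ⟨hsS.1.1, hsS.1.2.trans (ht m).2⟩
      have hεδ : ε ≤ δ := min_le_right _ _
      -- heights differ by at least δ
      have hhd : δ ≤ |(PP (j m) s).1 - (PP (j m) (t m)).1| := by
        rw [Subtype.dist_eq, hFval s hs2, hFval _ (ht m), Prod.dist_eq, Prod.dist_eq] at hfar
        have b1 := hsm s hs2
        have b2 := hsm (t m) (ht m)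
        have d1 : dist (PP (j m) s).2.1 (PP (j m) (t m)).2.1 < δ := by
          rw [Real.dist_eq]
          calc _ ≤ |(PP (j m) s).2.1| + |(PP (j m) (t m)).2.1| := abs_sub _ _
            _ < ε / 2 + ε / 2 := add_lt_add b1.1 b2.1
            _ ≤ δ := by linarith
        have d2 : dist (PP (j m) s).2.2 (PP (j m) (t m)).2.2 < δ := by
          rw [Real.dist_eq]
          calc _ ≤ |(PP (j m) s).2.2| + |(PP (j m) (t m)).2.2| := abs_sub _ _
            _ < ε / 2 + ε / 2 := add_lt_add b1.2 b2.2
            _ ≤ δ := by linarith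
        rcases le_max_iff.1 hfar with h | h
        · rwa [Real.dist_eq] at h
        · rcases le_max_iff.1 h with h | h
          · exact absurd h (not_le.2 d1)
          · exact absurd h (not_le.2 d2)
      -- height bounds
      have hht : ∀ u ∈ Icc (0 : ℝ) 2, (PP (j m) u).1 ∈ Icc (0 : ℝ) 2 := by
        intro u hu
        unfold PP
        split_ifs
        · exact hu
        · exact (hat_mem (by linarith [(ah_bd (j m - 1)).1]) (by linarith [(ah_bd (j m - 1)).2]) hu).1
      -- a grid height between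
      obtain ⟨l, hlN, hl⟩ : ∃ l : ℕ, l < N ∧ (grid δ l : E3).1 ∈
          uIcc (PP (j m) s).1 (PP (j m) (t m)).1 := by
        rcases le_total (PP (j m) s).1 (PP (j m) (t m)).1 with hle | hle
        · rw [uIcc_of_le hle]
          apply exists_grid hδ (hht s hs2).1 (hht _ (ht m)).2
          rw [abs_sub_comm, abs_of_nonneg (by linarith)] at hhd
          linarith
        · rw [uIcc_of_ge hle]
          apply exists_grid hδ (hht _ (ht m)).1 (hht s hs2).2
          rw [abs_of_nonneg (by linarith)] at hhd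
          linarith
      -- intermediate value
      obtain ⟨u, hu, hue⟩ : ∃ u ∈ Icc s (t m), (PP (j m) u).1 = (grid δ l : E3).1 := by
        have hcont : ContinuousOn (fun u => (PP (j m) u).1) (uIcc s (t m)) :=
          (continuous_fst.comp (PP_cont _)).continuousOn
        have := intermediate_value_uIcc hcont hl
        rw [uIcc_of_le hst.le] at this
        exact this
      have hu2 : u ∈ Icc (0 : ℝ) 2 := ⟨hsS.1.1.trans hu.1, hu.2.trans (ht m).2⟩
      have hclose : F u ∈ Metric.ball (grid δ l) ε₀ := by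
        rw [Metric.mem_ball, Subtype.dist_eq, hFval u hu2, Prod.dist_eq, Prod.dist_eq, hue]
        have b1 := hsm u hu2
        have hεε : ε ≤ ε₀ := min_le_left _ _
        simp only [grid, Zed, dist_self, Real.dist_eq, sub_zero]
        refine max_lt hε₀ (max_lt ?_ ?_)
        · linarith [b1.1]
        · linarith [b1.2]
      exact hball ⟨l, hlN⟩ hclose (hseg u hu)
    -- infinitely many good m; two of them with the same j and close t
    -- bad set is finite
    have hbadfin : {m : ℕ | ¬ (cc (Nat.pair i m) (x₀ : E3) = 0 ∧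
        cc (Nat.pair i m) (f ⟨_, o_mem⟩ : E3) = 0)}.Finite := by
      have h1 : ∀ z : XX, {m : ℕ | ¬ cc (Nat.pair i m) (z : E3) = 0}.Subsingleton := by
        intro z m hm m' hm'
        have p1 : 0 < cc (Nat.pair i m) (z : E3) := lt_of_le_of_ne (cc_nonneg _ _) (Ne.symm hm)
        have p2 : 0 < cc (Nat.pair i m') (z : E3) := lt_of_le_of_ne (cc_nonneg _ _) (Ne.symm hm')
        have := cc_unique z.2 p1 p2
        exact (Nat.pair_eq_pair.1 this).2
      refine ((h1 x₀).finite.union (h1 (f ⟨_, o_mem⟩)).finite).subset ?_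
      intro m hm
      by_cases h : cc (Nat.pair i m) (x₀ : E3) = 0
      · exact Or.inr fun h' => hm ⟨h, h'⟩
      · exact Or.inl h
    have hgoodinf : {m : ℕ | cc (Nat.pair i m) (x₀ : E3) = 0 ∧
        cc (Nat.pair i m) (f ⟨_, o_mem⟩ : E3) = 0}.Infinite := by
      have := hbadfin.infinite_compl
      convert this using 1
      ext m
      simp
    have : Infinite {m : ℕ | cc (Nat.pair i m) (x₀ : E3) = 0 ∧
        cc (Nat.pair i m) (f ⟨_, o_mem⟩ : E3) = 0} := hgoodinf.to_subtype
    -- common j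
    obtain ⟨j₀, hj₀⟩ := Finite.exists_infinite_fiber
      (fun m : {m : ℕ | cc (Nat.pair i m) (x₀ : E3) = 0 ∧
        cc (Nat.pair i m) (f ⟨_, o_mem⟩ : E3) = 0} => (⟨j m, hexc m m.2.1 m.2.2⟩ : Fin J))
    -- uniform continuity of f along PP j₀
    let F : ℝ → XX := fun s => ⟨PP j₀ (projIcc 0 2 (by norm_num) s),
        PP_mem _ (projIcc 0 2 (by norm_num) s).2⟩
    have hF : Continuous F := by
      apply Continuous.subtype_mk
      exact (PP_cont _).comp (continuous_subtype_val.comp continuous_projIcc)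
    have hFval : ∀ s ∈ Icc (0 : ℝ) 2, (F s : E3) = PP j₀ s := by
      intro s hs
      simp only [F]
      rw [projIcc_of_mem _ hs]
    have hunif : UniformContinuousOn (fun s => f (F s)) (Icc 0 2) :=
      isCompact_Icc.uniformContinuousOn_of_continuous (f.continuous.comp hF).continuousOn
    obtain ⟨η, hη, hηf⟩ := Metric.uniformContinuousOn_iff.1 hunif (1 / 2) (by norm_num)
    -- pigeonhole on t
    obtain ⟨q, hq⟩ := exists_nat_gt (2 / η)
    have hqpos : (0 : ℝ) < q := lt_trans (by positivity) hq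
    let g : (((fun m : {m : ℕ | cc (Nat.pair i m) (x₀ : E3) = 0 ∧
        cc (Nat.pair i m) (f ⟨_, o_mem⟩ : E3) = 0} => (⟨j m, hexc m m.2.1 m.2.2⟩ : Fin J)) ⁻¹' {j₀})) →
        Fin (q + 1) := fun m => ⟨⌊t m.1 * q / 2⌋₊, by
          apply Nat.lt_succ_of_le
          have : t m.1 * q / 2 ≤ q := by
            have := (ht m.1).2
            nlinarith
          exact (Nat.floor_le_floor this).trans (by simp)⟩
    obtain ⟨m, m', hmm', hgm⟩ := Finite.exists_ne_map_eq_of_infinite g
    have hjm : j m.1 = j₀ := congrArg Fin.val m.2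
    have hjm' : j m'.1 = j₀ := congrArg Fin.val m'.2
    have hfl : ⌊t m.1 * q / 2⌋₊ = ⌊t m'.1 * q / 2⌋₊ := congrArg Fin.val hgm
    have hclose : |t m.1 - t m'.1| < η := by
      have a1 := Nat.floor_le (show 0 ≤ t m.1 * q / 2 by have := (ht m.1).1; positivity)
      have a2 := Nat.lt_floor_add_one (t m.1 * q / 2)
      have b1 := Nat.floor_le (show 0 ≤ t m'.1 * q / 2 by have := (ht m'.1).1; positivity)
      have b2 := Nat.lt_floor_add_one (t m'.1 * q / 2)
      rw [hfl] at a1 a2
      have hd : |t m.1 * q / 2 - t m'.1 * q / 2| < 1 := by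
        rw [abs_lt]; constructor <;> linarith
      have e : t m.1 * q / 2 - t m'.1 * q / 2 = (t m.1 - t m'.1) * (q / 2) := by ring
      rw [e, abs_mul, abs_of_pos (by positivity : (0 : ℝ) < q / 2)] at hd
      rw [div_lt_iff₀ hη] at hq
      by_contra hcon'
      push Not at hcon'
      have hm1 : η * (q / 2) ≤ |t m.1 - t m'.1| * (q / 2) :=
        mul_le_mul_of_nonneg_right hcon' (by positivity)
      have hm2 : η * ((q : ℝ) / 2) = (q * η) / 2 := by ring
      rw [hm2] at hm1
      linarith only [hm1, hd, hq]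
    have hne : (m.1 : ℕ) ≠ m'.1 := by
      intro h
      apply hmm'
      exact Subtype.ext (Subtype.ext h)
    -- the connected image
    let B : Set E3 := (fun s => (f (F s) : E3)) '' uIcc (t m.1) (t m'.1)
    have hsub2 : uIcc (t m.1) (t m'.1) ⊆ Icc (0 : ℝ) 2 := by
      intro s hs
      have := (uIcc_subset_Icc (ht m.1) (ht m'.1)) hs
      exact this
    have hB : IsPreconnected B := isPreconnected_uIcc.image _
      (continuous_subtype_val.comp (f.continuous.comp hF)).continuousOn
    have hFm : (f (F (t m.1)) : E3) = Arm (Nat.pair i m.1) y₂ := by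
      have : F (t m.1) = ⟨PP (j m.1) (t m.1), hx m.1⟩ :=
        Subtype.ext (by
          rw [hFval _ (ht m.1)]
          show PP (j₀ : ℕ) (t m.1) = PP (j m.1) (t m.1)
          rw [hjm])
      rw [this]; exact hft m.1
    have hFm' : (f (F (t m'.1)) : E3) = Arm (Nat.pair i m'.1) y₂ := by
      have : F (t m'.1) = ⟨PP (j m'.1) (t m'.1), hx m'.1⟩ :=
        Subtype.ext (by
          rw [hFval _ (ht m'.1)]
          show PP (j₀ : ℕ) (t m'.1) = PP (j m'.1) (t m'.1)
          rw [hjm'])
      rw [this]; exact hft m'.1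
    have hy₂0 : 0 ≤ y₂ := by linarith [hy₂b.1]
    have ho := sep_lemma (k := Nat.pair i m.1) (B := B)
      (by rintro _ ⟨s, _, rfl⟩; exact (f (F s)).2) hB
      (u := (f (F (t m.1)) : E3)) (v := (f (F (t m'.1)) : E3)) ⟨_, left_mem_uIcc, rfl⟩
      ⟨_, right_mem_uIcc, rfl⟩
      (by
        rw [hFm, cc_Arm hy₂0]
        have := dd_pos (Nat.pair i m.1)
        have := hy₂b.1
        positivity)
      (by
        rw [hFm', cc_Arm_ne _ hy₂0]
        intro h
        exact hne (Nat.pair_eq_pair.1 h).2.symm)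
    obtain ⟨s, hs, hso⟩ := ho
    have hd1 : dist s (t m.1) < η := by
      rw [Real.dist_eq]
      calc |s - t m.1| ≤ |t m'.1 - t m.1| := abs_sub_left_of_mem_uIcc hs
        _ < η := by rw [abs_sub_comm]; exact hclose
    have hd2 := hηf s (hsub2 hs) (t m.1) (ht m.1) hd1
    rw [Subtype.dist_eq, Prod.dist_eq] at hd2
    have hd3 := (le_max_left _ _).trans_lt hd2
    have hh1 : (f (F (t m.1)) : E3).1 = 1 / 2 := by
      rw [hFm]
      show hat (ah (Nat.pair i m.1)) y₂ = _
      rw [hah]; exact hhat₂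
    have hh2 : (f (F s) : E3).1 = 0 := congrArg Prod.fst hso
    rw [hh1, hh2, Real.dist_eq] at hd3
    norm_num at hd3
  -- pigeonhole: one grid point works for infinitely many i
  choose l hl using key
  obtain ⟨l₀, hl₀⟩ := Finite.exists_infinite_fiber l
  set z := grid δ l₀ with hz
  have hinf : (l ⁻¹' {l₀}).Infinite := Set.infinite_coe_iff.1 hl₀
  have hDz : ∀ i ∈ l ⁻¹' {l₀}, z ∈ DD H i := by
    intro i hi
    have := hl i
    rw [show l i = l₀ from hi] at this
    exact this
  let γ : unitInterval → ℝ := fun u => (H (u, z) : E3).1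
  have hγ : Continuous γ := by
    simp only [γ]
    fun_prop
  have hγu : UniformContinuous γ := CompactSpace.uniformContinuous_of_continuous hγ
  obtain ⟨η, hη, hηγ⟩ := Metric.uniformContinuous_iff.1 hγu 1 one_pos
  choose! τ p hτp hγτ hγp hγmax using hDz
  -- enumerate
  let e := Nat.Subtype.orderIsoOfNat (l ⁻¹' {l₀})
  have claim : ∀ n : ℕ, (n : ℝ) * η ≤ (p (e n) : ℝ) := by
    intro n
    induction n with
    | zero => simp; exact (p (e 0)).2.1
    | succ n ih =>
      have hlt : (e n : ℕ) < (e (n + 1) : ℕ) := by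
        have : e n < e (n + 1) := e.strictMono (Nat.lt_succ_self n)
        exact this
      have m1 : (e n : ℕ) ∈ l ⁻¹' {l₀} := (e n).2
      have m2 : (e (n + 1) : ℕ) ∈ l ⁻¹' {l₀} := (e (n + 1)).2
      have g1 : γ (p (e n)) = aa (e n) := hγp _ m1
      have g2 : γ (τ (e (n + 1))) = 0 := hγτ _ m2
      have g3 : γ (p (e (n + 1))) = aa (e (n + 1)) := hγp _ m2
      have hanti := aa_anti hlt
      -- p_n < τ_{n+1}
      have h3 : p (e n) < τ (e (n + 1)) := by
        by_contra hcon
        push Not at hcon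
        have := hγmax _ m2 (p (e n))
        rw [max_eq_left hcon] at this
        have : γ (p (e n)) ≤ aa (e (n + 1)) := this
        linarith
      have h4 : η ≤ dist (p (e (n + 1))) (τ (e (n + 1))) := by
        by_contra hcon
        have := hηγ (not_le.1 hcon)
        rw [g2, g3, Real.dist_eq, sub_zero] at this
        have h5 := aa_gt (e (n + 1))
        have h6 := le_abs_self (aa (e (n + 1)))
        linarith
      have h5 : (τ (e (n + 1)) : ℝ) ≤ p (e (n + 1)) := hτp _ m2
      have h6 : (p (e n) : ℝ) < τ (e (n + 1)) := h3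
      rw [Subtype.dist_eq, Real.dist_eq, abs_of_nonneg (by linarith)] at h4
      push_cast
      linarith
  obtain ⟨n, hn⟩ := exists_nat_gt (1 / η)
  have h1' := claim n
  have h2' : (p (e n) : ℝ) ≤ 1 := (p (e n)).2.2
  rw [div_lt_iff₀ hη] at hn
  linarith

end Example

/-- The negation of the preceding statement: Every compact connected metric space with an equicontinuous family of paths joining every pair of points admits a continuous map onto itself that is homotopic to a constant map. -/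
theorem result :
    ¬ (∀ (X : Type) [MetricSpace X] [CompactSpace X] [ConnectedSpace X],
      (∃ P : Set (unitInterval → X),
          UniformEquicontinuous (Subtype.val : P → unitInterval → X) ∧
          ∀ x y : X, ∃ f ∈ P, f 0 = x ∧ f 1 = y) →
      ∃ (f : C(X, X)) (x₀ : X),
        Function.Surjective f ∧ ContinuousMap.Homotopic f (ContinuousMap.const X x₀)) := by
  intro hall
  obtain ⟨f, x₀, hf, hH⟩ := hall XX unif_path
  obtain ⟨G⟩ := hH.symm
  exact contradiction_main f hf G.toContinuousMap x₀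
    (fun x => G.apply_zero x) (fun x => G.apply_one x)

end Pool.Agent.S08838
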