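import Pool.Statements.S08840

set_option autoImplicit false
open Pool Pool.MP_b4086f_gt

namespace Pool.Agent.S08840

/-- Left endpoints of a family of intervals. -/
noncomputable def lft (n : ℕ) : ℝ := TopologicalSpace.denseSeq ℝ (Nat.unpair n).1

/-- Right endpoints. -/
noncomputable def rgt (n : ℕ) : ℝ := lft n + 1 / (((Nat.unpair n).2 : ℝ) + 1)

/-- The real `t` moved into the `n`-th interval. -/
noncomputable def ctr (n : ℕ) (t : ℝ) : ℝ := max (lft n) (min (rgt n) t)

noncomputable def fac (n : ℕ) (y : ℕ → ℝ) (a : ℝ) : ℝ :=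
  |y (2 * n + 1)| * |a - ctr n (y (2 * n))|

noncomputable def bigF (a : ℚ) (y : ℕ → ℝ) : ℝ :=
  (Finset.range (Encodable.encode a + 1)).inf' ⟨0, by simp⟩ (fun n => fac n y (a : ℝ))

lemma lft_lt_rgt (n : ℕ) : lft n < rgt n := by
  unfold rgt
  have : (0 : ℝ) < 1 / (((Nat.unpair n).2 : ℝ) + 1) := by positivity
  linarith

lemma ctr_mem (n : ℕ) (t : ℝ) : ctr n t ∈ Set.Icc (lft n) (rgt n) := by
  unfold ctr
  exact ⟨le_max_left _ _, max_le (lft_lt_rgt n).le (min_le_left _ _)⟩

lemma ctr_eq (n : ℕ) (t : ℝ) (h : t ∈ Set.Icc (lft n) (rgt n)) : ctr n t = t := by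
  unfold ctr
  rw [min_eq_right h.2, max_eq_right h.1]

lemma fac_nonneg (n : ℕ) (y : ℕ → ℝ) (a : ℝ) : 0 ≤ fac n y a := by
  unfold fac; positivity

lemma continuous_fac (n : ℕ) (a : ℝ) : Continuous (fun y : ℕ → ℝ => fac n y a) := by
  unfold fac ctr
  fun_prop

lemma continuous_bigF (a : ℚ) : Continuous (bigF a) := by
  unfold bigF
  apply Continuous.finset_inf'_apply
  intro n _
  exact continuous_fac n a

lemma bigF_nonneg (a : ℚ) (y : ℕ → ℝ) : 0 ≤ bigF a y := by
  unfold bigF
  apply Finset.le_inf'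
  intro n _
  exact fac_nonneg _ _ _

lemma bigF_le (a : ℚ) (y : ℕ → ℝ) (n : ℕ) (h : n ≤ Encodable.encode a) :
    bigF a y ≤ fac n y a := by
  unfold bigF
  exact Finset.inf'_le _ (by simp; omega)

lemma le_bigF (a : ℚ) (y : ℕ → ℝ) (c : ℝ) (h : ∀ n, c ≤ fac n y a) : c ≤ bigF a y := by
  unfold bigF
  apply Finset.le_inf'
  intro n _
  exact h n

/-- The functions whose set is the counterexample. -/
noncomputable def g (a : ℚ) : {f : (ℕ → ℝ) → ℝ // Continuous f} :=
  ⟨fun y => (a : ℝ) + bigF a y, continuous_const.add (continuous_bigF a)⟩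

/-- Constant functions. -/
def cst (d : ℝ) : {f : (ℕ → ℝ) → ℝ // Continuous f} := ⟨fun _ => d, continuous_const⟩

lemma bigF_eq_zero (a : ℚ) (y : ℕ → ℝ) (n : ℕ) (h : n ≤ Encodable.encode a)
    (hy : y (2 * n + 1) = 0) : bigF a y = 0 := by
  apply le_antisymm _ (bigF_nonneg a y)
  refine (bigF_le a y n h).trans ?_
  simp [fac, hy]

lemma g_zero (a : ℚ) : (g a).1 0 = a := by
  simp only [g]
  rw [bigF_eq_zero a 0 0 (Nat.zero_le _) (by simp)]
  simp

/-- every nonempty open set contains one of the intervals -/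
lemma exists_interval (W : Set ℝ) (hW : IsOpen W) (hne : W.Nonempty) :
    ∃ n, Set.Icc (lft n) (rgt n) ⊆ W := by
  obtain ⟨i, hi⟩ : ∃ i, TopologicalSpace.denseSeq ℝ i ∈ W := by
    obtain ⟨x, hx, i, hi⟩ := (TopologicalSpace.denseRange_denseSeq ℝ).inter_open_nonempty W hW hne
    exact ⟨i, hi ▸ hx⟩
  obtain ⟨ε, hε, hb⟩ := Metric.isOpen_iff.1 hW _ hi
  obtain ⟨j, hj⟩ := exists_nat_one_div_lt hε
  refine ⟨Nat.pair i j, ?_⟩
  intro x hx
  apply hb
  rw [Metric.mem_ball, Real.dist_eq, abs_lt]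
  simp only [rgt, lft, Nat.unpair_pair] at hx
  constructor
  · linarith [hx.1]
  · linarith [hx.2]

lemma fin_small (n : ℕ) : {x : ℝ | ∃ a : ℚ, (a : ℝ) = x ∧ Encodable.encode a < n}.Finite := by
  have h1 : {a : ℚ | Encodable.encode a < n}.Finite := by
    apply Set.Finite.of_finite_image (f := Encodable.encode)
    · apply (Set.finite_lt_nat n).subset
      rintro _ ⟨a, ha, rfl⟩
      exact ha
    · exact Encodable.encode_injective.injOn
  apply (h1.image (fun a : ℚ => (a : ℝ))).subset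
  rintro x ⟨a, rfl, ha⟩
  exact ⟨a, ha, rfl⟩

/-- for a given point `y`, the functions are small on an open subset -/
lemma step (y : ℕ → ℝ) (ε : ℝ) (hε : 0 < ε) (W : Set ℝ) (hW : IsOpen W) (hne : W.Nonempty) :
    ∃ V : Set ℝ, IsOpen V ∧ V.Nonempty ∧ V ⊆ W ∧ ∀ a : ℚ, (a : ℝ) ∈ V → bigF a y < ε := by
  obtain ⟨n, hn⟩ := exists_interval W hW hne
  have hc : ctr n (y (2 * n)) ∈ W := hn (ctr_mem _ _)
  set c := ctr n (y (2 * n)) with hcdef
  set δ : ℝ := ε / (|y (2 * n + 1)| + 1) with hδ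
  have hδ0 : 0 < δ := by positivity
  have hopen : IsOpen (W ∩ Metric.ball c δ) := hW.inter Metric.isOpen_ball
  have hfin := fin_small n
  have hdense : Dense ({x : ℝ | ∃ a : ℚ, (a : ℝ) = x ∧ Encodable.encode a < n}ᶜ) :=
    hfin.countable.dense_compl ℝ
  refine ⟨(W ∩ Metric.ball c δ) ∩ {x : ℝ | ∃ a : ℚ, (a : ℝ) = x ∧ Encodable.encode a < n}ᶜ,
    hopen.inter hfin.isClosed.isOpen_compl, ?_, ?_, ?_⟩
  · exact hdense.inter_open_nonempty _ hopen ⟨c, hc, Metric.mem_ball_self hδ0⟩
  · intro x hx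
    exact hx.1.1
  · intro a ha
    have hna : n ≤ Encodable.encode a := by
      by_contra hcon
      exact ha.2 ⟨a, rfl, by omega⟩
    refine (bigF_le a y n hna).trans_lt ?_
    have h1 : |(a : ℝ) - c| < δ := by
      have := ha.1.2
      rwa [Metric.mem_ball, Real.dist_eq] at this
    unfold fac
    rw [← hcdef]
    calc |y (2 * n + 1)| * |(a : ℝ) - c| ≤ |y (2 * n + 1)| * δ := by
          apply mul_le_mul_of_nonneg_left h1.le (abs_nonneg _)
      _ < (|y (2 * n + 1)| + 1) * δ := by nlinarith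
      _ = ε := by rw [hδ]; field_simp

lemma steps (Y : Finset (ℕ → ℝ)) (ε : ℝ) (hε : 0 < ε) (W : Set ℝ) (hW : IsOpen W)
    (hne : W.Nonempty) :
    ∃ V : Set ℝ, IsOpen V ∧ V.Nonempty ∧ V ⊆ W ∧ ∀ y ∈ Y, ∀ a : ℚ, (a : ℝ) ∈ V → bigF a y < ε := by
  classical
  induction Y using Finset.induction_on with
  | empty => exact ⟨W, hW, hne, subset_rfl, by simp⟩
  | insert y Y _ ih =>
    obtain ⟨V, hV, hVne, hVW, h⟩ := ih
    obtain ⟨V', hV', hVne', hVW', h'⟩ := step y ε hε V hV hVne
    refine ⟨V', hV', hVne', hVW'.trans hVW, ?_⟩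
    intro z hz a ha
    rcases Finset.mem_insert.1 hz with rfl | hz
    · exact h' a ha
    · exact h z hz a (hVW' ha)

/-- constants in the interior of the closure of `S` are limits of the functions `g a`, `a ∈ S` -/
lemma cst_mem_closure (S : Set ℚ) (d : ℝ)
    (hd : d ∈ interior (closure ((fun a : ℚ => (a : ℝ)) '' S))) :
    cst d ∈ closure (g '' S) := by
  rw [mem_closure_iff_nhds]
  intro U hU
  rw [nhds_subtype_eq_comap, Filter.mem_comap] at hU
  obtain ⟨t, ht, htU⟩ := hU
  rw [nhds_pi, Filter.mem_pi] at ht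
  obtain ⟨I, hI, s, hs, hst⟩ := ht
  -- choose a common radius
  have hε : ∃ ε > 0, ∀ y ∈ I, Metric.ball d ε ⊆ s y := by
    have : ∀ y : (ℕ → ℝ), ∃ ε > 0, Metric.ball d ε ⊆ s y := fun y => Metric.mem_nhds_iff.1 (hs y)
    choose e he hes using this
    obtain ⟨Y, rfl⟩ := hI.exists_finset_coe
    rcases Y.eq_empty_or_nonempty with rfl | hY
    · exact ⟨1, one_pos, by simp⟩
    · refine ⟨Y.inf' hY e, ?_, ?_⟩
      · rw [gt_iff_lt, Finset.lt_inf'_iff]
        intro y _
        exact he y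
      · intro y hy
        exact (Metric.ball_subset_ball (Finset.inf'_le _ hy)).trans (hes y)
  obtain ⟨ε, hε, hεs⟩ := hε
  obtain ⟨V, hV, hVne, hVW, hVa⟩ := steps hI.toFinset (ε / 2) (by positivity)
    (interior (closure ((fun a : ℚ => (a : ℝ)) '' S)) ∩ Metric.ball d (ε / 2))
    (isOpen_interior.inter Metric.isOpen_ball) ⟨d, hd, Metric.mem_ball_self (by positivity)⟩
  obtain ⟨v, hv⟩ := hVne
  have hvc : v ∈ closure ((fun a : ℚ => (a : ℝ)) '' S) := interior_subset (hVW hv).1
  obtain ⟨x, hxV, a, haS, rfl⟩ := mem_closure_iff.1 hvc V hV hv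
  refine ⟨g a, htU ?_, a, haS, rfl⟩
  apply hst
  intro y hy
  apply hεs y hy
  have h1 := (hVW hxV).2
  have h2 := hVa y (by simpa using hy) a hxV
  have h3 := bigF_nonneg a y
  simp only [Metric.mem_ball, Real.dist_eq, g] at h1 ⊢
  rw [abs_lt] at h1 ⊢
  constructor <;> linarith [h1.1, h1.2]

/-- a limit outside of the set is constant -/
lemma const_of_mem (S : Set ℚ) (x : {f : (ℕ → ℝ) → ℝ // Continuous f})
    (hx : x ∈ closure (g '' S)) (hxA : x ∉ Set.range g) : ∀ y, x.1 y = x.1 0 := by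
  -- vanishing coordinates
  have key : ∀ (m : ℕ) (y : ℕ → ℝ), y (2 * m + 1) = 0 → x.1 y = x.1 0 := by
    intro m y hy
    have hsplit : g '' S = g '' (S ∩ {a | Encodable.encode a < m}) ∪
        g '' (S ∩ {a | Encodable.encode a < m}ᶜ) := by
      rw [← Set.image_union, Set.inter_union_compl]
    rw [hsplit, closure_union] at hx
    have hfin : (g '' (S ∩ {a | Encodable.encode a < m})).Finite := by
      apply Set.Finite.image
      apply Set.Finite.subset _ Set.inter_subset_right
      apply Set.Finite.of_finite_image (f := Encodable.encode)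
      · apply (Set.finite_lt_nat m).subset
        rintro _ ⟨a, ha, rfl⟩
        exact ha
      · exact Encodable.encode_injective.injOn
    rcases hx with hx | hx
    · rw [hfin.isClosed.closure_eq] at hx
      obtain ⟨a, _, rfl⟩ := hx
      exact absurd ⟨a, rfl⟩ hxA
    · have hcl : IsClosed {f : {f : (ℕ → ℝ) → ℝ // Continuous f} | f.1 y = f.1 0} := by
        apply isClosed_eq
        · exact (continuous_apply y).comp continuous_subtype_val
        · exact (continuous_apply 0).comp continuous_subtype_val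
      have hsub : g '' (S ∩ {a | Encodable.encode a < m}ᶜ) ⊆
          {f : {f : (ℕ → ℝ) → ℝ // Continuous f} | f.1 y = f.1 0} := by
        rintro _ ⟨a, ⟨_, ha⟩, rfl⟩
        have ha' : m ≤ Encodable.encode a := by
          simpa using ha
        show (g a).1 y = (g a).1 0
        rw [g_zero]
        simp only [g]
        rw [bigF_eq_zero a y m ha' hy, add_zero]
      exact closure_minimal hsub hcl hx
  intro y
  have hlim : Filter.Tendsto (fun m : ℕ => Function.update y (2 * m + 1) 0) Filter.atTop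
      (nhds y) := by
    rw [tendsto_pi_nhds]
    intro i
    apply tendsto_const_nhds.congr'
    filter_upwards [Filter.eventually_ge_atTop i] with m hm
    rw [Function.update_of_ne (by omega)]
  have h1 := (x.2.tendsto y).comp hlim
  have h2 : (x.1 ∘ fun m : ℕ => Function.update y (2 * m + 1) 0) = fun _ => x.1 0 := by
    funext m
    exact key m _ (by simp)
  rw [h2] at h1
  exact tendsto_nhds_unique tendsto_const_nhds h1 |>.symm

/-- nowhere dense sets have no constant limit -/
lemma not_mem_of_nowhereDense (S : Set ℚ)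
    (hS : interior (closure ((fun a : ℚ => (a : ℝ)) '' S)) = ∅)
    (x : {f : (ℕ → ℝ) → ℝ // Continuous f}) (hconst : ∀ y, x.1 y = x.1 0) :
    x ∉ closure (g '' S) := by
  set K := closure ((fun a : ℚ => (a : ℝ)) '' S) with hK
  have h1 : ∀ n, ∃ t ρ : ℝ, t ∈ Set.Icc (lft n) (rgt n) ∧ 0 < ρ ∧ Disjoint (Metric.ball t ρ) K := by
    intro n
    have : ¬ (Set.Ioo (lft n) (rgt n) ⊆ K) := by
      intro hsub
      have h2 : Set.Ioo (lft n) (rgt n) ⊆ interior K := interior_maximal hsub isOpen_Ioo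
      rw [hS] at h2
      obtain ⟨z, hz⟩ := Set.nonempty_Ioo.2 (lft_lt_rgt n)
      exact h2 hz
    obtain ⟨t, ht, htK⟩ := Set.not_subset.1 this
    have hopen : IsOpen Kᶜ := isClosed_closure.isOpen_compl
    obtain ⟨ρ, hρ, hb⟩ := Metric.isOpen_iff.1 hopen t htK
    exact ⟨t, ρ, ⟨ht.1.le, ht.2.le⟩, hρ, Set.disjoint_left.2 (fun z hz => hb hz)⟩
  choose t ρ ht hρ hd using h1
  let y : ℕ → ℝ := fun i => if i % 2 = 0 then t (i / 2) else 1 / ρ (i / 2)
  have hy0 : ∀ n, y (2 * n) = t n := by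
    intro n
    simp [y]
  have hy1 : ∀ n, y (2 * n + 1) = 1 / ρ n := by
    intro n
    have h3 : (2 * n + 1) % 2 ≠ 0 := by omega
    have h4 : (2 * n + 1) / 2 = n := by omega
    simp only [y, h3, if_false, h4]
  have hbig : ∀ a ∈ S, 1 ≤ bigF a y := by
    intro a ha
    apply le_bigF
    intro n
    unfold fac
    rw [hy0, hy1, ctr_eq n _ (ht n)]
    have haK : (a : ℝ) ∈ K := subset_closure ⟨a, ha, rfl⟩
    have h5 : (a : ℝ) ∉ Metric.ball (t n) (ρ n) := fun h => Set.disjoint_left.1 (hd n) h haK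
    rw [Metric.mem_ball, Real.dist_eq, not_lt] at h5
    rw [abs_of_pos (by have := hρ n; positivity), one_div, ← div_eq_inv_mul, le_div_iff₀ (hρ n)]
    linarith
  intro hx
  have hcl : IsClosed {f : {f : (ℕ → ℝ) → ℝ // Continuous f} | f.1 0 + 1 ≤ f.1 y} := by
    apply isClosed_le
    · exact ((continuous_apply 0).comp continuous_subtype_val).add continuous_const
    · exact (continuous_apply y).comp continuous_subtype_val
  have hsub : g '' S ⊆ {f : {f : (ℕ → ℝ) → ℝ // Continuous f} | f.1 0 + 1 ≤ f.1 y} := by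
    rintro _ ⟨a, ha, rfl⟩
    show (g a).1 0 + 1 ≤ (g a).1 y
    rw [g_zero]
    simp only [g]
    linarith [hbig a ha]
  have h6 : x.1 0 + 1 ≤ x.1 y := closure_minimal hsub hcl hx
  rw [hconst y] at h6
  linarith

lemma cst_irr_not_mem (d : ℝ) (hd : Irrational d) : cst d ∉ Set.range g := by
  rintro ⟨a, ha⟩
  have h := congrArg (fun f : {f : (ℕ → ℝ) → ℝ // Continuous f} => f.1 0) ha
  simp only [g_zero, cst] at h
  exact hd ⟨a, h⟩

lemma exists_two (W : Set ℝ) (hW : IsOpen W) (hne : W.Nonempty) :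
    ∃ p ∈ W, ∃ q ∈ W, Irrational p ∧ Irrational q ∧ p ≠ q := by
  obtain ⟨p, hpW, hp⟩ := dense_irrational.inter_open_nonempty W hW hne
  have hne2 : (W ∩ {p}ᶜ).Nonempty := (dense_compl_singleton p).inter_open_nonempty W hW hne
  obtain ⟨q, hqW, hq⟩ := dense_irrational.inter_open_nonempty (W ∩ {p}ᶜ)
    (hW.inter isOpen_compl_singleton) hne2
  exact ⟨p, hpW, q, hqW.1, hp, hq, fun h => hqW.2 h.symm⟩

/-- The negation of the preceding statement: In the space of continuous real functions on the countable power of the reals, with the pointwise topology, every non-closed set A contains a subset B whose closure is B plus exactly one point lying outside A. -/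
theorem result :
    ¬ (∀ A : Set {f : (ℕ → ℝ) → ℝ // Continuous f}, ¬ IsClosed A →
      ∃ B : Set {f : (ℕ → ℝ) → ℝ // Continuous f}, B ⊆ A ∧
        ∃ x : {f : (ℕ → ℝ) → ℝ // Continuous f}, x ∉ A ∧ closure B = insert x B) := by
  intro H
  have hnc : ¬ IsClosed (Set.range g) := by
    intro hc
    have hd : Real.sqrt 2 ∈ interior (closure ((fun a : ℚ => (a : ℝ)) '' Set.univ)) := by
      have : closure ((fun a : ℚ => (a : ℝ)) '' Set.univ) = Set.univ := by
        rw [Set.image_univ]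
        exact Rat.denseRange_cast.closure_range
      rw [this, interior_univ]
      trivial
    have h1 := cst_mem_closure Set.univ _ hd
    rw [Set.image_univ, hc.closure_eq] at h1
    exact cst_irr_not_mem _ irrational_sqrt_two h1
  obtain ⟨B, hBA, x, hxA, hcl⟩ := H (Set.range g) hnc
  obtain ⟨S, rfl⟩ := Set.subset_range_iff_exists_image_eq.1 hBA
  have hx : x ∈ closure (g '' S) := by
    rw [hcl]; exact Set.mem_insert _ _
  have hconst := const_of_mem S x hx hxA
  have hne : (interior (closure ((fun a : ℚ => (a : ℝ)) '' S))).Nonempty := by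
    rw [Set.nonempty_iff_ne_empty]
    intro h
    exact not_mem_of_nowhereDense S h x hconst hx
  obtain ⟨p, hpW, q, hqW, hp, hq, hpq⟩ := exists_two _ isOpen_interior hne
  have e : ∀ d, Irrational d → d ∈ interior (closure ((fun a : ℚ => (a : ℝ)) '' S)) →
      cst d = x := by
    intro d hd hdW
    have h1 := cst_mem_closure S d hdW
    rw [hcl] at h1
    rcases h1 with h1 | h1
    · exact h1
    · exact absurd (Set.image_subset_range _ _ h1) (cst_irr_not_mem d hd)
  have h2 : cst p = cst q := (e p hp hpW).trans (e q hq hqW).symm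
  have h3 := congrArg (fun f : {f : (ℕ → ℝ) → ℝ // Continuous f} => f.1 0) h2
  exact hpq h3

end Pool.Agent.S08840
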