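import Pool.Statements.S08852
import Pool.Agent.Helper558.HurFan

set_option autoImplicit false
open Filter Topology
open Pool Pool.MP_b8a914_gt

namespace Pool.Agent.S08852

/-- The negation of the preceding statement: There is a Tychonoff Hurewicz space X such that the space of continuous real functions on X, with the pointwise topology, contains a subspace homeomorphic to the countable Fréchet–Urysohn fan. -/
theorem result :
    ¬ (∃ (X : Type) (t : TopologicalSpace X), T35Space X ∧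
      (∀ U : ℕ → Set (Set X), (∀ n, (∀ s ∈ U n, IsOpen s) ∧ ⋃₀ U n = Set.univ) →
        ∃ F : ℕ → Set (Set X), (∀ n, F n ⊆ U n ∧ (F n).Finite) ∧
          ∀ x : X, ∀ᶠ n in atTop, x ∈ ⋃₀ F n) ∧
      ∃ (x0 : X → ℝ) (g : ℕ → ℕ → X → ℝ),
        Continuous x0 ∧ (∀ n m, Continuous (g n m)) ∧
        (∀ n m n' m', g n m = g n' m' → n = n' ∧ m = m') ∧
        (∀ n m, g n m ≠ x0) ∧
        (∀ n m, ∃ V ∈ (𝓝 (g n m) : Filter (X → ℝ)),
          ∀ n' m', g n' m' ∈ V → n' = n ∧ m' = m) ∧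
        (∀ n, Tendsto (g n) atTop (𝓝 x0)) ∧
        (∀ W : Set (ℕ × ℕ), (∀ n, {m : ℕ | (n, m) ∉ W}.Finite) →
          ∃ V ∈ (𝓝 x0 : Filter (X → ℝ)), ∀ n m, g n m ∈ V → (n, m) ∈ W)) := by
  rintro ⟨X, t, -, hH, x0, g, h0, hg, -, -, -, ht, hW⟩
  obtain ⟨h, hh⟩ := Pool.Agent.Helper558.HurFan.main (X := X) hH x0 g h0 hg ht
  obtain ⟨V, hV, hVW⟩ := hW {p | h p.1 ≤ p.2} (by
    intro n
    refine (Set.finite_Iio (h n)).subset ?_
    intro m hm
    have hm' : ¬ (h n ≤ m) := hm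
    exact Set.mem_Iio.2 (not_le.1 hm'))
  obtain ⟨n, m, hm, hgm⟩ := (hh V hV).exists
  exact absurd (hVW n m hgm) (not_le.2 hm)

end Pool.Agent.S08852
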