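import Pool.Statements.S08854
-- import your own Pool.Agent.* helpers here

set_option autoImplicit false
open Pool Pool.MP_ba0d78_gt

namespace Pool.Agent.S08854.AlephX

open Cardinal Filter Topology Set Ordinal

theorem lt_aleph_omega {c : Cardinal.{0}} (h : c < ℵ_ ω) : ∃ n : ℕ, c ≤ ℵ_ (n : Ordinal) := by
  by_cases hc : c < ℵ₀
  · exact ⟨0, by simpa using hc.le⟩
  · push Not at hc
    obtain ⟨o, ho⟩ := mem_range_aleph_iff.2 hc
    rw [← ho] at h
    have h1 : o < ω := aleph_lt_aleph.1 h
    obtain ⟨n, hn⟩ := Ordinal.lt_omega0.1 h1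
    exact ⟨n, by rw [← ho, hn]⟩

theorem aleph_nat_lt (n : ℕ) : ℵ_ (n : Ordinal) < ℵ_ (ω : Ordinal.{0}) :=
  aleph_lt_aleph.2 (Ordinal.natCast_lt_omega0 n)

/-- The index set: a set of cardinality `aleph_omega`. -/
def D : Type := (ℵ_ (ω : Ordinal.{0})).out

theorem mk_D : #D = ℵ_ ω := Cardinal.mk_out _

/-- The counterexample: one non-isolated point. -/
def X : Type := Option D

/-- the non-isolated point -/
def pt : X := (none : Option D)

theorem mk_X : #X = ℵ_ ω := by
  have : #X = #D + 1 := Cardinal.mk_option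
  rw [this, mk_D]
  exact Cardinal.add_one_eq (aleph0_le_aleph _)

instance : TopologicalSpace X where
  IsOpen U := pt ∈ U → #(↥(Uᶜ)) < ℵ_ ω
  isOpen_univ := by
    intro _
    rw [Set.compl_univ]
    simpa using aleph_pos _
  isOpen_inter := by
    intro s t hs ht hst
    rw [Set.compl_inter]
    exact (mk_union_le _ _).trans_lt
      (add_lt_of_lt (aleph0_le_aleph _) (hs hst.1) (ht hst.2))
  isOpen_sUnion := by
    intro S hS hp
    obtain ⟨U, hU, hpU⟩ := hp
    refine lt_of_le_of_lt (mk_le_mk_of_subset ?_) (hS U hU hpU)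
    intro x hx hxU
    exact hx ⟨U, hU, hxU⟩

theorem isOpen_iff {U : Set X} : IsOpen U ↔ (pt ∈ U → #(↥(Uᶜ)) < ℵ_ ω) := Iff.rfl

theorem isOpen_of_notMem {U : Set X} (h : pt ∉ U) : IsOpen U := fun h' => absurd h' h

theorem isClopen_of_isClosed {U : Set X} (hU : IsClosed U) (h : pt ∉ U) : IsClopen U :=
  ⟨hU, isOpen_of_notMem h⟩

instance : T1Space X := by
  refine ⟨fun x => ?_⟩
  rw [← isOpen_compl_iff, isOpen_iff]
  intro _
  rw [compl_compl]
  simpa using one_lt_aleph0.trans_le (aleph0_le_aleph _)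

instance : NormalSpace X := by
  refine ⟨fun s t hs ht hst => ?_⟩
  by_cases h : pt ∈ s
  · have h' : pt ∉ t := fun h2 => (Set.disjoint_left.1 hst) h h2
    refine ⟨tᶜ, t, ht.isOpen_compl, isOpen_of_notMem h', ?_, subset_rfl, disjoint_compl_left⟩
    exact Set.subset_compl_iff_disjoint_right.2 hst
  · refine ⟨s, sᶜ, isOpen_of_notMem h, hs.isOpen_compl, subset_rfl, ?_, disjoint_compl_right⟩
    exact Set.subset_compl_iff_disjoint_left.2 hst

instance : T35Space X := inferInstance

theorem cont_iff {f : X → ℝ} :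
    Continuous f ↔ ∀ m : ℕ, #(↥{x | 1 / ((m : ℝ) + 1) ≤ |f x - f pt|}) < ℵ_ ω := by
  constructor
  · intro hf m
    have ho : IsOpen {x | |f x - f pt| < 1 / ((m : ℝ) + 1)} :=
      isOpen_lt (by fun_prop) continuous_const
    have := isOpen_iff.1 ho (by simp; positivity)
    convert this using 3
    ext x
    simp
  · intro h
    rw [continuous_iff_continuousAt]
    intro x
    by_cases hx : x = pt
    · subst hx
      rw [Metric.continuousAt_iff']
      intro ε hε
      obtain ⟨m, hm⟩ := exists_nat_one_div_lt hε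
      have ho : IsOpen {x | |f x - f pt| < 1 / ((m : ℝ) + 1)} := by
        rw [isOpen_iff]
        intro _
        convert h m using 3
        ext x
        simp
      filter_upwards [ho.mem_nhds (by simp; positivity)] with y hy
      rw [Real.dist_eq]
      exact lt_trans hy hm
    · have ho : IsOpen ({x} : Set X) := isOpen_of_notMem (by simpa using fun h => hx h.symm)
      have : 𝓝 x = pure x := (isOpen_singleton_iff_nhds_eq_pure x).1 ho
      rw [ContinuousAt, this]
      exact tendsto_pure_nhds _ _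


abbrev CX : Type := {f : X → ℝ // Continuous f}

/-- pointwise values of a cluster point -/
theorem clusterPt_eval {ι : Type} {l : Filter ι} {u : ι → CX} {z : CX}
    (h : MapClusterPt z l u) {x : X} {c : ℝ} (hc : Tendsto (fun i => (u i).1 x) l (𝓝 c)) :
    z.1 x = c := by
  have h1 : MapClusterPt (z.1 x) l (fun i => (u i).1 x) :=
    h.continuousAt_comp (f := fun f : CX => f.1 x)
      ((continuous_apply x).comp continuous_subtype_val).continuousAt
  have h2 : (𝓝 (z.1 x) ⊓ map (fun i => (u i).1 x) l).NeBot := h1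
  have h3 : (𝓝 (z.1 x) ⊓ 𝓝 c).NeBot := h2.mono (inf_le_inf_left _ hc)
  exact eq_of_nhds_neBot h3

section main

variable {S : Set CX} (hS : IsClosed S)
  (hcc : ∀ u : ℕ → CX, (∀ n, u n ∈ S) → ∃ z ∈ S, MapClusterPt z Filter.atTop u)

include hcc in
theorem bounded (x : X) : ∃ M : ℝ, ∀ f ∈ S, |f.1 x| ≤ M := by
  by_contra hcon
  push Not at hcon
  choose u hu hux using fun n : ℕ => hcon n
  obtain ⟨z, hz, hzc⟩ := hcc u hu
  have h1 : MapClusterPt (z.1 x) atTop (fun i => (u i).1 x) :=
    hzc.continuousAt_comp (f := fun f : CX => f.1 x)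
      ((continuous_apply x).comp continuous_subtype_val).continuousAt
  have h2 : ∀ᶠ y in 𝓝 (z.1 x), |y| < |z.1 x| + 1 :=
    (continuous_abs.tendsto (z.1 x)).eventually (gt_mem_nhds (by linarith))
  have h3 := h1.frequently h2
  obtain ⟨N, hN⟩ := exists_nat_gt (|z.1 x| + 1)
  have h4 : ∀ᶠ n : ℕ in atTop, ¬ |(u n).1 x| < |z.1 x| + 1 := by
    filter_upwards [eventually_ge_atTop N] with n hn
    have : (N : ℝ) ≤ n := by exact_mod_cast hn
    have := hux n
    linarith
  exact h3 h4

/-- the set of functions, inside the product -/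
def img (S : Set CX) : Set (X → ℝ) := Subtype.val '' S

include hS in
theorem mem_of_closure {g : X → ℝ} (hg : g ∈ closure (img S)) (hgc : Continuous g) :
    (⟨g, hgc⟩ : CX) ∈ S := by
  have : (⟨g, hgc⟩ : CX) ∈ closure S := closure_subtype.2 hg
  rwa [hS.closure_eq] at this

include hcc in
theorem countable_case {g : X → ℝ} (hg : g ∈ closure (img S)) {T : Set X} (hT : T.Countable) :
    ∃ f ∈ S, ∀ x ∈ T, f.1 x = g x := by
  have hT' : (insert pt T).Countable := hT.insert _
  obtain ⟨t, ht⟩ := hT'.exists_eq_range ⟨pt, Set.mem_insert _ _⟩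
  have key : ∀ n : ℕ, ∃ f ∈ S, ∀ i ≤ n, |f.1 (t i) - g (t i)| < 1 / ((n : ℝ) + 1) := by
    intro n
    have hopen : IsOpen {h : X → ℝ | ∀ i ∈ Finset.range (n + 1),
        |h (t i) - g (t i)| < 1 / ((n : ℝ) + 1)} := by
      have : {h : X → ℝ | ∀ i ∈ Finset.range (n + 1),
        |h (t i) - g (t i)| < 1 / ((n : ℝ) + 1)} = ⋂ i ∈ Finset.range (n + 1),
        {h : X → ℝ | |h (t i) - g (t i)| < 1 / ((n : ℝ) + 1)} := by
        ext h; simp
      rw [this]
      exact isOpen_biInter_finset fun i _ => isOpen_lt (by fun_prop) continuous_const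
    obtain ⟨h, hh, f, hf, rfl⟩ := mem_closure_iff.1 hg _ hopen (by
      intro i _; simp; positivity)
    exact ⟨f, hf, fun i hi => hh i (Finset.mem_range.2 (Nat.lt_succ_of_le hi))⟩
  choose u hu hux using key
  obtain ⟨z, hz, hzc⟩ := hcc u hu
  refine ⟨z, hz, fun x hx => ?_⟩
  obtain ⟨i, rfl⟩ : x ∈ Set.range t := ht ▸ Set.mem_insert_of_mem _ hx
  refine clusterPt_eval hzc ?_
  rw [tendsto_iff_dist_tendsto_zero]
  refine squeeze_zero' (Eventually.of_forall fun n => dist_nonneg) ?_
    (tendsto_one_div_add_atTop_nhds_zero_nat)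
  filter_upwards [eventually_ge_atTop i] with n hn
  rw [Real.dist_eq]
  exact (hux n i hn).le


end main

/-- condensation point argument -/
theorem condense {c : Cardinal.{0}} (hc : c.IsRegular) (hc' : ℵ₀ < c) {I : Type} [LinearOrder I]
    (hI : #I = c) (hI' : ∀ i : I, #(↥(Set.Iic i)) < c) (k : I → ℕ → ℕ) :
    ∃ i₀ : I, ∀ j : ℕ, ∀ a : I, ∃ i, a ≤ i ∧ ∀ m < j, k i m = k i₀ m := by
  classical
  by_contra hcon
  push Not at hcon
  -- for each `i₀` there is `j` and a bound `a`
  choose j a ha using hcon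
  let code : I → (Σ n : ℕ, (Fin n → ℕ)) := fun i => ⟨j i, fun m => k i m⟩
  -- choose bound for each code
  let b : (Σ n : ℕ, (Fin n → ℕ)) → Set I := fun s => {i | code i = s}
  have hb : ∀ s, #(↥(b s)) < c := by
    intro s
    by_cases hne : (b s).Nonempty
    · obtain ⟨i₀, hi₀⟩ := hne
      refine lt_of_le_of_lt (mk_le_mk_of_subset ?_) (hI' (a i₀))
      intro i hi
      by_contra hlt
      rw [Set.mem_Iic, not_le] at hlt
      obtain ⟨m, hm, hne⟩ := ha i₀ i hlt.le
      apply hne
      have h1 : code i = code i₀ := by rw [show code i = s from hi, show code i₀ = s from hi₀]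
      have h2 : j i = j i₀ := congrArg Sigma.fst h1
      have h3 := (Sigma.mk.inj_iff.1 h1).2
      have h4 : ∀ (n : ℕ) (hn : n = j i₀) (f : Fin n → ℕ) (g : Fin (j i₀) → ℕ), HEq f g →
          ∀ (hm' : m < n), f ⟨m, hm'⟩ = g ⟨m, hm⟩ := by
        intro n hn f g hfg hm'
        subst hn
        rw [eq_of_heq hfg]
      exact h4 (j i) h2 _ _ h3 (h2 ▸ hm)
    · rw [Set.not_nonempty_iff_eq_empty.1 hne]
      simpa using hc.pos
  have hU : #(↥(⋃ s, b s)) < c := by
    refine (card_iUnion_lt_iff_forall_of_isRegular hc ?_).2 hb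
    exact (mk_le_aleph0 (α := Σ n : ℕ, (Fin n → ℕ))).trans_lt hc'
  have : (⋃ s, b s) = Set.univ := by
    ext i
    simp [b]
  rw [this, mk_univ, hI] at hU
  exact lt_irrefl _ hU

section main2

variable {S : Set CX} (hS : IsClosed S)
  (hcc : ∀ u : ℕ → CX, (∀ n, u n ∈ S) → ∃ z ∈ S, MapClusterPt z Filter.atTop u)

include hS hcc in
theorem claimA {g : X → ℝ} (hg : g ∈ closure (img S)) (c : Cardinal.{0}) (hcω : c < ℵ_ ω) :
    ∀ T : Set X, #(↥T) = c → ∃ f ∈ S, ∀ x ∈ T, f.1 x = g x := by
  induction c using Cardinal.lt_wf.induction with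
  | _ c ih =>
  intro T hT
  by_cases hcount : c ≤ ℵ₀
  · exact countable_case hcc hg (by rw [← le_aleph0_iff_set_countable, hT]; exact hcount)
  push Not at hcount
  -- c = aleph (n+1) is regular
  obtain ⟨o, ho⟩ := mem_range_aleph_iff.2 hcount.le
  have ho1 : o < ω := by rw [← ho] at hcω; exact aleph_lt_aleph.1 hcω
  obtain ⟨n, hn⟩ := Ordinal.lt_omega0.1 ho1
  have hn0 : n ≠ 0 := by
    rintro rfl
    rw [← ho, hn] at hcount
    simp at hcount
  obtain ⟨n', rfl⟩ := Nat.exists_eq_succ_of_ne_zero hn0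
  have hreg : c.IsRegular := by
    rw [← ho, hn]
    push_cast
    exact isRegular_aleph_add_one _
  -- the well order
  let I : Type := c.ord.ToType
  have hI : #I = c := by simp [I]
  have hIio : ∀ i : I, #(↥(Set.Iio i)) < c := by
    intro i
    have := mk_Iio_lt i (by simp [I])
    rwa [hI] at this
  have hI' : ∀ i : I, #(↥(Set.Iic i)) < c := by
    intro i
    rw [← Set.Iio_insert]
    exact (mk_insert_le).trans_lt (add_lt_of_lt hreg.aleph0_le (hIio i)
      (one_lt_aleph0.trans_le hreg.aleph0_le))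
  obtain ⟨e⟩ : Nonempty (T ≃ I) := Cardinal.eq.1 (hT.trans hI.symm)
  -- initial segments
  let Tseg : I → Set X := fun i => insert pt (Subtype.val '' {x : T | e x ≤ i})
  have hTseg : ∀ i, #(↥(Tseg i)) < c := by
    intro i
    refine (mk_insert_le).trans_lt (add_lt_of_lt hreg.aleph0_le ?_
      (one_lt_aleph0.trans_le hreg.aleph0_le))
    refine (mk_image_le).trans_lt (lt_of_le_of_lt ?_ (hI' i))
    refine Cardinal.mk_le_of_injective (f := fun x => (⟨e x.1, x.2⟩ : ↥(Set.Iic i))) ?_
    intro x y hxy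
    have h1 : e x.1 = e y.1 := congrArg Subtype.val hxy
    exact Subtype.ext (e.injective h1)
  have hex : ∀ i : I, ∃ f ∈ S, ∀ x ∈ Tseg i, f.1 x = g x := fun i =>
    ih _ (hTseg i) ((hTseg i).trans hcω) _ rfl
  choose F hFS hFg using hex
  have hk : ∀ i : I, ∀ m : ℕ, ∃ k : ℕ,
      #(↥{x | 1 / ((m : ℝ) + 1) ≤ |(F i).1 x - (F i).1 pt|}) ≤ ℵ_ (k : Ordinal) := fun i m =>
    lt_aleph_omega (cont_iff.1 (F i).2 m)
  choose k hk using hk
  obtain ⟨i₀, hi₀⟩ := condense hreg hcount hI hI' k
  -- the filter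
  have hne : Nonempty I := ⟨i₀⟩
  let P : I × ℕ → Set I := fun p => {i | p.1 ≤ i ∧ ∀ m < p.2, k i m = k i₀ m}
  have hPne : ∀ p, (P p).Nonempty := fun p => hi₀ p.2 p.1
  have hPdir : Directed (· ≥ ·) (fun p => 𝓟 (P p)) := by
    intro p q
    refine ⟨(max p.1 q.1, max p.2 q.2), ?_, ?_⟩
    · simp only [ge_iff_le, le_principal_iff, mem_principal]
      intro i hi
      exact ⟨(le_max_left _ _).trans hi.1, fun m hm => hi.2 m (lt_of_lt_of_le hm (le_max_left _ _))⟩
    · simp only [ge_iff_le, le_principal_iff, mem_principal]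
      intro i hi
      exact ⟨(le_max_right _ _).trans hi.1,
        fun m hm => hi.2 m (lt_of_lt_of_le hm (le_max_right _ _))⟩
  have hNB : NeBot (⨅ p, 𝓟 (P p)) := by
    refine iInf_neBot_of_directed' hPdir fun p => ?_
    exact principal_neBot_iff.2 (hPne p)
  let U : Ultrafilter I := Ultrafilter.of (⨅ p, 𝓟 (P p))
  have hU : ∀ p, P p ∈ U := fun p => (Ultrafilter.of_le _) (mem_iInf_of_mem p (mem_principal_self _))
  -- the limit
  choose M hM using fun x : X => bounded hcc x
  have hcomp : IsCompact (Set.univ.pi fun x : X => Set.Icc (-(M x)) (M x)) :=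
    isCompact_univ_pi fun x => isCompact_Icc
  obtain ⟨h, -, hh⟩ := hcomp.ultrafilter_le_nhds (U.map fun i => (F i).1) (by
    rw [le_principal_iff, Ultrafilter.mem_coe, Ultrafilter.mem_map]
    refine Filter.mem_of_superset (Filter.univ_mem) ?_
    rintro i -
    intro x _
    exact abs_le.1 (hM x _ (hFS i)))
  have hlim : ∀ x, Tendsto (fun i => (F i).1 x) U (𝓝 (h x)) := by
    intro x
    have h1 : Tendsto (fun i => (F i).1) U (𝓝 h) := hh
    exact (continuous_apply x).continuousAt.tendsto.comp h1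
  have hhT : ∀ x ∈ T, h x = g x := by
    intro x hx
    refine tendsto_nhds_unique (hlim x) ?_
    refine tendsto_const_nhds.congr' ?_
    filter_upwards [hU (e ⟨x, hx⟩, 0)] with i hi
    exact (hFg i x (Set.mem_insert_of_mem _ ⟨⟨x, hx⟩, hi.1, rfl⟩)).symm
  have hcont : Continuous h := by
    rw [cont_iff]
    intro m
    have hsub : {x | 1 / ((m : ℝ) + 1) ≤ |h x - h pt|} ⊆ ⋃ i : I,
        (if ∀ m' < m + 2, k i m' = k i₀ m' then
          {x | 1 / (((m + 1 : ℕ) : ℝ) + 1) ≤ |(F i).1 x - (F i).1 pt|} else ∅) := by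
      intro x hx
      have hlt : 1 / (((m + 1 : ℕ) : ℝ) + 1) < |h x - h pt| := by
        refine lt_of_lt_of_le ?_ hx
        apply one_div_lt_one_div_of_lt
        · positivity
        · push_cast; linarith
      have h2 : Tendsto (fun i => |(F i).1 x - (F i).1 pt|) U (𝓝 |h x - h pt|) :=
        ((hlim x).sub (hlim pt)).abs
      have h3 := h2.eventually (lt_mem_nhds hlt)
      have h4 : ∀ᶠ i in (U : Filter I), i ∈ P (i₀, m + 2) := hU (i₀, m + 2)
      obtain ⟨i, hi1, hi2⟩ := (h3.and h4).exists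
      refine Set.mem_iUnion.2 ⟨i, ?_⟩
      rw [if_pos hi2.2]
      exact hi1.le
    refine (mk_le_mk_of_subset hsub).trans_lt ?_
    refine (mk_iUnion_le_sum_mk).trans_lt ?_
    have hle : ∀ i : I, #(↥((if ∀ m' < m + 2, k i m' = k i₀ m' then
          {x | 1 / (((m + 1 : ℕ) : ℝ) + 1) ≤ |(F i).1 x - (F i).1 pt|} else ∅ : Set X)))
          ≤ ℵ_ ((k i₀ (m + 1) : ℕ) : Ordinal) := by
      intro i
      split_ifs with hif
      · rw [← hif (m + 1) (by omega)]
        exact hk i (m + 1)
      · simp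
    refine (Cardinal.sum_le_sum _ _ hle).trans_lt ?_
    rw [sum_const', hI]
    exact mul_lt_of_lt (aleph0_le_aleph _) hcω (aleph_nat_lt _)
  refine ⟨⟨h, hcont⟩, ?_, hhT⟩
  refine mem_of_closure hS ?_ hcont
  refine mem_closure_of_tendsto (b := (U : Filter I)) (f := fun i => (F i).1) hh ?_
  exact Eventually.of_forall fun i => ⟨F i, hFS i, rfl⟩


include hS hcc in
theorem claimB {g : X → ℝ} (hg : g ∈ closure (img S)) : Continuous g := by
  by_contra hcon
  rw [cont_iff] at hcon
  push Not at hcon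
  obtain ⟨m, hm⟩ := hcon
  have hJ : ∀ n : ℕ, ∃ J ⊆ {x | 1 / ((m : ℝ) + 1) ≤ |g x - g pt|}, #(↥J) = ℵ_ (n : Ordinal) :=
    fun n => le_mk_iff_exists_subset.1 ((aleph_nat_lt n).le.trans hm)
  choose J hJs hJc using hJ
  let T : ℕ → Set X := fun n => insert pt (⋃ i ∈ Finset.range (n + 1), J i)
  have hT : ∀ n, #(↥(T n)) < ℵ_ ω := by
    intro n
    refine (mk_insert_le).trans_lt (add_lt_of_lt (aleph0_le_aleph _) ?_
      (one_lt_aleph0.trans_le (aleph0_le_aleph _)))
    induction n with
    | zero =>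
      simp only [zero_add, Finset.range_one, Finset.mem_singleton, Set.iUnion_iUnion_eq_left]
      rw [hJc 0]
      exact aleph_nat_lt 0
    | succ n ihn =>
      rw [Finset.range_add_one, Finset.set_biUnion_insert]
      refine (mk_union_le _ _).trans_lt (add_lt_of_lt (aleph0_le_aleph _) ?_ ihn)
      rw [hJc]
      exact aleph_nat_lt _
  have hex : ∀ n, ∃ f ∈ S, ∀ x ∈ T n, f.1 x = g x := fun n =>
    claimA hS hcc hg _ (hT n) _ rfl
  choose F hFS hFg using hex
  obtain ⟨z, hzS, hz⟩ := hcc F hFS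
  have hzpt : z.1 pt = g pt := by
    refine clusterPt_eval hz ?_
    refine tendsto_const_nhds.congr fun n => ?_
    exact (hFg n pt (Set.mem_insert _ _)).symm
  have hzJ : ∀ n, ∀ x ∈ J n, z.1 x = g x := by
    intro n x hx
    refine clusterPt_eval hz ?_
    refine tendsto_const_nhds.congr' ?_
    filter_upwards [eventually_ge_atTop n] with k hk
    refine (hFg k x (Set.mem_insert_of_mem _ ?_)).symm
    simp only [Set.mem_iUnion, Finset.mem_range]
    exact ⟨n, by omega, hx⟩
  have h1 := cont_iff.1 z.2 m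
  obtain ⟨n, hn⟩ := lt_aleph_omega h1
  have h2 : J (n + 1) ⊆ {x | 1 / ((m : ℝ) + 1) ≤ |z.1 x - z.1 pt|} := by
    intro x hx
    rw [Set.mem_ofPred_eq, hzJ _ x hx, hzpt]
    exact hJs _ hx
  have h3 := (mk_le_mk_of_subset h2).trans hn
  rw [hJc] at h3
  have h4 := aleph_le_aleph.1 h3
  have h5 : (n + 1 : ℕ) ≤ n := by exact_mod_cast h4
  omega

include hS hcc in
theorem isCompact_S : IsCompact S := by
  rw [Subtype.isCompact_iff]
  choose M hM using fun x : X => bounded hcc x
  have hcomp : IsCompact (Set.univ.pi fun x : X => Set.Icc (-(M x)) (M x)) :=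
    isCompact_univ_pi fun x => isCompact_Icc
  refine hcomp.of_isClosed_subset ?_ ?_
  · refine isClosed_of_closure_subset fun g hg => ?_
    have hc := claimB hS hcc hg
    exact ⟨⟨g, hc⟩, mem_of_closure hS hg hc, rfl⟩
  · rintro _ ⟨f, hf, rfl⟩ x _
    exact abs_le.1 (hM x f hf)

end main2

/-! ### the space of continuous functions is not a g-space -/

open Classical in
/-- characteristic function of a set -/
noncomputable def chi (C : Set X) : X → ℝ := fun x => if x ∈ C then 1 else 0

theorem chi_cont {C : Set X} (hC : C.Countable) (hp : pt ∉ C) : Continuous (chi C) := by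
  rw [cont_iff]
  intro m
  refine (mk_le_mk_of_subset (t := C) ?_).trans_lt ?_
  · intro x hx
    by_contra hxC
    have e1 : chi C x = 0 := if_neg hxC
    have e2 : chi C pt = 0 := if_neg hp
    rw [Set.mem_ofPred_eq, e1, e2, _root_.sub_self, abs_zero] at hx
    have : (0 : ℝ) < 1 / ((m : ℝ) + 1) := by positivity
    linarith
  · exact (le_aleph0_iff_set_countable.2 hC).trans_lt (aleph0_lt_aleph.2 omega0_pos)

theorem chi_not_cont : ¬ Continuous (chi {pt}ᶜ) := by
  rw [cont_iff]
  intro h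
  have h0 := h 0
  have : {x | 1 / (((0 : ℕ) : ℝ) + 1) ≤ |chi {pt}ᶜ x - chi {pt}ᶜ pt|} = {pt}ᶜ := by
    ext x
    by_cases hx : x = pt
    · simp [chi, hx]
    · simp [chi, hx]
  rw [this] at h0
  have h1 : #X < ℵ_ ω := by
    rw [← mk_univ, ← Set.union_compl_self ({pt} : Set X)]
    refine (mk_union_le _ _).trans_lt (add_lt_of_lt (aleph0_le_aleph _) ?_ h0)
    simpa using one_lt_aleph0.trans_le (aleph0_le_aleph _)
  rw [mk_X] at h1
  exact lt_irrefl _ h1

/-- the relatively countably compact set -/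
def A : Set CX := {f | ∃ C : Set X, C.Countable ∧ pt ∉ C ∧ f.1 = chi C}

theorem A_cc (u : ℕ → CX) (hu : ∀ n, u n ∈ A) : ∃ z, MapClusterPt z Filter.atTop u := by
  choose C hC hp hf using hu
  have hcomp : IsCompact (Set.univ.pi fun _ : X => ({0, 1} : Set ℝ)) :=
    isCompact_univ_pi fun x => (Set.toFinite _).isCompact
  obtain ⟨h, hh, hcl⟩ := hcomp.exists_mapClusterPt (f := (atTop : Filter ℕ))
    (u := fun n => (u n).1) (by
      refine tendsto_principal.2 (Eventually.of_forall fun n => ?_)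
      intro x _
      simp only [hf n, chi]
      split_ifs <;> simp)
  have hzero : ∀ x, x ∉ ⋃ n, C n → h x = 0 := by
    intro x hx
    have h1 : MapClusterPt (h x) atTop (fun i => (u i).1 x) :=
      hcl.continuousAt_comp (f := fun f : X → ℝ => f x) (continuous_apply x).continuousAt
    have h2 : (fun i => (u i).1 x) = fun _ => (0 : ℝ) := by
      funext i
      rw [hf i, chi, if_neg]
      exact fun hxi => hx (Set.mem_iUnion.2 ⟨i, hxi⟩)
    rw [h2] at h1
    have h3 : (𝓝 (h x) ⊓ 𝓝 (0 : ℝ)).NeBot :=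
      NeBot.mono (show (𝓝 (h x) ⊓ map (fun _ : ℕ => (0 : ℝ)) atTop).NeBot from h1)
        (inf_le_inf_left _ tendsto_const_nhds)
    exact eq_of_nhds_neBot h3
  have hchi : h = chi {x | h x = 1} := by
    funext x
    have := hh x (Set.mem_univ x)
    simp only [Set.mem_insert_iff, Set.mem_singleton_iff] at this
    rcases this with h0 | h1
    · simp [chi, h0]
    · simp [chi, h1]
  have hsub : {x | h x = 1} ⊆ ⋃ n, C n := by
    intro x hx
    by_contra hx'
    rw [Set.mem_ofPred_eq, hzero x hx'] at hx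
    exact zero_ne_one hx
  have hcont : Continuous h := by
    rw [hchi]
    refine chi_cont ((Set.countable_iUnion hC).mono hsub) ?_
    intro hpt
    obtain ⟨n, hn⟩ := Set.mem_iUnion.1 (hsub hpt)
    exact hp n hn
  refine ⟨⟨h, hcont⟩, ?_⟩
  rw [mapClusterPt_iff_frequently] at hcl ⊢
  intro s hs
  obtain ⟨t, ht, hts⟩ := mem_nhds_subtype _ _ _ |>.1 hs
  exact (hcl t ht).mono fun n hn => hts hn

theorem A_not : ¬ IsCompact (closure A) := by
  intro h
  have h1 : IsCompact (Subtype.val '' closure A : Set (X → ℝ)) := h.image continuous_subtype_val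
  have h2 : chi {pt}ᶜ ∈ closure (Subtype.val '' closure A : Set (X → ℝ)) := by
    rw [mem_closure_iff_nhds]
    intro V hV
    rw [nhds_pi, Filter.mem_pi] at hV
    obtain ⟨I, hI, t, ht, hsub⟩ := hV
    have hc : (I \ {pt}).Countable := (hI.sdiff).countable
    refine ⟨chi (I \ {pt}), hsub ?_, ⟨chi (I \ {pt}), chi_cont hc (by simp)⟩, ?_, rfl⟩
    · intro x hx
      have : chi (I \ {pt}) x = chi {pt}ᶜ x := by
        by_cases hxp : x = pt
        · simp [chi, hxp]
        · simp [chi, hx, hxp]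
      rw [this]
      exact mem_of_mem_nhds (ht x)
    · exact subset_closure ⟨_, hc, by simp, rfl⟩
  rw [h1.isClosed.closure_eq] at h2
  obtain ⟨f, -, hf⟩ := h2
  exact chi_not_cont (hf ▸ f.2)

end Pool.Agent.S08854.AlephX

namespace Pool.Agent.S08854

/-- The negation of the preceding statement: For every Tychonoff space X, C_p(X) (continuous real functions with pointwise topology) has every closed countably compact subset compact iff the closure of every subset countably compact in C_p(X) is compact. -/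
theorem result :
    ¬ (∀ (X : Type) [TopologicalSpace X] [T35Space X],
      ((∀ S : Set {f : X → ℝ // Continuous f}, IsClosed S →
          (∀ u : ℕ → {f : X → ℝ // Continuous f}, (∀ n, u n ∈ S) →
            ∃ z ∈ S, MapClusterPt z Filter.atTop u) →
          IsCompact S) ↔
       (∀ A : Set {f : X → ℝ // Continuous f},
          (∀ u : ℕ → {f : X → ℝ // Continuous f}, (∀ n, u n ∈ A) →
            ∃ z, MapClusterPt z Filter.atTop u) →
          IsCompact (closure A)))) := by
  intro h
  exact AlephX.A_not ((h AlephX.X).1 (fun S hS hcc => AlephX.isCompact_S hS hcc)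
    AlephX.A AlephX.A_cc)

end Pool.Agent.S08854
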