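import Pool.Statements.S08860
import Pool.Agent.Helper800.ConsS

set_option autoImplicit false
open Pool Pool.MP_badb58_gt

namespace Pool.Agent.S08860

/-- The negation of the preceding statement: For every consonant T0 space X, the space of nonempty compact saturated subsets of X, with the upper Vietoris topology generated by the sets {K : K ⊆ U} for U open, is again consonant. -/
theorem result :
    ¬ (∀ (Cons : (Y : Type) → TopologicalSpace Y → Prop),
    (∀ (Y : Type) (t : TopologicalSpace Y), Cons Y t ↔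
      ∀ F : Set (Set Y), (∀ U ∈ F, @IsOpen Y t U) →
        (∀ U V : Set Y, U ∈ F → @IsOpen Y t V → U ⊆ V → V ∈ F) →
        (∀ D : Set (Set Y), D.Nonempty → (∀ U ∈ D, @IsOpen Y t U) →
            DirectedOn (· ⊆ ·) D → ⋃₀ D ∈ F → ∃ U ∈ D, U ∈ F) →
        ∀ U ∈ F, ∃ K : Set Y, @IsCompact Y t K ∧ K ⊆ U ∧
          ∀ V : Set Y, @IsOpen Y t V → K ⊆ V → V ∈ F) →
    ∀ (X : Type) [TopologicalSpace X] [T0Space X], Cons X inferInstance →
      Cons {K : Set X // K.Nonempty ∧ IsCompact K ∧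
              ∀ x : X, (∀ U : Set X, IsOpen U → K ⊆ U → x ∈ U) → x ∈ K}
        (TopologicalSpace.generateFrom
          {S | ∃ U : Set X, IsOpen U ∧ S = {K | K.1 ⊆ U}})) := by
  intro H
  have h0 := Helper800.ConsL.t0_L (Y1 := Helper800.Cons.Fan Helper800.Cons.NM)
    (Y2 := Helper800.Cons.Fan Helper800.Cons.NS)
  let Cs : (Y : Type) → TopologicalSpace Y → Prop := fun Y t =>
    ∀ F : Set (Set Y), (∀ U ∈ F, @IsOpen Y t U) →
        (∀ U V : Set Y, U ∈ F → @IsOpen Y t V → U ⊆ V → V ∈ F) →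
        (∀ D : Set (Set Y), D.Nonempty → (∀ U ∈ D, @IsOpen Y t U) →
            DirectedOn (· ⊆ ·) D → ⋃₀ D ∈ F → ∃ U ∈ D, U ∈ F) →
        ∀ U ∈ F, ∃ K : Set Y, @IsCompact Y t K ∧ K ⊆ U ∧
          ∀ V : Set Y, @IsOpen Y t V → K ⊆ V → V ∈ F
  apply Helper800.ConsS.not_cons_PS
  have h := H Cs (fun Y t => Iff.rfl) (Helper800.ConsL.L (Helper800.Cons.Fan Helper800.Cons.NM)
    (Helper800.Cons.Fan Helper800.Cons.NS))
    (fun F h1 h2 h3 U hU =>
      Helper800.ConsL.cons_L Helper800.Cons.cons_M Helper800.Cons.cons_S F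
        ⟨h1, fun U hU V hV hUV => h2 U V hU hV hUV, fun D hD hd ho hm => h3 D hD ho hd hm⟩ U hU)
  intro F hF U hU
  exact h F hF.isOpen (fun U V hU hV hUV => hF.upper U hU V hV hUV)
    (fun D hD ho hd hm => hF.directed D hD hd ho hm) U hU

end Pool.Agent.S08860
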