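import Pool.Statements.S08872
import Pool.Agent.Helper93.BeG

set_option autoImplicit false
open Pool Pool.MP_be0572_gt

namespace Pool.Agent.S08872

/-- The negation of the preceding statement: If f is continuous from the unit cube into a metric space and every fibre with at least two points lies in a fixed countable union of planes, then the image cannot be covered by arbitrarily fine finite open covers of order at most 3, i.e. it has dimension at least 3. -/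
theorem result :
    ¬ (∀ (Y : Type) [MetricSpace Y] (f : (Fin 3 → ℝ) → Y)
      (P : ℕ → AffineSubspace ℝ (Fin 3 → ℝ)),
      ContinuousOn f {x : Fin 3 → ℝ | ∀ i, 0 ≤ x i ∧ x i ≤ 1} →
      (∀ i, Module.finrank ℝ (P i).direction = 2) →
      (∀ y : Y, (f ⁻¹' {y} ∩ {x : Fin 3 → ℝ | ∀ i, 0 ≤ x i ∧ x i ≤ 1}).Nontrivial →
        f ⁻¹' {y} ∩ {x : Fin 3 → ℝ | ∀ i, 0 ≤ x i ∧ x i ≤ 1} ⊆ ⋃ k, (P k : Set (Fin 3 → ℝ))) →
      ¬ (∀ ε : ℝ, ε > 0 → ∃ (n : ℕ) (U : Fin n → Set Y),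
          (∀ j, IsOpen (U j)) ∧
          (∀ j, ∀ a ∈ U j, ∀ b ∈ U j, dist a b < ε) ∧
          f '' {x : Fin 3 → ℝ | ∀ i, 0 ≤ x i ∧ x i ≤ 1} ⊆ ⋃ j, U j ∧
          ∀ y ∈ f '' {x : Fin 3 → ℝ | ∀ i, 0 ≤ x i ∧ x i ≤ 1},
            {j : Fin n | y ∈ U j}.ncard ≤ 3)) := by
  intro H
  obtain ⟨Y, hY, f, P, h1, h2, h3, h4⟩ := Pool.Agent.Helper93.Be.main
  exact H Y f P h1 h2 h3 h4


end Pool.Agent.S08872
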