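import Pool.Statements.S08873
-- import your own Pool.Agent.* helpers here
import Pool.Agent.Helper977.SurfF

set_option autoImplicit false
open Pool Pool.MP_be71bd_gt

namespace Pool.Agent.S08873

/-- If K is a compact convex set in 3-space, x is interior, and every plane through x splits the boundary of K into two parts of equal 2-dimensional Hausdorff measure, then K is symmetric about x (y in K implies 2x − y in K). -/
theorem result :
    ∀ (K : Set (EuclideanSpace ℝ (Fin 3))) (x : EuclideanSpace ℝ (Fin 3)),
      Convex ℝ K → IsCompact K → x ∈ interior K →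
      (∀ v : EuclideanSpace ℝ (Fin 3), v ≠ 0 →
        MeasureTheory.Measure.hausdorffMeasure 2
            {y | y ∈ frontier K ∧ 0 < inner ℝ (y - x) v} =
          MeasureTheory.Measure.hausdorffMeasure 2
            {y | y ∈ frontier K ∧ inner ℝ (y - x) v < 0}) →
      ∀ y ∈ K, (2 : ℝ) • x - y ∈ K := by
  intro K x hK hc hx h
  exact Pool.Agent.Helper977.SurfBisect.main K x hK hc hx h

end Pool.Agent.S08873
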