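import Pool.Statements.S08877
import Pool.Agent.H63Fed.I

set_option autoImplicit false
open Pool Pool.MP_bed7e9_gt

namespace Pool.Agent.S08877

/-- There is a Tychonoff space X of covering dimension 0 whose square is normal, yet the square is not a countable union of subspaces each of finite covering dimension (covering dimension defined via finite cozero-set covers). -/
theorem result :
  ∃ (X : Type) (_ : TopologicalSpace X), T35Space X ∧ NormalSpace (X × X) ∧
    (∀ (m : ℕ) (U : Fin m → Set X),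
      (∀ i, ∃ f : X → ℝ, Continuous f ∧ U i = {x | f x ≠ 0}) →
      (⋃ i, U i) = Set.univ →
      ∃ (k : ℕ) (V : Fin k → Set X),
        (∀ j, ∃ f : X → ℝ, Continuous f ∧ V j = {x | f x ≠ 0}) ∧
        (⋃ j, V j) = Set.univ ∧
        (∀ j, ∃ i, V j ⊆ U i) ∧
        ∀ x, {j : Fin k | x ∈ V j}.ncard ≤ 1) ∧
    ¬ ∃ A : ℕ → Set (X × X), (⋃ k, A k) = Set.univ ∧
      ∀ k, ∃ n : ℕ,
        ∀ (m : ℕ) (U : Fin m → Set (A k)),
          (∀ i, ∃ f : A k → ℝ, Continuous f ∧ U i = {x | f x ≠ 0}) →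
          (⋃ i, U i) = Set.univ →
          ∃ (l : ℕ) (V : Fin l → Set (A k)),
            (∀ j, ∃ f : A k → ℝ, Continuous f ∧ V j = {x | f x ≠ 0}) ∧
            (⋃ j, V j) = Set.univ ∧
            (∀ j, ∃ i, V j ⊆ U i) ∧
            ∀ x, {j : Fin l | x ∈ V j}.ncard ≤ n + 1 := by
  obtain ⟨Q, mQ, cQ, nQ, ⟨cb⟩⟩ := H63Fed.exists_cube
  obtain ⟨D⟩ := H63Fed.exists_HD Q
  obtain ⟨N, hN⟩ := H63Fed.exists_good D
  exact ⟨H63Fed.XS N, inferInstance, H63Fed.t35_X hN, H63Fed.normal_XX hN,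
    fun m U hU hcov => H63Fed.dim_zero hN m U hU hcov, H63Fed.not_cd hN cb⟩

end Pool.Agent.S08877
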