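import Pool.Statements.S08879
import Pool.Agent.Helper382.RO4

set_option autoImplicit false
open Pool Pool.MP_bf94fe_gt

namespace Pool.Agent.S08879

/-- For bounded regular-open A, B in the line, with regular-open equidecomposability under isometries using joins: if the join of A with a disjoint translate is equidecomposable to the join of B with a disjoint translate, then A and B are equidecomposable. -/
theorem result :
    ∀ E : Set ℝ → Set ℝ → Prop,
      (∀ X Y : Set ℝ, E X Y ↔
        ∃ n : ℕ, ∃ P : Fin n → Set ℝ, ∃ g : Fin n → (ℝ ≃ᵢ ℝ),
          (∀ i, interior (closure (P i)) = P i ∧ Bornology.IsBounded (P i)) ∧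
          Pairwise (fun i j => Disjoint (P i) (P j)) ∧
          Pairwise (fun i j => Disjoint ((g i) '' (P i)) ((g j) '' (P j))) ∧
          interior (closure (⋃ i, P i)) = X ∧
          interior (closure (⋃ i, (g i) '' (P i))) = Y) →
      ∀ A B : Set ℝ,
        interior (closure A) = A → Bornology.IsBounded A →
        interior (closure B) = B → Bornology.IsBounded B →
        ∀ s t : ℝ,
          Disjoint A ((fun x => x + s) '' A) →
          Disjoint B ((fun x => x + t) '' B) →
          E (interior (closure (A ∪ (fun x => x + s) '' A)))
            (interior (closure (B ∪ (fun x => x + t) '' B))) →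
          E A B := by
  intro E hE A B hA hAb hB hBb s t hs ht h
  rw [hE] at h ⊢
  exact Pool.Agent.H382RO.cancel_two_line hA hAb hB hBb s t hs ht h

end Pool.Agent.S08879
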