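import Pool.Statements.S08899
import Pool.Agent.Helper18.JW

set_option autoImplicit false
open Pool Pool.MP_c1092b_gt

namespace Pool.Agent.S08899

/-- There is a dcpo with a well-filtered T0 topology whose point closures are the principal down-sets, while no sober topology on it has point closures equal to the principal down-sets. -/
theorem result :
    ∃ (P : Type) (_ : PartialOrder P),
      (∀ d : Set P, d.Nonempty → DirectedOn (· ≤ ·) d → ∃ x : P, IsLUB d x) ∧
      (∃ t : TopologicalSpace P,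
        (∀ x : P, @closure P t {x} = Set.Iic x) ∧ @T0Space P t ∧
        (∀ 𝒦 : Set (Set P), 𝒦.Nonempty → DirectedOn (· ⊇ ·) 𝒦 →
          (∀ K ∈ 𝒦, @IsCompact P t K ∧ IsUpperSet K) →
          ∀ U : Set P, @IsOpen P t U → ⋂₀ 𝒦 ⊆ U → ∃ K ∈ 𝒦, K ⊆ U)) ∧
      ¬ ∃ t : TopologicalSpace P,
        (∀ x : P, @closure P t {x} = Set.Iic x) ∧ @T0Space P t ∧ @QuasiSober P t := by
  open Set Pool.Agent.Helper18.Omega1 Pool.Agent.Helper18.JW in
  refine ⟨J, inferInstance, dcpo, ⟨scottJ, closure_singleton, ?_, wf⟩, ?_⟩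
  · let _ := scottJ
    infer_instance
  · rintro ⟨t, hcl, -, hsob⟩
    have hup : ∀ U : Set J, @IsOpen J t U → ∀ x ∈ U, ∀ y, x ≤ y → y ∈ U := by
      intro U hU x hx y hxy
      have h1 : x ∈ @closure J t {y} := by rw [hcl]; exact hxy
      rw [@mem_closure_iff J t] at h1
      obtain ⟨z, hz, hzy⟩ := h1 U hU hx
      rw [Set.mem_singleton_iff] at hzy
      exact hzy ▸ hz
    have hIic : ∀ y : J, @IsClosed J t (Set.Iic y) := by
      intro y
      rw [← hcl y]
      exact @isClosed_closure J t {y}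
    -- a column top is a limit of its column
    have hlim : ∀ a : W, (⟨a, ⊤⟩ : J) ∈ @closure J t (Set.range fun b : W => (⟨a, b⟩ : J)) := by
      intro a
      have hdirr : @IsIrreducible J t (Set.range fun b : W => (⟨a, b⟩ : J)) := by
        refine ⟨⟨_, ⟨Classical.arbitrary W, rfl⟩⟩, ?_⟩
        rintro U V hU hV ⟨_, ⟨b, rfl⟩, hbU⟩ ⟨_, ⟨c, rfl⟩, hcV⟩
        refine ⟨⟨a, ((max b c : W) : WithTop W)⟩, ⟨max b c, rfl⟩, ?_, ?_⟩
        · exact hup U hU _ hbU _ (Or.inl ⟨rfl, WithTop.coe_le_coe.2 (le_max_left _ _)⟩)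
        · exact hup V hV _ hcV _ (Or.inl ⟨rfl, WithTop.coe_le_coe.2 (le_max_right _ _)⟩)
      have hcirr : @IsIrreducible J t (@closure J t (Set.range fun b : W => (⟨a, b⟩ : J))) :=
        @IsIrreducible.closure J t _ hdirr
      obtain ⟨y, hy⟩ := @QuasiSober.sober J t hsob _ hcirr (@isClosed_closure J t _)
      have hy' : Set.Iic y = @closure J t (Set.range fun b : W => (⟨a, b⟩ : J)) := by
        rw [← hcl y]; exact hy
      have h1 : ∀ b : W, (⟨a, b⟩ : J) ≤ y := by
        intro b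
        have : (⟨a, b⟩ : J) ∈ Set.Iic y := by
          rw [hy']
          exact @subset_closure J t _ _ ⟨b, rfl⟩
        exact this
      rw [← hy']
      obtain ⟨c, hc⟩ := exists_gt y.a
      have h2 : a = y.a := by
        rcases le_def.1 (h1 c) with h | h
        · exact h.1
        · exact absurd (WithTop.coe_le_coe.1 h.2) (not_le.2 hc)
      have h3 : y.b = ⊤ := by
        by_contra hne
        obtain ⟨w, hw⟩ := WithTop.ne_top_iff_exists.1 hne
        obtain ⟨v, hv⟩ := exists_gt w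
        rcases le_def.1 (h1 v) with h | h
        · rw [← hw] at h
          exact absurd (WithTop.coe_le_coe.1 h.2) (not_le.2 hv)
        · exact hne h.1
      exact Or.inl ⟨h2, by rw [h3]⟩
    have htail : ∀ U : Set J, @IsOpen J t U → U.Nonempty → ∃ b : W, ∀ z : W, b ≤ z →
        (⟨z, ⊤⟩ : J) ∈ U := by
      rintro U hU ⟨p, hp⟩
      have h1 : (⟨p.a, ⊤⟩ : J) ∈ U := hup U hU p hp _ (Or.inl ⟨rfl, le_top⟩)
      have h2 := hlim p.a
      rw [@mem_closure_iff J t] at h2
      obtain ⟨_, hzU, ⟨b, rfl⟩⟩ := h2 U hU h1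
      exact ⟨b, fun z hz => hup U hU _ hzU _ (Or.inr ⟨rfl, WithTop.coe_le_coe.2 hz⟩)⟩
    have huniv : @IsIrreducible J t Set.univ := by
      refine ⟨⟨⟨Classical.arbitrary W, ⊤⟩, Set.mem_univ _⟩, ?_⟩
      rintro U V hU hV ⟨x, _, hx⟩ ⟨y, _, hy⟩
      obtain ⟨b, hb⟩ := htail U hU ⟨x, hx⟩
      obtain ⟨c, hc⟩ := htail V hV ⟨y, hy⟩
      exact ⟨⟨max b c, ⊤⟩, Set.mem_univ _, hb _ (le_max_left _ _), hc _ (le_max_right _ _)⟩
    obtain ⟨y, hy⟩ := @QuasiSober.sober J t hsob _ huniv (@isClosed_univ J t)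
    have hy' : Set.Iic y = Set.univ := by
      rw [← hcl y]; exact hy
    obtain ⟨c, hc⟩ := exists_gt y.a
    have h1 : (⟨c, ⊤⟩ : J) ≤ y := by
      have : (⟨c, ⊤⟩ : J) ∈ Set.Iic y := by rw [hy']; exact Set.mem_univ _
      exact this
    rcases le_def.1 h1 with h | h
    · have h2 : c = y.a := h.1
      exact absurd hc (by rw [h2]; exact lt_irrefl _)
    · exact absurd (top_le_iff.1 h.2) WithTop.coe_ne_top

end Pool.Agent.S08899
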