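import Pool.Statements.S08904
import Pool.Agent.H467G.Fin
import Pool.Agent.H467G.Gra

/-!
Counterexample to Gromov's question (helper467 and team): a complete CAT(0) space and a finite set whose
closed convex hull is not compact.

The space is the (completion of the) Euclidean cone over a metric graph all of whose cycles have length
at least `2 π`.  The graph is levelled: every vertex of level `L + 1` has two parents in level `L`, joined to it by
edges of length `lam L = π / 2 ^ log₂ (L / 8)`; the lengths have divergent sum and convergent sum of squares.
If `(p, ρ)`, `(q, ρ)` lie in a convex set and `p`, `q` are the parents of `v`, then the midpoint is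
`(v, ρ cos (lam L))`.  So the hull of the finite set `{(v, 1) : v in level 32}` contains `(v, ρ_L)` for all `v` of
level `L`, with `ρ_L` bounded below, and infinitely many of these are pairwise at angle at least `π`.
The graph is found greedily (Erdős–Sachs); the metric graph itself is replaced by an ultralimit of its
subdivisions, where only the combinatorial distance is needed.
-/

set_option autoImplicit false
open Pool Pool.MP_c2bb60_gt

namespace Pool.Agent.S08904

/-- The negation of the preceding statement: In every complete CAT(0) space (given via the midpoint CN inequality), the intersection of all closed sets containing a compact set K and containing every geodesic between their points is compact. -/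
theorem result :
    ¬ (∀ (X : Type) [MetricSpace X] [CompleteSpace X],
      (∀ x y : X, ∃ m : X, ∀ z : X,
          dist z m ^ 2 + dist x y ^ 2 / 4 ≤ (dist z x ^ 2 + dist z y ^ 2) / 2) →
      ∀ K : Set X, IsCompact K →
        IsCompact (⋂₀ {C : Set X | IsClosed C ∧ K ⊆ C ∧
          ∀ x ∈ C, ∀ y ∈ C, ∀ γ : ℝ → X, γ 0 = x → γ (dist x y) = y →
            (∀ s ∈ Set.Icc (0:ℝ) (dist x y), ∀ t ∈ Set.Icc (0:ℝ) (dist x y),
              dist (γ s) (γ t) = |s - t|) →
            ∀ t ∈ Set.Icc (0:ℝ) (dist x y), γ t ∈ C})) := by
  obtain ⟨par, G, A, c, hA, h1, h2, h3, h4⟩ := H467G.graph_ang
  exact H467G.final par G A c hA h1 h2 h3 h4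

end Pool.Agent.S08904
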