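import Pool.Statements.S08905
import Pool.Agent.Helper535.I

set_option autoImplicit false
open Pool Pool.MP_c2bc14_gt

namespace Pool.Agent.S08905

/-- Suppose X is compact Hausdorff and every subset A of X equals f⁻¹(f(A)) for some continuous f from X to a Corson compactum. Then the same holds for every subset of X × X. -/
theorem result :
    ∀ (X : Type) [TopologicalSpace X] [CompactSpace X] [T2Space X],
      (∀ A : Set X, ∃ (Y : Type) (tY : TopologicalSpace Y), CompactSpace Y ∧
        (∃ (κ : Type) (e : Y → κ → ℝ), Topology.IsEmbedding e ∧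
          ∀ y, {i : κ | e y i ≠ 0}.Countable) ∧
        ∃ f : X → Y, Continuous f ∧ f ⁻¹' (f '' A) = A) →
      (∀ A : Set (X × X), ∃ (Y : Type) (tY : TopologicalSpace Y), CompactSpace Y ∧
        (∃ (κ : Type) (e : Y → κ → ℝ), Topology.IsEmbedding e ∧
          ∀ y, {i : κ | e y i ≠ 0}.Countable) ∧
        ∃ f : X × X → Y, Continuous f ∧ f ⁻¹' (f '' A) = A) := by
  intro X _ _ _ h A
  have hS : Pool.Agent.Helper535.Splits X := by
    apply Pool.Agent.Helper535.splits_of_maps
    intro B
    obtain ⟨Y, tY, _, ⟨κ, e, he, hsupp⟩, f, hf, hB⟩ := h B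
    exact ⟨Y, tY, κ, e, f, he.continuous, he.injective, hsupp, hf, hB⟩
  obtain ⟨κ, e, he, hsupp⟩ := Pool.Agent.Helper535.embedding_of_corson hS.corson
  have hcont : Continuous (fun (p : X × X) (i : κ ⊕ κ) => Sum.elim (e p.1) (e p.2) i) := by
    apply continuous_pi
    rintro (i | i)
    · exact (continuous_apply i).comp (he.continuous.comp continuous_fst)
    · exact (continuous_apply i).comp (he.continuous.comp continuous_snd)
  have hinj : Function.Injective (fun (p : X × X) (i : κ ⊕ κ) => Sum.elim (e p.1) (e p.2) i) := by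
    intro p q hpq
    have h1 : e p.1 = e q.1 := by
      funext i
      exact congrFun hpq (Sum.inl i)
    have h2 : e p.2 = e q.2 := by
      funext i
      exact congrFun hpq (Sum.inr i)
    exact Prod.ext (he.injective h1) (he.injective h2)
  refine ⟨X × X, inferInstance, inferInstance,
    ⟨κ ⊕ κ, _, (hcont.isClosedEmbedding hinj).isEmbedding, ?_⟩, id, continuous_id, by simp⟩
  intro p
  have : {i : κ ⊕ κ | Sum.elim (e p.1) (e p.2) i ≠ 0} ⊆
      Sum.inl '' {i | e p.1 i ≠ 0} ∪ Sum.inr '' {i | e p.2 i ≠ 0} := by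
    rintro (i | i) hi
    · exact Or.inl ⟨i, hi, rfl⟩
    · exact Or.inr ⟨i, hi, rfl⟩
  exact (((hsupp p.1).image _).union ((hsupp p.2).image _)).mono this

end Pool.Agent.S08905
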