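import Pool.Statements.S08907

set_option autoImplicit false
open Pool Pool.MP_c36963_gt

namespace Pool.Agent.S08907

/-- There exists r : ℂ → ℂ mapping the closed unit disk into the unit circle, fixing the circle, with connected fibers in the disk, such that only finitely many circle points y fail: for all circle sequences s_n → y, every point of the Kuratowski lim sup of the fibers r⁻¹(s_n) lies in r⁻¹(y). -/
theorem result :
    ∃ r : ℂ → ℂ,
      (∀ z ∈ Metric.closedBall (0:ℂ) 1, r z ∈ Metric.sphere (0:ℂ) 1) ∧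
      (∀ y ∈ Metric.sphere (0:ℂ) 1, r y = y) ∧
      (∀ y ∈ Metric.sphere (0:ℂ) 1,
        IsConnected {z : ℂ | z ∈ Metric.closedBall (0:ℂ) 1 ∧ r z = y}) ∧
      Set.Finite {y : ℂ | y ∈ Metric.sphere (0:ℂ) 1 ∧
        ¬ (∀ s : ℕ → ℂ, (∀ n, s n ∈ Metric.sphere (0:ℂ) 1) →
            Filter.Tendsto s Filter.atTop (nhds y) →
            ∀ x : ℂ, (∀ ε : ℝ, ε > 0 → ∀ N : ℕ, ∃ n : ℕ, n ≥ N ∧
                ∃ z : ℂ, z ∈ Metric.closedBall (0:ℂ) 1 ∧ r z = s n ∧ dist z x < ε) →
              r x = y)} := by
  classical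
  let r : ℂ → ℂ := fun z => if z ∈ Metric.sphere (0:ℂ) 1 then z else 1
  have h1 : (1 : ℂ) ∈ Metric.sphere (0:ℂ) 1 := by simp
  have hr1 : ∀ z, z ∈ Metric.sphere (0:ℂ) 1 → r z = z := fun z hz => if_pos hz
  have hr2 : ∀ z, z ∉ Metric.sphere (0:ℂ) 1 → r z = 1 := fun z hz => if_neg hz
  refine ⟨r, ?_, hr1, ?_, ?_⟩
  · intro z _
    by_cases hz : z ∈ Metric.sphere (0:ℂ) 1
    · rw [hr1 z hz]; exact hz
    · rw [hr2 z hz]; exact h1
  · intro y hy
    by_cases hy1 : y = 1
    · subst hy1
      have hball : IsConnected (Metric.ball (0:ℂ) 1) :=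
        (convex_ball (0:ℂ) 1).isConnected (Metric.nonempty_ball.2 one_pos)
      refine hball.subset_closure ?_ ?_
      · intro z hz
        refine ⟨Metric.ball_subset_closedBall hz, hr2 z ?_⟩
        intro hz'
        rw [Metric.mem_ball] at hz
        rw [Metric.mem_sphere] at hz'
        linarith
      · intro z hz
        rw [closure_ball (0:ℂ) one_ne_zero]
        exact hz.1
    · have : {z : ℂ | z ∈ Metric.closedBall (0:ℂ) 1 ∧ r z = y} = {y} := by
        ext z
        simp only [Set.mem_ofPred_eq, Set.mem_singleton_iff]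
        constructor
        · rintro ⟨-, hz⟩
          by_cases hz' : z ∈ Metric.sphere (0:ℂ) 1
          · rw [hr1 z hz'] at hz; exact hz
          · rw [hr2 z hz'] at hz; exact absurd hz.symm hy1
        · rintro rfl
          exact ⟨Metric.sphere_subset_closedBall hy, hr1 z hy⟩
      rw [this]
      exact isConnected_singleton
  · refine (Set.finite_singleton (1 : ℂ)).subset ?_
    rintro y ⟨hy, hbad⟩
    by_contra hy1
    rw [Set.mem_singleton_iff] at hy1
    apply hbad
    intro s hs hlim x hx
    have hxy : x = y := by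
      apply eq_of_forall_dist_le
      intro ε hε
      have hd : 0 < dist (1 : ℂ) y := dist_pos.2 (Ne.symm hy1)
      obtain ⟨N, hN⟩ := (Metric.tendsto_atTop.1 hlim) (min (ε / 2) (dist (1 : ℂ) y))
        (lt_min (by linarith) hd)
      obtain ⟨n, hn, z, hz, hzs, hzx⟩ := hx (ε / 2) (by linarith) N
      have hsn := hN n hn
      have hne : s n ≠ 1 := by
        intro h
        rw [h] at hsn
        exact absurd (lt_of_lt_of_le hsn (min_le_right _ _)) (lt_irrefl _)
      have hzs' : z = s n := by
        by_cases hz' : z ∈ Metric.sphere (0:ℂ) 1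
        · rwa [hr1 z hz'] at hzs
        · rw [hr2 z hz'] at hzs
          exact absurd hzs.symm hne
      rw [hzs'] at hzx
      have h3 : dist (s n) y < ε / 2 := lt_of_lt_of_le hsn (min_le_left _ _)
      calc dist x y ≤ dist x (s n) + dist (s n) y := dist_triangle _ _ _
        _ ≤ ε / 2 + ε / 2 := by rw [dist_comm x]; linarith
        _ = ε := by ring
    rw [hxy]
    exact hr1 y hy

end Pool.Agent.S08907
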