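import Pool.Statements.S08914
import Pool.Agent.H63Kunen.Basic

set_option autoImplicit false
open Pool Pool.MP_c4305c_gt

namespace Pool.Agent.S08914

open Set Filter Topology Cardinal H63Kunen

/-- perfect preimages preserve paracompactness with respect to covers of size `< lam` -/
theorem para_lift {X Y : Type} [TopologicalSpace X] [TopologicalSpace Y] (f : X → Y)
    (hf : IsProperMap f) (lam : Cardinal.{0})
    (hY : ∀ (ι : Type) (U : ι → Set Y), Cardinal.mk ι < lam → (∀ i, IsOpen (U i)) →
            (⋃ i, U i) = Set.univ →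
            ∃ V : ι → Set Y, (∀ i, IsOpen (V i)) ∧ (∀ i, V i ⊆ U i) ∧
              (⋃ i, V i) = Set.univ ∧ LocallyFinite V) :
    ∀ (ι : Type) (U : ι → Set X), Cardinal.mk ι < lam → (∀ i, IsOpen (U i)) →
            (⋃ i, U i) = Set.univ →
            ∃ V : ι → Set X, (∀ i, IsOpen (V i)) ∧ (∀ i, V i ⊆ U i) ∧
              (⋃ i, V i) = Set.univ ∧ LocallyFinite V := by
  classical
  intro ι U hι hU hcov
  rcases finite_or_infinite ι with hfin | hinf
  · exact ⟨U, hU, fun i => Subset.rfl, hcov, locallyFinite_of_finite U⟩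
  · let U' : Finset ι → Set Y := fun s => (f '' (⋃ i ∈ s, U i)ᶜ)ᶜ
    have hU' : ∀ s, IsOpen (U' s) := fun s =>
      (hf.isClosedMap _ (isOpen_biUnion fun i _ => hU i).isClosed_compl).isOpen_compl
    have hcov' : (⋃ s, U' s) = Set.univ := by
      rw [eq_univ_iff_forall]
      intro y
      have hK : IsCompact (f ⁻¹' {y}) := hf.isCompact_preimage isCompact_singleton
      obtain ⟨s, hs⟩ := hK.elim_finite_subcover U hU (by rw [hcov]; exact subset_univ _)
      refine mem_iUnion.2 ⟨s, ?_⟩
      rintro ⟨x, hx, hxy⟩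
      exact hx (hs hxy)
    have hcard : Cardinal.mk (Finset ι) < lam := by
      rw [Cardinal.mk_finset_of_infinite]
      exact hι
    obtain ⟨V', hV'o, hV'U, hV'c, hV'f⟩ := hY (Finset ι) U' hcard hU' hcov'
    refine ⟨fun i => (⋃ s ∈ {s : Finset ι | i ∈ s}, f ⁻¹' (V' s)) ∩ U i, ?_, ?_, ?_, ?_⟩
    · intro i
      exact (isOpen_biUnion fun s _ => (hV'o s).preimage hf.continuous).inter (hU i)
    · exact fun i => inter_subset_right
    · rw [eq_univ_iff_forall]
      intro x
      have : f x ∈ ⋃ s, V' s := by rw [hV'c]; trivial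
      obtain ⟨s, hs⟩ := mem_iUnion.1 this
      have hx : x ∈ ⋃ i ∈ s, U i := by
        by_contra h
        exact hV'U s hs ⟨x, h, rfl⟩
      simp only [mem_iUnion] at hx
      obtain ⟨i, hi, hxi⟩ := hx
      refine mem_iUnion.2 ⟨i, ?_, hxi⟩
      simp only [mem_iUnion]
      exact ⟨s, hi, hs⟩
    · intro x
      obtain ⟨W, hW, hWf⟩ := hV'f (f x)
      refine ⟨f ⁻¹' W, hf.continuous.continuousAt.preimage_mem_nhds hW, ?_⟩
      refine (hWf.biUnion (t := fun s : Finset ι => (s : Set ι)) fun s _ => s.finite_toSet).subset ?_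
      rintro i ⟨x', ⟨hx1, -⟩, hx'⟩
      simp only [mem_iUnion] at hx1
      obtain ⟨s, hs, hx1⟩ := hx1
      simp only [mem_iUnion]
      exact ⟨s, ⟨f x', hx1, hx'⟩, hs⟩

/-- discrete families in `X` can be separated -/
theorem cwn {X : Type} [TopologicalSpace X] [T4Space X]
    (hX : ∀ D : Set X, (∀ D' ⊆ D, IsClosed D') → D.Countable) :
    ∀ (ι : Type) (F : ι → Set X), (∀ i, IsClosed (F i)) →
            (∀ x : X, ∃ W ∈ nhds x, ∀ i j, (W ∩ F i).Nonempty → (W ∩ F j).Nonempty → i = j) →
            ∃ V : ι → Set X, (∀ i, IsOpen (V i)) ∧ (∀ i, F i ⊆ V i) ∧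
              Pairwise (Function.onFun Disjoint V) := by
  classical
  intro ι F hF hd
  -- unions of subfamilies are closed
  have hlf : LocallyFinite F := by
    intro x
    obtain ⟨W, hW, h⟩ := hd x
    refine ⟨W, hW, Set.Subsingleton.finite ?_⟩
    intro i hi j hj
    exact h i j (by rwa [inter_comm]) (by rwa [inter_comm])
  let I : Set ι := {i | (F i).Nonempty}
  have hpt : ∀ i : I, ∃ x, x ∈ F i.1 := fun i => i.2
  choose p hp using hpt
  have hpinj : Function.Injective p := by
    intro i j h
    obtain ⟨W, hW, hh⟩ := hd (p i)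
    have h1 : (W ∩ F i.1).Nonempty := ⟨p i, mem_of_mem_nhds hW, hp i⟩
    have h2 : (W ∩ F j.1).Nonempty := ⟨p i, mem_of_mem_nhds hW, h ▸ hp j⟩
    exact Subtype.ext (hh _ _ h1 h2)
  have hIc : Countable I := by
    have hc : (range p).Countable := by
      apply hX
      intro D' hD'
      have h1 : D' = ⋃ i : I, (D' ∩ {p i}) := by
        ext x
        simp only [mem_iUnion]
        constructor
        · intro hx
          obtain ⟨i, hi⟩ := hD' hx
          exact ⟨i, hx, hi.symm⟩
        · rintro ⟨i, hx, -⟩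
          exact hx
      rw [h1]
      refine LocallyFinite.isClosed_iUnion ?_ fun i => ?_
      · have h2 : LocallyFinite (fun i : I => F i.1) :=
          hlf.comp_injective Subtype.val_injective
        refine h2.subset fun i x hx => ?_
        rw [show x = p i from hx.2]
        exact hp i
      · exact (Set.Finite.subset (Set.finite_singleton (p i)) inter_subset_right).isClosed
    have : Countable (range p) := hc.to_subtype
    exact Function.Injective.countable (f := fun i : I => (⟨p i, i, rfl⟩ : range p))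
      fun i j h => hpinj (congrArg Subtype.val h)
  obtain ⟨e, he⟩ := exists_injective_nat I
  -- separate each member from the union of the others
  have hsep : ∀ i, ∃ U : Set X, IsOpen U ∧ F i ⊆ U ∧ ∀ j, j ≠ i → Disjoint (closure U) (F j) := by
    intro i
    have hcl : IsClosed (⋃ j : {j // j ≠ i}, F j.1) :=
      (hlf.comp_injective Subtype.val_injective).isClosed_iUnion fun j => hF j.1
    have hdis : Disjoint (F i) (⋃ j : {j // j ≠ i}, F j.1) := by
      rw [Set.disjoint_left]
      intro x hx hx'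
      obtain ⟨⟨j, hj⟩, hxj⟩ := mem_iUnion.1 hx'
      obtain ⟨W, hW, hh⟩ := hd x
      exact hj (hh _ _ ⟨x, mem_of_mem_nhds hW, hxj⟩ ⟨x, mem_of_mem_nhds hW, hx⟩)
    obtain ⟨U, V, hU, hV, hFU, hFV, hUV⟩ := normal_separation (hF i) hcl hdis
    refine ⟨U, hU, hFU, fun j hj => ?_⟩
    exact (hUV.closure_left hV).mono_right
      ((subset_iUnion (fun j : {j // j ≠ i} => F j.1) ⟨j, hj⟩).trans hFV)
  choose U hUo hFU hUd using hsep
  let V : ι → Set X := fun i => {x | ∃ h : i ∈ I, x ∈ U i ∧
    ∀ j : I, e j < e ⟨i, h⟩ → x ∉ closure (U j.1)}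
  refine ⟨V, ?_, ?_, ?_⟩
  · intro i
    by_cases h : i ∈ I
    · have hfin : {j : I | e j < e ⟨i, h⟩}.Finite :=
        Set.Finite.preimage (f := e) he.injOn (Set.finite_lt_nat (e ⟨i, h⟩))
      have : V i = U i ∩ (⋃ j ∈ {j : I | e j < e ⟨i, h⟩}, closure (U j.1))ᶜ := by
        ext x
        simp only [V, mem_ofPred_eq, mem_inter_iff, mem_compl_iff, mem_iUnion, not_exists]
        constructor
        · rintro ⟨_, h1, h2⟩
          exact ⟨h1, fun j hj => h2 j hj⟩
        · rintro ⟨h1, h2⟩
          exact ⟨h, h1, fun j hj => h2 j hj⟩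
      rw [this]
      exact (hUo i).inter (hfin.isClosed_biUnion fun j _ => isClosed_closure).isOpen_compl
    · have : V i = ∅ := by
        ext x
        simp only [V, mem_ofPred_eq, mem_empty_iff_false, iff_false]
        rintro ⟨h', -⟩
        exact h h'
      rw [this]
      exact isOpen_empty
  · intro i x hx
    have hi : i ∈ I := ⟨x, hx⟩
    refine ⟨hi, hFU i hx, fun j hj hxj => ?_⟩
    have hne : i ≠ j.1 := by
      rintro rfl
      exact lt_irrefl _ hj
    exact Set.disjoint_left.1 (hUd j.1 i hne) hxj hx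
  · intro i j hij
    change Disjoint (V i) (V j)
    rw [Set.disjoint_left]
    rintro x ⟨hi, hxi, hi'⟩ ⟨hj, hxj, hj'⟩
    rcases lt_trichotomy (e ⟨i, hi⟩) (e ⟨j, hj⟩) with h | h | h
    · exact hj' ⟨i, hi⟩ h (subset_closure hxi)
    · exact hij (congrArg Subtype.val (he h))
    · exact hi' ⟨j, hj⟩ h (subset_closure hxj)


/-- The negation of the preceding statement: For each infinite compact Hausdorff C there is a cardinal λ so that for every T1 space X: X×C is normal iff X is <λ-paracompact and w(C)-collectionwise normal, where w(C) is the least size of a base of C. -/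
theorem result :
    ¬ (∀ (C : Type) [TopologicalSpace C] [CompactSpace C] [T2Space C] [Infinite C],
    ∃ lam : Cardinal.{0}, ∀ (X : Type) [TopologicalSpace X] [T1Space X],
      (NormalSpace (X × C) ↔
        ((∀ (ι : Type) (U : ι → Set X), Cardinal.mk ι < lam → (∀ i, IsOpen (U i)) →
            (⋃ i, U i) = Set.univ →
            ∃ V : ι → Set X, (∀ i, IsOpen (V i)) ∧ (∀ i, V i ⊆ U i) ∧
              (⋃ i, V i) = Set.univ ∧ LocallyFinite V) ∧
         (∀ (ι : Type) (F : ι → Set X),
            Cardinal.mk ι ≤ sInf {κ : Cardinal.{0} | ∃ B : Set (Set C),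
              TopologicalSpace.IsTopologicalBasis B ∧ Cardinal.mk B = κ} →
            (∀ i, IsClosed (F i)) →
            (∀ x : X, ∃ W ∈ nhds x, ∀ i j, (W ∩ F i).Nonempty → (W ∩ F j).Nonempty → i = j) →
            ∃ V : ι → Set X, (∀ i, IsOpen (V i)) ∧ (∀ i, F i ⊆ V i) ∧
              Pairwise (Function.onFun Disjoint V))))) := by
  intro hall
  obtain ⟨O, hO⟩ := exists_good
  have hC := compact_C hO
  have hC2 := t2_C hO
  have hinf : Infinite (CS O) := by
    refine Infinite.of_injective (fun x : Om => (⟨(x, false)⟩ : CS O)) ?_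
    intro a b h
    exact congrArg (fun c : CS O => c.pt.1) h
  obtain ⟨lam, hlam⟩ := hall (CS O)
  have hX4 := t4_X hO
  have hY := (hlam (YS O)).1 (normal_YC hO)
  have hXc := cwn (X := XS O) (countable_disc hO)
  exact not_normal hO ((hlam (XS O)).2 ⟨para_lift pr (pr_proper hO) lam hY.1,
    fun ι F _ => hXc ι F⟩)

end Pool.Agent.S08914
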