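import Pool.Statements.S08919
import Mathlib

set_option autoImplicit false
open Pool Pool.MP_c502b8_gt

namespace Pool.Agent.S08919

/-- A topological group with a separable subgroup and separable coset space is separable. -/
theorem three_space {L : Type*} [Group L] [TopologicalSpace L] [IsTopologicalGroup L]
    (N : Subgroup L) (hN : TopologicalSpace.SeparableSpace N)
    (hQ : TopologicalSpace.SeparableSpace (L ⧸ N)) : TopologicalSpace.SeparableSpace L := by
  obtain ⟨D, hDc, hDd⟩ := TopologicalSpace.exists_countable_dense N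
  obtain ⟨E, hEc, hEd⟩ := TopologicalSpace.exists_countable_dense (L ⧸ N)
  refine ⟨⟨(fun p : L × N => p.1 * (p.2 : L)) '' ((Quotient.out '' E) ×ˢ D), ?_, ?_⟩⟩
  · exact ((hEc.image _).prod hDc).image _
  · rw [dense_iff_inter_open]
    intro U hU ⟨u, hu⟩
    have hq : IsOpenMap (QuotientGroup.mk : L → L ⧸ N) := QuotientGroup.isOpenMap_coe
    obtain ⟨e, heE, heU⟩ := hEd.exists_mem_open (hq U hU) ⟨_, u, hu, rfl⟩
    obtain ⟨u', hu'U, hu'e⟩ := heU
    have hout : (QuotientGroup.mk (Quotient.out e) : L ⧸ N) = e := Quotient.out_eq' e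
    have hmem : (Quotient.out e)⁻¹ * u' ∈ N := by
      rw [← QuotientGroup.eq, hout, hu'e]
    have hop : IsOpen {n : N | Quotient.out e * (n : L) ∈ U} :=
      hU.preimage (continuous_const.mul continuous_subtype_val)
    obtain ⟨d, hdD, hdU⟩ := hDd.exists_mem_open hop
      ⟨⟨(Quotient.out e)⁻¹ * u', hmem⟩, by simpa using hu'U⟩
    exact ⟨Quotient.out e * (d : L), hdU, ⟨(Quotient.out e, d), ⟨⟨e, heE, rfl⟩, hdD⟩, rfl⟩⟩

/-- Projection along a countably compact factor onto a first countable one is a closed map. -/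
theorem isClosed_snd_image {G Z : Type*} [TopologicalSpace G] [TopologicalSpace Z]
    [FirstCountableTopology Z]
    (hG : ∀ U : ℕ → Set G, (∀ n, IsOpen (U n)) → Set.univ ⊆ ⋃ n, U n →
          ∃ s : Finset ℕ, Set.univ ⊆ ⋃ n ∈ s, U n)
    {C : Set (G × Z)} (hC : IsClosed C) : IsClosed (Prod.snd '' C) := by
  rw [← isOpen_compl_iff, isOpen_iff_mem_nhds]
  intro z hz
  obtain ⟨V, hV⟩ := (nhds z).exists_antitone_basis
  let W : ℕ → Set G := fun k => ⋃₀ {U | IsOpen U ∧ (U ×ˢ V k) ∩ C = ∅}
  have hWo : ∀ k, IsOpen (W k) := fun k => isOpen_sUnion (fun U hU => hU.1)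
  have hcov : Set.univ ⊆ ⋃ n, W n := by
    intro g _
    have hgz : (g, z) ∈ Cᶜ := fun h => hz ⟨(g, z), h, rfl⟩
    have h1 : Cᶜ ∈ nhds (g, z) := hC.isOpen_compl.mem_nhds hgz
    rw [nhds_prod_eq, Filter.mem_prod_iff] at h1
    obtain ⟨U, hU, V', hV', hsub⟩ := h1
    obtain ⟨k, hk⟩ := hV.mem_iff.1 hV'
    obtain ⟨U', hU'sub, hU'o, hgU'⟩ := mem_nhds_iff.1 hU
    refine Set.mem_iUnion.2 ⟨k, U', ⟨hU'o, ?_⟩, hgU'⟩
    ext ⟨a, b⟩
    simp only [Set.mem_inter_iff, Set.mem_prod, Set.mem_empty_iff_false, iff_false, not_and]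
    rintro ⟨ha, hb⟩ hab
    exact hsub ⟨hU'sub ha, hk hb⟩ hab
  obtain ⟨s, hs⟩ := hG W hWo hcov
  refine Filter.mem_of_superset (hV.mem (s.sup id)) ?_
  rintro b hb ⟨⟨a, b'⟩, habC, rfl⟩
  obtain ⟨k, hks, U, ⟨hUo, hUC⟩, haU⟩ : ∃ k ∈ s, a ∈ W k := by
    have := hs (Set.mem_univ a)
    simpa using this
  have hb' : b' ∈ V k := hV.antitone (Finset.le_sup (f := id) hks) hb
  have : (a, b') ∈ (U ×ˢ V k) ∩ C := ⟨⟨haU, hb'⟩, habC⟩
  rw [hUC] at this
  exact this

/-- The quotient of a closed subgroup of `G × H` by its intersection with `G × {1}` is separable. -/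
theorem quotient_separable {G H Z : Type*} [Group G] [TopologicalSpace G] [IsTopologicalGroup G]
    [Group H] [TopologicalSpace H] [IsTopologicalGroup H]
    [TopologicalSpace Z] [SecondCountableTopology Z]
    (hG : ∀ U : ℕ → Set G, (∀ n, IsOpen (U n)) → Set.univ ⊆ ⋃ n, U n →
          ∃ s : Finset ℕ, Set.univ ⊆ ⋃ n ∈ s, U n)
    (f : Z → H) (hf : Continuous f) (hfs : Function.Surjective f)
    (K : Subgroup (G × H)) (hK : IsClosed (K : Set (G × H))) :
    TopologicalSpace.SeparableSpace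
      (K ⧸ ((MonoidHom.snd G H).comp K.subtype).ker) := by
  set N : Subgroup K := ((MonoidHom.snd G H).comp K.subtype).ker with hN
  -- classes only depend on the second coordinate
  have hclass : ∀ x y : K, (x : G × H).2 = (y : G × H).2 →
      (QuotientGroup.mk x : K ⧸ N) = QuotientGroup.mk y := by
    intro x y hxy
    rw [QuotientGroup.eq]
    simp [hN, MonoidHom.mem_ker, hxy]
  let C : Set (G × Z) := {p | (p.1, f p.2) ∈ K}
  have hj : Continuous (fun p : G × Z => ((p.1, f p.2) : G × H)) :=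
    continuous_fst.prodMk (hf.comp continuous_snd)
  have hC : IsClosed C := hK.preimage hj
  let Z' : Set Z := Prod.snd '' C
  have hch : ∀ z : Z', ∃ g : G, (g, f z) ∈ K := by
    rintro ⟨z, ⟨⟨g, z'⟩, hgz, rfl⟩⟩
    exact ⟨g, hgz⟩
  choose g hg using hch
  let φ : Z' → K ⧸ N := fun z => QuotientGroup.mk ⟨(g z, f z), hg z⟩
  have hφc : Continuous φ := by
    rw [continuous_iff_isClosed]
    intro O hO
    let CO : Set (G × Z) := Subtype.val '' {c : C | (QuotientGroup.mk
      (⟨(c.1.1, f c.1.2), c.2⟩ : K) : K ⧸ N) ∈ O}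
    have hCO : IsClosed CO := by
      refine hC.isClosedEmbedding_subtypeVal.isClosedMap _ ?_
      refine hO.preimage ?_
      refine QuotientGroup.continuous_mk.comp ?_
      exact Continuous.subtype_mk (hj.comp continuous_subtype_val) _
    have h2 : IsClosed (Prod.snd '' CO) := isClosed_snd_image hG hCO
    have h3 : φ ⁻¹' O = Subtype.val ⁻¹' (Prod.snd '' CO) := by
      ext z
      constructor
      · intro hz
        exact ⟨(g z, z), ⟨⟨(g z, z), hg z⟩, hz, rfl⟩, rfl⟩
      · rintro ⟨⟨a, b⟩, ⟨⟨⟨a', b'⟩, hc⟩, hcO, hceq⟩, hab⟩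
        simp only [Prod.mk.injEq] at hceq
        obtain ⟨h4, h5⟩ := hceq
        subst h4; subst h5
        simp only at hab
        have hbz : b' = (z : Z) := hab
        change φ z ∈ O
        have : φ z = QuotientGroup.mk (⟨(a', f b'), hc⟩ : K) := by
          apply hclass
          simp [hbz]
        rw [this]
        exact hcO
    rw [h3]
    exact h2.preimage continuous_subtype_val
  have hφs : Function.Surjective φ := by
    intro q
    obtain ⟨⟨⟨a, b⟩, hab⟩, rfl⟩ := QuotientGroup.mk_surjective q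
    obtain ⟨z, rfl⟩ := hfs b
    have hz : z ∈ Z' := ⟨(a, z), hab, rfl⟩
    exact ⟨⟨z, hz⟩, hclass _ _ rfl⟩
  exact hφs.denseRange.separableSpace hφc

/-- If G is a countably compact topological group whose closed subgroups are all separable, and H is a topological group with a countable network, then every closed subgroup of G × H is separable. -/
theorem result :
    ∀ (G H : Type) [Group G] [TopologicalSpace G] [IsTopologicalGroup G]
      [Group H] [TopologicalSpace H] [IsTopologicalGroup H],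
      (∀ U : ℕ → Set G, (∀ n, IsOpen (U n)) → Set.univ ⊆ ⋃ n, U n →
          ∃ s : Finset ℕ, Set.univ ⊆ ⋃ n ∈ s, U n) →
      (∀ K : Subgroup G, IsClosed (K : Set G) → TopologicalSpace.SeparableSpace ↥K) →
      (∃ N : Set (Set H), N.Countable ∧
          ∀ (x : H) (U : Set H), IsOpen U → x ∈ U → ∃ A ∈ N, x ∈ A ∧ A ⊆ U) →
      ∀ K : Subgroup (G × H), IsClosed (K : Set (G × H)) →
        TopologicalSpace.SeparableSpace ↥K := by
  intro G H iG tG iGt iH tH iHt hG hGsep hnet K hK
  obtain ⟨𝒩, h𝒩c, h𝒩⟩ := hnet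
  have hQ : TopologicalSpace.SeparableSpace
      (K ⧸ ((MonoidHom.snd G H).comp K.subtype).ker) := by
    have h2 : @SecondCountableTopology H (TopologicalSpace.generateFrom 𝒩) :=
      @SecondCountableTopology.mk H (TopologicalSpace.generateFrom 𝒩) ⟨𝒩, h𝒩c, rfl⟩
    refine @quotient_separable G H H iG tG iGt iH tH iHt (TopologicalSpace.generateFrom 𝒩) h2
      hG id ?_ Function.surjective_id K hK
    rw [continuous_def]
    intro U hU
    have hUeq : (id ⁻¹' U : Set H) = ⋃₀ {A | A ∈ 𝒩 ∧ A ⊆ U} := by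
      ext x
      constructor
      · intro hx
        obtain ⟨A, hA, hxA, hAU⟩ := h𝒩 x U hU hx
        exact ⟨A, ⟨hA, hAU⟩, hxA⟩
      · rintro ⟨A, ⟨_, hAU⟩, hxA⟩
        exact hAU hxA
    rw [hUeq]
    exact @isOpen_sUnion H (TopologicalSpace.generateFrom 𝒩) _
      (fun A hA => TopologicalSpace.isOpen_generateFrom_of_mem hA.1)
  have hN : TopologicalSpace.SeparableSpace ((MonoidHom.snd G H).comp K.subtype).ker := by
    let N₀ : Subgroup G := K.comap (MonoidHom.inl G H)
    have hN₀ : IsClosed (N₀ : Set G) := hK.preimage (by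
      change Continuous (fun g : G => ((g, 1) : G × H))
      exact continuous_id.prodMk continuous_const)
    have := hGsep N₀ hN₀
    let ψ : N₀ → ((MonoidHom.snd G H).comp K.subtype).ker := fun g =>
      ⟨⟨((g : G), 1), g.2⟩, by simp [MonoidHom.mem_ker]⟩
    have hψc : Continuous ψ := by
      refine Continuous.subtype_mk (Continuous.subtype_mk ?_ _) _
      exact continuous_subtype_val.prodMk continuous_const
    have hψs : Function.Surjective ψ := by
      rintro ⟨⟨⟨a, b⟩, hab⟩, hker⟩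
      have hb : b = 1 := by simpa [MonoidHom.mem_ker] using hker
      subst hb
      exact ⟨⟨a, hab⟩, rfl⟩
    exact hψs.denseRange.separableSpace hψc
  exact three_space _ hN hQ

end Pool.Agent.S08919
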