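import Pool.Statements.S08924
import Pool.Agent.Helper220.RealCp

set_option autoImplicit false
universe u
open Topology
open Pool Pool.MP_c5d79e_gt

namespace Pool.Agent.S08924

/-- The negation of the preceding statement: For every Tychonoff X: if every discrete set of continuous real functions on X (pointwise topology) has closure in C_p(X) closed-embeddable in a power of ℝ, then C_p(X) is closed-embeddable in a power of ℝ, i.e. realcompact. -/
theorem result :
    ¬ (∀ (X : Type u) [TopologicalSpace X] [T35Space X],
      (∀ D : Set (X → ℝ), D ⊆ {f : X → ℝ | Continuous f} → DiscreteTopology D →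
        ∃ (ι : Type u) (g : ↥(closure D ∩ {f : X → ℝ | Continuous f}) → (ι → ℝ)),
          IsClosedEmbedding g) →
      ∃ (ι : Type u) (g : ↥{f : X → ℝ | Continuous f} → (ι → ℝ)), IsClosedEmbedding g) := by
  exact Pool.Agent.Helper220.RealCp.mainc5

end Pool.Agent.S08924
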