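import Pool.Statements.S08936
import Pool.Agent.Helper212.Cosmic2

set_option autoImplicit false
open Pool Pool.MP_c6d701_gt

namespace Pool.Agent.S08936

open Set Topology Filter Pool.Agent.Helper212.Cosmic

/-- the iterated function space -/
abbrev SS : Type := {g : {f : {x : ℝ // Irrational x} → ℝ // Continuous f} → ℝ // Continuous g}

/-- The negation of the preceding statement: The space of continuous real functions, with the pointwise topology, on the space of continuous real functions on the irrationals (also pointwise) embeds topologically into some Tychonoff space that is a continuous image of the irrationals. -/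
theorem result :
    ¬ (∃ (Y : Type) (_ : TopologicalSpace Y),
      T35Space Y ∧ MeasureTheory.AnalyticSet (Set.univ : Set Y) ∧
      ∃ e : {g : {f : {x : ℝ // Irrational x} → ℝ // Continuous f} → ℝ // Continuous g} → Y,
        Topology.IsEmbedding e) := by
  rintro ⟨Y, _, hY, han, e, he⟩
  classical
  let o : SS := ⟨fun _ => 0, continuous_const⟩
  have hphi : ∃ φ : (ℕ → ℕ) → Y, Continuous φ ∧ Function.Surjective φ := by
    rw [MeasureTheory.AnalyticSet] at han
    rcases han with h | ⟨φ, hφ, hr⟩
    · exact absurd (h ▸ mem_univ (e o)) (Set.notMem_empty _)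
    · exact ⟨φ, hφ, range_eq_univ.1 hr⟩
  obtain ⟨φ, hφc, hφs⟩ := hphi
  -- the test functions
  have htest : ∀ (B : Set M) (W : Set X), ∃ G : SS, IsOpen B → IsClopen W → W ⊆ c ⁻¹' B →
      ∃ g : M → ℝ, G.1 = (fun f => g (proj f)) ∧ (∀ x ∈ W, g (c x) = 1) ∧
      (∀ x ∉ W, g (c x) = 0) ∧ ∀ m ∉ B, g m = 0 := by
    intro B W
    by_cases h : IsOpen B ∧ IsClopen W ∧ W ⊆ c ⁻¹' B
    · obtain ⟨g, hg, h1, h2, h3⟩ := exists_ury h.1 h.2.1 h.2.2
      exact ⟨⟨fun f => g (proj f), hg.comp continuous_proj⟩, fun _ _ _ => ⟨g, rfl, h1, h2, h3⟩⟩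
    · exact ⟨o, fun h1 h2 h3 => absurd ⟨h1, h2, h3⟩ h⟩
  choose G hG using htest
  have hbasis := TopologicalSpace.isBasis_countableBasis M
  have hcount := TopologicalSpace.countable_countableBasis M
  have : Countable (TopologicalSpace.countableBasis M) := hcount.to_subtype
  choose z hz using fun (i : (ℚ × ℚ) × TopologicalSpace.countableBasis M) (W : Set X) =>
    hφs (e (G i.2.1 W))
  have hdata : ∀ x : X, ∃ (V : Set Y) (C : Set Y) (F : Set S), IsOpen V ∧ IsClosed C ∧ C ⊆ V ∧
      F.Finite ∧ (∀ H : SS, (∀ f ∈ F, H.1 f = 0) → e H ∈ C) ∧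
      (∀ H : SS, H.1 (Function.surjInv proj_surjective (c x)) = 1 → e H ∉ V) := by
    intro x
    have hU : IsOpen {H : SS | H.1 (Function.surjInv proj_surjective (c x)) < 1 / 2} :=
      isOpen_lt ((continuous_apply _).comp continuous_subtype_val) continuous_const
    obtain ⟨V, hV, hVU⟩ := he.isInducing.isOpen_iff.1 hU
    have hoV : e o ∈ V := by
      have : o ∈ e ⁻¹' V := by
        rw [hVU]
        show (0 : ℝ) < 1 / 2
        norm_num
      exact this
    obtain ⟨C, hC1, hC2, hC3⟩ := exists_mem_nhds_isClosed_subset (hV.mem_nhds hoV)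
    have hpre : e ⁻¹' C ∈ 𝓝 o := he.continuous.continuousAt.preimage_mem_nhds hC1
    rw [nhds_subtype_eq_comap, mem_comap] at hpre
    obtain ⟨A, hA, hAC⟩ := hpre
    rw [nhds_pi, Filter.mem_pi] at hA
    obtain ⟨F, hF, t, ht, htA⟩ := hA
    refine ⟨V, C, F, hV, hC2, hC3, hF, ?_, ?_⟩
    · intro H hH
      have : H ∈ e ⁻¹' C := by
        apply hAC
        apply htA
        intro f hf
        rw [hH f hf]
        exact mem_of_mem_nhds (ht f)
      exact this
    · intro H hH hmem
      have : H ∈ e ⁻¹' V := hmem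
      rw [hVU] at this
      have h2 : H.1 (Function.surjInv proj_surjective (c x)) < 1 / 2 := this
      rw [hH] at h2
      norm_num at h2
  choose V C F h1 h2 h3 h4 h5 h6 using hdata
  refine abstract_core2 (ι := (ℚ × ℚ) × TopologicalSpace.countableBasis M)
    (fun i => i.1.1) (fun i => i.1.2) z
    (fun x => φ ⁻¹' C x) (fun x => φ ⁻¹' (V x)ᶜ)
    (fun x => (h2 x).preimage hφc) (fun x => (h1 x).isClosed_compl.preimage hφc) ?_ ?_
  · intro x
    rw [Set.disjoint_left]
    intro w hw hw2
    exact hw2 (h3 x hw)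
  · intro x
    have hfin : ((proj '' F x) \ {c x}).Finite := ((h4 x).image proj).subset sdiff_subset
    have hop : IsOpen (((proj '' F x) \ {c x})ᶜ) := hfin.isClosed.isOpen_compl
    obtain ⟨B, hB, hxB, hBsub⟩ := hbasis.exists_subset_of_mem_open
      (show c x ∈ ((proj '' F x) \ {c x})ᶜ by simp) hop
    have hBo : IsOpen B := hbasis.isOpen hB
    obtain ⟨a, b, hab, hx, hJ⟩ := exists_J (hBo.preimage continuous_c) hxB
    refine ⟨((a, b), ⟨B, hB⟩), hab, hx, ?_⟩
    intro W hW hWJ
    obtain ⟨g, hg0, hg1, hg2, hg3⟩ := hG B W hBo hW (hWJ.trans hJ)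
    constructor
    · intro hxW
      show φ (z ((a, b), ⟨B, hB⟩) W) ∈ C x
      rw [hz]
      apply h5
      intro f hf
      rw [hg0]
      show g (proj f) = 0
      by_cases hfB : proj f ∈ B
      · have : proj f = c x := by
          by_contra hne
          exact hBsub hfB ⟨mem_image_of_mem proj hf, hne⟩
        rw [this]
        exact hg2 x hxW
      · exact hg3 _ hfB
    · intro hxW
      show φ (z ((a, b), ⟨B, hB⟩) W) ∉ V x
      rw [hz]
      apply h6
      rw [hg0]
      have hsec : proj (Function.surjInv proj_surjective (c x)) = c x :=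
        Function.surjInv_eq proj_surjective (c x)
      show g (proj (Function.surjInv proj_surjective (c x))) = 1
      rw [hsec]
      exact hg1 x hxW

end Pool.Agent.S08936
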