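import Pool.Statements.S08940
import Pool.Agent.Helper876.TTMain

set_option autoImplicit false
open Pointwise
open Pool Pool.MP_c7fc41_gt

namespace Pool.Agent.S08940

/-- The negation of the preceding statement: Take n ≥ 3 and a convex body K in n-space. If its Blaschke body (the symmetric body whose surface area measure is the average of those of K and −K) is homothetic to ½(K−K), then K is centrally symmetric. -/
theorem result :
    ¬ (∀ n : ℕ, 3 ≤ n → ∀ K B : Set (EuclideanSpace ℝ (Fin n)),
      IsCompact K → Convex ℝ K → (interior K).Nonempty →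
      IsCompact B → Convex ℝ B → (interior B).Nonempty → -B = B →
      (∀ L : Set (EuclideanSpace ℝ (Fin n)), IsCompact L → Convex ℝ L → L.Nonempty →
        HasDerivWithinAt
          (fun ε : ℝ => (MeasureTheory.volume (B + ε • L)).toReal
            - ((MeasureTheory.volume (K + ε • L)).toReal
                + (MeasureTheory.volume (-K + ε • L)).toReal) / 2)
          0 (Set.Ici 0) 0) →
      (∃ r : ℝ, 0 < r ∧ ∃ x : EuclideanSpace ℝ (Fin n),
        B = x +ᵥ (r • ((1 / 2 : ℝ) • (K + -K)))) →
      ∃ c : EuclideanSpace ℝ (Fin n), ∀ y : EuclideanSpace ℝ (Fin n),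
        y ∈ K ↔ (2 : ℝ) • c - y ∈ K) := by
  intro h
  obtain ⟨m, hm0, hm⟩ : ∃ m : ℝ, 0 < m ∧ m ^ 3 = 1 / 12 := by
    refine ⟨(1 / 12 : ℝ) ^ ((1 : ℝ) / 3), by positivity, ?_⟩
    rw [← Real.rpow_natCast, ← Real.rpow_mul (by norm_num)]
    norm_num
  refine Pool.Agent.Helper876.not_symm (h 4 (by norm_num) Pool.Agent.Helper876.KTT
    (Pool.Agent.Helper876.BHH m) Pool.Agent.Helper876.isCompact_KTT Pool.Agent.Helper876.convex_KTT
    Pool.Agent.Helper876.interior_KTT (Pool.Agent.Helper876.isCompact_BHH m)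
    (Pool.Agent.Helper876.convex_BHH m) (Pool.Agent.Helper876.interior_BHH hm0)
    (Pool.Agent.Helper876.neg_BHH m) ?_ ?_)
  · intro L hL _ hne
    have h1 := Pool.Agent.Helper876.deriv_B hm0 L hL hne
    have h2 := Pool.Agent.Helper876.deriv_K L hL hne
    have h3 := Pool.Agent.Helper876.deriv_negK L hL hne
    have h4 := h1.sub ((h2.add h3).div_const 2)
    rw [Pool.Agent.Helper876.sum_eq L hm] at h4
    exact h4
  · refine ⟨2 * m, by positivity, 0, ?_⟩
    rw [zero_vadd, Pool.Agent.Helper876.KTT_sub]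
    exact Pool.Agent.Helper876.BHH_smul hm0

end Pool.Agent.S08940
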