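import Pool.Statements.S08948
import Pool.Agent.Helper28.Fin8

set_option autoImplicit false
open MeasureTheory
open Pool Pool.MP_c9e52c_gt

namespace Pool.Agent.S08948

/-- The negation of the preceding statement: For all m>1 and r>0, the greatest lower bound of the Sasaki volumes of smooth tangent vector fields of constant length r on the unit sphere S^{2m+1} equals c(m;r) times the area of S^{2m+1}. -/
theorem result :
    ¬ (∀ m : ℕ, 1 < m → ∀ r : ℝ, 0 < r →
      IsGLB
        {v : ℝ | ∃ X : EuclideanSpace ℝ (Fin (2 * m + 2)) → EuclideanSpace ℝ (Fin (2 * m + 2)),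
            ContDiff ℝ ((⊤ : ℕ∞) : WithTop ℕ∞) X ∧
            (∀ x ∈ Metric.sphere (0 : EuclideanSpace ℝ (Fin (2 * m + 2))) 1,
                inner ℝ x (X x) = 0 ∧ ‖X x‖ = r) ∧
            ∃ B : Metric.sphere (0 : EuclideanSpace ℝ (Fin (2 * m + 2))) 1 →
                (EuclideanSpace ℝ (Fin (2 * m + 2)) →L[ℝ] EuclideanSpace ℝ (Fin (2 * m + 2))),
              (∀ x : Metric.sphere (0 : EuclideanSpace ℝ (Fin (2 * m + 2))) 1,
                B x = (1 - (innerSL ℝ (x : EuclideanSpace ℝ (Fin (2 * m + 2)))).smulRight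
                          (x : EuclideanSpace ℝ (Fin (2 * m + 2))))
                      ∘L fderiv ℝ X (x : EuclideanSpace ℝ (Fin (2 * m + 2)))
                      ∘L (1 - (innerSL ℝ (x : EuclideanSpace ℝ (Fin (2 * m + 2)))).smulRight
                          (x : EuclideanSpace ℝ (Fin (2 * m + 2))))) ∧
              v = ∫ x : Metric.sphere (0 : EuclideanSpace ℝ (Fin (2 * m + 2))) 1,
                    Real.sqrt (LinearMap.det
                      (((1 + ContinuousLinearMap.adjoint (B x) ∘L B x :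
                          EuclideanSpace ℝ (Fin (2 * m + 2)) →L[ℝ] EuclideanSpace ℝ (Fin (2 * m + 2)))) :
                        EuclideanSpace ℝ (Fin (2 * m + 2)) →ₗ[ℝ] EuclideanSpace ℝ (Fin (2 * m + 2))))
                  ∂((volume : Measure (EuclideanSpace ℝ (Fin (2 * m + 2)))).toSphere)}
        ((∑ k ∈ Finset.range (m + 1),
            ((m.choose k : ℝ)) ^ 2 / (((2 * m).choose (2 * k) : ℕ) : ℝ) * r ^ (2 * k)) *
          ((volume : Measure (EuclideanSpace ℝ (Fin (2 * m + 2)))).toSphere Set.univ).toReal)) := by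
  intro H
  have H3 := H 3 (by norm_num) (1 / 4) (by norm_num)
  have hvol := Pool.Agent.Helper28.vol8_pos
  have hsum : (∑ k ∈ Finset.range (3 + 1),
            ((Nat.choose 3 k : ℝ)) ^ 2 / (((2 * 3).choose (2 * k) : ℕ) : ℝ) * (1 / 4 : ℝ) ^ (2 * k))
      = (4 / 5) * (1 + (1 / 4 : ℝ) ^ 6) + (1 / 5) * (1 + (1 / 4 : ℝ) ^ 2) ^ 3 := by
    simp only [Finset.sum_range_succ, Finset.sum_range_zero]
    norm_num [Nat.choose]
  rw [hsum] at H3
  have hlt : ((4 / 5) * (1 + (1 / 4 : ℝ) ^ 6) + (1 / 5) * (1 + (1 / 4 : ℝ) ^ 2) ^ 3)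
        * ((volume : Measure (EuclideanSpace ℝ (Fin (2 * 3 + 2)))).toSphere Set.univ).toReal
      < ((4 / 5) * (1 + (1 / 4 : ℝ) ^ 6) + (1 / 5) * (1 + (1 / 4 : ℝ) ^ 2) ^ 3 + 1 / 10 ^ 28)
        * Pool.Agent.Helper28.σ8.real Set.univ := by
    show _ * Pool.Agent.Helper28.σ8.real Set.univ < _
    have : (0 : ℝ) < 1 / 10 ^ 28 := by norm_num
    nlinarith
  obtain ⟨v, ⟨X, hX, hX2, B, hB, hv⟩, hvlt⟩ := (isGLB_lt_iff H3).1 hlt
  exact Pool.Agent.Helper28.final8 X hX hX2 B hB v hv hvlt.le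

end Pool.Agent.S08948
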