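import Pool.Statements.S08950

set_option autoImplicit false
open Pool Pool.MP_cb3f7b_gt

namespace Pool.Agent.S08950

/-- Convex region of the quadrant bounded by two half-lines and an arc of the hyperbola `x y = 18`. -/
def DD (x y : ℝ) : Prop :=
  0 ≤ x ∧ 0 ≤ y ∧ ∀ s : ℝ, 3 ≤ s → s ≤ 6 → 36 * s ≤ 18 * x + s ^ 2 * y

/-- The body `K₁` in affine coordinates. -/
def MM (a b : ℝ) : Prop := DD (9 + a) (9 - a + b) ∧ DD (9 - a + b) (9 - b) ∧ DD (9 + a) (9 - b)

lemma DD_symm {x y : ℝ} (h : DD x y) : DD y x := by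
  obtain ⟨hx, hy, h⟩ := h
  refine ⟨hy, hx, fun s hs3 hs6 => ?_⟩
  have hs : 0 < s := by linarith
  have h1 : 3 ≤ 18 / s := by rw [le_div_iff₀ hs]; linarith
  have h2 : 18 / s ≤ 6 := by rw [div_le_iff₀ hs]; linarith
  have h3 := h (18 / s) h1 h2
  have h4 : s ^ 2 * (36 * (18 / s)) ≤ s ^ 2 * (18 * x + (18 / s) ^ 2 * y) :=
    mul_le_mul_of_nonneg_left h3 (by positivity)
  have h5 : s ^ 2 * (36 * (18 / s)) = 648 * s := by
    have : s ≠ 0 := ne_of_gt hs
    field_simp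
    norm_num
  have h6 : s ^ 2 * (18 * x + (18 / s) ^ 2 * y) = 18 * (s ^ 2 * x + 18 * y) := by
    have : s ≠ 0 := ne_of_gt hs
    field_simp
  rw [h5, h6] at h4
  linarith

lemma DD_poly {x y : ℝ} (hx : 0 ≤ x) (hy : 0 ≤ y) (h9 : 9 ≤ x + y) (h1 : 12 ≤ 2 * x + y)
    (h2 : 12 ≤ x + 2 * y) : DD x y := by
  refine ⟨hx, hy, fun s hs3 hs6 => ?_⟩
  rcases le_total (s ^ 2) 18 with h | h
  · nlinarith [mul_nonneg (sub_nonneg.2 h) (sub_nonneg.2 h1),
      mul_nonneg (show (0:ℝ) ≤ 2 * s ^ 2 - 18 by nlinarith) (sub_nonneg.2 h9),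
      sq_nonneg (s - 3)]
  · nlinarith [mul_nonneg (sub_nonneg.2 h) (sub_nonneg.2 h2),
      mul_nonneg (show (0:ℝ) ≤ 36 - s ^ 2 by nlinarith) (sub_nonneg.2 h9),
      sq_nonneg (s - 6)]

lemma MM_rot (a b : ℝ) : MM (a - b) a ↔ MM (-a) (-b) := by
  unfold MM
  have e1 : 9 + (a - b) = 9 - -a + -b := by ring
  have e2 : 9 - (a - b) + a = 9 - -b := by ring
  have e3 : 9 - a = 9 + -a := by ring
  rw [e1, e2, e3]
  constructor
  · rintro ⟨h1, h2, h3⟩
    exact ⟨DD_symm h3, h1, DD_symm h2⟩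
  · rintro ⟨h1, h2, h3⟩
    exact ⟨h2, DD_symm h3, DD_symm h1⟩

lemma MM_swap (a b : ℝ) : MM b a ↔ MM (-a) (-b) := by
  unfold MM
  have e1 : 9 + b = 9 - -b := by ring
  have e2 : 9 - b + a = 9 - -a + -b := by ring
  have e3 : 9 - a = 9 + -a := by ring
  rw [e1, e2, e3]
  constructor
  · rintro ⟨h1, h2, h3⟩
    exact ⟨DD_symm h2, DD_symm h1, DD_symm h3⟩
  · rintro ⟨h1, h2, h3⟩
    exact ⟨DD_symm h2, DD_symm h1, DD_symm h3⟩

lemma lemA1 {l t : ℝ} (h1 : 1 / 3 ≤ l) (h2 : l ≤ 2 / 3) :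
    MM (7 + l * t) (7 - (1 - l) * t) ↔ 0 ≤ 2 + (1 - l) * t ∧ 2 ≤ (1 - l) * (9 - t) := by
  obtain ⟨m, hm⟩ : ∃ m, m = 1 - l := ⟨_, rfl⟩
  have hm1 : 1 / 3 ≤ m := by linarith
  have hm2 : m ≤ 2 / 3 := by linarith
  have hl : l = 1 - m := by linarith
  subst hl
  have hmp : 0 < m := by linarith
  unfold MM
  have e1 : 9 + (7 + (1 - m) * t) = 16 + (1 - m) * t := by ring
  have e2 : 9 - (7 + (1 - m) * t) + (7 - (1 - (1 - m)) * t) = 9 - t := by ring
  have e3 : 9 - (7 - (1 - (1 - m)) * t) = 2 + m * t := by ring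
  have e4 : (1 - (1 - m)) = m := by ring
  rw [e1, e2, e3, e4]
  constructor
  · rintro ⟨-, ⟨hq, hr, h⟩, -⟩
    refine ⟨hr, ?_⟩
    have hs3 : 3 ≤ 2 / m := by rw [le_div_iff₀ hmp]; linarith
    have hs6 : 2 / m ≤ 6 := by rw [div_le_iff₀ hmp]; linarith
    have h3 := h (2 / m) hs3 hs6
    have h4 : m ^ 2 * (36 * (2 / m)) ≤ m ^ 2 * (18 * (9 - t) + (2 / m) ^ 2 * (2 + m * t)) :=
      mul_le_mul_of_nonneg_left h3 (by positivity)
    have h5 : m ^ 2 * (36 * (2 / m)) = 72 * m := by field_simp; ring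
    have h6 : m ^ 2 * (18 * (9 - t) + (2 / m) ^ 2 * (2 + m * t))
        = 18 * m ^ 2 * (9 - t) + 4 * (2 + m * t) := by
      field_simp; ring
    rw [h5, h6] at h4
    have h7 : 0 ≤ (m * (9 - t) - 2) * (18 * m - 4) := by nlinarith
    have h8 : 0 < 18 * m - 4 := by linarith
    have h9 : 0 ≤ m * (9 - t) - 2 := nonneg_of_mul_nonneg_left h7 h8
    linarith
  · rintro ⟨hr, hq⟩
    have ht1 : -6 ≤ t := by
      by_contra hlt
      push Not at hlt
      nlinarith
    have ht2 : t ≤ 6 := by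
      by_contra hlt
      push Not at hlt
      nlinarith
    have hmt : m * t ≤ 4 := by nlinarith
    refine ⟨DD_poly ?_ ?_ ?_ ?_ ?_, ⟨?_, hr, ?_⟩, DD_poly ?_ hr ?_ ?_ ?_⟩
    · nlinarith
    · linarith
    · nlinarith
    · nlinarith
    · nlinarith
    · linarith
    · intro s hs3 hs6
      have hA : 0 ≤ m * (9 - t) - 2 := by linarith
      have hC : 0 ≤ 36 + 162 * m - 36 * s * m := by nlinarith
      have key : 9 * m ^ 2 * (18 * (9 - t) + s ^ 2 * (2 + m * t) - 36 * s)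
          = 9 * ((2 + m * t) * (s * m - 2) ^ 2)
            + (m * (9 - t) - 2) * (36 + 162 * m - 36 * s * m) := by ring
      have h0 : 0 ≤ 9 * m ^ 2 * (18 * (9 - t) + s ^ 2 * (2 + m * t) - 36 * s) := by
        rw [key]
        have := mul_nonneg hr (sq_nonneg (s * m - 2))
        have := mul_nonneg hA hC
        linarith
      have h9 : 0 ≤ 18 * (9 - t) + s ^ 2 * (2 + m * t) - 36 * s :=
        nonneg_of_mul_nonneg_right h0 (by positivity)
      linarith
    · nlinarith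
    · nlinarith
    · nlinarith
    · nlinarith

lemma lemA2 {l t : ℝ} (h1 : 1 / 3 ≤ l) (h2 : l ≤ 2 / 3) :
    MM (-(7 + l * t)) (-(7 - (1 - l) * t)) ↔ 0 ≤ 2 - l * t ∧ 2 ≤ l * (9 + t) := by
  rw [← MM_swap]
  have h := lemA1 (l := 1 - l) (t := -t) (by linarith) (by linarith)
  have e1 : 7 + (1 - l) * -t = 7 - (1 - l) * t := by ring
  have e2 : 7 - (1 - (1 - l)) * -t = 7 + l * t := by ring
  have e3 : 2 + (1 - (1 - l)) * -t = 2 - l * t := by ring
  have e4 : (1 - (1 - l)) * (9 - -t) = l * (9 + t) := by ring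
  rw [e1, e2, e3, e4] at h
  exact h

lemma lemB1 {l t : ℝ} (h0 : 0 ≤ l) (h1 : l ≤ 1 / 3) :
    MM (7 + l * t) (7 - (1 - l) * t) ↔ 0 ≤ 1 + (1 - 2 * l) * t ∧ (1 + l) * t ≤ 8 := by
  unfold MM
  have e1 : 9 + (7 + l * t) = 16 + l * t := by ring
  have e2 : 9 - (7 + l * t) + (7 - (1 - l) * t) = 9 - t := by ring
  have e3 : 9 - (7 - (1 - l) * t) = 2 + (1 - l) * t := by ring
  rw [e1, e2, e3]
  constructor
  · rintro ⟨-, ⟨hq, hr, h⟩, -⟩
    have h3 := h 3 (by norm_num) (by norm_num)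
    have h6 := h 6 (by norm_num) (by norm_num)
    constructor <;> linarith
  · rintro ⟨ha, hb⟩
    have ht1 : -3 ≤ t := by
      by_contra hlt
      push Not at hlt
      nlinarith
    have ht2 : t ≤ 8 := by
      by_contra hlt
      push Not at hlt
      nlinarith
    have hlt1 : -1 ≤ l * t := by nlinarith
    have hlt2 : l * t ≤ 2 := by
      by_contra hlt
      push Not at hlt
      have : 0 < t := by nlinarith
      nlinarith
    have hr : 0 ≤ 2 + (1 - l) * t := by nlinarith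
    have hr2 : (1 - l) * t ≤ 8 := by nlinarith
    refine ⟨DD_poly ?_ ?_ ?_ ?_ ?_, DD_poly ?_ hr ?_ ?_ ?_, DD_poly ?_ hr ?_ ?_ ?_⟩ <;> linarith

lemma lemB2 {l t : ℝ} (h0 : 0 ≤ l) (h1 : l ≤ 1 / 3) :
    MM (-(7 + l * t)) (-(7 - (1 - l) * t)) ↔ 0 ≤ 1 + (1 - 2 * l) * t ∧ (1 + l) * t ≤ 8 := by
  unfold MM
  have e1 : 9 + -(7 + l * t) = 2 - l * t := by ring
  have e2 : 9 - -(7 + l * t) + -(7 - (1 - l) * t) = 9 + t := by ring
  have e3 : 9 - -(7 - (1 - l) * t) = 16 - (1 - l) * t := by ring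
  rw [e1, e2, e3]
  constructor
  · rintro ⟨⟨-, -, h⟩, -, ⟨-, -, h'⟩⟩
    have h3 := h 3 (by norm_num) (by norm_num)
    have h6 := h' 3 (by norm_num) (by norm_num)
    constructor <;> linarith
  · rintro ⟨ha, hb⟩
    have ht1 : -3 ≤ t := by
      by_contra hlt
      push Not at hlt
      nlinarith
    have ht2 : t ≤ 8 := by
      by_contra hlt
      push Not at hlt
      nlinarith
    have hlt1 : -1 ≤ l * t := by nlinarith
    have hlt2 : l * t ≤ 2 := by
      by_contra hlt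
      push Not at hlt
      have : 0 < t := by nlinarith
      nlinarith
    have hr : 0 ≤ 2 + (1 - l) * t := by nlinarith
    have hr2 : (1 - l) * t ≤ 8 := by nlinarith
    refine ⟨DD_poly ?_ ?_ ?_ ?_ ?_, DD_poly ?_ ?_ ?_ ?_ ?_, DD_poly ?_ ?_ ?_ ?_ ?_⟩ <;> linarith

/-- The property that, on the line `u₀ a + u₁ b = c`, the two sections are translates. -/
def QQ (u0 u1 c : ℝ) : Prop :=
  ∃ v0 v1 : ℝ, u0 * v0 + u1 * v1 = 0 ∧
    ∀ a b : ℝ, u0 * a + u1 * b = c → (MM a b ↔ MM (-(a + v0)) (-(b + v1)))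

lemma QQ_base1 {l : ℝ} (h0 : 0 ≤ l) (h1 : l ≤ 1) : QQ (1 - l) l 7 := by
  have par : ∀ a b : ℝ, (1 - l) * a + l * b = 7 →
      a = 7 + l * (a - b) ∧ b = 7 - (1 - l) * (a - b) := by
    intro a b h
    constructor <;> linarith
  rcases le_total l (1 / 3) with h3 | h3
  · refine ⟨0, 0, by ring, fun a b h => ?_⟩
    obtain ⟨ha, hb⟩ := par a b h
    rw [add_zero, add_zero]
    generalize a - b = t at ha hb
    subst ha hb
    rw [lemB1 h0 h3, lemB2 h0 h3]
  rcases le_total l (2 / 3) with h6 | h6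
  · have hl : 0 < l := by linarith
    have hm : 0 < 1 - l := by linarith
    refine ⟨(-9 + 2 / l + 2 / (1 - l)) * l, -((-9 + 2 / l + 2 / (1 - l)) * (1 - l)), by ring,
      fun a b h => ?_⟩
    obtain ⟨ha, hb⟩ := par a b h
    generalize a - b = t at ha hb
    subst ha hb
    rw [lemA1 h3 h6]
    have e1 : 7 + l * t + (-9 + 2 / l + 2 / (1 - l)) * l
        = 7 + l * (t + (-9 + 2 / l + 2 / (1 - l))) := by ring
    have e2 : 7 - (1 - l) * t + -((-9 + 2 / l + 2 / (1 - l)) * (1 - l))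
        = 7 - (1 - l) * (t + (-9 + 2 / l + 2 / (1 - l))) := by ring
    rw [e1, e2, lemA2 h3 h6]
    have hl' : l ≠ 0 := ne_of_gt hl
    have hm' : 1 - l ≠ 0 := ne_of_gt hm
    have e3 : 2 - l * (t + (-9 + 2 / l + 2 / (1 - l))) = l * ((1 - l) * (9 - t) - 2) / (1 - l) := by
      field_simp
      ring
    have e4 : l * (9 + (t + (-9 + 2 / l + 2 / (1 - l)))) = 2 + l * (2 + (1 - l) * t) / (1 - l) := by
      field_simp
      ring
    rw [e3, e4]
    constructor
    · rintro ⟨hA, hB⟩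
      refine ⟨div_nonneg (mul_nonneg hl.le (by linarith)) hm.le, ?_⟩
      have := div_nonneg (mul_nonneg hl.le hA) hm.le
      linarith
    · rintro ⟨hA, hB⟩
      constructor
      · by_contra hneg
        push Not at hneg
        have : l * (2 + (1 - l) * t) / (1 - l) < 0 :=
          div_neg_of_neg_of_pos (mul_neg_of_pos_of_neg hl hneg) hm
        linarith
      · by_contra hneg
        push Not at hneg
        have : l * ((1 - l) * (9 - t) - 2) / (1 - l) < 0 :=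
          div_neg_of_neg_of_pos (mul_neg_of_pos_of_neg hl (by linarith)) hm
        linarith
  · refine ⟨0, 0, by ring, fun a b h => ?_⟩
    obtain ⟨ha, hb⟩ := par a b h
    rw [add_zero, add_zero]
    have hs1 := MM_swap a b
    have hs2 := MM_swap b a
    have hB1 := lemB1 (l := 1 - l) (t := b - a) (by linarith) (by linarith)
    have hB2 := lemB2 (l := 1 - l) (t := b - a) (by linarith) (by linarith)
    have e1 : 7 + (1 - l) * (b - a) = b := by linarith
    have e2 : 7 - (1 - (1 - l)) * (b - a) = a := by linarith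
    rw [e1, e2] at hB1 hB2
    rw [← hs1, hs2, hB1, hB2]

lemma QQ_base {u0 u1 : ℝ} (h0 : 0 ≤ u0) (h1 : 0 ≤ u1) (h : 0 < u0 + u1) :
    QQ u0 u1 (7 * (u0 + u1)) := by
  have hl0 : 0 ≤ u1 / (u0 + u1) := by positivity
  have hl1 : u1 / (u0 + u1) ≤ 1 := by rw [div_le_one h]; linarith
  have e0 : 1 - u1 / (u0 + u1) = u0 / (u0 + u1) := by field_simp; ring
  obtain ⟨v0, v1, hv, H⟩ := QQ_base1 hl0 hl1
  rw [e0] at hv H
  refine ⟨v0, v1, ?_, fun a b hab => H a b ?_⟩
  · have : u0 / (u0 + u1) * v0 + u1 / (u0 + u1) * v1 = (u0 * v0 + u1 * v1) / (u0 + u1) := by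
      field_simp
    rw [this, div_eq_zero_iff] at hv
    rcases hv with hv | hv
    · exact hv
    · linarith
  · have : u0 / (u0 + u1) * a + u1 / (u0 + u1) * b = (u0 * a + u1 * b) / (u0 + u1) := by
      field_simp
    rw [this, hab]
    field_simp

lemma QQ_rot {u0 u1 c : ℝ} (h : QQ u0 u1 c) : QQ (-u1) (u0 + u1) c := by
  obtain ⟨v0, v1, hv, H⟩ := h
  refine ⟨-(v0 - v1), -v0, by linarith, fun a b hab => ?_⟩
  -- the point `(a, b)` is the image of `(b, b - a)` under the rotation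
  have h1 := MM_rot b (b - a)
  have h2 := H (b - v0) (b - a - v1) (by linarith)
  have e1 : b - (b - a) = a := by ring
  have e2 : -(b - v0 + v0) = -b := by ring
  have e3 : -(b - a - v1 + v1) = -(b - a) := by ring
  rw [e1] at h1
  rw [e2, e3] at h2
  rw [h1, ← h2]
  have h3 := MM_rot (-(b - v0)) (-(b - a - v1))
  have e4 : -(b - v0) - -(b - a - v1) = -(a + -(v0 - v1)) := by ring
  have e5 : -(b - v0) = -(b + -v0) := by ring
  have e6 : - -(b - v0) = b - v0 := by ring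
  have e7 : - -(b - a - v1) = b - a - v1 := by ring
  rw [e4, e6, e7] at h3
  rw [← h3, e5]

/-- Every supporting line of the hexagon `|a|, |b|, |a - b| ≤ 7` has the property. -/
lemma QQ_all (u0 u1 c : ℝ) (hu : u0 ≠ 0 ∨ u1 ≠ 0)
    (hle : ∀ a b : ℝ, |a| ≤ 7 → |b| ≤ 7 → |a - b| ≤ 7 → u0 * a + u1 * b ≤ c)
    (heq : ∃ a b : ℝ, |a| ≤ 7 ∧ |b| ≤ 7 ∧ |a - b| ≤ 7 ∧ u0 * a + u1 * b = c) :
    QQ u0 u1 c := by
  obtain ⟨a, b, ha, hb, hab, hc⟩ := heq
  rw [abs_le] at ha hb hab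
  have hv1 := hle 7 7 (by norm_num) (by norm_num) (by norm_num)
  have hv2 := hle 0 7 (by norm_num) (by norm_num) (by norm_num)
  have hv3 := hle (-7) 0 (by norm_num) (by norm_num) (by norm_num)
  have hv4 := hle (-7) (-7) (by norm_num) (by norm_num) (by norm_num)
  have hv5 := hle 0 (-7) (by norm_num) (by norm_num) (by norm_num)
  have hv6 := hle 7 0 (by norm_num) (by norm_num) (by norm_num)
  rcases le_total 0 u0 with p0 | p0 <;> rcases le_total 0 u1 with p1 | p1
  · -- both nonnegative, vertex (7, 7)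
    have hpos : 0 < u0 + u1 := by
      rcases hu with h | h
      · have := lt_of_le_of_ne p0 (Ne.symm h); linarith
      · have := lt_of_le_of_ne p1 (Ne.symm h); linarith
    have : c = 7 * (u0 + u1) := by nlinarith
    rw [this]
    exact QQ_base p0 p1 hpos
  · rcases le_total 0 (u0 + u1) with p2 | p2
    · -- vertex (7, 0)
      have hpos : 0 < -u1 + (u0 + u1) := by
        rcases hu with h | h
        · have := lt_of_le_of_ne p0 (Ne.symm h); linarith
        · have := lt_of_le_of_ne p1 h; linarith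
      have hc' : c = 7 * (-u1 + (u0 + u1)) := by nlinarith
      have h := QQ_rot (QQ_rot (QQ_rot (QQ_rot (QQ_rot
        (QQ_base (u0 := -u1) (u1 := u0 + u1) (by linarith) (by linarith) hpos)))))
      rw [hc']
      convert h using 1 <;> ring
    · -- vertex (0, -7)
      have hpos : 0 < -(u0 + u1) + u0 := by
        rcases hu with h | h
        · have := lt_of_le_of_ne p0 (Ne.symm h); linarith
        · have := lt_of_le_of_ne p1 h; linarith
      have hc' : c = 7 * (-(u0 + u1) + u0) := by nlinarith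
      have h := QQ_rot (QQ_rot (QQ_rot (QQ_rot
        (QQ_base (u0 := -(u0 + u1)) (u1 := u0) (by linarith) (by linarith) hpos))))
      rw [hc']
      convert h using 1 <;> ring
  · rcases le_total 0 (u0 + u1) with p2 | p2
    · -- vertex (0, 7)
      have hpos : 0 < (u0 + u1) + -u0 := by
        rcases hu with h | h
        · have := lt_of_le_of_ne p0 h; linarith
        · have := lt_of_le_of_ne p1 (Ne.symm h); linarith
      have hc' : c = 7 * ((u0 + u1) + -u0) := by nlinarith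
      have h := QQ_rot
        (QQ_base (u0 := u0 + u1) (u1 := -u0) (by linarith) (by linarith) hpos)
      rw [hc']
      convert h using 1 <;> ring
    · -- vertex (-7, 0)
      have hpos : 0 < u1 + -(u0 + u1) := by
        rcases hu with h | h
        · have := lt_of_le_of_ne p0 h; linarith
        · have := lt_of_le_of_ne p1 (Ne.symm h); linarith
      have hc' : c = 7 * (u1 + -(u0 + u1)) := by nlinarith
      have h := QQ_rot (QQ_rot
        (QQ_base (u0 := u1) (u1 := -(u0 + u1)) (by linarith) (by linarith) hpos))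
      rw [hc']
      convert h using 1 <;> ring
  · -- vertex (-7, -7)
    have hpos : 0 < -u0 + -u1 := by
      rcases hu with h | h
      · have := lt_of_le_of_ne p0 h; linarith
      · have := lt_of_le_of_ne p1 h; linarith
    have hc' : c = 7 * (-u0 + -u1) := by nlinarith
    have h := QQ_rot (QQ_rot (QQ_rot
      (QQ_base (u0 := -u0) (u1 := -u1) (by linarith) (by linarith) hpos)))
    rw [hc']
    convert h using 1 <;> ring

/-- The inner hexagon. -/
def KK : Set (EuclideanSpace ℝ (Fin 2)) := {x | |x 0| ≤ 7 ∧ |x 1| ≤ 7 ∧ |x 0 - x 1| ≤ 7}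

/-- The first outer body. -/
def K1 : Set (EuclideanSpace ℝ (Fin 2)) := {x | MM (x 0) (x 1)}

/-- The second outer body, the reflection of the first. -/
def K2 : Set (EuclideanSpace ℝ (Fin 2)) := {x | MM (-(x 0)) (-(x 1))}

lemma DD_convex {x y x' y' p q : ℝ} (h : DD x y) (h' : DD x' y') (hp : 0 ≤ p) (hq : 0 ≤ q)
    (hpq : p + q = 1) : DD (p * x + q * x') (p * y + q * y') := by
  obtain ⟨h1, h2, h3⟩ := h
  obtain ⟨h1', h2', h3'⟩ := h'
  refine ⟨by positivity, by positivity, fun s hs3 hs6 => ?_⟩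
  have a := mul_le_mul_of_nonneg_left (h3 s hs3 hs6) hp
  have b := mul_le_mul_of_nonneg_left (h3' s hs3 hs6) hq
  have : 36 * s = p * (36 * s) + q * (36 * s) := by rw [← add_mul, hpq, one_mul]
  rw [this]
  linarith

lemma MM_convex {a b a' b' p q : ℝ} (h : MM a b) (h' : MM a' b') (hp : 0 ≤ p) (hq : 0 ≤ q)
    (hpq : p + q = 1) : MM (p * a + q * a') (p * b + q * b') := by
  obtain ⟨h1, h2, h3⟩ := h
  obtain ⟨h1', h2', h3'⟩ := h'
  have hq' : q = 1 - p := by linarith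
  have e1 : 9 + (p * a + q * a') = p * (9 + a) + q * (9 + a') := by rw [hq']; ring
  have e2 : 9 - (p * a + q * a') + (p * b + q * b') = p * (9 - a + b) + q * (9 - a' + b') := by
    rw [hq']; ring
  have e3 : 9 - (p * b + q * b') = p * (9 - b) + q * (9 - b') := by rw [hq']; ring
  unfold MM
  rw [e1, e2, e3]
  exact ⟨DD_convex h1 h1' hp hq hpq, DD_convex h2 h2' hp hq hpq, DD_convex h3 h3' hp hq hpq⟩

lemma convex_K1 : Convex ℝ K1 := by
  intro x hx y hy p q hp hq hpq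
  exact MM_convex hx hy hp hq hpq

lemma convex_K2 : Convex ℝ K2 := by
  intro x hx y hy p q hp hq hpq
  have := MM_convex hx hy hp hq hpq
  show MM (-(p * x 0 + q * y 0)) (-(p * x 1 + q * y 1))
  convert this using 1 <;> ring

lemma convex_KK : Convex ℝ KK := by
  intro x hx y hy p q hp hq hpq
  obtain ⟨h1, h2, h3⟩ := hx
  obtain ⟨h1', h2', h3'⟩ := hy
  rw [abs_le] at h1 h2 h3 h1' h2' h3'
  show |p * x 0 + q * y 0| ≤ 7 ∧ |p * x 1 + q * y 1| ≤ 7 ∧
    |(p * x 0 + q * y 0) - (p * x 1 + q * y 1)| ≤ 7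
  have hq' : q = 1 - p := by linarith
  subst hq'
  refine ⟨?_, ?_, ?_⟩ <;> rw [abs_le] <;> constructor <;> nlinarith

lemma closed_DD (f g : EuclideanSpace ℝ (Fin 2) → ℝ) (hf : Continuous f) (hg : Continuous g) :
    IsClosed {x | DD (f x) (g x)} := by
  have : {x | DD (f x) (g x)} = {x | 0 ≤ f x} ∩ ({x | 0 ≤ g x} ∩
      ⋂ (s : ℝ) (_ : 3 ≤ s) (_ : s ≤ 6), {x | 36 * s ≤ 18 * f x + s ^ 2 * g x}) := by
    ext x
    simp only [DD, Set.mem_ofPred_eq, Set.mem_inter_iff, Set.mem_iInter]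
  rw [this]
  refine (isClosed_le continuous_const hf).inter ((isClosed_le continuous_const hg).inter ?_)
  refine isClosed_iInter fun s => isClosed_iInter fun _ => isClosed_iInter fun _ => ?_
  exact isClosed_le continuous_const (by fun_prop)

lemma closed_K1 : IsClosed K1 := by
  have : K1 = {x | DD (9 + x 0) (9 - x 0 + x 1)} ∩ ({x | DD (9 - x 0 + x 1) (9 - x 1)} ∩
    {x | DD (9 + x 0) (9 - x 1)}) := rfl
  rw [this]
  exact (closed_DD _ _ (by fun_prop) (by fun_prop)).inter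
    ((closed_DD _ _ (by fun_prop) (by fun_prop)).inter (closed_DD _ _ (by fun_prop) (by fun_prop)))

lemma closed_K2 : IsClosed K2 := by
  have : K2 = {x | DD (9 + -x 0) (9 - -x 0 + -x 1)} ∩ ({x | DD (9 - -x 0 + -x 1) (9 - -x 1)} ∩
    {x | DD (9 + -x 0) (9 - -x 1)}) := rfl
  rw [this]
  exact (closed_DD _ _ (by fun_prop) (by fun_prop)).inter
    ((closed_DD _ _ (by fun_prop) (by fun_prop)).inter (closed_DD _ _ (by fun_prop) (by fun_prop)))

lemma closed_KK : IsClosed KK := by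
  have : KK = {x | |x 0| ≤ 7} ∩ ({x | |x 1| ≤ 7} ∩ {x | |x 0 - x 1| ≤ 7}) := rfl
  rw [this]
  exact (isClosed_le (by fun_prop) continuous_const).inter
    ((isClosed_le (by fun_prop) continuous_const).inter
      (isClosed_le (by fun_prop) continuous_const))

lemma bdd_of {S : Set (EuclideanSpace ℝ (Fin 2))} (h : ∀ x ∈ S, |x 0| ≤ 20 ∧ |x 1| ≤ 20) :
    Bornology.IsBounded S := by
  rw [Metric.isBounded_iff_subset_closedBall 0]
  refine ⟨40, fun x hx => ?_⟩
  obtain ⟨h0, h1⟩ := h x hx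
  rw [mem_closedBall_zero_iff, EuclideanSpace.norm_eq, Fin.sum_univ_two]
  rw [Real.sqrt_le_left (by norm_num)]
  rw [Real.norm_eq_abs, Real.norm_eq_abs]
  have := abs_nonneg (x 0)
  have := abs_nonneg (x 1)
  nlinarith

lemma MM_bdd {a b : ℝ} (h : MM a b) : |a| ≤ 20 ∧ |b| ≤ 20 := by
  obtain ⟨⟨h1, h2, -⟩, ⟨-, h3, -⟩, -⟩ := h
  constructor <;> rw [abs_le] <;> constructor <;> linarith

lemma compact_K1 : IsCompact K1 :=
  Metric.isCompact_of_isClosed_isBounded closed_K1 (bdd_of fun _ hx => MM_bdd hx)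

lemma compact_K2 : IsCompact K2 := by
  refine Metric.isCompact_of_isClosed_isBounded closed_K2 (bdd_of fun x hx => ?_)
  have := MM_bdd (show MM (-(x 0)) (-(x 1)) from hx)
  rwa [abs_neg, abs_neg] at this

lemma compact_KK : IsCompact KK := by
  refine Metric.isCompact_of_isClosed_isBounded closed_KK (bdd_of fun x hx => ?_)
  exact ⟨by linarith [hx.1], by linarith [hx.2.1]⟩

/-- An open set containing the hexagon and contained in both outer bodies. -/
def UU : Set (EuclideanSpace ℝ (Fin 2)) :=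
  {x | |x 0| < 15 / 2 ∧ |x 1| < 15 / 2 ∧ |x 0 - x 1| < 15 / 2}

lemma open_UU : IsOpen UU := by
  have : UU = {x | |x 0| < 15 / 2} ∩ ({x | |x 1| < 15 / 2} ∩ {x | |x 0 - x 1| < 15 / 2}) := rfl
  rw [this]
  exact (isOpen_lt (by fun_prop) continuous_const).inter
    ((isOpen_lt (by fun_prop) continuous_const).inter
      (isOpen_lt (by fun_prop) continuous_const))

lemma MM_of {a b : ℝ} (h1 : |a| < 15 / 2) (h2 : |b| < 15 / 2) (h3 : |a - b| < 15 / 2) :
    MM a b := by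
  rw [abs_lt] at h1 h2 h3
  refine ⟨DD_poly ?_ ?_ ?_ ?_ ?_, DD_poly ?_ ?_ ?_ ?_ ?_, DD_poly ?_ ?_ ?_ ?_ ?_⟩ <;> linarith

lemma UU_sub1 : UU ⊆ K1 := fun _ hx => MM_of hx.1 hx.2.1 hx.2.2

lemma UU_sub2 : UU ⊆ K2 := by
  intro x hx
  refine MM_of (by rw [abs_neg]; exact hx.1) (by rw [abs_neg]; exact hx.2.1) ?_
  have : -(x 0) - -(x 1) = -(x 0 - x 1) := by ring
  rw [this, abs_neg]
  exact hx.2.2

lemma KK_sub : KK ⊆ UU := fun x hx =>
  ⟨by linarith [hx.1], by linarith [hx.2.1], by linarith [hx.2.2]⟩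

lemma KK_sub_int : KK ⊆ interior K1 ∩ interior K2 := fun _ hx =>
  ⟨interior_maximal UU_sub1 open_UU (KK_sub hx), interior_maximal UU_sub2 open_UU (KK_sub hx)⟩

lemma zero_mem : (0 : EuclideanSpace ℝ (Fin 2)) ∈ KK := by
  show |(0:ℝ)| ≤ 7 ∧ |(0:ℝ)| ≤ 7 ∧ |(0:ℝ) - 0| ≤ 7
  norm_num

lemma int_KK : (interior KK).Nonempty := by
  refine ⟨0, interior_maximal (s := KK) (t := {x | |x 0| < 3} ∩ {x | |x 1| < 3}) ?_ ?_ ?_⟩
  · rintro x ⟨h0, h1⟩
    simp only [Set.mem_ofPred_eq, abs_lt] at h0 h1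
    refine ⟨?_, ?_, ?_⟩ <;> rw [abs_le] <;> constructor <;> linarith
  · exact (isOpen_lt (by fun_prop) continuous_const).inter
      (isOpen_lt (by fun_prop) continuous_const)
  · constructor
    · show |(0:ℝ)| < 3
      norm_num
    · show |(0:ℝ)| < 3
      norm_num

lemma K1_ne_K2 : K1 ≠ K2 := by
  intro h
  have h1 : (!₂[19 / 2, 19 / 4] : EuclideanSpace ℝ (Fin 2)) ∈ K1 := by
    show MM (19 / 2) (19 / 4)
    refine ⟨DD_poly ?_ ?_ ?_ ?_ ?_, ⟨?_, ?_, fun s hs3 hs6 => ?_⟩, DD_poly ?_ ?_ ?_ ?_ ?_⟩ <;>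
      norm_num
    nlinarith [sq_nonneg (s - 72 / 17)]
  rw [h] at h1
  have h2 : MM (-(19 / 2)) (-(19 / 4)) := h1
  have := h2.1.1
  norm_num at this

/-- The negation of the preceding statement: For n ≥ 2, suppose K, K₁, K₂ are convex bodies in ℝⁿ and K lies in the interiors of both K₁ and K₂. If every hyperplane supporting K cuts K₁ and K₂ in sections of equal (n−1)-dimensional measure, then K₁ = K₂. -/
theorem result :
    ¬ (∀ n : ℕ, 2 ≤ n →
    ∀ K K₁ K₂ : Set (EuclideanSpace ℝ (Fin n)),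
      Convex ℝ K → IsCompact K → (interior K).Nonempty →
      Convex ℝ K₁ → IsCompact K₁ → (interior K₁).Nonempty →
      Convex ℝ K₂ → IsCompact K₂ → (interior K₂).Nonempty →
      K ⊆ interior K₁ ∩ interior K₂ →
      (∀ u : EuclideanSpace ℝ (Fin n), u ≠ 0 → ∀ c : ℝ,
          (∀ x ∈ K, inner ℝ u x ≤ c) → (∃ x ∈ K, inner ℝ u x = c) →
          MeasureTheory.Measure.hausdorffMeasure ((n : ℝ) - 1)
              (K₁ ∩ {x : EuclideanSpace ℝ (Fin n) | inner ℝ u x = c}) =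
            MeasureTheory.Measure.hausdorffMeasure ((n : ℝ) - 1)
              (K₂ ∩ {x : EuclideanSpace ℝ (Fin n) | inner ℝ u x = c})) →
      K₁ = K₂) := by
  intro H
  refine K1_ne_K2 (H 2 le_rfl KK K1 K2 convex_KK compact_KK int_KK convex_K1 compact_K1
    ⟨0, (KK_sub_int zero_mem).1⟩ convex_K2 compact_K2 ⟨0, (KK_sub_int zero_mem).2⟩
    KK_sub_int ?_)
  intro u hu c hle heq
  have hin : ∀ x : EuclideanSpace ℝ (Fin 2), inner ℝ u x = u 0 * x 0 + u 1 * x 1 := by
    intro x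
    rw [PiLp.inner_apply, Fin.sum_univ_two]
    simp only [RCLike.inner_apply, conj_trivial]
    ring
  have hQ : QQ (u 0) (u 1) c := by
    refine QQ_all _ _ _ ?_ ?_ ?_
    · by_contra hcon
      push Not at hcon
      apply hu
      ext i
      fin_cases i
      · exact hcon.1
      · exact hcon.2
    · intro a b ha hb hab
      have := hle !₂[a, b] ⟨ha, hb, hab⟩
      rw [hin] at this
      exact this
    · obtain ⟨x, hx, hxc⟩ := heq
      refine ⟨x 0, x 1, hx.1, hx.2.1, hx.2.2, ?_⟩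
      rw [← hin]
      exact hxc
  obtain ⟨v0, v1, hv, HQ⟩ := hQ
  have hset : K1 ∩ {x : EuclideanSpace ℝ (Fin 2) | inner ℝ u x = c} =
      (IsometryEquiv.addRight (!₂[v0, v1] : EuclideanSpace ℝ (Fin 2))) ⁻¹'
        (K2 ∩ {x : EuclideanSpace ℝ (Fin 2) | inner ℝ u x = c}) := by
    ext x
    have hx : ∀ y : EuclideanSpace ℝ (Fin 2), y = x + !₂[v0, v1] →
        (inner ℝ u y = c ↔ inner ℝ u x = c) := by
      rintro y rfl
      rw [hin, hin]
      have e0 : (x + !₂[v0, v1] : EuclideanSpace ℝ (Fin 2)) 0 = x 0 + v0 := rfl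
      have e1 : (x + !₂[v0, v1] : EuclideanSpace ℝ (Fin 2)) 1 = x 1 + v1 := rfl
      rw [e0, e1]
      constructor <;> intro h <;> linarith
    simp only [Set.mem_inter_iff, Set.mem_ofPred_eq, Set.mem_preimage,
      IsometryEquiv.addRight_apply]
    rw [hx _ rfl]
    constructor
    · rintro ⟨h1, h2⟩
      refine ⟨?_, h2⟩
      have := (HQ (x 0) (x 1) (by rw [← hin]; exact h2)).1 h1
      exact this
    · rintro ⟨h1, h2⟩
      refine ⟨?_, h2⟩
      exact (HQ (x 0) (x 1) (by rw [← hin]; exact h2)).2 h1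
  rw [hset, IsometryEquiv.hausdorffMeasure_preimage]

end Pool.Agent.S08950
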