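import Pool.Statements.S08953
-- import your own Pool.Agent.* helpers here

set_option autoImplicit false
open Pool Pool.MP_cbb19f_gt

namespace Pool.Agent.S08953

section Aux

open Topology Filter Set

abbrev CF (X : Type) [TopologicalSpace X] := {f : X → ℝ // Continuous f}

abbrev CCF (X : Type) [TopologicalSpace X] := {g : {f : X → ℝ // Continuous f} → ℝ // Continuous g}

variable {X : Type} [TopologicalSpace X]

def ev (x : X) : CCF X := ⟨fun g => g.1 x, (continuous_apply x).comp continuous_subtype_val⟩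

structure LSig (N : ℕ → Set (CCF X)) : Prop where
  ex : ∀ Φ : CCF X, ∃ K : Set (CCF X), IsCompact K ∧ Φ ∈ K ∧
    ∀ U, IsOpen U → K ⊆ U → ∃ i, K ⊆ N i ∧ N i ⊆ U

lemma bdd {N : ℕ → Set (CCF X)} (h : LSig N) (y : CF X) (Φ : CCF X) :
    ∃ i b : ℕ, Φ ∈ N i ∧ ∀ Ψ ∈ N i, |Ψ.1 y| ≤ b := by
  obtain ⟨K, hK, hΦ, hU⟩ := h.ex Φ
  have hc : Continuous (fun Ψ : CCF X => Ψ.1 y) := (continuous_apply y).comp continuous_subtype_val
  obtain ⟨C, hC⟩ := hK.exists_bound_of_continuousOn (f := fun Ψ : CCF X => Ψ.1 y) hc.continuousOn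
  obtain ⟨b, hb⟩ := exists_nat_gt C
  obtain ⟨i, hi1, hi2⟩ := hU {Ψ | |Ψ.1 y| < b} (isOpen_lt hc.abs continuous_const)
    (fun Ψ hΨ => lt_of_le_of_lt (hC Ψ hΨ) hb)
  exact ⟨i, b, hi1 hΦ, fun Ψ hΨ => (hi2 hΨ).le⟩

def Yset (N : ℕ → Set (CCF X)) (σ : Finset (ℕ × ℕ)) : Set (CF X) :=
  {y | ∀ p ∈ σ, ∀ Φ ∈ N p.1, |Φ.1 y| ≤ (p.2 : ℝ)}

open Classical in
noncomputable def sg (N : ℕ → Set (CCF X)) (y : CF X) (k : ℕ) : Finset (ℕ × ℕ) :=
  (Finset.range k ×ˢ Finset.range k).filter (fun p => ∀ Φ ∈ N p.1, |Φ.1 y| ≤ (p.2 : ℝ))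

lemma mem_sg {N : ℕ → Set (CCF X)} {y : CF X} {k : ℕ} {p : ℕ × ℕ} :
    p ∈ sg N y k ↔ (p.1 < k ∧ p.2 < k) ∧ ∀ Φ ∈ N p.1, |Φ.1 y| ≤ (p.2 : ℝ) := by
  classical
  simp [sg]

lemma self_mem (N : ℕ → Set (CCF X)) (y : CF X) (k : ℕ) : y ∈ Yset N (sg N y k) := by
  intro p hp Φ hΦ
  exact (mem_sg.1 hp).2 Φ hΦ

lemma Yset_anti (N : ℕ → Set (CCF X)) (y : CF X) {k l : ℕ} (hkl : k ≤ l) :
    Yset N (sg N y l) ⊆ Yset N (sg N y k) := by
  intro z hz p hp Φ hΦ
  apply hz p _ Φ hΦ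
  rw [mem_sg] at hp ⊢
  exact ⟨⟨lt_of_lt_of_le hp.1.1 hkl, lt_of_lt_of_le hp.1.2 hkl⟩, hp.2⟩

lemma seq_bdd {N : ℕ → Set (CCF X)} (h : LSig N) {y : CF X} {u : ℕ → CF X}
    (hu : ∀ k, u k ∈ Yset N (sg N y k)) (Φ : CCF X) :
    ∃ b : ℕ, ∀ᶠ k in atTop, |Φ.1 (u k)| ≤ b := by
  obtain ⟨i, b, h1, h2⟩ := bdd h y Φ
  refine ⟨b, ?_⟩
  filter_upwards [eventually_gt_atTop i, eventually_gt_atTop b] with k hk1 hk2
  exact hu k (i, b) (mem_sg.2 ⟨⟨hk1, hk2⟩, h2⟩) Φ h1

lemma ultra_lim (v : ℕ → ℝ) (b : ℕ) (h : ∀ᶠ k in atTop, |v k| ≤ b) :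
    ∃ t : ℝ, Tendsto v (hyperfilter ℕ : Filter ℕ) (𝓝 t) := by
  have h1 : ∀ᶠ k in (hyperfilter ℕ : Filter ℕ), |v k| ≤ b := Nat.hyperfilter_le_atTop h
  have h2 : ((hyperfilter ℕ).map v : Filter ℝ) ≤ 𝓟 (Icc (-(b : ℝ)) b) := by
    rw [le_principal_iff]
    change ∀ᶠ k in (hyperfilter ℕ : Filter ℕ), v k ∈ Icc (-(b : ℝ)) b
    filter_upwards [h1] with k hk
    exact abs_le.1 hk
  obtain ⟨t, -, ht⟩ := (isCompact_Icc (a := -(b : ℝ)) (b := b)).ultrafilter_le_nhds _ h2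
  exact ⟨t, ht⟩

lemma cap {N : ℕ → Set (CCF X)} (h : LSig N) {y : CF X} {u : ℕ → CF X}
    (hu : ∀ k, u k ∈ Yset N (sg N y k)) :
    ∃ f : X → ℝ, (∀ x, Tendsto (fun k => (u k).1 x) (hyperfilter ℕ : Filter ℕ) (𝓝 (f x))) ∧
      ∀ A : Set X, A.Countable → ∃ g : CF X, ∀ x ∈ A, g.1 x = f x := by
  have h1 : ∀ x : X, ∃ t : ℝ, Tendsto (fun k => (u k).1 x) (hyperfilter ℕ : Filter ℕ) (𝓝 t) := by
    intro x
    obtain ⟨b, hb⟩ := seq_bdd h hu (ev x)
    exact ultra_lim _ b hb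
  choose f hf using h1
  refine ⟨f, hf, ?_⟩
  intro A hA
  rcases A.eq_empty_or_nonempty with rfl | hne
  · exact ⟨y, by simp⟩
  obtain ⟨a, rfl⟩ := hA.exists_eq_range hne
  by_contra hcon
  push Not at hcon
  set Ψ : CF X → ℝ := fun g => ∑' i, (1 / 2 : ℝ) ^ i * min 1 |g.1 (a i) - f (a i)| with hΨ
  have hbound : ∀ (i : ℕ) (t : ℝ), ‖(1 / 2 : ℝ) ^ i * min 1 |t|‖ ≤ (1 / 2 : ℝ) ^ i := by
    intro i t
    rw [norm_mul, Real.norm_of_nonneg (by positivity), Real.norm_of_nonneg (by positivity)]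
    exact mul_le_of_le_one_right (by positivity) (min_le_left _ _)
  have hsum : Summable (fun i : ℕ => (1 / 2 : ℝ) ^ i) := summable_geometric_two
  have hcont : Continuous Ψ := by
    apply continuous_tsum _ hsum
    · intro i g
      exact hbound i _
    · intro i
      have : Continuous (fun g : CF X => g.1 (a i)) := (continuous_apply _).comp continuous_subtype_val
      exact continuous_const.mul (continuous_const.min ((this.sub continuous_const).abs))
  have hsm : ∀ g : CF X, Summable (fun i => (1 / 2 : ℝ) ^ i * min 1 |g.1 (a i) - f (a i)|) := by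
    intro g
    exact Summable.of_norm_bounded hsum (fun i => hbound i _)
  have hpos : ∀ g, 0 < Ψ g := by
    intro g
    obtain ⟨x, ⟨i, rfl⟩, hi⟩ := hcon g
    have hterm : 0 < (1 / 2 : ℝ) ^ i * min 1 |g.1 (a i) - f (a i)| := by
      have : 0 < |g.1 (a i) - f (a i)| := abs_pos.2 (sub_ne_zero.2 hi)
      positivity
    exact (hsm g).tsum_pos (fun j => by positivity) i hterm
  let Φ : CCF X := ⟨fun g => (Ψ g)⁻¹, hcont.inv₀ (fun g => (hpos g).ne')⟩
  obtain ⟨b, hb⟩ := seq_bdd h hu Φ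
  have hb' : ∀ᶠ k in (hyperfilter ℕ : Filter ℕ), |(Ψ (u k))⁻¹| ≤ b := Nat.hyperfilter_le_atTop hb
  have hlim : Tendsto (fun k => Ψ (u k)) (hyperfilter ℕ : Filter ℕ) (𝓝 (∑' _i : ℕ, (0 : ℝ))) := by
    apply tendsto_tsum_of_dominated_convergence hsum
    · intro i
      have h3 := ((hf (a i)).sub_const (f (a i))).abs
      have h4 := (tendsto_const_nhds (x := (1 : ℝ)) (f := (hyperfilter ℕ : Filter ℕ))).min h3
      have h5 := h4.const_mul ((1 / 2 : ℝ) ^ i)
      simpa using h5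
    · exact Eventually.of_forall (fun k i => hbound i _)
  rw [tsum_zero] at hlim
  have hev : ∀ᶠ k in (hyperfilter ℕ : Filter ℕ), Ψ (u k) < 1 / ((b : ℝ) + 1) :=
    (hlim.eventually (gt_mem_nhds (by positivity)))
  obtain ⟨k, hk1, hk2⟩ := (hb'.and hev).exists
  have hp := hpos (u k)
  rw [abs_of_pos (inv_pos.2 hp)] at hk1
  have h6 : (b : ℝ) + 1 < (Ψ (u k))⁻¹ := by
    rw [lt_inv_comm₀ (by positivity) hp]
    simpa using hk2
  linarith


def PW (N : ℕ → Set (CCF X)) (J : Finset ℕ) (F : Finset (CF X × ℚ × ℚ)) (z : X) : Prop :=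
  (∀ i ∈ J, ev z ∈ N i) ∧ ∀ p ∈ F, (p.2.1 : ℝ) < p.1.1 z ∧ p.1.1 z < (p.2.2 : ℝ)

noncomputable def wt [Nonempty X] (N : ℕ → Set (CCF X)) (J : Finset ℕ)
    (F : Finset (CF X × ℚ × ℚ)) : X :=
  Classical.epsilon (PW N J F)

def WW [Nonempty X] (N : ℕ → Set (CCF X)) (B : Set (CF X)) : Set X :=
  {x | ∃ (J : Finset ℕ) (F : Finset (CF X × ℚ × ℚ)), (∀ p ∈ F, p.1 ∈ B) ∧ x = wt N J F}

lemma WW_countable [Nonempty X] (N : ℕ → Set (CCF X)) {B : Set (CF X)} (hB : B.Countable) :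
    (WW N B).Countable := by
  have h1 : (B ×ˢ (univ : Set (ℚ × ℚ))).Countable := hB.prod (to_countable _)
  have h2 := Set.countable_ofPred_finite_subset h1
  have h3 : {F : Finset (CF X × ℚ × ℚ) | ∀ p ∈ F, p.1 ∈ B}.Countable := by
    have h4 : ((fun F : Finset (CF X × ℚ × ℚ) => (F : Set (CF X × ℚ × ℚ))) ⁻¹'
        {t | t.Finite ∧ t ⊆ B ×ˢ (univ : Set (ℚ × ℚ))}).Countable :=
      h2.preimage_of_injOn (Finset.coe_injective.injOn)
    refine h4.mono ?_
    intro F hF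
    refine ⟨F.finite_toSet, ?_⟩
    intro p hp
    exact ⟨hF p hp, mem_univ _⟩
  have h5 : WW N B ⊆ ⋃ J : Finset ℕ, (fun F => wt N J F) ''
      {F : Finset (CF X × ℚ × ℚ) | ∀ p ∈ F, p.1 ∈ B} := by
    rintro x ⟨J, F, hF, rfl⟩
    exact mem_iUnion.2 ⟨J, F, hF, rfl⟩
  exact (countable_iUnion (fun J => h3.image _)).mono h5

lemma WW_mono [Nonempty X] (N : ℕ → Set (CCF X)) {B B' : Set (CF X)} (h : B ⊆ B') :
    WW N B ⊆ WW N B' := by
  rintro x ⟨J, F, hF, rfl⟩
  exact ⟨J, F, fun p hp => h (hF p hp), rfl⟩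

lemma ultra_cluster {Z : Type} [TopologicalSpace Z] {K : Set Z} (hK : IsCompact K)
    (N : ℕ → Set Z) (hN : ∀ U, IsOpen U → K ⊆ U → ∃ i, K ⊆ N i ∧ N i ⊆ U)
    (z : ℕ → Z) (hz : ∀ i, K ⊆ N i → ∀ k, i < k → z k ∈ N i) :
    ∃ Φ ∈ K, Tendsto z (hyperfilter ℕ : Filter ℕ) (𝓝 Φ) := by
  by_contra hcon
  push Not at hcon
  have h1 : ∀ Φ ∈ K, ∃ O : Set Z, IsOpen O ∧ Φ ∈ O ∧ ∀ᶠ k in (hyperfilter ℕ : Filter ℕ), z k ∉ O := by
    intro Φ hΦ
    have h2 := hcon Φ hΦ
    rw [tendsto_nhds] at h2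
    push Not at h2
    obtain ⟨O, hO, hΦO, hn⟩ := h2
    refine ⟨O, hO, hΦO, ?_⟩
    exact (Ultrafilter.compl_mem_iff_notMem.2 hn)
  choose! O hO1 hO2 hO3 using h1
  obtain ⟨t, ht1, ht2⟩ := hK.elim_nhds_subcover O (fun Φ hΦ => (hO1 Φ hΦ).mem_nhds (hO2 Φ hΦ))
  obtain ⟨i, hi1, hi2⟩ := hN (⋃ x ∈ t, O x) (isOpen_biUnion (fun x hx => hO1 x (ht1 x hx))) ht2
  have h3 : ∀ᶠ k in (hyperfilter ℕ : Filter ℕ), z k ∈ ⋃ x ∈ t, O x := by
    have : ∀ᶠ k in atTop, z k ∈ ⋃ x ∈ t, O x := by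
      filter_upwards [eventually_gt_atTop i] with k hk
      exact hi2 (hz i hi1 k hk)
    exact Nat.hyperfilter_le_atTop this
  have h4 : ∀ᶠ k in (hyperfilter ℕ : Filter ℕ), ∀ x ∈ t, z k ∉ O x := by
    rw [Filter.eventually_all_finset]
    intro x hx
    exact hO3 x (ht1 x hx)
  obtain ⟨k, hk1, hk2⟩ := (h3.and h4).exists
  simp only [mem_iUnion] at hk1
  obtain ⟨x, hx, hk⟩ := hk1
  exact hk2 x hx hk

lemma eval_pt (z : ℕ → X) (Φ : CCF X)
    (hΦ : Tendsto (fun k => ev (z k)) (hyperfilter ℕ : Filter ℕ) (𝓝 Φ)) :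
    ∃ y : X, ∀ g : CF X, Φ.1 g = g.1 y := by
  have hlim : ∀ g : CF X, Tendsto (fun k => g.1 (z k)) (hyperfilter ℕ : Filter ℕ) (𝓝 (Φ.1 g)) := by
    intro g
    have hc : Continuous (fun Ψ : CCF X => Ψ.1 g) := (continuous_apply g).comp continuous_subtype_val
    exact (hc.tendsto Φ).comp hΦ
  by_contra hcon
  push Not at hcon
  choose g hg using hcon
  let o : CF X := ⟨fun _ => 0, continuous_const⟩
  have ho : Φ.1 o = 0 := by
    have h1 := hlim o
    exact tendsto_nhds_unique h1 tendsto_const_nhds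
  have h2 : {f : CF X | |Φ.1 f| < 1} ∈ 𝓝 o := by
    apply (isOpen_lt Φ.2.abs continuous_const).mem_nhds
    simp [ho]
  rw [nhds_subtype_eq_comap] at h2
  obtain ⟨V, hV1, hV2⟩ := Filter.mem_comap.1 h2
  rw [nhds_pi, Filter.mem_pi] at hV1
  obtain ⟨I, hI, t, ht1, ht2⟩ := hV1
  let G : CF X := ⟨fun x => ∏ y ∈ hI.toFinset, (1 - ((g y).1 x - Φ.1 (g y)) / ((g y).1 y - Φ.1 (g y))), by
    apply continuous_finsetProd
    intro y hy
    exact continuous_const.sub (((g y).2.sub continuous_const).div_const _)⟩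
  have hG0 : ∀ y ∈ I, G.1 y = 0 := by
    intro y hy
    apply Finset.prod_eq_zero (hI.mem_toFinset.2 hy)
    rw [div_self (sub_ne_zero.2 (Ne.symm (hg y))), sub_self]
  have hG1 : G ∈ {f : CF X | |Φ.1 f| < 1} := by
    apply hV2
    apply ht2
    intro y hy
    have : G.1 y = o.1 y := hG0 y hy
    change G.1 y ∈ t y
    rw [this]
    exact mem_of_mem_nhds (ht1 y)
  have hG2 : Φ.1 G = 1 := by
    have h3 : Tendsto (fun k => G.1 (z k)) (hyperfilter ℕ : Filter ℕ)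
        (𝓝 (∏ y ∈ hI.toFinset, (1 - (Φ.1 (g y) - Φ.1 (g y)) / ((g y).1 y - Φ.1 (g y))))) := by
      apply tendsto_finsetProd
      intro y hy
      exact tendsto_const_nhds.sub (((hlim (g y)).sub_const _).div_const _)
    simp only [sub_self, zero_div, sub_zero, Finset.prod_const_one] at h3
    exact tendsto_nhds_unique (hlim G) h3
  simp only [Set.mem_ofPred_eq] at hG1
  rw [hG2] at hG1
  simp at hG1

lemma rat_box (t ε : ℝ) (hε : 0 < ε) : ∃ q r : ℚ, (q : ℝ) < t ∧ t < r ∧ (r : ℝ) - q < ε := by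
  obtain ⟨q, hq1, hq2⟩ := exists_rat_btwn (show t - ε / 2 < t by linarith)
  obtain ⟨r, hr1, hr2⟩ := exists_rat_btwn (show t < t + ε / 2 by linarith)
  exact ⟨q, r, hq2, hr1, by linarith⟩

lemma retr [CompletelyRegularSpace X] [Nonempty X] {N : ℕ → Set (CCF X)} (h : LSig N)
    {B : Set (CF X)} (hB : B.Countable) (x : X) :
    ∃ y ∈ closure (WW N B), ∀ g ∈ B, g.1 y = g.1 x := by
  classical
  rcases B.eq_empty_or_nonempty with rfl | hne
  · refine ⟨wt N ∅ ∅, subset_closure ⟨∅, ∅, by simp, rfl⟩, by simp⟩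
  obtain ⟨g, rfl⟩ := hB.exists_eq_range hne
  obtain ⟨K, hK, hxK, hU⟩ := h.ex (ev x)
  have hb : ∀ (j k : ℕ), ∃ p : ℚ × ℚ, (p.1 : ℝ) < (g j).1 x ∧ (g j).1 x < p.2 ∧
      (p.2 : ℝ) - p.1 < 1 / ((k : ℝ) + 1) := by
    intro j k
    obtain ⟨q, r, h1, h2, h3⟩ := rat_box ((g j).1 x) (1 / ((k : ℝ) + 1)) (by positivity)
    exact ⟨(q, r), h1, h2, h3⟩
  choose bx hb1 hb2 hb3 using hb
  let J : ℕ → Finset ℕ := fun k => (Finset.range k).filter (fun i => K ⊆ N i)
  let F : ℕ → Finset (CF X × ℚ × ℚ) := fun k => (Finset.range k).image (fun j => (g j, bx j k))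
  have hP : ∀ k, PW N (J k) (F k) x := by
    intro k
    constructor
    · intro i hi
      exact (Finset.mem_filter.1 hi).2 hxK
    · intro p hp
      obtain ⟨j, -, rfl⟩ := Finset.mem_image.1 hp
      exact ⟨hb1 j k, hb2 j k⟩
  let z : ℕ → X := fun k => wt N (J k) (F k)
  have hz : ∀ k, PW N (J k) (F k) (z k) := fun k => Classical.epsilon_spec (p := PW N (J k) (F k)) ⟨x, hP k⟩
  have hzW : ∀ k, z k ∈ WW N (range g) := by
    intro k
    refine ⟨J k, F k, ?_, rfl⟩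
    intro p hp
    obtain ⟨j, -, rfl⟩ := Finset.mem_image.1 hp
    exact ⟨j, rfl⟩
  obtain ⟨Φ, hΦK, hΦ⟩ := ultra_cluster hK N hU (fun k => ev (z k)) (by
    intro i hi k hk
    exact (hz k).1 i (Finset.mem_filter.2 ⟨Finset.mem_range.2 hk, hi⟩))
  obtain ⟨y, hy⟩ := eval_pt z Φ hΦ
  have hlim : ∀ f : CF X, Tendsto (fun k => f.1 (z k)) (hyperfilter ℕ : Filter ℕ) (𝓝 (f.1 y)) := by
    intro f
    have hc : Continuous (fun Ψ : CCF X => Ψ.1 f) := (continuous_apply f).comp continuous_subtype_val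
    have := (hc.tendsto Φ).comp hΦ
    rw [hy f] at this
    exact this
  refine ⟨y, ?_, ?_⟩
  · by_contra hnot
    obtain ⟨f, hf, hf0, hf1⟩ := CompletelyRegularSpace.completely_regular y (closure (WW N (range g)))
      isClosed_closure hnot
    have h1 := hlim ⟨fun z => (f z : ℝ), continuous_subtype_val.comp hf⟩
    have h2 : ∀ k, ((f (z k) : unitInterval) : ℝ) = 1 := by
      intro k
      have := hf1 (subset_closure (hzW k))
      rw [this]
      simp
    simp only [h2, hf0] at h1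
    have := tendsto_nhds_unique h1 tendsto_const_nhds
    simp at this
  · rintro _ ⟨j, rfl⟩
    have h1 := hlim (g j)
    have h2 : Tendsto (fun k => (g j).1 (z k)) atTop (𝓝 ((g j).1 x)) := by
      rw [tendsto_iff_norm_sub_tendsto_zero]
      have h3 : Tendsto (fun k : ℕ => 1 / ((k : ℝ) + 1)) atTop (𝓝 0) :=
        tendsto_one_div_add_atTop_nhds_zero_nat
      apply squeeze_zero' (Eventually.of_forall (fun k => norm_nonneg _)) _ h3
      filter_upwards [eventually_gt_atTop j] with k hk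
      have h4 := (hz k).2 (g j, bx j k) (Finset.mem_image.2 ⟨j, Finset.mem_range.2 hk, rfl⟩)
      rw [Real.norm_eq_abs, abs_le]
      have h5 := hb1 j k
      have h6 := hb2 j k
      have h7 := hb3 j k
      simp only at h4
      constructor <;> linarith [h4.1, h4.2]
    exact tendsto_nhds_unique h1 (h2.mono_left Nat.hyperfilter_le_atTop)

lemma greedy {I : Type} [LinearOrder I] [WellFoundedLT I] (G : I → Set I)
    (hG : ∀ α, (G α).Finite) (hlt : ∀ α, ∀ β ∈ G α, β < α) :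
    ∃ c : I → ℕ, ∀ α, ∀ β ∈ G α, c β ≠ c α := by
  let step : (α : I) → ((β : I) → β < α → ℕ) → ℕ := fun α c' =>
    sInf {n | ∀ (β : I) (hβ : β < α), β ∈ G α → c' β hβ ≠ n}
  let c : I → ℕ := (wellFounded_lt (α := I)).fix step
  have hc : ∀ α, c α = sInf {n | ∀ (β : I), β < α → β ∈ G α → c β ≠ n} := by
    intro α
    have := WellFounded.fix_eq (wellFounded_lt (α := I)) step α
    exact this
  refine ⟨c, ?_⟩
  intro α β hβ
  have hne : {n | ∀ (β : I), β < α → β ∈ G α → c β ≠ n}.Nonempty := by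
    obtain ⟨n, hn⟩ := ((hG α).image c).infinite_compl.nonempty
    exact ⟨n, fun β _ hβ h => hn ⟨β, hβ, h⟩⟩
  have := Nat.sInf_mem hne
  rw [← hc α] at this
  exact this β (hlt α β hβ) hβ

lemma exists_omega1 : ∃ (I : Type) (_ : LinearOrder I) (_ : WellFoundedLT I),
    (∀ i : I, (Iio i).Countable) ∧ Uncountable I := by
  refine ⟨(Cardinal.aleph 1).ord.ToType, inferInstance, inferInstance, ?_, ?_⟩
  · intro i
    have h1 := Cardinal.mk_Iio_toType_ord_lt i
    have h2 : Cardinal.mk (Iio i) ≤ Cardinal.aleph0 := by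
      rw [← Order.lt_succ_iff, Cardinal.succ_aleph0]
      exact h1
    exact Cardinal.le_aleph0_iff_set_countable.1 h2
  · rw [← Cardinal.aleph0_lt_mk_iff, Cardinal.mk_toType, Cardinal.card_ord]
    exact Cardinal.aleph0_lt_aleph_one

lemma exists_fiber {I : Type} (S : Set I) (hS : ¬ S.Countable) {T : Type} [Countable T] (σ : I → T) :
    ∃ t, ¬ {α | α ∈ S ∧ σ α = t}.Countable := by
  by_contra hcon
  push Not at hcon
  apply hS
  refine (countable_iUnion hcon).mono ?_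
  intro α hα
  exact mem_iUnion.2 ⟨σ α, hα, rfl⟩

def Bs {I : Type} [LinearOrder I] (h : I → CF X) (α : I) : Set (CF X) := {g | ∃ β, ∃ _ : β < α, g = h β}

def As [Nonempty X] {I : Type} [LinearOrder I] (N : ℕ → Set (CCF X)) (x : I → X) (h : I → CF X)
    (α : I) : Set X := WW N (Bs h α) ∪ {z | ∃ β, ∃ _ : β < α, z = x β}

lemma Bs_countable {I : Type} [LinearOrder I] (hI : ∀ i : I, (Iio i).Countable) (h : I → CF X)
    (α : I) : (Bs h α).Countable := by
  have : Bs h α = h '' (Iio α) := by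
    ext g
    constructor
    · rintro ⟨β, hβ, rfl⟩
      exact ⟨β, hβ, rfl⟩
    · rintro ⟨β, hβ, rfl⟩
      exact ⟨β, hβ, rfl⟩
  rw [this]
  exact (hI α).image h

lemma As_countable [Nonempty X] {I : Type} [LinearOrder I] (hI : ∀ i : I, (Iio i).Countable)
    (N : ℕ → Set (CCF X)) (x : I → X) (h : I → CF X) (α : I) : (As N x h α).Countable := by
  apply (WW_countable N (Bs_countable hI h α)).union
  have : {z | ∃ β, ∃ _ : β < α, z = x β} = x '' (Iio α) := by
    ext g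
    constructor
    · rintro ⟨β, hβ, rfl⟩
      exact ⟨β, hβ, rfl⟩
    · rintro ⟨β, hβ, rfl⟩
      exact ⟨β, hβ, rfl⟩
  rw [this]
  exact (hI α).image x

lemma exists_seq [T35Space X] [Nonempty X] (N : ℕ → Set (CCF X))
    (hns : ∀ A : Set X, A.Countable → ∃ x, x ∉ closure A)
    {I : Type} [LinearOrder I] [WellFoundedLT I] (hI : ∀ i : I, (Iio i).Countable) :
    ∃ (x : I → X) (h : I → CF X), ∀ α, (∀ a ∈ As N x h α, (h α).1 a = 0) ∧ (h α).1 (x α) = 1 := by
  have hc : ∀ A : Set X, ∃ p : X × CF X, A.Countable → (∀ a ∈ A, p.2.1 a = 0) ∧ p.2.1 p.1 = 1 := by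
    intro A
    by_cases hA : A.Countable
    · obtain ⟨x, hx⟩ := hns A hA
      obtain ⟨f, hf, hf0, hf1⟩ := CompletelyRegularSpace.completely_regular x (closure A)
        isClosed_closure hx
      refine ⟨(x, ⟨fun z => 1 - (f z : ℝ), continuous_const.sub (continuous_subtype_val.comp hf)⟩), ?_⟩
      intro _
      constructor
      · intro a ha
        have := hf1 (subset_closure ha)
        simp [this]
      · simp [hf0]
    · exact ⟨(Classical.arbitrary X, ⟨fun _ => 0, continuous_const⟩), fun h => absurd h hA⟩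
  choose c hc using hc
  let step : (α : I) → ((β : I) → β < α → X × CF X) → X × CF X := fun α D' =>
    c (WW N {g | ∃ β, ∃ hβ : β < α, g = (D' β hβ).2} ∪ {z | ∃ β, ∃ hβ : β < α, z = (D' β hβ).1})
  let D : I → X × CF X := (wellFounded_lt (α := I)).fix step
  have hD : ∀ α, D α = c (As N (fun β => (D β).1) (fun β => (D β).2) α) := by
    intro α
    have := WellFounded.fix_eq (wellFounded_lt (α := I)) step α
    exact this
  refine ⟨fun β => (D β).1, fun β => (D β).2, ?_⟩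
  intro α
  have h1 := hc _ (As_countable hI N (fun β => (D β).1) (fun β => (D β).2) α)
  rw [← hD α] at h1
  exact h1

lemma key [T35Space X] [Nonempty X] {N : ℕ → Set (CCF X)} (hN : LSig N)
    {I : Type} [LinearOrder I] [WellFoundedLT I] (hI : ∀ i : I, (Iio i).Countable)
    (x : I → X) (h : I → CF X) (h0 : ∀ α, ∀ a ∈ As N x h α, (h α).1 a = 0)
    (u : ℕ → I) (hu : Function.Injective u) (f : X → ℝ)
    (hf : ∀ z, Tendsto (fun k => (h (u k)).1 z) (hyperfilter ℕ : Filter ℕ) (𝓝 (f z)))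
    (hcap : ∀ A : Set X, A.Countable → ∃ g : CF X, ∀ z ∈ A, g.1 z = f z) :
    ∀ γ, ∀ a ∈ As N x h γ, f a = 0 := by
  intro γ
  induction γ using WellFoundedLT.induction with
  | ind γ ih =>
  intro a ha
  by_contra hfa
  have key : (∀ β, (h β).1 a = 0) ∨ ∃ β, β < γ ∧ ∀ β', β < β' → (h β').1 a = 0 := by
    rcases ha with ⟨J, F, hF, haw⟩ | ⟨δ, hδ, hax⟩
    · rcases F.eq_empty_or_nonempty with rfl | hFne
      · left
        intro β
        apply h0 β a
        left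
        exact ⟨J, ∅, by simp, haw⟩
      · right
        have : Nonempty I := ⟨γ⟩
        have hF' : ∀ p ∈ F, ∃ β, β < γ ∧ p.1 = h β := by
          intro p hp
          obtain ⟨β, hβ, e⟩ := hF p hp
          exact ⟨β, hβ, e⟩
        choose! b hb1 hb2 using hF'
        obtain ⟨p0, hp0, hmax⟩ := F.exists_max_image b hFne
        refine ⟨b p0, hb1 p0 hp0, ?_⟩
        intro β' hβ'
        apply h0 β' a
        left
        exact ⟨J, F, fun p hp => ⟨b p, lt_of_le_of_lt (hmax p hp) hβ', hb2 p hp⟩, haw⟩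
    · right
      refine ⟨δ, hδ, ?_⟩
      intro β' hβ'
      apply h0 β' a
      right
      exact ⟨δ, hβ', hax⟩
  rcases key with key | ⟨β, hβγ, key⟩
  · have h1 := hf a
    simp only [key] at h1
    exact hfa (tendsto_nhds_unique h1 tendsto_const_nhds)
  · have h1 : ∀ᶠ k in (hyperfilter ℕ : Filter ℕ), (h (u k)).1 a ≠ 0 :=
      (hf a).eventually_ne hfa
    have h2 : ∀ᶠ k in (hyperfilter ℕ : Filter ℕ), u k ≠ β := by
      have h3 : {k | u k = β}.Finite := by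
        apply Set.Subsingleton.finite
        intro k hk l hl
        exact hu (hk.trans hl.symm)
      have h4 : {k | u k = β}ᶜ ∈ (hyperfilter ℕ : Filter ℕ) :=
        compl_mem_hyperfilter_of_finite h3
      exact h4
    have h3 : ∀ᶠ k in (hyperfilter ℕ : Filter ℕ), u k < β := by
      filter_upwards [h1, h2] with k hk1 hk2
      rcases lt_trichotomy (u k) β with hlt | heq | hgt
      · exact hlt
      · exact absurd heq hk2
      · exact absurd (key _ hgt) hk1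
    obtain ⟨y, hy1, hy2⟩ := retr hN (Bs_countable hI h β) a
    have h4 : f a = f y := by
      apply tendsto_nhds_unique_of_eventuallyEq (hf a) (hf y)
      filter_upwards [h3] with k hk
      exact (hy2 (h (u k)) ⟨u k, hk, rfl⟩).symm
    obtain ⟨g, hg⟩ := hcap (insert y (As N x h β)) ((As_countable hI N x h β).insert y)
    have h5 : closure (As N x h β) ⊆ {z | g.1 z = 0} := by
      apply closure_minimal _ (isClosed_eq g.2 continuous_const)
      intro z hz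
      change g.1 z = 0
      rw [hg z (mem_insert_of_mem _ hz)]
      exact ih β hβγ z hz
    have h6 : g.1 y = 0 := h5 (closure_mono subset_union_left hy1)
    rw [hg y (mem_insert _ _)] at h6
    exact hfa (h4.trans h6)

lemma pick_seq {I : Type} [Nonempty I] (S : ℕ → Set I) (hS : ∀ k, (S k).Infinite)
    (hanti : ∀ k l, k ≤ l → S l ⊆ S k) :
    ∃ u : ℕ → I, Function.Injective u ∧ ∀ k, u k ∈ S k := by
  classical
  obtain ⟨v, hv1, hv2⟩ := exists_seq_of_forall_finset_exists (α := ℕ × I)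
    (fun p => p.2 ∈ S p.1) (fun p q => p.1 < q.1 ∧ p.2 ≠ q.2) (by
      intro s hs
      obtain ⟨β, hβ1, hβ2⟩ := (hS (s.sup Prod.fst + 1)).exists_notMem_finset (s.image Prod.snd)
      refine ⟨(s.sup Prod.fst + 1, β), hβ1, ?_⟩
      intro p hp
      refine ⟨Nat.lt_succ_of_le (Finset.le_sup (f := Prod.fst) hp), ?_⟩
      intro heq
      exact hβ2 (Finset.mem_image.2 ⟨p, hp, heq⟩))
  have hmono : StrictMono (fun n => (v n).1) := strictMono_nat_of_lt_succ (fun n => (hv2 n (n+1) (Nat.lt_succ_self n)).1)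
  refine ⟨fun n => (v n).2, ?_, ?_⟩
  · intro m n hmn
    by_contra hne
    rcases lt_or_gt_of_ne hne with h | h
    · exact (hv2 m n h).2 hmn
    · exact (hv2 n m h).2 hmn.symm
  · intro k
    exact hanti k _ (hmono.id_le k) (hv1 k)

lemma not_sep [T35Space X] [Nonempty X] {N : ℕ → Set (CCF X)} (hN : LSig N)
    (hns : ∀ A : Set X, A.Countable → ∃ x, x ∉ closure A) :
    ∃ D : Set X, DiscreteTopology ↥D ∧ ¬ D.Countable := by
  obtain ⟨I, _, _, hI, hunc⟩ := exists_omega1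
  have : Nonempty I := inferInstance
  obtain ⟨x, h, hxh⟩ := exists_seq N hns hI
  have h0 : ∀ α, ∀ a ∈ As N x h α, (h α).1 a = 0 := fun α => (hxh α).1
  have h1 : ∀ α, (h α).1 (x α) = 1 := fun α => (hxh α).2
  have hxm : ∀ α β, α < β → x α ∈ As N x h β := fun α β hαβ => Or.inr ⟨α, hαβ, rfl⟩
  have hnext : ∀ α : I, ∃ γ, α < γ := by
    intro α
    by_contra hcon
    push Not at hcon
    have : (univ : Set I) ⊆ insert α (Iio α) := by
      intro γ _
      rcases (hcon γ).lt_or_eq with h | h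
      · exact Or.inr h
      · exact Or.inl h
    exact not_countable_univ (((hI α).insert α).mono this)
  have hfin : ∀ α, ∃ k, {β | h β ∈ Yset N (sg N (h α) k) ∧ 1 / 2 ≤ |(h β).1 (x α)|}.Finite := by
    intro α
    by_contra hcon
    push Not at hcon
    obtain ⟨u, hu1, hu2⟩ := pick_seq
      (fun k => {β | h β ∈ Yset N (sg N (h α) k) ∧ 1 / 2 ≤ |(h β).1 (x α)|}) hcon (by
        intro k l hkl β hβ
        exact ⟨Yset_anti N (h α) hkl hβ.1, hβ.2⟩)
    obtain ⟨f, hf, hcap⟩ := cap hN (y := h α) (u := fun k => h (u k)) (fun k => (hu2 k).1)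
    obtain ⟨γ, hγ⟩ := hnext α
    have h2 := key hN hI x h h0 u hu1 f hf hcap γ (x α) (hxm α γ hγ)
    have h3 : 1 / 2 ≤ |f (x α)| :=
      ge_of_tendsto (hf (x α)).abs (Eventually.of_forall (fun k => (hu2 k).2))
    rw [h2, abs_zero] at h3
    norm_num at h3
  choose kk hkk using hfin
  obtain ⟨σ0, hσ0⟩ := exists_fiber (univ : Set I) not_countable_univ (fun α => sg N (h α) (kk α))
  let S0 : Set I := {α | α ∈ (univ : Set I) ∧ sg N (h α) (kk α) = σ0}
  let G : I → Set I := fun α => {β | α ∈ S0 ∧ β ∈ S0 ∧ β < α ∧ 1 / 2 ≤ |(h β).1 (x α)|}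
  have hG : ∀ α, (G α).Finite := by
    intro α
    refine (hkk α).subset ?_
    rintro β ⟨hα, hβ, -, hge⟩
    refine ⟨?_, hge⟩
    have h2 := self_mem N (h β) (kk β)
    have e1 : sg N (h β) (kk β) = σ0 := hβ.2
    have e2 : sg N (h α) (kk α) = σ0 := hα.2
    rw [e1, ← e2] at h2
    exact h2
  obtain ⟨c, hc⟩ := greedy G hG (fun α β hβ => hβ.2.2.1)
  obtain ⟨n, hn⟩ := exists_fiber S0 hσ0 c
  set S : Set I := {α | α ∈ S0 ∧ c α = n} with hS
  have hsmall : ∀ α ∈ S, ∀ β ∈ S, α ≠ β → |(h β).1 (x α)| < 1 / 2 := by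
    intro α hα β hβ hne
    rcases lt_or_gt_of_ne hne with hlt | hgt
    · rw [h0 β (x α) (hxm α β hlt), abs_zero]
      norm_num
    · by_contra hcon
      push Not at hcon
      exact hc α β ⟨hα.1, hβ.1, hgt, hcon⟩ (hβ.2.trans hα.2.symm)
  have hinj : InjOn x S := by
    intro α hα β hβ heq
    by_contra hne
    have h2 := hsmall α hα β hβ hne
    rw [heq, h1 β] at h2
    norm_num at h2
  refine ⟨x '' S, ?_, ?_⟩
  · rw [discreteTopology_iff_isOpen_singleton]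
    rintro ⟨_, α, hα, rfl⟩
    have hop : IsOpen {z : ↥(x '' S) | 1 / 2 < (h α).1 z.1} :=
      isOpen_lt continuous_const ((h α).2.comp continuous_subtype_val)
    convert hop using 1
    ext ⟨z, β, hβ, rfl⟩
    constructor
    · intro e
      have e' : x β = x α := congrArg Subtype.val e
      change 1 / 2 < (h α).1 (x β)
      rw [e', h1 α]
      norm_num
    · intro hlt
      change 1 / 2 < (h α).1 (x β) at hlt
      by_contra hne
      have hne' : β ≠ α := by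
        rintro rfl
        exact hne rfl
      have h2 := hsmall β hβ α hα hne'
      have h3 := le_abs_self ((h α).1 (x β))
      linarith
  · intro hcount
    exact hn (Set.countable_of_injective_of_countable_image hinj hcount)

lemma net_of_sep [T35Space X] {N : ℕ → Set (CCF X)} (hN : LSig N) (a : ℕ → X) (ha : DenseRange a) :
    ∃ 𝒩 : Set (Set X), 𝒩.Countable ∧
      ∀ (x : X) (U : Set X), IsOpen U → x ∈ U → ∃ M ∈ 𝒩, x ∈ M ∧ M ⊆ U := by
  classical
  let Box : Finset (ℕ × ℚ × ℚ) → Set (CF X) := fun τ =>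
    {g | ∀ p ∈ τ, (p.2.1 : ℝ) < g.1 (a p.1) ∧ g.1 (a p.1) < (p.2.2 : ℝ)}
  let M : Finset (ℕ × ℕ) × Finset (ℕ × ℚ × ℚ) → Set X := fun q =>
    {z | ∀ g ∈ Yset N q.1 ∩ Box q.2, 1 / 2 < g.1 z}
  refine ⟨range M, countable_range M, ?_⟩
  intro x U hU hxU
  obtain ⟨f0, hf0, hf00, hf01⟩ := CompletelyRegularSpace.completely_regular x Uᶜ
    hU.isClosed_compl (by simpa using hxU)
  let g : CF X := ⟨fun z => 1 - (f0 z : ℝ), continuous_const.sub (continuous_subtype_val.comp hf0)⟩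
  have hgx : g.1 x = 1 := by simp [g, hf00]
  have hgU : ∀ z, z ∉ U → g.1 z = 0 := by
    intro z hz
    have := hf01 (show z ∈ Uᶜ from hz)
    simp [g, this]
  have hb : ∀ (j k : ℕ), ∃ p : ℚ × ℚ, (p.1 : ℝ) < g.1 (a j) ∧ g.1 (a j) < p.2 ∧
      (p.2 : ℝ) - p.1 < 1 / ((k : ℝ) + 1) := by
    intro j k
    obtain ⟨q, r, h1, h2, h3⟩ := rat_box (g.1 (a j)) (1 / ((k : ℝ) + 1)) (by positivity)
    exact ⟨(q, r), h1, h2, h3⟩
  choose bx hb1 hb2 hb3 using hb
  let τ : ℕ → Finset (ℕ × ℚ × ℚ) := fun k => (Finset.range k).image (fun j => (j, bx j k))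
  by_contra hcon
  have hex : ∀ k, ∃ v : CF X, v ∈ Yset N (sg N g k) ∧ v ∈ Box (τ k) ∧ v.1 x ≤ 1 / 2 := by
    intro k
    by_contra hk
    push Not at hk
    apply hcon
    refine ⟨M (sg N g k, τ k), ⟨_, rfl⟩, ?_, ?_⟩
    · intro v hv
      exact hk v hv.1 hv.2
    · intro z hz
      by_contra hzU
      have hgb : g ∈ Box (τ k) := by
        intro p hp
        obtain ⟨j, -, rfl⟩ := Finset.mem_image.1 hp
        exact ⟨hb1 j k, hb2 j k⟩
      have h2 := hz g ⟨self_mem N g k, hgb⟩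
      rw [hgU z hzU] at h2
      norm_num at h2
  choose v hv1 hv2 hv3 using hex
  obtain ⟨f, hf, hcap⟩ := cap hN hv1
  have hfx : f x ≤ 1 / 2 := le_of_tendsto (hf x) (Eventually.of_forall hv3)
  have hfa : ∀ j, f (a j) = g.1 (a j) := by
    intro j
    have h2 : Tendsto (fun k => (v k).1 (a j)) atTop (𝓝 (g.1 (a j))) := by
      rw [tendsto_iff_norm_sub_tendsto_zero]
      have h3 : Tendsto (fun k : ℕ => 1 / ((k : ℝ) + 1)) atTop (𝓝 0) :=
        tendsto_one_div_add_atTop_nhds_zero_nat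
      apply squeeze_zero' (Eventually.of_forall (fun k => norm_nonneg _)) _ h3
      filter_upwards [eventually_gt_atTop j] with k hk
      have h4 := hv2 k (j, bx j k) (Finset.mem_image.2 ⟨j, Finset.mem_range.2 hk, rfl⟩)
      rw [Real.norm_eq_abs, abs_le]
      have h5 := hb1 j k
      have h6 := hb2 j k
      have h7 := hb3 j k
      simp only at h4
      constructor <;> linarith [h4.1, h4.2]
    exact tendsto_nhds_unique (hf (a j)) (h2.mono_left Nat.hyperfilter_le_atTop)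
  obtain ⟨g', hg'⟩ := hcap (insert x (range a)) ((countable_range a).insert x)
  have heq : g'.1 = g.1 := by
    apply ha.equalizer g'.2 g.2
    funext j
    simp only [Function.comp]
    rw [hg' (a j) (mem_insert_of_mem _ ⟨j, rfl⟩), hfa j]
  have h8 : f x = 1 := by
    rw [← hg' x (mem_insert _ _), heq, hgx]
  rw [h8] at hfx
  norm_num at hfx

theorem main_thm (X : Type) [TopologicalSpace X] [T35Space X]
    (hsp : ∀ D : Set X, DiscreteTopology ↥D → D.Countable)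
    (hLS : ∃ (𝒞 𝒩 : Set (Set {g : {f : X → ℝ // Continuous f} → ℝ // Continuous g})),
          𝒩.Countable ∧ (∀ K ∈ 𝒞, IsCompact K) ∧ ⋃₀ 𝒞 = Set.univ ∧
          ∀ K ∈ 𝒞, ∀ U : Set {g : {f : X → ℝ // Continuous f} → ℝ // Continuous g},
            IsOpen U → K ⊆ U → ∃ N ∈ 𝒩, K ⊆ N ∧ N ⊆ U) :
    ∃ 𝒩 : Set (Set X), 𝒩.Countable ∧
        ∀ (x : X) (U : Set X), IsOpen U → x ∈ U → ∃ N ∈ 𝒩, x ∈ N ∧ N ⊆ U := by
  rcases isEmpty_or_nonempty X with hX | hX
  · exact ⟨∅, countable_empty, fun x => hX.elim x⟩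
  obtain ⟨𝒞, 𝒩, hc, hK, hcov, hnet⟩ := hLS
  have hne : 𝒩.Nonempty := by
    let Φ : CCF X := ⟨fun _ => 0, continuous_const⟩
    have h1 : Φ ∈ ⋃₀ 𝒞 := by rw [hcov]; trivial
    obtain ⟨K, hK1, hK2⟩ := h1
    obtain ⟨M, hM, -, -⟩ := hnet K hK1 univ isOpen_univ (subset_univ _)
    exact ⟨M, hM⟩
  obtain ⟨N, rfl⟩ := hc.exists_eq_range hne
  have hN : LSig N := by
    constructor
    intro Φ
    have h1 : Φ ∈ ⋃₀ 𝒞 := by rw [hcov]; trivial
    obtain ⟨K, hK1, hK2⟩ := h1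
    refine ⟨K, hK K hK1, hK2, ?_⟩
    intro U hU hKU
    obtain ⟨_, ⟨i, rfl⟩, h2, h3⟩ := hnet K hK1 U hU hKU
    exact ⟨i, h2, h3⟩
  by_cases hsep : ∃ A : Set X, A.Countable ∧ closure A = univ
  · obtain ⟨A, hA, hAd⟩ := hsep
    have hAne : A.Nonempty := by
      rw [nonempty_iff_ne_empty]
      rintro rfl
      rw [closure_empty] at hAd
      exact empty_ne_univ hAd
    obtain ⟨a, rfl⟩ := hA.exists_eq_range hAne
    exact net_of_sep hN a (dense_iff_closure_eq.2 hAd)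
  · exfalso
    obtain ⟨D, hD1, hD2⟩ := not_sep hN (by
      intro A hA
      by_contra hcon
      push Not at hcon
      exact hsep ⟨A, hA, eq_univ_of_forall hcon⟩)
    exact hD2 (hsp D hD1)

end Aux

/-- Every Tychonoff space X whose discrete subspaces are all countable, and whose iterated pointwise function space C_p(C_p(X)) is Lindelöf Σ (a compact cover with a countable network modulo it), has a countable network. -/
theorem result :
    ∀ (X : Type) [TopologicalSpace X] [T35Space X],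
      (∀ D : Set X, DiscreteTopology ↥D → D.Countable) →
      (∃ (𝒞 𝒩 : Set (Set {g : {f : X → ℝ // Continuous f} → ℝ // Continuous g})),
          𝒩.Countable ∧ (∀ K ∈ 𝒞, IsCompact K) ∧ ⋃₀ 𝒞 = Set.univ ∧
          ∀ K ∈ 𝒞, ∀ U : Set {g : {f : X → ℝ // Continuous f} → ℝ // Continuous g},
            IsOpen U → K ⊆ U → ∃ N ∈ 𝒩, K ⊆ N ∧ N ⊆ U) →
      ∃ 𝒩 : Set (Set X), 𝒩.Countable ∧
        ∀ (x : X) (U : Set X), IsOpen U → x ∈ U → ∃ N ∈ 𝒩, x ∈ N ∧ N ⊆ U := by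
  intro X _ _ hsp hLS
  exact main_thm X hsp hLS

end Pool.Agent.S08953
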