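import Pool.Statements.S08961
import Pool.Agent.Helper613.VIFinal

set_option autoImplicit false
open Pool Pool.MP_ccba48_gt

namespace Pool.Agent.S08961

/-- For every n ≥ 1, the infimum of the sum of Euclidean norms of finitely many points whose convex hull contains the closed unit ball of ℝⁿ equals 2·n^(3/2). -/
theorem result :
    ∀ n : ℕ, 1 ≤ n →
      IsGLB
        {s : ℝ | ∃ P : Finset (EuclideanSpace ℝ (Fin n)),
            Metric.closedBall (0 : EuclideanSpace ℝ (Fin n)) 1 ⊆ convexHull ℝ (↑P : Set (EuclideanSpace ℝ (Fin n))) ∧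
            s = ∑ p ∈ P, ‖p‖}
        (2 * (n : ℝ) ^ ((3 : ℝ) / 2)) := by
  intro n hn
  have hn0 : 0 < n := hn
  have hn' : (0:ℝ) < n := by exact_mod_cast hn0
  rw [Helper613.VI.pow_three_half n hn0]
  constructor
  · rintro s ⟨P, hP, rfl⟩
    have h1 := Helper613.VI.lower hn0 hP
    have h2 : (2 * (n:ℝ) * Real.sqrt n) ^ 2 = 4 * (n:ℝ) ^ 3 := by
      have := Real.mul_self_sqrt hn'.le
      calc (2 * (n:ℝ) * Real.sqrt n) ^ 2 = 4 * (n:ℝ) ^ 2 * (Real.sqrt n * Real.sqrt n) := by ring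
        _ = 4 * (n:ℝ) ^ 3 := by rw [this]; ring
    rw [← h2] at h1
    exact (le_abs_self _).trans
      (abs_le_of_sq_le_sq h1 (Finset.sum_nonneg fun p _ => norm_nonneg p))
  · intro b hb
    obtain ⟨P, hP, hs⟩ := Helper613.VI.upper hn0
    exact hb ⟨P, hP, hs⟩

end Pool.Agent.S08961
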