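import Pool.Statements.S08968
import Pool.Agent.Helper876.AQ.Final

set_option autoImplicit false
open Pool Pool.MP_ce3260_gt

namespace Pool.Agent.S08968

open MeasureTheory Metric Set in
open Pool.Agent.Helper876.AQ in
/-- The inequality between the affine quermassintegrals fails for a cylinder in dimension 40. -/
lemma key_fail (h : (volume (ball (0 : Em 38) 1)).toReal ^ 39 *
      ((volume (ball (0 : Em 38) 1)).toReal /
        (volume (ball (0 : EuclideanSpace ℝ (Fin 2)) 1)).toReal *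
        (((∫⁻ v in BB 38 2, (pv 38 2 v) ^ (-((38 + 2 : ℕ) : ℝ))) / volume (BB 38 2)).toReal) ^
          (-(1 / ((40 : ℕ) : ℝ)))) ^ 1 ≤
      (volume (ball (0 : Em 38) 1)).toReal ^ 38 *
      ((volume (ball (0 : Em 38) 1)).toReal /
        (volume (ball (0 : EuclideanSpace ℝ (Fin 1)) 1)).toReal *
        (((∫⁻ v in BB 38 1, (pv 38 1 v) ^ (-((38 + 2 : ℕ) : ℝ))) / volume (BB 38 1)).toReal) ^
          (-(1 / ((40 : ℕ) : ℝ)))) ^ 2) : False := by
  have hk40 : volume (ball (0 : Em 38) 1) = ENNReal.ofReal (kap 40) := by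
    have := vol_ball_one (ι := Fin (38 + 2))
    rwa [Fintype.card_fin] at this
  have hk2 : (volume (ball (0 : EuclideanSpace ℝ (Fin 2)) 1)).toReal = Real.pi := by
    rw [vol_ball_one, Fintype.card_fin, ENNReal.toReal_ofReal (kap_pos _).le, kap_two]
  have hk1 : (volume (ball (0 : EuclideanSpace ℝ (Fin 1)) 1)).toReal = 2 := by
    rw [vol_ball_one, Fintype.card_fin, ENNReal.toReal_ofReal (kap_pos _).le, kap_one]
  have hkap := kap_pos 40
  set k : ℝ := kap 40 with hk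
  set X1 := ∫⁻ v in BB 38 1, (pv 38 1 v) ^ (-((38 + 2 : ℕ) : ℝ)) with hX1
  set X2 := ∫⁻ v in BB 38 2, (pv 38 2 v) ^ (-((38 + 2 : ℕ) : ℝ)) with hX2
  have hX1ge : ENNReal.ofReal (kap 39 / (2 ^ 39 * 40)) ≤ X1 := by
    rw [← JJ_one]; exact single_ge
  have hX1top : X1 ≠ ⊤ := single_lt_top
  have hX2le : X2 ≤ ENNReal.ofReal k * ENNReal.ofReal (kap 38 / (Real.pi ^ 37 * 12480)) := by
    rw [← JJ_two, ← hk40]; exact pairs_le
  have hX2ne : X2 ≠ 0 := pairs_pos
  have hX2top : X2 ≠ ⊤ := ne_top_of_le_ne_top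
    (ENNReal.mul_ne_top ENNReal.ofReal_ne_top ENNReal.ofReal_ne_top) hX2le
  rw [vol_BB, vol_BB, hk40, hk2, hk1, ENNReal.toReal_ofReal hkap.le, pow_one, pow_one,
    ENNReal.toReal_div, ENNReal.toReal_div, ENNReal.toReal_pow, ENNReal.toReal_ofReal hkap.le] at h
  -- real numbers
  have x1ge : kap 39 / (2 ^ 39 * 40) ≤ X1.toReal := by
    have h39 := kap_pos 39
    have := ENNReal.toReal_mono hX1top hX1ge
    rwa [ENNReal.toReal_ofReal (by positivity)] at this
  have x2le : X2.toReal ≤ k * (kap 38 / (Real.pi ^ 37 * 12480)) := by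
    have h38 := kap_pos 38
    have := ENNReal.toReal_mono (ENNReal.mul_ne_top ENNReal.ofReal_ne_top ENNReal.ofReal_ne_top) hX2le
    rwa [ENNReal.toReal_mul, ENNReal.toReal_ofReal hkap.le,
      ENNReal.toReal_ofReal (by have := Real.pi_pos; positivity)] at this
  have x2pos : 0 < X2.toReal := ENNReal.toReal_pos hX2ne hX2top
  have h39 := kap_pos 39
  have h38 := kap_pos 38
  have hpi := Real.pi_pos
  have x1pos : 0 < X1.toReal := lt_of_lt_of_le (by positivity) x1ge
  set A1 : ℝ := X1.toReal / k with hA1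
  set A2 : ℝ := X2.toReal / k ^ 2 with hA2
  have hA1pos : 0 < A1 := by positivity
  have hA2pos : 0 < A2 := by positivity
  set a : ℝ := A1 ^ (-(1 / ((40 : ℕ) : ℝ))) with ha
  set b : ℝ := A2 ^ (-(1 / ((40 : ℕ) : ℝ))) with hb
  have hapos : 0 < a := Real.rpow_pos_of_pos hA1pos _
  have hbpos : 0 < b := Real.rpow_pos_of_pos hA2pos _
  have ha40 : a ^ 40 = A1⁻¹ := by
    rw [ha, ← Real.rpow_natCast, ← Real.rpow_mul hA1pos.le]
    norm_num
    rw [Real.rpow_neg_one]
  have hb40 : b ^ 40 = A2⁻¹ := by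
    rw [hb, ← Real.rpow_natCast, ← Real.rpow_mul hA2pos.le]
    norm_num
    rw [Real.rpow_neg_one]
  -- the inequality
  have h1 : 4 * b ≤ Real.pi * a ^ 2 := by
    have h2 : k ^ 39 * (k / Real.pi * b) = k ^ 40 * (b / Real.pi) := by ring
    have h3 : k ^ 38 * (k / 2 * a) ^ 2 = k ^ 40 * (a ^ 2 / 4) := by ring
    rw [h2, h3] at h
    have h4 := le_of_mul_le_mul_left h (by positivity : (0:ℝ) < k ^ 40)
    rw [div_le_iff₀ hpi] at h4
    linarith
  have h2 : (4 * b) ^ 40 ≤ (Real.pi * a ^ 2) ^ 40 := pow_le_pow_left₀ (by positivity) h1 40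
  rw [mul_pow, mul_pow, ← pow_mul, mul_comm 2 40, pow_mul, ha40, hb40] at h2
  have h3 : 4 ^ 40 * A1 ^ 2 ≤ Real.pi ^ 40 * A2 := by
    rw [inv_pow] at h2
    rw [← div_eq_mul_inv, ← div_eq_mul_inv, div_le_div_iff₀ hA2pos (by positivity)] at h2
    exact h2
  have h4 : A1 ^ 2 * k ^ 2 = X1.toReal ^ 2 := by rw [hA1]; field_simp
  have h5 : A2 * k ^ 2 = X2.toReal := by rw [hA2]; field_simp
  have h6 : 4 ^ 40 * X1.toReal ^ 2 ≤ Real.pi ^ 40 * X2.toReal := by
    rw [← h4, ← h5]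
    have := mul_le_mul_of_nonneg_right h3 (by positivity : (0:ℝ) ≤ k ^ 2)
    linarith
  have h7 : 4 ^ 40 * (kap 39 / (2 ^ 39 * 40)) ^ 2 ≤
      Real.pi ^ 40 * (k * (kap 38 / (Real.pi ^ 37 * 12480))) := by
    calc 4 ^ 40 * (kap 39 / (2 ^ 39 * 40)) ^ 2 ≤ 4 ^ 40 * X1.toReal ^ 2 := by gcongr
      _ ≤ _ := h6
      _ ≤ _ := by gcongr
  have h8 : 4 ^ 40 * (kap 39 / (2 ^ 39 * 40)) ^ 2 = kap 39 ^ 2 / 400 := by
    have : (4 : ℝ) ^ 40 = (2 ^ 39) ^ 2 * 4 := by norm_num
    rw [this, div_pow, mul_pow]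
    field_simp
    norm_num
  have h9 : Real.pi ^ 40 * (k * (kap 38 / (Real.pi ^ 37 * 12480))) =
      Real.pi ^ 3 * (kap 38 * k) / 12480 := by
    have : Real.pi ^ 40 = Real.pi ^ 37 * Real.pi ^ 3 := by ring
    rw [this]
    field_simp
  rw [h8, h9] at h7
  have h10 := kap_logconcave
  have h11 := pi_cube
  have h12 : 0 < kap 39 ^ 2 := by positivity
  have h13 : Real.pi ^ 3 * (kap 38 * k) ≤ Real.pi ^ 3 * kap 39 ^ 2 := by gcongr
  have h14 : Real.pi ^ 3 * kap 39 ^ 2 < 31.2 * kap 39 ^ 2 := by gcongr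
  rw [div_le_div_iff₀ (by norm_num) (by norm_num)] at h7
  nlinarith

/-- The negation of the preceding statement: For every convex body K in n-space and 0≤i≤j≤n−1, with Φ_i the affine quermassintegral (Haar-averaged (n−i)-dim projection volumes), κ_n^j Φ_i^(n−j) ≤ κ_n^i Φ_j^(n−i), with equality for i<j exactly when K is an ellipsoid. -/
theorem result :
    ¬ (∀ (n : ℕ) (K : Set (EuclideanSpace ℝ (Fin n))) (Φ : ℕ → ℝ),
      IsCompact K → Convex ℝ K → (interior K).Nonempty →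
      (∀ i : ℕ, Φ i =
        (MeasureTheory.volume (Metric.ball (0 : EuclideanSpace ℝ (Fin n)) 1)).toReal /
          (MeasureTheory.volume (Metric.ball (0 : EuclideanSpace ℝ (Fin (n - i))) 1)).toReal *
        (((∫⁻ v in Set.pi Set.univ
                (fun _ : Fin (n - i) => Metric.ball (0 : EuclideanSpace ℝ (Fin n)) 1),
              (MeasureTheory.volume
                ((Submodule.span ℝ (Set.range v)).orthogonalProjection '' K)) ^ (-(n : ℝ))) /
            MeasureTheory.volume (Set.pi Set.univ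
                (fun _ : Fin (n - i) => Metric.ball (0 : EuclideanSpace ℝ (Fin n)) 1))).toReal)
          ^ (-(1 / (n : ℝ)))) →
      ∀ i j : ℕ, i ≤ j → j + 1 ≤ n →
        ((MeasureTheory.volume (Metric.ball (0 : EuclideanSpace ℝ (Fin n)) 1)).toReal ^ j
            * Φ i ^ (n - j) ≤
          (MeasureTheory.volume (Metric.ball (0 : EuclideanSpace ℝ (Fin n)) 1)).toReal ^ i
            * Φ j ^ (n - i)) ∧
        (i < j →
          ((MeasureTheory.volume (Metric.ball (0 : EuclideanSpace ℝ (Fin n)) 1)).toReal ^ j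
              * Φ i ^ (n - j) =
            (MeasureTheory.volume (Metric.ball (0 : EuclideanSpace ℝ (Fin n)) 1)).toReal ^ i
              * Φ j ^ (n - i) ↔
           ∃ f : EuclideanSpace ℝ (Fin n) ≃ᵃ[ℝ] EuclideanSpace ℝ (Fin n),
             K = f '' Metric.closedBall 0 1))) := by
  intro h
  have h1 := (h 40 (Pool.Agent.Helper876.AQ.cyl (Pool.Agent.Helper876.AQ.e0 38)) _
    (Pool.Agent.Helper876.AQ.cyl_compact Pool.Agent.Helper876.AQ.norm_e0)
    (Pool.Agent.Helper876.AQ.cyl_convex _)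
    ⟨0, interior_mono (Pool.Agent.Helper876.AQ.ball_sub_cyl Pool.Agent.Helper876.AQ.norm_e0)
      (by rw [Metric.isOpen_ball.interior_eq]; exact Metric.mem_ball_self one_pos)⟩
    (fun i => rfl) 38 39 (by norm_num) (by norm_num)).1
  exact key_fail h1

end Pool.Agent.S08968
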