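import Pool.Statements.S08969
import Pool.Agent.Helper97.Main

set_option autoImplicit false
open Matrix
open Pool Pool.MP_cee277_gt

namespace Pool.Agent.S08969

/-- There is a strictly decreasing sequence of reals tending to 1, each the critical exponent of a discrete group of isometries of hyperbolic 3-space whose quotient has injectivity radius bounded above. -/
theorem result :
    ∃ δ : ℕ → ℝ, StrictAnti δ ∧ Filter.Tendsto δ Filter.atTop (nhds 1) ∧
      ∀ i : ℕ, ∃ N : Subgroup (Matrix.GeneralLinearGroup (Fin 4) ℝ),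
        (∀ g ∈ N,
          ((g : Matrix (Fin 4) (Fin 4) ℝ)ᵀ * Matrix.diagonal (![-1, 1, 1, 1] : Fin 4 → ℝ) *
              (g : Matrix (Fin 4) (Fin 4) ℝ) = Matrix.diagonal (![-1, 1, 1, 1] : Fin 4 → ℝ)) ∧
            0 < (g : Matrix (Fin 4) (Fin 4) ℝ) 0 0) ∧
        DiscreteTopology N ∧
        (∃ R : ℝ, ∀ x : Fin 4 → ℝ,
          x ⬝ᵥ (Matrix.diagonal (![-1, 1, 1, 1] : Fin 4 → ℝ) *ᵥ x) = -1 → 0 < x 0 →
            ∃ g ∈ N, g ≠ 1 ∧
              -(x ⬝ᵥ (Matrix.diagonal (![-1, 1, 1, 1] : Fin 4 → ℝ) *ᵥ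
                  ((g : Matrix (Fin 4) (Fin 4) ℝ) *ᵥ x))) ≤ R) ∧
        (∀ s : ℝ, δ i < s →
          Summable (fun g : N =>
            (((g : Matrix.GeneralLinearGroup (Fin 4) ℝ) : Matrix (Fin 4) (Fin 4) ℝ) 0 0) ^ (-s))) ∧
        (∀ s : ℝ, s < δ i →
          ¬ Summable (fun g : N =>
            (((g : Matrix.GeneralLinearGroup (Fin 4) ℝ) : Matrix (Fin 4) (Fin 4) ℝ) 0 0) ^ (-s))) := by
  set D : Set ℝ := {d : ℝ | 1 < d ∧ ∃ N : Subgroup (Matrix.GeneralLinearGroup (Fin 4) ℝ),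
        (∀ g ∈ N,
          ((g : Matrix (Fin 4) (Fin 4) ℝ)ᵀ * Matrix.diagonal (![-1, 1, 1, 1] : Fin 4 → ℝ) *
              (g : Matrix (Fin 4) (Fin 4) ℝ) = Matrix.diagonal (![-1, 1, 1, 1] : Fin 4 → ℝ)) ∧
            0 < (g : Matrix (Fin 4) (Fin 4) ℝ) 0 0) ∧
        DiscreteTopology N ∧
        (∃ R : ℝ, ∀ x : Fin 4 → ℝ,
          x ⬝ᵥ (Matrix.diagonal (![-1, 1, 1, 1] : Fin 4 → ℝ) *ᵥ x) = -1 → 0 < x 0 →
            ∃ g ∈ N, g ≠ 1 ∧
              -(x ⬝ᵥ (Matrix.diagonal (![-1, 1, 1, 1] : Fin 4 → ℝ) *ᵥ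
                  ((g : Matrix (Fin 4) (Fin 4) ℝ) *ᵥ x))) ≤ R) ∧
        (∀ s : ℝ, d < s →
          Summable (fun g : N =>
            (((g : Matrix.GeneralLinearGroup (Fin 4) ℝ) : Matrix (Fin 4) (Fin 4) ℝ) 0 0) ^ (-s))) ∧
        (∀ s : ℝ, s < d →
          ¬ Summable (fun g : N =>
            (((g : Matrix.GeneralLinearGroup (Fin 4) ℝ) : Matrix (Fin 4) (Fin 4) ℝ) 0 0) ^ (-s)))}
    with hD
  have hmain : ∀ ε : ℝ, 0 < ε → ∃ d ∈ D, d ≤ 1 + ε := by
    intro ε hε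
    obtain ⟨V, hV, ⟨R, hR⟩, hsum, s0, hs0, hnsum⟩ := Pool.Agent.Helper97.key ε hε
    set N := Pool.Agent.Helper97.NG V hV with hN
    set U : Set ℝ := {s : ℝ | Summable (fun g : N =>
      (((g : Matrix.GeneralLinearGroup (Fin 4) ℝ) : Matrix (Fin 4) (Fin 4) ℝ) 0 0) ^ (-s))} with hU
    have hmono : ∀ s t : ℝ, s ≤ t → s ∈ U → t ∈ U := by
      intro s t hst hs
      apply Summable.of_nonneg_of_le _ _ hs
      · intro g
        have := Pool.Agent.Helper97.one_le_g00 hV g g.2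
        positivity
      · intro g
        have := Pool.Agent.Helper97.one_le_g00 hV g g.2
        exact Real.rpow_le_rpow_of_exponent_le this (by linarith)
    have hlow : s0 ∈ lowerBounds U := by
      intro s hs
      by_contra hc
      push Not at hc
      exact hnsum (hmono s s0 hc.le hs)
    have hUne : (1 + ε) ∈ U := hsum
    have hbdd : BddBelow U := ⟨s0, hlow⟩
    refine ⟨sInf U, ⟨?_, N, ?_, ?_, ?_, ?_, ?_⟩, csInf_le hbdd hUne⟩
    · exact lt_of_lt_of_le hs0 (le_csInf ⟨_, hUne⟩ hlow)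
    · intro g hg
      exact Pool.Agent.Helper97.NG_matrix hV g hg
    · exact Pool.Agent.Helper97.discrete_of_summable hV (by linarith : 0 < 1 + ε) hsum
    · refine ⟨R, ?_⟩
      intro x hx hx0
      have hxH : Pool.Agent.Helper97.H x := ⟨by rw [Pool.Agent.Helper97.B_eq]; exact hx, hx0⟩
      obtain ⟨g, hg, hg1, hgR⟩ := hR x hxH
      refine ⟨g, hg, hg1, ?_⟩
      rw [Pool.Agent.Helper97.B_eq] at hgR
      exact hgR
    · intro s hs
      obtain ⟨t, ht, hts⟩ := exists_lt_of_csInf_lt ⟨_, hUne⟩ hs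
      exact hmono t s hts.le ht
    · intro s hs hcon
      exact absurd (csInf_le hbdd (show s ∈ U from hcon)) (not_le.mpr hs)
  have hglb : IsGLB D 1 := by
    constructor
    · intro d hd
      exact hd.1.le
    · intro b hb
      by_contra hc
      push Not at hc
      obtain ⟨d, hd, hd2⟩ := hmain ((b - 1) / 2) (by linarith)
      have := hb hd
      linarith
  have hne : D.Nonempty := by
    obtain ⟨d, hd, -⟩ := hmain 1 one_pos
    exact ⟨d, hd⟩
  obtain ⟨δ, h1, h2, h3, h4⟩ := hglb.exists_seq_strictAnti_tendsto_of_notMem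
    (fun h => lt_irrefl _ h.1) hne
  exact ⟨δ, h1, h3, fun i => (h4 i).2⟩

end Pool.Agent.S08969
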