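import Pool.Statements.S08973
import Mathlib

set_option autoImplicit false
open Pool Pool.MP_cf8bd7_gt

namespace Pool.Agent.S08973

open Filter Topology Cardinal

/-- Cantor set, as an index set -/
abbrev C : Type := ℕ → Bool

/-- the index set: two copies of the Cantor set -/
abbrev T : Type := C ⊕ C

/-- the compact group `{1,-1}^T` -/
abbrev K : Type := T → ℤˣ

/-- a free ultrafilter -/
noncomputable abbrev p : Ultrafilter ℕ := Filter.hyperfilter ℕ

lemma exists_lim (f : ℕ → ℤˣ) : ∃ a : ℤˣ, ∀ᶠ n in (p : Filter ℕ), f n = a := by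
  rcases p.em (fun n => f n = 1) with h | h
  · exact ⟨1, h⟩
  · refine ⟨-1, ?_⟩
    filter_upwards [h] with n hn
    rcases Int.units_eq_one_or (f n) with h1 | h1
    · exact absurd h1 hn
    · exact h1

/-- the limit along the ultrafilter of a sequence in `{1,-1}` -/
noncomputable def L (f : ℕ → ℤˣ) : ℤˣ := (exists_lim f).choose

lemma L_spec (f : ℕ → ℤˣ) : ∀ᶠ n in (p : Filter ℕ), f n = L f := (exists_lim f).choose_spec

lemma L_eq {f : ℕ → ℤˣ} {a : ℤˣ} (h : ∀ᶠ n in (p : Filter ℕ), f n = a) : L f = a := by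
  obtain ⟨n, h1, h2⟩ := (h.and (L_spec f)).exists
  rw [← h2, h1]

/-- coordinatewise limit along the ultrafilter -/
noncomputable def plim (x : ℕ → K) : K := fun t => L (fun n => x n t)

lemma plim_mul (x y : ℕ → K) : plim (fun n => x n * y n) = plim x * plim y := by
  funext t
  apply L_eq
  filter_upwards [L_spec (fun n => x n t), L_spec (fun n => y n t)] with n h1 h2
  simp only [Pi.mul_apply, plim]
  rw [h1, h2]

lemma plim_tendsto (x : ℕ → K) : Tendsto x (p : Filter ℕ) (𝓝 (plim x)) := by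
  rw [tendsto_pi_nhds]
  intro t
  apply tendsto_const_nhds.congr'
  filter_upwards [L_spec (fun n => x n t)] with n h1
  exact h1.symm

/-- index set of the countable dense set -/
abbrev Idx : Type := Σ n : ℕ, ((Fin n → Bool) → ℤˣ) × ((Fin n → Bool) → ℤˣ)

/-- the countable dense family -/
def E (a : Idx) : K := fun t => match t with
  | Sum.inl c => a.2.1 (fun i => c i)
  | Sum.inr c => a.2.2 (fun i => c i)

lemma exists_sep (s : Finset C) : ∃ n : ℕ, ∀ c ∈ s, ∀ d ∈ s,
    (fun i : Fin n => c i) = (fun i : Fin n => d i) → c = d := by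
  classical
  have h : ∀ q : C × C, ∃ m : ℕ, q.1 ≠ q.2 → q.1 m ≠ q.2 m := by
    intro q
    by_cases hq : q.1 = q.2
    · exact ⟨0, fun h => absurd hq h⟩
    · obtain ⟨m, hm⟩ := Function.ne_iff.mp hq
      exact ⟨m, fun _ => hm⟩
  choose m hm using h
  refine ⟨(s ×ˢ s).sup m + 1, fun c hc d hd hcd => ?_⟩
  by_contra hne
  apply hm (c, d) hne
  have hlt : m (c, d) < (s ×ˢ s).sup m + 1 :=
    Nat.lt_succ_of_le (Finset.le_sup (f := m) (Finset.mem_product.mpr ⟨hc, hd⟩))
  exact congrFun hcd ⟨m (c, d), hlt⟩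

lemma exists_fun (s : Finset C) (n : ℕ) (hn : ∀ c ∈ s, ∀ d ∈ s,
    (fun i : Fin n => c i) = (fun i : Fin n => d i) → c = d) (f : C → ℤˣ) :
    ∃ g : (Fin n → Bool) → ℤˣ, ∀ c ∈ s, g (fun i => c i) = f c := by
  classical
  refine ⟨fun u => if h : ∃ c ∈ s, (fun i : Fin n => c i) = u then f h.choose else 1, ?_⟩
  intro c hc
  have h : ∃ d ∈ s, (fun i : Fin n => d i) = (fun i : Fin n => c i) := ⟨c, hc, rfl⟩
  simp only
  rw [dif_pos h]
  congr 1
  exact hn _ h.choose_spec.1 _ hc h.choose_spec.2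

lemma dense_E : DenseRange E := by
  classical
  intro x
  rw [mem_closure_iff]
  intro o ho hx
  rw [isOpen_pi_iff] at ho
  obtain ⟨I, u, hu, hsub⟩ := ho x hx
  let s1 : Finset C := I.preimage Sum.inl Sum.inl_injective.injOn
  let s2 : Finset C := I.preimage Sum.inr Sum.inr_injective.injOn
  obtain ⟨n, hn⟩ := exists_sep (s1 ∪ s2)
  obtain ⟨g1, hg1⟩ := exists_fun s1 n (fun c hc d hd h =>
    hn c (Finset.mem_union_left _ hc) d (Finset.mem_union_left _ hd) h) (fun c => x (Sum.inl c))
  obtain ⟨g2, hg2⟩ := exists_fun s2 n (fun c hc d hd h =>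
    hn c (Finset.mem_union_right _ hc) d (Finset.mem_union_right _ hd) h) (fun c => x (Sum.inr c))
  refine ⟨E ⟨n, g1, g2⟩, hsub ?_, ⟨_, rfl⟩⟩
  intro t ht
  have ht' : t ∈ I := ht
  rcases t with c | c
  · have : E ⟨n, g1, g2⟩ (Sum.inl c) = x (Sum.inl c) :=
      hg1 c (Finset.mem_preimage.mpr ht')
    rw [this]
    exact (hu _ ht').2
  · have : E ⟨n, g1, g2⟩ (Sum.inr c) = x (Sum.inr c) :=
      hg2 c (Finset.mem_preimage.mpr ht')
    rw [this]
    exact (hu _ ht').2

/-- arities -/
def ar : Idx ⊕ Bool → Type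
  | Sum.inl _ => Empty
  | Sum.inr true => Bool
  | Sum.inr false => ℕ

/-- evaluation of terms -/
noncomputable def ev : WType ar → K :=
  WType.elim K (fun q => match q with
    | ⟨Sum.inl a, _⟩ => E a
    | ⟨Sum.inr true, f⟩ => f true * f false
    | ⟨Sum.inr false, f⟩ => plim f)

/-- the closure of the dense set under products and limits along `p` -/
def X : Set K := Set.range ev

lemma E_mem (a : Idx) : E a ∈ X :=
  ⟨WType.mk (Sum.inl a) (fun e => Empty.elim e), rfl⟩

lemma mul_mem {x y : K} (hx : x ∈ X) (hy : y ∈ X) : x * y ∈ X := by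
  obtain ⟨s, rfl⟩ := hx
  obtain ⟨t, rfl⟩ := hy
  exact ⟨WType.mk (Sum.inr true) (fun b : Bool => if b then s else t), rfl⟩

lemma plim_mem {x : ℕ → K} (hx : ∀ n, x n ∈ X) : plim x ∈ X := by
  choose s hs using hx
  refine ⟨WType.mk (Sum.inr false) (fun n : ℕ => s n), ?_⟩
  have : x = fun n => ev (s n) := funext fun n => (hs n).symm
  rw [this]
  rfl

lemma card_X : #X ≤ #C := by
  have h1 : #X ≤ #(WType ar) := mk_range_le
  refine h1.trans ?_
  have hC : #C = 𝔠 := by simp
  rw [hC]
  apply WType.cardinalMk_le_of_le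
  have h2 : (Cardinal.sum fun a : Idx ⊕ Bool => 𝔠 ^ #(ar a)) ≤
      Cardinal.sum fun _ : Idx ⊕ Bool => 𝔠 := by
    apply Cardinal.sum_le_sum
    rintro (a | b)
    · have : #(ar (Sum.inl a)) = 0 := Cardinal.mk_eq_zero Empty
      rw [this, Cardinal.power_zero]
      exact Cardinal.one_le_aleph0.trans Cardinal.aleph0_le_continuum
    · cases b
      · have : #(ar (Sum.inr false)) = ℵ₀ := Cardinal.mk_nat
        rw [this, Cardinal.continuum_power_aleph0]
      · have : #(ar (Sum.inr true)) = 2 := Cardinal.mk_bool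
        rw [this]
        calc 𝔠 ^ (2 : Cardinal) ≤ 𝔠 ^ ℵ₀ :=
              Cardinal.power_le_power_left Cardinal.continuum_ne_zero
                (Cardinal.ofNat_lt_aleph0.le)
          _ = 𝔠 := Cardinal.continuum_power_aleph0
  refine h2.trans ?_
  rw [Cardinal.sum_const']
  have h3 : #(Idx ⊕ Bool) ≤ ℵ₀ := Cardinal.mk_le_aleph0
  calc #(Idx ⊕ Bool) * 𝔠 ≤ ℵ₀ * 𝔠 := mul_le_mul' h3 le_rfl
    _ = 𝔠 := Cardinal.aleph0_mul_continuum
    _ ≤ 𝔠 := le_rfl

/-- the diagonalising choice -/
lemma exists_r : ∃ (j : X → C) (r : C → Option C), Function.Injective j ∧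
    ∀ x : X, (x.1 (Sum.inr (j x)) ≠ 1 → r (j x) = none) ∧
      (x.1 (Sum.inr (j x)) = 1 → (∃ f, x.1 (Sum.inl f) ≠ 1) →
        ∃ f, r (j x) = some f ∧ x.1 (Sum.inl f) ≠ 1) := by
  classical
  obtain ⟨j⟩ := Cardinal.le_def _ _ |>.mp card_X
  have h : ∀ x : X, ∃ o : Option C, (x.1 (Sum.inr (j x)) ≠ 1 → o = none) ∧
      (x.1 (Sum.inr (j x)) = 1 → (∃ f, x.1 (Sum.inl f) ≠ 1) →
        ∃ f, o = some f ∧ x.1 (Sum.inl f) ≠ 1) := by
    intro x
    by_cases h1 : x.1 (Sum.inr (j x)) = 1
    · by_cases h2 : ∃ f, x.1 (Sum.inl f) ≠ 1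
      · obtain ⟨f, hf⟩ := h2
        exact ⟨some f, fun h => absurd h1 h, fun _ _ => ⟨f, rfl, hf⟩⟩
      · exact ⟨none, fun _ => rfl, fun _ h => absurd h h2⟩
    · exact ⟨none, fun _ => rfl, fun h => absurd h h1⟩
  choose o ho using h
  have hex : ∃ r : C → Option C, ∀ x, r (j x) = o x := by
    have := j.injective.extend_apply (g := o) (e' := fun _ => (none : Option C))
    exact ⟨_, this⟩
  obtain ⟨r, hr⟩ := hex
  refine ⟨j, r, j.injective, fun x => ?_⟩
  rw [hr x]
  exact ho x

/-- the value prescribed on the second copy by the values on the first -/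
def val (y : K) : Option C → ℤˣ
  | none => 1
  | some f => y (Sum.inl f)

/-- the closed subgroup `N` attached to `r` -/
def N (r : C → Option C) : Subgroup K where
  carrier := {y | ∀ c, y (Sum.inr c) = val y (r c)}
  mul_mem' := by
    intro a b ha hb c
    have h1 := ha c
    have h2 := hb c
    rw [Pi.mul_apply, h1, h2]
    cases r c <;> simp [val]
  one_mem' := by
    intro c
    cases r c <;> simp [val]
  inv_mem' := by
    intro a ha c
    have h1 := ha c
    rw [Pi.inv_apply, h1]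
    cases r c <;> simp [val]

lemma N_closed (r : C → Option C) : IsClosed (N r : Set K) := by
  have : (N r : Set K) = ⋂ c, {y : K | y (Sum.inr c) = val y (r c)} := by
    ext y
    simp only [Set.mem_iInter, Set.mem_ofPred_eq]
    rfl
  rw [this]
  apply isClosed_iInter
  intro c
  apply isClosed_eq (continuous_apply _)
  cases r c with
  | none => exact continuous_const
  | some f => exact continuous_apply _

/-- elements of `N` with countable support -/
def Sg (r : C → Option C) : Subgroup K where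
  carrier := {y | y ∈ N r ∧ {c : C | y (Sum.inl c) ≠ 1}.Countable}
  mul_mem' := by
    rintro a b ⟨ha, ha'⟩ ⟨hb, hb'⟩
    refine ⟨(N r).mul_mem ha hb, (ha'.union hb').mono ?_⟩
    intro c hc
    by_contra hcon
    rw [Set.mem_union, not_or] at hcon
    simp only [Set.mem_ofPred_eq, not_not] at hcon
    apply hc
    rw [Pi.mul_apply, hcon.1, hcon.2, one_mul]
  one_mem' := ⟨(N r).one_mem, by simp⟩
  inv_mem' := by
    rintro a ⟨ha, ha'⟩
    refine ⟨(N r).inv_mem ha, ha'.mono ?_⟩
    intro c hc hc'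
    apply hc
    rw [Pi.inv_apply, hc', inv_one]

lemma Sg_plim (r : C → Option C) {x : ℕ → K} (hx : ∀ n, x n ∈ Sg r) : plim x ∈ Sg r := by
  refine ⟨?_, ?_⟩
  · exact (N_closed r).mem_of_tendsto (plim_tendsto x) (Eventually.of_forall fun n => (hx n).1)
  · refine (Set.countable_iUnion fun n => (hx n).2).mono ?_
    intro c hc
    by_contra hcon
    simp only [Set.mem_iUnion, Set.mem_ofPred_eq, not_exists, not_not] at hcon
    apply hc
    exact L_eq (Eventually.of_forall hcon)

lemma units_mul_self (a : ℤˣ) : a * a = 1 := Int.units_mul_self a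

lemma K_inv (x : K) : x⁻¹ = x := by
  funext t
  rw [Pi.inv_apply, Int.units_inv_eq_self]

lemma one_mem_X : (1 : K) ∈ X := by
  have h := E_mem ⟨0, fun _ => 1, fun _ => 1⟩
  have : E ⟨0, fun _ => 1, fun _ => 1⟩ = (1 : K) := by
    funext t
    cases t <;> rfl
  rwa [this] at h

/-- the group -/
def G (r : C → Option C) : Subgroup K where
  carrier := {z | ∃ x ∈ X, ∃ y ∈ Sg r, z = x * y}
  mul_mem' := by
    rintro a b ⟨x, hx, y, hy, rfl⟩ ⟨x', hx', y', hy', rfl⟩
    exact ⟨x * x', mul_mem hx hx', y * y', (Sg r).mul_mem hy hy', mul_mul_mul_comm _ _ _ _⟩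
  one_mem' := ⟨1, one_mem_X, 1, (Sg r).one_mem, (one_mul 1).symm⟩
  inv_mem' := by
    rintro a ⟨x, hx, y, hy, rfl⟩
    rw [K_inv]
    exact ⟨x, hx, y, hy, rfl⟩

lemma G_plim (r : C → Option C) {z : ℕ → K} (hz : ∀ n, z n ∈ G r) : plim z ∈ G r := by
  choose x hx y hy hxy using hz
  refine ⟨plim x, plim_mem hx, plim y, Sg_plim r hy, ?_⟩
  rw [← plim_mul]
  congr 1
  funext n
  exact hxy n

/-- `X` meets `N` trivially -/
lemma X_inter (j : X → C) (r : C → Option C)
    (h : ∀ x : X, (x.1 (Sum.inr (j x)) ≠ 1 → r (j x) = none) ∧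
      (x.1 (Sum.inr (j x)) = 1 → (∃ f, x.1 (Sum.inl f) ≠ 1) →
        ∃ f, r (j x) = some f ∧ x.1 (Sum.inl f) ≠ 1))
    (x : K) (hx : x ∈ X) (hN : x ∈ N r) : x = 1 := by
  have hN' : ∀ c, x (Sum.inr c) = val x (r c) := hN
  obtain ⟨h1, h2⟩ := h ⟨x, hx⟩
  simp only at h1 h2
  have hc : x (Sum.inr (j ⟨x, hx⟩)) = 1 := by
    by_contra hne
    have := h1 hne
    have h3 := hN' (j ⟨x, hx⟩)
    rw [this] at h3
    exact hne h3
  have hF : ∀ f, x (Sum.inl f) = 1 := by
    by_contra hcon
    push Not at hcon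
    obtain ⟨f, hf, hf'⟩ := h2 hc hcon
    have h3 := hN' (j ⟨x, hx⟩)
    rw [hf, hc] at h3
    exact hf' h3.symm
  funext t
  rcases t with f | c
  · exact hF f
  · rw [hN' c]
    cases r c with
    | none => rfl
    | some f => exact hF f

/-- There is a Hausdorff topological group that is separable and countably compact (every countable open cover has a finite subcover) and has a closed subgroup that is not separable in its subspace topology. -/
theorem result :
    ∃ (G : Type) (_ : Group G) (_ : TopologicalSpace G),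
      IsTopologicalGroup G ∧ T2Space G ∧ TopologicalSpace.SeparableSpace G ∧
      (∀ U : ℕ → Set G, (∀ n, IsOpen (U n)) → (Set.univ ⊆ ⋃ n, U n) →
        ∃ N : ℕ, Set.univ ⊆ ⋃ n ∈ Finset.range N, U n) ∧
      ∃ H : Subgroup G, IsClosed (H : Set G) ∧ ¬ TopologicalSpace.SeparableSpace ↥H := by
  classical
  obtain ⟨j, r, hj, hr⟩ := exists_r
  refine ⟨G r, inferInstance, inferInstance, inferInstance, inferInstance, ?_, ?_,
    (N r).subgroupOf (G r), ?_, ?_⟩
  · -- separable
    let u : Idx → G r := fun a => ⟨E a, E a, E_mem a, 1, (Sg r).one_mem, (mul_one _).symm⟩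
    apply TopologicalSpace.SeparableSpace.of_denseRange u
    intro z
    rw [mem_closure_iff]
    intro o ho hz
    obtain ⟨o', ho', rfl⟩ := isOpen_induced_iff.mp ho
    obtain ⟨_, h1, ⟨a, rfl⟩⟩ := mem_closure_iff.mp (dense_E z.1) o' ho' hz
    exact ⟨u a, h1, ⟨a, rfl⟩⟩
  · -- countably compact
    intro U hU hcov
    by_contra hcon
    push Not at hcon
    have h1 : ∀ n : ℕ, ∃ g : G r, ∀ m < n, g ∉ U m := by
      intro n
      obtain ⟨g, -, hg⟩ := Set.not_subset.mp (hcon n)
      refine ⟨g, fun m hm hgm => hg ?_⟩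
      simp only [Set.mem_iUnion]
      exact ⟨m, Finset.mem_range.mpr hm, hgm⟩
    choose g hg using h1
    let z : G r := ⟨plim (fun n => (g n).1), G_plim r (fun n => (g n).2)⟩
    have hlim : Tendsto g (p : Filter ℕ) (𝓝 z) := by
      rw [tendsto_subtype_rng]
      exact plim_tendsto _
    obtain ⟨m, hm⟩ := Set.mem_iUnion.mp (hcov (Set.mem_univ z))
    have h2 : ∀ᶠ n in (p : Filter ℕ), g n ∈ U m := hlim ((hU m).mem_nhds hm)
    have h3 : ∀ᶠ n in (p : Filter ℕ), m < n :=
      Nat.hyperfilter_le_atTop (eventually_gt_atTop m)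
    obtain ⟨n, hn1, hn2⟩ := (h2.and h3).exists
    exact hg n m hn2 hn1
  · exact (N_closed r).preimage continuous_subtype_val
  · intro hsep
    obtain ⟨Q, hQc, hQd⟩ := TopologicalSpace.exists_countable_dense ((N r).subgroupOf (G r))
    have hsupp : ∀ h : (N r).subgroupOf (G r), {c : C | h.1.1 (Sum.inl c) ≠ 1}.Countable := by
      rintro ⟨⟨_, x, hx, y, hy, rfl⟩, hN⟩
      have hN' : x * y ∈ N r := hN
      have hxN : x ∈ N r := by
        have := (N r).mul_mem hN' ((N r).inv_mem hy.1)
        rwa [mul_inv_cancel_right] at this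
      have hx1 : x = 1 := X_inter j r hr x hx hxN
      subst hx1
      have := hy.2
      simpa using this
    have hcount : (⋃ q ∈ Q, {c : C | q.1.1 (Sum.inl c) ≠ 1}).Countable :=
      hQc.biUnion (fun q _ => hsupp q)
    have hunc : ¬ (Set.univ : Set C).Countable := by
      intro h
      have : #C ≤ ℵ₀ := by
        rw [← Cardinal.mk_univ]
        exact h.le_aleph0
      have hC : #C = 𝔠 := by simp
      rw [hC] at this
      exact absurd this (not_le.mpr Cardinal.aleph0_lt_continuum)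
    obtain ⟨c0, hc0⟩ : ∃ c0 : C, c0 ∉ ⋃ q ∈ Q, {c : C | q.1.1 (Sum.inl c) ≠ 1} := by
      by_contra hcon
      push Not at hcon
      exact hunc (hcount.mono (fun c _ => hcon c))
    -- the element of the closed subgroup supported at `c0`
    let b : C → ℤˣ := fun c => if c = c0 then -1 else 1
    let y : K := fun t => match t with
      | Sum.inl c => b c
      | Sum.inr c => match r c with
        | none => 1
        | some f => b f
    have hyN : y ∈ N r := by
      intro c
      change (match r c with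
        | none => 1
        | some f => b f) = val y (r c)
      cases r c <;> rfl
    have hyS : y ∈ Sg r := by
      refine ⟨hyN, (Set.countable_singleton c0).mono ?_⟩
      intro c hc
      by_contra hne
      apply hc
      exact if_neg hne
    let yG : G r := ⟨y, 1, one_mem_X, y, hyS, (one_mul _).symm⟩
    let yH : (N r).subgroupOf (G r) := ⟨yG, hyN⟩
    have hopen : IsOpen {h : (N r).subgroupOf (G r) | h.1.1 (Sum.inl c0) ≠ 1} := by
      have hcont : Continuous (fun h : (N r).subgroupOf (G r) => h.1.1 (Sum.inl c0)) :=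
        (continuous_apply _).comp (continuous_subtype_val.comp continuous_subtype_val)
      exact (isOpen_discrete ({1}ᶜ : Set ℤˣ)).preimage hcont
    have hyo : yH ∈ {h : (N r).subgroupOf (G r) | h.1.1 (Sum.inl c0) ≠ 1} := by
      change b c0 ≠ 1
      simp [b]
    obtain ⟨q, hq1, hq2⟩ := hQd.exists_mem_open hopen ⟨yH, hyo⟩
    apply hc0
    simp only [Set.mem_iUnion]
    exact ⟨q, hq1, hq2⟩

end Pool.Agent.S08973
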