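import Pool.Statements.S08982
import Pool.Agent.Helper166.Resolution

set_option autoImplicit false
open Pool Pool.MP_d1450a_gt

namespace Pool.Agent.S08982

/-- The negation of the preceding statement: Every compact connected Hausdorff space that is semi-locally connected at no point has a point x and points y, z other than x such that every closed connected set containing y and z contains x. -/
theorem result :
    ¬ (∀ (X : Type) [TopologicalSpace X] [CompactSpace X] [T2Space X] [ConnectedSpace X],
      (∀ p : X, ¬ ∀ U : Set X, IsOpen U → p ∈ U →
          ∃ V : Set X, IsOpen V ∧ p ∈ V ∧ V ⊆ U ∧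
            {C : Set X | ∃ x ∈ Vᶜ, C = connectedComponentIn Vᶜ x}.Finite) →
      ∃ x y z : X, y ≠ x ∧ z ≠ x ∧
        ∀ K : Set X, IsClosed K → IsConnected K → y ∈ K → z ∈ K → x ∈ K) :=
  Pool.Agent.Helper166.Resolution.main

end Pool.Agent.S08982
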