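import Pool.Statements.S08983
import Pool.Agent.Helper499.SA.Main

set_option autoImplicit false
open Pool Pool.MP_d17a64_gt

namespace Pool.Agent.S08983

/-- Take any compact connected locally connected metric space whose homeomorphisms act transitively and whose covering dimension exceeds 2. Then the complement of every embedded arc in it is connected. -/
theorem result :
    ∀ (X : Type) [MetricSpace X] [CompactSpace X] [ConnectedSpace X] [LocallyConnectedSpace X],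
      (∀ x y : X, ∃ h : X ≃ₜ X, h x = y) →
      (∃ 𝒰 : Finset (Set X), (∀ U ∈ 𝒰, IsOpen U) ∧ ⋃₀ (𝒰 : Set (Set X)) = Set.univ ∧
        ∀ 𝒱 : Finset (Set X), (∀ V ∈ 𝒱, IsOpen V) → ⋃₀ (𝒱 : Set (Set X)) = Set.univ →
          (∀ V ∈ 𝒱, ∃ U ∈ 𝒰, V ⊆ U) →
          ∃ x : X, ∃ 𝒲 ⊆ 𝒱, 𝒲.card = 4 ∧ ∀ W ∈ 𝒲, x ∈ W) →
      ∀ f : unitInterval → X, Continuous f → Function.Injective f →
        IsPreconnected (Set.range f)ᶜ := by
  intro X _ _ _ _ hom hdim f hf hinj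
  obtain ⟨𝒰, h1, h2, h3⟩ := hdim
  refine (Pool.Agent.Helper499.SA.main_unit hom
    (Pool.Agent.Helper499.SA.dim_nonext ⟨𝒰, h1, h2, ?_⟩) f hf hinj).isPreconnected
  intro 𝒱 hV hcov href
  obtain ⟨x, 𝒲, hsub, hcard, hx⟩ := h3 𝒱 hV hcov href
  obtain ⟨V₁, V₂, V₃, hm1, hm2, hm3, h12, h13, h23⟩ := Finset.two_lt_card_iff.mp
    (show 2 < 𝒲.card by omega)
  exact ⟨x, V₁, hsub hm1, V₂, hsub hm2, V₃, hsub hm3, h12, h13, h23, hx _ hm1, hx _ hm2,
    hx _ hm3⟩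

end Pool.Agent.S08983
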