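import Pool.Statements.S08987
import Pool.Agent.CpD.Lindelof

set_option autoImplicit false
open Pool Pool.MP_d2cc73_gt

namespace Pool.Agent.S08987

/-- For every zero-dimensional compact Hausdorff space X, if the space of continuous maps from X to the discrete two-point space, with the pointwise topology, is normal, then it is Lindelöf. -/
theorem result :
    ∀ (X : Type) [TopologicalSpace X] [CompactSpace X] [T2Space X]
      [TotallyDisconnectedSpace X],
      NormalSpace {f : X → Bool // Continuous f} →
        LindelofSpace {f : X → Bool // Continuous f} := by
  intro X _ _ _ _ hN
  exact Pool.Agent.CpD.main X hN

end Pool.Agent.S08987
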