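import Pool.Statements.S08989
import Pool.Agent.Helper739.CGUnion

set_option autoImplicit false
open Pool Pool.MP_d2d3ba_gt

namespace Pool.Agent.S08989

open Set Topology

theorem ctm_preimage_val {X : Type} [TopologicalSpace X] [T2Space X] {S A : Set X}
    (hS : IsCompact S) (hA : IsCompact A) (hAc : IsConnected A) (hAS : A ⊆ S) :
    Helper739.CT.Ctm ((↑) ⁻¹' A : Set S) := by
  have : CompactSpace S := isCompact_iff_compactSpace.1 hS
  have him : ((↑) '' ((↑) ⁻¹' A : Set S) : Set X) = A := by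
    rw [Subtype.image_preimage_coe, inter_eq_right.2 hAS]
  refine ⟨(hA.isClosed.preimage continuous_subtype_val).isCompact, ?_, ?_⟩
  · obtain ⟨a, ha⟩ := hAc.nonempty
    exact ⟨⟨a, hAS ha⟩, ha⟩
  · rw [← IsInducing.subtypeVal.isPreconnected_image, him]
    exact hAc.isPreconnected

/-- For metric continua H, K with span zero, whose intersection is a nonempty continuum and whose union contains no triod, the union also has span zero: every subcontinuum of its square with equal projections meets the diagonal. -/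
theorem result :
    ∀ (X : Type) [MetricSpace X] (H K : Set X),
      IsCompact H → IsConnected H → IsCompact K → IsConnected K →
      IsConnected (H ∩ K) →
      (∀ T ⊆ H ∪ K, IsCompact T → IsConnected T →
        ¬ ∃ Z ⊆ T, IsCompact Z ∧ IsConnected Z ∧
          ∃ A B C : Set X, A.Nonempty ∧ B.Nonempty ∧ C.Nonempty ∧
            T \ Z = A ∪ B ∪ C ∧
            Disjoint (closure A) B ∧ Disjoint A (closure B) ∧
            Disjoint (closure A) C ∧ Disjoint A (closure C) ∧
            Disjoint (closure B) C ∧ Disjoint B (closure C)) →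
      (∀ W : Set (X × X), IsCompact W → IsConnected W → W ⊆ H ×ˢ H →
        Prod.fst '' W = Prod.snd '' W → ∃ x, (x, x) ∈ W) →
      (∀ W : Set (X × X), IsCompact W → IsConnected W → W ⊆ K ×ˢ K →
        Prod.fst '' W = Prod.snd '' W → ∃ x, (x, x) ∈ W) →
      (∀ W : Set (X × X), IsCompact W → IsConnected W → W ⊆ (H ∪ K) ×ˢ (H ∪ K) →
        Prod.fst '' W = Prod.snd '' W → ∃ x, (x, x) ∈ W) := by
  intro X _ H K hH hHc hK hKc hI hT sH sK W hW hWc hWs hWe
  have hS : IsCompact (H ∪ K) := hH.union hK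
  have : CompactSpace ↥(H ∪ K) := isCompact_iff_compactSpace.1 hS
  have hemb := hS.isClosed.isClosedEmbedding_subtypeVal
  have hcont : Continuous (Prod.map Subtype.val Subtype.val : ↥(H ∪ K) × ↥(H ∪ K) → X × X) :=
    continuous_subtype_val.prodMap continuous_subtype_val
  have hpush : ∀ Z : Set (↥(H ∪ K) × ↥(H ∪ K)), Prod.fst '' Z = Prod.snd '' Z →
      Prod.fst '' (Prod.map Subtype.val Subtype.val '' Z : Set (X × X)) =
        Prod.snd '' (Prod.map Subtype.val Subtype.val '' Z : Set (X × X)) := by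
    intro Z he
    rw [image_image, image_image]
    simp only [Prod.map_fst, Prod.map_snd]
    rw [← image_image Subtype.val Prod.fst, ← image_image Subtype.val Prod.snd, he]
  have hsz : ∀ A : Set X, (∀ W : Set (X × X), IsCompact W → IsConnected W → W ⊆ A ×ˢ A →
      Prod.fst '' W = Prod.snd '' W → ∃ x, (x, x) ∈ W) →
      Helper739.CG.SZ ((↑) ⁻¹' A : Set ↥(H ∪ K)) := by
    intro A hA Z hZ hZc hZs hZe
    obtain ⟨x, hx⟩ := hA (Prod.map Subtype.val Subtype.val '' Z) (hZ.image hcont)
      (hZc.image _ hcont.continuousOn) (by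
        rintro _ ⟨p, hp, rfl⟩
        exact ⟨(hZs hp).1, (hZs hp).2⟩) (hpush Z hZe)
    obtain ⟨p, hp, hpx⟩ := hx
    refine ⟨p, hp, Subtype.ext ?_⟩
    have h1 : (p.1 : X) = x := congrArg Prod.fst hpx
    have h2 : (p.2 : X) = x := congrArg Prod.snd hpx
    rw [h1, h2]
  have hcl : ∀ A : Set ↥(H ∪ K), closure ((↑) '' A : Set X) = (↑) '' closure A :=
    fun A => hemb.closure_image_eq A
  have hnt : Helper739.CG.NoTriod ↥(H ∪ K) := by
    intro T C hTc hCc hCT A B D hA hB hD he d1 d2 d3 d4 d5 d6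
    apply hT ((↑) '' T) (by rintro _ ⟨x, -, rfl⟩; exact x.2)
      (hTc.1.image continuous_subtype_val) (hTc.2.image _ continuous_subtype_val.continuousOn)
    refine ⟨(↑) '' C, image_mono hCT, hCc.1.image continuous_subtype_val,
      hCc.2.image _ continuous_subtype_val.continuousOn, (↑) '' A, (↑) '' B, (↑) '' D,
      hA.image _, hB.image _, hD.image _, ?_, ?_, ?_, ?_, ?_, ?_, ?_⟩
    · rw [← image_sdiff Subtype.val_injective, he, image_union, image_union]
    · rw [hcl]; exact (disjoint_image_iff Subtype.val_injective).2 d1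
    · rw [hcl]; exact (disjoint_image_iff Subtype.val_injective).2 d2
    · rw [hcl]; exact (disjoint_image_iff Subtype.val_injective).2 d3
    · rw [hcl]; exact (disjoint_image_iff Subtype.val_injective).2 d4
    · rw [hcl]; exact (disjoint_image_iff Subtype.val_injective).2 d5
    · rw [hcl]; exact (disjoint_image_iff Subtype.val_injective).2 d6
  have two : Helper739.CG.Two ((↑) ⁻¹' H : Set ↥(H ∪ K)) ((↑) ⁻¹' K : Set ↥(H ∪ K)) :=
    { hH := ctm_preimage_val hS hH hHc subset_union_left
      hK := ctm_preimage_val hS hK hKc subset_union_right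
      hI := ctm_preimage_val hS (hH.inter hK) hI (inter_subset_left.trans subset_union_left)
      hu := by
        ext x
        simp only [mem_union, mem_preimage, mem_univ, iff_true]
        exact x.2
      sH := hsz H sH
      sK := hsz K sK
      nt := hnt }
  have hWr : W ⊆ range (Prod.map Subtype.val Subtype.val : ↥(H ∪ K) × ↥(H ∪ K) → X × X) := by
    rintro ⟨x, y⟩ hw
    exact ⟨(⟨x, (hWs hw).1⟩, ⟨y, (hWs hw).2⟩), rfl⟩
  have hind : IsInducing (Prod.map Subtype.val Subtype.val :
      ↥(H ∪ K) × ↥(H ∪ K) → X × X) := IsInducing.subtypeVal.prodMap IsInducing.subtypeVal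
  have hZ : Helper739.CT.Ctm (Prod.map Subtype.val Subtype.val ⁻¹' W :
      Set (↥(H ∪ K) × ↥(H ∪ K))) := by
    refine ⟨(hW.isClosed.preimage hcont).isCompact, ?_, ?_⟩
    · obtain ⟨w, hw⟩ := hWc.nonempty
      obtain ⟨p, rfl⟩ := hWr hw
      exact ⟨p, hw⟩
    · rw [← hind.isPreconnected_image, image_preimage_eq_of_subset hWr]
      exact hWc.isPreconnected
  obtain ⟨p, hp, hpe⟩ := two.span hZ (by
    ext x
    constructor
    · rintro ⟨p, hp, rfl⟩
      have : ((p.1 : X)) ∈ Prod.snd '' W := by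
        rw [← hWe]; exact ⟨_, hp, rfl⟩
      obtain ⟨w, hw, hwe⟩ := this
      obtain ⟨q, rfl⟩ := hWr hw
      exact ⟨q, hw, Subtype.ext hwe⟩
    · rintro ⟨p, hp, rfl⟩
      have : ((p.2 : X)) ∈ Prod.fst '' W := by
        rw [hWe]; exact ⟨_, hp, rfl⟩
      obtain ⟨w, hw, hwe⟩ := this
      obtain ⟨q, rfl⟩ := hWr hw
      exact ⟨q, hw, Subtype.ext hwe⟩)
  refine ⟨(p.1 : X), ?_⟩
  have h1 : Prod.map Subtype.val Subtype.val p ∈ W := hp
  have h2 : (Prod.map Subtype.val Subtype.val p : X × X) = ((p.1 : X), (p.1 : X)) := by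
    ext
    · rfl
    · show (p.2 : X) = p.1
      rw [hpe]
  rwa [h2] at h1

end Pool.Agent.S08989
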