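import Pool.Statements.S09000

set_option autoImplicit false
open Pool Pool.MP_d4b900_gt
open Filter Topology Set OnePoint

namespace Pool.Agent.S09000

abbrev L := OnePoint ℕ

abbrev R := (i : ℕ) × (Fin (i + 1) × L)

open Classical in
/-- density of the set U in the column (i, l) -/
noncomputable def d (i : ℕ) (l : L) (U : Set R) : ℝ :=
  (∑ j : Fin (i + 1), if (⟨i, (j, l)⟩ : R) ∈ U then (1 : ℝ) else 0) / (i + 1)

theorem ip (i : ℕ) : (0 : ℝ) < (i : ℝ) + 1 := by positivity

theorem d_nonneg (i : ℕ) (l : L) (U : Set R) : 0 ≤ d i l U := by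
  unfold d
  refine div_nonneg (Finset.sum_nonneg fun j _ => ?_) (ip i).le
  split_ifs <;> norm_num

theorem d_mono (i : ℕ) (l : L) {U V : Set R} (h : ∀ j, (⟨i, (j, l)⟩ : R) ∈ U → (⟨i, (j, l)⟩ : R) ∈ V) :
    d i l U ≤ d i l V := by
  unfold d
  refine div_le_div_of_nonneg_right (Finset.sum_le_sum fun j _ => ?_) (ip i).le
  by_cases h1 : (⟨i, (j, l)⟩ : R) ∈ U
  · simp [h1, h j h1]
  · simp only [h1, if_false]
    split_ifs <;> norm_num

theorem d_univ (i : ℕ) (l : L) : d i l Set.univ = 1 := by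
  unfold d
  simp only [Set.mem_univ, if_true, Finset.sum_const, Finset.card_univ, Fintype.card_fin, nsmul_eq_mul, mul_one]
  push_cast
  exact div_self (ip i).ne'

theorem d_empty (i : ℕ) (l : L) : d i l ∅ = 0 := by
  unfold d
  simp

theorem d_congr (i : ℕ) (l l' : L) (U V : Set R) (h : ∀ j, (⟨i, (j, l)⟩ : R) ∈ U ↔ (⟨i, (j, l')⟩ : R) ∈ V) :
    d i l U = d i l' V := by
  unfold d
  congr 1
  refine Finset.sum_congr rfl fun j _ => ?_
  by_cases h1 : (⟨i, (j, l)⟩ : R) ∈ U
  · simp [h1, (h j).mp h1]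
  · have h2 : (⟨i, (j, l')⟩ : R) ∉ V := fun h2 => h1 ((h j).mpr h2)
    simp [h1, h2]

theorem d_compl (i : ℕ) (l : L) (U : Set R) : d i l Uᶜ = 1 - d i l U := by
  have h : d i l Uᶜ + d i l U = d i l Set.univ := by
    unfold d
    rw [← add_div, ← Finset.sum_add_distrib]
    congr 1
    refine Finset.sum_congr rfl fun j _ => ?_
    by_cases h1 : (⟨i, (j, l)⟩ : R) ∈ U <;> simp [h1]
  rw [d_univ] at h
  linarith

theorem d_le_one (i : ℕ) (l : L) (U : Set R) : d i l U ≤ 1 := by
  have := d_nonneg i l Uᶜ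
  rw [d_compl] at this
  linarith

theorem d_union (i : ℕ) (l : L) (U V : Set R) : d i l (U ∪ V) ≤ d i l U + d i l V := by
  unfold d
  rw [← add_div, ← Finset.sum_add_distrib]
  refine div_le_div_of_nonneg_right (Finset.sum_le_sum fun j _ => ?_) (ip i).le
  by_cases h1 : (⟨i, (j, l)⟩ : R) ∈ U <;> by_cases h2 : (⟨i, (j, l)⟩ : R) ∈ V <;> simp [h1, h2]

theorem d_iUnion (i : ℕ) (l : L) (U : ℕ → Set R) (n : ℕ) :
    d i l (⋃ m ∈ Finset.range n, U m) ≤ ∑ m ∈ Finset.range n, d i l (U m) := by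
  induction n with
  | zero => simp [d_empty]
  | succ n ih =>
    rw [Finset.sum_range_succ]
    have : (⋃ m ∈ Finset.range (n + 1), U m) = (⋃ m ∈ Finset.range n, U m) ∪ U n := by
      ext x
      simp only [Finset.mem_range, Set.mem_iUnion, Set.mem_union, exists_prop]
      constructor
      · rintro ⟨m, hm, hx⟩
        rcases Nat.lt_succ_iff_lt_or_eq.mp hm with h | h
        · exact Or.inl ⟨m, h, hx⟩
        · exact Or.inr (h ▸ hx)
      · rintro (⟨m, hm, hx⟩ | hx)
        · exact ⟨m, by omega, hx⟩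
        · exact ⟨n, by omega, hx⟩
    rw [this]
    exact (d_union _ _ _ _).trans (by linarith)

/-- clopen traces on the columns -/
def Cl (U : Set R) : Prop := ∀ i (j : Fin (i + 1)), ∀ᶠ l : ℕ in atTop,
  ((⟨i, (j, (l : L))⟩ : R) ∈ U ↔ (⟨i, (j, ∞)⟩ : R) ∈ U)

/-- asymptotic zero-one law -/
def Law (U : Set R) : Prop := ∀ ε : ℝ, 0 < ε → ∀ᶠ i : ℕ in atTop, ∀ l : L, d i l U ≤ ε ∨ 1 - ε ≤ d i l U

def isB (U : Set R) : Prop := Cl U ∧ Law U

/-- small on the top columns -/
def isZ (U : Set R) : Prop := ∀ ε : ℝ, 0 < ε → ∀ᶠ i : ℕ in atTop, d i ∞ U ≤ ε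

theorem Cl.compl {U : Set R} (h : Cl U) : Cl Uᶜ := by
  intro i j
  filter_upwards [h i j] with l hl
  simp [hl]

theorem Cl.inter {U V : Set R} (h : Cl U) (h' : Cl V) : Cl (U ∩ V) := by
  intro i j
  filter_upwards [h i j, h' i j] with l hl hl'
  simp [hl, hl']

theorem Law.compl {U : Set R} (h : Law U) : Law Uᶜ := by
  intro ε hε
  filter_upwards [h ε hε] with i hi l
  rw [d_compl]
  rcases hi l with h1 | h1
  · right; linarith
  · left; linarith

theorem d_inter (i : ℕ) (l : L) (U V : Set R) : d i l U + d i l V - 1 ≤ d i l (U ∩ V) := by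
  have h1 := d_union i l Uᶜ Vᶜ
  rw [← Set.compl_inter, d_compl, d_compl, d_compl] at h1
  linarith

theorem Law.inter {U V : Set R} (h : Law U) (h' : Law V) : Law (U ∩ V) := by
  intro ε hε
  filter_upwards [h (ε / 2) (half_pos hε), h' (ε / 2) (half_pos hε)] with i hi hi' l
  rcases hi l with h1 | h1
  · left
    have := d_mono i l (U := U ∩ V) (V := U) (fun j hj => hj.1)
    linarith
  · rcases hi' l with h2 | h2
    · left
      have := d_mono i l (U := U ∩ V) (V := V) (fun j hj => hj.2)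
      linarith
    · right
      have := d_inter i l U V
      linarith

theorem isB.compl {U : Set R} (h : isB U) : isB Uᶜ := ⟨h.1.compl, h.2.compl⟩
theorem isB.inter {U V : Set R} (h : isB U) (h' : isB V) : isB (U ∩ V) := ⟨h.1.inter h'.1, h.2.inter h'.2⟩
theorem isB_univ : isB Set.univ := by
  refine ⟨fun i j => by simp, fun ε hε => ?_⟩
  filter_upwards with i l
  right; rw [d_univ]; linarith
theorem isB.union {U V : Set R} (h : isB U) (h' : isB V) : isB (U ∪ V) := by
  have := (h.compl.inter h'.compl).compl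
  rwa [Set.compl_inter, compl_compl, compl_compl] at this
theorem isB_empty : isB ∅ := by
  have := isB_univ.compl
  rwa [Set.compl_univ] at this

abbrev BB := {U : Set R // isB U}

/-- ultrafilter on the algebra -/
def Ult (z : BB → Bool) : Prop :=
  z ⟨Set.univ, isB_univ⟩ = true ∧
  (∀ U V : BB, z ⟨U.1 ∩ V.1, U.2.inter V.2⟩ = (z U && z V)) ∧
  (∀ U : BB, z ⟨U.1ᶜ, U.2.compl⟩ = !(z U))

theorem closed_Ult : IsClosed {z : BB → Bool | Ult z} := by
  have h1 : IsClosed {z : BB → Bool | z ⟨Set.univ, isB_univ⟩ = true} :=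
    isClosed_eq (continuous_apply _) continuous_const
  have h2 : IsClosed {z : BB → Bool | ∀ U V : BB, z ⟨U.1 ∩ V.1, U.2.inter V.2⟩ = (z U && z V)} := by
    simp only [Set.ofPred_forall]
    refine isClosed_iInter fun U => isClosed_iInter fun V => ?_
    refine isClosed_eq (continuous_apply _) ?_
    have hc : Continuous (fun p : Bool × Bool => p.1 && p.2) := continuous_of_discreteTopology
    have hc2 : Continuous (fun z : BB → Bool => (z U, z V)) :=
      (continuous_apply U).prodMk (continuous_apply V)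
    exact hc.comp hc2
  have h3 : IsClosed {z : BB → Bool | ∀ U : BB, z ⟨U.1ᶜ, U.2.compl⟩ = !(z U)} := by
    simp only [Set.ofPred_forall]
    refine isClosed_iInter fun U => ?_
    refine isClosed_eq (continuous_apply _) ?_
    have hc : Continuous (fun p : Bool => !p) := continuous_of_discreteTopology
    exact hc.comp (continuous_apply U)
  exact h1.inter (h2.inter h3)


namespace Ult

variable {z : BB → Bool} (hz : Ult z)
include hz

theorem inter (U V : BB) : z ⟨U.1 ∩ V.1, U.2.inter V.2⟩ = true ↔ z U = true ∧ z V = true := by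
  rw [hz.2.1 U V]; simp

theorem compl (U : BB) : z ⟨U.1ᶜ, U.2.compl⟩ = true ↔ z U = false := by
  rw [hz.2.2 U]; simp

theorem mono {U V : BB} (h : U.1 ⊆ V.1) (hU : z U = true) : z V = true := by
  have h1 : (⟨U.1 ∩ V.1, U.2.inter V.2⟩ : BB) = U := Subtype.ext (Set.inter_eq_left.mpr h)
  have h2 := (hz.inter U V).mp (by rw [h1]; exact hU)
  exact h2.2

theorem nonempty {U : BB} (hU : z U = true) : U.1.Nonempty := by
  by_contra h
  rw [Set.not_nonempty_iff_eq_empty] at h
  have h1 : (⟨(Set.univ : Set R)ᶜ, isB_univ.compl⟩ : BB) = U := Subtype.ext (by rw [h]; exact Set.compl_univ)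
  have h2 := hz.2.2 ⟨Set.univ, isB_univ⟩
  have h3 : z ⟨(Set.univ : Set R)ᶜ, isB_univ.compl⟩ = true := by rw [h1]; exact hU
  rw [h3, hz.1] at h2
  simp at h2

theorem union (U V : BB) : z ⟨U.1 ∪ V.1, U.2.union V.2⟩ = true ↔ z U = true ∨ z V = true := by
  constructor
  · intro h
    by_contra hcon
    push Not at hcon
    have h1 : z ⟨U.1ᶜ, U.2.compl⟩ = true := (hz.compl U).mpr (by simpa using hcon.1)
    have h2 : z ⟨V.1ᶜ, V.2.compl⟩ = true := (hz.compl V).mpr (by simpa using hcon.2)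
    have h3 := (hz.inter _ _).mpr ⟨h1, h2⟩
    have h4 := (hz.inter _ _).mpr ⟨h3, h⟩
    obtain ⟨x, hx⟩ := hz.nonempty h4
    simp only [Set.mem_inter_iff, Set.mem_compl_iff, Set.mem_union] at hx
    tauto
  · rintro (h | h)
    · exact hz.mono (U := U) Set.subset_union_left h
    · exact hz.mono (U := V) Set.subset_union_right h

end Ult

/-- functions that behave like filters on the algebra -/
def Fine (w : BB → Bool) : Prop := ∀ U V : BB, w V = true →
  (V.1 ⊆ U.1 → w U = true) ∧ (V.1 ⊆ U.1ᶜ → w U = false)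

theorem Ult.fine {z : BB → Bool} (hz : Ult z) : Fine z := by
  intro U V hV
  refine ⟨fun h => hz.mono h hV, fun h => ?_⟩
  rw [← hz.compl U]
  exact hz.mono (U := V) (V := ⟨U.1ᶜ, U.2.compl⟩) h hV

open Classical in
/-- majority function of a column -/
noncomputable def maj (i : ℕ) (l : L) (U : BB) : Bool := decide (1 / 2 < d i l U.1)

theorem maj_true {i : ℕ} {l : L} {U : BB} : maj i l U = true ↔ 1 / 2 < d i l U.1 := by
  simp [maj]

theorem maj_fine (i : ℕ) (l : L) : Fine (maj i l) := by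
  intro U V hV
  rw [maj_true] at hV
  constructor
  · intro h
    rw [maj_true]
    exact lt_of_lt_of_le hV (d_mono _ _ fun j hj => h hj)
  · intro h
    have h1 : d i l V.1 ≤ d i l U.1ᶜ := d_mono _ _ fun j hj => h hj
    rw [d_compl] at h1
    rw [← Bool.not_eq_true, maj_true]
    linarith

/-- finitely many coordinates of an ultrafilter are controlled by one -/
theorem one_set {z : BB → Bool} (hz : Ult z) (F : Finset BB) :
    ∃ V : BB, z V = true ∧ ∀ w : BB → Bool, Fine w → w V = true → ∀ U ∈ F, w U = z U := by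
  classical
  induction F using Finset.induction_on with
  | empty => exact ⟨⟨Set.univ, isB_univ⟩, hz.1, by simp⟩
  | insert U F hU ih =>
    obtain ⟨V, hV, hVF⟩ := ih
    rcases h : z U with _ | _
    · refine ⟨⟨V.1 ∩ U.1ᶜ, V.2.inter U.2.compl⟩, ?_, ?_⟩
      · exact (hz.inter V ⟨U.1ᶜ, U.2.compl⟩).mpr ⟨hV, (hz.compl U).mpr h⟩
      · intro w hw hwV U' hU'
        rcases Finset.mem_insert.mp hU' with rfl | hU'
        · rw [h]
          exact (hw U' _ hwV).2 Set.inter_subset_right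
        · exact hVF w hw ((hw V _ hwV).1 Set.inter_subset_left) U' hU'
    · refine ⟨⟨V.1 ∩ U.1, V.2.inter U.2⟩, ?_, ?_⟩
      · exact (hz.inter V U).mpr ⟨hV, h⟩
      · intro w hw hwV U' hU'
        rcases Finset.mem_insert.mp hU' with rfl | hU'
        · rw [h]
          exact (hw U' _ hwV).1 Set.inter_subset_right
        · exact hVF w hw ((hw V _ hwV).1 Set.inter_subset_left) U' hU'

/-- neighbourhoods of an ultrafilter in the product -/
theorem nhds_one {z : BB → Bool} (hz : Ult z) {O : Set (BB → Bool)} (hO : O ∈ 𝓝 z) :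
    ∃ V : BB, z V = true ∧ ∀ w : BB → Bool, Fine w → w V = true → w ∈ O := by
  rw [nhds_pi, Filter.mem_pi] at hO
  obtain ⟨I, hI, t, ht, hsub⟩ := hO
  obtain ⟨V, hV, hVF⟩ := one_set hz hI.toFinset
  refine ⟨V, hV, fun w hw hwV => hsub ?_⟩
  intro U hU
  have h1 : w U = z U := hVF w hw hwV U (by simpa using hU)
  rw [h1]
  exact mem_of_mem_nhds (ht U)

/-- the space X2 -/
abbrev X2 := {z : BB → Bool // Ult z ∧ ∃ U : BB, isZ U.1 ∧ z U = true}

theorem compact_hat (U : BB) (hU : isZ U.1) : IsCompact {z : X2 | z.1 U = true} := by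
  rw [Topology.IsEmbedding.subtypeVal.isCompact_iff]
  have h1 : Subtype.val '' {z : X2 | z.1 U = true} = {z : BB → Bool | Ult z} ∩ {z | z U = true} := by
    ext z
    constructor
    · rintro ⟨z, hz, rfl⟩
      exact ⟨z.2.1, hz⟩
    · rintro ⟨hz, hzU⟩
      exact ⟨⟨z, hz, U, hU, hzU⟩, hzU, rfl⟩
  rw [h1]
  exact (closed_Ult.inter (isClosed_eq (continuous_apply U) continuous_const)).isCompact

/-- neighbourhoods in X2 -/
theorem nhds_X2 (z : X2) {O : Set X2} (hO : O ∈ 𝓝 z) :
    ∃ V : BB, z.1 V = true ∧ ∀ w : X2, w.1 V = true → w ∈ O := by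
  rw [nhds_subtype_eq_comap, Filter.mem_comap] at hO
  obtain ⟨t, ht, hsub⟩ := hO
  obtain ⟨V, hV, hall⟩ := nhds_one z.2.1 ht
  exact ⟨V, hV, fun w hw => hsub (hall w.1 w.2.1.fine hw)⟩


theorem Cl_of_indep {U : Set R} (h : ∀ i (j : Fin (i + 1)) (l l' : L), (⟨i, (j, l)⟩ : R) ∈ U → (⟨i, (j, l')⟩ : R) ∈ U) :
    Cl U := by
  intro i j
  filter_upwards with l
  exact ⟨h i j _ _, h i j _ _⟩

theorem small_isB {U : Set R} (h : Cl U) (hd : ∀ ε : ℝ, 0 < ε → ∀ᶠ i : ℕ in atTop, ∀ l : L, d i l U ≤ ε) :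
    isB U ∧ isZ U := by
  refine ⟨⟨h, fun ε hε => ?_⟩, fun ε hε => ?_⟩
  · filter_upwards [hd ε hε] with i hi l
    exact Or.inl (hi l)
  · filter_upwards [hd ε hε] with i hi
    exact hi _

theorem d_zero {i : ℕ} {l : L} {U : Set R} (h : ∀ j, (⟨i, (j, l)⟩ : R) ∉ U) : d i l U = 0 := by
  unfold d
  simp [h]

theorem Rlt_aux (k : ℕ) : isB {r : R | r.1 < k} ∧ isZ {r : R | r.1 < k} := by
  apply small_isB
  · exact Cl_of_indep fun i j l l' h => h
  · intro ε hε
    filter_upwards [eventually_ge_atTop k] with i hi l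
    rw [d_zero]
    · exact hε.le
    · intro j hj
      simp only [Set.mem_ofPred_eq] at hj
      omega

def Rlt (k : ℕ) : BB := ⟨{r : R | r.1 < k}, (Rlt_aux k).1⟩

/-- rows with natural number index below m in level i -/
theorem low_aux (i m : ℕ) : isB {r : R | r.1 = i ∧ (r.2.1 : ℕ) < m} ∧ isZ {r : R | r.1 = i ∧ (r.2.1 : ℕ) < m} := by
  apply small_isB
  · exact Cl_of_indep fun i j l l' h => h
  · intro ε hε
    filter_upwards [eventually_ge_atTop (i + 1)] with i' hi l
    rw [d_zero]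
    · exact hε.le
    · intro j hj
      simp only [Set.mem_ofPred_eq] at hj
      omega

theorem row_aux (i m : ℕ) : isB {r : R | r.1 = i ∧ (r.2.1 : ℕ) = m} ∧ isZ {r : R | r.1 = i ∧ (r.2.1 : ℕ) = m} := by
  apply small_isB
  · exact Cl_of_indep fun i j l l' h => h
  · intro ε hε
    filter_upwards [eventually_ge_atTop (i + 1)] with i' hi l
    rw [d_zero]
    · exact hε.le
    · intro j hj
      simp only [Set.mem_ofPred_eq] at hj
      omega

theorem find_level {z : BB → Bool} (hz : Ult z) (k : ℕ) (h : z (Rlt k) = true) :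
    ∃ i j : ℕ, z ⟨_, (row_aux i j).1⟩ = true := by
  induction k with
  | zero =>
    obtain ⟨r, hr⟩ := hz.nonempty h
    simp [Rlt] at hr
  | succ k ih =>
    have h1 : z ⟨(Rlt k).1 ∪ {r : R | r.1 = k ∧ (r.2.1 : ℕ) < k + 1}, (Rlt k).2.union (low_aux k (k + 1)).1⟩ = true := by
      refine hz.mono (U := Rlt (k + 1)) ?_ h
      rintro ⟨i, j, l⟩ hr
      simp only [Rlt, Set.mem_ofPred_eq, Set.mem_union] at hr ⊢
      rcases Nat.lt_succ_iff_lt_or_eq.mp hr with h | h
      · exact Or.inl h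
      · subst h
        exact Or.inr ⟨rfl, j.2⟩
    rcases (hz.union (Rlt k) ⟨_, (low_aux k (k + 1)).1⟩).mp h1 with h2 | h2
    · exact ih h2
    · have h3 : ∀ m, z ⟨_, (low_aux k m).1⟩ = true → ∃ j : ℕ, z ⟨_, (row_aux k j).1⟩ = true := by
        intro m
        induction m with
        | zero =>
          intro h
          obtain ⟨r, hr⟩ := hz.nonempty h
          simp at hr
        | succ m ih =>
          intro h
          have h1 : z ⟨{r : R | r.1 = k ∧ (r.2.1 : ℕ) < m} ∪ {r : R | r.1 = k ∧ (r.2.1 : ℕ) = m},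
              (low_aux k m).1.union (row_aux k m).1⟩ = true := by
            refine hz.mono (U := ⟨_, (low_aux k (m + 1)).1⟩) ?_ h
            rintro r hr
            simp only [Set.mem_ofPred_eq, Set.mem_union] at hr ⊢
            rcases Nat.lt_succ_iff_lt_or_eq.mp hr.2 with h | h
            · exact Or.inl ⟨hr.1, h⟩
            · exact Or.inr ⟨hr.1, h⟩
          rcases (hz.union ⟨_, (low_aux k m).1⟩ ⟨_, (row_aux k m).1⟩).mp h1 with h2 | h2
          · exact ih h2
          · exact ⟨m, h2⟩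
      obtain ⟨j, hj⟩ := h3 _ h2
      exact ⟨k, j, hj⟩

theorem sigma_union (U : ℕ → BB) (hU : ∀ n, isZ (U n).1) :
    ∃ V : BB, isZ V.1 ∧ ∀ z : BB → Bool, Ult z → (∀ k, z (Rlt k) = false) → ∀ n, z (U n) = true → z V = true := by
  have h1 : ∀ n : ℕ, ∀ᶠ k in atTop, ∀ i ≥ k, ∀ m ∈ Finset.range (n + 1),
      (∀ l : L, d i l (U m).1 ≤ 1 / ((n : ℝ) + 1) ^ 2 ∨ 1 - 1 / ((n : ℝ) + 1) ^ 2 ≤ d i l (U m).1) ∧
      d i ∞ (U m).1 ≤ 1 / ((n : ℝ) + 1) ^ 2 := by
    intro n
    have hpos : (0 : ℝ) < 1 / ((n : ℝ) + 1) ^ 2 := by positivity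
    have h2 : ∀ᶠ i in atTop, ∀ m ∈ Finset.range (n + 1),
        (∀ l : L, d i l (U m).1 ≤ 1 / ((n : ℝ) + 1) ^ 2 ∨ 1 - 1 / ((n : ℝ) + 1) ^ 2 ≤ d i l (U m).1) ∧
        d i ∞ (U m).1 ≤ 1 / ((n : ℝ) + 1) ^ 2 := by
      rw [Filter.eventually_all_finset]
      intro m _
      exact ((U m).2.2 _ hpos).and (hU m _ hpos)
    obtain ⟨N, hN⟩ := Filter.eventually_atTop.mp h2
    filter_upwards [eventually_ge_atTop N] with k hk i hi
    exact hN i (hk.trans hi)
  obtain ⟨k, hk, hkP⟩ := Filter.extraction_forall_of_eventually h1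
  let V : Set R := {r | ∃ n, k n ≤ r.1 ∧ r ∈ (U n).1}
  have hkn : ∀ n, n ≤ k n := fun n => hk.le_apply
  have hCl : Cl V := by
    intro i j
    have h2 : ∀ᶠ l : ℕ in atTop, ∀ n ∈ Finset.range (i + 1),
        ((⟨i, (j, (l : L))⟩ : R) ∈ (U n).1 ↔ (⟨i, (j, ∞)⟩ : R) ∈ (U n).1) := by
      rw [Filter.eventually_all_finset]
      intro n _
      exact (U n).2.1 i j
    filter_upwards [h2] with l hl
    constructor
    · rintro ⟨n, hn, hr⟩
      refine ⟨n, hn, (hl n ?_).mp hr⟩
      simp only [Finset.mem_range]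
      have : n ≤ i := (hkn n).trans hn
      omega
    · rintro ⟨n, hn, hr⟩
      refine ⟨n, hn, (hl n ?_).mpr hr⟩
      simp only [Finset.mem_range]
      have : n ≤ i := (hkn n).trans hn
      omega
  have hmain : ∀ n0 : ℕ, ∀ i ≥ k n0, (∀ l : L, d i l V ≤ 1 / ((n0 : ℝ) + 1) ∨ 1 - 1 / ((n0 : ℝ) + 1) ≤ d i l V) ∧
      d i ∞ V ≤ 1 / ((n0 : ℝ) + 1) := by
    classical
    intro n0 i hi
    let n := Nat.findGreatest (fun m => k m ≤ i) i
    have hn0i : n0 ≤ i := (hkn n0).trans hi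
    have hn : k n ≤ i := Nat.findGreatest_spec (P := fun m => k m ≤ i) hn0i hi
    have hmax : ∀ m, k m ≤ i → m ≤ n := fun m hm =>
      Nat.le_findGreatest (P := fun m => k m ≤ i) ((hkn m).trans hm) hm
    have hn0 : n0 ≤ n := hmax n0 hi
    have hG := hkP n i hn
    have hsub : ∀ l : L, d i l V ≤ ∑ m ∈ Finset.range (n + 1), d i l (U m).1 := by
      intro l
      refine le_trans (d_mono i l ?_) (d_iUnion i l (fun m => (U m).1) (n + 1))
      rintro j ⟨m, hm, hr⟩
      simp only [Set.mem_iUnion, Finset.mem_range, exists_prop]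
      exact ⟨m, Nat.lt_succ_of_le (hmax m hm), hr⟩
    have hle : 1 / ((n : ℝ) + 1) ≤ 1 / ((n0 : ℝ) + 1) := by
      apply one_div_le_one_div_of_le (by positivity)
      have : (n0 : ℝ) ≤ n := by exact_mod_cast hn0
      linarith
    have hsum : ∀ l : L, (∀ m ∈ Finset.range (n + 1), d i l (U m).1 ≤ 1 / ((n : ℝ) + 1) ^ 2) →
        d i l V ≤ 1 / ((n0 : ℝ) + 1) := by
      intro l hl
      have h2 := (hsub l).trans (Finset.sum_le_sum hl)
      rw [Finset.sum_const, Finset.card_range, nsmul_eq_mul] at h2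
      have h3 : ((n + 1 : ℕ) : ℝ) * (1 / ((n : ℝ) + 1) ^ 2) = 1 / ((n : ℝ) + 1) := by
        push_cast
        field_simp
      rw [h3] at h2
      linarith
    constructor
    · intro l
      by_cases hc : ∃ m ∈ Finset.range (n + 1), 1 - 1 / ((n : ℝ) + 1) ^ 2 ≤ d i l (U m).1
      · right
        obtain ⟨m, hm, hd⟩ := hc
        by_cases hkm : k m ≤ i
        · have h2 : d i l (U m).1 ≤ d i l V := d_mono i l fun j hj => ⟨m, hkm, hj⟩
          have h3 : 1 / ((n : ℝ) + 1) ^ 2 ≤ 1 / ((n : ℝ) + 1) := by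
            apply one_div_le_one_div_of_le (by positivity)
            have : (1 : ℝ) ≤ (n : ℝ) + 1 := by
              have : (0 : ℝ) ≤ n := Nat.cast_nonneg n
              linarith
            nlinarith
          linarith
        · exfalso
          apply hkm
          have : m ≤ n := Nat.lt_succ_iff.mp (Finset.mem_range.mp hm)
          exact (hk.monotone this).trans hn
      · left
        push Not at hc
        apply hsum l
        intro m hm
        rcases (hG m hm).1 l with h | h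
        · exact h
        · exact absurd h (not_le.mpr (hc m hm))
    · apply hsum
      intro m hm
      exact (hG m hm).2
  have harch : ∀ ε : ℝ, 0 < ε → ∃ n0 : ℕ, 1 / ((n0 : ℝ) + 1) < ε := fun ε hε => exists_nat_one_div_lt hε
  have hLaw : Law V := by
    intro ε hε
    obtain ⟨n0, hn0⟩ := harch ε hε
    filter_upwards [eventually_ge_atTop (k n0)] with i hi l
    rcases (hmain n0 i hi).1 l with h | h
    · left; linarith
    · right; linarith
  have hZ : isZ V := by
    intro ε hε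
    obtain ⟨n0, hn0⟩ := harch ε hε
    filter_upwards [eventually_ge_atTop (k n0)] with i hi
    have := (hmain n0 i hi).2
    linarith
  refine ⟨⟨V, hCl, hLaw⟩, hZ, ?_⟩
  intro z hz hfree n hn
  have h2 : z ⟨(U n).1 ∩ (Rlt (k n)).1ᶜ, (U n).2.inter (Rlt (k n)).2.compl⟩ = true :=
    (hz.inter (U n) ⟨(Rlt (k n)).1ᶜ, (Rlt (k n)).2.compl⟩).mpr ⟨hn, (hz.compl _).mpr (hfree _)⟩
  refine hz.mono (V := ⟨V, hCl, hLaw⟩) ?_ h2
  rintro r ⟨hr1, hr2⟩
  refine ⟨n, ?_, hr1⟩
  simp only [Rlt, Set.mem_compl_iff, Set.mem_ofPred_eq, not_lt] at hr2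
  exact hr2


theorem cluster_of_frequently (u : ℕ → X2) (U : BB) (hU : isZ U.1) (h : ∃ᶠ n in atTop, (u n).1 U = true) :
    ∃ x : X2, MapClusterPt x atTop u := by
  obtain ⟨x, -, hx⟩ := (compact_hat U hU).exists_mapClusterPt_of_frequently (l := atTop) (f := u) h
  exact ⟨x, hx⟩

theorem X2_cc (u : ℕ → X2) : ∃ x : X2, MapClusterPt x atTop u := by
  by_cases h1 : ∃ k, ∃ᶠ n in atTop, (u n).1 (Rlt k) = true
  · obtain ⟨k, hk⟩ := h1
    exact cluster_of_frequently u (Rlt k) (Rlt_aux k).2 hk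
  push Not at h1
  simp only [Bool.not_eq_true] at h1
  by_cases h2 : ∃ᶠ n in atTop, ∀ k, (u n).1 (Rlt k) = false
  · choose U hU hUz using fun n => (u n).2.2
    obtain ⟨V, hV, hall⟩ := sigma_union U hU
    refine cluster_of_frequently u V hV (h2.mono fun n hn => hall _ (u n).2.1 hn n (hUz n))
  rw [Filter.not_frequently] at h2
  push Not at h2
  simp only [ne_eq, Bool.not_eq_false] at h2
  -- eventually the points lie in rows
  have h3 : ∀ n, ∃ p : ℕ × ℕ, (∃ k, (u n).1 (Rlt k) = true) → (u n).1 ⟨_, (row_aux p.1 p.2).1⟩ = true := by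
    intro n
    by_cases h : ∃ k, (u n).1 (Rlt k) = true
    · obtain ⟨k, hk⟩ := h
      obtain ⟨i, j, hij⟩ := find_level (u n).2.1 k hk
      exact ⟨(i, j), fun _ => hij⟩
    · exact ⟨(0, 0), fun h' => absurd h' h⟩
  choose p hp using h3
  obtain ⟨N, hN⟩ := Filter.eventually_atTop.mp h2
  have hrow : ∀ n ≥ N, (u n).1 ⟨_, (row_aux (p n).1 (p n).2).1⟩ = true := fun n hn => hp n (hN n hn)
  have htend : Tendsto (fun n => (p n).1) atTop atTop := by
    rw [Filter.tendsto_atTop]
    intro k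
    filter_upwards [h1 k, eventually_ge_atTop N] with n hn hnN
    by_contra hlt
    push Not at hlt
    have : (u n).1 (Rlt k) = true := by
      refine (u n).2.1.mono ?_ (hrow n hnN)
      rintro r ⟨hr1, hr2⟩
      simp only [Rlt, Set.mem_ofPred_eq]
      omega
    rw [this] at hn
    exact Bool.noConfusion hn
  obtain ⟨φ, hφ, hφ2⟩ := Filter.strictMono_subseq_of_tendsto_atTop htend
  let V : Set R := {r | ∃ m, r.1 = (p (φ m)).1 ∧ (r.2.1 : ℕ) = (p (φ m)).2}
  have hV : isB V ∧ isZ V := by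
    apply small_isB
    · exact Cl_of_indep fun i j l l' h => h
    · intro ε hε
      obtain ⟨n0, hn0⟩ := exists_nat_one_div_lt hε
      filter_upwards [eventually_ge_atTop n0] with i hi l
      have hd : d i l V ≤ 1 / ((i : ℝ) + 1) := by
        unfold d
        apply div_le_div_of_nonneg_right _ (ip i).le
        by_cases hc : ∃ m, i = (p (φ m)).1
        · obtain ⟨m, hm⟩ := hc
          have h4 : ∀ j : Fin (i + 1), (⟨i, (j, l)⟩ : R) ∈ V → (j : ℕ) = (p (φ m)).2 := by
            rintro j ⟨m', hm', hj⟩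
            have h5 : m = m' := hφ2.injective (hm.symm.trans hm')
            subst h5
            exact hj
          by_cases hj0 : ∃ j : Fin (i + 1), (⟨i, (j, l)⟩ : R) ∈ V
          · obtain ⟨j0, hj0⟩ := hj0
            rw [Finset.sum_eq_single j0]
            · rw [if_pos hj0]
            · intro j _ hne
              rw [if_neg]
              intro hj
              exact hne (Fin.ext ((h4 j hj).trans (h4 j0 hj0).symm))
            · simp
          · push Not at hj0
            rw [Finset.sum_eq_zero]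
            · norm_num
            · intro j _
              rw [if_neg (hj0 j)]
        · rw [Finset.sum_eq_zero]
          · norm_num
          · intro j _
            rw [if_neg]
            rintro ⟨m, hm, -⟩
            exact hc ⟨m, hm⟩
      have hle : 1 / ((i : ℝ) + 1) ≤ 1 / ((n0 : ℝ) + 1) := by
        apply one_div_le_one_div_of_le (by positivity)
        have : (n0 : ℝ) ≤ i := by exact_mod_cast hi
        linarith
      linarith
  refine cluster_of_frequently u ⟨V, hV.1⟩ hV.2 ?_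
  rw [Filter.frequently_atTop]
  intro M
  refine ⟨φ (max M N), le_trans (le_max_left M N) hφ.le_apply, ?_⟩
  refine (u _).2.1.mono ?_ (hrow (φ (max M N)) (le_trans (le_max_right M N) hφ.le_apply))
  rintro r ⟨hr1, hr2⟩
  exact ⟨_, hr1, hr2⟩

theorem X2_bdd (f : X2 → ℝ) (hf : Continuous f) : ∃ M : ℝ, ∀ z, |f z| ≤ M := by
  by_contra hcon
  push Not at hcon
  choose u hu using fun n : ℕ => hcon n
  obtain ⟨x, hx⟩ := X2_cc u
  have h1 : MapClusterPt (f x) atTop (f ∘ u) := hx.continuousAt_comp hf.continuousAt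
  rw [mapClusterPt_iff_frequently] at h1
  have h2 := h1 (Metric.ball (f x) 1) (Metric.ball_mem_nhds _ one_pos)
  obtain ⟨N, hN⟩ := exists_nat_gt (|f x| + 1)
  obtain ⟨n, hn, hnN⟩ := (h2.and_eventually (eventually_ge_atTop N)).exists
  have h3 := hu n
  have h4 : |f (u n) - f x| < 1 := hn
  have h5 := abs_sub_abs_le_abs_sub (f (u n)) (f x)
  have h6 : (N : ℝ) ≤ n := by exact_mod_cast hnN
  linarith


open Classical in
noncomputable def iota (r : R) : X2 := ⟨fun U => decide (r ∈ U.1), by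
  refine ⟨⟨?_, ?_, ?_⟩, ⟨Rlt (r.1 + 1), (Rlt_aux _).2, ?_⟩⟩
  · simp
  · intro U V
    by_cases h1 : r ∈ U.1 <;> by_cases h2 : r ∈ V.1 <;> simp [h1, h2]
  · intro U
    by_cases h1 : r ∈ U.1 <;> simp [h1]
  · simp [Rlt]⟩

theorem iota_apply (r : R) (U : BB) : (iota r).1 U = true ↔ r ∈ U.1 := by
  simp [iota]

theorem cont_bool_L {f : L → Bool} (h : ∀ᶠ l : ℕ in atTop, f (l : L) = f ∞) : Continuous f := by
  rw [OnePoint.continuous_iff_from_nat]
  exact tendsto_const_nhds.congr' (h.mono fun l hl => hl.symm)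

theorem cont_iota (i : ℕ) (j : Fin (i + 1)) : Continuous (fun l : L => iota ⟨i, (j, l)⟩) := by
  refine Continuous.subtype_mk (continuous_pi fun U => ?_) _
  apply cont_bool_L
  filter_upwards [U.2.1 i j] with l hl
  by_cases h : (⟨i, (j, ∞)⟩ : R) ∈ U.1
  · simp [h, hl.mpr h]
  · have : (⟨i, (j, (l : L))⟩ : R) ∉ U.1 := fun h' => h (hl.mp h')
    simp [h, this]

theorem d_ev (U : BB) (i : ℕ) : ∀ᶠ l : ℕ in atTop, d i (l : L) U.1 = d i ∞ U.1 := by
  have h : ∀ᶠ l : ℕ in atTop, ∀ j : Fin (i + 1), ((⟨i, (j, (l : L))⟩ : R) ∈ U.1 ↔ (⟨i, (j, ∞)⟩ : R) ∈ U.1) := by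
    rw [Filter.eventually_all]
    intro j
    exact U.2.1 i j
  filter_upwards [h] with l hl
  exact d_congr i _ _ _ _ hl

theorem cont_maj (i : ℕ) : Continuous (fun l : L => maj i l) := by
  refine continuous_pi fun U => cont_bool_L ?_
  filter_upwards [d_ev U i] with l hl
  simp [maj, hl]

noncomputable def avg (i : ℕ) (l : L) (f : X2 → ℝ) : ℝ := (∑ j : Fin (i + 1), f (iota ⟨i, (j, l)⟩)) / (i + 1)

theorem cont_avg (i : ℕ) {f : X2 → ℝ} (hf : Continuous f) : Continuous (fun l : L => avg i l f) := by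
  unfold avg
  refine Continuous.div_const (continuous_finsetSum _ fun j _ => hf.comp (cont_iota i j)) _

theorem avg_close {i : ℕ} {l : L} {f : X2 → ℝ} {c ε M δ : ℝ} (V : BB)
    (h1 : ∀ w : X2, w.1 V = true → |f w - c| ≤ ε) (hε : 0 ≤ ε) (h2 : ∀ w : X2, |f w - c| ≤ M) (hM : 0 ≤ M)
    (h3 : 1 - δ ≤ d i l V.1) : |avg i l f - c| ≤ ε + M * δ := by
  have e1 : avg i l f - c = (∑ j : Fin (i + 1), (f (iota ⟨i, (j, l)⟩) - c)) / (i + 1) := by
    unfold avg
    rw [Finset.sum_sub_distrib, sub_div, Finset.sum_const, Finset.card_univ, Fintype.card_fin, nsmul_eq_mul]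
    have := (ip i).ne'
    push_cast
    field_simp
  rw [e1, abs_div, abs_of_pos (ip i)]
  have e2 : ∀ j : Fin (i + 1), |f (iota ⟨i, (j, l)⟩) - c| ≤ ε + M * (by classical exact if (⟨i, (j, l)⟩ : R) ∈ V.1ᶜ then (1 : ℝ) else 0) := by
    intro j
    by_cases h : (⟨i, (j, l)⟩ : R) ∈ V.1
    · have h4 := h1 (iota ⟨i, (j, l)⟩) ((iota_apply _ _).mpr h)
      simp only [Set.mem_compl_iff, h, not_true_eq_false, if_false, mul_zero, add_zero]
      exact h4
    · have h4 := h2 (iota ⟨i, (j, l)⟩)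
      simp only [Set.mem_compl_iff, h, not_false_eq_true, if_true, mul_one]
      linarith
  have e3 : (∑ j : Fin (i + 1), |f (iota ⟨i, (j, l)⟩) - c|) / ((i : ℝ) + 1) ≤ ε + M * d i l V.1ᶜ := by
    have e4 : ε + M * d i l V.1ᶜ = (∑ j : Fin (i + 1), (ε + M * (by classical exact if (⟨i, (j, l)⟩ : R) ∈ V.1ᶜ then (1 : ℝ) else 0))) / ((i : ℝ) + 1) := by
      unfold d
      rw [Finset.sum_add_distrib, ← Finset.mul_sum, Finset.sum_const, Finset.card_univ, Fintype.card_fin, nsmul_eq_mul]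
      have := (ip i).ne'
      push_cast
      field_simp
      refine congrArg _ (congrArg _ (Finset.sum_congr rfl fun j _ => ?_))
      by_cases h : (⟨i, (j, l)⟩ : R) ∈ V.1ᶜ
      · rw [if_pos h, if_pos h]
      · rw [if_neg h, if_neg h]
    rw [e4]
    exact div_le_div_of_nonneg_right (Finset.sum_le_sum fun j _ => e2 j) (ip i).le
  have e5 : |∑ j : Fin (i + 1), (f (iota ⟨i, (j, l)⟩) - c)| / ((i : ℝ) + 1) ≤
      (∑ j : Fin (i + 1), |f (iota ⟨i, (j, l)⟩) - c|) / ((i : ℝ) + 1) :=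
    div_le_div_of_nonneg_right (Finset.abs_sum_le_sum_abs _ _) (ip i).le
  rw [d_compl] at e3
  have e6 : M * (1 - d i l V.1) ≤ M * δ := mul_le_mul_of_nonneg_left (by linarith) hM
  linarith

abbrev X1 := OnePoint (ℕ × L)

abbrev Y2 := {p : (BB → Bool) × X1 // (p.2 = (∞ : X1) ∧ (Ult p.1 ∧ ∃ U : BB, isZ U.1 ∧ p.1 U = true)) ∨
  ∃ (i : ℕ) (l : L), p.2 = ((i, l) : ℕ × L) ∧ p.1 = maj i l}

def ee (z : X2) : Y2 := ⟨(z.1, ∞), Or.inl ⟨rfl, z.2⟩⟩

theorem cont_ee : Continuous ee := by
  unfold ee; fun_prop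

noncomputable def yy (i : ℕ) (l : L) : Y2 := ⟨(maj i l, ((i, l) : ℕ × L)), Or.inr ⟨i, l, rfl, rfl⟩⟩

theorem cont_yy (i : ℕ) : Continuous (fun l : L => yy i l) := by
  unfold yy
  refine Continuous.subtype_mk ?_ _
  refine (cont_maj i).prodMk ?_
  exact OnePoint.continuous_coe.comp (continuous_const.prodMk continuous_id)

theorem cases_Y2 (q : Y2) : (∃ z : X2, q = ee z) ∨ ∃ i l, q = yy i l := by
  obtain ⟨⟨z, t⟩, h | ⟨i, l, h1, h2⟩⟩ := q
  · left
    obtain ⟨h1, h2⟩ := h
    simp only at h1 h2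
    subst h1
    exact ⟨⟨z, h2⟩, rfl⟩
  · right
    simp only at h1 h2
    subst h1
    subst h2
    exact ⟨i, l, rfl⟩

/-- tail open set in X1 -/
theorem isOpen_tail (n : ℕ) : IsOpen ((OnePoint.some '' ((Set.Iio n) ×ˢ (Set.univ : Set L)))ᶜ : Set X1) := by
  rw [OnePoint.isOpen_compl_image_coe]
  exact ⟨(isClosed_discrete _).prod isClosed_univ, (Set.finite_Iio n).isCompact.prod isCompact_univ⟩

theorem isOpen_lev (i : ℕ) : IsOpen (OnePoint.some '' (({i} : Set ℕ) ×ˢ (Set.univ : Set L)) : Set X1) := by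
  rw [OnePoint.isOpen_image_coe]
  exact (isOpen_discrete _).prod isOpen_univ

theorem nhds_Y2 (z : X2) {O : Set Y2} (hO : O ∈ 𝓝 (ee z)) :
    ∃ V : BB, z.1 V = true ∧ ∃ n : ℕ, (∀ w : X2, w.1 V = true → ee w ∈ O) ∧
      ∀ i ≥ n, ∀ l : L, maj i l V = true → yy i l ∈ O := by
  unfold ee at hO
  rw [nhds_subtype_eq_comap, Filter.mem_comap] at hO
  obtain ⟨t, ht, hsub⟩ := hO
  rw [nhds_prod_eq, Filter.mem_prod_iff] at ht
  obtain ⟨V1, hV1, V2, hV2, hV⟩ := ht
  obtain ⟨V, hzV, hall⟩ := nhds_one z.2.1 hV1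
  obtain ⟨s, ⟨hs1, hs2⟩, hsV⟩ := (OnePoint.hasBasis_nhds_infty.mem_iff).mp hV2
  have hfin : (Prod.fst '' s : Set ℕ).Finite := (hs2.image continuous_fst).finite_of_discrete
  obtain ⟨n, hn⟩ := hfin.bddAbove
  refine ⟨V, hzV, n + 1, ?_, ?_⟩
  · intro w hw
    apply hsub
    exact hV ⟨hall w.1 w.2.1.fine hw, hsV (Or.inr rfl)⟩
  · intro i hi l hl
    apply hsub
    refine hV ⟨hall _ (maj_fine i l) hl, hsV (Or.inl ⟨(i, l), ?_, rfl⟩)⟩
    intro hmem
    have : i ≤ n := hn ⟨(i, l), hmem, rfl⟩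
    omega

theorem contY2 (G : Y2 → ℝ) (ha : Continuous (fun z => G (ee z))) (hb : ∀ i, Continuous (fun l => G (yy i l)))
    (hc : ∀ z : X2, ∀ ε : ℝ, 0 < ε → ∃ V : BB, z.1 V = true ∧ ∃ n : ℕ, ∀ i ≥ n, ∀ l : L, maj i l V = true →
      |G (yy i l) - G (ee z)| < ε) : Continuous G := by
  rw [continuous_iff_continuousAt]
  intro q
  rcases cases_Y2 q with ⟨z, rfl⟩ | ⟨i, l, rfl⟩
  · rw [Metric.continuousAt_iff']
    intro ε hε
    obtain ⟨V1, hV1, hw1⟩ := nhds_X2 z (ha.continuousAt (Metric.ball_mem_nhds _ hε))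
    obtain ⟨V2, hV2, n, hn⟩ := hc z ε hε
    have hO : IsOpen {q : Y2 | q.1.1 ⟨V1.1 ∩ V2.1, V1.2.inter V2.2⟩ = true ∧
        q.1.2 ∈ ((OnePoint.some '' ((Set.Iio n) ×ˢ (Set.univ : Set L)))ᶜ : Set X1)} := by
      have h1 : Continuous (fun q : Y2 => q.1.1 ⟨V1.1 ∩ V2.1, V1.2.inter V2.2⟩) :=
        (continuous_apply _).comp (continuous_fst.comp continuous_subtype_val)
      have h2 : IsOpen {q : Y2 | q.1.1 ⟨V1.1 ∩ V2.1, V1.2.inter V2.2⟩ = true} :=
        (isOpen_discrete {true}).preimage h1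
      exact h2.inter ((isOpen_tail n).preimage (continuous_snd.comp continuous_subtype_val))
    refine Filter.eventually_of_mem (hO.mem_nhds ⟨?_, ?_⟩) ?_
    · exact (z.2.1.inter V1 V2).mpr ⟨hV1, hV2⟩
    · rintro ⟨t, -, ht⟩
      exact OnePoint.coe_ne_infty t ht
    · rintro q ⟨hq1, hq2⟩
      rcases cases_Y2 q with ⟨w, rfl⟩ | ⟨i, l, rfl⟩
      · exact hw1 w ((w.2.1.inter V1 V2).mp hq1).1
      · rw [Real.dist_eq]
        apply hn i
        · by_contra hlt
          push Not at hlt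
          exact hq2 ⟨(i, l), ⟨hlt, trivial⟩, rfl⟩
        · exact (maj_fine i l V2 _ hq1).1 Set.inter_subset_right
  · let sn : X1 → L := fun t => t.elim ∞ Prod.snd
    have h1 : ContinuousAt sn (((i, l) : ℕ × L) : X1) := by
      rw [OnePoint.continuousAt_coe]
      exact continuous_snd.continuousAt
    have h2 : ContinuousAt (fun q : Y2 => sn q.1.2) (yy i l) :=
      ContinuousAt.comp (f := fun q : Y2 => q.1.2) (x := yy i l) h1
        (continuous_snd.comp continuous_subtype_val).continuousAt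
    have h3 : ContinuousAt (fun q : Y2 => G (yy i (sn q.1.2))) (yy i l) :=
      ContinuousAt.comp (f := fun q : Y2 => sn q.1.2) (x := yy i l) (hb i).continuousAt h2
    refine h3.congr ?_
    have hO : IsOpen {q : Y2 | q.1.2 ∈ (OnePoint.some '' (({i} : Set ℕ) ×ˢ (Set.univ : Set L)) : Set X1)} :=
      (isOpen_lev i).preimage (continuous_snd.comp continuous_subtype_val)
    refine Filter.eventually_of_mem (hO.mem_nhds ⟨(i, l), ⟨rfl, trivial⟩, rfl⟩) ?_
    rintro q ⟨⟨i', l'⟩, ⟨hi', -⟩, hq⟩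
    rcases cases_Y2 q with ⟨w, rfl⟩ | ⟨i2, l2, rfl⟩
    · exact absurd hq (OnePoint.coe_ne_infty _)
    · simp only [Set.mem_singleton_iff] at hi'
      simp only [yy, OnePoint.coe_eq_coe, Prod.mk.injEq] at hq
      obtain ⟨h4, h5⟩ := hq
      subst h4
      subst hi'
      rfl


noncomputable def pmk (z : BB → Bool) (hz : Ult z ∧ ∃ U : BB, isZ U.1 ∧ z U = true) : X2 := ⟨z, hz⟩

open Classical in
/-- function on Y2 built from a function on X2 and a function on the columns -/
noncomputable def glue (f2 : X2 → ℝ) (h : ℕ × L → ℝ) (q : Y2) : ℝ :=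
  q.1.2.elim (if hz : (Ult q.1.1 ∧ ∃ U : BB, isZ U.1 ∧ q.1.1 U = true) then f2 ⟨q.1.1, hz⟩ else 0) h

theorem glue_ee (f2 : X2 → ℝ) (h : ℕ × L → ℝ) (z : X2) : glue f2 h (ee z) = f2 z := by
  unfold glue ee
  simp only [OnePoint.elim_infty]
  rw [dif_pos z.2]

theorem glue_yy (f2 : X2 → ℝ) (h : ℕ × L → ℝ) (i : ℕ) (l : L) : glue f2 h (yy i l) = h (i, l) := rfl

theorem X1_small (f : X1 → ℝ) (hf : Continuous f) {ε : ℝ} (hε : 0 < ε) :
    ∃ n : ℕ, ∀ i ≥ n, ∀ l : L, |f (((i, l) : ℕ × L) : X1) - f ∞| < ε := by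
  have h1 := hf.continuousAt (x := (∞ : X1)) (Metric.ball_mem_nhds _ hε)
  rw [Filter.mem_map] at h1
  obtain ⟨s, ⟨hs1, hs2⟩, hsV⟩ := (OnePoint.hasBasis_nhds_infty.mem_iff).mp h1
  have hfin : (Prod.fst '' s : Set ℕ).Finite := (hs2.image continuous_fst).finite_of_discrete
  obtain ⟨n, hn⟩ := hfin.bddAbove
  refine ⟨n + 1, fun i hi l => ?_⟩
  have : (((i, l) : ℕ × L) : X1) ∈ f ⁻¹' Metric.ball (f ∞) ε := by
    apply hsV
    refine Or.inl ⟨(i, l), ?_, rfl⟩
    intro hmem
    have : i ≤ n := hn ⟨(i, l), hmem, rfl⟩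
    omega
  exact this

/-- choice of a tolerance -/
theorem law_use (V : BB) {δ : ℝ} (hδ : 0 < δ) (hδ2 : δ < 1 / 2) :
    ∃ n : ℕ, ∀ i ≥ n, ∀ l : L, maj i l V = true → 1 - δ ≤ d i l V.1 := by
  obtain ⟨n, hn⟩ := Filter.eventually_atTop.mp (V.2.2 δ hδ)
  refine ⟨n, fun i hi l hm => ?_⟩
  rw [maj_true] at hm
  rcases hn i hi l with h | h
  · linarith
  · exact h

theorem tol (M : ℝ) (hM : 0 ≤ M) {ε : ℝ} (hε : 0 < ε) : ∃ δ : ℝ, 0 < δ ∧ δ < 1 / 2 ∧ M * δ < ε := by
  refine ⟨min (1 / 4) (ε / (2 * (M + 1))), ?_, ?_, ?_⟩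
  · exact lt_min (by norm_num) (by positivity)
  · exact lt_of_le_of_lt (min_le_left _ _) (by norm_num)
  · have h1 : M * min (1 / 4) (ε / (2 * (M + 1))) ≤ M * (ε / (2 * (M + 1))) :=
      mul_le_mul_of_nonneg_left (min_le_right _ _) hM
    have h2 : M * (ε / (2 * (M + 1))) < ε := by
      rw [mul_div_assoc', div_lt_iff₀ (by positivity)]
      nlinarith
    linarith

noncomputable def fwd (f : C(X1 ⊕ X2, ℝ)) : C(Y2 ⊕ Unit, ℝ) :=
  ⟨Sum.elim (glue (fun z => f (Sum.inr z))
      (fun p => f (Sum.inl (p : X1)) - f (Sum.inl ∞) + avg p.1 p.2 (fun z => f (Sum.inr z))))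
    (fun _ => f (Sum.inl ∞)), by
    refine Continuous.sumElim ?_ continuous_const
    have hf2 : Continuous (fun z : X2 => f (Sum.inr z)) := f.continuous.comp continuous_inr
    have hf1 : Continuous (fun t : X1 => f (Sum.inl t)) := f.continuous.comp continuous_inl
    apply contY2
    · simp only [glue_ee]
      exact hf2
    · intro i
      simp only [glue_yy]
      refine Continuous.add (Continuous.sub ?_ continuous_const) (cont_avg i hf2)
      exact hf1.comp (OnePoint.continuous_coe.comp (continuous_const.prodMk continuous_id))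
    · intro z ε hε
      obtain ⟨M, hM⟩ := X2_bdd _ hf2
      have hM0 : 0 ≤ M := (abs_nonneg _).trans (hM z)
      obtain ⟨V, hV, hw⟩ := nhds_X2 z (hf2.continuousAt (Metric.ball_mem_nhds _ (show (0 : ℝ) < ε / 4 by positivity)))
      obtain ⟨δ, hδ, hδ2, hδM⟩ := tol (2 * M) (by positivity) (show (0 : ℝ) < ε / 4 by positivity)
      obtain ⟨n1, hn1⟩ := law_use V hδ hδ2
      obtain ⟨n2, hn2⟩ := X1_small _ hf1 (show (0 : ℝ) < ε / 4 by positivity)
      refine ⟨V, hV, max n1 n2, fun i hi l hm => ?_⟩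
      rw [glue_yy, glue_ee]
      have h1 := hn2 i (le_trans (le_max_right _ _) hi) l
      have h2 := avg_close (i := i) (l := l) (f := fun z => f (Sum.inr z)) (c := f (Sum.inr z)) (ε := ε / 4)
        (M := 2 * M) (δ := δ) V (fun w hw' => le_of_lt (hw w hw')) (by positivity) (fun w => by
          have := abs_sub (f (Sum.inr w)) (f (Sum.inr z))
          have h3 := hM w
          have h4 := hM z
          linarith) (by positivity) (hn1 i (le_trans (le_max_left _ _) hi) l hm)
      have h3 : f (Sum.inl (((i, l) : ℕ × L) : X1)) - f (Sum.inl ∞) + avg i l (fun z => f (Sum.inr z)) - f (Sum.inr z)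
        = (f (Sum.inl (((i, l) : ℕ × L) : X1)) - f (Sum.inl ∞)) + (avg i l (fun z => f (Sum.inr z)) - f (Sum.inr z)) := by ring
      change |f (Sum.inl (((i, l) : ℕ × L) : X1)) - f (Sum.inl ∞) + avg i l (fun z => f (Sum.inr z)) - f (Sum.inr z)| < ε
      rw [h3]
      have h4 := abs_add_le (f (Sum.inl (((i, l) : ℕ × L) : X1)) - f (Sum.inl ∞)) (avg i l (fun z => f (Sum.inr z)) - f (Sum.inr z))
      linarith⟩


theorem P4 (G : Y2 → ℝ) (hG : Continuous G) {ε : ℝ} (hε : 0 < ε) :
    ∃ n : ℕ, ∀ i ≥ n, ∀ l : L, |G (yy i l) - avg i l (fun z => G (ee z))| < ε := by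
  by_contra hcon
  push Not at hcon
  have hGe : Continuous (fun z => G (ee z)) := hG.comp cont_ee
  -- reduce to finite columns
  have h1 : ∀ n : ℕ, ∃ i ≥ n, ∃ m : ℕ, ε / 2 < |G (yy i (m : L)) - avg i (m : L) (fun z => G (ee z))| := by
    intro n
    obtain ⟨i, hi, l, hl⟩ := hcon n
    refine ⟨i, hi, ?_⟩
    induction l using OnePoint.rec with
    | coe m => exact ⟨m, by linarith⟩
    | infty =>
      have hc : Continuous (fun l : L => |G (yy i l) - avg i l (fun z => G (ee z))|) :=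
        ((hG.comp (cont_yy i)).sub (cont_avg i hGe)).abs
      have h2 := (OnePoint.continuous_iff_from_nat _).mp hc
      have h3 := h2.eventually (lt_mem_nhds (show ε / 2 < |G (yy i ∞) - avg i ∞ (fun z => G (ee z))| by linarith))
      obtain ⟨m, hm⟩ := h3.exists
      exact ⟨m, hm⟩
  set J : Set ℕ := {i | ∃ m : ℕ, ε / 2 < |G (yy i (m : L)) - avg i (m : L) (fun z => G (ee z))|} with hJ
  have hJinf : J.Infinite := by
    rw [Set.infinite_iff_exists_gt]
    intro n
    obtain ⟨i, hi, m, hm⟩ := h1 (n + 1)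
    exact ⟨i, ⟨m, hm⟩, by omega⟩
  have hsel : ∀ i, ∃ m : ℕ, i ∈ J → ε / 2 < |G (yy i (m : L)) - avg i (m : L) (fun z => G (ee z))| := by
    intro i
    by_cases h : i ∈ J
    · obtain ⟨m, hm⟩ := h
      exact ⟨m, fun _ => hm⟩
    · exact ⟨0, fun h' => absurd h' h⟩
  choose m hm using hsel
  have hne : (cofinite ⊓ 𝓟 J : Filter ℕ).NeBot := by
    rw [cofinite_inf_principal_neBot_iff]
    exact hJinf
  let 𝒰 := Ultrafilter.of (cofinite ⊓ 𝓟 J : Filter ℕ)
  have h𝒰 : (𝒰 : Filter ℕ) ≤ cofinite ⊓ 𝓟 J := Ultrafilter.of_le _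
  have h𝒰J : ∀ᶠ i in (𝒰 : Filter ℕ), i ∈ J := h𝒰 (mem_inf_of_right (mem_principal_self J))
  have h𝒰top : (𝒰 : Filter ℕ) ≤ atTop := by
    rw [← Nat.cofinite_eq_atTop]
    exact h𝒰.trans inf_le_left
  classical
  let z : BB → Bool := fun U => decide (∀ᶠ i in (𝒰 : Filter ℕ), maj i (m i : L) U = true)
  have hzt : ∀ U : BB, z U = true ↔ ∀ᶠ i in (𝒰 : Filter ℕ), maj i (m i : L) U = true := by
    intro U; simp [z]
  have hlaw : ∀ U : BB, ∀ᶠ i in (𝒰 : Filter ℕ), ∀ l : L, d i l U.1 ≤ 1 / 8 ∨ 1 - 1 / 8 ≤ d i l U.1 :=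
    fun U => h𝒰top (U.2.2 (1 / 8) (by norm_num))
  have hz : Ult z := by
    refine ⟨?_, ?_, ?_⟩
    · rw [hzt]
      filter_upwards with i
      rw [maj_true, d_univ]
      norm_num
    · intro U V
      rw [Bool.eq_iff_iff, Bool.and_eq_true, hzt, hzt, hzt]
      constructor
      · intro h
        exact ⟨h.mono fun i hi => (maj_fine i _ U _ hi).1 Set.inter_subset_left,
          h.mono fun i hi => (maj_fine i _ V _ hi).1 Set.inter_subset_right⟩
      · rintro ⟨hU, hV⟩
        filter_upwards [hU, hV, hlaw U, hlaw V] with i h1 h2 h3 h4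
        rw [maj_true] at h1 h2 ⊢
        have h5 := d_inter i (m i : L) U.1 V.1
        rcases h3 (m i : L) with h3 | h3
        · linarith
        · rcases h4 (m i : L) with h4 | h4
          · linarith
          · linarith
    · intro U
      rw [Bool.eq_iff_iff, Bool.not_eq_true', ← Bool.not_eq_true, hzt, hzt, ← Ultrafilter.eventually_not]
      constructor
      · intro h
        filter_upwards [h] with i h1
        rw [maj_true] at h1 ⊢
        rw [d_compl] at h1
        linarith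
      · intro h
        filter_upwards [h, hlaw U] with i h1 h2
        rw [maj_true] at h1 ⊢
        rw [d_compl]
        rcases h2 (m i : L) with h2 | h2
        · linarith
        · linarith
  let U0 : Set R := {r | r.1 ∈ J ∧ r.2.2 = (m r.1 : L)}
  have hU0B : isB U0 ∧ isZ U0 := by
    refine ⟨⟨?_, ?_⟩, ?_⟩
    · intro i j
      filter_upwards [eventually_gt_atTop (m i)] with l hl
      constructor
      · rintro ⟨-, h⟩
        simp only [OnePoint.coe_eq_coe] at h
        omega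
      · rintro ⟨-, h⟩
        exact absurd h (OnePoint.infty_ne_coe _)
    · intro ε' hε'
      filter_upwards with i l
      by_cases h : i ∈ J ∧ l = (m i : L)
      · right
        have : d i l U0 = d i l Set.univ := d_congr i l l _ _ fun j => ⟨fun _ => trivial, fun _ => h⟩
        rw [this, d_univ]
        linarith
      · left
        rw [d_zero (fun j hj => h hj)]
        exact hε'.le
    · intro ε' hε'
      filter_upwards with i
      rw [d_zero (fun j hj => OnePoint.infty_ne_coe _ hj.2)]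
      exact hε'.le
  have hzU0 : z ⟨U0, hU0B.1⟩ = true := by
    rw [hzt]
    filter_upwards [h𝒰J] with i hi
    rw [maj_true]
    have : d i (m i : L) U0 = d i (m i : L) Set.univ := d_congr i _ _ _ _ fun j => ⟨fun _ => trivial, fun _ => ⟨hi, rfl⟩⟩
    change 1 / 2 < d i (m i : L) U0
    rw [this, d_univ]
    norm_num
  let Z : X2 := ⟨z, hz, ⟨U0, hU0B.1⟩, hU0B.2, hzU0⟩
  obtain ⟨M, hM⟩ := X2_bdd _ hGe
  have hM0 : 0 ≤ M := (abs_nonneg _).trans (hM Z)
  obtain ⟨V, hV, n, hVe, hVy⟩ := nhds_Y2 Z (hG.continuousAt (Metric.ball_mem_nhds _ (show (0 : ℝ) < ε / 8 by positivity)))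
  obtain ⟨δ, hδ, hδ2, hδM⟩ := tol (2 * M) (by positivity) (show (0 : ℝ) < ε / 8 by positivity)
  obtain ⟨n1, hn1⟩ := law_use V hδ hδ2
  have hfin : ∀ᶠ i in (𝒰 : Filter ℕ), i ∈ J ∧ n ≤ i ∧ n1 ≤ i ∧ maj i (m i : L) V = true := by
    filter_upwards [h𝒰J, h𝒰top (eventually_ge_atTop n), h𝒰top (eventually_ge_atTop n1), (hzt V).mp hV] with i a b c e
    exact ⟨a, b, c, e⟩
  obtain ⟨i, hiJ, hin, hin1, hmaj⟩ := hfin.exists
  have h2 : |G (yy i (m i : L)) - G (ee Z)| < ε / 8 := hVy i hin _ hmaj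
  have h3 := avg_close (i := i) (l := (m i : L)) (f := fun z => G (ee z)) (c := G (ee Z)) (ε := ε / 8)
        (M := 2 * M) (δ := δ) V (fun w hw' => le_of_lt (hVe w hw')) (by positivity) (fun w => by
          have := abs_sub (G (ee w)) (G (ee Z))
          have h3 := hM w
          have h4 := hM Z
          linarith) (by positivity) (hn1 i hin1 _ hmaj)
  have h4 := hm i hiJ
  have h5 : G (yy i (m i : L)) - avg i (m i : L) (fun z => G (ee z)) =
    (G (yy i (m i : L)) - G (ee Z)) - (avg i (m i : L) (fun z => G (ee z)) - G (ee Z)) := by ring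
  rw [h5] at h4
  have h6 := abs_sub (G (yy i (m i : L)) - G (ee Z)) (avg i (m i : L) (fun z => G (ee z)) - G (ee Z))
  linarith

noncomputable def bwd (g : C(Y2 ⊕ Unit, ℝ)) : C(X1 ⊕ X2, ℝ) :=
  ⟨Sum.elim (fun t : X1 => t.elim (g (Sum.inr ()))
      (fun p => (g (Sum.inl (yy p.1 p.2)) - avg p.1 p.2 (fun z => g (Sum.inl (ee z)))) + g (Sum.inr ())))
    (fun z => g (Sum.inl (ee z))), by
    have hg : Continuous (fun q : Y2 => g (Sum.inl q)) := g.continuous.comp continuous_inl
    refine Continuous.sumElim ?_ (hg.comp cont_ee)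
    rw [OnePoint.continuous_iff]
    constructor
    · rw [Metric.tendsto_nhds]
      intro ε hε
      obtain ⟨n, hn⟩ := P4 _ hg hε
      have hc : ((Set.Iio n) ×ˢ (Set.univ : Set L) : Set (ℕ × L))ᶜ ∈ coclosedCompact (ℕ × L) := by
        exact IsCompact.compl_mem_coclosedCompact_of_isClosed ((Set.finite_Iio n).isCompact.prod isCompact_univ)
          ((isClosed_discrete _).prod isClosed_univ)
      filter_upwards [hc] with p hp
      simp only [OnePoint.elim_some, OnePoint.elim_infty, Real.dist_eq, add_sub_cancel_right]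
      apply hn
      by_contra hlt
      push Not at hlt
      exact hp ⟨hlt, trivial⟩
    · simp only [OnePoint.elim_some]
      rw [continuous_prod_of_discrete_left]
      intro i
      refine Continuous.add (Continuous.sub (hg.comp (cont_yy i)) (cont_avg i (hg.comp cont_ee))) continuous_const⟩

theorem fwd_ee (f : C(X1 ⊕ X2, ℝ)) (z : X2) : fwd f (Sum.inl (ee z)) = f (Sum.inr z) := by
  change glue (fun z => f (Sum.inr z))
      (fun p => f (Sum.inl (p : X1)) - f (Sum.inl ∞) + avg p.1 p.2 (fun z => f (Sum.inr z))) (ee z) = _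
  rw [glue_ee]

theorem fwd_bwd (g : C(Y2 ⊕ Unit, ℝ)) : fwd (bwd g) = g := by
  ext q
  rcases q with q | u
  · rcases cases_Y2 q with ⟨z, rfl⟩ | ⟨i, l, rfl⟩
    · rw [fwd_ee]
      rfl
    · change ((g (Sum.inl (yy i l)) - avg i l (fun z => g (Sum.inl (ee z)))) + g (Sum.inr ())) - g (Sum.inr ()) +
        avg i l (fun z => g (Sum.inl (ee z))) = g (Sum.inl (yy i l))
      ring
  · rfl

theorem bwd_fwd (f : C(X1 ⊕ X2, ℝ)) : bwd (fwd f) = f := by
  have hE : ∀ z : X2, fwd f (Sum.inl (ee z)) = f (Sum.inr z) := fwd_ee f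
  ext q
  rcases q with t | z
  · induction t using OnePoint.rec with
    | infty => rfl
    | coe p =>
      change ((f (Sum.inl (((p.1, p.2) : ℕ × L) : X1)) - f (Sum.inl ∞) + avg p.1 p.2 (fun z => f (Sum.inr z))) -
        avg p.1 p.2 (fun z => fwd f (Sum.inl (ee z)))) + f (Sum.inl ∞) = f (Sum.inl (p : X1))
      simp only [hE]
      ring
  · exact hE z


theorem t35_sum (X Y : Type) [TopologicalSpace X] [TopologicalSpace Y] [T35Space X] [T35Space Y] :
    T35Space (X ⊕ Y) := by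
  have : CompletelyRegularSpace (X ⊕ Y) := by
    refine ⟨?_⟩
    rintro (x | y) K hK hx
    · obtain ⟨f, hf, hfx, hfK⟩ := CompletelyRegularSpace.completely_regular x (Sum.inl ⁻¹' K)
        (hK.preimage continuous_inl) hx
      refine ⟨Sum.elim f (fun _ => 1), hf.sumElim continuous_const, hfx, ?_⟩
      rintro (z | z) hz
      · exact hfK hz
      · rfl
    · obtain ⟨f, hf, hfx, hfK⟩ := CompletelyRegularSpace.completely_regular y (Sum.inr ⁻¹' K)
        (hK.preimage continuous_inr) hx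
      refine ⟨Sum.elim (fun _ => 1) f, continuous_const.sumElim hf, hfx, ?_⟩
      rintro (z | z) hz
      · rfl
      · exact hfK hz
  exact T35Space.mk

theorem no_cluster : ¬ ∃ q : Y2 ⊕ Unit, MapClusterPt q atTop (fun i : ℕ => (Sum.inl (yy i ∞) : Y2 ⊕ Unit)) := by
  rintro ⟨q, hq⟩
  rw [mapClusterPt_iff_frequently] at hq
  rcases q with q | u
  · rcases cases_Y2 q with ⟨z, rfl⟩ | ⟨i, l, rfl⟩
    · obtain ⟨U, hUZ, hzU⟩ := z.2.2
      have hO : IsOpen (Sum.inl '' {q : Y2 | q.1.1 U = true} : Set (Y2 ⊕ Unit)) := by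
        apply isOpenMap_inl
        have h1 : Continuous (fun q : Y2 => q.1.1 U) :=
          (continuous_apply U).comp (continuous_fst.comp continuous_subtype_val)
        exact (isOpen_discrete {true}).preimage h1
      have h1 := hq _ (hO.mem_nhds ⟨ee z, hzU, rfl⟩)
      have h2 := hUZ (1 / 2) (by norm_num)
      obtain ⟨i, ⟨q, hq1, hq2⟩, hi⟩ := (h1.and_eventually h2).exists
      have h3 : q = yy i ∞ := Sum.inl_injective hq2
      subst h3
      have h4 := maj_true.mp hq1
      linarith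
    · have hO : IsOpen (Sum.inl '' {q : Y2 | q.1.2 ∈ (OnePoint.some '' (({i} : Set ℕ) ×ˢ (Set.univ : Set L)) : Set X1)} : Set (Y2 ⊕ Unit)) := by
        apply isOpenMap_inl
        exact (isOpen_lev i).preimage (continuous_snd.comp continuous_subtype_val)
      have h1 := hq _ (hO.mem_nhds ⟨yy i l, ⟨(i, l), ⟨rfl, trivial⟩, rfl⟩, rfl⟩)
      obtain ⟨i', ⟨q, ⟨⟨i2, l2⟩, ⟨hi2, -⟩, hq1⟩, hq2⟩, hi⟩ := (h1.and_eventually (eventually_gt_atTop i)).exists
      have h3 : q = yy i' ∞ := Sum.inl_injective hq2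
      subst h3
      simp only [yy, OnePoint.coe_eq_coe, Prod.mk.injEq] at hq1
      simp only [Set.mem_singleton_iff] at hi2
      omega
  · have h1 := hq _ (isOpen_range_inr.mem_nhds ⟨u, rfl⟩)
    obtain ⟨i, v, hv⟩ := h1.exists
    exact Sum.inr_ne_inl hv

theorem X_cc (u : ℕ → X1 ⊕ X2) : ∃ x : X1 ⊕ X2, MapClusterPt x atTop u := by
  by_cases h : ∃ᶠ n in atTop, u n ∈ Set.range (Sum.inl : X1 → X1 ⊕ X2)
  · obtain ⟨x, -, hx⟩ := (isCompact_range (continuous_inl : Continuous (Sum.inl : X1 → X1 ⊕ X2))).exists_mapClusterPt_of_frequently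
      (l := atTop) (f := u) h
    exact ⟨x, hx⟩
  · rw [Filter.not_frequently] at h
    have h1 : ∀ n, ∃ z : X2, u n ∉ Set.range (Sum.inl : X1 → X1 ⊕ X2) → u n = Sum.inr z := by
      intro n
      rcases hu : u n with t | z
      · exact ⟨iota ⟨0, (0, ∞)⟩, fun h' => absurd ⟨t, rfl⟩ h'⟩
      · exact ⟨z, fun _ => rfl⟩
    choose v hv using h1
    obtain ⟨x, hx⟩ := X2_cc v
    refine ⟨Sum.inr x, ?_⟩
    have h2 : MapClusterPt (Sum.inr x : X1 ⊕ X2) atTop (Sum.inr ∘ v) := hx.continuousAt_comp continuous_inr.continuousAt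
    rw [mapClusterPt_iff_frequently] at h2 ⊢
    intro s hs
    refine ((h2 s hs).and_eventually h).mono ?_
    rintro n ⟨h3, h4⟩
    rw [hv n h4]
    exact h3


/-- The negation of the preceding statement: For Tychonoff spaces X and Y, suppose some linear bijection between their continuous real functions is a homeomorphism for the pointwise-convergence topologies. If every sequence in X has a cluster point, then every sequence in Y has one. -/
theorem result :
    ¬ (∀ (X Y : Type) [TopologicalSpace X] [TopologicalSpace Y] [T35Space X] [T35Space Y],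
      ∀ T : C(X, ℝ) ≃ₗ[ℝ] C(Y, ℝ),
        @Continuous C(X, ℝ) C(Y, ℝ)
          (TopologicalSpace.induced (fun f : C(X, ℝ) => (f : X → ℝ))
            (inferInstance : TopologicalSpace (X → ℝ)))
          (TopologicalSpace.induced (fun g : C(Y, ℝ) => (g : Y → ℝ))
            (inferInstance : TopologicalSpace (Y → ℝ)))
          (⇑T) →
        @Continuous C(Y, ℝ) C(X, ℝ)
          (TopologicalSpace.induced (fun g : C(Y, ℝ) => (g : Y → ℝ))
            (inferInstance : TopologicalSpace (Y → ℝ)))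
          (TopologicalSpace.induced (fun f : C(X, ℝ) => (f : X → ℝ))
            (inferInstance : TopologicalSpace (X → ℝ)))
          (⇑T.symm) →
        (∀ u : ℕ → X, ∃ x : X, MapClusterPt x Filter.atTop u) →
        (∀ v : ℕ → Y, ∃ y : Y, MapClusterPt y Filter.atTop v)) := by
  intro hall
  have i1 : T35Space (X1 ⊕ X2) := t35_sum X1 X2
  have i2 : T35Space (Y2 ⊕ Unit) := t35_sum Y2 Unit
  have hadd : ∀ i l (f g : X2 → ℝ), avg i l (fun z => f z + g z) = avg i l f + avg i l g := by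
    intro i l f g
    unfold avg
    rw [Finset.sum_add_distrib, add_div]
  have hsmul : ∀ i l (c : ℝ) (f : X2 → ℝ), avg i l (fun z => c * f z) = c * avg i l f := by
    intro i l c f
    unfold avg
    rw [← Finset.mul_sum, mul_div_assoc]
  let T : C(X1 ⊕ X2, ℝ) ≃ₗ[ℝ] C(Y2 ⊕ Unit, ℝ) :=
    { toFun := fwd
      map_add' := by
        intro f g
        ext q
        rcases q with q | u
        · rcases cases_Y2 q with ⟨z, rfl⟩ | ⟨i, l, rfl⟩
          · rw [ContinuousMap.add_apply, fwd_ee, fwd_ee, fwd_ee, ContinuousMap.add_apply]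
          · change (f (Sum.inl (((i, l) : ℕ × L) : X1)) + g (Sum.inl (((i, l) : ℕ × L) : X1))) -
              (f (Sum.inl ∞) + g (Sum.inl ∞)) + avg i l (fun z => f (Sum.inr z) + g (Sum.inr z)) =
              (f (Sum.inl (((i, l) : ℕ × L) : X1)) - f (Sum.inl ∞) + avg i l (fun z => f (Sum.inr z))) +
              (g (Sum.inl (((i, l) : ℕ × L) : X1)) - g (Sum.inl ∞) + avg i l (fun z => g (Sum.inr z)))
            rw [hadd]
            ring
        · rfl
      map_smul' := by
        intro c f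
        ext q
        rcases q with q | u
        · rcases cases_Y2 q with ⟨z, rfl⟩ | ⟨i, l, rfl⟩
          · rw [RingHom.id_apply, ContinuousMap.smul_apply, fwd_ee, fwd_ee, ContinuousMap.smul_apply]
          · change (c * f (Sum.inl (((i, l) : ℕ × L) : X1))) -
              (c * f (Sum.inl ∞)) + avg i l (fun z => c * f (Sum.inr z)) =
              c * (f (Sum.inl (((i, l) : ℕ × L) : X1)) - f (Sum.inl ∞) + avg i l (fun z => f (Sum.inr z)))
            rw [hsmul]
            ring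
        · rfl
      invFun := bwd
      left_inv := bwd_fwd
      right_inv := fwd_bwd }
  refine no_cluster (hall (X1 ⊕ X2) (Y2 ⊕ Unit) T ?_ ?_ X_cc _)
  · let _ : TopologicalSpace C(X1 ⊕ X2, ℝ) :=
      TopologicalSpace.induced (fun g : C(X1 ⊕ X2, ℝ) => (g : X1 ⊕ X2 → ℝ)) inferInstance
    have hev : ∀ z : X1 ⊕ X2, Continuous (fun g : C(X1 ⊕ X2, ℝ) => g z) := fun z =>
      (continuous_apply z).comp continuous_induced_dom
    refine continuous_induced_rng.mpr (continuous_pi ?_)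
    rintro (q | u)
    · rcases cases_Y2 q with ⟨z, rfl⟩ | ⟨i, l, rfl⟩
      · refine (hev (Sum.inr z)).congr fun f => ?_
        exact (fwd_ee f z).symm
      · have h1 : Continuous (fun f : C(X1 ⊕ X2, ℝ) => avg i l (fun z => f (Sum.inr z))) := by
          unfold avg
          exact Continuous.div_const (continuous_finsetSum _ fun j _ => hev _) _
        exact ((hev _).sub (hev _)).add h1
    · exact hev _
  · let _ : TopologicalSpace C(Y2 ⊕ Unit, ℝ) :=
      TopologicalSpace.induced (fun g : C(Y2 ⊕ Unit, ℝ) => (g : Y2 ⊕ Unit → ℝ)) inferInstance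
    have hev : ∀ z : Y2 ⊕ Unit, Continuous (fun g : C(Y2 ⊕ Unit, ℝ) => g z) := fun z =>
      (continuous_apply z).comp continuous_induced_dom
    refine continuous_induced_rng.mpr (continuous_pi ?_)
    rintro (t | z)
    · induction t using OnePoint.rec with
      | infty => exact hev _
      | coe p =>
        have h1 : Continuous (fun g : C(Y2 ⊕ Unit, ℝ) => avg p.1 p.2 (fun z => g (Sum.inl (ee z)))) := by
          unfold avg
          exact Continuous.div_const (continuous_finsetSum _ fun j _ => hev _) _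
        exact ((hev _).sub h1).add (hev _)
    · exact hev _

end Pool.Agent.S09000
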