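import Pool.Statements.S09003

set_option autoImplicit false
open Pool Pool.MP_d57a60_gt

namespace Pool.Agent.S09003

open Set Filter Topology

/-! ### Preliminaries -/

/-- The space `C_p(X,[0,1])`. -/
abbrev Z (X : Type) [TopologicalSpace X] : Type := {f : X → Set.Icc (0:ℝ) 1 // Continuous f}

variable {X : Type} [TopologicalSpace X]

/-- A network modulo a compact cover. -/
def Net (𝓕 : Set (Set (Z X))) : Prop :=
  ∀ g : Z X, ∃ C : Set (Z X), IsCompact C ∧ g ∈ C ∧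
    ∀ U : Set (Z X), IsOpen U → C ⊆ U → ∃ F ∈ 𝓕, C ⊆ F ∧ F ⊆ U

theorem eval_cont (x : X) : Continuous fun f : Z X => (f.1 x : ℝ) :=
  continuous_subtype_val.comp ((continuous_apply x).comp continuous_subtype_val)

theorem val_cont (f : Z X) : Continuous fun x : X => (f.1 x : ℝ) :=
  continuous_subtype_val.comp f.2

theorem bump [T35Space X] {y : X} {V : Set X} (hV : IsOpen V) (hy : y ∈ V) :
    ∃ f : Z X, (f.1 y : ℝ) = 1 ∧ ∀ x, x ∉ V → (f.1 x : ℝ) = 0 := by
  obtain ⟨f, hf, h1, h2⟩ := CompletelyRegularSpace.completely_regular y Vᶜ hV.isClosed_compl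
    (by simpa using hy)
  refine ⟨⟨fun x => unitInterval.symm (f x), unitInterval.continuous_symm.comp hf⟩, ?_, ?_⟩
  · simp [h1]
  · intro x hx
    have h3 : f x = 1 := h2 hx
    simp [h3]

theorem exists_rec {D : Type} (Q : ∀ n : ℕ, (∀ m, m < n → D) → D → Prop) (h : ∀ n f, ∃ d, Q n f d) :
    ∃ F : ℕ → D, ∀ n, Q n (fun m _ => F m) (F n) := by
  classical
  let F : ℕ → D := (wellFounded_lt (α := ℕ)).fix (fun n f => (h n f).choose)
  refine ⟨F, fun n => ?_⟩
  have h1 : F n = (h n (fun m _ => F m)).choose := by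
    simp only [F]
    rw [WellFounded.fix_eq]
  rw [h1]
  exact (h n (fun m _ => F m)).choose_spec

/-! ### Countable tightness -/

theorem exists_seq [T35Space X] {𝓕 : Set (Set (Z X))} (hc : 𝓕.Countable) (hN : Net 𝓕) (y : X)
    (hy : ¬ IsOpen ({y} : Set X)) :
    ∃ x : ℕ → X, (∀ j, x j ≠ y) ∧ y ∈ closure (range x) := by
  classical
  have hy' : y ∈ closure ({y}ᶜ : Set X) := by
    by_contra h
    apply hy
    rw [mem_closure_iff] at h
    push Not at h
    obtain ⟨o, ho, hyo, h2⟩ := h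
    have : o = {y} := by
      apply Subset.antisymm
      · intro z hz
        by_contra hzy
        have : z ∈ o ∩ {y}ᶜ := ⟨hz, hzy⟩
        rw [h2] at this
        exact this
      · rintro z rfl
        exact hyo
    rw [← this]
    exact ho
  -- finite sets attached to the good members of the network
  have hA : ∀ F : Set (Z X), ∃ A : Finset X, (∀ a ∈ A, a ≠ y) ∧
      ((∃ A' : Finset X, (∀ a ∈ A', a ≠ y) ∧ ∀ g ∈ F, (g.1 y : ℝ) = 1 → ∃ a ∈ A', 0 < (g.1 a : ℝ)) →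
        ∀ g ∈ F, (g.1 y : ℝ) = 1 → ∃ a ∈ A, 0 < (g.1 a : ℝ)) := by
    intro F
    by_cases h : ∃ A' : Finset X, (∀ a ∈ A', a ≠ y) ∧
        ∀ g ∈ F, (g.1 y : ℝ) = 1 → ∃ a ∈ A', 0 < (g.1 a : ℝ)
    · obtain ⟨A', h1, h2⟩ := h
      exact ⟨A', h1, fun _ => h2⟩
    · exact ⟨∅, by simp, fun h' => absurd h' h⟩
  choose A hA1 hA2 using hA
  let B : Set X := ⋃ F ∈ 𝓕, (A F : Set X)
  have hB : B.Countable := hc.biUnion fun F _ => (A F).countable_toSet
  have hBy : ∀ a ∈ B, a ≠ y := by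
    intro a ha
    obtain ⟨F, _, haF⟩ := mem_iUnion₂.mp ha
    exact hA1 F a haF
  have hyB : y ∈ closure B := by
    by_contra hcon
    obtain ⟨f, hf1, hf2⟩ := bump (isClosed_closure (s := B)).isOpen_compl hcon
    obtain ⟨C, hC, hfC, hU⟩ := hN f
    -- a finite set for the compact set
    have hK : IsCompact (C ∩ {g : Z X | (g.1 y : ℝ) = 1}) :=
      hC.inter_right (isClosed_eq (eval_cont y) continuous_const)
    obtain ⟨t, ht⟩ := hK.elim_finite_subcover
      (fun a : {a : X // a ≠ y} => {g : Z X | 0 < (g.1 a.1 : ℝ)})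
      (fun a => isOpen_lt continuous_const (eval_cont a.1)) (by
        rintro g ⟨_, hg⟩
        have hg' : (g.1 y : ℝ) = 1 := hg
        have h1 : {x : X | 0 < (g.1 x : ℝ)} ∈ 𝓝 y :=
          (isOpen_lt continuous_const (val_cont g)).mem_nhds (by
            show 0 < (g.1 y : ℝ)
            rw [hg']; norm_num)
        obtain ⟨a, ha1, ha2⟩ := mem_closure_iff_nhds.mp hy' _ h1
        exact mem_iUnion.mpr ⟨⟨a, ha2⟩, ha1⟩)
    let A' : Finset X := t.image Subtype.val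
    let U : Set (Z X) := {g | (g.1 y : ℝ) ≠ 1} ∪ ⋃ a ∈ A', {g : Z X | 0 < (g.1 a : ℝ)}
    have hUo : IsOpen U := by
      refine IsOpen.union ?_ (isOpen_biUnion fun a _ => isOpen_lt continuous_const (eval_cont a))
      exact (isClosed_eq (eval_cont y) continuous_const).isOpen_compl
    have hCU : C ⊆ U := by
      intro g hg
      by_cases h : (g.1 y : ℝ) = 1
      · right
        obtain ⟨a, ha, hga⟩ := mem_iUnion₂.mp (ht ⟨hg, h⟩)
        exact mem_iUnion₂.mpr ⟨a.1, Finset.mem_image_of_mem _ ha, hga⟩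
      · exact Or.inl h
    obtain ⟨F, hF, hCF, hFU⟩ := hU U hUo hCU
    have hgood : ∃ A' : Finset X, (∀ a ∈ A', a ≠ y) ∧
        ∀ g ∈ F, (g.1 y : ℝ) = 1 → ∃ a ∈ A', 0 < (g.1 a : ℝ) := by
      refine ⟨A', ?_, ?_⟩
      · intro a ha
        obtain ⟨b, _, rfl⟩ := Finset.mem_image.mp ha
        exact b.2
      · intro g hg hgy
        rcases hFU hg with h | h
        · exact absurd hgy h
        · obtain ⟨a, ha, hga⟩ := mem_iUnion₂.mp h
          exact ⟨a, ha, hga⟩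
    obtain ⟨a, ha, hfa⟩ := hA2 F hgood f (hCF hfC) hf1
    have haB : a ∈ B := mem_iUnion₂.mpr ⟨F, hF, ha⟩
    have := hf2 a (by
      intro h
      exact h (subset_closure haB))
    rw [this] at hfa
    exact lt_irrefl _ hfa
  have hne : B.Nonempty := by
    rw [← closure_nonempty_iff]
    exact ⟨y, hyB⟩
  obtain ⟨x, hx⟩ := hB.exists_eq_range hne
  refine ⟨x, fun j => hBy _ (by rw [hx]; exact mem_range_self j), ?_⟩
  rw [← hx]
  exact hyB

/-! ### The main boundedness lemma -/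

/-- The points at which no member of `N` is `1` while vanishing at the first members (in `S`) of the
chosen sequence. -/
def FF (x : X → ℕ → X) (p : Set (Z X) × Finset ℕ) : Set X :=
  {y | ∀ f ∈ p.1, ¬ ((f.1 y : ℝ) = 1 ∧ ∀ j ∈ p.2, (f.1 (x y j) : ℝ) = 0)}

/-- The neighbourhoods used in the construction. -/
def VV (x : X → ℕ → X) (φ : C(X, ℝ)) (k : ℕ) (y : X) : Set X :=
  {z | |(|φ z| - |φ y|)| < 1 / 2 ∧ ∀ j < k, z ≠ x y j}

theorem VV_open [T1Space X] (x : X → ℕ → X) (φ : C(X, ℝ)) (k : ℕ) (y : X) :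
    IsOpen (VV x φ k y) := by
  have h1 : IsOpen {z : X | |(|φ z| - |φ y|)| < 1 / 2} :=
    isOpen_lt ((φ.continuous.abs.sub continuous_const).abs) continuous_const
  have h2 : IsOpen {z : X | ∀ j < k, z ≠ x y j} := by
    have : {z : X | ∀ j < k, z ≠ x y j} = ((fun j => x y j) '' {j | j < k})ᶜ := by
      ext z
      constructor
      · rintro h ⟨j, hj, rfl⟩
        exact h j hj rfl
      · intro h j hj hz
        exact h ⟨j, hj, hz.symm⟩
    rw [this]
    exact ((Set.finite_lt_nat k).image _).isClosed.isOpen_compl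
  exact h1.inter h2

theorem bounded_of_net [T35Space X] {𝓕 : Set (Set (Z X))} (hc : 𝓕.Countable) (hN : Net 𝓕)
    (x : X → ℕ → X) (hx : ∀ y, ¬ IsOpen ({y} : Set X) → (∀ j, x y j ≠ y) ∧ y ∈ closure (range (x y)))
    (ys : X) (hys : ¬ IsOpen ({ys} : Set X)) (φ : C(X, ℝ)) :
    ∃ t : Finset (Set (Z X) × Finset ℕ), (∀ p ∈ t, p.1 ∈ 𝓕 ∧ ys ∈ FF x p) ∧
      ∃ n : ℕ, ∀ y, ¬ IsOpen ({y} : Set X) → (∀ p ∈ t, y ∈ FF x p) → |φ y| ≤ n := by
  classical
  by_contra hcon
  push Not at hcon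
  -- the ultrafilter
  let Good : Set (Set (Z X) × Finset ℕ) := {p | p.1 ∈ 𝓕 ∧ ys ∈ FF x p}
  let B : Finset (Set (Z X) × Finset ℕ) × ℕ → Set X := fun i =>
    {y | ¬ IsOpen ({y} : Set X) ∧ (∀ p ∈ i.1, p ∈ Good → y ∈ FF x p) ∧ (i.2 : ℝ) < |φ y|}
  have hBne : ∀ i, (B i).Nonempty := by
    rintro ⟨t, n⟩
    obtain ⟨y, hy1, hy2, hy3⟩ := hcon (t.filter fun p => p ∈ Good)
      (fun p hp => (Finset.mem_filter.mp hp).2) n
    exact ⟨y, hy1, fun p hp hp' => hy2 p (Finset.mem_filter.mpr ⟨hp, hp'⟩), hy3⟩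
  have hne : (⨅ i, 𝓟 (B i)).NeBot := by
    refine Filter.iInf_neBot_of_directed' ?_ fun i => Filter.principal_neBot_iff.mpr (hBne i)
    rintro ⟨t, n⟩ ⟨t', n'⟩
    refine ⟨(t ∪ t', max n n'), ?_, ?_⟩
    · change 𝓟 (B (t ∪ t', max n n')) ≤ 𝓟 (B (t, n))
      rw [Filter.principal_mono]
      rintro y ⟨h1, h2, h3⟩
      refine ⟨h1, fun p hp => h2 p (Finset.mem_union_left _ hp), lt_of_le_of_lt ?_ h3⟩
      exact_mod_cast le_max_left n n'
    · change 𝓟 (B (t ∪ t', max n n')) ≤ 𝓟 (B (t', n'))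
      rw [Filter.principal_mono]
      rintro y ⟨h1, h2, h3⟩
      refine ⟨h1, fun p hp => h2 p (Finset.mem_union_right _ hp), lt_of_le_of_lt ?_ h3⟩
      exact_mod_cast le_max_right n n'
  let 𝒰 : Ultrafilter X := Ultrafilter.of (⨅ i, 𝓟 (B i))
  have h𝒰 : ∀ i, B i ∈ 𝒰 := fun i =>
    Ultrafilter.of_le _ (Filter.mem_iInf_of_mem i (Filter.mem_principal_self _))
  have hiso : ∀ᶠ y in (𝒰 : Filter X), ¬ IsOpen ({y} : Set X) := by
    filter_upwards [h𝒰 (∅, 0)] with y hy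
    exact hy.1
  have hbig : ∀ r : ℝ, ∀ᶠ y in (𝒰 : Filter X), r < |φ y| := by
    intro r
    obtain ⟨n, hn⟩ := exists_nat_gt r
    filter_upwards [h𝒰 (∅, n)] with y hy
    exact hn.trans hy.2.2
  -- enumeration of the good sets
  let 𝒢 : Set (Set X) := insert univ ((fun p => FF x p) '' Good)
  have h𝒢 : 𝒢.Countable := by
    refine Set.Countable.insert _ (Set.Countable.image ?_ _)
    refine (hc.prod (Set.countable_univ (α := Finset ℕ))).mono ?_
    rintro p hp
    exact ⟨hp.1, mem_univ _⟩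
  obtain ⟨G, hG⟩ := h𝒢.exists_eq_range ⟨univ, mem_insert _ _⟩
  have hG𝒰 : ∀ i, ∀ᶠ y in (𝒰 : Filter X), y ∈ G i := by
    intro i
    have h1 : G i ∈ 𝒢 := by rw [hG]; exact mem_range_self i
    rcases h1 with h1 | ⟨p, hp, hpG⟩
    · rw [h1]
      exact Filter.Eventually.of_forall fun y => mem_univ y
    · rw [← hpG]
      filter_upwards [h𝒰 ({p}, 0)] with y hy
      exact hy.2.1 p (Finset.mem_singleton_self p) hp
  -- the sequence
  obtain ⟨y, hy⟩ := exists_rec (D := X)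
    (fun k prev d => (∀ i : Fin (k + 1), d ∈ G i) ∧ ¬ IsOpen ({d} : Set X) ∧
      (∀ l : Fin k, |φ (prev l l.2)| + 1 < |φ d| ∧
        ∀ j : Fin k, |φ (x (prev l l.2) j)| + 1 < |φ d|) ∧
      (∀ l j : Fin k, (∀ᶠ y' in (𝒰 : Filter X), x y' j ∉ VV x φ l (prev l l.2)) →
        x d j ∉ VV x φ l (prev l l.2))) (by
    intro k prev
    have h1 : ∀ᶠ d in (𝒰 : Filter X), ∀ i : Fin (k + 1), d ∈ G i :=
      Filter.eventually_all.mpr fun i => hG𝒰 i
    have h2 : ∀ᶠ d in (𝒰 : Filter X), ∀ l : Fin k, |φ (prev l l.2)| + 1 < |φ d| ∧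
        ∀ j : Fin k, |φ (x (prev l l.2) j)| + 1 < |φ d| :=
      Filter.eventually_all.mpr fun l =>
        (hbig _).and (Filter.eventually_all.mpr fun j => hbig _)
    have h3 : ∀ᶠ d in (𝒰 : Filter X), ∀ l j : Fin k,
        (∀ᶠ y' in (𝒰 : Filter X), x y' j ∉ VV x φ l (prev l l.2)) →
        x d j ∉ VV x φ l (prev l l.2) := by
      refine Filter.eventually_all.mpr fun l => Filter.eventually_all.mpr fun j => ?_
      by_cases h : ∀ᶠ y' in (𝒰 : Filter X), x y' j ∉ VV x φ l (prev l l.2)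
      · exact h.mono fun d hd _ => hd
      · exact Filter.Eventually.of_forall fun d hd => absurd hd h
    obtain ⟨d, hd⟩ := (h1.and (hiso.and (h2.and h3))).exists
    exact ⟨d, hd⟩)
  have hyG : ∀ k i, i ≤ k → y k ∈ G i := fun k i hik => (hy k).1 ⟨i, Nat.lt_succ_of_le hik⟩
  have hyiso : ∀ k, ¬ IsOpen ({y k} : Set X) := fun k => (hy k).2.1
  have hyφ : ∀ l k, l < k → |φ (y l)| + 1 < |φ (y k)| := fun l k h => ((hy k).2.2.1 ⟨l, h⟩).1
  have hyφ' : ∀ l k j, l < k → j < k → |φ (x (y l) j)| + 1 < |φ (y k)| :=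
    fun l k j h h' => ((hy k).2.2.1 ⟨l, h⟩).2 ⟨j, h'⟩
  have hyV : ∀ l k j, l < k → j < k →
      (∀ᶠ y' in (𝒰 : Filter X), x y' j ∉ VV x φ l (y l)) → x (y k) j ∉ VV x φ l (y l) :=
    fun l k j h h' => (hy k).2.2.2 ⟨l, h⟩ ⟨j, h'⟩
  have hlow : ∀ k : ℕ, (k : ℝ) ≤ |φ (y k)| := by
    intro k
    induction k with
    | zero => simp
    | succ k ih =>
      have := hyφ k (k + 1) (Nat.lt_succ_self k)
      push_cast
      linarith
  -- the sets are disjoint
  have hdisj : ∀ l l' z, l ≠ l' → z ∈ VV x φ l (y l) → z ∉ VV x φ l' (y l') := by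
    intro l l' z hll' h1 h2
    have h3 := abs_lt.mp h1.1
    have h4 := abs_lt.mp h2.1
    rcases lt_or_gt_of_ne hll' with h | h
    · have := hyφ l l' h
      linarith [h3.1, h3.2, h4.1, h4.2]
    · have := hyφ l' l h
      linarith [h3.1, h3.2, h4.1, h4.2]
  let J : ℕ → Set ℕ := fun l => {j | ∀ᶠ y' in (𝒰 : Filter X), x y' j ∈ VV x φ l (y l)}
  have hJ : ∀ l l' j, l ≠ l' → j ∈ J l → j ∉ J l' := by
    intro l l' j hll' h1 h2
    obtain ⟨y', h3, h4⟩ := (Filter.Eventually.and h1 h2).exists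
    exact hdisj l l' _ hll' h3 h4
  have hJc : ∀ l j, j ∉ J l → ∀ᶠ y' in (𝒰 : Filter X), x y' j ∉ VV x φ l (y l) := by
    intro l j h
    exact Ultrafilter.eventually_not.mpr h
  -- the contradiction for an infinite set of indices
  have key : ∀ E : Set ℕ, (∀ n, ∃ k ∈ E, n ≤ k) →
      ys ∉ closure ((x ys) '' {j | ∀ l ∈ E, j ∉ J l}) := by
    intro E hE hcl
    have hb : ∀ l, ∃ f : Z X, (f.1 (y l) : ℝ) = 1 ∧ ∀ z, z ∉ VV x φ l (y l) → (f.1 z : ℝ) = 0 := by
      intro l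
      refine bump (VV_open x φ l (y l)) ⟨by simp, ?_⟩
      intro j _ h
      exact (hx (y l) (hyiso l)).1 j h.symm
    choose b hb1 hb2 using hb
    let g : ℕ → X → ℝ := fun l z => if l ∈ E then ((b l).1 z : ℝ) else 0
    have hgc : ∀ l, Continuous (g l) := by
      intro l
      by_cases h : l ∈ E
      · simp only [g, h, if_true]
        exact val_cont (b l)
      · simp only [g, h, if_false]
        exact continuous_const
    have hg0 : ∀ l z, z ∉ VV x φ l (y l) → g l z = 0 := by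
      intro l z hz
      by_cases h : l ∈ E
      · simp only [g, h, if_true]
        exact hb2 l z hz
      · simp only [g, h, if_false]
    have hlf : LocallyFinite fun l => Function.support (g l) := by
      intro z
      refine ⟨{w | |(|φ w| - |φ z|)| < 1 / 2}, ?_, ?_⟩
      · refine IsOpen.mem_nhds (isOpen_lt ((φ.continuous.abs.sub continuous_const).abs)
          continuous_const) ?_
        simp
      · obtain ⟨n, hn⟩ := exists_nat_gt (|φ z| + 1)
        refine (Set.finite_lt_nat n).subset ?_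
        rintro l ⟨w, hw1, hw2⟩
        have hw3 : w ∈ VV x φ l (y l) := by
          by_contra h
          exact hw1 (hg0 l w h)
        have hw2' : |(|φ w| - |φ z|)| < 1 / 2 := hw2
        have h3 := abs_lt.mp hw3.1
        have h4 := abs_lt.mp hw2'
        have h5 := hlow l
        have h6 : (l : ℝ) < n := by linarith [h3.1, h3.2, h4.1, h4.2]
        exact_mod_cast h6
    have hsum : Continuous fun z => ∑ᶠ l, g l z := continuous_finsum hgc hlf
    let f : Z X := ⟨fun z => Set.projIcc 0 1 zero_le_one (∑ᶠ l, g l z),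
      continuous_projIcc.comp hsum⟩
    have hf1 : ∀ k ∈ E, (f.1 (y k) : ℝ) = 1 := by
      intro k hk
      have h1 : ∑ᶠ l, g l (y k) = 1 := by
        rw [finsum_eq_single _ k]
        · simp only [g, hk, if_true]
          exact hb1 k
        · intro l hl
          apply hg0
          apply hdisj k l (y k) hl.symm
          exact ⟨by simp, fun j _ h => (hx (y k) (hyiso k)).1 j h.symm⟩
      simp only [f, h1]
      simp
    have hf0 : ∀ k ∈ E, ∀ j < k, (∀ l ∈ E, j ∉ J l) → (f.1 (x (y k) j) : ℝ) = 0 := by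
      intro k hk j hj hjJ
      have h1 : ∀ l, g l (x (y k) j) = 0 := by
        intro l
        by_cases hl : l ∈ E
        · apply hg0
          rcases lt_trichotomy l k with h | h | h
          · exact hyV l k j h hj (hJc l j (hjJ l hl))
          · rw [h]
            intro h2
            exact h2.2 j hj rfl
          · intro h2
            have h3 := abs_lt.mp h2.1
            have h4 := hyφ' k l j h (hj.trans h)
            linarith [h3.1, h3.2]
        · simp only [g, hl, if_false]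
      have h2 : ∑ᶠ l, g l (x (y k) j) = 0 := by
        rw [finsum_congr h1, finsum_zero]
      simp only [f, h2]
      simp
    obtain ⟨C, hC, hfC, hU⟩ := hN f
    let J' : Set ℕ := {j | ∀ l ∈ E, j ∉ J l}
    have hfin : ∀ S : Finset ℕ, (∀ j ∈ S, j ∈ J') →
        (C ∩ {f' : Z X | (f'.1 ys : ℝ) = 1 ∧ ∀ j ∈ S, (f'.1 (x ys j) : ℝ) = 0}).Nonempty := by
      intro S hS
      by_contra hemp
      rw [Set.not_nonempty_iff_eq_empty] at hemp
      have hcl' : IsClosed {f' : Z X | (f'.1 ys : ℝ) = 1 ∧ ∀ j ∈ S, (f'.1 (x ys j) : ℝ) = 0} := by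
        have : {f' : Z X | (f'.1 ys : ℝ) = 1 ∧ ∀ j ∈ S, (f'.1 (x ys j) : ℝ) = 0} =
            {f' : Z X | (f'.1 ys : ℝ) = 1} ∩ ⋂ j ∈ S, {f' : Z X | (f'.1 (x ys j) : ℝ) = 0} := by
          ext f'
          simp
        rw [this]
        exact (isClosed_eq (eval_cont ys) continuous_const).inter
          (isClosed_biInter fun j _ => isClosed_eq (eval_cont _) continuous_const)
      obtain ⟨F, hF, hCF, hFU⟩ := hU _ hcl'.isOpen_compl (by
        intro f' hf' h
        have : f' ∈ C ∩ {f' : Z X | (f'.1 ys : ℝ) = 1 ∧ ∀ j ∈ S, (f'.1 (x ys j) : ℝ) = 0} :=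
          ⟨hf', h⟩
        rw [hemp] at this
        exact this)
      have hp : (F, S) ∈ Good := ⟨hF, fun f' hf' h => hFU hf' h⟩
      have hp2 : FF x (F, S) ∈ 𝒢 := mem_insert_of_mem _ ⟨(F, S), hp, rfl⟩
      rw [hG] at hp2
      obtain ⟨i, hi⟩ := hp2
      obtain ⟨k, hkE, hk⟩ := hE (i + S.sup id + 1)
      have h1 : y k ∈ G i := hyG k i (by omega)
      rw [hi] at h1
      refine h1 f (hCF hfC) ⟨hf1 k hkE, ?_⟩
      intro j hj
      refine hf0 k hkE j ?_ (hS j hj)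
      have : j ≤ S.sup id := Finset.le_sup (f := id) hj
      omega
    obtain ⟨fl, hflC, hfl⟩ := hC.inter_iInter_nonempty
      (fun j : J' => {f' : Z X | (f'.1 ys : ℝ) = 1 ∧ (f'.1 (x ys j.1) : ℝ) = 0})
      (fun j => (isClosed_eq (eval_cont ys) continuous_const).inter
        (isClosed_eq (eval_cont _) continuous_const)) (by
        intro u
        obtain ⟨f', hf'1, hf'2, hf'3⟩ := hfin (u.image Subtype.val) (by
          intro j hj
          obtain ⟨j', _, rfl⟩ := Finset.mem_image.mp hj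
          exact j'.2)
        refine ⟨f', hf'1, ?_⟩
        refine mem_iInter₂.mpr fun j hj => ?_
        exact ⟨hf'2, hf'3 j.1 (Finset.mem_image_of_mem _ hj)⟩)
    have hfl0 : ∀ j ∈ J', (fl.1 (x ys j) : ℝ) = 0 := fun j hj =>
      (mem_iInter.mp hfl ⟨j, hj⟩).2
    have hJ'ne : J'.Nonempty := by
      have := closure_nonempty_iff.mp ⟨ys, hcl⟩
      exact Set.image_nonempty.mp this
    obtain ⟨j₀, hj₀⟩ := hJ'ne
    have hfl1 : (fl.1 ys : ℝ) = 1 := (mem_iInter.mp hfl ⟨j₀, hj₀⟩).1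
    have hcl0 : IsClosed {z : X | (fl.1 z : ℝ) = 0} := isClosed_eq (val_cont fl) continuous_const
    have h0 : ys ∈ {z : X | (fl.1 z : ℝ) = 0} := by
      refine closure_minimal ?_ hcl0 hcl
      rintro _ ⟨j, hj, rfl⟩
      exact hfl0 j hj
    have h0' : (fl.1 ys : ℝ) = 0 := h0
    rw [hfl1] at h0'
    norm_num at h0'
  -- even and odd indices
  have hcover : range (x ys) ⊆ ((x ys) '' {j | ∀ l ∈ {l : ℕ | Even l}, j ∉ J l}) ∪
      ((x ys) '' {j | ∀ l ∈ {l : ℕ | ¬ Even l}, j ∉ J l}) := by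
    rintro _ ⟨j, rfl⟩
    by_cases h : ∀ l ∈ {l : ℕ | Even l}, j ∉ J l
    · exact Or.inl ⟨j, h, rfl⟩
    · push Not at h
      obtain ⟨l, hl, hjl⟩ := h
      refine Or.inr ⟨j, ?_, rfl⟩
      intro l' hl' hjl'
      have hne : l ≠ l' := by
        rintro rfl
        exact hl' hl
      exact hJ l l' j hne hjl hjl'
  have h1 := closure_mono hcover (hx ys hys).2
  rw [closure_union] at h1
  rcases h1 with h1 | h1
  · refine key _ ?_ h1
    intro n
    exact ⟨2 * n, by simp, by omega⟩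
  · refine key _ ?_ h1
    intro n
    refine ⟨2 * n + 1, ?_, by omega⟩
    show ¬ Even (2 * n + 1)
    rw [Nat.even_add_one]
    simp

/-! ### The closure of the set of non-isolated points -/

/-- The evaluation map. -/
def ee (X : Type) [TopologicalSpace X] : X → C(X, ℝ) → ℝ := fun x f => f x

/-- The non-isolated points. -/
def YY (X : Type) [TopologicalSpace X] : Set X := {x : X | ¬ IsOpen ({x} : Set X)}

/-- The closure of the non-isolated points. -/
abbrev PP (X : Type) [TopologicalSpace X] : Set (C(X, ℝ) → ℝ) := closure (ee X '' YY X)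

/-- Closed relations that hold on `Y` hold on the closure. -/
theorem closed_rel {R : Set (C(X, ℝ) → ℝ)} (hR : IsClosed R) (h : ∀ y ∈ YY X, ee X y ∈ R)
    {q : C(X, ℝ) → ℝ} (hq : q ∈ PP X) : q ∈ R := by
  refine closure_minimal ?_ hR hq
  rintro _ ⟨y, hy, rfl⟩
  exact h y hy

/-- If `q` is not in the closure of `G`, then some function vanishes at `q` and is `1` on `G`. -/
theorem exists_h {q : C(X, ℝ) → ℝ} (hq : q ∈ PP X) {G : Set X}
    (hG : q ∉ closure (ee X '' G)) :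
    ∃ h : C(X, ℝ), (∀ x, 0 ≤ h x ∧ h x ≤ 1) ∧ (∀ x ∈ G, h x = 1) ∧ q h = 0 := by
  classical
  have hO : IsOpen (closure (ee X '' G))ᶜ := isClosed_closure.isOpen_compl
  obtain ⟨I, u, hu, hI⟩ := isOpen_pi_iff.mp hO q hG
  have hε : ∀ φ : C(X, ℝ), ∃ ε : ℝ, 0 < ε ∧ (φ ∈ I → Metric.ball (q φ) ε ⊆ u φ) := by
    intro φ
    by_cases h : φ ∈ I
    · obtain ⟨ε, hε, h2⟩ := Metric.isOpen_iff.mp (hu φ h).1 (q φ) (hu φ h).2
      exact ⟨ε, hε, fun _ => h2⟩
    · exact ⟨1, one_pos, fun h' => absurd h' h⟩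
  choose ε hε1 hε2 using hε
  have hterm : ∀ x, ∀ φ ∈ I, 0 ≤ |φ x - q φ| / ε φ := fun x φ _ =>
    div_nonneg (abs_nonneg _) (hε1 φ).le
  refine ⟨⟨fun x => min 1 (∑ φ ∈ I, |φ x - q φ| / ε φ), by fun_prop⟩, ?_, ?_, ?_⟩
  · intro x
    refine ⟨le_min zero_le_one (Finset.sum_nonneg (hterm x)), min_le_left _ _⟩
  · intro x hx
    change min 1 (∑ φ ∈ I, |φ x - q φ| / ε φ) = 1
    apply min_eq_left
    have h1 : ee X x ∉ (I : Set C(X, ℝ)).pi u := fun h =>
      (hI h) (subset_closure (mem_image_of_mem _ hx))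
    rw [Set.mem_pi] at h1
    push Not at h1
    obtain ⟨φ, hφ, h2⟩ := h1
    have h3 : ε φ ≤ |φ x - q φ| := by
      by_contra h4
      push Not at h4
      apply h2
      apply hε2 φ hφ
      rw [Metric.mem_ball, Real.dist_eq]
      exact h4
    have h4 : 1 ≤ |φ x - q φ| / ε φ := by
      rw [le_div_iff₀ (hε1 φ)]
      linarith
    exact h4.trans (Finset.single_le_sum (hterm x) hφ)
  · set h : C(X, ℝ) := ⟨fun x => min 1 (∑ φ ∈ I, |φ x - q φ| / ε φ), by fun_prop⟩ with hh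
    have hR : IsClosed {r : C(X, ℝ) → ℝ | r h = min 1 (∑ φ ∈ I, |r φ - q φ| / ε φ)} := by
      refine isClosed_eq (continuous_apply _) ?_
      fun_prop
    have h1 : q ∈ {r : C(X, ℝ) → ℝ | r h = min 1 (∑ φ ∈ I, |r φ - q φ| / ε φ)} :=
      closed_rel hR (fun y _ => rfl) hq
    have h2 : q h = min 1 (∑ φ ∈ I, |q φ - q φ| / ε φ) := h1
    rw [h2]
    simp

/-- A function that vanishes at `q` vanishes at some non-isolated point. -/
theorem exists_zero {q : C(X, ℝ) → ℝ} (hq : q ∈ PP X) (u : C(X, ℝ)) (hu : q u = 0) :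
    ∃ y ∈ YY X, u y = 0 := by
  classical
  by_contra hcon
  push Not at hcon
  have hD : ∀ x, u x = 0 → IsOpen ({x} : Set X) := by
    intro x hx
    by_contra h
    exact hcon x h hx
  have hw : Continuous fun x : X => if u x = 0 then (1 : ℝ) else (u x)⁻¹ := by
    rw [continuous_iff_continuousAt]
    intro x
    by_cases hx : u x = 0
    · have h1 : 𝓝 x = pure x := by
        exact ((isOpen_singleton_iff_nhds_eq_pure x).mp (hD x hx))
      rw [ContinuousAt, h1]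
      exact tendsto_pure_nhds _ _
    · have h1 : ∀ᶠ z in 𝓝 x, u z ≠ 0 :=
        u.continuous.continuousAt.eventually_ne hx
      have h2 : ContinuousAt (fun z => (u z)⁻¹) x := u.continuous.continuousAt.inv₀ hx
      refine h2.congr ?_
      filter_upwards [h1] with z hz
      rw [if_neg hz]
  let w : C(X, ℝ) := ⟨_, hw⟩
  have hR : IsClosed {r : C(X, ℝ) → ℝ | r w * r u = 1} :=
    isClosed_eq (by fun_prop) continuous_const
  have h1 : q ∈ {r : C(X, ℝ) → ℝ | r w * r u = 1} := by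
    refine closed_rel hR (fun y hy => ?_) hq
    change (if u y = 0 then (1 : ℝ) else (u y)⁻¹) * u y = 1
    rw [if_neg (hcon y hy)]
    exact inv_mul_cancel₀ (hcon y hy)
  have h2 : q w * q u = 1 := h1
  rw [hu, mul_zero] at h2
  exact zero_ne_one h2

/-- A countable family of sets whose closures miss `q` does not cover `Y`. -/
theorem not_cover {q : C(X, ℝ) → ℝ} (hq : q ∈ PP X) (G : ℕ → Set X)
    (hG : ∀ n, q ∉ closure (ee X '' G n)) : ∃ y ∈ YY X, ∀ n, y ∉ G n := by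
  choose h h1 h2 h3 using fun n => exists_h hq (hG n)
  have hb : ∀ n x, ‖(1 / 2 : ℝ) ^ n * h n x‖ ≤ (1 / 2 : ℝ) ^ n := by
    intro n x
    rw [norm_mul, norm_pow, Real.norm_eq_abs, Real.norm_eq_abs, abs_of_nonneg (h1 n x).1]
    have : |(1 / 2 : ℝ)| = 1 / 2 := abs_of_pos (by norm_num)
    rw [this]
    have h4 : (0 : ℝ) ≤ (1 / 2) ^ n := by positivity
    nlinarith [(h1 n x).2]
  have hs : Summable fun n : ℕ => (1 / 2 : ℝ) ^ n := summable_geometric_two
  have hsx : ∀ x, Summable fun n : ℕ => (1 / 2 : ℝ) ^ n * h n x := fun x =>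
    Summable.of_norm_bounded hs (fun n => hb n x)
  have hnn : ∀ x n, 0 ≤ (1 / 2 : ℝ) ^ n * h n x := fun x n =>
    mul_nonneg (by positivity) (h1 n x).1
  let u : C(X, ℝ) := ⟨fun x => ∑' n, (1 / 2 : ℝ) ^ n * h n x,
    continuous_tsum (fun n => continuous_const.mul (h n).continuous) hs hb⟩
  have hu : q u = 0 := by
    have hN : ∀ N : ℕ, |q u| ≤ 2 * (1 / 2 : ℝ) ^ N := by
      intro N
      have hR : IsClosed {r : C(X, ℝ) → ℝ | |r u - ∑ n ∈ Finset.range N, (1 / 2 : ℝ) ^ n * r (h n)| ≤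
          2 * (1 / 2 : ℝ) ^ N} := by
        refine isClosed_le ?_ continuous_const
        fun_prop
      have hq1 : q ∈ {r : C(X, ℝ) → ℝ | |r u - ∑ n ∈ Finset.range N, (1 / 2 : ℝ) ^ n * r (h n)| ≤
          2 * (1 / 2 : ℝ) ^ N} := by
        refine closed_rel hR (fun y _ => ?_) hq
        change |(∑' n, (1 / 2 : ℝ) ^ n * h n y) - ∑ n ∈ Finset.range N, (1 / 2 : ℝ) ^ n * h n y| ≤ _
        rw [← (hsx y).sum_add_tsum_nat_add N, add_sub_cancel_left, abs_of_nonneg
          (tsum_nonneg fun n => hnn y (n + N))]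
        have h5 : ∀ n, (1 / 2 : ℝ) ^ (n + N) * h (n + N) y ≤ (1 / 2) ^ N * (1 / 2 : ℝ) ^ n := by
          intro n
          rw [pow_add]
          have h6 : (0 : ℝ) ≤ (1 / 2) ^ n * (1 / 2) ^ N := by positivity
          nlinarith [(h1 (n + N) y).2]
        have h6 : Summable fun n : ℕ => (1 / 2 : ℝ) ^ N * (1 / 2 : ℝ) ^ n := hs.mul_left _
        have h7 := ((summable_nat_add_iff N).mpr (hsx y)).tsum_le_tsum h5 h6
        rw [tsum_mul_left, tsum_geometric_two] at h7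
        linarith
      have hq2 : |q u - ∑ n ∈ Finset.range N, (1 / 2 : ℝ) ^ n * q (h n)| ≤
          2 * (1 / 2 : ℝ) ^ N := hq1
      have h8 : ∑ n ∈ Finset.range N, (1 / 2 : ℝ) ^ n * q (h n) = 0 :=
        Finset.sum_eq_zero fun n _ => by rw [h3 n, mul_zero]
      rwa [h8, sub_zero] at hq2
    have hlim : Tendsto (fun N : ℕ => 2 * (1 / 2 : ℝ) ^ N) atTop (𝓝 (2 * 0)) :=
      (tendsto_pow_atTop_nhds_zero_of_lt_one (by norm_num) (by norm_num)).const_mul 2
    rw [mul_zero] at hlim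
    have := ge_of_tendsto' hlim hN
    exact abs_nonpos_iff.mp this
  obtain ⟨y, hy, huy⟩ := exists_zero hq u hu
  refine ⟨y, hy, fun n hn => ?_⟩
  have h4 : (1 / 2 : ℝ) ^ n * h n y ≤ u y := (hsx y).le_tsum n fun m _ => hnn y m
  rw [huy, h2 n y hn, mul_one] at h4
  have : (0 : ℝ) < (1 / 2) ^ n := by positivity
  linarith

theorem main (X : Type) [TopologicalSpace X] [T35Space X] {𝓕 : Set (Set (Z X))}
    (hc : 𝓕.Countable) (hN : Net 𝓕) :
    ∃ 𝓕' : Set (Set (PP X)), 𝓕'.Countable ∧ ∀ g : PP X, ∃ C : Set (PP X), IsCompact C ∧ g ∈ C ∧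
      ∀ U : Set (PP X), IsOpen U → C ⊆ U → ∃ F ∈ 𝓕', C ⊆ F ∧ F ⊆ U := by
  classical
  have hex : ∀ y : X, ∃ s : ℕ → X, ¬ IsOpen ({y} : Set X) → (∀ j, s j ≠ y) ∧ y ∈ closure (range s) := by
    intro y
    by_cases hy : IsOpen ({y} : Set X)
    · exact ⟨fun _ => y, fun h => absurd hy h⟩
    · obtain ⟨s, hs⟩ := exists_seq hc hN y hy
      exact ⟨s, fun _ => hs⟩
  choose x hx using hex
  let Gd : Set (Finset (Set (Z X) × Finset ℕ)) := {t | ∀ p ∈ t, p.1 ∈ 𝓕}
  have hGd : Gd.Countable := by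
    have h1 : (𝓕 ×ˢ (univ : Set (Finset ℕ))).Countable := hc.prod countable_univ
    have h2 := Set.countable_ofPred_finite_subset h1
    refine (h2.preimage_of_injOn (f := fun t : Finset (Set (Z X) × Finset ℕ) =>
      (t : Set (Set (Z X) × Finset ℕ))) (fun a _ b _ h => Finset.coe_injective h)).mono ?_
    intro t ht
    exact ⟨t.finite_toSet, fun p hp => ⟨ht p hp, mem_univ _⟩⟩
  let G : Finset (Set (Z X) × Finset ℕ) → Set X := fun t => {y | y ∈ YY X ∧ ∀ p ∈ t, y ∈ FF x p}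
  let A : Finset (Set (Z X) × Finset ℕ) → Set (PP X) := fun t => {q | q.1 ∈ closure (ee X '' G t)}
  have hAcl : ∀ t, IsClosed (A t) := fun t => isClosed_closure.preimage continuous_subtype_val
  have hGmono : ∀ t t', t ⊆ t' → G t' ⊆ G t := fun t t' h y hy => ⟨hy.1, fun p hp => hy.2 p (h hp)⟩
  have hAmono : ∀ t t', t ⊆ t' → A t' ⊆ A t := fun t t' h q hq =>
    closure_mono (image_mono (hGmono t t' h)) hq
  refine ⟨A '' Gd, hGd.image _, ?_⟩
  intro q
  -- the point `y`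
  obtain ⟨y, hyY, hy⟩ : ∃ y ∈ YY X, ∀ t ∈ Gd, y ∈ G t → q ∈ A t := by
    by_cases hemp : {t | t ∈ Gd ∧ q ∉ A t} = ∅
    · have hne : (ee X '' YY X).Nonempty := closure_nonempty_iff.mp ⟨q.1, q.2⟩
      obtain ⟨_, y, hy, _⟩ := hne
      refine ⟨y, hy, fun t ht _ => ?_⟩
      by_contra h
      have : t ∈ {t | t ∈ Gd ∧ q ∉ A t} := ⟨ht, h⟩
      rw [hemp] at this
      exact this
    · obtain ⟨e, he⟩ := (hGd.mono (show {t | t ∈ Gd ∧ q ∉ A t} ⊆ Gd from fun t h => h.1)).exists_eq_range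
        (Set.nonempty_iff_ne_empty.mpr hemp)
      obtain ⟨y, hy, h1⟩ := not_cover q.2 (fun n => G (e n)) (by
        intro n
        have : e n ∈ {t | t ∈ Gd ∧ q ∉ A t} := by rw [he]; exact mem_range_self n
        exact this.2)
      refine ⟨y, hy, fun t ht hyt => ?_⟩
      by_contra h
      have : t ∈ {t | t ∈ Gd ∧ q ∉ A t} := ⟨ht, h⟩
      rw [he] at this
      obtain ⟨n, rfl⟩ := this
      exact h1 n hyt
  -- boundedness
  have hbd : ∀ φ : C(X, ℝ), ∃ t ∈ Gd, y ∈ G t ∧ ∃ n : ℕ, ∀ r ∈ A t, |r.1 φ| ≤ n := by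
    intro φ
    obtain ⟨t, ht, n, hn⟩ := bounded_of_net hc hN x hx y hyY φ
    refine ⟨t, fun p hp => (ht p hp).1, ⟨hyY, fun p hp => (ht p hp).2⟩, n, ?_⟩
    intro r hr
    have hR : IsClosed {r : C(X, ℝ) → ℝ | |r φ| ≤ n} :=
      isClosed_le (continuous_apply φ).abs continuous_const
    refine closure_minimal ?_ hR hr
    rintro _ ⟨y', hy', rfl⟩
    exact hn y' hy'.1 hy'.2
  -- convergence of ultrafilters
  have hconv : ∀ 𝒲 : Ultrafilter (PP X), (∀ t ∈ Gd, y ∈ G t → A t ∈ 𝒲) →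
      ∃ r : PP X, (𝒲 : Filter (PP X)) ≤ 𝓝 r := by
    intro 𝒲 h𝒲
    have h1 : ∀ φ : C(X, ℝ), ∃ c : ℝ, Tendsto (fun r : PP X => r.1 φ) 𝒲 (𝓝 c) := by
      intro φ
      obtain ⟨t, ht, hyt, n, hn⟩ := hbd φ
      obtain ⟨c, _, hc'⟩ := (isCompact_Icc (a := -(n : ℝ)) (b := n)).ultrafilter_le_nhds
        (𝒲.map fun r : PP X => r.1 φ) (by
          rw [Filter.le_principal_iff]
          change (fun r : PP X => r.1 φ) ⁻¹' _ ∈ 𝒲
          filter_upwards [h𝒲 t ht hyt] with r hr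
          exact abs_le.mp (hn r hr))
      exact ⟨c, hc'⟩
    choose c hc' using h1
    have h2 : Tendsto (fun r : PP X => r.1) 𝒲 (𝓝 c) := tendsto_pi_nhds.mpr hc'
    have h3 : c ∈ PP X := isClosed_closure.mem_of_tendsto h2
      (Filter.Eventually.of_forall fun r => r.2)
    refine ⟨⟨c, h3⟩, ?_⟩
    exact tendsto_subtype_rng.mpr h2
  refine ⟨⋂ t ∈ {t | t ∈ Gd ∧ y ∈ G t}, A t, ?_, ?_, ?_⟩
  · rw [isCompact_iff_ultrafilter_le_nhds]
    intro 𝒲 h𝒲
    rw [Filter.le_principal_iff] at h𝒲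
    obtain ⟨r, hr⟩ := hconv 𝒲 (fun t ht hyt => Filter.mem_of_superset h𝒲
      (Set.biInter_subset_of_mem ⟨ht, hyt⟩))
    refine ⟨r, ?_, hr⟩
    have hcl : IsClosed (⋂ t ∈ {t | t ∈ Gd ∧ y ∈ G t}, A t) := isClosed_biInter fun t _ => hAcl t
    exact hcl.mem_of_frequently_of_tendsto (f := fun r => r) (b := (𝒲 : Filter (PP X)))
      (Filter.Eventually.frequently h𝒲) hr
  · exact mem_iInter₂.mpr fun t ht => hy t ht.1 ht.2
  · intro U hU hCU
    by_contra hcon
    have hcon' : ∀ t ∈ Gd, y ∈ G t → ∃ r ∈ A t, r ∉ U := by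
      intro t ht hyt
      by_contra h
      push Not at h
      exact hcon ⟨A t, ⟨t, ht, rfl⟩, Set.biInter_subset_of_mem ⟨ht, hyt⟩, h⟩
    have hne : (⨅ t : {t | t ∈ Gd ∧ y ∈ G t}, 𝓟 (A t.1 ∩ Uᶜ)).NeBot := by
      have : Nonempty {t | t ∈ Gd ∧ y ∈ G t} := ⟨⟨∅, fun p hp => absurd hp (Finset.notMem_empty p),
        hyY, fun p hp => absurd hp (Finset.notMem_empty p)⟩⟩
      refine Filter.iInf_neBot_of_directed' ?_ fun t => Filter.principal_neBot_iff.mpr ?_
      · rintro ⟨t, ht1, ht2⟩ ⟨t', ht1', ht2'⟩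
        refine ⟨⟨t ∪ t', ?_, hyY, ?_⟩, ?_, ?_⟩
        · intro p hp
          rcases Finset.mem_union.mp hp with h | h
          · exact ht1 p h
          · exact ht1' p h
        · intro p hp
          rcases Finset.mem_union.mp hp with h | h
          · exact ht2.2 p h
          · exact ht2'.2 p h
        · change 𝓟 (A (t ∪ t') ∩ Uᶜ) ≤ 𝓟 (A t ∩ Uᶜ)
          rw [Filter.principal_mono]
          exact inter_subset_inter_left _ (hAmono _ _ Finset.subset_union_left)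
        · change 𝓟 (A (t ∪ t') ∩ Uᶜ) ≤ 𝓟 (A t' ∩ Uᶜ)
          rw [Filter.principal_mono]
          exact inter_subset_inter_left _ (hAmono _ _ Finset.subset_union_right)
      · obtain ⟨r, hr1, hr2⟩ := hcon' t.1 t.2.1 t.2.2
        exact ⟨r, hr1, hr2⟩
    let 𝒲 : Ultrafilter (PP X) := Ultrafilter.of (⨅ t : {t | t ∈ Gd ∧ y ∈ G t}, 𝓟 (A t.1 ∩ Uᶜ))
    have h𝒲 : ∀ t ∈ Gd, y ∈ G t → A t ∩ Uᶜ ∈ 𝒲 := fun t ht hyt =>
      Ultrafilter.of_le _ (Filter.mem_iInf_of_mem (⟨t, ht, hyt⟩ : {t | t ∈ Gd ∧ y ∈ G t})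
        (Filter.mem_principal_self _))
    obtain ⟨r, hr⟩ := hconv 𝒲 fun t ht hyt => Filter.mem_of_superset (h𝒲 t ht hyt) inter_subset_left
    have hmem : ∀ t ∈ Gd, y ∈ G t → r ∈ A t ∩ Uᶜ := by
      intro t ht hyt
      have hcl : IsClosed (A t ∩ Uᶜ) := (hAcl t).inter hU.isClosed_compl
      exact hcl.mem_of_frequently_of_tendsto (f := fun r => r) (b := (𝒲 : Filter (PP X)))
        (Filter.Eventually.frequently (h𝒲 t ht hyt)) hr
    have h0 : (∅ : Finset (Set (Z X) × Finset ℕ)) ∈ Gd := fun p hp => absurd hp (Finset.notMem_empty p)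
    have h1 : y ∈ G ∅ := ⟨hyY, fun p hp => absurd hp (Finset.notMem_empty p)⟩
    exact (hmem ∅ h0 h1).2 (hCU (mem_iInter₂.mpr fun t ht => (hmem t ht.1 ht.2).1))

/-- For every Tychonoff X: if C_p(X,[0,1]) is Lindelöf Σ, then the closure of the non-isolated points of X in υX is Lindelöf Σ. Here υX is the closure of X evaluated into ℝ^{C(X)}, and Lindelöf Σ means a countable network modulo a compact cover. -/
theorem result :
    ∀ (X : Type) [TopologicalSpace X] [T35Space X],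
      (∃ 𝓕 : Set (Set {f : X → Set.Icc (0:ℝ) 1 // Continuous f}), 𝓕.Countable ∧
        ∀ g : {f : X → Set.Icc (0:ℝ) 1 // Continuous f},
          ∃ C : Set {f : X → Set.Icc (0:ℝ) 1 // Continuous f},
            IsCompact C ∧ g ∈ C ∧
              ∀ U : Set {f : X → Set.Icc (0:ℝ) 1 // Continuous f},
                IsOpen U → C ⊆ U → ∃ F ∈ 𝓕, C ⊆ F ∧ F ⊆ U) →
      (∃ 𝓕 : Set (Set ↥(closure ((fun x : X => fun f : C(X, ℝ) => f x) ''
                {x : X | ¬ IsOpen ({x} : Set X)}))), 𝓕.Countable ∧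
        ∀ g : ↥(closure ((fun x : X => fun f : C(X, ℝ) => f x) ''
                {x : X | ¬ IsOpen ({x} : Set X)})),
          ∃ C : Set ↥(closure ((fun x : X => fun f : C(X, ℝ) => f x) ''
                {x : X | ¬ IsOpen ({x} : Set X)})),
            IsCompact C ∧ g ∈ C ∧
              ∀ U : Set ↥(closure ((fun x : X => fun f : C(X, ℝ) => f x) ''
                {x : X | ¬ IsOpen ({x} : Set X)})),
                IsOpen U → C ⊆ U → ∃ F ∈ 𝓕, C ⊆ F ∧ F ⊆ U) := by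
  intro X _ _ h
  obtain ⟨𝓕, hc, hN⟩ := h
  exact main X hc hN

end Pool.Agent.S09003
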