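import Pool.Statements.S09011
import Pool.Agent.Helper358.Box

set_option autoImplicit false
open Pool Pool.MP_d62ce2_gt

namespace Pool.Agent.S09011

/-- For every uncountable index set κ, the set of real κ-tuples with absolute sum at most 1 is homeomorphic (product topology) to its subset of tuples with all coordinates nonnegative. -/
theorem result :
    ∀ (κ : Type), ¬ Countable κ →
      Nonempty
        (↥{x : κ → ℝ | ∀ s : Finset κ, ∑ i ∈ s, |x i| ≤ 1} ≃ₜ
          ↥{x : κ → ℝ | (∀ s : Finset κ, ∑ i ∈ s, |x i| ≤ 1) ∧ ∀ i, 0 ≤ x i}) := by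
  intro κ hκ
  have : Uncountable κ := ⟨hκ⟩
  obtain ⟨h⟩ := Pool.Agent.Helper358.Box.ball_homeo_pos κ
  refine ⟨h.trans (Homeomorph.setCongr ?_)⟩
  ext x
  exact and_comm

end Pool.Agent.S09011
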