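import Pool.Statements.S09016
import Pool.Agent.Helper27.CpCube3

set_option autoImplicit false
open Pool Pool.MP_d6b4bb_gt

namespace Pool.Agent.S09016

/-- The negation of the preceding statement: For an index set of size aleph-one, the continuous real functions on the Cantor cube {0,1}^ω₁ (pointwise topology) embed topologically into the continuous real functions on the Tychonoff cube [0,1]^ω₁ (pointwise topology). -/
theorem result :
    ¬ (∀ ι : Type, Cardinal.mk ι = Cardinal.aleph 1 →
      ∃ f : {g : (ι → Bool) → ℝ // Continuous g} →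
            {g : (ι → unitInterval) → ℝ // Continuous g},
        Topology.IsEmbedding f) := by
  classical
  intro H
  let ι : Type := (Cardinal.aleph 1).ord.ToType
  have hcard : Cardinal.mk ι = Cardinal.aleph 1 := Cardinal.mk_ord_toType _
  have hU : ¬ (Set.univ : Set ι).Countable := by
    rw [← Cardinal.le_aleph0_iff_set_countable, Cardinal.mk_univ, hcard]
    exact not_le.mpr Cardinal.aleph0_lt_aleph_one
  obtain ⟨f, hf⟩ := H ι hcard
  obtain ⟨N, hN, hnet⟩ := Pool.Agent.Helper27.CpCube.exists_network f hf.continuous
  -- the coordinate projections form an uncountable discrete set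
  let χ : Bool → ℝ := fun b => if b = true then 1 else 0
  let P : ι → {g : (ι → Bool) → ℝ // Continuous g} := fun i =>
    ⟨fun x => χ (x i), (continuous_of_discreteTopology (f := χ)).comp (continuous_apply i)⟩
  let e : ι → (ι → Bool) := fun i j => decide (j = i)
  have hP : ∀ i j, (P i).1 (e j) = if i = j then 1 else 0 := by
    intro i j
    change χ (decide (i = j)) = _
    by_cases hij : i = j <;> simp [χ, hij]
  let V : ι → Set {g : (ι → Bool) → ℝ // Continuous g} := fun i => {g | 1 / 2 < g.1 (e i)}
  have hV : ∀ i, IsOpen (V i) := by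
    intro i
    have hc : Continuous (fun g : {g : (ι → Bool) → ℝ // Continuous g} => g.1 (e i)) :=
      (continuous_apply (e i)).comp continuous_subtype_val
    exact isOpen_lt continuous_const hc
  have hex : ∀ i, ∃ n ∈ N, f (P i) ∈ n ∧ ∀ j, f (P j) ∈ n → j = i := by
    intro i
    obtain ⟨W, hW, hWV⟩ := hf.isInducing.isOpen_iff.mp (hV i)
    have hmem : f (P i) ∈ W := by
      have : P i ∈ f ⁻¹' W := by
        rw [hWV]
        change (1 : ℝ) / 2 < (P i).1 (e i)
        rw [hP, if_pos rfl]
        norm_num
      exact this
    obtain ⟨n, hn, h1, h2⟩ := hnet (f (P i)) ⟨P i, rfl⟩ W hW hmem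
    refine ⟨n, hn, h1, ?_⟩
    intro j hj
    have h3 : P j ∈ f ⁻¹' W := (h2 hj).1
    rw [hWV] at h3
    have h4 : (1 : ℝ) / 2 < (P j).1 (e i) := h3
    rw [hP] at h4
    by_contra hne
    rw [if_neg hne] at h4
    norm_num at h4
  choose n hn h1 h2 using hex
  apply hU
  have hinj : Set.InjOn n Set.univ := by
    intro i _ j _ hij
    have h3 := h1 i
    rw [hij] at h3
    exact h2 j i h3
  apply Set.countable_of_injective_of_countable_image hinj
  apply hN.mono
  rintro _ ⟨i, _, rfl⟩
  exact hn i

end Pool.Agent.S09016
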