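import Pool.Statements.S09018
-- import your own Pool.Agent.* helpers here

set_option autoImplicit false
open Pool Pool.MP_d722ac_gt

namespace Pool.Agent.S09018

section Helpers

open MeasureTheory Set
open scoped Pointwise

/-! ### Volume of the simplex -/

def spx (ι : Type) [Fintype ι] (r : ℝ) : Set (ι → ℝ) := {x | (∀ i, 0 < x i) ∧ ∑ i, x i < r}

lemma measurableSet_spx (ι : Type) [Fintype ι] (r : ℝ) : MeasurableSet (spx ι r) := by
  have h1 : MeasurableSet {x : ι → ℝ | ∀ i, 0 < x i} := by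
    have : {x : ι → ℝ | ∀ i, 0 < x i} = ⋂ i, {x | 0 < x i} := by ext; simp
    rw [this]
    exact MeasurableSet.iInter fun i => measurableSet_lt measurable_const (measurable_pi_apply i)
  have h2 : MeasurableSet {x : ι → ℝ | ∑ i, x i < r} :=
    measurableSet_lt (Finset.measurable_sum _ fun i _ => measurable_pi_apply i) measurable_const
  exact h1.inter h2

lemma volume_spx_fin (k : ℕ) : ∀ r : ℝ, 0 < r →
    volume (spx (Fin k) r) = ENNReal.ofReal (r ^ k / k.factorial) := by
  induction k with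
  | zero =>
    intro r hr
    have : spx (Fin 0) r = univ := by
      ext x; simp [spx, hr]
    rw [this]
    simp [volume_pi]
  | succ k ih =>
    intro r hr
    have e := volume_preserving_piFinSuccAbove (fun _ : Fin (k + 1) => ℝ) 0
    set A : Set (ℝ × (Fin k → ℝ)) := {p | 0 < p.1 ∧ p.2 ∈ spx (Fin k) (r - p.1)} with hA
    have hpre : (MeasurableEquiv.piFinSuccAbove (fun _ : Fin (k + 1) => ℝ) 0) ⁻¹' A =
        spx (Fin (k + 1)) r := by
      ext x
      change (0 < x 0 ∧ (∀ i : Fin k, 0 < x (Fin.succ i)) ∧ ∑ i : Fin k, x (Fin.succ i) < r - x 0) ↔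
        ((∀ i, 0 < x i) ∧ ∑ i, x i < r)
      rw [Fin.forall_fin_succ, Fin.sum_univ_succ]
      constructor
      · rintro ⟨h1, h2, h3⟩; exact ⟨⟨h1, h2⟩, by linarith⟩
      · rintro ⟨⟨h1, h2⟩, h3⟩; exact ⟨h1, h2, by linarith⟩
    have hAm : MeasurableSet A := by
      have h1 : MeasurableSet {p : ℝ × (Fin k → ℝ) | 0 < p.1} :=
        measurableSet_lt measurable_const measurable_fst
      have h2 : MeasurableSet {p : ℝ × (Fin k → ℝ) | ∀ i, 0 < p.2 i} := by
        have : {p : ℝ × (Fin k → ℝ) | ∀ i, 0 < p.2 i} = ⋂ i, {p | 0 < p.2 i} := by ext; simp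
        rw [this]
        exact MeasurableSet.iInter fun i =>
          measurableSet_lt measurable_const ((measurable_pi_apply i).comp measurable_snd)
      have h3 : MeasurableSet {p : ℝ × (Fin k → ℝ) | ∑ i, p.2 i < r - p.1} :=
        measurableSet_lt (Finset.measurable_sum _ fun i _ =>
          (measurable_pi_apply i).comp measurable_snd) (measurable_const.sub measurable_fst)
      exact h1.inter (h2.inter h3)
    rw [← hpre, e.measure_preimage_equiv, Measure.volume_eq_prod, Measure.prod_apply hAm]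
    have hfun : ∀ t : ℝ, volume (Prod.mk t ⁻¹' A) =
        (Ioo 0 r).indicator (fun t => ENNReal.ofReal ((r - t) ^ k / k.factorial)) t := by
      intro t
      by_cases ht : t ∈ Ioo 0 r
      · rw [indicator_of_mem ht, ← ih (r - t) (by linarith [ht.2])]
        congr 1
        ext x
        exact ⟨fun h => h.2, fun h => ⟨ht.1, h⟩⟩
      · rw [indicator_of_notMem ht]
        have : Prod.mk t ⁻¹' A = ∅ := by
          rw [Set.eq_empty_iff_forall_notMem]
          rintro x ⟨h1, h2, h3⟩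
          apply ht
          refine ⟨h1, ?_⟩
          have : 0 ≤ ∑ i, x i := Finset.sum_nonneg fun i _ => (h2 i).le
          have h1' : (0:ℝ) < t := h1
          have h3' : ∑ i, x i < r - t := h3
          linarith
        rw [this, measure_empty]
    simp_rw [hfun]
    rw [lintegral_indicator measurableSet_Ioo]
    rw [← ofReal_integral_eq_lintegral_ofReal]
    · congr 1
      rw [← integral_Ioc_eq_integral_Ioo, ← intervalIntegral.integral_of_le hr.le,
        intervalIntegral.integral_div]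
      have := intervalIntegral.integral_comp_sub_left (fun x : ℝ => x ^ k) (a := 0) (b := r) r
      rw [this, integral_pow]
      rw [Nat.factorial_succ]
      push_cast
      simp only [sub_self, sub_zero]
      have : (k.factorial : ℝ) ≠ 0 := by positivity
      field_simp
      simp
    · have : Continuous (fun t : ℝ => (r - t) ^ k / (k.factorial : ℝ)) := by fun_prop
      exact (this.integrableOn_Icc (a := 0) (b := r)).mono_set Ioo_subset_Icc_self
    · filter_upwards [ae_restrict_mem measurableSet_Ioo] with t ht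
      have : 0 ≤ r - t := by linarith [ht.2]
      positivity

lemma volume_spx (ι : Type) [Fintype ι] (r : ℝ) (hr : 0 < r) :
    volume (spx ι r) = ENNReal.ofReal (r ^ (Fintype.card ι) / (Fintype.card ι).factorial) := by
  rw [← volume_spx_fin _ r hr]
  have e := Fintype.equivFin ι
  have h := volume_measurePreserving_piCongrLeft (fun _ : Fin (Fintype.card ι) => ℝ) e
  rw [← h.measure_preimage_equiv]
  congr 1
  ext x
  change ((∀ i, 0 < x i) ∧ ∑ i, x i < r) ↔
    ((∀ j, 0 < (MeasurableEquiv.piCongrLeft (fun _ : Fin (Fintype.card ι) => ℝ) e) x j) ∧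
      ∑ j, (MeasurableEquiv.piCongrLeft (fun _ : Fin (Fintype.card ι) => ℝ) e) x j < r)
  have hx : ∀ i, (MeasurableEquiv.piCongrLeft (fun _ : Fin (Fintype.card ι) => ℝ) e) x (e i) = x i := by
    intro i
    exact Equiv.piCongrLeft_apply_apply (fun _ : Fin (Fintype.card ι) => ℝ) e x i
  constructor
  · rintro ⟨h1, h2⟩
    constructor
    · intro j
      obtain ⟨i, rfl⟩ := e.surjective j
      rw [hx]; exact h1 i
    · rw [← e.sum_comp]
      simp_rw [hx]; exact h2
  · rintro ⟨h1, h2⟩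
    constructor
    · intro i
      have := h1 (e i)
      rwa [hx] at this
    · rw [← e.sum_comp] at h2
      simp_rw [hx] at h2; exact h2

/-! ### The body `W` -/

def Wset (k : ℕ) : Set (Fin k → ℝ) := {y | ∑ i, |y i| + |∑ i, y i| < 1}

def WP (k : ℕ) (P : Finset (Fin k)) : Set (Fin k → ℝ) :=
  {y | (∀ i ∈ P, 0 < y i) ∧ (∀ i, i ∉ P → y i < 0) ∧ ∑ i ∈ P, y i < 1 / 2 ∧
    ∑ i ∈ Pᶜ, (- y i) < 1 / 2}

lemma WP_subset (k : ℕ) (P : Finset (Fin k)) : WP k P ⊆ Wset k := by
  rintro y ⟨h1, h2, h3, h4⟩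
  have e1 : ∑ i, |y i| = ∑ i ∈ P, y i + ∑ i ∈ Pᶜ, (- y i) := by
    rw [← Finset.sum_add_sum_compl P]
    congr 1
    · exact Finset.sum_congr rfl fun i hi => abs_of_pos (h1 i hi)
    · exact Finset.sum_congr rfl fun i hi => abs_of_neg (h2 i (Finset.mem_compl.1 hi))
  have e2 : ∑ i, y i = ∑ i ∈ P, y i - ∑ i ∈ Pᶜ, (- y i) := by
    rw [← Finset.sum_add_sum_compl P, Finset.sum_neg_distrib]; ring
  change ∑ i, |y i| + |∑ i, y i| < 1
  rw [e1, e2]
  rcases abs_cases (∑ i ∈ P, y i - ∑ i ∈ Pᶜ, (- y i)) with ⟨h, -⟩ | ⟨h, -⟩ <;> rw [h] <;> linarith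

lemma WP_disjoint (k : ℕ) : Pairwise (fun P Q => Disjoint (WP k P) (WP k Q)) := by
  intro P Q hPQ
  rw [Set.disjoint_left]
  rintro y ⟨h1, h2, -, -⟩ ⟨h1', h2', -, -⟩
  apply hPQ
  ext i
  constructor
  · intro hi
    by_contra hc
    linarith [h1 i hi, h2' i hc]
  · intro hi
    by_contra hc
    linarith [h1' i hi, h2 i hc]

lemma measurableSet_WP (k : ℕ) (P : Finset (Fin k)) : MeasurableSet (WP k P) := by
  have h1 : MeasurableSet {y : Fin k → ℝ | ∀ i ∈ P, 0 < y i} := by
    have : {y : Fin k → ℝ | ∀ i ∈ P, 0 < y i} = ⋂ i ∈ P, {y | 0 < y i} := by ext; simp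
    rw [this]
    exact Finset.measurableSet_biInter _ fun i _ =>
      measurableSet_lt measurable_const (measurable_pi_apply i)
  have h2 : MeasurableSet {y : Fin k → ℝ | ∀ i, i ∉ P → y i < 0} := by
    have : {y : Fin k → ℝ | ∀ i, i ∉ P → y i < 0} = ⋂ i ∈ Pᶜ, {y | y i < 0} := by ext; simp
    rw [this]
    exact Finset.measurableSet_biInter _ fun i _ =>
      measurableSet_lt (measurable_pi_apply i) measurable_const
  have h3 : MeasurableSet {y : Fin k → ℝ | ∑ i ∈ P, y i < 1 / 2} :=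
    measurableSet_lt (Finset.measurable_sum _ fun i _ => measurable_pi_apply i) measurable_const
  have h4 : MeasurableSet {y : Fin k → ℝ | ∑ i ∈ Pᶜ, (- y i) < 1 / 2} :=
    measurableSet_lt (Finset.measurable_sum _ fun i _ => (measurable_pi_apply i).neg) measurable_const
  exact h1.inter (h2.inter (h3.inter h4))

lemma volume_WP (k : ℕ) (P : Finset (Fin k)) : volume (WP k P) =
    ENNReal.ofReal ((1 / 2) ^ k / (P.card.factorial * (k - P.card).factorial)) := by
  classical
  have e := volume_preserving_piEquivPiSubtypeProd (fun _ : Fin k => ℝ) (fun i => i ∈ P)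
  set A : Set ({i // i ∈ P} → ℝ) := spx {i // i ∈ P} (1 / 2)
  set B : Set ({i // i ∉ P} → ℝ) := Neg.neg ⁻¹' spx {i // i ∉ P} (1 / 2)
  have hpre : (MeasurableEquiv.piEquivPiSubtypeProd (fun _ : Fin k => ℝ) (fun i => i ∈ P)) ⁻¹' (A ×ˢ B) =
      WP k P := by
    ext y
    have s1 : ∑ i : {i // i ∈ P}, y i = ∑ i ∈ P, y i := Finset.sum_coe_sort P y
    have s2 : ∑ i : {i // i ∉ P}, - y i = ∑ i ∈ Pᶜ, - y i := by
      rw [← Finset.sum_subtype (p := fun i => i ∉ P) (f := fun i => - y i) Pᶜ]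
      intro x; simp
    change (((∀ i : {i // i ∈ P}, 0 < y i) ∧ ∑ i : {i // i ∈ P}, y i < 1 / 2) ∧
      ((∀ i : {i // i ∉ P}, 0 < - y i) ∧ ∑ i : {i // i ∉ P}, - y i < 1 / 2)) ↔
      ((∀ i ∈ P, 0 < y i) ∧ (∀ i, i ∉ P → y i < 0) ∧ ∑ i ∈ P, y i < 1 / 2 ∧
        ∑ i ∈ Pᶜ, (- y i) < 1 / 2)
    rw [s1, s2]
    constructor
    · rintro ⟨⟨a1, a2⟩, b1, b2⟩
      exact ⟨fun i hi => a1 ⟨i, hi⟩, fun i hi => by have := b1 ⟨i, hi⟩; linarith, a2, b2⟩
    · rintro ⟨h1, h2, h3, h4⟩
      exact ⟨⟨fun i => h1 i i.2, h3⟩, fun i => by have := h2 i i.2; linarith, h4⟩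
  rw [← hpre, e.measure_preimage_equiv, Measure.volume_eq_prod, Measure.prod_prod]
  have c1 : Fintype.card {i // i ∈ P} = P.card := by simp
  have c2 : Fintype.card {i // i ∉ P} = k - P.card := by
    rw [Fintype.card_subtype_compl]; simp
  have hA := volume_spx {i // i ∈ P} (1 / 2) (by norm_num)
  have hB0 := volume_spx {i // i ∉ P} (1 / 2) (by norm_num)
  have hB : volume B = volume (spx {i // i ∉ P} (1 / 2)) :=
    Measure.measure_preimage_neg volume _
  rw [hB0] at hB
  rw [c1] at hA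
  rw [c2] at hB
  have hprod : volume A * volume B = ENNReal.ofReal ((1 / 2) ^ P.card / P.card.factorial) *
      ENNReal.ofReal ((1 / 2) ^ (k - P.card) / (k - P.card).factorial) := by
    rw [hA, hB]
  have hgoal : ENNReal.ofReal ((1 / 2) ^ P.card / P.card.factorial) *
      ENNReal.ofReal ((1 / 2) ^ (k - P.card) / (k - P.card).factorial) =
      ENNReal.ofReal ((1 / 2) ^ k / (P.card.factorial * (k - P.card).factorial)) := by
    rw [← ENNReal.ofReal_mul (by positivity)]
    congr 1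
    have hle : P.card ≤ k := by simpa using Finset.card_le_univ P
    have : (1 / 2 : ℝ) ^ k = (1 / 2) ^ P.card * (1 / 2) ^ (k - P.card) := by
      rw [← pow_add]; congr 1; omega
    rw [this]
    field_simp
  rw [← hgoal, ← hprod]
  congr!

lemma volume_W_ge (k : ℕ) :
    ENNReal.ofReal ((Nat.centralBinom k : ℝ) / (2 ^ k * k.factorial)) ≤ volume (Wset k) := by
  classical
  have h1 : volume (⋃ P ∈ (Finset.univ : Finset (Finset (Fin k))), WP k P) ≤ volume (Wset k) := by
    apply measure_mono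
    simp only [Finset.mem_univ, iUnion_true, iUnion_subset_iff]
    exact fun P => WP_subset k P
  refine le_trans ?_ h1
  rw [measure_biUnion_finset (fun P _ Q _ h => WP_disjoint k h) (fun P _ => measurableSet_WP k P)]
  simp_rw [volume_WP]
  rw [← ENNReal.ofReal_sum_of_nonneg (fun _ _ => by positivity)]
  apply ENNReal.ofReal_le_ofReal
  apply le_of_eq
  have h2 : ∀ P : Finset (Fin k), (1 / 2 : ℝ) ^ k / (P.card.factorial * (k - P.card).factorial) =
      (1 / 2) ^ k / k.factorial * (k.choose P.card : ℝ) := by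
    intro P
    have hle : P.card ≤ k := by simpa using Finset.card_le_univ P
    rw [Nat.cast_choose ℝ hle]
    have : (k.factorial : ℝ) ≠ 0 := by positivity
    field_simp
  simp_rw [h2]
  rw [← Finset.mul_sum]
  have h3 : ∑ P : Finset (Fin k), (k.choose P.card : ℝ) = Nat.centralBinom k := by
    rw [← Finset.powerset_univ, Finset.sum_powerset_apply_card (fun j => (k.choose j : ℝ))]
    rw [Nat.centralBinom, ← Nat.sum_range_choose_sq]
    push_cast
    simp [pow_two]
  rw [h3, one_div, inv_pow]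
  have : (k.factorial : ℝ) ≠ 0 := by positivity
  field_simp

lemma centralBinom_sq (k : ℕ) (hk : 1 ≤ k) : 16 ^ k ≤ 4 * k * (Nat.centralBinom k) ^ 2 := by
  induction k, hk using Nat.le_induction with
  | base => simp [Nat.centralBinom]
  | succ k hk ih =>
    have h := Nat.succ_mul_centralBinom_succ k
    -- (k+1) C(k+1) = 2 (2k+1) C(k)
    have h2 : (k + 1) ^ 2 * (Nat.centralBinom (k + 1)) ^ 2 = 4 * (2 * k + 1) ^ 2 * (Nat.centralBinom k) ^ 2 := by
      rw [← mul_pow, h]; ring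
    have hpos : 0 < (k + 1) * k := by positivity
    apply Nat.le_of_mul_le_mul_left _ hpos
    calc (k + 1) * k * 16 ^ (k + 1) = 16 * ((k + 1) * k) * 16 ^ k := by ring
      _ ≤ 16 * ((k + 1) * k) * (4 * k * (Nat.centralBinom k) ^ 2) := Nat.mul_le_mul_left _ ih
      _ = (64 * (k + 1) * k * k) * (Nat.centralBinom k) ^ 2 := by ring
      _ ≤ (16 * k * (2 * k + 1) ^ 2) * (Nat.centralBinom k) ^ 2 := by
          apply Nat.mul_le_mul_right
          nlinarith
      _ = 4 * k * (4 * (2 * k + 1) ^ 2 * (Nat.centralBinom k) ^ 2) := by ring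
      _ = 4 * k * ((k + 1) ^ 2 * (Nat.centralBinom (k + 1)) ^ 2) := by rw [h2]
      _ = (k + 1) * k * (4 * (k + 1) * (Nat.centralBinom (k + 1)) ^ 2) := by ring

abbrev EE (k : ℕ) := EuclideanSpace ℝ (Fin (k + 1))

/-! ### Linear changes of variables -/

def upM {k : ℕ} (a : ℝ) (c : Fin k → ℝ) : Matrix (Fin (k + 1)) (Fin (k + 1)) ℝ :=
  fun i j => Fin.cases (Fin.cases a c j) (fun i' => Fin.cases 0 (fun j' => if i' = j' then 1 else 0) j) i

lemma det_upM {k : ℕ} (a : ℝ) (c : Fin k → ℝ) : (upM a c).det = a := by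
  rw [Matrix.det_succ_column_zero, Fin.sum_univ_succ]
  have h1 : ∀ i : Fin k, upM a c i.succ 0 = 0 := fun i => rfl
  have h2 : (upM a c).submatrix (Fin.succAbove 0) Fin.succ = 1 := by
    ext i j
    simp [upM, Matrix.one_apply]
  simp only [h1, mul_zero, zero_mul, Finset.sum_const_zero, add_zero, h2, Matrix.det_one]
  simp [upM]

lemma upM_mulVec {k : ℕ} (a : ℝ) (c : Fin k → ℝ) (z : Fin (k + 1) → ℝ) :
    (upM a c).mulVec z = Fin.cons (a * z 0 + ∑ i, c i * z i.succ) (fun i => z i.succ) := by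
  ext i
  refine Fin.cases ?_ (fun i => ?_) i
  · simp [Matrix.mulVec, dotProduct, Fin.sum_univ_succ, upM]
  · simp [Matrix.mulVec, dotProduct, Fin.sum_univ_succ, upM]

def loM {k : ℕ} (c d : Fin k → ℝ) : Matrix (Fin (k + 1)) (Fin (k + 1)) ℝ :=
  fun i j => Fin.cases (Fin.cases 1 (fun _ => 0) j) (fun i' => Fin.cases (c i') (fun j' => if i' = j' then d i' else 0) j) i

lemma det_loM {k : ℕ} (c d : Fin k → ℝ) : (loM c d).det = ∏ i, d i := by
  rw [Matrix.det_succ_row_zero, Fin.sum_univ_succ]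
  have h1 : ∀ i : Fin k, loM c d 0 i.succ = 0 := fun i => rfl
  have h2 : (loM c d).submatrix Fin.succ (Fin.succAbove 0) = Matrix.diagonal d := by
    ext i j
    simp [loM, Matrix.diagonal_apply]
  simp only [h1, mul_zero, zero_mul, Finset.sum_const_zero, add_zero, h2, Matrix.det_diagonal]
  simp [loM]

lemma loM_mulVec {k : ℕ} (c d : Fin k → ℝ) (z : Fin (k + 1) → ℝ) :
    (loM c d).mulVec z = Fin.cons (z 0) (fun i => c i * z 0 + d i * z i.succ) := by
  ext i
  refine Fin.cases ?_ (fun i => ?_) i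
  · simp [Matrix.mulVec, dotProduct, Fin.sum_univ_succ, loM]
  · simp [Matrix.mulVec, dotProduct, Fin.sum_univ_succ, loM]

/-- volume of a preimage under a matrix -/
lemma volume_preimage_mulVec {n : ℕ} (M : Matrix (Fin n) (Fin n) ℝ) (h : M.det ≠ 0)
    (S : Set (Fin n → ℝ)) :
    volume (M.mulVec ⁻¹' S) = ENNReal.ofReal |M.det|⁻¹ * volume S := by
  have := Measure.addHaar_preimage_linearMap volume (f := Matrix.toLin' M)
    (by rw [LinearMap.det_toLin']; exact h) S
  rw [LinearMap.det_toLin', abs_inv] at this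
  exact this

lemma volume_E {k : ℕ} (A : Set (EE k)) :
    volume A = volume {f : Fin (k + 1) → ℝ | WithLp.toLp 2 f ∈ A} := by
  have h := (EuclideanSpace.volume_preserving_symm_measurableEquiv_toLp (Fin (k + 1))).symm
  rw [← h.measure_preimage_equiv]
  rfl

lemma volume_prodset {k : ℕ} (A : ℝ) (B : Set (Fin k → ℝ)) :
    volume {x : Fin (k + 1) → ℝ | |x 0| ≤ A ∧ (fun i : Fin k => x i.succ) ∈ B} =
      ENNReal.ofReal (2 * A) * volume B := by
  have e := volume_preserving_piFinSuccAbove (fun _ : Fin (k + 1) => ℝ) 0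
  have hpre : (MeasurableEquiv.piFinSuccAbove (fun _ : Fin (k + 1) => ℝ) 0) ⁻¹' (Icc (-A) A ×ˢ B) =
      {x : Fin (k + 1) → ℝ | |x 0| ≤ A ∧ (fun i : Fin k => x i.succ) ∈ B} := by
    ext x
    change ((-A ≤ x 0 ∧ x 0 ≤ A) ∧ (fun i : Fin k => x i.succ) ∈ B) ↔
      (|x 0| ≤ A ∧ (fun i : Fin k => x i.succ) ∈ B)
    rw [abs_le]
  rw [← hpre, e.measure_preimage_equiv, Measure.volume_eq_prod, Measure.prod_prod, Real.volume_Icc]
  congr 2
  ring

/-! ### The body -/

def Kset (k : ℕ) (s : ℝ) : Set (EE k) := {x | |s * x 0| ≤ 1 ∧ ∀ i : Fin k, |s * x 0 + x i.succ| ≤ 1}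

lemma inner_E {k : ℕ} (x z : EE k) : inner ℝ x z = x 0 * z 0 + ∑ i : Fin k, x i.succ * z i.succ := by
  rw [PiLp.inner_apply, Fin.sum_univ_succ]
  simp [mul_comm]

/-- a sufficient condition for membership in the polar of the symmetral -/
lemma mem_polar_of {k : ℕ} (K : Set (EE k)) (hK : IsCompact K) (u z : EE k)
    (hu : ‖u‖ = 1)
    (h : ∀ a ∈ K, ∀ b ∈ K, ∀ τ : ℝ, a - b = τ • u →
      inner ℝ a z - (1 / 2) * inner ℝ (a + b) u * inner ℝ u z ≤ 1) (w : EE k)
    (hw1 : ∃ s : ℝ, w - (inner ℝ w u) • u + s • u ∈ K)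
    (hw2 : ENNReal.ofReal (2 * |inner ℝ w u|) ≤
      volume {s : ℝ | w - (inner ℝ w u) • u + s • u ∈ K}) :
    inner ℝ w z ≤ (1 : ℝ) := by
  set t : ℝ := inner ℝ w u with ht
  set w0 : EE k := w - t • u with hw0
  have huu : inner ℝ u u = (1 : ℝ) := by rw [real_inner_self_eq_norm_sq, hu]; norm_num
  have hw0u : inner ℝ w0 u = (0 : ℝ) := by
    rw [hw0, inner_sub_left, inner_smul_left, huu]; simp [ht]
  set L : Set ℝ := {s : ℝ | w0 + s • u ∈ K} with hL
  have hcont : Continuous (fun s : ℝ => w0 + s • u) := by fun_prop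
  have hLclosed : IsClosed L := hK.isClosed.preimage hcont
  have hLbdd : Bornology.IsBounded L := by
    obtain ⟨R, hR⟩ := hK.isBounded.exists_norm_le
    refine (Metric.isBounded_iff_subset_closedBall 0).2 ⟨R + ‖w0‖, ?_⟩
    intro s hs
    have h1 := hR _ hs
    have h2 : ‖s • u‖ ≤ ‖w0 + s • u‖ + ‖w0‖ := by
      have := norm_sub_le (w0 + s • u) w0
      simpa using this
    rw [norm_smul, hu, mul_one] at h2
    simp only [Metric.mem_closedBall, dist_zero_right]
    linarith
  have hLcomp : IsCompact L := Metric.isCompact_of_isClosed_isBounded hLclosed hLbdd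
  obtain ⟨s0, hs0⟩ := hw1
  have hLne : L.Nonempty := ⟨s0, hs0⟩
  have hα := hLcomp.sSup_mem hLne
  have hβ := hLcomp.sInf_mem hLne
  set α := sSup L
  set β := sInf L
  have hβα : β ≤ α := csInf_le_csSup hLne hLcomp.bddBelow hLcomp.bddAbove
  have hvol : volume L ≤ ENNReal.ofReal (α - β) := by
    rw [← Real.volume_Icc]
    apply measure_mono
    intro s hs
    exact ⟨csInf_le hLcomp.bddBelow hs, le_csSup hLcomp.bddAbove hs⟩
  have h2t : 2 * |t| ≤ α - β := by
    have := hw2.trans hvol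
    rwa [ENNReal.ofReal_le_ofReal_iff (by linarith)] at this
  have ha : w0 + α • u ∈ K := hα
  have hb : w0 + β • u ∈ K := hβ
  have e1 : inner ℝ (w0 + α • u) z = inner ℝ w0 z + α * inner ℝ u z := by
    rw [inner_add_left, inner_smul_left]; simp
  have e2 : inner ℝ (w0 + β • u) z = inner ℝ w0 z + β * inner ℝ u z := by
    rw [inner_add_left, inner_smul_left]; simp
  have e3 : inner ℝ (w0 + α • u + (w0 + β • u)) u = α + β := by
    rw [inner_add_left, inner_add_left, inner_add_left, inner_smul_left, inner_smul_left, huu,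
      hw0u]
    simp
  have e4 : inner ℝ w z = inner ℝ w0 z + t * inner ℝ u z := by
    have : w = w0 + t • u := by rw [hw0]; simp
    rw [this, inner_add_left, inner_smul_left]; simp
  have h1 := h _ ha _ hb (α - β) (by rw [sub_smul]; abel)
  have h2 := h _ hb _ ha (β - α) (by rw [sub_smul]; abel)
  rw [e1, e3] at h1
  rw [e2, add_comm (w0 + β • u), e3] at h2
  rw [e4]
  have hab := abs_le.1 (le_refl |t|)
  rcases le_total 0 (inner ℝ u z) with hc | hc
  · nlinarith
  · nlinarith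

lemma key_ineq {k : ℕ} (s δ : ℝ) (hs : 0 < s) (hδ0 : 0 < δ) (hδ1 : δ < 1) (u z : EE k)
    (hu : ‖u‖ = 1) (hu0 : u 0 ≠ 0) (hd : ∀ i : Fin k, |u i.succ / (s * u 0)| ≤ δ)
    (hw : |inner ℝ u z / u 0| ≤ s * (1 - δ))
    (hy : ∑ i : Fin k, |(1 + u i.succ / (s * u 0)) * (z i.succ - u i.succ * inner ℝ u z)| +
      |∑ i : Fin k, (1 + u i.succ / (s * u 0)) * (z i.succ - u i.succ * inner ℝ u z)| ≤ 1 - δ)
    (a b : EE k) (ha : a ∈ Kset k s) (hb : b ∈ Kset k s) (τ : ℝ) (hab : a - b = τ • u) :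
    inner ℝ a z - (1 / 2) * inner ℝ (a + b) u * inner ℝ u z ≤ 1 := by
  set c : ℝ := inner ℝ u z with hc
  set d : Fin k → ℝ := fun i => 1 + u i.succ / (s * u 0) with hdd
  set y : Fin k → ℝ := fun i => d i * (z i.succ - u i.succ * c) with hyy
  have hdpos : ∀ i, 1 - δ ≤ d i := fun i => by
    have := (abs_le.1 (hd i)).1; simp only [hdd]; linarith
  have hdpos' : ∀ i, 0 < d i := fun i => by have := hdpos i; linarith
  have hy' : ∑ i, |y i| + |∑ i, y i| ≤ 1 - δ := hy
  -- coordinates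
  have hab0 : a 0 - b 0 = τ * u 0 := by
    have := congrArg (fun v : EE k => v 0) hab; simpa using this
  have habi : ∀ i : Fin k, a i.succ - b i.succ = τ * u i.succ := fun i => by
    have := congrArg (fun v : EE k => v i.succ) hab; simpa using this
  have huu : u 0 * u 0 + ∑ i : Fin k, u i.succ * u i.succ = 1 := by
    rw [← inner_E, real_inner_self_eq_norm_sq, hu]; norm_num
  have hcE : c = u 0 * z 0 + ∑ i : Fin k, u i.succ * z i.succ := inner_E u z
  have hz : ∀ i : Fin k, z i.succ = y i / d i + u i.succ * c := fun i => by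
    simp only [hyy]; have := (hdpos' i).ne'; field_simp; ring
  have hz0 : z 0 = c * u 0 - ∑ i : Fin k, (u i.succ / u 0) * (y i / d i) := by
    have h1 : ∑ i : Fin k, u i.succ * z i.succ =
        ∑ i : Fin k, u i.succ * (y i / d i) + c * ∑ i : Fin k, u i.succ * u i.succ := by
      rw [Finset.mul_sum, ← Finset.sum_add_distrib]
      exact Finset.sum_congr rfl fun i _ => by rw [hz i]; ring
    have h2 : ∑ i : Fin k, (u i.succ / u 0) * (y i / d i) =
        (∑ i : Fin k, u i.succ * (y i / d i)) / u 0 := by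
      rw [Finset.sum_div]; exact Finset.sum_congr rfl fun i _ => by ring
    rw [h2]
    have h3 : u 0 * z 0 = c * (u 0 * u 0) - ∑ i : Fin k, u i.succ * (y i / d i) := by
      rw [h1] at hcE
      have : ∑ i : Fin k, u i.succ * u i.succ = 1 - u 0 * u 0 := by linarith
      rw [this] at hcE; linarith
    apply mul_left_cancel₀ hu0
    rw [mul_sub, mul_div_cancel₀ _ hu0, h3]
    ring
  set β : Fin k → ℝ := fun i => (a i.succ - a 0 * u i.succ / u 0) / d i with hβ
  have hinner : inner ℝ a z = c * inner ℝ a u + ∑ i, y i * β i := by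
    rw [inner_E, inner_E, hz0]
    have h1 : ∑ i : Fin k, a i.succ * z i.succ =
        ∑ i : Fin k, a i.succ * (y i / d i) + c * ∑ i : Fin k, a i.succ * u i.succ := by
      rw [Finset.mul_sum, ← Finset.sum_add_distrib]
      exact Finset.sum_congr rfl fun i _ => by rw [hz i]; ring
    have h2 : ∑ i, y i * β i = ∑ i : Fin k, a i.succ * (y i / d i) -
        a 0 * ∑ i : Fin k, (u i.succ / u 0) * (y i / d i) := by
      rw [Finset.mul_sum, ← Finset.sum_sub_distrib]
      exact Finset.sum_congr rfl fun i _ => by simp only [hβ]; ring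
    rw [h1, h2]; ring
  have hau : inner ℝ (a + b) u = 2 * inner ℝ a u - τ := by
    have hb' : b = a - τ • u := by rw [← hab]; abel
    have huu' : inner ℝ u u = (1 : ℝ) := by rw [real_inner_self_eq_norm_sq, hu]; norm_num
    rw [hb', inner_add_left, inner_sub_left, inner_smul_left, huu']
    simp; ring
  rw [hinner, hau]
  -- bounds
  set A := s * a 0
  set B := s * b 0
  have hda : ∀ i, s * a 0 + a i.succ = d i * (A + β i) := fun i => by
    have h1 := (hdpos' i).ne'
    have h2 : d i * β i = a i.succ - a 0 * u i.succ / u 0 := by simp only [hβ]; field_simp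
    rw [mul_add, h2]
    simp only [hdd, A]
    field_simp; ring
  have hdb : ∀ i, s * b 0 + b i.succ = d i * (B + β i) := fun i => by
    have h1 := (hdpos' i).ne'
    have h2 : d i * β i = b i.succ - b 0 * u i.succ / u 0 := by
      have : d i * β i = a i.succ - a 0 * u i.succ / u 0 := by simp only [hβ]; field_simp
      rw [this]
      have e1 : a i.succ = b i.succ + τ * u i.succ := by linarith [habi i]
      have e2 : a 0 = b 0 + τ * u 0 := by linarith
      rw [e1, e2]; field_simp; ring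
    rw [mul_add, h2]
    simp only [hdd, B]
    field_simp; ring
  have h1δ : 0 < 1 - δ := by linarith
  have hboundA : ∀ i, (1 - δ) * |A + β i| ≤ 1 := fun i => by
    have := ha.2 i
    rw [hda i, abs_mul, abs_of_pos (hdpos' i)] at this
    exact le_trans (mul_le_mul_of_nonneg_right (hdpos i) (abs_nonneg _)) this
  have hboundB : ∀ i, (1 - δ) * |B + β i| ≤ 1 := fun i => by
    have := hb.2 i
    rw [hdb i, abs_mul, abs_of_pos (hdpos' i)] at this
    exact le_trans (mul_le_mul_of_nonneg_right (hdpos i) (abs_nonneg _)) this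
  have hA1 : |A| ≤ 1 := ha.1
  have hB1 : |B| ≤ 1 := hb.1
  set ρ := |A - B| with hρ
  set t := (A + B) / 2 with ht
  have hmid : ∀ x : ℝ, (1 - δ) * |A + x| ≤ 1 → (1 - δ) * |B + x| ≤ 1 →
      (1 - δ) * |x + t| ≤ 1 - (1 - δ) * ρ / 2 := by
    intro x h1 h2
    have h3 : |x + t| + ρ / 2 ≤ max |A + x| |B + x| := by
      rw [hρ, ht]
      rcases abs_cases (x + (A + B) / 2) with ⟨e1, _⟩ | ⟨e1, _⟩ <;>
        rcases abs_cases (A - B) with ⟨e2, _⟩ | ⟨e2, _⟩ <;> rw [e1, e2]
      · exact le_max_of_le_left (by have := le_abs_self (A + x); linarith)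
      · exact le_max_of_le_right (by have := le_abs_self (B + x); linarith)
      · exact le_max_of_le_right (by have := neg_abs_le (B + x); linarith)
      · exact le_max_of_le_left (by have := neg_abs_le (A + x); linarith)
    have h4 : (1 - δ) * (|x + t| + ρ / 2) ≤ 1 := by
      rcases le_total |A + x| |B + x| with h | h
      · rw [max_eq_right h] at h3
        exact le_trans (mul_le_mul_of_nonneg_left h3 h1δ.le) h2
      · rw [max_eq_left h] at h3
        exact le_trans (mul_le_mul_of_nonneg_left h3 h1δ.le) h1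
    linarith
  have hm0 : (1 - δ) * |t| ≤ 1 - (1 - δ) * ρ / 2 := by
    have := hmid 0 (by rw [add_zero]; nlinarith [abs_nonneg A]) (by rw [add_zero]; nlinarith [abs_nonneg B])
    rwa [zero_add] at this
  set R := 1 - (1 - δ) * ρ / 2 with hR
  have hR0 : 0 ≤ R := le_trans (by positivity) hm0
  have hsum : (1 - δ) * ∑ i, y i * β i ≤ R * (1 - δ) := by
    have e1 : ∑ i, y i * β i = ∑ i, y i * (β i + t) - t * ∑ i, y i := by
      rw [Finset.mul_sum, ← Finset.sum_sub_distrib]
      exact Finset.sum_congr rfl fun i _ => by ring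
    have e2 : (1 - δ) * ∑ i, y i * (β i + t) ≤ R * ∑ i, |y i| := by
      rw [Finset.mul_sum, Finset.mul_sum]
      apply Finset.sum_le_sum
      intro i _
      have h1 := hmid (β i) (hboundA i) (hboundB i)
      calc (1 - δ) * (y i * (β i + t)) ≤ (1 - δ) * (|y i| * |β i + t|) := by
            apply mul_le_mul_of_nonneg_left _ h1δ.le
            rw [← abs_mul]; exact le_abs_self _
        _ = |y i| * ((1 - δ) * |β i + t|) := by ring
        _ ≤ |y i| * R := mul_le_mul_of_nonneg_left h1 (abs_nonneg _)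
        _ = R * |y i| := by ring
    have e3 : - ((1 - δ) * (t * ∑ i, y i)) ≤ R * |∑ i, y i| := by
      calc - ((1 - δ) * (t * ∑ i, y i)) ≤ |(1 - δ) * (t * ∑ i, y i)| := neg_le_abs _
        _ = ((1 - δ) * |t|) * |∑ i, y i| := by rw [abs_mul, abs_mul, abs_of_pos h1δ]; ring
        _ ≤ R * |∑ i, y i| := mul_le_mul_of_nonneg_right hm0 (abs_nonneg _)
    calc (1 - δ) * ∑ i, y i * β i = (1 - δ) * ∑ i, y i * (β i + t) - (1 - δ) * (t * ∑ i, y i) := by
          rw [e1]; ring
      _ ≤ R * ∑ i, |y i| + R * |∑ i, y i| := by linarith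
      _ = R * (∑ i, |y i| + |∑ i, y i|) := by ring
      _ ≤ R * (1 - δ) := mul_le_mul_of_nonneg_left hy' hR0
  have hsum' : ∑ i, y i * β i ≤ R := by
    have : (1 - δ) * ∑ i, y i * β i ≤ (1 - δ) * R := by linarith
    exact le_of_mul_le_mul_left this h1δ
  have hcτ : (1 / 2) * τ * c ≤ (1 - δ) * ρ / 2 := by
    have h1 : τ * c = (c / u 0) * (a 0 - b 0) := by rw [hab0]; field_simp
    have h2 : (c / u 0) * (a 0 - b 0) ≤ |c / u 0| * |a 0 - b 0| := by
      rw [← abs_mul]; exact le_abs_self _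
    have h3 : |c / u 0| * |a 0 - b 0| ≤ s * (1 - δ) * |a 0 - b 0| :=
      mul_le_mul_of_nonneg_right hw (abs_nonneg _)
    have h4 : s * |a 0 - b 0| = ρ := by
      rw [hρ]; simp only [A, B]; rw [← mul_sub, abs_mul, abs_of_pos hs]
    have h5 : s * (1 - δ) * |a 0 - b 0| = (1 - δ) * ρ := by rw [← h4]; ring
    linarith
  linarith

lemma convex_Kset (k : ℕ) (s : ℝ) : Convex ℝ (Kset k s) := by
  intro x hx y hy a b ha hb hab
  have key : ∀ p q : ℝ, |p| ≤ 1 → |q| ≤ 1 → |a * p + b * q| ≤ 1 := by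
    intro p q hp hq
    calc |a * p + b * q| ≤ |a * p| + |b * q| := abs_add_le _ _
      _ = a * |p| + b * |q| := by rw [abs_mul, abs_mul, abs_of_nonneg ha, abs_of_nonneg hb]
      _ ≤ a * 1 + b * 1 := by gcongr
      _ = 1 := by linarith
  refine ⟨?_, fun i => ?_⟩
  · have := key _ _ hx.1 hy.1
    convert this using 2
    simp; ring
  · have := key _ _ (hx.2 i) (hy.2 i)
    convert this using 2
    simp; ring

lemma isClosed_Kset (k : ℕ) (s : ℝ) : IsClosed (Kset k s) := by
  have h1 : IsClosed {x : EE k | |s * x 0| ≤ 1} := isClosed_le (by fun_prop) continuous_const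
  have h2 : IsClosed {x : EE k | ∀ i : Fin k, |s * x 0 + x i.succ| ≤ 1} := by
    have : {x : EE k | ∀ i : Fin k, |s * x 0 + x i.succ| ≤ 1} =
      ⋂ i : Fin k, {x : EE k | |s * x 0 + x i.succ| ≤ 1} := by ext; simp
    rw [this]
    exact isClosed_iInter fun i => isClosed_le (by fun_prop) continuous_const
  exact h1.inter h2

lemma isCompact_Kset (k : ℕ) (s : ℝ) (hs : 0 < s) : IsCompact (Kset k s) := by
  have hc : IsCompact (Set.pi univ (fun _ : Fin (k + 1) => Icc (-(1 / s + 2)) (1 / s + 2))) :=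
    isCompact_univ_pi fun _ => isCompact_Icc
  have hcont : Continuous (fun f : Fin (k + 1) → ℝ => (WithLp.toLp 2 f : EE k)) :=
    PiLp.continuous_toLp 2 _
  refine (hc.image hcont).of_isClosed_subset (isClosed_Kset k s) ?_
  rintro x ⟨h1, h2⟩
  have hx0 : |x 0| ≤ 1 / s := by
    rw [abs_mul, abs_of_pos hs] at h1
    rw [le_div_iff₀ hs]; linarith
  have hs' : 0 < 1 / s := by positivity
  refine ⟨fun i => x i, ?_, rfl⟩
  rw [Set.mem_univ_pi]
  intro i
  refine Fin.cases ?_ (fun i => ?_) i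
  · have := abs_le.1 hx0
    exact ⟨by linarith, by linarith⟩
  · have e1 := abs_le.1 (h2 i)
    have e2 := abs_le.1 h1
    constructor
    · simp only; linarith
    · simp only; linarith

lemma interior_Kset (k : ℕ) (s : ℝ) : (0 : EE k) ∈ interior (Kset k s) := by
  rw [mem_interior]
  refine ⟨{x | |s * x 0| < 1} ∩ ⋂ i : Fin k, {x : EE k | |s * x 0 + x i.succ| < 1}, ?_, ?_, ?_⟩
  · rintro x ⟨h1, h2⟩
    rw [mem_iInter] at h2
    exact ⟨le_of_lt h1, fun i => le_of_lt (h2 i)⟩
  · exact (isOpen_lt (by fun_prop) continuous_const).inter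
      (isOpen_iInter_of_finite fun i => isOpen_lt (by fun_prop) continuous_const)
  · refine ⟨?_, ?_⟩
    · simp
    · rw [mem_iInter]; intro i; simp

noncomputable def KB (k : ℕ) (s : ℝ) (hs : 0 < s) : ConvexBody (EE k) where
  carrier := Kset k s
  convex' := convex_Kset k s
  isCompact' := isCompact_Kset k s hs
  nonempty' := ⟨0, interior_subset (interior_Kset k s)⟩

lemma mem_KB {k : ℕ} {s : ℝ} {hs : 0 < s} {x : EE k} : x ∈ KB k s hs ↔ x ∈ Kset k s := Iff.rfl

/-- upper bound for the volume of the polar -/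
lemma polar_upper (k : ℕ) (s : ℝ) (hs : 0 < s) :
    volume {z : EE k | ∀ x ∈ KB k s hs, inner ℝ x z ≤ (1 : ℝ)} ≤
      ENNReal.ofReal (s * (2 ^ (k + 1) / (k + 1).factorial)) := by
  rw [volume_E]
  set M := upM (1 / s) (fun _ : Fin k => (-1 : ℝ)) with hM
  have hdet : M.det = 1 / s := det_upM _ _
  have hdet0 : M.det ≠ 0 := by rw [hdet]; positivity
  have hsub : {f : Fin (k + 1) → ℝ | (WithLp.toLp 2 f : EE k) ∈
      {z : EE k | ∀ x ∈ KB k s hs, inner ℝ x z ≤ (1 : ℝ)}} ⊆
      M.mulVec ⁻¹' {x : Fin (k + 1) → ℝ | (∑ i, |x i| ^ (1:ℝ)) ^ (1 / (1:ℝ)) ≤ 1} := by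
    intro f hf
    have hf' : ∀ x ∈ KB k s hs, inner ℝ x (WithLp.toLp 2 f : EE k) ≤ (1 : ℝ) := hf
    set g := M.mulVec f with hg
    have hg0 : g 0 = (1 / s) * f 0 - ∑ i : Fin k, f i.succ := by
      rw [hg, hM, upM_mulVec]; simp; ring
    have hgi : ∀ i : Fin k, g i.succ = f i.succ := by
      intro i; rw [hg, hM, upM_mulVec]; simp
    change (∑ i, |g i| ^ (1:ℝ)) ^ (1 / (1:ℝ)) ≤ 1
    simp only [Real.rpow_one, div_one]
    set ε : ℝ → ℝ := fun t => if 0 ≤ t then 1 else -1 with hε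
    have hε1 : ∀ t, |ε t| ≤ 1 := by intro t; simp only [hε]; split_ifs <;> simp
    have hε2 : ∀ t, ε t * t = |t| := by
      intro t; simp only [hε]; split_ifs with h
      · rw [abs_of_nonneg h]; ring
      · rw [abs_of_neg (not_le.1 h)]; ring
    set x : EE k := WithLp.toLp 2 (Fin.cons (ε (g 0) / s) (fun i : Fin k => ε (g i.succ) - ε (g 0)) : Fin (k + 1) → ℝ) with hx
    have hx0 : x 0 = ε (g 0) / s := rfl
    have hxi : ∀ i : Fin k, x i.succ = ε (g i.succ) - ε (g 0) := fun i => rfl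
    have hsx : s * x 0 = ε (g 0) := by rw [hx0]; field_simp
    have hxK : x ∈ KB k s hs := by
      refine ⟨?_, fun i => ?_⟩
      · rw [hsx]; exact hε1 _
      · rw [hsx, hxi]
        have := hε1 (g i.succ)
        convert this using 2; ring
    have h := hf' x hxK
    rw [inner_E] at h
    rw [Fin.sum_univ_succ]
    have e1 : x 0 * (WithLp.toLp 2 f : EE k) 0 + ∑ i : Fin k, x i.succ * (WithLp.toLp 2 f : EE k) i.succ =
        ε (g 0) * g 0 + ∑ i : Fin k, ε (g i.succ) * g i.succ := by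
      change x 0 * f 0 + ∑ i : Fin k, x i.succ * f i.succ = _
      simp_rw [hxi, hgi, hx0]
      generalize ε (g 0) = e
      rw [hg0]
      have : ∑ i : Fin k, (ε (f i.succ) - e) * f i.succ =
          ∑ i : Fin k, ε (f i.succ) * f i.succ - e * ∑ i : Fin k, f i.succ := by
        rw [Finset.mul_sum, ← Finset.sum_sub_distrib]
        exact Finset.sum_congr rfl fun i _ => by ring
      rw [this]; ring
    rw [e1] at h
    simp_rw [hε2] at h
    exact h
  refine (measure_mono hsub).trans ?_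
  rw [volume_preimage_mulVec M hdet0, MeasureTheory.volume_sum_rpow_le (Fin (k + 1)) le_rfl 1, hdet]
  simp only [Fintype.card_fin, ENNReal.ofReal_one, one_pow, one_mul]
  rw [← ENNReal.ofReal_mul (by positivity)]
  apply ENNReal.ofReal_le_ofReal
  apply le_of_eq
  rw [abs_of_pos (by positivity)]
  have e1 : Real.Gamma (1 / 1 + 1) = 1 := by
    rw [div_one]; have := Real.Gamma_nat_eq_factorial 1; simpa using this
  have e2 : Real.Gamma (((k + 1 : ℕ) : ℝ) / 1 + 1) = (k + 1).factorial := by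
    rw [div_one]; exact Real.Gamma_nat_eq_factorial (k + 1)
  rw [e1, e2]
  simp

/-- lower bound for the inner volume -/
lemma inner_lower (k : ℕ) (s δ : ℝ) (hs : 0 < s) (hδ0 : 0 < δ) (hδ1 : δ < 1) (u : EE k)
    (hu : ‖u‖ = 1) (hu0 : u 0 ≠ 0) (hd : ∀ i : Fin k, |u i.succ / (s * u 0)| ≤ δ) :
    ENNReal.ofReal (2 * s * (1 - δ) ^ (2 * k + 1)) * volume (Wset k) ≤
      volume {z : EE k | ∀ x ∈ {w : EE k | (∃ t : ℝ, w - (inner ℝ w u) • u + t • u ∈ KB k s hs) ∧
        ENNReal.ofReal (2 * |inner ℝ w u|) ≤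
          volume {t : ℝ | w - (inner ℝ w u) • u + t • u ∈ KB k s hs}}, inner ℝ x z ≤ (1 : ℝ)} := by
  set d : Fin k → ℝ := fun i => 1 + u i.succ / (s * u 0) with hdd
  set B : Set (Fin k → ℝ) := {y | ∑ i, |y i| + |∑ i, y i| ≤ 1 - δ} with hB
  have h1δ : 0 < 1 - δ := by linarith
  have hBW : ENNReal.ofReal ((1 - δ) ^ k) * volume (Wset k) ≤ volume B := by
    have h1 : (1 - δ) • Wset k ⊆ B := by
      rintro _ ⟨y, hy, rfl⟩
      have hy' : ∑ i, |y i| + |∑ i, y i| < 1 := hy
      change ∑ i, |(1 - δ) * y i| + |∑ i, (1 - δ) * y i| ≤ 1 - δ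
      rw [← Finset.mul_sum, abs_mul, abs_of_pos h1δ]
      have : ∑ i, |(1 - δ) * y i| = (1 - δ) * ∑ i, |y i| := by
        rw [Finset.mul_sum]; exact Finset.sum_congr rfl fun i _ => by rw [abs_mul, abs_of_pos h1δ]
      rw [this]
      nlinarith
    have h2 := measure_mono (μ := volume) h1
    rw [Measure.addHaar_smul] at h2
    simpa [abs_of_pos h1δ] using h2
  -- change of variables
  set M1 := upM (1 : ℝ) (fun i : Fin k => u i.succ / u 0) with hM1
  set M2 := loM (fun i : Fin k => - (d i * (u i.succ * u 0))) d with hM2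
  set M := M2 * M1 with hM
  have hdet : M.det = ∏ i, d i := by
    rw [hM, Matrix.det_mul, hM1, hM2, det_upM, det_loM, mul_one]
  have hdpos : ∀ i, 1 - δ ≤ d i := fun i => by
    have := (abs_le.1 (hd i)).1; simp only [hdd]; linarith
  have hdle : ∀ i, d i ≤ 1 + δ := fun i => by
    have := (abs_le.1 (hd i)).2; simp only [hdd]; linarith
  have hdpos' : ∀ i, 0 < d i := fun i => by have := hdpos i; linarith
  have hprodpos : 0 < ∏ i, d i := Finset.prod_pos fun i _ => hdpos' i
  have hprodle : ∏ i, d i ≤ (1 + δ) ^ k := by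
    calc ∏ i, d i ≤ ∏ _i : Fin k, (1 + δ) :=
          Finset.prod_le_prod (fun i _ => (hdpos' i).le) (fun i _ => hdle i)
      _ = (1 + δ) ^ k := by simp
  set S : Set (Fin (k + 1) → ℝ) := {x | |x 0| ≤ s * (1 - δ) ∧ (fun i : Fin k => x i.succ) ∈ B} with hS
  have hsub : M.mulVec ⁻¹' S ⊆ {f : Fin (k + 1) → ℝ | (WithLp.toLp 2 f : EE k) ∈
      {z : EE k | ∀ x ∈ {w : EE k | (∃ t : ℝ, w - (inner ℝ w u) • u + t • u ∈ KB k s hs) ∧
        ENNReal.ofReal (2 * |inner ℝ w u|) ≤
          volume {t : ℝ | w - (inner ℝ w u) • u + t • u ∈ KB k s hs}}, inner ℝ x z ≤ (1 : ℝ)}} := by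
    intro f hf
    set z : EE k := WithLp.toLp 2 f with hz
    have hzf : ∀ i, z i = f i := fun i => rfl
    have hf' : M.mulVec f ∈ S := hf
    have hin : inner ℝ u z = u 0 * z 0 + ∑ i : Fin k, u i.succ * z i.succ := inner_E u z
    have hM1f : M1.mulVec f = Fin.cons (inner ℝ u z / u 0) (fun i => z i.succ) := by
      rw [hM1, upM_mulVec]
      congr 1
      rw [hin, add_div, Finset.sum_div]
      congr 1
      · rw [mul_div_cancel_left₀ _ hu0, one_mul, hzf]
      · exact Finset.sum_congr rfl fun i _ => by rw [hzf]; ring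
    have hMf : M.mulVec f = Fin.cons (inner ℝ u z / u 0)
        (fun i => d i * (z i.succ - u i.succ * inner ℝ u z)) := by
      rw [hM, ← Matrix.mulVec_mulVec, hM1f, hM2, loM_mulVec]
      congr 1
      ext i
      simp only [Fin.cons_zero, Fin.cons_succ]
      field_simp
      ring
    rw [hMf] at hf'
    obtain ⟨g1, g2⟩ := hf'
    simp only [Fin.cons_zero] at g1
    have g2' : ∑ i : Fin k, |d i * (z i.succ - u i.succ * inner ℝ u z)| +
      |∑ i : Fin k, d i * (z i.succ - u i.succ * inner ℝ u z)| ≤ 1 - δ := g2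
    rintro w ⟨hw1, hw2⟩
    exact mem_polar_of (Kset k s) (isCompact_Kset k s hs) u z hu
      (fun a ha b hb τ hab => key_ineq s δ hs hδ0 hδ1 u z hu hu0 hd g1 g2' a b ha hb τ hab) w hw1 hw2
  rw [volume_E]
  refine le_trans ?_ (measure_mono hsub)
  rw [volume_preimage_mulVec M (by rw [hdet]; exact hprodpos.ne'), hdet, abs_of_pos hprodpos, hS,
    volume_prodset]
  have hreal : 2 * s * (1 - δ) ^ (2 * k + 1) ≤
      (∏ i, d i)⁻¹ * ((2 * (s * (1 - δ))) * (1 - δ) ^ k) := by
    have h1 : (1 - δ) ^ k ≤ (∏ i, d i)⁻¹ := by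
      rw [le_inv_comm₀ (by positivity) hprodpos]
      refine hprodle.trans ?_
      rw [← inv_pow]
      apply pow_le_pow_left₀ (by linarith)
      rw [le_inv_comm₀ (by linarith) h1δ]
      rw [inv_eq_one_div, le_div_iff₀ (by linarith)]
      nlinarith
    calc 2 * s * (1 - δ) ^ (2 * k + 1) = (1 - δ) ^ k * ((2 * (s * (1 - δ))) * (1 - δ) ^ k) := by
          ring
      _ ≤ _ := mul_le_mul_of_nonneg_right h1 (by positivity)
  calc ENNReal.ofReal (2 * s * (1 - δ) ^ (2 * k + 1)) * volume (Wset k)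
      ≤ ENNReal.ofReal ((∏ i, d i)⁻¹ * ((2 * (s * (1 - δ))) * (1 - δ) ^ k)) * volume (Wset k) :=
        mul_le_mul' (ENNReal.ofReal_le_ofReal hreal) le_rfl
    _ = ENNReal.ofReal (∏ i, d i)⁻¹ * (ENNReal.ofReal (2 * (s * (1 - δ))) *
          (ENNReal.ofReal ((1 - δ) ^ k) * volume (Wset k))) := by
        rw [ENNReal.ofReal_mul (by positivity), ENNReal.ofReal_mul (by positivity)]
        ring
    _ ≤ _ := by gcongr

lemma exists_eta (k : ℕ) : ∃ η : ℝ, 0 < η ∧
    (1 / 2 : ENNReal) * volume (Metric.ball (0 : EE k) 1) ≤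
      volume (Metric.ball (0 : EE k) 1 ∩ {y : EE k | η < |y 0|}) := by
  set A : ℕ → Set (EE k) := fun m => Metric.ball (0 : EE k) 1 ∩ {y : EE k | 1 / ((m:ℝ) + 1) < |y 0|} with hA
  have hmono : Monotone A := by
    intro m n hmn
    apply inter_subset_inter_right
    intro y hy
    have h1 : (1:ℝ) / ((m:ℝ) + 1) < |y 0| := hy
    have h2 : (1:ℝ) / ((n:ℝ) + 1) ≤ 1 / ((m:ℝ) + 1) := by
      apply one_div_le_one_div_of_le (by positivity)
      have : (m:ℝ) ≤ n := by exact_mod_cast hmn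
      linarith
    exact lt_of_le_of_lt h2 h1
  have hlim := tendsto_measure_iUnion_atTop (μ := (volume : Measure (EE k))) hmono
  have hker : volume {y : EE k | y 0 = 0} = 0 := by
    have h := Measure.addHaar_submodule (volume : Measure (EE k))
      (LinearMap.ker ((LinearMap.proj 0 : (Fin (k + 1) → ℝ) →ₗ[ℝ] ℝ) ∘ₗ
        (WithLp.linearEquiv 2 ℝ (Fin (k + 1) → ℝ)).toLinearMap)) (by
        intro htop
        have : (EuclideanSpace.single 0 (1:ℝ) : EE k) ∈ (⊤ : Submodule ℝ (EE k)) := trivial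
        rw [← htop, LinearMap.mem_ker] at this
        simp at this)
    convert h using 2
    ext y
    simp
  have hU : volume (Metric.ball (0 : EE k) 1) ≤ volume (⋃ m, A m) := by
    have hsub : Metric.ball (0 : EE k) 1 ⊆ (⋃ m, A m) ∪ {y : EE k | y 0 = 0} := by
      intro y hy
      by_cases h0 : y 0 = 0
      · exact Or.inr h0
      · left
        obtain ⟨m, hm⟩ := exists_nat_one_div_lt (abs_pos.2 h0)
        exact mem_iUnion.2 ⟨m, hy, hm⟩
    refine (measure_mono hsub).trans ((measure_union_le _ _).trans ?_)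
    rw [hker, add_zero]
  have hpos : 0 < volume (Metric.ball (0 : EE k) 1) := Metric.measure_ball_pos _ _ one_pos
  have hfin : volume (Metric.ball (0 : EE k) 1) ≠ ⊤ := measure_ball_lt_top.ne
  have hlt : (1 / 2 : ENNReal) * volume (Metric.ball (0 : EE k) 1) < volume (⋃ m, A m) := by
    refine lt_of_lt_of_le ?_ hU
    rw [one_div, mul_comm, ← div_eq_mul_inv]
    exact ENNReal.half_lt_self hpos.ne' hfin
  have hev := hlim.eventually (lt_mem_nhds hlt)
  obtain ⟨m, hm⟩ := hev.exists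
  exact ⟨1 / ((m:ℝ) + 1), by positivity, hm.le⟩

end Helpers

section
open MeasureTheory Set

lemma numeric (k : ℕ) (C s : ℝ) (hk : 64 * C ^ 2 < k) (hs : 0 < s) :
    C * (s * (2 ^ (k + 1) / (k + 1).factorial)) <
      (1 / 2) * (s * ((Nat.centralBinom k : ℝ) / (2 ^ k * k.factorial))) := by
  have hk0 : (0:ℝ) < k := lt_of_le_of_lt (by positivity) hk
  have hk1 : 1 ≤ k := by exact_mod_cast hk0
  have hcb := centralBinom_sq k hk1
  have hcb' : (16:ℝ) ^ k ≤ 4 * k * (Nat.centralBinom k : ℝ) ^ 2 := by exact_mod_cast hcb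
  have hkf : (0:ℝ) < k.factorial := by positivity
  -- main inequality
  have hmain : 4 * C * 4 ^ k < (k + 1) * (Nat.centralBinom k : ℝ) := by
    apply lt_of_pow_lt_pow_left₀ 2 (by positivity)
    have h1 : (4 * C * 4 ^ k) ^ 2 = 16 * C ^ 2 * 16 ^ k := by
      rw [mul_pow, mul_pow, ← pow_mul, mul_comm k 2, pow_mul]; norm_num
    rw [h1, mul_pow]
    have h16 : (0:ℝ) < 16 ^ k := by positivity
    have h2 : 16 * C ^ 2 * 16 ^ k < (k / 4) * 16 ^ k := by
      apply mul_lt_mul_of_pos_right _ h16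
      linarith
    have h3 : (k / 4 : ℝ) * 16 ^ k ≤ (k / 4) * (4 * k * (Nat.centralBinom k : ℝ) ^ 2) :=
      mul_le_mul_of_nonneg_left hcb' (by positivity)
    have h4 : (k / 4 : ℝ) * (4 * k * (Nat.centralBinom k : ℝ) ^ 2) ≤
        (k + 1) ^ 2 * (Nat.centralBinom k : ℝ) ^ 2 := by
      have : (k:ℝ) ^ 2 ≤ (k + 1) ^ 2 := by nlinarith
      calc (k / 4 : ℝ) * (4 * k * (Nat.centralBinom k : ℝ) ^ 2) = (k:ℝ) ^ 2 * (Nat.centralBinom k : ℝ) ^ 2 := by ring
        _ ≤ _ := mul_le_mul_of_nonneg_right this (by positivity)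
    linarith
  rw [Nat.factorial_succ]
  push_cast
  have e1 : C * (s * (2 ^ (k + 1) / (((k:ℝ) + 1) * k.factorial))) =
      (4 * C * 4 ^ k) * (s / (2 * 2 ^ k * (k + 1) * k.factorial)) := by
    have : (4:ℝ) ^ k = 2 ^ k * 2 ^ k := by rw [← mul_pow]; norm_num
    rw [this, pow_succ]
    field_simp
    ring
  have e2 : (1 / 2) * (s * ((Nat.centralBinom k : ℝ) / (2 ^ k * k.factorial))) =
      ((k + 1) * (Nat.centralBinom k : ℝ)) * (s / (2 * 2 ^ k * (k + 1) * k.factorial)) := by
    field_simp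
  rw [e1, e2]
  exact mul_lt_mul_of_pos_right hmain (by positivity)

theorem main (C : NNReal) : ∃ (k : ℕ) (s : ℝ) (hs : 0 < s),
    (C : ENNReal) * volume (Metric.ball (0 : EE k) 1) *
      volume {z : EE k | ∀ x ∈ KB k s hs, inner ℝ x z ≤ (1 : ℝ)} <
    ∫⁻ y in Metric.ball (0 : EE k) 1, volume
      {z : EE k | ∀ x ∈ {w : EE k | (∃ t : ℝ, w - (inner ℝ w (‖y‖⁻¹ • y)) • (‖y‖⁻¹ • y) + t • (‖y‖⁻¹ • y) ∈ KB k s hs) ∧
        ENNReal.ofReal (2 * |inner ℝ w (‖y‖⁻¹ • y)|) ≤
          volume {t : ℝ | w - (inner ℝ w (‖y‖⁻¹ • y)) • (‖y‖⁻¹ • y) + t • (‖y‖⁻¹ • y) ∈ KB k s hs}},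
        inner ℝ x z ≤ (1 : ℝ)} := by
  obtain ⟨k, hk⟩ := exists_nat_gt (64 * (C : ℝ) ^ 2)
  obtain ⟨η, hη, hηvol⟩ := exists_eta k
  set δ : ℝ := 1 / (2 * (2 * k + 1)) with hδ
  have hδ0 : 0 < δ := by positivity
  have hδ1 : δ < 1 := by
    rw [hδ, div_lt_one (by positivity)]
    have : (0:ℝ) ≤ k := by positivity
    linarith
  set s : ℝ := 1 / (η * δ) with hsdef
  have hs : 0 < s := by positivity
  refine ⟨k, s, hs, ?_⟩
  have hsηδ : s * η * δ = 1 := by rw [hsdef]; field_simp
  set c : ENNReal := ENNReal.ofReal (2 * s * (1 - δ) ^ (2 * k + 1)) * volume (Wset k) with hc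
  set E : Set (EE k) := Metric.ball (0 : EE k) 1 ∩ {y : EE k | η < |y 0|} with hE
  have hEm : MeasurableSet E := by
    apply Metric.isOpen_ball.measurableSet.inter
    exact (isOpen_lt continuous_const (by fun_prop)).measurableSet
  -- lower bound
  have hlow : c * volume E ≤ ∫⁻ y in Metric.ball (0 : EE k) 1, volume
      {z : EE k | ∀ x ∈ {w : EE k | (∃ t : ℝ, w - (inner ℝ w (‖y‖⁻¹ • y)) • (‖y‖⁻¹ • y) + t • (‖y‖⁻¹ • y) ∈ KB k s hs) ∧
        ENNReal.ofReal (2 * |inner ℝ w (‖y‖⁻¹ • y)|) ≤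
          volume {t : ℝ | w - (inner ℝ w (‖y‖⁻¹ • y)) • (‖y‖⁻¹ • y) + t • (‖y‖⁻¹ • y) ∈ KB k s hs}},
        inner ℝ x z ≤ (1 : ℝ)} := by
    refine le_trans ?_ (lintegral_mono_set (inter_subset_left : E ⊆ Metric.ball (0 : EE k) 1))
    rw [← setLIntegral_const]
    apply setLIntegral_mono' hEm
    rintro y ⟨hy1, hy2⟩
    have hy2' : η < |y 0| := hy2
    have hy0 : y 0 ≠ 0 := by
      intro h; rw [h, abs_zero] at hy2'; linarith
    have hyne : y ≠ 0 := by rintro rfl; exact hy0 rfl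
    have hnpos : 0 < ‖y‖ := norm_pos_iff.2 hyne
    have hn1 : ‖y‖ < 1 := by simpa using hy1
    have hu : ‖‖y‖⁻¹ • y‖ = 1 := by
      rw [norm_smul, norm_inv, norm_norm]; field_simp
    have hu0e : (‖y‖⁻¹ • y) 0 = ‖y‖⁻¹ * y 0 := rfl
    have hu0 : (‖y‖⁻¹ • y) 0 ≠ 0 := by rw [hu0e]; exact mul_ne_zero (by positivity) hy0
    have hηu : η ≤ |(‖y‖⁻¹ • y) 0| := by
      rw [hu0e, abs_mul, abs_of_pos (by positivity : (0:ℝ) < ‖y‖⁻¹)]
      have : 1 ≤ ‖y‖⁻¹ := (one_le_inv₀ hnpos).2 hn1.le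
      nlinarith [abs_nonneg (y 0)]
    apply inner_lower k s δ hs hδ0 hδ1 _ hu hu0
    intro i
    have hui : |(‖y‖⁻¹ • y) i.succ| ≤ 1 := by
      have := PiLp.norm_apply_le (‖y‖⁻¹ • y) i.succ
      rw [hu] at this
      simpa using this
    rw [abs_div, abs_mul, abs_of_pos hs, div_le_iff₀ (by positivity)]
    calc |(‖y‖⁻¹ • y) i.succ| ≤ 1 := hui
      _ = δ * (s * η) := by rw [← hsηδ]; ring
      _ ≤ δ * (s * |(‖y‖⁻¹ • y) 0|) := by gcongr
  have hcE : ENNReal.ofReal (s * ((Nat.centralBinom k : ℝ) / (2 ^ k * k.factorial))) ≤ c := by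
    have h1 : s ≤ 2 * s * (1 - δ) ^ (2 * k + 1) := by
      have hb := one_add_mul_le_pow (a := -δ) (by linarith) (2 * k + 1)
      push_cast at hb
      have : (2 * (k:ℝ) + 1) * δ = 1 / 2 := by rw [hδ]; field_simp
      have h2 : 1 / 2 ≤ (1 - δ) ^ (2 * k + 1) := by
        have e : 1 + -δ = 1 - δ := by ring
        rw [e] at hb
        linarith
      nlinarith
    rw [hc, ENNReal.ofReal_mul hs.le]
    exact mul_le_mul' (ENNReal.ofReal_le_ofReal h1) (volume_W_ge k)
  have hballpos : 0 < volume (Metric.ball (0 : EE k) 1) := Metric.measure_ball_pos _ _ one_pos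
  have hballfin : volume (Metric.ball (0 : EE k) 1) ≠ ⊤ := measure_ball_lt_top.ne
  have hnum := numeric k (C : ℝ) s hk hs
  set X : ℝ := s * ((Nat.centralBinom k : ℝ) / (2 ^ k * k.factorial)) with hX
  set Y : ℝ := s * (2 ^ (k + 1) / (k + 1).factorial) with hY
  have hY0 : 0 ≤ Y := by positivity
  calc (C : ENNReal) * volume (Metric.ball (0 : EE k) 1) *
      volume {z : EE k | ∀ x ∈ KB k s hs, inner ℝ x z ≤ (1 : ℝ)}
      ≤ (C : ENNReal) * volume (Metric.ball (0 : EE k) 1) * ENNReal.ofReal Y :=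
        mul_le_mul' le_rfl (polar_upper k s hs)
    _ = ENNReal.ofReal (C * Y) * volume (Metric.ball (0 : EE k) 1) := by
        rw [ENNReal.ofReal_mul (NNReal.coe_nonneg C), ENNReal.ofReal_coe_nnreal]; ring
    _ < ENNReal.ofReal ((1 / 2) * X) * volume (Metric.ball (0 : EE k) 1) := by
        apply ENNReal.mul_lt_mul_left hballpos.ne' hballfin
        rw [ENNReal.ofReal_lt_ofReal_iff (lt_of_le_of_lt (by positivity) hnum)]
        exact hnum
    _ = ENNReal.ofReal X * ((1 / 2) * volume (Metric.ball (0 : EE k) 1)) := by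
        rw [ENNReal.ofReal_mul (by norm_num)]
        have : ENNReal.ofReal (1 / 2) = 1 / 2 := by
          rw [ENNReal.ofReal_div_of_pos (by norm_num)]; simp
        rw [this]; ring
    _ ≤ c * volume E := mul_le_mul' hcE hηvol
    _ ≤ _ := hlow

end

/-- The negation of the preceding statement: There is an absolute constant C such that for every n and every origin-symmetric convex body K in R^n, the sphere-average over directions u of the volume of the polar of the Steiner symmetral of K in direction u is at most C times the volume of the polar of K. -/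
theorem result :
    ¬ (∃ C : NNReal, ∀ n : ℕ, 1 ≤ n →
      ∀ K : ConvexBody (EuclideanSpace ℝ (Fin n)),
        (∀ x ∈ K, -x ∈ K) →
        (interior (K : Set (EuclideanSpace ℝ (Fin n)))).Nonempty →
        ∫⁻ y in Metric.ball (0 : EuclideanSpace ℝ (Fin n)) 1,
            MeasureTheory.volume
              {z : EuclideanSpace ℝ (Fin n) |
                ∀ x ∈ {w : EuclideanSpace ℝ (Fin n) |
                    (∃ s : ℝ, w - (inner ℝ w (‖y‖⁻¹ • y)) • (‖y‖⁻¹ • y) + s • (‖y‖⁻¹ • y) ∈ K) ∧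
                    ENNReal.ofReal (2 * |inner ℝ w (‖y‖⁻¹ • y)|) ≤
                      MeasureTheory.volume
                        {s : ℝ | w - (inner ℝ w (‖y‖⁻¹ • y)) • (‖y‖⁻¹ • y) + s • (‖y‖⁻¹ • y) ∈ K}},
                  inner ℝ x z ≤ (1 : ℝ)}
          ≤ (C : ENNReal) * MeasureTheory.volume (Metric.ball (0 : EuclideanSpace ℝ (Fin n)) 1)
              * MeasureTheory.volume {z : EuclideanSpace ℝ (Fin n) | ∀ x ∈ K, inner ℝ x z ≤ (1 : ℝ)}) := by
  rintro ⟨C, hC⟩
  obtain ⟨k, s, hs, h⟩ := main C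
  have h2 := hC (k + 1) (by omega) (KB k s hs) (by
    intro x hx
    rw [mem_KB] at hx ⊢
    refine ⟨?_, fun i => ?_⟩
    · have := hx.1
      rw [← abs_neg] at this
      convert this using 2
      simp
    · have := hx.2 i
      rw [← abs_neg] at this
      convert this using 2
      simp; ring) ⟨0, interior_Kset k s⟩
  exact absurd h2 (not_le.2 h)

end Pool.Agent.S09018
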