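import Pool.Statements.S09022

set_option autoImplicit false
open Pool Pool.MP_d88d39_gt

namespace Pool.Agent.S09022

open Cardinal Set Topology

/-- If a type has more than `ν ≥ ℵ₀` elements and is mapped to a type with at most `ν` elements, some
fibre has more than `ν` elements. -/
theorem big_fiber {α β : Type} {ν : Cardinal.{0}} (hν : ℵ₀ ≤ ν) (f : α → β)
    (hβ : #β ≤ ν) (hα : ν < #α) : ∃ b : β, ν < #(f ⁻¹' {b}) := by
  by_contra hcon
  push Not at hcon
  have h1 := Cardinal.mk_le_mk_mul_of_mk_preimage_le f hcon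
  have h2 : #β * ν ≤ ν := by
    calc #β * ν ≤ ν * ν := mul_le_mul_left hβ ν
      _ = ν := Cardinal.mul_eq_self hν
  exact absurd (h1.trans h2) (not_le.mpr hα)

/-- The `Δ`-system lemma for finite sets of bounded size. -/
theorem delta_aux {ι J : Type} {ν : Cardinal.{0}} (hν : ℵ₀ ≤ ν) (n : ℕ) :
    ∀ (F : J → Finset ι) (S : Set J), (∀ j ∈ S, (F j).card ≤ n) → ν < #S →
      ∃ (r : Finset ι) (S' : Set J), S' ⊆ S ∧ ν < #S' ∧
        ∀ j ∈ S', ∀ j' ∈ S', j ≠ j' → ∀ t, t ∈ F j → t ∈ F j' → t ∈ r := by
  classical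
  induction n with
  | zero =>
    intro F S hF hS
    refine ⟨∅, S, subset_rfl, hS, ?_⟩
    intro j hj j' _ _ t ht _
    have := Finset.card_eq_zero.mp (Nat.le_zero.mp (hF j hj))
    simp [this] at ht
  | succ n ih =>
    intro F S hF hS
    -- a maximal pairwise disjoint subfamily
    obtain ⟨M, hM⟩ : ∃ M : Set J, Maximal (fun A : Set J => A ⊆ S ∧
        ∀ j ∈ A, ∀ j' ∈ A, j ≠ j' → Disjoint (F j) (F j')) M := by
      apply zorn_subset
      intro c hc hchain
      refine ⟨⋃₀ c, ⟨?_, ?_⟩, fun s hs => subset_sUnion_of_mem hs⟩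
      · exact sUnion_subset fun s hs => (hc hs).1
      · rintro j ⟨s, hs, hjs⟩ j' ⟨s', hs', hjs'⟩ hne
        rcases hchain.total hs hs' with h | h
        · exact (hc hs').2 j (h hjs) j' hjs' hne
        · exact (hc hs).2 j hjs j' (h hjs') hne
    by_cases hbig : ν < #M
    · refine ⟨∅, M, hM.prop.1, hbig, ?_⟩
      intro j hj j' hj' hne t ht ht'
      exact absurd (Finset.disjoint_left.mp (hM.prop.2 j hj j' hj' hne) ht) (by simpa using ht')
    · push Not at hbig
      -- every `j ∈ S \ M` meets some member of `M`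
      have hmeet : ∀ j : S, (j : J) ∉ M → ∃ t : ι, t ∈ F j ∧ ∃ m ∈ M, t ∈ F m := by
        intro j hj
        by_contra hcon
        push Not at hcon
        apply hj
        have hins : insert (j : J) M ⊆ M := by
          apply hM.le_of_ge
          · refine ⟨insert_subset j.2 hM.prop.1, ?_⟩
            rintro a (rfl | ha) b (rfl | hb) hab
            · exact absurd rfl hab
            · rw [Finset.disjoint_left]
              intro t ht htb
              exact hcon t ht b hb htb
            · rw [Finset.disjoint_left]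
              intro t ht htb
              exact hcon t htb a ha ht
            · exact hM.prop.2 a ha b hb hab
          · exact subset_insert _ _
        exact hins (mem_insert _ _)
      -- the map sending `j` to itself (if in `M`) or to a point of the union
      let T : Set ι := ⋃ m ∈ M, (F m : Set ι)
      have hT : #T ≤ ν := by
        refine (Cardinal.mk_biUnion_le _ _).trans ?_
        have h1 : (⨆ x : M, #(F x : Set ι)) ≤ ν := by
          apply ciSup_le'
          intro x
          refine le_trans ?_ hν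
          exact (Cardinal.lt_aleph0_of_finite _).le
        calc #M * (⨆ x : M, #(F x : Set ι)) ≤ ν * ν := mul_le_mul' hbig h1
          _ = ν := Cardinal.mul_eq_self hν
      let g : S → M ⊕ T := fun j =>
        if h : (j : J) ∈ M then Sum.inl ⟨j, h⟩
        else Sum.inr ⟨(hmeet j h).choose, by
          obtain ⟨_, m, hm, hmt⟩ := (hmeet j h).choose_spec
          exact mem_biUnion hm hmt⟩
      have hsum : #(M ⊕ T) ≤ ν := by
        rw [Cardinal.mk_sum, Cardinal.lift_id, Cardinal.lift_id]
        exact (Cardinal.add_le_max _ _).trans (by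
          simp only [max_le_iff]; exact ⟨⟨hbig, hT⟩, hν⟩)
      obtain ⟨b, hb⟩ := big_fiber hν g hsum hS
      rcases b with m | t
      · exfalso
        have : (g ⁻¹' {Sum.inl m}).Subsingleton := by
          intro x hx y hy
          simp only [g, mem_preimage, mem_singleton_iff] at hx hy
          split_ifs at hx hy with h1 h2
          apply Subtype.ext
          rw [← hy] at hx
          simpa using hx
        have h1 : #(g ⁻¹' {Sum.inl m}) ≤ 1 := by
          rw [Cardinal.le_one_iff_subsingleton]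
          exact this.coe_sort
        exact absurd (h1.trans (Cardinal.one_le_aleph0.trans hν)) (not_le.mpr hb)
      · -- all the members of the fibre contain `t`
        let S₁ : Set J := Subtype.val '' (g ⁻¹' {Sum.inr t})
        have hS₁ : ν < #S₁ := by
          rw [Cardinal.mk_image_eq Subtype.val_injective]
          exact hb
        have hS₁S : S₁ ⊆ S := by
          rintro _ ⟨x, _, rfl⟩
          exact x.2
        have ht₁ : ∀ j ∈ S₁, (t : ι) ∈ F j := by
          rintro _ ⟨x, hx, rfl⟩
          simp only [g, mem_preimage, mem_singleton_iff] at hx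
          split_ifs at hx with h1
          have := (hmeet x h1).choose_spec.1
          rw [Sum.inr.injEq] at hx
          have h2 := congrArg Subtype.val hx
          simp only at h2
          rw [← h2]
          exact this
        obtain ⟨r, S', hS'S, hS', hr⟩ := ih (fun j => (F j).erase t) S₁ (by
          intro j hj
          rw [Finset.card_erase_of_mem (ht₁ j hj)]
          have := hF j (hS₁S hj)
          omega) hS₁
        refine ⟨insert (t : ι) r, S', hS'S.trans hS₁S, hS', ?_⟩
        intro j hj j' hj' hne s hs hs'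
        by_cases hst : s = t
        · simp [hst]
        · apply Finset.mem_insert_of_mem
          exact hr j hj j' hj' hne s (Finset.mem_erase.mpr ⟨hst, hs⟩) (Finset.mem_erase.mpr ⟨hst, hs'⟩)

/-- Pigeonhole principle for uncountable sets. -/
theorem pigeon {J β : Type} [Countable β] (f : J → β) (S : Set J) (hS : ¬ S.Countable) :
    ∃ b : β, ¬ (S ∩ f ⁻¹' {b}).Countable := by
  by_contra hcon
  push Not at hcon
  apply hS
  refine (Set.countable_iUnion hcon).mono ?_
  intro j hj
  exact mem_iUnion.mpr ⟨f j, hj, rfl⟩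

/-- The `Δ`-system lemma for finite sets. -/
theorem delta_system {ι J : Type} (F : J → Finset ι) (S : Set J) (hS : ¬ S.Countable) :
      ∃ (r : Finset ι) (S' : Set J), S' ⊆ S ∧ ¬ S'.Countable ∧
        ∀ j ∈ S', ∀ j' ∈ S', j ≠ j' → ∀ t, t ∈ F j → t ∈ F j' → t ∈ r := by
  obtain ⟨n, hn⟩ := pigeon (fun j => (F j).card) S hS
  obtain ⟨r, S', h1, h2, h3⟩ := delta_aux le_rfl n F (S ∩ (fun j => (F j).card) ⁻¹' {n}) (by
    rintro j ⟨_, hj⟩
    simp only [mem_preimage, mem_singleton_iff] at hj
    exact hj.le) (by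
    rw [← Cardinal.le_aleph0_iff_set_countable, not_le] at hn
    exact hn)
  refine ⟨r, S', h1.trans inter_subset_left, ?_, h3⟩
  rw [← Cardinal.le_aleph0_iff_set_countable, not_le]
  exact h2

/-- A set of indices of order type `ω₁`. -/
abbrev Om : Type := (Cardinal.aleph 1).ord.ToType

theorem mk_Om : #Om = Cardinal.aleph 1 := Cardinal.mk_ord_toType _

theorem countable_iff {α : Type} (s : Set α) : s.Countable ↔ #s < Cardinal.aleph 1 := by
  rw [← Cardinal.le_aleph0_iff_set_countable, ← Cardinal.succ_aleph0, Order.lt_succ_iff]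

theorem Iio_countable (a : Om) : (Iio a).Countable := by
  rw [countable_iff]
  exact (Cardinal.mk_Iio_lt a (by rw [mk_Om, Ordinal.type_toType])).trans_eq mk_Om

theorem uncountable_Om : ¬ (Set.univ : Set Om).Countable := by
  rw [countable_iff, Cardinal.mk_univ, mk_Om]
  exact lt_irrefl _

/-- Countable sets of indices are strictly bounded. -/
theorem exists_gt_countable (C : Set Om) (hC : C.Countable) : ∃ b : Om, ∀ c ∈ C, c < b := by
  by_contra hcon
  push Not at hcon
  apply uncountable_Om
  have h1 : (Set.univ : Set Om) ⊆ ⋃ c ∈ C, insert c (Iio c) := by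
    intro b _
    obtain ⟨c, hc, hbc⟩ := hcon b
    rw [mem_iUnion₂]
    refine ⟨c, hc, ?_⟩
    rcases hbc.eq_or_lt with h | h
    · exact Or.inl h
    · exact Or.inr h
  exact (hC.biUnion fun c _ => (Iio_countable c).insert c).mono h1

/-- The points: functions with values in the Cantor space on initial segments of `Om`. -/
abbrev T : Type := (α : Om) × (Iio α → ℕ → Bool)

theorem mk_cantor : #(ℕ → Bool) = 𝔠 := by simp

theorem mk_T : #T ≤ #(ℕ → Bool) := by
  rw [Cardinal.mk_sigma, mk_cantor]
  have h1 : ∀ α : Om, #(Iio α → ℕ → Bool) ≤ 𝔠 := by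
    intro α
    have h2 : #(Iio α) ≤ ℵ₀ := Cardinal.le_aleph0_iff_set_countable.mpr (Iio_countable α)
    rw [← Cardinal.power_def, mk_cantor]
    calc 𝔠 ^ #(Iio α) ≤ 𝔠 ^ ℵ₀ := Cardinal.power_le_power_left (Cardinal.continuum_ne_zero) h2
      _ = 𝔠 := Cardinal.continuum_power_aleph0
  calc Cardinal.sum (fun α : Om => #(Iio α → ℕ → Bool)) ≤ Cardinal.sum (fun _ : Om => 𝔠) :=
        Cardinal.sum_le_sum _ _ h1
    _ = #Om * 𝔠 := by simp
    _ ≤ 𝔠 * 𝔠 := by
        rw [mk_Om]
        exact mul_le_mul_left Cardinal.aleph_one_le_continuum 𝔠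
    _ = 𝔠 := Cardinal.mul_eq_self Cardinal.aleph0_le_continuum

theorem exists_code : ∃ ρ : T → ℕ → Bool, Function.Injective ρ := by
  obtain ⟨f⟩ := Cardinal.le_def _ _ |>.mp mk_T
  exact ⟨f, f.injective⟩

/-- The injective assignment of eventual values. -/
noncomputable def code : T → ℕ → Bool := exists_code.choose

theorem code_injective : Function.Injective code := exists_code.choose_spec

/-- The evaluation of a point as an element of the Cantor cube. -/
noncomputable def ev (x : T) : Om × ℕ → Bool := fun p =>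
  if h : p.1 < x.1 then x.2 ⟨p.1, h⟩ p.2 else code x p.2

theorem ev_of_le (x : T) {γ : Om} (h : x.1 ≤ γ) (k : ℕ) : ev x (γ, k) = code x k := by
  simp [ev, not_lt.mpr h]

theorem ev_injective : Function.Injective ev := by
  intro x y hxy
  apply code_injective
  funext k
  rw [← ev_of_le x (le_max_left x.1 y.1) k, ← ev_of_le y (le_max_right x.1 y.1) k, hxy]

/-- The point of `T` that equals a given function below `α`. -/
def restr (α : Om) (y : Om × ℕ → Bool) : T := ⟨α, fun γ k => y (γ, k)⟩

theorem ev_restr {α : Om} {y : Om × ℕ → Bool} {γ : Om} (h : γ < α) (k : ℕ) :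
    ev (restr α y) (γ, k) = y (γ, k) := by
  simp [ev, restr, h]

/-- The space. -/
def X : Type := T

noncomputable instance : TopologicalSpace X := TopologicalSpace.induced (ev : T → Om × ℕ → Bool) inferInstance

/-- The embedding of `X` in the Cantor cube. -/
noncomputable def emb : X → (Om × ℕ → Bool) := ev

theorem emb_isEmbedding : IsEmbedding emb := ⟨⟨rfl⟩, ev_injective⟩

instance : T35Space X := emb_isEmbedding.t35Space

theorem exists_nhd {g : X → ℝ} (hg : Continuous g) (x : X) {ε : ℝ} (hε : 0 < ε) :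
    ∃ F : Finset (Om × ℕ), ∀ y : X, (∀ p ∈ F, emb y p = emb x p) → |g y - g x| < ε := by
  have h1 : IsOpen {y : X | |g y - g x| < ε} :=
    isOpen_lt ((hg.sub continuous_const).abs) continuous_const
  obtain ⟨V, hV, hVe⟩ := emb_isEmbedding.isOpen_iff.mp h1
  have hx : emb x ∈ V := by
    have : x ∈ emb ⁻¹' V := by rw [hVe]; simpa using hε
    exact this
  obtain ⟨F, u, hu, huV⟩ := isOpen_pi_iff.mp hV _ hx
  refine ⟨F, fun y hy => ?_⟩
  have : y ∈ emb ⁻¹' V := by
    apply huV
    intro p hp
    rw [hy p hp]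
    exact (hu p hp).2
  rw [hVe] at this
  exact this

/-- Finitely many coordinates are strictly bounded. -/
theorem exists_bound (F : Finset (Om × ℕ)) (α : Om) : ∃ θ : Om, α < θ ∧ ∀ p ∈ F, p.1 < θ := by
  obtain ⟨θ, hθ⟩ := exists_gt_countable (insert α (Prod.fst '' (F : Set (Om × ℕ))))
    (((F.countable_toSet).image _).insert _)
  exact ⟨θ, hθ α (mem_insert _ _), fun p hp => hθ _ (Or.inr ⟨p, hp, rfl⟩)⟩

/-- Every continuous function on `X` depends on countably many coordinates. -/
theorem depends {g : X → ℝ} (hg : Continuous g) :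
    ∃ α : Om, ∀ x y : X, (∀ p : Om × ℕ, p.1 < α → emb x p = emb y p) → g x = g y := by
  classical
  by_contra hcon
  push Not at hcon
  have h1 : ∀ α : Om, ∃ x y : X, (∀ p : Om × ℕ, p.1 < α → emb x p = emb y p) ∧ g x < g y := by
    intro α
    obtain ⟨x, y, hxy, hne⟩ := hcon α
    rcases lt_or_gt_of_ne hne with h | h
    · exact ⟨x, y, hxy, h⟩
    · exact ⟨y, x, fun p hp => (hxy p hp).symm, h⟩
  choose x y hxy hlt using h1
  choose q hq1 hq2 using fun α => exists_rat_btwn (hlt α)
  choose Fx hFx using fun α => exists_nhd hg (x α) (sub_pos.mpr (hq1 α))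
  choose Fy hFy using fun α => exists_nhd hg (y α) (sub_pos.mpr (hq2 α))
  obtain ⟨q0, hS1⟩ := pigeon q Set.univ uncountable_Om
  obtain ⟨r, S2, hS21, hS2, hr⟩ := delta_system (fun α => Fx α ∪ Fy α) _ hS1
  obtain ⟨c, hS3⟩ := pigeon (fun α => fun p : r => emb (x α) p) S2 hS2
  obtain ⟨b, hb⟩ : ∃ b : Om, ∀ p ∈ r, p.1 < b := by
    obtain ⟨θ, hθ⟩ := exists_gt_countable (Prod.fst '' (r : Set (Om × ℕ)))
      ((r.countable_toSet).image _)
    exact ⟨θ, fun p hp => hθ _ ⟨p, hp, rfl⟩⟩
  -- choose `β` above the root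
  obtain ⟨β, hβ, hβb⟩ : ∃ β ∈ S2 ∩ (fun α => fun p : r => emb (x α) p) ⁻¹' {c}, b ≤ β := by
    by_contra h
    push Not at h
    exact hS3 ((Iio_countable b).mono fun β hβ => h β hβ)
  obtain ⟨α, hα, hαβ⟩ : ∃ α ∈ S2 ∩ (fun α => fun p : r => emb (x α) p) ⁻¹' {c}, α ≠ β := by
    by_contra h
    push Not at h
    exact hS3 ((Set.countable_singleton β).mono fun α hα => h α hα)
  obtain ⟨θ, -, hθ⟩ := exists_bound ((Fx α ∪ Fy α) ∪ (Fx β ∪ Fy β)) α
  let w : X := restr θ (fun p => if p ∈ Fx α then emb (x α) p else emb (y β) p)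
  have hw : ∀ p : Om × ℕ, p.1 < θ → emb w p = if p ∈ Fx α then emb (x α) p else emb (y β) p := by
    rintro ⟨γ, k⟩ hp
    exact ev_restr hp k
  have e1 : |g w - g (x α)| < q α - g (x α) := by
    apply hFx α
    intro p hp
    rw [hw p (hθ p (by simp [hp])), if_pos hp]
  have e2 : |g w - g (y β)| < g (y β) - q β := by
    apply hFy β
    intro p hp
    rw [hw p (hθ p (by simp [hp]))]
    split_ifs with h
    · have hpr : p ∈ r := hr α hα.1 β hβ.1 hαβ p (Finset.mem_union_left _ h)
        (Finset.mem_union_right _ hp)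
      have h3 : emb (x α) p = emb (x β) p := by
        have a1 := congrFun hα.2 ⟨p, hpr⟩
        have a2 := congrFun hβ.2 ⟨p, hpr⟩
        simp only at a1 a2
        rw [a1, a2]
      rw [h3]
      exact hxy β p ((hb p hpr).trans_le hβb)
    · rfl
  have hqα : q α = q0 := (hS21 hα.1).2
  have hqβ : q β = q0 := (hS21 hβ.1).2
  rw [hqα] at e1
  rw [hqβ] at e2
  have := (abs_lt.mp e1).2
  have := (abs_lt.mp e2).1
  linarith

/-- Every continuous function on `X` extends to the Cantor cube. -/
theorem extend {g : X → ℝ} (hg : Continuous g) :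
    ∃ G : (Om × ℕ → Bool) → ℝ, Continuous G ∧ (∀ x, G (emb x) = g x) ∧
      ∀ y, ∃ x : X, G y = g x := by
  classical
  obtain ⟨α, hα⟩ := depends hg
  refine ⟨fun y => g (restr α y), ?_, ?_, fun y => ⟨_, rfl⟩⟩
  · rw [continuous_iff_continuousAt]
    intro y
    rw [Metric.continuousAt_iff']
    intro ε hε
    obtain ⟨F, hF⟩ := exists_nhd hg (restr α y) hε
    have hnhd : {y' : Om × ℕ → Bool | ∀ p ∈ F, y' p = y p} ∈ 𝓝 y := by
      have : {y' : Om × ℕ → Bool | ∀ p ∈ F, y' p = y p} = ⋂ p ∈ F, (fun y' => y' p) ⁻¹' {y p} := by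
        ext y'; simp
      rw [this]
      rw [Filter.biInter_finset_mem]
      intro p _
      exact (continuous_apply p).continuousAt.preimage_mem_nhds (isOpen_discrete _ |>.mem_nhds rfl)
    filter_upwards [hnhd] with y' hy'
    rw [Real.dist_eq]
    obtain ⟨θ, hθα, hθ⟩ := exists_bound F α
    let w : X := restr θ (fun p => if p.1 < α then y' p else emb (restr α y : X) p)
    have hw : ∀ p : Om × ℕ, p.1 < θ →
        emb w p = if p.1 < α then y' p else emb (restr α y : X) p := by
      rintro ⟨γ, k⟩ hp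
      exact ev_restr hp k
    have e1 : g w = g (restr α y') := by
      apply hα
      rintro ⟨γ, k⟩ hp
      rw [hw _ (hp.trans hθα), if_pos hp]
      exact (ev_restr hp k).symm
    rw [← e1]
    apply hF
    rintro ⟨γ, k⟩ hp
    rw [hw _ (hθ _ hp)]
    split_ifs with h
    · rw [hy' _ hp]
      exact (ev_restr h k).symm
    · rfl
  · intro x
    apply hα
    rintro ⟨γ, k⟩ hp
    exact ev_restr hp k

/-- Neighbourhoods in `C_p(X)` are given by finitely many points. -/
theorem exists_basic {U : Set {f : X → ℝ // Continuous f}} (hU : IsOpen U)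
    {h : {f : X → ℝ // Continuous f}} (hh : h ∈ U) :
    ∃ (E : Finset X) (δ : ℝ), 0 < δ ∧
      ∀ g : {f : X → ℝ // Continuous f}, (∀ p ∈ E, |g.1 p - h.1 p| < δ) → g ∈ U := by
  classical
  obtain ⟨V, hV, rfl⟩ := isOpen_induced_iff.mp hU
  obtain ⟨E, u, hu, huV⟩ := isOpen_pi_iff.mp hV h.1 hh
  have hball : ∀ p : X, ∃ ε : ℝ, 0 < ε ∧ (p ∈ E → Metric.ball (h.1 p) ε ⊆ u p) := by
    intro p
    by_cases hp : p ∈ E
    · obtain ⟨ε, hε, hb⟩ := Metric.isOpen_iff.mp (hu p hp).1 _ (hu p hp).2
      exact ⟨ε, hε, fun _ => hb⟩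
    · exact ⟨1, one_pos, fun h => absurd h hp⟩
  choose ε hε hεb using hball
  obtain ⟨δ, hδ, hδE⟩ : ∃ δ : ℝ, 0 < δ ∧ ∀ p ∈ E, δ ≤ ε p := by
    by_cases hE : E.Nonempty
    · refine ⟨E.inf' hE ε, ?_, fun p hp => Finset.inf'_le _ hp⟩
      rw [Finset.lt_inf'_iff]
      exact fun p _ => hε p
    · refine ⟨1, one_pos, fun p hp => absurd ⟨p, hp⟩ hE⟩
  refine ⟨E, δ, hδ, fun g hg => ?_⟩
  apply huV
  intro p hp
  apply hεb p hp
  rw [Metric.mem_ball, Real.dist_eq]
  exact (hg p hp).trans_le (hδE p hp)

/-- Finitely many distinct points of the Cantor space are distinguished at some finite level. -/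
theorem exists_level {n : ℕ} (z : Fin n → ℕ → Bool) (hz : Function.Injective z) :
    ∃ m : ℕ, Function.Injective fun (k : Fin n) (l : Fin m) => z k l := by
  classical
  have h1 : ∀ p : Fin n × Fin n, ∃ i : ℕ, p.1 ≠ p.2 → z p.1 i ≠ z p.2 i := by
    intro p
    by_cases hp : p.1 = p.2
    · exact ⟨0, fun h => absurd hp h⟩
    · obtain ⟨i, hi⟩ := Function.ne_iff.mp (hz.ne hp)
      exact ⟨i, fun _ => hi⟩
  choose i hi using h1
  refine ⟨Finset.univ.sup i + 1, ?_⟩
  intro k k' hkk
  by_contra hne
  apply hi (k, k') hne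
  exact congrFun hkk ⟨i (k, k'), Nat.lt_succ_of_le (Finset.le_sup (Finset.mem_univ _))⟩

/-- `C_p(X)` has countable point-finite cellularity. -/
theorem part_A (𝒰 : Set (Set {f : X → ℝ // Continuous f}))
    (h1 : ∀ U ∈ 𝒰, IsOpen U ∧ U.Nonempty)
    (h2 : ∀ y : {f : X → ℝ // Continuous f}, {U | U ∈ 𝒰 ∧ y ∈ U}.Finite) : 𝒰.Countable := by
  classical
  by_contra hunc
  have htype : ∀ U : Set {f : X → ℝ // Continuous f},
      ∃ t : (n : ℕ) × (m : ℕ) × ((Fin n → ℚ) × (Fin n → Fin m → Bool)), U ∈ 𝒰 →
        ∃ e : Fin t.1 → X, Function.Injective t.2.2.2 ∧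
          (∀ (k : Fin t.1) (l : Fin t.2.1), code (e k) l = t.2.2.2 k l) ∧
          ∀ g : {f : X → ℝ // Continuous f}, (∀ k, g.1 (e k) = t.2.2.1 k) → g ∈ U := by
    intro U
    by_cases hU : U ∈ 𝒰
    · obtain ⟨f, hf⟩ := (h1 U hU).2
      obtain ⟨E, δ, hδ, hE⟩ := exists_basic (h1 U hU).1 hf
      let e : Fin E.card → X := fun k => (E.equivFin.symm k : X)
      have he : Function.Injective e := Subtype.val_injective.comp E.equivFin.symm.injective
      have hq : ∀ k : Fin E.card, ∃ q : ℚ, |(q : ℝ) - f.1 (e k)| < δ := by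
        intro k
        obtain ⟨q, hq1, hq2⟩ := exists_rat_btwn (show f.1 (e k) - δ < f.1 (e k) + δ by linarith)
        exact ⟨q, by rw [abs_lt]; constructor <;> linarith⟩
      choose q hq using hq
      obtain ⟨m, hm⟩ := exists_level (fun k => code (e k)) (code_injective.comp he)
      refine ⟨⟨E.card, m, q, fun k l => code (e k) l⟩, fun _ => ⟨e, hm, fun k l => rfl, ?_⟩⟩
      intro g hg
      apply hE
      intro x hx
      have hex : e (E.equivFin ⟨x, hx⟩) = x := by simp [e]
      have h3 := hq (E.equivFin ⟨x, hx⟩)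
      have h4 := hg (E.equivFin ⟨x, hx⟩)
      simp only at h4
      rw [← h4, hex] at h3
      exact h3
    · exact ⟨⟨0, 0, fun _ => 0, fun _ _ => true⟩, fun h => absurd h hU⟩
  choose t ht using htype
  obtain ⟨⟨n, m, q, c⟩, hS⟩ := pigeon t 𝒰 hunc
  have hinf : (𝒰 ∩ t ⁻¹' {⟨n, m, q, c⟩}).Infinite := fun h => hS h.countable
  let u := hinf.natEmbedding
  have hu : ∀ i : ℕ, ∃ e : Fin n → X, Function.Injective c ∧ (∀ (k : Fin n) (l : Fin m), code (e k) l = c k l) ∧
      ∀ g : {f : X → ℝ // Continuous f}, (∀ k, g.1 (e k) = q k) → g ∈ (u i : Set _) := by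
    intro i
    have h3 := ht (u i) (u i).2.1
    have h4 : t (u i) = ⟨n, m, q, c⟩ := (u i).2.2
    rw [h4] at h3
    exact h3
  choose e hc he hg using hu
  obtain ⟨θ, hθ⟩ := exists_gt_countable (⋃ i, range fun k => (e i k).1)
    (Set.countable_iUnion fun i => Set.countable_range _)
  have hθ' : ∀ i k, (e i k).1 < θ := fun i k => hθ _ (mem_iUnion.mpr ⟨i, mem_range_self k⟩)
  let ψ : (Fin m → Bool) → ℝ := fun v => if h : ∃ k, c k = v then q h.choose else 0
  have hψ : ∀ k, ψ (c k) = q k := by
    intro k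
    have hex : ∃ k', c k' = c k := ⟨k, rfl⟩
    simp only [ψ, dif_pos hex]
    rw [hc 0 hex.choose_spec]
  let g : {f : X → ℝ // Continuous f} := ⟨fun x => ψ (fun l => emb x (θ, l)), by
    apply (continuous_of_discreteTopology (f := ψ)).comp
    apply continuous_pi
    intro l
    exact (continuous_apply _).comp emb_isEmbedding.continuous⟩
  have hgu : ∀ i, g ∈ (u i : Set _) := by
    intro i
    apply hg i
    intro k
    rw [← hψ k]
    simp only [g]
    congr 1
    funext l
    rw [← he i k l]
    exact ev_of_le _ (hθ' i k).le _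
  have h5 : (range fun i : ℕ => (u i : Set {f : X → ℝ // Continuous f})).Infinite :=
    Set.infinite_range_of_injective (Subtype.val_injective.comp u.injective)
  apply h5
  refine (h2 g).subset ?_
  rintro _ ⟨i, rfl⟩
  exact ⟨(u i).2.1, hgu i⟩

/-- The range of the embedding is dense. -/
theorem denseRange_emb : DenseRange emb := by
  rw [DenseRange, dense_iff_inter_open]
  rintro V hV ⟨y, hy⟩
  obtain ⟨F, u, hu, huV⟩ := isOpen_pi_iff.mp hV y hy
  obtain ⟨α⟩ : Nonempty Om := by
    by_contra h
    rw [not_nonempty_iff] at h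
    exact uncountable_Om (Set.countable_univ)
  obtain ⟨θ, -, hθ⟩ := exists_bound F α
  refine ⟨emb (restr θ y : X), ?_, mem_range_self _⟩
  apply huV
  rintro ⟨γ, k⟩ hp
  have : emb (restr θ y : X) (γ, k) = y (γ, k) := ev_restr (hθ _ hp) k
  rw [this]
  exact (hu _ hp).2

/-- The extension of the embedding to the compactification. -/
noncomputable def Ev : StoneCech X → (Om × ℕ → Bool) := stoneCechExtend emb_isEmbedding.continuous

theorem Ev_continuous : Continuous Ev := continuous_stoneCechExtend _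

theorem Ev_unit (x : X) : Ev (stoneCechUnit x) = emb x :=
  congrFun (stoneCechExtend_extends emb_isEmbedding.continuous) x

theorem Ev_surjective : Function.Surjective Ev := by
  have h1 : IsClosed (range Ev) := (isCompact_range Ev_continuous).isClosed
  have h2 : range emb ⊆ range Ev := by
    rintro _ ⟨x, rfl⟩
    exact ⟨stoneCechUnit x, Ev_unit x⟩
  have h3 : closure (range emb) ⊆ range Ev := h1.closure_subset_iff.mpr h2
  intro y
  exact h3 (denseRange_emb y)

/-- The condition defining the Hewitt realcompactification. -/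
def Cond (p : StoneCech X) : Prop :=
  ∀ (g : X → Set.Icc (-1 : ℝ) 1) (hg : Continuous g),
    (∀ x, ((g x : ℝ)) ∈ Set.Ioo (-1 : ℝ) 1) →
    ((stoneCechExtend hg p : Set.Icc (-1 : ℝ) 1) : ℝ) ∈ Set.Ioo (-1 : ℝ) 1

theorem cond_all (p : StoneCech X) : Cond p := by
  intro g hg hgI
  obtain ⟨G, hG, hGg, hGx⟩ := extend (g := fun x => (g x : ℝ)) (continuous_subtype_val.comp hg)
  have h1 : (fun p => ((stoneCechExtend hg p : Set.Icc (-1 : ℝ) 1) : ℝ)) = G ∘ Ev := by
    apply stoneCech_hom_ext
    · exact continuous_subtype_val.comp (continuous_stoneCechExtend hg)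
    · exact hG.comp Ev_continuous
    · funext x
      simp only [Function.comp, Ev_unit, hGg]
      exact congrArg Subtype.val (congrFun (stoneCechExtend_extends hg) x)
  have h2 : ((stoneCechExtend hg p : Set.Icc (-1 : ℝ) 1) : ℝ) = G (Ev p) := congrFun h1 p
  rw [h2]
  obtain ⟨x, hx⟩ := hGx (Ev p)
  rw [hx]
  exact hgI x

/-- Continuous functions on the Hewitt realcompactification come from the Cantor cube. -/
theorem factor (f : {p : StoneCech X // Cond p} → ℝ) (hf : Continuous f) :
    ∃ G : (Om × ℕ → Bool) → ℝ, Continuous G ∧ ∀ q, f q = G (Ev q.1) := by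
  obtain ⟨G, hG, hGg, -⟩ := extend (g := fun x => f ⟨stoneCechUnit x, cond_all _⟩)
    (hf.comp (continuous_stoneCechUnit.subtype_mk _))
  have h1 : (fun p => f ⟨p, cond_all p⟩) = G ∘ Ev := by
    apply stoneCech_hom_ext
    · exact hf.comp (continuous_id.subtype_mk _)
    · exact hG.comp Ev_continuous
    · funext x
      simp only [Function.comp, Ev_unit, hGg]
  exact ⟨G, hG, fun q => congrFun h1 q.1⟩

/-- `C_p` of the Hewitt realcompactification has an uncountable point-finite family. -/
theorem part_B : ¬ (∀ 𝒰 : Set (Set {f : {p : StoneCech X // Cond p} → ℝ // Continuous f}),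
          (∀ U ∈ 𝒰, IsOpen U ∧ U.Nonempty) →
          (∀ y, {U | U ∈ 𝒰 ∧ y ∈ U}.Finite) →
          𝒰.Countable) := by
  classical
  intro hall
  choose P hP using Ev_surjective
  let pt : (Om × ℕ → Bool) → {p : StoneCech X // Cond p} := fun y => ⟨P y, cond_all _⟩
  let χ : Om → Om × ℕ → Bool := fun γ p => decide (p = (γ, 0))
  let z : Om × ℕ → Bool := fun _ => false
  let W : Om → Set {f : {p : StoneCech X // Cond p} → ℝ // Continuous f} := fun γ =>
    {f | 2 / 3 < f.1 (pt (χ γ)) ∧ f.1 (pt z) < 1 / 3}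
  -- the coordinate functions
  let co : Om → {f : {p : StoneCech X // Cond p} → ℝ // Continuous f} := fun γ =>
    ⟨fun q => if Ev q.1 (γ, 0) then 1 else 0, by
      have h1 : Continuous fun b : Bool => (if b then (1 : ℝ) else 0) :=
        continuous_of_discreteTopology
      exact h1.comp ((continuous_apply _).comp (Ev_continuous.comp continuous_subtype_val))⟩
  have hco : ∀ γ δ, co γ ∈ W δ ↔ γ = δ := by
    intro γ δ
    simp only [W, co, mem_ofPred_eq, pt, hP, χ, z, decide_eq_true_eq, Prod.mk.injEq, and_true]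
    constructor
    · rintro ⟨h, -⟩
      by_contra hne
      rw [if_neg hne] at h
      linarith
    · rintro rfl
      norm_num
  have hWinj : Function.Injective W := by
    intro γ δ hγδ
    rw [← hco γ δ, ← hγδ, hco γ γ]
  have h1 := hall (range W) (by
    rintro _ ⟨γ, rfl⟩
    refine ⟨?_, ⟨co γ, (hco γ γ).mpr rfl⟩⟩
    have c1 : ∀ q, Continuous fun f : {f : {p : StoneCech X // Cond p} → ℝ // Continuous f} => f.1 q :=
      fun q => (continuous_apply q).comp continuous_subtype_val
    exact (isOpen_lt continuous_const (c1 _)).inter (isOpen_lt (c1 _) continuous_const)) (by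
    intro f
    obtain ⟨G, hG, hGf⟩ := factor f.1 f.2
    -- neighbourhood of zero
    have hopen : IsOpen {y | |G y - G z| < 1 / 3} :=
      isOpen_lt ((hG.sub continuous_const).abs) continuous_const
    obtain ⟨F, u, hu, huV⟩ := isOpen_pi_iff.mp hopen z (by simp)
    have hfin : {γ : Om | f ∈ W γ} ⊆ Prod.fst '' (F : Set (Om × ℕ)) := by
      intro γ hγ
      by_contra hne
      have h3 : χ γ ∈ {y | |G y - G z| < 1 / 3} := by
        apply huV
        intro p hp
        have : χ γ p = z p := by
          simp only [χ, z, decide_eq_false_iff_not]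
          rintro rfl
          exact hne ⟨_, hp, rfl⟩
        rw [this]
        exact (hu p hp).2
      have h4 := hγ.1
      have h5 := hγ.2
      rw [hGf] at h4 h5
      simp only [pt, hP] at h4 h5
      have h6 := (abs_lt.mp (show |G (χ γ) - G z| < 1 / 3 from h3)).2
      linarith
    have hfin2 : {γ : Om | f ∈ W γ}.Finite := (F.finite_toSet.image _).subset hfin
    refine (hfin2.image W).subset ?_
    rintro _ ⟨⟨γ, rfl⟩, hγ⟩
    exact ⟨γ, hγ, rfl⟩)
  apply uncountable_Om
  have h2 := h1.preimage_of_injOn (f := W) hWinj.injOn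
  refine h2.mono ?_
  intro γ _
  exact mem_range_self γ

/-- The negation of the preceding statement: For every Tychonoff space X: if every point-finite family of nonempty open sets in C_p(X) is countable, then the same holds for C_p of the Hewitt realcompactification of X, taken as a subspace of the Stone–Čech compactification. -/
theorem result :
    ¬ (∀ (X : Type) [TopologicalSpace X] [T35Space X],
      (∀ 𝒰 : Set (Set {f : X → ℝ // Continuous f}),
          (∀ U ∈ 𝒰, IsOpen U ∧ U.Nonempty) →
          (∀ y : {f : X → ℝ // Continuous f}, {U | U ∈ 𝒰 ∧ y ∈ U}.Finite) →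
          𝒰.Countable) →
      (∀ 𝒰 : Set (Set {f : {p : StoneCech X //
              ∀ (g : X → Set.Icc (-1 : ℝ) 1) (hg : Continuous g),
                (∀ x, ((g x : ℝ)) ∈ Set.Ioo (-1 : ℝ) 1) →
                ((stoneCechExtend hg p : Set.Icc (-1 : ℝ) 1) : ℝ) ∈ Set.Ioo (-1 : ℝ) 1}
              → ℝ // Continuous f}),
          (∀ U ∈ 𝒰, IsOpen U ∧ U.Nonempty) →
          (∀ y, {U | U ∈ 𝒰 ∧ y ∈ U}.Finite) →
          𝒰.Countable)) := by
  intro hall
  exact part_B (hall X part_A)

end Pool.Agent.S09022
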