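import Pool.Statements.S09025

set_option autoImplicit false
open Pool Pool.MP_d91817_gt

namespace Pool.Agent.S09025

open Filter Topology

/-- index pairs: ordered pairs of distinct positive numbers with ratio at most two -/
def Idx : Type := {q : ℕ × ℕ // 1 ≤ q.1 ∧ 1 ≤ q.2 ∧ ((q.1 < q.2 ∧ q.2 ≤ 2 * q.1) ∨ (q.2 < q.1 ∧ q.1 ≤ 2 * q.2))}

instance : TopologicalSpace Idx := ⊥
instance : DiscreteTopology Idx := ⟨rfl⟩

/-- the swapped index -/
def sw (i : Idx) : Idx := ⟨(i.1.2, i.1.1), i.2.2.1, i.2.1, i.2.2.2.symm⟩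

/-- the point attached to an ordered pair -/
noncomputable def pt (N M : ℕ) : ℝ := 1 / ((N : ℝ) + 1 / ((M : ℝ) + 2))

lemma pt_pos (N M : ℕ) : 0 < pt N M := by
  unfold pt; positivity

lemma pt_lt (N M : ℕ) (hN : 1 ≤ N) : pt N M < 1 / (N : ℝ) := by
  unfold pt
  have h1 : (0:ℝ) < N := by exact_mod_cast hN
  apply one_div_lt_one_div_of_lt h1
  have : (0:ℝ) < 1 / ((M : ℝ) + 2) := by positivity
  linarith

lemma lt_pt (N M : ℕ) : 1 / ((N : ℝ) + 1) < pt N M := by
  unfold pt
  apply one_div_lt_one_div_of_lt (by positivity)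
  have : 1 / ((M : ℝ) + 2) < 1 := by
    rw [div_lt_one (by positivity)]
    have : (0:ℝ) ≤ M := by positivity
    linarith
  linarith

lemma pt_inj {N M N' M' : ℕ} (hN : 1 ≤ N) (hN' : 1 ≤ N') (h : pt N M = pt N' M') : N = N' ∧ M = M' := by
  have key : ∀ {A B A' B' : ℕ}, 1 ≤ A' → pt A B = pt A' B' → A' ≤ A := by
    intro A B A' B' hA' h
    by_contra hlt
    rw [not_le] at hlt
    have h1 := lt_pt A B
    have h2 := pt_lt A' B' hA'
    have h3 : 1 / (A' : ℝ) ≤ 1 / ((A : ℝ) + 1) := by
      apply one_div_le_one_div_of_le (by positivity)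
      exact_mod_cast hlt
    linarith
  have hNN : N = N' := le_antisymm (key hN h.symm) (key hN' h)
  refine ⟨hNN, ?_⟩
  subst hNN
  unfold pt at h
  have h2 := (div_left_inj' (one_ne_zero)).mp (congrArg (fun z : ℝ => z⁻¹ / 1) h)
  simp only [one_div, inv_inv] at h2
  have h3 : ((M : ℝ) + 2)⁻¹ = ((M' : ℝ) + 2)⁻¹ := by linarith
  have h5 := inv_injective h3
  have h4 : (M : ℝ) = M' := by linarith
  exact_mod_cast h4

/-- the points of the special set -/
noncomputable def phi0 : OnePoint Idx → ℝ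
  | none => 0
  | some i => pt i.1.1 i.1.2

/-- the values prescribed at the points -/
noncomputable def psi0 : OnePoint Idx → ℝ
  | none => 0
  | some i => pt (min i.1.1 i.1.2) (max i.1.1 i.1.2)

lemma finite_small (C : ℕ) : {i : Idx | i.1.1 ≤ C}.Finite := by
  have h1 : (Set.Iic C ×ˢ Set.Iic (2 * C) : Set (ℕ × ℕ)).Finite :=
    (Set.finite_Iic C).prod (Set.finite_Iic (2 * C))
  have h2 : ((fun i : Idx => i.1) '' {i : Idx | i.1.1 ≤ C}).Finite := by
    apply h1.subset
    rintro _ ⟨i, hi, rfl⟩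
    have := i.2
    simp only [Set.mem_ofPred_eq] at hi
    simp only [Set.mem_prod, Set.mem_Iic]
    omega
  exact h2.of_finite_image (fun a _ b _ h => Subtype.ext h)

lemma finite_small_min (C : ℕ) : {i : Idx | min i.1.1 i.1.2 ≤ C}.Finite := by
  apply (finite_small (2 * C)).subset
  intro i hi
  have := i.2
  simp only [Set.mem_ofPred_eq] at hi ⊢
  omega

lemma tendsto_phi : Tendsto (fun i : Idx => phi0 (some i)) cofinite (𝓝 0) := by
  rw [Metric.tendsto_nhds]
  intro ε hε
  obtain ⟨C, hC⟩ := exists_nat_one_div_lt hε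
  rw [Filter.eventually_cofinite]
  apply (finite_small (C + 1)).subset
  intro i hi
  simp only [Set.mem_ofPred_eq] at hi ⊢
  by_contra hlt
  rw [not_le] at hlt
  apply hi
  have h1 := pt_lt i.1.1 i.1.2 i.2.1
  have h0 := pt_pos i.1.1 i.1.2
  rw [Real.dist_eq, sub_zero]
  show |pt i.1.1 i.1.2| < ε
  rw [abs_of_pos h0]
  have h3 : 1 / ((i.1.1 : ℕ) : ℝ) ≤ 1 / ((C : ℝ) + 1) := by
    apply one_div_le_one_div_of_le (by positivity)
    have : C + 1 ≤ i.1.1 := by omega
    exact_mod_cast this
  linarith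

lemma tendsto_psi : Tendsto (fun i : Idx => psi0 (some i)) cofinite (𝓝 0) := by
  rw [Metric.tendsto_nhds]
  intro ε hε
  obtain ⟨C, hC⟩ := exists_nat_one_div_lt hε
  rw [Filter.eventually_cofinite]
  apply (finite_small_min (C + 1)).subset
  intro i hi
  simp only [Set.mem_ofPred_eq] at hi ⊢
  by_contra hlt
  rw [not_le] at hlt
  apply hi
  have hm : 1 ≤ min i.1.1 i.1.2 := le_min i.2.1 i.2.2.1
  have h1 := pt_lt (min i.1.1 i.1.2) (max i.1.1 i.1.2) hm
  have h0 := pt_pos (min i.1.1 i.1.2) (max i.1.1 i.1.2)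
  rw [Real.dist_eq, sub_zero]
  show |pt (min i.1.1 i.1.2) (max i.1.1 i.1.2)| < ε
  rw [abs_of_pos h0]
  have h3 : 1 / ((min i.1.1 i.1.2 : ℕ) : ℝ) ≤ 1 / ((C : ℝ) + 1) := by
    apply one_div_le_one_div_of_le (by positivity)
    have : C + 1 ≤ min i.1.1 i.1.2 := by omega
    exact_mod_cast this
  linarith

lemma cont_phi : Continuous phi0 := by
  rw [OnePoint.continuous_iff_from_discrete]
  exact tendsto_phi

lemma cont_psi : Continuous psi0 := by
  rw [OnePoint.continuous_iff_from_discrete]
  exact tendsto_psi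

lemma inj_phi : Function.Injective phi0 := by
  intro a b h
  match a, b with
  | none, none => rfl
  | none, some j =>
    have : (0:ℝ) = pt j.1.1 j.1.2 := h
    have := pt_pos j.1.1 j.1.2
    linarith
  | some i, none =>
    have : pt i.1.1 i.1.2 = 0 := h
    have := pt_pos i.1.1 i.1.2
    linarith
  | some i, some j =>
    have h' : pt i.1.1 i.1.2 = pt j.1.1 j.1.2 := h
    have := pt_inj i.2.1 j.2.1 h'
    have h2 : i = j := Subtype.ext (Prod.ext this.1 this.2)
    rw [h2]

/-- the swap on the one-point compactification -/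
def swp : OnePoint Idx → OnePoint Idx
  | none => none
  | some i => some (sw i)

lemma psi_eq {a b : OnePoint Idx} (h : psi0 a = psi0 b) : a = b ∨ a = swp b := by
  match a, b with
  | none, none => left; rfl
  | none, some j =>
    have : (0:ℝ) = pt (min j.1.1 j.1.2) (max j.1.1 j.1.2) := h
    have := pt_pos (min j.1.1 j.1.2) (max j.1.1 j.1.2)
    linarith
  | some i, none =>
    have : pt (min i.1.1 i.1.2) (max i.1.1 i.1.2) = 0 := h
    have := pt_pos (min i.1.1 i.1.2) (max i.1.1 i.1.2)
    linarith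
  | some i, some j =>
    have h' : pt (min i.1.1 i.1.2) (max i.1.1 i.1.2) = pt (min j.1.1 j.1.2) (max j.1.1 j.1.2) := h
    have h2 := pt_inj (le_min i.2.1 i.2.2.1) (le_min j.2.1 j.2.2.1) h'
    obtain ⟨⟨a, b⟩, hi⟩ := i
    obtain ⟨⟨c, d⟩, hj⟩ := j
    simp only at h2 hi hj
    have h3 : (a = c ∧ b = d) ∨ (a = d ∧ b = c) := by omega
    rcases h3 with ⟨rfl, rfl⟩ | ⟨rfl, rfl⟩
    · left; rfl
    · right; rfl

lemma psi_swp (i : Idx) : psi0 (some (sw i)) = psi0 (some i) := by
  show pt (min i.1.2 i.1.1) (max i.1.2 i.1.1) = pt (min i.1.1 i.1.2) (max i.1.1 i.1.2)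
  rw [min_comm, max_comm]

lemma closedEmb_phi : IsClosedEmbedding phi0 :=
  cont_phi.isClosedEmbedding inj_phi

lemma exists_F : ∃ F : ℝ → ℝ, Continuous F ∧ ∀ a, F (phi0 a) = psi0 a := by
  obtain ⟨g, hg⟩ := ContinuousMap.exists_extension closedEmb_phi ⟨psi0, cont_psi⟩
  refine ⟨g, g.continuous, fun a => ?_⟩
  have := congrArg (fun h => h a) hg
  simpa using this

/-- every point of [0,1] is in one of the intervals -/
lemma exists_interval (k : ℕ) (t : ℕ → ℝ) (h0 : t 0 = 0) (hk : 0 < k) (h1 : t k = 1) (x : ℝ)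
    (hx0 : 0 ≤ x) (hx1 : x ≤ 1) (ht : ∀ i, i < k → t i < t (i+1)) :
    ∃ j, j < k ∧ x ∈ Set.Icc (t j) (t (j+1)) := by
  classical
  have hex : ∃ j, x ≤ t j := ⟨k, by rw [h1]; exact hx1⟩
  obtain hn := Nat.find_spec hex
  rcases Nat.eq_zero_or_pos (Nat.find hex) with h | h
  · rw [h, h0] at hn
    have : x = 0 := le_antisymm hn hx0
    refine ⟨0, hk, ?_, ?_⟩
    · rw [h0, this]
    · rw [this]
      have := ht 0 hk
      rw [h0] at this
      exact this.le
  · obtain ⟨j, hj⟩ := Nat.exists_eq_succ_of_ne_zero h.ne'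
    have hlt : j < Nat.find hex := by omega
    have h2 := Nat.find_min hex hlt
    rw [not_le] at h2
    have hle : Nat.find hex ≤ k := Nat.find_min' hex (by rw [h1]; exact hx1)
    refine ⟨j, by omega, h2.le, ?_⟩
    rw [hj] at hn
    exact hn

/-- There is a metric space Y and a map f continuous on [0,1] whose fibers there have at most n points (some n ≥ 1), such that f is not finitely linear in the mesh-partition sense defined above. -/
theorem result :
    ∃ (Y : Type) (_ : MetricSpace Y) (f : ℝ → Y) (n : ℕ),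
      0 < n ∧ ContinuousOn f (Set.Icc (0:ℝ) 1) ∧
      (∀ y : Y, {x : ℝ | x ∈ Set.Icc (0:ℝ) 1 ∧ f x = y}.encard ≤ (n : ℕ∞)) ∧
      ¬ ∃ m : ℕ, 0 < m ∧ ∀ ε : ℝ, 0 < ε →
        ∃ (k : ℕ) (t : ℕ → ℝ), 0 < k ∧ t 0 = 0 ∧ t k = 1 ∧
          (∀ i, i < k → t i < t (i + 1) ∧ t (i + 1) - t i < ε) ∧
          ∀ i, i < k →
            {j : ℕ | j < k ∧
              (f '' Set.Icc (t i) (t (i + 1)) ∩ f '' Set.Icc (t j) (t (j + 1))).Nonempty}.encard
              ≤ (m : ℕ∞) := by
  obtain ⟨F, hF, hFphi⟩ := exists_F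
  set K : Set ℝ := Set.range phi0 with hK
  have hKc : IsClosed K := closedEmb_phi.isClosed_range
  have hKne : K.Nonempty := ⟨phi0 none, none, rfl⟩
  refine ⟨ℝ × ℝ × ℝ, inferInstance, fun x => (F x, Metric.infDist x K, x * Metric.infDist x K), 2,
    by norm_num, ?_, ?_, ?_⟩
  · apply Continuous.continuousOn
    have := Metric.continuous_infDist_pt K
    fun_prop
  · -- fibres
    intro y
    by_cases hne : ({x : ℝ | x ∈ Set.Icc (0:ℝ) 1 ∧ (F x, Metric.infDist x K, x * Metric.infDist x K) = y}).Nonempty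
    swap
    · rw [Set.not_nonempty_iff_eq_empty] at hne
      rw [hne]; simp
    obtain ⟨x, hx, hxy⟩ := hne
    have key : ∃ x' : ℝ, ∀ z, (F z, Metric.infDist z K, z * Metric.infDist z K) = y → z = x ∨ z = x' := by
      by_cases hxK : x ∈ K
      · obtain ⟨a, ha⟩ := hxK
        refine ⟨phi0 (swp a), fun z hz => ?_⟩
        rw [← hxy] at hz
        simp only [Prod.mk.injEq] at hz
        obtain ⟨hz1, hz2, hz3⟩ := hz
        have hx0 : Metric.infDist x K = 0 := by
          rw [← hKc.mem_iff_infDist_zero hKne]; exact ⟨a, ha⟩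
        rw [hx0, ← hKc.mem_iff_infDist_zero hKne] at hz2
        obtain ⟨b, hb⟩ := hz2
        rw [← hb, ← ha, hFphi, hFphi] at hz1
        rcases psi_eq hz1 with h | h
        · left; rw [← hb, ← ha, h]
        · right; rw [← hb, h]
      · refine ⟨x, fun z hz => ?_⟩
        rw [← hxy] at hz
        simp only [Prod.mk.injEq] at hz
        obtain ⟨hz1, hz2, hz3⟩ := hz
        have hx0 : Metric.infDist x K ≠ 0 := by
          intro h0
          rw [← hKc.mem_iff_infDist_zero hKne] at h0
          exact hxK h0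
        rw [hz2] at hz3
        left
        exact mul_right_cancel₀ hx0 hz3
    obtain ⟨x', hx'⟩ := key
    calc _ ≤ ({x, x'} : Set ℝ).encard := by
          apply Set.encard_le_encard
          intro z hz
          rcases hx' z hz.2 with h | h <;> simp [h]
      _ ≤ ({x'} : Set ℝ).encard + 1 := Set.encard_insert_le _ _
      _ = ((2:ℕ) : ℕ∞) := by rw [Set.encard_singleton]; norm_num
  · rintro ⟨m, hm, H⟩
    obtain ⟨k, t, hk, ht0, htk, ht, hdeg⟩ := H (1 / (((4 * m + 2 : ℕ) : ℝ) * ((4 * m + 3 : ℕ) : ℝ))) (by positivity)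
    set f : ℝ → ℝ × ℝ × ℝ := fun x => (F x, Metric.infDist x K, x * Metric.infDist x K) with hf
    have htlt : ∀ i, i < k → t i < t (i+1) := fun i hi => (ht i hi).1
    -- identification
    have hid : ∀ N M : ℕ, 1 ≤ N → N < M → M ≤ 2 * N → f (pt N M) = f (pt M N) := by
      intro N M h1 h2 h3
      let i : Idx := ⟨(N, M), h1, by show 1 ≤ M; omega, Or.inl ⟨h2, h3⟩⟩
      have e1 : phi0 (some i) = pt N M := rfl
      have e2 : phi0 (some (sw i)) = pt M N := rfl
      have z1 : Metric.infDist (pt N M) K = 0 := by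
        rw [← hKc.mem_iff_infDist_zero hKne]; exact ⟨some i, e1⟩
      have z2 : Metric.infDist (pt M N) K = 0 := by
        rw [← hKc.mem_iff_infDist_zero hKne]; exact ⟨some (sw i), e2⟩
      have z3 : F (pt N M) = F (pt M N) := by
        exact (hFphi (some i)).trans ((psi_swp i).symm.trans (hFphi (some (sw i))).symm)
      simp only [hf, z1, z2, z3, mul_zero]
    -- the descent
    have descent : ∀ M : ℕ, 1 ≤ M → (∃ i, i < k ∧ Set.Icc (1 / ((M:ℝ) + 1)) (1 / (M:ℝ)) ⊆ Set.Icc (t i) (t (i+1))) →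
        ∃ N : ℕ, 1 ≤ N ∧ N < 4 * m + 2 ∧ ∃ i, i < k ∧ Set.Icc (1 / ((N:ℝ) + 1)) (1 / (N:ℝ)) ⊆ Set.Icc (t i) (t (i+1)) := by
      intro M
      induction M using Nat.strong_induction_on with
      | _ M ih =>
        intro hM1 hM
        by_cases hsmall : M < 4 * m + 2
        · exact ⟨M, hM1, hsmall, hM⟩
        rw [not_lt] at hsmall
        obtain ⟨i, hi, hsub⟩ := hM
        have hex : ∀ N : ℕ, ∃ j, 1 ≤ N → (j < k ∧ pt N M ∈ Set.Icc (t j) (t (j+1))) := by
          intro N
          by_cases hN : 1 ≤ N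
          · have a1 := pt_pos N M
            have a2 := pt_lt N M hN
            have a3 : 1 / (N : ℝ) ≤ 1 := by
              rw [div_le_one (by exact_mod_cast hN)]; exact_mod_cast hN
            obtain ⟨j, hj⟩ := exists_interval k t ht0 hk htk (pt N M) a1.le (by linarith) htlt
            exact ⟨j, fun _ => hj⟩
          · exact ⟨0, fun h => absurd h hN⟩
        choose j hj using hex
        let T : Finset ℕ := Finset.Ico ((M + 1) / 2) M
        have hTcard : T.card = M - (M+1)/2 := by simp [T]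
        have hSfin : {j : ℕ | j < k ∧
              (f '' Set.Icc (t i) (t (i + 1)) ∩ f '' Set.Icc (t j) (t (j + 1))).Nonempty}.Finite :=
          (Set.finite_Iio k).subset (fun j hj => hj.1)
        have hSc := hdeg i hi
        rw [hSfin.encard_eq_coe_toFinset_card] at hSc
        have hSc' : hSfin.toFinset.card ≤ m := by exact_mod_cast hSc
        have hmaps : ∀ N ∈ T, j N ∈ hSfin.toFinset := by
          intro N hN
          simp only [T, Finset.mem_Ico] at hN
          have hN1 : 1 ≤ N := by omega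
          obtain ⟨hj1, hj2⟩ := hj N hN1
          rw [Set.Finite.mem_toFinset]
          refine ⟨hj1, f (pt N M), ⟨pt M N, hsub ?_, ?_⟩, ⟨pt N M, hj2, rfl⟩⟩
          · exact ⟨(lt_pt M N).le, (pt_lt M N hM1).le⟩
          · exact (hid N M hN1 hN.2 (by omega)).symm
        obtain ⟨j0, hj0, hcard⟩ := Finset.exists_lt_card_fiber_of_mul_lt_card_of_maps_to (n := 2) hmaps (by
          rw [hTcard]; omega)
        set W := T.filter (fun x => j x = j0) with hW
        have hWne : W.Nonempty := Finset.card_pos.mp (by omega)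
        -- a middle element
        have hmid : ∃ b ∈ W, b ≠ W.min' hWne ∧ b ≠ W.max' hWne := by
          by_contra hcon
          simp only [not_exists, not_and, not_not] at hcon
          have : W ⊆ {W.min' hWne, W.max' hWne} := by
            intro b hb
            by_cases h : b = W.min' hWne
            · rw [Finset.mem_insert]; left; exact h
            · rw [Finset.mem_insert, Finset.mem_singleton]; right; exact hcon b hb h
          have h2 := Finset.card_le_card this
          have h3 := Finset.card_le_two (a := W.min' hWne) (b := W.max' hWne)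
          omega
        obtain ⟨b, hb, hb1, hb2⟩ := hmid
        have hbmin : W.min' hWne < b := lt_of_le_of_ne (Finset.min'_le W b hb) (Ne.symm hb1)
        have hbmax : b < W.max' hWne := lt_of_le_of_ne (Finset.le_max' W b hb) hb2
        have hminW := Finset.min'_mem W hWne
        have hmaxW := Finset.max'_mem W hWne
        set a := W.min' hWne with ha
        set c := W.max' hWne with hc
        rw [hW, Finset.mem_filter] at hminW hmaxW hb
        simp only [T, Finset.mem_Ico] at hminW hmaxW hb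
        have ha1 : 1 ≤ a := by omega
        have hc1 : 1 ≤ c := by omega
        have hja := hj a ha1
        have hjc := hj c hc1
        rw [hminW.2] at hja
        rw [hmaxW.2] at hjc
        refine ih b hb.1.2 (by omega) ⟨j0, hja.1, ?_⟩
        apply Set.Icc_subset_Icc
        · have h1 := hjc.2.1
          have h2 := pt_lt c M hc1
          have h3 : 1 / (c : ℝ) ≤ 1 / ((b : ℝ) + 1) := by
            apply one_div_le_one_div_of_le (by positivity)
            exact_mod_cast hbmax
          linarith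
        · have h1 := hja.2.2
          have h2 := lt_pt a M
          have h3 : 1 / (b : ℝ) ≤ 1 / ((a : ℝ) + 1) := by
            apply one_div_le_one_div_of_le (by positivity)
            exact_mod_cast hbmin
          linarith
    -- start
    have hstart : ∃ M : ℕ, 1 ≤ M ∧ ∃ i, i < k ∧ Set.Icc (1 / ((M:ℝ) + 1)) (1 / (M:ℝ)) ⊆ Set.Icc (t i) (t (i+1)) := by
      have h1 : 0 < t 1 := by have := htlt 0 hk; rw [ht0] at this; exact this
      obtain ⟨M, hM⟩ := exists_nat_one_div_lt h1
      refine ⟨M + 1, by omega, 0, hk, ?_⟩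
      apply Set.Icc_subset_Icc
      · rw [ht0]; positivity
      · push_cast
        exact hM.le
    obtain ⟨M, hM1, hM⟩ := hstart
    obtain ⟨N, hN1, hN2, i, hi, hsub⟩ := descent M hM1 hM
    have hNpos : (0:ℝ) < N := by exact_mod_cast hN1
    have hle : 1 / ((N:ℝ) + 1) ≤ 1 / (N:ℝ) := one_div_le_one_div_of_le hNpos (by linarith)
    have m1 := (hsub (Set.left_mem_Icc.mpr hle)).1
    have m2 := (hsub (Set.right_mem_Icc.mpr hle)).2
    have h3 := (ht i hi).2
    have h4 : 1 / (N:ℝ) - 1 / ((N:ℝ) + 1) = 1 / ((N:ℝ) * ((N:ℝ) + 1)) := by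
      field_simp
      ring
    have h5 : 1 / (((4 * m + 2 : ℕ) : ℝ) * ((4 * m + 3 : ℕ) : ℝ)) ≤ 1 / ((N:ℝ) * ((N:ℝ) + 1)) := by
      apply one_div_le_one_div_of_le (by positivity)
      have e1 : (N : ℝ) ≤ ((4 * m + 2 : ℕ) : ℝ) := by exact_mod_cast hN2.le
      have e2 : (N : ℝ) + 1 ≤ ((4 * m + 3 : ℕ) : ℝ) := by
        have : N + 1 ≤ 4 * m + 3 := by omega
        exact_mod_cast this
      exact mul_le_mul e1 e2 (by positivity) (by positivity)
    linarith

end Pool.Agent.S09025
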