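import Pool.Statements.S09029
import Pool.Agent.Helper554.Smith.Main

set_option autoImplicit false
open Pool Pool.MP_d94aa4_gt

namespace Pool.Agent.S09029

/-- For every m > 1 there is a continuous injective map T of ℝ^m such that for every n < m and every Borel bijection U from ℝ^m onto ℝ^n, the conjugate U∘T∘U⁻¹ on ℝ^n is not continuous. -/
theorem result :
    ∀ m : ℕ, 1 < m →
      ∃ T : (Fin m → ℝ) → (Fin m → ℝ),
        Continuous T ∧ Function.Injective T ∧
        ∀ n : ℕ, n < m →
          ∀ U : (Fin m → ℝ) ≃ (Fin n → ℝ), Measurable U →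
            ¬ Continuous (U ∘ T ∘ U.symm) := by
  intro m hm
  obtain ⟨T, hT, hinj, h⟩ := Pool.Agent.Helper554.Smith.main m hm
  exact ⟨T, hT, hinj, fun n hn U _ => h n hn U⟩

end Pool.Agent.S09029
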