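import Pool.Statements.S09039
import Pool.Agent.Helper761.LCRim2

set_option autoImplicit false
open Pool Pool.MP_dab682_gt

namespace Pool.Agent.S09039

/-- Every locally connected T4 space that is submetacompact (each open cover has a sequence of open refinements covering the space, each point lying in finitely many members of one of them) and has a base of open sets with compact boundaries is paracompact. -/
theorem result :
    ∀ (X : Type) [TopologicalSpace X],
      LocallyConnectedSpace X →
      T4Space X →
      (∀ 𝒰 : Set (Set X), (∀ u ∈ 𝒰, IsOpen u) → ⋃₀ 𝒰 = Set.univ →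
        ∃ V : ℕ → Set (Set X),
          (∀ n, ∀ v ∈ V n, IsOpen v ∧ ∃ u ∈ 𝒰, v ⊆ u) ∧
          (∀ n, ⋃₀ V n = Set.univ) ∧
          (∀ x : X, ∃ n, {v ∈ V n | x ∈ v}.Finite)) →
      (∃ B : Set (Set X), TopologicalSpace.IsTopologicalBasis B ∧
          ∀ U ∈ B, IsCompact (frontier U)) →
      ParacompactSpace X := by
  intro X _ hlc hT4 hsub hB
  exact Pool.Agent.Helper761.LCRim.main hsub hB

end Pool.Agent.S09039
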