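import Pool.Statements.S09041
import Pool.Agent.Helper102.MonoMono

set_option autoImplicit false
open Pool Pool.MP_dacbbd_gt

namespace Pool.Agent.S09041

/-- Every compact Hausdorff space with a monotone, chain-continuous operator giving each subset A an external network of its closure of size at most max(∣A∣, ℵ₀) has a dense metrizable subspace. -/
theorem result :
    ∀ (X : Type) [TopologicalSpace X] [CompactSpace X] [T2Space X],
      (∃ O : Set X → Set (Set X),
        (∀ A : Set X, Cardinal.mk ↥(O A) ≤ max (Cardinal.mk ↥A) Cardinal.aleph0) ∧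
        (∀ A : Set X, ∀ x ∈ closure A, ∀ U : Set X, IsOpen U → x ∈ U →
          ∃ N ∈ O A, x ∈ N ∧ N ⊆ U) ∧
        (∀ A B : Set X, A ⊆ B → O A ⊆ O B) ∧
        (∀ c : Set (Set X), c.Nonempty → IsChain (· ⊆ ·) c →
          O (⋃₀ c) = ⋃ A ∈ c, O A)) →
      ∃ D : Set X, Dense D ∧ TopologicalSpace.MetrizableSpace ↥D := by
  intro X _ _ _ hO
  obtain ⟨O, hcard, hnet, -, hchain⟩ := hO
  refine Pool.Agent.Helper102.MonoMono.exists_dense_metrizable (O := O) ⟨?_, hnet, ?_⟩
  · intro A hA
    rw [← Cardinal.le_aleph0_iff_set_countable]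
    refine (hcard A).trans (max_le ?_ le_rfl)
    rw [Cardinal.le_aleph0_iff_set_countable]
    exact hA.countable
  · intro A hA
    have h := hchain (Set.range A) (Set.range_nonempty A) (by
      rintro _ ⟨m, rfl⟩ _ ⟨n, rfl⟩ hne
      rcases le_total m n with h | h
      · exact Or.inl (hA h)
      · exact Or.inr (hA h))
    rw [Set.sUnion_range] at h
    rw [h]
    ext N
    simp

end Pool.Agent.S09041
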