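import Pool.Statements.S09044
import Pool.Agent.Helper614.SC

set_option autoImplicit false
open Pool Pool.MP_db1942_gt

namespace Pool.Agent.S09044

/-- The negation of the preceding statement: Every compact Hausdorff space with a binary closed subbase has a binary closed subbase whose generated lattice under finite unions and intersections consists only of regular closed sets. -/
theorem result :
    ¬ (∀ (X : Type) [t : TopologicalSpace X] [T2Space X] [CompactSpace X],
      (∃ P : Set (Set X),
          t = TopologicalSpace.generateFrom (compl '' P) ∧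
          ∀ M ⊆ P, (∀ A ∈ M, ∀ B ∈ M, (A ∩ B).Nonempty) → (⋂₀ M).Nonempty) →
      ∃ P : Set (Set X),
          t = TopologicalSpace.generateFrom (compl '' P) ∧
          (∀ M ⊆ P, (∀ A ∈ M, ∀ B ∈ M, (A ∩ B).Nonempty) → (⋂₀ M).Nonempty) ∧
          ∃ S : Set (Set X), P ⊆ S ∧
            (∀ A ∈ S, ∀ B ∈ S, A ∩ B ∈ S ∧ A ∪ B ∈ S) ∧
            ∀ A ∈ S, closure (interior A) = A) := by
  intro h
  have hcompl : ∀ P : Set (Set (Pool.Agent.Helper614.SC.K (Set ℝ))),
      compl '' P = {U | Uᶜ ∈ P} := by
    intro P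
    ext U
    constructor
    · rintro ⟨A, hA, rfl⟩
      change Aᶜᶜ ∈ P
      rwa [compl_compl]
    · intro hU
      exact ⟨Uᶜ, hU, compl_compl U⟩
  obtain ⟨P, hP1, _, S, hPS, hS, hreg⟩ := h (Pool.Agent.Helper614.SC.K (Set ℝ))
    ⟨{A | Pool.Agent.Helper614.SC.SB A}, by rw [hcompl]; rfl, fun M hM hlink =>
      Pool.Agent.Helper614.SC.binary M hM hlink⟩
  rw [hcompl] at hP1
  exact Pool.Agent.Helper614.SC.no_regular Pool.Agent.Helper614.SC.card_setReal P S hP1 hPS
    (fun B hB C hC => (hS B hB C hC).2) (fun B hB C hC => (hS B hB C hC).1) hreg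

end Pool.Agent.S09044
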