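import Pool.Statements.S09052
import Pool.Agent.H333.ArchMain

set_option autoImplicit false
open Pool Pool.MP_dce2ef_gt

namespace Pool.Agent.S09052

/-- The negation of the preceding statement: For n>1, every locally connected compact connected metric space of covering dimension n is homeomorphic to the inverse limit of a sequence of n-dimensional finite polyhedra whose bonding maps are continuous, surjective and have connected point-preimages. -/
theorem result :
    ¬ (∀ (n : ℕ), 1 < n →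
  ∀ (X : Type) [MetricSpace X] [CompactSpace X] [ConnectedSpace X] [LocallyConnectedSpace X],
    (∀ (k : ℕ) (U : Fin k → Set X), (∀ i, IsOpen (U i)) → (⋃ i, U i) = Set.univ →
      ∃ V : Fin k → Set X, (∀ i, IsOpen (V i)) ∧ (∀ i, V i ⊆ U i) ∧
        (⋃ i, V i) = Set.univ ∧ ∀ x : X, {i | x ∈ V i}.ncard ≤ n + 1) →
    ¬ (∀ (k : ℕ) (U : Fin k → Set X), (∀ i, IsOpen (U i)) → (⋃ i, U i) = Set.univ →
      ∃ V : Fin k → Set X, (∀ i, IsOpen (V i)) ∧ (∀ i, V i ⊆ U i) ∧
        (⋃ i, V i) = Set.univ ∧ ∀ x : X, {i | x ∈ V i}.ncard ≤ n) →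
    ∃ (m : ℕ → ℕ) (K : ∀ k : ℕ, Geometry.SimplicialComplex ℝ (EuclideanSpace ℝ (Fin (m k)))),
      (∀ k, (K k).faces.Finite) ∧
      (∀ k, ∀ s ∈ (K k).faces, s.card ≤ n + 1) ∧
      (∀ k, ∃ s ∈ (K k).faces, s.card = n + 1) ∧
      ∃ (f : ∀ k : ℕ, (K (k + 1)).space → (K k).space),
        (∀ k, Continuous (f k)) ∧
        (∀ k, Function.Surjective (f k)) ∧
        (∀ k (y : (K k).space), IsConnected ((f k) ⁻¹' {y})) ∧
        Nonempty (X ≃ₜ {x : ∀ k : ℕ, (K k).space // ∀ k, f k (x (k + 1)) = x k})) := by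
  intro H
  have hXc : CompactSpace H333.XX := isCompact_iff_compactSpace.1 H333.XX_compact
  have hXconn : ConnectedSpace H333.XX := isConnected_iff_connectedSpace.1 H333.XX_conn
  have hXl : LocallyConnectedSpace H333.XX := H333.locConn_of_PS (fun ε hε => H333.PS.xx hε)
  obtain ⟨m, K, hfin, hcard, hcard', f, hfc, hfs, hfib, ⟨e⟩⟩ := H 2 (by norm_num) H333.XX
    (fun k U hU hc => H333.dim_le H333.XX k U hU hc)
    (H333.dim_ge H333.XX Set.subset_union_left)
  have hKc : ∀ k, CompactSpace (K k).space := fun k =>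
    isCompact_iff_compactSpace.1 (H333.space_compact _ (hfin k))
  obtain ⟨i, p, hp, hps, hpf, hA, hB⟩ := H333.exists_proj (Z := fun k => (K k).space) (f := f)
    hfc hfs (fun k y => (hfib k y).isPreconnected) e
    (A := H333.e0 '' Set.Icc (1 / 2 : ℝ) 1) (B := Subtype.val ⁻¹' H333.SS)
    (A' := {H333.e0 (1 / 2)}) (B' := {H333.e0 1})
    ((isCompact_Icc.image H333.e0_cont).isClosed)
    (H333.SS_compact.isClosed.preimage continuous_subtype_val)
    (by
      rw [Set.disjoint_left]
      rintro _ ⟨x, hx, rfl⟩ hS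
      have h1 : (H333.e0 x).1.1 ≤ 0 := hS.1.2
      rw [H333.e0_val ⟨by linarith [hx.1], hx.2⟩] at h1
      have h2 : x ≤ 0 := h1
      linarith [hx.1])
    isClosed_singleton isClosed_singleton
    (by
      rw [Set.disjoint_singleton]
      intro h
      have h1 := congrArg Subtype.val h
      rw [H333.e0_val (by norm_num), H333.e0_val (by norm_num)] at h1
      have h2 : (1:ℝ) / 2 = 1 := congrArg Prod.fst h1
      norm_num at h2)
  exact H333.arch_main (K i) (hfin i) p hp hps hpf
    (fun x hx b hb => hA _ ⟨x, hx, rfl⟩ b hb) (hB _ rfl _ rfl)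

end Pool.Agent.S09052
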