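import Pool.Statements.S09055
import Pool.Agent.Helper451.Arcw.D15

set_option autoImplicit false
open Pool Pool.MP_dd0f47_gt

namespace Pool.Agent.S09055

/-- Let X be a metric continuum in which, for each ε>0, disjoint connected sets of diameter >ε are finitely many. Suppose each monotone continuous Hausdorff image of X embeds in a metric continuum covered by countably many arcs. Then every connected subset of X is path-connected. -/
theorem result :
    ∀ (X : Type) [MetricSpace X] [CompactSpace X] [ConnectedSpace X],
      (∀ ε : ℝ, 0 < ε → ∀ 𝒮 : Set (Set X), 𝒮.PairwiseDisjoint id →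
          (∀ S ∈ 𝒮, IsConnected S ∧ ε < Metric.diam S) → 𝒮.Finite) →
      (∀ (Y : Type) [TopologicalSpace Y] [T2Space Y] (f : X → Y),
          Continuous f → Function.Surjective f → (∀ y : Y, IsConnected (f ⁻¹' {y})) →
          ∃ (Z : Type) (_ : MetricSpace Z), CompactSpace Z ∧ ConnectedSpace Z ∧
            ∃ g : Y → Z, Topology.IsEmbedding g ∧
              ∃ A : ℕ → Set Z, (∀ n : ℕ, Nonempty (↥(A n) ≃ₜ unitInterval)) ∧
                (⋃ n, A n) = Set.univ) →
      ∀ S : Set X, IsConnected S → IsPathConnected S := by
  intro X _ _ _ h1 h2 S hS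
  exact Pool.Agent.Helper451.Arcw.main X h1 h2 S hS

end Pool.Agent.S09055
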