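import Pool.Statements.S09060
import Pool.Agent.Helper300.K33Space

set_option autoImplicit false
open Pool Pool.MP_de0764_gt

namespace Pool.Agent.S09060

/-- The negation of the preceding statement: Take any nondegenerate locally connected metric continuum Y in which every subcontinuum without cut points is completely regular. Then some plane continuum X has a continuous open surjection onto Y whose fibers are all nondegenerate decomposable continua. -/
theorem result :
    ¬ (∀ (Y : Type) [TopologicalSpace Y] [TopologicalSpace.MetrizableSpace Y] [CompactSpace Y]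
      [ConnectedSpace Y] [LocallyConnectedSpace Y] [Nontrivial Y],
      (∀ K : Set Y, IsClosed K → IsConnected K → (∀ p ∈ K, IsPreconnected (K \ {p})) →
        ∀ L : Set Y, L ⊆ K → IsClosed L → IsConnected L → L.Nontrivial →
          ∃ U : Set Y, IsOpen U ∧ (U ∩ K).Nonempty ∧ U ∩ K ⊆ L) →
      ∃ (S : Set (EuclideanSpace ℝ (Fin 2))) (f : ↥S → Y),
        IsCompact S ∧ IsConnected S ∧ Continuous f ∧ IsOpenMap f ∧ Function.Surjective f ∧
        ∀ y : Y,
          IsConnected (Subtype.val '' (f ⁻¹' {y})) ∧
          (Subtype.val '' (f ⁻¹' {y})).Nontrivial ∧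
          ∃ A B : Set (EuclideanSpace ℝ (Fin 2)),
            IsClosed A ∧ IsConnected A ∧ IsClosed B ∧ IsConnected B ∧
            A ⊂ Subtype.val '' (f ⁻¹' {y}) ∧ B ⊂ Subtype.val '' (f ⁻¹' {y}) ∧
            A ∪ B = Subtype.val '' (f ⁻¹' {y})) := by
  intro h
  obtain ⟨S, f, hS, -, hf, -, hsurj, hfib⟩ := h Pool.Agent.Helper300.K33Space.K (by
    intro K _ _ _ L hLK _ hL hnt
    obtain ⟨U, hU, hne, hUL⟩ :=
      Pool.Agent.Helper300.K33Space.exists_interior hL.isPreconnected hnt
    obtain ⟨u, hu⟩ := hne
    exact ⟨U, hU, ⟨u, hu, hLK (hUL hu)⟩, fun x hx => hUL hx.1⟩)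
  have : CompactSpace S := isCompact_iff_compactSpace.1 hS
  refine Pool.Agent.Helper300.K33Space.no_planar (T := S) (X := fun s => s.1 0)
    (Y := fun s => s.1 1) (by fun_prop) (by fun_prop) ?_ hf hsurj ?_
  · intro s t h0 h1
    apply Subtype.ext
    ext i
    fin_cases i
    · exact h0
    · exact h1
  · intro y
    obtain ⟨⟨hne, hpre⟩, -, -⟩ := hfib y
    refine ⟨Set.image_nonempty.1 hne, ?_⟩
    exact (Topology.IsInducing.subtypeVal.isPreconnected_image).1 hpre

end Pool.Agent.S09060
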