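import Pool.Statements.S09068
import Pool.Agent.B595.Arc.Final

set_option autoImplicit false
open Pool Pool.MP_df5cf0_gt

namespace Pool.Agent.S09068

/-- The negation of the preceding statement: Every nondegenerate compact path-connected homogeneous metric space not homeomorphic to the circle contains, for each ε>0, an embedded circle of diameter less than ε. -/
theorem result :
    ¬ (∀ (X : Type) [MetricSpace X] [CompactSpace X] [PathConnectedSpace X] [Nontrivial X],
      (∀ x y : X, ∃ h : X ≃ₜ X, h x = y) →
      IsEmpty (X ≃ₜ Circle) →
      ∀ ε : ℝ, 0 < ε →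
        ∃ f : Circle → X, Continuous f ∧ Function.Injective f ∧
          Metric.diam (Set.range f) < ε) := by
  intro H
  obtain ⟨X, mX, cX, pX, nX, hom, hc, ε, hε, hf⟩ := Pool.B595.Arc.exists_space
  obtain ⟨f, f1, f2, f3⟩ := H X hom hc ε hε
  exact hf f f1 f2 f3

end Pool.Agent.S09068
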