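import Pool.Statements.S09080
import Pool.Agent.Helper531.FSP.Cont
import Pool.Agent.Helper531.FSP.Arcs
-- import your own Pool.Agent.* helpers here

set_option autoImplicit false
open Pool Pool.MP_e1ef08_gt

namespace Pool.Agent.S09080

/-- The negation of the preceding statement: Every arcwise connected metric continuum that has a free arc, and in which every nonempty closed set is the exact fixed-point set of some continuous monotone surjection of X onto itself, is homeomorphic to the circle. -/
theorem result :
    ¬ (∀ (X : Type) [MetricSpace X] [CompactSpace X] [ConnectedSpace X],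
      (∀ x y : X, x ≠ y →
        ∃ γ : unitInterval → X, Continuous γ ∧ Function.Injective γ ∧ γ 0 = x ∧ γ 1 = y) →
      (∃ γ : unitInterval → X, Continuous γ ∧ Function.Injective γ ∧
        IsOpen (γ '' {t : unitInterval | (0 : unitInterval) < t ∧ t < 1})) →
      (∀ A : Set X, IsClosed A → A.Nonempty →
        ∃ f : X → X, Continuous f ∧ Function.Surjective f ∧
          (∀ y : X, IsConnected (f ⁻¹' {y})) ∧
          (∀ x : X, f x = x ↔ x ∈ A)) →
      Nonempty (X ≃ₜ Circle)) := by
  intro H
  have : CompactSpace Helper531.FSP.XS := isCompact_iff_compactSpace.mp Helper531.FSP.XS_compact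
  have : ConnectedSpace Helper531.FSP.XS :=
    isConnected_iff_connectedSpace.mp Helper531.FSP.XS_connected
  refine absurd (H Helper531.FSP.XS Helper531.FSP.arcwise Helper531.FSP.free_arc ?_)
    (fun ⟨h⟩ => Helper531.FSP.not_circle h)
  intro A hA hne
  -- work in the ambient space
  let A' : Set (ℂ × ℝ) := Subtype.val '' A
  have hA' : IsClosed A' := Helper531.FSP.XS_closed.isClosedEmbedding_subtypeVal.isClosedMap A hA
  have hne' : A'.Nonempty := hne.image _
  have hsub' : A' ⊆ Helper531.FSP.XS := by
    rintro _ ⟨x, -, rfl⟩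
    exact x.2
  have hmaps := Helper531.FSP.mapsTo hne' hsub'
  have hconn : ∀ y : Helper531.FSP.XS,
      IsConnected ((hmaps.restrict (Helper531.FSP.f A') _ _) ⁻¹' {y}) := by
    intro y
    have h1 := Helper531.FSP.fibre_connected hne' hsub' y.2
    have himg : Subtype.val '' ((hmaps.restrict (Helper531.FSP.f A') _ _) ⁻¹' {y})
        = Helper531.FSP.XS ∩ Helper531.FSP.f A' ⁻¹' {(y : ℂ × ℝ)} := by
      ext p
      constructor
      · rintro ⟨q, hq, rfl⟩
        refine ⟨q.2, ?_⟩
        exact congrArg Subtype.val hq
      · rintro ⟨hp, hp'⟩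
        exact ⟨⟨p, hp⟩, Subtype.ext hp', rfl⟩
    rw [← himg] at h1
    refine ⟨Set.image_nonempty.mp h1.1, ?_⟩
    exact (Topology.IsInducing.subtypeVal.isPreconnected_image).mp h1.2
  refine ⟨hmaps.restrict (Helper531.FSP.f A') _ _, ?_, ?_, hconn, ?_⟩
  · exact (Helper531.FSP.f_contOn hne' hsub').mapsToRestrict hmaps
  · intro y
    obtain ⟨x, hx⟩ := (hconn y).1
    exact ⟨x, hx⟩
  · intro x
    have h1 := Helper531.FSP.fixed_iff hA' hne' hsub' x.2
    constructor
    · intro h
      have h2 : Helper531.FSP.f A' x = x := congrArg Subtype.val h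
      obtain ⟨y, hy, hyx⟩ := h1.mp h2
      rwa [Subtype.ext hyx] at hy
    · intro h
      exact Subtype.ext (h1.mpr ⟨x, h, rfl⟩)

end Pool.Agent.S09080
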