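import Pool.Statements.S09084
import Pool.Agent.Helper18.Vietoris

set_option autoImplicit false
open Pool Pool.MP_e230d6_gt

namespace Pool.Agent.S09084

/-- The negation of the preceding statement: For every first-countable well-filtered T0 space X, on the nonempty compact saturated subsets ordered by reverse inclusion, a family is open in the upper Vietoris topology exactly when it is Scott open. -/
theorem result :
    ¬ (∀ (X : Type) [TopologicalSpace X], T0Space X → FirstCountableTopology X →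
    (∀ 𝒦 : Set (Set X), 𝒦.Nonempty →
      (∀ K ∈ 𝒦, IsCompact K ∧ ⋂₀ {U : Set X | IsOpen U ∧ K ⊆ U} ⊆ K) →
      DirectedOn (fun A B : Set X => B ⊆ A) 𝒦 →
      ∀ U : Set X, IsOpen U → ⋂₀ 𝒦 ⊆ U → ∃ K ∈ 𝒦, K ⊆ U) →
    ∀ 𝒮 : Set {K : Set X // K.Nonempty ∧ IsCompact K ∧ ⋂₀ {U : Set X | IsOpen U ∧ K ⊆ U} ⊆ K},
      (@IsOpen {K : Set X // K.Nonempty ∧ IsCompact K ∧ ⋂₀ {U : Set X | IsOpen U ∧ K ⊆ U} ⊆ K}
        (TopologicalSpace.generateFrom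
          {𝒱 : Set {K : Set X // K.Nonempty ∧ IsCompact K ∧ ⋂₀ {U : Set X | IsOpen U ∧ K ⊆ U} ⊆ K} |
            ∃ U : Set X, IsOpen U ∧
              𝒱 = {K : {K : Set X // K.Nonempty ∧ IsCompact K ∧ ⋂₀ {U : Set X | IsOpen U ∧ K ⊆ U} ⊆ K} |
                K.1 ⊆ U}}) 𝒮 ↔
      ((∀ K ∈ 𝒮, ∀ L : {K : Set X // K.Nonempty ∧ IsCompact K ∧ ⋂₀ {U : Set X | IsOpen U ∧ K ⊆ U} ⊆ K},
          L.1 ⊆ K.1 → L ∈ 𝒮) ∧
       ∀ 𝒟 : Set {K : Set X // K.Nonempty ∧ IsCompact K ∧ ⋂₀ {U : Set X | IsOpen U ∧ K ⊆ U} ⊆ K},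
        𝒟.Nonempty →
        DirectedOn (fun A B : {K : Set X // K.Nonempty ∧ IsCompact K ∧ ⋂₀ {U : Set X | IsOpen U ∧ K ⊆ U} ⊆ K} =>
          B.1 ⊆ A.1) 𝒟 →
        ∀ L : {K : Set X // K.Nonempty ∧ IsCompact K ∧ ⋂₀ {U : Set X | IsOpen U ∧ K ⊆ U} ⊆ K},
          (∀ K ∈ 𝒟, L.1 ⊆ K.1) →
          (∀ M : {K : Set X // K.Nonempty ∧ IsCompact K ∧ ⋂₀ {U : Set X | IsOpen U ∧ K ⊆ U} ⊆ K},
            (∀ K ∈ 𝒟, M.1 ⊆ K.1) → M.1 ⊆ L.1) →
          L ∈ 𝒮 → ∃ K ∈ 𝒟, K ∈ 𝒮))) := by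
  open Set Pool.Agent.Helper18.Vietoris in
  intro h
  have hT0 : T0Space X0 := inferInstance
  have key := h X0 hT0 inferInstance
    (fun 𝒦 hne h𝒦 hdir U hU hsub => wf 𝒦 hne h𝒦 hdir U hU hsub)
    {L | ∀ j, ¬ B j ⊆ L.1}
  have hopen := key.2 ⟨?_, ?_⟩
  · -- the family is not open in the upper Vietoris topology
    have hbox := box_of_open (fun K : {K : Set X0 // K.Nonempty ∧ IsCompact K ∧
      ⋂₀ {U : Set X0 | IsOpen U ∧ K ⊆ U} ⊆ K} => K.1) inferInstance _ hopen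
      ⟨Kinf, ⟨pt (fun _ => true) none, ⟨_, rfl⟩⟩, isCompact_Kinf, saturated _⟩
      (by
        intro j hj
        obtain ⟨z, hz⟩ := hj ⟨fun _ => true, rfl⟩
        exact absurd (congrArg ht hz) (by simp))
    obtain ⟨U, hU, hKU, hUL⟩ := hbox
    rw [isOpen_iff] at hU
    have h1 : ∀ y : K0, ∃ V : Set K0, IsOpen V ∧ y ∈ V ∧ ∃ T : Finset I0, ∀ z ∈ V,
        pt z none ∈ U ∧ ∀ j, j ∉ T → ¬ (z = y ∧ j ∈ A y) → pt z (some j) ∈ U :=
      fun y => hU.2 y (hKU ⟨y, rfl⟩)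
    choose V hV hyV T hT using h1
    obtain ⟨F, hF⟩ := isCompact_univ.elim_finite_subcover V hV
      (fun y _ => Set.mem_iUnion.2 ⟨y, hyV y⟩)
    classical
    obtain ⟨j, hjT, hjA⟩ := notcover F (F.biUnion T)
    have hB : B j ⊆ U := by
      rintro _ ⟨z, rfl⟩
      obtain ⟨y, hy, hzy⟩ := Set.mem_iUnion₂.1 (hF (Set.mem_univ z))
      refine (hT y z hzy).2 j (fun hj => hjT (Finset.mem_biUnion.2 ⟨y, hy, hj⟩)) ?_
      rintro ⟨rfl, hj⟩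
      exact hjA _ hy hj
    exact hUL ⟨B j, ⟨_, ⟨fun _ => true, rfl⟩⟩, isCompact_B j, saturated _⟩ hB j subset_rfl
  · intro K hK L hLK j hj
    exact hK j (hj.trans hLK)
  · intro 𝒟 hne hdir L hL hLmax hLS
    by_contra hcon
    have hall : ∀ K ∈ 𝒟, ∃ j, B j ⊆ K.1 := by
      intro K hK
      by_contra h'
      exact hcon ⟨K, hK, fun j hj => h' ⟨j, hj⟩⟩
    obtain ⟨K₀, hK₀⟩ := hne
    have hfin : {j | B j ⊆ K₀.1}.Finite := finite_B K₀.1 K₀.2.2.1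
    have hex : ∃ j, ∀ K ∈ 𝒟, B j ⊆ K.1 := by
      by_contra h'
      have h2 : ∀ j, ∃ K ∈ 𝒟, ¬ B j ⊆ K.1 := by
        intro j
        by_contra h3
        exact h' ⟨j, fun K hK => by_contra fun h4 => h3 ⟨K, hK, h4⟩⟩
      have h3 : ∀ s : Set I0, s.Finite → ∃ K ∈ 𝒟, K.1 ⊆ K₀.1 ∧ ∀ j ∈ s, ¬ B j ⊆ K.1 := by
        intro s hs
        induction s, hs using Set.Finite.induction_on with
        | empty => exact ⟨K₀, hK₀, subset_rfl, fun j hj => absurd hj (Set.notMem_empty j)⟩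
        | @insert a s _ _ ih =>
          obtain ⟨K, hK, hKK₀, hKs⟩ := ih
          obtain ⟨K', hK', hK's⟩ := h2 a
          obtain ⟨K'', hK'', h5, h6⟩ := hdir K hK K' hK'
          refine ⟨K'', hK'', h5.trans hKK₀, ?_⟩
          intro j hj
          rcases Set.mem_insert_iff.1 hj with rfl | hj
          · exact fun h7 => hK's (h7.trans h6)
          · exact fun h7 => hKs j hj (h7.trans h5)
      obtain ⟨K, hK, hKK₀, hKs⟩ := h3 _ hfin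
      obtain ⟨j, hj⟩ := hall K hK
      exact hKs j (hj.trans hKK₀) hj
    obtain ⟨j, hj⟩ := hex
    exact hLS j (hLmax ⟨B j, ⟨_, ⟨fun _ => true, rfl⟩⟩, isCompact_B j, saturated _⟩ hj)

end Pool.Agent.S09084
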