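import Pool.Statements.S09089
import Pool.Agent.Helper811.Embed

set_option autoImplicit false
open Pool Pool.MP_e33218_gt

namespace Pool.Agent.S09089

/-- Every compact linearly ordered space that is a continuous image of a Valdivia compactum is the image of a linearly ordered Valdivia compactum under a continuous, surjective, order-preserving map. -/
theorem result :
  ∀ (K : Type) [LinearOrder K] [TopologicalSpace K] [OrderTopology K] [CompactSpace K],
    (∃ (V : Type) (_ : TopologicalSpace V) (_ : CompactSpace V),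
      (∃ (Γ : Type) (h : V → (Γ → ℝ)), Topology.IsEmbedding h ∧
        Dense (h ⁻¹' {x | {γ | x γ ≠ 0}.Countable})) ∧
      ∃ f : V → K, Continuous f ∧ Function.Surjective f) →
    ∃ (L : Type) (_ : LinearOrder L) (_ : TopologicalSpace L) (_ : OrderTopology L)
      (_ : CompactSpace L),
      (∃ (Γ : Type) (h : L → (Γ → ℝ)), Topology.IsEmbedding h ∧
        Dense (h ⁻¹' {x | {γ | x γ ≠ 0}.Countable})) ∧
      ∃ g : L → K, Continuous g ∧ Function.Surjective g ∧ Monotone g := by
  classical
  intro K _ _ _ _ hK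
  rcases isEmpty_or_nonempty K with hE | hE
  · refine ⟨K, inferInstance, inferInstance, inferInstance, inferInstance,
      ⟨Empty, fun k => (hE.false k).elim, ?_, fun k => (hE.false k).elim⟩,
      id, continuous_id, Function.surjective_id, monotone_id⟩
    exact Topology.IsEmbedding.of_subsingleton _
  obtain ⟨V, topV, compV, ⟨Γ, h, hemb, hdense⟩, f, hf, hfs⟩ := hK
  obtain ⟨k0⟩ := hE
  -- the compact set
  have hL0 : IsCompact (Set.range h) := isCompact_range hemb.continuous
  have hd0 : Set.range h ⊆ closure (Set.range h ∩ Helper811.Sg Γ) := by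
    rintro _ ⟨v, rfl⟩
    have h1 : h v ∈ closure (h '' (h ⁻¹' {x | {γ | x γ ≠ 0}.Countable})) :=
      image_closure_subset_closure_image hemb.continuous ⟨v, hdense v, rfl⟩
    refine closure_mono ?_ h1
    rintro _ ⟨w, hw, rfl⟩
    exact ⟨Set.mem_range_self w, hw⟩
  let f0 : (Γ → ℝ) → K := Function.extend h f (fun _ => k0)
  have hf0 : ∀ v, f0 (h v) = f v := fun v => hemb.injective.extend_apply f _ v
  have hf0c : ContinuousOn f0 (Set.range h) := by
    rw [continuousOn_iff_continuous_domRestrict]
    have h1 : (Set.range h).domRestrict f0 = f ∘ hemb.toHomeomorph.symm := by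
      funext x
      obtain ⟨v, hv⟩ := hemb.toHomeomorph.surjective x
      rw [← hv]
      show f0 (hemb.toHomeomorph v).1 = f (hemb.toHomeomorph.symm (hemb.toHomeomorph v))
      rw [Homeomorph.symm_apply_apply]
      exact hf0 v
    rw [h1]
    exact hf.comp hemb.toHomeomorph.symm.continuous
  have hf0s : ∀ k, ∃ x ∈ Set.range h, f0 x = k := by
    intro k
    obtain ⟨v, hv⟩ := hfs k
    exact ⟨h v, Set.mem_range_self v, by rw [hf0, hv]⟩
  -- reduction of the number of coordinates
  obtain ⟨J, hJc, hJ⟩ := Helper811.exists_small_coordinates hL0 hd0 hf0c hf0s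
  let V1 : Set (Γ → ℝ) := Set.range h ∩ {v | Function.support v ⊆ J}
  have hV1 : IsCompact V1 := by
    refine hL0.inter_right ?_
    have : {v : Γ → ℝ | Function.support v ⊆ J} = ⋂ γ ∈ Jᶜ, {v : Γ → ℝ | v γ = 0} := by
      ext v
      simp only [Set.mem_ofPred_eq, Set.mem_iInter]
      constructor
      · intro h γ hγ
        by_contra hne
        exact hγ (h hne)
      · intro h γ hγ
        by_contra hne
        exact hγ (h γ hne)
    rw [this]
    exact isClosed_biInter fun γ _ => isClosed_eq (continuous_apply γ) continuous_const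
  have hd1 : V1 ⊆ closure (V1 ∩ Helper811.Sg Γ) := by
    rintro x ⟨hx, hxJ⟩
    have h1 : Helper811.res J x ∈ closure (Helper811.res J '' (Set.range h ∩ Helper811.Sg Γ)) :=
      image_closure_subset_closure_image (Helper811.continuous_res J) ⟨x, hd0 hx, rfl⟩
    rw [Helper811.res_eq_self hxJ] at h1
    refine closure_mono ?_ h1
    rintro _ ⟨a, ha, rfl⟩
    refine ⟨⟨(hJ a ha.1).1, Helper811.support_res_subset J a⟩, ?_⟩
    refine Set.Countable.mono ?_ ha.2
    intro γ hγ h0
    apply hγ
    by_cases hγJ : γ ∈ J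
    · rw [Helper811.res_of_mem hγJ, h0]
    · rw [Helper811.res_of_notMem hγJ]
  have hs1 : ∀ k, ∃ x ∈ V1, f0 x = k := by
    intro k
    obtain ⟨x, hx, hxk⟩ := hf0s k
    exact ⟨Helper811.res J x, ⟨(hJ x hx).1, Helper811.support_res_subset J x⟩,
      by rw [(hJ x hx).2, hxk]⟩
  -- splitting
  have : Nonempty K := ⟨k0⟩
  obtain ⟨L, i1, i2, i3, i4, F, g, hF, hFs, hgc, hgs, hgm, hM⟩ :=
    Helper811.exists_split hV1 (hf0c.mono Set.inter_subset_left) hs1
  refine ⟨L, i1, i2, i3, i4, ?_, g, hgc, hgs, hgm⟩
  exact Helper811.exists_valdivia_embedding hV1 hd1 J hJc (fun x hx => hx.2) hF hFs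
    (Helper811.isClosed_Ioi_of_LU hV1 hd1 hF hFs hM)
    (Helper811.isClosed_Iio_of_RU hV1 hd1 hF hFs hM)

end Pool.Agent.S09089
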