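import Pool.Statements.S09099
import Pool.Agent.Helper747.PLF

set_option autoImplicit false
open Pool Pool.MP_e5a18e_gt

namespace Pool.Agent.S09099

/-- There is a completely regular Lindelöf topological space X whose square X × X, with the product topology, is paracompact but not Lindelöf. -/
theorem result :
    ∃ (X : Type) (_ : TopologicalSpace X),
      CompletelyRegularSpace X ∧ LindelofSpace X ∧
        ParacompactSpace (X × X) ∧ ¬ LindelofSpace (X × X) := by
  obtain ⟨P, t, h1, h2, h3, h4, h5, _⟩ :=
    Pool.Agent.Helper747.PL.exists_space 2 0 (by norm_num) (Or.inl rfl)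
  have e1 : (Fin 1 → P) ≃ₜ P := Homeomorph.funUnique (Fin 1) P
  have e2 : (Fin 2 → P) ≃ₜ P × P := Homeomorph.finTwoArrow
  have hp1 : ParacompactSpace P := Pool.Agent.Helper747.PL.up_one (h3 1 (Or.inl rfl))
  have hl1 : LindelofSpace (Fin 1 → P) := h4 1 (Or.inl rfl) (by norm_num)
  have hp2 : ParacompactSpace (Fin 2 → P) := h3 2 (Or.inl rfl)
  refine ⟨P, t, inferInstance, ⟨?_⟩, ?_, ?_⟩
  · have h := (isLindelof_univ (X := Fin 1 → P)).image e1.continuous
    rwa [Set.image_univ, e1.surjective.range_eq] at h
  · exact e2.symm.isClosedEmbedding.paracompactSpace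
  · intro hL
    apply h5 2 le_rfl
    refine ⟨?_⟩
    have h := (isLindelof_univ (X := P × P)).image e2.symm.continuous
    rwa [Set.image_univ, e2.symm.surjective.range_eq] at h

end Pool.Agent.S09099
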