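import Pool.Statements.S09102
import Pool.Agent.Helper27.SqSquare

set_option autoImplicit false
open Pool Pool.MP_e5cb06_gt

namespace Pool.Agent.S09102

/-- The negation of the preceding statement: For every nonempty Tychonoff space Y, if Cp(Y⊕Y) is linearly homeomorphic to Cp(Y) (pointwise topology), then Cp(Y)×R is linearly homeomorphic to Cp(Y). -/
theorem result :
    ¬ (∀ (Y : Type) [TopologicalSpace Y] [T35Space Y] [Nonempty Y],
    (∃ (T : (Y ⊕ Y → ℝ) → (Y → ℝ)) (S : (Y → ℝ) → (Y ⊕ Y → ℝ)),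
      (∀ f : Y ⊕ Y → ℝ, Continuous f → Continuous (T f)) ∧
      (∀ g : Y → ℝ, Continuous g → Continuous (S g)) ∧
      (∀ f : Y ⊕ Y → ℝ, Continuous f → S (T f) = f) ∧
      (∀ g : Y → ℝ, Continuous g → T (S g) = g) ∧
      (∀ (a : ℝ) (f₁ f₂ : Y ⊕ Y → ℝ), Continuous f₁ → Continuous f₂ →
        T (a • f₁ + f₂) = a • T f₁ + T f₂) ∧
      ContinuousOn T {f : Y ⊕ Y → ℝ | Continuous f} ∧
      ContinuousOn S {g : Y → ℝ | Continuous g}) →
    ∃ (T : (Y → ℝ) × ℝ → (Y → ℝ)) (S : (Y → ℝ) → (Y → ℝ) × ℝ),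
      (∀ p : (Y → ℝ) × ℝ, Continuous p.1 → Continuous (T p)) ∧
      (∀ g : Y → ℝ, Continuous g → Continuous (S g).1) ∧
      (∀ p : (Y → ℝ) × ℝ, Continuous p.1 → S (T p) = p) ∧
      (∀ g : Y → ℝ, Continuous g → T (S g) = g) ∧
      (∀ (a : ℝ) (p q : (Y → ℝ) × ℝ), Continuous p.1 → Continuous q.1 →
        T (a • p + q) = a • T p + T q) ∧
      ContinuousOn T {p : (Y → ℝ) × ℝ | Continuous p.1} ∧
      ContinuousOn S {g : Y → ℝ | Continuous g}) := by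
  classical
  intro hmain
  obtain ⟨X, Y, h⟩ := Pool.Agent.Helper27.Sq.exists_good
  have hne : Nonempty Y := by
    obtain ⟨x, hx⟩ := h.neX
    exact ⟨⟨x, h.sub hx⟩⟩
  obtain ⟨T, S, h1, h2, h3, h4, h5, h6, h7⟩ := hmain Y (Pool.Agent.Helper27.Sq.square h)
  exact Pool.Agent.Helper27.Sq.no_iso h T S h1 h2 h3 h4 h5 h6 h7

end Pool.Agent.S09102
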