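import Pool.Statements.S09113
import Pool.Agent.Helper300.JonesT

set_option autoImplicit false
open Pool Pool.MP_e81b80_gt

namespace Pool.Agent.S09113

/-- For a Hausdorff continuum S, if Jones's function T is continuous on nonempty closed sets (Vietoris topology), then the sets T({p}) partition S into a continuous decomposition whose quotient space is locally connected. -/
theorem result :
    ∀ (S : Type) [TopologicalSpace S] [CompactSpace S] [ConnectedSpace S] [T2Space S]
      (T : Set S → Set S) (V : TopologicalSpace (Set S)),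
      (∀ A : Set S, T A = {x : S | ∀ W : Set S, IsClosed W → IsConnected W →
          x ∈ interior W → (W ∩ A).Nonempty}) →
      V = TopologicalSpace.generateFrom
          ({𝒰 : Set (Set S) | ∃ U : Set S, IsOpen U ∧ 𝒰 = {A : Set S | A ⊆ U}} ∪
           {𝒰 : Set (Set S) | ∃ U : Set S, IsOpen U ∧ 𝒰 = {A : Set S | (A ∩ U).Nonempty}}) →
      @Continuous {A : Set S // IsClosed A ∧ A.Nonempty} (Set S)
          (TopologicalSpace.induced Subtype.val V) V (fun A => T A.1) →
      (∀ p q : S, T {p} = T {q} ∨ Disjoint (T {p}) (T {q})) ∧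
      @Continuous S (Set S) _ V (fun p => T {p}) ∧
      ∀ r : S → S → Prop, (∀ p q : S, r p q ↔ T {p} = T {q}) →
        LocallyConnectedSpace (Quot r) := by
  intro S _ _ _ _ T V hT hV hcont
  have hTeq : T = Pool.Agent.Helper300.JonesT.T := by
    funext C
    rw [hT C]
    ext p
    constructor
    · intro h W h1 h2 h3
      exact h W h1 h2 (mem_interior_iff_mem_nhds.2 h3)
    · intro h W h1 h2 h3
      exact h W h1 h2 (mem_interior_iff_mem_nhds.1 h3)
  subst hTeq
  rw [← Pool.Agent.Helper300.JonesT.vietoris_eq] at hV
  subst hV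
  have hon : @ContinuousOn (Set S) (Set S) (TopologicalSpace.vietoris S)
      (TopologicalSpace.vietoris S) Pool.Agent.Helper300.JonesT.T
      {A : Set S | IsClosed A ∧ A.Nonempty} := by
    let _ : TopologicalSpace (Set S) := TopologicalSpace.vietoris S
    rw [continuousOn_iff_continuous_domRestrict]
    exact hcont
  have h := Pool.Agent.Helper300.JonesT.LSC_of_continuousOn hon
  refine ⟨?_, ?_, ?_⟩
  · intro p q
    by_cases hd : Disjoint (Pool.Agent.Helper300.JonesT.T {p}) (Pool.Agent.Helper300.JonesT.T {q})
    · exact Or.inr hd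
    · left
      obtain ⟨x, hx1, hx2⟩ := Set.not_disjoint_iff.1 hd
      rw [← Pool.Agent.Helper300.JonesT.T_eq_of_mem h hx1,
        ← Pool.Agent.Helper300.JonesT.T_eq_of_mem h hx2]
  · let _ : TopologicalSpace (Set S) := TopologicalSpace.vietoris S
    have h1 : Continuous (fun p : S => ({p} : Set S)) := TopologicalSpace.vietoris.continuous_singleton
    exact hon.comp_continuous h1 (fun p => ⟨isClosed_singleton, Set.singleton_nonempty p⟩)
  · intro r hr
    have hq : ∀ p q : S, Quot.mk r p = Quot.mk r q ↔
        Pool.Agent.Helper300.JonesT.T {p} = Pool.Agent.Helper300.JonesT.T {q} := by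
      intro p q
      constructor
      · intro he
        have := Quot.eqvGen_exact he
        clear he
        induction this with
        | rel x y hxy => exact (hr x y).1 hxy
        | refl x => rfl
        | symm x y _ ih => exact ih.symm
        | trans x y z _ _ ih1 ih2 => exact ih1.trans ih2
      · intro he
        exact Quot.sound ((hr p q).2 he)
    rw [locallyConnectedSpace_iff_connected_subsets]
    intro y U hU
    obtain ⟨p, rfl⟩ := Quot.exists_rep y
    obtain ⟨O, hOU, hO, hpO⟩ := mem_nhds_iff.1 hU
    have hcq : Continuous (Quot.mk r) := continuous_quot_mk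
    have hO' : IsOpen (Quot.mk r ⁻¹' O) := hO.preimage hcq
    have hpO' : Pool.Agent.Helper300.JonesT.T {p} ⊆ Quot.mk r ⁻¹' O := by
      intro x hx
      have : Quot.mk r x = Quot.mk r p :=
        (hq x p).2 (Pool.Agent.Helper300.JonesT.T_eq_of_mem h hx)
      show Quot.mk r x ∈ O
      rw [this]
      exact hpO
    obtain ⟨K, hK1, hK2, hK3, hK4⟩ :=
      Pool.Agent.Helper300.JonesT.exists_small_continuum h hO' hpO'
    refine ⟨Quot.mk r '' K, ?_, ?_, ?_⟩
    · rw [mem_nhds_iff]
      refine ⟨Quot.mk r '' interior K, Set.image_mono interior_subset, ?_,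
        ⟨p, mem_interior_iff_mem_nhds.2 hK3, rfl⟩⟩
      rw [← isQuotientMap_quot_mk.isOpen_preimage]
      have : Quot.mk r ⁻¹' (Quot.mk r '' interior K) =
          {x : S | (Pool.Agent.Helper300.JonesT.T {x} ∩ interior K).Nonempty} := by
        ext x
        constructor
        · rintro ⟨z, hz, hzx⟩
          refine ⟨z, ?_, hz⟩
          rw [← (hq z x).1 hzx]
          exact Pool.Agent.Helper300.JonesT.self_mem_T z
        · rintro ⟨z, hz1, hz2⟩
          exact ⟨z, hz2, (hq z x).2 (Pool.Agent.Helper300.JonesT.T_eq_of_mem h hz1)⟩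
      rw [this]
      exact Pool.Agent.Helper300.JonesT.isOpen_T_inter h isOpen_interior
    · exact hK2.isPreconnected.image _ hcq.continuousOn
    · rintro _ ⟨x, hx, rfl⟩
      exact hOU (hK4 hx)

end Pool.Agent.S09113
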