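import Pool.Statements.S09116
import Pool.Agent.Helper300.FanCover

set_option autoImplicit false
open Pool Pool.MP_ea0cba_gt

namespace Pool.Agent.S09116

/-- The negation of the preceding statement: If f is a local homeomorphism from a metric continuum X onto a metric space Y, and any two points of X lie in a hereditarily decomposable subcontinuum irreducible between them, then the same holds for any two points of Y. -/
theorem result :
    ¬ (∀ (X Y : Type) [MetricSpace X] [MetricSpace Y] [CompactSpace X] [ConnectedSpace X]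
      (f : X → Y), IsLocalHomeomorph f → Function.Surjective f →
      (∀ x y : X, ∃ K : Set X, IsCompact K ∧ IsConnected K ∧ x ∈ K ∧ y ∈ K ∧
        (∀ L : Set X, L ⊆ K → IsCompact L → IsConnected L → x ∈ L → y ∈ L → L = K) ∧
        (∀ M : Set X, M ⊆ K → IsCompact M → IsConnected M → M.Nontrivial →
          ∃ A B : Set X, A ⊆ M ∧ B ⊆ M ∧ A ≠ M ∧ B ≠ M ∧ IsCompact A ∧ IsConnected A ∧
            IsCompact B ∧ IsConnected B ∧ A ∪ B = M)) →
      (∀ x y : Y, ∃ K : Set Y, IsCompact K ∧ IsConnected K ∧ x ∈ K ∧ y ∈ K ∧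
        (∀ L : Set Y, L ⊆ K → IsCompact L → IsConnected L → x ∈ L → y ∈ L → L = K) ∧
        (∀ M : Set Y, M ⊆ K → IsCompact M → IsConnected M → M.Nontrivial →
          ∃ A B : Set Y, A ⊆ M ∧ B ⊆ M ∧ A ≠ M ∧ B ≠ M ∧ IsCompact A ∧ IsConnected A ∧
            IsCompact B ∧ IsConnected B ∧ A ∪ B = M))) := by
  intro H
  have hm1 : TopologicalSpace.MetrizableSpace (ℕ → ℂ) := inferInstance
  have h := @H Pool.Agent.Helper300.FanCover.XS Pool.Agent.Helper300.FanCover.YS
    (TopologicalSpace.metrizableSpaceMetric _) (TopologicalSpace.metrizableSpaceMetric _)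
    (inferInstanceAs (CompactSpace Pool.Agent.Helper300.FanCover.XS))
    (inferInstanceAs (ConnectedSpace Pool.Agent.Helper300.FanCover.XS))
    Pool.Agent.Helper300.FanCover.fm Pool.Agent.Helper300.FanCover.isLocalHomeomorph_fm
    Pool.Agent.Helper300.FanCover.surjective_fm Pool.Agent.Helper300.FanCover.delta_X
  obtain ⟨K, h1, h2, h3, h4, _, h5⟩ := h _ _
  exact Pool.Agent.Helper300.FanCover.not_delta_Y ⟨K, h1, h2, h3, h4, h5⟩

end Pool.Agent.S09116
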