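import Pool.Statements.S09117
import Pool.Agent.Helper811.Count

set_option autoImplicit false
open Topology
open Pool Pool.MP_eb6644_gt

namespace Pool.Agent.S09117

/-- For every compact linearly ordered space that is a continuous image of a Valdivia compactum, the set of points with no countable neighbourhood base has cardinality at most aleph-one. -/
theorem result :
    ∀ (K : Type) [LinearOrder K] [TopologicalSpace K] [OrderTopology K] [CompactSpace K],
      (∃ (Γ : Type) (L : Set (Γ → ℝ)),
          IsCompact L ∧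
          L ⊆ closure (L ∩ {x : Γ → ℝ | (Function.support x).Countable}) ∧
          ∃ f : L → K, Continuous f ∧ Function.Surjective f) →
      Cardinal.mk {x : K | ¬ (𝓝 x).IsCountablyGenerated} ≤ Cardinal.aleph 1 := by
  classical
  intro K _ _ _ _ hK
  obtain ⟨Γ, L, hL, hd, f, hf, hs⟩ := hK
  rcases isEmpty_or_nonempty K with hE | hE
  · have h0 : Cardinal.mk {x : K | ¬ (𝓝 x).IsCountablyGenerated} = 0 := by
      rw [Cardinal.mk_eq_zero_iff]
      exact ⟨fun x => hE.false x.1⟩
    rw [h0]
    exact bot_le
  obtain ⟨k0⟩ := hE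
  let g : (Γ → ℝ) → K := Function.extend Subtype.val f (fun _ => k0)
  have hg : ∀ x : L, g x.1 = f x := fun x => Subtype.val_injective.extend_apply f _ x
  have hgc : ContinuousOn g L := by
    rw [continuousOn_iff_continuous_domRestrict]
    have : L.domRestrict g = f := by
      funext x
      exact hg x
    rw [this]
    exact hf
  have hgs : ∀ k, ∃ x ∈ L, g x = k := by
    intro k
    obtain ⟨x, hx⟩ := hs k
    exact ⟨x.1, x.2, by rw [hg, hx]⟩
  have hsub : {x : K | ¬ (𝓝 x).IsCountablyGenerated} ⊆
      {k : K | ∀ Y : Set K, Y ⊆ Set.Iio k → Y.Countable → ∃ y < k, ∀ y' ∈ Y, y' < y} ∪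
      {k : K | ∀ Y : Set K, Y ⊆ Set.Ioi k → Y.Countable → ∃ y, k < y ∧ ∀ y' ∈ Y, y < y'} := by
    intro k hk
    by_contra hcon
    exact hk (Helper811.isCountablyGenerated_of_sides k (fun h => hcon (Or.inl h))
      (fun h => hcon (Or.inr h)))
  refine (Cardinal.mk_le_mk_of_subset hsub).trans ?_
  exact Helper811.mk_union_le' Cardinal.aleph0_lt_aleph_one.le _ _
    (Helper811.mk_left_le hL hd hgc hgs) (Helper811.mk_right_le hL hd hgc hgs)

end Pool.Agent.S09117
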