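import Pool.Statements.S09128

set_option autoImplicit false
open Topology Pointwise
open Pool Pool.MP_ede847_gt

namespace Pool.Agent.S09128

/-- A well-ordered type of order type ω₁. -/
abbrev W : Type := (Cardinal.aleph.{0} 1).ord.ToType

/-- The linear order ω₁ ×ₗ ℚ. -/
abbrev L : Type := W ×ₗ ℚ

theorem countable_Iio_W (a : W) : (Set.Iio a).Countable := by
  have h : Cardinal.mk (Set.Iio a) < Cardinal.mk W := Cardinal.mk_Iio_lt a (by simp)
  rw [Cardinal.mk_toType, Cardinal.card_ord] at h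
  rw [← Set.countable_coe_iff, ← Cardinal.mk_le_aleph0_iff]
  exact Order.lt_succ_iff.mp (h.trans_eq Cardinal.succ_aleph0.symm)

theorem not_countable_W : ¬ (Set.univ : Set W).Countable := by
  intro h
  have h1 : Cardinal.mk W ≤ Cardinal.aleph0 := by
    rw [Cardinal.mk_le_aleph0_iff]
    exact Set.countable_univ_iff.mp h
  rw [Cardinal.mk_toType, Cardinal.card_ord, ← Cardinal.succ_aleph0] at h1
  exact absurd h1 (not_le.mpr (Order.lt_succ _))

theorem exists_bound_W (F : Set W) (hF : F.Countable) : ∃ b : W, ∀ a ∈ F, a < b := by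
  by_contra hcon
  push Not at hcon
  apply not_countable_W
  have : (⋃ a ∈ F, Set.Iic a).Countable := by
    refine hF.biUnion fun a _ => ?_
    have : Set.Iic a = Set.Iio a ∪ {a} := by
      ext x; simp [le_iff_lt_or_eq]
    rw [this]
    exact (countable_Iio_W a).union (Set.countable_singleton a)
  refine this.mono fun b _ => ?_
  obtain ⟨a, ha, hab⟩ := hcon b
  exact Set.mem_biUnion ha hab

theorem countable_Iio_L (w : L) : (Set.Iio w).Countable := by
  have h : ((Set.Iio (ofLex w).1 ∪ {(ofLex w).1}) ×ˢ (Set.univ : Set ℚ)).Countable :=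
    ((countable_Iio_W _).union (Set.countable_singleton _)).prod Set.countable_univ
  have h2 := h.image (toLex : W × ℚ → L)
  refine h2.mono ?_
  intro z hz
  refine ⟨ofLex z, ?_, rfl⟩
  rw [Set.mem_Iio, Prod.Lex.lt_iff] at hz
  simp only [Set.mem_prod, Set.mem_univ, and_true, Set.mem_union, Set.mem_Iio, Set.mem_singleton_iff]
  rcases hz with hz | hz
  · exact Or.inl hz
  · exact Or.inr hz.1

theorem exists_bound_L (F : Set L) (hF : F.Countable) : ∃ b : L, ∀ a ∈ F, a < b := by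
  obtain ⟨b, hb⟩ := exists_bound_W ((fun z : L => (ofLex z).1) '' F) (hF.image _)
  refine ⟨toLex (b, 0), fun a ha => ?_⟩
  rw [Prod.Lex.lt_iff]
  exact Or.inl (hb _ ⟨a, ha, rfl⟩)

instance : Nonempty W := by
  by_contra h
  rw [not_nonempty_iff] at h
  exact not_countable_W (Set.countable_univ)

instance : NoMinOrder L := ⟨fun a => by
  refine ⟨toLex ((ofLex a).1, (ofLex a).2 - 1), ?_⟩
  rw [Prod.Lex.lt_iff]
  right
  exact ⟨rfl, by simp⟩⟩

/-- Automorphisms of L act transitively. -/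
theorem exists_aut (x y : L) : ∃ g : L ≃o L, g x = y := by
  obtain ⟨w, hw⟩ := exists_bound_L {x, y} (by simp)
  have hx : x < w := hw x (by simp)
  have hy : y < w := hw y (by simp)
  have : Countable (Set.Iio w) := (countable_Iio_L w)
  have : Nonempty (Set.Iio w) := ⟨⟨x, hx⟩⟩
  obtain ⟨e⟩ := Order.iso_of_countable_dense (Set.Iio w) ℚ
  let τ : ℚ ≃o ℚ := OrderIso.addRight (e ⟨y, hy⟩ - e ⟨x, hx⟩)
  let σ : Set.Iio w ≃o Set.Iio w := e.trans (τ.trans e.symm)
  have hσ : σ ⟨x, hx⟩ = ⟨y, hy⟩ := by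
    simp [σ, τ]
  refine ⟨(OrderIso.sumLexIioIci w).symm.trans
    ((OrderIso.sumLexCongr σ (OrderIso.refl _)).trans (OrderIso.sumLexIioIci w)), ?_⟩
  simp [OrderIso.sumLexIioIci_symm_apply_of_lt hx, hσ]

abbrev G : Type := L ≃o L

instance topG : TopologicalSpace G where
  IsOpen U := ∀ g ∈ U, ∃ s : Finset L, ∀ h : G, (∀ x ∈ s, h x ≤ g x) → h ∈ U
  isOpen_univ := fun g _ => ⟨∅, fun h _ => trivial⟩
  isOpen_inter := by
    classical
    intro U V hU hV g hg
    obtain ⟨s, hs⟩ := hU g hg.1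
    obtain ⟨t, ht⟩ := hV g hg.2
    exact ⟨s ∪ t, fun h hh => ⟨hs h fun x hx => hh x (Finset.mem_union_left _ hx),
      ht h fun x hx => hh x (Finset.mem_union_right _ hx)⟩⟩
  isOpen_sUnion := by
    intro S hS g hg
    obtain ⟨U, hU, hgU⟩ := hg
    obtain ⟨s, hs⟩ := hS U hU g hgU
    exact ⟨s, fun h hh => ⟨U, hU, hs h hh⟩⟩

theorem mem_nhds_G (g : G) (U : Set G) :
    U ∈ 𝓝 g ↔ ∃ s : Finset L, ∀ h : G, (∀ x ∈ s, h x ≤ g x) → h ∈ U := by
  rw [mem_nhds_iff]
  constructor
  · rintro ⟨V, hVU, hV, hg⟩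
    obtain ⟨s, hs⟩ := hV g hg
    exact ⟨s, fun h hh => hVU (hs h hh)⟩
  · rintro ⟨s, hs⟩
    refine ⟨{h | ∀ x ∈ s, h x ≤ g x}, fun h hh => hs h hh, ?_, fun x _ => le_rfl⟩
    intro h hh
    exact ⟨s, fun k hk x hx => (hk x hx).trans (hh x hx)⟩

instance : ContinuousMul G where
  continuous_mul := by
    classical
    rw [continuous_iff_continuousAt]
    rintro ⟨g, h⟩
    intro U hU
    rw [mem_nhds_G] at hU
    obtain ⟨s, hs⟩ := hU
    rw [Filter.mem_map, nhds_prod_eq, Filter.mem_prod_iff]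
    refine ⟨{g' | ∀ x ∈ s.image h, g' x ≤ g x}, (mem_nhds_G _ _).2 ⟨s.image h, fun k hk => hk⟩,
      {h' | ∀ x ∈ s, h' x ≤ h x}, (mem_nhds_G _ _).2 ⟨s, fun k hk => hk⟩, ?_⟩
    rintro ⟨g', h'⟩ ⟨hg', hh'⟩
    refine hs _ fun x hx => ?_
    have h1 : g' (h' x) ≤ g' (h x) := g'.monotone (hh' x hx)
    have h2 : g' (h x) ≤ g (h x) := hg' _ (Finset.mem_image_of_mem _ hx)
    exact h1.trans h2

theorem right_bounded (U : Set G) (hU : U ∈ 𝓝 (1 : G)) :
    ∃ F : Set G, F.Countable ∧ U * F = Set.univ := by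
  classical
  rw [mem_nhds_G] at hU
  obtain ⟨s, hs⟩ := hU
  rcases s.eq_empty_or_nonempty with rfl | hne
  · refine ⟨{1}, Set.countable_singleton _, ?_⟩
    have : U = Set.univ := Set.eq_univ_of_forall fun g => hs g (by simp)
    simp [this]
  · set a := s.min' hne with ha
    set b := s.max' hne with hb
    choose f hf using fun d : L => exists_aut d b
    refine ⟨f '' Set.Iio a, (countable_Iio_L a).image _, ?_⟩
    refine Set.eq_univ_of_forall fun g => ?_
    -- choose d < a, d ≤ g⁻¹ a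
    obtain ⟨d, hd⟩ := exists_lt (min a (g⁻¹ a))
    have hd1 : d < a := hd.trans_le (min_le_left _ _)
    have hd2 : d ≤ g⁻¹ a := (hd.trans_le (min_le_right _ _)).le
    refine Set.mem_mul.2 ⟨g * (f d)⁻¹, hs _ fun x hx => ?_, f d, ⟨d, hd1, rfl⟩, by simp⟩
    have h1 : (f d)⁻¹ x ≤ d := by
      have : (f d)⁻¹ x ≤ (f d)⁻¹ b := (f d)⁻¹.monotone (Finset.le_max' _ _ hx)
      refine this.trans (le_of_eq ?_)
      rw [← hf d]
      exact (f d).symm_apply_apply d
    have h2 : g ((f d)⁻¹ x) ≤ g (g⁻¹ a) := g.monotone (h1.trans hd2)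
    have h3 : g (g⁻¹ a) = a := g.apply_symm_apply a
    rw [h3] at h2
    exact h2.trans (Finset.min'_le _ _ hx)

theorem not_left_bounded :
    ¬ (∀ U ∈ 𝓝 (1 : G), ∃ F : Set G, F.Countable ∧ F * U = Set.univ) := by
  intro h
  obtain ⟨x0⟩ : Nonempty L := inferInstance
  obtain ⟨F, hF, hFU⟩ := h {g | g x0 ≤ x0} ((mem_nhds_G _ _).2 ⟨{x0}, by simp⟩)
  obtain ⟨y, hy⟩ := exists_bound_L ((fun f : G => f x0) '' F) (hF.image _)
  obtain ⟨g, hg⟩ := exists_aut x0 y
  have : g ∈ F * {g : G | g x0 ≤ x0} := by rw [hFU]; trivial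
  obtain ⟨f, hf, v, hv, hfv⟩ := Set.mem_mul.1 this
  have h1 : g x0 ≤ f x0 := by
    rw [← hfv]
    exact f.monotone hv
  have h2 := hy (f x0) ⟨f, hf, rfl⟩
  rw [hg] at h1
  exact absurd h2 (not_lt.mpr h1)

/-- The negation of the preceding statement: In every group with a topology making multiplication continuous, if each neighbourhood U of the identity admits a countable F with U·F = G, then each such U also admits a countable F with F·U = G. -/
theorem result :
    ¬ (∀ (G : Type) [Group G] [TopologicalSpace G] [ContinuousMul G],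
      (∀ U ∈ 𝓝 (1 : G), ∃ F : Set G, F.Countable ∧ U * F = Set.univ) →
      (∀ U ∈ 𝓝 (1 : G), ∃ F : Set G, F.Countable ∧ F * U = Set.univ)) := by
  intro h
  exact not_left_bounded (h G right_bounded)

end Pool.Agent.S09128
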