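import Pool.Statements.S09145
import Pool.Agent.Helper614.SC

set_option autoImplicit false
open Pool Pool.MP_f34352_gt

namespace Pool.Agent.S09145

/-- There is a compact Hausdorff space with a closed subbase in which every pairwise-intersecting subfamily has nonempty intersection, yet with no closed subbase whose closure under finite unions and intersections consists of regular closed sets. -/
theorem result :
    ∃ (X : Type) (t : TopologicalSpace X),
      CompactSpace X ∧ T2Space X ∧
      (∃ P : Set (Set X),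
        (∀ A ∈ P, IsClosed A) ∧
        t = TopologicalSpace.generateFrom {U : Set X | Uᶜ ∈ P} ∧
        (∀ L : Set (Set X), L ⊆ P →
          (∀ A ∈ L, ∀ B ∈ L, (A ∩ B).Nonempty) → (⋂₀ L).Nonempty)) ∧
      ¬ (∃ P : Set (Set X),
        (∀ A ∈ P, IsClosed A) ∧
        t = TopologicalSpace.generateFrom {U : Set X | Uᶜ ∈ P} ∧
        (∀ A : Set X,
          (∀ S : Set (Set X), P ⊆ S →
            (∀ B ∈ S, ∀ C ∈ S, B ∪ C ∈ S) →
            (∀ B ∈ S, ∀ C ∈ S, B ∩ C ∈ S) → A ∈ S) →
          closure (interior A) = A)) := by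
  refine ⟨Pool.Agent.Helper614.SC.K (Set ℝ), inferInstance, inferInstance, inferInstance,
    ⟨{A | Pool.Agent.Helper614.SC.SB A}, ?_, ?_, ?_⟩, ?_⟩
  · intro A hA
    exact Pool.Agent.Helper614.SC.isClosed_of_SB hA
  · rfl
  · intro L hL hlink
    exact Pool.Agent.Helper614.SC.binary L hL hlink
  · rintro ⟨P, _, hP2, hP3⟩
    apply Pool.Agent.Helper614.SC.no_regular Pool.Agent.Helper614.SC.card_setReal P
      {A | ∀ S : Set (Set (Pool.Agent.Helper614.SC.K (Set ℝ))), P ⊆ S →
            (∀ B ∈ S, ∀ C ∈ S, B ∪ C ∈ S) →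
            (∀ B ∈ S, ∀ C ∈ S, B ∩ C ∈ S) → A ∈ S} hP2
    · intro A hA S hS _ _
      exact hS hA
    · intro B hB C hC S hS h1 h2
      exact h1 B (hB S hS h1 h2) C (hC S hS h1 h2)
    · intro B hB C hC S hS h1 h2
      exact h2 B (hB S hS h1 h2) C (hC S hS h1 h2)
    · intro A hA
      exact hP3 A hA

end Pool.Agent.S09145
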