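import Pool.Statements.S09153
import Pool.Agent.Helper737.MetaFinal

set_option autoImplicit false
open Pool Pool.MP_f47af5_gt

namespace Pool.Agent.S09153

/-- Suppose Y is regular T1, metacompact, and covered by countably many closure-preserving families of compact closed sets. Then for every regular T1 metacompact X, Y × X is metacompact: every open cover has a point-finite open refinement. -/
theorem result :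
    ∀ (Y : Type) [TopologicalSpace Y], T3Space Y →
      (∀ 𝒰 : Set (Set Y), (∀ U ∈ 𝒰, IsOpen U) → ⋃₀ 𝒰 = Set.univ →
        ∃ 𝒱 : Set (Set Y), (∀ V ∈ 𝒱, IsOpen V) ∧ ⋃₀ 𝒱 = Set.univ ∧
          (∀ V ∈ 𝒱, ∃ U ∈ 𝒰, V ⊆ U) ∧ ∀ y : Y, {V | V ∈ 𝒱 ∧ y ∈ V}.Finite) →
      (∃ F : ℕ → Set (Set Y),
        (∀ n, ∀ A ∈ F n, IsCompact A ∧ IsClosed A) ∧
        (∀ n, ∀ G ⊆ F n, IsClosed (⋃₀ G)) ∧
        (⋃ n, ⋃₀ F n) = Set.univ) →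
      ∀ (X : Type) [TopologicalSpace X], T3Space X →
        (∀ 𝒰 : Set (Set X), (∀ U ∈ 𝒰, IsOpen U) → ⋃₀ 𝒰 = Set.univ →
          ∃ 𝒱 : Set (Set X), (∀ V ∈ 𝒱, IsOpen V) ∧ ⋃₀ 𝒱 = Set.univ ∧
            (∀ V ∈ 𝒱, ∃ U ∈ 𝒰, V ⊆ U) ∧ ∀ x : X, {V | V ∈ 𝒱 ∧ x ∈ V}.Finite) →
        (∀ 𝒰 : Set (Set (Y × X)), (∀ U ∈ 𝒰, IsOpen U) → ⋃₀ 𝒰 = Set.univ →
          ∃ 𝒱 : Set (Set (Y × X)), (∀ V ∈ 𝒱, IsOpen V) ∧ ⋃₀ 𝒱 = Set.univ ∧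
            (∀ V ∈ 𝒱, ∃ U ∈ 𝒰, V ⊆ U) ∧
            ∀ p : Y × X, {V | V ∈ 𝒱 ∧ p ∈ V}.Finite) := by
  intro Y _ _ hY hF X _ _ hX
  obtain ⟨F, h1, h2, h3⟩ := hF
  refine Pool.Agent.Helper737.MetaCpc.main hY hX F (fun n => ⟨h1 n, h2 n⟩) (fun y => ?_)
  have : y ∈ ⋃ n, ⋃₀ F n := by rw [h3]; exact Set.mem_univ y
  exact Set.mem_iUnion.1 this

end Pool.Agent.S09153
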