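import Pool.Statements.S09160
import Pool.Agent.Helper869.KDet

set_option autoImplicit false
open Pool Pool.MP_f54e59_gt

namespace Pool.Agent.S09160

open Pool.Agent.Helper869.KDet

/-- The negation of the preceding statement: For every class K of T0 spaces containing all sober spaces, any product of T0 spaces whose irreducible closed sets are K-determined (images have closure of a unique point in every K-space) again has all irreducible closed sets K-determined. -/
theorem result :
    ¬ (∀ K : (∀ (Y : Type) [TopologicalSpace Y], Prop),
      (∀ (Y : Type) [TopologicalSpace Y], K Y → T0Space Y) →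
      (∀ (Y : Type) [TopologicalSpace Y], T0Space Y → QuasiSober Y → K Y) →
      ∀ (I : Type) (X : I → Type) [∀ i, TopologicalSpace (X i)],
        (∀ i, T0Space (X i) ∧ ∀ A : Set (X i), IsIrreducible A → IsClosed A →
          ∀ (Y : Type) [TopologicalSpace Y], K Y → ∀ f : X i → Y, Continuous f →
            ∃! y : Y, closure (f '' A) = closure {y}) →
        ∀ A : Set (∀ i, X i), IsIrreducible A → IsClosed A →
          ∀ (Y : Type) [TopologicalSpace Y], K Y → ∀ f : (∀ i, X i) → Y, Continuous f →
            ∃! y : Y, closure (f '' A) = closure {y}) := by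
  intro H
  obtain ⟨y, hy, -⟩ := H (fun Y _ => Pool.Agent.Helper869.KDet.K Y)
    (fun Y _ h => K_T0 Y h)
    (fun Y _ h1 h2 => Or.inl ⟨h1, h2⟩)
    ℕ Pool.Agent.Helper869.KDet.X
    (fun i => ⟨inferInstance, fun A hA _ Y _ hY f hf => X_det i A hA Y hY f hf⟩)
    Set.univ isIrreducible_univ_pi isClosed_univ
    Y0 (Or.inr ⟨Homeomorph.refl Y0⟩) emb continuous_emb
  exact emb_not y hy

end Pool.Agent.S09160
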