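import Pool.Statements.S09163

set_option autoImplicit false
open Pool Pool.MP_f5ae99_gt

namespace Pool.Agent.S09163

open BoundedContinuousFunction

/-- pointwise countable density for functions constant on the fibres of a countable family -/
lemma exists_seq {X : Type} [TopologicalSpace X] (A : Set (X → ℝ))
    (hA : A ⊆ {f : X → ℝ | Continuous f}) (hAc : A.Countable) :
    ∃ a : ℕ → (X →ᵇ ℝ), (∀ j x y, (∀ f ∈ A, f x = f y) → a j x = a j y) ∧
      ∀ h : X → ℝ, (∀ x y, (∀ f ∈ A, f x = f y) → h x = h y) →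
        ∀ I : Finset X, ∀ ε > 0, ∃ j, ∀ x ∈ I, |a j x - h x| < ε := by
  have : Countable A := hAc.to_subtype
  let K : Type := A → Set.Icc (-(Real.pi / 2)) (Real.pi / 2)
  let q : X → K := fun x f => ⟨Real.arctan (f.1 x), (Real.neg_pi_div_two_lt_arctan _).le,
    (Real.arctan_lt_pi_div_two _).le⟩
  have hq : Continuous q := by
    apply continuous_pi
    intro f
    apply Continuous.subtype_mk
    exact Real.continuous_arctan.comp (hA f.2)
  have hq' : ∀ x y, q x = q y ↔ ∀ f ∈ A, f x = f y := by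
    intro x y
    constructor
    · intro h f hf
      have h1 := congrFun h ⟨f, hf⟩
      have h2 := Subtype.ext_iff.1 h1
      exact Real.arctan_injective h2
    · intro h
      funext f
      apply Subtype.ext
      show Real.arctan _ = Real.arctan _
      rw [h f.1 f.2]
  let φ : ℕ → C(K, ℝ) := TopologicalSpace.denseSeq C(K, ℝ)
  refine ⟨fun j => (BoundedContinuousFunction.mkOfCompact (φ j)).compContinuous ⟨q, hq⟩, ?_, ?_⟩
  · intro j x y hxy
    simp only [BoundedContinuousFunction.compContinuous_apply, ContinuousMap.coe_mk,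
      BoundedContinuousFunction.mkOfCompact_apply]
    rw [(hq' x y).2 hxy]
  · intro h hh I ε hε
    have hD : (q '' (I : Set X)).Finite := I.finite_toSet.image q
    have : DiscreteTopology (q '' (I : Set X)) := hD.isDiscrete.to_subtype
    have hch : ∀ d : q '' (I : Set X), ∃ x ∈ I, q x = d.1 := by
      rintro ⟨_, x, hx, rfl⟩
      exact ⟨x, hx, rfl⟩
    choose s hs hqs using hch
    obtain ⟨F, hF⟩ := ContinuousMap.exists_restrict_eq hD.isClosed
      (⟨fun d => h (s d), continuous_of_discreteTopology⟩ : C(q '' (I : Set X), ℝ))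
    obtain ⟨ψ, hψ, j, hj⟩ := (TopologicalSpace.denseRange_denseSeq C(K, ℝ)).inter_open_nonempty
      (Metric.ball F ε) Metric.isOpen_ball ⟨F, Metric.mem_ball_self hε⟩
    refine ⟨j, ?_⟩
    intro x hx
    simp only [BoundedContinuousFunction.compContinuous_apply, ContinuousMap.coe_mk,
      BoundedContinuousFunction.mkOfCompact_apply]
    have h1 : F (q x) = h x := by
      have h2 : F (q x) = h (s ⟨q x, x, hx, rfl⟩) :=
        congrArg (fun G : C(q '' (I : Set X), ℝ) => G ⟨q x, x, hx, rfl⟩) hF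
      rw [h2]
      apply hh
      rw [← hq']
      exact hqs _
    rw [← h1]
    have h3 : dist (φ j (q x)) (F (q x)) ≤ dist (φ j) F := ContinuousMap.dist_apply_le_dist _
    rw [← Real.dist_eq]
    refine h3.trans_lt ?_
    have h4 : φ j = ψ := hj
    rw [h4]
    exact hψ

/-- clipping around a centre -/
noncomputable def clip (ρ u : ℝ) : ℝ := max (-ρ) (min ρ u)

lemma clip_abs_le {ρ : ℝ} (hρ : 0 ≤ ρ) (u : ℝ) : |clip ρ u| ≤ ρ := by
  unfold clip
  rw [abs_le]
  exact ⟨le_max_left _ _, max_le (by linarith) (min_le_left _ _)⟩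

lemma clip_close {ρ : ℝ} (u v : ℝ) (hv : |v| ≤ ρ) : |clip ρ u - v| ≤ |u - v| := by
  have h1 : clip ρ v = v := by
    unfold clip
    rw [abs_le] at hv
    rw [min_eq_right hv.2, max_eq_right hv.1]
  unfold clip at *
  rw [abs_le] at hv
  rcases le_total u ρ with h | h
  · rw [min_eq_right h]
    rcases le_total (-ρ) u with h' | h'
    · rw [max_eq_right h']
    · rw [max_eq_left h']
      rw [abs_of_nonpos (by linarith), abs_of_nonpos (by linarith)]
      linarith
  · rw [min_eq_left h, max_eq_right (by linarith)]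
    rw [abs_of_nonneg (by linarith), abs_of_nonneg (by linarith)]
    linarith

/-- For every Tychonoff X, if C_p(X) is a countable union of ω-monolithic subspaces (every countable subset has closure of countable network weight), then C_p(X) itself is ω-monolithic. -/
theorem result :
  ∀ (X : Type) [TopologicalSpace X] [T35Space X] (Y : ℕ → Set (X → ℝ)),
    (⋃ n, Y n) = {f : X → ℝ | Continuous f} →
    (∀ n, ∀ A : Set (X → ℝ), A ⊆ Y n → A.Countable →
      ∃ 𝒩 : Set (Set (X → ℝ)), 𝒩.Countable ∧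
        ∀ x ∈ closure A ∩ Y n, ∀ U : Set (X → ℝ), IsOpen U → x ∈ U →
          ∃ N ∈ 𝒩, x ∈ N ∧ N ⊆ U) →
    ∀ A : Set (X → ℝ), A ⊆ {f : X → ℝ | Continuous f} → A.Countable →
      ∃ 𝒩 : Set (Set (X → ℝ)), 𝒩.Countable ∧
        ∀ x ∈ closure A ∩ {f : X → ℝ | Continuous f}, ∀ U : Set (X → ℝ), IsOpen U → x ∈ U →
          ∃ N ∈ 𝒩, x ∈ N ∧ N ⊆ U := by
  intro X _ _ Y hY hmono A hA hAc
  obtain ⟨a, haA, hadense⟩ := exists_seq A hA hAc
  -- the closed set of bounded functions constant on fibres
  let E : Set (X →ᵇ ℝ) := {F | ∀ x y, (∀ f ∈ A, f x = f y) → F x = F y}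
  have hEclosed : IsClosed E := by
    have : E = ⋂ (x : X) (y : X) (_ : ∀ f ∈ A, f x = f y), {F : X →ᵇ ℝ | F x = F y} := by
      ext F; simp [E]
    rw [this]
    refine isClosed_iInter fun x => isClosed_iInter fun y => isClosed_iInter fun _ => ?_
    exact isClosed_eq (by fun_prop) (by fun_prop)
  have hEc : CompleteSpace E := hEclosed.completeSpace_coe
  have hEne : Nonempty E := ⟨⟨0, fun x y _ => rfl⟩⟩
  let T : ℕ → Set E := fun n => {F | (F.1 : X → ℝ) ∈ Y n}
  have hT : ⋃ n, closure (T n) = Set.univ := by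
    rw [Set.eq_univ_iff_forall]
    intro F
    have h1 : (F.1 : X → ℝ) ∈ ⋃ n, Y n := by
      rw [hY]; exact F.1.continuous
    obtain ⟨n, hn⟩ := Set.mem_iUnion.1 h1
    exact Set.mem_iUnion.2 ⟨n, subset_closure hn⟩
  obtain ⟨n, G, hG⟩ := nonempty_interior_of_iUnion_of_closed (fun n => isClosed_closure) hT
  obtain ⟨r, hr, hball⟩ := Metric.isOpen_iff.1 isOpen_interior G hG
  have hball' : ∀ F : X →ᵇ ℝ, F ∈ E → (∀ x, |F x - G.1 x| ≤ r / 2) → ∀ ε > 0,
      ∃ t : X →ᵇ ℝ, t ∈ E ∧ (t : X → ℝ) ∈ Y n ∧ ∀ x, |t x - F x| < ε := by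
    intro F hF hFG ε hε
    have h1 : (⟨F, hF⟩ : E) ∈ closure (T n) := by
      apply interior_subset
      apply hball
      rw [Metric.mem_ball]
      have h2 : dist F G.1 ≤ r / 2 := by
        rw [BoundedContinuousFunction.dist_le (by positivity)]
        intro x
        rw [Real.dist_eq]
        exact hFG x
      have h3 : dist (⟨F, hF⟩ : E) G = dist F G.1 := rfl
      rw [h3]
      linarith
    obtain ⟨t, ht, htd⟩ := Metric.mem_closure_iff.1 h1 ε hε
    refine ⟨t.1, t.2, ht, ?_⟩
    intro x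
    have h4 : dist F t.1 < ε := htd
    have h5 := BoundedContinuousFunction.dist_coe_le_dist (f := F) (g := t.1) x
    rw [← Real.dist_eq, dist_comm]
    exact h5.trans_lt h4
  -- the clipped dense functions
  have hcl : ∀ j, ∃ b : X →ᵇ ℝ, b ∈ E ∧ (∀ x, |b x - G.1 x| ≤ r / 2) ∧
      ∀ h : ℝ, ∀ x, |h - G.1 x| ≤ r / 2 → |b x - h| ≤ |a j x - h| := by
    intro j
    have hcont : Continuous (fun x => G.1 x + clip (r / 2) (a j x - G.1 x)) := by
      have := G.1.continuous
      have := (a j).continuous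
      unfold clip
      fun_prop
    refine ⟨BoundedContinuousFunction.ofNormedAddCommGroup
      (fun x => G.1 x + clip (r / 2) (a j x - G.1 x)) hcont (‖G.1‖ + r / 2) ?_, ?_, ?_, ?_⟩
    · intro x
      refine (norm_add_le _ _).trans ?_
      have h1 := G.1.norm_coe_le_norm x
      have h2 := clip_abs_le (ρ := r / 2) (by positivity) (a j x - G.1 x)
      rw [← Real.norm_eq_abs] at h2
      linarith
    · intro x y hxy
      show G.1 x + clip (r / 2) (a j x - G.1 x) = G.1 y + clip (r / 2) (a j y - G.1 y)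
      rw [haA j x y hxy, G.2 x y hxy]
    · intro x
      show |G.1 x + clip (r / 2) (a j x - G.1 x) - G.1 x| ≤ r / 2
      rw [add_sub_cancel_left]
      exact clip_abs_le (by positivity) _
    · intro h x hx
      show |G.1 x + clip (r / 2) (a j x - G.1 x) - h| ≤ |a j x - h|
      have h1 := clip_close (ρ := r / 2) (a j x - G.1 x) (h - G.1 x) hx
      have h2 : G.1 x + clip (r / 2) (a j x - G.1 x) - h
        = clip (r / 2) (a j x - G.1 x) - (h - G.1 x) := by ring
      have h3 : a j x - h = (a j x - G.1 x) - (h - G.1 x) := by ring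
      rw [h2, h3]
      exact h1
  choose b hbE hbG hbh using hcl
  have hpos : ∀ m : ℕ, (0 : ℝ) < 1 / ((m : ℝ) + 1) := fun m => by positivity
  choose t htE htY htd using fun (p : ℕ × ℕ) => hball' (b p.1) (hbE p.1) (hbG p.1) _ (hpos p.2)
  obtain ⟨𝒩, h𝒩c, h𝒩⟩ := hmono n (Set.range (fun p => (t p : X → ℝ)))
    (by rintro _ ⟨p, rfl⟩; exact htY p) (Set.countable_range _)
  -- members of the ball lie in the pointwise closure
  have hclos : ∀ F : X →ᵇ ℝ, F ∈ E → (∀ x, |F x - G.1 x| ≤ r / 2) →
      (F : X → ℝ) ∈ closure (Set.range (fun p => (t p : X → ℝ))) := by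
    intro F hF hFG
    rw [mem_closure_iff_nhds]
    intro U hU
    rw [nhds_pi, Filter.mem_pi] at hU
    obtain ⟨I, hI, s, hs, hsU⟩ := hU
    have hε : ∃ ε > 0, ∀ y ∈ I, Metric.ball (F y) ε ⊆ s y := by
      have : ∀ y : X, ∃ ε > 0, Metric.ball (F y) ε ⊆ s y := fun y => Metric.mem_nhds_iff.1 (hs y)
      choose e he hes using this
      obtain ⟨J, rfl⟩ := hI.exists_finset_coe
      rcases J.eq_empty_or_nonempty with rfl | hJ
      · exact ⟨1, one_pos, by simp⟩
      · refine ⟨J.inf' hJ e, ?_, ?_⟩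
        · rw [gt_iff_lt, Finset.lt_inf'_iff]
          intro y _
          exact he y
        · intro y hy
          exact (Metric.ball_subset_ball (Finset.inf'_le _ hy)).trans (hes y)
    obtain ⟨ε, hε, hεs⟩ := hε
    obtain ⟨j, hj⟩ := hadense F hF hI.toFinset (ε / 2) (by positivity)
    obtain ⟨m, hm⟩ := exists_nat_one_div_lt (show (0 : ℝ) < ε / 2 by positivity)
    refine ⟨t (j, m), hsU ?_, (j, m), rfl⟩
    intro y hy
    apply hεs y hy
    rw [Metric.mem_ball, Real.dist_eq]
    have h1 := htd (j, m) y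
    have h2 := hbh j (F y) y (hFG y)
    have h3 := hj y (by simpa using hy)
    simp only at h1
    calc |t (j, m) y - F y| ≤ |t (j, m) y - b j y| + |b j y - F y| := abs_sub_le _ _ _
      _ < ε := by linarith
  -- the embedding into the ball
  set c : ℝ := r / 8 with hc
  have hc0 : 0 < c := by positivity
  let Θ : (X → ℝ) → (X → ℝ) := fun f x => G.1 x + c * Real.arctan (f x)
  have hΘ : Topology.IsInducing Θ := by
    have h1 : ∀ x : X, Topology.IsInducing (fun y : ℝ => G.1 x + c * Real.arctan y) := by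
      intro x
      have hcont : Continuous (fun y : ℝ => G.1 x + c * Real.arctan y) := by
        have := Real.continuous_arctan
        fun_prop
      have hmonot : StrictMono (fun y : ℝ => G.1 x + c * Real.arctan y) := by
        intro y z hyz
        have := Real.arctan_strictMono hyz
        show G.1 x + c * Real.arctan y < G.1 x + c * Real.arctan z
        have := mul_lt_mul_of_pos_left this hc0
        linarith
      have hord : Set.OrdConnected (Set.range (fun y : ℝ => G.1 x + c * Real.arctan y)) :=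
        (isPreconnected_range hcont).ordConnected
      exact (hmonot.isEmbedding_of_ordConnected hord).isInducing
    exact Topology.IsInducing.piMap h1
  refine ⟨{M | ∃ N ∈ 𝒩, ∃ k : ℕ, M = {f | ∃ s ∈ N, ∀ x, |Θ f x - s x| ≤ 1 / ((k : ℝ) + 1)}}, ?_, ?_⟩
  · have : {M | ∃ N ∈ 𝒩, ∃ k : ℕ, M = {f | ∃ s ∈ N, ∀ x, |Θ f x - s x| ≤ 1 / ((k : ℝ) + 1)}} ⊆
        (fun p : Set (X → ℝ) × ℕ => {f : X → ℝ | ∃ s ∈ p.1, ∀ x, |Θ f x - s x| ≤ 1 / ((p.2 : ℝ) + 1)}) ''
          (𝒩 ×ˢ (Set.univ : Set ℕ)) := by
      rintro M ⟨N, hN, k, rfl⟩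
      exact ⟨(N, k), ⟨hN, trivial⟩, rfl⟩
    exact ((h𝒩c.prod Set.countable_univ).image _).mono this
  · rintro f ⟨hfA, hfc⟩ U hU hfU
    obtain ⟨V, hV, rfl⟩ := hΘ.isOpen_iff.1 hU
    have hfV : Θ f ∈ V := hfU
    -- the image as a bounded function
    have hfib : ∀ x y, (∀ g ∈ A, g x = g y) → f x = f y := by
      intro x y hxy
      have hcl : IsClosed {g : X → ℝ | g x = g y} :=
        isClosed_eq (continuous_apply x) (continuous_apply y)
      exact closure_minimal (fun g hg => hxy g hg) hcl hfA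
    have harc : ∀ y : ℝ, |c * Real.arctan y| ≤ r / 4 := by
      intro y
      rw [abs_mul, abs_of_pos hc0]
      have h1 : |Real.arctan y| ≤ 2 := by
        rw [abs_le]
        have := Real.pi_lt_four
        constructor
        · linarith [Real.neg_pi_div_two_lt_arctan y]
        · linarith [Real.arctan_lt_pi_div_two y]
      calc c * |Real.arctan y| ≤ c * 2 := by
            apply mul_le_mul_of_nonneg_left h1 hc0.le
        _ = r / 4 := by rw [hc]; ring
    have hcont : Continuous (Θ f) := by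
      have h1 := G.1.continuous
      have h2 : Continuous f := hfc
      have h3 := Real.continuous_arctan
      show Continuous (fun x => G.1 x + c * Real.arctan (f x))
      fun_prop
    let F : X →ᵇ ℝ := BoundedContinuousFunction.ofNormedAddCommGroup (Θ f) hcont (‖G.1‖ + r / 4) (by
      intro x
      refine (norm_add_le _ _).trans ?_
      have h1 := G.1.norm_coe_le_norm x
      have h2 := harc (f x)
      rw [← Real.norm_eq_abs] at h2
      linarith)
    have hFx : ∀ x, F x = Θ f x := fun x => rfl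
    have hFE : F ∈ E := by
      intro x y hxy
      rw [hFx, hFx]
      show G.1 x + c * Real.arctan (f x) = G.1 y + c * Real.arctan (f y)
      rw [hfib x y hxy, G.2 x y hxy]
    have hFG : ∀ x, |F x - G.1 x| ≤ r / 4 := by
      intro x
      rw [hFx]
      show |G.1 x + c * Real.arctan (f x) - G.1 x| ≤ r / 4
      rw [add_sub_cancel_left]
      exact harc _
    obtain ⟨I, u, hu, hIu⟩ := isOpen_pi_iff.1 hV _ hfV
    have hε : ∃ ε > 0, ∀ y ∈ I, Metric.ball (Θ f y) ε ⊆ u y := by
      have : ∀ y : X, ∃ ε > 0, y ∈ I → Metric.ball (Θ f y) ε ⊆ u y := by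
        intro y
        by_cases hy : y ∈ I
        · obtain ⟨ε, hε, h⟩ := Metric.isOpen_iff.1 (hu y hy).1 _ (hu y hy).2
          exact ⟨ε, hε, fun _ => h⟩
        · exact ⟨1, one_pos, fun h => absurd h hy⟩
      choose e he hes using this
      rcases I.eq_empty_or_nonempty with rfl | hJ
      · exact ⟨1, one_pos, by simp⟩
      · refine ⟨I.inf' hJ e, ?_, ?_⟩
        · rw [gt_iff_lt, Finset.lt_inf'_iff]
          intro y _
          exact he y
        · intro y hy
          exact (Metric.ball_subset_ball (Finset.inf'_le _ hy)).trans (hes y hy)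
    obtain ⟨ε, hε, hεu⟩ := hε
    obtain ⟨k, hk⟩ := exists_nat_one_div_lt (show (0 : ℝ) < ε / 3 by positivity)
    obtain ⟨s, hsE, hsY, hsd⟩ := hball' F hFE (fun x => (hFG x).trans (by linarith))
      (min (1 / ((k : ℝ) + 1)) (r / 4)) (lt_min (hpos k) (by positivity))
    have hsG : ∀ x, |s x - G.1 x| ≤ r / 2 := by
      intro x
      have h1 := hsd x
      have h2 := hFG x
      have h3 : min (1 / ((k : ℝ) + 1)) (r / 4) ≤ r / 4 := min_le_right _ _
      calc |s x - G.1 x| ≤ |s x - F x| + |F x - G.1 x| := abs_sub_le _ _ _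
        _ ≤ r / 2 := by linarith
    have hsc := hclos s hsE hsG
    obtain ⟨N, hN, hsN, hNW⟩ := h𝒩 s ⟨hsc, hsY⟩ {h : X → ℝ | ∀ x ∈ I, |h x - s x| < ε / 3} (by
      have : {h : X → ℝ | ∀ x ∈ I, |h x - s x| < ε / 3} =
          ⋂ x ∈ I, {h : X → ℝ | |h x - s x| < ε / 3} := by
        ext h; simp
      rw [this]
      apply isOpen_biInter_finset
      intro x _
      exact isOpen_lt (by fun_prop) continuous_const) (by
        intro x _
        simp only [sub_self, abs_zero]
        positivity)
    refine ⟨_, ⟨N, hN, k, rfl⟩, ⟨s, hsN, ?_⟩, ?_⟩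
    · intro x
      have h1 := hsd x
      rw [hFx] at h1
      rw [abs_sub_comm]
      exact (h1.trans_le (min_le_left _ _)).le
    · rintro f' ⟨s', hs'N, hs'⟩
      show Θ f' ∈ V
      apply hIu
      intro x hx
      apply hεu x hx
      rw [Metric.mem_ball, Real.dist_eq]
      have h1 := hs' x
      have h2 := hNW hs'N x hx
      have h3 := (hsd x).trans_le (min_le_left _ _)
      rw [hFx] at h3
      calc |Θ f' x - Θ f x| ≤ |Θ f' x - s' x| + |s' x - Θ f x| := abs_sub_le _ _ _
        _ ≤ |Θ f' x - s' x| + (|s' x - s x| + |s x - Θ f x|) := by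
            gcongr; exact abs_sub_le _ _ _
        _ < ε := by linarith

end Pool.Agent.S09163
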