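import Pool.Statements.S09171
import Pool.Agent.Helper754.FinChain

set_option autoImplicit false
open Pool Pool.MP_f74662_gt

namespace Pool.Agent.S09171

/-- For every N>1 there are sets of reals A,B,C,A_1..A_N with A p B p C and A p A_1 p ... p A_N p C. Here E<F means E embeds homeomorphically in F but not conversely, and E p F means E<F with nothing strictly between. -/
theorem result :
    ∀ Lt : Set ℝ → Set ℝ → Prop,
      (∀ E F : Set ℝ, Lt E F ↔
        ((∃ f : ↥E → ↥F, Topology.IsEmbedding f) ∧ ¬ ∃ g : ↥F → ↥E, Topology.IsEmbedding g)) →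
    ∀ P : Set ℝ → Set ℝ → Prop,
      (∀ E F : Set ℝ, P E F ↔ (Lt E F ∧ ¬ ∃ G : Set ℝ, Lt E G ∧ Lt G F)) →
    ∀ N : ℕ, 1 < N →
      ∃ A B C : Set ℝ, ∃ X : ℕ → Set ℝ,
        P A B ∧ P B C ∧ P A (X 1) ∧
        (∀ i : ℕ, 1 ≤ i → i < N → P (X i) (X (i + 1))) ∧
        P (X N) C := by
  intro Lt hLt P hP N hN
  have h2 : ∀ E F, Lt E F ↔ Helper754.Lt E F := fun E F => by
    rw [hLt, ← Helper754.Le_iff, ← Helper754.Le_iff]
    exact Iff.rfl
  have h3 : ∀ E F, P E F ↔ Helper754.Pr E F := fun E F => by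
    rw [hP]
    simp only [h2]
    exact Iff.rfl
  obtain ⟨A, B, C, X, a1, a2, a3, a4, a5⟩ := Helper754.main1 N hN
  exact ⟨A, B, C, X, (h3 _ _).2 a1, (h3 _ _).2 a2, (h3 _ _).2 a3,
    fun i hi hi' => (h3 _ _).2 (a4 i hi hi'), (h3 _ _).2 a5⟩

end Pool.Agent.S09171
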