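import Pool.Statements.S09173

set_option autoImplicit false
open Pool Pool.MP_f74cc2_gt

namespace Pool.Agent.S09173

open Set Filter Topology

/-- The scale `2^(-i)`. -/
noncomputable def cc (i : ℕ) : ℝ := (1 / 2) ^ i

lemma cc_pos (i : ℕ) : 0 < cc i := by unfold cc; positivity

lemma cc_succ (i : ℕ) : cc (i + 1) = cc i / 2 := by unfold cc; rw [pow_succ]; ring

lemma cc_anti : Antitone cc := by
  refine antitone_nat_of_succ_le fun i => ?_
  rw [cc_succ]; have := cc_pos i; linarith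

lemma cc_lt {i j : ℕ} (h : i < j) : cc j ≤ cc i / 2 := by
  have := cc_anti (Nat.succ_le_of_lt h)
  rw [Nat.succ_eq_add_one, cc_succ] at this
  exact this

lemma cc_tendsto : Tendsto cc atTop (𝓝 0) :=
  tendsto_pow_atTop_nhds_zero_of_lt_one (by norm_num) (by norm_num)

/-- The open embedding of the line onto the interval around `2^(-i)`. -/
noncomputable def E (i : ℕ) : ℝ → ℝ := OpenPartialHomeomorph.univBall (cc i) (cc i / 4)

lemma E_emb (i : ℕ) : IsOpenEmbedding (E i) :=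
  OpenPartialHomeomorph.isOpenEmbedding _ (OpenPartialHomeomorph.univBall_source _ _)

lemma E_zero (i : ℕ) : E i 0 = cc i := OpenPartialHomeomorph.univBall_apply_zero _ _

lemma E_mem (i : ℕ) (η : ℝ) : E i η ∈ Metric.ball (cc i) (cc i / 4) := by
  have h : (0 : ℝ) < cc i / 4 := by have := cc_pos i; linarith
  rw [← OpenPartialHomeomorph.univBall_target (cc i) h]
  exact (OpenPartialHomeomorph.univBall (cc i) (cc i / 4)).map_source
    (by rw [OpenPartialHomeomorph.univBall_source]; trivial)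

lemma E_surj (i : ℕ) (t : ℝ) (ht : t ∈ Metric.ball (cc i) (cc i / 4)) : ∃ η, E i η = t := by
  have h : (0 : ℝ) < cc i / 4 := by have := cc_pos i; linarith
  rw [← OpenPartialHomeomorph.univBall_target (cc i) h] at ht
  exact ⟨_, (OpenPartialHomeomorph.univBall (cc i) (cc i / 4)).right_inv ht⟩

lemma E_lt (i : ℕ) (η : ℝ) : E i η < 5 / 4 * cc i := by
  have := E_mem i η
  rw [Real.ball_eq_Ioo, mem_Ioo] at this
  linarith [this.2]

lemma lt_E (i : ℕ) (η : ℝ) : 3 / 4 * cc i < E i η := by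
  have := E_mem i η
  rw [Real.ball_eq_Ioo, mem_Ioo] at this
  linarith [this.1]

lemma E_ratio {i j : ℕ} (h : i < j) (η ξ : ℝ) : 6 / 5 * E j ξ < E i η := by
  have h1 := lt_E i η
  have h2 := E_lt j ξ
  have h3 := cc_lt h
  linarith

lemma E_index {i j : ℕ} {η ξ : ℝ} (h : E i η = E j ξ) : i = j := by
  rcases lt_trichotomy i j with hij | hij | hij
  · have := E_ratio hij η ξ; have := lt_E j ξ; have := cc_pos j; linarith
  · exact hij
  · have := E_ratio hij ξ η; have := lt_E i η; have := cc_pos i; linarith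

/-- The combinatorial data: an almost disjoint family of injective Cauchy sequences of reals,
with slopes. -/
structure Data where
  A : Type
  a : A → ℕ → ℝ
  x : A → ℕ → ℝ
  a_inj : ∀ α, Function.Injective (a α)
  a_cauchy : ∀ α, CauchySeq (a α)
  a_ad : ∀ α β, α ≠ β → {i | ∃ j, a α i = a β j}.Finite
  a_max : ∀ h : ℝ → ℕ, ∃ α k, ∃ᶠ i in atTop, h (a α i) = k
  x_ge : ∀ (α : A) (i : ℕ), (i : ℝ) ≤ x α i
  x_ne : ∀ α β i j, α ≠ β → x α i ≠ x β j

variable (S : Data)

/-- The open embedding of the plane onto the `i`-th strip, with a shear. -/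
noncomputable def e (α : S.A) (i : ℕ) (p : ℝ × ℝ) : ℝ × ℝ := (p.1 - S.x α i * p.2, E i p.2)

/-- The shear as a homeomorphism. -/
def shear (c : ℝ) : ℝ × ℝ ≃ₜ ℝ × ℝ where
  toFun p := (p.1 - c * p.2, p.2)
  invFun p := (p.1 + c * p.2, p.2)
  left_inv p := by simp
  right_inv p := by simp
  continuous_toFun := by fun_prop
  continuous_invFun := by fun_prop

lemma e_emb (α : S.A) (i : ℕ) : IsOpenEmbedding (e S α i) := by
  have h1 : e S α i = (Prod.map id (E i)) ∘ (shear (S.x α i)) := by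
    funext p; rfl
  rw [h1]
  exact (IsOpenEmbedding.id.prodMap (E_emb i)).comp (shear _).isOpenEmbedding

lemma e_index {α : S.A} {i j : ℕ} {p q : ℝ × ℝ} (h : e S α i p = e S α j q) : i = j :=
  E_index (congrArg Prod.snd h)

lemma e_unique {α : S.A} {i j : ℕ} {p q : ℝ × ℝ} (h : e S α i p = e S α j q) :
    i = j ∧ p = q := by
  obtain rfl := e_index S h
  exact ⟨rfl, (e_emb S α i).injective h⟩

/-- The points of the surface. -/
inductive M : Type
  | H (d : ℝ) (p : ℝ × ℝ) : M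
  | P (α : S.A) (q : ℝ × ℝ) (hq : ∀ i p, e S α i p ≠ q) : M

open Classical in
/-- The charts indexed by the sequences. -/
noncomputable def ch (α : S.A) (q : ℝ × ℝ) : M S :=
  if h : ∃ z : ℕ × (ℝ × ℝ), e S α z.1 z.2 = q then M.H (S.a α h.choose.1) h.choose.2
  else M.P α q (fun i p hh => h ⟨(i, p), hh⟩)

lemma ch_e (α : S.A) (i : ℕ) (p : ℝ × ℝ) : ch S α (e S α i p) = M.H (S.a α i) p := by
  have h : ∃ z : ℕ × (ℝ × ℝ), e S α z.1 z.2 = e S α i p := ⟨(i, p), rfl⟩
  unfold ch
  rw [dif_pos h]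
  obtain ⟨h1, h2⟩ := e_unique S h.choose_spec
  rw [h1, h2]

lemma ch_P (α : S.A) (q : ℝ × ℝ) (hq : ∀ i p, e S α i p ≠ q) : ch S α q = M.P α q hq := by
  unfold ch
  rw [dif_neg]
  rintro ⟨z, hz⟩
  exact hq _ _ hz

lemma ch_cases (α : S.A) (q : ℝ × ℝ) :
    (∃ i p, e S α i p = q) ∨ (∀ i p, e S α i p ≠ q) := by
  by_cases h : ∃ i p, e S α i p = q
  · exact Or.inl h
  · push Not at h
    exact Or.inr h

lemma ch_injective (α : S.A) : Function.Injective (ch S α) := by
  intro q q' h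
  rcases ch_cases S α q with ⟨i, p, rfl⟩ | hq <;> rcases ch_cases S α q' with ⟨j, p', rfl⟩ | hq'
  · rw [ch_e, ch_e] at h
    injection h with h1 h2
    rw [S.a_inj α h1, h2]
  · rw [ch_e, ch_P S α q' hq'] at h
    cases h
  · rw [ch_e, ch_P S α q hq] at h
    cases h
  · rw [ch_P S α q hq, ch_P S α q' hq'] at h
    injection h

/-- The topology. -/
instance top : TopologicalSpace (M S) where
  IsOpen O := (∀ d, IsOpen {p | M.H d p ∈ O}) ∧ (∀ α, IsOpen (ch S α ⁻¹' O))
  isOpen_univ := ⟨fun _ => by simp, fun _ => by simp⟩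
  isOpen_inter := by
    rintro s t ⟨hs1, hs2⟩ ⟨ht1, ht2⟩
    exact ⟨fun d => (hs1 d).inter (ht1 d), fun α => (hs2 α).inter (ht2 α)⟩
  isOpen_sUnion := by
    intro T hT
    refine ⟨fun d => ?_, fun α => ?_⟩
    · have : {p | M.H d p ∈ ⋃₀ T} = ⋃ s ∈ T, {p | (M.H d p : M S) ∈ s} := by
        ext p; simp
      rw [this]
      exact isOpen_biUnion fun s hs => (hT s hs).1 d
    · have : ch S α ⁻¹' (⋃₀ T) = ⋃ s ∈ T, ch S α ⁻¹' s := by
        ext p; simp
      rw [this]
      exact isOpen_biUnion fun s hs => (hT s hs).2 α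

lemma isOpen_iff' (O : Set (M S)) :
    IsOpen O ↔ (∀ d, IsOpen (M.H d ⁻¹' O)) ∧ (∀ α, IsOpen (ch S α ⁻¹' O)) := Iff.rfl

/-- The charts indexed by the reals. -/
def hh (d : ℝ) : ℝ × ℝ → M S := M.H d

lemma hh_injective (d : ℝ) : Function.Injective (hh S d) := by
  intro p q h
  injection h

lemma hh_emb (d : ℝ) : IsOpenEmbedding (hh S d) := by
  refine IsOpenEmbedding.of_continuous_injective_isOpenMap ?_ (hh_injective S d) ?_
  · exact ⟨fun O hO => hO.1 d⟩
  · intro W hW
    rw [isOpen_iff']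
    refine ⟨fun d' => ?_, fun α => ?_⟩
    · by_cases h : d' = d
      · subst h
        convert hW using 1
        ext p
        simp [hh]
      · convert isOpen_empty using 1
        ext p
        simp only [mem_preimage, mem_image, mem_empty_iff_false, iff_false, not_exists, not_and]
        intro q _ hq
        injection hq with h1
        exact h h1.symm
    · have : ch S α ⁻¹' (hh S d '' W) = ⋃ i ∈ {i | S.a α i = d}, e S α i '' W := by
        ext q
        simp only [mem_preimage, mem_image, mem_iUnion, mem_ofPred_eq, exists_prop]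
        constructor
        · rintro ⟨p, hp, h⟩
          rcases ch_cases S α q with ⟨i, p', rfl⟩ | hq
          · rw [ch_e] at h
            injection h with h1 h2
            exact ⟨i, h1.symm, p, hp, by rw [h2]⟩
          · rw [ch_P S α q hq] at h
            cases h
        · rintro ⟨i, hi, p, hp, rfl⟩
          exact ⟨p, hp, by rw [ch_e, hi]; rfl⟩
      rw [this]
      exact isOpen_biUnion fun i _ => (e_emb S α i).isOpenMap _ hW

lemma ch_emb (α : S.A) : IsOpenEmbedding (ch S α) := by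
  refine IsOpenEmbedding.of_continuous_injective_isOpenMap ?_ (ch_injective S α) ?_
  · exact ⟨fun O hO => hO.2 α⟩
  · intro W hW
    have hd : ∀ d, IsOpen (hh S d ⁻¹' (ch S α '' W)) := by
      intro d
      by_cases hd : ∃ i, S.a α i = d
      · obtain ⟨i, rfl⟩ := hd
        convert (e_emb S α i).continuous.isOpen_preimage W hW using 1
        ext p
        simp only [mem_preimage, mem_image]
        constructor
        · rintro ⟨q, hq, h⟩
          have h2 : ch S α q = ch S α (e S α i p) := by rw [h, ch_e]; rfl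
          rw [← ch_injective S α h2]
          exact hq
        · intro h
          exact ⟨_, h, by rw [ch_e]; rfl⟩
      · convert isOpen_empty using 1
        ext p
        simp only [mem_preimage, mem_image, mem_empty_iff_false, iff_false, not_exists, not_and]
        intro q _ h
        rcases ch_cases S α q with ⟨i, p', rfl⟩ | hq
        · rw [ch_e] at h
          injection h with h1
          exact hd ⟨i, h1⟩
        · rw [ch_P S α q hq] at h
          cases h
    rw [isOpen_iff']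
    refine ⟨hd, fun β => ?_⟩
    by_cases h : β = α
    · subst h
      rw [preimage_image_eq _ (ch_injective S β)]
      exact hW
    · have : ch S β ⁻¹' (ch S α '' W) =
          ⋃ d, ch S β ⁻¹' (hh S d '' (hh S d ⁻¹' (ch S α '' W))) := by
        ext q
        simp only [mem_preimage, mem_iUnion]
        constructor
        · rintro ⟨q', hq', h1⟩
          rcases ch_cases S β q with ⟨i, p, rfl⟩ | hq
          · refine ⟨S.a β i, p, ?_, by rw [ch_e]; rfl⟩
            refine ⟨q', hq', ?_⟩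
            rw [h1, ch_e]; rfl
          · exfalso
            rw [ch_P S β q hq] at h1
            rcases ch_cases S α q' with ⟨i, p, rfl⟩ | hq2
            · rw [ch_e] at h1; cases h1
            · rw [ch_P S α q' hq2] at h1
              injection h1 with h2
              exact h h2.symm
        · rintro ⟨d, p, hp, h1⟩
          rw [← h1]
          exact hp
      rw [this]
      refine isOpen_iUnion fun d => ?_
      have h2 := (hh_emb S d).isOpenMap _ (hd d)
      exact ((isOpen_iff' S _).1 h2).2 β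

/-- The identification of the Euclidean plane with `ℝ × ℝ`. -/
noncomputable def plane : EuclideanSpace ℝ (Fin 2) ≃ₜ ℝ × ℝ :=
  (EuclideanSpace.equiv (Fin 2) ℝ).toHomeomorph.trans Homeomorph.finTwoArrow

lemma exists_chart_of_emb (f : ℝ × ℝ → M S) (hf : IsOpenEmbedding f) (z : ℝ × ℝ) :
    ∃ g : OpenPartialHomeomorph (M S) (EuclideanSpace ℝ (Fin 2)), f z ∈ g.source := by
  have h := hf.comp plane.isOpenEmbedding
  refine ⟨(h.toOpenPartialHomeomorph _).symm, ?_⟩
  rw [OpenPartialHomeomorph.symm_source, IsOpenEmbedding.toOpenPartialHomeomorph_target]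
  exact ⟨plane.symm z, by simp⟩

lemma exists_chart (x : M S) :
    ∃ g : OpenPartialHomeomorph (M S) (EuclideanSpace ℝ (Fin 2)), x ∈ g.source := by
  cases x with
  | H d p => exact exists_chart_of_emb S (hh S d) (hh_emb S d) p
  | P α q hq =>
    rw [← ch_P S α q hq]
    exact exists_chart_of_emb S (ch S α) (ch_emb S α) q

/-- The charted space structure. -/
@[instance_reducible]
noncomputable def charted : ChartedSpace (EuclideanSpace ℝ (Fin 2)) (M S) where
  atlas := univ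
  chartAt x := (exists_chart S x).choose
  mem_chart_source x := (exists_chart S x).choose_spec
  chart_mem_atlas _ := mem_univ _

lemma sep_in_chart (f : ℝ × ℝ → M S) (hf : IsOpenEmbedding f) (z w : ℝ × ℝ) (h : f z ≠ f w) :
    ∃ U V : Set (M S), IsOpen U ∧ IsOpen V ∧ f z ∈ U ∧ f w ∈ V ∧ Disjoint U V := by
  have hzw : z ≠ w := fun hh => h (by rw [hh])
  obtain ⟨U, V, hU, hV, hzU, hwV, hUV⟩ := t2_separation hzw
  refine ⟨f '' U, f '' V, hf.isOpenMap _ hU, hf.isOpenMap _ hV, ⟨z, hzU, rfl⟩, ⟨w, hwV, rfl⟩, ?_⟩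
  exact (disjoint_image_iff hf.injective).2 hUV

lemma snd_not_mem {α : S.A} {q : ℝ × ℝ} (hq : ∀ i p, e S α i p ≠ q) (i : ℕ) (η : ℝ) :
    E i η ≠ q.2 := by
  intro h
  refine hq i (q.1 + S.x α i * η, η) ?_
  unfold e
  simp only [add_sub_cancel_right]
  rw [h]

lemma sep_strip (α β : S.A) (hαβ : α ≠ β) (i j : ℕ) (z w : ℝ × ℝ)
    (hz : ∀ i p, e S α i p ≠ z) :
    ∃ N N' : Set (ℝ × ℝ), IsOpen N ∧ IsOpen N' ∧ z ∈ N ∧ w ∈ N' ∧
      ∀ p, ¬ (e S α i p ∈ N ∧ e S β j p ∈ N') := by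
  have hc : 0 < |S.x α i - S.x β j| := abs_pos.2 (sub_ne_zero.2 (S.x_ne α β i j hαβ))
  set c := |S.x α i - S.x β j| with hcdef
  set K := (|z.1 - w.1| + 2) / c with hK
  refine ⟨{u | |u.1 - z.1| < 1 ∧ u.2 ∉ E i '' Icc (-K) K}, {u | |u.1 - w.1| < 1}, ?_, ?_, ?_, ?_, ?_⟩
  · have h1 : IsOpen {u : ℝ × ℝ | |u.1 - z.1| < 1} :=
      isOpen_lt (by fun_prop) continuous_const
    have h2 : IsClosed (E i '' Icc (-K) K) :=
      (isCompact_Icc.image (E_emb i).continuous).isClosed
    have h3 : IsOpen {u : ℝ × ℝ | u.2 ∉ E i '' Icc (-K) K} :=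
      h2.isOpen_compl.preimage continuous_snd
    exact h1.inter h3
  · exact isOpen_lt (by fun_prop) continuous_const
  · refine ⟨by simp, ?_⟩
    rintro ⟨η, _, h⟩
    exact snd_not_mem S hz i η h
  · simp
  · rintro ⟨σ, η⟩ ⟨⟨h1, h2⟩, h3⟩
    simp only [e, mem_ofPred_eq] at h1 h2 h3
    have h4 : K < |η| := by
      by_contra h
      push Not at h
      exact h2 ⟨η, abs_le.1 h, rfl⟩
    have h5 : |(S.x α i - S.x β j) * η| < |z.1 - w.1| + 2 := by
      have : (S.x α i - S.x β j) * η =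
          -(z.1 - w.1) + (-(σ - S.x α i * η - z.1) + (σ - S.x β j * η - w.1)) := by ring
      rw [this]
      calc |-(z.1 - w.1) + (-(σ - S.x α i * η - z.1) + (σ - S.x β j * η - w.1))|
          ≤ |-(z.1 - w.1)| + |(-(σ - S.x α i * η - z.1) + (σ - S.x β j * η - w.1))| :=
            abs_add_le _ _
        _ = |z.1 - w.1| + |(-(σ - S.x α i * η - z.1) + (σ - S.x β j * η - w.1))| := by
            rw [abs_neg (z.1 - w.1)]
        _ ≤ |z.1 - w.1| + (|-(σ - S.x α i * η - z.1)| + |(σ - S.x β j * η - w.1)|) := by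
            gcongr; exact abs_add_le _ _
        _ < |z.1 - w.1| + 2 := by rw [abs_neg]; linarith
    rw [abs_mul, ← hcdef] at h5
    rw [hK, div_lt_iff₀ hc] at h4
    linarith

lemma range_disj (α : S.A) (d : ℝ) (hd : ∀ i, S.a α i ≠ d) (q : ℝ × ℝ) (p : ℝ × ℝ) :
    ch S α q ≠ hh S d p := by
  intro h
  rcases ch_cases S α q with ⟨i, p', rfl⟩ | hq
  · rw [ch_e] at h
    injection h with h1
    exact hd i h1
  · rw [ch_P S α q hq] at h
    cases h

lemma sep_P (α : S.A) (z : ℝ × ℝ) (hz : ∀ i p, e S α i p ≠ z) (y : M S) (h : M.P α z hz ≠ y) :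
    ∃ U V : Set (M S), IsOpen U ∧ IsOpen V ∧ M.P α z hz ∈ U ∧ y ∈ V ∧ Disjoint U V := by
  by_cases hy : ∃ w, ch S α w = y
  · obtain ⟨w, rfl⟩ := hy
    rw [← ch_P S α z hz] at h ⊢
    exact sep_in_chart S (ch S α) (ch_emb S α) z w h
  · push Not at hy
    cases y with
    | H d p =>
      have hd : ∀ i, S.a α i ≠ d := by
        rintro i rfl
        exact hy _ (ch_e S α i p)
      refine ⟨range (ch S α), range (hh S d), (ch_emb S α).isOpen_range,
        (hh_emb S d).isOpen_range, ⟨z, ch_P S α z hz⟩, ⟨p, rfl⟩, ?_⟩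
      rw [Set.disjoint_left]
      rintro _ ⟨q, rfl⟩ ⟨p', hp'⟩
      exact range_disj S α d hd q p' hp'.symm
    | P β w hw =>
      have hαβ : α ≠ β := by
        rintro rfl
        exact hy w (ch_P S α w hw)
      have hfin := S.a_ad α β hαβ
      have hN : ∀ i j, ∃ N N' : Set (ℝ × ℝ), IsOpen N ∧ IsOpen N' ∧ z ∈ N ∧ w ∈ N' ∧
        ∀ p, ¬ (e S α i p ∈ N ∧ e S β j p ∈ N') := fun i j => sep_strip S α β hαβ i j z w hz
      choose N N' hN1 hN2 hN3 hN4 hN5 using hN
      -- the matching index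
      have hj : ∀ i ∈ {i | ∃ j, S.a α i = S.a β j}, ∃ j, S.a α i = S.a β j := fun i hi => hi
      choose! J hJ using hj
      refine ⟨ch S α '' (⋂ i ∈ {i | ∃ j, S.a α i = S.a β j}, N i (J i)),
        ch S β '' (⋂ i ∈ {i | ∃ j, S.a α i = S.a β j}, N' i (J i)), ?_, ?_, ?_, ?_, ?_⟩
      · exact (ch_emb S α).isOpenMap _ (hfin.isOpen_biInter fun i _ => hN1 i (J i))
      · exact (ch_emb S β).isOpenMap _ (hfin.isOpen_biInter fun i _ => hN2 i (J i))
      · exact ⟨z, mem_iInter₂.2 fun i _ => hN3 i (J i), ch_P S α z hz⟩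
      · exact ⟨w, mem_iInter₂.2 fun i _ => hN4 i (J i), ch_P S β w hw⟩
      · rw [Set.disjoint_left]
        rintro _ ⟨u, hu, rfl⟩ ⟨v, hv, huv⟩
        rcases ch_cases S α u with ⟨i, p, rfl⟩ | hu'
        · rcases ch_cases S β v with ⟨j, p', rfl⟩ | hv'
          · rw [ch_e, ch_e] at huv
            injection huv with h1 h2
            have hi : i ∈ {i | ∃ j, S.a α i = S.a β j} := ⟨j, h1.symm⟩
            have h3 : J i = j := S.a_inj β ((hJ i hi).symm.trans h1.symm)
            subst h2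
            refine hN5 i (J i) p' ⟨mem_iInter₂.1 hu i hi, ?_⟩
            have := mem_iInter₂.1 hv i hi
            rw [h3] at this ⊢
            exact this
          · rw [ch_e, ch_P S β v hv'] at huv
            cases huv
        · rw [ch_P S α u hu'] at huv
          rcases ch_cases S β v with ⟨j, p', rfl⟩ | hv'
          · rw [ch_e] at huv; cases huv
          · rw [ch_P S β v hv'] at huv
            injection huv with h1
            exact hαβ h1.symm

instance t2 : T2Space (M S) := by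
  refine ⟨fun x y hxy => ?_⟩
  cases x with
  | P α z hz =>
    obtain ⟨U, V, h1, h2, h3, h4, h5⟩ := sep_P S α z hz y hxy
    exact ⟨U, V, h1, h2, h3, h4, h5⟩
  | H d p =>
    cases y with
    | P α z hz =>
      obtain ⟨U, V, h1, h2, h3, h4, h5⟩ := sep_P S α z hz _ hxy.symm
      exact ⟨V, U, h2, h1, h4, h3, h5.symm⟩
    | H d' p' =>
      by_cases hd : d = d'
      · subst hd
        exact sep_in_chart S (hh S d) (hh_emb S d) p p' hxy
      · refine ⟨range (hh S d), range (hh S d'), (hh_emb S d).isOpen_range,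
          (hh_emb S d').isOpen_range, ⟨p, rfl⟩, ⟨p', rfl⟩, ?_⟩
        rw [Set.disjoint_left]
        rintro _ ⟨q, rfl⟩ ⟨q', hq'⟩
        injection hq' with h1
        exact hd h1.symm

/-- Small neighbourhoods of special points. -/
def Good (n : ℕ) (α : S.A) (N : Set (ℝ × ℝ)) : Prop :=
  IsOpen N ∧ (∀ z ∈ N, ∀ w ∈ N, dist z w < 2 / ((n : ℝ) + 1)) ∧
  (((∀ i p, e S α i p ∈ N → n ≤ i) ∧
    (∀ i j p q, e S α i p ∈ N → e S α j q ∈ N → |S.a α i - S.a α j| < 1 / ((n : ℝ) + 1))) ∨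
   ((∀ i p, e S α i p ∈ N → (n : ℝ) < |p.2|) ∧
    (∀ i j p q, e S α i p ∈ N → e S α j q ∈ N → i = j)))

lemma exists_good (n : ℕ) (α : S.A) (z : ℝ × ℝ) (hz : ∀ i p, e S α i p ≠ z) :
    ∃ N, z ∈ N ∧ Good S n α N := by
  have hn : (0 : ℝ) < 1 / ((n : ℝ) + 1) := by positivity
  have hball : ∀ u ∈ Metric.ball z (1 / ((n : ℝ) + 1)), ∀ w ∈ Metric.ball z (1 / ((n : ℝ) + 1)),
      dist u w < 2 / ((n : ℝ) + 1) := by
    intro u hu w hw
    rw [Metric.mem_ball] at hu hw
    calc dist u w ≤ dist u z + dist w z := dist_triangle_right _ _ _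
      _ < 1 / ((n : ℝ) + 1) + 1 / ((n : ℝ) + 1) := add_lt_add hu hw
      _ = 2 / ((n : ℝ) + 1) := by ring
  by_cases ht : z.2 ≤ 0
  · -- near the limit line
    obtain ⟨m, hm⟩ := Metric.cauchySeq_iff.1 (S.a_cauchy α) (1 / ((n : ℝ) + 1)) hn
    set m' := max m n with hm'
    refine ⟨Metric.ball z (1 / ((n : ℝ) + 1)) ∩ {u | u.2 < 3 / 4 * cc m'}, ⟨?_, ?_⟩, ?_, ?_, Or.inl ⟨?_, ?_⟩⟩
    · exact Metric.mem_ball_self hn
    · have := cc_pos m'
      show z.2 < 3 / 4 * cc m'
      linarith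
    · exact Metric.isOpen_ball.inter (isOpen_lt continuous_snd continuous_const)
    · intro u hu w hw
      exact hball u hu.1 w hw.1
    · intro i p hp
      have h1 : E i p.2 < 3 / 4 * cc m' := hp.2
      have h2 := lt_E i p.2
      by_contra hi
      push Not at hi
      have h3 : i ≤ m' := le_trans hi.le (le_max_right _ _)
      have := cc_anti h3
      linarith
    · intro i j p q hp hq
      have key : ∀ i p, e S α i p ∈ Metric.ball z (1 / ((n : ℝ) + 1)) ∩ {u | u.2 < 3 / 4 * cc m'} →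
          m ≤ i := by
        intro i p hp
        have h1 : E i p.2 < 3 / 4 * cc m' := hp.2
        have h2 := lt_E i p.2
        by_contra hi
        push Not at hi
        have h3 : i ≤ m' := le_trans hi.le (le_max_left _ _)
        have := cc_anti h3
        linarith
      have := hm i (key i p hp) j (key j q hq)
      rwa [Real.dist_eq] at this
  · push Not at ht
    -- the window
    set I : Set ℝ := Ioo (10 / 11 * z.2) (12 / 11 * z.2) with hI
    have huniq : ∀ i j η ξ, E i η ∈ I → E j ξ ∈ I → i = j := by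
      intro i j η ξ h1 h2
      rcases lt_trichotomy i j with hij | hij | hij
      · have := E_ratio hij η ξ
        have h3 := h1.2
        have h4 := h2.1
        linarith
      · exact hij
      · have := E_ratio hij ξ η
        have h3 := h1.1
        have h4 := h2.2
        linarith
    have hzI : z.2 ∈ I := ⟨by linarith, by linarith⟩
    have hopen : ∃ J : Set ℝ, IsOpen J ∧ J ⊆ I ∧ z.2 ∈ J ∧ ∀ i η, E i η ∈ J → (n : ℝ) < |η| := by
      by_cases hex : ∃ i η, E i η ∈ I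
      · obtain ⟨i, η, hi⟩ := hex
        refine ⟨I \ E i '' Icc (-(n : ℝ)) n, ?_, sdiff_subset, ⟨hzI, ?_⟩, ?_⟩
        · have h2 : IsClosed (E i '' Icc (-(n : ℝ)) n) :=
            (isCompact_Icc.image (E_emb i).continuous).isClosed
          exact isOpen_Ioo.sdiff h2
        · rintro ⟨ξ, _, h⟩
          exact snd_not_mem S hz i ξ h
        · rintro j ξ ⟨h1, h2⟩
          obtain rfl := huniq i j η ξ hi h1
          by_contra h
          push Not at h
          exact h2 ⟨ξ, abs_le.1 h, rfl⟩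
      · push Not at hex
        exact ⟨I, isOpen_Ioo, subset_rfl, hzI, fun i η h => absurd h (hex i η)⟩
    obtain ⟨J, hJ1, hJ2, hJ3, hJ4⟩ := hopen
    refine ⟨Metric.ball z (1 / ((n : ℝ) + 1)) ∩ {u | u.2 ∈ J}, ⟨?_, ?_⟩, ?_, ?_, Or.inr ⟨?_, ?_⟩⟩
    · exact Metric.mem_ball_self hn
    · exact hJ3
    · exact Metric.isOpen_ball.inter (hJ1.preimage continuous_snd)
    · intro u hu w hw
      exact hball u hu.1 w hw.1
    · intro i p hp
      exact hJ4 i p.2 hp.2
    · intro i j p q hp hq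
      exact huniq i j p.2 q.2 (hJ2 hp.2) (hJ2 hq.2)

/-- The open covers witnessing that the diagonal is a `G_δ` set. -/
def GG (n : ℕ) : Set (Set (M S)) :=
  {V | (∃ d p, V = hh S d '' Metric.ball p (1 / ((n : ℝ) + 1))) ∨
    ∃ α N, Good S n α N ∧ V = ch S α '' N}

lemma gdelta_of_covers {X : Type} [TopologicalSpace X] (G : ℕ → Set (Set X))
    (ho : ∀ n, ∀ V ∈ G n, IsOpen V) (hc : ∀ n x, ∃ V ∈ G n, x ∈ V)
    (hs : ∀ x y, x ≠ y → ∃ n, ∀ V ∈ G n, x ∈ V → y ∉ V) : IsGδ (diagonal X) := by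
  have h : diagonal X = ⋂ n, ⋃ V ∈ G n, V ×ˢ V := by
    ext ⟨x, y⟩
    simp only [mem_diagonal_iff, mem_iInter, mem_iUnion, mem_prod, exists_prop]
    constructor
    · rintro rfl n
      obtain ⟨V, hV, hx⟩ := hc n x
      exact ⟨V, hV, hx, hx⟩
    · intro h
      by_contra hxy
      obtain ⟨n, hn⟩ := hs x y hxy
      obtain ⟨V, hV, hx, hy⟩ := h n
      exact hn V hV hx hy
  rw [h]
  refine IsGδ.iInter fun n => IsOpen.isGδ ?_
  exact isOpen_biUnion fun V hV => (ho n V hV).prod (ho n V hV)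

lemma GG_open (n : ℕ) (V : Set (M S)) (hV : V ∈ GG S n) : IsOpen V := by
  rcases hV with ⟨d, p, rfl⟩ | ⟨α, N, hN, rfl⟩
  · exact (hh_emb S d).isOpenMap _ Metric.isOpen_ball
  · exact (ch_emb S α).isOpenMap _ hN.1

lemma GG_cover (n : ℕ) (x : M S) : ∃ V ∈ GG S n, x ∈ V := by
  cases x with
  | H d p =>
    exact ⟨_, Or.inl ⟨d, p, rfl⟩, p, Metric.mem_ball_self (by positivity), rfl⟩
  | P α z hz =>
    obtain ⟨N, h1, h2⟩ := exists_good S n α z hz
    exact ⟨_, Or.inr ⟨α, N, h2, rfl⟩, z, h1, ch_P S α z hz⟩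

/-- If `V ∈ GG n` contains a special point, it is a good set of the same index. -/
lemma GG_P (n : ℕ) (α : S.A) (z : ℝ × ℝ) (hz : ∀ i p, e S α i p ≠ z) (V : Set (M S))
    (hV : V ∈ GG S n) (h : M.P α z hz ∈ V) : ∃ N, Good S n α N ∧ z ∈ N ∧ V = ch S α '' N := by
  rcases hV with ⟨d, p, rfl⟩ | ⟨β, N, hN, rfl⟩
  · obtain ⟨q, _, hq⟩ := h
    cases hq
  · obtain ⟨q, hq, h1⟩ := h
    rcases ch_cases S β q with ⟨i, p, rfl⟩ | hq'
    · rw [ch_e] at h1; cases h1
    · rw [ch_P S β q hq'] at h1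
      injection h1 with h2 h3
      subst h2
      subst h3
      exact ⟨N, hN, hq, rfl⟩

lemma exists_nat_lt {ε : ℝ} (hε : 0 < ε) : ∃ n₀ : ℕ, ∀ n : ℕ, n₀ ≤ n → 2 / ((n : ℝ) + 1) < ε := by
  obtain ⟨n₀, hn₀⟩ := exists_nat_gt (2 / ε)
  refine ⟨n₀, fun n hn => ?_⟩
  have h1 : (n₀ : ℝ) ≤ n := by exact_mod_cast hn
  rw [div_lt_iff₀ hε] at hn₀
  rw [div_lt_iff₀ (by positivity)]
  nlinarith

lemma GG_sep_P (α : S.A) (z : ℝ × ℝ) (hz : ∀ i p, e S α i p ≠ z) (y : M S)
    (h : M.P α z hz ≠ y) : ∃ n, ∀ V ∈ GG S n, M.P α z hz ∈ V → y ∉ V := by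
  by_cases hy : ∃ w, ch S α w = y
  · obtain ⟨w, rfl⟩ := hy
    have hzw : z ≠ w := by
      rintro rfl
      exact h (ch_P S α z hz).symm
    obtain ⟨n, hn⟩ := exists_nat_lt (dist_pos.2 hzw)
    refine ⟨n, fun V hV h1 h2 => ?_⟩
    obtain ⟨N, hN, hzN, rfl⟩ := GG_P S n α z hz V hV h1
    obtain ⟨w', hw', h3⟩ := h2
    rw [ch_injective S α h3] at hw'
    have := hN.2.1 z hzN w hw'
    exact absurd (hn n le_rfl) (not_lt.2 this.le)
  · refine ⟨0, fun V hV h1 h2 => ?_⟩
    obtain ⟨N, hN, hzN, rfl⟩ := GG_P S 0 α z hz V hV h1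
    obtain ⟨w', hw', h3⟩ := h2
    exact hy ⟨w', h3⟩

/-- If `ch α '' N` contains a point `H d p`, then `d` is a term of the sequence. -/
lemma mem_image_H {α : S.A} {N : Set (ℝ × ℝ)} {d : ℝ} {p : ℝ × ℝ}
    (h : (M.H d p : M S) ∈ ch S α '' N) : ∃ i, S.a α i = d ∧ e S α i p ∈ N := by
  obtain ⟨q, hq, h1⟩ := h
  rcases ch_cases S α q with ⟨i, p', rfl⟩ | hq'
  · rw [ch_e] at h1
    injection h1 with h2 h3
    subst h3
    exact ⟨i, h2, hq⟩
  · rw [ch_P S α q hq'] at h1; cases h1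

lemma GG_sep_H (d d' : ℝ) (p p' : ℝ × ℝ) (h : (M.H d p : M S) ≠ M.H d' p') :
    ∃ n, ∀ V ∈ GG S n, (M.H d p : M S) ∈ V → M.H d' p' ∉ V := by
  by_cases hd : d = d'
  · subst hd
    have hp : p ≠ p' := by
      rintro rfl
      exact h rfl
    -- choose n large
    obtain ⟨n₁, hn₁⟩ := exists_nat_lt (dist_pos.2 hp)
    obtain ⟨n₂, hn₂⟩ := exists_nat_gt |p.2|
    -- a large index for the shear
    have hn₃ : ∃ n₃ : ℕ, ∀ n : ℕ, n₃ ≤ n → ∀ x : ℝ, (n : ℝ) ≤ x →
        2 / ((n : ℝ) + 1) ≤ |(p.1 - x * p.2) - (p'.1 - x * p'.2)| := by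
      by_cases h2 : p.2 = p'.2
      · have h1 : p.1 ≠ p'.1 := fun h1 => hp (Prod.ext h1 h2)
        obtain ⟨n₃, hn₃⟩ := exists_nat_lt (abs_pos.2 (sub_ne_zero.2 h1))
        refine ⟨n₃, fun n hn x _ => ?_⟩
        rw [h2]
        have : p.1 - x * p'.2 - (p'.1 - x * p'.2) = p.1 - p'.1 := by ring
        rw [this]
        exact (hn₃ n hn).le
      · have h3 : 0 < |p.2 - p'.2| := abs_pos.2 (sub_ne_zero.2 h2)
        obtain ⟨n₃, hn₃⟩ := exists_nat_gt ((|p.1 - p'.1| + 2) / |p.2 - p'.2|)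
        refine ⟨n₃, fun n hn x hx => ?_⟩
        have h4 : (n₃ : ℝ) ≤ x := le_trans (by exact_mod_cast hn) hx
        have h5 : |p.1 - p'.1| + 2 < x * |p.2 - p'.2| := by
          rw [div_lt_iff₀ h3] at hn₃
          nlinarith
        have h6 : 0 ≤ x := le_trans (by positivity) hx
        have h7 : |x * (p.2 - p'.2)| = x * |p.2 - p'.2| := by rw [abs_mul, abs_of_nonneg h6]
        have h8 : |x * (p.2 - p'.2)| - |p.1 - p'.1| ≤ |x * (p.2 - p'.2) - (p.1 - p'.1)| :=
          abs_sub_abs_le_abs_sub _ _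
        have h9 : |(p.1 - x * p.2) - (p'.1 - x * p'.2)| = |x * (p.2 - p'.2) - (p.1 - p'.1)| := by
          rw [← abs_neg]; congr 1; ring
        have h10 : 2 / ((n : ℝ) + 1) ≤ 2 := by
          rw [div_le_iff₀ (by positivity)]
          have : (0 : ℝ) ≤ n := by positivity
          linarith
        rw [h9]
        linarith
    obtain ⟨n₃, hn₃⟩ := hn₃
    refine ⟨max n₁ (max n₂ n₃), fun V hV h1 h2 => ?_⟩
    set n := max n₁ (max n₂ n₃) with hn
    have hle1 : n₁ ≤ n := le_max_left _ _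
    have hle2 : n₂ ≤ n := le_trans (le_max_left _ _) (le_max_right _ _)
    have hle3 : n₃ ≤ n := le_trans (le_max_right _ _) (le_max_right _ _)
    rcases hV with ⟨d', q, rfl⟩ | ⟨α, N, hN, rfl⟩
    · obtain ⟨u, hu, hu'⟩ := h1
      obtain ⟨v, hv, hv'⟩ := h2
      injection hu' with h3 h4
      injection hv' with h5 h6
      subst h4
      subst h6
      rw [Metric.mem_ball] at hu hv
      have h7 : dist u v < 2 / ((n : ℝ) + 1) := by
        calc dist u v ≤ dist u q + dist v q := dist_triangle_right _ _ _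
          _ < 1 / ((n : ℝ) + 1) + 1 / ((n : ℝ) + 1) := add_lt_add hu hv
          _ = 2 / ((n : ℝ) + 1) := by ring
      exact absurd (hn₁ n hle1) (not_lt.2 h7.le)
    · obtain ⟨i, hi, h3⟩ := mem_image_H S h1
      obtain ⟨j, hj, h4⟩ := mem_image_H S h2
      have hij : i = j := S.a_inj α (hi.trans hj.symm)
      subst hij
      rcases hN.2.2 with ⟨h5, _⟩ | ⟨h5, _⟩
      · have h6 : (n : ℝ) ≤ S.x α i := le_trans (by exact_mod_cast h5 i p h3) (S.x_ge α i)
        have h7 := hn₃ n hle3 (S.x α i) h6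
        have h8 := hN.2.1 _ h3 _ h4
        have h9 : |(p.1 - S.x α i * p.2) - (p'.1 - S.x α i * p'.2)| ≤
            dist (e S α i p) (e S α i p') := by
          rw [Prod.dist_eq, ← Real.dist_eq]
          exact le_max_left _ _
        linarith
      · have h6 := h5 i p h3
        have h7 : (n₂ : ℝ) ≤ n := by exact_mod_cast hle2
        linarith
  · obtain ⟨n, hn⟩ := exists_nat_lt (abs_pos.2 (sub_ne_zero.2 hd))
    refine ⟨n, fun V hV h1 h2 => ?_⟩
    rcases hV with ⟨d'', q, rfl⟩ | ⟨α, N, hN, rfl⟩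
    · obtain ⟨u, hu, hu'⟩ := h1
      obtain ⟨v, hv, hv'⟩ := h2
      injection hu' with h3 h4
      injection hv' with h5 h6
      exact hd (h3.symm.trans h5)
    · obtain ⟨i, hi, h3⟩ := mem_image_H S h1
      obtain ⟨j, hj, h4⟩ := mem_image_H S h2
      rcases hN.2.2 with ⟨_, h5⟩ | ⟨_, h5⟩
      · have h6 := h5 i j p p' h3 h4
        have h7 := hn n le_rfl
        rw [hi, hj] at h6
        have h8 : 1 / ((n : ℝ) + 1) ≤ 2 / ((n : ℝ) + 1) := by
          gcongr; norm_num
        linarith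
      · have h6 := h5 i j p p' h3 h4
        subst h6
        exact hd (hi.symm.trans hj)

lemma diag_gdelta : IsGδ (diagonal (M S)) := by
  refine gdelta_of_covers (GG S) (GG_open S) (GG_cover S) ?_
  intro x y hxy
  cases x with
  | P α z hz => exact GG_sep_P S α z hz y hxy
  | H d p =>
    cases y with
    | P α z hz =>
      obtain ⟨n, hn⟩ := GG_sep_P S α z hz _ hxy.symm
      exact ⟨n, fun V hV h1 h2 => hn V hV h2 h1⟩
    | H d' p' => exact GG_sep_H S d d' p p' hxy

lemma quasi_dev : ∃ G : ℕ → Set (Set (M S)),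
    (∀ k, ∀ V ∈ G k, IsOpen V) ∧
    ∀ x : M S, ∀ U : Set (M S), IsOpen U → x ∈ U →
      ∃ k, (∃ V ∈ G k, x ∈ V) ∧ ∀ V ∈ G k, x ∈ V → V ⊆ U := by
  obtain ⟨b, hbc, -, hb⟩ := TopologicalSpace.exists_countable_basis (ℝ × ℝ)
  have hbne : b.Nonempty := by
    by_contra h
    rw [Set.not_nonempty_iff_eq_empty] at h
    have := hb.sUnion_eq
    rw [h, sUnion_empty] at this
    exact (Set.univ_nonempty (α := ℝ × ℝ)).ne_empty this.symm
  obtain ⟨B, hB⟩ := hbc.exists_eq_range hbne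
  have hBo : ∀ n, IsOpen (B n) := fun n => hb.isOpen (by rw [hB]; exact ⟨n, rfl⟩)
  have hBn : ∀ (z : ℝ × ℝ) (O : Set (ℝ × ℝ)), IsOpen O → z ∈ O → ∃ n, z ∈ B n ∧ B n ⊆ O := by
    intro z O hO hz
    obtain ⟨V, hV, h1, h2⟩ := hb.exists_subset_of_mem_open hz hO
    rw [hB] at hV
    obtain ⟨n, rfl⟩ := hV
    exact ⟨n, h1, h2⟩
  refine ⟨fun k => if k % 2 = 0 then {V | ∃ d, V = hh S d '' B (k / 2)} else
    {V | ∃ α, V = ch S α '' B (k / 2)}, ?_, ?_⟩
  · intro k V hV
    dsimp only at hV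
    split_ifs at hV with hk
    · obtain ⟨d, rfl⟩ := hV
      exact (hh_emb S d).isOpenMap _ (hBo _)
    · obtain ⟨α, rfl⟩ := hV
      exact (ch_emb S α).isOpenMap _ (hBo _)
  · intro x U hU hx
    cases x with
    | H d p =>
      obtain ⟨n, h1, h2⟩ := hBn p (hh S d ⁻¹' U) (hU.preimage (hh_emb S d).continuous) hx
      refine ⟨2 * n, ?_⟩
      have h3 : 2 * n % 2 = 0 := by omega
      have h4 : 2 * n / 2 = n := by omega
      simp only [h3, if_true, h4]
      refine ⟨⟨_, ⟨d, rfl⟩, p, h1, rfl⟩, ?_⟩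
      rintro V ⟨d', rfl⟩ ⟨q, hq, hq'⟩
      injection hq' with h5 h6
      subst h5
      rintro _ ⟨u, hu, rfl⟩
      exact h2 hu
    | P α z hz =>
      rw [← ch_P S α z hz] at hx
      obtain ⟨n, h1, h2⟩ := hBn z (ch S α ⁻¹' U) (hU.preimage (ch_emb S α).continuous) hx
      refine ⟨2 * n + 1, ?_⟩
      have h3 : ¬ ((2 * n + 1) % 2 = 0) := by omega
      have h4 : (2 * n + 1) / 2 = n := by omega
      simp only [h3, if_false, h4]
      refine ⟨⟨_, ⟨α, rfl⟩, z, h1, ch_P S α z hz⟩, ?_⟩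
      rintro V ⟨β, rfl⟩ ⟨q, hq, hq'⟩
      rcases ch_cases S β q with ⟨i, p, rfl⟩ | hq2
      · rw [ch_e] at hq'; cases hq'
      · rw [ch_P S β q hq2] at hq'
        injection hq' with h5 h6
        subst h5
        rintro _ ⟨u, hu, rfl⟩
        exact h2 hu

lemma not_dev : ¬ (∃ G : ℕ → Set (Set (M S)),
    (∀ k, ∀ V ∈ G k, IsOpen V) ∧
    (∀ k, ⋃₀ G k = Set.univ) ∧
    ∀ x : M S, ∀ U : Set (M S), IsOpen U → x ∈ U →
      ∃ k, ∀ V ∈ G k, x ∈ V → V ⊆ U) := by
  rintro ⟨G, hGo, hGc, hG⟩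
  have h1 : ∀ d : ℝ, ∃ k, ∀ V ∈ G k, hh S d (0, 0) ∈ V → V ⊆ range (hh S d) := fun d =>
    hG _ _ (hh_emb S d).isOpen_range ⟨_, rfl⟩
  choose h hh' using h1
  obtain ⟨α, k, hk⟩ := S.a_max h
  -- the limit point
  have hz : ∀ i p, e S α i p ≠ ((0, 0) : ℝ × ℝ) := by
    intro i p hp
    have h2 := congrArg Prod.snd hp
    have h3 := lt_E i p.2
    have h4 := cc_pos i
    simp only [e] at h2
    linarith
  have hcov : (M.P α (0, 0) hz : M S) ∈ ⋃₀ G k := by rw [hGc k]; trivial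
  obtain ⟨V, hV, hzV⟩ := hcov
  have ht : Tendsto (fun i => (hh S (S.a α i) (0, 0) : M S)) atTop (𝓝 (M.P α (0, 0) hz)) := by
    have h2 : Tendsto (fun i => e S α i (0, 0)) atTop (𝓝 ((0, 0) : ℝ × ℝ)) := by
      have h3 : (fun i => e S α i (0, 0)) = fun i => ((0 : ℝ), cc i) := by
        funext i
        simp [e, E_zero]
      rw [h3]
      exact (tendsto_const_nhds).prodMk_nhds cc_tendsto
    have h4 := ((ch_emb S α).continuous.tendsto (0, 0)).comp h2
    rw [ch_P S α (0, 0) hz] at h4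
    refine h4.congr fun i => ?_
    exact ch_e S α i (0, 0)
  have hev := ht.eventually ((hGo k V hV).mem_nhds hzV)
  obtain ⟨i, hi1, hi2⟩ := (hk.and_eventually hev).exists
  have h5 := hh' (S.a α i) V (by rw [hi1]; exact hV) hi2
  obtain ⟨q, hq⟩ := h5 hzV
  cases hq

/-- Injective Cauchy sequences with pairwise finite intersections. -/
def AD (F : Set (ℕ → ℝ)) : Prop :=
  (∀ a ∈ F, Function.Injective a ∧ CauchySeq a) ∧
  F.Pairwise (fun a b => {i | ∃ j, a i = b j}.Finite)

lemma exists_max : ∃ F : Set (ℕ → ℝ), AD F ∧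
    ∀ h : ℝ → ℕ, ∃ a ∈ F, ∃ k, ∃ᶠ i in atTop, h (a i) = k := by
  obtain ⟨F, hF⟩ := zorn_subset {F : Set (ℕ → ℝ) | AD F} (by
    intro c hc hchain
    refine ⟨⋃₀ c, ⟨?_, ?_⟩, fun s hs => subset_sUnion_of_mem hs⟩
    · rintro a ⟨s, hs, ha⟩
      exact (hc hs).1 a ha
    · exact (pairwise_sUnion hchain.directedOn).2 fun s hs => (hc hs).2)
  refine ⟨F, hF.prop, fun h => ?_⟩
  -- an infinite fibre in the unit interval
  have h1 : ∃ k, (h ⁻¹' {k} ∩ Icc (0 : ℝ) 1).Infinite := by
    by_contra hcon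
    push Not at hcon
    have h2 : (Icc (0 : ℝ) 1).Countable := by
      have : Icc (0 : ℝ) 1 = ⋃ k, (h ⁻¹' {k} ∩ Icc (0 : ℝ) 1) := by
        ext t; simp
      rw [this]
      exact countable_iUnion fun k => (hcon k).countable
    have h3 := Cardinal.mk_Icc_real (zero_lt_one' ℝ)
    rw [← Cardinal.le_aleph0_iff_set_countable] at h2
    rw [h3] at h2
    exact absurd h2 (not_le.2 Cardinal.aleph0_lt_continuum)
  obtain ⟨k, hk⟩ := h1
  let f := hk.natEmbedding
  have hf : ∀ i, (f i : ℝ) ∈ Icc (0 : ℝ) 1 := fun i => (f i).2.2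
  obtain ⟨l, -, φ, hφ, hl⟩ := isCompact_Icc.tendsto_subseq hf
  let b : ℕ → ℝ := fun i => f (φ i)
  have hb1 : Function.Injective b := fun i j hij =>
    hφ.injective (f.injective (Subtype.ext hij))
  have hb2 : CauchySeq b := hl.cauchySeq
  have hb3 : ∀ i, h (b i) = k := fun i => (f (φ i)).2.1
  by_cases hbF : b ∈ F
  · exact ⟨b, hbF, k, (Eventually.of_forall hb3).frequently⟩
  · have hnot : ¬ AD (insert b F) := by
      intro hAD
      exact hbF (hF.le_of_ge hAD (subset_insert b F) (mem_insert b F))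
    have hnp : ¬ (insert b F).Pairwise (fun a b => {i | ∃ j, a i = b j}.Finite) := by
      intro hp
      refine hnot ⟨?_, hp⟩
      rintro a (rfl | ha)
      · exact ⟨hb1, hb2⟩
      · exact hF.prop.1 a ha
    rw [pairwise_insert] at hnp
    push Not at hnp
    obtain ⟨a, ha, hba, hh⟩ := hnp hF.prop.2
    refine ⟨a, ha, k, ?_⟩
    rw [Nat.frequently_atTop_iff_infinite]
    by_cases hfin : {i | ∃ j, b i = a j}.Finite
    · have h4 := hh hfin
      refine h4.mono ?_
      rintro i ⟨j, hj⟩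
      show h (a i) = k
      rw [hj]; exact hb3 j
    · have h5 : ∀ i ∈ {i | ∃ j, b i = a j}, ∃ j, b i = a j := fun i hi => hi
      choose! J hJ using h5
      have h6 : (J '' {i | ∃ j, b i = a j}).Infinite := by
        refine Set.Infinite.image ?_ hfin
        intro i hi i' hi' hii
        apply hb1
        rw [hJ i hi, hJ i' hi', hii]
      refine h6.mono ?_
      rintro _ ⟨i, hi, rfl⟩
      show h (a (J i)) = k
      rw [← hJ i hi]; exact hb3 i

lemma exists_data : Nonempty Data := by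
  obtain ⟨F, hF, hmax⟩ := exists_max
  have hcard : Cardinal.mk (ℕ → ℝ) = Cardinal.mk (Ioo (0 : ℝ) 1) := by
    rw [Cardinal.mk_Ioo_real zero_lt_one, ← Cardinal.power_def, Cardinal.mk_real,
      Cardinal.mk_nat, Cardinal.continuum_power_aleph0]
  obtain ⟨y⟩ := Cardinal.eq.1 hcard
  refine ⟨{
    A := F
    a := fun α => α.1
    x := fun α i => i + (y α.1 : ℝ)
    a_inj := fun α => (hF.1 α.1 α.2).1
    a_cauchy := fun α => (hF.1 α.1 α.2).2
    a_ad := fun α β hαβ => hF.2 α.2 β.2 (fun h => hαβ (Subtype.ext h))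
    a_max := ?_
    x_ge := ?_
    x_ne := ?_ }⟩
  · intro h
    obtain ⟨a, ha, k, hk⟩ := hmax h
    exact ⟨⟨a, ha⟩, k, hk⟩
  · intro α i
    have := (y α.1).2.1
    linarith
  · intro α β i j hαβ h
    have h1 := (y α.1).2
    have h2 := (y β.1).2
    rcases lt_trichotomy i j with hij | hij | hij
    · have : (i : ℝ) + 1 ≤ j := by exact_mod_cast hij
      linarith [h1.1, h1.2, h2.1, h2.2]
    · subst hij
      have h3 : (y α.1 : ℝ) = y β.1 := by linarith
      have h4 := y.injective (Subtype.ext h3)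
      exact hαβ (Subtype.ext h4)
    · have : (j : ℝ) + 1 ≤ i := by exact_mod_cast hij
      linarith [h1.1, h1.2, h2.1, h2.2]

/-- There is a Hausdorff locally Euclidean space whose diagonal is a G-delta set and which is quasi-developable (has a sequence of open families forming a quasi-development) but admits no development by a sequence of open covers. -/
theorem result :
    ∃ (X : Type) (_ : TopologicalSpace X) (_ : T2Space X) (n : ℕ)
      (_ : ChartedSpace (EuclideanSpace ℝ (Fin n)) X),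
      IsGδ (Set.diagonal X) ∧
      (∃ G : ℕ → Set (Set X),
        (∀ k, ∀ V ∈ G k, IsOpen V) ∧
        ∀ x : X, ∀ U : Set X, IsOpen U → x ∈ U →
          ∃ k, (∃ V ∈ G k, x ∈ V) ∧ ∀ V ∈ G k, x ∈ V → V ⊆ U) ∧
      ¬ (∃ G : ℕ → Set (Set X),
        (∀ k, ∀ V ∈ G k, IsOpen V) ∧
        (∀ k, ⋃₀ G k = Set.univ) ∧
        ∀ x : X, ∀ U : Set X, IsOpen U → x ∈ U →
          ∃ k, ∀ V ∈ G k, x ∈ V → V ⊆ U) := by
  obtain ⟨S⟩ := exists_data
  exact ⟨M S, top S, t2 S, 2, charted S, diag_gdelta S, quasi_dev S, not_dev S⟩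

end Pool.Agent.S09173
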