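import Pool.Statements.S09204
import Pool.Agent.IncSeq.Final
import Pool.Agent.IncSeq.Transfer
-- import your own Pool.Agent.* helpers here

set_option autoImplicit false
open Pool Pool.MP_fcdf0e_gt

namespace Pool.Agent.S09204

/-- The negation of the preceding statement: For every topological space: if each directed open cover has a covering refinement that is a countable union of families cushioned in the cover, then every open cover has a sequence of open refining covers with each point in finitely many members of one of them. -/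
theorem result :
    ¬ (∀ (X : Type) [TopologicalSpace X],
      (∀ 𝒰 : Set (Set X), (∀ U ∈ 𝒰, IsOpen U) → ⋃₀ 𝒰 = Set.univ →
          DirectedOn (· ⊆ ·) 𝒰 →
          ∃ 𝒩 : ℕ → Set (Set X), ⋃₀ (⋃ n, 𝒩 n) = Set.univ ∧
            ∀ n, ∃ Φ : Set X → Set X, (∀ N ∈ 𝒩 n, Φ N ∈ 𝒰) ∧
              ∀ 𝓜 ⊆ 𝒩 n, closure (⋃₀ 𝓜) ⊆ ⋃₀ (Φ '' 𝓜)) →
      (∀ 𝒰 : Set (Set X), (∀ U ∈ 𝒰, IsOpen U) → ⋃₀ 𝒰 = Set.univ →
          ∃ 𝒢 : ℕ → Set (Set X),
            (∀ n, (∀ G ∈ 𝒢 n, IsOpen G ∧ ∃ U ∈ 𝒰, G ⊆ U) ∧ ⋃₀ (𝒢 n) = Set.univ) ∧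
            ∀ x : X, ∃ n, {G | G ∈ 𝒢 n ∧ x ∈ G}.Finite)) := by
  intro h
  obtain ⟨G, hG, hfin⟩ := h Pool.Agent.IncSeq.X0 (fun U hU hc hd => by
    obtain ⟨R, hR, f, hf, hcl⟩ := Pool.Agent.IncSeq.X0_cushioned U hU hc hd
    exact ⟨fun _ => R, by rw [Set.iUnion_const]; exact hR, fun _ => ⟨f, hf, hcl⟩⟩)
    Pool.Agent.IncSeq.cov0 Pool.Agent.IncSeq.cov0_open Pool.Agent.IncSeq.cov0_cover
  exact Pool.Agent.IncSeq.X0_not_meta
    (Pool.Agent.IncSeq.pf_of_theta Pool.Agent.IncSeq.X0_covering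
      Pool.Agent.IncSeq.cov0 G hG hfin)

end Pool.Agent.S09204
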