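import Pool.Statements.S09207
import Pool.Agent.Helper754.Inf

set_option autoImplicit false
open Pool Pool.MP_fe23ac_gt

namespace Pool.Agent.S09207

/-- For sets of reals ordered by embeddability (E<F: E embeds in F, not conversely; E p F: E<F with nothing strictly between), there exist A,B,C and A_1,A_2,... with A p B p C, A p A_1 p A_2 p ..., and every A_n < C. -/
theorem result :
    ∀ (le lt p : Set ℝ → Set ℝ → Prop),
      (∀ E F : Set ℝ, le E F ↔ ∃ f : E → F, Topology.IsEmbedding f) →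
      (∀ E F : Set ℝ, lt E F ↔ le E F ∧ ¬ le F E) →
      (∀ E F : Set ℝ, p E F ↔ lt E F ∧ ¬ ∃ G : Set ℝ, lt E G ∧ lt G F) →
      ∃ (A B C : Set ℝ) (S : ℕ → Set ℝ),
        p A B ∧ p B C ∧ p A (S 0) ∧ (∀ n : ℕ, p (S n) (S (n + 1))) ∧
          ∀ n : ℕ, lt (S n) C := by
  intro le lt p hle hlt hp
  have h1 : ∀ E F, le E F ↔ Helper754.Le E F := fun E F => by
    rw [hle, Helper754.Le_iff]
  have h2 : ∀ E F, lt E F ↔ Helper754.Lt E F := fun E F => by
    rw [hlt, h1, h1]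
    exact Iff.rfl
  have h3 : ∀ E F, p E F ↔ Helper754.Pr E F := fun E F => by
    rw [hp]
    simp only [h2]
    exact Iff.rfl
  obtain ⟨A, B, C, S, a1, a2, a3, a4, a5⟩ := Helper754.main2
  exact ⟨A, B, C, S, (h3 _ _).2 a1, (h3 _ _).2 a2, (h3 _ _).2 a3,
    fun n => (h3 _ _).2 (a4 n), fun n => (h2 _ _).2 (a5 n)⟩

end Pool.Agent.S09207
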