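import Pool.Statements.S09217
import Pool.Agent.Helper520.Icd

set_option autoImplicit false
open Pool Pool.MP_ffad8e_gt

namespace Pool.Agent.S09217

/-- For separable metrizable X, some Polish space containing X has remainder of small inductive dimension ≤ n iff X is a union of n+1 subspaces, each having a Polish extension whose remainder has small inductive dimension ≤ 0. -/
theorem result :
    ∀ (ind : ℕ → (α : Type) → [TopologicalSpace α] → Prop),
      (∀ (α : Type) [TopologicalSpace α],
        (ind 0 α ↔ IsEmpty α) ∧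
        ∀ k : ℕ, (ind (k + 1) α ↔
          ∀ x : α, ∀ U ∈ nhds x, ∃ V : Set α,
            IsOpen V ∧ x ∈ V ∧ V ⊆ U ∧ ind k ↥(frontier V))) →
      ∀ (X : Type) [TopologicalSpace X] [TopologicalSpace.SeparableSpace X]
        [TopologicalSpace.MetrizableSpace X] (n : ℕ),
        ((∃ (Y : Type) (_ : TopologicalSpace Y), PolishSpace Y ∧
            ∃ f : X → Y, Topology.IsEmbedding f ∧ ind (n + 1) ↥(Set.range f)ᶜ) ↔
          ∃ A : Fin (n + 1) → Set X, (⋃ i, A i) = Set.univ ∧
            ∀ i, ∃ (Y : Type) (_ : TopologicalSpace Y), PolishSpace Y ∧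
              ∃ f : ↥(A i) → Y, Topology.IsEmbedding f ∧ ind 1 ↥(Set.range f)ᶜ) := by
  intro ind hind X _ _ _ n
  constructor
  · rintro ⟨Y, tY, hY, f, hf, hZ⟩
    exact Pool.Agent.Helper520.icd_forward (ind := ind) hind X n Y f hf hZ
  · rintro ⟨A, hA, h⟩
    exact Pool.Agent.Helper520.icd_backward (ind := ind) hind X n A hA h

end Pool.Agent.S09217
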