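import Pool.Statements.S09224
import Pool.Agent.Helper948.Dom.Final

set_option autoImplicit false
open Pool Pool.MP_018f72_lc

namespace Pool.Agent.S09224

/-- The negation of the preceding statement: For every group generated by finitely many elements: deciding, from a finite alphabet and finite forbidden patterns given by words, whether some coloring of the group avoids all patterns is computable iff the group has a free subgroup of finite index. -/
theorem result :
    ¬ (∀ (Γ : Type) [Group Γ] (n : ℕ) (s : Fin n → Γ),
      Subgroup.closure (Set.range s) = ⊤ →
      (ComputablePred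
          (fun I : ℕ × List (List (List (Fin n × Bool) × ℕ)) =>
            ∃ x : Γ → Fin I.1, ∀ g : Γ, ∀ P ∈ I.2,
              ¬ (∀ q ∈ P, ((x (g * FreeGroup.lift s (FreeGroup.mk q.1)) : Fin I.1) : ℕ) = q.2))
        ↔ ∃ H : Subgroup Γ, H.FiniteIndex ∧ IsFreeGroup H)) :=
  Pool.Agent.Helper948.Dom.final

end Pool.Agent.S09224
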