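import Pool.Statements.S09229
import Pool.Agent.Helper737.Final

set_option autoImplicit false
open Pool Pool.MP_064548_lc

namespace Pool.Agent.S09229

/-- For every finite field F there is an existentially definable relation α(f,g) over F[W,Z], with g an n-tuple from F[Z], such that every f has some g with α(f,g), and each g relates to only finitely many f. -/
theorem result :
    ∀ (F : Type) [Field F] [Fintype F],
      ∃ n m k : ℕ, ∃ P : Fin k → MvPolynomial (Option (Fin n ⊕ Fin m)) (MvPolynomial (Fin 2) F),
        (∀ f : MvPolynomial (Fin 2) F, ∃ g : Fin n → Polynomial F,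
          ∃ y : Fin m → MvPolynomial (Fin 2) F, ∀ j : Fin k,
            MvPolynomial.eval
              (fun i => Option.elim i f
                (Sum.elim (fun a => Polynomial.aeval (MvPolynomial.X 1 : MvPolynomial (Fin 2) F) (g a)) y))
              (P j) = 0) ∧
        (∀ g : Fin n → Polynomial F,
          {f : MvPolynomial (Fin 2) F | ∃ y : Fin m → MvPolynomial (Fin 2) F, ∀ j : Fin k,
            MvPolynomial.eval
              (fun i => Option.elim i f
                (Sum.elim (fun a => Polynomial.aeval (MvPolynomial.X 1 : MvPolynomial (Fin 2) F) (g a)) y))
              (P j) = 0}.Finite) := by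
  intro F _ _
  exact Pool.Agent.Helper737.FF.main F

end Pool.Agent.S09229
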