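import Pool.Statements.S09233

set_option autoImplicit false
open Pool Pool.MP_07717f_lc

namespace Pool.Agent.S09233

open Nat.Partrec (Code)

/-! ### The search and the orders -/

/-- Stage predicate of the diagonalisation. -/
def R (e s : ℕ) : Bool :=
  decide (Code.evaln s.unpair.2 (Denumerable.ofNat Code e)
      (Nat.pair e s.unpair.1.unpair.1) = some s.unpair.1.unpair.2) &&
  (decide (Code.evaln s.unpair.2 (Denumerable.ofNat Code e)
      (Nat.pair e s.unpair.1.unpair.2) = some s.unpair.1.unpair.1) &&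
  !decide (s.unpair.1.unpair.1 = s.unpair.1.unpair.2))

open Classical in
/-- The moduli. -/
noncomputable def m (e : ℕ) : ℕ :=
  if h : ∃ s, R e s = true then 2 * Nat.find h + 5 else 4

theorem m_pos (e : ℕ) : 0 < m e := by
  unfold m
  split_ifs <;> omega

instance (e : ℕ) : NeZero (m e) := ⟨(m_pos e).ne'⟩

instance (e : ℕ) : NeZero (2 ^ (e + 1)) := ⟨by positivity⟩

/-- The finite sets acted upon. -/
abbrev X (e : ℕ) : Type := ZMod (2 ^ (e + 1)) × ZMod (m e)

/-- The generator moving the position. -/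
noncomputable def tP (e : ℕ) : Equiv.Perm (X e) where
  toFun p := (p.1 + 1, p.2)
  invFun p := (p.1 - 1, p.2)
  left_inv p := by simp
  right_inv p := by simp

/-- The reflection at position zero. -/
noncomputable def aP (e : ℕ) : Equiv.Perm (X e) where
  toFun p := (p.1, if p.1 = 0 then -p.2 else p.2)
  invFun p := (p.1, if p.1 = 0 then -p.2 else p.2)
  left_inv p := by
    ext <;> simp only
    split_ifs <;> simp
  right_inv p := by
    ext <;> simp only
    split_ifs <;> simp

/-- The reflection at position `2 ^ e`. -/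
noncomputable def bP (e : ℕ) : Equiv.Perm (X e) where
  toFun p := (p.1, if p.1 = ((2 ^ e : ℕ) : ZMod (2 ^ (e + 1))) then 1 - p.2 else p.2)
  invFun p := (p.1, if p.1 = ((2 ^ e : ℕ) : ZMod (2 ^ (e + 1))) then 1 - p.2 else p.2)
  left_inv p := by
    ext <;> simp only
    split_ifs <;> simp
  right_inv p := by
    ext <;> simp only
    split_ifs <;> simp

/-- The images of the three generators. -/
noncomputable def gen (i : Fin 3) : ∀ e, Equiv.Perm (X e) :=
  fun e => if i = 0 then aP e else if i = 1 then bP e else tP e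

/-- The group, as the range of a homomorphism from the free group. -/
noncomputable def hom : FreeGroup (Fin 3) →* (∀ e, Equiv.Perm (X e)) := FreeGroup.lift gen

abbrev G : Type := hom.range

theorem G_fg : Group.FG G := by
  have : Group.FG (FreeGroup (Fin 3)) := inferInstance
  exact Group.fg_range hom

theorem G_rf (g : G) (hg : g ≠ 1) : ∃ H : Subgroup G, H.index ≠ 0 ∧ g ∉ H := by
  have h1 : ∃ e, (g : ∀ e, Equiv.Perm (X e)) e ≠ 1 := by
    by_contra hcon
    push Not at hcon
    apply hg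
    ext1
    funext e
    exact hcon e
  obtain ⟨e, he⟩ := h1
  let φ : G →* Equiv.Perm (X e) := (Pi.evalMonoidHom _ e).comp hom.range.subtype
  refine ⟨φ.ker, ?_, ?_⟩
  · rw [Subgroup.index_ker]
    exact Nat.card_pos.ne'
  · intro hmem
    exact he hmem

/-! ### Integer evaluation of words -/

/-- One letter acting on (n⁺, n⁻), (u⁺, u⁻). -/
def step (e : ℕ) (l : Fin 3 × Bool) (p : (ℕ × ℕ) × (ℕ × ℕ)) : (ℕ × ℕ) × (ℕ × ℕ) :=
  if l.1 = 0 then
    if p.1.1 % 2 ^ (e + 1) = p.1.2 % 2 ^ (e + 1) then (p.1, (p.2.2, p.2.1)) else p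
  else if l.1 = 1 then
    if p.1.1 % 2 ^ (e + 1) = (p.1.2 + 2 ^ e) % 2 ^ (e + 1) then (p.1, (p.2.2 + 1, p.2.1)) else p
  else if l.2 = true then ((p.1.1 + 1, p.1.2), p.2)
  else ((p.1.1, p.1.2 + 1), p.2)

/-- Evaluation of a word. -/
def ev (e : ℕ) (w : List (Fin 3 × Bool)) (p : (ℕ × ℕ) × (ℕ × ℕ)) : (ℕ × ℕ) × (ℕ × ℕ) :=
  w.foldr (fun l q => step e l q) p

/-- Reduction to the finite set. -/
noncomputable def red (e : ℕ) (p : (ℕ × ℕ) × (ℕ × ℕ)) : X e :=
  ((p.1.1 : ZMod (2 ^ (e + 1))) - (p.1.2 : ZMod (2 ^ (e + 1))), (p.2.1 : ZMod (m e)) - (p.2.2 : ZMod (m e)))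

theorem mod_iff (k a b : ℕ) : a % k = b % k ↔ (a : ZMod k) = (b : ZMod k) := by
  rw [ZMod.natCast_eq_natCast_iff]
  rfl

theorem red_step (e : ℕ) (l : Fin 3 × Bool) (p : (ℕ × ℕ) × (ℕ × ℕ)) :
    red e (step e l p) = (cond l.2 (gen l.1) (gen l.1)⁻¹) e (red e p) := by
  obtain ⟨i, b⟩ := l
  obtain ⟨⟨n1, n2⟩, ⟨u1, u2⟩⟩ := p
  have ha : (aP e)⁻¹ = aP e := rfl
  have hb : (bP e)⁻¹ = bP e := rfl
  unfold step
  simp only
  by_cases h0 : i = 0
  · subst h0
    have hg : (cond b (gen 0) (gen 0)⁻¹) e = aP e := by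
      cases b
      · simp [gen, ha]
      · simp [gen]
    rw [hg, if_pos rfl]
    simp only [mod_iff]
    by_cases h : ((n1 : ZMod (2 ^ (e + 1))) = (n2 : ZMod (2 ^ (e + 1))))
    · rw [if_pos h]
      ext
      · simp [red, aP]
      · simp [red, aP, h]
    · rw [if_neg h]
      ext
      · simp [red, aP]
      · simp [red, aP, sub_eq_zero, h]
  · by_cases h1 : i = 1
    · subst h1
      have hg : (cond b (gen 1) (gen 1)⁻¹) e = bP e := by
        cases b
        · simp [gen, hb]
        · simp [gen]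
      rw [hg, if_neg h0, if_pos rfl]
      simp only [mod_iff]
      by_cases h : ((n1 : ZMod (2 ^ (e + 1))) = ((n2 + 2 ^ e : ℕ) : ZMod (2 ^ (e + 1))))
      · rw [if_pos h]
        have h' : (n1 : ZMod (2 ^ (e + 1))) - (n2 : ZMod (2 ^ (e + 1))) = ((2 ^ e : ℕ) : ZMod (2 ^ (e + 1))) := by
          rw [h]; push_cast; ring
        ext
        · simp [red, bP]
        · simp only [red, bP, Equiv.coe_fn_mk, h', if_true]
          push_cast
          ring
      · rw [if_neg h]
        have h' : (n1 : ZMod (2 ^ (e + 1))) - (n2 : ZMod (2 ^ (e + 1))) ≠ ((2 ^ e : ℕ) : ZMod (2 ^ (e + 1))) := by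
          intro hh
          apply h
          push_cast
          push_cast at hh
          rw [← hh]; ring
        ext
        · simp [red, bP]
        · simp only [red, bP, Equiv.coe_fn_mk, if_neg h']
    · rw [if_neg h0, if_neg h1]
      cases b
      · simp only [Bool.false_eq_true, if_false, cond_false, Pi.inv_apply]
        rw [Equiv.Perm.eq_inv_iff_eq]
        simp only [gen, if_neg h0, if_neg h1, tP, Equiv.coe_fn_mk, red]
        ext
        · push_cast; ring
        · rfl
      · simp only [if_true, cond_true]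
        simp only [gen, if_neg h0, if_neg h1, tP, Equiv.coe_fn_mk, red]
        ext
        · push_cast; ring
        · rfl

theorem red_ev (e : ℕ) (w : List (Fin 3 × Bool)) (p : (ℕ × ℕ) × (ℕ × ℕ)) :
    red e (ev e w p) = (hom (FreeGroup.mk w)) e (red e p) := by
  induction w with
  | nil => 
    have : FreeGroup.mk ([] : List (Fin 3 × Bool)) = 1 := rfl
    rw [this]; simp [ev]
  | cons l w ih =>
    have h1 : hom (FreeGroup.mk (l :: w)) = (cond l.2 (gen l.1) (gen l.1)⁻¹) * hom (FreeGroup.mk w) := by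
      unfold hom
      rw [FreeGroup.lift_mk, FreeGroup.lift_mk]
      simp
    rw [h1, Pi.mul_apply, Equiv.Perm.mul_apply, ← ih, ← red_step]
    rfl


/-! ### The word problem -/

/-- No success strictly before stage `s`. -/
def NR (e s : ℕ) : Bool := Nat.rec true (fun k b => b && !R e k) s

theorem NR_iff (e s : ℕ) : NR e s = true ↔ ∀ k < s, R e k = false := by
  induction s with
  | zero => simp [NR]
  | succ n ih =>
    have : NR e (n + 1) = (NR e n && !R e n) := rfl
    rw [this, Bool.and_eq_true, ih]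
    constructor
    · rintro ⟨h1, h2⟩ k hk
      rcases Nat.lt_succ_iff_lt_or_eq.mp hk with h | h
      · exact h1 k h
      · subst h; simpa using h2
    · intro h
      exact ⟨fun k hk => h k (Nat.lt_succ_of_lt hk), by simpa using h n (Nat.lt_succ_self n)⟩

/-- Stage test for two numbers being incongruent modulo `m e`. -/
def test (e s x y : ℕ) : Bool :=
  NR e s && ((R e s && !decide (x % (2 * s + 5) = y % (2 * s + 5))) ||
    (decide (x ≤ s) && (decide (y ≤ s) && !decide (x % 4 = y % 4))))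

theorem small_ne (x y s k : ℕ) (hx : x ≤ s) (hy : y ≤ s) (hk : s < k) (h : x ≠ y) :
    x % k ≠ y % k := by
  rw [Nat.mod_eq_of_lt (lt_of_le_of_lt hx hk), Nat.mod_eq_of_lt (lt_of_le_of_lt hy hk)]
  exact h

theorem test_iff (e x y : ℕ) : (∃ s, test e s x y = true) ↔ x % m e ≠ y % m e := by
  constructor
  · rintro ⟨s, hs⟩
    simp only [test, Bool.and_eq_true, Bool.or_eq_true, Bool.not_eq_true', decide_eq_true_eq,
      decide_eq_false_iff_not, NR_iff] at hs
    obtain ⟨hN, h⟩ := hs
    rcases h with ⟨hR, hne⟩ | ⟨hx, hy, hne⟩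
    · have hex : ∃ s, R e s = true := ⟨s, hR⟩
      have hm : m e = 2 * s + 5 := by
        unfold m
        rw [dif_pos hex]
        have : Nat.find hex = s := by
          rw [Nat.find_eq_iff]
          refine ⟨hR, fun k hk => ?_⟩
          simp [hN k hk]
        rw [this]
      rw [hm]; exact hne
    · have hxy : x ≠ y := by
        intro h; apply hne; rw [h]
      by_cases hex : ∃ s, R e s = true
      · have hm : m e = 2 * Nat.find hex + 5 := by
          unfold m
          rw [dif_pos hex]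
        have hle : s ≤ Nat.find hex := by
          by_contra hcon
          push Not at hcon
          have := hN _ hcon
          rw [Nat.find_spec hex] at this
          exact absurd this (by simp)
        apply small_ne x y s _ hx hy _ hxy
        omega
      · have hm : m e = 4 := by
          unfold m
          rw [dif_neg hex]
        rw [hm]; exact hne
  · intro hne
    by_cases hex : ∃ s, R e s = true
    · refine ⟨Nat.find hex, ?_⟩
      have hm : m e = 2 * Nat.find hex + 5 := by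
        unfold m
        rw [dif_pos hex]
      simp only [test, Bool.and_eq_true, Bool.or_eq_true, Bool.not_eq_true', decide_eq_true_eq,
        decide_eq_false_iff_not, NR_iff]
      refine ⟨fun k hk => ?_, Or.inl ⟨Nat.find_spec hex, ?_⟩⟩
      · simpa using Nat.find_min hex hk
      · rw [← hm]; exact hne
    · refine ⟨max x y, ?_⟩
      have hm : m e = 4 := by
        unfold m
        rw [dif_neg hex]
      simp only [test, Bool.and_eq_true, Bool.or_eq_true, Bool.not_eq_true', decide_eq_true_eq,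
        decide_eq_false_iff_not, NR_iff]
      push Not at hex
      refine ⟨fun k _ => by simpa using hex k, Or.inr ⟨le_max_left _ _, le_max_right _ _, ?_⟩⟩
      rw [← hm]; exact hne

/-- The full decidable test for a word, with all witnesses coded by `k`. -/
def wtest (w : List (Fin 3 × Bool)) (k : ℕ) : Bool :=
  let e := k.unpair.1
  let s := k.unpair.2.unpair.1
  let n := k.unpair.2.unpair.2.unpair.1
  let u := k.unpair.2.unpair.2.unpair.2
  let q := ev e w ((n, 0), (u, 0))
  !decide (q.1.1 % 2 ^ (e + 1) = (q.1.2 + n) % 2 ^ (e + 1)) || test e s q.2.1 (q.2.2 + u)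

theorem red_surj (e : ℕ) (x : X e) : ∃ n u : ℕ, red e ((n, 0), (u, 0)) = x := by
  refine ⟨x.1.val, x.2.val, ?_⟩
  ext <;> simp [red]

theorem word_iff (w : List (Fin 3 × Bool)) :
    hom (FreeGroup.mk w) ≠ 1 ↔ ∃ k, wtest w k = true := by
  have key : ∀ e n u, hom (FreeGroup.mk w) e (red e ((n, 0), (u, 0))) = red e ((n, 0), (u, 0)) ↔
      ((ev e w ((n, 0), (u, 0))).1.1 % 2 ^ (e + 1) = ((ev e w ((n, 0), (u, 0))).1.2 + n) % 2 ^ (e + 1)
      ∧ (ev e w ((n, 0), (u, 0))).2.1 % m e = ((ev e w ((n, 0), (u, 0))).2.2 + u) % m e) := by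
    intro e n u
    rw [← red_ev, mod_iff, mod_iff, Prod.ext_iff]
    simp only [red, Nat.cast_zero, sub_zero, Nat.cast_add]
    constructor
    · rintro ⟨h1, h2⟩
      exact ⟨by rw [← h1]; ring, by rw [← h2]; ring⟩
    · rintro ⟨h1, h2⟩
      exact ⟨by rw [h1]; ring, by rw [h2]; ring⟩
  constructor
  · intro h
    have h1 : ∃ e, hom (FreeGroup.mk w) e ≠ 1 := by
      by_contra hcon
      push Not at hcon
      exact h (funext hcon)
    obtain ⟨e, he⟩ := h1
    have h2 : ∃ x, hom (FreeGroup.mk w) e x ≠ x := by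
      by_contra hcon
      push Not at hcon
      exact he (Equiv.ext hcon)
    obtain ⟨x, hx⟩ := h2
    obtain ⟨n, u, rfl⟩ := red_surj e x
    rw [Ne, key, not_and_or] at hx
    rcases hx with hx | hx
    · refine ⟨Nat.pair e (Nat.pair 0 (Nat.pair n u)), ?_⟩
      simp only [wtest, Nat.unpair_pair]
      simp [hx]
    · obtain ⟨s, hs⟩ := (test_iff e _ _).2 hx
      refine ⟨Nat.pair e (Nat.pair s (Nat.pair n u)), ?_⟩
      simp only [wtest, Nat.unpair_pair]
      simp [hs]
  · rintro ⟨k, hk⟩ h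
    set e := k.unpair.1 with he
    set s := k.unpair.2.unpair.1 with hs
    set n := k.unpair.2.unpair.2.unpair.1 with hn
    set u := k.unpair.2.unpair.2.unpair.2 with hu
    have h3 := (key e n u).1 (by rw [h]; rfl)
    simp only [wtest, ← he, ← hs, ← hn, ← hu, Bool.or_eq_true, Bool.not_eq_true',
      decide_eq_false_iff_not] at hk
    rcases hk with hk | hk
    · exact hk h3.1
    · exact (test_iff e _ _).1 ⟨s, hk⟩ h3.2


/-! ### Computability of the test -/

theorem primrec_pow : Primrec (fun e : ℕ => 2 ^ e) := by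
  have h : Primrec (fun e : ℕ => (Nat.rec 1 (fun _ r => 2 * r) e : ℕ)) :=
    Primrec.nat_rec₁ 1 ((Primrec.nat_double.comp Primrec.snd).to₂)
  refine h.of_eq fun e => ?_
  induction e with
  | zero => rfl
  | succ n ih => 
    show 2 * (Nat.rec 1 (fun _ r => 2 * r) n : ℕ) = 2 ^ (n + 1)
    rw [ih]; ring

theorem primrec_mod_eq {α : Type*} [Primcodable α] {f g h : α → ℕ} (hf : Primrec f)
    (hg : Primrec g) (hh : Primrec h) : Primrec (fun a => decide (f a % h a = g a % h a)) :=
  (Primrec.eq.comp (Primrec.nat_mod.comp hf hh) (Primrec.nat_mod.comp hg hh)).decide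

theorem primrec_R : Primrec₂ R := by
  unfold R
  have hn : Primrec (fun p : ℕ × ℕ => p.2.unpair.1.unpair.1) :=
    Primrec.fst.comp (Primrec.unpair.comp (Primrec.fst.comp (Primrec.unpair.comp Primrec.snd)))
  have hy : Primrec (fun p : ℕ × ℕ => p.2.unpair.1.unpair.2) :=
    Primrec.snd.comp (Primrec.unpair.comp (Primrec.fst.comp (Primrec.unpair.comp Primrec.snd)))
  have hk : Primrec (fun p : ℕ × ℕ => p.2.unpair.2) :=
    Primrec.snd.comp (Primrec.unpair.comp Primrec.snd)
  have hc : Primrec (fun p : ℕ × ℕ => Denumerable.ofNat Code p.1) :=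
    (Primrec.ofNat Code).comp Primrec.fst
  have h1 : Primrec (fun p : ℕ × ℕ => Code.evaln p.2.unpair.2 (Denumerable.ofNat Code p.1)
      (Nat.pair p.1 p.2.unpair.1.unpair.1)) :=
    Code.primrec_evaln.comp ((hk.pair hc).pair (Primrec₂.natPair.comp Primrec.fst hn))
  have h2 : Primrec (fun p : ℕ × ℕ => Code.evaln p.2.unpair.2 (Denumerable.ofNat Code p.1)
      (Nat.pair p.1 p.2.unpair.1.unpair.2)) :=
    Code.primrec_evaln.comp ((hk.pair hc).pair (Primrec₂.natPair.comp Primrec.fst hy))
  have d1 := (Primrec.eq.comp h1 (Primrec.option_some.comp hy)).decide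
  have d2 := (Primrec.eq.comp h2 (Primrec.option_some.comp hn)).decide
  have d3 := (Primrec.eq.comp hn hy).decide
  exact Primrec.and.comp d1 (Primrec.and.comp d2 (Primrec.not.comp d3))

theorem primrec_NR : Primrec₂ NR := by
  have h : Primrec₂ (fun (e : ℕ) (p : ℕ × Bool) => p.2 && !R e p.1) :=
    (Primrec.and.comp (Primrec.snd.comp Primrec.snd)
      (Primrec.not.comp (primrec_R.comp Primrec.fst (Primrec.fst.comp Primrec.snd))))
  exact (Primrec.nat_rec (f := fun _ : ℕ => true) (Primrec.const true) h)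

theorem primrec_test : Primrec (fun a : (ℕ × ℕ) × (ℕ × ℕ) => test a.1.1 a.1.2 a.2.1 a.2.2) := by
  unfold test
  have he : Primrec (fun a : (ℕ × ℕ) × (ℕ × ℕ) => a.1.1) := Primrec.fst.comp Primrec.fst
  have hs : Primrec (fun a : (ℕ × ℕ) × (ℕ × ℕ) => a.1.2) := Primrec.snd.comp Primrec.fst
  have hx : Primrec (fun a : (ℕ × ℕ) × (ℕ × ℕ) => a.2.1) := Primrec.fst.comp Primrec.snd
  have hy : Primrec (fun a : (ℕ × ℕ) × (ℕ × ℕ) => a.2.2) := Primrec.snd.comp Primrec.snd
  have hm : Primrec (fun a : (ℕ × ℕ) × (ℕ × ℕ) => 2 * a.1.2 + 5) :=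
    Primrec.nat_add.comp (Primrec.nat_double.comp hs) (Primrec.const 5)
  refine Primrec.and.comp (primrec_NR.comp he hs) (Primrec.or.comp
    (Primrec.and.comp (primrec_R.comp he hs) (Primrec.not.comp (primrec_mod_eq hx hy hm)))
    (Primrec.and.comp (Primrec.nat_le.comp hx hs).decide
      (Primrec.and.comp (Primrec.nat_le.comp hy hs).decide
        (Primrec.not.comp (primrec_mod_eq hx hy (Primrec.const 4))))))

theorem primrec_step : Primrec (fun a : (ℕ × (Fin 3 × Bool)) × ((ℕ × ℕ) × (ℕ × ℕ)) =>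
    step a.1.1 a.1.2 a.2) := by
  unfold step
  have he : Primrec (fun a : (ℕ × (Fin 3 × Bool)) × ((ℕ × ℕ) × (ℕ × ℕ)) => a.1.1) :=
    Primrec.fst.comp Primrec.fst
  have hi : Primrec (fun a : (ℕ × (Fin 3 × Bool)) × ((ℕ × ℕ) × (ℕ × ℕ)) => a.1.2.1) :=
    Primrec.fst.comp (Primrec.snd.comp Primrec.fst)
  have hb : Primrec (fun a : (ℕ × (Fin 3 × Bool)) × ((ℕ × ℕ) × (ℕ × ℕ)) => a.1.2.2) :=
    Primrec.snd.comp (Primrec.snd.comp Primrec.fst)
  have hp : Primrec (fun a : (ℕ × (Fin 3 × Bool)) × ((ℕ × ℕ) × (ℕ × ℕ)) => a.2) := Primrec.snd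
  have hp1 := Primrec.fst.comp hp
  have hp2 := Primrec.snd.comp hp
  have hp11 := Primrec.fst.comp hp1
  have hp12 := Primrec.snd.comp hp1
  have hp21 := Primrec.fst.comp hp2
  have hp22 := Primrec.snd.comp hp2
  have hM : Primrec (fun a : (ℕ × (Fin 3 × Bool)) × ((ℕ × ℕ) × (ℕ × ℕ)) => 2 ^ (a.1.1 + 1)) :=
    primrec_pow.comp (Primrec.succ.comp he)
  have hh : Primrec (fun a : (ℕ × (Fin 3 × Bool)) × ((ℕ × ℕ) × (ℕ × ℕ)) => 2 ^ a.1.1) :=
    primrec_pow.comp he
  refine Primrec.ite (Primrec.eq.comp hi (Primrec.const 0)) ?_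
    (Primrec.ite (Primrec.eq.comp hi (Primrec.const 1)) ?_
      (Primrec.ite (Primrec.eq.comp hb (Primrec.const true)) ?_ ?_))
  · exact Primrec.ite (Primrec.eq.comp (Primrec.nat_mod.comp hp11 hM) (Primrec.nat_mod.comp hp12 hM))
      (hp1.pair (hp22.pair hp21)) hp
  · exact Primrec.ite (Primrec.eq.comp (Primrec.nat_mod.comp hp11 hM)
      (Primrec.nat_mod.comp (Primrec.nat_add.comp hp12 hh) hM))
      (hp1.pair ((Primrec.succ.comp hp22).pair hp21)) hp
  · exact ((Primrec.succ.comp hp11).pair hp12).pair hp2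
  · exact (hp11.pair (Primrec.succ.comp hp12)).pair hp2

theorem primrec_ev : Primrec (fun a : (ℕ × List (Fin 3 × Bool)) × ((ℕ × ℕ) × (ℕ × ℕ)) =>
    ev a.1.1 a.1.2 a.2) := by
  unfold ev
  have h : Primrec₂ (fun (a : (ℕ × List (Fin 3 × Bool)) × ((ℕ × ℕ) × (ℕ × ℕ)))
      (b : (Fin 3 × Bool) × ((ℕ × ℕ) × (ℕ × ℕ))) => step a.1.1 b.1 b.2) :=
    primrec_step.comp (((Primrec.fst.comp (Primrec.fst.comp Primrec.fst)).pair
      (Primrec.fst.comp Primrec.snd)).pair (Primrec.snd.comp Primrec.snd))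
  exact Primrec.list_foldr (Primrec.snd.comp Primrec.fst) Primrec.snd h

theorem primrec_wtest : Primrec₂ wtest := by
  have hk : Primrec (fun a : List (Fin 3 × Bool) × ℕ => a.2.unpair) := Primrec.unpair.comp Primrec.snd
  have he := Primrec.fst.comp hk
  have hk2 := Primrec.unpair.comp (Primrec.snd.comp hk)
  have hs := Primrec.fst.comp hk2
  have hk3 := Primrec.unpair.comp (Primrec.snd.comp hk2)
  have hn := Primrec.fst.comp hk3
  have hu := Primrec.snd.comp hk3
  have hw : Primrec (fun a : List (Fin 3 × Bool) × ℕ => a.1) := Primrec.fst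
  have h0 : Primrec (fun _ : List (Fin 3 × Bool) × ℕ => (0 : ℕ)) := Primrec.const 0
  have hq := primrec_ev.comp ((he.pair hw).pair ((hn.pair h0).pair (hu.pair h0)))
  have hM := primrec_pow.comp (Primrec.succ.comp he)
  have h11 := Primrec.fst.comp (Primrec.fst.comp hq)
  have h12 := Primrec.snd.comp (Primrec.fst.comp hq)
  have h21 := Primrec.fst.comp (Primrec.snd.comp hq)
  have h22 := Primrec.snd.comp (Primrec.snd.comp hq)
  have t1 := Primrec.not.comp (primrec_mod_eq h11 (Primrec.nat_add.comp h12 hn) hM)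
  have t2 := primrec_test.comp ((he.pair hs).pair (h21.pair (Primrec.nat_add.comp h22 hu)))
  exact Primrec.or.comp t1 t2

theorem re_of_exists {α : Type*} [Primcodable α] (c : α → ℕ → Bool) (hc : Computable₂ c) :
    REPred (fun a => ∃ k, c a k = true) := by
  have h : Partrec (fun a => (Nat.rfind (fun k => Part.some (c a k))).map (fun _ => ())) :=
    (Partrec.rfind hc.partrec₂).map ((Computable.const ()).to₂)
  refine h.of_eq fun a => ?_
  have hdom : (Nat.rfind (fun k => (Part.some (c a k) : Part Bool))).Dom ↔ ∃ k, c a k = true := by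
    refine Nat.rfind_dom.trans ?_
    constructor
    · rintro ⟨n, hn, _⟩
      exact ⟨n, (Part.mem_some_iff.1 hn).symm⟩
    · rintro ⟨n, hn⟩
      exact ⟨n, Part.mem_some_iff.2 hn.symm, fun _ => trivial⟩
  apply Part.ext'
  · constructor
    · intro hd
      exact ⟨hdom.1 hd, trivial⟩
    · rintro ⟨hd, _⟩
      exact hdom.2 hd
  · intro _ _; rfl

theorem word_re : REPred (fun w : List (Fin 3 × Bool) => hom.rangeRestrict (FreeGroup.mk w) ≠ 1) := by
  refine (re_of_exists wtest primrec_wtest.to_comp).of_eq fun w => ?_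
  rw [← word_iff]
  constructor
  · intro h h2
    apply h
    have := congrArg Subtype.val h2
    simpa using this
  · intro h h2
    apply h
    ext1
    simpa using h2


/-! ### The special elements -/

noncomputable def g0 (i : Fin 3) : G := hom.rangeRestrict (FreeGroup.of i)

theorem g0_val (i : Fin 3) (e : ℕ) : (g0 i).1 e = gen i e := by
  show (hom (FreeGroup.of i)) e = gen i e
  simp [hom]

theorem gen0 (e : ℕ) : gen 0 e = aP e := by simp [gen]
theorem gen1 (e : ℕ) : gen 1 e = bP e := by simp [gen]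
theorem gen2 (e : ℕ) : gen 2 e = tP e := by simp [gen]

noncomputable def yy (e : ℕ) : G := g0 0 * (g0 2) ^ (2 ^ e) * g0 1 * ((g0 2)⁻¹) ^ (2 ^ e)

noncomputable def xx (e : ℕ) : G := yy e * yy e

theorem tP_pow (e k : ℕ) (p : X e) : (tP e ^ k) p = (p.1 + (k : ZMod (2 ^ (e + 1))), p.2) := by
  induction k with
  | zero => simp
  | succ n ih =>
    rw [pow_succ', Equiv.Perm.mul_apply, ih]
    simp only [tP, Equiv.coe_fn_mk]
    ext
    · push_cast; ring
    · rfl

theorem tP_inv_pow (e k : ℕ) (p : X e) :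
    ((tP e)⁻¹ ^ k) p = (p.1 - (k : ZMod (2 ^ (e + 1))), p.2) := by
  rw [inv_pow, Equiv.Perm.inv_eq_iff_eq, tP_pow]
  simp

theorem yy_val (e e' : ℕ) (p : X e') : (yy e).1 e' p =
    (p.1, if p.1 = 0 then -(if p.1 - ((2 ^ e : ℕ) : ZMod (2 ^ (e' + 1))) =
        ((2 ^ e' : ℕ) : ZMod (2 ^ (e' + 1))) then 1 - p.2 else p.2)
      else (if p.1 - ((2 ^ e : ℕ) : ZMod (2 ^ (e' + 1))) =
        ((2 ^ e' : ℕ) : ZMod (2 ^ (e' + 1))) then 1 - p.2 else p.2)) := by
  have h : (yy e).1 e' = aP e' * (tP e') ^ (2 ^ e) * bP e' * ((tP e')⁻¹) ^ (2 ^ e) := by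
    unfold yy
    simp only [Subgroup.coe_mul, Subgroup.coe_pow, Subgroup.coe_inv, Pi.mul_apply, Pi.pow_apply,
      Pi.inv_apply]
    rw [g0_val, g0_val, g0_val, gen0, gen1, gen2]
  rw [h]
  simp only [Equiv.Perm.mul_apply, tP_inv_pow, tP_pow]
  simp only [aP, bP, Equiv.coe_fn_mk, sub_add_cancel]

theorem two_pow_add_ne (e e' : ℕ) (h : e' ≠ e) :
    (0 : ZMod (2 ^ (e' + 1))) - ((2 ^ e : ℕ) : ZMod (2 ^ (e' + 1))) ≠
      ((2 ^ e' : ℕ) : ZMod (2 ^ (e' + 1))) := by
  intro hh
  have h1 : ((2 ^ e' + 2 ^ e : ℕ) : ZMod (2 ^ (e' + 1))) = 0 := by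
    push_cast
    push_cast at hh
    rw [← hh]; ring
  rw [ZMod.natCast_eq_zero_iff] at h1
  rcases Nat.lt_or_gt_of_ne h with hlt | hgt
  · have h2 : 2 ^ (e' + 1) ∣ 2 ^ e := Nat.pow_dvd_pow 2 hlt
    have h3 : 2 ^ (e' + 1) ∣ 2 ^ e' := (Nat.dvd_add_left h2).1 h1
    have h4 := Nat.le_of_dvd (by positivity) h3
    have h5 : 2 ^ e' < 2 ^ (e' + 1) := Nat.pow_lt_pow_right (by norm_num) (Nat.lt_succ_self _)
    omega
  · have h4 := Nat.le_of_dvd (by positivity) h1
    have h5 : 2 ^ e < 2 ^ e' := Nat.pow_lt_pow_right (by norm_num) hgt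
    rw [pow_succ] at h4
    omega

theorem xx_val_ne (e e' : ℕ) (h : e' ≠ e) : (xx e).1 e' = 1 := by
  ext1 p
  have h1 : (xx e).1 e' p = (yy e).1 e' ((yy e).1 e' p) := rfl
  rw [h1, yy_val e e' p, yy_val]
  obtain ⟨n, u⟩ := p
  simp only
  by_cases hn : n = 0
  · subst hn
    simp only [if_true, if_neg (two_pow_add_ne e e' h), neg_neg]
    rfl
  · simp only [if_neg hn]
    split_ifs <;> simp

theorem two_pow_self (e : ℕ) :
    (0 : ZMod (2 ^ (e + 1))) - ((2 ^ e : ℕ) : ZMod (2 ^ (e + 1))) =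
      ((2 ^ e : ℕ) : ZMod (2 ^ (e + 1))) := by
  rw [sub_eq_iff_eq_add, ← Nat.cast_add, eq_comm, ZMod.natCast_eq_zero_iff, pow_succ]
  exact ⟨1, by ring⟩

theorem xx_val_eq (e : ℕ) (p : X e) :
    (xx e).1 e p = (p.1, if p.1 = 0 then p.2 - 2 else p.2) := by
  have h1 : (xx e).1 e p = (yy e).1 e ((yy e).1 e p) := rfl
  rw [h1, yy_val e e p, yy_val]
  obtain ⟨n, u⟩ := p
  simp only
  by_cases hn : n = 0
  · subst hn
    simp only [if_true, two_pow_self]
    ext
    · rfl
    · simp only; ring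
  · simp only [if_neg hn]
    split_ifs <;> simp

theorem xx_pow_val (e k : ℕ) (p : X e) :
    ((xx e) ^ k).1 e p = (p.1, if p.1 = 0 then p.2 - 2 * (k : ZMod (m e)) else p.2) := by
  induction k with
  | zero => simp
  | succ n ih =>
    have h1 : ((xx e) ^ (n + 1)).1 e p = (xx e).1 e (((xx e) ^ n).1 e p) := by
      rw [pow_succ']; rfl
    rw [h1, ih, xx_val_eq]
    by_cases hp : p.1 = 0
    · simp only [if_pos hp]
      ext
      · rfl
      · simp only; push_cast; ring
    · simp only [if_neg hp]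

theorem xx_pow_one (e k : ℕ) (hk : (2 * k : ZMod (m e)) = 0) : (xx e) ^ k = 1 := by
  apply Subtype.ext
  funext e'
  by_cases h : e' = e
  · subst h
    ext1 p
    rw [xx_pow_val, hk]
    simp
  · have : ((xx e) ^ k).1 e' = ((xx e).1 e') ^ k := rfl
    rw [this, xx_val_ne e e' h]
    simp

theorem xx_ne_one (e : ℕ) (he : m e = 4) : xx e ≠ 1 := by
  intro h
  have h1 : (xx e).1 e (0, 0) = (0, 0) := by rw [h]; rfl
  rw [xx_val_eq] at h1
  simp only [if_true, Prod.mk.injEq, true_and, zero_sub, neg_eq_zero] at h1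
  have h2 : ((2 : ℕ) : ZMod (m e)) = 0 := by exact_mod_cast h1
  rw [ZMod.natCast_eq_zero_iff, he] at h2
  omega

/-! ### The group does not embed into the computable permutations -/

theorem iterate_computable {α : Type*} [Primcodable α] (T : ℕ → ℕ) (hT : Computable T)
    (k n : α → ℕ) (hk : Computable k) (hn : Computable n) :
    Computable (fun a => T^[k a] (n a)) := by
  have h : Computable (fun a => (Nat.rec (n a) (fun _ r => T r) (k a) : ℕ)) :=
    Computable.nat_rec hk hn ((hT.comp (Computable.snd.comp Computable.snd)).to₂)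
  refine h.of_eq fun a => ?_
  generalize k a = j
  induction j with
  | zero => rfl
  | succ j ih =>
    rw [Function.iterate_succ_apply', ← ih]

theorem perm_pow_eq (π : Equiv.Perm ℕ) (k n : ℕ) : (π ^ k) n = (⇑π)^[k] n := by
  rw [Equiv.Perm.iterate_eq_pow]

theorem not_embed : ¬ ∃ f : G →* Equiv.Perm ℕ, Function.Injective f ∧
    ∀ g : G, Computable (⇑(f g) : ℕ → ℕ) := by
  rintro ⟨f, hinj, hcomp⟩
  have hpow2 : Computable (fun e : ℕ => 2 ^ e) := primrec_pow.to_comp
  -- the action of the special elements is uniformly computable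
  have hy : ∀ e n, f (yy e) n = f (g0 0) ((f (g0 2))^[2 ^ e] (f (g0 1) ((f (g0 2)⁻¹)^[2 ^ e] n))) := by
    intro e n
    unfold yy
    rw [map_mul, map_mul, map_mul, map_pow, map_pow]
    simp only [Equiv.Perm.mul_apply, perm_pow_eq]
  have hyc : ∀ (α : Type) [Primcodable α] (k n : α → ℕ), Computable k → Computable n →
      Computable (fun a => f (yy (k a)) (n a)) := by
    intro α _ k n hk hn
    simp only [hy]
    refine (hcomp (g0 0)).comp (iterate_computable _ (hcomp (g0 2)) _ _ (hpow2.comp hk)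
      ((hcomp (g0 1)).comp (iterate_computable _ (hcomp (g0 2)⁻¹) _ _ (hpow2.comp hk) hn)))
  have hx : ∀ e n, f (xx e) n = f (yy e) (f (yy e) n) := by
    intro e n
    unfold xx
    rw [map_mul, Equiv.Perm.mul_apply]
  have hxc : Computable (fun k : ℕ => f (xx k.unpair.1) k.unpair.2) := by
    simp only [hx]
    have h1 : Computable (fun k : ℕ => k.unpair.1) := Computable.fst.comp Computable.unpair
    have h2 : Computable (fun k : ℕ => k.unpair.2) := Computable.snd.comp Computable.unpair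
    exact hyc ℕ _ _ h1 (hyc ℕ _ _ h1 h2)
  obtain ⟨c, hc⟩ := Code.exists_code.1 (Partrec.nat_iff.1 hxc)
  set e := Encodable.encode c with he
  have hce : Denumerable.ofNat Code e = c := by rw [he]; simp
  have hev : ∀ n y, y ∈ Code.eval c (Nat.pair e n) ↔ f (xx e) n = y := by
    intro n y
    rw [hc]
    simp [eq_comm]
  by_cases hex : ∃ s, R e s = true
  · have hm : m e = 2 * Nat.find hex + 5 := by
      unfold m
      rw [dif_pos hex]
    have hR := Nat.find_spec hex
    set s := Nat.find hex with hs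
    simp only [R, hce, Bool.and_eq_true, decide_eq_true_eq, Bool.not_eq_true',
      decide_eq_false_iff_not] at hR
    obtain ⟨h1, h2, h3⟩ := hR
    set n := s.unpair.1.unpair.1 with hn
    set y := s.unpair.1.unpair.2 with hy'
    have e1 : f (xx e) n = y := (hev n y).1 (Code.evaln_sound (Option.mem_def.2 h1))
    have e2 : f (xx e) y = n := (hev y n).1 (Code.evaln_sound (Option.mem_def.2 h2))
    have hone : (xx e) ^ (2 * s + 5) = 1 := by
      apply xx_pow_one
      rw [← hm]; simp
    have e3 : (f (xx e) ^ (2 * s + 5)) n = n := by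
      rw [← map_pow, hone, map_one]; rfl
    have e4 : ∀ j, ((f (xx e)) ^ (2 * j)) n = n := by
      intro j
      induction j with
      | zero => rfl
      | succ j ih =>
        rw [show 2 * (j + 1) = 1 + (1 + 2 * j) by ring, pow_add, pow_add, pow_one,
          Equiv.Perm.mul_apply, Equiv.Perm.mul_apply, ih, e1, e2]
    rw [show 2 * s + 5 = 1 + 2 * (s + 2) by ring, pow_add, pow_one, Equiv.Perm.mul_apply, e4, e1]
      at e3
    exact h3 e3.symm
  · have hm : m e = 4 := by
      unfold m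
      rw [dif_neg hex]
    have hsq : (xx e) ^ 2 = 1 := by
      apply xx_pow_one
      have h4 : ((4 : ℕ) : ZMod (m e)) = 0 := by rw [ZMod.natCast_eq_zero_iff, hm]
      have : (2 * (2 : ℕ) : ZMod (m e)) = ((4 : ℕ) : ZMod (m e)) := by push_cast; norm_num
      rw [this, h4]
    apply xx_ne_one e hm
    apply hinj
    rw [map_one]
    ext n
    by_contra hne
    apply hex
    have e1 : f (xx e) (f (xx e) n) = n := by
      have : f ((xx e) ^ 2) n = n := by rw [hsq, map_one]; rfl
      rwa [map_pow, pow_two, Equiv.Perm.mul_apply] at this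
    set y := f (xx e) n with hyd
    obtain ⟨k1, hk1⟩ := Code.evaln_complete.1 ((hev n y).2 rfl)
    obtain ⟨k2, hk2⟩ := Code.evaln_complete.1 ((hev y n).2 e1)
    refine ⟨Nat.pair (Nat.pair n y) (max k1 k2), ?_⟩
    have q1 := Code.evaln_mono (le_max_left k1 k2) hk1
    have q2 := Code.evaln_mono (le_max_right k1 k2) hk2
    simp only [R, hce, Nat.unpair_pair, Bool.and_eq_true, decide_eq_true_eq, Bool.not_eq_true',
      decide_eq_false_iff_not]
    exact ⟨q1, q2, fun h => hne h.symm⟩

/-- There is a finitely generated, residually finite group whose word problem (on some finite generating set) is co-c.e., but which has no injective homomorphism into the permutations of ℕ taking every element to a computable permutation. -/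
theorem result :
    ∃ (G : Type) (_ : Group G),
      Group.FG G ∧
      (∀ g : G, g ≠ 1 → ∃ H : Subgroup G, H.index ≠ 0 ∧ g ∉ H) ∧
      (∃ (n : ℕ) (π : FreeGroup (Fin n) →* G), Function.Surjective π ∧
        REPred (fun w : List (Fin n × Bool) => π (FreeGroup.mk w) ≠ 1)) ∧
      ¬ ∃ f : G →* Equiv.Perm ℕ, Function.Injective f ∧
          ∀ g : G, Computable (⇑(f g) : ℕ → ℕ) := by
  exact ⟨G, inferInstance, G_fg, G_rf, ⟨3, hom.rangeRestrict, hom.rangeRestrict_surjective,
    word_re⟩, not_embed⟩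

end Pool.Agent.S09233
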