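import Pool.Statements.S09236
import Pool.Agent.Helper444.CKGame

set_option autoImplicit false
open Pool Pool.MP_09b933_lc

namespace Pool.Agent.S09236

open Pool.Agent.Helper444 in
theorem aux (U V : List Bool →. List Bool)
    (hU : Partrec U)
    (hUopt : ∀ M : List Bool →. List Bool, Partrec M →
        ∃ c : ℕ, ∀ (x p : List Bool), x ∈ M p →
          ∃ q : List Bool, x ∈ U q ∧ q.length ≤ p.length + c)
    (hV : Partrec V)
    (hVpf : ∀ p q : List Bool, (V p).Dom → (V q).Dom → p <+: q → p = q)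
    (hVopt : ∀ M : List Bool →. List Bool, Partrec M →
        (∀ p q : List Bool, (M p).Dom → (M q).Dom → p <+: q → p = q) →
        ∃ c : ℕ, ∀ (x p : List Bool), x ∈ M p →
          ∃ q : List Bool, x ∈ V q ∧ q.length ≤ p.length + c)
    (ψ : List Bool × ℕ →. ℕ) (hψ : Partrec ψ) (c : ℕ) :
    ∃ x : List Bool, ¬ ∃ y : ℕ, y ∈ ψ (x, sInf (List.length '' {p : List Bool | x ∈ V p})) ∧
            sInf (List.length '' {p : List Bool | x ∈ U p}) ≤ y + c ∧
            y ≤ sInf (List.length '' {p : List Bool | x ∈ U p}) + c := by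
  obtain ⟨E, hE, hE1, hE2⟩ := CKGame.exists_enum hψ
  -- the stage version of the relation
  let EP : ℕ → (List Bool × ℕ) × ℕ → Bool := fun s t =>
    Option.casesOn (motive := fun _ => Bool) (E s t.1) false
      (fun z => decide (t.2 ≤ z + c ∧ z ≤ t.2 + c))
  have hEP : Primrec₂ EP := by
    have s : Primrec (fun a : ℕ × ((List Bool × ℕ) × ℕ) => a.1) := Primrec.fst
    have t1 : Primrec (fun a : ℕ × ((List Bool × ℕ) × ℕ) => a.2.1) :=
      Primrec.fst.comp Primrec.snd
    have hg : Primrec₂ (fun (a : ℕ × ((List Bool × ℕ) × ℕ)) (z : ℕ) =>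
        decide (a.2.2 ≤ z + c ∧ z ≤ a.2.2 + c)) := by
      have y : Primrec (fun b : (ℕ × ((List Bool × ℕ) × ℕ)) × ℕ => b.1.2.2) :=
        Primrec.snd.comp (Primrec.snd.comp Primrec.fst)
      have z : Primrec (fun b : (ℕ × ((List Bool × ℕ) × ℕ)) × ℕ => b.2) := Primrec.snd
      exact (PrimrecPred.and (Primrec.nat_le.comp y (CKGame.p_addc z c))
        (Primrec.nat_le.comp z (CKGame.p_addc y c))).decide
    exact Primrec.option_casesOn (hE.comp s t1) (Primrec.const false) hg
  have hEPsome : ∀ s t, EP s t = true ↔ ∃ z, E s t.1 = some z ∧ t.2 ≤ z + c ∧ z ≤ t.2 + c := by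
    intro s t
    show (Option.casesOn (motive := fun _ => Bool) (E s t.1) false
      (fun z => decide (t.2 ≤ z + c ∧ z ≤ t.2 + c))) = true ↔ _
    cases hs : E s t.1 with
    | none => simp
    | some z => simp
  obtain ⟨x, hx⟩ := CKGame.main_theorem U V
    (fun t => ∃ z, z ∈ ψ t.1 ∧ t.2 ≤ z + c ∧ z ≤ t.2 + c) hU hUopt hV hVpf hVopt EP hEP
    (by
      intro t
      constructor
      · rintro ⟨z, hz, h1, h2⟩
        obtain ⟨s, hs⟩ := (hE1 _ _).1 hz
        exact ⟨s, (hEPsome s t).2 ⟨z, hs, h1, h2⟩⟩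
      · rintro ⟨s, hs⟩
        obtain ⟨z, hz, h1, h2⟩ := (hEPsome s t).1 hs
        exact ⟨z, (hE1 _ _).2 ⟨s, hz⟩, h1, h2⟩)
    (by
      intro s s' t hss hs
      obtain ⟨z, hz, h1, h2⟩ := (hEPsome s t).1 hs
      exact (hEPsome s' t).2 ⟨z, hE2 _ _ _ _ hss hz, h1, h2⟩)
    (2 * c + 1)
    (by
      intro x k F hF
      rcases F.eq_empty_or_nonempty with rfl | ⟨y0, hy0⟩
      · simp
      · obtain ⟨z, hz, h1, h2⟩ := hF y0 hy0
        have hsub : F ⊆ Finset.Ico (z - c) (z + c + 1) := by
          intro y hy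
          obtain ⟨z', hz', h3, h4⟩ := hF y hy
          have : z' = z := Part.mem_unique hz' hz
          subst this
          simp only at h3 h4
          rw [Finset.mem_Ico]
          omega
        have := Finset.card_le_card hsub
        rw [Nat.card_Ico] at this
        omega)
  exact ⟨x, hx⟩

/-- The negation of the preceding statement: For some optimal plain machine U and optimal prefix-free machine V, there is a partial computable ψ and a constant c such that for every string x, ψ(x, K(x)) is defined and lies within c of C(x). -/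
theorem result :
    ¬ (∃ U V : List Bool →. List Bool,
      Partrec U ∧
      (∀ M : List Bool →. List Bool, Partrec M →
        ∃ c : ℕ, ∀ (x p : List Bool), x ∈ M p →
          ∃ q : List Bool, x ∈ U q ∧ q.length ≤ p.length + c) ∧
      Partrec V ∧
      (∀ p q : List Bool, (V p).Dom → (V q).Dom → p <+: q → p = q) ∧
      (∀ M : List Bool →. List Bool, Partrec M →
        (∀ p q : List Bool, (M p).Dom → (M q).Dom → p <+: q → p = q) →
        ∃ c : ℕ, ∀ (x p : List Bool), x ∈ M p →
          ∃ q : List Bool, x ∈ V q ∧ q.length ≤ p.length + c) ∧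
      ∃ ψ : List Bool × ℕ →. ℕ, Partrec ψ ∧
        ∃ c : ℕ, ∀ x : List Bool,
          ∃ y : ℕ, y ∈ ψ (x, sInf (List.length '' {p : List Bool | x ∈ V p})) ∧
            sInf (List.length '' {p : List Bool | x ∈ U p}) ≤ y + c ∧
            y ≤ sInf (List.length '' {p : List Bool | x ∈ U p}) + c) := by
  rintro ⟨U, V, hU, hUopt, hV, hVpf, hVopt, ψ, hψ, c, h⟩
  obtain ⟨x, hx⟩ := aux U V hU hUopt hV hVpf hVopt ψ hψ c
  exact hx (h x)

end Pool.Agent.S09236
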