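import Pool.Statements.S09240
import Pool.Agent.Helper461.E2.Final

set_option autoImplicit false
open Pool Pool.MP_0b5bfa_lc

namespace Pool.Agent.S09240

/-- The negation of the preceding statement: Every Borel equivalence relation on a Polish space that Borel-reduces to E_2 either Borel-reduces to E_0 or has E_2 Borel-reducible to it, and not both. -/
theorem result :
    ¬ (∀ (X : Type) [TopologicalSpace X] [PolishSpace X] [MeasurableSpace X] [BorelSpace X]
      (E : X → X → Prop),
      Equivalence E →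
      MeasurableSet {p : X × X | E p.1 p.2} →
      (∃ f : X → (ℕ → Bool), Measurable f ∧
        ∀ x y : X, E x y ↔
          Summable (fun n : ℕ => if f x n = f y n then (0 : ℝ) else (1 : ℝ) / ((n : ℝ) + 1))) →
      (((∃ f : X → (ℕ → Bool), Measurable f ∧
          ∀ x y : X, E x y ↔ ∃ N : ℕ, ∀ n : ℕ, N ≤ n → f x n = f y n) ∨
        (∃ g : (ℕ → Bool) → X, Measurable g ∧
          ∀ a b : ℕ → Bool,
            Summable (fun n : ℕ => if a n = b n then (0 : ℝ) else (1 : ℝ) / ((n : ℝ) + 1))
              ↔ E (g a) (g b))) ∧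
       ¬ ((∃ f : X → (ℕ → Bool), Measurable f ∧
          ∀ x y : X, E x y ↔ ∃ N : ℕ, ∀ n : ℕ, N ≤ n → f x n = f y n) ∧
        (∃ g : (ℕ → Bool) → X, Measurable g ∧
          ∀ a b : ℕ → Bool,
            Summable (fun n : ℕ => if a n = b n then (0 : ℝ) else (1 : ℝ) / ((n : ℝ) + 1))
              ↔ E (g a) (g b))))) := by
  intro h
  have h1 := h Pool.Agent.Helper461.E2.Y Pool.Agent.Helper461.E2.Orb
    Pool.Agent.Helper461.E2.orb_equiv Pool.Agent.Helper461.E2.orb_measurable
    Pool.Agent.Helper461.E2.le_E2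
  rcases h1.1 with h2 | h2
  · exact Pool.Agent.Helper461.E2.not_E0 h2
  · exact Pool.Agent.Helper461.E2.not_E2_le h2

end Pool.Agent.S09240
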