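import Pool.Statements.S09242

set_option autoImplicit false
open Pool Pool.MP_0bef39_lc

namespace Pool.Agent.S09242

open Set Filter Topology MeasureTheory

/-- Initial segments, written backwards. -/
def pre {α : Type} (x : ℕ → α) : ℕ → List α
  | 0 => []
  | n + 1 => x n :: pre x n

theorem pre_length {α : Type} (x : ℕ → α) (n : ℕ) : (pre x n).length = n := by
  induction n with
  | zero => rfl
  | succ n ih => simp [pre, ih]

theorem pre_eq {α : Type} {x y : ℕ → α} {n : ℕ} (h : pre x n = pre y n) : ∀ i < n, x i = y i := by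
  induction n with
  | zero => intro i hi; omega
  | succ n ih =>
    intro i hi
    simp only [pre, List.cons.injEq] at h
    rcases Nat.lt_succ_iff_lt_or_eq.mp hi with h1 | h1
    · exact ih h.2 i h1
    · rw [h1]; exact h.1

/-- The tree coded by `z`. -/
def Tr (z : ℕ → Bool) : Set (List ℕ) :=
  {s | z (Encodable.encode (pre z s.length, s)) = true}

/-- The set of codes of ill-founded trees. -/
def IF : Set (ℕ → Bool) := {z | ∃ y : ℕ → ℕ, ∀ n, pre y n ∈ Tr z}

theorem measurableSet_pre (n : ℕ) (u : List Bool) : MeasurableSet {z : ℕ → Bool | pre z n = u} := by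
  induction n generalizing u with
  | zero =>
    by_cases h : u = []
    · simp [pre, h]
    · have : {z : ℕ → Bool | pre z 0 = u} = ∅ := by
        ext z
        simp only [pre, mem_ofPred_eq, mem_empty_iff_false, iff_false]
        exact fun h' => h h'.symm
      rw [this]
      exact MeasurableSet.empty
  | succ n ih =>
    cases u with
    | nil =>
      have : {z : ℕ → Bool | pre z (n + 1) = []} = ∅ := by
        ext z
        simp [pre]
      rw [this]
      exact MeasurableSet.empty
    | cons b u =>
      have : {z : ℕ → Bool | pre z (n + 1) = b :: u} =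
          (fun z : ℕ → Bool => z n) ⁻¹' {b} ∩ {z | pre z n = u} := by
        ext z
        simp [pre]
      rw [this]
      exact (measurable_pi_apply n (MeasurableSet.singleton b)).inter (ih u)

theorem measurableSet_Tr (s : List ℕ) : MeasurableSet {z : ℕ → Bool | s ∈ Tr z} := by
  have : {z : ℕ → Bool | s ∈ Tr z} = ⋃ u : List Bool,
      ({z | pre z s.length = u} ∩ (fun z : ℕ → Bool => z (Encodable.encode (u, s))) ⁻¹' {true}) := by
    ext z
    simp [Tr]
  rw [this]
  refine MeasurableSet.iUnion fun u => (measurableSet_pre _ u).inter ?_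
  exact measurable_pi_apply _ (MeasurableSet.singleton true)

theorem not_measurableSet_IF : ¬ MeasurableSet IF := by
  classical
  intro hIF
  have : PolishSpace (ℕ → Bool) := ⟨⟩
  have h1 := hIF.compl.analyticSet
  rw [AnalyticSet] at h1
  rcases h1 with h1 | ⟨f, hf, hfr⟩
  · have h2 : (fun _ : ℕ => false) ∈ IFᶜ := by
      rintro ⟨y, hy⟩
      have := hy 0
      simp [Tr] at this
    rw [h1] at h2
    exact h2
  · let R : List Bool × List ℕ → Prop := fun p =>
      ∃ y : ℕ → ℕ, pre y p.2.length = p.2 ∧ pre (f y) p.2.length = p.1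
    let z0 : ℕ → Bool := fun m =>
      match (Encodable.decode m : Option (List Bool × List ℕ)) with
      | none => false
      | some p => decide (R p)
    have hz0 : ∀ p, z0 (Encodable.encode p) = true ↔ R p := by
      intro p
      have h4 := Encodable.encodek p
      simp only [z0, h4, decide_eq_true_eq]
    have key : ∀ z : ℕ → Bool,
        (∃ y : ℕ → ℕ, ∀ n, z0 (Encodable.encode (pre z n, pre y n)) = true) ↔ z ∈ range f := by
      intro z
      constructor
      · rintro ⟨y, hy⟩
        refine ⟨y, ?_⟩
        have h3 : ∀ n, ∃ y' : ℕ → ℕ, pre y' n = pre y n ∧ pre (f y') n = pre z n := by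
          intro n
          obtain ⟨y', h4, h5⟩ := (hz0 _).mp (hy n)
          simp only [pre_length] at h4 h5
          exact ⟨y', h4, h5⟩
        choose Y hY1 hY2 using h3
        have h4 : Tendsto Y atTop (𝓝 y) := by
          rw [tendsto_pi_nhds]
          intro i
          apply tendsto_const_nhds.congr'
          filter_upwards [eventually_gt_atTop i] with n hn
          exact (pre_eq (hY1 n) i hn).symm
        have h5 : Tendsto (fun n => f (Y n)) atTop (𝓝 z) := by
          rw [tendsto_pi_nhds]
          intro i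
          apply tendsto_const_nhds.congr'
          filter_upwards [eventually_gt_atTop i] with n hn
          exact (pre_eq (hY2 n) i hn).symm
        exact tendsto_nhds_unique ((hf.tendsto y).comp h4) h5
      · rintro ⟨y, rfl⟩
        refine ⟨y, fun n => (hz0 _).mpr ⟨y, ?_, ?_⟩⟩
        · simp only [pre_length]
        · simp only [pre_length]
    have h2 : z0 ∈ IF ↔ z0 ∈ range f := by
      rw [← key]
      simp only [IF, Tr, mem_ofPred_eq, pre_length]
    rw [hfr] at h2
    by_cases h3 : z0 ∈ IF
    · exact (h2.mp h3) h3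
    · exact h3 (h2.mpr h3)

/-- The Hilbert space. -/
abbrev G : Type := lp (fun _ : ℕ => ℝ) 2

theorem sep : TopologicalSpace.SeparableSpace G := by
  rw [← TopologicalSpace.isSeparable_univ_iff]
  have h1 : (Set.range (fun i : ℕ => (lp.single 2 i (1 : ℝ) : G))).Countable := countable_range _
  have h2 : TopologicalSpace.IsSeparable
      (Submodule.span ℝ (Set.range (fun i : ℕ => (lp.single 2 i (1 : ℝ) : G))) : Set G) :=
    h1.isSeparable.span
  have h3 := h2.closure
  apply h3.mono
  intro f _
  have h4 := lp.hasSum_single (p := 2) (by norm_num) f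
  refine mem_closure_of_tendsto h4 (Eventually.of_forall fun s => Submodule.sum_mem _ fun i _ => ?_)
  have h5 : (lp.single 2 i (f i) : G) = f i • (lp.single 2 i (1 : ℝ) : G) := by
    rw [← lp.single_smul]
    simp
  rw [h5]
  exact Submodule.smul_mem _ _ (Submodule.subset_span ⟨i, rfl⟩)

/-- A dense sequence. -/
noncomputable def qq : ℕ → G :=
  have := sep
  TopologicalSpace.denseSeq G

theorem qq_dense : DenseRange qq := by
  have := sep
  exact TopologicalSpace.denseRange_denseSeq G

/-- The space of 1-Lipschitz functions on the Hilbert space. -/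
def Y : Type := {f : G → ℝ // LipschitzWith 1 f}

/-- Values on the dense sequence. -/
noncomputable def ev (f : Y) : ℕ → ℝ := fun i => f.1 (qq i)

noncomputable instance : TopologicalSpace Y := TopologicalSpace.induced ev inferInstance

theorem ev_inj : Function.Injective ev := by
  intro f g h
  apply Subtype.ext
  exact DenseRange.equalizer qq_dense f.2.continuous g.2.continuous h

theorem ev_range : range ev = {g | ∀ i j, |g i - g j| ≤ dist (qq i) (qq j)} := by
  classical
  ext g
  constructor
  · rintro ⟨f, rfl⟩ i j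
    have := f.2.dist_le_mul (qq i) (qq j)
    rw [Real.dist_eq] at this
    simpa [ev] using this
  · intro hg
    let f : G → ℝ := fun x => if h : ∃ i, qq i = x then g h.choose else 0
    have hf : ∀ i, f (qq i) = g i := by
      intro i
      have h : ∃ j, qq j = qq i := ⟨i, rfl⟩
      have h1 : f (qq i) = g h.choose := dif_pos h
      rw [h1]
      have h2 := hg h.choose i
      rw [h.choose_spec, dist_self] at h2
      have h3 := abs_nonneg (g h.choose - g i)
      have h4 : |g h.choose - g i| = 0 := le_antisymm h2 h3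
      exact sub_eq_zero.mp (abs_eq_zero.mp h4)
    have hL : LipschitzOnWith 1 f (range qq) := by
      apply LipschitzOnWith.of_dist_le_mul
      rintro _ ⟨i, rfl⟩ _ ⟨j, rfl⟩
      rw [hf, hf, Real.dist_eq]
      simpa using hg i j
    obtain ⟨F, hF1, hF2⟩ := hL.extend_real
    refine ⟨⟨F, hF1⟩, ?_⟩
    funext i
    have := hF2 (mem_range_self i)
    rw [hf] at this
    exact this.symm

theorem ev_closed : IsClosedEmbedding ev := by
  refine ⟨⟨⟨rfl⟩, ev_inj⟩, ?_⟩
  rw [ev_range]
  have : {g : ℕ → ℝ | ∀ i j, |g i - g j| ≤ dist (qq i) (qq j)} =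
      ⋂ i, ⋂ j, {g : ℕ → ℝ | |g i - g j| ≤ dist (qq i) (qq j)} := by
    ext g
    simp
  rw [this]
  refine isClosed_iInter fun i => isClosed_iInter fun j => isClosed_le ?_ continuous_const
  fun_prop

instance : PolishSpace Y := ev_closed.polishSpace

noncomputable instance : MeasurableSpace Y := borel Y

instance : BorelSpace Y := ⟨rfl⟩

theorem ev_meas : MeasurableEmbedding ev := ev_closed.measurableEmbedding

noncomputable instance : AddAction G Y where
  vadd v f := ⟨fun x => f.1 (x - v), by
    have h1 : LipschitzWith 1 (fun x : G => x - v) := by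
      apply LipschitzWith.of_dist_le_mul
      intro x y
      simp
    have h2 := f.2.comp h1
    rw [mul_one] at h2
    exact h2⟩
  zero_vadd f := by
    apply Subtype.ext
    funext x
    change f.1 (x - 0) = f.1 x
    rw [sub_zero]
  add_vadd u v f := by
    apply Subtype.ext
    funext x
    change f.1 (x - (u + v)) = f.1 (x - u - v)
    rw [sub_sub]

theorem vadd_apply (v : G) (f : Y) (x : G) : (v +ᵥ f).1 x = f.1 (x - v) := rfl

theorem mcshane (f : Y) (x : G) : f.1 x = ⨅ j, (ev f j + dist x (qq j)) := by
  have hb : ∀ j, f.1 x ≤ ev f j + dist x (qq j) := by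
    intro j
    have := f.2.dist_le_mul x (qq j)
    rw [Real.dist_eq] at this
    have h2 := (abs_le.mp this).2
    have h3 : ((1 : NNReal) : ℝ) = 1 := rfl
    rw [h3, one_mul] at h2
    simp only [ev]
    linarith
  apply le_antisymm
  · exact le_ciInf hb
  · apply le_of_forall_pos_le_add
    intro ε hε
    obtain ⟨j, hj⟩ := qq_dense.exists_dist_lt x (half_pos hε)
    have h1 : ⨅ j, (ev f j + dist x (qq j)) ≤ ev f j + dist x (qq j) := by
      apply ciInf_le
      exact ⟨f.1 x, by rintro _ ⟨i, rfl⟩; exact hb i⟩
    have := f.2.dist_le_mul (qq j) x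
    rw [Real.dist_eq, dist_comm] at this
    have h2 := (abs_le.mp this).2
    have h3 : ((1 : NNReal) : ℝ) = 1 := rfl
    rw [h3, one_mul] at h2
    simp only [ev] at h1 h2 ⊢
    linarith

theorem meas_action :
    @Measurable (G × Y) Y
        (MeasurableSpace.comap Prod.fst (borel G) ⊔
          MeasurableSpace.comap Prod.snd inferInstance) inferInstance
        (fun p => p.1 +ᵥ p.2) := by
  let : MeasurableSpace G := borel G
  have : BorelSpace G := ⟨rfl⟩
  change Measurable (fun p : G × Y => p.1 +ᵥ p.2)
  rw [← ev_meas.measurable_comp_iff, measurable_pi_iff]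
  intro i
  have h1 : (fun p : G × Y => (ev ∘ fun p : G × Y => p.1 +ᵥ p.2) p i) =
      fun p : G × Y => ⨅ j, (ev p.2 j + dist (qq i - p.1) (qq j)) := by
    funext p
    rw [← mcshane]
    rfl
  rw [h1]
  refine Measurable.iInf fun j => ?_
  refine Measurable.add ?_ ?_
  · exact ((measurable_pi_apply j).comp ev_meas.measurable).comp measurable_snd
  · have h2 : Measurable (fun v : G => dist (qq i - v) (qq j)) := by
      apply Continuous.measurable
      fun_prop
    exact h2.comp measurable_fst

/-- Nodes. -/
def nd (m : ℕ) : List ℕ := Denumerable.ofNat (List ℕ) m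

theorem nd_encode (s : List ℕ) : nd (Encodable.encode s) = s := Denumerable.ofNat_encode s

theorem encode_nd (m : ℕ) : Encodable.encode (nd m) = m := Denumerable.encode_ofNat m

/-- Weights. -/
noncomputable def W (s : List ℕ) : ℝ := (1 / 2 : ℝ) ^ s.length

theorem W_pos (s : List ℕ) : 0 < W s := by
  unfold W
  positivity

theorem vec_mem (d : List ℕ →₀ ℤ) : Memℓp (fun m : ℕ => W (nd m) * (d (nd m) : ℝ)) 2 := by
  apply memℓp_gen
  apply summable_of_hasFiniteSupport
  have h1 : (nd ⁻¹' (d.support : Set (List ℕ))).Finite := by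
    apply Set.Finite.preimage _ d.support.finite_toSet
    intro a _ b _ h
    rw [← encode_nd a, ← encode_nd b, h]
  apply h1.subset
  intro m hm
  rw [Function.mem_support] at hm
  simp only [mem_preimage, Finset.mem_coe, Finsupp.mem_support_iff]
  intro h0
  apply hm
  rw [h0]
  simp

/-- The vector of a finitely supported function. -/
noncomputable def vec (d : List ℕ →₀ ℤ) : G := ⟨fun m => W (nd m) * (d (nd m) : ℝ), vec_mem d⟩

theorem vec_apply (d : List ℕ →₀ ℤ) (m : ℕ) : vec d m = W (nd m) * (d (nd m) : ℝ) := rfl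

open Classical in
theorem vb_mem (β : ℕ → ℕ) :
    Memℓp (fun m : ℕ => if nd m = pre β (nd m).length then W (nd m) else 0) 2 := by
  apply memℓp_gen
  have hi : Function.Injective (fun n : ℕ => Encodable.encode (pre β n)) := by
    intro a b h
    have h1 := Encodable.encode_injective h
    have h2 := congrArg List.length h1
    simpa [pre_length] using h2
  rw [← hi.summable_iff]
  · have h1 : ((fun m : ℕ => ‖(if nd m = pre β (nd m).length then W (nd m) else 0)‖ ^
        (2 : ENNReal).toReal) ∘ fun n : ℕ => Encodable.encode (pre β n)) =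
        fun n : ℕ => (1 / 4 : ℝ) ^ n := by
      funext n
      simp only [Function.comp, nd_encode, pre_length, if_true, W, ENNReal.toReal_ofNat]
      rw [Real.norm_of_nonneg (by positivity)]
      rw [Real.rpow_ofNat, ← pow_mul, mul_comm, pow_mul]
      norm_num
    rw [h1]
    exact summable_geometric_of_lt_one (by norm_num) (by norm_num)
  · intro m hm
    have h1 : nd m ≠ pre β (nd m).length := by
      intro h
      apply hm
      refine ⟨(nd m).length, ?_⟩
      simp only
      rw [← h, encode_nd]
    rw [if_neg h1]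
    simp

open Classical in
/-- The vector of a branch. -/
noncomputable def vb (β : ℕ → ℕ) : G :=
  ⟨fun m => if nd m = pre β (nd m).length then W (nd m) else 0, vb_mem β⟩

open Classical in
theorem vb_apply (β : ℕ → ℕ) (m : ℕ) :
    vb β m = if nd m = pre β (nd m).length then W (nd m) else 0 := rfl

/-- Supremum of the coordinates of level at most `n`. -/
noncomputable def hh (n : ℕ) (x : G) : ℝ := ⨆ m, (if (nd m).length ≤ n then |x m| else 0)

theorem abs_le_norm (x : G) (m : ℕ) : |x m| ≤ ‖x‖ := by
  have := lp.norm_apply_le_norm (p := 2) (by norm_num) x m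
  simpa using this

theorem hh_bdd (n : ℕ) (x : G) :
    BddAbove (range fun m => (if (nd m).length ≤ n then |x m| else 0)) := by
  refine ⟨‖x‖, ?_⟩
  rintro _ ⟨m, rfl⟩
  simp only
  split_ifs
  · exact abs_le_norm x m
  · exact norm_nonneg x

theorem hh_nonneg (n : ℕ) (x : G) : 0 ≤ hh n x := by
  apply Real.iSup_nonneg
  intro m
  split_ifs
  · exact abs_nonneg _
  · exact le_rfl

theorem hh_lip (n : ℕ) (x y : G) : hh n x ≤ hh n y + dist x y := by
  apply ciSup_le
  intro m
  have h1 := le_ciSup (hh_bdd n y) m
  have h2 : (if (nd m).length ≤ n then |y m| else 0) ≤ hh n y := h1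
  split_ifs at h2 ⊢ with h
  · have h3 := abs_le_norm (x - y) m
    rw [dist_eq_norm]
    have h4 : (x - y) m = x m - y m := rfl
    rw [h4] at h3
    have h5 : |x m| ≤ |y m| + |x m - y m| := by
      have := abs_add_le (y m) (x m - y m)
      simpa using this
    linarith
  · have := hh_nonneg n y
    have := dist_nonneg (x := x) (y := y)
    linarith

theorem hh_zero (n : ℕ) : hh n 0 = 0 := by
  simp [hh]

theorem hh_congr (n : ℕ) (x y : G) (h : ∀ m, (nd m).length ≤ n → x m = y m) : hh n x = hh n y := by
  unfold hh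
  congr 1
  funext m
  split_ifs with h1
  · rw [h m h1]
  · rfl

theorem le_hh (n : ℕ) (x : G) (m : ℕ) (h : (nd m).length ≤ n) : |x m| ≤ hh n x := by
  have h1 := le_ciSup (hh_bdd n x) m
  rw [if_pos h] at h1
  exact h1

/-- Sum over the children of a node. -/
noncomputable def sg (s : List ℕ) (d : List ℕ →₀ ℤ) : ℤ := ∑ᶠ i : ℕ, d (i :: s)

theorem sg_fin (s : List ℕ) (d : List ℕ →₀ ℤ) :
    (Function.support fun i : ℕ => d (i :: s)).Finite := by
  have h1 : ((fun i : ℕ => i :: s) ⁻¹' (d.support : Set (List ℕ))).Finite := by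
    apply Set.Finite.preimage _ d.support.finite_toSet
    intro a _ b _ h
    simpa using h
  apply h1.subset
  intro i hi
  simpa using hi

theorem sg_add (s : List ℕ) (d d' : List ℕ →₀ ℤ) : sg s (d + d') = sg s d + sg s d' := by
  unfold sg
  rw [← finsum_add_distrib (sg_fin s d) (sg_fin s d')]
  rfl

theorem sg_neg (s : List ℕ) (d : List ℕ →₀ ℤ) : sg s (-d) = - sg s d := by
  have h := sg_add s d (-d)
  rw [add_neg_cancel] at h
  have h0 : sg s 0 = 0 := by simp [sg]
  rw [h0] at h
  linarith

/-- The admissible finite pieces. -/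
def SS (c : ℤ) (n : ℕ) (z : ℕ → Bool) : Set (List ℕ →₀ ℤ) :=
  {d | ((∀ s ∈ d.support, s.length ≤ n) ∧ d [] = c ∧
    ∀ s : List ℕ, s.length < n → sg s d = d s) ∧ ∀ s ∈ d.support, s ∈ Tr z}

open Classical in
/-- The functions coding the cosets. -/
noncomputable def fn (c : ℤ) (n : ℕ) (z : ℕ → Bool) (x : G) : ℝ :=
  ⨅ d : List ℕ →₀ ℤ, (if d ∈ SS c n z then min 1 (hh n (x - vec d)) else 1)

open Classical in
theorem fn_bdd (c : ℤ) (n : ℕ) (z : ℕ → Bool) (x : G) :
    BddBelow (range fun d : List ℕ →₀ ℤ =>
      (if d ∈ SS c n z then min 1 (hh n (x - vec d)) else 1)) := by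
  refine ⟨0, ?_⟩
  rintro _ ⟨d, rfl⟩
  simp only
  split_ifs
  · exact le_min zero_le_one (hh_nonneg _ _)
  · exact zero_le_one

theorem fn_lip (c : ℤ) (n : ℕ) (z : ℕ → Bool) : LipschitzWith 1 (fn c n z) := by
  classical
  apply LipschitzWith.of_le_add
  intro x y
  rw [← sub_le_iff_le_add]
  apply le_ciInf
  intro d
  rw [sub_le_iff_le_add]
  refine (ciInf_le (fn_bdd c n z x) d).trans ?_
  split_ifs
  · have h1 := hh_lip n (x - vec d) (y - vec d)
    rw [dist_sub_right] at h1
    rcases le_total 1 (hh n (y - vec d)) with h | h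
    · rw [min_eq_left h]
      have := min_le_left 1 (hh n (x - vec d))
      have := dist_nonneg (x := x) (y := y)
      linarith
    · rw [min_eq_right h]
      exact (min_le_right _ _).trans h1
  · have := dist_nonneg (x := x) (y := y)
    linarith

/-- The Borel maps of the reduction. -/
noncomputable def FF (c : ℤ) (z : ℕ → Bool) : ℕ → Y := fun n => ⟨fn c n z, fn_lip c n z⟩

theorem meas_SS (c : ℤ) (n : ℕ) (d : List ℕ →₀ ℤ) : MeasurableSet {z | d ∈ SS c n z} := by
  have : {z | d ∈ SS c n z} = {z | (∀ s ∈ d.support, s.length ≤ n) ∧ d [] = c ∧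
      ∀ s : List ℕ, s.length < n → sg s d = d s} ∩ ⋂ s ∈ d.support, {z | s ∈ Tr z} := by
    ext z
    simp only [SS, mem_ofPred_eq, mem_inter_iff, mem_iInter]
  rw [this]
  refine (MeasurableSet.const _).inter ?_
  exact Finset.measurableSet_biInter _ fun s _ => measurableSet_Tr s

theorem meas_FF (c : ℤ) : Measurable (FF c) := by
  classical
  rw [measurable_pi_iff]
  intro n
  rw [← ev_meas.measurable_comp_iff, measurable_pi_iff]
  intro i
  change Measurable (fun z => ⨅ d : List ℕ →₀ ℤ,
    (if d ∈ SS c n z then min 1 (hh n (qq i - vec d)) else 1))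
  refine Measurable.iInf fun d => ?_
  exact Measurable.ite (meas_SS c n d) measurable_const measurable_const

open Classical in
/-- The finite piece of a branch. -/
noncomputable def db (β : ℕ → ℕ) (n : ℕ) : List ℕ →₀ ℤ :=
  Finsupp.onFinset ((Finset.range (n + 1)).image (pre β))
    (fun s => if s.length ≤ n ∧ s = pre β s.length then 1 else 0) (by
      intro s hs
      have h1 : s.length ≤ n ∧ s = pre β s.length := by
        by_contra h
        exact hs (if_neg h)
      rw [Finset.mem_image]
      exact ⟨s.length, Finset.mem_range.mpr (Nat.lt_succ_of_le h1.1), h1.2.symm⟩)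

open Classical in
theorem db_apply (β : ℕ → ℕ) (n : ℕ) (s : List ℕ) :
    db β n s = if s.length ≤ n ∧ s = pre β s.length then 1 else 0 := rfl

theorem sg_db (β : ℕ → ℕ) (n : ℕ) (s : List ℕ) (hs : s.length < n) :
    sg s (db β n) = db β n s := by
  classical
  unfold sg
  rw [finsum_eq_single _ (β s.length)]
  · rw [db_apply, db_apply]
    congr 1
    simp only [List.length_cons, pre, List.cons.injEq, true_and, eq_iff_iff]
    constructor
    · rintro ⟨h1, h2⟩
      exact ⟨by omega, h2⟩
    · rintro ⟨h1, h2⟩
      exact ⟨by omega, h2⟩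
  · intro i hi
    rw [db_apply, if_neg]
    rintro ⟨-, h2⟩
    simp only [List.length_cons, pre, List.cons.injEq] at h2
    exact hi h2.1

theorem add_mem_SS {β : ℕ → ℕ} {z : ℕ → Bool} (hβ : ∀ n, pre β n ∈ Tr z) (n : ℕ)
    (d : List ℕ →₀ ℤ) : d + db β n ∈ SS 1 n z ↔ d ∈ SS 0 n z := by
  classical
  have hdb : ∀ s ∈ (db β n).support, s.length ≤ n ∧ s ∈ Tr z := by
    intro s hs
    rw [Finsupp.mem_support_iff, db_apply] at hs
    have h1 : s.length ≤ n ∧ s = pre β s.length := by
      by_contra h
      exact hs (if_neg h)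
    refine ⟨h1.1, ?_⟩
    rw [h1.2]
    exact hβ _
  have hnil : db β n [] = 1 := by
    rw [db_apply, if_pos]
    exact ⟨Nat.zero_le _, rfl⟩
  have hsub : ∀ a b : List ℕ →₀ ℤ, ∀ s ∈ (a + b).support, s ∈ a.support ∨ s ∈ b.support := by
    intro a b s hs
    by_contra h
    push Not at h
    simp only [Finsupp.mem_support_iff, not_not] at h
    rw [Finsupp.mem_support_iff, Finsupp.add_apply, h.1, h.2] at hs
    exact hs rfl
  constructor
  · rintro ⟨⟨h1, h2, h3⟩, h4⟩
    have hd : ∀ s ∈ d.support, s.length ≤ n ∧ s ∈ Tr z := by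
      intro s hs
      have e : d = (d + db β n) + (-db β n) := by abel
      rw [e] at hs
      rcases hsub _ _ s hs with h | h
      · exact ⟨h1 s h, h4 s h⟩
      · rw [Finsupp.support_neg] at h
        exact hdb s h
    refine ⟨⟨fun s hs => (hd s hs).1, ?_, ?_⟩, fun s hs => (hd s hs).2⟩
    · rw [Finsupp.add_apply, hnil] at h2
      linarith
    · intro s hs
      have h5 := h3 s hs
      rw [sg_add, sg_db β n s hs, Finsupp.add_apply] at h5
      linarith
  · rintro ⟨⟨h1, h2, h3⟩, h4⟩
    refine ⟨⟨fun s hs => ?_, ?_, ?_⟩, fun s hs => ?_⟩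
    · rcases hsub _ _ s hs with h | h
      · exact h1 s h
      · exact (hdb s h).1
    · rw [Finsupp.add_apply, hnil, h2]
      norm_num
    · intro s hs
      rw [sg_add, sg_db β n s hs, Finsupp.add_apply, h3 s hs]
    · rcases hsub _ _ s hs with h | h
      · exact h4 s h
      · exact (hdb s h).2

theorem L1 {β : ℕ → ℕ} {z : ℕ → Bool} (hβ : ∀ n, pre β n ∈ Tr z) :
    vb β +ᵥ FF 0 z = FF 1 z := by
  classical
  funext n
  apply Subtype.ext
  funext x
  change fn 0 n z (x - vb β) = fn 1 n z x
  unfold fn
  apply (Equiv.addRight (db β n)).surjective.iInf_congr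
  intro d
  change (if d + db β n ∈ SS 1 n z then min 1 (hh n (x - vec (d + db β n))) else 1) =
    (if d ∈ SS 0 n z then min 1 (hh n (x - vb β - vec d)) else 1)
  by_cases hd : d ∈ SS 0 n z
  · rw [if_pos ((add_mem_SS hβ n d).mpr hd), if_pos hd]
    congr 1
    apply hh_congr
    intro m hm
    change x m - vec (d + db β n) m = x m - vb β m - vec d m
    rw [vec_apply, vec_apply, vb_apply, Finsupp.add_apply, db_apply]
    by_cases h : nd m = pre β (nd m).length
    · rw [if_pos h, if_pos ⟨hm, h⟩]
      push_cast
      ring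
    · rw [if_neg h, if_neg (fun h' => h h'.2)]
      push_cast
      ring
  · rw [if_neg (fun h' => hd ((add_mem_SS hβ n d).mp h')), if_neg hd]

theorem L2 {z : ℕ → Bool} (v : G) (hv : v +ᵥ FF 0 z = FF 1 z) : z ∈ IF := by
  classical
  have h1 : ∀ n, fn 1 n z v ≤ 0 := by
    intro n
    have h2 := congrFun hv n
    have h3 := congrFun (congrArg Subtype.val h2) v
    change fn 0 n z (v - v) = fn 1 n z v at h3
    rw [← h3, sub_self]
    refine (ciInf_le (fn_bdd 0 n z 0) 0).trans ?_
    have h4 : (0 : List ℕ →₀ ℤ) ∈ SS 0 n z := by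
      refine ⟨⟨by simp, by simp, ?_⟩, by simp⟩
      intro s _
      simp [sg]
    rw [if_pos h4]
    refine (min_le_right _ _).trans ?_
    have h5 : (0 : G) - vec 0 = 0 := by
      rw [zero_sub, neg_eq_zero]
      apply lp.ext
      funext m
      rw [vec_apply]
      simp
    rw [h5, hh_zero]
  have h2 : ∀ n, ∃ d ∈ SS 1 n z, hh n (v - vec d) < (1 / 2 : ℝ) ^ n / 2 := by
    intro n
    have h3 : fn 1 n z v < (1 / 2 : ℝ) ^ n / 2 := lt_of_le_of_lt (h1 n) (by positivity)
    obtain ⟨d, hd⟩ := exists_lt_of_ciInf_lt h3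
    have h4 : (1 / 2 : ℝ) ^ n / 2 < 1 := by
      have : (1 / 2 : ℝ) ^ n ≤ 1 := pow_le_one₀ (by norm_num) (by norm_num)
      linarith
    by_cases h5 : d ∈ SS 1 n z
    · rw [if_pos h5] at hd
      refine ⟨d, h5, ?_⟩
      rcases min_lt_iff.mp hd with h6 | h6
      · linarith
      · exact h6
    · rw [if_neg h5] at hd
      linarith
  choose d hd1 hd2 using h2
  let c : List ℕ → ℤ := fun s => round (v (Encodable.encode s) / W s)
  have hc : ∀ n (s : List ℕ), s.length ≤ n → d n s = c s := by
    intro n s hs
    have h3 := le_hh n (v - vec (d n)) (Encodable.encode s) (by rw [nd_encode]; exact hs)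
    have h4 := lt_of_le_of_lt h3 (hd2 n)
    change |v (Encodable.encode s) - vec (d n) (Encodable.encode s)| < _ at h4
    rw [vec_apply, nd_encode] at h4
    have h5 : (1 / 2 : ℝ) ^ n ≤ W s := by
      unfold W
      exact pow_le_pow_of_le_one (by norm_num) (by norm_num) hs
    have h6 := W_pos s
    have h7 : |v (Encodable.encode s) / W s - (d n s : ℝ)| < 1 / 2 := by
      have h8 : v (Encodable.encode s) / W s - (d n s : ℝ) =
          (v (Encodable.encode s) - W s * (d n s : ℝ)) / W s := by
        field_simp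
      rw [h8, abs_div, abs_of_pos h6, div_lt_iff₀ h6]
      linarith
    symm
    have h9 : |v (Encodable.encode s) / W s - (d n s : ℝ)| < 1 / 2 := h7
    rw [abs_lt] at h9
    change round (v (Encodable.encode s) / W s) = d n s
    rw [round_eq, Int.floor_eq_iff]
    constructor <;> linarith [h9.1, h9.2]
  have hroot : c [] ≠ 0 := by
    rw [← hc 0 [] (Nat.le_refl _), (hd1 0).1.2.1]
    exact one_ne_zero
  have htree : ∀ s, c s ≠ 0 → s ∈ Tr z := by
    intro s hs
    rw [← hc s.length s le_rfl] at hs
    exact (hd1 s.length).2 s (Finsupp.mem_support_iff.mpr hs)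
  have hchild : ∀ s, c s ≠ 0 → ∃ i, c (i :: s) ≠ 0 := by
    intro s hs
    by_contra hcon
    push Not at hcon
    apply hs
    rw [← hc (s.length + 1) s (Nat.le_succ _), ← (hd1 (s.length + 1)).1.2.2 s (Nat.lt_succ_self _)]
    unfold sg
    apply finsum_eq_zero_of_forall_eq_zero
    intro i
    rw [hc (s.length + 1) (i :: s) (by simp), hcon i]
  choose! g hg using hchild
  let t : ℕ → List ℕ := fun n => Nat.rec [] (fun _ s => g s :: s) n
  have ht0 : t 0 = [] := rfl
  have ht : ∀ n, t (n + 1) = g (t n) :: t n := fun n => rfl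
  have htc : ∀ n, c (t n) ≠ 0 := by
    intro n
    induction n with
    | zero => exact hroot
    | succ n ih =>
      rw [ht]
      exact hg _ ih
  refine ⟨fun n => g (t n), fun n => ?_⟩
  have hpre : pre (fun n => g (t n)) n = t n := by
    induction n with
    | zero => rfl
    | succ n ih =>
      rw [ht]
      change g (t n) :: pre (fun n => g (t n)) n = g (t n) :: t n
      rw [ih]
  rw [hpre]
  exact htree _ (htc n)

/-- The negation of the preceding statement: For every jointly Borel action of the additive group of ℓ² on a standard Borel space, the orbit equivalence relation is a Borel subset of X × X; that is, (ℓ², +) is tame. -/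
theorem result :
    ¬ (∀ (X : Type) [mX : MeasurableSpace X] [StandardBorelSpace X]
      [AddAction (lp (fun _ : ℕ => ℝ) 2) X],
      @Measurable (lp (fun _ : ℕ => ℝ) 2 × X) X
        (MeasurableSpace.comap Prod.fst (borel (lp (fun _ : ℕ => ℝ) 2)) ⊔
          MeasurableSpace.comap Prod.snd mX) mX
        (fun p => p.1 +ᵥ p.2) →
      MeasurableSet {p : X × X | ∃ g : lp (fun _ : ℕ => ℝ) 2, g +ᵥ p.1 = p.2}) := by
  intro h
  have hact : @Measurable (G × (ℕ → Y)) (ℕ → Y)
        (MeasurableSpace.comap Prod.fst (borel G) ⊔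
          MeasurableSpace.comap Prod.snd inferInstance) inferInstance
        (fun p => p.1 +ᵥ p.2) := by
    let : MeasurableSpace G := borel G
    have : BorelSpace G := ⟨rfl⟩
    change Measurable (fun p : G × (ℕ → Y) => p.1 +ᵥ p.2)
    rw [measurable_pi_iff]
    intro n
    have h1 : Measurable (fun p : G × Y => p.1 +ᵥ p.2) := meas_action
    exact h1.comp (measurable_fst.prodMk ((measurable_pi_apply n).comp measurable_snd))
  have hE := h (ℕ → Y) hact
  have h1 : Measurable (fun z : ℕ → Bool => (FF 0 z, FF 1 z)) :=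
    (meas_FF 0).prodMk (meas_FF 1)
  have h2 := h1 hE
  apply not_measurableSet_IF
  have h3 : IF = (fun z : ℕ → Bool => (FF 0 z, FF 1 z)) ⁻¹'
      {p : (ℕ → Y) × (ℕ → Y) | ∃ g : lp (fun _ : ℕ => ℝ) 2, g +ᵥ p.1 = p.2} := by
    ext z
    constructor
    · rintro ⟨β, hβ⟩
      exact ⟨vb β, L1 hβ⟩
    · rintro ⟨v, hv⟩
      exact L2 v hv
  rw [h3]
  exact h2

end Pool.Agent.S09242
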