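import Pool.Statements.S09247
import Pool.Agent.Helper384.Det
import Pool.Agent.Helper384.Minimax

set_option autoImplicit false
open Pool Pool.MP_0e8720_lc

namespace Pool.Agent.S09247

open Pool.Agent.Helper384

section conv

variable {n : ℕ}

lemma sum_get (σ : List (ℝ × Finset (Fin n))) (p : ℕ → Prop) [DecidablePred p] :
    ∑ i ∈ Finset.univ.filter (fun i : Fin σ.length => p i.1), (σ.get i).1
      = ∑ k ∈ Finset.range σ.length, (if p k then (σ.getD k default).1 else 0) := by
  rw [Finset.sum_filter, ← Fin.sum_univ_eq_sum_range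
    (fun k => if p k then (σ.getD k default).1 else 0) σ.length]
  apply Finset.sum_congr rfl
  intro i _
  have : σ.getD i.1 default = σ.get i := by simp
  rw [this]

lemma aload_eq (A : List (ℝ × Finset (Fin n)) → Fin n) (σ : List (ℝ × Finset (Fin n))) (j : Fin n) :
    ∑ i ∈ Finset.univ.filter (fun i : Fin σ.length => A (σ.take (i.1 + 1)) = j), (σ.get i).1
      = aload (fun u => A u.reverse) σ.reverse j := by
  classical
  rw [sum_get σ (fun k => A (σ.take (k + 1)) = j)]
  induction σ using List.reverseRecOn with
  | nil => simp [aload]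
  | append_singleton l t ih =>
    rw [List.reverse_append]
    simp only [List.reverse_cons, List.reverse_nil, List.nil_append, List.cons_append, aload,
      Pi.add_apply, Pi.smul_apply, smul_eq_mul, List.reverse_reverse]
    rw [← ih, List.length_append, List.length_singleton, Finset.sum_range_succ]
    congr 1
    · apply Finset.sum_congr rfl
      intro k hk
      have hk' := Finset.mem_range.1 hk
      rw [List.take_append_of_le_length (by omega), List.getD_append _ _ _ _ hk']
    · have h1 : (l ++ [t]).take (l.length + 1) = l ++ [t] := by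
        apply List.take_of_length_le; simp
      have h2 : (l ++ [t]).getD l.length default = t := by simp
      rw [h1, h2]
      by_cases h : A (l ++ [t]) = j
      · rw [if_pos h, h]; simp
      · rw [if_neg h]
        have : j ≠ A (l ++ [t]) := fun h' => h h'.symm
        simp [this]

lemma oload_eq (o : ℕ → Fin n) (σ : List (ℝ × Finset (Fin n))) (j : Fin n) :
    ∑ i ∈ Finset.univ.filter (fun i : Fin σ.length => o i.1 = j), (σ.get i).1
      = oload o σ.reverse j := by
  classical
  rw [sum_get σ (fun k => o k = j)]
  induction σ using List.reverseRecOn with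
  | nil => simp [oload]
  | append_singleton l t ih =>
    rw [List.reverse_append]
    simp only [List.reverse_cons, List.reverse_nil, List.nil_append, List.cons_append, oload,
      Pi.add_apply, Pi.smul_apply, smul_eq_mul, List.length_reverse]
    rw [← ih, List.length_append, List.length_singleton, Finset.sum_range_succ]
    congr 1
    · apply Finset.sum_congr rfl
      intro k hk
      have hk' := Finset.mem_range.1 hk
      rw [List.getD_append _ _ _ _ hk']
    · have h2 : (l ++ [t]).getD l.length default = t := by simp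
      rw [h2]
      by_cases h : o l.length = j
      · rw [if_pos h, h]; simp
      · rw [if_neg h]
        have : j ≠ o l.length := fun h' => h h'.symm
        simp [this]

lemma val_of (o : ℕ → Fin n) (σ : List (ℝ × Finset (Fin n)))
    (h1 : ∀ t ∈ σ, 0 < t.1 ∧ t.2.Nonempty) (h2 : ∀ k (hk : k < σ.length), o k ∈ (σ[k]).2) :
    Val o σ.reverse := by
  induction σ using List.reverseRecOn with
  | nil => simp [Val]
  | append_singleton l t ih =>
    rw [List.reverse_append]
    simp only [List.reverse_cons, List.reverse_nil, List.nil_append, List.cons_append, Val,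
      List.length_reverse]
    refine ⟨ih (fun s hs => h1 s (by simp [hs])) ?_, (h1 t (by simp)).1, ?_⟩
    · intro k hk
      have := h2 k (by simp; omega)
      rwa [List.getElem_append_left hk] at this
    · have := h2 l.length (by simp)
      simpa using this

end conv

/-- Some constant C exists such that for every n there is a randomized online algorithm for restricted assignment on n machines. On any sequence of positive-weight tasks, its expected maximum load is at most (ln n + C) times the maximum load of any feasible offline assignment. -/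
theorem result :
    ∃ C : ℝ, ∀ n : ℕ, 1 ≤ n →
      ∃ (Ω : Type) (_ : MeasurableSpace Ω) (μ : MeasureTheory.Measure Ω)
        (_ : MeasureTheory.IsProbabilityMeasure μ)
        (A : Ω → List (ℝ × Finset (Fin n)) → Fin n),
        (∀ (ω : Ω) (l : List (ℝ × Finset (Fin n))) (t : ℝ × Finset (Fin n)),
            t.2.Nonempty → A ω (l ++ [t]) ∈ t.2) ∧
        (∀ l : List (ℝ × Finset (Fin n)), Measurable (fun ω => A ω l)) ∧
        ∀ σ : List (ℝ × Finset (Fin n)),
          (∀ t ∈ σ, 0 < t.1 ∧ t.2.Nonempty) →
          ∀ f : Fin σ.length → Fin n, (∀ i, f i ∈ (σ.get i).2) →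
            ∫ ω, (⨆ j : Fin n,
                ∑ i ∈ Finset.univ.filter
                    (fun i : Fin σ.length => A ω (σ.take (i.1 + 1)) = j),
                  (σ.get i).1) ∂μ
              ≤ (Real.log n + C) *
                ⨆ j : Fin n,
                  ∑ i ∈ Finset.univ.filter (fun i : Fin σ.length => f i = j),
                    (σ.get i).1 := by
  classical
  refine ⟨Cst, ?_⟩
  intro n hn
  haveI : Nonempty (Fin n) := ⟨⟨0, hn⟩⟩
  let S : Set (List (ℝ × Finset (Fin n)) → Fin n) :=
    {a | ∀ (l : List (ℝ × Finset (Fin n))) (t : ℝ × Finset (Fin n)), t.2.Nonempty → a (l ++ [t]) ∈ t.2}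
  have hSclosed : IsClosed S := by
    have : S = ⋂ (l : List (ℝ × Finset (Fin n))) (t : ℝ × Finset (Fin n)) (_ : t.2.Nonempty),
        (fun a : List (ℝ × Finset (Fin n)) → Fin n => a (l ++ [t])) ⁻¹' (t.2 : Set (Fin n)) := by
      ext a
      simp [S]
    rw [this]
    refine isClosed_iInter fun l => isClosed_iInter fun t => isClosed_iInter fun _ => ?_
    exact IsClosed.preimage (continuous_apply _) (isClosed_discrete _)
  haveI : CompactSpace S := isCompact_iff_compactSpace.1 hSclosed.isCompact
  letI : MeasurableSpace S := borel S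
  haveI : BorelSpace S := ⟨rfl⟩
  have hevalc : ∀ l : List (ℝ × Finset (Fin n)), Continuous (fun ω : S => ω.1 l) := fun l =>
    (continuous_apply l).comp continuous_subtype_val
  -- cost functions
  let LD : S → List (ℝ × Finset (Fin n)) → ℝ := fun ω σ => ⨆ j : Fin n,
    ∑ i ∈ Finset.univ.filter (fun i : Fin σ.length => ω.1 (σ.take (i.1 + 1)) = j), (σ.get i).1
  have hLDc : ∀ σ, Continuous (fun ω => LD ω σ) := by
    intro σ
    let r : S → (Fin σ.length → Fin n) := fun ω i => ω.1 (σ.take (i.1 + 1))
    have hr : Continuous r := continuous_pi fun i => hevalc _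
    let H : (Fin σ.length → Fin n) → ℝ := fun x => ⨆ j : Fin n,
      ∑ i ∈ Finset.univ.filter (fun i : Fin σ.length => x i = j), (σ.get i).1
    have hH : Continuous H := continuous_of_discreteTopology
    exact hH.comp hr
  let OFF : (σ : List (ℝ × Finset (Fin n))) → (Fin σ.length → Fin n) → ℝ := fun σ f =>
    ⨆ j : Fin n, ∑ i ∈ Finset.univ.filter (fun i : Fin σ.length => f i = j), (σ.get i).1
  let bf : (σ : List (ℝ × Finset (Fin n))) → (Fin σ.length → Fin n) → C(S, ℝ) := fun σ f =>
    ⟨fun ω => LD ω σ - (Real.log n + Cst) * OFF σ f, (hLDc σ).sub continuous_const⟩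
  let B : Set C(S, ℝ) := {g | ∃ (σ : List (ℝ × Finset (Fin n))) (f : Fin σ.length → Fin n),
    σ ≠ [] ∧ (∀ t ∈ σ, 0 < t.1 ∧ t.2.Nonempty) ∧ (∀ i, f i ∈ (σ.get i).2) ∧ g = bf σ f}
  have hBne : B.Nonempty := by
    refine ⟨bf [(1, Finset.univ)] (fun _ => ⟨0, hn⟩), [(1, Finset.univ)], fun _ => ⟨0, hn⟩, by simp,
      ?_, ?_, rfl⟩
    · intro t ht
      rw [List.mem_singleton] at ht
      subst ht
      exact ⟨one_pos, Finset.univ_nonempty⟩
    · intro i
      simp
  have hhull : ∀ g ∈ convexHull ℝ B, ∃ ω, g ω ≤ 0 := by
    intro g hg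
    rw [convexHull_eq] at hg
    obtain ⟨κ, J, w, z, hw0, hw1, hz, hg⟩ := hg
    have hz' : ∀ i : κ, ∃ (σ : List (ℝ × Finset (Fin n))) (f : Fin σ.length → Fin n), i ∈ J →
        (σ ≠ [] ∧ (∀ t ∈ σ, 0 < t.1 ∧ t.2.Nonempty) ∧ (∀ i, f i ∈ (σ.get i).2) ∧ z i = bf σ f) := by
      intro i
      by_cases hi : i ∈ J
      · obtain ⟨σ, f, h⟩ := hz i hi
        exact ⟨σ, f, fun _ => h⟩
      · exact ⟨[], fun i => i.elim0, fun h => absurd h hi⟩
    choose σ f hσf using hz'
    let o : κ → ℕ → Fin n := fun i k => if h : k < (σ i).length then f i ⟨k, h⟩ else ⟨0, hn⟩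
    have hoff : ∀ i, ∀ j, ∑ l ∈ Finset.univ.filter (fun l : Fin (σ i).length => f i l = j),
        ((σ i).get l).1 = oload (o i) (σ i).reverse j := by
      intro i j
      rw [← oload_eq]
      apply Finset.sum_congr _ (fun _ _ => rfl)
      ext l
      simp [o]
    have hval : ∀ i ∈ J, Val (o i) (σ i).reverse := by
      intro i hi
      obtain ⟨h1, h2, h3, h4⟩ := hσf i hi
      apply val_of _ _ h2
      intro k hk
      simp only [o, dif_pos hk]
      exact h3 ⟨k, hk⟩
    let L : κ → ℝ := fun i => OFF (σ i) (f i)
    have hLeq : ∀ i, L i = ⨆ j, oload (o i) (σ i).reverse j := by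
      intro i
      simp only [L, OFF, hoff]
    have hoL : ∀ i, ∀ j, oload (o i) (σ i).reverse j ≤ L i := by
      intro i j
      rw [hLeq]
      exact le_ciSup (f := fun j => oload (o i) (σ i).reverse j) (Set.finite_range _).bddAbove j
    have hLpos : ∀ i ∈ J, 0 < L i := by
      intro i hi
      obtain ⟨h1, h2, h3, h4⟩ := hσf i hi
      have hv := hval i hi
      have hne : (σ i).reverse ≠ [] := by simpa using h1
      obtain ⟨t, u, htu⟩ := List.exists_cons_of_ne_nil hne
      have h5 := weight_le_oload hv (hoL i) t (by rw [htu]; exact List.mem_cons_self)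
      have h6 := hv.pos t (by rw [htu]; exact List.mem_cons_self)
      linarith
    let q : κ → ℝ := fun i => if i ∈ J then w i * L i else 0
    have hq : ∀ i, 0 ≤ q i := by
      intro i
      simp only [q]
      split_ifs with hi
      · exact mul_nonneg (hw0 i hi) (hLpos i hi).le
      · exact le_rfl
    obtain ⟨a, ha1, ha2⟩ := det_main (ι := Fin n) (n := n) (by simp) hn J (fun i => (σ i).reverse) o L q
      hval hLpos (fun i _ => hoL i) hq
    let ω : S := ⟨fun l => a l.reverse, by
      intro l t ht
      simp only [List.reverse_append, List.reverse_cons, List.reverse_nil, List.nil_append,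
        List.cons_append]
      exact ha1 t _ ht⟩
    refine ⟨ω, ?_⟩
    have hLDω : ∀ i, LD ω (σ i) = ⨆ j, aload a (σ i).reverse j := by
      intro i
      simp only [LD, ω]
      congr 1
      funext j
      rw [aload_eq (fun l => a l.reverse)]
      simp only [List.reverse_reverse]
    have hgω : g ω = ∑ i ∈ J, w i * (LD ω (σ i) - (Real.log n + Cst) * L i) := by
      rw [← hg, Finset.centerMass_eq_of_sum_1 _ _ hw1]
      rw [ContinuousMap.sum_apply]
      apply Finset.sum_congr rfl
      intro i hi
      rw [ContinuousMap.smul_apply, (hσf i hi).2.2.2]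
      rfl
    rw [hgω]
    have e1 : ∑ i ∈ J, q i * ((⨆ j, aload a (σ i).reverse j) / L i)
        = ∑ i ∈ J, w i * LD ω (σ i) := by
      apply Finset.sum_congr rfl
      intro i hi
      rw [hLDω]
      simp only [q, if_pos hi]
      have := (hLpos i hi).ne'
      field_simp
    have e2 : ∑ i ∈ J, q i = ∑ i ∈ J, w i * L i := by
      apply Finset.sum_congr rfl
      intro i hi
      simp only [q, if_pos hi]
    rw [e1, e2] at ha2
    have e3 : ∑ i ∈ J, w i * (LD ω (σ i) - (Real.log n + Cst) * L i)
        = ∑ i ∈ J, w i * LD ω (σ i) - (Real.log n + Cst) * ∑ i ∈ J, w i * L i := by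
      rw [Finset.mul_sum, ← Finset.sum_sub_distrib]
      apply Finset.sum_congr rfl
      intro i _
      ring
    rw [e3]
    linarith
  obtain ⟨μ, hμ, hμB⟩ := exists_measure B hBne hhull
  refine ⟨S, inferInstance, μ, hμ, fun ω => ω.1, ?_, ?_, ?_⟩
  · intro ω l t ht
    exact ω.2 l t ht
  · intro l
    apply measurable_to_countable'
    intro x
    exact ((isOpen_discrete {x}).preimage (hevalc l)).measurableSet
  · intro σ hσ f hf
    rcases eq_or_ne σ [] with h0 | h0
    · subst h0
      simp
    · have h1 := hμB (bf σ f) ⟨σ, f, h0, hσ, hf, rfl⟩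
      have h2 : ∫ ω, (bf σ f) ω ∂μ = ∫ ω, LD ω σ ∂μ - (Real.log n + Cst) * OFF σ f := by
        have hint : MeasureTheory.Integrable (fun ω => LD ω σ) μ :=
          (hLDc σ).integrable_of_hasCompactSupport (HasCompactSupport.of_compactSpace _)
        have : (fun ω => (bf σ f) ω) = fun ω => LD ω σ - (Real.log n + Cst) * OFF σ f := rfl
        rw [this, MeasureTheory.integral_sub hint (MeasureTheory.integrable_const _)]
        simp
      rw [h2] at h1
      have h3 : ∫ ω, LD ω σ ∂μ ≤ (Real.log n + Cst) * OFF σ f := by linarith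
      exact h3

end Pool.Agent.S09247
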