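import Pool.Statements.S09260

set_option autoImplicit false
open Cardinal
open Pool Pool.MP_15d45c_lc

namespace Pool.Agent.S09260

section Core

variable {W : Type} [LinearOrder W] [WellFoundedLT W]

omit [WellFoundedLT W] in
/-- Countable sets are strictly bounded. -/
lemma exists_bound (hc : ∀ x : W, (Set.Iic x).Countable) (hu : ¬ (Set.univ : Set W).Countable)
    {S : Set W} (hS : S.Countable) : ∃ b : W, ∀ s ∈ S, s < b := by
  by_contra h
  push Not at h
  apply hu
  have : (⋃ s ∈ S, Set.Iic s).Countable := hS.biUnion (fun s _ => hc s)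
  refine this.mono ?_
  intro b _
  obtain ⟨s, hs, hbs⟩ := h b
  exact Set.mem_biUnion hs hbs

/-- A set meeting every closure set above every point. -/
def Pos (X : Set W) : Prop := ∀ (g : W → W) (b : W), ∃ δ ∈ X, b < δ ∧ ∀ ξ < δ, g ξ < δ

omit [WellFoundedLT W] in
lemma pos_iUnion (hc : ∀ x : W, (Set.Iic x).Countable) (hu : ¬ (Set.univ : Set W).Countable)
    (X : ℕ → Set W) (h : Pos (⋃ n, X n)) : ∃ n, Pos (X n) := by
  by_contra hcon
  simp only [Pos, not_exists, not_forall] at hcon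
  push Not at hcon
  choose g b hgb using hcon
  have hb : ∃ b' : W, ∀ s ∈ Set.range b, s < b' := exists_bound hc hu (Set.countable_range b)
  obtain ⟨b', hb'⟩ := hb
  have hg : ∀ ξ : W, ∃ y : W, ∀ n, g n ξ < y := by
    intro ξ
    obtain ⟨y, hy⟩ := exists_bound hc hu (Set.countable_range (fun n => g n ξ))
    exact ⟨y, fun n => hy _ ⟨n, rfl⟩⟩
  choose G hG using hg
  obtain ⟨δ, hδ, hbδ, hcl⟩ := h G b'
  obtain ⟨n, hn⟩ := Set.mem_iUnion.1 hδ
  obtain ⟨ξ, hξ, hle⟩ := hgb n δ hn ((hb' _ ⟨n, rfl⟩).trans hbδ)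
  exact absurd ((hG ξ n).trans (hcl ξ hξ)) (not_lt.2 hle)

lemma pos_Ioi (hc : ∀ x : W, (Set.Iic x).Countable) (hu : ¬ (Set.univ : Set W).Countable)
    (a : W) : Pos (Set.Ioi a) := by
  intro g b
  have step : ∀ x : W, ∃ y : W, x < y ∧ ∀ ξ ≤ x, g ξ < y := by
    intro x
    have : (insert x (g '' Set.Iic x)).Countable := ((hc x).image g).insert x
    obtain ⟨y, hy⟩ := exists_bound hc hu this
    exact ⟨y, hy x (Set.mem_insert _ _), fun ξ hξ => hy _ (Set.mem_insert_of_mem _ ⟨ξ, hξ, rfl⟩)⟩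
  choose F hF1 hF2 using step
  let x : ℕ → W := fun n => Nat.rec (max a b) (fun _ y => F y) n
  have hx0 : x 0 = max a b := rfl
  have hxs : ∀ n, x (n+1) = F (x n) := fun n => rfl
  obtain ⟨y0, hy0⟩ := exists_bound hc hu (Set.countable_range x)
  let T : Set W := {y | ∀ n, x n < y}
  have hT : T.Nonempty := ⟨y0, fun n => hy0 _ ⟨n, rfl⟩⟩
  let δ := WellFounded.min (wellFounded_lt (α := W)) T hT
  have hδ : δ ∈ T := WellFounded.min_mem _ T hT
  have hmin : ∀ ξ < δ, ∃ n, ξ ≤ x n := by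
    intro ξ hξ
    by_contra hn
    push Not at hn
    exact WellFounded.not_lt_min (wellFounded_lt (α := W)) T (x := ξ) hn hξ
  refine ⟨δ, ?_, ?_, ?_⟩
  · exact lt_of_le_of_lt (le_max_left a b) (hx0 ▸ hδ 0)
  · exact lt_of_le_of_lt (le_max_right a b) (hx0 ▸ hδ 0)
  · intro ξ hξ
    obtain ⟨n, hn⟩ := hmin ξ hξ
    exact (hF2 (x n) ξ hn).trans (hxs n ▸ hδ (n+1))

/-- Countably many classes, each meeting every closure set (from an Ulam matrix). -/
lemma exists_partition (hc : ∀ x : W, (Set.Iic x).Countable)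
    (hu : ¬ (Set.univ : Set W).Countable) (e : W → W → ℕ)
    (he : ∀ b : W, Set.InjOn (e b) (Set.Iic b)) :
    ∃ f : W → ℕ, ∀ k : ℕ, Pos {δ | f δ = k} := by
  classical
  have h1 : ∀ ξ : W, ∃ n : ℕ, Pos {α : W | ξ < α ∧ e α ξ = n} := by
    intro ξ
    apply pos_iUnion hc hu
    have : (⋃ n, {α : W | ξ < α ∧ e α ξ = n}) = Set.Ioi ξ := by
      ext α
      simp
    rw [this]
    exact pos_Ioi hc hu ξ
  choose n hn using h1
  -- some value of n is attained infinitely often
  have h2 : ∃ m : ℕ, {ξ | n ξ = m}.Infinite := by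
    by_contra hcon
    push Not at hcon
    apply hu
    have : (⋃ m : ℕ, {ξ | n ξ = m}).Countable :=
      Set.countable_iUnion (fun m => (hcon m).countable)
    refine this.mono ?_
    intro ξ _
    exact Set.mem_iUnion.2 ⟨n ξ, rfl⟩
  obtain ⟨m, hm⟩ := h2
  let x : ℕ ↪ {ξ | n ξ = m} := hm.natEmbedding
  let f : W → ℕ := fun α => if h : ∃ k, (x k : W) < α ∧ e α (x k) = m then h.choose else 0
  refine ⟨f, fun k g b => ?_⟩
  have hxk : n (x k) = m := (x k).2
  obtain ⟨δ, ⟨h1, h2⟩, h3, h4⟩ := hn (x k) g b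
  refine ⟨δ, ?_, h3, h4⟩
  rw [hxk] at h2
  have hex : ∃ k, (x k : W) < δ ∧ e δ (x k) = m := ⟨k, h1, h2⟩
  have hf : f δ = hex.choose := by
    simp only [f]
    rw [dif_pos hex]
  obtain ⟨h5, h6⟩ := hex.choose_spec
  have h7 : (x hex.choose : W) = x k :=
    he δ (Set.mem_Iic.2 h5.le) (Set.mem_Iic.2 h1.le) (h6.trans h2.symm)
  show f δ = k
  rw [hf]
  exact x.injective (Subtype.ext h7)

open Classical in
/-- The square bracket: the least `x` in `(a, b]` with `e b x ≤ n`. -/
noncomputable def br (e : W → W → ℕ) (n : ℕ) (a b : W) : W :=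
  if h : {x : W | a < x ∧ x ≤ b ∧ e b x ≤ n}.Nonempty then
    WellFounded.min (wellFounded_lt (α := W)) _ h else b

lemma br_eq (e : W → W → ℕ) (n : ℕ) (a b δ : W) (h1 : a < δ) (h2 : δ ≤ b) (h3 : e b δ ≤ n)
    (h4 : ∀ x, a < x → x < δ → n < e b x) : br e n a b = δ := by
  have hne : {x : W | a < x ∧ x ≤ b ∧ e b x ≤ n}.Nonempty := ⟨δ, h1, h2, h3⟩
  unfold br
  rw [dif_pos hne]
  set y := WellFounded.min (wellFounded_lt (α := W)) _ hne with hy
  have hmem := WellFounded.min_mem (wellFounded_lt (α := W)) _ hne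
  rw [← hy] at hmem
  have hle : ¬ δ < y := by
    rw [hy]
    exact WellFounded.not_lt_min (wellFounded_lt (α := W)) {x : W | a < x ∧ x ≤ b ∧ e b x ≤ n}
      (x := δ) ⟨h1, h2, h3⟩
  rcases lt_trichotomy y δ with h | h | h
  · exact absurd hmem.2.2 (not_le.2 (h4 y hmem.1 h))
  · exact h
  · exact absurd h hle

/-- Todorcevic's theorem for countably many colours, in a strong form. -/
lemma main_lemma (hc : ∀ x : W, (Set.Iic x).Countable)
    (hu : ¬ (Set.univ : Set W).Countable) (e : W → W → ℕ)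
    (he : ∀ b : W, Set.InjOn (e b) (Set.Iic b))
    (r : W → (ℕ → Bool)) (hr : Function.Injective r)
    (f : W → ℕ) (hf : ∀ k : ℕ, Pos {δ | f δ = k})
    (Γ : Set W) (hΓ : ¬ Γ.Countable) (k : ℕ) :
    ∃ a ∈ Γ, ∃ b ∈ Γ, a < b ∧ k ≤ PiNat.firstDiff (r a) (r b) ∧
      f (br e (PiNat.firstDiff (r a) (r b)) a b) = k := by
  classical
  let A : (Σ n : ℕ, (Fin n → Bool)) → Set W := fun p => {α ∈ Γ | ∀ i : Fin p.1, r α i = p.2 i}
  -- bound for countable cells
  have hB : ∃ b : W, ∀ p, (A p).Countable → ∀ α ∈ A p, α < b := by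
    obtain ⟨b, hb⟩ := exists_bound hc hu
      (S := ⋃ p : {p // (A p).Countable}, A p.1) (Set.countable_iUnion (fun p => p.2))
    exact ⟨b, fun p hp α hα => hb α (Set.mem_iUnion.2 ⟨⟨p, hp⟩, hα⟩)⟩
  obtain ⟨B, hB⟩ := hB
  -- closure function
  have hpick : ∀ (ξ : W) (p), ¬ (A p).Countable → ∃ α ∈ A p, ξ < α := by
    intro ξ p hp
    by_contra hcon
    push Not at hcon
    exact hp ((hc ξ).mono (fun α hα => hcon α hα))
  have hG : ∀ ξ : W, ∃ y : W, ∀ p, ¬ (A p).Countable → ∃ α ∈ A p, ξ < α ∧ α < y := by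
    intro ξ
    choose q hq1 hq2 using hpick ξ
    obtain ⟨y, hy⟩ := exists_bound hc hu
      (S := Set.range (fun p : {p // ¬ (A p).Countable} => q p.1 p.2)) (Set.countable_range _)
    exact ⟨y, fun p hp => ⟨q p hp, hq1 p hp, hq2 p hp, hy _ ⟨⟨p, hp⟩, rfl⟩⟩⟩
  choose G hG using hG
  obtain ⟨δ, hδf, hBδ, hδcl⟩ := hf k G B
  -- pick b in Γ above δ
  obtain ⟨b, hbΓ, hδb⟩ : ∃ b ∈ Γ, δ ≤ b := by
    by_contra hcon
    push Not at hcon
    exact hΓ ((hc δ).mono (fun α hα => (hcon α hα).le))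
  -- restriction
  let R : ℕ → (Σ n : ℕ, (Fin n → Bool)) := fun n => ⟨n, fun i => r b i⟩
  have hbR : ∀ n, b ∈ A (R n) := fun n => ⟨hbΓ, fun i => rfl⟩
  have hRunc : ∀ n, ¬ (A (R n)).Countable := fun n hn =>
    absurd (hB _ hn b (hbR n)) (not_lt.2 (hBδ.le.trans hδb))
  let Fl : ℕ → (Σ n : ℕ, (Fin n → Bool)) :=
    fun m => ⟨m+1, fun i => if (i : ℕ) = m then !(r b m) else r b i⟩
  let N := max k (e b δ)
  obtain ⟨m, hNm, hm⟩ : ∃ m, N ≤ m ∧ ¬ (A (Fl m)).Countable := by
    by_contra hcon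
    push Not at hcon
    apply hRunc N
    have hcount : ({b} ∪ ⋃ m : {m // N ≤ m}, A (Fl m.1)).Countable :=
      (Set.countable_singleton b).union (Set.countable_iUnion (fun m => hcon m.1 m.2))
    refine hcount.mono ?_
    intro α hα
    by_cases hab : α = b
    · left; exact hab
    · right
      have hne : r α ≠ r b := fun h => hab (hr h)
      have hfd : N ≤ PiNat.firstDiff (r α) (r b) := by
        by_contra hlt
        push Not at hlt
        exact PiNat.apply_firstDiff_ne hne (hα.2 ⟨_, hlt⟩)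
      refine Set.mem_iUnion.2 ⟨⟨PiNat.firstDiff (r α) (r b), hfd⟩, hα.1, ?_⟩
      intro i
      by_cases hi : (i : ℕ) = PiNat.firstDiff (r α) (r b)
      · show r α i = if (i : ℕ) = PiNat.firstDiff (r α) (r b) then _ else _
        rw [if_pos hi, hi]
        have := PiNat.apply_firstDiff_ne hne
        revert this
        cases r α (PiNat.firstDiff (r α) (r b)) <;>
          cases r b (PiNat.firstDiff (r α) (r b)) <;> simp
      · show r α i = if (i : ℕ) = PiNat.firstDiff (r α) (r b) then _ else _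
        rw [if_neg hi]
        have hi2 : (i : ℕ) < PiNat.firstDiff (r α) (r b) := by
          have := i.2
          simp only [Fl] at this
          omega
        exact PiNat.apply_eq_of_lt_firstDiff hi2
  -- the finite set below δ
  have hfin : {ξ : W | ξ < δ ∧ e b ξ ≤ m}.Finite := by
    have : Set.InjOn (e b) {ξ : W | ξ < δ ∧ e b ξ ≤ m} :=
      (he b).mono (fun ξ hξ => Set.mem_Iic.2 (hξ.1.le.trans hδb))
    apply Set.Finite.of_finite_image _ this
    exact (Set.finite_Iic m).subset (by rintro _ ⟨ξ, hξ, rfl⟩; exact hξ.2)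
  obtain ⟨ξ, hξδ, hξ⟩ : ∃ ξ < δ, ∀ x ∈ {ξ : W | ξ < δ ∧ e b ξ ≤ m}, x ≤ ξ := by
    by_cases hne : {ξ : W | ξ < δ ∧ e b ξ ≤ m}.Nonempty
    · obtain ⟨y, hy, hy2⟩ := Set.exists_max_image _ id hfin hne
      exact ⟨y, hy.1, fun x hx => hy2 x hx⟩
    · rw [Set.not_nonempty_iff_eq_empty] at hne
      exact ⟨B, hBδ, fun x hx => by rw [hne] at hx; exact absurd hx (Set.notMem_empty x)⟩
  obtain ⟨a, haA, hξa, haG⟩ := hG ξ (Fl m) hm
  have haδ : a < δ := haG.trans (hδcl ξ hξδ)
  have hfd : PiNat.firstDiff (r a) (r b) = m := by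
    have h1 : ∀ i < m, r a i = r b i := by
      intro i hi
      have h0 : r a i = if i = m then !(r b m) else r b i := haA.2 ⟨i, Nat.lt_succ_of_lt hi⟩
      rw [h0, if_neg hi.ne]
    have h2 : r a m ≠ r b m := by
      have h0 : r a m = if m = m then !(r b m) else r b m := haA.2 ⟨m, Nat.lt_succ_self m⟩
      rw [h0, if_pos rfl]
      cases r b m <;> simp
    have hne : r a ≠ r b := fun h => h2 (by rw [h])
    apply le_antisymm
    · by_contra hlt
      push Not at hlt
      exact h2 (PiNat.apply_eq_of_lt_firstDiff hlt)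
    · by_contra hlt
      push Not at hlt
      exact PiNat.apply_firstDiff_ne hne (h1 _ hlt)
  refine ⟨a, haA.1, b, hbΓ, haδ.trans_le hδb, ?_, ?_⟩
  · rw [hfd]; exact (le_max_left _ _).trans hNm
  · rw [hfd]
    have : br e m a b = δ := by
      apply br_eq e m a b δ haδ hδb ((le_max_right _ _).trans hNm)
      intro x hax hxδ
      by_contra hle
      push Not at hle
      exact absurd (hξ x ⟨hxδ, hle⟩) (not_le.2 (hξa.trans hax))
    rw [this]
    exact hδf

omit [LinearOrder W] [WellFoundedLT W] in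
/-- In an infinite set of distinct points of Cantor space some point is split from
infinitely many others at one level. -/
lemma exists_level (r : W → (ℕ → Bool)) (hr : Function.Injective r) (T : Set W)
    (hT : T.Infinite) : ∃ a ∈ T, ∃ n : ℕ, {b ∈ T | PiNat.firstDiff (r a) (r b) = n}.Infinite := by
  by_contra hcon
  push Not at hcon
  obtain ⟨a, ha, a', ha', hne⟩ := hT.nontrivial
  have hrne : r a ≠ r a' := fun h => hne (hr h)
  set n0 := PiNat.firstDiff (r a) (r a') with hn0
  have hfin : ∀ x ∈ T, {b ∈ T | PiNat.firstDiff (r x) (r b) ≤ n0}.Finite := by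
    intro x hx
    have : {b ∈ T | PiNat.firstDiff (r x) (r b) ≤ n0}
        = ⋃ m ∈ Set.Iic n0, {b ∈ T | PiNat.firstDiff (r x) (r b) = m} := by
      ext b
      simp only [Set.mem_ofPred_eq, Set.mem_iUnion, Set.mem_Iic, exists_prop]
      constructor
      · rintro ⟨h1, h2⟩
        exact ⟨_, h2, h1, rfl⟩
      · rintro ⟨m, h1, h2, h3⟩
        exact ⟨h2, h3 ▸ h1⟩
    rw [this]
    exact (Set.finite_Iic n0).biUnion (fun m _ => hcon x hx m)
  obtain ⟨b, hbT, hb⟩ := hT.exists_notMem_finite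
    (((hfin a ha).union (hfin a' ha')).union (Set.toFinite {a, a'}))
  have hb1 : n0 < PiNat.firstDiff (r a) (r b) := by
    by_contra h
    push Not at h
    exact hb (Or.inl (Or.inl ⟨hbT, h⟩))
  have hb2 : n0 < PiNat.firstDiff (r a') (r b) := by
    by_contra h
    push Not at h
    exact hb (Or.inl (Or.inr ⟨hbT, h⟩))
  have h1 := PiNat.apply_eq_of_lt_firstDiff hb1
  have h2 := PiNat.apply_eq_of_lt_firstDiff hb2
  exact PiNat.apply_firstDiff_ne hrne (h1.trans h2.symm)

/-- The colouring. -/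
lemma core (hc : ∀ x : W, (Set.Iic x).Countable)
    (hu : ¬ (Set.univ : Set W).Countable)
    (r : W → (ℕ → Bool)) (hr : Function.Injective r) :
    ∃ d : W → W → W,
      (∀ Γ : Set W, ¬ Γ.Countable → ∀ ξ : W, ∃ a ∈ Γ, ∃ b ∈ Γ, a < b ∧ d a b = ξ) ∧
      (∀ T : Set W, T.Infinite →
        ∃ a ∈ T, ∃ b ∈ T, ∃ b' ∈ T, a < b ∧ a < b' ∧ b ≠ b' ∧ d a b = d a b') := by
  classical
  have he : ∀ b : W, ∃ g : W → ℕ, Set.InjOn g (Set.Iic b) := by
    intro b
    exact (Set.countable_iff_exists_injOn.1 (hc b))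
  choose e he using he
  obtain ⟨f, hf⟩ := exists_partition hc hu e he
  -- enumerations
  let E : W → ℕ → W := fun a n => if h : ∃ ξ ≤ a, e a ξ = n then h.choose else a
  have hE : ∀ a ξ : W, ξ ≤ a → E a (e a ξ) = ξ := by
    intro a ξ hξ
    have hex : ∃ ξ' ≤ a, e a ξ' = e a ξ := ⟨ξ, hξ, rfl⟩
    have h1 : E a (e a ξ) = hex.choose := by
      simp only [E]
      rw [dif_pos hex]
    rw [h1]
    exact he a (Set.mem_Iic.2 hex.choose_spec.1) (Set.mem_Iic.2 hξ) hex.choose_spec.2
  let n : W → W → ℕ := fun a b => PiNat.firstDiff (r a) (r b)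
  let c0 : W → W → ℕ := fun a b => f (br e (n a b) a b)
  let c1 : W → W → ℕ := fun a b => if c0 a b ≤ n a b then c0 a b else 0
  have hc1 : ∀ a b, c1 a b ≤ n a b := by
    intro a b
    simp only [c1]
    split_ifs with h
    · exact h
    · exact Nat.zero_le _
  refine ⟨fun a b => E a (c1 a b), ?_, ?_⟩
  · intro Γ hΓ ξ
    -- restrict to indices above ξ with the same code for ξ
    have h1 : ∃ k : ℕ, ¬ {a ∈ Γ | ξ ≤ a ∧ e a ξ = k}.Countable := by
      by_contra hcon
      push Not at hcon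
      apply hΓ
      have : (Set.Iic ξ ∪ ⋃ k : ℕ, {a ∈ Γ | ξ ≤ a ∧ e a ξ = k}).Countable :=
        (hc ξ).union (Set.countable_iUnion hcon)
      refine this.mono ?_
      intro a ha
      rcases le_total a ξ with h | h
      · exact Or.inl h
      · exact Or.inr (Set.mem_iUnion.2 ⟨e a ξ, ha, h, rfl⟩)
    obtain ⟨k, hk⟩ := h1
    obtain ⟨a, ha, b, hb, hab, hle, hfk⟩ := main_lemma hc hu e he r hr f hf _ hk k
    refine ⟨a, ha.1, b, hb.1, hab, ?_⟩
    have h2 : c0 a b = k := hfk
    have h3 : c1 a b = k := by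
      simp only [c1]
      rw [if_pos (by rw [h2]; exact hle), h2]
    show E a (c1 a b) = ξ
    rw [h3, ← ha.2.2]
    exact hE a ξ ha.2.1
  · intro T hT
    -- first infinitely many elements
    let T0 : Set W := {t ∈ T | (T ∩ Set.Iio t).Finite}
    have hT0 : T0.Infinite := by
      intro hfin
      have hne : (T \ T0).Nonempty := (hT.sdiff hfin).nonempty
      have hmem := WellFounded.min_mem (wellFounded_lt (α := W)) _ hne
      set t := WellFounded.min (wellFounded_lt (α := W)) _ hne with ht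
      apply hmem.2
      refine ⟨hmem.1, hfin.subset ?_⟩
      intro s hs
      by_contra hs0
      have : ¬ s < t := by
        rw [ht]
        exact WellFounded.not_lt_min (wellFounded_lt (α := W)) (T \ T0) (x := s) ⟨hs.1, hs0⟩
      exact this hs.2
    obtain ⟨a, ha, m, hm⟩ := exists_level r hr T0 hT0
    have hfa : (T ∩ Set.Iic a).Finite := by
      have : T ∩ Set.Iic a ⊆ (T ∩ Set.Iio a) ∪ {a} := by
        rintro x ⟨hx1, hx2⟩
        rcases lt_or_eq_of_le (Set.mem_Iic.1 hx2) with h | h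
        · exact Or.inl ⟨hx1, h⟩
        · exact Or.inr h
      exact (ha.2.union (Set.finite_singleton a)).subset this
    have hinf := hm.sdiff hfa
    obtain ⟨b, hb, b', hb', hbb, hceq⟩ := hinf.exists_ne_map_eq_of_mapsTo
      (f := fun b => c1 a b) (t := Set.Iic m) (by
        intro b hb
        have h1 : n a b = m := hb.1.2
        exact Set.mem_Iic.2 (h1 ▸ hc1 a b)) (Set.finite_Iic m)
    have hab : a < b := by
      by_contra h
      push Not at h
      exact hb.2 ⟨hb.1.1.1, h⟩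
    have hab' : a < b' := by
      by_contra h
      push Not at h
      exact hb'.2 ⟨hb'.1.1.1, h⟩
    refine ⟨a, ha.1, b, hb.1.1.1, b', hb'.1.1.1, hab, hab', hbb, ?_⟩
    show E a (c1 a b) = E a (c1 a b')
    exact congrArg (E a) hceq

end Core

/-- The negation of the preceding statement: For any colouring of the edges of the complete graph on ℵ₁ vertices with ℵ₁ colours such that every colour appears inside every ℵ₁-sized vertex set, there is a countably infinite vertex set whose edges all get distinct colours. -/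
theorem result :
    ¬ (∀ (V ι : Type), Cardinal.mk V = Cardinal.aleph 1 → Cardinal.mk ι = Cardinal.aleph 1 →
      ∀ c : Sym2 V → ι,
        (∀ α : ι, ∀ S : Set V, Cardinal.mk S = Cardinal.aleph 1 →
            ∃ x ∈ S, ∃ y ∈ S, x ≠ y ∧ c s(x, y) = α) →
        ∃ T : Set V, T.Infinite ∧ T.Countable ∧
          ∀ x ∈ T, ∀ y ∈ T, ∀ z ∈ T, ∀ w ∈ T, x ≠ y → z ≠ w →
            c s(x, y) = c s(z, w) → s(x, y) = s(z, w)) := by
  intro H
  let W : Type := (Cardinal.aleph 1).ord.ToType
  have hW : Cardinal.mk W = Cardinal.aleph 1 := Cardinal.mk_ord_toType _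
  have hc : ∀ x : W, (Set.Iic x).Countable := by
    intro x
    have h1 : Cardinal.mk (Set.Iio x) < Cardinal.aleph 1 := Cardinal.mk_Iio_toType_ord_lt x
    have h2 : (Set.Iio x).Countable := by
      rw [← Cardinal.le_aleph0_iff_set_countable]
      rw [← Order.lt_succ_iff, Cardinal.succ_aleph0]
      exact h1
    have h3 : Set.Iic x = insert x (Set.Iio x) := Set.Iio_insert.symm
    rw [h3]
    exact h2.insert x
  have hu : ¬ (Set.univ : Set W).Countable := by
    rw [← Cardinal.le_aleph0_iff_set_countable, Cardinal.mk_univ, hW, not_le]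
    exact Cardinal.aleph0_lt_aleph_one
  obtain ⟨r⟩ : Nonempty (W ↪ (ℕ → Bool)) := by
    have : Cardinal.mk W ≤ Cardinal.mk (ℕ → Bool) := by
      rw [hW]
      simp only [Cardinal.mk_pi, Cardinal.mk_bool, Cardinal.prod_const, Cardinal.lift_id,
        Cardinal.mk_nat]
      exact Cardinal.aleph_one_le_continuum
    exact this
  obtain ⟨d, hd1, hd2⟩ := core hc hu r r.injective
  let c : Sym2 W → W := Sym2.lift ⟨fun x y => d (min x y) (max x y), fun x y => by
    show d (min x y) (max x y) = d (min y x) (max y x)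
    rw [min_comm, max_comm]⟩
  have hcd : ∀ a b : W, a < b → c s(a, b) = d a b := by
    intro a b hab
    show d (min a b) (max a b) = d a b
    rw [min_eq_left hab.le, max_eq_right hab.le]
  obtain ⟨T, hT, -, hT2⟩ := H W W hW hW c (by
    intro α S hS
    have hSu : ¬ S.Countable := by
      rw [← Cardinal.le_aleph0_iff_set_countable, hS, not_le]
      exact Cardinal.aleph0_lt_aleph_one
    obtain ⟨a, ha, b, hb, hab, hd⟩ := hd1 S hSu α
    exact ⟨a, ha, b, hb, hab.ne, (hcd a b hab).trans hd⟩)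
  obtain ⟨a, ha, b, hb, b', hb', hab, hab', hne, heq⟩ := hd2 T hT
  have := hT2 a ha b hb a ha b' hb' hab.ne hab'.ne (by rw [hcd a b hab, hcd a b' hab', heq])
  rw [Sym2.eq_iff] at this
  rcases this with ⟨_, h⟩ | ⟨h1, h2⟩
  · exact hne h
  · exact hab'.ne h1

end Pool.Agent.S09260
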