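import Pool.Statements.S09263

set_option autoImplicit false
open scoped NNReal ENNReal
open Pool Pool.MP_173f50_lc

namespace Pool.Agent.S09263

open MeasureTheory Set Filter Topology

/-- The number of digit prefixes of length `k`. -/
def N : ℕ → ℕ
  | 0 => 1
  | k + 1 => N k * ((k + 1) * N k)

/-- The number of digits available at stage `k`. -/
def c (k : ℕ) : ℕ := (k + 1) * N k

theorem N_pos (k : ℕ) : 0 < N k := by
  induction k with
  | zero => simp [N]
  | succ k ih => simp only [N]; positivity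

theorem c_pos (k : ℕ) : 0 < c k := by
  have := N_pos k
  unfold c; positivity

theorem N_succ (k : ℕ) : N (k + 1) = N k * c k := rfl

theorem prod_c (k : ℕ) : ∏ i ∈ Finset.range k, c i = N k := by
  induction k with
  | zero => simp [N]
  | succ k ih => rw [Finset.prod_range_succ, ih, N_succ]

/-- The spacings. -/
noncomputable def s : ℕ → ℝ
  | 0 => 1
  | k + 1 => s k / (4 * (c (k + 1) : ℝ))

theorem s_pos (k : ℕ) : 0 < s k := by
  induction k with
  | zero => simp [s]
  | succ k ih =>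
    have : (0 : ℝ) < c (k + 1) := by exact_mod_cast c_pos (k + 1)
    simp only [s]; positivity

theorem c_mul_s (k : ℕ) : (c (k + 1) : ℝ) * s (k + 1) = s k / 4 := by
  have : (0 : ℝ) < c (k + 1) := by exact_mod_cast c_pos (k + 1)
  simp only [s]
  field_simp

theorem s_succ_le (k : ℕ) : s (k + 1) ≤ s k / 4 := by
  rw [← c_mul_s]
  have : (1 : ℝ) ≤ c (k + 1) := by exact_mod_cast c_pos (k + 1)
  have h := (s_pos (k + 1)).le
  nlinarith

theorem s_add_le (k j : ℕ) : s (k + j) ≤ s k * (1 / 4) ^ j := by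
  induction j with
  | zero => simp
  | succ j ih =>
    have := s_succ_le (k + j)
    rw [← add_assoc, pow_succ]
    linarith

theorem s_anti {i k : ℕ} (h : i ≤ k) : s k ≤ s i := by
  obtain ⟨j, rfl⟩ := Nat.exists_eq_add_of_le h
  refine (s_add_le i j).trans ?_
  have h1 : ((1 : ℝ) / 4) ^ j ≤ 1 := pow_le_one₀ (by norm_num) (by norm_num)
  have h2 := (s_pos i).le
  nlinarith

theorem s_tendsto : Tendsto s atTop (𝓝 0) := by
  have h : ∀ j, s j ≤ s 0 * (1 / 4) ^ j := by
    intro j
    have := s_add_le 0 j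
    rwa [zero_add] at this
  have h2 : Tendsto (fun j : ℕ => s 0 * (1 / 4 : ℝ) ^ j) atTop (𝓝 0) := by
    have := (tendsto_pow_atTop_nhds_zero_of_lt_one (r := (1 / 4 : ℝ)) (by norm_num)
      (by norm_num)).const_mul (s 0)
    simpa using this
  exact squeeze_zero (fun j => (s_pos j).le) h h2

theorem tail_hasSum (k : ℕ) : HasSum (fun j : ℕ => s k / 4 * (1 / 4 : ℝ) ^ j) (s k / 3) := by
  have h := (hasSum_geometric_of_lt_one (r := (1 / 4 : ℝ)) (by norm_num) (by norm_num)).mul_left
    (s k / 4)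
  have e : s k / 4 * (1 - 1 / 4)⁻¹ = s k / 3 := by ring
  rwa [e] at h

theorem term_bound (u : ℕ → ℝ) (hu : ∀ i, |u i| ≤ c i) (k j : ℕ) :
    ‖u (j + (k + 1)) * s (j + (k + 1))‖ ≤ s k / 4 * (1 / 4 : ℝ) ^ j := by
  rw [norm_mul, Real.norm_eq_abs, Real.norm_eq_abs, abs_of_pos (s_pos _)]
  have h1 : |u (j + (k + 1))| * s (j + (k + 1)) ≤ (c (j + (k + 1)) : ℝ) * s (j + (k + 1)) :=
    mul_le_mul_of_nonneg_right (hu _) (s_pos _).le
  have h2 : (c (j + (k + 1)) : ℝ) * s (j + (k + 1)) = s (k + j) / 4 := by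
    have : j + (k + 1) = (k + j) + 1 := by ring
    rw [this, c_mul_s]
  have h3 := s_add_le k j
  linarith

theorem summable_u (u : ℕ → ℝ) (hu : ∀ i, |u i| ≤ c i) : Summable (fun i => u i * s i) := by
  have : Summable (fun i => u (i + (0 + 1)) * s (i + (0 + 1))) :=
    Summable.of_norm_bounded (tail_hasSum 0).summable (fun j => term_bound u hu 0 j)
  exact (summable_nat_add_iff (f := fun i => u i * s i) (0 + 1)).mp this

theorem tail_bound (u : ℕ → ℝ) (hu : ∀ i, |u i| ≤ c i) (k : ℕ) :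
    |∑' j, u (j + (k + 1)) * s (j + (k + 1))| ≤ s k / 3 := by
  have := tsum_of_norm_bounded (tail_hasSum k) (fun j => term_bound u hu k j)
  rwa [Real.norm_eq_abs] at this

/-- The point with digit sequence `a`. -/
noncomputable def phi (a : ℕ → ℕ) : ℝ := ∑' i, (a i : ℝ) * s i

theorem diff_bound (a b : ℕ → ℕ) (ha : ∀ i, a i < c i) (hb : ∀ i, b i < c i) (i : ℕ) :
    |(a i : ℝ) - b i| ≤ c i := by
  have h1 : (a i : ℝ) < c i := by exact_mod_cast ha i
  have h2 : (b i : ℝ) < c i := by exact_mod_cast hb i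
  have h3 : (0 : ℝ) ≤ a i := Nat.cast_nonneg _
  have h4 : (0 : ℝ) ≤ b i := Nat.cast_nonneg _
  rw [abs_le]
  constructor <;> linarith

theorem phi_sub (a b : ℕ → ℕ) (ha : ∀ i, a i < c i) (hb : ∀ i, b i < c i) :
    phi a - phi b = ∑' i, ((a i : ℝ) - b i) * s i := by
  have hsa : Summable (fun i => (a i : ℝ) * s i) := by
    apply summable_u
    intro i
    rw [abs_of_nonneg (Nat.cast_nonneg _)]
    exact_mod_cast (ha i).le
  have hsb : Summable (fun i => (b i : ℝ) * s i) := by
    apply summable_u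
    intro i
    rw [abs_of_nonneg (Nat.cast_nonneg _)]
    exact_mod_cast (hb i).le
  unfold phi
  rw [← hsa.tsum_sub hsb]
  congr 1
  ext i
  ring

theorem near (a b : ℕ → ℕ) (ha : ∀ i, a i < c i) (hb : ∀ i, b i < c i) (k : ℕ)
    (h : ∀ i ≤ k, a i = b i) : |phi a - phi b| ≤ s k / 3 := by
  rw [phi_sub a b ha hb]
  have hu := diff_bound a b ha hb
  rw [← (summable_u _ hu).sum_add_tsum_nat_add (k + 1)]
  have h0 : ∑ i ∈ Finset.range (k + 1), ((a i : ℝ) - b i) * s i = 0 := by
    apply Finset.sum_eq_zero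
    intro i hi
    rw [h i (by simpa [Nat.lt_succ_iff] using hi)]
    simp
  rw [h0, zero_add]
  exact tail_bound (fun i => (a i : ℝ) - b i) hu k

theorem far (a b : ℕ → ℕ) (ha : ∀ i, a i < c i) (hb : ∀ i, b i < c i) (k : ℕ)
    (h : |phi a - phi b| < s k / 2) : ∀ i ≤ k, a i = b i := by
  by_contra hcon
  push Not at hcon
  classical
  obtain ⟨i0, hi0, hne0⟩ := hcon
  have hex : ∃ i, a i ≠ b i := ⟨i0, hne0⟩
  let m := Nat.find hex
  have hm : a m ≠ b m := Nat.find_spec hex
  have hmk : m ≤ k := (Nat.find_min' hex hne0).trans hi0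
  have hlt : ∀ i < m, a i = b i := by
    intro i hi
    by_contra h1
    exact Nat.find_min hex hi h1
  rw [phi_sub a b ha hb] at h
  have hu := diff_bound a b ha hb
  rw [← (summable_u _ hu).sum_add_tsum_nat_add (m + 1)] at h
  rw [Finset.sum_range_succ] at h
  have h0 : ∑ i ∈ Finset.range m, ((a i : ℝ) - b i) * s i = 0 := by
    apply Finset.sum_eq_zero
    intro i hi
    rw [hlt i (by simpa using hi)]
    simp
  rw [h0, zero_add] at h
  have ht := tail_bound (fun i => (a i : ℝ) - b i) hu m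
  have h1 : (1 : ℝ) ≤ |(a m : ℝ) - b m| := by
    have : (1 : ℤ) ≤ |(a m : ℤ) - b m| := by
      apply Int.one_le_abs
      intro h2
      apply hm
      have : (a m : ℤ) = b m := by linarith
      exact_mod_cast this
    exact_mod_cast this
  have h2 : s m ≤ |((a m : ℝ) - b m) * s m| := by
    rw [abs_mul, abs_of_pos (s_pos m)]
    have := (s_pos m).le
    nlinarith
  have h3 := s_anti hmk
  have h4 := s_pos m
  set T := ∑' j, ((a (j + (m + 1)) : ℝ) - b (j + (m + 1))) * s (j + (m + 1)) with hT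
  have h5 : |((a m : ℝ) - b m) * s m| ≤ |((a m : ℝ) - b m) * s m + T| + |T| := by
    have := abs_sub (((a m : ℝ) - b m) * s m + T) T
    rwa [add_sub_cancel_right] at this
  linarith

/-- The reciprocal of the number of prefixes available to the digit bound `d`. -/
noncomputable def M (d : ℕ → ℕ) (k : ℕ) : ℝ≥0 := (∏ i ∈ Finset.range (k + 1), (d i : ℝ≥0))⁻¹

/-- The step of the gauge function. -/
noncomputable def g (d : ℕ → ℕ) (k : ℕ) (t : ℝ≥0) : ℝ≥0 :=
  open Classical in if (t : ℝ) < s k / 2 then M d k else 1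

/-- The gauge function. -/
noncomputable def f (d : ℕ → ℕ) (t : ℝ≥0) : ℝ≥0 := ⨅ k, g d k t

/-- The Cantor set. -/
def K (d : ℕ → ℕ) : Set ℝ := {p | ∃ a : ℕ → ℕ, (∀ i, a i < d i) ∧ phi a = p}

section gauge

variable (d : ℕ → ℕ) (hd : ∀ k, 0 < d k)

include hd in
theorem M_le_one (k : ℕ) : M d k ≤ 1 := by
  unfold M
  apply inv_le_one_of_one_le₀
  apply Finset.one_le_prod''
  intro i
  exact_mod_cast hd i

include hd in
theorem M_pos (k : ℕ) : 0 < M d k := by
  unfold M
  apply inv_pos.mpr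
  apply Finset.prod_pos
  intro i _
  exact_mod_cast hd i

include hd in
theorem M_anti {i k : ℕ} (h : i ≤ k) : M d k ≤ M d i := by
  unfold M
  apply inv_anti₀
  · apply Finset.prod_pos
    intro i _
    exact_mod_cast hd i
  · apply Finset.prod_le_prod_of_subset_of_one_le'
    · intro j hj
      simp only [Finset.mem_range] at hj ⊢
      omega
    · intro j _ _
      exact_mod_cast hd j

include hd in
theorem M_le (k : ℕ) : M d k ≤ ((d k : ℝ≥0))⁻¹ := by
  unfold M
  apply inv_anti₀
  · exact_mod_cast hd k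
  · rw [Finset.prod_range_succ]
    apply le_mul_of_one_le_left (by positivity)
    apply Finset.one_le_prod''
    intro i
    exact_mod_cast hd i

include hd in
theorem g_mono (k : ℕ) : Monotone (g d k) := by
  intro t t' h
  have h' : (t : ℝ) ≤ t' := by exact_mod_cast h
  unfold g
  split_ifs with h1 h2
  · exact le_rfl
  · exact M_le_one d hd k
  · linarith
  · exact le_rfl

include hd in
theorem g_le_one (k : ℕ) (t : ℝ≥0) : g d k t ≤ 1 := by
  unfold g
  split_ifs
  · exact M_le_one d hd k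
  · exact le_rfl

include hd in
theorem f_mono : Monotone (f d) := by
  intro t t' h
  exact ciInf_mono (OrderBot.bddBelow _) (fun k => g_mono d hd k h)

theorem f_le (k : ℕ) (t : ℝ≥0) : f d t ≤ g d k t := ciInf_le (OrderBot.bddBelow _) k

include hd in
theorem f_pos (t : ℝ≥0) (ht : 0 < t) : 0 < f d t := by
  have ht' : (0 : ℝ) < t := by exact_mod_cast ht
  have : ∀ᶠ k in atTop, s k < 2 * t := s_tendsto.eventually_lt_const (by linarith)
  obtain ⟨n, hn⟩ := this.exists_forall_of_atTop
  refine lt_of_lt_of_le (M_pos d hd n) ?_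
  apply le_ciInf
  intro k
  unfold g
  split_ifs with h
  · apply M_anti d hd
    by_contra hcon
    have := hn k (by omega)
    linarith
  · exact M_le_one d hd n

include hd in
theorem f_rc (t : ℝ≥0) : ContinuousWithinAt (f d) (Set.Ici t) t := by
  rw [ContinuousWithinAt]
  apply tendsto_order.mpr
  constructor
  · intro a ha
    filter_upwards [self_mem_nhdsWithin] with x hx
    exact lt_of_lt_of_le ha (f_mono d hd hx)
  · intro a ha
    obtain ⟨k, hk⟩ := exists_lt_of_ciInf_lt ha
    by_cases h : (t : ℝ) < s k / 2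
    · have : ∀ᶠ x : ℝ≥0 in 𝓝 t, (x : ℝ) < s k / 2 :=
        (NNReal.continuous_coe.tendsto t).eventually_lt_const h
      filter_upwards [nhdsWithin_le_nhds this] with x hx
      refine lt_of_le_of_lt (f_le d k x) ?_
      have e : g d k x = g d k t := by
        unfold g
        rw [if_pos hx, if_pos h]
      rw [e]
      exact hk
    · filter_upwards [self_mem_nhdsWithin] with x hx
      refine lt_of_le_of_lt (f_le d k x) ?_
      refine lt_of_le_of_lt (g_le_one d hd k x) ?_
      unfold g at hk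
      rwa [if_neg h] at hk

theorem lt_c (k : ℕ) : k + 1 ≤ c k := by
  unfold c
  have := N_pos k
  nlinarith

theorem inv_tendsto (κ : ℕ → ℕ) (hκ : Tendsto κ atTop atTop) :
    Tendsto (fun j => (((κ j + 1 : ℕ) : ℝ≥0))⁻¹) atTop (𝓝 0) := by
  have h1 : Tendsto (fun j => κ j + 1) atTop atTop := (tendsto_add_atTop_nat 1).comp hκ
  have h2 : Tendsto (fun n : ℕ => ((n : ℝ≥0))⁻¹) atTop (𝓝 0) := tendsto_inv_atTop_nhds_zero_nat
  exact h2.comp h1

include hd in
theorem M_le_inv (k : ℕ) (hk : d k = c k) : M d k ≤ (((k + 1 : ℕ) : ℝ≥0))⁻¹ := by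
  refine (M_le d hd k).trans ?_
  rw [hk]
  apply inv_anti₀
  · positivity
  · exact_mod_cast lt_c k

include hd in
theorem f_zero (κ : ℕ → ℕ) (hκ : Tendsto κ atTop atTop) (hdκ : ∀ j, d (κ j) = c (κ j)) :
    f d 0 = 0 := by
  have h1 : ∀ k, f d 0 ≤ M d k := by
    intro k
    refine (f_le d k 0).trans ?_
    unfold g
    rw [if_pos]
    have := s_pos k
    simp only [NNReal.coe_zero]
    linarith
  have h2 : ∀ j, f d 0 ≤ (((κ j + 1 : ℕ) : ℝ≥0))⁻¹ := by
    intro j
    exact (h1 (κ j)).trans (M_le_inv d hd _ (hdκ j))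
  exact le_antisymm (ge_of_tendsto' (inv_tendsto κ hκ) h2) bot_le

/-- The uniform measure on the digits available at stage `k`. -/
noncomputable def nu (k : ℕ) : Measure (Fin (d k)) := ((d k : ℝ≥0∞))⁻¹ • Measure.count

include hd in
theorem nu_prob (k : ℕ) : IsProbabilityMeasure (nu d k) := by
  constructor
  unfold nu
  rw [Measure.smul_apply, Measure.count_univ, smul_eq_mul]
  simp only [ENat.card_eq_coe_fintype_card, Fintype.card_fin]
  apply ENNReal.inv_mul_cancel
  · exact_mod_cast (hd k).ne'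
  · exact ENNReal.natCast_ne_top _

theorem nu_singleton (k : ℕ) (x : Fin (d k)) : nu d k {x} = ((d k : ℝ≥0∞))⁻¹ := by
  unfold nu
  rw [Measure.smul_apply, Measure.count_singleton, smul_eq_mul, mul_one]

/-- The coding map. -/
noncomputable def Phi (a : (k : ℕ) → Fin (d k)) : ℝ := phi (fun k => (a k : ℕ))

/-- The product measure. -/
noncomputable def mu : Measure ((k : ℕ) → Fin (d k)) := Measure.infinitePi (nu d)

include hd in
theorem mu_small (hdc : ∀ k, d k ≤ c k) (U : Set ℝ) (k : ℕ)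
    (hU : Metric.ediam U < ENNReal.ofReal (s k / 2)) :
    mu d (Phi d ⁻¹' U) ≤ (M d k : ℝ≥0∞) := by
  have := nu_prob d hd
  rcases (Phi d ⁻¹' U).eq_empty_or_nonempty with h | ⟨a0, ha0⟩
  · rw [h]; simp
  · have hsub : Phi d ⁻¹' U ⊆ Set.pi (Finset.range (k + 1)) (fun i => {a0 i}) := by
      intro a ha i hi
      have hi' : i ≤ k := by
        have : i ∈ Finset.range (k + 1) := hi
        simpa [Nat.lt_succ_iff] using this
      have hdist : |Phi d a - Phi d a0| < s k / 2 := by
        have h1 : edist (Phi d a) (Phi d a0) ≤ Metric.ediam U :=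
          Metric.edist_le_ediam_of_mem ha ha0
        have h2 := lt_of_le_of_lt h1 hU
        rw [edist_dist, Real.dist_eq] at h2
        exact (ENNReal.ofReal_lt_ofReal_iff (by have := s_pos k; linarith)).mp h2
      have := far (fun k => (a k : ℕ)) (fun k => (a0 k : ℕ))
        (fun i => lt_of_lt_of_le (a i).2 (hdc i)) (fun i => lt_of_lt_of_le (a0 i).2 (hdc i)) k
        hdist i hi'
      exact Fin.ext this
    refine (measure_mono hsub).trans ?_
    unfold mu
    rw [Measure.infinitePi_pi (nu d) (fun i _ => MeasurableSet.of_discrete)]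
    simp only [nu_singleton]
    unfold M
    have hne : (∏ i ∈ Finset.range (k + 1), (d i : ℝ≥0)) ≠ 0 := by
      apply Finset.prod_ne_zero_iff.mpr
      intro i _
      exact_mod_cast (hd i).ne'
    rw [ENNReal.coe_inv hne, ENNReal.ofNNReal_finsetProd,
      ENNReal.prod_inv_distrib (fun i _ j _ _ => Or.inr ENNReal.coe_ne_top)]
    simp

/-- Mass distribution: the Cantor set has positive measure for its own gauge. -/
theorem lower (hd : ∀ k, 0 < d k) (hdc : ∀ k, d k ≤ c k) :
    0 < (OuterMeasure.mkMetric (fun r : ℝ≥0∞ => ((f d r.toNNReal : ℝ≥0) : ℝ≥0∞)) :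
      OuterMeasure ℝ) (K d) := by
  have := nu_prob d hd
  have hprob : IsProbabilityMeasure (mu d) := by unfold mu; infer_instance
  have hle : OuterMeasure.map (Phi d) (mu d).toOuterMeasure ≤
      (OuterMeasure.mkMetric (fun r : ℝ≥0∞ => ((f d r.toNNReal : ℝ≥0) : ℝ≥0∞)) :
        OuterMeasure ℝ) := by
    apply OuterMeasure.le_mkMetric _ _ 1 (by norm_num)
    intro U hU
    rw [OuterMeasure.map_apply, Measure.toOuterMeasure_apply]
    have hfin : Metric.ediam U ≠ ∞ := ne_top_of_le_ne_top ENNReal.one_ne_top hU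
    have hmu : mu d (Phi d ⁻¹' U) ≠ ∞ := measure_ne_top _ _
    rw [← ENNReal.coe_toNNReal hmu]
    rw [ENNReal.coe_le_coe]
    apply le_ciInf
    intro k
    unfold g
    split_ifs with h
    · rw [← ENNReal.coe_le_coe, ENNReal.coe_toNNReal hmu]
      apply mu_small d hd hdc U k
      rw [← ENNReal.coe_toNNReal hfin]
      rw [ENNReal.ofReal]
      rw [ENNReal.coe_lt_coe]
      rw [← NNReal.coe_lt_coe, Real.coe_toNNReal _ (by have := s_pos k; linarith)]
      exact h
    · rw [← ENNReal.coe_le_coe, ENNReal.coe_toNNReal hmu]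
      exact prob_le_one
  have h1 := hle (K d)
  rw [OuterMeasure.map_apply, Measure.toOuterMeasure_apply] at h1
  have h2 : Phi d ⁻¹' (K d) = Set.univ := by
    ext a
    simp only [Set.mem_preimage, Set.mem_univ, iff_true]
    exact ⟨fun k => (a k : ℕ), fun k => (a k).2, rfl⟩
  rw [h2, measure_univ] at h1
  exact lt_of_lt_of_le (by norm_num) h1

/-- A set all of whose points have a zero digit at infinitely many full stages is null. -/
theorem upper (hd : ∀ k, 0 < d k) (κ : ℕ → ℕ) (hκ : Tendsto κ atTop atTop)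
    (hdκ : ∀ j, d (κ j) = c (κ j)) (E : Set ℝ)
    (hE : ∀ p ∈ E, ∃ a : ℕ → ℕ, (∀ i, a i < c i) ∧ (∀ j, a (κ j) = 0) ∧ phi a = p) :
    (OuterMeasure.mkMetric (fun r : ℝ≥0∞ => ((f d r.toNNReal : ℝ≥0) : ℝ≥0∞)) :
      OuterMeasure ℝ) E = 0 := by
  rw [OuterMeasure.coe_mkMetric]
  apply le_antisymm _ bot_le
  let t : (n : ℕ) → ((i : Fin (κ n)) → Fin (c i)) → Set ℝ := fun n p =>
    {x | ∃ a : ℕ → ℕ, (∀ i, a i < c i) ∧ a (κ n) = 0 ∧ (∀ i : Fin (κ n), a i = p i) ∧ phi a = x}
  have hdiam : ∀ n p, Metric.ediam (t n p) ≤ ENNReal.ofReal (s (κ n) / 3) := by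
    intro n p
    apply Metric.ediam_le
    rintro x ⟨a, ha, ha0, hap, rfl⟩ y ⟨b, hb, hb0, hbp, rfl⟩
    rw [edist_dist, Real.dist_eq]
    apply ENNReal.ofReal_le_ofReal
    apply near a b ha hb
    intro i hi
    rcases hi.lt_or_eq with h | h
    · rw [hap ⟨i, h⟩, hbp ⟨i, h⟩]
    · rw [h, ha0, hb0]
  have hs : Tendsto (fun n => ENNReal.ofReal (s (κ n) / 3)) atTop (𝓝 0) := by
    have h1 : Tendsto (fun n => s (κ n) / 3) atTop (𝓝 0) := by
      have := (s_tendsto.comp hκ).div_const 3
      simpa using this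
    have := ENNReal.tendsto_ofReal h1
    simpa using this
  refine (Measure.mkMetric_le_liminf_sum E (fun n => ENNReal.ofReal (s (κ n) / 3)) hs t
    (Eventually.of_forall hdiam) (Eventually.of_forall ?_) _).trans ?_
  · intro n x hx
    obtain ⟨a, ha, ha0, rfl⟩ := hE x hx
    exact Set.mem_iUnion.mpr ⟨fun i => ⟨a i, ha i⟩, a, ha, ha0 n, fun i => rfl, rfl⟩
  · have hbound : ∀ n, ∑ p, ((f d (Metric.ediam (t n p)).toNNReal : ℝ≥0) : ℝ≥0∞) ≤
        (((κ n + 1 : ℕ) : ℝ≥0)⁻¹ : ℝ≥0) := by
      intro n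
      have h1 : ∀ p, ((f d (Metric.ediam (t n p)).toNNReal : ℝ≥0) : ℝ≥0∞) ≤
          ((M d (κ n) : ℝ≥0) : ℝ≥0∞) := by
        intro p
        rw [ENNReal.coe_le_coe]
        refine (f_le d (κ n) _).trans ?_
        unfold g
        rw [if_pos]
        have h2 : (Metric.ediam (t n p)).toNNReal ≤ (ENNReal.ofReal (s (κ n) / 3)).toNNReal :=
          ENNReal.toNNReal_mono ENNReal.ofReal_ne_top (hdiam n p)
        have h3 := s_pos (κ n)
        have h4 : (ENNReal.ofReal (s (κ n) / 3)).toNNReal = Real.toNNReal (s (κ n) / 3) := rfl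
        rw [h4] at h2
        have h5 : ((Metric.ediam (t n p)).toNNReal : ℝ) ≤ s (κ n) / 3 := by
          have := NNReal.coe_le_coe.mpr h2
          rwa [Real.coe_toNNReal _ (by linarith)] at this
        linarith
      refine (Finset.sum_le_sum (fun p _ => h1 p)).trans ?_
      rw [Finset.sum_const, Finset.card_univ, Fintype.card_pi]
      simp only [Fintype.card_fin]
      have hN : ∏ i : Fin (κ n), c i = N (κ n) := by
        rw [← prod_c, Finset.prod_range]
      rw [hN, nsmul_eq_mul]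
      have h6 : ((N (κ n) : ℝ≥0)) * M d (κ n) ≤ ((κ n + 1 : ℕ) : ℝ≥0)⁻¹ := by
        have h7 := M_le d hd (κ n)
        rw [hdκ n] at h7
        have h8 : ((N (κ n) : ℝ≥0)) * M d (κ n) ≤ (N (κ n) : ℝ≥0) * ((c (κ n) : ℝ≥0))⁻¹ :=
          mul_le_mul_right h7 _
        refine h8.trans ?_
        unfold c
        have hNp : (N (κ n) : ℝ≥0) ≠ 0 := by exact_mod_cast (N_pos _).ne'
        push_cast
        rw [mul_inv, mul_comm, mul_assoc, inv_mul_cancel₀ hNp, mul_one]
      have h9 : (((N (κ n) : ℕ) : ℝ≥0∞)) * ((M d (κ n) : ℝ≥0) : ℝ≥0∞) =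
          (((N (κ n) : ℝ≥0) * M d (κ n) : ℝ≥0) : ℝ≥0∞) := by
        push_cast
        rfl
      rw [h9]
      exact ENNReal.coe_le_coe.mpr h6
    refine (liminf_le_liminf (Eventually.of_forall hbound)).trans ?_
    have h10 : Tendsto (fun n => ((((κ n + 1 : ℕ) : ℝ≥0)⁻¹ : ℝ≥0) : ℝ≥0∞)) atTop (𝓝 0) := by
      have := ENNReal.tendsto_coe.mpr (inv_tendsto κ hκ)
      simpa using this
    exact (le_of_eq h10.liminf_eq).trans bot_le

end gauge

/-- The code of the initial segment of length `j`. -/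
def code (x : ℕ → Bool) (j : ℕ) : ℕ := Encodable.encode ((List.range j).map x)

theorem code_inj {x y : ℕ → Bool} {i j : ℕ} (h : code x i = code y j) :
    i = j ∧ ∀ n < i, x n = y n := by
  have h1 := Encodable.encode_injective h
  have h2 : i = j := by
    have := congrArg List.length h1
    simpa using this
  subst h2
  refine ⟨rfl, ?_⟩
  intro n hn
  have := List.map_inj_left.mp h1 n (by simpa using hn)
  exact this

/-- The digit bounds attached to a point of the Cantor space. -/
noncomputable def dd (x : ℕ → Bool) (k : ℕ) : ℕ :=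
  open Classical in if ∃ j, code x j = k then c k else 1

theorem dd_pos (x : ℕ → Bool) (k : ℕ) : 0 < dd x k := by
  unfold dd
  split_ifs
  · exact c_pos k
  · norm_num

theorem dd_le (x : ℕ → Bool) (k : ℕ) : dd x k ≤ c k := by
  unfold dd
  split_ifs
  · exact le_rfl
  · exact c_pos k

theorem dd_code (x : ℕ → Bool) (j : ℕ) : dd x (code x j) = c (code x j) := by
  unfold dd
  rw [if_pos ⟨j, rfl⟩]

theorem dd_other (x y : ℕ → Bool) (n j : ℕ) (hn : x n ≠ y n) (hj : n < j) :
    dd y (code x j) = 1 := by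
  unfold dd
  rw [if_neg]
  rintro ⟨i, hi⟩
  obtain ⟨h1, h2⟩ := code_inj hi
  exact hn (h2 n (by omega)).symm

theorem code_tendsto (x : ℕ → Bool) : Tendsto (code x) atTop atTop := by
  apply Function.Injective.nat_tendsto_atTop
  intro i j h
  exact (code_inj h).1

/-- The union of the other Cantor sets is null for the gauge of `x`. -/
theorem others_null (x : ℕ → Bool) :
    (OuterMeasure.mkMetric (fun r : ℝ≥0∞ => ((f (dd x) r.toNNReal : ℝ≥0) : ℝ≥0∞)) :
      OuterMeasure ℝ) (⋃ y ∈ {y : ℕ → Bool | y ≠ x}, K (dd y)) = 0 := by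
  have hsub : (⋃ y ∈ {y : ℕ → Bool | y ≠ x}, K (dd y)) ⊆
      ⋃ n : ℕ, ⋃ y ∈ {y : ℕ → Bool | x n ≠ y n}, K (dd y) := by
    intro p hp
    simp only [Set.mem_iUnion] at hp ⊢
    obtain ⟨y, hy, hp⟩ := hp
    obtain ⟨n, hn⟩ := Function.ne_iff.mp hy
    exact ⟨n, y, Ne.symm hn, hp⟩
  refine measure_mono_null hsub ?_
  apply measure_iUnion_null
  intro n
  apply upper (dd x) (dd_pos x) (fun j => code x (j + (n + 1)))
    ((code_tendsto x).comp (tendsto_add_atTop_nat (n + 1))) (fun j => dd_code x _)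
  intro p hp
  simp only [Set.mem_iUnion] at hp
  obtain ⟨y, hy, a, ha, rfl⟩ := hp
  refine ⟨a, fun i => lt_of_lt_of_le (ha i) (dd_le y i), ?_, rfl⟩
  intro j
  have h1 := ha (code x (j + (n + 1)))
  rw [dd_other x y n _ hy (by omega)] at h1
  omega

/-- The family of sets {gauge functions f (nondecreasing, right-continuous, f(0)=0, positive off 0) with positive f-Hausdorff measure on A}, as A ranges over subsets of the reals, has cardinality 2 to the continuum. -/
theorem result :
    Cardinal.mk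
      (Set.range (fun A : Set ℝ =>
        {f : ℝ≥0 → ℝ≥0 |
          Monotone f ∧ f 0 = 0 ∧ (∀ r : ℝ≥0, 0 < r → 0 < f r) ∧
          (∀ x : ℝ≥0, ContinuousWithinAt f (Set.Ici x) x) ∧
          0 < (MeasureTheory.OuterMeasure.mkMetric
                (fun r : ℝ≥0∞ => ((f r.toNNReal : ℝ≥0) : ℝ≥0∞)) :
                MeasureTheory.OuterMeasure ℝ) A}))
      = 2 ^ Cardinal.continuum := by
  apply le_antisymm
  · refine Cardinal.mk_range_le.trans ?_
    rw [Cardinal.mk_set, Cardinal.mk_real]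
  · set I : Set ℝ → Set (ℝ≥0 → ℝ≥0) := (fun A : Set ℝ =>
        {f : ℝ≥0 → ℝ≥0 |
          Monotone f ∧ f 0 = 0 ∧ (∀ r : ℝ≥0, 0 < r → 0 < f r) ∧
          (∀ x : ℝ≥0, ContinuousWithinAt f (Set.Ici x) x) ∧
          0 < (MeasureTheory.OuterMeasure.mkMetric
                (fun r : ℝ≥0∞ => ((f r.toNNReal : ℝ≥0) : ℝ≥0∞)) :
                MeasureTheory.OuterMeasure ℝ) A}) with hI
    have key : ∀ (S : Set (ℕ → Bool)) (x : ℕ → Bool),
        f (dd x) ∈ I (⋃ y ∈ S, K (dd y)) ↔ x ∈ S := by
      intro S x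
      constructor
      · intro h
        by_contra hx
        have h1 := h.2.2.2.2
        have h2 : (⋃ y ∈ S, K (dd y)) ⊆ (⋃ y ∈ {y : ℕ → Bool | y ≠ x}, K (dd y)) := by
          intro p hp
          simp only [Set.mem_iUnion] at hp ⊢
          obtain ⟨y, hy, hp⟩ := hp
          exact ⟨y, fun h => hx (h ▸ hy), hp⟩
        have h3 := measure_mono_null h2 (others_null x)
        rw [h3] at h1
        exact lt_irrefl _ h1
      · intro hx
        refine ⟨f_mono _ (dd_pos x), f_zero _ (dd_pos x) (code x) (code_tendsto x) (dd_code x),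
          fun r hr => f_pos _ (dd_pos x) r hr, fun r => f_rc _ (dd_pos x) r, ?_⟩
        refine lt_of_lt_of_le (lower (dd x) (dd_pos x) (dd_le x)) ?_
        apply measure_mono
        intro p hp
        simp only [Set.mem_iUnion]
        exact ⟨x, hx, hp⟩
    let F : Set (ℕ → Bool) → Set.range I := fun S => ⟨I (⋃ y ∈ S, K (dd y)), ⟨_, rfl⟩⟩
    have hF : Function.Injective F := by
      intro S T h
      have h' : I (⋃ y ∈ S, K (dd y)) = I (⋃ y ∈ T, K (dd y)) := congrArg Subtype.val h
      ext x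
      rw [← key S x, ← key T x, h']
    have hcard := Cardinal.mk_le_of_injective hF
    refine le_trans (le_of_eq ?_) hcard
    rw [Cardinal.mk_set]
    congr 1
    simp

end Pool.Agent.S09263
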