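import Pool.Statements.S09265
import Pool.Agent.Helper300.PartCore

set_option autoImplicit false
open Pool Pool.MP_17bc6d_lc

namespace Pool.Agent.S09265

open Filter Set Pool.Agent.Helper300.Part

/-- The first uncountable ordinal, as in the frozen statement. -/
noncomputable abbrev Om : Ordinal.{0} := (Cardinal.aleph 1).ord

abbrev T : Type 1 := Set.Iio Om

noncomputable def e (p : T × T) : Ordinal.{0} := Om * (p.1 : Ordinal.{0}) + (p.2 : Ordinal.{0})

theorem Om_ne : Om ≠ 0 := by
  intro h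
  have := Cardinal.ord_eq_zero.1 h
  exact (Cardinal.aleph_pos 1).ne' this

theorem countable_Iio {o : Ordinal.{0}} (h : o < Om) : (Set.Iio o).Countable := by
  rw [← Cardinal.le_aleph0_iff_set_countable, Cardinal.mk_Iio_ordinal]
  have h1 : o.card < Cardinal.aleph 1 := Cardinal.lt_ord.1 h
  have h2 : o.card ≤ Cardinal.aleph0 := Cardinal.lt_aleph_one_iff.1 h1
  rw [← Cardinal.lift_aleph0.{1,0}]
  exact Cardinal.lift_le.2 h2

theorem T_Iic (a : T) : (Set.Iic a).Countable := by
  have h1 : Order.succ (a : Ordinal.{0}) < Om :=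
    (Cardinal.isSuccLimit_ord (Cardinal.aleph0_le_aleph 1)).succ_lt a.2
  refine ((countable_Iio h1).preimage (Subtype.val_injective)).mono ?_
  intro b hb
  have hb' : (b : Ordinal.{0}) ≤ (a : Ordinal.{0}) := hb
  exact Order.lt_succ_of_le hb'

theorem T_unc : ¬ (Set.univ : Set T).Countable := by
  intro h
  have h2 : (Set.Iio Om).Countable := by
    have := h.image (Subtype.val)
    rwa [Set.image_univ, Subtype.range_coe] at this
  rw [← Cardinal.le_aleph0_iff_set_countable, Cardinal.mk_Iio_ordinal, Cardinal.card_ord] at h2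
  rw [← Cardinal.lift_aleph0.{1,0}, Cardinal.lift_le] at h2
  exact absurd h2 (not_le.2 Cardinal.aleph0_lt_aleph_one)

theorem e_lt1 {x y : T × T} (h : x.1 < y.1) : e x < e y := by
  unfold e
  calc Om * (x.1 : Ordinal.{0}) + (x.2 : Ordinal.{0}) < Om * (x.1 : Ordinal.{0}) + Om := by
        exact (add_lt_add_iff_left _).2 x.2.2
    _ = Om * (Order.succ (x.1 : Ordinal.{0})) := by rw [Ordinal.mul_succ]
    _ ≤ Om * (y.1 : Ordinal.{0}) := by
        apply mul_le_mul_right
        exact Order.succ_le_of_lt h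
    _ ≤ _ := le_self_add

theorem e_lt2 {x y : T × T} (h1 : x.1 = y.1) (h : x.2 < y.2) : e x < e y := by
  unfold e
  rw [h1]
  exact (add_lt_add_iff_left _).2 h

theorem e_inj {x y : T × T} (h : e x = e y) : x = y := by
  rcases lt_trichotomy x.1 y.1 with h1 | h1 | h1
  · exact absurd h (e_lt1 h1).ne
  · rcases lt_trichotomy x.2 y.2 with h2 | h2 | h2
    · exact absurd h (e_lt2 h1 h2).ne
    · exact Prod.ext h1 h2
    · exact absurd h (e_lt2 h1.symm h2).ne'
  · exact absurd h (e_lt1 h1).ne'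

theorem e_bound (x : T × T) : e x < Om * Om := by
  unfold e
  calc Om * (x.1 : Ordinal.{0}) + (x.2 : Ordinal.{0}) < Om * (x.1 : Ordinal.{0}) + Om := by
        exact (add_lt_add_iff_left _).2 x.2.2
    _ = Om * (Order.succ (x.1 : Ordinal.{0})) := by rw [Ordinal.mul_succ]
    _ ≤ Om * Om := by
        apply mul_le_mul_right
        exact Order.succ_le_of_lt x.1.2

theorem exists_enum (X : Set T) (hX : ¬ X.Countable) :
    ∃ g : T → T, (∀ ξ, g ξ ∈ X) ∧ ∀ η ξ, η < ξ → g η < g ξ := by
  have : Nonempty T := by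
    by_contra h
    rw [not_nonempty_iff] at h
    exact hX (Set.to_countable _)
  obtain ⟨g, hg⟩ := wf_choice (J := T) (α := T) (· < ·) wellFounded_lt (fun _ a => a ∈ X)
    (fun _ _ b a => b < a) (by
      intro ξ x _
      have hc : (⋃ η ∈ {η : T | η < ξ}, Set.Iic (x η)).Countable := by
        refine Set.Countable.biUnion ?_ fun η _ => T_Iic _
        refine (T_Iic ξ).mono ?_
        intro η hη
        exact le_of_lt (show η < ξ from hη)
      have hn : ¬ (X ⊆ ⋃ η ∈ {η : T | η < ξ}, Set.Iic (x η)) := fun h => hX (hc.mono h)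
      obtain ⟨a, ha, ha'⟩ := Set.not_subset.1 hn
      refine ⟨a, ha, fun η hη => ?_⟩
      by_contra hle
      apply ha'
      refine Set.mem_iUnion₂.2 ⟨η, hη, not_lt.1 hle⟩)
  exact ⟨g, fun ξ => (hg ξ).1, fun η ξ h => (hg ξ).2 η h⟩

/-- For every k and every colouring of pairs of ordinals below ω₁·ω₁ with colours 0..k, either some subset of order type ω₁·ω has all pairs coloured 0, or some nonzero colour has a monochromatic triangle. -/
theorem result :
    ∀ k : ℕ, ∀ c : Ordinal.{0} → Ordinal.{0} → Fin (k + 1),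
      (∃ f : Ordinal.{0} → Ordinal.{0},
          StrictMonoOn f (Set.Iio (((Cardinal.aleph 1).ord : Ordinal.{0}) * Ordinal.omega0)) ∧
          (∀ β : Ordinal.{0}, β < ((Cardinal.aleph 1).ord : Ordinal.{0}) * Ordinal.omega0 →
              f β < ((Cardinal.aleph 1).ord : Ordinal.{0}) * ((Cardinal.aleph 1).ord : Ordinal.{0})) ∧
          (∀ β γ : Ordinal.{0}, β < γ →
              γ < ((Cardinal.aleph 1).ord : Ordinal.{0}) * Ordinal.omega0 →
              c (f β) (f γ) = 0)) ∨
      (∃ i : Fin (k + 1), i ≠ 0 ∧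
        ∃ a b d : Ordinal.{0}, a < b ∧ b < d ∧
          d < ((Cardinal.aleph 1).ord : Ordinal.{0}) * ((Cardinal.aleph 1).ord : Ordinal.{0}) ∧
          c a b = i ∧ c a d = i ∧ c b d = i) := by
  intro k c
  by_cases htri : (∃ i : Fin (k + 1), i ≠ 0 ∧
        ∃ a b d : Ordinal.{0}, a < b ∧ b < d ∧
          d < ((Cardinal.aleph 1).ord : Ordinal.{0}) * ((Cardinal.aleph 1).ord : Ordinal.{0}) ∧
          c a b = i ∧ c a d = i ∧ c b d = i)
  · exact Or.inr htri
  left
  let G : {i : Fin (k+1) // i ≠ 0} → T × T → T × T → Prop := fun i x y =>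
    (e x < e y ∧ c (e x) (e y) = i.1) ∨ (e y < e x ∧ c (e y) (e x) = i.1)
  have hs : ∀ i x y, G i x y → G i y x := fun i x y h => h.symm
  have ht3 : ∀ (i : {i : Fin (k+1) // i ≠ 0}) (x y z : T × T), e x < e y → e y < e z →
      c (e x) (e y) = i.1 → c (e x) (e z) = i.1 → c (e y) (e z) = i.1 → False := by
    intro i x y z h1 h2 h3 h4 h5
    exact htri ⟨i.1, i.2, e x, e y, e z, h1, h2, e_bound z, h3, h4, h5⟩
  have ht : ∀ i x y z, G i x y → G i y z → G i x z → False := by
    intro i x y z h1 h2 h3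
    rcases h1 with ⟨a1, b1⟩ | ⟨a1, b1⟩ <;> rcases h2 with ⟨a2, b2⟩ | ⟨a2, b2⟩ <;>
      rcases h3 with ⟨a3, b3⟩ | ⟨a3, b3⟩
    · exact ht3 i x y z a1 a2 b1 b3 b2
    · exact absurd (a1.trans (a2.trans a3)) (lt_irrefl _)
    · exact ht3 i x z y a3 a2 b3 b1 b2
    · exact ht3 i z x y a3 a1 b3 b2 b1
    · exact ht3 i y x z a1 a3 b1 b2 b3
    · exact ht3 i y z x a2 a3 b2 b1 b3
    · exact absurd (a1.trans (a3.trans a2)) (lt_irrefl _)
    · exact ht3 i z y x a2 a1 b2 b3 b1
  let ℓ : Filter (T × T) := (cocountable : Filter T).curry cocountable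
  have hnebot : (cocountable : Filter T).NeBot := by
    refine ⟨fun h => ?_⟩
    have h0 : (∅ : Set T) ∈ (cocountable : Filter T) := by rw [h]; exact Filter.mem_bot
    rw [mem_cocountable, Set.compl_empty] at h0
    exact T_unc h0
  have hℓ : ℓ.NeBot := by
    refine ⟨fun h => ?_⟩
    have h0 : ∀ᶠ p in ℓ, False := by rw [h]; exact Filter.eventually_bot
    have h1 : ∀ᶠ a in (cocountable : Filter T), ∀ᶠ b in (cocountable : Filter T), False := h0
    obtain ⟨a, ha⟩ := h1.exists
    exact ha.exists.choose_spec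
  have hci : CountableInterFilter (cocountable : Filter T) := by
    refine ⟨fun S hS hS2 => ?_⟩
    rw [mem_cocountable, Set.compl_sInter]
    refine Set.Countable.sUnion (hS.image _) ?_
    rintro _ ⟨s, hs, rfl⟩
    exact mem_cocountable.1 (hS2 s hs)
  have hci2 : CountableInterFilter ℓ := CountableInterFilter.curry
  have hcop : ∀ a : T, ∀ᶠ b in (cocountable : Filter T), a < b := by
    intro a
    change {b | a < b} ∈ (cocountable : Filter T)
    rw [mem_cocountable]
    refine (T_Iic a).mono ?_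
    intro b hb
    exact not_lt.1 (show ¬ (a < b) from hb)
  obtain ⟨a, V, ha, hV, hcol, hE⟩ := core (P := T × T) (L := T) Prod.fst G ℓ
    (by
      intro a
      change ∀ᶠ x in (cocountable : Filter T), ∀ᶠ y in (cocountable : Filter T), a < x
      exact (hcop a).mono fun x hx => Eventually.of_forall fun _ => hx)
    (by
      intro W hW
      have h1 : ∃ᶠ x in (cocountable : Filter T), ∃ᶠ y in (cocountable : Filter T), (x, y) ∈ W :=
        (frequently_curry_iff _).1 hW
      obtain ⟨x, hx⟩ := h1.exists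
      refine ⟨{p | p ∈ W ∧ p.1 = x}, fun p hp => hp.1, ?_, x, fun p hp => hp.2⟩
      intro hc
      apply hx
      change {y | ¬ ((x, y) ∈ W)} ∈ (cocountable : Filter T)
      rw [mem_cocountable]
      refine (hc.preimage (f := fun y : T => (x, y)) (fun y y' h => (Prod.mk.inj h).2)).mono ?_
      intro y hy
      simp only [Set.mem_compl_iff, Set.mem_ofPred_eq, not_not] at hy
      exact ⟨hy, rfl⟩)
    hs ht T_unc T_Iic
  -- enumerate the blocks
  have hX : ∀ n, ¬ {t : T | (a n, t) ∈ V n}.Countable := by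
    intro n hc
    apply hV n
    refine (hc.image (fun t => (a n, t))).mono ?_
    rintro ⟨p, q⟩ hp
    have : p = a n := hcol n _ hp
    subst this
    exact ⟨q, hp, rfl⟩
  have hg := fun n => exists_enum _ (hX n)
  choose g hg1 hg2 using hg
  let ν : Ordinal.{0} → ℕ := Function.invFun (Nat.cast : ℕ → Ordinal.{0})
  have hν : ∀ n : ℕ, ν (n : Ordinal.{0}) = n := Function.leftInverse_invFun Nat.cast_injective
  have hmod : ∀ β : Ordinal.{0}, β % Om < Om := fun β => Ordinal.mod_lt β Om_ne
  let pt : Ordinal.{0} → T × T := fun β => (a (ν (β / Om)), g (ν (β / Om)) ⟨β % Om, hmod β⟩)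
  have hpt : ∀ β, pt β ∈ V (ν (β / Om)) := fun β => hg1 _ _
  have hlt : ∀ β γ : Ordinal.{0}, β < γ → γ < Om * Ordinal.omega0 → e (pt β) < e (pt γ) := by
    intro β γ hβγ hγ
    have h1 : γ / Om < Ordinal.omega0 := (Ordinal.lt_mul_iff_div_lt Om_ne).1 hγ
    have h2 : β / Om ≤ γ / Om := by
      by_contra hcon
      rw [not_le] at hcon
      have e1 : γ < Om * (β / Om) := (Ordinal.lt_mul_iff_div_lt Om_ne).2 hcon
      have e2 : Om * (β / Om) ≤ β := by
        conv_rhs => rw [← Ordinal.div_add_mod β Om]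
        exact le_self_add
      exact absurd (hβγ.trans (e1.trans_le e2)) (lt_irrefl _)
    rcases h2.lt_or_eq with h3 | h3
    · obtain ⟨n, hn⟩ := Ordinal.lt_omega0.1 (h3.trans h1)
      obtain ⟨m, hm⟩ := Ordinal.lt_omega0.1 h1
      apply e_lt1
      change a (ν (β / Om)) < a (ν (γ / Om))
      apply ha
      rw [hn, hm, hν, hν]
      rw [hn, hm] at h3
      exact_mod_cast h3
    · apply e_lt2
      · change a (ν (β / Om)) = a (ν (γ / Om))
        rw [h3]
      · change g (ν (β / Om)) ⟨β % Om, hmod β⟩ < g (ν (γ / Om)) ⟨γ % Om, hmod γ⟩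
        rw [h3]
        apply hg2
        change β % Om < γ % Om
        by_contra hcon
        rw [not_lt] at hcon
        have e1 : γ ≤ β := by
          rw [← Ordinal.div_add_mod γ Om, ← Ordinal.div_add_mod β Om, h3]
          exact add_le_add_right hcon _
        exact absurd hβγ (not_lt.2 e1)
  refine ⟨fun β => e (pt β), ?_, ?_, ?_⟩
  · intro β _ γ hγ hβγ
    exact hlt β γ hβγ hγ
  · intro β _
    exact e_bound _
  · intro β γ hβγ hγ
    by_contra hne
    have h1 := hlt β γ hβγ hγ
    exact hE _ _ (pt β) (hpt β) (pt γ) (hpt γ) ⟨_, hne⟩ (Or.inl ⟨h1, rfl⟩)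

end Pool.Agent.S09265
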