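import Mathlib
import Pool.Statements.S09276
import Pool.Agent.Helper180.SMin.JMain

set_option autoImplicit false
open FirstOrder FirstOrder.Language
open scoped FirstOrder
open Pool Pool.MP_1b3a35_lc

namespace Pool.Agent.S09276

/-- The negation of the preceding statement: Every complete first-order theory whose models are all infinite and have every parameter-definable subset finite or cofinite is equivalent to a set of sentences of the form exists-forall-exists followed by a quantifier-free formula. -/
theorem result :
    ¬ (∀ (L : FirstOrder.Language.{0, 0}) (T : L.Theory),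
      T.IsComplete →
      (∀ (M : Type) [L.Structure M], M ⊨ T →
        Infinite M ∧
          ∀ s : Set (Fin 1 → M), Set.Definable (Set.univ : Set M) L s → s.Finite ∨ sᶜ.Finite) →
      ∃ T' : L.Theory,
        (∀ σ ∈ T',
          ∀ R : (n : ℕ) → L.BoundedFormula Empty n → Prop,
            (∀ (n : ℕ) (ψ : L.BoundedFormula Empty n),
              (∀ Q : (m : ℕ) → L.BoundedFormula Empty m → Prop,
                (∀ (m : ℕ) (χ : L.BoundedFormula Empty m),
                  (∀ P : (k : ℕ) → L.BoundedFormula Empty k → Prop,
                    (∀ (k : ℕ) (θ : L.BoundedFormula Empty k), θ.IsQF → P k θ) →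
                    (∀ (k : ℕ) (θ : L.BoundedFormula Empty (k + 1)), P (k + 1) θ → P k θ.ex) →
                    P m χ) → Q m χ) →
                (∀ (m : ℕ) (χ : L.BoundedFormula Empty (m + 1)), Q (m + 1) χ → Q m χ.all) →
                Q n ψ) → R n ψ) →
            (∀ (n : ℕ) (ψ : L.BoundedFormula Empty (n + 1)), R (n + 1) ψ → R n ψ.ex) →
            R 0 σ) ∧
        (∀ σ ∈ T', Theory.ModelsBoundedFormula T σ) ∧
        (∀ σ ∈ T, Theory.ModelsBoundedFormula T' σ)) := by
  intro h
  obtain ⟨T, hT, hM, hn⟩ := Pool.Agent.Helper180.SMin.main_neg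
  obtain ⟨T', h1, h2, h3⟩ := h Pool.Agent.Helper180.SMin.Lg T hT hM
  exact hn ⟨T', h1, h2, h3⟩

end Pool.Agent.S09276
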