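import Pool.Statements.S09283
import Pool.Agent.Helper561.Comp

set_option autoImplicit false
open Pool Pool.MP_20d0cc_lc

namespace Pool.Agent.S09283

open Pool.Agent.Helper561.Kempe

theorem search_spec {chk : ℕ → ℕ → ℕ → Bool} {n s : ℕ} (h : ∃ t, chk n s t = true) :
    ∃ t ∈ search chk n s, chk n s t = true := by
  obtain ⟨t, ht⟩ := h
  obtain ⟨m, hm, -⟩ := Nat.rfind_min' (p := fun t => chk n s t) ht
  refine ⟨m, hm, ?_⟩
  have := Nat.rfind_spec hm
  simpa using this

/-- Every graph on ℕ with a computable neighbour-list function and all degrees at most Δ has a computable proper edge colouring using colours 0..Δ, i.e. at most Δ+1 colours. -/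
theorem result :
    ∀ (G : SimpleGraph ℕ) (nbrs : ℕ → List ℕ), Computable nbrs →
      (∀ x y : ℕ, G.Adj x y ↔ y ∈ nbrs x) →
      ∀ Δ : ℕ, (∀ (x : ℕ) (s : Finset ℕ), (∀ y ∈ s, G.Adj x y) → s.card ≤ Δ) →
        ∃ c : ℕ → ℕ → ℕ, Computable₂ c ∧
          (∀ x y : ℕ, G.Adj x y → c x y = c y x ∧ c x y ≤ Δ) ∧
          ∀ x y z : ℕ, G.Adj x y → G.Adj x z → y ≠ z → c x y ≠ c x z := by
  intro G nbrs hnbrs hG Δ hΔ
  have hN : ∀ v w, G.Adj v w → w ∈ (nbrs v).toFinset := fun v w h => by
    rw [List.mem_toFinset]; exact (hG v w).1 h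
  have hk : ∀ v, (nbrs v).toFinset.card < Δ + 1 := fun v =>
    Nat.lt_succ_of_le (hΔ v _ (fun y hy => by
      rw [List.mem_toFinset] at hy; exact (hG v y).2 hy))
  have hadj : ∀ m x y, x < m → G.Adj x y → y < bnd nbrs m :=
    fun m x y hx hxy => bnd_adj nbrs m x y hx ((hG x y).1 hxy)
  set st := stage nbrs (Δ + 1) with hst
  have hiter : ∀ t b, b + t ≤ (bnd nbrs)^[t] b := by
    intro t b
    induction t with
    | zero => exact le_rfl
    | succ t ih =>
      rw [Function.iterate_succ_apply']
      have := lt_bnd nbrs ((bnd nbrs)^[t] b)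
      omega
  have hlt : ∀ n, st n < st (n + 1) := by
    intro n
    rw [hst, stage_succ]
    have h1 := hiter (farness (Δ + 1) (stage nbrs (Δ + 1) n)) (stage nbrs (Δ + 1) n)
    have h2 : 0 < farness (Δ + 1) (stage nbrs (Δ + 1) n) := by unfold farness; omega
    omega
  have hmono : ∀ m n, m ≤ n → st m ≤ st n := by
    intro m n hmn
    induction n with
    | zero =>
      obtain rfl : m = 0 := by omega
      exact le_rfl
    | succ n ih =>
      rcases Nat.lt_or_eq_of_le hmn with h | rfl
      · exact (ih (by omega)).trans (hlt n).le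
      · exact le_rfl
  have hge : ∀ n, n ≤ st n := by
    intro n
    induction n with
    | zero => exact Nat.zero_le _
    | succ n ih => have := hlt n; omega
  -- the sequence is total
  have hseq : ∀ n, ∃ t ∈ seq (checkB nbrs Δ) n, Good G Δ (st (n + 1)) t := by
    intro n
    induction n with
    | zero =>
      obtain ⟨t, ht⟩ := exists_good hN hk (st (0 + 1))
      obtain ⟨t', ht', hc⟩ := search_spec (chk := checkB nbrs Δ) (n := 0) (s := 0)
        ⟨t, (checkB_iff hG Δ 0 0 t).2 ⟨ht, fun x _ y _ _ h => absurd h (Nat.not_lt_zero _)⟩⟩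
      exact ⟨t', ht', ((checkB_iff hG Δ 0 0 t').1 hc).1⟩
    | succ n ih =>
      obtain ⟨s, hs, hgood⟩ := ih
      have hdist : (bnd nbrs)^[farness (Δ + 1) (st n)] (st n) ≤ st (n + 1) := by
        rw [hst, stage_succ]
      obtain ⟨t, ht1, ht2⟩ := extend_code hN hk (lt_bnd nbrs) hadj hdist
        (hlt (n + 1)).le hgood
      obtain ⟨t', ht', hc⟩ := search_spec (chk := checkB nbrs Δ) (n := n + 1) (s := s)
        ⟨t, (checkB_iff hG Δ (n + 1) s t).2 ⟨ht1, fun x _ y _ hxy h1 h2 => ht2 x h1 y h2 hxy⟩⟩
      refine ⟨t', ?_, ((checkB_iff hG Δ (n + 1) s t').1 hc).1⟩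
      exact Part.mem_bind hs ht'
  choose S hS hgood using hseq
  have hScomp : Computable S :=
    Partrec.of_eq_tot (partrec_seq (computable_checkB hnbrs Δ)) hS
  -- consecutive codes agree
  have hstep : ∀ n x y, G.Adj x y → x < st n → y < st n → col (S (n + 1)) x y = col (S n) x y := by
    intro n x y hxy hx hy
    have h1 : S (n + 1) ∈ search (checkB nbrs Δ) (n + 1) (S n) := by
      have h2 := hS (n + 1)
      have h3 : S (n + 1) ∈ (seq (checkB nbrs Δ) n).bind
          (fun s => search (checkB nbrs Δ) (n + 1) s) := h2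
      rw [Part.mem_bind_iff] at h3
      obtain ⟨s, hs, hs'⟩ := h3
      rw [Part.mem_unique hs (hS n)] at hs'
      exact hs'
    have h2 := Nat.rfind_spec h1
    have h3 : checkB nbrs Δ (n + 1) (S n) (S (n + 1)) = true := by simpa using h2
    have h4 := ((checkB_iff hG Δ (n + 1) (S n) (S (n + 1))).1 h3).2
    have h5 := hmono n (n + 1 + 1) (by omega)
    exact h4 x (lt_of_lt_of_le hx h5) y (lt_of_lt_of_le hy h5) hxy hx hy
  have hstable : ∀ n m x y, n ≤ m → G.Adj x y → x < st n → y < st n →
      col (S m) x y = col (S n) x y := by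
    intro n m x y hnm hxy hx hy
    induction m with
    | zero =>
      obtain rfl : n = 0 := by omega
      rfl
    | succ m ih =>
      rcases Nat.lt_or_eq_of_le hnm with h | rfl
      · have h1 := hmono n m (by omega)
        rw [hstep m x y hxy (by omega) (by omega), ih (by omega)]
      · rfl
  refine ⟨fun x y => col (S (x + y + 1)) x y, ?_, ?_, ?_⟩
  · have h1 : Computable fun q : ℕ × ℕ => S (q.1 + q.2 + 1) :=
      hScomp.comp (Computable.succ.comp Primrec.nat_add.to_comp)
    have h2 : Computable fun q : ℕ × ℕ => (S (q.1 + q.2 + 1), (q.1, q.2)) :=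
      h1.pair (Computable.fst.pair Computable.snd)
    exact (primrec_col.to_comp.comp h2).to₂
  · intro x y hxy
    have hx : x < st (x + y + 1) := lt_of_lt_of_le (by omega) (hge _)
    have hy : y < st (x + y + 1) := lt_of_lt_of_le (by omega) (hge _)
    have h1 := hlt (x + y + 1)
    have h2 := hgood (x + y + 1) x (by omega) y (by omega) hxy
    refine ⟨?_, h2.2.1⟩
    show col (S (x + y + 1)) x y = col (S (y + x + 1)) y x
    rw [Nat.add_comm y x]
    exact h2.1
  · intro x y z hxy hxz hyz
    show col (S (x + y + 1)) x y ≠ col (S (x + z + 1)) x z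
    set n := x + y + z + 1 with hn
    have hx : x < st n := lt_of_lt_of_le (by omega) (hge _)
    have hy : y < st n := lt_of_lt_of_le (by omega) (hge _)
    have hz : z < st n := lt_of_lt_of_le (by omega) (hge _)
    have h1 : col (S n) x y = col (S (x + y + 1)) x y :=
      hstable _ n x y (by omega) hxy (lt_of_lt_of_le (by omega) (hge _))
        (lt_of_lt_of_le (by omega) (hge _))
    have h2 : col (S n) x z = col (S (x + z + 1)) x z :=
      hstable _ n x z (by omega) hxz (lt_of_lt_of_le (by omega) (hge _))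
        (lt_of_lt_of_le (by omega) (hge _))
    rw [← h1, ← h2]
    have h3 := hlt n
    exact (hgood n x (by omega) y (by omega) hxy).2.2 z (by omega) hxz hyz

end Pool.Agent.S09283
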