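import Pool.Statements.S09286
-- import your own Pool.Agent.* helpers here

set_option autoImplicit false
open Pool Pool.MP_21086e_lc

namespace Pool.Agent.S09286

/-!
The counterexample.  Over the alphabet `{a, d}` (`a = true`, `d = false`) let `C 0 = {1}` and, for `k ≥ 2`,
`C k = {a^k} ∪ ⋃ { a^i d C (k+1-i) : 0 ≤ i ≤ k+1, i ≠ 1, k+1-i ≠ 1 }`.
Then for all `j, k ∈ {0, 2, 3, 4, …}` the product `C j * C k` equals `C (j+k)` and is unambiguous.  So `X = C 2`
is a code which commutes with `Y = C 3`, but `X` is no square and `Y` is no union of powers of `X`.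
-/

/-- The languages `C k`, for `k ∈ {0, 2, 3, 4, …}` (`C 1` is empty). -/
inductive C : ℕ → List Bool → Prop
  | pure (k : ℕ) (hk : k ≠ 1) : C k (List.replicate k true)
  | step (i m n : ℕ) (w : List Bool) (hi : i ≠ 1) (hm : m ≠ 1) (hn : 2 ≤ n) (h : i + m = n + 1)
      (hw : C m w) : C n (List.replicate i true ++ false :: w)

theorem C.ne_one {k : ℕ} {w : List Bool} (h : C k w) : k ≠ 1 := by
  cases h with
  | pure _ hk => exact hk
  | step i m n w hi hm hn h hw => omega

theorem C.zero {w : List Bool} (h : C 0 w) : w = [] := by
  cases h with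
  | pure _ hk => rfl
  | step i m n w hi hm hn h hw => omega

theorem C.rank {k : ℕ} {w : List Bool} (h : C k w) : w.count true = k + w.count false := by
  induction h with
  | pure k hk => simp [List.count_replicate]
  | step i m n w hi hm hn h hw ih =>
    simp only [List.count_append, List.count_replicate, List.count_cons]
    simp
    omega

theorem C.nil : C 0 [] := C.pure 0 (by norm_num)

theorem repl_eq {i j : ℕ} {v w : List Bool}
    (h : List.replicate i true ++ false :: v = List.replicate j true ++ false :: w) : i = j ∧ v = w := by
  induction i generalizing j with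
  | zero =>
    cases j with
    | zero => simpa using h
    | succ j => simp [List.replicate_succ] at h
  | succ i ih =>
    cases j with
    | zero => simp [List.replicate_succ] at h
    | succ j =>
      simp only [List.replicate_succ, List.cons_append, List.cons.injEq, true_and] at h
      have := ih h
      exact ⟨by omega, this.2⟩

theorem C.mul {j k : ℕ} {u v : List Bool} (hu : C j u) (hv : C k v) : C (j + k) (u ++ v) := by
  induction hu with
  | pure j hj =>
    cases hv with
    | pure _ hk =>
      rw [← List.replicate_add]
      exact C.pure _ (by omega)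
    | step i m _ w hi hm hn h hw =>
      rw [← List.append_assoc, ← List.replicate_add]
      exact C.step (j + i) m (j + k) w (by omega) hm (by omega) (by omega) hw
  | step i m n w hi hm hn h hw ih =>
    have hk := hv.ne_one
    rw [List.append_assoc, List.cons_append]
    exact C.step i (m + k) (n + k) (w ++ v) hi (by omega) (by omega) (by omega) ih

theorem C.split {n : ℕ} {w : List Bool} (hw : C n w) :
    ∀ j k : ℕ, j ≠ 1 → k ≠ 1 → n = j + k → ∃ u v, w = u ++ v ∧ C j u ∧ C k v := by
  induction hw with
  | pure n hn =>
    intro j k hj hk hjk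
    refine ⟨List.replicate j true, List.replicate k true, ?_, C.pure j hj, C.pure k hk⟩
    rw [← List.replicate_add, hjk]
  | step i m n w hi hm hn h hw ih =>
    intro j k hj hk hjk
    by_cases hj0 : j = 0
    · subst hj0
      refine ⟨[], _, rfl, C.nil, ?_⟩
      have : k = n := by omega
      subst this
      exact C.step i m k w hi hm hn h hw
    by_cases hk0 : k = 0
    · subst hk0
      refine ⟨_, [], (List.append_nil _).symm, ?_, C.nil⟩
      have : j = n := by omega
      subst this
      exact C.step i m j w hi hm hn h hw
    by_cases hc : j ≤ i ∧ i ≠ j + 1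
    · refine ⟨List.replicate j true, List.replicate (i - j) true ++ false :: w, ?_, C.pure j hj, ?_⟩
      · rw [← List.append_assoc, ← List.replicate_add]
        congr 2
        omega
      · exact C.step (i - j) m k w (by omega) hm (by omega) (by omega) hw
    · obtain ⟨u, v, huv, hu, hv⟩ := ih (j + 1 - i) k (by omega) hk (by omega)
      refine ⟨List.replicate i true ++ false :: u, v, ?_, ?_, hv⟩
      · rw [huv]; simp
      · exact C.step i (j + 1 - i) j u hi (by omega) (by omega) (by omega) hu

/-- a word `a^j` followed by a word `v ∈ C k` against a word starting with `a^i d` -/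
theorem no_mix {j k i m : ℕ} {v u v' : List Bool} (hk : k ≠ 0) (hv : C k v) (hj : 2 ≤ j)
    (hi : i ≠ 1) (hm : m ≠ 1) (h : i + m = j + 1)
    (he : List.replicate j true ++ v = (List.replicate i true ++ false :: u) ++ v') : False := by
  have hij : j ≤ i := by
    by_contra hlt
    push Not at hlt
    have h1 := congrArg (fun l : List Bool => l[i]?) he
    simp only [List.append_assoc, List.cons_append] at h1
    rw [List.getElem?_append_left (by simpa using hlt), List.getElem?_append_right (by simp)] at h1
    simp [hlt] at h1
  have him : i = j + 1 := by omega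
  subst him
  have he2 : List.replicate j true ++ v = List.replicate j true ++ (List.replicate 1 true ++ false :: (u ++ v')) := by
    rw [he, List.replicate_add]
    simp
  have hv2 : v = List.replicate 1 true ++ false :: (u ++ v') := List.append_cancel_left he2
  cases hv with
  | pure _ hk =>
    have : false ∈ List.replicate k true := by rw [hv2]; simp
    simp at this
  | step i' m' n' w' hi' hm' hn' h' hw' =>
    exact hi' (repl_eq hv2).1

theorem C.uniq {j : ℕ} {u : List Bool} (hu : C j u) :
    ∀ (k : ℕ) (v u' v' : List Bool), C k v → C j u' → C k v' → u ++ v = u' ++ v' → u = u' := by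
  induction hu with
  | pure j hj =>
    intro k v u' v' hv hu' hv' he
    by_cases hk0 : k = 0
    · subst hk0
      rw [hv.zero, hv'.zero] at he
      simpa using he
    cases hu' with
    | pure _ _ => rfl
    | step i m n w hi hm hn h hw =>
      exact (no_mix hk0 hv hn hi hm h he).elim
  | step i m n w hi hm hn h hw ih =>
    intro k v u' v' hv hu' hv' he
    by_cases hk0 : k = 0
    · subst hk0
      rw [hv.zero, hv'.zero] at he
      simpa using he
    cases hu' with
    | pure _ _ => exact (no_mix hk0 hv' hn hi hm h he.symm).elim
    | step i' m' _ w' hi' hm' hn' h' hw' =>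
      rw [List.append_assoc, List.append_assoc, List.cons_append, List.cons_append] at he
      obtain ⟨h1, h2⟩ := repl_eq he
      subst h1
      have hmm : m' = m := by omega
      subst hmm
      rw [ih k v w' v' hv hw' hv' h2]

/-- The code. -/
def X : Language Bool := {w | C 2 w}

/-- The language commuting with it. -/
def Y : Language Bool := {w | C 3 w}

theorem mem_X {w : List Bool} : w ∈ X ↔ C 2 w := Iff.rfl
theorem mem_Y {w : List Bool} : w ∈ Y ↔ C 3 w := Iff.rfl

theorem C.flatten (l : List (List Bool)) (h : ∀ w ∈ l, w ∈ X) : C (2 * l.length) l.flatten := by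
  induction l with
  | nil => exact C.nil
  | cons u l ih =>
    have h1 : C 2 u := h u (by simp)
    have h2 := ih (fun w hw => h w (by simp [hw]))
    have h3 := h1.mul h2
    simp only [List.flatten_cons, List.length_cons]
    convert h3 using 1
    ring

theorem X_code (l₁ l₂ : List (List Bool)) (h₁ : ∀ w ∈ l₁, w ∈ X) (h₂ : ∀ w ∈ l₂, w ∈ X)
    (he : l₁.flatten = l₂.flatten) : l₁ = l₂ := by
  induction l₁ generalizing l₂ with
  | nil =>
    have r2 := (C.flatten l₂ h₂).rank
    rw [← he] at r2
    simp at r2
    exact r2.symm
  | cons u l₁ ih =>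
    cases l₂ with
    | nil =>
      have r1 := (C.flatten (u :: l₁) h₁).rank
      rw [he] at r1
      simp at r1
    | cons u' l₂ =>
      have f1 := C.flatten (u :: l₁) h₁
      have f2 := C.flatten (u' :: l₂) h₂
      have r1 := f1.rank
      have r2 := f2.rank
      rw [he] at r1
      have hlen : l₁.length = l₂.length := by
        simp only [List.length_cons] at r1 r2
        omega
      have h1 : C 2 u := h₁ u (by simp)
      have h2 : C 2 u' := h₂ u' (by simp)
      have g1 : C (2 * l₁.length) l₁.flatten := C.flatten l₁ (fun w hw => h₁ w (by simp [hw]))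
      have g2 : C (2 * l₂.length) l₂.flatten := C.flatten l₂ (fun w hw => h₂ w (by simp [hw]))
      rw [← hlen] at g2
      simp only [List.flatten_cons] at he
      have hu := h1.uniq _ _ _ _ g1 h2 g2 he
      subst hu
      have ht : l₁.flatten = l₂.flatten := List.append_cancel_left he
      rw [ih l₂ (fun w hw => h₁ w (by simp [hw])) (fun w hw => h₂ w (by simp [hw])) ht]

theorem X_mul_Y : X * Y = {w | C 5 w} := by
  ext w
  constructor
  · intro h
    obtain ⟨u, hu, v, hv, rfl⟩ := Language.mem_mul.1 h
    exact C.mul hu hv
  · intro h
    obtain ⟨u, v, rfl, hu, hv⟩ := C.split h 2 3 (by norm_num) (by norm_num) rfl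
    exact Language.mem_mul.2 ⟨u, hu, v, hv, rfl⟩

theorem Y_mul_X : Y * X = {w | C 5 w} := by
  ext w
  constructor
  · intro h
    obtain ⟨u, hu, v, hv, rfl⟩ := Language.mem_mul.1 h
    exact C.mul hu hv
  · intro h
    obtain ⟨u, v, rfl, hu, hv⟩ := C.split h 3 2 (by norm_num) (by norm_num) rfl
    exact Language.mem_mul.2 ⟨u, hu, v, hv, rfl⟩

theorem aa_mem : [true, true] ∈ X := C.pure 2 (by norm_num)

theorem aaa_mem : [true, true, true] ∈ Y := C.pure 3 (by norm_num)

theorem aaad_mem : [true, true, true, false] ∈ X :=
  C.step 3 0 2 [] (by norm_num) (by norm_num) (by norm_num) (by norm_num) C.nil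

theorem aada_not_mem : [true, true, false, true] ∉ X := by
  intro h
  have h' : C 2 (List.replicate 2 true ++ false :: [true]) := h
  generalize hw : List.replicate 2 true ++ false :: [true] = w at h'
  cases h' with
  | pure _ _ =>
    simp [List.replicate_succ] at hw
  | step i m n w hi hm hn h hw' =>
    obtain ⟨h1, _⟩ := repl_eq hw
    omega

theorem nil_not_mem : ([] : List Bool) ∉ X := by
  intro h
  have := C.rank h
  simp at this

/-- The negation of the preceding statement: Over any finite alphabet, if X is a nonempty code (no empty word, unique factorization) and Y is any language with XY = YX, then some language R without the empty word satisfies X = R^n and Y = union of R^i over i in some set I. -/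
theorem result :
    ¬ (∀ (α : Type) [Fintype α] (X Y : Language α),
      X.Nonempty →
      ([] : List α) ∉ X →
      (∀ l₁ l₂ : List (List α), (∀ w ∈ l₁, w ∈ X) → (∀ w ∈ l₂, w ∈ X) →
          l₁.flatten = l₂.flatten → l₁ = l₂) →
      X * Y = Y * X →
      ∃ R : Language α, ([] : List α) ∉ R ∧
        ∃ n : ℕ, ∃ I : Set ℕ, X = R ^ n ∧
          ∀ w : List α, w ∈ Y ↔ ∃ i ∈ I, w ∈ R ^ i) := by
  intro H
  obtain ⟨R, hR, n, I, hX, hY⟩ := H Bool X Y ⟨_, aa_mem⟩ nil_not_mem X_code (by rw [X_mul_Y, Y_mul_X])
  -- words of `R ^ n` have length at least `n`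
  have hlen : ∀ S : List (List Bool), (∀ y ∈ S, y ∈ R) → S.length ≤ S.flatten.length := by
    intro S hS
    induction S with
    | nil => simp
    | cons s S ih =>
      have h1 := ih (fun y hy => hS y (by simp [hy]))
      have h2 : s ∈ R := hS s (by simp)
      have h3 : s ≠ [] := fun h => hR (h ▸ h2)
      have h4 := List.length_pos_of_ne_nil h3
      simp only [List.length_cons, List.flatten_cons, List.length_append]
      omega
  have haa := aa_mem
  rw [hX] at haa
  obtain ⟨S, hS, hSn, hSR⟩ := Language.mem_pow.1 haa
  have hn : n ≤ 2 := by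
    have := hlen S hSR
    rw [← hS, hSn] at this
    simpa using this
  interval_cases n
  · -- `n = 0`
    rw [List.length_eq_zero_iff] at hSn
    subst hSn
    simp at hS
  · -- `n = 1`
    rw [pow_one] at hX
    obtain ⟨i, _, hi⟩ := (hY _).1 aaa_mem
    rw [← hX] at hi
    obtain ⟨T, hT, hTn, hTX⟩ := Language.mem_pow.1 hi
    have hr := (C.flatten T hTX).rank
    rw [← hT] at hr
    simp at hr
    omega
  · -- `n = 2`
    have mulR : ∀ u v, u ∈ R → v ∈ R → u ++ v ∈ X := by
      intro u v hu hv
      rw [hX, pow_two]
      exact Language.mem_mul.2 ⟨u, hu, v, hv, rfl⟩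
    have ha : [true] ∈ R := by
      rw [pow_two] at haa
      obtain ⟨u, hu, v, hv, huv⟩ := Language.mem_mul.1 haa
      match u, v, huv with
      | [], _, _ => exact (hR hu).elim
      | [b], _, huv =>
        simp at huv
        rw [← huv.1]; exact hu
      | [b, c], v, huv =>
        simp at huv
        exact (hR (huv.2.2 ▸ hv)).elim
      | b :: c :: e :: u', v, huv => simp at huv
    have hd := aaad_mem
    rw [hX, pow_two] at hd
    obtain ⟨u, hu, v, hv, huv⟩ := Language.mem_mul.1 hd
    match u, v, huv with
    | [], _, _ => exact hR hu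
    | [b], v, huv =>
      simp at huv
      rw [huv.2] at hv
      exact aada_not_mem (mulR _ _ hv ha)
    | [b, c], v, huv =>
      simp at huv
      rw [huv.1, huv.2.1] at hu
      have := C.rank (mulR _ _ hu ha)
      simp at this
    | [b, c, e], v, huv =>
      simp at huv
      rw [huv.2.2.2] at hv
      have := C.rank (mulR _ _ ha hv)
      simp at this
    | [b, c, e, f], v, huv =>
      simp at huv
      exact hR (huv.2.2.2.2 ▸ hv)
    | b :: c :: e :: f :: g :: u', v, huv => simp at huv

end Pool.Agent.S09286
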