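import Pool.Statements.S09299

set_option autoImplicit false
open Pool Pool.MP_24b5da_lc

namespace Pool.Agent.S09299

/-- In a complete linear order, every sequence of self-embeddings has a compatible
backward orbit (Knaster-Tarski on the product lattice). -/
theorem exists_backward_orbit (α : Type) [CompleteLinearOrder α] (g : ℕ → (α ↪o α)) :
    ∃ y : ℕ → α, ∀ n, y n = g n (y (n + 1)) := by
  let G : (ℕ → α) →o (ℕ → α) :=
    { toFun := fun y n => g n (y (n + 1))
      monotone' := by
        intro a b hab n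
        exact (g n).monotone (hab (n + 1)) }
  refine ⟨OrderHom.lfp G, fun n => ?_⟩
  have h := OrderHom.map_lfp G
  have h2 := congrFun h n
  exact h2.symm

/-- There is a self-embedding which is minimal for the relation `g' < g` iff for some
self-embedding `h`, `g' x` precedes `g (h x)` in a fixed well order, for all `x`. -/
theorem exists_minimal_embedding (α : Type) [CompleteLinearOrder α] (r : α → α → Prop)
    (hr : WellFounded r) :
    ∃ g : α ↪o α, ∀ g' h : α ↪o α, ¬ ∀ x, r (g' x) (g (h x)) := by
  by_contra hcon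
  push Not at hcon
  choose F H hFH using hcon
  let s : ℕ → (α ↪o α) := fun n => Nat.rec (RelEmbedding.refl _) (fun _ g => F g) n
  have hs : ∀ n, s (n + 1) = F (s n) := fun n => rfl
  obtain ⟨y, hy⟩ := exists_backward_orbit α (fun n => H (s n))
  have hdec : ∀ n, r (s (n + 1) (y (n + 1))) (s n (y n)) := by
    intro n
    have h1 := hFH (s n) (y (n + 1))
    rw [hs n, hy n]
    exact h1
  have hE := (wellFounded_iff_isEmpty_descending_chain (r := r)).1 hr
  exact hE.false ⟨fun n => s n (y n), hdec⟩

/-- Embeddability of the whole order into a subset, phrased with self-embeddings. -/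
def Into {α : Type} [CompleteLinearOrder α] (X : Set α) : Prop :=
  ∃ f : α ↪o α, ∀ x, f x ∈ X

theorem into_of_embedding {α : Type} [CompleteLinearOrder α] {X : Set α}
    (f : α ↪o X) : Into X :=
  ⟨f.trans (OrderEmbedding.subtype _), fun x => (f x).2⟩

theorem Into.embedding {α : Type} [CompleteLinearOrder α] {X : Set α}
    (h : Into X) : Nonempty (α ↪o X) := by
  obtain ⟨f, hf⟩ := h
  exact ⟨OrderEmbedding.ofMapLEIff (fun x => (⟨f x, hf x⟩ : X)) (fun a b => by simp)⟩

theorem Into.mono {α : Type} [CompleteLinearOrder α] {X Y : Set α} (h : Into X)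
    (hXY : X ⊆ Y) : Into Y := by
  obtain ⟨f, hf⟩ := h
  exact ⟨f, fun x => hXY (hf x)⟩

theorem result :
    ∀ (α : Type) [CompleteLinearOrder α], Nontrivial α →
      ∃ A B : Set α, A ∪ B = Set.univ ∧ IsEmpty (α ↪o A) ∧ IsEmpty (α ↪o B) := by
  intro α _ hnt
  by_contra hcon
  have himp0 : ∀ A : Set α, Into A ∨ Into Aᶜ := by
    intro A
    by_contra h
    push Not at h
    apply hcon
    refine ⟨A, Aᶜ, Set.union_compl_self A, ?_, ?_⟩
    · by_contra hne
      rw [not_isEmpty_iff] at hne
      exact h.1 (into_of_embedding hne.some)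
    · by_contra hne
      rw [not_isEmpty_iff] at hne
      exact h.2 (into_of_embedding hne.some)
  have himp : ∀ X Y : Set α, Into (X ∪ Y) → Into X ∨ Into Y := by
    intro X Y hXY
    obtain ⟨f, hf⟩ := hXY
    rcases himp0 (f ⁻¹' X) with ⟨g, hg⟩ | ⟨g, hg⟩
    · exact Or.inl ⟨g.trans f, fun x => hg x⟩
    · refine Or.inr ⟨g.trans f, fun x => ?_⟩
      have h1 := hg x
      rcases hf (g x) with h2 | h2
      · exact absurd h2 h1
      · exact h2
  -- a minimal embedding with respect to a well-ordering
  obtain ⟨g, hg⟩ := exists_minimal_embedding α (WellOrderingRel) (WellOrderingRel.isWellOrder.wf)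
  -- every self-embedding is the identity off a set into which α does not embed
  have hfix : ∀ f : α ↪o α, ¬ Into {x : α | f x ≠ x} := by
    intro f hf
    have hsub : {x : α | f x ≠ x} ⊆
        {x : α | WellOrderingRel (g (f x)) (g x)} ∪ {x : α | WellOrderingRel (g x) (g (f x))} := by
      intro x hx
      rcases trichotomous_of (WellOrderingRel (α := α)) (g (f x)) (g x) with h | h | h
      · exact Or.inl h
      · exact absurd (g.injective h) hx
      · exact Or.inr h
    rcases himp _ _ (hf.mono hsub) with ⟨h, hh⟩ | ⟨h, hh⟩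
    · exact hg ((h.trans f).trans g) h (fun x => hh x)
    · exact hg (h.trans g) (h.trans f) (fun x => hh x)
  -- two embeddings cannot have disjoint images
  have hdisj : ∀ f₁ f₂ : α ↪o α, ¬ ∀ x y, f₁ x ≠ f₂ y := by
    intro f₁ f₂ hd
    have huniv : Into (Set.univ : Set α) := ⟨RelEmbedding.refl _, fun _ => trivial⟩
    have hsub : (Set.univ : Set α) ⊆ {x : α | f₁ x ≠ x} ∪ {x : α | f₂ x ≠ x} := by
      intro x _
      by_cases h1 : f₁ x = x
      · right
        intro h2
        exact hd x x (h1.trans h2.symm)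
      · exact Or.inl h1
    rcases himp _ _ (huniv.mono hsub) with h | h
    · exact hfix f₁ h
    · exact hfix f₂ h
  -- cut argument
  have hcut : ∀ a : α, Into (Set.Iio a) ∨ Into (Set.Ioi a) := by
    intro a
    have h1 : Into (Set.Iio a ∪ Set.Ici a) :=
      ⟨RelEmbedding.refl _, fun x => lt_or_ge x a⟩
    rcases himp _ _ h1 with h | h
    · exact Or.inl h
    · have h2 : Into ({a} ∪ Set.Ioi a) := by
        refine h.mono ?_
        intro x hx
        rcases eq_or_lt_of_le (show a ≤ x from hx) with h3 | h3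
        · exact Or.inl h3.symm
        · exact Or.inr h3
      rcases himp _ _ h2 with h3 | h3
      · obtain ⟨f, hf⟩ := h3
        obtain ⟨x, y, hxy⟩ := hnt.exists_pair_ne
        exact absurd (f.injective ((hf x).trans (hf y).symm)) hxy
      · exact Or.inr h3
  let s : α := sSup {a : α | Into (Set.Ioi a)}
  rcases hcut s with ⟨f, hf⟩ | ⟨f, hf⟩
  · -- α embeds below s
    have h1 : f ⊤ < s := hf ⊤
    obtain ⟨t, ht, hlt⟩ := lt_sSup_iff.1 h1
    obtain ⟨f₂, hf₂⟩ := ht
    refine hdisj f f₂ (fun x y hxy => ?_)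
    have h2 : f x ≤ f ⊤ := f.monotone le_top
    have h3 : t < f₂ y := hf₂ y
    exact absurd (hxy ▸ h3) (not_lt.2 (h2.trans hlt.le))
  · -- α embeds above s
    have h1 : s < f ⊥ := hf ⊥
    rcases hcut (f ⊥) with ⟨f₂, hf₂⟩ | h2
    · refine hdisj f f₂ (fun x y hxy => ?_)
      have h3 : f ⊥ ≤ f x := f.monotone bot_le
      exact absurd (hxy ▸ h3) (not_le.2 (hf₂ y))
    · exact absurd (le_sSup (show f ⊥ ∈ {a : α | Into (Set.Ioi a)} from h2)) (not_le.2 h1)

end Pool.Agent.S09299
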