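import Pool.Statements.S09304

set_option autoImplicit false
open Pool Pool.MP_25e2f4_lc

namespace Pool.Agent.S09304

/-- The Thue-Morse sequence. -/
def tm (n : ℕ) : Bool :=
  if h : n = 0 then false
  else if n % 2 = 0 then tm (n / 2) else !tm (n / 2)
termination_by n
decreasing_by all_goals omega

lemma tm_zero : tm 0 = false := by rw [tm]; simp

lemma tm_even (i : ℕ) : tm (2 * i) = tm i := by
  rcases Nat.eq_zero_or_pos i with rfl | h
  · rfl
  · rw [tm, dif_neg (by omega), if_pos (by omega), show 2 * i / 2 = i by omega]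

lemma tm_odd (i : ℕ) : tm (2 * i + 1) = !tm i := by
  rw [tm, dif_neg (by omega), if_neg (by omega), show (2 * i + 1) / 2 = i by omega]

/-- No window of length `3 p` on which the sequence agrees with its shift by `p`. -/
lemma no_period (p : ℕ) (hp : 0 < p) (s : ℕ) :
    ¬ ∀ j, s ≤ j → j < s + 3 * p → tm j = tm (j + p) := by
  induction p using Nat.strong_induction_on generalizing s with
  | _ p ih =>
    intro h
    rcases Nat.even_or_odd' p with ⟨p', rfl | rfl⟩
    · refine ih p' (by omega) (by omega) ((s + 1) / 2) ?_
      intro j hj1 hj2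
      have := h (2 * j) (by omega) (by omega)
      rw [show 2 * j + 2 * p' = 2 * (j + p') by ring, tm_even, tm_even] at this
      exact this
    · -- odd period
      have step : ∀ i, tm (2 * i) ≠ tm (2 * i + 1) := by
        intro i; rw [tm_even, tm_odd]; cases tm i <;> simp
      rcases Nat.eq_zero_or_pos p' with rfl | hp'
      · -- period one
        have h1 := h (2 * ((s + 1) / 2)) (by omega) (by omega)
        exact step _ h1
      · -- all consecutive letters differ on a long window
        have alt : ∀ j, s + (2 * p' + 1) ≤ j → j + 1 < s + (2 * p' + 1) + 3 * (2 * p' + 1) →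
            tm j ≠ tm (j + 1) := by
          intro j hj1 hj2
          rcases Nat.even_or_odd' j with ⟨i, rfl | rfl⟩
          · exact step i
          · have e1 := h (2 * i + 1 - (2 * p' + 1)) (by omega) (by omega)
            have e2 := h (2 * i + 1 - (2 * p' + 1) + 1) (by omega) (by omega)
            rw [show 2 * i + 1 - (2 * p' + 1) + (2 * p' + 1) = 2 * i + 1 by omega] at e1
            rw [show 2 * i + 1 - (2 * p' + 1) + 1 + (2 * p' + 1) = 2 * i + 1 + 1 by omega] at e2
            rw [← e1, ← e2, show 2 * i + 1 - (2 * p' + 1) = 2 * (i - p') by omega]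
            exact step _
        -- take i with 2 i in the window
        obtain ⟨i, hi1, hi2⟩ : ∃ i, s + (2 * p' + 1) ≤ 2 * i ∧
            2 * i + 5 < s + (2 * p' + 1) + 3 * (2 * p' + 1) :=
          ⟨(s + (2 * p' + 1) + 1) / 2, by omega, by omega⟩
        have a1 := alt (2 * i) (by omega) (by omega)
        have a2 := alt (2 * i + 1) (by omega) (by omega)
        have a3 := alt (2 * i + 2) (by omega) (by omega)
        have a4 := alt (2 * i + 3) (by omega) (by omega)
        rw [show 2 * i + 1 + 1 = 2 * (i + 1) by ring, tm_odd, tm_even] at a2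
        rw [show 2 * i + 3 = 2 * (i + 1) + 1 by ring,
          show 2 * (i + 1) + 1 + 1 = 2 * (i + 2) by ring, tm_odd, tm_even] at a4
        have b1 : tm i = tm (i + 1) := by
          revert a2; cases tm i <;> cases tm (i + 1) <;> simp
        have b2 : tm (i + 1) = tm (i + 2) := by
          revert a4; cases tm (i + 1) <;> cases tm (i + 2) <;> simp
        rcases Nat.even_or_odd' i with ⟨k, rfl | rfl⟩
        · exact step k b1
        · rw [show 2 * k + 1 + 1 = 2 * (k + 1) by ring] at b2
          exact step (k + 1) b2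

/-- being a prefix of the Thue-Morse word -/
def Pre (x : List Bool) : Prop := ∀ i (h : i < x.length), x[i] = tm i

lemma flatten_replicate_succ' (n : ℕ) (u : List Bool) :
    (List.replicate (n + 1) u).flatten = u ++ (List.replicate n u).flatten := by
  simp [List.replicate_succ]

/-- the language -/
def L : Language Bool := {x | ¬ Pre x}

lemma getElem_of_append {x : List Bool} {a b c : List Bool} (h : x = a ++ b ++ c) (j : ℕ)
    (hj : j < b.length) (hj' : a.length + j < x.length) : x[a.length + j] = b[j] := by
  subst h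
  simp [hj]

/-- a fourth power is never a factor of a prefix -/
lemma no_fourth (a c u : List Bool) (hu : u ≠ []) (h : Pre (a ++ (u ++ (u ++ (u ++ u))) ++ c)) :
    False := by
  have hp : 0 < u.length := List.length_pos_of_ne_nil hu
  refine no_period u.length hp a.length ?_
  intro j hj1 hj2
  obtain ⟨i, rfl⟩ := Nat.exists_eq_add_of_le hj1
  have hi : i < 3 * u.length := by omega
  have l1 : a.length + i < (a ++ (u ++ (u ++ (u ++ u))) ++ c).length := by simp; omega
  have l2 : a.length + (i + u.length) < (a ++ (u ++ (u ++ (u ++ u))) ++ c).length := by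
    simp; omega
  have e1 := h _ l1
  have e2 := h _ l2
  rw [getElem_of_append rfl i (by simp; omega)] at e1
  rw [getElem_of_append rfl (i + u.length) (by simp; omega)] at e2
  rw [show a.length + i + u.length = a.length + (i + u.length) by ring, ← e1, ← e2]
  have e3 : (u ++ (u ++ (u ++ u)))[i + u.length]'(by simp; omega) =
      (u ++ (u ++ u))[i]'(by simp; omega) := by
    rw [List.getElem_append_right (by omega)]
    simp
  rw [e3]
  have e4 : (u ++ (u ++ (u ++ u)))[i]'(by simp; omega) = ((u ++ (u ++ u)) ++ u)[i]'(by simp; omega) := by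
    simp
  rw [e4, List.getElem_append_left]

/-- nonterminals -/
inductive NT
  | S
  | W
  | P (b : Bool)
  deriving DecidableEq

open NT

/-- terminal letter -/
abbrev t (b : Bool) : Symbol Bool NT := Symbol.terminal b
/-- nonterminal letter -/
abbrev n (x : NT) : Symbol Bool NT := Symbol.nonterminal x

/-- the rules -/
def rules0 : Finset (ContextFreeRule Bool NT) :=
  {⟨W, []⟩} ∪ Finset.univ.image (fun a : Bool => ⟨W, [t a, n W]⟩) ∪
  Finset.univ.image (fun p : Bool × Bool => ⟨P p.1, [t p.2, t p.1]⟩) ∪
  Finset.univ.image (fun p : Bool × Bool × Bool => ⟨P p.1, [t p.2.1, n (P p.1), t p.2.2]⟩) ∪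
  {⟨S, [t true, n W]⟩} ∪ Finset.univ.image (fun c : Bool => ⟨S, [t c, t c, n W]⟩) ∪
  Finset.univ.image (fun c : Bool => ⟨S, [n (P c), t (!c), n W]⟩) ∪
  Finset.univ.image (fun p : Bool × Bool => ⟨S, [n (P p.1), t p.2, t p.1, n W]⟩)

/-- the grammar -/
def G : ContextFreeGrammar Bool where
  NT := NT
  initial := S
  rules := rules0

/-- rule predicate -/
inductive RR : NT → List (Symbol Bool NT) → Prop
  | w0 : RR W []
  | w1 (a : Bool) : RR W [t a, n W]
  | p0 (c a : Bool) : RR (P c) [t a, t c]
  | p1 (c a b : Bool) : RR (P c) [t a, n (P c), t b]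
  | s0 : RR S [t true, n W]
  | s1 (c : Bool) : RR S [t c, t c, n W]
  | s2 (c : Bool) : RR S [n (P c), t (!c), n W]
  | s3 (c d : Bool) : RR S [n (P c), t d, t c, n W]

lemma mem_rules0 (r : ContextFreeRule Bool NT) : r ∈ rules0 ↔ RR r.input r.output := by
  constructor
  · intro h
    simp only [rules0, Finset.mem_union, Finset.mem_singleton, Finset.mem_image,
      Finset.mem_univ, true_and] at h
    rcases h with ((((((rfl | ⟨a, rfl⟩) | ⟨p, rfl⟩) | ⟨p, rfl⟩) | rfl) | ⟨c, rfl⟩) | ⟨c, rfl⟩) |
      ⟨p, rfl⟩
    · exact RR.w0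
    · exact RR.w1 a
    · exact RR.p0 _ _
    · exact RR.p1 _ _ _
    · exact RR.s0
    · exact RR.s1 _
    · exact RR.s2 _
    · exact RR.s3 _ _
  · obtain ⟨x, l⟩ := r
    intro h
    simp only [rules0, Finset.mem_union, Finset.mem_singleton, Finset.mem_image,
      Finset.mem_univ, true_and]
    change RR x l at h
    cases h with
    | w0 => simp
    | w1 a => simp
    | p0 c a => simp
    | p1 c a b => simp
    | s0 => simp
    | s1 c => simp
    | s2 c => simp
    | s3 c d => simp

/-- words `u c v` with `|u| = |v| + 1` -/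
def IP (c : Bool) : Language Bool :=
  {w | ∃ u v : List Bool, w = u ++ [c] ++ v ∧ u.length = v.length + 1}

/-- interpretation of the nonterminals -/
def I : NT → Language Bool
  | S => L
  | W => ⊤
  | P c => IP c

/-- interpretation of the symbols -/
def J : Symbol Bool NT → Language Bool
  | Symbol.terminal b => {[b]}
  | Symbol.nonterminal x => I x

lemma L_of_even {u v w : List Bool} {c d : Bool} (h : u.length = v.length + 1) (hcd : d ≠ c) :
    u ++ c :: (v ++ d :: w) ∈ L := by
  intro hx
  have h1 := hx u.length (by simp)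
  have h2 := hx (2 * u.length) (by simp; omega)
  rw [List.getElem_append_right (by simp)] at h1
  rw [tm_even, List.getElem_append_right (by omega)] at h2
  simp only [show 2 * u.length - u.length = v.length + 1 by omega, Nat.sub_self,
    List.getElem_cons_succ, List.getElem_cons_zero] at h1 h2
  rw [List.getElem_append_right (by simp)] at h2
  simp at h2
  exact hcd (h2.trans h1.symm)

lemma L_of_odd {u v w : List Bool} {c d : Bool} (h : u.length = v.length + 1) :
    u ++ c :: (v ++ d :: c :: w) ∈ L := by
  intro hx
  have h1 := hx u.length (by simp)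
  have h2 := hx (2 * u.length + 1) (by simp; omega)
  rw [List.getElem_append_right (by simp)] at h1
  rw [tm_odd, List.getElem_append_right (by omega)] at h2
  simp only [show 2 * u.length + 1 - u.length = v.length + 1 + 1 by omega, Nat.sub_self,
    List.getElem_cons_succ, List.getElem_cons_zero] at h1 h2
  rw [List.getElem_append_right (by simp)] at h2
  simp at h2
  rw [← h1] at h2
  cases c <;> simp at h2

lemma rule_sound {x : NT} {l : List (Symbol Bool NT)} (h : RR x l) : (l.map J).prod ≤ I x := by
  intro w hw
  cases h with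
  | w0 => trivial
  | w1 a => trivial
  | p0 c a =>
    simp only [List.map_cons, List.map_nil, List.prod_cons, List.prod_nil, mul_one, J] at hw
    obtain ⟨_, rfl, _, rfl, rfl⟩ := hw
    exact ⟨[a], [], rfl, rfl⟩
  | p1 c a b =>
    simp only [List.map_cons, List.map_nil, List.prod_cons, List.prod_nil, mul_one, J] at hw
    obtain ⟨_, rfl, _, ⟨_, ⟨u, v, rfl, huv⟩, _, rfl, rfl⟩, rfl⟩ := hw
    exact ⟨a :: u, v ++ [b], by simp, by simp [huv]⟩
  | s0 =>
    simp only [List.map_cons, List.map_nil, List.prod_cons, List.prod_nil, mul_one, J] at hw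
    obtain ⟨_, rfl, w', -, rfl⟩ := hw
    intro hx
    have := hx 0 (by simp)
    simp [tm_zero] at this
  | s1 c =>
    simp only [List.map_cons, List.map_nil, List.prod_cons, List.prod_nil, mul_one, J] at hw
    obtain ⟨_, rfl, _, ⟨_, rfl, w', -, rfl⟩, rfl⟩ := hw
    intro hx
    have h0 := hx 0 (by simp)
    have h1 := hx (2 * 0 + 1) (by simp)
    rw [tm_odd, ← h0] at h1
    simp at h1
  | s2 c =>
    simp only [List.map_cons, List.map_nil, List.prod_cons, List.prod_nil, mul_one, J] at hw
    obtain ⟨_, ⟨u, v, rfl, huv⟩, _, ⟨_, rfl, w', -, rfl⟩, rfl⟩ := hw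
    have := L_of_even (w := w') (c := c) (d := !c) huv (by simp)
    have e : (u ++ [c] ++ v) ++ ([!c] ++ w') = u ++ c :: (v ++ (!c) :: w') := by simp
    change (u ++ [c] ++ v) ++ ([!c] ++ w') ∈ L
    rw [e]; exact this
  | s3 c d =>
    simp only [List.map_cons, List.map_nil, List.prod_cons, List.prod_nil, mul_one, J] at hw
    obtain ⟨_, ⟨u, v, rfl, huv⟩, _, ⟨_, rfl, _, ⟨_, rfl, w', -, rfl⟩, rfl⟩, rfl⟩ := hw
    have := L_of_odd (w := w') (c := c) (d := d) huv
    have e : (u ++ [c] ++ v) ++ ([d] ++ ([c] ++ w')) = u ++ c :: (v ++ d :: c :: w') := by simp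
    change (u ++ [c] ++ v) ++ ([d] ++ ([c] ++ w')) ∈ L
    rw [e]; exact this

/-- one step of the grammar -/
def Stp (l l' : List (Symbol Bool NT)) : Prop :=
  ∃ x r, RR x r ∧ ∃ p q : List (Symbol Bool NT), l = p ++ [n x] ++ q ∧ l' = p ++ r ++ q

/-- derivations of the grammar -/
abbrev Der (l l' : List (Symbol Bool NT)) : Prop := Relation.ReflTransGen Stp l l'

lemma produces_eq : G.Produces = Stp := by
  funext l l'
  apply propext
  constructor
  · rintro ⟨r, hr, hrw⟩
    obtain ⟨p, q, h1, h2⟩ := hrw.exists_parts
    exact ⟨r.input, r.output, (mem_rules0 r).1 hr, p, q, h1, h2⟩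
  · rintro ⟨x, r, hr, p, q, h1, h2⟩
    refine ⟨⟨x, r⟩, (mem_rules0 _).2 hr, ?_⟩
    rw [h1, h2]
    exact ContextFreeRule.rewrites_of_exists_parts ⟨x, r⟩ p q

lemma mem_lang (w : List Bool) : w ∈ G.language ↔ Der [n S] (w.map Symbol.terminal) := by
  have : w ∈ G.language ↔ Relation.ReflTransGen G.Produces [n S] (w.map Symbol.terminal) :=
    Iff.rfl
  rw [this, produces_eq]
  exact Iff.rfl

/-- interpretation of a string -/
def JJ (l : List (Symbol Bool NT)) : Language Bool := (l.map J).prod

lemma JJ_append (a b : List (Symbol Bool NT)) : JJ (a ++ b) = JJ a * JJ b := by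
  simp [JJ]

lemma derives_sound {l l' : List (Symbol Bool NT)} (h : Der l l') : JJ l' ≤ JJ l := by
  induction h with
  | refl => exact le_rfl
  | tail _ hs ih =>
    refine le_trans ?_ ih
    obtain ⟨x, r, hr, p, q, rfl, rfl⟩ := hs
    have h1 : JJ r ≤ JJ [n x] := by
      have := rule_sound hr
      simpa [JJ, J] using this
    rw [JJ_append, JJ_append, JJ_append, JJ_append]
    gcongr

lemma word_mem (w : List Bool) : w ∈ JJ (w.map Symbol.terminal) := by
  induction w with
  | nil => simp [JJ]
  | cons a w ih =>
    unfold JJ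
    rw [List.map_cons, List.map_cons, List.prod_cons, Language.mem_mul]
    exact ⟨[a], rfl, w, ih, rfl⟩

lemma stp_of {x : NT} {l : List (Symbol Bool NT)} (h : RR x l) (p q : List (Symbol Bool NT)) :
    Stp (p ++ [n x] ++ q) (p ++ l ++ q) := ⟨x, l, h, p, q, rfl, rfl⟩

lemma der_W (w : List Bool) : ∀ p : List (Symbol Bool NT),
    Der (p ++ [n W]) (p ++ w.map Symbol.terminal) := by
  induction w with
  | nil =>
    intro p
    have := stp_of RR.w0 p []
    exact Relation.ReflTransGen.single (by simpa using this)
  | cons a w ih =>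
    intro p
    have h1 := stp_of (RR.w1 a) p []
    have h2 := ih (p ++ [t a])
    refine Relation.ReflTransGen.head (b := p ++ [t a] ++ [n W]) (by simpa using h1) ?_
    simpa using h2

lemma der_P (c : Bool) (m : ℕ) : ∀ (u v : List Bool), v.length = m → u.length = v.length + 1 →
    ∀ p q : List (Symbol Bool NT),
    Der (p ++ [n (P c)] ++ q) (p ++ (u ++ [c] ++ v).map Symbol.terminal ++ q) := by
  induction m with
  | zero =>
    intro u v hv hu p q
    have hv' : v = [] := List.eq_nil_of_length_eq_zero hv
    subst hv'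
    obtain ⟨a, rfl⟩ := List.length_eq_one_iff.1 (by simpa using hu)
    have := stp_of (RR.p0 c a) p q
    exact Relation.ReflTransGen.single (by simpa using this)
  | succ m ih =>
    intro u v hv hu p q
    obtain ⟨v', b, rfl⟩ : ∃ v' b, v = v' ++ [b] := by
      rcases List.eq_nil_or_concat v with h | ⟨v', b, h⟩
      · subst h; simp at hv
      · exact ⟨v', b, by simpa using h⟩
    cases u with
    | nil => simp at hu
    | cons a u =>
      have h1 := stp_of (RR.p1 c a b) p q
      have h2 := ih u v' (by simpa using hv) (by simpa using hu) (p ++ [t a]) ([t b] ++ q)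
      refine Relation.ReflTransGen.head (b := p ++ [t a, n (P c), t b] ++ q) (by simpa using h1) ?_
      simpa using h2

lemma lang_eq : G.language = L := by
  ext w
  rw [mem_lang]
  constructor
  · intro h
    have h1 := derives_sound h (word_mem w)
    have h2 : JJ [n S] = L := by simp [JJ, J, I]
    rw [h2] at h1
    exact h1
  · intro hw
    by_contra hcon
    apply hw
    -- all consistency conditions hold
    have c0 : ∀ (h : 0 < w.length), w[0] = false := by
      intro h
      by_contra h0
      apply hcon
      cases w with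
      | nil => simp at h
      | cons a w =>
        have ha : a = true := by simpa using h0
        subst ha
        have h1 := stp_of RR.s0 [] []
        have h2 := der_W w [t true]
        exact Relation.ReflTransGen.head (by simpa using h1) (by simpa using h2)
    have c1 : ∀ (h : 1 < w.length), w[1] = !w[0] := by
      intro h
      by_contra h0
      apply hcon
      match w, h, h0 with
      | a :: b :: w, _, h0 =>
        have hb : b = a := by
          simp at h0
          revert h0; cases a <;> cases b <;> simp
        subst hb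
        have h1 := stp_of (RR.s1 b) [] []
        have h2 := der_W w [t b, t b]
        exact Relation.ReflTransGen.head (by simpa using h1) (by simpa using h2)
    have key : ∀ i (hi : 1 ≤ i) (h : 2 * i < w.length), ∃ v, v.length = i - 1 ∧
        w = (w.take i ++ [w[i]] ++ v) ++ w.drop (2 * i) := by
      intro i hi h
      refine ⟨(w.drop (i + 1)).take (i - 1), by simp; omega, ?_⟩
      have e1 : w.drop (2 * i) = (w.drop (i + 1)).drop (i - 1) := by
        rw [List.drop_drop]; congr 1; omega
      rw [e1, List.append_assoc, List.append_assoc, List.take_append_drop, List.singleton_append,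
        ← List.drop_eq_getElem_cons, List.take_append_drop]
    have c2 : ∀ i (hi : 1 ≤ i) (h : 2 * i < w.length), w[2 * i] = w[i] := by
      intro i hi h
      by_contra h0
      apply hcon
      have e1 : w[2 * i] = !w[i] := by
        revert h0; cases w[2 * i] <;> cases w[i] <;> simp
      obtain ⟨v, hv, hw'⟩ := key i hi h
      rw [List.drop_eq_getElem_cons h, e1] at hw'
      have h1 := stp_of (RR.s2 w[i]) [] []
      have h2 := der_P w[i] v.length (w.take i) v rfl (by simp; omega) [] [t (!w[i]), n W]
      have h3 := der_W (w.drop (2 * i + 1))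
        (((w.take i ++ [w[i]] ++ v) ++ [!w[i]]).map Symbol.terminal)
      have h4 : Der [n S] (((w.take i ++ [w[i]] ++ v) ++ (!w[i]) :: w.drop (2 * i + 1)).map
          Symbol.terminal) := by
        refine Relation.ReflTransGen.head (b := [n (P w[i]), t (!w[i]), n W]) (by simpa using h1) ?_
        refine Relation.ReflTransGen.trans (b := ((w.take i ++ [w[i]] ++ v) ++ [!w[i]]).map
          Symbol.terminal ++ [n W]) (by simpa using h2) ?_
        simpa using h3
      rw [← hw'] at h4
      exact h4
    have c3 : ∀ i (hi : 1 ≤ i) (h : 2 * i + 1 < w.length), w[2 * i + 1] = !w[i] := by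
      intro i hi h
      by_contra h0
      apply hcon
      have e1 : w[2 * i + 1] = w[i] := by
        revert h0; cases w[2 * i + 1] <;> cases w[i] <;> simp
      obtain ⟨v, hv, hw'⟩ := key i hi (by omega)
      rw [List.drop_eq_getElem_cons (by omega), List.drop_eq_getElem_cons h, e1] at hw'
      generalize w[2 * i] = d at hw'
      have h1 := stp_of (RR.s3 w[i] d) [] []
      have h2 := der_P w[i] v.length (w.take i) v rfl (by simp; omega) [] [t d, t w[i], n W]
      have h3 := der_W (w.drop (2 * i + 1 + 1))
        (((w.take i ++ [w[i]] ++ v) ++ [d, w[i]]).map Symbol.terminal)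
      have h4 : Der [n S] (((w.take i ++ [w[i]] ++ v) ++ d :: w[i] :: w.drop (2 * i + 1 + 1)).map
          Symbol.terminal) := by
        refine Relation.ReflTransGen.head (b := [n (P w[i]), t d, t w[i], n W])
          (by simpa using h1) ?_
        refine Relation.ReflTransGen.trans (b := ((w.take i ++ [w[i]] ++ v) ++ [d, w[i]]).map
          Symbol.terminal ++ [n W]) (by simpa using h2) ?_
        simpa using h3
      rw [← hw'] at h4
      exact h4
    intro i
    induction i using Nat.strong_induction_on with
    | _ i ih =>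
      intro h
      rcases Nat.even_or_odd' i with ⟨j, rfl | rfl⟩
      · rcases Nat.eq_zero_or_pos j with rfl | hj
        · rw [c0 (by simpa using h)]; exact tm_zero.symm
        · rw [c2 j hj h, tm_even]
          exact ih j (by omega) (by omega)
      · rcases Nat.eq_zero_or_pos j with rfl | hj
        · rw [c1 (by simpa using h), tm_odd]
          rw [ih 0 (by omega) (by omega)]
        · rw [c3 j hj h, tm_odd]
          rw [ih j (by omega) (by omega)]

lemma L_cf : L.IsContextFree := ⟨G, lang_eq⟩

lemma not_regular : ¬ L.IsRegular := by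
  intro h
  obtain ⟨σ, hσ, M, hM⟩ := Language.IsRegular_compl.2 h
  let x : List Bool := (List.range (Fintype.card σ)).map tm
  have hx : x ∈ M.accepts := by
    rw [hM]
    have : Pre x := by
      intro i hi
      simp [x]
    intro hL
    exact hL this
  obtain ⟨a, b, c, -, -, hb, hle⟩ := M.pumping_lemma hx (by simp [x])
  have h4 : a ++ (b ++ (b ++ (b ++ b))) ++ c ∈ M.accepts := by
    have k1 : b ++ (b ++ (b ++ b)) ∈ KStar.kstar ({b} : Language Bool) := by
      rw [Language.mem_kstar]
      refine ⟨[b, b, b, b], by simp, ?_⟩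
      intro y hy
      simp at hy
      rw [hy]; rfl
    have k2 : a ++ (b ++ (b ++ (b ++ b))) ∈ ({a} : Language Bool) * KStar.kstar {b} := by
      rw [Language.mem_mul]
      exact ⟨a, rfl, b ++ (b ++ (b ++ b)), k1, rfl⟩
    have k3 : a ++ (b ++ (b ++ (b ++ b))) ++ c ∈
        ({a} : Language Bool) * KStar.kstar {b} * {c} := by
      rw [Language.mem_mul]
      exact ⟨a ++ (b ++ (b ++ (b ++ b))), k2, c, rfl, rfl⟩
    exact hle k3
  rw [hM] at h4
  apply h4
  exact fun hp => no_fourth a c b hb hp

lemma four_split (m : ℕ) (u : List Bool) (hm : 1 ≤ m) : ∃ r : List Bool,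
    (List.replicate (4 * m) u).flatten = (u ++ (u ++ (u ++ u))) ++ r := by
  obtain ⟨k, rfl⟩ : ∃ k, m = k + 1 := ⟨m - 1, by omega⟩
  refine ⟨(List.replicate (4 * k) u).flatten, ?_⟩
  rw [show 4 * (k + 1) = 4 * k + 1 + 1 + 1 + 1 by ring]
  simp only [List.replicate_succ, List.flatten_cons, List.append_assoc]

/-- The negation of the preceding statement: For every context-free language L over a finite alphabet: L is regular iff for some k ≥ 1, whenever uv is nonempty and x uⁿ y vⁿ z ∈ L for all n ≥ 1, then x u^{kn} y v^{km} z ∈ L for all n, m ≥ 1. -/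
theorem result :
    ¬ (∀ (α : Type) [Fintype α] (L : Language α), L.IsContextFree →
      (L.IsRegular ↔
        ∃ k : ℕ, 1 ≤ k ∧
          ∀ x u y v z : List α, u ++ v ≠ [] →
            (∀ n : ℕ, 1 ≤ n →
              x ++ (List.replicate n u).flatten ++ y ++ (List.replicate n v).flatten ++ z ∈ L) →
            ∀ n m : ℕ, 1 ≤ n → 1 ≤ m →
              x ++ (List.replicate (k * n) u).flatten ++ y ++ (List.replicate (k * m) v).flatten ++ z ∈ L)) := by
  intro h
  refine not_regular ((h Bool L L_cf).2 ⟨4, by norm_num, ?_⟩)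
  intro x u y v z huv _ n m hn hm hpre
  obtain ⟨r, hr⟩ := four_split n u hn
  obtain ⟨r', hr'⟩ := four_split m v hm
  rw [hr, hr'] at hpre
  by_cases hu : u = []
  · have hv : v ≠ [] := by
      intro hv; exact huv (by simp [hu, hv])
    refine no_fourth (x ++ ((u ++ (u ++ (u ++ u))) ++ r) ++ y) (r' ++ z) v hv ?_
    have e : x ++ ((u ++ (u ++ (u ++ u))) ++ r) ++ y ++ ((v ++ (v ++ (v ++ v))) ++ r') ++ z =
      x ++ ((u ++ (u ++ (u ++ u))) ++ r) ++ y ++ (v ++ (v ++ (v ++ v))) ++ (r' ++ z) := by
      simp only [List.append_assoc]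
    rw [← e]; exact hpre
  · refine no_fourth x (r ++ y ++ ((v ++ (v ++ (v ++ v))) ++ r') ++ z) u hu ?_
    have e : x ++ ((u ++ (u ++ (u ++ u))) ++ r) ++ y ++ ((v ++ (v ++ (v ++ v))) ++ r') ++ z =
      x ++ (u ++ (u ++ (u ++ u))) ++ (r ++ y ++ ((v ++ (v ++ (v ++ v))) ++ r') ++ z) := by
      simp only [List.append_assoc]
    rw [← e]; exact hpre

end Pool.Agent.S09304
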