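import Pool.Statements.S09306

set_option autoImplicit false
open Filter Asymptotics
open Pool Pool.MP_2674cb_lc

namespace Pool.Agent.S09306

section Core

variable {A : Type}

/-- A rewrite event: the rule `e.2` applied at position `e.1`. -/
abbrev Ev (A : Type) := ℕ × (List A × List A)

/-- The left side of the event's rule occurs in `w` at the event's position. -/
def Fits (w : ℕ → A) (e : Ev A) : Prop :=
  ∀ t (h : t < e.2.1.length), w (e.1 + t) = e.2.1[t]

/-- The word after the event. -/
def app (w : ℕ → A) (e : Ev A) : ℕ → A :=
  fun c => if h : e.1 ≤ c ∧ c - e.1 < e.2.2.length then e.2.2[c - e.1]'h.2 else w c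

/-- `E` is a sequence of events that can be carried out from the word `w 0 … w (n-1)`. -/
def Run (S : Set (List A × List A)) (n : ℕ) : (ℕ → A) → List (Ev A) → Prop
  | _, [] => True
  | w, e :: E => e.2 ∈ S ∧ e.1 + e.2.1.length ≤ n ∧ Fits w e ∧ Run S n (app w e) E

/-- The local history of cell `c`. -/
def hist (c : ℕ) (E : List (Ev A)) : List ((List A × List A) × ℕ) :=
  E.filterMap (fun e => if e.1 ≤ c ∧ c < e.1 + e.2.1.length then some (e.2, c - e.1) else none)

/-- Glue the cells `≤ i` of `w1` with the cells `> j` of `w2`. -/
def glueW (i j : ℕ) (w1 w2 : ℕ → A) : ℕ → A :=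
  fun c => if c ≤ i then w1 c else w2 (c - i + j)

theorem hist_nil (c : ℕ) : hist c ([] : List (Ev A)) = [] := rfl

theorem hist_cons_touch (c : ℕ) (e : Ev A) (E : List (Ev A))
    (h : e.1 ≤ c ∧ c < e.1 + e.2.1.length) :
    hist c (e :: E) = (e.2, c - e.1) :: hist c E := by
  unfold hist
  rw [List.filterMap_cons, if_pos h]

theorem hist_cons_not (c : ℕ) (e : Ev A) (E : List (Ev A))
    (h : ¬ (e.1 ≤ c ∧ c < e.1 + e.2.1.length)) :
    hist c (e :: E) = hist c E := by
  unfold hist
  rw [List.filterMap_cons, if_neg h]

theorem glue (S : Set (List A × List A)) (hS : ∀ p ∈ S, p.1.length = p.2.length)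
    (n1 n2 i j : ℕ) (hj : j < n2) :
    ∀ (N : ℕ) (E1 E2 : List (Ev A)) (w1 w2 : ℕ → A), E1.length + E2.length ≤ N →
      Run S n1 w1 E1 → Run S n2 w2 E2 → w1 i = w2 j → hist i E1 = hist j E2 →
      ∃ E, Run S (i + (n2 - j)) (glueW i j w1 w2) E ∧
        (∀ c, c ≤ i → hist c E = hist c E1) ∧
        (∀ c, i < c → hist c E = hist (c - i + j) E2) := by
  intro N
  induction N with
  | zero =>
    intro E1 E2 w1 w2 hN _ _ _ _
    have h1 : E1 = [] := List.length_eq_zero_iff.mp (by omega)
    have h2 : E2 = [] := List.length_eq_zero_iff.mp (by omega)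
    subst h1 h2
    exact ⟨[], trivial, fun _ _ => rfl, fun _ _ => rfl⟩
  | succ N ih =>
    intro E1 E2 w1 w2 hN hR1 hR2 hw hh
    -- first: a leading event of `E2` that does not touch `j`
    by_cases hE2 : ∃ e2 E2', E2 = e2 :: E2' ∧ ¬ (e2.1 ≤ j ∧ j < e2.1 + e2.2.1.length)
    · obtain ⟨e2, E2', rfl, hnt⟩ := hE2
      obtain ⟨hm, hb, hf, hr⟩ := hR2
      rw [hist_cons_not j e2 E2' hnt] at hh
      have hlen := hS _ hm
      have hw' : w1 i = app w2 e2 j := by
        rw [hw]; unfold app
        rw [dif_neg]; omega
      simp only [List.length_cons] at hN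
      by_cases hleft : e2.1 + e2.2.1.length ≤ j
      · -- entirely to the left of `j`: drop
        obtain ⟨E, hE, ha, hc⟩ := ih E1 E2' w1 (app w2 e2) (by omega) hR1 hr hw' hh
        have hg : glueW i j w1 (app w2 e2) = glueW i j w1 w2 := by
          funext c
          unfold glueW
          split_ifs with h
          · rfl
          · unfold app
            rw [dif_neg]; omega
        rw [hg] at hE
        refine ⟨E, hE, ha, ?_⟩
        intro c hc'
        rw [hc c hc', hist_cons_not]
        omega
      · -- entirely to the right of `j`: perform the shifted event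
        have hright : j < e2.1 := by omega
        obtain ⟨E, hE, ha, hc⟩ := ih E1 E2' w1 (app w2 e2) (by omega) hR1 hr hw' hh
        refine ⟨(e2.1 - j + i, e2.2) :: E, ⟨hm, ?_, ?_, ?_⟩, ?_, ?_⟩
        · simp only; omega
        · intro t ht
          simp only at ht ⊢
          unfold glueW
          rw [if_neg (by omega)]
          rw [← hf t ht]
          congr 1
          omega
        · have hg : app (glueW i j w1 w2) (e2.1 - j + i, e2.2) = glueW i j w1 (app w2 e2) := by
            funext c
            unfold glueW app
            simp only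
            by_cases h1 : c ≤ i
            · rw [dif_neg (by omega), if_pos h1, if_pos h1]
            · rw [if_neg h1, if_neg h1]
              by_cases h2 : e2.1 - j + i ≤ c ∧ c - (e2.1 - j + i) < e2.2.2.length
              · rw [dif_pos h2, dif_pos (by omega)]
                congr 1
                omega
              · rw [dif_neg h2, dif_neg (by omega)]
          rw [hg]
          exact hE
        · intro c hc'
          rw [hist_cons_not _ _ _ (by simp only; omega)]
          exact ha c hc'
        · intro c hc'
          by_cases h2 : e2.1 ≤ c - i + j ∧ c - i + j < e2.1 + e2.2.1.length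
          · rw [hist_cons_touch _ _ _ h2, hist_cons_touch _ _ _ (by simp only; omega), hc c hc']
            simp only
            congr 2
            omega
          · rw [hist_cons_not _ _ _ h2, hist_cons_not _ _ _ (by simp only; omega), hc c hc']
    · -- now `E2` is empty or begins with an event touching `j`
      cases E1 with
      | nil =>
        cases E2 with
        | nil => exact ⟨[], trivial, fun _ _ => rfl, fun _ _ => rfl⟩
        | cons e2 E2' =>
          exfalso
          by_cases ht : e2.1 ≤ j ∧ j < e2.1 + e2.2.1.length
          · rw [hist_cons_touch _ _ _ ht, hist_nil] at hh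
            exact List.cons_ne_nil _ _ hh.symm
          · exact hE2 ⟨e2, E2', rfl, ht⟩
      | cons e1 E1' =>
        obtain ⟨hm, hb, hf, hr⟩ := hR1
        have hlen := hS _ hm
        simp only [List.length_cons] at hN
        by_cases ht1 : e1.1 ≤ i ∧ i < e1.1 + e1.2.1.length
        · -- `e1` touches `i`
          cases E2 with
          | nil =>
            exfalso
            rw [hist_cons_touch _ _ _ ht1, hist_nil] at hh
            exact List.cons_ne_nil _ _ hh
          | cons e2 E2' =>
            have ht2 : e2.1 ≤ j ∧ j < e2.1 + e2.2.1.length := by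
              by_contra hcon
              exact hE2 ⟨e2, E2', rfl, hcon⟩
            rw [hist_cons_touch _ _ _ ht1, hist_cons_touch _ _ _ ht2] at hh
            obtain ⟨hm2, hb2, hf2, hr2⟩ := hR2
            have hhd := (List.cons.inj hh).1
            have htl := (List.cons.inj hh).2
            have hrule : e1.2 = e2.2 := congrArg Prod.fst hhd
            have hoff : i - e1.1 = j - e2.1 := congrArg Prod.snd hhd
            have hlen2 := hS _ hm2
            have hl12 : e1.2.1.length = e2.2.1.length := by rw [hrule]
            have hl12' : e1.2.2.length = e2.2.2.length := by rw [hrule]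
            have hw' : app w1 e1 i = app w2 e2 j := by
              unfold app
              rw [dif_pos (by omega), dif_pos (by omega)]
              simp only [hrule, hoff]
            simp only [List.length_cons] at hN
            obtain ⟨E, hE, ha, hc⟩ :=
              ih E1' E2' (app w1 e1) (app w2 e2) (by omega) hr hr2 hw' htl
            refine ⟨e1 :: E, ⟨hm, by omega, ?_, ?_⟩, ?_, ?_⟩
            · intro t ht
              unfold glueW
              by_cases h1 : e1.1 + t ≤ i
              · rw [if_pos h1]; exact hf t ht
              · rw [if_neg h1]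
                have h3 : e1.1 + t - i + j = e2.1 + t := by omega
                rw [h3, hf2 t (by omega)]
                simp only [hrule]
            · have hg : app (glueW i j w1 w2) e1 = glueW i j (app w1 e1) (app w2 e2) := by
                funext c
                unfold glueW app
                by_cases h1 : c ≤ i
                · simp only [if_pos h1]
                · simp only [if_neg h1]
                  by_cases h2 : e1.1 ≤ c ∧ c - e1.1 < e1.2.2.length
                  · rw [dif_pos h2, dif_pos (by omega)]
                    have h3 : c - e1.1 = c - i + j - e2.1 := by omega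
                    simp only [hrule, h3]
                  · rw [dif_neg h2, dif_neg (by omega)]
              rw [hg]; exact hE
            · intro c hc'
              by_cases h2 : e1.1 ≤ c ∧ c < e1.1 + e1.2.1.length
              · rw [hist_cons_touch _ _ _ h2, hist_cons_touch _ _ _ h2, ha c hc']
              · rw [hist_cons_not _ _ _ h2, hist_cons_not _ _ _ h2, ha c hc']
            · intro c hc'
              by_cases h2 : e1.1 ≤ c ∧ c < e1.1 + e1.2.1.length
              · rw [hist_cons_touch _ _ _ h2, hist_cons_touch _ _ _ (by omega), hc c hc', hrule]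
                congr 2
                omega
              · rw [hist_cons_not _ _ _ h2, hist_cons_not _ _ _ (by omega), hc c hc']
        · -- `e1` does not touch `i`
          rw [hist_cons_not _ _ _ ht1] at hh
          have hw' : app w1 e1 i = w2 j := by
            rw [← hw]; unfold app
            rw [dif_neg]; omega
          obtain ⟨E, hE, ha, hc⟩ := ih E1' E2 (app w1 e1) w2 (by omega) hr hR2 hw' hh
          by_cases hright : i < e1.1
          · have hg : glueW i j (app w1 e1) w2 = glueW i j w1 w2 := by
              funext c
              unfold glueW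
              split_ifs with h
              · unfold app
                rw [dif_neg]; omega
              · rfl
            rw [hg] at hE
            refine ⟨E, hE, ?_, hc⟩
            intro c hc'
            rw [ha c hc', hist_cons_not]
            omega
          · have hleft : e1.1 + e1.2.1.length ≤ i := by omega
            refine ⟨e1 :: E, ⟨hm, by omega, ?_, ?_⟩, ?_, ?_⟩
            · intro t ht
              unfold glueW
              rw [if_pos (by omega)]
              exact hf t ht
            · have hg : app (glueW i j w1 w2) e1 = glueW i j (app w1 e1) w2 := by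
                funext c
                unfold glueW app
                by_cases h1 : c ≤ i
                · simp only [if_pos h1]
                · simp only [if_neg h1]
                  rw [dif_neg (by omega)]
              rw [hg]; exact hE
            · intro c hc'
              by_cases h2 : e1.1 ≤ c ∧ c < e1.1 + e1.2.1.length
              · rw [hist_cons_touch _ _ _ h2, hist_cons_touch _ _ _ h2, ha c hc']
              · rw [hist_cons_not _ _ _ h2, hist_cons_not _ _ _ h2, ha c hc']
            · intro c hc'
              rw [hist_cons_not _ _ _ (by omega), hc c hc']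

end Core


section Conv

variable {A : Type}

/-- One rewrite step. -/
def Step (S : Set (List A × List A)) (a b : List A) : Prop :=
  ∃ x y : List A, ∃ p ∈ S, a = x ++ p.1 ++ y ∧ b = x ++ p.2 ++ y

theorem run_to_lists (S : Set (List A × List A)) (hS : ∀ p ∈ S, p.1.length = p.2.length)
    (n : ℕ) : ∀ (E : List (Ev A)) (w : ℕ → A), Run S n w E →
      ∃ f : ℕ → List A, f 0 = (List.range n).map w ∧ ∀ i < E.length, Step S (f i) (f (i + 1)) := by
  intro E
  induction E with
  | nil =>
    intro w _
    exact ⟨fun _ => (List.range n).map w, rfl, fun i hi => absurd hi (Nat.not_lt_zero i)⟩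
  | cons e E ih =>
    intro w hR
    obtain ⟨hm, hb, hf, hr⟩ := hR
    obtain ⟨f, hf0, hfs⟩ := ih _ hr
    have hlen := hS _ hm
    refine ⟨fun t => Nat.casesOn t ((List.range n).map w) f, rfl, ?_⟩
    intro i hi
    cases i with
    | succ i =>
      simp only [List.length_cons] at hi
      exact hfs i (by omega)
    | zero =>
      refine ⟨(List.range e.1).map w,
        (List.range (n - e.1 - e.2.1.length)).map (fun c => w (c + (e.1 + e.2.1.length))), e.2, hm,
        ?_, ?_⟩
      · show (List.range n).map w = _
        apply List.ext_getElem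
        · simp; omega
        · intro c h1 h2
          simp only [List.length_map, List.length_range] at h1
          simp only [List.getElem_map, List.getElem_range, List.getElem_append, List.length_map,
            List.length_range, List.length_append]
          by_cases h3 : c < e.1 + e.2.1.length
          · rw [dif_pos h3]
            by_cases h4 : c < e.1
            · rw [dif_pos h4]
            · rw [dif_neg h4, ← hf (c - e.1) (by omega)]
              congr 1
              omega
          · rw [dif_neg h3]
            congr 1
            omega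
      · show f 0 = _
        rw [hf0]
        apply List.ext_getElem
        · simp; omega
        · intro c h1 h2
          simp only [List.length_map, List.length_range] at h1
          simp only [List.getElem_map, List.getElem_range, List.getElem_append, List.length_map,
            List.length_range, List.length_append]
          unfold app
          by_cases h3 : c < e.1 + e.2.2.length
          · rw [dif_pos h3]
            by_cases h4 : c < e.1
            · rw [dif_pos h4, dif_neg (by omega)]
            · rw [dif_neg h4, dif_pos (by omega)]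
          · rw [dif_neg h3, dif_neg (by omega)]
            congr 1
            omega

theorem lists_to_run [Inhabited A] (S : Set (List A × List A))
    (hS : ∀ p ∈ S, p.1.length = p.2.length) :
    ∀ (m : ℕ) (f : ℕ → List A), (∀ i < m, Step S (f i) (f (i + 1))) →
      ∃ E, E.length = m ∧ Run S (f 0).length (fun c => (f 0).getD c default) E := by
  intro m
  induction m with
  | zero => intro f _; exact ⟨[], rfl, trivial⟩
  | succ m ih =>
    intro f hf
    obtain ⟨E, hE, hR⟩ := ih (fun t => f (t + 1)) (fun i hi => hf (i + 1) (by omega))
    obtain ⟨x, y, p, hp, h0, h1⟩ := hf 0 (by omega)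
    have hlen := hS _ hp
    have hll : (f (0 + 1)).length = (f 0).length := by
      rw [h0, h1]; simp; omega
    refine ⟨(x.length, p) :: E, by simp [hE], hp, ?_, ?_, ?_⟩
    · rw [h0]; simp
    · intro t ht
      simp only at ht ⊢
      rw [h0, List.getD_eq_getElem _ _ (by simp; omega)]
      simp only [List.append_assoc]
      rw [List.getElem_append_right (by omega)]
      simp only [Nat.add_sub_cancel_left]
      rw [List.getElem_append_left]
    · have : app (fun c => (f 0).getD c default) (x.length, p)
          = fun c => (f (0 + 1)).getD c default := by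
        funext c
        unfold app
        simp only
        rw [h0, h1]
        by_cases h2 : x.length ≤ c ∧ c - x.length < p.2.length
        · rw [dif_pos h2]
          rw [List.getD_eq_getElem _ _ (by simp; omega)]
          simp only [List.append_assoc]
          rw [List.getElem_append_right (by omega), List.getElem_append_left]
        · rw [dif_neg h2]
          by_cases h3 : c < x.length
          · rw [List.getD_eq_getElem _ _ (by simp; omega), List.getD_eq_getElem _ _ (by simp; omega)]
            simp only [List.append_assoc]
            rw [List.getElem_append_left h3, List.getElem_append_left h3]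
          · by_cases h4 : c < x.length + p.1.length + y.length
            · rw [List.getD_eq_getElem _ _ (by simp; omega),
                List.getD_eq_getElem _ _ (by simp; omega)]
              rw [List.getElem_append_right (by simp; omega),
                List.getElem_append_right (by simp; omega)]
              simp only [List.length_append, hlen]
            · rw [List.getD_eq_default _ _ (by simp; omega),
                List.getD_eq_default _ _ (by simp; omega)]
      rw [this, ← hll]
      exact hR

theorem hist_length_cons (c : ℕ) (e : Ev A) (E : List (Ev A)) :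
    (hist c (e :: E)).length =
      (if e.1 ≤ c ∧ c < e.1 + e.2.1.length then 1 else 0) + (hist c E).length := by
  by_cases h : e.1 ≤ c ∧ c < e.1 + e.2.1.length
  · rw [hist_cons_touch _ _ _ h, if_pos h, List.length_cons]; omega
  · rw [hist_cons_not _ _ _ h, if_neg h]; omega

theorem sum_touch (n a l : ℕ) (h : a + l ≤ n) :
    (∑ c ∈ Finset.range n, if a ≤ c ∧ c < a + l then 1 else 0) = l := by
  rw [← Finset.card_filter]
  have : (Finset.range n).filter (fun c => a ≤ c ∧ c < a + l) = Finset.Ico a (a + l) := by
    ext c
    simp only [Finset.mem_filter, Finset.mem_range, Finset.mem_Ico]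
    omega
  rw [this, Nat.card_Ico]; omega

theorem sum_hist_ge (S : Set (List A × List A)) (h1 : ∀ p ∈ S, 1 ≤ p.1.length) (n : ℕ) :
    ∀ (E : List (Ev A)) (w : ℕ → A), Run S n w E →
      E.length ≤ ∑ c ∈ Finset.range n, (hist c E).length := by
  intro E
  induction E with
  | nil => intro w _; simp
  | cons e E ih =>
    intro w hR
    obtain ⟨hm, hb, hf, hr⟩ := hR
    have := ih _ hr
    simp only [hist_length_cons, Finset.sum_add_distrib]
    rw [sum_touch _ _ _ hb, List.length_cons]
    have := h1 _ hm
    omega

theorem sum_hist_le (S : Set (List A × List A)) (L : ℕ) (h1 : ∀ p ∈ S, p.1.length ≤ L) (n : ℕ) :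
    ∀ (E : List (Ev A)) (w : ℕ → A), Run S n w E →
      ∑ c ∈ Finset.range n, (hist c E).length ≤ L * E.length := by
  intro E
  induction E with
  | nil => intro w _; simp [hist_nil]
  | cons e E ih =>
    intro w hR
    obtain ⟨hm, hb, hf, hr⟩ := hR
    have := ih _ hr
    simp only [hist_length_cons, Finset.sum_add_distrib]
    rw [sum_touch _ _ _ hb, List.length_cons, Nat.mul_succ]
    have := h1 _ hm
    omega

theorem hist_mem (S : Set (List A × List A)) (n : ℕ) (c : ℕ) :
    ∀ (E : List (Ev A)) (w : ℕ → A), Run S n w E →
      ∀ x ∈ hist c E, x.1 ∈ S ∧ x.2 < x.1.1.length := by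
  intro E
  induction E with
  | nil => intro w _ x hx; simp [hist_nil] at hx
  | cons e E ih =>
    intro w hR x hx
    obtain ⟨hm, hb, hf, hr⟩ := hR
    by_cases h : e.1 ≤ c ∧ c < e.1 + e.2.1.length
    · rw [hist_cons_touch _ _ _ h, List.mem_cons] at hx
      rcases hx with rfl | hx
      · exact ⟨hm, by simp only; omega⟩
      · exact ih _ hr x hx
    · rw [hist_cons_not _ _ _ h] at hx
      exact ih _ hr x hx

theorem hist_length_le (c : ℕ) (E : List (Ev A)) : (hist c E).length ≤ E.length := by
  unfold hist
  exact List.length_filterMap_le _ _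

/-- A long local history in a word of length `n`. -/
def HasLong (S : Set (List A × List A)) (K n : ℕ) : Prop :=
  ∃ (w : ℕ → A) (E : List (Ev A)) (c : ℕ), Run S n w E ∧ c < n ∧ K ≤ (hist c E).length

theorem min_pair (S : Set (List A × List A)) (hS : ∀ p ∈ S, p.1.length = p.2.length)
    (K n : ℕ) (hmin : ∀ n' < n, ¬ HasLong S K n') (w : ℕ → A) (E : List (Ev A)) (c : ℕ)
    (hR : Run S n w E) (hc : c < n) (hK : K ≤ (hist c E).length) (i j : ℕ) (hij : i < j)
    (hjn : j < n) (hw : w i = w j) (hh : hist i E = hist j E) : i < c ∧ c ≤ j := by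
  by_contra hcon
  obtain ⟨E', hE', ha, hb⟩ := glue S hS n n i j hjn (E.length + E.length) E E w w le_rfl hR hR hw hh
  apply hmin (i + (n - j)) (by omega)
  by_cases h1 : c ≤ i
  · refine ⟨_, E', c, hE', by omega, ?_⟩
    rw [ha c h1]; exact hK
  · have h2 : j < c := by omega
    refine ⟨_, E', c - j + i, hE', by omega, ?_⟩
    rw [hb _ (by omega)]
    have : c - j + i - i + j = c := by omega
    rw [this]; exact hK

end Conv

section Count

variable {k : ℕ}

/-- The key of a cell: its letter and the first `m` entries of its history. -/
theorem few_short (S : Finset (List (Fin k) × List (Fin k)))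
    (hS : ∀ p ∈ S, p.1.length = p.2.length) (L : ℕ) (hL : ∀ p ∈ S, p.1.length ≤ L)
    (K n : ℕ) (hmin : ∀ n' < n, ¬ HasLong (S : Set (List (Fin k) × List (Fin k))) K n')
    (w : ℕ → Fin k) (E : List (Ev (Fin k))) (c : ℕ)
    (hR : Run (S : Set (List (Fin k) × List (Fin k))) n w E) (hc : c < n)
    (hK : K ≤ (hist c E).length) (m : ℕ) :
    ((Finset.range n).filter (fun c => (hist c E).length ≤ m)).card ≤
      2 * (k * (S.card * L + 1) ^ m) := by
  classical
  set H : Finset (((List (Fin k) × List (Fin k))) × ℕ) := S ×ˢ Finset.range L with hH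
  set T : Finset (Fin k × (Fin m → Option ((List (Fin k) × List (Fin k)) × ℕ))) :=
    Finset.univ ×ˢ Fintype.piFinset (fun _ => Finset.insertNone H) with hT
  have hTcard : T.card = k * (S.card * L + 1) ^ m := by
    rw [hT, Finset.card_product, Fintype.card_piFinset]
    simp [hH, Finset.card_insertNone, Finset.card_product]
  rw [← hTcard]
  apply Finset.card_le_mul_card_image_of_maps_to
    (f := fun c => (w c, fun t : Fin m => (hist c E)[(t : ℕ)]?))
  · intro i hi
    simp only [hT, Finset.mem_product, Finset.mem_univ, true_and, Fintype.mem_piFinset,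
      Finset.mem_insertNone]
    intro t x hx
    have hx' : x ∈ hist i E := List.mem_of_getElem? hx
    obtain ⟨h1, h2⟩ := hist_mem _ _ _ _ _ hR x hx'
    rw [hH, Finset.mem_product]
    exact ⟨h1, Finset.mem_range.mpr (lt_of_lt_of_le h2 (hL _ h1))⟩
  · intro b _
    by_contra hcon
    push Not at hcon
    rw [Finset.two_lt_card_iff] at hcon
    obtain ⟨x, y, z, hx, hy, hz, hxy, hxz, hyz⟩ := hcon
    simp only [Finset.mem_filter, Finset.mem_range] at hx hy hz
    have key : ∀ i j : ℕ, ((i < n ∧ (hist i E).length ≤ m) ∧
        (w i, fun t : Fin m => (hist i E)[(t : ℕ)]?) = b) →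
        ((j < n ∧ (hist j E).length ≤ m) ∧
        (w j, fun t : Fin m => (hist j E)[(t : ℕ)]?) = b) → i < j → i < c ∧ c ≤ j := by
      intro i j hi hj hij
      have hkey := hi.2.trans hj.2.symm
      have hwij : w i = w j := congrArg Prod.fst hkey
      have hhij := congrArg Prod.snd hkey
      simp only at hhij
      refine min_pair _ hS K n hmin w E c hR hc hK i j hij hj.1.1 hwij ?_
      apply List.ext_getElem?
      intro t
      by_cases ht : t < m
      · exact congrFun hhij ⟨t, ht⟩
      · rw [List.getElem?_eq_none (by omega), List.getElem?_eq_none (by omega)]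
    have h1 := key x y hx hy
    have h2 := key y x hy hx
    have h3 := key x z hx hz
    have h4 := key z x hz hx
    have h5 := key y z hy hz
    have h6 := key z y hz hy
    omega

theorem long_total (S : Finset (List (Fin k) × List (Fin k)))
    (hS : ∀ p ∈ S, p.1.length = p.2.length) (L : ℕ) (hL : ∀ p ∈ S, p.1.length ≤ L)
    (K n : ℕ) (hmin : ∀ n' < n, ¬ HasLong (S : Set (List (Fin k) × List (Fin k))) K n')
    (w : ℕ → Fin k) (E : List (Ev (Fin k))) (c : ℕ)
    (hR : Run (S : Set (List (Fin k) × List (Fin k))) n w E) (hc : c < n)
    (hK : K ≤ (hist c E).length) (m : ℕ) (hm : 4 * (k * (S.card * L + 1) ^ m) ≤ n) :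
    n * (m + 1) ≤ 2 * (L * E.length) := by
  have h1 := few_short S hS L hL K n hmin w E c hR hc hK m
  have h2 := sum_hist_le (S : Set (List (Fin k) × List (Fin k))) L hL n E w hR
  have h3 : ((Finset.range n).filter (fun c => ¬ (hist c E).length ≤ m)).card * (m + 1) ≤
      ∑ c ∈ Finset.range n, (hist c E).length := by
    rw [← smul_eq_mul, ← Finset.sum_const]
    refine le_trans (Finset.sum_le_sum (f := fun _ => m + 1)
      (g := fun c => (hist c E).length) ?_) (Finset.sum_le_sum_of_subset (Finset.filter_subset _ _))
    intro i hi
    simp only [Finset.mem_filter] at hi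
    omega
  have h4 := Finset.card_filter_add_card_filter_not (s := Finset.range n)
    (fun c => (hist c E).length ≤ m)
  rw [Finset.card_range] at h4
  have h5 : n ≤ 2 * ((Finset.range n).filter (fun c => ¬ (hist c E).length ≤ m)).card := by
    omega
  calc n * (m + 1) ≤ (2 * ((Finset.range n).filter (fun c => ¬ (hist c E).length ≤ m)).card)
        * (m + 1) := Nat.mul_le_mul_right _ h5
    _ = 2 * (((Finset.range n).filter (fun c => ¬ (hist c E).length ≤ m)).card * (m + 1)) := by
        ring
    _ ≤ 2 * (L * E.length) := Nat.mul_le_mul_left _ (h3.trans h2)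

end Count

section Final

variable {k : ℕ}

theorem step_length (S : Set (List (Fin k) × List (Fin k)))
    (hS : ∀ p ∈ S, p.1.length = p.2.length) (a b : List (Fin k)) (h : Step S a b) :
    a.length = b.length := by
  obtain ⟨x, y, p, hp, rfl, rfl⟩ := h
  simp [hS p hp]

theorem chain_length (S : Set (List (Fin k) × List (Fin k)))
    (hS : ∀ p ∈ S, p.1.length = p.2.length) (m : ℕ) (f : ℕ → List (Fin k))
    (hf : ∀ i < m, Step S (f i) (f (i + 1))) : ∀ i ≤ m, (f i).length = (f 0).length := by
  intro i
  induction i with
  | zero => intro _; rfl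
  | succ i ih =>
    intro hi
    rw [← ih (by omega), step_length S hS _ _ (hf i (by omega))]

/-- In a terminating length-preserving system, chains from words of bounded length are bounded. -/
theorem chain_bound (S : Set (List (Fin k) × List (Fin k)))
    (hS : ∀ p ∈ S, p.1.length = p.2.length)
    (hterm : ¬ ∃ f : ℕ → List (Fin k), ∀ i : ℕ, Step S (f i) (f (i + 1))) (n : ℕ) :
    ∃ B : ℕ, ∀ (m : ℕ) (f : ℕ → List (Fin k)), (f 0).length ≤ n →
      (∀ i < m, Step S (f i) (f (i + 1))) → m ≤ B := by
  classical
  have hfin : {l : List (Fin k) | l.length ≤ n}.Finite := List.finite_length_le _ _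
  refine ⟨hfin.toFinset.card, ?_⟩
  intro m f h0 hf
  by_contra hcon
  have hcon' : hfin.toFinset.card < (Finset.range m).card := by rw [Finset.card_range]; omega
  obtain ⟨a, ha, b, hb, hab, hfab⟩ := Finset.exists_ne_map_eq_of_card_lt_of_maps_to hcon'
    (f := f) (by
      intro i hi
      have hi' : i < m := by simpa using hi
      simp only [Set.Finite.coe_toFinset, Set.mem_ofPred_eq]
      rw [chain_length S hS m f hf i (by omega)]
      exact h0)
  rw [Finset.mem_range] at ha hb
  -- an infinite chain from a loop
  have key : ∀ a b : ℕ, a < m → b < m → a < b → f a = f b → False := by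
    intro a b ha hb hab hfab
    apply hterm
    refine ⟨fun t => f (a + t % (b - a)), ?_⟩
    intro t
    have hpos : 0 < b - a := by omega
    have hlt := Nat.mod_lt t hpos
    have h1 := hf (a + t % (b - a)) (by omega)
    have h2 : f (a + (t + 1) % (b - a)) = f (a + t % (b - a) + 1) := by
      by_cases h3 : t % (b - a) + 1 = b - a
      · have h4 : (t + 1) % (b - a) = 0 := by
          rw [Nat.add_mod]
          by_cases h5 : b - a = 1
          · rw [h5]; exact Nat.mod_one _
          · rw [Nat.mod_eq_of_lt (show 1 < b - a by omega), h3, Nat.mod_self]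
        rw [h4, Nat.add_zero, hfab]
        congr 1
        omega
      · have h4 : (t + 1) % (b - a) = t % (b - a) + 1 := by
          rw [Nat.add_mod, Nat.mod_eq_of_lt (show 1 < b - a by omega),
            Nat.mod_eq_of_lt (show t % (b - a) + 1 < b - a by omega)]
        rw [h4]
        rfl
    show Step S (f (a + t % (b - a))) (f (a + (t + 1) % (b - a)))
    rw [h2]
    exact h1
  rcases Nat.lt_or_gt_of_ne hab with h | h
  · exact key a b ha hb h hfab
  · exact key b a hb ha h hfab.symm

/-- The derivational complexity function, as in the frozen statement. -/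
noncomputable def Dl (S : Finset (List (Fin k) × List (Fin k))) (n : ℕ) : ℕ :=
  sSup {m : ℕ | ∃ f : ℕ → List (Fin k), (f 0).length ≤ n ∧
        ∀ i < m, ∃ x y : List (Fin k), ∃ p ∈ S,
          f i = x ++ p.1 ++ y ∧ f (i + 1) = x ++ p.2 ++ y}

theorem gap (S : Finset (List (Fin k) × List (Fin k))) (hne : S.Nonempty)
    (hS : ∀ p ∈ S, p.1.length = p.2.length)
    (hterm : ¬ ∃ f : ℕ → List (Fin k), ∀ i : ℕ, ∃ x y : List (Fin k), ∃ p ∈ S,
        f i = x ++ p.1 ++ y ∧ f (i + 1) = x ++ p.2 ++ y)
    (hlit : (fun n : ℕ => ((Dl S n : ℕ) : ℝ)) =o[atTop] (fun n : ℕ => (n : ℝ) * Real.log (n : ℝ))) :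
    (fun n : ℕ => ((Dl S n : ℕ) : ℝ)) =Θ[atTop] (fun n : ℕ => (n : ℝ)) := by
  classical
  set SS : Set (List (Fin k) × List (Fin k)) := (S : Set (List (Fin k) × List (Fin k))) with hSS
  have hS' : ∀ p ∈ SS, p.1.length = p.2.length := hS
  have hterm' : ¬ ∃ f : ℕ → List (Fin k), ∀ i : ℕ, Step SS (f i) (f (i + 1)) := hterm
  -- left sides are nonempty
  have hpos : ∀ p ∈ S, 1 ≤ p.1.length := by
    intro p hp
    by_contra hcon
    have h1 : p.1 = [] := List.length_eq_zero_iff.mp (by omega)
    have h2 : p.2 = [] := List.length_eq_zero_iff.mp (by have := hS p hp; omega)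
    exact hterm ⟨fun _ => [], fun i => ⟨[], [], p, hp, by simp [h1], by simp [h2]⟩⟩
  obtain ⟨p0, hp0⟩ := hne
  have hk : 0 < k := by
    have h1 := hpos p0 hp0
    have : p0.1 ≠ [] := by intro h; rw [h] at h1; simp at h1
    obtain ⟨a, ha⟩ := List.exists_mem_of_ne_nil _ this
    exact Nat.pos_of_ne_zero (by rintro rfl; exact a.elim0)
  have : Inhabited (Fin k) := ⟨⟨0, hk⟩⟩
  -- the sets of chain lengths are bounded
  have hbdd : ∀ n : ℕ, BddAbove {m : ℕ | ∃ f : ℕ → List (Fin k), (f 0).length ≤ n ∧
        ∀ i < m, ∃ x y : List (Fin k), ∃ p ∈ S,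
          f i = x ++ p.1 ++ y ∧ f (i + 1) = x ++ p.2 ++ y} := by
    intro n
    obtain ⟨B, hB⟩ := chain_bound SS hS' hterm' n
    exact ⟨B, fun m ⟨f, h0, hf⟩ => hB m f h0 hf⟩
  have hrun : ∀ (n : ℕ) (w : ℕ → Fin k) (E : List (Ev (Fin k))), Run SS n w E →
      E.length ≤ Dl S n := by
    intro n w E hR
    obtain ⟨f, h0, hf⟩ := run_to_lists SS hS' n E w hR
    exact le_csSup (hbdd n) ⟨f, by rw [h0]; simp, hf⟩
  have hmono : ∀ a b : ℕ, a ≤ b → Dl S a ≤ Dl S b := by
    intro a b hab
    apply csSup_le_csSup (hbdd b)
    · exact ⟨0, fun _ => [], by simp, fun i hi => absurd hi (Nat.not_lt_zero i)⟩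
    · rintro m ⟨f, h0, hf⟩
      exact ⟨f, h0.trans hab, hf⟩
  -- lower bound
  have hlow : ∀ q : ℕ, q ≤ Dl S (q * p0.1.length) := by
    intro q
    apply le_csSup (hbdd _)
    refine ⟨fun t => (List.replicate t p0.2).flatten ++ (List.replicate (q - t) p0.1).flatten,
      ?_, ?_⟩
    · simp
    · intro i hi
      refine ⟨(List.replicate i p0.2).flatten, (List.replicate (q - i - 1) p0.1).flatten, p0, hp0,
        ?_, ?_⟩
      · have : q - i = (q - i - 1) + 1 := by omega
        simp only
        rw [this, List.replicate_succ, List.flatten_cons, List.append_assoc]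
        simp
      · have : q - (i + 1) = q - i - 1 := by omega
        simp only
        rw [this, List.replicate_succ', List.flatten_append]
        simp
  constructor
  · -- upper bound
    set L : ℕ := S.sup (fun p => p.1.length) with hLdef
    have hL : ∀ p ∈ S, p.1.length ≤ L := fun p hp => Finset.le_sup (f := fun p => p.1.length) hp
    have hL1 : 1 ≤ L := (hpos p0 hp0).trans (hL p0 hp0)
    by_cases hbd : ∃ K : ℕ, ∀ n, ¬ HasLong SS K n
    · obtain ⟨K, hK⟩ := hbd
      apply IsBigO.of_bound (K : ℝ)
      filter_upwards with n
      have h1 : Dl S n ≤ K * n := by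
        apply csSup_le
        · exact ⟨0, fun _ => [], by simp, fun i hi => absurd hi (Nat.not_lt_zero i)⟩
        · rintro m ⟨f, h0, hf⟩
          obtain ⟨E, hE, hR⟩ := lists_to_run SS hS' m f hf
          rw [← hE]
          refine (sum_hist_ge SS hpos _ E _ hR).trans ?_
          calc ∑ c ∈ Finset.range (f 0).length, (hist c E).length
              ≤ ∑ c ∈ Finset.range (f 0).length, K := by
                apply Finset.sum_le_sum
                intro c hc
                rw [Finset.mem_range] at hc
                by_contra hcon
                exact hK _ ⟨_, E, c, hR, hc, by omega⟩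
            _ = (f 0).length * K := by simp
            _ ≤ K * n := by rw [Nat.mul_comm]; exact Nat.mul_le_mul_left _ h0
      rw [Real.norm_natCast, Real.norm_natCast]
      exact_mod_cast h1
    · exfalso
      push Not at hbd
      -- constants
      set b : ℕ := S.card * L + 1 with hb
      have hcard : 1 ≤ S.card := Finset.card_pos.mpr ⟨p0, hp0⟩
      have hb2 : 2 ≤ b := by
        have : 1 * 1 ≤ S.card * L := Nat.mul_le_mul hcard hL1
        omega
      have hlogb : 0 < Real.log (b : ℝ) := Real.log_pos (by exact_mod_cast hb2)
      have hLR : (0 : ℝ) < (L : ℝ) := by exact_mod_cast hL1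
      set ε : ℝ := 1 / (8 * (L : ℝ) * Real.log b) with hε
      have hεpos : 0 < ε := by rw [hε]; positivity
      have hev := hlit.def hεpos
      rw [eventually_atTop] at hev
      obtain ⟨N0, hN0⟩ := hev
      -- a large threshold
      set N : ℕ := max N0 ((4 * k) ^ 2 + 2) with hN
      -- choose K larger than all run lengths up to N
      set K : ℕ := Dl S N + 1 with hKdef
      have hex := hbd K
      classical
      have hspec := Nat.find_spec hex
      have hmin : ∀ n' < Nat.find hex, ¬ HasLong SS K n' := fun n' hn' => Nat.find_min hex hn'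
      set n := Nat.find hex with hn
      obtain ⟨w, E, c, hR, hc, hKc⟩ := hspec
      have hnN : N < n := by
        by_contra hcon
        have h1 : E.length ≤ Dl S N := (hrun n w E hR).trans (hmono _ _ (by omega))
        have h2 := hist_length_le c E
        omega
      have hn4k : (4 * k) ^ 2 + 2 < n := lt_of_le_of_lt (le_max_right _ _) hnN
      have hnN0 : N0 ≤ n := (le_max_left _ _).trans hnN.le
      have hbound := hN0 n hnN0
      have h4k : 4 * k ≤ n := by nlinarith [Nat.zero_le (4 * k)]
      -- m = floor (log_b (n / (4k)))
      set m : ℕ := Nat.log b (n / (4 * k)) with hm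
      have hq : n / (4 * k) ≠ 0 := by
        have := Nat.div_pos h4k (by omega : 0 < 4 * k)
        omega
      have hm1 : 4 * (k * b ^ m) ≤ n := by
        have h1 : b ^ m ≤ n / (4 * k) := Nat.pow_log_le_self b hq
        have h2 : b ^ m * (4 * k) ≤ n := (Nat.le_div_iff_mul_le (by omega)).mp h1
        calc 4 * (k * b ^ m) = b ^ m * (4 * k) := by ring
          _ ≤ n := h2
      have hm2 : n < b ^ (m + 1) * (4 * k) := by
        have h1 : n / (4 * k) < b ^ (m + 1) := Nat.lt_pow_succ_log_self (by omega) _
        exact (Nat.div_lt_iff_lt_mul (by omega)).mp h1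
      have htot := long_total S hS L hL K n hmin w E c hR hc hKc m hm1
      have hE : E.length ≤ Dl S n := hrun n w E hR
      have htot' : n * (m + 1) ≤ 2 * (L * Dl S n) :=
        htot.trans (Nat.mul_le_mul_left _ (Nat.mul_le_mul_left _ hE))
      have htotR : (n : ℝ) * ((m : ℝ) + 1) ≤ 2 * ((L : ℝ) * (Dl S n : ℝ)) := by
        exact_mod_cast htot'
      -- real estimates
      have hnpos : (0 : ℝ) < (n : ℝ) := by
        have : 0 < n := by omega
        exact_mod_cast this
      have hn2 : (2 : ℝ) ≤ (n : ℝ) := by
        have : 2 ≤ n := by omega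
        exact_mod_cast this
      have hlogn : 0 < Real.log (n : ℝ) := Real.log_pos (by linarith)
      have hkR : (0 : ℝ) < 4 * (k : ℝ) := by
        have : (0 : ℝ) < (k : ℝ) := by exact_mod_cast hk
        linarith
      have hlog1 : Real.log n ≤ (m + 1) * Real.log b + Real.log (4 * k) := by
        have h1 : (n : ℝ) ≤ (b : ℝ) ^ (m + 1) * (4 * k) := by exact_mod_cast hm2.le
        have h2 : Real.log n ≤ Real.log ((b : ℝ) ^ (m + 1) * (4 * k)) :=
          Real.log_le_log hnpos h1
        have hbR : (0 : ℝ) < (b : ℝ) := by
          have : 0 < b := by omega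
          exact_mod_cast this
        rw [Real.log_mul (by positivity) (by positivity), Real.log_pow] at h2
        push_cast at h2
        exact h2
      have hlog2 : 2 * Real.log (4 * k) ≤ Real.log n := by
        have h1 : ((4 * (k : ℝ)) ^ 2) ≤ (n : ℝ) := by
          have : (4 * k) ^ 2 ≤ n := by omega
          exact_mod_cast this
        have h2 := Real.log_le_log (by positivity) h1
        rw [Real.log_pow] at h2
        push_cast at h2
        exact h2
      have hm3 : Real.log n ≤ 2 * ((m + 1) * Real.log b) := by linarith
      rw [Real.norm_natCast, Real.norm_of_nonneg (by positivity)] at hbound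
      -- n log n ≤ 2 log b * n (m+1) ≤ 4 L log b * D ≤ (1/2) n log n
      have h5 : (n : ℝ) * Real.log n ≤ 2 * Real.log b * (n * (m + 1)) := by
        have := mul_le_mul_of_nonneg_left hm3 hnpos.le
        calc (n : ℝ) * Real.log n ≤ n * (2 * ((m + 1) * Real.log b)) := this
          _ = 2 * Real.log b * (n * (m + 1)) := by ring
      have h6 : 2 * Real.log b * ((n : ℝ) * (m + 1)) ≤ 2 * Real.log b * (2 * (L * (Dl S n : ℝ))) :=
        mul_le_mul_of_nonneg_left htotR (by positivity)
      have h7 : 2 * Real.log b * (2 * ((L : ℝ) * (Dl S n : ℝ))) ≤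
          2 * Real.log b * (2 * (L * (ε * (n * Real.log n)))) := by
        apply mul_le_mul_of_nonneg_left _ (by positivity)
        apply mul_le_mul_of_nonneg_left _ (by norm_num)
        exact mul_le_mul_of_nonneg_left hbound hLR.le
      have h8 : 2 * Real.log b * (2 * ((L : ℝ) * (ε * (n * Real.log n)))) =
          (n * Real.log n) / 2 := by
        rw [hε]
        field_simp
        ring
      have h9 : 0 < (n : ℝ) * Real.log n := by positivity
      linarith
  · -- lower bound
    have hl0 : 1 ≤ p0.1.length := hpos p0 hp0
    have hl0R : (0 : ℝ) < (p0.1.length : ℝ) := by exact_mod_cast hl0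
    apply IsBigO.of_bound (2 * (p0.1.length : ℝ))
    filter_upwards [eventually_ge_atTop p0.1.length] with n hn
    rw [Real.norm_natCast, Real.norm_natCast]
    have h1 : n / p0.1.length ≤ Dl S n :=
      (hlow (n / p0.1.length)).trans (hmono _ _ (Nat.div_mul_le_self n _))
    have h2 : n ≤ 2 * p0.1.length * (n / p0.1.length) := by
      have h3 : 1 ≤ n / p0.1.length := Nat.div_pos hn (by omega)
      have h4 := Nat.div_add_mod n p0.1.length
      have h5 := Nat.mod_lt n (show 0 < p0.1.length by omega)
      have h6 : p0.1.length * 1 ≤ p0.1.length * (n / p0.1.length) := Nat.mul_le_mul_left _ h3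
      nlinarith
    have h3 : n ≤ 2 * p0.1.length * Dl S n := h2.trans (Nat.mul_le_mul_left _ h1)
    exact_mod_cast h3

end Final

/-- The negation of the preceding statement: There is a finite nonempty terminating semi-Thue system with length-preserving rules whose longest-derivation function on words of length at most n is o(n log n) but not Θ(n). -/
theorem result :
    ¬ (∃ (k : ℕ) (S : Finset (List (Fin k) × List (Fin k))),
    S.Nonempty ∧
    (∀ p ∈ S, p.1.length = p.2.length) ∧
    (¬ ∃ f : ℕ → List (Fin k), ∀ i : ℕ, ∃ x y : List (Fin k), ∃ p ∈ S,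
        f i = x ++ p.1 ++ y ∧ f (i + 1) = x ++ p.2 ++ y) ∧
    (fun n : ℕ => ((sSup {m : ℕ | ∃ f : ℕ → List (Fin k), (f 0).length ≤ n ∧
        ∀ i < m, ∃ x y : List (Fin k), ∃ p ∈ S,
          f i = x ++ p.1 ++ y ∧ f (i + 1) = x ++ p.2 ++ y} : ℕ) : ℝ))
      =o[atTop] (fun n : ℕ => (n : ℝ) * Real.log (n : ℝ)) ∧
    ¬ ((fun n : ℕ => ((sSup {m : ℕ | ∃ f : ℕ → List (Fin k), (f 0).length ≤ n ∧
        ∀ i < m, ∃ x y : List (Fin k), ∃ p ∈ S,
          f i = x ++ p.1 ++ y ∧ f (i + 1) = x ++ p.2 ++ y} : ℕ) : ℝ))
      =Θ[atTop] (fun n : ℕ => (n : ℝ)))) := by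
  rintro ⟨k, S, hne, hS, hterm, hlit, hnot⟩
  exact hnot (gap S hne hS hterm hlit)

end Pool.Agent.S09306
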