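import Pool.Statements.S09317
import Pool.Agent.Helper743.ACTriv2
import Pool.Agent.Helper743.PRMain2

set_option autoImplicit false
open Classical
open Pool Pool.MP_29fd35_lc

namespace Pool.Agent.S09317

open Nat.Partrec (Code)
open Pool.Agent.Helper743

noncomputable def K0 (n : ℕ) : ℕ :=
  if (Nat.Partrec.Code.eval (Denumerable.ofNat Nat.Partrec.Code n) n).Dom then 1 else 0

lemma K_TR_K0 : TR K K0 := by
  have h1 : Primrec (fun z : ℕ => Encodable.encode (Code.comp (Denumerable.ofNat Code z.unpair.1)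
      (Code.const z.unpair.2))) :=
    Primrec.encode.comp (Code.primrec₂_comp.comp ((Primrec.ofNat Code).comp
      (Primrec.fst.comp Primrec.unpair)) (Code.primrec_const.comp
        (Primrec.snd.comp Primrec.unpair)))
  have h2 := (TR.refl K0).comp (Computable.recT (O := {(K0 : ℕ →. ℕ)}) h1.to_comp)
  refine Nat.RecursiveIn.of_eq h2 ?_
  intro z
  congr 1
  unfold K0 K
  beta_reduce
  rw [Denumerable.ofNat_encode]
  have h3 : Code.eval (Code.comp (Denumerable.ofNat Code z.unpair.1) (Code.const z.unpair.2))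
      (Encodable.encode (Code.comp (Denumerable.ofNat Code z.unpair.1)
        (Code.const z.unpair.2))) =
      Code.eval (Denumerable.ofNat Code z.unpair.1) z.unpair.2 := by
    simp only [Code.eval, Code.eval_const]
    exact Part.bind_some _ _
  rw [h3]

lemma K0_TR_K : TR K0 K := by
  have h1 : Primrec (fun n : ℕ => Nat.pair n n) := Primrec₂.natPair.comp Primrec.id Primrec.id
  have h2 := (TR.refl K).comp (Computable.recT (O := {(K : ℕ →. ℕ)}) h1.to_comp)
  refine Nat.RecursiveIn.of_eq h2 ?_
  intro z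
  congr 1
  unfold K0 K
  beta_reduce
  rw [Nat.unpair_pair]

/-- the graph of a function, as a set -/
noncomputable def gr (G : ℕ → ℕ) (z : ℕ) : Bool := decide (G z.unpair.1 = z.unpair.2)

lemma gr_TR (G : ℕ → ℕ) : TR (fun n => (gr G n).toNat) G := by
  have h1 : Primrec (fun z : ℕ => if z.unpair.1 = z.unpair.2 then 1 else 0) :=
    Primrec.ite (Primrec.eq.comp (Primrec.fst.comp Primrec.unpair)
      (Primrec.snd.comp Primrec.unpair)) (Primrec.const 1) (Primrec.const 0)
  have h2 : TR (fun z => Nat.pair (G z.unpair.1) z.unpair.2) G :=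
    RecT.pair ((TR.refl G).comp (Computable.recT (Computable.fst.comp Computable.unpair)))
      (Computable.recT (Computable.snd.comp Computable.unpair))
  have h3 := (Computable.recT (O := {(G : ℕ →. ℕ)}) h1.to_comp).comp h2
  refine Nat.RecursiveIn.of_eq h3 ?_
  intro z
  congr 1
  unfold gr
  beta_reduce
  rw [Nat.unpair_pair]
  by_cases h : G z.unpair.1 = z.unpair.2 <;> simp [h]

lemma TR_gr (G : ℕ → ℕ) : TR G (fun n => (gr G n).toNat) := by
  have h1 : Primrec (fun m : ℕ => 1 - m) := Primrec.nat_sub.comp (Primrec.const 1) Primrec.id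
  have h2 := (Computable.recT (O := {((fun n => (gr G n).toNat : ℕ → ℕ) : ℕ →. ℕ)})
    h1.to_comp).comp (TR.refl (fun n => (gr G n).toNat))
  have hex : ∀ a, ∃ n, (fun z => 1 - (gr G z).toNat) (Nat.pair a n) = 0 := by
    intro a
    refine ⟨G a, ?_⟩
    simp [gr]
  refine Nat.RecursiveIn.of_eq (RecT.find h2 hex) ?_
  intro a
  congr 1
  have h3 := Nat.find_spec (hex a)
  simp only [gr, Nat.unpair_pair] at h3
  by_contra hne
  have h4 : decide (G a = Nat.find (hex a)) = false := by
    rw [decide_eq_false_iff_not]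
    exact fun h => hne h.symm
  simp only [gr, Nat.unpair_pair] at hne h4
  rw [h4] at h3
  simp at h3

/-- For every noncomputable c.e. set A there is a set B strictly Turing below the halting set, not computing A, such that the halting set is K-trivial relative to B (stated via the relativized coding-Theorem characterization of K^B). -/
theorem result :
  ∀ A : ℕ → Bool,
    (∃ φ : ℕ →. ℕ, Nat.Partrec φ ∧ ∀ n, (φ n).Dom ↔ A n = true) →
    ¬ Computable A →
    ∃ B : ℕ → Bool,
      TuringReducible (fun n => Part.some (Bool.toNat (B n)) : ℕ →. ℕ)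
        (fun n => Part.some (if (Nat.Partrec.Code.eval (Denumerable.ofNat Nat.Partrec.Code n) n).Dom then 1 else 0) : ℕ →. ℕ) ∧
      ¬ TuringReducible
        (fun n => Part.some (if (Nat.Partrec.Code.eval (Denumerable.ofNat Nat.Partrec.Code n) n).Dom then 1 else 0) : ℕ →. ℕ)
        (fun n => Part.some (Bool.toNat (B n)) : ℕ →. ℕ) ∧
      ¬ TuringReducible (fun n => Part.some (Bool.toNat (A n)) : ℕ →. ℕ)
        (fun n => Part.some (Bool.toNat (B n)) : ℕ →. ℕ) ∧
      ∀ f : ℕ → ℕ,
        (∃ φ : ℕ →. ℕ, TuringReducible φ (fun n => Part.some (Bool.toNat (B n)) : ℕ →. ℕ) ∧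
          ∀ n k : ℕ, (φ (Nat.pair n k)).Dom ↔ f n ≤ k) →
        (∀ s : Finset ℕ, ∑ n ∈ s, (1/2 : ℝ) ^ (f n) ≤ 1) →
        ∃ h : List Bool → ℕ,
          (∃ ψ : ℕ →. ℕ, TuringReducible ψ (fun n => Part.some (Bool.toNat (B n)) : ℕ →. ℕ) ∧
            ∀ σ : List Bool, ∀ k : ℕ, (ψ (Nat.pair (Encodable.encode σ) k)).Dom ↔ h σ ≤ k) ∧
          (∀ s : Finset (List Bool), ∑ σ ∈ s, (1/2 : ℝ) ^ (h σ) ≤ 1) ∧
          ∃ c : ℕ, ∀ n : ℕ,
            h (List.ofFn (fun i : Fin n =>
              decide ((Nat.Partrec.Code.eval (Denumerable.ofNat Nat.Partrec.Code (i : ℕ)) (i : ℕ)).Dom)))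
              ≤ f n + c := by
  rintro A ⟨φ0, hφ0, hA⟩ hnc
  obtain ⟨c, hc⟩ := Code.exists_code.1 hφ0
  -- the index of `A`
  set a := Encodable.encode c with ha
  have hWA : AC.WA a = fun n => (A n).toNat := by
    funext n
    unfold AC.WA K
    rw [Nat.unpair_pair, ha, Denumerable.ofNat_encode, hc]
    by_cases h : A n = true
    · rw [if_pos ((hA n).2 h), h]; rfl
    · rw [if_neg (fun h1 => h ((hA n).1 h1))]
      rw [Bool.not_eq_true] at h
      rw [h]; rfl
  have hnc' : ¬ Computable (AC.WA a) := by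
    intro h
    apply hnc
    have h2 : Primrec (fun n : ℕ => decide (n = 1)) :=
      (PrimrecPred.decide (p := fun n : ℕ => n = 1) (Primrec.eq.comp Primrec.id
        (Primrec.const 1)))
    refine (h2.to_comp.comp h).of_eq ?_
    intro n
    rw [hWA]
    beta_reduce
    cases A n <;> decide
  have hAK0 : TR (fun n => (A n).toNat) K0 := by
    rw [← hWA]
    have h1 : Primrec (fun n : ℕ => Nat.pair a n) :=
      Primrec₂.natPair.comp (Primrec.const a) Primrec.id
    exact TR.trans ((TR.refl K).comp (Computable.recT (O := {(K : ℕ →. ℕ)}) h1.to_comp)) K_TR_K0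
  have havoid : ¬ TR (fun n => (A n).toNat) (fun n => (gr (AC.GG a) n).toNat) := by
    intro h
    apply AC.avoids a hnc'
    rw [hWA]
    exact TR.trans h (gr_TR _)
  refine ⟨gr (AC.GG a), ?_, ?_, ?_, ?_⟩
  · exact TR_iff.1 (TR.trans (gr_TR _) (TR.trans (AC.limC_GG a).TR_K K_TR_K0))
  · intro h
    apply havoid
    exact TR.trans hAK0 ((TR_iff (f := K0)).2 h)
  · intro h
    exact havoid (TR_iff.2 h)
  · rintro f ⟨φ, hφ, hdom⟩ hsum
    have hφ' : Nat.RecursiveIn {(AC.GG a : ℕ →. ℕ)} φ := by
      refine Nat.RecursiveIn.subst (RecursiveIn.iff_nat.1 hφ) ?_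
      intro g hg
      have hg' := Set.mem_singleton_iff.1 hg
      subst hg'
      exact gr_TR (AC.GG a)
    obtain ⟨h, ⟨ψ, hψ, h1⟩, h2, c', h3⟩ := AC.trivial_rel a f φ hφ' hdom hsum
    refine ⟨h, ⟨ψ, ?_, h1⟩, h2, c', fun n => ?_⟩
    · refine RecursiveIn.iff_nat.2 (Nat.RecursiveIn.subst hψ ?_)
      intro g hg
      rw [Set.mem_singleton_iff] at hg
      subst hg
      exact TR_gr (AC.GG a)
    · have h4 : List.ofFn (fun i : Fin n =>
          decide ((Nat.Partrec.Code.eval (Denumerable.ofNat Nat.Partrec.Code (i : ℕ))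
            (i : ℕ)).Dom)) = AC.kstr n := by
        unfold AC.kstr
        apply List.ext_getElem
        · simp
        · intro i hi1 hi2
          rw [List.getElem_ofFn]
          simp only [List.getElem_map, List.getElem_range]
          rw [decide_eq_decide]
          have h5 : (∃ t, AC.hl i t = true) ↔ K (Nat.pair i i) = 1 := by
            unfold AC.hl
            exact PR.K_one.symm
          rw [h5]
          unfold K
          rw [Nat.unpair_pair]
          by_cases h6 : (Nat.Partrec.Code.eval (Denumerable.ofNat Nat.Partrec.Code i) i).Dom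
          · simp [h6]
          · simp [h6]
      rw [h4]
      exact h3 n

end Pool.Agent.S09317
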