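import Pool.Statements.S09319
import Pool.Agent.Helper446.EL.Def

set_option autoImplicit false
open Pool Pool.MP_2a17e1_lc

namespace Pool.Agent.S09319

/-- Some first-order formula in the language of inclusion, read in the lattice of r.e. sets, holds of an r.e. set A exactly when the r.e. supersets of A modulo finite difference are order-isomorphic to the finite/cofinite sets. -/
theorem result :
    ∃ φ : FirstOrder.Language.order.Formula (Fin 1),
      ∀ S : FirstOrder.Language.order.Structure {s : Set ℕ // REPred (fun n => n ∈ s)},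
        (∀ (r : FirstOrder.Language.order.Relations 2)
            (x y : {s : Set ℕ // REPred (fun n => n ∈ s)}),
            (@FirstOrder.Language.Structure.RelMap FirstOrder.Language.order
                {s : Set ℕ // REPred (fun n => n ∈ s)} S 2 r ![x, y]) ↔ x.1 ⊆ y.1) →
        ∀ A : {s : Set ℕ // REPred (fun n => n ∈ s)},
          (@FirstOrder.Language.Formula.Realize FirstOrder.Language.order
              {s : Set ℕ // REPred (fun n => n ∈ s)} S (Fin 1) φ (fun _ => A)) ↔
            ∃ f : Set ℕ → Set ℕ,
              (∀ W : Set ℕ, REPred (fun n => n ∈ W) → A.1 ⊆ W →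
                  ((f W).Finite ∨ (f W)ᶜ.Finite)) ∧
              (∀ T : Set ℕ, (T.Finite ∨ Tᶜ.Finite) →
                  ∃ W : Set ℕ, REPred (fun n => n ∈ W) ∧ A.1 ⊆ W ∧ f W = T) ∧
              (∀ W V : Set ℕ, REPred (fun n => n ∈ W) → REPred (fun n => n ∈ V) →
                  A.1 ⊆ W → A.1 ⊆ V → ((W \ V).Finite ↔ f W ⊆ f V)) := by
  obtain ⟨φ, hφ⟩ := Pool.Agent.Helper446.EL.defCat (Γ := Fin 1) 0
  refine ⟨φ, fun S hS A => ?_⟩
  obtain rfl := Pool.Agent.Helper446.EL.er_structure_eq S hS
  rw [← Pool.Agent.Helper446.EL.Ct.cat_iff A.2]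
  exact hφ fun _ => A

end Pool.Agent.S09319
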