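import Pool.Statements.S09332
import Pool.Agent.Helper750.NoNode

set_option autoImplicit false
open Pool Pool.MP_324817_lc

namespace Pool.Agent.S09332

/-- The negation of the preceding statement: There is a lightface Delta-1-1 equivalence relation on Baire space with at least two classes such that, for every lightface Delta-1-1 equivalence relation F, one of the two reduces to the other via a function with Sigma-1-1 graph. -/
theorem result :
    ¬ (∀ Sig : ((ℕ → ℕ) → (ℕ → ℕ) → Prop) → Prop,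
    (∀ S, Sig S ↔ ∃ R : List ℕ × List ℕ × List ℕ → Bool, Computable R ∧
      ∀ x y : ℕ → ℕ, S x y ↔ ∃ w : ℕ → ℕ, ∀ n : ℕ,
        R (List.ofFn (fun i : Fin n => x i.val), List.ofFn (fun i : Fin n => y i.val),
           List.ofFn (fun i : Fin n => w i.val)) = true) →
    ∃ E : (ℕ → ℕ) → (ℕ → ℕ) → Prop,
      Equivalence E ∧ Sig E ∧ Sig (fun x y => ¬ E x y) ∧ (∃ x y, ¬ E x y) ∧
      ∀ F : (ℕ → ℕ) → (ℕ → ℕ) → Prop, Equivalence F → Sig F → Sig (fun x y => ¬ F x y) →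
        (∃ f : (ℕ → ℕ) → (ℕ → ℕ), Sig (fun x z => f x = z) ∧ ∀ x y, E x y ↔ F (f x) (f y)) ∨
        (∃ f : (ℕ → ℕ) → (ℕ → ℕ), Sig (fun x z => f x = z) ∧ ∀ x y, F x y ↔ E (f x) (f y))) := by
  intro hmain
  obtain ⟨E, hEq, hS, hS', h2, hcomp⟩ := hmain Pool.Agent.Helper750.Sig.SigC (fun _ => Iff.rfl)
  obtain ⟨F, hFeq, hFD, h3, h4⟩ := Pool.Agent.Helper750.NoNode.no_node E hEq
    ⟨hS.s11, hS'.s11⟩ h2
  rcases hcomp F hFeq (Pool.Agent.Helper750.Sig.SigC.of_s11 hFD.1)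
    (Pool.Agent.Helper750.Sig.SigC.of_s11 hFD.2) with ⟨f, hf, hred⟩ | ⟨f, hf, hred⟩
  · exact h3 ⟨f, hf.s11, hred⟩
  · exact h4 ⟨f, hf.s11, hred⟩

end Pool.Agent.S09332
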