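import Pool.Statements.S09360

set_option autoImplicit false
open Pool Pool.MP_40e9ab_lc

namespace Pool.Agent.S09360

open Cardinal Set MeasureTheory

section Ideal

variable {Y : Type} [LinearOrder Y]

/-- `A` is small if some countable family of self-maps of `Y` has no common
closure point in `A` (apart possibly from the least element of `Y`). -/
def Small (A : Set Y) : Prop :=
  ∃ f : ℕ → Y → Y, ∀ a ∈ A, (∃ b, b < a) → ∃ n, ∃ x, x < a ∧ a ≤ f n x

theorem Small.mono {A B : Set Y} (h : A ⊆ B) (hB : Small B) : Small A := by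
  obtain ⟨f, hf⟩ := hB
  exact ⟨f, fun a ha hb => hf a (h ha) hb⟩

theorem small_iUnion {A : ℕ → Set Y} (h : ∀ k, Small (A k)) : Small (⋃ k, A k) := by
  choose f hf using h
  refine ⟨fun n => f n.unpair.1 n.unpair.2, ?_⟩
  intro a ha hb
  obtain ⟨k, hk⟩ := mem_iUnion.1 ha
  obtain ⟨n, x, hx, hax⟩ := hf k a hk hb
  refine ⟨Nat.pair k n, x, hx, ?_⟩
  simpa [Nat.unpair_pair] using hax

theorem small_union {A B : Set Y} (hA : Small A) (hB : Small B) : Small (A ∪ B) := by
  have : Small (⋃ k : ℕ, (if k = 0 then A else B)) := by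
    apply small_iUnion
    intro k
    by_cases hk : k = 0 <;> simp [hk, hA, hB]
  refine this.mono ?_
  rintro x (hx | hx)
  · exact mem_iUnion.2 ⟨0, by simpa using hx⟩
  · exact mem_iUnion.2 ⟨1, by simpa using hx⟩

theorem small_Iic (b : Y) : Small (Iic b) :=
  ⟨fun _ _ => b, fun _ ha ⟨x, hx⟩ => ⟨0, x, hx, ha⟩⟩

theorem small_empty : Small (∅ : Set Y) := ⟨fun _ x => x, fun _ ha => ha.elim⟩

/-- The whole space is not small as soon as sets of smaller cardinality are bounded. -/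
theorem not_small_univ [WellFoundedLT Y] [Nonempty Y] (hun : ℵ₀ < #Y)
    (hI : ∀ y : Y, #(Iic y) < #Y)
    (hbd : ∀ S : Set Y, #S < #Y → ∃ b, ∀ s ∈ S, s < b) : ¬ Small (univ : Set Y) := by
  rintro ⟨f, hf⟩
  have hstep : ∀ y : Y, ∃ z : Y, y < z ∧ ∀ n, ∀ x, x ≤ y → f n x < z := by
    intro y
    have hc : #((fun p : ℕ × (Iic y) => f p.1 p.2.1) '' univ ∪ {y} : Set Y) < #Y := by
      refine (mk_union_le _ _).trans_lt ?_
      refine add_lt_of_lt hun.le ?_ ?_
      · refine mk_image_le.trans_lt ?_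
        rw [mk_univ, mk_prod, lift_id, lift_id, mk_nat]
        exact mul_lt_of_lt hun.le hun (hI y)
      · rw [mk_singleton]
        exact one_lt_aleph0.trans hun
    obtain ⟨b, hb⟩ := hbd _ hc
    refine ⟨b, hb y (Or.inr rfl), ?_⟩
    intro n x hx
    exact hb _ (Or.inl ⟨(n, ⟨x, hx⟩), mem_univ _, rfl⟩)
  choose g hg1 hg2 using hstep
  obtain ⟨y0⟩ := ‹Nonempty Y›
  let s : ℕ → Y := fun k => g^[k] y0
  have hs : ∀ k, s (k + 1) = g (s k) := fun k => Function.iterate_succ_apply' g k y0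
  have hcard : #(range s) < #Y := mk_range_le.trans_lt (by simpa using hun)
  obtain ⟨b, hb⟩ := hbd _ hcard
  have hne : {z : Y | ∀ k, s k < z}.Nonempty := ⟨b, fun k => hb _ ⟨k, rfl⟩⟩
  let a := WellFounded.min (wellFounded_lt (α := Y)) _ hne
  have ha : ∀ k, s k < a := WellFounded.min_mem (wellFounded_lt (α := Y)) _ hne
  obtain ⟨n, x, hx, hax⟩ := hf a (mem_univ _) ⟨s 0, ha 0⟩
  have hx2 : ¬ (∀ k, s k < x) := by
    intro h
    exact WellFounded.not_lt_min (wellFounded_lt (α := Y)) {z : Y | ∀ k, s k < z} h hx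
  push Not at hx2
  obtain ⟨k, hk⟩ := hx2
  have h1 : f n x < s (k + 1) := by
    rw [hs]
    exact hg2 _ n x hk
  exact absurd (h1.trans (ha (k + 1))) (not_lt.2 hax)

end Ideal

/-- The least cardinal whose power exceeds the continuum. -/
noncomputable def lam : Cardinal.{0} := sInf {κ : Cardinal.{0} | 𝔠 < 2 ^ κ}

theorem lam_mem : 𝔠 < 2 ^ lam := by
  have : ({κ : Cardinal.{0} | 𝔠 < 2 ^ κ}).Nonempty := ⟨𝔠, cantor _⟩
  exact csInf_mem this

theorem le_of_lt_lam {κ : Cardinal.{0}} (h : κ < lam) : 2 ^ κ ≤ 𝔠 := by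
  by_contra hc
  exact absurd (csInf_le' (s := {κ : Cardinal.{0} | 𝔠 < 2 ^ κ}) (not_le.1 hc)) (not_le.2 h)

theorem lam_le : lam ≤ 𝔠 := csInf_le' (s := {κ : Cardinal.{0} | 𝔠 < 2 ^ κ}) (cantor _)

theorem aleph0_lt_lam : ℵ₀ < lam := by
  by_contra h
  have h1 : (2 : Cardinal.{0}) ^ lam ≤ 2 ^ (ℵ₀ : Cardinal.{0}) :=
    power_le_power_left two_ne_zero (not_lt.1 h)
  exact absurd (lam_mem.trans_le h1) (by simp)

/-- The index set. -/
abbrev Y : Type := lam.ord.ToType

theorem mk_Y : #Y = lam := by simp [Y]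

instance : Nonempty Y := by
  rw [← mk_ne_zero_iff, mk_Y]
  exact (aleph0_pos.trans aleph0_lt_lam).ne'

theorem mk_Iio_lt' (y : Y) : #(Iio y) < lam := by
  simpa using mk_Iio_lt y

theorem mk_Iic_lt' (y : Y) : #(Iic y) < lam := by
  rw [← Set.Iio_insert]
  refine mk_insert_le.trans_lt ?_
  exact add_lt_of_lt aleph0_lt_lam.le (mk_Iio_lt' y) (one_lt_aleph0.trans aleph0_lt_lam)

/-- Codes of initial segments by reals. -/
theorem exists_code (y : Y) : Nonempty (Set (Iic y) ↪ (ℕ → Bool)) := by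
  have h : #(Set (Iic y)) ≤ #(ℕ → Bool) := by
    rw [mk_set]
    simpa using le_of_lt_lam (mk_Iic_lt' y)
  exact h

noncomputable def code (y : Y) : Set (Iic y) ↪ (ℕ → Bool) := (exists_code y).some

/-- restriction of a set to an initial segment -/
def res (A : Set Y) (y : Y) : Set (Iic y) := {x | x.1 ∈ A}

theorem bounded_of_card {S : Set Y} (hS : #S < lam) : ∃ b, ∀ s ∈ S, s < b := by
  by_contra hcon
  push Not at hcon
  have hinj : Function.Injective
      (fun (A : Set Y) (s : S) => code s.1 (res A s.1)) := by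
    intro A B hAB
    ext x
    obtain ⟨s, hs, hxs⟩ := hcon x
    have h1 := congrFun hAB ⟨s, hs⟩
    have h2 : res A s = res B s := (code s).injective h1
    have h3 : (⟨x, hxs⟩ : Iic s) ∈ res A s ↔ (⟨x, hxs⟩ : Iic s) ∈ res B s := by rw [h2]
    exact h3
  have hle := mk_le_of_injective hinj
  rw [mk_set, mk_Y] at hle
  have h4 : #(S → ℕ → Bool) ≤ 𝔠 := by
    have : #(S → ℕ → Bool) = 2 ^ (ℵ₀ * #S) := by
      rw [power_mul]
      simp
    rw [this]
    apply le_of_lt_lam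
    exact mul_lt_of_lt aleph0_lt_lam.le aleph0_lt_lam hS
  exact absurd (hle.trans h4) (not_le.2 lam_mem)

theorem not_small : ¬ Small (univ : Set Y) := by
  apply not_small_univ
  · rw [mk_Y]; exact aleph0_lt_lam
  · intro y; rw [mk_Y]; exact mk_Iic_lt' y
  · intro S hS; rw [mk_Y] at hS; exact bounded_of_card hS

theorem exists_emb : Nonempty (Y ↪ Icc (0:ℝ) 1) := by
  have h : #Y ≤ #(Icc (0:ℝ) 1) := by
    rw [mk_Y, mk_Icc_real zero_lt_one]
    exact lam_le
  exact h

noncomputable def emb : Y ↪ Icc (0:ℝ) 1 := exists_emb.some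

/-- The sigma-algebra. -/
def Sig : Set (Set (Icc (0:ℝ) 1)) :=
  {E | ∃ B : Set (Icc (0:ℝ) 1), MeasurableSet B ∧ Small (symmDiff (emb ⁻¹' E) (emb ⁻¹' B))}

theorem sig_measurable {B : Set (Icc (0:ℝ) 1)} (hB : MeasurableSet B) : B ∈ Sig :=
  ⟨B, hB, by simpa using small_empty⟩

theorem sig_small {E : Set (Icc (0:ℝ) 1)} (h : Small (emb ⁻¹' E)) : E ∈ Sig :=
  ⟨∅, MeasurableSet.empty, by
    rw [preimage_empty, ← bot_eq_empty, symmDiff_bot]
    exact h⟩

theorem sig_compl {E : Set (Icc (0:ℝ) 1)} (h : E ∈ Sig) : Eᶜ ∈ Sig := by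
  obtain ⟨B, hB, hs⟩ := h
  refine ⟨Bᶜ, hB.compl, ?_⟩
  rw [preimage_compl, preimage_compl, compl_symmDiff_compl]
  exact hs

theorem sig_iUnion {E : ℕ → Set (Icc (0:ℝ) 1)} (h : ∀ n, E n ∈ Sig) : (⋃ n, E n) ∈ Sig := by
  choose B hB hs using h
  refine ⟨⋃ n, B n, MeasurableSet.iUnion hB, ?_⟩
  refine (small_iUnion hs).mono ?_
  intro x hx
  rw [mem_iUnion]
  rcases hx with ⟨h1, h2⟩ | ⟨h1, h2⟩
  · simp only [mem_preimage, mem_iUnion, not_exists] at h1 h2
    obtain ⟨n, hn⟩ := h1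
    exact ⟨n, Or.inl ⟨hn, h2 n⟩⟩
  · simp only [mem_preimage, mem_iUnion, not_exists] at h1 h2
    obtain ⟨n, hn⟩ := h1
    exact ⟨n, Or.inr ⟨hn, h2 n⟩⟩

theorem sig_selector (P : Set (Set (Icc (0:ℝ) 1))) (hd : P.PairwiseDisjoint id)
    (hu : ⋃₀ P = Set.univ) (h2 : ∀ p ∈ P, ∃ x ∈ p, ∃ y ∈ p, x ≠ y) :
    ∃ S ∈ Sig, ∀ p ∈ P, ∃! x, x ∈ p ∧ x ∈ S := by
  classical
  -- every part has a point which is either off the range or not the first one
  have hch : ∀ p : P, ∃ x ∈ p.1, x ∉ range emb ∨ ∃ y y' : Y, emb y = x ∧ y' < y ∧ emb y' ∈ p.1 := by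
    rintro ⟨p, hp⟩
    obtain ⟨u, hu, v, hv, huv⟩ := h2 p hp
    by_cases hu' : u ∈ range emb
    · by_cases hv' : v ∈ range emb
      · obtain ⟨a, rfl⟩ := hu'
        obtain ⟨b, rfl⟩ := hv'
        have hab : a ≠ b := fun h => huv (by rw [h])
        rcases lt_or_gt_of_ne hab with h | h
        · exact ⟨emb b, hv, Or.inr ⟨b, a, rfl, h, hu⟩⟩
        · exact ⟨emb a, hu, Or.inr ⟨a, b, rfl, h, hv⟩⟩
      · exact ⟨v, hv, Or.inl hv'⟩
    · exact ⟨u, hu, Or.inl hu'⟩
  choose g hg1 hg2 using hch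
  have hpart : ∀ x : Icc (0:ℝ) 1, ∃ p : P, x ∈ p.1 := by
    intro x
    have : x ∈ ⋃₀ P := by rw [hu]; trivial
    obtain ⟨p, hp, hx⟩ := this
    exact ⟨⟨p, hp⟩, hx⟩
  choose q hq using hpart
  have huniq : ∀ (p : P) (x : Icc (0:ℝ) 1), x ∈ p.1 → q x = p := by
    intro p x hx
    by_contra hne
    have hne' : (q x).1 ≠ p.1 := fun h => hne (Subtype.ext h)
    exact Set.disjoint_left.1 (hd (q x).2 p.2 hne') (hq x) hx
  refine ⟨range g, ?_, ?_⟩
  · apply sig_small
    refine ⟨fun _ y' => if h : ∃ y, emb y = g (q (emb y')) then h.choose else y', ?_⟩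
    rintro a ⟨p, hp⟩ -
    rcases hg2 p with h | ⟨y, y', hy, hlt, hmem⟩
    · exact absurd ⟨a, hp.symm⟩ h
    · have hya : y = a := emb.injective (hy.trans hp)
      subst hya
      refine ⟨0, y', hlt, ?_⟩
      have hqy : q (emb y') = p := huniq p _ hmem
      have hex : ∃ z, emb z = g (q (emb y')) := ⟨y, by rw [hqy]; exact hy⟩
      have hch : hex.choose = y := by
        apply emb.injective
        rw [hex.choose_spec, hqy]
        exact hp
      simp only [dif_pos hex]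
      rw [hch]
  · intro p hp
    refine ⟨g ⟨p, hp⟩, ⟨hg1 ⟨p, hp⟩, ⟨⟨p, hp⟩, rfl⟩⟩, ?_⟩
    rintro x ⟨hx, ⟨p', rfl⟩⟩
    have h1 : q (g p') = p' := huniq p' _ (hg1 p')
    have h2 : q (g p') = ⟨p, hp⟩ := huniq ⟨p, hp⟩ _ hx
    rw [← h1, h2]

/-- coordinate sets of the code -/
noncomputable def star (A : Set Y) (n : ℕ) : Set Y := {y | code y (res A y) n = true}

theorem card_meas : #{B : Set (Icc (0:ℝ) 1) // MeasurableSet B} ≤ 𝔠 := by
  have h1 := MeasurableSpace.generateFrom_countableGeneratingSet (α := Icc (0:ℝ) 1)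
  have h2 := (MeasurableSpace.countable_countableGeneratingSet (α := Icc (0:ℝ) 1)).le_aleph0
  have h3 := MeasurableSpace.cardinal_measurableSet_le_continuum (h2.trans aleph0_le_continuum)
  rw [h1] at h3
  exact h3

theorem sig_ne_univ : Sig ≠ Set.univ := by
  intro hU
  have hall : ∀ (A : Set Y) (n : ℕ), ∃ B : {B : Set (Icc (0:ℝ) 1) // MeasurableSet B},
      Small (symmDiff (star A n) (emb ⁻¹' B.1)) := by
    intro A n
    have : emb '' (star A n) ∈ Sig := by rw [hU]; trivial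
    obtain ⟨B, hB, hs⟩ := this
    rw [preimage_image_eq _ emb.injective] at hs
    exact ⟨⟨B, hB⟩, hs⟩
  choose b hb using hall
  have hnot : ¬ Function.Injective b := by
    intro hinj
    have h1 := mk_le_of_injective hinj
    rw [mk_set, mk_Y] at h1
    have h2 : #(ℕ → {B : Set (Icc (0:ℝ) 1) // MeasurableSet B}) ≤ 𝔠 := by
      have : #(ℕ → {B : Set (Icc (0:ℝ) 1) // MeasurableSet B})
          = #{B : Set (Icc (0:ℝ) 1) // MeasurableSet B} ^ ℵ₀ := by simp
      rw [this, ← continuum_power_aleph0]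
      exact power_le_power_right card_meas
    exact absurd (h1.trans h2) (not_le.2 lam_mem)
  have hex : ∃ A A' : Set Y, b A = b A' ∧ A ≠ A' := by
    by_contra h
    push Not at h
    exact hnot fun A A' hAA => h A A' hAA
  obtain ⟨A, A', hbb, hne⟩ := hex
  have hsm : ∀ n, Small (symmDiff (star A n) (star A' n)) := by
    intro n
    refine (small_union (hb A n) (hb A' n)).mono ?_
    rw [hbb]
    rw [symmDiff_comm (star A' n)]
    exact symmDiff_triangle _ _ _
  have hD := small_iUnion hsm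
  have hz : ∃ z, ¬ (z ∈ A ↔ z ∈ A') := by
    by_contra h
    push Not at h
    exact hne (Set.ext h)
  obtain ⟨z, hz⟩ := hz
  apply not_small
  refine (small_union hD (small_Iic z)).mono ?_
  intro y _
  by_cases hyz : y ≤ z
  · exact Or.inr hyz
  · left
    have hzy : z ≤ y := (not_le.1 hyz).le
    have hr : res A y ≠ res A' y := by
      intro h
      apply hz
      have h3 : (⟨z, hzy⟩ : Iic y) ∈ res A y ↔ (⟨z, hzy⟩ : Iic y) ∈ res A' y := by rw [h]
      exact h3
    have hc : code y (res A y) ≠ code y (res A' y) := fun h => hr ((code y).injective h)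
    obtain ⟨n, hn⟩ := Function.ne_iff.1 hc
    rw [mem_iUnion]
    refine ⟨n, ?_⟩
    rw [mem_symmDiff]
    show (code y (res A y) n = true ∧ ¬ code y (res A' y) n = true) ∨
      (code y (res A' y) n = true ∧ ¬ code y (res A y) n = true)
    revert hn
    cases code y (res A y) n <;> cases code y (res A' y) n <;> simp

/-- The negation of the preceding statement: Any sigma-algebra on [0,1] that contains all subintervals and contains a one-point-per-part selector for every partition of [0,1] into parts of size at least two must consist of all subsets of [0,1]. -/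
theorem result :
    ¬ (∀ N : Set (Set (Set.Icc (0:ℝ) 1)),
      (∀ a b : ℝ,
        (Subtype.val : Set.Icc (0:ℝ) 1 → ℝ) ⁻¹' Set.Icc a b ∈ N ∧
        (Subtype.val : Set.Icc (0:ℝ) 1 → ℝ) ⁻¹' Set.Ico a b ∈ N ∧
        (Subtype.val : Set.Icc (0:ℝ) 1 → ℝ) ⁻¹' Set.Ioc a b ∈ N ∧
        (Subtype.val : Set.Icc (0:ℝ) 1 → ℝ) ⁻¹' Set.Ioo a b ∈ N) →
      (∀ s ∈ N, sᶜ ∈ N) →
      (∀ f : ℕ → Set (Set.Icc (0:ℝ) 1), (∀ n, f n ∈ N) → (⋃ n, f n) ∈ N) →
      (∀ P : Set (Set (Set.Icc (0:ℝ) 1)),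
        P.PairwiseDisjoint id →
        ⋃₀ P = Set.univ →
        (∀ p ∈ P, ∃ x ∈ p, ∃ y ∈ p, x ≠ y) →
        ∃ S ∈ N, ∀ p ∈ P, ∃! x, x ∈ p ∧ x ∈ S) →
      N = Set.univ) := by
  intro H
  refine sig_ne_univ (H Sig ?_ (fun s hs => sig_compl hs) (fun f hf => sig_iUnion hf)
    (fun P h1 h2 h3 => sig_selector P h1 h2 h3))
  intro a b
  exact ⟨sig_measurable (measurableSet_Icc.preimage measurable_subtype_coe),
    sig_measurable (measurableSet_Ico.preimage measurable_subtype_coe),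
    sig_measurable (measurableSet_Ioc.preimage measurable_subtype_coe),
    sig_measurable (measurableSet_Ioo.preimage measurable_subtype_coe)⟩

end Pool.Agent.S09360
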