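import Pool.Statements.S09373
import Pool.Agent.Helper180.QPM.Main

set_option autoImplicit false
open Pool Pool.MP_4b55a0_lc

namespace Pool.Agent.S09373

/-- Some algorithm decides, for any morphism f on a finite alphabet and letter a where f(a) starts with a and f^n(a) grows without bound, whether the infinite fixed point f^ω(a) is quasiperiodic, i.e. covered by occurrences of one finite word. -/
theorem result :
    ∃ P : List (List ℕ) × ℕ → Prop, ComputablePred P ∧
      ∀ F : List (List ℕ), ∀ a : ℕ,
        a < F.length →
        (∀ l ∈ F, ∀ c ∈ l, c < F.length) →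
        (F.getD a []).head? = some a →
        (∀ m : ℕ, ∃ n : ℕ,
          m < ((fun L : List ℕ => L.flatMap (fun c => F.getD c []))^[n] [a]).length) →
        (P (F, a) ↔
          ∃ w : ℕ → ℕ,
            (∀ n i : ℕ,
              i < ((fun L : List ℕ => L.flatMap (fun c => F.getD c []))^[n] [a]).length →
              w i = ((fun L : List ℕ => L.flatMap (fun c => F.getD c []))^[n] [a]).getD i 0) ∧
            ∃ x : List ℕ, ∀ i : ℕ, ∃ j : ℕ, j ≤ i ∧ i < j + x.length ∧
              ∀ t : ℕ, t < x.length → w (j + t) = x.getD t 0) := by
  exact Pool.Agent.Helper180.QPM.main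

end Pool.Agent.S09373
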