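import Pool.Statements.S09384
import Pool.Agent.Helper79.Fliess2
import Pool.Agent.Helper79.FliessGram

set_option autoImplicit false
open Pool Pool.MP_519233_lc

namespace Pool.Agent.S09384

open Pool.Agent.Helper79

/-- The normal form of a sorted word. -/
def nf (σ : Equiv.Perm (Fin 4)) (n : Fin 4 → ℕ) : List (Fin 4) :=
  List.replicate (n 0) (σ 0) ++ List.replicate (n 1) (σ 1) ++ List.replicate (n 2) (σ 2) ++
    List.replicate (n 3) (σ 3)

theorem count_nf (σ : Equiv.Perm (Fin 4)) (n : Fin 4 → ℕ) (m : Fin 4) :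
    (nf σ n).count (σ m) = n m := by
  simp only [nf, List.count_append, List.count_replicate, beq_iff_eq, σ.injective.eq_iff]
  fin_cases m <;> simp

theorem mem_nf (σ : Equiv.Perm (Fin 4)) (n : Fin 4 → ℕ) :
    List.Pairwise (fun x y => σ.symm x ≤ σ.symm y) (nf σ n) := by
  simp only [nf, List.pairwise_append, List.mem_append, List.mem_replicate]
  refine ⟨⟨⟨?_, ?_, ?_⟩, ?_, ?_⟩, ?_, ?_⟩
  · exact List.pairwise_replicate.2 (Or.inr (le_refl _))
  · exact List.pairwise_replicate.2 (Or.inr (le_refl _))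
  · rintro a ⟨_, rfl⟩ b ⟨_, rfl⟩
    simp
  · exact List.pairwise_replicate.2 (Or.inr (le_refl _))
  · rintro a (⟨_, rfl⟩ | ⟨_, rfl⟩) b ⟨_, rfl⟩ <;> simp
  · exact List.pairwise_replicate.2 (Or.inr (le_refl _))
  · rintro a ((⟨_, rfl⟩ | ⟨_, rfl⟩) | ⟨_, rfl⟩) b ⟨_, rfl⟩ <;> simp

theorem eq_nf (σ : Equiv.Perm (Fin 4)) (w : List (Fin 4))
    (hw : List.Pairwise (fun x y => σ.symm x ≤ σ.symm y) w) :
    w = nf σ (fun m => w.count (σ m)) := by
  refine List.Perm.eq_of_pairwise (le := fun x y => σ.symm x ≤ σ.symm y) ?_ hw (mem_nf σ _) ?_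
  · intro a b _ _ h1 h2
    exact σ.symm.injective (le_antisymm h1 h2)
  · rw [List.perm_iff_count]
    intro c
    obtain ⟨m, rfl⟩ := σ.surjective c
    rw [count_nf]

theorem bad_iff (σ : Equiv.Perm (Fin 4)) (w : List (Fin 4)) :
    Fliess.Bad w ↔ ∃ p q r : Fin 4, p ≠ q ∧ p ≠ r ∧ q ≠ r ∧ w.count (σ p) = w.count (σ q) ∧
      w.count (σ q) = w.count (σ r) := by
  constructor
  · rintro ⟨i, j, k, h1, h2, h3, h4, h5⟩
    obtain ⟨p, rfl⟩ := σ.surjective i
    obtain ⟨q, rfl⟩ := σ.surjective j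
    obtain ⟨r, rfl⟩ := σ.surjective k
    exact ⟨p, q, r, fun h => h1 (by rw [h]), fun h => h2 (by rw [h]), fun h => h3 (by rw [h]), h4, h5⟩
  · rintro ⟨p, q, r, h1, h2, h3, h4, h5⟩
    exact ⟨σ p, σ q, σ r, fun h => h1 (σ.injective h), fun h => h2 (σ.injective h),
      fun h => h3 (σ.injective h), h4, h5⟩

theorem comb (n : Fin 4 → ℕ) :
    (¬ ∃ p q r : Fin 4, p ≠ q ∧ p ≠ r ∧ q ≠ r ∧ n p = n q ∧ n q = n r) ↔
      ((n 0 ≠ n 1 ∧ n 2 ≠ n 3) ∨ (n 0 ≠ n 3 ∧ n 1 ≠ n 2)) := by
  constructor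
  · intro h
    by_contra hc
    have hc1 : n 0 = n 1 ∨ n 2 = n 3 := by
      by_contra h'; push Not at h'; exact hc (Or.inl h')
    have hc2 : n 0 = n 3 ∨ n 1 = n 2 := by
      by_contra h'; push Not at h'; exact hc (Or.inr h')
    apply h
    rcases hc1 with h1 | h1 <;> rcases hc2 with h2 | h2
    · exact ⟨0, 1, 3, by decide, by decide, by decide, h1, by omega⟩
    · exact ⟨0, 1, 2, by decide, by decide, by decide, h1, by omega⟩
    · exact ⟨0, 2, 3, by decide, by decide, by decide, by omega, h1⟩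
    · exact ⟨1, 2, 3, by decide, by decide, by decide, h2, h1⟩
  · rintro h ⟨p, q, r, h1, h2, h3, h4, h5⟩
    fin_cases p <;> fin_cases q <;> fin_cases r <;>
      simp only [Fin.zero_eta, Fin.mk_one, Fin.reduceFinMk, ne_eq, not_true_eq_false] at h1 h2 h3 h4 h5 <;>
      omega

/-- The negation of the preceding statement: For every k and every permutation-closed language L over k letters: L is context-free iff for each letter ordering σ, the words of L of the form a_σ(0)* a_σ(1)* ... a_σ(k-1)* form a context-free language. -/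
theorem result :
    ¬ (∀ k : ℕ, ∀ L : Language (Fin k),
      (∀ w v : List (Fin k), w.Perm v → w ∈ L → v ∈ L) →
        ((∃ g : ContextFreeGrammar (Fin k), g.language = L) ↔
          ∀ σ : Equiv.Perm (Fin k),
            ∃ g : ContextFreeGrammar (Fin k),
              ∀ w : List (Fin k),
                w ∈ g.language ↔
                  (w ∈ L ∧ List.Pairwise (fun x y => σ.symm x ≤ σ.symm y) w))) := by
  intro H
  have h1 := H 4 ({w | ¬ Fliess.Bad w} : Set (List (Fin 4))) (by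
    intro w v hwv hw hv
    apply hw
    obtain ⟨i, j, k, h1, h2, h3, h4, h5⟩ := hv
    exact ⟨i, j, k, h1, h2, h3, by rw [hwv.count_eq, hwv.count_eq, h4],
      by rw [hwv.count_eq, hwv.count_eq, h5]⟩)
  obtain ⟨g, hg⟩ := h1.2 (by
    intro σ
    refine ⟨FliessGram.g (σ 0) (σ 1) (σ 2) (σ 3), ?_⟩
    intro w
    rw [FliessGram.lang]
    constructor
    · rintro ⟨i, j, k, l, h, rfl⟩
      have hn : List.replicate i (σ 0) ++ List.replicate j (σ 1) ++ List.replicate k (σ 2) ++
          List.replicate l (σ 3) = nf σ ![i, j, k, l] := rfl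
      rw [hn]
      refine ⟨?_, mem_nf σ _⟩
      change ¬ Fliess.Bad _
      rw [bad_iff σ]
      simp only [count_nf]
      exact (comb ![i, j, k, l]).2 h
    · rintro ⟨hw, hs⟩
      change ¬ Fliess.Bad w at hw
      rw [bad_iff σ, comb (fun m => w.count (σ m))] at hw
      exact ⟨_, _, _, _, hw, eq_nf σ w hs⟩)
  exact Fliess.not_contextFree g (fun w => by rw [hg]; exact Iff.rfl)

end Pool.Agent.S09384
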