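import Pool.Statements.S09386

set_option autoImplicit false
open Pool Pool.MP_51f845_lc

namespace Pool.Agent.S09386

/-!
Counterexample over a two-letter alphabet (`true` = a, `false` = b).
The language consists of `aaa`, `bb`, all words `a r a z b (reverse r) b`, and all words
`p u p v p` with `p` of length 7 and (number of a in `p u`) = (number of b in `p v`) + 1.
It is generated by a linear grammar, no factor of the Fibonacci word belongs to it, and every
periodic word has a factor in it.
-/

open List

/-- Nonterminals of the grammar. -/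
inductive NTm : Type
  | S | U | Z
  | M (p : List Bool) (c : ℤ)

/-- Linear rules `N → u N' v`. -/
inductive LRule : NTm → List Bool → NTm → List Bool → Prop
  | SU : LRule .S [true] .U [false]
  | Ua : LRule .U [true] .U [true]
  | Ub : LRule .U [false] .U [false]
  | UZ : LRule .U [true] .Z [false]
  | Za (b : Bool) : LRule .Z [b] .Z []
  | SM (p : List Bool) (hp : p.length = 7) :
      LRule .S p (.M p (1 + (p.count false : ℤ) - (p.count true : ℤ))) p
  | ML (p : List Bool) (c : ℤ) (hp : p.length = 7) (hc : -8 ≤ c) (hc' : c ≤ 8) :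
      LRule (.M p c) [false] (.M p c) []
  | MR (p : List Bool) (c : ℤ) (hp : p.length = 7) (hc : -8 ≤ c) (hc' : c ≤ 8) :
      LRule (.M p c) [] (.M p c) [true]
  | MA (p : List Bool) (c : ℤ) (hp : p.length = 7) (hc : 0 < c) (hc' : c ≤ 8) :
      LRule (.M p c) [true] (.M p (c - 1)) []
  | MB (p : List Bool) (c : ℤ) (hp : p.length = 7) (hc : -8 ≤ c) (hc' : c ≤ 0) :
      LRule (.M p c) [] (.M p (c + 1)) [false]

/-- Terminal rules `N → u`. -/
inductive FRule : NTm → List Bool → Prop
  | aaa : FRule .S [true, true, true]
  | bb : FRule .S [false, false]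
  | Ze : FRule .Z []
  | Mp (p : List Bool) (hp : p.length = 7) : FRule (.M p 0) p

/-- The set of rules as context-free rules. -/
def ruleSet : Set (ContextFreeRule Bool NTm) :=
  {r | (∃ N u N' v, LRule N u N' v ∧
        r = ⟨N, u.map Symbol.terminal ++ [Symbol.nonterminal N'] ++ v.map Symbol.terminal⟩) ∨
       (∃ N u, FRule N u ∧ r = ⟨N, u.map Symbol.terminal⟩)}

def NS : Set NTm :=
  {.S, .U, .Z} ∪ (fun q : List Bool × ℤ => NTm.M q.1 q.2) '' ({l | l.length ≤ 7} ×ˢ Set.Icc (-8) 8)

lemma NS_finite : NS.Finite := by
  unfold NS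
  apply Set.Finite.union
  · exact Set.toFinite _
  · apply Set.Finite.image
    apply Set.Finite.prod
    · exact List.finite_length_le Bool 7
    · exact Set.finite_Icc _ _

lemma M_mem_NS (p : List Bool) (c : ℤ) (hp : p.length = 7) (h1 : -8 ≤ c) (h2 : c ≤ 8) :
    NTm.M p c ∈ NS := by
  right
  exact ⟨(p, c), ⟨by simp [hp], h1, h2⟩, rfl⟩

lemma count_sum (p : List Bool) : p.count true + p.count false = p.length := by
  induction p with
  | nil => simp
  | cons b t ih => cases b <;> simp <;> omega

lemma LRule_mem {N : NTm} {u : List Bool} {N' : NTm} {v : List Bool} (h : LRule N u N' v) :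
    N ∈ NS ∧ u.length ≤ 7 ∧ N' ∈ NS ∧ v.length ≤ 7 := by
  have hS : NTm.S ∈ NS := by left; simp
  have hU : NTm.U ∈ NS := by left; simp
  have hZ : NTm.Z ∈ NS := by left; simp
  cases h with
  | SU => simp [hS, hU]
  | Ua => simp [hU]
  | Ub => simp [hU]
  | UZ => simp [hU, hZ]
  | Za b => simp [hZ]
  | SM _ hp =>
    have := count_sum u
    refine ⟨hS, hp.le, M_mem_NS _ _ hp (by omega) (by omega), hp.le⟩
  | ML p c hp hc hc' =>
    refine ⟨M_mem_NS _ _ hp (by omega) (by omega), by simp, M_mem_NS _ _ hp (by omega) (by omega), by simp⟩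
  | MR p c hp hc hc' =>
    refine ⟨M_mem_NS _ _ hp (by omega) (by omega), by simp, M_mem_NS _ _ hp (by omega) (by omega), by simp⟩
  | MA p c hp hc hc' =>
    refine ⟨M_mem_NS _ _ hp (by omega) (by omega), by simp, M_mem_NS _ _ hp (by omega) (by omega), by simp⟩
  | MB p c hp hc hc' =>
    refine ⟨M_mem_NS _ _ hp (by omega) (by omega), by simp, M_mem_NS _ _ hp (by omega) (by omega), by simp⟩

lemma FRule_mem {N : NTm} {u : List Bool} (h : FRule N u) : N ∈ NS ∧ u.length ≤ 7 := by
  cases h with
  | aaa => exact ⟨by left; simp, by simp⟩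
  | bb => exact ⟨by left; simp, by simp⟩
  | Ze => exact ⟨by left; simp, by simp⟩
  | Mp p hp => exact ⟨M_mem_NS _ _ hp (by omega) (by omega), hp.le⟩

lemma ruleSet_finite : ruleSet.Finite := by
  have hL := List.finite_length_le Bool 7
  have h1 : (NS ×ˢ ({l : List Bool | l.length ≤ 7} ×ˢ (NS ×ˢ {l : List Bool | l.length ≤ 7}))).Finite :=
    NS_finite.prod (hL.prod (NS_finite.prod hL))
  have h2 : (NS ×ˢ {l : List Bool | l.length ≤ 7}).Finite := NS_finite.prod hL
  refine Set.Finite.subset ((h1.image (fun q : NTm × List Bool × NTm × List Bool =>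
      (⟨q.1, q.2.1.map Symbol.terminal ++ [Symbol.nonterminal q.2.2.1] ++
        q.2.2.2.map Symbol.terminal⟩ : ContextFreeRule Bool NTm))).union
      (h2.image (fun q : NTm × List Bool =>
      (⟨q.1, q.2.map Symbol.terminal⟩ : ContextFreeRule Bool NTm)))) ?_
  rintro r (⟨N, u, N', v, h, rfl⟩ | ⟨N, u, h, rfl⟩)
  · left
    obtain ⟨a, b, c, d⟩ := LRule_mem h
    exact ⟨(N, u, N', v), ⟨a, b, c, d⟩, rfl⟩
  · right
    obtain ⟨a, b⟩ := FRule_mem h
    exact ⟨(N, u), ⟨a, b⟩, rfl⟩

/-- The grammar. -/
noncomputable def G : ContextFreeGrammar Bool where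
  NT := NTm
  initial := .S
  rules := ruleSet_finite.toFinset

lemma mem_rules {r : ContextFreeRule Bool NTm} : r ∈ G.rules ↔ r ∈ ruleSet := by
  show r ∈ ruleSet_finite.toFinset ↔ _
  exact Set.Finite.mem_toFinset _

/-- terminal words as sentential forms -/
abbrev tm (u : List Bool) : List (Symbol Bool NTm) := u.map Symbol.terminal
/-- a nonterminal as a sentential form -/
abbrev nt (N : NTm) : List (Symbol Bool NTm) := [Symbol.nonterminal N]

lemma tm_inj {u v : List Bool} (h : tm u = tm v) : u = v := by
  have inj : Function.Injective (Symbol.terminal : Bool → Symbol Bool NTm) := by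
    intro x y hxy; simpa using hxy
  exact (List.map_injective_iff.mpr inj) h

/-- Words generated by a nonterminal. -/
inductive Gen : NTm → List Bool → Prop
  | fin {N : NTm} {u : List Bool} (h : FRule N u) : Gen N u
  | step {N : NTm} {u : List Bool} {N' : NTm} {v w : List Bool} (h : LRule N u N' v)
      (hw : Gen N' w) : Gen N (u ++ w ++ v)

lemma derives_of_Gen {N : NTm} {w : List Bool} (h : Gen N w) :
    G.Derives (nt N) (tm w) := by
  induction h with
  | @fin N u h =>
    apply ContextFreeGrammar.Produces.single
    refine ⟨⟨N, tm u⟩, ?_, ?_⟩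
    · exact mem_rules.mpr (Or.inr ⟨N, u, h, rfl⟩)
    · exact ContextFreeRule.Rewrites.input_output
  | @step N u N' v w h hw ih =>
    have h1 : G.Produces (nt N) (tm u ++ nt N' ++ tm v) := by
      refine ⟨⟨N, tm u ++ nt N' ++ tm v⟩, ?_, ?_⟩
      · exact mem_rules.mpr (Or.inl ⟨N, u, N', v, h, rfl⟩)
      · exact ContextFreeRule.Rewrites.input_output
    refine h1.trans_derives ?_
    have h2 := (ih.append_left (tm u)).append_right (tm v)
    have h3 : tm (u ++ w ++ v) = tm u ++ tm w ++ tm v := by simp [tm]
    rw [h3]
    exact h2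

lemma split_eq {u v : List Bool} {N : NTm} {a b : List (Symbol Bool NTm)} {M : NTm}
    (h : tm u ++ nt N ++ tm v = a ++ nt M ++ b) :
    a = tm u ∧ N = M ∧ b = tm v := by
  induction u generalizing a with
  | nil =>
    cases a with
    | nil =>
      simp only [tm, nt, List.map_nil, List.nil_append, List.cons_append, List.cons.injEq,
        Symbol.nonterminal.injEq] at h
      exact ⟨rfl, h.1, h.2.symm⟩
    | cons x a =>
      exfalso
      simp only [tm, nt, List.map_nil, List.nil_append, List.cons_append, List.append_assoc,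
        List.cons.injEq] at h
      have h2 : Symbol.nonterminal M ∈ v.map (Symbol.terminal (N := NTm)) := by
        rw [h.2]; simp
      simp at h2
  | cons c u ih =>
    cases a with
    | nil =>
      exfalso
      simp [tm, nt] at h
    | cons x a =>
      have h' : x = Symbol.terminal c ∧ tm u ++ nt N ++ tm v = a ++ nt M ++ b := by
        simp only [tm, nt, List.map_cons, List.cons_append, List.append_assoc,
          List.cons.injEq] at h
        refine ⟨h.1.symm, ?_⟩
        simpa [tm, nt] using h.2
      obtain ⟨h1, h2, h3⟩ := ih h'.2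
      refine ⟨?_, h2, h3⟩
      rw [h1, h'.1]
      simp [tm]

lemma not_nt_mem {u : List Bool} {N : NTm} : Symbol.nonterminal N ∉ tm u := by
  simp [tm]

lemma derives_tm {x w : List Bool} (h : G.Derives (tm x) (tm w)) : x = w := by
  rcases h.eq_or_head with h | ⟨v, h, _⟩
  · exact tm_inj h
  · exfalso
    obtain ⟨r, _, hr⟩ := h
    exact not_nt_mem hr.nonterminal_input_mem

lemma gen_of_derives_aux {w : List Bool} {s : List (Symbol Bool NTm)}
    (h : G.Derives s (tm w)) :
    ∀ u N v, s = tm u ++ nt N ++ tm v → ∃ w', Gen N w' ∧ w = u ++ w' ++ v := by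
  induction h using Relation.ReflTransGen.head_induction_on with
  | refl =>
    intro u N v h
    exfalso
    have : Symbol.nonterminal N ∈ tm w := by rw [h]; simp [nt]
    exact not_nt_mem this
  | @head s s' hp hd ih =>
    rintro u N v rfl
    obtain ⟨r, hr, hrw⟩ := hp
    obtain ⟨a, b, h1, h2⟩ := hrw.exists_parts
    obtain ⟨rfl, hN, rfl⟩ := split_eq h1
    rcases mem_rules.mp hr with ⟨N₁, u₁, N₁', v₁, hR, rfl⟩ | ⟨N₁, u₁, hR, rfl⟩
    · subst hN
      have h2' : s' = tm u ++ (tm u₁ ++ nt N₁' ++ tm v₁) ++ tm v := h2
      obtain ⟨w', h4, h5⟩ := ih (u ++ u₁) N₁' (v₁ ++ v) (by rw [h2']; simp [tm, nt])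
      exact ⟨u₁ ++ w' ++ v₁, Gen.step hR h4, by rw [h5]; simp⟩
    · subst hN
      refine ⟨u₁, Gen.fin hR, ?_⟩
      -- s' is a terminal word
      have h2' : s' = tm u ++ tm u₁ ++ tm v := h2
      have h6 : s' = tm (u ++ u₁ ++ v) := by rw [h2']; simp [tm]
      rw [h6] at hd
      exact (derives_tm hd).symm

lemma gen_of_derives {N : NTm} {w : List Bool} (h : G.Derives (nt N) (tm w)) : Gen N w := by
  obtain ⟨w', h1, h2⟩ := gen_of_derives_aux h [] N [] (by simp [tm])
  simpa [h2] using h1

lemma mem_language {w : List Bool} : w ∈ G.language ↔ Gen .S w :=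
  ⟨fun h => gen_of_derives h, fun h => derives_of_Gen h⟩

/-! Shapes of generated words. -/

lemma gen_Z (z : List Bool) : Gen .Z z := by
  induction z with
  | nil => exact Gen.fin .Ze
  | cons b z ih => simpa using Gen.step (.Za b) ih

lemma gen_U (r z : List Bool) : Gen .U (r ++ true :: z ++ false :: r.reverse) := by
  induction r with
  | nil => simpa using Gen.step .UZ (gen_Z z)
  | cons b r ih =>
    cases b
    · simpa using Gen.step .Ub ih
    · simpa using Gen.step .Ua ih

lemma gen_S_unb (r z : List Bool) :
    Gen .S (true :: r ++ true :: z ++ false :: r.reverse ++ [false]) := by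
  simpa using Gen.step .SU (gen_U r z)

lemma gen_M (p : List Bool) (hp : p.length = 7) (n : ℕ) : ∀ (c : ℤ) (u v : List Bool),
    u.length + v.length = n → -8 ≤ c → c ≤ 8 → (u.count true : ℤ) - v.count false = c →
    Gen (.M p c) (u ++ p ++ v) := by
  induction n with
  | zero =>
    intro c u v h1 h2 h3 h4
    have hu : u = [] := List.length_eq_zero_iff.mp (by omega)
    have hv : v = [] := List.length_eq_zero_iff.mp (by omega)
    subst hu hv
    simp at h4
    subst h4
    simpa using Gen.fin (.Mp p hp)
  | succ n ih =>
    intro c u v h1 h2 h3 h4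
    have hL : ∀ b u', u = b :: u' → b = false → Gen (.M p c) (u ++ p ++ v) := by
      rintro b u' rfl rfl
      have := ih c u' v (by simp at h1; omega) h2 h3 (by simpa using h4)
      simpa using Gen.step (.ML p c hp h2 h3) this
    have hR : ∀ b v', v = v' ++ [b] → b = true → Gen (.M p c) (u ++ p ++ v) := by
      rintro b v' rfl rfl
      have := ih c u v' (by simp at h1; omega) h2 h3 (by simpa using h4)
      simpa using Gen.step (.MR p c hp h2 h3) this
    by_cases hc : 0 < c
    · cases u with
      | nil => simp at h4; omega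
      | cons b u' =>
        cases b with
        | false => exact hL _ _ rfl rfl
        | true =>
          have := ih (c - 1) u' v (by simp at h1; omega) (by omega) (by omega)
            (by simp at h4; omega)
          simpa using Gen.step (.MA p c hp hc h3) this
    · rcases List.eq_nil_or_concat' v with rfl | ⟨v', b, rfl⟩
      · cases u with
        | nil => simp at h1
        | cons b u' =>
          cases b with
          | false => exact hL _ _ rfl rfl
          | true => simp at h4; omega
      · cases b with
        | true => exact hR _ _ rfl rfl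
        | false =>
          have := ih (c + 1) u v' (by simp at h1; omega) (by omega) (by omega)
            (by simp at h4; omega)
          simpa using Gen.step (.MB p c hp h2 (by omega)) this

lemma gen_S_cmp (p u v : List Bool) (hp : p.length = 7)
    (h : ((p ++ u).count true : ℤ) = (p ++ v).count false + 1) :
    Gen .S (p ++ (u ++ p ++ v) ++ p) := by
  have hs := count_sum p
  refine Gen.step (.SM p hp) (gen_M p hp _ _ u v rfl (by omega) (by omega) ?_)
  simp at h
  omega

/-- Shape predicate. -/
def Shape : NTm → List Bool → Prop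
  | .S, w => w = [true, true, true] ∨ w = [false, false] ∨
      (∃ r z, w = true :: r ++ true :: z ++ false :: r.reverse ++ [false]) ∨
      (∃ p u v, p.length = 7 ∧ ((p ++ u).count true : ℤ) = (p ++ v).count false + 1 ∧
        w = p ++ (u ++ p ++ v) ++ p)
  | .U, w => ∃ r z, w = r ++ true :: z ++ false :: r.reverse
  | .Z, _ => True
  | .M p c, w => ∃ u v, p.length = 7 ∧ (u.count true : ℤ) - v.count false = c ∧ w = u ++ p ++ v

lemma shape_of_gen {N : NTm} {w : List Bool} (h : Gen N w) : Shape N w := by
  induction h with
  | @fin N u h =>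
    cases h with
    | aaa => left; rfl
    | bb => right; left; rfl
    | Ze => trivial
    | Mp _ hp => exact ⟨[], [], hp, by simp, by simp⟩
  | @step N u N' v w h hw ih =>
    cases h with
    | SU =>
      obtain ⟨r, z, rfl⟩ := ih
      right; right; left
      exact ⟨r, z, by simp⟩
    | Ua =>
      obtain ⟨r, z, rfl⟩ := ih
      exact ⟨true :: r, z, by simp⟩
    | Ub =>
      obtain ⟨r, z, rfl⟩ := ih
      exact ⟨false :: r, z, by simp⟩
    | UZ => exact ⟨[], w, by simp⟩
    | Za b => trivial
    | SM _ hp =>
      obtain ⟨u', v', h1, h2, rfl⟩ := ih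
      right; right; right
      refine ⟨u, u', v', h1, ?_, rfl⟩
      simp
      omega
    | ML p c hp hc hc' =>
      obtain ⟨u', v', h1, h2, rfl⟩ := ih
      exact ⟨false :: u', v', h1, by simpa using h2, by simp⟩
    | MR p c hp hc hc' =>
      obtain ⟨u', v', h1, h2, rfl⟩ := ih
      exact ⟨u', v' ++ [true], h1, by simpa using h2, by simp⟩
    | MA p c hp hc hc' =>
      obtain ⟨u', v', h1, h2, rfl⟩ := ih
      exact ⟨true :: u', v', h1, by simp; omega, by simp⟩
    | MB p c hp hc hc' =>
      obtain ⟨u', v', h1, h2, rfl⟩ := ih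
      exact ⟨u', v' ++ [false], h1, by simp; omega, by simp⟩

/-! Segments of infinite words. -/

/-- the factor of `f` starting at `i` with length `n` -/
def seg (f : ℕ → Bool) (i n : ℕ) : List Bool := (List.range' i n).map f

@[simp] lemma seg_length (f : ℕ → Bool) (i n : ℕ) : (seg f i n).length = n := by simp [seg]

lemma seg_add (f : ℕ → Bool) (i m n : ℕ) : seg f i (m + n) = seg f i m ++ seg f (i + m) n := by
  simp [seg, ← List.map_append]

lemma seg_succ (f : ℕ → Bool) (i n : ℕ) : seg f i (n + 1) = f i :: seg f (i + 1) n := by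
  simp [seg, List.range'_succ]

lemma seg_infix (f : ℕ → Bool) (i n N : ℕ) (h : i + n ≤ N) : seg f i n <:+: seg f 0 N := by
  obtain ⟨k, rfl⟩ := Nat.exists_eq_add_of_le h
  refine ⟨seg f 0 i, seg f (i + n) k, ?_⟩
  have h1 := seg_add f 0 i n
  have h2 := seg_add f 0 (i + n) k
  simp only [Nat.zero_add] at h1 h2
  rw [h2, h1]

lemma seg_eq_append {f : ℕ → Bool} {i n : ℕ} {u v : List Bool} (h : seg f i n = u ++ v) :
    u = seg f i u.length ∧ v = seg f (i + u.length) v.length := by
  have hn : n = u.length + v.length := by
    have := congrArg List.length h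
    simpa using this
  subst hn
  rw [seg_add] at h
  have := List.append_inj h (by simp)
  exact ⟨this.1.symm, this.2.symm⟩

lemma infix_seg {f : ℕ → Bool} {N : ℕ} {v : List Bool} (h : v <:+: seg f 0 N) :
    ∃ i, v = seg f i v.length := by
  obtain ⟨s, t, h⟩ := h
  have h1 := (seg_eq_append h.symm).1
  have h2 := (seg_eq_append h1.symm).2
  exact ⟨_, h2⟩

/-- number of `true`s before position `n` -/
def cs (f : ℕ → Bool) : ℕ → ℤ
  | 0 => 0
  | n + 1 => cs f n + (if f n then 1 else 0)

lemma count_seg (f : ℕ → Bool) (i n : ℕ) : ((seg f i n).count true : ℤ) = cs f (i + n) - cs f i := by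
  induction n generalizing i with
  | zero => simp [seg]
  | succ n ih =>
    rw [seg_succ, show i + (n + 1) = (i + 1) + n by ring, List.count_cons]
    push_cast
    rw [ih (i + 1)]
    simp only [cs]
    cases f i <;> simp <;> ring

lemma count_false_seg (f : ℕ → Bool) (i n : ℕ) :
    ((seg f i n).count false : ℤ) = n - (cs f (i + n) - cs f i) := by
  have h := count_seg f i n
  have h2 : ∀ p : List Bool, p.count true + p.count false = p.length := by
    intro p
    induction p with
    | nil => simp
    | cons b t ih => cases b <;> simp <;> omega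
  have h3 := h2 (seg f i n)
  rw [seg_length] at h3
  omega

/-! The Fibonacci word. -/

/-- the inverse golden ratio -/
noncomputable def al : ℝ := (Real.sqrt 5 - 1) / 2

lemma al_sq : al * al = 1 - al := by
  unfold al
  have : Real.sqrt 5 * Real.sqrt 5 = 5 := Real.mul_self_sqrt (by norm_num)
  nlinarith

lemma al_lb : (0.618 : ℝ) < al := by
  unfold al
  have : (2.236 : ℝ) < Real.sqrt 5 := by
    rw [show (2.236 : ℝ) = Real.sqrt (2.236 ^ 2) by rw [Real.sqrt_sq (by norm_num)]]
    exact Real.sqrt_lt_sqrt (by norm_num) (by norm_num)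
  linarith

lemma al_ub : al < (0.6181 : ℝ) := by
  unfold al
  have : Real.sqrt 5 < (2.2362 : ℝ) := by
    rw [show (2.2362 : ℝ) = Real.sqrt (2.2362 ^ 2) by rw [Real.sqrt_sq (by norm_num)]]
    exact Real.sqrt_lt_sqrt (by norm_num) (by norm_num)
  linarith

/-- floor sequence -/
noncomputable def fl (n : ℕ) : ℤ := ⌊(n : ℝ) * al⌋

/-- fractional part -/
noncomputable def th (n : ℕ) : ℝ := (n : ℝ) * al - fl n

lemma th_nonneg (n : ℕ) : 0 ≤ th n := by
  unfold th fl
  have := Int.floor_le ((n : ℝ) * al)
  linarith

lemma th_lt (n : ℕ) : th n < 1 := by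
  unfold th fl
  have := Int.lt_floor_add_one ((n : ℝ) * al)
  linarith

/-- the Fibonacci word -/
noncomputable def fib (n : ℕ) : Bool := decide (fl (n + 1) - fl n = 1)

lemma fl_succ (n : ℕ) : fl (n + 1) = fl n ∨ fl (n + 1) = fl n + 1 := by
  have h1 := th_nonneg n
  have h2 := th_lt n
  have h3 := th_nonneg (n + 1)
  have h4 := th_lt (n + 1)
  have h5 := al_lb
  have h6 := al_ub
  unfold th at *
  push_cast at *
  have h7 : ((fl (n + 1) : ℤ) : ℝ) < ((fl n + 2 : ℤ) : ℝ) := by push_cast; linarith
  have h8 : ((fl n - 1 : ℤ) : ℝ) < ((fl (n + 1) : ℤ) : ℝ) := by push_cast; linarith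
  have h9 := Int.cast_lt.mp h7
  have h10 := Int.cast_lt.mp h8
  omega

lemma cs_fib (n : ℕ) : cs fib n = fl n := by
  induction n with
  | zero => simp [cs, fl]
  | succ n ih =>
    simp only [cs, ih, fib]
    rcases fl_succ n with h | h
    · simp [h]
    · simp [h]

/-- balance -/
lemma balance (i j n : ℕ) : (fl (i + n) - fl i) - (fl (j + n) - fl j) < 2 := by
  have h1 := th_nonneg (i + n)
  have h2 := th_lt i
  have h3 := th_nonneg j
  have h4 := th_lt (j + n)
  unfold th at *
  push_cast at *
  have h : (((fl (i + n) - fl i) - (fl (j + n) - fl j) : ℤ) : ℝ) < ((2 : ℤ) : ℝ) := by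
    push_cast
    nlinarith
  exact Int.cast_lt.mp h

lemma window_fl {i j : ℕ} (h : seg fib i 7 = seg fib j 7) (k : ℕ) (hk : k ≤ 7) :
    fl (i + k) - fl i = fl (j + k) - fl j := by
  obtain ⟨m, hm⟩ := Nat.exists_eq_add_of_le hk
  have h1 : seg fib i 7 = seg fib i k ++ seg fib (i + k) m := by rw [hm, seg_add]
  have h2 : seg fib j 7 = seg fib j k ++ seg fib (j + k) m := by rw [hm, seg_add]
  rw [h1, h2] at h
  have h3 := (List.append_inj h (by simp)).1
  have h4 := congrArg (fun l => (l.count true : ℤ)) h3
  simp only [count_seg, cs_fib] at h4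
  exact h4

/-- same windows of length 7 have close fractional parts -/
lemma window_close {i j : ℕ} (h : seg fib i 7 = seg fib j 7) : th i - th j < 2 - 3 * al := by
  by_contra hcon
  push Not at hcon
  have a1 := al_lb
  have a2 := al_ub
  have i0 := th_nonneg i
  have i0' := th_lt i
  have j0 := th_nonneg j
  have j0' := th_lt j
  -- key: for each k and integer n, th i + k al ≥ n iff th j + k al ≥ n
  have key : ∀ (k : ℕ) (n : ℤ), k ≤ 7 → (n : ℝ) ≤ th i + k * al → (n : ℝ) ≤ th j + k * al := by
    intro k n hk hn
    have e := window_fl h k hk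
    have hi := th_nonneg (i + k)
    have hi' := th_lt (i + k)
    have hj := th_nonneg (j + k)
    have hj' := th_lt (j + k)
    unfold th at hi hi' hj hj' hn ⊢
    push_cast at hi hi' hj hj' hn ⊢
    have e' : (fl (i + k) : ℝ) - fl i = fl (j + k) - fl j := by exact_mod_cast e
    have h5 : ((n + fl i : ℤ) : ℝ) < ((fl (i + k) + 1 : ℤ) : ℝ) := by push_cast; linarith
    have h6 := Int.cast_lt.mp h5
    have h7 : n + fl j ≤ fl (j + k) := by omega
    have h8 : ((n + fl j : ℤ) : ℝ) ≤ ((fl (j + k) : ℤ) : ℝ) := by exact_mod_cast h7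
    push_cast at h8
    linarith
  have k3 := key 3 2 (by norm_num)
  have k6 := key 6 4 (by norm_num)
  have k1 := key 1 1 (by norm_num)
  have k4 := key 4 3 (by norm_num)
  have k7 := key 7 5 (by norm_num)
  have k2 := key 2 2 (by norm_num)
  have k5 := key 5 4 (by norm_num)
  push_cast at k1 k2 k3 k4 k5 k6 k7
  by_cases c3 : (2 : ℝ) ≤ th i + 3 * al
  swap; · linarith
  have c3' := k3 c3
  by_cases c6 : (4 : ℝ) ≤ th i + 6 * al
  swap; · linarith
  have c6' := k6 c6
  by_cases c1 : (1 : ℝ) ≤ th i + 1 * al
  swap; · linarith
  have c1' := k1 c1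
  by_cases c4 : (3 : ℝ) ≤ th i + 4 * al
  swap; · linarith
  have c4' := k4 c4
  by_cases c7 : (5 : ℝ) ≤ th i + 7 * al
  swap; · linarith
  have c7' := k7 c7
  by_cases c2 : (2 : ℝ) ≤ th i + 2 * al
  swap; · linarith
  have c2' := k2 c2
  by_cases c5 : (4 : ℝ) ≤ th i + 5 * al
  swap; · linarith
  have c5' := k5 c5
  linarith

/-- the main arithmetic lemma -/
lemma no_cmp (i m n : ℕ) (h1 : seg fib i 7 = seg fib (i + m) 7)
    (h2 : seg fib (i + m) 7 = seg fib (i + m + n) 7)
    (h : fl (i + m) - fl i = n - (fl (i + m + n) - fl (i + m)) + 1) : False := by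
  have a0 := al_sq
  have a1 := al_lb
  have a2 := al_ub
  have e1 := window_close h2
  have e2 := window_close h2.symm
  have e3 := window_close (h1.trans h2)
  have e4 := window_close (h1.trans h2).symm
  set A : ℤ := fl (i + m) - fl i with hA
  set B : ℤ := fl (i + m + n) - fl (i + m) with hB
  have d1 : th (i + m) - th i = m * al - A := by
    unfold th; rw [hA]; push_cast; ring
  have d2 : th (i + m + n) - th (i + m) = n * al - B := by
    unfold th; rw [hB]; push_cast; ring
  have hR : (A : ℝ) = n - B + 1 := by exact_mod_cast h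
  -- combination
  have comb : (th (i + m + n) - th (i + m)) + al * (th (i + m) - th i) =
      (((m : ℤ) - B : ℤ) : ℝ) * (1 - al) - al := by
    rw [d1, d2, hR]
    push_cast
    linear_combination (m : ℝ) * a0
  -- bounds
  have b1 : (th (i + m + n) - th (i + m)) + al * (th (i + m) - th i) < 2 - 3 * al := by
    have : (th (i + m + n) - th (i + m)) + al * (th (i + m) - th i) =
      (1 - al) * (th (i + m + n) - th (i + m)) + al * (th (i + m + n) - th i) := by ring
    rw [this]
    nlinarith
  have b2 : -(2 - 3 * al) < (th (i + m + n) - th (i + m)) + al * (th (i + m) - th i) := by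
    have : (th (i + m + n) - th (i + m)) + al * (th (i + m) - th i) =
      (1 - al) * (th (i + m + n) - th (i + m)) + al * (th (i + m + n) - th i) := by ring
    rw [this]
    nlinarith
  rw [comb] at b1 b2
  set t : ℤ := (m : ℤ) - B with ht
  rcases le_or_gt t 1 with h3 | h3
  · have h4 : (t : ℝ) ≤ 1 := by exact_mod_cast h3
    nlinarith
  · have h4 : (2 : ℝ) ≤ t := by exact_mod_cast h3
    nlinarith


/-! Soundness: no generated word is a factor of the Fibonacci word. -/

lemma fib_avoids {w : List Bool} (h : Gen .S w) (i : ℕ) : w ≠ seg fib i w.length := by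
  intro hw
  have hsh := shape_of_gen h
  rcases hsh with rfl | rfl | ⟨r, z, rfl⟩ | ⟨p, u, v, hp, hc, rfl⟩
  · -- aaa
    have h1 := congrArg (fun l => (l.count true : ℤ)) hw
    simp only [count_seg, cs_fib] at h1
    have h2 := th_nonneg (i + 3)
    have h3 := th_lt i
    have h4 := al_ub
    unfold th at h2 h3
    push_cast at h2 h3
    simp at h1
    have h5 : (3 : ℝ) = fl (i + 3) - fl i := by exact_mod_cast h1
    linarith
  · -- bb
    have h1 := congrArg (fun l => (l.count true : ℤ)) hw
    simp only [count_seg, cs_fib] at h1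
    have h2 := th_lt (i + 2)
    have h3 := th_nonneg i
    have h4 := al_lb
    unfold th at h2 h3
    push_cast at h2 h3
    simp at h1
    have h5 : (0 : ℝ) = fl (i + 2) - fl i := by exact_mod_cast h1
    linarith
  · -- unbalanced
    have hw' : seg fib i (true :: r ++ true :: z ++ false :: r.reverse ++ [false]).length =
        (true :: r ++ [true]) ++ (z ++ (false :: r.reverse ++ [false])) := by
      rw [← hw]; simp
    obtain ⟨h1, h2⟩ := seg_eq_append hw'
    obtain ⟨h3, h4⟩ := seg_eq_append h2.symm
    have h5 := congrArg (fun l => (l.count true : ℤ)) h1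
    have h6 := congrArg (fun l => (l.count true : ℤ)) h4
    simp only [count_seg, cs_fib] at h5 h6
    have hb := balance i (i + (true :: r ++ [true]).length + z.length) (r.length + 2)
    have e1 : (true :: r ++ [true]).length = r.length + 2 := by simp
    have e2 : (false :: r.reverse ++ [false]).length = r.length + 2 := by simp
    rw [e1] at h5 h6 hb
    rw [e2] at h6
    rw [← h5, ← h6] at hb
    simp at hb
    omega
  · -- comparison
    have hw' : seg fib i (p ++ (u ++ p ++ v) ++ p).length = (p ++ u) ++ ((p ++ v) ++ p) := by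
      rw [← hw]; simp
    obtain ⟨h1, h2⟩ := seg_eq_append hw'
    obtain ⟨h3, h4⟩ := seg_eq_append h2.symm
    obtain ⟨h5, _⟩ := seg_eq_append h1.symm
    obtain ⟨h6, _⟩ := seg_eq_append h3.symm
    rw [hp] at h4 h5 h6
    apply no_cmp i (p ++ u).length (p ++ v).length
    · rw [← h5, ← h6]
    · rw [← h4, ← h6]
    · have h7 := congrArg (fun l => (l.count true : ℤ)) h1
      have h8 := congrArg (fun l => (l.count false : ℤ)) h3
      simp only [count_seg, count_false_seg, cs_fib] at h7 h8
      rw [← h7, ← h8]
      exact hc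

/-! Periodic words. -/

/-- the periodic word `w^ω` -/
def per (w : List Bool) (i : ℕ) : Bool := w.getD (i % w.length) false

lemma per_add_length (w : List Bool) (i : ℕ) : per w (i + w.length) = per w i := by
  simp [per]

lemma per_add_mul (w : List Bool) (i k : ℕ) : per w (i + k * w.length) = per w i := by
  simp [per]

lemma seg_per_self (w : List Bool) : seg (per w) 0 w.length = w := by
  apply List.ext_getElem
  · simp
  · intro n h1 h2
    simp only [seg, List.getElem_map, List.getElem_range', per]
    simp only [seg_length] at h1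
    simp [Nat.mod_eq_of_lt h1, h1]

lemma seg_shift (f : ℕ → Bool) (i j n : ℕ) (h : ∀ k, k < n → f (i + k) = f (j + k)) :
    seg f i n = seg f j n := by
  apply List.ext_getElem
  · simp
  · intro k h1 h2
    simp only [seg_length] at h1
    simp [seg, h k h1]

lemma seg_per_mul (w : List Bool) (n : ℕ) :
    seg (per w) 0 (n * w.length) = (List.replicate n w).flatten := by
  induction n with
  | zero => simp [seg]
  | succ n ih =>
    rw [Nat.succ_mul, seg_add, ih, List.replicate_succ', List.flatten_append]
    congr 1
    simp only [List.flatten_cons, List.flatten_nil, List.append_nil]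
    rw [seg_shift (per w) (0 + n * w.length) 0 w.length, seg_per_self]
    intro k _
    rw [show 0 + n * w.length + k = k + n * w.length by ring, per_add_mul]
    simp

/-- If some factor of `w^ω` is in `L` then some power of `w` has a factor in `L`. -/
lemma hit_of_seg {w : List Bool} (hw : w ≠ []) {i n : ℕ} (h : Gen .S (seg (per w) i n)) :
    ∃ N : ℕ, ∃ v ∈ G.language, v <:+: (List.replicate N w).flatten := by
  refine ⟨i + n, _, mem_language.mpr h, ?_⟩
  rw [← seg_per_mul]
  apply seg_infix
  have : 1 ≤ w.length := by
    have := List.length_pos_iff.mpr hw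
    omega
  nlinarith

/-- unbalanced periodic words are hit -/
lemma unb_hit {f : ℕ → Bool} {q : ℕ} (hq : 0 < q) (hf : ∀ i, f (i + q) = f i)
    (h : ∃ l i j, 2 ≤ (cs f (i + l) - cs f i) - (cs f (j + l) - cs f j)) :
    ∃ i n, Gen .S (seg f i n) := by
  classical
  -- minimal length
  obtain ⟨l, hmin, hlt⟩ : ∃ l, (∃ i j, 2 ≤ (cs f (i + l) - cs f i) - (cs f (j + l) - cs f j)) ∧
      ∀ m, m < l → ¬ ∃ i j, 2 ≤ (cs f (i + m) - cs f i) - (cs f (j + m) - cs f j) :=
    ⟨Nat.find h, Nat.find_spec h, fun m hm => Nat.find_min h hm⟩
  obtain ⟨i, j₀, hij₀⟩ := hmin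
  -- shift j₀ far to the right
  have hper : ∀ k n, f (n + k * q) = f n := by
    intro k
    induction k with
    | zero => simp
    | succ k ih => intro n; rw [Nat.succ_mul, ← Nat.add_assoc, hf, ih]
  have hcs : ∀ k n m, cs f (n + k * q + m) - cs f (n + k * q) = cs f (n + m) - cs f n := by
    intro k n m
    have h1 : seg f (n + k * q) m = seg f n m := by
      apply seg_shift
      intro x _
      rw [show n + k * q + x = n + x + k * q by ring, hper]
    have h2 := congrArg (fun l => (l.count true : ℤ)) h1
    simpa only [count_seg] using h2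
  obtain ⟨j, hj, hij⟩ : ∃ j, i + l ≤ j ∧ 2 ≤ (cs f (i + l) - cs f i) - (cs f (j + l) - cs f j) := by
    refine ⟨j₀ + (i + l) * q, ?_, ?_⟩
    · nlinarith
    · rw [hcs]; exact hij₀
  have hm : ∀ m, m < l → ∀ i' j', (cs f (i' + m) - cs f i') - (cs f (j' + m) - cs f j') ≤ 1 := by
    intro m hm i' j'
    by_contra hcon
    exact hlt m hm ⟨i', j', by omega⟩
  have step : ∀ n, cs f (n + 1) = cs f n + (if f n then 1 else 0) := fun n => rfl
  -- the difference function
  have hl0 : l ≠ 0 := by
    intro h0
    rw [h0] at hij
    simp at hij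
  have D1 : ∀ m, m < l → (cs f (i + m) - cs f i) - (cs f (j + m) - cs f j) ≤ 1 :=
    fun m hm' => hm m hm' i j
  have D2 : ∀ m, 0 < m → m ≤ l → (cs f (i + l) - cs f (i + m)) - (cs f (j + l) - cs f (j + m)) ≤ 1 := by
    intro m h0 hml
    have := hm (l - m) (by omega) (i + m) (j + m)
    rwa [show i + m + (l - m) = i + l by omega, show j + m + (l - m) = j + l by omega] at this
  have D3 : ∀ m, 0 < m → m < l → (cs f (i + m) - cs f i) - (cs f (j + m) - cs f j) = 1 := by
    intro m h0 hml
    have := D1 m hml
    have := D2 m h0 hml.le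
    omega
  have hl1 : l ≠ 1 := by
    intro h1
    rw [h1, step i, step j] at hij
    split_ifs at hij <;> omega
  have D4 : (cs f (i + l) - cs f i) - (cs f (j + l) - cs f j) = 2 := by
    have := D2 1 (by omega) (by omega)
    have := D1 1 (by omega)
    omega
  have D0 : (cs f (i + 0) - cs f i) - (cs f (j + 0) - cs f j) = 0 := by simp
  -- letters
  have fi : f i = true ∧ f j = false := by
    have := D3 1 (by omega) (by omega)
    rw [step i, step j] at this
    cases h4 : f i <;> cases h5 : f j <;> simp [h4, h5] at this ⊢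
  have fe : f (i + (l - 1)) = true ∧ f (j + (l - 1)) = false := by
    have h1 := D3 (l - 1) (by omega) (by omega)
    have h2 := step (i + (l - 1))
    have h3 := step (j + (l - 1))
    rw [show i + (l - 1) + 1 = i + l by omega] at h2
    rw [show j + (l - 1) + 1 = j + l by omega] at h3
    rw [h2, h3] at D4
    cases h4 : f (i + (l - 1)) <;> cases h5 : f (j + (l - 1)) <;> simp [h4, h5] at D4 ⊢ <;> omega
  have fm : ∀ m, 0 < m → m + 1 < l → f (i + m) = f (j + m) := by
    intro m h0 h1
    have h2 := D3 m h0 (by omega)
    have h3 := D3 (m + 1) (by omega) (by omega)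
    rw [← Nat.add_assoc, ← Nat.add_assoc, step, step] at h3
    cases h4 : f (i + m) <;> cases h5 : f (j + m) <;> simp [h4, h5] at h3 ⊢ <;> omega
  -- palindrome property
  have pal : ∀ k, k ≤ l → cs f (i + k) - cs f i = cs f (i + l) - cs f (i + (l - k)) := by
    intro k hk
    rcases Nat.eq_zero_or_pos k with rfl | h0
    · simp
    rcases Nat.lt_or_ge k l with h1 | h1
    · have e1 := D3 k h0 h1
      have e2 := D3 (l - k) (by omega) (by omega)
      have e3 := hm k h1 i (j + (l - k))
      have e4 := hm k h1 (i + (l - k)) j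
      rw [show j + (l - k) + k = j + l by omega] at e3
      rw [show i + (l - k) + k = i + l by omega] at e4
      omega
    · have : k = l := by omega
      subst this
      simp
  have palf : ∀ k, k < l → f (i + k) = f (i + (l - 1 - k)) := by
    intro k hk
    have e1 := pal k hk.le
    have e2 := pal (k + 1) (by omega)
    rw [← Nat.add_assoc, step] at e2
    have e3 := step (i + (l - 1 - k))
    rw [show i + (l - 1 - k) + 1 = i + (l - k) by omega] at e3
    rw [show l - (k + 1) = l - 1 - k by omega] at e2
    cases h4 : f (i + k) <;> cases h5 : f (i + (l - 1 - k)) <;> simp [h4, h5] at e2 e3 ⊢ <;> omega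
  -- assemble
  obtain ⟨l', rfl⟩ : ∃ l', l = l' + 2 := ⟨l - 2, by omega⟩
  obtain ⟨zl, rfl⟩ := Nat.exists_eq_add_of_le hj
  refine ⟨i, (l' + 2) + zl + (l' + 2), ?_⟩
  set r := seg f (i + 1) l' with hr
  set z := seg f (i + (l' + 2)) zl with hz
  have s1 : seg f i (l' + 2) = true :: r ++ [true] := by
    rw [show l' + 2 = 1 + (l' + 1) by ring, seg_add, seg_add]
    have a1 : seg f i 1 = [true] := by simp [seg, fi.1]
    have a2 : seg f (i + 1 + l') 1 = [true] := by
      have := fe.1
      rw [show i + (l' + 2 - 1) = i + 1 + l' by omega] at this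
      simp [seg, this]
    rw [a1, a2]
    simp [hr]
  have s2 : seg f (i + (l' + 2) + zl) (l' + 2) = false :: r.reverse ++ [false] := by
    rw [show l' + 2 = 1 + (l' + 1) by ring, seg_add, seg_add]
    have a1 : seg f (i + (1 + (l' + 1)) + zl) 1 = [false] := by
      have := fi.2
      rw [show i + (l' + 2) + zl = i + (1 + (l' + 1)) + zl by ring] at this
      simp [seg, this]
    have a2 : seg f (i + (1 + (l' + 1)) + zl + 1 + l') 1 = [false] := by
      have := fe.2
      rw [show i + (l' + 2) + zl + (l' + 2 - 1) = i + (1 + (l' + 1)) + zl + 1 + l' by omega] at this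
      simp [seg, this]
    have a3 : seg f (i + (1 + (l' + 1)) + zl + 1) l' = r.reverse := by
      apply List.ext_getElem
      · simp [hr]
      · intro k h1 h2
        simp only [seg_length] at h1
        simp only [hr, seg, List.getElem_map, List.getElem_range', List.getElem_reverse,
          List.length_map, List.length_range', one_mul]
        have e1 := fm (k + 1) (by omega) (by omega)
        have e2 := palf (k + 1) (by omega)
        rw [show i + (1 + (l' + 1)) + zl + 1 + k = i + (l' + 2) + zl + (k + 1) by ring]
        rw [← e1, e2]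
        congr 1
        omega
    rw [a1, a2, a3]
    simp
  have s3 : seg f i ((l' + 2) + zl + (l' + 2)) =
      true :: r ++ true :: z ++ false :: r.reverse ++ [false] := by
    rw [seg_add, seg_add, s1]
    have : i + (l' + 2 + zl) = i + (l' + 2) + zl := by ring
    rw [this, s2]
    simp [hz]
  rw [s3]
  exact gen_S_unb r z


lemma cs_mono_succ (f : ℕ → Bool) (n k : ℕ) : cs f n ≤ cs f (n + k) := by
  induction k with
  | zero => simp
  | succ k ih =>
    rw [← Nat.add_assoc]
    simp only [cs]
    split_ifs <;> omega

lemma cs_le_add (f : ℕ → Bool) (n k : ℕ) : cs f (n + k) ≤ cs f n + k := by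
  induction k with
  | zero => simp
  | succ k ih =>
    rw [← Nat.add_assoc]
    simp only [cs]
    split_ifs <;> push_cast <;> omega

/-- coprime counts: the comparison part hits -/
lemma cmp_hit {f : ℕ → Bool} {q : ℕ} (hf : ∀ i, f (i + q) = f i)
    (hA : 1 ≤ cs f q) (hB : 1 ≤ (q : ℤ) - cs f q) (hco : IsCoprime (cs f q) (q : ℤ)) :
    ∃ i n, Gen .S (seg f i n) := by
  have hper : ∀ k n, f (n + k * q) = f n := by
    intro k
    induction k with
    | zero => simp
    | succ k ih => intro n; rw [Nat.succ_mul, ← Nat.add_assoc, hf, ih]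
  have hcs : ∀ k n m, cs f (n + k * q + m) - cs f (n + k * q) = cs f (n + m) - cs f n := by
    intro k n m
    have h1 : seg f (n + k * q) m = seg f n m := by
      apply seg_shift
      intro x _
      rw [show n + k * q + x = n + x + k * q by ring, hper]
    have h2 := congrArg (fun l => (l.count true : ℤ)) h1
    simpa only [count_seg] using h2
  have hmul : ∀ k : ℕ, cs f (k * q) = k * cs f q := by
    intro k
    induction k with
    | zero => simp [cs]
    | succ k ih =>
      have := hcs k 0 q
      simp only [Nat.zero_add, cs, sub_zero] at this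
      rw [Nat.succ_mul]
      push_cast
      linarith
  -- Bezout
  set A := cs f q with hAdef
  set B := (q : ℤ) - A with hBdef
  obtain ⟨a, b, hab⟩ := hco
  -- a * A + b * q = 1, so (a + b) * A + b * B = 1
  have hab' : (a + b) * A + b * B = 1 := by rw [hBdef]; linarith
  set k : ℤ := |a + b| + |b| + 7 with hk
  have hk1 := neg_abs_le (a + b)
  have hk2 := le_abs_self b
  have hk3 := abs_nonneg b
  have hk4 := abs_nonneg (a + b)
  have hm7 : 7 ≤ (a + b) + k * B := by nlinarith
  have hn7 : 7 ≤ -b + k * A := by nlinarith
  obtain ⟨m, hm⟩ := Int.eq_ofNat_of_zero_le (show 0 ≤ (a + b) + k * B by omega)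
  obtain ⟨n, hn⟩ := Int.eq_ofNat_of_zero_le (show 0 ≤ -b + k * A by omega)
  have hmn : (m : ℤ) * A = n * B + 1 := by
    rw [← hm, ← hn]; linear_combination hab'
  have hq1 : 1 ≤ q := by omega
  have hm' : 7 ≤ m * q := by
    have : 7 ≤ m := by omega
    nlinarith
  have hn' : 7 ≤ n * q := by
    have : 7 ≤ n := by omega
    nlinarith
  obtain ⟨m', hm'⟩ := Nat.exists_eq_add_of_le hm'
  obtain ⟨n', hn'⟩ := Nat.exists_eq_add_of_le hn'
  -- windows
  have w1 : seg f (m * q) 7 = seg f 0 7 := by
    apply seg_shift
    intro x _
    rw [show m * q + x = x + m * q by ring, hper]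
    simp
  have w2 : seg f (m * q + n * q) 7 = seg f 0 7 := by
    apply seg_shift
    intro x _
    rw [show m * q + n * q + x = x + (m + n) * q by ring, hper]
    simp
  refine ⟨0, 7 + (m' + 7 + n') + 7, ?_⟩
  have e1 : seg f 0 (7 + m') = seg f 0 7 ++ seg f 7 m' := by rw [seg_add]
  have e2 : seg f (m * q) (7 + n') = seg f 0 7 ++ seg f (m * q + 7) n' := by
    rw [seg_add, w1]
  have e3 : seg f 0 (7 + (m' + 7 + n') + 7) =
      seg f 0 7 ++ (seg f 7 m' ++ seg f 0 7 ++ seg f (m * q + 7) n') ++ seg f 0 7 := by
    rw [show 7 + (m' + 7 + n') + 7 = (7 + m') + ((7 + n') + 7) by ring, seg_add, e1, seg_add,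
      show 0 + (7 + m') = m * q by omega, e2, show m * q + (7 + n') = m * q + n * q by omega, w2]
    simp
  rw [e3]
  apply gen_S_cmp
  · simp
  · rw [← e1, ← e2, count_seg, count_false_seg, ← hm', ← hn', Nat.zero_add, hmul]
    have h1 := hcs m 0 (n * q)
    simp only [Nat.zero_add, cs, sub_zero, hmul] at h1
    have h2 : cs f (m * q + n * q) = m * A + n * A := by linarith
    rw [h2]
    simp only [cs, sub_zero]
    push_cast
    rw [hmn, hBdef]
    ring

/-- every periodic word contains a word of the language -/
lemma periodic_hit (N : ℕ) : ∀ w : List Bool, w.length = N → w ≠ [] →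
    ∃ i n, Gen .S (seg (per w) i n) := by
  induction N using Nat.strong_induction_on with
  | _ N IH =>
    intro w hwN hw
    set f := per w with hfdef
    set q := w.length with hqdef
    have hq : 1 ≤ q := by
      have := List.length_pos_iff.mpr hw
      omega
    have hf : ∀ i, f (i + q) = f i := per_add_length w
    have hper : ∀ k n, f (n + k * q) = f n := fun k n => per_add_mul w n k
    by_cases h1 : ∃ i, f i = true
    swap
    · push Not at h1
      refine ⟨0, 2, ?_⟩
      have : seg f 0 2 = [false, false] := by
        have a := h1 0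
        have b := h1 1
        simp only [Bool.not_eq_true] at a b
        simp [seg, List.range'_succ, a, b]
      rw [this]
      exact Gen.fin .bb
    by_cases h2 : ∃ i, f i = false
    swap
    · push Not at h2
      refine ⟨0, 3, ?_⟩
      have : seg f 0 3 = [true, true, true] := by
        have a := h2 0
        have b := h2 1
        have c := h2 2
        simp only [Bool.not_eq_false] at a b c
        simp [seg, List.range'_succ, a, b, c]
      rw [this]
      exact Gen.fin .aaa
    by_cases hub : ∃ l i j, 2 ≤ (cs f (i + l) - cs f i) - (cs f (j + l) - cs f j)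
    · exact unb_hit (by omega) hf hub
    push Not at hub
    have hmod : ∀ i, f (i % q) = f i := by
      intro i
      conv_rhs => rw [← Nat.mod_add_div i q, Nat.mul_comm, hper]
    obtain ⟨i₁, hi₁⟩ := h1
    obtain ⟨i₂, hi₂⟩ := h2
    rw [← hmod] at hi₁ hi₂
    have hlt1 : i₁ % q < q := Nat.mod_lt _ (by omega)
    have hlt2 : i₂ % q < q := Nat.mod_lt _ (by omega)
    have hA : 1 ≤ cs f q := by
      have e1 := cs_mono_succ f 0 (i₁ % q)
      have e2 := cs_mono_succ f (i₁ % q + 1) (q - (i₁ % q + 1))
      rw [show i₁ % q + 1 + (q - (i₁ % q + 1)) = q by omega] at e2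
      have e3 : cs f (i₁ % q + 1) = cs f (i₁ % q) + 1 := by simp [cs, hi₁]
      simp only [Nat.zero_add, cs] at e1
      omega
    have hB : 1 ≤ (q : ℤ) - cs f q := by
      have e1 := cs_le_add f 0 (i₂ % q)
      have e2 := cs_le_add f (i₂ % q + 1) (q - (i₂ % q + 1))
      rw [show i₂ % q + 1 + (q - (i₂ % q + 1)) = q by omega] at e2
      have e3 : cs f (i₂ % q + 1) = cs f (i₂ % q) := by simp [cs, hi₂]
      simp only [Nat.zero_add, cs] at e1
      omega
    obtain ⟨A, hAn⟩ := Int.eq_ofNat_of_zero_le (show 0 ≤ cs f q by omega)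
    by_cases hg : Nat.gcd A q = 1
    · apply cmp_hit hf hA hB
      rw [hAn]
      exact Nat.isCoprime_iff_coprime.mpr hg
    · -- smaller period
      have hd0 : 0 < Nat.gcd A q := Nat.gcd_pos_of_pos_right _ (by omega)
      obtain ⟨t, ht⟩ := Nat.gcd_dvd_left A q
      obtain ⟨l, hl⟩ := Nat.gcd_dvd_right A q
      set d := Nat.gcd A q with hd
      have hd2 : 2 ≤ d := by omega
      have hl1 : 1 ≤ l := by
        rcases Nat.eq_zero_or_pos l with h | h
        · rw [h] at hl; omega
        · exact h
      have hlq : l < q := by nlinarith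
      have hcq : ∀ i, cs f (i + q) - cs f i = A := by
        intro i
        induction i with
        | zero => simp [cs, hAn]
        | succ i ih =>
          rw [show i + 1 + q = i + q + 1 by ring]
          simp only [cs, hf]
          linarith
      have hC : ∀ i, cs f (i + l) - cs f i = t := by
        intro i
        have hub' := fun j => hub l i j
        have hub'' := fun j => hub l j i
        have hle : ¬ ((t : ℤ) + 1 ≤ cs f (i + l) - cs f i) := by
          intro hcon
          have : ∀ k : ℕ, (k + 1 : ℤ) * t + 1 ≤ cs f (i + (k + 1) * l) - cs f i := by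
            intro k
            induction k with
            | zero => simpa using hcon
            | succ k ih =>
              have e := hub' (i + (k + 1) * l)
              rw [show i + (k + 1 + 1) * l = i + (k + 1) * l + l by ring]
              push_cast
              linarith
          have h3 := this (d - 1)
          rw [show d - 1 + 1 = d by omega, ← hl, hcq] at h3
          have h4 : ((d - 1 : ℕ) : ℤ) + 1 = d := by omega
          rw [h4] at h3
          have h5 : (A : ℤ) = d * t := by exact_mod_cast ht
          omega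
        have hge : ¬ (cs f (i + l) - cs f i ≤ (t : ℤ) - 1) := by
          intro hcon
          have : ∀ k : ℕ, cs f (i + (k + 1) * l) - cs f i ≤ (k + 1 : ℤ) * t - 1 := by
            intro k
            induction k with
            | zero => simpa using hcon
            | succ k ih =>
              have e := hub'' (i + (k + 1) * l)
              rw [show i + (k + 1 + 1) * l = i + (k + 1) * l + l by ring]
              push_cast
              linarith
          have h3 := this (d - 1)
          rw [show d - 1 + 1 = d by omega, ← hl, hcq] at h3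
          have h4 : ((d - 1 : ℕ) : ℤ) + 1 = d := by omega
          rw [h4] at h3
          have h5 : (A : ℤ) = d * t := by exact_mod_cast ht
          omega
        omega
      have hfl : ∀ i, f (i + l) = f i := by
        intro i
        have e1 := hC i
        have e2 := hC (i + 1)
        rw [show i + 1 + l = i + l + 1 by ring] at e2
        simp only [cs] at e2
        cases h4 : f i <;> cases h5 : f (i + l) <;> simp [h4, h5] at e2 ⊢ <;> omega
      have hflm : ∀ k n, f (n + k * l) = f n := by
        intro k
        induction k with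
        | zero => simp
        | succ k ih => intro n; rw [Nat.succ_mul, ← Nat.add_assoc, hfl, ih]
      have hw' : per (seg f 0 l) = f := by
        funext i
        have h3 : i % l < l := Nat.mod_lt _ (by omega)
        simp only [per, seg_length]
        rw [List.getD_eq_getElem _ _ (by simpa using h3)]
        simp only [seg, List.getElem_map, List.getElem_range', Nat.zero_add, one_mul]
        conv_rhs => rw [← Nat.mod_add_div i l, Nat.mul_comm, hflm]
      obtain ⟨i, n, hin⟩ := IH l (by omega) (seg f 0 l) (by simp) (by
        intro h0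
        have := congrArg List.length h0
        simp at this
        omega)
      rw [hw'] at hin
      exact ⟨i, n, hin⟩

/-- The negation of the preceding statement: For every finite alphabet and context-free language L of nonempty words: only finitely many words avoid all factors from L iff for each nonempty word w some power of w has a factor in L. -/
theorem result :
    ¬ (∀ (α : Type) [Fintype α] (L : Language α),
      L.IsContextFree →
      (∀ v ∈ L, v ≠ []) →
      ({u : List α | ¬ ∃ v ∈ L, v <:+: u}.Finite ↔
        ∀ w : List α, w ≠ [] →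
          ∃ n : ℕ, ∃ v ∈ L, v <:+: (List.replicate n w).flatten)) := by
  intro H
  have h := H Bool G.language ⟨G, rfl⟩ (by
    intro v hv hv0
    have hs := shape_of_gen (mem_language.mp hv)
    subst hv0
    rcases hs with h | h | ⟨r, z, h⟩ | ⟨p, u, v, hp, _, h⟩
    · simp at h
    · simp at h
    · simp at h
    · have := congrArg List.length h
      simp at this
      omega)
  have hfin := h.mpr (by
    intro w hw
    obtain ⟨i, n, hin⟩ := periodic_hit _ w rfl hw
    exact hit_of_seg hw hin)
  have hinf : {u : List Bool | ¬ ∃ v ∈ G.language, v <:+: u}.Infinite := by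
    apply Set.infinite_of_injective_forall_mem (f := fun n => seg fib 0 n)
    · intro a b hab
      have := congrArg List.length hab
      simpa using this
    · rintro n ⟨v, hv, hvi⟩
      obtain ⟨i, hi⟩ := infix_seg hvi
      exact fib_avoids (mem_language.mp hv) i hi
  exact hinf hfin

end Pool.Agent.S09386
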