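import Pool.Statements.S09388
import Pool.Agent.Helper79.LocLin

set_option autoImplicit false
open Pool Pool.MP_52db1d_lc

namespace Pool.Agent.S09388

open Pool.Agent.Helper79

/-- The counterexample family: words of a regular language whose image under a morphism is not a
prefix of the fixed square-free word. -/
def Fam (n : ℕ) : Set (Language (Fin n)) :=
  {L | ∃ (h : Fin n → List (Fin 8)) (R : Language (Fin n)), R.IsRegular ∧
    L = ({w : List (Fin n) | ¬ LocLin.P (w.flatMap h) ∧ w ∈ R} : Set (List (Fin n)))}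

/-- The negation of the preceding statement: Any family of languages closed under inverse morphisms and intersection with regular languages, all of whose members are context-free and one-locally-linear (marked-position iteration property), contains only regular languages. -/
theorem result :
    ¬ (∀ F : ∀ n : ℕ, Set (Language (Fin n)),
      (∀ (m n : ℕ) (g : Fin m → List (Fin n)) (L : Language (Fin n)), L ∈ F n →
          ({w : List (Fin m) | w.flatMap g ∈ L} : Set (List (Fin m))) ∈ F m) →
      (∀ (n : ℕ) (L R : Language (Fin n)), L ∈ F n → R.IsRegular →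
          ({w : List (Fin n) | w ∈ L ∧ w ∈ R} : Set (List (Fin n))) ∈ F n) →
      (∀ (n : ℕ) (L : Language (Fin n)), L ∈ F n →
          L.IsContextFree ∧
          ∃ N₀ : ℕ, ∀ f : List (Fin n), f ∈ L → ∀ M : Finset ℕ,
            (∀ i ∈ M, i < f.length) → N₀ ≤ M.card →
            ∃ x u y : List (Fin n), f = x ++ u ++ y ∧
              (∀ k : ℕ, x ++ (List.replicate k u).flatten ++ y ∈ L) ∧
              (∃ i ∈ M, i < x.length) ∧
              (∃ i ∈ M, x.length ≤ i ∧ i < x.length + u.length) ∧
              (∃ i ∈ M, x.length + u.length ≤ i)) →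
      ∀ (n : ℕ) (L : Language (Fin n)), L ∈ F n → L.IsRegular) := by
  intro H
  refine LocLin.not_regular (H Fam ?_ ?_ ?_ 8 ({w | ¬ LocLin.P w} : Set (List (Fin 8))) ?_)
  · rintro m n g L ⟨h, R, hR, rfl⟩
    refine ⟨fun a => (g a).flatMap h, _, Trans.isRegular_comap g R hR, ?_⟩
    ext w
    change (¬ LocLin.P ((w.flatMap g).flatMap h) ∧ w.flatMap g ∈ R) ↔
      (¬ LocLin.P (w.flatMap fun a => (g a).flatMap h) ∧ w.flatMap g ∈ R)
    rw [List.flatMap_assoc]
  · rintro n L R' ⟨h, R, hR, rfl⟩ hR'
    refine ⟨h, _, hR.inf hR', ?_⟩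
    ext w
    change ((¬ LocLin.P (w.flatMap h) ∧ w ∈ R) ∧ w ∈ R') ↔
      (¬ LocLin.P (w.flatMap h) ∧ w ∈ R ∧ w ∈ R')
    rw [and_assoc]
  · rintro n L ⟨h, R, ⟨σ, _, M, rfl⟩, rfl⟩
    constructor
    · obtain ⟨G, hG⟩ := Trans.isContextFree_comap_inter h M AbSq.G
      refine ⟨G, ?_⟩
      rw [hG]
      ext w
      change (w.flatMap h ∈ AbSq.G.language ∧ w ∈ M.accepts) ↔
        (¬ LocLin.P (w.flatMap h) ∧ w ∈ M.accepts)
      rw [AbSq.lang, AbSq.mem_iff, LocLin.P, not_exists]
    · exact LocLin.one_ll h M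
  · refine ⟨fun a => [a], Set.univ, ⟨Unit, inferInstance, ⟨fun _ _ => (), (), Set.univ⟩, ?_⟩, ?_⟩
    · ext w
      constructor
      · intro _; exact Set.mem_univ w
      · intro _; exact Set.mem_univ ()
    · ext w
      change (¬ LocLin.P w) ↔ (¬ LocLin.P (w.flatMap fun a => [a]) ∧ w ∈ (Set.univ : Set (List (Fin 8))))
      have : (w.flatMap fun a => [a]) = w := by simp
      rw [this]
      simp

end Pool.Agent.S09388
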