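import Pool.Statements.S09402
-- import your own Pool.Agent.* helpers here

set_option autoImplicit false
open Pool Pool.MP_5708a2_lc

namespace Pool.Agent.S09402

/-- The sets determined, up to finite colourings of the two coordinates, by the traces of `G`. -/
def Good (G : Set (Set (ℝ × ℝ))) : Set (Set (ℝ × ℝ)) :=
  {T | ∃ (ι : Type) (_ : Finite ι) (α β : ℝ → ι), ∀ x x' y y' : ℝ, α x = α x' → β y = β y' →
    (∀ g ∈ G, ((x, y) ∈ g ↔ (x', y') ∈ g)) → ((x, y) ∈ T ↔ (x', y') ∈ T)}

/-- The counter-family. -/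
def Cf (n : ℕ) : Set (ℝ × ℝ) :=
  {p | ∃ (k j : ℕ) (W : Finset (ℕ × ℕ)), p.1 = (k : ℝ) ∧ p.2 = (j : ℝ) ∧ Encodable.encode W = j ∧
    (n, k) ∈ W}

/-- The negation of the preceding statement: For every countable family of subsets of the real plane there is a finite family of plane sets such that every class containing it and closed under complement, union, projections onto the axes and products of axis sets contains the whole countable family. -/
theorem result :
    ¬ (∀ F : Set (Set (ℝ × ℝ)), F.Countable →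
      ∃ G : Set (Set (ℝ × ℝ)), G.Finite ∧
        ∀ S ∈ F, ∀ C : Set (Set (ℝ × ℝ)),
          (∀ T ∈ C, Tᶜ ∈ C) →
          (∀ T ∈ C, ∀ U ∈ C, T ∪ U ∈ C) →
          (∀ T ∈ C, {p : ℝ × ℝ | p.2 = 0 ∧ ∃ y : ℝ, (p.1, y) ∈ T} ∈ C) →
          (∀ T ∈ C, {p : ℝ × ℝ | p.1 = 0 ∧ ∃ x : ℝ, (x, p.2) ∈ T} ∈ C) →
          (∀ A ∈ C, ∀ B ∈ C, A ⊆ {p : ℝ × ℝ | p.2 = 0} → B ⊆ {p : ℝ × ℝ | p.1 = 0} →
            {p : ℝ × ℝ | ((p.1, (0:ℝ)) ∈ A) ∧ (((0:ℝ), p.2) ∈ B)} ∈ C) →
          G ⊆ C → S ∈ C) := by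
  intro h
  obtain ⟨G, hG, hall⟩ := h (Set.range Cf) (Set.countable_range _)
  have key : ∀ n, Cf n ∈ Good G := by
    intro n
    refine hall (Cf n) ⟨n, rfl⟩ (Good G) ?_ ?_ ?_ ?_ ?_ ?_
    · rintro T ⟨ι, hι, α, β, h⟩
      refine ⟨ι, hι, α, β, fun x x' y y' h1 h2 h3 => ?_⟩
      rw [Set.mem_compl_iff, Set.mem_compl_iff, h x x' y y' h1 h2 h3]
    · rintro T ⟨ι, hι, α, β, h⟩ U ⟨ι', hι', α', β', h'⟩
      refine ⟨ι × ι', inferInstance, fun x => (α x, α' x), fun y => (β y, β' y),
        fun x x' y y' h1 h2 h3 => ?_⟩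
      simp only [Prod.mk.injEq] at h1 h2
      rw [Set.mem_union, Set.mem_union, h x x' y y' h1.1 h2.1 h3, h' x x' y y' h1.2 h2.2 h3]
    · rintro T -
      refine ⟨Prop, inferInstance, fun x => ∃ y : ℝ, (x, y) ∈ T, fun y => y = 0,
        fun x x' y y' h1 h2 _ => ?_⟩
      simp only [Set.mem_ofPred_eq]
      exact and_congr (iff_of_eq h2) (iff_of_eq h1)
    · rintro T -
      refine ⟨Prop, inferInstance, fun x => x = 0, fun y => ∃ x : ℝ, (x, y) ∈ T,
        fun x x' y y' h1 h2 _ => ?_⟩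
      simp only [Set.mem_ofPred_eq]
      exact and_congr (iff_of_eq h1) (iff_of_eq h2)
    · rintro A - B - - -
      refine ⟨Prop, inferInstance, fun x => (x, (0:ℝ)) ∈ A, fun y => ((0:ℝ), y) ∈ B,
        fun x x' y y' h1 h2 _ => ?_⟩
      simp only [Set.mem_ofPred_eq]
      exact and_congr (iff_of_eq h1) (iff_of_eq h2)
    · intro g hg
      exact ⟨Unit, inferInstance, fun _ => (), fun _ => (), fun x x' y y' _ _ h3 => h3 g hg⟩
  choose ι hι α β hk using key
  have := hG.to_subtype
  have := Fintype.ofFinite G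
  set m := Fintype.card G + 1 with hm
  -- a common finite colouring
  have : ∀ i : Fin m, Finite (ι i) := fun i => hι i
  let a : ℕ → (∀ i : Fin m, ι i) := fun k i => α i (k : ℝ)
  obtain ⟨c, hc⟩ := Finite.exists_infinite_fiber a
  have hinf : (a ⁻¹' {c}).Infinite := Set.infinite_coe_iff.mp hc
  -- an injection from `Fin m → Bool` to the fibre
  obtain ⟨e, he⟩ : ∃ e : (Fin m → Bool) → ℕ, Function.Injective e ∧ ∀ v, a (e v) = c := by
    have : Infinite (a ⁻¹' {c}) := hc
    obtain ⟨f⟩ : Nonempty ((Fin m → Bool) ↪ (a ⁻¹' {c})) := by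
      have := Infinite.exists_superset_card_eq (∅ : Finset (a ⁻¹' {c})) (Fintype.card (Fin m → Bool)) (by simp)
      obtain ⟨t, -, ht⟩ := this
      have e1 : (Fin m → Bool) ≃ t := Fintype.equivOfCardEq (by simp [ht])
      exact ⟨e1.toEmbedding.trans (Function.Embedding.subtype _)⟩
    exact ⟨fun v => (f v : ℕ), fun v w hvw => f.injective (Subtype.ext hvw), fun v => (f v).2⟩
  obtain ⟨he1, he2⟩ := he
  -- the point y
  let W : Finset (ℕ × ℕ) := (Finset.univ : Finset (Fin m × (Fin m → Bool))).filter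
    (fun q => q.2 q.1 = true) |>.image (fun q => ((q.1 : ℕ), e q.2))
  let j : ℕ := Encodable.encode W
  have hW : ∀ (i : Fin m) (v : Fin m → Bool), (((e v : ℕ) : ℝ), (j : ℝ)) ∈ Cf i ↔ v i = true := by
    intro i v
    constructor
    · rintro ⟨k, j', W', h1, h2, h7, h3⟩
      have h1' : e v = k := by simpa using h1
      have h2' : j = j' := by simpa using h2
      subst h1' h2'
      have h8 : W' = W := Encodable.encode_injective h7
      rw [h8] at h3
      simp only [W, Finset.mem_image, Finset.mem_filter,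
        Finset.mem_univ, true_and, Prod.mk.injEq] at h3
      obtain ⟨⟨i', v'⟩, h4, h5, h6⟩ := h3
      have : i' = i := Fin.ext h5
      subst this
      have : v' = v := he1 h6
      subst this
      exact h4
    · intro hv
      refine ⟨e v, j, W, rfl, rfl, rfl, ?_⟩
      simp only [W, Finset.mem_image, Finset.mem_filter,
        Finset.mem_univ, true_and, Prod.mk.injEq]
      exact ⟨(i, v), hv, rfl, rfl⟩
  -- the trace map is injective
  let tr : (Fin m → Bool) → Set G := fun v => {g | (((e v : ℕ) : ℝ), (j : ℝ)) ∈ (g : Set (ℝ × ℝ))}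
  have htr : Function.Injective tr := by
    intro v w hvw
    funext i
    have h1 : α i ((e v : ℕ) : ℝ) = α i ((e w : ℕ) : ℝ) := by
      have := (he2 v).trans (he2 w).symm
      exact congrFun this i
    have h2 := hk i ((e v : ℕ) : ℝ) ((e w : ℕ) : ℝ) (j : ℝ) (j : ℝ) h1 rfl (by
      intro g hg
      have := Set.ext_iff.mp hvw ⟨g, hg⟩
      exact this)
    rw [hW i v, hW i w] at h2
    exact Bool.eq_iff_iff.mpr h2
  have hcard := Fintype.card_le_of_injective tr htr
  simp only [Fintype.card_fun, Fintype.card_bool, Fintype.card_fin, Fintype.card_set] at hcard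
  have := Nat.pow_lt_pow_right (show 1 < 2 by norm_num) (show Fintype.card G < m by omega)
  omega

end Pool.Agent.S09402
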