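import Pool.Statements.S09412
import Pool.Agent.Helper223.MQField

set_option autoImplicit false
open Pool Pool.MP_5ae901_lc

namespace Pool.Agent.S09412

open Filter Encodable Polynomial Pool.Agent.Helper223

/-! ### the family of interval constraints -/

def nk (k : ℕ) : ℕ := k.unpair.1 + 3

def mk (k : ℕ) : ℕ :=
  (Nat.Partrec.Code.evaln k.unpair.2 (Denumerable.ofNat Nat.Partrec.Code k.unpair.1) (nk k)).getD
    (2 ^ (nk k + 1) + 1)

def Dk (k : ℕ) : ℤ := 2 ^ (nk k) * 3 ^ (k + 1)
def Ak (k : ℕ) : ℤ := 3 ^ (k + 1) * (mk k : ℤ) - 1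
def Bk (k : ℕ) : ℤ := 3 ^ (k + 1) * ((mk k : ℤ) + 1) + 1

noncomputable def gP : ℕ → ℤ[X]
  | 0 => X * (C 2 - X)
  | k + 1 => (C (Dk k) * X - C (Ak k)) * (C (Dk k) * X - C (Bk k))

def gz (k : ℕ) (n : ℤ) : ℤ :=
  cond (decide (k = 0)) (n * (2 - n)) ((Dk (k - 1) * n - Ak (k - 1)) * (Dk (k - 1) * n - Bk (k - 1)))

theorem gz_eq (k : ℕ) (n : ℤ) : eval n (gP k) = gz k n := by
  match k with
  | 0 => simp [gP, gz]
  | k + 1 => simp [gP, gz]

theorem gP_deg (k : ℕ) : (gP k).natDegree ≤ 2 := by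
  match k with
  | 0 =>
    simp only [gP]
    refine natDegree_mul_le.trans ?_
    have h1 := natDegree_X_le (R := ℤ)
    have h2 : (C 2 - X : ℤ[X]).natDegree ≤ 1 := by
      refine (natDegree_sub_le _ _).trans ?_
      simp
    omega
  | k + 1 =>
    simp only [gP]
    refine natDegree_mul_le.trans ?_
    have h : ∀ a b : ℤ, (C a * X - C b : ℤ[X]).natDegree ≤ 1 := by
      intro a b
      refine (natDegree_sub_le _ _).trans ?_
      rw [natDegree_C]
      have := natDegree_C_mul_le a (X : ℤ[X])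
      have h1 := natDegree_X_le (R := ℤ)
      omega
    have := h (Dk k) (Ak k)
    have := h (Dk k) (Bk k)
    omega

theorem comp_pow (c : ℕ) : Computable (fun n : ℕ => c ^ n) := by
  have h := Computable.nat_rec (α := ℕ) (σ := ℕ) (f := fun n => n) (g := fun _ => 1)
    (h := fun _ p => p.2 * c) Computable.id (Computable.const 1)
    ((Primrec.nat_mul.to_comp).comp (Computable.snd.comp Computable.snd) (Computable.const c)).to₂
  refine h.of_eq fun n => ?_
  induction n with
  | zero => rfl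
  | succ n ih => rw [pow_succ, ← ih]

theorem comp_ipow (c : ℕ) : Computable (fun n : ℕ => (c : ℤ) ^ n) := by
  refine (prim_natCast.to_comp.comp (comp_pow c)).of_eq fun n => ?_
  push_cast; rfl

theorem comp_nk : Computable nk := by
  unfold nk
  exact (Primrec.nat_add.to_comp).comp comp_unpair1 (Computable.const 3)

theorem comp_mk : Computable mk := by
  unfold mk
  refine Computable.option_getD ?_ ?_
  · have h := Nat.Partrec.Code.primrec_evaln.to_comp.comp (Computable.pair (Computable.pair comp_unpair2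
      (((Primrec.ofNat Nat.Partrec.Code).to_comp).comp comp_unpair1)) comp_nk)
    exact h
  · exact Computable.succ.comp ((comp_pow 2).comp (Computable.succ.comp comp_nk))

theorem comp_Dk : Computable Dk := by
  unfold Dk
  exact (prim_int_mul.to_comp).comp ((comp_ipow 2).comp comp_nk) ((comp_ipow 3).comp Computable.succ)

theorem comp_Ak : Computable Ak := by
  unfold Ak
  exact (prim_int_sub.to_comp).comp ((prim_int_mul.to_comp).comp ((comp_ipow 3).comp Computable.succ)
    (prim_natCast.to_comp.comp comp_mk)) (Computable.const 1)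

theorem comp_Bk : Computable Bk := by
  unfold Bk
  exact (prim_int_add.to_comp).comp ((prim_int_mul.to_comp).comp ((comp_ipow 3).comp Computable.succ)
    ((prim_int_add.to_comp).comp (prim_natCast.to_comp.comp comp_mk) (Computable.const 1)))
    (Computable.const 1)

theorem comp_gz : Computable₂ gz := by
  unfold gz
  have hk : Computable (fun q : ℕ × ℤ => q.1) := Computable.fst
  have hn : Computable (fun q : ℕ × ℤ => q.2) := Computable.snd
  have hk1 : Computable (fun q : ℕ × ℤ => q.1 - 1) :=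
    (Primrec.nat_sub.to_comp).comp hk (Computable.const 1)
  have hD := comp_Dk.comp hk1
  have hA := comp_Ak.comp hk1
  have hB := comp_Bk.comp hk1
  have mul : ∀ {f g : ℕ × ℤ → ℤ}, Computable f → Computable g → Computable (fun a => f a * g a) :=
    fun hf hg => prim_int_mul.to_comp.comp hf hg
  have sub : ∀ {f g : ℕ × ℤ → ℤ}, Computable f → Computable g → Computable (fun a => f a - g a) :=
    fun hf hg => prim_int_sub.to_comp.comp hf hg
  exact Computable.cond (comp_dec_eq hk (Computable.const 0)) (mul hn (sub (Computable.const 2) hn))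
    (mul (sub (mul hD hn) hA) (sub (mul hD hn) hB))

/-! ### arithmetic of the endpoints -/

theorem Ak_mod (k : ℕ) : ¬ (3 : ℤ) ∣ Ak k := by
  intro h
  unfold Ak at h
  have h1 : (3 : ℤ) ∣ 3 ^ (k + 1) * (mk k : ℤ) := Dvd.dvd.mul_right (dvd_pow_self 3 (by omega)) _
  have h2 := (Int.dvd_iff_dvd_of_dvd_sub h).1 h1
  omega

theorem Bk_mod (k : ℕ) : ¬ (3 : ℤ) ∣ Bk k := by
  intro h
  unfold Bk at h
  have h1 : (3 : ℤ) ∣ 3 ^ (k + 1) * ((mk k : ℤ) + 1) := Dvd.dvd.mul_right (dvd_pow_self 3 (by omega)) _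
  have h2 := (Int.dvd_add_right h1).1 h
  omega

theorem Ak_lt_Bk (k : ℕ) : Ak k < Bk k := by
  unfold Ak Bk
  have : (0 : ℤ) < 3 ^ (k + 1) := by positivity
  nlinarith

theorem Dk_pos (k : ℕ) : 0 < Dk k := by unfold Dk; positivity

theorem three_ne {a b : ℕ} (hab : a ≠ b) (u v : ℤ) (hu : ¬ (3 : ℤ) ∣ u) (hv : ¬ (3 : ℤ) ∣ v) :
    3 ^ a * u ≠ 3 ^ b * v := by
  intro h
  rcases lt_or_gt_of_ne hab with hlt | hlt
  · obtain ⟨d, rfl⟩ := Nat.exists_eq_add_of_lt hlt
    apply hu
    have h1 : (3 : ℤ) ^ a * u = 3 ^ a * (3 ^ (d + 1) * v) := by rw [h]; ring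
    have h2 := mul_left_cancel₀ (by positivity) h1
    rw [h2]
    exact Dvd.dvd.mul_right (dvd_pow_self 3 (by omega)) _
  · obtain ⟨d, rfl⟩ := Nat.exists_eq_add_of_lt hlt
    apply hv
    have h1 : (3 : ℤ) ^ b * v = 3 ^ b * (3 ^ (d + 1) * u) := by rw [← h]; ring
    have h2 := mul_left_cancel₀ (by positivity) h1
    rw [h2]
    exact Dvd.dvd.mul_right (dvd_pow_self 3 (by omega)) _

theorem not3_mul {u : ℤ} (n : ℕ) (hu : ¬ (3 : ℤ) ∣ u) : ¬ (3 : ℤ) ∣ 2 ^ n * u := by
  intro h
  have hp : Prime (3 : ℤ) := Int.prime_three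
  rcases hp.dvd_or_dvd h with h1 | h1
  · have := hp.dvd_of_dvd_pow h1
    omega
  · exact hu h1

theorem cross_ne (k l : ℕ) (hkl : k ≠ l) (u v : ℤ) (hu : ¬ (3 : ℤ) ∣ u) (hv : ¬ (3 : ℤ) ∣ v) :
    Dk l * u ≠ v * Dk k := by
  have h := three_ne (a := l + 1) (b := k + 1) (by omega) (2 ^ (nk l) * u) (2 ^ (nk k) * v)
    (not3_mul _ hu) (not3_mul _ hv)
  intro h2
  apply h
  unfold Dk at h2
  linarith

noncomputable def gQ (k : ℕ) : ℚ[X] := (gP k).map (Int.castRingHom ℚ)

theorem gQ_zero : gQ 0 = X * (C 2 - X) := by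
  simp only [gQ, gP, Polynomial.map_mul, Polynomial.map_sub, map_C, map_X]
  rfl

theorem gQ_succ (k : ℕ) : gQ (k + 1) =
    (C (Dk k : ℚ) * X - C (Ak k : ℚ)) * (C (Dk k : ℚ) * X - C (Bk k : ℚ)) := by
  simp only [gQ, gP, Polynomial.map_mul, Polynomial.map_sub, map_C, map_X]
  rfl

noncomputable def rt : ℕ → ℚ
  | 0 => 0
  | k + 1 => (Ak k : ℚ) / (Dk k : ℚ)

theorem gQ_factor (k : ℕ) : ∃ h : ℚ[X], gQ k = (X - C (rt k)) * h ∧ h.eval (rt k) ≠ 0 := by
  match k with
  | 0 =>
    refine ⟨C 2 - X, ?_, ?_⟩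
    · rw [gQ_zero]; simp [rt]
    · simp [rt]
  | k + 1 =>
    have hD : (Dk k : ℚ) ≠ 0 := by exact_mod_cast (Dk_pos k).ne'
    refine ⟨C (Dk k : ℚ) * (C (Dk k : ℚ) * X - C (Bk k : ℚ)), ?_, ?_⟩
    · rw [gQ_succ]
      simp only [rt]
      have : (C (Dk k : ℚ) * X - C (Ak k : ℚ) : ℚ[X]) = C (Dk k : ℚ) * (X - C ((Ak k : ℚ) / (Dk k : ℚ))) := by
        rw [mul_sub, ← C_mul, mul_div_cancel₀ _ hD]
      rw [this]
      ring
    · simp only [rt, eval_mul, eval_sub, eval_C, eval_X]
      rw [mul_div_cancel₀ _ hD]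
      apply mul_ne_zero hD
      have := Ak_lt_Bk k
      have h2 : (Ak k : ℚ) < Bk k := by exact_mod_cast this
      linarith

theorem gQ_other (k l : ℕ) (hkl : l ≠ k) : (gQ l).eval (rt k) ≠ 0 := by
  have hA : ∀ k, (Ak k : ℚ) ≠ 0 := by
    intro k h
    have : Ak k = 0 := by exact_mod_cast h
    exact Ak_mod k (this ▸ dvd_zero 3)
  have hB : ∀ k, (Bk k : ℚ) ≠ 0 := by
    intro k h
    have : Bk k = 0 := by exact_mod_cast h
    exact Bk_mod k (this ▸ dvd_zero 3)
  match k, l with
  | 0, 0 => exact absurd rfl hkl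
  | 0, l + 1 =>
    rw [gQ_succ]
    simp only [rt, eval_mul, eval_sub, eval_C, eval_X]
    simp [hA, hB]
  | k + 1, 0 =>
    have hD : (Dk k : ℚ) ≠ 0 := by exact_mod_cast (Dk_pos k).ne'
    rw [gQ_zero]
    simp only [rt, eval_mul, eval_sub, eval_C, eval_X]
    apply mul_ne_zero (div_ne_zero (hA k) hD)
    intro h
    have h1 : (2 : ℚ) * Dk k = Ak k := by
      field_simp at h
      linarith
    have h2 : 2 * Dk k = Ak k := by exact_mod_cast h1
    apply Ak_mod k
    rw [← h2]
    unfold Dk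
    exact Dvd.dvd.mul_left (Dvd.dvd.mul_left (dvd_pow_self 3 (by omega)) _) _
  | k + 1, l + 1 =>
    have hDk : (Dk k : ℚ) ≠ 0 := by exact_mod_cast (Dk_pos k).ne'
    have hkl' : k ≠ l := by omega
    rw [gQ_succ]
    simp only [rt, eval_mul, eval_sub, eval_C, eval_X]
    apply mul_ne_zero
    · intro h
      have h1 : (Dk l : ℚ) * Ak k = Ak l * Dk k := by
        field_simp at h
        linarith
      exact cross_ne k l hkl' (Ak k) (Ak l) (Ak_mod k) (Ak_mod l) (by exact_mod_cast h1)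
    · intro h
      have h1 : (Dk l : ℚ) * Ak k = Bk l * Dk k := by
        field_simp at h
        linarith
      exact cross_ne k l hkl' (Ak k) (Bk l) (Ak_mod k) (Bk_mod l) (by exact_mod_cast h1)

/-! ### products of the constraints are not squares -/

theorem prod_not_square (T : Finset ℕ) (hT : T.Nonempty) (r s : ℚ[X]) (hs : s ≠ 0)
    (h : (∏ k ∈ T, gQ k) * s ^ 2 = r ^ 2) : False := by
  classical
  obtain ⟨k0, hk0⟩ := hT
  obtain ⟨q, hq1, hq2⟩ := gQ_factor k0
  set a := rt k0 with ha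
  set R : ℚ[X] := q * ∏ k ∈ T.erase k0, gQ k with hR
  have hRa : R.eval a ≠ 0 := by
    rw [hR, eval_mul, eval_prod]
    apply mul_ne_zero hq2
    rw [Finset.prod_ne_zero_iff]
    intro k hk
    exact gQ_other k0 k (Finset.ne_of_mem_erase hk)
  have hprod : ∏ k ∈ T, gQ k = (X - C a) * R := by
    rw [← Finset.mul_prod_erase _ _ hk0, hq1, hR]; ring
  have hR0 : R ≠ 0 := by rintro h0; rw [h0] at hRa; simp at hRa
  have hX : (X - C a : ℚ[X]) ≠ 0 := X_sub_C_ne_zero a
  have h1 : ((X - C a) * R) * (s * s) = r * r := by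
    rw [← hprod, ← pow_two, ← pow_two]; exact h
  have hne : ((X - C a) * R) * (s * s) ≠ 0 := mul_ne_zero (mul_ne_zero hX hR0) (mul_ne_zero hs hs)
  have hr : r ≠ 0 := by
    rintro h0; rw [h1, h0] at hne; simp at hne
  have h2 := congrArg (rootMultiplicity a) h1
  rw [rootMultiplicity_mul hne, rootMultiplicity_mul (mul_ne_zero hX hR0),
    rootMultiplicity_mul (mul_ne_zero hs hs), rootMultiplicity_mul (mul_ne_zero hr hr),
    rootMultiplicity_X_sub_C_self, rootMultiplicity_eq_zero (p := R) (x := a) hRa] at h2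
  omega

/-! ### an uncovered transcendental number -/

open MeasureTheory in
theorem exists_z : ∃ z : ℝ, 0 < z ∧ z < 2 ∧ Transcendental ℤ z ∧
    ∀ k, (Dk k * z < Ak k ∨ Bk k < Dk k * z) := by
  classical
  let P : ℕ → ℕ → Prop := fun j m => m ∈ Nat.Partrec.Code.eval (Denumerable.ofNat Nat.Partrec.Code j) (j + 3)
  let J : ℕ → Set ℝ := fun j => if h : ∃ m, P j m then
    Set.Icc (((h.choose : ℝ) - 1) / 2 ^ (j + 3)) (((h.choose : ℝ) + 2) / 2 ^ (j + 3)) else ∅
  have hJ : ∀ j m, P j m → J j = Set.Icc (((m : ℝ) - 1) / 2 ^ (j + 3)) (((m : ℝ) + 2) / 2 ^ (j + 3)) := by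
    intro j m hm
    have h : ∃ m, P j m := ⟨m, hm⟩
    have h2 : h.choose = m := Part.mem_unique h.choose_spec hm
    simp only [J]
    rw [dif_pos h, h2]
  have hvol : ∀ j, volume (J j) ≤ ENNReal.ofReal (3 / 8 * (1 / 2) ^ j) := by
    intro j
    by_cases h : ∃ m, P j m
    · obtain ⟨m, hm⟩ := h
      rw [hJ j m hm, Real.volume_Icc]
      apply ENNReal.ofReal_le_ofReal
      have h2 : (0 : ℝ) < 2 ^ j := by positivity
      rw [pow_add, one_div, inv_pow]
      apply le_of_eq
      field_simp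
      ring
    · simp only [J]
      rw [dif_neg h]
      simp
  have hsum : volume (⋃ j, J j) ≤ ENNReal.ofReal (3 / 4) := by
    refine (measure_iUnion_le J).trans ?_
    refine (ENNReal.tsum_le_tsum hvol).trans ?_
    have hs : Summable (fun j : ℕ => (3 / 8 : ℝ) * (1 / 2) ^ j) :=
      (summable_geometric_of_lt_one (by norm_num) (by norm_num)).mul_left _
    rw [← ENNReal.ofReal_tsum_of_nonneg (fun j => by positivity) hs]
    apply ENNReal.ofReal_le_ofReal
    rw [tsum_mul_left, tsum_geometric_of_lt_one (by norm_num) (by norm_num)]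
    norm_num
  have halg : volume {x : ℝ | IsAlgebraic ℤ x} = 0 := (Algebraic.countable ℤ ℝ).measure_zero volume
  have hex : ∃ z ∈ Set.Ioo (0:ℝ) 2, z ∉ (⋃ j, J j) ∪ {x : ℝ | IsAlgebraic ℤ x} := by
    by_contra hcon
    push Not at hcon
    have h1 : volume (Set.Ioo (0:ℝ) 2) ≤ volume ((⋃ j, J j) ∪ {x : ℝ | IsAlgebraic ℤ x}) :=
      measure_mono hcon
    have h2 := h1.trans (measure_union_le _ _)
    rw [halg, add_zero, Real.volume_Ioo] at h2
    have h3 := h2.trans hsum
    rw [ENNReal.ofReal_le_ofReal_iff (by norm_num)] at h3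
    norm_num at h3
  obtain ⟨z, ⟨hz0, hz2⟩, hzn⟩ := hex
  rw [Set.mem_union, not_or] at hzn
  refine ⟨z, hz0, hz2, hzn.2, ?_⟩
  intro k
  have h3 : (0 : ℝ) < 3 ^ (k + 1) := by positivity
  have h2 : (0 : ℝ) < 2 ^ (nk k) := by positivity
  have hDr : ((Dk k : ℤ) : ℝ) = 2 ^ (nk k) * 3 ^ (k + 1) := by unfold Dk; push_cast; ring
  have hAr : ((Ak k : ℤ) : ℝ) = 3 ^ (k + 1) * (mk k : ℝ) - 1 := by unfold Ak; push_cast; ring
  have hBr : ((Bk k : ℤ) : ℝ) = 3 ^ (k + 1) * ((mk k : ℝ) + 1) + 1 := by unfold Bk; push_cast; ring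
  have h31 : (1 : ℝ) ≤ 3 ^ (k + 1) := one_le_pow₀ (by norm_num)
  rw [hDr, hAr, hBr]
  rcases hev : Nat.Partrec.Code.evaln k.unpair.2
      (Denumerable.ofNat Nat.Partrec.Code k.unpair.1) (nk k) with _ | m
  · have hmk : mk k = 2 ^ (nk k + 1) + 1 := by unfold mk; rw [hev]; rfl
    left
    rw [hmk]
    push_cast
    have : (2 : ℝ) ^ (nk k) * 3 ^ (k + 1) * z < 2 ^ (nk k) * 3 ^ (k + 1) * 2 :=
      mul_lt_mul_of_pos_left hz2 (by positivity)
    have e : (3 : ℝ) ^ (k + 1) * (2 ^ (nk k + 1) + 1) - 1 =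
      2 ^ (nk k) * 3 ^ (k + 1) * 2 + (3 ^ (k + 1) - 1) := by rw [pow_succ (2:ℝ) (nk k)]; ring
    rw [e]
    linarith
  · have hmk : mk k = m := by unfold mk; rw [hev]; rfl
    have hm : P k.unpair.1 m := Nat.Partrec.Code.evaln_sound hev
    have hzJ : z ∉ J k.unpair.1 := fun h => hzn.1 (Set.mem_iUnion.2 ⟨_, h⟩)
    rw [hJ _ m hm, Set.mem_Icc, not_and_or, not_le, not_le] at hzJ
    rw [hmk]
    have hnk : k.unpair.1 + 3 = nk k := rfl
    rw [hnk] at hzJ
    rcases hzJ with h | h
    · left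
      rw [lt_div_iff₀ h2] at h
      nlinarith
    · right
      rw [div_lt_iff₀ h2] at h
      nlinarith

/-! ### positive cones -/

section cone

variable {F : Type} [Field F] (P : Set F) (h0 : (0 : F) ∉ P)
  (hadd : ∀ x y : F, x ∈ P → y ∈ P → x + y ∈ P)
  (hmul : ∀ x y : F, x ∈ P → y ∈ P → x * y ∈ P)
  (htot : ∀ x : F, x ≠ 0 → x ∈ P ∨ -x ∈ P)

include hmul htot in
theorem sq_mem (x : F) (hx : x ≠ 0) : x ^ 2 ∈ P := by
  rcases htot x hx with h | h
  · rw [pow_two]; exact hmul _ _ h h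
  · have := hmul _ _ h h
    rw [pow_two]; rwa [neg_mul_neg] at this

include hmul htot in
theorem one_mem_cone : (1 : F) ∈ P := by
  have := sq_mem P hmul htot 1 one_ne_zero
  simpa using this

include hadd hmul htot in
theorem nat_mem_cone (n : ℕ) : ((n : F) + 1) ∈ P := by
  induction n with
  | zero => simpa using one_mem_cone P hmul htot
  | succ n ih =>
    push_cast
    exact hadd _ _ ih (one_mem_cone P hmul htot)

include h0 hadd in
theorem not_both (x : F) (h1 : x ∈ P) (h2 : -x ∈ P) : False := by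
  apply h0
  have := hadd _ _ h1 h2
  simpa using this

include hadd hmul htot in
theorem pow2_mem (n : ℕ) : (2 : F) ^ n ∈ P := by
  induction n with
  | zero => simpa using one_mem_cone P hmul htot
  | succ n ih =>
    rw [pow_succ]
    refine hmul _ _ ih ?_
    have := hadd _ _ (one_mem_cone P hmul htot) (one_mem_cone P hmul htot)
    rwa [one_add_one_eq_two] at this

include hadd hmul htot in
theorem pow3_mem (n : ℕ) : (3 : F) ^ n ∈ P := by
  induction n with
  | zero => simpa using one_mem_cone P hmul htot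
  | succ n ih =>
    rw [pow_succ]
    refine hmul _ _ ih ?_
    have := nat_mem_cone P hadd hmul htot 2
    have e : ((2 : ℕ) : F) + 1 = 3 := by norm_num
    rwa [e] at this

end cone

theorem comp_contra {F : Type} [Field F] (z : F) (y : ℕ → F) (hy0 : y 0 ^ 2 = z * (2 - z))
    (hyn0 : ∀ k, y k ≠ 0)
    (hy : ∀ k, y (k + 1) ^ 2 = ((Dk k : F) * z - (Ak k : F)) * ((Dk k : F) * z - (Bk k : F)))
    (e : ℕ ≃ F) (he1 : Computable₂ (fun a b : ℕ => e.symm (e a + e b)))
    (he3 : Computable (fun a : ℕ => e.symm (-(e a))))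
    (P : Set F) (hP : ComputablePred (fun a : ℕ => e a ∈ P)) (h0 : (0 : F) ∉ P)
    (hadd : ∀ x y : F, x ∈ P → y ∈ P → x + y ∈ P)
    (hmul : ∀ x y : F, x ∈ P → y ∈ P → x * y ∈ P)
    (htot : ∀ x : F, x ≠ 0 → x ∈ P ∨ -x ∈ P) : False := by
  have h1 := one_mem_cone P hmul htot
  have h2 : (2 : F) ∈ P := by
    have := hadd _ _ h1 h1
    rwa [one_add_one_eq_two] at this
  -- 0 < z < 2
  have hz2P : z * (2 - z) ∈ P := by rw [← hy0]; exact sq_mem P hmul htot _ (hyn0 0)
  have hz0 : z ≠ 0 := by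
    rintro hz
    have : y 0 ^ 2 = 0 := by rw [hy0, hz]; ring
    exact hyn0 0 (pow_eq_zero_iff (two_ne_zero) |>.1 this)
  have hz20 : (2 - z) ≠ 0 := by
    rintro hz
    have : y 0 ^ 2 = 0 := by rw [hy0, hz]; ring
    exact hyn0 0 (pow_eq_zero_iff (two_ne_zero) |>.1 this)
  have hzP : z ∈ P := by
    rcases htot z hz0 with h | h
    · exact h
    · exfalso
      have h3 : 2 - z ∈ P := by rw [sub_eq_add_neg]; exact hadd _ _ h2 h
      have h4 := hmul _ _ h h3
      rw [neg_mul] at h4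
      exact not_both P h0 hadd _ hz2P h4
  have hzP2 : 2 - z ∈ P := by
    rcases htot (2 - z) hz20 with h | h
    · exact h
    · exfalso
      have h4 := hmul _ _ hzP h
      rw [mul_neg] at h4
      exact not_both P h0 hadd _ hz2P h4
  -- codes
  obtain ⟨dec, hdec⟩ := hP
  obtain ⟨pw, hpw, hpwc⟩ : ∃ pw : ℕ → ℕ, (∀ n, e (pw n) = 2 ^ n * z) ∧ Computable pw := by
    refine ⟨fun n => Nat.rec (motive := fun _ => ℕ) (e.symm z) (fun _ IH => e.symm (e IH + e IH)) n,
      ?_, ?_⟩
    · intro n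
      induction n with
      | zero => simp
      | succ n ih =>
        simp only at ih ⊢
        rw [ih, pow_succ]
        simp only [Equiv.apply_symm_apply]
        ring
    · refine Computable.nat_rec (f := fun n => n) (g := fun _ => e.symm z)
        (h := fun _ p => e.symm (e p.2 + e p.2)) Computable.id (Computable.const _) ?_
      exact he1.comp (Computable.snd.comp Computable.snd) (Computable.snd.comp Computable.snd)
  obtain ⟨nm, hnm, hnmc⟩ : ∃ nm : ℕ → ℕ, (∀ n, e (nm n) = (n : F)) ∧ Computable nm := by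
    refine ⟨fun n => Nat.rec (motive := fun _ => ℕ) (e.symm 0)
      (fun _ IH => e.symm (e IH + e (e.symm 1))) n, ?_, ?_⟩
    · intro n
      induction n with
      | zero => simp
      | succ n ih =>
        simp only at ih ⊢
        rw [ih]
        simp
    · refine Computable.nat_rec (f := fun n => n) (g := fun _ => e.symm 0)
        (h := fun _ p => e.symm (e p.2 + e (e.symm 1))) Computable.id (Computable.const _) ?_
      exact he1.comp (Computable.snd.comp Computable.snd) (Computable.const _)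
  -- the test
  let tst : ℕ → ℕ → Bool := fun n m =>
    @decide (e (e.symm (e (nm (m + 1)) + e (e.symm (- e (pw n))))) ∈ P)
      (dec (e.symm (e (nm (m + 1)) + e (e.symm (- e (pw n))))))
  have htst : ∀ n m, tst n m = true ↔ ((m : F) + 1) - 2 ^ n * z ∈ P := by
    intro n m
    refine (@decide_eq_true_iff _ (dec _)).trans ?_
    show e (e.symm (e (nm (m + 1)) + e (e.symm (- e (pw n))))) ∈ P ↔ _
    simp only [Equiv.apply_symm_apply, hnm, hpw]
    push_cast
    rw [← sub_eq_add_neg]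
  have htc : Computable₂ tst := by
    have hc1 : Computable (fun q : ℕ × ℕ => nm (q.2 + 1)) :=
      hnmc.comp (Computable.succ.comp Computable.snd)
    have hc2 : Computable (fun q : ℕ × ℕ => e.symm (- e (pw q.1))) :=
      he3.comp (hpwc.comp Computable.fst)
    have h := hdec.comp (he1.comp hc1 hc2)
    exact h
  have hex : ∀ n, ∃ m, tst n m = true := by
    intro n
    refine ⟨2 ^ (n + 1) - 1, ?_⟩
    rw [htst]
    have h3 : ((2 ^ (n + 1) - 1 : ℕ) : F) + 1 = 2 ^ (n + 1) := by
      have : 1 ≤ 2 ^ (n + 1) := Nat.one_le_two_pow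
      push_cast [Nat.cast_sub this]
      ring
    rw [h3]
    have h4 : (2 : F) ^ (n + 1) - 2 ^ n * z = 2 ^ n * (2 - z) := by ring
    rw [h4]
    exact hmul _ _ (pow2_mem P hadd hmul htot n) hzP2
  have hfc : Computable (fun n => Nat.find (hex n)) := comp_find tst htc hex
  obtain ⟨c, hc⟩ := Nat.Partrec.Code.exists_code.1 (Partrec.nat_iff.1 hfc.partrec)
  set j := encode c with hj
  have hmem : Nat.find (hex (j + 3)) ∈ Nat.Partrec.Code.eval c (j + 3) := by
    rw [hc]; exact Part.mem_some _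
  obtain ⟨s, hs⟩ := Nat.Partrec.Code.evaln_complete.1 hmem
  set k := Nat.pair j s with hk
  have hk1 : k.unpair.1 = j := by rw [hk, Nat.unpair_pair]
  have hk2 : k.unpair.2 = s := by rw [hk, Nat.unpair_pair]
  have hnk : nk k = j + 3 := by unfold nk; rw [hk1]
  have hmk : mk k = Nat.find (hex (nk k)) := by
    rw [hnk]
    unfold mk
    rw [hk1, hk2, hnk, hj, Denumerable.ofNat_encode]
    rw [← hj]
    rw [show Nat.Partrec.Code.evaln s c (j + 3) = some (Nat.find (hex (j + 3))) from hs]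
    rfl
  have hspec := (htst _ _).1 (Nat.find_spec (hex (nk k)))
  rw [← hmk] at hspec
  -- lower bound
  have hlow : 2 ^ (nk k) * z - (mk k : F) ∈ P ∨ 2 ^ (nk k) * z - (mk k : F) = 0 := by
    rcases Nat.eq_zero_or_pos (mk k) with hm | hm
    · left
      rw [hm]
      simp only [Nat.cast_zero, sub_zero]
      exact hmul _ _ (pow2_mem P hadd hmul htot _) hzP
    · obtain ⟨m', hm'⟩ := Nat.exists_eq_succ_of_ne_zero (Nat.pos_iff_ne_zero.1 hm)
      have h5 : ¬ (tst (nk k) m' = true) := by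
        apply Nat.find_min (hex (nk k))
        rw [← hmk, hm']
        exact Nat.lt_succ_self _
      rw [htst] at h5
      have h6 : (m' : F) + 1 = (mk k : F) := by rw [hm']; push_cast; ring
      rw [h6] at h5
      by_cases h7 : 2 ^ (nk k) * z - (mk k : F) = 0
      · right; exact h7
      · left
        rcases htot _ h7 with h8 | h8
        · exact h8
        · rw [neg_sub] at h8
          exact absurd h8 h5
  have h31 := pow3_mem P hadd hmul htot (k + 1)
  have hA : (Dk k : F) * z - (Ak k : F) ∈ P := by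
    have e1 : (Dk k : F) * z - (Ak k : F) = 3 ^ (k + 1) * (2 ^ (nk k) * z - (mk k : F)) + 1 := by
      unfold Dk Ak; push_cast; ring
    rw [e1]
    rcases hlow with h | h
    · exact hadd _ _ (hmul _ _ h31 h) h1
    · rw [h]; simpa using h1
  have hB : -((Dk k : F) * z - (Bk k : F)) ∈ P := by
    have e1 : -((Dk k : F) * z - (Bk k : F)) = 3 ^ (k + 1) * ((mk k : F) + 1 - 2 ^ (nk k) * z) + 1 := by
      unfold Dk Bk; push_cast; ring
    rw [e1]
    exact hadd _ _ (hmul _ _ h31 hspec) h1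
  have hneg := hmul _ _ hA hB
  rw [mul_neg, ← hy k] at hneg
  exact not_both P h0 hadd _ (sq_mem P hmul htot _ (hyn0 (k + 1))) hneg

theorem main_result :
    ¬ (∀ (F : Type) [Field F],
      (∀ (n : ℕ) (c : Fin n → F), ∑ i, c i ^ 2 = 0 → ∀ i, c i = 0) →
      (∃ e : ℕ ≃ F,
        Computable₂ (fun a b : ℕ => e.symm (e a + e b)) ∧
        Computable₂ (fun a b : ℕ => e.symm (e a * e b)) ∧
        Computable (fun a : ℕ => e.symm (-(e a))) ∧
        Computable (fun a : ℕ => e.symm ((e a)⁻¹))) →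
      ∃ e : ℕ ≃ F,
        Computable₂ (fun a b : ℕ => e.symm (e a + e b)) ∧
        Computable₂ (fun a b : ℕ => e.symm (e a * e b)) ∧
        Computable (fun a : ℕ => e.symm (-(e a))) ∧
        Computable (fun a : ℕ => e.symm ((e a)⁻¹)) ∧
        ∃ P : Set F,
          ComputablePred (fun a : ℕ => e a ∈ P) ∧
          (0 : F) ∉ P ∧
          (∀ x y : F, x ∈ P → y ∈ P → x + y ∈ P) ∧
          (∀ x y : F, x ∈ P → y ∈ P → x * y ∈ P) ∧
          (∀ x : F, x ≠ 0 → x ∈ P ∨ -x ∈ P)) := by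
  intro hall
  obtain ⟨z, hz0, hz2, htr, hJ⟩ := exists_z
  have hgpos : ∀ k, 0 < aeval z (gP k) := by
    intro k
    match k with
    | 0 =>
      simp only [gP, map_mul, map_sub, aeval_X, aeval_C]
      simp only [algebraMap_int_eq, eq_intCast]
      push_cast
      exact mul_pos hz0 (by linarith)
    | k + 1 =>
      simp only [gP, map_mul, map_sub, aeval_X, aeval_C]
      simp only [algebraMap_int_eq, eq_intCast]
      have hAB : ((Ak k : ℤ) : ℝ) < Bk k := by exact_mod_cast Ak_lt_Bk k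
      rcases hJ k with h | h
      · exact mul_pos_of_neg_of_neg (by linarith) (by linarith)
      · exact mul_pos (by linarith) (by linarith)
  let y : ℕ → ℝ := fun k => Real.sqrt (aeval z (gP k))
  have hy : ∀ k, y k ^ 2 = aeval z (gP k) := fun k => Real.sq_sqrt (hgpos k).le
  have hyn : ∀ k, y k ≠ 0 := fun k => (Real.sqrt_pos.2 (hgpos k)).ne'
  have hz : ∀ P : ℤ[X], aeval z P = 0 → P = 0 := by
    intro P hP
    by_contra hne
    exact htr ⟨P, hne, hP⟩
  have htrQ : Transcendental ℚ z := by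
    intro h
    exact htr ((IsFractionRing.isAlgebraic_iff ℤ ℚ ℝ).2 h)
  let K : Subfield ℝ := (IntermediateField.adjoin ℚ {z}).toSubfield
  have hzK1 : z ∈ K := IntermediateField.mem_adjoin_simple_self ℚ z
  have hzK : ∀ P : ℤ[X], aeval z P ∈ K := by
    intro P
    rw [aeval_eq_sum_range]
    refine K.sum_mem fun i _ => ?_
    rw [zsmul_eq_mul]
    exact K.mul_mem (intCast_mem K _) (K.pow_mem hzK1 i)
  have hns : ∀ T : Finset ℕ, T.Nonempty → ∏ k ∈ T, y k ∉ K := by
    intro T hT hmem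
    have hmem' : ∏ k ∈ T, y k ∈ IntermediateField.adjoin ℚ {z} := hmem
    rw [IntermediateField.mem_adjoin_simple_iff] at hmem'
    obtain ⟨r, s, hrs⟩ := hmem'
    have hprod0 : ∏ k ∈ T, y k ≠ 0 := Finset.prod_ne_zero_iff.2 (fun k _ => hyn k)
    have hs0 : aeval z s ≠ 0 := by
      intro h
      rw [h, div_zero] at hrs
      exact hprod0 hrs
    have hs : s ≠ 0 := by rintro rfl; simp at hs0
    apply prod_not_square T hT r s hs
    have hQ : ∀ k, aeval z (gQ k) = aeval z (gP k) := by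
      intro k
      unfold gQ
      exact aeval_map_algebraMap ℚ z (gP k)
    have h1 : aeval z ((∏ k ∈ T, gQ k) * s ^ 2 - r ^ 2) = 0 := by
      rw [map_sub, map_mul, map_prod, map_pow, map_pow]
      simp only [hQ, ← hy]
      rw [Finset.prod_pow, hrs]
      field_simp
      ring
    have h2 : (∏ k ∈ T, gQ k) * s ^ 2 - r ^ 2 = 0 := by
      by_contra hne
      exact htrQ ⟨_, hne, h1⟩
    exact sub_eq_zero.1 h2
  have hzt : ∀ p, zt gz p = true ↔ pv z y p = 0 := by
    intro p
    rw [zt_iff gz gP gz_eq gP_deg, pv_zero_iff gP z y hy hz K hzK hns]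
  let F := FF gz z y hzt
  obtain ⟨e, he1, he2, he3, he4⟩ := FF_numbering gz comp_gz z y hzt
  refine absurd (hall F ?_ ⟨e, he1, he2, he3, he4⟩) ?_
  · intro n c hc i
    have hc' : ∑ i, ((c i : F) : ℝ) ^ 2 = 0 := by
      have := congrArg (Subtype.val : F → ℝ) hc
      push_cast at this
      exact this
    have h5 := (Finset.sum_eq_zero_iff_of_nonneg (fun i _ => sq_nonneg ((c i : F) : ℝ))).1 hc' i
      (Finset.mem_univ i)
    apply Subtype.ext
    exact pow_eq_zero_iff (two_ne_zero) |>.1 h5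
  · rintro ⟨e', h1, h2, h3, h4, P, hP, h0, hadd, hmul, htot⟩
    let zF : F := ⟨z, z_mem gz z y hzt⟩
    let yF : ℕ → F := fun k => ⟨y k, y_mem gz z y hzt k⟩
    refine comp_contra zF yF ?_ ?_ ?_ e' h1 h3 P hP h0 hadd hmul htot
    · apply Subtype.ext
      show y 0 ^ 2 = z * (2 - z)
      rw [hy]
      simp only [gP, map_mul, map_sub, aeval_X, aeval_C]
      simp
    · intro k h
      exact hyn k (congrArg Subtype.val h)
    · intro k
      apply Subtype.ext
      show y (k + 1) ^ 2 = _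
      rw [hy]
      simp only [gP, map_mul, map_sub, aeval_X, aeval_C]
      simp only [algebraMap_int_eq, eq_intCast]
      push_cast
      rfl



/-- The negation of the preceding statement: Every formally real field that has a computable presentation on ℕ also has some computable presentation on ℕ in which some field ordering (given by its positive cone) is computable. -/
theorem result :
    ¬ (∀ (F : Type) [Field F],
      (∀ (n : ℕ) (c : Fin n → F), ∑ i, c i ^ 2 = 0 → ∀ i, c i = 0) →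
      (∃ e : ℕ ≃ F,
        Computable₂ (fun a b : ℕ => e.symm (e a + e b)) ∧
        Computable₂ (fun a b : ℕ => e.symm (e a * e b)) ∧
        Computable (fun a : ℕ => e.symm (-(e a))) ∧
        Computable (fun a : ℕ => e.symm ((e a)⁻¹))) →
      ∃ e : ℕ ≃ F,
        Computable₂ (fun a b : ℕ => e.symm (e a + e b)) ∧
        Computable₂ (fun a b : ℕ => e.symm (e a * e b)) ∧
        Computable (fun a : ℕ => e.symm (-(e a))) ∧
        Computable (fun a : ℕ => e.symm ((e a)⁻¹)) ∧
        ∃ P : Set F,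
          ComputablePred (fun a : ℕ => e a ∈ P) ∧
          (0 : F) ∉ P ∧
          (∀ x y : F, x ∈ P → y ∈ P → x + y ∈ P) ∧
          (∀ x y : F, x ∈ P → y ∈ P → x * y ∈ P) ∧
          (∀ x : F, x ≠ 0 → x ∈ P ∨ -x ∈ P)) := by
  exact main_result

end Pool.Agent.S09412
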