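import Pool.Statements.S09413
import Pool.Agent.Helper336.Main2

set_option autoImplicit false
open Pool Pool.MP_5c6631_lc

namespace Pool.Agent.S09413

/-- For every n, the set of binary words that lie in (ab*)^n and are primitive (not a k-fold repetition of a shorter word for any k ≥ 2) is a context-free language. -/
theorem result :
    ∀ n : ℕ, Language.IsContextFree
      (({w : List Bool |
          (∃ ks : List ℕ, ks.length = n ∧
              w = (ks.map (fun k => true :: List.replicate k false)).flatten) ∧
          (∀ u : List Bool, ∀ k : ℕ, (List.replicate k u).flatten = w → k = 1)}) :
        Language Bool) := by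
  intro n
  exact Pool.Agent.Helper336.PW.main_of_comb Pool.Agent.Helper336.PW.mainComb n

end Pool.Agent.S09413
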