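import Pool.Statements.S09428
import Pool.Agent.Helper844.FC.Schaeffer

set_option autoImplicit false
open Pool Pool.MP_5f7953_lc

namespace Pool.Agent.S09428

/-- The negation of the preceding statement: There is an algorithm that, given a word B, decides whether in every group every word lies in the smallest word set containing the variables and B, closed under substitution and under replacement by words identically equal on that group. -/
theorem result :
    ¬ (ComputablePred (fun w : List (ℕ × Bool) =>
    ∀ (G : Type) [Group G], ∀ A : FreeGroup ℕ,
      ∀ S : Set (FreeGroup ℕ),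
        (∀ i : ℕ, FreeGroup.of i ∈ S) →
        FreeGroup.mk w ∈ S →
        (∀ C ∈ S, ∀ σ : ℕ → FreeGroup ℕ, (∀ i, σ i ∈ S) → FreeGroup.lift σ C ∈ S) →
        (∀ C ∈ S, ∀ C' : FreeGroup ℕ,
            (∀ f : ℕ → G, FreeGroup.lift f C = FreeGroup.lift f C') → C' ∈ S) →
        A ∈ S)) := by
  intro hp
  exact Pool.Agent.Helper844.FC.undecidable_single
    (hp.of_eq fun w => Pool.Agent.Helper844.FC.frozen_iff w)

end Pool.Agent.S09428
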