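import Pool.Statements.S09429
import Pool.Agent.H65.HalfFam.Family

set_option autoImplicit false
open Pool Pool.MP_5fa381_lc

namespace Pool.Agent.S09429

open Pool.Agent.H65.HalfFam

/-- There is a family of finite subsets of ω₁, compact in the product topology of {0,1}^ω₁, closed under subsets, containing all singletons, such that every finite set A has a member B ⊆ A with 2∣B∣ ≥ ∣A∣. -/
theorem result :
    ∃ X : Type, Cardinal.mk X = Cardinal.aleph 1 ∧
      ∃ K : Set (X → Bool),
        IsCompact K ∧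
        (∀ f ∈ K, {x : X | f x = true}.Finite) ∧
        (∀ f ∈ K, ∀ g : X → Bool, (∀ x, g x = true → f x = true) → g ∈ K) ∧
        (∀ x : X, ∃ f ∈ K, {y : X | f y = true} = {x}) ∧
        (∀ A : Finset X, ∃ f ∈ K, ∃ B : Finset X,
          B ⊆ A ∧ A.card ≤ 2 * B.card ∧ ∀ y : X, f y = true ↔ y ∈ B) := by
  classical
  refine ⟨(Cardinal.aleph 1).ord.ToType, by simp, ?_⟩
  have hcount : ∀ δ : (Cardinal.aleph 1).ord.ToType, (Set.Iio δ).Countable := by
    intro δ
    have h := Cardinal.mk_Iio_ord_toType δ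
    rw [← Cardinal.le_aleph0_iff_set_countable]
    rw [← Order.lt_succ_iff, ← Cardinal.aleph_zero, ← Cardinal.aleph_succ]
    simpa using h
  obtain ⟨ρ, ha, hb, hc⟩ := exists_rho hcount
  have hcfin : ∀ (c : (Cardinal.aleph 1).ord.ToType) (m : ℕ), {a | a < c ∧ ρ a c ≤ m}.Finite := by
    intro c m
    exact Set.finite_of_encard_le_coe (hc c m)
  refine ⟨K ρ, isCompact_K ρ, fun f hf => finite_of_mem_K ρ hcfin f hf, K_hereditary ρ, ?_, ?_⟩
  · intro x
    refine ⟨fun y => decide (y = x), mem_K_of_fam ρ (fam_singleton ρ x) _ (fun y => by simp), ?_⟩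
    ext y
    simp
  · intro A
    obtain ⟨B, hBA, hcard, hF⟩ := half ρ ha hb hc A
    exact ⟨fun y => decide (y ∈ B), mem_K_of_fam ρ hF _ (fun y => by simp), B, hBA, hcard,
      fun y => by simp⟩

end Pool.Agent.S09429

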