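import Pool.Statements.S09443
-- import your own Pool.Agent.* helpers here

set_option autoImplicit false
open Pool Pool.MP_655bfb_lc

/-!
# The cardinality theorem for finite automata

Proof outline.  Call a relation on tuples of words *regular* (`KK.Reg`) when the synchronous
(blank-padded) reading of the tuple has finitely many residuals; these relations are closed under
Boolean combinations, substitutions and the quantifier `∃ word`.

Fix an automaton which excludes one of the `n + 1` values of the count.  For a finite labelled tuple
of words let `GG k` say: for every word `y₁` there is a bit `b₁`, …, for every word `y_k` there is a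
bit `b_k` such that the whole labelled tuple satisfies all constraints printed by the automaton.
Let `TT k r` say that there is a binary tree of depth `r` with words at its inner nodes such that all
`2 ^ r` ways of extending the labelled tuple along the branches satisfy `GG k`.

* Both are regular, and the true labels always satisfy `GG k`.
* If `k` is at least the number of inner nodes, a tree of depth `r` gives a Littlestone tree of depth
  `r` for the functions `h` which satisfy the constraints on the finitely many words of the tree.
* A Littlestone tree of depth `ff (n + 1) (n + 1)` contains a threshold chain of length `n + 1`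
  in one of two orientations (`KK.LT_chain`), hence `n` words on which all `n + 1` values of
  the count occur; the automaton prints only `n` values, a contradiction.
* So there is a least `r + 1` such that some truthfully labelled tuple has no tree of depth `r + 1`.
  Fix such a tuple; then `x ∈ A` iff the tuple extended by `(x, true)` has a tree of depth `r`,
  which is a regular condition on `x`.
-/

namespace Pool.Agent.S09443

namespace KK
section Reg
variable {α : Type}

/-- a tuple of words read up to position `N` -/
structure Ix (α V : Type) where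
  N : ℕ
  u : V → List α
  le : ∀ v, (u v).length ≤ N

/-- admissible continuations: finished words are not continued -/
def Ok {V : Type} (i : Ix α V) (s : V → List α) : Prop := ∀ v, (i.u v).length < i.N → s v = []

def res {V : Type} (R : (V → List α) → Prop) (i : Ix α V) : Set (V → List α) :=
  {s | Ok i s ∧ R (fun v => i.u v ++ s v)}

/-- regular relations: finitely many residuals -/
def Reg {V : Type} (R : (V → List α) → Prop) : Prop := (Set.range (res R)).Finite

def md {V : Type} (i : Ix α V) : Set V := {v | (i.u v).length < i.N}

lemma factor {I β γ : Type} {f : I → β} (h : I → γ) (g : γ → β) (hfin : (Set.range h).Finite)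
    (hf : ∀ i, f i = g (h i)) : (Set.range f).Finite := by
  apply (hfin.image g).subset
  rintro _ ⟨i, rfl⟩
  exact ⟨h i, Set.mem_range_self i, (hf i).symm⟩

lemma fin_prod {I β γ : Type} {f : I → β} {g : I → γ} (hf : (Set.range f).Finite)
    (hg : (Set.range g).Finite) : (Set.range fun i => (f i, g i)).Finite := by
  apply (hf.prod hg).subset
  rintro _ ⟨i, rfl⟩
  exact ⟨Set.mem_range_self i, Set.mem_range_self i⟩

lemma fin_pi {I ι : Type} [Finite ι] {γ : Type} {f : ι → I → γ}
    (hf : ∀ j, (Set.range (f j)).Finite) : (Set.range fun i j => f j i).Finite := by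
  apply (Set.Finite.pi' hf).subset
  rintro _ ⟨i, rfl⟩ j
  exact Set.mem_range_self i

lemma fin_md {V : Type} [Finite V] : (Set.range (md : Ix α V → Set V)).Finite := Set.toFinite _

lemma reg_bool {V ι : Type} [Finite V] [Finite ι] {R : ι → (V → List α) → Prop}
    (hR : ∀ j, Reg (R j)) (B : (ι → Prop) → Prop) : Reg (fun w => B (fun j => R j w)) := by
  unfold Reg
  apply factor (h := fun i : Ix α V => (md i, fun j => res (R j) i))
    (g := fun p => {s | (∀ v ∈ p.1, s v = []) ∧ B (fun j => s ∈ p.2 j)})
  · exact fin_prod fin_md (fin_pi hR)
  · intro i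
    ext s
    constructor
    · rintro ⟨h1, h2⟩
      refine ⟨h1, ?_⟩
      have e : (fun j => s ∈ res (R j) i) = fun j => R j (fun v => i.u v ++ s v) := by
        funext j
        exact propext ⟨fun h => h.2, fun h => ⟨h1, h⟩⟩
      show B (fun j => s ∈ res (R j) i)
      rw [e]; exact h2
    · rintro ⟨h1, h2⟩
      refine ⟨h1, ?_⟩
      have e : (fun j => s ∈ res (R j) i) = fun j => R j (fun v => i.u v ++ s v) := by
        funext j
        exact propext ⟨fun h => h.2, fun h => ⟨h1, h⟩⟩
      show B (fun j => R j (fun v => i.u v ++ s v))
      rw [← e]; exact h2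

/-- extension of a tuple by one entry -/
def ext {V β : Type} (w : V → β) (x : β) : Option V → β := fun o => o.elim x w

@[simp] lemma ext_none {V β : Type} (w : V → β) (x : β) : ext w x none = x := rfl
@[simp] lemma ext_some {V β : Type} (w : V → β) (x : β) (v : V) : ext w x (some v) = w v := rfl

lemma ext_append {V : Type} (u s : V → List α) (y z : List α) :
    (fun o => ext u y o ++ ext s z o) = ext (fun v => u v ++ s v) (y ++ z) := by
  funext o; cases o <;> rfl

lemma reg_exists {V : Type} {R : (Option V → List α) → Prop} (hR : Reg R) :
    Reg (fun w : V → List α => ∃ x, R (ext w x)) := by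
  unfold Reg
  apply factor (h := fun i : Ix α V => {X | ∃ (y : List α) (hy : y.length ≤ i.N),
      X = res R ⟨i.N, ext i.u y, fun o => by cases o; exacts [hy, i.le _]⟩})
    (g := fun 𝒳 => {s | ∃ X ∈ 𝒳, ∃ z, ext s z ∈ X})
  · apply hR.finite_subsets.subset
    rintro _ ⟨i, rfl⟩
    rintro X ⟨y, hy, rfl⟩
    exact Set.mem_range_self _
  · intro i
    ext s
    constructor
    · rintro ⟨h1, x, h2⟩
      refine ⟨_, ⟨x.take i.N, by simp, rfl⟩, x.drop i.N, ?_, ?_⟩
      · intro o ho
        cases o with
        | none =>
          simp only [ext_none] at ho ⊢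
          rw [List.length_take] at ho
          apply List.drop_eq_nil_of_le
          omega
        | some v => exact h1 v ho
      · rw [ext_append, List.take_append_drop]
        exact h2
    · rintro ⟨X, ⟨y, hy, rfl⟩, z, h1, h2⟩
      refine ⟨fun v hv => h1 (some v) hv, y ++ z, ?_⟩
      rw [ext_append] at h2
      exact h2

lemma reg_subst {U V : Type} [Finite V] {R : (U → List α) → Prop} (hR : Reg R) (f : U → V) :
    Reg (fun w : V → List α => R (fun a => w (f a))) := by
  unfold Reg
  apply factor (h := fun i : Ix α V => (md i, res R ⟨i.N, fun a => i.u (f a), fun a => i.le (f a)⟩))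
    (g := fun p => {s | (∀ v ∈ p.1, s v = []) ∧ (fun a => s (f a)) ∈ p.2})
  · apply fin_prod fin_md
    apply hR.subset
    rintro _ ⟨i, rfl⟩
    exact Set.mem_range_self _
  · intro i
    ext s
    constructor
    · rintro ⟨h1, h2⟩
      exact ⟨h1, fun a ha => h1 (f a) ha, h2⟩
    · rintro ⟨h1, h2, h3⟩
      exact ⟨h1, h3⟩

lemma reg_eq {V : Type} [Finite V] (a b : V) : Reg (fun w : V → List α => w a = w b) := by
  unfold Reg
  apply factor (h := fun i : Ix α V => (md i, (i.u a = i.u b)))
    (g := fun p => {s | (∀ v ∈ p.1, s v = []) ∧ p.2 ∧ s a = s b})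
  · exact fin_prod fin_md (Set.toFinite _)
  · intro i
    ext s
    constructor
    · rintro ⟨h1, h2⟩
      refine ⟨h1, ?_⟩
      rcases (i.le a).lt_or_eq with ha | ha
      · have sa := h1 a ha
        rcases (i.le b).lt_or_eq with hb | hb
        · have sb := h1 b hb
          simp only [sa, sb, List.append_nil] at h2
          exact ⟨h2, by rw [sa, sb]⟩
        · exfalso
          have := congrArg List.length h2
          simp only [sa, List.length_append, List.length_nil] at this
          omega
      · rcases (i.le b).lt_or_eq with hb | hb
        · exfalso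
          have sb := h1 b hb
          have := congrArg List.length h2
          simp only [sb, List.length_append, List.length_nil] at this
          omega
        · exact List.append_inj h2 (ha.trans hb.symm)
    · rintro ⟨h1, h2, h3⟩
      exact ⟨h1, by show i.u a ++ s a = i.u b ++ s b; rw [h2, h3]⟩


section Run

variable {k n : ℕ} (step : Fin k → (Fin n → Option α) → Fin k)

open Classical in
/-- frozen step: blank columns are ignored -/
noncomputable def fst' (q : Fin k) (c : Fin n → Option α) : Fin k :=
  if ∀ j, c j = none then q else step q c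

noncomputable def rn (w : Fin n → List α) (q : Fin k) : ℕ → Fin k
  | 0 => q
  | N + 1 => fst' step (rn w q N) (fun j => (w j)[N]?)

lemma rn_congr (w w' : Fin n → List α) (q : Fin k) (N : ℕ)
    (h : ∀ m < N, ∀ j, (w j)[m]? = (w' j)[m]?) : rn step w q N = rn step w' q N := by
  induction N with
  | zero => rfl
  | succ N ih =>
    unfold rn
    rw [ih (fun m hm => h m (by omega))]
    congr 1
    funext j
    exact h N (by omega) j

lemma rn_add (w s : Fin n → List α) (q : Fin k) (N M : ℕ)
    (h : ∀ m, ∀ j, (w j)[N + m]? = (s j)[m]?) :
    rn step w q (N + M) = rn step s (rn step w q N) M := by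
  induction M with
  | zero => rfl
  | succ M ih =>
    rw [← add_assoc]
    show fst' step (rn step w q (N + M)) _ = fst' step (rn step s (rn step w q N) M) _
    rw [ih]
    congr 1
    funext j
    exact h M j

lemma rn_stable (w : Fin n → List α) (q : Fin k) (N : ℕ) (h : ∀ j, (w j).length ≤ N) (M : ℕ) :
    rn step w q (N + M) = rn step w q N := by
  induction M with
  | zero => rfl
  | succ M ih =>
    rw [← add_assoc]
    show fst' step (rn step w q (N + M)) _ = _
    unfold fst'
    rw [if_pos, ih]
    intro j
    exact List.getElem?_eq_none (by have := h j; omega)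

lemma rn_foldl (w : Fin n → List α) (q : Fin k) (N : ℕ)
    (h : ∀ m < N, ∃ j, m < (w j).length) :
    rn step w q N = List.foldl step q ((List.range N).map fun i j => (w j)[i]?) := by
  induction N with
  | zero => rfl
  | succ N ih =>
    rw [List.range_succ, List.map_append, List.foldl_append, ← ih (fun m hm => h m (by omega))]
    show fst' step (rn step w q N) _ = step (rn step w q N) _
    unfold fst'
    rw [if_neg]
    intro hcon
    obtain ⟨j, hj⟩ := h N (by omega)
    have h1 : (w j)[N]? = none := hcon j
    rw [List.getElem?_eq_getElem hj] at h1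
    exact absurd h1 (by simp)

lemma rn_eq (w : Fin n → List α) (q : Fin k) (N : ℕ) (hN : ∀ j, (w j).length ≤ N) :
    List.foldl step q ((List.range (Finset.univ.sup fun j => (w j).length)).map
      fun i j => (w j)[i]?) = rn step w q N := by
  have hsup : ∀ j, (w j).length ≤ Finset.univ.sup fun j => (w j).length := fun j =>
    Finset.le_sup (f := fun j => (w j).length) (Finset.mem_univ j)
  rw [← rn_foldl]
  · have h1 : (Finset.univ.sup fun j => (w j).length) ≤ N := Finset.sup_le fun j _ => hN j
    obtain ⟨M, hM⟩ := Nat.exists_eq_add_of_le h1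
    rw [hM, rn_stable step w q _ hsup M]
  · intro m hm
    rw [Finset.lt_sup_iff] at hm
    obtain ⟨j, _, hj⟩ := hm
    exact ⟨j, hj⟩

lemma reg_run (start : Fin k) (out : Fin k → Finset ℕ) (c : ℕ) :
    Reg (fun w : Fin n → List α => c ∈ out (List.foldl step start
      ((List.range (Finset.univ.sup fun j => (w j).length)).map fun i j => (w j)[i]?))) := by
  unfold Reg
  apply factor (h := fun i : Ix α (Fin n) => (md i, rn step i.u start i.N))
    (g := fun p => {s | (∀ v ∈ p.1, s v = []) ∧
      c ∈ out (rn step s p.2 (Finset.univ.sup fun j => (s j).length))})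
  · exact fin_prod fin_md (Set.toFinite _)
  · intro i
    ext s
    have key : Ok i s → List.foldl step start
        ((List.range (Finset.univ.sup fun j => (i.u j ++ s j).length)).map
          fun m j => (i.u j ++ s j)[m]?) =
        rn step s (rn step i.u start i.N) (Finset.univ.sup fun j => (s j).length) := by
      intro h1
      have hle : ∀ j, (s j).length ≤ Finset.univ.sup fun j => (s j).length := fun j =>
        Finset.le_sup (f := fun j => (s j).length) (Finset.mem_univ j)
      rw [rn_eq step (fun j => i.u j ++ s j) start (i.N + Finset.univ.sup fun j => (s j).length)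
        (fun j => by rw [List.length_append]; exact add_le_add (i.le j) (hle j))]
      rw [rn_add step (fun j => i.u j ++ s j) s start i.N]
      · congr 1
        apply rn_congr
        intro m hm j
        rcases lt_or_ge m (i.u j).length with h | h
        · rw [List.getElem?_append_left h]
        · have : s j = [] := h1 j (by omega)
          rw [this, List.append_nil]
      · intro m j
        rcases (i.le j).lt_or_eq with h | h
        · have : s j = [] := h1 j h
          rw [this, List.append_nil]
          rw [List.getElem?_eq_none (by omega), List.getElem?_nil]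
        · rw [List.getElem?_append_right (by omega), h, Nat.add_sub_cancel_left]
    constructor
    · rintro ⟨h1, h2⟩
      refine ⟨h1, ?_⟩
      show c ∈ out (rn step s (rn step i.u start i.N) (Finset.univ.sup fun j => (s j).length))
      rw [← key h1]
      exact h2
    · rintro ⟨h1, h2⟩
      refine ⟨h1, ?_⟩
      have h2' : c ∈ out (rn step s (rn step i.u start i.N) (Finset.univ.sup fun j => (s j).length)) := h2
      rw [← key h1] at h2'
      exact h2'

end Run

/-- plugging constants gives a regular language -/
lemma reg_const {V : Type} [Finite V] {R : (Option V → List α) → Prop} (hR : Reg R)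
    (p : V → List α) (L : Language α) (hL : ∀ x, x ∈ L ↔ R (ext p x)) : L.IsRegular := by
  rw [Language.isRegular_iff_finite_range_leftQuotient]
  apply factor (h := fun y : List α => (res R ⟨y.length, ext (fun v => (p v).take y.length) y,
      fun o => by cases o; exacts [le_refl _, List.length_take_le _ _]⟩,
      fun v => (p v).drop y.length))
    (g := fun q => (show Language α from {z | ext q.2 z ∈ q.1}))
  · apply fin_prod
    · apply hR.subset
      rintro _ ⟨i, rfl⟩
      exact Set.mem_range_self _
    · apply fin_pi (f := fun (v : V) (y : List α) => (p v).drop y.length)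
      intro v
      apply ((Set.finite_Iic (p v).length).image (fun m => (p v).drop m)).subset
      rintro _ ⟨y, rfl⟩
      rcases le_total y.length (p v).length with h | h
      · exact ⟨y.length, h, rfl⟩
      · refine ⟨(p v).length, Set.mem_Iic.mpr le_rfl, ?_⟩
        show (p v).drop (p v).length = (p v).drop y.length
        rw [List.drop_eq_nil_of_le (le_refl _), List.drop_eq_nil_of_le h]
  · intro y
    ext z
    have e : (fun o => ext (fun v => (p v).take y.length) y o ++
        ext (fun v => (p v).drop y.length) z o) = ext p (y ++ z) := by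
      rw [ext_append]
      congr 1
      funext v
      exact List.take_append_drop _ _
    rw [Language.mem_leftQuotient, hL]
    constructor
    · intro h
      refine ⟨?_, ?_⟩
      · intro o ho
        cases o with
        | none => exact absurd ho (lt_irrefl _)
        | some v =>
          simp only [ext_some] at ho ⊢
          rw [List.length_take] at ho
          apply List.drop_eq_nil_of_le
          omega
      · show R (fun o => ext (fun v => (p v).take y.length) y o ++
          ext (fun v => (p v).drop y.length) z o)
        rw [e]
        exact h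
    · rintro ⟨_, h⟩
      have h' : R (fun o => ext (fun v => (p v).take y.length) y o ++
        ext (fun v => (p v).drop y.length) z o) := h
      rw [e] at h'
      exact h'

end Reg


section Comb

variable {α : Type} {n : ℕ} (Out : (Fin n → List α) → Finset ℕ)

/-- consistency of a finite partial labelling -/
def Cons {V : Type} (word : V → List α) (bit : V → Bool) : Prop :=
  (∀ i j, word i = word j → bit i = bit j) ∧
    ∀ t : Fin n → V, (∀ a b, word (t a) = word (t b) → a = b) →
      (Finset.univ.filter (fun j => bit (t j) = true)).card ∈ Out (fun j => word (t j))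

/-- `k` rounds of extension -/
def GG : ℕ → (V : Type) → (V → List α) → (V → Bool) → Prop
  | 0, _, word, bit => Cons Out word bit
  | k + 1, V, word, bit => ∀ y, ∃ b, GG k (Option V) (ext word y) (ext bit b)

/-- there is a binary tree of depth `r` -/
def TT (k : ℕ) : ℕ → (V : Type) → (V → List α) → (V → Bool) → Prop
  | 0, V, word, bit => GG Out k V word bit
  | r + 1, V, word, bit => ∃ x, TT k r (Option V) (ext word x) (ext bit false) ∧
      TT k r (Option V) (ext word x) (ext bit true)

lemma reg_Cons (hOut : ∀ c, Reg (fun w : Fin n → List α => c ∈ Out w)) {V : Type} [Finite V]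
    (bit : V → Bool) : Reg (fun word : V → List α => Cons Out word bit) := by
  have h := reg_bool (V := V) (ι := (V × V) ⊕ (Fin n → V))
    (R := fun j => match j with
      | Sum.inl p => fun w => w p.1 = w p.2
      | Sum.inr t => fun w => (Finset.univ.filter (fun j => bit (t j) = true)).card ∈ Out (fun j => w (t j)))
    (by
      rintro (p | t)
      · exact reg_eq p.1 p.2
      · exact reg_subst (hOut _) t)
    (fun X => (∀ i j, X (Sum.inl (i, j)) → bit i = bit j) ∧
      ∀ t : Fin n → V, (∀ a b, X (Sum.inl (t a, t b)) → a = b) → X (Sum.inr t))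
  exact h

lemma reg_GG (hOut : ∀ c, Reg (fun w : Fin n → List α => c ∈ Out w)) (k : ℕ) :
    ∀ (V : Type) [Finite V] (bit : V → Bool), Reg (fun word : V → List α => GG Out k V word bit) := by
  induction k with
  | zero => intro V _ bit; exact reg_Cons Out hOut bit
  | succ k ih =>
    intro V _ bit
    have h1 : Reg (fun w : Option V → List α => ¬ ∃ b, GG Out k (Option V) w (ext bit b)) :=
      reg_bool (ι := Bool) (R := fun b w => GG Out k (Option V) w (ext bit b))
        (fun b => ih (Option V) (ext bit b)) (fun X => ¬ ∃ b, X b)
    have h2 := reg_exists h1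
    have h3 := reg_bool (ι := Unit) (R := fun _ w => ∃ x, ¬ ∃ b, GG Out k (Option V) (ext w x) (ext bit b))
      (fun _ => h2) (fun X => ¬ X ())
    have e : (fun word : V → List α => GG Out (k + 1) V word bit) =
        fun w => ¬ ∃ x, ¬ ∃ b, GG Out k (Option V) (ext w x) (ext bit b) := by
      funext w
      simp only [GG]
      push Not
      rfl
    rw [e]
    exact h3

lemma reg_TT (hOut : ∀ c, Reg (fun w : Fin n → List α => c ∈ Out w)) (k r : ℕ) :
    ∀ (V : Type) [Finite V] (bit : V → Bool), Reg (fun word : V → List α => TT Out k r V word bit) := by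
  induction r with
  | zero => intro V _ bit; exact reg_GG Out hOut k V bit
  | succ r ih =>
    intro V _ bit
    have h1 : Reg (fun w : Option V → List α => TT Out k r (Option V) w (ext bit false) ∧
        TT Out k r (Option V) w (ext bit true)) :=
      reg_bool (ι := Bool) (R := fun b w => TT Out k r (Option V) w (ext bit b))
        (fun b => ih (Option V) (ext bit b)) (fun X => X false ∧ X true)
    exact reg_exists h1

/-- constraints on a finite list of words -/
def good (l : List (List α)) (h : List α → Bool) : Prop :=
  ∀ t : Fin n → List α, (∀ j, t j ∈ l) → Function.Injective t →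
    (Finset.univ.filter (fun j => h (t j) = true)).card ∈ Out t

lemma realize (l : List (List α)) : ∀ (V : Type) (word : V → List α) (bit : V → Bool),
    GG Out l.length V word bit → ∃ h : List α → Bool, (∀ v, h (word v) = bit v) ∧
      ∀ t : Fin n → List α, (∀ j, t j ∈ l ∨ ∃ v, word v = t j) → Function.Injective t →
        (Finset.univ.filter (fun j => h (t j) = true)).card ∈ Out t := by
  induction l with
  | nil =>
    intro V word bit h
    classical
    obtain ⟨h1, h2⟩ : Cons Out word bit := h
    obtain ⟨f, hf⟩ : ∃ f : List α → Bool, ∀ v, f (word v) = bit v := by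
      refine ⟨fun x => if h : ∃ v, word v = x then bit h.choose else false, fun v => ?_⟩
      have hex : ∃ v', word v' = word v := ⟨v, rfl⟩
      simp only
      rw [dif_pos hex]
      exact h1 _ _ hex.choose_spec
    refine ⟨f, hf, fun t ht hinj => ?_⟩
    have ht' : ∀ j, ∃ v, word v = t j := fun j => by simpa using ht j
    choose t' ht' using ht'
    have h3 := h2 t' (fun a b hab => hinj (by rw [← ht' a, ← ht' b]; exact hab))
    have e1 : (fun j => word (t' j)) = t := funext ht'
    rw [e1] at h3
    have e2 : ∀ j, f (t j) = bit (t' j) := fun j => by rw [← ht' j, hf]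
    simp only [e2]
    exact h3
  | cons y l ih =>
    intro V word bit h
    obtain ⟨b, hb⟩ := h y
    obtain ⟨f, hf1, hf2⟩ := ih (Option V) (ext word y) (ext bit b) hb
    refine ⟨f, fun v => hf1 (some v), fun t ht hinj => hf2 t (fun j => ?_) hinj⟩
    rcases ht j with h1 | ⟨v, hv⟩
    · rcases List.mem_cons.mp h1 with h2 | h2
      · exact Or.inr ⟨none, h2.symm⟩
      · exact Or.inl h2
    · exact Or.inr ⟨some v, hv⟩

/-- number of inner nodes of a tree of depth `r` -/
def cc : ℕ → ℕ
  | 0 => 0
  | r + 1 => (cc r + cc r) + 1

/-- trees with labels in a list -/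
def TL (l : List (List α)) (k : ℕ) : ℕ → (V : Type) → (V → List α) → (V → Bool) → Prop
  | 0, V, word, bit => GG Out k V word bit
  | r + 1, V, word, bit => ∃ x ∈ l, TL l k r (Option V) (ext word x) (ext bit false) ∧
      TL l k r (Option V) (ext word x) (ext bit true)

lemma TL_mono {l l' : List (List α)} (hl : ∀ x ∈ l, x ∈ l') (k r : ℕ) :
    ∀ (V : Type) (word : V → List α) (bit : V → Bool), TL Out l k r V word bit →
      TL Out l' k r V word bit := by
  induction r with
  | zero => intro V word bit h; exact h
  | succ r ih =>
    rintro V word bit ⟨x, hx, h1, h2⟩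
    exact ⟨x, hl x hx, ih _ _ _ h1, ih _ _ _ h2⟩

lemma TT_TL (k r : ℕ) : ∀ (V : Type) (word : V → List α) (bit : V → Bool), TT Out k r V word bit →
    ∃ l : List (List α), l.length = cc r ∧ TL Out l k r V word bit := by
  induction r with
  | zero => intro V word bit h; exact ⟨[], rfl, h⟩
  | succ r ih =>
    rintro V word bit ⟨x, h1, h2⟩
    obtain ⟨l1, hl1, h1'⟩ := ih _ _ _ h1
    obtain ⟨l2, hl2, h2'⟩ := ih _ _ _ h2
    refine ⟨x :: (l1 ++ l2), by simp [hl1, hl2, cc], x, List.mem_cons_self, ?_, ?_⟩
    · exact TL_mono Out (fun y hy => by simp [hy]) k r _ _ _ h1'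
    · exact TL_mono Out (fun y hy => by simp [hy]) k r _ _ _ h2'

/-- Littlestone trees -/
def LT (S : Set (List α)) : ℕ → Set (List α → Bool) → Prop
  | 0, F => F.Nonempty
  | d + 1, F => ∃ x ∈ S, LT S d {h ∈ F | h x = false} ∧ LT S d {h ∈ F | h x = true}

lemma TL_LT (l : List (List α)) (r : ℕ) : ∀ (V : Type) (word : V → List α) (bit : V → Bool),
    TL Out l l.length r V word bit →
      LT {x | x ∈ l} r {h | (∀ v, h (word v) = bit v) ∧ good Out l h} := by
  induction r with
  | zero =>
    intro V word bit h
    obtain ⟨f, hf1, hf2⟩ := realize Out l V word bit h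
    exact ⟨f, hf1, fun t ht hinj => hf2 t (fun j => Or.inl (ht j)) hinj⟩
  | succ r ih =>
    rintro V word bit ⟨x, hx, h1, h2⟩
    have e : ∀ b, {h ∈ {h : List α → Bool | (∀ v, h (word v) = bit v) ∧ good Out l h} | h x = b} =
        {h | (∀ o, h (ext word x o) = ext bit b o) ∧ good Out l h} := by
      intro b
      ext h
      simp only [Set.mem_ofPred_eq, Option.forall, ext_none, ext_some]
      tauto
    refine ⟨x, hx, ?_, ?_⟩
    · rw [e]; exact ih _ _ _ h1
    · rw [e]; exact ih _ _ _ h2

end Comb

section Thresholds

variable {α : Type}

lemma LT_mono {S S' : Set (List α)} (hS : S ⊆ S') (d : ℕ) : ∀ {F F' : Set (List α → Bool)},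
    F ⊆ F' → LT S d F → LT S' d F' := by
  induction d with
  | zero => intro F F' hF h; exact h.mono hF
  | succ d ih =>
    rintro F F' hF ⟨x, hx, h1, h2⟩
    exact ⟨x, hS hx, ih (fun h hh => ⟨hF hh.1, hh.2⟩) h1, ih (fun h hh => ⟨hF hh.1, hh.2⟩) h2⟩

lemma LT_nonempty {S : Set (List α)} (d : ℕ) : ∀ {F : Set (List α → Bool)}, LT S d F → F.Nonempty := by
  induction d with
  | zero => intro F h; exact h
  | succ d ih =>
    rintro F ⟨x, hx, h1, _⟩
    exact (ih h1).mono (fun h hh => hh.1)

lemma LT_ramsey {S S1 S2 : Set (List α)} (hS : S ⊆ S1 ∪ S2) (m : ℕ) : ∀ (a b : ℕ) , a + b = m →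
    ∀ {F : Set (List α → Bool)}, LT S m F → LT S1 a F ∨ LT S2 b F := by
  induction m with
  | zero =>
    intro a b hab F h
    left
    obtain rfl : a = 0 := by omega
    exact h
  | succ m ih =>
    intro a b hab F h
    rcases Nat.eq_zero_or_pos a with ha | ha
    · left; subst ha; exact LT_nonempty _ h
    rcases Nat.eq_zero_or_pos b with hb | hb
    · right; subst hb; exact LT_nonempty _ h
    obtain ⟨x, hx, h1, h2⟩ := h
    rcases hS hx with hx1 | hx2
    · obtain ⟨a', rfl⟩ : ∃ a', a = a' + 1 := ⟨a - 1, by omega⟩
      rcases ih a' b (by omega) h1 with g1 | g1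
      · rcases ih a' b (by omega) h2 with g2 | g2
        · exact Or.inl ⟨x, hx1, g1, g2⟩
        · exact Or.inr (LT_mono (le_refl _) b (fun h hh => hh.1) g2)
      · exact Or.inr (LT_mono (le_refl _) b (fun h hh => hh.1) g1)
    · obtain ⟨b', rfl⟩ : ∃ b', b = b' + 1 := ⟨b - 1, by omega⟩
      rcases ih a b' (by omega) h1 with g1 | g1
      · exact Or.inl (LT_mono (le_refl _) a (fun h hh => hh.1) g1)
      · rcases ih a b' (by omega) h2 with g2 | g2
        · exact Or.inl (LT_mono (le_refl _) a (fun h hh => hh.1) g2)
        · exact Or.inr ⟨x, hx2, g1, g2⟩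

/-- chains: `c = true` or `c = false` -/
def Ch (c : Bool) : ℕ → Set (List α) → Set (List α → Bool) → Prop
  | 0, _, _ => True
  | p + 1, S, F => ∃ h ∈ F, ∃ x ∈ S, h x = c ∧ Ch c p {y ∈ S | h y = c} {g ∈ F | g x = !c}

lemma Ch_mono (c : Bool) (p : ℕ) : ∀ {S S' : Set (List α)} {F F' : Set (List α → Bool)},
    S ⊆ S' → F ⊆ F' → Ch c p S F → Ch c p S' F' := by
  induction p with
  | zero => intro S S' F F' _ _ _; trivial
  | succ p ih =>
    rintro S S' F F' hS hF ⟨h, hh, x, hx, hhx, hc⟩
    exact ⟨h, hF hh, x, hS hx, hhx, ih (fun y hy => ⟨hS hy.1, hy.2⟩) (fun g hg => ⟨hF hg.1, hg.2⟩) hc⟩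

/-- bound for the depth -/
def ff : ℕ → ℕ → ℕ
  | 0, _ => 0
  | _ + 1, 0 => 0
  | p + 1, q + 1 => (ff p (q + 1) + 1) + (ff (p + 1) q + 1)

lemma LT_chain : ∀ (p q : ℕ) {S : Set (List α)} {F : Set (List α → Bool)},
    LT S (ff p q) F → Ch true p S F ∨ Ch false q S F
  | 0, _, _, _, _ => Or.inl trivial
  | _ + 1, 0, _, _, _ => Or.inr trivial
  | p + 1, q + 1, S, F, h => by
    obtain ⟨f, hf⟩ := LT_nonempty _ h
    have hS : S ⊆ {y ∈ S | f y = true} ∪ {y ∈ S | f y = false} := by
      intro y hy
      cases hfy : f y
      · exact Or.inr ⟨hy, hfy⟩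
      · exact Or.inl ⟨hy, hfy⟩
    rw [ff] at h
    rcases LT_ramsey hS _ (ff p (q + 1) + 1) (ff (p + 1) q + 1) rfl h with g | g
    · obtain ⟨x, hx, g1, g2⟩ := g
      rcases LT_chain p (q + 1) g1 with g3 | g3
      · left
        exact ⟨f, hf, x, hx.1, hx.2, g3⟩
      · right
        exact Ch_mono false _ (fun y hy => hy.1) (fun h hh => hh.1) g3
    · obtain ⟨x, hx, g1, g2⟩ := g
      rcases LT_chain (p + 1) q g2 with g3 | g3
      · left
        exact Ch_mono true _ (fun y hy => hy.1) (fun h hh => hh.1) g3
      · right
        exact ⟨f, hf, x, hx.1, hx.2, g3⟩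

lemma Ch_seq (c : Bool) (p : ℕ) : ∀ {S : Set (List α)} {F : Set (List α → Bool)}, Ch c p S F →
    ∃ (x : Fin p → List α) (h : Fin p → (List α → Bool)), (∀ i, h i ∈ F) ∧ (∀ j, x j ∈ S) ∧
      ∀ i j, h i (x j) = if i ≤ j then c else !c := by
  induction p with
  | zero => intro S F _; exact ⟨Fin.elim0, Fin.elim0, fun i => i.elim0, fun i => i.elim0, fun i => i.elim0⟩
  | succ p ih =>
    rintro S F ⟨h, hh, x, hx, hhx, hc⟩
    obtain ⟨x', h', h1, h2, h3⟩ := ih hc
    refine ⟨Fin.cons x x', Fin.cons h h', ?_, ?_, ?_⟩
    · intro i
      refine Fin.cases ?_ (fun i => ?_) i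
      · exact hh
      · exact (h1 i).1
    · intro i
      refine Fin.cases ?_ (fun i => ?_) i
      · exact hx
      · exact (h2 i).1
    · intro i j
      refine Fin.cases ?_ (fun i => ?_) i
      · refine Fin.cases ?_ (fun j => ?_) j
        · simpa using hhx
        · simpa using (h2 j).2
      · refine Fin.cases ?_ (fun j => ?_) j
        · simpa using (h1 i).2
        · simpa using h3 i j

end Thresholds


section Final

variable {α : Type} {n : ℕ}

lemma no_Ch (Out : (Fin n → List α) → Finset ℕ) (hcard : ∀ t, (Out t).card ≤ n)
    (l : List (List α)) (c : Bool) : ¬ Ch c (n + 1) {x | x ∈ l} {h | good Out l h} := by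
  intro hc
  obtain ⟨x, g, hg, hx, hgx⟩ := Ch_seq c (n + 1) hc
  have hinj : Function.Injective (fun j : Fin n => x j.castSucc) := by
    have key : ∀ a b : Fin n, a < b → x a.castSucc ≠ x b.castSucc := by
      intro a b hab heq
      have h1 := hgx b.castSucc a.castSucc
      have h2 := hgx b.castSucc b.castSucc
      rw [heq, h2, if_pos le_rfl, if_neg (by simpa using hab)] at h1
      cases c <;> simp at h1
    intro a b hab
    rcases lt_trichotomy a b with h | h | h
    · exact absurd hab (key a b h)
    · exact h
    · exact absurd hab.symm (key b a h)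
  have hmem : ∀ i, (Finset.univ.filter (fun j : Fin n => g i (x j.castSucc) = true)).card ∈
      Out (fun j => x j.castSucc) := fun i => hg i _ (fun j => hx _) hinj
  have hsep : ∀ i i' : Fin (n + 1), i < i' →
      (Finset.univ.filter (fun j : Fin n => g i (x j.castSucc) = true)).card ≠
        (Finset.univ.filter (fun j : Fin n => g i' (x j.castSucc) = true)).card := by
    intro i i' hii
    have hi : (i : ℕ) < n := by have := i'.2; have h2 : (i : ℕ) < i' := hii; omega
    simp only [hgx]
    cases c
    · apply ne_of_lt
      apply Finset.card_lt_card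
      rw [Finset.ssubset_iff_of_subset]
      · refine ⟨⟨i, hi⟩, ?_, ?_⟩
        · simp only [Finset.mem_filter, Finset.mem_univ, true_and]
          rw [if_neg]
          · rfl
          · intro h
            have h3 : (i' : ℕ) ≤ i := h
            have h2 : (i : ℕ) < i' := hii
            omega
        · simp only [Finset.mem_filter, Finset.mem_univ, true_and]
          rw [if_pos]
          · simp
          · exact le_of_eq (Fin.ext rfl)
      · intro j
        simp only [Finset.mem_filter, Finset.mem_univ, true_and]
        intro h
        have h1 : ¬ (i ≤ j.castSucc) := by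
          intro hh
          rw [if_pos hh] at h
          exact absurd h (by simp)
        rw [if_neg (fun hh => h1 (le_trans hii.le hh))]
        rfl
    · apply ne_of_gt
      apply Finset.card_lt_card
      rw [Finset.ssubset_iff_of_subset]
      · refine ⟨⟨i, hi⟩, ?_, ?_⟩
        · simp only [Finset.mem_filter, Finset.mem_univ, true_and]
          rw [if_pos]
          exact le_of_eq (Fin.ext rfl)
        · simp only [Finset.mem_filter, Finset.mem_univ, true_and]
          rw [if_neg]
          · simp
          · intro h
            have h3 : (i' : ℕ) ≤ i := h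
            have h2 : (i : ℕ) < i' := hii
            omega
      · intro j
        simp only [Finset.mem_filter, Finset.mem_univ, true_and]
        intro h
        have h1 : (i' ≤ j.castSucc) := by
          by_contra hh
          rw [if_neg hh] at h
          exact absurd h (by simp)
        rw [if_pos (le_trans hii.le h1)]
  have hle : (Finset.univ : Finset (Fin (n + 1))).card ≤ (Out (fun j => x j.castSucc)).card := by
    apply Finset.card_le_card_of_injOn
      (fun i => (Finset.univ.filter (fun j : Fin n => g i (x j.castSucc) = true)).card)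
    · intro i _
      exact hmem i
    · intro i _ i' _ heq
      rcases lt_trichotomy i i' with h | h | h
      · exact absurd heq (hsep i i' h)
      · exact h
      · exact absurd heq.symm (hsep i' i h)
  have := hcard (fun j => x j.castSucc)
  rw [Finset.card_univ, Fintype.card_fin] at hle
  omega

lemma no_TT (Out : (Fin n → List α) → Finset ℕ) (hcard : ∀ t, (Out t).card ≤ n)
    (V : Type) (word : V → List α) (bit : V → Bool) :
    ¬ TT Out (cc (ff (n + 1) (n + 1))) (ff (n + 1) (n + 1)) V word bit := by
  intro h
  obtain ⟨l, hl, hT⟩ := TT_TL Out _ _ V word bit h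
  rw [← hl] at hT
  have h1 := TL_LT Out l _ V word bit hT
  have h2 : LT {x | x ∈ l} (ff (n + 1) (n + 1)) {h | good Out l h} :=
    LT_mono (le_refl _) _ (fun h hh => hh.2) h1
  rcases LT_chain (n + 1) (n + 1) h2 with h3 | h3
  · exact no_Ch Out hcard l true h3
  · exact no_Ch Out hcard l false h3

open Classical in
/-- the true labels -/
noncomputable def lab (A : Language α) {V : Type} (word : V → List α) : V → Bool :=
  fun v => decide (word v ∈ A)

open Classical in
lemma lab_ext (A : Language α) {V : Type} (word : V → List α) (y : List α) :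
    lab A (ext word y) = ext (lab A word) (decide (y ∈ A)) := by
  funext o; cases o <;> rfl

lemma GG_lab (Out : (Fin n → List α) → Finset ℕ) (A : Language α)
    (hA : ∀ w : Fin n → List α, ({x : List α | ∃ j, w j = x ∧ x ∈ A}).ncard ∈ Out w) (k : ℕ) :
    ∀ (V : Type) (word : V → List α), GG Out k V word (lab A word) := by
  induction k with
  | zero =>
    intro V word
    classical
    refine ⟨fun i j hij => ?_, fun t ht => ?_⟩
    · unfold lab
      rw [hij]
    · have h := hA (fun j => word (t j))
      have e : {x : List α | ∃ j, word (t j) = x ∧ x ∈ A} =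
          ((Finset.univ.filter (fun j => lab A word (t j) = true)).image (fun j => word (t j)) : Finset (List α)) := by
        ext x
        simp only [Set.mem_ofPred_eq, Finset.coe_image, Finset.coe_filter, Finset.mem_univ, true_and,
          Set.mem_image, lab, decide_eq_true_eq]
        constructor
        · rintro ⟨j, rfl, h⟩
          exact ⟨j, h, rfl⟩
        · rintro ⟨j, h, rfl⟩
          exact ⟨j, rfl, h⟩
      rw [e, Set.ncard_coe_finset, Finset.card_image_of_injective] at h
      · exact h
      · intro a b hab
        exact ht a b hab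
  | succ k ih =>
    intro V word y
    classical
    refine ⟨decide (y ∈ A), ?_⟩
    have h := ih (Option V) (ext word y)
    rw [lab_ext] at h
    convert h

theorem main (A : Language α) (Out : (Fin n → List α) → Finset ℕ) (hcard : ∀ t, (Out t).card ≤ n)
    (hOut : ∀ c, Reg (fun w : Fin n → List α => c ∈ Out w))
    (hA : ∀ w : Fin n → List α, ({x : List α | ∃ j, w j = x ∧ x ∈ A}).ncard ∈ Out w) :
    A.IsRegular := by
  classical
  obtain ⟨D, hD⟩ : ∃ D, D = ff (n + 1) (n + 1) := ⟨_, rfl⟩
  obtain ⟨k, hk⟩ : ∃ k, k = cc D := ⟨_, rfl⟩
  have hP : ∃ r, ∃ (V : Type) (_ : Finite V) (word : V → List α), ¬ TT Out k r V word (lab A word) := by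
    refine ⟨D, Empty, inferInstance, Empty.elim, ?_⟩
    rw [hk, hD]
    exact no_TT Out hcard _ _ _
  obtain ⟨r, hr⟩ : ∃ r, r = Nat.find hP := ⟨_, rfl⟩
  have hspec := Nat.find_spec hP
  rw [← hr] at hspec
  cases r with
  | zero =>
    obtain ⟨V, _, word, h⟩ := hspec
    exact absurd (GG_lab Out A hA k V word) h
  | succ r =>
    obtain ⟨V, hV, word, h⟩ := hspec
    have hmin : ∀ (V : Type) [Finite V] (word : V → List α), TT Out k r V word (lab A word) := by
      intro V' hV' word'
      by_contra hcon
      have := Nat.find_min hP (m := r) (by rw [← hr]; exact Nat.lt_succ_self r)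
      exact this ⟨V', hV', word', hcon⟩
    apply reg_const (reg_TT Out hOut k r (Option V) (ext (lab A word) true)) word A
    intro x
    constructor
    · intro hx
      have h1 := hmin (Option V) (ext word x)
      rw [lab_ext] at h1
      simpa [hx] using h1
    · intro hx
      by_contra hnx
      apply h
      refine ⟨x, ?_, hx⟩
      have h1 := hmin (Option V) (ext word x)
      rw [lab_ext] at h1
      simpa [hnx] using h1

end Final

end KK


/-- For any finite alphabet, language A and n ≥ 1: if some finite automaton reading n words synchronously (blank-padded) always outputs a set of at most n numbers containing how many distinct input words lie in A, then A is regular. -/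
theorem result :
    ∀ (α : Type) [Fintype α] (A : Language α) (n : ℕ), 1 ≤ n →
      (∃ (k : ℕ) (step : Fin k → (Fin n → Option α) → Fin k) (start : Fin k)
          (out : Fin k → Finset ℕ),
        (∀ q, (out q).card ≤ n) ∧
        ∀ w : Fin n → List α,
          ({x : List α | ∃ j, w j = x ∧ x ∈ A}).ncard ∈
            out (List.foldl step start
              ((List.range (Finset.univ.sup fun j => (w j).length)).map
                fun i j => (w j)[i]?))) →
      ∃ (k : ℕ) (M : DFA α (Fin k)), M.accepts = A := by
  intro α _ A n _ hyp
  obtain ⟨k, step, start, out, hcard, hA⟩ := hyp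
  have hreg : A.IsRegular := KK.main A (fun w => out (List.foldl step start
              ((List.range (Finset.univ.sup fun j => (w j).length)).map
                fun i j => (w j)[i]?))) (fun t => hcard _) (fun c => KK.reg_run step start out c) hA
  obtain ⟨σ, _, M, hM⟩ := hreg
  exact ⟨Fintype.card σ, DFA.reindex (Fintype.equivFin σ) M, by rw [DFA.accepts_reindex]; exact hM⟩

end Pool.Agent.S09443
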