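import Pool.Statements.S09448
import Pool.Agent.Helper864.GKSNum

set_option autoImplicit false
open Pool Pool.MP_65d1df_lc

namespace Pool.Agent.S09448

/-- The negation of the preceding statement: There exist δ>0 and c>0 such that for all large n, every protocol for G_n (Alice writes online bits depending on the stream prefix, Bob must output a set containing σ_n) has some input where Bob's set has size at least c·n^δ. -/
theorem result :
    ¬ (∃ δ : ℝ, 0 < δ ∧ ∃ c : ℝ, 0 < c ∧ ∃ N : ℕ, ∀ m : ℕ, N ≤ m →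
      ∀ A : List (Fin (m + 1)) → Bool,
      ∀ B : (Fin (m + 1) → Bool) → Finset (Fin (m + 1)),
        (∀ σ : Equiv.Perm (Fin (m + 1)), ∀ b : Bool,
          σ (Fin.last m) ∈ B (fun j : Fin (m + 1) =>
            if σ.symm j = Fin.last m then b
            else A (List.map σ ((List.finRange (m + 1)).take ((σ.symm j).val + 1))))) →
        ∃ σ : Equiv.Perm (Fin (m + 1)), ∃ b : Bool,
          c * ((m + 1 : ℕ) : ℝ) ^ δ ≤
            ((B (fun j : Fin (m + 1) =>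
              if σ.symm j = Fin.last m then b
              else A (List.map σ ((List.finRange (m + 1)).take ((σ.symm j).val + 1))))).card : ℝ)) := by
  rintro ⟨δ, hδ, c, hc, N, h⟩
  -- choose the number of levels
  obtain ⟨T, hT⟩ : ∃ T : ℕ, 4 / δ ≤ (T : ℝ) := exists_nat_ge _
  obtain ⟨C, hC⟩ : ∃ C : ℕ, 1 / c < (C : ℝ) := exists_nat_gt _
  have hT1 : 1 ≤ T := by
    by_contra hcon
    have : T = 0 := by omega
    rw [this] at hT
    have : 0 < 4 / δ := by positivity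
    simp at hT
    linarith
  have hTδ : 4 ≤ δ * T := by
    rw [div_le_iff₀ hδ] at hT
    linarith
  -- choose the scale
  obtain ⟨μ, hμ⟩ : ∃ μ : ℕ, μ = 44 * (T * (2 * T + 1) + 1) + N + C + 1 := ⟨_, rfl⟩
  have hpow : μ < 2 ^ μ := Nat.lt_two_pow_self
  have hbig : 44 * (μ * (T * (2 * T + 1)) + 1) ≤ 2 ^ (2 * μ) := by
    have h1 : 44 * (T * (2 * T + 1) + 1) ≤ μ := by omega
    have h2 : 44 * (μ * (T * (2 * T + 1)) + 1) ≤ μ * (44 * (T * (2 * T + 1) + 1)) := by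
      have : 1 ≤ μ := by omega
      nlinarith
    have h3 : μ * (44 * (T * (2 * T + 1) + 1)) ≤ 2 ^ μ * 2 ^ μ :=
      Nat.mul_le_mul hpow.le (h1.trans hpow.le)
    have h4 : 2 ^ (2 * μ) = 2 ^ μ * 2 ^ μ := by rw [two_mul, pow_add]
    omega
  have hμ1 : 1 ≤ μ := by omega
  obtain ⟨m, hm⟩ : ∃ m : ℕ, m + 1 = 2 ^ (μ * (T * (T + 1))) :=
    ⟨2 ^ (μ * (T * (T + 1))) - 1, Nat.sub_add_cancel Nat.one_le_two_pow⟩
  have hmN : N ≤ m := by
    have h1 : 2 ^ μ ≤ 2 ^ (μ * (T * (T + 1))) := by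
      apply Nat.pow_le_pow_right (by norm_num)
      have : 1 ≤ T * (T + 1) := by nlinarith
      nlinarith
    omega
  obtain ⟨A, B, hAB, hcost⟩ := Pool.Agent.Helper864.GKS.upper μ T m hT1 hμ1 hbig hm
  obtain ⟨σ, b, hσ⟩ := h m hmN A B hAB
  have hle : c * ((m + 1 : ℕ) : ℝ) ^ δ ≤ (2 : ℝ) ^ (μ * (2 * T)) := by
    refine le_trans hσ ?_
    exact_mod_cast hcost _
  rw [hm] at hle
  have hreal : (((2 ^ (μ * (T * (T + 1))) : ℕ) : ℝ)) ^ δ = (2 : ℝ) ^ ((μ * (T * (T + 1)) : ℝ) * δ) := by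
    push_cast
    rw [← Real.rpow_natCast, ← Real.rpow_mul (by norm_num)]
    push_cast
    ring_nf
  rw [hreal] at hle
  have hexp : (2 : ℝ) ^ (μ * (2 * T)) * 2 ^ μ ≤ (2 : ℝ) ^ ((μ * (T * (T + 1)) : ℝ) * δ) := by
    rw [← pow_add, ← Real.rpow_natCast]
    apply Real.rpow_le_rpow_of_exponent_le (by norm_num)
    push_cast
    have hμr : (1 : ℝ) ≤ μ := by exact_mod_cast hμ1
    have hTr : (1 : ℝ) ≤ T := by exact_mod_cast hT1
    have h1 : (μ : ℝ) * (T + 1) * 4 ≤ μ * (T + 1) * (δ * T) := by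
      apply mul_le_mul_of_nonneg_left hTδ
      positivity
    nlinarith
  have h2μ : (1 : ℝ) / c < 2 ^ μ := by
    have h1 : (C : ℝ) ≤ (2 : ℝ) ^ μ := by
      have : C ≤ 2 ^ μ := by omega
      exact_mod_cast this
    linarith
  have hc2 : 1 < c * 2 ^ μ := by
    rw [div_lt_iff₀ hc] at h2μ
    linarith
  have hpos : (0 : ℝ) < 2 ^ (μ * (2 * T)) := by positivity
  have : c * ((2 : ℝ) ^ (μ * (2 * T)) * 2 ^ μ) ≤ (2 : ℝ) ^ (μ * (2 * T)) :=
    le_trans (mul_le_mul_of_nonneg_left hexp hc.le) hle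
  nlinarith

end Pool.Agent.S09448
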