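import Pool.Statements.S09484
import Pool.Agent.Helper309.Jump5

set_option autoImplicit false
open Pool Pool.MP_708d71_lc

namespace Pool.Agent.S09484

/-- The negation of the preceding statement: There is a monotone grammar whose language under jumping derivations (delete a rule's left side anywhere, insert its right side anywhere) is generated by no context-sensitive grammar under jumping derivations. -/
theorem result :
    ¬ (∃ (T : Type) (_ : Fintype T) (N : Type) (_ : Fintype N) (S : N)
      (P : Finset (List (Symbol T N) × List (Symbol T N))),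
      (∀ r ∈ P, (∃ A : N, Symbol.nonterminal A ∈ r.1) ∧ r.1.length ≤ r.2.length) ∧
      ∀ (N' : Type) (_ : Fintype N') (S' : N')
        (P' : Finset (List (Symbol T N') × List (Symbol T N'))),
        (∀ r ∈ P', ∃ (α β γ : List (Symbol T N')) (A : N'), γ ≠ [] ∧
            r.1 = α ++ [Symbol.nonterminal A] ++ β ∧ r.2 = α ++ γ ++ β) →
        {w : List T | Relation.ReflTransGen
            (fun (x y : List (Symbol T N)) => ∃ r ∈ P, ∃ (u v u' v' : List (Symbol T N)),
              x = u ++ r.1 ++ v ∧ y = u' ++ r.2 ++ v' ∧ u ++ v = u' ++ v')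
            [Symbol.nonterminal S] (w.map Symbol.terminal)} ≠
        {w : List T | Relation.ReflTransGen
            (fun (x y : List (Symbol T N')) => ∃ r ∈ P', ∃ (u v u' v' : List (Symbol T N')),
              x = u ++ r.1 ++ v ∧ y = u' ++ r.2 ++ v' ∧ u ++ v = u' ++ v')
            [Symbol.nonterminal S'] (w.map Symbol.terminal)}) := by
  rintro ⟨T, _, N, _, S, P, hP, hne⟩
  obtain ⟨N', hN', S', R, hfin, hCS, heq⟩ := Pool.Agent.Helper309.Jump.main_rel
    (fun x y => (x, y) ∈ P) S (by
      have : {ρ : List (Symbol T N) × List (Symbol T N) | (ρ.1, ρ.2) ∈ P} = (P : Set _) := by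
        ext ρ; simp
      rw [this]
      exact P.finite_toSet)
    (fun x y h => (hP (x, y) h).2) (fun x y h => (hP (x, y) h).1)
  have e1 : ∀ (M : Type) (Q : Finset (List (Symbol T M) × List (Symbol T M)))
      (R' : List (Symbol T M) → List (Symbol T M) → Prop) (_ : ∀ a b, R' a b ↔ (a, b) ∈ Q) (s : M),
      {w : List T | Relation.ReflTransGen
            (fun (x y : List (Symbol T M)) => ∃ r ∈ Q, ∃ (u v u' v' : List (Symbol T M)),
              x = u ++ r.1 ++ v ∧ y = u' ++ r.2 ++ v' ∧ u ++ v = u' ++ v')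
            [Symbol.nonterminal s] (w.map Symbol.terminal)} =
      Pool.Agent.Helper309.Jump.JL R' s := by
    intro M Q R' hQ s
    have : (fun (x y : List (Symbol T M)) => ∃ r ∈ Q, ∃ (u v u' v' : List (Symbol T M)),
              x = u ++ r.1 ++ v ∧ y = u' ++ r.2 ++ v' ∧ u ++ v = u' ++ v') =
        Pool.Agent.Helper309.Jump.JS R' := by
      funext x y
      apply propext
      constructor
      · rintro ⟨r, hr, u, v, u', v', h1, h2, h3⟩
        exact ⟨r.1, r.2, (hQ _ _).2 hr, u, v, u', v', h1, h2, h3⟩
      · rintro ⟨l, r, hr, u, v, u', v', h1, h2, h3⟩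
        exact ⟨(l, r), (hQ _ _).1 hr, u, v, u', v', h1, h2, h3⟩
    rw [this]
    rfl
  refine hne N' (Fintype.ofFinite N') S' hfin.toFinset ?_ ?_
  · intro r hr
    rw [Set.Finite.mem_toFinset] at hr
    obtain ⟨α, β, γ, A, h1, h2, h3⟩ := hCS r.1 r.2 hr
    exact ⟨α, β, γ, A, h1, h2, h3⟩
  · rw [e1 N P (fun x y => (x, y) ∈ P) (fun _ _ => Iff.rfl) S,
      e1 N' hfin.toFinset R (fun a b => by rw [Set.Finite.mem_toFinset]; exact Iff.rfl) S']
    exact heq

end Pool.Agent.S09484
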