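import Pool.Statements.S09485

set_option autoImplicit false
open Pool Pool.MP_70d3c3_lc

namespace Pool.Agent.S09485

/-- `T 0 = 1`, `T (n+1) = T n (T n + 1)`; so `T i = t i - 1`. -/
def T : ℕ → ℕ
  | 0 => 1
  | n + 1 => T n * (T n + 1)

theorem T_pos (n : ℕ) : 0 < T n := by
  induction n with
  | zero => simp [T]
  | succ n ih => simp only [T]; positivity

theorem T_succ (n : ℕ) : T (n + 1) = T n * (T n + 1) := rfl

theorem T_succ_ge (n : ℕ) : T n + 1 ≤ T (n + 1) := by
  rw [T_succ]; nlinarith [T_pos n]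

theorem T_mono {m n : ℕ} (h : m ≤ n) : T m ≤ T n := by
  induction n, h using Nat.le_induction with
  | base => exact le_rfl
  | succ n _ ih => have := T_succ_ge n; omega

theorem T_gt (n : ℕ) : n < T n := by
  induction n with
  | zero => simp [T]
  | succ n ih => have := T_succ_ge n; omega

theorem T_ge_six {n : ℕ} (h : 2 ≤ n) : 6 ≤ T n := by
  have := T_mono h
  simpa [T] using this

theorem Tr_pos (n : ℕ) : (0 : ℝ) < (T n : ℝ) := by exact_mod_cast T_pos n

theorem Tr_one_le (n : ℕ) : (1 : ℝ) ≤ (T n : ℝ) := by exact_mod_cast T_pos n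

theorem Tr_succ (n : ℕ) : (T (n + 1) : ℝ) = (T n : ℝ) * ((T n : ℝ) + 1) := by
  rw [T_succ]; push_cast; ring

theorem Tr_mono {m n : ℕ} (h : m ≤ n) : (T m : ℝ) ≤ (T n : ℝ) := by exact_mod_cast T_mono h

/-- scale of `x` : the `j` with `1 / T (j+1) < x ≤ 1 / T j`. -/
noncomputable def sc (x : ℝ) : ℕ := sInf {m : ℕ | 1 / (T (m + 1) : ℝ) < x}

theorem sc_nonempty {x : ℝ} (hx : 0 < x) : {m : ℕ | 1 / (T (m + 1) : ℝ) < x}.Nonempty := by
  obtain ⟨n, hn⟩ := exists_nat_one_div_lt hx
  refine ⟨n, ?_⟩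
  have h1 : ((n : ℝ) + 1) ≤ (T (n + 1) : ℝ) := by
    have := T_gt (n + 1)
    have h2 : n + 1 ≤ T (n + 1) := by omega
    exact_mod_cast h2
  calc 1 / (T (n + 1) : ℝ) ≤ 1 / ((n : ℝ) + 1) := one_div_le_one_div_of_le (by positivity) h1
    _ < x := hn

theorem sc_lt {x : ℝ} (hx : 0 < x) : 1 / (T (sc x + 1) : ℝ) < x := Nat.sInf_mem (sc_nonempty hx)

theorem sc_le {x : ℝ} {m : ℕ} (h : 1 / (T (m + 1) : ℝ) < x) : sc x ≤ m := Nat.sInf_le h

theorem le_sc {x : ℝ} (hx1 : x ≤ 1) : x ≤ 1 / (T (sc x) : ℝ) := by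
  rcases Nat.eq_zero_or_pos (sc x) with h0 | h0
  · rw [h0]; simpa [T] using hx1
  · obtain ⟨k, hk⟩ : ∃ k, sc x = k + 1 := ⟨sc x - 1, by omega⟩
    have : k ∉ {m : ℕ | 1 / (T (m + 1) : ℝ) < x} := Nat.notMem_of_lt_sInf (by
      show k < sc x
      omega)
    rw [hk]
    simpa using this

theorem sc_ge {x : ℝ} {m : ℕ} (hx : 0 < x) (h : x ≤ 1 / (T m : ℝ)) : m ≤ sc x := by
  by_contra hlt
  push Not at hlt
  have h1 := sc_lt hx
  have h2 : (T (sc x + 1) : ℝ) ≤ (T m : ℝ) := Tr_mono (by omega)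
  have h3 : 1 / (T m : ℝ) ≤ 1 / (T (sc x + 1) : ℝ) := one_div_le_one_div_of_le (Tr_pos _) h2
  linarith

/-- bonus -/
noncomputable def b (x : ℝ) : ℝ :=
  if 1 / ((T (sc x) : ℝ) + 1) < x then 1 / (T (sc x + 1) : ℝ) else x / ((T (sc x) : ℝ) + 1)

/-- weight -/
noncomputable def w (x : ℝ) : ℝ := x + b x

theorem b_ge {x : ℝ} (hx1 : x ≤ 1) : x / ((T (sc x) : ℝ) + 1) ≤ b x := by
  unfold b
  split_ifs with h
  · have h1 := le_sc hx1
    have hT := Tr_pos (sc x)
    rw [Tr_succ, ← div_div]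
    exact div_le_div_of_nonneg_right h1 (by positivity)
  · exact le_rfl

theorem b_pos {x : ℝ} (hx : 0 < x) (hx1 : x ≤ 1) : 0 < b x := by
  have := b_ge hx1
  have hT := Tr_pos (sc x)
  have : 0 < x / ((T (sc x) : ℝ) + 1) := by positivity
  linarith

theorem b_ge_of_le {x : ℝ} {M : ℕ} (hx : 0 < x) (hx1 : x ≤ 1) (h : sc x ≤ M) :
    x / ((T M : ℝ) + 1) ≤ b x := by
  refine le_trans ?_ (b_ge hx1)
  have hT := Tr_pos (sc x)
  have h1 := Tr_mono h
  exact div_le_div_of_nonneg_left hx.le (by positivity) (by linarith)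

/-- bonus density bound for items which are not in the top class of scale `j`. -/
theorem b_le {x : ℝ} {j : ℕ} (hx : 0 < x) (h : x ≤ 1 / ((T j : ℝ) + 1)) :
    b x ≤ x / ((T j : ℝ) + 1) := by
  have hTj := Tr_pos j
  have hj : j ≤ sc x := by
    apply sc_ge hx
    exact le_trans h (one_div_le_one_div_of_le hTj (by linarith))
  rcases hj.lt_or_eq with hlt | heq
  · have h1 : (T j : ℝ) + 1 ≤ (T (sc x) : ℝ) := by
      have h2 := T_succ_ge j
      have h3 := T_mono (show j + 1 ≤ sc x from hlt)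
      have : T j + 1 ≤ T (sc x) := by omega
      exact_mod_cast this
    have hT := Tr_pos (sc x)
    unfold b
    split_ifs with hc
    · rw [Tr_succ]
      rw [div_lt_iff₀ (by positivity)] at hc
      rw [div_le_div_iff₀ (by positivity) (by positivity)]
      have h4 : (T j : ℝ) + 1 ≤ (T (sc x) : ℝ) * (x * ((T (sc x) : ℝ) + 1)) := by
        nlinarith
      linarith
    · exact div_le_div_of_nonneg_left hx.le (by positivity) (by linarith)
  · unfold b
    rw [← heq, if_neg (by linarith)]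

theorem pattern_aux {ι : Type*} (n : ℕ) : ∀ (j : ℕ) (s : Finset ι) (f : ι → ℝ), s.card = n →
    (∀ i ∈ s, 0 < f i) → ∑ i ∈ s, f i ≤ 1 / (T j : ℝ) →
    ∑ i ∈ s, b (f i) ≤ ∑ i ∈ Finset.range (n + 1), 1 / (T (j + 1 + i) : ℝ) := by
  classical
  induction n with
  | zero =>
    intro j s f hs _ _
    rw [Finset.card_eq_zero] at hs
    subst hs
    simp
  | succ n ih =>
    intro j s f hs hpos hsum
    have hTj := Tr_pos j
    by_cases hex : ∃ i0 ∈ s, 1 / ((T j : ℝ) + 1) < f i0
    · obtain ⟨i0, hi0, hlt⟩ := hex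
      have hle : f i0 ≤ 1 / (T j : ℝ) := by
        refine le_trans ?_ hsum
        exact Finset.single_le_sum (f := f) (fun i hi => (hpos i hi).le) hi0
      have hsc : sc (f i0) = j := by
        apply le_antisymm
        · apply sc_le
          refine lt_of_le_of_lt ?_ hlt
          apply one_div_le_one_div_of_le (by positivity)
          exact_mod_cast T_succ_ge j
        · exact sc_ge (hpos i0 hi0) hle
      have hb : b (f i0) = 1 / (T (j + 1) : ℝ) := by
        unfold b
        rw [hsc, if_pos hlt]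
      have hcard : (s.erase i0).card = n := by
        rw [Finset.card_erase_of_mem hi0, hs]; simp
      have hrest : ∑ i ∈ s.erase i0, f i ≤ 1 / (T (j + 1) : ℝ) := by
        have h1 := Finset.add_sum_erase s f hi0
        have h2 : 1 / (T (j + 1) : ℝ) = 1 / (T j : ℝ) - 1 / ((T j : ℝ) + 1) := by
          rw [Tr_succ]; field_simp; ring
        rw [h2]; linarith
      have h3 := ih (j + 1) (s.erase i0) f hcard
        (fun i hi => hpos i (Finset.mem_of_mem_erase hi)) hrest
      have h4 := Finset.add_sum_erase s (fun i => b (f i)) hi0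
      rw [← h4, Finset.sum_range_succ']
      have h5 : ∑ k ∈ Finset.range (n + 1), 1 / (T (j + 1 + (k + 1)) : ℝ)
          = ∑ k ∈ Finset.range (n + 1), 1 / (T (j + 1 + 1 + k) : ℝ) := by
        apply Finset.sum_congr rfl
        intro k _
        rw [show j + 1 + (k + 1) = j + 1 + 1 + k by ring]
      rw [h5]
      simp only [hb, Nat.add_zero]
      linarith
    · push Not at hex
      have h1 : ∑ i ∈ s, b (f i) ≤ ∑ i ∈ s, f i / ((T j : ℝ) + 1) :=
        Finset.sum_le_sum (fun i hi => b_le (hpos i hi) (hex i hi))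
      rw [← Finset.sum_div] at h1
      have h2 : (∑ i ∈ s, f i) / ((T j : ℝ) + 1) ≤ 1 / (T (j + 1) : ℝ) := by
        rw [Tr_succ, ← div_div]
        exact div_le_div_of_nonneg_right hsum (by positivity)
      have h3 : 1 / (T (j + 1) : ℝ) ≤ ∑ i ∈ Finset.range (n + 1 + 1), 1 / (T (j + 1 + i) : ℝ) := by
        have := Finset.single_le_sum (f := fun i : ℕ => 1 / (T (j + 1 + i) : ℝ))
          (s := Finset.range (n + 1 + 1)) (fun i _ => by positivity) (Finset.mem_range.2 (Nat.succ_pos _))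
        simpa using this
      linarith

theorem T_ge_pow (n : ℕ) : 2 ^ n ≤ 2 * T n := by
  induction n with
  | zero => simp [T]
  | succ n ih =>
    rw [T_succ, pow_succ]
    have := T_pos n
    nlinarith

theorem summable_T : Summable (fun i : ℕ => 1 / (T i : ℝ)) := by
  have h : Summable (fun i : ℕ => 2 * (1 / 2 : ℝ) ^ i) :=
    (summable_geometric_of_lt_one (by norm_num) (by norm_num)).mul_left 2
  refine Summable.of_nonneg_of_le (fun i => by positivity) (fun i => ?_) h
  have h1 : ((2 : ℝ) ^ i) ≤ 2 * (T i : ℝ) := by exact_mod_cast T_ge_pow i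
  have hT := Tr_pos i
  rw [one_div_pow, mul_one_div, div_le_div_iff₀ hT (by positivity)]
  linarith

/-- the harmonic number `h_∞`. -/
noncomputable def hh : ℝ := ∑' i : ℕ, 1 / (T i : ℝ)

theorem pattern {ι : Type*} (s : Finset ι) (f : ι → ℝ) (hpos : ∀ i ∈ s, 0 < f i)
    (hsum : ∑ i ∈ s, f i ≤ 1) : ∑ i ∈ s, w (f i) ≤ hh := by
  have h1 := pattern_aux s.card 0 s f rfl hpos (by simpa [T] using hsum)
  have h2 : ∑ i ∈ s, w (f i) = ∑ i ∈ s, f i + ∑ i ∈ s, b (f i) := by
    simp only [w, Finset.sum_add_distrib]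
  rw [h2]
  have h3 : ∑ i ∈ Finset.range (s.card + 1 + 1), 1 / (T i : ℝ) ≤ hh :=
    summable_T.sum_le_tsum _ (fun i _ => by positivity)
  rw [Finset.sum_range_succ'] at h3
  have h4 : ∑ k ∈ Finset.range (s.card + 1), 1 / (T (k + 1) : ℝ)
      = ∑ i ∈ Finset.range (s.card + 1), 1 / (T (0 + 1 + i) : ℝ) := by
    apply Finset.sum_congr rfl
    intro k _
    rw [show 0 + 1 + k = k + 1 by ring]
  rw [h4] at h3
  have h5 : (1 : ℝ) / (T 0 : ℝ) = 1 := by simp [T]
  rw [h5] at h3
  linarith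


/-- tax -/
noncomputable def tau (x : ℝ) : ℝ := 3 / (T (sc x + 2) : ℝ)

theorem tau_pos (x : ℝ) : 0 < tau x := by
  unfold tau
  have := Tr_pos (sc x + 2)
  positivity

/-- total weight of a bin -/
noncomputable def wt (Z : List ℝ) : ℝ := (Z.map w).sum

theorem W_le_w {x : ℝ} {i : ℕ} (hi : 1 ≤ i) (hlo : 1 / ((i : ℝ) + 1) < x)
    (hhi : x ≤ 1 / (i : ℝ)) : 1 / (i : ℝ) ≤ w x := by
  have hir : (1 : ℝ) ≤ (i : ℝ) := by exact_mod_cast hi
  have hx : 0 < x := lt_trans (by positivity) hlo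
  have hx1 : x ≤ 1 := le_trans hhi (by rw [div_le_one (by positivity)]; exact hir)
  have hTp := Tr_pos (sc x)
  have h1 : 1 / ((i : ℝ) + 1) < 1 / (T (sc x) : ℝ) := lt_of_lt_of_le hlo (le_sc hx1)
  have h2 : (T (sc x) : ℝ) < (i : ℝ) + 1 := (one_div_lt_one_div (by positivity) hTp).1 h1
  have h3 : T (sc x) ≤ i := by
    have : T (sc x) < i + 1 := by exact_mod_cast h2
    omega
  rcases h3.lt_or_eq with hlt | heq
  · have h4 : (T (sc x) : ℝ) + 1 ≤ (i : ℝ) := by exact_mod_cast hlt
    have h5 := b_ge hx1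
    have h6 : w x = x + b x := rfl
    have h7 : x * (((T (sc x) : ℝ) + 2) / ((T (sc x) : ℝ) + 1)) ≤ w x := by
      rw [h6]
      have : x * (((T (sc x) : ℝ) + 2) / ((T (sc x) : ℝ) + 1)) = x + x / ((T (sc x) : ℝ) + 1) := by
        field_simp; ring
      linarith
    refine le_trans ?_ h7
    have h8 : 1 / ((i : ℝ) + 1) * (((T (sc x) : ℝ) + 2) / ((T (sc x) : ℝ) + 1))
        ≤ x * (((T (sc x) : ℝ) + 2) / ((T (sc x) : ℝ) + 1)) :=
      mul_le_mul_of_nonneg_right hlo.le (by positivity)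
    refine le_trans ?_ h8
    rw [div_mul_div_comm, div_le_div_iff₀ (by positivity) (by positivity)]
    nlinarith
  · have hc : 1 / ((T (sc x) : ℝ) + 1) < x := by rw [heq]; exact hlo
    have h6 : w x = x + 1 / (T (sc x + 1) : ℝ) := by
      unfold w b
      rw [if_pos hc]
    rw [h6, Tr_succ, heq]
    have h9 : 1 / (i : ℝ) = 1 / ((i : ℝ) + 1) + 1 / ((i : ℝ) * ((i : ℝ) + 1)) := by
      field_simp
    rw [h9]
    linarith

theorem count_class {Z : List ℝ} {x : ℝ} {i : ℕ} (hi : 1 ≤ i) (hx : x ≤ 1 / (i : ℝ))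
    (hZ : ∀ u ∈ Z, 1 / ((i : ℝ) + 1) < u ∧ u ≤ 1 / (i : ℝ)) (hs : 1 < Z.sum + x) : 1 ≤ wt Z := by
  have hir : (1 : ℝ) ≤ (i : ℝ) := by exact_mod_cast hi
  have h1 : Z.sum ≤ Z.length • (1 / (i : ℝ)) := List.sum_le_card_nsmul Z _ (fun u hu => (hZ u hu).2)
  have h2 : Z.length • (1 / (i : ℝ)) ≤ wt Z := by
    have h3 := List.card_nsmul_le_sum (Z.map w) (1 / (i : ℝ)) (by
      intro y hy
      rw [List.mem_map] at hy
      obtain ⟨u, hu, rfl⟩ := hy
      exact W_le_w hi (hZ u hu).1 (hZ u hu).2)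
    rwa [List.length_map] at h3
  have h4 : i ≤ Z.length := by
    by_contra hlt
    push Not at hlt
    have h5 : ((Z.length : ℝ) + 1) ≤ (i : ℝ) := by exact_mod_cast hlt
    rw [nsmul_eq_mul] at h1
    have h6 : (Z.length : ℝ) * (1 / (i : ℝ)) + 1 / (i : ℝ) ≤ 1 := by
      have : (Z.length : ℝ) * (1 / (i : ℝ)) + 1 / (i : ℝ) = ((Z.length : ℝ) + 1) / (i : ℝ) := by
        field_simp
      rw [this, div_le_one (by positivity)]
      exact h5
    linarith
  rw [nsmul_eq_mul] at h2
  refine le_trans ?_ h2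
  have h7 : (i : ℝ) ≤ (Z.length : ℝ) := by exact_mod_cast h4
  calc (1 : ℝ) = (i : ℝ) * (1 / (i : ℝ)) := by field_simp
    _ ≤ (Z.length : ℝ) * (1 / (i : ℝ)) := mul_le_mul_of_nonneg_right h7 (by positivity)

theorem wt_sub (Z : List ℝ) (c : ℝ) : (Z.map (fun u => w u - c * u)).sum = wt Z - c * Z.sum := by
  induction Z with
  | nil => simp [wt]
  | cons a Z ih =>
    unfold wt at ih ⊢
    simp only [List.map_cons, List.sum_cons]
    rw [ih]; ring

theorem wt_ge_of_mem {Z : List ℝ} {M : ℕ} {f : ℝ} (hZ : ∀ u ∈ Z, 0 < u ∧ u ≤ 1 ∧ sc u ≤ M)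
    (hf : f ∈ Z) : Z.sum * (1 + 1 / ((T M : ℝ) + 1))
      + f * (1 / ((T (sc f) : ℝ) + 1) - 1 / ((T M : ℝ) + 1)) ≤ wt Z := by
  have hM := Tr_pos M
  set c : ℝ := 1 + 1 / ((T M : ℝ) + 1) with hc
  have h1 : ∀ y ∈ Z.map (fun u => w u - c * u), (0 : ℝ) ≤ y := by
    intro y hy
    rw [List.mem_map] at hy
    obtain ⟨u, hu, rfl⟩ := hy
    obtain ⟨h1, h2, h3⟩ := hZ u hu
    have h4 := b_ge_of_le h1 h2 h3
    have h5 : c * u = u + u / ((T M : ℝ) + 1) := by rw [hc]; ring
    show 0 ≤ w u - c * u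
    unfold w
    linarith
  have h2 : w f - c * f ≤ (Z.map (fun u => w u - c * u)).sum :=
    List.single_le_sum h1 _ (List.mem_map.2 ⟨f, hf, rfl⟩)
  rw [wt_sub] at h2
  obtain ⟨h3, h4, h5⟩ := hZ f hf
  have h6 := b_ge h4
  have h7 : w f = f + b f := rfl
  have h8 : f * (1 / ((T (sc f) : ℝ) + 1) - 1 / ((T M : ℝ) + 1))
      = f / ((T (sc f) : ℝ) + 1) - (c * f - f) := by rw [hc]; ring
  rw [h8]
  rw [h7] at h2
  linarith

theorem wt_ge {Z : List ℝ} {M : ℕ} (hZ : ∀ u ∈ Z, 0 < u ∧ u ≤ 1 ∧ sc u ≤ M) :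
    Z.sum * (1 + 1 / ((T M : ℝ) + 1)) ≤ wt Z := by
  have hM := Tr_pos M
  set c : ℝ := 1 + 1 / ((T M : ℝ) + 1) with hc
  have h1 : ∀ y ∈ Z.map (fun u => w u - c * u), (0 : ℝ) ≤ y := by
    intro y hy
    rw [List.mem_map] at hy
    obtain ⟨u, hu, rfl⟩ := hy
    obtain ⟨h1, h2, h3⟩ := hZ u hu
    have h4 := b_ge_of_le h1 h2 h3
    have h5 : c * u = u + u / ((T M : ℝ) + 1) := by rw [hc]; ring
    show 0 ≤ w u - c * u
    unfold w
    linarith
  have h2 := List.sum_nonneg h1
  rw [wt_sub] at h2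
  linarith

theorem wt_ge_mem' {Z : List ℝ} {f : ℝ} (hZ : ∀ u ∈ Z, 0 < u ∧ u ≤ 1) (hf : f ∈ Z) :
    Z.sum + b f ≤ wt Z := by
  have h1 : ∀ y ∈ Z.map (fun u => w u - 1 * u), (0 : ℝ) ≤ y := by
    intro y hy
    rw [List.mem_map] at hy
    obtain ⟨u, hu, rfl⟩ := hy
    obtain ⟨h1, h2⟩ := hZ u hu
    have := b_pos h1 h2
    show 0 ≤ w u - 1 * u
    unfold w
    linarith
  have h2 : w f - 1 * f ≤ (Z.map (fun u => w u - 1 * u)).sum :=
    List.single_le_sum h1 _ (List.mem_map.2 ⟨f, hf, rfl⟩)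
  rw [wt_sub] at h2
  have h3 : w f = f + b f := rfl
  linarith

/-- (E1) -/
theorem E1 {Z : List ℝ} {M : ℕ} (hZ : ∀ u ∈ Z, 0 < u ∧ u ≤ 1 ∧ sc u ≤ M)
    (hs : 1 - 1 / (T M : ℝ) ≤ Z.sum) : 1 - 2 / (T (M + 1) : ℝ) ≤ wt Z := by
  have hM := Tr_pos M
  refine le_trans ?_ (wt_ge hZ)
  have h1 : 1 - 2 / (T (M + 1) : ℝ) = (1 - 1 / (T M : ℝ)) * (1 + 1 / ((T M : ℝ) + 1)) := by
    rw [Tr_succ]; field_simp; ring
  rw [h1]
  exact mul_le_mul_of_nonneg_right hs (by positivity)

theorem num1 {a : ℝ} (ha : 6 ≤ a) : 6 / (a * (a + 1) + 1) ≤ 1 / (a + 1) := by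
  rw [div_le_div_iff₀ (by positivity) (by positivity)]
  nlinarith

/-- (E2) -/
theorem E2 {Z : List ℝ} {M : ℕ} {f : ℝ} (hZ : ∀ u ∈ Z, 0 < u ∧ u ≤ 1 ∧ sc u ≤ M)
    (hs : 1 - 1 / (T M : ℝ) ≤ Z.sum) (hf : f ∈ Z) (hj : 2 ≤ sc f) (hlt : sc f < M) :
    1 + tau f ≤ wt Z := by
  have hM := Tr_pos M
  refine le_trans ?_ (wt_ge_of_mem hZ hf)
  have h1 : 1 - 2 / (T (M + 1) : ℝ) = (1 - 1 / (T M : ℝ)) * (1 + 1 / ((T M : ℝ) + 1)) := by
    rw [Tr_succ]; field_simp; ring
  have h2 : (1 - 1 / (T M : ℝ)) * (1 + 1 / ((T M : ℝ) + 1)) ≤ Z.sum * (1 + 1 / ((T M : ℝ) + 1)) :=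
    mul_le_mul_of_nonneg_right hs (by positivity)
  have ha : (6 : ℝ) ≤ (T (sc f) : ℝ) := by exact_mod_cast T_ge_six hj
  have hf0 := (hZ f hf).1
  have hf1 := sc_lt hf0
  have hcM : (T (sc f + 1) : ℝ) ≤ (T M : ℝ) := Tr_mono hlt
  have hcp := Tr_pos (sc f + 1)
  have h3 : 2 / (T (M + 1) : ℝ) ≤ 2 / (T (sc f + 2) : ℝ) :=
    div_le_div_of_nonneg_left (by norm_num) (Tr_pos _) (Tr_mono (by omega))
  have h4 : 6 / ((T (sc f + 1) : ℝ) + 1) ≤ 1 / ((T (sc f) : ℝ) + 1) := by
    rw [Tr_succ]; exact num1 ha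
  have h5 : 1 / ((T M : ℝ) + 1) ≤ 1 / ((T (sc f + 1) : ℝ) + 1) :=
    one_div_le_one_div_of_le (by positivity) (by linarith)
  have h6 : 5 / ((T (sc f + 1) : ℝ) + 1) ≤ 1 / ((T (sc f) : ℝ) + 1) - 1 / ((T M : ℝ) + 1) := by
    have : 6 / ((T (sc f + 1) : ℝ) + 1) = 5 / ((T (sc f + 1) : ℝ) + 1) + 1 / ((T (sc f + 1) : ℝ) + 1) := by
      ring
    linarith
  have h7 : 5 / (T (sc f + 2) : ℝ) ≤ f * (1 / ((T (sc f) : ℝ) + 1) - 1 / ((T M : ℝ) + 1)) := by
    have h8 : 5 / (T (sc f + 2) : ℝ) = 1 / (T (sc f + 1) : ℝ) * (5 / ((T (sc f + 1) : ℝ) + 1)) := by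
      rw [show sc f + 2 = (sc f + 1) + 1 by ring, Tr_succ (sc f + 1)]; field_simp
    rw [h8]
    exact mul_le_mul hf1.le h6 (by positivity) hf0.le
  have h9 : tau f = 5 / (T (sc f + 2) : ℝ) - 2 / (T (sc f + 2) : ℝ) := by unfold tau; ring
  linarith

/-- (E3) -/
theorem E3 {Z : List ℝ} {k : ℕ} {f : ℝ} (hZ : ∀ u ∈ Z, 0 < u ∧ u ≤ 1)
    (hs : 1 - 1 / (T k : ℝ) ≤ Z.sum) (hf : f ∈ Z) (hj : 2 ≤ sc f) (hlt : sc f + 2 ≤ k) :
    1 + tau f ≤ wt Z := by
  refine le_trans ?_ (wt_ge_mem' hZ hf)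
  obtain ⟨hf0, hf1⟩ := hZ f hf
  have ha : (6 : ℝ) ≤ (T (sc f) : ℝ) := by exact_mod_cast T_ge_six hj
  have h1 := b_ge hf1
  have h2 := sc_lt hf0
  have hcp := Tr_pos (sc f + 1)
  have h3 : 1 / (T k : ℝ) ≤ 1 / (T (sc f + 2) : ℝ) :=
    one_div_le_one_div_of_le (Tr_pos _) (Tr_mono hlt)
  have h4 : 6 / ((T (sc f + 1) : ℝ) + 1) ≤ 1 / ((T (sc f) : ℝ) + 1) := by
    rw [Tr_succ]; exact num1 ha
  have h5 : 6 / (T (sc f + 2) : ℝ) ≤ f / ((T (sc f) : ℝ) + 1) := by
    have h8 : 6 / (T (sc f + 2) : ℝ) = 1 / (T (sc f + 1) : ℝ) * (6 / ((T (sc f + 1) : ℝ) + 1)) := by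
      rw [show sc f + 2 = (sc f + 1) + 1 by ring, Tr_succ (sc f + 1)]; field_simp
    rw [h8, div_eq_mul_one_div f]
    exact mul_le_mul h2.le h4 (by positivity) hf0.le
  have h9 : tau f = 6 / (T (sc f + 2) : ℝ) - 3 / (T (sc f + 2) : ℝ) := by unfold tau; ring
  have h10 : 1 / (T (sc f + 2) : ℝ) ≤ 3 / (T (sc f + 2) : ℝ) :=
    div_le_div_of_nonneg_right (by norm_num) (Tr_pos _).le
  linarith

theorem T_three (k : ℕ) : 3 / (T (k + 2) : ℝ) ≤ 1 / (T (k + 1) : ℝ) := by
  have h1 : (2 : ℝ) ≤ (T (k + 1) : ℝ) := by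
    have := T_mono (show 1 ≤ k + 1 by omega)
    have h2 : 2 ≤ T (k + 1) := by simpa [T] using this
    exact_mod_cast h2
  have hp := Tr_pos (k + 1)
  rw [show k + 2 = (k + 1) + 1 by ring, Tr_succ (k + 1), div_le_div_iff₀ (by positivity) hp]
  nlinarith

/-- component -/
noncomputable def comp (x : ℝ) : ℕ :=
  if 1 / 2 < x then 1 else if 1 / 3 < x then 2 else if 1 / 4 < x then 3 else if 1 / 5 < x then 4
  else if 1 / 6 < x then 5 else if 1 / ((T (sc x) : ℝ) + 1) < x then 6
  else if 1 / ((T (sc x) : ℝ) + 2) < x then 7 else 8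

theorem comp_lt (x : ℝ) : comp x < 9 := by
  unfold comp; split_ifs <;> norm_num

/-- the closing condition -/
def good (Z : List ℝ) (x : ℝ) : Prop := ∀ f ∈ Z, 1 + tau f - tau x ≤ wt Z

theorem sc_zero {x : ℝ} (h : 1 / 2 < x) : sc x = 0 := by
  have : sc x ≤ 0 := sc_le (by simpa [T] using (by linarith : (1:ℝ)/2 < x))
  omega

theorem sc_one {x : ℝ} (h : 1 / 6 < x) (h2 : x ≤ 1 / 2) : sc x = 1 := by
  apply le_antisymm
  · exact sc_le (by norm_num [T] at h ⊢; linarith)
  · exact sc_ge (by linarith) (by norm_num [T]; linarith)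

theorem sc_two {x : ℝ} (h0 : 0 < x) (h : x ≤ 1 / 6) : 2 ≤ sc x :=
  sc_ge h0 (by norm_num [T]; linarith)


theorem comp_class {x : ℝ} (hx1 : x ≤ 1) (hc : comp x ≤ 5) :
    1 ≤ comp x ∧ 1 / ((comp x : ℝ) + 1) < x ∧ x ≤ 1 / (comp x : ℝ) ∧
      sc x = (if comp x = 1 then 0 else 1) := by
  by_cases h1 : 1 / 2 < x
  · have h : comp x = 1 := by unfold comp; rw [if_pos h1]
    rw [h]
    refine ⟨le_rfl, ?_, ?_, ?_⟩
    · norm_num; linarith
    · norm_num; exact hx1
    · simp [sc_zero h1]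
  by_cases h2 : 1 / 3 < x
  · have h : comp x = 2 := by unfold comp; rw [if_neg h1, if_pos h2]
    rw [h]
    push Not at h1
    refine ⟨by norm_num, ?_, ?_, ?_⟩
    · norm_num; linarith
    · norm_num; linarith
    · simp [sc_one (x := x) (by linarith) h1]
  by_cases h3 : 1 / 4 < x
  · have h : comp x = 3 := by unfold comp; rw [if_neg h1, if_neg h2, if_pos h3]
    rw [h]
    push Not at h1 h2
    refine ⟨by norm_num, ?_, ?_, ?_⟩
    · norm_num; linarith
    · norm_num; linarith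
    · simp [sc_one (x := x) (by linarith) h1]
  by_cases h4 : 1 / 5 < x
  · have h : comp x = 4 := by unfold comp; rw [if_neg h1, if_neg h2, if_neg h3, if_pos h4]
    rw [h]
    push Not at h1 h2 h3
    refine ⟨by norm_num, ?_, ?_, ?_⟩
    · norm_num; linarith
    · norm_num; linarith
    · simp [sc_one (x := x) (by linarith) h1]
  by_cases h5 : 1 / 6 < x
  · have h : comp x = 5 := by
      unfold comp; rw [if_neg h1, if_neg h2, if_neg h3, if_neg h4, if_pos h5]
    rw [h]
    push Not at h1 h2 h3 h4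
    refine ⟨by norm_num, ?_, ?_, ?_⟩
    · norm_num; linarith
    · norm_num; linarith
    · simp [sc_one (x := x) (by linarith) h1]
  exfalso
  unfold comp at hc
  rw [if_neg h1, if_neg h2, if_neg h3, if_neg h4, if_neg h5] at hc
  split_ifs at hc <;> omega

theorem comp_high {x : ℝ} (hc : 6 ≤ comp x) : x ≤ 1 / 6 ∧
    ((comp x = 6 ∧ 1 / ((T (sc x) : ℝ) + 1) < x) ∨
     (comp x = 7 ∧ x ≤ 1 / ((T (sc x) : ℝ) + 1) ∧ 1 / ((T (sc x) : ℝ) + 2) < x) ∨
     (comp x = 8 ∧ x ≤ 1 / ((T (sc x) : ℝ) + 2))) := by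
  unfold comp at hc ⊢
  split_ifs at hc ⊢ with h1 h2 h3 h4 h5 h6 h7
  · omega
  · omega
  · omega
  · omega
  · omega
  · push Not at h5
    exact ⟨h5, Or.inl ⟨rfl, h6⟩⟩
  · push Not at h5 h6
    exact ⟨h5, Or.inr (Or.inl ⟨rfl, h6, h7⟩)⟩
  · push Not at h5 h7
    exact ⟨h5, Or.inr (Or.inr ⟨rfl, h7⟩)⟩

/-- one scale only -/
theorem same_scale {Z : List ℝ} {x : ℝ} (hc : 6 ≤ comp x) (hx1 : x ≤ 1)
    (hZ : ∀ u ∈ Z, 0 < u ∧ u ≤ 1 ∧ comp u = comp x ∧ sc u = sc x) (hs : 1 < Z.sum + x) :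
    1 ≤ wt Z := by
  have hT := Tr_pos (sc x)
  have hT1 : 1 ≤ T (sc x) := T_pos _
  rcases (comp_high hc).2 with ⟨h1, h2⟩ | ⟨h1, h2, h3⟩ | ⟨h1, h2⟩
  · apply count_class (i := T (sc x)) hT1 (le_sc hx1) _ hs
    intro u hu
    obtain ⟨h4, h5, h6, h7⟩ := hZ u hu
    have h8 := comp_high (x := u) (by omega)
    rcases h8.2 with ⟨_, h9⟩ | ⟨h9, _⟩ | ⟨h9, _⟩
    · rw [h7] at h9
      refine ⟨h9, ?_⟩
      rw [← h7]; exact le_sc h5
    · omega
    · omega
  · apply count_class (i := T (sc x) + 1) (by omega) (by push_cast; exact h2) _ hs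
    intro u hu
    obtain ⟨h4, h5, h6, h7⟩ := hZ u hu
    have h8 := comp_high (x := u) (by omega)
    rcases h8.2 with ⟨h9, _⟩ | ⟨_, h9, h10⟩ | ⟨h9, _⟩
    · omega
    · rw [h7] at h9 h10
      refine ⟨?_, ?_⟩
      · push_cast
        rw [show (T (sc x) : ℝ) + 1 + 1 = (T (sc x) : ℝ) + 2 by ring]
        exact h10
      · push_cast; exact h9
    · omega
  · have h3 := wt_ge (Z := Z) (M := sc x) (fun u hu => ⟨(hZ u hu).1, (hZ u hu).2.1, (hZ u hu).2.2.2.le⟩)
    have h4 : (1 : ℝ) = (1 - 1 / ((T (sc x) : ℝ) + 2)) * (1 + 1 / ((T (sc x) : ℝ) + 1)) := by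
      field_simp; ring
    have h5 : (1 - 1 / ((T (sc x) : ℝ) + 2)) * (1 + 1 / ((T (sc x) : ℝ) + 1))
        ≤ Z.sum * (1 + 1 / ((T (sc x) : ℝ) + 1)) :=
      mul_le_mul_of_nonneg_right (by linarith) (by positivity)
    linarith

theorem key {A B C : List ℝ} {x : ℝ} (hx1 : x ≤ 1)
    (hA : ∀ u ∈ A, 0 < u ∧ u ≤ 1 ∧ comp u = comp x)
    (hB : ∀ u ∈ B, 0 < u ∧ u ≤ 1 ∧ comp u = comp x)
    (hC : ∀ u ∈ C, 0 < u ∧ u ≤ 1 ∧ comp u = comp x)
    (hAB : ∀ u ∈ B, 1 < A.sum + u) (hBC : ∀ u ∈ C, 1 < B.sum + u)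
    (hCx : 1 < C.sum + x) : good C x ∨ good B x ∨ good A x := by
  by_cases hc5 : comp x ≤ 5
  · -- coarse classes
    left
    intro f hf
    obtain ⟨h1, h2, h3, h4⟩ := comp_class hx1 hc5
    obtain ⟨g1, g2, g3⟩ := hC f hf
    have hsc : sc f = sc x := by
      obtain ⟨_, _, _, h5⟩ := comp_class (x := f) g2 (by omega)
      rw [h4, h5, g3]
    have htau : tau f = tau x := by unfold tau; rw [hsc]
    have hw : 1 ≤ wt C := by
      apply count_class h1 h3 _ hCx
      intro u hu
      obtain ⟨k1, k2, k3⟩ := hC u hu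
      obtain ⟨_, k4, k5, _⟩ := comp_class (x := u) k2 (by omega)
      rw [k3] at k4 k5
      exact ⟨k4, k5⟩
    rw [htau]; linarith
  push Not at hc5
  have hc6 : 6 ≤ comp x := hc5
  have two : ∀ u : ℝ, 0 < u → comp u = comp x → 2 ≤ sc u := fun u hu huc =>
    sc_two hu (comp_high (by omega)).1
  have htx := tau_pos x
  by_cases hCs : ∀ u ∈ C, sc u ≤ sc x
  · left
    intro f hf
    have hs : 1 - 1 / (T (sc x) : ℝ) ≤ C.sum := by have := le_sc hx1; linarith
    have hC' : ∀ u ∈ C, 0 < u ∧ u ≤ 1 ∧ sc u ≤ sc x := fun u hu =>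
      ⟨(hC u hu).1, (hC u hu).2.1, hCs u hu⟩
    rcases (hCs f hf).lt_or_eq with hlt | heq
    · have := E2 hC' hs hf (two f (hC f hf).1 (hC f hf).2.2) hlt
      linarith
    · have htau : tau f = tau x := by unfold tau; rw [heq]
      have hw : 1 ≤ wt C := by
        by_cases hall : ∀ u ∈ C, sc u = sc x
        · exact same_scale hc6 hx1 (fun u hu => ⟨(hC u hu).1, (hC u hu).2.1, (hC u hu).2.2, hall u hu⟩) hCx
        · push Not at hall
          obtain ⟨u, hu, hne⟩ := hall
          have := E2 hC' hs hu (two u (hC u hu).1 (hC u hu).2.2) (lt_of_le_of_ne (hCs u hu) hne)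
          have := tau_pos u
          linarith
      rw [htau]; linarith
  · push Not at hCs
    obtain ⟨u, hu, hult⟩ := hCs
    right
    have hu1 : u ≤ 1 / (T (sc x + 1) : ℝ) :=
      le_trans (le_sc (hC u hu).2.1) (one_div_le_one_div_of_le (Tr_pos _) (Tr_mono hult))
    have hBs : 1 - 1 / (T (sc x + 1) : ℝ) ≤ B.sum := by have := hBC u hu; linarith
    by_cases hBsc : ∀ v ∈ B, sc v ≤ sc x + 1
    · left
      intro f hf
      have hB' : ∀ u ∈ B, 0 < u ∧ u ≤ 1 ∧ sc u ≤ sc x + 1 := fun u hu =>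
        ⟨(hB u hu).1, (hB u hu).2.1, hBsc u hu⟩
      rcases (hBsc f hf).lt_or_eq with hlt | heq
      · have := E2 hB' hBs hf (two f (hB f hf).1 (hB f hf).2.2) hlt
        linarith
      · have h1 := E1 hB' hBs
        have h2 : tau f = 3 / (T (sc x + 1 + 2) : ℝ) := by unfold tau; rw [heq]
        have h3 := T_three (sc x + 1)
        have h4 : tau x = 2 / (T (sc x + 1 + 1) : ℝ) + 1 / (T (sc x + 1 + 1) : ℝ) := by
          unfold tau; ring_nf
        linarith
    · push Not at hBsc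
      obtain ⟨v, hv, hvlt⟩ := hBsc
      right
      have hv1 : v ≤ 1 / (T (sc x + 2) : ℝ) :=
        le_trans (le_sc (hB v hv).2.1) (one_div_le_one_div_of_le (Tr_pos _) (Tr_mono hvlt))
      have hAs : 1 - 1 / (T (sc x + 2) : ℝ) ≤ A.sum := by have := hAB v hv; linarith
      intro f hf
      have hA' : ∀ u ∈ A, 0 < u ∧ u ≤ 1 := fun u hu => ⟨(hA u hu).1, (hA u hu).2.1⟩
      by_cases hfs : sc f ≤ sc x
      · have := E3 hA' hAs hf (two f (hA f hf).1 (hA f hf).2.2) (by omega)
        linarith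
      · push Not at hfs
        have h1 := wt_ge_mem' hA' hf
        have h2 := b_pos (hA' f hf).1 (hA' f hf).2
        have h3 : tau f ≤ 3 / (T (sc x + 1 + 2) : ℝ) := by
          unfold tau
          exact div_le_div_of_nonneg_left (by norm_num) (Tr_pos _) (Tr_mono (by omega))
        have h4 := T_three (sc x + 1)
        have h5 : tau x = 2 / (T (sc x + 1 + 1) : ℝ) + 1 / (T (sc x + 1 + 1) : ℝ) := by
          unfold tau; ring_nf
        have h6 : 0 < 1 / (T (sc x + 1 + 1) : ℝ) := by have := Tr_pos (sc x + 1 + 1); positivity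
        have h7 : 2 / (T (sc x + 1 + 1) : ℝ) = 1 / (T (sc x + 1 + 1) : ℝ) + 1 / (T (sc x + 1 + 1) : ℝ) := by ring
        have h8 : 1 / (T (sc x + 2) : ℝ) = 1 / (T (sc x + 1 + 1) : ℝ) := rfl
        linarith


/-- state of the packer of one component: three open bins (id and content, oldest item first),
and the next fresh id. -/
structure St where
  i0 : ℕ
  i1 : ℕ
  i2 : ℕ
  nx : ℕ
  l0 : List ℝ
  l1 : List ℝ
  l2 : List ℝ

def st0 : St := ⟨0, 1, 2, 3, [], [], []⟩

open Classical in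
/-- one step: chosen bin and new state -/
noncomputable def step (s : St) (x : ℝ) : ℕ × St :=
  if s.l0.sum + x ≤ 1 then (s.i0, ⟨s.i0, s.i1, s.i2, s.nx, s.l0 ++ [x], s.l1, s.l2⟩)
  else if s.l1.sum + x ≤ 1 then (s.i1, ⟨s.i0, s.i1, s.i2, s.nx, s.l0, s.l1 ++ [x], s.l2⟩)
  else if s.l2.sum + x ≤ 1 then (s.i2, ⟨s.i0, s.i1, s.i2, s.nx, s.l0, s.l1, s.l2 ++ [x]⟩)
  else if good s.l2 x then (s.nx, ⟨s.i0, s.i1, s.nx, s.nx + 1, s.l0, s.l1, [x]⟩)
  else if good s.l1 x then (s.nx, ⟨s.i0, s.i2, s.nx, s.nx + 1, s.l0, s.l2, [x]⟩)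
  else (s.nx, ⟨s.i1, s.i2, s.nx, s.nx + 1, s.l1, s.l2, [x]⟩)

noncomputable def run (L : List ℝ) : St := L.foldl (fun s x => (step s x).2) st0

theorem run_nil : run [] = st0 := rfl

theorem run_snoc (L : List ℝ) (x : ℝ) : run (L ++ [x]) = (step (run L) x).2 := by
  simp [run]

/-- the rule of one component -/
noncomputable def ch (L : List ℝ) (x : ℝ) : ℕ := (step (run L) x).1

/-- load of bin `b` after `L` under rule `A` -/
noncomputable def load (A : List ℝ → ℝ → ℕ) (L : List ℝ) (b : ℕ) : ℝ :=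
  ∑ i ∈ Finset.range L.length, if A (L.take i) (L.getD i 0) = b then L.getD i 0 else 0

/-- used bins -/
def used (A : List ℝ → ℝ → ℕ) (L : List ℝ) : Finset ℕ :=
  (Finset.range L.length).image (fun i => A (L.take i) (L.getD i 0))

theorem load_nil (A : List ℝ → ℝ → ℕ) (b : ℕ) : load A [] b = 0 := by simp [load]

theorem take_snoc (L : List ℝ) (x : ℝ) {i : ℕ} (hi : i ≤ L.length) :
    (L ++ [x]).take i = L.take i := by
  rw [List.take_append_of_le_length hi]

theorem getD_snoc (L : List ℝ) (x : ℝ) {i : ℕ} (hi : i < L.length) :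
    (L ++ [x]).getD i 0 = L.getD i 0 := by
  rw [List.getD_append _ _ _ _ hi]

theorem getD_snoc_last (L : List ℝ) (x : ℝ) : (L ++ [x]).getD L.length 0 = x := by
  simp [List.getD]

theorem load_snoc (A : List ℝ → ℝ → ℕ) (L : List ℝ) (x : ℝ) (b : ℕ) :
    load A (L ++ [x]) b = load A L b + if A L x = b then x else 0 := by
  unfold load
  rw [List.length_append, List.length_singleton, Finset.sum_range_succ]
  congr 1
  · apply Finset.sum_congr rfl
    intro i hi
    rw [Finset.mem_range] at hi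
    rw [take_snoc L x hi.le, getD_snoc L x hi]
  · rw [take_snoc L x le_rfl, getD_snoc_last, List.take_length]

theorem used_nil (A : List ℝ → ℝ → ℕ) : used A [] = ∅ := by simp [used]

theorem used_snoc (A : List ℝ → ℝ → ℕ) (L : List ℝ) (x : ℝ) :
    used A (L ++ [x]) = insert (A L x) (used A L) := by
  unfold used
  rw [List.length_append, List.length_singleton, Finset.range_add_one, Finset.image_insert]
  rw [take_snoc L x le_rfl, getD_snoc_last, List.take_length]
  congr 1
  apply Finset.image_congr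
  intro i hi
  simp only [Finset.coe_range, Set.mem_Iio] at hi
  simp only
  rw [take_snoc L x hi.le, getD_snoc L x hi]

/-- tax of a bin: the tax of its first item -/
noncomputable def th : List ℝ → ℝ
  | [] => 0
  | f :: _ => tau f

theorem th_snoc (Z : List ℝ) (x : ℝ) : th Z ≤ th (Z ++ [x]) := by
  cases Z with
  | nil => simp only [th, List.nil_append]; exact (tau_pos x).le
  | cons a Z => simp [th]

theorem wt_snoc (Z : List ℝ) (x : ℝ) : wt (Z ++ [x]) = wt Z + w x := by
  simp [wt]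

theorem sum_snoc (Z : List ℝ) (x : ℝ) : (Z ++ [x]).sum = Z.sum + x := by simp

/-- potential of the open bins -/
noncomputable def pot (s : St) : ℝ :=
  (wt s.l0 - th s.l0) + (wt s.l1 - th s.l1) + (wt s.l2 - th s.l2)

/-- invariant after a list `L` of items of component `c` -/
structure Inv (c : ℕ) (L : List ℝ) (s : St) : Prop where
  v0 : ∀ u ∈ s.l0, 0 < u ∧ u ≤ 1 ∧ comp u = c
  v1 : ∀ u ∈ s.l1, 0 < u ∧ u ≤ 1 ∧ comp u = c
  v2 : ∀ u ∈ s.l2, 0 < u ∧ u ≤ 1 ∧ comp u = c
  s0 : s.l0.sum ≤ 1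
  s1 : s.l1.sum ≤ 1
  s2 : s.l2.sum ≤ 1
  h01 : ∀ u ∈ s.l1, 1 < s.l0.sum + u
  h02 : ∀ u ∈ s.l2, 1 < s.l0.sum + u
  h12 : ∀ u ∈ s.l2, 1 < s.l1.sum + u
  o01 : s.i0 < s.i1
  o12 : s.i1 < s.i2
  o2n : s.i2 < s.nx
  ld0 : load ch L s.i0 = s.l0.sum
  ld1 : load ch L s.i1 = s.l1.sum
  ld2 : load ch L s.i2 = s.l2.sum
  ldle : ∀ b, load ch L b ≤ 1
  ldn : ∀ b, s.nx ≤ b → load ch L b = 0
  usd : ∀ b ∈ used ch L, b < s.nx
  nxp : (s.nx : ℝ) + pot s ≤ 3 + (L.map w).sum

theorem inv_nil (c : ℕ) : Inv c [] st0 := by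
  refine ⟨?_, ?_, ?_, ?_, ?_, ?_, ?_, ?_, ?_, ?_, ?_, ?_, ?_, ?_, ?_, ?_, ?_, ?_, ?_⟩ <;>
    simp [st0, load_nil, used_nil, pot, wt, th]

theorem good_close {Z : List ℝ} {x : ℝ} (hx1 : x ≤ 1) (hs : ¬ Z.sum + x ≤ 1) (hg : good Z x) :
    1 + th Z - tau x ≤ wt Z := by
  cases Z with
  | nil => simp at hs; linarith
  | cons f Z => exact hg f (List.mem_cons_self ..)

theorem inv_snoc {c : ℕ} {L : List ℝ} {x : ℝ} (h : Inv c L (run L)) (hx0 : 0 < x) (hx1 : x ≤ 1)
    (hxc : comp x = c) : Inv c (L ++ [x]) (run (L ++ [x])) := by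
  have hch : ch L x = (step (run L) x).1 := rfl
  rw [run_snoc]
  set s := run L with hs
  obtain ⟨v0, v1, v2, s0, s1, s2, h01, h02, h12, o01, o12, o2n, ld0, ld1, ld2, ldle, ldn, usd, nxp⟩ := h
  unfold step at hch ⊢
  unfold pot at nxp
  by_cases c0 : s.l0.sum + x ≤ 1
  · rw [if_pos c0] at hch ⊢
    have hch' : ch L x = s.i0 := hch
    refine ⟨?_, v1, v2, ?_, s1, s2, ?_, ?_, h12, o01, o12, o2n, ?_, ?_, ?_, ?_, ?_, ?_, ?_⟩
    · intro u hu
      rcases List.mem_append.1 hu with hu | hu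
      · exact v0 u hu
      · rw [List.mem_singleton] at hu; subst hu; exact ⟨hx0, hx1, hxc⟩
    · show (s.l0 ++ [x]).sum ≤ 1
      rw [sum_snoc]; exact c0
    · intro u hu
      show 1 < (s.l0 ++ [x]).sum + u
      rw [sum_snoc]; have := h01 u hu; linarith
    · intro u hu
      show 1 < (s.l0 ++ [x]).sum + u
      rw [sum_snoc]; have := h02 u hu; linarith
    · show load ch (L ++ [x]) s.i0 = (s.l0 ++ [x]).sum
      rw [load_snoc, hch', if_pos rfl, sum_snoc, ld0]
    · show load ch (L ++ [x]) s.i1 = s.l1.sum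
      rw [load_snoc, hch', if_neg (by omega), ld1, add_zero]
    · show load ch (L ++ [x]) s.i2 = s.l2.sum
      rw [load_snoc, hch', if_neg (by omega), ld2, add_zero]
    · intro b
      rw [load_snoc, hch']
      split_ifs with hb
      · rw [← hb, ld0]; exact c0
      · rw [add_zero]; exact ldle b
    · intro b hb
      change s.nx ≤ b at hb
      rw [load_snoc, hch', if_neg (by omega), ldn b hb, add_zero]
    · intro b hb
      rw [used_snoc, hch', Finset.mem_insert] at hb
      show b < s.nx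
      rcases hb with hb | hb
      · omega
      · exact usd b hb
    · show (s.nx : ℝ) + ((wt (s.l0 ++ [x]) - th (s.l0 ++ [x])) + (wt s.l1 - th s.l1) + (wt s.l2 - th s.l2))
        ≤ 3 + ((L ++ [x]).map w).sum
      have h1 := th_snoc s.l0 x
      rw [wt_snoc, List.map_append, List.sum_append]
      simp only [List.map_cons, List.map_nil, List.sum_cons, List.sum_nil]
      linarith
  rw [if_neg c0] at hch ⊢
  by_cases c1 : s.l1.sum + x ≤ 1
  · rw [if_pos c1] at hch ⊢
    have hch' : ch L x = s.i1 := hch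
    push Not at c0
    refine ⟨v0, ?_, v2, s0, ?_, s2, ?_, h02, ?_, o01, o12, o2n, ?_, ?_, ?_, ?_, ?_, ?_, ?_⟩
    · intro u hu
      rcases List.mem_append.1 hu with hu | hu
      · exact v1 u hu
      · rw [List.mem_singleton] at hu; subst hu; exact ⟨hx0, hx1, hxc⟩
    · show (s.l1 ++ [x]).sum ≤ 1
      rw [sum_snoc]; exact c1
    · intro u hu
      rcases List.mem_append.1 hu with hu | hu
      · exact h01 u hu
      · rw [List.mem_singleton] at hu; subst hu; exact c0
    · intro u hu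
      show 1 < (s.l1 ++ [x]).sum + u
      rw [sum_snoc]; have := h12 u hu; linarith
    · show load ch (L ++ [x]) s.i0 = s.l0.sum
      rw [load_snoc, hch', if_neg (by omega), ld0, add_zero]
    · show load ch (L ++ [x]) s.i1 = (s.l1 ++ [x]).sum
      rw [load_snoc, hch', if_pos rfl, sum_snoc, ld1]
    · show load ch (L ++ [x]) s.i2 = s.l2.sum
      rw [load_snoc, hch', if_neg (by omega), ld2, add_zero]
    · intro b
      rw [load_snoc, hch']
      split_ifs with hb
      · rw [← hb, ld1]; exact c1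
      · rw [add_zero]; exact ldle b
    · intro b hb
      change s.nx ≤ b at hb
      rw [load_snoc, hch', if_neg (by omega), ldn b hb, add_zero]
    · intro b hb
      rw [used_snoc, hch', Finset.mem_insert] at hb
      show b < s.nx
      rcases hb with hb | hb
      · omega
      · exact usd b hb
    · show (s.nx : ℝ) + ((wt s.l0 - th s.l0) + (wt (s.l1 ++ [x]) - th (s.l1 ++ [x])) + (wt s.l2 - th s.l2))
        ≤ 3 + ((L ++ [x]).map w).sum
      have h1 := th_snoc s.l1 x
      rw [wt_snoc, List.map_append, List.sum_append]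
      simp only [List.map_cons, List.map_nil, List.sum_cons, List.sum_nil]
      linarith
  rw [if_neg c1] at hch ⊢
  by_cases c2 : s.l2.sum + x ≤ 1
  · rw [if_pos c2] at hch ⊢
    have hch' : ch L x = s.i2 := hch
    push Not at c0 c1
    refine ⟨v0, v1, ?_, s0, s1, ?_, h01, ?_, ?_, o01, o12, o2n, ?_, ?_, ?_, ?_, ?_, ?_, ?_⟩
    · intro u hu
      rcases List.mem_append.1 hu with hu | hu
      · exact v2 u hu
      · rw [List.mem_singleton] at hu; subst hu; exact ⟨hx0, hx1, hxc⟩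
    · show (s.l2 ++ [x]).sum ≤ 1
      rw [sum_snoc]; exact c2
    · intro u hu
      rcases List.mem_append.1 hu with hu | hu
      · exact h02 u hu
      · rw [List.mem_singleton] at hu; subst hu; exact c0
    · intro u hu
      rcases List.mem_append.1 hu with hu | hu
      · exact h12 u hu
      · rw [List.mem_singleton] at hu; subst hu; exact c1
    · show load ch (L ++ [x]) s.i0 = s.l0.sum
      rw [load_snoc, hch', if_neg (by omega), ld0, add_zero]
    · show load ch (L ++ [x]) s.i1 = s.l1.sum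
      rw [load_snoc, hch', if_neg (by omega), ld1, add_zero]
    · show load ch (L ++ [x]) s.i2 = (s.l2 ++ [x]).sum
      rw [load_snoc, hch', if_pos rfl, sum_snoc, ld2]
    · intro b
      rw [load_snoc, hch']
      split_ifs with hb
      · rw [← hb, ld2]; exact c2
      · rw [add_zero]; exact ldle b
    · intro b hb
      change s.nx ≤ b at hb
      rw [load_snoc, hch', if_neg (by omega), ldn b hb, add_zero]
    · intro b hb
      rw [used_snoc, hch', Finset.mem_insert] at hb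
      show b < s.nx
      rcases hb with hb | hb
      · omega
      · exact usd b hb
    · show (s.nx : ℝ) + ((wt s.l0 - th s.l0) + (wt s.l1 - th s.l1) + (wt (s.l2 ++ [x]) - th (s.l2 ++ [x])))
        ≤ 3 + ((L ++ [x]).map w).sum
      have h1 := th_snoc s.l2 x
      rw [wt_snoc, List.map_append, List.sum_append]
      simp only [List.map_cons, List.map_nil, List.sum_cons, List.sum_nil]
      linarith
  rw [if_neg c2] at hch ⊢
  -- x fits nowhere
  have d0 : 1 < s.l0.sum + x := not_le.1 c0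
  have d1 : 1 < s.l1.sum + x := not_le.1 c1
  have d2 : 1 < s.l2.sum + x := not_le.1 c2
  have ldx : load ch L s.nx = 0 := ldn s.nx le_rfl
  have hwx : wt [x] = w x := by simp [wt]
  have hthx : th [x] = tau x := rfl
  have hkey := key (A := s.l0) (B := s.l1) (C := s.l2) (x := x) hx1
    (by rw [hxc]; exact v0) (by rw [hxc]; exact v1) (by rw [hxc]; exact v2) h01 h12 d2
  by_cases g2 : good s.l2 x
  · rw [if_pos g2] at hch ⊢
    have hch' : ch L x = s.nx := hch
    have hcl := good_close hx1 c2 g2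
    refine ⟨v0, v1, ?_, s0, s1, ?_, h01, ?_, ?_, o01, ?_, ?_, ?_, ?_, ?_, ?_, ?_, ?_, ?_⟩
    · intro u hu
      rw [List.mem_singleton] at hu; subst hu; exact ⟨hx0, hx1, hxc⟩
    · simpa using hx1
    · intro u hu
      rw [List.mem_singleton] at hu; subst hu; exact d0
    · intro u hu
      rw [List.mem_singleton] at hu; subst hu; exact d1
    · show s.i1 < s.nx; omega
    · show s.nx < s.nx + 1; omega
    · show load ch (L ++ [x]) s.i0 = s.l0.sum
      rw [load_snoc, hch', if_neg (by omega), ld0, add_zero]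
    · show load ch (L ++ [x]) s.i1 = s.l1.sum
      rw [load_snoc, hch', if_neg (by omega), ld1, add_zero]
    · show load ch (L ++ [x]) s.nx = [x].sum
      rw [load_snoc, hch', if_pos rfl, ldx]; simp
    · intro b
      rw [load_snoc, hch']
      split_ifs with hb
      · rw [← hb, ldx, zero_add]; exact hx1
      · rw [add_zero]; exact ldle b
    · intro b hb
      change s.nx + 1 ≤ b at hb
      rw [load_snoc, hch', if_neg (by omega), ldn b (by omega), add_zero]
    · intro b hb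
      rw [used_snoc, hch', Finset.mem_insert] at hb
      show b < s.nx + 1
      rcases hb with hb | hb
      · omega
      · have := usd b hb; omega
    · show ((s.nx + 1 : ℕ) : ℝ) + ((wt s.l0 - th s.l0) + (wt s.l1 - th s.l1) + (wt [x] - th [x]))
        ≤ 3 + ((L ++ [x]).map w).sum
      rw [hwx, hthx, List.map_append, List.sum_append]
      simp only [List.map_cons, List.map_nil, List.sum_cons, List.sum_nil]
      push_cast
      linarith
  rw [if_neg g2] at hch ⊢
  by_cases g1 : good s.l1 x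
  · rw [if_pos g1] at hch ⊢
    have hch' : ch L x = s.nx := hch
    have hcl := good_close hx1 c1 g1
    refine ⟨v0, v2, ?_, s0, s2, ?_, h02, ?_, ?_, ?_, ?_, ?_, ?_, ?_, ?_, ?_, ?_, ?_, ?_⟩
    · intro u hu
      rw [List.mem_singleton] at hu; subst hu; exact ⟨hx0, hx1, hxc⟩
    · simpa using hx1
    · intro u hu
      rw [List.mem_singleton] at hu; subst hu; exact d0
    · intro u hu
      rw [List.mem_singleton] at hu; subst hu; exact d2
    · show s.i0 < s.i2; omega
    · show s.i2 < s.nx; omega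
    · show s.nx < s.nx + 1; omega
    · show load ch (L ++ [x]) s.i0 = s.l0.sum
      rw [load_snoc, hch', if_neg (by omega), ld0, add_zero]
    · show load ch (L ++ [x]) s.i2 = s.l2.sum
      rw [load_snoc, hch', if_neg (by omega), ld2, add_zero]
    · show load ch (L ++ [x]) s.nx = [x].sum
      rw [load_snoc, hch', if_pos rfl, ldx]; simp
    · intro b
      rw [load_snoc, hch']
      split_ifs with hb
      · rw [← hb, ldx, zero_add]; exact hx1
      · rw [add_zero]; exact ldle b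
    · intro b hb
      change s.nx + 1 ≤ b at hb
      rw [load_snoc, hch', if_neg (by omega), ldn b (by omega), add_zero]
    · intro b hb
      rw [used_snoc, hch', Finset.mem_insert] at hb
      show b < s.nx + 1
      rcases hb with hb | hb
      · omega
      · have := usd b hb; omega
    · show ((s.nx + 1 : ℕ) : ℝ) + ((wt s.l0 - th s.l0) + (wt s.l2 - th s.l2) + (wt [x] - th [x]))
        ≤ 3 + ((L ++ [x]).map w).sum
      rw [hwx, hthx, List.map_append, List.sum_append]
      simp only [List.map_cons, List.map_nil, List.sum_cons, List.sum_nil]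
      push_cast
      linarith
  rw [if_neg g1] at hch ⊢
  · have hch' : ch L x = s.nx := hch
    have g0 : good s.l0 x := by tauto
    have hcl := good_close hx1 c0 g0
    refine ⟨v1, v2, ?_, s1, s2, ?_, h12, ?_, ?_, ?_, ?_, ?_, ?_, ?_, ?_, ?_, ?_, ?_, ?_⟩
    · intro u hu
      rw [List.mem_singleton] at hu; subst hu; exact ⟨hx0, hx1, hxc⟩
    · simpa using hx1
    · intro u hu
      rw [List.mem_singleton] at hu; subst hu; exact d1
    · intro u hu
      rw [List.mem_singleton] at hu; subst hu; exact d2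
    · show s.i1 < s.i2; omega
    · show s.i2 < s.nx; omega
    · show s.nx < s.nx + 1; omega
    · show load ch (L ++ [x]) s.i1 = s.l1.sum
      rw [load_snoc, hch', if_neg (by omega), ld1, add_zero]
    · show load ch (L ++ [x]) s.i2 = s.l2.sum
      rw [load_snoc, hch', if_neg (by omega), ld2, add_zero]
    · show load ch (L ++ [x]) s.nx = [x].sum
      rw [load_snoc, hch', if_pos rfl, ldx]; simp
    · intro b
      rw [load_snoc, hch']
      split_ifs with hb
      · rw [← hb, ldx, zero_add]; exact hx1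
      · rw [add_zero]; exact ldle b
    · intro b hb
      change s.nx + 1 ≤ b at hb
      rw [load_snoc, hch', if_neg (by omega), ldn b (by omega), add_zero]
    · intro b hb
      rw [used_snoc, hch', Finset.mem_insert] at hb
      show b < s.nx + 1
      rcases hb with hb | hb
      · omega
      · have := usd b hb; omega
    · show ((s.nx + 1 : ℕ) : ℝ) + ((wt s.l1 - th s.l1) + (wt s.l2 - th s.l2) + (wt [x] - th [x]))
        ≤ 3 + ((L ++ [x]).map w).sum
      rw [hwx, hthx, List.map_append, List.sum_append]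
      simp only [List.map_cons, List.map_nil, List.sum_cons, List.sum_nil]
      push_cast
      linarith

theorem inv_run {c : ℕ} (L : List ℝ) (hL : ∀ u ∈ L, 0 < u ∧ u ≤ 1 ∧ comp u = c) :
    Inv c L (run L) := by
  induction L using List.reverseRecOn with
  | nil => exact inv_nil c
  | append_singleton L x ih =>
    obtain ⟨h1, h2, h3⟩ := hL x (by simp)
    exact inv_snoc (ih (fun u hu => hL u (by simp [hu]))) h1 h2 h3


theorem tau_le_w {f : ℝ} (h0 : 0 < f) (h1 : f ≤ 1) : tau f ≤ w f := by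
  have h2 := T_three (sc f)
  have h3 := sc_lt h0
  have h4 := b_pos h0 h1
  unfold tau w
  linarith

theorem w_pos {f : ℝ} (h0 : 0 < f) (h1 : f ≤ 1) : 0 < w f := by
  have h4 := b_pos h0 h1
  unfold w
  linarith

theorem wt_sub_th_nonneg {Z : List ℝ} (hZ : ∀ u ∈ Z, 0 < u ∧ u ≤ 1) : 0 ≤ wt Z - th Z := by
  cases Z with
  | nil => simp [wt, th]
  | cons f Z =>
    have h1 := hZ f (List.mem_cons_self ..)
    have h2 := tau_le_w h1.1 h1.2
    have h3 : 0 ≤ (Z.map w).sum := by
      apply List.sum_nonneg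
      intro y hy
      rw [List.mem_map] at hy
      obtain ⟨u, hu, rfl⟩ := hy
      exact (w_pos (hZ u (List.mem_cons_of_mem _ hu)).1 (hZ u (List.mem_cons_of_mem _ hu)).2).le
    simp only [wt, th, List.map_cons, List.sum_cons]
    linarith

theorem nx_le {c : ℕ} {L : List ℝ} (hL : ∀ u ∈ L, 0 < u ∧ u ≤ 1 ∧ comp u = c) :
    ((run L).nx : ℝ) ≤ 3 + (L.map w).sum := by
  have h := inv_run L hL
  have h1 := h.nxp
  have h2 := wt_sub_th_nonneg (Z := (run L).l0) (fun u hu => ⟨(h.v0 u hu).1, (h.v0 u hu).2.1⟩)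
  have h3 := wt_sub_th_nonneg (Z := (run L).l1) (fun u hu => ⟨(h.v1 u hu).1, (h.v1 u hu).2.1⟩)
  have h4 := wt_sub_th_nonneg (Z := (run L).l2) (fun u hu => ⟨(h.v2 u hu).1, (h.v2 u hu).2.1⟩)
  unfold pot at h1
  linarith

/-- ids of open bins -/
def ids (s : St) : Finset ℕ := {s.i0, s.i1, s.i2}

theorem step_ids (s : St) (x : ℝ) : (∀ k ∈ ids (step s x).2, k ∈ ids s ∨ s.nx ≤ k) ∧
    s.nx ≤ (step s x).2.nx ∧ ((step s x).1 ∈ ids s ∨ s.nx ≤ (step s x).1) := by
  unfold step ids
  split_ifs <;> simp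

theorem run_future (L q : List ℝ) : (∀ k ∈ ids (run (L ++ q)), k ∈ ids (run L) ∨ (run L).nx ≤ k) ∧
    (run L).nx ≤ (run (L ++ q)).nx := by
  induction q using List.reverseRecOn with
  | nil => rw [List.append_nil]; exact ⟨fun k hk => Or.inl hk, le_rfl⟩
  | append_singleton q x ih =>
    rw [← List.append_assoc, run_snoc]
    obtain ⟨h1, h2, _⟩ := step_ids (run (L ++ q)) x
    refine ⟨?_, le_trans ih.2 h2⟩
    intro k hk
    rcases h1 k hk with h | h
    · exact ih.1 k h
    · right; exact le_trans ih.2 h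

theorem ch_future (L q : List ℝ) (x : ℝ) :
    ch (L ++ q) x ∈ ids (run L) ∨ (run L).nx ≤ ch (L ++ q) x := by
  obtain ⟨_, _, h⟩ := step_ids (run (L ++ q)) x
  obtain ⟨h1, h2⟩ := run_future L q
  rcases h with h | h
  · exact h1 _ h
  · right; exact le_trans h2 h

/-- items of component `c` -/
noncomputable def fl (c : ℕ) (L : List ℝ) : List ℝ := L.filter (fun y => decide (comp y = c))

theorem fl_nil (c : ℕ) : fl c [] = [] := rfl

theorem fl_append (c : ℕ) (L M : List ℝ) : fl c (L ++ M) = fl c L ++ fl c M := by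
  unfold fl; rw [List.filter_append]

theorem fl_snoc_eq (c : ℕ) (L : List ℝ) (x : ℝ) (h : comp x = c) :
    fl c (L ++ [x]) = fl c L ++ [x] := by
  rw [fl_append]; simp [fl, h]

theorem fl_snoc_ne (c : ℕ) (L : List ℝ) (x : ℝ) (h : comp x ≠ c) :
    fl c (L ++ [x]) = fl c L := by
  rw [fl_append]; simp [fl, h]

theorem fl_val {c : ℕ} {L : List ℝ} (hL : ∀ y ∈ L, 0 < y ∧ y ≤ 1) :
    ∀ u ∈ fl c L, 0 < u ∧ u ≤ 1 ∧ comp u = c := by
  intro u hu
  unfold fl at hu
  rw [List.mem_filter] at hu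
  refine ⟨(hL u hu.1).1, (hL u hu.1).2, by simpa using hu.2⟩

/-- the packing rule -/
noncomputable def AA (L : List ℝ) (x : ℝ) : ℕ := 9 * ch (fl (comp x) L) x + comp x

theorem AA_mod (L : List ℝ) (x : ℝ) : AA L x % 9 = comp x := by
  have := comp_lt x
  unfold AA; omega

theorem AA_div (L : List ℝ) (x : ℝ) : AA L x / 9 = ch (fl (comp x) L) x := by
  have := comp_lt x
  unfold AA; omega

theorem load_AA (L : List ℝ) (k : ℕ) : load AA L k = load ch (fl (k % 9) L) (k / 9) := by
  induction L using List.reverseRecOn with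
  | nil => rw [fl_nil, load_nil, load_nil]
  | append_singleton L x ih =>
    rw [load_snoc, ih]
    by_cases hx : comp x = k % 9
    · rw [fl_snoc_eq _ _ _ hx, load_snoc]
      congr 1
      have h1 := AA_mod L x
      have h2 := AA_div L x
      have h3 : AA L x % 9 = k % 9 := by rw [h1, hx]
      rw [hx] at h2
      by_cases hk : AA L x = k
      · rw [if_pos hk, if_pos (by rw [← h2, hk])]
      · rw [if_neg hk, if_neg (by intro h; apply hk; rw [← h2] at h; omega)]
    · rw [fl_snoc_ne _ _ _ hx, if_neg, add_zero]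
      intro h
      apply hx
      rw [← h, AA_mod]

theorem used_AA (L : List ℝ) (k : ℕ) : k ∈ used AA L ↔ k / 9 ∈ used ch (fl (k % 9) L) := by
  induction L using List.reverseRecOn with
  | nil => rw [fl_nil, used_nil, used_nil]; simp
  | append_singleton L x ih =>
    rw [used_snoc, Finset.mem_insert, ih]
    by_cases hx : comp x = k % 9
    · rw [fl_snoc_eq _ _ _ hx, used_snoc, Finset.mem_insert]
      have h1 := AA_mod L x
      have h2 := AA_div L x
      rw [← hx]
      constructor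
      · rintro (h | h)
        · left; rw [← h2, h]
        · right; exact h
      · rintro (h | h)
        · left
          rw [← h2] at h
          have h3 : AA L x % 9 = k % 9 := by rw [h1, hx]
          omega
        · right; exact h
    · rw [fl_snoc_ne _ _ _ hx]
      constructor
      · rintro (h | h)
        · exfalso; apply hx; rw [h, AA_mod]
        · exact h
      · intro h; right; exact h

theorem sum_fl (L : List ℝ) :
    ∑ c ∈ Finset.range 9, ((fl c L).map w).sum = (L.map w).sum := by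
  induction L using List.reverseRecOn with
  | nil => simp [fl_nil]
  | append_singleton L x ih =>
    have hc := comp_lt x
    have h1 : ∀ c ∈ Finset.range 9, ((fl c (L ++ [x])).map w).sum
        = ((fl c L).map w).sum + if comp x = c then w x else 0 := by
      intro c _
      by_cases hx : comp x = c
      · rw [fl_snoc_eq _ _ _ hx, if_pos hx]; simp
      · rw [fl_snoc_ne _ _ _ hx, if_neg hx]; simp
    rw [Finset.sum_congr rfl h1, Finset.sum_add_distrib, ih, Finset.sum_ite_eq,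
      if_pos (Finset.mem_range.2 hc)]
    simp

theorem card_used {L : List ℝ} (hL : ∀ y ∈ L, 0 < y ∧ y ≤ 1) :
    ((used AA L).card : ℝ) ≤ 27 + (L.map w).sum := by
  have h1 : used AA L ⊆ (Finset.range 9).biUnion
      (fun c => (Finset.range (run (fl c L)).nx).image (fun k => 9 * k + c)) := by
    intro k hk
    rw [used_AA] at hk
    have h2 := (inv_run (fl (k % 9) L) (fl_val hL)).usd _ hk
    rw [Finset.mem_biUnion]
    refine ⟨k % 9, Finset.mem_range.2 (Nat.mod_lt _ (by norm_num)), ?_⟩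
    rw [Finset.mem_image]
    exact ⟨k / 9, Finset.mem_range.2 h2, by omega⟩
  have h2 : (used AA L).card ≤ ∑ c ∈ Finset.range 9, (run (fl c L)).nx := by
    refine le_trans (Finset.card_le_card h1) (le_trans Finset.card_biUnion_le ?_)
    apply Finset.sum_le_sum
    intro c _
    refine le_trans Finset.card_image_le ?_
    rw [Finset.card_range]
  have h3 : ((used AA L).card : ℝ) ≤ ∑ c ∈ Finset.range 9, ((run (fl c L)).nx : ℝ) := by
    exact_mod_cast h2
  have h4 : ∑ c ∈ Finset.range 9, ((run (fl c L)).nx : ℝ)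
      ≤ ∑ c ∈ Finset.range 9, (3 + ((fl c L).map w).sum) :=
    Finset.sum_le_sum (fun c _ => nx_le (fl_val hL))
  rw [Finset.sum_add_distrib, sum_fl] at h4
  simp only [Finset.sum_const, Finset.card_range, nsmul_eq_mul] at h4
  norm_num at h4
  linarith

theorem bounded (p : List ℝ) (hp : ∀ y ∈ p, 0 < y ∧ y ≤ 1) :
    Set.ncard {k : ℕ | k ∈ used AA p ∧ ∃ q : List ℝ, ∃ x : ℝ,
      (∀ y ∈ q, 0 < y ∧ y ≤ 1) ∧ 0 < x ∧ x ≤ 1 ∧ AA (p ++ q) x = k} ≤ 27 := by
  set F : Finset ℕ := (Finset.range 9).biUnion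
      (fun c => (ids (run (fl c p))).image (fun k => 9 * k + c)) with hF
  have hsub : {k : ℕ | k ∈ used AA p ∧ ∃ q : List ℝ, ∃ x : ℝ,
      (∀ y ∈ q, 0 < y ∧ y ≤ 1) ∧ 0 < x ∧ x ≤ 1 ∧ AA (p ++ q) x = k} ⊆ (F : Set ℕ) := by
    rintro k ⟨hk, q, x, _, _, _, hx⟩
    rw [used_AA] at hk
    have h2 := (inv_run (fl (k % 9) p) (fl_val hp)).usd _ hk
    have h3 : comp x = k % 9 := by rw [← hx, AA_mod]
    have h4 : ch (fl (k % 9) p ++ fl (k % 9) q) x = k / 9 := by
      rw [← fl_append, ← h3, ← AA_div, hx]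
    have h5 := ch_future (fl (k % 9) p) (fl (k % 9) q) x
    rw [h4] at h5
    have h6 : k / 9 ∈ ids (run (fl (k % 9) p)) := by
      rcases h5 with h5 | h5
      · exact h5
      · omega
    rw [Finset.mem_coe, hF, Finset.mem_biUnion]
    refine ⟨k % 9, Finset.mem_range.2 (Nat.mod_lt _ (by norm_num)), ?_⟩
    rw [Finset.mem_image]
    exact ⟨k / 9, h6, by omega⟩
  refine le_trans (Set.ncard_le_ncard hsub (Finset.finite_toSet F)) ?_
  rw [Set.ncard_coe_finset, hF]
  refine le_trans Finset.card_biUnion_le ?_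
  have h7 : ∀ c ∈ Finset.range 9, ((ids (run (fl c p))).image (fun k => 9 * k + c)).card ≤ 3 := by
    intro c _
    refine le_trans Finset.card_image_le ?_
    unfold ids
    exact Finset.card_le_three
  refine le_trans (Finset.sum_le_sum h7) ?_
  simp


theorem fin_load (A : List ℝ → ℝ → ℕ) (L : List ℝ) (k : ℕ) :
    ∑ i ∈ (Finset.univ : Finset (Fin L.length)).filter
      (fun i : Fin L.length => A (L.take (i : ℕ)) (L.get i) = k), L.get i = load A L k := by
  unfold load
  rw [Finset.sum_filter, Finset.sum_range]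
  apply Finset.sum_congr rfl
  intro i _
  have h : L.getD (i : ℕ) 0 = L.get i := by simp
  rw [h]

theorem fin_used (A : List ℝ → ℝ → ℕ) (L : List ℝ) :
    (Finset.univ : Finset (Fin L.length)).image
      (fun i : Fin L.length => A (L.take (i : ℕ)) (L.get i)) = used A L := by
  ext k
  unfold used
  simp only [Finset.mem_image, Finset.mem_univ, true_and, Finset.mem_range]
  constructor
  · rintro ⟨i, hi⟩
    refine ⟨i, i.2, ?_⟩
    have h : L.getD (i : ℕ) 0 = L.get i := by simp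
    rw [h]; exact hi
  · rintro ⟨i, hi, h⟩
    refine ⟨⟨i, hi⟩, ?_⟩
    have h' : L.getD i 0 = L.get ⟨i, hi⟩ := by simp [hi]
    rw [← h, h']

/-- feasible numbers of bins for an off-line packing -/
def packs (L : List ℝ) : Set ℕ := {m : ℕ | ∃ f : Fin L.length → Fin m, ∀ j : Fin m,
        ∑ i ∈ (Finset.univ : Finset (Fin L.length)).filter
            (fun i : Fin L.length => f i = j), L.get i ≤ 1}

theorem packs_nonempty {L : List ℝ} (hL : ∀ y ∈ L, 0 < y ∧ y ≤ 1) : (packs L).Nonempty := by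
  refine ⟨L.length, id, ?_⟩
  intro j
  have : (Finset.univ : Finset (Fin L.length)).filter (fun i : Fin L.length => id i = j) = {j} := by
    ext i; simp
  rw [this, Finset.sum_singleton]
  exact (hL _ (List.get_mem L j)).2

theorem upper {L : List ℝ} (hL : ∀ y ∈ L, 0 < y ∧ y ≤ 1) :
    ((used AA L).card : ℝ) ≤ 27 + hh * ((sInf (packs L) : ℕ) : ℝ) := by
  refine le_trans (card_used hL) ?_
  obtain ⟨f, hf⟩ := Nat.sInf_mem (packs_nonempty hL)
  have h1 : (L.map w).sum = ∑ i : Fin L.length, w (L.get i) := by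
    rw [← List.sum_ofFn]
    congr 1
    apply List.ext_get
    · simp
    · intro n h1 h2
      simp
  have h2 : ∑ i : Fin L.length, w (L.get i)
      = ∑ j : Fin (sInf (packs L)), ∑ i ∈ (Finset.univ : Finset (Fin L.length)).filter
            (fun i : Fin L.length => f i = j), w (L.get i) := by
    rw [Finset.sum_fiberwise]
  have h3 : ∑ j : Fin (sInf (packs L)), ∑ i ∈ (Finset.univ : Finset (Fin L.length)).filter
            (fun i : Fin L.length => f i = j), w (L.get i) ≤ ∑ j : Fin (sInf (packs L)), hh := by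
    apply Finset.sum_le_sum
    intro j _
    exact pattern _ (fun i => L.get i) (fun i _ => (hL _ (List.get_mem L i)).1) (hf j)
  rw [Finset.sum_const, Finset.card_univ, Fintype.card_fin, nsmul_eq_mul] at h3
  rw [h1, h2]
  linarith

/-- sizes of the lower bound instance -/
noncomputable def sz (M j : ℕ) : ℝ :=
  1 / ((T j : ℝ) + 1) + 1 / (((M : ℝ) + 1) * (T (M + 1) : ℝ))

theorem sz_pos (M j : ℕ) : 0 < sz M j := by
  unfold sz
  have h1 := Tr_pos j
  have h2 := Tr_pos (M + 1)
  positivity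

theorem sum_sz (M : ℕ) : ∑ j ∈ Finset.range (M + 1), sz M j = 1 := by
  have h0 : ∀ n : ℕ, ∑ j ∈ Finset.range n, 1 / ((T j : ℝ) + 1) = 1 - 1 / (T n : ℝ) := by
    intro n
    induction n with
    | zero => simp [T]
    | succ n ih =>
      rw [Finset.sum_range_succ, ih, Tr_succ]
      have := Tr_pos n
      field_simp; ring
  unfold sz
  rw [Finset.sum_add_distrib, h0, Finset.sum_const, Finset.card_range, nsmul_eq_mul]
  have := Tr_pos (M + 1)
  push_cast
  field_simp; ring

theorem sz_le_one (M : ℕ) {j : ℕ} (hj : j ≤ M) : sz M j ≤ 1 := by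
  rw [← sum_sz M]
  exact Finset.single_le_sum (f := sz M) (fun i _ => (sz_pos M i).le)
    (Finset.mem_range.2 (by omega))

theorem sz_gt (M j : ℕ) : 1 < ((T j : ℝ) + 1) * sz M j := by
  unfold sz
  have h1 := Tr_pos j
  have h2 := Tr_pos (M + 1)
  rw [mul_add, mul_one_div, div_self (by positivity)]
  have : 0 < ((T j : ℝ) + 1) * (1 / (((M : ℝ) + 1) * (T (M + 1) : ℝ))) := by positivity
  linarith

/-- the lower bound instance -/
noncomputable def LL (M N : ℕ) : List ℝ :=
  List.ofFn (n := (M + 1) * N) (fun i => sz M (M - (i : ℕ) / N))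

theorem LL_length (M N : ℕ) : (LL M N).length = (M + 1) * N := by simp [LL]

theorem LL_getD (M N : ℕ) {i : ℕ} (hi : i < (M + 1) * N) :
    (LL M N).getD i 0 = sz M (M - i / N) := by
  unfold LL
  rw [List.getD_eq_getElem _ _ (by simpa using hi)]
  simp

theorem LL_val (M N : ℕ) : ∀ y ∈ LL M N, 0 < y ∧ y ≤ 1 := by
  intro y hy
  unfold LL at hy
  rw [List.mem_ofFn] at hy
  obtain ⟨i, rfl⟩ := hy
  exact ⟨sz_pos _ _, sz_le_one M (Nat.sub_le _ _)⟩

theorem take_val {L : List ℝ} (hL : ∀ y ∈ L, 0 < y ∧ y ≤ 1) (n : ℕ) :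
    ∀ y ∈ L.take n, 0 < y ∧ y ≤ 1 := fun y hy => hL y (List.mem_of_mem_take hy)

theorem batch_mod {N s i : ℕ} (h1 : s * N ≤ i) (h2 : i < (s + 1) * N) : i / N = s := by
  have hN : 0 < N := by
    rcases Nat.eq_zero_or_pos N with h | h
    · subst h; simp at h2
    · exact h
  rw [Nat.div_eq_iff hN]
  constructor
  · exact h1
  · have : (s + 1) * N = s * N + N := by ring
    omega

theorem lower {A : List ℝ → ℝ → ℕ} {K : ℕ}
    (H1 : ∀ L : List ℝ, (∀ y ∈ L, 0 < y ∧ y ≤ 1) → ∀ k, load A L k ≤ 1)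
    (H2 : ∀ p : List ℝ, (∀ y ∈ p, 0 < y ∧ y ≤ 1) →
      Set.ncard {k : ℕ | k ∈ used A p ∧ ∃ q : List ℝ, ∃ x : ℝ,
        (∀ y ∈ q, 0 < y ∧ y ≤ 1) ∧ 0 < x ∧ x ≤ 1 ∧ A (p ++ q) x = k} ≤ K) (M N : ℕ) :
    (N : ℝ) * ∑ j ∈ Finset.range (M + 1), 1 / (T j : ℝ) - ((M : ℝ) + 1) * K
      ≤ ((used A (LL M N)).card : ℝ) := by
  classical
  set L := LL M N with hLdef
  have hL := LL_val M N
  have hlen : L.length = (M + 1) * N := LL_length M N
  set c : ℕ → ℕ := fun i => A (L.take i) (L.getD i 0) with hc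
  have key : ∀ s : ℕ, s ≤ M + 1 → (N : ℝ) * ∑ j ∈ Finset.range s, 1 / (T (M - j) : ℝ) - (s : ℝ) * K
      ≤ (((Finset.range (s * N)).image c).card : ℝ) := by
    intro s
    induction s with
    | zero => intro _; simp
    | succ s ih =>
      intro hs
      have ih' := ih (by omega)
      set U := (Finset.range (s * N)).image c with hU
      set V := (Finset.Ico (s * N) ((s + 1) * N)).image c with hV
      have hUV : (Finset.range ((s + 1) * N)).image c = U ∪ V := by
        rw [hU, hV, ← Finset.image_union]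
        congr 1
        ext i
        simp only [Finset.mem_range, Finset.mem_union, Finset.mem_Ico]
        have : s * N ≤ (s + 1) * N := Nat.mul_le_mul_right _ (by omega)
        omega
      have hsN : (s + 1) * N ≤ (M + 1) * N := Nat.mul_le_mul_right _ hs
      -- fibers are small
      have hfib : ∀ k ∈ V, ((Finset.Ico (s * N) ((s + 1) * N)).filter (fun i => c i = k)).card
          ≤ T (M - s) := by
        intro k _
        by_contra hgt
        push Not at hgt
        have h1 : ((T (M - s) : ℝ) + 1) ≤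
            (((Finset.Ico (s * N) ((s + 1) * N)).filter (fun i => c i = k)).card : ℝ) := by
          exact_mod_cast hgt
        have h2 := H1 L hL k
        unfold load at h2
        rw [hlen] at h2
        have h3 : ∑ i ∈ (Finset.Ico (s * N) ((s + 1) * N)).filter (fun i => c i = k), sz M (M - s)
            ≤ ∑ i ∈ Finset.range ((M + 1) * N), if A (L.take i) (L.getD i 0) = k then L.getD i 0 else 0 := by
          rw [← Finset.sum_filter]
          have h4 : ∑ i ∈ (Finset.Ico (s * N) ((s + 1) * N)).filter (fun i => c i = k), sz M (M - s)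
              = ∑ i ∈ (Finset.Ico (s * N) ((s + 1) * N)).filter (fun i => c i = k), L.getD i 0 := by
            apply Finset.sum_congr rfl
            intro i hi
            rw [Finset.mem_filter, Finset.mem_Ico] at hi
            rw [LL_getD M N (by omega), batch_mod hi.1.1 hi.1.2]
          rw [h4]
          apply Finset.sum_le_sum_of_subset_of_nonneg
          · intro i hi
            rw [Finset.mem_filter, Finset.mem_Ico] at hi
            rw [Finset.mem_filter, Finset.mem_range]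
            exact ⟨by omega, hi.2⟩
          · intro i hi _
            rw [Finset.mem_filter, Finset.mem_range] at hi
            rw [LL_getD M N hi.1]
            exact (sz_pos _ _).le
        rw [Finset.sum_const, nsmul_eq_mul] at h3
        have h5 := sz_gt M (M - s)
        have h6 := mul_le_mul_of_nonneg_right h1 (sz_pos M (M - s)).le
        linarith
      have hcard : N ≤ T (M - s) * V.card := by
        have h1 := Finset.card_le_mul_card_image (s := Finset.Ico (s * N) ((s + 1) * N)) (f := c)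
          (T (M - s)) hfib
        rw [Nat.card_Ico] at h1
        have : (s + 1) * N - s * N = N := by rw [Nat.succ_mul]; omega
        rwa [this] at h1
      have hint : (U ∩ V).card ≤ K := by
        refine le_trans ?_ (H2 (L.take (s * N)) (take_val hL _))
        rw [← Set.ncard_coe_finset]
        apply Set.ncard_le_ncard
        · intro k hk
          rw [Finset.mem_coe, Finset.mem_inter, hU, hV, Finset.mem_image, Finset.mem_image] at hk
          obtain ⟨⟨i, hi, hik⟩, ⟨i', hi', hik'⟩⟩ := hk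
          rw [Finset.mem_range] at hi
          rw [Finset.mem_Ico] at hi'
          refine ⟨?_, (L.take i').drop (s * N), L.getD i' 0, ?_, ?_, ?_, ?_⟩
          · unfold used
            rw [Finset.mem_image]
            refine ⟨i, ?_, ?_⟩
            · rw [Finset.mem_range, List.length_take, hlen]
              omega
            · rw [List.take_take, min_eq_left hi.le]
              have : (L.take (s * N)).getD i 0 = L.getD i 0 := by
                simp only [List.getD_eq_getElem?_getD]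
                rw [List.getElem?_take_of_lt hi]
              rw [this]
              exact hik
          · intro y hy
            exact hL y (List.mem_of_mem_take (List.mem_of_mem_drop hy))
          · rw [LL_getD M N (by omega)]; exact sz_pos _ _
          · rw [LL_getD M N (by omega)]; exact sz_le_one M (Nat.sub_le _ _)
          · have : L.take (s * N) ++ (L.take i').drop (s * N) = L.take i' := by
              have h := List.take_append_drop (s * N) (L.take i')
              rw [List.take_take, min_eq_left hi'.1] at h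
              exact h
            rw [this]
            exact hik'
        · exact ((used A (L.take (s * N))).finite_toSet).subset (fun k hk => hk.1)
      have hTp := Tr_pos (M - s)
      have h1 : (N : ℝ) / (T (M - s) : ℝ) ≤ (V.card : ℝ) := by
        rw [div_le_iff₀ hTp]
        have : (N : ℝ) ≤ (T (M - s) : ℝ) * (V.card : ℝ) := by exact_mod_cast hcard
        linarith
      have h2 : (((U ∪ V).card : ℕ) : ℝ) + ((U ∩ V).card : ℝ) = (U.card : ℝ) + (V.card : ℝ) := by
        exact_mod_cast Finset.card_union_add_card_inter U V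
      have h3 : ((U ∩ V).card : ℝ) ≤ K := by exact_mod_cast hint
      rw [hUV, Finset.sum_range_succ]
      push_cast
      have h4 : (N : ℝ) * (1 / (T (M - s) : ℝ)) = (N : ℝ) / (T (M - s) : ℝ) := by ring
      nlinarith
  have h := key (M + 1) le_rfl
  have h5 : ∑ j ∈ Finset.range (M + 1), 1 / (T (M - j) : ℝ) = ∑ j ∈ Finset.range (M + 1), 1 / (T j : ℝ) := by
    rw [← Finset.sum_range_reflect]
    apply Finset.sum_congr rfl
    intro j hj
    rw [Finset.mem_range] at hj
    congr 3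
    omega
  rw [h5] at h
  have h6 : used A L = (Finset.range ((M + 1) * N)).image c := by
    unfold used; rw [hlen]
  rw [h6]
  push_cast at h
  exact h

theorem opt_ge (M N m : ℕ) (hm : m ∈ packs (LL M N)) : N ≤ m := by
  obtain ⟨f, hf⟩ := hm
  have hlen := LL_length M N
  have hlt : ∀ i : Fin N, M * N + (i : ℕ) < (LL M N).length := by
    intro i
    rw [hlen, Nat.succ_mul]; omega
  let g : Fin N → Fin m := fun i => f ⟨M * N + i, hlt i⟩
  have hg : Function.Injective g := by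
    intro i i' h
    by_contra hne
    have h1 := hf (g i)
    have hsub : ({⟨M * N + i, hlt i⟩, ⟨M * N + i', hlt i'⟩} : Finset (Fin (LL M N).length)) ⊆
        (Finset.univ : Finset (Fin (LL M N).length)).filter (fun k => f k = g i) := by
      intro k hk
      rw [Finset.mem_insert, Finset.mem_singleton] at hk
      rw [Finset.mem_filter]
      refine ⟨Finset.mem_univ _, ?_⟩
      rcases hk with hk | hk
      · rw [hk]
      · rw [hk, h]
    have h2 : ∑ k ∈ ({⟨M * N + i, hlt i⟩, ⟨M * N + i', hlt i'⟩} : Finset (Fin (LL M N).length)),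
        (LL M N).get k ≤ 1 := by
      refine le_trans ?_ h1
      apply Finset.sum_le_sum_of_subset_of_nonneg hsub
      intro k _ _
      exact (LL_val M N _ (List.get_mem _ k)).1.le
    rw [Finset.sum_pair] at h2
    · have h3 : ∀ (k : Fin N), (LL M N).get ⟨M * N + k, hlt k⟩ = sz M 0 := by
        intro k
        have h4 : (LL M N).get ⟨M * N + k, hlt k⟩ = (LL M N).getD (M * N + k) 0 := by
          rw [List.getD_eq_getElem _ _ (hlt k)]; rfl
        rw [h4, LL_getD M N (by rw [← hlen]; exact hlt k),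
          batch_mod (s := M) (by omega) (by rw [Nat.succ_mul]; omega), Nat.sub_self]
      rw [h3, h3] at h2
      have h5 := sz_gt M 0
      simp only [T, Nat.cast_one] at h5
      linarith
    · intro heq
      apply hne
      rw [Fin.mk.injEq] at heq
      apply Fin.ext
      omega
  have := Fintype.card_le_of_injective g hg
  simpa using this

theorem opt_le (M N : ℕ) (hN : 0 < N) : N ∈ packs (LL M N) := by
  have hlen := LL_length M N
  refine ⟨fun i => ⟨(i : ℕ) % N, Nat.mod_lt _ hN⟩, ?_⟩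
  intro j
  have h1 : ∑ i ∈ (Finset.univ : Finset (Fin (LL M N).length)).filter
      (fun i : Fin (LL M N).length => (⟨(i : ℕ) % N, Nat.mod_lt _ hN⟩ : Fin N) = j), (LL M N).get i
      = ∑ i ∈ Finset.range ((M + 1) * N), if i % N = (j : ℕ) then sz M (M - i / N) else 0 := by
    rw [Finset.sum_filter]
    have h2 := Finset.sum_range (n := (LL M N).length)
      (fun i => if i % N = (j : ℕ) then (LL M N).getD i 0 else 0)
    have h3 : ∑ i ∈ Finset.range ((M + 1) * N), (if i % N = (j : ℕ) then sz M (M - i / N) else 0)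
        = ∑ i ∈ Finset.range (LL M N).length, if i % N = (j : ℕ) then (LL M N).getD i 0 else 0 := by
      rw [hlen]
      apply Finset.sum_congr rfl
      intro i hi
      rw [Finset.mem_range] at hi
      rw [LL_getD M N hi]
    rw [h3, h2]
    apply Finset.sum_congr rfl
    intro i _
    have h4 : (LL M N).getD (i : ℕ) 0 = (LL M N).get i := by simp
    rw [h4]
    simp only [Fin.ext_iff]
  rw [h1]
  have h5 : ∀ s : ℕ, ∑ i ∈ Finset.range (s * N), (if i % N = (j : ℕ) then sz M (M - i / N) else 0)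
      = ∑ r ∈ Finset.range s, sz M (M - r) := by
    intro s
    induction s with
    | zero => simp
    | succ s ih =>
      rw [Nat.succ_mul, Finset.sum_range_add, ih, Finset.sum_range_succ]
      congr 1
      have h6 : ∀ i ∈ Finset.range N, (if (s * N + i) % N = (j : ℕ) then sz M (M - (s * N + i) / N) else 0)
          = if (j : ℕ) = i then sz M (M - s) else 0 := by
        intro i hi
        rw [Finset.mem_range] at hi
        have h7 : (s * N + i) % N = i := by
          rw [Nat.add_comm, Nat.add_mul_mod_self_right, Nat.mod_eq_of_lt hi]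
        have h8 : (s * N + i) / N = s := batch_mod (by omega) (by rw [Nat.succ_mul]; omega)
        rw [h7, h8]
        by_cases h : i = (j : ℕ)
        · rw [if_pos h, if_pos h.symm]
        · rw [if_neg h, if_neg (fun h' => h h'.symm)]
      rw [Finset.sum_congr rfl h6, Finset.sum_ite_eq, if_pos (Finset.mem_range.2 j.2)]
  rw [h5]
  have h9 : ∑ r ∈ Finset.range (M + 1), sz M (M - r) = ∑ r ∈ Finset.range (M + 1), sz M r := by
    rw [← Finset.sum_range_reflect]
    apply Finset.sum_congr rfl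
    intro r hr
    rw [Finset.mem_range] at hr
    congr 1
    omega
  rw [h9, sum_sz]


theorem feas {L : List ℝ} (hL : ∀ y ∈ L, 0 < y ∧ y ≤ 1) (k : ℕ) : load AA L k ≤ 1 := by
  rw [load_AA]; exact (inv_run _ (fl_val hL)).ldle _

theorem t_eq (t : ℕ → ℕ) (h0 : t 0 = 2) (h : ∀ i : ℕ, t (i + 1) = t i * (t i - 1) + 1) (i : ℕ) :
    t i = T i + 1 := by
  induction i with
  | zero => simp [h0, T]
  | succ i ih => rw [h, ih, T_succ, Nat.add_sub_cancel]; ring

theorem tsum_eq (t : ℕ → ℕ) (h0 : t 0 = 2) (h : ∀ i : ℕ, t (i + 1) = t i * (t i - 1) + 1) :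
    ∑' i : ℕ, 1 / ((t i : ℝ) - 1) = hh := by
  unfold hh
  congr 1
  funext i
  rw [t_eq t h0 h i]
  push_cast
  rw [add_sub_cancel_right]

theorem approx {δ : ℝ} (hδ : 0 < δ) : ∃ M : ℕ, hh - δ ≤ ∑ j ∈ Finset.range (M + 1), 1 / (T j : ℝ) := by
  have h1 := summable_T.hasSum.tendsto_sum_nat
  have h2 : ∀ᶠ n : ℕ in Filter.atTop, hh - δ < ∑ j ∈ Finset.range n, 1 / (T j : ℝ) :=
    h1.eventually (lt_mem_nhds (by unfold hh; linarith))
  obtain ⟨n, hn⟩ := (h2.and (Filter.eventually_ge_atTop 1)).exists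
  exact ⟨n - 1, by rw [Nat.sub_add_cancel hn.2]; exact hn.1.le⟩

/-- There is an on-line bin packing rule, bin choice depending only on past items, never overfilling a bin, with at most k bins open at any time, whose asymptotic worst-case ratio is exactly h_∞ = Σ 1/(t_i−1), t_0=2, t_{i+1}=t_i(t_i−1)+1. -/
theorem result :
  ∀ t : ℕ → ℕ, t 0 = 2 → (∀ i : ℕ, t (i + 1) = t i * (t i - 1) + 1) →
  ∃ A : List ℝ → ℝ → ℕ,
    (∀ L : List ℝ, (∀ y ∈ L, 0 < y ∧ y ≤ 1) → ∀ b : ℕ,
      ∑ i ∈ (Finset.univ : Finset (Fin L.length)).filter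
          (fun i : Fin L.length => A (L.take (i : ℕ)) (L.get i) = b),
        L.get i ≤ 1) ∧
    (∃ k : ℕ, ∀ p : List ℝ, (∀ y ∈ p, 0 < y ∧ y ≤ 1) →
      Set.ncard {b : ℕ | (∃ i : Fin p.length, A (p.take (i : ℕ)) (p.get i) = b) ∧
        ∃ q : List ℝ, ∃ x : ℝ, (∀ y ∈ q, 0 < y ∧ y ≤ 1) ∧ 0 < x ∧ x ≤ 1 ∧
          A (p ++ q) x = b} ≤ k) ∧
    (∀ ε : ℝ, 0 < ε → ∃ N : ℕ, ∀ L : List ℝ, (∀ y ∈ L, 0 < y ∧ y ≤ 1) →
      N ≤ sInf {m : ℕ | ∃ f : Fin L.length → Fin m, ∀ j : Fin m,
        ∑ i ∈ (Finset.univ : Finset (Fin L.length)).filter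
            (fun i : Fin L.length => f i = j), L.get i ≤ 1} →
      (((Finset.univ : Finset (Fin L.length)).image
          (fun i : Fin L.length => A (L.take (i : ℕ)) (L.get i))).card : ℝ) ≤
        (∑' i : ℕ, 1 / ((t i : ℝ) - 1) + ε) *
          ((sInf {m : ℕ | ∃ f : Fin L.length → Fin m, ∀ j : Fin m,
            ∑ i ∈ (Finset.univ : Finset (Fin L.length)).filter
                (fun i : Fin L.length => f i = j), L.get i ≤ 1} : ℕ) : ℝ)) ∧
    (∀ ε : ℝ, 0 < ε → ∀ N : ℕ, ∃ L : List ℝ, (∀ y ∈ L, 0 < y ∧ y ≤ 1) ∧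
      N ≤ sInf {m : ℕ | ∃ f : Fin L.length → Fin m, ∀ j : Fin m,
        ∑ i ∈ (Finset.univ : Finset (Fin L.length)).filter
            (fun i : Fin L.length => f i = j), L.get i ≤ 1} ∧
      (∑' i : ℕ, 1 / ((t i : ℝ) - 1) - ε) *
          ((sInf {m : ℕ | ∃ f : Fin L.length → Fin m, ∀ j : Fin m,
            ∑ i ∈ (Finset.univ : Finset (Fin L.length)).filter
                (fun i : Fin L.length => f i = j), L.get i ≤ 1} : ℕ) : ℝ) ≤
        (((Finset.univ : Finset (Fin L.length)).image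
          (fun i : Fin L.length => A (L.take (i : ℕ)) (L.get i))).card : ℝ)) := by
  intro t h0 hrec
  rw [tsum_eq t h0 hrec]
  have hused : ∀ (p : List ℝ) (b : ℕ), (∃ i : Fin p.length, AA (p.take (i : ℕ)) (p.get i) = b)
      ↔ b ∈ used AA p := by
    intro p b
    rw [← fin_used]
    simp
  have hbd : ∀ p : List ℝ, (∀ y ∈ p, 0 < y ∧ y ≤ 1) →
      Set.ncard {b : ℕ | (∃ i : Fin p.length, AA (p.take (i : ℕ)) (p.get i) = b) ∧
        ∃ q : List ℝ, ∃ x : ℝ, (∀ y ∈ q, 0 < y ∧ y ≤ 1) ∧ 0 < x ∧ x ≤ 1 ∧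
          AA (p ++ q) x = b} ≤ 27 := by
    intro p hp
    simp only [hused p]
    exact bounded p hp
  refine ⟨AA, ?_, ⟨27, hbd⟩, ?_, ?_⟩
  · intro L hL b
    rw [fin_load]
    exact feas hL b
  · intro ε hε
    refine ⟨⌈27 / ε⌉₊, ?_⟩
    intro L hL hN
    change ⌈27 / ε⌉₊ ≤ sInf (packs L) at hN
    rw [fin_used]
    change _ ≤ (hh + ε) * ((sInf (packs L) : ℕ) : ℝ)
    have h1 := upper hL
    have h2 : 27 / ε ≤ ((sInf (packs L) : ℕ) : ℝ) :=
      le_trans (Nat.le_ceil _) (by exact_mod_cast hN)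
    rw [div_le_iff₀ hε] at h2
    linarith
  · intro ε hε N0
    obtain ⟨M, hM⟩ := approx (half_pos hε)
    obtain ⟨N1, hN1⟩ := exists_nat_ge (((M : ℝ) + 1) * 27 / (ε / 2))
    set N := N0 + N1 + 1 with hN
    have hmem := opt_le M N (by omega)
    have hopt : sInf (packs (LL M N)) = N :=
      le_antisymm (Nat.sInf_le hmem) (opt_ge M N _ (Nat.sInf_mem ⟨N, hmem⟩))
    refine ⟨LL M N, LL_val M N, ?_, ?_⟩
    · change N0 ≤ sInf (packs (LL M N))
      rw [hopt]; omega
    · rw [fin_used]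
      change (hh - ε) * ((sInf (packs (LL M N)) : ℕ) : ℝ) ≤ _
      rw [hopt]
      have h1 := lower (A := AA) (K := 27) (fun L hL k => feas hL k) bounded M N
      have h2 : ((M : ℝ) + 1) * 27 ≤ (N : ℝ) * (ε / 2) := by
        rw [div_le_iff₀ (by positivity)] at hN1
        have h3 : (N1 : ℝ) ≤ (N : ℝ) := by
          have : N1 ≤ N := by omega
          exact_mod_cast this
        nlinarith
      have h4 : (N : ℝ) * (hh - ε / 2) ≤ (N : ℝ) * ∑ j ∈ Finset.range (M + 1), 1 / (T j : ℝ) :=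
        mul_le_mul_of_nonneg_left hM (by positivity)
      push_cast at h1
      have h5 : (hh - ε) * (N : ℝ) = (N : ℝ) * (hh - ε / 2) - (N : ℝ) * (ε / 2) := by ring
      linarith

end Pool.Agent.S09485
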