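import Pool.Statements.S09495
import Pool.Agent.Helper806.RD.Final

set_option autoImplicit false
open Pool Pool.MP_738f58_lc

namespace Pool.Agent.S09495

open Pool.Agent.Helper806.RD Pool.Agent.Helper806.RE

/-- There is a function f such that every computable partial order on a computable subset of ℕ, of width at most w and with no 3-crown, is the intersection of at most f(w) computable linear orders. -/
theorem result :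
  ∃ f : ℕ → ℕ, ∀ w : ℕ, ∀ P : ℕ → Prop, ∀ r : ℕ → ℕ → Prop,
    ComputablePred P →
    ComputablePred (fun p : ℕ × ℕ => r p.1 p.2) →
    (∀ x, P x → r x x) →
    (∀ x y, P x → P y → r x y → r y x → x = y) →
    (∀ x y z, P x → P y → P z → r x y → r y z → r x z) →
    (∀ s : Finset ℕ, (∀ x ∈ s, P x) →
        (∀ x ∈ s, ∀ y ∈ s, x ≠ y → ¬ r x y ∧ ¬ r y x) → s.card ≤ w) →
    (¬ ∃ a₁ a₂ a₃ b₁ b₂ b₃ : ℕ,
        P a₁ ∧ P a₂ ∧ P a₃ ∧ P b₁ ∧ P b₂ ∧ P b₃ ∧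
        r a₁ b₂ ∧ r a₁ b₃ ∧ r a₂ b₁ ∧ r a₂ b₃ ∧ r a₃ b₁ ∧ r a₃ b₂ ∧
        (¬ r a₁ b₁ ∧ ¬ r b₁ a₁) ∧ (¬ r a₂ b₂ ∧ ¬ r b₂ a₂) ∧
        (¬ r a₃ b₃ ∧ ¬ r b₃ a₃) ∧
        (¬ r a₁ a₂ ∧ ¬ r a₂ a₁) ∧ (¬ r a₁ a₃ ∧ ¬ r a₃ a₁) ∧
        (¬ r a₂ a₃ ∧ ¬ r a₃ a₂) ∧
        (¬ r b₁ b₂ ∧ ¬ r b₂ b₁) ∧ (¬ r b₁ b₃ ∧ ¬ r b₃ b₁) ∧
        (¬ r b₂ b₃ ∧ ¬ r b₃ b₂)) →
    ∃ d : ℕ, d ≤ f w ∧ ∃ L : Fin d → ℕ → ℕ → Prop,
      (∀ i, ComputablePred (fun p : ℕ × ℕ => L i p.1 p.2)) ∧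
      (∀ i, ∀ x, P x → L i x x) ∧
      (∀ i, ∀ x y, P x → P y → L i x y → L i y x → x = y) ∧
      (∀ i, ∀ x y z, P x → P y → P z → L i x y → L i y z → L i x z) ∧
      (∀ i, ∀ x y, P x → P y → L i x y ∨ L i y x) ∧
      (∀ x y, P x → P y → (r x y ↔ ∀ i, L i x y)) := by
  choose f hf using exists_cover
  refine ⟨fun w => (f w).factorial, ?_⟩
  intro w P r hP hr hrefl hanti htrans hwidth hcrown
  let lt : ℕ → ℕ → Prop := fun x y => P x ∧ P y ∧ r x y ∧ x ≠ y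
  have hlt : CR lt := by
    refine cp_and (cp_comp hP (f := fun x : ℕ × ℕ => x.1) (by fun_prop)) ?_
    refine cp_and (cp_comp hP (f := fun x : ℕ × ℕ => x.2) (by fun_prop)) ?_
    exact cp_and hr (cp_not (cp_eq (f := fun x : ℕ × ℕ => x.1) (g := fun x : ℕ × ℕ => x.2)
      (by fun_prop) (by fun_prop)))
  have trans : ∀ x y z, lt x y → lt y z → lt x z := by
    rintro x y z ⟨hx, hy, h1, h2⟩ ⟨-, hz, h3, h4⟩
    refine ⟨hx, hz, htrans x y z hx hy hz h1 h3, ?_⟩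
    rintro rfl
    exact h2 (hanti x y hx hy h1 h3)
  have irrefl : ∀ x, ¬ lt x x := fun x h => h.2.2.2 rfl
  have hinc : ∀ {x y}, P x → P y → x ≠ y → ¬ lt x y → ¬ r x y :=
    fun hx hy hne h1 h2 => h1 ⟨hx, hy, h2, hne⟩
  have hw : WidthLe lt P w := by
    intro F hF ha
    refine hwidth F hF fun x hx y hy hne => ⟨?_, ?_⟩
    · exact hinc (hF x hx) (hF y hy) hne (ha x hx y hy)
    · exact hinc (hF y hy) (hF x hx) hne.symm (ha y hy x hx)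
  obtain ⟨L, L1, L2, L3, L4, L5, L6⟩ := main (hf w) hlt hP trans irrefl hw (by
    intro a₁ a₂ a₃ b₁ b₂ b₃ ha₁ ha₂ ha₃ hb₁ hb₂ hb₃ h1 h2 h3 h4 h5 h6 n1 i1 i1' n2 i2 i2' n3 i3
      i3' m1 j1 j1' m2 j2 j2' m3 j3 j3' o1 k1 k1' o2 k2 k2' o3 k3 k3'
    exact hcrown ⟨a₁, a₂, a₃, b₁, b₂, b₃, ha₁, ha₂, ha₃, hb₁, hb₂, hb₃, h1.2.2.1, h2.2.2.1,
      h3.2.2.1, h4.2.2.1, h5.2.2.1, h6.2.2.1,
      ⟨hinc ha₁ hb₁ n1 i1, hinc hb₁ ha₁ n1.symm i1'⟩,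
      ⟨hinc ha₂ hb₂ n2 i2, hinc hb₂ ha₂ n2.symm i2'⟩,
      ⟨hinc ha₃ hb₃ n3 i3, hinc hb₃ ha₃ n3.symm i3'⟩,
      ⟨hinc ha₁ ha₂ m1 j1, hinc ha₂ ha₁ m1.symm j1'⟩,
      ⟨hinc ha₁ ha₃ m2 j2, hinc ha₃ ha₁ m2.symm j2'⟩,
      ⟨hinc ha₂ ha₃ m3 j3, hinc ha₃ ha₂ m3.symm j3'⟩,
      ⟨hinc hb₁ hb₂ o1 k1, hinc hb₂ hb₁ o1.symm k1'⟩,
      ⟨hinc hb₁ hb₃ o2 k2, hinc hb₃ hb₁ o2.symm k2'⟩,
      ⟨hinc hb₂ hb₃ o3 k3, hinc hb₃ hb₂ o3.symm k3'⟩⟩)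
  refine ⟨(f w).factorial, le_rfl, fun i x y => x = y ∨ L i x y, ?_, ?_, ?_, ?_, ?_, ?_⟩
  · intro i
    exact cp_or (cp_eq (f := fun x : ℕ × ℕ => x.1) (g := fun x : ℕ × ℕ => x.2)
      (by fun_prop) (by fun_prop)) (L1 i)
  · intro i x _
    exact Or.inl rfl
  · intro i x y _ _ h1 h2
    rcases h1 with h1 | h1
    · exact h1
    rcases h2 with h2 | h2
    · exact h2.symm
    · exact absurd (L3 i x y x h1 h2) (L2 i x)
  · intro i x y z _ _ _ h1 h2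
    rcases h1 with h1 | h1
    · rw [h1]; exact h2
    rcases h2 with h2 | h2
    · rw [← h2]; exact Or.inr h1
    · exact Or.inr (L3 i x y z h1 h2)
  · intro i x y _ _
    by_cases h : x = y
    · exact Or.inl (Or.inl h)
    · rcases L4 i x y h with h1 | h1
      · exact Or.inl (Or.inr h1)
      · exact Or.inr (Or.inr h1)
  · intro x y hx hy
    constructor
    · intro h i
      by_cases hxy : x = y
      · exact Or.inl hxy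
      · exact Or.inr (L5 i x y hx hy ⟨hx, hy, h, hxy⟩)
    · intro h
      by_contra hr'
      have hne : x ≠ y := by
        rintro rfl; exact hr' (hrefl x hx)
      have h1 : ¬ lt x y := fun hh => hr' hh.2.2.1
      have key : ∃ i, L i y x := by
        by_cases h2 : lt y x
        · exact ⟨⟨0, Nat.factorial_pos _⟩, L5 _ y x hy hx h2⟩
        · exact L6 x y hx hy hne h1 h2
      obtain ⟨i, hi⟩ := key
      rcases h i with h3 | h3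
      · exact hne h3
      · exact L2 i x (L3 i x y x h3 hi)

end Pool.Agent.S09495
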