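import Pool.Statements.S09501
import Pool.Agent.Helper113.Graph
-- import your own Pool.Agent.* helpers here

set_option autoImplicit false
open Pool Pool.MP_74a51f_lc

namespace Pool.Agent.S09501

open Cardinal Set Pool.Agent.Helper113 in
/-- the main combinatorial theorem on an abstract well-order of type omega_{omega+1} -/
theorem core {K : Type} [LinearOrder K] [WellFoundedLT K] [Nonempty K]
    (hK : #K = Order.succ lam) (hI : ∀ a : K, #(Iio a) ≤ lam)
    (hG : ∀ κ : Cardinal.{0}, ℵ₀ ≤ κ → (2 : Cardinal.{0}) ^ κ = Order.succ κ) :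
    ∃ N : K → Set K, (∀ α, N α ⊆ Iio α) ∧
      (∀ A : Set K, (∀ γ, ∃ α ∈ A, γ < α) → ∃ α ∈ A, ∃ x ∈ A, x ∈ N α) ∧
      (∀ (α β : K) (c : ℕ → K), β < α → (∀ k, c k ∈ N α) → (∀ k, c k ∈ N β) →
        (∀ k l, k < l → c k ∈ N (c l)) → False) := by
  obtain ⟨D, E, hE⟩ := main_setup hK hI hG
  obtain ⟨X, hX⟩ := exists_graph D E
  refine ⟨Nb X, fun α => nb_sub (hX α), ?_, ?_⟩
  · intro A hA
    obtain ⟨n0, hn0⟩ := cat_of_unbounded hK hI D A hA
    have h1 : ∀ n, ∃ δ, n0 ≤ n → E n δ ⊆ A ∧ Good D n δ (E n δ) := by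
      intro n
      by_cases hn : n0 ≤ n
      · obtain ⟨δ, hδ⟩ := hE n A (hn0 n hn)
        exact ⟨δ, fun _ => hδ⟩
      · exact ⟨Classical.arbitrary K, fun h => absurd h hn⟩
    choose δ hδ using h1
    obtain ⟨i, hi⟩ := D.capture (fun n => {δ n}) (fun n =>
      small_subsingleton (aleph0_le_al n) subsingleton_singleton)
    obtain ⟨b, hb⟩ := strict_bound hK hI ({i} ∪ range δ) (by
      refine small_union aleph0_le_lam ?_ ?_
      · exact small_subsingleton aleph0_le_lam subsingleton_singleton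
      · refine Cardinal.mk_range_le.trans ?_
        simpa using aleph0_le_lam)
    obtain ⟨α, hαA, hbα⟩ := hA b
    obtain ⟨n1, hn1⟩ := hi α ((hb i (Or.inl rfl)).trans hbα)
    let n := max n0 n1
    obtain ⟨hsub, hgood⟩ := hδ n (le_max_left _ _)
    have hmem : δ n ∈ D.D n α := hn1 n (le_max_right _ _)
      ⟨rfl, (hb _ (Or.inr ⟨n, rfl⟩)).trans hbα⟩
    obtain ⟨x, hxX, hxE⟩ := (hX α).hit n (δ n) hmem hgood
    exact ⟨α, hαA, x, hsub hxE, mem_iUnion.2 ⟨n, hxX⟩⟩
  · intro α β c hβα hcα hcβ hclique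
    obtain ⟨n, hn⟩ := D.union α β hβα
    have h1 : ∀ k, ∃ m, c k ∈ X α m := fun k => mem_iUnion.1 (hcα k)
    choose m hm using h1
    have hmn : ∀ k, m k < n := by
      intro k
      by_contra hnot
      have h2 : β ∈ D.D (m k) α := D.mono n (m k) α (not_lt.1 hnot) hn
      exact (hX α).disj (m k) β h2 (c k) (hm k) (hcβ k)
    -- pigeonhole
    obtain ⟨k, l, hkl, hmkl⟩ : ∃ k l, k < l ∧ m k = m l := by
      have hninj : ¬ Function.Injective (fun k => (⟨m k, hmn k⟩ : Fin n)) :=
        not_injective_infinite_finite _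
      unfold Function.Injective at hninj
      push Not at hninj
      obtain ⟨k, l, h3, h4⟩ := hninj
      have h3' : m k = m l := by simpa using h3
      rcases lt_or_gt_of_ne h4 with h | h
      · exact ⟨k, l, h, h3'⟩
      · exact ⟨l, k, h, h3'.symm⟩
    have hl := hm l
    rw [← hmkl] at hl
    exact (hX α).indep (m k) (c k) (hm k) (c l) hl (hclique k l hkl)

/-- Assuming GCH, there is a red/blue colouring of pairs of ordinals below omega_{omega+1} with no red-homogeneous set of order type omega_{omega+1} (equivalently of size aleph_{omega+1}) and no blue-homogeneous set of order type omega+2. -/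
theorem result :
    (∀ κ : Cardinal.{0}, Cardinal.aleph0 ≤ κ → (2 : Cardinal.{0}) ^ κ = Order.succ κ) →
    ∃ c : Ordinal.{0} → Ordinal.{0} → Bool,
      (∀ g : Ordinal.{0} → Ordinal.{0},
        StrictMonoOn g (Set.Iio (Cardinal.aleph (Ordinal.omega0 + 1)).ord) →
        (∀ i, i < (Cardinal.aleph (Ordinal.omega0 + 1)).ord →
            g i < (Cardinal.aleph (Ordinal.omega0 + 1)).ord) →
        ∃ i j, i < j ∧ j < (Cardinal.aleph (Ordinal.omega0 + 1)).ord ∧ c (g i) (g j) = true) ∧
      (∀ g : Ordinal.{0} → Ordinal.{0},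
        StrictMonoOn g (Set.Iio (Ordinal.omega0 + 2)) →
        (∀ i, i < Ordinal.omega0 + 2 → g i < (Cardinal.aleph (Ordinal.omega0 + 1)).ord) →
        ∃ i j, i < j ∧ j < Ordinal.omega0 + 2 ∧ c (g i) (g j) = false) := by
  classical
  intro hG
  set o : Ordinal.{0} := (Cardinal.aleph (Ordinal.omega0 + 1)).ord with ho
  have hcard : Cardinal.aleph (Ordinal.omega0 + 1) = Order.succ Pool.Agent.Helper113.lam := by
    rw [← Cardinal.succ_aleph]
    rfl
  have hK : Cardinal.mk o.ToType = Order.succ Pool.Agent.Helper113.lam := by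
    rw [ho, Cardinal.mk_ord_toType, hcard]
  have hI : ∀ a : o.ToType, Cardinal.mk (Set.Iio a) ≤ Pool.Agent.Helper113.lam := by
    intro a
    have h := Cardinal.mk_Iio_lt a (by rw [hK]; simp [ho, hcard])
    rw [hK] at h
    exact Order.lt_succ_iff.1 h
  have hne : Nonempty o.ToType := by
    rw [← Cardinal.mk_ne_zero_iff, hK]
    exact (Cardinal.succ_pos _).ne'
  obtain ⟨N, hN1, hN2, hN3⟩ := core hK hI hG
  let e : Set.Iio o ≃o o.ToType := Ordinal.ToType.mk
  refine ⟨fun x y => decide (∃ (hx : x < o) (hy : y < o), e ⟨x, hx⟩ ∈ N (e ⟨y, hy⟩)), ?_, ?_⟩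
  · intro g hg hgo
    -- the range of `g` is unbounded
    have hge : ∀ i, i < o → i ≤ g i := by
      intro i
      induction i using WellFoundedLT.induction with
      | _ i ih =>
        intro hi
        by_contra hlt
        have hlt' : g i < i := not_le.1 hlt
        have h1 := ih (g i) hlt' (hlt'.trans hi)
        have h2 : g (g i) < g i := hg (hlt'.trans hi) hi hlt'
        exact absurd h1 (not_le.2 h2)
    obtain ⟨α, ⟨j, hj, rfl⟩, x, ⟨i, hi, rfl⟩, hx⟩ :=
      hN2 {a | ∃ (i : Ordinal) (hi : i < o), a = e ⟨g i, hgo i hi⟩} (by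
        intro γ
        have hlim : Order.IsSuccLimit o := Cardinal.isSuccLimit_ord (Cardinal.aleph0_le_aleph _)
        have hγ : (e.symm γ).1 < o := (e.symm γ).2
        have hs : Order.succ (e.symm γ).1 < o := hlim.succ_lt hγ
        refine ⟨_, ⟨Order.succ (e.symm γ).1, hs, rfl⟩, ?_⟩
        have h1 := hge _ hs
        have h2 : e.symm γ < ⟨g (Order.succ (e.symm γ).1), hgo _ hs⟩ :=
          Subtype.mk_lt_mk.2 ((Order.lt_succ _).trans_le h1)
        have h3 := e.lt_iff_lt.2 h2
        rwa [e.apply_symm_apply] at h3)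
    have hlt : e ⟨g i, hgo i hi⟩ < e ⟨g j, hgo j hj⟩ := hN1 _ hx
    have hlt2 : g i < g j := by
      have := e.lt_iff_lt.1 hlt
      exact this
    have hij : i < j := by
      by_contra hnot
      rcases eq_or_lt_of_le (not_lt.1 hnot) with h | h
      · rw [h] at hlt2
        exact lt_irrefl _ hlt2
      · exact absurd (hg hj hi h) (not_lt.2 hlt2.le)
    refine ⟨i, j, hij, hj, ?_⟩
    simp only [decide_eq_true_eq]
    exact ⟨hgo i hi, hgo j hj, hx⟩
  · intro g hg hgo
    by_contra hcon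
    push Not at hcon
    have hadj : ∀ i j, i < j → ∀ hj : j < Ordinal.omega0 + 2, ∀ hi : i < Ordinal.omega0 + 2,
        e ⟨g i, hgo i hi⟩ ∈ N (e ⟨g j, hgo j hj⟩) := by
      intro i j hij hj hi
      have h1 := hcon i j hij hj
      simp only [ne_eq, Bool.not_eq_false, decide_eq_true_eq] at h1
      obtain ⟨_, _, h2⟩ := h1
      exact h2
    have hω2 : (Ordinal.omega0 : Ordinal.{0}) + 1 < Ordinal.omega0 + 2 := by
      simp
    have hω : (Ordinal.omega0 : Ordinal.{0}) < Ordinal.omega0 + 1 := by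
      simp
    have hn : ∀ n : ℕ, (n : Ordinal.{0}) < Ordinal.omega0 := Ordinal.natCast_lt_omega0
    have hn2 : ∀ n : ℕ, (n : Ordinal.{0}) < Ordinal.omega0 + 2 :=
      fun n => (hn n).trans (hω.trans hω2)
    refine hN3 (e ⟨g (Ordinal.omega0 + 1), hgo _ hω2⟩) (e ⟨g Ordinal.omega0, hgo _ (hω.trans hω2)⟩)
      (fun k => e ⟨g k, hgo _ (hn2 k)⟩) ?_ ?_ ?_ ?_
    · exact hN1 _ (hadj _ _ hω hω2 (hω.trans hω2))
    · intro k
      exact hadj _ _ ((hn k).trans hω) hω2 (hn2 k)
    · intro k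
      exact hadj _ _ (hn k) (hω.trans hω2) (hn2 k)
    · intro k l hkl
      exact hadj _ _ (by exact_mod_cast hkl) (hn2 l) (hn2 k)

end Pool.Agent.S09501
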