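import Pool.Statements.S09505
import Pool.Agent.Helper557.Eq.M_fin
import Pool.Agent.Helper557.Eq.M_eqdout

set_option autoImplicit false
open Pool Pool.MP_75103d_lc

namespace Pool.Agent.S09505

/-- For n at least 3, any two bounded Borel sets in R^n with nonempty interior and equal Lebesgue measure can be split into finitely many disjoint Borel pieces that isometries move to a disjoint partition of the other set. -/
theorem result :
    ∀ n : ℕ, 3 ≤ n →
      ∀ A B : Set (EuclideanSpace ℝ (Fin n)),
        MeasurableSet A → MeasurableSet B →
        Bornology.IsBounded A → Bornology.IsBounded B →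
        (interior A).Nonempty → (interior B).Nonempty →
        MeasureTheory.volume A = MeasureTheory.volume B →
        ∃ m : ℕ, ∃ P : Fin m → Set (EuclideanSpace ℝ (Fin n)),
          ∃ γ : Fin m → (EuclideanSpace ℝ (Fin n) ≃ᵢ EuclideanSpace ℝ (Fin n)),
            (∀ i, MeasurableSet (P i)) ∧
            Pairwise (fun i j => Disjoint (P i) (P j)) ∧
            (⋃ i, P i) = A ∧
            Pairwise (fun i j => Disjoint (γ i '' P i) (γ j '' P j)) ∧
            (⋃ i, γ i '' P i) = B := by
  intro n hn A B hA hB hA' hB' hAi hBi hv
  exact Pool.Agent.Helper557.Rz.Eqd_out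
    (Pool.Agent.Helper557.Rz.final n hn A B hA hB hA' hB' hAi hBi hv)

end Pool.Agent.S09505
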