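import Pool.Statements.S09511
-- import your own Pool.Agent.* helpers here
import Pool.Agent.Helper55.Flex

set_option autoImplicit false
open Pool Pool.MP_79fed9_lc

namespace Pool.Agent.S09511

open Pool.Agent.Helper55.Flex

section RA

variable {A : Type} [BooleanAlgebra A] {comp : A → A → A} {conv : A → A} {e : A}

theorem atom_le_or {c w : A} (hc : IsAtom c) : c ≤ w ∨ w ⊓ c = ⊥ := by
  by_cases h : w ⊓ c = ⊥
  · exact Or.inr h
  · left
    have h1 : w ⊓ c ≤ c := inf_le_right
    rcases hc.le_iff.1 h1 with h2 | h2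
    · exact absurd h2 h
    · rw [← h2]; exact inf_le_left

theorem atom_not {c w : A} (hc : IsAtom c) (h : c ≤ w) : w ⊓ c ≠ ⊥ := by
  rw [inf_eq_right.2 h]
  exact hc.1

theorem atom_eq {a b : A} (ha : IsAtom a) (hb : IsAtom b) (h : a ≤ b) : a = b := by
  rcases hb.le_iff.1 h with h1 | h1
  · exact absurd h1 ha.1
  · exact h1

structure RA (comp : A → A → A) (conv : A → A) (e : A) : Prop where
  assoc : ∀ x y z : A, comp (comp x y) z = comp x (comp y z)
  dist : ∀ x y z : A, comp (x ⊔ y) z = comp x z ⊔ comp y z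
  rid : ∀ x : A, comp x e = x
  cc : ∀ x : A, conv (conv x) = x
  cs : ∀ x y : A, conv (x ⊔ y) = conv x ⊔ conv y
  cm : ∀ x y : A, conv (comp x y) = comp (conv y) (conv x)
  pe : ∀ x y : A, comp (conv x) (comp x y)ᶜ ≤ yᶜ
  ne : e ≠ ⊥
  int : ∀ x y : A, comp x y = ⊥ → x = ⊥ ∨ y = ⊥

variable (R : RA comp conv e)
include R

theorem conv_mono {x y : A} (h : x ≤ y) : conv x ≤ conv y := by
  rw [← sup_eq_right.2 h, R.cs]
  exact le_sup_left

theorem comp_mono_left {x y : A} (h : x ≤ y) (z : A) : comp x z ≤ comp y z := by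
  rw [← sup_eq_right.2 h, R.dist]
  exact le_sup_left

theorem comp_mono_right {x y : A} (h : x ≤ y) (z : A) : comp z x ≤ comp z y := by
  have h1 := conv_mono R (comp_mono_left R (conv_mono R h) (conv z))
  rwa [R.cm, R.cm, R.cc, R.cc, R.cc] at h1

theorem conv_e : conv e = e := by
  have h1 : conv (comp (conv e) e) = comp (conv e) e := by rw [R.cm, R.cc]
  rw [R.rid, R.cc] at h1
  exact h1.symm

theorem lid (x : A) : comp e x = x := by
  have h1 : conv (comp (conv x) e) = comp (conv e) (conv (conv x)) := R.cm _ _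
  rw [R.rid, R.cc, conv_e R] at h1
  exact h1.symm

theorem conv_bot : conv (⊥ : A) = ⊥ := by
  have h1 := conv_mono R (bot_le : (⊥ : A) ≤ conv ⊥)
  rw [R.cc] at h1
  exact le_bot_iff.1 h1

theorem conv_disj {x y : A} (h : x ⊓ y = ⊥) : conv x ⊓ conv y = ⊥ := by
  have h1 : conv (conv x ⊓ conv y) ≤ x ⊓ y := by
    apply le_inf
    · have := conv_mono R (inf_le_left : conv x ⊓ conv y ≤ conv x)
      rwa [R.cc] at this
    · have := conv_mono R (inf_le_right : conv x ⊓ conv y ≤ conv y)
      rwa [R.cc] at this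
  rw [h] at h1
  have h2 := conv_mono R h1
  rw [R.cc, conv_bot R] at h2
  exact le_bot_iff.1 h2

theorem peirce1 {x y z : A} (h : comp x y ⊓ z = ⊥) : comp (conv x) z ⊓ y = ⊥ := by
  have h1 : z ≤ (comp x y)ᶜ := by
    rw [← disjoint_iff, disjoint_comm] at h
    exact le_compl_iff_disjoint_right.2 h
  have h2 : comp (conv x) z ≤ yᶜ := le_trans (comp_mono_right R h1 _) (R.pe x y)
  rw [← disjoint_iff]
  exact le_compl_iff_disjoint_right.1 h2

theorem peirce2 {x y z : A} (h : comp x y ⊓ z = ⊥) : comp z (conv y) ⊓ x = ⊥ := by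
  have h1 := conv_disj R h
  rw [R.cm] at h1
  have h2 := conv_disj R (peirce1 R h1)
  rwa [R.cm, R.cc, R.cc, R.cc] at h2

theorem atom_cycle {a b c : A} (ha : IsAtom a) (hc : IsAtom c) (h : c ≤ comp a b) :
    a ≤ comp c (conv b) := by
  rcases atom_le_or (w := comp c (conv b)) ha with h1 | h1
  · exact h1
  · exfalso
    have h2 := peirce2 R h1
    rw [R.cc] at h2
    exact atom_not hc h h2

theorem conv_atom {a : A} (ha : IsAtom a) : IsAtom (conv a) := by
  refine ⟨fun h => ha.1 ?_, fun b hb => ?_⟩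
  · rw [← R.cc a, h, conv_bot R]
  · have h1 : conv b ≤ a := by
      have := conv_mono R hb.le
      rwa [R.cc] at this
    rcases ha.le_iff.1 h1 with h2 | h2
    · rw [← R.cc b, h2, conv_bot R]
    · exfalso
      apply hb.ne
      rw [← h2, R.cc]

theorem conv_div {a : A} (ha : a ≤ eᶜ) : conv a ≤ eᶜ := by
  have h1 : a ⊓ e = ⊥ := disjoint_iff.1 (le_compl_iff_disjoint_right.1 ha)
  have h2 := conv_disj R h1
  rw [conv_e R] at h2
  exact le_compl_iff_disjoint_right.2 (disjoint_iff.2 h2)

theorem e_atom : IsAtom e := by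
  refine ⟨R.ne, fun x hx => ?_⟩
  have h1 : comp x (e ⊓ xᶜ) ≤ x ⊓ xᶜ := by
    apply le_inf
    · have := comp_mono_right R (inf_le_left : e ⊓ xᶜ ≤ e) x
      rwa [R.rid] at this
    · have := comp_mono_left R hx.le (e ⊓ xᶜ)
      rw [lid R] at this
      exact le_trans this inf_le_right
  rw [inf_compl_eq_bot] at h1
  rcases R.int _ _ (le_bot_iff.1 h1) with h2 | h2
  · exact h2
  · exfalso
    apply not_lt_of_ge _ hx
    have h3 : e ⊓ xᶜ = ⊥ := h2
    have h4 : e ≤ xᶜᶜ := le_compl_iff_disjoint_right.2 (disjoint_iff.2 h3)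
    rwa [compl_compl] at h4

theorem decomp [IsAtomic A] {c X Y : A} (hc : IsAtom c) (h : c ≤ comp X Y) :
    ∃ a b, IsAtom a ∧ IsAtom b ∧ a ≤ X ∧ b ≤ Y ∧ c ≤ comp a b := by
  have h1 : comp (conv X) c ⊓ Y ≠ ⊥ := by
    intro h2
    have h3 := peirce1 R h2
    rw [R.cc] at h3
    exact atom_not hc h h3
  obtain ⟨b, hb, hb2⟩ := (IsAtomic.eq_bot_or_exists_atom_le _).resolve_left h1
  have hbY : b ≤ Y := le_trans hb2 inf_le_right
  have hbX : b ≤ comp (conv X) c := le_trans hb2 inf_le_left
  have h4 : c ≤ comp X b := by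
    rcases atom_le_or (w := comp X b) hc with h5 | h5
    · exact h5
    · exfalso
      exact atom_not hb hbX (peirce1 R h5)
  have h6 : comp c (conv b) ⊓ X ≠ ⊥ := by
    intro h7
    have h8 := peirce2 R h7
    rw [R.cc] at h8
    exact atom_not hc h4 h8
  obtain ⟨a, ha, ha2⟩ := (IsAtomic.eq_bot_or_exists_atom_le _).resolve_left h6
  have haX : a ≤ X := le_trans ha2 inf_le_right
  have hac : a ≤ comp c (conv b) := le_trans ha2 inf_le_left
  refine ⟨a, b, ha, hb, haX, hbY, ?_⟩
  rcases atom_le_or (w := comp a b) hc with h9 | h9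
  · exact h9
  · exfalso
    exact atom_not ha hac (peirce2 R h9)

omit R in
/-- the atom structure of an integral relation algebra with a flexible atom -/
def mkAS (R : RA comp conv e) (f : A) (hf : IsAtom f) (hfe : f ≤ eᶜ)
    (hfl : ∀ a b : A, IsAtom a → IsAtom b → a ≤ eᶜ → b ≤ eᶜ → f ≤ comp a b) :
    AS {a : A // IsAtom a ∧ a ≤ eᶜ} where
  cv := fun a => ⟨conv a.1, conv_atom R a.2.1, conv_div R a.2.2⟩
  C := fun a b c => c.1 ≤ comp a.1 b.1
  f := ⟨f, hf, hfe⟩
  cv_cv := fun a => Subtype.ext (R.cc a.1)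
  c1 := fun {a b c} h => by
    have := conv_mono R h
    rwa [R.cm] at this
  c2 := fun {a b c} h => atom_cycle R a.2.1 c.2.1 h
  fl := fun a b => hfl a.1 b.1 a.2.1 b.2.1 a.2.2 b.2.2

end RA

/-- Every finite integral relation algebra with an atom f ≠ 1' lying below a;b for all diversity atoms a,b embeds into the full algebra of binary relations on some finite set. -/
theorem result :
    ∀ (A : Type) [BooleanAlgebra A] [Fintype A] (comp : A → A → A) (conv : A → A) (e : A),
      (∀ x y z : A, comp (comp x y) z = comp x (comp y z)) →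
      (∀ x y z : A, comp (x ⊔ y) z = comp x z ⊔ comp y z) →
      (∀ x : A, comp x e = x) →
      (∀ x : A, conv (conv x) = x) →
      (∀ x y : A, conv (x ⊔ y) = conv x ⊔ conv y) →
      (∀ x y : A, conv (comp x y) = comp (conv y) (conv x)) →
      (∀ x y : A, comp (conv x) (comp x y)ᶜ ≤ yᶜ) →
      e ≠ ⊥ →
      (∀ x y : A, comp x y = ⊥ → x = ⊥ ∨ y = ⊥) →
      (∃ f : A, IsAtom f ∧ f ≤ eᶜ ∧
        ∀ a b : A, IsAtom a → IsAtom b → a ≤ eᶜ → b ≤ eᶜ → f ≤ comp a b) →
      ∃ (n : ℕ) (h : A → Set (Fin n × Fin n)),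
        Function.Injective h ∧
        (∀ x y : A, h (x ⊔ y) = h x ∪ h y) ∧
        (∀ x : A, h xᶜ = (h x)ᶜ) ∧
        (∀ x y : A, h (comp x y) =
          {p : Fin n × Fin n | ∃ z : Fin n, (p.1, z) ∈ h x ∧ (z, p.2) ∈ h y}) ∧
        (∀ x : A, h (conv x) = {p : Fin n × Fin n | (p.2, p.1) ∈ h x}) ∧
        h e = {p : Fin n × Fin n | p.1 = p.2} := by
  intro A _ _ comp conv e h1 h2 h3 h4 h5 h6 h7 h8 h9 ⟨f, hf, hfe, hfl⟩
  have R : RA comp conv e := ⟨h1, h2, h3, h4, h5, h6, h7, h8, h9⟩
  obtain ⟨U, _, ⟨u0⟩, k, k1, k2, k3, k4, k5⟩ := exists_colouring (mkAS R f hf hfe hfl)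
  -- the atom attached to a pair of points
  obtain ⟨at', hat0, hat1⟩ : ∃ at' : U → U → A, (∀ x y, k x y = none → at' x y = e) ∧
      (∀ x y a, k x y = some a → at' x y = a.1) := by
    refine ⟨fun x y => (k x y).elim e (fun a => a.1), ?_, ?_⟩
    · intro x y h
      simp [h]
    · intro x y a h
      simp [h]
  have he := e_atom R
  have at_self : ∀ x, at' x x = e := fun x => hat0 x x ((k1 x x).2 rfl)
  have at_ne : ∀ x y, x ≠ y → ∃ a, k x y = some a ∧ at' x y = a.1 := by
    intro x y hxy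
    have : k x y ≠ none := fun h => hxy ((k1 x y).1 h)
    obtain ⟨a, ha⟩ := Option.ne_none_iff_exists'.1 this
    exact ⟨a, ha, hat1 x y a ha⟩
  have at_atom : ∀ x y, IsAtom (at' x y) := by
    intro x y
    by_cases hxy : x = y
    · subst hxy
      rw [at_self]
      exact he
    · obtain ⟨a, _, ha⟩ := at_ne x y hxy
      rw [ha]
      exact a.2.1
  have at_e : ∀ x y, at' x y ≤ e ↔ x = y := by
    intro x y
    constructor
    · intro h
      by_contra hxy
      obtain ⟨a, _, ha⟩ := at_ne x y hxy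
      rw [ha] at h
      have h10 : a.1 ≤ ⊥ := by
        rw [← inf_compl_eq_bot (a := e)]
        exact le_inf h a.2.2
      exact a.2.1.1 (le_bot_iff.1 h10)
    · rintro rfl
      rw [at_self]
  have at_conv : ∀ x y, at' y x = conv (at' x y) := by
    intro x y
    by_cases hxy : x = y
    · subst hxy
      rw [at_self, conv_e R]
    · obtain ⟨a, hk, ha⟩ := at_ne x y hxy
      rw [ha, hat1 y x _ (k2 x y a hk)]
      rfl
  have at_comp : ∀ x y z, at' x y ≤ comp (at' x z) (at' z y) := by
    intro x y z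
    by_cases hxz : x = z
    · subst hxz
      rw [at_self, lid R]
    by_cases hzy : z = y
    · subst hzy
      rw [at_self, R.rid]
    obtain ⟨a, hk1, ha⟩ := at_ne x z hxz
    obtain ⟨b, hk2, hb⟩ := at_ne z y hzy
    by_cases hxy : x = y
    · subst hxy
      rw [at_self]
      -- e ≤ a ; conv a
      have h10 : at' z x = conv (at' x z) := at_conv x z
      rw [h10]
      have h11 : at' x z ≤ comp e (at' x z) := by rw [lid R]
      exact atom_cycle R he (at_atom x z) h11
    · obtain ⟨c, hk3, hc⟩ := at_ne x y hxy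
      rw [ha, hb, hc]
      exact k3 x y z a b c hk1 hk2 hk3
  have split : ∀ a : A, IsAtom a → a = e ∨ a ≤ eᶜ := by
    intro a ha
    rcases atom_le_or (w := e) ha with h10 | h10
    · exact Or.inl (atom_eq ha he h10)
    · right
      rw [← disjoint_iff, disjoint_comm] at h10
      exact le_compl_iff_disjoint_right.2 h10
  have at_all : ∀ x a, IsAtom a → ∃ z, at' x z = a := by
    intro x a ha
    rcases split a ha with rfl | hae
    · exact ⟨x, at_self x⟩
    · obtain ⟨z, hz⟩ := k5 x ⟨a, ha, hae⟩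
      exact ⟨z, hat1 x z _ hz⟩
  have at_ext : ∀ x y a b, IsAtom a → IsAtom b → at' x y ≤ comp a b →
      ∃ z, at' x z = a ∧ at' z y = b := by
    intro x y a b ha hb hab
    rcases split a ha with rfl | hae
    · rw [lid R] at hab
      exact ⟨x, at_self x, atom_eq (at_atom x y) hb hab⟩
    rcases split b hb with rfl | hbe
    · rw [R.rid] at hab
      exact ⟨y, atom_eq (at_atom x y) ha hab, at_self y⟩
    by_cases hxy : x = y
    · subst hxy
      rw [at_self] at hab
      have h10 := atom_cycle R ha he hab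
      rw [lid R] at h10
      have h11 := atom_eq ha (conv_atom R hb) h10
      obtain ⟨z, hz⟩ := at_all x a ha
      refine ⟨z, hz, ?_⟩
      rw [at_conv x z, hz, h11, R.cc]
    · obtain ⟨c, hk, hc⟩ := at_ne x y hxy
      rw [hc] at hab
      obtain ⟨z, hz1, hz2⟩ := k4 x y ⟨a, ha, hae⟩ ⟨b, hb, hbe⟩ c hk hab
      exact ⟨z, hat1 x z _ hz1, hat1 z y _ hz2⟩
  let eq := Fintype.equivFin U
  refine ⟨Fintype.card U, fun X => {p | at' (eq.symm p.1) (eq.symm p.2) ≤ X}, ?_, ?_, ?_, ?_, ?_, ?_⟩
  · -- injective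
    have key : ∀ X Y : A, (∀ p : Fin (Fintype.card U) × Fin (Fintype.card U),
        at' (eq.symm p.1) (eq.symm p.2) ≤ X → at' (eq.symm p.1) (eq.symm p.2) ≤ Y) → X ≤ Y := by
      intro X Y hXY
      by_contra hcon
      have h10 : X ⊓ Yᶜ ≠ ⊥ := by
        intro h11
        apply hcon
        have := le_compl_iff_disjoint_right.2 (disjoint_iff.2 h11)
        rwa [compl_compl] at this
      obtain ⟨t, ht, ht2⟩ := (IsAtomic.eq_bot_or_exists_atom_le _).resolve_left h10
      obtain ⟨z, hz⟩ := at_all u0 t ht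
      have h12 := hXY (eq u0, eq z) (by
        simp only [Equiv.symm_apply_apply]
        rw [hz]
        exact le_trans ht2 inf_le_left)
      simp only [Equiv.symm_apply_apply] at h12
      rw [hz] at h12
      have h13 : t ≤ ⊥ := by
        rw [← inf_compl_eq_bot (a := Y)]
        exact le_inf h12 (le_trans ht2 inf_le_right)
      exact ht.1 (le_bot_iff.1 h13)
    intro X Y hXY
    have hmem : ∀ p : Fin (Fintype.card U) × Fin (Fintype.card U),
        at' (eq.symm p.1) (eq.symm p.2) ≤ X ↔ at' (eq.symm p.1) (eq.symm p.2) ≤ Y := by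
      intro p
      exact Set.ext_iff.1 hXY p
    exact le_antisymm (key X Y fun p => (hmem p).1) (key Y X fun p => (hmem p).2)
  · intro X Y
    ext p
    show at' (eq.symm p.1) (eq.symm p.2) ≤ X ⊔ Y ↔
      (at' (eq.symm p.1) (eq.symm p.2) ≤ X ∨ at' (eq.symm p.1) (eq.symm p.2) ≤ Y)
    constructor
    · intro h
      have hA := at_atom (eq.symm p.1) (eq.symm p.2)
      rcases atom_le_or (w := X) hA with h10 | h10
      · exact Or.inl h10
      · right
        rcases atom_le_or (w := Y) hA with h11 | h11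
        · exact h11
        · exfalso
          apply atom_not hA h
          rw [inf_sup_right, h10, h11, sup_idem]
    · rintro (h | h)
      · exact le_trans h le_sup_left
      · exact le_trans h le_sup_right
  · intro X
    ext p
    show at' (eq.symm p.1) (eq.symm p.2) ≤ Xᶜ ↔ ¬ (at' (eq.symm p.1) (eq.symm p.2) ≤ X)
    have hA := at_atom (eq.symm p.1) (eq.symm p.2)
    constructor
    · intro h h'
      apply hA.1
      rw [← le_bot_iff, ← inf_compl_eq_bot (a := X)]
      exact le_inf h' h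
    · intro h
      rcases atom_le_or (w := X) hA with h10 | h10
      · exact absurd h10 h
      · rw [← disjoint_iff, disjoint_comm] at h10
        exact le_compl_iff_disjoint_right.2 h10
  · intro X Y
    ext p
    show at' (eq.symm p.1) (eq.symm p.2) ≤ comp X Y ↔
      ∃ z : Fin (Fintype.card U), at' (eq.symm p.1) (eq.symm z) ≤ X ∧
        at' (eq.symm z) (eq.symm p.2) ≤ Y
    constructor
    · intro h
      obtain ⟨a, b, ha, hb, haX, hbY, hab⟩ := decomp R (at_atom _ _) h
      obtain ⟨z, hz1, hz2⟩ := at_ext _ _ a b ha hb hab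
      refine ⟨eq z, ?_, ?_⟩
      · rw [Equiv.symm_apply_apply, hz1]
        exact haX
      · rw [Equiv.symm_apply_apply, hz2]
        exact hbY
    · rintro ⟨z, hz1, hz2⟩
      exact le_trans (at_comp _ _ (eq.symm z))
        (le_trans (comp_mono_left R hz1 _) (comp_mono_right R hz2 _))
  · intro X
    ext p
    show at' (eq.symm p.1) (eq.symm p.2) ≤ conv X ↔ at' (eq.symm p.2) (eq.symm p.1) ≤ X
    rw [at_conv (eq.symm p.1) (eq.symm p.2)]
    constructor
    · intro h
      have := conv_mono R h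
      rwa [R.cc] at this
    · intro h
      have := conv_mono R h
      rwa [R.cc] at this
  · ext p
    show at' (eq.symm p.1) (eq.symm p.2) ≤ e ↔ p.1 = p.2
    rw [at_e]
    exact eq.symm.injective.eq_iff

end Pool.Agent.S09511
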