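import Pool.Statements.S09513
import Pool.Agent.Helper281.Gr.Main

set_option autoImplicit false
open Pool Pool.MP_7aa222_lc

namespace Pool.Agent.S09513

/-- For every Polish group G and every Borel action of G on a Polish space X, there is a Borel simple graph on X whose connected components are exactly the G-orbits. -/
theorem result :
    ∀ (G : Type) [Group G] [TopologicalSpace G] [IsTopologicalGroup G] [PolishSpace G]
      [MeasurableSpace G] [BorelSpace G]
      (X : Type) [TopologicalSpace X] [PolishSpace X] [MeasurableSpace X] [BorelSpace X]
      [MulAction G X],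
      Measurable (fun p : G × X => p.1 • p.2) →
      ∃ Γ : SimpleGraph X,
        MeasurableSet {p : X × X | Γ.Adj p.1 p.2} ∧
        ∀ x y : X, Γ.Reachable x y ↔ ∃ g : G, g • x = y := by
  intro G _ _ _ _ _ _ X _ _ _ _ _ hact
  exact Pool.Agent.Helper281.Gr.graphic G X hact

end Pool.Agent.S09513
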