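import Pool.Statements.S09516
-- import your own Pool.Agent.* helpers here

set_option autoImplicit false
open Pool Pool.MP_7acc36_lc

namespace Pool.Agent.S09516


section alg2


open Monoid Monoid.CoprodI

section Alg

variable {G : Type} [Group G]

abbrev Fam (G : Type) : Bool → Type := fun _ => G

/-- embedding of the first factor -/
abbrev ofG (g : G) : CoprodI (Fam G) := @CoprodI.of Bool (Fam G) _ true g
/-- embedding of the second factor -/
abbrev ofH (g : G) : CoprodI (Fam G) := @CoprodI.of Bool (Fam G) _ false g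

open Classical in
noncomputable def len (x : CoprodI (Fam G)) : ℕ := (Word.equiv x).toList.length

open Classical in
theorem len_ne {i j : Bool} (p : NeWord (Fam G) i j) : len p.prod = p.toList.length := by
  unfold len
  have h : Word.equiv p.prod = p.toWord := by
    rw [NeWord.prod]
    exact Word.equiv.apply_symm_apply _
  rw [h]
  rfl

theorem inv_len {i j : Bool} (p : NeWord (Fam G) i j) : p.inv.toList.length = p.toList.length := by
  induction p with
  | singleton x h => rfl
  | append w1 h w2 ih1 ih2 =>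
    simp [NeWord.inv, ih1, ih2, add_comm]

open Classical in
theorem decomp (w : Word (Fam G)) : ∃ g1 h1 : G, (w.fstIdx = some true ↔ g1 ≠ 1) ∧
    ((w.prod = ofG g1 * ofH h1 ∧ w.toList.length ≤ 1 + (if g1 = 1 then 0 else 1)) ∨
      ∃ p : NeWord (Fam G) false true, w.prod = ofG g1 * p.prod * ofH h1 ∧
        w.toList.length ≤ p.toList.length + 1 + (if g1 = 1 then 0 else 1)) := by
  induction w using Word.consRecOn with
  | empty =>
    refine ⟨1, 1, ?_, Or.inl ⟨?_, ?_⟩⟩
    · simp [Word.fstIdx, Word.empty]
    · simp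
    · simp [Word.empty]
  | cons i m w' h1 h2 ih =>
    obtain ⟨g, h, hg, hcase⟩ := ih
    cases i with
    | true =>
      have hg1 : g = 1 := by
        by_contra hne
        exact h1 (hg.2 hne)
      subst hg1
      refine ⟨m, h, ?_, ?_⟩
      · rw [Word.fstIdx_cons]
        exact ⟨fun _ => h2, fun _ => rfl⟩
      · have h2' : ¬ (m = (1 : G)) := h2
        rcases hcase with ⟨hp, hl⟩ | ⟨p, hp, hl⟩
        · left
          refine ⟨?_, ?_⟩
          · rw [Word.prod_cons, hp]
            simp
          · simp only [Word.cons, List.length_cons, if_neg h2']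
            simp at hl
            omega
        · right
          refine ⟨p, ?_, ?_⟩
          · rw [Word.prod_cons, hp]
            simp [mul_assoc]
          · simp only [Word.cons, List.length_cons, if_neg h2']
            simp at hl
            omega
    | false =>
      have h2' : ¬ (m = (1 : G)) := h2
      by_cases hw : w' = Word.empty
      · subst hw
        refine ⟨1, m, ?_, Or.inl ⟨?_, ?_⟩⟩
        · simp [Word.fstIdx_cons]
        · rw [Word.prod_cons]; simp
        · simp [Word.cons, Word.empty]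
      · have hf : w'.fstIdx = some true := by
          rcases hx : w'.fstIdx with _ | b
          · exfalso
            apply hw
            unfold Word.fstIdx at hx
            simp at hx
            ext1
            rw [hx]; rfl
          · cases b
            · exact absurd hx h1
            · rfl
        have hg1 : g ≠ 1 := hg.1 hf
        refine ⟨1, h, ?_, Or.inr ?_⟩
        · simp [Word.fstIdx_cons]
        · have hft : (false : Bool) ≠ true := by decide
          let q : NeWord (Fam G) false true :=
            NeWord.append (NeWord.singleton (i := false) m h2') hft (NeWord.singleton (i := true) g hg1)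
          rcases hcase with ⟨hp, hl⟩ | ⟨p, hp, hl⟩
          · refine ⟨q, ?_, ?_⟩
            · rw [Word.prod_cons, hp]
              simp [q, mul_assoc]
            · simp only [Word.cons, List.length_cons, q, NeWord.toList]
              simp [hg1] at hl
              simp
              omega
          · refine ⟨NeWord.append q hft.symm p, ?_, ?_⟩
            · rw [Word.prod_cons, hp]
              simp [q, mul_assoc]
            · simp only [Word.cons, List.length_cons, q, NeWord.toList]
              simp [hg1] at hl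
              simp
              omega

open Classical in
theorem decomp' (x : CoprodI (Fam G)) : ∃ g1 h1 : G,
    ((x = ofG g1 * ofH h1 ∧ len x ≤ 2) ∨
      ∃ p : NeWord (Fam G) false true, x = ofG g1 * p.prod * ofH h1 ∧
        len x ≤ p.toList.length + 2) := by
  obtain ⟨g1, h1, -, hc⟩ := decomp (Word.equiv x)
  have hx : (Word.equiv x).prod = x := Word.equiv.symm_apply_apply x
  rw [hx] at hc
  refine ⟨g1, h1, ?_⟩
  have h01 : (if g1 = 1 then 0 else 1) ≤ 1 := by split_ifs <;> simp
  rcases hc with ⟨hp, hl⟩ | ⟨p, hp, hl⟩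
  · left
    refine ⟨hp, ?_⟩
    unfold len; omega
  · right
    refine ⟨p, hp, ?_⟩
    unfold len; omega

/-- the map used to build infinitely nested words -/
def V {Γ : Type} [Group Γ] (h w x : Γ) : Γ := x * h * x⁻¹ * w * x * h⁻¹ * x⁻¹

theorem conj_ne_one {g x : G} (hg : g ≠ 1) : x * g * x⁻¹ ≠ 1 := by
  intro h
  apply hg
  have : g = x⁻¹ * (x * g * x⁻¹) * x := by group
  rw [this, h]; group

theorem len_conj (g1 : G) (Z : NeWord (Fam G) false false) :
    Z.toList.length ≤ len (ofG g1 * Z.prod * (ofG g1)⁻¹) := by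
  by_cases hg : g1 = 1
  · subst hg
    simp [len_ne]
  · have hft : (false : Bool) ≠ true := by decide
    have hg' : g1⁻¹ ≠ 1 := inv_ne_one.mpr hg
    let Q : NeWord (Fam G) true true :=
      NeWord.append (NeWord.append (NeWord.singleton (i := true) g1 hg) hft.symm Z) hft
        (NeWord.singleton (i := true) g1⁻¹ hg')
    have hQ : ofG g1 * Z.prod * (ofG g1)⁻¹ = Q.prod := by
      simp [Q]
    rw [hQ, len_ne]
    simp only [Q, NeWord.toList, List.length_append]
    simp
    omega

theorem len_V (g h : G) (hg : g ≠ 1) (hh : h ≠ 1) (x : CoprodI (Fam G)) :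
    len x < len (V (ofH h) (ofG g) x) := by
  obtain ⟨g1, h1, hx⟩ := decomp' x
  have hft : (false : Bool) ≠ true := by decide
  have hh' : h1 * h * h1⁻¹ ≠ 1 := conj_ne_one hh
  have hh'' : (h1 * h * h1⁻¹)⁻¹ ≠ 1 := inv_ne_one.mpr hh'
  have hgg : g1⁻¹ * g * g1 ≠ 1 := by
    have := conj_ne_one (x := g1⁻¹) hg
    simpa using this
  rcases hx with ⟨hx, hl⟩ | ⟨p, hx, hl⟩
  · let Z : NeWord (Fam G) false false :=
      NeWord.append (NeWord.append (NeWord.singleton (i := false) (h1 * h * h1⁻¹) hh') hft
        (NeWord.singleton (i := true) (g1⁻¹ * g * g1) hgg)) hft.symm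
        (NeWord.singleton (i := false) (h1 * h * h1⁻¹)⁻¹ hh'')
    have hV : V (ofH h) (ofG g) x = ofG g1 * Z.prod * (ofG g1)⁻¹ := by
      rw [hx]
      simp only [V, Z, NeWord.append_prod, NeWord.prod_singleton, map_mul, map_inv]
      group
    rw [hV]
    have := len_conj g1 Z
    have h3 : Z.toList.length = 3 := rfl
    omega
  · let Z : NeWord (Fam G) false false :=
      NeWord.append (NeWord.append (NeWord.append (NeWord.append (NeWord.append (NeWord.append p hft.symm
        (NeWord.singleton (i := false) (h1 * h * h1⁻¹) hh')) hft p.inv) hft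
        (NeWord.singleton (i := true) (g1⁻¹ * g * g1) hgg)) hft.symm p) hft.symm
        (NeWord.singleton (i := false) (h1 * h * h1⁻¹)⁻¹ hh'')) hft p.inv
    have hV : V (ofH h) (ofG g) x = ofG g1 * Z.prod * (ofG g1)⁻¹ := by
      rw [hx]
      simp only [V, Z, NeWord.append_prod, NeWord.prod_singleton, map_mul, map_inv, NeWord.inv_prod]
      group
    rw [hV]
    have := len_conj g1 Z
    have h3 : Z.toList.length = p.toList.length * 4 + 3 := by
      simp only [Z, NeWord.toList, List.length_append, inv_len]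
      simp
      omega
    omega

/-- no infinite nested sequence in a free product -/
theorem no_seq (h : G) (hh : h ≠ 1) (g : ℕ → G) (hg : ∀ n, g n ≠ 1)
    (ξ : ℕ → CoprodI (Fam G)) (hξ : ∀ n, ξ n = V (ofH h) (ofG (g n)) (ξ (n+1))) : False := by
  have hlt : ∀ n, len (ξ (n+1)) < len (ξ n) := by
    intro n
    have := len_V (g n) h (hg n) hh (ξ (n+1))
    rw [← hξ n] at this
    exact this
  have key : ∀ n, len (ξ n) + n ≤ len (ξ 0) := by
    intro n
    induction n with
    | zero => simp
    | succ n ih => have := hlt n; omega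
  have := key (len (ξ 0) + 1)
  omega

/-- the same in Mathlib's binary coproduct -/
theorem no_seq' (h : G) (hh : h ≠ 1) (g : ℕ → G) (hg : ∀ n, g n ≠ 1)
    (ξ : ℕ → Monoid.Coprod G G)
    (hξ : ∀ n, ξ n = V (Monoid.Coprod.inr h) (Monoid.Coprod.inl (g n)) (ξ (n+1))) : False := by
  let ψ : Monoid.Coprod G G →* CoprodI (Fam G) :=
    Monoid.Coprod.lift (@CoprodI.of Bool (Fam G) _ true) (@CoprodI.of Bool (Fam G) _ false)
  apply no_seq h hh g hg (fun n => ψ (ξ n))
  intro n
  show ψ (ξ n) = _
  rw [hξ n]
  simp [V, ψ]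

end Alg


end alg2

section comp


section Tools

variable {α β σ : Type} [Primcodable α] [Primcodable β] [Primcodable σ]

theorem comp_foldl {f : α → List β} {g : α → σ} {h : α → σ × β → σ} (hf : Computable f)
    (hg : Computable g) (hh : Computable₂ h) :
    Computable fun a => (f a).foldl (fun s b => h a (s, b)) (g a) := by
  have key : Computable fun a => Nat.rec (motive := fun _ => σ) (g a)
      (fun y IH => (Option.casesOn (motive := fun _ => σ) ((f a)[y]?) IH (fun b => h a (IH, b))))
      (f a).length := by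
    refine Computable.nat_rec (Computable.list_length.comp hf) hg
      (h := fun a p => (Option.casesOn (motive := fun _ => σ) ((f a)[p.1]?) p.2 (fun b => h a (p.2, b)))) ?_
    refine Computable.option_casesOn (o := fun x : α × (ℕ × σ) => (f x.1)[x.2.1]?)
      (f := fun x => x.2.2) (g := fun x b => h x.1 (x.2.2, b)) ?_ ?_ ?_
    · exact Computable.list_getElem?.comp (hf.comp Computable.fst)
        (Computable.fst.comp Computable.snd)
    · exact Computable.snd.comp Computable.snd
    · exact hh.comp (Computable.fst.comp Computable.fst)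
        (Computable.pair (Computable.snd.comp (Computable.snd.comp Computable.fst)) Computable.snd)
  refine key.of_eq fun a => ?_
  have : ∀ n, n ≤ (f a).length → Nat.rec (motive := fun _ => σ) (g a)
      (fun y IH => (Option.casesOn (motive := fun _ => σ) ((f a)[y]?) IH (fun b => h a (IH, b))))
      n = ((f a).take n).foldl (fun s b => h a (s, b)) (g a) := by
    intro n
    induction n with
    | zero => intro _; simp
    | succ n ih =>
      intro hn
      have hlt : n < (f a).length := hn
      rw [List.take_add_one]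
      simp only [List.foldl_append]
      rw [← ih (le_of_lt hlt)]
      simp [List.getElem?_eq_getElem hlt]
  have h2 := this _ le_rfl
  rw [h2]
  simp

theorem comp_foldr {f : α → List β} {g : α → σ} {h : α → β × σ → σ} (hf : Computable f)
    (hg : Computable g) (hh : Computable₂ h) :
    Computable fun a => (f a).foldr (fun b s => h a (b, s)) (g a) := by
  have := comp_foldl (f := fun a => (f a).reverse) (g := g) (h := fun a p => h a (p.2, p.1))
    (Computable.list_reverse.comp hf) hg
    (hh.comp Computable.fst (Computable.pair (Computable.snd.comp Computable.snd)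
      (Computable.fst.comp Computable.snd)))
  refine this.of_eq fun a => ?_
  simp

theorem comp_find (P : α → ℕ → Bool) (hP : Computable₂ P) (H : ∀ a, ∃ n, P a n = true) :
    Computable fun a => Nat.find (H a) := by
  have h1 : Partrec fun a => Nat.rfind (fun n => (Part.some (P a n) : Part Bool)) :=
    Partrec.rfind hP.partrec₂
  refine h1.of_eq fun a => ?_
  apply Part.eq_some_iff.2
  refine Nat.mem_rfind.2 ⟨?_, ?_⟩
  · rw [Nat.find_spec (H a)]
    exact Part.mem_some _
  · intro m hm
    have h2 : P a m = false := by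
      have := Nat.find_min (H a) hm
      simpa using this
    rw [h2]
    exact Part.mem_some _

/-- bounded universal quantifier as a Boolean function -/
def ball (P : ℕ → Bool) (n : ℕ) : Bool := (List.range n).foldl (fun s b => s && P b) true

theorem ball_iff (P : ℕ → Bool) (n : ℕ) : ball P n = true ↔ ∀ i < n, P i = true := by
  unfold ball
  induction n with
  | zero => simp
  | succ n ih =>
    rw [List.range_succ, List.foldl_append]
    simp only [List.foldl_cons, List.foldl_nil, Bool.and_eq_true, ih]
    constructor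
    · rintro ⟨h1, h2⟩ i hi
      rcases Nat.lt_succ_iff_lt_or_eq.1 hi with h | h
      · exact h1 i h
      · subst h; exact h2
    · intro h
      exact ⟨fun i hi => h i (Nat.lt_succ_of_lt hi), h n (Nat.lt_succ_self n)⟩

theorem comp_ball {P : α → ℕ → Bool} {n : α → ℕ} (hP : Computable₂ P) (hn : Computable n) :
    Computable fun a => ball (P a) (n a) := by
  unfold ball
  refine comp_foldl (f := fun a => List.range (n a)) (g := fun _ => true)
    (h := fun a p => p.1 && P a p.2) ?_ (Computable.const _) ?_
  · exact (Primrec.list_range.to_comp).comp hn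
  · exact (Primrec.and.to_comp).comp (Computable.fst.comp Computable.snd)
      (hP.comp Computable.fst (Computable.snd.comp Computable.snd))

end Tools


end comp

section perm


open Equiv

def zigF (n : ℕ) : ℕ := if n % 2 = 0 then n + 2 else (if n = 1 then 0 else n - 2)
def zigB (n : ℕ) : ℕ := if n % 2 = 0 then (if n = 0 then 1 else n - 2) else n + 2

theorem zig_left (n : ℕ) : zigB (zigF n) = n := by
  unfold zigF
  by_cases h : n % 2 = 0
  · rw [if_pos h]; unfold zigB
    rw [if_pos (by omega), if_neg (by omega)]; omega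
  · rw [if_neg h]
    by_cases h1 : n = 1
    · subst h1; rfl
    · rw [if_neg h1]; unfold zigB
      rw [if_neg (by omega)]; omega

theorem zig_right (n : ℕ) : zigF (zigB n) = n := by
  unfold zigB
  by_cases h : n % 2 = 0
  · rw [if_pos h]
    by_cases h1 : n = 0
    · subst h1; rfl
    · rw [if_neg h1]; unfold zigF
      rw [if_pos (by omega)]; omega
  · rw [if_neg h]; unfold zigF
    rw [if_neg (by omega), if_neg (by omega)]; omega

/-- shift of the integers, coded on the naturals -/
def zig : Perm ℕ := ⟨zigF, zigB, zig_left, zig_right⟩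

theorem zig_even (i : ℕ) : zig (2 * i) = 2 * (i + 1) := by
  show zigF (2 * i) = 2 * (i + 1)
  unfold zigF
  rw [if_pos (by omega)]; ring

theorem zig_pow (j i : ℕ) : (zig ^ j) (2 * i) = 2 * (i + j) := by
  induction j with
  | zero => simp
  | succ j ih =>
    rw [pow_succ', Perm.mul_apply, ih, zig_even]
    ring

theorem conj_zig (m j : ℕ) : zig ^ j * swap 0 (2 * m) * (zig⁻¹) ^ j = swap (2 * j) (2 * (m + j)) := by
  have h := Equiv.mul_swap_eq_swap_mul (zig ^ j) 0 (2 * m)
  rw [h, zig_pow]
  have h0 : (zig ^ j) 0 = 2 * j := by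
    have := zig_pow j 0
    simpa using this
  rw [h0, mul_assoc, inv_pow, mul_inv_cancel, mul_one]

/-- letters -/
def gen {Γ : Type} [Group Γ] (α β η : Γ) : ℕ → Γ
  | 0 => α
  | 1 => α⁻¹
  | 2 => β
  | 3 => β⁻¹
  | 4 => η
  | 5 => η⁻¹
  | _ => 1

/-- value of a word -/
def gval {Γ : Type} [Group Γ] (g : ℕ → Γ) (w : List ℕ) : Γ := (w.map g).prod

def rep (m k : ℕ) : List ℕ := (List.range (m + 1)).map (fun _ => k)

theorem gval_rep {Γ : Type} [Group Γ] (g : ℕ → Γ) (m k : ℕ) : gval g (rep m k) = g k ^ (m + 1) := by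
  unfold gval rep
  rw [List.map_map]
  simp [Function.comp_def]

/-- commutator word -/
def W (m : ℕ) : List ℕ :=
  [2] ++ rep m 0 ++ [2] ++ rep m 1 ++ [3] ++ rep m 0 ++ [3] ++ rep m 1

theorem gval_append {Γ : Type} [Group Γ] (g : ℕ → Γ) (u v : List ℕ) :
    gval g (u ++ v) = gval g u * gval g v := by
  simp [gval]

theorem gval_single {Γ : Type} [Group Γ] (g : ℕ → Γ) (k : ℕ) : gval g [k] = g k := by
  simp [gval]

theorem gval_W {Γ : Type} [Group Γ] (α β η : Γ) (m : ℕ) : gval (gen α β η) (W m) =
    β * (α ^ (m+1) * β * (α⁻¹) ^ (m+1)) * (α ^ (m+1) * β * (α⁻¹) ^ (m+1) * β)⁻¹ := by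
  unfold W
  simp only [gval_append, gval_single, gval_rep]
  simp only [gen]
  group

theorem gval_W_one {Γ : Type} [Group Γ] (α β η : Γ) (m : ℕ) : gval (gen α β η) (W m) = 1 ↔
    β * (α ^ (m+1) * β * (α⁻¹) ^ (m+1)) = (α ^ (m+1) * β * (α⁻¹) ^ (m+1)) * β := by
  rw [gval_W, mul_inv_eq_one]

theorem gval_map {Γ Δ : Type} [Group Γ] [Group Δ] (f : Γ →* Δ) (g : ℕ → Γ) (w : List ℕ) :
    f (gval g w) = gval (fun k => f (g k)) w := by
  unfold gval
  rw [map_list_prod, List.map_map]
  rfl

theorem gen_map {Γ Δ : Type} [Group Γ] [Group Δ] (f : Γ →* Δ) (α β η : Γ) (k : ℕ) :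
    f (gen α β η k) = gen (f α) (f β) (f η) k := by
  unfold gen
  split <;> simp

theorem gval_gen_map {Γ Δ : Type} [Group Γ] [Group Δ] (f : Γ →* Δ) (α β η : Γ) (w : List ℕ) :
    f (gval (gen α β η) w) = gval (gen (f α) (f β) (f η)) w := by
  rw [gval_map]
  congr 1
  funext k
  exact gen_map f α β η k

/-- the halting stage predicate on blocks -/
def Pst (s : ℕ) : Bool :=
  (Nat.Partrec.Code.evaln s.unpair.2 (Denumerable.ofNat Nat.Partrec.Code s.unpair.1) 0).isSome

/-- block permutation -/
def bb (s : ℕ) : Perm ℕ := if Pst s then swap 0 (2 * (s.unpair.1 + 1)) else 1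

theorem bb_comm (s m : ℕ) : bb s * (zig ^ (m+1) * bb s * (zig⁻¹) ^ (m+1)) =
    (zig ^ (m+1) * bb s * (zig⁻¹) ^ (m+1)) * bb s ↔ ¬ (Pst s = true ∧ s.unpair.1 = m) := by
  unfold bb
  by_cases hP : Pst s = true
  · rw [if_pos hP, conj_zig]
    by_cases hm : s.unpair.1 = m
    · constructor
      · intro h
        exfalso
        rw [hm] at h
        have h2 := congrArg (fun f : Perm ℕ => f 0) h
        simp only [Perm.mul_apply] at h2
        rw [Equiv.swap_apply_of_ne_of_ne (a := 2 * (m+1)) (b := 2 * (m + 1 + (m+1))) (by omega) (by omega),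
          Equiv.swap_apply_left, Equiv.swap_apply_left] at h2
        omega
      · intro h
        exact absurd ⟨hP, hm⟩ h
    · constructor
      · rintro - ⟨-, h⟩
        exact hm h
      · intro _
        have hd : Equiv.Perm.Disjoint (swap 0 (2 * (s.unpair.1 + 1)))
            (swap (2 * (m+1)) (2 * (s.unpair.1 + 1 + (m+1)))) := by
          apply Equiv.Perm.disjoint_swap_swap
          simp
          omega
        exact hd.commute
  · rw [if_neg hP]
    constructor
    · rintro - ⟨h, -⟩
      exact hP h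
    · intro _
      simp

/-- blockwise action -/
def Th : (ℕ → Perm ℕ) →* Perm ℕ where
  toFun f := Nat.pairEquiv.symm.trans ((Equiv.prodShear (Equiv.refl ℕ) f).trans Nat.pairEquiv)
  map_one' := by
    ext n
    simp [Equiv.prodShear, Function.uncurry]
  map_mul' f g := by
    ext n
    simp [Equiv.prodShear]

theorem Th_apply (f : ℕ → Perm ℕ) (n : ℕ) : Th f n = Nat.pair n.unpair.1 (f n.unpair.1 n.unpair.2) := by
  rfl

theorem Th_inj : Function.Injective Th := by
  intro f g h
  funext s
  ext z
  have h2 := congrArg (fun σ : Perm ℕ => σ (Nat.pair s z)) h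
  simp only [Th_apply, Nat.unpair_pair] at h2
  have := Nat.pair_eq_pair.1 h2
  exact this.2

def aP : Perm ℕ := Th (fun _ => zig)
def bP : Perm ℕ := Th bb

theorem W_iff (η : Perm ℕ) (m : ℕ) : gval (gen aP bP η) (W m) = 1 ↔
    ¬ ∃ s, Pst s = true ∧ s.unpair.1 = m := by
  rw [gval_W_one]
  have h1 : bP * (aP ^ (m+1) * bP * (aP⁻¹) ^ (m+1)) =
      Th (fun s => bb s * (zig ^ (m+1) * bb s * (zig⁻¹) ^ (m+1))) := by
    unfold bP aP
    rw [← map_inv, ← map_pow, ← map_pow, ← map_mul, ← map_mul, ← map_mul]
    rfl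
  have h2 : (aP ^ (m+1) * bP * (aP⁻¹) ^ (m+1)) * bP =
      Th (fun s => (zig ^ (m+1) * bb s * (zig⁻¹) ^ (m+1)) * bb s) := by
    unfold bP aP
    rw [← map_inv, ← map_pow, ← map_pow, ← map_mul, ← map_mul, ← map_mul]
    rfl
  rw [h1, h2, Th_inj.eq_iff, funext_iff]
  simp only [bb_comm]
  constructor
  · rintro h ⟨s, hs⟩
    exact h s hs
  · intro h s hs
    exact h ⟨s, hs⟩

theorem halt_iff (m : ℕ) : (∃ s, Pst s = true ∧ s.unpair.1 = m) ↔
    ((Denumerable.ofNat Nat.Partrec.Code m).eval 0).Dom := by
  constructor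
  · rintro ⟨s, hs, rfl⟩
    unfold Pst at hs
    rw [Option.isSome_iff_exists] at hs
    obtain ⟨x, hx⟩ := hs
    have := Nat.Partrec.Code.evaln_sound (c := Denumerable.ofNat Nat.Partrec.Code s.unpair.1) hx
    exact Part.dom_iff_mem.2 ⟨x, this⟩
  · intro h
    obtain ⟨x, hx⟩ := Part.dom_iff_mem.1 h
    obtain ⟨k, hk⟩ := Nat.Partrec.Code.evaln_complete.1 hx
    refine ⟨Nat.pair m k, ?_, by simp⟩
    unfold Pst
    simp only [Nat.unpair_pair]
    rw [Option.isSome_iff_exists]
    exact ⟨x, hk⟩


end perm

section conv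


open Equiv Filter


/-- pointwise eventual convergence of permutations together with inverses -/
def Conv (f : ℕ → Perm ℕ) (σ : Perm ℕ) : Prop :=
  ∀ q, (∀ᶠ k in atTop, f k q = σ q) ∧ (∀ᶠ k in atTop, (f k)⁻¹ q = σ⁻¹ q)

theorem Conv.const (σ : Perm ℕ) : Conv (fun _ => σ) σ := fun q => ⟨by simp, by simp⟩

theorem Conv.inv {f : ℕ → Perm ℕ} {σ : Perm ℕ} (h : Conv f σ) : Conv (fun k => (f k)⁻¹) σ⁻¹ :=
  fun q => ⟨(h q).2, by simpa using (h q).1⟩

theorem Conv.mul {f g : ℕ → Perm ℕ} {σ τ : Perm ℕ} (h : Conv f σ) (h' : Conv g τ) :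
    Conv (fun k => f k * g k) (σ * τ) := by
  intro q
  constructor
  · filter_upwards [(h' q).1, (h (τ q)).1] with k h1 h2
    rw [Perm.mul_apply, h1, h2, Perm.mul_apply]
  · filter_upwards [(h q).2, (h' (σ⁻¹ q)).2] with k h1 h2
    rw [mul_inv_rev, mul_inv_rev, Perm.mul_apply, h1, h2, Perm.mul_apply]

theorem Conv.unique {f : ℕ → Perm ℕ} {σ τ : Perm ℕ} (h : Conv f σ) (h' : Conv f τ) : σ = τ := by
  ext q
  obtain ⟨k, hk1, hk2⟩ := ((h q).1.and (h' q).1).exists
  rw [← hk1, ← hk2]

theorem Conv.V {f g : ℕ → Perm ℕ} {σ τ : Perm ℕ} (c : Perm ℕ) (h : Conv f σ) (h' : Conv g τ) :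
    Conv (fun k => V c (f k) (g k)) (V c σ τ) := by
  unfold S09516.V
  exact (((((h'.mul (Conv.const c)).mul h'.inv).mul h).mul h').mul (Conv.const c).inv).mul h'.inv

/-- nested expression -/
def X {Γ : Type} [Group Γ] (c : Γ) : List Γ → Γ
  | [] => 1
  | w :: l => S09516.V c w (X c l)

theorem Conv.X {τ : ℕ → Perm ℕ} (c : Perm ℕ) (h : Conv τ 1) (l : List (Perm ℕ)) :
    Conv (fun k => X c (l ++ [τ k])) (X c l) := by
  induction l with
  | nil =>
    have h1 := Conv.V c h (Conv.const 1)
    have h2 : S09516.V c 1 (1 : Perm ℕ) = 1 := by simp [S09516.V]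
    rw [h2] at h1
    exact h1
  | cons w l ih =>
    exact Conv.V c (Conv.const w) ih


end conv


section main

open Equiv Filter

def fl (k : ℕ) : ℕ := if k % 2 = 0 then k + 1 else k - 1
def winv (w : List ℕ) : List ℕ := (w.map fl).reverse
def VW (w x : List ℕ) : List ℕ := x ++ [4] ++ winv x ++ w ++ x ++ [5] ++ winv x
def XW (l : List ℕ) : List ℕ := l.foldr (fun m acc => VW (W m) acc) []

theorem gen_fl {Γ : Type} [Group Γ] (α β η : Γ) (k : ℕ) :
    gen α β η (fl k) = (gen α β η k)⁻¹ := by
  match k with
  | 0 => rfl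
  | 1 => simp [fl, gen]
  | 2 => rfl
  | 3 => simp [fl, gen]
  | 4 => rfl
  | 5 => simp [fl, gen]
  | k + 6 =>
    have h6 : ∀ j, 6 ≤ j → gen α β η j = 1 := by
      intro j hj
      obtain ⟨i, rfl⟩ := Nat.exists_eq_add_of_le hj
      rw [add_comm]
      rfl
    rw [h6 (k+6) (by omega), h6 (fl (k+6))]
    · simp
    · unfold fl; split_ifs <;> omega

theorem gval_winv {Γ : Type} [Group Γ] (α β η : Γ) (w : List ℕ) :
    gval (gen α β η) (winv w) = (gval (gen α β η) w)⁻¹ := by
  induction w with
  | nil => simp [winv, gval]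
  | cons k w ih =>
    have : winv (k :: w) = winv w ++ [fl k] := by simp [winv]
    rw [this, gval_append, ih, gval_single, gen_fl]
    have h2 : gval (gen α β η) (k :: w) = gen α β η k * gval (gen α β η) w := by simp [gval]
    rw [h2, mul_inv_rev]

theorem gval_XW {Γ : Type} [Group Γ] (α β η : Γ) (l : List ℕ) :
    gval (gen α β η) (XW l) = X η (l.map (fun m => gval (gen α β η) (W m))) := by
  induction l with
  | nil => simp [XW, gval, X]
  | cons m l ih =>
    have h1 : XW (m :: l) = VW (W m) (XW l) := rfl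
    have h2 : X η ((m :: l).map (fun m => gval (gen α β η) (W m))) =
      V η (gval (gen α β η) (W m)) (X η (l.map (fun m => gval (gen α β η) (W m)))) := rfl
    rw [h1, h2, ← ih]
    simp only [VW, gval_append, gval_winv, gval_single, V]
    rfl

theorem prim_fl : Primrec fl := by
  unfold fl
  refine Primrec.ite ?_ ?_ ?_
  · exact Primrec.eq.comp (Primrec.nat_mod.comp Primrec.id (Primrec.const 2)) (Primrec.const 0)
  · exact Primrec.succ
  · exact Primrec.nat_sub.comp Primrec.id (Primrec.const 1)

theorem prim_winv : Primrec winv := by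
  unfold winv
  exact Primrec.list_reverse.comp (Primrec.list_map Primrec.id (prim_fl.comp Primrec.snd).to₂)

theorem prim_rep (k : ℕ) : Primrec (fun m => rep m k) := by
  unfold rep
  exact Primrec.list_map (Primrec.list_range.comp Primrec.succ) (Primrec.const k).to₂

theorem prim_W : Primrec W := by
  unfold W
  have ap := @Primrec.list_append ℕ _
  have c := fun (l : List ℕ) => (Primrec.const l : Primrec (fun _ : ℕ => l))
  exact ap.comp (ap.comp (ap.comp (ap.comp (ap.comp (ap.comp (ap.comp (c [2]) (prim_rep 0)) (c [2]))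
    (prim_rep 1)) (c [3])) (prim_rep 0)) (c [3])) (prim_rep 1)

theorem prim_VW : Primrec₂ VW := by
  unfold VW
  have ap := @Primrec.list_append ℕ _
  have c := fun (l : List ℕ) => (Primrec.const l : Primrec (fun _ : List ℕ × List ℕ => l))
  have x : Primrec (fun p : List ℕ × List ℕ => p.2) := Primrec.snd
  have w : Primrec (fun p : List ℕ × List ℕ => p.1) := Primrec.fst
  exact ap.comp (ap.comp (ap.comp (ap.comp (ap.comp (ap.comp x (c [4])) (prim_winv.comp x)) w) x)
    (c [5])) (prim_winv.comp x)

theorem prim_XW : Primrec XW := by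
  unfold XW
  exact Primrec.list_foldr Primrec.id (Primrec.const [])
    (prim_VW.comp (prim_W.comp (Primrec.fst.comp Primrec.snd)) (Primrec.snd.comp Primrec.snd)).to₂

theorem comp_gval (g : ℕ → Perm ℕ) (hg : Computable₂ (fun k p => g k p)) :
    Computable₂ (fun (w : List ℕ) (p : ℕ) => gval g w p) := by
  have h := comp_foldr (α := List ℕ × ℕ) (f := fun a => a.1) (g := fun a => a.2)
    (h := fun _ (p : ℕ × ℕ) => g p.1 p.2) Computable.fst Computable.snd
    (hg.comp (Computable.fst.comp Computable.snd) (Computable.snd.comp Computable.snd)).to₂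
  refine h.of_eq fun a => ?_
  obtain ⟨w, p⟩ := a
  show w.foldr (fun b s => g b s) p = gval g w p
  induction w with
  | nil => simp [gval]
  | cons k w ih =>
    have h2 : gval g (k :: w) = g k * gval g w := by simp [gval]
    rw [h2, Perm.mul_apply, List.foldr_cons, ih]

theorem comp_inv (σ : Perm ℕ) (h : Computable (σ : ℕ → ℕ)) : Computable ((σ⁻¹ : Perm ℕ) : ℕ → ℕ) := by
  have hP : Computable₂ (fun n m : ℕ => decide (σ m = n)) := by
    exact (Primrec.eq (α := ℕ)).decide.to_comp.comp
      (h.comp (Computable.snd (α := ℕ) (β := ℕ))) (Computable.fst (α := ℕ) (β := ℕ))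
  have H : ∀ n, ∃ m, decide (σ m = n) = true := fun n => ⟨σ⁻¹ n, by simp⟩
  refine (comp_find _ hP H).of_eq fun n => ?_
  have := Nat.find_spec (H n)
  have h2 : σ (Nat.find (H n)) = n := by simpa using this
  have h3 : σ (σ⁻¹ n) = n := by simp
  exact σ.injective (h2.trans h3.symm)

theorem comp_dec_eq {α : Type} [Primcodable α] {f g : α → ℕ} (hf : Computable f) (hg : Computable g) :
    Computable (fun a => decide (f a = g a)) :=
  (Primrec.eq (α := ℕ)).decide.to_comp.comp hf hg

/-- the search condition -/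
def cnd (g : ℕ → Perm ℕ) (l : List ℕ) (c : ℕ) : Bool :=
  (! decide (gval g (W c.unpair.1) c.unpair.2 = c.unpair.2)) &&
    ball (fun e =>
      decide (gval g (XW (l.drop e.unpair.1 ++ [c.unpair.1])) e.unpair.2 =
        gval g (XW (l.drop e.unpair.1)) e.unpair.2) &&
      decide (gval g (winv (XW (l.drop e.unpair.1 ++ [c.unpair.1]))) e.unpair.2 =
        gval g (winv (XW (l.drop e.unpair.1))) e.unpair.2)) l.length

theorem comp_cnd (g : ℕ → Perm ℕ) (hg : Computable₂ (fun k p => g k p)) : Computable₂ (cnd g) := by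
  have hv := comp_gval g hg
  have hu1 : Computable (fun n : ℕ => n.unpair.1) := (Primrec.fst.comp Primrec.unpair).to_comp
  have hu2 : Computable (fun n : ℕ => n.unpair.2) := (Primrec.snd.comp Primrec.unpair).to_comp
  unfold cnd
  refine (Primrec.and.to_comp).comp ?_ ?_
  · refine (Primrec.not.to_comp).comp ?_
    have hc : Computable (fun a : List ℕ × ℕ => a.2) := Computable.snd
    exact comp_dec_eq (hv.comp (prim_W.to_comp.comp (hu1.comp hc)) (hu2.comp hc)) (hu2.comp hc)
  · refine comp_ball (α := List ℕ × ℕ) ?_ (Computable.list_length.comp Computable.fst)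
    have hl : Computable (fun a : (List ℕ × ℕ) × ℕ => a.1.1) := Computable.fst.comp Computable.fst
    have hc : Computable (fun a : (List ℕ × ℕ) × ℕ => a.1.2.unpair.1) :=
      hu1.comp (Computable.snd.comp Computable.fst)
    have he1 : Computable (fun a : (List ℕ × ℕ) × ℕ => a.2.unpair.1) := hu1.comp Computable.snd
    have he2 : Computable (fun a : (List ℕ × ℕ) × ℕ => a.2.unpair.2) := hu2.comp Computable.snd
    have hd : Computable (fun a : (List ℕ × ℕ) × ℕ => a.1.1.drop a.2.unpair.1) :=
      (Primrec.list_drop.to_comp).comp he1 hl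
    have hda : Computable (fun a : (List ℕ × ℕ) × ℕ => a.1.1.drop a.2.unpair.1 ++ [a.1.2.unpair.1]) :=
      Computable.list_append.comp hd (Computable.list_cons.comp hc (Computable.const []))
    have hX1 := prim_XW.to_comp.comp hd
    have hX2 := prim_XW.to_comp.comp hda
    refine (Primrec.and.to_comp).comp ?_ ?_
    · exact comp_dec_eq (hv.comp hX2 he2) (hv.comp hX1 he2)
    · exact comp_dec_eq (hv.comp (prim_winv.to_comp.comp hX2) he2)
        (hv.comp (prim_winv.to_comp.comp hX1) he2)

/-- halting set formulation: nontrivial words fixing long initial segments -/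
theorem exists_fix (g : ℕ → Perm ℕ) (hg : Computable₂ (fun k p => g k p))
    (hW : ∀ m, gval g (W m) ≠ 1 ↔ ((Denumerable.ofNat Nat.Partrec.Code m).eval 0).Dom) (M : ℕ) :
    ∃ m, gval g (W m) ≠ 1 ∧ ∀ q < M, gval g (W m) q = q := by
  by_contra hcon
  push Not at hcon
  apply ComputablePred.halting_problem 0
  rw [ComputablePred.computable_iff]
  refine ⟨fun c => ! ball (fun q => decide (gval g (W (Encodable.encode c)) q = q)) M, ?_, ?_⟩
  · refine (Primrec.not.to_comp).comp ?_
    refine comp_ball (α := Nat.Partrec.Code)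
      (P := fun c q => decide (gval g (W (Encodable.encode c)) q = q)) ?_ (Computable.const M)
    exact comp_dec_eq ((comp_gval g hg).comp
      (prim_W.to_comp.comp (Computable.encode.comp Computable.fst)) Computable.snd) Computable.snd
  · funext c
    have h1 := hW (Encodable.encode c)
    rw [Denumerable.ofNat_encode] at h1
    apply propext
    rw [← h1]
    rw [Bool.not_eq_true', ← Bool.not_eq_true, ball_iff]
    constructor
    · intro h2 h3
      obtain ⟨q, hq, hne⟩ := hcon _ h2
      exact hne (by simpa using h3 q hq)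
    · intro h2 h3
      apply h2
      intro q _
      rw [h3]; simp

theorem exists_cnd (A B C : Perm ℕ) (hg : Computable₂ (fun k p => gen A B C k p))
    (hW : ∀ m, gval (gen A B C) (W m) ≠ 1 ↔ ((Denumerable.ofNat Nat.Partrec.Code m).eval 0).Dom)
    (l : List ℕ) : ∃ c, cnd (gen A B C) l c = true := by
  choose mm hmm1 hmm2 using exists_fix (gen A B C) hg hW
  have hτ : Conv (fun M => gval (gen A B C) (W (mm M))) 1 := by
    intro q
    have h1 : ∀ᶠ M in atTop, gval (gen A B C) (W (mm M)) q = q := by
      filter_upwards [eventually_gt_atTop q] with M hM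
      exact hmm2 M q hM
    refine ⟨by simpa using h1, ?_⟩
    filter_upwards [h1] with M hM
    rw [inv_one, Perm.one_apply, Perm.inv_eq_iff_eq, hM]
  have hall : ∀ᶠ M in atTop, ∀ e ∈ Finset.range l.length,
      (gval (gen A B C) (XW (l.drop e.unpair.1 ++ [mm M])) e.unpair.2 =
        gval (gen A B C) (XW (l.drop e.unpair.1)) e.unpair.2) ∧
      (gval (gen A B C) (winv (XW (l.drop e.unpair.1 ++ [mm M]))) e.unpair.2 =
        gval (gen A B C) (winv (XW (l.drop e.unpair.1))) e.unpair.2) := by
    rw [Filter.eventually_all_finset]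
    intro e _
    have hX := Conv.X C hτ ((l.drop e.unpair.1).map (fun m => gval (gen A B C) (W m)))
    obtain ⟨h1, h2⟩ := hX e.unpair.2
    filter_upwards [h1, h2] with M hM1 hM2
    simp only [gval_winv, gval_XW, List.map_append, List.map_cons, List.map_nil]
    exact ⟨hM1, hM2⟩
  obtain ⟨M, hM⟩ := hall.exists
  have hne := hmm1 M
  have : ∃ q, gval (gen A B C) (W (mm M)) q ≠ q := by
    by_contra hcon
    push Not at hcon
    apply hne
    ext q
    simpa using hcon q
  obtain ⟨q, hq⟩ := this
  refine ⟨Nat.pair (mm M) q, ?_⟩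
  unfold cnd
  simp only [Nat.unpair_pair, Bool.and_eq_true, ball_iff, decide_eq_true_eq]
  refine ⟨by simpa using hq, ?_⟩
  intro e he
  exact hM e (Finset.mem_range.2 he)

end main

section final

open Equiv Filter

section seq

variable (A B C : Perm ℕ) (H : ∀ l, ∃ c, cnd (gen A B C) l c = true)

theorem cnd_iff (g : ℕ → Perm ℕ) (l : List ℕ) (c : ℕ) : cnd g l c = true ↔
    (gval g (W c.unpair.1) c.unpair.2 ≠ c.unpair.2) ∧ ∀ e < l.length,
      (gval g (XW (l.drop e.unpair.1 ++ [c.unpair.1])) e.unpair.2 =
        gval g (XW (l.drop e.unpair.1)) e.unpair.2) ∧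
      (gval g (winv (XW (l.drop e.unpair.1 ++ [c.unpair.1]))) e.unpair.2 =
        gval g (winv (XW (l.drop e.unpair.1))) e.unpair.2) := by
  unfold cnd
  simp only [Bool.and_eq_true, ball_iff, decide_eq_true_eq, Bool.not_eq_true', decide_eq_false_iff_not,
    ne_eq]

/-- least witness for the search condition -/
def pick (l : List ℕ) : ℕ := Nat.find (H l)

theorem pick_spec (l : List ℕ) : cnd (gen A B C) l (pick A B C H l) = true := Nat.find_spec (H l)

/-- the chosen indices, as a growing list -/
def St : ℕ → List ℕ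
  | 0 => []
  | n + 1 => St n ++ [(pick A B C H (St n)).unpair.1]

/-- the chosen index at stage n -/
def mI (n : ℕ) : ℕ := (pick A B C H (St A B C H n)).unpair.1

theorem St_length (n : ℕ) : (St A B C H n).length = n := by
  induction n with
  | zero => rfl
  | succ n ih => simp [St, ih]

theorem St_drop (n N : ℕ) (h : n < N) :
    (St A B C H N).drop n = mI A B C H n :: (St A B C H N).drop (n + 1) := by
  induction N with
  | zero => omega
  | succ N ih =>
    rw [St]
    rcases Nat.lt_succ_iff_lt_or_eq.1 h with h | h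
    · rw [List.drop_append_of_le_length (by rw [St_length]; omega),
        List.drop_append_of_le_length (by rw [St_length]; omega), ih h]
      rfl
    · subst h
      rw [List.drop_append_of_le_length (by rw [St_length]), List.drop_eq_nil_of_le (by rw [St_length]),
        List.drop_eq_nil_of_le (by simp [St_length])]
      rfl

/-- finite approximations of the nested expression starting at level n -/
def xs (n N : ℕ) : Perm ℕ := gval (gen A B C) (XW ((St A B C H N).drop n))

theorem xs_stable (n p N : ℕ) (h : Nat.pair n p < N) :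
    xs A B C H n (N + 1) p = xs A B C H n N p ∧
      (xs A B C H n (N + 1))⁻¹ p = (xs A B C H n N)⁻¹ p := by
  have hc := (cnd_iff _ _ _).1 (pick_spec A B C H (St A B C H N))
  have h2 := hc.2 (Nat.pair n p) (by rw [St_length]; exact h)
  simp only [Nat.unpair_pair, gval_winv] at h2
  have hn : n ≤ N := le_trans (Nat.left_le_pair n p) h.le
  have hd : (St A B C H (N + 1)).drop n = (St A B C H N).drop n ++ [mI A B C H N] := by
    rw [St, List.drop_append_of_le_length (by rw [St_length]; exact hn)]
    rfl
  unfold xs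
  rw [hd]
  exact h2

theorem xs_stable' (n p N N' : ℕ) (h : Nat.pair n p < N) (h' : N ≤ N') :
    xs A B C H n N' p = xs A B C H n N p ∧
      (xs A B C H n N')⁻¹ p = (xs A B C H n N)⁻¹ p := by
  induction N', h' using Nat.le_induction with
  | base => exact ⟨rfl, rfl⟩
  | succ K hK ih =>
    have := xs_stable A B C H n p K (lt_of_lt_of_le h hK)
    exact ⟨this.1.trans ih.1, this.2.trans ih.2⟩

/-- the limit permutations -/
def sg (n : ℕ) : Perm ℕ where
  toFun p := xs A B C H n (Nat.pair n p + 1) p
  invFun p := (xs A B C H n (Nat.pair n p + 1))⁻¹ p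
  left_inv p := by
    have h1 := xs_stable' A B C H n p (Nat.pair n p + 1)
      (max (Nat.pair n p + 1) (Nat.pair n (xs A B C H n (Nat.pair n p + 1) p) + 1))
      (Nat.lt_succ_self _) (le_max_left _ _)
    have h2 := xs_stable' A B C H n (xs A B C H n (Nat.pair n p + 1) p)
      (Nat.pair n (xs A B C H n (Nat.pair n p + 1) p) + 1)
      (max (Nat.pair n p + 1) (Nat.pair n (xs A B C H n (Nat.pair n p + 1) p) + 1))
      (Nat.lt_succ_self _) (le_max_right _ _)
    show (xs A B C H n (Nat.pair n (xs A B C H n (Nat.pair n p + 1) p) + 1))⁻¹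
      (xs A B C H n (Nat.pair n p + 1) p) = p
    rw [← h2.2]
    rw [Perm.inv_eq_iff_eq]
    exact h1.1.symm
  right_inv p := by
    have h1 := xs_stable' A B C H n p (Nat.pair n p + 1)
      (max (Nat.pair n p + 1) (Nat.pair n ((xs A B C H n (Nat.pair n p + 1))⁻¹ p) + 1))
      (Nat.lt_succ_self _) (le_max_left _ _)
    have h2 := xs_stable' A B C H n ((xs A B C H n (Nat.pair n p + 1))⁻¹ p)
      (Nat.pair n ((xs A B C H n (Nat.pair n p + 1))⁻¹ p) + 1)
      (max (Nat.pair n p + 1) (Nat.pair n ((xs A B C H n (Nat.pair n p + 1))⁻¹ p) + 1))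
      (Nat.lt_succ_self _) (le_max_right _ _)
    show (xs A B C H n (Nat.pair n ((xs A B C H n (Nat.pair n p + 1))⁻¹ p) + 1))
      ((xs A B C H n (Nat.pair n p + 1))⁻¹ p) = p
    exact h2.1.symm.trans (Perm.inv_eq_iff_eq.1 h1.2).symm

theorem sg_conv (n : ℕ) : Conv (fun N => xs A B C H n N) (sg A B C H n) := by
  intro p
  constructor
  · filter_upwards [eventually_ge_atTop (Nat.pair n p + 1)] with N hN
    exact (xs_stable' A B C H n p (Nat.pair n p + 1) N (Nat.lt_succ_self _) hN).1
  · filter_upwards [eventually_ge_atTop (Nat.pair n p + 1)] with N hN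
    exact (xs_stable' A B C H n p (Nat.pair n p + 1) N (Nat.lt_succ_self _) hN).2

theorem sg_eq (n : ℕ) : sg A B C H n =
    V C (gval (gen A B C) (W (mI A B C H n))) (sg A B C H (n + 1)) := by
  have h1 := Conv.V C (Conv.const (gval (gen A B C) (W (mI A B C H n)))) (sg_conv A B C H (n + 1))
  have h2 : Conv (fun N => V C (gval (gen A B C) (W (mI A B C H n))) (xs A B C H (n + 1) N))
      (sg A B C H n) := by
    intro p
    have hev : ∀ᶠ N in atTop, V C (gval (gen A B C) (W (mI A B C H n))) (xs A B C H (n + 1) N) =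
        xs A B C H n N := by
      filter_upwards [eventually_gt_atTop n] with N hN
      unfold xs
      rw [St_drop A B C H n N hN]
      rw [gval_XW, gval_XW]
      rfl
    obtain ⟨h3, h4⟩ := sg_conv A B C H n p
    constructor
    · filter_upwards [hev, h3] with N hN1 hN2
      rw [hN1, hN2]
    · filter_upwards [hev, h4] with N hN1 hN2
      rw [hN1, hN2]
  exact Conv.unique h2 h1

theorem mI_ne (n : ℕ) : gval (gen A B C) (W (mI A B C H n)) ≠ 1 := by
  have hc := (cnd_iff _ _ _).1 (pick_spec A B C H (St A B C H n))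
  intro h
  apply hc.1
  have h' : gval (gen A B C) (W (pick A B C H (St A B C H n)).unpair.1) = 1 := h
  rw [h']
  simp

theorem comp_St (hg : Computable₂ (fun k p => gen A B C k p)) : Computable (St A B C H) := by
  have hf : Computable (pick A B C H) := comp_find _ (comp_cnd (gen A B C) hg) H
  have hu1 : Computable (fun n : ℕ => n.unpair.1) := (Primrec.fst.comp Primrec.unpair).to_comp
  have h := Computable.nat_rec (α := ℕ) (σ := List ℕ) (f := id) (g := fun _ => [])
    (h := fun _ p => p.2 ++ [(pick A B C H p.2).unpair.1]) Computable.id (Computable.const [])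
    (Computable.list_append.comp (Computable.snd.comp Computable.snd)
      (Computable.list_cons.comp (hu1.comp (hf.comp (Computable.snd.comp Computable.snd)))
        (Computable.const []))).to₂
  refine h.of_eq fun n => ?_
  simp only [id]
  induction n with
  | zero => rfl
  | succ n ih => simp only [St]; rw [← ih]

theorem comp_sg (hg : Computable₂ (fun k p => gen A B C k p)) (n : ℕ) :
    Computable (sg A B C H n : ℕ → ℕ) := by
  have hS := comp_St A B C H hg
  have hp : Computable (fun p : ℕ => Nat.pair n p + 1) :=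
    (Primrec.succ.comp (Primrec₂.natPair.comp (Primrec.const n) Primrec.id)).to_comp
  have h1 : Computable (fun p : ℕ => (St A B C H (Nat.pair n p + 1)).drop n) :=
    (Primrec.list_drop.to_comp).comp (Computable.const n) (hS.comp hp)
  exact (comp_gval _ hg).comp (prim_XW.to_comp.comp h1) Computable.id

end seq

/-- the group of computable permutations of the naturals -/
def CP : Subgroup (Perm ℕ) where
  carrier := {σ | Computable (σ : ℕ → ℕ)}
  mul_mem' := fun {a b} ha hb => by
    have ha' : Computable (a : ℕ → ℕ) := ha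
    have hb' : Computable (b : ℕ → ℕ) := hb
    have : Computable (fun n => a (b n)) := ha'.comp hb'
    exact this
  one_mem' := Computable.id
  inv_mem' := fun {a} ha => comp_inv a ha

theorem comp_gen (A B C : Perm ℕ) (hA : Computable (A : ℕ → ℕ)) (hB : Computable (B : ℕ → ℕ))
    (hC : Computable (C : ℕ → ℕ)) : Computable₂ (fun k p => gen A B C k p) := by
  have hA' := comp_inv A hA
  have hB' := comp_inv B hB
  have hC' := comp_inv C hC
  have hk : Computable (fun a : ℕ × ℕ => a.1) := Computable.fst
  have hp : Computable (fun a : ℕ × ℕ => a.2) := Computable.snd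
  have dec : ∀ j : ℕ, Computable (fun a : ℕ × ℕ => decide (a.1 = j)) := fun j =>
    comp_dec_eq hk (Computable.const j)
  have h := Computable.cond (dec 0) (hA.comp hp) (Computable.cond (dec 1) (hA'.comp hp)
    (Computable.cond (dec 2) (hB.comp hp) (Computable.cond (dec 3) (hB'.comp hp)
    (Computable.cond (dec 4) (hC.comp hp) (Computable.cond (dec 5) (hC'.comp hp) hp)))))
  refine h.of_eq fun a => ?_
  obtain ⟨k, p⟩ := a
  match k with
  | 0 => rfl
  | 1 => rfl
  | 2 => rfl
  | 3 => rfl
  | 4 => rfl
  | 5 => rfl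
  | k + 6 =>
    simp [gen]

theorem comp_aP : Computable (aP : ℕ → ℕ) := by
  have hz : Primrec (fun n => zigF n) := by
    unfold zigF
    refine Primrec.ite ?_ ?_ (Primrec.ite ?_ ?_ ?_)
    · exact Primrec.eq.comp (Primrec.nat_mod.comp Primrec.id (Primrec.const 2)) (Primrec.const 0)
    · exact Primrec.nat_add.comp Primrec.id (Primrec.const 2)
    · exact Primrec.eq.comp Primrec.id (Primrec.const 1)
    · exact Primrec.const 0
    · exact Primrec.nat_sub.comp Primrec.id (Primrec.const 2)
  have h : Primrec (fun n : ℕ => Nat.pair n.unpair.1 (zigF n.unpair.2)) :=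
    Primrec₂.natPair.comp (Primrec.fst.comp Primrec.unpair)
      (hz.comp (Primrec.snd.comp Primrec.unpair))
  exact h.to_comp

theorem prim_Pst : Primrec Pst := by
  unfold Pst
  refine Primrec.option_isSome.comp ?_
  have h := Nat.Partrec.Code.primrec_evaln
  exact h.comp (Primrec.pair (Primrec.pair (Primrec.snd.comp Primrec.unpair)
    ((Primrec.ofNat Nat.Partrec.Code).comp (Primrec.fst.comp Primrec.unpair))) (Primrec.const 0))

theorem comp_bP : Computable (bP : ℕ → ℕ) := by
  have h1 : Primrec (fun n : ℕ => n.unpair.1) := Primrec.fst.comp Primrec.unpair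
  have h2 : Primrec (fun n : ℕ => n.unpair.2) := Primrec.snd.comp Primrec.unpair
  have hs : Primrec (fun n : ℕ => 2 * (n.unpair.1.unpair.1 + 1)) :=
    Primrec.nat_mul.comp (Primrec.const 2) (Primrec.succ.comp (h1.comp h1))
  have hb : Primrec (fun n : ℕ => if Pst n.unpair.1 = true then
      (if n.unpair.2 = 0 then 2 * (n.unpair.1.unpair.1 + 1) else
        if n.unpair.2 = 2 * (n.unpair.1.unpair.1 + 1) then 0 else n.unpair.2) else n.unpair.2) := by
    refine Primrec.ite ?_ (Primrec.ite ?_ hs (Primrec.ite ?_ (Primrec.const 0) h2)) h2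
    · exact Primrec.eq.comp (prim_Pst.comp h1) (Primrec.const true)
    · exact Primrec.eq.comp h2 (Primrec.const 0)
    · exact Primrec.eq.comp h2 hs
  have h := (Primrec₂.natPair.comp h1 hb).to_comp
  refine h.of_eq fun n => ?_
  rw [show (bP : Perm ℕ) n = Nat.pair n.unpair.1 (bb n.unpair.1 n.unpair.2) from rfl]
  congr 1
  unfold bb
  split_ifs <;> simp_all [Equiv.swap_apply_def]

def sw : Perm ℕ := swap 0 1

theorem comp_sw : Computable (sw : ℕ → ℕ) := by
  have h : Primrec (fun n : ℕ => if n = 0 then 1 else if n = 1 then 0 else n) := by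
    refine Primrec.ite ?_ (Primrec.const 1) (Primrec.ite ?_ (Primrec.const 0) Primrec.id)
    · exact Primrec.eq.comp Primrec.id (Primrec.const 0)
    · exact Primrec.eq.comp Primrec.id (Primrec.const 1)
  refine h.to_comp.of_eq fun n => ?_
  unfold sw
  rw [Equiv.swap_apply_def]

def aC : CP := ⟨aP, comp_aP⟩
def bC : CP := ⟨bP, comp_bP⟩
def hC : CP := ⟨sw, comp_sw⟩

theorem hC_ne : hC ≠ 1 := by
  intro h
  have h2 := congrArg (fun σ : CP => (σ : Perm ℕ) 0) h
  simp [hC, sw] at h2

theorem W_CP_iff (m : ℕ) : gval (gen aC bC (1 : CP)) (W m) ≠ 1 ↔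
    ((Denumerable.ofNat Nat.Partrec.Code m).eval 0).Dom := by
  rw [← halt_iff, ← not_iff_not (b := ∃ s, _), ← W_iff 1 m, not_not]
  have h := gval_gen_map CP.subtype aC bC 1 (W m)
  have h2 : gval (gen aP bP (1 : Perm ℕ)) (W m) = CP.subtype (gval (gen aC bC (1 : CP)) (W m)) := by
    rw [h]; simp [aC, bC]
  rw [h2]
  constructor
  · intro h3; rw [h3]; simp
  · intro h3
    apply CP.subtype_injective
    rw [h3]; simp

theorem main_result :
    ¬ (∀ (G H : Type) [Group G] [Group H],
      (∃ (d : ℕ → Bool) (r : ℕ → List ℕ → Bool), Computable d ∧ Computable₂ r ∧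
        ∃ φ : G →* Equiv.Perm ℕ, Function.Injective φ ∧
          ∀ σ : Equiv.Perm ℕ, σ ∈ φ.range ↔
            (Computable (σ : ℕ → ℕ) ∧ (∀ n, d n = false → σ n = n) ∧
              (∀ n, d n = true → d (σ n) = true) ∧
              ∀ (i : ℕ) (l : List ℕ), (∀ x ∈ l, d x = true) → r i (l.map σ) = r i l)) →
      (∃ (d : ℕ → Bool) (r : ℕ → List ℕ → Bool), Computable d ∧ Computable₂ r ∧
        ∃ φ : H →* Equiv.Perm ℕ, Function.Injective φ ∧
          ∀ σ : Equiv.Perm ℕ, σ ∈ φ.range ↔
            (Computable (σ : ℕ → ℕ) ∧ (∀ n, d n = false → σ n = n) ∧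
              (∀ n, d n = true → d (σ n) = true) ∧
              ∀ (i : ℕ) (l : List ℕ), (∀ x ∈ l, d x = true) → r i (l.map σ) = r i l)) →
      (∃ (d : ℕ → Bool) (r : ℕ → List ℕ → Bool), Computable d ∧ Computable₂ r ∧
        ∃ φ : Monoid.Coprod G H →* Equiv.Perm ℕ, Function.Injective φ ∧
          ∀ σ : Equiv.Perm ℕ, σ ∈ φ.range ↔
            (Computable (σ : ℕ → ℕ) ∧ (∀ n, d n = false → σ n = n) ∧
              (∀ n, d n = true → d (σ n) = true) ∧
              ∀ (i : ℕ) (l : List ℕ), (∀ x ∈ l, d x = true) → r i (l.map σ) = r i l))) := by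
  intro hall
  have hS : (∃ (d : ℕ → Bool) (r : ℕ → List ℕ → Bool), Computable d ∧ Computable₂ r ∧
        ∃ φ : CP →* Equiv.Perm ℕ, Function.Injective φ ∧
          ∀ σ : Equiv.Perm ℕ, σ ∈ φ.range ↔
            (Computable (σ : ℕ → ℕ) ∧ (∀ n, d n = false → σ n = n) ∧
              (∀ n, d n = true → d (σ n) = true) ∧
              ∀ (i : ℕ) (l : List ℕ), (∀ x ∈ l, d x = true) → r i (l.map σ) = r i l)) := by
    refine ⟨fun _ => true, fun _ _ => true, Computable.const _, (Computable.const _).to₂,
      CP.subtype, CP.subtype_injective, ?_⟩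
    intro σ
    rw [Subgroup.range_subtype]
    constructor
    · intro h
      exact ⟨h, by simp, by simp, by simp⟩
    · rintro ⟨h, -⟩
      exact h
  obtain ⟨d, r, hd, hr, φ, hφ, hrange⟩ := hall CP CP hS hS
  set α : Monoid.Coprod CP CP := Monoid.Coprod.inl aC with hα
  set β : Monoid.Coprod CP CP := Monoid.Coprod.inl bC with hβ
  set η : Monoid.Coprod CP CP := Monoid.Coprod.inr hC with hη
  have hcomp : ∀ x, Computable (φ x : ℕ → ℕ) := fun x => ((hrange (φ x)).1 ⟨x, rfl⟩).1
  have hg : Computable₂ (fun k p => gen (φ α) (φ β) (φ η) k p) :=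
    comp_gen _ _ _ (hcomp α) (hcomp β) (hcomp η)
  -- words in the first factor
  have hWinl : ∀ m, gval (gen α β η) (W m) = Monoid.Coprod.inl (gval (gen aC bC (1 : CP)) (W m)) := by
    intro m
    have h1 := gval_gen_map (Γ := CP) (Δ := Monoid.Coprod CP CP)
      (Monoid.Coprod.inl : CP →* Monoid.Coprod CP CP) aC bC 1 (W m)
    have h2 : gval (gen α β η) (W m) = gval (gen α β (Monoid.Coprod.inl (1 : CP))) (W m) := by
      rw [gval_W, gval_W]
    rw [h2]
    exact h1.symm
  have hinl : Function.Injective (Monoid.Coprod.inl : CP →* Monoid.Coprod CP CP) :=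
    Monoid.Coprod.inl_injective
  have hW : ∀ m, gval (gen (φ α) (φ β) (φ η)) (W m) ≠ 1 ↔
      ((Denumerable.ofNat Nat.Partrec.Code m).eval 0).Dom := by
    intro m
    rw [← W_CP_iff, ← gval_gen_map φ, hWinl]
    constructor
    · intro h h2; apply h; rw [h2]; simp
    · intro h h2
      apply h
      apply hinl
      apply hφ
      rw [h2]; simp
  have Hx := exists_cnd (φ α) (φ β) (φ η) hg hW
  have hmem : ∀ n, sg (φ α) (φ β) (φ η) Hx n ∈ φ.range := by
    intro n
    rw [hrange]
    have hx : ∀ N, xs (φ α) (φ β) (φ η) Hx n N ∈ φ.range := by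
      intro N
      unfold xs
      rw [← gval_gen_map φ]
      exact ⟨_, rfl⟩
    have hc := sg_conv (φ α) (φ β) (φ η) Hx n
    refine ⟨comp_sg _ _ _ _ hg n, ?_, ?_, ?_⟩
    · intro p hp
      obtain ⟨N, hN⟩ := (hc p).1.exists
      rw [← hN]
      exact (((hrange _).1 (hx N)).2.1 p hp)
    · intro p hp
      obtain ⟨N, hN⟩ := (hc p).1.exists
      rw [← hN]
      exact (((hrange _).1 (hx N)).2.2.1 p hp)
    · intro i l hl
      have hev : ∀ᶠ N in atTop, ∀ p ∈ l.toFinset,
          xs (φ α) (φ β) (φ η) Hx n N p = sg (φ α) (φ β) (φ η) Hx n p := by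
        rw [Filter.eventually_all_finset]
        intro p _
        exact (hc p).1
      obtain ⟨N, hN⟩ := hev.exists
      have hmap : l.map (sg (φ α) (φ β) (φ η) Hx n) = l.map (xs (φ α) (φ β) (φ η) Hx n N) := by
        apply List.map_congr_left
        intro p hp
        exact (hN p (List.mem_toFinset.2 hp)).symm
      rw [hmap]
      exact (((hrange _).1 (hx N)).2.2.2 i l hl)
  choose ξ hξ using hmem
  apply no_seq' hC hC_ne (fun n => gval (gen aC bC (1 : CP)) (W (mI (φ α) (φ β) (φ η) Hx n))) ?_ ξ ?_
  · intro n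
    have h := mI_ne (φ α) (φ β) (φ η) Hx n
    rw [hW, ← W_CP_iff] at h
    exact h
  · intro n
    apply hφ
    have h := sg_eq (φ α) (φ β) (φ η) Hx n
    rw [hξ n, h, ← hξ (n + 1), ← hWinl]
    simp only [V, map_mul, map_inv, gval_gen_map φ]
    rfl

end final



/-- The negation of the preceding statement: If groups G and H are each isomorphic to the group of computable automorphisms of some computable structure, then their free product is also isomorphic to the group of computable automorphisms of some computable structure. -/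
theorem result :
    ¬ (∀ (G H : Type) [Group G] [Group H],
      (∃ (d : ℕ → Bool) (r : ℕ → List ℕ → Bool), Computable d ∧ Computable₂ r ∧
        ∃ φ : G →* Equiv.Perm ℕ, Function.Injective φ ∧
          ∀ σ : Equiv.Perm ℕ, σ ∈ φ.range ↔
            (Computable (σ : ℕ → ℕ) ∧ (∀ n, d n = false → σ n = n) ∧
              (∀ n, d n = true → d (σ n) = true) ∧
              ∀ (i : ℕ) (l : List ℕ), (∀ x ∈ l, d x = true) → r i (l.map σ) = r i l)) →
      (∃ (d : ℕ → Bool) (r : ℕ → List ℕ → Bool), Computable d ∧ Computable₂ r ∧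
        ∃ φ : H →* Equiv.Perm ℕ, Function.Injective φ ∧
          ∀ σ : Equiv.Perm ℕ, σ ∈ φ.range ↔
            (Computable (σ : ℕ → ℕ) ∧ (∀ n, d n = false → σ n = n) ∧
              (∀ n, d n = true → d (σ n) = true) ∧
              ∀ (i : ℕ) (l : List ℕ), (∀ x ∈ l, d x = true) → r i (l.map σ) = r i l)) →
      (∃ (d : ℕ → Bool) (r : ℕ → List ℕ → Bool), Computable d ∧ Computable₂ r ∧
        ∃ φ : Monoid.Coprod G H →* Equiv.Perm ℕ, Function.Injective φ ∧
          ∀ σ : Equiv.Perm ℕ, σ ∈ φ.range ↔
            (Computable (σ : ℕ → ℕ) ∧ (∀ n, d n = false → σ n = n) ∧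
              (∀ n, d n = true → d (σ n) = true) ∧
              ∀ (i : ℕ) (l : List ℕ), (∀ x ∈ l, d x = true) → r i (l.map σ) = r i l))) := by
  exact main_result

end Pool.Agent.S09516
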