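import Mathlib
import Pool.Statements.S09534

set_option autoImplicit false
open Pool Pool.MP_829c31_lc

namespace Pool.Agent.Helper971.Hagendorf

/-- The ambient set: rational sequences (ordered lexicographically by `L`). -/
abbrev X := ℕ → ℚ

/-- strict lexicographic order -/
def L (x y : X) : Prop := ∃ i, (∀ j < i, x j = y j) ∧ x i < y i

theorem L_iff_toLex (x y : X) : L x y ↔ toLex x < toLex y := Iff.rfl

theorem L_irrefl (x : X) : ¬ L x x := fun ⟨_, _, h⟩ => lt_irrefl _ h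

theorem L_trans {x y z : X} (h : L x y) (h' : L y z) : L x z := by
  rw [L_iff_toLex] at *
  exact lt_trans h h'

theorem L_asymm {x y : X} (h : L x y) (h' : L y x) : False := L_irrefl _ (L_trans h h')

theorem L_tri (x y : X) : L x y ∨ x = y ∨ L y x := by
  rcases lt_trichotomy (toLex x) (toLex y) with h | h | h
  · exact Or.inl h
  · exact Or.inr (Or.inl (toLex.injective h))
  · exact Or.inr (Or.inr h)

/-- overwrite the first entries of `z` by the list `l` -/
def mix (l : List ℚ) (z : X) : X := fun i => l.getD i (z i)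

theorem mix_lt (l : List ℚ) (z : X) {i : ℕ} (h : i < l.length) : mix l z i = l.getD i 0 := by
  simp [mix, List.getD_eq_getElem?_getD, h]

theorem mix_ge (l : List ℚ) (z : X) {i : ℕ} (h : l.length ≤ i) : mix l z i = z i := by
  simp [mix, List.getD_eq_getElem?_getD, h]

/-- the cone of sequences starting with `l` -/
def Cone (l : List ℚ) : Set X := {x | ∀ i < l.length, x i = l.getD i 0}

theorem mem_Cone (l : List ℚ) (x : X) : x ∈ Cone l ↔ ∀ i < l.length, x i = l.getD i 0 := Iff.rfl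

theorem mix_mem_cone (l : List ℚ) (z : X) : mix l z ∈ Cone l := fun _ h => mix_lt l z h

/-- first `n` entries -/
def pre (x : X) (n : ℕ) : List ℚ := (List.range n).map x

@[simp] theorem pre_length (x : X) (n : ℕ) : (pre x n).length = n := by simp [pre]

theorem pre_getD (x : X) {n i : ℕ} (h : i < n) : (pre x n).getD i 0 = x i := by
  simp [pre, List.getD_eq_getElem?_getD, h]

theorem mem_cone_pre (x y : X) (n : ℕ) : y ∈ Cone (pre x n) ↔ ∀ i < n, y i = x i := by
  simp only [mem_Cone, pre_length]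
  constructor
  · intro h i hi; rw [h i hi, pre_getD x hi]
  · intro h i hi; rw [h i hi, pre_getD x hi]

theorem pre_eq_iff (x y : X) (n : ℕ) : pre x n = pre y n ↔ ∀ i < n, x i = y i := by
  simp only [pre]
  rw [List.map_inj_left]
  simp

theorem mix_pre_eq (x z : X) (n : ℕ) (h : ∀ i, n ≤ i → x i = z i) : mix (pre x n) z = x := by
  funext i
  by_cases hi : i < n
  · rw [mix_lt _ _ (by simpa using hi), pre_getD x hi]
  · rw [mix_ge _ _ (by simpa using (not_lt.mp hi))]; exact (h i (not_lt.mp hi)).symm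

/-- extending cones -/
theorem cone_anti {l m : List ℚ} (h : l <+: m) : Cone m ⊆ Cone l := by
  obtain ⟨t, rfl⟩ := h
  intro x hx i hi
  rw [hx i (by simp; omega)]
  simp [List.getD_eq_getElem?_getD, List.getElem?_append_left hi]

theorem mem_cone_self (x : X) (n : ℕ) : x ∈ Cone (pre x n) := (mem_cone_pre x x n).2 (fun _ _ => rfl)

/-- if `x < z` then everything agreeing with `x` far enough is `< z` -/
theorem L_nbhd_left {x z : X} (h : L x z) : ∃ n, ∀ y, (∀ i < n, y i = x i) → L y z := by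
  obtain ⟨i, h1, h2⟩ := h
  refine ⟨i + 1, fun y hy => ⟨i, fun j hj => ?_, ?_⟩⟩
  · rw [hy j (by omega), h1 j hj]
  · rw [hy i (by omega)]; exact h2

theorem L_nbhd_right {x z : X} (h : L x z) : ∃ n, ∀ y, (∀ i < n, y i = z i) → L x y := by
  obtain ⟨i, h1, h2⟩ := h
  refine ⟨i + 1, fun y hy => ⟨i, fun j hj => ?_, ?_⟩⟩
  · rw [hy j (by omega), h1 j hj]
  · rw [hy i (by omega)]; exact h2

/-- between two points there is a cone -/
theorem L_between {x z : X} (h : L x z) : ∃ l : List ℚ, ∀ y ∈ Cone l, L x y ∧ L y z := by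
  obtain ⟨i, h1, h2⟩ := h
  obtain ⟨q, hq1, hq2⟩ := exists_between h2
  refine ⟨pre x i ++ [q], fun y hy => ?_⟩
  have hy1 : ∀ j < i, y j = x j := by
    have := cone_anti (List.prefix_append (pre x i) [q]) hy
    exact (mem_cone_pre x y i).1 this
  have hy2 : y i = q := by
    have := hy i (by simp)
    rw [this]
    simp [List.getD_eq_getElem?_getD]
  exact ⟨⟨i, fun j hj => (hy1 j hj).symm, by rw [hy2]; exact hq1⟩,
    ⟨i, fun j hj => by rw [hy1 j hj, h1 j hj], by rw [hy2]; exact hq2⟩⟩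

/-- inside each initial piece around `x` there is a cone below `x` -/
theorem cone_below (x : X) (n : ℕ) : ∃ l : List ℚ, pre x n <+: l ∧
    ∀ y ∈ Cone l, L y x ∧ ∀ i < n, y i = x i := by
  refine ⟨pre x n ++ [x n - 1], List.prefix_append _ _, fun y hy => ?_⟩
  have hy1 : ∀ j < n, y j = x j := by
    have := cone_anti (List.prefix_append (pre x n) [x n - 1]) hy
    exact (mem_cone_pre x y n).1 this
  have hy2 : y n = x n - 1 := by
    have := hy n (by simp)
    rw [this]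
    simp [List.getD_eq_getElem?_getD]
  exact ⟨⟨n, hy1, by rw [hy2]; linarith⟩, hy1⟩

theorem cone_above (x : X) (n : ℕ) : ∃ l : List ℚ, pre x n <+: l ∧
    ∀ y ∈ Cone l, L x y ∧ ∀ i < n, y i = x i := by
  refine ⟨pre x n ++ [x n + 1], List.prefix_append _ _, fun y hy => ?_⟩
  have hy1 : ∀ j < n, y j = x j := by
    have := cone_anti (List.prefix_append (pre x n) [x n + 1]) hy
    exact (mem_cone_pre x y n).1 this
  have hy2 : y n = x n + 1 := by
    have := hy n (by simp)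
    rw [this]
    simp [List.getD_eq_getElem?_getD]
  exact ⟨⟨n, fun j hj => (hy1 j hj).symm, by rw [hy2]; linarith⟩, hy1⟩

/-- initial pieces are convex -/
theorem convex_pre {a b y : X} {n : ℕ} (hab : ∀ i < n, a i = b i) (h1 : L a y) (h2 : L y b) :
    ∀ i < n, y i = a i := by
  obtain ⟨i, hi1, hi2⟩ := h1
  obtain ⟨j, hj1, hj2⟩ := h2
  by_contra hcon
  push Not at hcon
  obtain ⟨k, hk, hne⟩ := hcon
  have hik : i ≤ k := by
    by_contra hlt
    exact hne (hi1 k (by omega)).symm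
  -- y and a differ first at i, y i > a i = b i
  have hin : i < n := by omega
  have hji : j ≤ i := by
    by_contra hlt
    have := hj1 i (by omega)
    rw [this, ← hab i hin] at hi2
    exact lt_irrefl _ hi2
  rcases Nat.lt_or_ge j i with hlt | hge
  · have h3 := hi1 j hlt
    rw [← h3, hab j (by omega)] at hj2
    exact lt_irrefl _ hj2
  · have : i = j := by omega
    subst this
    rw [hab i hin] at hi2
    exact lt_asymm hi2 hj2


theorem prefix_pre_of_mem {l : List ℚ} {x : X} (hx : x ∈ Cone l) {n : ℕ} (hn : l.length ≤ n) :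
    l <+: pre x n := by
  rw [List.prefix_iff_eq_take]
  apply List.ext_getElem
  · simp [hn]
  · intro i h1 h2
    have := hx i h1
    simp [pre, this, h1]

/-! ### The coding -/

/-- order reversing map of `ℚ` into `(0,1)` -/
def hq (q : ℚ) : ℚ := (1 - q / (1 + |q|)) / 2

theorem hq_anti : StrictAnti hq := by
  intro a b hab
  unfold hq
  have h1 : a / (1 + |a|) < b / (1 + |b|) := by
    have ha : 0 < 1 + |a| := by positivity
    have hb : 0 < 1 + |b| := by positivity
    rw [div_lt_div_iff₀ ha hb]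
    rcases abs_cases a with ⟨h, h'⟩ | ⟨h, h'⟩ <;> rcases abs_cases b with ⟨k, k'⟩ | ⟨k, k'⟩ <;>
      rw [h, k] <;> nlinarith
  linarith

theorem hq_pos (q : ℚ) : 0 < hq q := by
  unfold hq
  have ha : 0 < 1 + |q| := by positivity
  have : q / (1 + |q|) < 1 := by
    rw [div_lt_one ha]
    linarith [le_abs_self q]
  linarith

theorem hq_lt (q : ℚ) : hq q < 1 := by
  unfold hq
  have ha : 0 < 1 + |q| := by positivity
  have : -1 < q / (1 + |q|) := by
    rw [lt_div_iff₀ ha]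
    linarith [neg_abs_le q]
  linarith

/-- digit coding -/
def E (q : ℚ) (c : ℕ) : ℚ := (c : ℚ) + hq q

theorem E_pos (q : ℚ) (c : ℕ) : 0 < E q c := by
  have := hq_pos q
  have : (0:ℚ) ≤ c := by positivity
  unfold E; linarith [hq_pos q]

theorem E_anti (c : ℕ) {q q' : ℚ} (h : q < q') : E q' c < E q c := by
  unfold E; linarith [hq_anti h]

theorem E_inj {q q' : ℚ} {c c' : ℕ} (h : E q c = E q' c') : q = q' ∧ c = c' := by
  have hc : c = c' := by
    have h1 := hq_pos q
    have h2 := hq_lt q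
    have h3 := hq_pos q'
    have h4 := hq_lt q'
    unfold E at h
    have h5 : (c : ℚ) < c' + 1 := by linarith
    have h6 : (c' : ℚ) < c + 1 := by linarith
    have h5' : c < c' + 1 := by exact_mod_cast h5
    have h6' : c' < c + 1 := by exact_mod_cast h6
    omega
  subst hc
  refine ⟨?_, rfl⟩
  unfold E at h
  exact hq_anti.injective (by linarith)

/-- the coding map -/
def d (r x : X) : X := fun n => E (x n) (Encodable.encode (pre x n, pre r (n + 1)))

theorem d_pos (r x : X) (n : ℕ) : 0 < d r x n := E_pos _ _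

theorem d_decode {r r' x x' : X} {n : ℕ} (h : d r x n = d r' x' n) :
    ∀ i ≤ n, x i = x' i ∧ r i = r' i := by
  obtain ⟨h1, h2⟩ := E_inj h
  have h3 := Encodable.encode_injective h2
  simp only [Prod.mk.injEq, pre_eq_iff] at h3
  intro i hi
  refine ⟨?_, h3.2 i (by omega)⟩
  rcases Nat.lt_or_ge i n with h4 | h4
  · exact h3.1 i h4
  · have : i = n := by omega
    rw [this]; exact h1

theorem d_congr {r r' x x' : X} {n : ℕ} (h : ∀ i ≤ n, x i = x' i) (h' : ∀ i ≤ n, r i = r' i) :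
    d r x n = d r' x' n := by
  have h1 : pre x n = pre x' n := (pre_eq_iff _ _ _).2 (fun i hi => h i hi.le)
  have h2 : pre r (n+1) = pre r' (n+1) := (pre_eq_iff _ _ _).2 (fun i hi => h' i (by omega))
  simp [d, h1, h2, h n le_rfl]

theorem d_anti (r : X) {x y : X} (h : L x y) : L (d r y) (d r x) := by
  obtain ⟨i, h1, h2⟩ := h
  refine ⟨i, fun j hj => d_congr (fun k hk => (h1 k (by omega)).symm) (fun _ _ => rfl), ?_⟩
  have h3 : pre x i = pre y i := (pre_eq_iff _ _ _).2 h1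
  simp only [d, h3]
  exact E_anti _ h2


/-! ### Words -/

/-- eventual equality -/
def Ev (x y : X) : Prop := ∃ n, ∀ i, n ≤ i → x i = y i

theorem Ev.refl (x : X) : Ev x x := ⟨0, fun _ _ => rfl⟩

theorem Ev.symm {x y : X} (h : Ev x y) : Ev y x := by
  obtain ⟨n, h⟩ := h
  exact ⟨n, fun i hi => (h i hi).symm⟩

theorem Ev.trans {x y z : X} (h : Ev x y) (h' : Ev y z) : Ev x z := by
  obtain ⟨n, h⟩ := h
  obtain ⟨m, h'⟩ := h'
  exact ⟨max n m, fun i hi => (h i (le_trans (le_max_left _ _) hi)).trans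
    (h' i (le_trans (le_max_right _ _) hi))⟩

theorem ev_mix (l : List ℚ) (x : X) : Ev (mix l x) x := ⟨l.length, fun _ hi => mix_ge l x hi⟩

theorem exists_mix_of_ev {x y : X} (h : Ev x y) : ∃ l, x = mix l y := by
  obtain ⟨n, h⟩ := h
  exact ⟨pre x n, (mix_pre_eq x y n h).symm⟩

/-- base points: infinitely many negative entries -/
def Xb : Set X := {x | ∀ n, ∃ i, n ≤ i ∧ x i < 0}

theorem not_ev_d {x : X} (hx : x ∈ Xb) (r u : X) : ¬ Ev x (d r u) := by
  rintro ⟨n, h⟩
  obtain ⟨i, hi, hneg⟩ := hx n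
  have := d_pos r u i
  rw [← h i hi] at this
  exact lt_asymm this hneg

theorem Xb_ev {x y : X} (h : Ev x y) (hx : x ∈ Xb) : y ∈ Xb := by
  obtain ⟨m, h⟩ := h
  intro n
  obtain ⟨i, hi, hneg⟩ := hx (max n m)
  exact ⟨i, le_trans (le_max_left _ _) hi, by rw [← h i (le_trans (le_max_right _ _) hi)]; exact hneg⟩

theorem d_ev_inj {r r' u u' : X} (h : Ev (d r u) (d r' u')) : r = r' ∧ u = u' := by
  obtain ⟨n, h⟩ := h
  have key : ∀ i, u i = u' i ∧ r i = r' i := fun i =>
    d_decode (h (max n i) (le_max_left _ _)) i (le_max_right _ _)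
  exact ⟨funext fun i => (key i).2, funext fun i => (key i).1⟩

/-- words of codings and finite modifications -/
def Ph : List (List ℚ × X) → List ℚ → X → X
  | [], l, x => mix l x
  | p :: w, l, x => mix p.1 (d p.2 (Ph w l x))

theorem Ph_ev_cons (p : List ℚ × X) (w : List (List ℚ × X)) (l : List ℚ) (x : X) :
    Ev (Ph (p :: w) l x) (d p.2 (Ph w l x)) := ev_mix _ _

theorem Ph_unique {w w' : List (List ℚ × X)} {l l' : List ℚ} {x x' : X} (hx : x ∈ Xb) (hx' : x' ∈ Xb)
    (h : Ev (Ph w l x) (Ph w' l' x')) : w.map Prod.snd = w'.map Prod.snd ∧ Ev x x' := by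
  induction w generalizing w' with
  | nil =>
    cases w' with
    | nil => exact ⟨rfl, (ev_mix l x).symm.trans (h.trans (ev_mix l' x'))⟩
    | cons p w' =>
      exact absurd ((ev_mix l x).symm.trans (h.trans (Ph_ev_cons p w' l' x'))) (not_ev_d hx _ _)
  | cons p w ih =>
    cases w' with
    | nil =>
      exact absurd ((ev_mix l' x').symm.trans (h.symm.trans (Ph_ev_cons p w l x))) (not_ev_d hx' _ _)
    | cons p' w' =>
      have h1 := (Ph_ev_cons p w l x).symm.trans (h.trans (Ph_ev_cons p' w' l' x'))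
      obtain ⟨h2, h3⟩ := d_ev_inj h1
      obtain ⟨h4, h5⟩ := ih (w' := w') (h3 ▸ Ev.refl _)
      exact ⟨by simp [h2, h4], h5⟩

theorem Ph_congr {w : List (List ℚ × X)} {l : List ℚ} {x y : X} {i : ℕ} (h : ∀ j ≤ i, x j = y j) :
    Ph w l x i = Ph w l y i := by
  induction w generalizing i with
  | nil =>
    simp only [Ph]
    rcases Nat.lt_or_ge i l.length with hi | hi
    · rw [mix_lt _ _ hi, mix_lt _ _ hi]
    · rw [mix_ge _ _ hi, mix_ge _ _ hi, h i le_rfl]
  | cons p w ih =>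
    simp only [Ph]
    rcases Nat.lt_or_ge i p.1.length with hi | hi
    · rw [mix_lt _ _ hi, mix_lt _ _ hi]
    · rw [mix_ge _ _ hi, mix_ge _ _ hi]
      exact d_congr (fun j hj => ih (fun k hk => h k (by omega))) (fun _ _ => rfl)

/-- from one late digit of the value one reads off the parameters of the word -/
theorem Ph_decode {w w' : List (List ℚ × X)} {l : List ℚ} {x x' : X} {i : ℕ}
    (hsh : w.map Prod.fst = w'.map Prod.fst) (hi : ∀ p ∈ w, p.1.length ≤ i)
    (h : Ph w l x i = Ph w' l x' i) :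
    List.Forall₂ (fun a b : List ℚ × X => ∀ j ≤ i, a.2 j = b.2 j) w w' := by
  induction w generalizing w' with
  | nil =>
    cases w' with
    | nil => exact List.Forall₂.nil
    | cons p' w' => simp at hsh
  | cons p w ih =>
    cases w' with
    | nil => simp at hsh
    | cons p' w' =>
      simp only [List.map_cons, List.cons.injEq] at hsh
      simp only [Ph] at h
      have h1 : p.1.length ≤ i := hi p (by simp)
      rw [mix_ge _ _ h1, mix_ge _ _ (hsh.1 ▸ h1)] at h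
      have h2 := d_decode h
      exact List.Forall₂.cons (fun j hj => (h2 j hj).2)
        (ih hsh.2 (fun q hq => hi q (by simp [hq])) (h2 i le_rfl).1)

/-! ### The set `B` -/

section
variable {I : Type} (xs rs : I → X) (Ms : I → ℕ → X)

/-- closure conditions -/
def Cl (S : Set X) : Prop :=
  (∀ z y, Ev y (xs z) → y ∈ S) ∧
  (∀ z u y, u ∈ S → (∀ n, Ms z n ≠ u) → (∀ t : List ℚ, ∃ j, Ms z j ∈ Cone t ∧ Ms z j ∈ S) →
    Ev y (d (rs z) u) → y ∈ S)

/-- the least set satisfying the closure conditions -/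
def B : Set X := {y | ∀ S, Cl xs rs Ms S → y ∈ S}

theorem B_base (z : I) {y : X} (h : Ev y (xs z)) : y ∈ B xs rs Ms := fun _ hS => hS.1 z y h

theorem B_step (z : I) {u y : X} (hu : u ∈ B xs rs Ms) (hM : ∀ n, Ms z n ≠ u)
    (hd : ∀ t : List ℚ, ∃ j, Ms z j ∈ Cone t ∧ Ms z j ∈ B xs rs Ms) (h : Ev y (d (rs z) u)) :
    y ∈ B xs rs Ms := by
  intro S hS
  refine hS.2 z u y (hu S hS) hM (fun t => ?_) h
  obtain ⟨j, h1, h2⟩ := hd t
  exact ⟨j, h1, h2 S hS⟩

theorem B_inv {y : X} (hy : y ∈ B xs rs Ms) : (∃ z, Ev y (xs z)) ∨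
    (∃ z u, u ∈ B xs rs Ms ∧ (∀ n, Ms z n ≠ u) ∧
      (∀ t : List ℚ, ∃ j, Ms z j ∈ Cone t ∧ Ms z j ∈ B xs rs Ms) ∧ Ev y (d (rs z) u)) := by
  have := hy {y | y ∈ B xs rs Ms ∧ ((∃ z, Ev y (xs z)) ∨
    (∃ z u, u ∈ B xs rs Ms ∧ (∀ n, Ms z n ≠ u) ∧
      (∀ t : List ℚ, ∃ j, Ms z j ∈ Cone t ∧ Ms z j ∈ B xs rs Ms) ∧ Ev y (d (rs z) u)))} ?_
  · exact this.2
  · constructor
    · intro z y h
      exact ⟨B_base xs rs Ms z h, Or.inl ⟨z, h⟩⟩
    · intro z u y hu hM hd h
      have hd' : ∀ t : List ℚ, ∃ j, Ms z j ∈ Cone t ∧ Ms z j ∈ B xs rs Ms := fun t => by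
        obtain ⟨j, h1, h2⟩ := hd t
        exact ⟨j, h1, h2.1⟩
      exact ⟨B_step xs rs Ms z hu.1 hM hd' h, Or.inr ⟨z, u, hu.1, hM, hd', h⟩⟩

theorem B_ev {x y : X} (h : Ev x y) (hy : y ∈ B xs rs Ms) : x ∈ B xs rs Ms := by
  rcases B_inv xs rs Ms hy with ⟨z, hz⟩ | ⟨z, u, hu, hM, hd, hz⟩
  · exact B_base xs rs Ms z (h.trans hz)
  · exact B_step xs rs Ms z hu hM hd (h.trans hz)

/-- every element of `B` is a word applied to a base point -/
theorem B_reach {y : X} (hy : y ∈ B xs rs Ms) :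
    ∃ w l z, (∀ p ∈ w, ∃ z', p.2 = rs z') ∧ y = Ph w l (xs z) := by
  apply hy {y | ∃ w l z, (∀ p ∈ w, ∃ z', p.2 = rs z') ∧ y = Ph w l (xs z)}
  constructor
  · intro z y h
    obtain ⟨l, rfl⟩ := exists_mix_of_ev h
    exact ⟨[], l, z, by simp, rfl⟩
  · rintro z u y ⟨w, l, z', hw, rfl⟩ - - h
    obtain ⟨l', rfl⟩ := exists_mix_of_ev h
    refine ⟨(l', rs z) :: w, l, z', ?_, rfl⟩
    intro p hp
    rcases List.mem_cons.1 hp with rfl | hp
    · exact ⟨z, rfl⟩
    · exact hw p hp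

/-- inversion at coded points -/
theorem B_inv_d (hxs : ∀ z, xs z ∈ Xb) {r u y : X} (h : Ev y (d r u)) (hy : y ∈ B xs rs Ms) :
    ∃ z, r = rs z ∧ u ∈ B xs rs Ms ∧ (∀ n, Ms z n ≠ u) ∧
      (∀ t : List ℚ, ∃ j, Ms z j ∈ Cone t ∧ Ms z j ∈ B xs rs Ms) := by
  rcases B_inv xs rs Ms hy with ⟨z, hz⟩ | ⟨z, u', hu, hM, hd, hz⟩
  · exact absurd (hz.symm.trans h) (not_ev_d (hxs z) _ _)
  · obtain ⟨h1, h2⟩ := d_ev_inj (h.symm.trans hz)
    subst h2
    exact ⟨z, h1, hu, hM, hd⟩

/-- going down a word inside `B` to its last letter -/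
theorem B_inv_word (hxs : ∀ z, xs z ∈ Xb) (hrs : Function.Injective rs)
    {w : List (List ℚ × X)} (hw : w ≠ []) (l : List ℚ) :
    (∀ u, Ph w l u ∉ B xs rs Ms) ∨ ∃ z, ∀ u, Ph w l u ∈ B xs rs Ms →
      (∀ n, Ms z n ≠ mix l u) ∧
      (∀ t : List ℚ, ∃ j, Ms z j ∈ Cone t ∧ Ms z j ∈ B xs rs Ms) := by
  induction w with
  | nil => exact absurd rfl hw
  | cons p w ih =>
    by_cases hw' : w = []
    · subst hw'
      by_cases hp : ∃ z, p.2 = rs z
      · obtain ⟨z, hz⟩ := hp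
        right
        refine ⟨z, fun u hu => ?_⟩
        obtain ⟨z', h1, h2, h3, h4⟩ := B_inv_d xs rs Ms hxs (Ph_ev_cons p [] l u) hu
        have : z' = z := hrs (h1.symm.trans hz)
        subst this
        exact ⟨h3, h4⟩
      · left
        intro u hu
        obtain ⟨z', h1, -⟩ := B_inv_d xs rs Ms hxs (Ph_ev_cons p [] l u) hu
        exact hp ⟨z', h1⟩
    · rcases ih hw' with h | ⟨z, h⟩
      · left
        intro u hu
        obtain ⟨z', h1, h2, -⟩ := B_inv_d xs rs Ms hxs (Ph_ev_cons p w l u) hu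
        exact h u h2
      · right
        refine ⟨z, fun u hu => ?_⟩
        obtain ⟨z', h1, h2, -⟩ := B_inv_d xs rs Ms hxs (Ph_ev_cons p w l u) hu
        exact h u h2

end

/-! ### Codes of decreasing maps and the perfect set argument -/

/-- `y` is compatible with being the value at `x` of a decreasing map coded by `k` -/
def G (k : ℕ → X × X) (x y : X) : Prop :=
  ∀ n, (L (k n).1 x → L y (k n).2) ∧ (L x (k n).1 → L (k n).2 y)

/-- the first coordinates are dense -/
def Dn (k : ℕ → X × X) : Prop := ∀ t : List ℚ, ∃ n, (k n).1 ∈ Cone t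

theorem G_anti {k : ℕ → X × X} (hk : Dn k) {x x' y y' : X} (h : L x x') (h1 : G k x y)
    (h2 : G k x' y') : L y' y := by
  obtain ⟨t, ht⟩ := L_between h
  obtain ⟨n, hn⟩ := hk t
  obtain ⟨h3, h4⟩ := ht _ hn
  exact L_trans ((h2 n).1 h4) ((h1 n).2 h3)

theorem G_cont {k : ℕ → X × X} {x y : X} (h : G k x y) (hu : ∀ y', G k x y' → y' = y) (N : ℕ) :
    ∃ n, ∀ x' ∈ Cone (pre x n), ∀ y', G k x' y' → ∀ i < N, y' i = y i := by
  obtain ⟨la, -, hla⟩ := cone_below y N
  obtain ⟨lb, -, hlb⟩ := cone_above y N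
  obtain ⟨ha1, ha2⟩ := hla (mix la y) (mix_mem_cone _ _)
  obtain ⟨hb1, hb2⟩ := hlb (mix lb y) (mix_mem_cone _ _)
  have hna : ¬ G k x (mix la y) := fun hc => L_irrefl y (by have := hu _ hc; rw [this] at ha1; exact ha1)
  have hnb : ¬ G k x (mix lb y) := fun hc => L_irrefl y (by have := hu _ hc; rw [this] at hb1; exact hb1)
  have ea : ∃ n, L x (k n).1 ∧ ¬ L (k n).2 (mix la y) := by
    by_contra hcon
    push Not at hcon
    apply hna
    intro n
    exact ⟨fun hx => L_trans ha1 ((h n).1 hx), fun hx => hcon n hx⟩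
  have eb : ∃ n, L (k n).1 x ∧ ¬ L (mix lb y) (k n).2 := by
    by_contra hcon
    push Not at hcon
    apply hnb
    intro n
    exact ⟨fun hx => hcon n hx, fun hx => L_trans ((h n).2 hx) hb1⟩
  obtain ⟨n, hn1, hn2⟩ := ea
  obtain ⟨m, hm1, hm2⟩ := eb
  obtain ⟨p, hp⟩ := L_nbhd_left hn1
  obtain ⟨q, hq⟩ := L_nbhd_right hm1
  refine ⟨max p q, fun x' hx' y' hy' => ?_⟩
  rw [mem_cone_pre] at hx'
  have h1 : L x' (k n).1 := hp x' (fun i hi => hx' i (lt_of_lt_of_le hi (le_max_left _ _)))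
  have h2 : L (k m).1 x' := hq x' (fun i hi => hx' i (lt_of_lt_of_le hi (le_max_right _ _)))
  have h3 : L (k n).2 y' := (hy' n).2 h1
  have h4 : L y' (k m).2 := (hy' m).1 h2
  have h5 : L (mix la y) y' := by
    rcases L_tri (mix la y) (k n).2 with h | h | h
    · exact L_trans h h3
    · rw [h]; exact h3
    · exact absurd h hn2
  have h6 : L y' (mix lb y) := by
    rcases L_tri (mix lb y) (k m).2 with h | h | h
    · exact absurd h hm2
    · rw [h]; exact h4
    · exact L_trans h4 h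
  intro i hi
  have h7 := convex_pre (a := mix la y) (b := mix lb y) (y := y') (n := N)
    (fun i hi => by rw [ha2 i hi, hb2 i hi]) h5 h6 i hi
  rw [h7, ha2 i hi]

theorem forall2_le_mono {w w' : List (List ℚ × X)} {i i' : ℕ} (hi : i' ≤ i)
    (h : List.Forall₂ (fun a b : List ℚ × X => ∀ j ≤ i, a.2 j = b.2 j) w w') :
    List.Forall₂ (fun a b : List ℚ × X => ∀ j ≤ i', a.2 j = b.2 j) w w' :=
  h.imp (fun _ _ h j hj => h j (le_trans hj hi))

theorem eq_of_forall2 {w w' : List (List ℚ × X)} (hsh : w.map Prod.fst = w'.map Prod.fst)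
    (h : ∀ i, List.Forall₂ (fun a b : List ℚ × X => ∀ j ≤ i, a.2 j = b.2 j) w w') : w = w' := by
  induction w generalizing w' with
  | nil => cases w' with
    | nil => rfl
    | cons p w' => simp at hsh
  | cons p w ih => cases w' with
    | nil => simp at hsh
    | cons p' w' =>
      simp only [List.map_cons, List.cons.injEq] at hsh
      have h1 : ∀ i, p.2 i = p'.2 i := fun i => by
        have := h i
        rw [List.forall₂_cons] at this
        exact this.1 i le_rfl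
      have h2 : w = w' := ih hsh.2 (fun i => by
        have := h i
        rw [List.forall₂_cons] at this
        exact this.2)
      rw [h2, Prod.ext hsh.1 (funext h1)]

section perfect

variable (k : ℕ → X × X) (R U : Set X)

/-- no word of shape `s` with parameters in `R` describes the coded map at points of `U` on both
sides -/
def CF (s : List (List ℚ) × List ℚ) (J J' : List ℚ) : Prop :=
  ¬ ∃ w : List (List ℚ × X), w.map Prod.fst = s.1 ∧ (∀ p ∈ w, p.2 ∈ R) ∧
    (∃ x, x ∈ U ∧ x ∈ Cone J ∧ G k x (Ph w s.2 x)) ∧ (∃ x, x ∈ U ∧ x ∈ Cone J' ∧ G k x (Ph w s.2 x))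

theorem CF_mono {s : List (List ℚ) × List ℚ} {J J' J1 J1' : List ℚ} (h : CF k R U s J J')
    (hJ : J <+: J1) (hJ' : J' <+: J1') : CF k R U s J1 J1' := by
  rintro ⟨w, h1, h2, ⟨x, hx1, hx2, hx3⟩, ⟨x', hx1', hx2', hx3'⟩⟩
  exact h ⟨w, h1, h2, ⟨x, hx1, cone_anti hJ hx2, hx3⟩, ⟨x', hx1', cone_anti hJ' hx2', hx3'⟩⟩

variable (hU : ∀ x ∈ U, ∀ y y', G k x y → G k x y' → y' = y)
  (hND : ∀ (w : List (List ℚ × X)) (l : List ℚ), (∀ p ∈ w, p.2 ∈ R) → ∀ j : List ℚ,
    ∃ t, j <+: t ∧ ∀ x ∈ U, x ∈ Cone t → ¬ G k x (Ph w l x))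

include hU hND

theorem split1 (s : List (List ℚ) × List ℚ) (J J' : List ℚ) :
    ∃ J1 J1', J <+: J1 ∧ J' <+: J1' ∧ CF k R U s J1 J1' := by
  by_cases hA : ∃ w : List (List ℚ × X), w.map Prod.fst = s.1 ∧ (∀ p ∈ w, p.2 ∈ R) ∧
    (∃ x, x ∈ U ∧ x ∈ Cone J ∧ G k x (Ph w s.2 x))
  swap
  · refine ⟨J, J', List.prefix_rfl, List.prefix_rfl, ?_⟩
    rintro ⟨w, h1, h2, h3, -⟩
    exact hA ⟨w, h1, h2, h3⟩
  obtain ⟨w1, hw1, hR1, x1, hx1U, hx1J, hx1G⟩ := hA
  obtain ⟨J2, hJ2, hJ2'⟩ := hND w1 s.2 hR1 J'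
  by_cases hB : ∃ w : List (List ℚ × X), w.map Prod.fst = s.1 ∧ (∀ p ∈ w, p.2 ∈ R) ∧
    (∃ x, x ∈ U ∧ x ∈ Cone J2 ∧ G k x (Ph w s.2 x))
  swap
  · refine ⟨J, J2, List.prefix_rfl, hJ2, ?_⟩
    rintro ⟨w, h1, h2, -, h3⟩
    exact hB ⟨w, h1, h2, h3⟩
  obtain ⟨w2, hw2, hR2, x2, hx2U, hx2J, hx2G⟩ := hB
  have hne : w1 ≠ w2 := by
    rintro rfl
    exact hJ2' x2 hx2U hx2J hx2G
  have hex : ∃ i, ¬ List.Forall₂ (fun a b : List ℚ × X => ∀ j ≤ i, a.2 j = b.2 j) w1 w2 := by
    by_contra hcon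
    push Not at hcon
    exact hne (eq_of_forall2 (hw1.trans hw2.symm) hcon)
  obtain ⟨i0, hi0⟩ := hex
  obtain ⟨i1, hi1⟩ : ∃ i1, ∀ l ∈ s.1, l.length ≤ i1 := by
    refine ⟨(s.1.map List.length).sum, fun l hl => ?_⟩
    exact List.single_le_sum (by simp) _ (List.mem_map_of_mem hl)
  set i := max i0 i1 with hi
  have hi2 : ¬ List.Forall₂ (fun a b : List ℚ × X => ∀ j ≤ i, a.2 j = b.2 j) w1 w2 :=
    fun h => hi0 (forall2_le_mono (le_max_left _ _) h)
  obtain ⟨n1, hn1⟩ := G_cont hx1G (fun y' hy' => hU x1 hx1U _ _ hx1G hy') (i + 1)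
  obtain ⟨n2, hn2⟩ := G_cont hx2G (fun y' hy' => hU x2 hx2U _ _ hx2G hy') (i + 1)
  refine ⟨pre x1 (max n1 J.length), pre x2 (max n2 J2.length),
    prefix_pre_of_mem hx1J (le_max_right _ _),
    hJ2.trans (prefix_pre_of_mem hx2J (le_max_right _ _)), ?_⟩
  rintro ⟨w, hw, hR, ⟨x, hxU, hxJ, hxG⟩, ⟨x', hxU', hxJ', hxG'⟩⟩
  have hlen : ∀ p ∈ w, p.1.length ≤ i := fun p hp => by
    have : p.1 ∈ s.1 := by rw [← hw]; exact List.mem_map_of_mem hp
    exact le_trans (hi1 _ this) (le_max_right _ _)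
  have e1 : Ph w s.2 x i = Ph w1 s.2 x1 i := by
    refine hn1 x ?_ _ hxG i (by omega)
    exact cone_anti (prefix_pre_of_mem (mem_cone_self x1 n1) (by simp)) hxJ
  have e2 : Ph w s.2 x' i = Ph w2 s.2 x2 i := by
    refine hn2 x' ?_ _ hxG' i (by omega)
    exact cone_anti (prefix_pre_of_mem (mem_cone_self x2 n2) (by simp)) hxJ'
  have f1 := Ph_decode (hw.trans hw1.symm) hlen e1
  have f2 := Ph_decode (hw.trans hw2.symm) hlen e2
  apply hi2
  clear hw1 hw2 hR1 hR2 hx1G hx2G hne hi0 hi2 hn1 hn2 hxG hxG' hlen e1 e2 hJ2' hw hR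
  induction f1 generalizing w2 with
  | nil => cases f2; exact List.Forall₂.nil
  | cons h _ ih =>
    cases f2 with
    | cons h' h'' => exact List.Forall₂.cons (fun j hj => (h j hj).symm.trans (h' j hj)) (ih _ h'')

theorem splitN (N : ℕ) (J J' : List ℚ) :
    ∃ J1 J1', J <+: J1 ∧ J' <+: J1' ∧
      ∀ s : List (List ℚ) × List ℚ, Encodable.encode s < N → CF k R U s J1 J1' := by
  induction N with
  | zero => exact ⟨J, J', List.prefix_rfl, List.prefix_rfl, fun s hs => absurd hs (by omega)⟩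
  | succ N ih =>
    obtain ⟨J1, J1', h1, h2, h3⟩ := ih
    by_cases hs : ∃ s : List (List ℚ) × List ℚ, Encodable.encode s = N
    · obtain ⟨s, hs⟩ := hs
      obtain ⟨J2, J2', h4, h5, h6⟩ := split1 k R U hU hND s J1 J1'
      refine ⟨J2, J2', h1.trans h4, h2.trans h5, fun s' hs' => ?_⟩
      rcases Nat.lt_succ_iff_lt_or_eq.1 hs' with h7 | h7
      · exact CF_mono k R U (h3 s' h7) h4 h5
      · have : s' = s := Encodable.encode_injective (h7.trans hs.symm)
        rw [this]; exact h6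
    · refine ⟨J1, J1', h1, h2, fun s' hs' => ?_⟩
      rcases Nat.lt_succ_iff_lt_or_eq.1 hs' with h7 | h7
      · exact h3 s' h7
      · exact absurd ⟨s', h7⟩ hs

theorem stepEx (N : ℕ) (l : List ℚ) : ∃ q : List ℚ × List ℚ, (l ++ [-1]) ++ [0] <+: q.1 ∧
    (l ++ [-1]) ++ [1] <+: q.2 ∧
      ∀ s : List (List ℚ) × List ℚ, Encodable.encode s < N → CF k R U s q.1 q.2 := by
  obtain ⟨a, b, h1, h2, h3⟩ := splitN k R U hU hND N ((l ++ [-1]) ++ [0]) ((l ++ [-1]) ++ [1])
  exact ⟨(a, b), h1, h2, h3⟩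

omit hU hND

/-- a tree of cones driven by a step function -/
def T (st : ℕ → List ℚ → List ℚ × List ℚ) (z : ℕ → Bool) : ℕ → List ℚ
  | 0 => []
  | n + 1 => if z n then (st n (T st z n)).2 else (st n (T st z n)).1

theorem T_congr (st : ℕ → List ℚ → List ℚ × List ℚ) {z z' : ℕ → Bool} {n : ℕ}
    (h : ∀ i < n, z i = z' i) : T st z n = T st z' n := by
  induction n with
  | zero => rfl
  | succ n ih =>
    simp only [T]
    rw [ih (fun i hi => h i (by omega)), h n (by omega)]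

section tree
variable (st : ℕ → List ℚ → List ℚ × List ℚ)
  (h0 : ∀ n l, (l ++ [-1]) ++ [0] <+: (st n l).1) (h1 : ∀ n l, (l ++ [-1]) ++ [1] <+: (st n l).2)
include h0 h1

theorem T_step (z : ℕ → Bool) (n : ℕ) : T st z n ++ [-1] <+: T st z (n + 1) := by
  simp only [T]
  split
  · exact (List.prefix_append _ _).trans (h1 n _)
  · exact (List.prefix_append _ _).trans (h0 n _)

theorem T_mono (z : ℕ → Bool) {m n : ℕ} (h : m ≤ n) : T st z m <+: T st z n := by
  induction n, h using Nat.le_induction with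
  | base => exact List.prefix_rfl
  | succ n _ ih => exact ih.trans ((List.prefix_append _ _).trans (T_step st h0 h1 z n))

theorem T_len (z : ℕ → Bool) (n : ℕ) : n ≤ (T st z n).length := by
  induction n with
  | zero => omega
  | succ n ih =>
    have := (T_step st h0 h1 z n).length_le
    simp at this
    omega

omit h0 h1 in
/-- the branch point -/
def pt (z : ℕ → Bool) : X := fun i => (T st z (i + 1)).getD i 0

omit h0 h1 in
theorem getD_prefix {l m : List ℚ} (h : l <+: m) {i : ℕ} (hi : i < l.length) :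
    m.getD i 0 = l.getD i 0 := by
  obtain ⟨t, rfl⟩ := h
  simp [List.getD_eq_getElem?_getD, List.getElem?_append_left hi]

theorem pt_mem (z : ℕ → Bool) (n : ℕ) : pt st z ∈ Cone (T st z n) := by
  intro i hi
  unfold pt
  rcases le_total n (i + 1) with h | h
  · exact getD_prefix (T_mono st h0 h1 z h) hi
  · have := T_len st h0 h1 z (i + 1)
    exact (getD_prefix (T_mono st h0 h1 z h) (by omega)).symm

theorem pt_Xb (z : ℕ → Bool) : pt st z ∈ Xb := by
  intro n
  refine ⟨(T st z n).length, T_len st h0 h1 z n, ?_⟩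
  have h2 := cone_anti (T_step st h0 h1 z n) (pt_mem st h0 h1 z (n + 1))
  rw [h2 (T st z n).length (by simp)]
  simp [List.getD_eq_getElem?_getD]

/-- two different branches split somewhere -/
theorem pt_split {z z' : ℕ → Bool} (h : z ≠ z') : ∃ n, (∀ i < n, z i = z' i) ∧
    ((pt st z ∈ Cone (st n (T st z n)).1 ∧ pt st z' ∈ Cone (st n (T st z n)).2) ∨
     (pt st z' ∈ Cone (st n (T st z n)).1 ∧ pt st z ∈ Cone (st n (T st z n)).2)) := by
  have hex : ∃ n, z n ≠ z' n := by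
    by_contra hcon
    push Not at hcon
    exact h (funext hcon)
  classical
  refine ⟨Nat.find hex, fun i hi => ?_, ?_⟩
  · have := Nat.find_min hex hi
    simpa using this
  · have h2 : z (Nat.find hex) ≠ z' (Nat.find hex) := Nat.find_spec hex
    set n := Nat.find hex with hn
    have h3 : ∀ i < n, z i = z' i := fun i hi => by
      have := Nat.find_min hex hi
      simpa using this
    have h4 := T_congr st h3
    have h5 := pt_mem st h0 h1 z (n + 1)
    have h6 := pt_mem st h0 h1 z' (n + 1)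
    simp only [T] at h5 h6
    rw [← h4] at h6
    cases hz : z n <;> cases hz' : z' n <;> simp [hz, hz'] at h2 h5 h6
    · exact Or.inl ⟨h5, h6⟩
    · exact Or.inr ⟨h6, h5⟩

theorem pt_inj : Function.Injective (pt st) := by
  intro z z' h
  by_contra hne
  obtain ⟨n, -, h2⟩ := pt_split st h0 h1 hne
  have key : ∀ x : X, x ∈ Cone (st n (T st z n)).1 → x ∈ Cone (st n (T st z n)).2 → False := by
    intro x hx hx'
    have e1 := cone_anti (h0 n (T st z n)) hx
    have e2 := cone_anti (h1 n (T st z n)) hx'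
    have e3 := e1 ((T st z n).length + 1) (by simp)
    have e4 := e2 ((T st z n).length + 1) (by simp)
    rw [e3] at e4
    simp [List.getD_eq_getElem?_getD] at e4
  rcases h2 with ⟨h3, h4⟩ | ⟨h3, h4⟩
  · rw [← h] at h4; exact key _ h3 h4
  · rw [← h] at h3; exact key _ h3 h4

end tree

open Cardinal in
/-- The perfect set argument. -/
theorem perfect_arg (hU : ∀ x ∈ U, ∀ y y', G k x y → G k x y' → y' = y)
    (hR : #R < 𝔠) (hS : #(Xb \ U : Set X) < 𝔠)
    (hcov : ∀ x ∈ U, ∃ (w : List (List ℚ × X)) (l : List ℚ), (∀ p ∈ w, p.2 ∈ R) ∧ G k x (Ph w l x)) :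
    ∃ (w : List (List ℚ × X)) (l : List ℚ), (∀ p ∈ w, p.2 ∈ R) ∧ ∃ j : List ℚ,
      ∀ t, j <+: t → ∃ x ∈ Cone t, G k x (Ph w l x) := by
  classical
  by_contra hcon
  push Not at hcon
  have hND : ∀ (w : List (List ℚ × X)) (l : List ℚ), (∀ p ∈ w, p.2 ∈ R) → ∀ j : List ℚ,
      ∃ t, j <+: t ∧ ∀ x ∈ U, x ∈ Cone t → ¬ G k x (Ph w l x) := by
    intro w l hw j
    obtain ⟨t, h1, h2⟩ := hcon w l hw j
    exact ⟨t, h1, fun x _ hx => h2 x hx⟩
  choose st h0 h1 hCF using stepEx k R U hU hND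
  -- the map from good branches
  have hc : ∀ z : {z : ℕ → Bool // pt st z ∈ U}, ∃ q : List (List ℚ × R) × List ℚ,
      G k (pt st z.1) (Ph (q.1.map (fun p => (p.1, (p.2 : X)))) q.2 (pt st z.1)) := by
    rintro ⟨z, hz⟩
    obtain ⟨w, l, hw, hG⟩ := hcov _ hz
    refine ⟨(w.attach.map (fun p => (p.1.1, ⟨p.1.2, hw p.1 p.2⟩)), l), ?_⟩
    have e : List.map (fun p : List ℚ × R => (p.1, (p.2 : X)))
        (w.attach.map (fun p => (p.1.1, (⟨p.1.2, hw p.1 p.2⟩ : R)))) = w := by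
      rw [List.map_map]
      exact List.attach_map_subtype_val w
    show G k (pt st z) (Ph (List.map (fun p : List ℚ × R => (p.1, (p.2 : X)))
        (w.attach.map (fun p => (p.1.1, (⟨p.1.2, hw p.1 p.2⟩ : R))))) l (pt st z))
    rw [e]
    exact hG
  choose q hq using hc
  let sh : List (List ℚ × R) × List ℚ → List (List ℚ) × List ℚ := fun q =>
    (q.1.map Prod.fst, q.2)
  let F : {z : ℕ → Bool // pt st z ∈ U} → (List (List ℚ × R) × List ℚ) × List Bool := fun z =>
    (q z, (List.range (Encodable.encode (sh (q z)) + 1)).map z.1)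
  have hF : Function.Injective F := by
    rintro ⟨z, hz⟩ ⟨z', hz'⟩ hzz
    simp only [F, Prod.mk.injEq] at hzz
    obtain ⟨e1, e2⟩ := hzz
    rw [← e1, List.map_inj_left] at e2
    by_contra hne
    have hne' : z ≠ z' := fun h => hne (Subtype.ext h)
    obtain ⟨n, hn1, hn2⟩ := pt_split st h0 h1 hne'
    have hnlt : Encodable.encode (sh (q ⟨z, hz⟩)) < n := by
      by_contra hlt
      -- z and z' agree at n
      have hag : z n = z' n := e2 n (by simp; omega)
      have hall : ∀ i < n + 1, z i = z' i := fun i hi => by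
        rcases Nat.lt_succ_iff_lt_or_eq.1 hi with h | h
        · exact hn1 i h
        · rw [h]; exact hag
      have hT := T_congr st hall
      have a1 := pt_mem st h0 h1 z (n + 1)
      have a2 := pt_mem st h0 h1 z' (n + 1)
      rw [← hT] at a2
      have key : ∀ x : X, x ∈ Cone (st n (T st z n)).1 → x ∈ Cone (st n (T st z n)).2 → False := by
        intro x hx hx'
        have e1 := cone_anti (h0 n (T st z n)) hx
        have e2 := cone_anti (h1 n (T st z n)) hx'
        have e3 := e1 ((T st z n).length + 1) (by simp)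
        have e4 := e2 ((T st z n).length + 1) (by simp)
        rw [e3] at e4
        simp [List.getD_eq_getElem?_getD] at e4
      simp only [T] at a1 a2
      cases hz : z n <;> simp [hz] at a1 a2
      · rcases hn2 with ⟨h3, h4⟩ | ⟨h3, h4⟩
        · exact key _ a2 h4
        · exact key _ a1 h4
      · rcases hn2 with ⟨h3, h4⟩ | ⟨h3, h4⟩
        · exact key _ h3 a1
        · exact key _ h3 a2
    have hcf := hCF n (T st z n) (sh (q ⟨z, hz⟩)) hnlt
    apply hcf
    have g1 := hq ⟨z, hz⟩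
    have g2 := hq ⟨z', hz'⟩
    rw [← e1] at g2
    have hmem : ∀ p ∈ ((q ⟨z, hz⟩).1.map (fun p => (p.1, (p.2 : X)))), p.2 ∈ R := by
      intro p hp
      simp only [List.mem_map] at hp
      obtain ⟨a, -, rfl⟩ := hp
      exact a.2.2
    rcases hn2 with ⟨h3, h4⟩ | ⟨h3, h4⟩
    · exact ⟨_, by simp [sh, List.map_map, Function.comp_def], hmem, ⟨_, hz, h3, g1⟩, ⟨_, hz', h4, g2⟩⟩
    · exact ⟨_, by simp [sh, List.map_map, Function.comp_def], hmem, ⟨_, hz', h3, g2⟩, ⟨_, hz, h4, g1⟩⟩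
  have c1 : #{z : ℕ → Bool // pt st z ∈ U} < 𝔠 := by
    refine lt_of_le_of_lt (mk_le_of_injective hF) ?_
    have hb : #(List ℚ × R) < 𝔠 := by
      rw [mk_prod]
      simp only [lift_id]
      exact mul_lt_of_lt aleph0_le_continuum
        (lt_of_le_of_lt (mk_le_aleph0 (α := List ℚ)) aleph0_lt_continuum) hR
    have hb2 : #(List (List ℚ × R)) < 𝔠 :=
      lt_of_le_of_lt (mk_list_le_max _) (max_lt aleph0_lt_continuum hb)
    rw [mk_prod, mk_prod]
    simp only [lift_id]
    refine mul_lt_of_lt aleph0_le_continuum (mul_lt_of_lt aleph0_le_continuum hb2 ?_) ?_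
    · exact lt_of_le_of_lt (mk_le_aleph0 (α := List ℚ)) aleph0_lt_continuum
    · exact lt_of_le_of_lt (mk_le_aleph0 (α := List Bool)) aleph0_lt_continuum
  have c2 : #{z : ℕ → Bool // ¬ pt st z ∈ U} < 𝔠 := by
    refine lt_of_le_of_lt ?_ hS
    refine mk_le_of_injective (f := fun z => ⟨pt st z.1, pt_Xb st h0 h1 z.1, z.2⟩) ?_
    intro z z' h
    exact Subtype.ext (pt_inj st h0 h1 (congrArg Subtype.val h))
  have c3 : #(ℕ → Bool) = 𝔠 := by simp
  have c4 : #(ℕ → Bool) = #{z : ℕ → Bool // pt st z ∈ U} + #{z : ℕ → Bool // ¬ pt st z ∈ U} :=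
    (mk_sum_compl {z : ℕ → Bool | pt st z ∈ U}).symm
  rw [c3] at c4
  exact absurd c4 (ne_of_gt (add_lt_of_lt aleph0_le_continuum c1 c2))

end perfect

/-! ### One step of the diagonalisation -/

section step
open Cardinal

theorem mk_X : #X = 𝔠 := by
  rw [mk_arrow]
  simp

theorem mk_Xb : #Xb = 𝔠 := by
  apply le_antisymm
  · exact (mk_set_le Xb).trans mk_X.le
  · rw [← mk_X]
    refine mk_le_of_injective (f := fun z : X =>
      (⟨fun i => if i % 2 = 0 then -1 else z (i / 2), ?_⟩ : Xb)) ?_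
    · intro n
      exact ⟨2 * n, by omega, by simp⟩
    · intro z z' h
      have h1 := congrArg Subtype.val h
      funext i
      have h2 := congrFun h1 (2 * i + 1)
      have e1 : (2 * i + 1) % 2 = 1 := by omega
      have e2 : (2 * i + 1) / 2 = i := by omega
      simpa [e1, e2] using h2

/-- the points that are base points of words giving elements of `YS` -/
def BadX (YS : Set X) : Set X := {x | x ∈ Xb ∧ ∃ y ∈ YS, ∃ w l, Ph w l x = y}

theorem mk_small_prod {α β : Type} (f : α × β → X) (hα : #α < 𝔠) (hβ : #β < 𝔠)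
    {S : Set X} (hS : S ⊆ Set.range f) : #S < 𝔠 := by
  refine lt_of_le_of_lt (mk_le_mk_of_subset hS) (lt_of_le_of_lt mk_range_le ?_)
  rw [mk_prod]
  simp only [lift_id]
  exact mul_lt_of_lt aleph0_le_continuum hα hβ

theorem mk_BadX {YS : Set X} (hYS : #YS < 𝔠) : #(BadX YS) < 𝔠 := by
  classical
  have hx0 : ∃ x0 : X → X, ∀ y, (∃ x ∈ Xb, ∃ w l, Ph w l x = y) →
      (x0 y ∈ Xb ∧ ∃ w l, Ph w l (x0 y) = y) := by
    have : ∀ y : X, ∃ x0 : X, (∃ x ∈ Xb, ∃ w l, Ph w l x = y) →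
      (x0 ∈ Xb ∧ ∃ w l, Ph w l x0 = y) := by
      intro y
      by_cases h : ∃ x ∈ Xb, ∃ w l, Ph w l x = y
      · obtain ⟨x, hx, h⟩ := h
        exact ⟨x, fun _ => ⟨hx, h⟩⟩
      · exact ⟨0, fun h' => absurd h' h⟩
    choose x0 hx0 using this
    exact ⟨x0, hx0⟩
  obtain ⟨x0, hx0⟩ := hx0
  refine mk_small_prod (α := YS) (β := List ℚ) (fun p => mix p.2 (x0 p.1.1)) hYS
    (lt_of_le_of_lt (mk_le_aleph0 (α := List ℚ)) aleph0_lt_continuum) ?_
  rintro x ⟨hx, y, hy, w, l, h⟩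
  obtain ⟨h1, w', l', h2⟩ := hx0 y ⟨x, hx, w, l, h⟩
  have h3 := Ph_unique (w := w) (w' := w') (l := l) (l' := l') hx h1 (by rw [h, h2]; exact Ev.refl _)
  obtain ⟨l'', h4⟩ := exists_mix_of_ev h3.2
  exact ⟨(⟨y, hy⟩, l''), h4.symm⟩

/-- parameters of words giving elements of `YS` -/
def BadR (YS : Set X) : Set X := {r | ∃ y ∈ YS, ∃ w l, ∃ x ∈ Xb, Ph w l x = y ∧ ∃ p ∈ w, r = p.2}

theorem mk_BadR {YS : Set X} (hYS : #YS < 𝔠) : #(BadR YS) < 𝔠 := by
  classical
  have hw0 : ∃ w0 : X → List X, ∀ y, ∀ w l x, x ∈ Xb → Ph w l x = y → w0 y = w.map Prod.snd := by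
    have : ∀ y : X, ∃ w0 : List X, ∀ w l x, x ∈ Xb → Ph w l x = y → w0 = w.map Prod.snd := by
      intro y
      by_cases h : ∃ w l x, x ∈ Xb ∧ Ph w l x = y
      · obtain ⟨w, l, x, hx, h⟩ := h
        refine ⟨w.map Prod.snd, fun w' l' x' hx' h' => ?_⟩
        exact (Ph_unique (w := w) (w' := w') (l := l) (l' := l') hx hx'
          (by rw [h, h']; exact Ev.refl _)).1
      · exact ⟨[], fun w l x hx h' => absurd ⟨w, l, x, hx, h'⟩ h⟩
    choose w0 hw0 using this
    exact ⟨w0, hw0⟩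
  obtain ⟨w0, hw0⟩ := hw0
  refine mk_small_prod (α := YS) (β := ℕ) (fun p => (w0 p.1.1).getD p.2 0) hYS
    (by simpa using aleph0_lt_continuum) ?_
  rintro r ⟨y, hy, w, l, x, hx, h, p, hp, rfl⟩
  have h1 := hw0 y w l x hx h
  have h2 : p.2 ∈ w0 y := by rw [h1]; exact List.mem_map_of_mem hp
  obtain ⟨n, hn, h3⟩ := List.mem_iff_getElem.1 h2
  exact ⟨(⟨y, hy⟩, n), by simp [List.getD_eq_getElem?_getD, hn, h3]⟩

/-- goodness of a pair `(x,y)` for the code `k` -/
def Good (k : ℕ → X × X) (RS XS YS : Set X) (x y : X) : Prop :=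
  x ∈ Xb ∧ x ∉ BadX YS ∧ ∀ y', G k x y' → (y' = y ∧ ∀ (w : List (List ℚ × X)) (l : List ℚ),
    (∀ p ∈ w, p.2 ∈ RS) → Ph w l x ≠ y' ∧ ∀ x' ∈ XS, Ph w l x' ≠ y')

/-- the requirement on the triple chosen at one stage -/
def PP (k : ℕ → X × X) (RS XS YS : Set X) (v : X × X × X) : Prop :=
  v.1 ∈ Xb ∧ v.1 ∉ BadX YS ∧ v.2.2 ∉ RS ∧ v.2.2 ∉ BadR (insert v.2.1 YS) ∧
    ((∃ x y, Good k RS XS YS x y) → Good k RS XS YS v.1 v.2.1)

theorem PP_exists (k : ℕ → X × X) {RS XS YS : Set X} (hRS : #RS < 𝔠) (hYS : #YS < 𝔠) :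
    ∃ v, PP k RS XS YS v := by
  classical
  have h1 : ∃ x y, x ∈ Xb ∧ x ∉ BadX YS ∧
      ((∃ x y, Good k RS XS YS x y) → Good k RS XS YS x y) := by
    by_cases h : ∃ x y, Good k RS XS YS x y
    · obtain ⟨x, y, h⟩ := h
      exact ⟨x, y, h.1, h.2.1, fun _ => h⟩
    · have : ∃ x ∈ Xb, x ∉ BadX YS := by
        by_contra hcon
        push Not at hcon
        have := lt_of_le_of_lt (mk_le_mk_of_subset (show Xb ⊆ BadX YS from hcon)) (mk_BadX hYS)
        rw [mk_Xb] at this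
        exact lt_irrefl _ this
      obtain ⟨x, hx, hx'⟩ := this
      exact ⟨x, 0, hx, hx', fun h' => absurd h' h⟩
  obtain ⟨x, y, hx, hx', hg⟩ := h1
  have hYS' : #(insert y YS : Set X) < 𝔠 :=
    lt_of_le_of_lt mk_insert_le (add_lt_of_lt aleph0_le_continuum hYS
      (lt_of_lt_of_le one_lt_aleph0 aleph0_le_continuum))
  have h2 : ∃ r, r ∉ RS ∪ BadR (insert y YS) := by
    by_contra hcon
    push Not at hcon
    have h3 : #(RS ∪ BadR (insert y YS) : Set X) < 𝔠 :=
      lt_of_le_of_lt (mk_union_le _ _) (add_lt_of_lt aleph0_le_continuum hRS (mk_BadR hYS'))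
    rw [Set.eq_univ_of_forall hcon, mk_univ, mk_X] at h3
    exact lt_irrefl _ h3
  obtain ⟨r, hr⟩ := h2
  rw [Set.mem_union, not_or] at hr
  exact ⟨(x, y, r), hx, hx', hr.1, hr.2, hg⟩

/-- points where the coded map is not uniquely determined form a countable set -/
theorem mk_N {k : ℕ → X × X} (hk : Dn k) :
    #({x | ∃ y y', G k x y ∧ G k x y' ∧ y ≠ y'} : Set X) < 𝔠 := by
  classical
  have hc : ∀ x : ({x | ∃ y y', G k x y ∧ G k x y' ∧ y ≠ y'} : Set X),
      ∃ t : List ℚ, ∃ a b, G k x.1 a ∧ G k x.1 b ∧ L a (mix t 0) ∧ L (mix t 0) b := by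
    rintro ⟨x, y, y', h1, h2, h3⟩
    rcases L_tri y y' with h | h | h
    · obtain ⟨t, ht⟩ := L_between h
      obtain ⟨h4, h5⟩ := ht _ (mix_mem_cone t 0)
      exact ⟨t, y, y', h1, h2, h4, h5⟩
    · exact absurd h h3
    · obtain ⟨t, ht⟩ := L_between h
      obtain ⟨h4, h5⟩ := ht _ (mix_mem_cone t 0)
      exact ⟨t, y', y, h2, h1, h4, h5⟩
  choose f a b hf using hc
  refine lt_of_le_of_lt (mk_le_of_injective (f := f) ?_)
    (lt_of_le_of_lt (mk_le_aleph0 (α := List ℚ)) aleph0_lt_continuum)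
  intro x x' h
  obtain ⟨h1, h2, h3, h4⟩ := hf x
  obtain ⟨h1', h2', h3', h4'⟩ := hf x'
  rw [← h] at h3' h4'
  rcases L_tri x.1 x'.1 with h5 | h5 | h5
  · -- values at x' are below values at x
    have h6 := G_anti hk h5 h1 h2'
    exact absurd (L_trans h4' (L_trans h6 h3)) (L_irrefl _)
  · exact Subtype.ext h5
  · have h6 := G_anti hk h5 h1' h2
    exact absurd (L_trans h4 (L_trans h6 h3')) (L_irrefl _)

theorem mk_words {RS : Set X} (hRS : #RS < 𝔠) : #(List (List ℚ × RS) × List ℚ) < 𝔠 := by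
  have hb : #(List ℚ × RS) < 𝔠 := by
    rw [mk_prod]
    simp only [lift_id]
    exact mul_lt_of_lt aleph0_le_continuum
      (lt_of_le_of_lt (mk_le_aleph0 (α := List ℚ)) aleph0_lt_continuum) hRS
  have hb2 : #(List (List ℚ × RS)) < 𝔠 :=
    lt_of_le_of_lt (mk_list_le_max _) (max_lt aleph0_lt_continuum hb)
  rw [mk_prod]
  simp only [lift_id]
  exact mul_lt_of_lt aleph0_le_continuum hb2
    (lt_of_le_of_lt (mk_le_aleph0 (α := List ℚ)) aleph0_lt_continuum)

/-- points whose value is an old point -/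
theorem mk_T {k : ℕ → X × X} (hk : Dn k) {RS XS : Set X} (hRS : #RS < 𝔠) (hXS : #XS < 𝔠) :
    #({x | ∃ (w : List (List ℚ × X)) (l : List ℚ), (∀ p ∈ w, p.2 ∈ RS) ∧
      ∃ x' ∈ XS, G k x (Ph w l x')} : Set X) < 𝔠 := by
  classical
  have hc : ∀ x : ({x | ∃ (w : List (List ℚ × X)) (l : List ℚ), (∀ p ∈ w, p.2 ∈ RS) ∧
      ∃ x' ∈ XS, G k x (Ph w l x')} : Set X), ∃ q : (List (List ℚ × RS) × List ℚ) × XS,
      G k x.1 (Ph (q.1.1.map (fun p => (p.1, (p.2 : X)))) q.1.2 q.2.1) := by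
    rintro ⟨x, w, l, hw, x', hx', hG⟩
    refine ⟨((w.attach.map (fun p => (p.1.1, ⟨p.1.2, hw p.1 p.2⟩)), l), ⟨x', hx'⟩), ?_⟩
    have e : List.map (fun p : List ℚ × RS => (p.1, (p.2 : X)))
        (w.attach.map (fun p => (p.1.1, (⟨p.1.2, hw p.1 p.2⟩ : RS)))) = w := by
      rw [List.map_map]
      exact List.attach_map_subtype_val w
    show G k x (Ph (List.map (fun p : List ℚ × RS => (p.1, (p.2 : X)))
        (w.attach.map (fun p => (p.1.1, (⟨p.1.2, hw p.1 p.2⟩ : RS))))) l x')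
    rw [e]
    exact hG
  choose f hf using hc
  refine lt_of_le_of_lt (mk_le_of_injective (f := f) ?_) ?_
  · intro x x' h
    have h1 := hf x
    have h2 := hf x'
    rw [← h] at h2
    rcases L_tri x.1 x'.1 with h5 | h5 | h5
    · exact absurd (G_anti hk h5 h1 h2) (L_irrefl _)
    · exact Subtype.ext h5
    · exact absurd (G_anti hk h5 h2 h1) (L_irrefl _)
  · rw [mk_prod]
    simp only [lift_id]
    exact mul_lt_of_lt aleph0_le_continuum (mk_words hRS) hXS

/-- if no good pair exists then the coded map is a word on a dense subset of some cone -/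
theorem not_good {k : ℕ → X × X} (hk : Dn k) {RS XS YS : Set X} (hRS : #RS < 𝔠) (hXS : #XS < 𝔠)
    (hYS : #YS < 𝔠) (hng : ¬ ∃ x y, Good k RS XS YS x y) :
    ∃ (w : List (List ℚ × X)) (l : List ℚ), (∀ p ∈ w, p.2 ∈ RS) ∧ ∃ j : List ℚ,
      ∀ t, j <+: t → ∃ x ∈ Cone t, G k x (Ph w l x) := by
  classical
  refine perfect_arg k RS {x | x ∈ Xb ∧ (∀ y y', G k x y → G k x y' → y' = y) ∧
    ∃ (w : List (List ℚ × X)) (l : List ℚ), (∀ p ∈ w, p.2 ∈ RS) ∧ G k x (Ph w l x)}
    (fun x hx => hx.2.1) hRS ?_ (fun x hx => hx.2.2)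
  have hsub : (Xb \ {x | x ∈ Xb ∧ (∀ y y', G k x y → G k x y' → y' = y) ∧
    ∃ (w : List (List ℚ × X)) (l : List ℚ), (∀ p ∈ w, p.2 ∈ RS) ∧ G k x (Ph w l x)} : Set X) ⊆
    BadX YS ∪ ({x | ∃ y y', G k x y ∧ G k x y' ∧ y ≠ y'} ∪
      {x | ∃ (w : List (List ℚ × X)) (l : List ℚ), (∀ p ∈ w, p.2 ∈ RS) ∧
      ∃ x' ∈ XS, G k x (Ph w l x')}) := by
    rintro x ⟨hx, hnx⟩
    by_contra hcon
    simp only [Set.mem_union, not_or] at hcon
    obtain ⟨hb, hN, hT⟩ := hcon
    have huniq : ∀ y y', G k x y → G k x y' → y' = y := by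
      intro y y' h1 h2
      by_contra hne
      exact hN ⟨y', y, h2, h1, hne⟩
    have hex : ∃ y0, G k x y0 := by
      by_contra hcon
      push Not at hcon
      exact hng ⟨x, 0, hx, hb, fun y' hy' => absurd hy' (hcon y')⟩
    obtain ⟨y0, hy0⟩ := hex
    apply hnx
    refine ⟨hx, huniq, ?_⟩
    by_contra hno
    apply hng
    refine ⟨x, y0, hx, hb, fun y' hy' => ⟨huniq _ _ hy0 hy', fun w l hw => ⟨?_, ?_⟩⟩⟩
    · intro h
      exact hno ⟨w, l, hw, h ▸ hy'⟩
    · intro x' hx' h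
      exact hT ⟨w, l, hw, x', hx', h ▸ hy'⟩
  refine lt_of_le_of_lt (mk_le_mk_of_subset hsub) ?_
  refine lt_of_le_of_lt (mk_union_le _ _) (add_lt_of_lt aleph0_le_continuum (mk_BadX hYS) ?_)
  exact lt_of_le_of_lt (mk_union_le _ _)
    (add_lt_of_lt aleph0_le_continuum (mk_N hk) (mk_T hk hRS hXS))

end step

/-! ### The main lemma -/

section main
open Cardinal

variable {I : Type} [LinearOrder I] (hI : ∀ i : I, #(Set.Iio i) < 𝔠) [Nonempty I]
  (ks : I → ℕ → X × X) (hks : Function.Surjective ks) (F : I → X × X × X) (Ms : I → ℕ → X)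
  (hF : ∀ i, PP (ks i) ((fun j => (F j).2.2) '' Set.Iio i) ((fun j => (F j).1) '' Set.Iio i)
    ((fun j => (F j).2.1) '' Set.Iio i) (F i))

omit [Nonempty I] in
include hF in
theorem rs_inj : Function.Injective (fun j => (F j).2.2) := by
  intro i j h
  rcases lt_trichotomy i j with h1 | h1 | h1
  · exact absurd ⟨i, h1, h⟩ (hF j).2.2.1
  · exact h1
  · exact absurd ⟨j, h1, h.symm⟩ (hF i).2.2.1

include hI hks hF in
/-- no decreasing map of `B` into itself -/
theorem no_anti (kk : X → X)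
    (h1 : ∀ u ∈ B (fun j => (F j).1) (fun j => (F j).2.2) Ms,
      kk u ∈ B (fun j => (F j).1) (fun j => (F j).2.2) Ms)
    (h2 : ∀ u ∈ B (fun j => (F j).1) (fun j => (F j).2.2) Ms,
      ∀ v ∈ B (fun j => (F j).1) (fun j => (F j).2.2) Ms, L u v → L (kk v) (kk u)) : False := by
  classical
  set xs : I → X := fun j => (F j).1 with hxsdef
  set ys : I → X := fun j => (F j).2.1 with hysdef
  set rs : I → X := fun j => (F j).2.2 with hrsdef
  have hxs : ∀ z, xs z ∈ Xb := fun z => (hF z).1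
  have hrs : Function.Injective rs := rs_inj ks F hF
  obtain ⟨i0⟩ := ‹Nonempty I›
  -- dense sequence in B
  obtain ⟨e, he⟩ := exists_surjective_nat (List ℚ)
  let D : List ℚ → X := fun t => mix t (xs i0)
  have hD1 : ∀ t, D t ∈ B xs rs Ms := fun t => B_base xs rs Ms i0 (ev_mix _ _)
  have hD2 : ∀ t, D t ∈ Cone t := fun t => mix_mem_cone _ _
  obtain ⟨η, hη⟩ := hks (fun n => (D (e n), kk (D (e n))))
  have hk : Dn (ks η) := by
    intro t
    obtain ⟨n, hn⟩ := he t
    refine ⟨n, ?_⟩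
    rw [hη]
    simp only [hn]
    exact hD2 t
  have hG : ∀ u ∈ B xs rs Ms, G (ks η) u (kk u) := by
    intro u hu n
    rw [hη]
    exact ⟨fun h => h2 _ (hD1 _) _ hu h, fun h => h2 _ hu _ (hD1 _) h⟩
  by_cases hgood : ∃ x y, Good (ks η) (rs '' Set.Iio η) (xs '' Set.Iio η) (ys '' Set.Iio η) x y
  · -- the good case
    obtain ⟨-, -, hg⟩ := (hF η).2.2.2.2 hgood
    have hxη : xs η ∈ B xs rs Ms := B_base xs rs Ms η (Ev.refl _)
    obtain ⟨g1, g2⟩ := hg _ (hG _ hxη)
    obtain ⟨w, l, z, hw, hz⟩ := B_reach xs rs Ms (h1 _ hxη)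
    have hwR : ∀ p ∈ w, p.2 ∈ rs '' Set.Iio η := by
      intro p hp
      obtain ⟨z', hz'⟩ := hw p hp
      rcases lt_or_ge z' η with hlt | hge
      · exact ⟨z', hlt, hz'.symm⟩
      · exfalso
        refine (hF z').2.2.2.1 ⟨ys η, ?_, w, l, xs z, hxs z, ?_, p, hp, hz'.symm⟩
        · rcases hge.eq_or_lt with h | h
          · rw [h]; exact Set.mem_insert _ _
          · exact Set.mem_insert_of_mem _ ⟨η, h, rfl⟩
        · rw [← hz]; exact g1
    obtain ⟨g3, g4⟩ := g2 w l hwR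
    rcases lt_trichotomy z η with h | h | h
    · exact g4 (xs z) ⟨z, h, rfl⟩ hz.symm
    · rw [h] at hz; exact g3 hz.symm
    · refine (hF z).2.1 ⟨hxs z, ys η, ⟨η, h, rfl⟩, w, l, ?_⟩
      rw [← hz]; exact g1
  · -- the bad case
    have c1 : #(rs '' Set.Iio η) < 𝔠 := lt_of_le_of_lt mk_image_le (hI η)
    have c2 : #(xs '' Set.Iio η) < 𝔠 := lt_of_le_of_lt mk_image_le (hI η)
    have c3 : #(ys '' Set.Iio η) < 𝔠 := lt_of_le_of_lt mk_image_le (hI η)
    obtain ⟨w, l, hw, j0, hj0⟩ := not_good hk c1 c2 c3 hgood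
    -- a longer cone
    obtain ⟨j, hj, hlj⟩ : ∃ j : List ℚ, j0 <+: j ∧ l.length ≤ j.length := by
      refine ⟨pre (mix j0 0) (max j0.length l.length), ?_, by simp⟩
      exact prefix_pre_of_mem (mix_mem_cone _ _) (le_max_left _ _)
    have hjd : ∀ t, j <+: t → ∃ x ∈ Cone t, G (ks η) x (Ph w l x) := fun t ht =>
      hj0 t (hj.trans ht)
    have hkk : ∀ u ∈ B xs rs Ms, u ∈ Cone j → kk u = Ph w l u := by
      intro u hu huj
      funext i
      set n := max (i + 1) j.length with hn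
      have hpre : j <+: pre u n := prefix_pre_of_mem huj (le_max_right _ _)
      obtain ⟨l1, hl1, hl1'⟩ := cone_below u n
      obtain ⟨l2, hl2, hl2'⟩ := cone_above u n
      obtain ⟨x1, hx1, hG1⟩ := hjd l1 (hpre.trans hl1)
      obtain ⟨x2, hx2, hG2⟩ := hjd l2 (hpre.trans hl2)
      obtain ⟨a1, a2⟩ := hl1' x1 hx1
      obtain ⟨b1, b2⟩ := hl2' x2 hx2
      have hGu := hG u hu
      have s1 : L (kk u) (Ph w l x1) := G_anti hk a1 hG1 hGu
      have s2 : L (Ph w l x2) (kk u) := G_anti hk b1 hGu hG2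
      have hagree : ∀ i < n, Ph w l x2 i = Ph w l x1 i := fun i hi =>
        Ph_congr (fun j hj => by rw [a2 j (by omega), b2 j (by omega)])
      have h3 := convex_pre hagree s2 s1 i (by omega)
      rw [h3]
      exact Ph_congr (fun j hj => b2 j (by omega))
    by_cases hw0 : w = []
    · subst hw0
      have hu := hD2 (j ++ [0])
      have hv := hD2 (j ++ [1])
      have hu' := cone_anti (List.prefix_append j [0]) hu
      have hv' := cone_anti (List.prefix_append j [1]) hv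
      have hku := hkk _ (hD1 _) hu'
      have hkv := hkk _ (hD1 _) hv'
      simp only [Ph] at hku hkv
      have hu0 : D (j ++ [0]) j.length = 0 := by
        have := hu j.length (by simp)
        rw [this]; simp [List.getD_eq_getElem?_getD]
      have hv0 : D (j ++ [1]) j.length = 1 := by
        have := hv j.length (by simp)
        rw [this]; simp [List.getD_eq_getElem?_getD]
      have hag : ∀ i < j.length, D (j ++ [0]) i = D (j ++ [1]) i := fun i hi => by
        rw [hu' i hi, hv' i hi]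
      have hL : L (D (j ++ [0])) (D (j ++ [1])) :=
        ⟨j.length, hag, by rw [hu0, hv0]; norm_num⟩
      have hL2 := h2 _ (hD1 _) _ (hD1 _) hL
      rw [hku, hkv] at hL2
      refine L_asymm hL2 ⟨j.length, fun i hi => ?_, ?_⟩
      · rcases Nat.lt_or_ge i l.length with h | h
        · rw [mix_lt _ _ h, mix_lt _ _ h]
        · rw [mix_ge _ _ h, mix_ge _ _ h, hag i hi]
      · rw [mix_ge _ _ hlj, mix_ge _ _ hlj, hu0, hv0]; norm_num
    · rcases B_inv_word xs rs Ms hxs hrs hw0 l with h | ⟨z, h⟩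
      · apply h (D j)
        rw [← hkk _ (hD1 j) (hD2 j)]
        exact h1 _ (hD1 j)
      · have hP : ∀ u ∈ B xs rs Ms, u ∈ Cone j → Ph w l u ∈ B xs rs Ms := fun u hu huj => by
          rw [← hkk u hu huj]; exact h1 u hu
        obtain ⟨-, hdense⟩ := h (D j) (hP _ (hD1 j) (hD2 j))
        obtain ⟨m, hm1, hm2⟩ := hdense (pre (mix l (mix j 0)) j.length)
        rw [mem_cone_pre] at hm1
        have hu1 : mix j (Ms z m) ∈ B xs rs Ms := B_ev xs rs Ms (ev_mix _ _) hm2
        have hu2 : mix j (Ms z m) ∈ Cone j := mix_mem_cone _ _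
        obtain ⟨h3, -⟩ := h _ (hP _ hu1 hu2)
        apply h3 m
        funext i
        rcases Nat.lt_or_ge i l.length with hi | hi
        · rw [mix_lt _ _ hi, hm1 i (by omega), mix_lt _ _ hi]
        · rw [mix_ge _ _ hi]
          rcases Nat.lt_or_ge i j.length with hi' | hi'
          · rw [mix_lt _ _ hi', hm1 i hi', mix_ge _ _ hi, mix_lt _ _ hi']
          · rw [mix_ge _ _ hi']

end main

/-! ### Existence of the construction -/

section exist
open Cardinal

/-- an index set of size continuum, well ordered in the least order type -/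
abbrev Ix : Type := (Cardinal.continuum.{0}).ord.ToType

theorem hIx (i : Ix) : #(Set.Iio i) < 𝔠 := by simpa using Cardinal.mk_Iio_lt i

theorem mk_Ix : #Ix = 𝔠 := Cardinal.mk_ord_toType _

instance : Nonempty Ix := by
  rw [← Cardinal.mk_ne_zero_iff, mk_Ix]
  exact Cardinal.continuum_ne_zero

theorem exists_surj {α : Type} [Nonempty α] (h : #α ≤ 𝔠) : ∃ f : Ix → α, Function.Surjective f := by
  rw [← mk_Ix, Cardinal.le_def] at h
  obtain ⟨g⟩ := h
  exact ⟨Function.invFun g, Function.invFun_surjective g.injective⟩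

theorem exists_F (ks : Ix → ℕ → X × X) : ∃ F : Ix → X × X × X, ∀ i,
    PP (ks i) ((fun j => (F j).2.2) '' Set.Iio i) ((fun j => (F j).1) '' Set.Iio i)
    ((fun j => (F j).2.1) '' Set.Iio i) (F i) := by
  classical
  have ex : ∀ (i : Ix) (h : ∀ j, j < i → X × X × X), ∃ v,
      PP (ks i) {r | ∃ j, ∃ hj : j < i, (h j hj).2.2 = r} {x | ∃ j, ∃ hj : j < i, (h j hj).1 = x}
        {y | ∃ j, ∃ hj : j < i, (h j hj).2.1 = y} v := by
    intro i h
    have small : ∀ g : X × X × X → X, #({r | ∃ j, ∃ hj : j < i, g (h j hj) = r} : Set X) < 𝔠 := by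
      intro g
      refine lt_of_le_of_lt ?_ (hIx i)
      have : ({r | ∃ j, ∃ hj : j < i, g (h j hj) = r} : Set X) =
          Set.range (fun j : Set.Iio i => g (h j.1 j.2)) := by
        ext r
        simp only [Set.mem_ofPred_eq, Set.mem_range, Subtype.exists, Set.mem_Iio]
      rw [this]
      exact mk_range_le
    exact PP_exists (ks i) (small (fun v => v.2.2)) (small (fun v => v.2.1))
  let F : Ix → X × X × X := (wellFounded_lt (α := Ix)).fix
    (fun i h => Classical.choose (ex i h))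
  have hFeq : ∀ i, F i = Classical.choose (ex i (fun j _ => F j)) := fun i =>
    WellFounded.fix_eq _ _ i
  refine ⟨F, fun i => ?_⟩
  have h1 := Classical.choose_spec (ex i (fun j _ => F j))
  rw [← hFeq i] at h1
  have e : ∀ g : X × X × X → X, ({r | ∃ j, ∃ _ : j < i, g (F j) = r} : Set X) =
      (fun j => g (F j)) '' Set.Iio i := by
    intro g
    ext r
    simp only [Set.mem_ofPred_eq, Set.mem_image, Set.mem_Iio, exists_prop]
  have e1 := e (fun v => v.2.2)
  have e2 := e (fun v => v.1)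
  have e3 := e (fun v => v.2.1)
  rw [← e1, ← e2, ← e3]
  exact h1

/-- self-embeddings into cones -/
theorem exists_self (s : List ℚ) : ∃ f : X → X, (∀ x, f x ∈ Cone s) ∧ (∀ x, Ev (f x) x) ∧
    ∀ x y, L x y → L (f x) (f y) := by
  have : Countable (Lex (Fin (s.length + 1) → ℚ)) :=
    inferInstanceAs (Countable (Fin (s.length + 1) → ℚ))
  obtain ⟨lam⟩ := Order.embedding_from_countable_to_dense (Lex (Fin (s.length + 1) → ℚ)) ℚ
  refine ⟨fun x i => if i < s.length then s.getD i 0 else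
    if i = s.length then lam (toLex (fun j : Fin (s.length + 1) => x j)) else x i, ?_, ?_, ?_⟩
  · intro x i hi
    simp [hi]
  · intro x
    refine ⟨s.length + 1, fun i hi => ?_⟩
    have h1 : ¬ i < s.length := by omega
    have h2 : ¬ i = s.length := by omega
    simp [h1, h2]
  · rintro x y ⟨i, h1, h2⟩
    rcases Nat.lt_or_ge s.length i with h | h
    · refine ⟨i, fun j hj => ?_, ?_⟩
      · have : (fun j : Fin (s.length + 1) => x j) = (fun j : Fin (s.length + 1) => y j) := by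
          funext k
          exact h1 k (by omega)
        simp only [this, h1 j hj]
      · have h3 : ¬ i < s.length := by omega
        have h4 : ¬ i = s.length := by omega
        simp only [h3, h4, if_false]
        exact h2
    · refine ⟨s.length, fun j hj => by simp [hj], ?_⟩
      simp only [lt_irrefl, if_false, if_true]
      apply lam.strictMono
      refine ⟨⟨i, by omega⟩, fun j hj => ?_, h2⟩
      exact h1 j.1 hj

end exist

/-! ### Chains -/

/-- a set of sequences as a chain -/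
abbrev Ty (S : Set X) : Type := {x : Lex (ℕ → ℚ) // ofLex x ∈ S}

theorem ty_lt {S : Set X} (a b : Ty S) : a < b ↔ L (ofLex a.1) (ofLex b.1) := Iff.rfl

section sums
variable {α β γ δ : Type} [LinearOrder α] [LinearOrder β] [LinearOrder γ] [LinearOrder δ]

theorem lexMap (f : α ↪o γ) (g : β ↪o δ) : Nonempty (Lex (α ⊕ β) ↪o Lex (γ ⊕ δ)) := by
  refine ⟨OrderEmbedding.ofStrictMono (fun x => toLex (Sum.map f g (ofLex x))) ?_⟩
  intro a b h
  induction a using Lex.rec with | _ a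
  induction b using Lex.rec with | _ b
  rcases a with a | a <;> rcases b with b | b
  · simpa using h
  · simp
  · simp at h
  · simpa using h

theorem lexInl : Nonempty (α ↪o Lex (α ⊕ β)) :=
  ⟨OrderEmbedding.ofStrictMono (fun x => toLex (Sum.inl x)) (fun a b h => by simpa using h)⟩

theorem lexInr : Nonempty (β ↪o Lex (α ⊕ β)) :=
  ⟨OrderEmbedding.ofStrictMono (fun x => toLex (Sum.inr x)) (fun a b h => by simpa using h)⟩

end sums

/-- The set `B` with all its properties. -/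
theorem exists_B : ∃ B : Set X, B.Nonempty ∧ (∀ x y, Ev x y → y ∈ B → x ∈ B) ∧
    (∀ M : ℕ → X, (∀ t : List ℚ, ∃ j, M j ∈ Cone t ∧ M j ∈ B) →
      ∃ g : X → X, (∀ u ∈ B, (∀ n, M n ≠ u) → g u ∈ B) ∧ ∀ x y, L x y → L (g y) (g x)) ∧
    (∀ kk : X → X, (∀ u ∈ B, kk u ∈ B) → (∀ u ∈ B, ∀ v ∈ B, L u v → L (kk v) (kk u)) → False) := by
  classical
  have c1 : Cardinal.mk (ℕ → X × X) ≤ Cardinal.continuum := by
    rw [Cardinal.mk_arrow, Cardinal.mk_prod]
    simp only [Cardinal.lift_id, mk_X, Cardinal.continuum_mul_self, Cardinal.mk_nat]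
    simp
  have c2 : Cardinal.mk (ℕ → X) ≤ Cardinal.continuum := by
    rw [Cardinal.mk_arrow]
    simp only [Cardinal.lift_id, mk_X, Cardinal.mk_nat]
    simp
  obtain ⟨ks, hks⟩ := exists_surj c1
  obtain ⟨Ms, hMs⟩ := exists_surj c2
  obtain ⟨F, hF⟩ := exists_F ks
  refine ⟨B (fun j => (F j).1) (fun j => (F j).2.2) Ms, ?_, ?_, ?_, ?_⟩
  · obtain ⟨i⟩ := (inferInstance : Nonempty Ix)
    exact ⟨_, B_base _ _ _ i (Ev.refl _)⟩
  · intro x y h hy
    exact B_ev _ _ _ h hy
  · intro M hM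
    obtain ⟨z, rfl⟩ := hMs M
    exact ⟨d (F z).2.2, fun u hu hne => B_step _ _ _ z hu hne hM (Ev.refl _),
      fun x y h => d_anti _ h⟩
  · intro kk h1 h2
    exact no_anti hIx ks hks F Ms hF kk h1 h2

/-! ### The abstract construction -/

section hag

/-- the ordered sum over `k ∈ ℕ` of the chains `Ty (A k)` -/
abbrev Phi (A : ℕ → Set X) : Type := {p : ℕ ×ₗ Lex (ℕ → ℚ) // ofLex (ofLex p).2 ∈ A (ofLex p).1}

variable {A : ℕ → Set X}

/-- piece number -/
def rk (p : Phi A) : ℕ := (ofLex p.1).1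

/-- value -/
def vl (p : Phi A) : Lex (ℕ → ℚ) := (ofLex p.1).2

theorem vl_mem (p : Phi A) : ofLex (vl p) ∈ A (rk p) := p.2

/-- constructor -/
def mkP (k : ℕ) (x : Ty (A k)) : Phi A := ⟨toLex (k, x.1), x.2⟩

@[simp] theorem rk_mkP (k : ℕ) (x : Ty (A k)) : rk (mkP k x) = k := rfl
@[simp] theorem vl_mkP (k : ℕ) (x : Ty (A k)) : vl (mkP k x) = x.1 := rfl

theorem phi_lt (p q : Phi A) : p < q ↔ rk p < rk q ∨ rk p = rk q ∧ vl p < vl q := by
  show (p.1 < q.1) ↔ _
  rw [Prod.Lex.lt_iff]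
  rfl

theorem rk_mono {p q : Phi A} (h : p ≤ q) : rk p ≤ rk q := by
  rcases h.lt_or_eq with h | rfl
  · rcases (phi_lt p q).1 h with h | h
    · exact h.le
    · exact h.1.le
  · exact le_rfl

theorem mkP_lt_of_lt {k l : ℕ} (h : k < l) (x : Ty (A k)) (y : Ty (A l)) : mkP k x < mkP l y :=
  (phi_lt _ _).2 (Or.inl h)

theorem mkP_lt {k : ℕ} {x y : Ty (A k)} (h : x < y) : mkP k x < mkP k y :=
  (phi_lt _ _).2 (Or.inr ⟨rfl, h⟩)

theorem eq_mkP (p : Phi A) : p = mkP (rk p) ⟨vl p, vl_mem p⟩ := rfl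

/-- (F2) ranks of values are unbounded -/
theorem rank_unbounded (hne : ∀ k, (A k).Nonempty)
    (h3 : ∀ k, IsEmpty (Ty (A (k + 1)) ↪o Ty (A k))) (e : Phi A ↪o Phi A) :
    ∀ k, ∃ x : Ty (A k), k ≤ rk (e (mkP k x)) := by
  intro k
  induction k with
  | zero => obtain ⟨x, hx⟩ := hne 0; exact ⟨⟨toLex x, hx⟩, Nat.zero_le _⟩
  | succ k ih =>
    obtain ⟨x, hx⟩ := ih
    by_contra hcon
    push Not at hcon
    have hk : ∀ y : Ty (A (k + 1)), rk (e (mkP (k + 1) y)) = k := by
      intro y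
      have h1 := hcon y
      have h2 : rk (e (mkP k x)) ≤ rk (e (mkP (k + 1) y)) :=
        rk_mono (e.strictMono (mkP_lt_of_lt (Nat.lt_succ_self k) x y)).le
      omega
    refine (h3 k).false (OrderEmbedding.ofStrictMono
      (fun y => (⟨vl (e (mkP (k + 1) y)), ?_⟩ : Ty (A k))) ?_)
    · have := vl_mem (e (mkP (k + 1) y))
      rw [hk y] at this
      exact this
    · intro y z hyz
      have h4 := (phi_lt _ _).1 (e.strictMono (mkP_lt hyz))
      rw [hk y, hk z] at h4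
      rcases h4 with h4 | h4
      · exact absurd h4 (lt_irrefl _)
      · exact h4.2

/-- the pieces of an order embedded in `Phi A` -/
abbrev Pc {β : Type} [LinearOrder β] (e : β ↪o Phi A) (k : ℕ) : Type := {y : β // rk (e y) = k}

theorem pc_emb {β : Type} [LinearOrder β] (e : β ↪o Phi A) (k : ℕ) :
    Nonempty (Pc e k ↪o Ty (A k)) := by
  refine ⟨OrderEmbedding.ofStrictMono (fun y => (⟨vl (e y.1), ?_⟩ : Ty (A k))) ?_⟩
  · have := vl_mem (e y.1)
    rw [y.2] at this
    exact this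
  · rintro ⟨y, hy⟩ ⟨z, hz⟩ hyz
    have h4 := (phi_lt _ _).1 (e.strictMono (show y < z from hyz))
    rw [hy, hz] at h4
    rcases h4 with h4 | h4
    · exact absurd h4 (lt_irrefl _)
    · exact h4.2

/-- if every `Ty (A j)` embeds in pieces as late as one wishes then `Phi A` embeds -/
theorem phi_emb {β : Type} [LinearOrder β] (e : β ↪o Phi A)
    (h : ∀ j N, ∃ K, N ≤ K ∧ Nonempty (Ty (A j) ↪o Pc e K)) : Nonempty (Phi A ↪o β) := by
  choose K hK1 hK2 using h
  let s : ℕ → ℕ := fun j => Nat.rec (K 0 0) (fun j v => K (j + 1) (v + 1)) j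
  have hs : ∀ j, s j < s (j + 1) := fun j => hK1 (j + 1) (s j + 1)
  have hs' : StrictMono s := strictMono_nat_of_lt_succ hs
  have hemb : ∀ j, Nonempty (Ty (A j) ↪o Pc e (s j)) := by
    intro j
    cases j with
    | zero => exact hK2 0 0
    | succ j => exact hK2 (j + 1) (s j + 1)
  have hemb' : ∀ j, ∃ g : Ty (A j) → β, (∀ x, rk (e (g x)) = s j) ∧ StrictMono g := by
    intro j
    obtain ⟨g⟩ := hemb j
    exact ⟨fun x => (g x).1, fun x => (g x).2, fun x y hxy => g.strictMono hxy⟩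
  choose g hg1 hg2 using hemb'
  refine ⟨OrderEmbedding.ofStrictMono (fun p => g (rk p) ⟨vl p, vl_mem p⟩) ?_⟩
  intro p q hpq
  rcases (phi_lt p q).1 hpq with h | ⟨h, h'⟩
  · rw [← e.lt_iff_lt, phi_lt]
    left
    rw [hg1, hg1]
    exact hs' h
  · obtain ⟨⟨k, x⟩, hx⟩ := p
    obtain ⟨⟨l, y⟩, hy⟩ := q
    have h1 : k = l := h
    subst h1
    exact hg2 k (show (⟨x, hx⟩ : Ty (A k)) < ⟨y, hy⟩ from h')

theorem phi_main (hne : ∀ k, (A k).Nonempty) (hEv : ∀ k x y, Ev x y → y ∈ A k → x ∈ A k)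
    (h3 : ∀ k, IsEmpty (Ty (A (k + 1)) ↪o Ty (A k)))
    (h4 : ∀ k (Y : Type) [LinearOrder Y], Nonempty (Y ↪o Ty (A k)) → IsEmpty (Ty (A k) ↪o Y) →
      Nonempty (Y ↪o Ty (A (k + 1))))
    (h5 : ∀ k, A (k + 2) = A k) :
    (∀ L : Set (Phi A), IsLowerSet L → L ≠ Set.univ →
          Nonempty (Phi A ↪o ↥(Lᶜ)) ∧ IsEmpty (Phi A ↪o ↥L)) ∧
    (∀ (β : Type) [LinearOrder β], Nonempty (β ↪o Phi A) → IsEmpty (Phi A ↪o β) →
          ∃ L : Set (Phi A), IsLowerSet L ∧ L ≠ Set.univ ∧ Nonempty (β ↪o ↥L)) ∧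
    ¬ WellFoundedLT (Phi A) := by
  classical
  have h5' : ∀ n k, A (k + 2 * n) = A k := by
    intro n
    induction n with
    | zero => intro k; rfl
    | succ n ih => intro k; rw [show k + 2 * (n + 1) = (k + 2 * n) + 2 by ring, h5, ih]
  have hpar : ∀ k l, k % 2 = l % 2 → A k = A l := by
    intro k l hkl
    rw [← Nat.mod_add_div k 2, ← Nat.mod_add_div l 2, h5', h5', hkl]
  choose f hf1 hf2 hf3 using exists_self
  have hfA : ∀ k s x, x ∈ A k → f s x ∈ A k := fun k s x hx => hEv k _ _ (hf2 s x) hx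
  refine ⟨?_, ?_, ?_⟩
  · intro L hL hLu
    obtain ⟨p, hp⟩ := (Set.ne_univ_iff_exists_notMem L).1 hLu
    constructor
    · have hmem : ∀ q : Phi A, ofLex (vl q) ∈ A (rk q + 2 * (rk p + 1)) := fun q => by
        rw [h5']; exact vl_mem q
      refine ⟨OrderEmbedding.ofStrictMono (fun q : Phi A =>
        (⟨mkP (rk q + 2 * (rk p + 1)) ⟨vl q, hmem q⟩, ?_⟩ : ↥(Lᶜ))) ?_⟩
      · intro hq
        refine hp (hL ?_ hq)
        refine le_of_lt ((phi_lt _ _).2 (Or.inl ?_))
        simp only [rk_mkP]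
        omega
      · intro q r hqr
        show mkP (rk q + 2 * (rk p + 1)) ⟨vl q, hmem q⟩ < mkP (rk r + 2 * (rk p + 1)) ⟨vl r, hmem r⟩
        rw [phi_lt] at hqr ⊢
        simp only [rk_mkP, vl_mkP]
        rcases hqr with h | ⟨h, h'⟩
        · exact Or.inl (by omega)
        · exact Or.inr ⟨by omega, h'⟩
    · refine ⟨fun e => ?_⟩
      obtain ⟨x, hx⟩ := rank_unbounded hne h3
        (OrderEmbedding.ofStrictMono (fun q => (e q).1) (fun a b h => e.strictMono h)) (rk p + 1)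
      have hx' : rk p + 1 ≤ rk (e (mkP (rk p + 1) x)).1 := hx
      refine hp (hL ?_ (e (mkP (rk p + 1) x)).2)
      exact le_of_lt ((phi_lt _ _).2 (Or.inl (by omega)))
  · intro β _ ⟨e⟩ hβ
    have hex : ∃ j N, ∀ K, N ≤ K → IsEmpty (Ty (A j) ↪o Pc e K) := by
      by_contra hcon
      push Not at hcon
      obtain ⟨g⟩ := phi_emb e (fun j N => by
        obtain ⟨K, hK1, hK2⟩ := hcon j N
        exact ⟨K, hK1, hK2⟩)
      exact hβ.false g
    obtain ⟨j, N, hjN⟩ := hex
    have hle : ∀ K, ∃ g : Pc e K → Ty (A (j + 1)), N ≤ K → StrictMono g := by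
      intro K
      by_cases hNK : N ≤ K
      · have : Nonempty (Pc e K ↪o Ty (A (j + 1))) := by
          rcases Nat.mod_two_eq_zero_or_one (K + j) with h | h
          · have hKj : A K = A j := hpar _ _ (by omega)
            have h6 := pc_emb e K
            rw [hKj] at h6
            exact h4 j (Pc e K) h6 (hjN K hNK)
          · have hKj : A K = A (j + 1) := hpar _ _ (by omega)
            have h6 := pc_emb e K
            rw [hKj] at h6
            exact h6
        obtain ⟨g⟩ := this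
        exact ⟨g, fun _ => g.strictMono⟩
      · obtain ⟨x, hx⟩ := hne (j + 1)
        exact ⟨fun _ => ⟨toLex x, hx⟩, fun h => absurd h hNK⟩
    choose g hg using hle
    -- the target piece
    have hM : A (j + 1 + 2 * N) = A (j + 1) := h5' _ _
    have hmem : ∀ (s : List ℚ) (K : ℕ) (y : Pc e K), f s (ofLex (g K y).1) ∈ A (j + 1 + 2 * N) := by
      intro s K y
      rw [hM]
      exact hfA _ _ _ (g K y).2
    refine ⟨{p | rk p ≤ j + 1 + 2 * N}, ?_, ?_, ?_⟩
    · intro p q hqp hp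
      exact le_trans (rk_mono hqp) hp
    · intro hu
      obtain ⟨x, hx⟩ := hne (j + 1 + 2 * N + 1)
      have : mkP (j + 1 + 2 * N + 1) ⟨toLex x, hx⟩ ∈ ({p | rk p ≤ j + 1 + 2 * N} : Set (Phi A)) := by
        rw [hu]; trivial
      have h7 : j + 1 + 2 * N + 1 ≤ j + 1 + 2 * N := this
      omega
    · refine ⟨OrderEmbedding.ofStrictMono (fun y : β =>
        if h : rk (e y) < N then (⟨e y, by
            show rk (e y) ≤ _
            omega⟩ : ({p | rk p ≤ j + 1 + 2 * N} : Set (Phi A))) else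
          ⟨mkP (j + 1 + 2 * N) ⟨toLex (f [((rk (e y) : ℕ) : ℚ)] (ofLex (g (rk (e y)) ⟨y, rfl⟩).1)),
            hmem _ _ _⟩, le_refl (j + 1 + 2 * N)⟩) ?_⟩
      intro y z hyz
      have hyz' : e y < e z := e.strictMono hyz
      have hrk := rk_mono hyz'.le
      by_cases hy : rk (e y) < N
      · by_cases hz : rk (e z) < N
        · simp only [hy, hz, dif_pos]
          exact hyz'
        · simp only [hy, hz, dif_pos, dif_neg, not_false_iff]
          show e y < mkP _ _
          rw [phi_lt]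
          left
          simp only [rk_mkP]
          omega
      · have hz : ¬ rk (e z) < N := by omega
        simp only [hy, hz, dif_neg, not_false_iff]
        show mkP _ _ < mkP _ _
        apply mkP_lt
        show L (f _ _) (f _ _)
        rcases hrk.lt_or_eq with h | h
        · have h8 := hf1 [((rk (e y) : ℕ) : ℚ)] (ofLex (g (rk (e y)) ⟨y, rfl⟩).1) 0 (by simp)
          have h9 := hf1 [((rk (e z) : ℕ) : ℚ)] (ofLex (g (rk (e z)) ⟨z, rfl⟩).1) 0 (by simp)
          refine ⟨0, by simp, ?_⟩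
          rw [h8, h9]
          simpa using h
        · have key : ∀ K (hy' : rk (e y) = K) (hz' : rk (e z) = K), N ≤ K →
              L (f [(K : ℚ)] (ofLex (g K ⟨y, hy'⟩).1)) (f [(K : ℚ)] (ofLex (g K ⟨z, hz'⟩).1)) := by
            intro K hy' hz' hK
            apply hf3
            exact hg K hK (show (⟨y, hy'⟩ : Pc e K) < ⟨z, hz'⟩ from hyz)
          have key2 : ∀ K (hz' : rk (e z) = K), 
              (f [(K : ℚ)] (ofLex (g K ⟨z, hz'⟩).1)) =
              f [((rk (e z) : ℕ) : ℚ)] (ofLex (g (rk (e z)) ⟨z, rfl⟩).1) := by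
            intro K hz'
            subst hz'
            rfl
          rw [← key2 (rk (e y)) h.symm]
          exact key (rk (e y)) rfl h.symm (by omega)
  · intro hwf
    obtain ⟨x, hx⟩ := hne 0
    let s : ℕ → Phi A := fun n => mkP 0 ⟨toLex (f [-(n : ℚ)] x), hfA 0 _ _ hx⟩
    have hs : ∀ n, s (n + 1) < s n := by
      intro n
      apply mkP_lt
      show L (f _ _) (f _ _)
      have h8 := hf1 [-((n + 1 : ℕ) : ℚ)] x 0 (by simp)
      have h9 := hf1 [-(n : ℚ)] x 0 (by simp)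
      refine ⟨0, by simp, ?_⟩
      rw [h8, h9]
      simp
    exact (RelEmbedding.wellFounded_iff_isEmpty (r := ((· < ·) : Phi A → Phi A → Prop)).1
      hwf.wf).false (RelEmbedding.natGT s hs)

end hag
/-! ### The counterexample -/

section final

theorem L_neg {x y : X} : L (-x) (-y) ↔ L y x := by
  constructor
  · rintro ⟨i, h1, h2⟩
    refine ⟨i, fun j hj => ?_, ?_⟩
    · have := h1 j hj
      simp only [Pi.neg_apply, neg_inj] at this
      exact this.symm
    · simpa using h2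
  · rintro ⟨i, h1, h2⟩
    refine ⟨i, fun j hj => ?_, ?_⟩
    · simp only [Pi.neg_apply, neg_inj]
      exact (h1 j hj).symm
    · simpa using h2

/-- the reversed set -/
def Ng (S : Set X) : Set X := {x | -x ∈ S}

theorem ng_to (S : Set X) : Nonempty (Ty (Ng S) ↪o (Ty S)ᵒᵈ) :=
  ⟨OrderEmbedding.ofStrictMono
    (fun x => OrderDual.toDual (⟨toLex (-(ofLex x.1)), x.2⟩ : Ty S))
    (fun x y h => by
      show L (-(ofLex y.1)) (-(ofLex x.1))
      rw [L_neg]
      exact h)⟩

theorem ng_of (S : Set X) : Nonempty ((Ty S)ᵒᵈ ↪o Ty (Ng S)) :=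
  ⟨OrderEmbedding.ofStrictMono
    (fun x => (⟨toLex (-(ofLex (OrderDual.ofDual x).1)), by
      show -(-(ofLex (OrderDual.ofDual x).1)) ∈ S
      rw [neg_neg]
      exact (OrderDual.ofDual x).2⟩ : Ty (Ng S)))
    (fun x y h => by
      show L (-(ofLex (OrderDual.ofDual x).1)) (-(ofLex (OrderDual.ofDual y).1))
      rw [L_neg]
      exact h)⟩

/-- the alternating family of sets -/
def Alt (S : Set X) (k : ℕ) : Set X := if k % 2 = 0 then S else Ng S

theorem alt_even (S : Set X) {k : ℕ} (h : k % 2 = 0) : Alt S k = S := if_pos h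
theorem alt_odd (S : Set X) {k : ℕ} (h : ¬ k % 2 = 0) : Alt S k = Ng S := if_neg h

theorem counterexample : ∃ (α : Type) (_ : LinearOrder α),
    (∀ L : Set α, IsLowerSet L → L ≠ Set.univ →
          Nonempty (α ↪o ↥(Lᶜ)) ∧ IsEmpty (α ↪o ↥L)) ∧
    (∀ (β : Type) [LinearOrder β], Nonempty (β ↪o α) → IsEmpty (α ↪o β) →
          ∃ L : Set α, IsLowerSet L ∧ L ≠ Set.univ ∧ Nonempty (β ↪o ↥L)) ∧
    ¬ WellFoundedLT α := by
  classical
  obtain ⟨B, hne, hEv, hcode, hno⟩ := exists_B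
  choose f hf1 hf2 hf3 using exists_self
  have hfB : ∀ s x, x ∈ B → f s x ∈ B := fun s x hx => hEv _ _ (hf2 s x) hx
  -- no embedding of B in its reverse
  have hBC : IsEmpty (Ty B ↪o (Ty B)ᵒᵈ) := by
    refine ⟨fun e => ?_⟩
    refine hno (fun u => if h : u ∈ B then ofLex (OrderDual.ofDual (e ⟨toLex u, h⟩)).1 else u)
      ?_ ?_
    · intro u hu
      simp only [hu, dif_pos]
      exact (OrderDual.ofDual (e ⟨toLex u, hu⟩)).2
    · intro u hu v hv huv
      simp only [hu, hv, dif_pos]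
      have h1 : (⟨toLex u, hu⟩ : Ty B) < ⟨toLex v, hv⟩ := huv
      have h2 := e.strictMono h1
      exact h2
  have hB : ∀ (Y : Type) [LinearOrder Y], Nonempty (Y ↪o Ty B) → IsEmpty (Ty B ↪o Y) →
      Nonempty (Y ↪o (Ty B)ᵒᵈ) := by
    intro Y _ ⟨e⟩ hY
    -- a point of each copy outside the range
    have hm : ∀ s : List ℚ, ∃ m : X, m ∈ B ∧ m ∈ Cone s ∧ ∀ y : Y, ofLex (e y).1 ≠ m := by
      intro s
      by_contra hcon
      push Not at hcon
      have h1 : ∀ b : Ty B, ∃ y : Y, ofLex (e y).1 = f s (ofLex b.1) := fun b =>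
        hcon _ (hfB s _ b.2) (hf1 s _)
      choose g hg using h1
      refine hY.false (OrderEmbedding.ofStrictMono g ?_)
      intro a b hab
      rw [← e.lt_iff_lt]
      have h2 : L (f s (ofLex a.1)) (f s (ofLex b.1)) := hf3 s _ _ hab
      rw [← hg a, ← hg b] at h2
      exact h2
    choose m hm1 hm2 hm3 using hm
    obtain ⟨en, hen⟩ := exists_surjective_nat (List ℚ)
    obtain ⟨g, hg1, hg2⟩ := hcode (fun n => m (en n)) (fun t => by
      obtain ⟨n, rfl⟩ := hen t
      exact ⟨n, hm2 _, hm1 _⟩)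
    refine ⟨OrderEmbedding.ofStrictMono (fun y => OrderDual.toDual
      (⟨toLex (g (ofLex (e y).1)), hg1 _ (e y).2 (fun n h => hm3 _ y h.symm)⟩ : Ty B)) ?_⟩
    intro a b hab
    exact hg2 _ _ (e.strictMono hab)
  have hC : ∀ (Y : Type) [LinearOrder Y], Nonempty (Y ↪o (Ty B)ᵒᵈ) → IsEmpty ((Ty B)ᵒᵈ ↪o Y) →
      Nonempty (Y ↪o Ty B) := by
    intro Y _ ⟨e⟩ hY
    obtain ⟨g⟩ := hB Yᵒᵈ ⟨e.dual⟩ ⟨fun h => hY.false h.dual⟩
    exact ⟨g.dual⟩
  have hCB : IsEmpty ((Ty B)ᵒᵈ ↪o Ty B) := ⟨fun h => hBC.false h.dual⟩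
  obtain ⟨nt⟩ := ng_to B
  obtain ⟨nf⟩ := ng_of B
  refine ⟨Phi (Alt B), inferInstance, ?_⟩
  refine phi_main (A := Alt B) ?_ ?_ ?_ ?_ ?_
  · intro k
    obtain ⟨x, hx⟩ := hne
    by_cases h : k % 2 = 0
    · rw [alt_even B h]; exact ⟨x, hx⟩
    · rw [alt_odd B h]
      refine ⟨-x, ?_⟩
      show - -x ∈ B
      rw [neg_neg]
      exact hx
  · intro k x y hxy
    by_cases h : k % 2 = 0
    · rw [alt_even B h]; exact hEv x y hxy
    · rw [alt_odd B h]
      refine hEv (-x) (-y) ?_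
      obtain ⟨n, hn⟩ := hxy
      exact ⟨n, fun i hi => by simp [hn i hi]⟩
  · intro k
    by_cases h : k % 2 = 0
    · rw [alt_even B h, alt_odd B (show ¬ (k + 1) % 2 = 0 by omega)]
      exact ⟨fun e => hCB.false (nf.trans e)⟩
    · rw [alt_odd B h, alt_even B (show (k + 1) % 2 = 0 by omega)]
      exact ⟨fun e => hBC.false (e.trans nt)⟩
  · intro k Y _
    by_cases h : k % 2 = 0
    · rw [alt_even B h, alt_odd B (show ¬ (k + 1) % 2 = 0 by omega)]
      intro h1 h2
      obtain ⟨g⟩ := hB Y h1 h2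
      exact ⟨g.trans nf⟩
    · rw [alt_odd B h, alt_even B (show (k + 1) % 2 = 0 by omega)]
      rintro ⟨e⟩ h2
      exact hC Y ⟨e.trans nt⟩ ⟨fun e' => h2.false (nt.trans e')⟩
  · intro k
    by_cases h : k % 2 = 0
    · rw [alt_even B h, alt_even B (show (k + 2) % 2 = 0 by omega)]
    · rw [alt_odd B h, alt_odd B (show ¬ (k + 2) % 2 = 0 by omega)]

end final

end Pool.Agent.Helper971.Hagendorf

namespace Pool.Agent.S09534

/-- The negation of the preceding statement: If a linear order embeds into every nonempty final segment but into no initial part of any cut, and every order strictly below it embeds into a proper initial segment, then it is well-ordered. -/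
theorem result :
    ¬ (∀ (α : Type) [LinearOrder α],
      (∀ L : Set α, IsLowerSet L → L ≠ Set.univ →
          Nonempty (α ↪o ↥(Lᶜ)) ∧ IsEmpty (α ↪o ↥L)) →
      (∀ (β : Type) [LinearOrder β], Nonempty (β ↪o α) → IsEmpty (α ↪o β) →
          ∃ L : Set α, IsLowerSet L ∧ L ≠ Set.univ ∧ Nonempty (β ↪o ↥L)) →
      WellFoundedLT α) := by
  intro h
  obtain ⟨α, hα, h1, h2, h3⟩ := Pool.Agent.Helper971.Hagendorf.counterexample
  exact h3 (h α h1 h2)

end Pool.Agent.S09534
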