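import Pool.Statements.S09535

set_option autoImplicit false
set_option linter.unusedSimpArgs false
open Pool Pool.MP_8315be_lc

namespace Pool.Agent.S09535

section Helpers
open Polynomial


section aniso
variable {k : Type*} [Field k]

lemma h_coeff (β : k) (x y : k[X]) (n : ℕ) (hx : x.natDegree ≤ n) (hy : y.natDegree ≤ n) :
    (x^2 + x*y + C β * y^2).coeff (n+n) =
      x.coeff n * x.coeff n + x.coeff n * y.coeff n + β * (y.coeff n * y.coeff n) := by
  rw [pow_two, pow_two, coeff_add, coeff_add, coeff_C_mul, coeff_mul_add_eq_of_natDegree_le hx hx,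
    coeff_mul_add_eq_of_natDegree_le hx hy, coeff_mul_add_eq_of_natDegree_le hy hy]

lemma h_natDegree_le (β : k) (x y : k[X]) (n : ℕ) (hx : x.natDegree ≤ n) (hy : y.natDegree ≤ n) :
    (x^2 + x*y + C β * y^2).natDegree ≤ n + n := by
  refine natDegree_add_le_of_degree_le (natDegree_add_le_of_degree_le ?_ ?_) ?_
  · rw [pow_two]; exact natDegree_mul_le_of_le hx hx
  · exact natDegree_mul_le_of_le hx hy
  · refine (natDegree_C_mul_le _ _).trans ?_
    rw [pow_two]; exact natDegree_mul_le_of_le hy hy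

/-- if `z^2+z+β` has no root then the norm form has even degree -/
lemma h_even (β : k) (hβ : ∀ c : k, c * c + c + β ≠ 0) (x y : k[X]) :
    Even (x^2 + x*y + C β * y^2).natDegree := by
  by_cases h0 : x = 0 ∧ y = 0
  · simp [h0.1, h0.2]
  set n := max x.natDegree y.natDegree with hn
  have hx : x.natDegree ≤ n := le_max_left _ _
  have hy : y.natDegree ≤ n := le_max_right _ _
  have hne : x.coeff n ≠ 0 ∨ y.coeff n ≠ 0 := by
    by_contra hcon
    push Not at hcon
    rcases max_choice x.natDegree y.natDegree with h | h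
    · have hxn : x.natDegree = n := h.symm
      have : x = 0 := by
        rw [← leadingCoeff_eq_zero, leadingCoeff, hxn]; exact hcon.1
      have hn0 : n = 0 := by rw [← hxn, this]; simp
      have : y = 0 := by
        have hy0 : y.natDegree = 0 := by omega
        rw [← leadingCoeff_eq_zero, leadingCoeff, hy0, ← hn0]; exact hcon.2
      exact h0 ⟨by assumption, this⟩
    · have hyn : y.natDegree = n := h.symm
      have : y = 0 := by
        rw [← leadingCoeff_eq_zero, leadingCoeff, hyn]; exact hcon.2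
      have hn0 : n = 0 := by rw [← hyn, this]; simp
      have : x = 0 := by
        have hx0 : x.natDegree = 0 := by omega
        rw [← leadingCoeff_eq_zero, leadingCoeff, hx0, ← hn0]; exact hcon.1
      exact h0 ⟨this, by assumption⟩
  have hc : (x^2 + x*y + C β * y^2).coeff (n+n) ≠ 0 := by
    rw [h_coeff β x y n hx hy]
    intro hz
    by_cases hyc : y.coeff n = 0
    · rw [hyc] at hz
      have hxc : x.coeff n ≠ 0 := by
        rcases hne with h | h
        · exact h
        · exact absurd hyc h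
      apply hxc
      have : x.coeff n * x.coeff n = 0 := by linear_combination hz
      exact mul_self_eq_zero.mp this
    · apply hβ (x.coeff n / y.coeff n)
      field_simp
      linear_combination hz
  have : (x^2 + x*y + C β * y^2).natDegree = n + n :=
    le_antisymm (h_natDegree_le β x y n hx hy) (le_natDegree_of_ne_zero hc)
  rw [this]
  exact ⟨n, rfl⟩

/-- soundness of the evenness certificate -/
lemma even_of_cert (β : k) (hβ : ∀ c : k, c * c + c + β ≠ 0) (N x y v w : k[X]) (hN : N ≠ 0) (hv : v ≠ 0)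
    (hw : w^2 = w) (h : x^2 + x*y + C β * y^2 = N * v^2 + w) : Even N.natDegree := by
  have hw' : w.natDegree = 0 := by
    have h1 : w * (w - 1) = 0 := by linear_combination hw
    rcases mul_eq_zero.mp h1 with h2 | h2
    · simp [h2]
    · have : w = 1 := by linear_combination h2
      simp [this]
  have hNv : (N * v^2).natDegree = N.natDegree + 2 * v.natDegree := by
    rw [natDegree_mul hN (pow_ne_zero 2 hv), natDegree_pow]
  by_cases hz : N.natDegree + 2 * v.natDegree = 0
  · have : N.natDegree = 0 := by omega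
    rw [this]; exact ⟨0, rfl⟩
  · have h1 : (N * v^2 + w).natDegree = N.natDegree + 2 * v.natDegree := by
      rw [natDegree_add_eq_left_of_natDegree_lt, hNv]
      rw [hNv, hw']; omega
    have h2 := h_even β hβ x y
    rw [h, h1] at h2
    rw [Nat.even_add] at h2
    exact h2.mpr ⟨v.natDegree, by ring⟩

end aniso

section degs
variable {k : Type*} [Field k]

/-- the parity encoding of `natDegree f ≤ natDegree g` -/
lemma parity_iff (f g : k[X]) (hf : f ≠ 0) (hg : g ≠ 0) :
    (X^2 * g^2 + X * f^2 ≠ 0) ∧ (Even (X^2 * g^2 + X * f^2).natDegree ↔ f.natDegree ≤ g.natDegree) := by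
  have h1 : (X^2 * g^2 : k[X]).natDegree = 2 + 2 * g.natDegree := by
    rw [natDegree_mul (pow_ne_zero 2 X_ne_zero) (pow_ne_zero 2 hg), natDegree_pow, natDegree_pow, natDegree_X]
  have h2 : (X * f^2 : k[X]).natDegree = 1 + 2 * f.natDegree := by
    rw [natDegree_mul X_ne_zero (pow_ne_zero 2 hf), natDegree_pow, natDegree_X]
  by_cases h : f.natDegree ≤ g.natDegree
  · have h3 : (X^2 * g^2 + X * f^2 : k[X]).natDegree = 2 + 2 * g.natDegree := by
      rw [natDegree_add_eq_left_of_natDegree_lt, h1]
      rw [h1, h2]; omega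
    refine ⟨?_, ?_⟩
    · intro h0; rw [h0, natDegree_zero] at h3; omega
    · rw [h3]
      exact ⟨fun _ => h, fun _ => ⟨1 + g.natDegree, by ring⟩⟩
  · have h3 : (X^2 * g^2 + X * f^2 : k[X]).natDegree = 1 + 2 * f.natDegree := by
      rw [natDegree_add_eq_right_of_natDegree_lt, h2]
      rw [h1, h2]; omega
    refine ⟨?_, ?_⟩
    · intro h0; rw [h0, natDegree_zero] at h3; omega
    · rw [h3]
      constructor
      · rintro ⟨r, hr⟩; omega
      · intro h'; exact absurd h' h
end degs

section pell
variable {k : Type*} [Field k]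

lemma pell_unique_aux (Δ A B A' B' : k[X]) (hΔ : 1 ≤ Δ.natDegree)
    (hA : A^2 - Δ*B^2 = 1) (hA' : A'^2 - Δ*B'^2 = 1) (hdeg : A.natDegree = A'.natDegree)
    (hpos : 1 ≤ A.natDegree) (hbig : 2 * A.natDegree ≤ (A*A' + Δ*B*B').natDegree) :
    A = A' ∨ A = -A' := by
  have hPQ : (A*A' - Δ*B*B') * (A*A' + Δ*B*B') = A^2 + A'^2 - 1 := by
    linear_combination (A'^2 - 1) * hA + (Δ * B^2) * hA'
  have hQ0 : A*A' + Δ*B*B' ≠ 0 := by
    intro h; rw [h, natDegree_zero] at hbig; omega
  have hub : (A^2 + A'^2 - 1).natDegree ≤ 2 * A.natDegree := by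
    have e1 : (A^2).natDegree ≤ 2 * A.natDegree := by rw [natDegree_pow]
    have e2 : (A'^2).natDegree ≤ 2 * A.natDegree := by rw [natDegree_pow, hdeg]
    have e3 : (1 : k[X]).natDegree ≤ 2 * A.natDegree := by simp
    exact (natDegree_sub_le_of_le (natDegree_add_le_of_degree_le e1 e2) e3).trans (by simp)
  have hP : (A*A' - Δ*B*B').natDegree = 0 := by
    by_cases hP0 : A*A' - Δ*B*B' = 0
    · rw [hP0, natDegree_zero]
    · have := natDegree_mul hP0 hQ0
      rw [hPQ] at this
      omega
  have hPE : (A*A' - Δ*B*B')^2 - Δ * (A*B' - A'*B)^2 = 1 := by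
    linear_combination A'^2 * hA - Δ * B'^2 * hA + hA'
  have hE : A*B' - A'*B = 0 := by
    by_contra hE
    have hΔ0 : Δ ≠ 0 := by intro h; rw [h, natDegree_zero] at hΔ; omega
    have h3 : (Δ * (A*B' - A'*B)^2).natDegree = Δ.natDegree + 2 * (A*B' - A'*B).natDegree := by
      rw [natDegree_mul hΔ0 (pow_ne_zero 2 hE), natDegree_pow]
    have h4 : Δ * (A*B' - A'*B)^2 = (A*A' - Δ*B*B')^2 - 1 := by linear_combination -hPE
    have h5 : ((A*A' - Δ*B*B')^2 - 1).natDegree ≤ 0 := by
      refine (natDegree_sub_le _ _).trans ?_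
      rw [natDegree_pow, hP]; simp
    rw [h4] at h3
    omega
  have hAP : A = A' * (A*A' - Δ*B*B') := by
    linear_combination (-A) * hA' - Δ * B' * hE
  have hP1 : (A*A' - Δ*B*B' - 1) * (A*A' - Δ*B*B' + 1) = 0 := by
    rw [hE] at hPE
    linear_combination hPE
  rcases mul_eq_zero.mp hP1 with h | h
  · left
    have : A*A' - Δ*B*B' = 1 := by linear_combination h
    rw [this, mul_one] at hAP; exact hAP
  · right
    have : A*A' - Δ*B*B' = -1 := by linear_combination h
    rw [this] at hAP; rw [hAP]; ring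

lemma pell_unique (h2 : (2:k) ≠ 0) (Δ A B A' B' : k[X]) (hΔ : 1 ≤ Δ.natDegree)
    (hA : A^2 - Δ*B^2 = 1) (hA' : A'^2 - Δ*B'^2 = 1) (hdeg : A.natDegree = A'.natDegree)
    (hpos : 1 ≤ A.natDegree) :
    A = A' ∨ A = -A' := by
  by_cases hbig : 2 * A.natDegree ≤ (A*A' + Δ*B*B').natDegree
  · exact pell_unique_aux Δ A B A' B' hΔ hA hA' hdeg hpos hbig
  · have hA0 : A ≠ 0 := by intro h; rw [h, natDegree_zero] at hpos; omega
    have hA0' : A' ≠ 0 := by intro h; rw [hdeg, h, natDegree_zero] at hpos; omega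
    refine pell_unique_aux Δ A B A' (-B') hΔ hA (by linear_combination hA') hdeg hpos ?_
    by_contra hcon
    have h22 : (2 : k[X]) ≠ 0 := by
      intro h
      apply h2
      have := congrArg (fun q : k[X] => q.coeff 0) h
      simpa using this
    have hsum : 2 * (A * A') = (A*A' + Δ*B*B') + (A*A' + Δ*B*(-B')) := by ring
    have h3 : (2 * (A*A')).natDegree = 2 * A.natDegree := by
      rw [natDegree_mul h22 (mul_ne_zero hA0 hA0'), natDegree_mul hA0 hA0', ← hdeg]
      have : (2 : k[X]).natDegree = 0 := by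
        have := natDegree_C (2:k)
        simp
      rw [this]; ring
    have h4 := natDegree_add_le (A*A' + Δ*B*B') (A*A' + Δ*B*(-B'))
    rw [← hsum, h3] at h4
    rcases le_max_iff.mp h4 with h | h <;> omega

end pell

section frob
variable {p : ℕ} [Fact p.Prime]

/-- a polynomial `T` over `ZMod p`, `p` odd, with the two Pell equations fixes every constant -/
lemma fixes_constants (hp2 : (2 : ZMod p) ≠ 0) (T Y Z : (ZMod p)[X]) (h1 : T^2 - (X^2-1)*Y^2 = 1)
    (h2 : (T+1)^2 - (X^2+2*X)*Z^2 = 1) (hT : T ≠ 1) (c : ZMod p) : T.eval c = c := by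
  have h22 : (C (2:ZMod p)) ≠ 0 := by rw [Ne, C_eq_zero]; exact hp2
  have hd1 : ((X^2 - 1 : (ZMod p)[X])).natDegree = 2 := by
    have : (X^2 - 1 : (ZMod p)[X]) = X^2 - C 1 := by simp
    rw [this]; exact natDegree_X_pow_sub_C
  have hd2 : ((X^2 + 2*X : (ZMod p)[X])).natDegree = 2 := by
    have : (X^2 + 2*X : (ZMod p)[X]) = X^2 + C 2 * X := by rw [C_ofNat]
    rw [this, natDegree_add_eq_left_of_natDegree_lt]
    · simp
    · rw [natDegree_C_mul_X _ hp2]; simp
  have hpos : 1 ≤ T.natDegree := by
    by_contra hcon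
    have hT0 : T.natDegree = 0 := by omega
    have key : ∀ (D W V : (ZMod p)[X]), D.natDegree = 2 → V.natDegree = 0 → V^2 - D*W^2 = 1 → V^2 = 1 := by
      intro D W V hD hV h
      by_cases hW : W = 0
      · rw [hW] at h; linear_combination h
      · exfalso
        have hD0 : D ≠ 0 := by intro h'; rw [h', natDegree_zero] at hD; omega
        have h3 : (D * W^2).natDegree = 2 + 2 * W.natDegree := by
          rw [natDegree_mul hD0 (pow_ne_zero 2 hW), natDegree_pow, hD]
        have h4 : D * W^2 = V^2 - 1 := by linear_combination -h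
        have h5 : (V^2-1).natDegree ≤ 0 := by
          refine (natDegree_sub_le _ _).trans ?_
          rw [natDegree_pow, hV]; simp
        rw [h4] at h3; omega
    have e1 := key _ Y T hd1 hT0 h1
    have e2 := key _ Z (T+1) hd2 (by
      have := natDegree_add_le T 1
      simp [hT0] at this; exact this) h2
    have e3 : (T - 1) * (T + 1) = 0 := by linear_combination e1
    rcases mul_eq_zero.mp e3 with h | h
    · exact hT (by linear_combination h)
    · have : T = -1 := by linear_combination h
      rw [this] at e2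
      simp at e2
  -- the translate
  have hA : (T.comp (X+1))^2 - (X^2+2*X) * (Y.comp (X+1))^2 = 1 := by
    have := congrArg (fun q : (ZMod p)[X] => q.comp (X+1)) h1
    simp only [sub_comp, mul_comp, pow_comp, X_comp, one_comp] at this
    linear_combination this
  have hX1 : (X + 1 : (ZMod p)[X]).natDegree = 1 := by
    have : (X + 1 : (ZMod p)[X]) = X + C 1 := by simp
    rw [this]; exact natDegree_X_add_C 1
  have hdegA : (T.comp (X+1)).natDegree = T.natDegree := by
    rw [natDegree_comp, hX1, mul_one]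
  have hdegT1 : (T+1).natDegree = T.natDegree := by
    rw [natDegree_add_eq_left_of_natDegree_lt]; simp; omega
  have hcomp : T.comp (X+1) = T + 1 := by
    rcases pell_unique hp2 _ _ _ _ _ (by rw [hd2]; norm_num) hA h2 (by rw [hdegA, hdegT1]) (by rw [hdegA]; exact hpos) with h | h
    · exact h
    · exfalso
      have l1 : (T.comp (X+1)).leadingCoeff = T.leadingCoeff := by
        rw [leadingCoeff_comp (by rw [hX1]; norm_num)]
        have : (X + 1 : (ZMod p)[X]).leadingCoeff = 1 := by
          have : (X + 1 : (ZMod p)[X]) = X + C 1 := by simp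
          rw [this]; exact leadingCoeff_X_add_C 1
        rw [this]; simp
      have l2 : (T+1).leadingCoeff = T.leadingCoeff := by
        rw [leadingCoeff_add_of_degree_lt']
        rw [degree_one]
        exact natDegree_pos_iff_degree_pos.mp hpos
      rw [h, leadingCoeff_neg, l2] at l1
      have hT0 : T ≠ 0 := by intro h'; rw [h', natDegree_zero] at hpos; omega
      have l3 : T.leadingCoeff ≠ 0 := leadingCoeff_ne_zero.mpr hT0
      have l4 : 2 * T.leadingCoeff = 0 := by linear_combination -l1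
      rcases mul_eq_zero.mp l4 with h' | h'
      · exact hp2 h'
      · exact l3 h'
  have hstep : ∀ a : ZMod p, T.eval (a+1) = T.eval a + 1 := by
    intro a
    have := congrArg (fun q : (ZMod p)[X] => q.eval a) hcomp
    simpa [eval_comp] using this
  have hsq1 : (T.eval 1)^2 = 1 := by
    have := congrArg (fun q : (ZMod p)[X] => q.eval 1) h1
    simpa using this
  have hsqm1 : (T.eval (-1))^2 = 1 := by
    have := congrArg (fun q : (ZMod p)[X] => q.eval (-1)) h1
    simpa using this
  have e1 := hstep 0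
  have e2 := hstep (-1)
  rw [zero_add] at e1
  rw [neg_add_cancel] at e2
  have h0 : T.eval 0 = 0 := by
    have : 2 * (2 * T.eval 0) = 0 := by
      rw [e1] at hsq1
      have e3 : T.eval (-1) = T.eval 0 - 1 := by linear_combination -e2
      rw [e3] at hsqm1
      linear_combination hsq1 - hsqm1
    rcases mul_eq_zero.mp this with h | h
    · exact absurd h hp2
    · rcases mul_eq_zero.mp h with h | h
      · exact absurd h hp2
      · exact h
  have hnat : ∀ n : ℕ, T.eval (n : ZMod p) = n := by
    intro n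
    induction n with
    | zero => simpa using h0
    | succ n ih => push_cast; rw [hstep, ih]
  have := hnat c.val
  rwa [ZMod.natCast_zmod_val] at this

/-- there is `β` with `z^2 - z + β` without roots -/
lemma exists_beta : ∃ β : ZMod p, ∀ c : ZMod p, c * c - c + β ≠ 0 := by
  have hns : ¬ Function.Surjective (fun c : ZMod p => c - c * c) := by
    intro hs
    have hi := Finite.injective_iff_surjective.mpr hs
    have : (0 : ZMod p) = 1 := hi (by simp)
    exact zero_ne_one this
  simp only [Function.Surjective, not_forall, not_exists] at hns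
  obtain ⟨β, hβ⟩ := hns
  refine ⟨β, fun c hc => hβ c ?_⟩
  linear_combination -hc

lemma coprime_frob (β : ZMod p) (hβ : ∀ c : ZMod p, c * c - c + β ≠ 0) :
    ∃ A B : (ZMod p)[X], A * (X^p - X) + B * (X^2 - X + C β) = 1 := by
  have hprod : (X^p - X : (ZMod p)[X]) = ∏ c : ZMod p, (X - C c) := by
    have hroots : (X^p - X : (ZMod p)[X]).roots = Finset.univ.val := by
      have := FiniteField.roots_X_pow_card_sub_X (ZMod p)
      rwa [ZMod.card] at this
    have hdeg := FiniteField.X_pow_card_sub_X_natDegree_eq (ZMod p) (Fact.out (p := p.Prime)).one_lt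
    have hmonic : (X^p - X : (ZMod p)[X]).Monic := by
      apply monic_X_pow_sub
      rw [degree_X]
      exact_mod_cast (Fact.out (p := p.Prime)).one_lt
    have := prod_multiset_X_sub_C_of_monic_of_roots_card_eq hmonic (by
      rw [hroots, hdeg]; simp [ZMod.card])
    rw [← this, hroots]
    rfl
  have hcop : IsCoprime (X^p - X : (ZMod p)[X]) (X^2 - X + C β) := by
    rw [hprod]
    apply IsCoprime.prod_left
    intro c _
    rw [(irreducible_X_sub_C c).coprime_iff_not_dvd, dvd_iff_isRoot]
    intro h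
    apply hβ c
    have : (X^2 - X + C β : (ZMod p)[X]).eval c = 0 := h
    simp at this
    linear_combination this
  obtain ⟨A, B, h⟩ := hcop
  exact ⟨A, B, h⟩

lemma frob_pell (hp : p ≠ 2) : ∃ Y Z : (ZMod p)[X], (X^p)^2 - (X^2-1)*Y^2 = 1 ∧ (X^p+1)^2 - (X^2+2*X)*Z^2 = 1 := by
  have hodd : p % 2 = 1 := (Fact.out (p := p.Prime)).eq_two_or_odd.resolve_left hp
  obtain ⟨m, hm⟩ : ∃ m, p = 2 * m + 1 := ⟨p / 2, by omega⟩
  have e : ∀ D : (ZMod p)[X], D * (D^m)^2 = D^p := by
    intro D
    rw [← pow_mul, ← pow_succ']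
    congr 1
    omega
  refine ⟨(X^2-1)^m, (X^2+2*X)^m, ?_, ?_⟩
  · rw [e, sub_pow_char (p := p), one_pow]; ring
  · rw [e]
    have : (X^2+2*X : (ZMod p)[X]) = (X+1)^2 - 1 := by ring
    rw [this, sub_pow_char (p := p), one_pow, ← pow_mul, mul_comm 2 p, pow_mul, add_pow_char (p := p), one_pow]
    ring

end frob



lemma zmod2_sq : ∀ z : ZMod 2, z * z = z := by decide

lemma zmod2_beta : ∀ c : ZMod 2, c * c - c + 1 ≠ 0 := by decide

section norm
variable {p : ℕ} [Fact p.Prime]

lemma disc_ne (β : ZMod p) (hβ : ∀ c : ZMod p, c * c - c + β ≠ 0) : 4 * β ≠ 1 := by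
  intro h
  apply hβ (2 * β)
  linear_combination β * h

lemma norm_surj (β : ZMod p) (hβ : ∀ c : ZMod p, c * c - c + β ≠ 0) (ν : ZMod p) :
    ∃ a b : ZMod p, a*a + a*b + β*(b*b) = ν := by
  by_cases hp : p = 2
  · subst hp
    refine ⟨ν, 0, ?_⟩
    rw [zmod2_sq ν]; ring
  · have hodd : p % 2 = 1 := (Fact.out (p := p.Prime)).eq_two_or_odd.resolve_left hp
    have h2 : (2 : ZMod p) ≠ 0 := by
      intro h
      have : ((2:ℕ) : ZMod p) = 0 := by exact_mod_cast h
      rw [ZMod.natCast_eq_zero_iff] at this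
      have := (Nat.prime_dvd_prime_iff_eq (Fact.out (p := p.Prime)) Nat.prime_two).mp this
      exact hp this
    have hγ : 4 * β - 1 ≠ 0 := sub_ne_zero.mpr (disc_ne β hβ)
    obtain ⟨s, b, hsb⟩ := FiniteField.exists_root_sum_quadratic (R := ZMod p)
      (f := X^2 - C (4*ν)) (g := C (4*β-1) * X^2) (degree_X_pow_sub_C (by norm_num) _)
      (by rw [degree_C_mul_X_pow _ hγ]; rfl) (by rw [ZMod.card]; exact hodd)
    simp only [eval_sub, eval_pow, eval_X, eval_C, eval_mul] at hsb
    refine ⟨(s - b)/2, b, ?_⟩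
    field_simp
    linear_combination hsb

lemma norm_trace (β : ZMod p) (hβ : ∀ c : ZMod p, c * c - c + β ≠ 0) (ν : ZMod p) (hν : ν ≠ 0) :
    ∃ a b : ZMod p, a*a + a*b + β*(b*b) = ν ∧ 2*a+b ≠ 0 := by
  have hβ0 : β ≠ 0 := by
    have := hβ 0; simpa using this
  obtain ⟨a, b, hab⟩ := norm_surj β hβ (ν/β)
  have hab' : β * (a*a + a*b + β*(b*b)) = ν := by rw [hab]; field_simp
  by_cases h1 : 2 * (-(β*b)) + (a+b) = 0
  · refine ⟨a + β*b, -a, ?_, ?_⟩
    · linear_combination hab'
    · intro h2
      have hb : b * (1 - 4*β) = 0 := by linear_combination h1 - h2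
      have h4 : (1 - 4*β) ≠ 0 := fun h => disc_ne β hβ (by linear_combination -h)
      have hb0 : b = 0 := (mul_eq_zero.mp hb).resolve_right h4
      have ha0 : a = 0 := by rw [hb0] at h1; linear_combination h1
      apply hν
      rw [← hab', ha0, hb0]; ring
  · refine ⟨-(β*b), a+b, ?_, h1⟩
    linear_combination hab'

end norm

section pig
variable {k : Type*} [Field k]

/-- approximate root -/
lemma approx_root (S G : k[X]) (m : ℕ) (hS : S.natDegree = m) (hS0 : S ≠ 0) (hG : G.degree < (2*m : ℕ)) :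
    ∃ R : k[X], (R^2 - S*R + G).degree < (m:ℕ) := by
  have key : ∀ j : ℕ, j ≤ m → ∃ R : k[X], R.degree < (m : ℕ) ∧ (R^2 - S*R+G).degree < (2*m - j : ℕ) := by
    intro j
    induction j with
    | zero => 
      intro _
      refine ⟨0, by simp, ?_⟩
      simpa using hG
    | succ j ih =>
      intro hj
      obtain ⟨R, hR, hF⟩ := ih (by omega)
      set F := R^2 - S*R+G with hFdef
      set d := 2*m - (j+1) with hd
      set e : k[X] := C (F.coeff d / S.leadingCoeff) * X^(d - m) with he
      have hedeg : e.degree ≤ ((d - m : ℕ) : WithBot ℕ) := degree_C_mul_X_pow_le _ _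
      refine ⟨R + e, ?_, ?_⟩
      · refine (degree_add_le _ _).trans_lt (max_lt hR (hedeg.trans_lt ?_))
        exact_mod_cast (by omega : d - m < m)
      · have hexp : (R+e)^2 - S*(R+e) + G = (F - e * S) + (2*R*e + e^2) := by rw [hFdef]; ring
        rw [hexp]
        refine (degree_add_le _ _).trans_lt (max_lt ?_ ?_)
        · -- leading term cancels
          rw [degree_lt_iff_coeff_zero]
          intro i hi
          have hi' : d ≤ i := by exact_mod_cast hi
          rcases eq_or_lt_of_le hi' with h | h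
          · subst h
            rw [coeff_sub]
            have : (e*S).coeff d = F.coeff d := by
              have e1 : e * S = C (F.coeff d / S.leadingCoeff) * (S * X^(d-m)) := by rw [he]; ring
              rw [e1, coeff_C_mul, coeff_mul_X_pow']
              rw [if_pos (by omega)]
              have : d - (d - m) = S.natDegree := by omega
              rw [this]
              have hl : S.leadingCoeff ≠ 0 := leadingCoeff_ne_zero.mpr hS0
              rw [← leadingCoeff]
              field_simp
            rw [this, sub_self]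
          · rw [coeff_sub]
            have h1 : F.coeff i = 0 := by
              apply coeff_eq_zero_of_degree_lt
              refine hF.trans_le ?_
              exact_mod_cast (by omega : 2*m - j ≤ i)
            have h2 : (e*S).coeff i = 0 := by
              apply coeff_eq_zero_of_degree_lt
              refine (degree_mul_le _ _).trans_lt ?_
              have h3 : S.degree ≤ (m : ℕ) := by rw [← hS]; exact degree_le_natDegree
              refine (add_le_add hedeg h3).trans_lt ?_
              exact_mod_cast (by omega : d - m + m < i)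
            rw [h1, h2, sub_zero]
        · refine (degree_add_le _ _).trans_lt (max_lt ?_ ?_)
          · have h1 : (2 * R * e).degree ≤ R.degree + e.degree := by
              rw [mul_assoc]
              have : (2 : k[X]) = C 2 := by rw [C_ofNat]
              rw [this]
              refine (degree_mul_le _ _).trans ?_
              refine (add_le_add degree_C_le (degree_mul_le _ _)).trans ?_
              rw [zero_add]
            refine h1.trans_lt ?_
            have hd' : ((d:ℕ) : WithBot ℕ) = (m : ℕ) + ((d - m : ℕ) : WithBot ℕ) := by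
              exact_mod_cast (by omega : d = m + (d-m))
            rw [hd']
            by_cases he0 : e = 0
            · rw [he0, degree_zero, WithBot.add_bot]
              exact_mod_cast WithBot.bot_lt_coe _
            · exact WithBot.add_lt_add_of_lt_of_le (by rw [Ne, degree_eq_bot]; exact he0) hR hedeg
          · have h1 : (e^2).degree ≤ ((2 * (d - m) : ℕ) : WithBot ℕ) := by
              refine (degree_pow_le _ _).trans ?_
              rw [two_nsmul]
              refine (add_le_add hedeg hedeg).trans ?_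
              exact_mod_cast (by omega : (d - m) + (d-m) ≤ 2 * (d-m))
            refine h1.trans_lt ?_
            exact_mod_cast (by omega : 2 * (d-m) < d)
  obtain ⟨R, _, hR⟩ := key m le_rfl
  refine ⟨R, ?_⟩
  have : 2 * m - m = m := by omega
  rwa [this] at hR


/-- reduction steps: arbitrarily long vectors with small value -/
lemma long_vectors (S G : k[X]) (m : ℕ) (hm : 1 ≤ m) (hS : S.natDegree = m) (hS0 : S ≠ 0) (hG : G.degree < (2*m : ℕ))
    (hno : ∀ u v : k[X], v ≠ 0 → u^2 - S*u*v + G*v^2 ≠ 0) :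
    ∀ n : ℕ, ∃ u v u' v' : k[X], (u^2 - S*u*v + G*v^2).degree < (m:ℕ) ∧ (u'^2 - S*u'*v' + G*v'^2).degree < (m:ℕ)
      ∧ (u*v' - u'*v)^2 = 1 ∧ v' ≠ 0 ∧ v.natDegree ≤ v'.natDegree ∧ n ≤ v'.natDegree := by
  have hdisc : (S^2 - 4*G).degree = ((2*m : ℕ) : WithBot ℕ) := by
    have h1 : (S^2).degree = ((2*m : ℕ) : WithBot ℕ) := by
      rw [degree_pow, degree_eq_natDegree hS0, hS]; simp
    rw [degree_sub_eq_left_of_degree_lt, h1]
    rw [h1]
    have : (4 : k[X]) = C 4 := by rw [C_ofNat]
    rw [this]
    refine (degree_mul_le _ _).trans_lt ?_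
    refine (add_le_add degree_C_le le_rfl).trans_lt ?_
    rw [zero_add]; exact hG
  intro n
  induction n with
  | zero =>
    obtain ⟨R, hR⟩ := approx_root S G m hS hS0 hG
    refine ⟨1, 0, R, 1, ?_, ?_, ?_, one_ne_zero, ?_, Nat.zero_le _⟩
    · simp
      exact_mod_cast hm
    · convert hR using 2; ring
    · ring
    · simp
  | succ n ih =>
    obtain ⟨u, v, u', v', h1, h2, hdet, hv', hle, hn⟩ := ih
    set A := u^2 - S*u*v + G*v^2 with hA
    set A' := u'^2 - S*u'*v' + G*v'^2 with hA'
    set B := 2*u*u' - S*(u*v'+u'*v) + 2*G*v*v' with hB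
    have hA0 : A' ≠ 0 := hno u' v' hv'
    have hB2 : B^2 = (S^2-4*G) + 4*(A*A') := by
      have : B^2 - 4*(A*A') = (S^2-4*G)*(u*v'-u'*v)^2 := by rw [hA, hA', hB]; ring
      rw [hdet] at this
      linear_combination this
    have hBdeg : B.natDegree = m := by
      have h3 : (B^2).degree = ((2*m:ℕ) : WithBot ℕ) := by
        rw [hB2, degree_add_eq_left_of_degree_lt, hdisc]
        rw [hdisc]
        have : (4 : k[X]) = C 4 := by rw [C_ofNat]
        rw [this]
        refine (degree_mul_le _ _).trans_lt ?_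
        refine (add_le_add degree_C_le (degree_mul_le _ _)).trans_lt ?_
        rw [zero_add]
        have : ((2*m:ℕ) : WithBot ℕ) = (m:ℕ) + (m:ℕ) := by exact_mod_cast (by omega : 2*m = m+m)
        rw [this]
        exact WithBot.add_lt_add_of_lt_of_le (by rw [Ne, degree_eq_bot]; exact hA0) h1 h2.le
      have h4 : (B^2).natDegree = 2*m := natDegree_eq_of_degree_eq_some h3
      rw [natDegree_pow] at h4
      omega
    have hA'deg : A'.natDegree < m := by
      rw [degree_eq_natDegree hA0] at h2
      exact_mod_cast h2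
    -- division
    have hdiv := EuclideanDomain.div_add_mod B A'
    set Q := B / A' with hQ
    set r := B % A' with hr
    have hrdeg : r.degree < A'.degree := EuclideanDomain.mod_lt B hA0
    have hB0 : B ≠ 0 := by intro h; rw [h, natDegree_zero] at hBdeg; omega
    have hle' : A'.degree ≤ B.degree := by
      rw [degree_eq_natDegree hA0, degree_eq_natDegree hB0, hBdeg]
      exact_mod_cast hA'deg.le
    have hQ0 : Q ≠ 0 := by
      rw [hQ, Ne, Polynomial.div_eq_zero_iff hA0]
      exact not_lt.mpr hle'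
    have hQdeg : A'.natDegree + Q.natDegree = m := by
      have h5 := degree_add_div hA0 hle'
      rw [degree_eq_natDegree hA0, degree_eq_natDegree hB0, hBdeg, ← hQ, degree_eq_natDegree hQ0] at h5
      exact_mod_cast h5
    have hQr : (Q * r).degree < (m : ℕ) := by
      rw [degree_mul, degree_eq_natDegree hQ0]
      have : ((m:ℕ) : WithBot ℕ) = (Q.natDegree : WithBot ℕ) + (A'.natDegree : WithBot ℕ) := by
        exact_mod_cast (by omega : m = Q.natDegree + A'.natDegree)
      rw [this, ← degree_eq_natDegree hA0]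
      exact WithBot.add_lt_add_left (by simp) hrdeg
    have hQv : (Q * v').natDegree = Q.natDegree + v'.natDegree := natDegree_mul hQ0 hv'
    have hv'' : (v - Q*v').natDegree = Q.natDegree + v'.natDegree := by
      rw [natDegree_sub_eq_right_of_natDegree_lt, hQv]
      rw [hQv]; omega
    refine ⟨u', v', u - Q*u', v - Q*v', h2, ?_, ?_, ?_, ?_, ?_⟩
    · have : (u - Q*u')^2 - S*(u - Q*u')*(v - Q*v') + G*(v - Q*v')^2 = A - Q*r := by
        have hr' : r = B - A' * Q := by rw [← hdiv]; ring
        rw [hr', hA, hA', hB]; ring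
      rw [this]
      exact (degree_sub_le _ _).trans_lt (max_lt h1 hQr)
    · rw [← hdet]; ring
    · intro h; rw [h, natDegree_zero] at hv''; omega
    · rw [hv'']; omega
    · rw [hv'']; omega

lemma finite_degree_lt [Finite k] (m : ℕ) : {P : k[X] | P.degree < (m:ℕ)}.Finite := by
  have h1 : ((degreeLT k m : Submodule k k[X]) : Set k[X]) = {P : k[X] | P.degree < (m:ℕ)} := by
    ext P; simp [mem_degreeLT]
  rw [← h1]
  have : Finite (degreeLT k m) := Finite.of_equiv _ (degreeLTEquiv k m).symm.toEquiv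
  exact Set.toFinite _

/-- the Pell-type equation -/
lemma pell_exists [Finite k] (S G : k[X]) (m : ℕ) (hm : 1 ≤ m) (hS : S.natDegree = m) (hS0 : S ≠ 0) (hG : G.degree < (2*m : ℕ)) :
    ∃ u v w : k[X], v ≠ 0 ∧ w^2 = w ∧ u^2 - S*u*v + G*v^2 = w := by
  by_cases hno : ∀ u v : k[X], v ≠ 0 → u^2 - S*u*v + G*v^2 ≠ 0
  swap
  · push Not at hno
    obtain ⟨u, v, hv, h⟩ := hno
    exact ⟨u, v, 0, hv, by ring, h⟩
  have hlong := long_vectors S G m hm hS hS0 hG hno
  let D : Set ℕ := {d | ∃ u v : k[X], v ≠ 0 ∧ (u^2 - S*u*v + G*v^2).degree < (m:ℕ) ∧ v.natDegree = d}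
  have hD : D.Infinite := by
    apply Set.infinite_of_not_bddAbove
    rintro ⟨M, hM⟩
    obtain ⟨u, v, u', v', h1, h2, h3, h4, h5, h6⟩ := hlong (M+1)
    have : v'.natDegree ∈ D := ⟨u', v', h4, h2, rfl⟩
    have := hM this
    omega
  choose! U V hV hdeg hnd using (fun d (hd : d ∈ D) => hd : ∀ d, d ∈ D → ∃ u v : k[X], v ≠ 0 ∧ (u^2 - S*u*v + G*v^2).degree < (m:ℕ) ∧ v.natDegree = d)
  let q : ℕ → k[X] := fun d => (U d)^2 - S*(U d)*(V d) + G*(V d)^2
  have hq0 : ∀ d ∈ D, q d ≠ 0 := fun d hd => hno _ _ (hV d hd)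
  let T : Set k[X] := {P : k[X] | P.degree < (m:ℕ)}
  have hT : T.Finite := finite_degree_lt m
  obtain ⟨d1, hd1, d2, hd2, hne, heq⟩ := hD.exists_ne_map_eq_of_mapsTo
    (f := fun d => (q d, (U d) % (q d), (V d) % (q d))) (t := T ×ˢ (T ×ˢ T)) (by
      intro d hd
      refine ⟨hdeg d hd, ?_, ?_⟩
      · exact (EuclideanDomain.mod_lt (U d) (hq0 d hd)).trans (hdeg d hd)
      · exact (EuclideanDomain.mod_lt (V d) (hq0 d hd)).trans (hdeg d hd)) (hT.prod (hT.prod hT))
  simp only [Prod.mk.injEq] at heq
  obtain ⟨e1, e2, e3⟩ := heq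
  rw [← e1] at e2 e3
  set ν := q d1 with hν
  have hν0 : ν ≠ 0 := hq0 d1 hd1
  have c1 : ν ∣ U d2 - U d1 := by
    have a1 := EuclideanDomain.div_add_mod (U d1) ν
    have a2 := EuclideanDomain.div_add_mod (U d2) ν
    refine ⟨U d2 / ν - U d1 / ν, ?_⟩
    rw [← e2] at a2
    linear_combination a1 - a2
  have c2 : ν ∣ V d2 - V d1 := by
    have a1 := EuclideanDomain.div_add_mod (V d1) ν
    have a2 := EuclideanDomain.div_add_mod (V d2) ν
    refine ⟨V d2 / ν - V d1 / ν, ?_⟩
    rw [← e3] at a2
    linear_combination a1 - a2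
  obtain ⟨x, hx⟩ := c1
  obtain ⟨y, hy⟩ := c2
  have hq1 : (U d1)^2 - S*(U d1)*(V d1) + G*(V d1)^2 = ν := rfl
  have hq2 : (U d2)^2 - S*(U d2)*(V d2) + G*(V d2)^2 = ν := e1.symm
  -- U' = (u1 u2 - S u1 v2 + G v1 v2)/ν, V' = (u2 v1 - u1 v2)/ν
  refine ⟨1 + (U d1)*x - S*(U d1)*y + G*(V d1)*y, x * V d1 - U d1 * y, 1, ?_, by ring, ?_⟩
  · intro h0
    have h1 : U d2 * V d1 = U d1 * V d2 := by
      have : U d2 * V d1 - U d1 * V d2 = ν * (x * V d1 - U d1 * y) := by
        linear_combination (V d1) * hx - (U d1) * hy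
      rw [h0] at this
      linear_combination this
    have h2 : ν * ((V d2)^2 - (V d1)^2) = 0 := by
      linear_combination (-(V d2)^2) * hq1 + (V d1)^2 * hq2 + (-(U d2 * V d1 + U d1 * V d2) + S * V d1 * V d2) * h1
    have h3 : (V d2)^2 = (V d1)^2 := by
      have := (mul_eq_zero.mp h2).resolve_left hν0
      linear_combination this
    have h4 : (V d2).natDegree = (V d1).natDegree := by
      have := congrArg natDegree h3
      rw [natDegree_pow, natDegree_pow] at this
      omega
    rw [hnd d1 hd1, hnd d2 hd2] at h4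
    exact hne h4.symm
  · have key : ν^2 * ((1 + (U d1)*x - S*(U d1)*y + G*(V d1)*y)^2 - S*(1 + (U d1)*x - S*(U d1)*y + G*(V d1)*y)*(x * V d1 - U d1 * y) + G*(x * V d1 - U d1 * y)^2) = ν^2 * 1 := by
      have b1 : ν * (1 + (U d1)*x - S*(U d1)*y + G*(V d1)*y) = U d1 * U d2 - S * U d1 * V d2 + G * V d1 * V d2 := by
        linear_combination (-(U d1)) * hx + (S * U d1 - G * V d1) * hy - hq1
      have b2 : ν * (x * V d1 - U d1 * y) = U d2 * V d1 - U d1 * V d2 := by
        linear_combination (-(V d1)) * hx + (U d1) * hy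
      calc _ = (ν * (1 + (U d1)*x - S*(U d1)*y + G*(V d1)*y))^2 - S*(ν * (1 + (U d1)*x - S*(U d1)*y + G*(V d1)*y))*(ν * (x * V d1 - U d1 * y)) + G*(ν * (x * V d1 - U d1 * y))^2 := by ring
        _ = ((U d1)^2 - S*(U d1)*(V d1) + G*(V d1)^2) * ((U d2)^2 - S*(U d2)*(V d2) + G*(V d2)^2) := by rw [b1, b2]; ring
        _ = ν^2 * 1 := by rw [hq1, hq2]; ring
    exact mul_left_cancel₀ (pow_ne_zero 2 hν0) key

end pig

section cert
variable {p : ℕ} [Fact p.Prime]

/-- completeness of the evenness certificate -/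
lemma cert_of_even (β : ZMod p) (hβ : ∀ c : ZMod p, c * c - c + β ≠ 0) (N : (ZMod p)[X]) (hN : N ≠ 0)
    (hev : Even N.natDegree) : ∃ x y v w : (ZMod p)[X], v ≠ 0 ∧ w^2 = w ∧ x^2 + x*y + C β * y^2 = N * v^2 + w := by
  obtain ⟨m, hm⟩ := hev
  have hlc : N.leadingCoeff ≠ 0 := leadingCoeff_ne_zero.mpr hN
  obtain ⟨a, b, hab, htr⟩ := norm_trace β hβ N.leadingCoeff hlc
  rcases Nat.eq_zero_or_pos m with h0 | hpos
  · subst h0
    have hNc : N = C N.leadingCoeff := by
      have h1 : N.natDegree = 0 := by omega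
      rw [leadingCoeff, h1]
      exact eq_C_of_natDegree_eq_zero h1
    refine ⟨C a, C b, 1, 0, one_ne_zero, by ring, ?_⟩
    rw [hNc, ← hab]
    simp only [C_add, C_mul]; ring
  · set S : (ZMod p)[X] := C (2*a+b) * X^m with hS
    set G : (ZMod p)[X] := (C a * X^m)^2 + (C a * X^m)*(C b*X^m) + C β * (C b * X^m)^2 - N with hG
    have hSdeg : S.natDegree = m := natDegree_C_mul_X_pow m _ htr
    have hS0 : S ≠ 0 := by intro h; rw [h, natDegree_zero] at hSdeg; omega
    have hGdeg : G.degree < (2*m:ℕ) := by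
      have e : G = C N.leadingCoeff * X^(2*m) - N := by
        rw [hG, ← hab]; simp only [C_add, C_mul]; ring
      have h2 : N.degree = ((2*m:ℕ) : WithBot ℕ) := by
        rw [degree_eq_natDegree hN, hm]; congr 1; ring
      rw [e, ← h2, ← neg_sub, degree_neg]
      apply degree_sub_lt_left
      · rw [h2, degree_C_mul_X_pow _ hlc]
      · exact hN
      · rw [leadingCoeff_C_mul_X_pow]
    obtain ⟨u, v, w, hv, hw, h⟩ := pell_exists S G m hpos hSdeg hS0 hGdeg
    refine ⟨u - v * (C a * X^m), -(v * (C b * X^m)), v, w, hv, hw, ?_⟩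
    rw [← h, hS, hG]
    simp only [C_add, C_mul, C_ofNat]
    ring

end cert


lemma final_iff {p : ℕ} [Fact p.Prime] (β : ZMod p) (hβ : ∀ c : ZMod p, c * c - c + β ≠ 0) (f g : (ZMod p)[X])
    (hf : f ≠ 0) (hg : g ≠ 0) (h : f.natDegree ≤ g.natDegree) :
    ∃ x y v w : (ZMod p)[X], v ≠ 0 ∧ w^2 = w ∧ x^2 + x*y + C β * y^2 = (X^2*g^2 + X*f^2) * v^2 + w := by
  obtain ⟨h1, h2⟩ := parity_iff f g hf hg
  exact cert_of_even β hβ _ h1 (h2.mpr h)

lemma final_iff' {p : ℕ} [Fact p.Prime] (β : ZMod p) (hβ : ∀ c : ZMod p, c * c - c + β ≠ 0) (f g : (ZMod p)[X])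
    (hf : f ≠ 0) (hg : g ≠ 0) (x y v w : (ZMod p)[X]) (hv : v ≠ 0) (hw : w^2 = w)
    (h : x^2 + x*y + C β * y^2 = (X^2*g^2 + X*f^2) * v^2 + w) : f.natDegree ≤ g.natDegree := by
  obtain ⟨h1, h2⟩ := parity_iff f g hf hg
  refine h2.mp (even_of_cert β ?_ _ x y v w h1 hv hw h)
  intro c hc
  apply hβ (-c)
  linear_combination hc

end Helpers

/-- There is one existential formula in the language of rings with a constant t (a finite disjunction of polynomial equation systems plus one inequation) that defines deg f = deg g in F_p[t] for every prime p. -/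
theorem result :
    ∃ (n : ℕ) (D : Finset (Finset (MvPolynomial (Fin 3 ⊕ Fin n) ℤ) × MvPolynomial (Fin 3 ⊕ Fin n) ℤ)),
      ∀ p : ℕ, p.Prime → ∀ f g : Polynomial (ZMod p),
        (f.degree = g.degree ↔
          ∃ y : Fin n → Polynomial (ZMod p), ∃ d ∈ D,
            (∀ P ∈ d.1, MvPolynomial.aeval (Sum.elim ![Polynomial.X, f, g] y) P = 0) ∧
            MvPolynomial.aeval (Sum.elim ![Polynomial.X, f, g] y) d.2 ≠ 0) := by
  classical
  let t : MvPolynomial (Fin 3 ⊕ Fin 15) ℤ := MvPolynomial.X (Sum.inl 0)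
  let f' : MvPolynomial (Fin 3 ⊕ Fin 15) ℤ := MvPolynomial.X (Sum.inl 1)
  let g' : MvPolynomial (Fin 3 ⊕ Fin 15) ℤ := MvPolynomial.X (Sum.inl 2)
  let V : Fin 15 → MvPolynomial (Fin 3 ⊕ Fin 15) ℤ := fun i => MvPolynomial.X (Sum.inr i)
  let d0 : Finset (MvPolynomial (Fin 3 ⊕ Fin 15) ℤ) × MvPolynomial (Fin 3 ⊕ Fin 15) ℤ := ({f', g'}, 1)
  let d1 : Finset (MvPolynomial (Fin 3 ⊕ Fin 15) ℤ) × MvPolynomial (Fin 3 ⊕ Fin 15) ℤ :=
    ({V 0 * V 1 - 1, (V 2)^2 - (t^2-1)*(V 3)^2 - 1, (V 2 + 1)^2 - (t^2+2*t)*(V 4)^2 - 1,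
      V 5 * (V 2 - t) + V 6 * (t^2 - t + V 0) - 1,
      (V 10)^2 - V 10, (V 7)^2 + V 7 * V 8 + V 0 * (V 8)^2 - ((t^2*g'^2 + t*f'^2) * (V 9)^2 + V 10),
      (V 14)^2 - V 14, (V 11)^2 + V 11 * V 12 + V 0 * (V 12)^2 - ((t^2*f'^2 + t*g'^2) * (V 13)^2 + V 14)},
      2 * f' * g' * (V 2 - 1) * V 9 * V 13)
  let d2 : Finset (MvPolynomial (Fin 3 ⊕ Fin 15) ℤ) × MvPolynomial (Fin 3 ⊕ Fin 15) ℤ :=
    ({2, V 0 - 1,
      (V 10)^2 - V 10, (V 7)^2 + V 7 * V 8 + V 0 * (V 8)^2 - ((t^2*g'^2 + t*f'^2) * (V 9)^2 + V 10),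
      (V 14)^2 - V 14, (V 11)^2 + V 11 * V 12 + V 0 * (V 12)^2 - ((t^2*f'^2 + t*g'^2) * (V 13)^2 + V 14)},
      f' * g' * V 9 * V 13)
  refine ⟨15, {d0, d1, d2}, ?_⟩
  intro p hp f g
  have : Fact p.Prime := ⟨hp⟩
  constructor
  · intro hdeg
    by_cases hf : f = 0
    · have hg : g = 0 := by
        rw [hf, Polynomial.degree_zero] at hdeg
        exact Polynomial.degree_eq_bot.mp hdeg.symm
      refine ⟨0, d0, by simp, ?_, ?_⟩
      · simp [d0, f', g', hf, hg]
      · simp [d0]
    · have hg : g ≠ 0 := by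
        intro hg
        rw [hg, Polynomial.degree_zero] at hdeg
        exact hf (Polynomial.degree_eq_bot.mp hdeg)
      have hnd : f.natDegree = g.natDegree := Polynomial.natDegree_eq_of_degree_eq hdeg
      by_cases hp2 : p = 2
      · subst hp2
        have hβ : ∀ c : ZMod 2, c * c - c + 1 ≠ 0 := zmod2_beta
        obtain ⟨x1, y1, v1, w1, hv1, hw1, h1⟩ := final_iff (1 : ZMod 2) hβ f g hf hg hnd.le
        obtain ⟨x2, y2, v2, w2, hv2, hw2, h2⟩ := final_iff (1 : ZMod 2) hβ g f hg hf hnd.ge
        have h20 : (2 : Polynomial (ZMod 2)) = 0 := by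
          have : (2 : Polynomial (ZMod 2)) = Polynomial.C 2 := by rw [Polynomial.C_ofNat]
          rw [this, show (2 : ZMod 2) = 0 from rfl, Polynomial.C_0]
        simp only [Polynomial.C_1] at h1 h2
        refine ⟨![1, 0, 0, 0, 0, 0, 0, x1, y1, v1, w1, x2, y2, v2, w2], d2, by simp, ?_, ?_⟩
        · simp only [d2, Finset.forall_mem_insert, Finset.mem_singleton, forall_eq]
          refine ⟨?_, ?_, ?_, ?_, ?_, ?_⟩
          · simpa [V, t, f', g'] using h20
          · simp [V, t, f', g']
          · simp only [V, t, f', g', map_sub, map_add, map_mul, map_pow, MvPolynomial.aeval_X, Sum.elim_inl, Sum.elim_inr]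
            change w1^2 - w1 = 0
            linear_combination hw1
          · simp only [V, t, f', g', map_sub, map_add, map_mul, map_pow, MvPolynomial.aeval_X, Sum.elim_inl, Sum.elim_inr]
            change x1^2 + x1*y1 + 1*y1^2 - ((Polynomial.X^2*g^2+Polynomial.X*f^2)*v1^2+w1) = 0
            linear_combination h1
          · simp only [V, t, f', g', map_sub, map_add, map_mul, map_pow, MvPolynomial.aeval_X, Sum.elim_inl, Sum.elim_inr]
            change w2^2 - w2 = 0
            linear_combination hw2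
          · simp only [V, t, f', g', map_sub, map_add, map_mul, map_pow, MvPolynomial.aeval_X, Sum.elim_inl, Sum.elim_inr]
            change x2^2 + x2*y2 + 1*y2^2 - ((Polynomial.X^2*f^2+Polynomial.X*g^2)*v2^2+w2) = 0
            linear_combination h2
        · simp only [d2, V, t, f', g', map_sub, map_add, map_mul, map_pow, MvPolynomial.aeval_X, Sum.elim_inl, Sum.elim_inr]
          change f * g * v1 * v2 ≠ 0
          exact mul_ne_zero (mul_ne_zero (mul_ne_zero hf hg) hv1) hv2
      · obtain ⟨β, hβ⟩ := exists_beta (p := p)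
        have h2ne : (2 : ZMod p) ≠ 0 := by
          intro h
          have h' : ((2:ℕ) : ZMod p) = 0 := by exact_mod_cast h
          rw [ZMod.natCast_eq_zero_iff] at h'
          exact hp2 ((Nat.prime_dvd_prime_iff_eq hp Nat.prime_two).mp h')
        have hβ0 : β ≠ 0 := by
          have := hβ 0; simpa using this
        obtain ⟨x1, y1, v1, w1, hv1, hw1, h1⟩ := final_iff β hβ f g hf hg hnd.le
        obtain ⟨x2, y2, v2, w2, hv2, hw2, h2⟩ := final_iff β hβ g f hg hf hnd.ge
        obtain ⟨Y, Z, hY, hZ⟩ := frob_pell (p := p) hp2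
        obtain ⟨A, B, hAB⟩ := coprime_frob β hβ
        refine ⟨![Polynomial.C β, Polynomial.C β⁻¹, Polynomial.X^p, Y, Z, A, B, x1, y1, v1, w1, x2, y2, v2, w2], d1, by simp, ?_, ?_⟩
        · simp only [d1, Finset.forall_mem_insert, Finset.mem_singleton, forall_eq]
          refine ⟨?_, ?_, ?_, ?_, ?_, ?_, ?_, ?_⟩
          · simp only [V, t, f', g', map_sub, map_add, map_mul, map_pow, map_one, MvPolynomial.aeval_X, Sum.elim_inl, Sum.elim_inr]
            change Polynomial.C β * Polynomial.C β⁻¹ - 1 = 0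
            rw [← Polynomial.C_mul, mul_inv_cancel₀ hβ0, Polynomial.C_1, sub_self]
          · simp only [V, t, f', g', map_sub, map_add, map_mul, map_pow, map_one, map_ofNat, MvPolynomial.aeval_X, Sum.elim_inl, Sum.elim_inr]
            change (Polynomial.X^p)^2 - (Polynomial.X^2-1)*Y^2 - 1 = 0
            linear_combination hY
          · simp only [V, t, f', g', map_sub, map_add, map_mul, map_pow, map_one, map_ofNat, MvPolynomial.aeval_X, Sum.elim_inl, Sum.elim_inr]
            change (Polynomial.X^p+1)^2 - (Polynomial.X^2+2*Polynomial.X)*Z^2 - 1 = 0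
            linear_combination hZ
          · simp only [V, t, f', g', map_sub, map_add, map_mul, map_pow, map_one, map_ofNat, MvPolynomial.aeval_X, Sum.elim_inl, Sum.elim_inr]
            change A * (Polynomial.X^p - Polynomial.X) + B * (Polynomial.X^2 - Polynomial.X + Polynomial.C β) - 1 = 0
            linear_combination hAB
          · simp only [V, t, f', g', map_sub, map_add, map_mul, map_pow, MvPolynomial.aeval_X, Sum.elim_inl, Sum.elim_inr]
            change w1^2 - w1 = 0
            linear_combination hw1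
          · simp only [V, t, f', g', map_sub, map_add, map_mul, map_pow, MvPolynomial.aeval_X, Sum.elim_inl, Sum.elim_inr]
            change x1^2 + x1*y1 + Polynomial.C β*y1^2 - ((Polynomial.X^2*g^2+Polynomial.X*f^2)*v1^2+w1) = 0
            linear_combination h1
          · simp only [V, t, f', g', map_sub, map_add, map_mul, map_pow, MvPolynomial.aeval_X, Sum.elim_inl, Sum.elim_inr]
            change w2^2 - w2 = 0
            linear_combination hw2
          · simp only [V, t, f', g', map_sub, map_add, map_mul, map_pow, MvPolynomial.aeval_X, Sum.elim_inl, Sum.elim_inr]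
            change x2^2 + x2*y2 + Polynomial.C β*y2^2 - ((Polynomial.X^2*f^2+Polynomial.X*g^2)*v2^2+w2) = 0
            linear_combination h2
        · simp only [d1, V, t, f', g', map_sub, map_add, map_mul, map_pow, map_one, map_ofNat, MvPolynomial.aeval_X, Sum.elim_inl, Sum.elim_inr]
          change 2 * f * g * (Polynomial.X^p - 1) * v1 * v2 ≠ 0
          have h2p : (2 : Polynomial (ZMod p)) ≠ 0 := by
            have : (2 : Polynomial (ZMod p)) = Polynomial.C 2 := by rw [Polynomial.C_ofNat]
            rw [this, Ne, Polynomial.C_eq_zero]; exact h2ne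
          have hXp : (Polynomial.X^p - 1 : Polynomial (ZMod p)) ≠ 0 := by
            have : (Polynomial.X^p - 1 : Polynomial (ZMod p)) = Polynomial.X^p - Polynomial.C 1 := by simp
            rw [this]
            exact Polynomial.X_pow_sub_C_ne_zero hp.pos 1
          exact mul_ne_zero (mul_ne_zero (mul_ne_zero (mul_ne_zero (mul_ne_zero h2p hf) hg) hXp) hv1) hv2
  · rintro ⟨y, d, hd, hP, hne⟩
    simp only [Finset.mem_insert, Finset.mem_singleton] at hd
    rcases hd with rfl | rfl | rfl
    · simp only [d0, Finset.forall_mem_insert, Finset.mem_singleton, forall_eq] at hP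
      obtain ⟨hf, hg⟩ := hP
      have hf0 : f = 0 := by simpa [f'] using hf
      have hg0 : g = 0 := by simpa [g'] using hg
      rw [hf0, hg0]
    · simp only [d1, Finset.forall_mem_insert, Finset.mem_singleton, forall_eq] at hP
      simp only [V, t, f', g', map_sub, map_add, map_mul, map_pow, map_one, map_ofNat, MvPolynomial.aeval_X, Sum.elim_inl, Sum.elim_inr] at hP
      simp only [d1, V, t, f', g', map_sub, map_add, map_mul, map_pow, map_one, map_ofNat, MvPolynomial.aeval_X, Sum.elim_inl, Sum.elim_inr] at hne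
      obtain ⟨q1, q2, q3, q4, q5, q6, q7, q8⟩ := hP
      change 2 * f * g * (y 2 - 1) * y 9 * y 13 ≠ 0 at hne
      change y 2 ^ 2 - (Polynomial.X^2 - 1) * y 3 ^ 2 - 1 = 0 at q2
      change (y 2 + 1) ^ 2 - (Polynomial.X^2 + 2 * Polynomial.X) * y 4 ^ 2 - 1 = 0 at q3
      change y 5 * (y 2 - Polynomial.X) + y 6 * (Polynomial.X^2 - Polynomial.X + y 0) - 1 = 0 at q4
      change y 7 ^ 2 + y 7 * y 8 + y 0 * y 8 ^ 2 - ((Polynomial.X^2*g^2+Polynomial.X*f^2)*y 9 ^ 2+y 10) = 0 at q6
      change y 11 ^ 2 + y 11 * y 12 + y 0 * y 12 ^ 2 - ((Polynomial.X^2*f^2+Polynomial.X*g^2)*y 13 ^ 2+y 14) = 0 at q8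
      simp only [mul_ne_zero_iff] at hne
      obtain ⟨⟨⟨⟨⟨n1, n2⟩, n3⟩, n4⟩, n5⟩, n6⟩ := hne
      have h2ne : (2 : ZMod p) ≠ 0 := by
        intro h
        apply n1
        have : (2 : Polynomial (ZMod p)) = Polynomial.C 2 := by rw [Polynomial.C_ofNat]
        rw [this, h, Polynomial.C_0]
      have hunit : IsUnit (y 0) := IsUnit.of_mul_eq_one (y 1) (by linear_combination q1)
      obtain ⟨b, _, hb⟩ := Polynomial.isUnit_iff.mp hunit
      have hfix := fixes_constants h2ne (y 2) (y 3) (y 4) (by linear_combination q2) (by linear_combination q3)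
        (fun h => n4 (by rw [h, sub_self]))
      have hβ : ∀ c : ZMod p, c * c - c + b ≠ 0 := by
        intro c hc
        have h5 := congrArg (fun q : Polynomial (ZMod p) => q.eval c) q4
        simp only [Polynomial.eval_add, Polynomial.eval_sub, Polynomial.eval_mul, Polynomial.eval_pow, Polynomial.eval_X,
          Polynomial.eval_one, Polynomial.eval_zero, hfix c, ← hb, Polynomial.eval_C] at h5
        have h6 : (1 : ZMod p) = 0 := by linear_combination (Polynomial.eval c (y 6)) * hc - h5
        exact one_ne_zero h6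
      rw [← hb] at q6 q8
      have le1 := final_iff' b hβ f g n2 n3 (y 7) (y 8) (y 9) (y 10) n5 (by linear_combination q5) (by linear_combination q6)
      have le2 := final_iff' b hβ g f n3 n2 (y 11) (y 12) (y 13) (y 14) n6 (by linear_combination q7) (by linear_combination q8)
      rw [Polynomial.degree_eq_natDegree n2, Polynomial.degree_eq_natDegree n3, le_antisymm le1 le2]
    · simp only [d2, Finset.forall_mem_insert, Finset.mem_singleton, forall_eq] at hP
      simp only [V, t, f', g', map_sub, map_add, map_mul, map_pow, map_one, map_ofNat, MvPolynomial.aeval_X, Sum.elim_inl, Sum.elim_inr] at hP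
      simp only [d2, V, t, f', g', map_sub, map_add, map_mul, map_pow, map_one, map_ofNat, MvPolynomial.aeval_X, Sum.elim_inl, Sum.elim_inr] at hne
      obtain ⟨q1, q2, q5, q6, q7, q8⟩ := hP
      change f * g * y 9 * y 13 ≠ 0 at hne
      change y 7 ^ 2 + y 7 * y 8 + y 0 * y 8 ^ 2 - ((Polynomial.X^2*g^2+Polynomial.X*f^2)*y 9 ^ 2+y 10) = 0 at q6
      change y 11 ^ 2 + y 11 * y 12 + y 0 * y 12 ^ 2 - ((Polynomial.X^2*f^2+Polynomial.X*g^2)*y 13 ^ 2+y 14) = 0 at q8
      simp only [mul_ne_zero_iff] at hne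
      obtain ⟨⟨⟨n2, n3⟩, n5⟩, n6⟩ := hne
      have hp2 : p = 2 := by
        have h3 : (2 : ZMod p) = 0 := by
          have : (2 : Polynomial (ZMod p)) = Polynomial.C 2 := by rw [Polynomial.C_ofNat]
          rw [this, Polynomial.C_eq_zero] at q1
          exact q1
        have h' : ((2:ℕ) : ZMod p) = 0 := by exact_mod_cast h3
        rw [ZMod.natCast_eq_zero_iff] at h'
        exact (Nat.prime_dvd_prime_iff_eq hp Nat.prime_two).mp h'
      subst hp2
      have hb : y 0 = Polynomial.C 1 := by rw [Polynomial.C_1]; linear_combination q2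
      rw [hb] at q6 q8
      have le1 := final_iff' (1 : ZMod 2) zmod2_beta f g n2 n3 (y 7) (y 8) (y 9) (y 10) n5 (by linear_combination q5) (by linear_combination q6)
      have le2 := final_iff' (1 : ZMod 2) zmod2_beta g f n3 n2 (y 11) (y 12) (y 13) (y 14) n6 (by linear_combination q7) (by linear_combination q8)
      rw [Polynomial.degree_eq_natDegree n2, Polynomial.degree_eq_natDegree n3, le_antisymm le1 le2]

end Pool.Agent.S09535
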