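import Pool.Statements.S09538
import Pool.Agent.Helper79.FI
import Pool.Agent.Helper79.EDTSys

set_option autoImplicit false
open Pool Pool.MP_835627_lc

namespace Pool.Agent.S09538

open Pool.Agent.Helper79

section

open EDT FI

/-- the count used in the statement is the number of nonterminals -/
theorem ncard_eq {T N : Type} (v : List (Symbol T N)) :
    {i : Fin v.length | ∃ n : N, v.get i = Symbol.nonterminal n}.ncard = nts v := by
  classical
  induction v with
  | nil =>
    rw [nts_nil, Set.ncard_eq_zero]
    ext i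
    exact i.elim0
  | cons s v ih =>
    have h1 : {i : Fin (s :: v).length | ∃ n : N, (s :: v).get i = Symbol.nonterminal n} =
        (Fin.succ '' {i : Fin v.length | ∃ n : N, v.get i = Symbol.nonterminal n}) ∪
          {i : Fin (s :: v).length | i = ⟨0, by simp⟩ ∧ ∃ n : N, s = Symbol.nonterminal n} := by
      ext i
      refine Fin.cases ?_ (fun i => ?_) i
      · simp
      · simp
    cases s with
    | terminal x =>
      rw [h1, nts_terminal, ← ih]
      have h2 : {i : Fin (Symbol.terminal x :: v).length | i = ⟨0, by simp⟩ ∧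
          ∃ n : N, (Symbol.terminal x : Symbol T N) = Symbol.nonterminal n} = ∅ := by
        ext i; simp
      rw [h2, Set.union_empty, Set.ncard_image_of_injective _ (Fin.succ_injective _)]
    | nonterminal A =>
      rw [h1, nts_nonterminal, ← ih]
      have h2 : {i : Fin (Symbol.nonterminal A :: v).length | i = ⟨0, by simp⟩ ∧
          ∃ n : N, (Symbol.nonterminal A : Symbol T N) = Symbol.nonterminal n} = {⟨0, by simp⟩} := by
        ext i; simp
      rw [h2, Set.ncard_union_eq, Set.ncard_singleton,
        Set.ncard_image_of_injective _ (Fin.succ_injective _)]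
      · rw [Set.disjoint_singleton_right]
        rintro ⟨j, _, hj⟩
        exact Fin.succ_ne_zero j hj

/-- from the derivations of the statement to `DN` -/
theorem to_DN {T : Type} (g : ContextFreeGrammar T) (k : ℕ) (x : List T)
    (h : Relation.ReflTransGen
      (fun u v : List (Symbol T g.NT) =>
        g.Produces u v ∧
          {i : Fin v.length | ∃ n : g.NT, v.get i = Symbol.nonterminal n}.ncard ≤ k)
      [Symbol.nonterminal g.initial] (x.map Symbol.terminal)) :
    ∃ n, DN g (k + 1) n [Symbol.nonterminal g.initial] x := by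
  have key : ∀ u : List (Symbol T g.NT), Relation.ReflTransGen
      (fun u v : List (Symbol T g.NT) =>
        g.Produces u v ∧
          {i : Fin v.length | ∃ n : g.NT, v.get i = Symbol.nonterminal n}.ncard ≤ k)
      u (x.map Symbol.terminal) → nts u ≤ k + 1 → ∃ n, DN g (k + 1) n u x := by
    intro u hu
    induction hu using Relation.ReflTransGen.head_induction_on with
    | refl => intro _; exact ⟨0, DN.done x⟩
    | head hstep _ ih =>
      intro hn
      obtain ⟨h1, h2⟩ := hstep
      rw [ncard_eq] at h2
      obtain ⟨n, hn'⟩ := ih (by omega)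
      exact ⟨n + 1, DN.step h1 hn hn'⟩
  exact key _ h (by simp)

theorem input_mem {T : Type} (g : ContextFreeGrammar T) (A : g.NT) (y : List T)
    (h : g.Derives [Symbol.nonterminal A] (y.map Symbol.terminal)) :
    ∃ r ∈ g.rules, r.input = A := by
  rcases Relation.ReflTransGen.cases_head h with h1 | ⟨v, h1, _⟩
  · exfalso
    cases y with
    | nil => simp at h1
    | cons t y => simp at h1
  · obtain ⟨r, hr, hrw⟩ := h1
    refine ⟨r, hr, ?_⟩
    obtain ⟨p, q, h4, _⟩ := hrw.exists_parts
    have h6 := congrArg List.length h4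
    simp only [List.length_append, List.length_cons, List.length_nil] at h6
    have hp : p = [] := List.eq_nil_of_length_eq_zero (by omega)
    have hq : q = [] := List.eq_nil_of_length_eq_zero (by omega)
    subst hp hq
    simpa using h4.symm

theorem length_P (n : ℕ) : (P n).length = (w n).length + 2 := by simp [P]

/-- the exchange argument: the yield length is determined by the nonterminal and the two states -/
theorem exchange (g : ContextFreeGrammar Al) (hL : g.language = L) (N : ℕ) (A : g.NT)
    (u y z u' y' z' : List Al) (σ τ : Q)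
    (hu' : g.Derives [Symbol.nonterminal g.initial]
      (u'.map Symbol.terminal ++ ([Symbol.nonterminal A] ++ z'.map Symbol.terminal)))
    (hy : g.Derives [Symbol.nonterminal A] (y.map Symbol.terminal))
    (h1 : u ++ (y ++ z) = P N) (h2 : u' ++ (y' ++ z') = P N)
    (hσ' : run N (none, 0) u' = some σ)
    (hτ : run N σ y = some τ) (hτ' : run N σ y' = some τ) : y.length ≤ y'.length := by
  by_contra hlt
  push Not at hlt
  have hder : u' ++ (y ++ z') ∈ L := by
    rw [← hL]
    have h3 := ((hy.append_right (z'.map Symbol.terminal)).append_left (u'.map Symbol.terminal))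
    have h4 := hu'.trans h3
    have h5 : u'.map Symbol.terminal ++ (y.map Symbol.terminal ++ z'.map Symbol.terminal) =
      ((u' ++ (y ++ z')).map Symbol.terminal : List (Symbol Al g.NT)) := by simp
    rw [h5] at h4
    exact h4
  have hrun : run N (none, 0) (u' ++ (y ++ z')) = some (none, 0) := by
    have h3 := run_P N N le_rfl
    rw [← h2, run_append, hσ'] at h3
    simp only [Option.bind_some] at h3
    rw [run_append, hτ'] at h3
    simp only [Option.bind_some] at h3
    rw [run_append, hσ']
    simp only [Option.bind_some]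
    rw [run_append, hτ]
    simp only [Option.bind_some]
    exact h3
  rcases hder with hder | ⟨m, hm⟩
  · exact run_err hder hrun
  · have l1 := congrArg List.length h1
    have l2 := congrArg List.length h2
    have l3 := congrArg List.length hm
    simp only [List.length_append, length_P] at l1 l2 l3
    rcases le_or_gt m N with h | h
    · have := length_mono h
      omega
    · have h4 := length_mono (Nat.succ_le_of_lt h)
      have h5 := length_w_lt N
      rw [Nat.succ_eq_add_one] at h4
      omega

theorem exists_large (C K : ℕ) : ∃ N : ℕ, C * (N + 2) ^ K < 2 ^ N := by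
  have h := (tendsto_pow_const_div_const_pow_of_one_lt K (r := (2 : ℝ)) (by norm_num))
  have h1 : Filter.Tendsto (fun N : ℕ => (((N + 2 : ℕ) : ℝ)) ^ K / (2 : ℝ) ^ (N + 2))
      Filter.atTop (nhds 0) := h.comp (Filter.tendsto_add_atTop_nat 2)
  have h2 : (0 : ℝ) < 1 / (4 * (C + 1)) := by positivity
  obtain ⟨N, hN⟩ := ((h1.eventually (gt_mem_nhds h2))).exists
  refine ⟨N, ?_⟩
  have h3 : (0 : ℝ) < 2 ^ (N + 2) := by positivity
  rw [div_lt_div_iff₀ h3 (by positivity)] at hN
  have h4 : ((C : ℝ)) * ((N + 2 : ℕ) : ℝ) ^ K ≤ (C + 1) * ((N + 2 : ℕ) : ℝ) ^ K := by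
    have : (0 : ℝ) ≤ ((N + 2 : ℕ) : ℝ) ^ K := by positivity
    nlinarith
  have h5 : ((C : ℝ)) * ((N + 2 : ℕ) : ℝ) ^ K < 2 ^ N := by
    have h6 : (2 : ℝ) ^ (N + 2) = 4 * 2 ^ N := by ring
    rw [h6] at hN
    nlinarith
  exact_mod_cast h5

theorem not_finite_index (g : ContextFreeGrammar Al) (k : ℕ) (hL : g.language = L)
    (hix : ∀ x ∈ L, ∃ n, DN g k n [Symbol.nonterminal g.initial] x) : False := by
  classical
  set c : ℕ := g.rules.sup (fun r => r.output.length) with hc
  have hc' : ∀ r ∈ g.rules, r.output.length ≤ c := fun r hr =>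
    Finset.le_sup (f := fun r : ContextFreeRule Al g.NT => r.output.length) hr
  set ρ : ℕ := (g.rules.image (fun r => r.input)).card with hρ
  obtain ⟨N, hN⟩ := exists_large (((2 * c + 1) * (ρ + 1)) ^ k) (4 * k)
  -- the set of yield lengths
  set Λ : Finset ℕ := (Finset.range ((P N).length + 1)).filter (fun ℓ =>
    ∃ A y, Ctx g (P N) [Symbol.nonterminal A] y ∧
      g.Derives [Symbol.nonterminal A] (y.map Symbol.terminal) ∧ y.length = ℓ) with hΛdef
  have hΛ : ∀ A y, Ctx g (P N) [Symbol.nonterminal A] y →
      g.Derives [Symbol.nonterminal A] (y.map Symbol.terminal) → y.length ∈ Λ := by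
    intro A y h1 h2
    rw [hΛdef, Finset.mem_filter]
    refine ⟨?_, A, y, h1, h2, rfl⟩
    obtain ⟨u, z, _, h4⟩ := h1
    have := congrArg List.length h4
    simp only [List.length_append] at this
    rw [Finset.mem_range]
    omega
  -- witnesses
  have hwit : ∀ ℓ : ℕ, ∃ p : g.NT × Q × Q, ℓ ∈ Λ →
      p ∈ (g.rules.image (fun r => r.input)) ×ˢ (QB N ×ˢ QB N) ∧
      ∃ u y z : List Al, g.Derives [Symbol.nonterminal g.initial]
        (u.map Symbol.terminal ++ ([Symbol.nonterminal p.1] ++ z.map Symbol.terminal)) ∧
        g.Derives [Symbol.nonterminal p.1] (y.map Symbol.terminal) ∧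
        u ++ (y ++ z) = P N ∧ run N (none, 0) u = some p.2.1 ∧ run N p.2.1 y = some p.2.2 ∧
        y.length = ℓ := by
    intro ℓ
    by_cases hℓ : ℓ ∈ Λ
    · obtain ⟨_, A, y, ⟨u, z, h1, h2⟩, h3, h4⟩ := Finset.mem_filter.1 hℓ
      have h5 := run_P N N le_rfl
      rw [← h2] at h5
      obtain ⟨σ, h6, h7⟩ := run_append_some h5
      obtain ⟨τ, h8, _⟩ := run_append_some h7
      have h0 : ((none, 0) : Q) ∈ QB N := by rw [mem_QB]; simp
      have hσ : σ ∈ QB N := run_QB h0 h6
      have hτ : τ ∈ QB N := run_QB hσ h8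
      refine ⟨(A, σ, τ), fun _ => ⟨?_, u, y, z, h1, h3, h2, h6, h8, h4⟩⟩
      obtain ⟨r, hr, hrA⟩ := input_mem g A y h3
      simp only [Finset.mem_product, Finset.mem_image]
      exact ⟨⟨r, hr, hrA⟩, hσ, hτ⟩
    · exact ⟨(g.initial, (none, 0), (none, 0)), fun h => absurd h hℓ⟩
  choose f hf using hwit
  have hcard : Λ.card ≤ ρ * ((N + 2) * (N + 2) * ((N + 2) * (N + 2))) := by
    have h1 : Λ.card ≤ ((g.rules.image (fun r => r.input)) ×ˢ (QB N ×ˢ QB N)).card := by
      apply Finset.card_le_card_of_injOn f (fun ℓ hℓ => (hf ℓ hℓ).1)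
      intro ℓ hℓ ℓ' hℓ' heq
      obtain ⟨_, u, y, z, a1, a2, a3, a4, a5, a6⟩ := hf ℓ hℓ
      obtain ⟨_, u', y', z', b1, b2, b3, b4, b5, b6⟩ := hf ℓ' hℓ'
      rw [← heq] at b1 b2 b4 b5
      rw [← a6, ← b6]
      exact le_antisymm
        (exchange g hL N _ u y z u' y' z' _ _ b1 a2 a3 b3 b4 a5 b5)
        (exchange g hL N _ u' y' z' u y z _ _ a1 b2 b3 a3 a4 b5 a5)
    refine h1.trans ?_
    rw [Finset.card_product, Finset.card_product, ← hρ]
    exact Nat.mul_le_mul_left _ (Nat.mul_le_mul (card_QB N) (card_QB N))
  have hPL : P N ∈ L := Or.inr ⟨N, rfl⟩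
  obtain ⟨m, hm⟩ := hix (P N) hPL
  have hctx : Ctx g (P N) [Symbol.nonterminal g.initial] (P N) :=
    ⟨[], [], by simpa using Relation.ReflTransGen.refl, by simp⟩
  have hb := FI.bound g (P N) c Λ hΛ hc' m k g.initial (P N) hm hctx
  have hb2 : F c k (rk Λ (P N).length) ≤ F c k Λ.card := F_mono (rk_le Λ _)
  have hb3 : F c k Λ.card ≤ ((2 * c + 1) * (ρ + 1)) ^ k * (N + 2) ^ (4 * k) := by
    unfold F
    rw [pow_mul, ← mul_pow]
    apply Nat.pow_le_pow_left
    rw [mul_assoc]
    apply Nat.mul_le_mul_left
    have h4 : (N + 2) * (N + 2) * ((N + 2) * (N + 2)) = (N + 2) ^ 4 := by ring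
    rw [h4] at hcard
    have h5 : 1 ≤ (N + 2) ^ 4 := Nat.one_le_pow _ _ (by omega)
    nlinarith
  have h2 := two_pow_le N
  have h3 := length_P N
  omega

end

/-- The negation of the preceding statement: Over any finite alphabet, a language is both EDT0L and context-free iff some context-free grammar generates it in which every word has a derivation whose sentential forms have at most k nonterminals, for a fixed k. -/
theorem result :
    ¬ (∀ (T : Type) [Fintype T] (L : Language T),
      ((∃ (V : Type) (_ : Fintype V) (ι : T → V) (tables : List (V → List V)) (ω : List V),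
          Function.Injective ι ∧
          ∀ x : List T, x ∈ L ↔
            ∃ sq : List (V → List V), (∀ h ∈ sq, h ∈ tables) ∧
              sq.foldl (fun u h => u.flatMap h) ω = x.map ι) ∧
        (∃ G : ContextFreeGrammar T, G.language = L)) ↔
      (∃ (G : ContextFreeGrammar T) (k : ℕ), G.language = L ∧
        ∀ w ∈ G.language,
          Relation.ReflTransGen
            (fun u v : List (Symbol T G.NT) =>
              G.Produces u v ∧
                {i : Fin v.length | ∃ n : G.NT, v.get i = Symbol.nonterminal n}.ncard ≤ k)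
            [Symbol.nonterminal G.initial] (w.map Symbol.terminal))) := by
  intro hall
  obtain ⟨g, k, hL, hix⟩ := (hall EDT.Al EDT.L).1
    ⟨⟨EDT.Sy, inferInstance, Symbol.terminal, EDT.tables, [EDT.n EDT.Nt.S],
      fun a b hab => by injection hab,
      fun x => (EDT.reach_iff x).symm⟩, ⟨EDT.G, EDT.language_G⟩⟩
  refine not_finite_index g (k + 1) hL (fun x hx => to_DN g k x (hix x ?_))
  rw [hL]
  exact hx

end Pool.Agent.S09538
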