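import Pool.Statements.S09547

set_option autoImplicit false
open Pool Pool.MP_8565d5_lc

namespace Pool.Agent.S09547

open Finset

open Classical in
/-- The exponents of binary weight at most two, without the gap one orbit. -/
noncomputable def DD (t : ℕ) : Finset ℕ :=
  (range (2 ^ t)).filter (fun d => d = 0 ∨ (∃ i < t, d = 2 ^ i) ∨
    ∃ i j, i < j ∧ j < t ∧ j ≠ i + 1 ∧ ¬ (i = 0 ∧ j = t - 1) ∧ d = 2 ^ i + 2 ^ j)

lemma two_pow_add_lt {t i j : ℕ} (hij : i < j) (hj : j < t) : 2 ^ i + 2 ^ j < 2 ^ t := by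
  have h1 : 2 ^ i < 2 ^ j := Nat.pow_lt_pow_right (by norm_num) hij
  have h2 : 2 ^ (j + 1) ≤ 2 ^ t := Nat.pow_le_pow_right (by norm_num) hj
  rw [pow_succ] at h2
  omega

lemma mem_DD {t d : ℕ} : d ∈ DD t ↔ (d = 0 ∨ (∃ i < t, d = 2 ^ i) ∨
    ∃ i j, i < j ∧ j < t ∧ j ≠ i + 1 ∧ ¬ (i = 0 ∧ j = t - 1) ∧ d = 2 ^ i + 2 ^ j) := by
  classical
  unfold DD
  rw [mem_filter, mem_range]
  constructor
  · rintro ⟨_, h⟩
    exact h
  · intro h
    refine ⟨?_, h⟩
    rcases h with h | ⟨i, hi, h⟩ | ⟨i, j, hij, hj, _, _, h⟩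
    · subst h; positivity
    · subst h; exact Nat.pow_lt_pow_right (by norm_num) hi
    · subst h; exact two_pow_add_lt hij hj

lemma ds_pow_mul (i m : ℕ) : (Nat.digits 2 (2 ^ i * m)).sum = (Nat.digits 2 m).sum := by
  rcases Nat.eq_zero_or_pos m with h | h
  · subst h; simp
  · rw [Nat.digits_base_pow_mul (by norm_num) h]
    simp

lemma ds_odd (m : ℕ) : (Nat.digits 2 (1 + 2 * m)).sum = 1 + (Nat.digits 2 m).sum := by
  rw [Nat.digits_def' (by norm_num) (by omega)]
  have h1 : (1 + 2 * m) % 2 = 1 := by omega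
  have h2 : (1 + 2 * m) / 2 = m := by omega
  rw [h1, h2]
  simp

lemma ds_pow (i : ℕ) : (Nat.digits 2 (2 ^ i)).sum = 1 := by
  have := ds_pow_mul i 1
  simpa using this

lemma ds_two (i j : ℕ) (hij : i < j) : (Nat.digits 2 (2 ^ i + 2 ^ j)).sum = 2 := by
  obtain ⟨e, rfl⟩ : ∃ e, j = i + (e + 1) := ⟨j - i - 1, by omega⟩
  have : 2 ^ i + 2 ^ (i + (e + 1)) = 2 ^ i * (1 + 2 * 2 ^ e) := by
    rw [pow_add, pow_succ]; ring
  rw [this, ds_pow_mul, ds_odd, ds_pow]

lemma DD_weight {t d : ℕ} (h : d ∈ DD t) : d < 2 ^ t ∧ (Nat.digits 2 d).sum ≤ 2 := by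
  classical
  refine ⟨by unfold DD at h; have := (mem_filter.1 h).1; exact mem_range.1 this, ?_⟩
  rcases mem_DD.1 h with h | ⟨i, hi, h⟩ | ⟨i, j, hij, hj, _, _, h⟩
  · subst h; simp
  · subst h; rw [ds_pow]; norm_num
  · subst h; rw [ds_two i j hij]

lemma three_notMem {t : ℕ} : 3 ∉ DD t := by
  intro h
  rcases mem_DD.1 h with h | ⟨i, hi, h⟩ | ⟨i, j, hij, hj, h1, h2, h⟩
  · omega
  · rcases i with _ | i
    · simp at h
    · rw [pow_succ] at h; omega
  · rcases i with _ | i
    · rcases j with _ | j
      · omega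
      · rcases j with _ | j
        · omega
        · rw [pow_succ, pow_succ] at h
          have : 0 < 2 ^ j := by positivity
          omega
    · rcases j with _ | j
      · omega
      · rw [pow_succ, pow_succ] at h
        omega

lemma DD_double {t d : ℕ} (ht : 5 ≤ t) (h : d ∈ DD t) (hd : d ≠ 0) :
    (2 * d - 1) % (2 ^ t - 1) + 1 ∈ DD t := by
  have hbig : 2 ^ (t - 1) * 2 = 2 ^ t := by
    rw [← pow_succ]; congr 1; omega
  have hpos : 16 ≤ 2 ^ (t - 1) := by
    have : 2 ^ 4 ≤ 2 ^ (t - 1) := Nat.pow_le_pow_right (by norm_num) (by omega)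
    simpa using this
  rcases mem_DD.1 h with h | ⟨i, hi, h⟩ | ⟨i, j, hij, hj, h1, h2, h⟩
  · exact absurd h hd
  · by_cases hi' : i = t - 1
    · subst h
      subst hi'
      have : 2 * 2 ^ (t - 1) - 1 = 2 ^ t - 1 := by omega
      rw [this, Nat.mod_self]
      rw [mem_DD]
      exact Or.inr (Or.inl ⟨0, by omega, by simp⟩)
    · have hlt : 2 ^ (i + 1) ≤ 2 ^ (t - 1) := Nat.pow_le_pow_right (by norm_num) (by omega)
      subst h
      have hp : 0 < 2 ^ i := by positivity
      rw [pow_succ] at hlt
      rw [Nat.mod_eq_of_lt (by omega)]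
      rw [mem_DD]
      refine Or.inr (Or.inl ⟨i + 1, by omega, ?_⟩)
      rw [pow_succ]; omega
  · have hp : 0 < 2 ^ i := by positivity
    have hp2 : 0 < 2 ^ j := by positivity
    by_cases hj' : j = t - 1
    · have hi2 : i + 2 ≤ t - 1 := by omega
      have hlt : 2 ^ (i + 2) ≤ 2 ^ (t - 1) := Nat.pow_le_pow_right (by norm_num) hi2
      rw [pow_succ, pow_succ] at hlt
      subst h
      subst hj'
      have : 2 * (2 ^ i + 2 ^ (t - 1)) - 1 = 2 ^ (i + 1) + (2 ^ t - 1) := by
        rw [pow_succ]; omega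
      rw [this, Nat.add_mod_right, Nat.mod_eq_of_lt (by rw [pow_succ]; omega)]
      rw [mem_DD]
      refine Or.inr (Or.inr ⟨0, i + 1, by omega, by omega, ?_, ?_, by simp; omega⟩)
      · intro h; apply h2; omega
      · intro h; omega
    · have hlt : 2 ^ i + 2 ^ j < 2 ^ (t - 1) := two_pow_add_lt hij (by omega)
      subst h
      rw [Nat.mod_eq_of_lt (by omega)]
      rw [mem_DD]
      refine Or.inr (Or.inr ⟨i + 1, j + 1, by omega, by omega, by omega, by omega, ?_⟩)
      rw [pow_succ, pow_succ]; omega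

lemma testBit_two_pow_add {i j m : ℕ} (hij : i < j) :
    (2 ^ i + 2 ^ j).testBit m = true ↔ m = i ∨ m = j := by
  have h : 2 ^ i + 2 ^ j = 2 ^ j ||| 2 ^ i := by
    have h0 := Nat.two_pow_add_eq_or_of_lt (i := j) (b := 2 ^ i)
      (Nat.pow_lt_pow_right (by norm_num) hij) 1
    rw [mul_one] at h0
    rw [add_comm, h0]
  rw [h, Nat.testBit_or, Bool.or_eq_true, Nat.testBit_two_pow, Nat.testBit_two_pow]
  simp only [decide_eq_true_eq]
  omega

lemma DD_shadow {t d : ℕ} (h : d ∈ DD t) (e : ℕ)
    (he : ∀ i : ℕ, e.testBit i = true → d.testBit i = true) : e ∈ DD t := by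
  rcases mem_DD.1 h with h' | ⟨i, hi, h'⟩ | ⟨i, j, hij, hj, h1, h2, h'⟩
  · subst h'
    have : e = 0 := by
      apply Nat.eq_of_testBit_eq
      intro m
      by_cases hm : e.testBit m = true
      · have := he m hm
        simp at this
      · simp at hm
        simp [hm]
    subst this
    exact h
  · subst h'
    by_cases hei : e.testBit i = true
    · have : e = 2 ^ i := by
        apply Nat.eq_of_testBit_eq
        intro m
        rw [Nat.testBit_two_pow]
        by_cases hm : i = m
        · subst hm; simp [hei]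
        · have : ¬ e.testBit m = true := by
            intro h3
            have := he m h3
            rw [Nat.testBit_two_pow] at this
            simp at this
            exact hm this
          simp at this
          simp [this, hm]
      subst this
      exact h
    · have : e = 0 := by
        apply Nat.eq_of_testBit_eq
        intro m
        by_cases hm : e.testBit m = true
        · have := he m hm
          rw [Nat.testBit_two_pow] at this
          simp at this
          subst this
          exact absurd hm hei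
        · simp at hm
          simp [hm]
      subst this
      rw [mem_DD]; exact Or.inl rfl
  · subst h'
    have key : ∀ m, e.testBit m = true → m = i ∨ m = j := by
      intro m hm
      exact (testBit_two_pow_add hij).1 (he m hm)
    by_cases hei : e.testBit i = true <;> by_cases hej : e.testBit j = true
    · have : e = 2 ^ i + 2 ^ j := by
        apply Nat.eq_of_testBit_eq
        intro m
        rw [Bool.eq_iff_iff, testBit_two_pow_add hij]
        constructor
        · exact key m
        · rintro (h | h)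
          · subst h; exact hei
          · subst h; exact hej
      subst this
      exact h
    · have : e = 2 ^ i := by
        apply Nat.eq_of_testBit_eq
        intro m
        rw [Bool.eq_iff_iff, Nat.testBit_two_pow]
        simp only [decide_eq_true_eq]
        constructor
        · intro hm
          rcases key m hm with h | h
          · exact h.symm
          · subst h; exact absurd hm hej
        · intro h; subst h; exact hei
      subst this
      rw [mem_DD]; exact Or.inr (Or.inl ⟨i, by omega, rfl⟩)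
    · have : e = 2 ^ j := by
        apply Nat.eq_of_testBit_eq
        intro m
        rw [Bool.eq_iff_iff, Nat.testBit_two_pow]
        simp only [decide_eq_true_eq]
        constructor
        · intro hm
          rcases key m hm with h | h
          · subst h; exact absurd hm hei
          · exact h.symm
        · intro h; subst h; exact hej
      subst this
      rw [mem_DD]; exact Or.inr (Or.inl ⟨j, by omega, rfl⟩)
    · have : e = 0 := by
        apply Nat.eq_of_testBit_eq
        intro m
        by_cases hm : e.testBit m = true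
        · rcases key m hm with h | h
          · subst h; exact absurd hm hei
          · subst h; exact absurd hm hej
        · simp at hm
          simp [hm]
      subst this
      rw [mem_DD]; exact Or.inl rfl

section field

set_option linter.unusedSectionVars false

variable {K : Type} [Field K] [Finite K] [Algebra (ZMod 2) K] {t : ℕ}

/-- The function is a combination of the monomials with exponents in the set. -/
def InSpan (t : ℕ) (h : K → K) : Prop :=
  ∃ c : ℕ → K, ∀ x : K, h x = ∑ d ∈ DD t, c d * x ^ d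

lemma InSpan.zero : InSpan t (fun _ : K => (0 : K)) :=
  ⟨fun _ => 0, fun x => by simp⟩

lemma InSpan.add {f g : K → K} (hf : InSpan t f) (hg : InSpan t g) :
    InSpan t (fun x => f x + g x) := by
  obtain ⟨c, hc⟩ := hf
  obtain ⟨c', hc'⟩ := hg
  refine ⟨fun d => c d + c' d, fun x => ?_⟩
  beta_reduce
  rw [hc, hc', ← sum_add_distrib]
  exact sum_congr rfl (fun d _ => by ring)

lemma InSpan.const_mul {f : K → K} (a : K) (hf : InSpan t f) :
    InSpan t (fun x => a * f x) := by
  obtain ⟨c, hc⟩ := hf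
  refine ⟨fun d => a * c d, fun x => ?_⟩
  beta_reduce
  rw [hc, mul_sum]
  exact sum_congr rfl (fun d _ => by ring)

lemma InSpan.sum {ι : Type} (s : Finset ι) (f : ι → K → K) (hf : ∀ i ∈ s, InSpan t (f i)) :
    InSpan t (fun x => ∑ i ∈ s, f i x) := by
  classical
  induction s using Finset.induction_on with
  | empty => simpa using InSpan.zero
  | insert a s ha ih =>
    simp only [sum_insert ha]
    exact InSpan.add (hf a (mem_insert_self a s)) (ih (fun i hi => hf i (mem_insert_of_mem hi)))

lemma InSpan.monomial {d : ℕ} (hd : d ∈ DD t) (a : K) : InSpan t (fun x : K => a * x ^ d) := by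
  classical
  refine ⟨fun e => if e = d then a else 0, fun x => ?_⟩
  simp [hd]

lemma frob_all (ht : Module.finrank (ZMod 2) K = t) (x : K) : x ^ (2 ^ t) = x := by
  have h1 := FiniteField.pow_finrank_eq_natCard 2 K
  have : Fintype K := Fintype.ofFinite K
  rw [ht, Nat.card_eq_fintype_card] at h1
  rw [h1]
  exact FiniteField.pow_card x

lemma trace_formula (ht : Module.finrank (ZMod 2) K = t) (x : K) :
    algebraMap (ZMod 2) K (Algebra.trace (ZMod 2) K x) = ∑ i ∈ range t, x ^ (2 ^ i) := by
  rw [FiniteField.algebraMap_trace_eq_sum_pow, ht]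
  simp

lemma span_quad (ht : Module.finrank (ZMod 2) K = t) {j : ℕ}
    (hj2 : 2 ≤ j) (hj : j + 2 ≤ t) (g : K) :
    InSpan t (fun x : K => algebraMap (ZMod 2) K
      (Algebra.trace (ZMod 2) K (g * x ^ (1 + 2 ^ j)))) := by
  simp only [trace_formula ht]
  apply InSpan.sum
  intro a ha
  rw [mem_range] at ha
  by_cases haj : a + j < t
  · have hd : 2 ^ a + 2 ^ (a + j) ∈ DD t := by
      rw [mem_DD]
      exact Or.inr (Or.inr ⟨a, a + j, by omega, haj, by omega, by omega, rfl⟩)
    have := InSpan.monomial (K := K) hd (g ^ (2 ^ a))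
    convert this using 2 with x
    rw [mul_pow, ← pow_mul]
    congr 2
    rw [pow_add]; ring
  · have hd : 2 ^ (a + j - t) + 2 ^ a ∈ DD t := by
      rw [mem_DD]
      exact Or.inr (Or.inr ⟨a + j - t, a, by omega, ha, by omega, by omega, rfl⟩)
    have := InSpan.monomial (K := K) hd (g ^ (2 ^ a))
    convert this using 2 with x
    rw [mul_pow, ← pow_mul]
    congr 1
    have e1 : (1 + 2 ^ j) * 2 ^ a = 2 ^ t * 2 ^ (a + j - t) + 2 ^ a := by
      rw [← pow_add, show t + (a + j - t) = a + j by omega, pow_add]; ring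
    rw [e1, pow_add, pow_add, pow_mul, frob_all ht]

lemma span_lin (ht : Module.finrank (ZMod 2) K = t) (g : K) :
    InSpan t (fun x : K => algebraMap (ZMod 2) K (Algebra.trace (ZMod 2) K (g * x))) := by
  simp only [trace_formula ht]
  apply InSpan.sum
  intro a ha
  rw [mem_range] at ha
  have hd : 2 ^ a ∈ DD t := by
    rw [mem_DD]
    exact Or.inr (Or.inl ⟨a, ha, rfl⟩)
  have := InSpan.monomial (K := K) hd (g ^ (2 ^ a))
  convert this using 2 with x
  rw [mul_pow]

/-- The cubic trace function is not in the span. -/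
lemma not_span_cube (ht : Module.finrank (ZMod 2) K = t) (h5 : 5 ≤ t) :
    ¬ InSpan t (fun x : K => algebraMap (ZMod 2) K (Algebra.trace (ZMod 2) K (x ^ 3))) := by
  rintro ⟨c, hc⟩
  have : Fintype K := Fintype.ofFinite K
  simp only [trace_formula ht] at hc
  have hcard : Fintype.card K = 2 ^ t := by
    have h1 := FiniteField.pow_finrank_eq_natCard 2 K
    rw [ht, Nat.card_eq_fintype_card] at h1
    exact h1.symm
  have h24 : 2 ^ (t - 1) * 2 = 2 ^ t := by
    rw [← pow_succ]; congr 1; omega
  have hpos : 16 ≤ 2 ^ (t - 1) := by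
    have : 2 ^ 4 ≤ 2 ^ (t - 1) := Nat.pow_le_pow_right (by norm_num) (by omega)
    simpa using this
  -- the two polynomials
  set L : Polynomial K := ∑ a ∈ range (t - 1), Polynomial.X ^ (3 * 2 ^ a)
    + Polynomial.X ^ (1 + 2 ^ (t - 1)) with hL
  set R : Polynomial K := ∑ d ∈ DD t, Polynomial.C (c d) * Polynomial.X ^ d with hR
  have hLeval : ∀ x : K, L.eval x = ∑ i ∈ range t, (x ^ 3) ^ (2 ^ i) := by
    intro x
    obtain ⟨s, rfl⟩ : ∃ s, t = s + 1 := ⟨t - 1, by omega⟩
    rw [hL, sum_range_succ]
    simp only [Polynomial.eval_add, Polynomial.eval_finsetSum, Polynomial.eval_pow,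
      Polynomial.eval_X, Nat.add_sub_cancel]
    congr 1
    · exact sum_congr rfl (fun a _ => by rw [pow_mul])
    · rw [← pow_mul, show 3 * 2 ^ s = 2 ^ s + 2 ^ (s + 1) by rw [pow_succ]; ring, pow_add,
        pow_add, frob_all ht]
      ring
  have hReval : ∀ x : K, R.eval x = ∑ d ∈ DD t, c d * x ^ d := by
    intro x
    rw [hR]
    simp only [Polynomial.eval_finsetSum, Polynomial.eval_mul, Polynomial.eval_C,
      Polynomial.eval_pow, Polynomial.eval_X]
  have hLdeg : L.degree < (2 ^ t : ℕ) := by
    rw [hL]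
    refine lt_of_le_of_lt (Polynomial.degree_add_le _ _) (max_lt ?_ ?_)
    · refine lt_of_le_of_lt (Polynomial.degree_sum_le _ _) ?_
      rw [Finset.sup_lt_iff (by exact_mod_cast WithBot.bot_lt_coe _)]
      intro a ha
      rw [mem_range] at ha
      rw [Polynomial.degree_X_pow]
      have : 2 ^ (a + 1) ≤ 2 ^ (t - 1) := Nat.pow_le_pow_right (by norm_num) (by omega)
      rw [pow_succ] at this
      have h0 : 0 < 2 ^ a := by positivity
      exact_mod_cast (by omega : 3 * 2 ^ a < 2 ^ t)
    · rw [Polynomial.degree_X_pow]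
      exact_mod_cast (by omega : 1 + 2 ^ (t - 1) < 2 ^ t)
  have hRdeg : R.degree < (2 ^ t : ℕ) := by
    rw [hR]
    refine lt_of_le_of_lt (Polynomial.degree_sum_le _ _) ?_
    rw [Finset.sup_lt_iff (by exact_mod_cast WithBot.bot_lt_coe _)]
    intro d hd
    refine lt_of_le_of_lt (Polynomial.degree_C_mul_X_pow_le _ _) ?_
    exact_mod_cast (DD_weight hd).1
  have heq : L = R := by
    apply Polynomial.eq_of_degree_sub_lt_of_eval_finset_eq (univ : Finset K)
    · rw [card_univ, hcard]
      exact lt_of_le_of_lt (Polynomial.degree_sub_le _ _) (max_lt hLdeg hRdeg)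
    · intro x _
      rw [hLeval, hReval, hc]
  have hLc : L.coeff 3 = 1 := by
    rw [hL, Polynomial.coeff_add, Polynomial.finsetSum_coeff, Polynomial.coeff_X_pow]
    have h1 : ¬ 3 = 1 + 2 ^ (t - 1) := by omega
    rw [if_neg h1, add_zero, Finset.sum_eq_single 0]
    · simp
    · intro a _ ha
      rw [Polynomial.coeff_X_pow, if_neg]
      have : 2 ^ 1 ≤ 2 ^ a := Nat.pow_le_pow_right (by norm_num) (by omega)
      omega
    · intro h
      exact absurd (mem_range.2 (by omega)) h
  have hRc : R.coeff 3 = 0 := by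
    rw [hR, Polynomial.finsetSum_coeff]
    apply sum_eq_zero
    intro d hd
    rw [Polynomial.coeff_C_mul_X_pow, if_neg]
    intro h
    subst h
    exact three_notMem hd
  rw [heq, hRc] at hLc
  exact zero_ne_one hLc

/-- The rank argument: a dual word of small support annihilating all the monomials of the
set also annihilates the missing orbit. -/
lemma rank_arg (ht : Module.finrank (ZMod 2) K = t) {k : ℕ} (hk : k + 4 ≤ t)
    (w : Fin k → ZMod 2) (al : Fin k → K)
    (h1 : ∑ i, algebraMap (ZMod 2) K (w i) * al i = 0)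
    (h2 : ∀ j, 2 ≤ j → j + 2 ≤ t → ∑ i, algebraMap (ZMod 2) K (w i) * al i ^ (1 + 2 ^ j) = 0) :
    ∑ i, algebraMap (ZMod 2) K (w i) * al i ^ 3 = 0 := by
  have hchar : CharP K 2 := charP_of_injective_algebraMap (algebraMap (ZMod 2) K).injective 2
  by_contra hne
  set s : ℕ → K := fun e => ∑ i, algebraMap (ZMod 2) K (w i) * al i ^ e with hs
  have hw : ∀ i, (algebraMap (ZMod 2) K (w i)) ^ 2 = algebraMap (ZMod 2) K (w i) := by
    intro i
    rw [← map_pow, ZMod.pow_card]
  have hdbl : ∀ e, s (2 * e) = s e ^ 2 := by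
    intro e
    simp only [hs]
    rw [sum_pow_char 2]
    apply sum_congr rfl
    intro i _
    rw [mul_pow, hw, mul_comm 2 e, pow_mul]
  have hpow : ∀ a e, s (2 ^ a * e) = s e ^ (2 ^ a) := by
    intro a
    induction a with
    | zero => intro e; simp
    | succ a ih =>
      intro e
      rw [pow_succ, mul_assoc, ih, hdbl, ← pow_mul, mul_comm 2]
  let A : Matrix (Fin (t - 2)) (Fin k) K :=
    fun a i => algebraMap (ZMod 2) K (w i) * al i ^ (2 ^ (a : ℕ))
  let B : Matrix (Fin k) (Fin (t - 2)) K := fun i b => al i ^ (2 ^ ((b : ℕ) + 1))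
  have hM : ∀ a b, (A * B) a b = s (2 ^ (a : ℕ) + 2 ^ ((b : ℕ) + 1)) := by
    intro a b
    rw [Matrix.mul_apply]
    simp only [A, B, hs]
    apply sum_congr rfl
    intro i _
    rw [pow_add (al i), mul_assoc]
  have htri : (A * B).IsLowerTriangular := by
    intro a b hab
    have hab' : (a : ℕ) < (b : ℕ) := by simpa using hab
    have hb := b.2
    rw [hM]
    obtain ⟨e, he⟩ : ∃ e, (b : ℕ) + 1 = a + (e + 2) := ⟨b + 1 - a - 2, by omega⟩
    rw [he, show 2 ^ (a : ℕ) + 2 ^ ((a : ℕ) + (e + 2)) = 2 ^ (a : ℕ) * (1 + 2 ^ (e + 2)) by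
      rw [pow_add 2 (a : ℕ)]; ring, hpow]
    have : s (1 + 2 ^ (e + 2)) = 0 := h2 (e + 2) (by omega) (by omega)
    rw [this, zero_pow (by positivity)]
  have hdet : (A * B).det ≠ 0 := by
    rw [Matrix.det_of_isLowerTriangular _ htri]
    rw [prod_ne_zero_iff]
    intro a _
    rw [hM, show 2 ^ (a : ℕ) + 2 ^ ((a : ℕ) + 1) = 2 ^ (a : ℕ) * 3 by rw [pow_succ]; ring, hpow]
    exact pow_ne_zero _ hne
  have hrank : (A * B).rank = t - 2 := by
    rw [Matrix.rank_of_isUnit _ ((Matrix.isUnit_iff_isUnit_det _).2 (isUnit_iff_ne_zero.2 hdet))]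
    simp
  have hle : (A * B).rank ≤ k := by
    refine (Matrix.rank_mul_le_left A B).trans ?_
    have := Matrix.rank_le_card_width A
    simpa using this
  omega

lemma exists_trace_ne {a : K} (ha : a ≠ 0) :
    ∃ b : K, Algebra.trace (ZMod 2) K (b * a) ≠ 0 := by
  have htr := (traceForm_nondegenerate (ZMod 2) K).1 a
  simp_rw [Algebra.traceForm_apply] at htr
  by_contra! hf
  exact ha (htr (fun b => by rw [mul_comm]; exact hf b))

/-- Any vector of values of the cubic trace function is a vector of values of a function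
with the prescribed monomials. -/
lemma interp (ht : Module.finrank (ZMod 2) K = t) {k : ℕ} (hk : k + 4 ≤ t) (al : Fin k → K) :
    ∃ g : K → ZMod 2, InSpan t (fun x => algebraMap (ZMod 2) K (g x)) ∧
      ∀ i, g (al i) = Algebra.trace (ZMod 2) K ((al i) ^ 3) := by
  let W : Submodule (ZMod 2) (Fin k → ZMod 2) :=
    { carrier := {v | ∃ g : K → ZMod 2, InSpan t (fun x => algebraMap (ZMod 2) K (g x)) ∧
        ∀ i, g (al i) = v i}
      add_mem' := by
        rintro v v' ⟨g, hg, hv⟩ ⟨g', hg', hv'⟩
        refine ⟨fun x => g x + g' x, ?_, fun i => ?_⟩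
        · simp only [map_add]
          exact hg.add hg'
        · simp [hv, hv']
      zero_mem' := ⟨fun _ => 0, by simpa using InSpan.zero, fun i => rfl⟩
      smul_mem' := by
        rintro a v ⟨g, hg, hv⟩
        refine ⟨fun x => a * g x, ?_, fun i => ?_⟩
        · simp only [map_mul]
          exact hg.const_mul _
        · simp [hv] }
  by_contra hcon
  have hnot : (fun i => Algebra.trace (ZMod 2) K ((al i) ^ 3)) ∉ W := by
    rintro ⟨g, hg, hv⟩
    exact hcon ⟨g, hg, hv⟩
  obtain ⟨phi, hphi, hker⟩ := Submodule.exists_le_ker_of_notMem hnot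
  set w : Fin k → ZMod 2 := fun i => phi (Pi.single i 1) with hw
  have hphi' : ∀ v : Fin k → ZMod 2, phi v = ∑ i, w i * v i := by
    intro v
    conv_lhs => rw [← LinearMap.sum_single_apply (fun _ => ZMod 2) v]
    rw [map_sum]
    apply sum_congr rfl
    intro i _
    have : (Pi.single i (v i) : Fin k → ZMod 2) = v i • Pi.single i (1 : ZMod 2) := by
      ext j
      by_cases hj : j = i
      · subst hj; simp
      · simp [hj]
    rw [this, map_smul, smul_eq_mul, mul_comm]
  have htrace : ∀ (e : ℕ) (g : K), ∑ i, w i * Algebra.trace (ZMod 2) K (g * al i ^ e) =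
      Algebra.trace (ZMod 2) K (g * ∑ i, algebraMap (ZMod 2) K (w i) * al i ^ e) := by
    intro e g
    rw [mul_sum, map_sum]
    apply sum_congr rfl
    intro i _
    rw [show g * (algebraMap (ZMod 2) K (w i) * al i ^ e) = w i • (g * al i ^ e) by
      rw [Algebra.smul_def]; ring, map_smul, smul_eq_mul]
  have hann : ∀ e : ℕ, (∀ g : K, InSpan t (fun x : K => algebraMap (ZMod 2) K
      (Algebra.trace (ZMod 2) K (g * x ^ e)))) →
      ∑ i, algebraMap (ZMod 2) K (w i) * al i ^ e = 0 := by
    intro e he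
    by_contra hne
    obtain ⟨b, hb⟩ := exists_trace_ne hne
    apply hb
    rw [← htrace, ← hphi']
    have : (fun i => Algebra.trace (ZMod 2) K (b * al i ^ e)) ∈ W := ⟨_, he b, fun i => rfl⟩
    exact hker this
  apply hphi
  rw [hphi']
  have h3 := rank_arg ht hk w al (by simpa using hann 1 (by simpa using span_lin ht))
    (fun j hj2 hj => hann (1 + 2 ^ j) (span_quad ht hj2 hj))
  have := htrace 3 1
  simp only [one_mul] at this
  rw [this, h3, map_zero]

end field

theorem result :
    ∀ k : ℕ, ∃ t : ℕ, t.Prime ∧ ∃ D : Finset ℕ,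
      (∀ d ∈ D, d < 2 ^ t ∧ (Nat.digits 2 d).sum ≤ 2) ∧
      (∃ d : ℕ, d < 2 ^ t ∧ (Nat.digits 2 d).sum ≤ 2 ∧ d ∉ D) ∧
      (∀ d ∈ D, d ≠ 0 → (2 * d - 1) % (2 ^ t - 1) + 1 ∈ D) ∧
      (∀ d ∈ D, ∀ e : ℕ, (∀ i : ℕ, e.testBit i = true → d.testBit i = true) → e ∈ D) ∧
      ¬ ∃ C : Set ((Fin k → GaloisField 2 t) × Set (Fin k → ZMod 2)),
          ∀ f : GaloisField 2 t → ZMod 2,
            ((∃ c : ℕ → GaloisField 2 t, ∀ x : GaloisField 2 t,
                algebraMap (ZMod 2) (GaloisField 2 t) (f x) = ∑ d ∈ D, c d * x ^ d) ↔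
              ∀ p ∈ C, (fun i => f (p.1 i)) ∈ p.2) := by
  intro k
  obtain ⟨t, htk, htp⟩ := Nat.exists_infinite_primes (k + 5)
  have ht : Module.finrank (ZMod 2) (GaloisField 2 t) = t := GaloisField.finrank 2 (by omega)
  refine ⟨t, htp, DD t, fun d hd => DD_weight hd, ⟨3, ?_, by norm_num, three_notMem⟩,
    fun d hd hd0 => DD_double (by omega) hd hd0, fun d hd e he => DD_shadow hd e he, ?_⟩
  · calc 3 < 2 ^ 5 := by norm_num
      _ ≤ 2 ^ t := Nat.pow_le_pow_right (by norm_num) (by omega)
  · rintro ⟨C, hC⟩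
    apply not_span_cube (K := GaloisField 2 t) ht (by omega)
    have := (hC (fun x => Algebra.trace (ZMod 2) (GaloisField 2 t) (x ^ 3))).2
    apply this
    intro p hp
    obtain ⟨g, hg, hgv⟩ := interp (K := GaloisField 2 t) ht (k := k) (by omega) p.1
    have hgp := (hC g).1 hg p hp
    have heq : (fun i => g (p.1 i)) =
        fun i => Algebra.trace (ZMod 2) (GaloisField 2 t) (p.1 i ^ 3) := by
      funext i
      exact hgv i
    rw [heq] at hgp
    exact hgp

end Pool.Agent.S09547
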