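import Pool.Statements.S09552

set_option autoImplicit false
open Pool Pool.MP_8aa41f_lc

namespace Pool.Agent.S09552

open Finset

/-- Membership in an arithmetic progression with positive difference. -/
theorem mem_ap {a d L x : ℕ} (hd : 1 ≤ d) :
    x ∈ (Finset.range L).image (fun j => a + d * j) ↔
      a ≤ x ∧ x < a + d * L ∧ x % d = a % d := by
  rw [Finset.mem_image]
  constructor
  · rintro ⟨j, hj, rfl⟩
    rw [Finset.mem_range] at hj
    refine ⟨by omega, ?_, by simp⟩
    have : d * j < d * L := Nat.mul_lt_mul_of_pos_left hj (by omega)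
    omega
  · rintro ⟨h1, h2, h3⟩
    have h4 : d ∣ x - a := (Nat.modEq_iff_dvd' h1).mp h3.symm
    obtain ⟨j, hj⟩ := h4
    refine ⟨j, ?_, by omega⟩
    rw [Finset.mem_range]
    have : d * j < d * L := by omega
    exact lt_of_mul_lt_mul_left this (by omega)

/-- A progression inside `range n` that has difference zero or more than `K` is sparse. -/
theorem sparse_card {a d L n K : ℕ} (hd : ¬ (1 ≤ d ∧ d ≤ K))
    (hsub : (Finset.range L).image (fun j => a + d * j) ⊆ Finset.range n) :
    K * ((Finset.range L).image (fun j => a + d * j)).card ≤ n + K := by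
  rcases Nat.eq_zero_or_pos d with h0 | hpos
  · subst h0
    have : ((Finset.range L).image (fun j => a + 0 * j)).card ≤ 1 := by
      apply le_trans (Finset.card_le_card (t := {a}) _)
      · simp
      · intro x hx
        simp only [Finset.mem_image, Finset.mem_singleton] at hx ⊢
        obtain ⟨j, _, hj⟩ := hx
        omega
    calc K * _ ≤ K * 1 := Nat.mul_le_mul_left K this
      _ ≤ n + K := by omega
  · have hK : K < d := by
      by_contra h
      exact hd ⟨hpos, by omega⟩
    rcases Nat.eq_zero_or_pos L with hL | hL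
    · subst hL; simp
    · have hmem : a + d * (L - 1) ∈ Finset.range n := by
        apply hsub
        rw [Finset.mem_image]
        exact ⟨L - 1, by rw [Finset.mem_range]; omega, rfl⟩
      rw [Finset.mem_range] at hmem
      have hc : ((Finset.range L).image (fun j => a + d * j)).card ≤ L := by
        simpa using (Finset.card_image_le (s := Finset.range L) (f := fun j => a + d * j))
      have h1 : K * (L - 1) ≤ d * (L - 1) := Nat.mul_le_mul_right _ hK.le
      calc K * _ ≤ K * L := Nat.mul_le_mul_left K hc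
        _ = K * (L - 1) + K := by
            obtain ⟨l, rfl⟩ : ∃ l, L = l + 1 := ⟨L - 1, by omega⟩
            simp [Nat.mul_succ]
        _ ≤ n + K := by omega

/-- The counting core of the argument. -/
theorem count_main {n m K D : ℕ} (hKn : K ≤ n)
    (a d L : Fin m → ℕ)
    (hsub : ∀ i, (Finset.range (L i)).image (fun j => a i + d i * j) ⊆ Finset.range n)
    (hfib : ∀ X : Finset ℕ, X ⊆ Finset.range n →
      (∀ x ∈ X, ∀ y ∈ X, ∀ i, x ∈ (Finset.range (L i)).image (fun j => a i + d i * j) ↔
        y ∈ (Finset.range (L i)).image (fun j => a i + d i * j)) → X.card ≤ D + 1) :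
    n ≤ 2 * ((D + 1) * (K.factorial * ((2 * m + 1) *
      (univ.filter (fun P : Finset (Fin m) => K * P.card ≤ 4 * m)).card))) := by
  classical
  set T : Fin m → Finset ℕ := fun i => (Finset.range (L i)).image (fun j => a i + d i * j) with hT
  let P : ℕ → Finset (Fin m) := fun x => univ.filter (fun i => ¬ (1 ≤ d i ∧ d i ≤ K) ∧ x ∈ T i)
  let N : ℕ → ℕ := fun x => (univ.filter (fun i : Fin m => a i ≤ x)).card +
    (univ.filter (fun i : Fin m => a i + d i * L i ≤ x)).card
  let G : Finset ℕ := (range n).filter (fun x => K * (P x).card ≤ 4 * m)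
  let Bad : Finset ℕ := (range n).filter (fun x => ¬ (K * (P x).card ≤ 4 * m))
  have hGB : G.card + Bad.card = n := by
    have := Finset.card_filter_add_card_filter_not (s := range n)
      (fun x => K * (P x).card ≤ 4 * m)
    simpa [G, Bad] using this
  -- double counting
  have hdc : ∑ x ∈ range n, (P x).card = ∑ i ∈ univ.filter (fun i => ¬ (1 ≤ d i ∧ d i ≤ K)),
      (T i).card := by
    have h1 : ∀ x ∈ range n, (P x).card =
        ∑ i ∈ univ.filter (fun i => ¬ (1 ≤ d i ∧ d i ≤ K)), (if x ∈ T i then 1 else 0) := by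
      intro x _
      rw [Finset.sum_boole]
      simp only [P, Nat.cast_id]
      congr 1
      ext i
      simp
    rw [Finset.sum_congr rfl h1, Finset.sum_comm]
    refine Finset.sum_congr rfl ?_
    intro i _
    rw [Finset.sum_boole]
    simp only [Nat.cast_id]
    congr 1
    ext x
    simp only [Finset.mem_filter, Finset.mem_range]
    constructor
    · exact fun h => h.2
    · intro h
      exact ⟨by simpa using hsub i h, h⟩
  have hsum : K * ∑ x ∈ range n, (P x).card ≤ m * (2 * n) := by
    rw [hdc, Finset.mul_sum]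
    calc ∑ i ∈ univ.filter (fun i => ¬ (1 ≤ d i ∧ d i ≤ K)), K * (T i).card
        ≤ ∑ i ∈ univ.filter (fun i => ¬ (1 ≤ d i ∧ d i ≤ K)), (2 * n) := by
          refine Finset.sum_le_sum ?_
          intro i hi
          have := sparse_card (Finset.mem_filter.mp hi).2 (hsub i)
          calc K * (T i).card ≤ n + K := this
            _ ≤ 2 * n := by omega
      _ = (univ.filter (fun i => ¬ (1 ≤ d i ∧ d i ≤ K))).card * (2 * n) := by simp
      _ ≤ m * (2 * n) := by
          apply Nat.mul_le_mul_right
          simpa using Finset.card_le_univ (univ.filter (fun i => ¬ (1 ≤ d i ∧ d i ≤ K)))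
  have hbadsum : Bad.card * (4 * m) ≤ m * (2 * n) := by
    calc Bad.card * (4 * m) = ∑ x ∈ Bad, (4 * m) := by simp
      _ ≤ ∑ x ∈ Bad, K * (P x).card := by
          refine Finset.sum_le_sum ?_
          intro x hx
          have := (Finset.mem_filter.mp hx).2
          omega
      _ ≤ ∑ x ∈ range n, K * (P x).card := by
          apply Finset.sum_le_sum_of_subset
          exact Finset.filter_subset _ _
      _ = K * ∑ x ∈ range n, (P x).card := by rw [Finset.mul_sum]
      _ ≤ m * (2 * n) := hsum
  have hbad : 2 * Bad.card ≤ n := by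
    rcases Nat.eq_zero_or_pos m with hm | hm
    · have : Bad = ∅ := by
        apply Finset.filter_eq_empty_iff.mpr
        intro x _
        subst hm
        have : (P x).card = 0 := by
          have := Finset.card_le_univ (P x)
          simpa using this
        simp [this]
      rw [this]; simp
    · have h : m * (4 * Bad.card) ≤ m * (2 * n) := by
        calc m * (4 * Bad.card) = Bad.card * (4 * m) := by ring
          _ ≤ _ := hbadsum
      have := Nat.le_of_mul_le_mul_left h hm
      omega
  have hG : n ≤ 2 * G.card := by omega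
  -- the signature map
  let Φ : ℕ → ℕ × ℕ × Finset (Fin m) := fun x => (x % K.factorial, N x, P x)
  have hmaps : ∀ x ∈ G, Φ x ∈ range (K.factorial) ×ˢ (range (2 * m + 1) ×ˢ
      (univ.filter (fun P : Finset (Fin m) => K * P.card ≤ 4 * m))) := by
    intro x hx
    simp only [Φ, Finset.mem_product, Finset.mem_range, Finset.mem_filter, Finset.mem_univ,
      true_and]
    refine ⟨Nat.mod_lt _ (Nat.factorial_pos K), ?_, (Finset.mem_filter.mp hx).2⟩
    have h1 := Finset.card_le_univ (univ.filter (fun i : Fin m => a i ≤ x))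
    have h2 := Finset.card_le_univ (univ.filter (fun i : Fin m => a i + d i * L i ≤ x))
    simp only [Fintype.card_fin] at h1 h2
    simp only [N]
    omega
  have hNkey : ∀ x y : ℕ, x ≤ y → N x = N y → ∀ i : Fin m,
      (a i ≤ x ↔ a i ≤ y) ∧ (a i + d i * L i ≤ x ↔ a i + d i * L i ≤ y) := by
    intro x y hxy hN
    have s1 : univ.filter (fun i : Fin m => a i ≤ x) ⊆ univ.filter (fun i : Fin m => a i ≤ y) := by
      intro i hi
      simp only [Finset.mem_filter, Finset.mem_univ, true_and] at hi ⊢
      omega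
    have s2 : univ.filter (fun i : Fin m => a i + d i * L i ≤ x) ⊆
        univ.filter (fun i : Fin m => a i + d i * L i ≤ y) := by
      intro i hi
      simp only [Finset.mem_filter, Finset.mem_univ, true_and] at hi ⊢
      omega
    have c1 := Finset.card_le_card s1
    have c2 := Finset.card_le_card s2
    simp only [N] at hN
    have e1 := Finset.eq_of_subset_of_card_le s1 (by omega)
    have e2 := Finset.eq_of_subset_of_card_le s2 (by omega)
    intro i
    constructor
    · have := Finset.ext_iff.mp e1 i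
      simpa using this
    · have := Finset.ext_iff.mp e2 i
      simpa using this
  have hNkey' : ∀ x y : ℕ, N x = N y → ∀ i : Fin m,
      (a i ≤ x ↔ a i ≤ y) ∧ (a i + d i * L i ≤ x ↔ a i + d i * L i ≤ y) := by
    intro x y hN i
    rcases le_total x y with h | h
    · exact hNkey x y h hN i
    · have := hNkey y x h hN.symm i
      exact ⟨this.1.symm, this.2.symm⟩
  have hfibΦ : ∀ b ∈ range (K.factorial) ×ˢ (range (2 * m + 1) ×ˢ
      (univ.filter (fun P : Finset (Fin m) => K * P.card ≤ 4 * m))),
      (G.filter (fun x => Φ x = b)).card ≤ D + 1 := by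
    intro b _
    apply hfib
    · intro x hx
      have := (Finset.mem_filter.mp hx).1
      exact (Finset.mem_filter.mp this).1
    · intro x hx y hy i
      have hx' := (Finset.mem_filter.mp hx).2
      have hy' := (Finset.mem_filter.mp hy).2
      have hxy : Φ x = Φ y := by rw [hx', hy']
      simp only [Φ, Prod.mk.injEq] at hxy
      obtain ⟨hmod, hN, hP⟩ := hxy
      by_cases hdi : 1 ≤ d i ∧ d i ≤ K
      · rw [mem_ap hdi.1, mem_ap hdi.1]
        have hk := hNkey' x y hN i
        have hdvd : d i ∣ K.factorial := Nat.dvd_factorial (by omega) hdi.2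
        have hm2 : x % d i = y % d i := by
          have h1 : x % K.factorial % d i = x % d i := Nat.mod_mod_of_dvd x hdvd
          have h2 : y % K.factorial % d i = y % d i := Nat.mod_mod_of_dvd y hdvd
          rw [← h1, ← h2, hmod]
        rw [hm2]
        constructor
        · rintro ⟨h1, h2, h3⟩
          refine ⟨hk.1.mp h1, ?_, h3⟩
          by_contra h4
          have := hk.2.mpr (by omega)
          omega
        · rintro ⟨h1, h2, h3⟩
          refine ⟨hk.1.mpr h1, ?_, h3⟩
          by_contra h4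
          have := hk.2.mp (by omega)
          omega
      · have := Finset.ext_iff.mp hP i
        simp only [P, Finset.mem_filter, Finset.mem_univ, true_and, hdi, not_false_eq_true] at this
        exact this
  have hfin := Finset.card_le_mul_card_image_of_maps_to hmaps (D + 1) hfibΦ
  rw [Finset.card_product, Finset.card_product, Finset.card_range, Finset.card_range] at hfin
  calc n ≤ 2 * G.card := hG
    _ ≤ _ := Nat.mul_le_mul_left 2 hfin

/-- Few subsets of `Fin m` have size at most `4 m / K`. -/
theorem few_small {m K : ℕ} (hK : 1 ≤ K) :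
    ((univ.filter (fun P : Finset (Fin m) => K * P.card ≤ 4 * m)).card : ℝ) ≤
      Real.exp ((m : ℝ) * ((4 * Real.log K + 1) / K)) := by
  have hKR : (1 : ℝ) ≤ (K : ℝ) := by exact_mod_cast hK
  have hKpos : (0 : ℝ) < (K : ℝ) := by linarith
  have hlog : 0 ≤ Real.log (K : ℝ) := Real.log_nonneg hKR
  have h1 : ((univ.filter (fun P : Finset (Fin m) => K * P.card ≤ 4 * m)).card : ℝ) ≤
      ∑ P : Finset (Fin m), Real.exp ((4 * (m : ℝ) / K) * Real.log K) * (1 / (K : ℝ)) ^ P.card := by
    rw [Finset.card_filter]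
    push_cast
    refine Finset.sum_le_sum ?_
    intro P _
    split_ifs with hP
    · have hP' : (K : ℝ) * (P.card : ℝ) ≤ 4 * (m : ℝ) := by exact_mod_cast hP
      have e1 : (1 / (K : ℝ)) ^ P.card = Real.exp (-((P.card : ℝ) * Real.log K)) := by
        rw [Real.exp_neg, mul_comm, Real.exp_mul, Real.exp_log hKpos, Real.rpow_natCast]
        simp
      rw [e1, ← Real.exp_add]
      have : 0 ≤ 4 * (m : ℝ) / K * Real.log K + -((P.card : ℝ) * Real.log K) := by
        have h2 : (P.card : ℝ) ≤ 4 * (m : ℝ) / K := by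
          rw [le_div_iff₀ hKpos]; linarith
        nlinarith
      exact Real.one_le_exp this
    · positivity
  have h2 : ∑ P : Finset (Fin m), Real.exp ((4 * (m : ℝ) / K) * Real.log K) * (1 / (K : ℝ)) ^ P.card
      = Real.exp ((4 * (m : ℝ) / K) * Real.log K) * (1 / (K : ℝ) + 1) ^ m := by
    rw [← Finset.mul_sum]
    congr 1
    have := Finset.sum_pow_mul_eq_add_pow (1 / (K : ℝ)) (1 : ℝ) (univ : Finset (Fin m))
    simpa using this
  have h3 : (1 / (K : ℝ) + 1) ^ m ≤ Real.exp ((m : ℝ) / K) := by
    calc (1 / (K : ℝ) + 1) ^ m ≤ (Real.exp (1 / (K : ℝ))) ^ m := by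
          apply pow_le_pow_left₀ (by positivity)
          exact Real.add_one_le_exp _
      _ = Real.exp ((m : ℝ) / K) := by
          rw [← Real.exp_nat_mul]; congr 1; ring
  calc ((univ.filter (fun P : Finset (Fin m) => K * P.card ≤ 4 * m)).card : ℝ)
      ≤ Real.exp ((4 * (m : ℝ) / K) * Real.log K) * (1 / (K : ℝ) + 1) ^ m := by
        rw [← h2]; exact h1
    _ ≤ Real.exp ((4 * (m : ℝ) / K) * Real.log K) * Real.exp ((m : ℝ) / K) :=
        mul_le_mul_of_nonneg_left h3 (Real.exp_pos _).le
    _ = Real.exp ((m : ℝ) * ((4 * Real.log K + 1) / K)) := by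
        rw [← Real.exp_add]; congr 1; ring

/-- A threshold `K` for which sparse tests carry little information. -/
theorem exists_threshold (C : ℝ) : ∃ K : ℕ, 1 ≤ K ∧ C * ((4 * Real.log K + 1) / K) ≤ 1 / 4 := by
  have h1 : Filter.Tendsto (fun x : ℝ => Real.log x / x) Filter.atTop (nhds 0) :=
    Real.isLittleO_log_id_atTop.tendsto_div_nhds_zero
  have h2 : Filter.Tendsto (fun x : ℝ => 1 / x) Filter.atTop (nhds 0) := by
    simpa using tendsto_inv_atTop_zero (𝕜 := ℝ)
  have h3 : Filter.Tendsto (fun x : ℝ => C * (4 * (Real.log x / x) + 1 / x)) Filter.atTop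
      (nhds (C * (4 * 0 + 0))) := (((h1.const_mul 4).add h2).const_mul C)
  have h4 := h3.comp (tendsto_natCast_atTop_atTop (R := ℝ))
  have h5 : ∀ᶠ K : ℕ in Filter.atTop, C * (4 * (Real.log (K : ℝ) / K) + 1 / K) < 1 / 4 := by
    apply h4.eventually_lt_const
    norm_num
  obtain ⟨K, hK1, hK2⟩ := (h5.and (Filter.eventually_ge_atTop 1)).exists
  refine ⟨K, hK2, ?_⟩
  have : C * ((4 * Real.log K + 1) / K) = C * (4 * (Real.log (K : ℝ) / K) + 1 / K) := by ring
  rw [this]
  exact hK1.le

/-- The negation of the preceding statement: There are constants C, D such that for all 1 ≤ k ≤ n (n ≥ 2), some at most C·k·log n arithmetic progressions in [n] have this property: from their emptiness outcomes, querying at most D·k chosen points always pins down any hidden set of size at most k. -/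
theorem result :
    ¬ (∃ C : ℝ, ∃ D : ℕ, ∀ n k : ℕ, 2 ≤ n → 1 ≤ k → k ≤ n →
      ∃ m : ℕ, (m : ℝ) ≤ C * (k : ℝ) * Real.log (n : ℝ) ∧
        ∃ T : Fin m → Finset ℕ,
          (∀ i, T i ⊆ Finset.range n ∧
            ∃ a d L : ℕ, T i = (Finset.range L).image (fun j => a + d * j)) ∧
          ∃ J : (Fin m → Bool) → Finset ℕ,
            (∀ o, (J o).card ≤ D * k) ∧
            ∀ S S' : Finset ℕ, S ⊆ Finset.range n → S' ⊆ Finset.range n →
              S.card ≤ k → S'.card ≤ k →
              (fun i => decide (Disjoint (T i) S)) =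
                (fun i => decide (Disjoint (T i) S')) →
              S ∩ J (fun i => decide (Disjoint (T i) S)) =
                S' ∩ J (fun i => decide (Disjoint (T i) S)) →
              S = S') := by
  rintro ⟨C₀, D, H⟩
  set C : ℝ := max C₀ 1 with hC
  have hC1 : 1 ≤ C := le_max_right _ _
  obtain ⟨K, hK1, hK⟩ := exists_threshold C
  set A : ℝ := 2 * ((D + 1 : ℕ) * (K.factorial : ℝ)) * (8 * C + 1) with hA
  have hApos : 0 < A := by positivity
  obtain ⟨n, hn⟩ := exists_nat_gt (max (A ^ 2) (max (K : ℝ) 2))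
  have hnA : A ^ 2 < (n : ℝ) := lt_of_le_of_lt (le_max_left _ _) hn
  have hnK : (K : ℝ) < (n : ℝ) :=
    lt_of_le_of_lt (le_trans (le_max_left _ _) (le_max_right _ _)) hn
  have hn2 : (2 : ℝ) < (n : ℝ) :=
    lt_of_le_of_lt (le_trans (le_max_right _ _) (le_max_right _ _)) hn
  have hnK' : K ≤ n := by
    have : K < n := by exact_mod_cast hnK
    omega
  have hn2' : 2 ≤ n := by
    have : 2 < n := by exact_mod_cast hn2
    omega
  obtain ⟨m, hm, T, hT, J, hJ, hS⟩ := H n 1 hn2' le_rfl (by omega)
  choose hsub a d L hTe using hT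
  have hlogn : 0 ≤ Real.log (n : ℝ) := Real.log_nonneg (by linarith)
  have hmC : (m : ℝ) ≤ C * Real.log (n : ℝ) := by
    calc (m : ℝ) ≤ C₀ * ((1 : ℕ) : ℝ) * Real.log (n : ℝ) := hm
      _ = C₀ * Real.log (n : ℝ) := by push_cast; ring
      _ ≤ C * Real.log (n : ℝ) := mul_le_mul_of_nonneg_right (le_max_left _ _) hlogn
  have hcount := count_main (D := D) hnK' a d L (by intro i; rw [← hTe i]; exact hsub i) (by
    intro X hX hXX
    by_contra hcard
    push Not at hcard
    -- all points of X have the same outcome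
    rcases X.eq_empty_or_nonempty with he | ⟨x₀, hx₀⟩
    · rw [he] at hcard; simp at hcard
    · set o : Fin m → Bool := fun i => decide (Disjoint (T i) {x₀}) with ho
      have hJc : (J o).card ≤ D := by simpa using hJ o
      have hdiff : 1 < (X \ J o).card := by
        have := Finset.le_card_sdiff (J o) X
        omega
      obtain ⟨x, hx, y, hy, hxy⟩ := Finset.one_lt_card.mp hdiff
      rw [Finset.mem_sdiff] at hx hy
      have hout : ∀ z ∈ X, (fun i => decide (Disjoint (T i) {z})) = o := by
        intro z hz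
        funext i
        have h1 := hXX z hz x₀ hx₀ i
        rw [← hTe i] at h1
        simp only [ho, Finset.disjoint_singleton_right]
        rw [decide_eq_decide, h1]
      have hsx : (fun i => decide (Disjoint (T i) {x})) = o := hout x hx.1
      have hsy : (fun i => decide (Disjoint (T i) {y})) = o := hout y hy.1
      have := hS {x} {y} (by simpa using hX hx.1) (by simpa using hX hy.1) (by simp) (by simp)
        (by rw [hsx, hsy]) (by
          rw [hsx]
          rw [Finset.singleton_inter_of_notMem hx.2, Finset.singleton_inter_of_notMem hy.2])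
      exact hxy (Finset.singleton_injective this))
  have hfew := few_small (m := m) hK1
  set Q : ℕ := (univ.filter (fun P : Finset (Fin m) => K * P.card ≤ 4 * m)).card with hQ
  have hnpos : (0 : ℝ) < (n : ℝ) := by linarith
  -- Q ≤ n^(1/4)
  have hQn : (Q : ℝ) ≤ (n : ℝ) ^ (1 / 4 : ℝ) := by
    refine le_trans hfew ?_
    rw [Real.rpow_def_of_pos hnpos]
    apply Real.exp_le_exp.mpr
    have hfac : 0 ≤ (4 * Real.log (K : ℝ) + 1) / (K : ℝ) := by
      have : 0 ≤ Real.log (K : ℝ) := Real.log_nonneg (by exact_mod_cast hK1)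
      positivity
    calc (m : ℝ) * ((4 * Real.log K + 1) / K)
        ≤ (C * Real.log (n : ℝ)) * ((4 * Real.log K + 1) / K) :=
          mul_le_mul_of_nonneg_right hmC hfac
      _ = Real.log (n : ℝ) * (C * ((4 * Real.log K + 1) / K)) := by ring
      _ ≤ Real.log (n : ℝ) * (1 / 4) := mul_le_mul_of_nonneg_left hK hlogn
  have hlog4 : Real.log (n : ℝ) ≤ (n : ℝ) ^ (1 / 4 : ℝ) / (1 / 4) :=
    Real.log_le_rpow_div hnpos.le (by norm_num)
  have hn14 : 1 ≤ (n : ℝ) ^ (1 / 4 : ℝ) := Real.one_le_rpow (by linarith) (by norm_num)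
  have h2m : (2 * (m : ℝ) + 1) ≤ (8 * C + 1) * (n : ℝ) ^ (1 / 4 : ℝ) := by
    have : C * Real.log (n : ℝ) ≤ C * ((n : ℝ) ^ (1 / 4 : ℝ) / (1 / 4)) :=
      mul_le_mul_of_nonneg_left hlog4 (by linarith)
    nlinarith
  have hcountR : (n : ℝ) ≤ 2 * (((D + 1 : ℕ) : ℝ) * ((K.factorial : ℝ) * ((2 * (m : ℝ) + 1) *
      (Q : ℝ)))) := by
    exact_mod_cast hcount
  have hprod : (2 * (m : ℝ) + 1) * (Q : ℝ) ≤ (8 * C + 1) * (n : ℝ) ^ (1 / 2 : ℝ) := by
    calc (2 * (m : ℝ) + 1) * (Q : ℝ)
        ≤ ((8 * C + 1) * (n : ℝ) ^ (1 / 4 : ℝ)) * (n : ℝ) ^ (1 / 4 : ℝ) := by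
          apply mul_le_mul h2m hQn (by positivity) (by positivity)
      _ = (8 * C + 1) * (n : ℝ) ^ (1 / 2 : ℝ) := by
          rw [mul_assoc, ← Real.rpow_add hnpos]; norm_num
  have hfinal : (n : ℝ) ≤ A * (n : ℝ) ^ (1 / 2 : ℝ) := by
    calc (n : ℝ) ≤ 2 * (((D + 1 : ℕ) : ℝ) * ((K.factorial : ℝ) * ((2 * (m : ℝ) + 1) * (Q : ℝ)))) :=
          hcountR
      _ = 2 * (((D + 1 : ℕ) : ℝ) * (K.factorial : ℝ)) * ((2 * (m : ℝ) + 1) * (Q : ℝ)) := by ring
      _ ≤ 2 * (((D + 1 : ℕ) : ℝ) * (K.factorial : ℝ)) * ((8 * C + 1) * (n : ℝ) ^ (1 / 2 : ℝ)) :=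
          mul_le_mul_of_nonneg_left hprod (by positivity)
      _ = A * (n : ℝ) ^ (1 / 2 : ℝ) := by rw [hA]; ring
  rw [← Real.sqrt_eq_rpow] at hfinal
  have hsq : Real.sqrt (n : ℝ) * Real.sqrt (n : ℝ) = (n : ℝ) := Real.mul_self_sqrt hnpos.le
  have hspos : 0 < Real.sqrt (n : ℝ) := Real.sqrt_pos.mpr hnpos
  have hle : Real.sqrt (n : ℝ) ≤ A := by
    by_contra hcon
    push Not at hcon
    have : A * Real.sqrt (n : ℝ) < Real.sqrt (n : ℝ) * Real.sqrt (n : ℝ) :=
      mul_lt_mul_of_pos_right hcon hspos
    linarith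
  have : (n : ℝ) ≤ A ^ 2 := by
    calc (n : ℝ) = Real.sqrt (n : ℝ) ^ 2 := by rw [sq]; exact hsq.symm
      _ ≤ A ^ 2 := pow_le_pow_left₀ hspos.le hle 2
  linarith

end Pool.Agent.S09552
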