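import Pool.Statements.S09560

set_option autoImplicit false
open Pool Pool.MP_8bf09d_lc

namespace Pool.Agent.S09560

open Nat.Partrec (Code)

/-- stage `m` certificate that program number `i` halts on input `0`. -/
def halts (m i : ℕ) : Bool := (Code.evaln m (Denumerable.ofNat Code i) 0).isSome

/-- the successor relation between (halved) degrees. -/
def good (a b : ℕ) : Prop :=
  (Nat.unpair (b / 2)).1 = (Nat.unpair (a / 2)).1 + 1 ∧
  (Nat.unpair (a / 2)).2 < (Nat.unpair (b / 2)).2 ∧
  ∀ i < (Nat.unpair (a / 2)).1,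
    halts (Nat.unpair (b / 2)).2 i = true → halts (Nat.unpair (a / 2)).2 i = true

instance (a b : ℕ) : Decidable (good a b) := by unfold good; infer_instance

theorem halts_mono {m m' i : ℕ} (h : m ≤ m') (hh : halts m i = true) : halts m' i = true := by
  unfold halts at *
  rw [Option.isSome_iff_exists] at *
  obtain ⟨x, hx⟩ := hh
  exact ⟨x, Code.evaln_mono h hx⟩

theorem dom_iff (c : Code) : (Code.eval c 0).Dom ↔ ∃ m, halts m (Encodable.encode c) = true := by
  constructor
  · intro h
    obtain ⟨k, hk⟩ := Code.evaln_complete.1 (Part.get_mem h)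
    exact ⟨k, by unfold halts; rw [Denumerable.ofNat_encode, Option.isSome_iff_exists]; exact ⟨_, hk⟩⟩
  · rintro ⟨m, hm⟩
    unfold halts at hm
    rw [Denumerable.ofNat_encode, Option.isSome_iff_exists] at hm
    obtain ⟨x, hx⟩ := hm
    exact Part.dom_iff_mem.2 ⟨x, Code.evaln_sound hx⟩

theorem halts_prim : Primrec₂ halts := by
  unfold halts
  have h1 : Primrec fun p : ℕ × ℕ => Code.evaln p.1 (Denumerable.ofNat Code p.2) 0 :=
    Code.primrec_evaln.comp (((Primrec.fst).pair ((Primrec.ofNat Code).comp Primrec.snd)).pair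
      (Primrec.const 0))
  exact Primrec.option_isSome.comp h1

theorem good_prim : PrimrecRel good := by
  have hR : PrimrecRel (fun (i : ℕ) (p : ℕ × ℕ) => halts p.2 i = true → halts p.1 i = true) := by
    have h1 : PrimrecPred (fun q : ℕ × (ℕ × ℕ) => halts q.2.2 q.1 = true) :=
      Primrec.eq.comp (halts_prim.comp (Primrec.snd.comp Primrec.snd) Primrec.fst)
        (Primrec.const true)
    have h2 : PrimrecPred (fun q : ℕ × (ℕ × ℕ) => halts q.2.1 q.1 = true) :=
      Primrec.eq.comp (halts_prim.comp (Primrec.fst.comp Primrec.snd) Primrec.fst)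
        (Primrec.const true)
    exact (h1.not.or h2).of_eq (fun q => by tauto)
  have hF := hR.forall_mem_list
  have ua : Primrec fun p : ℕ × ℕ => Nat.unpair (p.1 / 2) :=
    Primrec.unpair.comp (Primrec.nat_div.comp Primrec.fst (Primrec.const 2))
  have ub : Primrec fun p : ℕ × ℕ => Nat.unpair (p.2 / 2) :=
    Primrec.unpair.comp (Primrec.nat_div.comp Primrec.snd (Primrec.const 2))
  have c1 : PrimrecPred fun p : ℕ × ℕ => (Nat.unpair (p.2 / 2)).1 = (Nat.unpair (p.1 / 2)).1 + 1 :=
    Primrec.eq.comp (Primrec.fst.comp ub) (Primrec.succ.comp (Primrec.fst.comp ua))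
  have c2 : PrimrecPred fun p : ℕ × ℕ => (Nat.unpair (p.1 / 2)).2 < (Nat.unpair (p.2 / 2)).2 :=
    Primrec.nat_lt.comp (Primrec.snd.comp ua) (Primrec.snd.comp ub)
  have c3 : PrimrecPred fun p : ℕ × ℕ => ∀ i ∈ List.range (Nat.unpair (p.1 / 2)).1,
      halts (Nat.unpair (p.2 / 2)).2 i = true → halts (Nat.unpair (p.1 / 2)).2 i = true :=
    hF.comp (Primrec.list_range.comp (Primrec.fst.comp ua))
      ((Primrec.snd.comp ua).pair (Primrec.snd.comp ub))
  exact (c1.and (c2.and c3)).of_eq (fun p => by simp [good])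

/-- a list without duplicates having the same members -/
def nd (l : List ℕ) : List ℕ :=
  l.foldr (fun a s => if s.idxOf a < s.length then s else a :: s) []

theorem nd_prim : Primrec nd := by
  have h1 : Primrec fun p : List ℕ × (ℕ × List ℕ) => p.2.1 := Primrec.fst.comp Primrec.snd
  have h2 : Primrec fun p : List ℕ × (ℕ × List ℕ) => p.2.2 := Primrec.snd.comp Primrec.snd
  have h3 : Primrec₂ fun (_ : List ℕ) (p : ℕ × List ℕ) =>
      if p.2.idxOf p.1 < p.2.length then p.2 else p.1 :: p.2 :=
    Primrec.ite (Primrec.nat_lt.comp (Primrec.list_idxOf.comp h1 h2) (Primrec.list_length.comp h2))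
      h2 (Primrec.list_cons.comp h1 h2)
  exact Primrec.list_foldr Primrec.id (Primrec.const []) h3

theorem mem_nd (l : List ℕ) (x : ℕ) : x ∈ nd l ↔ x ∈ l := by
  induction l with
  | nil => simp [nd]
  | cons a l ih =>
    have : nd (a :: l) = if (nd l).idxOf a < (nd l).length then nd l else a :: nd l := rfl
    rw [this]
    split_ifs with h
    · rw [List.idxOf_lt_length_iff] at h
      rw [ih, List.mem_cons]
      constructor
      · exact Or.inr
      · rintro (rfl | h')
        · exact ih.1 h
        · exact h'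
    · rw [List.mem_cons, List.mem_cons, ih]

theorem nodup_nd (l : List ℕ) : (nd l).Nodup := by
  induction l with
  | nil => simp [nd]
  | cons a l ih =>
    have : nd (a :: l) = if (nd l).idxOf a < (nd l).length then nd l else a :: nd l := rfl
    rw [this]
    split_ifs with h
    · exact ih
    · rw [List.idxOf_lt_length_iff] at h
      exact List.nodup_cons.2 ⟨h, ih⟩

section chain

variable (f : ℕ → List ℕ)

/-- the last good neighbour in the list, if there is one -/
def nx (v : ℕ) : Option ℕ :=
  Nat.rec (motive := fun _ => Option ℕ) none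
    (fun i acc => bif decide (good (f v).length (f ((f v).getD i 0)).length)
      then some ((f v).getD i 0) else acc) (f v).length

variable {f}

theorem nx_comp (hf : Computable f) : Computable (nx f) := by
  have hget : Computable fun p : ℕ × (ℕ × Option ℕ) => (f p.1).getD p.2.1 0 :=
    (Primrec.list_getD 0).to_comp.comp (hf.comp Computable.fst)
      (Computable.fst.comp Computable.snd)
  have hg : Computable₂ (fun a b : ℕ => decide (good a b)) := good_prim.decide.to_comp
  have h3 : Computable fun p : ℕ × (ℕ × Option ℕ) => p.2.2 := Computable.snd.comp Computable.snd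
  have h4 : Computable₂ fun (v : ℕ) (p : ℕ × Option ℕ) =>
      bif decide (good (f v).length (f ((f v).getD p.1 0)).length)
        then some ((f v).getD p.1 0) else p.2 :=
    Computable.cond (hg.comp (Computable.list_length.comp (hf.comp Computable.fst))
      (Computable.list_length.comp (hf.comp hget))) (Computable.option_some.comp hget) h3
  exact Computable.nat_rec (Computable.list_length.comp hf) (Computable.const none) h4

theorem nx_some {v w : ℕ} (h : nx f v = some w) :
    w ∈ f v ∧ good (f v).length (f w).length := by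
  unfold nx at h
  suffices H : ∀ n ≤ (f v).length, (Nat.rec (motive := fun _ => Option ℕ) none
    (fun i acc => bif decide (good (f v).length (f ((f v).getD i 0)).length)
      then some ((f v).getD i 0) else acc) n) = some w →
      w ∈ f v ∧ good (f v).length (f w).length from H _ le_rfl h
  intro n
  induction n with
  | zero => intro _ h; simp at h
  | succ n ih =>
    intro hn h
    simp only at h
    by_cases hg : good (f v).length (f ((f v).getD n 0)).length
    · rw [decide_eq_true hg, cond_true] at h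
      have hw := Option.some.inj h
      subst hw
      refine ⟨?_, hg⟩
      rw [List.getD_eq_getElem _ _ (by omega : n < (f v).length)]
      exact List.getElem_mem _
    · rw [decide_eq_false hg, cond_false] at h
      exact ih (by omega) h

theorem nx_none {v : ℕ} (h : nx f v = none) :
    ∀ w ∈ f v, ¬ good (f v).length (f w).length := by
  unfold nx at h
  suffices H : ∀ n ≤ (f v).length, (Nat.rec (motive := fun _ => Option ℕ) none
    (fun i acc => bif decide (good (f v).length (f ((f v).getD i 0)).length)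
      then some ((f v).getD i 0) else acc) n) = none →
      ∀ i < n, ¬ good (f v).length (f ((f v).getD i 0)).length by
    intro w hw
    obtain ⟨i, hi, rfl⟩ := List.getElem_of_mem hw
    have := H _ le_rfl h i hi
    rwa [List.getD_eq_getElem _ _ hi] at this
  intro n
  induction n with
  | zero => intro _ _ i hi; omega
  | succ n ih =>
    intro hn h i hi
    simp only at h
    by_cases hg : good (f v).length (f ((f v).getD n 0)).length
    · rw [decide_eq_true hg, cond_true] at h
      simp at h
    · rw [decide_eq_false hg, cond_false] at h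
      rcases Nat.lt_succ_iff_lt_or_eq.1 hi with h1 | h1
      · exact ih (by omega) h i h1
      · subst h1; exact hg

variable (f) in
/-- the chain of good neighbours from `v` -/
def it (v n : ℕ) : Option ℕ :=
  Nat.rec (motive := fun _ => Option ℕ) (some v) (fun _ acc => acc.bind (nx f)) n

theorem it_comp (hf : Computable f) : Computable₂ (it f) := by
  unfold it
  have h : Computable fun p : ℕ × ℕ =>
      (Nat.rec (motive := fun _ => Option ℕ) (some p.1) (fun _ acc => acc.bind (nx f)) p.2
        : Option ℕ) := by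
    have h1 : Computable fun q : (ℕ × ℕ) × (ℕ × Option ℕ) => q.2.2 :=
      Computable.snd.comp Computable.snd
    have h2 : Computable₂ fun (_ : (ℕ × ℕ) × (ℕ × Option ℕ)) (w : ℕ) => nx f w :=
      (nx_comp hf).comp Computable.snd
    have h3 : Computable₂ fun (_ : ℕ × ℕ) (q : ℕ × Option ℕ) => q.2.bind (nx f) :=
      Computable.option_bind h1 h2
    exact Computable.nat_rec Computable.snd (Computable.option_some.comp Computable.fst) h3
  exact h

theorem it_succ (v n : ℕ) : it f v (n + 1) = (it f v n).bind (nx f) := rfl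

theorem it_succ' (v n : ℕ) : it f v (n + 1) = (nx f v).bind (fun w => it f w n) := by
  induction n with
  | zero =>
    rw [it_succ]
    show (some v).bind (nx f) = (nx f v).bind (fun w => some w)
    simp
  | succ n ih =>
    rw [it_succ, ih]
    cases nx f v with
    | none => simp
    | some w => simp [it_succ]

/-- every chain stops: an infinite chain would decide the halting problem -/
theorem it_stops (hf : Computable f) (v : ℕ) : ∃ n, it f v n = none := by
  by_contra hcon
  push Not at hcon
  have hs : ∀ n, ∃ w, it f v n = some w := fun n => Option.ne_none_iff_exists'.1 (hcon n)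
  choose u hu using hs
  have hstep : ∀ n, good (f (u n)).length (f (u (n + 1))).length := by
    intro n
    have h1 := hu (n + 1)
    rw [it_succ, hu n] at h1
    exact (nx_some h1).2
  set N : ℕ → ℕ := fun n => (Nat.unpair ((f (u n)).length / 2)).1 with hN
  set M : ℕ → ℕ := fun n => (Nat.unpair ((f (u n)).length / 2)).2 with hM
  have hN1 : ∀ n, N (n + 1) = N n + 1 := fun n => (hstep n).1
  have hM1 : ∀ n, M n < M (n + 1) := fun n => (hstep n).2.1
  have hH : ∀ n, ∀ i < N n, halts (M (n + 1)) i = true → halts (M n) i = true :=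
    fun n => (hstep n).2.2
  have hNn : ∀ n, n ≤ N n := by
    intro n
    induction n with
    | zero => exact Nat.zero_le _
    | succ n ih => rw [hN1]; omega
  have hMn : ∀ n, n ≤ M n := by
    intro n
    induction n with
    | zero => exact Nat.zero_le _
    | succ n ih => have := hM1 n; omega
  have hback : ∀ i k, halts (M (i + 1 + k)) i = true → halts (M (i + 1)) i = true := by
    intro i k
    induction k with
    | zero => exact id
    | succ k ih =>
      intro h
      exact ih (hH (i + 1 + k) i (by have := hNn (i + 1 + k); omega) h)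
  have hdec : ∀ c : Code, (Code.eval c 0).Dom ↔
      halts (M (Encodable.encode c + 1)) (Encodable.encode c) = true := by
    intro c
    rw [dom_iff]
    constructor
    · rintro ⟨m, hm⟩
      refine hback _ m (halts_mono ?_ hm)
      have := hMn (Encodable.encode c + 1 + m)
      omega
    · intro h
      exact ⟨_, h⟩
  have hucomp : Computable u := by
    have h1 : Computable fun n => it f v n := (it_comp hf).comp (Computable.const v) Computable.id
    have h2 : Computable fun n => (it f v n).getD 0 :=
      Computable.option_getD h1 (Computable.const 0)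
    refine h2.of_eq (fun n => ?_)
    rw [hu n]; rfl
  have hMcomp : Computable M := by
    have h1 : Computable fun n => (f (u n)).length := Computable.list_length.comp (hf.comp hucomp)
    have h2 : Computable fun n => (f (u n)).length / 2 :=
      (Primrec.nat_div.to_comp).comp h1 (Computable.const 2)
    exact Computable.snd.comp (Computable.unpair.comp h2)
  apply ComputablePred.halting_problem 0
  rw [ComputablePred.computable_iff]
  refine ⟨fun c => halts (M (Encodable.encode c + 1)) (Encodable.encode c), ?_, ?_⟩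
  · exact halts_prim.to_comp.comp
      (hMcomp.comp (Computable.succ.comp Computable.encode)) Computable.encode
  · funext c
    exact propext (hdec c)

variable (f) in
/-- sum of the degrees along the chain, `n` steps -/
def su (v n : ℕ) : ℕ :=
  Nat.rec (motive := fun _ => ℕ) 0
    (fun i acc => acc + ((it f v i).map (fun w => (f w).length)).getD 0) n

theorem su_comp (hf : Computable f) : Computable₂ (su f) := by
  unfold su
  have h : Computable fun p : ℕ × ℕ =>
      (Nat.rec (motive := fun _ => ℕ) 0
        (fun i acc => acc + ((it f p.1 i).map (fun w => (f w).length)).getD 0) p.2 : ℕ) := by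
    have h1 : Computable fun q : (ℕ × ℕ) × (ℕ × ℕ) => it f q.1.1 q.2.1 :=
      (it_comp hf).comp (Computable.fst.comp Computable.fst) (Computable.fst.comp Computable.snd)
    have h2 : Computable₂ fun (_ : (ℕ × ℕ) × (ℕ × ℕ)) (w : ℕ) => (f w).length :=
      Computable.list_length.comp (hf.comp Computable.snd)
    have h3 : Computable₂ fun (p : ℕ × ℕ) (q : ℕ × ℕ) =>
        q.2 + ((it f p.1 q.1).map (fun w => (f w).length)).getD 0 :=
      (Primrec.nat_add.to_comp).comp (Computable.snd.comp Computable.snd)
        (Computable.option_getD (Computable.option_map h1 h2) (Computable.const 0))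
    exact Computable.nat_rec Computable.snd (Computable.const 0) h3
  exact h

theorem su_succ (v n : ℕ) : su f v (n + 1) =
    su f v n + ((it f v n).map (fun w => (f w).length)).getD 0 := rfl

theorem su_succ' {v w : ℕ} (h : nx f v = some w) (n : ℕ) :
    su f v (n + 1) = (f v).length + su f w n := by
  induction n with
  | zero =>
    rw [su_succ]
    show 0 + ((some v).map (fun w => (f w).length)).getD 0 = (f v).length + 0
    simp
  | succ n ih =>
    rw [su_succ, ih, su_succ, it_succ', h]
    simp [add_assoc]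

theorem exists_colouring (hf : Computable f) : ∃ c : ℕ → Fin 2, Computable c ∧
    ∀ v, (∃ w ∈ f v, good (f v).length (f w).length) →
      ∃ w ∈ f v, good (f v).length (f w).length ∧ (c w = c v ↔ Even (f v).length) := by
  have hfind : Partrec fun v : ℕ => Nat.rfind fun n => (Part.some (it f v n).isNone : Part Bool) := by
    refine Partrec.rfind ?_
    have h1 : Computable fun p : ℕ × ℕ => (it f p.1 p.2).isNone := by
      have h0 : Computable fun p : ℕ × ℕ => it f p.1 p.2 := it_comp hf
      have h2 : Computable fun p : ℕ × ℕ => ! (it f p.1 p.2).isSome :=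
        Primrec.not.to_comp.comp (Primrec.option_isSome.to_comp.comp h0)
      exact h2.of_eq (fun p => by cases it f p.1 p.2 <;> rfl)
    exact h1
  have hmin : ∀ v, ∃ n, n ∈ Nat.rfind fun n => (Part.some (it f v n).isNone : Part Bool) := by
    intro v
    obtain ⟨n, hn⟩ := it_stops hf v
    have := @Nat.rfind_min' (fun n => (it f v n).isNone) n (by simp [hn])
    obtain ⟨m, hm, _⟩ := this
    exact ⟨m, hm⟩
  choose t ht using hmin
  have htcomp : Computable t := hfind.of_eq_tot ht
  have ht1 : ∀ v, it f v (t v) = none := by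
    intro v
    have := Nat.rfind_spec (ht v)
    simpa using this
  have ht2 : ∀ v m, m < t v → it f v m ≠ none := by
    intro v m hm
    have := Nat.rfind_min (ht v) hm
    intro hcon
    rw [hcon] at this
    simp at this
  have htS : ∀ v w, nx f v = some w → t v = t w + 1 := by
    intro v w hvw
    have h0 : t v ≠ 0 := by
      intro h0
      have := ht1 v
      rw [h0] at this
      simp [it] at this
    obtain ⟨s, hs⟩ := Nat.exists_eq_succ_of_ne_zero h0
    have hs' : t v = s + 1 := hs
    have e1 : it f w s = none := by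
      have := ht1 v
      rw [hs', it_succ', hvw] at this
      simpa using this
    have e2 : t w ≤ s := by
      by_contra hlt
      push Not at hlt
      exact ht2 w s hlt e1
    have e3 : s ≤ t w := by
      by_contra hlt
      push Not at hlt
      refine ht2 v (t w + 1) (by omega) ?_
      rw [it_succ', hvw]
      simpa using ht1 w
    omega
  refine ⟨fun v => bif decide (su f v (t v) % 2 = 0) then 0 else 1, ?_, ?_⟩
  · have h1 : Computable fun v => su f v (t v) := (su_comp hf).comp Computable.id htcomp
    have h2 : Computable fun v => decide (su f v (t v) % 2 = 0) := by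
      have h3 : PrimrecPred fun n : ℕ => n % 2 = 0 :=
        Primrec.eq.comp (Primrec.nat_mod.comp Primrec.id (Primrec.const 2)) (Primrec.const 0)
      exact h3.decide.to_comp.comp h1
    exact Computable.cond h2 (Computable.const 0) (Computable.const 1)
  · rintro v ⟨w₀, hw₀, hg₀⟩
    cases hv : nx f v with
    | none => exact absurd hg₀ (nx_none hv w₀ hw₀)
    | some w =>
      obtain ⟨h1, h2⟩ := nx_some hv
      refine ⟨w, h1, h2, ?_⟩
      have e : su f v (t v) = (f v).length + su f w (t w) := by
        rw [htS v w hv, su_succ' hv]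
      simp only [e]
      rw [Nat.even_iff]
      rcases Nat.mod_two_eq_zero_or_one (f v).length with hl | hl <;>
      rcases Nat.mod_two_eq_zero_or_one (su f w (t w)) with hr | hr <;>
      simp [Nat.add_mod, hl, hr]

end chain

/-- local condition -/
def LC {V : Type*} (H : SimpleGraph V) (c : V → Fin 2) (v : V) : Prop :=
  (∃ w, H.Adj v w ∧ good (H.neighborSet v).ncard (H.neighborSet w).ncard) →
  ∃ w, H.Adj v w ∧ good (H.neighborSet v).ncard (H.neighborSet w).ncard ∧
    (c w = c v ↔ Even (H.neighborSet v).ncard)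

theorem adj_edist {V : Type*} {H : SimpleGraph V} {v w : V} (h : H.Adj v w) :
    H.edist v w ≤ 1 := by
  have := SimpleGraph.Walk.edist_le (SimpleGraph.Walk.cons h SimpleGraph.Walk.nil)
  simpa using this

theorem ball_two {V : Type*} (H : SimpleGraph V) (v : V) :
    {w : V | H.edist v w ≤ ((2 : ℕ) : ℕ∞)} ⊆
      {v} ∪ H.neighborSet v ∪ ⋃ u ∈ H.neighborSet v, H.neighborSet u := by
  intro w hw
  have hw' : H.edist v w ≤ 2 := hw
  have hne : H.edist v w ≠ ⊤ := ne_top_of_le_ne_top (by decide) hw'
  obtain ⟨p, hp⟩ := SimpleGraph.exists_walk_of_edist_ne_top hne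
  rw [← hp] at hw'
  have hl : p.length ≤ 2 := by exact_mod_cast hw'
  cases p with
  | nil => simp
  | cons h q =>
    cases q with
    | nil => left; right; exact h
    | cons h' q' =>
      cases q' with
      | nil =>
        right
        simp only [Set.mem_iUnion]
        exact ⟨_, h, h'⟩
      | cons h'' q'' => simp at hl

theorem ball_two_finite {V : Type*} (H : SimpleGraph V) (hf : ∀ v, (H.neighborSet v).Finite)
    (v : V) : {w : V | H.edist v w ≤ ((2 : ℕ) : ℕ∞)}.Finite := by
  refine Set.Finite.subset ?_ (ball_two H v)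
  refine Set.Finite.union (Set.Finite.union (Set.finite_singleton v) (hf v)) ?_
  exact Set.Finite.biUnion (hf v) (fun u _ => hf u)

theorem ncard_pre {V : Type*} {n : ℕ} {e : Fin (n + 1) → V} (he : Function.Injective e)
    {S : Set V} (hS : S ⊆ Set.range e) : (e ⁻¹' S).ncard = S.ncard := by
  rw [← Set.ncard_image_of_injective (e ⁻¹' S) he, Set.image_preimage_eq_of_subset hS]

theorem LC_iff {V : Type*} (H : SimpleGraph V) (c : V → Fin 2) (v : V) {n : ℕ}
    {e : Fin (n + 1) → V} (he : Function.Injective e) (h0 : e 0 = v)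
    (hr : Set.range e = {w : V | H.edist v w ≤ ((2 : ℕ) : ℕ∞)}) :
    LC (SimpleGraph.comap e H) (c ∘ e) 0 ↔ LC H c v := by
  have hd0 : ((SimpleGraph.comap e H).neighborSet 0).ncard = (H.neighborSet v).ncard := by
    have : (SimpleGraph.comap e H).neighborSet 0 = e ⁻¹' (H.neighborSet v) := by
      ext x; simp [h0]
    rw [this]
    refine ncard_pre he ?_
    rw [hr]
    intro w hw
    exact (adj_edist hw).trans (by norm_num)
  have hd1 : ∀ i, H.Adj v (e i) →
      ((SimpleGraph.comap e H).neighborSet i).ncard = (H.neighborSet (e i)).ncard := by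
    intro i hi
    have : (SimpleGraph.comap e H).neighborSet i = e ⁻¹' (H.neighborSet (e i)) := by
      ext x; simp
    rw [this]
    refine ncard_pre he ?_
    rw [hr]
    intro w hw
    calc H.edist v w ≤ H.edist v (e i) + H.edist (e i) w := SimpleGraph.edist_triangle
      _ ≤ 1 + 1 := add_le_add (adj_edist hi) (adj_edist hw)
      _ = ((2 : ℕ) : ℕ∞) := by norm_num
  have hrange : ∀ w, H.Adj v w → ∃ i, e i = w := by
    intro w hw
    have : w ∈ Set.range e := by
      rw [hr]
      exact (adj_edist hw).trans (by norm_num)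
    exact this
  have key : ∀ (Q : Fin (n + 1) → Prop) (Q' : V → Prop), (∀ i, H.Adj v (e i) → (Q i ↔ Q' (e i))) →
      ((∃ i, (SimpleGraph.comap e H).Adj 0 i ∧ Q i) ↔ ∃ w, H.Adj v w ∧ Q' w) := by
    intro Q Q' hQ
    constructor
    · rintro ⟨i, hi, hq⟩
      rw [SimpleGraph.comap_adj, h0] at hi
      exact ⟨e i, hi, (hQ i hi).1 hq⟩
    · rintro ⟨w, hw, hq⟩
      obtain ⟨i, rfl⟩ := hrange w hw
      refine ⟨i, ?_, (hQ i hw).2 hq⟩
      rw [SimpleGraph.comap_adj, h0]
      exact hw
  unfold LC
  refine imp_congr ?_ ?_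
  · refine key _ _ (fun i hi => ?_)
    rw [hd0, hd1 i hi]
  · refine key _ _ (fun i hi => ?_)
    rw [hd0, hd1 i hi]
    simp [h0]

theorem exists_enum {V : Type*} {B : Set V} (hB : B.Finite) {v : V} (hv : v ∈ B) :
    ∃ n : ℕ, ∃ e : Fin (n + 1) → V, Function.Injective e ∧ e 0 = v ∧ Set.range e = B := by
  classical
  have hB' : (B \ {v}).Finite := hB.subset Set.sdiff_subset
  obtain ⟨n, f, hf⟩ : ∃ n : ℕ, ∃ f : Fin n → V, Function.Injective f ∧ Set.range f = B \ {v} := by
    have := hB'.fin_embedding
    obtain ⟨n, f, hf⟩ := this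
    exact ⟨n, f, f.injective, hf⟩
  refine ⟨n, Fin.cons v f, ?_, rfl, ?_⟩
  · rw [Fin.cons_injective_iff]
    refine ⟨?_, hf.1⟩
    rw [hf.2]
    simp
  · rw [Fin.range_cons, hf.2]
    simp [Set.insert_eq_of_mem hv]

/-- highly computable graphs have computable solutions -/
theorem comp_side (H : SimpleGraph ℕ)
    (hH : ∃ f : ℕ → List ℕ, Computable f ∧ ∀ a b : ℕ, H.Adj a b ↔ b ∈ f a) :
    ∃ c : ℕ → Fin 2, Computable c ∧
      ∀ v : ℕ, ∃ n : ℕ, ∃ e : Fin (n + 1) → ℕ,
        Function.Injective e ∧ e 0 = v ∧
        Set.range e = {w : ℕ | H.edist v w ≤ ((2 : ℕ) : ℕ∞)} ∧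
        LC (SimpleGraph.comap e H) (c ∘ e) 0 := by
  obtain ⟨f₀, hf₀, hadj₀⟩ := hH
  set f : ℕ → List ℕ := fun v => nd (f₀ v) with hfdef
  have hf : Computable f := nd_prim.to_comp.comp hf₀
  have hadj : ∀ a b : ℕ, H.Adj a b ↔ b ∈ f a := fun a b => by
    rw [hadj₀, hfdef]; simp [mem_nd]
  have hnbr : ∀ v, H.neighborSet v = ((f v).toFinset : Set ℕ) := by
    intro v; ext w; simp [hadj]
  have hdeg : ∀ v, (H.neighborSet v).ncard = (f v).length := by
    intro v
    rw [hnbr, Set.ncard_coe_finset, List.toFinset_card_of_nodup (nodup_nd _)]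
  have hfin : ∀ v, (H.neighborSet v).Finite := by
    intro v; rw [hnbr]; exact Finset.finite_toSet _
  obtain ⟨c, hc, hcv⟩ := exists_colouring hf
  refine ⟨c, hc, fun v => ?_⟩
  obtain ⟨n, e, he, h0, hr⟩ := exists_enum (ball_two_finite H hfin v) (v := v) (by simp)
  refine ⟨n, e, he, h0, hr, ?_⟩
  rw [LC_iff H c v he h0 hr]
  rintro ⟨w, hw, hg⟩
  rw [hdeg, hdeg] at hg
  obtain ⟨w', h1, h2, h3⟩ := hcv v ⟨w, (hadj v w).1 hw, hg⟩
  refine ⟨w', (hadj v w').2 h1, ?_, ?_⟩
  · rw [hdeg, hdeg]; exact h2
  · rw [hdeg]; exact h3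

theorem exists_modulus : ∃ m : ℕ → ℕ, (∀ n, m n < m (n + 1)) ∧ 0 < m 0 ∧
    ∀ n, ∀ i < n, ∀ m', halts m' i = true → halts (m n) i = true := by
  classical
  have hk : ∀ i, ∃ k, ∀ m', halts m' i = true → halts k i = true := by
    intro i
    by_cases h : ∃ k, halts k i = true
    · obtain ⟨k, hk⟩ := h
      exact ⟨k, fun _ _ => hk⟩
    · exact ⟨0, fun m' hm' => absurd ⟨m', hm'⟩ h⟩
  choose k hk using hk
  refine ⟨fun n => (∑ i ∈ Finset.range n, (k i + 1)) + 1, ?_, ?_, ?_⟩
  · intro n
    simp only [Finset.sum_range_succ]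
    omega
  · simp
  · intro n i hi m' hm'
    refine halts_mono ?_ (hk i m' hm')
    have : k i + 1 ≤ ∑ i ∈ Finset.range n, (k i + 1) :=
      Finset.single_le_sum (f := fun i => k i + 1) (fun _ _ => Nat.zero_le _)
        (Finset.mem_range.2 hi)
    show k i ≤ (∑ i ∈ Finset.range n, (k i + 1)) + 1
    omega

/-- vertices -/
abbrev X : Type := ℕ × ℕ × (ℕ → Bool)

def shift (x : ℕ → Bool) : ℕ → Bool := fun i => x (i + 1)

def cons (b : Bool) (x : ℕ → Bool) : ℕ → Bool := fun i => Nat.casesOn i b x

theorem shift_cons (b : Bool) (x : ℕ → Bool) : shift (cons b x) = x := rfl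

theorem cons_shift (x : ℕ → Bool) : cons (x 0) (shift x) = x := by
  funext i; cases i <;> rfl

def D (m : ℕ → ℕ) (n : ℕ) (b : Bool) : ℕ := 2 * Nat.pair n (m n) + b.toNat

def L (m : ℕ → ℕ) (n : ℕ) (b : Bool) : ℕ := D m n b - (if n = 0 then 1 else 3)

def R (m : ℕ → ℕ) (p q : X) : Prop :=
  (p.2.1 = 0 ∧ q.2.1 = 0 ∧ q.1 = p.1 + 1 ∧ q.2.2 = shift p.2.2) ∨
  (p.2.1 = 0 ∧ q.1 = p.1 ∧ q.2.2 = p.2.2 ∧ 1 ≤ q.2.1 ∧ q.2.1 ≤ L m p.1 (p.2.2 0))

def G (m : ℕ → ℕ) : SimpleGraph X where
  Adj p q := R m p q ∨ R m q p
  symm := ⟨fun _ _ h => h.symm⟩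
  loopless := ⟨fun p h => by
    rcases h with h | h <;> rcases h with ⟨_, _, h, _⟩ | ⟨h1, _, _, h2, _⟩ <;> omega⟩

theorem continuous_shift : Continuous shift :=
  continuous_pi (fun i => continuous_apply (i + 1))

theorem closed_R (m : ℕ → ℕ) {Y : Type} [TopologicalSpace Y] {u v : Y → X} (hu : Continuous u)
    (hv : Continuous v) : IsClosed {y : Y | R m (u y) (v y)} := by
  have h1 : Continuous fun y => (u y).2.1 := continuous_fst.comp (continuous_snd.comp hu)
  have h2 : Continuous fun y => (v y).2.1 := continuous_fst.comp (continuous_snd.comp hv)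
  have h3 : Continuous fun y => (u y).1 := continuous_fst.comp hu
  have h4 : Continuous fun y => (v y).1 := continuous_fst.comp hv
  have h5 : Continuous fun y => (u y).2.2 := continuous_snd.comp (continuous_snd.comp hu)
  have h6 : Continuous fun y => (v y).2.2 := continuous_snd.comp (continuous_snd.comp hv)
  have h7 : Continuous fun y => (u y).1 + 1 :=
    (continuous_of_discreteTopology (f := fun n : ℕ => n + 1)).comp h3
  have h8 : Continuous fun y => L m (u y).1 ((u y).2.2 0) :=
    (continuous_of_discreteTopology (f := fun q : ℕ × Bool => L m q.1 q.2)).comp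
      (h3.prodMk ((continuous_apply 0).comp h5))
  have c0 : Continuous fun _ : Y => (0 : ℕ) := continuous_const
  have c1 : Continuous fun _ : Y => (1 : ℕ) := continuous_const
  have A : IsClosed {y : Y | (u y).2.1 = 0 ∧ (v y).2.1 = 0 ∧ (v y).1 = (u y).1 + 1 ∧
      (v y).2.2 = shift (u y).2.2} :=
    (isClosed_eq h1 c0).inter ((isClosed_eq h2 c0).inter ((isClosed_eq h4 h7).inter
      (isClosed_eq h6 (continuous_shift.comp h5))))
  have B : IsClosed {y : Y | (u y).2.1 = 0 ∧ (v y).1 = (u y).1 ∧ (v y).2.2 = (u y).2.2 ∧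
      1 ≤ (v y).2.1 ∧ (v y).2.1 ≤ L m (u y).1 ((u y).2.2 0)} :=
    (isClosed_eq h1 c0).inter ((isClosed_eq h4 h3).inter ((isClosed_eq h6 h5).inter
      ((isClosed_le c1 h2).inter (isClosed_le h2 h8))))
  exact A.union B

theorem borelXX : BorelSpace (X × X) := by
  have h1 : BorelSpace X := Prod.borelSpace
  have h2 : SecondCountableTopology X := inferInstance
  have h3 : SecondCountableTopologyEither X X := ⟨Or.inl h2⟩
  exact Prod.borelSpace

theorem measurable_adj (m : ℕ → ℕ) :
    MeasurableSet {p : X × X | (G m).Adj p.1 p.2} := by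
  have := borelXX
  have h : IsClosed {p : X × X | (G m).Adj p.1 p.2} :=
    (closed_R m continuous_fst continuous_snd).union (closed_R m continuous_snd continuous_fst)
  exact h.measurableSet

open Classical in
/-- neighbours of a core vertex -/
noncomputable def nb (m : ℕ → ℕ) (n : ℕ) (x : ℕ → Bool) : Finset X :=
  insert (n + 1, 0, shift x)
    ((Finset.Icc 1 (L m n (x 0))).image (fun j => ((n, j, x) : X)) ∪
      (if n = 0 then ∅ else {(n - 1, 0, cons false x), (n - 1, 0, cons true x)}))

theorem neighborSet_core (m : ℕ → ℕ) (n : ℕ) (x : ℕ → Bool) :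
    (G m).neighborSet (n, 0, x) = (nb m n x : Set X) := by
  classical
  ext ⟨n', j, y⟩
  simp only [nb, G, R, SimpleGraph.mem_neighborSet, Finset.coe_insert, Finset.coe_union,
    Finset.coe_image, Set.mem_insert_iff, Set.mem_union, Set.mem_image, Finset.mem_coe,
    Finset.mem_Icc, Prod.mk.injEq]
  constructor
  · rintro ((⟨_, h1, h2, h3⟩ | ⟨_, h1, h2, h3, h4⟩) | (⟨h0, _, h2, h3⟩ | ⟨_, _, _, h3, _⟩))
    · left; exact ⟨h2, h1, h3⟩
    · right; left; exact ⟨j, ⟨h3, h4⟩, h1.symm, rfl, h2.symm⟩
    · right; right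
      have hn : n ≠ 0 := by omega
      rw [if_neg hn]
      simp only [Finset.mem_insert, Finset.mem_singleton, Prod.mk.injEq]
      have hy : y = cons (y 0) x := by rw [h3, cons_shift]
      cases hb : y 0
      · left; exact ⟨by omega, h0, by rw [hb] at hy; exact hy⟩
      · right; exact ⟨by omega, h0, by rw [hb] at hy; exact hy⟩
    · omega
  · rintro (⟨h1, h2, h3⟩ | ⟨j', ⟨h1, h2⟩, h3, h4, h5⟩ | h)
    · left; left; exact ⟨trivial, h2, h1, h3⟩
    · left; right; subst h4; exact ⟨trivial, h3.symm, h5.symm, h1, h2⟩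
    · by_cases hn : n = 0
      · rw [if_pos hn] at h; simp at h
      · rw [if_neg hn] at h
        simp only [Finset.mem_insert, Finset.mem_singleton, Prod.mk.injEq] at h
        right; left
        rcases h with ⟨h1, h2, h3⟩ | ⟨h1, h2, h3⟩
        · exact ⟨h2, trivial, by omega, by rw [h3]; rfl⟩
        · exact ⟨h2, trivial, by omega, by rw [h3]; rfl⟩

theorem D_ge {m : ℕ → ℕ} (h0 : 0 < m 0) (n : ℕ) (b : Bool) :
    (if n = 0 then 1 else 3) ≤ D m n b := by
  unfold D
  split_ifs with h
  · subst h
    have : Nat.pair 0 0 < Nat.pair 0 (m 0) := Nat.pair_lt_pair_right 0 h0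
    have h1 : Nat.pair 0 0 = 0 := by simp [Nat.pair]
    omega
  · have h1 : Nat.pair 1 0 ≤ Nat.pair n (m n) := by
      refine le_trans (b := Nat.pair n 0) ?_ ?_
      · rcases Nat.eq_or_lt_of_le (Nat.one_le_iff_ne_zero.2 h) with h1 | h1
        · rw [← h1]
        · exact (Nat.pair_lt_pair_left 0 h1).le
      · rcases Nat.eq_or_lt_of_le (Nat.zero_le (m n)) with h1 | h1
        · rw [← h1]
        · exact (Nat.pair_lt_pair_right n h1).le
    have h2 : Nat.pair 1 0 = 2 := by simp [Nat.pair]
    omega

theorem deg_core {m : ℕ → ℕ} (h0 : 0 < m 0) (n : ℕ) (x : ℕ → Bool) :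
    ((G m).neighborSet (n, 0, x)).ncard = D m n (x 0) := by
  classical
  rw [neighborSet_core, Set.ncard_coe_finset]
  have hD := D_ge h0 n (x 0)
  unfold nb
  rw [Finset.card_insert_of_notMem, Finset.card_union_of_disjoint, Finset.card_image_of_injective]
  · rw [Nat.card_Icc]
    unfold L
    by_cases hn : n = 0
    · simp only [hn, if_true] at hD ⊢
      simp only [Finset.card_empty]
      omega
    · simp only [hn, if_false] at hD ⊢
      have : cons false x ≠ cons true x := by
        intro h
        have := congrFun h 0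
        simp [cons] at this
      rw [Finset.card_pair (by simp [this])]
      omega
  · intro a b hab
    simp only [Prod.mk.injEq] at hab
    exact hab.2.1
  · rw [Finset.disjoint_left]
    rintro ⟨n', j, y⟩ h1 h2
    simp only [Finset.mem_image, Finset.mem_Icc, Prod.mk.injEq] at h1
    obtain ⟨j', ⟨h3, _⟩, _, h4, _⟩ := h1
    split_ifs at h2 with hn
    · simp at h2
    · simp only [Finset.mem_insert, Finset.mem_singleton, Prod.mk.injEq] at h2
      omega
  · simp only [Finset.mem_union, Finset.mem_image, Finset.mem_Icc, Prod.mk.injEq, not_or]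
    constructor
    · rintro ⟨j, _, h, _⟩; omega
    · split_ifs with hn
      · simp
      · simp only [Finset.mem_insert, Finset.mem_singleton, Prod.mk.injEq]
        omega

theorem neighborSet_leaf (m : ℕ → ℕ) (n j : ℕ) (x : ℕ → Bool) (hj : 1 ≤ j) :
    (G m).neighborSet (n, j, x) ⊆ {((n, 0, x) : X)} := by
  rintro ⟨n', j', y⟩ h
  simp only [G, R, SimpleGraph.mem_neighborSet] at h
  simp only [Set.mem_singleton_iff, Prod.mk.injEq]
  rcases h with (⟨h, _⟩ | ⟨h, _⟩) | (⟨_, h, _⟩ | ⟨h1, h2, h3, _, _⟩)
  · omega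
  · omega
  · omega
  · exact ⟨h2.symm, h1, h3.symm⟩

theorem deg_leaf_le (m : ℕ → ℕ) (n j : ℕ) (x : ℕ → Bool) (hj : 1 ≤ j) :
    ((G m).neighborSet (n, j, x)).ncard ≤ 1 := by
  have := Set.ncard_le_ncard (neighborSet_leaf m n j x hj) (Set.finite_singleton _)
  simpa using this

theorem locfin (m : ℕ → ℕ) (p : X) : ((G m).neighborSet p).Finite := by
  obtain ⟨n, j, x⟩ := p
  rcases Nat.eq_zero_or_pos j with h | h
  · subst h; rw [neighborSet_core]; exact Finset.finite_toSet _
  · exact (Set.finite_singleton _).subset (neighborSet_leaf m n j x h)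

theorem D_half (m : ℕ → ℕ) (n : ℕ) (b : Bool) : D m n b / 2 = Nat.pair n (m n) := by
  unfold D; cases b
  · simp
  · simp; omega

theorem D_even (m : ℕ → ℕ) (n : ℕ) (b : Bool) : Even (D m n b) ↔ b = false := by
  unfold D; cases b <;> simp

theorem good_D {m : ℕ → ℕ} (h1 : ∀ n, m n < m (n + 1))
    (h2 : ∀ n, ∀ i < n, ∀ m', halts m' i = true → halts (m n) i = true) (n : ℕ) (b b' : Bool) :
    good (D m n b) (D m (n + 1) b') := by
  unfold good
  rw [D_half, D_half]
  simp only [Nat.unpair_pair]
  exact ⟨trivial, h1 n, fun i hi h => h2 n i hi _ h⟩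

theorem good_only {m : ℕ → ℕ} (h0 : 0 < m 0) (n : ℕ) (x : ℕ → Bool) {w : X}
    (hw : (G m).Adj (n, 0, x) w)
    (hg : good (D m n (x 0)) ((G m).neighborSet w).ncard) : w = (n + 1, 0, shift x) := by
  obtain ⟨n', j, y⟩ := w
  have hg1 := hg.1
  rw [D_half, Nat.unpair_pair] at hg1
  simp only at hg1
  rcases Nat.eq_zero_or_pos j with h | h
  · subst h
    rw [deg_core h0, D_half, Nat.unpair_pair] at hg1
    simp only at hg1
    rcases hw with (⟨_, _, _, h3⟩ | ⟨_, _, _, h3, _⟩) | (⟨_, _, h2, _⟩ | ⟨_, _, _, h3, _⟩)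
    · simp only at h3; rw [h3, hg1]
    · simp at h3
    · simp only at h2; omega
    · simp at h3
  · have hle := deg_leaf_le m n' j y h
    have : ((G m).neighborSet (n', j, y)).ncard / 2 = 0 := by omega
    rw [this] at hg1
    simp at hg1

/-- flipping a coordinate -/
def flip (i : ℕ) (x : ℕ → Bool) : ℕ → Bool := Function.update x i (!x i)

theorem flip_zero_shift (x : ℕ → Bool) : shift (flip 0 x) = shift x := by
  funext j; simp [shift, flip]

theorem flip_succ_shift (i : ℕ) (x : ℕ → Bool) : shift (flip (i + 1) x) = flip i (shift x) := by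
  funext j
  simp only [shift, flip, Function.update_apply]
  by_cases h : j = i
  · subst h; simp
  · simp [h]

theorem flip_flip (i : ℕ) (x : ℕ → Bool) : flip i (flip i x) = x := by
  funext j
  simp only [flip, Function.update_apply]
  by_cases h : j = i
  · subst h; simp
  · simp [h]

theorem continuous_flip (i : ℕ) : Continuous (flip i) := by
  refine continuous_id.update i ?_
  exact (continuous_of_discreteTopology (f := fun b : Bool => !b)).comp (continuous_apply i)

def flipH (i : ℕ) : (ℕ → Bool) ≃ₜ (ℕ → Bool) where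
  toFun := flip i
  invFun := flip i
  left_inv := flip_flip i
  right_inv := flip_flip i
  continuous_toFun := continuous_flip i
  continuous_invFun := continuous_flip i

theorem flip_ne {F : ℕ → (ℕ → Bool) → Fin 2}
    (hF : ∀ n x, F (n + 1) (shift x) = F n x ↔ x 0 = false) (i : ℕ) :
    ∀ n x, F n (flip i x) ≠ F n x := by
  induction i with
  | zero =>
    intro n x h
    have h1 := hF n x
    have h2 := hF n (flip 0 x)
    rw [flip_zero_shift, h, h1] at h2
    simp [flip] at h2
  | succ i ih =>
    intro n x h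
    have h1 := hF n x
    have h2 := hF n (flip (i + 1) x)
    rw [flip_succ_shift, h] at h2
    have h3 := ih (n + 1) (shift x)
    have h4 : flip (i + 1) x 0 = x 0 := by simp [flip]
    rw [h4] at h2
    have key : ∀ a b c : Fin 2, ∀ p : Prop, (a = b ↔ p) → (c = b ↔ p) → c = a := by
      intro a b c p h1 h2
      by_cases hp : p
      · rw [h1.2 hp, h2.2 hp]
      · have e1 : a ≠ b := fun h => hp (h1.1 h)
        have e2 : c ≠ b := fun h => hp (h2.1 h)
        omega
    exact h3 (key _ _ _ _ h1 h2)

theorem no_parity (A : Set (ℕ → Bool)) (hA : BaireMeasurableSet A)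
    (hflip : ∀ i x, flip i x ∈ A ↔ x ∉ A) : False := by
  obtain ⟨U, hU, hAU⟩ := hA.residualEq_isOpen
  have hAU' : ∀ᶠ x in residual (ℕ → Bool), (x ∈ A ↔ x ∈ U) := by
    rw [Filter.eventuallyEq_set] at hAU
    exact hAU
  have hfl : ∀ i, ∀ᶠ x in residual (ℕ → Bool), (flip i x ∈ A ↔ flip i x ∈ U) := by
    intro i
    have := tendsto_residual_of_isOpenMap (flipH i).continuous (flipH i).isOpenMap
    exact this.eventually hAU'
  by_cases hne : U.Nonempty
  · obtain ⟨x₀, hx₀⟩ := hne
    obtain ⟨I, u, hu, hIu⟩ := isOpen_pi_iff.1 hU x₀ hx₀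
    obtain ⟨i, hi⟩ : ∃ i, i ∉ I := Infinite.exists_notMem_finset I
    have hopen : IsOpen ((I : Set ℕ).pi u) :=
      isOpen_set_pi I.finite_toSet (fun a ha => (hu a ha).1)
    have hd : Dense {x | (x ∈ A ↔ x ∈ U) ∧ (flip i x ∈ A ↔ flip i x ∈ U)} :=
      dense_of_mem_residual (hAU'.and (hfl i))
    obtain ⟨x, hxU, hx1, hx2⟩ := hd.inter_open_nonempty _ hopen
      ⟨x₀, fun a ha => (hu a ha).2⟩
    have hx' : flip i x ∈ (I : Set ℕ).pi u := by
      intro a ha
      have : flip i x a = x a := by
        simp only [flip, Function.update_apply]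
        rw [if_neg]
        rintro rfl
        exact hi ha
      rw [this]
      exact hxU a ha
    have h1 := hx1.2 (hIu hxU)
    have h2 := hx2.2 (hIu hx')
    exact (hflip i x).1 h2 h1
  · rw [Set.not_nonempty_iff_eq_empty] at hne
    have hd : Dense {x | (x ∈ A ↔ x ∈ U) ∧ (flip 0 x ∈ A ↔ flip 0 x ∈ U)} :=
      dense_of_mem_residual (hAU'.and (hfl 0))
    obtain ⟨x, hx1, hx2⟩ := hd.nonempty
    rw [hne] at hx1 hx2
    simp only [Set.mem_empty_iff_false, iff_false] at hx1 hx2
    exact hx2 ((hflip 0 x).2 hx1)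

theorem no_baire {m : ℕ → ℕ} (h0 : 0 < m 0) (h1 : ∀ n, m n < m (n + 1))
    (h2 : ∀ n, ∀ i < n, ∀ m', halts m' i = true → halts (m n) i = true)
    (c : X → Fin 2) (hc : ∀ i : Fin 2, BaireMeasurableSet (c ⁻¹' {i}))
    (hLC : ∀ v, LC (G m) c v) : False := by
  have hF : ∀ n x, c (n + 1, 0, shift x) = c (n, 0, x) ↔ x 0 = false := by
    intro n x
    have hadj : (G m).Adj (n, 0, x) (n + 1, 0, shift x) := Or.inl (Or.inl ⟨rfl, rfl, rfl, rfl⟩)
    obtain ⟨w, hw1, hw2, hw3⟩ := hLC (n, 0, x) ⟨(n + 1, 0, shift x), hadj, by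
      rw [deg_core h0, deg_core h0]; exact good_D h1 h2 n _ _⟩
    rw [deg_core h0] at hw2 hw3
    have := good_only h0 n x hw1 hw2
    subst this
    rw [hw3, D_even]
  have hne := flip_ne (F := fun n x => c (n, 0, x)) hF
  have hemb : Continuous (fun x : ℕ → Bool => ((0, 0, x) : X)) := by fun_prop
  have hop : IsOpenMap (fun x : ℕ → Bool => ((0, 0, x) : X)) := by
    intro U hU
    have : (fun x : ℕ → Bool => ((0, 0, x) : X)) '' U = ({0} : Set ℕ) ×ˢ (({0} : Set ℕ) ×ˢ U) := by
      ext ⟨a, b, y⟩
      simp only [Set.mem_image, Prod.mk.injEq, Set.mem_prod, Set.mem_singleton_iff]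
      constructor
      · rintro ⟨x, hx, h1, h2, h3⟩
        subst h3; exact ⟨h1.symm, h2.symm, hx⟩
      · rintro ⟨h1, h2, h3⟩
        exact ⟨y, h3, h1.symm, h2.symm, rfl⟩
    rw [this]
    exact (isOpen_discrete _).prod ((isOpen_discrete _).prod hU)
  refine no_parity ((fun x : ℕ → Bool => ((0, 0, x) : X)) ⁻¹' (c ⁻¹' {1}))
    (BaireMeasurableSet.preimage hemb hop (hc 1)) ?_
  intro i x
  have h : c (0, 0, flip i x) ≠ c (0, 0, x) := hne i 0 x
  simp only [Set.mem_preimage, Set.mem_singleton_iff]
  omega


/-- The negation of the preceding statement: For every local labeling problem (finite labels, radius r, allowed labeled balls P), if every highly computable graph on ℕ has a computable solution, then every locally finite Borel graph on a Polish space has a Baire measurable solution. -/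
theorem result :
    ¬ (∀ (k r : ℕ) (P : (n : ℕ) → SimpleGraph (Fin (n + 1)) → (Fin (n + 1) → Fin k) → Prop),
      (∀ (H : SimpleGraph ℕ),
          (∃ f : ℕ → List ℕ, Computable f ∧ ∀ a b : ℕ, H.Adj a b ↔ b ∈ f a) →
          ∃ c : ℕ → Fin k, Computable c ∧
            ∀ v : ℕ, ∃ n : ℕ, ∃ e : Fin (n + 1) → ℕ,
              Function.Injective e ∧ e 0 = v ∧
              Set.range e = {w : ℕ | H.edist v w ≤ (r : ℕ∞)} ∧
              P n (SimpleGraph.comap e H) (c ∘ e)) →
      ∀ (X : Type) [TopologicalSpace X] [PolishSpace X] [MeasurableSpace X] [BorelSpace X]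
        (G : SimpleGraph X),
        MeasurableSet {p : X × X | G.Adj p.1 p.2} →
        (∀ x : X, (G.neighborSet x).Finite) →
        ∃ c : X → Fin k, (∀ i : Fin k, BaireMeasurableSet (c ⁻¹' {i})) ∧
          ∀ v : X, ∃ n : ℕ, ∃ e : Fin (n + 1) → X,
            Function.Injective e ∧ e 0 = v ∧
            Set.range e = {w : X | G.edist v w ≤ (r : ℕ∞)} ∧
            P n (SimpleGraph.comap e G) (c ∘ e)) := by
  intro hall
  obtain ⟨m, h1, h0, h2⟩ := exists_modulus
  obtain ⟨c, hc, hcv⟩ := hall 2 2 (fun _ K col => LC K col 0) comp_side X (G m)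
    (measurable_adj m) (locfin m)
  refine no_baire h0 h1 h2 c hc (fun v => ?_)
  obtain ⟨n, e, he, he0, hr, hP⟩ := hcv v
  exact (LC_iff (G m) c v he he0 hr).1 hP

end Pool.Agent.S09560
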