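import Pool.Statements.S09566

set_option autoImplicit false
open Pool Pool.MP_908db9_lc

namespace Pool.Agent.S09566

open MeasureTheory Set Filter Topology

/-- The Polish group used in the counterexample: the countable power of the integers. -/
abbrev GZ : Type := ℕ → Multiplicative ℤ

/-- There is a continuous map from the group onto the irrational numbers. -/
theorem exists_z : ∃ z : GZ → ℝ, Continuous z ∧ Set.range z = {x : ℝ | Irrational x} := by
  have hm : MeasurableSet {x : ℝ | Irrational x} := by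
    have h : IsGδ {x : ℝ | Irrational x} := IsGδ.setOfPred_irrational
    exact h.measurableSet
  have ha : AnalyticSet {x : ℝ | Irrational x} := hm.analyticSet
  rw [AnalyticSet] at ha
  rcases ha with h | ⟨f, hf, hr⟩
  · exfalso
    have : (Real.sqrt 2) ∈ {x : ℝ | Irrational x} := irrational_sqrt_two
    rw [h] at this
    exact this
  · refine ⟨fun g => f (fun n => (Multiplicative.toAdd (g n)).natAbs), ?_, ?_⟩
    · apply hf.comp
      apply continuous_pi
      intro n
      have h1 : Continuous (fun x : Multiplicative ℤ => (Multiplicative.toAdd x).natAbs) :=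
        continuous_of_discreteTopology
      exact h1.comp (continuous_apply n)
    · rw [← hr]
      ext x
      constructor
      · rintro ⟨g, rfl⟩
        exact ⟨_, rfl⟩
      · rintro ⟨u, rfl⟩
        refine ⟨fun n => Multiplicative.ofAdd (u n : ℤ), ?_⟩
        congr 1

/-- The function `sin (1/s)` has no limit at `0` along a dense set. -/
theorem no_limit (t L : ℝ) (δ : ℝ) (hδ : 0 < δ)
    (h : ∀ q : ℚ, |(q : ℝ) - t| < δ → (q : ℝ) ≠ t → |Real.sin ((t - (q : ℝ))⁻¹) - L| < 1 / 2) :
    False := by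
  have key : ∀ s : ℝ, |s - t| < δ → s ≠ t → |Real.sin ((t - s)⁻¹) - L| ≤ 1 / 2 := by
    intro s hs hst
    by_contra hcon
    push Not at hcon
    have hopen : IsOpen {r : ℝ | r ≠ t} := isOpen_ne
    have hc : ContinuousOn (fun r : ℝ => |Real.sin ((t - r)⁻¹) - L|) {r : ℝ | r ≠ t} := by
      apply ContinuousOn.abs
      apply ContinuousOn.sub _ continuousOn_const
      apply Real.continuous_sin.comp_continuousOn
      apply ContinuousOn.inv₀
      · exact (continuous_const.sub continuous_id).continuousOn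
      · intro r hr
        exact sub_ne_zero.mpr (Ne.symm hr)
    have hU : IsOpen ({r : ℝ | r ≠ t} ∩ (fun r : ℝ => |Real.sin ((t - r)⁻¹) - L|) ⁻¹' (Set.Ioi (1/2))) :=
      hc.isOpen_inter_preimage hopen isOpen_Ioi
    have hV : IsOpen {r : ℝ | |r - t| < δ} := by
      exact isOpen_lt ((continuous_id.sub continuous_const).abs) continuous_const
    have hne : (({r : ℝ | r ≠ t} ∩ (fun r : ℝ => |Real.sin ((t - r)⁻¹) - L|) ⁻¹' (Set.Ioi (1/2))) ∩
        {r : ℝ | |r - t| < δ}).Nonempty := ⟨s, ⟨hst, hcon⟩, hs⟩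
    obtain ⟨q, hq⟩ := Rat.denseRange_cast.exists_mem_open (hU.inter hV) hne
    have := h q hq.2 hq.1.1
    have h2 : 1 / 2 < |Real.sin ((t - (q : ℝ))⁻¹) - L| := hq.1.2
    linarith
  -- choose points where the sine is one and minus one
  obtain ⟨n, hn⟩ := exists_nat_gt (1 / δ)
  have hpi := Real.pi_gt_three
  have hn0 : (0 : ℝ) ≤ n := Nat.cast_nonneg n
  have hdn : 1 < δ * n := by
    have := (div_lt_iff₀ hδ).mp hn
    linarith
  have hA : (0 : ℝ) < Real.pi / 2 + (n + 1 : ℕ) * (2 * Real.pi) := by positivity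
  have hB : (0 : ℝ) < -(Real.pi / 2) + (n + 1 : ℕ) * (2 * Real.pi) := by
    push_cast
    nlinarith
  have hsA : Real.sin (Real.pi / 2 + (n + 1 : ℕ) * (2 * Real.pi)) = 1 := by
    rw [Real.sin_add_nat_mul_two_pi, Real.sin_pi_div_two]
  have hsB : Real.sin (-(Real.pi / 2) + (n + 1 : ℕ) * (2 * Real.pi)) = -1 := by
    rw [Real.sin_add_nat_mul_two_pi, Real.sin_neg, Real.sin_pi_div_two]
  have hgen : ∀ w : ℝ, 0 < w → 1 < δ * w → |Real.sin w - L| ≤ 1 / 2 := by
    intro w hw hdw
    have := key (t - w⁻¹) (by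
      rw [sub_sub_cancel_left, abs_neg, abs_of_pos (inv_pos.mpr hw)]
      rw [inv_eq_one_div, div_lt_iff₀ hw]
      exact hdw) (by
      intro hEq
      have : w⁻¹ = 0 := by linarith
      exact (inv_ne_zero hw.ne') this)
    rw [sub_sub_cancel, inv_inv] at this
    exact this
  have hbig : (n : ℝ) ≤ -(Real.pi / 2) + (n + 1 : ℕ) * (2 * Real.pi) := by
    push_cast
    nlinarith
  have h1 := hgen _ hA (by
    have : (n : ℝ) ≤ Real.pi / 2 + (n + 1 : ℕ) * (2 * Real.pi) := by linarith
    nlinarith)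
  have h2 := hgen _ hB (by nlinarith)
  rw [hsA] at h1
  rw [hsB] at h2
  rw [abs_le] at h1 h2
  linarith [h1.1, h1.2, h2.1, h2.2]

/-- The negation of the preceding statement: For every Polish group G, Polish space X, subset A of X and continuous action of G on A, there is a G_delta set B with A ⊆ B ⊆ X and a continuous action of G on B extending the given action. -/
theorem result :
    ¬ (∀ (G : Type) [TopologicalSpace G] [Group G] [IsTopologicalGroup G] [PolishSpace G]
      (X : Type) [TopologicalSpace X] [PolishSpace X]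
      (A : Set X) (a : G → A → A),
      Continuous (fun p : G × A => a p.1 p.2) →
      (∀ x : A, a 1 x = x) →
      (∀ (g h : G) (x : A), a g (a h x) = a (g * h) x) →
      ∃ B : Set X, IsGδ B ∧ A ⊆ B ∧
        ∃ b : G → B → B,
          Continuous (fun p : G × B => b p.1 p.2) ∧
          (∀ x : B, b 1 x = x) ∧
          (∀ (g h : G) (x : B), b g (b h x) = b (g * h) x) ∧
          (∀ (g : G) (x : B) (hx : (x : X) ∈ A),
            ((b g x : B) : X) = ((a g ⟨(x : X), hx⟩ : A) : X))) := by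
  intro H
  obtain ⟨z, hz, hzr⟩ := exists_z
  have hirr : ∀ g, Irrational (z g) := by
    intro g
    have : z g ∈ Set.range z := ⟨g, rfl⟩
    rw [hzr] at this
    exact this
  have : PolishSpace (Multiplicative ℤ) := inferInstance
  -- the space and the subset
  let A : Set (ℝ × GZ × ℝ) :=
    {p | (∃ q : ℚ, p.1 = (q : ℝ)) ∧ p.2.2 = Real.sin ((z p.2.1 - p.1)⁻¹)}
  let a : GZ → A → A := fun h x =>
    ⟨((x : ℝ × GZ × ℝ).1, h * (x : ℝ × GZ × ℝ).2.1,
      Real.sin ((z (h * (x : ℝ × GZ × ℝ).2.1) - (x : ℝ × GZ × ℝ).1)⁻¹)),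
      ⟨x.2.1, rfl⟩⟩
  obtain ⟨B, hB, hAB, b, hb, hb1, hbm, hbe⟩ := H GZ (ℝ × GZ × ℝ) A a
    (by
      apply Continuous.subtype_mk
      have c1 : Continuous (fun p : GZ × A => ((p.2 : ℝ × GZ × ℝ)).1) :=
        continuous_fst.comp (continuous_subtype_val.comp continuous_snd)
      have c2 : Continuous (fun p : GZ × A => p.1 * ((p.2 : ℝ × GZ × ℝ)).2.1) :=
        continuous_fst.mul
          (continuous_fst.comp (continuous_snd.comp (continuous_subtype_val.comp continuous_snd)))
      have c3 : Continuous (fun p : GZ × A =>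
          Real.sin ((z (p.1 * ((p.2 : ℝ × GZ × ℝ)).2.1) - ((p.2 : ℝ × GZ × ℝ)).1)⁻¹)) := by
        apply Real.continuous_sin.comp
        apply Continuous.inv₀
        · exact (hz.comp c2).sub c1
        · intro p
          obtain ⟨q, hq⟩ := p.2.2.1
          rw [hq]
          exact sub_ne_zero.mpr ((hirr _).ne_rat q)
      exact c1.prodMk (c2.prodMk c3))
    (by
      intro x
      apply Subtype.ext
      have h2 := x.2.2
      have : (1 : GZ) * (x : ℝ × GZ × ℝ).2.1 = (x : ℝ × GZ × ℝ).2.1 := one_mul _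
      simp only [a]
      rw [this, ← h2])
    (by
      intro g h x
      apply Subtype.ext
      simp only [a, mul_assoc])
  -- the Baire category argument
  let j : ℝ → ℝ × GZ × ℝ := fun t => (t, 1, Real.sin ((z 1 - t)⁻¹))
  have hj : ContinuousOn j {t : ℝ | t ≠ z 1} := by
    apply ContinuousOn.prodMk continuousOn_id
    apply ContinuousOn.prodMk continuousOn_const
    apply Real.continuous_sin.comp_continuousOn
    apply ContinuousOn.inv₀
    · exact (continuous_const.sub continuous_id).continuousOn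
    · intro r hr
      exact sub_ne_zero.mpr (Ne.symm hr)
  have hjA : ∀ q : ℚ, j q ∈ A := fun q => ⟨⟨q, rfl⟩, rfl⟩
  have hgd : IsGδ ({t : ℝ | t ≠ z 1} ∩ j ⁻¹' B) := by
    obtain ⟨U, hU, hBU⟩ := isGδ_iff_eq_iInter_nat.mp hB
    have : ({t : ℝ | t ≠ z 1} ∩ j ⁻¹' B) = ⋂ n, ({t : ℝ | t ≠ z 1} ∩ j ⁻¹' (U n)) := by
      rw [hBU, Set.preimage_iInter, Set.inter_iInter]
    rw [this]
    exact IsGδ.iInter_of_isOpen (fun n => hj.isOpen_inter_preimage isOpen_ne (hU n))
  have hdense : Dense ({t : ℝ | t ≠ z 1} ∩ j ⁻¹' B) := by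
    have hd : Dense (Set.range ((↑) : ℚ → ℝ)) := Rat.denseRange_cast
    refine hd.mono ?_
    rintro _ ⟨q, rfl⟩
    exact ⟨(hirr 1).ne_rat q |>.symm, hAB (hjA q)⟩
  have hne : (({t : ℝ | t ≠ z 1} ∩ j ⁻¹' B) ∩ {x : ℝ | Irrational x}).Nonempty :=
    (hdense.inter_of_Gδ hgd IsGδ.setOfPred_irrational dense_irrational).nonempty
  obtain ⟨t, ⟨ht1, htB⟩, htirr⟩ := hne
  have : t ∈ Set.range z := by rw [hzr]; exact htirr
  obtain ⟨h, rfl⟩ := this
  -- continuity at the irrational point
  have hcont : Continuous (fun x : B => ((b h x : B) : ℝ × GZ × ℝ).2.2) := by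
    have : Continuous (fun x : B => b h x) := hb.comp (continuous_const.prodMk continuous_id)
    exact continuous_snd.comp (continuous_snd.comp (continuous_subtype_val.comp this))
  have hval : ∀ q : ℚ, ∀ hq : j q ∈ B,
      ((b h ⟨j q, hq⟩ : B) : ℝ × GZ × ℝ).2.2 = Real.sin ((z h - (q : ℝ))⁻¹) := by
    intro q hq
    have := hbe h ⟨j q, hq⟩ (hjA q)
    rw [this]
    simp only [a, j, mul_one]
  -- epsilon delta
  set L : ℝ := ((b h ⟨j (z h), htB⟩ : B) : ℝ × GZ × ℝ).2.2 with hL
  have hopen1 : IsOpen {x : B | |((b h x : B) : ℝ × GZ × ℝ).2.2 - L| < 1 / 2} :=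
    isOpen_lt ((hcont.sub continuous_const).abs) continuous_const
  obtain ⟨W, hW, hWeq⟩ := isOpen_induced_iff.mp hopen1
  have htW : j (z h) ∈ W := by
    have : (⟨j (z h), htB⟩ : B) ∈ {x : B | |((b h x : B) : ℝ × GZ × ℝ).2.2 - L| < 1 / 2} := by
      simp only [Set.mem_ofPred_eq]
      rw [← hL]
      norm_num
    rw [← hWeq] at this
    exact this
  have hopen2 : IsOpen ({t : ℝ | t ≠ z 1} ∩ j ⁻¹' W) := hj.isOpen_inter_preimage isOpen_ne hW
  obtain ⟨δ, hδ, hball⟩ := Metric.isOpen_iff.mp hopen2 (z h) ⟨ht1, htW⟩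
  refine no_limit (z h) L δ hδ ?_
  intro q hq hne
  have hmem : (q : ℝ) ∈ ({t : ℝ | t ≠ z 1} ∩ j ⁻¹' W) := hball (by
    rw [Metric.mem_ball, Real.dist_eq]
    exact hq)
  have hqB : j q ∈ B := hAB (hjA q)
  have : (⟨j q, hqB⟩ : B) ∈ {x : B | |((b h x : B) : ℝ × GZ × ℝ).2.2 - L| < 1 / 2} := by
    rw [← hWeq]
    exact hmem.2
  simp only [Set.mem_ofPred_eq] at this
  rw [hval q hqB] at this
  exact this

end Pool.Agent.S09566
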