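import Pool.Statements.S09567
import Pool.Agent.Helper740.Final

set_option autoImplicit false
open Pool Pool.MP_909f0f_lc

namespace Pool.Agent.S09567

/-- The set of finite presentations (number of generators plus a finite list of relator words) whose presented group has trivial second derived subgroup, i.e. is metabelian, is recursively enumerable. -/
theorem result :
    REPred (fun p : ℕ × List (List (ℕ × Bool)) =>
      derivedSeries
        (PresentedGroup
          {r : FreeGroup (Fin p.1) | ∃ w ∈ p.2,
            r = (w.map (fun x : ℕ × Bool =>
              if h : x.1 < p.1 then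
                (if x.2 then FreeGroup.of (⟨x.1, h⟩ : Fin p.1)
                 else (FreeGroup.of (⟨x.1, h⟩ : Fin p.1))⁻¹)
              else 1)).prod}) 2 = ⊥) := by
  refine Pool.Agent.Helper740.re_metabelian.of_eq fun p => ?_
  have h1 : Pool.Agent.Helper740.RS p.1 p.2 =
      {r : FreeGroup (Fin p.1) | ∃ w ∈ p.2,
            r = (w.map (fun x : ℕ × Bool =>
              if h : x.1 < p.1 then
                (if x.2 then FreeGroup.of (⟨x.1, h⟩ : Fin p.1)
                 else (FreeGroup.of (⟨x.1, h⟩ : Fin p.1))⁻¹)
              else 1)).prod} := by
    unfold Pool.Agent.Helper740.RS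
    have h2 : ∀ w : List (ℕ × Bool),
        Pool.Agent.Helper740.ev (Pool.Agent.Helper740.XF p.1) w =
          (w.map (fun x : ℕ × Bool =>
              if h : x.1 < p.1 then
                (if x.2 then FreeGroup.of (⟨x.1, h⟩ : Fin p.1)
                 else (FreeGroup.of (⟨x.1, h⟩ : Fin p.1))⁻¹)
              else 1)).prod := by
      intro w
      unfold Pool.Agent.Helper740.ev
      congr 1
      apply List.map_congr_left
      intro l _
      obtain ⟨i, b⟩ := l
      by_cases h : i < p.1
      · cases b <;> simp [Pool.Agent.Helper740.lt, Pool.Agent.Helper740.XF, h]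
      · cases b <;> simp [Pool.Agent.Helper740.lt, Pool.Agent.Helper740.XF, h]
    simp only [h2]
  rw [h1]

end Pool.Agent.S09567
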