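import Pool.Statements.S09571
import Pool.Agent.Helper380.LD.Final
import Pool.Agent.Helper380.LD.Win3
import Pool.Agent.Helper651.LDWrap

set_option autoImplicit false
open Pool Pool.MP_92436f_lc

namespace Pool.Agent.S09571

/-- For every L ≥ 2 there are C, K such that any binary code where no word is within distance (τ_L+ε)n of L codewords has at most C(1/ε)^K words, with τ_L = 1/2 − C(2k,k)/2^(2k+1), k = ⌊L/2⌋, for 0<ε<1. -/
theorem result :
    ∀ L : ℕ, 2 ≤ L →
      ∃ C : ℝ, ∃ K : ℕ,
        ∀ ε : ℝ, 0 < ε → ε < 1 →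
          ∀ n : ℕ, ∀ code : Finset (Fin n → Bool),
            (∀ x : Fin n → Bool,
              (code.filter (fun c => (hammingDist x c : ℝ) ≤
                ((1 : ℝ) / 2 - (Nat.choose (2 * (L / 2)) (L / 2) : ℝ) / (2 : ℝ) ^ (2 * (L / 2) + 1) + ε)
                  * (n : ℝ))).card < L) →
            (code.card : ℝ) ≤ C * (1 / ε) ^ K := by
  exact Pool.Agent.H380LD.wrapper (fun k hk => Pool.Agent.H380LD.main_poly Pool.Agent.H380LD.windowStmt k hk)

end Pool.Agent.S09571
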