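import Pool.Statements.S09594

set_option autoImplicit false
open Pool Pool.MP_9c356a_lc

namespace Pool.Agent.S09594

/-- The morphism `a -> b`, `b -> abb` on the alphabet `{a, b} = {0, 1}`. -/
def hh : Fin 2 → List (Fin 2) := ![[1], [0, 1, 1]]

lemma hh0 : hh 0 = [1] := rfl
lemma hh1 : hh 1 = [0, 1, 1] := rfl

/-- The extension of the morphism to words. -/
def F (u : List (Fin 2)) : List (Fin 2) := u.flatMap hh

lemma F_nil : F [] = [] := rfl

lemma F_cons (a : Fin 2) (u : List (Fin 2)) : F (a :: u) = hh a ++ F u := by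
  simp [F]

lemma F_append (u v : List (Fin 2)) : F (u ++ v) = F u ++ F v := by
  simp [F]

lemma hh_ne_nil (a : Fin 2) : hh a ≠ [] := by
  fin_cases a
  · simp [hh0]
  · simp [hh1]

lemma F_inj : Function.Injective F := by
  intro u
  induction u with
  | nil =>
    intro v hv
    cases v with
    | nil => rfl
    | cons b v =>
      rw [F_nil, F_cons] at hv
      exact absurd (List.append_eq_nil_iff.mp hv.symm).1 (hh_ne_nil b)
  | cons a u ih =>
    intro v hv
    cases v with
    | nil =>
      rw [F_nil, F_cons] at hv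
      exact absurd (List.append_eq_nil_iff.mp hv).1 (hh_ne_nil a)
    | cons b v =>
      rw [F_cons, F_cons] at hv
      have hab : a = b := by
        fin_cases a <;> fin_cases b
        · rfl
        · simp [hh0, hh1] at hv
        · simp [hh0, hh1] at hv
        · rfl
      subst hab
      have := List.append_cancel_left hv
      rw [ih this]

lemma iter_append (k : ℕ) : ∀ u v : List (Fin 2), F^[k] (u ++ v) = F^[k] u ++ F^[k] v := by
  induction k with
  | zero => intro u v; rfl
  | succ k ih =>
    intro u v
    rw [Function.iterate_succ_apply, F_append, ih, ← Function.iterate_succ_apply,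
      ← Function.iterate_succ_apply]

lemma iter_nil (k : ℕ) : F^[k] [] = [] := by
  induction k with
  | zero => rfl
  | succ k ih => rw [Function.iterate_succ_apply, F_nil, ih]

lemma iter_flatten (k : ℕ) (M : List (List (Fin 2))) :
    F^[k] M.flatten = (M.map F^[k]).flatten := by
  induction M with
  | nil => simpa using iter_nil k
  | cons u M ih => simp [iter_append, ih]

lemma depth_three : ∀ m : ℕ, 3 ≤ m →
    F^[m] [0, 1] = (([2, 3, 2, 2, 1] : List ℕ).map (fun i => F^[m - i] [0, 1])).flatten := by
  intro m hm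
  obtain ⟨k, rfl⟩ := Nat.exists_eq_add_of_le hm
  have e0 : F^[3 + k] [0, 1] = F^[k] (F^[3] [0, 1]) := by
    rw [add_comm, Function.iterate_add_apply]
  have e1 : F^[3 + k - 1] [0, 1] = F^[k] (F^[2] [0, 1]) := by
    rw [show 3 + k - 1 = k + 2 by omega, Function.iterate_add_apply]
  have e2 : F^[3 + k - 2] [0, 1] = F^[k] (F^[1] [0, 1]) := by
    rw [show 3 + k - 2 = k + 1 by omega, Function.iterate_add_apply]
  have e3 : F^[3 + k - 3] [0, 1] = F^[k] [0, 1] := by
    rw [show 3 + k - 3 = k by omega]
  simp only [List.map_cons, List.map_nil, e0, e1, e2, e3, List.flatten_cons, List.flatten_nil,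
    List.append_nil]
  rw [← iter_append, ← iter_append, ← iter_append, ← iter_append]
  congr 1

lemma iter_two : F^[2] [0, 1] = [0, 1, 1, 1, 0, 1, 1, 0, 1, 1] := by rfl
lemma F_one : F [0, 1] = [1, 0, 1, 1] := by rfl

lemma no_depth_two (L : List ℕ) (hne : L ≠ []) (hpos : ∀ i ∈ L, 0 < i) (hle : ∀ i ∈ L, i ≤ 2)
    (m : ℕ) (hm : 2 ≤ m)
    (h : F^[m] [0, 1] = (L.map (fun i => F^[m - i] [0, 1])).flatten) : False := by
  obtain ⟨k, rfl⟩ := Nat.exists_eq_add_of_le hm
  have e0 : F^[2 + k] [0, 1] = F^[k] (F^[2] [0, 1]) := by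
    rw [add_comm, Function.iterate_add_apply]
  have e1 : L.map (fun i => F^[2 + k - i] [0, 1])
      = (L.map (fun i => F^[2 - i] [0, 1])).map F^[k] := by
    rw [List.map_map]
    apply List.map_congr_left
    intro i hi
    have := hle i hi
    simp only [Function.comp]
    rw [← Function.iterate_add_apply]
    congr 1
    omega
  rw [e0, e1, ← iter_flatten] at h
  have h2 := (F_inj.iterate k) h
  rw [iter_two] at h2
  cases L with
  | nil => exact hne rfl
  | cons i L =>
    have hi1 := hpos i (by simp)
    have hi2 := hle i (by simp)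
    have : i = 1 ∨ i = 2 := by omega
    rcases this with rfl | rfl
    · simp [F_one] at h2
    · cases L with
      | nil => simp at h2
      | cons j L =>
        have hj1 := hpos j (by simp)
        have hj2 := hle j (by simp)
        have : j = 1 ∨ j = 2 := by omega
        rcases this with rfl | rfl
        · simp [F_one] at h2
        · simp at h2

lemma le_foldr_max (L : List ℕ) : ∀ i ∈ L, i ≤ L.foldr max 0 := by
  induction L with
  | nil => simp
  | cons a L ih =>
    intro i hi
    rw [List.foldr_cons]
    rcases List.mem_cons.mp hi with rfl | hi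
    · exact le_max_left _ _
    · exact (ih i hi).trans (le_max_right _ _)

/-- The negation of the preceding statement: For every D0L system over an n-letter alphabet, words w_m = h^m(w): if eventually w_m = w_{m-i_1}…w_{m-i_k} for some nonempty list of positive i_j, then such a formula exists with max i_j ≤ n!, and conversely. -/
theorem result :
    ¬ (∀ (n : ℕ) (h : Fin n → List (Fin n)) (w : List (Fin n)),
    (∃ d : ℕ, ∃ L : List ℕ, ∃ N : ℕ, L ≠ [] ∧ (∀ i ∈ L, 0 < i) ∧ L.foldr max 0 = d ∧ d ≤ N ∧
        ∀ m : ℕ, N ≤ m →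
          (fun u : List (Fin n) => u.flatMap h)^[m] w =
            (L.map (fun i => (fun u : List (Fin n) => u.flatMap h)^[m - i] w)).flatten) ↔
    (∃ d : ℕ, d ≤ n.factorial ∧ ∃ L : List ℕ, ∃ N : ℕ, L ≠ [] ∧ (∀ i ∈ L, 0 < i) ∧
        L.foldr max 0 = d ∧ d ≤ N ∧
        ∀ m : ℕ, N ≤ m →
          (fun u : List (Fin n) => u.flatMap h)^[m] w =
            (L.map (fun i => (fun u : List (Fin n) => u.flatMap h)^[m - i] w)).flatten)) := by
  intro H
  have H2 := (H 2 hh [0, 1]).mp
    ⟨3, [2, 3, 2, 2, 1], 3, by simp, by simp, by simp, le_rfl, depth_three⟩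
  obtain ⟨d, hd, L, N, hne, hpos, hmax, hdN, hall⟩ := H2
  have hd2 : d ≤ 2 := by simpa using hd
  exact no_depth_two L hne hpos (fun i hi => ((le_foldr_max L i hi).trans hmax.le).trans hd2)
    (N + 2) (by omega) (hall (N + 2) (by omega))

end Pool.Agent.S09594
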