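import Pool.Statements.S09601
-- import your own Pool.Agent.* helpers here

set_option autoImplicit false
open Pool Pool.MP_a224d9_lc

namespace Pool.Agent.S09601

/-! # Every Borel ideal on the natural numbers has a closed maximal family of ideal-different functions

Outline. `exists_partition`: a Borel ideal has an interval partition all of whose infinite unions
are positive. `rank_package`: boundedness of the tree of attempts to put a positive set inside a
member of the ideal. `dichotomy`: a Borel choice of a positive subset of `B x` on which the coded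
function is either nowhere positively coherent, or (outside a Borel set of codes) a coherent
positive set exists. `exists_closed_lift`: Borel functions become parts of functions with closed
graph. `main_theorem` assembles the family. -/

section Aux

open Set Filter Topology
open PiNat (res res_length res_zero res_succ res_eq_res)

theorem exists_cylinder_subset {β : Type*} [TopologicalSpace β] [DiscreteTopology β]
    {U : Set (ℕ → β)} (hU : IsOpen U) {x : ℕ → β} (hx : x ∈ U) :
    ∃ k, ∀ y : ℕ → β, (∀ i < k, y i = x i) → y ∈ U := by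
  obtain ⟨s, ⟨y, n, rfl⟩, hxs, hsU⟩ :=
    (PiNat.isTopologicalBasis_cylinders (fun _ : ℕ => β)).exists_subset_of_mem_open hx hU
  refine ⟨n, fun z hz => hsU ?_⟩
  rw [PiNat.mem_cylinder_iff] at hxs ⊢
  intro i hi
  rw [hz i hi, hxs i hi]

/-- flip all coordinates from `k` on -/
def flipH (k : ℕ) : (ℕ → Bool) ≃ₜ (ℕ → Bool) where
  toFun x := fun n => if n < k then x n else !(x n)
  invFun x := fun n => if n < k then x n else !(x n)
  left_inv x := by
    funext n
    by_cases h : n < k <;> simp [h]
  right_inv x := by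
    funext n
    by_cases h : n < k <;> simp [h]
  continuous_toFun := by
    refine continuous_pi fun n => ?_
    by_cases h : n < k
    · simpa [h] using continuous_apply n
    · simp only [h, if_false]
      exact (continuous_of_discreteTopology (f := fun b : Bool => !b)).comp (continuous_apply n)
  continuous_invFun := by
    refine continuous_pi fun n => ?_
    by_cases h : n < k
    · simpa [h] using continuous_apply n
    · simp only [h, if_false]
      exact (continuous_of_discreteTopology (f := fun b : Bool => !b)).comp (continuous_apply n)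

theorem flipH_apply_lt {k n : ℕ} (x : ℕ → Bool) (h : n < k) : flipH k x n = x n := by
  simp [flipH, h]

theorem flipH_apply_ge {k n : ℕ} (x : ℕ → Bool) (h : ¬ n < k) : flipH k x n = !(x n) := by
  simp [flipH, h]

section
variable (I : Set (Set ℕ))
    (hdown : ∀ A ∈ I, ∀ B : Set ℕ, B ⊆ A → B ∈ I)
    (hunion : ∀ A ∈ I, ∀ B ∈ I, A ∪ B ∈ I)
    (hfin : ∀ A : Set ℕ, A.Finite → A ∈ I)
    (hproper : (Set.univ : Set ℕ) ∉ I)
    (hB : MeasurableSet {x : ℕ → Bool | {n : ℕ | x n = true} ∈ I})

include hunion hfin hproper hB in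
theorem eventually_not_mem :
    ∀ᶠ x in residual (ℕ → Bool), {n : ℕ | x n = true} ∉ I := by
  obtain ⟨U, hU, hIU⟩ := hB.residualEq_isOpen
  rw [Filter.eventuallyEq_set] at hIU
  by_cases hne : U.Nonempty
  · exfalso
    obtain ⟨x0, hx0⟩ := hne
    obtain ⟨k, hk⟩ := exists_cylinder_subset hU hx0
    have h2 : ∀ᶠ x in residual (ℕ → Bool),
        (flipH k x ∈ {x : ℕ → Bool | {n : ℕ | x n = true} ∈ I} ↔ flipH k x ∈ U) :=
      (tendsto_residual_of_isOpenMap (flipH k).continuous (flipH k).isOpenMap).eventually hIU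
    have h3 := hIU.and h2
    have hopen : IsOpen (PiNat.cylinder x0 k) := PiNat.isOpen_cylinder _ x0 k
    obtain ⟨x, hxc, hx1, hx2⟩ := (dense_of_mem_residual h3).inter_open_nonempty _ hopen
      ⟨x0, PiNat.self_mem_cylinder x0 k⟩
    rw [PiNat.mem_cylinder_iff] at hxc
    have hxU : x ∈ U := hk x hxc
    have hfU : flipH k x ∈ U := hk _ (fun i hi => by rw [flipH_apply_lt x hi, hxc i hi])
    have hm1 := hx1.2 hxU
    have hm2 := hx2.2 hfU
    simp only [Set.mem_setOf_eq] at hm1 hm2
    have h4 := hunion _ (hunion _ hm1 _ hm2) _ (hfin (Set.Iio k) (Set.finite_Iio k))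
    apply hproper
    convert h4
    symm
    rw [Set.eq_univ_iff_forall]
    intro n
    by_cases hn : n < k
    · exact Or.inr hn
    · left
      by_cases hxn : x n = true
      · exact Or.inl hxn
      · right
        show flipH k x n = true
        rw [flipH_apply_ge x hn]
        simpa using hxn
  · rw [Set.not_nonempty_iff_eq_empty] at hne
    subst hne
    filter_upwards [hIU] with x hx
    simpa using hx

end

/-- one step: a finite pattern on `[m,m')` forcing membership in a dense open set, uniformly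
over a finset of initial parts -/
theorem pattern_step {O : Set (ℕ → Bool)} (hO : IsOpen O) (hd : Dense O) (m : ℕ)
    (T : Finset (Fin m → Bool)) :
    ∃ m' > m, ∃ w : ℕ → Bool, ∀ x : ℕ → Bool, (fun i : Fin m => x i) ∈ T →
      (∀ n, m ≤ n → n < m' → x n = w n) → x ∈ O := by
  classical
  induction T using Finset.induction_on with
  | empty => exact ⟨m + 1, Nat.lt_succ_self m, fun _ => true, by simp⟩
  | insert σ T _ ih =>
    obtain ⟨m1, hm1, w1, hw1⟩ := ih
    let p : ℕ → Bool := fun n => if h : n < m then σ ⟨n, h⟩ else w1 n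
    obtain ⟨q, hqc, hqO⟩ := hd.inter_open_nonempty _ (PiNat.isOpen_cylinder _ p m1)
      ⟨p, PiNat.self_mem_cylinder p m1⟩
    obtain ⟨k, hk⟩ := exists_cylinder_subset hO hqO
    rw [PiNat.mem_cylinder_iff] at hqc
    refine ⟨max m1 k, lt_of_lt_of_le hm1 (le_max_left _ _), q, fun x hx hxw => ?_⟩
    rw [Finset.mem_insert] at hx
    rcases hx with hx | hx
    · apply hk
      intro i hi
      by_cases him : i < m
      · have h1 : x i = σ ⟨i, him⟩ := congrFun hx ⟨i, him⟩
        rw [h1, hqc i (lt_trans him hm1)]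
        simp [p, him]
      · exact hxw i (not_lt.1 him) (lt_of_lt_of_le hi (le_max_right _ _))
    · apply hw1 x hx
      intro n hn1 hn2
      rw [hxw n hn1 (lt_of_lt_of_le hn2 (le_max_left _ _)), hqc n hn2]
      simp [p, not_lt.2 hn1]

theorem pattern_step' {O : Set (ℕ → Bool)} (hO : IsOpen O) (hd : Dense O) (m : ℕ) :
    ∃ m' > m, ∃ w : ℕ → Bool, ∀ x : ℕ → Bool,
      (∀ n, m ≤ n → n < m' → x n = w n) → x ∈ O := by
  obtain ⟨m', h1, w, hw⟩ := pattern_step hO hd m Finset.univ
  exact ⟨m', h1, w, fun x hx => hw x (Finset.mem_univ _) hx⟩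

/-- Talagrand / Jalali-Naini: an interval partition all of whose infinite unions are positive. -/
theorem exists_partition (I : Set (Set ℕ))
    (hdown : ∀ A ∈ I, ∀ B : Set ℕ, B ⊆ A → B ∈ I)
    (hunion : ∀ A ∈ I, ∀ B ∈ I, A ∪ B ∈ I)
    (hfin : ∀ A : Set ℕ, A.Finite → A ∈ I)
    (hproper : (Set.univ : Set ℕ) ∉ I)
    (hB : MeasurableSet {x : ℕ → Bool | {n : ℕ | x n = true} ∈ I}) :
    ∃ π : ℕ → ℕ, StrictMono π ∧ ∀ K : Set ℕ, K.Infinite →
      {n | ∃ k ∈ K, π k ≤ n ∧ n < π (k+1)} ∉ I := by
  have hres := eventually_not_mem I hunion hfin hproper hB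
  obtain ⟨S, hSo, hSd, hSc, hS⟩ := mem_residual_iff.1 hres
  -- enumerate
  obtain ⟨f, hf⟩ : ∃ f : ℕ → Set (ℕ → Bool), (∀ n, IsOpen (f n)) ∧ (∀ n, Dense (f n)) ∧
      ⋂ n, f n ⊆ {x | {n : ℕ | x n = true} ∉ I} := by
    rcases S.eq_empty_or_nonempty with rfl | hne
    · refine ⟨fun _ => Set.univ, fun _ => isOpen_univ, fun _ => dense_univ, ?_⟩
      simpa using hS
    · obtain ⟨f, hf⟩ := hSc.exists_eq_range hne
      refine ⟨f, fun n => hSo _ (hf ▸ Set.mem_range_self n), fun n => hSd _ (hf ▸ Set.mem_range_self n), ?_⟩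
      intro x hx
      apply hS
      rw [Set.mem_sInter]
      intro t ht
      rw [hf] at ht
      obtain ⟨n, rfl⟩ := ht
      exact Set.mem_iInter.1 hx n
  obtain ⟨hfo, hfd, hfI⟩ := hf
  -- finite intersections
  let g : ℕ → Set (ℕ → Bool) := fun k => ⋂ j ∈ Finset.range (k+1), f j
  have hgo : ∀ k, IsOpen (g k) := fun k => isOpen_biInter_finset (fun j _ => hfo j)
  have hgd : ∀ k, Dense (g k) := by
    intro k
    have hmem : g k ∈ residual (ℕ → Bool) := by
      have : (⋂ j ∈ Finset.range (k+1), f j) ∈ residual (ℕ → Bool) := by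
        rw [Filter.biInter_finset_mem]
        intro j _
        exact residual_of_dense_open (hfo j) (hfd j)
      exact this
    exact dense_of_mem_residual hmem
  choose! nxt hnxt w hw using fun k m => pattern_step' (hgo k) (hgd k) m
  let π : ℕ → ℕ := fun k => Nat.rec (motive := fun _ => ℕ) 0 (fun k m => nxt k m) k
  have hπs : ∀ k, π (k+1) = nxt k (π k) := fun k => rfl
  have hπm : StrictMono π := strictMono_nat_of_lt_succ (fun k => by rw [hπs]; exact hnxt k (π k))
  refine ⟨π, hπm, fun K hK hmem => ?_⟩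
  let Px : ℕ → Prop := fun n => ∃ k ∈ K, π k ≤ n ∧ n < π (k+1) ∧ w k (π k) n = true
  obtain ⟨x, hx⟩ : ∃ x : ℕ → Bool, ∀ n, x n = true ↔ Px n := by
    classical
    exact ⟨fun n => decide (Px n), fun n => decide_eq_true_iff⟩
  have hx1 : {n : ℕ | x n = true} ∈ I := by
    refine hdown _ hmem _ ?_
    intro n hn
    obtain ⟨k, hk, h1, h2, _⟩ := (hx n).1 hn
    exact ⟨k, hk, h1, h2⟩
  have hx2 : x ∈ ⋂ n, f n := by
    rw [Set.mem_iInter]
    intro j
    obtain ⟨k, hk, hjk⟩ := hK.exists_gt j
    have hxg : x ∈ g k := by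
      apply hw k (π k) x
      intro n hn1 hn2
      rw [← hπs] at hn2
      by_cases hwn : w k (π k) n = true
      · rw [hwn, hx]
        exact ⟨k, hk, hn1, hn2, hwn⟩
      · have h5 : x n = false := by
          rw [← Bool.not_eq_true, hx]
          rintro ⟨k', hk', h1, h2, h3⟩
          have : k' = k := by
            rcases lt_trichotomy k' k with h | h | h
            · exact absurd (lt_of_lt_of_le h2 (hπm.monotone (Nat.succ_le_of_lt h))) (not_lt.2 hn1)
            · exact h
            · exact absurd (lt_of_lt_of_le hn2 (hπm.monotone (Nat.succ_le_of_lt h))) (not_lt.2 h1)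
          subst this
          exact hwn h3
        rw [h5]
        simpa using hwn
    have := Set.mem_iInter₂.1 hxg j (Finset.mem_range.2 (by omega))
    exact this
  exact hfI hx2 hx1


theorem res_suffix_res {β : Type*} (v : ℕ → β) {m k : ℕ} (h : m ≤ k) : res v m <:+ res v k := by
  induction k with
  | zero => 
    have : m = 0 := by omega
    subst this; exact List.suffix_rfl
  | succ k ih =>
    rcases Nat.lt_or_ge m (k+1) with h1 | h1
    · have := ih (by omega)
      rw [res_succ]
      exact this.trans (List.suffix_cons _ _)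
    · have : m = k + 1 := by omega
      subst this; exact List.suffix_rfl

theorem eq_res_of_suffix {β : Type*} {v : ℕ → β} {u : List β} {k : ℕ} (h : u <:+ res v k) :
    res v u.length = u := by
  have h1 : u.length ≤ k := by simpa using h.length_le
  have h2 := res_suffix_res v h1
  have h3 := List.suffix_of_suffix_length_le h2 h (by simp)
  exact h3.eq_of_length (by simp)

theorem exists_branch {β : Type*} [Inhabited β] (l : ℕ → List β) (hs : ∀ n, l n <:+ l (n+1))
    (hl : ∀ n, n ≤ (l n).length) :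
    ∃ v : ℕ → β, ∀ n, res v (l n).length = l n := by
  have hs' : ∀ m n, m ≤ n → l m <:+ l n := by
    intro m n h
    induction n, h using Nat.le_induction with
    | base => exact List.suffix_rfl
    | succ n _ ih => exact ih.trans (hs n)
  let t : ℕ → List β := fun i => (l i).drop ((l i).length - i)
  have ht1 : ∀ i, (t i).length = i := by
    intro i
    simp only [t, List.length_drop]
    have := hl i
    omega
  have ht2 : ∀ i, t i <:+ l i := fun i => List.drop_suffix _ _
  let v : ℕ → β := fun i => (t (i+1)).headI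
  have ht3 : ∀ i, t (i+1) = v i :: t i := by
    intro i
    have h1 : t (i+1) ≠ [] := by
      intro h
      have := ht1 (i+1)
      rw [h] at this
      simp at this
    obtain ⟨c, t', hct⟩ := List.exists_cons_of_ne_nil h1
    have hv : v i = c := by simp [v, hct]
    have h2 : t'.length = i := by
      have := ht1 (i+1)
      rw [hct] at this
      simpa using this
    have h3 : t' <:+ l (i+1) := by
      have := ht2 (i+1)
      rw [hct] at this
      exact (List.suffix_cons _ _).trans this
    have h4 : t i <:+ l (i+1) := (ht2 i).trans (hs i)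
    have h5 : t' <:+ t i := List.suffix_of_suffix_length_le h3 h4 (by rw [h2, ht1])
    have h6 : t' = t i := h5.eq_of_length (by rw [h2, ht1])
    rw [hct, hv, h6]
  have ht4 : ∀ i, res v i = t i := by
    intro i
    induction i with
    | zero =>
      have := ht1 0
      rw [List.length_eq_zero_iff] at this
      rw [this]; rfl
    | succ i ih => rw [res_succ, ih, ht3]
  refine ⟨v, fun n => ?_⟩
  rw [ht4]
  have h1 : t (l n).length <:+ l (l n).length := ht2 _
  have h2 : l n <:+ l (l n).length := hs' _ _ (hl n)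
  have h3 := List.suffix_of_suffix_length_le h1 h2 (by rw [ht1])
  exact h3.eq_of_length (by rw [ht1])

/-- the part determined by a finite initial segment -/
def det (φ : (ℕ → ℕ) → (ℕ → Bool)) (u : List ℕ) : Set ℕ :=
  {n | n < u.length ∧ ∀ v : ℕ → ℕ, res v u.length = u → φ v n = true}

/-- the part still possible after a finite initial segment -/
def pos (ψ : (ℕ → ℕ) → (ℕ → Bool)) (u : List ℕ) : Set ℕ :=
  {n | ∃ v : ℕ → ℕ, res v u.length = u ∧ ψ v n = true}

theorem det_finite (φ : (ℕ → ℕ) → (ℕ → Bool)) (u : List ℕ) : (det φ u).Finite :=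
  (Set.finite_lt_nat u.length).subset (fun _ hn => hn.1)

theorem det_nil (φ : (ℕ → ℕ) → (ℕ → Bool)) : det φ [] = ∅ := by
  ext n; simp [det]

theorem det_mono (φ : (ℕ → ℕ) → (ℕ → Bool)) {u u' : List ℕ} (h : u <:+ u') :
    det φ u ⊆ det φ u' := by
  intro n hn
  refine ⟨lt_of_lt_of_le hn.1 h.length_le, fun v hv => hn.2 v ?_⟩
  rw [← hv] at h
  exact eq_res_of_suffix h

theorem continuous_eventually_const {φ : (ℕ → ℕ) → (ℕ → Bool)} (hφ : Continuous φ) (v : ℕ → ℕ)
    (n : ℕ) : ∃ k, ∀ v' : ℕ → ℕ, res v' k = res v k → φ v' n = φ v n := by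
  have hopen : IsOpen {v' : ℕ → ℕ | φ v' n = φ v n} :=
    (isOpen_discrete {φ v n}).preimage ((continuous_apply n).comp hφ)
  obtain ⟨s, ⟨y, k, rfl⟩, hxs, hsU⟩ :=
    (PiNat.isTopologicalBasis_cylinders (fun _ : ℕ => ℕ)).exists_subset_of_mem_open
      (show v ∈ {v' : ℕ → ℕ | φ v' n = φ v n} from rfl) hopen
  refine ⟨k, fun v' hv' => hsU ?_⟩
  rw [PiNat.mem_cylinder_iff] at hxs ⊢
  rw [res_eq_res] at hv'
  intro i hi
  rw [hv' hi, hxs i hi]

theorem iUnion_det {φ : (ℕ → ℕ) → (ℕ → Bool)} (hφ : Continuous φ) (v : ℕ → ℕ) :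
    ⋃ k, det φ (res v k) = {n | φ v n = true} := by
  ext n
  rw [Set.mem_iUnion]
  constructor
  · rintro ⟨k, hk⟩
    exact hk.2 v (by rw [res_length])
  · intro hn
    obtain ⟨k, hk⟩ := continuous_eventually_const hφ v n
    refine ⟨max k (n+1), by simp, fun v' hv' => ?_⟩
    rw [res_length] at hv'
    rw [hk v', hn]
    rw [res_eq_res] at hv' ⊢
    intro m hm
    exact hv' (lt_of_lt_of_le hm (le_max_left _ _))

theorem pos_of_all {ψ : (ℕ → ℕ) → (ℕ → Bool)} (hψ : Continuous ψ) (v : ℕ → ℕ) (n : ℕ)
    (h : ∀ K, ∃ k ≥ K, n ∈ pos ψ (res v k)) : ψ v n = true := by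
  obtain ⟨k0, hk0⟩ := continuous_eventually_const hψ v n
  obtain ⟨k, hk, v', hv', hn⟩ := h k0
  rw [← hk0 v', hn]
  rw [res_length] at hv'
  rw [res_eq_res] at hv' ⊢
  intro m hm
  exact hv' (lt_of_lt_of_le hm hk)

/-- the relation on pairs of attempts -/
def Rl (φ ψ : (ℕ → ℕ) → (ℕ → Bool)) (p' p : List ℕ × List ℕ) : Prop :=
  p.1 <:+ p'.1 ∧ p.2 <:+ p'.2 ∧ p.1.length = p.2.length ∧ p'.1.length = p'.2.length ∧
    p.1.length < p'.1.length ∧ det φ p'.1 ⊆ pos ψ p'.2

theorem Rl_wf {φ ψ : (ℕ → ℕ) → (ℕ → Bool)} (hφ : Continuous φ) (hψ : Continuous ψ)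
    (h : ∀ v w : ℕ → ℕ, ¬ ({n | φ v n = true} ⊆ {n | ψ w n = true})) :
    WellFounded (Rl φ ψ) := by
  rw [wellFounded_iff_isEmpty_descending_chain]
  refine ⟨fun ⟨f, hf⟩ => ?_⟩
  have hlen : ∀ n, n ≤ (f n).1.length := by
    intro n
    induction n with
    | zero => exact Nat.zero_le _
    | succ n ih => exact lt_of_le_of_lt ih (hf n).2.2.2.2.1
  have hlen2 : ∀ n, (f n).1.length = (f n).2.length := fun n => (hf n).2.2.1
  obtain ⟨v, hv⟩ := exists_branch (fun n => (f n).1) (fun n => (hf n).1) hlen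
  obtain ⟨w, hw⟩ := exists_branch (fun n => (f n).2) (fun n => (hf n).2.1)
    (fun n => by rw [← hlen2]; exact hlen n)
  apply h v w
  intro n hn
  rw [← iUnion_det hφ] at hn
  obtain ⟨k, hk⟩ := Set.mem_iUnion.1 hn
  apply pos_of_all hψ
  intro K
  refine ⟨(f (max k K + 1)).2.length, ?_, ?_⟩
  · have := hlen (max k K + 1)
    rw [hlen2] at this
    exact le_trans (le_trans (le_max_right k K) (Nat.le_succ _)) this
  · rw [hw]
    apply (hf (max k K)).2.2.2.2.2
    rw [← hv]
    refine det_mono φ (res_suffix_res v ?_) hk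
    have := hlen (max k K + 1)
    exact le_trans (le_trans (le_max_left k K) (Nat.le_succ _)) this

theorem polishNB : PolishSpace (ℕ → Bool) := by
  have h1 : SecondCountableTopology (ℕ → Bool) := inferInstance
  have h2 : TopologicalSpace.IsCompletelyMetrizableSpace (ℕ → Bool) := inferInstance
  exact { h1, h2 with }

/-- Boundedness package for a Borel ideal. -/
theorem rank_package (I : Set (Set ℕ))
    (hdown : ∀ A ∈ I, ∀ B : Set ℕ, B ⊆ A → B ∈ I)
    (hproper : (Set.univ : Set ℕ) ∉ I)
    (hempty : (∅ : Set ℕ) ∈ I)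
    (hB : MeasurableSet {x : ℕ → Bool | {n : ℕ | x n = true} ∈ I}) :
    ∃ a : List ℕ → Set ℕ, (∀ u, (a u).Finite) ∧ (∀ u u', u <:+ u' → a u ⊆ a u') ∧ a [] = ∅ ∧
      (∀ A, A ∉ I → ∃ v : ℕ → ℕ, ⋃ k, a (res v k) = A) ∧
      ∃ (Λ : Type 1) (_ : LinearOrder Λ) (_ : WellFoundedLT Λ) (_ : Countable Λ) (_ : OrderTop Λ),
        ∀ S ∈ I, ∃ ρ : List ℕ → Λ, (∀ u, ρ u < ⊤) ∧
          ∀ u u', u <:+ u' → u ≠ u' → a u' ⊆ S → ρ u' < ρ u := by
  have hchi' : ∀ A : Set ℕ, ∃ x : ℕ → Bool, {n | x n = true} = A := by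
    classical
    intro A
    exact ⟨fun n => decide (n ∈ A), by ext n; simp⟩
  choose chi hchi using hchi'
  haveI := polishNB
  have hA1 : MeasureTheory.AnalyticSet {x : ℕ → Bool | {n : ℕ | x n = true} ∈ I} :=
    hB.analyticSet
  have hA2 : MeasureTheory.AnalyticSet {x : ℕ → Bool | {n : ℕ | x n = true} ∈ I}ᶜ :=
    hB.compl.analyticSet
  rw [MeasureTheory.AnalyticSet] at hA1 hA2
  obtain ⟨ψ, hψc, hψr⟩ := hA1.resolve_left (by
    intro h
    have : chi ∅ ∈ {x : ℕ → Bool | {n : ℕ | x n = true} ∈ I} := by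
      show {n | chi ∅ n = true} ∈ I
      rw [hchi]; exact hempty
    rw [h] at this
    exact this)
  obtain ⟨φ, hφc, hφr⟩ := hA2.resolve_left (by
    intro h
    have : chi Set.univ ∈ {x : ℕ → Bool | {n : ℕ | x n = true} ∈ I}ᶜ := by
      show ¬ ({n | chi Set.univ n = true} ∈ I)
      rw [hchi]; exact hproper
    rw [h] at this
    exact this)
  have hφ : ∀ v, {n | φ v n = true} ∉ I := by
    intro v
    have : φ v ∈ Set.range φ := Set.mem_range_self v
    rw [hφr] at this
    exact this
  have hψ : ∀ v, {n | ψ v n = true} ∈ I := by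
    intro v
    have : ψ v ∈ Set.range ψ := Set.mem_range_self v
    rw [hψr] at this
    exact this
  refine ⟨det φ, det_finite φ, fun u u' h => det_mono φ h, det_nil φ, ?_, ?_⟩
  · intro A hA
    have : chi A ∈ Set.range φ := by
      rw [hφr]
      show ¬ ({n | chi A n = true} ∈ I)
      rw [hchi]; exact hA
    obtain ⟨v, hv⟩ := this
    refine ⟨v, ?_⟩
    rw [iUnion_det hφc, hv, hchi]
  · have hwf : WellFounded (Rl φ ψ) := Rl_wf hφc hψc (fun v w h => hφ v (hdown _ (hψ w) _ h))
    haveI : IsWellFounded (List ℕ × List ℕ) (Rl φ ψ) := ⟨hwf⟩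
    let rk : List ℕ × List ℕ → Ordinal.{0} := IsWellFounded.rank (Rl φ ψ)
    haveI : Countable (Set.range rk) := Set.countable_range rk
    refine ⟨WithTop (Set.range rk), inferInstance, inferInstance, inferInstance, inferInstance, ?_⟩
    intro S hS
    obtain ⟨w, hw⟩ : ∃ w, {n | ψ w n = true} = S := by
      have : chi S ∈ Set.range ψ := by
        rw [hψr]
        show {n | chi S n = true} ∈ I
        rw [hchi]; exact hS
      obtain ⟨w, hw⟩ := this
      exact ⟨w, by rw [hw, hchi]⟩
    refine ⟨fun u => ((⟨rk (u, res w u.length), Set.mem_range_self _⟩ : Set.range rk) :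
      WithTop (Set.range rk)), fun u => WithTop.coe_lt_top _, ?_⟩
    intro u u' huu hne ha
    rw [WithTop.coe_lt_coe, Subtype.mk_lt_mk]
    apply IsWellFounded.rank_lt_of_rel
    have hlt : u.length < u'.length := by
      rcases lt_or_eq_of_le huu.length_le with h | h
      · exact h
      · exact absurd (huu.eq_of_length h) hne
    refine ⟨huu, res_suffix_res w hlt.le, by simp, by simp, hlt, ?_⟩
    intro n hn
    refine ⟨w, by simp, ?_⟩
    have := ha hn
    rw [← hw] at this
    exact this


section core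

variable {X : Type*}
variable (B : X → Set ℕ) (s : X → ℕ → List Bool)
variable {Λ : Type 1} [LinearOrder Λ] [WellFoundedLT Λ]
variable (a : List ℕ → Set ℕ) (enc : Λ → ℕ)

/-- the determined part of `u` is coherent and lies in `B x` -/
def InT (x : X) (u : List ℕ) : Prop :=
  (∀ n, n ∈ a u → n ∈ B x ∧ (s x n).length = n) ∧
    ∀ n, n ∈ a u → ∀ m, m ∈ a u → n ≤ m → s x n <:+ s x m

/-- rank predicate -/
def G (x : X) : Λ → List ℕ → Prop :=
  WellFounded.fix (wellFounded_lt (α := Λ)) (fun α ih u =>
    InT B s a x u ∧ ∀ α' (h : α' < α), ∀ m, ∃ u', u <:+ u' ∧ u ≠ u' ∧ ih α' h u' ∧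
      ∃ n, n ∈ a u' ∧ m ≤ n)

theorem G_iff (x : X) (α : Λ) (u : List ℕ) :
    G B s a x α u ↔ InT B s a x u ∧ ∀ α', α' < α → ∀ m, ∃ u', u <:+ u' ∧ u ≠ u' ∧
      G B s a x α' u' ∧ ∃ n, n ∈ a u' ∧ m ≤ n := by
  conv_lhs => rw [G, WellFounded.fix_eq]
  rfl

/-- the tree of possible limits -/
def R (x : X) (α : Λ) (u : List ℕ) (r : List Bool) : Prop :=
  ∀ α', α' < α → ∀ m, ∃ u', u <:+ u' ∧ u ≠ u' ∧ G B s a x α' u' ∧
    ∃ n, n ∈ a u' ∧ m ≤ n ∧ r <:+ s x n

/-- leftmost branch -/
def Lm (x : X) (α : Λ) (u : List ℕ) : List Bool → Prop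
  | [] => True
  | (c :: r) => Lm x α u r ∧ (c = false ↔ R B s a x α u (false :: r))

/-- candidate child -/
def IsChP (x : X) (α α' : Λ) (u u' : List ℕ) : Prop :=
  u <:+ u' ∧ u ≠ u' ∧ G B s a x α' u' ∧
    ∃ n, n ∈ a u' ∧ ∃ r : List Bool, r.length = enc α' ∧ Lm B s a x α u r ∧ r <:+ s x n

/-- chosen child -/
def IsCh (x : X) (α α' : Λ) (u u' : List ℕ) : Prop :=
  IsChP B s a enc x α α' u u' ∧
    ∀ u'', Encodable.encode u'' < Encodable.encode u' → ¬ IsChP B s a enc x α α' u u''

/-- the constructed set -/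
inductive SS (x : X) : Λ → List ℕ → ℕ → Prop
  | base {α : Λ} {u : List ℕ} {n : ℕ} : n ∈ a u → SS x α u n
  | step {α α' : Λ} {u u' : List ℕ} {n : ℕ} : α' < α → IsCh B s a enc x α α' u u' →
      SS x α' u' n → SS x α u n

theorem SS_iff (x : X) (α : Λ) (u : List ℕ) (n : ℕ) :
    SS B s a enc x α u n ↔ n ∈ a u ∨ ∃ α', α' < α ∧ ∃ u', IsCh B s a enc x α α' u u' ∧
      SS B s a enc x α' u' n := by
  constructor
  · intro h
    cases h with
    | base h => exact Or.inl h
    | step h1 h2 h3 => exact Or.inr ⟨_, h1, _, h2, h3⟩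
  · rintro (h | ⟨α', h1, u', h2, h3⟩)
    · exact SS.base h
    · exact SS.step h1 h2 h3

/-! ### measurability -/

section meas

variable [MeasurableSpace X] [Countable Λ]
variable (hB : ∀ n, Measurable fun x => n ∈ B x) (hs : ∀ n l, Measurable fun x => s x n = l)

include hs in
theorem meas_of_list (n : ℕ) (P : List Bool → Prop) : Measurable fun x => P (s x n) := by
  have : (fun x => P (s x n)) = fun x => ∃ l, s x n = l ∧ P l := by
    funext x
    simp
  rw [this]
  exact Measurable.exists fun l => (hs n l).and measurable_const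

include hs in
theorem meas_of_list2 (n m : ℕ) (P : List Bool → List Bool → Prop) :
    Measurable fun x => P (s x n) (s x m) := by
  have : (fun x => P (s x n) (s x m)) = fun x => ∃ l, s x n = l ∧ P l (s x m) := by
    funext x
    simp
  rw [this]
  exact Measurable.exists fun l => (hs n l).and (meas_of_list s hs m (fun l' => P l l'))

include hB hs in
theorem meas_InT (u : List ℕ) : Measurable fun x => InT B s a x u := by
  unfold InT
  refine Measurable.and ?_ ?_
  · exact Measurable.forall fun n => measurable_const.imp ((hB n).and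
      (meas_of_list s hs n (fun l => l.length = n)))
  · exact Measurable.forall fun n => measurable_const.imp (Measurable.forall fun m =>
      measurable_const.imp (measurable_const.imp (meas_of_list2 s hs n m (fun l l' => l <:+ l'))))

include hB hs in
theorem meas_G (α : Λ) : ∀ u, Measurable fun x => G B s a x α u := by
  induction α using WellFoundedLT.induction with
  | ind α ih =>
    intro u
    have : (fun x => G B s a x α u) = fun x => InT B s a x u ∧ ∀ α', α' < α → ∀ m, ∃ u',
        u <:+ u' ∧ u ≠ u' ∧ G B s a x α' u' ∧ ∃ n, n ∈ a u' ∧ m ≤ n := by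
      funext x
      rw [G_iff]
    rw [this]
    refine (meas_InT B s a hB hs u).and (Measurable.forall fun α' => ?_)
    by_cases h : α' < α
    · exact measurable_const.imp (Measurable.forall fun m => Measurable.exists fun u' =>
        measurable_const.and (measurable_const.and ((ih α' h u').and measurable_const)))
    · simp [h]

include hB hs in
theorem meas_R (α : Λ) (u : List ℕ) (r : List Bool) : Measurable fun x => R B s a x α u r := by
  unfold R
  exact Measurable.forall fun α' => measurable_const.imp (Measurable.forall fun m =>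
    Measurable.exists fun u' => measurable_const.and (measurable_const.and
      ((meas_G B s a hB hs α' u').and (Measurable.exists fun n => measurable_const.and
        (measurable_const.and (meas_of_list s hs n (fun l => r <:+ l)))))))

include hB hs in
theorem meas_Lm (α : Λ) (u : List ℕ) (r : List Bool) :
    Measurable fun x => Lm B s a x α u r := by
  induction r with
  | nil => exact measurable_const
  | cons c r ih =>
    exact ih.and (measurable_const.iff (meas_R B s a hB hs α u (false :: r)))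

include hB hs in
theorem meas_IsChP (α α' : Λ) (u u' : List ℕ) :
    Measurable fun x => IsChP B s a enc x α α' u u' := by
  unfold IsChP
  exact measurable_const.and (measurable_const.and ((meas_G B s a hB hs α' u').and
    (Measurable.exists fun n => measurable_const.and (Measurable.exists fun r =>
      measurable_const.and ((meas_Lm B s a hB hs α u r).and
        (meas_of_list s hs n (fun l => r <:+ l)))))))

include hB hs in
theorem meas_IsCh (α α' : Λ) (u u' : List ℕ) :
    Measurable fun x => IsCh B s a enc x α α' u u' := by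
  unfold IsCh
  exact (meas_IsChP B s a enc hB hs α α' u u').and (Measurable.forall fun u'' =>
    measurable_const.imp (meas_IsChP B s a enc hB hs α α' u u'').not)

include hB hs in
theorem meas_SS (α : Λ) : ∀ u n, Measurable fun x => SS B s a enc x α u n := by
  induction α using WellFoundedLT.induction with
  | ind α ih =>
    intro u n
    have : (fun x => SS B s a enc x α u n) = fun x => n ∈ a u ∨ ∃ α', α' < α ∧ ∃ u',
        IsCh B s a enc x α α' u u' ∧ SS B s a enc x α' u' n := by
      funext x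
      rw [SS_iff]
    rw [this]
    refine measurable_const.or (Measurable.exists fun α' => ?_)
    by_cases h : α' < α
    · exact measurable_const.and (Measurable.exists fun u' =>
        (meas_IsCh B s a enc hB hs α α' u u').and (ih α' h u' n))
    · simp [h]

end meas

/-! ### combinatorics -/

theorem G_inT {x : X} {α : Λ} {u : List ℕ} (h : G B s a x α u) : InT B s a x u :=
  ((G_iff B s a x α u).1 h).1

theorem G_mono {x : X} {α α' : Λ} {u : List ℕ} (h : G B s a x α u) (hα : α' ≤ α) :
    G B s a x α' u := by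
  rw [G_iff] at h ⊢
  exact ⟨h.1, fun β hβ => h.2 β (lt_of_lt_of_le hβ hα)⟩

theorem R_nil {x : X} {α : Λ} {u : List ℕ} (h : G B s a x α u) : R B s a x α u [] := by
  intro α' hα' m
  obtain ⟨u', h1, h2, h3, n, h4, h5⟩ := ((G_iff B s a x α u).1 h).2 α' hα' m
  exact ⟨u', h1, h2, h3, n, h4, h5, List.nil_suffix⟩

theorem cons_suffix_of_lt {β : Type*} {r l : List β} (h : r <:+ l) (hl : r.length < l.length) :
    ∃ c, (c :: r) <:+ l := by
  obtain ⟨t, rfl⟩ := h
  rcases List.eq_nil_or_concat t with ht | ⟨t', c, ht⟩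
  · subst ht
    simp at hl
  · exact ⟨c, t', by rw [ht]; simp⟩

theorem R_step {x : X} {α : Λ} {u : List ℕ} {r : List Bool} (h : R B s a x α u r) :
    R B s a x α u (false :: r) ∨ R B s a x α u (true :: r) := by
  by_contra hcon
  rw [not_or] at hcon
  obtain ⟨h0, h1⟩ := hcon
  unfold R at h0 h1
  push Not at h0 h1
  obtain ⟨α0, hα0, m0, h0⟩ := h0
  obtain ⟨α1, hα1, m1, h1⟩ := h1
  obtain ⟨u', hu1, hu2, hu3, n, hn1, hn2, hn3⟩ :=
    h (max α0 α1) (max_lt hα0 hα1) (max (max m0 m1) (r.length + 1))
  have hlen : (s x n).length = n := ((G_inT B s a hu3).1 n hn1).2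
  have hm0 : m0 ≤ n := le_trans (le_trans (le_max_left _ _) (le_max_left _ _)) hn2
  have hm1 : m1 ≤ n := le_trans (le_trans (le_max_right _ _) (le_max_left _ _)) hn2
  have hr : r.length < (s x n).length := by
    rw [hlen]; exact lt_of_lt_of_le (Nat.lt_succ_self _) (le_trans (le_max_right _ _) hn2)
  obtain ⟨c, hc⟩ := cons_suffix_of_lt hn3 hr
  cases c with
  | false => exact h0 u' hu1 hu2 (G_mono B s a hu3 (le_max_left _ _)) n hn1 hm0 hc
  | true => exact h1 u' hu1 hu2 (G_mono B s a hu3 (le_max_right _ _)) n hn1 hm1 hc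

open Classical in
/-- the leftmost branch, finite parts -/
noncomputable def rho (x : X) (α : Λ) (u : List ℕ) : ℕ → List Bool
  | 0 => []
  | (k+1) => (if R B s a x α u (false :: rho x α u k) then false else true) :: rho x α u k

open Classical in
/-- the leftmost branch -/
noncomputable def br (x : X) (α : Λ) (u : List ℕ) (k : ℕ) : Bool :=
  if R B s a x α u (false :: rho B s a x α u k) then false else true

theorem res_br (x : X) (α : Λ) (u : List ℕ) (k : ℕ) :
    res (br B s a x α u) k = rho B s a x α u k := by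
  induction k with
  | zero => rfl
  | succ k ih => rw [res_succ, ih]; rfl

theorem length_rho (x : X) (α : Λ) (u : List ℕ) (k : ℕ) : (rho B s a x α u k).length = k := by
  rw [← res_br, res_length]

theorem Lm_rho (x : X) (α : Λ) (u : List ℕ) (k : ℕ) :
    Lm B s a x α u (rho B s a x α u k) := by
  induction k with
  | zero => trivial
  | succ k ih =>
    refine ⟨ih, ?_⟩
    by_cases h : R B s a x α u (false :: rho B s a x α u k)
    · simp [h]
    · simp [h]

open Classical in
theorem eq_rho_of_Lm {x : X} {α : Λ} {u : List ℕ} {r : List Bool} (h : Lm B s a x α u r) :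
    r = rho B s a x α u r.length := by
  induction r with
  | nil => rfl
  | cons c r ih =>
    obtain ⟨h1, h2⟩ := h
    have h3 := ih h1
    show c :: r = (if R B s a x α u (false :: rho B s a x α u r.length) then false else true) ::
      rho B s a x α u r.length
    rw [← h3]
    congr 1
    by_cases h : R B s a x α u (false :: r)
    · rw [if_pos h]; exact h2.2 h
    · rw [if_neg h]
      rcases Bool.eq_false_or_eq_true c with hc | hc
      · exact hc
      · exact absurd (h2.1 hc) h

theorem Lm_suffix {x : X} {α : Λ} {u : List ℕ} {r r' : List Bool} (h : Lm B s a x α u r)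
    (hr : r' <:+ r) : Lm B s a x α u r' := by
  induction r with
  | nil =>
    have : r' = [] := List.suffix_nil.1 hr
    rw [this]; trivial
  | cons c r ih =>
    rcases List.suffix_cons_iff.1 hr with h1 | h1
    · rw [h1]; exact h
    · exact ih h.1 h1

open Classical in
theorem R_rho {x : X} {α : Λ} {u : List ℕ} (h : G B s a x α u) (k : ℕ) :
    R B s a x α u (rho B s a x α u k) := by
  induction k with
  | zero => exact R_nil B s a h
  | succ k ih =>
    show R B s a x α u ((if R B s a x α u (false :: rho B s a x α u k) then false else true) ::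
      rho B s a x α u k)
    by_cases h : R B s a x α u (false :: rho B s a x α u k)
    · rw [if_pos h]; exact h
    · rw [if_neg h]
      exact (R_step B s a ih).resolve_left h

theorem exists_IsCh {x : X} {α α' : Λ} {u : List ℕ} (h : G B s a x α u) (hα : α' < α) :
    ∃ u', IsCh B s a enc x α α' u u' := by
  classical
  have hex : ∃ c : ℕ, ∃ u', Encodable.encode u' = c ∧ IsChP B s a enc x α α' u u' := by
    obtain ⟨u', h1, h2, h3, n, h4, _, h6⟩ := R_rho B s a h (enc α') α' hα 0
    exact ⟨_, u', rfl, h1, h2, h3, n, h4, _, length_rho B s a x α u _, Lm_rho B s a x α u _, h6⟩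
  obtain ⟨u', hu1, hu2⟩ := Nat.find_spec hex
  refine ⟨u', hu2, fun u'' hlt hP => ?_⟩
  rw [hu1] at hlt
  exact Nat.find_min hex hlt ⟨u'', rfl, hP⟩

theorem IsCh_unique {x : X} {α α' : Λ} {u u' u'' : List ℕ}
    (h1 : IsCh B s a enc x α α' u u') (h2 : IsCh B s a enc x α α' u u'') : u' = u'' := by
  rcases lt_trichotomy (Encodable.encode u') (Encodable.encode u'') with h | h | h
  · exact absurd h1.1 (h2.2 _ h)
  · exact Encodable.encode_injective h
  · exact absurd h2.1 (h1.2 _ h)

theorem SS_desc {x : X} {α : Λ} {u : List ℕ} {n : ℕ} (h : SS B s a enc x α u n)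
    (hu : InT B s a x u) : ∃ u', u <:+ u' ∧ InT B s a x u' ∧ n ∈ a u' := by
  induction h with
  | base h => exact ⟨_, List.suffix_rfl, hu, h⟩
  | step h1 h2 _ ih =>
    obtain ⟨u', h3, h4, h5⟩ := ih (G_inT B s a h2.1.2.2.1)
    exact ⟨u', h2.1.1.trans h3, h4, h5⟩

variable (hfin : ∀ u, (a u).Finite) (hmono : ∀ u u', u <:+ u' → a u ⊆ a u')
  (henc : Function.Injective enc)

include hfin hmono henc in
theorem SS_finite {x : X} {z : ℕ → Bool} (hz : ∀ (β : Λ) v, ∃ k, ¬ Lm B s a x β v (res z k))
    (α : Λ) : ∀ u, G B s a x α u →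
      {n | SS B s a enc x α u n ∧ s x n = res z n}.Finite := by
  induction α using WellFoundedLT.induction with
  | ind α ih =>
    intro u hG
    obtain ⟨k, hk⟩ := hz α u
    have hsub : {n | SS B s a enc x α u n ∧ s x n = res z n} ⊆
        (a u ∪ Set.Iio k) ∪ ⋃ α' ∈ {α' : Λ | enc α' < k}, ⋃ u' ∈ {u' : List ℕ |
          α' < α ∧ IsCh B s a enc x α α' u u'},
          {n | SS B s a enc x α' u' n ∧ s x n = res z n} := by
      rintro n ⟨hn1, hn2⟩
      rw [SS_iff] at hn1
      rcases hn1 with h | ⟨α', h1, u', h2, h3⟩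
      · exact Or.inl (Or.inl h)
      · by_cases hek : enc α' < k
        · right
          simp only [Set.mem_iUnion]
          exact ⟨α', hek, u', ⟨h1, h2⟩, h3, hn2⟩
        · left; right
          show n < k
          by_contra hnk
          apply hk
          obtain ⟨_, _, hG', n', hn', r, hr1, hr2, hr3⟩ := h2.1
          obtain ⟨u'', hu1, hu2, hu3⟩ := SS_desc B s a enc h3 (G_inT B s a hG')
          have hn'' : n' ∈ a u'' := hmono _ _ hu1 hn'
          have hrk : res z k <:+ s x n := by
            rw [hn2]; exact res_suffix_res z (by omega)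
          refine Lm_suffix B s a hr2 ?_
          have hlenr : (res z k).length ≤ r.length := by rw [res_length, hr1]; omega
          rcases le_total n n' with hle | hle
          · exact List.suffix_of_suffix_length_le (hrk.trans (hu2.2 n hu3 n' hn'' hle)) hr3 hlenr
          · exact List.suffix_of_suffix_length_le hrk (hr3.trans (hu2.2 n' hn'' n hu3 hle)) hlenr
    refine Set.Finite.subset ?_ hsub
    refine ((hfin u).union (Set.finite_Iio k)).union ?_
    refine Set.Finite.biUnion ?_ ?_
    · exact Set.Finite.preimage henc.injOn (Set.finite_Iio k)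
    · intro α' _
      refine Set.Finite.biUnion ?_ ?_
      · refine Set.Subsingleton.finite ?_
        intro u1 h1 u2 h2
        exact IsCh_unique B s a enc h1.2 h2.2
      · rintro u' ⟨h1, h2⟩
        exact ih α' h1 u' h2.1.2.2.1

variable (I : Set (Set ℕ)) [OrderTop Λ]

theorem SS_pos {x : X} (hG : G B s a x (⊤ : Λ) [])
    (hρ : ∀ S ∈ I, ∃ ρ : List ℕ → Λ, (∀ u, ρ u < ⊤) ∧
          ∀ u u', u <:+ u' → u ≠ u' → a u' ⊆ S → ρ u' < ρ u) :
    {n | SS B s a enc x ⊤ [] n} ∉ I := by
  intro hS
  obtain ⟨ρ, hρ1, hρ2⟩ := hρ _ hS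
  have key : ∀ α : Λ, ∀ u, G B s a x α u → (∀ n, SS B s a enc x α u n →
      SS B s a enc x ⊤ [] n) → α ≤ ρ u := by
    intro α
    induction α using WellFoundedLT.induction with
    | ind α ih =>
      intro u hGu hsub
      by_contra hlt
      rw [not_le] at hlt
      obtain ⟨u', hu'⟩ := exists_IsCh B s a enc hGu hlt
      have hsub' : ∀ n, SS B s a enc x (ρ u) u' n → SS B s a enc x ⊤ [] n :=
        fun n hn => hsub n (SS.step hlt hu' hn)
      have h1 := ih (ρ u) hlt u' hu'.1.2.2.1 hsub'
      have h2 := hρ2 u u' hu'.1.1 hu'.1.2.1 (fun n hn => hsub' n (SS.base hn))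
      exact absurd h1 (not_le.2 h2)
  exact absurd (key ⊤ [] hG (fun n hn => hn)) (not_le.2 (hρ1 []))

include hmono in
theorem noG {x : X} (hG : ¬ G B s a x (⊤ : Λ) [])
    (hfinI : ∀ A : Set ℕ, A.Finite → A ∈ I)
    (hcov : ∀ A, A ∉ I → ∃ v : ℕ → ℕ, ⋃ k, a (res v k) = A) (z : ℕ → Bool) :
    {n | n ∈ B x ∧ s x n = res z n} ∈ I := by
  by_contra hA
  obtain ⟨v, hv⟩ := hcov _ hA
  have hinf : {n | n ∈ B x ∧ s x n = res z n}.Infinite := fun hf => hA (hfinI _ hf)
  have hsub : ∀ k, a (res v k) ⊆ {n | n ∈ B x ∧ s x n = res z n} := by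
    intro k
    rw [← hv]
    exact Set.subset_iUnion (fun k => a (res v k)) k
  have hT : ∀ k, InT B s a x (res v k) := by
    intro k
    refine ⟨fun n hn => ⟨(hsub k hn).1, by rw [(hsub k hn).2, res_length]⟩, ?_⟩
    intro n hn m hm hnm
    rw [(hsub k hn).2, (hsub k hm).2]
    exact res_suffix_res z hnm
  have key : ∀ α : Λ, ∀ k, G B s a x α (res v k) := by
    intro α
    induction α using WellFoundedLT.induction with
    | ind α ih =>
      intro k
      rw [G_iff]
      refine ⟨hT k, fun α' hα' m => ?_⟩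
      obtain ⟨n, hn, hmn⟩ := hinf.exists_gt m
      rw [← hv] at hn
      obtain ⟨k', hk'⟩ := Set.mem_iUnion.1 hn
      refine ⟨res v (max (k+1) k'), res_suffix_res v (le_trans (Nat.le_succ _) (le_max_left _ _)),
        ?_, ih α' hα' _, n, hmono _ _ (res_suffix_res v (le_max_right _ _)) hk', hmn.le⟩
      intro heq
      have := congrArg List.length heq
      rw [res_length, res_length] at this
      have h2 := le_max_left (k+1) k'
      omega
  exact hG (key ⊤ 0)

end core


theorem meas_mem_ideal {X : Type*} [MeasurableSpace X] (I : Set (Set ℕ))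
    (hBor : MeasurableSet {x : ℕ → Bool | {n : ℕ | x n = true} ∈ I})
    (P : X → ℕ → Prop) (hP : ∀ n, Measurable fun x => P x n) :
    Measurable fun x => {n | P x n} ∈ I := by
  classical
  have hf : Measurable (fun x => fun n => decide (P x n) : X → (ℕ → Bool)) := by
    rw [measurable_pi_iff]
    intro n
    apply measurable_to_bool
    have : (fun x => decide (P x n)) ⁻¹' {true} = {x | P x n} := by
      ext x; simp
    rw [this]
    exact (hP n).setOf
  rw [← measurableSet_setOfPred]
  have : {x | {n | P x n} ∈ I} = (fun x => fun n => decide (P x n) : X → (ℕ → Bool)) ⁻¹'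
      {x : ℕ → Bool | {n : ℕ | x n = true} ∈ I} := by
    ext x; simp
  rw [this]
  exact hf hBor

theorem dichotomy {X : Type*} [MeasurableSpace X] (B : X → Set ℕ) (s : X → ℕ → List Bool)
    (hB : ∀ n, Measurable fun x => n ∈ B x) (hs : ∀ n l, Measurable fun x => s x n = l)
    (I : Set (Set ℕ))
    (hdown : ∀ A ∈ I, ∀ B : Set ℕ, B ⊆ A → B ∈ I)
    (hfin : ∀ A : Set ℕ, A.Finite → A ∈ I)
    (hproper : (Set.univ : Set ℕ) ∉ I)
    (hBor : MeasurableSet {x : ℕ → Bool | {n : ℕ | x n = true} ∈ I})
    (hBpos : ∀ x, B x ∉ I) :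
    ∃ (D : X → Prop) (Φ : X → Set ℕ), Measurable D ∧ (∀ n, Measurable fun x => n ∈ Φ x) ∧
      (∀ x, Φ x ⊆ B x) ∧ (∀ x, Φ x ∉ I) ∧
      (∀ x, D x → ∀ z : ℕ → Bool, {n | n ∈ Φ x ∧ s x n = res z n} ∈ I) ∧
      (∀ x, ¬ D x → ∃ z : ℕ → Bool, {n | n ∈ B x ∧ s x n = res z n} ∉ I) := by
  obtain ⟨a, hafin, hamono, hanil, hcov, Λ, i1, i2, i3, i4, hρ⟩ :=
    rank_package I hdown hproper (hfin _ Set.finite_empty) hBor
  obtain ⟨enc, henc⟩ : ∃ enc : Λ → ℕ, Function.Injective enc := Countable.exists_injective_nat Λ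
  refine ⟨fun x => G B s a x (⊤ : Λ) [] → ∀ (α : Λ) (u : List ℕ),
      {n | SS B s a enc x ⊤ [] n ∧ Lm B s a x α u (s x n)} ∈ I,
    fun x => {n | (G B s a x (⊤ : Λ) [] ∧ SS B s a enc x ⊤ [] n) ∨
      (¬ G B s a x (⊤ : Λ) [] ∧ n ∈ B x)}, ?_, ?_, ?_, ?_, ?_, ?_⟩
  · refine (meas_G B s a hB hs ⊤ []).imp (Measurable.forall fun α => Measurable.forall fun u => ?_)
    refine meas_mem_ideal I hBor (fun x n => SS B s a enc x ⊤ [] n ∧ Lm B s a x α u (s x n)) ?_
    intro n
    refine (meas_SS B s a enc hB hs ⊤ [] n).and ?_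
    have : (fun x => Lm B s a x α u (s x n)) = fun x => ∃ l, s x n = l ∧ Lm B s a x α u l := by
      funext x
      simp
    rw [this]
    exact Measurable.exists fun l => (hs n l).and (meas_Lm B s a hB hs α u l)
  · intro n
    exact ((meas_G B s a hB hs ⊤ []).and (meas_SS B s a enc hB hs ⊤ [] n)).or
      ((meas_G B s a hB hs ⊤ []).not.and (hB n))
  · intro x n hn
    rcases hn with ⟨h1, h2⟩ | ⟨_, h2⟩
    · obtain ⟨u', _, h3, h4⟩ := SS_desc B s a enc h2 (G_inT B s a h1)
      exact (h3.1 n h4).1
    · exact h2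
  · intro x
    by_cases hG : G B s a x (⊤ : Λ) []
    · intro hmem
      refine SS_pos B s a enc I hG hρ (hdown _ hmem _ ?_)
      intro n hn
      exact Or.inl ⟨hG, hn⟩
    · intro hmem
      refine hBpos x (hdown _ hmem _ ?_)
      intro n hn
      exact Or.inr ⟨hG, hn⟩
  · intro x hD z
    by_cases hG : G B s a x (⊤ : Λ) []
    · by_cases hz : ∀ (β : Λ) v, ∃ k, ¬ Lm B s a x β v (res z k)
      · have := hfin _ (SS_finite B s a enc hafin hamono henc hz ⊤ [] hG)
        refine hdown _ this _ ?_
        rintro n ⟨hn1, hn2⟩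
        rcases hn1 with ⟨_, h2⟩ | ⟨h1, _⟩
        · exact ⟨h2, hn2⟩
        · exact absurd hG h1
      · push Not at hz
        obtain ⟨β, v, hz⟩ := hz
        refine hdown _ (hD hG β v) _ ?_
        rintro n ⟨hn1, hn2⟩
        rcases hn1 with ⟨_, h2⟩ | ⟨h1, _⟩
        · refine ⟨h2, ?_⟩
          rw [hn2]
          exact hz n
        · exact absurd hG h1
    · have := noG B s a hamono I hG hfin hcov z
      refine hdown _ this _ ?_
      rintro n ⟨hn1, hn2⟩
      rcases hn1 with ⟨h1, _⟩ | ⟨_, h1⟩
      · exact absurd h1 hG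
      · exact ⟨h1, hn2⟩
  · intro x hD
    push Not at hD
    obtain ⟨hG, α, u, hαu⟩ := hD
    refine ⟨br B s a x α u, fun hmem => hαu (hdown _ hmem _ ?_)⟩
    rintro n ⟨hn1, hn2⟩
    obtain ⟨u', _, h3, h4⟩ := SS_desc B s a enc hn1 (G_inT B s a hG)
    refine ⟨(h3.1 n h4).1, ?_⟩
    rw [res_br]
    have := eq_rho_of_Lm B s a hn2
    rw [(h3.1 n h4).2] at this
    exact this

/-- a set decided by a function with closed graph -/
def US {X : Type*} [TopologicalSpace X] (S : Set X) : Prop :=
  ∃ g : X → (ℕ → ℕ), IsClosed {p : X × (ℕ → ℕ) | p.2 = g p.1} ∧ ∀ x, x ∈ S ↔ g x 0 = 0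

/-- a condition on finitely many coordinates is clopen -/
theorem clopen_coord2 {X : Type*} [TopologicalSpace X] (P : ℕ → ℕ → Prop) (i j : ℕ)
    {f : X → (ℕ → ℕ)} (hf : Continuous f) :
    IsClopen {p : X | P (f p i) (f p j)} := by
  have h : Continuous (fun p : X => (f p i, f p j)) :=
    ((continuous_apply i).comp hf).prodMk ((continuous_apply j).comp hf)
  exact (isClopen_discrete {q : ℕ × ℕ | P q.1 q.2}).preimage h

theorem US_clopen {X : Type*} [TopologicalSpace X] {S : Set X} (hS : IsClopen S) : US S := by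
  classical
  refine ⟨fun x => if x ∈ S then (fun _ => 0) else (fun _ => 1), ?_, ?_⟩
  · have : {p : X × (ℕ → ℕ) | p.2 = (if p.1 ∈ S then (fun _ => 0) else (fun _ => 1))} =
        S ×ˢ {(fun _ => 0 : ℕ → ℕ)} ∪ Sᶜ ×ˢ {(fun _ => 1 : ℕ → ℕ)} := by
      ext ⟨x, v⟩
      by_cases h : x ∈ S
      · simp [h]
      · simp [h]
    rw [this]
    exact (hS.1.prod isClosed_singleton).union (hS.compl.1.prod isClosed_singleton)
  · intro x
    by_cases h : x ∈ S
    · simp [h]
    · simp [h]

theorem US_compl {X : Type*} [TopologicalSpace X] {S : Set X} (hS : US S) : US Sᶜ := by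
  classical
  obtain ⟨g, hg, hgS⟩ := hS
  refine ⟨fun x n => if n = 0 then (if g x 0 = 0 then 1 else 0) else g x (n - 1), ?_, ?_⟩
  · have h1 : Continuous (fun p : X × (ℕ → ℕ) => ((p.1, fun n => p.2 (n+1)) : X × (ℕ → ℕ))) := by
      refine continuous_fst.prodMk (continuous_pi fun n => ?_)
      exact (continuous_apply (n+1)).comp continuous_snd
    have h2 := hg.preimage h1
    have h3 := (clopen_coord2 (X := X × (ℕ → ℕ)) (fun a b => a = if b = 0 then 1 else 0) 0 1
      continuous_snd).1
    convert h2.inter h3 using 1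
    ext ⟨x, v⟩
    simp only [Set.mem_ofPred_eq, Set.mem_inter_iff, Set.mem_preimage]
    constructor
    · intro h
      constructor
      · funext n
        rw [h]
        simp
      · rw [h]
        simp
    · rintro ⟨h4, h5⟩
      funext n
      rcases Nat.eq_zero_or_pos n with hn | hn
      · subst hn
        have h6 : v 1 = g x 0 := congrFun h4 0
        have h7 : v 0 = if v 1 = 0 then 1 else 0 := h5
        show v 0 = _
        rw [h7]
        simp only [h6]
        simp
      · have h6 : v (n - 1 + 1) = g x (n - 1) := congrFun h4 (n-1)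
        rw [Nat.sub_add_cancel hn] at h6
        rw [h6, if_neg (by omega)]
  · intro x
    rw [Set.mem_compl_iff, hgS]
    by_cases h : g x 0 = 0
    · simp [h]
    · simp [h]

/-- columns -/
def col (k : ℕ) (v : ℕ → ℕ) : ℕ → ℕ := fun n => v (Nat.pair k n + 2)

theorem continuous_col (k : ℕ) : Continuous (col k) :=
  continuous_pi fun n => continuous_apply _

open Classical in
/-- the combined function for a union -/
noncomputable def comb {X : Type*} (S : ℕ → Set X) (g : ℕ → X → (ℕ → ℕ)) (x : X) : ℕ → ℕ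
  | 0 => if ∃ k, x ∈ S k then 0 else 1
  | 1 => if h : ∃ k, x ∈ S k then Nat.find h else 0
  | (n+2) => g (Nat.unpair n).1 x (Nat.unpair n).2

theorem col_comb {X : Type*} (S : ℕ → Set X) (g : ℕ → X → (ℕ → ℕ)) (x : X) (k : ℕ) :
    col k (comb S g x) = g k x := by
  funext n
  show comb S g x (Nat.pair k n + 2) = g k x n
  simp [comb]

theorem US_iUnion {X : Type*} [TopologicalSpace X] {S : ℕ → Set X} (hS : ∀ k, US (S k)) :
    US (⋃ k, S k) := by
  classical
  choose g hg hgS using hS
  refine ⟨comb S g, ?_, ?_⟩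
  · have hA : IsClosed {p : X × (ℕ → ℕ) | ∀ k, col k p.2 = g k p.1} := by
      have : {p : X × (ℕ → ℕ) | ∀ k, col k p.2 = g k p.1} =
          ⋂ k, (fun p : X × (ℕ → ℕ) => ((p.1, col k p.2) : X × (ℕ → ℕ))) ⁻¹'
            {p : X × (ℕ → ℕ) | p.2 = g k p.1} := by
        ext p; simp
      rw [this]
      exact isClosed_iInter fun k => (hg k).preimage
        (continuous_fst.prodMk ((continuous_col k).comp continuous_snd))
    have hC1 : IsClosed {p : X × (ℕ → ℕ) | p.2 0 = 0 ∧ (∀ m, p.2 1 = m → col m p.2 0 = 0) ∧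
        ∀ m, ∀ j < m, p.2 1 = m → col j p.2 0 ≠ 0} := by
      have h1 : IsClosed {p : X × (ℕ → ℕ) | p.2 0 = 0} :=
        (clopen_coord2 (X := X × (ℕ → ℕ)) (fun a _ => a = 0) 0 0 continuous_snd).1
      have h2 : IsClosed {p : X × (ℕ → ℕ) | ∀ m, p.2 1 = m → col m p.2 0 = 0} := by
        have : {p : X × (ℕ → ℕ) | ∀ m, p.2 1 = m → col m p.2 0 = 0} =
          ⋂ m, {p : X × (ℕ → ℕ) | p.2 1 = m → p.2 (Nat.pair m 0 + 2) = 0} := by
          ext p; simp [col]
        rw [this]
        exact isClosed_iInter fun m => (clopen_coord2 (X := X × (ℕ → ℕ))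
          (fun a b => a = m → b = 0) 1 (Nat.pair m 0 + 2) continuous_snd).1
      have h3 : IsClosed {p : X × (ℕ → ℕ) | ∀ m, ∀ j < m, p.2 1 = m → col j p.2 0 ≠ 0} := by
        have : {p : X × (ℕ → ℕ) | ∀ m, ∀ j < m, p.2 1 = m → col j p.2 0 ≠ 0} =
          ⋂ m, ⋂ j, {p : X × (ℕ → ℕ) | j < m → p.2 1 = m → p.2 (Nat.pair j 0 + 2) ≠ 0} := by
          ext p; simp [col]
        rw [this]
        exact isClosed_iInter fun m => isClosed_iInter fun j => (clopen_coord2 (X := X × (ℕ → ℕ))
          (fun a b => j < m → a = m → b ≠ 0) 1 (Nat.pair j 0 + 2) continuous_snd).1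
      exact h1.inter (h2.inter h3)
    have hC2 : IsClosed {p : X × (ℕ → ℕ) | p.2 0 = 1 ∧ p.2 1 = 0 ∧ ∀ k, col k p.2 0 ≠ 0} := by
      have h1 : IsClosed {p : X × (ℕ → ℕ) | p.2 0 = 1} :=
        (clopen_coord2 (X := X × (ℕ → ℕ)) (fun a _ => a = 1) 0 0 continuous_snd).1
      have h2 : IsClosed {p : X × (ℕ → ℕ) | p.2 1 = 0} :=
        (clopen_coord2 (X := X × (ℕ → ℕ)) (fun a _ => a = 0) 1 1 continuous_snd).1
      have h3 : IsClosed {p : X × (ℕ → ℕ) | ∀ k, col k p.2 0 ≠ 0} := by
        have : {p : X × (ℕ → ℕ) | ∀ k, col k p.2 0 ≠ 0} =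
          ⋂ k, {p : X × (ℕ → ℕ) | p.2 (Nat.pair k 0 + 2) ≠ 0} := by
          ext p; simp [col]
        rw [this]
        exact isClosed_iInter fun k => (clopen_coord2 (X := X × (ℕ → ℕ))
          (fun a _ => a ≠ 0) (Nat.pair k 0 + 2) 0 continuous_snd).1
      exact h1.inter (h2.inter h3)
    convert hA.inter (hC1.union hC2) using 1
    ext ⟨x, v⟩
    simp only [Set.mem_ofPred_eq, Set.mem_inter_iff, Set.mem_union]
    constructor
    · intro h
      subst h
      refine ⟨fun k => col_comb S g x k, ?_⟩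
      simp only [col_comb, ne_eq, ← hgS]
      by_cases hex : ∃ k, x ∈ S k
      · left
        have h1 : comb S g x 1 = Nat.find hex := by
          show (if h : ∃ k, x ∈ S k then Nat.find h else 0) = _
          rw [dif_pos hex]
        refine ⟨?_, ?_, ?_⟩
        · show (if ∃ k, x ∈ S k then 0 else 1) = 0
          rw [if_pos hex]
        · intro m hm
          rw [← hm, h1]
          exact Nat.find_spec hex
        · intro m j hj hm
          rw [h1] at hm
          rw [← hm] at hj
          exact Nat.find_min hex hj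
      · right
        refine ⟨?_, ?_, ?_⟩
        · show (if ∃ k, x ∈ S k then 0 else 1) = 1
          rw [if_neg hex]
        · show (if h : ∃ k, x ∈ S k then Nat.find h else 0) = 0
          rw [dif_neg hex]
        · intro k hk
          exact hex ⟨k, hk⟩
    · rintro ⟨h1, h2⟩
      simp only [h1, ne_eq, ← hgS] at h2
      have h3 : ∀ n, v (n+2) = comb S g x (n+2) := by
        intro n
        have := congrFun (h1 (Nat.unpair n).1) (Nat.unpair n).2
        simp only [col, Nat.pair_unpair] at this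
        rw [this]
        rfl
      funext n
      rcases h2 with ⟨h4, h5, h6⟩ | ⟨h4, h5, h6⟩
      · have hex : ∃ k, x ∈ S k := ⟨v 1, h5 _ rfl⟩
        match n with
        | 0 =>
          show v 0 = (if ∃ k, x ∈ S k then 0 else 1)
          rw [if_pos hex, h4]
        | 1 =>
          show v 1 = (if h : ∃ k, x ∈ S k then Nat.find h else 0)
          rw [dif_pos hex]
          symm
          rw [Nat.find_eq_iff]
          exact ⟨h5 _ rfl, fun j hj => h6 _ j hj rfl⟩
        | (n+2) => exact h3 n
      · have hex : ¬ ∃ k, x ∈ S k := by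
          rintro ⟨k, hk⟩
          exact h6 k hk
        match n with
        | 0 =>
          show v 0 = (if ∃ k, x ∈ S k then 0 else 1)
          rw [if_neg hex, h4]
        | 1 =>
          show v 1 = (if h : ∃ k, x ∈ S k then Nat.find h else 0)
          rw [dif_neg hex, h5]
        | (n+2) => exact h3 n
  · intro x
    rw [Set.mem_iUnion]
    show (∃ k, x ∈ S k) ↔ (if ∃ k, x ∈ S k then 0 else 1) = 0
    by_cases hex : ∃ k, x ∈ S k
    · simp [hex]
    · rw [if_neg hex]
      simpa using hex

/-- the corresponding sigma-algebra -/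
def USm : MeasurableSpace (ℕ → Bool) where
  MeasurableSet' S := US S
  measurableSet_empty := US_clopen isClopen_empty
  measurableSet_compl _ h := US_compl h
  measurableSet_iUnion _ h := US_iUnion h

theorem US_of_measurable {S : Set (ℕ → Bool)} (hS : MeasurableSet S) : US S := by
  have hle : (MeasurableSpace.pi : MeasurableSpace (ℕ → Bool)) ≤ USm := by
    refine iSup_le fun i => ?_
    rintro t ⟨t', _, rfl⟩
    exact US_clopen ((isClopen_discrete t').preimage (continuous_apply i))
  exact hle S hS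

theorem exists_closed_lift (f : (ℕ → Bool) → (ℕ → ℕ)) (hf : ∀ n m, MeasurableSet {x | f x n = m}) :
    ∃ g : (ℕ → Bool) → (ℕ → ℕ),
      IsClosed {p : (ℕ → Bool) × (ℕ → ℕ) × (ℕ → ℕ) | p.2.1 = g p.1 ∧ p.2.2 = f p.1} := by
  have h := fun n m => US_of_measurable (hf n m)
  choose g hg hgS using h
  refine ⟨fun x j => g (Nat.unpair (Nat.unpair j).1).1 (Nat.unpair (Nat.unpair j).1).2 x
    (Nat.unpair j).2, ?_⟩
  have hA : IsClosed {p : (ℕ → Bool) × (ℕ → ℕ) × (ℕ → ℕ) | ∀ n m,
      (fun i => p.2.1 (Nat.pair (Nat.pair n m) i)) = g n m p.1} := by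
    have : {p : (ℕ → Bool) × (ℕ → ℕ) × (ℕ → ℕ) | ∀ n m,
      (fun i => p.2.1 (Nat.pair (Nat.pair n m) i)) = g n m p.1} = ⋂ n, ⋂ m,
        (fun p : (ℕ → Bool) × (ℕ → ℕ) × (ℕ → ℕ) =>
          ((p.1, fun i => p.2.1 (Nat.pair (Nat.pair n m) i)) : (ℕ → Bool) × (ℕ → ℕ))) ⁻¹'
          {p | p.2 = g n m p.1} := by
      ext p; simp
    rw [this]
    refine isClosed_iInter fun n => isClosed_iInter fun m => (hg n m).preimage ?_
    refine continuous_fst.prodMk (continuous_pi fun i => ?_)
    exact (continuous_apply _).comp (continuous_fst.comp continuous_snd)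
  have hC : IsClosed {p : (ℕ → Bool) × (ℕ → ℕ) × (ℕ → ℕ) | ∀ n m,
      (p.2.2 n = m ↔ p.2.1 (Nat.pair (Nat.pair n m) 0) = 0)} := by
    have : {p : (ℕ → Bool) × (ℕ → ℕ) × (ℕ → ℕ) | ∀ n m,
      (p.2.2 n = m ↔ p.2.1 (Nat.pair (Nat.pair n m) 0) = 0)} = ⋂ n, ⋂ m,
        {p | (p.2.2 n = m ↔ p.2.1 (Nat.pair (Nat.pair n m) 0) = 0)} := by
      ext p; simp
    rw [this]
    refine isClosed_iInter fun n => isClosed_iInter fun m => ?_
    have h : Continuous (fun p : (ℕ → Bool) × (ℕ → ℕ) × (ℕ → ℕ) =>
        (p.2.2 n, p.2.1 (Nat.pair (Nat.pair n m) 0))) :=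
      ((continuous_apply n).comp (continuous_snd.comp continuous_snd)).prodMk
        ((continuous_apply _).comp (continuous_fst.comp continuous_snd))
    exact ((isClopen_discrete {q : ℕ × ℕ | (q.1 = m ↔ q.2 = 0)}).preimage h).1
  convert hA.inter hC using 1
  ext ⟨x, v, w⟩
  simp only [Set.mem_ofPred_eq, Set.mem_inter_iff]
  constructor
  · rintro ⟨rfl, rfl⟩
    refine ⟨fun n m => ?_, fun n m => ?_⟩
    · funext i
      simp
    · simp only [Nat.unpair_pair]
      exact hgS n m x
  · rintro ⟨h1, h2⟩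
    have h3 : v = fun j => g (Nat.unpair (Nat.unpair j).1).1 (Nat.unpair (Nat.unpair j).1).2 x
        (Nat.unpair j).2 := by
      funext j
      have := congrFun (h1 (Nat.unpair (Nat.unpair j).1).1 (Nat.unpair (Nat.unpair j).1).2)
        (Nat.unpair j).2
      simpa using this
    refine ⟨h3, ?_⟩
    funext n
    rw [h2 n (f x n)]
    have h4 : v (Nat.pair (Nat.pair n (f x n)) 0) = g n (f x n) x 0 :=
      congrFun (h1 n (f x n)) 0
    rw [h4]
    exact (hgS n (f x n) x).1 rfl


theorem meas_coord (k : ℕ) (b : Bool) : Measurable fun y : ℕ → Bool => y k = b := by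
  rw [← measurableSet_setOfPred]
  have h : Measurable (fun y : ℕ → Bool => y k) := measurable_pi_apply k
  exact h (measurableSet_singleton b)

theorem meas_res (k : ℕ) : ∀ P : List Bool → Prop,
    Measurable fun y : ℕ → Bool => P (res y k) := by
  induction k with
  | zero =>
    intro P
    show Measurable fun _ : ℕ → Bool => P []
    exact measurable_const
  | succ k ih =>
    intro P
    have : (fun y : ℕ → Bool => P (res y (k+1))) = fun y => ∃ b, y k = b ∧ P (b :: res y k) := by
      funext y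
      simp [res_succ]
    rw [this]
    refine Measurable.exists fun b => Measurable.and ?_ (ih (fun l => P (b :: l)))
    exact meas_coord k b

/-- a measurable surjection from Cantor space onto Baire space -/
theorem exists_surj : ∃ h : (ℕ → Bool) → (ℕ → ℕ), Function.Surjective h ∧
    ∀ n m, Measurable fun y => h y n = m := by
  classical
  have hm : ∀ j, Measurable fun y : ℕ → Bool => y j = true := fun j => meas_coord j true
  refine ⟨fun y n => if hh : ∃ m, y (Nat.pair n m) = true then Nat.find hh else 0, ?_, ?_⟩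
  · intro f
    refine ⟨fun j => decide (f (Nat.unpair j).1 = (Nat.unpair j).2), ?_⟩
    funext n
    have hex : ∃ m, (fun j => decide (f (Nat.unpair j).1 = (Nat.unpair j).2)) (Nat.pair n m)
        = true := ⟨f n, by simp⟩
    show (if hh : ∃ m, (fun j => decide (f (Nat.unpair j).1 = (Nat.unpair j).2)) (Nat.pair n m)
        = true then Nat.find hh else 0) = f n
    rw [dif_pos hex, Nat.find_eq_iff]
    refine ⟨by simp, fun j hj => ?_⟩
    simp only [Nat.unpair_pair, decide_eq_true_eq]
    omega
  · intro n m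
    have : (fun y : ℕ → Bool => (if hh : ∃ m, y (Nat.pair n m) = true then Nat.find hh else 0) = m) =
        fun y => ((∃ m, y (Nat.pair n m) = true) ∧ (y (Nat.pair n m) = true ∧
          ∀ j, j < m → ¬ y (Nat.pair n j) = true)) ∨
          ((¬ ∃ m, y (Nat.pair n m) = true) ∧ 0 = m) := by
      funext y
      by_cases hex : ∃ m, y (Nat.pair n m) = true
      · rw [dif_pos hex, Nat.find_eq_iff]
        simp only [hex, true_and, not_true_eq_false, false_and, or_false]
      · rw [dif_neg hex]
        simp only [hex, false_and, not_false_eq_true, true_and, false_or]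
    rw [this]
    have h1 : Measurable fun y : ℕ → Bool => ∃ m, y (Nat.pair n m) = true :=
      Measurable.exists fun m => hm _
    exact (h1.and ((hm _).and (Measurable.forall fun j => measurable_const.imp (hm _).not))).or
      (h1.not.and measurable_const)

open Classical in
/-- decoding, with a value of the wrong length when undefined -/
noncomputable def sdec (m n : ℕ) : List Bool :=
  if h : ∃ l : List Bool, Encodable.encode l = m then h.choose else List.replicate (n+1) true

theorem sdec_eq_iff (m n : ℕ) (z : ℕ → Bool) :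
    sdec m n = res z n ↔ m = Encodable.encode (res z n) := by
  unfold sdec
  constructor
  · intro h
    by_cases hex : ∃ l : List Bool, Encodable.encode l = m
    · rw [dif_pos hex] at h
      rw [← h, hex.choose_spec]
    · rw [dif_neg hex] at h
      have := congrArg List.length h
      rw [res_length, List.length_replicate] at this
      omega
  · intro h
    have hex : ∃ l : List Bool, Encodable.encode l = m := ⟨res z n, h.symm⟩
    rw [dif_pos hex]
    apply Encodable.encode_injective
    rw [hex.choose_spec, h]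

theorem finite_res_eq {y y' : ℕ → Bool} (h : y ≠ y') : {n | res y n = res y' n}.Finite := by
  obtain ⟨i, hi⟩ := Function.ne_iff.1 h
  refine (Set.finite_le_nat i).subset ?_
  intro n hn
  show n ≤ i
  by_contra hcon
  rw [Set.mem_ofPred_eq, res_eq_res] at hn
  exact hi (hn (by omega))

theorem interval_unique {π : ℕ → ℕ} (hπ : StrictMono π) {i j n : ℕ} (h1 : π i ≤ n)
    (h2 : n < π (i+1)) (h3 : π j ≤ n) (h4 : n < π (j+1)) : i = j := by
  rcases lt_trichotomy i j with h | h | h
  · exact absurd (lt_of_lt_of_le h2 (hπ.monotone (Nat.succ_le_of_lt h))) (not_lt.2 h3)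
  · exact h
  · exact absurd (lt_of_lt_of_le h4 (hπ.monotone (Nat.succ_le_of_lt h))) (not_lt.2 h1)

/-- the almost disjoint family -/
def BB (π : ℕ → ℕ) (y : ℕ → Bool) : Set ℕ :=
  {n | ∃ j, (∃ k, j = 2 * Encodable.encode (res y k) + 1) ∧ π j ≤ n ∧ n < π (j+1)}

theorem BB_inter_finite {π : ℕ → ℕ} (hπ : StrictMono π) {y y' : ℕ → Bool} (h : y ≠ y') :
    (BB π y ∩ BB π y').Finite := by
  have hsub : BB π y ∩ BB π y' ⊆ ⋃ k ∈ {n | res y n = res y' n},
      Set.Iio (π (2 * Encodable.encode (res y k) + 1 + 1)) := by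
    rintro n ⟨⟨j, ⟨k, hk⟩, h1, h2⟩, ⟨j', ⟨k', hk'⟩, h3, h4⟩⟩
    have hjj := interval_unique hπ h1 h2 h3 h4
    have hres : res y k = res y' k' := by
      apply Encodable.encode_injective
      omega
    have hkk : k = k' := by
      have := congrArg List.length hres
      rw [res_length, res_length] at this
      exact this
    subst hkk
    simp only [Set.mem_iUnion]
    refine ⟨k, hres, ?_⟩
    rw [← hk]
    exact h2
  refine Set.Finite.subset ?_ hsub
  exact (finite_res_eq h).biUnion fun k _ => Set.finite_Iio _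

theorem BB_pos {π : ℕ → ℕ} (I : Set (Set ℕ))
    (hπI : ∀ K : Set ℕ, K.Infinite → {n | ∃ k ∈ K, π k ≤ n ∧ n < π (k+1)} ∉ I)
    (y : ℕ → Bool) : BB π y ∉ I := by
  have hK : {j | ∃ k, j = 2 * Encodable.encode (res y k) + 1}.Infinite := by
    refine Set.infinite_of_injective_forall_mem (f := fun k => 2 * Encodable.encode (res y k) + 1)
      ?_ (fun k => ⟨k, rfl⟩)
    intro k k' h
    have h' : 2 * Encodable.encode (res y k) + 1 = 2 * Encodable.encode (res y k') + 1 := h
    have hres : res y k = res y k' := by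
      apply Encodable.encode_injective
      omega
    have := congrArg List.length hres
    rw [res_length, res_length] at this
    exact this
  exact hπI _ hK

theorem meas_BB (π : ℕ → ℕ) (n : ℕ) : Measurable fun y => n ∈ BB π y := by
  show Measurable fun y => ∃ j, (∃ k, j = 2 * Encodable.encode (res y k) + 1) ∧ π j ≤ n ∧ n < π (j+1)
  exact Measurable.exists fun j => (Measurable.exists fun k =>
    meas_res k (fun l => j = 2 * Encodable.encode l + 1)).and measurable_const

theorem BB_disj {π : ℕ → ℕ} (hπ : StrictMono π) (y : ℕ → Bool) (j : ℕ) : π (2*j) ∉ BB π y := by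
  rintro ⟨j', ⟨k, hk⟩, h1, h2⟩
  have := interval_unique hπ (le_refl (π (2*j))) (hπ (Nat.lt_succ_self _)) h1 h2
  omega

theorem main_theorem (I : Set (Set ℕ))
    (hdown : ∀ A ∈ I, ∀ B : Set ℕ, B ⊆ A → B ∈ I)
    (hunion : ∀ A ∈ I, ∀ B ∈ I, A ∪ B ∈ I)
    (hfin : ∀ A : Set ℕ, A.Finite → A ∈ I)
    (hproper : (Set.univ : Set ℕ) ∉ I)
    (hBor : MeasurableSet {x : ℕ → Bool | {n : ℕ | x n = true} ∈ I}) :
    ∃ ε : Set (ℕ → ℕ), IsClosed ε ∧
      (∀ f ∈ ε, ∀ g ∈ ε, f ≠ g → {n : ℕ | f n = g n} ∈ I) ∧
      (∀ h : ℕ → ℕ, ∃ f ∈ ε, {n : ℕ | f n = h n} ∉ I) := by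
  classical
  obtain ⟨π, hπ, hπI⟩ := exists_partition I hdown hunion hfin hproper hBor
  obtain ⟨h, hsurj, hmeas⟩ := exists_surj
  have hsm : ∀ n l, Measurable fun y : ℕ → Bool => sdec (h y n) n = l := by
    intro n l
    have : (fun y : ℕ → Bool => sdec (h y n) n = l) = fun y => ∃ m, h y n = m ∧ sdec m n = l := by
      funext y
      simp
    rw [this]
    exact Measurable.exists fun m => (hmeas n m).and measurable_const
  obtain ⟨D, Φ, hD, hΦ, hΦB, hΦpos, hDz, hnD⟩ :=
    dichotomy (fun y => BB π y) (fun y n => sdec (h y n) n) (meas_BB π) hsm I hdown hfin hproper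
      hBor (BB_pos I hπI)
  -- the Borel part
  let N : Set ℕ := {n | ∃ j, n = π (2*j)}
  have hNinf : ∀ i, ∃ n ∈ N, i < n := by
    intro i
    refine ⟨π (2*(i+1)), ⟨i+1, rfl⟩, ?_⟩
    have := hπ.id_le (2*(i+1))
    simp only [id] at this
    omega
  have hNB : ∀ y n, n ∈ BB π y → n ∉ N := by
    rintro y n hn ⟨j, rfl⟩
    exact BB_disj hπ y j hn
  let f : (ℕ → Bool) → ℕ → ℕ := fun y n => if n ∈ N then 0 else
    if D y ∧ n ∈ Φ y then h y n else Encodable.encode (res y n)
  have hfN : ∀ y n, n ∈ N → f y n = 0 := fun y n hn => if_pos hn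
  have hfΦ : ∀ y n, n ∉ N → D y → n ∈ Φ y → f y n = h y n := by
    intro y n h1 h2 h3
    simp only [f, if_neg h1, h2, h3, true_and, if_true]
  have hfe : ∀ y n, n ∉ N → ¬ (D y ∧ n ∈ Φ y) → f y n = Encodable.encode (res y n) := by
    intro y n h1 h2
    simp only [f, if_neg h1, if_neg h2]
  have hfm : ∀ n m, MeasurableSet {y | f y n = m} := by
    intro n m
    rw [measurableSet_setOfPred]
    by_cases hn : n ∈ N
    · have : (fun y => f y n = m) = fun _ => (0 = m) := by
        funext y
        rw [hfN y n hn]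
      rw [this]
      exact measurable_const
    · have : (fun y => f y n = m) = fun y => ((D y ∧ n ∈ Φ y) ∧ h y n = m) ∨
          (¬ (D y ∧ n ∈ Φ y) ∧ Encodable.encode (res y n) = m) := by
        funext y
        by_cases hc : D y ∧ n ∈ Φ y
        · rw [hfΦ y n hn hc.1 hc.2]
          simp [hc]
        · rw [hfe y n hn hc]
          simp [hc]
      rw [this]
      have h1 : Measurable fun y => D y ∧ n ∈ Φ y := hD.and (hΦ n)
      exact (h1.and (hmeas n m)).or (h1.not.and (meas_res n (fun l => Encodable.encode l = m)))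
  obtain ⟨g, hg⟩ := exists_closed_lift f hfm
  let F : (ℕ → Bool) → ℕ → ℕ := fun y n => if n ∈ N then
    Encodable.encode (res y n, res (g y) n) else f y n
  have hFN : ∀ y n, n ∈ N → F y n = Encodable.encode (res y n, res (g y) n) :=
    fun y n hn => if_pos hn
  have hFf : ∀ y n, n ∉ N → F y n = f y n := fun y n hn => if_neg hn
  refine ⟨Set.range F, ?_, ?_, ?_⟩
  · -- closedness
    apply isClosed_of_closure_subset
    intro w hw
    obtain ⟨u, hu, huw⟩ := mem_closure_iff_seq_limit.1 hw
    choose y hy using hu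
    rw [tendsto_pi_nhds] at huw
    have hev : ∀ n, ∀ᶠ k in atTop, F (y k) n = w n := by
      intro n
      have := huw n
      rw [nhds_discrete, tendsto_pure] at this
      filter_upwards [this] with k hk
      rw [hy k]
      exact hk
    have hcoord : ∀ i, ∃ b c, ∀ᶠ k in atTop, y k i = b ∧ g (y k) i = c := by
      intro i
      obtain ⟨n, hnN, hin⟩ := hNinf i
      obtain ⟨K, hK⟩ := Filter.eventually_atTop.1 (hev n)
      refine ⟨y K i, g (y K) i, ?_⟩
      filter_upwards [Filter.eventually_ge_atTop K] with k hk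
      have h1 := hK K le_rfl
      have h2 := hK k hk
      rw [hFN _ _ hnN] at h1 h2
      have h3 := Encodable.encode_injective (h2.trans h1.symm)
      rw [Prod.mk.injEq, res_eq_res, res_eq_res] at h3
      exact ⟨h3.1 hin, h3.2 hin⟩
    choose yl γ hyγ using hcoord
    have hy1 : Tendsto y atTop (𝓝 yl) := by
      rw [tendsto_pi_nhds]
      intro i
      rw [nhds_discrete, tendsto_pure]
      exact (hyγ i).mono fun k hk => hk.1
    have hg1 : Tendsto (fun k => g (y k)) atTop (𝓝 γ) := by
      rw [tendsto_pi_nhds]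
      intro i
      rw [nhds_discrete, tendsto_pure]
      exact (hyγ i).mono fun k hk => hk.2
    have hf1 : Tendsto (fun k => f (y k)) atTop (𝓝 (fun n => if n ∈ N then 0 else w n)) := by
      rw [tendsto_pi_nhds]
      intro n
      rw [nhds_discrete, tendsto_pure]
      by_cases hn : n ∈ N
      · filter_upwards with k
        rw [hfN _ _ hn, if_pos hn]
      · filter_upwards [hev n] with k hk
        rw [if_neg hn, ← hk, hFf _ _ hn]
    have hmem := hg.mem_of_tendsto (hy1.prodMk_nhds (hg1.prodMk_nhds hf1))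
      (Filter.Eventually.of_forall fun k => ⟨rfl, rfl⟩)
    obtain ⟨h1, h2⟩ := hmem
    simp only at h1 h2
    refine ⟨yl, ?_⟩
    funext n
    by_cases hn : n ∈ N
    · rw [hFN _ _ hn, ← h1]
      have hall : ∀ᶠ k in atTop, ∀ i ∈ {i | i < n}, y k i = yl i ∧ g (y k) i = γ i := by
        rw [Filter.eventually_all_finite (Set.finite_lt_nat n)]
        intro i _
        exact hyγ i
      obtain ⟨k, hk1, hk2⟩ := (hall.and (hev n)).exists
      rw [← hk2, hFN _ _ hn]
      have h3 : res yl n = res (y k) n := by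
        rw [res_eq_res]
        intro m hm
        exact ((hk1 m hm).1).symm
      have h4 : res γ n = res (g (y k)) n := by
        rw [res_eq_res]
        intro m hm
        exact ((hk1 m hm).2).symm
      rw [h3, h4]
    · rw [hFf _ _ hn, ← h2]
      exact if_neg hn
  · -- pairwise different
    rintro _ ⟨y, rfl⟩ _ ⟨y', rfl⟩ hne
    have hyy : y ≠ y' := fun h => hne (by rw [h])
    have hE3 : ∀ a b : ℕ → Bool, {n | D a ∧ n ∈ Φ a ∧ h a n = Encodable.encode (res b n)} ∈ I := by
      intro a b
      by_cases ha : D a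
      · refine hdown _ (hDz a ha b) _ ?_
        rintro n ⟨_, h1, h2⟩
        exact ⟨h1, (sdec_eq_iff _ _ _).2 h2⟩
      · refine hdown _ (hfin _ Set.finite_empty) _ ?_
        rintro n ⟨h1, _⟩
        exact absurd h1 ha
    refine hdown _ (hunion _ (hunion _ (hfin _ (finite_res_eq hyy)) _
      (hfin _ (BB_inter_finite hπ hyy))) _ (hunion _ (hE3 y y') _ (hE3 y' y))) _ ?_
    intro n hn
    rw [Set.mem_ofPred_eq] at hn
    by_cases hnN : n ∈ N
    · rw [hFN _ _ hnN, hFN _ _ hnN] at hn
      have := Encodable.encode_injective hn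
      rw [Prod.mk.injEq] at this
      exact Or.inl (Or.inl this.1)
    · rw [hFf _ _ hnN, hFf _ _ hnN] at hn
      by_cases h1 : D y ∧ n ∈ Φ y
      · by_cases h2 : D y' ∧ n ∈ Φ y'
        · exact Or.inl (Or.inr ⟨hΦB _ h1.2, hΦB _ h2.2⟩)
        · rw [hfΦ _ _ hnN h1.1 h1.2, hfe _ _ hnN h2] at hn
          exact Or.inr (Or.inl ⟨h1.1, h1.2, hn⟩)
      · by_cases h2 : D y' ∧ n ∈ Φ y'
        · rw [hfΦ _ _ hnN h2.1 h2.2, hfe _ _ hnN h1] at hn
          exact Or.inr (Or.inr ⟨h2.1, h2.2, hn.symm⟩)
        · rw [hfe _ _ hnN h1, hfe _ _ hnN h2] at hn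
          exact Or.inl (Or.inl (Encodable.encode_injective hn))
  · -- maximality
    intro h0
    obtain ⟨y, rfl⟩ := hsurj h0
    by_cases hDy : D y
    · refine ⟨F y, ⟨y, rfl⟩, fun hmem => hΦpos y (hdown _ hmem _ ?_)⟩
      intro n hn
      have hnN : n ∉ N := hNB y n (hΦB y hn)
      show F y n = h y n
      rw [hFf _ _ hnN, hfΦ _ _ hnN hDy hn]
    · obtain ⟨z, hz⟩ := hnD y hDy
      by_cases hzy : z = y
      · subst hzy
        refine ⟨F z, ⟨z, rfl⟩, fun hmem => hz (hdown _ hmem _ ?_)⟩
        rintro n ⟨hn1, hn2⟩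
        have hnN : n ∉ N := hNB z n hn1
        show F z n = h z n
        rw [hFf _ _ hnN, hfe _ _ hnN (fun hc => hDy hc.1), (sdec_eq_iff _ _ _).1 hn2]
      · refine ⟨F z, ⟨z, rfl⟩, fun hmem => hz (hdown _ (hunion _ hmem _
          (hfin _ (BB_inter_finite hπ hzy))) _ ?_)⟩
        rintro n ⟨hn1, hn2⟩
        have hnN : n ∉ N := hNB y n hn1
        by_cases hnz : n ∈ BB π z
        · exact Or.inr ⟨hnz, hn1⟩
        · left
          show F z n = h y n
          rw [hFf _ _ hnN, hfe _ _ hnN (fun hc => hnz (hΦB _ hc.2)), (sdec_eq_iff _ _ _).1 hn2]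

end Aux

/-- For every proper Borel ideal on ℕ containing all finite sets, some closed set of functions ℕ→ℕ has pairwise agreement sets in the ideal, and every function agrees with some member on a set outside the ideal. -/
theorem result :
    ∀ I : Set (Set ℕ),
      (∀ A ∈ I, ∀ B : Set ℕ, B ⊆ A → B ∈ I) →
      (∀ A ∈ I, ∀ B ∈ I, A ∪ B ∈ I) →
      (∀ A : Set ℕ, A.Finite → A ∈ I) →
      (Set.univ : Set ℕ) ∉ I →
      @MeasurableSet (ℕ → Bool) (borel (ℕ → Bool)) {x : ℕ → Bool | {n : ℕ | x n = true} ∈ I} →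
      ∃ ε : Set (ℕ → ℕ), IsClosed ε ∧
        (∀ f ∈ ε, ∀ g ∈ ε, f ≠ g → {n : ℕ | f n = g n} ∈ I) ∧
        (∀ h : ℕ → ℕ, ∃ f ∈ ε, {n : ℕ | f n = h n} ∉ I) := by
  intro I hdown hunion hfin hproper hBor
  have hBor' : MeasurableSet {x : ℕ → Bool | {n : ℕ | x n = true} ∈ I} := by
    rw [BorelSpace.measurable_eq (α := ℕ → Bool)]
    exact hBor
  exact main_theorem I hdown hunion hfin hproper hBor'

end Pool.Agent.S09601
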