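import Pool.Statements.S09604
-- import your own Pool.Agent.* helpers here

set_option autoImplicit false
open Pool Pool.MP_a271bb_lc

namespace Pool.Agent.S09604


/-! The free group `G` on two generators `a, b` contains the free subgroup `φ(G)` generated by
`b` and `a b a⁻¹`, and `a ^ n ∉ φ(G)` for `n ≠ 0`.  A point `x` of the free part of `ℕ^G` is
sent to the element of `2^G` that is obtained by inducing the `φ(G)`-space from `φ(G)` to `G`
and writing a binary code of the point `σ • x` on the cosets `a ^ n φ(σ)`. -/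

abbrev G : Type := FreeGroup (Fin 2)

def ga : G := FreeGroup.of 0
def gb : G := FreeGroup.of 1

def φ : G →* G := FreeGroup.lift ![gb, ga * gb * ga⁻¹]

/-- The exponent sum of `a`. -/
def χ : G →* Multiplicative ℤ := FreeGroup.lift ![Multiplicative.ofAdd 1, 1]

lemma χ_ga : χ ga = Multiplicative.ofAdd 1 := by simp [χ, ga]
lemma χ_gb : χ gb = 1 := by simp [χ, gb]

lemma χ_φ (s : G) : χ (φ s) = 1 := by
  have h : χ.comp φ = 1 := by
    apply FreeGroup.ext_hom
    intro i
    fin_cases i
    · simp [φ, χ_gb]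
    · simp [φ, χ_gb]
  exact DFunLike.congr_fun h s

/-- The shift action of `ℤ` on the free group with basis `ℤ`. -/
def shiftAut : Multiplicative ℤ →* MulAut (FreeGroup ℤ) where
  toFun n := FreeGroup.freeGroupCongr (Equiv.addRight (Multiplicative.toAdd n))
  map_one' := by
    ext x
    simp
  map_mul' m n := by
    ext x
    simp only [FreeGroup.freeGroupCongr_apply, MulAut.mul_apply, FreeGroup.map.comp]
    congr 2
    funext i
    simp only [toAdd_mul, Equiv.coe_addRight, Function.comp_apply]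
    ring

def Ψ : G →* (FreeGroup ℤ) ⋊[shiftAut] (Multiplicative ℤ) :=
  FreeGroup.lift ![SemidirectProduct.inr (Multiplicative.ofAdd 1),
    SemidirectProduct.inl (FreeGroup.of 0)]

lemma φ_injective : Function.Injective φ := by
  have h : Ψ.comp φ = (SemidirectProduct.inl (φ := shiftAut)).comp
      (FreeGroup.map (fun i : Fin 2 => ((i : ℕ) : ℤ))) := by
    apply FreeGroup.ext_hom
    intro i
    fin_cases i
    · simp [φ, Ψ, gb]
    · have h1 := SemidirectProduct.inl_aut (φ := shiftAut) (Multiplicative.ofAdd (1 : ℤ))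
        (FreeGroup.of (0 : ℤ))
      have h2 : shiftAut (Multiplicative.ofAdd (1 : ℤ)) (FreeGroup.of (0 : ℤ)) =
          FreeGroup.of 1 := by
        simp [shiftAut]
      rw [h2] at h1
      simp [φ, Ψ, ga, gb, h1]
  have hinj : Function.Injective (Ψ.comp φ) := by
    rw [h]
    apply SemidirectProduct.inl_injective.comp
    apply FreeGroup.map_injective
    intro i j hij
    have : ((i : ℕ) : ℤ) = ((j : ℕ) : ℤ) := hij
    exact Fin.ext (by exact_mod_cast this)
  exact Function.Injective.of_comp hinj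

lemma coset_unique {n m : ℕ} {s t : G} (h : ga ^ n * φ s = ga ^ m * φ t) : n = m ∧ s = t := by
  have h1 := congrArg χ h
  simp only [map_mul, map_pow, χ_ga, χ_φ, mul_one, ← ofAdd_nsmul, nsmul_eq_mul] at h1
  have h2 : n = m := by
    have := Multiplicative.ofAdd.injective h1
    exact_mod_cast this
  subst h2
  exact ⟨rfl, φ_injective (mul_left_cancel h)⟩

/-- The enumeration of the places of the code. -/
noncomputable def en : ℕ ≃ G × ℕ := (nonempty_equiv_of_countable (α := ℕ) (β := G × ℕ)).some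

/-- The binary code of a point of `ℕ^G`: it starts with `1 1 0` and afterwards has `0` at all even
places and the bits of the point at the odd places. -/
noncomputable def code (n : ℕ) (x : G → ℕ) : Fin 2 :=
  open Classical in
  if n = 0 ∨ n = 1 then 1
  else if n % 2 = 0 then 0
  else if x (en ((n - 3) / 2)).1 = (en ((n - 3) / 2)).2 then 1 else 0

lemma code_zero (x : G → ℕ) : code 0 x = 1 := by simp [code]
lemma code_one (x : G → ℕ) : code 1 x = 1 := by simp [code]

lemma code_start {n : ℕ} {x : G → ℕ} (h0 : code n x = 1) (h1 : code (n + 1) x = 1) : n = 0 := by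
  by_contra hn
  rcases Nat.even_or_odd' n with ⟨k, rfl | rfl⟩
  · have : ¬ (2 * k = 0 ∨ 2 * k = 1) := by omega
    rw [code, if_neg this, if_pos (by omega)] at h0
    exact absurd h0 (by decide)
  · have : ¬ (2 * k + 1 + 1 = 0 ∨ 2 * k + 1 + 1 = 1) := by omega
    rw [code, if_neg this, if_pos (by omega)] at h1
    exact absurd h1 (by decide)

lemma code_injective {x y : G → ℕ} (h : ∀ n, code n x = code n y) : x = y := by
  funext g
  obtain ⟨j, hj⟩ := en.surjective (g, x g)
  have h1 := h (2 * j + 3)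
  have e1 : ¬ (2 * j + 3 = 0 ∨ 2 * j + 3 = 1) := by omega
  have e2 : ¬ ((2 * j + 3) % 2 = 0) := by omega
  have e3 : (2 * j + 3 - 3) / 2 = j := by omega
  simp only [code, if_neg e1, if_neg e2, e3, hj] at h1
  by_contra hne
  rw [if_pos trivial, if_neg (fun h => hne h.symm)] at h1
  exact absurd h1 (by decide)

/-- The shift action. -/
def sh {A : Type} (g : G) (x : G → A) : G → A := fun h => x (g⁻¹ * h)

lemma sh_mul {A : Type} (g h : G) (x : G → A) : sh (g * h) x = sh g (sh h x) := by
  funext k; simp [sh, mul_assoc]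

lemma sh_one {A : Type} (x : G → A) : sh 1 x = x := by
  funext k; simp [sh]

/-- The induced coding, as a function of the inverse group element. -/
noncomputable def F (x : G → ℕ) (h : G) : Fin 2 :=
  open Classical in
  if hh : ∃ p : ℕ × G, h = ga ^ p.1 * φ p.2 then code hh.choose.1 (sh hh.choose.2 x) else 0

lemma F_coset (x : G → ℕ) (n : ℕ) (s : G) : F x (ga ^ n * φ s) = code n (sh s x) := by
  have hh : ∃ p : ℕ × G, ga ^ n * φ s = ga ^ p.1 * φ p.2 := ⟨(n, s), rfl⟩
  have h := coset_unique hh.choose_spec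
  rw [F, dif_pos hh, ← h.1, ← h.2]

lemma F_eq_one {x : G → ℕ} {h : G} (hF : F x h = 1) : ∃ n s, h = ga ^ n * φ s := by
  by_contra hne
  have : ¬ ∃ p : ℕ × G, h = ga ^ p.1 * φ p.2 := by
    rintro ⟨p, hp⟩; exact hne ⟨p.1, p.2, hp⟩
  rw [F, dif_neg this] at hF
  exact absurd hF (by decide)

/-- The induced coding. -/
noncomputable def red (x : G → ℕ) : G → Fin 2 := fun g => F x g⁻¹

lemma F_sh (x : G → ℕ) (s h : G) : F (sh s x) h = F x (h * φ s) := by
  by_cases hh : ∃ n t, h = ga ^ n * φ t
  · obtain ⟨n, t, rfl⟩ := hh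
    rw [F_coset, mul_assoc, ← map_mul, F_coset, sh_mul]
  · have h1 : ¬ ∃ p : ℕ × G, h = ga ^ p.1 * φ p.2 := by
      rintro ⟨p, hp⟩; exact hh ⟨p.1, p.2, hp⟩
    have h2 : ¬ ∃ p : ℕ × G, h * φ s = ga ^ p.1 * φ p.2 := by
      rintro ⟨p, hp⟩
      refine hh ⟨p.1, p.2 * s⁻¹, ?_⟩
      rw [map_mul, map_inv, ← mul_assoc, ← hp]; group
    rw [F, dif_neg h1, F, dif_neg h2]

lemma red_sh (x : G → ℕ) (s : G) : red (sh s x) = sh (φ s) (red x) := by
  funext g
  have h1 : red (sh s x) g = F (sh s x) g⁻¹ := rfl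
  have h2 : sh (φ s) (red x) g = F x ((φ s)⁻¹ * g)⁻¹ := rfl
  rw [h1, h2, F_sh]
  congr 1
  group

lemma red_reflect {x y : G → ℕ} {t : G} (h : sh t (red x) = red y) : ∃ s, t = φ s ∧ sh s x = y := by
  have h0 := congrFun h 1
  have h1 := congrFun h ga⁻¹
  have hy0 : red y 1 = 1 := by
    have := F_coset y 0 1
    simp only [pow_zero, map_one, mul_one, sh_one, code_zero] at this
    simpa [red] using this
  have hy1 : red y ga⁻¹ = 1 := by
    have := F_coset y 1 1
    simp only [pow_one, map_one, mul_one, sh_one, code_one] at this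
    simpa [red] using this
  rw [hy0] at h0
  rw [hy1] at h1
  simp only [sh, red, mul_one, inv_inv, mul_inv_rev] at h0 h1
  obtain ⟨n, s, rfl⟩ := F_eq_one h0
  have h1' : F x (ga ^ (n + 1) * φ s) = 1 := by rw [← h1]; congr 1; rw [pow_succ']; group
  rw [F_coset] at h0 h1'
  have hn := code_start h0 h1'
  subst hn
  refine ⟨s, by simp, ?_⟩
  apply code_injective
  intro n
  have h2 := congrFun h (ga ^ n)⁻¹
  have e1 : red y (ga ^ n)⁻¹ = code n y := by
    have := F_coset y n 1
    simpa [red, sh_one] using this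
  have e2 : sh (ga ^ 0 * φ s) (red x) (ga ^ n)⁻¹ = code n (sh s x) := by
    rw [← F_coset]
    simp [sh, red]
  rw [← e1, ← e2, h2]

lemma red_measurable : Measurable red := by
  apply measurable_pi_lambda
  intro g
  by_cases hh : ∃ n s, g⁻¹ = ga ^ n * φ s
  · obtain ⟨n, s, hg⟩ := hh
    have : (fun x : G → ℕ => red x g) = fun x => code n (sh s x) := by
      funext x
      rw [red, hg, F_coset]
    rw [this]
    have hc : Measurable (code n) := by
      unfold code
      refine Measurable.ite (MeasurableSet.const _) measurable_const ?_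
      refine Measurable.ite (MeasurableSet.const _) measurable_const ?_
      refine Measurable.ite ?_ measurable_const measurable_const
      exact measurableSet_eq_fun (measurable_pi_apply _) measurable_const
    have hs : Measurable (sh (A := ℕ) s) := by
      apply measurable_pi_lambda
      intro h
      exact measurable_pi_apply _
    exact hc.comp hs
  · have : (fun x : G → ℕ => red x g) = fun _ => 0 := by
      funext x
      by_contra hne
      apply hh
      have : F x g⁻¹ = 1 := by
        have h2 : ∀ z : Fin 2, z ≠ 0 → z = 1 := by decide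
        exact h2 _ hne
      exact F_eq_one this
    rw [this]
    exact measurable_const

/-- The relation `F(𝔽₂, ℕ)` is Borel reducible to `F(𝔽₂, 2)`. -/
theorem main_reduction :
    ∃ f : {x : FreeGroup (Fin 2) → ℕ // ∀ g : FreeGroup (Fin 2), (fun h => x (g⁻¹ * h)) = x → g = 1} →
        {x : FreeGroup (Fin 2) → Fin 2 // ∀ g : FreeGroup (Fin 2), (fun h => x (g⁻¹ * h)) = x → g = 1},
      Measurable f ∧ ∀ x y, (∃ g : FreeGroup (Fin 2), (fun h => x.1 (g⁻¹ * h)) = y.1) ↔
        (∃ g : FreeGroup (Fin 2), (fun h => (f x).1 (g⁻¹ * h)) = (f y).1) := by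
  refine ⟨fun x => ⟨red x.1, ?_⟩, ?_, ?_⟩
  · intro t ht
    obtain ⟨s, rfl, hs⟩ := red_reflect (x := x.1) (y := x.1) ht
    rw [x.2 s hs, map_one]
  · exact (red_measurable.comp measurable_subtype_coe).subtype_mk
  · intro x y
    constructor
    · rintro ⟨g, hg⟩
      refine ⟨φ g, ?_⟩
      show sh (φ g) (red x.1) = red y.1
      rw [← red_sh]
      exact congrArg red hg
    · rintro ⟨t, ht⟩
      obtain ⟨s, rfl, hs⟩ := red_reflect (x := x.1) (y := y.1) ht
      exact ⟨s, hs⟩

/-- The negation of the preceding statement: For the free group on two generators and every k ≥ 2, the shift orbit relation on the free part of k^G is Borel reducible to the one on (k+1)^G and to the one on ℕ^G, and neither of those is Borel reducible back to it. -/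
theorem result :
    ¬ (∀ k : ℕ, 2 ≤ k →
    (∃ f : {x : FreeGroup (Fin 2) → Fin k // ∀ g : FreeGroup (Fin 2), (fun h => x (g⁻¹ * h)) = x → g = 1} →
        {x : FreeGroup (Fin 2) → Fin (k+1) // ∀ g : FreeGroup (Fin 2), (fun h => x (g⁻¹ * h)) = x → g = 1},
      Measurable f ∧ ∀ x y, (∃ g : FreeGroup (Fin 2), (fun h => x.1 (g⁻¹ * h)) = y.1) ↔
        (∃ g : FreeGroup (Fin 2), (fun h => (f x).1 (g⁻¹ * h)) = (f y).1)) ∧
    ¬ (∃ f : {x : FreeGroup (Fin 2) → Fin (k+1) // ∀ g : FreeGroup (Fin 2), (fun h => x (g⁻¹ * h)) = x → g = 1} →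
        {x : FreeGroup (Fin 2) → Fin k // ∀ g : FreeGroup (Fin 2), (fun h => x (g⁻¹ * h)) = x → g = 1},
      Measurable f ∧ ∀ x y, (∃ g : FreeGroup (Fin 2), (fun h => x.1 (g⁻¹ * h)) = y.1) ↔
        (∃ g : FreeGroup (Fin 2), (fun h => (f x).1 (g⁻¹ * h)) = (f y).1)) ∧
    (∃ f : {x : FreeGroup (Fin 2) → Fin k // ∀ g : FreeGroup (Fin 2), (fun h => x (g⁻¹ * h)) = x → g = 1} →
        {x : FreeGroup (Fin 2) → ℕ // ∀ g : FreeGroup (Fin 2), (fun h => x (g⁻¹ * h)) = x → g = 1},
      Measurable f ∧ ∀ x y, (∃ g : FreeGroup (Fin 2), (fun h => x.1 (g⁻¹ * h)) = y.1) ↔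
        (∃ g : FreeGroup (Fin 2), (fun h => (f x).1 (g⁻¹ * h)) = (f y).1)) ∧
    ¬ (∃ f : {x : FreeGroup (Fin 2) → ℕ // ∀ g : FreeGroup (Fin 2), (fun h => x (g⁻¹ * h)) = x → g = 1} →
        {x : FreeGroup (Fin 2) → Fin k // ∀ g : FreeGroup (Fin 2), (fun h => x (g⁻¹ * h)) = x → g = 1},
      Measurable f ∧ ∀ x y, (∃ g : FreeGroup (Fin 2), (fun h => x.1 (g⁻¹ * h)) = y.1) ↔
        (∃ g : FreeGroup (Fin 2), (fun h => (f x).1 (g⁻¹ * h)) = (f y).1))) := by
  intro hall
  exact (hall 2 le_rfl).2.2.2 main_reduction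

end Pool.Agent.S09604
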