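import Pool.Statements.S09608

set_option autoImplicit false
open Pool Pool.MP_a2ec29_lc

namespace Pool.Agent.S09608

open Nat.Partrec (Code)
open Nat.Partrec.Code

/-- the code with index `k` halts on input `0` within `t` steps -/
def hlt (k t : ℕ) : Bool := (evaln t (Denumerable.ofNat Code k) 0).isSome

/-- an injective enumeration: `2k+1` appears iff code `k` halts on input `0`. -/
def g (n : ℕ) : ℕ :=
  Nat.casesOn n 0 (fun u =>
    bif (hlt u.unpair.1 (u.unpair.2 + 1) && !hlt u.unpair.1 u.unpair.2)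
      then 2 * u.unpair.1 + 1 else 2 * u + 2)

lemma hlt_primrec : Primrec₂ hlt := by
  have h : Primrec (fun p : ℕ × ℕ => evaln p.2 (Denumerable.ofNat Code p.1) 0) :=
    primrec_evaln.comp (((Primrec.snd).pair ((Primrec.ofNat Code).comp Primrec.fst)).pair
      (Primrec.const 0))
  exact Primrec.option_isSome.comp h

lemma g_primrec : Primrec g := by
  refine Primrec.nat_casesOn Primrec.id (Primrec.const 0) ?_
  have k : Primrec (fun p : ℕ × ℕ => p.2.unpair.1) :=
    Primrec.fst.comp (Primrec.unpair.comp Primrec.snd)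
  have t : Primrec (fun p : ℕ × ℕ => p.2.unpair.2) :=
    Primrec.snd.comp (Primrec.unpair.comp Primrec.snd)
  have h1 := hlt_primrec.comp k (Primrec.succ.comp t)
  have h2 := hlt_primrec.comp k t
  exact Primrec.cond (Primrec.and.comp h1 (Primrec.not.comp h2))
    (Primrec.succ.comp (Primrec.nat_mul.comp (Primrec.const 2) k))
    (Primrec.nat_add.comp (Primrec.nat_mul.comp (Primrec.const 2) Primrec.snd) (Primrec.const 2))

lemma hlt_mono {k s t : ℕ} (h : s ≤ t) (hs : hlt k s = true) : hlt k t = true := by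
  unfold hlt at *
  rw [Option.isSome_iff_exists] at *
  obtain ⟨a, ha⟩ := hs
  exact ⟨a, evaln_mono h ha⟩

lemma hlt_zero (k : ℕ) : hlt k 0 = false := by
  simp [hlt, evaln]

lemma g_zero : g 0 = 0 := rfl

lemma g_succ (u : ℕ) : g (u+1) =
    bif (hlt u.unpair.1 (u.unpair.2 + 1) && !hlt u.unpair.1 u.unpair.2)
      then 2 * u.unpair.1 + 1 else 2 * u + 2 := rfl

lemma g_inj : Function.Injective g := by
  intro a b hab
  cases a with
  | zero =>
    cases b with
    | zero => rfl
    | succ v =>
      rw [g_zero, g_succ] at hab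
      cases h : (hlt v.unpair.1 (v.unpair.2 + 1) && !hlt v.unpair.1 v.unpair.2) <;>
        rw [h] at hab <;> simp at hab
  | succ u =>
    cases b with
    | zero =>
      rw [g_zero, g_succ] at hab
      cases h : (hlt u.unpair.1 (u.unpair.2 + 1) && !hlt u.unpair.1 u.unpair.2) <;>
        rw [h] at hab <;> simp at hab
    | succ v =>
      rw [g_succ, g_succ] at hab
      cases h : (hlt u.unpair.1 (u.unpair.2 + 1) && !hlt u.unpair.1 u.unpair.2) <;>
      cases h' : (hlt v.unpair.1 (v.unpair.2 + 1) && !hlt v.unpair.1 v.unpair.2) <;>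
        rw [h, h'] at hab
      · simp at hab; omega
      · simp at hab; omega
      · simp at hab; omega
      · simp at hab h h'
        have hk : u.unpair.1 = v.unpair.1 := by omega
        rw [← hk] at h'
        have ht : u.unpair.2 = v.unpair.2 := by
          rcases lt_trichotomy u.unpair.2 v.unpair.2 with hl | hl | hl
          · have := hlt_mono (show u.unpair.2 + 1 ≤ v.unpair.2 from hl) h.1
            rw [this] at h'; simp at h'
          · exact hl
          · have := hlt_mono (show v.unpair.2 + 1 ≤ u.unpair.2 from hl) h'.1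
            rw [this] at h; simp at h
        have : u = v := by
          rw [← Nat.pair_unpair u, ← Nat.pair_unpair v, hk, ht]
        rw [this]

def alive (s t : ℕ) : Prop := ∀ u < t + 1, s < u → g s ≤ g u

instance (s t : ℕ) : Decidable (alive s t) := by unfold alive; infer_instance

def le' (s t : ℕ) : Prop := (s ≤ t ∧ alive s t) ∨ (t < s ∧ ¬ alive t s)

instance (s t : ℕ) : Decidable (le' s t) := by unfold le'; infer_instance

lemma alive_primrec : PrimrecRel alive := by
  have h : PrimrecRel (fun u s : ℕ => s < u → g s ≤ g u) := by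
    have h1 : PrimrecRel (fun u s : ℕ => ¬ (s < u)) :=
      (Primrec.nat_lt.comp Primrec.snd Primrec.fst).not
    have h2 : PrimrecRel (fun u s : ℕ => g s ≤ g u) :=
      Primrec.nat_le.comp (g_primrec.comp Primrec.snd) (g_primrec.comp Primrec.fst)
    exact (h1.or h2).of_eq (by intro a; simp [imp_iff_not_or])
  have h3 := h.forall_lt
  have h4 : PrimrecRel (fun s t : ℕ => ∀ u < t + 1, s < u → g s ≤ g u) :=
    h3.comp (Primrec.succ.comp Primrec.snd) Primrec.fst
  exact h4

lemma le'_primrec : PrimrecRel le' := by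
  have h1 : PrimrecRel (fun s t : ℕ => s ≤ t ∧ alive s t) :=
    (Primrec.nat_le.comp Primrec.fst Primrec.snd).and
      (alive_primrec.comp Primrec.fst Primrec.snd)
  have h2 : PrimrecRel (fun s t : ℕ => t < s ∧ ¬ alive t s) :=
    (Primrec.nat_lt.comp Primrec.snd Primrec.fst).and
      (alive_primrec.comp Primrec.snd Primrec.fst).not
  exact h1.or h2

lemma le'_refl (s : ℕ) : le' s s := Or.inl ⟨le_refl s, fun u h1 h2 => by omega⟩

lemma alive_mono {s t t' : ℕ} (h : t ≤ t') (ha : alive s t') : alive s t :=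
  fun u hu hs => ha u (by omega) hs

lemma le'_total (s t : ℕ) : le' s t ∨ le' t s := by
  rcases lt_trichotomy s t with h | h | h
  · by_cases ha : alive s t
    · exact Or.inl (Or.inl ⟨h.le, ha⟩)
    · exact Or.inr (Or.inr ⟨h, ha⟩)
  · subst h; exact Or.inl (le'_refl s)
  · by_cases ha : alive t s
    · exact Or.inr (Or.inl ⟨h.le, ha⟩)
    · exact Or.inl (Or.inr ⟨h, ha⟩)

lemma le'_antisymm {s t : ℕ} (h1 : le' s t) (h2 : le' t s) : s = t := by
  rcases lt_trichotomy s t with h | h | h
  · rcases h1 with h1 | h1 <;> rcases h2 with h2 | h2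
    · omega
    · exact absurd h1.2 h2.2
    · omega
    · omega
  · exact h
  · rcases h1 with h1 | h1 <;> rcases h2 with h2 | h2
    · omega
    · omega
    · exact absurd h2.2 h1.2
    · omega

lemma le'_of_lt {s t : ℕ} (h : s < t) : le' s t ↔ alive s t := by
  constructor
  · rintro (h1 | h1)
    · exact h1.2
    · omega
  · intro h1; exact Or.inl ⟨h.le, h1⟩

lemma le'_of_gt {s t : ℕ} (h : t < s) : le' s t ↔ ¬ alive t s := by
  constructor
  · rintro (h1 | h1)
    · omega
    · exact h1.2
  · intro h1; exact Or.inr ⟨h, h1⟩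

/-- the key fact: for `a < b < c`, if `a` is alive at `b` but not at `c`, then `b` is not alive
at `c`. -/
lemma key1 {a b c : ℕ} (_hab : a < b) (_hbc : b < c) (h1 : alive a b) (h2 : ¬ alive a c) :
    ¬ alive b c := by
  intro h3
  apply h2
  intro u hu hau
  by_cases hub : u < b + 1
  · exact h1 u hub hau
  · exact le_trans (h1 b (by omega) _hab) (h3 u hu (by omega))

lemma le'_trans {a b c : ℕ} (h1 : le' a b) (h2 : le' b c) : le' a c := by
  by_contra h3
  have h3' : le' c a := (le'_total a c).resolve_left h3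
  -- cycle a ≤ b ≤ c ≤ a
  have hab : a ≠ b := by rintro rfl; exact h3 h2
  have hbc : b ≠ c := by rintro rfl; exact h3 h1
  have hac : a ≠ c := by rintro rfl; exact h3 (le'_refl a)
  rcases lt_or_gt_of_ne hab with h | h <;> rcases lt_or_gt_of_ne hbc with k | k <;>
    rcases lt_or_gt_of_ne hac with l | l
  · -- a < b < c
    rw [le'_of_lt h] at h1; rw [le'_of_lt k] at h2; rw [le'_of_gt l] at h3'
    exact key1 h k h1 h3' h2
  · omega
  · -- a < c < b
    rw [le'_of_lt h] at h1; rw [le'_of_gt k] at h2; rw [le'_of_gt l] at h3'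
    exact h3' (alive_mono k.le h1)
  · -- c < a < b
    rw [le'_of_lt h] at h1; rw [le'_of_gt k] at h2; rw [le'_of_lt l] at h3'
    exact key1 l h h3' h2 h1
  · -- b < a, b < c, a < c
    rw [le'_of_gt h] at h1; rw [le'_of_lt k] at h2; rw [le'_of_gt l] at h3'
    exact h1 (alive_mono l.le h2)
  · -- b < c < a
    rw [le'_of_gt h] at h1; rw [le'_of_lt k] at h2; rw [le'_of_lt l] at h3'
    exact key1 k l h2 h1 h3'
  · omega
  · -- c < b < a
    rw [le'_of_gt h] at h1; rw [le'_of_gt k] at h2; rw [le'_of_lt l] at h3'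
    exact h2 (alive_mono h.le h3')

lemma zero_le' (s : ℕ) : le' 0 s :=
  Or.inl ⟨Nat.zero_le _, fun u _ _ => by rw [g_zero]; exact Nat.zero_le _⟩

/-- true stages -/
def tr (s : ℕ) : Prop := ∀ u, s < u → g s ≤ g u

lemma below_finite {s : ℕ} (h : tr s) : {t | le' t s}.Finite := by
  refine (Set.finite_Iic s).subset ?_
  intro t ht
  simp only [Set.mem_ofPred_eq] at ht
  simp only [Set.mem_Iic]
  by_contra hlt
  push Not at hlt
  rw [le'_of_gt hlt] at ht
  exact ht (fun u _ hu => h u hu)

lemma above_finite {s : ℕ} (h : ¬ tr s) : {t | le' s t}.Finite := by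
  unfold tr at h
  push Not at h
  obtain ⟨u, hu, hg⟩ := h
  refine (Set.finite_Iic u).subset ?_
  intro t ht
  simp only [Set.mem_ofPred_eq] at ht
  simp only [Set.mem_Iic]
  by_contra hlt
  push Not at hlt
  rw [le'_of_lt (by omega)] at ht
  have := ht u (by omega) hu
  omega

lemma g_large (N : ℕ) : ∃ M, ∀ u, M ≤ u → N ≤ g u := by
  have h := g_inj.nat_tendsto_atTop
  rw [Filter.tendsto_atTop_atTop] at h
  exact h N

lemma exists_tr (N : ℕ) : ∃ s, N ≤ s ∧ tr s := by
  -- minimise g on [N, ∞)
  have hne : ∃ m, ∃ s, N ≤ s ∧ g s = m := ⟨g N, N, le_refl _, rfl⟩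
  classical
  obtain ⟨s, hs, hg⟩ := Nat.find_spec hne
  refine ⟨s, hs, fun u hu => ?_⟩
  rw [hg]
  exact Nat.find_min' hne ⟨u, by omega, rfl⟩

/-- `{y | x < y}` in the order `le'` is empty or has a least element. -/
lemma exists_succ (x : ℕ) : (∀ y, le' y x) ∨
    ∃ y, le' x y ∧ x ≠ y ∧ ∀ z, le' x z → x ≠ z → le' y z := by
  by_cases hall : ∀ y, le' y x
  · exact Or.inl hall
  right
  push Not at hall
  obtain ⟨y0, hy0⟩ := hall
  have hxy0 : le' x y0 := (le'_total x y0).resolve_right hy0
  have hne0 : x ≠ y0 := by rintro rfl; exact hy0 (le'_refl _)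
  -- a bound y1 strictly above x such that {z | x < z ≤ y1} is finite
  have hb : ∃ y1, le' x y1 ∧ x ≠ y1 ∧ {z | le' x z ∧ le' z y1}.Finite := by
    by_cases hx : tr x
    · obtain ⟨s, hs, hts⟩ := exists_tr (x+1)
      refine ⟨s, ?_, by omega, (below_finite hts).subset fun z hz => hz.2⟩
      rw [le'_of_lt (by omega)]
      exact fun u _ hu => hx u hu
    · exact ⟨y0, hxy0, hne0, (above_finite hx).subset fun z hz => hz.1⟩
  obtain ⟨y1, hxy1, hne1, hfin⟩ := hb
  have hfin2 : {z | (le' x z ∧ x ≠ z) ∧ le' z y1}.Finite :=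
    hfin.subset fun z hz => ⟨hz.1.1, hz.2⟩
  have least : ∀ S : Finset ℕ, S.Nonempty → ∃ m ∈ S, ∀ s ∈ S, le' m s := by
    intro S hS
    induction hS using Finset.Nonempty.cons_induction with
    | singleton a => exact ⟨a, by simp, by simp [le'_refl]⟩
    | cons a S ha hS ih =>
      obtain ⟨m, hm, hmin⟩ := ih
      rcases le'_total a m with h | h
      · refine ⟨a, by simp, ?_⟩
        intro s hs
        rw [Finset.mem_cons] at hs
        rcases hs with rfl | hs
        · exact le'_refl _
        · exact le'_trans h (hmin s hs)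
      · refine ⟨m, by simp [hm], ?_⟩
        intro s hs
        rw [Finset.mem_cons] at hs
        rcases hs with rfl | hs
        · exact h
        · exact hmin s hs
  obtain ⟨m, hm, hmin⟩ := least hfin2.toFinset ⟨y1, by simp [hxy1, hne1, le'_refl]⟩
  simp only [Set.Finite.mem_toFinset, Set.mem_ofPred_eq] at hm hmin
  refine ⟨m, hm.1.1, hm.1.2, fun z hz hnz => ?_⟩
  rcases le'_total z y1 with h | h
  · exact hmin z ⟨⟨hz, hnz⟩, h⟩
  · exact le'_trans hm.2 h

lemma exists_least (r : ℕ → ℕ → Prop) (hr : ∀ a, r a a) (ht : ∀ a b, r a b ∨ r b a)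
    (htr : ∀ a b c, r a b → r b c → r a c) (S : Finset ℕ) (hS : S.Nonempty) :
    ∃ m ∈ S, ∀ s ∈ S, r m s := by
  induction hS using Finset.Nonempty.cons_induction with
  | singleton a => exact ⟨a, by simp, by simp [hr]⟩
  | cons a S ha hS ih =>
    obtain ⟨m, hm, hmin⟩ := ih
    rcases ht a m with h | h
    · refine ⟨a, by simp, ?_⟩
      intro s hs
      rw [Finset.mem_cons] at hs
      rcases hs with rfl | hs
      · exact hr _
      · exact htr _ _ _ h (hmin s hs)
    · refine ⟨m, by simp [hm], ?_⟩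
      intro s hs
      rw [Finset.mem_cons] at hs
      rcases hs with rfl | hs
      · exact h
      · exact hmin s hs

lemma testBit_primrec : PrimrecRel (fun s n : ℕ => n.testBit s = true) := by
  have hpow : Primrec₂ (fun m n : ℕ => m ^ n) := Primrec₂.unpaired'.1 Nat.Primrec.pow
  have h1 : Primrec (fun p : ℕ × ℕ => p.2 / 2 ^ p.1 % 2) :=
    Primrec.nat_mod.comp (Primrec.nat_div.comp Primrec.snd
      (hpow.comp (Primrec.const 2) Primrec.fst)) (Primrec.const 2)
  have h2 : PrimrecPred (fun p : ℕ × ℕ => p.2 / 2 ^ p.1 % 2 = 1) :=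
    Primrec.eq.comp h1 (Primrec.const 1)
  exact h2.of_eq (by intro p; simp [Nat.testBit_eq_decide_div_mod_eq])

def cnt (N n x : ℕ) : ℕ :=
  ((Finset.range N).filter (fun s => n.testBit s = true ∧ le' s x)).card

def P (n x : ℕ) : Bool := decide (cnt n n x % 2 = 1)

lemma P_primrec : Primrec₂ P := by
  have hR : PrimrecRel (fun (s : ℕ) (q : ℕ × ℕ) => q.1.testBit s = true ∧ le' s q.2) :=
    (testBit_primrec.comp Primrec.fst (Primrec.fst.comp Primrec.snd)).and
      (le'_primrec.comp Primrec.fst (Primrec.snd.comp Primrec.snd))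
  have h1 : Primrec (fun p : ℕ × ℕ =>
      ((List.range p.1).filter (fun s => p.1.testBit s = true ∧ le' s p.2)).length) :=
    Primrec.list_length.comp (hR.listFilter.comp (Primrec.list_range.comp Primrec.fst) Primrec.id)
  have h2 : PrimrecPred (fun p : ℕ × ℕ =>
      ((List.range p.1).filter (fun s => p.1.testBit s = true ∧ le' s p.2)).length % 2 = 1) :=
    Primrec.eq.comp (Primrec.nat_mod.comp h1 (Primrec.const 2)) (Primrec.const 1)
  have h3 := h2.decide
  refine h3.of_eq ?_
  intro p
  rfl

noncomputable def S (N n x : ℕ) : ZMod 2 :=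
  ∑ s ∈ Finset.range N, if (n.testBit s = true ∧ le' s x) then 1 else 0

lemma S_eq_cnt (N n x : ℕ) : S N n x = (cnt N n x : ZMod 2) := by
  unfold S cnt
  rw [Finset.sum_boole]

lemma lt_of_testBit {n s : ℕ} (h : n.testBit s = true) : s < n := by
  have := Nat.ge_two_pow_of_testBit h
  exact lt_of_lt_of_le Nat.lt_two_pow_self this

lemma cnt_stable {N n : ℕ} (h : n ≤ N) (x : ℕ) : cnt N n x = cnt n n x := by
  unfold cnt
  congr 1
  ext s
  simp only [Finset.mem_filter, Finset.mem_range]
  constructor
  · rintro ⟨_, h2, h3⟩; exact ⟨lt_of_testBit h2, h2, h3⟩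
  · rintro ⟨h1, h2, h3⟩; exact ⟨by omega, h2, h3⟩

lemma P_iff {N n : ℕ} (h : n ≤ N) (x : ℕ) : P n x = true ↔ S N n x = 1 := by
  rw [S_eq_cnt, cnt_stable h, ZMod.natCast_eq_one_iff_odd, Nat.odd_iff]
  simp [P]

lemma P_iff_false {N n : ℕ} (h : n ≤ N) (x : ℕ) : P n x = false ↔ S N n x = 0 := by
  rw [← Bool.not_eq_true, P_iff h]
  generalize S N n x = z
  revert z; decide

lemma S_xor (N n m x : ℕ) : S N (n ^^^ m) x = S N n x + S N m x := by
  unfold S
  rw [← Finset.sum_add_distrib]
  apply Finset.sum_congr rfl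
  intro s _
  rw [Nat.testBit_xor]
  cases n.testBit s <;> cases m.testBit s <;> by_cases h : le' s x <;> simp [h]
  decide

lemma P_xor (n m x : ℕ) : P (n ^^^ m) x = (P n x ^^ P m x) := by
  have h1 : n ≤ n + m + (n ^^^ m) := by omega
  have h2 : m ≤ n + m + (n ^^^ m) := by omega
  have h3 : (n ^^^ m) ≤ n + m + (n ^^^ m) := by omega
  have hx := S_xor (n + m + (n ^^^ m)) n m x
  cases hn : P n x <;> cases hm : P m x
  · rw [P_iff_false h1] at hn; rw [P_iff_false h2] at hm; rw [hn, hm] at hx
    simpa [P_iff_false h3] using hx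
  · rw [P_iff_false h1] at hn; rw [P_iff h2] at hm; rw [hn, hm] at hx
    simpa [P_iff h3] using hx
  · rw [P_iff h1] at hn; rw [P_iff_false h2] at hm; rw [hn, hm] at hx
    simpa [P_iff h3] using hx
  · rw [P_iff h1] at hn; rw [P_iff h2] at hm; rw [hn, hm] at hx
    simp only [Bool.xor_self]
    rw [P_iff_false h3, hx]; decide

lemma P_two_pow (s x : ℕ) : P (2 ^ s) x = true ↔ le' s x := by
  have h : cnt (2^s) (2^s) x = if le' s x then 1 else 0 := by
    unfold cnt
    by_cases hle : le' s x
    · rw [if_pos hle, Finset.card_eq_one]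
      refine ⟨s, ?_⟩
      ext t
      simp only [Finset.mem_filter, Finset.mem_range, Finset.mem_singleton, Nat.testBit_two_pow]
      constructor
      · rintro ⟨_, h2, _⟩; simp at h2; exact h2.symm
      · rintro rfl; exact ⟨Nat.lt_two_pow_self, by simp, hle⟩
    · rw [if_neg hle, Finset.card_eq_zero]
      ext t
      simp only [Finset.mem_filter, Finset.mem_range, Nat.testBit_two_pow, Finset.notMem_empty,
        iff_false]
      rintro ⟨_, h2, h3⟩
      simp at h2; subst h2; exact hle h3
  unfold P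
  rw [h]
  by_cases hle : le' s x <;> simp [hle]

lemma P_zero (x : ℕ) : P 0 x = false := by simp [P, cnt]

lemma P_inj {n m : ℕ} (h : ∀ x, P n x = P m x) : n = m := by
  by_contra hne
  have hD : n ^^^ m ≠ 0 := by
    intro h0; exact hne (Nat.xor_eq_zero_iff.1 h0)
  obtain ⟨i, hi⟩ := Nat.exists_testBit_of_ne_zero hD
  obtain ⟨s, hs, hmin⟩ := exists_least le' le'_refl le'_total (fun _ _ _ => le'_trans)
    ((Finset.range (n ^^^ m)).filter (fun s => (n ^^^ m).testBit s = true))
    ⟨i, by simp only [Finset.mem_filter, Finset.mem_range]; exact ⟨lt_of_testBit hi, hi⟩⟩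
  simp only [Finset.mem_filter, Finset.mem_range] at hs hmin
  have h1 : P (n ^^^ m) s = true := by
    have : cnt (n ^^^ m) (n ^^^ m) s = 1 := by
      unfold cnt
      rw [Finset.card_eq_one]
      refine ⟨s, ?_⟩
      ext t
      simp only [Finset.mem_filter, Finset.mem_range, Finset.mem_singleton]
      constructor
      · rintro ⟨h1, h2, h3⟩
        exact le'_antisymm h3 (hmin t ⟨h1, h2⟩)
      · rintro rfl; exact ⟨hs.1, hs.2, le'_refl _⟩
    simp [P, this]
  rw [P_xor, h s] at h1
  simp at h1

def FC (X : Set ℕ) : Prop := X.Finite ∨ Xᶜ.Finite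

def X (n : ℕ) : Set ℕ := {x | P n x = true}

lemma X_FC (n : ℕ) : FC (X n) := by
  have hev : ∀ s : ℕ, ∃ c : Prop, ∀ᶠ x in Filter.cofinite, (le' s x ↔ c) := by
    intro s
    by_cases hs : tr s
    · refine ⟨True, ?_⟩
      rw [Filter.eventually_cofinite]
      refine (below_finite hs).subset ?_
      intro x hx
      simp only [iff_true] at hx
      exact (le'_total x s).resolve_right hx
    · refine ⟨False, ?_⟩
      rw [Filter.eventually_cofinite]
      refine (above_finite hs).subset ?_
      intro x hx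
      simp only [iff_false, not_not] at hx
      exact hx
  choose c hc using hev
  have hall : ∀ᶠ x in Filter.cofinite, ∀ s ∈ Finset.range n, (le' s x ↔ c s) := by
    rw [Filter.eventually_all_finset]
    intro s _; exact hc s
  classical
  let k := ((Finset.range n).filter (fun s => n.testBit s = true ∧ c s)).card
  have hcnt : ∀ᶠ x in Filter.cofinite, cnt n n x = k := by
    filter_upwards [hall] with x hx
    show cnt n n x = ((Finset.range n).filter (fun s => n.testBit s = true ∧ c s)).card
    unfold cnt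
    congr 1
    ext s
    simp only [Finset.mem_filter]
    constructor
    · rintro ⟨h1, h2, h3⟩; exact ⟨h1, h2, (hx s h1).1 h3⟩
    · rintro ⟨h1, h2, h3⟩; exact ⟨h1, h2, (hx s h1).2 h3⟩
  rw [Filter.eventually_cofinite] at hcnt
  by_cases hk : k % 2 = 1
  · right
    refine hcnt.subset ?_
    intro x hx hx2
    apply hx
    show P n x = true
    unfold P
    simp only [decide_eq_true_eq]
    rw [hx2]; exact hk
  · left
    refine hcnt.subset ?_
    intro x hx hx2
    apply hk
    have hx' : P n x = true := hx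
    unfold P at hx'
    simp only [decide_eq_true_eq] at hx'
    rw [← hx2]; exact hx'

lemma exists_single (x : ℕ) : ∃ k, ∀ z, P k z = true ↔ z = x := by
  rcases exists_succ x with h | ⟨y, hxy, hne, hmin⟩
  · refine ⟨2 ^ x, fun z => ?_⟩
    rw [P_two_pow]
    constructor
    · intro hz; exact le'_antisymm (h z) hz
    · rintro rfl; exact le'_refl _
  · refine ⟨2 ^ x ^^^ 2 ^ y, fun z => ?_⟩
    rw [P_xor]
    have hx : P (2^x) z = decide (le' x z) := by
      rw [Bool.eq_iff_iff, P_two_pow]; simp
    have hy : P (2^y) z = decide (le' y z) := by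
      rw [Bool.eq_iff_iff, P_two_pow]; simp
    rw [hx, hy]
    constructor
    · intro h
      by_contra hzx
      by_cases h1 : le' x z
      · have := hmin z h1 (Ne.symm hzx)
        simp [h1, this] at h
      · have h2 : ¬ le' y z := fun h2 => h1 (le'_trans hxy h2)
        simp [h1, h2] at h
    · rintro rfl
      have h2 : ¬ le' y z := fun h2 => hne (le'_antisymm hxy h2)
      simp [le'_refl, h2]

lemma exists_finset (F : Finset ℕ) : ∃ k, ∀ z, P k z = true ↔ z ∈ F := by
  induction F using Finset.induction_on with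
  | empty => exact ⟨0, fun z => by simp [P_zero]⟩
  | insert x F hx ih =>
    obtain ⟨k, hk⟩ := ih
    obtain ⟨j, hj⟩ := exists_single x
    refine ⟨k ^^^ j, fun z => ?_⟩
    rw [P_xor, Finset.mem_insert]
    by_cases hz : z = x
    · subst hz
      have h1 : P k z = false := by
        rw [← Bool.not_eq_true, hk]; exact hx
      have h2 : P j z = true := (hj z).2 rfl
      simp [h1, h2]
    · have h2 : P j z = false := by
        rw [← Bool.not_eq_true, hj]; exact hz
      rw [h2]; simp [hz, hk]

lemma P_one (z : ℕ) : P 1 z = true := by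
  have := (P_two_pow 0 z).2 (zero_le' z)
  simpa using this

lemma exists_FC {Y : Set ℕ} (hY : FC Y) : ∃ k, X k = Y := by
  rcases hY with hY | hY
  · obtain ⟨k, hk⟩ := exists_finset hY.toFinset
    refine ⟨k, ?_⟩
    ext z
    show P k z = true ↔ z ∈ Y
    rw [hk]; simp
  · obtain ⟨k, hk⟩ := exists_finset hY.toFinset
    refine ⟨k ^^^ 1, ?_⟩
    ext z
    show P (k ^^^ 1) z = true ↔ z ∈ Y
    rw [P_xor, P_one]
    have := hk z
    simp only [Set.Finite.mem_toFinset, Set.mem_compl_iff] at this
    by_cases hz : z ∈ Y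
    · have h1 : P k z = false := by
        rw [← Bool.not_eq_true, this]; simpa using hz
      simp [h1, hz]
    · have h1 : P k z = true := this.2 hz
      simp [h1, hz]

/-- the algebra of finite and cofinite sets of natural numbers -/
def A : BooleanSubalgebra (Set ℕ) where
  carrier := {Y | FC Y}
  supClosed' := by
    intro a ha b hb
    rcases ha with ha | ha <;> rcases hb with hb | hb
    · exact Or.inl (ha.union hb)
    · exact Or.inr (hb.subset (by
        intro x hx hxb; exact hx (Or.inr hxb)))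
    · exact Or.inr (ha.subset (by
        intro x hx hxb; exact hx (Or.inl hxb)))
    · exact Or.inr (ha.subset (by
        intro x hx hxb; exact hx (Or.inl hxb)))
  infClosed' := by
    intro a ha b hb
    rcases ha with ha | ha <;> rcases hb with hb | hb
    · exact Or.inl (ha.subset (fun x hx => hx.1))
    · exact Or.inl (ha.subset (fun x hx => hx.1))
    · exact Or.inl (hb.subset (fun x hx => hx.2))
    · exact Or.inr ((ha.union hb).subset (by
        intro x hx
        by_contra hcon
        apply hx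
        constructor
        · by_contra h; exact hcon (Or.inl h)
        · by_contra h; exact hcon (Or.inr h)))
  compl_mem' := by
    intro a ha
    rcases ha with ha | ha
    · exact Or.inr (by simpa using ha)
    · exact Or.inl ha
  bot_mem' := Or.inl (by simp)

lemma mem_A {Y : Set ℕ} : Y ∈ A ↔ FC Y := Iff.rfl

noncomputable def e : ℕ ≃ A :=
  Equiv.ofBijective (fun n => (⟨X n, X_FC n⟩ : A)) (by
    constructor
    · intro n m h
      have h' : X n = X m := congrArg Subtype.val h
      apply P_inj
      intro x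
      have : (x ∈ X n) = (x ∈ X m) := by rw [h']
      have h2 : (P n x = true) = (P m x = true) := this
      rw [Bool.eq_iff_iff, h2]
    · rintro ⟨Y, hY⟩
      obtain ⟨k, hk⟩ := exists_FC hY
      exact ⟨k, Subtype.ext hk⟩)

lemma e_val (n : ℕ) : (e n : Set ℕ) = X n := rfl

/-- if an identity between memberships holds at all relevant points it holds everywhere -/
lemma check (op : Bool → Bool → Bool) (k m n : ℕ)
    (h : ∀ s < k + m + n + 1, P k s = op (P m s) (P n s)) :
    ∀ x, P k x = op (P m x) (P n x) := by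
  intro x
  let T : Finset ℕ := (Finset.range (k + m + n + 1)).filter (fun s => le' s x)
  obtain ⟨s, hs, hmax⟩ := exists_least (fun a b => le' b a) le'_refl (fun a b => le'_total b a)
    (fun a b c hab hbc => le'_trans hbc hab) T
    ⟨0, by simp [T, zero_le']⟩
  simp only [T, Finset.mem_filter, Finset.mem_range] at hs hmax
  have key : ∀ j, j ≤ k + m + n → P j x = P j s := by
    intro j hj
    have : cnt j j x = cnt j j s := by
      unfold cnt
      congr 1
      ext t
      simp only [Finset.mem_filter, Finset.mem_range]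
      constructor
      · rintro ⟨h1, h2, h3⟩
        exact ⟨h1, h2, hmax t ⟨by omega, h3⟩⟩
      · rintro ⟨h1, h2, h3⟩
        exact ⟨h1, h2, le'_trans h3 hs.2⟩
    unfold P; rw [this]
  rw [key k (by omega), key m (by omega), key n (by omega)]
  exact h s hs.1

lemma comp_op (op : Bool → Bool → Bool) (f : ℕ → ℕ → ℕ)
    (hf : ∀ m n x, P (f m n) x = op (P m x) (P n x)) : Computable₂ f := by
  have hR : PrimrecRel (fun (s : ℕ) (q : (ℕ × ℕ) × ℕ) =>
      P q.2 s = op (P q.1.1 s) (P q.1.2 s)) := by
    have h1 : Primrec (fun z : ℕ × ((ℕ × ℕ) × ℕ) => P z.2.2 z.1) :=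
      P_primrec.comp (Primrec.snd.comp Primrec.snd) Primrec.fst
    have h2 : Primrec (fun z : ℕ × ((ℕ × ℕ) × ℕ) => P z.2.1.1 z.1) :=
      P_primrec.comp (Primrec.fst.comp (Primrec.fst.comp Primrec.snd)) Primrec.fst
    have h3 : Primrec (fun z : ℕ × ((ℕ × ℕ) × ℕ) => P z.2.1.2 z.1) :=
      P_primrec.comp (Primrec.snd.comp (Primrec.fst.comp Primrec.snd)) Primrec.fst
    exact Primrec.eq.comp h1 ((Primrec.dom_bool₂ op).comp h2 h3)
  have hR2 : PrimrecRel (fun (q : ℕ × ℕ) (k : ℕ) =>
      ∀ s < k + q.1 + q.2 + 1, P k s = op (P q.1 s) (P q.2 s)) := by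
    have hb : Primrec (fun p : (ℕ × ℕ) × ℕ => p.2 + p.1.1 + p.1.2 + 1) :=
      Primrec.succ.comp (Primrec.nat_add.comp (Primrec.nat_add.comp Primrec.snd
        (Primrec.fst.comp Primrec.fst)) (Primrec.snd.comp Primrec.fst))
    exact PrimrecPred.of_eq (hR.forall_mem_list.comp (Primrec.list_range.comp hb) Primrec.id) (by
      intro z; simp)
  classical
  have hex : ∀ q : ℕ × ℕ, ∃ k, ∀ s < k + q.1 + q.2 + 1, P k s = op (P q.1 s) (P q.2 s) :=
    fun q => ⟨f q.1 q.2, fun s _ => hf q.1 q.2 s⟩
  have hc := Computable.find (α := ℕ × ℕ)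
    (P := fun q k => ∀ s < k + q.1 + q.2 + 1, P k s = op (P q.1 s) (P q.2 s))
    (PrimrecPred.computablePred hR2) hex
  refine hc.of_eq ?_
  intro q
  apply P_inj
  intro x
  have hspec := Nat.find_spec (hex q)
  rw [check op _ _ _ hspec x, hf]

/-! interval sets in the usual order on the natural numbers are the finite and cofinite sets -/

lemma odd_set_FC (S : Finset ℕ) (b : Bool) :
    FC {x : ℕ | Xor' (b = true) (Odd (S.filter (fun s => s ≤ x)).card)} := by
  have hev : ∀ x, S.sup id ≤ x → S.filter (fun s => s ≤ x) = S := by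
    intro x hx
    apply Finset.filter_true_of_mem
    intro s hs
    exact le_trans (Finset.le_sup (f := id) hs) hx
  by_cases h : Xor' (b = true) (Odd S.card)
  · right
    refine (Set.finite_Iio (S.sup id)).subset ?_
    intro x hx
    simp only [Set.mem_Iio]
    by_contra hlt
    push Not at hlt
    apply hx
    show Xor' (b = true) (Odd (S.filter (fun s => s ≤ x)).card)
    rw [hev x hlt]; exact h
  · left
    refine (Set.finite_Iio (S.sup id)).subset ?_
    intro x hx
    simp only [Set.mem_Iio]
    by_contra hlt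
    push Not at hlt
    apply h
    have hx' : Xor' (b = true) (Odd (S.filter (fun s => s ≤ x)).card) := hx
    rw [hev x hlt] at hx'; exact hx'

lemma FC_bound {Y : Set ℕ} (hY : FC Y) : ∃ N, ∀ x, N ≤ x → (x + 1 ∈ Y ↔ x ∈ Y) := by
  rcases hY with h | h
  · obtain ⟨N, hN⟩ := h.bddAbove
    refine ⟨N + 1, fun x hx => ?_⟩
    constructor
    · intro h1; have := hN h1; omega
    · intro h1; have := hN h1; omega
  · obtain ⟨N, hN⟩ := h.bddAbove
    refine ⟨N + 1, fun x hx => ?_⟩
    constructor
    · intro _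
      by_contra h1
      have := hN (show x ∈ Yᶜ from h1); omega
    · intro _
      by_contra h1
      have := hN (show x + 1 ∈ Yᶜ from h1); omega

lemma FC_odd_set {Y : Set ℕ} (hY : FC Y) : ∃ S : Finset ℕ, ∃ b : Bool,
    Y = {x : ℕ | Xor' (b = true) (Odd (S.filter (fun s => s ≤ x)).card)} := by
  classical
  obtain ⟨N, hN⟩ := FC_bound hY
  let S : Finset ℕ := (Finset.range (N + 1)).filter
    (fun s => 1 ≤ s ∧ ¬ (s ∈ Y ↔ s - 1 ∈ Y))
  refine ⟨S, decide (0 ∈ Y), ?_⟩
  have hS : ∀ x, (x + 1 ∈ S ↔ ¬ (x + 1 ∈ Y ↔ x ∈ Y)) := by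
    intro x
    simp only [S, Finset.mem_filter, Finset.mem_range, Nat.add_sub_cancel]
    constructor
    · rintro ⟨_, _, h⟩; exact h
    · intro h
      refine ⟨?_, by omega, h⟩
      by_contra hlt
      exact h (hN x (by omega))
  have key : ∀ x, x ∈ Y ↔ Xor' (0 ∈ Y) (Odd (S.filter (fun s => s ≤ x)).card) := by
    intro x
    induction x with
    | zero =>
      have : S.filter (fun s => s ≤ 0) = ∅ := by
        apply Finset.filter_false_of_mem
        intro s hs
        simp only [S, Finset.mem_filter] at hs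
        omega
      rw [this]
      simp [Xor', Xor]
    | succ x ih =>
      by_cases hx : x + 1 ∈ S
      · have h1 : S.filter (fun s => s ≤ x + 1) = insert (x + 1) (S.filter (fun s => s ≤ x)) := by
          ext s
          simp only [Finset.mem_filter, Finset.mem_insert]
          constructor
          · rintro ⟨h1, h2⟩
            by_cases h3 : s = x + 1
            · exact Or.inl h3
            · exact Or.inr ⟨h1, by omega⟩
          · rintro (h | ⟨h1, h2⟩)
            · subst h; exact ⟨hx, le_refl _⟩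
            · exact ⟨h1, by omega⟩
        have h2 : x + 1 ∉ S.filter (fun s => s ≤ x) := by simp
        rw [h1, Finset.card_insert_of_notMem h2, Nat.odd_add_one]
        have h3 := (hS x).1 hx
        unfold Xor' Xor at ih ⊢
        tauto
      · have h1 : S.filter (fun s => s ≤ x + 1) = S.filter (fun s => s ≤ x) := by
          ext s
          simp only [Finset.mem_filter]
          constructor
          · rintro ⟨h1, h2⟩
            refine ⟨h1, ?_⟩
            by_contra h3
            have : s = x + 1 := by omega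
            subst this; exact hx h1
          · rintro ⟨h1, h2⟩; exact ⟨h1, by omega⟩
        rw [h1, ← ih]
        have h3 : (x + 1 ∈ Y ↔ x ∈ Y) := by
          by_contra h4; exact hx ((hS x).2 h4)
        exact h3
  ext x
  rw [Set.mem_ofPred_eq, key x]
  simp

lemma range_eq : Set.range (Subtype.val : A → Set ℕ) = {X : Set ℕ | ∃ S : Finset ℕ, ∃ b : Bool,
    X = {x : ℕ | Xor' (b = true) (Odd (S.filter (fun s => s ≤ x)).card)}} := by
  ext Y
  constructor
  · rintro ⟨⟨Z, hZ⟩, rfl⟩
    exact FC_odd_set hZ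
  · rintro ⟨S, b, rfl⟩
    exact ⟨⟨_, odd_set_FC S b⟩, rfl⟩

/-! the main argument -/

lemma hlt_iff (k : ℕ) : (∃ t, hlt k t = true) ↔ ∃ u, g u = 2 * k + 1 := by
  constructor
  · intro h
    classical
    have h0 := Nat.find_spec h
    have hmin := fun m => Nat.find_min (m := m) h
    obtain ⟨t, ht⟩ : ∃ t, Nat.find h = t + 1 := by
      cases h1 : Nat.find h with
      | zero => rw [h1, hlt_zero] at h0; simp at h0
      | succ t => exact ⟨t, rfl⟩
    refine ⟨Nat.pair k t + 1, ?_⟩
    rw [g_succ, Nat.unpair_pair]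
    have h2 : hlt k t = false := by
      rw [← Bool.not_eq_true]; exact hmin t (by omega)
    rw [ht] at h0
    simp [h0, h2]
  · rintro ⟨u, hu⟩
    cases u with
    | zero => rw [g_zero] at hu; omega
    | succ u =>
      rw [g_succ] at hu
      cases h : (hlt u.unpair.1 (u.unpair.2 + 1) && !hlt u.unpair.1 u.unpair.2) <;>
        rw [h] at hu
      · simp at hu; omega
      · simp at hu h
        have : u.unpair.1 = k := by omega
        rw [this] at h
        exact ⟨_, h.1⟩

lemma dom_iff (c : Code) : (eval c 0).Dom ↔ ∃ t, hlt (Encodable.encode c) t = true := by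
  unfold hlt
  rw [Denumerable.ofNat_encode, Part.dom_iff_mem]
  constructor
  · rintro ⟨y, hy⟩
    obtain ⟨k, hk⟩ := evaln_complete.1 hy
    exact ⟨k, Option.isSome_iff_exists.2 ⟨y, hk⟩⟩
  · rintro ⟨t, ht⟩
    obtain ⟨y, hy⟩ := Option.isSome_iff_exists.1 ht
    exact ⟨y, evaln_sound hy⟩

lemma tr_not_computable : ¬ ComputablePred tr := by
  intro htr
  apply ComputablePred.halting_problem 0
  classical
  have hg : PrimrecRel (fun (k s : ℕ) => 2 * k + 1 < g s) :=
    Primrec.nat_lt.comp (Primrec.succ.comp (Primrec.nat_mul.comp (Primrec.const 2) Primrec.fst))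
      (g_primrec.comp Primrec.snd)
  have h1 : ComputablePred (fun p : ℕ × ℕ => tr p.2 ∧ 2 * p.1 + 1 < g p.2) := by
    have a1 : Computable (fun p : ℕ × ℕ => decide (tr p.2)) := htr.decide.comp Computable.snd
    have a2 : Computable (fun p : ℕ × ℕ => decide (2 * p.1 + 1 < g p.2)) := hg.decide.to_comp
    have a3 : Computable (fun p : ℕ × ℕ => decide (tr p.2) && decide (2 * p.1 + 1 < g p.2)) :=
      Primrec.and.to_comp.comp a1 a2
    refine Computable.computablePred (a3.of_eq ?_)
    intro p; simp
  have hex : ∀ k : ℕ, ∃ s, tr s ∧ 2 * k + 1 < g s := by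
    intro k
    obtain ⟨M, hM⟩ := g_large (2 * k + 2)
    obtain ⟨s, hs, hts⟩ := exists_tr M
    exact ⟨s, hts, hM s hs⟩
  have h2 := Computable.find (α := ℕ) (P := fun k s => tr s ∧ 2 * k + 1 < g s) h1 hex
  have h3 : PrimrecRel (fun (s k : ℕ) => ∃ u < s, g u = 2 * k + 1) := by
    have : PrimrecRel (fun (u k : ℕ) => g u = 2 * k + 1) :=
      Primrec.eq.comp (g_primrec.comp Primrec.fst)
        (Primrec.succ.comp (Primrec.nat_mul.comp (Primrec.const 2) Primrec.snd))
    exact this.exists_lt
  have h4 : Computable (fun k : ℕ => decide (∃ u < Nat.find (hex k), g u = 2 * k + 1)) :=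
    (Primrec₂.to_comp h3.decide).comp h2 Computable.id
  have h5 : Computable (fun c : Code => decide (∃ u < Nat.find (hex (Encodable.encode c)),
      g u = 2 * Encodable.encode c + 1)) := h4.comp Computable.encode
  refine Computable.computablePred (h5.of_eq ?_)
  intro c
  rw [decide_eq_decide, dom_iff, hlt_iff]
  have hsp := Nat.find_spec (hex (Encodable.encode c))
  constructor
  · rintro ⟨u, _, hu⟩; exact ⟨u, hu⟩
  · rintro ⟨u, hu⟩
    refine ⟨u, ?_, hu⟩
    by_contra hlt
    push Not at hlt
    have : u ≠ Nat.find (hex (Encodable.encode c)) := by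
      intro h
      rw [← h] at hsp; omega
    have := hsp.1 u (by omega)
    omega

lemma tr_iff_infinite (s : ℕ) : tr s ↔ (X (2 ^ s)).Infinite := by
  have hX : X (2 ^ s) = {x | le' s x} := by
    ext x; exact P_two_pow s x
  rw [hX]
  constructor
  · intro h hfin
    have h1 := below_finite h
    have : (Set.univ : Set ℕ) ⊆ {t | le' t s} ∪ {x | le' s x} := by
      intro x _; exact (le'_total x s)
    exact Set.infinite_univ ((h1.union hfin).subset this)
  · intro h
    by_contra h1
    exact h (above_finite h1)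

lemma infinite_iff (ψ : A → Set ℕ) (hinj : Function.Injective ψ)
    (hsup : ∀ a b, ψ (a ⊔ b) = ψ a ∪ ψ b) (hcompl : ∀ a, ψ aᶜ = (ψ a)ᶜ)
    (hrange : Set.range ψ = {X : Set ℕ | ∃ S : Finset ℕ, ∃ b : Bool,
      X = {x : ℕ | Xor' (b = true) (Odd (S.filter (fun s => s ≤ x)).card)}}) (a : A) :
    (a : Set ℕ).Infinite ↔ (ψ a).Infinite := by
  have hfin : ∀ a : A, (a : Set ℕ).Finite → (ψ a).Finite := by
    intro a ha
    by_contra hinf
    have hinf : (ψ a).Infinite := hinf
    -- singletons in ψ a come from elements below a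
    have hsing : ∀ x ∈ ψ a, ∃ b : A, ψ b = {x} ∧ b ≤ a := by
      intro x hx
      have : ({x} : Set ℕ) ∈ Set.range ψ := by
        rw [hrange, ← range_eq]
        exact ⟨⟨{x}, Or.inl (Set.finite_singleton x)⟩, rfl⟩
      obtain ⟨b, hb⟩ := this
      refine ⟨b, hb, ?_⟩
      rw [← sup_eq_right]
      apply hinj
      rw [hsup, hb]
      exact Set.union_eq_right.2 (Set.singleton_subset_iff.2 hx)
    choose! b hb hba using hsing
    have hbinj : Set.InjOn b (ψ a) := by
      intro x hx y hy hxy
      have := hb x hx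
      rw [hxy, hb y hy] at this
      exact (Set.singleton_injective this).symm
    have h1 : (b '' (ψ a)).Infinite := hinf.image hbinj
    have h2 : ((fun z : A => (z : Set ℕ)) '' (b '' (ψ a))).Infinite :=
      h1.image (Subtype.val_injective.injOn)
    apply h2
    refine (ha.finite_subsets).subset ?_
    rintro _ ⟨_, ⟨x, hx, rfl⟩, rfl⟩
    exact hba x hx
  constructor
  · intro ha hf
    rcases a.2 with h | h
    · exact ha h
    · have := hfin aᶜ h
      rw [hcompl] at this
      have h3 : (Set.univ : Set ℕ) ⊆ ψ a ∪ (ψ a)ᶜ := by simp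
      exact Set.infinite_univ ((hf.union this).subset h3)
  · intro h ha
    exact h (hfin a ha)

theorem result :
    ¬ (∀ (β : Type) [LinearOrder β] (l : ℕ ≃ β),
      ComputablePred (fun p : ℕ × ℕ => l p.1 ≤ l p.2) →
      ∀ (α : Type) [BooleanAlgebra α] (e : ℕ ≃ α),
        Computable₂ (fun m n : ℕ => e.symm (e m ⊔ e n)) →
        Computable₂ (fun m n : ℕ => e.symm (e m ⊓ e n)) →
        Computable (fun n : ℕ => e.symm (e n)ᶜ) →
        (∃ φ : α → Set β, Function.Injective φ ∧
            (∀ a b, φ (a ⊔ b) = φ a ∪ φ b) ∧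
            (∀ a, φ aᶜ = (φ a)ᶜ) ∧
            Set.range φ = {X : Set β | ∃ S : Finset β, ∃ b : Bool,
              X = {x : β | Xor' (b = true) (Odd (S.filter (fun s => s ≤ x)).card)}}) →
        ∃ l' : ℕ ≃ β, ComputablePred (fun p : ℕ × ℕ => l' p.1 ≤ l' p.2) ∧
          ∃ ψ : α → Set β, Function.Injective ψ ∧
            (∀ a b, ψ (a ⊔ b) = ψ a ∪ ψ b) ∧
            (∀ a, ψ aᶜ = (ψ a)ᶜ) ∧
            Set.range ψ = {X : Set β | ∃ S : Finset β, ∃ b : Bool,
              X = {x : β | Xor' (b = true) (Odd (S.filter (fun s => s ≤ x)).card)}} ∧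
            ∃ c : ℕ → List ℕ × Bool, Computable c ∧
              ∀ n : ℕ, ψ (e n) = {x : β | Xor' ((c n).2 = true)
                (Odd ((c n).1.filter (fun s => decide (l' s ≤ x))).length)}) := by
  intro H
  have hor : ∀ m n x, P (e.symm (e m ⊔ e n)) x = (P m x || P n x) := by
    intro m n x
    have h1 : X (e.symm (e m ⊔ e n)) = X m ∪ X n := by
      rw [← e_val, Equiv.apply_symm_apply]; rfl
    have h2 : x ∈ X (e.symm (e m ⊔ e n)) ↔ (x ∈ X m ∨ x ∈ X n) := by rw [h1]; rfl
    rw [Bool.eq_iff_iff, Bool.or_eq_true]; exact h2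
  have hand : ∀ m n x, P (e.symm (e m ⊓ e n)) x = (P m x && P n x) := by
    intro m n x
    have h1 : X (e.symm (e m ⊓ e n)) = X m ∩ X n := by
      rw [← e_val, Equiv.apply_symm_apply]; rfl
    have h2 : x ∈ X (e.symm (e m ⊓ e n)) ↔ (x ∈ X m ∧ x ∈ X n) := by rw [h1]; rfl
    rw [Bool.eq_iff_iff, Bool.and_eq_true]; exact h2
  have hnot : ∀ m n x, P (e.symm (e m)ᶜ) x = (fun a _ : Bool => !a) (P m x) (P n x) := by
    intro m n x
    have h1 : X (e.symm (e m)ᶜ) = (X m)ᶜ := by
      rw [← e_val, Equiv.apply_symm_apply]; rfl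
    have h2 : x ∈ X (e.symm (e m)ᶜ) ↔ ¬ (x ∈ X m) := by rw [h1]; rfl
    rw [Bool.eq_iff_iff]
    simp only [Bool.not_eq_true']
    rw [← Bool.not_eq_true]
    exact h2
  obtain ⟨l', _, ψ, hinj, hsup, hcompl, hrange, c, hc, hψ⟩ := H ℕ (Equiv.refl ℕ)
    (PrimrecPred.computablePred Primrec.nat_le) A e
    (comp_op or _ hor) (comp_op and _ hand)
    ((comp_op (fun a _ => !a) (fun m _ => e.symm (e m)ᶜ) hnot).comp Computable.id Computable.id)
    ⟨Subtype.val, Subtype.val_injective, fun _ _ => rfl, fun _ => rfl, range_eq⟩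
  apply tr_not_computable
  have hkey : ∀ s, tr s ↔ Xor' ((c (2 ^ s)).2 = true) (Odd (c (2 ^ s)).1.length) := by
    intro s
    rw [tr_iff_infinite, ← e_val, infinite_iff ψ hinj hsup hcompl hrange, hψ]
    generalize c (2 ^ s) = q
    obtain ⟨B, hB⟩ : ∃ B, ∀ x, B ≤ x → q.1.filter (fun s => decide (l' s ≤ x)) = q.1 := by
      refine ⟨(q.1.map l').sum, fun x hx => ?_⟩
      rw [List.filter_eq_self]
      intro a ha
      rw [decide_eq_true_eq]
      exact le_trans (List.single_le_sum (by simp) _ (List.mem_map_of_mem ha)) hx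
    constructor
    · intro hinf
      by_contra hcon
      apply hinf
      refine (Set.finite_Iio B).subset ?_
      intro x hx
      simp only [Set.mem_Iio]
      by_contra hlt
      push Not at hlt
      rw [Set.mem_ofPred_eq, hB x hlt] at hx
      exact hcon hx
    · intro hx hfin
      have hsub : Set.Ici B ⊆ {x : ℕ | Xor' (q.2 = true)
          (Odd (q.1.filter (fun s => decide (l' s ≤ x))).length)} := by
        intro x hxB
        rw [Set.mem_ofPred_eq, hB x hxB]; exact hx
      exact Set.Ici_infinite B (hfin.subset hsub)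
  classical
  have hpow : Primrec₂ (fun m n : ℕ => m ^ n) := Primrec₂.unpaired'.1 Nat.Primrec.pow
  have hc2 : Computable (fun s : ℕ => c (2 ^ s)) :=
    hc.comp (hpow.comp (Primrec.const 2) Primrec.id).to_comp
  have hq : Primrec (fun q : List ℕ × Bool => (q.2 ^^ decide (q.1.length % 2 = 1))) := by
    have h1 : PrimrecPred (fun q : List ℕ × Bool => q.1.length % 2 = 1) :=
      Primrec.eq.comp (Primrec.nat_mod.comp (Primrec.list_length.comp Primrec.fst)
        (Primrec.const 2)) (Primrec.const 1)
    exact (Primrec.dom_bool₂ xor).comp Primrec.snd h1.decide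
  have hfinal : Computable (fun s : ℕ => ((c (2 ^ s)).2 ^^ decide ((c (2 ^ s)).1.length % 2 = 1))) :=
    hq.to_comp.comp hc2
  refine Computable.computablePred (hfinal.of_eq ?_)
  intro s
  rw [Bool.eq_iff_iff, decide_eq_true_eq, hkey s]
  have hodd : decide ((c (2 ^ s)).1.length % 2 = 1) = true ↔ Odd (c (2 ^ s)).1.length := by
    rw [decide_eq_true_eq, Nat.odd_iff]
  cases (c (2 ^ s)).2 <;> by_cases h : Odd (c (2 ^ s)).1.length
  · rw [hodd.2 h]; simp [Xor', Xor, h]
  · have : decide ((c (2 ^ s)).1.length % 2 = 1) = false := by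
      rw [← Bool.not_eq_true, hodd]; exact h
    rw [this]; simp [Xor', Xor, h]
  · rw [hodd.2 h]; simp [Xor', Xor, h]
  · have : decide ((c (2 ^ s)).1.length % 2 = 1) = false := by
      rw [← Bool.not_eq_true, hodd]; exact h
    rw [this]; simp [Xor', Xor, h]

end Pool.Agent.S09608
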