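import Pool.Statements.S09620
import Pool.Agent.Helper538.SyncI

set_option autoImplicit false
open Pool Pool.MP_a6df80_lc

namespace Pool.Agent.S09620

/-- The negation of the preceding statement: For every uncountable set and every permutation group on it: the group is synchronizing (each non-injective map together with the group generates a monoid collapsing any two points) iff it acts transitively on 2-element subsets. -/
theorem result :
    ¬ (∀ (Ω : Type), Uncountable Ω → ∀ G : Subgroup (Equiv.Perm Ω),
      ((∀ f : Function.End Ω, ¬ Function.Injective (f : Ω → Ω) →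
          ∀ v w : Ω, ∃ h ∈ Submonoid.closure
              ({f} ∪ {k : Function.End Ω | ∃ g ∈ G, k = ((g : Equiv.Perm Ω) : Ω → Ω)}),
            (h : Ω → Ω) v = (h : Ω → Ω) w) ↔
       (∀ a b c d : Ω, a ≠ b → c ≠ d →
          ∃ g ∈ G, (g : Ω → Ω) '' {a, b} = {c, d}))) := by
  obtain ⟨I, _, _, ⟨S⟩⟩ := Pool.Agent.Helper538.Sync.exists_setup
  intro hall
  have h := (hall (I →₀ ZMod 2) (Pool.Agent.Helper538.Sync.uncountable_vec S) S.grp).mp
    (fun f hf v w => S.sync f hf v w)
  exact S.not_homog h

end Pool.Agent.S09620
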