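import Pool.Statements.S09629
import Pool.Agent.H665Simp.P_upper
import Pool.Agent.H665Simp.P_hard

set_option autoImplicit false
open Pool Pool.MP_aa9b22_lc

namespace Pool.Agent.S09629

/-- The set of codes of finite presentations whose presented group is simple is Π₂, meaning of the form for-all-x exists-y of a computable relation, and every such Π₂ set many-one reduces to it; that is, it is Π₂-complete. -/
theorem result :
  ∀ A : ℕ → Prop,
    (∀ n : ℕ, A n ↔ ∃ p : ℕ × List (List (ℕ × Bool)),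
        Encodable.decode n = some p ∧
        IsSimpleGroup (PresentedGroup
          ({r : FreeGroup ℕ | ∃ i : ℕ, p.1 ≤ i ∧ r = FreeGroup.of i} ∪
           {r : FreeGroup ℕ | ∃ w ∈ p.2, r = FreeGroup.mk w}))) →
    (∃ R : ℕ × ℕ × ℕ → Prop, ComputablePred R ∧ ∀ n, A n ↔ ∀ x, ∃ y, R (n, x, y)) ∧
    ∀ B : ℕ → Prop,
      (∃ R : ℕ × ℕ × ℕ → Prop, ComputablePred R ∧ ∀ n, B n ↔ ∀ x, ∃ y, R (n, x, y)) →
      ManyOneReducible B A := by
  intro A hA
  refine ⟨Pool.Agent.H665Simp.upper A hA, ?_⟩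
  intro B hB
  obtain ⟨f, hf, h⟩ := Pool.Agent.H665Simp.hard B hB
  refine ⟨f, hf, fun n => ?_⟩
  rw [hA]
  exact h n

end Pool.Agent.S09629
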