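import Pool.Statements.S09640
import Pool.Agent.Helper605.SlFin

set_option autoImplicit false
open Pool Pool.MP_af28f6_lc

namespace Pool.Agent.S09640

/-- The negation of the preceding statement: For every d ≥ 3 and every SFT on ℤ^d, the set of nonzero integer vectors v such that some configuration's period group has rank 1 with direction v is Σ⁰₂, i.e. of the form {v : ∃a ∀b R(v,a,b)} with R computable. -/
theorem result :
    ¬ (∀ (d : ℕ), 3 ≤ d → ∀ (k n : ℕ) (F : Set ((Fin d → Fin n) → Fin k)),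
      ∃ R : (Fin d → ℤ) × ℕ × ℕ → Prop, ComputablePred R ∧
        ∀ v : Fin d → ℤ,
          (v ≠ 0 ∧ ∃ x : (Fin d → ℤ) → Fin k,
              (∀ z : Fin d → ℤ,
                (fun i : Fin d → Fin n => x (z + (fun j => ((i j : ℕ) : ℤ)))) ∉ F) ∧
              (∃ w : Fin d → ℤ, w ≠ 0 ∧ ∀ z, x (z + w) = x z) ∧
              ∀ u : Fin d → ℤ, (∀ z, x (z + u) = x z) →
                ∃ a b : ℤ, b ≠ 0 ∧ b • u = a • v)
          ↔ ∃ a : ℕ, ∀ b : ℕ, R (v, a, b)) := by
  intro H
  exact Pool.Agent.Helper605.Sl.final H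

end Pool.Agent.S09640
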