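import Pool.Statements.S09643
import Pool.Agent.Helper79.AbSqGram

set_option autoImplicit false
open Pool Pool.MP_b0758d_lc

namespace Pool.Agent.S09643

open Pool.Agent.Helper79

/-- Over some finite alphabet there is a context-free language whose complement is infinite and contains no word having a factor xy with x nonempty and y a rearrangement of x. -/
theorem result :
    ∃ k : ℕ, ∃ L : Language (Fin k),
      Language.IsContextFree L ∧
      Set.Infinite {w : List (Fin k) | w ∉ L} ∧
      ∀ w : List (Fin k), w ∉ L →
        ∀ u x y v : List (Fin k), w = u ++ x ++ y ++ v → x ≠ [] → ¬ List.Perm x y := by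
  refine ⟨8, ({w | ∀ n, w ≠ AbSq.pref n} : Set (List (Fin 8))), ⟨AbSq.G, ?_⟩, ?_, ?_⟩
  · ext w
    rw [AbSq.lang, AbSq.mem_iff]
    exact Iff.rfl
  · have h : Set.range AbSq.pref ⊆ {w : List (Fin 8) | w ∉ ({w | ∀ n, w ≠ AbSq.pref n} : Set (List (Fin 8)))} := by
      rintro _ ⟨n, rfl⟩ hn
      exact hn n rfl
    refine Set.Infinite.mono h (Set.infinite_range_of_injective ?_)
    intro m n hmn
    have := congrArg List.length hmn
    rwa [AbSq.pref_length, AbSq.pref_length] at this
  · intro w hw u x y v hwe hx
    have : ∃ n, w = AbSq.pref n := by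
      by_contra hc
      push Not at hc
      exact hw hc
    obtain ⟨n, rfl⟩ := this
    exact AbSq.pref_free n u x y v hwe hx

end Pool.Agent.S09643
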