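import Pool.Statements.S09651

set_option autoImplicit false
set_option linter.unusedVariables false
open Pool Pool.MP_b29fea_lc

namespace Pool.Agent.S09651

open Set Order Ordinal

abbrev Od : Type 1 := Ordinal.{0}

/-- `X` contains a subset of order type `γ`. -/
def E (γ : Od) (X : Set Od) : Prop :=
  ∃ f : Od → Od, StrictMonoOn f (Iio γ) ∧ ∀ ξ < γ, f ξ ∈ X

/-- `X` contains an independent subset of order type `γ`. -/
def Ind (G : SimpleGraph Od) (γ : Od) (X : Set Od) : Prop :=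
  ∃ Y ⊆ X, (∀ x ∈ Y, ∀ y ∈ Y, ¬ G.Adj x y) ∧ E γ Y

/-- `X` contains a down-up matching whose lower side has type `ω ^ k`. -/
def Mat (G : SimpleGraph Od) (k : ℕ) (X : Set Od) : Prop :=
  ∃ f m : Od → Od, StrictMonoOn f (Iio (ω ^ (k : Od))) ∧ (∀ ξ < ω ^ (k : Od), f ξ ∈ X) ∧
    (∀ ξ < ω ^ (k : Od), m ξ ∈ X) ∧ InjOn m (Iio (ω ^ (k : Od))) ∧
    (∀ ξ < ω ^ (k : Od), G.Adj (f ξ) (m ξ)) ∧
    ∀ ξ < ω ^ (k : Od), ∀ ζ < ω ^ (k : Od), f ξ < m ζ

/-- The arrow relation. -/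
def Arrow (k : ℕ) (γ g : Od) : Prop :=
  ∀ G : SimpleGraph Od, Mat G k (Iio γ) ∨ Ind G g (Iio γ)

theorem E.mono {γ δ : Od} {X Y : Set Od} (h : E γ X) (hδ : δ ≤ γ) (hXY : X ⊆ Y) : E δ Y := by
  obtain ⟨f, hf, hfX⟩ := h
  exact ⟨f, hf.mono (Iio_subset_Iio hδ), fun ξ hξ => hXY (hfX ξ (hξ.trans_le hδ))⟩

theorem Mat.mono {G : SimpleGraph Od} {k : ℕ} {X Y : Set Od} (h : Mat G k X) (hXY : X ⊆ Y) :
    Mat G k Y := by
  obtain ⟨f, m, h1, h2, h3, h4, h5, h6⟩ := h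
  exact ⟨f, m, h1, fun ξ hξ => hXY (h2 ξ hξ), fun ξ hξ => hXY (h3 ξ hξ), h4, h5, h6⟩

theorem Ind.mono {G : SimpleGraph Od} {γ δ : Od} {X Y : Set Od} (h : Ind G γ X) (hδ : δ ≤ γ)
    (hXY : X ⊆ Y) : Ind G δ Y := by
  obtain ⟨Z, h1, h2, h3⟩ := h
  exact ⟨Z, h1.trans hXY, h2, h3.mono hδ le_rfl⟩

theorem E.comp {γ δ : Od} {X : Set Od} {h : Od → Od} (hh : StrictMonoOn h (Iio γ))
    (hE : E δ X) (hX : X ⊆ Iio γ) : E δ (h '' X) := by
  obtain ⟨f, hf, hfX⟩ := hE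
  refine ⟨h ∘ f, ?_, fun ξ hξ => ⟨f ξ, hfX ξ hξ, rfl⟩⟩
  intro a ha b hb hab
  exact hh (hX (hfX a ha)) (hX (hfX b hb)) (hf ha hb hab)

theorem arrow_apply {k : ℕ} {γ g : Od} (h : Arrow k γ g) (G : SimpleGraph Od) {X : Set Od}
    (hX : E γ X) : Mat G k X ∨ Ind G g X := by
  obtain ⟨f, hf, hfX⟩ := hX
  rcases h (G.comap f) with h | h
  · left
    obtain ⟨f', m, h1, h2, h3, h4, h5, h6⟩ := h
    refine ⟨f ∘ f', f ∘ m, ?_, fun ξ hξ => hfX _ (h2 ξ hξ), fun ξ hξ => hfX _ (h3 ξ hξ), ?_,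
      fun ξ hξ => h5 ξ hξ, ?_⟩
    · intro a ha b hb hab
      exact hf (h2 a ha) (h2 b hb) (h1 ha hb hab)
    · intro a ha b hb hab
      exact h4 ha hb (hf.injOn (h3 a ha) (h3 b hb) hab)
    · intro ξ hξ ζ hζ
      exact hf (h2 ξ hξ) (h3 ζ hζ) (h6 ξ hξ ζ hζ)
  · right
    obtain ⟨Y, h1, h2, h3⟩ := h
    refine ⟨f '' Y, ?_, ?_, h3.comp hf h1⟩
    · rintro _ ⟨y, hy, rfl⟩
      exact hfX y (h1 hy)
    · rintro _ ⟨x, hx, rfl⟩ _ ⟨y, hy, rfl⟩
      exact h2 x hx y hy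

theorem Arrow.mono {k : ℕ} {γ γ' g g' : Od} (h : Arrow k γ g) (hγ : γ ≤ γ') (hg : g' ≤ g) :
    Arrow k γ' g' := by
  intro G
  rcases h G with h | h
  · exact Or.inl (h.mono (Iio_subset_Iio hγ))
  · exact Or.inr (h.mono hg (Iio_subset_Iio hγ))

/-- Dichotomy for bounded sets of ordinals. -/
theorem dich (γ : Od) {X : Set Od} {b : Od} (hX : X ⊆ Iio b) :
    E γ X ∨ ∃ ξ < γ, ∃ f : Od → Od, X ⊆ f '' (Iio ξ) := by
  set A := X ∪ Ici b with hA
  have hunb : ¬ BddAbove A := by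
    rintro ⟨c, hc⟩
    have h1 : max b (c + 1) ∈ A := Or.inr (mem_Ici.mpr (le_max_left b (c + 1)))
    have h2 := hc h1
    exact absurd ((le_max_right _ _).trans h2) (not_le.mpr (lt_add_one c))
  by_cases h : ∀ ξ < γ, enumOrd A ξ ∈ X
  · left
    exact ⟨enumOrd A, (enumOrd_strictMono hunb).strictMonoOn _, h⟩
  · right
    push Not at h
    obtain ⟨ξ, hξ, hξX⟩ := h
    refine ⟨ξ, hξ, enumOrd A, ?_⟩
    intro x hx
    obtain ⟨ζ, hζ⟩ := enumOrd_surjective hunb (show x ∈ A from Or.inl hx)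
    refine ⟨ζ, ?_, hζ⟩
    have h1 : b ≤ enumOrd A ξ := by
      rcases enumOrd_mem hunb ξ with h2 | h2
      · exact absurd h2 hξX
      · exact h2
    have h2 : enumOrd A ζ < enumOrd A ξ := by
      rw [hζ]
      exact lt_of_lt_of_le (hX hx) h1
    exact (enumOrd_lt_enumOrd hunb).mp h2

theorem E_of_infinite {X : Set Od} {b : Od} (hX : X ⊆ Iio b) (hinf : X.Infinite) : E ω X := by
  rcases dich ω hX with h | ⟨ξ, hξ, f, hf⟩
  · exact h
  · exfalso
    obtain ⟨n, rfl⟩ := lt_omega0.mp hξ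
    apply hinf
    refine Set.Finite.subset (Set.Finite.image f ?_) hf
    have : Iio (n : Od) ⊆ (fun i : ℕ => (i : Od)) '' (Iio n) := by
      intro x hx
      obtain ⟨i, rfl⟩ := lt_omega0.mp (lt_trans hx (natCast_lt_omega0 n))
      have hx' : (i : Od) < (n : Od) := hx
      have hin : i < n := by exact_mod_cast hx'
      exact ⟨i, hin, rfl⟩
    exact (Set.Finite.image _ (Set.finite_Iio n)).subset this

theorem countable_Iio_opow (k : ℕ) : (Iio (ω ^ (k : Od))).Countable := by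
  induction k with
  | zero =>
    rw [Nat.cast_zero, opow_zero]
    refine (Set.countable_singleton (0 : Od)).mono ?_
    intro x hx
    exact Order.lt_one_iff.mp hx
  | succ k ih =>
    have hne : ω ^ (k : Od) ≠ 0 := (opow_pos _ omega0_pos).ne'
    have h1 : Iio (ω ^ ((k + 1 : ℕ) : Od)) ⊆
        ⋃ n : ℕ, (fun ρ => ω ^ (k : Od) * (n : Od) + ρ) '' (Iio (ω ^ (k : Od))) := by
      intro x hx
      rw [Nat.cast_succ, opow_add_one] at hx
      have h2 : x / ω ^ (k : Od) < ω := (lt_mul_iff_div_lt hne).mp hx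
      obtain ⟨n, hn⟩ := lt_omega0.mp h2
      refine mem_iUnion.mpr ⟨n, x % ω ^ (k : Od), mod_lt _ hne, ?_⟩
      simp only
      rw [← hn, div_add_mod]
    refine Set.Countable.mono h1 (Set.countable_iUnion fun n => ih.image _)

/-- Removing finitely many points. -/
theorem fin_remove {p : Od} (hp : p ≠ 0) {X : Set Od} (hX : E (ω ^ p) X) (V : Set Od)
    (hV : V.Finite) : E (ω ^ p) (X \ V) := by
  obtain ⟨f, hf, hfX⟩ := hX
  have hlim : IsSuccLimit (ω ^ p) := by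
    have := isSuccLimit_opow_left (a := ω) (b := p) isSuccLimit_omega0 hp
    exact this
  have hfin : {ξ | ξ < ω ^ p ∧ f ξ ∈ V}.Finite := by
    apply Set.Finite.of_finite_image (f := f) (hV.subset ?_)
    · intro a ha b hb hab
      exact hf.injOn ha.1 hb.1 hab
    · rintro _ ⟨ξ, hξ, rfl⟩
      exact hξ.2
  obtain ⟨β, hβ, hβV⟩ : ∃ β < ω ^ p, ∀ ξ < ω ^ p, f ξ ∈ V → ξ < β := by
    rcases {ξ | ξ < ω ^ p ∧ f ξ ∈ V}.eq_empty_or_nonempty with h | h
    · refine ⟨0, opow_pos _ omega0_pos, fun ξ hξ hξV => ?_⟩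
      have : ξ ∈ {ξ | ξ < ω ^ p ∧ f ξ ∈ V} := ⟨hξ, hξV⟩
      rw [h] at this
      exact absurd this (notMem_empty _)
    · obtain ⟨m, hm, hmax⟩ := Set.exists_max_image _ id hfin h
      refine ⟨m + 1, ?_, fun ξ hξ hξV => ?_⟩
      · exact hlim.add_one_lt hm.1
      · exact lt_of_le_of_lt (hmax ξ ⟨hξ, hξV⟩) (lt_add_one m)
  refine ⟨fun ξ => f (β + ξ), ?_, ?_⟩
  · intro a ha b hb hab
    exact hf (isPrincipal_add_omega0_opow p hβ ha) (isPrincipal_add_omega0_opow p hβ hb)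
      (by simpa using hab)
  · intro ξ hξ
    have h1 : β + ξ < ω ^ p := isPrincipal_add_omega0_opow p hβ hξ
    refine ⟨hfX _ h1, fun h2 => ?_⟩
    have := hβV _ h1 h2
    exact absurd this (not_lt.mpr (by simp))

/-- Splitting into blocks. -/
theorem blocks {δ ζ : Od} {X : Set Od} (hX : E (δ * ζ) X) :
    ∃ B : Od → Set Od, (∀ ξ < ζ, B ξ ⊆ X ∧ E δ (B ξ)) ∧
      ∀ ξ ξ', ξ < ξ' → ξ' < ζ → ∀ x ∈ B ξ, ∀ y ∈ B ξ', x < y := by
  obtain ⟨f, hf, hfX⟩ := hX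
  have key : ∀ ξ < ζ, ∀ ρ < δ, δ * ξ + ρ < δ * ζ := by
    intro ξ hξ ρ hρ
    calc δ * ξ + ρ < δ * ξ + δ := by simpa using hρ
      _ = δ * (ξ + 1) := by rw [mul_add, mul_one]
      _ ≤ δ * ζ := by
        apply mul_le_mul_right
        exact Order.add_one_le_of_lt hξ
  refine ⟨fun ξ => {x | ∃ ρ < δ, f (δ * ξ + ρ) = x}, ?_, ?_⟩
  · intro ξ hξ
    refine ⟨?_, fun ρ => f (δ * ξ + ρ), ?_, fun ρ hρ => ⟨ρ, hρ, rfl⟩⟩
    · rintro _ ⟨ρ, hρ, rfl⟩
      exact hfX _ (key ξ hξ ρ hρ)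
    · intro a ha b hb hab
      exact hf (key ξ hξ a ha) (key ξ hξ b hb) (by simpa using hab)
  · rintro ξ ξ' hξ hξ' _ ⟨ρ, hρ, rfl⟩ _ ⟨ρ', hρ', rfl⟩
    apply hf (key ξ (hξ.trans hξ') ρ hρ) (key ξ' hξ' ρ' hρ')
    calc δ * ξ + ρ < δ * ξ + δ := by simpa using hρ
      _ = δ * (ξ + 1) := by rw [mul_add, mul_one]
      _ ≤ δ * ξ' := by
        apply mul_le_mul_right
        exact Order.add_one_le_of_lt hξ
      _ ≤ δ * ξ' + ρ' := by simp

/-- Summing blocks. -/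
theorem sum_blocks {δ ζ : Od} (B : Od → Set Od) (hB : ∀ ξ < ζ, E δ (B ξ))
    (hlt : ∀ ξ ξ', ξ < ξ' → ξ' < ζ → ∀ x ∈ B ξ, ∀ y ∈ B ξ', x < y) :
    E (δ * ζ) {x | ∃ ξ < ζ, x ∈ B ξ} := by
  choose! f hf hfB using hB
  rcases eq_or_ne δ 0 with h0 | h0
  · refine ⟨id, strictMono_id.strictMonoOn _, ?_⟩
    intro ξ hξ
    rw [h0, zero_mul] at hξ
    simp at hξ
  refine ⟨fun β => f (β / δ) (β % δ), ?_, ?_⟩
  · intro a ha b hb hab
    have ha' : a / δ < ζ := (lt_mul_iff_div_lt h0).mp ha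
    have hb' : b / δ < ζ := (lt_mul_iff_div_lt h0).mp hb
    have hma : a % δ < δ := mod_lt _ h0
    have hmb : b % δ < δ := mod_lt _ h0
    have hle : a / δ ≤ b / δ := by
      rw [← Order.lt_add_one_iff]
      rw [← lt_mul_iff_div_lt h0]
      calc a < b := hab
        _ < δ * (b / δ) + δ := lt_mul_div_add _ h0
        _ = δ * (b / δ + 1) := by rw [mul_add, mul_one]
    rcases hle.eq_or_lt with h | h
    · simp only
      rw [h]
      apply hf _ hb' (by simpa using hma) (by simpa using hmb)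
      have h1 := div_add_mod a δ
      have h2 := div_add_mod b δ
      rw [h] at h1
      have h3 : δ * (b / δ) + a % δ < δ * (b / δ) + b % δ := by
        rw [h1, h2]
        exact hab
      simpa using h3
    · exact hlt _ _ h hb' _ (hfB _ ha' _ hma) _ (hfB _ hb' _ hmb)
  · intro β hβ
    have hb' : β / δ < ζ := (lt_mul_iff_div_lt h0).mp hβ
    exact ⟨β / δ, hb', hfB _ hb' _ (mod_lt _ h0)⟩

/-- Greedy choice of a sequence. -/
theorem greedy {β : Type 1} (Q : ℕ → β → Prop) (r : β → β → Prop)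
    (h : ∀ n, ∀ s : Set β, s.Finite → ∃ y, Q n y ∧ ∀ x ∈ s, r x y) :
    ∃ F : ℕ → β, (∀ n, Q n (F n)) ∧ ∀ m n, m < n → r (F m) (F n) := by
  classical
  have hne : Nonempty β := ⟨(h 0 ∅ Set.finite_empty).choose⟩
  choose! g hg1 hg2 using h
  let V : ℕ → {s : Set β // s.Finite} := fun n =>
    Nat.rec ⟨∅, Set.finite_empty⟩ (fun n s => ⟨insert (g n s.1) s.1, s.2.insert _⟩) n
  have hV : ∀ n, (V (n + 1)).1 = insert (g n (V n).1) (V n).1 := fun n => rfl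
  have hmono : ∀ m n, m ≤ n → (V m).1 ⊆ (V n).1 := by
    intro m n hmn
    induction n, hmn using Nat.le_induction with
    | base => exact le_rfl
    | succ n _ ih =>
      rw [hV]
      exact ih.trans (subset_insert _ _)
  refine ⟨fun n => g n (V n).1, fun n => hg1 n _ (V n).2, ?_⟩
  intro m n hmn
  apply hg2 n _ (V n).2
  apply hmono (m + 1) n hmn
  rw [hV]
  exact mem_insert _ _

/-- Finite vertex covers of the edges between two sets. -/
def Cov (G : SimpleGraph Od) (S U : Set Od) : Prop :=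
  ∃ V : Set Od, V.Finite ∧ ∀ a ∈ S, ∀ b ∈ U, G.Adj a b → a ∈ V ∨ b ∈ V

theorem opow_succ_eq (k : ℕ) : ω * ω ^ (k : Od) = ω ^ ((k + 1 : ℕ) : Od) := by
  have h1 : ((k + 1 : ℕ) : Od) = 1 + (k : Od) := by
    rw [add_comm k 1]
    push_cast
    rfl
  rw [h1, opow_add, opow_one]

theorem match_build (G : SimpleGraph Od) (k : ℕ) {X : Set Od} {b : Od} (hXb : X ⊆ Iio b)
    (S : Od → Set Od) (U : Set Od) (hS : ∀ ξ < ω ^ (k : Od), S ξ ⊆ X) (hU : U ⊆ X)
    (hlt : ∀ ξ ξ', ξ < ξ' → ξ' < ω ^ (k : Od) → ∀ x ∈ S ξ, ∀ y ∈ S ξ', x < y)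
    (hSU : ∀ ξ < ω ^ (k : Od), ∀ x ∈ S ξ, ∀ y ∈ U, x < y)
    (hcov : ∀ ξ < ω ^ (k : Od), ¬ Cov G (S ξ) U) : Mat G (k + 1) X := by
  have hne : (Iio (ω ^ (k : Od))).Nonempty := ⟨0, opow_pos _ omega0_pos⟩
  obtain ⟨g, hg⟩ := (countable_Iio_opow k).exists_eq_range hne
  let e : ℕ → Od := fun n => g n.unpair.1
  have he : ∀ n, e n < ω ^ (k : Od) := by
    intro n
    have : g n.unpair.1 ∈ Iio (ω ^ (k : Od)) := by rw [hg]; exact ⟨_, rfl⟩
    exact this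
  have hinf : ∀ ξ < ω ^ (k : Od), {n | e n = ξ}.Infinite := by
    intro ξ hξ
    have : ξ ∈ range g := by rw [← hg]; exact hξ
    obtain ⟨i, hi⟩ := this
    refine Set.Infinite.mono (s := range (fun m : ℕ => Nat.pair i m)) ?_ ?_
    · rintro _ ⟨m, rfl⟩
      simp only [e, mem_ofPred_eq, Nat.unpair_pair, hi]
    · apply Set.infinite_range_of_injective
      intro m m' h
      have := congrArg (fun n => n.unpair.2) h
      simpa using this
  obtain ⟨F, hF1, hF2⟩ := greedy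
    (fun n (p : Od × Od) => p.1 ∈ S (e n) ∧ p.2 ∈ U ∧ G.Adj p.1 p.2)
    (fun p q => p.1 ≠ q.1 ∧ p.2 ≠ q.2) (by
      intro n s hs
      by_contra hcon
      push Not at hcon
      apply hcov (e n) (he n)
      refine ⟨Prod.fst '' s ∪ Prod.snd '' s, (hs.image _).union (hs.image _), ?_⟩
      intro a ha b hb hab
      obtain ⟨x, hx, hxy⟩ := hcon (a, b) ⟨ha, hb, hab⟩
      by_cases h : x.1 = a
      · exact Or.inl (Or.inl ⟨x, hx, h⟩)
      · exact Or.inr (Or.inr ⟨x, hx, hxy h⟩))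
  have ha_inj : ∀ m n, (F m).1 = (F n).1 → m = n := by
    intro m n h
    rcases lt_trichotomy m n with h1 | h1 | h1
    · exact absurd h (hF2 m n h1).1
    · exact h1
    · exact absurd h.symm (hF2 n m h1).1
  have hb_inj : ∀ m n, (F m).2 = (F n).2 → m = n := by
    intro m n h
    rcases lt_trichotomy m n with h1 | h1 | h1
    · exact absurd h (hF2 m n h1).2
    · exact h1
    · exact absurd h.symm (hF2 n m h1).2
  let A : Od → Set Od := fun ξ => (fun n => (F n).1) '' {n | e n = ξ}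
  have hAS : ∀ ξ, A ξ ⊆ S ξ := by
    rintro ξ _ ⟨n, rfl, rfl⟩
    exact (hF1 n).1
  have hAE : ∀ ξ < ω ^ (k : Od), E ω (A ξ) := by
    intro ξ hξ
    apply E_of_infinite (b := b) ((hAS ξ).trans ((hS ξ hξ).trans hXb))
    apply (hinf ξ hξ).image
    intro m _ n _ h
    exact ha_inj m n h
  have hE := sum_blocks A hAE (fun ξ ξ' h1 h2 x hx y hy => hlt ξ ξ' h1 h2 x (hAS _ hx) y (hAS _ hy))
  rw [opow_succ_eq] at hE
  obtain ⟨f, hf, hfA⟩ := hE
  have hn : ∀ ξ < ω ^ ((k + 1 : ℕ) : Od), ∃ n, (F n).1 = f ξ := by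
    intro ξ hξ
    obtain ⟨ζ, -, n, -, hn⟩ := hfA ξ hξ
    exact ⟨n, hn⟩
  choose! ν hν using hn
  refine ⟨f, fun ξ => (F (ν ξ)).2, hf, ?_, ?_, ?_, ?_, ?_⟩
  · intro ξ hξ
    rw [← hν ξ hξ]
    exact hS _ (he _) (hF1 (ν ξ)).1
  · intro ξ hξ
    exact hU (hF1 (ν ξ)).2.1
  · intro ξ hξ ζ hζ h
    have h1 := hb_inj _ _ h
    apply hf.injOn hξ hζ
    rw [← hν ξ hξ, ← hν ζ hζ, h1]
  · intro ξ hξ
    rw [← hν ξ hξ]
    exact (hF1 (ν ξ)).2.2
  · intro ξ hξ ζ hζ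
    rw [← hν ξ hξ]
    exact hSU _ (he _) _ (hF1 (ν ξ)).1 _ (hF1 (ν ζ)).2.1

/-- The basic step along a sequence of superblocks. -/
theorem seq_lemma (G : SimpleGraph Od) (k : ℕ) {X : Set Od} {b : Od} (hXb : X ⊆ Iio b)
    (C : ℕ → Set Od) (p g : ℕ → Od) (hp : ∀ n, p n ≠ 0) (hC : ∀ n, C n ⊆ X)
    (hCE : ∀ n, E (ω ^ (p n) * ω ^ (k : Od)) (C n))
    (hlt : ∀ m n, m < n → ∀ x ∈ C m, ∀ y ∈ C n, x < y)
    (hA : ∀ n, Arrow (k + 1) (ω ^ (p n)) (g n)) (hM : ¬ Mat G (k + 1) X) :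
    ∃ H : ℕ → Set Od, (∀ n, H n ⊆ C n ∧ E (g n) (H n)) ∧
      ∀ m n, ∀ x ∈ H m, ∀ y ∈ H n, ¬ G.Adj x y := by
  have h1 : ∀ n, ∃ S ⊆ C n, E (ω ^ (p n)) S ∧ Cov G S (⋃ m ∈ Ioi n, C m) := by
    intro n
    obtain ⟨B, hB1, hB2⟩ := blocks (hCE n)
    by_contra hcon
    push Not at hcon
    apply hM
    apply match_build G k hXb B (⋃ m ∈ Ioi n, C m) (fun ξ hξ => (hB1 ξ hξ).1.trans (hC n)) _ hB2
    · intro ξ hξ x hx y hy
      simp only [mem_iUnion, mem_Ioi] at hy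
      obtain ⟨m, hm, hy⟩ := hy
      exact hlt n m hm x ((hB1 ξ hξ).1 hx) y hy
    · intro ξ hξ
      exact hcon (B ξ) (hB1 ξ hξ).1 (hB1 ξ hξ).2
    · intro y hy
      simp only [mem_iUnion, mem_Ioi] at hy
      obtain ⟨m, hm, hy⟩ := hy
      exact hC m hy
  choose S hSC hSE V hV hcov using h1
  have h2 : ∀ n, ∃ H ⊆ S n \ (⋃ m ∈ Iic n, V m),
      (∀ x ∈ H, ∀ y ∈ H, ¬ G.Adj x y) ∧ E (g n) H := by
    intro n
    have hT := fin_remove (hp n) (hSE n) (⋃ m ∈ Iic n, V m)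
      (Set.Finite.biUnion (Set.finite_Iic n) (fun m _ => hV m))
    rcases arrow_apply (hA n) G hT with h | h
    · exact absurd (h.mono ((sdiff_subset).trans ((hSC n).trans (hC n)))) hM
    · exact h
  choose H hH1 hH2 hH3 using h2
  have key : ∀ m n, m < n → ∀ x ∈ H m, ∀ y ∈ H n, ¬ G.Adj x y := by
    intro m n hmn x hx y hy hadj
    have hx1 := hH1 m hx
    have hy1 := hH1 n hy
    have hyU : y ∈ ⋃ i ∈ Ioi m, C i := by
      simp only [mem_iUnion, mem_Ioi]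
      exact ⟨n, hmn, hSC n hy1.1⟩
    rcases hcov m x hx1.1 y hyU hadj with h | h
    · apply hx1.2
      simp only [mem_iUnion, mem_Iic]
      exact ⟨m, le_rfl, h⟩
    · apply hy1.2
      simp only [mem_iUnion, mem_Iic]
      exact ⟨m, hmn.le, h⟩
  refine ⟨H, fun n => ⟨(hH1 n).trans (sdiff_subset.trans (hSC n)), hH3 n⟩, ?_⟩
  intro m n x hx y hy hadj
  rcases lt_trichotomy m n with h | h | h
  · exact key m n h x hx y hy hadj
  · subst h
    exact hH2 m x hx y hy hadj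
  · exact key n m h y hy x hx hadj.symm

/-- The successor step. -/
theorem arrow_step {k : ℕ} {p q : Od} (hp : p ≠ 0) (h : Arrow (k + 1) (ω ^ p) (ω ^ q)) :
    Arrow (k + 1) (ω ^ (p + ((k + 1 : ℕ) : Od))) (ω ^ (q + 1)) := by
  intro G
  by_cases hM : Mat G (k + 1) (Iio (ω ^ (p + ((k + 1 : ℕ) : Od))))
  · exact Or.inl hM
  right
  have hX : E ((ω ^ p * ω ^ (k : Od)) * ω) (Iio (ω ^ (p + ((k + 1 : ℕ) : Od)))) := by
    refine ⟨id, strictMono_id.strictMonoOn _, ?_⟩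
    intro ξ hξ
    have : ω ^ (p + ((k + 1 : ℕ) : Od)) = (ω ^ p * ω ^ (k : Od)) * ω := by
      rw [opow_add, Nat.cast_succ, opow_add_one, mul_assoc]
    rw [← this] at hξ
    exact hξ
  obtain ⟨B, hB1, hB2⟩ := blocks hX
  obtain ⟨H, hH1, hH2⟩ := seq_lemma G k (b := ω ^ (p + ((k + 1 : ℕ) : Od))) le_rfl
    (fun n => B (n : Od)) (fun _ => p) (fun _ => ω ^ q) (fun _ => hp)
    (fun n => (hB1 n (natCast_lt_omega0 n)).1) (fun n => (hB1 n (natCast_lt_omega0 n)).2)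
    (fun m n hmn x hx y hy => hB2 m n (by exact_mod_cast hmn) (natCast_lt_omega0 n) x hx y hy)
    (fun _ => h) hM
  refine ⟨⋃ n, H n, ?_, ?_, ?_⟩
  · exact iUnion_subset fun n => (hH1 n).1.trans (hB1 n (natCast_lt_omega0 n)).1
  · intro x hx y hy
    obtain ⟨m, hx⟩ := mem_iUnion.mp hx
    obtain ⟨n, hy⟩ := mem_iUnion.mp hy
    exact hH2 m n x hx y hy
  · have h1 := sum_blocks (δ := ω ^ q) (ζ := ω) (fun ξ => {x | ∃ n : ℕ, (n : Od) = ξ ∧ x ∈ H n})
      (by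
        intro ξ hξ
        obtain ⟨n, rfl⟩ := lt_omega0.mp hξ
        exact (hH1 n).2.mono le_rfl (fun x hx => ⟨n, rfl, hx⟩))
      (by
        rintro ξ ξ' h1 h2 x ⟨m, rfl, hx⟩ y ⟨n, rfl, hy⟩
        exact hB2 m n h1 (natCast_lt_omega0 n) x ((hH1 m).1 hx) y ((hH1 n).1 hy))
    rw [← opow_add_one] at h1
    refine h1.mono le_rfl ?_
    rintro x ⟨ξ, -, n, -, hx⟩
    exact mem_iUnion.mpr ⟨n, hx⟩

theorem arrow_finite (k : ℕ) (j : ℕ) :
    Arrow (k + 1) (ω ^ (1 + ((j * (k + 1) : ℕ) : Od))) (ω ^ (j : Od)) := by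
  induction j with
  | zero =>
    intro G
    right
    refine ⟨{0}, ?_, ?_, fun _ => 0, ?_, fun ξ _ => rfl⟩
    · rintro x rfl
      exact opow_pos _ omega0_pos
    · rintro x rfl y rfl
      exact G.irrefl
    · intro a ha b hb hab
      rw [Nat.cast_zero, opow_zero] at ha hb
      have ha' : a = 0 := Order.lt_one_iff.mp ha
      have hb' : b = 0 := Order.lt_one_iff.mp hb
      rw [ha', hb'] at hab
      exact absurd hab (lt_irrefl _)
  | succ j ih =>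
    have h1 := arrow_step (by simp) ih
    have e1 : 1 + ((j * (k + 1) : ℕ) : Od) + ((k + 1 : ℕ) : Od) =
        1 + (((j + 1) * (k + 1) : ℕ) : Od) := by
      rw [add_assoc]
      congr 1
      rw [← Nat.cast_add]
      congr 1
      ring
    rw [e1] at h1
    rw [Nat.cast_succ]
    exact h1

theorem arrow_iter {k : ℕ} {p q : Od} (hp : p ≠ 0) (h : Arrow (k + 1) (ω ^ p) (ω ^ q)) (j : ℕ) :
    Arrow (k + 1) (ω ^ (p + ((j * (k + 1) : ℕ) : Od))) (ω ^ (q + (j : Od))) := by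
  induction j with
  | zero => simpa using h
  | succ j ih =>
    have h1 := arrow_step (by
      intro h0
      exact hp (by
        have : p ≤ p + ((j * (k + 1) : ℕ) : Od) := by simp
        rw [h0] at this
        exact le_antisymm this bot_le)) ih
    have e1 : p + ((j * (k + 1) : ℕ) : Od) + ((k + 1 : ℕ) : Od) =
        p + (((j + 1) * (k + 1) : ℕ) : Od) := by
      rw [add_assoc]
      congr 1
      rw [← Nat.cast_add]
      congr 1
      ring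
    rw [e1, add_assoc] at h1
    rw [Nat.cast_succ]
    exact h1

theorem glue {ι : Type 1} [LinearOrder ι] [WellFoundedLT ι] (C : Set ι) (γ : ι → Od) (δ : Od)
    (H : ι → Set Od) (hH : ∀ i ∈ C, E (γ i) (H i))
    (hlt : ∀ i ∈ C, ∀ j ∈ C, i < j → ∀ x ∈ H i, ∀ y ∈ H j, x < y)
    (hcov : ∀ β < δ, ∃ i ∈ C, β < γ i) : E δ {x | ∃ i ∈ C, x ∈ H i} := by
  choose! f hf hfH using hH
  rcases isEmpty_or_nonempty ι with hemp | hne0
  · refine ⟨id, strictMono_id.strictMonoOn _, ?_⟩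
    intro ξ hξ
    obtain ⟨i, -⟩ := hcov ξ hξ
    exact hemp.elim i
  have h1 : ∀ β, β < δ → ∃ i, (i ∈ C ∧ β < γ i) ∧ ∀ j, (j ∈ C ∧ β < γ j) → i ≤ j := by
    intro β hβ
    have hne : {i | i ∈ C ∧ β < γ i}.Nonempty := by
      obtain ⟨i, hi⟩ := hcov β hβ
      exact ⟨i, hi⟩
    refine ⟨(wellFounded_lt (α := ι)).min _ hne, (wellFounded_lt (α := ι)).min_mem _ hne, ?_⟩
    intro j hj
    exact not_lt.mp ((wellFounded_lt (α := ι)).not_lt_min _ hj)
  choose! ν hν1 hν2 using h1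
  refine ⟨fun β => f (ν β) β, ?_, ?_⟩
  · intro a ha b hb hab
    have hle : ν a ≤ ν b := hν2 a ha (ν b) ⟨(hν1 b hb).1, hab.trans (hν1 b hb).2⟩
    rcases hle.eq_or_lt with h | h
    · simp only
      rw [h]
      exact hf _ (hν1 b hb).1 (hab.trans (hν1 b hb).2) (hν1 b hb).2 hab
    · exact hlt _ (hν1 a ha).1 _ (hν1 b hb).1 h _ (hfH _ (hν1 a ha).1 _ (hν1 a ha).2) _
        (hfH _ (hν1 b hb).1 _ (hν1 b hb).2)
  · intro β hβ
    exact ⟨ν β, (hν1 β hβ).1, hfH _ (hν1 β hβ).1 _ (hν1 β hβ).2⟩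

theorem below_lim {k : ℕ} {η : Od} (hη : IsSuccLimit η)
    (ih : ∀ η' < η, IsSuccLimit η' → Arrow (k + 1) (ω ^ η') (ω ^ η')) :
    ∀ g < η, ∃ p < η, p ≠ 0 ∧ Arrow (k + 1) (ω ^ p) (ω ^ g) := by
  intro g
  induction g using Ordinal.limitRecOn with
  | zero =>
    intro h
    refine ⟨1, ?_, one_ne_zero, ?_⟩
    · have := hη.add_one_lt h
      simpa using this
    · have := arrow_finite k 0
      simpa using this
  | add_one g ihg =>
    intro h
    obtain ⟨p, h1, h2, h3⟩ := ihg ((lt_add_one g).trans h)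
    refine ⟨p + ((k + 1 : ℕ) : Od), ?_, ?_, arrow_step h2 h3⟩
    · have key : ∀ n : ℕ, p + (n : Od) < η := by
        intro n
        induction n with
        | zero => simpa using h1
        | succ n ihn =>
          rw [Nat.cast_succ, ← add_assoc]
          exact hη.add_one_lt ihn
      exact key _
    · intro h0
      apply h2
      have : p ≤ p + ((k + 1 : ℕ) : Od) := by simp
      rw [h0] at this
      exact le_antisymm this bot_le
  | limit g hg _ =>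
    intro h
    refine ⟨g, h, ?_, ih g h hg⟩
    rintro rfl
    exact hg.1 isMin_bot

/-- Limit base, countable cofinality. -/
theorem base_cof {k : ℕ} {η : Od} (hη : IsSuccLimit η)
    (ih : ∀ η' < η, IsSuccLimit η' → Arrow (k + 1) (ω ^ η') (ω ^ η'))
    (c : ℕ → Od) (hc : ∀ n, c n < η) (hc' : ∀ b < η, ∃ n, b ≤ c n) :
    Arrow (k + 1) (ω ^ η) (ω ^ η) := by
  intro G
  by_cases hM : Mat G (k + 1) (Iio (ω ^ η))
  · exact Or.inl hM
  right
  have h1 := below_lim hη ih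
  choose! p hp1 hp2 hp3 using h1
  let d : ℕ → Od := fun n => Nat.rec 0 (fun n x => x + ω ^ (p (c n)) * ω ^ (k : Od)) n
  have hd : ∀ n, d (n + 1) = d n + ω ^ (p (c n)) * ω ^ (k : Od) := fun n => rfl
  have hpk : ∀ n, ω ^ (p (c n)) * ω ^ (k : Od) < ω ^ η := by
    intro n
    rw [← opow_add]
    apply (opow_lt_opow_iff_right one_lt_omega0).mpr
    have key : ∀ m : ℕ, p (c n) + (m : Od) < η := by
      intro m
      induction m with
      | zero => simpa using hp1 _ (hc n)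
      | succ m ihm =>
        rw [Nat.cast_succ, ← add_assoc]
        exact hη.add_one_lt ihm
    exact key _
  have hdlt : ∀ n, d n < ω ^ η := by
    intro n
    induction n with
    | zero => exact opow_pos _ omega0_pos
    | succ n ihn =>
      rw [hd]
      exact isPrincipal_add_omega0_opow η ihn (hpk n)
  have hdmono : Monotone d := by
    apply monotone_nat_of_le_succ
    intro n
    rw [hd]
    simp
  let C : ℕ → Set Od := fun n => Ico (d n) (d (n + 1))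
  have hClt : ∀ m n, m < n → ∀ x ∈ C m, ∀ y ∈ C n, x < y := by
    intro m n hmn x hx y hy
    exact hx.2.trans_le ((hdmono (Nat.succ_le_of_lt hmn)).trans hy.1)
  obtain ⟨H, hH1, hH2⟩ := seq_lemma G k (X := Iio (ω ^ η)) (b := ω ^ η) le_rfl C
    (fun n => p (c n)) (fun n => ω ^ (c n)) (fun n => hp2 _ (hc n))
    (fun n x hx => hx.2.trans (hdlt (n + 1)))
    (by
      intro n
      refine ⟨fun ξ => d n + ξ, ?_, ?_⟩
      · intro a ha b hb hab
        simpa using hab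
      · intro ξ hξ
        refine ⟨by simp, ?_⟩
        rw [hd]
        simpa using hξ)
    hClt (fun n => hp3 _ (hc n)) hM
  refine ⟨⋃ n, H n, ?_, ?_, ?_⟩
  · exact iUnion_subset fun n => (hH1 n).1.trans (fun x hx => hx.2.trans (hdlt (n + 1)))
  · intro x hx y hy
    obtain ⟨m, hx⟩ := mem_iUnion.mp hx
    obtain ⟨n, hy⟩ := mem_iUnion.mp hy
    exact hH2 m n x hx y hy
  · have h2 := glue (ι := ULift.{1} ℕ) Set.univ (fun i => ω ^ (c i.down)) (ω ^ η)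
      (fun i => H i.down) (fun i _ => (hH1 i.down).2)
      (by
        intro i _ j _ hij x hx y hy
        exact hClt i.down j.down hij x ((hH1 _).1 hx) y ((hH1 _).1 hy))
      (by
        intro β hβ
        obtain ⟨b, hb, hβb⟩ := (lt_opow_of_isSuccLimit omega0_ne_zero hη).mp hβ
        obtain ⟨n, hn⟩ := hc' b hb
        exact ⟨⟨n⟩, mem_univ _, hβb.trans_le (opow_le_opow_right omega0_pos hn)⟩)
    refine h2.mono le_rfl ?_
    rintro x ⟨i, -, hx⟩
    exact mem_iUnion.mpr ⟨i.down, hx⟩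

theorem bdd_seq {η : Od} (hη : IsSuccLimit η)
    (hun : ∀ c : ℕ → Od, (∀ n, c n < η) → ∃ b < η, ∀ n, c n < b)
    (x : ℕ → Od) (hx : ∀ n, x n < ω ^ η) : ∃ b < ω ^ η, ∀ n, x n < b := by
  have h1 : ∀ n, ∃ c < η, x n < ω ^ c := fun n =>
    (lt_opow_of_isSuccLimit omega0_ne_zero hη).mp (hx n)
  choose c hc hxc using h1
  obtain ⟨b, hb, hcb⟩ := hun c hc
  refine ⟨ω ^ b, (opow_lt_opow_iff_right one_lt_omega0).mpr hb, fun n => ?_⟩
  exact (hxc n).trans_le (opow_le_opow_right omega0_pos (hcb n).le)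

theorem bdd_set {η : Od} (hη : IsSuccLimit η)
    (hun : ∀ c : ℕ → Od, (∀ n, c n < η) → ∃ b < η, ∀ n, c n < b)
    (S : Set Od) (hS : S.Countable) (hSα : ∀ x ∈ S, x < ω ^ η) :
    ∃ b < ω ^ η, ∀ x ∈ S, x < b := by
  rcases S.eq_empty_or_nonempty with h | h
  · refine ⟨0, opow_pos _ omega0_pos, ?_⟩
    intro x hx
    rw [h] at hx
    exact absurd hx (notMem_empty _)
  · obtain ⟨f, hf⟩ := hS.exists_eq_range h
    obtain ⟨b, hb, hfb⟩ := bdd_seq hη hun f (fun n => hSα _ (by rw [hf]; exact ⟨n, rfl⟩))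
    refine ⟨b, hb, ?_⟩
    intro x hx
    rw [hf] at hx
    obtain ⟨n, rfl⟩ := hx
    exact hfb n

/-- A set not containing type `ω ^ k` is countable. -/
theorem countable_of_not_E (k : ℕ) {X : Set Od} {b : Od} (hX : X ⊆ Iio b)
    (h : ¬ E (ω ^ (k : Od)) X) : X.Countable := by
  rcases dich (ω ^ (k : Od)) hX with h1 | ⟨ξ, hξ, f, hf⟩
  · exact absurd h1 h
  · refine Set.Countable.mono hf (Set.Countable.image ?_ f)
    exact (countable_Iio_opow k).mono (Iio_subset_Iio hξ.le)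

theorem bad_bdd {k : ℕ} {η : Od} (hη : IsSuccLimit η)
    (hun : ∀ c : ℕ → Od, (∀ n, c n < η) → ∃ b < η, ∀ n, c n < b)
    (G : SimpleGraph Od) (hM : ¬ Mat G (k + 1) (Iio (ω ^ η))) :
    ∃ c < ω ^ η, ∀ a, a < ω ^ η → c ≤ a → ∃ b < ω ^ η, ∀ y < ω ^ η, G.Adj a y → y < b := by
  let Bad : Set Od := {a | a < ω ^ η ∧ ∀ b < ω ^ η, ∃ y < ω ^ η, G.Adj a y ∧ b ≤ y}
  have hBad : Bad.Countable := by
    apply countable_of_not_E (k + 1) (b := ω ^ η) (fun a ha => ha.1)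
    rintro ⟨f, hf, hfB⟩
    apply hM
    obtain ⟨c, hc, hfc⟩ := bdd_set hη hun (f '' (Iio (ω ^ ((k + 1 : ℕ) : Od))))
      ((countable_Iio_opow (k + 1)).image f) (by
        rintro _ ⟨ξ, hξ, rfl⟩
        exact (hfB ξ hξ).1)
    have hne : (Iio (ω ^ ((k + 1 : ℕ) : Od))).Nonempty := ⟨0, opow_pos _ omega0_pos⟩
    obtain ⟨e, he⟩ := (countable_Iio_opow (k + 1)).exists_eq_range hne
    have he' : ∀ n, e n < ω ^ ((k + 1 : ℕ) : Od) := by
      intro n
      have : e n ∈ Iio (ω ^ ((k + 1 : ℕ) : Od)) := by rw [he]; exact ⟨_, rfl⟩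
      exact this
    obtain ⟨F, hF1, hF2⟩ := greedy
      (fun n (y : Od) => c ≤ y ∧ y < ω ^ η ∧ G.Adj (f (e n)) y) (fun x y => x ≠ y) (by
        intro n s hs
        by_contra hcon
        push Not at hcon
        obtain ⟨b, hb, hsb⟩ := bdd_set hη hun (s ∩ Iio (ω ^ η)) (hs.inter_of_left _).countable
          (fun x hx => hx.2)
        obtain ⟨y, hy, hadj, hby⟩ := (hfB (e n) (he' n)).2 (max b c) (max_lt hb hc)
        obtain ⟨x, hx, hxy⟩ := hcon y ⟨(le_max_right _ _).trans hby, hy, hadj⟩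
        rw [hxy] at hx
        exact absurd (hsb y ⟨hx, hy⟩) (not_lt.mpr ((le_max_left _ _).trans hby)))
    have hinj : ∀ m n, F m = F n → m = n := by
      intro m n h
      rcases lt_trichotomy m n with h1 | h1 | h1
      · exact absurd h (hF2 m n h1)
      · exact h1
      · exact absurd h.symm (hF2 n m h1)
    have hn : ∀ ξ < ω ^ ((k + 1 : ℕ) : Od), ∃ n, e n = ξ := by
      intro ξ hξ
      have : ξ ∈ range e := by rw [← he]; exact hξ
      exact this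
    choose! ν hν using hn
    refine ⟨f, fun ξ => F (ν ξ), hf, fun ξ hξ => (hfB ξ hξ).1, fun ξ hξ => (hF1 _).2.1, ?_, ?_, ?_⟩
    · intro ξ hξ ζ hζ h
      have := hinj _ _ h
      rw [← hν ξ hξ, ← hν ζ hζ, this]
    · intro ξ hξ
      have := (hF1 (ν ξ)).2.2
      rw [hν ξ hξ] at this
      exact this
    · intro ξ hξ ζ hζ
      exact (hfc _ ⟨ξ, hξ, rfl⟩).trans_le (hF1 _).1
  obtain ⟨c, hc, hBc⟩ := bdd_set hη hun Bad hBad (fun a ha => ha.1)
  refine ⟨c, hc, ?_⟩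
  intro a ha hca
  by_contra hcon
  push Not at hcon
  exact absurd (hBc a ⟨ha, hcon⟩) (not_lt.mpr hca)

theorem nbr_bdd {k : ℕ} {η : Od} (hη : IsSuccLimit η)
    (hun : ∀ c : ℕ → Od, (∀ n, c n < η) → ∃ b < η, ∀ n, c n < b)
    (G : SimpleGraph Od) (hM : ¬ Mat G (k + 1) (Iio (ω ^ η))) {c : Od}
    (hc : ∀ a, a < ω ^ η → c ≤ a → ∃ b < ω ^ η, ∀ y < ω ^ η, G.Adj a y → y < b)
    (x : Od) (hx : x < ω ^ η) :
    ∃ b < ω ^ η, ∀ a, c ≤ a → a ≤ x → ∀ y < ω ^ η, G.Adj a y → y < b := by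
  let 𝓜 : Set (Set (Od × Od)) := {M | (∀ p ∈ M, c ≤ p.1 ∧ p.1 ≤ x ∧ x < p.2 ∧ p.2 < ω ^ η ∧
    G.Adj p.1 p.2) ∧ ∀ p ∈ M, ∀ q ∈ M, (p.1 = q.1 ∨ p.2 = q.2) → p = q}
  obtain ⟨M, hMmax⟩ := zorn_subset 𝓜 (by
    intro 𝒞 h𝒞 hch
    refine ⟨⋃₀ 𝒞, ⟨?_, ?_⟩, fun s hs => subset_sUnion_of_mem hs⟩
    · rintro p ⟨s, hs, hp⟩
      exact (h𝒞 hs).1 p hp
    · rintro p ⟨s, hs, hp⟩ q ⟨t, ht, hq⟩ hpq
      rcases hch.total hs ht with h | h
      · exact (h𝒞 ht).2 p (h hp) q hq hpq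
      · exact (h𝒞 hs).2 p hp q (h hq) hpq)
  have hM1 := hMmax.prop
  have hcount : (Prod.fst '' M).Countable := by
    apply countable_of_not_E (k + 1) (b := ω ^ η)
    · rintro _ ⟨p, hp, rfl⟩
      exact (hM1.1 p hp).2.1.trans_lt hx
    · rintro ⟨f, hf, hfM⟩
      apply hM
      choose! g hg1 hg2 using hfM
      refine ⟨f, fun ξ => (g ξ).2, hf, ?_, ?_, ?_, ?_, ?_⟩
      · intro ξ hξ
        rw [← hg2 ξ hξ]
        exact (hM1.1 _ (hg1 ξ hξ)).2.1.trans_lt hx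
      · intro ξ hξ
        exact (hM1.1 _ (hg1 ξ hξ)).2.2.2.1
      · intro ξ hξ ζ hζ h
        have h1 := hM1.2 _ (hg1 ξ hξ) _ (hg1 ζ hζ) (Or.inr h)
        apply hf.injOn hξ hζ
        rw [← hg2 ξ hξ, ← hg2 ζ hζ, h1]
      · intro ξ hξ
        have := (hM1.1 _ (hg1 ξ hξ)).2.2.2.2
        rw [hg2 ξ hξ] at this
        exact this
      · intro ξ hξ ζ hζ
        have h1 := (hM1.1 _ (hg1 ξ hξ)).2.1
        rw [hg2 ξ hξ] at h1
        exact h1.trans_lt (hM1.1 _ (hg1 ζ hζ)).2.2.1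
  have hMc : M.Countable := by
    have hinj : InjOn Prod.fst M := by
      intro p hp q hq h
      exact hM1.2 p hp q hq (Or.inl h)
    exact countable_of_injective_of_countable_image hinj hcount
  choose! N hN1 hN2 using hc
  obtain ⟨b1, hb1, hb1'⟩ := bdd_set hη hun (N '' (Prod.fst '' M)) (hcount.image N) (by
    rintro _ ⟨_, ⟨p, hp, rfl⟩, rfl⟩
    exact hN1 _ ((hM1.1 p hp).2.1.trans_lt hx) (hM1.1 p hp).1)
  obtain ⟨b2, hb2, hb2'⟩ := bdd_set hη hun (Prod.snd '' M) (hMc.image _) (by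
    rintro _ ⟨p, hp, rfl⟩
    exact (hM1.1 p hp).2.2.2.1)
  have hlim : IsSuccLimit (ω ^ η) := isSuccLimit_opow one_lt_omega0 hη
  refine ⟨max (max b1 b2) (x + 1), max_lt (max_lt hb1 hb2) (hlim.add_one_lt hx), ?_⟩
  intro a hca hax y hy hadj
  by_contra hcon
  rw [not_lt, max_le_iff, max_le_iff] at hcon
  obtain ⟨⟨h1, h2⟩, h3⟩ := hcon
  have hxy : x < y := (lt_add_one x).trans_le h3
  by_cases h4 : a ∈ Prod.fst '' M
  · have h5 := hN2 a (hax.trans_lt hx) hca y hy hadj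
    have h6 := hb1' (N a) ⟨a, h4, rfl⟩
    exact absurd (h5.trans h6) (not_lt.mpr h1)
  by_cases h5 : y ∈ Prod.snd '' M
  · exact absurd (hb2' y h5) (not_lt.mpr h2)
  have hins : insert (a, y) M ∈ 𝓜 := by
    refine ⟨?_, ?_⟩
    · rintro p (rfl | hp)
      · exact ⟨hca, hax, hxy, hy, hadj⟩
      · exact hM1.1 p hp
    · rintro p (rfl | hp) q (rfl | hq) hpq
      · rfl
      · exfalso
        rcases hpq with h | h
        · exact h4 ⟨q, hq, h.symm⟩
        · exact h5 ⟨q, hq, h.symm⟩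
      · exfalso
        rcases hpq with h | h
        · exact h4 ⟨p, hp, h⟩
        · exact h5 ⟨p, hp, h⟩
      · exact hM1.2 p hp q hq hpq
  have h6 := hMmax.le_of_ge hins (subset_insert _ _)
  exact h4 ⟨(a, y), h6 (mem_insert _ _), rfl⟩

/-- Limit base, uncountable cofinality. -/
theorem base_unc {k : ℕ} {η : Od} (hη : IsSuccLimit η)
    (ih : ∀ η' < η, IsSuccLimit η' → Arrow (k + 1) (ω ^ η') (ω ^ η'))
    (hun : ∀ c : ℕ → Od, (∀ n, c n < η) → ∃ b < η, ∀ n, c n < b) :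
    Arrow (k + 1) (ω ^ η) (ω ^ η) := by
  intro G
  by_cases hM : Mat G (k + 1) (Iio (ω ^ η))
  · exact Or.inl hM
  right
  have hlow := below_lim hη ih
  have hlim : IsSuccLimit (ω ^ η) := isSuccLimit_opow one_lt_omega0 hη
  obtain ⟨c₀, hc₀, hc₀'⟩ := bad_bdd hη hun G hM
  have hnb := nbr_bdd hη hun G hM hc₀'
  let SP : Od → Set Od := fun x => {p | p ≠ 0 ∧ ∃ g : Od, x < ω ^ g ∧ Arrow (k + 1) (ω ^ p) (ω ^ g)}
  let P : Od → Od := fun x => sInf (SP x)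
  have hSP : ∀ x < ω ^ η, ∃ p < η, p ∈ SP x := by
    intro x hx
    obtain ⟨g, hg, hxg⟩ := (lt_opow_of_isSuccLimit omega0_ne_zero hη).mp hx
    obtain ⟨p, hp1, hp2, hp3⟩ := hlow g hg
    exact ⟨p, hp1, hp2, g, hxg, hp3⟩
  have hPmem : ∀ x < ω ^ η, P x ∈ SP x := by
    intro x hx
    obtain ⟨p, -, hp⟩ := hSP x hx
    exact csInf_mem ⟨p, hp⟩
  have hPlt : ∀ x < ω ^ η, P x < η := by
    intro x hx
    obtain ⟨p, hp1, hp⟩ := hSP x hx
    exact (csInf_le' hp).trans_lt hp1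
  have hPmono : ∀ x y, x ≤ y → y < ω ^ η → P x ≤ P y := by
    intro x y hxy hy
    obtain ⟨h1, g, h2, h3⟩ := hPmem y hy
    exact csInf_le' ⟨h1, g, hxy.trans_lt h2, h3⟩
  let SB : Od → Set Od := fun x => {b | ∀ a, c₀ ≤ a → a ≤ x → ∀ y < ω ^ η, G.Adj a y → y < b}
  let β : Od → Od := fun x => sInf (SB x)
  have hβmem : ∀ x < ω ^ η, β x ∈ SB x := by
    intro x hx
    obtain ⟨b, -, hb⟩ := hnb x hx
    exact csInf_mem ⟨b, hb⟩
  have hβlt : ∀ x < ω ^ η, β x < ω ^ η := by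
    intro x hx
    obtain ⟨b, hb1, hb⟩ := hnb x hx
    exact (csInf_le' (show b ∈ SB x from hb)).trans_lt hb1
  have hβmono : ∀ x y, x ≤ y → y < ω ^ η → β x ≤ β y := by
    intro x y hxy hy
    apply csInf_le' (show β y ∈ SB x from _)
    intro a h1 h2
    exact hβmem y hy a h1 (h2.trans hxy)
  let B : Od → Od := fun x => max (β x) (x + ω ^ (P x))
  have hBlt : ∀ x < ω ^ η, B x < ω ^ η := by
    intro x hx
    refine max_lt (hβlt x hx) ?_
    exact isPrincipal_add_omega0_opow η hx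
      ((opow_lt_opow_iff_right one_lt_omega0).mpr (hPlt x hx))
  have hBmono : ∀ x y, x ≤ y → y < ω ^ η → B x ≤ B y := by
    intro x y hxy hy
    apply max_le_max (hβmono x y hxy hy)
    exact add_le_add hxy (opow_le_opow_right omega0_pos (hPmono x y hxy hy))
  let C : Set Od := {c | c < ω ^ η ∧ c₀ ≤ c ∧ ∀ x < c, B x ≤ c}
  have hCunb : ∀ b < ω ^ η, ∃ c ∈ C, b ≤ c := by
    intro b hb
    let s : ℕ → Od := fun n => Nat.rec (max b c₀) (fun _ x => max x (B x)) n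
    have hs : ∀ n, s (n + 1) = max (s n) (B (s n)) := fun n => rfl
    have hslt : ∀ n, s n < ω ^ η := by
      intro n
      induction n with
      | zero => exact max_lt hb hc₀
      | succ n ihn =>
        rw [hs]
        exact max_lt ihn (hBlt _ ihn)
    obtain ⟨u, hu, hsu⟩ := bdd_seq hη hun s hslt
    let SU : Set Od := {u | ∀ n, s n ≤ u}
    have hu' : u ∈ SU := fun n => (hsu n).le
    have hmem : sInf SU ∈ SU := csInf_mem ⟨u, hu'⟩
    refine ⟨sInf SU, ⟨(csInf_le' hu').trans_lt hu, (le_max_right _ _).trans (hmem 0), ?_⟩,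
      (le_max_left _ _).trans (hmem 0)⟩
    intro x hx
    have hx' : ∃ n, x < s n := by
      rcases Classical.em (∃ n, x < s n) with h | hcon
      · exact h
      · exfalso
        push Not at hcon
        exact absurd (csInf_le' (show x ∈ SU from hcon)) (not_le.mpr hx)
    obtain ⟨n, hn⟩ := hx'
    calc B x ≤ B (s n) := hBmono _ _ hn.le (hslt n)
      _ ≤ s (n + 1) := by rw [hs]; exact le_max_right _ _
      _ ≤ sInf SU := hmem (n + 1)
  have hD : ∀ c ∈ C, ∃ g : Od, c < ω ^ g ∧ ∃ H ⊆ Ico c (c + ω ^ (P c)),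
      (∀ x ∈ H, ∀ y ∈ H, ¬ G.Adj x y) ∧ E (ω ^ g) H := by
    intro c hc
    obtain ⟨h1, g, h2, h3⟩ := hPmem c hc.1
    refine ⟨g, h2, ?_⟩
    have hE : E (ω ^ (P c)) (Ico c (c + ω ^ (P c))) := by
      refine ⟨fun ξ => c + ξ, ?_, ?_⟩
      · intro a ha b hb hab
        simpa using hab
      · intro ξ hξ
        refine ⟨by simp, ?_⟩
        simpa using hξ
    rcases arrow_apply h3 G hE with h | h
    · exfalso
      apply hM
      refine h.mono ?_
      intro x hx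
      refine lt_of_lt_of_le hx.2 ?_
      exact (le_max_right _ _).trans (hBlt c hc.1).le
    · exact h
  choose! g hg1 H hH1 hH2 hH3 using hD
  have hltH : ∀ c ∈ C, ∀ c' ∈ C, c < c' → ∀ x ∈ H c, x < c' := by
    intro c hc c' hc' hcc x hx
    refine lt_of_lt_of_le (hH1 c hc hx).2 ?_
    exact (le_max_right _ _).trans (hc'.2.2 c hcc)
  have key : ∀ c ∈ C, ∀ c' ∈ C, c < c' → ∀ x ∈ H c, ∀ y ∈ H c', ¬ G.Adj x y := by
    intro c hc c' hc' hcc x hx y hy hadj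
    have hxc' := hltH c hc c' hc' hcc x hx
    have hyα : y < ω ^ η := by
      refine lt_of_lt_of_le (hH1 c' hc' hy).2 ?_
      exact (le_max_right _ _).trans (hBlt c' hc'.1).le
    have h1 := hβmem x (hxc'.trans hc'.1) x (hc.2.1.trans (hH1 c hc hx).1) le_rfl y hyα hadj
    have h2 : y < c' := h1.trans_le ((le_max_left _ _).trans (hc'.2.2 x hxc'))
    exact absurd (hH1 c' hc' hy).1 (not_le.mpr h2)
  refine ⟨{x | ∃ c ∈ C, x ∈ H c}, ?_, ?_, ?_⟩
  · rintro x ⟨c, hc, hx⟩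
    refine lt_of_lt_of_le (hH1 c hc hx).2 ?_
    exact (le_max_right _ _).trans (hBlt c hc.1).le
  · rintro x ⟨c, hc, hx⟩ y ⟨c', hc', hy⟩ hadj
    rcases lt_trichotomy c c' with h | h | h
    · exact key c hc c' hc' h x hx y hy hadj
    · subst h
      exact hH2 c hc x hx y hy hadj
    · exact key c' hc' c hc h y hy x hx hadj.symm
  · apply glue C (fun c => ω ^ (g c)) (ω ^ η) H hH3
    · intro c hc c' hc' hcc x hx y hy
      exact (hltH c hc c' hc' hcc x hx).trans_le (hH1 c' hc' hy).1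
    · intro b hb
      obtain ⟨c, hc, hbc⟩ := hCunb b hb
      exact ⟨c, hc, hbc.trans_lt (hg1 c hc)⟩

theorem base (k : ℕ) (η : Od) (hη : IsSuccLimit η) : Arrow (k + 1) (ω ^ η) (ω ^ η) := by
  induction η using WellFoundedLT.induction with
  | ind η ih =>
    have ih' : ∀ η' < η, IsSuccLimit η' → Arrow (k + 1) (ω ^ η') (ω ^ η') :=
      fun η' h1 h2 => ih η' h1 h2
    by_cases h : ∀ c : ℕ → Od, (∀ n, c n < η) → ∃ b < η, ∀ n, c n < b
    · exact base_unc hη ih' h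
    · push Not at h
      obtain ⟨c, hc1, hc2⟩ := h
      exact base_cof hη ih' c hc1 hc2

theorem ordIso_of_E {γ : Od} {f : Od → Od} (hf : StrictMonoOn f (Iio γ)) :
    Nonempty (f '' (Iio γ) ≃o Iio γ) :=
  ⟨(hf.orderIso f (Iio γ)).symm⟩

/-- For j≥1, k≥2 and η a limit ordinal, every graph on ω^(η+jk) has an independent set of order type ω^(η+j) or a matching from A to B with A entirely below B and A of order type ω^k. -/
theorem result :
    ∀ j k : ℕ, 0 < j → 2 ≤ k → ∀ η : Ordinal.{0}, Order.IsSuccLimit η →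
      ∀ G : SimpleGraph Ordinal.{0},
        (∃ S : Set Ordinal.{0},
            S ⊆ Set.Iio (Ordinal.omega0 ^ (η + ((j * k : ℕ) : Ordinal.{0}))) ∧
            Nonempty (S ≃o Set.Iio (Ordinal.omega0 ^ (η + ((j : ℕ) : Ordinal.{0})))) ∧
            S.Pairwise (fun x y => ¬ G.Adj x y)) ∨
        (∃ A B : Set Ordinal.{0},
            A ⊆ Set.Iio (Ordinal.omega0 ^ (η + ((j * k : ℕ) : Ordinal.{0}))) ∧
            B ⊆ Set.Iio (Ordinal.omega0 ^ (η + ((j * k : ℕ) : Ordinal.{0}))) ∧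
            (∀ a ∈ A, ∀ b ∈ B, a < b) ∧
            Nonempty (A ≃o Set.Iio (Ordinal.omega0 ^ ((k : ℕ) : Ordinal.{0}))) ∧
            ∃ f : A ≃ B, ∀ a : A, G.Adj (a : Ordinal.{0}) (f a : Ordinal.{0})) := by
  intro j k hj hk η hη G
  obtain ⟨k, rfl⟩ : ∃ k', k = k' + 1 := ⟨k - 1, by omega⟩
  have hη0 : η ≠ 0 := by
    rintro rfl
    exact hη.1 isMin_bot
  rcases arrow_iter hη0 (base k η hη) j G with h | h
  · right
    obtain ⟨f, m, h1, h2, h3, h4, h5, h6⟩ := h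
    refine ⟨f '' (Iio (ω ^ ((k + 1 : ℕ) : Od))), m '' (Iio (ω ^ ((k + 1 : ℕ) : Od))), ?_, ?_, ?_,
      ordIso_of_E h1, ?_⟩
    · rintro _ ⟨ξ, hξ, rfl⟩
      exact h2 ξ hξ
    · rintro _ ⟨ξ, hξ, rfl⟩
      exact h3 ξ hξ
    · rintro _ ⟨ξ, hξ, rfl⟩ _ ⟨ζ, hζ, rfl⟩
      exact h6 ξ hξ ζ hζ
    · let e1 := h1.injOn.bijOn_image.equiv
      let e2 := h4.bijOn_image.equiv
      refine ⟨e1.symm.trans e2, ?_⟩
      intro a
      have ha : e1 (e1.symm a) = a := e1.apply_symm_apply a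
      have hE1 : ((e1 (e1.symm a) : _) : Od) = f (e1.symm a) := rfl
      have hE2 : (((e1.symm.trans e2) a : _) : Od) = m (e1.symm a) := rfl
      rw [hE2, ← ha, hE1, ha]
      exact h5 _ (e1.symm a).2
  · left
    obtain ⟨Y, hY1, hY2, f, hf, hfY⟩ := h
    refine ⟨f '' (Iio (ω ^ (η + (j : Od)))), ?_, ordIso_of_E hf, ?_⟩
    · rintro _ ⟨ξ, hξ, rfl⟩
      exact hY1 (hfY ξ hξ)
    · rintro _ ⟨ξ, hξ, rfl⟩ _ ⟨ζ, hζ, rfl⟩ _
      exact hY2 _ (hfY ξ hξ) _ (hfY ζ hζ)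

end Pool.Agent.S09651
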