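import Pool.Statements.S09656
import Pool.Agent.Helper247.Elem.Family
import Pool.Agent.Helper247.Elem.Auto

set_option autoImplicit false
open Pool Pool.MP_b4537c_lc

namespace Pool.Agent.S09656

/-- The negation of the preceding statement: There is a computable procedure that, given two elementary homomorphisms from an n-letter alphabet to words over ℕ, outputs a finite automaton accepting exactly the words on which the two homomorphisms agree. -/
theorem result :
    ¬ (∃ F : List (List ℕ) × List (List ℕ) → List (List ℕ) × List ℕ,
      Computable F ∧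
      ∀ G H : List (List ℕ),
        G.length = H.length →
        (¬ ∃ m : ℕ, m < G.length ∧ ∃ f : Fin G.length → List (Fin m),
            ∃ g : Fin m → List ℕ, ∀ i : Fin G.length, (f i).flatMap g = G.getD i.val []) →
        (¬ ∃ m : ℕ, m < H.length ∧ ∃ f : Fin H.length → List (Fin m),
            ∃ g : Fin m → List ℕ, ∀ i : Fin H.length, (f i).flatMap g = H.getD i.val []) →
        ∀ w : List ℕ, (∀ a ∈ w, a < G.length) →
          (w.foldl (fun q a => ((F (G, H)).1.getD q []).getD a 0) 0 ∈ (F (G, H)).2 ↔
            w.flatMap (fun a => G.getD a []) = w.flatMap (fun a => H.getD a []))) := by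
  rintro ⟨F, hF, hspec⟩
  obtain ⟨J, hJ, hlen, h1, h2, hsol⟩ := Pool.Agent.Helper247.Elem.family
  apply Pool.Agent.Helper247.Univ.u_not_computable
  rw [ComputablePred.computable_iff_re_compl_re']
  refine ⟨Pool.Agent.Helper247.Univ.u_partrec.dom_re, ?_⟩
  have card : ∀ (L : List (List ℕ)),
      (∀ (C : Type) (f : ℕ → List C) (k : C → List ℕ),
        (∀ i, i < L.length → (f i).flatMap k = L.getD i []) →
        ∃ g : Fin L.length → C, Function.Injective g) →
      ¬ ∃ m : ℕ, m < L.length ∧ ∃ f : Fin L.length → List (Fin m),
        ∃ g : Fin m → List ℕ, ∀ i : Fin L.length, (f i).flatMap g = L.getD i.val [] := by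
    rintro L hL ⟨m, hm, f, k, hfk⟩
    obtain ⟨g, hg⟩ := hL (Fin m) (fun i => if h : i < L.length then f ⟨i, h⟩ else []) k (by
      intro i hi
      rw [dif_pos hi]
      exact hfk ⟨i, hi⟩)
    have := Fintype.card_le_of_injective g hg
    simp only [Fintype.card_fin] at this
    omega
  have key : ∀ n, (¬ (Pool.Agent.Helper247.Univ.u n).Dom) ↔
      ∃ Q, Pool.Agent.Helper247.Elem.Auto.Cert (F (J n), (J n).1.length) Q := by
    intro n
    have h := hspec (J n).1 (J n).2 (hlen n) (card _ (h1 n)) (card _ (h2 n))
    have e := Pool.Agent.Helper247.Elem.Auto.cert_iff (F (J n)).1 (F (J n)).2 (J n).1.length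
    rw [← hsol n]
    refine Iff.trans ?_ e.symm
    refine not_congr (exists_congr (fun w => ?_))
    refine and_congr_right (fun _ => and_congr_right (fun hw => ?_))
    exact (h w hw).symm
  have hc : ComputablePred (fun p : ℕ × List ℕ =>
      Pool.Agent.Helper247.Elem.Auto.Cert (F (J p.1), (J p.1).1.length) p.2) := by
    have hp := (Pool.Agent.Helper247.Elem.Auto.cert_primrec).computablePred
    have hJ' : Computable (fun p : ℕ × List ℕ =>
        ((F (J p.1), (J p.1).1.length), p.2)) :=
      Computable.pair (Computable.pair (hF.comp (hJ.comp Computable.fst))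
        (Computable.list_length.comp (Computable.fst.comp (hJ.comp Computable.fst))))
        Computable.snd
    obtain ⟨f, hf, hR⟩ := ComputablePred.computable_iff.1 hp
    refine ComputablePred.computable_iff.2 ⟨fun p => f ((F (J p.1), (J p.1).1.length), p.2),
      hf.comp hJ', ?_⟩
    funext p
    exact congrFun hR ((F (J p.1), (J p.1).1.length), p.2)
  exact (Pool.Agent.Helper247.Elem.Auto.re_exists hc).of_eq (fun n => (key n).symm)

end Pool.Agent.S09656
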