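import Pool.Statements.S09657

set_option autoImplicit false
open FirstOrder FirstOrder.Language
open Pool Pool.MP_b47165_lc

namespace Pool.Agent.S09657

section defs

variable {M : Type} [PartialOrder M] [Language.order.Structure M] [Language.order.OrderedStructure M]

/-- The language of orders with constants for all elements. -/
abbrev LM (M : Type) : FirstOrder.Language.{0, 0} := Language.order[[(Set.univ : Set M)]]

/-- A predicate on assignments is definable with parameters. -/
def Df {α : Type} (P : (α → M) → Prop) : Prop :=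
  ∃ φ : (LM M).Formula α, ∀ v, φ.Realize v ↔ P v

/-- Term functions. -/
def Tm {α : Type} (f : (α → M) → M) : Prop :=
  ∃ t : (LM M).Term α, ∀ v, t.realize v = f v

omit [PartialOrder M] [Language.order.OrderedStructure M] in
theorem Tm.var {α : Type} (a : α) : Tm (fun v : α → M => v a) := ⟨Term.var a, fun _ => rfl⟩

omit [PartialOrder M] [Language.order.OrderedStructure M] in
theorem Tm.const {α : Type} (m : M) : Tm (fun _ : α → M => m) :=
  ⟨(Language.order.con (⟨m, trivial⟩ : (Set.univ : Set M))).term, fun v => by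
    rw [Term.realize_con]⟩

omit [PartialOrder M] [Language.order.OrderedStructure M] in
theorem Tm.lift {α : Type} {f : (α → M) → M} (h : Tm f) :
    Tm (fun w : Option α → M => f (fun a => w (some a))) := by
  obtain ⟨t, ht⟩ := h
  refine ⟨t.relabel some, fun w => ?_⟩
  rw [Term.realize_relabel, ht]
  rfl

theorem Df.le {α : Type} {f g : (α → M) → M} (hf : Tm f) (hg : Tm g) :
    Df (fun v => f v ≤ g v) := by
  obtain ⟨s, hs⟩ := hf
  obtain ⟨t, ht⟩ := hg
  refine ⟨((Language.order.lhomWithConstants (Set.univ : Set M)).onRelation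
    (leSymb : Language.order.Relations 2)).formula₂ s t, fun v => ?_⟩
  rw [Formula.realize_rel₂, LHom.map_onRelation, relMap_leSymb]
  simp [hs, ht]

omit [PartialOrder M] [Language.order.OrderedStructure M] in
theorem Df.eq {α : Type} {f g : (α → M) → M} (hf : Tm f) (hg : Tm g) :
    Df (fun v => f v = g v) := by
  obtain ⟨s, hs⟩ := hf
  obtain ⟨t, ht⟩ := hg
  exact ⟨s.equal t, fun v => by rw [Formula.realize_equal, hs, ht]⟩

omit [PartialOrder M] [Language.order.OrderedStructure M] in
theorem Df.not {α : Type} {P : (α → M) → Prop} (h : Df P) : Df (fun v => ¬ P v) := by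
  obtain ⟨φ, hφ⟩ := h
  exact ⟨φ.not, fun v => by rw [Formula.realize_not, hφ]⟩

omit [PartialOrder M] [Language.order.OrderedStructure M] in
theorem Df.and {α : Type} {P Q : (α → M) → Prop} (hP : Df P) (hQ : Df Q) :
    Df (fun v => P v ∧ Q v) := by
  obtain ⟨φ, hφ⟩ := hP
  obtain ⟨ψ, hψ⟩ := hQ
  exact ⟨φ ⊓ ψ, fun v => by rw [Formula.realize_inf, hφ, hψ]⟩

omit [PartialOrder M] [Language.order.OrderedStructure M] in
theorem Df.congr {α : Type} {P Q : (α → M) → Prop} (hP : Df P) (h : ∀ v, P v ↔ Q v) : Df Q := by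
  obtain ⟨φ, hφ⟩ := hP
  exact ⟨φ, fun v => (hφ v).trans (h v)⟩

omit [PartialOrder M] [Language.order.OrderedStructure M] in
theorem Df.or {α : Type} {P Q : (α → M) → Prop} (hP : Df P) (hQ : Df Q) :
    Df (fun v => P v ∨ Q v) := (hP.not.and hQ.not).not.congr (fun v => by tauto)

omit [PartialOrder M] [Language.order.OrderedStructure M] in
theorem Df.imp {α : Type} {P Q : (α → M) → Prop} (hP : Df P) (hQ : Df Q) :
    Df (fun v => P v → Q v) := (hP.and hQ.not).not.congr (fun v => by tauto)

omit [PartialOrder M] [Language.order.OrderedStructure M] in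
theorem Df.iff {α : Type} {P Q : (α → M) → Prop} (hP : Df P) (hQ : Df Q) :
    Df (fun v => P v ↔ Q v) := ((hP.imp hQ).and (hQ.imp hP)).congr (fun v => by tauto)

omit [PartialOrder M] [Language.order.OrderedStructure M] in
theorem Df.ex {α : Type} {P : (α → M) → M → Prop}
    (h : Df (fun w : Option α → M => P (fun a => w (some a)) (w none))) :
    Df (fun v => ∃ x, P v x) := by
  obtain ⟨φ, hφ⟩ := h
  refine ⟨(φ.relabel (fun o : Option α => o.elim (Sum.inr ()) (fun a => Sum.inl a)) :
    (LM M).Formula (α ⊕ Unit)).iExs Unit, fun v => ?_⟩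
  rw [Formula.realize_iExs]
  constructor
  · rintro ⟨i, hi⟩
    rw [Formula.realize_relabel, hφ] at hi
    exact ⟨i (), hi⟩
  · rintro ⟨x, hx⟩
    refine ⟨fun _ => x, ?_⟩
    rw [Formula.realize_relabel, hφ]
    exact hx

omit [PartialOrder M] [Language.order.OrderedStructure M] in
theorem Df.all {α : Type} {P : (α → M) → M → Prop}
    (h : Df (fun w : Option α → M => P (fun a => w (some a)) (w none))) :
    Df (fun v => ∀ x, P v x) := (Df.ex (P := fun v x => ¬ P v x) h.not).not.congr
      (fun v => by simp)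

theorem Df.lt {α : Type} {f g : (α → M) → M} (hf : Tm f) (hg : Tm g) :
    Df (fun v => f v < g v) :=
  ((Df.le hf hg).and (Df.le hg hf).not).congr (fun v => lt_iff_le_not_ge.symm)

omit [PartialOrder M] [Language.order.OrderedStructure M] in
theorem Df.false {α : Type} : Df (fun _ : α → M => False) :=
  ⟨⊥, fun v => by rw [Formula.realize_bot]⟩

omit [PartialOrder M] [Language.order.OrderedStructure M] in
theorem Df.exFin {α ι : Type} (s : Finset ι) {P : ι → (α → M) → Prop}
    (h : ∀ i, Df (P i)) : Df (fun v => ∃ i ∈ s, P i v) := by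
  classical
  induction s using Finset.induction_on with
  | empty => exact Df.false.congr (fun v => by simp)
  | insert a s _ ih => exact ((h a).or ih).congr (fun v => by simp)

omit [PartialOrder M] [Language.order.OrderedStructure M] in
theorem Df.toDefinable {P : (Fin 2 → M) → Prop} (h : Df P) :
    (Set.univ : Set M).Definable Language.order {v : Fin 2 → M | P v} := by
  obtain ⟨φ, hφ⟩ := h
  refine ⟨φ, ?_⟩
  ext v
  exact (hφ v).symm

end defs

/-! ### The chain -/

/-- The Cantor set with the lexicographic order. -/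
def Cn : Type := Lex (ℕ → Bool)

noncomputable instance : LinearOrder Cn := inferInstanceAs (LinearOrder (Lex (ℕ → Bool)))

instance : CoeFun Cn (fun _ => ℕ → Bool) := ⟨fun x => x⟩

/-- A sequence as a point. -/
def mk (f : ℕ → Bool) : Cn := f

@[simp] theorem mk_apply (f : ℕ → Bool) (i : ℕ) : mk f i = f i := rfl

theorem cn_ext {x y : Cn} (h : ∀ i, x i = y i) : x = y := funext h

theorem cn_lt_iff (x y : Cn) : x < y ↔ ∃ i, (∀ j < i, x j = y j) ∧ x i = false ∧ y i = true := by
  constructor
  · rintro ⟨i, h1, h2⟩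
    refine ⟨i, h1, ?_⟩
    have h3 : x i < y i := h2
    revert h3
    cases x i <;> cases y i <;> simp
  · rintro ⟨i, h1, h2, h3⟩
    refine ⟨i, h1, ?_⟩
    show x i < y i
    rw [h2, h3]
    decide

/-- The point `s 1 0 0 0 ...`. -/
def pt (s : List Bool) : Cn := mk (fun i => (s ++ [true]).getD i false)

/-- The point `s 1 1 1 1 ...`. -/
def tp (s : List Bool) : Cn := mk (fun i => (s ++ [true]).getD i true)

/-- `x` extends `s 1`. -/
def node (s : List Bool) (x : Cn) : Prop :=
  (∀ i < s.length, x i = s.getD i false) ∧ x s.length = true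

theorem pt_lt {s : List Bool} {i : ℕ} (h : i < s.length) : pt s i = s.getD i false := by
  show (s ++ [true]).getD i false = s.getD i false
  simp [List.getD_eq_getElem?_getD, List.getElem?_append_left h]

theorem pt_eq {s : List Bool} : pt s s.length = true := by
  show (s ++ [true]).getD s.length false = true
  simp

theorem pt_gt {s : List Bool} {i : ℕ} (h : s.length < i) : pt s i = false := by
  show (s ++ [true]).getD i false = false
  rw [List.getD_eq_getElem?_getD, List.getElem?_eq_none (by simpa using h)]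
  rfl

theorem tp_lt {s : List Bool} {i : ℕ} (h : i < s.length) : tp s i = s.getD i false := by
  show (s ++ [true]).getD i true = s.getD i false
  rw [List.getD_eq_getElem?_getD, List.getElem?_append_left h, List.getD_eq_getElem?_getD,
    List.getElem?_eq_getElem h]
  rfl

theorem tp_ge {s : List Bool} {i : ℕ} (h : s.length ≤ i) : tp s i = true := by
  show (s ++ [true]).getD i true = true
  rcases h.eq_or_lt with h | h
  · subst h; simp
  · rw [List.getD_eq_getElem?_getD, List.getElem?_eq_none (by simpa using h)]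
    rfl

theorem node_iff (s : List Bool) (x : Cn) : (pt s ≤ x ∧ x ≤ tp s) ↔ node s x := by
  constructor
  · rintro ⟨h1, h2⟩
    rw [← not_lt, cn_lt_iff] at h1 h2
    push Not at h1 h2
    have h3 : ∀ i, i < s.length → x i = s.getD i false := by
      intro i
      induction i using Nat.strong_induction_on with
      | _ i ih =>
        intro hi
        have h4 := h1 i (fun j hj => by rw [ih j hj (by omega), pt_lt (by omega)])
        have h5 := h2 i (fun j hj => by rw [ih j hj (by omega), tp_lt (by omega)])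
        rw [pt_lt hi] at h4
        rw [tp_lt hi] at h5
        revert h4 h5
        cases x i <;> cases s.getD i false <;> simp
    refine ⟨h3, ?_⟩
    have h4 := h1 s.length (fun j hj => by rw [h3 j hj, pt_lt hj])
    rw [pt_eq] at h4
    revert h4
    cases x s.length <;> simp
  · rintro ⟨h1, h2⟩
    constructor
    · rw [← not_lt, cn_lt_iff]
      rintro ⟨i, h3, h4, h5⟩
      rcases lt_trichotomy i s.length with h | h | h
      · rw [h1 i h] at h4
        rw [pt_lt h, h4] at h5
        exact absurd h5 (by simp)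
      · subst h
        rw [h2] at h4
        exact absurd h4 (by simp)
      · rw [pt_gt h] at h5
        exact absurd h5 (by simp)
    · rw [← not_lt, cn_lt_iff]
      rintro ⟨i, h3, h4, h5⟩
      rcases lt_or_ge i s.length with h | h
      · rw [tp_lt h] at h4
        rw [h1 i h, h4] at h5
        exact absurd h5 (by simp)
      · rw [tp_ge h] at h4
        exact absurd h4 (by simp)

theorem node_pt (s : List Bool) : node s (pt s) := ⟨fun i hi => pt_lt hi, pt_eq⟩

theorem pt_le_tp (s : List Bool) : pt s ≤ tp s := ((node_iff s (pt s)).2 (node_pt s)).2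

theorem node_unique {s t : List Bool} {x : Cn} (hs : node s x) (ht : node t x)
    (h : s.length = t.length) : s = t := by
  apply List.ext_getElem h
  intro i h1 h2
  have h3 := hs.1 i h1
  have h4 := ht.1 i h2
  rw [h3] at h4
  simpa [List.getD_eq_getElem?_getD, h1, h2] using h4

theorem exists_node (x : Cn) (k : ℕ) (h : x k = true) : ∃ s : List Bool, s.length = k ∧ node s x := by
  refine ⟨List.ofFn (fun i : Fin k => x i), by simp, ?_, by simpa using h⟩
  intro i hi
  rw [List.length_ofFn] at hi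
  simp [List.getD_eq_getElem?_getD, hi]

theorem pt_injective {s t : List Bool} (h : pt s = pt t) : s = t := by
  have h1 : s.length = t.length := by
    rcases lt_trichotomy s.length t.length with h2 | h2 | h2
    · have := pt_gt h2
      rw [h, pt_eq] at this
      exact absurd this (by simp)
    · exact h2
    · have := pt_gt h2
      rw [← h, pt_eq] at this
      exact absurd this (by simp)
  exact node_unique (node_pt s) (h ▸ node_pt t) h1

/-- Sequences with finitely many ones. -/
def D0 : Set Cn := {x | ∃ k, ∀ i, k ≤ i → x i = false}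

theorem D0_countable : D0.Countable := by
  have : D0 ⊆ Set.range (fun l : List Bool => mk (fun i => l.getD i false)) := by
    rintro x ⟨k, hk⟩
    refine ⟨List.ofFn (fun i : Fin k => x i), ?_⟩
    apply cn_ext
    intro i
    show (List.ofFn (fun i : Fin k => x i)).getD i false = x i
    rcases lt_or_ge i k with h | h
    · simp [List.getD_eq_getElem?_getD, h]
    · rw [hk i h, List.getD_eq_getElem?_getD, List.getElem?_eq_none (by simpa using h)]
      rfl
  exact (Set.countable_range _).mono this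

theorem D0_dense {x y : Cn} (hxy : x < y) (hy : y ∉ D0) : ∃ d ∈ D0, x < d ∧ d < y := by
  obtain ⟨i, h1, h2, h3⟩ := (cn_lt_iff x y).1 hxy
  let d : Cn := mk (fun j => if j ≤ i then y j else false)
  have hd : d ∈ D0 := ⟨i + 1, fun j hj => by
    show (if j ≤ i then y j else false) = false
    rw [if_neg (by omega)]⟩
  have h4 : d ≤ y := by
    rw [← not_lt, cn_lt_iff]
    rintro ⟨j, -, h5, h6⟩
    have h6' : (if j ≤ i then y j else false) = true := h6
    split_ifs at h6' with h7
    rw [h5] at h6'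
    exact absurd h6' (by simp)
  refine ⟨d, hd, ?_, lt_of_le_of_ne h4 (fun h => hy (h ▸ hd))⟩
  rw [cn_lt_iff]
  refine ⟨i, fun j hj => ?_, h2, ?_⟩
  · show x j = if j ≤ i then y j else false
    rw [if_pos (by omega), h1 j hj]
  · show (if i ≤ i then y i else false) = true
    rw [if_pos le_rfl, h3]

/-! ### The partial order -/

/-- The underlying set of the partial order. -/
inductive P : Type
  | c : Cn → P
  | a : List Bool → P
  | b : List Bool → P
  | n : Bool → ℕ → P

/-- The number attached to the element `b s`. -/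
def idx (e : Bool) (s : List Bool) : ℕ :=
  if e = true then (Nat.unpair s.length).2 else (Nat.unpair s.length).1

/-- The order relation. -/
def ple : P → P → Prop
  | P.c x, P.c y => x ≤ y
  | P.c x, P.a s => x < pt s
  | P.c x, P.b s => x ≤ tp s
  | P.a s, P.a t => s = t
  | P.a s, P.b t => s = t
  | P.b s, P.b t => s = t
  | P.n e m, P.n e' m' => e = e' ∧ m = m'
  | P.n e m, P.b s => m = idx e s
  | P.c _, P.n _ _ => False
  | P.a _, P.c _ => False
  | P.a _, P.n _ _ => False
  | P.b _, P.c _ => False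
  | P.b _, P.a _ => False
  | P.b _, P.n _ _ => False
  | P.n _ _, P.c _ => False
  | P.n _ _, P.a _ => False

instance : PartialOrder P where
  le := ple
  le_refl x := by cases x <;> simp [ple]
  le_trans x y z hxy hyz := by
    cases x <;> cases y <;> cases z <;> simp only [ple] at hxy hyz ⊢
    · exact hxy.trans hyz
    · exact lt_of_le_of_lt hxy hyz
    · exact hxy.trans hyz
    · subst hyz; exact hxy
    · subst hyz; exact hxy.le.trans (pt_le_tp _)
    · subst hyz; exact hxy
    · exact hxy.trans hyz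
    · exact hxy.trans hyz
    · exact hxy.trans hyz
    · exact hxy.trans hyz
    · subst hyz; exact hxy
    · obtain ⟨rfl, rfl⟩ := hxy; exact hyz
    · exact ⟨hxy.1.trans hyz.1, hxy.2.trans hyz.2⟩
  le_antisymm x y hxy hyx := by
    cases x <;> cases y <;> simp only [ple] at hxy hyx
    · rw [le_antisymm hxy hyx]
    · rw [hxy]
    · rw [hxy]
    · rw [hxy.1, hxy.2]


section order

variable (x y : Cn) (s t : List Bool) (e e' : Bool) (m m' : ℕ)

@[simp] theorem cc : P.c x ≤ P.c y ↔ x ≤ y := Iff.rfl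
@[simp] theorem ca : P.c x ≤ P.a s ↔ x < pt s := Iff.rfl
@[simp] theorem cb : P.c x ≤ P.b s ↔ x ≤ tp s := Iff.rfl
@[simp] theorem cn : P.c x ≤ P.n e m ↔ False := Iff.rfl
@[simp] theorem ac : P.a s ≤ P.c x ↔ False := Iff.rfl
@[simp] theorem aa : P.a s ≤ P.a t ↔ s = t := Iff.rfl
@[simp] theorem ab : P.a s ≤ P.b t ↔ s = t := Iff.rfl
@[simp] theorem an : P.a s ≤ P.n e m ↔ False := Iff.rfl
@[simp] theorem bc : P.b s ≤ P.c x ↔ False := Iff.rfl
@[simp] theorem ba : P.b s ≤ P.a t ↔ False := Iff.rfl
@[simp] theorem bb : P.b s ≤ P.b t ↔ s = t := Iff.rfl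
@[simp] theorem bn : P.b s ≤ P.n e m ↔ False := Iff.rfl
@[simp] theorem nc : P.n e m ≤ P.c x ↔ False := Iff.rfl
@[simp] theorem na : P.n e m ≤ P.a s ↔ False := Iff.rfl
@[simp] theorem nb : P.n e m ≤ P.b s ↔ m = idx e s := Iff.rfl
@[simp] theorem nn : P.n e m ≤ P.n e' m' ↔ (e = e' ∧ m = m') := Iff.rfl

theorem plt {x y : P} : x < y ↔ x ≤ y ∧ ¬ y ≤ x := lt_iff_le_not_ge

end order

/-- The top of the chain. -/
def top1 : P := P.c (mk fun _ => true)

/-- The bottom of the chain. -/
def bot0 : P := P.c (mk fun _ => false)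

theorem le_one (x : Cn) : x ≤ mk (fun _ => true) := by
  rw [← not_lt, cn_lt_iff]
  rintro ⟨i, -, h, -⟩
  simp at h

theorem zero_le' (x : Cn) : mk (fun _ => false) ≤ x := by
  rw [← not_lt, cn_lt_iff]
  rintro ⟨i, -, -, h⟩
  simp at h

theorem zero_lt_pt (s : List Bool) : mk (fun _ => false) < pt s := by
  refine lt_of_le_of_ne (zero_le' _) ?_
  intro h
  have := @pt_eq s
  rw [← h] at this
  simp at this

/-! ### Definable relations -/

/-- Elements of the chain. -/
def isC (x : P) : Prop := x ≤ top1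

/-- Elements `a s`. -/
def isA (x : P) : Prop := bot0 ≤ x ∧ ¬ isC x ∧ ¬ ∃ y, y < x ∧ bot0 ≤ y ∧ ¬ isC y

/-- Elements `n e m`. -/
def isN (x : P) : Prop := ¬ bot0 ≤ x ∧ ¬ isC x

theorem isC_iff (x : P) : isC x ↔ ∃ y, x = P.c y := by
  cases x <;> simp [isC, top1, le_one]

theorem isN_iff (x : P) : isN x ↔ ∃ e m, x = P.n e m := by
  cases x <;> simp [isN, isC_iff, bot0, zero_lt_pt, zero_le']

theorem isA_iff (x : P) : isA x ↔ ∃ s, x = P.a s := by
  cases x with
  | c y => simp [isA, isC_iff]
  | a s =>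
    simp only [isA, isC_iff, bot0, ca, zero_lt_pt, reduceCtorEq, exists_false, not_false_eq_true,
      true_and, P.a.injEq, exists_eq', iff_true]
    rintro ⟨y, h1, h2, h3⟩
    cases y with
    | c z => exact h3 ⟨z, rfl⟩
    | a t => simp only [plt, aa] at h1; exact h1.2 h1.1.symm
    | b t => simp only [plt, ba] at h1; exact h1.1
    | n e m => simp at h2
  | b s =>
    simp only [isA, isC_iff, bot0, cb, zero_le', reduceCtorEq, exists_false, not_false_eq_true,
      true_and, iff_false, not_not]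
    exact ⟨P.a s, by simp [plt], by simp [zero_lt_pt], by simp⟩
  | n e m => simp [isA, bot0]

/-- The decoding relation. -/
def Dec (x y z : P) : Prop := ∃ a b, isA a ∧ a < b ∧ y < b ∧ z < b ∧ ¬ x ≤ a ∧ x ≤ b

theorem a_lt (s : List Bool) (x : P) : P.a s < x ↔ x = P.b s := by
  cases x with
  | c y => simp [plt]
  | a t =>
    simp only [plt, aa, reduceCtorEq, iff_false]
    rintro ⟨h1, h2⟩
    exact h2 h1.symm
  | b t =>
    simp only [plt, ab, ba, not_false_eq_true, and_true, P.b.injEq]
    exact eq_comm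
  | n e m => simp [plt]

theorem Dec_iff (x : Cn) (m l : ℕ) :
    Dec (P.c x) (P.n false m) (P.n true l) ↔ x (Nat.pair m l) = true := by
  constructor
  · rintro ⟨a, b, h1, h2, h3, h4, h5, h6⟩
    obtain ⟨s, rfl⟩ := (isA_iff a).1 h1
    rw [a_lt] at h2
    subst h2
    simp only [plt, nb, bn, not_false_eq_true, and_true] at h3 h4
    simp only [ca, not_lt] at h5
    simp only [cb] at h6
    have h7 := (node_iff s x).1 ⟨h5, h6⟩
    have h8 : Nat.pair m l = s.length := by
      rw [h3, h4]
      simp [idx]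
    rw [h8]
    exact h7.2
  · intro h
    obtain ⟨s, hs, hn⟩ := exists_node x _ h
    obtain ⟨h5, h6⟩ := (node_iff s x).2 hn
    refine ⟨P.a s, P.b s, (isA_iff _).2 ⟨s, rfl⟩, (a_lt _ _).2 rfl, ?_, ?_, ?_, ?_⟩
    · simp [plt, idx, hs]
    · simp [plt, idx, hs]
    · simpa using h5
    · simpa using h6

/-- The element `n false 0`. -/
def n0 : P := P.n false 0

/-- Elements `n true l`. -/
def isN1 (x : P) : Prop := isN x ∧ x ≠ n0 ∧ ∃ b, n0 < b ∧ x < b

/-- Elements `n false m`. -/
def isN0 (x : P) : Prop := isN x ∧ ¬ isN1 x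

theorem isN1_iff (x : P) : isN1 x ↔ ∃ l, x = P.n true l := by
  constructor
  · rintro ⟨h1, h2, b, h3, h4⟩
    obtain ⟨e, m, rfl⟩ := (isN_iff x).1 h1
    cases e with
    | true => exact ⟨m, rfl⟩
    | false =>
      exfalso
      cases b with
      | c y => simp [n0, plt] at h3
      | a s => simp [n0, plt] at h3
      | b s =>
        simp only [n0, plt, nb, bn, not_false_eq_true, and_true] at h3 h4
        rw [← h3] at h4
        exact h2 (by rw [h4]; rfl)
      | n e m =>
        simp only [n0, plt, nn] at h3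
        exact h3.2 ⟨h3.1.1.symm, h3.1.2.symm⟩
  · rintro ⟨l, rfl⟩
    refine ⟨(isN_iff _).2 ⟨_, _, rfl⟩, by simp [n0], ?_⟩
    refine ⟨P.b (List.replicate (Nat.pair 0 l) false), ?_, ?_⟩
    · rw [plt]
      refine ⟨?_, by simp [n0]⟩
      rw [n0, nb, idx, if_neg (by simp), List.length_replicate, Nat.unpair_pair]
    · rw [plt]
      refine ⟨?_, by simp⟩
      rw [nb, idx, if_pos rfl, List.length_replicate, Nat.unpair_pair]

theorem isN0_iff (x : P) : isN0 x ↔ ∃ l, x = P.n false l := by
  unfold isN0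
  rw [isN1_iff, isN_iff]
  constructor
  · rintro ⟨⟨e, m, rfl⟩, h⟩
    cases e with
    | true => exact absurd ⟨m, rfl⟩ h
    | false => exact ⟨m, rfl⟩
  · rintro ⟨l, rfl⟩
    exact ⟨⟨_, _, rfl⟩, by simp⟩


/-! ### Coding of countable relations -/

/-- The code of a binary relation on the natural numbers. -/
noncomputable def code (S : ℕ → ℕ → Prop) : Cn := by
  classical
  exact mk (fun k => decide (S (Nat.unpair k).1 (Nat.unpair k).2))

theorem Dec_code (S : ℕ → ℕ → Prop) (m l : ℕ) :
    Dec (P.c (code S)) (P.n false m) (P.n true l) ↔ S m l := by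
  rw [Dec_iff]
  simp [code]

/-- Code of equality. -/
noncomputable def rEq : P := P.c (code (fun m l => m = l))
/-- Code of the first projection. -/
noncomputable def rFst : P := P.c (code (fun m k => (Nat.unpair k).1 = m))
/-- Code of the second projection. -/
noncomputable def rSnd : P := P.c (code (fun l k => (Nat.unpair k).2 = l))

/-- `x` is the row number `y` of `r`. -/
def Row (r y x : P) : Prop :=
  ∀ m l k l', isN0 m → isN1 l → isN1 k → isN0 l' → Dec rEq l' l → Dec rFst m k → Dec rSnd l' k →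
    (Dec x m l ↔ Dec r y k)

/-- The code of a sequence. -/
noncomputable def seqCode (ξ : ℕ → Cn) : P := P.c (code (fun i k => ξ i k = true))

theorem Row_iff (ξ : ℕ → Cn) (i : ℕ) (x : Cn) :
    Row (seqCode ξ) (P.n false i) (P.c x) ↔ x = ξ i := by
  constructor
  · intro h
    apply cn_ext
    intro k
    have := h (P.n false (Nat.unpair k).1) (P.n true (Nat.unpair k).2) (P.n true k)
      (P.n false (Nat.unpair k).2) ((isN0_iff _).2 ⟨_, rfl⟩) ((isN1_iff _).2 ⟨_, rfl⟩)
      ((isN1_iff _).2 ⟨_, rfl⟩) ((isN0_iff _).2 ⟨_, rfl⟩) ((Dec_code _ _ _).2 rfl)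
      ((Dec_code _ _ _).2 rfl) ((Dec_code _ _ _).2 rfl)
    rw [seqCode, Dec_code, Dec_iff, Nat.pair_unpair] at this
    exact Bool.eq_iff_iff.2 this
  · rintro rfl m l k l' hm hl hk hl' h1 h2 h3
    obtain ⟨m, rfl⟩ := (isN0_iff _).1 hm
    obtain ⟨l, rfl⟩ := (isN1_iff _).1 hl
    obtain ⟨k, rfl⟩ := (isN1_iff _).1 hk
    obtain ⟨l', rfl⟩ := (isN0_iff _).1 hl'
    rw [rEq, Dec_code] at h1
    rw [rFst, Dec_code] at h2
    rw [rSnd, Dec_code] at h3
    rw [seqCode, Dec_code, Dec_iff]
    subst h1 h2 h3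
    rw [Nat.pair_unpair]


/-! ### Names -/

/-- `w` is the least element of the chain which is not below `u`. -/
def cut (u w : P) : Prop := isC w ∧ ¬ w ≤ u ∧ ∀ c, c < w → c ≤ u

/-- Elements `n true 0`. -/
def n1 : P := P.n true 0

/-- The naming relations. -/
def Gr : Fin 5 → P → P → Prop
  | 0 => fun u w => u = w
  | 1 => fun u w => isA u ∧ cut u w
  | 2 => fun u w => ∃ a, isA a ∧ a < u ∧ cut a w
  | 3 => fun u w => isN0 u ∧ Dec w u n1
  | 4 => fun u w => isN1 u ∧ Dec w n0 u

theorem cut_iff (s : List Bool) (x : Cn) : cut (P.a s) (P.c x) ↔ x = pt s := by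
  constructor
  · rintro ⟨-, h1, h2⟩
    simp only [ca, not_lt] at h1
    rcases h1.eq_or_lt with h | h
    · exact h.symm
    · exfalso
      have := h2 (P.c (pt s)) (by rw [plt, cc, cc]; exact ⟨h.le, not_le.2 h⟩)
      simp at this
  · rintro rfl
    refine ⟨(isC_iff _).2 ⟨_, rfl⟩, by simp, fun c hc => ?_⟩
    cases c with
    | c y =>
      simp only [plt, cc] at hc
      simpa using hc.2
    | a t => simp [plt] at hc
    | b t => simp [plt] at hc
    | n e m => simp [plt] at hc

theorem exists_name (u : P) : ∃ (j : Fin 5) (w : Cn), ∀ u', Gr j u' (P.c w) ↔ u' = u := by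
  cases u with
  | c x => exact ⟨0, x, fun u' => Iff.rfl⟩
  | a s =>
    refine ⟨1, pt s, fun u' => ?_⟩
    simp only [Gr]
    constructor
    · rintro ⟨h1, h2⟩
      obtain ⟨t, rfl⟩ := (isA_iff _).1 h1
      rw [cut_iff] at h2
      rw [pt_injective h2]
    · rintro rfl
      exact ⟨(isA_iff _).2 ⟨_, rfl⟩, (cut_iff _ _).2 rfl⟩
  | b s =>
    refine ⟨2, pt s, fun u' => ?_⟩
    simp only [Gr]
    constructor
    · rintro ⟨a, h1, h2, h3⟩
      obtain ⟨t, rfl⟩ := (isA_iff _).1 h1
      rw [cut_iff] at h3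
      rw [a_lt] at h2
      rw [h2, pt_injective h3]
    · rintro rfl
      exact ⟨P.a s, (isA_iff _).2 ⟨_, rfl⟩, (a_lt _ _).2 rfl, (cut_iff _ _).2 rfl⟩
  | n e m =>
    cases e with
    | false =>
      refine ⟨3, code (fun i _ => i = m), fun u' => ?_⟩
      simp only [Gr]
      constructor
      · rintro ⟨h1, h2⟩
        obtain ⟨i, rfl⟩ := (isN0_iff _).1 h1
        rw [n1, Dec_code] at h2
        rw [h2]
      · rintro rfl
        exact ⟨(isN0_iff _).2 ⟨_, rfl⟩, (Dec_code _ _ _).2 rfl⟩
    | true =>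
      refine ⟨4, code (fun _ i => i = m), fun u' => ?_⟩
      simp only [Gr]
      constructor
      · rintro ⟨h1, h2⟩
        obtain ⟨i, rfl⟩ := (isN1_iff _).1 h1
        rw [n0, Dec_code] at h2
        rw [h2]
      · rintro rfl
        exact ⟨(isN1_iff _).2 ⟨_, rfl⟩, (Dec_code _ _ _).2 rfl⟩

/-! ### Definability of the relations above -/

instance : Language.order.Structure P := Language.orderStructure P

instance : Language.order.OrderedStructure P := ⟨fun _ => Iff.rfl⟩

section dfs

variable {α : Type}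

theorem df_isC {f : (α → P) → P} (hf : Tm f) : Df (fun v => isC (f v)) :=
  Df.le hf (Tm.const _)

theorem df_isA {f : (α → P) → P} (hf : Tm f) : Df (fun v => isA (f v)) := by
  unfold isA
  refine (Df.le (Tm.const _) hf).and ((df_isC hf).not.and (Df.not (Df.ex ?_)))
  exact (Df.lt (Tm.var _) hf.lift).and ((Df.le (Tm.const _) (Tm.var _)).and (df_isC (Tm.var _)).not)

theorem df_isN {f : (α → P) → P} (hf : Tm f) : Df (fun v => isN (f v)) :=
  (Df.le (Tm.const _) hf).not.and (df_isC hf).not

theorem df_Dec {f g h : (α → P) → P} (hf : Tm f) (hg : Tm g) (hh : Tm h) :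
    Df (fun v => Dec (f v) (g v) (h v)) := by
  unfold Dec
  refine Df.ex (Df.ex ?_)
  refine (df_isA (Tm.var _)).and ((Df.lt (Tm.var _) (Tm.var _)).and
    ((Df.lt hg.lift.lift (Tm.var _)).and ((Df.lt hh.lift.lift (Tm.var _)).and
    ((Df.le hf.lift.lift (Tm.var _)).not.and (Df.le hf.lift.lift (Tm.var _))))))

theorem df_isN1 {f : (α → P) → P} (hf : Tm f) : Df (fun v => isN1 (f v)) := by
  unfold isN1
  refine (df_isN hf).and ((Df.eq hf (Tm.const _)).not.and (Df.ex ?_))
  exact (Df.lt (Tm.const _) (Tm.var _)).and (Df.lt hf.lift (Tm.var _))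

theorem df_isN0 {f : (α → P) → P} (hf : Tm f) : Df (fun v => isN0 (f v)) :=
  (df_isN hf).and (df_isN1 hf).not

theorem df_Row {f g h : (α → P) → P} (hf : Tm f) (hg : Tm g) (hh : Tm h) :
    Df (fun v => Row (f v) (g v) (h v)) := by
  unfold Row
  refine Df.all (Df.all (Df.all (Df.all ?_)))
  refine (df_isN0 (Tm.var _)).imp ((df_isN1 (Tm.var _)).imp ((df_isN1 (Tm.var _)).imp
    ((df_isN0 (Tm.var _)).imp ((df_Dec (Tm.const _) (Tm.var _) (Tm.var _)).imp
    ((df_Dec (Tm.const _) (Tm.var _) (Tm.var _)).imp ((df_Dec (Tm.const _) (Tm.var _)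
    (Tm.var _)).imp ((df_Dec hh.lift.lift.lift.lift (Tm.var _) (Tm.var _)).iff
    (df_Dec hf.lift.lift.lift.lift hg.lift.lift.lift.lift (Tm.var _)))))))))

theorem df_cut {f g : (α → P) → P} (hf : Tm f) (hg : Tm g) :
    Df (fun v => cut (f v) (g v)) := by
  unfold cut
  refine (df_isC hg).and ((Df.le hg hf).not.and (Df.all ?_))
  exact (Df.lt (Tm.var _) hg.lift).imp (Df.le (Tm.var _) hf.lift)

theorem df_Gr (j : Fin 5) {f g : (α → P) → P} (hf : Tm f) (hg : Tm g) :
    Df (fun v => Gr j (f v) (g v)) := by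
  match j with
  | 0 => exact Df.eq hf hg
  | 1 => exact (df_isA hf).and (df_cut hf hg)
  | 2 =>
    show Df (fun v => ∃ a, isA a ∧ a < f v ∧ cut a (g v))
    exact Df.ex ((df_isA (Tm.var _)).and ((Df.lt (Tm.var _) hf.lift).and
      (df_cut (Tm.var _) hg.lift)))
  | 3 => exact (df_isN0 hf).and (df_Dec hg hf (Tm.const _))
  | 4 => exact (df_isN1 hf).and (df_Dec hg (Tm.const _) hf)

/-- Countable binary relations are definable with parameters. -/
theorem df_countable {T : Set (P × P)} (hT : T.Countable) {f g : (α → P) → P}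
    (hf : Tm f) (hg : Tm g) : Df (fun v => (f v, g v) ∈ T) := by
  rcases T.eq_empty_or_nonempty with rfl | hne
  · exact Df.false.congr (fun v => by simp)
  obtain ⟨q, rfl⟩ := hT.exists_eq_range hne
  have h1 : ∀ i, ∃ (j : Fin 5) (w : Cn), ∀ u', Gr j u' (P.c w) ↔ u' = (q i).1 :=
    fun i => exists_name _
  have h2 : ∀ i, ∃ (j : Fin 5) (w : Cn), ∀ u', Gr j u' (P.c w) ↔ u' = (q i).2 :=
    fun i => exists_name _
  choose j1 w1 h1 using h1
  choose j2 w2 h2 using h2
  have key : Df (fun v : α → P => ∃ p ∈ (Finset.univ : Finset (Fin 5 × Fin 5)), ∃ w w' k,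
      isC w ∧ isC w' ∧ isN0 k ∧ Dec (P.c (code (fun i _ => j1 i = p.1 ∧ j2 i = p.2))) k n1 ∧
      Row (seqCode w1) k w ∧ Row (seqCode w2) k w' ∧ Gr p.1 (f v) w ∧ Gr p.2 (g v) w') := by
    refine Df.exFin _ (fun p => Df.ex (Df.ex (Df.ex ?_)))
    exact (df_isC (Tm.var _)).and ((df_isC (Tm.var _)).and ((df_isN0 (Tm.var _)).and
      ((df_Dec (Tm.const _) (Tm.var _) (Tm.const _)).and ((df_Row (Tm.const _) (Tm.var _)
      (Tm.var _)).and ((df_Row (Tm.const _) (Tm.var _) (Tm.var _)).and
      ((df_Gr _ hf.lift.lift.lift (Tm.var _)).and (df_Gr _ hg.lift.lift.lift (Tm.var _))))))))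
  refine key.congr (fun v => ?_)
  constructor
  · rintro ⟨p, -, w, w', k, hw, hw', hk, h3, h4, h5, h6, h7⟩
    obtain ⟨w, rfl⟩ := (isC_iff _).1 hw
    obtain ⟨w', rfl⟩ := (isC_iff _).1 hw'
    obtain ⟨i, rfl⟩ := (isN0_iff _).1 hk
    rw [n1, Dec_code] at h3
    rw [Row_iff] at h4 h5
    rw [← h3.1, h4, h1] at h6
    rw [← h3.2, h5, h2] at h7
    exact ⟨i, by rw [h6, h7]⟩
  · rintro ⟨i, hi⟩
    refine ⟨(j1 i, j2 i), Finset.mem_univ _, P.c (w1 i), P.c (w2 i), P.n false i,
      (isC_iff _).2 ⟨_, rfl⟩, (isC_iff _).2 ⟨_, rfl⟩, (isN0_iff _).2 ⟨_, rfl⟩, ?_, ?_, ?_, ?_, ?_⟩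
    · rw [n1, Dec_code]
      exact ⟨rfl, rfl⟩
    · rw [Row_iff]
    · rw [Row_iff]
    · rw [h1, hi]
    · rw [h2, hi]

end dfs

/-! ### Monotone maps -/

section mono

variable (f : P → P)

/-- The possible values of a monotone map at `x`, given the values at the points of `D0`. -/
def I (x : Cn) : Set P :=
  {v | ∀ d ∈ D0, (d < x → f (P.c d) ≤ v) ∧ (x < d → v ≤ f (P.c d))}

/-- Exceptional points. -/
def E : Set Cn := {x | x ∉ D0 ∧ ∃ v ∈ I f x, v ≠ f (P.c x)}

/-- The countable set containing all points outside the chain and a dense subset of the chain. -/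
def Z0 : Set P := (P.c '' D0) ∪ {x | ¬ isC x}

theorem Z0_countable : Z0.Countable := by
  refine (D0_countable.image _).union ?_
  have : {x : P | ¬ isC x} ⊆ Set.range P.a ∪ Set.range P.b ∪
      Set.range (fun p : Bool × ℕ => P.n p.1 p.2) := by
    intro x hx
    cases x with
    | c y => exact absurd ((isC_iff _).2 ⟨y, rfl⟩) hx
    | a s => exact Or.inl (Or.inl ⟨s, rfl⟩)
    | b s => exact Or.inl (Or.inr ⟨s, rfl⟩)
    | n e m => exact Or.inr ⟨(e, m), rfl⟩
  exact (((Set.countable_range _).union (Set.countable_range _)).union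
    (Set.countable_range _)).mono this

variable {f}

theorem mem_I (hf : Monotone f) (x : Cn) : f (P.c x) ∈ I f x := by
  intro d _
  exact ⟨fun h => hf (by simpa using h.le), fun h => hf (by simpa using h.le)⟩

theorem I_meets (hf : Monotone f) {x : Cn} (hx : x ∈ E f) : ∃ z ∈ Z0, z ∈ I f x := by
  obtain ⟨-, v, hv, hne⟩ := hx
  by_cases h1 : isC v
  · by_cases h2 : isC (f (P.c x))
    · obtain ⟨y, hy⟩ := (isC_iff _).1 h1
      obtain ⟨y', hy'⟩ := (isC_iff _).1 h2
      have hfx := mem_I hf x
      rw [hy'] at hfx hne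
      rw [hy] at hv hne
      have conv : ∀ u u' : Cn, P.c u ∈ I f x → P.c u' ∈ I f x → u < u' →
          ∃ z ∈ Z0, z ∈ I f x := by
        intro u u' hu hu' huu
        by_cases h3 : u' ∈ D0
        · exact ⟨P.c u', Or.inl ⟨_, h3, rfl⟩, hu'⟩
        · obtain ⟨d, hd, h4, h5⟩ := D0_dense huu h3
          refine ⟨P.c d, Or.inl ⟨_, hd, rfl⟩, fun e he => ⟨fun h => ?_, fun h => ?_⟩⟩
          · exact ((hu e he).1 h).trans (by simpa using h4.le)
          · exact le_trans (by simpa using h5.le) ((hu' e he).2 h)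
      rcases lt_trichotomy y y' with h | h | h
      · exact conv y y' hv hfx h
      · exact absurd (by rw [h]) hne
      · exact conv y' y hfx hv h
    · exact ⟨_, Or.inr h2, mem_I hf x⟩
  · exact ⟨v, Or.inr h1, hv⟩

theorem fibre_finite (hf : Monotone f) (z : P) : {x | x ∈ E f ∧ z ∈ I f x}.Finite := by
  by_contra hinf
  obtain ⟨t, ht, hcard⟩ := (show {x | x ∈ E f ∧ z ∈ I f x}.Infinite from hinf).exists_subset_card_eq 3
  let o := t.orderEmbOfFin hcard
  have hm : ∀ i, o i ∈ E f ∧ z ∈ I f (o i) := fun i => ht (t.orderEmbOfFin_mem hcard i)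
  obtain ⟨h0, z0⟩ := hm 0
  obtain ⟨h1, z1⟩ := hm 1
  obtain ⟨h2, z2⟩ := hm 2
  have l01 : o 0 < o 1 := o.lt_iff_lt.2 (by decide)
  have l12 : o 1 < o 2 := o.lt_iff_lt.2 (by decide)
  obtain ⟨d, hd, d1, d2⟩ := D0_dense l01 h1.1
  obtain ⟨e, he, e1, e2⟩ := D0_dense l12 h2.1
  have a1 : z ≤ f (P.c d) := (z0 d hd).2 d1
  have a2 : f (P.c e) ≤ z := (z2 e he).1 e2
  have a3 : f (P.c d) ≤ f (P.c e) := hf (by simpa using (d2.trans e1).le)
  have b1 : f (P.c d) = z := le_antisymm (a3.trans a2) a1
  have b2 : f (P.c e) = z := le_antisymm a2 (a1.trans a3)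
  have key : ∀ v ∈ I f (o 1), v = z := by
    intro v hv
    apply le_antisymm
    · rw [← b2]; exact (hv e he).2 e1
    · rw [← b1]; exact (hv d hd).1 d2
  obtain ⟨-, v, hv, hne⟩ := h1
  exact hne ((key v hv).trans (key _ (mem_I hf _)).symm)

theorem E_countable (hf : Monotone f) : (E f).Countable := by
  have : E f ⊆ ⋃ z ∈ Z0, {x | x ∈ E f ∧ z ∈ I f x} := by
    intro x hx
    obtain ⟨z, hz, hz'⟩ := I_meets hf hx
    exact Set.mem_biUnion hz ⟨hx, hz'⟩
  exact (Set.Countable.biUnion Z0_countable (fun z _ => (fibre_finite hf z).countable)).mono this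

theorem mono_definable (hf : Monotone f) : Df (fun v : Fin 2 → P => f (v 0) = v 1) := by
  let Zs : Set P := Z0 ∪ P.c '' (E f)
  have hZs : Zs.Countable := Z0_countable.union ((E_countable hf).image _)
  let T : Set (P × P) := (fun z => (z, f z)) '' Zs
  have hT : T.Countable := hZs.image _
  have key : Df (fun v : Fin 2 → P => (v 0, v 1) ∈ T ∨ (isC (v 0) ∧ (¬ ∃ w, (v 0, w) ∈ T) ∧
      ∀ d w, (d, w) ∈ T → isC d → (d < v 0 → w ≤ v 1) ∧ (v 0 < d → v 1 ≤ w))) := by
    refine (df_countable hT (Tm.var _) (Tm.var _)).or ((df_isC (Tm.var _)).and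
      ((Df.not (Df.ex (df_countable hT (Tm.var _) (Tm.var _)))).and (Df.all (Df.all ?_))))
    exact (df_countable hT (Tm.var _) (Tm.var _)).imp ((df_isC (Tm.var _)).imp
      (((Df.lt (Tm.var _) (Tm.var _)).imp (Df.le (Tm.var _) (Tm.var _))).and
      ((Df.lt (Tm.var _) (Tm.var _)).imp (Df.le (Tm.var _) (Tm.var _)))))
  refine key.congr (fun v => ?_)
  constructor
  · rintro (⟨z, -, hz⟩ | ⟨h1, h2, h3⟩)
    · rw [Prod.mk.injEq] at hz
      rw [← hz.1, hz.2]
    · obtain ⟨x, hx⟩ := (isC_iff _).1 h1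
      have h4 : v 0 ∉ Zs := fun h => h2 ⟨_, ⟨_, h, rfl⟩⟩
      have h5 : x ∉ D0 := fun h => h4 (Or.inl (Or.inl ⟨x, h, hx.symm⟩))
      have h6 : x ∉ E f := fun h => h4 (Or.inr ⟨x, h, hx.symm⟩)
      have h7 : v 1 ∈ I f x := by
        intro d hd
        have := h3 (P.c d) (f (P.c d)) ⟨_, Or.inl (Or.inl ⟨d, hd, rfl⟩), rfl⟩
          ((isC_iff _).2 ⟨_, rfl⟩)
        rw [hx] at this
        exact ⟨fun h => this.1 (by rw [plt, cc, cc]; exact ⟨h.le, not_le.2 h⟩),
          fun h => this.2 (by rw [plt, cc, cc]; exact ⟨h.le, not_le.2 h⟩)⟩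
      by_contra hne
      exact h6 ⟨h5, v 1, h7, fun h => hne (by rw [hx, h])⟩
  · intro h
    by_cases h4 : v 0 ∈ Zs
    · exact Or.inl ⟨_, h4, by show (v 0, f (v 0)) = (v 0, v 1); rw [h]⟩
    · right
      refine ⟨?_, ?_, ?_⟩
      · by_contra h5
        exact h4 (Or.inl (Or.inr h5))
      · rintro ⟨w, z, hz, hzw⟩
        rw [Prod.mk.injEq] at hzw
        exact h4 (hzw.1 ▸ hz)
      · rintro d w ⟨z, hz, hzw⟩ -
        rw [Prod.mk.injEq] at hzw
        obtain ⟨rfl, rfl⟩ := hzw
        rw [← h]
        exact ⟨fun h => hf h.le, fun h => hf h.le⟩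

end mono

/-- There is an infinite partial order in which the graph of every order-preserving self-map is first-order definable, with parameters, in the language of the order. -/
theorem result :
    ∃ (M : Type) (_ : PartialOrder M) (_ : Language.order.Structure M)
      (_ : Language.order.OrderedStructure M),
      Infinite M ∧
      ∀ f : M → M, Monotone f →
        (Set.univ : Set M).Definable Language.order {v : Fin 2 → M | f (v 0) = v 1} := by
  refine ⟨P, inferInstance, inferInstance, inferInstance, ?_, ?_⟩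
  · exact Infinite.of_injective (fun m : ℕ => P.n false m) (fun a b h => by simpa using h)
  · intro f hf
    exact (mono_definable hf).toDefinable

end Pool.Agent.S09657
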