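import Pool.Statements.S09665
import Pool.Agent.Helper578.SE.Embed
import Pool.Agent.Helper578.SE.Comp
import Pool.Agent.Helper578.SE.Oracle

set_option autoImplicit false
open Classical
open Pool Pool.MP_b8791a_lc

namespace Pool.Agent.S09665

/-- There is a computable strict linear order on the naturals such that every order-embedding of it into itself other than the identity Turing-computes the set of indices of total computable functions, a set Turing-equivalent to the double jump 0''. -/
theorem result :
    ∃ R : ℕ → ℕ → Prop,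
      (∀ a, ¬ R a a) ∧
      (∀ a b c, R a b → R b c → R a c) ∧
      (∀ a b, R a b ∨ a = b ∨ R b a) ∧
      ComputablePred (fun p : ℕ × ℕ => R p.1 p.2) ∧
      ∀ f : ℕ → ℕ,
        (∀ a b, R a b ↔ R (f a) (f b)) →
        (∃ a, f a ≠ a) →
        TuringReducible
          (fun e : ℕ => Part.some
            (if ∀ n : ℕ, (Nat.Partrec.Code.eval (Denumerable.ofNat Nat.Partrec.Code e) n).Dom
             then 1 else 0))
          (fun n : ℕ => Part.some (f n)) := by
  refine ⟨Pool.Agent.Helper578.SE.R Pool.Agent.Helper578.SE.W,
    Pool.Agent.Helper578.SE.R_irrefl, fun _ _ _ => Pool.Agent.Helper578.SE.R_trans,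
    Pool.Agent.Helper578.SE.R_tri,
    Pool.Agent.Helper578.SE.R_comp Pool.Agent.Helper578.SE.W_prim, ?_⟩
  rintro f hf ⟨a, ha⟩
  obtain ⟨k0, hk0⟩ := Pool.Agent.Helper578.SE.embed Pool.Agent.Helper578.SE.approx_W hf ha
  exact Pool.Agent.Helper578.SE.tot_reducible f a k0 hk0

end Pool.Agent.S09665
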