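import Pool.Statements.S09678
import Mathlib

set_option autoImplicit false
open Pool Pool.MP_bd622f_lc

namespace Pool.Agent.S09678

variable {α : Type}

/-- The submonoid generated by `X`. -/
def Star (X : Set (List α)) : Set (List α) :=
  {w | ∃ c : List (List α), (∀ x ∈ c, x ∈ X) ∧ c.flatten = w}

/-- `X` is a code. -/
def IsCode (X : Set (List α)) : Prop :=
  ∀ c c' : List (List α), (∀ x ∈ c, x ∈ X) → (∀ x ∈ c', x ∈ X) →
    c.flatten = c'.flatten → c = c'

theorem nil_mem_star (X : Set (List α)) : [] ∈ Star X := ⟨[], by simp, by simp⟩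

theorem mem_star_of_mem {X : Set (List α)} {x : List α} (h : x ∈ X) : x ∈ Star X :=
  ⟨[x], by simpa using h, by simp⟩

theorem append_mem_star {X : Set (List α)} {u v : List α} (hu : u ∈ Star X) (hv : v ∈ Star X) :
    u ++ v ∈ Star X := by
  obtain ⟨c, hc, rfl⟩ := hu
  obtain ⟨d, hd, rfl⟩ := hv
  refine ⟨c ++ d, ?_, by simp⟩
  intro x hx
  rcases List.mem_append.1 hx with h | h
  · exact hc x h
  · exact hd x h

/-! ### First and last breaks of a factorization -/

/-- `q` is the shortest nonempty right completion of `u` along some factorization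
(or `q` is empty and `u` lies in `X*`). -/
def IsQ (X : Set (List α)) (u q : List α) : Prop :=
  (q = [] ∧ u ∈ Star X) ∨ (q ≠ [] ∧ ∃ y ∈ Star X, ∃ s, s ≠ [] ∧ u = y ++ s ∧ s ++ q ∈ X)

/-- The mirror image of `IsQ`. -/
def IsP (X : Set (List α)) (v p : List α) : Prop :=
  (p = [] ∧ v ∈ Star X) ∨ (p ≠ [] ∧ ∃ z ∈ Star X, ∃ t, t ≠ [] ∧ v = t ++ z ∧ p ++ t ∈ X)

theorem IsQ.mem {X : Set (List α)} {u q : List α} (h : IsQ X u q) : u ++ q ∈ Star X := by
  rcases h with ⟨rfl, h⟩ | ⟨-, y, hy, s, -, rfl, h⟩
  · simpa using h
  · rw [List.append_assoc]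
    exact append_mem_star hy (mem_star_of_mem h)

theorem IsP.mem {X : Set (List α)} {v p : List α} (h : IsP X v p) : p ++ v ∈ Star X := by
  rcases h with ⟨rfl, h⟩ | ⟨-, z, hz, t, -, rfl, h⟩
  · simpa using h
  · rw [← List.append_assoc]
    exact append_mem_star (mem_star_of_mem h) hz

theorem IsQ.cons {X : Set (List α)} {u q x : List α} (hx : x ∈ X) (h : IsQ X u q) :
    IsQ X (x ++ u) q := by
  rcases h with ⟨rfl, h⟩ | ⟨hq, y, hy, s, hs, rfl, h⟩
  · exact Or.inl ⟨rfl, append_mem_star (mem_star_of_mem hx) h⟩
  · exact Or.inr ⟨hq, x ++ y, append_mem_star (mem_star_of_mem hx) hy, s, hs, by simp, h⟩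

theorem IsP.concat {X : Set (List α)} {v p x : List α} (hx : x ∈ X) (h : IsP X v p) :
    IsP X (v ++ x) p := by
  rcases h with ⟨rfl, h⟩ | ⟨hp, z, hz, t, ht, rfl, h⟩
  · exact Or.inl ⟨rfl, append_mem_star h (mem_star_of_mem hx)⟩
  · exact Or.inr ⟨hp, z ++ x, append_mem_star hz (mem_star_of_mem hx), t, ht, by simp, h⟩

theorem exists_isQ (X : Set (List α)) : ∀ (c : List (List α)), (∀ x ∈ c, x ∈ X) →
    ∀ u w, c.flatten = u ++ w → ∃ q m, w = q ++ m ∧ IsQ X u q ∧ m ∈ Star X := by
  intro c
  induction c with
  | nil =>
    intro _ u w h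
    simp only [List.flatten_nil] at h
    obtain ⟨rfl, rfl⟩ := List.append_eq_nil_iff.1 h.symm
    exact ⟨[], [], rfl, Or.inl ⟨rfl, nil_mem_star X⟩, nil_mem_star X⟩
  | cons x c ih =>
    intro hc u w h
    have hx : x ∈ X := hc x (by simp)
    have hc' : ∀ z ∈ c, z ∈ X := fun z hz => hc z (by simp [hz])
    rw [List.flatten_cons] at h
    rcases List.append_eq_append_iff.1 h with ⟨e, he1, he2⟩ | ⟨e, he1, he2⟩
    · obtain ⟨q, m, hw, hq, hm⟩ := ih hc' e w he2
      exact ⟨q, m, hw, he1 ▸ hq.cons hx, hm⟩
    · by_cases hu : u = []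
      · subst hu
        refine ⟨[], w, rfl, Or.inl ⟨rfl, nil_mem_star X⟩, ?_⟩
        simp only [List.nil_append] at he1
        subst he1
        rw [he2]
        exact append_mem_star (mem_star_of_mem hx) ⟨c, hc', rfl⟩
      · by_cases hE : e = []
        · subst hE
          simp only [List.append_nil] at he1
          subst he1
          exact ⟨[], w, rfl, Or.inl ⟨rfl, mem_star_of_mem hx⟩, ⟨c, hc', by simpa using he2.symm⟩⟩
        · refine ⟨e, c.flatten, he2, Or.inr ⟨hE, [], nil_mem_star X, u, hu, by simp, ?_⟩,
            ⟨c, hc', rfl⟩⟩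
          rw [← he1]
          exact hx

theorem exists_isP (X : Set (List α)) : ∀ (c : List (List α)), (∀ x ∈ c, x ∈ X) →
    ∀ v w, c.flatten = w ++ v → ∃ m p, w = m ++ p ∧ IsP X v p ∧ m ∈ Star X := by
  intro c
  induction c using List.reverseRecOn with
  | nil =>
    intro _ v w h
    simp only [List.flatten_nil] at h
    obtain ⟨rfl, rfl⟩ := List.append_eq_nil_iff.1 h.symm
    exact ⟨[], [], rfl, Or.inl ⟨rfl, nil_mem_star X⟩, nil_mem_star X⟩
  | append_singleton c x ih =>
    intro hc v w h
    have hx : x ∈ X := hc x (by simp)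
    have hc' : ∀ z ∈ c, z ∈ X := fun z hz => hc z (by simp [hz])
    have h' : c.flatten ++ x = w ++ v := by simpa using h
    rcases List.append_eq_append_iff.1 h' with ⟨e, he1, he2⟩ | ⟨e, he1, he2⟩
    · by_cases hv : v = []
      · subst hv
        refine ⟨w, [], by simp, Or.inl ⟨rfl, nil_mem_star X⟩, ?_⟩
        simp only [List.append_nil] at he2
        subst he2
        rw [he1]
        exact append_mem_star ⟨c, hc', rfl⟩ (mem_star_of_mem hx)
      · by_cases hE : e = []
        · subst hE
          simp only [List.nil_append] at he2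
          subst he2
          exact ⟨w, [], by simp, Or.inl ⟨rfl, mem_star_of_mem hx⟩, ⟨c, hc', by simpa using he1.symm⟩⟩
        · refine ⟨c.flatten, e, he1, Or.inr ⟨hE, [], nil_mem_star X, v, hv, by simp, ?_⟩,
            ⟨c, hc', rfl⟩⟩
          rw [← he2]
          exact hx
    · obtain ⟨m, p, hw, hp, hm⟩ := ih hc' e w he1
      exact ⟨m, p, hw, he2 ▸ hp.concat hx, hm⟩

theorem uniq_isQ_aux {X : Set (List α)} (hX : IsCode X) {u q q' r r' : List α}
    (hq : IsQ X u q) (hq' : IsQ X u q') (hr : r ∈ Star X) (hr' : r' ∈ Star X)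
    (h : u ++ q ++ r = u ++ q' ++ r') : ¬ q.length < q'.length := by
  intro hlt
  obtain ⟨c, hc, hcu⟩ := hq.mem
  obtain ⟨d, hd, hdr⟩ := hr
  obtain ⟨d', hd', hdr'⟩ := hr'
  rcases hq' with ⟨rfl, -⟩ | ⟨-, y, ⟨e, he, hey⟩, s, hs, hu, hx⟩
  · simp at hlt
  · have hs' : 0 < s.length := List.length_pos_iff.2 hs
    have heq : c ++ d = e ++ (s ++ q') :: d' := by
      apply hX
      · intro x hx'
        rcases List.mem_append.1 hx' with h | h
        · exact hc x h
        · exact hd x h
      · intro x hx'
        rcases List.mem_append.1 hx' with h | h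
        · exact he x h
        · rcases List.mem_cons.1 h with rfl | h
          · exact hx
          · exact hd' x h
      · rw [List.flatten_append, List.flatten_append, List.flatten_cons, hcu, hdr, hey, hdr', h, hu]
        simp [List.append_assoc]
    have hlu : u.length = y.length + s.length := by rw [hu]; simp
    have hlc : c.flatten.length = u.length + q.length := by rw [hcu]; simp
    have hle : e.flatten.length = y.length := by rw [hey]
    rcases List.append_eq_append_iff.1 heq with ⟨a, h1, h2⟩ | ⟨a, h1, h2⟩
    · have : e.flatten.length = c.flatten.length + a.flatten.length := by rw [h1]; simp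
      omega
    · cases a with
      | nil =>
        have : c.flatten.length = e.flatten.length := by rw [h1]; simp
        omega
      | cons b a =>
        simp only [List.cons_append, List.cons.injEq] at h2
        have : c.flatten.length = e.flatten.length + ((s ++ q').length + a.flatten.length) := by
          rw [h1, h2.1]; simp
        simp only [List.length_append] at this
        omega

theorem uniq_isP_aux {X : Set (List α)} (hX : IsCode X) {v p p' r r' : List α}
    (hp : IsP X v p) (hp' : IsP X v p') (hr : r ∈ Star X) (hr' : r' ∈ Star X)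
    (h : r ++ (p ++ v) = r' ++ (p' ++ v)) : ¬ p.length < p'.length := by
  intro hlt
  obtain ⟨c, hc, hcv⟩ := hp.mem
  obtain ⟨d, hd, hdr⟩ := hr
  obtain ⟨d', hd', hdr'⟩ := hr'
  rcases hp' with ⟨rfl, -⟩ | ⟨-, z, ⟨e, he, hez⟩, t, ht, hv, hx⟩
  · simp at hlt
  · have ht' : 0 < t.length := List.length_pos_iff.2 ht
    have heq : d ++ c = d' ++ (p' ++ t) :: e := by
      apply hX
      · intro x hx'
        rcases List.mem_append.1 hx' with h | h
        · exact hd x h
        · exact hc x h
      · intro x hx'
        rcases List.mem_append.1 hx' with h | h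
        · exact hd' x h
        · rcases List.mem_cons.1 h with rfl | h
          · exact hx
          · exact he x h
      · rw [List.flatten_append, List.flatten_append, List.flatten_cons, hcv, hdr, hez, hdr', h, hv]
        simp [List.append_assoc]
    have hlv : v.length = t.length + z.length := by rw [hv]; simp
    have hlc : c.flatten.length = p.length + v.length := by rw [hcv]; simp
    have hle : e.flatten.length = z.length := by rw [hez]
    rcases List.append_eq_append_iff.1 heq with ⟨a, h1, h2⟩ | ⟨a, h1, h2⟩
    · have : c.flatten.length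
          = a.flatten.length + ((p' ++ t).length + e.flatten.length) := by
        rw [h2, List.flatten_append, List.flatten_cons, List.length_append, List.length_append]
      simp only [List.length_append] at this
      omega
    · cases a with
      | nil =>
        have : (p' ++ t).length + e.flatten.length = c.flatten.length := by
          have h3 : (p' ++ t) :: e = c := by simpa using h2
          rw [← h3, List.flatten_cons]
          exact List.length_append.symm
        simp only [List.length_append] at this
        omega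
      | cons b a =>
        simp only [List.cons_append, List.cons.injEq] at h2
        have : e.flatten.length = a.flatten.length + c.flatten.length := by rw [h2.2]; simp
        omega

/-! ### Consequences of having a separating box -/

section Box

variable (X : Set (List α)) (U V : Set (List α))

/-- The pair `(U, V)` is a separating box of `X`. -/
structure SepBox : Prop where
  code : IsCode X
  box : ∀ w : List α, ∃! p : List α × List α, p.1 ∈ U ∧ p.2 ∈ V ∧ p.1 ++ w ++ p.2 ∈ Star X
  sep : ∀ u ∈ U, ∀ v ∈ V, ∀ w : List α, u ++ w ++ v ∈ Star X →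
    ∃ w' w'' : List α, w = w' ++ w'' ∧ u ++ w' ∈ Star X ∧ w'' ++ v ∈ Star X

def QQ (q : List α) : Prop := ∃ u ∈ U, IsQ X u q
def PP (p : List α) : Prop := ∃ v ∈ V, IsP X v p

variable {X U V}

theorem SepBox.exist (h : SepBox X U V) (w : List α) :
    ∃ q m p, w = q ++ m ++ p ∧ QQ X U q ∧ m ∈ Star X ∧ PP X V p := by
  obtain ⟨⟨u, v⟩, ⟨hu, hv, hw⟩, -⟩ := h.box w
  obtain ⟨w', w'', rfl, ⟨c, hc, hcu⟩, ⟨d, hd, hdv⟩⟩ := h.sep u hu v hv w hw
  obtain ⟨q, m, rfl, hq, hm⟩ := exists_isQ X c hc u w' hcu
  obtain ⟨m', p, rfl, hp, hm'⟩ := exists_isP X d hd v w'' hdv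
  exact ⟨q, m ++ m', p, by simp, ⟨u, hu, hq⟩, append_mem_star hm hm', ⟨v, hv, hp⟩⟩

theorem SepBox.unique (h : SepBox X U V) {q m p q' m' p' : List α} (hq : QQ X U q)
    (hm : m ∈ Star X) (hp : PP X V p) (hq' : QQ X U q') (hm' : m' ∈ Star X) (hp' : PP X V p')
    (he : q ++ m ++ p = q' ++ m' ++ p') : q = q' ∧ p = p' := by
  obtain ⟨u, hu, hq⟩ := hq
  obtain ⟨v, hv, hp⟩ := hp
  obtain ⟨u', hu', hq'⟩ := hq'
  obtain ⟨v', hv', hp'⟩ := hp'
  have h1 : u ++ (q ++ m ++ p) ++ v ∈ Star X := by
    have := append_mem_star (append_mem_star hq.mem hm) hp.mem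
    simpa [List.append_assoc] using this
  have h2 : u' ++ (q ++ m ++ p) ++ v' ∈ Star X := by
    rw [he]
    have := append_mem_star (append_mem_star hq'.mem hm') hp'.mem
    simpa [List.append_assoc] using this
  have huv : ((u, v) : List α × List α) = (u', v') :=
    (h.box (q ++ m ++ p)).unique ⟨hu, hv, h1⟩ ⟨hu', hv', h2⟩
  obtain ⟨rfl, rfl⟩ := Prod.mk.inj huv
  have hr : m ++ (p ++ v) ∈ Star X := append_mem_star hm hp.mem
  have hr' : m' ++ (p' ++ v) ∈ Star X := append_mem_star hm' hp'.mem
  have hs : (u ++ q) ++ m ∈ Star X := append_mem_star hq.mem hm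
  have hs' : (u ++ q') ++ m' ∈ Star X := append_mem_star hq'.mem hm'
  have e1 : u ++ q ++ (m ++ (p ++ v)) = u ++ q' ++ (m' ++ (p' ++ v)) := by
    have : u ++ (q ++ m ++ p) ++ v = u ++ (q' ++ m' ++ p') ++ v := by rw [he]
    simpa [List.append_assoc] using this
  have e2 : ((u ++ q) ++ m) ++ (p ++ v) = ((u ++ q') ++ m') ++ (p' ++ v) := by
    simpa [List.append_assoc] using e1
  have l1 : q.length = q'.length := by
    have a1 := uniq_isQ_aux h.code hq hq' hr hr' e1
    have a2 := uniq_isQ_aux h.code hq' hq hr' hr e1.symm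
    omega
  have l2 : p.length = p'.length := by
    have a1 := uniq_isP_aux h.code hp hp' hs hs' e2
    have a2 := uniq_isP_aux h.code hp' hp hs' hs e2.symm
    omega
  refine ⟨?_, ?_⟩
  · rw [List.append_assoc, List.append_assoc] at he
    exact (List.append_inj he l1).1
  · exact (List.append_inj' he l2).2

end Box

/-! ### Decision procedures for a finite list of words -/

/-- A fuel-based test for membership in the star of a finite list of words. -/
def inStarB [DecidableEq α] (X : List (List α)) : ℕ → List α → Bool
  | 0, w => w.isEmpty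
  | n + 1, w => w.isEmpty ||
      X.any (fun x => !x.isEmpty && (x.isPrefixOf w && inStarB X n (w.drop x.length)))

theorem inStarB_sound [DecidableEq α] (X : List (List α)) :
    ∀ (n : ℕ) (w : List α), inStarB X n w = true → w ∈ Star {x | x ∈ X} := by
  intro n
  induction n with
  | zero =>
    intro w h
    simp only [inStarB, List.isEmpty_iff] at h
    subst h
    exact nil_mem_star _
  | succ n ih =>
    intro w h
    simp only [inStarB, Bool.or_eq_true, List.isEmpty_iff, List.any_eq_true, Bool.and_eq_true]
      at h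
    rcases h with h | ⟨x, hx, -, hp, hs⟩
    · subst h
      exact nil_mem_star _
    · rw [List.isPrefixOf_iff_prefix] at hp
      obtain ⟨t, rfl⟩ := hp
      rw [List.drop_left] at hs
      exact append_mem_star (mem_star_of_mem (by simpa using hx)) (ih t hs)

theorem inStarB_complete [DecidableEq α] (X : List (List α)) (hX : ∀ x ∈ X, x ≠ []) :
    ∀ (n : ℕ) (w : List α), w.length ≤ n → w ∈ Star {x | x ∈ X} → inStarB X n w = true := by
  intro n
  induction n with
  | zero =>
    intro w hw _
    have : w = [] := List.length_eq_zero_iff.1 (by omega)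
    subst this
    rfl
  | succ n ih =>
    rintro w hw ⟨c, hc, rfl⟩
    cases c with
    | nil => simp [inStarB]
    | cons x c =>
      have hx : x ∈ X := hc x (by simp)
      have hne := hX x hx
      have hpos : 0 < x.length := List.length_pos_iff.2 hne
      simp only [inStarB, Bool.or_eq_true, List.any_eq_true, Bool.and_eq_true]
      refine Or.inr ⟨x, hx, ?_, ?_, ?_⟩
      · simp [hne]
      · rw [List.isPrefixOf_iff_prefix, List.flatten_cons]
        exact List.prefix_append _ _
      · rw [List.flatten_cons, List.drop_left]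
        apply ih
        · rw [List.flatten_cons, List.length_append] at hw
          omega
        · exact ⟨c, fun z hz => hc z (by simp [hz]), rfl⟩

/-- Every pending prefix `s` with `s q ∈ L` forces one of the targets. -/
def chkQ [DecidableEq α] (L : List (List α)) (q : List α) (T : List (List α)) : Bool :=
  L.all (fun x => !(q.isSuffixOf x) ||
    (decide (x.length ≤ q.length) ||
      (List.range (x.length - q.length)).any (fun i =>
        inStarB L i ((x.take (x.length - q.length)).take i) &&
          T.any (fun t => !t.isEmpty &&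
            L.contains ((x.take (x.length - q.length)).drop i ++ t)))))

/-- Every pending suffix `t` with `p t ∈ L` forces one of the targets. -/
def chkP [DecidableEq α] (L : List (List α)) (p : List α) (T : List (List α)) : Bool :=
  L.all (fun x => !(p.isPrefixOf x) ||
    (decide (x.length ≤ p.length) ||
      (List.range (x.length - p.length)).any (fun i =>
        inStarB L i ((x.drop p.length).drop ((x.drop p.length).length - i)) &&
          T.any (fun t => !t.isEmpty &&
            L.contains (t ++ (x.drop p.length).take ((x.drop p.length).length - i))))))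

theorem chkQ_sound [DecidableEq α] {L : List (List α)} {U : Set (List α)} {q : List α}
    (T : List (List α)) (hc : chkQ L q T = true) (hq0 : q ≠ []) (hq : QQ {x | x ∈ L} U q) :
    ∃ t ∈ T, QQ {x | x ∈ L} U t := by
  obtain ⟨u, hu, ⟨h, -⟩ | ⟨-, y, hy, s, hs, rfl, hx⟩⟩ := hq
  · exact absurd h hq0
  · have hx' : s ++ q ∈ L := hx
    have hspos : 0 < s.length := List.length_pos_iff.2 hs
    simp only [chkQ, List.all_eq_true] at hc
    have h1 := hc _ hx'
    simp only [List.length_append, Nat.add_sub_cancel, Bool.or_eq_true, Bool.not_eq_true',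
      decide_eq_true_eq] at h1
    rcases h1 with h1 | h1 | h1
    · have : q.isSuffixOf (s ++ q) = true := by
        rw [List.isSuffixOf_iff_suffix]
        exact List.suffix_append _ _
      rw [this] at h1
      exact absurd h1 (by simp)
    · omega
    · rw [List.any_eq_true] at h1
      obtain ⟨i, hi, h2⟩ := h1
      rw [Bool.and_eq_true, List.any_eq_true] at h2
      obtain ⟨h3, t, ht, h4⟩ := h2
      rw [List.mem_range] at hi
      rw [List.take_left] at h3 h4
      rw [Bool.and_eq_true] at h4
      refine ⟨t, ht, y ++ s, hu, Or.inr ⟨?_, y ++ s.take i,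
        append_mem_star hy (inStarB_sound L _ _ h3), s.drop i, ?_, ?_, ?_⟩⟩
      · have := h4.1
        simpa using this
      · intro hd
        have := congrArg List.length hd
        simp at this
        omega
      · rw [List.append_assoc, List.take_append_drop]
      · have := h4.2
        simpa using this

theorem chkP_sound [DecidableEq α] {L : List (List α)} {V : Set (List α)} {p : List α}
    (T : List (List α)) (hc : chkP L p T = true) (hp0 : p ≠ []) (hp : PP {x | x ∈ L} V p) :
    ∃ t ∈ T, PP {x | x ∈ L} V t := by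
  obtain ⟨v, hv, ⟨h, -⟩ | ⟨-, z, hz, s, hs, rfl, hx⟩⟩ := hp
  · exact absurd h hp0
  · have hx' : p ++ s ∈ L := hx
    have hspos : 0 < s.length := List.length_pos_iff.2 hs
    simp only [chkP, List.all_eq_true] at hc
    have h1 := hc _ hx'
    rw [Bool.or_eq_true, Bool.or_eq_true, List.any_eq_true] at h1
    simp only [List.length_append, Bool.not_eq_true',
      decide_eq_true_eq] at h1
    rcases h1 with h1 | h1 | h1
    · have : p.isPrefixOf (p ++ s) = true := by
        rw [List.isPrefixOf_iff_prefix]
        exact List.prefix_append _ _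
      rw [this] at h1
      exact absurd h1 (by simp)
    · omega
    · obtain ⟨i, hi, h2⟩ := h1
      rw [Bool.and_eq_true, List.any_eq_true] at h2
      obtain ⟨h3, t, ht, h4⟩ := h2
      rw [List.mem_range] at hi
      rw [List.drop_left] at h3 h4
      rw [Bool.and_eq_true] at h4
      refine ⟨t, ht, s ++ z, hv, Or.inr ⟨?_, s.drop (s.length - i) ++ z,
        append_mem_star (inStarB_sound L _ _ h3) hz, s.take (s.length - i), ?_, ?_, ?_⟩⟩
      · have := h4.1
        simpa using this
      · intro hd
        have := congrArg List.length hd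
        simp at this
        omega
      · rw [← List.append_assoc, List.take_append_drop]
      · have := h4.2
        simpa using this

/-- Soundness of the Sardinas-Patterson test. -/
theorem isCode_of_residuals (X D : List (List α)) (hX : ∀ x ∈ X, x ≠ []) (hD : ∀ d ∈ D, d ≠ [])
    (h1 : ∀ x ∈ X, ∀ e, e ≠ [] → x ++ e ∈ X → e ∈ D)
    (h2 : ∀ d ∈ D, ∀ e, d ++ e ∈ X → e ∈ D)
    (h3 : ∀ x ∈ X, ∀ e, x ++ e ∈ D → e ∈ D) : IsCode {x | x ∈ X} := by
  have core : ∀ n : ℕ, ∀ d ∈ D, ∀ c c' : List (List α), (∀ x ∈ c, x ∈ X) → (∀ x ∈ c', x ∈ X) →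
      (d ++ c.flatten).length ≤ n → d ++ c.flatten = c'.flatten → False := by
    intro n
    induction n with
    | zero =>
      intro d hd c c' _ _ hl _
      have : d.length = 0 := by
        have := hl
        simp only [List.length_append] at this
        omega
      exact hD d hd (List.length_eq_zero_iff.1 this)
    | succ n ih =>
      intro d hd c c' hc hc' hl he
      have hdpos : 0 < d.length := List.length_pos_iff.2 (hD d hd)
      cases c' with
      | nil =>
        simp only [List.flatten_nil, List.append_eq_nil_iff] at he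
        exact hD d hd he.1
      | cons y ys =>
        have hy : y ∈ X := hc' y (by simp)
        have hys : ∀ x ∈ ys, x ∈ X := fun x hx => hc' x (by simp [hx])
        have hypos : 0 < y.length := List.length_pos_iff.2 (hX y hy)
        simp only [List.flatten_cons] at he
        rcases List.append_eq_append_iff.1 he with ⟨e, he1, he2⟩ | ⟨e, he1, he2⟩
        · have heD : e ∈ D := h2 d hd e (he1 ▸ hy)
          refine ih e heD ys c hys hc ?_ he2.symm
          rw [he2] at hl
          simp only [List.length_append] at hl ⊢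
          omega
        · have heD : e ∈ D := h3 y hy e (he1 ▸ hd)
          refine ih e heD c ys hc hys ?_ he2.symm
          rw [he1] at hl
          simp only [List.length_append] at hl ⊢
          omega
  intro c
  induction c with
  | nil =>
    intro c' _ hc' he
    cases c' with
    | nil => rfl
    | cons y ys =>
      simp only [List.flatten_nil, List.flatten_cons] at he
      have := (List.append_eq_nil_iff.1 he.symm).1
      exact absurd this (hX y (hc' y (by simp)))
  | cons x xs ih =>
    intro c' hc hc' he
    have hx : x ∈ X := hc x (by simp)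
    have hxs : ∀ z ∈ xs, z ∈ X := fun z hz => hc z (by simp [hz])
    cases c' with
    | nil =>
      simp only [List.flatten_nil, List.flatten_cons] at he
      have := (List.append_eq_nil_iff.1 he).1
      exact absurd this (hX x hx)
    | cons y ys =>
      have hy : y ∈ X := hc' y (by simp)
      have hys : ∀ z ∈ ys, z ∈ X := fun z hz => hc' z (by simp [hz])
      simp only [List.flatten_cons] at he
      rcases List.append_eq_append_iff.1 he with ⟨e, he1, he2⟩ | ⟨e, he1, he2⟩
      · by_cases h : e = []
        · subst h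
          simp only [List.append_nil] at he1
          subst he1
          simp only [List.nil_append] at he2
          rw [ih ys hxs hys he2]
        · exact (core _ e (h1 x hx e h (he1 ▸ hy)) ys xs hys hxs le_rfl he2.symm).elim
      · by_cases h : e = []
        · subst h
          simp only [List.append_nil] at he1
          subst he1
          simp only [List.nil_append] at he2
          rw [ih ys hxs hys he2.symm]
        · exact (core _ e (h1 y hy e h (he1 ▸ hx)) xs ys hxs hys le_rfl he2.symm).elim

/-! ### The counterexample, over the alphabet `{a, b}` with `a = 0`, `b = 1` -/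

/-- A finite maximal code with 25 words; it satisfies
`X - 1 = (1 + aa)(1 + aba + bba)(a + b - 1)(1 + b)(1 + a)`. -/
def L : List (List (Fin 2)) :=
  [[0,1], [1,1], [0,0,0,0], [0,0,0,1], [0,0,1,1], [0,1,0,0,0], [0,1,0,0,1], [0,1,0,1,1],
   [1,1,0,0,0], [1,1,0,0,1], [1,1,0,1,1], [0,1,0,0,1,0], [0,1,0,1,1,0], [1,1,0,0,1,0],
   [1,1,0,1,1,0], [0,0,0,1,0,0,0], [0,0,0,1,0,0,1], [0,0,0,1,0,1,1], [0,0,1,1,0,0,0],
   [0,0,1,1,0,0,1], [0,0,1,1,0,1,1], [0,0,0,1,0,0,1,0], [0,0,0,1,0,1,1,0],
   [0,0,1,1,0,0,1,0], [0,0,1,1,0,1,1,0]]

/-- The residuals of `L` in the Sardinas-Patterson test. -/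
def D : List (List (Fin 2)) :=
  [[0], [1], [1,0], [0,0,0], [0,0,1], [0,1,1], [0,0,1,0], [0,1,1,0], [1,0,0,0], [1,0,0,1],
   [1,0,1,1], [1,0,0,1,0], [1,0,1,1,0], [0,0,1,0,0,0], [0,0,1,0,0,1], [0,0,1,0,1,1],
   [0,1,1,0,0,0], [0,1,1,0,0,1], [0,1,1,0,1,1], [0,0,1,0,0,1,0], [0,0,1,0,1,1,0],
   [0,1,1,0,0,1,0], [0,1,1,0,1,1,0]]

theorem isCode_L : IsCode {x | x ∈ L} := by
  have e1 : ∀ x ∈ L, ∀ y ∈ L, x.isPrefixOf y = true → y = x ∨ y.drop x.length ∈ D := by
    decide +kernel
  have e2 : ∀ d ∈ D, ∀ y ∈ L, d.isPrefixOf y = true → y.drop d.length ∈ D := by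
    decide +kernel
  have e3 : ∀ x ∈ L, ∀ d ∈ D, x.isPrefixOf d = true → d.drop x.length ∈ D := by
    decide +kernel
  refine isCode_of_residuals L D (by decide +kernel) (by decide +kernel) ?_ ?_ ?_
  · intro x hx e he h
    rcases e1 x hx _ h (by simp [List.isPrefixOf_iff_prefix]) with h' | h'
    · exact absurd (by simpa using h') he
    · simpa using h'
  · intro d hd e h
    simpa using e2 d hd _ h (by simp [List.isPrefixOf_iff_prefix])
  · intro x hx e h
    simpa using e3 x hx _ h (by simp [List.isPrefixOf_iff_prefix])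

/-- The Kraft sum of `L` is one. -/
theorem kraft_L : ∑ w ∈ L.toFinset, (1 / (Fintype.card (Fin 2)) : ℝ) ^ w.length = 1 := by
  have hnodup : L.Nodup := by decide +kernel
  rw [List.sum_toFinset _ hnodup]
  simp only [L, List.map_cons, List.map_nil, List.sum_cons, List.sum_nil, List.length_cons,
    List.length_nil, Fintype.card_fin]
  norm_num

theorem maximal_L (Y : Set (List (Fin 2))) (hLY : {x | x ∈ L} ⊆ Y) (hY : IsCode Y) :
    Y = {x | x ∈ L} := by
  refine Set.Subset.antisymm (fun w hw => ?_) hLY
  by_contra hwL
  have hw' : w ∉ L.toFinset := by simpa using hwL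
  have hud : InformationTheory.UniquelyDecodable
      (((insert w L.toFinset : Finset (List (Fin 2)))) : Set (List (Fin 2))) := by
    intro c c' hc hc' he
    refine hY c c' ?_ ?_ he
    · intro x hx
      have := hc x hx
      simp only [Finset.coe_insert, List.coe_toFinset, Set.mem_insert_iff, Set.mem_ofPred_eq]
        at this
      rcases this with rfl | h
      · exact hw
      · exact hLY h
    · intro x hx
      have := hc' x hx
      simp only [Finset.coe_insert, List.coe_toFinset, Set.mem_insert_iff, Set.mem_ofPred_eq]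
        at this
      rcases this with rfl | h
      · exact hw
      · exact hLY h
  have hk := InformationTheory.kraft_mcmillan_inequality hud
  rw [Finset.sum_insert hw', kraft_L] at hk
  have hpos : (0 : ℝ) < (1 / (Fintype.card (Fin 2)) : ℝ) ^ w.length := by
    rw [Fintype.card_fin]
    positivity
  linarith

theorem L_ne_nil : ∀ x ∈ L, x ≠ [] := by decide +kernel

section NoBox

variable {U V : Set (List (Fin 2))}

theorem exist' (h : SepBox {x | x ∈ L} U V) (w : List (Fin 2)) :
    ∃ i j, i ≤ j ∧ j ≤ w.length ∧ inStarB L w.length ((w.take j).drop i) = true ∧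
      QQ {x | x ∈ L} U (w.take i) ∧ PP {x | x ∈ L} V (w.drop j) := by
  obtain ⟨q, m, p, rfl, hq, hm, hp⟩ := h.exist w
  refine ⟨q.length, (q ++ m).length, by simp, by simp, ?_, ?_, ?_⟩
  · rw [List.take_left, List.drop_left]
    exact inStarB_complete L L_ne_nil _ _ (by simp; omega) hm
  · rw [List.append_assoc, List.take_left]
    exact hq
  · rw [List.drop_left]
    exact hp

theorem star_of (w : List (Fin 2)) (h : inStarB L w.length w = true) :
    w ∈ Star {x | x ∈ L} := inStarB_sound L _ _ h

/-- The code `L` has no separating box (even with infinite `U`, `V`). -/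
theorem no_sepBox (h : SepBox {x | x ∈ L} U V) : False := by
  -- the empty word lies on both sides
  obtain ⟨hQ0, hP0⟩ : QQ {x | x ∈ L} U [] ∧ PP {x | x ∈ L} V [] := by
    obtain ⟨q, m, p, he, hq, -, hp⟩ := h.exist []
    obtain ⟨h1, rfl⟩ := List.append_eq_nil_iff.1 he.symm
    obtain ⟨rfl, -⟩ := List.append_eq_nil_iff.1 h1
    exact ⟨hq, hp⟩
  have h0 : ([] : List (Fin 2)) ∈ Star {x | x ∈ L} := nil_mem_star _
  have nQab : ¬ QQ {x | x ∈ L} U [0,1] := by
    intro hq
    have := (h.unique hq h0 hP0 hQ0 (star_of [0,1] (by decide +kernel)) hP0 rfl).1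
    simp at this
  have nPab : ¬ PP {x | x ∈ L} V [0,1] := by
    intro hp
    have := (h.unique hQ0 h0 hp hQ0 (star_of [0,1] (by decide +kernel)) hP0 rfl).2
    simp at this
  have nPQ : ∀ w : List (Fin 2), w ≠ [] → QQ {x | x ∈ L} U w → ¬ PP {x | x ∈ L} V w := by
    intro w hw hq hp
    have := (h.unique hq h0 hP0 hQ0 h0 hp (by simp)).1
    exact hw this
  have nQaa : ¬ QQ {x | x ∈ L} U [0,0] := by
    intro hq
    obtain ⟨t, ht, hq'⟩ := chkQ_sound [[0,1]] (by decide +kernel) (by simp) hq
    simp only [List.mem_singleton] at ht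
    subst ht
    exact nQab hq'
  have nPba : ¬ PP {x | x ∈ L} V [1,0] := by
    intro hp
    obtain ⟨t, ht, -⟩ := chkP_sound [] (by decide +kernel) (by simp) hp
    simp at ht
  have nPabb : ¬ PP {x | x ∈ L} V [0,1,1] := by
    intro hp
    obtain ⟨t, ht, -⟩ := chkP_sound [] (by decide +kernel) (by simp) hp
    simp at ht
  -- look at the word `a`
  obtain ⟨i, j, hij, hj, hm, hq, hp⟩ := exist' h [0]
  simp only [List.length_cons, List.length_nil] at hj hm
  have hcase : QQ {x | x ∈ L} U [0] ∨ PP {x | x ∈ L} V [0] := by
    interval_cases j <;> interval_cases i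
    · exact Or.inr hp
    · exact absurd hm (by decide +kernel)
    · exact Or.inl hq
  rcases hcase with hQa | hPa
  · -- first case
    have nPa : ¬ PP {x | x ∈ L} V [0] := nPQ _ (by simp) hQa
    have hPaa : PP {x | x ∈ L} V [0,0] := by
      obtain ⟨i, j, hij, hj, hm, hq, hp⟩ := exist' h [0,0]
      simp only [List.length_cons, List.length_nil] at hj hm
      interval_cases j <;> interval_cases i
      · exact hp
      · exact absurd hp nPa
      · exact absurd hp nPa
      · exact absurd hm (by decide +kernel)
      · exact absurd hm (by decide +kernel)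
      · exact absurd hq nQaa
    have hQba : QQ {x | x ∈ L} U [1,0] := by
      obtain ⟨i, j, hij, hj, hm, hq, hp⟩ := exist' h [1,0]
      simp only [List.length_cons, List.length_nil] at hj hm
      interval_cases j <;> interval_cases i
      · exact absurd hp nPba
      · exact absurd hp nPa
      · exact absurd hp nPa
      · exact absurd hm (by decide +kernel)
      · exact absurd hm (by decide +kernel)
      · exact hq
    obtain ⟨t, ht, hq'⟩ := chkQ_sound [[0,1], [1,0,0,0]] (by decide +kernel) (by simp) hQa
    simp only [List.mem_cons, List.not_mem_nil, or_false] at ht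
    rcases ht with rfl | rfl
    · exact nQab hq'
    · have := (h.unique hQba h0 hPaa hq' h0 hP0 rfl).1
      simp at this
  · -- second case
    have nQa : ¬ QQ {x | x ∈ L} U [0] := fun hq => nPQ _ (by simp) hq hPa
    have hPaaa : PP {x | x ∈ L} V [0,0,0] := by
      obtain ⟨t, ht, hp'⟩ := chkP_sound [[0,1], [0,0,0]] (by decide +kernel) (by simp) hPa
      simp only [List.mem_cons, List.not_mem_nil, or_false] at ht
      rcases ht with rfl | rfl
      · exact absurd hp' nPab
      · exact hp'
    have nQaaa : ¬ QQ {x | x ∈ L} U [0,0,0] := fun hq => nPQ _ (by simp) hq hPaaa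
    have nQba : ¬ QQ {x | x ∈ L} U [1,0] := by
      intro hq
      obtain ⟨t, ht, hq'⟩ := chkQ_sound [[0,1], [0,0,0]] (by decide +kernel) (by simp) hq
      simp only [List.mem_cons, List.not_mem_nil, or_false] at ht
      rcases ht with rfl | rfl
      · exact nQab hq'
      · exact nQaaa hq'
    have hQb : QQ {x | x ∈ L} U [1] := by
      obtain ⟨i, j, hij, hj, hm, hq, hp⟩ := exist' h [1,0]
      simp only [List.length_cons, List.length_nil] at hj hm
      interval_cases j <;> interval_cases i
      · exact absurd hp nPba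
      · exact absurd hm (by decide +kernel)
      · exact hq
      · exact absurd hm (by decide +kernel)
      · exact absurd hm (by decide +kernel)
      · exact absurd hq nQba
    have nPb : ¬ PP {x | x ∈ L} V [1] := nPQ _ (by simp) hQb
    have nQabb : ¬ QQ {x | x ∈ L} U [0,1,1] := by
      intro hq
      obtain ⟨t, ht, hq'⟩ := chkQ_sound [[0,0,0]] (by decide +kernel) (by simp) hq
      simp only [List.mem_singleton] at ht
      subst ht
      exact nQaaa hq'
    obtain ⟨i, j, hij, hj, hm, hq, hp⟩ := exist' h [0,1,1]
    simp only [List.length_cons, List.length_nil] at hj hm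
    have hi : i ≤ 3 := by omega
    interval_cases i
    · interval_cases j
      · exact nPabb hp
      · exact absurd hm (by decide +kernel)
      · exact nPb hp
      · exact absurd hm (by decide +kernel)
    · exact nQa hq
    · exact nQab hq
    · exact nQabb hq

end NoBox

/-- The negation of the preceding statement: Every finite maximal code X over a finite alphabet has finite word sets U, V such that each word w has exactly one (u,v) in U×V with uwv in X*, and any such uwv in X* splits as w=w'w'' with uw' and w''v in X*. -/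
theorem result :
    ¬ (∀ (k : ℕ) (X : Set (List (Fin k))),
      X.Finite →
      (∀ xs ys : List (List (Fin k)), (∀ x ∈ xs, x ∈ X) → (∀ y ∈ ys, y ∈ X) →
          xs.flatten = ys.flatten → xs = ys) →
      (∀ Y : Set (List (Fin k)), X ⊆ Y →
          (∀ xs ys : List (List (Fin k)), (∀ x ∈ xs, x ∈ Y) → (∀ y ∈ ys, y ∈ Y) →
              xs.flatten = ys.flatten → xs = ys) →
          Y = X) →
      ∃ U V : Finset (List (Fin k)),
        (∀ w : List (Fin k), ∃! p : List (Fin k) × List (Fin k),
            p.1 ∈ U ∧ p.2 ∈ V ∧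
            ∃ xs : List (List (Fin k)), (∀ x ∈ xs, x ∈ X) ∧ xs.flatten = p.1 ++ w ++ p.2) ∧
        (∀ u ∈ U, ∀ v ∈ V, ∀ w : List (Fin k),
            (∃ xs : List (List (Fin k)), (∀ x ∈ xs, x ∈ X) ∧ xs.flatten = u ++ w ++ v) →
            ∃ w' w'' : List (Fin k), w = w' ++ w'' ∧
              (∃ xs : List (List (Fin k)), (∀ x ∈ xs, x ∈ X) ∧ xs.flatten = u ++ w') ∧
              (∃ ys : List (List (Fin k)), (∀ y ∈ ys, y ∈ X) ∧ ys.flatten = w'' ++ v))) := by
  intro hall
  obtain ⟨U, V, hbox, hsep⟩ := hall 2 {x | x ∈ L} (List.finite_toSet L) isCode_L maximal_L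
  exact no_sepBox (U := (U : Set (List (Fin 2)))) (V := (V : Set (List (Fin 2))))
    ⟨isCode_L, hbox, hsep⟩

end Pool.Agent.S09678
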