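import Pool.Statements.S09692
import Pool.Agent.Helper702.Final

set_option autoImplicit false
open Pool Pool.MP_c22137_lc

namespace Pool.Agent.S09692

open Pool.Agent.Helper702 Nat.Partrec

/-- the halting set as a set of natural numbers -/
def haltSet (a : ℕ) : Prop := (Code.eval (Denumerable.ofNat Code a) 0).Dom

theorem haltSet_re : REPred haltSet := by
  have h : Partrec fun a : ℕ => Code.eval (Denumerable.ofNat Code a) 0 :=
    Code.eval_part.comp (Primrec.ofNat Code).to_comp (Computable.const 0)
  exact h.dom_re

theorem haltSet_not_computable : ¬ ComputablePred haltSet := by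
  intro h
  apply ComputablePred.halting_problem 0
  obtain ⟨inst, hc⟩ := h
  have h2 : Computable fun c : Code => decide (haltSet (Encodable.encode c)) :=
    hc.comp Computable.encode
  refine ⟨fun c => Classical.dec _, h2.of_eq fun c => ?_⟩
  simp [haltSet]

theorem La_computable {n : ℕ} (L0 L1 L2 : List (Fin n × (Fin n → ℕ) × (ℤ × ℕ))) :
    Computable (La L0 L1 L2) := by
  apply Primrec.to_comp
  unfold La
  refine Primrec.list_append.comp (Primrec.const _) (Primrec.list_append.comp ?_ ?_)
  · exact Primrec.list_flatMap Primrec.list_range (Primrec.const L1).to₂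
  · exact Primrec.list_flatMap (Primrec.list_range.comp (Primrec.nat_mul.comp Primrec.id Primrec.id))
      (Primrec.const L2).to₂

/-- The negation of the preceding statement: For every dimension n and degree d, some algorithm decides, given a rational polynomial vector field of degree at most d on R^n vanishing at the origin, whether the origin is Lyapunov stable. -/
theorem result :
    ¬ (∀ n d : ℕ, ComputablePred
      (fun L : List (Fin n × (Fin n → ℕ) × (ℤ × ℕ)) =>
        ∀ ε : ℝ, 0 < ε → ∃ δ : ℝ, 0 < δ ∧
          ∀ T : ℝ, 0 ≤ T → ∀ γ : ℝ → (Fin n → ℝ),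
            ‖γ 0‖ < δ →
            (∀ t ∈ Set.Icc (0 : ℝ) T,
              HasDerivWithinAt γ
                (fun i : Fin n =>
                  (L.map (fun p : Fin n × (Fin n → ℕ) × (ℤ × ℕ) =>
                    if p.1 = i ∧ 0 < ∑ j, p.2.1 j ∧ ∑ j, p.2.1 j ≤ d then
                      ((p.2.2.1 : ℝ) / ((p.2.2.2 : ℝ) + 1)) * ∏ j, (γ t j) ^ (p.2.1 j)
                    else 0)).sum)
                (Set.Icc (0 : ℝ) T) t) →
            ∀ t ∈ Set.Icc (0 : ℝ) T, ‖γ t‖ < ε)) := by
  intro hall
  obtain ⟨n, d, L0, L1, L2, hred⟩ := reduction haltSet_re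
  have h1 : ComputablePred (fun L => Stab n d L) := hall n d
  obtain ⟨inst, hc⟩ := h1
  have h2 : Computable fun a : ℕ => decide (Stab n d (La L0 L1 L2 a)) := hc.comp (La_computable L0 L1 L2)
  apply haltSet_not_computable
  have h3 : Computable fun a : ℕ => !(decide (Stab n d (La L0 L1 L2 a))) :=
    (Primrec.not.to_comp).comp h2
  refine ⟨fun a => Classical.dec _, h3.of_eq fun a => ?_⟩
  have := hred a
  by_cases hP : haltSet a
  · simp [hP, this]
  · simp [hP, this]

end Pool.Agent.S09692
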