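import Pool.Statements.S09697
import Pool.Agent.Helper290.Ultra

set_option autoImplicit false
open Pool Pool.MP_c39e9e_lc

namespace Pool.Agent.S09697

open Set Filter Pool.Agent.Helper290.Ultra

/-- A countable index set carrying many ultrafilters. -/
abbrev P : Type := Idx ℕ

noncomputable def e : ℤ ≃ P × ℕ := Denumerable.equiv₂ ℤ (P × ℕ)

/-- The `i`-th column of a set of integers. -/
def col (Z : Set ℤ) (i : P) : Set ℕ := {k | e.symm (i, k) ∈ Z}

theorem col_mono {A B : Set ℤ} (h : A ⊆ B) (i : P) : col A i ⊆ col B i := fun _ hk => h hk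

theorem col_diff (A B : Set ℤ) (i : P) : col (A \ B) i = col A i \ col B i := rfl

/-- The ideal attached to an ultrafilter. -/
noncomputable def Ip (p : Ultrafilter P) : Order.Ideal (Set ℤ) where
  carrier := {Z | (∀ i, col Z i ∉ hyperfilter ℕ) ∧ {i | (col Z i).Finite} ∈ p}
  lower' := by
    intro A B hBA hA
    refine ⟨fun i hi => hA.1 i (mem_of_superset hi (col_mono hBA i)), ?_⟩
    exact mem_of_superset hA.2 (fun i hi => Set.Finite.subset hi (col_mono hBA i))
  nonempty' := ⟨∅, fun i hi => by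
      have : col ∅ i = ∅ := rfl
      rw [this] at hi
      exact Ultrafilter.empty_notMem hi, by
      have : {i | (col ∅ i).Finite} = (univ : Set P) := by
        ext i; simp [col]
      rw [this]; exact univ_mem⟩
  directed' := by
    rintro A hA B hB
    refine ⟨A ∪ B, ⟨fun i hi => ?_, ?_⟩, subset_union_left, subset_union_right⟩
    · have : col (A ∪ B) i = col A i ∪ col B i := rfl
      rw [this] at hi
      rcases Ultrafilter.union_mem_iff.mp hi with h | h
      · exact hA.1 i h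
      · exact hB.1 i h
    · refine mem_of_superset (inter_mem hA.2 hB.2) (fun i hi => ?_)
      exact Set.Finite.union hi.1 hi.2

theorem mem_Ip {p : Ultrafilter P} {Z : Set ℤ} :
    Z ∈ Ip p ↔ (∀ i, col Z i ∉ hyperfilter ℕ) ∧ {i | (col Z i).Finite} ∈ p := Iff.rfl

theorem mem_mono {I : Order.Ideal (Set ℤ)} {A B : Set ℤ} (h : A ⊆ B) (hB : B ∈ I) : A ∈ I :=
  I.lower h hB

theorem mem_union {I : Order.Ideal (Set ℤ)} {A B : Set ℤ} (hA : A ∈ I) (hB : B ∈ I) :
    A ∪ B ∈ I := Order.Ideal.sup_mem hA hB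

theorem dtrans {I : Order.Ideal (Set ℤ)} {A B C : Set ℤ} (h1 : A \ B ∈ I) (h2 : B \ C ∈ I) :
    A \ C ∈ I := by
  refine mem_mono ?_ (mem_union h1 h2)
  intro x hx
  by_cases hB : x ∈ B
  · exact Or.inr ⟨hB, hx.2⟩
  · exact Or.inl ⟨hx.1, hB⟩

theorem mem_of_diff {I : Order.Ideal (Set ℤ)} {A B : Set ℤ} (h1 : A \ B ∈ I) (h2 : B ∈ I) :
    A ∈ I := by
  refine mem_mono ?_ (mem_union h1 h2)
  intro x hx
  by_cases hB : x ∈ B
  · exact Or.inr hB
  · exact Or.inl ⟨hx, hB⟩

/-- Atoms modulo an ideal. -/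
def IsAtm (I : Order.Ideal (Set ℤ)) (a : Set ℤ) : Prop :=
  a ∉ I ∧ ∀ B : Set ℤ, B \ a ∈ I → B ∈ I ∨ a \ B ∈ I

/-- Every element below `b`, nonzero modulo the ideal, has an atom below it. -/
def Atomic (I : Order.Ideal (Set ℤ)) (b : Set ℤ) : Prop :=
  ∀ C : Set ℤ, C \ b ∈ I → C ∉ I → ∃ a, IsAtm I a ∧ a \ C ∈ I

/-- Isomorphisms of the quotients, at the level of sets. -/
structure Mor (I J : Order.Ideal (Set ℤ)) (f : Set ℤ → Set ℤ) : Prop where
  hle : ∀ A B, A \ B ∈ I ↔ f A \ f B ∈ J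
  hmem : ∀ A, A ∈ I ↔ f A ∈ J
  hsurj : ∀ C, ∃ A, f A \ C ∈ J ∧ C \ f A ∈ J

theorem isAtm_congr {I : Order.Ideal (Set ℤ)} {a a' : Set ℤ} (h1 : a \ a' ∈ I) (h2 : a' \ a ∈ I)
    (ha : IsAtm I a) : IsAtm I a' := by
  refine ⟨fun h => ha.1 (mem_of_diff h1 h), fun B hB => ?_⟩
  rcases ha.2 B (dtrans hB h2) with h | h
  · exact Or.inl h
  · exact Or.inr (dtrans h2 h)

theorem isAtm_map {I J : Order.Ideal (Set ℤ)} {f : Set ℤ → Set ℤ} (hf : Mor I J f) {a : Set ℤ} :
    IsAtm I a ↔ IsAtm J (f a) := by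
  constructor
  · rintro ⟨h1, h2⟩
    refine ⟨fun h => h1 ((hf.hmem a).mpr h), fun B' hB' => ?_⟩
    obtain ⟨B, hB1, hB2⟩ := hf.hsurj B'
    have h3 : B \ a ∈ I := (hf.hle B a).mpr (dtrans hB1 hB')
    rcases h2 B h3 with h | h
    · left
      exact mem_of_diff hB2 ((hf.hmem B).mp h)
    · right
      exact dtrans ((hf.hle a B).mp h) hB1
  · rintro ⟨h1, h2⟩
    refine ⟨fun h => h1 ((hf.hmem a).mp h), fun B hB => ?_⟩
    rcases h2 (f B) ((hf.hle B a).mp hB) with h | h
    · exact Or.inl ((hf.hmem B).mpr h)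
    · exact Or.inr ((hf.hle a B).mpr h)

theorem atomic_map {I J : Order.Ideal (Set ℤ)} {f : Set ℤ → Set ℤ} (hf : Mor I J f) {b : Set ℤ}
    (hb : Atomic I b) : Atomic J (f b) := by
  intro C' hC1 hC2
  obtain ⟨C, h1, h2⟩ := hf.hsurj C'
  have h3 : C \ b ∈ I := (hf.hle C b).mpr (dtrans h1 hC1)
  have h4 : C ∉ I := fun h => hC2 (mem_of_diff h2 ((hf.hmem C).mp h))
  obtain ⟨a, ha1, ha2⟩ := hb C h3 h4
  exact ⟨f a, (isAtm_map hf).mp ha1, dtrans ((hf.hle a C).mp ha2) h1⟩

/-- The column `i` as a set of integers. -/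
def atm (i : P) : Set ℤ := {z | (e z).1 = i}

theorem col_atm_self (i : P) : col (atm i) i = univ := by
  ext k; simp [col, atm]

theorem col_atm_ne {i j : P} (h : i ≠ j) : col (atm i) j = ∅ := by
  ext k; simp [col, atm]; exact fun h' => h h'.symm

theorem compl_singleton_mem {p : Ultrafilter P} (hp : ∀ x, {x} ∉ p) (x : P) : {x}ᶜ ∈ p :=
  Ultrafilter.compl_mem_iff_notMem.mpr (hp x)

theorem atm_diff_mem {p : Ultrafilter P} (hp : ∀ x, {x} ∉ p) (i : P) (b : Set ℤ) :
    atm i \ b ∈ Ip p ↔ col b i ∈ hyperfilter ℕ := by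
  rw [mem_Ip]
  constructor
  · rintro ⟨h, -⟩
    have := h i
    rw [col_diff, col_atm_self, ← compl_eq_univ_sdiff] at this
    exact Ultrafilter.compl_notMem_iff.mp this
  · intro h
    refine ⟨fun j => ?_, ?_⟩
    · by_cases hij : i = j
      · subst hij
        rw [col_diff, col_atm_self, ← compl_eq_univ_sdiff]
        exact Ultrafilter.compl_notMem_iff.mpr h
      · rw [col_diff, col_atm_ne hij, empty_sdiff]
        exact Ultrafilter.empty_notMem
    · refine mem_of_superset (compl_singleton_mem hp i) (fun j hj => ?_)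
      have hij : i ≠ j := fun h => hj h.symm
      change (col (atm i \ b) j).Finite
      rw [col_diff, col_atm_ne hij, empty_sdiff]
      exact finite_empty

theorem atm_notMem {p : Ultrafilter P} (i : P) : atm i ∉ Ip p := by
  intro h
  have := h.1 i
  rw [col_atm_self] at this
  exact this univ_mem

theorem split (s : Set ℕ) : ∃ t ⊆ s, (s.Infinite → t.Infinite ∧ (s \ t).Infinite) := by
  by_cases hs : s.Infinite
  · obtain ⟨t, u, h1, h2, h3⟩ := hs.exists_union_disjoint_cardinal_eq_of_infinite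
    refine ⟨t, h1 ▸ subset_union_left, fun _ => ?_⟩
    have hu : s \ t = u := by
      rw [← h1, union_sdiff_left]
      exact h2.symm.sdiff_eq_left
    have key : t.Infinite ↔ u.Infinite := by
      rw [← Set.infinite_coe_iff, ← Set.infinite_coe_iff, Cardinal.infinite_iff,
        Cardinal.infinite_iff, h3]
    have h4 : t.Infinite ∨ u.Infinite := by
      rw [← Set.infinite_union, h1]; exact hs
    rw [hu]
    rcases h4 with h | h
    · exact ⟨h, key.mp h⟩
    · exact ⟨key.mpr h, h⟩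
  · exact ⟨∅, empty_subset _, fun h => absurd h hs⟩

theorem split' (s : Set ℕ) : ∃ t ⊆ s, (s.Infinite → t.Infinite ∧ t ∉ hyperfilter ℕ) := by
  obtain ⟨t, h1, h2⟩ := split s
  by_cases ht : t ∈ hyperfilter ℕ
  · refine ⟨s \ t, sdiff_subset, fun hs => ⟨(h2 hs).2, fun h => ?_⟩⟩
    have := inter_mem ht h
    have h3 : t ∩ (s \ t) = ∅ := by
      ext x; simp
    rw [h3] at this
    exact Ultrafilter.empty_notMem this
  · exact ⟨t, h1, fun hs => ⟨(h2 hs).1, ht⟩⟩

/-- Gluing columns. -/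
def glue (s : P → Set ℕ) : Set ℤ := {z | (e z).2 ∈ s (e z).1}

theorem col_glue (s : P → Set ℕ) (i : P) : col (glue s) i = s i := by
  ext k; simp [col, glue]

theorem mem_hyper_infinite {s : Set ℕ} (h : s ∈ hyperfilter ℕ) : s.Infinite := by
  intro hf
  exact Set.Finite.notMem_hyperfilter hf h

theorem inter_atm_mem {p : Ultrafilter P} (hp : ∀ x, {x} ∉ p) {i : P} {B : Set ℤ}
    (h : col B i ∉ hyperfilter ℕ) : B ∩ atm i ∈ Ip p := by
  have hcol : ∀ j, col (B ∩ atm i) j = col B j ∩ col (atm i) j := fun j => rfl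
  rw [mem_Ip]
  refine ⟨fun j => ?_, ?_⟩
  · by_cases hij : i = j
    · subst hij
      rw [hcol, col_atm_self, inter_univ]
      exact h
    · rw [hcol, col_atm_ne hij, inter_empty]
      exact Ultrafilter.empty_notMem
  · refine mem_of_superset (compl_singleton_mem hp i) (fun j hj => ?_)
    have hij : i ≠ j := fun h => hj h.symm
    change (col (B ∩ atm i) j).Finite
    rw [hcol, col_atm_ne hij, inter_empty]
    exact finite_empty

theorem isAtm_atm {p : Ultrafilter P} (hp : ∀ x, {x} ∉ p) (i : P) : IsAtm (Ip p) (atm i) := by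
  refine ⟨atm_notMem i, fun B hB => ?_⟩
  by_cases h : col B i ∈ hyperfilter ℕ
  · exact Or.inr ((atm_diff_mem hp i B).mpr h)
  · left
    refine mem_mono ?_ (mem_union hB (inter_atm_mem hp h))
    intro x hx
    by_cases hxi : x ∈ atm i
    · exact Or.inr ⟨hx, hxi⟩
    · exact Or.inl ⟨hx, hxi⟩

theorem atm_classify {p : Ultrafilter P} (hp : ∀ x, {x} ∉ p) {a : Set ℤ} (ha : IsAtm (Ip p) a) :
    ∃ i, atm i \ a ∈ Ip p ∧ a \ atm i ∈ Ip p := by
  by_cases h : ∃ i, col a i ∈ hyperfilter ℕ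
  · obtain ⟨i, hi⟩ := h
    refine ⟨i, (atm_diff_mem hp i a).mpr hi, ?_⟩
    have hsub : (a ∩ atm i) \ a ∈ Ip p := by
      rw [sdiff_eq_bot_iff.mpr (show a ∩ atm i ≤ a from inter_subset_left)]
      exact Order.Ideal.bot_mem _
    rcases ha.2 (a ∩ atm i) hsub with h | h
    · exfalso
      have h1 := h.1 i
      have : col (a ∩ atm i) i = col a i ∩ col (atm i) i := rfl
      rw [this, col_atm_self, inter_univ] at h1
      exact h1 hi
    · refine mem_mono ?_ h
      intro x hx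
      exact ⟨hx.1, fun hh => hx.2 hh.2⟩
  · exfalso
    push Not at h
    have h1 : {i | (col a i).Finite} ∉ p := fun h2 => ha.1 (mem_Ip.mpr ⟨h, h2⟩)
    choose t ht1 ht2 using split
    have hsub : glue (fun i => t (col a i)) ⊆ a := by
      intro z hz
      have : (e z).2 ∈ col a (e z).1 := ht1 _ hz
      simpa [col] using this
    rcases ha.2 (glue (fun i => t (col a i))) (by
      rw [sdiff_eq_bot_iff.mpr hsub]; exact Order.Ideal.bot_mem _) with h3 | h3
    · apply h1
      refine mem_of_superset h3.2 (fun i hi => ?_)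
      change (col (glue _) i).Finite at hi
      rw [col_glue] at hi
      by_contra hcon
      exact (ht2 _ hcon).1 hi
    · apply h1
      refine mem_of_superset h3.2 (fun i hi => ?_)
      change (col (a \ glue _) i).Finite at hi
      rw [col_diff, col_glue] at hi
      by_contra hcon
      exact (ht2 _ hcon).2 hi

/-- Recovering the ultrafilter from the quotient: first half. -/
theorem exists_atomic {p : Ultrafilter P} (hp : ∀ x, {x} ∉ p) {X : Set P} (hX : X ∉ p) :
    ∃ b, (∀ i, atm i \ b ∈ Ip p ↔ i ∈ X) ∧ Atomic (Ip p) b := by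
  classical
  refine ⟨glue (fun i => if i ∈ X then univ else ∅), fun i => ?_, fun C hC1 hC2 => ?_⟩
  · rw [atm_diff_mem hp, col_glue]
    by_cases hi : i ∈ X
    · simp only [hi, if_true, iff_true]
      exact univ_mem
    · simp only [hi, if_false, iff_false]
      exact Ultrafilter.empty_notMem
  · by_cases h : ∃ i, col C i ∈ hyperfilter ℕ
    · obtain ⟨i, hi⟩ := h
      exact ⟨atm i, isAtm_atm hp i, (atm_diff_mem hp i C).mpr hi⟩
    · exfalso
      push Not at h
      apply hC2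
      refine mem_Ip.mpr ⟨h, ?_⟩
      refine mem_of_superset (inter_mem hC1.2 (Ultrafilter.compl_mem_iff_notMem.mpr hX)) ?_
      rintro i ⟨hi1, hi2⟩
      change (col (C \ _) i).Finite at hi1
      change i ∉ X at hi2
      rw [col_diff, col_glue] at hi1
      simpa [hi2] using hi1

/-- Recovering the ultrafilter from the quotient: second half. -/
theorem notMem_of_atomic {p : Ultrafilter P} (hp : ∀ x, {x} ∉ p) {X : Set P} {b : Set ℤ}
    (h1 : ∀ i, atm i \ b ∈ Ip p ↔ i ∈ X) (h2 : Atomic (Ip p) b) : X ∉ p := by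
  intro hX
  choose t ht1 ht2 using split'
  let C : Set ℤ := glue (fun i => t (col b i))
  have hcol : ∀ i ∈ X, (col C i).Infinite ∧ col C i ∉ hyperfilter ℕ := by
    intro i hi
    rw [col_glue]
    exact ht2 _ (mem_hyper_infinite ((atm_diff_mem hp i b).mp ((h1 i).mpr hi)))
  have hsub : C ⊆ b := by
    intro z hz
    have : (e z).2 ∈ col b (e z).1 := ht1 _ hz
    simpa [col] using this
  obtain ⟨a, ha1, ha2⟩ := h2 C (by rw [sdiff_eq_bot_iff.mpr hsub]; exact Order.Ideal.bot_mem _)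
    (fun hC => by
      have := inter_mem hX hC.2
      obtain ⟨i, hi1, hi2⟩ := Ultrafilter.nonempty_of_mem this
      exact (hcol i hi1).1 hi2)
  obtain ⟨i, hi1, hi2⟩ := atm_classify hp ha1
  have h3 : atm i \ C ∈ Ip p := dtrans hi1 ha2
  have h4 : col C i ∈ hyperfilter ℕ := (atm_diff_mem hp i C).mp h3
  have h5 : col b i ∈ hyperfilter ℕ := mem_of_superset h4 (col_mono hsub i)
  have h6 : i ∈ X := (h1 i).mp ((atm_diff_mem hp i b).mpr h5)
  exact (hcol i h6).2 h4

theorem exists_perm {p q : Ultrafilter P} (hp : ∀ x, {x} ∉ p) (hq : ∀ x, {x} ∉ q)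
    {f : Set ℤ → Set ℤ} (hf : Mor (Ip p) (Ip q) f) : ∃ σ : Equiv.Perm P, q = p.map σ := by
  have h : ∀ i, ∃ j, atm j \ f (atm i) ∈ Ip q ∧ f (atm i) \ atm j ∈ Ip q := fun i =>
    atm_classify hq ((isAtm_map hf).mp (isAtm_atm hp i))
  choose σ hσ1 hσ2 using h
  have hatm : ∀ {r : Ultrafilter P} (_ : ∀ x, {x} ∉ r) {i j : P}, atm i \ atm j ∈ Ip r → i = j := by
    intro r hr i j hij
    rw [atm_diff_mem hr] at hij
    by_contra hne
    rw [col_atm_ne (Ne.symm hne)] at hij
    exact Ultrafilter.empty_notMem hij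
  have hinj : Function.Injective σ := by
    intro i j hij
    apply hatm hp
    rw [hf.hle]
    refine dtrans (hσ2 i) ?_
    rw [hij]
    exact hσ1 j
  have hsurj : Function.Surjective σ := by
    intro j
    obtain ⟨A, hA1, hA2⟩ := hf.hsurj (atm j)
    have hA : IsAtm (Ip p) A := (isAtm_map hf).mpr (isAtm_congr hA2 hA1 (isAtm_atm hq j))
    obtain ⟨i, hi1, hi2⟩ := atm_classify hp hA
    refine ⟨i, ?_⟩
    apply hatm hq
    refine dtrans (hσ1 i) (dtrans ((hf.hle _ _).mp hi1) hA1)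
  refine ⟨Equiv.ofBijective σ ⟨hinj, hsurj⟩, ?_⟩
  symm
  rw [← Ultrafilter.coe_le_coe]
  intro Y hY
  change σ ⁻¹' Y ∈ p
  by_contra hcon
  obtain ⟨b, hb1, hb2⟩ := exists_atomic hp hcon
  refine notMem_of_atomic hq (X := Y) (b := f b) (fun j => ?_) (atomic_map hf hb2) hY
  obtain ⟨i, rfl⟩ := hsurj j
  have h1 : atm (σ i) \ f b ∈ Ip q ↔ f (atm i) \ f b ∈ Ip q :=
    ⟨fun h => dtrans (hσ2 i) h, fun h => dtrans (hσ1 i) h⟩
  rw [h1, ← hf.hle, hb1 i]
  rfl

theorem mor_of {I J : Order.Ideal (Set ℤ)} {f : Set ℤ → Set ℤ}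
    (h1 : ∀ A B : Set ℤ, symmDiff A B ∈ I ↔ symmDiff (f A) (f B) ∈ J)
    (h2 : ∀ C : Set ℤ, ∃ A : Set ℤ, symmDiff (f A) C ∈ J)
    (h3 : ∀ A B : Set ℤ, symmDiff (f (A ∩ B)) (f A ∩ f B) ∈ J)
    (h4 : ∀ A : Set ℤ, symmDiff (f Aᶜ) (f A)ᶜ ∈ J) : Mor I J f := by
  have l1 : ∀ {A B : Set ℤ}, symmDiff A B ∈ J → A \ B ∈ J := fun h =>
    mem_mono (fun x hx => Or.inl hx) h
  have l2 : ∀ {A B : Set ℤ}, symmDiff A B ∈ J → B \ A ∈ J := fun h =>
    mem_mono (fun x hx => Or.inr hx) h
  have hempty : f ∅ ∈ J := by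
    have a1 := h3 ∅ ∅ᶜ
    rw [inter_compl_self] at a1
    have a2 := l1 a1
    refine mem_of_diff a2 ?_
    refine mem_mono ?_ (l1 (h4 ∅))
    intro x hx
    exact ⟨hx.2, fun h => h hx.1⟩
  have hmem : ∀ A, A ∈ I ↔ f A ∈ J := by
    intro A
    have := h1 A ∅
    rw [show symmDiff A ∅ = A from symmDiff_bot A] at this
    rw [this]
    constructor
    · intro h
      exact mem_of_diff (l1 h) hempty
    · intro h
      refine mem_mono ?_ (mem_union h hempty)
      rintro x (hx | hx)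
      · exact Or.inl hx.1
      · exact Or.inr hx.1
  refine ⟨fun A B => ?_, hmem, fun C => ?_⟩
  · rw [hmem]
    have a1 := h3 A Bᶜ
    have a2 := h4 B
    constructor
    · intro h
      have h5 : f A ∩ f Bᶜ ∈ J := mem_of_diff (l2 a1) h
      refine mem_mono ?_ (mem_union h5 (l2 a2))
      intro x hx
      by_cases hx' : x ∈ f Bᶜ
      · exact Or.inl ⟨hx.1, hx'⟩
      · exact Or.inr ⟨hx.2, hx'⟩
    · intro h
      refine mem_of_diff (l1 a1) ?_
      refine mem_mono ?_ (mem_union h (l1 a2))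
      intro x hx
      by_cases hx' : x ∈ f B
      · exact Or.inr ⟨hx.2, fun h => h hx'⟩
      · exact Or.inl ⟨hx.1, hx'⟩
  · obtain ⟨A, hA⟩ := h2 C
    exact ⟨A, l1 hA, l2 hA⟩

/-- A relation with classes of size at most the continuum on `Set (Set ℕ)` has a transversal of
full size. -/
theorem exists_transversal (s : Setoid (Set (Set ℕ)))
    (hs : ∀ x, Cardinal.mk {y // s.r x y} ≤ Cardinal.continuum) :
    ∃ g : Set (Set ℕ) → Set (Set ℕ), ∀ a b, a ≠ b → ¬ s.r (g a) (g b) := by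
  have hX : Cardinal.mk (Set (Set ℕ)) = 2 ^ Cardinal.continuum := by
    rw [Cardinal.mk_set, Cardinal.mk_set, Cardinal.mk_nat, Cardinal.two_power_aleph0]
  have hcard : Cardinal.mk (Set (Set ℕ)) ≤ Cardinal.mk (Quotient s) := by
    by_contra hcon
    push Not at hcon
    have h1 : Cardinal.mk (Set (Set ℕ)) =
        Cardinal.mk (Σ q : Quotient s, {y : Set (Set ℕ) // Quotient.mk s y = q}) :=
      Cardinal.mk_congr (Equiv.sigmaFiberEquiv (Quotient.mk s)).symm
    have h2 : Cardinal.mk (Σ q : Quotient s, {y : Set (Set ℕ) // Quotient.mk s y = q}) ≤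
        Cardinal.mk (Quotient s) * Cardinal.continuum := by
      rw [Cardinal.mk_sigma]
      refine (Cardinal.sum_le_sum _ (fun _ => Cardinal.continuum) (fun q => ?_)).trans ?_
      · induction q using Quotient.inductionOn with
        | h x =>
          refine le_trans (Cardinal.mk_le_of_injective (f := fun y => (⟨y.1, ?_⟩ : {y // s.r x y})) ?_) (hs x)
          · exact s.symm (Quotient.exact y.2)
          · intro y z hyz
            exact Subtype.ext (congrArg (fun w => w.1) hyz)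
      · simp
    have h3 : Cardinal.mk (Quotient s) * Cardinal.continuum < Cardinal.mk (Set (Set ℕ)) := by
      apply Cardinal.mul_lt_of_lt _ hcon
      · rw [hX]; exact Cardinal.cantor _
      · rw [hX]
        exact (Cardinal.aleph0_le_continuum).trans (Cardinal.cantor _).le
    exact absurd (h1.le.trans h2) (not_le.mpr h3)
  obtain ⟨g⟩ := hcard
  refine ⟨fun a => (g a).out, fun a b hab h => hab ?_⟩
  apply g.injective
  have := Quotient.sound (s := s) h
  simpa using this

/-- There is a family of ideals on the subsets of ℤ, indexed by a set of size 2^continuum, such that for distinct indices the quotient Boolean algebras P(ℤ)/I are not isomorphic. -/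
theorem result :
    ∃ F : Set (Set ℕ) → Order.Ideal (Set ℤ),
      ∀ a b : Set (Set ℕ), a ≠ b →
        ¬ ∃ f : Set ℤ → Set ℤ,
          (∀ A B : Set ℤ, symmDiff A B ∈ F a ↔ symmDiff (f A) (f B) ∈ F b) ∧
          (∀ C : Set ℤ, ∃ A : Set ℤ, symmDiff (f A) C ∈ F b) ∧
          (∀ A B : Set ℤ, symmDiff (f (A ∩ B)) (f A ∩ f B) ∈ F b) ∧
          (∀ A : Set ℤ, symmDiff (f Aᶜ) (f A)ᶜ ∈ F b) := by
  obtain ⟨U, hU1, hU2⟩ := exists_ultrafilters ℕ
  let s : Setoid (Set (Set ℕ)) :=
    { r := fun a b => ∃ σ : Equiv.Perm P, U b = (U a).map σ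
      iseqv := ⟨fun a => ⟨Equiv.refl _, by simp⟩, fun {a b} ⟨σ, h⟩ => ⟨σ.symm, by
          rw [h, Ultrafilter.map_map]; simp⟩, fun {a b c} ⟨σ, h⟩ ⟨τ, h'⟩ =>
          ⟨σ.trans τ, by rw [h', h, Ultrafilter.map_map]; rfl⟩⟩ }
  have hs : ∀ x, Cardinal.mk {y // s.r x y} ≤ Cardinal.continuum := by
    intro x
    have h1 : Cardinal.mk (P → P) ≤ Cardinal.continuum := by
      have : Cardinal.mk P = Cardinal.aleph0 := Cardinal.mk_eq_aleph0 P
      rw [← Cardinal.power_def, this]
      exact Cardinal.aleph0_power_aleph0.le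
    have h2 : Cardinal.mk {y // s.r x y} ≤ Cardinal.mk (P → P) := by
      have hch : ∀ y : {y // s.r x y}, ∃ σ : P → P, U y.1 = (U x).map σ := fun y => by
        obtain ⟨σ, hσ⟩ := y.2
        exact ⟨σ, hσ⟩
      choose g hg using hch
      refine Cardinal.mk_le_of_injective (f := g) (fun y z hyz => ?_)
      apply Subtype.ext
      apply hU1
      rw [hg y, hg z, hyz]
    exact h2.trans h1
  obtain ⟨g, hg⟩ := exists_transversal s hs
  refine ⟨fun a => Ip (U (g a)), fun a b hab => ?_⟩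
  rintro ⟨f, h1, h2, h3, h4⟩
  exact hg a b hab (exists_perm (hU2 _) (hU2 _) (mor_of h1 h2 h3 h4))

end Pool.Agent.S09697
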