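import Pool.Statements.S09703
import Pool.Agent.Helper230.IdxLang

set_option autoImplicit false
open Pool Pool.MP_c77619_lc

namespace Pool.Agent.S09703

open Pool.Agent.Helper230

/-- copy-type rules of a normal form rule: types 0, 3 and 4 -/
def cp (r : ℕ × ℕ × ℕ × ℕ) : Option (ℕ × List (ℕ ⊕ ℕ)) :=
  if r.1 = 0 then some (r.2.1, [Sum.inl r.2.2.1, Sum.inl r.2.2.2])
  else if r.1 = 3 then some (r.2.1, [Sum.inr r.2.2.1])
  else if r.1 = 4 then some (r.2.1, []) else none

def ps (r : ℕ × ℕ × ℕ × ℕ) : Option (ℕ × ℕ × ℕ) :=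
  if r.1 = 1 then some (r.2.1, r.2.2.1, r.2.2.2) else none

def pp (r : ℕ × ℕ × ℕ × ℕ) : Option (ℕ × ℕ × List (ℕ ⊕ ℕ)) :=
  if r.1 = 2 then some (r.2.1, r.2.2.2, [Sum.inl r.2.2.1]) else none

abbrev Inp := ℕ × List (ℕ × ℕ × ℕ × ℕ) × List (List ℕ) × List (List ℕ)

def conv (p : Inp) : IGr :=
  (p.1, p.2.1.filterMap cp, p.2.1.filterMap ps, p.2.1.filterMap pp)

/-- the rewriting relation of the frozen statement -/
def R (p : Inp) (u v : List ((ℕ × List ℕ) ⊕ ℕ)) : Prop :=
  ∃ (pre suf : List ((ℕ × List ℕ) ⊕ ℕ)) (A : ℕ) (σ : List ℕ),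
    u = pre ++ Sum.inl (A, σ) :: suf ∧
    ∃ r ∈ p.2.1, r.2.1 = A ∧
      ((r.1 = 0 ∧
          v = pre ++ Sum.inl (r.2.2.1, σ) :: Sum.inl (r.2.2.2, σ) :: suf) ∨
       (r.1 = 1 ∧ v = pre ++ Sum.inl (r.2.2.1, r.2.2.2 :: σ) :: suf) ∨
       (r.1 = 2 ∧ ∃ τ : List ℕ, σ = r.2.2.2 :: τ ∧
          v = pre ++ Sum.inl (r.2.2.1, τ) :: suf) ∨
       (r.1 = 3 ∧ v = pre ++ Sum.inr r.2.2.1 :: suf) ∨
       (r.1 = 4 ∧ v = pre ++ suf))

theorem R_iff (p : Inp) (u v : List ((ℕ × List ℕ) ⊕ ℕ)) :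
    R p u v ↔ Step (Ex (conv p)) u v := by
  constructor
  · rintro ⟨pre, suf, A, σ, rfl, r, hr, rfl, h⟩
    rcases h with ⟨h0, rfl⟩ | ⟨h0, rfl⟩ | ⟨h0, τ, rfl, rfl⟩ | ⟨h0, rfl⟩ | ⟨h0, rfl⟩
    · refine ⟨pre, suf, _, [Sum.inl (r.2.2.1, σ), Sum.inl (r.2.2.2, σ)], rfl, Or.inl
        ⟨[Sum.inl r.2.2.1, Sum.inl r.2.2.2], ?_, rfl⟩, by simp⟩
      exact List.mem_filterMap.2 ⟨r, hr, by simp [cp, h0]⟩
    · refine ⟨pre, suf, _, [Sum.inl (r.2.2.1, r.2.2.2 :: σ)], rfl, Or.inr (Or.inl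
        ⟨r.2.2.1, r.2.2.2, ?_, rfl⟩), by simp⟩
      exact List.mem_filterMap.2 ⟨r, hr, by simp [ps, h0]⟩
    · refine ⟨pre, suf, _, [Sum.inl (r.2.2.1, τ)], rfl, Or.inr (Or.inr
        ⟨r.2.2.2, τ, [Sum.inl r.2.2.1], rfl, ?_, rfl⟩), by simp⟩
      exact List.mem_filterMap.2 ⟨r, hr, by simp [pp, h0]⟩
    · refine ⟨pre, suf, _, [Sum.inr r.2.2.1], rfl, Or.inl
        ⟨[Sum.inr r.2.2.1], ?_, rfl⟩, by simp⟩
      exact List.mem_filterMap.2 ⟨r, hr, by simp [cp, h0]⟩
    · refine ⟨pre, suf, _, [], rfl, Or.inl ⟨[], ?_, rfl⟩, by simp⟩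
      exact List.mem_filterMap.2 ⟨r, hr, by simp [cp, h0]⟩
  · rintro ⟨pre, suf, ⟨A, σ⟩, x, rfl, hx, rfl⟩
    rcases hx with ⟨α, hα, rfl⟩ | ⟨B, f, hB, rfl⟩ | ⟨f, s, α, hs, hα, rfl⟩
    · obtain ⟨r, hr, hc⟩ := List.mem_filterMap.1 hα
      unfold cp at hc
      split_ifs at hc with h0 h3 h4
      · simp only [Option.some.injEq, Prod.mk.injEq] at hc
        obtain ⟨h1, h2⟩ := hc
        subst h2
        exact ⟨pre, suf, A, σ, rfl, r, hr, h1, Or.inl ⟨h0, by simp [lift]⟩⟩
      · simp only [Option.some.injEq, Prod.mk.injEq] at hc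
        obtain ⟨h1, h2⟩ := hc
        subst h2
        exact ⟨pre, suf, A, σ, rfl, r, hr, h1, Or.inr (Or.inr (Or.inr (Or.inl
          ⟨h3, by simp [lift]⟩)))⟩
      · simp only [Option.some.injEq, Prod.mk.injEq] at hc
        obtain ⟨h1, h2⟩ := hc
        subst h2
        exact ⟨pre, suf, A, σ, rfl, r, hr, h1, Or.inr (Or.inr (Or.inr (Or.inr
          ⟨h4, by simp [lift]⟩)))⟩
    · obtain ⟨r, hr, hc⟩ := List.mem_filterMap.1 hB
      unfold ps at hc
      split_ifs at hc with h0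
      simp only [Option.some.injEq, Prod.mk.injEq] at hc
      obtain ⟨h1, h2, h3⟩ := hc
      subst h2 h3
      exact ⟨pre, suf, A, σ, rfl, r, hr, h1, Or.inr (Or.inl ⟨h0, by simp⟩)⟩
    · obtain ⟨r, hr, hc⟩ := List.mem_filterMap.1 hα
      unfold pp at hc
      split_ifs at hc with h0
      simp only [Option.some.injEq, Prod.mk.injEq] at hc
      obtain ⟨h1, h2, h3⟩ := hc
      subst h2 h3
      dsimp only at hs
      exact ⟨pre, suf, A, σ, rfl, r, hr, h1, Or.inr (Or.inr (Or.inl ⟨h0, s, hs,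
        by simp [lift]⟩))⟩

theorem R_eq (p : Inp) : R p = Step (Ex (conv p)) := by
  funext u v
  exact propext (R_iff p u v)

theorem prim_cp : Primrec cp := by
  have h0 : Primrec fun r : ℕ × ℕ × ℕ × ℕ => r.1 := Primrec.fst
  have h1 : Primrec fun r : ℕ × ℕ × ℕ × ℕ => r.2.1 := Primrec.fst.comp Primrec.snd
  have h2 : Primrec fun r : ℕ × ℕ × ℕ × ℕ => r.2.2.1 :=
    Primrec.fst.comp (Primrec.snd.comp Primrec.snd)
  have h3 : Primrec fun r : ℕ × ℕ × ℕ × ℕ => r.2.2.2 :=
    Primrec.snd.comp (Primrec.snd.comp Primrec.snd)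
  refine Primrec.ite (PrimrecRel.comp Primrec.eq h0 (Primrec.const 0)) ?_
    (Primrec.ite (PrimrecRel.comp Primrec.eq h0 (Primrec.const 3)) ?_
      (Primrec.ite (PrimrecRel.comp Primrec.eq h0 (Primrec.const 4)) ?_ (Primrec.const none)))
  · exact Primrec.option_some.comp (Primrec.pair h1 (Primrec.list_cons.comp
      (Primrec.sumInl.comp h2) (Primrec.list_cons.comp (Primrec.sumInl.comp h3)
        (Primrec.const []))))
  · exact Primrec.option_some.comp (Primrec.pair h1 (Primrec.list_cons.comp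
      (Primrec.sumInr.comp h2) (Primrec.const [])))
  · exact Primrec.option_some.comp (Primrec.pair h1 (Primrec.const []))

theorem prim_ps : Primrec ps := by
  have h0 : Primrec fun r : ℕ × ℕ × ℕ × ℕ => r.1 := Primrec.fst
  refine Primrec.ite (PrimrecRel.comp Primrec.eq h0 (Primrec.const 1)) ?_ (Primrec.const none)
  exact Primrec.option_some.comp (Primrec.pair (Primrec.fst.comp Primrec.snd)
    (Primrec.pair (Primrec.fst.comp (Primrec.snd.comp Primrec.snd))
      (Primrec.snd.comp (Primrec.snd.comp Primrec.snd))))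

theorem prim_pp : Primrec pp := by
  have h0 : Primrec fun r : ℕ × ℕ × ℕ × ℕ => r.1 := Primrec.fst
  refine Primrec.ite (PrimrecRel.comp Primrec.eq h0 (Primrec.const 2)) ?_ (Primrec.const none)
  exact Primrec.option_some.comp (Primrec.pair (Primrec.fst.comp Primrec.snd)
    (Primrec.pair (Primrec.snd.comp (Primrec.snd.comp Primrec.snd))
      (Primrec.list_cons.comp (Primrec.sumInl.comp
        (Primrec.fst.comp (Primrec.snd.comp Primrec.snd))) (Primrec.const []))))

theorem prim_conv : Primrec conv := by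
  have h : Primrec fun p : Inp => p.2.1 := Primrec.fst.comp Primrec.snd
  refine Primrec.pair Primrec.fst (Primrec.pair ?_ (Primrec.pair ?_ ?_))
  · exact Primrec.listFilterMap h (prim_cp.comp Primrec.snd)
  · exact Primrec.listFilterMap h (prim_ps.comp Primrec.snd)
  · exact Primrec.listFilterMap h (prim_pp.comp Primrec.snd)

theorem prim_hom : Primrec fun x : List (List ℕ) × List ℕ =>
    x.2.flatMap (fun a => x.1.getD a []) := by
  refine Primrec.list_flatMap (f := fun x : List (List ℕ) × List ℕ => x.2)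
    (g := fun x a => x.1.getD a []) Primrec.snd ?_
  exact (Primrec.list_getD ([] : List ℕ)).comp (Primrec.fst.comp Primrec.fst) Primrec.snd

theorem prim_homEq : PrimrecPred fun x : Inp × List ℕ =>
    x.2.flatMap (fun a => x.1.2.2.1.getD a []) = x.2.flatMap (fun a => x.1.2.2.2.getD a []) := by
  refine PrimrecRel.comp Primrec.eq ?_ ?_
  · exact prim_hom.comp (g := fun x : Inp × List ℕ => (x.1.2.2.1, x.2))
      (Primrec.pair (Primrec.fst.comp (Primrec.snd.comp (Primrec.snd.comp Primrec.fst)))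
        Primrec.snd)
  · exact prim_hom.comp (g := fun x : Inp × List ℕ => (x.1.2.2.2, x.2))
      (Primrec.pair (Primrec.snd.comp (Primrec.snd.comp (Primrec.snd.comp Primrec.fst)))
        Primrec.snd)

def Agree (p : Inp) : Prop := ∀ w ∈ Lang (conv p),
  w.flatMap (fun a => p.2.2.1.getD a []) = w.flatMap (fun a => p.2.2.2.getD a [])

section irr
attribute [local irreducible] S1 Primrec conv Lang

theorem s1_agree : S1 Agree := by
  have h : S1 fun p : Inp => ∃ y : Cert × List (List ℕ),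
      (ValidC (conv p) y.1 ∧ KC y.1 (conv p).1 none = y.2.map (fun w => w.map Sum.inr)) ∧
      ∀ w ∈ y.2, w.flatMap (fun a => p.2.2.1.getD a [])
        = w.flatMap (fun a => p.2.2.2.getD a []) := by
    refine S1.exists (q := fun (p : Inp) (y : Cert × List (List ℕ)) =>
      (ValidC (conv p) y.1 ∧ KC y.1 (conv p).1 none = y.2.map (fun w => w.map Sum.inr)) ∧
      ∀ w ∈ y.2, w.flatMap (fun a => p.2.2.1.getD a [])
        = w.flatMap (fun a => p.2.2.2.getD a [])) (S1.and ?_ ?_)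
    · exact s1_certF.comp (f := fun x : Inp × Cert × List (List ℕ) => (conv x.1, x.2.1, x.2.2))
        (Primrec.pair (prim_conv.comp Primrec.fst)
          (Primrec.pair (Primrec.fst.comp Primrec.snd) (Primrec.snd.comp Primrec.snd)))
    · refine S1.forall_mem' (α := Inp × Cert × List (List ℕ)) (f := fun x => x.2.2)
        (q := fun x w => w.flatMap (fun a => x.1.2.2.1.getD a [])
        = w.flatMap (fun a => x.1.2.2.2.getD a [])) (Primrec.snd.comp Primrec.snd) ?_
      exact S1.of_prim (prim_homEq.comp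
        (f := fun x : (Inp × Cert × List (List ℕ)) × List ℕ => (x.1.1, x.2))
        (Primrec.pair (Primrec.fst.comp Primrec.fst) Primrec.snd))
  refine h.of_eq ?_
  intro p
  constructor
  · rintro ⟨⟨C, F⟩, ⟨hC, hF⟩, hw⟩
    exact test_sound hC hF _ _ hw
  · intro hA
    obtain ⟨C, F, hC, hF, hL⟩ := exists_test (G := conv p)
    exact ⟨(C, F), ⟨hC, hF⟩, fun w hw => hA w (hL w hw)⟩

theorem s1_not_agree : S1 fun p => ¬ Agree p := by
  have h : S1 fun p : Inp => ∃ w : List ℕ, w ∈ Lang (conv p) ∧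
      ¬ (w.flatMap (fun a => p.2.2.1.getD a []) = w.flatMap (fun a => p.2.2.2.getD a [])) := by
    refine S1.exists (q := fun (p : Inp) (w : List ℕ) => w ∈ Lang (conv p) ∧
      ¬ (w.flatMap (fun a => p.2.2.1.getD a []) = w.flatMap (fun a => p.2.2.2.getD a [])))
      (S1.and ?_ (S1.of_prim prim_homEq.not))
    exact s1_Lang.comp (f := fun x : Inp × List ℕ => (conv x.1, x.2))
      (Primrec.pair (prim_conv.comp Primrec.fst) Primrec.snd)
  refine h.of_eq ?_
  intro p
  simp only [Agree, not_forall, exists_prop]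

end irr

/-- It is computably decidable, given an indexed grammar in normal form and two letter-to-word homomorphisms h and g, whether h(w) = g(w) for every word w generated by the grammar. -/
theorem result :
    ComputablePred
      (fun p : ℕ × List (ℕ × ℕ × ℕ × ℕ) × List (List ℕ) × List (List ℕ) =>
        ∀ w : List ℕ,
          Relation.ReflTransGen
            (fun (u v : List ((ℕ × List ℕ) ⊕ ℕ)) =>
              ∃ (pre suf : List ((ℕ × List ℕ) ⊕ ℕ)) (A : ℕ) (σ : List ℕ),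
                u = pre ++ Sum.inl (A, σ) :: suf ∧
                ∃ r ∈ p.2.1, r.2.1 = A ∧
                  ((r.1 = 0 ∧
                      v = pre ++ Sum.inl (r.2.2.1, σ) :: Sum.inl (r.2.2.2, σ) :: suf) ∨
                   (r.1 = 1 ∧ v = pre ++ Sum.inl (r.2.2.1, r.2.2.2 :: σ) :: suf) ∨
                   (r.1 = 2 ∧ ∃ τ : List ℕ, σ = r.2.2.2 :: τ ∧
                      v = pre ++ Sum.inl (r.2.2.1, τ) :: suf) ∨
                   (r.1 = 3 ∧ v = pre ++ Sum.inr r.2.2.1 :: suf) ∨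
                   (r.1 = 4 ∧ v = pre ++ suf)))
            ([Sum.inl (p.1, [])] : List ((ℕ × List ℕ) ⊕ ℕ))
            (List.map Sum.inr w : List ((ℕ × List ℕ) ⊕ ℕ)) →
          w.flatMap (fun a => p.2.2.1.getD a []) =
            w.flatMap (fun a => p.2.2.2.getD a [])) := by
  refine (computablePred_of_S1 s1_agree s1_not_agree).of_eq ?_
  intro p
  refine forall_congr' fun w => ?_
  refine imp_congr ?_ Iff.rfl
  change Der (Ex (conv p)) [Sum.inl (p.1, [])] w ↔
    Relation.ReflTransGen (R p) [Sum.inl (p.1, [])] (w.map Sum.inr)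
  rw [R_eq]
  exact (rtg_iff_Der _ _).symm

end Pool.Agent.S09703
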