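import Pool.Statements.S09723
import Pool.Agent.Helper180.VR.Final

set_option autoImplicit false
open FirstOrder
open Pool Pool.MP_d255c3_lc

namespace Pool.Agent.S09723

/-- There is an algebraically closed field K and a finite extension L of K(Z), possibly K(Z) itself, carrying a valuation ring other than L itself that is definable with parameters in L in the language of rings. -/
theorem result :
    ∃ (K : Type) (_ : Field K) (_ : IsAlgClosed K) (L : Type) (_ : Field L)
      (_ : Algebra (RatFunc K) L) (_ : FiniteDimensional (RatFunc K) L)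
      (_ : FirstOrder.Ring.CompatibleRing L) (R : ValuationSubring L),
      R ≠ ⊤ ∧ Set.Definable (Set.univ : Set L) FirstOrder.Language.ring
        {x : Fin 1 → L | x 0 ∈ R} := by
  letI : Fact (Nat.Prime 3) := ⟨Nat.prime_three⟩
  letI K3 : CharP (AlgebraicClosure (ZMod 3)) 3 :=
    charP_of_injective_algebraMap (algebraMap (ZMod 3) (AlgebraicClosure (ZMod 3))).injective 3
  letI cr : FirstOrder.Ring.CompatibleRing (RatFunc (AlgebraicClosure (ZMod 3))) :=
    FirstOrder.Ring.compatibleRingOfRing _
  refine ⟨AlgebraicClosure (ZMod 3), inferInstance, inferInstance,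
    RatFunc (AlgebraicClosure (ZMod 3)), inferInstance, Algebra.id _, inferInstance, cr,
    Pool.Agent.Helper180.VR.R0 _, Pool.Agent.Helper180.VR.R0_ne_top, ?_⟩
  exact Pool.Agent.Helper180.VR.main3

end Pool.Agent.S09723
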