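import Pool.Statements.S09736
import Pool.Agent.Helper578.Main

set_option autoImplicit false
open Pool Pool.MP_d52dcb_lc

namespace Pool.Agent.S09736

/-- The negation of the preceding statement: Every computable scattered linear order (computable domain in ℕ, computable strict order, no copy of ℚ) is isomorphic to the lexicographically ordered isolated paths of some computable, prefix-closed, dead-end-free binary tree all of whose paths are computable. -/
theorem result :
    ¬ (∀ (D : Set ℕ) (R : ℕ → ℕ → Prop),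
    ComputablePred (fun n : ℕ => n ∈ D) →
    ComputablePred (fun p : ℕ × ℕ => R p.1 p.2) →
    (∀ x ∈ D, ¬ R x x) →
    (∀ x ∈ D, ∀ y ∈ D, ∀ z ∈ D, R x y → R y z → R x z) →
    (∀ x ∈ D, ∀ y ∈ D, x ≠ y → R x y ∨ R y x) →
    (¬ ∃ e : ℚ → ℕ, (∀ q, e q ∈ D) ∧ ∀ q r : ℚ, q < r → R (e q) (e r)) →
    ∃ T : Set (List Bool),
      ComputablePred (fun σ : List Bool => σ ∈ T) ∧
      (∀ σ τ : List Bool, σ ++ τ ∈ T → σ ∈ T) ∧
      (∀ σ ∈ T, ∃ b : Bool, σ ++ [b] ∈ T) ∧
      (∀ f : ℕ → Bool, (∀ n : ℕ, List.ofFn (fun i : Fin n => f i) ∈ T) → Computable f) ∧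
      ∃ φ : ℕ → ℕ → Bool,
        (∀ x ∈ D,
          (∀ n : ℕ, List.ofFn (fun i : Fin n => φ x i) ∈ T) ∧
          ∃ σ : List Bool, List.ofFn (fun i : Fin σ.length => φ x i) = σ ∧
            ∀ h : ℕ → Bool, (∀ n : ℕ, List.ofFn (fun i : Fin n => h i) ∈ T) →
              List.ofFn (fun i : Fin σ.length => h i) = σ → h = φ x) ∧
        (∀ g : ℕ → Bool,
          ((∀ n : ℕ, List.ofFn (fun i : Fin n => g i) ∈ T) ∧
           ∃ σ : List Bool, List.ofFn (fun i : Fin σ.length => g i) = σ ∧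
             ∀ h : ℕ → Bool, (∀ n : ℕ, List.ofFn (fun i : Fin n => h i) ∈ T) →
               List.ofFn (fun i : Fin σ.length => h i) = σ → h = g) →
          ∃ x ∈ D, φ x = g) ∧
        (∀ x ∈ D, ∀ y ∈ D,
          (R x y ↔ ∃ n : ℕ, (∀ i < n, φ x i = φ y i) ∧ φ x n = false ∧ φ y n = true))) := by
  intro hall
  obtain ⟨T, hT, hTp, hTe, hTc, φ, h1, h2, h3⟩ := hall Helper578.DD Helper578.RR
    Helper578.computable_DD Helper578.computable_RR Helper578.RR_irrefl Helper578.RR_trans
    Helper578.RR_total Helper578.RR_scattered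
  have hpre : ∀ (g : ℕ → Bool) (n : ℕ),
      List.ofFn (fun i : Fin n => g i) = Helper578.pre g n := by
    intro g n
    refine List.ext_getElem (by simp) fun i h1 h2 => ?_
    simp [Helper578.pre]
  simp only [hpre] at hTc h1 h2
  exact Helper578.main T hT hTp hTe hTc φ h1 h2 h3

end Pool.Agent.S09736
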