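import Pool.Statements.S09738
import Pool.Agent.Helper116.TreeMain

set_option autoImplicit false
open Pool Pool.MP_d546a0_lc

namespace Pool.Agent.S09738

/-- The negation of the preceding statement: There are constants C>0 and D such that for every full binary tree of height h and every k, some matrix with at most Dk rows and a decoder satisfy: decoded error in ℓ1 is at most C times the ℓ1 distance from x to any rooted k-node-subtree-supported vector. -/
theorem result :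
    ¬ (∃ C : ℝ, 0 < C ∧ ∃ D : ℕ, ∀ h k : ℕ, 1 ≤ k → k ≤ 2 ^ h - 1 →
    ∃ m : ℕ, m ≤ D * k ∧ ∃ A : Matrix (Fin m) (Fin (2 ^ h - 1)) ℝ,
      ∃ R : (Fin m → ℝ) → (Fin (2 ^ h - 1) → ℝ),
        ∀ x x' : Fin (2 ^ h - 1) → ℝ,
          (∃ T : Finset (Fin (2 ^ h - 1)), T.card = k ∧ (∃ r ∈ T, r.val = 0) ∧
             (∀ i ∈ T, i.val ≠ 0 → ∃ j ∈ T, j.val + 1 = (i.val + 1) / 2) ∧
             (∀ i, i ∉ T → x' i = 0)) →
          ∑ i, |R (Matrix.mulVec A x) i - x i| ≤ C * ∑ i, |x' i - x i|) := by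
  rintro ⟨C, hC, D, h⟩
  refine Pool.Agent.Helper116.TreeNo.main_false C hC D ?_
  intro hh k h1 h2
  obtain ⟨m, hm, A, R, hR⟩ := h hh k h1 h2
  refine ⟨m, hm, A, R, ?_⟩
  rintro x x' ⟨T, ⟨hT1, hT2, hT3⟩, hT4⟩
  exact hR x x' ⟨T, hT1, hT2, hT3, hT4⟩

end Pool.Agent.S09738
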