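import Pool.Statements.S09746

set_option autoImplicit false
open Pool Pool.MP_d6c85c_lc

namespace Pool.Agent.S09746

section Aux
open Cardinal Set


/-- Injective choice from large sets. -/
theorem exists_inj_choice {T X : Type} (A : T → Set X) (hA : ∀ t, #T ≤ #(A t)) :
    ∃ φ : T → X, Function.Injective φ ∧ ∀ t, φ t ∈ A t := by
  classical
  obtain ⟨_, _, ho⟩ := exists_ord_eq_type_lt T
  have key : ∀ (t : T) (prev : ∀ s, s < t → X), ∃ x ∈ A t, ∀ s (h : s < t), prev s h ≠ x := by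
    intro t prev
    by_contra hcon
    push Not at hcon
    have h1 : A t ⊆ Set.range (fun s : Set.Iio t => prev s.1 s.2) := by
      intro x hx
      obtain ⟨s, hs, h⟩ := hcon x hx
      exact ⟨⟨s, hs⟩, h⟩
    have h2 := (mk_le_mk_of_subset h1).trans mk_range_le
    exact absurd ((hA t).trans h2) (not_le.mpr (mk_Iio_lt t ho))
  choose g hg1 hg2 using key
  let φ : T → X := (wellFounded_lt (α := T)).fix g
  have hφ : ∀ t, φ t = g t (fun s _ => φ s) := fun t => WellFounded.fix_eq _ _ _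
  refine ⟨φ, ?_, ?_⟩
  · intro a b hab
    by_contra hne
    rcases lt_or_gt_of_ne hne with h | h
    · have := hg2 b (fun s _ => φ s) a h
      rw [← hφ b] at this
      exact this hab
    · have := hg2 a (fun s _ => φ s) b h
      rw [← hφ a] at this
      exact this hab.symm
  · intro t
    rw [hφ t]
    exact hg1 t _

/-- Bernstein colouring. -/
theorem bernstein {J X : Type} (S : J → Set X) (hX : ℵ₀ ≤ #X) (hJ : #J ≤ #X)
    (hS : ∀ j, #X ≤ #(S j)) :
    ∃ c : X → Bool, ∀ j, (∃ x ∈ S j, c x = true) ∧ (∃ x ∈ S j, c x = false) := by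
  classical
  have hT : #(J × Bool) ≤ #X := by
    rw [mk_prod, lift_id, lift_id, mk_bool]
    calc #J * 2 ≤ #X * ℵ₀ := mul_le_mul' hJ (by exact_mod_cast (natCast_lt_aleph0 (n := 2)).le)
      _ = #X := mul_eq_left hX hX aleph0_ne_zero
  obtain ⟨φ, hφ, hmem⟩ := exists_inj_choice (fun t : J × Bool => S t.1)
    (fun t => hT.trans (hS t.1))
  refine ⟨fun x => decide (∃ j, φ (j, true) = x), fun j => ⟨⟨φ (j, true), hmem (j, true), ?_⟩,
    ⟨φ (j, false), hmem (j, false), ?_⟩⟩⟩
  · simp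
  · simp only [decide_eq_false_iff_not]
    rintro ⟨k, hk⟩
    have := hφ hk
    simp at this

/-- Linear order of size `2 ^ μ` with a dense subset of size at most `μ`. -/
theorem exists_dense (μ : Cardinal.{0}) (hμ : μ.IsStrongLimit) (hinf : ℵ₀ ≤ μ) :
    ∃ (L : Type) (_ : LinearOrder L) (D : Set L), #L = 2 ^ μ ∧ #D ≤ μ ∧
      ∀ x y : L, x < y → ∃ z ∈ D, x < z ∧ z ≤ y := by
  classical
  obtain ⟨I, rfl⟩ : ∃ I : Type, #I = μ := ⟨μ.out, mk_out μ⟩
  obtain ⟨_, _, ho⟩ := exists_ord_eq_type_lt I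
  refine ⟨Lex (I → Bool), inferInstance,
    {g | ∃ δ : I, ∀ ε, δ < ε → ofLex g ε = false}, ?_, ?_, ?_⟩
  · change #(I → Bool) = 2 ^ #I
    simp
  · have h1 : {g : Lex (I → Bool) | ∃ δ : I, ∀ ε, δ < ε → ofLex g ε = false} =
        ⋃ δ : I, {g : Lex (I → Bool) | ∀ ε, δ < ε → ofLex g ε = false} := by
      ext g; simp
    rw [h1]
    refine (mk_iUnion_le _).trans ?_
    refine (mul_le_mul' le_rfl (ciSup_le' (a := #I) ?_)).trans (mul_eq_self hinf).le
    intro δ
    have h2 : #{g : Lex (I → Bool) | ∀ ε, δ < ε → ofLex g ε = false} ≤ #(Set.Iic δ → Bool) := by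
      refine mk_le_of_injective (f := fun g ε => ofLex g.1 ε.1) ?_
      intro g g' h
      apply Subtype.ext
      apply ofLex.injective
      funext ε
      by_cases hε : ε ≤ δ
      · exact congrFun h ⟨ε, hε⟩
      · rw [g.2 ε (not_le.mp hε), g'.2 ε (not_le.mp hε)]
    refine h2.trans ?_
    have h3 : #(Set.Iic δ → Bool) = 2 ^ #(Set.Iic δ) := by simp
    rw [h3]
    refine (hμ.isStrongPrelimit ?_).le
    have h4 : Set.Iic δ = insert δ (Set.Iio δ) := by
      ext x; simp [le_iff_eq_or_lt]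
    rw [h4]
    refine mk_insert_le.trans_lt ?_
    exact add_lt_of_lt hinf (mk_Iio_lt δ ho) (one_lt_aleph0.trans_le hinf)
  · rintro x y ⟨δ, hδ1, hδ2⟩
    have hb : ∀ a b : Bool, a < b → a = false ∧ b = true := by decide
    have hx : ofLex x δ = false := (hb _ _ hδ2).1
    have hy : ofLex y δ = true := (hb _ _ hδ2).2
    refine ⟨toLex (fun ε => if ε ≤ δ then ofLex y ε else false), ⟨δ, ?_⟩, ⟨δ, ?_, ?_⟩, ?_⟩
    · intro ε hε
      simp [not_le.mpr hε]
    · intro ε hε
      have : (ofLex x ε : Bool) = ofLex y ε := hδ1 ε hε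
      simpa [hε.le] using this
    · change ofLex x δ < (if δ ≤ δ then ofLex y δ else false)
      simp [hx, hy]
    · have : y = toLex (ofLex y) := rfl
      rw [this]
      apply Pi.toLex_monotone
      intro ε
      by_cases h : ε ≤ δ <;> simp [h]

/-- Key lemma: for a strong limit cardinal, the power set has a colouring with two colours such that
no monotone injective self-map of the power set has monochromatic range. -/
theorem key {X : Type} (hX : (#X).IsStrongLimit) (hinf : ℵ₀ ≤ #X) :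
    ∃ c : Set X → Bool, ∀ ψ : Set X → Set X, Monotone ψ → Function.Injective ψ →
      (∃ y, c (ψ y) = true) ∧ (∃ y, c (ψ y) = false) := by
  classical
  obtain ⟨L, _, D, hL, hD, hdense⟩ := exists_dense (#X) hX hinf
  obtain ⟨e0⟩ : Nonempty (D ↪ X) := by rwa [← Cardinal.le_def]
  let lo : (D → Set X) → L → Set X := fun ρ y => {m | ∃ z : D, z.1 < y ∧ m ∈ ρ z}
  let hi : (D → Set X) → L → Set X := fun ρ y => {m | ∀ z : D, y < z.1 → m ∈ ρ z}
  let S : (D → Set X) → Set (Set X) := fun ρ =>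
    {v | ∃ y : L, y ∉ D ∧ hi ρ y ⊆ lo ρ y ∧ v = lo ρ y}
  have hSX : #(Set X) = 2 ^ #X := by simp
  have hXlt : #X < #(Set X) := by rw [hSX]; exact cantor _
  obtain ⟨c, hc⟩ := bernstein (J := {ρ : D → Set X // #(Set X) ≤ #(S ρ)}) (X := Set X)
    (fun ρ => S ρ.1) (hinf.trans hXlt.le) (by
      refine (mk_subtype_le _).trans ?_
      have : #(D → Set X) = 2 ^ (#X * #D) := by
        rw [power_mul]; simp
      rw [this, hSX]
      refine power_le_power_left two_ne_zero ?_
      exact (mul_le_mul' le_rfl hD).trans (mul_eq_self hinf).le) (fun ρ => ρ.2)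
  refine ⟨c, ?_⟩
  intro ψ hmono hinj
  -- the chain
  let e : L → Set X := fun y => {x | ∃ z : D, z.1 ≤ y ∧ e0 z = x}
  have he_mono : Monotone e := by
    intro y y' h x hx
    obtain ⟨z, hz, rfl⟩ := hx
    exact ⟨z, hz.trans h, rfl⟩
  have he_ne : ∀ y y' : L, y < y' → e y ≠ e y' := by
    intro y y' h heq
    obtain ⟨z, hzD, hz1, hz2⟩ := hdense y y' h
    have h1 : e0 ⟨z, hzD⟩ ∈ e y' := ⟨⟨z, hzD⟩, hz2, rfl⟩
    rw [← heq] at h1
    obtain ⟨z', hz', hzz⟩ := h1
    have := e0.injective hzz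
    rw [this] at hz'
    exact absurd hz' (not_le.mpr hz1)
  have he_inj : Function.Injective e := by
    intro y y' h
    by_contra hne
    rcases lt_or_gt_of_ne hne with h' | h'
    · exact he_ne _ _ h' h
    · exact he_ne _ _ h' h.symm
  let Ψ : L → Set X := fun y => ψ (e y)
  have hΨ_mono : Monotone Ψ := hmono.comp he_mono
  have hΨ_inj : Function.Injective Ψ := hinj.comp he_inj
  let ρ : D → Set X := fun z => Ψ z.1
  have hlo : ∀ y, lo ρ y ⊆ Ψ y := by
    rintro y m ⟨z, hz, hm⟩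
    exact hΨ_mono hz.le hm
  have hhi : ∀ y, Ψ y ⊆ hi ρ y := by
    intro y m hm z hz
    exact hΨ_mono hz.le hm
  let Good : Set L := {y | y ∉ D ∧ hi ρ y ⊆ lo ρ y}
  let Bad : Set L := {y | y ∉ D ∧ ¬ hi ρ y ⊆ lo ρ y}
  have hGood : ∀ y ∈ Good, Ψ y = lo ρ y := by
    intro y hy
    exact Set.Subset.antisymm ((hhi y).trans hy.2) (hlo y)
  have hBad : #Bad ≤ #X := by
    have hex : ∀ y : Bad, ∃ m, m ∈ hi ρ y ∧ m ∉ lo ρ y := by
      rintro ⟨y, hy1, hy2⟩
      exact Set.not_subset.mp hy2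
    choose m hm1 hm2 using hex
    refine mk_le_of_injective (f := m) ?_
    have aux : ∀ y y' : Bad, y.1 < y'.1 → m y ≠ m y' := by
      intro y y' h heq
      obtain ⟨z, hzD, hz1, hz2⟩ := hdense _ _ h
      have hz3 : z < y'.1 := lt_of_le_of_ne hz2 (by
        rintro rfl
        exact y'.2.1 hzD)
      have h1 : m y ∈ ρ ⟨z, hzD⟩ := hm1 y ⟨z, hzD⟩ hz1
      have h2 : m y' ∈ lo ρ y'.1 := ⟨⟨z, hzD⟩, hz3, heq ▸ h1⟩
      exact hm2 y' h2
    intro y y' h
    by_contra hne
    have hne' : y.1 ≠ y'.1 := fun h => hne (Subtype.ext h)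
    rcases lt_or_gt_of_ne hne' with h' | h'
    · exact aux _ _ h' h
    · exact aux _ _ h' h.symm
  have hGoodcard : #(Set X) ≤ #Good := by
    have hunion : (D ∪ Bad) ∪ Good = Set.univ := by
      ext y
      simp only [Set.mem_union, Set.mem_univ, iff_true]
      by_cases h1 : y ∈ D
      · exact Or.inl (Or.inl h1)
      · by_cases h2 : hi ρ y ⊆ lo ρ y
        · exact Or.inr ⟨h1, h2⟩
        · exact Or.inl (Or.inr ⟨h1, h2⟩)
    have h1 : #L ≤ #((D ∪ Bad : Set L)) + #Good := by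
      rw [← mk_univ, ← hunion]
      exact mk_union_le _ _
    have h2 : #((D ∪ Bad : Set L)) ≤ #X := by
      refine (mk_union_le _ _).trans ?_
      exact (add_le_add hD hBad).trans (add_eq_self hinf).le
    by_contra hlt
    push Not at hlt
    have h3 : #L < #(Set X) :=
      h1.trans_lt (add_lt_of_lt (hinf.trans hXlt.le) (h2.trans_lt hXlt) hlt)
    rw [hL, hSX] at h3
    exact lt_irrefl _ h3
  have hSρ : #(Set X) ≤ #(S ρ) := by
    refine hGoodcard.trans ?_
    refine mk_le_of_injective (f := fun y : Good => (⟨Ψ y.1, ?_⟩ : S ρ)) ?_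
    · exact ⟨y.1, y.2.1, y.2.2, hGood y.1 y.2⟩
    · intro y y' h
      apply Subtype.ext
      exact hΨ_inj (congrArg Subtype.val h)
  obtain ⟨⟨v, ⟨y, hy1, hy2, rfl⟩, hv⟩, ⟨v', ⟨y', hy1', hy2', rfl⟩, hv'⟩⟩ := hc ⟨ρ, hSρ⟩
  refine ⟨⟨e y, ?_⟩, ⟨e y', ?_⟩⟩
  · have : ψ (e y) = lo ρ y := hGood y ⟨hy1, hy2⟩
    rw [this]; exact hv
  · have : ψ (e y') = lo ρ y' := hGood y' ⟨hy1', hy2'⟩
    rw [this]; exact hv'

/-! ### The index set of order type omega one and the ground set -/

/-- A well-order of type `ω₁`. -/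
abbrev Idx : Type := (Ordinal.omega 1 : Ordinal.{0}).ToType

/-- Position of an index. -/
noncomputable def tp (i : Idx) : Ordinal.{0} := Ordinal.typein (α := Idx) (· < ·) i

/-- The singular strong limit cardinal that is used. -/
noncomputable def kap : Cardinal.{0} := beth (Ordinal.omega 1)

/-- The ground set, a disjoint union of sets of size `ℶ_i` for `i < ω₁`. -/
abbrev Big : Type := Σ i : Idx, (beth (tp i)).out

/-- Bounded part of the ground set. -/
def seg (i : Idx) : Set Big := {p | p.1 < i}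

theorem tp_lt_tp {i j : Idx} : tp i < tp j ↔ i < j := Ordinal.typein_lt_typein _

theorem tp_le_tp {i j : Idx} : tp i ≤ tp j ↔ i ≤ j := by
  rw [← not_lt, tp_lt_tp, not_lt]

theorem tp_lt (i : Idx) : tp i < Ordinal.omega 1 := Ordinal.typein_lt_self i

theorem tp_surj {o : Ordinal.{0}} (h : o < Ordinal.omega 1) : ∃ i : Idx, tp i = o := by
  have : o < Ordinal.type ((· < ·) : Idx → Idx → Prop) := by
    rw [Ordinal.type_toType]; exact h
  exact Ordinal.typein_surj (α := Idx) (· < ·) this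

theorem mk_Idx : #Idx = aleph 1 := by
  rw [mk_toType]; exact Ordinal.card_omega 1

theorem mk_Iio_Idx (i : Idx) : #(Set.Iio i) ≤ ℵ₀ := by
  have h : (tp i).card < aleph 1 := by
    rw [← lt_ord, ord_aleph]; exact tp_lt i
  have h2 : (tp i).card = #(Set.Iio i) := rfl
  rw [h2] at h
  rwa [← succ_aleph0, Order.lt_succ_iff] at h

theorem beth_tp_lt (i : Idx) : beth (tp i) < kap := beth_lt_beth.mpr (tp_lt i)

theorem aleph0_le_kap : ℵ₀ ≤ kap := aleph0_le_beth _

theorem isSuccLimit_omega1 : Order.IsSuccLimit (Ordinal.omega 1 : Ordinal.{0}) := by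
  rw [← ord_aleph]
  exact isSuccLimit_ord (aleph0_le_aleph 1)

theorem kap_strongLimit : kap.IsStrongLimit := by
  unfold kap
  rw [isStrongLimit_beth]
  exact isSuccLimit_omega1.isSuccPrelimit

theorem exists_gt_Idx (i : Idx) : ∃ j : Idx, i < j := by
  have h : Order.succ (tp i) < Ordinal.omega 1 := isSuccLimit_omega1.succ_lt (tp_lt i)
  obtain ⟨j, hj⟩ := tp_surj h
  refine ⟨j, ?_⟩
  rw [← tp_lt_tp, hj]
  exact Order.lt_succ _

theorem aleph_one_lt_kap : aleph 1 < kap := by
  unfold kap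
  refine (aleph_le_beth 1).trans_lt (beth_lt_beth.mpr ?_)
  exact Ordinal.one_lt_omega0.trans (Ordinal.omega0_lt_omega_one)

theorem two_pow_aleph_one_lt_kap : (2 : Cardinal.{0}) ^ aleph 1 < kap :=
  kap_strongLimit.isStrongPrelimit aleph_one_lt_kap

theorem mk_Big : #Big = kap := by
  apply le_antisymm
  · rw [mk_sigma]
    refine (sum_le_sum _ (fun _ => kap) (fun i => ?_)).trans ?_
    · rw [mk_out]; exact (beth_tp_lt i).le
    · rw [sum_const']
      exact (mul_le_mul' (mk_Idx.le.trans aleph_one_lt_kap.le) le_rfl).trans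
        (mul_eq_self aleph0_le_kap).le
  · unfold kap
    rw [beth_limit isSuccLimit_omega1]
    refine ciSup_le' ?_
    rintro ⟨a, ha⟩
    obtain ⟨i, rfl⟩ := tp_surj ha
    have : #((beth (tp i)).out) ≤ #Big := by
      refine mk_le_of_injective (f := fun x => (⟨i, x⟩ : Big)) ?_
      intro x y h
      simpa using h
    rwa [mk_out] at this

theorem seg_mono {i j : Idx} (h : i ≤ j) : seg i ⊆ seg j := fun _ hp => lt_of_lt_of_le hp h

theorem mk_seg_le (i : Idx) : #(seg i) ≤ beth (tp i) := by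
  have h1 : seg i ⊆ ⋃ j : Set.Iio i, Set.range (fun x => (⟨j.1, x⟩ : Big)) := by
    rintro ⟨j, x⟩ hp
    simp only [Set.mem_iUnion]
    exact ⟨⟨j, hp⟩, x, rfl⟩
  refine (mk_le_mk_of_subset h1).trans ((mk_iUnion_le _).trans ?_)
  refine (mul_le_mul' ((mk_Iio_Idx i).trans (aleph0_le_beth (tp i))) (ciSup_le' ?_)).trans
    (mul_eq_self (aleph0_le_beth (tp i))).le
  rintro ⟨j, hj⟩
  refine mk_range_le.trans ?_
  rw [mk_out]
  exact beth_le_beth.mpr (tp_le_tp.mpr (le_of_lt hj))

theorem mk_seg_lt (i : Idx) : #(seg i) < kap := (mk_seg_le i).trans_lt (beth_tp_lt i)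

/-- Countable families of indices are bounded. -/
theorem exists_bound (s : ℕ → Idx) : ∃ u : Idx, ∀ n, s n < u := by
  by_contra hcon
  push Not at hcon
  have h1 : (Set.univ : Set Idx) ⊆ ⋃ n : ℕ, Set.Iic (s n) := by
    intro u _
    obtain ⟨n, hn⟩ := hcon u
    exact Set.mem_iUnion.mpr ⟨n, hn⟩
  have h2 : (Set.univ : Set Idx).Countable := by
    refine Set.Countable.mono h1 (Set.countable_iUnion fun n => ?_)
    have : Set.Iic (s n) = insert (s n) (Set.Iio (s n)) := by
      ext x; simp [le_iff_eq_or_lt]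
    rw [this]
    exact Set.Countable.insert _ (le_aleph0_iff_set_countable.mp (mk_Iio_Idx (s n)))
  have h3 : #Idx ≤ ℵ₀ := by
    rw [← mk_univ]
    exact le_aleph0_iff_set_countable.mpr h2
  rw [mk_Idx] at h3
  exact absurd h3 (not_le.mpr aleph0_lt_aleph_one)

/-- Closure point for a function on the ground set. -/
theorem exists_closure (w : Big → Big) :
    ∃ i : Idx, (#(seg i)).IsStrongLimit ∧ ℵ₀ ≤ #(seg i) ∧
      #(seg i) ≤ #({p : Big | p ∈ seg i ∧ w p ∈ seg i}) := by
  classical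
  let G : Idx → Set Big := fun i => {p : Big | p ∈ seg i ∧ w p ∈ seg i}
  have hGmono : ∀ {i j : Idx}, i ≤ j → G i ⊆ G j := fun h p hp =>
    ⟨seg_mono h hp.1, seg_mono h hp.2⟩
  have step : ∀ j : Idx, ∃ j' : Idx, j < j' ∧ beth (tp j) ≤ #(G j') := by
    intro j
    by_contra hcon
    push Not at hcon
    have h1 : (Set.univ : Set Big) ⊆ ⋃ j' : Set.Ioi j, G j'.1 := by
      intro p _
      obtain ⟨u, hu⟩ := exists_gt_Idx (max j (max p.1 (w p).1))
      refine Set.mem_iUnion.mpr ⟨⟨u, (le_max_left _ _).trans_lt hu⟩, ?_, ?_⟩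
      · exact ((le_max_left _ _).trans (le_max_right _ _)).trans_lt hu
      · exact ((le_max_right _ _).trans (le_max_right _ _)).trans_lt hu
    have h2 : #Big ≤ aleph 1 * beth (tp j) := by
      rw [← mk_univ]
      refine (mk_le_mk_of_subset h1).trans ((mk_iUnion_le _).trans ?_)
      refine mul_le_mul' ((mk_subtype_le _).trans mk_Idx.le) (ciSup_le' ?_)
      rintro ⟨j', hj'⟩
      exact (hcon j' hj').le
    rw [mk_Big] at h2
    exact absurd h2 (not_le.mpr (mul_lt_of_lt aleph0_le_kap aleph_one_lt_kap (beth_tp_lt j)))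
  choose nxt hn1 hn2 using step
  obtain ⟨i0, _⟩ := tp_surj (isSuccLimit_omega1.bot_lt)
  let s : ℕ → Idx := fun n => nxt^[n] i0
  have hs : ∀ n, s (n + 1) = nxt (s n) := fun n => Function.iterate_succ_apply' _ _ _
  have hne : {u : Idx | ∀ n, s n < u}.Nonempty := exists_bound s
  let i : Idx := (wellFounded_lt (α := Idx)).min _ hne
  have hi1 : ∀ n, s n < i := (wellFounded_lt (α := Idx)).min_mem _ hne
  have hi2 : ∀ j, j < i → ∃ n, j ≤ s n := by
    intro j hj
    by_contra hcon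
    push Not at hcon
    exact (wellFounded_lt (α := Idx)).not_lt_min {u : Idx | ∀ n, s n < u} hcon hj
  have hlim : Order.IsSuccLimit (tp i) := by
    rw [Order.isSuccLimit_iff]
    constructor
    · intro hmin
      have := hmin (b := tp (s 0)) (tp_lt_tp.mpr (hi1 0)).le
      exact absurd (tp_lt_tp.mpr (hi1 0)) (not_lt.mpr this)
    · refine Order.isSuccPrelimit_of_succ_lt ?_
      intro a ha
      obtain ⟨j, rfl⟩ := tp_surj (ha.trans (tp_lt i))
      obtain ⟨n, hn⟩ := hi2 j (tp_lt_tp.mp ha)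
      have h3 : tp j < tp (s (n + 1)) := by
        rw [tp_lt_tp, hs n]
        exact hn.trans_lt (hn1 _)
      exact (Order.succ_le_of_lt h3).trans_lt (tp_lt_tp.mpr (hi1 (n + 1)))
  have hGle : beth (tp i) ≤ #(G i) := by
    rw [beth_limit hlim]
    refine ciSup_le' ?_
    rintro ⟨a, ha⟩
    obtain ⟨j, rfl⟩ := tp_surj (lt_trans ha (tp_lt i))
    obtain ⟨n, hn⟩ := hi2 j (tp_lt_tp.mp ha)
    refine (beth_le_beth.mpr (tp_le_tp.mpr hn)).trans ((hn2 (s n)).trans ?_)
    rw [← hs n]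
    exact mk_le_mk_of_subset (hGmono (hi1 (n + 1)).le)
  have hGseg : #(G i) ≤ #(seg i) := mk_le_mk_of_subset (fun p hp => hp.1)
  have hcard : #(seg i) = beth (tp i) := le_antisymm (mk_seg_le i) (hGle.trans hGseg)
  refine ⟨i, ?_, ?_, ?_⟩
  · rw [hcard, isStrongLimit_beth]
    exact hlim.isSuccPrelimit
  · rw [hcard]; exact aleph0_le_beth _
  · rw [hcard]; exact hGle


/-- The family of bounded and co-bounded subsets of the ground set. -/
def fam : Set (Set Big) := {x | ∃ i : Idx, x ⊆ seg i ∨ xᶜ ⊆ seg i}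

theorem singleton_mem_fam (m : Big) : ({m} : Set Big) ∈ fam := by
  obtain ⟨j, hj⟩ := exists_gt_Idx m.1
  exact ⟨j, Or.inl (by rintro p rfl; exact hj)⟩

theorem compl_singleton_mem_fam (m : Big) : ({m}ᶜ : Set Big) ∈ fam := by
  obtain ⟨j, hj⟩ := exists_gt_Idx m.1
  exact ⟨j, Or.inr (by rw [compl_compl]; rintro p rfl; exact hj)⟩

theorem mk_fam : Cardinal.mk fam = kap := by
  apply le_antisymm
  · have h1 : fam ⊆ ⋃ i : Idx, ((𝒫 (seg i)) ∪ (compl '' (𝒫 (seg i)))) := by
      rintro x ⟨i, hx⟩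
      refine Set.mem_iUnion.mpr ⟨i, ?_⟩
      rcases hx with hx | hx
      · exact Or.inl hx
      · exact Or.inr ⟨xᶜ, hx, compl_compl x⟩
    refine (mk_le_mk_of_subset h1).trans ((mk_iUnion_le _).trans ?_)
    refine (mul_le_mul' (mk_Idx.le.trans aleph_one_lt_kap.le) (ciSup_le' ?_)).trans
      (mul_eq_self aleph0_le_kap).le
    intro i
    have h2 : #(𝒫 (seg i)) < kap := by
      rw [mk_powerset]
      exact kap_strongLimit.isStrongPrelimit (mk_seg_lt i)
    refine (mk_union_le _ _).trans ?_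
    exact (add_lt_of_lt aleph0_le_kap h2 (mk_image_le.trans_lt h2)).le
  · rw [← mk_Big]
    refine mk_le_of_injective (f := fun m : Big => (⟨{m}, singleton_mem_fam m⟩ : fam)) ?_
    intro m m' h
    exact Set.singleton_injective (congrArg Subtype.val h)

/-- The main combinatorial statement: a colouring of the power set of the ground set, by functions
from the index set to two colours, without monochromatic copy of `fam`. -/
theorem exists_colouring : ∃ c : Set Big → (Idx → Bool), ∀ col : Idx → Bool,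
    ¬ ∃ f : fam → Set Big, (∀ x, c (f x) = col) ∧ ∀ x y : fam, f x ≤ f y ↔ x ≤ y := by
  classical
  have hc : ∀ i : Idx, ∃ ci : Set (seg i) → Bool, (#(seg i)).IsStrongLimit → ℵ₀ ≤ #(seg i) →
      ∀ ψ : Set (seg i) → Set (seg i), Monotone ψ → Function.Injective ψ →
        (∃ y, ci (ψ y) = true) ∧ (∃ y, ci (ψ y) = false) := by
    intro i
    by_cases h : (#(seg i)).IsStrongLimit ∧ ℵ₀ ≤ #(seg i)
    · obtain ⟨ci, hci⟩ := key h.1 h.2
      exact ⟨ci, fun _ _ => hci⟩
    · exact ⟨fun _ => true, fun h1 h2 => absurd ⟨h1, h2⟩ h⟩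
  choose ci hci using hc
  refine ⟨fun x i => ci i {p | p.1 ∈ x}, ?_⟩
  rintro col ⟨f, hf1, hf2⟩
  -- coordinates
  have hw : ∀ m : Big, ∃ v : Big, v ∈ f ⟨{m}, singleton_mem_fam m⟩ ∧
      v ∉ f ⟨{m}ᶜ, compl_singleton_mem_fam m⟩ := by
    intro m
    by_contra hcon
    push Not at hcon
    have h1 : f ⟨{m}, singleton_mem_fam m⟩ ≤ f ⟨{m}ᶜ, compl_singleton_mem_fam m⟩ := hcon
    rw [hf2] at h1
    have h2 : ({m} : Set Big) ⊆ {m}ᶜ := h1
    exact h2 rfl rfl
  choose w hw1 hw2 using hw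
  have hw3 : ∀ (y : fam) (m : Big), w m ∈ f y ↔ m ∈ y.1 := by
    intro y m
    constructor
    · intro h
      by_contra hm
      have h1 : y ≤ ⟨{m}ᶜ, compl_singleton_mem_fam m⟩ := by
        intro p hp hpm
        have : p = m := hpm
        exact hm (this ▸ hp)
      rw [← hf2] at h1
      exact hw2 m (h1 h)
    · intro h
      have h1 : (⟨{m}, singleton_mem_fam m⟩ : fam) ≤ y := by
        intro p hp
        have : p = m := hp
        exact this ▸ h
      rw [← hf2] at h1
      exact h1 (hw1 m)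
  obtain ⟨i, hi1, hi2, hi3⟩ := exists_closure w
  obtain ⟨π⟩ : Nonempty (seg i ↪ {p : Big | p ∈ seg i ∧ w p ∈ seg i}) := by
    rwa [← Cardinal.le_def]
  have hmem : ∀ y : Set (seg i), (fun p => (π p).1) '' y ∈ fam := by
    intro y
    refine ⟨i, Or.inl ?_⟩
    rintro _ ⟨p, _, rfl⟩
    exact (π p).2.1
  let g : Set (seg i) → fam := fun y => ⟨(fun p => (π p).1) '' y, hmem y⟩
  let ψ : Set (seg i) → Set (seg i) := fun y => {p | p.1 ∈ f (g y)}
  have hψ1 : Monotone ψ := by
    intro y y' h p hp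
    have h1 : g y ≤ g y' := Set.image_mono h
    rw [← hf2] at h1
    exact h1 hp
  have hψ2 : ∀ (y : Set (seg i)) (p : seg i),
      (⟨w (π p).1, (π p).2.2⟩ : seg i) ∈ ψ y ↔ p ∈ y := by
    intro y p
    change w (π p).1 ∈ f (g y) ↔ p ∈ y
    rw [hw3]
    constructor
    · rintro ⟨q, hq, hqp⟩
      have : π q = π p := Subtype.ext hqp
      rwa [← π.injective this]
    · intro hp
      exact ⟨p, hp, rfl⟩
  have hψ3 : Function.Injective ψ := by
    intro y y' h
    ext p
    rw [← hψ2 y p, ← hψ2 y' p, h]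
  obtain ⟨⟨y, hy⟩, ⟨y', hy'⟩⟩ := hci i hi1 hi2 ψ hψ1 hψ3
  have h1 : ci i (ψ y) = col i := congrFun (hf1 (g y)) i
  have h2 : ci i (ψ y') = col i := congrFun (hf1 (g y')) i
  rw [hy] at h1
  rw [hy'] at h2
  rw [← h1] at h2
  exact absurd h2 (by decide)

theorem kap_not_regular : ¬ kap.IsRegular := by
  intro h
  have h1 : #Big < kap := by
    rw [mk_sigma]
    refine sum_lt_of_isRegular h (mk_Idx.trans_lt aleph_one_lt_kap) ?_
    intro i
    rw [mk_out]
    exact beth_tp_lt i
  exact absurd mk_Big h1.ne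

theorem lift_kap_eq_sum (α : Ordinal.{0}) (hα : aleph α = kap) :
    Cardinal.lift.{1} kap =
      Cardinal.sum (fun ν : Set.Iio α => (2 : Cardinal.{0}) ^ Cardinal.aleph ν.1) := by
  apply le_antisymm
  · by_contra hlt
    push Not at hlt
    obtain ⟨σ, hσ, hσ1⟩ := lt_lift_iff.mp hlt
    have hτ : max σ ℵ₀ < kap := max_lt hσ
      (aleph0_lt_aleph_one.trans aleph_one_lt_kap)
    obtain ⟨ν, hν⟩ := (mem_range_aleph_iff (c := max σ ℵ₀)).mpr (le_max_right _ _)
    have hνα : ν < α := by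
      rw [← aleph_lt_aleph, hν, hα]; exact hτ
    have h1 := lift_le_sum (fun ν : Set.Iio α => (2 : Cardinal.{0}) ^ Cardinal.aleph ν.1) ⟨ν, hνα⟩
    rw [← hσ1, lift_le] at h1
    have h2 : (2 : Cardinal.{0}) ^ aleph ν ≤ aleph ν := by
      refine h1.trans ?_
      rw [hν]
      exact le_max_left _ _
    exact absurd h2 (not_le.mpr (cantor _))
  · refine (sum_le_sum _ (fun _ => kap) (fun ν => ?_)).trans ?_
    · refine (kap_strongLimit.isStrongPrelimit ?_).le
      rw [← hα]
      exact aleph_lt_aleph.mpr ν.2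
    · rw [sum_const, mk_Iio_ordinal]
      have h1 : α.card ≤ kap := by
        rw [← hα]; exact α.card_le_aleph
      have h2 : Cardinal.lift.{1} α.card ≤ Cardinal.lift.{1} kap := lift_le.mpr h1
      have h3 : ℵ₀ ≤ Cardinal.lift.{1} kap := by
        rw [aleph0_le_lift]; exact aleph0_le_kap
      simp only [lift_lift]
      exact (mul_le_mul' h2 le_rfl).trans (mul_eq_self h3).le

end Aux

/-- The negation of the preceding statement: If aleph_alpha is singular and M has size sum over nu<alpha of 2^aleph_nu, then for any colouring of the subsets of M with aleph_alpha colours, some colour class under inclusion contains an order-embedded copy of every poset of size aleph_alpha. -/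
theorem result :
    ¬ (∀ (α : Ordinal.{0}), ¬ (Cardinal.aleph α).IsRegular →
      ∀ (M : Type),
        Cardinal.lift.{1} (Cardinal.mk M) =
          Cardinal.sum (fun ν : Set.Iio α => (2 : Cardinal.{0}) ^ Cardinal.aleph ν.1) →
        ∀ (ι : Type), Cardinal.mk ι = Cardinal.aleph α →
          ∀ c : Set M → ι, ∃ i : ι,
            ∀ (P : Type) [PartialOrder P], Cardinal.mk P = Cardinal.aleph α →
              ∃ f : P → Set M, (∀ x, c (f x) = i) ∧ ∀ x y : P, f x ≤ f y ↔ x ≤ y) := by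
  classical
  intro H
  obtain ⟨α, hα⟩ := (Cardinal.mem_range_aleph_iff (c := kap)).mpr aleph0_le_kap
  have hreg : ¬ (Cardinal.aleph α).IsRegular := by rw [hα]; exact kap_not_regular
  have hM : Cardinal.lift.{1} (Cardinal.mk Big) =
      Cardinal.sum (fun ν : Set.Iio α => (2 : Cardinal.{0}) ^ Cardinal.aleph ν.1) := by
    rw [mk_Big]; exact lift_kap_eq_sum α hα
  obtain ⟨c, hc⟩ := exists_colouring
  obtain ⟨e⟩ : Nonempty ((Idx → Bool) ↪ Big) := by
    rw [← Cardinal.le_def, mk_Big]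
    have h1 : Cardinal.mk (Idx → Bool) = 2 ^ Cardinal.aleph 1 := by
      rw [← mk_Idx]; simp
    rw [h1]
    exact two_pow_aleph_one_lt_kap.le
  obtain ⟨i, hi⟩ := H α hreg Big hM Big (by rw [mk_Big, hα]) (fun x => e (c x))
  obtain ⟨f, hf1, hf2⟩ := hi fam (by rw [mk_fam, hα])
  have hne : Nonempty fam := ⟨⟨∅, ⟨(Classical.choice (by
    obtain ⟨j, _⟩ := tp_surj (isSuccLimit_omega1.bot_lt)
    exact ⟨j⟩)), Or.inl (Set.empty_subset _)⟩⟩⟩
  obtain ⟨x0⟩ := hne
  refine hc (c (f x0)) ⟨f, ?_, hf2⟩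
  intro x
  apply e.injective
  rw [hf1 x, hf1 x0]

end Pool.Agent.S09746
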