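import Pool.Statements.S09748
import Pool.Agent.Helper913.EPatFinal

set_option autoImplicit false
open Pool Pool.MP_d6d0a6_lc

namespace Pool.Agent.S09748

/-- The negation of the preceding statement: For every alphabet of k ≥ 5 letters, some computable learner identifies in the limit, from any text, the erasing pattern language of each nonempty pattern that misses at least two letters: its guesses on prefixes eventually stay at one pattern generating that language. -/
theorem result :
    ¬ (∀ k : ℕ, 5 ≤ k →
      ∃ M : List (List (Fin k)) → List (ℕ ⊕ Fin k),
        Computable M ∧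
        ∀ α : List (ℕ ⊕ Fin k), α ≠ [] →
          (∃ a b : Fin k, a ≠ b ∧ Sum.inr a ∉ α ∧ Sum.inr b ∉ α) →
          ∀ t : ℕ → List (Fin k),
            Set.range t =
              {w : List (Fin k) | ∃ σ : ℕ → List (Fin k),
                w = α.flatMap (Sum.elim σ (fun a => [a]))} →
            ∃ β : List (ℕ ⊕ Fin k),
              {w : List (Fin k) | ∃ σ : ℕ → List (Fin k),
                  w = β.flatMap (Sum.elim σ (fun a => [a]))} =
                {w : List (Fin k) | ∃ σ : ℕ → List (Fin k),
                  w = α.flatMap (Sum.elim σ (fun a => [a]))} ∧
              ∃ N : ℕ, ∀ n ≥ N, M ((List.range n).map t) = β) := by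
  intro h
  obtain ⟨M, _, hM⟩ := h 5 (by norm_num)
  exact Pool.Agent.Helper913.EPat.not_learnable 2 (by norm_num) M
    (fun α hα hq t ht => hM α hα hq t ht)

end Pool.Agent.S09748
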