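import Pool.Statements.S09750
import Pool.Agent.Helper223.Alpha

set_option autoImplicit false
open Pool Pool.MP_d6e56f_lc

namespace Pool.Agent.S09750

open Filter Encodable Pool.Agent.Helper223

/-- sign decision for u + v * alpha from a finite binary string -/
def sgn (σ : List Bool) (u v : ℤ) : Option ℕ :=
  cond (decide (0 ≤ u * (Pw σ : ℤ) + v * (Nd σ : ℤ)) && decide (0 ≤ u * (Pw σ : ℤ) + v * ((Nd σ : ℤ) + 1)))
    (some 1)
    (cond (decide (u * (Pw σ : ℤ) + v * (Nd σ : ℤ) < 0) && decide (u * (Pw σ : ℤ) + v * ((Nd σ : ℤ) + 1) < 0))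
      (some 0) none)

theorem sgn_one {σ : List Bool} {u v : ℤ} (h1 : 0 ≤ u * (Pw σ : ℤ) + v * (Nd σ : ℤ))
    (h2 : 0 ≤ u * (Pw σ : ℤ) + v * ((Nd σ : ℤ) + 1)) : sgn σ u v = some 1 := by
  unfold sgn; simp [h1, h2]

theorem sgn_zero {σ : List Bool} {u v : ℤ} (h1 : u * (Pw σ : ℤ) + v * (Nd σ : ℤ) < 0)
    (h2 : u * (Pw σ : ℤ) + v * ((Nd σ : ℤ) + 1) < 0) : sgn σ u v = some 0 := by
  unfold sgn; simp [h1, h2, not_le.2 h1]

theorem sgn_cases {σ : List Bool} {u v : ℤ} {w : ℕ} (h : sgn σ u v = some w) :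
    (w = 1 ∧ 0 ≤ u * (Pw σ : ℤ) + v * (Nd σ : ℤ) ∧ 0 ≤ u * (Pw σ : ℤ) + v * ((Nd σ : ℤ) + 1)) ∨
    (w = 0 ∧ u * (Pw σ : ℤ) + v * (Nd σ : ℤ) < 0 ∧ u * (Pw σ : ℤ) + v * ((Nd σ : ℤ) + 1) < 0) := by
  unfold sgn at h
  by_cases h1 : (0 ≤ u * (Pw σ : ℤ) + v * (Nd σ : ℤ) ∧ 0 ≤ u * (Pw σ : ℤ) + v * ((Nd σ : ℤ) + 1))
  · simp [h1.1, h1.2] at h
    left; exact ⟨h.symm, h1⟩
  · by_cases h2 : (u * (Pw σ : ℤ) + v * (Nd σ : ℤ) < 0 ∧ u * (Pw σ : ℤ) + v * ((Nd σ : ℤ) + 1) < 0)
    · simp [h2.1, h2.2, not_le.2 h2.1] at h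
      right; exact ⟨h.symm, h2⟩
    · exfalso
      have e1 : (decide (0 ≤ u * (Pw σ : ℤ) + v * (Nd σ : ℤ)) &&
        decide (0 ≤ u * (Pw σ : ℤ) + v * ((Nd σ : ℤ) + 1))) = false := by
        rw [Bool.eq_false_iff]; simpa using h1
      have e2 : (decide (u * (Pw σ : ℤ) + v * (Nd σ : ℤ) < 0) &&
        decide (u * (Pw σ : ℤ) + v * ((Nd σ : ℤ) + 1) < 0)) = false := by
        rw [Bool.eq_false_iff]; simpa using h2
      rw [e1, e2] at h
      simp at h

theorem sgn_mono1 (σ : List Bool) (b : Bool) (u v : ℤ) (w : ℕ) (h : sgn σ u v = some w) :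
    sgn (σ ++ [b]) u v = some w := by
  rcases sgn_cases h with ⟨rfl, h1, h2⟩ | ⟨rfl, h1, h2⟩
  · apply sgn_one
    · rw [Pw_append, Nd_append]; cases b <;> simp <;> nlinarith
    · rw [Pw_append, Nd_append]; cases b <;> simp <;> nlinarith
  · apply sgn_zero
    · rw [Pw_append, Nd_append]; cases b <;> simp <;> nlinarith
    · rw [Pw_append, Nd_append]; cases b <;> simp <;> nlinarith

theorem sgn_mono (σ τ : List Bool) (u v : ℤ) (w : ℕ) (hst : σ <+: τ) (h : sgn σ u v = some w) :
    sgn τ u v = some w := by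
  obtain ⟨ρ, rfl⟩ := hst
  induction ρ using List.reverseRecOn with
  | nil => simpa using h
  | append_singleton ρ b ih =>
    rw [← List.append_assoc]
    exact sgn_mono1 _ _ _ _ _ ih

theorem sgn_lim (A : ℕ → Bool) (hA : ¬ Computable A) (u v : ℤ) : ∃ n, sgn (seg A n) u v =
    some (if 0 ≤ (u : ℝ) + v * alpha A then 1 else 0) := by
  have hirr := alpha_irrational A hA
  by_cases hv : (u : ℝ) + v * alpha A = 0
  · have hv0 : v = 0 := by
      by_contra hne
      have hvr : (v : ℝ) ≠ 0 := by exact_mod_cast hne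
      have : alpha A = (((-u : ℤ) / v : ℚ) : ℝ) := by
        push_cast
        field_simp
        linarith
      exact hirr ⟨_, this.symm⟩
    subst hv0
    have hu0 : u = 0 := by
      have : (u : ℝ) = 0 := by simpa using hv
      exact_mod_cast this
    subst hu0
    refine ⟨0, ?_⟩
    rw [if_pos (by simp)]
    exact sgn_one (by simp) (by simp)
  · -- choose n with 4^n |t| > |v|
    set t : ℝ := (u : ℝ) + v * alpha A with ht
    have htpos : 0 < |t| := abs_pos.2 hv
    obtain ⟨n, hn⟩ := pow_unbounded_of_one_lt ((|(v:ℝ)| + 1) / |t|) (by norm_num : (1:ℝ) < 4)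
    rw [div_lt_iff₀ htpos] at hn
    have hb := alpha_bd A n
    have h4 : (0:ℝ) < 4 ^ n := by positivity
    refine ⟨n, ?_⟩
    have hx : ((u * (Pw (seg A n) : ℤ) + v * (Nd (seg A n) : ℤ) : ℤ) : ℝ) =
        4 ^ n * t - v * (4 ^ n * alpha A - Nd (seg A n)) := by
      rw [Pw_seg]; push_cast; rw [ht]; ring
    have hy : ((u * (Pw (seg A n) : ℤ) + v * ((Nd (seg A n) : ℤ) + 1) : ℤ) : ℝ) =
        4 ^ n * t + v * (Nd (seg A n) + 1 - 4 ^ n * alpha A) := by
      rw [Pw_seg]; push_cast; rw [ht]; ring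
    have hd1 : |(v : ℝ) * (4 ^ n * alpha A - Nd (seg A n))| ≤ |(v:ℝ)| := by
      rw [abs_mul]
      have : |4 ^ n * alpha A - Nd (seg A n)| ≤ 1 := by
        rw [abs_le]; constructor <;> linarith [hb.1, hb.2]
      calc |(v:ℝ)| * |4 ^ n * alpha A - Nd (seg A n)| ≤ |(v:ℝ)| * 1 :=
            mul_le_mul_of_nonneg_left this (abs_nonneg _)
        _ = |(v:ℝ)| := mul_one _
    have hd2 : |(v : ℝ) * (Nd (seg A n) + 1 - 4 ^ n * alpha A)| ≤ |(v:ℝ)| := by
      rw [abs_mul]
      have : |Nd (seg A n) + 1 - 4 ^ n * alpha A| ≤ 1 := by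
        rw [abs_le]; constructor <;> linarith [hb.1, hb.2]
      calc |(v:ℝ)| * |Nd (seg A n) + 1 - 4 ^ n * alpha A| ≤ |(v:ℝ)| * 1 :=
            mul_le_mul_of_nonneg_left this (abs_nonneg _)
        _ = |(v:ℝ)| := mul_one _
    rw [abs_le] at hd1 hd2
    rcases lt_or_gt_of_ne hv with hneg | hpos
    · rw [if_neg (not_le.2 hneg)]
      rw [abs_of_neg hneg] at hn
      apply sgn_zero
      · have : ((u * (Pw (seg A n) : ℤ) + v * (Nd (seg A n) : ℤ) : ℤ) : ℝ) < 0 := by
          rw [hx]; linarith [hd1.1, abs_nonneg (v:ℝ)]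
        exact_mod_cast this
      · have : ((u * (Pw (seg A n) : ℤ) + v * ((Nd (seg A n) : ℤ) + 1) : ℤ) : ℝ) < 0 := by
          rw [hy]; linarith [hd2.2, abs_nonneg (v:ℝ)]
        exact_mod_cast this
    · rw [if_pos hpos.le]
      rw [abs_of_pos hpos] at hn
      apply sgn_one
      · have : (0:ℝ) ≤ ((u * (Pw (seg A n) : ℤ) + v * (Nd (seg A n) : ℤ) : ℤ) : ℝ) := by
          rw [hx]; linarith [hd1.2, abs_nonneg (v:ℝ)]
        exact_mod_cast this
      · have : (0:ℝ) ≤ ((u * (Pw (seg A n) : ℤ) + v * ((Nd (seg A n) : ℤ) + 1) : ℤ) : ℝ) := by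
          rw [hy]; linarith [hd2.1, abs_nonneg (v:ℝ)]
        exact_mod_cast this

theorem comp_sgn {α : Type} [Primcodable α] {s : α → List Bool} {u v : α → ℤ} (hs : Computable s)
    (hu : Computable u) (hv : Computable v) : Computable (fun a => sgn (s a) (u a) (v a)) := by
  have cast : ∀ {f : α → ℕ}, Computable f → Computable (fun a => (f a : ℤ)) :=
    fun hf => prim_natCast.to_comp.comp hf
  have hN := cast (comp_Nd.comp hs)
  have hP := cast (comp_Pw.comp hs)
  have add : ∀ {f g : α → ℤ}, Computable f → Computable g → Computable (fun a => f a + g a) :=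
    fun hf hg => prim_int_add.to_comp.comp hf hg
  have mul : ∀ {f g : α → ℤ}, Computable f → Computable g → Computable (fun a => f a * g a) :=
    fun hf hg => prim_int_mul.to_comp.comp hf hg
  have hx := add (mul hu hP) (mul hv hN)
  have hy := add (mul hu hP) (mul hv (add hN (Computable.const 1)))
  have le0 : ∀ {f : α → ℤ}, Computable f → Computable (fun a => decide (0 ≤ f a)) :=
    fun hf => prim_int_le.decide.to_comp.comp (Computable.const 0) hf
  have lt0 : ∀ {f : α → ℤ}, Computable f → Computable (fun a => decide (f a < 0)) :=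
    fun hf => prim_int_lt.decide.to_comp.comp hf (Computable.const 0)
  unfold sgn
  exact Computable.cond ((Primrec.and.to_comp).comp (le0 hx) (le0 hy)) (Computable.const _)
    (Computable.cond ((Primrec.and.to_comp).comp (lt0 hx) (lt0 hy)) (Computable.const _)
      (Computable.const _))

/-- the free abelian group of rank two, written multiplicatively -/
def GG : Type := Multiplicative (ℤ × ℤ)

instance : CommGroup GG := inferInstanceAs (CommGroup (Multiplicative (ℤ × ℤ)))

def fs (g : GG) : ℤ := (Multiplicative.toAdd g).1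
def sn (g : GG) : ℤ := (Multiplicative.toAdd g).2
def mkG (a b : ℤ) : GG := Multiplicative.ofAdd (a, b)

theorem fs_mul (g h : GG) : fs (g * h) = fs g + fs h := rfl
theorem sn_mul (g h : GG) : sn (g * h) = sn g + sn h := rfl
theorem fs_mk (a b : ℤ) : fs (mkG a b) = a := rfl
theorem sn_mk (a b : ℤ) : sn (mkG a b) = b := rfl
theorem mk_eta (g : GG) : mkG (fs g) (sn g) = g := rfl

theorem fs_pow (g : GG) (n : ℕ) : fs (g ^ n) = n * fs g := by
  induction n with
  | zero => simp; rfl
  | succ n ih => rw [pow_succ, fs_mul, ih]; push_cast; ring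

theorem sn_pow (g : GG) (n : ℕ) : sn (g ^ n) = n * sn g := by
  induction n with
  | zero => simp; rfl
  | succ n ih => rw [pow_succ, sn_mul, ih]; push_cast; ring

noncomputable def val (g : GG) : ℝ := (fs g : ℝ) + sn g * alpha lowA

theorem val_inj : Function.Injective val := by
  intro g h hgh
  have hirr := alpha_irrational lowA lowA_not_computable
  unfold val at hgh
  have h2 : sn g = sn h := by
    by_contra hne
    have hr : ((sn g : ℝ) - sn h) ≠ 0 := by
      rw [sub_ne_zero]; exact_mod_cast hne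
    apply hirr
    refine ⟨((fs h - fs g : ℤ) : ℚ) / ((sn g - sn h : ℤ) : ℚ), ?_⟩
    push_cast
    rw [div_eq_iff hr]
    linarith
  have h1 : fs g = fs h := by
    rw [h2] at hgh
    have : (fs g : ℝ) = fs h := by linarith
    exact_mod_cast this
  rw [← mk_eta g, ← mk_eta h, h1, h2]

@[reducible] noncomputable def ordG : LinearOrder GG := LinearOrder.lift' val val_inj

/-- the standard numbering -/
def nu : ℕ ≃ GG where
  toFun n := mkG (Denumerable.ofNat ℤ n.unpair.1) (Denumerable.ofNat ℤ n.unpair.2)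
  invFun g := Nat.pair (encode (fs g)) (encode (sn g))
  left_inv n := by
    show Nat.pair (encode (Denumerable.ofNat ℤ n.unpair.1)) (encode (Denumerable.ofNat ℤ n.unpair.2)) = n
    rw [Denumerable.encode_ofNat, Denumerable.encode_ofNat, Nat.pair_unpair]
  right_inv g := by
    show mkG (Denumerable.ofNat ℤ (Nat.pair (encode (fs g)) (encode (sn g))).unpair.1)
      (Denumerable.ofNat ℤ (Nat.pair (encode (fs g)) (encode (sn g))).unpair.2) = g
    rw [Nat.unpair_pair]
    show mkG (Denumerable.ofNat ℤ (encode (fs g))) (Denumerable.ofNat ℤ (encode (sn g))) = g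
    rw [Denumerable.ofNat_encode, Denumerable.ofNat_encode, mk_eta]

theorem main_result :
    ¬ (∀ (G : Type) [Group G] [LinearOrder G] (ν : ℕ ≃ G),
      (∀ a b c : G, a ≤ b → c * a ≤ c * b ∧ a * c ≤ b * c) →
      Computable₂ (fun m n : ℕ => ν.symm (ν m * ν n)) →
      (∀ S : Set ℕ,
        (∃ f : ℕ →. ℕ,
          TuringReducible f
            (fun k : ℕ => Part.some
              (if ν (Nat.unpair k).1 ≤ ν (Nat.unpair k).2 then 1 else 0 : ℕ)) ∧
          ∀ n : ℕ, n ∈ S ↔ (f n).Dom) →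
        ∃ g : ℕ → ℕ → Bool, Computable₂ g ∧
          ∀ n : ℕ, ∀ᶠ s in Filter.atTop, (g n s = true ↔ n ∈ S)) →
      ∃ μ : ℕ ≃ G,
        Computable₂ (fun m n : ℕ => μ.symm (μ m * μ n)) ∧
        ComputablePred (fun p : ℕ × ℕ => μ p.1 ≤ μ p.2)) := by
  intro hall
  let _ := ordG
  have hle : ∀ g h : GG, g ≤ h ↔ val g ≤ val h := fun g h => Iff.rfl
  have hof1 : Computable (fun n : ℕ => Denumerable.ofNat ℤ n.unpair.1) :=
    ((Primrec.ofNat ℤ).comp (Primrec.fst.comp Primrec.unpair)).to_comp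
  have hof2 : Computable (fun n : ℕ => Denumerable.ofNat ℤ n.unpair.2) :=
    ((Primrec.ofNat ℤ).comp (Primrec.snd.comp Primrec.unpair)).to_comp
  refine absurd (hall GG nu ?_ ?_ ?_) ?_
  · intro a b c hab
    rw [hle] at hab
    rw [hle, hle]
    have hv : ∀ x y, val (x * y) = val x + val y := by
      intro x y
      simp only [val, fs_mul, sn_mul]; push_cast; ring
    rw [hv, hv, hv, hv]
    constructor <;> linarith
  · have add : ∀ {f g : ℕ × ℕ → ℤ}, Computable f → Computable g → Computable (fun a => f a + g a) :=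
      fun hf hg => prim_int_add.to_comp.comp hf hg
    exact (Primrec₂.natPair.to_comp).comp
      (Computable.encode.comp (add (hof1.comp Computable.fst) (hof1.comp Computable.snd)))
      (Computable.encode.comp (add (hof2.comp Computable.fst) (hof2.comp Computable.snd)))
  · intro S hS
    have hk1 : Computable (fun p : List Bool × ℕ => p.2.unpair.1) := comp_unpair1.comp Computable.snd
    have hk2 : Computable (fun p : List Bool × ℕ => p.2.unpair.2) := comp_unpair2.comp Computable.snd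
    have sub : ∀ {f g : List Bool × ℕ → ℤ}, Computable f → Computable g →
        Computable (fun a => f a - g a) := fun hf hg => prim_int_sub.to_comp.comp hf hg
    refine low_of_approx (fun σ k => sgn σ
      (fs (nu k.unpair.2) - fs (nu k.unpair.1)) (sn (nu k.unpair.2) - sn (nu k.unpair.1))) ?_ ?_
      (fun k => if nu (Nat.unpair k).1 ≤ nu (Nat.unpair k).2 then 1 else 0) ?_ S hS
    · exact comp_sgn Computable.fst (sub (hof1.comp hk2) (hof1.comp hk1))
        (sub (hof2.comp hk2) (hof2.comp hk1))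
    · intro σ τ k v hst h
      exact sgn_mono _ _ _ _ _ hst h
    · intro k
      obtain ⟨n, hn⟩ := sgn_lim lowA lowA_not_computable
        (fs (nu k.unpair.2) - fs (nu k.unpair.1)) (sn (nu k.unpair.2) - sn (nu k.unpair.1))
      refine ⟨n, ?_⟩
      rw [hn]
      congr 1
      have : (0 ≤ ((fs (nu k.unpair.2) - fs (nu k.unpair.1) : ℤ) : ℝ) +
          ((sn (nu k.unpair.2) - sn (nu k.unpair.1) : ℤ) : ℝ) * alpha lowA) ↔
          nu (Nat.unpair k).1 ≤ nu (Nat.unpair k).2 := by
        rw [hle]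
        unfold val
        push_cast
        constructor <;> intro h <;> linarith
      simp only [this]
  · -- decode
    rintro ⟨μ, hμ, hμo⟩
    obtain ⟨dec, hdec⟩ := hμo
    obtain ⟨i0, hi0⟩ : ∃ i, μ i = mkG 1 0 := ⟨μ.symm (mkG 1 0), by simp⟩
    obtain ⟨i1, hi1⟩ : ∃ i, μ i = mkG 0 1 := ⟨μ.symm (mkG 0 1), by simp⟩
    obtain ⟨pw, hpw, hpwc⟩ : ∃ pw : ℕ → ℕ → ℕ, (∀ i n, μ (pw i n) = (μ i) ^ n) ∧
        ∀ i, Computable (pw i) := by
      refine ⟨fun i n => Nat.rec (motive := fun _ => ℕ) (μ.symm 1)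
        (fun _ IH => μ.symm (μ IH * μ i)) n, ?_, ?_⟩
      · intro i n
        induction n with
        | zero => simp
        | succ n ih =>
          simp only at ih ⊢
          rw [ih, pow_succ]; simp
      · intro i
        refine Computable.nat_rec (f := fun n => n) (g := fun _ => μ.symm 1)
          (h := fun _ p => μ.symm (μ p.2 * μ i)) Computable.id (Computable.const _) ?_
        exact hμ.comp (Computable.snd.comp Computable.snd) (Computable.const i)
    apply lowA_not_computable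
    refine decode_cut lowA (fun p q => @decide (μ (pw i0 p) ≤ μ (pw i1 q)) (dec (pw i0 p, pw i1 q))) ?_ ?_
    · have h := hdec.comp (Computable.pair ((hpwc i0).comp (Computable.fst (α := ℕ) (β := ℕ)))
        ((hpwc i1).comp (Computable.snd (α := ℕ) (β := ℕ))))
      exact h
    · intro p q
      refine (@decide_eq_true_iff _ (dec (pw i0 p, pw i1 q))).trans ?_
      show μ (pw i0 p) ≤ μ (pw i1 q) ↔ _
      rw [hpw, hpw, hle, hi0, hi1]
      simp only [val, fs_pow, sn_pow, fs_mk, sn_mk]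
      simp



/-- The negation of the preceding statement: Every computable group on ℕ with a two-sided invariant linear order of low Turing degree (all sets c.e. in the order are limit computable) has a presentation on ℕ where both multiplication and the order are computable. -/
theorem result :
    ¬ (∀ (G : Type) [Group G] [LinearOrder G] (ν : ℕ ≃ G),
      (∀ a b c : G, a ≤ b → c * a ≤ c * b ∧ a * c ≤ b * c) →
      Computable₂ (fun m n : ℕ => ν.symm (ν m * ν n)) →
      (∀ S : Set ℕ,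
        (∃ f : ℕ →. ℕ,
          TuringReducible f
            (fun k : ℕ => Part.some
              (if ν (Nat.unpair k).1 ≤ ν (Nat.unpair k).2 then 1 else 0 : ℕ)) ∧
          ∀ n : ℕ, n ∈ S ↔ (f n).Dom) →
        ∃ g : ℕ → ℕ → Bool, Computable₂ g ∧
          ∀ n : ℕ, ∀ᶠ s in Filter.atTop, (g n s = true ↔ n ∈ S)) →
      ∃ μ : ℕ ≃ G,
        Computable₂ (fun m n : ℕ => μ.symm (μ m * μ n)) ∧
        ComputablePred (fun p : ℕ × ℕ => μ p.1 ≤ μ p.2)) := by
  exact main_result

end Pool.Agent.S09750
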