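import Pool.Statements.S09769
import Mathlib

set_option autoImplicit false
open Pool Pool.MP_dca9d4_lc

namespace Pool.Agent.S09769

/-! A symbol `(c, k)` is a letter `c` controlled by the bit `k`: it is written if the bit `k` is on
and erased otherwise.  A program is a list of symbols.  The letter `false` is called `a` and the
letter `true` is called `b`. -/

/-- The word written by the program `p` when the bits are given by `x`. -/
def ev (x : ℕ → Bool) (p : List (Bool × ℕ)) : List Bool :=
  (p.map (fun s => if x s.2 = true then [s.1] else [])).flatten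

/-- The word `(ab)^n`. -/
def R (n : ℕ) : List Bool := (List.replicate n [false, true]).flatten

/-- The program `(a_k b_k)^n`. -/
def rep (k n : ℕ) : List (Bool × ℕ) := (List.replicate n [(false, k), (true, k)]).flatten

/-- The lifted program: `a_k` becomes `a_k b_k`, and the occurrence number `j` of a `b`, say `b_k`,
becomes `(a_k b_k)^(M+1-j) a_k a_K b_k b_K (a_k b_k)^(M+1+j)`. -/
def lift (K M : ℕ) : ℕ → List (Bool × ℕ) → List (Bool × ℕ)
  | _, [] => []
  | j, (false, k) :: p => [(false, k), (true, k)] ++ lift K M j p
  | j, (true, k) :: p =>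
      rep k (M + 1 - j) ++ ([(false, k), (false, K), (true, k), (true, K)] ++
        (rep k (M + 1 + j) ++ lift K M (j + 1) p))

/-- The number of occurrences of the letter `b` in a program. -/
def cnt (p : List (Bool × ℕ)) : ℕ := p.countP (fun s => s.1)

/-- The morphism `a ↦ ab`, `b ↦ (ab)^(M+1) aabb (ab)^M`. -/
def phi (M : ℕ) : List Bool → List Bool
  | [] => []
  | false :: w => [false, true] ++ phi M w
  | true :: w => R (M + 1) ++ ([false, false, true, true] ++ (R M ++ phi M w))

theorem R_zero : R 0 = [] := rfl

theorem R_add (m n : ℕ) : R (m + n) = R m ++ R n := by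
  rw [R, R, R, List.replicate_add, List.flatten_append]

theorem R_one : R 1 = [false, true] := rfl

theorem R_succ (n : ℕ) : R (n + 1) = [false, true] ++ R n := by
  rw [Nat.add_comm, R_add, R_one]

theorem R_comm (n : ℕ) (w : List Bool) :
    R n ++ ([false, true] ++ w) = [false, true] ++ (R n ++ w) := by
  rw [← List.append_assoc, ← List.append_assoc, ← R_one, ← R_add, ← R_add, Nat.add_comm]

theorem ev_nil (x : ℕ → Bool) : ev x [] = [] := rfl

theorem ev_append (x : ℕ → Bool) (p q : List (Bool × ℕ)) : ev x (p ++ q) = ev x p ++ ev x q := by
  simp [ev]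

theorem ev_cons (x : ℕ → Bool) (s : Bool × ℕ) (p : List (Bool × ℕ)) :
    ev x (s :: p) = (if x s.2 = true then [s.1] else []) ++ ev x p := by
  simp [ev]

theorem ev_rep_on (x : ℕ → Bool) (k n : ℕ) (h : x k = true) : ev x (rep k n) = R n := by
  induction n with
  | zero => rfl
  | succ n ih =>
    have h1 : rep k (n + 1) = [(false, k), (true, k)] ++ rep k n := by
      simp [rep, List.replicate_succ]
    rw [h1, ev_append, ih, R_succ]
    simp [ev, h]

theorem ev_rep_off (x : ℕ → Bool) (k n : ℕ) (h : x k = false) : ev x (rep k n) = [] := by
  induction n with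
  | zero => rfl
  | succ n ih =>
    have h1 : rep k (n + 1) = [(false, k), (true, k)] ++ rep k n := by
      simp [rep, List.replicate_succ]
    rw [h1, ev_append, ih]
    simp [ev, h]

theorem cnt_cons_false (k : ℕ) (p : List (Bool × ℕ)) : cnt ((false, k) :: p) = cnt p := by
  simp [cnt]

theorem cnt_cons_true (k : ℕ) (p : List (Bool × ℕ)) : cnt ((true, k) :: p) = cnt p + 1 := by
  simp [cnt]

/-- Evaluation of the lifted program when the new bit is on. -/
theorem ev_lift_on (x : ℕ → Bool) (K M : ℕ) (hK : x K = true) :
    ∀ (p : List (Bool × ℕ)) (j : ℕ), j + cnt p ≤ M + 1 →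
      R j ++ ev x (lift K M j p) = phi M (ev x p) ++ R (j + cnt p) := by
  intro p
  induction p with
  | nil => intro j _; simp [lift, ev, phi, cnt]
  | cons s p ih =>
    obtain ⟨c, k⟩ := s
    intro j hj
    cases c with
    | false =>
      rw [cnt_cons_false] at hj ⊢
      have ih' := ih j hj
      by_cases hk : x k = true
      · have e1 : ev x (lift K M j ((false, k) :: p)) = [false, true] ++ ev x (lift K M j p) := by
          rw [lift, ev_append]
          simp [ev, hk]
        have e2 : ev x ((false, k) :: p) = false :: ev x p := by
          simp [ev, hk]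
        rw [e1, e2, phi, R_comm, ih']
        simp
      · have hk' : x k = false := by simpa using hk
        have e1 : ev x (lift K M j ((false, k) :: p)) = ev x (lift K M j p) := by
          rw [lift, ev_append]
          simp [ev, hk']
        have e2 : ev x ((false, k) :: p) = ev x p := by
          simp [ev, hk']
        rw [e1, e2, ih']
    | true =>
      rw [cnt_cons_true] at hj ⊢
      have ih' := ih (j + 1) (by omega)
      by_cases hk : x k = true
      · have e1 : ev x (lift K M j ((true, k) :: p)) =
            R (M + 1 - j) ++ ([false, false, true, true] ++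
              (R (M + 1 + j) ++ ev x (lift K M (j + 1) p))) := by
          rw [lift, ev_append, ev_append, ev_append, ev_rep_on x k _ hk, ev_rep_on x k _ hk]
          simp [ev, hk, hK]
        have e2 : ev x ((true, k) :: p) = true :: ev x p := by
          simp [ev, hk]
        have e3 : R j ++ R (M + 1 - j) = R (M + 1) := by
          rw [← R_add]; congr 1; omega
        have e4 : R (M + 1 + j) = R M ++ R (j + 1) := by
          rw [← R_add]; congr 1; omega
        rw [e1, e2, phi, ← List.append_assoc (R j), e3, e4, List.append_assoc (R M), ih']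
        simp only [List.append_assoc]
        congr 5
        omega
      · have hk' : x k = false := by simpa using hk
        have e1 : ev x (lift K M j ((true, k) :: p)) =
            [false, true] ++ ev x (lift K M (j + 1) p) := by
          rw [lift, ev_append, ev_append, ev_append, ev_rep_off x k _ hk', ev_rep_off x k _ hk']
          simp [ev, hk', hK]
        have e2 : ev x ((true, k) :: p) = ev x p := by
          simp [ev, hk']
        rw [e1, e2, ← List.append_assoc, ← R_one, ← R_add, ih']
        congr 2
        omega

/-- Evaluation of the lifted program when the new bit is off. -/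
theorem ev_lift_off (x : ℕ → Bool) (K M : ℕ) (hK : x K = false) :
    ∀ (p : List (Bool × ℕ)) (j : ℕ), j + cnt p ≤ M + 1 →
      ev x (lift K M j p) =
        R ((ev x p).count false + (2 * M + 3) * (ev x p).count true) := by
  intro p
  induction p with
  | nil => intro j _; simp [lift, ev, R]
  | cons s p ih =>
    obtain ⟨c, k⟩ := s
    intro j hj
    cases c with
    | false =>
      rw [cnt_cons_false] at hj
      have ih' := ih j hj
      by_cases hk : x k = true
      · have e1 : ev x (lift K M j ((false, k) :: p)) = [false, true] ++ ev x (lift K M j p) := by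
          rw [lift, ev_append]
          simp [ev, hk]
        have e2 : ev x ((false, k) :: p) = false :: ev x p := by
          simp [ev, hk]
        rw [e1, e2, ih', ← R_succ]
        congr 1
        simp
        omega
      · have hk' : x k = false := by simpa using hk
        have e1 : ev x (lift K M j ((false, k) :: p)) = ev x (lift K M j p) := by
          rw [lift, ev_append]
          simp [ev, hk']
        have e2 : ev x ((false, k) :: p) = ev x p := by
          simp [ev, hk']
        rw [e1, e2, ih']
    | true =>
      rw [cnt_cons_true] at hj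
      have ih' := ih (j + 1) (by omega)
      by_cases hk : x k = true
      · have e1 : ev x (lift K M j ((true, k) :: p)) =
            R (M + 1 - j) ++ ([false, true] ++
              (R (M + 1 + j) ++ ev x (lift K M (j + 1) p))) := by
          rw [lift, ev_append, ev_append, ev_append, ev_rep_on x k _ hk, ev_rep_on x k _ hk]
          simp [ev, hk, hK]
        have e2 : ev x ((true, k) :: p) = true :: ev x p := by
          simp [ev, hk]
        rw [e1, e2, ih', ← R_one, ← R_add, ← R_add, ← R_add]
        congr 1
        simp only [List.count_cons]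
        simp
        ring_nf
        omega
      · have hk' : x k = false := by simpa using hk
        have e1 : ev x (lift K M j ((true, k) :: p)) = ev x (lift K M (j + 1) p) := by
          rw [lift, ev_append, ev_append, ev_append, ev_rep_off x k _ hk', ev_rep_off x k _ hk']
          simp [ev, hk', hK]
        have e2 : ev x ((true, k) :: p) = ev x p := by
          simp [ev, hk']
        rw [e1, e2, ih']

/-- The content of a lifted program does not depend on the order of the symbols. -/
def base (K M : ℕ) (s : Bool × ℕ) : List (Bool × ℕ) :=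
  if s.1 = true then
    rep s.2 (2 * M + 2) ++ [(false, s.2), (false, K), (true, s.2), (true, K)]
  else [(false, s.2), (true, s.2)]

theorem rep_add (k m n : ℕ) : rep k (m + n) = rep k m ++ rep k n := by
  rw [rep, rep, rep, List.replicate_add, List.flatten_append]

theorem lift_perm (K M : ℕ) :
    ∀ (p : List (Bool × ℕ)) (j : ℕ), j + cnt p ≤ M + 1 →
      (lift K M j p).Perm (p.flatMap (base K M)) := by
  intro p
  induction p with
  | nil => intro j _; simp [lift]
  | cons s p ih =>
    obtain ⟨c, k⟩ := s
    intro j hj
    cases c with
    | false =>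
      rw [cnt_cons_false] at hj
      rw [lift, List.flatMap_cons]
      exact List.Perm.append (by simp [base]) (ih j hj)
    | true =>
      rw [cnt_cons_true] at hj
      have ih' := ih (j + 1) (by omega)
      rw [lift, List.flatMap_cons]
      have e : rep k (2 * M + 2) = rep k (M + 1 - j) ++ rep k (M + 1 + j) := by
        rw [← rep_add]; congr 1; omega
      simp only [base, if_true, e, List.append_assoc]
      apply List.Perm.append_left
      rw [← List.append_assoc, ← List.append_assoc (rep k (M + 1 + j))]
      exact List.Perm.append List.perm_append_comm ih'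

theorem phi_prefix (M : ℕ) : ∀ w : List Bool, ∃ t, phi M w ++ R (M + 2) = R (M + 1) ++ t := by
  intro w
  induction w with
  | nil => exact ⟨R 1, by rw [phi, ← R_add]; rfl⟩
  | cons c w ih =>
    obtain ⟨t, ht⟩ := ih
    cases c with
    | false => exact ⟨[false, true] ++ t, by rw [phi, List.append_assoc, ht, R_comm]⟩
    | true => exact ⟨_, by rw [phi, List.append_assoc]⟩

theorem phi_ab (M : ℕ) (y z : List Bool) : phi M (false :: y) ≠ phi M (true :: z) := by
  intro h
  obtain ⟨t, ht⟩ := phi_prefix M y
  have h2 : phi M (false :: y) ++ R (M + 2) = phi M (true :: z) ++ R (M + 2) := by rw [h]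
  rw [phi, phi, List.append_assoc, ht, ← R_comm, List.append_assoc] at h2
  have h3 := List.append_cancel_left h2
  simp at h3

theorem phi_inj (M : ℕ) : ∀ w1 w2 : List Bool, phi M w1 = phi M w2 → w1 = w2 := by
  intro w1
  induction w1 with
  | nil =>
    intro w2 h
    cases w2 with
    | nil => rfl
    | cons c w =>
      cases c with
      | false => simp [phi] at h
      | true => simp [phi] at h
  | cons c w1 ih =>
    intro w2 h
    cases w2 with
    | nil =>
      cases c with
      | false => simp [phi] at h
      | true => simp [phi] at h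
    | cons d w2 =>
      cases c with
      | false =>
        cases d with
        | false =>
          rw [phi, phi] at h
          rw [ih w2 (List.append_cancel_left h)]
        | true => exact absurd h (phi_ab M w1 w2)
      | true =>
        cases d with
        | false => exact absurd h.symm (phi_ab M w2 w1)
        | true =>
          rw [phi, phi] at h
          rw [ih w2 (List.append_cancel_left (List.append_cancel_left (List.append_cancel_left h)))]

theorem ev_perm (x : ℕ → Bool) {p q : List (Bool × ℕ)} (h : p.Perm q) :
    (ev x p).Perm (ev x q) := by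
  unfold ev
  exact List.Perm.flatten (List.Perm.map _ h)

/-- For every `K ≥ 1` there are two programs which write the same word unless all the bits
`0, …, K-1` are on, and which write different words when they are all on. -/
theorem gate (K : ℕ) : ∃ u v : List (Bool × ℕ), u.Perm v ∧
    ∀ x : ℕ → Bool, ev x u = ev x v ↔ ∃ k, k < K + 1 ∧ x k = false := by
  induction K with
  | zero =>
    refine ⟨[(false, 0), (true, 0)], [(true, 0), (false, 0)], List.Perm.swap _ _ _, ?_⟩
    intro x
    cases hx : x 0 with
    | false => simp [ev, hx]
    | true => simp [ev, hx]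
  | succ K ih =>
    obtain ⟨u, v, huv, hg⟩ := ih
    have hc : cnt u = cnt v := huv.countP_eq _
    refine ⟨lift (K + 1) (cnt u) 0 u, lift (K + 1) (cnt u) 0 v, ?_, ?_⟩
    · exact (lift_perm _ _ u 0 (by omega)).trans
        ((huv.flatMap_right _).trans (lift_perm _ _ v 0 (by omega)).symm)
    · intro x
      cases hx : x (K + 1) with
      | false =>
        rw [ev_lift_off x _ _ hx u 0 (by omega), ev_lift_off x _ _ hx v 0 (by omega),
          (ev_perm x huv).count_eq, (ev_perm x huv).count_eq]
        simp only [true_iff]
        exact ⟨K + 1, by omega, hx⟩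
      | true =>
        have h1 := ev_lift_on x (K + 1) (cnt u) hx u 0 (by omega)
        have h2 := ev_lift_on x (K + 1) (cnt u) hx v 0 (by omega)
        rw [R_zero, List.nil_append] at h1 h2
        rw [h1, h2, ← hc]
        constructor
        · intro h
          have h3 := phi_inj _ _ _ (List.append_cancel_right h)
          obtain ⟨k, hk, hk'⟩ := (hg x).1 h3
          exact ⟨k, by omega, hk'⟩
        · rintro ⟨k, hk, hk'⟩
          have hk2 : k < K + 1 := by
            rcases Nat.lt_or_ge k (K + 1) with h | h
            · exact h
            · have : k = K + 1 := by omega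
              rw [this, hx] at hk'
              exact absurd hk' (by simp)
          rw [(hg x).2 ⟨k, hk2, hk'⟩]

/-- The unknown (bit, letter, side) attached to a symbol by a choice `S` of sides. -/
def unk {K : ℕ} (S : Fin (K + 1) → Bool) (s : Bool × ℕ) : Fin (K + 1) × Bool × Bool :=
  (Fin.ofNat (K + 1) s.2, s.1, S (Fin.ofNat (K + 1) s.2))

/-- The solution attached to a choice `B` of sides. -/
def sol {K : ℕ} (B : Fin (K + 1) → Bool) (t : Fin (K + 1) × Bool × Bool) : List Bool :=
  if t.2.2 = B t.1 then [t.2.1] else []

theorem sol_unk {K : ℕ} (S B : Fin (K + 1) → Bool) (p : List (Bool × ℕ)) :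
    (p.map (fun s => sol B (unk S s))).flatten =
      ev (fun k => decide (S (Fin.ofNat (K + 1) k) = B (Fin.ofNat (K + 1) k))) p := by
  unfold ev
  congr 1
  apply List.map_congr_left
  intro s _
  change (if S (Fin.ofNat (K + 1) s.2) = B (Fin.ofNat (K + 1) s.2) then [s.1] else []) =
    (if decide (S (Fin.ofNat (K + 1) s.2) = B (Fin.ofNat (K + 1) s.2)) = true then [s.1] else [])
  by_cases h : S (Fin.ofNat (K + 1) s.2) = B (Fin.ofNat (K + 1) s.2)
  · rw [if_pos h, if_pos (decide_eq_true h)]
  · rw [if_neg h, if_neg (by rw [decide_eq_false h]; decide)]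

theorem bits {K : ℕ} (S B : Fin (K + 1) → Bool) :
    (∃ k, k < K + 1 ∧
      (decide (S (Fin.ofNat (K + 1) k) = B (Fin.ofNat (K + 1) k))) = false) ↔ S ≠ B := by
  constructor
  · rintro ⟨k, _, hk⟩ h
    rw [h] at hk
    simp at hk
  · intro h
    obtain ⟨i, hi⟩ := Function.ne_iff.1 h
    refine ⟨i.val, i.isLt, ?_⟩
    have : Fin.ofNat (K + 1) i.val = i := by
      ext
      simp [Fin.ofNat, Nat.mod_eq_of_lt i.isLt]
    rw [this]
    simpa using hi

/-- For every `K` there are `2^(K+1)` independent equations in `4(K+1)` unknowns. -/
theorem system (K : ℕ) :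
    ∃ E : Finset (List (Fin (4 * (K + 1))) × List (Fin (4 * (K + 1)))),
      E.card = 2 ^ (K + 1) ∧
      ∀ E' : Finset (List (Fin (4 * (K + 1))) × List (Fin (4 * (K + 1)))), E' ⊂ E →
        ∃ h : Fin (4 * (K + 1)) → List Bool,
          (∀ e ∈ E', (e.1.map h).flatten = (e.2.map h).flatten) ∧
          ¬ (∀ e ∈ E, (e.1.map h).flatten = (e.2.map h).flatten) := by
  classical
  obtain ⟨u, v, _, hg⟩ := gate K
  have hcard : Fintype.card (Fin (K + 1) × Bool × Bool) = 4 * (K + 1) := by
    simp [Fintype.card_prod]
    ring
  let φ : (Fin (K + 1) × Bool × Bool) ≃ Fin (4 * (K + 1)) := Fintype.equivFinOfCardEq hcard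
  let eqn : (Fin (K + 1) → Bool) → List (Fin (4 * (K + 1))) × List (Fin (4 * (K + 1))) :=
    fun S => (u.map (fun s => φ (unk S s)), v.map (fun s => φ (unk S s)))
  have key : ∀ S B : Fin (K + 1) → Bool,
      ((eqn S).1.map (fun i => sol B (φ.symm i))).flatten =
        ((eqn S).2.map (fun i => sol B (φ.symm i))).flatten ↔ S ≠ B := by
    intro S B
    have h1 : ∀ p : List (Bool × ℕ),
        ((p.map (fun s => φ (unk S s))).map (fun i => sol B (φ.symm i))).flatten =
          ev (fun k => decide (S (Fin.ofNat (K + 1) k) = B (Fin.ofNat (K + 1) k))) p := by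
      intro p
      rw [← sol_unk, List.map_map]
      simp [Function.comp_def]
    show ((u.map (fun s => φ (unk S s))).map (fun i => sol B (φ.symm i))).flatten =
        ((v.map (fun s => φ (unk S s))).map (fun i => sol B (φ.symm i))).flatten ↔ S ≠ B
    rw [h1, h1, hg, bits]
  have hinj : Function.Injective eqn := by
    intro S B hSB
    by_contra hne
    have h1 := (key S B).2 hne
    rw [hSB] at h1
    exact (key B B).1 h1 rfl
  refine ⟨Finset.univ.image eqn, ?_, ?_⟩
  · rw [Finset.card_image_of_injective _ hinj]
    simp
  · intro E' hE'
    obtain ⟨hsub, hnot⟩ := Finset.ssubset_iff_subset_ne.1 hE'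
    obtain ⟨e, he, heE'⟩ := Finset.exists_of_ssubset hE'
    obtain ⟨B, _, rfl⟩ := Finset.mem_image.1 he
    refine ⟨fun i => sol B (φ.symm i), ?_, ?_⟩
    · intro e' he'
      obtain ⟨S, _, rfl⟩ := Finset.mem_image.1 (hsub he')
      apply (key S B).2
      rintro rfl
      exact heE' he'
    · intro hall
      exact (key B B).1 (hall _ he) rfl

/-- For some c>1 and infinitely many n, there is an independent system of constant-free word equations in n unknowns with at least c^n equations, either over the free monoid or over the free semigroup (nonempty sides and solutions). -/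
theorem result :
    (∃ c : ℝ, 1 < c ∧ ∀ N : ℕ, ∃ n : ℕ, N ≤ n ∧
      ∃ E : Finset (List (Fin n) × List (Fin n)),
        c ^ n ≤ (E.card : ℝ) ∧
        ∀ E' : Finset (List (Fin n) × List (Fin n)), E' ⊂ E →
          ∃ h : Fin n → List Bool,
            (∀ e ∈ E', (e.1.map h).flatten = (e.2.map h).flatten) ∧
            ¬ (∀ e ∈ E, (e.1.map h).flatten = (e.2.map h).flatten))
    ∨
    (∃ c : ℝ, 1 < c ∧ ∀ N : ℕ, ∃ n : ℕ, N ≤ n ∧
      ∃ E : Finset (List (Fin n) × List (Fin n)),
        (∀ e ∈ E, e.1 ≠ [] ∧ e.2 ≠ []) ∧
        c ^ n ≤ (E.card : ℝ) ∧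
        ∀ E' : Finset (List (Fin n) × List (Fin n)), E' ⊂ E →
          ∃ h : Fin n → List Bool, (∀ i, h i ≠ []) ∧
            (∀ e ∈ E', (e.1.map h).flatten = (e.2.map h).flatten) ∧
            ¬ (∀ e ∈ E, (e.1.map h).flatten = (e.2.map h).flatten)) := by
  left
  refine ⟨11 / 10, by norm_num, ?_⟩
  intro N
  refine ⟨4 * (N + 1), by omega, ?_⟩
  obtain ⟨E, hE, hind⟩ := system N
  refine ⟨E, ?_, hind⟩
  rw [hE, pow_mul]
  push_cast
  exact pow_le_pow_left₀ (by norm_num) (by norm_num) _

end Pool.Agent.S09769
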