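import Pool.Statements.S09774
import Pool.Agent.Helper844.OL.Dio
import Pool.Agent.Helper844.OL.Seq

set_option autoImplicit false
open Pool Pool.MP_dd548e_lc

namespace Pool.Agent.S09774

open Pool.Agent.Helper844.Sys Pool.Agent.Helper844.Dio Pool.Agent.Helper844.OL

open Nat.Partrec (Code)

theorem comp_pred {α β : Type} [Primcodable α] [Primcodable β] {p : β → Prop} {g : α → β}
    (hp : ComputablePred p) (hg : Computable g) : ComputablePred (fun a => p (g a)) := by
  obtain ⟨f, hf, rfl⟩ := ComputablePred.computable_iff.1 hp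
  exact ComputablePred.computable_iff.2 ⟨fun a => f (g a), hf.comp hg, rfl⟩

/-- a recursively enumerable set of natural numbers that is not computable -/
theorem exists_halting : ∃ S : ℕ → Prop, REPred S ∧ ¬ ComputablePred S := by
  refine ⟨fun n => (Code.eval (Denumerable.ofNat Code n) 0).Dom, ?_, ?_⟩
  · have h1 : Partrec fun n : ℕ => Code.eval (Denumerable.ofNat Code n) 0 :=
      Code.eval_part.comp (Computable.ofNat Code) (Computable.const 0)
    exact h1.dom_re
  · intro h
    have h2 := comp_pred h (Computable.encode (α := Code))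
    refine ComputablePred.halting_problem 0 (h2.of_eq fun c => ?_)
    rw [Denumerable.ofNat_encode]

/-- codes of letters as a sum type -/
def ltrSum {V E : Type} : Ltr V E → (V × Bool) ⊕ (E × Bool × Bool) ⊕ (E × Bool) ⊕ Bool
  | .var v s => Sum.inl (v, s)
  | .al q g s => Sum.inr (Sum.inl (q, g, s))
  | .be q g => Sum.inr (Sum.inr (Sum.inl (q, g)))
  | .dol => Sum.inr (Sum.inr (Sum.inr true))
  | .ax => Sum.inr (Sum.inr (Sum.inr false))

theorem ltrSum_inj {V E : Type} : Function.Injective (ltrSum : Ltr V E → _) := by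
  intro a b h
  rcases a with ⟨v, s⟩ | ⟨q, g, s⟩ | ⟨q, g⟩ | _ | _ <;>
  rcases b with ⟨v', s'⟩ | ⟨q', g', s'⟩ | ⟨q', g'⟩ | _ | _ <;> simp_all [ltrSum]

/-- codes of tests as a sum type -/
def tstSum {E : Type} : Tst E → E ⊕ E ⊕ Unit ⊕ (E × Bool)
  | .eq q => Sum.inl q
  | .cnt q => Sum.inr (Sum.inl q)
  | .par => Sum.inr (Sum.inr (Sum.inl ()))
  | .blk q g => Sum.inr (Sum.inr (Sum.inr (q, g)))

theorem tstSum_inj {E : Type} : Function.Injective (tstSum : Tst E → _) := by
  intro a b h
  rcases a with q | q | _ | ⟨q, g⟩ <;> rcases b with q' | q' | _ | ⟨q', g'⟩ <;>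
    simp_all [tstSum]

/-- an undecidable family of universality questions for weighted automata -/
theorem exists_cod (S : ℕ → Prop) (hre : REPred S) :
    ∃ (K : Type) (D : Cod K) (a b : K), ∀ n : ℕ,
      (∀ w : List K, D.A.Acc (w ++ a :: List.replicate n b)) ↔ ¬ S n := by
  classical
  obtain ⟨V, _, f, L, hsys⟩ := exists_system S (dprm hre)
  let E := Fin L.length
  let Q : E → Eqn V := fun i => L.get i
  have : Finite (Ltr V E) := Finite.of_injective _ ltrSum_inj
  have : Finite (Tst E) := Finite.of_injective _ tstSum_inj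
  have : Fintype (Ltr V E) := Fintype.ofFinite _
  have hT : Fintype (Tst E) := Fintype.ofFinite _
  obtain ⟨B, hB, hB'⟩ : ∃ B : ℕ, (∀ t a, |base f Q t a| + |(extra t a : ℤ)| ≤ B) ∧
      ∀ t, |cst Q t| ≤ B := by
    let F : Tst E × Ltr V E → ℤ := fun p => |base f Q p.1 p.2| + |(extra p.1 p.2 : ℤ)|
    let G : Tst E → ℤ := fun t => |cst Q t|
    refine ⟨(∑ p, F p + ∑ t, G t).toNat, ?_, ?_⟩
    · intro t a
      have h1 : F (t, a) ≤ ∑ p, F p :=
        Finset.single_le_sum (f := F) (fun p _ => by positivity) (Finset.mem_univ _)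
      have h2 : 0 ≤ ∑ t, G t := Finset.sum_nonneg (fun t _ => by positivity)
      have h3 := Int.self_le_toNat (∑ p, F p + ∑ t, G t)
      have h4 : F (t, a) = |base f Q t a| + |(extra t a : ℤ)| := rfl
      linarith
    · intro t
      have h1 : G t ≤ ∑ t, G t :=
        Finset.single_le_sum (f := G) (fun p _ => by positivity) (Finset.mem_univ _)
      have h2 : 0 ≤ ∑ p, F p := Finset.sum_nonneg (fun t _ => by positivity)
      have h3 := Int.self_le_toNat (∑ p, F p + ∑ t, G t)
      have h4 : G t = |cst Q t| := rfl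
      linarith
  let A := (testWA f Q B hB hB' hT).slack
  have : Fintype A.Q := A.fin
  let D : Cod (Ltr V E) :=
    { A := A
      n := Fintype.card A.Q
      idx := fun q => (Fintype.equivFin A.Q q : ℕ)
      idx_lt := fun q => (Fintype.equivFin A.Q q).2
      idx_inj := fun a b h => (Fintype.equivFin A.Q).injective (Fin.ext h)
      m := Fintype.card (Ltr V E)
      en := fun q => (Fintype.equivFin (Ltr V E) q : ℕ)
      en_lt := fun q => (Fintype.equivFin (Ltr V E) q).2
      en_inj := fun a b h => (Fintype.equivFin (Ltr V E)).injective (Fin.ext h) }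
  refine ⟨Ltr V E, D, .dol, .ax, ?_⟩
  intro n
  have hacc : ∀ u, D.A.Acc u ↔ ¬ AllZero f Q u := by
    intro u
    rw [← not_iff_not, not_not]
    change ¬ (testWA f Q B hB hB' hT).slack.Acc u ↔ _
    rw [slack_acc, pos_iff]
    rfl
  constructor
  · intro h hS
    obtain ⟨x, hx, hxL⟩ := (hsys (1 - 4 * n)).2 ⟨n, hS, rfl⟩
    refine (hacc _).1 (h (sol Q x)) ?_
    exact allZero_of_solution f Q n x hx (fun q => hxL _ (List.get_mem _ _))
  · intro hS w
    rw [hacc]
    intro hz
    apply hS
    obtain ⟨x, hx, hxq⟩ := solution_of_allZero f Q n w hz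
    obtain ⟨m, hm, hm2⟩ := (hsys (x f)).1 ⟨x, rfl, fun q hq => by
      obtain ⟨i, rfl⟩ := List.get_of_mem hq
      exact hxq i⟩
    have : m = n := by omega
    rwa [this] at hm

/-- the axiom words -/
def axw (t a b c : ℕ) (n : ℕ) : List ℕ :=
  t :: a :: ((List.range n).map (fun _ => b) ++ [c])

theorem axw_computable (t a b c : ℕ) : Computable (axw t a b c) := by
  apply Primrec.to_comp
  unfold axw
  have h1 : Primrec fun n : ℕ => (List.range n).map (fun _ => b) :=
    Primrec.list_map Primrec.list_range (Primrec.const b).to₂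
  have h2 : Primrec fun n : ℕ => (List.range n).map (fun _ => b) ++ [c] :=
    Primrec.list_append.comp h1 (Primrec.const [c])
  exact Primrec.list_cons.comp (Primrec.const t) (Primrec.list_cons.comp (Primrec.const a) h2)

/-- The negation of the preceding statement: There is a computable procedure that, given two OL systems (finite rule lists over letters in ℕ, each used letter having a rule, plus axioms), correctly decides whether their sets of infinite derivation sequences are equal. -/
theorem result :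
    ¬ (∃ f : (List (ℕ × List ℕ) × List ℕ) × (List (ℕ × List ℕ) × List ℕ) → Bool,
      Computable f ∧
      ∀ (R₁ : List (ℕ × List ℕ)) (ω₁ : List ℕ) (R₂ : List (ℕ × List ℕ)) (ω₂ : List ℕ),
        (∀ a : ℕ, (a ∈ ω₁ ∨ ∃ p ∈ R₁, a ∈ p.2) → ∃ w : List ℕ, (a, w) ∈ R₁) →
        (∀ a : ℕ, (a ∈ ω₂ ∨ ∃ p ∈ R₂, a ∈ p.2) → ∃ w : List ℕ, (a, w) ∈ R₂) →
        (f ((R₁, ω₁), (R₂, ω₂)) = true ↔
          {s : ℕ → List ℕ | s 0 = ω₁ ∧ ∀ n : ℕ, ∃ ws : List (List ℕ),
              List.Forall₂ (fun a w => (a, w) ∈ R₁) (s n) ws ∧ s (n + 1) = ws.flatten} =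
          {s : ℕ → List ℕ | s 0 = ω₂ ∧ ∀ n : ℕ, ∃ ws : List (List ℕ),
              List.Forall₂ (fun a w => (a, w) ∈ R₂) (s n) ws ∧ s (n + 1) = ws.flatten})) := by
  rintro ⟨f, hf, hcor⟩
  obtain ⟨S, hre, hnc⟩ := exists_halting
  obtain ⟨K, D, ka, kb, hD⟩ := exists_cod S hre
  have hlist : ∀ b : Prop, ∃ R : List (ℕ × List ℕ), ∀ a w, (a, w) ∈ R ↔ D.Ru b a w := by
    intro b
    refine ⟨(D.ru_finite b).toFinset.toList, ?_⟩
    intro a w
    simp
  obtain ⟨R1, hR1⟩ := hlist False
  obtain ⟨R2, hR2⟩ := hlist True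
  let om : ℕ → List ℕ := axw (D.N + 1) (D.enc ka) (D.enc kb) D.N
  have hom : ∀ n, om n = D.om (ka :: List.replicate n kb) := by
    intro n
    have h1 : (List.range n).map (fun _ => D.enc kb) = List.replicate n (D.enc kb) := by
      rw [List.map_const', List.length_range]
    simp only [om, axw, Cod.om, List.map_cons, List.map_replicate, h1]
    rfl
  have hsq : ∀ (R : List (ℕ × List ℕ)) (b : Prop) (h : ∀ a w, (a, w) ∈ R ↔ D.Ru b a w) (n : ℕ),
      {s : ℕ → List ℕ | s 0 = om n ∧ ∀ n : ℕ, ∃ ws : List (List ℕ),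
        List.Forall₂ (fun a w => (a, w) ∈ R) (s n) ws ∧ s (n + 1) = ws.flatten} =
      Sq (D.Ru b) (D.om (ka :: List.replicate n kb)) := by
    intro R b h n
    have h1 : (fun (a : ℕ) (w : List ℕ) => (a, w) ∈ R) = D.Ru b := by
      funext a w
      exact propext (h a w)
    ext s
    simp only [Set.mem_ofPred_eq, Sq, h1, hv_iff, hom]
  have htot : ∀ (R : List (ℕ × List ℕ)) (b : Prop) (h : ∀ a w, (a, w) ∈ R ↔ D.Ru b a w) (n : ℕ),
      ∀ a : ℕ, (a ∈ om n ∨ ∃ p ∈ R, a ∈ p.2) → ∃ w : List ℕ, (a, w) ∈ R := by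
    intro R b h n a ha
    have hdom : D.Dom a := by
      rcases ha with ha | ⟨⟨x, w⟩, hp, ha⟩
      · rw [hom, Cod.om, List.mem_cons] at ha
        rcases ha with rfl | ha
        · left; omega
        · rcases D.pure_mem _ a ha with h | rfl
          · exact Or.inr h
          · left; omega
      · exact D.ru_dom b x w ((h x w).1 hp) a ha
    obtain ⟨w, hw⟩ := D.ru_tot b a hdom
    exact ⟨w, (h a w).2 hw⟩
  have key : ∀ n, f ((R1, om n), (R2, om n)) = true ↔ ¬ S n := by
    intro n
    rw [hcor R1 (om n) R2 (om n) (htot R1 False hR1 n) (htot R2 True hR2 n),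
      hsq R1 False hR1, hsq R2 True hR2, D.main_iff, hD]
  apply hnc
  have hc : Computable fun n => f ((R1, om n), (R2, om n)) := by
    refine hf.comp ?_
    have h1 : Computable om := axw_computable _ _ _ _
    exact ((Computable.const R1).pair h1).pair ((Computable.const R2).pair h1)
  refine ComputablePred.computable_iff.2 ⟨fun n => !f ((R1, om n), (R2, om n)),
    (Primrec.not.to_comp).comp hc, ?_⟩
  funext n
  have h2 := key n
  apply propext
  rw [Bool.not_eq_true', ← Bool.not_eq_true, h2, not_not]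

end Pool.Agent.S09774
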