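import Pool.Statements.S09788
-- import your own Pool.Agent.* helpers here

set_option autoImplicit false
open Pool Pool.MP_e29ee7_lc

namespace Pool.Agent.S09788

section aux

open Cardinal Set Filter Topology

/-- sup of `φ q` over rationals `q < x` -/
noncomputable def G (φ : ℚ → ℝ) (x : ℝ) : ℝ := sSup (φ '' {q : ℚ | (q : ℝ) < x})

lemma G_eq {f : ℝ → ℝ} (hf : Monotone f) {x : ℝ} (hx : ContinuousAt f x) :
    G (fun q => f q) x = f x := by
  have hne : ((fun q : ℚ => f q) '' {q : ℚ | (q : ℝ) < x}).Nonempty := by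
    obtain ⟨q, hq⟩ := exists_rat_lt x
    exact ⟨f q, q, hq, rfl⟩
  have hub : ∀ y ∈ ((fun q : ℚ => f q) '' {q : ℚ | (q : ℝ) < x}), y ≤ f x := by
    rintro y ⟨q, hq, rfl⟩
    exact hf (le_of_lt hq)
  apply le_antisymm
  · exact csSup_le hne hub
  · apply le_of_forall_lt
    intro r hr
    have h1 : ∀ᶠ t in 𝓝 x, r < f t := hx.eventually (lt_mem_nhds hr)
    obtain ⟨ε, hε, hb⟩ := Metric.eventually_nhds_iff.1 h1
    obtain ⟨q, hq1, hq2⟩ := exists_rat_btwn (show x - ε < x by linarith)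
    have h2 : r < f q := hb (by rw [Real.dist_eq, abs_lt]; constructor <;> linarith)
    exact h2.trans_le (le_csSup ⟨f x, hub⟩ ⟨q, hq2, rfl⟩)

lemma code {S : Set ℝ} {g : ℝ → ℝ} (hg : MonotoneOn g S) (hl : BddBelow (g '' S))
    (hu : BddAbove (g '' S)) : ∃ φ : ℚ → ℝ, {x ∈ S | G φ x ≠ g x}.Countable := by
  obtain ⟨f, hf, hfg⟩ := hg.exists_monotone_extension hl hu
  refine ⟨fun q => f q, hf.countable_not_continuousAt.mono ?_⟩
  rintro x ⟨hxS, hx⟩ hc
  apply hx
  rw [G_eq hf hc, hfg hxS]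

/-- index type: the initial ordinal of cardinality continuum -/
abbrev I : Type := (Cardinal.continuum.{0}).ord.ToType

lemma mk_I : #I = 𝔠 := by simp [I]

lemma mk_small (i : I) : #(Iio i) < 𝔠 := by
  have h := Cardinal.mk_Iio_lt i (by simp [I])
  rwa [mk_I] at h

lemma exists_s : ∃ s : I → (ℚ → ℝ), Function.Surjective s := by
  have h : #I = #(ℚ → ℝ) := by
    rw [mk_I, ← Cardinal.power_def, mk_real]
    simp
  obtain ⟨e⟩ := Cardinal.eq.1 h
  exact ⟨e, e.surjective⟩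

lemma exists_j : ∃ j : I → ℕ, ∀ n, #{α | j α = n} = 𝔠 := by
  have h : #I = #(I × ℕ) := by
    rw [Cardinal.mk_prod, mk_I]; simp
  obtain ⟨e⟩ := Cardinal.eq.1 h
  refine ⟨fun α => (e α).2, fun n => ?_⟩
  have : {α | (e α).2 = n} ≃ I :=
    { toFun := fun α => (e α).1
      invFun := fun β => ⟨e.symm (β, n), by simp⟩
      left_inv := by
        rintro ⟨α, hα⟩
        apply Subtype.ext
        simp only [Set.mem_ofPred_eq] at hα
        subst hα
        simp
      right_inv := by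
        intro β
        simp }
  rw [Cardinal.mk_congr this, mk_I]


/-- The transfinite sequence of reals. -/
lemma exists_P (s : I → (ℚ → ℝ)) (j : I → ℕ) :
    ∃ P : I → ℝ, (∀ α, P α ∈ Ico (j α : ℝ) (j α + 1)) ∧
      (∀ α β, β < α → P α ≠ P β) ∧
      (∀ α β γ, β < α → γ < α → P α ≠ G (s γ) (P β)) := by
  classical
  -- the set to avoid
  let Bad : (α : I) → ((β : I) → β < α → ℝ) → Set ℝ := fun α rec =>
    (range fun β : Iio α => rec β.1 β.2) ∪
      (range fun q : Iio α × Iio α => G (s q.2.1) (rec q.1.1 q.1.2))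
  have hex : ∀ α rec, ∃ r, r ∈ Ico (j α : ℝ) (j α + 1) ∧ r ∉ Bad α rec := by
    intro α rec
    by_contra hcon
    push Not at hcon
    have hsub : Ico (j α : ℝ) (j α + 1) ⊆ Bad α rec := hcon
    have h1 : #(Ico (j α : ℝ) (j α + 1)) ≤ #(Bad α rec) := mk_le_mk_of_subset hsub
    rw [mk_Ico_real (by linarith)] at h1
    have h2 : #(Bad α rec) < 𝔠 := by
      refine (mk_union_le _ _).trans_lt ?_
      apply add_lt_of_lt aleph0_le_continuum
      · exact mk_range_le.trans_lt (mk_small α)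
      · refine mk_range_le.trans_lt ?_
        rw [Cardinal.mk_prod]
        simp only [Cardinal.lift_id]
        exact mul_lt_of_lt aleph0_le_continuum (mk_small α) (mk_small α)
    exact absurd h1 (not_le.2 h2)
  let P : I → ℝ := WellFounded.fix (wellFounded_lt (α := I)) (fun α rec => Classical.choose (hex α rec))
  have hP : ∀ α, P α = Classical.choose (hex α (fun β _ => P β)) := by
    intro α
    exact WellFounded.fix_eq _ _ _
  have hspec : ∀ α, P α ∈ Ico (j α : ℝ) (j α + 1) ∧ P α ∉ Bad α (fun β _ => P β) := by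
    intro α
    rw [hP α]
    exact Classical.choose_spec (hex α (fun β _ => P β))
  refine ⟨P, fun α => (hspec α).1, ?_, ?_⟩
  · intro α β hβ h
    apply (hspec α).2
    left
    exact ⟨⟨β, hβ⟩, h.symm⟩
  · intro α β γ hβ hγ h
    apply (hspec α).2
    right
    exact ⟨(⟨β, hβ⟩, ⟨γ, hγ⟩), h.symm⟩

/-- Key lemma: the existence of the family. -/
lemma exists_family : ∃ (P : I → ℝ) (j : I → ℕ), Function.Injective P ∧
    (∀ α, P α ∈ Ico (j α : ℝ) (j α + 1)) ∧ (∀ n, #(P '' {α | j α = n}) = 𝔠) ∧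
    ∀ (m n : ℕ), m ≠ n → ∀ (S : Set ℝ) (g : ℝ → ℝ), S ⊆ P '' {α | j α = m} →
      StrictMonoOn g S → MapsTo g S (P '' {α | j α = n}) → #S < 𝔠 := by
  obtain ⟨s, hs⟩ := exists_s
  obtain ⟨j, hj⟩ := exists_j
  obtain ⟨P, hP1, hP2, hP3⟩ := exists_P s j
  have hinj : Function.Injective P := by
    intro α β h
    rcases lt_trichotomy α β with h1 | h1 | h1
    · exact absurd h.symm (hP2 β α h1)
    · exact h1
    · exact absurd h (hP2 α β h1)
  refine ⟨P, j, hinj, hP1, fun n => ?_, ?_⟩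
  · rw [mk_image_eq hinj, hj n]
  intro m n hmn S g hS hg hmaps
  have hbdd : ∀ (k : ℕ) (A : Set ℝ), A ⊆ P '' {α | j α = k} → BddBelow A ∧ BddAbove A := by
    intro k A hA
    constructor
    · refine ⟨k, fun r hr => ?_⟩
      obtain ⟨α, hα, rfl⟩ := hA hr
      have hα' : j α = k := hα
      rw [← hα']
      exact (hP1 α).1
    · refine ⟨k + 1, fun r hr => ?_⟩
      obtain ⟨α, hα, rfl⟩ := hA hr
      have hα' : j α = k := hα
      rw [← hα']
      exact (hP1 α).2.le
  obtain ⟨φ, hφ⟩ := code hg.monotoneOn (hbdd n _ hmaps.image_subset).1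
    (hbdd n _ hmaps.image_subset).2
  -- inverse
  set h := Function.invFunOn g S with hh
  have hhg : ∀ x ∈ S, h (g x) = x := fun x hx => hg.injOn.leftInvOn_invFunOn hx
  have hmono : StrictMonoOn h (g '' S) := by
    rintro _ ⟨x, hx, rfl⟩ _ ⟨y, hy, rfl⟩ hlt
    rw [hhg x hx, hhg y hy]
    exact (hg.lt_iff_lt hx hy).1 hlt
  have himg : h '' (g '' S) ⊆ S := by
    rintro _ ⟨_, ⟨x, hx, rfl⟩, rfl⟩
    rw [hhg x hx]; exact hx
  obtain ⟨ψ, hψ⟩ := code hmono.monotoneOn (hbdd m _ (himg.trans hS)).1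
    (hbdd m _ (himg.trans hS)).2
  obtain ⟨γ, rfl⟩ := hs φ
  obtain ⟨γ', rfl⟩ := hs ψ
  have hcover : S ⊆ {x ∈ S | G (s γ) x ≠ g x} ∪ h '' {y ∈ g '' S | G (s γ') y ≠ h y} ∪
      P '' (Iic (max γ γ')) := by
    intro x hx
    by_cases h1 : G (s γ) x ≠ g x
    · left; left; exact ⟨hx, h1⟩
    by_cases h2 : G (s γ') (g x) ≠ h (g x)
    · left; right
      exact ⟨g x, ⟨⟨x, hx, rfl⟩, h2⟩, hhg x hx⟩
    push Not at h1 h2
    right
    obtain ⟨α, hα, rfl⟩ := hS hx
    obtain ⟨δ, hδ, hgδ⟩ := hmaps hx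
    have hα' : j α = m := hα
    have hδ' : j δ = n := hδ
    refine ⟨α, ?_, rfl⟩
    rw [mem_Iic]
    rcases lt_trichotomy α δ with hlt | heq | hlt
    · by_contra hcon
      rw [not_le] at hcon
      have hγ : γ < δ := (le_max_left γ γ').trans_lt (hcon.trans hlt)
      exact hP3 δ α γ hlt hγ (by rw [h1, hgδ])
    · subst heq
      exact absurd (hα'.symm.trans hδ') hmn
    · by_contra hcon
      rw [not_le] at hcon
      have hγ : γ' < α := (le_max_right γ γ').trans_lt hcon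
      apply hP3 α δ γ' hlt hγ
      rw [hgδ, h2, hhg _ hx]
  refine (mk_le_mk_of_subset hcover).trans_lt ?_
  refine (mk_union_le _ _).trans_lt ?_
  apply add_lt_of_lt aleph0_le_continuum
  · refine (mk_union_le _ _).trans_lt ?_
    apply add_lt_of_lt aleph0_le_continuum
    · exact (Cardinal.le_aleph0_iff_set_countable.2 hφ).trans_lt aleph0_lt_continuum
    · exact (Cardinal.le_aleph0_iff_set_countable.2 (hψ.image h)).trans_lt aleph0_lt_continuum
  · refine mk_image_le.trans_lt ?_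
    rw [← Iio_insert]
    refine (mk_insert_le).trans_lt ?_
    exact add_lt_of_lt aleph0_le_continuum (mk_small _) (one_lt_aleph0.trans aleph0_lt_continuum)


/-- The tree. -/
@[ext] structure T (P : I → ℝ) : Type where
  z : ℤ
  σ : ℕ → ℕ
  p : ℝ
  hp : ∃ α, P α = p
  hσ : ∀ i : ℕ, z ≤ i → σ i = 0
  h0 : z ≤ 0 → (⌊p⌋₊ : ℤ) ≤ -z
  h1 : 1 ≤ z → ((Nat.unpair ⌊p⌋₊).1 : ℤ) + 1 = z ∧
    (Nat.unpair ⌊p⌋₊).2 ≤ σ (Nat.unpair ⌊p⌋₊).1

variable {P : I → ℝ}

instance : LE (T P) :=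
  ⟨fun a b => (a.z < b.z ∧ ∀ i : ℕ, (i : ℤ) < a.z → a.σ i = b.σ i) ∨
    (a.z = b.z ∧ a.σ = b.σ ∧ a.p ≤ b.p)⟩

lemma le_def (a b : T P) : a ≤ b ↔ (a.z < b.z ∧ ∀ i : ℕ, (i : ℤ) < a.z → a.σ i = b.σ i) ∨
    (a.z = b.z ∧ a.σ = b.σ ∧ a.p ≤ b.p) := Iff.rfl

instance : PartialOrder (T P) where
  le_refl a := Or.inr ⟨rfl, rfl, le_rfl⟩
  le_trans a b c hab hbc := by
    rw [le_def] at *
    rcases hab with ⟨h1, h2⟩ | ⟨h1, h2, h3⟩ <;> rcases hbc with ⟨h4, h5⟩ | ⟨h4, h5, h6⟩
    · left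
      exact ⟨h1.trans h4, fun i hi => (h2 i hi).trans (h5 i (hi.trans h1))⟩
    · left
      refine ⟨h4 ▸ h1, fun i hi => (h2 i hi).trans (by rw [h5])⟩
    · left
      refine ⟨h1 ▸ h4, fun i hi => ?_⟩
      rw [h2]
      exact h5 i (h1 ▸ hi)
    · right
      exact ⟨h1.trans h4, h2.trans h5, h3.trans h6⟩
  le_antisymm a b hab hba := by
    rw [le_def] at *
    rcases hab with ⟨h1, h2⟩ | ⟨h1, h2, h3⟩ <;> rcases hba with ⟨h4, h5⟩ | ⟨h4, h5, h6⟩
    · omega
    · omega
    · omega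
    · exact T.ext h1 h2 (le_antisymm h3 h6)

/-- `y` lies on the branch `f`. -/
def OnB (y : T P) (f : ℕ → ℕ) : Prop := ∀ i : ℕ, (i : ℤ) < y.z → y.σ i = f i

lemma onB_of_le {a b : T P} (h : a ≤ b) : OnB a b.σ := by
  rcases h with ⟨_, h2⟩ | ⟨_, h2, _⟩
  · exact h2
  · intro i _; rw [h2]

lemma onB_trans {a b : T P} {f : ℕ → ℕ} (h : a ≤ b) (hb : OnB b f) : OnB a f := by
  intro i hi
  rcases h with ⟨h1, h2⟩ | ⟨h1, h2, _⟩
  · exact (h2 i hi).trans (hb i (hi.trans h1))
  · rw [h2]; exact hb i (h1 ▸ hi)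

lemma onB_le_iff {a b : T P} {f : ℕ → ℕ} (ha : OnB a f) (hb : OnB b f) :
    a ≤ b ↔ (a.z < b.z ∨ (a.z = b.z ∧ a.p ≤ b.p)) := by
  constructor
  · rintro (⟨h1, _⟩ | ⟨h1, _, h3⟩)
    · exact Or.inl h1
    · exact Or.inr ⟨h1, h3⟩
  · rintro (h | ⟨h, h'⟩)
    · left
      refine ⟨h, fun i hi => ?_⟩
      rw [ha i hi, hb i (hi.trans h)]
    · right
      refine ⟨h, ?_, h'⟩
      funext i
      by_cases hi : (i : ℤ) < a.z
      · rw [ha i hi, hb i (h ▸ hi)]
      · rw [a.hσ i (not_lt.1 hi), b.hσ i (h ▸ not_lt.1 hi)]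

lemma onB_total {a b : T P} {f : ℕ → ℕ} (ha : OnB a f) (hb : OnB b f) : a ≤ b ∨ b ≤ a := by
  rw [onB_le_iff ha hb, onB_le_iff hb ha]
  rcases lt_trichotomy a.z b.z with h | h | h
  · exact Or.inl (Or.inl h)
  · rcases le_total a.p b.p with h' | h'
    · exact Or.inl (Or.inr ⟨h, h'⟩)
    · exact Or.inr (Or.inr ⟨h.symm, h'⟩)
  · exact Or.inr (Or.inl h)

/-- branch -/
def B (P : I → ℝ) (f : ℕ → ℕ) : Set (T P) := {y | OnB y f}

lemma tree (x : T P) : IsChain (· ≤ ·) {y : T P | y < x} := by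
  intro a ha b hb _
  exact onB_total (onB_of_le (le_of_lt ha)) (onB_of_le (le_of_lt hb))

lemma isChain_B (f : ℕ → ℕ) : IsChain (· ≤ ·) (B P f) := by
  intro a ha b hb _
  exact onB_total ha hb

lemma chain_subset_B {c : Set (T P)} (hc : IsChain (· ≤ ·) c) : ∃ f, c ⊆ B P f := by
  classical
  refine ⟨fun i => if h : ∃ y ∈ c, (i : ℤ) < y.z then (Classical.choose h).σ i else 0, ?_⟩
  intro y hy i hi
  have h : ∃ y ∈ c, (i : ℤ) < y.z := ⟨y, hy, hi⟩
  simp only [dif_pos h]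
  obtain ⟨h1, h2⟩ := Classical.choose_spec h
  rcases hc.total hy h1 with h3 | h3
  · exact onB_of_le h3 i hi
  · exact (onB_of_le h3 i h2).symm

/-- countable union of chains -/
lemma countable_union : ∃ f : ℕ → Set (T P), (∀ n, IsChain (· ≤ ·) (f n)) ∧
    (⋃ n, f n) = Set.univ := by
  obtain ⟨e, he⟩ := exists_surjective_nat (ℤ × List ℕ)
  refine ⟨fun n => {y | y.z = (e n).1 ∧ (List.range y.z.toNat).map y.σ = (e n).2}, ?_, ?_⟩
  · intro n a ha b hb _
    have hz : a.z = b.z := ha.1.trans hb.1.symm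
    have hl : (List.range a.z.toNat).map a.σ = (List.range b.z.toNat).map b.σ :=
      ha.2.trans hb.2.symm
    have hab : OnB a b.σ := by
      intro i hi
      rw [hz] at hl
      have hi' : i < b.z.toNat := by
        rw [Int.lt_toNat]; rw [← hz]; exact hi
      have := List.map_inj_left.1 hl i (List.mem_range.2 hi')
      exact this
    exact onB_total hab (fun i _ => rfl)
  · rw [eq_univ_iff_forall]
    intro y
    obtain ⟨n, hn⟩ := he (y.z, (List.range y.z.toNat).map y.σ)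
    rw [mem_iUnion]
    exact ⟨n, by rw [hn]; exact ⟨rfl, rfl⟩⟩


section family

variable {j : I → ℕ} (hj : ∀ α, P α ∈ Ico (j α : ℝ) (j α + 1))

include hj in
lemma floor_P (α : I) : ⌊P α⌋₊ = j α := by
  rw [Nat.floor_eq_iff ((Nat.cast_nonneg _).trans (hj α).1)]
  exact hj α

/-- elements of level `n + 1` on the branch `f` -/
def mk (f : ℕ → ℕ) (n b : ℕ) (hb : b ≤ f n) (α : I) (hα : ⌊P α⌋₊ = Nat.pair n b) : T P where
  z := n + 1
  σ := fun i => if i ≤ n then f i else 0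
  p := P α
  hp := ⟨α, rfl⟩
  hσ := by
    intro i hi
    rw [if_neg]
    omega
  h0 := by intro h; omega
  h1 := by
    intro _
    rw [hα, Nat.unpair_pair]
    simpa using hb

lemma mk_mem (f : ℕ → ℕ) (n b : ℕ) (hb : b ≤ f n) (α : I) (hα : ⌊P α⌋₊ = Nat.pair n b) :
    mk f n b hb α hα ∈ B P f := by
  intro i hi
  have hi' : (i : ℤ) < n + 1 := hi
  show (if i ≤ n then f i else 0) = f i
  rw [if_pos (by omega)]

variable (hne : ∀ n, ∃ α, j α = n)

include hj hne in
lemma B_subset_imp {f g : ℕ → ℕ} (h : B P f ⊆ B P g) : f = g := by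
  funext n
  obtain ⟨α, hα⟩ := hne (Nat.pair n 0)
  have h1 := h (mk_mem f n 0 (Nat.zero_le _) α (by rw [floor_P hj, hα]))
  have h2 : (if n ≤ n then f n else 0) = g n := h1 n (by show (n : ℤ) < n + 1; omega)
  simpa using h2

include hj hne in
lemma isMaxChain_B (f : ℕ → ℕ) : IsMaxChain (· ≤ ·) (B P f) := by
  refine ⟨isChain_B f, fun c hc hsub => ?_⟩
  obtain ⟨g, hg⟩ := chain_subset_B hc
  have hfg := B_subset_imp hj hne (hsub.trans hg)
  subst hfg
  exact subset_antisymm hsub hg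

lemma eq_B_of_max {c : Set (T P)} (hc : IsMaxChain (· ≤ ·) c) : ∃ f, c = B P f := by
  obtain ⟨g, hg⟩ := chain_subset_B hc.1
  exact ⟨g, hc.2 (isChain_B g) hg⟩

lemma emb {x y : ℕ → ℕ} {N : ℕ} (h : ∀ n, N ≤ n → x n ≤ y n) : Nonempty (B P x ↪o B P y) := by
  classical
  set Q : ℕ := (Finset.range N).sup fun n => (Finset.range (x n + 1)).sup fun b => Nat.pair n b
    with hQ
  have hQ' : ∀ n < N, ∀ b ≤ x n, Nat.pair n b ≤ Q := by
    intro n hn b hb
    have h1 : Nat.pair n b ≤ (Finset.range (x n + 1)).sup fun b => Nat.pair n b :=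
      Finset.le_sup (f := fun b => Nat.pair n b) (Finset.mem_range.2 (by omega))
    exact h1.trans (Finset.le_sup (f := fun n => (Finset.range (x n + 1)).sup
      fun b => Nat.pair n b) (Finset.mem_range.2 hn))
  let lo : (t : B P x) → t.1.z ≤ N → T P := fun t ht =>
    { z := t.1.z - (Q + N)
      σ := fun _ => 0
      p := t.1.p
      hp := t.1.hp
      hσ := fun _ _ => rfl
      h0 := by
        intro _
        by_cases hz : t.1.z ≤ 0
        · have := t.1.h0 hz
          omega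
        · have h1 := t.1.h1 (by omega)
          have h2 : (Nat.unpair ⌊t.1.p⌋₊).2 ≤ x (Nat.unpair ⌊t.1.p⌋₊).1 := by
            rw [← t.2 _ (by omega)]; exact h1.2
          have h3 := hQ' _ (by omega) _ h2
          rw [Nat.pair_unpair] at h3
          omega
      h1 := by intro h; omega }
  let hi : (t : B P x) → ¬ t.1.z ≤ N → T P := fun t ht =>
    { z := t.1.z
      σ := fun i => if (i : ℤ) < t.1.z then y i else 0
      p := t.1.p
      hp := t.1.hp
      hσ := by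
        intro i hi
        rw [if_neg (by omega)]
      h0 := by intro h; omega
      h1 := by
        intro hz
        have h1 := t.1.h1 hz
        refine ⟨h1.1, ?_⟩
        have h2 : (Nat.unpair ⌊t.1.p⌋₊).2 ≤ x (Nat.unpair ⌊t.1.p⌋₊).1 := by
          rw [← t.2 _ (by omega)]; exact h1.2
        rw [if_pos (by omega)]
        exact h2.trans (h _ (by omega)) }
  have hlo : ∀ t ht, lo t ht ∈ B P y := by
    intro t ht i hi
    have : (i : ℤ) < t.1.z - (Q + N) := hi
    omega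
  have hhi : ∀ t ht, hi t ht ∈ B P y := by
    intro t ht i hi
    have hi' : (i : ℤ) < t.1.z := hi
    show (if (i : ℤ) < t.1.z then y i else 0) = y i
    rw [if_pos hi']
  let Φ : B P x → B P y := fun t =>
    if ht : t.1.z ≤ N then ⟨lo t ht, hlo t ht⟩ else ⟨hi t ht, hhi t ht⟩
  have hΦp : ∀ t, (Φ t).1.p = t.1.p := by
    intro t
    by_cases ht : t.1.z ≤ N
    · simp only [Φ, dif_pos ht]; rfl
    · simp only [Φ, dif_neg ht]; rfl
  have hΦz : ∀ t, (Φ t).1.z = if t.1.z ≤ N then t.1.z - (Q + N) else t.1.z := by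
    intro t
    by_cases ht : t.1.z ≤ N
    · simp only [Φ, dif_pos ht, if_pos ht]; rfl
    · simp only [Φ, dif_neg ht, if_neg ht]; rfl
  refine ⟨OrderEmbedding.ofMapLEIff Φ ?_⟩
  intro a b
  have k1 : (Φ a).1.z < (Φ b).1.z ↔ a.1.z < b.1.z := by
    rw [hΦz, hΦz]; split_ifs <;> omega
  have k2 : (Φ a).1.z = (Φ b).1.z ↔ a.1.z = b.1.z := by
    rw [hΦz, hΦz]; split_ifs <;> omega
  rw [← Subtype.coe_le_coe, ← Subtype.coe_le_coe, onB_le_iff (Φ a).2 (Φ b).2, onB_le_iff a.2 b.2,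
    hΦp, hΦp, k1, k2]


variable (hinj : Function.Injective P) (hcard : ∀ n, #(P '' {α | j α = n}) = 𝔠)
  (hkey : ∀ (m n : ℕ), m ≠ n → ∀ (S : Set ℝ) (g : ℝ → ℝ), S ⊆ P '' {α | j α = m} →
      StrictMonoOn g S → MapsTo g S (P '' {α | j α = n}) → #S < 𝔠)

include hj hne hinj hcard hkey in
lemma not_emb {x y : ℕ → ℕ} (h : ∀ N, ∃ n, N ≤ n ∧ y n < x n) : IsEmpty (B P x ↪o B P y) := by
  classical
  refine ⟨fun Φ => ?_⟩
  -- lower element
  obtain ⟨α₀, hα₀⟩ := hne (Nat.pair 0 0)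
  set t₀ : B P x := ⟨_, mk_mem x 0 0 (Nat.zero_le _) α₀ (by rw [floor_P hj, hα₀])⟩ with ht₀
  set zmin := (Φ t₀).1.z with hzmin
  obtain ⟨n, hn1, hn2⟩ := h (max 1 ((-zmin).toNat + 1))
  have hn1' : 1 ≤ n := (le_max_left _ _).trans hn1
  have hn1'' : (-zmin).toNat + 1 ≤ n := (le_max_right _ _).trans hn1
  set i := Nat.pair n (x n) with hi
  have hin : n ≤ i := Nat.left_le_pair n (x n)
  -- upper element
  obtain ⟨α₁, hα₁⟩ := hne (Nat.pair (n + 1) 0)
  set t₁ : B P x := ⟨_, mk_mem x (n + 1) 0 (Nat.zero_le _) α₁ (by rw [floor_P hj, hα₁])⟩ with ht₁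
  set zmax := (Φ t₁).1.z with hzmax
  -- elements of the block
  let t : (α : I) → (hα : j α = i) → B P x := fun α hα =>
    ⟨_, mk_mem x n (x n) le_rfl α (by rw [floor_P hj, hα])⟩
  have ht0 : ∀ α hα, t₀ ≤ t α hα := by
    intro α hα
    rw [← Subtype.coe_le_coe, onB_le_iff t₀.2 (t α hα).2]
    left
    show ((0 : ℕ) : ℤ) + 1 < (n : ℤ) + 1
    omega
  have ht1 : ∀ α hα, t α hα ≤ t₁ := by
    intro α hα
    rw [← Subtype.coe_le_coe, onB_le_iff (t α hα).2 t₁.2]
    left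
    show (n : ℤ) + 1 < ((n + 1 : ℕ) : ℤ) + 1
    push_cast; omega
  have hzb : ∀ α hα, zmin ≤ (Φ (t α hα)).1.z ∧ (Φ (t α hα)).1.z ≤ zmax := by
    intro α hα
    constructor
    · have := Φ.monotone (ht0 α hα)
      rw [← Subtype.coe_le_coe, onB_le_iff (Φ t₀).2 (Φ (t α hα)).2] at this
      rcases this with h1 | h1
      · exact h1.le
      · exact h1.1.le
    · have := Φ.monotone (ht1 α hα)
      rw [← Subtype.coe_le_coe, onB_le_iff (Φ (t α hα)).2 (Φ t₁).2] at this
      rcases this with h1 | h1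
      · exact h1.le
      · exact h1.1.le
  -- floor of the image
  set Q : ℕ := (-zmin).toNat + (Finset.range zmax.toNat).sup fun n =>
    (Finset.range (y n + 1)).sup fun b => Nat.pair n b with hQ
  have hfl : ∀ u : B P y, zmin ≤ u.1.z → u.1.z ≤ zmax → ⌊u.1.p⌋₊ ≤ Q ∧ ⌊u.1.p⌋₊ ≠ i := by
    intro u hu1 hu2
    by_cases hz : u.1.z ≤ 0
    · have h1 := u.1.h0 hz
      constructor
      · have : ⌊u.1.p⌋₊ ≤ (-zmin).toNat := by omega
        omega
      · omega
    · have h1 := u.1.h1 (by omega)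
      have h2 : (Nat.unpair ⌊u.1.p⌋₊).2 ≤ y (Nat.unpair ⌊u.1.p⌋₊).1 := by
        rw [← u.2 _ (by omega)]; exact h1.2
      constructor
      · have h3 : Nat.pair (Nat.unpair ⌊u.1.p⌋₊).1 (Nat.unpair ⌊u.1.p⌋₊).2 ≤
            (Finset.range (y (Nat.unpair ⌊u.1.p⌋₊).1 + 1)).sup
              fun b => Nat.pair (Nat.unpair ⌊u.1.p⌋₊).1 b :=
          Finset.le_sup (f := fun b => Nat.pair (Nat.unpair ⌊u.1.p⌋₊).1 b)
            (Finset.mem_range.2 (by omega))
        have h4 := Finset.le_sup (f := fun n => (Finset.range (y n + 1)).sup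
          fun b => Nat.pair n b) (s := Finset.range zmax.toNat)
            (b := (Nat.unpair ⌊u.1.p⌋₊).1) (Finset.mem_range.2 (by omega))
        rw [Nat.pair_unpair] at h3
        have h5 := h3.trans h4
        omega
      · intro hcon
        rw [hcon, hi, Nat.unpair_pair] at h2
        simp only at h2
        omega
  -- the pieces
  let S : ℤ × ℕ → Set ℝ := fun c =>
    {r | ∃ α, ∃ hα : j α = i, P α = r ∧ (Φ (t α hα)).1.z = c.1 ∧ ⌊(Φ (t α hα)).1.p⌋₊ = c.2}
  have hSsmall : ∀ c : ℤ × ℕ, zmin ≤ c.1 → c.1 ≤ zmax → #(S c) < 𝔠 := by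
    intro c hc1 hc2
    by_cases hemp : S c = ∅
    · rw [hemp]; simp [Cardinal.continuum_pos]
    obtain ⟨r₀, hr₀⟩ := Set.nonempty_iff_ne_empty.2 hemp
    have hci : i ≠ c.2 := by
      obtain ⟨α, hα, _, h2, h3⟩ := hr₀
      have := (hfl (Φ (t α hα)) (by rw [h2]; exact hc1) (by rw [h2]; exact hc2)).2
      rw [h3] at this
      exact this.symm
    let g : ℝ → ℝ := fun r => if hr : ∃ α, ∃ hα : j α = i, P α = r then
      (Φ (t (Classical.choose hr) (Classical.choose (Classical.choose_spec hr)))).1.p else 0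
    have hg : ∀ α (hα : j α = i), g (P α) = (Φ (t α hα)).1.p := by
      intro α hα
      have hr : ∃ β, ∃ hβ : j β = i, P β = P α := ⟨α, hα, rfl⟩
      simp only [g, dif_pos hr]
      have h1 : Classical.choose hr = α :=
        hinj (Classical.choose_spec (Classical.choose_spec hr))
      have h2 : ∀ β (hβ : j β = i), β = α →
          (Φ (t β hβ)).1.p = (Φ (t α hα)).1.p := by
        rintro β hβ rfl; rfl
      exact h2 _ (Classical.choose (Classical.choose_spec hr)) h1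
    refine hkey i c.2 hci (S c) g ?_ ?_ ?_
    · rintro r ⟨α, hα, h1, _⟩
      exact ⟨α, hα, h1⟩
    · rintro _ ⟨α, hα, rfl, h2, h3⟩ _ ⟨β, hβ, rfl, h5, h6⟩ hlt
      rw [hg α hα, hg β hβ]
      have h7 : t α hα < t β hβ := by
        rw [lt_iff_le_not_ge]
        constructor
        · rw [← Subtype.coe_le_coe, onB_le_iff (t α hα).2 (t β hβ).2]
          right
          exact ⟨rfl, hlt.le⟩
        · rw [← Subtype.coe_le_coe, onB_le_iff (t β hβ).2 (t α hα).2]
          rintro (h8 | ⟨_, h8⟩)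
          · exact lt_irrefl _ h8
          · exact absurd hlt (not_lt.2 h8)
      have h8 : Φ (t α hα) < Φ (t β hβ) := Φ.strictMono h7
      rw [lt_iff_le_not_ge, ← Subtype.coe_le_coe, ← Subtype.coe_le_coe,
        onB_le_iff (Φ (t α hα)).2 (Φ (t β hβ)).2, onB_le_iff (Φ (t β hβ)).2 (Φ (t α hα)).2,
        h2, h5] at h8
      rcases h8 with ⟨h9, h10⟩
      by_contra hcon
      rw [not_lt] at hcon
      exact h10 (Or.inr ⟨rfl, hcon⟩)
    · rintro _ ⟨α, hα, rfl, h2, h3⟩
      rw [hg α hα]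
      obtain ⟨β, hβ⟩ := (Φ (t α hα)).1.hp
      refine ⟨β, ?_, hβ⟩
      show j β = c.2
      rw [← h3, ← hβ, floor_P hj]
  -- cover
  have hcover : P '' {α | j α = i} ⊆
      ⋃ c ∈ (Finset.Icc zmin zmax) ×ˢ (Finset.range (Q + 1)), S c := by
    rintro _ ⟨α, hα, rfl⟩
    have hα' : j α = i := hα
    rw [mem_iUnion₂]
    have h1 := hzb α hα'
    have h2 := (hfl (Φ (t α hα')) h1.1 h1.2).1
    refine ⟨((Φ (t α hα')).1.z, ⌊(Φ (t α hα')).1.p⌋₊), ?_, ⟨α, hα', rfl, rfl, rfl⟩⟩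
    rw [Finset.mem_product, Finset.mem_Icc, Finset.mem_range]
    exact ⟨h1, by simp only; omega⟩
  have hsmall : ∀ F : Finset (ℤ × ℕ), (∀ c ∈ F, #(S c) < 𝔠) → #(⋃ c ∈ F, S c : Set ℝ) < 𝔠 := by
    intro F
    induction F using Finset.induction with
    | empty =>
      intro _
      simp [Cardinal.continuum_pos]
    | insert a F _ ih =>
      intro hF
      rw [Finset.set_biUnion_insert]
      refine (mk_union_le _ _).trans_lt ?_
      exact add_lt_of_lt aleph0_le_continuum (hF a (Finset.mem_insert_self a F))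
        (ih (fun c hc => hF c (Finset.mem_insert_of_mem hc)))
  have h1 := mk_le_mk_of_subset hcover
  rw [hcard i] at h1
  refine absurd h1 (not_le.2 (hsmall _ ?_))
  intro c hc
  rw [Finset.mem_product, Finset.mem_Icc] at hc
  exact hSsmall c hc.1.1 hc.1.2

end family


/-- a sequence strictly dominating countably many sequences -/
lemma dominate (e : ℕ → ℕ → ℕ) : ∃ z : ℕ → ℕ, ∀ k n, k ≤ n → e k n < z n := by
  refine ⟨fun n => (∑ k ∈ Finset.range (n + 1), e k n) + 1, fun k n hk => ?_⟩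
  have : e k n ≤ ∑ k ∈ Finset.range (n + 1), e k n :=
    Finset.single_le_sum (f := fun k => e k n) (fun _ _ => Nat.zero_le _)
      (Finset.mem_range.2 (by omega))
  show e k n < (∑ k ∈ Finset.range (n + 1), e k n) + 1
  omega

theorem main :
    ¬ (∀ (T : Type) [PartialOrder T],
      (∀ x : T, IsChain (· ≤ ·) {y : T | y < x}) →
      (∃ f : ℕ → Set T, (∀ n, IsChain (· ≤ ·) (f n)) ∧ (⋃ n, f n) = Set.univ) →
      ∀ S : Set (Set T),
        (∀ c ∈ S, IsMaxChain (· ≤ ·) c) →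
        IsChain (fun c d : Set T => Nonempty (↥c ↪o ↥d)) S →
        (∀ U : Set (Set T), (∀ c ∈ U, IsMaxChain (· ≤ ·) c) →
            IsChain (fun c d : Set T => Nonempty (↥c ↪o ↥d)) U → S ⊆ U → U = S) →
        ∃ D : Set (Set T), D ⊆ S ∧ D.Countable ∧
          ∀ c ∈ S, ∃ d ∈ D, Nonempty (↥c ↪o ↥d)) := by
  classical
  intro H
  obtain ⟨P, j, hinj, hj, hcard, hkey⟩ := exists_family
  have hne : ∀ n, ∃ α, j α = n := by
    intro n
    have h1 : #(P '' {α | j α = n}) ≠ 0 := by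
      rw [hcard n]; exact Cardinal.continuum_ne_zero
    rw [Cardinal.mk_ne_zero_iff] at h1
    obtain ⟨⟨_, α, hα, _⟩⟩ := h1
    exact ⟨α, hα⟩
  have H1 := H (T P) tree countable_union
  -- a maximal family
  obtain ⟨S, hS⟩ := zorn_subset
    {U : Set (Set (T P)) | (∀ c ∈ U, IsMaxChain (· ≤ ·) c) ∧
      IsChain (fun c d : Set (T P) => Nonempty (↥c ↪o ↥d)) U} (by
      intro C hC hchain
      refine ⟨⋃₀ C, ⟨?_, ?_⟩, fun s hs => subset_sUnion_of_mem hs⟩
      · rintro c ⟨U, hU, hc⟩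
        exact (hC hU).1 c hc
      · rintro a ⟨U, hU, ha⟩ b ⟨V, hV, hb⟩ hab
        rcases hchain.total hU hV with h | h
        · exact (hC hV).2 (h ha) hb hab
        · exact (hC hU).2 ha (h hb) hab)
  obtain ⟨D, hDS, hDc, hD⟩ := H1 S hS.prop.1 hS.prop.2 (fun U hU1 hU2 hSU =>
    (hS.eq_of_subset ⟨hU1, hU2⟩ hSU).symm)
  -- branches of D
  have hbr : ∀ c : Set (T P), ∃ f : ℕ → ℕ, c ∈ D → c = B P f := by
    intro c
    by_cases hc : c ∈ D
    · obtain ⟨f, hf⟩ := eq_B_of_max (hS.prop.1 c (hDS hc))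
      exact ⟨f, fun _ => hf⟩
    · exact ⟨0, fun h => absurd h hc⟩
  choose F hF using hbr
  obtain ⟨e, he⟩ := Set.countable_iff_exists_subset_range.1 hDc
  obtain ⟨z, hz⟩ := dominate (fun k => F (e k))
  have hup : ∀ c ∈ S, Nonempty (↥c ↪o ↥(B P z)) := by
    intro c hc
    obtain ⟨d, hd, ⟨Φ⟩⟩ := hD c hc
    obtain ⟨k, hk⟩ := he hd
    have h1 : Nonempty (B P (F d) ↪o B P z) := emb (N := k) (fun n hn => by
      have := hz k n hn
      rw [hk] at this
      exact this.le)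
    rw [← hF d hd] at h1
    obtain ⟨Ψ⟩ := h1
    exact ⟨Φ.trans Ψ⟩
  have hzS : B P z ∈ S := by
    have h1 : insert (B P z) S = S := by
      symm
      apply hS.eq_of_subset
      · constructor
        · intro c hc
          rcases hc with rfl | hc
          · exact isMaxChain_B hj hne z
          · exact hS.prop.1 c hc
        · refine hS.prop.2.insert ?_
          intro b hb _
          right
          exact hup b hb
      · exact subset_insert _ _
    rw [← h1]
    exact mem_insert _ _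
  obtain ⟨d, hd, hdz⟩ := hD _ hzS
  rw [hF d hd] at hdz
  obtain ⟨k, hk⟩ := he hd
  have h2 : IsEmpty (B P z ↪o B P (F d)) := not_emb hj hne hinj hcard hkey (fun N => by
    refine ⟨max N k, le_max_left _ _, ?_⟩
    have := hz k (max N k) (le_max_right _ _)
    rw [hk] at this
    exact this)
  exact h2.false hdz.some


end aux

/-- The negation of the preceding statement: Let T be a tree that is a countable union of chains. Order its maximal chains by order-embeddability. Then every maximal linearly ordered family of such chains has a countable cofinal subfamily: every member embeds into one of countably many members. -/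
theorem result :
    ¬ (∀ (T : Type) [PartialOrder T],
      (∀ x : T, IsChain (· ≤ ·) {y : T | y < x}) →
      (∃ f : ℕ → Set T, (∀ n, IsChain (· ≤ ·) (f n)) ∧ (⋃ n, f n) = Set.univ) →
      ∀ S : Set (Set T),
        (∀ c ∈ S, IsMaxChain (· ≤ ·) c) →
        IsChain (fun c d : Set T => Nonempty (↥c ↪o ↥d)) S →
        (∀ U : Set (Set T), (∀ c ∈ U, IsMaxChain (· ≤ ·) c) →
            IsChain (fun c d : Set T => Nonempty (↥c ↪o ↥d)) U → S ⊆ U → U = S) →
        ∃ D : Set (Set T), D ⊆ S ∧ D.Countable ∧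
          ∀ c ∈ S, ∃ d ∈ D, Nonempty (↥c ↪o ↥d)) := by
  exact main

end Pool.Agent.S09788
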