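import Pool.Statements.S09796
import Pool.Agent.Helper743.LO2

set_option autoImplicit false
open Classical
open Pool Pool.MP_e573df_lc

namespace Pool.Agent.S09796

/-- The negation of the preceding statement: For every computable linear order on ℕ and every relation on it whose image in every computable copy is Δ⁰₂, either all such images are Turing equivalent, or for every m there are m copies whose images are pairwise Turing inequivalent. -/
theorem result :
    ¬ (∀ (ltA : ℕ → ℕ → Prop), IsStrictTotalOrder ℕ ltA →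
    ComputablePred (fun p : ℕ × ℕ => ltA p.1 p.2) →
  ∀ (n : ℕ) (R : List ℕ → Prop), (∀ l, R l → l.length = n) →
  (∀ (ltB : ℕ → ℕ → Prop), IsStrictTotalOrder ℕ ltB →
      ComputablePred (fun p : ℕ × ℕ => ltB p.1 p.2) →
      ∀ (f : ℕ ≃ ℕ), (∀ x y, ltA x y ↔ ltB (f x) (f y)) →
      ∃ g : ℕ → ℕ → Bool, Computable₂ g ∧
        ∀ k : ℕ, ∃ s0 : ℕ, ∀ s : ℕ, s0 ≤ s →
          (g k s = true ↔ ∃ l : List ℕ, Encodable.encode (l.map f) = k ∧ R l)) →
  ((∀ (ltB ltC : ℕ → ℕ → Prop) (f h : ℕ ≃ ℕ),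
      IsStrictTotalOrder ℕ ltB → ComputablePred (fun p : ℕ × ℕ => ltB p.1 p.2) →
      (∀ x y, ltA x y ↔ ltB (f x) (f y)) →
      IsStrictTotalOrder ℕ ltC → ComputablePred (fun p : ℕ × ℕ => ltC p.1 p.2) →
      (∀ x y, ltA x y ↔ ltC (h x) (h y)) →
      TuringEquivalent
        (fun k => Part.some (if ∃ l : List ℕ, Encodable.encode (l.map f) = k ∧ R l then 1 else 0) : ℕ →. ℕ)
        (fun k => Part.some (if ∃ l : List ℕ, Encodable.encode (l.map h) = k ∧ R l then 1 else 0) : ℕ →. ℕ))
   ∨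
   (∀ m : ℕ, ∃ (lt : Fin m → ℕ → ℕ → Prop) (f : Fin m → ℕ ≃ ℕ),
      (∀ i : Fin m, IsStrictTotalOrder ℕ (lt i) ∧
        ComputablePred (fun p : ℕ × ℕ => lt i p.1 p.2) ∧
        (∀ x y, ltA x y ↔ lt i (f i x) (f i y))) ∧
      ∀ i j : Fin m, i ≠ j →
        ¬ TuringEquivalent
          (fun k => Part.some (if ∃ l : List ℕ, Encodable.encode (l.map (f i)) = k ∧ R l then 1 else 0) : ℕ →. ℕ)
          (fun k => Part.some (if ∃ l : List ℕ, Encodable.encode (l.map (f j)) = k ∧ R l then 1 else 0) : ℕ →. ℕ)))) := by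
  intro hmain
  obtain ⟨G, hG, hcopy, hid, hkf⟩ := Pool.Agent.Helper743.LO.summary
  have hlt0 : ComputablePred (fun p : ℕ × ℕ => p.1 < p.2) := by
    have h : PrimrecPred (fun p : ℕ × ℕ => p.1 < p.2) :=
      Primrec.nat_lt.comp Primrec.fst Primrec.snd
    exact h.computablePred
  have hres := hmain (fun x y => x < y) inferInstance hlt0 2 (Pool.Agent.Helper743.LO.RR G)
    (by rintro l ⟨x, y, rfl, _⟩; rfl)
    (by
      intro lt _ hlt f hiso
      obtain ⟨h1, _⟩ := hcopy lt hlt f hiso
      obtain ⟨g, hg, hlim⟩ := Pool.Agent.Helper743.LimC.of_TR_K h1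
      refine ⟨fun k s => decide (g k s = 1), ?_, ?_⟩
      · have h2 : PrimrecPred (fun n : ℕ => n = 1) :=
          Primrec.eq.comp Primrec.id (Primrec.const 1)
        have h3 : Computable (fun n : ℕ => decide (n = 1)) := h2.decide.to_comp
        exact (h3.comp hg).of_eq (fun q => rfl)
      · intro k
        obtain ⟨s0, hs0⟩ := hlim k
        refine ⟨s0, fun s hs => ?_⟩
        rw [decide_eq_true_iff, hs0 s hs]
        unfold Pool.Agent.Helper743.LO.im
        by_cases h4 : ∃ l : List ℕ, Encodable.encode (l.map f) = k ∧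
            Pool.Agent.Helper743.LO.RR G l
        · rw [if_pos h4]; exact iff_of_true rfl h4
        · rw [if_neg h4]; exact iff_of_false (by omega) h4)
  have hto : ∀ f h : ℕ ≃ ℕ, TuringEquivalent
        (fun k => Part.some (if ∃ l : List ℕ, Encodable.encode (l.map f) = k ∧
          Pool.Agent.Helper743.LO.RR G l then 1 else 0) : ℕ →. ℕ)
        (fun k => Part.some (if ∃ l : List ℕ, Encodable.encode (l.map h) = k ∧
          Pool.Agent.Helper743.LO.RR G l then 1 else 0) : ℕ →. ℕ) ↔
      (Pool.Agent.Helper743.TR (Pool.Agent.Helper743.LO.im G f) (Pool.Agent.Helper743.LO.im G h) ∧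
       Pool.Agent.Helper743.TR (Pool.Agent.Helper743.LO.im G h)
         (Pool.Agent.Helper743.LO.im G f)) := by
    intro f h
    rw [Pool.Agent.Helper743.TR_iff, Pool.Agent.Helper743.TR_iff]
    exact Iff.rfl
  rcases hres with hall | hinf
  · have h1 := hall (fun x y => x < y)
      (fun x y => Pool.Agent.Helper743.LO.key x < Pool.Agent.Helper743.LO.key y)
      (Equiv.refl ℕ) Pool.Agent.Helper743.LO.kf inferInstance hlt0 (fun x y => Iff.rfl) ?_
      Pool.Agent.Helper743.LO.key_lt_computable (fun x y => Pool.Agent.Helper743.LO.kf_iso x y)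
    · rw [hto] at h1
      exact hG (hkf.trans (h1.2.trans hid))
    · exact
        { trichotomous := fun a b h1 h2 => Pool.Agent.Helper743.LO.key_inj (by omega)
          irrefl := fun a => lt_irrefl _
          trans := fun a b c h1 h2 => lt_trans h1 h2 }
  · obtain ⟨lt, f, h1, h2⟩ := hinf 3
    have h3 : ∀ i : Fin 3, _ := fun i =>
      (hcopy (lt i) (h1 i).2.1 (f i) (h1 i).2.2).2
    have key : ∀ i j : Fin 3, i ≠ j →
        ¬ (Pool.Agent.Helper743.TR (Pool.Agent.Helper743.LO.im G (f i))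
            (Pool.Agent.Helper743.LO.im G (f j)) ∧
          Pool.Agent.Helper743.TR (Pool.Agent.Helper743.LO.im G (f j))
            (Pool.Agent.Helper743.LO.im G (f i))) := by
      intro i j hij h
      exact h2 i j hij ((hto (f i) (f j)).2 h)
    rcases h3 0 with a | a <;> rcases h3 1 with b | b <;> rcases h3 2 with c | c
    · exact key 0 1 (by decide) ⟨a.1.trans b.2, b.1.trans a.2⟩
    · exact key 0 1 (by decide) ⟨a.1.trans b.2, b.1.trans a.2⟩
    · exact key 0 2 (by decide) ⟨a.1.trans c.2, c.1.trans a.2⟩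
    · exact key 1 2 (by decide) ⟨b.1.trans c.2, c.1.trans b.2⟩
    · exact key 1 2 (by decide) ⟨b.1.trans c.2, c.1.trans b.2⟩
    · exact key 0 2 (by decide) ⟨a.1.trans c.2, c.1.trans a.2⟩
    · exact key 0 1 (by decide) ⟨a.1.trans b.2, b.1.trans a.2⟩
    · exact key 0 1 (by decide) ⟨a.1.trans b.2, b.1.trans a.2⟩

end Pool.Agent.S09796
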