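import Pool.Statements.S09797
import Mathlib

set_option autoImplicit false

/-!
# A computable linear order of type `ζ^ω·η` without arithmetical subsets of type `η`

Outline.  Oracles are replaced by iterated limits.  `X gc kf u L` is one guarded primitive recursion
(stage `u`, list of bounds `L` of length `2n` for level `n`).  A step of the recursion is a
stack-of-guesses construction which, given guesses for the order `M_{n+1}` of level `n+1`, produces an
order `M_n = ζ·M_{n+1}` (with the first element kept as least element).  The first `k_n` elements of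
`M_n` are special and are mapped to themselves, all other elements are mapped to smaller numbers, so
the direct limit of the tower is the order `K = ⋃ K_n` of the special elements.  `k_n` grows as long
as the arithmetical statements (the `j`-th arithmetical set is a dense suborder of the order with
index `e`), `j < n-1`, are all false; `e` is chosen by the recursion theorem.  If one of these
statements were true, `K` would be finite and the whole order scattered, a contradiction; hence
`K = 1 + η`, and doubling gives an order of type `ζ^ω·η`.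
-/

/-! ## Part Codes -/

section
namespace Pool.Agent.Helper748.ZO

/-- A code `c : ℕ → Option ℕ` describes a linear order on `ℕ` by successive insertions: the number
`m` is inserted immediately before `r` when `c m = some r`, and at the end when `c m = none`. -/
def ltb (c : ℕ → Option ℕ) (x y : ℕ) : Bool :=
  if x < y then
    match c y with
    | none => true
    | some r => if r < y then ltb c x r else false
  else if y < x then
    match c x with
    | none => false
    | some r => if r < x then (decide (r = y) || ltb c r y) else false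
  else false
termination_by x + y

/-- valid codes below `n` -/
def Valid (c : ℕ → Option ℕ) (n : ℕ) : Prop :=
  ∀ m < n, ∀ r, c m = some r → 1 ≤ r ∧ r < m

theorem ltb_self (c : ℕ → Option ℕ) (x : ℕ) : ltb c x x = false := by
  rw [ltb]; simp

theorem ltb_none {c : ℕ → Option ℕ} {x y : ℕ} (h : x < y) (hc : c y = none) :
    ltb c x y = true := by
  rw [ltb]; simp [h, hc]

theorem ltb_some {c : ℕ → Option ℕ} {x y r : ℕ} (h : x < y) (hc : c y = some r) (hr : r < y) :
    ltb c x y = ltb c x r := by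
  rw [ltb]; simp [h, hc, hr]

theorem ltb_none' {c : ℕ → Option ℕ} {x y : ℕ} (h : y < x) (hc : c x = none) :
    ltb c x y = false := by
  rw [ltb]; simp [h.not_gt, h, hc]

theorem ltb_some' {c : ℕ → Option ℕ} {x y r : ℕ} (h : y < x) (hc : c x = some r) (hr : r < x) :
    ltb c x y = (decide (r = y) || ltb c r y) := by
  rw [ltb]; simp [h.not_gt, h, hc, hr]

theorem Valid.mono {c : ℕ → Option ℕ} {n m : ℕ} (h : Valid c n) (hm : m ≤ n) : Valid c m :=
  fun i hi r hr => h i (hi.trans_le hm) r hr

/-- comparison only depends on the code below a bound -/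
theorem ltb_congr {c c' : ℕ → Option ℕ} {n : ℕ} (h : ∀ i < n, c i = c' i) :
    ∀ s x y, x + y = s → x < n → y < n → ltb c x y = ltb c' x y := by
  intro s
  induction s using Nat.strong_induction_on with
  | _ s ih =>
    intro x y hs hx hy
    rw [ltb, ltb, h x hx, h y hy]
    split_ifs with h1 h2
    · cases hc : c' y with
      | none => simp
      | some r =>
        simp only
        split_ifs with h3
        · exact ih (x + r) (by omega) x r rfl hx (by omega)
        · rfl
    · cases hc : c' x with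
      | none => simp
      | some r =>
        simp only
        split_ifs with h3
        · rw [ih (r + y) (by omega) r y rfl (by omega) hy]
        · rfl
    · rfl

theorem ltb_total {c : ℕ → Option ℕ} {n : ℕ} (hv : Valid c n) :
    ∀ s x y, x + y = s → x < n → y < n → x ≠ y → ltb c x y = !ltb c y x := by
  intro s
  induction s using Nat.strong_induction_on with
  | _ s ih =>
    intro x y hs hx hy hxy
    rcases lt_or_gt_of_ne hxy with h | h
    · cases hc : c y with
      | none => rw [ltb_none h hc, ltb_none' h hc]; rfl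
      | some r =>
        have hr := (hv y hy r hc).2
        rw [ltb_some h hc hr, ltb_some' h hc hr]
        by_cases hrx : r = x
        · subst hrx; simp [ltb_self]
        · have := ih (x + r) (by omega) x r rfl hx (by omega) (Ne.symm hrx)
          simp [hrx, this]
    · cases hc : c x with
      | none => rw [ltb_none h hc, ltb_none' h hc]; rfl
      | some r =>
        have hr := (hv x hx r hc).2
        rw [ltb_some h hc hr, ltb_some' h hc hr]
        by_cases hrx : r = y
        · subst hrx; simp [ltb_self]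
        · have := ih (r + y) (by omega) r y rfl (by omega) hy hrx
          simp [hrx, this]

theorem ltb_asymm {c : ℕ → Option ℕ} {n : ℕ} (hv : Valid c n) {x y : ℕ} (hx : x < n) (hy : y < n)
    (h : ltb c x y = true) : ltb c y x = false := by
  by_cases hxy : x = y
  · subst hxy; simp [ltb_self] at h
  · have := ltb_total hv _ y x rfl hy hx (Ne.symm hxy)
    rw [this, h]; rfl

theorem ltb_trans {c : ℕ → Option ℕ} {n : ℕ} (hv : Valid c n) :
    ∀ s x y z, x + y + z = s → x < n → y < n → z < n →
      ltb c x y = true → ltb c y z = true → ltb c x z = true := by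
  intro s
  induction s using Nat.strong_induction_on with
  | _ s ih =>
    intro x y z hs hx hy hz hxy hyz
    have hne1 : x ≠ y := by rintro rfl; simp [ltb_self] at hxy
    have hne2 : y ≠ z := by rintro rfl; simp [ltb_self] at hyz
    have hne3 : x ≠ z := by
      rintro rfl
      rw [ltb_asymm hv hx hy hxy] at hyz; exact absurd hyz (by simp)
    rcases lt_or_gt_of_ne hne3 with h3 | h3
    · -- x < z numerically
      rcases lt_or_gt_of_ne hne2 with h2 | h2
      · -- z is max
        cases hc : c z with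
        | none => exact ltb_none h3 hc
        | some r =>
          have hr := (hv z hz r hc).2
          rw [ltb_some h3 hc hr]
          rw [ltb_some h2 hc hr] at hyz
          exact ih (x + y + r) (by omega) x y r rfl hx hy (by omega) hxy hyz
      · -- y > z > x : y is max
        have h1 : x < y := by omega
        cases hc : c y with
        | none => rw [ltb_none' h2 hc] at hyz; exact absurd hyz (by simp)
        | some r =>
          have hr := (hv y hy r hc).2
          rw [ltb_some h1 hc hr] at hxy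
          rw [ltb_some' h2 hc hr] at hyz
          by_cases hrz : r = z
          · subst hrz; exact hxy
          · simp only [hrz, decide_false, Bool.false_or] at hyz
            exact ih (x + r + z) (by omega) x r z rfl hx (by omega) hz hxy hyz
    · -- z < x
      rcases lt_or_gt_of_ne hne1 with h1 | h1
      · -- y is max
        have h2 : z < y := by omega
        cases hc : c y with
        | none => rw [ltb_none' h2 hc] at hyz; exact absurd hyz (by simp)
        | some r =>
          have hr := (hv y hy r hc).2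
          rw [ltb_some h1 hc hr] at hxy
          rw [ltb_some' h2 hc hr] at hyz
          by_cases hrz : r = z
          · subst hrz; exact hxy
          · simp only [hrz, decide_false, Bool.false_or] at hyz
            exact ih (x + r + z) (by omega) x r z rfl hx (by omega) hz hxy hyz
      · -- x is max
        cases hc : c x with
        | none => rw [ltb_none' h1 hc] at hxy; exact absurd hxy (by simp)
        | some r =>
          have hr := (hv x hx r hc).2
          rw [ltb_some' h1 hc hr] at hxy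
          rw [ltb_some' h3 hc hr]
          by_cases hry : r = y
          · subst hry; simp [hyz]
          · simp only [hry, decide_false, Bool.false_or] at hxy
            have := ih (r + y + z) (by omega) r y z rfl (by omega) hy hz hxy hyz
            simp [this]

theorem ltb_zero {c : ℕ → Option ℕ} {n : ℕ} (hv : Valid c n) :
    ∀ x, x < n → x ≠ 0 → ltb c 0 x = true := by
  intro x
  induction x using Nat.strong_induction_on with
  | _ x ih =>
    intro hx h0
    cases hc : c x with
    | none => exact ltb_none (by omega) hc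
    | some r =>
      have hr := hv x hx r hc
      rw [ltb_some (by omega) hc hr.2]
      exact ih r hr.2 (by omega) (by omega)

/-! ### Prop versions for globally valid codes -/

/-- globally valid codes -/
def VC (c : ℕ → Option ℕ) : Prop := ∀ m r, c m = some r → 1 ≤ r ∧ r < m

theorem VC.valid {c : ℕ → Option ℕ} (h : VC c) (n : ℕ) : Valid c n := fun m _ r hr => h m r hr

/-- strict order of a code -/
def Lt (c : ℕ → Option ℕ) (x y : ℕ) : Prop := ltb c x y = true

theorem Lt.irrefl (c : ℕ → Option ℕ) (x : ℕ) : ¬ Lt c x x := by simp [Lt, ltb_self]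

theorem Lt.trans {c : ℕ → Option ℕ} (hv : VC c) {x y z : ℕ} (h : Lt c x y) (h' : Lt c y z) :
    Lt c x z :=
  ltb_trans (hv.valid (x + y + z + 1)) _ x y z rfl (by omega) (by omega) (by omega) h h'

theorem Lt.asymm {c : ℕ → Option ℕ} (hv : VC c) {x y : ℕ} (h : Lt c x y) : ¬ Lt c y x := by
  intro h'
  exact Lt.irrefl c x (h.trans hv h')

theorem Lt.total {c : ℕ → Option ℕ} (hv : VC c) {x y : ℕ} (h : x ≠ y) : Lt c x y ∨ Lt c y x := by
  have := ltb_total (hv.valid (x + y + 1)) _ x y rfl (by omega) (by omega) h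
  unfold Lt
  rw [this]
  cases ltb c y x <;> simp

theorem Lt.ne {c : ℕ → Option ℕ} {x y : ℕ} (h : Lt c x y) : x ≠ y := by
  rintro rfl; exact Lt.irrefl c x h

theorem Lt.zero {c : ℕ → Option ℕ} (hv : VC c) {x : ℕ} (h : x ≠ 0) : Lt c 0 x :=
  ltb_zero (hv.valid (x + 1)) x (by omega) h

theorem Lt.not_zero {c : ℕ → Option ℕ} (hv : VC c) (x : ℕ) : ¬ Lt c x 0 := by
  intro h
  by_cases h0 : x = 0
  · subst h0; exact Lt.irrefl c 0 h
  · exact Lt.asymm hv h (Lt.zero hv h0)

/-- `N` inserted at the end -/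
theorem Lt.ins_none {c : ℕ → Option ℕ} {x N : ℕ} (h : x < N) (hc : c N = none) : Lt c x N :=
  ltb_none h hc

theorem Lt.ins_some_iff {c : ℕ → Option ℕ} {x N r : ℕ} (h : x < N) (hc : c N = some r)
    (hr : r < N) : Lt c x N ↔ Lt c x r := by
  unfold Lt; rw [ltb_some h hc hr]

theorem Lt.ins_some_iff' {c : ℕ → Option ℕ} {x N r : ℕ} (h : x < N) (hc : c N = some r)
    (hr : r < N) : Lt c N x ↔ (r = x ∨ Lt c r x) := by
  unfold Lt; rw [ltb_some' h hc hr]; simp

theorem Lt.ins_none' {c : ℕ → Option ℕ} {x N : ℕ} (h : x < N) (hc : c N = none) : ¬ Lt c N x := by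
  unfold Lt; rw [ltb_none' h hc]; simp

theorem Lt.congr {c c' : ℕ → Option ℕ} {n x y : ℕ} (h : ∀ i < n, c i = c' i) (hx : x < n)
    (hy : y < n) : Lt c x y ↔ Lt c' x y := by
  unfold Lt; rw [ltb_congr h _ x y rfl hx hy]

theorem Lt.not_iff {c : ℕ → Option ℕ} (hv : VC c) {x y : ℕ} : ¬ Lt c x y ↔ (x = y ∨ Lt c y x) := by
  constructor
  · intro h
    by_cases hxy : x = y
    · exact Or.inl hxy
    · rcases Lt.total hv hxy with h' | h'
      · exact absurd h' h
      · exact Or.inr h'
  · rintro (rfl | h)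
    · exact Lt.irrefl c x
    · exact Lt.asymm hv h

end Pool.Agent.Helper748.ZO

end

/-! ## Part Abs -/

section
namespace Pool.Agent.Helper748.ZO

/-- abstract state: number of labels, order code of the labels, cut points -/
structure AS where
  cnt : ℕ
  g : ℕ → Option ℕ
  b : ℕ → ℕ

/-- bookkeeping invariant (does not mention the order being built) -/
structure BI (k N : ℕ) (s : AS) : Prop where
  hk : 1 ≤ k
  hkc : k ≤ s.cnt
  hv : Valid s.g s.cnt
  hb0 : s.b 0 = 0
  hbN : ∀ i < s.cnt, s.b i < N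
  hb1 : ∀ i < s.cnt, 1 ≤ i → 1 ≤ s.b i

/-- order invariant -/
def OI (c : ℕ → Option ℕ) (s : AS) : Prop :=
  ∀ i < s.cnt, ∀ j < s.cnt, (Lt s.g i j ↔ Lt c (s.b i) (s.b j))

theorem lab_total {s : AS} (hv : Valid s.g s.cnt) {i j : ℕ} (hi : i < s.cnt) (hj : j < s.cnt)
    (h : i ≠ j) : Lt s.g i j ∨ Lt s.g j i := by
  have := ltb_total hv _ i j rfl hi hj h
  unfold Lt
  rw [this]
  cases ltb s.g j i <;> simp

theorem lab_trans {s : AS} (hv : Valid s.g s.cnt) {i j l : ℕ} (hi : i < s.cnt) (hj : j < s.cnt)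
    (hl : l < s.cnt) (h : Lt s.g i j) (h' : Lt s.g j l) : Lt s.g i l :=
  ltb_trans hv _ i j l rfl hi hj hl h h'

theorem lab_asymm {s : AS} (hv : Valid s.g s.cnt) {i j : ℕ} (hi : i < s.cnt) (hj : j < s.cnt)
    (h : Lt s.g i j) : ¬ Lt s.g j i := by
  have := ltb_asymm hv hi hj h
  simp [Lt, this]

theorem OI.inj {c : ℕ → Option ℕ} {s : AS} (h : OI c s) (hv : Valid s.g s.cnt) {i j : ℕ}
    (hi : i < s.cnt) (hj : j < s.cnt) (hb : s.b i = s.b j) : i = j := by
  by_contra hne
  rcases lab_total hv hi hj hne with h1 | h1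
  · have := (h i hi j hj).1 h1
    rw [hb] at this; exact Lt.irrefl _ _ this
  · have := (h j hj i hi).1 h1
    rw [hb] at this; exact Lt.irrefl _ _ this

/-- region of the label `i` -/
def Reg (c : ℕ → Option ℕ) (s : AS) (z i : ℕ) : Prop :=
  i < s.cnt ∧ ¬ Lt c z (s.b i) ∧ ∀ i' < s.cnt, Lt s.g i i' → Lt c z (s.b i')

theorem Reg.unique {c : ℕ → Option ℕ} {s : AS} (hv : Valid s.g s.cnt) {z i i' : ℕ}
    (h : Reg c s z i) (h' : Reg c s z i') : i = i' := by
  by_contra hne
  rcases lab_total hv h.1 h'.1 hne with h1 | h1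
  · exact h'.2.1 (h.2.2 i' h'.1 h1)
  · exact h.2.1 (h'.2.2 i h.1 h1)

theorem Reg.exists {c : ℕ → Option ℕ} {s : AS} (hc : VC c) {k N : ℕ} (hB : BI k N s) (z : ℕ) :
    ∃ i, Reg c s z i := by
  classical
  let A : Finset ℕ := (Finset.range s.cnt).filter (fun i => ¬ Lt c z (s.b i))
  have hA : A.Nonempty := by
    refine ⟨0, ?_⟩
    simp only [A, Finset.mem_filter, Finset.mem_range]
    refine ⟨by have := hB.hk; have := hB.hkc; omega, ?_⟩
    rw [hB.hb0]; exact Lt.not_zero hc z
  obtain ⟨i, hiA, himax⟩ := A.exists_max_image (fun i => (A.filter (fun i' => Lt s.g i' i)).card) hA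
  have hi := Finset.mem_filter.1 hiA
  refine ⟨i, Finset.mem_range.1 hi.1, hi.2, ?_⟩
  intro i' hi' hlt
  by_contra hcon
  have hi'A : i' ∈ A := Finset.mem_filter.2 ⟨Finset.mem_range.2 hi', hcon⟩
  have h1 := himax i' hi'A
  have hsub : (A.filter (fun i'' => Lt s.g i'' i)) ⊂ (A.filter (fun i'' => Lt s.g i'' i')) := by
    rw [Finset.ssubset_iff_of_subset]
    · refine ⟨i, Finset.mem_filter.2 ⟨hiA, hlt⟩, ?_⟩
      intro hh
      exact Lt.irrefl _ _ (Finset.mem_filter.1 hh).2
    · intro x hx
      have hx' := Finset.mem_filter.1 hx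
      refine Finset.mem_filter.2 ⟨hx'.1, ?_⟩
      exact lab_trans hB.hv (Finset.mem_range.1 (Finset.mem_filter.1 hx'.1).1)
        (Finset.mem_range.1 hi.1) hi' hx'.2 hlt
  have := Finset.card_lt_card hsub
  omega

theorem Reg.mono {c : ℕ → Option ℕ} {s : AS} (hc : VC c) (hv : Valid s.g s.cnt) {z z' i i' : ℕ}
    (hz : Lt c z z') (h : Reg c s z i) (h' : Reg c s z' i') : i = i' ∨ Lt s.g i i' := by
  by_cases hne : i = i'
  · exact Or.inl hne
  · rcases lab_total hv h.1 h'.1 hne with h1 | h1
    · exact Or.inr h1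
    · exact absurd (hz.trans hc (h'.2.2 i h.1 h1)) h.2.1

/-- truncation of the set of labels -/
def AS.tr (s : AS) (m : ℕ) : AS := ⟨m, s.g, s.b⟩

theorem BI.tr {k N m : ℕ} {s : AS} (h : BI k N s) (hk : k ≤ m) (hm : m ≤ s.cnt) :
    BI k N (s.tr m) :=
  ⟨h.hk, hk, h.hv.mono hm, h.hb0, fun i hi => h.hbN i (lt_of_lt_of_le hi hm),
    fun i hi h1 => h.hb1 i (lt_of_lt_of_le hi hm) h1⟩

theorem OI.tr {c : ℕ → Option ℕ} {m : ℕ} {s : AS} (h : OI c s) (hm : m ≤ s.cnt) :
    OI c (s.tr m) :=
  fun i hi j hj => h i (lt_of_lt_of_le hi hm) j (lt_of_lt_of_le hj hm)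

theorem Reg.tr {c : ℕ → Option ℕ} {m : ℕ} {s : AS} {z i : ℕ} (h : Reg c s z i) (hi : i < m)
    (hm : m ≤ s.cnt) : Reg c (s.tr m) z i :=
  ⟨hi, h.2.1, fun i' hi' hl => h.2.2 i' (lt_of_lt_of_le hi' hm) hl⟩

/-- right neighbour of the label `i` among the labels `< m` -/
def rn (g : ℕ → Option ℕ) (m i : ℕ) : Option ℕ :=
  (List.range m).foldl (fun cur l => if i < l ∧ g l = cur then some l else cur) (g i)

theorem rn_succ (g : ℕ → Option ℕ) (m i : ℕ) :
    rn g (m + 1) i = if i < m ∧ g m = rn g m i then some m else rn g m i := by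
  unfold rn
  rw [List.range_succ, List.foldl_append]
  rfl

theorem rn_le (g : ℕ → Option ℕ) (i : ℕ) : ∀ m ≤ i + 1, rn g m i = g i := by
  intro m
  induction m with
  | zero => intro _; rfl
  | succ m ih =>
    intro hm
    rw [rn_succ, ih (by omega)]
    have : ¬ (i < m) := by omega
    simp [this]

/-- specification of the right neighbour -/
theorem rn_spec {g : ℕ → Option ℕ} (i : ℕ) : ∀ m, i < m → Valid g m →
    (rn g m i = none → ∀ x < m, ¬ Lt g i x) ∧
    (∀ r, rn g m i = some r → 1 ≤ r ∧ r < m ∧ Lt g i r ∧ ∀ x < m, Lt g i x → (r = x ∨ Lt g r x)) := by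
  intro m
  induction m with
  | zero => intro h; omega
  | succ m ih =>
    intro hm hv
    by_cases him : i = m
    · subst him
      rw [rn_le g i _ le_rfl]
      refine ⟨?_, ?_⟩
      · intro h x hx hlt
        have hxi : x ≠ i := fun h => by subst h; exact Lt.irrefl _ _ hlt
        exact Lt.ins_none' (by omega) h hlt
      · intro r hr
        have h1 := hv i (by omega) r hr
        refine ⟨h1.1, by omega, ?_, ?_⟩
        · exact (Lt.ins_some_iff' h1.2 hr h1.2).2 (Or.inl rfl)
        · intro x hx hlt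
          have hxi : x ≠ i := fun h => by subst h; exact Lt.irrefl _ _ hlt
          exact (Lt.ins_some_iff' (by omega) hr h1.2).1 hlt
    · have him' : i < m := by omega
      obtain ⟨ih1, ih2⟩ := ih him' (hv.mono (Nat.le_succ m))
      rw [rn_succ]
      by_cases hc : g m = rn g m i
      · simp only [him', hc, and_self, if_true]
        refine ⟨by intro h; exact absurd h (by simp), ?_⟩
        intro r hr
        have hr : m = r := by simpa using hr
        subst hr
        refine ⟨by omega, by omega, ?_, ?_⟩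
        · cases hn : rn g m i with
          | none => exact Lt.ins_none him' (by rw [hc, hn])
          | some r =>
            have h2 := ih2 r hn
            exact (Lt.ins_some_iff him' (by rw [hc, hn]) h2.2.1).2 h2.2.2.1
        · intro x hx hlt
          by_cases hxm : x = m
          · exact Or.inl hxm.symm
          · have hx' : x < m := by omega
            refine Or.inr ?_
            cases hn : rn g m i with
            | none => exact absurd hlt (ih1 hn x hx')
            | some r =>
              have h2 := ih2 r hn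
              exact (Lt.ins_some_iff' hx' (by rw [hc, hn]) h2.2.1).2 (h2.2.2.2 x hx' hlt)
      · have : ¬ (i < m ∧ g m = rn g m i) := fun h => hc h.2
        rw [if_neg this]
        refine ⟨?_, ?_⟩
        · intro hn x hx hlt
          by_cases hxm : x = m
          · subst hxm
            cases hg : g x with
            | none => rw [hg, hn] at hc; exact hc rfl
            | some r =>
              have hr := hv x (by omega) r hg
              rw [Lt.ins_some_iff him' hg hr.2] at hlt
              exact ih1 hn r hr.2 hlt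
          · exact ih1 hn x (by omega) hlt
        · intro r hr
          obtain ⟨h1, h2, h3, h4⟩ := ih2 r hr
          refine ⟨h1, by omega, h3, ?_⟩
          intro x hx hlt
          by_cases hxm : x = m
          · subst hxm
            refine Or.inr ?_
            cases hg : g x with
            | none => exact Lt.ins_none h2 hg
            | some r' =>
              have hr' := hv x (by omega) r' hg
              rw [Lt.ins_some_iff him' hg hr'.2] at hlt
              rw [Lt.ins_some_iff h2 hg hr'.2]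
              rcases h4 r' hr'.2 hlt with h5 | h5
              · exact absurd (by rw [hg, hr, h5]) hc
              · exact h5
          · exact h4 x (by omega) hlt

end Pool.Agent.Helper748.ZO

end

/-! ## Part Ops -/

section
namespace Pool.Agent.Helper748.ZO

/-- The element `N` is inserted just before the cut of label `r` (or at the end). -/
def InsAt (c : ℕ → Option ℕ) (N : ℕ) (s : AS) (r : Option ℕ) : Prop := c N = r.map s.b

/-- one elementary operation (on a state `s` with exactly the labels `< s.cnt`) -/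
inductive Op (c : ℕ → Option ℕ) (N : ℕ) (s : AS) (s' : AS) : Prop
  | new (r : Option ℕ) (hr : ∀ r', r = some r' → 1 ≤ r' ∧ r' < s.cnt) (hc : c N = r.map s.b)
      (hcnt : s'.cnt = s.cnt + 1) (hg : ∀ i < s.cnt, s'.g i = s.g i) (hgm : s'.g s.cnt = r)
      (hb : ∀ i < s.cnt, s'.b i = s.b i) (hbm : s'.b s.cnt = N)
  | lft (i0 : ℕ) (h1 : 1 ≤ i0) (hi0 : i0 < s.cnt) (hc : c N = some (s.b i0))
      (hcnt : s'.cnt = s.cnt) (hg : ∀ i < s.cnt, s'.g i = s.g i)
      (hb : ∀ i < s.cnt, i ≠ i0 → s'.b i = s.b i) (hbm : s'.b i0 = N)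
  | rgt (i0 : ℕ) (hi0 : i0 < s.cnt) (hc : c N = (rn s.g s.cnt i0).map s.b)
      (hcnt : s'.cnt = s.cnt) (hg : ∀ i < s.cnt, s'.g i = s.g i)
      (hb : ∀ i < s.cnt, s'.b i = s.b i)

theorem Op.cnt_le {c : ℕ → Option ℕ} {N : ℕ} {s s' : AS} (h : Op c N s s') :
    s.cnt ≤ s'.cnt ∧ s'.cnt ≤ s.cnt + 1 := by
  cases h with
  | new r hr hc hcnt hg hgm hb hbm => omega
  | lft i0 h1 hi0 hc hcnt hg hb hbm => omega
  | rgt i0 hi0 hc hcnt hg hb => omega

theorem Op.g_eq {c : ℕ → Option ℕ} {N : ℕ} {s s' : AS} (h : Op c N s s') :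
    ∀ i < s.cnt, s'.g i = s.g i := by
  cases h with
  | new r hr hc hcnt hg hgm hb hbm => exact hg
  | lft i0 h1 hi0 hc hcnt hg hb hbm => exact hg
  | rgt i0 hi0 hc hcnt hg hb => exact hg

theorem Op.lt_iff {c : ℕ → Option ℕ} {N : ℕ} {s s' : AS} (h : Op c N s s') {i j : ℕ}
    (hi : i < s.cnt) (hj : j < s.cnt) : Lt s'.g i j ↔ Lt s.g i j :=
  Lt.congr h.g_eq hi hj

/-- bookkeeping invariant is preserved; the new code value is valid -/
theorem Op.bi {c : ℕ → Option ℕ} {k N : ℕ} {s s' : AS} (h : Op c N s s') (hB : BI k N s) :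
    BI k (N + 1) s' := by
  have hk := hB.hk
  have hkc := hB.hkc
  have h0 : 0 < s.cnt := by omega
  have hN : 0 < N := by have := hB.hbN 0 h0; omega
  cases h with
  | new r hr hc hcnt hg hgm hb hbm =>
    refine ⟨hk, by omega, ?_, ?_, ?_, ?_⟩
    · intro m hm r' hr'
      rw [hcnt] at hm
      by_cases hmc : m = s.cnt
      · subst hmc
        rw [hgm] at hr'; exact hr r' hr'
      · have : m < s.cnt := by omega
        rw [hg m this] at hr'
        exact hB.hv m this r' hr'
    · rw [hb 0 h0]; exact hB.hb0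
    · intro i hi
      by_cases hmc : i = s.cnt
      · subst hmc; rw [hbm]; omega
      · have : i < s.cnt := by omega
        rw [hb i this]; have := hB.hbN i this; omega
    · intro i hi h1
      by_cases hmc : i = s.cnt
      · subst hmc; rw [hbm]; omega
      · have : i < s.cnt := by omega
        rw [hb i this]; exact hB.hb1 i this h1
  | lft i0 h1 hi0 hc hcnt hg hb hbm =>
    refine ⟨hk, by omega, ?_, ?_, ?_, ?_⟩
    · intro m hm r' hr'
      rw [hcnt] at hm
      rw [hg m hm] at hr'
      exact hB.hv m hm r' hr'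
    · rw [hb 0 h0 (by omega)]; exact hB.hb0
    · intro i hi
      by_cases hmc : i = i0
      · subst hmc; rw [hbm]; omega
      · have : i < s.cnt := by omega
        rw [hb i this hmc]; have := hB.hbN i this; omega
    · intro i hi h1
      by_cases hmc : i = i0
      · subst hmc; rw [hbm]; omega
      · have : i < s.cnt := by omega
        rw [hb i this hmc]; exact hB.hb1 i this h1
  | rgt i0 hi0 hc hcnt hg hb =>
    refine ⟨hk, by omega, ?_, ?_, ?_, ?_⟩
    · intro m hm r' hr'
      rw [hcnt] at hm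
      rw [hg m hm] at hr'
      exact hB.hv m hm r' hr'
    · rw [hb 0 h0]; exact hB.hb0
    · intro i hi
      have : i < s.cnt := by omega
      rw [hb i this]; have := hB.hbN i this; omega
    · intro i hi h1
      have : i < s.cnt := by omega
      rw [hb i this]; exact hB.hb1 i this h1

theorem Op.code_valid {c : ℕ → Option ℕ} {k N : ℕ} {s s' : AS} (h : Op c N s s')
    (hB : BI k N s) : ∀ r, c N = some r → 1 ≤ r ∧ r < N := by
  intro r0 hr0
  cases h with
  | new r hr hc hcnt hg hgm hb hbm =>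
    rw [hc] at hr0
    cases r with
    | none => simp at hr0
    | some r' =>
      have := hr r' rfl
      simp only [Option.map_some, Option.some.injEq] at hr0
      rw [← hr0]; exact ⟨hB.hb1 r' this.2 this.1, hB.hbN r' this.2⟩
  | lft i0 h1 hi0 hc hcnt hg hb hbm =>
    rw [hc] at hr0
    simp only [Option.some.injEq] at hr0
    rw [← hr0]; exact ⟨hB.hb1 i0 hi0 h1, hB.hbN i0 hi0⟩
  | rgt i0 hi0 hc hcnt hg hb =>
    rw [hc] at hr0
    cases hn : rn s.g s.cnt i0 with
    | none => rw [hn] at hr0; simp at hr0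
    | some r' =>
      rw [hn] at hr0
      simp only [Option.map_some, Option.some.injEq] at hr0
      have := (rn_spec i0 s.cnt hi0 hB.hv).2 r' hn
      rw [← hr0]; exact ⟨hB.hb1 r' this.2.1 this.1, hB.hbN r' this.2.1⟩

/-- insertion position as a label -/
theorem Op.pos {c : ℕ → Option ℕ} {k N : ℕ} {s s' : AS} (h : Op c N s s') (hB : BI k N s) :
    ∃ r : Option ℕ, (∀ r', r = some r' → 1 ≤ r' ∧ r' < s.cnt) ∧ c N = r.map s.b := by
  cases h with
  | new r hr hc hcnt hg hgm hb hbm => exact ⟨r, hr, hc⟩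
  | lft i0 h1 hi0 hc hcnt hg hb hbm =>
    exact ⟨some i0, by rintro r' h; cases h; exact ⟨h1, hi0⟩, by rw [hc]; rfl⟩
  | rgt i0 hi0 hc hcnt hg hb =>
    refine ⟨rn s.g s.cnt i0, ?_, hc⟩
    intro r' hr'
    have := (rn_spec i0 s.cnt hi0 hB.hv).2 r' hr'
    exact ⟨this.1, this.2.1⟩

/-- the order invariant is preserved -/
theorem Op.oi {c : ℕ → Option ℕ} {k N : ℕ} {s s' : AS} (h : Op c N s s') (hB : BI k N s)
    (hO : OI c s) : OI c s' := by
  have hinj := fun {i j : ℕ} (hi : i < s.cnt) (hj : j < s.cnt) => hO.inj hB.hv hi hj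
  cases h with
  | new r hr hc hcnt hg hgm hb hbm =>
    have hcong : ∀ i < s.cnt, ∀ j < s.cnt, (Lt s'.g i j ↔ Lt s.g i j) :=
      fun i hi j hj => Lt.congr hg hi hj
    have key1 : ∀ i < s.cnt, (Lt s'.g i s.cnt ↔ Lt c (s.b i) N) := by
      intro i hi
      have hbi := hB.hbN i hi
      cases r with
      | none =>
        exact ⟨fun _ => Lt.ins_none hbi (by rw [hc]; rfl), fun _ => Lt.ins_none hi hgm⟩
      | some r' =>
        have hr' := hr r' rfl
        rw [Lt.ins_some_iff hi hgm hr'.2, Lt.ins_some_iff hbi (by rw [hc]; rfl)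
          (hB.hbN r' hr'.2), hcong i hi r' hr'.2]
        exact hO i hi r' hr'.2
    have key2 : ∀ i < s.cnt, (Lt s'.g s.cnt i ↔ Lt c N (s.b i)) := by
      intro i hi
      have hbi := hB.hbN i hi
      cases r with
      | none =>
        exact ⟨fun h => absurd h (Lt.ins_none' hi hgm),
          fun h => absurd h (Lt.ins_none' hbi (by rw [hc]; rfl))⟩
      | some r' =>
        have hr' := hr r' rfl
        rw [Lt.ins_some_iff' hi hgm hr'.2, Lt.ins_some_iff' hbi (by rw [hc]; rfl)
          (hB.hbN r' hr'.2), hcong r' hr'.2 i hi, hO r' hr'.2 i hi]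
        constructor
        · rintro (h | h)
          · exact Or.inl (by rw [h])
          · exact Or.inr h
        · rintro (h | h)
          · exact Or.inl (hinj hr'.2 hi h)
          · exact Or.inr h
    intro i hi j hj
    rw [hcnt] at hi hj
    by_cases hi' : i = s.cnt
    · subst hi'
      by_cases hj' : j = s.cnt
      · subst hj'
        exact ⟨fun h => absurd h (Lt.irrefl _ _), fun h => absurd h (Lt.irrefl _ _)⟩
      · have hj'' : j < s.cnt := by omega
        rw [hbm, hb j hj'']; exact key2 j hj''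
    · have hi'' : i < s.cnt := by omega
      by_cases hj' : j = s.cnt
      · subst hj'
        rw [hbm, hb i hi'']; exact key1 i hi''
      · have hj'' : j < s.cnt := by omega
        rw [hb i hi'', hb j hj'', hcong i hi'' j hj'']; exact hO i hi'' j hj''
  | lft i0 h1 hi0 hc hcnt hg hb hbm =>
    intro i hi j hj
    rw [hcnt] at hi hj
    rw [Lt.congr hg hi hj, hO i hi j hj]
    by_cases hi' : i = i0
    · subst hi'
      by_cases hj' : j = i
      · subst hj'
        exact ⟨fun h => absurd h (Lt.irrefl _ _), fun h => absurd h (Lt.irrefl _ _)⟩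
      · rw [hbm, hb j hj hj', Lt.ins_some_iff' (hB.hbN j hj) hc (hB.hbN i hi)]
        constructor
        · intro h; exact Or.inr h
        · rintro (h | h)
          · exact absurd (hinj hi hj h).symm hj'
          · exact h
    · by_cases hj' : j = i0
      · subst hj'
        rw [hbm, hb i hi hi', Lt.ins_some_iff (hB.hbN i hi) hc (hB.hbN j hj)]
      · rw [hb i hi hi', hb j hj hj']
  | rgt i0 hi0 hc hcnt hg hb =>
    intro i hi j hj
    rw [hcnt] at hi hj
    rw [Lt.congr hg hi hj, hO i hi j hj, hb i hi, hb j hj]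

/-- regions of old elements persist -/
theorem Op.reg {c : ℕ → Option ℕ} {k N : ℕ} {s s' : AS} (h : Op c N s s')
    (hB : BI k N s) {z i : ℕ} (hz : z < N) (hR : Reg c s z i) : Reg c s' z i := by
  cases h with
  | new r hr hc hcnt hg hgm hb hbm =>
    refine ⟨by have := hR.1; omega, by rw [hb i hR.1]; exact hR.2.1, ?_⟩
    intro i' hi' hlt
    by_cases hi'' : i' = s.cnt
    · subst hi''
      rw [hbm]
      cases r with
      | none => exact Lt.ins_none hz (by rw [hc]; rfl)
      | some r' =>
        have hr' := hr r' rfl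
        rw [Lt.ins_some_iff hR.1 hgm hr'.2, Lt.congr hg hR.1 hr'.2] at hlt
        rw [Lt.ins_some_iff hz (by rw [hc]; rfl) (hB.hbN r' hr'.2)]
        exact hR.2.2 r' hr'.2 hlt
    · have hi3 : i' < s.cnt := by omega
      rw [Lt.congr hg hR.1 hi3] at hlt
      rw [hb i' hi3]; exact hR.2.2 i' hi3 hlt
  | lft i0 h1 hi0 hc hcnt hg hb hbm =>
    have hN : ¬ Lt c z N ↔ ¬ Lt c z (s.b i0) := by
      rw [Lt.ins_some_iff hz hc (hB.hbN i0 hi0)]
    refine ⟨by have := hR.1; omega, ?_, ?_⟩
    · by_cases hi' : i = i0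
      · subst hi'; rw [hbm, hN]; exact hR.2.1
      · rw [hb i hR.1 hi']; exact hR.2.1
    · intro i' hi' hlt
      rw [hcnt] at hi'
      rw [Lt.congr hg hR.1 hi'] at hlt
      by_cases hi'' : i' = i0
      · subst hi''; rw [hbm, Lt.ins_some_iff hz hc (hB.hbN i' hi0)]; exact hR.2.2 i' hi' hlt
      · rw [hb i' hi' hi'']; exact hR.2.2 i' hi' hlt
  | rgt i0 hi0 hc hcnt hg hb =>
    refine ⟨by have := hR.1; omega, by rw [hb i hR.1]; exact hR.2.1, ?_⟩
    intro i' hi' hlt
    rw [hcnt] at hi'
    rw [Lt.congr hg hR.1 hi'] at hlt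
    rw [hb i' hi']; exact hR.2.2 i' hi' hlt

/-- no cut of `s` lies in the half-open interval `(z, z']` -/
def NC (c : ℕ → Option ℕ) (s : AS) (z z' : ℕ) : Prop :=
  ∀ i < s.cnt, ¬ (Lt c z (s.b i) ∧ ¬ Lt c z' (s.b i))

theorem NC.of_reg {c : ℕ → Option ℕ} (hc : VC c) {s : AS} (hv : Valid s.g s.cnt) (hO : OI c s)
    {z z' i : ℕ} (h : Reg c s z i) (h' : Reg c s z' i) : NC c s z z' := by
  rintro j hj ⟨h1, h2⟩
  by_cases hij : j = i
  · subst hij; exact h.2.1 h1
  · rcases lab_total hv hj h.1 hij with h3 | h3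
    · -- j < i : cut j ≤ cut i ≤ z
      have h4 := (hO j hj i h.1).1 h3
      rcases (Lt.not_iff hc).1 h.2.1 with h5 | h5
      · rw [h5] at h1; exact Lt.asymm hc h1 h4
      · exact Lt.asymm hc h1 (h4.trans hc h5)
    · exact h2 (h'.2.2 j hj h3)

theorem NC.tr {c : ℕ → Option ℕ} {s : AS} {z z' m : ℕ} (h : NC c s z z') (hm : m ≤ s.cnt) :
    NC c (s.tr m) z z' := fun i hi => h i (lt_of_lt_of_le hi hm)

/-- an operation on a state without cuts in `(z,z']` does not insert anything there -/
theorem Op.nc_new {c : ℕ → Option ℕ} {k N : ℕ} {s s' : AS} (h : Op c N s s')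
    (hB : BI k N s) {z z' : ℕ} (hz : z < N) (hz' : z' < N) (hn : NC c s z z') :
    ¬ (Lt c z N ∧ ¬ Lt c z' N) := by
  obtain ⟨r, hr, hcr⟩ := h.pos hB
  rintro ⟨h1, h2⟩
  cases r with
  | none => exact h2 (Lt.ins_none hz' (by rw [hcr]; rfl))
  | some r' =>
    have hr' := hr r' rfl
    rw [Lt.ins_some_iff hz (by rw [hcr]; rfl) (hB.hbN r' hr'.2)] at h1
    rw [Lt.ins_some_iff hz' (by rw [hcr]; rfl) (hB.hbN r' hr'.2)] at h2
    exact hn r' hr'.2 ⟨h1, h2⟩

theorem Op.nc {c : ℕ → Option ℕ} {k N : ℕ} {s s' : AS} (h : Op c N s s')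
    (hB : BI k N s) {z z' : ℕ} (hz : z < N) (hz' : z' < N) (hn : NC c s z z') :
    NC c s' z z' := by
  have hnew := h.nc_new hB hz hz' hn
  cases h with
  | new r hr hc hcnt hg hgm hb hbm =>
    intro i hi
    by_cases hi' : i = s.cnt
    · subst hi'; rw [hbm]; exact hnew
    · have : i < s.cnt := by omega
      rw [hb i this]; exact hn i this
  | lft i0 h1 hi0 hc hcnt hg hb hbm =>
    intro i hi
    rw [hcnt] at hi
    by_cases hi' : i = i0
    · subst hi'; rw [hbm]; exact hnew
    · rw [hb i hi hi']; exact hn i hi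
  | rgt i0 hi0 hc hcnt hg hb =>
    intro i hi
    rw [hcnt] at hi
    rw [hb i hi]; exact hn i hi

/-- a `rgt` operation puts the new element in the region of `i0`, to the right of everything -/
theorem rgt_reg {c : ℕ → Option ℕ} {k N : ℕ} {s s' : AS} {i0 : ℕ} (hB : BI k N s) (hO : OI c s)
    (hc' : VC c)
    (hi0 : i0 < s.cnt) (hc : c N = (rn s.g s.cnt i0).map s.b)
    (hcnt : s'.cnt = s.cnt) (hg : ∀ i < s.cnt, s'.g i = s.g i)
    (hb : ∀ i < s.cnt, s'.b i = s.b i) :
    Reg c s' N i0 ∧ ∀ z < N, Reg c s z i0 → Lt c z N := by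
  have hspec := rn_spec i0 s.cnt hi0 hB.hv
  cases hn : rn s.g s.cnt i0 with
  | none =>
    rw [hn] at hc
    have hno := hspec.1 hn
    refine ⟨⟨by omega, ?_, ?_⟩, ?_⟩
    · rw [hb i0 hi0]; exact Lt.ins_none' (hB.hbN i0 hi0) hc
    · intro i' hi' hlt
      rw [hcnt] at hi'
      rw [Lt.congr hg hi0 hi'] at hlt
      exact absurd hlt (hno i' hi')
    · intro z hz _; exact Lt.ins_none hz hc
  | some r =>
    rw [hn] at hc
    obtain ⟨h1, h2, h3, h4⟩ := hspec.2 r hn
    have hcr : c N = some (s.b r) := hc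
    refine ⟨⟨by omega, ?_, ?_⟩, ?_⟩
    · rw [hb i0 hi0, Lt.ins_some_iff' (hB.hbN i0 hi0) hcr (hB.hbN r h2)]
      rintro (h | h)
      · have := hO.inj hB.hv h2 hi0 h
        subst this; exact Lt.irrefl _ _ h3
      · exact Lt.asymm hc' ((hO i0 hi0 r h2).1 h3) h
    · intro i' hi' hlt
      rw [hcnt] at hi'
      rw [Lt.congr hg hi0 hi'] at hlt
      rw [hb i' hi', Lt.ins_some_iff' (hB.hbN i' hi') hcr (hB.hbN r h2)]
      rcases h4 i' hi' hlt with h5 | h5
      · exact Or.inl (by rw [h5])
      · exact Or.inr ((hO r h2 i' hi').1 h5)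
    · intro z hz hR
      rw [Lt.ins_some_iff hz hcr (hB.hbN r h2)]
      exact hR.2.2 r h2 h3

/-- a `lft` operation puts the new element in the region of `i0`, to the left of everything -/
theorem lft_reg {c : ℕ → Option ℕ} {k N : ℕ} {s s' : AS} {i0 : ℕ} (hB : BI k N s) (hO : OI c s)
    (hc' : VC c)
    (hi0 : i0 < s.cnt) (hc : c N = some (s.b i0))
    (hcnt : s'.cnt = s.cnt) (hg : ∀ i < s.cnt, s'.g i = s.g i)
    (hb : ∀ i < s.cnt, i ≠ i0 → s'.b i = s.b i) (hbm : s'.b i0 = N) :
    Reg c s' N i0 ∧ ∀ z < N, Reg c s z i0 → Lt c N z := by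
  refine ⟨⟨by omega, ?_, ?_⟩, ?_⟩
  · rw [hbm]; exact Lt.irrefl _ _
  · intro i' hi' hlt
    rw [hcnt] at hi'
    have hne : i' ≠ i0 := by
      rintro rfl; exact Lt.irrefl _ _ hlt
    rw [Lt.congr hg hi0 hi'] at hlt
    rw [hb i' hi' hne, Lt.ins_some_iff' (hB.hbN i' hi') hc (hB.hbN i0 hi0)]
    exact Or.inr ((hO i0 hi0 i' hi').1 hlt)
  · intro z hz hR
    rw [Lt.ins_some_iff' hz hc (hB.hbN i0 hi0)]
    rcases (Lt.not_iff hc').1 hR.2.1 with h | h
    · exact Or.inl h.symm
    · exact Or.inr h

end Pool.Agent.Helper748.ZO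

end

/-! ## Part Step -/

section
namespace Pool.Agent.Helper748.ZO

/-- number of leading `true` values of `p` below `n` -/
def lead (p : ℕ → Bool) (n : ℕ) : ℕ :=
  Nat.rec 0 (fun i r => if r = i ∧ p i = true then i + 1 else r) n

theorem lead_zero (p : ℕ → Bool) : lead p 0 = 0 := rfl

theorem lead_succ (p : ℕ → Bool) (n : ℕ) :
    lead p (n + 1) = if lead p n = n ∧ p n = true then n + 1 else lead p n := rfl

theorem lead_le (p : ℕ → Bool) (n : ℕ) : lead p n ≤ n := by
  induction n with
  | zero => exact le_rfl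
  | succ n ih => rw [lead_succ]; split_ifs <;> omega

theorem lead_lt {p : ℕ → Bool} {n i : ℕ} (h : i < lead p n) : p i = true := by
  induction n with
  | zero => exact absurd h (by simp [lead_zero])
  | succ n ih =>
    rw [lead_succ] at h
    split_ifs at h with h1
    · by_cases hi : i = n
      · subst hi; exact h1.2
      · exact ih (by omega)
    · exact ih h

theorem le_lead {p : ℕ → Bool} {n m : ℕ} (hm : m ≤ n) (h : ∀ i < m, p i = true) :
    m ≤ lead p n := by
  induction n with
  | zero => simpa [lead_zero] using hm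
  | succ n ih =>
    rw [lead_succ]
    by_cases hmn : m = n + 1
    · subst hmn
      have h1 : ∀ q, q ≤ n → lead p q = q := by
        intro q
        induction q with
        | zero => intro _; rfl
        | succ q ihq =>
          intro hq
          rw [lead_succ, if_pos ⟨ihq (by omega), h q (by omega)⟩]
      rw [if_pos ⟨h1 n le_rfl, h n (by omega)⟩]
    · have := ih (by omega)
      split_ifs <;> omega

theorem lead_not {p : ℕ → Bool} {n : ℕ} (h : lead p n < n) : p (lead p n) = false := by
  by_contra hcon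
  have h1 : p (lead p n) = true := by simpa using hcon
  have h2 : lead p n + 1 ≤ lead p n := by
    apply le_lead (by omega)
    intro i hi
    by_cases hi' : i = lead p n
    · rw [hi']; exact h1
    · exact lead_lt (n := n) (by omega)
  omega

theorem lead_congr {p q : ℕ → Bool} {n : ℕ} (h : ∀ i < n, p i = q i) : lead p n = lead q n := by
  induction n with
  | zero => rfl
  | succ n ih => rw [lead_succ, lead_succ, ih (fun i hi => h i (by omega)), h n (by omega)]

/-- order codes as finite lists -/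
abbrev OC := List (Option ℕ)
/-- stack entries: recorded guess, order code of the labels, cuts -/
abbrev Entry := OC × OC × List ℕ
/-- states: order code built so far, stack -/
abbrev St := OC × List Entry

def trn (n : ℕ) (l : OC) : OC := (List.range n).map (fun i => l.getD i none)

theorem trn_length (n : ℕ) (l : OC) : (trn n l).length = n := by simp [trn]

theorem getD_map_range {α : Type*} (n : ℕ) (f : ℕ → α) (d : α) (i : ℕ) (hi : i < n) :
    ((List.range n).map f).getD i d = f i := by
  simp [List.getD, hi]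

theorem getD_map_range' {α : Type*} (n : ℕ) (f : ℕ → α) (d : α) (i : ℕ) (hi : ¬ i < n) :
    ((List.range n).map f).getD i d = d := by
  have : n ≤ i := by omega
  simp [List.getD, this]

theorem trn_getD {n : ℕ} {l : OC} {i : ℕ} (hi : i < n) :
    (trn n l).getD i none = l.getD i none := getD_map_range n _ none i hi

theorem trn_getD' {n : ℕ} {l : OC} {i : ℕ} (hi : ¬ i < n) :
    (trn n l).getD i none = none := getD_map_range' n _ none i hi

theorem trn_eq_iff {n : ℕ} {l l' : OC} :
    trn n l = trn n l' ↔ ∀ i < n, l.getD i none = l'.getD i none := by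
  constructor
  · intro h i hi
    rw [← trn_getD (l := l) hi, h, trn_getD hi]
  · intro h
    unfold trn
    apply List.map_congr_left
    intro i hi
    exact h i (List.mem_range.1 hi)

/-- length of the common prefix -/
def cp (g G : OC) : ℕ :=
  lead (fun i => decide (g.getD i none = G.getD i none)) (min g.length G.length)

/-- plan of an action: (label position, new number of labels, label whose cut becomes `N`) -/
def plan (k : ℕ) (g G : OC) (j : ℕ) : Option ℕ × ℕ × ℕ :=
  let m := max k (cp g G)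
  let i := (j / 3).unpair.1
  if j % 3 = 1 ∧ m < G.length ∧ k ≤ cp g G then (G.getD m none, m + 1, m)
  else if j % 3 = 2 ∧ 1 ≤ i ∧ i < m then (some i, m, i)
  else (rn (fun i => g.getD i none) m (if j % 3 = 0 ∧ i < m then i else 0), m, m)

/-- action of a push on the previous entry -/
def act (k : ℕ) (E : Entry) (G : OC) (N j : ℕ) : Option ℕ × Entry :=
  ((plan k E.2.1 G j).1.map (fun r => E.2.2.getD r 0),
    (G, (List.range (plan k E.2.1 G j).2.1).map
        (fun i => if i < max k (cp E.2.1 G) then E.2.1.getD i none else G.getD i none),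
      (List.range (plan k E.2.1 G j).2.1).map
        (fun i => if i = (plan k E.2.1 G j).2.2 then N else E.2.2.getD i 0)))

/-- abstract state of an entry -/
def toAS (E : Entry) : AS :=
  ⟨E.2.1.length, fun i => E.2.1.getD i none, fun i => E.2.2.getD i 0⟩

/-- number of labels kept -/
def keep (k : ℕ) (E : Entry) (G : OC) : ℕ := max k (cp E.2.1 G)

theorem keep_le {k N : ℕ} {E : Entry} {G : OC} (hB : BI k N (toAS E)) :
    k ≤ keep k E G ∧ keep k E G ≤ (toAS E).cnt := by
  refine ⟨le_max_left _ _, max_le hB.hkc ?_⟩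
  exact (lead_le _ _).trans (min_le_left _ _)

/-- the action is an elementary operation on the truncated state -/
theorem act_op {c : ℕ → Option ℕ} {k N j : ℕ} {E : Entry} {G : OC} (hB : BI k N (toAS E))
    (hG : ∀ i r, G.getD i none = some r → 1 ≤ r ∧ r < i) (hc : c N = (act k E G N j).1) :
    Op c N ((toAS E).tr (keep k E G)) (toAS (act k E G N j).2) := by
  have hkp := keep_le (G := G) hB
  have hk := hB.hk
  have hm0 : 0 < keep k E G := by omega
  by_cases h1 : j % 3 = 1 ∧ keep k E G < G.length ∧ k ≤ cp E.2.1 G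
  · have hplan : plan k E.2.1 G j = (G.getD (keep k E G) none, keep k E G + 1, keep k E G) := by
      unfold plan keep; unfold keep at h1; simp only; rw [if_pos h1]
    refine Op.new (G.getD (keep k E G) none) (hG _) ?_ ?_ ?_ ?_ ?_ ?_
    · rw [hc]; simp only [act, hplan]; rfl
    · simp [toAS, act, hplan, AS.tr]
    · intro i hi
      have hi : i < keep k E G := hi
      simp only [toAS, act, hplan, AS.tr]
      rw [getD_map_range _ _ _ _ (by omega)]
      exact if_pos hi
    · simp only [toAS, act, hplan, AS.tr]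
      rw [getD_map_range _ _ _ _ (by omega)]
      exact if_neg (lt_irrefl _)
    · intro i hi
      have hi : i < keep k E G := hi
      simp only [toAS, act, hplan, AS.tr]
      rw [getD_map_range _ _ _ _ (by omega)]
      exact if_neg (by omega)
    · simp only [toAS, act, hplan, AS.tr]
      rw [getD_map_range _ _ _ _ (by omega)]
      exact if_pos rfl
  · by_cases h2 : j % 3 = 2 ∧ 1 ≤ (j / 3).unpair.1 ∧ (j / 3).unpair.1 < keep k E G
    · have hplan : plan k E.2.1 G j = (some (j / 3).unpair.1, keep k E G, (j / 3).unpair.1) := by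
        unfold plan keep; unfold keep at h1 h2; simp only; rw [if_neg h1, if_pos h2]
      refine Op.lft (j / 3).unpair.1 h2.2.1 h2.2.2 ?_ ?_ ?_ ?_ ?_
      · rw [hc]; simp only [act, hplan]; rfl
      · simp [toAS, act, hplan, AS.tr]
      · intro i hi
        have hi : i < keep k E G := hi
        simp only [toAS, act, hplan, AS.tr]
        rw [getD_map_range _ _ _ _ (by omega)]
        exact if_pos hi
      · intro i hi hne
        have hi : i < keep k E G := hi
        simp only [toAS, act, hplan, AS.tr]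
        rw [getD_map_range _ _ _ _ (by omega)]
        exact if_neg hne
      · simp only [toAS, act, hplan, AS.tr]
        rw [getD_map_range _ _ _ _ (by omega)]
        exact if_pos rfl
    · have hplan : plan k E.2.1 G j = (rn (fun i => E.2.1.getD i none) (keep k E G)
          (if j % 3 = 0 ∧ (j / 3).unpair.1 < keep k E G then (j / 3).unpair.1 else 0),
          keep k E G, keep k E G) := by
        unfold plan keep; unfold keep at h1 h2; simp only; rw [if_neg h1, if_neg h2]
      refine Op.rgt (if j % 3 = 0 ∧ (j / 3).unpair.1 < keep k E G then (j / 3).unpair.1 else 0)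
        ?_ ?_ ?_ ?_ ?_
      · simp only [AS.tr]
        split_ifs with h3
        · exact h3.2
        · exact hm0
      · rw [hc]; simp only [act, hplan]; rfl
      · simp [toAS, act, hplan, AS.tr]
      · intro i hi
        have hi : i < keep k E G := hi
        simp only [toAS, act, hplan, AS.tr]
        rw [getD_map_range _ _ _ _ (by omega)]
        exact if_pos hi
      · intro i hi
        have hi : i < keep k E G := hi
        simp only [toAS, act, hplan, AS.tr]
        rw [getD_map_range _ _ _ _ (by omega)]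
        exact if_neg (by omega)

/-- effect of a `new` action -/
theorem act_new {k N j : ℕ} {E : Entry} {G : OC} (hj : j % 3 = 1)
    (h1 : keep k E G < G.length) (h2 : k ≤ cp E.2.1 G) :
    (toAS (act k E G N j).2).cnt = keep k E G + 1 ∧
      (toAS (act k E G N j).2).g (keep k E G) = G.getD (keep k E G) none := by
  have hplan : plan k E.2.1 G j = (G.getD (keep k E G) none, keep k E G + 1, keep k E G) := by
    unfold plan keep; unfold keep at h1; simp only; rw [if_pos ⟨hj, h1, h2⟩]
  refine ⟨by simp [toAS, act, hplan], ?_⟩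
  simp only [toAS, act, hplan]
  rw [getD_map_range _ _ _ _ (by omega)]
  exact if_neg (lt_irrefl _)

/-- effect of a `lft` action -/
theorem act_lft {c : ℕ → Option ℕ} {k N j : ℕ} {E : Entry} {G : OC} (hB : BI k N (toAS E))
    (hO : OI c (toAS E)) (hcv : VC c)
    (hc : c N = (act k E G N j).1) {i0 : ℕ}
    (hj : j % 3 = 2) (hi : (j / 3).unpair.1 = i0) (h1 : 1 ≤ i0) (h2 : i0 < keep k E G) :
    Reg c (toAS (act k E G N j).2) N i0 ∧ ∀ z < N, Reg c (toAS E) z i0 → Lt c N z := by
  have hkp := keep_le (G := G) hB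
  have hplan : plan k E.2.1 G j = (some i0, keep k E G, i0) := by
    unfold plan keep; unfold keep at h2
    simp only
    rw [if_neg (by omega), if_pos ⟨hj, by rw [hi]; exact h1, by rw [hi]; exact h2⟩, hi]
  have := lft_reg (c := c) (k := k) (N := N) (s := (toAS E).tr (keep k E G))
    (s' := toAS (act k E G N j).2) (i0 := i0) (hB.tr hkp.1 hkp.2) (hO.tr hkp.2) hcv h2
    (by rw [hc]; simp only [act, hplan]; rfl)
    (by simp [toAS, act, hplan, AS.tr])
    (by
      intro i hi
      have hi : i < keep k E G := hi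
      simp only [toAS, act, hplan, AS.tr]
      rw [getD_map_range _ _ _ _ (by omega)]
      exact if_pos hi)
    (by
      intro i hi hne
      have hi : i < keep k E G := hi
      simp only [toAS, act, hplan, AS.tr]
      rw [getD_map_range _ _ _ _ (by omega)]
      exact if_neg hne)
    (by
      simp only [toAS, act, hplan, AS.tr]
      rw [getD_map_range _ _ _ _ (by omega)]
      exact if_pos rfl)
  exact ⟨this.1, fun z hz hR => this.2 z hz (hR.tr h2 hkp.2)⟩

/-- effect of a `rgt` action -/
theorem act_rgt {c : ℕ → Option ℕ} {k N j : ℕ} {E : Entry} {G : OC} (hB : BI k N (toAS E))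
    (hO : OI c (toAS E)) (hcv : VC c)
    (hc : c N = (act k E G N j).1) {i0 : ℕ}
    (hj : j % 3 = 0) (hi : (j / 3).unpair.1 = i0) (h2 : i0 < keep k E G) :
    Reg c (toAS (act k E G N j).2) N i0 ∧ ∀ z < N, Reg c (toAS E) z i0 → Lt c z N := by
  have hkp := keep_le (G := G) hB
  have hplan : plan k E.2.1 G j = (rn (fun i => E.2.1.getD i none) (keep k E G) i0,
      keep k E G, keep k E G) := by
    unfold plan keep; unfold keep at h2
    simp only
    rw [if_neg (by omega), if_neg (by omega), if_pos ⟨hj, by rw [hi]; exact h2⟩, hi]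
  have := rgt_reg (c := c) (k := k) (N := N) (s := (toAS E).tr (keep k E G))
    (s' := toAS (act k E G N j).2) (i0 := i0) (hB.tr hkp.1 hkp.2) (hO.tr hkp.2) hcv h2
    (by rw [hc]; simp only [act, hplan]; rfl)
    (by simp [toAS, act, hplan, AS.tr])
    (by
      intro i hi
      have hi : i < keep k E G := hi
      simp only [toAS, act, hplan, AS.tr]
      rw [getD_map_range _ _ _ _ (by omega)]
      exact if_pos hi)
    (by
      intro i hi
      have hi : i < keep k E G := hi
      simp only [toAS, act, hplan, AS.tr]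
      rw [getD_map_range _ _ _ _ (by omega)]
      exact if_neg (by omega))
  exact ⟨this.1, fun z hz hR => this.2 z hz (hR.tr h2 hkp.2)⟩

theorem act_fst {k N j : ℕ} {E : Entry} {G : OC} : (act k E G N j).2.1 = G := rfl

/-- labels where the recorded code agrees with the guess are kept -/
theorem le_cp {g G : OC} {m : ℕ} (h1 : m ≤ g.length) (h2 : m ≤ G.length)
    (h : ∀ i < m, g.getD i none = G.getD i none) : m ≤ cp g G :=
  le_lead (le_min h1 h2) (fun i hi => by simpa using h i hi)

theorem cp_agree {g G : OC} {i : ℕ} (h : i < cp g G) : g.getD i none = G.getD i none := by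
  have := lead_lt h
  simpa using this

end Pool.Agent.Helper748.ZO

end

/-! ## Part Run -/

section
namespace Pool.Agent.Helper748.ZO

open Filter

/-- initial stack level -/
def initE (k : ℕ) (gc : ℕ → Option ℕ) : Entry := ([], (List.range k).map gc, List.range k)

structure Run (k : ℕ) (gc c : ℕ → Option ℕ) (js : ℕ → ℕ) (ent : ℕ → ℕ → Entry)
    (Gd : ℕ → ℕ → OC) : Prop where
  hk : 1 ≤ k
  hgc : VC gc
  h0 : ∀ i < k, c i = gc i
  e0 : ∀ u, ent u 0 = initE k gc
  j0 : js 0 = 0
  ek : ∀ u i, i ≤ js u → ent (u + 1) i = ent u i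
  en : ∀ u, ent (u + 1) (js u + 1) = (act k (ent u (js u)) (Gd u (js u)) (k + u) (js u)).2
  ec : ∀ u, c (k + u) = (act k (ent u (js u)) (Gd u (js u)) (k + u) (js u)).1
  jle : ∀ u, js (u + 1) ≤ js u + 1
  em : ∀ u j, j < js u → (ent u (j + 1)).1 = Gd u j
  emx : ∀ u, js (u + 1) < js u + 1 → (ent (u + 1) (js (u + 1) + 1)).1 ≠ Gd (u + 1) (js (u + 1))
  hGv : ∀ u j i r, (Gd u j).getD i none = some r → 1 ≤ r ∧ r < i
  hGl : ∀ u j, (Gd u j).length = j + 1

theorem BI.monoN {k N N' : ℕ} {s : AS} (h : BI k N s) (hN : N ≤ N') : BI k N' s :=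
  ⟨h.hk, h.hkc, h.hv, h.hb0, fun i hi => (h.hbN i hi).trans_le hN, h.hb1⟩

theorem initE_cnt (k : ℕ) (gc : ℕ → Option ℕ) : (toAS (initE k gc)).cnt = k := by
  simp [toAS, initE]

theorem initE_g {k : ℕ} {gc : ℕ → Option ℕ} {i : ℕ} (hi : i < k) :
    (toAS (initE k gc)).g i = gc i := by
  simp only [toAS, initE]
  exact getD_map_range _ _ _ _ hi

theorem initE_b {k : ℕ} {gc : ℕ → Option ℕ} {i : ℕ} (hi : i < k) :
    (toAS (initE k gc)).b i = i := by
  simp [toAS, initE, List.getD, hi]

theorem initE_bi {k N : ℕ} {gc : ℕ → Option ℕ} (hk : 1 ≤ k) (hgc : VC gc) (hN : k ≤ N) :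
    BI k N (toAS (initE k gc)) := by
  refine ⟨hk, le_of_eq (initE_cnt k gc).symm, ?_, initE_b (by omega), ?_, ?_⟩
  · intro m hm r hr
    rw [initE_cnt] at hm
    rw [initE_g hm] at hr
    exact hgc m r hr
  · intro i hi
    rw [initE_cnt] at hi
    rw [initE_b hi]; omega
  · intro i hi h1
    rw [initE_cnt] at hi
    rw [initE_b hi]; exact h1

theorem initE_oi {k : ℕ} {gc c : ℕ → Option ℕ} (h0 : ∀ i < k, c i = gc i) :
    OI c (toAS (initE k gc)) := by
  intro i hi j hj
  rw [initE_cnt] at hi hj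
  rw [initE_b hi, initE_b hj]
  refine Lt.congr (n := k) ?_ hi hj
  intro l hl
  rw [initE_g hl, h0 l hl]

theorem act_cnt {k N j : ℕ} {E : Entry} {G : OC} :
    (toAS (act k E G N j).2).cnt ≤ keep k E G + 1 ∧
      (j % 3 ≠ 1 → (toAS (act k E G N j).2).cnt = keep k E G) := by
  have h : (toAS (act k E G N j).2).cnt = (plan k E.2.1 G j).2.1 := by simp [toAS, act]
  rw [h]
  unfold plan keep
  simp only
  split_ifs with h1 h2
  · exact ⟨le_rfl, fun h => absurd h1.1 h⟩
  all_goals exact ⟨Nat.le_succ _, fun _ => rfl⟩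

/-- valid number of levels at stage `u` -/
def lv (js : ℕ → ℕ) : ℕ → ℕ
  | 0 => 0
  | u + 1 => js u + 1

namespace Run

variable {k : ℕ} {gc c : ℕ → Option ℕ} {js : ℕ → ℕ} {ent : ℕ → ℕ → Entry} {Gd : ℕ → ℕ → OC}

theorem js_le_lv (R : Run k gc c js ent Gd) (u : ℕ) : js u ≤ lv js u := by
  cases u with
  | zero => rw [R.j0]; exact le_rfl
  | succ u => exact R.jle u

theorem bi (R : Run k gc c js ent Gd) : ∀ u i, i ≤ lv js u → BI k (k + u) (toAS (ent u i)) := by
  intro u
  induction u with
  | zero =>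
    intro i hi
    have : i = 0 := by simpa [lv] using hi
    subst this
    rw [R.e0]; exact initE_bi R.hk R.hgc (by omega)
  | succ u ih =>
    intro i hi
    have hi : i ≤ js u + 1 := hi
    by_cases h : i ≤ js u
    · rw [R.ek u i h]
      exact (ih i (h.trans (R.js_le_lv u))).monoN (by omega)
    · have h' : i = js u + 1 := by omega
      subst h'
      rw [R.en u]
      have hB := ih (js u) (R.js_le_lv u)
      have hkp := keep_le (G := Gd u (js u)) hB
      exact (act_op hB (R.hGv u (js u)) (R.ec u)).bi (hB.tr hkp.1 hkp.2)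

theorem vc (R : Run k gc c js ent Gd) : VC c := by
  intro m r hr
  by_cases h : m < k
  · rw [R.h0 m h] at hr; exact R.hgc m r hr
  · obtain ⟨u, rfl⟩ : ∃ u, m = k + u := ⟨m - k, by omega⟩
    have hB := R.bi u (js u) (R.js_le_lv u)
    have hkp := keep_le (G := Gd u (js u)) hB
    exact (act_op hB (R.hGv u (js u)) (R.ec u)).code_valid (hB.tr hkp.1 hkp.2) r hr

theorem oi (R : Run k gc c js ent Gd) : ∀ u i, i ≤ lv js u → OI c (toAS (ent u i)) := by
  intro u
  induction u with
  | zero =>
    intro i hi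
    have : i = 0 := by simpa [lv] using hi
    subst this
    rw [R.e0]; exact initE_oi R.h0
  | succ u ih =>
    intro i hi
    have hi : i ≤ js u + 1 := hi
    by_cases h : i ≤ js u
    · rw [R.ek u i h]
      exact ih i (h.trans (R.js_le_lv u))
    · have h' : i = js u + 1 := by omega
      subst h'
      rw [R.en u]
      have hB := R.bi u (js u) (R.js_le_lv u)
      have hkp := keep_le (G := Gd u (js u)) hB
      exact (act_op hB (R.hGv u (js u)) (R.ec u)).oi (hB.tr hkp.1 hkp.2)
        ((ih (js u) (R.js_le_lv u)).tr hkp.2)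

theorem cnt_le (R : Run k gc c js ent Gd) : ∀ u i, i ≤ lv js u →
    (toAS (ent u i)).cnt ≤ k + (i - 1) := by
  intro u
  induction u with
  | zero =>
    intro i hi
    have : i = 0 := by simpa [lv] using hi
    subst this
    rw [R.e0, initE_cnt]; omega
  | succ u ih =>
    intro i hi
    have hi : i ≤ js u + 1 := hi
    by_cases h : i ≤ js u
    · rw [R.ek u i h]
      exact ih i (h.trans (R.js_le_lv u))
    · have h' : i = js u + 1 := by omega
      subst h'
      rw [R.en u]
      have hB := R.bi u (js u) (R.js_le_lv u)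
      have hkp := keep_le (G := Gd u (js u)) hB
      have h1 := ih (js u) (R.js_le_lv u)
      have h2 := act_cnt (k := k) (N := k + u) (j := js u) (E := ent u (js u))
        (G := Gd u (js u))
      by_cases hj : js u = 0
      · have h3 := h2.2 (by omega)
        omega
      · have := h2.1
        omega

/-- no insertion between two elements not separated by a cut of a final level -/
theorem nc (R : Run k gc c js ent Gd) {u0 j0 z z' : ℕ} (hj0 : ∀ u ≥ u0, j0 ≤ js u)
    (hz : z < k + u0) (hz' : z' < k + u0) (h0 : NC c (toAS (ent u0 j0)) z z')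
    (hlv : lv js u0 = j0) :
    ∀ u ≥ u0, ∀ i, j0 ≤ i → i ≤ lv js u → NC c (toAS (ent u i)) z z' := by
  intro u hu
  induction u, hu using Nat.le_induction with
  | base =>
    intro i h1 h2
    have : i = j0 := by omega
    subst this; exact h0
  | succ u hu ih =>
    intro i h1 hi
    have hi : i ≤ js u + 1 := hi
    by_cases h : i ≤ js u
    · rw [R.ek u i h]
      exact ih i h1 (h.trans (R.js_le_lv u))
    · have h' : i = js u + 1 := by omega
      subst h'
      rw [R.en u]
      have hB := R.bi u (js u) (R.js_le_lv u)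
      have hkp := keep_le (G := Gd u (js u)) hB
      exact (act_op hB (R.hGv u (js u)) (R.ec u)).nc (hB.tr hkp.1 hkp.2) (by omega) (by omega)
        ((ih (js u) (hj0 u hu) (R.js_le_lv u)).tr hkp.2)

theorem not_between (R : Run k gc c js ent Gd) {u0 j0 z z' : ℕ} (hj0 : ∀ u ≥ u0, j0 ≤ js u)
    (hz : z < k + u0) (hz' : z' < k + u0) (h0 : NC c (toAS (ent u0 j0)) z z')
    (hlv : lv js u0 = j0) (u : ℕ) (hu : u0 ≤ u) : ¬ (Lt c z (k + u) ∧ ¬ Lt c z' (k + u)) := by
  have hB := R.bi u (js u) (R.js_le_lv u)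
  have hkp := keep_le (G := Gd u (js u)) hB
  exact (act_op hB (R.hGv u (js u)) (R.ec u)).nc_new (hB.tr hkp.1 hkp.2) (by omega) (by omega)
    ((R.nc hj0 hz hz' h0 hlv u hu (js u) (hj0 u hu) (R.js_le_lv u)).tr hkp.2)

/-- the levels stabilise -/
theorem fin_ge (R : Run k gc c js ent Gd) (hO : ∀ j, ∃ G, ∀ᶠ u in atTop, Gd u j = G) :
    ∀ j, ∃ T, ∀ u ≥ T, j ≤ js u := by
  intro j
  induction j with
  | zero => exact ⟨0, fun u _ => Nat.zero_le _⟩
  | succ j ih =>
    obtain ⟨T, hT⟩ := ih
    obtain ⟨G, hG⟩ := hO j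
    obtain ⟨V, hV⟩ := eventually_atTop.1 hG
    refine ⟨max T V + 1, ?_⟩
    intro u hu
    obtain ⟨v, rfl⟩ : ∃ v, u = v + 1 := ⟨u - 1, by omega⟩
    have hvT : T ≤ v := (le_max_left T V).trans (by omega)
    have hvV : V ≤ v := (le_max_right T V).trans (by omega)
    have h1 := hT (v + 1) (by omega)
    by_contra hcon
    have h2 : js (v + 1) = j := by omega
    have h3 : j ≤ js v := hT v hvT
    have h4 := R.emx v (by omega)
    rw [h2] at h4
    apply h4
    rw [hV (v + 1) (by omega)]
    by_cases h5 : js v = j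
    · have := R.en v
      rw [h5] at this
      rw [this, act_fst, hV v hvV]
    · rw [R.ek v (j + 1) (by omega), R.em v j (by omega), hV v hvV]

theorem fin_uf (R : Run k gc c js ent Gd) (hO : ∀ j, ∃ G, ∀ᶠ u in atTop, Gd u j = G) (j : ℕ) :
    ∃ u, js u = j ∧ ∀ u' > u, j + 1 ≤ js u' := by
  classical
  have hex := R.fin_ge hO (j + 1)
  have hT := Nat.find_spec hex
  have hmin := fun m => Nat.find_min hex (m := m)
  set T := Nat.find hex
  have hT0 : T ≠ 0 := by
    intro h
    have := hT 0 (by omega)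
    rw [R.j0] at this; omega
  obtain ⟨T', hT'⟩ : ∃ T', T = T' + 1 := ⟨T - 1, by omega⟩
  have h1 := hmin T' (by omega)
  push Not at h1
  obtain ⟨u, hu, hlt⟩ := h1
  have hu' : u = T' := by
    by_contra hne
    have := hT u (by omega)
    omega
  subst hu'
  have h2 := hT (u + 1) (by omega)
  have h3 := R.jle u
  exact ⟨u, by omega, fun u' hu' => hT u' (by omega)⟩

end Run

end Pool.Agent.Helper748.ZO

end

/-! ## Part Main1 -/

section
namespace Pool.Agent.Helper748.ZO

open Filter

/-- the sequence of final levels -/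
def FL (k : ℕ) (gc : ℕ → Option ℕ) (Gf : ℕ → OC) (Nf : ℕ → ℕ) : ℕ → Entry
  | 0 => initE k gc
  | j + 1 => (act k (FL k gc Gf Nf j) (Gf j) (Nf j) j).2

namespace Run

variable {k : ℕ} {gc c c' : ℕ → Option ℕ} {js : ℕ → ℕ} {ent : ℕ → ℕ → Entry} {Gd : ℕ → ℕ → OC}

/-- everything known about the final levels -/
structure Fin1 (k : ℕ) (gc c : ℕ → Option ℕ) (js : ℕ → ℕ) (ent : ℕ → ℕ → Entry)
    (Gf : ℕ → OC) (uf : ℕ → ℕ) : Prop where
  smono : ∀ j, uf j < uf (j + 1)
  js_eq : ∀ j, js (uf j) = j
  js_ge : ∀ j, ∀ u > uf j, j + 1 ≤ js u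
  ent_eq : ∀ j, ∀ u, (j = 0 ∨ uf (j - 1) < u) → ent u j = FL k gc Gf (fun j => k + uf j) j
  cc : ∀ j, c (k + uf j) = (act k (FL k gc Gf (fun j => k + uf j) j) (Gf j) (k + uf j) j).1

theorem fin1 (R : Run k gc c js ent Gd) {Gf : ℕ → OC}
    (hO : ∀ j, ∀ᶠ u in atTop, Gd u j = Gf j) :
    ∃ uf, Fin1 k gc c js ent Gf uf := by
  choose uf huf1 huf2 using R.fin_uf (fun j => ⟨Gf j, hO j⟩)
  have hsm : ∀ j, uf j < uf (j + 1) := by
    intro j
    by_contra hcon
    rcases eq_or_lt_of_le (not_lt.1 hcon) with h | h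
    · have h1 := huf1 j
      have h2 := huf1 (j + 1)
      rw [h] at h2; omega
    · have := huf2 (j + 1) (uf j) h
      rw [huf1 j] at this; omega
  -- recorded guesses are the limits
  have hconst : ∀ j, ∀ u, uf j < u → ent u (j + 1) = ent (uf j + 1) (j + 1) := by
    intro j u hu
    induction u, (Nat.succ_le_of_lt hu : uf j + 1 ≤ u) using Nat.le_induction with
    | base => rfl
    | succ u hu' ih =>
      rw [R.ek u (j + 1) (huf2 j u (by omega))]
      exact ih (by omega)
  have hrec : ∀ j, Gd (uf j) j = Gf j := by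
    intro j
    obtain ⟨V, hV⟩ := eventually_atTop.1 (hO j)
    have h1 : (ent (uf j + 1) (j + 1)).1 = Gd (uf j) j := by
      have := R.en (uf j)
      rw [huf1 j] at this
      rw [this, act_fst]
    have h2 := hconst j (max V (uf j) + 1) (by have := le_max_right V (uf j); omega)
    have h3 := R.em (max V (uf j) + 1) j
      (by have := huf2 j (max V (uf j) + 1) (by have := le_max_right V (uf j); omega); omega)
    rw [h2, h1, hV (max V (uf j) + 1) (by have := le_max_left V (uf j); omega)] at h3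
    exact h3
  have hent : ∀ j, ∀ u, (j = 0 ∨ uf (j - 1) < u) →
      ent u j = FL k gc Gf (fun j => k + uf j) j := by
    intro j
    induction j with
    | zero => intro u _; rw [R.e0]; rfl
    | succ j ih =>
      intro u hu
      have hu : uf j < u := by simpa using hu
      rw [hconst j u hu]
      have h1 := R.en (uf j)
      rw [huf1 j] at h1
      rw [h1, hrec j, ih (uf j)]
      · rfl
      · rcases Nat.eq_zero_or_pos j with h | h
        · exact Or.inl h
        · obtain ⟨j', rfl⟩ : ∃ j', j = j' + 1 := ⟨j - 1, by omega⟩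
          exact Or.inr (hsm j')
  refine ⟨uf, hsm, huf1, huf2, hent, ?_⟩
  intro j
  have h1 := R.ec (uf j)
  rw [huf1 j] at h1
  rw [h1, hrec j, hent j (uf j)]
  rcases Nat.eq_zero_or_pos j with h | h
  · exact Or.inl h
  · obtain ⟨j', rfl⟩ : ∃ j', j = j' + 1 := ⟨j - 1, by omega⟩
    exact Or.inr (hsm j')

theorem Fin1.le_uf {Gf : ℕ → OC} {uf : ℕ → ℕ} (F : Fin1 k gc c js ent Gf uf) (j : ℕ) :
    j ≤ uf j := by
  induction j with
  | zero => omega
  | succ j ih => have := F.smono j; omega

theorem Fin1.mono {Gf : ℕ → OC} {uf : ℕ → ℕ} (F : Fin1 k gc c js ent Gf uf) {i j : ℕ}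
    (h : i ≤ j) : uf i ≤ uf j := by
  induction j, h using Nat.le_induction with
  | base => exact le_rfl
  | succ j hj ih => have := F.smono j; omega

section

variable {Gf : ℕ → OC} {uf : ℕ → ℕ}


theorem Fin1.ent_uf (F : Fin1 k gc c js ent Gf uf) (j : ℕ) :
    ent (uf j) j = FL k gc Gf (fun j => k + uf j) j := by
  apply F.ent_eq
  rcases Nat.eq_zero_or_pos j with h | h
  · exact Or.inl h
  · obtain ⟨j', rfl⟩ : ∃ j', j = j' + 1 := ⟨j - 1, by omega⟩
    exact Or.inr (F.smono j')

theorem Fin1.bi (F : Fin1 k gc c js ent Gf uf) (R : Run k gc c js ent Gd) (j : ℕ) :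
    BI k (k + uf j) (toAS (FL k gc Gf (fun j => k + uf j) j)) := by
  rw [← F.ent_uf j]
  exact R.bi (uf j) j (by have := R.js_le_lv (uf j); rw [F.js_eq j] at this; exact this)

theorem Fin1.oi (F : Fin1 k gc c js ent Gf uf) (R : Run k gc c js ent Gd) (j : ℕ) :
    OI c (toAS (FL k gc Gf (fun j => k + uf j) j)) := by
  rw [← F.ent_uf j]
  exact R.oi (uf j) j (by have := R.js_le_lv (uf j); rw [F.js_eq j] at this; exact this)

theorem Fin1.cnt (F : Fin1 k gc c js ent Gf uf) (R : Run k gc c js ent Gd) (j : ℕ) :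
    (toAS (FL k gc Gf (fun j => k + uf j) j)).cnt ≤ k + (j - 1) := by
  rw [← F.ent_uf j]
  exact R.cnt_le (uf j) j (by have := R.js_le_lv (uf j); rw [F.js_eq j] at this; exact this)

/-- persistence of regions through one final push -/
theorem Fin1.step (F : Fin1 k gc c js ent Gf uf) (R : Run k gc c js ent Gd)
    (hGv : ∀ j i r, (Gf j).getD i none = some r → 1 ≤ r ∧ r < i) {j z i : ℕ}
    (hz : z < k + uf j) (hR : Reg c (toAS (FL k gc Gf (fun j => k + uf j) j)) z i) :
    (i < keep k (FL k gc Gf (fun j => k + uf j) j) (Gf j) → Reg c (toAS (FL k gc Gf (fun j => k + uf j) (j + 1))) z i) ∧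
    (∃ i', i' ≤ i ∧ Reg c (toAS (FL k gc Gf (fun j => k + uf j) (j + 1))) z i') := by
  have hB := F.bi R j
  have hkp := keep_le (G := Gf j) hB
  have hop := act_op hB (hGv j) (F.cc j)
  have h1 : i < keep k (FL k gc Gf (fun j => k + uf j) j) (Gf j) → Reg c (toAS (FL k gc Gf (fun j => k + uf j) (j + 1))) z i := by
    intro hi
    exact hop.reg (hB.tr hkp.1 hkp.2) hz (hR.tr hi hkp.2)
  refine ⟨h1, ?_⟩
  by_cases hi : i < keep k (FL k gc Gf (fun j => k + uf j) j) (Gf j)
  · exact ⟨i, le_rfl, h1 hi⟩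
  · obtain ⟨i', hi'⟩ := Reg.exists R.vc (hB.tr hkp.1 hkp.2) z
    refine ⟨i', ?_, hop.reg (hB.tr hkp.1 hkp.2) hz hi'⟩
    have : i' < keep k (FL k gc Gf (fun j => k + uf j) j) (Gf j) := hi'.1
    omega

/-- every element ends up in a fixed region -/
theorem Fin1.ev (F : Fin1 k gc c js ent Gf uf) (R : Run k gc c js ent Gd)
    (hGv : ∀ j i r, (Gf j).getD i none = some r → 1 ≤ r ∧ r < i) {z : ℕ} :
    ∀ n, ∀ i ≤ n, ∀ j, z < k + uf j → Reg c (toAS (FL k gc Gf (fun j => k + uf j) j)) z i →
      ∃ i' ≤ i, ∃ J ≥ j, ∀ j' ≥ J, Reg c (toAS (FL k gc Gf (fun j => k + uf j) j')) z i' := by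
  intro n
  induction n using Nat.strong_induction_on with
  | _ n ih =>
    intro i hin j hj hR
    by_cases hall : ∀ j' ≥ j, Reg c (toAS (FL k gc Gf (fun j => k + uf j) j')) z i
    · exact ⟨i, le_rfl, j, le_rfl, hall⟩
    · classical
      push Not at hall
      have hmin := Nat.find_spec hall
      have hmin' := fun m => Nat.find_min hall (m := m)
      set J := Nat.find hall
      obtain ⟨hJ1, hJ2⟩ := hmin
      have hJj : J ≠ j := by
        rintro h
        rw [h] at hJ2; exact hJ2 hR
      obtain ⟨J', hJ'⟩ : ∃ J', J = J' + 1 := ⟨J - 1, by omega⟩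
      have hprev : Reg c (toAS (FL k gc Gf (fun j => k + uf j) J')) z i := by
        have := hmin' J' (by omega)
        by_contra hcon
        exact this ⟨by omega, hcon⟩
      have huJ : uf j ≤ uf J' := F.mono (by omega)
      obtain ⟨i', hi', hR'⟩ := (F.step R hGv (by omega) hprev).2
      have hne : i' ≠ i := by
        rintro rfl
        rw [hJ'] at hJ2; exact hJ2 hR'
      have hs := F.smono J'
      obtain ⟨i'', hi'', JJ, hJJ, hfin⟩ := ih i' (by omega) i' le_rfl (J' + 1) (by omega) hR'
      exact ⟨i'', by omega, JJ, by omega, hfin⟩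

theorem Fin1.glow (F : Fin1 k gc c js ent Gf uf) (R : Run k gc c js ent Gd) (j : ℕ) :
    ∀ i < k, (toAS (FL k gc Gf (fun j => k + uf j) j)).g i = gc i := by
  induction j with
  | zero => intro i hi; exact initE_g hi
  | succ j ih =>
    intro i hi
    have hB := F.bi R j
    have hkp := keep_le (G := Gf j) hB
    rw [← ih i hi]
    have : (toAS (act k (FL k gc Gf (fun j => k + uf j) j) (Gf j) (k + uf j) j).2).g i = (toAS (FL k gc Gf (fun j => k + uf j) j)).g i := by
      have hlt : i < (plan k (FL k gc Gf (fun j => k + uf j) j).2.1 (Gf j) j).2.1 := by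
        have := act_cnt (k := k) (N := k + uf j) (j := j) (E := FL k gc Gf (fun j => k + uf j) j) (G := Gf j)
        have h2 : (plan k (FL k gc Gf (fun j => k + uf j) j).2.1 (Gf j) j).2.1 ≥ keep k (FL k gc Gf (fun j => k + uf j) j) (Gf j) := by
          unfold plan keep
          simp only
          split_ifs <;> simp
        omega
      simp only [toAS, act]
      rw [getD_map_range _ _ _ _ hlt]
      exact if_pos (lt_of_lt_of_le hi hkp.1)
    exact this

/-- the labels below `m` are eventually settled -/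
theorem Fin1.settled (F : Fin1 k gc c js ent Gf uf) (R : Run k gc c js ent Gd)
    (hGv : ∀ j i r, (Gf j).getD i none = some r → 1 ≤ r ∧ r < i)
    (hGl : ∀ j, (Gf j).length = j + 1)
    (hC : ∀ m, ∀ᶠ j in atTop, ∀ i < m, (Gf j).getD i none = c' i)
    (hck : ∀ i < k, c' i = gc i) :
    ∀ m, ∃ J, ∀ j ≥ J, m ≤ (toAS (FL k gc Gf (fun j => k + uf j) j)).cnt ∧ (∀ i < m, (toAS (FL k gc Gf (fun j => k + uf j) j)).g i = c' i) ∧
      m ≤ keep k (FL k gc Gf (fun j => k + uf j) j) (Gf j) := by
  -- a weaker statement suffices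
  have key : ∀ m, (∃ J, ∀ j ≥ J, m ≤ (toAS (FL k gc Gf (fun j => k + uf j) j)).cnt ∧ (∀ i < m, (toAS (FL k gc Gf (fun j => k + uf j) j)).g i = c' i)) →
      ∃ J, ∀ j ≥ J, m ≤ (toAS (FL k gc Gf (fun j => k + uf j) j)).cnt ∧ (∀ i < m, (toAS (FL k gc Gf (fun j => k + uf j) j)).g i = c' i) ∧
        m ≤ keep k (FL k gc Gf (fun j => k + uf j) j) (Gf j) := by
    rintro m ⟨J, hJ⟩
    obtain ⟨J', hJ'⟩ := eventually_atTop.1 (hC m)
    refine ⟨max (max J J') m, ?_⟩
    intro j hj
    have h1 := hJ j (by have := le_max_left (max J J') m; have := le_max_left J J'; omega)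
    have h2 := hJ' j (by have := le_max_left (max J J') m; have := le_max_right J J'; omega)
    have h3 : m ≤ j := (le_max_right _ _).trans hj
    refine ⟨h1.1, h1.2, le_trans ?_ (le_max_right _ _)⟩
    refine le_cp h1.1 (by rw [hGl]; omega) ?_
    intro i hi
    rw [h2 i hi, ← h1.2 i hi]; rfl
  intro m
  induction m with
  | zero => exact key 0 ⟨0, fun j _ => ⟨Nat.zero_le _, fun i hi => absurd hi (Nat.not_lt_zero _)⟩⟩
  | succ m ih =>
    by_cases hmk : m < k
    · apply key
      refine ⟨0, fun j _ => ⟨?_, ?_⟩⟩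
      · exact (Nat.succ_le_of_lt hmk).trans (F.bi R j).hkc
      · intro i hi
        rw [F.glow R j i (by omega), hck i (by omega)]
    · obtain ⟨J, hJ⟩ := ih
      obtain ⟨J', hJ'⟩ := eventually_atTop.1 (hC (m + 1))
      set J0 := max (max J J') (m + 1) with hJ0
      have hJ0a : J ≤ J0 := (le_max_left J J').trans (le_max_left _ _)
      have hJ0b : J' ≤ J0 := (le_max_right J J').trans (le_max_left _ _)
      have hJ0c : m + 1 ≤ J0 := le_max_right _ _
      have hkm : k ≤ m := by omega
      -- find a `new` step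
      have hnew : ∃ j1 ≥ J0, m + 1 ≤ (toAS (FL k gc Gf (fun j => k + uf j) (j1 + 1))).cnt ∧
          ∀ i < m + 1, (toAS (FL k gc Gf (fun j => k + uf j) (j1 + 1))).g i = c' i := by
        refine ⟨3 * J0 + 1, by omega, ?_⟩
        have hj1 : 3 * J0 + 1 ≥ J0 := by omega
        obtain ⟨a1, a2, a3⟩ := hJ (3 * J0 + 1) (by omega)
        have hlen : (Gf (3 * J0 + 1)).length = 3 * J0 + 1 + 1 := hGl _
        have hB := F.bi R (3 * J0 + 1)
        have hkp := keep_le (G := Gf (3 * J0 + 1)) hB
        have hcp1 : m ≤ cp (FL k gc Gf (fun j => k + uf j) (3 * J0 + 1)).2.1 (Gf (3 * J0 + 1)) := by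
          refine le_cp a1 (by rw [hlen]; omega) ?_
          intro i hi
          rw [hJ' _ (by omega) i (by omega), ← a2 i hi]; rfl
        have hkeep : keep k (FL k gc Gf (fun j => k + uf j) (3 * J0 + 1)) (Gf (3 * J0 + 1)) =
            cp (FL k gc Gf (fun j => k + uf j) (3 * J0 + 1)).2.1 (Gf (3 * J0 + 1)) := by
          unfold keep; exact max_eq_right (by omega)
        have hop := act_op hB (hGv (3 * J0 + 1)) (F.cc (3 * J0 + 1))
        have hgeq : ∀ i < keep k (FL k gc Gf (fun j => k + uf j) (3 * J0 + 1)) (Gf (3 * J0 + 1)),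
            (toAS (FL k gc Gf (fun j => k + uf j) (3 * J0 + 1 + 1))).g i = (toAS (FL k gc Gf (fun j => k + uf j) (3 * J0 + 1))).g i := hop.g_eq
        have hcnt : keep k (FL k gc Gf (fun j => k + uf j) (3 * J0 + 1)) (Gf (3 * J0 + 1)) ≤
            (toAS (FL k gc Gf (fun j => k + uf j) (3 * J0 + 1 + 1))).cnt := hop.cnt_le.1
        by_cases hM : m < keep k (FL k gc Gf (fun j => k + uf j) (3 * J0 + 1)) (Gf (3 * J0 + 1))
        · refine ⟨by omega, ?_⟩
          intro i hi
          rw [hgeq i (by omega)]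
          have h5 : (toAS (FL k gc Gf (fun j => k + uf j) (3 * J0 + 1))).g i = (Gf (3 * J0 + 1)).getD i none :=
            cp_agree (by rw [← hkeep]; omega)
          rw [h5]
          exact hJ' _ (by omega) i hi
        · have hMe : keep k (FL k gc Gf (fun j => k + uf j) (3 * J0 + 1)) (Gf (3 * J0 + 1)) = m := by omega
          have hn := act_new (k := k) (N := k + uf (3 * J0 + 1)) (j := 3 * J0 + 1)
            (E := FL k gc Gf (fun j => k + uf j) (3 * J0 + 1)) (G := Gf (3 * J0 + 1)) (by omega)
            (by rw [hMe, hlen]; omega) (by omega)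
          rw [hMe] at hn
          refine ⟨le_of_eq hn.1.symm, ?_⟩
          intro i hi
          by_cases him : i = m
          · rw [him]
            rw [show (toAS (FL k gc Gf (fun j => k + uf j) (3 * J0 + 1 + 1))).g m =
              (Gf (3 * J0 + 1)).getD m none from hn.2]
            exact hJ' _ (by omega) m (by omega)
          · rw [hgeq i (by omega)]
            exact a2 i (by omega)
      obtain ⟨j1, hj1, hn1, hn2⟩ := hnew
      apply key
      refine ⟨j1 + 1, ?_⟩
      intro j hj
      induction j, hj using Nat.le_induction with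
      | base => exact ⟨hn1, hn2⟩
      | succ j hj ihj =>
        have hB := F.bi R j
        have hkp := keep_le (G := Gf j) hB
        have hcp1 : m + 1 ≤ cp (FL k gc Gf (fun j => k + uf j) j).2.1 (Gf j) := by
          refine le_cp ihj.1 (by rw [hGl]; omega) ?_
          intro i hi
          rw [hJ' _ (by omega) i (by omega), ← ihj.2 i hi]; rfl
        have hkeep : m + 1 ≤ keep k (FL k gc Gf (fun j => k + uf j) j) (Gf j) := hcp1.trans (le_max_right _ _)
        have hop := act_op hB (hGv j) (F.cc j)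
        refine ⟨hkeep.trans hop.cnt_le.1, ?_⟩
        intro i hi
        have := hop.g_eq i (lt_of_lt_of_le hi hkeep)
        rw [show (toAS (FL k gc Gf (fun j => k + uf j) (j + 1))).g i = (toAS (FL k gc Gf (fun j => k + uf j) j)).g i from this]
        exact ihj.2 i hi

end

end Run

end Pool.Agent.Helper748.ZO

end

/-! ## Part Main2 -/

section
namespace Pool.Agent.Helper748.ZO

open Filter

/-- properties of the projection of one level to the next one -/
structure Proj (k : ℕ) (c c' : ℕ → Option ℕ) (p : ℕ → ℕ) : Prop where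
  low : ∀ i < k, p i = i
  lt : ∀ z, k ≤ z → p z < z
  mono : ∀ z z', Lt c z z' → p z = p z' ∨ Lt c' (p z) (p z')
  fin : ∀ z z', Lt c z z' → p z = p z' → {y | Lt c z y ∧ Lt c y z'}.Finite
  nomax : ∀ z, ∃ z', Lt c z z' ∧ p z' = p z
  nomin : ∀ z, p z ≠ 0 → ∃ z', Lt c z' z ∧ p z' = p z
  surj : ∀ i, ∃ z, p z = i

theorem W_main {k : ℕ} {gc c c' : ℕ → Option ℕ} {js : ℕ → ℕ} {ent : ℕ → ℕ → Entry}
    {Gd : ℕ → ℕ → OC} (R : Run k gc c js ent Gd) {Gf : ℕ → OC}
    (hO : ∀ j, ∀ᶠ u in atTop, Gd u j = Gf j)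
    (hC : ∀ m, ∀ᶠ j in atTop, ∀ i < m, (Gf j).getD i none = c' i)
    (hck : ∀ i < k, c' i = gc i) : ∃ p, Proj k c c' p := by
  have hGv : ∀ j i r, (Gf j).getD i none = some r → 1 ≤ r ∧ r < i := by
    intro j i r h
    obtain ⟨u, hu⟩ := (hO j).exists
    rw [← hu] at h
    exact R.hGv u j i r h
  have hGl : ∀ j, (Gf j).length = j + 1 := by
    intro j
    obtain ⟨u, hu⟩ := (hO j).exists
    rw [← hu]; exact R.hGl u j
  obtain ⟨uf, F⟩ := R.fin1 hO
  set fl := FL k gc Gf (fun j => k + uf j) with hfl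
  have hset := F.settled R hGv hGl hC hck
  -- the projection
  have hex : ∀ z, ∃ i, ∃ J, ∀ j ≥ J, Reg c (toAS (fl j)) z i := by
    intro z
    obtain ⟨i, hi⟩ := Reg.exists R.vc (F.bi R (z + 1)) z
    have := F.le_uf (z + 1)
    obtain ⟨i', _, J, _, hJ⟩ := F.ev R hGv i i le_rfl (z + 1) (by omega) hi
    exact ⟨i', J, hJ⟩
  choose p hp using hex
  have huniq : ∀ z i, (∃ J, ∀ j ≥ J, Reg c (toAS (fl j)) z i) → p z = i := by
    rintro z i ⟨J, hJ⟩
    obtain ⟨J', hJ'⟩ := hp z
    exact Reg.unique (F.bi R (max J J')).hv (hJ' _ (le_max_right _ _)) (hJ _ (le_max_left _ _))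
  -- upper bound from any level
  have hub : ∀ z i j, z < k + uf j → Reg c (toAS (fl j)) z i → p z ≤ i := by
    intro z i j hz hR
    obtain ⟨i', hi', J, _, hJ⟩ := F.ev R hGv i i le_rfl j hz hR
    rw [huniq z i' ⟨J, hJ⟩]; exact hi'
  -- persistence for settled labels
  have hpers : ∀ i J, (∀ j ≥ J, i < keep k (fl j) (Gf j)) → ∀ z j, J ≤ j → z < k + uf j →
      Reg c (toAS (fl j)) z i → p z = i := by
    intro i J hJ z j hj hz hR
    apply huniq
    refine ⟨j, ?_⟩
    intro j' hj'
    induction j', hj' using Nat.le_induction with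
    | base => exact hR
    | succ j' hj' ih =>
      exact (F.step R hGv (lt_of_lt_of_le hz (by have := F.mono hj'; omega)) ih).1
        (hJ j' (by omega))
  have hsetk : ∀ i, ∃ J, ∀ j ≥ J, i < keep k (fl j) (Gf j) := by
    intro i
    obtain ⟨J, hJ⟩ := hset (i + 1)
    exact ⟨J, fun j hj => (hJ j hj).2.2⟩
  refine ⟨p, ⟨?_, ?_, ?_, ?_, ?_, ?_, ?_⟩⟩
  · -- low
    intro i hi
    apply huniq
    refine ⟨0, ?_⟩
    intro j _
    induction j with
    | zero =>
      refine ⟨?_, ?_, ?_⟩
      · show i < (toAS (initE k gc)).cnt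
        rw [initE_cnt]; exact hi
      · show ¬ Lt c i ((toAS (initE k gc)).b i)
        rw [initE_b hi]; exact Lt.irrefl _ _
      · show ∀ i' < (toAS (initE k gc)).cnt, Lt (toAS (initE k gc)).g i i' →
          Lt c i ((toAS (initE k gc)).b i')
        intro i' hi' hlt
        rw [initE_cnt] at hi'
        rw [initE_b hi']
        refine (Lt.congr (n := k) ?_ hi hi').1 hlt
        intro l hl
        rw [initE_g hl, R.h0 l hl]
    | succ j ih =>
      exact (F.step R hGv (by omega) (ih (Nat.zero_le _))).1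
        (lt_of_lt_of_le hi (keep_le (G := Gf j) (F.bi R j)).1)
  · -- lt
    intro z hz
    classical
    obtain ⟨u, rfl⟩ : ∃ u, z = k + u := ⟨z - k, by omega⟩
    have hexJ : ∃ J, u < uf J := ⟨u + 1, by have := F.le_uf (u + 1); omega⟩
    have h1 := Nat.find_spec hexJ
    have h2 := fun m => Nat.find_min hexJ (m := m)
    set J := Nat.find hexJ
    obtain ⟨i, hi⟩ := Reg.exists R.vc (F.bi R J) (k + u)
    have h3 := hub (k + u) i J (by omega) hi
    have h4 : (toAS (fl J)).cnt ≤ k + (J - 1) := F.cnt R J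
    have h5 : i < (toAS (fl J)).cnt := hi.1
    rcases Nat.eq_zero_or_pos J with h | h
    · have h6 : (toAS (fl 0)).cnt = k := initE_cnt k gc
      rw [h] at h5
      omega
    · have h6 := h2 (J - 1) (by omega)
      have h7 := F.le_uf (J - 1)
      omega
  · -- mono
    intro z z' hzz
    obtain ⟨J1, hJ1⟩ := hp z
    obtain ⟨J2, hJ2⟩ := hp z'
    obtain ⟨J3, hJ3⟩ := hset (max (p z) (p z') + 1)
    set J := max (max J1 J2) J3
    have a1 : J1 ≤ J := (le_max_left J1 J2).trans (le_max_left _ _)
    have a2 : J2 ≤ J := (le_max_right J1 J2).trans (le_max_left _ _)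
    have a3 : J3 ≤ J := le_max_right _ _
    rcases Reg.mono R.vc (F.bi R J).hv hzz (hJ1 J a1) (hJ2 J a2) with h | h
    · exact Or.inl h
    · refine Or.inr ?_
      have := (hJ3 J a3).2.1
      exact (Lt.congr this (by have := le_max_left (p z) (p z'); omega)
        (by have := le_max_right (p z) (p z'); omega)).1 h
  · -- fin
    intro z z' hzz hpe
    obtain ⟨J1, hJ1⟩ := hp z
    obtain ⟨J2, hJ2⟩ := hp z'
    set J := max (max J1 J2) (z + z' + 1)
    have a1 : J1 ≤ J + 1 := ((le_max_left J1 J2).trans (le_max_left _ _)).trans (Nat.le_succ _)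
    have a2 : J2 ≤ J + 1 := ((le_max_right J1 J2).trans (le_max_left _ _)).trans (Nat.le_succ _)
    have a3 : z + z' + 1 ≤ J := le_max_right _ _
    have a4 := F.le_uf J
    have hnc : NC c (toAS (fl (J + 1))) z z' :=
      NC.of_reg R.vc (F.bi R (J + 1)).hv (F.oi R (J + 1)) (hJ1 _ a1)
        (by rw [hpe]; exact hJ2 _ a2)
    have hent : ent (uf J + 1) (J + 1) = fl (J + 1) := F.ent_eq (J + 1) (uf J + 1)
      (Or.inr (Nat.lt_succ_self _))
    have hnb := R.not_between (u0 := uf J + 1) (j0 := J + 1) (z := z) (z' := z')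
      (fun u hu => F.js_ge J u (by omega)) (by omega) (by omega) (by rw [hent]; exact hnc)
      (by show js (uf J) + 1 = J + 1; rw [F.js_eq J])
    refine (Set.finite_lt_nat (k + (uf J + 1))).subset ?_
    rintro y ⟨hy1, hy2⟩
    by_contra hcon
    have hcon : k + (uf J + 1) ≤ y := not_lt.1 hcon
    obtain ⟨u, rfl⟩ : ∃ u, y = k + u := ⟨y - k, by omega⟩
    exact hnb u (by omega) ⟨hy1, Lt.asymm R.vc hy2⟩
  · -- nomax
    intro z
    obtain ⟨J1, hJ1⟩ := hp z
    obtain ⟨J2, hJ2⟩ := hsetk (p z)
    set n := J1 + J2 + z + 1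
    set j := 3 * Nat.pair (p z) n
    have hn : n ≤ Nat.pair (p z) n := Nat.right_le_pair _ _
    have hju := F.le_uf j
    have hun : (j / 3).unpair.1 = p z := by
      have : j / 3 = Nat.pair (p z) n := by omega
      rw [this, Nat.unpair_pair]
    have := act_rgt (F.bi R j) (F.oi R j) R.vc (F.cc j) (i0 := p z) (by omega) hun
      (hJ2 j (by omega))
    refine ⟨k + uf j, this.2 z (by omega) (hJ1 j (by omega)), ?_⟩
    exact hpers (p z) J2 hJ2 (k + uf j) (j + 1) (by omega) (by have := F.smono j; omega) this.1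
  · -- nomin
    intro z hz0
    obtain ⟨J1, hJ1⟩ := hp z
    obtain ⟨J2, hJ2⟩ := hsetk (p z)
    set n := J1 + J2 + z + 1
    set j := 3 * Nat.pair (p z) n + 2
    have hn : n ≤ Nat.pair (p z) n := Nat.right_le_pair _ _
    have hju := F.le_uf j
    have hun : (j / 3).unpair.1 = p z := by
      have : j / 3 = Nat.pair (p z) n := by omega
      rw [this, Nat.unpair_pair]
    have := act_lft (F.bi R j) (F.oi R j) R.vc (F.cc j) (i0 := p z) (by omega) hun
      (by omega) (hJ2 j (by omega))
    refine ⟨k + uf j, this.2 z (by omega) (hJ1 j (by omega)), ?_⟩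
    exact hpers (p z) J2 hJ2 (k + uf j) (j + 1) (by omega) (by have := F.smono j; omega) this.1
  · -- surj
    intro i
    obtain ⟨J2, hJ2⟩ := hsetk i
    set n := J2 + 1
    set j := 3 * Nat.pair i n
    have hn : n ≤ Nat.pair i n := Nat.right_le_pair _ _
    have hju := F.le_uf j
    have hun : (j / 3).unpair.1 = i := by
      have : j / 3 = Nat.pair i n := by omega
      rw [this, Nat.unpair_pair]
    have := act_rgt (F.bi R j) (F.oi R j) R.vc (F.cc j) (i0 := i) (by omega) hun
      (hJ2 j (by omega))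
    refine ⟨k + uf j, ?_⟩
    exact hpers i J2 hJ2 (k + uf j) (j + 1) (by omega) (by have := F.smono j; omega) this.1

end Pool.Agent.Helper748.ZO

end

/-! ## Part Lim -/

section
namespace Pool.Agent.Helper748.ZO

open Filter

/-! ### The concrete step -/

def sn (i : ℕ) (o : Option ℕ) : Option ℕ :=
  o.bind (fun r => if 1 ≤ r ∧ r < i then some r else none)

theorem sn_valid {i r : ℕ} {o : Option ℕ} (h : sn i o = some r) : 1 ≤ r ∧ r < i := by
  cases o with
  | none => simp [sn] at h
  | some r' =>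
    simp only [sn, Option.bind_some] at h
    split_ifs at h with h1
    · simp only [Option.some.injEq] at h; omega

theorem sn_of_valid {i : ℕ} {o : Option ℕ} (h : ∀ r, o = some r → 1 ≤ r ∧ r < i) :
    sn i o = o := by
  cases o with
  | none => simp [sn]
  | some r' =>
    simp only [sn, Option.bind_some]
    rw [if_pos (h r' rfl)]

def gtr (n : ℕ) (l : OC) : OC := (List.range n).map (fun i => sn i (l.getD i none))

theorem gtr_length (n : ℕ) (l : OC) : (gtr n l).length = n := by simp [gtr]

theorem gtr_getD {n : ℕ} {l : OC} {i : ℕ} (hi : i < n) :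
    (gtr n l).getD i none = sn i (l.getD i none) := getD_map_range n _ none i hi

theorem gtr_valid (n : ℕ) (l : OC) (i r : ℕ) (h : (gtr n l).getD i none = some r) :
    1 ≤ r ∧ r < i := by
  by_cases hi : i < n
  · rw [gtr_getD hi] at h; exact sn_valid h
  · unfold gtr at h
    rw [getD_map_range' _ _ _ _ hi] at h
    exact absurd h (by simp)

theorem gtr_congr {n : ℕ} {l l' : OC} (h : ∀ i < n, l.getD i none = l'.getD i none) :
    gtr n l = gtr n l' := by
  unfold gtr
  apply List.map_congr_left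
  intro i hi
  rw [h i (List.mem_range.1 hi)]

def dE : Entry := ([], [], [])

/-- index of the entry which is pushed -/
def Jst (stk : List Entry) (Os : List OC) : ℕ :=
  lead (fun j => decide ((stk.getD j dE).1 = gtr (j + 1) (Os.getD j []))) stk.length

def step (gc : ℕ → Option ℕ) (k : ℕ) (st : St) (Os : List OC) : St :=
  let js := Jst st.2 Os
  let r := act k (if js = 0 then initE k gc else st.2.getD (js - 1) dE)
    (gtr (js + 1) (Os.getD js [])) st.1.length js
  (st.1 ++ [r.1], (List.range js).map (fun i => st.2.getD i dE) ++ [r.2])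

/-- a run of the concrete step -/
structure SRun (gc : ℕ → Option ℕ) (k : ℕ) (S : ℕ → St) (Os : ℕ → List OC) : Prop where
  hk : 1 ≤ k
  hgc : VC gc
  s0 : S 0 = ((List.range k).map gc, [])
  ss : ∀ u, S (u + 1) = step gc k (S u) (Os u)

def codeOf (S : ℕ → St) (m : ℕ) : Option ℕ := (S (m + 1)).1.getD m none

namespace SRun

variable {gc : ℕ → Option ℕ} {k : ℕ} {S : ℕ → St} {Os : ℕ → List OC}

theorem len (R : SRun gc k S Os) (u : ℕ) : (S u).1.length = k + u := by
  induction u with
  | zero => rw [R.s0]; simp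
  | succ u ih => rw [R.ss]; simp [step, ih]; omega

theorem pref (R : SRun gc k S Os) {u u' : ℕ} (h : u ≤ u') {i : ℕ} (hi : i < k + u) :
    (S u').1.getD i none = (S u).1.getD i none := by
  induction u', h using Nat.le_induction with
  | base => rfl
  | succ u' hu' ih =>
    rw [← ih, R.ss]
    simp only [step]
    rw [List.getD_append _ _ _ _ (by rw [R.len]; omega)]

theorem code_low (R : SRun gc k S Os) {i : ℕ} (hi : i < k) : codeOf S i = gc i := by
  unfold codeOf
  rw [R.pref (Nat.zero_le _) (by omega), R.s0]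
  exact getD_map_range _ _ _ _ hi

theorem code_eq (R : SRun gc k S Os) {u i : ℕ} (hi : i < k + u) :
    (S u).1.getD i none = codeOf S i := by
  unfold codeOf
  rcases le_total u (i + 1) with h | h
  · exact (R.pref h hi).symm
  · exact R.pref h (by have := R.hk; omega)

theorem toRun (R : SRun gc k S Os) :
    Run k gc (codeOf S) (fun u => Jst (S u).2 (Os u))
      (fun u i => if i = 0 then initE k gc else (S u).2.getD (i - 1) dE)
      (fun u j => gtr (j + 1) ((Os u).getD j [])) := by
  have hlen : ∀ u, (S (u + 1)).2.length = Jst (S u).2 (Os u) + 1 := by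
    intro u; rw [R.ss]; simp [step]
  have hold : ∀ u i, i < Jst (S u).2 (Os u) → (S (u + 1)).2.getD i dE = (S u).2.getD i dE := by
    intro u i hi
    rw [R.ss]
    simp only [step]
    rw [List.getD_append _ _ _ _ (by simpa using hi)]
    exact getD_map_range _ _ _ _ hi
  have hnew : ∀ u, (S (u + 1)).2.getD (Jst (S u).2 (Os u)) dE =
      (act k (if Jst (S u).2 (Os u) = 0 then initE k gc
          else (S u).2.getD (Jst (S u).2 (Os u) - 1) dE)
        (gtr (Jst (S u).2 (Os u) + 1) ((Os u).getD (Jst (S u).2 (Os u)) []))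
        (S u).1.length (Jst (S u).2 (Os u))).2 := by
    intro u
    rw [R.ss]
    simp only [step]
    rw [List.getD_append_right _ _ _ _ (by simp)]
    simp
  refine ⟨R.hk, R.hgc, fun i hi => R.code_low hi, ?_, ?_, ?_, ?_, ?_, ?_, ?_, ?_, ?_, ?_⟩
  · intro u; simp
  · show Jst (S 0).2 (Os 0) = 0
    rw [R.s0]; rfl
  · intro u i hi
    show (if i = 0 then _ else _) = (if i = 0 then _ else _)
    by_cases h0 : i = 0
    · simp [h0]
    · rw [if_neg h0, if_neg h0]
      have hi' : i ≤ Jst (S u).2 (Os u) := hi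
      exact hold u (i - 1) (by omega)
  · intro u
    simp only [Nat.add_eq_zero_iff, one_ne_zero, and_false, if_false, Nat.add_sub_cancel]
    rw [hnew u, R.len u]
  · intro u
    have h1 : codeOf S (k + u) = (S (u + 1)).1.getD (k + u) none :=
      (R.code_eq (by omega)).symm
    rw [h1, R.ss]
    simp only [step]
    rw [List.getD_append_right _ _ _ _ (by rw [R.len])]
    rw [R.len]
    simp
  · intro u
    show Jst (S (u + 1)).2 (Os (u + 1)) ≤ Jst (S u).2 (Os u) + 1
    rw [← hlen u]; exact lead_le _ _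
  · intro u j hj
    simp only [Nat.add_eq_zero_iff, one_ne_zero, and_false, if_false, Nat.add_sub_cancel]
    have := lead_lt hj
    simpa using this
  · intro u hu
    have hu : Jst (S (u + 1)).2 (Os (u + 1)) < Jst (S u).2 (Os u) + 1 := hu
    simp only [Nat.add_eq_zero_iff, one_ne_zero, and_false, if_false, Nat.add_sub_cancel]
    rw [← hlen u] at hu
    have := lead_not hu
    exact of_decide_eq_false this
  · intro u j i r h; exact gtr_valid _ _ i r h
  · intro u j; exact gtr_length _ _

theorem vc (R : SRun gc k S Os) : VC (codeOf S) := R.toRun.vc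

end SRun

/-! ### Iterated limits -/

/-- the filter of iterated limits over `r` variables (outermost variable first) -/
noncomputable def Fl : ℕ → Filter (List ℕ)
  | 0 => pure []
  | r + 1 => (atTop : Filter ℕ).bind (fun t => (Fl r).map (List.cons t))

theorem ev_Fl_zero {p : List ℕ → Prop} : (∀ᶠ L in Fl 0, p L) ↔ p [] := by
  simp [Fl]

theorem ev_Fl_succ {r : ℕ} {p : List ℕ → Prop} :
    (∀ᶠ L in Fl (r + 1), p L) ↔ ∀ᶠ t in atTop, ∀ᶠ L in Fl r, p (t :: L) := by
  show (∀ᶠ L in (atTop : Filter ℕ).bind (fun t => (Fl r).map (List.cons t)), p L) ↔ _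
  rw [Filter.eventually_bind]
  simp only [Filter.eventually_map]

instance Fl_neBot (r : ℕ) : (Fl r).NeBot := by
  induction r with
  | zero => exact Filter.pure_neBot
  | succ r ih =>
    refine ⟨fun h => ?_⟩
    have h1 : ∀ᶠ L in Fl (r + 1), False := by rw [h]; simp
    rw [ev_Fl_succ] at h1
    obtain ⟨t, ht⟩ := h1.exists
    obtain ⟨L, hL⟩ := ht.exists
    exact hL

theorem ev_Fl_length (r : ℕ) : ∀ᶠ L in Fl r, L.length = r := by
  induction r with
  | zero => rw [ev_Fl_zero]; rfl
  | succ r ih =>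
    rw [ev_Fl_succ]
    refine Eventually.of_forall (fun t => ?_)
    filter_upwards [ih] with L hL
    simp [hL]

/-- stably convergent functions on lists -/
def Conv {α : Type*} (G : List ℕ → α) : Prop :=
  ∀ (P : List ℕ) (r : ℕ), ∃ a, ∀ᶠ L in Fl r, G (P ++ L) = a

open Classical in
/-- the limit along `Fl r` with prefix `P` -/
noncomputable def lm {α : Type*} (G : List ℕ → α) (hG : Conv G) (r : ℕ) (P : List ℕ) : α :=
  (hG P r).choose

theorem lm_spec {α : Type*} {G : List ℕ → α} (hG : Conv G) (r : ℕ) (P : List ℕ) :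
    ∀ᶠ L in Fl r, G (P ++ L) = lm G hG r P := (hG P r).choose_spec

theorem lm_eq {α : Type*} {G : List ℕ → α} (hG : Conv G) {r : ℕ} {P : List ℕ} {a : α}
    (h : ∀ᶠ L in Fl r, G (P ++ L) = a) : lm G hG r P = a := by
  obtain ⟨L, h1, h2⟩ := (h.and (lm_spec hG r P)).exists
  rw [← h1, h2]

theorem lm_succ {α : Type*} {G : List ℕ → α} (hG : Conv G) (r : ℕ) (P : List ℕ) :
    ∀ᶠ t in atTop, lm G hG r (P ++ [t]) = lm G hG (r + 1) P := by
  have h := lm_spec hG (r + 1) P
  rw [ev_Fl_succ] at h
  filter_upwards [h] with t ht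
  apply lm_eq
  filter_upwards [ht] with L hL
  rw [← hL]; simp

/-- the master recursion -/
def X (gc : ℕ → Option ℕ) (kf : List ℕ → ℕ) : ℕ → List ℕ → St
  | 0, L => ((List.range (kf L)).map gc, [])
  | u + 1, L => step gc (kf L) (X gc kf u L)
      ((List.range (u + 1)).map (fun s => (X gc kf u (s :: u :: L)).1))

theorem X_conv (gc : ℕ → Option ℕ) {kf : List ℕ → ℕ} (hk : Conv kf) (u : ℕ) :
    Conv (X gc kf u) := by
  induction u with
  | zero =>
    intro P r
    obtain ⟨a, ha⟩ := hk P r
    refine ⟨((List.range a).map gc, []), ?_⟩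
    filter_upwards [ha] with L hL
    simp only [X, hL]
  | succ u ih =>
    intro P r
    obtain ⟨a, ha⟩ := hk P r
    obtain ⟨b, hb⟩ := ih P r
    choose f hf using fun s : ℕ => ih (s :: u :: P) r
    refine ⟨step gc a b ((List.range (u + 1)).map (fun s => (f s).1)), ?_⟩
    have hall : ∀ᶠ L in Fl r, ∀ s ∈ Finset.range (u + 1),
        X gc kf u ((s :: u :: P) ++ L) = f s :=
      (Finset.eventually_all _).2 (fun s _ => hf s)
    filter_upwards [ha, hb, hall] with L h1 h2 h3
    simp only [X, h1, h2]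
    congr 1
    apply List.map_congr_left
    intro s hs
    have := h3 s (Finset.mem_range.2 (List.mem_range.1 hs))
    simp only [List.cons_append] at this
    rw [this]

section

variable (gc : ℕ → Option ℕ) {kf : List ℕ → ℕ} (hk : Conv kf)

/-- limit states -/
noncomputable def XL (r u : ℕ) (P : List ℕ) : St := lm (X gc kf u) (X_conv gc hk u) r P

theorem XL_zero (r : ℕ) (P : List ℕ) :
    XL gc hk r 0 P = ((List.range (lm kf hk r P)).map gc, []) := by
  apply lm_eq
  filter_upwards [lm_spec hk r P] with L hL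
  simp only [X, hL]

theorem XL_succ (r u : ℕ) (P : List ℕ) :
    XL gc hk r (u + 1) P = step gc (lm kf hk r P) (XL gc hk r u P)
      ((List.range (u + 1)).map (fun s => (XL gc hk r u (s :: u :: P)).1)) := by
  apply lm_eq
  have hall : ∀ᶠ L in Fl r, ∀ s ∈ Finset.range (u + 1),
      X gc kf u ((s :: u :: P) ++ L) = XL gc hk r u (s :: u :: P) :=
    (Finset.eventually_all _).2 (fun s _ => lm_spec (X_conv gc hk u) r (s :: u :: P))
  filter_upwards [lm_spec hk r P, lm_spec (X_conv gc hk u) r P, hall] with L h1 h2 h3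
  simp only [X, h1, h2]
  congr 1
  apply List.map_congr_left
  intro s hs
  have := h3 s (Finset.mem_range.2 (List.mem_range.1 hs))
  simp only [List.cons_append] at this
  rw [this]

theorem lm_ge {r : ℕ} {P : List ℕ} (h1 : ∀ L, 1 ≤ kf L) : 1 ≤ lm kf hk r P := by
  obtain ⟨L, hL⟩ := (lm_spec hk r P).exists
  rw [← hL]; exact h1 _

theorem XL_run (hgc : VC gc) (h1 : ∀ L, 1 ≤ kf L) (r : ℕ) (P : List ℕ) :
    SRun gc (lm kf hk r P) (fun u => XL gc hk r u P)
      (fun u => (List.range (u + 1)).map (fun s => (XL gc hk r u (s :: u :: P)).1)) :=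
  ⟨lm_ge hk h1, hgc, XL_zero gc hk r P, fun u => XL_succ gc hk r u P⟩

/-- the code of level `n` -/
noncomputable def cL (n : ℕ) : ℕ → Option ℕ := codeOf (fun u => XL gc hk (2 * n) u [])

/-- number of special elements at level `n` -/
noncomputable def kL (n : ℕ) : ℕ := lm kf hk (2 * n) []

theorem cL_vc (hgc : VC gc) (h1 : ∀ L, 1 ≤ kf L) (n : ℕ) : VC (cL gc hk n) :=
  (XL_run gc hk hgc h1 (2 * n) []).vc

theorem level (hgc : VC gc) (h1 : ∀ L, 1 ≤ kf L) (n : ℕ) (hmono : kL hk n ≤ kL hk (n + 1)) :
    ∃ p, Proj (kL hk n) (cL gc hk n) (cL gc hk (n + 1)) p := by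
  have R := XL_run gc hk hgc h1 (2 * n) []
  have R' := XL_run gc hk hgc h1 (2 * n + 2) []
  refine W_main R.toRun (Gf := fun j => gtr (j + 1) (XL gc hk (2 * n + 1) j [j]).1) ?_ ?_ ?_
  · intro j
    have h2 := lm_succ (X_conv gc hk j) (2 * n) [j]
    filter_upwards [h2, eventually_ge_atTop j] with u hu hju
    have h3 : ((List.range (u + 1)).map
        (fun s => (XL gc hk (2 * n) u (s :: u :: [])).1)).getD j [] =
        (XL gc hk (2 * n) u [j, u]).1 := getD_map_range _ _ _ _ (by omega)
    rw [h3]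
    apply gtr_congr
    intro i hi
    have Rj := XL_run gc hk hgc h1 (2 * n) [j, u]
    have h4 := Rj.pref hju (i := i) (by have := Rj.hk; omega)
    rw [h4]
    have h5 : XL gc hk (2 * n) j [j, u] = XL gc hk (2 * n + 1) j [j] := hu
    rw [h5]
  · intro m
    have h2 := lm_succ (X_conv gc hk m) (2 * n + 1) []
    filter_upwards [h2, eventually_ge_atTop m] with j hj hmj
    intro i hi
    rw [gtr_getD (by omega)]
    have Rj := XL_run gc hk hgc h1 (2 * n + 1) [j]
    rw [Rj.pref hmj (i := i) (by have := Rj.hk; omega)]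
    have h5 : XL gc hk (2 * n + 1) m [j] = XL gc hk (2 * n + 2) m [] := hj
    rw [h5]
    have h6 : (XL gc hk (2 * n + 2) m []).1.getD i none = cL gc hk (n + 1) i :=
      R'.code_eq (u := m) (i := i) (by have := R'.hk; omega)
    rw [h6]
    exact sn_of_valid (cL_vc gc hk hgc h1 (n + 1) i)
  · intro i hi
    exact R'.code_low (lt_of_lt_of_le hi hmono)

end

end Pool.Agent.Helper748.ZO

end

/-! ## Part Iso -/

section
namespace Pool.Agent.Helper748.ZO

/-- coordinates on the fibres of one projection -/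
theorem fiberCoord {A B : Type} [LinearOrder A] (q : A → B)
    (hfin : ∀ x y : A, q x = q y → x ≤ y → {z | x ≤ z ∧ z ≤ y ∧ q z = q x}.Finite)
    (hmax : ∀ x : A, ∃ y, x < y ∧ q y = q x) (hmin : ∀ x : A, ∃ y, y < x ∧ q y = q x)
    (β : B → A) (hβ : ∀ y, q (β y) = y) :
    ∃ d : A → ℤ, (∀ x x', q x = q x' → (x < x' ↔ d x < d x')) ∧ (∀ y, d (β y) = 0) ∧
      (∀ y z, ∃ x, q x = y ∧ d x = z) := by
  classical
  have key : ∀ y : B, ∃ φ : {x : A // q x = y} ≃o ℤ, φ ⟨β y, hβ y⟩ = 0 := by
    intro y
    have : Nonempty {x : A // q x = y} := ⟨⟨β y, hβ y⟩⟩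
    have : NoMaxOrder {x : A // q x = y} := by
      refine ⟨fun a => ?_⟩
      obtain ⟨b, hb, hb'⟩ := hmax a.1
      exact ⟨⟨b, hb'.trans a.2⟩, hb⟩
    have : NoMinOrder {x : A // q x = y} := by
      refine ⟨fun a => ?_⟩
      obtain ⟨b, hb, hb'⟩ := hmin a.1
      exact ⟨⟨b, hb'.trans a.2⟩, hb⟩
    have hf : ∀ a b : {x : A // q x = y}, (Set.Icc a b).Finite := by
      intro a b
      by_cases hab : a ≤ b
      · have h1 := hfin a.1 b.1 (a.2.trans b.2.symm) hab
        refine Set.Finite.of_finite_image (f := Subtype.val) (h1.subset ?_)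
          Subtype.val_injective.injOn
        rintro _ ⟨z, hz, rfl⟩
        exact ⟨hz.1, hz.2, z.2.trans a.2.symm⟩
      · rw [Set.Icc_eq_empty hab]; exact Set.finite_empty
    let _ : LocallyFiniteOrder {x : A // q x = y} := LocallyFiniteOrder.ofFiniteIcc hf
    let _ : SuccOrder {x : A // q x = y} := LinearLocallyFiniteOrder.succOrder _
    let _ : PredOrder {x : A // q x = y} := LinearLocallyFiniteOrder.predOrder _
    let φ : {x : A // q x = y} ≃o ℤ := orderIsoIntOfLinearSuccPredArch
    refine ⟨φ.trans (OrderIso.addRight (-(φ ⟨β y, hβ y⟩))), ?_⟩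
    simp
  choose φ hφ using key
  refine ⟨fun x => φ (q x) ⟨x, rfl⟩, ?_, ?_, ?_⟩
  · intro x x' h
    have h1 : ∀ (y y' : B) (hy : y = y') (hx : q x = y) (hx' : q x' = y'),
        (x < x' ↔ φ y ⟨x, hx⟩ < φ y' ⟨x', hx'⟩) := by
      rintro y _ rfl hx hx'
      rw [(φ y).lt_iff_lt]
      exact Iff.rfl
    exact h1 (q x) (q x') h rfl rfl
  · intro y
    have h1 : ∀ (y' : B) (hy : q (β y) = y'), y' = y → φ y' ⟨β y, hy⟩ = 0 := by
      rintro _ hy rfl
      exact hφ _
    exact h1 (q (β y)) rfl (hβ y)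
  · intro y z
    refine ⟨((φ y).symm z).1, ((φ y).symm z).2, ?_⟩
    have h1 : ∀ (y' : B) (hy : q ((φ y).symm z).1 = y'), y' = y →
        φ y' ⟨((φ y).symm z).1, hy⟩ = z := by
      rintro _ hy rfl
      exact (φ _).apply_symm_apply z
    exact h1 _ rfl ((φ y).symm z).2

/-- iterated projections -/
def pj {X : ℕ → Type} (q : ∀ m, X m → X (m + 1)) : ∀ m, X 0 → X m
  | 0, x => x
  | m + 1, x => q m (pj q m x)

theorem iso_abstract (X : ℕ → Type) [∀ m, LinearOrder (X m)] (Y : Type) [LinearOrder Y]
    (q : ∀ m, X m → X (m + 1)) (hq : ∀ m, Monotone (q m))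
    (hfin : ∀ m, ∀ x y : X m, q m x = q m y → x ≤ y →
      {z | x ≤ z ∧ z ≤ y ∧ q m z = q m x}.Finite)
    (hmax : ∀ m, ∀ x : X m, ∃ y, x < y ∧ q m y = q m x)
    (hmin : ∀ m, ∀ x : X m, ∃ y, y < x ∧ q m y = q m x)
    (β : ∀ m, X (m + 1) → X m) (hβ : ∀ m y, q m (β m y) = y)
    (ι : X 0 → Y) (hιm : Monotone ι)
    (hιs : Function.Surjective ι)
    (hιi : ∀ x y : X 0, ι x = ι y ↔ ∃ m, pj q m x = pj q m y)
    (hstab : ∀ x : X 0, ∃ m0, ∀ m ≥ m0, pj q m x = β m (pj q (m + 1) x)) :
    Nonempty (X 0 ≃o Lex (Y × Lex (ℕᵒᵈ →₀ ℤ))) := by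
  classical
  have hd : ∀ m, ∃ d : X m → ℤ, (∀ x x', q m x = q m x' → (x < x' ↔ d x < d x')) ∧
      (∀ y, d (β m y) = 0) ∧ (∀ y z, ∃ x, q m x = y ∧ d x = z) :=
    fun m => fiberCoord (q m) (hfin m) (hmax m) (hmin m) (β m) (hβ m)
  choose d hd1 hd2 hd3 using hd
  have hpj : ∀ m, Monotone (pj q m) := by
    intro m
    induction m with
    | zero => exact monotone_id
    | succ m ih => exact (hq m).comp ih
  have hpeq : ∀ {x y : X 0} {m : ℕ}, pj q m x = pj q m y → ∀ i ≥ m, pj q i x = pj q i y := by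
    intro x y m h i hi
    induction i, hi using Nat.le_induction with
    | base => exact h
    | succ i hi ih => show q i _ = q i _; rw [ih]
  have hsupp : ∀ x : X 0, (Function.support (fun m : ℕᵒᵈ => d (OrderDual.ofDual m)
      (pj q (OrderDual.ofDual m) x))).Finite := by
    intro x
    obtain ⟨m0, hm0⟩ := hstab x
    refine (Set.finite_lt_nat m0).subset ?_
    intro m hm
    by_contra hcon
    have hcon : m0 ≤ OrderDual.ofDual m := not_lt.1 hcon
    apply hm
    show d (OrderDual.ofDual m) (pj q (OrderDual.ofDual m) x) = 0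
    rw [hm0 _ hcon, hd2]
  let Φ : X 0 → Lex (Y × Lex (ℕᵒᵈ →₀ ℤ)) := fun x =>
    toLex (ι x, toLex (Finsupp.ofSupportFinite _ (hsupp x)))
  have hmono : StrictMono Φ := by
    intro x y hxy
    rw [Prod.Lex.lt_iff]
    rcases lt_or_eq_of_le (hιm hxy.le) with h | h
    · exact Or.inl h
    · refine Or.inr ⟨h, ?_⟩
      have hex := (hιi x y).1 h
      have h1 := Nat.find_spec hex
      have h2 := fun m => Nat.find_min hex (m := m)
      set m := Nat.find hex
      have hm0 : m ≠ 0 := by
        intro h0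
        rw [h0] at h1
        exact hxy.ne h1
      obtain ⟨m', hm'⟩ : ∃ m', m = m' + 1 := ⟨m - 1, by omega⟩
      have h3 := h2 m' (by omega)
      rw [hm'] at h1
      have h4 : pj q m' x < pj q m' y := lt_of_le_of_ne (hpj m' hxy.le) h3
      have h5 : d m' (pj q m' x) < d m' (pj q m' y) := (hd1 m' _ _ h1).1 h4
      refine ⟨OrderDual.toDual m', ?_, h5⟩
      intro j hj
      have hj : m' < OrderDual.ofDual j := hj
      show d (OrderDual.ofDual j) (pj q (OrderDual.ofDual j) x) =
        d (OrderDual.ofDual j) (pj q (OrderDual.ofDual j) y)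
      rw [hpeq h1 (OrderDual.ofDual j) hj]
  have hlift : ∀ m, ∀ (w : X m) (s : ℕ → ℤ), ∃ x' : X 0, pj q m x' = w ∧
      ∀ i < m, d i (pj q i x') = s i := by
    intro m
    induction m with
    | zero => intro w s; exact ⟨w, rfl, fun i hi => absurd hi (Nat.not_lt_zero _)⟩
    | succ m ih =>
      intro w s
      obtain ⟨w', hw1, hw2⟩ := hd3 m w (s m)
      obtain ⟨x', hx1, hx2⟩ := ih w' s
      refine ⟨x', ?_, ?_⟩
      · show q m (pj q m x') = w
        rw [hx1, hw1]
      · intro i hi
        by_cases him : i = m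
        · subst him; rw [hx1, hw2]
        · exact hx2 i (by omega)
  have hsurj : Function.Surjective Φ := by
    intro t
    obtain ⟨x, hx⟩ := hιs (ofLex t).1
    obtain ⟨m0, hm0⟩ := hstab x
    set s : ℕᵒᵈ →₀ ℤ := ofLex (ofLex t).2 with hs
    obtain ⟨M', hM'⟩ : ∃ M' : ℕ, ∀ i : ℕ, s (OrderDual.toDual i) ≠ 0 → i < M' := by
      refine ⟨(s.support.image OrderDual.ofDual).sup id + 1, ?_⟩
      intro i hi
      have : i ∈ s.support.image OrderDual.ofDual :=
        Finset.mem_image.2 ⟨OrderDual.toDual i, Finsupp.mem_support_iff.2 hi, rfl⟩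
      have := Finset.le_sup (f := id) this
      exact Nat.lt_succ_of_le this
    obtain ⟨x', hx1, hx2⟩ := hlift (max m0 M') (pj q (max m0 M') x)
      (fun i => s (OrderDual.toDual i))
    refine ⟨x', ?_⟩
    have hιx : ι x' = (ofLex t).1 := by
      rw [← hx]; exact (hιi _ _).2 ⟨_, hx1⟩
    have hfs : Finsupp.ofSupportFinite _ (hsupp x') = s := by
      ext j
      show d (OrderDual.ofDual j) (pj q (OrderDual.ofDual j) x') = s j
      by_cases hj : OrderDual.ofDual j < max m0 M'
      · exact hx2 _ hj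
      · have hj : max m0 M' ≤ OrderDual.ofDual j := not_lt.1 hj
        rw [hpeq hx1 _ hj, hm0 _ ((le_max_left _ _).trans hj), hd2]
        by_contra hcon
        have := hM' (OrderDual.ofDual j) (fun h => hcon h.symm)
        exact absurd ((le_max_right m0 M').trans hj) (by omega)
    show toLex (ι x', toLex (Finsupp.ofSupportFinite _ (hsupp x'))) = t
    rw [hιx, hfs, hs]
    rfl
  exact ⟨StrictMono.orderIsoOfSurjective Φ hmono hsurj⟩

/-- a finite direct limit has no densely ordered subset -/
theorem scattered_abstract (X : ℕ → Type) [∀ m, LinearOrder (X m)] (Y : Type)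
    (q : ∀ m, X m → X (m + 1)) (hq : ∀ m, Monotone (q m))
    (hfin : ∀ m, ∀ x y : X m, q m x = q m y → x ≤ y →
      {z | x ≤ z ∧ z ≤ y ∧ q m z = q m x}.Finite)
    (ι : X 0 → Y) (hιf : (Set.range ι).Finite)
    (hιi : ∀ x y : X 0, ι x = ι y → ∃ m, pj q m x = pj q m y)
    (S : Set (X 0)) (h1 : ∃ a ∈ S, ∃ b ∈ S, a < b)
    (h2 : ∀ a ∈ S, ∀ b ∈ S, a < b → ∃ z ∈ S, a < z ∧ z < b) : False := by
  classical
  have hpj : ∀ m, Monotone (pj q m) := by
    intro m
    induction m with
    | zero => exact monotone_id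
    | succ m ih => exact (hq m).comp ih
  have hinf : ∀ a ∈ S, ∀ b ∈ S, a < b → {z | z ∈ S ∧ a ≤ z ∧ z ≤ b}.Infinite := by
    intro a ha b hb hab hf
    have hf' : {z | z ∈ S ∧ a < z ∧ z ≤ b}.Finite :=
      hf.subset (fun z hz => ⟨hz.1, hz.2.1.le, hz.2.2⟩)
    obtain ⟨z0, hz0, hmin⟩ := hf'.exists_minimal ⟨b, hb, hab, le_rfl⟩
    obtain ⟨z, hz, hz1, hz2⟩ := h2 a ha z0 hz0.1 hz0.2.1
    have := hmin ⟨hz, hz1, hz2.le.trans hz0.2.2⟩ hz2.le
    exact absurd this (not_le.2 hz2)
  have hpair : ∃ m, ∃ a ∈ S, ∃ b ∈ S, a < b ∧ pj q m a = pj q m b := by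
    obtain ⟨a, ha, b, hb, hab⟩ := h1
    have hI := hinf a ha b hb hab
    obtain ⟨x, hx, y, hy, hxy, hf⟩ := hI.exists_ne_map_eq_of_mapsTo
      (f := ι) (t := Set.range ι) (fun z _ => ⟨z, rfl⟩) hιf
    obtain ⟨m, hm⟩ := hιi x y hf
    rcases lt_or_gt_of_ne hxy with h | h
    · exact ⟨m, x, hx.1, y, hy.1, h, hm⟩
    · exact ⟨m, y, hy.1, x, hx.1, h, hm.symm⟩
  have h3 := Nat.find_spec hpair
  have h4 := fun m => Nat.find_min hpair (m := m)
  set m := Nat.find hpair
  obtain ⟨a, ha, b, hb, hab, hm⟩ := h3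
  have hm0 : m ≠ 0 := by
    intro h0
    rw [h0] at hm
    exact hab.ne hm
  obtain ⟨m', hm'⟩ : ∃ m', m = m' + 1 := ⟨m - 1, by omega⟩
  rw [hm'] at hm
  have h5 := h4 m' (by omega)
  have hF := hfin m' (pj q m' a) (pj q m' b) hm (hpj m' hab.le)
  refine hinf a ha b hb hab (Set.Finite.of_finite_image (f := pj q m') (hF.subset ?_) ?_)
  · rintro _ ⟨z, hz, rfl⟩
    refine ⟨hpj m' hz.2.1, hpj m' hz.2.2, ?_⟩
    have h6 := hpj (m' + 1) hz.2.1
    have h7 := hpj (m' + 1) hz.2.2
    rw [← hm] at h7
    exact le_antisymm h7 h6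
  · intro x hx y hy hxy
    by_contra hne
    rcases lt_or_gt_of_ne hne with h | h
    · exact h5 ⟨x, hx.1, y, hy.1, h, hxy⟩
    · exact h5 ⟨y, hy.1, x, hx.1, h, hxy.symm⟩

end Pool.Agent.Helper748.ZO

end

/-! ## Part Dbl -/

section
namespace Pool.Agent.Helper748.ZO

open Filter

/-- doubled order on the integers -/
def DLt (c : ℕ → Option ℕ) : ℤ → ℤ → Prop
  | .ofNat x, .ofNat y => Lt c x y
  | .ofNat _, .negSucc _ => False
  | .negSucc _, .ofNat _ => True
  | .negSucc x, .negSucc y => Lt c (y + 1) (x + 1)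

theorem DLt.irrefl (c : ℕ → Option ℕ) (a : ℤ) : ¬ DLt c a a := by
  cases a with
  | ofNat x => exact Lt.irrefl c x
  | negSucc x => exact Lt.irrefl c (x + 1)

theorem DLt.trans {c : ℕ → Option ℕ} (hv : VC c) {a b d : ℤ} (h : DLt c a b) (h' : DLt c b d) :
    DLt c a d := by
  cases a <;> cases b <;> cases d
  · exact Lt.trans hv h h'
  · exact absurd h' id
  · exact absurd h id
  · exact absurd h id
  · trivial
  · exact absurd h' id
  · trivial
  · exact Lt.trans hv h' h

theorem DLt.total {c : ℕ → Option ℕ} (hv : VC c) {a b : ℤ} (h : a ≠ b) :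
    DLt c a b ∨ DLt c b a := by
  cases a with
  | ofNat x =>
    cases b with
    | ofNat y => exact Lt.total hv (fun h' => h (by rw [h']))
    | negSucc y => exact Or.inr trivial
  | negSucc x =>
    cases b with
    | ofNat y => exact Or.inl trivial
    | negSucc y =>
      have : y + 1 ≠ x + 1 := fun h' => h (by rw [Nat.succ_injective h'])
      exact Lt.total hv this

/-- integers with the doubled order -/
def DO (c : ℕ → Option ℕ) (_ : VC c) : Type := ℤ

noncomputable instance (c : ℕ → Option ℕ) (hv : VC c) : LinearOrder (DO c hv) where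
  lt := DLt c
  le a b := a = b ∨ DLt c a b
  le_refl a := Or.inl rfl
  le_trans a b d := by
    rintro (rfl | h) (rfl | h')
    · exact Or.inl rfl
    · exact Or.inr h'
    · exact Or.inr h
    · exact Or.inr (h.trans hv h')
  le_antisymm a b := by
    rintro (rfl | h) (h' | h')
    · rfl
    · rfl
    · exact h'.symm
    · exact absurd (h.trans hv h') (DLt.irrefl c a)
  lt_iff_le_not_ge a b := by
    constructor
    · intro h
      refine ⟨Or.inr h, ?_⟩
      rintro (rfl | h')
      · exact DLt.irrefl c _ h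
      · exact DLt.irrefl c _ (DLt.trans hv h h')
    · rintro ⟨rfl | h, h'⟩
      · exact absurd (Or.inl rfl) h'
      · exact h
  le_total a b := by
    by_cases h : a = b
    · exact Or.inl (Or.inl h)
    · rcases DLt.total hv h with h | h
      · exact Or.inl (Or.inr h)
      · exact Or.inr (Or.inr h)
  toDecidableLE := Classical.decRel _

theorem DO.lt_def {c : ℕ → Option ℕ} {hv : VC c} (a b : DO c hv) : a < b ↔ DLt c a b := Iff.rfl
theorem DO.le_def {c : ℕ → Option ℕ} {hv : VC c} (a b : DO c hv) :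
    a ≤ b ↔ (a = b ∨ DLt c a b) := Iff.rfl

/-- odd extension of a map of naturals -/
def Dm (f : ℕ → ℕ) : ℤ → ℤ
  | .ofNat x => .ofNat (f x)
  | .negSucc x => Int.negOfNat (f (x + 1))

theorem Dm_comp {f g : ℕ → ℕ} (hf : f 0 = 0) (a : ℤ) :
    Dm f (Dm g a) = Dm (fun x => f (g x)) a := by
  cases a with
  | ofNat x => rfl
  | negSucc x =>
    show Dm f (Int.negOfNat (g (x + 1))) = Int.negOfNat (f (g (x + 1)))
    cases h : g (x + 1) with
    | zero => show Int.ofNat (f 0) = Int.negOfNat (f 0); rw [hf]; rfl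
    | succ w => rfl

theorem Dm_congr {f g : ℕ → ℕ} {a : ℤ} (h : f a.natAbs = g a.natAbs) : Dm f a = Dm g a := by
  cases a with
  | ofNat x =>
    show Int.ofNat (f x) = Int.ofNat (g x)
    have : f x = g x := h
    rw [this]
  | negSucc x =>
    show Int.negOfNat (f (x + 1)) = Int.negOfNat (g (x + 1))
    have : f (x + 1) = g (x + 1) := h
    rw [this]

theorem Dm_id (a : ℤ) : Dm (fun x => x) a = a := by
  cases a <;> rfl

theorem negOfNat_inj {m n : ℕ} (h : Int.negOfNat m = Int.negOfNat n) : m = n := by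
  cases m <;> cases n
  · rfl
  · exact absurd h (by simp [Int.negOfNat])
  · exact absurd h (by simp [Int.negOfNat])
  · simp only [Int.negOfNat, Int.negSucc.injEq] at h; rw [h]

/-- weak monotonicity between codes -/
def WM (c c' : ℕ → Option ℕ) (f : ℕ → ℕ) : Prop :=
  ∀ x y, Lt c x y → f x = f y ∨ Lt c' (f x) (f y)

/-- odd extension between doubled orders -/
def DmO {c c' : ℕ → Option ℕ} (hv : VC c) (hv' : VC c') (f : ℕ → ℕ) : DO c hv → DO c' hv' := Dm f

theorem Dm_mono {c c' : ℕ → Option ℕ} {hv : VC c} {hv' : VC c'} {f : ℕ → ℕ} (hf : WM c c' f) :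
    Monotone (DmO hv hv' f) := by
  intro a b hab
  rcases hab with rfl | hab
  · exact le_rfl
  · show Dm f a = Dm f b ∨ DLt c' (Dm f a) (Dm f b)
    cases a with
    | ofNat x =>
      cases b with
      | ofNat y =>
        rcases hf x y hab with h | h
        · left; show Int.ofNat (f x) = Int.ofNat (f y); rw [h]
        · right; exact h
      | negSucc y => exact absurd hab id
    | negSucc x =>
      cases b with
      | ofNat y =>
        show Int.negOfNat (f (x + 1)) = Int.ofNat (f y) ∨
          DLt c' (Int.negOfNat (f (x + 1))) (Int.ofNat (f y))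
        cases hw : f (x + 1) with
        | zero =>
          by_cases hy : f y = 0
          · left; rw [hy]; rfl
          · right; exact Lt.zero hv' hy
        | succ w => right; trivial
      | negSucc y =>
        show Int.negOfNat (f (x + 1)) = Int.negOfNat (f (y + 1)) ∨
          DLt c' (Int.negOfNat (f (x + 1))) (Int.negOfNat (f (y + 1)))
        rcases hf (y + 1) (x + 1) hab with h | h
        · left; rw [h]
        · right
          cases hw : f (x + 1) with
          | zero => rw [hw] at h; exact absurd h (Lt.not_zero hv' _)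
          | succ w =>
            cases hz : f (y + 1) with
            | zero => trivial
            | succ z => rw [hw, hz] at h; exact h

theorem fin_natAbs {A : Set ℕ} (hA : A.Finite) : {z : ℤ | z.natAbs ∈ A}.Finite := by
  refine ((hA.image Int.ofNat).union (hA.image (fun n : ℕ => -(n : ℤ)))).subset ?_
  intro z hz
  cases z with
  | ofNat x => exact Or.inl ⟨x, hz, rfl⟩
  | negSucc x => exact Or.inr ⟨x + 1, hz, rfl⟩

section

variable {k : ℕ} {c c' : ℕ → Option ℕ} {p : ℕ → ℕ}

/-- closed intervals inside a fibre are finite -/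
theorem Proj.fin_closed (hv : VC c) (P : Proj k c c' p) {x y : ℕ} (h : x = y ∨ Lt c x y)
    (hp : p x = p y) : {z | (z = x ∨ Lt c x z) ∧ (z = y ∨ Lt c z y)}.Finite := by
  rcases h with rfl | h
  · refine (Set.finite_singleton x).subset ?_
    rintro z ⟨h1 | h1, h2 | h2⟩
    · exact h1
    · exact h1
    · exact h2
    · exact absurd h2 (Lt.asymm hv h1)
  · refine ((Set.finite_singleton x).union ((Set.finite_singleton y).union (P.fin x y h hp))).subset
      ?_
    rintro z ⟨h1 | h1, h2 | h2⟩
    · exact Or.inl h1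
    · exact Or.inl h1
    · exact Or.inr (Or.inl h2)
    · exact Or.inr (Or.inr ⟨h1, h2⟩)

end

end Pool.Agent.Helper748.ZO

end

/-! ## Part Glob -/

section
namespace Pool.Agent.Helper748.ZO

open Filter

section

variable {k : ℕ} {c c' : ℕ → Option ℕ} {p : ℕ → ℕ}

theorem Proj.zero (P : Proj k c c' p) (hk : 1 ≤ k) : p 0 = 0 := P.low 0 hk

theorem Proj.wm (P : Proj k c c' p) : WM c c' p := P.mono

theorem Proj.le (P : Proj k c c' p) (z : ℕ) : p z ≤ z := by
  by_cases h : z < k
  · rw [P.low z h]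
  · exact (P.lt z (by omega)).le

theorem fib_fin (P : Proj k c c' p) (hk : 1 ≤ k) (hv : VC c) (hv' : VC c')
    (a b : DO c hv) (h : DmO hv hv' p a = DmO hv hv' p b) (hab : a ≤ b) :
    {z : DO c hv | a ≤ z ∧ z ≤ b ∧ DmO hv hv' p z = DmO hv hv' p a}.Finite := by
  have h0 := P.zero hk
  have hz : ∀ x : ℕ, (0 : ℕ) = x ∨ Lt c 0 x := by
    intro x
    by_cases hx : x = 0
    · exact Or.inl hx.symm
    · exact Or.inr (Lt.zero hv hx)
  cases a with
  | ofNat x =>
    cases b with
    | ofNat y =>
      have hxy : x = y ∨ Lt c x y := by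
        rcases hab with h' | h'
        · left; exact Int.ofNat.inj h'
        · right; exact h'
      have hp : p x = p y := Int.ofNat.inj h
      refine (fin_natAbs (Proj.fin_closed hv P hxy hp)).subset ?_
      rintro z ⟨hz1, hz2, -⟩
      cases z with
      | ofNat w =>
        refine ⟨?_, ?_⟩
        · rcases hz1 with h' | h'
          · left; exact (Int.ofNat.inj h').symm
          · right; exact h'
        · rcases hz2 with h' | h'
          · left; exact Int.ofNat.inj h'
          · right; exact h'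
      | negSucc w =>
        rcases hz1 with h' | h'
        · exact absurd h' (by simp)
        · exact absurd h' id
    | negSucc y =>
      rcases hab with h' | h'
      · exact absurd h' (by simp)
      · exact absurd h' id
  | negSucc x =>
    cases b with
    | ofNat y =>
      have hp : Int.negOfNat (p (x + 1)) = Int.ofNat (p y) := h
      have hpx : p (x + 1) = 0 := by
        cases hw : p (x + 1) with
        | zero => rfl
        | succ w => rw [hw] at hp; exact absurd hp (by simp [Int.negOfNat])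
      have hpy : p y = 0 := by
        rw [hpx] at hp; exact (Int.ofNat.inj hp).symm
      refine ((fin_natAbs (Proj.fin_closed hv P (hz y) (by rw [h0, hpy]))).union
        (fin_natAbs (Proj.fin_closed hv P (hz (x + 1)) (by rw [h0, hpx])))).subset ?_
      rintro z ⟨hz1, hz2, -⟩
      cases z with
      | ofNat w =>
        left
        refine ⟨?_, ?_⟩
        · rcases hz w with h' | h'
          · left; exact h'.symm
          · right; exact h'
        · rcases hz2 with h' | h'
          · left; exact Int.ofNat.inj h'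
          · right; exact h'
      | negSucc w =>
        right
        refine ⟨?_, ?_⟩
        · right; exact Lt.zero hv (Nat.succ_ne_zero w)
        · rcases hz1 with h' | h'
          · left; show w + 1 = x + 1; rw [Int.negSucc.inj h']
          · right; exact h'
    | negSucc y =>
      have hxy : y + 1 = x + 1 ∨ Lt c (y + 1) (x + 1) := by
        rcases hab with h' | h'
        · left; rw [Int.negSucc.inj h']
        · right; exact h'
      have hp : p (y + 1) = p (x + 1) := (negOfNat_inj h).symm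
      refine (fin_natAbs (Proj.fin_closed hv P hxy hp)).subset ?_
      rintro z ⟨hz1, hz2, -⟩
      cases z with
      | ofNat w =>
        rcases hz2 with h' | h'
        · exact absurd h' (by simp)
        · exact absurd h' id
      | negSucc w =>
        refine ⟨?_, ?_⟩
        · rcases hz2 with h' | h'
          · left; show w + 1 = y + 1; rw [Int.negSucc.inj h']
          · right; exact h'
        · rcases hz1 with h' | h'
          · left; show w + 1 = x + 1; rw [Int.negSucc.inj h']
          · right; exact h'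

theorem fib_max (P : Proj k c c' p) (hk : 1 ≤ k) (hv : VC c) (hv' : VC c') (a : DO c hv) :
    ∃ b, a < b ∧ DmO hv hv' p b = DmO hv hv' p a := by
  have h0 := P.zero hk
  cases a with
  | ofNat x =>
    obtain ⟨z, hz1, hz2⟩ := P.nomax x
    exact ⟨Int.ofNat z, hz1, by show Int.ofNat (p z) = Int.ofNat (p x); rw [hz2]⟩
  | negSucc x =>
    by_cases hx : p (x + 1) = 0
    · refine ⟨Int.ofNat 0, trivial, ?_⟩
      show Int.ofNat (p 0) = Int.negOfNat (p (x + 1))
      rw [h0, hx]; rfl
    · obtain ⟨z, hz1, hz2⟩ := P.nomin (x + 1) hx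
      obtain ⟨w, rfl⟩ : ∃ w, z = w + 1 := by
        refine ⟨z - 1, ?_⟩
        have : z ≠ 0 := by
          rintro rfl
          rw [h0] at hz2; exact hx hz2.symm
        omega
      exact ⟨Int.negSucc w, hz1, by
        show Int.negOfNat (p (w + 1)) = Int.negOfNat (p (x + 1)); rw [hz2]⟩

theorem fib_min (P : Proj k c c' p) (hk : 1 ≤ k) (hv : VC c) (hv' : VC c') (a : DO c hv) :
    ∃ b, b < a ∧ DmO hv hv' p b = DmO hv hv' p a := by
  have h0 := P.zero hk
  cases a with
  | ofNat x =>
    by_cases hx : p x = 0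
    · obtain ⟨z, hz1, hz2⟩ := P.nomax 0
      obtain ⟨w, rfl⟩ : ∃ w, z = w + 1 := by
        refine ⟨z - 1, ?_⟩
        have : z ≠ 0 := by
          rintro rfl
          exact Lt.irrefl _ _ hz1
        omega
      refine ⟨Int.negSucc w, trivial, ?_⟩
      show Int.negOfNat (p (w + 1)) = Int.ofNat (p x)
      rw [hz2, h0, hx]; rfl
    · obtain ⟨z, hz1, hz2⟩ := P.nomin x hx
      exact ⟨Int.ofNat z, hz1, by show Int.ofNat (p z) = Int.ofNat (p x); rw [hz2]⟩
  | negSucc x =>
    obtain ⟨z, hz1, hz2⟩ := P.nomax (x + 1)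
    obtain ⟨w, rfl⟩ : ∃ w, z = w + 1 := by
      refine ⟨z - 1, ?_⟩
      have : z ≠ 0 := by
        rintro rfl
        exact Lt.not_zero hv _ hz1
      omega
    exact ⟨Int.negSucc w, hz1, by
      show Int.negOfNat (p (w + 1)) = Int.negOfNat (p (x + 1)); rw [hz2]⟩

end

/-- the whole tower of codes -/
structure Sys (k : ℕ → ℕ) (c : ℕ → ℕ → Option ℕ) (gc : ℕ → Option ℕ) (p : ℕ → ℕ → ℕ) : Prop where
  hv : ∀ n, VC (c n)
  hgc : VC gc
  P : ∀ n, Proj (k n) (c n) (c (n + 1)) (p n)
  hk1 : ∀ n, 1 ≤ k n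
  hkm : ∀ n, k n ≤ k (n + 1)
  hlow : ∀ n i, i < k n → c n i = gc i

/-- orbits -/
def orb (p : ℕ → ℕ → ℕ) : ℕ → ℕ → ℕ
  | 0, x => x
  | m + 1, x => p m (orb p m x)

namespace Sys

variable {k : ℕ → ℕ} {c : ℕ → ℕ → Option ℕ} {gc : ℕ → Option ℕ} {p : ℕ → ℕ → ℕ}

theorem kmono (S : Sys k c gc p) {n m : ℕ} (h : n ≤ m) : k n ≤ k m := by
  induction m, h using Nat.le_induction with
  | base => exact le_rfl
  | succ m hm ih => exact ih.trans (S.hkm m)

theorem orb_stab (S : Sys k c gc p) {x m i : ℕ} (h : orb p m x = i) (hi : i < k m) :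
    ∀ m' ≥ m, orb p m' x = i := by
  intro m' hm'
  induction m', hm' using Nat.le_induction with
  | base => exact h
  | succ m' hm' ih =>
    show p m' (orb p m' x) = i
    rw [ih]
    exact (S.P m').low i (lt_of_lt_of_le hi (S.kmono hm'))

theorem orb_ev (S : Sys k c gc p) (x : ℕ) :
    ∃ i, ∃ m0, ∀ m ≥ m0, orb p m x = i ∧ i < k m := by
  have key : ∀ v, ∀ m, orb p m x = v → ∃ m' ≥ m, orb p m' x < k m' := by
    intro v
    induction v using Nat.strong_induction_on with
    | _ v ih =>
      intro m hm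
      by_cases h : orb p m x < k m
      · exact ⟨m, le_rfl, h⟩
      · have h1 : orb p (m + 1) x < v := by
          show p m (orb p m x) < v
          rw [← hm]
          exact (S.P m).lt _ (by omega)
        obtain ⟨m', hm', h2⟩ := ih _ h1 (m + 1) rfl
        exact ⟨m', by omega, h2⟩
  obtain ⟨m', _, h⟩ := key _ 0 rfl
  refine ⟨orb p m' x, m', ?_⟩
  intro m hm
  exact ⟨S.orb_stab rfl h m hm, lt_of_lt_of_le h (S.kmono hm)⟩

theorem orb_wm (S : Sys k c gc p) (m : ℕ) : WM (c 0) (c m) (orb p m) := by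
  induction m with
  | zero => intro x y h; exact Or.inr h
  | succ m ih =>
    intro x y h
    show p m (orb p m x) = p m (orb p m y) ∨ Lt (c (m + 1)) (p m (orb p m x)) (p m (orb p m y))
    rcases ih x y h with h' | h'
    · left; rw [h']
    · exact (S.P m).mono _ _ h'

theorem orb_surj (S : Sys k c gc p) (m : ℕ) : Function.Surjective (orb p m) := by
  induction m with
  | zero => intro x; exact ⟨x, rfl⟩
  | succ m ih =>
    intro y
    obtain ⟨w, hw⟩ := (S.P m).surj y
    obtain ⟨x, hx⟩ := ih w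
    exact ⟨x, by show p m (orb p m x) = y; rw [hx, hw]⟩

theorem exists_e (S : Sys k c gc p) :
    ∃ e : ℕ → ℕ, (∀ x, ∃ m0, ∀ m ≥ m0, orb p m x = e x ∧ e x < k m) ∧ WM (c 0) gc e ∧
      (∀ i, (∃ n, i < k n) → ∃ x, e x = i) ∧ e 0 = 0 := by
  choose e he using S.orb_ev
  refine ⟨e, he, ?_, ?_, ?_⟩
  · intro x y h
    obtain ⟨m1, h1⟩ := he x
    obtain ⟨m2, h2⟩ := he y
    have a1 := h1 _ (le_max_left m1 m2)
    have a2 := h2 _ (le_max_right m1 m2)
    rcases S.orb_wm (max m1 m2) x y h with h' | h'
    · left; rw [← a1.1, ← a2.1, h']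
    · right
      rw [a1.1, a2.1] at h'
      exact (Lt.congr (fun i hi => S.hlow _ i hi) a1.2 a2.2).1 h'
  · rintro i ⟨n, hn⟩
    obtain ⟨x, hx⟩ := S.orb_surj n i
    refine ⟨x, ?_⟩
    obtain ⟨m1, h1⟩ := he x
    rw [← (h1 _ (le_max_left m1 n)).1]
    exact S.orb_stab hx hn _ (le_max_right _ _)
  · obtain ⟨m1, h1⟩ := he 0
    rw [← (h1 m1 le_rfl).1]
    exact S.orb_stab (m := 0) rfl (S.hk1 0) m1 (Nat.zero_le _)

/-- projections of the doubled tower -/
def q (S : Sys k c gc p) (m : ℕ) : DO (c m) (S.hv m) → DO (c (m + 1)) (S.hv (m + 1)) :=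
  DmO (S.hv m) (S.hv (m + 1)) (p m)

theorem pj_eq (S : Sys k c gc p) (m : ℕ) (a : ℤ) :
    pj (X := fun m => DO (c m) (S.hv m)) S.q m a = Dm (orb p m) a := by
  induction m with
  | zero => exact (Dm_id a).symm
  | succ m ih =>
    show Dm (p m) (pj (X := fun m => DO (c m) (S.hv m)) S.q m a) = _
    rw [ih]
    exact Dm_comp ((S.P m).zero (S.hk1 m)) a

theorem ev_eq (S : Sys k c gc p) {e : ℕ → ℕ}
    (he : ∀ x, ∃ m0, ∀ m ≥ m0, orb p m x = e x ∧ e x < k m) (a : ℤ) :
    ∃ m0, ∀ m ≥ m0, Dm (orb p m) a = Dm e a ∧ e a.natAbs < k m := by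
  obtain ⟨m0, h0⟩ := he a.natAbs
  exact ⟨m0, fun m hm => ⟨Dm_congr (h0 m hm).1, (h0 m hm).2⟩⟩

theorem ι_iff (S : Sys k c gc p) {e : ℕ → ℕ}
    (he : ∀ x, ∃ m0, ∀ m ≥ m0, orb p m x = e x ∧ e x < k m) (a b : ℤ) :
    Dm e a = Dm e b ↔ ∃ m, pj (X := fun m => DO (c m) (S.hv m)) S.q m a =
      pj (X := fun m => DO (c m) (S.hv m)) S.q m b := by
  obtain ⟨m1, h1⟩ := S.ev_eq he a
  obtain ⟨m2, h2⟩ := S.ev_eq he b
  constructor
  · intro h
    refine ⟨max m1 m2, ?_⟩
    rw [S.pj_eq, S.pj_eq, (h1 _ (le_max_left _ _)).1, (h2 _ (le_max_right _ _)).1, h]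
  · rintro ⟨m, hm⟩
    have h3 : ∀ m' ≥ m, pj (X := fun m => DO (c m) (S.hv m)) S.q m' a =
        pj (X := fun m => DO (c m) (S.hv m)) S.q m' b := by
      intro m' hm'
      induction m', hm' using Nat.le_induction with
      | base => exact hm
      | succ m' hm' ih => show S.q m' _ = S.q m' _; rw [ih]
    have h4 := h3 (max m (max m1 m2)) (le_max_left _ _)
    rw [S.pj_eq, S.pj_eq, (h1 _ ((le_max_left _ _).trans (le_max_right _ _))).1,
      (h2 _ ((le_max_right _ _).trans (le_max_right _ _))).1] at h4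
    exact h4

/-- the scattered case -/
theorem no_dense (S : Sys k c gc p) (B : ℕ) (hB : ∀ n, k n ≤ B) (T : Set ℤ)
    (h1 : ∃ a ∈ T, ∃ b ∈ T, DLt (c 0) a b)
    (h2 : ∀ a ∈ T, ∀ b ∈ T, DLt (c 0) a b → ∃ z ∈ T, DLt (c 0) a z ∧ DLt (c 0) z b) : False := by
  obtain ⟨e, he, -, -, -⟩ := S.exists_e
  refine scattered_abstract (fun m => DO (c m) (S.hv m)) ℤ S.q
    (fun m => Dm_mono ((S.P m).wm))
    (fun m a b h hab => fib_fin (S.P m) (S.hk1 m) (S.hv m) (S.hv (m + 1)) a b h hab)
    (Dm e) ?_ (fun a b h => (S.ι_iff he a b).1 h) T h1 h2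
  refine (fin_natAbs (Set.finite_lt_nat B)).subset ?_
  rintro _ ⟨a, rfl⟩
  obtain ⟨m0, h0⟩ := he (Int.natAbs a)
  have h3 : e (Int.natAbs a) < B := lt_of_lt_of_le (h0 m0 le_rfl).2 (hB m0)
  cases a with
  | ofNat x => exact h3
  | negSucc x =>
    show (Int.negOfNat (e (x + 1))).natAbs < B
    have h4 : e (x + 1) < B := h3
    cases hw : e (x + 1) with
    | zero => show 0 < B; omega
    | succ w => show w + 1 < B; omega

/-- density of the limit order -/
def GDense (gc : ℕ → Option ℕ) : Prop :=
  (∀ x y, Lt gc x y → ∃ z, Lt gc x z ∧ Lt gc z y) ∧ (∀ x, ∃ z, Lt gc x z)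

theorem iso (S : Sys k c gc p) (hd : GDense gc) (hB : ∀ i, ∃ n, i < k n) :
    Nonempty (DO (c 0) (S.hv 0) ≃o Lex (DO gc S.hgc × Lex (ℕᵒᵈ →₀ ℤ))) := by
  classical
  obtain ⟨e, he, hem, hes, he0⟩ := S.exists_e
  -- sections
  have hsec : ∀ m, ∃ s : ℕ → ℕ, (∀ y, p m (s y) = y) ∧ ∀ y < k m, s y = y := by
    intro m
    choose s hs using (S.P m).surj
    refine ⟨fun y => if y < k m then y else s y, ?_, ?_⟩
    · intro y
      by_cases hy : y < k m
      · simp only [hy, if_true]; exact (S.P m).low y hy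
      · simp only [hy, if_false]; exact hs y
    · intro y hy; simp [hy]
  choose s hs1 hs2 using hsec
  have key1 : ∀ (m : ℕ) (y : ℤ), Dm (p m) (Dm (s m) y) = y := by
    intro m y
    rw [Dm_comp ((S.P m).zero (S.hk1 m))]
    have : (fun x => p m (s m x)) = fun x => x := by
      funext x; exact hs1 m x
    rw [this, Dm_id]
  have key3 : ∀ a : ℤ, ∃ m0, ∀ m ≥ m0, Dm (orb p m) a = Dm (s m) (Dm (orb p (m + 1)) a) := by
    intro a
    obtain ⟨m0, h0⟩ := S.ev_eq he a
    refine ⟨m0, ?_⟩
    intro m hm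
    rw [(h0 m hm).1, (h0 (m + 1) (by omega)).1]
    have hs0 : s m 0 = 0 := hs2 m 0 (S.hk1 m)
    rw [Dm_comp hs0]
    refine (Dm_congr ?_).symm
    exact hs2 m _ (h0 m hm).2
  refine iso_abstract (fun m => DO (c m) (S.hv m)) (DO gc S.hgc) S.q
    (fun m => Dm_mono ((S.P m).wm))
    (fun m a b h hab => fib_fin (S.P m) (S.hk1 m) (S.hv m) (S.hv (m + 1)) a b h hab)
    (fun m a => fib_max (S.P m) (S.hk1 m) (S.hv m) (S.hv (m + 1)) a)
    (fun m a => fib_min (S.P m) (S.hk1 m) (S.hv m) (S.hv (m + 1)) a)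
    (fun m => DmO (S.hv (m + 1)) (S.hv m) (s m)) ?_ (DmO (S.hv 0) S.hgc e) (Dm_mono hem) ?_
    (fun a b => S.ι_iff he a b) ?_
  · exact fun m y => key1 m y
  · intro b
    show ∃ a, Dm e a = b
    cases b with
    | ofNat i =>
      obtain ⟨x, hx⟩ := hes i (hB i)
      exact ⟨Int.ofNat x, by show Int.ofNat (e x) = _; rw [hx]⟩
    | negSucc i =>
      obtain ⟨x, hx⟩ := hes (i + 1) (hB (i + 1))
      obtain ⟨w, rfl⟩ : ∃ w, x = w + 1 := by
        refine ⟨x - 1, ?_⟩
        have : x ≠ 0 := by
          rintro rfl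
          rw [he0] at hx; omega
        omega
      exact ⟨Int.negSucc w, by show Int.negOfNat (e (w + 1)) = _; rw [hx]; rfl⟩
  · intro a
    obtain ⟨m0, h0⟩ := key3 a
    exact ⟨m0, fun m hm => (S.pj_eq m a).trans ((h0 m hm).trans
      (congrArg (Dm (s m)) (S.pj_eq (m + 1) a).symm))⟩

end Sys

end Pool.Agent.Helper748.ZO

end

/-! ## Part Gc -/

section
namespace Pool.Agent.Helper748.ZO

/-- code of the limit order `1 + η` -/
def gcode (m : ℕ) : Option ℕ :=
  if 1 ≤ m.unpair.1 ∧ m.unpair.1 < m then some m.unpair.1 else none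

theorem gcode_vc : VC gcode := by
  intro m r hr
  unfold gcode at hr
  split_ifs at hr with h
  · simp only [Option.some.injEq] at hr
    omega

theorem gcode_some {y n : ℕ} (hy : 1 ≤ y) (hn : y < n) : gcode (Nat.pair y n) = some y := by
  unfold gcode
  rw [Nat.unpair_pair]
  have := Nat.right_le_pair y n
  exact if_pos ⟨hy, by show y < Nat.pair y n; omega⟩

theorem gcode_none (n : ℕ) : gcode (Nat.pair 0 n) = none := by
  unfold gcode
  rw [Nat.unpair_pair]
  exact if_neg (fun h => absurd h.1 (by simp))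

theorem gcode_dense : Sys.GDense gcode := by
  constructor
  · intro x y h
    have hy : 1 ≤ y := by
      by_contra hcon
      have : y = 0 := by omega
      subst this
      exact Lt.not_zero gcode_vc x h
    have hm := Nat.right_le_pair y (x + y + 1)
    have hc := gcode_some (n := x + y + 1) hy (by omega)
    refine ⟨Nat.pair y (x + y + 1), ?_, ?_⟩
    · exact (Lt.ins_some_iff (by omega) hc (by omega)).2 h
    · exact (Lt.ins_some_iff' (by omega) hc (by omega)).2 (Or.inl rfl)
  · intro x
    refine ⟨Nat.pair 0 (x + 1), Lt.ins_none ?_ (gcode_none _)⟩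
    have := Nat.right_le_pair 0 (x + 1)
    omega

instance : Countable (DO gcode gcode_vc) := inferInstanceAs (Countable ℤ)
instance : Nonempty (DO gcode gcode_vc) := ⟨Int.ofNat 0⟩

instance : NoMaxOrder (DO gcode gcode_vc) := by
  refine ⟨fun a => ?_⟩
  cases a with
  | ofNat x =>
    obtain ⟨z, hz⟩ := gcode_dense.2 x
    exact ⟨Int.ofNat z, hz⟩
  | negSucc x => exact ⟨Int.ofNat 0, trivial⟩

instance : NoMinOrder (DO gcode gcode_vc) := by
  refine ⟨fun a => ?_⟩
  cases a with
  | ofNat x => exact ⟨Int.negSucc 0, trivial⟩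
  | negSucc x =>
    obtain ⟨z, hz⟩ := gcode_dense.2 (x + 1)
    obtain ⟨w, rfl⟩ : ∃ w, z = w + 1 := by
      refine ⟨z - 1, ?_⟩
      have : z ≠ 0 := by
        rintro rfl
        exact Lt.not_zero gcode_vc _ hz
      omega
    exact ⟨Int.negSucc w, hz⟩

instance : DenselyOrdered (DO gcode gcode_vc) := by
  refine ⟨fun a b hab => ?_⟩
  cases a with
  | ofNat x =>
    cases b with
    | ofNat y =>
      obtain ⟨z, hz1, hz2⟩ := gcode_dense.1 x y hab
      exact ⟨Int.ofNat z, hz1, hz2⟩
    | negSucc y => exact absurd hab id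
  | negSucc x =>
    cases b with
    | ofNat y =>
      by_cases hy : y = 0
      · subst hy
        obtain ⟨z, hz1, hz2⟩ := gcode_dense.1 0 (x + 1) (Lt.zero gcode_vc (Nat.succ_ne_zero x))
        obtain ⟨w, rfl⟩ : ∃ w, z = w + 1 := by
          refine ⟨z - 1, ?_⟩
          have : z ≠ 0 := by
            rintro rfl
            exact Lt.irrefl _ _ hz1
          omega
        exact ⟨Int.negSucc w, hz2, trivial⟩
      · exact ⟨Int.ofNat 0, trivial, Lt.zero gcode_vc hy⟩
    | negSucc y =>
      obtain ⟨z, hz1, hz2⟩ := gcode_dense.1 (y + 1) (x + 1) hab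
      obtain ⟨w, rfl⟩ : ∃ w, z = w + 1 := by
        refine ⟨z - 1, ?_⟩
        have : z ≠ 0 := by
          rintro rfl
          exact Lt.not_zero gcode_vc _ hz1
        omega
      exact ⟨Int.negSucc w, hz2, hz1⟩

theorem gcode_iso : Nonempty (DO gcode gcode_vc ≃o ℚ) := Order.iso_of_countable_dense _ _

end Pool.Agent.Helper748.ZO

end

/-! ## Part Form -/

section
namespace Pool.Agent.Helper748.ZO

open Filter
open Nat.Partrec (Code)
open Nat.Partrec.Code

/-- bounded existential quantifier, consuming one element of the list of bounds -/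
def bEx (G : ℕ → List ℕ → Bool) : List ℕ → Bool
  | [] => false
  | t :: L => (List.range t).any (fun m => G m L)

/-- `G` approximates the proposition `p` along lists of length at least `ρ` -/
structure Ap (ρ : ℕ) (G : List ℕ → Bool) (p : Prop) : Prop where
  conv : Conv G
  lim : ∀ r ≥ ρ, ∀ᶠ L in Fl r, (G L = true ↔ p)

theorem Ap.mono {ρ ρ' : ℕ} {G : List ℕ → Bool} {p : Prop} (h : Ap ρ G p) (hr : ρ ≤ ρ') :
    Ap ρ' G p := ⟨h.conv, fun r hr' => h.lim r (hr.trans hr')⟩

theorem Ap.not {ρ : ℕ} {G : List ℕ → Bool} {p : Prop} (h : Ap ρ G p) :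
    Ap ρ (fun L => !(G L)) (¬ p) := by
  refine ⟨?_, ?_⟩
  · intro P r
    obtain ⟨a, ha⟩ := h.conv P r
    refine ⟨!a, ?_⟩
    filter_upwards [ha] with L hL
    rw [hL]
  · intro r hr
    filter_upwards [h.lim r hr] with L hL
    rw [← hL]; simp

theorem Ap.and {ρ : ℕ} {G G' : List ℕ → Bool} {p p' : Prop} (h : Ap ρ G p) (h' : Ap ρ G' p') :
    Ap ρ (fun L => G L && G' L) (p ∧ p') := by
  refine ⟨?_, ?_⟩
  · intro P r
    obtain ⟨a, ha⟩ := h.conv P r
    obtain ⟨a', ha'⟩ := h'.conv P r
    refine ⟨a && a', ?_⟩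
    filter_upwards [ha, ha'] with L hL hL'
    rw [hL, hL']
  · intro r hr
    filter_upwards [h.lim r hr, h'.lim r hr] with L hL hL'
    rw [← hL, ← hL']; simp

theorem Ap.const (ρ : ℕ) (b : Bool) : Ap ρ (fun _ => b) (b = true) :=
  ⟨fun _ _ => ⟨b, Eventually.of_forall fun _ => rfl⟩,
    fun _ _ => Eventually.of_forall fun _ => Iff.rfl⟩

theorem Ap.ex {ρ : ℕ} {G : ℕ → List ℕ → Bool} {p : ℕ → Prop} (h : ∀ m, Ap ρ (G m) (p m)) :
    Ap (ρ + 1) (bEx G) (∃ m, p m) := by
  classical
  refine ⟨?_, ?_⟩
  · intro P r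
    cases P with
    | cons t P =>
      choose a ha using fun m => (h m).conv P r
      refine ⟨(List.range t).any a, ?_⟩
      have hall : ∀ᶠ L in Fl r, ∀ m ∈ Finset.range t, G m (P ++ L) = a m :=
        (Finset.eventually_all _).2 (fun m _ => ha m)
      filter_upwards [hall] with L hL
      show (List.range t).any (fun m => G m (P ++ L)) = _
      rw [Bool.eq_iff_iff]
      simp only [List.any_eq_true, List.mem_range]
      constructor
      · rintro ⟨m, hm, h1⟩
        exact ⟨m, hm, by rw [← hL m (Finset.mem_range.2 hm)]; exact h1⟩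
      · rintro ⟨m, hm, h1⟩
        exact ⟨m, hm, by rw [hL m (Finset.mem_range.2 hm)]; exact h1⟩
    | nil =>
      cases r with
      | zero => exact ⟨false, by rw [ev_Fl_zero]; rfl⟩
      | succ r =>
        choose a ha using fun m => (h m).conv [] r
        refine ⟨decide (∃ m, a m = true), ?_⟩
        rw [ev_Fl_succ]
        have h1 : ∀ᶠ t in atTop, ((∃ m < t, a m = true) ↔ ∃ m, a m = true) := by
          by_cases hex : ∃ m, a m = true
          · obtain ⟨m, hm⟩ := hex
            filter_upwards [eventually_gt_atTop m] with t ht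
            exact ⟨fun _ => ⟨m, hm⟩, fun _ => ⟨m, ht, hm⟩⟩
          · refine Eventually.of_forall fun t => ⟨?_, fun h => absurd h hex⟩
            rintro ⟨m, _, hm⟩; exact ⟨m, hm⟩
        filter_upwards [h1] with t ht
        have hall : ∀ᶠ L in Fl r, ∀ m ∈ Finset.range t, G m ([] ++ L) = a m :=
          (Finset.eventually_all _).2 (fun m _ => ha m)
        filter_upwards [hall] with L hL
        show (List.range t).any (fun m => G m L) = _
        rw [Bool.eq_iff_iff]
        simp only [List.any_eq_true, List.mem_range, decide_eq_true_eq]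
        rw [← ht]
        constructor
        · rintro ⟨m, hm, h1⟩
          exact ⟨m, hm, by rw [← hL m (Finset.mem_range.2 hm)]; exact h1⟩
        · rintro ⟨m, hm, h1⟩
          exact ⟨m, hm, by rw [← hL m (Finset.mem_range.2 hm)] at h1; exact h1⟩
  · intro r hr
    obtain ⟨r', rfl⟩ : ∃ r', r = r' + 1 := ⟨r - 1, by omega⟩
    rw [ev_Fl_succ]
    have h1 : ∀ᶠ t in atTop, ((∃ m < t, p m) ↔ ∃ m, p m) := by
      by_cases hex : ∃ m, p m
      · obtain ⟨m, hm⟩ := hex
        filter_upwards [eventually_gt_atTop m] with t ht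
        exact ⟨fun _ => ⟨m, hm⟩, fun _ => ⟨m, ht, hm⟩⟩
      · refine Eventually.of_forall fun t => ⟨?_, fun h => absurd h hex⟩
        rintro ⟨m, _, hm⟩; exact ⟨m, hm⟩
    filter_upwards [h1] with t ht
    have hall : ∀ᶠ L in Fl r', ∀ m ∈ Finset.range t, (G m L = true ↔ p m) :=
      (Finset.eventually_all _).2 (fun m _ => (h m).lim r' (by omega))
    filter_upwards [hall] with L hL
    show (List.range t).any (fun m => G m L) = true ↔ _
    simp only [List.any_eq_true, List.mem_range]
    rw [← ht]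
    constructor
    · rintro ⟨m, hm, h1⟩
      exact ⟨m, hm, (hL m (Finset.mem_range.2 hm)).1 h1⟩
    · rintro ⟨m, hm, h1⟩
      exact ⟨m, hm, (hL m (Finset.mem_range.2 hm)).2 h1⟩

/-- evaluation with bounded time, consuming one bound -/
def bEv (e : Code) (n : ℕ) : List ℕ → Bool
  | [] => false
  | t :: _ => decide (evaln t e n = some 1)

theorem Ap.ev (e : Code) (n : ℕ) : Ap 1 (bEv e n) (1 ∈ eval e n) := by
  have key : ∀ᶠ t in atTop, (evaln t e n = some 1 ↔ 1 ∈ eval e n) := by
    by_cases hex : 1 ∈ eval e n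
    · obtain ⟨t0, ht0⟩ := evaln_complete.1 hex
      filter_upwards [eventually_ge_atTop t0] with t ht
      exact ⟨fun _ => hex, fun _ => evaln_mono ht ht0⟩
    · refine Eventually.of_forall fun t => ⟨fun h => evaln_sound h, fun h => absurd h hex⟩
  refine ⟨?_, ?_⟩
  · intro P r
    cases P with
    | cons t P => exact ⟨_, Eventually.of_forall fun L => rfl⟩
    | nil =>
      cases r with
      | zero => exact ⟨false, by rw [ev_Fl_zero]; rfl⟩
      | succ r =>
        classical
        refine ⟨decide (1 ∈ eval e n), ?_⟩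
        rw [ev_Fl_succ]
        filter_upwards [key] with t ht
        refine Eventually.of_forall fun L => ?_
        show decide (evaln t e n = some 1) = _
        rw [Bool.eq_iff_iff]
        simp only [decide_eq_true_eq]
        exact ht
  · intro r hr
    obtain ⟨r', rfl⟩ : ∃ r', r = r' + 1 := ⟨r - 1, by omega⟩
    rw [ev_Fl_succ]
    filter_upwards [key] with t ht
    refine Eventually.of_forall fun L => ?_
    show decide (evaln t e n = some 1) = true ↔ _
    rw [decide_eq_true_eq]; exact ht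

/-- base predicate -/
def U (c : Code) : List ℕ → Bool
  | [] => false
  | m :: ys => !(decide (evaln m c (Encodable.encode ys) = some 1))

/-- bounded evaluation of an alternating quantifier prefix of length `r` -/
def Ef (c : Code) : ℕ → List ℕ → List ℕ → Bool
  | 0, xs => fun _ => U c xs
  | r + 1, xs => bEx (fun m L => !(Ef c r (m :: xs) L))

/-- true evaluation of an alternating quantifier prefix -/
def Es (T : List ℕ → Bool) : ℕ → List ℕ → Prop
  | 0, xs => T xs = true
  | r + 1, xs => ∃ m, ¬ Es T r (m :: xs)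

theorem Ef_ap (c : Code) : ∀ r xs, Ap r (Ef c r xs) (Es (U c) r xs) := by
  intro r
  induction r with
  | zero => intro xs; exact Ap.const 0 (U c xs)
  | succ r ih => intro xs; exact Ap.ex (fun m => (ih (m :: xs)).not)

/-- `x, y ∈ S` and `x < y` -/
def fA (e c : Code) (r x y : ℕ) : List ℕ → Bool :=
  fun L => Ef c r [x] L && (Ef c r [y] L && bEv e (Nat.pair x y) L)

/-- the approximation of: `S` is densely ordered and has two elements -/
def fD (e c : Code) (r : ℕ) : List ℕ → Bool :=
  fun L => bEx (fun x => bEx (fun y => fA e c r x y)) L &&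
    !(bEx (fun x => bEx (fun y => fun L => fA e c r x y L &&
      !(bEx (fun z => fun L => fA e c r x z L && fA e c r z y L) L))) L)

def pA (e c : Code) (r x y : ℕ) : Prop :=
  Es (U c) r [x] ∧ (Es (U c) r [y] ∧ 1 ∈ eval e (Nat.pair x y))

def pD (e c : Code) (r : ℕ) : Prop :=
  (∃ x y, pA e c r x y) ∧
    ¬ ∃ x y, pA e c r x y ∧ ¬ ∃ z, pA e c r x z ∧ pA e c r z y

theorem fA_ap (e c : Code) (r x y : ℕ) : Ap (r + 1) (fA e c r x y) (pA e c r x y) :=
  ((Ef_ap c r [x]).mono (Nat.le_succ r)).and (((Ef_ap c r [y]).mono (Nat.le_succ r)).and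
    ((Ap.ev e (Nat.pair x y)).mono (by omega)))

theorem fD_ap (e c : Code) (r : ℕ) : Ap (r + 4) (fD e c r) (pD e c r) := by
  refine Ap.and ?_ (Ap.not ?_)
  · exact (Ap.ex (fun x => Ap.ex (fun y => fA_ap e c r x y))).mono (by omega)
  · refine Ap.ex (fun x => Ap.ex (fun y => ?_))
    refine Ap.and ((fA_ap e c r x y).mono (by omega)) (Ap.not ?_)
    exact Ap.ex (fun z => (fA_ap e c r x z).and (fA_ap e c r z y))

/-- number of special elements as a function of the list of bounds -/
def kf (e : Code) (L : List ℕ) : ℕ :=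
  1 + lead (fun j => !(fD e (Denumerable.ofNat Code j.unpair.2) j.unpair.1 L)) (L.length / 2 - 1)

theorem kf_pos (e : Code) (L : List ℕ) : 1 ≤ kf e L := Nat.le_add_right _ _

theorem kf_conv (e : Code) : Conv (kf e) := by
  intro P r
  choose a ha using fun j : ℕ =>
    (fD_ap e (Denumerable.ofNat Code j.unpair.2) j.unpair.1).conv P r
  refine ⟨1 + lead (fun j => !(a j)) ((P.length + r) / 2 - 1), ?_⟩
  have hall : ∀ᶠ L in Fl r, ∀ j ∈ Finset.range ((P.length + r) / 2 - 1),
      fD e (Denumerable.ofNat Code j.unpair.2) j.unpair.1 (P ++ L) = a j :=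
    (Finset.eventually_all _).2 (fun j _ => ha j)
  filter_upwards [hall, ev_Fl_length r] with L h1 h2
  unfold kf
  rw [List.length_append, h2]
  congr 1
  apply lead_congr
  intro i hi
  rw [h1 i (Finset.mem_range.2 hi)]

open Classical in
/-- truth value of the negation of the `j`-th density statement -/
noncomputable def nb (e : Code) (j : ℕ) : Bool :=
  decide (¬ pD e (Denumerable.ofNat Code j.unpair.2) j.unpair.1)

theorem nb_iff (e : Code) (j : ℕ) :
    nb e j = true ↔ ¬ pD e (Denumerable.ofNat Code j.unpair.2) j.unpair.1 := by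
  unfold nb; simp

theorem kL_eq (e : Code) (n : ℕ) : kL (kf_conv e) n = 1 + lead (nb e) (n - 1) := by
  apply lm_eq
  have hall : ∀ᶠ L in Fl (2 * n), ∀ j ∈ Finset.range (n - 1),
      (fD e (Denumerable.ofNat Code j.unpair.2) j.unpair.1 L = true ↔
        pD e (Denumerable.ofNat Code j.unpair.2) j.unpair.1) := by
    refine (Finset.eventually_all _).2 (fun j hj => ?_)
    apply (fD_ap e (Denumerable.ofNat Code j.unpair.2) j.unpair.1).lim
    have h1 := Finset.mem_range.1 hj
    have h2 := Nat.unpair_left_le j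
    omega
  filter_upwards [hall, ev_Fl_length (2 * n)] with L h1 h2
  unfold kf
  rw [List.nil_append, h2, Nat.mul_div_cancel_left n (by norm_num)]
  congr 1
  apply lead_congr
  intro i hi
  have := h1 i (Finset.mem_range.2 hi)
  rw [Bool.eq_iff_iff, nb_iff, ← this]
  simp

theorem lead_mono (p : ℕ → Bool) (n : ℕ) : lead p n ≤ lead p (n + 1) := by
  rw [lead_succ]; have := lead_le p n; split_ifs <;> omega

theorem kL_mono (e : Code) (n : ℕ) : kL (kf_conv e) n ≤ kL (kf_conv e) (n + 1) := by
  rw [kL_eq, kL_eq]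
  cases n with
  | zero => simp [lead_zero]
  | succ n => exact Nat.add_le_add_left (lead_mono _ n) 1

theorem kL_unb (e : Code) (h : ∀ j : ℕ, ¬ pD e (Denumerable.ofNat Code j.unpair.2) j.unpair.1) (i : ℕ) :
    ∃ n, i < kL (kf_conv e) n := by
  refine ⟨i + 1, ?_⟩
  rw [kL_eq]
  have := le_lead (p := nb e) (n := i + 1 - 1) (m := i) (by omega)
    (fun j _ => (nb_iff e j).2 (h j))
  omega

theorem kL_bdd (e : Code) {j : ℕ} (h : pD e (Denumerable.ofNat Code j.unpair.2) j.unpair.1) (n : ℕ) :
    kL (kf_conv e) n ≤ j + 1 := by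
  rw [kL_eq]
  by_contra hcon
  have h1 : j < lead (nb e) (n - 1) := by omega
  exact (nb_iff e j).1 (lead_lt h1) h

end Pool.Agent.Helper748.ZO

end

/-! ## Part Comp -/

section
namespace Pool.Agent.Helper748.ZO

open Filter
open Nat.Partrec (Code)
open Nat.Partrec.Code
open Primrec

section basic

variable {α : Type*} [Primcodable α]

theorem lead_primrec {p : α → ℕ → Bool} {n : α → ℕ} (hp : Primrec₂ p) (hn : Primrec n) :
    Primrec (fun a => lead (p a) (n a)) := by
  have h : Primrec₂ (fun (a : α) (q : ℕ × ℕ) =>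
      if q.2 = q.1 ∧ p a q.1 = true then q.1 + 1 else q.2) := by
    refine Primrec.ite (PrimrecPred.and ?_ ?_) ?_ ?_
    · exact Primrec.eq.comp (snd.comp snd) (fst.comp snd)
    · exact Primrec.eq.comp (hp.comp fst (fst.comp snd)) (Primrec.const true)
    · exact Primrec.succ.comp (fst.comp snd)
    · exact snd.comp snd
  exact Primrec.nat_rec' hn (Primrec.const 0) h

theorem sn_primrec : Primrec₂ sn := by
  have h : Primrec₂ (fun (q : ℕ × Option ℕ) (r : ℕ) =>
      if 1 ≤ r ∧ r < q.1 then some r else none) := by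
    refine Primrec.ite (PrimrecPred.and ?_ ?_) ?_ ?_
    · exact Primrec.nat_le.comp (Primrec.const 1) snd
    · exact Primrec.nat_lt.comp snd (fst.comp fst)
    · exact Primrec.option_some.comp snd
    · exact Primrec.const none
  exact Primrec.option_bind (f := fun q : ℕ × Option ℕ => q.2) snd h

theorem gtr_primrec : Primrec₂ gtr := by
  have h : Primrec₂ (fun (q : ℕ × OC) (i : ℕ) => sn i (q.2.getD i none)) :=
    sn_primrec.comp snd ((Primrec.list_getD none).comp (snd.comp fst) snd)
  exact Primrec.list_map (Primrec.list_range.comp fst) h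

theorem cp_primrec : Primrec₂ cp := by
  have h : Primrec₂ (fun (q : OC × OC) (i : ℕ) =>
      decide (q.1.getD i none = q.2.getD i none)) := by
    have : PrimrecPred (fun (q : (OC × OC) × ℕ) =>
        q.1.1.getD q.2 none = q.1.2.getD q.2 none) :=
      Primrec.eq.comp ((Primrec.list_getD none).comp (fst.comp fst) snd)
        ((Primrec.list_getD none).comp (snd.comp fst) snd)
    exact this.decide
  exact lead_primrec h (Primrec.nat_min.comp (Primrec.list_length.comp fst)
    (Primrec.list_length.comp snd))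

/-- right neighbour, list version -/
def rnL (g : OC) (m i : ℕ) : Option ℕ :=
  (List.range m).foldl (fun cur l => if i < l ∧ g.getD l none = cur then some l else cur)
    (g.getD i none)

theorem rnL_eq (g : OC) (m i : ℕ) : rnL g m i = rn (fun i => g.getD i none) m i := rfl

theorem rnL_primrec : Primrec (fun q : OC × ℕ × ℕ => rnL q.1 q.2.1 q.2.2) := by
  have h : Primrec₂ (fun (q : OC × ℕ × ℕ) (s : Option ℕ × ℕ) =>
      if q.2.2 < s.2 ∧ q.1.getD s.2 none = s.1 then some s.2 else s.1) := by
    refine Primrec.ite (PrimrecPred.and ?_ ?_) ?_ ?_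
    · exact Primrec.nat_lt.comp (snd.comp (snd.comp fst)) (snd.comp snd)
    · exact Primrec.eq.comp ((Primrec.list_getD none).comp (fst.comp fst) (snd.comp snd))
        (fst.comp snd)
    · exact Primrec.option_some.comp (snd.comp snd)
    · exact fst.comp snd
  exact Primrec.list_foldl (Primrec.list_range.comp (fst.comp snd))
    ((Primrec.list_getD none).comp fst (snd.comp snd)) h

theorem keep_primrec' : Primrec (fun q : ℕ × OC × OC × ℕ => max q.1 (cp q.2.1 q.2.2.1)) :=
  Primrec.nat_max.comp fst (cp_primrec.comp (fst.comp snd) (fst.comp (snd.comp snd)))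

theorem plan_primrec : Primrec (fun q : ℕ × OC × OC × ℕ => plan q.1 q.2.1 q.2.2.1 q.2.2.2) := by
  have hk : Primrec (fun q : ℕ × OC × OC × ℕ => q.1) := fst
  have hg : Primrec (fun q : ℕ × OC × OC × ℕ => q.2.1) := fst.comp snd
  have hG : Primrec (fun q : ℕ × OC × OC × ℕ => q.2.2.1) := fst.comp (snd.comp snd)
  have hj : Primrec (fun q : ℕ × OC × OC × ℕ => q.2.2.2) := snd.comp (snd.comp snd)
  have hm := keep_primrec'
  have hi : Primrec (fun q : ℕ × OC × OC × ℕ => (q.2.2.2 / 3).unpair.1) :=
    fst.comp (Primrec.unpair.comp (Primrec.nat_div.comp hj (Primrec.const 3)))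
  have hmod : Primrec (fun q : ℕ × OC × OC × ℕ => q.2.2.2 % 3) :=
    Primrec.nat_mod.comp hj (Primrec.const 3)
  have hcp : Primrec (fun q : ℕ × OC × OC × ℕ => cp q.2.1 q.2.2.1) := cp_primrec.comp hg hG
  unfold plan
  refine Primrec.ite (PrimrecPred.and ?_ (PrimrecPred.and ?_ ?_)) ?_
    (Primrec.ite (PrimrecPred.and ?_ (PrimrecPred.and ?_ ?_)) ?_ ?_)
  · exact Primrec.eq.comp hmod (Primrec.const 1)
  · exact Primrec.nat_lt.comp hm (Primrec.list_length.comp hG)
  · exact Primrec.nat_le.comp hk hcp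
  · exact Primrec.pair ((Primrec.list_getD none).comp hG hm)
      (Primrec.pair (Primrec.succ.comp hm) hm)
  · exact Primrec.eq.comp hmod (Primrec.const 2)
  · exact Primrec.nat_le.comp (Primrec.const 1) hi
  · exact Primrec.nat_lt.comp hi hm
  · exact Primrec.pair (Primrec.option_some.comp hi) (Primrec.pair hm hi)
  · refine Primrec.pair ?_ (Primrec.pair hm hm)
    have h0 : Primrec (fun q : ℕ × OC × OC × ℕ =>
        if q.2.2.2 % 3 = 0 ∧ (q.2.2.2 / 3).unpair.1 < max q.1 (cp q.2.1 q.2.2.1)
          then (q.2.2.2 / 3).unpair.1 else 0) :=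
      Primrec.ite (PrimrecPred.and (Primrec.eq.comp hmod (Primrec.const 0))
        (Primrec.nat_lt.comp hi hm)) hi (Primrec.const 0)
    exact rnL_primrec.comp (Primrec.pair hg (Primrec.pair hm h0))

theorem act_primrec : Primrec (fun q : ℕ × Entry × OC × ℕ × ℕ =>
    act q.1 q.2.1 q.2.2.1 q.2.2.2.1 q.2.2.2.2) := by
  have hk : Primrec (fun q : ℕ × Entry × OC × ℕ × ℕ => q.1) := fst
  have hE : Primrec (fun q : ℕ × Entry × OC × ℕ × ℕ => q.2.1) := fst.comp snd
  have hg : Primrec (fun q : ℕ × Entry × OC × ℕ × ℕ => q.2.1.2.1) := fst.comp (snd.comp hE)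
  have hb : Primrec (fun q : ℕ × Entry × OC × ℕ × ℕ => q.2.1.2.2) := snd.comp (snd.comp hE)
  have hG : Primrec (fun q : ℕ × Entry × OC × ℕ × ℕ => q.2.2.1) := fst.comp (snd.comp snd)
  have hN : Primrec (fun q : ℕ × Entry × OC × ℕ × ℕ => q.2.2.2.1) :=
    fst.comp (snd.comp (snd.comp snd))
  have hj : Primrec (fun q : ℕ × Entry × OC × ℕ × ℕ => q.2.2.2.2) :=
    snd.comp (snd.comp (snd.comp snd))
  have hpl : Primrec (fun q : ℕ × Entry × OC × ℕ × ℕ =>
      plan q.1 q.2.1.2.1 q.2.2.1 q.2.2.2.2) :=
    plan_primrec.comp (Primrec.pair hk (Primrec.pair hg (Primrec.pair hG hj)))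
  have hm : Primrec (fun q : ℕ × Entry × OC × ℕ × ℕ => max q.1 (cp q.2.1.2.1 q.2.2.1)) :=
    Primrec.nat_max.comp hk (cp_primrec.comp hg hG)
  unfold act
  refine Primrec.pair ?_ (Primrec.pair hG (Primrec.pair ?_ ?_))
  · refine Primrec.option_map (fst.comp hpl) ?_
    exact (Primrec.list_getD 0).comp (hb.comp fst) snd
  · refine Primrec.list_map (Primrec.list_range.comp (fst.comp (snd.comp hpl))) ?_
    refine Primrec.ite (Primrec.nat_lt.comp snd (hm.comp fst)) ?_ ?_
    · exact (Primrec.list_getD none).comp (hg.comp fst) snd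
    · exact (Primrec.list_getD none).comp (hG.comp fst) snd
  · refine Primrec.list_map (Primrec.list_range.comp (fst.comp (snd.comp hpl))) ?_
    refine Primrec.ite (Primrec.eq.comp snd ((snd.comp (snd.comp hpl)).comp fst)) (hN.comp fst) ?_
    exact (Primrec.list_getD 0).comp (hb.comp fst) snd

theorem Jst_primrec : Primrec₂ Jst := by
  have h : Primrec₂ (fun (q : List Entry × List OC) (j : ℕ) =>
      decide ((q.1.getD j dE).1 = gtr (j + 1) (q.2.getD j []))) := by
    have : PrimrecPred (fun (q : (List Entry × List OC) × ℕ) =>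
        (q.1.1.getD q.2 dE).1 = gtr (q.2 + 1) (q.1.2.getD q.2 [])) :=
      Primrec.eq.comp (fst.comp ((Primrec.list_getD dE).comp (fst.comp fst) snd))
        (gtr_primrec.comp (Primrec.succ.comp snd)
          ((Primrec.list_getD []).comp (snd.comp fst) snd))
    exact this.decide
  exact lead_primrec h (Primrec.list_length.comp fst)

theorem gcode_primrec : Primrec gcode := by
  have hu : Primrec (fun m : ℕ => m.unpair.1) := fst.comp Primrec.unpair
  refine Primrec.ite (PrimrecPred.and ?_ ?_) (Primrec.option_some.comp hu) (Primrec.const none)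
  · exact Primrec.nat_le.comp (Primrec.const 1) hu
  · exact Primrec.nat_lt.comp hu Primrec.id

theorem gmap_primrec : Primrec (fun k : ℕ => (List.range k).map gcode) :=
  Primrec.list_map Primrec.list_range (gcode_primrec.comp snd)

theorem initE_primrec : Primrec (fun k : ℕ => initE k gcode) :=
  Primrec.pair (Primrec.const []) (Primrec.pair gmap_primrec Primrec.list_range)

theorem step_primrec : Primrec (fun q : ℕ × St × List OC => step gcode q.1 q.2.1 q.2.2) := by
  have hk : Primrec (fun q : ℕ × St × List OC => q.1) := fst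
  have hst : Primrec (fun q : ℕ × St × List OC => q.2.1) := fst.comp snd
  have hc : Primrec (fun q : ℕ × St × List OC => q.2.1.1) := fst.comp hst
  have hstk : Primrec (fun q : ℕ × St × List OC => q.2.1.2) := snd.comp hst
  have hO : Primrec (fun q : ℕ × St × List OC => q.2.2) := snd.comp snd
  have hJ : Primrec (fun q : ℕ × St × List OC => Jst q.2.1.2 q.2.2) := Jst_primrec.comp hstk hO
  have hprev : Primrec (fun q : ℕ × St × List OC =>
      if Jst q.2.1.2 q.2.2 = 0 then initE q.1 gcode
        else q.2.1.2.getD (Jst q.2.1.2 q.2.2 - 1) dE) :=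
    Primrec.ite (Primrec.eq.comp hJ (Primrec.const 0)) (initE_primrec.comp hk)
      ((Primrec.list_getD dE).comp hstk (Primrec.nat_sub.comp hJ (Primrec.const 1)))
  have hG : Primrec (fun q : ℕ × St × List OC =>
      gtr (Jst q.2.1.2 q.2.2 + 1) (q.2.2.getD (Jst q.2.1.2 q.2.2) [])) :=
    gtr_primrec.comp (Primrec.succ.comp hJ) ((Primrec.list_getD []).comp hO hJ)
  have hact := act_primrec.comp (Primrec.pair hk (Primrec.pair hprev (Primrec.pair hG
    (Primrec.pair (Primrec.list_length.comp hc) hJ))))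
  unfold step
  refine Primrec.pair ?_ ?_
  · exact Primrec.list_append.comp hc
      (Primrec.list_cons.comp (fst.comp hact) (Primrec.const []))
  · refine Primrec.list_append.comp ?_ (Primrec.list_cons.comp (snd.comp hact) (Primrec.const []))
    refine Primrec.list_map (Primrec.list_range.comp hJ) ?_
    exact (Primrec.list_getD dE).comp (hstk.comp fst) snd

end basic

end Pool.Agent.Helper748.ZO

end

/-! ## Part Comp2 -/

section
namespace Pool.Agent.Helper748.ZO

open Filter
open Nat.Partrec (Code)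
open Nat.Partrec.Code
open Primrec

theorem foldl_or {β : Type*} (p : β → Bool) (l : List β) :
    ∀ a : Bool, l.foldl (fun acc v => acc || p v) a = (a || l.any p) := by
  induction l with
  | nil => intro a; simp
  | cons b l ih => intro a; rw [List.foldl_cons, ih]; simp [Bool.or_assoc]

theorem any_primrec {α β : Type*} [Primcodable α] [Primcodable β] {f : α → List β}
    {p : α → β → Bool} (hf : Primrec f) (hp : Primrec₂ p) :
    Primrec (fun a => (f a).any (p a)) := by
  have h : Primrec₂ (fun (a : α) (s : Bool × β) => s.1 || p a s.2) :=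
    Primrec.or.comp (fst.comp snd) (hp.comp fst (snd.comp snd))
  refine (Primrec.list_foldl hf (Primrec.const false) h).of_eq ?_
  intro a
  have := foldl_or (p a) (f a) false
  simpa using this

theorem bEx_eq (G : ℕ → List ℕ → Bool) (L : List ℕ) :
    bEx G L = (List.range L.headI).any (fun m => G m L.tail) := by
  cases L with
  | nil => rfl
  | cons t L => rfl

theorem bEx_primrec {α : Type*} [Primcodable α] {G : α → ℕ → List ℕ → Bool}
    (hG : Primrec (fun q : α × ℕ × List ℕ => G q.1 q.2.1 q.2.2)) :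
    Primrec (fun q : α × List ℕ => bEx (G q.1) q.2) := by
  have h : Primrec (fun q : α × List ℕ =>
      (List.range q.2.headI).any (fun m => G q.1 m q.2.tail)) := by
    refine any_primrec (Primrec.list_range.comp (Primrec.list_headI.comp snd)) ?_
    exact hG.comp (Primrec.pair (fst.comp fst) (Primrec.pair snd
      (Primrec.list_tail.comp (snd.comp fst))))
  exact h.of_eq (fun q => (bEx_eq (G q.1) q.2).symm)

theorem evd_primrec : Primrec (fun q : ℕ × Code × ℕ => decide (evaln q.1 q.2.1 q.2.2 = some 1)) := by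
  have : PrimrecPred (fun q : ℕ × Code × ℕ => evaln q.1 q.2.1 q.2.2 = some 1) :=
    Primrec.eq.comp (primrec_evaln.comp (Primrec.pair (Primrec.pair fst (fst.comp snd))
      (snd.comp snd))) (Primrec.const (some 1))
  exact this.decide

theorem U_primrec : Primrec₂ U := by
  have h : Primrec₂ (fun (q : Code × List ℕ) (s : ℕ × List ℕ) =>
      !(decide (evaln s.1 q.1 (Encodable.encode s.2) = some 1))) :=
    Primrec.not.comp (evd_primrec.comp (Primrec.pair (fst.comp snd) (Primrec.pair (fst.comp fst)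
      (Primrec.encode.comp (snd.comp snd)))))
  refine (Primrec.list_casesOn (snd : Primrec (fun q : Code × List ℕ => q.2))
    (Primrec.const false) h).of_eq ?_
  rintro ⟨c, xs⟩
  cases xs <;> rfl

theorem Ef_primrec : Primrec (fun q : Code × ℕ × List ℕ × List ℕ =>
    Ef q.1 q.2.1 q.2.2.1 q.2.2.2) := by
  have hr : Primrec (fun q : Code × ℕ × List ℕ × List ℕ => q.2.1) := fst.comp snd
  have hxs : Primrec (fun q : Code × ℕ × List ℕ × List ℕ => q.2.2.1) := fst.comp (snd.comp snd)
  have hL : Primrec (fun q : Code × ℕ × List ℕ × List ℕ => q.2.2.2) := snd.comp (snd.comp snd)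
  refine Primrec.nat_omega_rec' (m := fun q => q.2.1)
    (l := fun q => if q.2.1 = 0 then [] else
      (List.range q.2.2.2.headI).map (fun m => (q.1, q.2.1 - 1, m :: q.2.2.1, q.2.2.2.tail)))
    (g := fun q vals => if q.2.1 = 0 then some (U q.1 q.2.2.1)
      else some (vals.any (fun v => !v))) _ hr ?_ ?_ ?_ ?_
  · refine Primrec.ite (Primrec.eq.comp hr (Primrec.const 0)) (Primrec.const []) ?_
    refine Primrec.list_map (Primrec.list_range.comp (Primrec.list_headI.comp hL)) ?_
    exact Primrec.pair (fst.comp fst) (Primrec.pair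
      (Primrec.nat_sub.comp (hr.comp fst) (Primrec.const 1))
      (Primrec.pair (Primrec.list_cons.comp snd (hxs.comp fst))
        (Primrec.list_tail.comp (hL.comp fst))))
  · refine Primrec.ite (Primrec.eq.comp (hr.comp fst) (Primrec.const 0)) ?_ ?_
    · exact Primrec.option_some.comp (U_primrec.comp (fst.comp fst) (hxs.comp fst))
    · refine Primrec.option_some.comp (any_primrec snd ?_)
      exact Primrec.not.comp snd
  · rintro ⟨c, r, xs, L⟩ b' hb'
    simp only at hb' ⊢
    split_ifs at hb' with h0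
    · simp at hb'
    · obtain ⟨m, _, rfl⟩ := List.mem_map.1 hb'
      simp only
      omega
  · rintro ⟨c, r, xs, L⟩
    cases r with
    | zero => simp [Ef]
    | succ r =>
      simp only [Nat.add_eq_zero_iff, one_ne_zero, and_false, if_false, Nat.add_sub_cancel,
        Option.some.injEq, Ef, bEx_eq, List.map_map, List.any_map]
      rfl

theorem bEv_primrec : Primrec (fun q : Code × ℕ × List ℕ => bEv q.1 q.2.1 q.2.2) := by
  have h : Primrec₂ (fun (q : Code × ℕ × List ℕ) (s : ℕ × List ℕ) =>
      decide (evaln s.1 q.1 q.2.1 = some 1)) :=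
    evd_primrec.comp (Primrec.pair (fst.comp snd) (Primrec.pair (fst.comp fst)
      (fst.comp (snd.comp fst))))
  refine (Primrec.list_casesOn (snd.comp snd : Primrec (fun q : Code × ℕ × List ℕ => q.2.2))
    (Primrec.const false) h).of_eq ?_
  rintro ⟨c, n, xs⟩
  cases xs <;> rfl

/-- arguments `(e, c, r)` -/
abbrev P3 := Code × Code × ℕ

theorem fA_primrec : Primrec (fun q : P3 × ℕ × ℕ × List ℕ =>
    fA q.1.1 q.1.2.1 q.1.2.2 q.2.1 q.2.2.1 q.2.2.2) := by
  have he : Primrec (fun q : P3 × ℕ × ℕ × List ℕ => q.1.1) := fst.comp fst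
  have hc : Primrec (fun q : P3 × ℕ × ℕ × List ℕ => q.1.2.1) := fst.comp (snd.comp fst)
  have hr : Primrec (fun q : P3 × ℕ × ℕ × List ℕ => q.1.2.2) := snd.comp (snd.comp fst)
  have hx : Primrec (fun q : P3 × ℕ × ℕ × List ℕ => q.2.1) := fst.comp snd
  have hy : Primrec (fun q : P3 × ℕ × ℕ × List ℕ => q.2.2.1) := fst.comp (snd.comp snd)
  have hL : Primrec (fun q : P3 × ℕ × ℕ × List ℕ => q.2.2.2) := snd.comp (snd.comp snd)
  unfold fA
  refine Primrec.and.comp ?_ (Primrec.and.comp ?_ ?_)
  · exact Ef_primrec.comp (Primrec.pair hc (Primrec.pair hr (Primrec.pair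
      (Primrec.list_cons.comp hx (Primrec.const [])) hL)))
  · exact Ef_primrec.comp (Primrec.pair hc (Primrec.pair hr (Primrec.pair
      (Primrec.list_cons.comp hy (Primrec.const [])) hL)))
  · exact bEv_primrec.comp (Primrec.pair he (Primrec.pair (Primrec₂.natPair.comp hx hy) hL))

theorem fD_aux1 {α : Type*} [Primcodable α] {A : α → P3} {x y : α → ℕ} {L : α → List ℕ}
    (hA : Primrec A) (hx : Primrec x) (hy : Primrec y) (hL : Primrec L) :
    Primrec (fun a => fA (A a).1 (A a).2.1 (A a).2.2 (x a) (y a) (L a)) :=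
  fA_primrec.comp (g := fun a => (A a, x a, y a, L a))
    (Primrec.pair hA (Primrec.pair hx (Primrec.pair hy hL)))

def iB (A : P3) (x y z : ℕ) (L : List ℕ) : Bool :=
  fA A.1 A.2.1 A.2.2 x z L && fA A.1 A.2.1 A.2.2 z y L

theorem iB_primrec {α : Type*} [Primcodable α] {A : α → P3} {x y z : α → ℕ} {L : α → List ℕ}
    (hA : Primrec A) (hx : Primrec x) (hy : Primrec y) (hz : Primrec z) (hL : Primrec L) :
    Primrec (fun a => iB (A a) (x a) (y a) (z a) (L a)) :=
  Primrec.and.comp (fD_aux1 hA hx hz hL) (fD_aux1 hA hz hy hL)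

def iC (A : P3) (x y : ℕ) (L : List ℕ) : Bool :=
  fA A.1 A.2.1 A.2.2 x y L && !(bEx (iB A x y) L)

theorem iC_primrec {α : Type*} [Primcodable α] {A : α → P3} {x y : α → ℕ} {L : α → List ℕ}
    (hA : Primrec A) (hx : Primrec x) (hy : Primrec y) (hL : Primrec L) :
    Primrec (fun a => iC (A a) (x a) (y a) (L a)) := by
  have h0 : Primrec (fun q : (P3 × ℕ × ℕ) × ℕ × List ℕ => iB q.1.1 q.1.2.1 q.1.2.2 q.2.1 q.2.2) :=
    iB_primrec (fst.comp fst) (fst.comp (snd.comp fst)) (snd.comp (snd.comp fst))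
      (fst.comp snd) (snd.comp snd)
  have h1 : Primrec (fun q : (P3 × ℕ × ℕ) × List ℕ => bEx (iB q.1.1 q.1.2.1 q.1.2.2) q.2) :=
    bEx_primrec (G := fun a : P3 × ℕ × ℕ => iB a.1 a.2.1 a.2.2) h0
  have h2 : Primrec (fun a => bEx (iB (A a) (x a) (y a)) (L a)) :=
    h1.comp (g := fun a => ((A a, x a, y a), L a))
      (Primrec.pair (Primrec.pair hA (Primrec.pair hx hy)) hL)
  exact Primrec.and.comp (fD_aux1 hA hx hy hL) (Primrec.not.comp h2)

theorem fD_eq (e c : Code) (r : ℕ) (L : List ℕ) : fD e c r L =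
    (bEx (fun x => bEx (fun y => fA e c r x y)) L &&
      !(bEx (fun x => bEx (fun y => iC (e, c, r) x y)) L)) := rfl

theorem fD_primrec : Primrec (fun q : P3 × List ℕ => fD q.1.1 q.1.2.1 q.1.2.2 q.2) := by
  -- first conjunct
  have h0 : Primrec (fun q : (P3 × ℕ) × ℕ × List ℕ =>
      fA q.1.1.1 q.1.1.2.1 q.1.1.2.2 q.1.2 q.2.1 q.2.2) :=
    fD_aux1 (A := fun q : (P3 × ℕ) × ℕ × List ℕ => q.1.1) (fst.comp fst) (snd.comp fst)
      (fst.comp snd) (snd.comp snd)
  have h1 : Primrec (fun q : (P3 × ℕ) × List ℕ =>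
      bEx (fun y => fA q.1.1.1 q.1.1.2.1 q.1.1.2.2 q.1.2 y) q.2) :=
    bEx_primrec (α := P3 × ℕ) (G := fun a y L => fA a.1.1 a.1.2.1 a.1.2.2 a.2 y L) h0
  have h1' : Primrec (fun q : P3 × ℕ × List ℕ =>
      bEx (fun y => fA q.1.1 q.1.2.1 q.1.2.2 q.2.1 y) q.2.2) :=
    h1.comp (g := fun q : P3 × ℕ × List ℕ => ((q.1, q.2.1), q.2.2))
      (Primrec.pair (Primrec.pair fst (fst.comp snd)) (snd.comp snd))
  have h2 : Primrec (fun q : P3 × List ℕ =>
      bEx (fun x => bEx (fun y => fA q.1.1 q.1.2.1 q.1.2.2 x y)) q.2) :=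
    bEx_primrec (α := P3) (G := fun a x L => bEx (fun y => fA a.1 a.2.1 a.2.2 x y) L) h1'
  -- second conjunct
  have k0 : Primrec (fun q : (P3 × ℕ) × ℕ × List ℕ => iC q.1.1 q.1.2 q.2.1 q.2.2) :=
    iC_primrec (fst.comp fst) (snd.comp fst) (fst.comp snd) (snd.comp snd)
  have k1 : Primrec (fun q : (P3 × ℕ) × List ℕ => bEx (fun y => iC q.1.1 q.1.2 y) q.2) :=
    bEx_primrec (α := P3 × ℕ) (G := fun a y L => iC a.1 a.2 y L) k0
  have k1' : Primrec (fun q : P3 × ℕ × List ℕ => bEx (fun y => iC q.1 q.2.1 y) q.2.2) :=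
    k1.comp (g := fun q : P3 × ℕ × List ℕ => ((q.1, q.2.1), q.2.2))
      (Primrec.pair (Primrec.pair fst (fst.comp snd)) (snd.comp snd))
  have k2 : Primrec (fun q : P3 × List ℕ => bEx (fun x => bEx (fun y => iC q.1 x y)) q.2) :=
    bEx_primrec (α := P3) (G := fun a x L => bEx (fun y => iC a x y) L) k1'
  have h3 := Primrec.and.comp h2 (Primrec.not.comp k2)
  exact h3.of_eq (fun q => (fD_eq q.1.1 q.1.2.1 q.1.2.2 q.2).symm)

theorem kf_primrec : Primrec₂ kf := by
  have h : Primrec₂ (fun (q : Code × List ℕ) (j : ℕ) =>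
      !(fD q.1 (Denumerable.ofNat Code j.unpair.2) j.unpair.1 q.2)) := by
    refine Primrec.not.comp ?_
    refine fD_primrec.comp (Primrec.pair (Primrec.pair (fst.comp fst) (Primrec.pair ?_ ?_))
      (snd.comp fst))
    · exact (Primrec.ofNat Code).comp (snd.comp (Primrec.unpair.comp snd))
    · exact fst.comp (Primrec.unpair.comp snd)
  refine Primrec.nat_add.comp (Primrec.const 1) (lead_primrec h ?_)
  exact Primrec.nat_sub.comp (Primrec.nat_div.comp (Primrec.list_length.comp snd)
    (Primrec.const 2)) (Primrec.const 1)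

theorem X_primrec : Primrec (fun q : Code × ℕ × List ℕ => X gcode (kf q.1) q.2.1 q.2.2) := by
  have hu : Primrec (fun q : Code × ℕ × List ℕ => q.2.1) := fst.comp snd
  have hL : Primrec (fun q : Code × ℕ × List ℕ => q.2.2) := snd.comp snd
  have hkf : Primrec (fun q : Code × ℕ × List ℕ => kf q.1 q.2.2) := kf_primrec.comp fst hL
  have hu1 : Primrec (fun q : Code × ℕ × List ℕ => q.2.1 - 1) :=
    Primrec.nat_sub.comp hu (Primrec.const 1)
  refine Primrec.nat_omega_rec' (m := fun q => q.2.1)
    (l := fun q => if q.2.1 = 0 then [] else (q.1, q.2.1 - 1, q.2.2) ::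
      (List.range q.2.1).map (fun s => (q.1, q.2.1 - 1, s :: (q.2.1 - 1) :: q.2.2)))
    (g := fun q vals => if q.2.1 = 0 then
        some (((List.range (kf q.1 q.2.2)).map gcode, []) : St)
      else some (step gcode (kf q.1 q.2.2) (vals.headI) (vals.tail.map Prod.fst))) _ hu ?_ ?_ ?_ ?_
  · refine Primrec.ite (Primrec.eq.comp hu (Primrec.const 0)) (Primrec.const []) ?_
    refine Primrec.list_cons.comp (Primrec.pair fst (Primrec.pair hu1 hL)) ?_
    refine Primrec.list_map (Primrec.list_range.comp hu) ?_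
    exact Primrec.pair (fst.comp fst) (Primrec.pair (hu1.comp fst)
      (Primrec.list_cons.comp snd (Primrec.list_cons.comp (hu1.comp fst) (hL.comp fst))))
  · refine Primrec.ite (Primrec.eq.comp (hu.comp fst) (Primrec.const 0)) ?_ ?_
    · exact Primrec.option_some.comp (Primrec.pair (gmap_primrec.comp (hkf.comp fst))
        (Primrec.const []))
    · refine Primrec.option_some.comp (step_primrec.comp (Primrec.pair (hkf.comp fst)
        (Primrec.pair (Primrec.list_headI.comp snd) ?_)))
      exact Primrec.list_map (Primrec.list_tail.comp snd) (fst.comp snd)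
  · rintro ⟨e, u, L⟩ b' hb'
    simp only at hb' ⊢
    split_ifs at hb' with h0
    · simp at hb'
    · rcases List.mem_cons.1 hb' with rfl | hb'
      · simp only; omega
      · obtain ⟨m, _, rfl⟩ := List.mem_map.1 hb'
        simp only
        omega
  · rintro ⟨e, u, L⟩
    cases u with
    | zero => simp [X]
    | succ u =>
      simp only [Nat.add_eq_zero_iff, one_ne_zero, and_false, if_false, Nat.add_sub_cancel,
        Option.some.injEq, X, List.map_cons, List.headI_cons, List.tail_cons, List.map_map]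
      rfl

/-- code of the bottom order -/
def cE (e : Code) (m : ℕ) : Option ℕ := (X gcode (kf e) (m + 1) []).1.getD m none

theorem cE_primrec : Primrec₂ cE := by
  have hg : Primrec (fun q : Code × ℕ => (q.1, q.2 + 1, ([] : List ℕ))) :=
    Primrec.pair fst (Primrec.pair (Primrec.succ.comp snd) (Primrec.const []))
  have h : Primrec (fun q : Code × ℕ => X gcode (kf q.1) (q.2 + 1) []) :=
    X_primrec.comp (g := fun q : Code × ℕ => (q.1, q.2 + 1, ([] : List ℕ))) hg
  have h2 : Primrec (fun q : Code × ℕ => (X gcode (kf q.1) (q.2 + 1) []).1.getD q.2 none) :=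
    (Primrec.list_getD none).comp (fst.comp h) snd
  exact h2

theorem ltb_primrec : Primrec (fun q : Code × ℕ × ℕ => ltb (cE q.1) q.2.1 q.2.2) := by
  have hx : Primrec (fun q : Code × ℕ × ℕ => q.2.1) := fst.comp snd
  have hy : Primrec (fun q : Code × ℕ × ℕ => q.2.2) := snd.comp snd
  have hcx : Primrec (fun q : Code × ℕ × ℕ => cE q.1 q.2.1) := cE_primrec.comp fst hx
  have hcy : Primrec (fun q : Code × ℕ × ℕ => cE q.1 q.2.2) := cE_primrec.comp fst hy
  refine Primrec.nat_omega_rec' (m := fun q => q.2.1 + q.2.2)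
    (l := fun q => if q.2.1 < q.2.2 then
        ((cE q.1 q.2.2).casesOn [] (fun r => if r < q.2.2 then [(q.1, q.2.1, r)] else []))
      else if q.2.2 < q.2.1 then
        ((cE q.1 q.2.1).casesOn [] (fun r => if r < q.2.1 then [(q.1, r, q.2.2)] else []))
      else [])
    (g := fun q vals => if q.2.1 < q.2.2 then
        ((cE q.1 q.2.2).casesOn (some true)
          (fun r => if r < q.2.2 then some vals.headI else some false))
      else if q.2.2 < q.2.1 then
        ((cE q.1 q.2.1).casesOn (some false)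
          (fun r => if r < q.2.1 then some (decide (r = q.2.2) || vals.headI) else some false))
      else some false) _ (Primrec.nat_add.comp hx hy) ?_ ?_ ?_ ?_
  · refine Primrec.ite (Primrec.nat_lt.comp hx hy) ?_
      (Primrec.ite (Primrec.nat_lt.comp hy hx) ?_ (Primrec.const []))
    · refine Primrec.option_casesOn hcy (Primrec.const []) ?_
      refine Primrec.ite (Primrec.nat_lt.comp snd (hy.comp fst)) ?_ (Primrec.const [])
      exact Primrec.list_cons.comp (Primrec.pair (fst.comp fst) (Primrec.pair (hx.comp fst) snd))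
        (Primrec.const [])
    · refine Primrec.option_casesOn hcx (Primrec.const []) ?_
      refine Primrec.ite (Primrec.nat_lt.comp snd (hx.comp fst)) ?_ (Primrec.const [])
      exact Primrec.list_cons.comp (Primrec.pair (fst.comp fst) (Primrec.pair snd (hy.comp fst)))
        (Primrec.const [])
  · refine Primrec.ite (Primrec.nat_lt.comp (hx.comp fst) (hy.comp fst)) ?_
      (Primrec.ite (Primrec.nat_lt.comp (hy.comp fst) (hx.comp fst)) ?_
        (Primrec.const (some false)))
    · refine Primrec.option_casesOn (hcy.comp fst) (Primrec.const (some true)) ?_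
      refine Primrec.ite (Primrec.nat_lt.comp snd (hy.comp (fst.comp fst))) ?_
        (Primrec.const (some false))
      exact Primrec.option_some.comp (Primrec.list_headI.comp (snd.comp fst))
    · refine Primrec.option_casesOn (hcx.comp fst) (Primrec.const (some false)) ?_
      refine Primrec.ite (Primrec.nat_lt.comp snd (hx.comp (fst.comp fst))) ?_
        (Primrec.const (some false))
      refine Primrec.option_some.comp (Primrec.or.comp ?_
        (Primrec.list_headI.comp (snd.comp fst)))
      exact (Primrec.eq.comp snd (hy.comp (fst.comp fst))).decide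
  · rintro ⟨e, x, y⟩ b' hb'
    simp only at hb' ⊢
    split_ifs at hb' with h0 h1
    · cases hc : cE e y with
      | none => rw [hc] at hb'; simp at hb'
      | some r =>
        rw [hc] at hb'
        simp only at hb'
        split_ifs at hb' with h2
        · simp only [List.mem_singleton] at hb'
          rw [hb']; simp only; omega
        · simp at hb'
    · cases hc : cE e x with
      | none => rw [hc] at hb'; simp at hb'
      | some r =>
        rw [hc] at hb'
        simp only at hb'
        split_ifs at hb' with h2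
        · simp only [List.mem_singleton] at hb'
          rw [hb']; simp only; omega
        · simp at hb'
    · simp at hb'
  · rintro ⟨e, x, y⟩
    simp only
    rw [ltb]
    by_cases h0 : x < y
    · simp only [h0, if_true]
      cases hc : cE e y with
      | none => rfl
      | some r =>
        simp only
        by_cases h2 : r < y
        · simp [h2]
        · simp [h2]
    · simp only [h0, if_false]
      by_cases h1 : y < x
      · simp only [h1, if_true]
        cases hc : cE e x with
        | none => rfl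
        | some r =>
          simp only
          by_cases h2 : r < x
          · simp [h2]
          · simp [h2]
      · simp [h1]

/-- the relation on the natural numbers -/
def Rb (e : Code) (x y : ℕ) : Bool :=
  if x % 2 = 0 then (if y % 2 = 0 then ltb (cE e) (x / 2) (y / 2) else false)
  else (if y % 2 = 0 then true else ltb (cE e) (y / 2 + 1) (x / 2 + 1))

theorem Rb_primrec : Primrec (fun q : Code × ℕ × ℕ => Rb q.1 q.2.1 q.2.2) := by
  have hx : Primrec (fun q : Code × ℕ × ℕ => q.2.1) := fst.comp snd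
  have hy : Primrec (fun q : Code × ℕ × ℕ => q.2.2) := snd.comp snd
  have hx2 : PrimrecPred (fun q : Code × ℕ × ℕ => q.2.1 % 2 = 0) :=
    Primrec.eq.comp (Primrec.nat_mod.comp hx (Primrec.const 2)) (Primrec.const 0)
  have hy2 : PrimrecPred (fun q : Code × ℕ × ℕ => q.2.2 % 2 = 0) :=
    Primrec.eq.comp (Primrec.nat_mod.comp hy (Primrec.const 2)) (Primrec.const 0)
  have hxd : Primrec (fun q : Code × ℕ × ℕ => q.2.1 / 2) := Primrec.nat_div.comp hx (Primrec.const 2)
  have hyd : Primrec (fun q : Code × ℕ × ℕ => q.2.2 / 2) := Primrec.nat_div.comp hy (Primrec.const 2)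
  unfold Rb
  refine Primrec.ite hx2 (Primrec.ite hy2 ?_ (Primrec.const false))
    (Primrec.ite hy2 (Primrec.const true) ?_)
  · exact ltb_primrec.comp (Primrec.pair fst (Primrec.pair hxd hyd))
  · exact ltb_primrec.comp (Primrec.pair fst (Primrec.pair (Primrec.succ.comp hyd)
      (Primrec.succ.comp hxd)))

end Pool.Agent.Helper748.ZO

end

/-! ## Part Fin -/

section
namespace Pool.Agent.Helper748.ZO

open Filter
open Nat.Partrec (Code)
open Nat.Partrec.Code

/-! ### Arithmetical predicates -/

/-- remove the element with index `r` -/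
def er : ℕ → List ℕ → List ℕ
  | 0, ys => ys.tail
  | _ + 1, [] => []
  | r + 1, a :: l => a :: er r l

theorem er_primrec (r : ℕ) : Primrec (er r) := by
  induction r with
  | zero => exact Primrec.list_tail.of_eq (fun ys => rfl)
  | succ r ih =>
    have h : Primrec₂ (fun (_ : List ℕ) (s : ℕ × List ℕ) => s.1 :: er r s.2) :=
      Primrec.list_cons.comp (Primrec.fst.comp Primrec.snd)
        (ih.comp (Primrec.snd.comp Primrec.snd))
    refine (Primrec.list_casesOn (Primrec.id : Primrec (fun ys : List ℕ => ys))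
      (Primrec.const []) h).of_eq ?_
    intro ys
    cases ys <;> rfl

theorem er_append (ws xs : List ℕ) (m : ℕ) : er ws.length (ws ++ m :: xs) = ws ++ xs := by
  induction ws with
  | nil => rfl
  | cons a ws ih => show a :: er ws.length (ws ++ m :: xs) = _; rw [ih]; rfl

theorem Es_dummy (T : List ℕ → Bool) (r : ℕ) : ∀ j (ws xs : List ℕ) (m : ℕ),
    ws.length + j = r → (Es (fun ys => T (er r ys)) j (ws ++ m :: xs) ↔ Es T j (ws ++ xs)) := by
  intro j
  induction j with
  | zero =>
    intro ws xs m h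
    have h : ws.length = r := by omega
    subst h
    show T (er ws.length (ws ++ m :: xs)) = true ↔ T (ws ++ xs) = true
    rw [er_append]
  | succ j ih =>
    intro ws xs m h
    show (∃ n, ¬ Es _ j (n :: (ws ++ m :: xs))) ↔ ∃ n, ¬ Es _ j (n :: (ws ++ xs))
    constructor
    · rintro ⟨n, hn⟩
      refine ⟨n, fun h' => hn ?_⟩
      exact (ih (n :: ws) xs m (by simp; omega)).2 h'
    · rintro ⟨n, hn⟩
      refine ⟨n, fun h' => hn ?_⟩
      exact (ih (n :: ws) xs m (by simp; omega)).1 h'

theorem Es_neg (T : List ℕ → Bool) (r : ℕ) (xs : List ℕ) :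
    Es (fun ys => T (er r ys)) (r + 1) xs ↔ ¬ Es T r xs := by
  show (∃ n, ¬ Es _ r (n :: xs)) ↔ _
  constructor
  · rintro ⟨n, hn⟩ h
    exact hn ((Es_dummy T r r [] xs n (by simp)).2 h)
  · intro h
    exact ⟨0, fun h' => h ((Es_dummy T r r [] xs 0 (by simp)).1 h')⟩

/-- the class of predicates given by alternating quantifier prefixes -/
def AC (k : ℕ) : Set ((Fin k → ℕ) → Prop) :=
  {P | ∃ (r : ℕ) (T : List ℕ → Bool), Computable T ∧ ∀ v, P v ↔ Es T r (List.ofFn v)}

theorem AC_comp (k : ℕ) (P : (Fin k → ℕ) → Prop) (hP : ComputablePred P) : P ∈ AC k := by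
  obtain ⟨hd, hc⟩ := hP
  have hg : Primrec (fun xs : List ℕ => fun i : Fin k => xs.getD i.1 0) := by
    rw [Primrec.fin_curry]
    exact (Primrec.list_getD 0).comp Primrec.fst (Primrec.fin_val.comp Primrec.snd)
  refine ⟨0, fun xs => decide (P (fun i : Fin k => xs.getD i.1 0)), hc.comp hg.to_comp, ?_⟩
  intro v
  show P v ↔ decide (P (fun i : Fin k => (List.ofFn v).getD i.1 0)) = true
  rw [decide_eq_true_iff]
  have : (fun i : Fin k => (List.ofFn v).getD i.1 0) = v := by
    funext i
    simp [List.getD]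
  rw [this]

theorem AC_neg (k : ℕ) (P : (Fin k → ℕ) → Prop) (hP : P ∈ AC k) : (fun v => ¬ P v) ∈ AC k := by
  obtain ⟨r, T, hT, h⟩ := hP
  refine ⟨r + 1, fun ys => T (er r ys), hT.comp (er_primrec r).to_comp, ?_⟩
  intro v
  rw [Es_neg, ← h v]

theorem AC_ex (k : ℕ) (P : (Fin (k + 1) → ℕ) → Prop) (hP : P ∈ AC (k + 1)) :
    (fun v : Fin k → ℕ => ∃ m : ℕ, P (Fin.cons m v : Fin (k + 1) → ℕ)) ∈ AC k := by
  obtain ⟨r, T, hT, h⟩ := hP
  refine ⟨r + 2, fun ys => T (er r ys), hT.comp (er_primrec r).to_comp, ?_⟩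
  intro v
  show (∃ m : ℕ, P (Fin.cons m v : Fin (k + 1) → ℕ)) ↔ ∃ m, ¬ Es _ (r + 1) (m :: List.ofFn v)
  refine exists_congr (fun m => ?_)
  rw [Es_neg, not_not, h]
  rw [List.ofFn_succ]
  simp

/-- a code for a computable base predicate -/
theorem exists_code_base (T : List ℕ → Bool) (hT : Computable T) :
    ∃ c : Code, ∀ ys, (T ys = true ↔ 1 ∈ eval c (Encodable.encode ys)) := by
  have h1 : Computable (fun n : ℕ =>
      Encodable.encode (T ((Encodable.decode (α := List ℕ) n).getD []))) :=
    Computable.encode.comp (hT.comp (Computable.option_getD Computable.decode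
      (Computable.const [])))
  obtain ⟨c, hc⟩ := Nat.Partrec.Code.exists_code.1 (Partrec.nat_iff.1 h1.partrec)
  refine ⟨c, fun ys => ?_⟩
  rw [hc]
  simp only [PFun.coe_val, Part.mem_some_iff, Encodable.encodek, Option.getD_some]
  cases T ys <;> simp

theorem Es_code (T : List ℕ → Bool) (c : Code)
    (hc : ∀ ys, (T ys = true ↔ 1 ∈ eval c (Encodable.encode ys))) :
    ∀ r xs, Es (U c) (r + 1) xs ↔ Es T r xs := by
  intro r
  induction r with
  | zero =>
    intro xs
    show (∃ m, ¬ (U c (m :: xs) = true)) ↔ T xs = true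
    rw [hc, evaln_complete]
    refine exists_congr (fun m => ?_)
    show ¬ ((!(decide (evaln m c (Encodable.encode xs) = some 1))) = true) ↔
      1 ∈ evaln m c (Encodable.encode xs)
    simp
  | succ r ih =>
    intro xs
    show (∃ m, ¬ Es (U c) (r + 1) (m :: xs)) ↔ ∃ m, ¬ Es T r (m :: xs)
    exact exists_congr (fun m => not_congr (ih (m :: xs)))

/-! ### Coding of the integers -/

def decZ : ℕ ≃ ℤ where
  toFun n := if n % 2 = 0 then Int.ofNat (n / 2) else Int.negSucc (n / 2)
  invFun a := match a with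
    | .ofNat x => 2 * x
    | .negSucc x => 2 * x + 1
  left_inv n := by
    simp only
    split_ifs with h
    · show 2 * (n / 2) = n; omega
    · show 2 * (n / 2) + 1 = n; omega
  right_inv a := by
    cases a with
    | ofNat x => simp
    | negSucc x =>
      have h1 : (2 * x + 1) % 2 = 1 := by omega
      have h2 : (2 * x + 1) / 2 = x := by omega
      simp [h1, h2]

theorem cE_eq (e : Code) : cL gcode (kf_conv e) 0 = cE e := by
  funext m
  unfold cL codeOf cE
  have : XL gcode (kf_conv e) (2 * 0) (m + 1) [] = X gcode (kf e) (m + 1) [] := by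
    apply lm_eq
    show ∀ᶠ L in Fl 0, _
    rw [ev_Fl_zero]; rfl
  show (XL gcode (kf_conv e) (2 * 0) (m + 1) []).1.getD m none = _
  rw [this]

theorem Rb_iff (e : Code) (x y : ℕ) : Rb e x y = true ↔ DLt (cE e) (decZ x) (decZ y) := by
  show _ ↔ DLt (cE e) (if x % 2 = 0 then Int.ofNat (x / 2) else Int.negSucc (x / 2))
    (if y % 2 = 0 then Int.ofNat (y / 2) else Int.negSucc (y / 2))
  unfold Rb
  split_ifs with h1 h2 h2
  · exact Iff.rfl
  · exact ⟨fun h => absurd h (by simp), fun h => absurd h id⟩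
  · exact ⟨fun _ => trivial, fun _ => rfl⟩
  · exact Iff.rfl

/-- the tower attached to a code -/
theorem exists_sys (e : Code) :
    ∃ p, Sys (kL (kf_conv e)) (cL gcode (kf_conv e)) gcode p := by
  choose p hp using fun n => level gcode (kf_conv e) gcode_vc (kf_pos e) n (kL_mono e n)
  refine ⟨p, ⟨fun n => cL_vc gcode (kf_conv e) gcode_vc (kf_pos e) n, gcode_vc, hp, ?_,
    kL_mono e, ?_⟩⟩
  · intro n; exact lm_ge (kf_conv e) (kf_pos e)
  · intro n i hi
    exact (XL_run gcode (kf_conv e) gcode_vc (kf_pos e) (2 * n) []).code_low hi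

theorem main :
    ∃ R : ℕ → ℕ → Prop,
      ComputablePred (fun p : ℕ × ℕ => R p.1 p.2) ∧
      (∃ f : ℕ ≃ Lex (ℚ × Lex (ℕᵒᵈ →₀ ℤ)), ∀ a b : ℕ, R a b ↔ f a < f b) ∧
      ∀ S : Set ℕ,
        (∀ A : (k : ℕ) → Set ((Fin k → ℕ) → Prop),
          (∀ k : ℕ, ∀ P : (Fin k → ℕ) → Prop, ComputablePred P → P ∈ A k) →
          (∀ k : ℕ, ∀ P : (Fin k → ℕ) → Prop, P ∈ A k → (fun v => ¬ P v) ∈ A k) →
          (∀ k : ℕ, ∀ P : (Fin (k + 1) → ℕ) → Prop, P ∈ A (k + 1) →
              (fun v : Fin k → ℕ => ∃ m : ℕ, P (Fin.cons m v : Fin (k + 1) → ℕ)) ∈ A k) →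
          (fun v : Fin 1 → ℕ => v 0 ∈ S) ∈ A 1) →
        ¬ ∃ g : S ≃ ℚ, ∀ a b : S, R a b ↔ g a < g b := by
  -- the fixed point
  have hF : Computable₂ (fun (e : Code) (n : ℕ) =>
      (if Rb e n.unpair.1 n.unpair.2 = true then 1 else 0 : ℕ)) := by
    have h1 : Primrec (fun q : Code × ℕ => Rb q.1 q.2.unpair.1 q.2.unpair.2) :=
      Rb_primrec.comp (g := fun q : Code × ℕ => (q.1, q.2.unpair.1, q.2.unpair.2))
        (Primrec.pair Primrec.fst (Primrec.pair
          (Primrec.fst.comp (Primrec.unpair.comp Primrec.snd))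
          (Primrec.snd.comp (Primrec.unpair.comp Primrec.snd))))
    have h2 : Primrec (fun q : Code × ℕ =>
        (if Rb q.1 q.2.unpair.1 q.2.unpair.2 = true then 1 else 0 : ℕ)) :=
      Primrec.ite (Primrec.eq.comp h1 (Primrec.const true)) (Primrec.const 1) (Primrec.const 0)
    exact h2.to_comp
  obtain ⟨e, he⟩ := Nat.Partrec.Code.fixed_point₂
    (f := fun (e : Code) (n : ℕ) => Part.some
      (if Rb e n.unpair.1 n.unpair.2 = true then 1 else 0 : ℕ)) hF.partrec₂
  have hev : ∀ x y, 1 ∈ eval e (Nat.pair x y) ↔ Rb e x y = true := by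
    intro x y
    rw [he]
    simp only [Nat.unpair_pair, Part.mem_some_iff]
    split_ifs with h
    · simp [h]
    · simp [h]
  obtain ⟨p, Sy⟩ := exists_sys e
  have hc0 : cL gcode (kf_conv e) 0 = cE e := cE_eq e
  -- the density statements are all false
  have hno : ∀ j : ℕ, ¬ pD e (Denumerable.ofNat Code j.unpair.2) j.unpair.1 := by
    intro j hj
    set c := Denumerable.ofNat Code j.unpair.2
    set r := j.unpair.1
    have hA : ∀ x y, pA e c r x y ↔ (Es (U c) r [x] ∧ Es (U c) r [y] ∧
        DLt (cL gcode (kf_conv e) 0) (decZ x) (decZ y)) := by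
      intro x y
      unfold pA
      rw [hev, Rb_iff, hc0]
    refine Sy.no_dense (j + 1) (kL_bdd e hj) {a | Es (U c) r [decZ.symm a]} ?_ ?_
    · obtain ⟨⟨x, y, hxy⟩, -⟩ := hj
      rw [hA] at hxy
      exact ⟨decZ x, by simpa using hxy.1, decZ y, by simpa using hxy.2.1, hxy.2.2⟩
    · intro a ha b hb hab
      have h2 := hj.2
      by_contra hcon
      apply h2
      refine ⟨decZ.symm a, decZ.symm b, ?_, ?_⟩
      · rw [hA]; exact ⟨ha, hb, by simpa using hab⟩
      · rintro ⟨z, hz1, hz2⟩
        rw [hA] at hz1 hz2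
        apply hcon
        refine ⟨decZ z, by simpa using hz1.2.1, ?_, ?_⟩
        · simpa using hz1.2.2
        · simpa using hz2.2.2
  refine ⟨fun x y => Rb e x y = true, ?_, ?_, ?_⟩
  · -- computability
    refine ⟨inferInstance, ?_⟩
    have h1 : Primrec (fun q : ℕ × ℕ => Rb e q.1 q.2) :=
      Rb_primrec.comp (g := fun q : ℕ × ℕ => (e, q.1, q.2))
        (Primrec.pair (Primrec.const e) (Primrec.pair Primrec.fst Primrec.snd))
    refine h1.to_comp.of_eq ?_
    intro q
    show Rb e q.1 q.2 = decide (Rb e q.1 q.2 = true)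
    cases Rb e q.1 q.2 <;> simp
  · -- isomorphism
    obtain ⟨φ⟩ := Sy.iso gcode_dense (kL_unb e hno)
    obtain ⟨ψ⟩ := gcode_iso
    have hlt : ∀ x y : ℕ, Rb e x y = true ↔
        DLt (cL gcode (kf_conv e) 0) (decZ x) (decZ y) := by
      intro x y; rw [Rb_iff, hc0]
    let χ : Lex (DO gcode gcode_vc × Lex (ℕᵒᵈ →₀ ℤ)) ≃o Lex (ℚ × Lex (ℕᵒᵈ →₀ ℤ)) :=
      Prod.Lex.prodLexCongr ψ (OrderIso.refl _)
    let φ' : ℤ ≃ Lex (DO gcode gcode_vc × Lex (ℕᵒᵈ →₀ ℤ)) := φ.toEquiv
    have hφ' : ∀ a b : ℤ, DLt (cL gcode (kf_conv e) 0) a b ↔ φ' a < φ' b := by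
      intro a b
      exact (φ.lt_iff_lt (x := a) (y := b)).symm
    refine ⟨(decZ.trans φ').trans χ.toEquiv, ?_⟩
    intro a b
    show Rb e a b = true ↔ _
    rw [hlt, hφ']
    exact (χ.lt_iff_lt).symm
  · -- no arithmetical dense subset
    intro S hS
    rintro ⟨g, hg⟩
    obtain ⟨r, T, hT, h⟩ := hS AC AC_comp AC_neg AC_ex
    obtain ⟨c, hc⟩ := exists_code_base T hT
    have hmem : ∀ x, x ∈ S ↔ Es (U c) (r + 1) [x] := by
      intro x
      have h1 := h (fun _ => x)
      have h2 : List.ofFn (fun _ : Fin 1 => x) = [x] := by simp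
      rw [h2] at h1
      exact h1.trans (Es_code T c hc r [x]).symm
    have hj := hno (Nat.pair (r + 1) (Encodable.encode c))
    rw [Nat.unpair_pair] at hj
    simp only [Denumerable.ofNat_encode] at hj
    apply hj
    have hA : ∀ x y, pA e c (r + 1) x y ↔ (x ∈ S ∧ y ∈ S ∧ Rb e x y = true) := by
      intro x y
      unfold pA
      rw [hev, hmem x, hmem y]
    refine ⟨⟨(g.symm 0).1, (g.symm 1).1, ?_⟩, ?_⟩
    · rw [hA]
      refine ⟨(g.symm 0).2, (g.symm 1).2, ?_⟩
      exact (hg _ _).2 (by simp)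
    · rintro ⟨x, y, hxy, hcon⟩
      rw [hA] at hxy
      apply hcon
      have h1 : g ⟨x, hxy.1⟩ < g ⟨y, hxy.2.1⟩ := (hg ⟨x, hxy.1⟩ ⟨y, hxy.2.1⟩).1 hxy.2.2
      obtain ⟨q, hq1, hq2⟩ := exists_between h1
      refine ⟨(g.symm q).1, ?_, ?_⟩
      · rw [hA]
        exact ⟨hxy.1, (g.symm q).2, (hg ⟨x, hxy.1⟩ (g.symm q)).2 (by simpa using hq1)⟩
      · rw [hA]
        exact ⟨(g.symm q).2, hxy.2.1, (hg (g.symm q) ⟨y, hxy.2.1⟩).2 (by simpa using hq2)⟩

end Pool.Agent.Helper748.ZO

end

open Pool Pool.MP_e58cbf_lc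

namespace Pool.Agent.S09797

/-- There is a computable strict linear order on the naturals, isomorphic to rationals-many copies of zeta^omega, such that no arithmetical set of naturals is ordered by it like the rationals. -/
theorem result :
    ∃ R : ℕ → ℕ → Prop,
      ComputablePred (fun p : ℕ × ℕ => R p.1 p.2) ∧
      (∃ f : ℕ ≃ Lex (ℚ × Lex (ℕᵒᵈ →₀ ℤ)), ∀ a b : ℕ, R a b ↔ f a < f b) ∧
      ∀ S : Set ℕ,
        (∀ A : (k : ℕ) → Set ((Fin k → ℕ) → Prop),
          (∀ k : ℕ, ∀ P : (Fin k → ℕ) → Prop, ComputablePred P → P ∈ A k) →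
          (∀ k : ℕ, ∀ P : (Fin k → ℕ) → Prop, P ∈ A k → (fun v => ¬ P v) ∈ A k) →
          (∀ k : ℕ, ∀ P : (Fin (k + 1) → ℕ) → Prop, P ∈ A (k + 1) →
              (fun v : Fin k → ℕ => ∃ m : ℕ, P (Fin.cons m v : Fin (k + 1) → ℕ)) ∈ A k) →
          (fun v : Fin 1 → ℕ => v 0 ∈ S) ∈ A 1) →
        ¬ ∃ g : S ≃ ℚ, ∀ a b : S, R a b ↔ g a < g b := by
  exact Pool.Agent.Helper748.ZO.main

end Pool.Agent.S09797
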