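import Pool.Statements.S09830

set_option autoImplicit false
open Pool Pool.MP_efd717_lc

namespace Pool.Agent.S09830

/-- Codes for oracle computations. -/
inductive OCode : Type
  | zero : OCode
  | succ : OCode
  | left : OCode
  | right : OCode
  | oracle : OCode
  | pair : OCode → OCode → OCode
  | comp : OCode → OCode → OCode
  | prec : OCode → OCode → OCode
  | rfind : OCode → OCode
deriving Countable

/-- Semantics of the codes relative to an oracle. -/
def OCode.eval (g : ℕ → Part ℕ) : OCode → (ℕ → Part ℕ)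
  | .zero => fun _ => Part.some 0
  | .succ => fun n => Part.some (Nat.succ n)
  | .left => fun n => Part.some (Nat.unpair n).1
  | .right => fun n => Part.some (Nat.unpair n).2
  | .oracle => g
  | .pair a b => fun n => (Nat.pair <$> a.eval g n <*> b.eval g n)
  | .comp a b => fun n => (b.eval g n).bind (a.eval g)
  | .prec a b => fun p =>
        (Nat.unpair p).2.rec (a.eval g (Nat.unpair p).1) fun y IH =>
          IH.bind fun i => b.eval g (Nat.pair (Nat.unpair p).1 (Nat.pair y i))
  | .rfind a => fun x =>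
        Nat.rfind fun n => (a.eval g (Nat.pair x n)).map (fun m => decide (m = 0))

theorem exists_code {g f : ℕ → Part ℕ} (h : Nat.RecursiveIn {g} f) :
    ∃ c : OCode, c.eval g = f := by
  induction h with
  | zero => exact ⟨.zero, rfl⟩
  | succ => exact ⟨.succ, rfl⟩
  | left => exact ⟨.left, rfl⟩
  | right => exact ⟨.right, rfl⟩
  | oracle g' hg => exact ⟨.oracle, (Set.mem_singleton_iff.1 hg).symm⟩
  | pair _ _ ih1 ih2 =>
    obtain ⟨a, rfl⟩ := ih1; obtain ⟨b, rfl⟩ := ih2; exact ⟨.pair a b, rfl⟩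
  | comp _ _ ih1 ih2 =>
    obtain ⟨a, rfl⟩ := ih1; obtain ⟨b, rfl⟩ := ih2; exact ⟨.comp a b, rfl⟩
  | prec _ _ ih1 ih2 =>
    obtain ⟨a, rfl⟩ := ih1; obtain ⟨b, rfl⟩ := ih2; exact ⟨.prec a b, rfl⟩
  | rfind _ ih1 =>
    obtain ⟨a, rfl⟩ := ih1; exact ⟨.rfind a, rfl⟩

/-- The use principle: a halting computation looks only at finitely many oracle values. -/
theorem use_principle (c : OCode) (g : ℕ → Part ℕ) :
    ∀ n v, v ∈ c.eval g n →
      ∃ m : ℕ, ∀ g' : ℕ → Part ℕ, (∀ i < m, g' i = g i) → v ∈ c.eval g' n := by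
  induction c with
  | zero => intro n v h; exact ⟨0, fun _ _ => h⟩
  | succ => intro n v h; exact ⟨0, fun _ _ => h⟩
  | left => intro n v h; exact ⟨0, fun _ _ => h⟩
  | right => intro n v h; exact ⟨0, fun _ _ => h⟩
  | oracle =>
    intro n v h
    refine ⟨n + 1, fun g' hg => ?_⟩
    simp only [OCode.eval] at h ⊢
    rw [hg n (Nat.lt_succ_self n)]; exact h
  | pair a b iha ihb =>
    intro n v h
    simp only [OCode.eval, Seq.seq, Part.mem_bind_iff, Part.map_eq_map, Part.mem_map_iff] at h ⊢
    obtain ⟨f, ⟨x, hx, rfl⟩, y, hy, rfl⟩ := h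
    obtain ⟨m1, h1⟩ := iha n x hx
    obtain ⟨m2, h2⟩ := ihb n y hy
    exact ⟨max m1 m2, fun g' hg =>
      ⟨_, ⟨x, h1 g' fun i hi => hg i (lt_of_lt_of_le hi (le_max_left _ _)), rfl⟩, y,
      h2 g' fun i hi => hg i (lt_of_lt_of_le hi (le_max_right _ _)), rfl⟩⟩
  | comp a b iha ihb =>
    intro n v h
    simp only [OCode.eval, Part.mem_bind_iff] at h ⊢
    obtain ⟨x, hx, hv⟩ := h
    obtain ⟨m1, h1⟩ := ihb n x hx
    obtain ⟨m2, h2⟩ := iha x v hv
    exact ⟨max m1 m2, fun g' hg =>
      ⟨x, h1 g' fun i hi => hg i (lt_of_lt_of_le hi (le_max_left _ _)),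
      h2 g' fun i hi => hg i (lt_of_lt_of_le hi (le_max_right _ _))⟩⟩
  | prec a b iha ihb =>
    intro p v h
    simp only [OCode.eval] at h ⊢
    generalize (Nat.unpair p).1 = x at h ⊢
    generalize (Nat.unpair p).2 = n at h ⊢
    induction n generalizing v with
    | zero => exact iha x v h
    | succ k ih =>
      simp only [Part.mem_bind_iff] at h ⊢
      obtain ⟨i, hi, hv⟩ := h
      obtain ⟨m1, h1⟩ := ih i hi
      obtain ⟨m2, h2⟩ := ihb _ v hv
      exact ⟨max m1 m2, fun g' hg =>
        ⟨i, h1 g' fun i hi => hg i (lt_of_lt_of_le hi (le_max_left _ _)),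
        h2 g' fun i hi => hg i (lt_of_lt_of_le hi (le_max_right _ _))⟩⟩
  | rfind a iha =>
    intro x v h
    obtain ⟨h1, hlt⟩ := Nat.mem_rfind.1 h
    obtain ⟨w, hw, hw'⟩ := (Part.mem_map_iff _).1 h1
    obtain ⟨m0, h0⟩ := iha _ w hw
    have key : ∀ k ≤ v, ∃ M : ℕ, ∀ g' : ℕ → Part ℕ, (∀ i < M, g' i = g i) →
        ∀ m, m < k → ∃ u, u ∈ a.eval g' (Nat.pair x m) ∧ decide (u = 0) = false := by
      intro k
      induction k with
      | zero => intro _; exact ⟨0, fun _ _ m hm => absurd hm (Nat.not_lt_zero m)⟩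
      | succ k ih =>
        intro hk
        obtain ⟨M, hM⟩ := ih (Nat.le_of_succ_le hk)
        obtain ⟨u, hu, hu'⟩ := (Part.mem_map_iff _).1 (@hlt k hk)
        obtain ⟨M', hM'⟩ := iha _ u hu
        refine ⟨max M M', fun g' hg m hm => ?_⟩
        rcases Nat.lt_succ_iff_lt_or_eq.1 hm with hm | rfl
        · exact hM g' (fun i hi => hg i (lt_of_lt_of_le hi (le_max_left _ _))) m hm
        · exact ⟨u, hM' g' (fun i hi => hg i (lt_of_lt_of_le hi (le_max_right _ _))), hu'⟩
    obtain ⟨M, hM⟩ := key v le_rfl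
    exact ⟨max m0 M, fun g' hg => Nat.mem_rfind.2
      ⟨(Part.mem_map_iff _).2
        ⟨w, h0 g' fun i hi => hg i (lt_of_lt_of_le hi (le_max_left _ _)), hw'⟩,
      fun {m} hm => (Part.mem_map_iff _).2
        (hM g' (fun i hi => hg i (lt_of_lt_of_le hi (le_max_right _ _))) m hm)⟩⟩

/-- The set coded by a sequence of pairs of bits, with a parity bit in every block of three. -/
def blk (G : ℕ → Bool × Bool) (k : ℕ) : Bool :=
  if k % 3 = 0 then (G (k / 3)).1
  else if k % 3 = 1 then (G (k / 3)).2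
  else xor (G (k / 3)).1 (G (k / 3)).2

/-- The characteristic function of the trace of `blk G` on the set `S`, as a partial function. -/
def tr (G : ℕ → Bool × Bool) (S : ℕ → Bool) : ℕ → Part ℕ :=
  fun n => Part.some (Bool.toNat (blk G n && S n))

/-- The set `S` misses two of the three elements of block `n`. -/
def Misses (S : ℕ → Bool) (n : ℕ) : Prop :=
  ∃ i j : ℕ, i < 3 ∧ j < 3 ∧ i ≠ j ∧ S (3 * n + i) = false ∧ S (3 * n + j) = false

theorem misses_or (S : ℕ → Bool) (n : ℕ) : Misses S n ∨ Misses (fun k => !S k) n := by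
  cases h0 : S (3 * n + 0) <;> cases h1 : S (3 * n + 1) <;> cases h2 : S (3 * n + 2)
  · exact Or.inl ⟨0, 1, by omega, by omega, by omega, h0, h1⟩
  · exact Or.inl ⟨0, 1, by omega, by omega, by omega, h0, h1⟩
  · exact Or.inl ⟨0, 2, by omega, by omega, by omega, h0, h2⟩
  · exact Or.inr ⟨1, 2, by omega, by omega, by omega, by simp [h1], by simp [h2]⟩
  · exact Or.inl ⟨1, 2, by omega, by omega, by omega, h1, h2⟩
  · exact Or.inr ⟨0, 2, by omega, by omega, by omega, by show (!S (3 * n + 0)) = false; rw [h0]; rfl, by simp [h2]⟩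
  · exact Or.inr ⟨0, 1, by omega, by omega, by omega, by show (!S (3 * n + 0)) = false; rw [h0]; rfl, by simp [h1]⟩
  · exact Or.inr ⟨0, 1, by omega, by omega, by omega, by show (!S (3 * n + 0)) = false; rw [h0]; rfl, by simp [h1]⟩

/-- Flipping two elements outside `S` of one block. -/
theorem exists_flip (G : ℕ → Bool × Bool) (S : ℕ → Bool) (n : ℕ) (h : Misses S n) :
    ∃ G' : ℕ → Bool × Bool, ∃ x : ℕ, (∀ k, k ≠ n → G' k = G k) ∧ blk G' x ≠ blk G x ∧
      tr G' S = tr G S := by
  obtain ⟨i, j, hi, hj, hij, h1, h2⟩ := h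
  let f : Bool × Bool → Bool × Bool := fun p =>
    (if i = 0 ∨ j = 0 then !p.1 else p.1, if i = 1 ∨ j = 1 then !p.2 else p.2)
  refine ⟨Function.update G n (f (G n)), 3 * n + i, ?_, ?_, ?_⟩
  · intro k hk; simp [Function.update_of_ne hk]
  · have e1 : (3 * n + i) / 3 = n := by omega
    have e2 : (3 * n + i) % 3 = i := by omega
    unfold blk
    rw [e1, e2]
    rcases G n with ⟨u, v⟩
    simp only [Function.update_self, f]
    interval_cases i <;> interval_cases j <;> simp at hij <;> cases u <;> cases v <;> simp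
  · funext k
    unfold tr
    congr 2
    by_cases hk : k / 3 = n
    · by_cases hki : k = 3 * n + i
      · rw [hki, h1]; simp
      · by_cases hkj : k = 3 * n + j
        · rw [hkj, h2]; simp
        · congr 1
          unfold blk
          rw [hk]
          obtain ⟨r, hr, hr'⟩ : ∃ r, r < 3 ∧ k = 3 * n + r := ⟨k % 3, by omega, by omega⟩
          have e2 : k % 3 = r := by omega
          rw [e2]
          have hri : r ≠ i := by omega
          have hrj : r ≠ j := by omega
          rcases G n with ⟨u, v⟩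
          simp only [Function.update_self, f]
          interval_cases i <;> interval_cases j <;> simp at hij <;> interval_cases r <;>
            simp at hri hrj <;> cases u <;> cases v <;> simp
    · congr 1
      unfold blk
      rw [Function.update_of_ne hk]

/-- The requirement attached to `S` and a code. -/
def Req (S : ℕ → Bool) (c : OCode) : Set (ℕ → Bool × Bool) :=
  {G | ∃ x, ¬ ((Bool.toNat (blk G x)) ∈ c.eval (tr G S) x)}

theorem tr_congr {G G' : ℕ → Bool × Bool} {S : ℕ → Bool} {m : ℕ}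
    (h : ∀ k < m, G' k = G k) : ∀ i < m, tr G' S i = tr G S i := by
  intro i hi
  have : i / 3 < m := lt_of_le_of_lt (Nat.div_le_self i 3) hi
  unfold tr blk
  rw [h _ this]

theorem isOpen_agree (G : ℕ → Bool × Bool) (m : ℕ) :
    IsOpen {G' : ℕ → Bool × Bool | ∀ k < m, G' k = G k} :=
  PiNat.isOpen_cylinder (fun _ => Bool × Bool) G m

theorem dense_interior_req (S : ℕ → Bool) (hS : ∀ m, ∃ n, m ≤ n ∧ Misses S n) (c : OCode) :
    Dense (interior (Req S c)) := by
  rw [(PiNat.isTopologicalBasis_cylinders (fun _ => Bool × Bool)).dense_iff]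
  rintro o ⟨G, m, rfl⟩ -
  by_cases hex : ∃ G' ∈ PiNat.cylinder G m, ∃ x v, v ∈ c.eval (tr G' S) x ∧
      v ≠ Bool.toNat (blk G' x)
  · obtain ⟨G', hG', x, v, hv, hne⟩ := hex
    obtain ⟨M, hM⟩ := use_principle c _ x v hv
    refine ⟨G', hG', ?_⟩
    rw [mem_interior]
    refine ⟨_, ?_, isOpen_agree G' (max M (x + 1)), fun _ _ => rfl⟩
    intro G'' hG''
    refine ⟨x, fun hc => hne ?_⟩
    have h1 : v ∈ c.eval (tr G'' S) x :=
      hM _ (tr_congr fun k hk => hG'' k (lt_of_lt_of_le hk (le_max_left _ _)))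
    have h2 := Part.mem_unique h1 hc
    have h3 : blk G'' x = blk G' x := by
      unfold blk
      rw [hG'' (x / 3) (lt_of_lt_of_le (by omega : x / 3 < x + 1) (le_max_right _ _))]
    rw [h2, h3]
  · push Not at hex
    refine ⟨G, PiNat.self_mem_cylinder G m, ?_⟩
    rw [mem_interior]
    refine ⟨_, ?_, isOpen_agree G m, fun _ _ => rfl⟩
    intro G' hG'
    obtain ⟨n, hn, hmiss⟩ := hS m
    obtain ⟨G'', x, h1, h2, h3⟩ := exists_flip G' S n hmiss
    refine ⟨x, fun hc => h2 ?_⟩
    have h4 : G'' ∈ PiNat.cylinder G m := by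
      intro k hk
      rw [h1 k (by omega)]
      exact hG' k hk
    rw [← h3] at hc
    have h5 := hex G'' h4 x _ hc
    have : ∀ a b : Bool, Bool.toNat a = Bool.toNat b → b = a := by decide
    exact this _ _ h5

/-- The set of naturals decided by a code. -/
noncomputable def dec (e : Nat.Partrec.Code) (n : ℕ) : Bool :=
  @decide (1 ∈ e.eval n) (Classical.propDecidable _)

theorem exists_dec (S : ℕ → Bool) (hS : Computable S) : ∃ e, dec e = S := by
  have h : Nat.Partrec fun n => Part.some (Bool.toNat (S n)) := by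
    have h1 : Computable fun n => Bool.toNat (S n) := by
      have h2 : Primrec Bool.toNat := Primrec.dom_finite _
      exact h2.to_comp.comp hS
    exact Partrec.nat_iff.1 h1
  obtain ⟨e, he⟩ := Nat.Partrec.Code.exists_code.1 h
  refine ⟨e, ?_⟩
  funext n
  unfold dec
  rw [he]
  cases h3 : S n <;> simp [h3]

/-- A sufficiently generic sequence. -/
theorem exists_generic : ∃ G : ℕ → Bool × Bool, ∀ S : ℕ → Bool, Computable S →
    (∀ m, ∃ n, m ≤ n ∧ Misses S n) → ∀ c : OCode, G ∈ Req S c := by
  have key : Dense (⋂ p : {e : Nat.Partrec.Code // ∀ m, ∃ n, m ≤ n ∧ Misses (dec e) n} × OCode,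
      interior (Req (dec p.1.1) p.2)) :=
    dense_iInter_of_isOpen (fun _ => isOpen_interior)
      (fun p => dense_interior_req _ p.1.2 p.2)
  obtain ⟨G, hG⟩ := key.nonempty
  refine ⟨G, fun S hS hm c => ?_⟩
  obtain ⟨e, rfl⟩ := exists_dec S hS
  exact interior_subset (Set.mem_iInter.1 hG ⟨⟨e, hm⟩, c⟩)

/-- The two companions of a number in its block of three. -/
def ca (x : ℕ) : ℕ := 3 * (x / 3) + (x % 3 + 1) % 3

/-- The two companions of a number in its block of three. -/
def cb (x : ℕ) : ℕ := 3 * (x / 3) + (x % 3 + 2) % 3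

theorem ca_ne (x : ℕ) : ca x ≠ x := by unfold ca; omega
theorem cb_ne (x : ℕ) : cb x ≠ x := by unfold cb; omega

theorem blk_eq (G : ℕ → Bool × Bool) (x : ℕ) : blk G x = xor (blk G (ca x)) (blk G (cb x)) := by
  have ha : ca x / 3 = x / 3 := by unfold ca; omega
  have hb : cb x / 3 = x / 3 := by unfold cb; omega
  unfold blk
  rw [ha, hb]
  rcases G (x / 3) with ⟨u, v⟩
  have h3 : x % 3 = 0 ∨ x % 3 = 1 ∨ x % 3 = 2 := by omega
  rcases h3 with h | h | h
  · have h1 : ca x % 3 = 1 := by unfold ca; omega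
    have h2 : cb x % 3 = 2 := by unfold cb; omega
    rw [h, h1, h2]; cases u <;> cases v <;> rfl
  · have h1 : ca x % 3 = 2 := by unfold ca; omega
    have h2 : cb x % 3 = 0 := by unfold cb; omega
    rw [h, h1, h2]; cases u <;> cases v <;> rfl
  · have h1 : ca x % 3 = 0 := by unfold ca; omega
    have h2 : cb x % 3 = 1 := by unfold cb; omega
    rw [h, h1, h2]; cases u <;> cases v <;> rfl

theorem primrec_ca : Primrec ca := by
  unfold ca
  refine Primrec.nat_add.comp (Primrec.nat_mul.comp (Primrec.const 3)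
    (Primrec.nat_div.comp Primrec.id (Primrec.const 3))) ?_
  exact Primrec.nat_mod.comp (Primrec.nat_add.comp
    (Primrec.nat_mod.comp Primrec.id (Primrec.const 3)) (Primrec.const 1)) (Primrec.const 3)

theorem primrec_cb : Primrec cb := by
  unfold cb
  refine Primrec.nat_add.comp (Primrec.nat_mul.comp (Primrec.const 3)
    (Primrec.nat_div.comp Primrec.id (Primrec.const 3))) ?_
  exact Primrec.nat_mod.comp (Primrec.nat_add.comp
    (Primrec.nat_mod.comp Primrec.id (Primrec.const 3)) (Primrec.const 2)) (Primrec.const 3)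

/-- The autoreduction: a number is decided from the parity of its two companions. -/
def Rel (q : List ℕ × List ℕ × ℕ × Bool) : Prop :=
  q = ([ca q.2.2.1, cb q.2.2.1], [], q.2.2.1, false) ∨
  q = ([ca q.2.2.1], [cb q.2.2.1], q.2.2.1, true) ∨
  q = ([cb q.2.2.1], [ca q.2.2.1], q.2.2.1, true) ∨
  q = ([], [ca q.2.2.1, cb q.2.2.1], q.2.2.1, false)

theorem rel_re : REPred Rel := by
  have hx : Primrec fun q : List ℕ × List ℕ × ℕ × Bool => q.2.2.1 :=
    Primrec.fst.comp (Primrec.snd.comp Primrec.snd)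
  have ha : Primrec fun q : List ℕ × List ℕ × ℕ × Bool => ca q.2.2.1 := primrec_ca.comp hx
  have hb : Primrec fun q : List ℕ × List ℕ × ℕ × Bool => cb q.2.2.1 := primrec_cb.comp hx
  have h1 : PrimrecPred fun q : List ℕ × List ℕ × ℕ × Bool =>
      q = ([ca q.2.2.1, cb q.2.2.1], [], q.2.2.1, false) :=
    Primrec.eq.comp Primrec.id (Primrec.pair
      (Primrec.list_cons.comp ha (Primrec.list_cons.comp hb (Primrec.const [])))
      (Primrec.pair (Primrec.const []) (Primrec.pair hx (Primrec.const false))))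
  have h2 : PrimrecPred fun q : List ℕ × List ℕ × ℕ × Bool =>
      q = ([ca q.2.2.1], [cb q.2.2.1], q.2.2.1, true) :=
    Primrec.eq.comp Primrec.id (Primrec.pair
      (Primrec.list_cons.comp ha (Primrec.const []))
      (Primrec.pair (Primrec.list_cons.comp hb (Primrec.const []))
        (Primrec.pair hx (Primrec.const true))))
  have h3 : PrimrecPred fun q : List ℕ × List ℕ × ℕ × Bool =>
      q = ([cb q.2.2.1], [ca q.2.2.1], q.2.2.1, true) :=
    Primrec.eq.comp Primrec.id (Primrec.pair
      (Primrec.list_cons.comp hb (Primrec.const []))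
      (Primrec.pair (Primrec.list_cons.comp ha (Primrec.const []))
        (Primrec.pair hx (Primrec.const true))))
  have h4 : PrimrecPred fun q : List ℕ × List ℕ × ℕ × Bool =>
      q = ([], [ca q.2.2.1, cb q.2.2.1], q.2.2.1, false) :=
    Primrec.eq.comp Primrec.id (Primrec.pair (Primrec.const [])
      (Primrec.pair (Primrec.list_cons.comp ha (Primrec.list_cons.comp hb (Primrec.const [])))
      (Primrec.pair hx (Primrec.const false))))
  have h : PrimrecPred Rel := h1.or (h2.or (h3.or h4))
  exact h.computablePred.to_re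

/-- The negation of the preceding statement: Every nontrivial set A of naturals that is Turing-autoreducible (A(x) computable from A by a procedure never querying x) is Turing-mitotic: some computable S has A∩S and A minus S both Turing-equivalent to A. -/
theorem result :
    ¬ (∀ A : ℕ → Bool, (∃ n, A n = true) → (∃ n, A n = false) →
      (∃ R : List ℕ × List ℕ × ℕ × Bool → Prop, REPred R ∧
        ∀ x : ℕ,
          (∃ P N : List ℕ, ∃ b : Bool, R (P, N, x, b) ∧
              (∀ y ∈ P, y ≠ x ∧ A y = true) ∧ (∀ y ∈ N, y ≠ x ∧ A y = false)) ∧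
          (∀ P N : List ℕ, ∀ b : Bool, R (P, N, x, b) →
              (∀ y ∈ P, y ≠ x ∧ A y = true) → (∀ y ∈ N, y ≠ x ∧ A y = false) →
              b = A x)) →
      ∃ S : ℕ → Bool, Computable S ∧
        TuringEquivalent (fun n => Part.some (Bool.toNat (A n && S n)))
          (fun n => Part.some (Bool.toNat (A n))) ∧
        TuringEquivalent (fun n => Part.some (Bool.toNat (A n && !S n)))
          (fun n => Part.some (Bool.toNat (A n)))) := by
  intro H
  obtain ⟨G, hG⟩ := exists_generic
  have fromCode : ∀ S : ℕ → Bool, Computable S → (∀ m, ∃ n, m ≤ n ∧ Misses S n) →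
      ¬ RecursiveIn {(tr G S : ℕ →. ℕ)} (fun n => Part.some (Bool.toNat (blk G n))) := by
    intro S hS hm hrec
    obtain ⟨c, hc⟩ := exists_code (g := tr G S) (RecursiveIn.iff_nat.1 hrec)
    obtain ⟨x, hx⟩ := hG S hS hm c
    exact hx (by rw [hc]; exact Part.mem_some _)
  -- `blk G` is nontrivial
  have hne : ∃ n, blk G n = true := by
    by_contra hcon
    push Not at hcon
    obtain ⟨x, hx⟩ := hG (fun _ => false) (Computable.const false)
      (fun m => ⟨m, le_rfl, 0, 1, by omega, by omega, by omega, rfl, rfl⟩) OCode.zero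
    apply hx
    have : blk G x = false := by simpa using hcon x
    rw [this]
    exact Part.mem_some _
  have hne' : ∃ n, blk G n = false := by
    by_contra hcon
    push Not at hcon
    have h0 : blk G 0 = true := by simpa using hcon 0
    have h1 : blk G (ca 0) = true := by simpa using hcon (ca 0)
    have h2 : blk G (cb 0) = true := by simpa using hcon (cb 0)
    have h3 := blk_eq G 0
    rw [h0, h1, h2] at h3
    exact absurd h3 (by decide)
  obtain ⟨S, hS, hS1, hS2⟩ := H (blk G) hne hne' ⟨Rel, rel_re, fun x => by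
    constructor
    · have hx := blk_eq G x
      cases h1 : blk G (ca x) <;> cases h2 : blk G (cb x)
      · refine ⟨[], [ca x, cb x], false, Or.inr (Or.inr (Or.inr rfl)), by simp, ?_⟩
        intro y hy
        rcases List.mem_cons.1 hy with rfl | hy
        · exact ⟨ca_ne x, h1⟩
        · rw [List.mem_singleton.1 hy]; exact ⟨cb_ne x, h2⟩
      · refine ⟨[cb x], [ca x], true, Or.inr (Or.inr (Or.inl rfl)), ?_, ?_⟩
        · intro y hy; rw [List.mem_singleton.1 hy]; exact ⟨cb_ne x, h2⟩
        · intro y hy; rw [List.mem_singleton.1 hy]; exact ⟨ca_ne x, h1⟩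
      · refine ⟨[ca x], [cb x], true, Or.inr (Or.inl rfl), ?_, ?_⟩
        · intro y hy; rw [List.mem_singleton.1 hy]; exact ⟨ca_ne x, h1⟩
        · intro y hy; rw [List.mem_singleton.1 hy]; exact ⟨cb_ne x, h2⟩
      · refine ⟨[ca x, cb x], [], false, Or.inl rfl, ?_, by simp⟩
        intro y hy
        rcases List.mem_cons.1 hy with rfl | hy
        · exact ⟨ca_ne x, h1⟩
        · rw [List.mem_singleton.1 hy]; exact ⟨cb_ne x, h2⟩
    · intro P N b hR hP hN
      have hx := blk_eq G x
      rcases hR with h | h | h | h <;> simp only [Prod.mk.injEq] at h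
      · obtain ⟨rfl, rfl, -, rfl⟩ := h
        rw [hx, (hP (ca x) (by simp)).2, (hP (cb x) (by simp)).2]; rfl
      · obtain ⟨rfl, rfl, -, rfl⟩ := h
        rw [hx, (hP (ca x) (by simp)).2, (hN (cb x) (by simp)).2]; rfl
      · obtain ⟨rfl, rfl, -, rfl⟩ := h
        rw [hx, (hN (ca x) (by simp)).2, (hP (cb x) (by simp)).2]; rfl
      · obtain ⟨rfl, rfl, -, rfl⟩ := h
        rw [hx, (hN (ca x) (by simp)).2, (hN (cb x) (by simp)).2]; rfl⟩
  have hS' : Computable fun n => !S n :=
    (Primrec.dom_finite Bool.not).to_comp.comp hS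
  by_cases hinf : ∀ m, ∃ n, m ≤ n ∧ Misses S n
  · exact fromCode S hS hinf hS1.2
  · push Not at hinf
    obtain ⟨m0, hm0⟩ := hinf
    refine fromCode _ hS' (fun m => ⟨max m m0, le_max_left _ _, ?_⟩) hS2.2
    exact (misses_or S (max m m0)).resolve_left (hm0 _ (le_max_right _ _))

end Pool.Agent.S09830
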